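import Pool.Agent.Lib.MP_5854e1_co.DtD

/-!
# Windows and cells of the rings
-/

set_option autoImplicit false
set_option maxRecDepth 100000
set_option deprecated.oldSectionVars true

namespace Pool.Agent.Lib.MP_5854e1_co.Cz

open Pool.Agent.Lib.MP_5854e1_co

noncomputable section

noncomputable def tv000 : DT := (.nd (nat_lit 0) (.nd (nat_lit 1) (.nd (nat_lit 2) (.nd (nat_lit 3) (.nd (nat_lit 4) 
(.lf (nat_lit 32) (.g (nat_lit 3588) (.e (nat_lit 11) (nat_lit 0) (.e (nat_lit 2031) (nat_lit 140) (.e (nat_lit 688177) (nat_lit 16) (.e (nat_lit 65571) (nat_lit 3) (.e (nat_lit 98370) (nat_lit 28) (.e (nat_lit 442424) (nat_lit 22) (.e (nat_lit 204544) (nat_lit 0) .nil))))))) (.g (nat_lit 6) .nil .nil))) (.nd (nat_lit 5) 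
(.lf (nat_lit 16) (.g (nat_lit 2104) (.e (nat_lit 4) (nat_lit 0) (.e (nat_lit 2031) (nat_lit 140) (.e (nat_lit 688177) (nat_lit 16) (.e (nat_lit 65586) (nat_lit 7) (.e (nat_lit 319531) (nat_lit 16) .nil))))) .nil)) 
(.lf (nat_lit 48) (.g (nat_lit 2207) (.e (nat_lit 11) (nat_lit 0) (.e (nat_lit 7065) (nat_lit 377) (.e (nat_lit 1348) (nat_lit 102) (.e (nat_lit 286735) (nat_lit 3) (.e (nat_lit 98373) (nat_lit 29) (.e (nat_lit 450587) (nat_lit 10) (.e (nat_lit 573457) (nat_lit 9) .nil))))))) (.g (nat_lit 6) .nil .nil))))) (.nd (nat_lit 4) (.nd (nat_lit 5) 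
(.lf (nat_lit 8) (.g (nat_lit 4918) (.e (nat_lit 3) (nat_lit 0) (.e (nat_lit 3309) (nat_lit 202) (.e (nat_lit 573492) (nat_lit 15) (.e (nat_lit 81956) (nat_lit 23) (.e (nat_lit 98350) (nat_lit 24) (.e (nat_lit 409616) (nat_lit 10) (.e (nat_lit 7936) (nat_lit 298) .nil))))))) (.g (nat_lit 6) .nil .nil))) 
(.lf (nat_lit 40) (.g (nat_lit 2097) (.e (nat_lit 11) (nat_lit 0) (.e (nat_lit 6114) (nat_lit 332) (.e (nat_lit 1370) (nat_lit 103) (.e (nat_lit 294960) (nat_lit 13) .nil)))) .nil))) (.nd (nat_lit 5) 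
(.lf (nat_lit 24) (.g (nat_lit 1843) (.e (nat_lit 11) (nat_lit 0) (.e (nat_lit 1849) (nat_lit 124) (.e (nat_lit 557108) (nat_lit 15) (.e (nat_lit 188452) (nat_lit 23) (.e (nat_lit 204846) (nat_lit 24) (.e (nat_lit 319504) (nat_lit 10) (.e (nat_lit 7936) (nat_lit 312) .nil))))))) (.g (nat_lit 6) .nil .nil))) 
(.lf (nat_lit 56) (.g (nat_lit 1988) (.e (nat_lit 11) (nat_lit 0) (.e (nat_lit 7082) (nat_lit 378) (.e (nat_lit 57896) (nat_lit 273) (.e (nat_lit 57464) (nat_lit 23) (.e (nat_lit 516165) (nat_lit 12) (.e (nat_lit 450586) (nat_lit 10) (.e (nat_lit 573452) (nat_lit 9) .nil))))))) (.g (nat_lit 0) .nil .nil)))))) (.nd (nat_lit 3) (.nd (nat_lit 4) (.nd (nat_lit 5) 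
(.lf (nat_lit 4) (.g (nat_lit 2386) (.e (nat_lit 0) (nat_lit 0) (.e (nat_lit 2031) (nat_lit 140) (.e (nat_lit 688177) (nat_lit 16) (.e (nat_lit 65571) (nat_lit 3) (.e (nat_lit 98370) (nat_lit 28) .nil))))) .nil)) 
(.lf (nat_lit 36) (.g (nat_lit 1079) (.e (nat_lit 11) (nat_lit 0) (.e (nat_lit 2777) (nat_lit 178) (.e (nat_lit 286761) (nat_lit 13) .nil))) .nil))) (.nd (nat_lit 5) 
(.lf (nat_lit 20) (.g (nat_lit 2364) (.e (nat_lit 11) (nat_lit 0) (.e (nat_lit 1348) (nat_lit 102) (.e (nat_lit 286761) (nat_lit 13) (.e (nat_lit 393234) (nat_lit 17) (.e (nat_lit 7593) (nat_lit 407) .nil))))) .nil)) 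
(.lf (nat_lit 52) (.g (nat_lit 4203) (.e (nat_lit 11) (nat_lit 0) (.e (nat_lit 7079) (nat_lit 378) (.e (nat_lit 57876) (nat_lit 270) (.e (nat_lit 1239) (nat_lit 91) (.e (nat_lit 90170) (nat_lit 13) (.e (nat_lit 172106) (nat_lit 10) (.e (nat_lit 434244) (nat_lit 28) (.e (nat_lit 573451) (nat_lit 9) .nil)))))))) (.g (nat_lit 0) .nil .nil))))) (.nd (nat_lit 4) (.nd (nat_lit 5) 
(.lf (nat_lit 12) (.g (nat_lit 4294) (.e (nat_lit 3) (nat_lit 0) (.e (nat_lit 6468) (nat_lit 343) (.e (nat_lit 1659) (nat_lit 115) (.e (nat_lit 393301) (nat_lit 27) (.e (nat_lit 491560) (nat_lit 10) (.e (nat_lit 344179) (nat_lit 44) (.e (nat_lit 778362) (nat_lit 9) .nil))))))) (.g (nat_lit 7) .nil .nil))) 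
(.lf (nat_lit 44) (.g (nat_lit 3470) (.e (nat_lit 11) (nat_lit 0) (.e (nat_lit 6961) (nat_lit 377) (.e (nat_lit 1349) (nat_lit 102) (.e (nat_lit 286735) (nat_lit 3) (.e (nat_lit 98373) (nat_lit 29) (.e (nat_lit 450588) (nat_lit 10) (.e (nat_lit 573452) (nat_lit 9) .nil))))))) (.g (nat_lit 7) .nil .nil)))) (.nd (nat_lit 5) 
(.lf (nat_lit 28) (.g (nat_lit 3013) (.e (nat_lit 11) (nat_lit 0) (.e (nat_lit 1858) (nat_lit 124) (.e (nat_lit 557101) (nat_lit 13) (.e (nat_lit 172115) (nat_lit 10) (.e (nat_lit 434231) (nat_lit 23) (.e (nat_lit 532490) (nat_lit 0) (.e (nat_lit 6223) (nat_lit 334) (.e (nat_lit 123166) (nat_lit 256) .nil)))))))) (.g (nat_lit 5) .nil .nil))) 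
(.lf (nat_lit 60) (.g (nat_lit 1856) (.e (nat_lit 12) (nat_lit 0) (.e (nat_lit 1349) (nat_lit 102) (.e (nat_lit 286759) (nat_lit 12) (.e (nat_lit 385094) (nat_lit 49) .nil)))) .nil)))))) (.nd (nat_lit 2) (.nd (nat_lit 3) (.nd (nat_lit 4) (.nd (nat_lit 5) 
(.lf (nat_lit 2) (.g (nat_lit 2390) (.e (nat_lit 0) (nat_lit 0) (.e (nat_lit 2031) (nat_lit 140) (.e (nat_lit 688177) (nat_lit 16) (.e (nat_lit 65569) (nat_lit 3) (.e (nat_lit 98359) (nat_lit 26) (.e (nat_lit 426211) (nat_lit 9) (.e (nat_lit 426125) (nat_lit 2) (.e (nat_lit 204544) (nat_lit 0) .nil)))))))) (.g (nat_lit 4) .nil .nil))) 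
(.lf (nat_lit 34) (.g (nat_lit 1927) (.e (nat_lit 11) (nat_lit 0) (.e (nat_lit 2777) (nat_lit 178) (.e (nat_lit 286759) (nat_lit 12) (.e (nat_lit 385106) (nat_lit 50) (.e (nat_lit 786481) (nat_lit 30) .nil))))) .nil))) (.nd (nat_lit 5) 
(.lf (nat_lit 18) (.g (nat_lit 2386) (.e (nat_lit 11) (nat_lit 0) (.e (nat_lit 1348) (nat_lit 102) (.e (nat_lit 286761) (nat_lit 13) (.e (nat_lit 393234) (nat_lit 17) (.e (nat_lit 7591) (nat_lit 407) .nil))))) .nil)) 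
(.lf (nat_lit 50) (.g (nat_lit 4035) (.e (nat_lit 11) (nat_lit 0) (.e (nat_lit 7065) (nat_lit 377) (.e (nat_lit 1349) (nat_lit 102) (.e (nat_lit 286735) (nat_lit 3) (.e (nat_lit 98373) (nat_lit 29) (.e (nat_lit 450588) (nat_lit 10) (.e (nat_lit 573452) (nat_lit 9) .nil))))))) (.g (nat_lit 0) .nil .nil))))) (.nd (nat_lit 4) (.nd (nat_lit 5) 
(.lf (nat_lit 10) (.g (nat_lit 1822) (.e (nat_lit 3) (nat_lit 0) (.e (nat_lit 3605) (nat_lit 225) (.e (nat_lit 761905) (nat_lit 16) (.e (nat_lit 172034) (nat_lit 0) .nil)))) .nil)) 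
(.lf (nat_lit 42) (.g (nat_lit 3706) (.e (nat_lit 11) (nat_lit 0) (.e (nat_lit 6961) (nat_lit 377) (.e (nat_lit 1348) (nat_lit 102) (.e (nat_lit 286735) (nat_lit 3) (.e (nat_lit 98373) (nat_lit 29) (.e (nat_lit 450588) (nat_lit 10) (.e (nat_lit 573452) (nat_lit 9) .nil))))))) (.g (nat_lit 7) .nil .nil)))) (.nd (nat_lit 5) 
(.lf (nat_lit 26) (.g (nat_lit 2138) (.e (nat_lit 11) (nat_lit 0) (.e (nat_lit 1858) (nat_lit 124) (.e (nat_lit 557101) (nat_lit 13) (.e (nat_lit 172097) (nat_lit 9) (.e (nat_lit 426125) (nat_lit 2) .nil))))) .nil)) 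
(.lf (nat_lit 58) (.g (nat_lit 2385) (.e (nat_lit 12) (nat_lit 0) (.e (nat_lit 1348) (nat_lit 102) (.e (nat_lit 286761) (nat_lit 13) (.e (nat_lit 393234) (nat_lit 17) (.e (nat_lit 7591) (nat_lit 407) .nil))))) .nil))))) (.nd (nat_lit 3) (.nd (nat_lit 4) (.nd (nat_lit 5) 
(.lf (nat_lit 6) (.g (nat_lit 1810) (.e (nat_lit 1) (nat_lit 0) (.e (nat_lit 2031) (nat_lit 140) (.e (nat_lit 688177) (nat_lit 16) (.e (nat_lit 65569) (nat_lit 3) .nil)))) .nil)) 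
(.lf (nat_lit 38) (.g (nat_lit 4534) (.e (nat_lit 11) (nat_lit 0) (.e (nat_lit 3877) (nat_lit 233) (.e (nat_lit 1190) (nat_lit 88) (.e (nat_lit 65619) (nat_lit 10) (.e (nat_lit 344129) (nat_lit 26) (.e (nat_lit 557087) (nat_lit 11) (.e (nat_lit 24617) (nat_lit 7) (.e (nat_lit 319505) (nat_lit 10) .nil)))))))) (.g (nat_lit 8) .nil .nil)))) (.nd (nat_lit 5) 
(.lf (nat_lit 22) (.g (nat_lit 1380) (.e (nat_lit 11) (nat_lit 0) (.e (nat_lit 1349) (nat_lit 102) (.e (nat_lit 286761) (nat_lit 13) (.e (nat_lit 393234) (nat_lit 17) .nil)))) .nil)) 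
(.lf (nat_lit 54) (.g (nat_lit 1914) (.e (nat_lit 11) (nat_lit 0) (.e (nat_lit 7079) (nat_lit 378) (.e (nat_lit 57884) (nat_lit 270) (.e (nat_lit 1250) (nat_lit 92) (.e (nat_lit 98372) (nat_lit 29) (.e (nat_lit 450586) (nat_lit 10) (.e (nat_lit 573452) (nat_lit 9) .nil))))))) (.g (nat_lit 6) .nil .nil))))) (.nd (nat_lit 4) (.nd (nat_lit 5) 
(.lf (nat_lit 14) (.g (nat_lit 2425) (.e (nat_lit 4) (nat_lit 0) (.e (nat_lit 2031) (nat_lit 140) (.e (nat_lit 688177) (nat_lit 16) (.e (nat_lit 65569) (nat_lit 3) (.e (nat_lit 98370) (nat_lit 28) .nil))))) .nil)) 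
(.lf (nat_lit 46) (.g (nat_lit 3104) (.e (nat_lit 11) (nat_lit 0) (.e (nat_lit 7064) (nat_lit 377) (.e (nat_lit 1349) (nat_lit 102) (.e (nat_lit 286735) (nat_lit 3) (.e (nat_lit 98373) (nat_lit 29) (.e (nat_lit 450587) (nat_lit 10) (.e (nat_lit 573457) (nat_lit 9) .nil))))))) (.g (nat_lit 0) .nil .nil)))) (.nd (nat_lit 5) 
(.lf (nat_lit 30) (.g (nat_lit 1961) (.e (nat_lit 11) (nat_lit 0) (.e (nat_lit 1860) (nat_lit 124) (.e (nat_lit 557101) (nat_lit 13) (.e (nat_lit 172115) (nat_lit 10) (.e (nat_lit 434231) (nat_lit 23) (.e (nat_lit 532490) (nat_lit 0) (.e (nat_lit 6223) (nat_lit 334) (.e (nat_lit 123166) (nat_lit 256) .nil)))))))) (.g (nat_lit 4) .nil .nil))) 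
(.lf (nat_lit 62) (.g (nat_lit 1841) (.e (nat_lit 12) (nat_lit 0) (.e (nat_lit 1349) (nat_lit 102) (.e (nat_lit 286761) (nat_lit 13) (.e (nat_lit 393234) (nat_lit 17) (.e (nat_lit 7593) (nat_lit 407) .nil))))) .nil))))))) (.nd (nat_lit 1) (.nd (nat_lit 2) (.nd (nat_lit 3) (.nd (nat_lit 4) (.nd (nat_lit 5) 
(.lf (nat_lit 1) (.g (nat_lit 4157) (.e (nat_lit 0) (nat_lit 0) (.e (nat_lit 1863) (nat_lit 124) (.e (nat_lit 557108) (nat_lit 15) (.e (nat_lit 188452) (nat_lit 23) (.e (nat_lit 204846) (nat_lit 24) .nil))))) .nil)) 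
(.lf (nat_lit 33) (.g (nat_lit 2887) (.e (nat_lit 11) (nat_lit 0) (.e (nat_lit 2406) (nat_lit 157) (.e (nat_lit 5293) (nat_lit 298) (.e (nat_lit 1633) (nat_lit 114) (.e (nat_lit 385106) (nat_lit 50) (.e (nat_lit 786481) (nat_lit 30) (.e (nat_lit 360455) (nat_lit 0) (.e (nat_lit 5813) (nat_lit 320) .nil)))))))) (.g (nat_lit 6) .nil .nil)))) (.nd (nat_lit 5) 
(.lf (nat_lit 17) (.g (nat_lit 4102) (.e (nat_lit 5) (nat_lit 0) (.e (nat_lit 7064) (nat_lit 377) (.e (nat_lit 1349) (nat_lit 102) (.e (nat_lit 286735) (nat_lit 3) (.e (nat_lit 98373) (nat_lit 29) (.e (nat_lit 450588) (nat_lit 10) (.e (nat_lit 573449) (nat_lit 9) .nil))))))) (.g (nat_lit 0) .nil .nil))) 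
(.lf (nat_lit 49) (.g (nat_lit 3084) (.e (nat_lit 11) (nat_lit 0) (.e (nat_lit 7065) (nat_lit 377) (.e (nat_lit 1349) (nat_lit 102) (.e (nat_lit 286735) (nat_lit 3) (.e (nat_lit 98373) (nat_lit 29) (.e (nat_lit 450587) (nat_lit 10) (.e (nat_lit 573457) (nat_lit 9) .nil))))))) (.g (nat_lit 0) .nil .nil))))) (.nd (nat_lit 4) (.nd (nat_lit 5) 
(.lf (nat_lit 9) (.g (nat_lit 3997) (.e (nat_lit 3) (nat_lit 0) (.e (nat_lit 3309) (nat_lit 202) (.e (nat_lit 573493) (nat_lit 15) (.e (nat_lit 81956) (nat_lit 23) (.e (nat_lit 98350) (nat_lit 24) (.e (nat_lit 409616) (nat_lit 10) (.e (nat_lit 7936) (nat_lit 298) .nil))))))) (.g (nat_lit 5) .nil .nil))) 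
(.lf (nat_lit 41) (.g (nat_lit 2266) (.e (nat_lit 11) (nat_lit 0) (.e (nat_lit 6961) (nat_lit 377) (.e (nat_lit 1348) (nat_lit 102) (.e (nat_lit 286735) (nat_lit 3) (.e (nat_lit 98373) (nat_lit 29) (.e (nat_lit 450587) (nat_lit 10) (.e (nat_lit 573457) (nat_lit 9) .nil))))))) (.g (nat_lit 6) .nil .nil)))) (.nd (nat_lit 5) 
(.lf (nat_lit 25) (.g (nat_lit 2171) (.e (nat_lit 11) (nat_lit 0) (.e (nat_lit 1858) (nat_lit 124) (.e (nat_lit 557100) (nat_lit 13) (.e (nat_lit 172106) (nat_lit 10) (.e (nat_lit 434231) (nat_lit 23) (.e (nat_lit 532490) (nat_lit 0) (.e (nat_lit 6223) (nat_lit 334) (.e (nat_lit 123166) (nat_lit 256) .nil)))))))) (.g (nat_lit 4) .nil .nil))) 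
(.lf (nat_lit 57) (.g (nat_lit 2518) (.e (nat_lit 11) (nat_lit 0) (.e (nat_lit 7082) (nat_lit 378) (.e (nat_lit 57896) (nat_lit 273) (.e (nat_lit 57464) (nat_lit 23) (.e (nat_lit 516166) (nat_lit 12) (.e (nat_lit 450588) (nat_lit 10) (.e (nat_lit 573452) (nat_lit 9) .nil))))))) (.g (nat_lit 0) .nil .nil)))))) (.nd (nat_lit 3) (.nd (nat_lit 4) (.nd (nat_lit 5) 
(.lf (nat_lit 5) (.g (nat_lit 4148) (.e (nat_lit 0) (nat_lit 0) (.e (nat_lit 7065) (nat_lit 377) (.e (nat_lit 1349) (nat_lit 102) (.e (nat_lit 286735) (nat_lit 3) (.e (nat_lit 98373) (nat_lit 29) (.e (nat_lit 450587) (nat_lit 10) (.e (nat_lit 573448) (nat_lit 9) .nil))))))) (.g (nat_lit 0) .nil .nil))) 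
(.lf (nat_lit 37) (.g (nat_lit 4311) (.e (nat_lit 11) (nat_lit 0) (.e (nat_lit 2777) (nat_lit 178) (.e (nat_lit 286761) (nat_lit 13) (.e (nat_lit 393301) (nat_lit 27) (.e (nat_lit 491558) (nat_lit 10) .nil))))) .nil))) (.nd (nat_lit 5) 
(.lf (nat_lit 21) (.g (nat_lit 2467) (.e (nat_lit 11) (nat_lit 0) (.e (nat_lit 1348) (nat_lit 102) (.e (nat_lit 286761) (nat_lit 13) (.e (nat_lit 393234) (nat_lit 17) (.e (nat_lit 7593) (nat_lit 407) (.e (nat_lit 73729) (nat_lit 0) (.e (nat_lit 6848) (nat_lit 371) .nil))))))) (.g (nat_lit 4) .nil .nil))) 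
(.lf (nat_lit 53) (.g (nat_lit 4256) (.e (nat_lit 11) (nat_lit 0) (.e (nat_lit 7079) (nat_lit 378) (.e (nat_lit 57884) (nat_lit 270) (.e (nat_lit 1232) (nat_lit 91) (.e (nat_lit 90170) (nat_lit 13) (.e (nat_lit 172106) (nat_lit 10) (.e (nat_lit 434244) (nat_lit 28) (.e (nat_lit 573451) (nat_lit 9) .nil)))))))) (.g (nat_lit 0) .nil .nil))))) (.nd (nat_lit 4) (.nd (nat_lit 5) 
(.lf (nat_lit 13) (.g (nat_lit 1922) (.e (nat_lit 4) (nat_lit 0) (.e (nat_lit 1860) (nat_lit 124) (.e (nat_lit 557105) (nat_lit 14) (.e (nat_lit 180252) (nat_lit 10) (.e (nat_lit 573489) (nat_lit 14) .nil))))) .nil)) 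
(.lf (nat_lit 45) (.g (nat_lit 1794) (.e (nat_lit 11) (nat_lit 0) (.e (nat_lit 7064) (nat_lit 377) (.e (nat_lit 1348) (nat_lit 102) (.e (nat_lit 286735) (nat_lit 3) (.e (nat_lit 98373) (nat_lit 29) (.e (nat_lit 450587) (nat_lit 10) (.e (nat_lit 573457) (nat_lit 9) .nil))))))) (.g (nat_lit 5) .nil .nil)))) (.nd (nat_lit 5) 
(.lf (nat_lit 29) (.g (nat_lit 2557) (.e (nat_lit 11) (nat_lit 0) (.e (nat_lit 1859) (nat_lit 124) (.e (nat_lit 557109) (nat_lit 15) (.e (nat_lit 188452) (nat_lit 23) (.e (nat_lit 204846) (nat_lit 24) (.e (nat_lit 319504) (nat_lit 10) (.e (nat_lit 7936) (nat_lit 312) .nil))))))) (.g (nat_lit 6) .nil .nil))) 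
(.lf (nat_lit 61) (.g (nat_lit 1902) (.e (nat_lit 12) (nat_lit 0) (.e (nat_lit 1349) (nat_lit 102) (.e (nat_lit 286761) (nat_lit 13) (.e (nat_lit 393234) (nat_lit 17) (.e (nat_lit 7591) (nat_lit 407) .nil))))) .nil)))))) (.nd (nat_lit 2) (.nd (nat_lit 3) (.nd (nat_lit 4) (.nd (nat_lit 5) 
(.lf (nat_lit 3) (.g (nat_lit 2436) (.e (nat_lit 0) (nat_lit 0) (.e (nat_lit 2031) (nat_lit 140) (.e (nat_lit 688177) (nat_lit 16) (.e (nat_lit 65569) (nat_lit 3) (.e (nat_lit 98370) (nat_lit 28) .nil))))) .nil)) 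
(.lf (nat_lit 35) (.g (nat_lit 2061) (.e (nat_lit 11) (nat_lit 0) (.e (nat_lit 2777) (nat_lit 178) (.e (nat_lit 286759) (nat_lit 12) (.e (nat_lit 385106) (nat_lit 50) (.e (nat_lit 786483) (nat_lit 30) .nil))))) .nil))) (.nd (nat_lit 5) 
(.lf (nat_lit 19) (.g (nat_lit 2536) (.e (nat_lit 11) (nat_lit 0) (.e (nat_lit 1348) (nat_lit 102) (.e (nat_lit 286761) (nat_lit 13) (.e (nat_lit 393234) (nat_lit 17) (.e (nat_lit 7591) (nat_lit 407) (.e (nat_lit 73729) (nat_lit 0) (.e (nat_lit 6848) (nat_lit 371) .nil))))))) (.g (nat_lit 4) .nil .nil))) 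
(.lf (nat_lit 51) (.g (nat_lit 4360) (.e (nat_lit 11) (nat_lit 0) (.e (nat_lit 7077) (nat_lit 378) (.e (nat_lit 57884) (nat_lit 270) (.e (nat_lit 1232) (nat_lit 91) (.e (nat_lit 90170) (nat_lit 13) (.e (nat_lit 172106) (nat_lit 10) (.e (nat_lit 434244) (nat_lit 28) (.e (nat_lit 573451) (nat_lit 9) .nil)))))))) (.g (nat_lit 0) .nil .nil))))) (.nd (nat_lit 4) (.nd (nat_lit 5) 
(.lf (nat_lit 11) (.g (nat_lit 1823) (.e (nat_lit 3) (nat_lit 0) (.e (nat_lit 3605) (nat_lit 225) (.e (nat_lit 761905) (nat_lit 16) (.e (nat_lit 172049) (nat_lit 0) .nil)))) .nil)) 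
(.lf (nat_lit 43) (.g (nat_lit 2243) (.e (nat_lit 11) (nat_lit 0) (.e (nat_lit 6961) (nat_lit 377) (.e (nat_lit 1349) (nat_lit 102) (.e (nat_lit 286735) (nat_lit 3) (.e (nat_lit 98373) (nat_lit 29) (.e (nat_lit 450587) (nat_lit 10) (.e (nat_lit 573457) (nat_lit 9) .nil))))))) (.g (nat_lit 6) .nil .nil)))) (.nd (nat_lit 5) 
(.lf (nat_lit 27) (.g (nat_lit 2213) (.e (nat_lit 11) (nat_lit 0) (.e (nat_lit 1858) (nat_lit 124) (.e (nat_lit 557101) (nat_lit 13) (.e (nat_lit 172115) (nat_lit 10) (.e (nat_lit 434231) (nat_lit 23) .nil))))) .nil)) 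
(.lf (nat_lit 59) (.g (nat_lit 2363) (.e (nat_lit 12) (nat_lit 0) (.e (nat_lit 1348) (nat_lit 102) (.e (nat_lit 286761) (nat_lit 13) (.e (nat_lit 393234) (nat_lit 17) (.e (nat_lit 7593) (nat_lit 407) .nil))))) .nil))))) (.nd (nat_lit 3) (.nd (nat_lit 4) (.nd (nat_lit 5) 
(.lf (nat_lit 7) (.g (nat_lit 3809) (.e (nat_lit 2) (nat_lit 0) (.e (nat_lit 3309) (nat_lit 202) (.e (nat_lit 573493) (nat_lit 15) (.e (nat_lit 81956) (nat_lit 23) (.e (nat_lit 98350) (nat_lit 24) .nil))))) .nil)) 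
(.lf (nat_lit 39) (.g (nat_lit 2837) (.e (nat_lit 11) (nat_lit 0) (.e (nat_lit 6113) (nat_lit 332) (.e (nat_lit 1361) (nat_lit 102) (.e (nat_lit 286761) (nat_lit 13) (.e (nat_lit 393265) (nat_lit 22) (.e (nat_lit 417820) (nat_lit 10) (.e (nat_lit 5612) (nat_lit 312) .nil))))))) (.g (nat_lit 0) .nil .nil)))) (.nd (nat_lit 5) 
(.lf (nat_lit 23) (.g (nat_lit 1565) (.e (nat_lit 11) (nat_lit 0) (.e (nat_lit 1361) (nat_lit 102) (.e (nat_lit 286759) (nat_lit 12) (.e (nat_lit 385106) (nat_lit 50) (.e (nat_lit 786483) (nat_lit 30) .nil))))) .nil)) 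
(.lf (nat_lit 55) (.g (nat_lit 4360) (.e (nat_lit 11) (nat_lit 0) (.e (nat_lit 7082) (nat_lit 378) (.e (nat_lit 57876) (nat_lit 270) (.e (nat_lit 1239) (nat_lit 91) (.e (nat_lit 90170) (nat_lit 13) (.e (nat_lit 172106) (nat_lit 10) (.e (nat_lit 434244) (nat_lit 28) (.e (nat_lit 573451) (nat_lit 9) .nil)))))))) (.g (nat_lit 0) .nil .nil))))) (.nd (nat_lit 4) (.nd (nat_lit 5) 
(.lf (nat_lit 15) (.g (nat_lit 2169) (.e (nat_lit 4) (nat_lit 0) (.e (nat_lit 2031) (nat_lit 140) (.e (nat_lit 688177) (nat_lit 16) (.e (nat_lit 65571) (nat_lit 3) (.e (nat_lit 98370) (nat_lit 28) .nil))))) .nil)) 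
(.lf (nat_lit 47) (.g (nat_lit 4048) (.e (nat_lit 11) (nat_lit 0) (.e (nat_lit 7064) (nat_lit 377) (.e (nat_lit 1349) (nat_lit 102) (.e (nat_lit 286735) (nat_lit 3) (.e (nat_lit 98373) (nat_lit 29) (.e (nat_lit 450588) (nat_lit 10) (.e (nat_lit 573452) (nat_lit 9) .nil))))))) (.g (nat_lit 0) .nil .nil)))) (.nd (nat_lit 5) 
(.lf (nat_lit 31) (.g (nat_lit 4222) (.e (nat_lit 11) (nat_lit 0) (.e (nat_lit 2031) (nat_lit 140) (.e (nat_lit 688177) (nat_lit 16) (.e (nat_lit 65569) (nat_lit 3) (.e (nat_lit 98359) (nat_lit 26) (.e (nat_lit 426211) (nat_lit 9) (.e (nat_lit 426125) (nat_lit 2) (.e (nat_lit 204544) (nat_lit 0) .nil)))))))) (.g (nat_lit 6) .nil .nil))) 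
(.lf (nat_lit 63) (.g (nat_lit 4461) (.e (nat_lit 12) (nat_lit 0) (.e (nat_lit 1349) (nat_lit 102) (.e (nat_lit 286761) (nat_lit 13) (.e (nat_lit 393301) (nat_lit 27) (.e (nat_lit 491560) (nat_lit 10) .nil))))) .nil))))))))

noncomputable def tv001 : DT := (.nd (nat_lit 0) (.nd (nat_lit 1) (.nd (nat_lit 2) (.nd (nat_lit 3) (.nd (nat_lit 4) (.nd (nat_lit 5) 
(.lf (nat_lit 64) (.g (nat_lit 2138) (.e (nat_lit 12) (nat_lit 0) (.e (nat_lit 1858) (nat_lit 124) (.e (nat_lit 557101) (nat_lit 13) (.e (nat_lit 172097) (nat_lit 9) (.e (nat_lit 426125) (nat_lit 2) .nil))))) .nil)) 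
(.lf (nat_lit 96) (.g (nat_lit 2209) (.e (nat_lit 13) (nat_lit 0) (.e (nat_lit 7079) (nat_lit 378) (.e (nat_lit 57896) (nat_lit 273) (.e (nat_lit 57464) (nat_lit 23) (.e (nat_lit 516166) (nat_lit 12) (.e (nat_lit 450587) (nat_lit 10) (.e (nat_lit 573457) (nat_lit 9) .nil))))))) (.g (nat_lit 0) .nil .nil)))) (.nd (nat_lit 5) 
(.lf (nat_lit 80) (.g (nat_lit 2621) (.e (nat_lit 13) (nat_lit 0) (.e (nat_lit 1860) (nat_lit 124) (.e (nat_lit 557101) (nat_lit 13) (.e (nat_lit 172115) (nat_lit 10) (.e (nat_lit 434231) (nat_lit 23) (.e (nat_lit 532490) (nat_lit 0) (.e (nat_lit 6223) (nat_lit 334) (.e (nat_lit 123166) (nat_lit 256) .nil)))))))) (.g (nat_lit 5) .nil .nil))) 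
(.lf (nat_lit 112) (.g (nat_lit 2920) (.e (nat_lit 16) (nat_lit 0) (.e (nat_lit 1859) (nat_lit 124) (.e (nat_lit 557098) (nat_lit 13) (.e (nat_lit 172097) (nat_lit 9) (.e (nat_lit 426125) (nat_lit 2) (.e (nat_lit 196661) (nat_lit 12) (.e (nat_lit 57722) (nat_lit 178) (.e (nat_lit 123163) (nat_lit 256) .nil)))))))) (.g (nat_lit 6) .nil .nil))))) (.nd (nat_lit 4) (.nd (nat_lit 5) 
(.lf (nat_lit 72) (.g (nat_lit 1079) (.e (nat_lit 12) (nat_lit 0) (.e (nat_lit 2777) (nat_lit 178) (.e (nat_lit 286761) (nat_lit 13) .nil))) .nil)) 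
(.lf (nat_lit 104) (.g (nat_lit 2004) (.e (nat_lit 15) (nat_lit 0) (.e (nat_lit 1855) (nat_lit 124) (.e (nat_lit 557109) (nat_lit 15) (.e (nat_lit 188452) (nat_lit 23) (.e (nat_lit 204846) (nat_lit 24) .nil))))) .nil))) (.nd (nat_lit 5) 
(.lf (nat_lit 88) (.g (nat_lit 4205) (.e (nat_lit 13) (nat_lit 0) (.e (nat_lit 6953) (nat_lit 377) (.e (nat_lit 1367) (nat_lit 103) (.e (nat_lit 294931) (nat_lit 3) (.e (nat_lit 98373) (nat_lit 29) (.e (nat_lit 450588) (nat_lit 10) (.e (nat_lit 573452) (nat_lit 9) .nil))))))) (.g (nat_lit 7) .nil .nil))) 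
(.lf (nat_lit 120) (.g (nat_lit 3360) (.e (nat_lit 16) (nat_lit 0) (.e (nat_lit 1859) (nat_lit 124) (.e (nat_lit 557098) (nat_lit 13) (.e (nat_lit 172115) (nat_lit 10) (.e (nat_lit 434231) (nat_lit 23) (.e (nat_lit 532490) (nat_lit 0) (.e (nat_lit 6223) (nat_lit 334) (.e (nat_lit 123166) (nat_lit 256) .nil)))))))) (.g (nat_lit 7) .nil .nil)))))) (.nd (nat_lit 3) (.nd (nat_lit 4) (.nd (nat_lit 5) 
(.lf (nat_lit 68) (.g (nat_lit 3030) (.e (nat_lit 12) (nat_lit 0) (.e (nat_lit 1858) (nat_lit 124) (.e (nat_lit 557105) (nat_lit 14) (.e (nat_lit 180252) (nat_lit 10) (.e (nat_lit 573489) (nat_lit 14) (.e (nat_lit 73755) (nat_lit 8) (.e (nat_lit 557090) (nat_lit 12) (.e (nat_lit 164007) (nat_lit 41) (.e (nat_lit 663572) (nat_lit 9) .nil))))))))) (.g (nat_lit 5) .nil .nil))) 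
(.lf (nat_lit 100) (.g (nat_lit 4416) (.e (nat_lit 13) (nat_lit 0) (.e (nat_lit 7082) (nat_lit 378) (.e (nat_lit 57876) (nat_lit 270) (.e (nat_lit 1239) (nat_lit 91) (.e (nat_lit 90170) (nat_lit 13) (.e (nat_lit 172106) (nat_lit 10) (.e (nat_lit 434244) (nat_lit 28) (.e (nat_lit 573451) (nat_lit 9) .nil)))))))) (.g (nat_lit 0) .nil .nil)))) (.nd (nat_lit 5) 
(.lf (nat_lit 84) (.g (nat_lit 4857) (.e (nat_lit 13) (nat_lit 0) (.e (nat_lit 6952) (nat_lit 377) (.e (nat_lit 1360) (nat_lit 102) (.e (nat_lit 286735) (nat_lit 3) (.e (nat_lit 98373) (nat_lit 29) (.e (nat_lit 450587) (nat_lit 10) (.e (nat_lit 573457) (nat_lit 9) .nil))))))) (.g (nat_lit 0) .nil .nil))) 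
(.lf (nat_lit 116) (.g (nat_lit 2919) (.e (nat_lit 16) (nat_lit 0) (.e (nat_lit 1859) (nat_lit 124) (.e (nat_lit 557098) (nat_lit 13) (.e (nat_lit 172097) (nat_lit 9) (.e (nat_lit 426140) (nat_lit 3) (.e (nat_lit 204821) (nat_lit 17) (.e (nat_lit 6223) (nat_lit 334) (.e (nat_lit 123164) (nat_lit 256) .nil)))))))) (.g (nat_lit 6) .nil .nil))))) (.nd (nat_lit 4) (.nd (nat_lit 5) 
(.lf (nat_lit 76) (.g (nat_lit 2700) (.e (nat_lit 12) (nat_lit 0) (.e (nat_lit 6114) (nat_lit 332) (.e (nat_lit 1370) (nat_lit 103) (.e (nat_lit 294960) (nat_lit 13) .nil)))) .nil)) 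
(.lf (nat_lit 108) (.g (nat_lit 2133) (.e (nat_lit 16) (nat_lit 0) (.e (nat_lit 1858) (nat_lit 124) (.e (nat_lit 557101) (nat_lit 13) (.e (nat_lit 172097) (nat_lit 9) (.e (nat_lit 426140) (nat_lit 3) .nil))))) .nil))) (.nd (nat_lit 5) 
(.lf (nat_lit 92) (.g (nat_lit 3379) (.e (nat_lit 13) (nat_lit 0) (.e (nat_lit 7064) (nat_lit 377) (.e (nat_lit 1349) (nat_lit 102) (.e (nat_lit 286735) (nat_lit 3) (.e (nat_lit 98373) (nat_lit 29) (.e (nat_lit 450588) (nat_lit 10) (.e (nat_lit 573452) (nat_lit 9) .nil))))))) (.g (nat_lit 0) .nil .nil))) 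
(.lf (nat_lit 124) (.g (nat_lit 1737) (.e (nat_lit 16) (nat_lit 0) (.e (nat_lit 1859) (nat_lit 124) (.e (nat_lit 557107) (nat_lit 15) (.e (nat_lit 188450) (nat_lit 23) (.e (nat_lit 204821) (nat_lit 17) (.e (nat_lit 6223) (nat_lit 334) (.e (nat_lit 123163) (nat_lit 256) .nil))))))) (.g (nat_lit 4) .nil .nil))))))) (.nd (nat_lit 2) (.nd (nat_lit 3) (.nd (nat_lit 4) (.nd (nat_lit 5) 
(.lf (nat_lit 66) (.g (nat_lit 2678) (.e (nat_lit 12) (nat_lit 0) (.e (nat_lit 1858) (nat_lit 124) (.e (nat_lit 557105) (nat_lit 14) (.e (nat_lit 180252) (nat_lit 10) (.e (nat_lit 573489) (nat_lit 14) .nil))))) .nil)) 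
(.lf (nat_lit 98) (.g (nat_lit 3155) (.e (nat_lit 13) (nat_lit 0) (.e (nat_lit 7081) (nat_lit 378) (.e (nat_lit 57884) (nat_lit 270) (.e (nat_lit 1250) (nat_lit 92) (.e (nat_lit 98373) (nat_lit 29) (.e (nat_lit 450587) (nat_lit 10) (.e (nat_lit 573457) (nat_lit 9) .nil))))))) (.g (nat_lit 0) .nil .nil)))) (.nd (nat_lit 5) 
(.lf (nat_lit 82) (.g (nat_lit 5739) (.e (nat_lit 13) (nat_lit 0) (.e (nat_lit 3210) (nat_lit 195) (.e (nat_lit 516151) (nat_lit 9) (.e (nat_lit 426211) (nat_lit 9) (.e (nat_lit 426125) (nat_lit 2) (.e (nat_lit 196667) (nat_lit 14) (.e (nat_lit 73768) (nat_lit 19) (.e (nat_lit 647190) (nat_lit 9) .nil)))))))) (.g (nat_lit 6) .nil .nil))) 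
(.lf (nat_lit 114) (.g (nat_lit 3121) (.e (nat_lit 16) (nat_lit 0) (.e (nat_lit 1859) (nat_lit 124) (.e (nat_lit 557098) (nat_lit 13) (.e (nat_lit 172097) (nat_lit 9) (.e (nat_lit 426125) (nat_lit 2) (.e (nat_lit 196661) (nat_lit 12) (.e (nat_lit 57722) (nat_lit 178) (.e (nat_lit 123166) (nat_lit 256) .nil)))))))) (.g (nat_lit 7) .nil .nil))))) (.nd (nat_lit 4) (.nd (nat_lit 5) 
(.lf (nat_lit 74) (.g (nat_lit 4420) (.e (nat_lit 12) (nat_lit 0) (.e (nat_lit 2777) (nat_lit 178) (.e (nat_lit 286761) (nat_lit 13) (.e (nat_lit 393301) (nat_lit 27) (.e (nat_lit 491558) (nat_lit 10) (.e (nat_lit 344097) (nat_lit 18) (.e (nat_lit 7146) (nat_lit 382) .nil))))))) (.g (nat_lit 4) .nil .nil))) 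
(.lf (nat_lit 106) (.g (nat_lit 2194) (.e (nat_lit 16) (nat_lit 0) (.e (nat_lit 1858) (nat_lit 124) (.e (nat_lit 557101) (nat_lit 13) (.e (nat_lit 172097) (nat_lit 9) (.e (nat_lit 426125) (nat_lit 2) (.e (nat_lit 196661) (nat_lit 12) (.e (nat_lit 57722) (nat_lit 178) (.e (nat_lit 123164) (nat_lit 256) .nil)))))))) (.g (nat_lit 4) .nil .nil)))) (.nd (nat_lit 5) 
(.lf (nat_lit 90) (.g (nat_lit 2459) (.e (nat_lit 13) (nat_lit 0) (.e (nat_lit 7064) (nat_lit 377) (.e (nat_lit 1348) (nat_lit 102) (.e (nat_lit 286735) (nat_lit 3) (.e (nat_lit 98373) (nat_lit 29) (.e (nat_lit 450588) (nat_lit 10) (.e (nat_lit 573452) (nat_lit 9) .nil))))))) (.g (nat_lit 6) .nil .nil))) 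
(.lf (nat_lit 122) (.g (nat_lit 1897) (.e (nat_lit 16) (nat_lit 0) (.e (nat_lit 1859) (nat_lit 124) (.e (nat_lit 557107) (nat_lit 15) (.e (nat_lit 188447) (nat_lit 22) (.e (nat_lit 196661) (nat_lit 12) (.e (nat_lit 57722) (nat_lit 178) (.e (nat_lit 123164) (nat_lit 256) .nil))))))) (.g (nat_lit 4) .nil .nil)))))) (.nd (nat_lit 3) (.nd (nat_lit 4) (.nd (nat_lit 5) 
(.lf (nat_lit 70) (.g (nat_lit 2915) (.e (nat_lit 12) (nat_lit 0) (.e (nat_lit 2030) (nat_lit 140) (.e (nat_lit 688170) (nat_lit 15) (.e (nat_lit 57479) (nat_lit 28) (.e (nat_lit 557105) (nat_lit 14) (.e (nat_lit 180252) (nat_lit 10) (.e (nat_lit 573489) (nat_lit 14) (.e (nat_lit 73755) (nat_lit 8) (.e (nat_lit 557066) (nat_lit 9) .nil))))))))) (.g (nat_lit 5) .nil .nil))) 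
(.lf (nat_lit 102) (.g (nat_lit 2220) (.e (nat_lit 13) (nat_lit 0) (.e (nat_lit 7082) (nat_lit 378) (.e (nat_lit 57896) (nat_lit 273) (.e (nat_lit 57464) (nat_lit 23) (.e (nat_lit 516166) (nat_lit 12) (.e (nat_lit 450587) (nat_lit 10) (.e (nat_lit 573457) (nat_lit 9) .nil))))))) (.g (nat_lit 0) .nil .nil)))) (.nd (nat_lit 5) 
(.lf (nat_lit 86) (.g (nat_lit 4697) (.e (nat_lit 13) (nat_lit 0) (.e (nat_lit 6953) (nat_lit 377) (.e (nat_lit 1360) (nat_lit 102) (.e (nat_lit 286735) (nat_lit 3) (.e (nat_lit 98373) (nat_lit 29) (.e (nat_lit 450587) (nat_lit 10) (.e (nat_lit 573457) (nat_lit 9) .nil))))))) (.g (nat_lit 7) .nil .nil))) 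
(.lf (nat_lit 118) (.g (nat_lit 3140) (.e (nat_lit 16) (nat_lit 0) (.e (nat_lit 1859) (nat_lit 124) (.e (nat_lit 557098) (nat_lit 13) (.e (nat_lit 172115) (nat_lit 10) (.e (nat_lit 434231) (nat_lit 23) (.e (nat_lit 532490) (nat_lit 0) (.e (nat_lit 6223) (nat_lit 334) (.e (nat_lit 123163) (nat_lit 256) .nil)))))))) (.g (nat_lit 7) .nil .nil))))) (.nd (nat_lit 4) (.nd (nat_lit 5) 
(.lf (nat_lit 78) (.g (nat_lit 576) (.e (nat_lit 13) (nat_lit 0) (.e (nat_lit 1360) (nat_lit 102) (.e (nat_lit 286761) (nat_lit 13) .nil))) .nil)) 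
(.lf (nat_lit 110) (.g (nat_lit 2360) (.e (nat_lit 16) (nat_lit 0) (.e (nat_lit 1858) (nat_lit 124) (.e (nat_lit 557101) (nat_lit 13) (.e (nat_lit 172115) (nat_lit 10) (.e (nat_lit 434231) (nat_lit 23) (.e (nat_lit 532490) (nat_lit 0) (.e (nat_lit 6223) (nat_lit 334) (.e (nat_lit 123163) (nat_lit 256) .nil)))))))) (.g (nat_lit 4) .nil .nil)))) (.nd (nat_lit 5) 
(.lf (nat_lit 94) (.g (nat_lit 2726) (.e (nat_lit 13) (nat_lit 0) (.e (nat_lit 7079) (nat_lit 378) (.e (nat_lit 57876) (nat_lit 270) (.e (nat_lit 1256) (nat_lit 92) (.e (nat_lit 98373) (nat_lit 29) (.e (nat_lit 450587) (nat_lit 10) (.e (nat_lit 573457) (nat_lit 9) .nil))))))) (.g (nat_lit 0) .nil .nil))) 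
(.lf (nat_lit 126) (.g (nat_lit 1946) (.e (nat_lit 16) (nat_lit 0) (.e (nat_lit 1859) (nat_lit 124) (.e (nat_lit 557107) (nat_lit 15) (.e (nat_lit 188450) (nat_lit 23) (.e (nat_lit 204821) (nat_lit 17) (.e (nat_lit 6223) (nat_lit 334) (.e (nat_lit 123166) (nat_lit 256) .nil))))))) (.g (nat_lit 5) .nil .nil)))))))) 
(.nd (nat_lit 1) (.nd (nat_lit 2) (.nd (nat_lit 3) (.nd (nat_lit 4) (.nd (nat_lit 5) 
(.lf (nat_lit 65) (.g (nat_lit 2213) (.e (nat_lit 12) (nat_lit 0) (.e (nat_lit 1858) (nat_lit 124) (.e (nat_lit 557101) (nat_lit 13) (.e (nat_lit 172115) (nat_lit 10) (.e (nat_lit 434231) (nat_lit 23) .nil))))) .nil)) 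
(.lf (nat_lit 97) (.g (nat_lit 2727) (.e (nat_lit 13) (nat_lit 0) (.e (nat_lit 7081) (nat_lit 378) (.e (nat_lit 57876) (nat_lit 270) (.e (nat_lit 1256) (nat_lit 92) (.e (nat_lit 98373) (nat_lit 29) (.e (nat_lit 450587) (nat_lit 10) (.e (nat_lit 573457) (nat_lit 9) .nil))))))) (.g (nat_lit 0) .nil .nil)))) (.nd (nat_lit 5) 
(.lf (nat_lit 81) (.g (nat_lit 5397) (.e (nat_lit 13) (nat_lit 0) (.e (nat_lit 3210) (nat_lit 195) (.e (nat_lit 516151) (nat_lit 9) (.e (nat_lit 426211) (nat_lit 9) (.e (nat_lit 426125) (nat_lit 2) (.e (nat_lit 196667) (nat_lit 14) (.e (nat_lit 73767) (nat_lit 19) (.e (nat_lit 647190) (nat_lit 9) .nil)))))))) (.g (nat_lit 5) .nil .nil))) 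
(.lf (nat_lit 113) (.g (nat_lit 3076) (.e (nat_lit 16) (nat_lit 0) (.e (nat_lit 1859) (nat_lit 124) (.e (nat_lit 557098) (nat_lit 13) (.e (nat_lit 172097) (nat_lit 9) (.e (nat_lit 426125) (nat_lit 2) (.e (nat_lit 196661) (nat_lit 12) (.e (nat_lit 57722) (nat_lit 178) (.e (nat_lit 123164) (nat_lit 256) .nil)))))))) (.g (nat_lit 6) .nil .nil))))) (.nd (nat_lit 4) (.nd (nat_lit 5) 
(.lf (nat_lit 73) (.g (nat_lit 4292) (.e (nat_lit 12) (nat_lit 0) (.e (nat_lit 2777) (nat_lit 178) (.e (nat_lit 286761) (nat_lit 13) (.e (nat_lit 393301) (nat_lit 27) (.e (nat_lit 491558) (nat_lit 10) .nil))))) .nil)) 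
(.lf (nat_lit 105) (.g (nat_lit 2694) (.e (nat_lit 15) (nat_lit 0) (.e (nat_lit 6114) (nat_lit 332) (.e (nat_lit 1370) (nat_lit 103) (.e (nat_lit 294960) (nat_lit 13) .nil)))) .nil))) (.nd (nat_lit 5) 
(.lf (nat_lit 89) (.g (nat_lit 1909) (.e (nat_lit 13) (nat_lit 0) (.e (nat_lit 7064) (nat_lit 377) (.e (nat_lit 1348) (nat_lit 102) (.e (nat_lit 286735) (nat_lit 3) (.e (nat_lit 98373) (nat_lit 29) (.e (nat_lit 450587) (nat_lit 10) (.e (nat_lit 573457) (nat_lit 9) .nil))))))) (.g (nat_lit 6) .nil .nil))) 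
(.lf (nat_lit 121) (.g (nat_lit 1742) (.e (nat_lit 16) (nat_lit 0) (.e (nat_lit 1859) (nat_lit 124) (.e (nat_lit 557107) (nat_lit 15) (.e (nat_lit 188447) (nat_lit 22) (.e (nat_lit 196661) (nat_lit 12) (.e (nat_lit 57722) (nat_lit 178) (.e (nat_lit 123163) (nat_lit 256) .nil))))))) (.g (nat_lit 4) .nil .nil)))))) (.nd (nat_lit 3) (.nd (nat_lit 4) (.nd (nat_lit 5) 
(.lf (nat_lit 69) (.g (nat_lit 2443) (.e (nat_lit 12) (nat_lit 0) (.e (nat_lit 1859) (nat_lit 124) (.e (nat_lit 557109) (nat_lit 15) (.e (nat_lit 188452) (nat_lit 23) (.e (nat_lit 204846) (nat_lit 24) (.e (nat_lit 319504) (nat_lit 10) (.e (nat_lit 7936) (nat_lit 312) .nil))))))) (.g (nat_lit 6) .nil .nil))) 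
(.lf (nat_lit 101) (.g (nat_lit 2702) (.e (nat_lit 13) (nat_lit 0) (.e (nat_lit 7082) (nat_lit 378) (.e (nat_lit 57876) (nat_lit 270) (.e (nat_lit 1256) (nat_lit 92) (.e (nat_lit 98373) (nat_lit 29) (.e (nat_lit 450587) (nat_lit 10) (.e (nat_lit 573457) (nat_lit 9) .nil))))))) (.g (nat_lit 0) .nil .nil)))) (.nd (nat_lit 5) 
(.lf (nat_lit 85) (.g (nat_lit 6571) (.e (nat_lit 13) (nat_lit 0) (.e (nat_lit 6952) (nat_lit 377) (.e (nat_lit 1360) (nat_lit 102) (.e (nat_lit 286735) (nat_lit 3) (.e (nat_lit 98373) (nat_lit 29) (.e (nat_lit 450588) (nat_lit 10) (.e (nat_lit 573452) (nat_lit 9) .nil))))))) (.g (nat_lit 0) .nil .nil))) 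
(.lf (nat_lit 117) (.g (nat_lit 3018) (.e (nat_lit 16) (nat_lit 0) (.e (nat_lit 1859) (nat_lit 124) (.e (nat_lit 557098) (nat_lit 13) (.e (nat_lit 172097) (nat_lit 9) (.e (nat_lit 426140) (nat_lit 3) (.e (nat_lit 204821) (nat_lit 17) (.e (nat_lit 6223) (nat_lit 334) (.e (nat_lit 123166) (nat_lit 256) .nil)))))))) (.g (nat_lit 7) .nil .nil))))) (.nd (nat_lit 4) (.nd (nat_lit 5) 
(.lf (nat_lit 77) (.g (nat_lit 2111) (.e (nat_lit 12) (nat_lit 0) (.e (nat_lit 6264) (nat_lit 337) (.e (nat_lit 1221) (nat_lit 90) (.e (nat_lit 81965) (nat_lit 26) (.e (nat_lit 147496) (nat_lit 11) (.e (nat_lit 24617) (nat_lit 7) (.e (nat_lit 327424) (nat_lit 10) .nil))))))) (.g (nat_lit 6) .nil .nil))) 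
(.lf (nat_lit 109) (.g (nat_lit 2144) (.e (nat_lit 16) (nat_lit 0) (.e (nat_lit 1858) (nat_lit 124) (.e (nat_lit 557101) (nat_lit 13) (.e (nat_lit 172097) (nat_lit 9) (.e (nat_lit 426140) (nat_lit 3) (.e (nat_lit 204821) (nat_lit 17) (.e (nat_lit 6223) (nat_lit 334) (.e (nat_lit 123166) (nat_lit 256) .nil)))))))) (.g (nat_lit 4) .nil .nil)))) (.nd (nat_lit 5) 
(.lf (nat_lit 93) (.g (nat_lit 2741) (.e (nat_lit 13) (nat_lit 0) (.e (nat_lit 7077) (nat_lit 378) (.e (nat_lit 57876) (nat_lit 270) (.e (nat_lit 1256) (nat_lit 92) (.e (nat_lit 98373) (nat_lit 29) (.e (nat_lit 450587) (nat_lit 10) (.e (nat_lit 573457) (nat_lit 9) .nil))))))) (.g (nat_lit 0) .nil .nil))) 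
(.lf (nat_lit 125) (.g (nat_lit 1851) (.e (nat_lit 16) (nat_lit 0) (.e (nat_lit 1859) (nat_lit 124) (.e (nat_lit 557107) (nat_lit 15) (.e (nat_lit 188450) (nat_lit 23) (.e (nat_lit 204821) (nat_lit 17) (.e (nat_lit 6223) (nat_lit 334) (.e (nat_lit 123164) (nat_lit 256) .nil))))))) (.g (nat_lit 5) .nil .nil))))))) (.nd (nat_lit 2) (.nd (nat_lit 3) (.nd (nat_lit 4) (.nd (nat_lit 5) 
(.lf (nat_lit 67) (.g (nat_lit 2804) (.e (nat_lit 12) (nat_lit 0) (.e (nat_lit 1858) (nat_lit 124) (.e (nat_lit 557105) (nat_lit 14) (.e (nat_lit 180252) (nat_lit 10) (.e (nat_lit 573489) (nat_lit 14) (.e (nat_lit 73755) (nat_lit 8) (.e (nat_lit 557090) (nat_lit 12) (.e (nat_lit 164006) (nat_lit 41) (.e (nat_lit 663572) (nat_lit 9) .nil))))))))) (.g (nat_lit 4) .nil .nil))) 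
(.lf (nat_lit 99) (.g (nat_lit 2227) (.e (nat_lit 13) (nat_lit 0) (.e (nat_lit 7081) (nat_lit 378) (.e (nat_lit 57896) (nat_lit 273) (.e (nat_lit 57464) (nat_lit 23) (.e (nat_lit 516166) (nat_lit 12) (.e (nat_lit 450587) (nat_lit 10) (.e (nat_lit 573457) (nat_lit 9) .nil))))))) (.g (nat_lit 0) .nil .nil)))) (.nd (nat_lit 5) 
(.lf (nat_lit 83) (.g (nat_lit 7058) (.e (nat_lit 13) (nat_lit 0) (.e (nat_lit 3210) (nat_lit 195) (.e (nat_lit 516151) (nat_lit 9) (.e (nat_lit 426211) (nat_lit 9) (.e (nat_lit 426140) (nat_lit 3) (.e (nat_lit 204863) (nat_lit 27) (.e (nat_lit 344160) (nat_lit 37) (.e (nat_lit 647190) (nat_lit 9) .nil)))))))) (.g (nat_lit 8) .nil .nil))) 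
(.lf (nat_lit 115) (.g (nat_lit 2807) (.e (nat_lit 16) (nat_lit 0) (.e (nat_lit 1859) (nat_lit 124) (.e (nat_lit 557098) (nat_lit 13) (.e (nat_lit 172097) (nat_lit 9) (.e (nat_lit 426140) (nat_lit 3) (.e (nat_lit 204821) (nat_lit 17) (.e (nat_lit 6223) (nat_lit 334) (.e (nat_lit 123163) (nat_lit 256) .nil)))))))) (.g (nat_lit 6) .nil .nil))))) (.nd (nat_lit 4) (.nd (nat_lit 5) 
(.lf (nat_lit 75) (.g (nat_lit 4261) (.e (nat_lit 12) (nat_lit 0) (.e (nat_lit 2777) (nat_lit 178) (.e (nat_lit 286761) (nat_lit 13) (.e (nat_lit 393301) (nat_lit 27) (.e (nat_lit 491560) (nat_lit 10) (.e (nat_lit 344097) (nat_lit 18) (.e (nat_lit 7144) (nat_lit 382) .nil))))))) (.g (nat_lit 4) .nil .nil))) 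
(.lf (nat_lit 107) (.g (nat_lit 2239) (.e (nat_lit 16) (nat_lit 0) (.e (nat_lit 1858) (nat_lit 124) (.e (nat_lit 557101) (nat_lit 13) (.e (nat_lit 172097) (nat_lit 9) (.e (nat_lit 426125) (nat_lit 2) (.e (nat_lit 196661) (nat_lit 12) (.e (nat_lit 57722) (nat_lit 178) (.e (nat_lit 123166) (nat_lit 256) .nil)))))))) (.g (nat_lit 4) .nil .nil)))) (.nd (nat_lit 5) 
(.lf (nat_lit 91) (.g (nat_lit 3053) (.e (nat_lit 13) (nat_lit 0) (.e (nat_lit 7064) (nat_lit 377) (.e (nat_lit 1349) (nat_lit 102) (.e (nat_lit 286735) (nat_lit 3) (.e (nat_lit 98373) (nat_lit 29) (.e (nat_lit 450587) (nat_lit 10) (.e (nat_lit 573457) (nat_lit 9) .nil))))))) (.g (nat_lit 0) .nil .nil))) 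
(.lf (nat_lit 123) (.g (nat_lit 1941) (.e (nat_lit 16) (nat_lit 0) (.e (nat_lit 1859) (nat_lit 124) (.e (nat_lit 557107) (nat_lit 15) (.e (nat_lit 188447) (nat_lit 22) (.e (nat_lit 196661) (nat_lit 12) (.e (nat_lit 57722) (nat_lit 178) (.e (nat_lit 123166) (nat_lit 256) .nil))))))) (.g (nat_lit 4) .nil .nil)))))) (.nd (nat_lit 3) (.nd (nat_lit 4) (.nd (nat_lit 5) 
(.lf (nat_lit 71) (.g (nat_lit 4603) (.e (nat_lit 12) (nat_lit 0) (.e (nat_lit 2031) (nat_lit 140) (.e (nat_lit 688171) (nat_lit 15) (.e (nat_lit 57479) (nat_lit 28) (.e (nat_lit 557105) (nat_lit 14) (.e (nat_lit 180252) (nat_lit 10) (.e (nat_lit 573489) (nat_lit 14) (.e (nat_lit 73755) (nat_lit 8) (.e (nat_lit 557065) (nat_lit 9) .nil))))))))) (.g (nat_lit 9) .nil .nil))) 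
(.lf (nat_lit 103) (.g (nat_lit 1948) (.e (nat_lit 13) (nat_lit 0) (.e (nat_lit 7125) (nat_lit 382) (.e (nat_lit 1201) (nat_lit 88) (.e (nat_lit 65586) (nat_lit 7) (.e (nat_lit 319531) (nat_lit 16) (.e (nat_lit 286748) (nat_lit 9) (.e (nat_lit 336295) (nat_lit 15) (.e (nat_lit 3806) (nat_lit 231) (.e (nat_lit 811032) (nat_lit 11) .nil))))))))) (.g (nat_lit 4) .nil .nil)))) (.nd (nat_lit 5) 
(.lf (nat_lit 87) (.g (nat_lit 6402) (.e (nat_lit 13) (nat_lit 0) (.e (nat_lit 6953) (nat_lit 377) (.e (nat_lit 1360) (nat_lit 102) (.e (nat_lit 286735) (nat_lit 3) (.e (nat_lit 98373) (nat_lit 29) (.e (nat_lit 450588) (nat_lit 10) (.e (nat_lit 573452) (nat_lit 9) .nil))))))) (.g (nat_lit 7) .nil .nil))) 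
(.lf (nat_lit 119) (.g (nat_lit 3253) (.e (nat_lit 16) (nat_lit 0) (.e (nat_lit 1859) (nat_lit 124) (.e (nat_lit 557098) (nat_lit 13) (.e (nat_lit 172115) (nat_lit 10) (.e (nat_lit 434231) (nat_lit 23) (.e (nat_lit 532490) (nat_lit 0) (.e (nat_lit 6223) (nat_lit 334) (.e (nat_lit 123164) (nat_lit 256) .nil)))))))) (.g (nat_lit 7) .nil .nil))))) (.nd (nat_lit 4) (.nd (nat_lit 5) 
(.lf (nat_lit 79) (.g (nat_lit 2113) (.e (nat_lit 13) (nat_lit 0) (.e (nat_lit 1846) (nat_lit 124) (.e (nat_lit 557108) (nat_lit 15) (.e (nat_lit 188452) (nat_lit 23) (.e (nat_lit 204846) (nat_lit 24) .nil))))) .nil)) 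
(.lf (nat_lit 111) (.g (nat_lit 2473) (.e (nat_lit 16) (nat_lit 0) (.e (nat_lit 1858) (nat_lit 124) (.e (nat_lit 557101) (nat_lit 13) (.e (nat_lit 172115) (nat_lit 10) (.e (nat_lit 434231) (nat_lit 23) (.e (nat_lit 532490) (nat_lit 0) (.e (nat_lit 6223) (nat_lit 334) (.e (nat_lit 123164) (nat_lit 256) .nil)))))))) (.g (nat_lit 4) .nil .nil)))) (.nd (nat_lit 5) 
(.lf (nat_lit 95) (.g (nat_lit 3116) (.e (nat_lit 13) (nat_lit 0) (.e (nat_lit 7079) (nat_lit 378) (.e (nat_lit 57884) (nat_lit 270) (.e (nat_lit 1250) (nat_lit 92) (.e (nat_lit 98373) (nat_lit 29) (.e (nat_lit 450587) (nat_lit 10) (.e (nat_lit 573457) (nat_lit 9) .nil))))))) (.g (nat_lit 0) .nil .nil))) 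
(.lf (nat_lit 127) (.g (nat_lit 2369) (.e (nat_lit 16) (nat_lit 0) (.e (nat_lit 1859) (nat_lit 124) (.e (nat_lit 557109) (nat_lit 15) (.e (nat_lit 188449) (nat_lit 22) (.e (nat_lit 196661) (nat_lit 12) .nil))))) .nil))))))))

noncomputable def tv002 : DT := (.nd (nat_lit 0) (.nd (nat_lit 1) (.nd (nat_lit 2) (.nd (nat_lit 3) (.nd (nat_lit 4) (.nd (nat_lit 5) 
(.lf (nat_lit 128) (.g (nat_lit 2386) (.e (nat_lit 16) (nat_lit 0) (.e (nat_lit 1859) (nat_lit 124) (.e (nat_lit 557109) (nat_lit 15) (.e (nat_lit 188449) (nat_lit 22) (.e (nat_lit 196661) (nat_lit 12) (.e (nat_lit 57722) (nat_lit 178) (.e (nat_lit 123164) (nat_lit 256) .nil))))))) (.g (nat_lit 4) .nil .nil))) 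
(.lf (nat_lit 160) (.g (nat_lit 2835) (.e (nat_lit 18) (nat_lit 0) (.e (nat_lit 1858) (nat_lit 124) (.e (nat_lit 557101) (nat_lit 13) (.e (nat_lit 172097) (nat_lit 9) (.e (nat_lit 426140) (nat_lit 3) (.e (nat_lit 204821) (nat_lit 17) (.e (nat_lit 6223) (nat_lit 334) (.e (nat_lit 123164) (nat_lit 256) .nil)))))))) (.g (nat_lit 5) .nil .nil)))) (.nd (nat_lit 5) 
(.lf (nat_lit 144) (.g (nat_lit 2219) (.e (nat_lit 16) (nat_lit 0) (.e (nat_lit 7087) (nat_lit 379) (.e (nat_lit 123212) (nat_lit 273) (.e (nat_lit 57464) (nat_lit 23) (.e (nat_lit 516165) (nat_lit 12) (.e (nat_lit 450586) (nat_lit 10) (.e (nat_lit 573457) (nat_lit 9) .nil))))))) (.g (nat_lit 0) .nil .nil))) 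
(.lf (nat_lit 176) (.g (nat_lit 898) (.e (nat_lit 20) (nat_lit 0) (.e (nat_lit 2777) (nat_lit 178) (.e (nat_lit 286761) (nat_lit 13) .nil))) .nil)))) (.nd (nat_lit 4) (.nd (nat_lit 5) 
(.lf (nat_lit 136) (.g (nat_lit 4704) (.e (nat_lit 16) (nat_lit 0) (.e (nat_lit 1859) (nat_lit 124) (.e (nat_lit 557109) (nat_lit 15) (.e (nat_lit 188452) (nat_lit 23) (.e (nat_lit 204846) (nat_lit 24) (.e (nat_lit 319513) (nat_lit 10) (.e (nat_lit 5634) (nat_lit 312) .nil))))))) (.g (nat_lit 5) .nil .nil))) 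
(.lf (nat_lit 168) (.g (nat_lit 2529) (.e (nat_lit 18) (nat_lit 0) (.e (nat_lit 6114) (nat_lit 332) (.e (nat_lit 1370) (nat_lit 103) (.e (nat_lit 294960) (nat_lit 13) .nil)))) .nil))) (.nd (nat_lit 5) 
(.lf (nat_lit 152) (.g (nat_lit 2678) (.e (nat_lit 17) (nat_lit 0) (.e (nat_lit 1858) (nat_lit 124) (.e (nat_lit 557105) (nat_lit 14) (.e (nat_lit 180252) (nat_lit 10) (.e (nat_lit 573489) (nat_lit 14) .nil))))) .nil)) 
(.lf (nat_lit 184) (.g (nat_lit 5023) (.e (nat_lit 20) (nat_lit 0) (.e (nat_lit 2777) (nat_lit 178) (.e (nat_lit 286761) (nat_lit 13) (.e (nat_lit 393301) (nat_lit 27) (.e (nat_lit 491546) (nat_lit 9) (.e (nat_lit 335997) (nat_lit 1) (.e (nat_lit 57657) (nat_lit 152) .nil))))))) (.g (nat_lit 4) .nil .nil)))))) (.nd (nat_lit 3) (.nd (nat_lit 4) (.nd (nat_lit 5) 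
(.lf (nat_lit 132) (.g (nat_lit 2667) (.e (nat_lit 16) (nat_lit 0) (.e (nat_lit 1859) (nat_lit 124) (.e (nat_lit 557109) (nat_lit 15) (.e (nat_lit 188452) (nat_lit 23) (.e (nat_lit 204821) (nat_lit 17) (.e (nat_lit 6223) (nat_lit 334) (.e (nat_lit 123166) (nat_lit 256) .nil))))))) (.g (nat_lit 4) .nil .nil))) 
(.lf (nat_lit 164) (.g (nat_lit 4108) (.e (nat_lit 18) (nat_lit 0) (.e (nat_lit 1858) (nat_lit 124) (.e (nat_lit 557109) (nat_lit 15) (.e (nat_lit 188449) (nat_lit 22) (.e (nat_lit 196661) (nat_lit 12) .nil))))) .nil))) (.nd (nat_lit 5) 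
(.lf (nat_lit 148) (.g (nat_lit 3113) (.e (nat_lit 16) (nat_lit 0) (.e (nat_lit 7088) (nat_lit 379) (.e (nat_lit 123212) (nat_lit 273) (.e (nat_lit 57464) (nat_lit 23) (.e (nat_lit 516166) (nat_lit 12) (.e (nat_lit 450588) (nat_lit 10) (.e (nat_lit 573452) (nat_lit 9) .nil))))))) (.g (nat_lit 0) .nil .nil))) 
(.lf (nat_lit 180) (.g (nat_lit 2211) (.e (nat_lit 20) (nat_lit 0) (.e (nat_lit 2777) (nat_lit 178) (.e (nat_lit 286761) (nat_lit 13) (.e (nat_lit 393234) (nat_lit 17) (.e (nat_lit 7593) (nat_lit 407) .nil))))) .nil)))) (.nd (nat_lit 4) (.nd (nat_lit 5) 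
(.lf (nat_lit 140) (.g (nat_lit 3828) (.e (nat_lit 16) (nat_lit 0) (.e (nat_lit 7087) (nat_lit 379) (.e (nat_lit 123202) (nat_lit 270) (.e (nat_lit 1239) (nat_lit 91) (.e (nat_lit 90170) (nat_lit 13) (.e (nat_lit 172113) (nat_lit 10) (.e (nat_lit 434248) (nat_lit 28) (.e (nat_lit 573452) (nat_lit 9) .nil)))))))) (.g (nat_lit 0) .nil .nil))) 
(.lf (nat_lit 172) (.g (nat_lit 2678) (.e (nat_lit 19) (nat_lit 0) (.e (nat_lit 1858) (nat_lit 124) (.e (nat_lit 557105) (nat_lit 14) (.e (nat_lit 180252) (nat_lit 10) (.e (nat_lit 573489) (nat_lit 14) .nil))))) .nil))) (.nd (nat_lit 5) 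
(.lf (nat_lit 156) (.g (nat_lit 1667) (.e (nat_lit 18) (nat_lit 0) (.e (nat_lit 1848) (nat_lit 124) (.e (nat_lit 557108) (nat_lit 15) (.e (nat_lit 188452) (nat_lit 23) (.e (nat_lit 204846) (nat_lit 24) (.e (nat_lit 319504) (nat_lit 10) (.e (nat_lit 7936) (nat_lit 312) .nil))))))) (.g (nat_lit 5) .nil .nil))) 
(.lf (nat_lit 188) (.g (nat_lit 4374) (.e (nat_lit 20) (nat_lit 0) (.e (nat_lit 2777) (nat_lit 178) (.e (nat_lit 286761) (nat_lit 13) (.e (nat_lit 393301) (nat_lit 27) (.e (nat_lit 491558) (nat_lit 10) (.e (nat_lit 344095) (nat_lit 18) (.e (nat_lit 7119) (nat_lit 382) .nil))))))) (.g (nat_lit 4) .nil .nil))))))) (.nd (nat_lit 2) (.nd (nat_lit 3) (.nd (nat_lit 4) (.nd (nat_lit 5) 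
(.lf (nat_lit 130) (.g (nat_lit 2458) (.e (nat_lit 16) (nat_lit 0) (.e (nat_lit 1859) (nat_lit 124) (.e (nat_lit 557109) (nat_lit 15) (.e (nat_lit 188452) (nat_lit 23) (.e (nat_lit 204821) (nat_lit 17) (.e (nat_lit 6223) (nat_lit 334) (.e (nat_lit 123163) (nat_lit 256) .nil))))))) (.g (nat_lit 4) .nil .nil))) 
(.lf (nat_lit 162) (.g (nat_lit 3155) (.e (nat_lit 18) (nat_lit 0) (.e (nat_lit 1858) (nat_lit 124) (.e (nat_lit 557101) (nat_lit 13) (.e (nat_lit 172115) (nat_lit 10) (.e (nat_lit 434231) (nat_lit 23) (.e (nat_lit 532490) (nat_lit 0) (.e (nat_lit 6223) (nat_lit 334) (.e (nat_lit 123165) (nat_lit 256) .nil)))))))) (.g (nat_lit 5) .nil .nil)))) (.nd (nat_lit 5) 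
(.lf (nat_lit 146) (.g (nat_lit 2924) (.e (nat_lit 16) (nat_lit 0) (.e (nat_lit 7088) (nat_lit 379) (.e (nat_lit 123202) (nat_lit 270) (.e (nat_lit 1256) (nat_lit 92) (.e (nat_lit 98373) (nat_lit 29) (.e (nat_lit 450587) (nat_lit 10) (.e (nat_lit 573457) (nat_lit 9) .nil))))))) (.g (nat_lit 0) .nil .nil))) 
(.lf (nat_lit 178) (.g (nat_lit 2445) (.e (nat_lit 20) (nat_lit 0) (.e (nat_lit 2777) (nat_lit 178) (.e (nat_lit 286761) (nat_lit 13) (.e (nat_lit 393234) (nat_lit 17) (.e (nat_lit 7591) (nat_lit 407) (.e (nat_lit 73733) (nat_lit 0) (.e (nat_lit 7163) (nat_lit 382) .nil))))))) (.g (nat_lit 4) .nil .nil))))) (.nd (nat_lit 4) (.nd (nat_lit 5) 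
(.lf (nat_lit 138) (.g (nat_lit 3233) (.e (nat_lit 16) (nat_lit 0) (.e (nat_lit 6975) (nat_lit 377) (.e (nat_lit 1363) (nat_lit 102) (.e (nat_lit 286735) (nat_lit 3) (.e (nat_lit 98373) (nat_lit 29) (.e (nat_lit 450587) (nat_lit 10) (.e (nat_lit 573457) (nat_lit 9) .nil))))))) (.g (nat_lit 6) .nil .nil))) 
(.lf (nat_lit 170) (.g (nat_lit 1652) (.e (nat_lit 19) (nat_lit 0) (.e (nat_lit 1849) (nat_lit 124) (.e (nat_lit 557108) (nat_lit 15) (.e (nat_lit 188452) (nat_lit 23) (.e (nat_lit 204846) (nat_lit 24) (.e (nat_lit 319504) (nat_lit 10) (.e (nat_lit 7936) (nat_lit 312) .nil))))))) (.g (nat_lit 6) .nil .nil)))) (.nd (nat_lit 5) 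
(.lf (nat_lit 154) (.g (nat_lit 2696) (.e (nat_lit 17) (nat_lit 0) (.e (nat_lit 6114) (nat_lit 332) (.e (nat_lit 1370) (nat_lit 103) (.e (nat_lit 294960) (nat_lit 13) .nil)))) .nil)) 
(.lf (nat_lit 186) (.g (nat_lit 4065) (.e (nat_lit 20) (nat_lit 0) (.e (nat_lit 2777) (nat_lit 178) (.e (nat_lit 286761) (nat_lit 13) (.e (nat_lit 393301) (nat_lit 27) (.e (nat_lit 491558) (nat_lit 10) .nil))))) .nil))))) (.nd (nat_lit 3) (.nd (nat_lit 4) (.nd (nat_lit 5) 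
(.lf (nat_lit 134) (.g (nat_lit 2551) (.e (nat_lit 16) (nat_lit 0) (.e (nat_lit 1859) (nat_lit 124) (.e (nat_lit 557109) (nat_lit 15) (.e (nat_lit 188452) (nat_lit 23) (.e (nat_lit 204846) (nat_lit 24) (.e (nat_lit 319504) (nat_lit 10) (.e (nat_lit 7936) (nat_lit 312) .nil))))))) (.g (nat_lit 6) .nil .nil))) 
(.lf (nat_lit 166) (.g (nat_lit 2251) (.e (nat_lit 18) (nat_lit 0) (.e (nat_lit 1859) (nat_lit 124) (.e (nat_lit 557109) (nat_lit 15) (.e (nat_lit 188452) (nat_lit 23) (.e (nat_lit 204846) (nat_lit 24) (.e (nat_lit 319504) (nat_lit 10) (.e (nat_lit 7936) (nat_lit 312) .nil))))))) (.g (nat_lit 6) .nil .nil)))) (.nd (nat_lit 5) 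
(.lf (nat_lit 150) (.g (nat_lit 3473) (.e (nat_lit 16) (nat_lit 0) (.e (nat_lit 7089) (nat_lit 379) (.e (nat_lit 123202) (nat_lit 270) (.e (nat_lit 1256) (nat_lit 92) (.e (nat_lit 98359) (nat_lit 26) (.e (nat_lit 426286) (nat_lit 10) (.e (nat_lit 434248) (nat_lit 28) (.e (nat_lit 573452) (nat_lit 9) .nil)))))))) (.g (nat_lit 0) .nil .nil))) 
(.lf (nat_lit 182) (.g (nat_lit 2754) (.e (nat_lit 20) (nat_lit 0) (.e (nat_lit 2777) (nat_lit 178) (.e (nat_lit 286761) (nat_lit 13) (.e (nat_lit 393300) (nat_lit 27) (.e (nat_lit 491546) (nat_lit 9) .nil))))) .nil)))) (.nd (nat_lit 4) (.nd (nat_lit 5) 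
(.lf (nat_lit 142) (.g (nat_lit 2187) (.e (nat_lit 16) (nat_lit 0) (.e (nat_lit 7087) (nat_lit 379) (.e (nat_lit 123202) (nat_lit 270) (.e (nat_lit 1256) (nat_lit 92) (.e (nat_lit 98372) (nat_lit 29) (.e (nat_lit 450586) (nat_lit 10) (.e (nat_lit 573457) (nat_lit 9) .nil))))))) (.g (nat_lit 0) .nil .nil))) 
(.lf (nat_lit 174) (.g (nat_lit 2689) (.e (nat_lit 19) (nat_lit 0) (.e (nat_lit 6114) (nat_lit 332) (.e (nat_lit 1370) (nat_lit 103) (.e (nat_lit 294960) (nat_lit 13) .nil)))) .nil))) (.nd (nat_lit 5) 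
(.lf (nat_lit 158) (.g (nat_lit 2984) (.e (nat_lit 18) (nat_lit 0) (.e (nat_lit 1858) (nat_lit 124) (.e (nat_lit 557101) (nat_lit 13) (.e (nat_lit 172097) (nat_lit 9) (.e (nat_lit 426125) (nat_lit 2) (.e (nat_lit 196661) (nat_lit 12) (.e (nat_lit 57722) (nat_lit 178) (.e (nat_lit 123164) (nat_lit 256) .nil)))))))) (.g (nat_lit 5) .nil .nil))) 
(.lf (nat_lit 190) (.g (nat_lit 4362) (.e (nat_lit 20) (nat_lit 0) (.e (nat_lit 2777) (nat_lit 178) (.e (nat_lit 286761) (nat_lit 13) (.e (nat_lit 393301) (nat_lit 27) (.e (nat_lit 491558) (nat_lit 10) (.e (nat_lit 344097) (nat_lit 18) (.e (nat_lit 7148) (nat_lit 382) .nil))))))) (.g (nat_lit 4) .nil .nil)))))))) (.nd (nat_lit 1) (.nd (nat_lit 2) (.nd (nat_lit 3) (.nd (nat_lit 4) (.nd (nat_lit 5) 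
(.lf (nat_lit 129) (.g (nat_lit 2433) (.e (nat_lit 16) (nat_lit 0) (.e (nat_lit 1859) (nat_lit 124) (.e (nat_lit 557109) (nat_lit 15) (.e (nat_lit 188449) (nat_lit 22) (.e (nat_lit 196661) (nat_lit 12) (.e (nat_lit 57722) (nat_lit 178) (.e (nat_lit 123166) (nat_lit 256) .nil))))))) (.g (nat_lit 4) .nil .nil))) 
(.lf (nat_lit 161) (.g (nat_lit 3037) (.e (nat_lit 18) (nat_lit 0) (.e (nat_lit 1858) (nat_lit 124) (.e (nat_lit 557101) (nat_lit 13) (.e (nat_lit 172115) (nat_lit 10) (.e (nat_lit 434231) (nat_lit 23) (.e (nat_lit 532490) (nat_lit 0) (.e (nat_lit 6223) (nat_lit 334) (.e (nat_lit 123163) (nat_lit 256) .nil)))))))) (.g (nat_lit 5) .nil .nil)))) (.nd (nat_lit 5) 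
(.lf (nat_lit 145) (.g (nat_lit 3478) (.e (nat_lit 16) (nat_lit 0) (.e (nat_lit 7088) (nat_lit 379) (.e (nat_lit 123202) (nat_lit 270) (.e (nat_lit 1256) (nat_lit 92) (.e (nat_lit 98359) (nat_lit 26) (.e (nat_lit 426286) (nat_lit 10) (.e (nat_lit 434248) (nat_lit 28) (.e (nat_lit 573452) (nat_lit 9) .nil)))))))) (.g (nat_lit 0) .nil .nil))) 
(.lf (nat_lit 177) (.g (nat_lit 2382) (.e (nat_lit 20) (nat_lit 0) (.e (nat_lit 2777) (nat_lit 178) (.e (nat_lit 286761) (nat_lit 13) (.e (nat_lit 393234) (nat_lit 17) (.e (nat_lit 7591) (nat_lit 407) .nil))))) .nil)))) (.nd (nat_lit 4) (.nd (nat_lit 5) 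
(.lf (nat_lit 137) (.g (nat_lit 3723) (.e (nat_lit 16) (nat_lit 0) (.e (nat_lit 6114) (nat_lit 332) (.e (nat_lit 1370) (nat_lit 103) (.e (nat_lit 294960) (nat_lit 13) (.e (nat_lit 393238) (nat_lit 17) (.e (nat_lit 7101) (nat_lit 380) (.e (nat_lit 164353) (nat_lit 246) .nil))))))) (.g (nat_lit 6) .nil .nil))) 
(.lf (nat_lit 169) (.g (nat_lit 1318) (.e (nat_lit 19) (nat_lit 0) (.e (nat_lit 1848) (nat_lit 124) (.e (nat_lit 557108) (nat_lit 15) (.e (nat_lit 188452) (nat_lit 23) (.e (nat_lit 204846) (nat_lit 24) .nil))))) .nil))) (.nd (nat_lit 5) 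
(.lf (nat_lit 153) (.g (nat_lit 2581) (.e (nat_lit 17) (nat_lit 0) (.e (nat_lit 1859) (nat_lit 124) (.e (nat_lit 557109) (nat_lit 15) (.e (nat_lit 188452) (nat_lit 23) (.e (nat_lit 204846) (nat_lit 24) (.e (nat_lit 319504) (nat_lit 10) (.e (nat_lit 7936) (nat_lit 312) .nil))))))) (.g (nat_lit 6) .nil .nil))) 
(.lf (nat_lit 185) (.g (nat_lit 4732) (.e (nat_lit 20) (nat_lit 0) (.e (nat_lit 2777) (nat_lit 178) (.e (nat_lit 286761) (nat_lit 13) (.e (nat_lit 393301) (nat_lit 27) (.e (nat_lit 491546) (nat_lit 9) (.e (nat_lit 335997) (nat_lit 1) (.e (nat_lit 57661) (nat_lit 152) .nil))))))) (.g (nat_lit 4) .nil .nil)))))) (.nd (nat_lit 3) (.nd (nat_lit 4) (.nd (nat_lit 5) 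
(.lf (nat_lit 133) (.g (nat_lit 4560) (.e (nat_lit 16) (nat_lit 0) (.e (nat_lit 1859) (nat_lit 124) (.e (nat_lit 557109) (nat_lit 15) (.e (nat_lit 188452) (nat_lit 23) (.e (nat_lit 204846) (nat_lit 24) (.e (nat_lit 319502) (nat_lit 10) (.e (nat_lit 5672) (nat_lit 312) .nil))))))) (.g (nat_lit 5) .nil .nil))) 
(.lf (nat_lit 165) (.g (nat_lit 4345) (.e (nat_lit 18) (nat_lit 0) (.e (nat_lit 1858) (nat_lit 124) (.e (nat_lit 557109) (nat_lit 15) (.e (nat_lit 188452) (nat_lit 23) (.e (nat_lit 204821) (nat_lit 17) .nil))))) .nil))) (.nd (nat_lit 5) 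
(.lf (nat_lit 149) (.g (nat_lit 3855) (.e (nat_lit 16) (nat_lit 0) (.e (nat_lit 7089) (nat_lit 379) (.e (nat_lit 123202) (nat_lit 270) (.e (nat_lit 1239) (nat_lit 91) (.e (nat_lit 90170) (nat_lit 13) (.e (nat_lit 172113) (nat_lit 10) (.e (nat_lit 434248) (nat_lit 28) (.e (nat_lit 573452) (nat_lit 9) .nil)))))))) (.g (nat_lit 0) .nil .nil))) 
(.lf (nat_lit 181) (.g (nat_lit 1749) (.e (nat_lit 20) (nat_lit 0) (.e (nat_lit 2777) (nat_lit 178) (.e (nat_lit 286761) (nat_lit 13) (.e (nat_lit 393300) (nat_lit 27) .nil)))) .nil)))) (.nd (nat_lit 4) (.nd (nat_lit 5) 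
(.lf (nat_lit 141) (.g (nat_lit 3450) (.e (nat_lit 16) (nat_lit 0) (.e (nat_lit 7087) (nat_lit 379) (.e (nat_lit 123202) (nat_lit 270) (.e (nat_lit 1256) (nat_lit 92) (.e (nat_lit 98359) (nat_lit 26) (.e (nat_lit 426286) (nat_lit 10) (.e (nat_lit 434248) (nat_lit 28) (.e (nat_lit 573452) (nat_lit 9) .nil)))))))) (.g (nat_lit 0) .nil .nil))) 
(.lf (nat_lit 173) (.g (nat_lit 2327) (.e (nat_lit 19) (nat_lit 0) (.e (nat_lit 1859) (nat_lit 124) (.e (nat_lit 557109) (nat_lit 15) (.e (nat_lit 188452) (nat_lit 23) (.e (nat_lit 204846) (nat_lit 24) (.e (nat_lit 319504) (nat_lit 10) (.e (nat_lit 7936) (nat_lit 312) .nil))))))) (.g (nat_lit 6) .nil .nil)))) (.nd (nat_lit 5) 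
(.lf (nat_lit 157) (.g (nat_lit 1630) (.e (nat_lit 18) (nat_lit 0) (.e (nat_lit 1849) (nat_lit 124) (.e (nat_lit 557108) (nat_lit 15) (.e (nat_lit 188452) (nat_lit 23) (.e (nat_lit 204846) (nat_lit 24) (.e (nat_lit 319504) (nat_lit 10) (.e (nat_lit 7936) (nat_lit 312) .nil))))))) (.g (nat_lit 6) .nil .nil))) 
(.lf (nat_lit 189) (.g (nat_lit 5018) (.e (nat_lit 20) (nat_lit 0) (.e (nat_lit 2777) (nat_lit 178) (.e (nat_lit 286761) (nat_lit 13) (.e (nat_lit 393301) (nat_lit 27) (.e (nat_lit 491558) (nat_lit 10) (.e (nat_lit 344097) (nat_lit 18) (.e (nat_lit 7144) (nat_lit 382) .nil))))))) (.g (nat_lit 5) .nil .nil))))))) (.nd (nat_lit 2) (.nd (nat_lit 3) (.nd (nat_lit 4) (.nd (nat_lit 5) 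
(.lf (nat_lit 131) (.g (nat_lit 2571) (.e (nat_lit 16) (nat_lit 0) (.e (nat_lit 1859) (nat_lit 124) (.e (nat_lit 557109) (nat_lit 15) (.e (nat_lit 188452) (nat_lit 23) (.e (nat_lit 204821) (nat_lit 17) (.e (nat_lit 6223) (nat_lit 334) (.e (nat_lit 123164) (nat_lit 256) .nil))))))) (.g (nat_lit 4) .nil .nil))) 
(.lf (nat_lit 163) (.g (nat_lit 3604) (.e (nat_lit 18) (nat_lit 0) (.e (nat_lit 1858) (nat_lit 124) (.e (nat_lit 557101) (nat_lit 13) (.e (nat_lit 172115) (nat_lit 10) (.e (nat_lit 434231) (nat_lit 23) (.e (nat_lit 532490) (nat_lit 0) (.e (nat_lit 6223) (nat_lit 334) (.e (nat_lit 123166) (nat_lit 256) .nil)))))))) (.g (nat_lit 6) .nil .nil)))) (.nd (nat_lit 5) 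
(.lf (nat_lit 147) (.g (nat_lit 2417) (.e (nat_lit 16) (nat_lit 0) (.e (nat_lit 7088) (nat_lit 379) (.e (nat_lit 123212) (nat_lit 273) (.e (nat_lit 57464) (nat_lit 23) (.e (nat_lit 516166) (nat_lit 12) (.e (nat_lit 450587) (nat_lit 10) (.e (nat_lit 573457) (nat_lit 9) .nil))))))) (.g (nat_lit 0) .nil .nil))) 
(.lf (nat_lit 179) (.g (nat_lit 2551) (.e (nat_lit 20) (nat_lit 0) (.e (nat_lit 2777) (nat_lit 178) (.e (nat_lit 286761) (nat_lit 13) (.e (nat_lit 393234) (nat_lit 17) (.e (nat_lit 7591) (nat_lit 407) (.e (nat_lit 73733) (nat_lit 0) (.e (nat_lit 7166) (nat_lit 382) .nil))))))) (.g (nat_lit 4) .nil .nil))))) (.nd (nat_lit 4) (.nd (nat_lit 5) 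
(.lf (nat_lit 139) (.g (nat_lit 4627) (.e (nat_lit 16) (nat_lit 0) (.e (nat_lit 6975) (nat_lit 377) (.e (nat_lit 1363) (nat_lit 102) (.e (nat_lit 286735) (nat_lit 3) (.e (nat_lit 98373) (nat_lit 29) (.e (nat_lit 450588) (nat_lit 10) (.e (nat_lit 573452) (nat_lit 9) .nil))))))) (.g (nat_lit 0) .nil .nil))) 
(.lf (nat_lit 171) (.g (nat_lit 2140) (.e (nat_lit 19) (nat_lit 0) (.e (nat_lit 1858) (nat_lit 124) (.e (nat_lit 557100) (nat_lit 13) (.e (nat_lit 172106) (nat_lit 10) (.e (nat_lit 434231) (nat_lit 23) (.e (nat_lit 532490) (nat_lit 0) (.e (nat_lit 6223) (nat_lit 334) (.e (nat_lit 123162) (nat_lit 256) .nil)))))))) (.g (nat_lit 4) .nil .nil)))) (.nd (nat_lit 5) 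
(.lf (nat_lit 155) (.g (nat_lit 2099) (.e (nat_lit 18) (nat_lit 0) (.e (nat_lit 1385) (nat_lit 105) (.e (nat_lit 311343) (nat_lit 13) (.e (nat_lit 483372) (nat_lit 21) (.e (nat_lit 319533) (nat_lit 16) (.e (nat_lit 286724) (nat_lit 0) (.e (nat_lit 988) (nat_lit 81) (.e (nat_lit 7122) (nat_lit 382) .nil)))))))) (.g (nat_lit 5) .nil .nil))) 
(.lf (nat_lit 187) (.g (nat_lit 5219) (.e (nat_lit 20) (nat_lit 0) (.e (nat_lit 2777) (nat_lit 178) (.e (nat_lit 286761) (nat_lit 13) (.e (nat_lit 393301) (nat_lit 27) (.e (nat_lit 491558) (nat_lit 10) (.e (nat_lit 344091) (nat_lit 18) (.e (nat_lit 7119) (nat_lit 382) .nil))))))) (.g (nat_lit 5) .nil .nil)))))) (.nd (nat_lit 3) (.nd (nat_lit 4) (.nd (nat_lit 5) 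
(.lf (nat_lit 135) (.g (nat_lit 4714) (.e (nat_lit 16) (nat_lit 0) (.e (nat_lit 1859) (nat_lit 124) (.e (nat_lit 557109) (nat_lit 15) (.e (nat_lit 188452) (nat_lit 23) (.e (nat_lit 204846) (nat_lit 24) (.e (nat_lit 319511) (nat_lit 10) (.e (nat_lit 5629) (nat_lit 312) .nil))))))) (.g (nat_lit 6) .nil .nil))) 
(.lf (nat_lit 167) (.g (nat_lit 3184) (.e (nat_lit 18) (nat_lit 0) (.e (nat_lit 2030) (nat_lit 140) (.e (nat_lit 688177) (nat_lit 16) (.e (nat_lit 65569) (nat_lit 3) (.e (nat_lit 98359) (nat_lit 26) (.e (nat_lit 426211) (nat_lit 9) (.e (nat_lit 426125) (nat_lit 2) (.e (nat_lit 204544) (nat_lit 0) .nil)))))))) (.g (nat_lit 5) .nil .nil)))) (.nd (nat_lit 5) 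
(.lf (nat_lit 151) (.g (nat_lit 3561) (.e (nat_lit 16) (nat_lit 0) (.e (nat_lit 7089) (nat_lit 379) (.e (nat_lit 123212) (nat_lit 273) (.e (nat_lit 57464) (nat_lit 23) (.e (nat_lit 516151) (nat_lit 9) (.e (nat_lit 426286) (nat_lit 10) (.e (nat_lit 434248) (nat_lit 28) (.e (nat_lit 573452) (nat_lit 9) .nil)))))))) (.g (nat_lit 0) .nil .nil))) 
(.lf (nat_lit 183) (.g (nat_lit 5619) (.e (nat_lit 20) (nat_lit 0) (.e (nat_lit 2777) (nat_lit 178) (.e (nat_lit 286761) (nat_lit 13) (.e (nat_lit 393301) (nat_lit 27) (.e (nat_lit 491546) (nat_lit 9) (.e (nat_lit 335997) (nat_lit 1) (.e (nat_lit 57652) (nat_lit 152) .nil))))))) (.g (nat_lit 5) .nil .nil))))) (.nd (nat_lit 4) (.nd (nat_lit 5) 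
(.lf (nat_lit 143) (.g (nat_lit 3568) (.e (nat_lit 16) (nat_lit 0) (.e (nat_lit 7087) (nat_lit 379) (.e (nat_lit 123212) (nat_lit 273) (.e (nat_lit 57464) (nat_lit 23) (.e (nat_lit 516151) (nat_lit 9) (.e (nat_lit 426286) (nat_lit 10) (.e (nat_lit 434248) (nat_lit 28) (.e (nat_lit 573452) (nat_lit 9) .nil)))))))) (.g (nat_lit 0) .nil .nil))) 
(.lf (nat_lit 175) (.g (nat_lit 2495) (.e (nat_lit 20) (nat_lit 0) (.e (nat_lit 2777) (nat_lit 178) (.e (nat_lit 286759) (nat_lit 12) (.e (nat_lit 385106) (nat_lit 50) (.e (nat_lit 786481) (nat_lit 30) (.e (nat_lit 368384) (nat_lit 0) (.e (nat_lit 5810) (nat_lit 320) .nil))))))) (.g (nat_lit 5) .nil .nil)))) (.nd (nat_lit 5) 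
(.lf (nat_lit 159) (.g (nat_lit 2843) (.e (nat_lit 18) (nat_lit 0) (.e (nat_lit 1858) (nat_lit 124) (.e (nat_lit 557101) (nat_lit 13) (.e (nat_lit 172097) (nat_lit 9) (.e (nat_lit 426125) (nat_lit 2) (.e (nat_lit 196661) (nat_lit 12) (.e (nat_lit 57722) (nat_lit 178) (.e (nat_lit 123165) (nat_lit 256) .nil)))))))) (.g (nat_lit 5) .nil .nil))) 
(.lf (nat_lit 191) (.g (nat_lit 4386) (.e (nat_lit 20) (nat_lit 0) (.e (nat_lit 2777) (nat_lit 178) (.e (nat_lit 286761) (nat_lit 13) (.e (nat_lit 393301) (nat_lit 27) (.e (nat_lit 491559) (nat_lit 10) .nil))))) .nil))))))))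

noncomputable def tv003 : DT := (.nd (nat_lit 0) (.nd (nat_lit 1) (.nd (nat_lit 2) (.nd (nat_lit 3) (.nd (nat_lit 4) (.nd (nat_lit 5) 
(.lf (nat_lit 192) (.g (nat_lit 3900) (.e (nat_lit 20) (nat_lit 0) (.e (nat_lit 2777) (nat_lit 178) (.e (nat_lit 286761) (nat_lit 13) (.e (nat_lit 393301) (nat_lit 27) (.e (nat_lit 491560) (nat_lit 10) .nil))))) .nil)) 
(.lf (nat_lit 224) (.g (nat_lit 3269) (.e (nat_lit 26) (nat_lit 0) (.e (nat_lit 2789) (nat_lit 179) (.e (nat_lit 294957) (nat_lit 13) (.e (nat_lit 393301) (nat_lit 27) (.e (nat_lit 491560) (nat_lit 10) (.e (nat_lit 344094) (nat_lit 18) (.e (nat_lit 7119) (nat_lit 382) .nil))))))) (.g (nat_lit 5) .nil .nil)))) (.nd (nat_lit 5) 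
(.lf (nat_lit 208) (.g (nat_lit 2447) (.e (nat_lit 21) (nat_lit 0) (.e (nat_lit 2788) (nat_lit 179) (.e (nat_lit 294959) (nat_lit 13) (.e (nat_lit 393260) (nat_lit 21) (.e (nat_lit 409646) (nat_lit 18) (.e (nat_lit 303115) (nat_lit 1) (.e (nat_lit 164151) (nat_lit 152) .nil))))))) (.g (nat_lit 6) .nil .nil))) 
(.lf (nat_lit 240) (.g (nat_lit 3705) (.e (nat_lit 42) (nat_lit 0) (.e (nat_lit 1853) (nat_lit 124) (.e (nat_lit 557108) (nat_lit 15) (.e (nat_lit 188452) (nat_lit 23) (.e (nat_lit 204849) (nat_lit 25) .nil))))) .nil)))) (.nd (nat_lit 4) (.nd (nat_lit 5) 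
(.lf (nat_lit 200) (.g (nat_lit 978) (.e (nat_lit 21) (nat_lit 0) (.e (nat_lit 2777) (nat_lit 178) (.e (nat_lit 286761) (nat_lit 13) .nil))) .nil)) 
(.lf (nat_lit 232) (.g (nat_lit 3060) (.e (nat_lit 39) (nat_lit 0) (.e (nat_lit 3302) (nat_lit 202) (.e (nat_lit 573489) (nat_lit 14) (.e (nat_lit 73755) (nat_lit 8) (.e (nat_lit 557105) (nat_lit 14) .nil))))) .nil))) (.nd (nat_lit 5) 
(.lf (nat_lit 216) (.g (nat_lit 1556) (.e (nat_lit 26) (nat_lit 0) (.e (nat_lit 2783) (nat_lit 179) (.e (nat_lit 294960) (nat_lit 13) (.e (nat_lit 393238) (nat_lit 17) (.e (nat_lit 6989) (nat_lit 377) (.e (nat_lit 2810) (nat_lit 180) (.e (nat_lit 303115) (nat_lit 1) (.e (nat_lit 164150) (nat_lit 152) .nil)))))))) (.g (nat_lit 5) .nil .nil))) 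
(.lf (nat_lit 248) (.g (nat_lit 2146) (.e (nat_lit 46) (nat_lit 0) (.e (nat_lit 1800) (nat_lit 119) (.e (nat_lit 516176) (nat_lit 14) (.e (nat_lit 466977) (nat_lit 22) (.e (nat_lit 196669) (nat_lit 14) .nil))))) .nil))))) (.nd (nat_lit 3) (.nd (nat_lit 4) (.nd (nat_lit 5) 
(.lf (nat_lit 196) (.g (nat_lit 4082) (.e (nat_lit 20) (nat_lit 0) (.e (nat_lit 3281) (nat_lit 200) (.e (nat_lit 557108) (nat_lit 15) (.e (nat_lit 188452) (nat_lit 23) (.e (nat_lit 204846) (nat_lit 24) .nil))))) .nil)) 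
(.lf (nat_lit 228) (.g (nat_lit 4303) (.e (nat_lit 28) (nat_lit 0) (.e (nat_lit 5820) (nat_lit 320) (.e (nat_lit 1201) (nat_lit 88) (.e (nat_lit 65630) (nat_lit 14) (.e (nat_lit 401459) (nat_lit 13) (.e (nat_lit 483372) (nat_lit 21) (.e (nat_lit 327424) (nat_lit 0) .nil))))))) (.g (nat_lit 6) .nil .nil)))) (.nd (nat_lit 5) 
(.lf (nat_lit 212) (.g (nat_lit 2171) (.e (nat_lit 26) (nat_lit 0) (.e (nat_lit 2783) (nat_lit 179) (.e (nat_lit 294959) (nat_lit 13) (.e (nat_lit 393260) (nat_lit 21) (.e (nat_lit 409648) (nat_lit 18) (.e (nat_lit 303114) (nat_lit 1) (.e (nat_lit 164151) (nat_lit 152) .nil))))))) (.g (nat_lit 7) .nil .nil))) 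
(.lf (nat_lit 244) (.g (nat_lit 2467) (.e (nat_lit 44) (nat_lit 0) (.e (nat_lit 1856) (nat_lit 124) (.e (nat_lit 557105) (nat_lit 14) (.e (nat_lit 180252) (nat_lit 10) (.e (nat_lit 573489) (nat_lit 14) .nil))))) .nil)))) (.nd (nat_lit 4) (.nd (nat_lit 5) 
(.lf (nat_lit 204) (.g (nat_lit 4278) (.e (nat_lit 21) (nat_lit 0) (.e (nat_lit 2777) (nat_lit 178) (.e (nat_lit 286761) (nat_lit 13) (.e (nat_lit 393301) (nat_lit 27) (.e (nat_lit 491558) (nat_lit 10) (.e (nat_lit 344096) (nat_lit 18) (.e (nat_lit 7119) (nat_lit 382) .nil))))))) (.g (nat_lit 4) .nil .nil))) 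
(.lf (nat_lit 236) (.g (nat_lit 4190) (.e (nat_lit 40) (nat_lit 0) (.e (nat_lit 3302) (nat_lit 202) (.e (nat_lit 573493) (nat_lit 15) (.e (nat_lit 81956) (nat_lit 23) (.e (nat_lit 98350) (nat_lit 24) .nil))))) .nil))) (.nd (nat_lit 5) 
(.lf (nat_lit 220) (.g (nat_lit 3271) (.e (nat_lit 26) (nat_lit 0) (.e (nat_lit 2783) (nat_lit 179) (.e (nat_lit 294960) (nat_lit 13) (.e (nat_lit 393260) (nat_lit 21) (.e (nat_lit 409645) (nat_lit 18) (.e (nat_lit 303115) (nat_lit 1) (.e (nat_lit 164151) (nat_lit 152) .nil))))))) (.g (nat_lit 7) .nil .nil))) 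
(.lf (nat_lit 252) (.g (nat_lit 3041) (.e (nat_lit 46) (nat_lit 0) (.e (nat_lit 3305) (nat_lit 202) (.e (nat_lit 573493) (nat_lit 15) (.e (nat_lit 81956) (nat_lit 23) (.e (nat_lit 98350) (nat_lit 24) .nil))))) .nil)))))) (.nd (nat_lit 2) (.nd (nat_lit 3) (.nd (nat_lit 4) (.nd (nat_lit 5) 
(.lf (nat_lit 194) (.g (nat_lit 4184) (.e (nat_lit 20) (nat_lit 0) (.e (nat_lit 3276) (nat_lit 200) (.e (nat_lit 557108) (nat_lit 15) (.e (nat_lit 188452) (nat_lit 23) (.e (nat_lit 204846) (nat_lit 24) (.e (nat_lit 319504) (nat_lit 10) (.e (nat_lit 5260) (nat_lit 298) .nil))))))) (.g (nat_lit 4) .nil .nil))) 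
(.lf (nat_lit 226) (.g (nat_lit 2884) (.e (nat_lit 26) (nat_lit 0) (.e (nat_lit 6216) (nat_lit 333) (.e (nat_lit 57887) (nat_lit 270) (.e (nat_lit 1656) (nat_lit 115) (.e (nat_lit 393265) (nat_lit 22) (.e (nat_lit 417820) (nat_lit 10) (.e (nat_lit 5612) (nat_lit 312) .nil))))))) (.g (nat_lit 0) .nil .nil)))) (.nd (nat_lit 5) 
(.lf (nat_lit 210) (.g (nat_lit 4759) (.e (nat_lit 21) (nat_lit 0) (.e (nat_lit 3307) (nat_lit 202) (.e (nat_lit 573493) (nat_lit 15) (.e (nat_lit 81956) (nat_lit 23) (.e (nat_lit 98350) (nat_lit 24) .nil))))) .nil)) 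
(.lf (nat_lit 242) (.g (nat_lit 1909) (.e (nat_lit 44) (nat_lit 0) (.e (nat_lit 1855) (nat_lit 124) (.e (nat_lit 557105) (nat_lit 14) (.e (nat_lit 180252) (nat_lit 10) (.e (nat_lit 573489) (nat_lit 14) .nil))))) .nil)))) (.nd (nat_lit 4) (.nd (nat_lit 5) 
(.lf (nat_lit 202) (.g (nat_lit 2460) (.e (nat_lit 21) (nat_lit 0) (.e (nat_lit 2777) (nat_lit 178) (.e (nat_lit 286761) (nat_lit 13) (.e (nat_lit 393234) (nat_lit 17) (.e (nat_lit 7591) (nat_lit 407) .nil))))) .nil)) 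
(.lf (nat_lit 234) (.g (nat_lit 3037) (.e (nat_lit 40) (nat_lit 0) (.e (nat_lit 1853) (nat_lit 124) (.e (nat_lit 557105) (nat_lit 14) (.e (nat_lit 180252) (nat_lit 10) (.e (nat_lit 573489) (nat_lit 14) (.e (nat_lit 73755) (nat_lit 8) (.e (nat_lit 557089) (nat_lit 12) (.e (nat_lit 164006) (nat_lit 41) (.e (nat_lit 663580) (nat_lit 9) .nil))))))))) (.g (nat_lit 4) .nil .nil)))) (.nd (nat_lit 5) 
(.lf (nat_lit 218) (.g (nat_lit 1190) (.e (nat_lit 26) (nat_lit 0) (.e (nat_lit 2783) (nat_lit 179) (.e (nat_lit 294960) (nat_lit 13) (.e (nat_lit 393260) (nat_lit 21) (.e (nat_lit 417536) (nat_lit 16) (.e (nat_lit 286731) (nat_lit 1) (.e (nat_lit 57652) (nat_lit 152) .nil))))))) (.g (nat_lit 4) .nil .nil))) 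
(.lf (nat_lit 250) (.g (nat_lit 2031) (.e (nat_lit 46) (nat_lit 0) (.e (nat_lit 1855) (nat_lit 124) (.e (nat_lit 557109) (nat_lit 15) (.e (nat_lit 188452) (nat_lit 23) (.e (nat_lit 204846) (nat_lit 24) (.e (nat_lit 319504) (nat_lit 10) (.e (nat_lit 5734) (nat_lit 312) .nil))))))) (.g (nat_lit 4) .nil .nil)))))) (.nd (nat_lit 3) (.nd (nat_lit 4) (.nd (nat_lit 5) 
(.lf (nat_lit 198) (.g (nat_lit 2107) (.e (nat_lit 20) (nat_lit 0) (.e (nat_lit 6989) (nat_lit 377) (.e (nat_lit 1361) (nat_lit 102) (.e (nat_lit 286761) (nat_lit 13) (.e (nat_lit 393260) (nat_lit 21) (.e (nat_lit 409623) (nat_lit 10) (.e (nat_lit 5259) (nat_lit 298) .nil))))))) (.g (nat_lit 5) .nil .nil))) 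
(.lf (nat_lit 230) (.g (nat_lit 2322) (.e (nat_lit 34) (nat_lit 0) (.e (nat_lit 6092) (nat_lit 332) (.e (nat_lit 1370) (nat_lit 103) (.e (nat_lit 294960) (nat_lit 13) (.e (nat_lit 393238) (nat_lit 17) (.e (nat_lit 7101) (nat_lit 380) (.e (nat_lit 164353) (nat_lit 246) .nil))))))) (.g (nat_lit 6) .nil .nil)))) (.nd (nat_lit 5) 
(.lf (nat_lit 214) (.g (nat_lit 2167) (.e (nat_lit 26) (nat_lit 0) (.e (nat_lit 2783) (nat_lit 179) (.e (nat_lit 294959) (nat_lit 13) (.e (nat_lit 393260) (nat_lit 21) (.e (nat_lit 409649) (nat_lit 18) (.e (nat_lit 303115) (nat_lit 1) (.e (nat_lit 164150) (nat_lit 152) .nil))))))) (.g (nat_lit 7) .nil .nil))) 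
(.lf (nat_lit 246) (.g (nat_lit 3416) (.e (nat_lit 44) (nat_lit 0) (.e (nat_lit 1856) (nat_lit 124) (.e (nat_lit 557105) (nat_lit 14) (.e (nat_lit 180252) (nat_lit 10) (.e (nat_lit 573489) (nat_lit 14) (.e (nat_lit 73755) (nat_lit 8) (.e (nat_lit 557090) (nat_lit 12) (.e (nat_lit 164006) (nat_lit 41) (.e (nat_lit 663580) (nat_lit 9) .nil))))))))) (.g (nat_lit 6) .nil .nil))))) 
(.nd (nat_lit 4) (.nd (nat_lit 5) 
(.lf (nat_lit 206) (.g (nat_lit 4180) (.e (nat_lit 21) (nat_lit 0) (.e (nat_lit 2777) (nat_lit 178) (.e (nat_lit 286761) (nat_lit 13) (.e (nat_lit 393301) (nat_lit 27) (.e (nat_lit 491560) (nat_lit 10) (.e (nat_lit 344097) (nat_lit 18) (.e (nat_lit 7144) (nat_lit 382) .nil))))))) (.g (nat_lit 4) .nil .nil))) 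
(.lf (nat_lit 238) (.g (nat_lit 2445) (.e (nat_lit 42) (nat_lit 0) (.e (nat_lit 1853) (nat_lit 124) (.e (nat_lit 557108) (nat_lit 15) (.e (nat_lit 188452) (nat_lit 23) (.e (nat_lit 204819) (nat_lit 17) .nil))))) .nil))) (.nd (nat_lit 5) 
(.lf (nat_lit 222) (.g (nat_lit 1723) (.e (nat_lit 26) (nat_lit 0) (.e (nat_lit 2788) (nat_lit 179) (.e (nat_lit 294959) (nat_lit 13) (.e (nat_lit 393260) (nat_lit 21) (.e (nat_lit 409648) (nat_lit 18) (.e (nat_lit 303114) (nat_lit 1) (.e (nat_lit 164151) (nat_lit 152) .nil))))))) (.g (nat_lit 5) .nil .nil))) 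
(.lf (nat_lit 254) (.g (nat_lit 4102) (.e (nat_lit 48) (nat_lit 0) (.e (nat_lit 1855) (nat_lit 124) (.e (nat_lit 557109) (nat_lit 15) (.e (nat_lit 188452) (nat_lit 23) (.e (nat_lit 204846) (nat_lit 24) (.e (nat_lit 319505) (nat_lit 10) (.e (nat_lit 5712) (nat_lit 312) .nil))))))) (.g (nat_lit 0) .nil .nil)))))))) (.nd (nat_lit 1) (.nd (nat_lit 2) (.nd (nat_lit 3) (.nd (nat_lit 4) (.nd (nat_lit 5) 
(.lf (nat_lit 193) (.g (nat_lit 5360) (.e (nat_lit 20) (nat_lit 0) (.e (nat_lit 2777) (nat_lit 178) (.e (nat_lit 286761) (nat_lit 13) (.e (nat_lit 393301) (nat_lit 27) (.e (nat_lit 491560) (nat_lit 10) (.e (nat_lit 344097) (nat_lit 18) (.e (nat_lit 7144) (nat_lit 382) .nil))))))) (.g (nat_lit 5) .nil .nil))) 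
(.lf (nat_lit 225) (.g (nat_lit 4759) (.e (nat_lit 26) (nat_lit 0) (.e (nat_lit 3307) (nat_lit 202) (.e (nat_lit 573493) (nat_lit 15) (.e (nat_lit 81956) (nat_lit 23) (.e (nat_lit 98350) (nat_lit 24) .nil))))) .nil))) (.nd (nat_lit 5) 
(.lf (nat_lit 209) (.g (nat_lit 1769) (.e (nat_lit 21) (nat_lit 0) (.e (nat_lit 2789) (nat_lit 179) (.e (nat_lit 294957) (nat_lit 13) (.e (nat_lit 393301) (nat_lit 27) (.e (nat_lit 491546) (nat_lit 9) .nil))))) .nil)) 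
(.lf (nat_lit 241) (.g (nat_lit 3001) (.e (nat_lit 42) (nat_lit 0) (.e (nat_lit 3302) (nat_lit 202) (.e (nat_lit 573489) (nat_lit 14) (.e (nat_lit 73755) (nat_lit 8) (.e (nat_lit 557105) (nat_lit 14) .nil))))) .nil)))) (.nd (nat_lit 4) (.nd (nat_lit 5) 
(.lf (nat_lit 201) (.g (nat_lit 1452) (.e (nat_lit 21) (nat_lit 0) (.e (nat_lit 2777) (nat_lit 178) (.e (nat_lit 286761) (nat_lit 13) (.e (nat_lit 393234) (nat_lit 17) .nil)))) .nil)) 
(.lf (nat_lit 233) (.g (nat_lit 4255) (.e (nat_lit 39) (nat_lit 0) (.e (nat_lit 3302) (nat_lit 202) (.e (nat_lit 573493) (nat_lit 15) (.e (nat_lit 81956) (nat_lit 23) (.e (nat_lit 98350) (nat_lit 24) .nil))))) .nil))) (.nd (nat_lit 5) 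
(.lf (nat_lit 217) (.g (nat_lit 2593) (.e (nat_lit 26) (nat_lit 0) (.e (nat_lit 2783) (nat_lit 179) (.e (nat_lit 294960) (nat_lit 13) (.e (nat_lit 393259) (nat_lit 21) (.e (nat_lit 409645) (nat_lit 18) (.e (nat_lit 303115) (nat_lit 1) (.e (nat_lit 164151) (nat_lit 152) .nil))))))) (.g (nat_lit 7) .nil .nil))) 
(.lf (nat_lit 249) (.g (nat_lit 1087) (.e (nat_lit 46) (nat_lit 0) (.e (nat_lit 1800) (nat_lit 119) (.e (nat_lit 516176) (nat_lit 14) (.e (nat_lit 466981) (nat_lit 23) .nil)))) .nil))))) (.nd (nat_lit 3) (.nd (nat_lit 4) (.nd (nat_lit 5) 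
(.lf (nat_lit 197) (.g (nat_lit 4759) (.e (nat_lit 20) (nat_lit 0) (.e (nat_lit 3307) (nat_lit 202) (.e (nat_lit 573493) (nat_lit 15) (.e (nat_lit 81956) (nat_lit 23) (.e (nat_lit 98350) (nat_lit 24) .nil))))) .nil)) 
(.lf (nat_lit 229) (.g (nat_lit 2354) (.e (nat_lit 28) (nat_lit 0) (.e (nat_lit 6216) (nat_lit 333) (.e (nat_lit 57887) (nat_lit 270) (.e (nat_lit 1656) (nat_lit 115) (.e (nat_lit 393265) (nat_lit 22) (.e (nat_lit 417820) (nat_lit 10) (.e (nat_lit 5612) (nat_lit 312) .nil))))))) (.g (nat_lit 6) .nil .nil)))) (.nd (nat_lit 5) 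
(.lf (nat_lit 213) (.g (nat_lit 2346) (.e (nat_lit 26) (nat_lit 0) (.e (nat_lit 2783) (nat_lit 179) (.e (nat_lit 294959) (nat_lit 13) (.e (nat_lit 393260) (nat_lit 21) (.e (nat_lit 409648) (nat_lit 18) (.e (nat_lit 303115) (nat_lit 1) (.e (nat_lit 164151) (nat_lit 152) .nil))))))) (.g (nat_lit 7) .nil .nil))) 
(.lf (nat_lit 245) (.g (nat_lit 2629) (.e (nat_lit 44) (nat_lit 0) (.e (nat_lit 1856) (nat_lit 124) (.e (nat_lit 557105) (nat_lit 14) (.e (nat_lit 180252) (nat_lit 10) (.e (nat_lit 573489) (nat_lit 14) (.e (nat_lit 73755) (nat_lit 8) (.e (nat_lit 557089) (nat_lit 12) (.e (nat_lit 164007) (nat_lit 41) (.e (nat_lit 663580) (nat_lit 9) .nil))))))))) (.g (nat_lit 4) .nil .nil))))) 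
(.nd (nat_lit 4) (.nd (nat_lit 5) 
(.lf (nat_lit 205) (.g (nat_lit 4027) (.e (nat_lit 21) (nat_lit 0) (.e (nat_lit 2777) (nat_lit 178) (.e (nat_lit 286761) (nat_lit 13) (.e (nat_lit 393301) (nat_lit 27) (.e (nat_lit 491560) (nat_lit 10) .nil))))) .nil)) 
(.lf (nat_lit 237) (.g (nat_lit 2105) (.e (nat_lit 42) (nat_lit 0) (.e (nat_lit 1846) (nat_lit 124) (.e (nat_lit 557108) (nat_lit 15) (.e (nat_lit 188452) (nat_lit 23) (.e (nat_lit 204846) (nat_lit 24) .nil))))) .nil))) (.nd (nat_lit 5) 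
(.lf (nat_lit 221) (.g (nat_lit 2230) (.e (nat_lit 26) (nat_lit 0) (.e (nat_lit 2783) (nat_lit 179) (.e (nat_lit 294960) (nat_lit 13) (.e (nat_lit 393260) (nat_lit 21) (.e (nat_lit 409648) (nat_lit 18) (.e (nat_lit 303114) (nat_lit 1) (.e (nat_lit 164150) (nat_lit 152) .nil))))))) (.g (nat_lit 5) .nil .nil))) 
(.lf (nat_lit 253) (.g (nat_lit 4294) (.e (nat_lit 46) (nat_lit 0) (.e (nat_lit 3632) (nat_lit 227) (.e (nat_lit 778320) (nat_lit 4) (.e (nat_lit 65630) (nat_lit 14) (.e (nat_lit 401459) (nat_lit 13) (.e (nat_lit 483344) (nat_lit 17) (.e (nat_lit 6448) (nat_lit 343) .nil))))))) (.g (nat_lit 7) .nil .nil))))))) (.nd (nat_lit 2) (.nd (nat_lit 3) (.nd (nat_lit 4) (.nd (nat_lit 5) 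
(.lf (nat_lit 195) (.g (nat_lit 3016) (.e (nat_lit 20) (nat_lit 0) (.e (nat_lit 3276) (nat_lit 200) (.e (nat_lit 557109) (nat_lit 15) (.e (nat_lit 188452) (nat_lit 23) (.e (nat_lit 204846) (nat_lit 24) .nil))))) .nil)) 
(.lf (nat_lit 227) (.g (nat_lit 2138) (.e (nat_lit 27) (nat_lit 0) (.e (nat_lit 3307) (nat_lit 202) (.e (nat_lit 573485) (nat_lit 13) (.e (nat_lit 65604) (nat_lit 9) (.e (nat_lit 336013) (nat_lit 2) .nil))))) .nil))) (.nd (nat_lit 5) 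
(.lf (nat_lit 211) (.g (nat_lit 2118) (.e (nat_lit 21) (nat_lit 0) (.e (nat_lit 6264) (nat_lit 337) (.e (nat_lit 1221) (nat_lit 90) (.e (nat_lit 81965) (nat_lit 26) (.e (nat_lit 147496) (nat_lit 11) (.e (nat_lit 24617) (nat_lit 7) (.e (nat_lit 327424) (nat_lit 10) .nil))))))) (.g (nat_lit 6) .nil .nil))) 
(.lf (nat_lit 243) (.g (nat_lit 1975) (.e (nat_lit 44) (nat_lit 0) (.e (nat_lit 1855) (nat_lit 124) (.e (nat_lit 557109) (nat_lit 15) (.e (nat_lit 188452) (nat_lit 23) (.e (nat_lit 204846) (nat_lit 24) .nil))))) .nil)))) (.nd (nat_lit 4) (.nd (nat_lit 5) 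
(.lf (nat_lit 203) (.g (nat_lit 4192) (.e (nat_lit 21) (nat_lit 0) (.e (nat_lit 2777) (nat_lit 178) (.e (nat_lit 286761) (nat_lit 13) (.e (nat_lit 393301) (nat_lit 27) (.e (nat_lit 491558) (nat_lit 10) .nil))))) .nil)) 
(.lf (nat_lit 235) (.g (nat_lit 5579) (.e (nat_lit 40) (nat_lit 0) (.e (nat_lit 1853) (nat_lit 124) (.e (nat_lit 557105) (nat_lit 14) (.e (nat_lit 180252) (nat_lit 10) (.e (nat_lit 573489) (nat_lit 14) (.e (nat_lit 73755) (nat_lit 8) (.e (nat_lit 557090) (nat_lit 12) (.e (nat_lit 164007) (nat_lit 41) (.e (nat_lit 663580) (nat_lit 9) .nil))))))))) (.g (nat_lit 9) .nil .nil)))) (.nd (nat_lit 5) 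
(.lf (nat_lit 219) (.g (nat_lit 2549) (.e (nat_lit 26) (nat_lit 0) (.e (nat_lit 2783) (nat_lit 179) (.e (nat_lit 294960) (nat_lit 13) (.e (nat_lit 393260) (nat_lit 21) (.e (nat_lit 409644) (nat_lit 18) (.e (nat_lit 303115) (nat_lit 1) (.e (nat_lit 164151) (nat_lit 152) .nil))))))) (.g (nat_lit 7) .nil .nil))) 
(.lf (nat_lit 251) (.g (nat_lit 2467) (.e (nat_lit 46) (nat_lit 0) (.e (nat_lit 1856) (nat_lit 124) (.e (nat_lit 557105) (nat_lit 14) (.e (nat_lit 180252) (nat_lit 10) (.e (nat_lit 573489) (nat_lit 14) .nil))))) .nil))))) (.nd (nat_lit 3) (.nd (nat_lit 4) (.nd (nat_lit 5) 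
(.lf (nat_lit 199) (.g (nat_lit 1915) (.e (nat_lit 20) (nat_lit 0) (.e (nat_lit 6989) (nat_lit 377) (.e (nat_lit 1370) (nat_lit 103) (.e (nat_lit 294960) (nat_lit 13) (.e (nat_lit 393238) (nat_lit 17) (.e (nat_lit 6989) (nat_lit 377) (.e (nat_lit 2404) (nat_lit 157) (.e (nat_lit 5259) (nat_lit 298) .nil)))))))) (.g (nat_lit 5) .nil .nil))) 
(.lf (nat_lit 231) (.g (nat_lit 4148) (.e (nat_lit 39) (nat_lit 0) (.e (nat_lit 1846) (nat_lit 124) (.e (nat_lit 557108) (nat_lit 15) (.e (nat_lit 188452) (nat_lit 23) (.e (nat_lit 204846) (nat_lit 24) (.e (nat_lit 319505) (nat_lit 10) (.e (nat_lit 5714) (nat_lit 312) .nil))))))) (.g (nat_lit 0) .nil .nil)))) (.nd (nat_lit 5) 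
(.lf (nat_lit 215) (.g (nat_lit 2471) (.e (nat_lit 26) (nat_lit 0) (.e (nat_lit 2783) (nat_lit 179) (.e (nat_lit 294959) (nat_lit 13) (.e (nat_lit 393260) (nat_lit 21) (.e (nat_lit 409649) (nat_lit 18) (.e (nat_lit 303115) (nat_lit 1) (.e (nat_lit 164151) (nat_lit 152) .nil))))))) (.g (nat_lit 7) .nil .nil))) 
(.lf (nat_lit 247) (.g (nat_lit 1172) (.e (nat_lit 46) (nat_lit 0) (.e (nat_lit 1800) (nat_lit 119) (.e (nat_lit 516176) (nat_lit 14) (.e (nat_lit 466977) (nat_lit 22) .nil)))) .nil)))) (.nd (nat_lit 4) (.nd (nat_lit 5) 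
(.lf (nat_lit 207) (.g (nat_lit 1915) (.e (nat_lit 21) (nat_lit 0) (.e (nat_lit 2788) (nat_lit 179) (.e (nat_lit 294959) (nat_lit 13) (.e (nat_lit 393260) (nat_lit 21) (.e (nat_lit 409643) (nat_lit 18) (.e (nat_lit 303115) (nat_lit 1) (.e (nat_lit 164151) (nat_lit 152) .nil))))))) (.g (nat_lit 6) .nil .nil))) 
(.lf (nat_lit 239) (.g (nat_lit 2363) (.e (nat_lit 42) (nat_lit 0) (.e (nat_lit 1853) (nat_lit 124) (.e (nat_lit 557108) (nat_lit 15) (.e (nat_lit 188452) (nat_lit 23) (.e (nat_lit 204821) (nat_lit 17) .nil))))) .nil))) (.nd (nat_lit 5) 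
(.lf (nat_lit 223) (.g (nat_lit 639) (.e (nat_lit 26) (nat_lit 0) (.e (nat_lit 2789) (nat_lit 179) (.e (nat_lit 294957) (nat_lit 13) .nil))) .nil)) 
(.lf (nat_lit 255) (.g (nat_lit 552) (.e (nat_lit 48) (nat_lit 0) (.e (nat_lit 1856) (nat_lit 124) (.e (nat_lit 557100) (nat_lit 13) .nil))) .nil))))))))

noncomputable def tv004 : DT := (.nd (nat_lit 0) (.nd (nat_lit 1) (.nd (nat_lit 2) (.nd (nat_lit 3) (.nd (nat_lit 4) (.nd (nat_lit 5) 
(.lf (nat_lit 256) (.g (nat_lit 2294) (.e (nat_lit 48) (nat_lit 0) (.e (nat_lit 5949) (nat_lit 322) (.e (nat_lit 57400) (nat_lit 10) (.e (nat_lit 319530) (nat_lit 16) (.e (nat_lit 286761) (nat_lit 13) (.e (nat_lit 393264) (nat_lit 22) (.e (nat_lit 417800) (nat_lit 0) .nil))))))) (.g (nat_lit 6) .nil .nil))) 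
(.lf (nat_lit 288) (.g (nat_lit 4928) (.e (nat_lit 59) (nat_lit 0) (.e (nat_lit 1349) (nat_lit 102) (.e (nat_lit 286759) (nat_lit 12) (.e (nat_lit 385074) (nat_lit 31) (.e (nat_lit 573484) (nat_lit 13) (.e (nat_lit 65610) (nat_lit 10) (.e (nat_lit 344097) (nat_lit 18) (.e (nat_lit 3853) (nat_lit 233) .nil)))))))) (.g (nat_lit 7) .nil .nil)))) (.nd (nat_lit 5) 
(.lf (nat_lit 272) (.g (nat_lit 3228) (.e (nat_lit 55) (nat_lit 0) (.e (nat_lit 3302) (nat_lit 202) (.e (nat_lit 573492) (nat_lit 15) (.e (nat_lit 81956) (nat_lit 23) (.e (nat_lit 98350) (nat_lit 24) .nil))))) .nil)) 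
(.lf (nat_lit 304) (.g (nat_lit 2322) (.e (nat_lit 59) (nat_lit 0) (.e (nat_lit 1849) (nat_lit 124) (.e (nat_lit 557108) (nat_lit 15) (.e (nat_lit 188452) (nat_lit 23) (.e (nat_lit 204846) (nat_lit 24) (.e (nat_lit 319505) (nat_lit 10) (.e (nat_lit 5698) (nat_lit 312) .nil))))))) (.g (nat_lit 6) .nil .nil))))) (.nd (nat_lit 4) (.nd (nat_lit 5) 
(.lf (nat_lit 264) (.g (nat_lit 3829) (.e (nat_lit 52) (nat_lit 0) (.e (nat_lit 5949) (nat_lit 322) (.e (nat_lit 57400) (nat_lit 10) (.e (nat_lit 319531) (nat_lit 16) (.e (nat_lit 286761) (nat_lit 13) (.e (nat_lit 393234) (nat_lit 17) (.e (nat_lit 7065) (nat_lit 377) (.e (nat_lit 1015) (nat_lit 81) .nil)))))))) (.g (nat_lit 0) .nil .nil))) 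
(.lf (nat_lit 296) (.g (nat_lit 2036) (.e (nat_lit 59) (nat_lit 0) (.e (nat_lit 1349) (nat_lit 102) (.e (nat_lit 286761) (nat_lit 13) (.e (nat_lit 393234) (nat_lit 17) (.e (nat_lit 7591) (nat_lit 407) (.e (nat_lit 73731) (nat_lit 0) (.e (nat_lit 6892) (nat_lit 371) .nil))))))) (.g (nat_lit 4) .nil .nil)))) (.nd (nat_lit 5) 
(.lf (nat_lit 280) (.g (nat_lit 2214) (.e (nat_lit 59) (nat_lit 0) (.e (nat_lit 1348) (nat_lit 102) (.e (nat_lit 286761) (nat_lit 13) (.e (nat_lit 393234) (nat_lit 17) (.e (nat_lit 7591) (nat_lit 407) (.e (nat_lit 73731) (nat_lit 0) (.e (nat_lit 6869) (nat_lit 371) .nil))))))) (.g (nat_lit 4) .nil .nil))) 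
(.lf (nat_lit 312) (.g (nat_lit 4296) (.e (nat_lit 59) (nat_lit 0) (.e (nat_lit 1858) (nat_lit 124) (.e (nat_lit 557100) (nat_lit 13) (.e (nat_lit 172106) (nat_lit 10) (.e (nat_lit 434231) (nat_lit 23) (.e (nat_lit 532490) (nat_lit 0) (.e (nat_lit 6206) (nat_lit 333) (.e (nat_lit 57864) (nat_lit 256) .nil)))))))) (.g (nat_lit 0) .nil .nil)))))) (.nd (nat_lit 3) (.nd (nat_lit 4) (.nd (nat_lit 5) 
(.lf (nat_lit 260) (.g (nat_lit 2941) (.e (nat_lit 52) (nat_lit 0) (.e (nat_lit 5949) (nat_lit 322) (.e (nat_lit 57399) (nat_lit 10) (.e (nat_lit 319530) (nat_lit 16) (.e (nat_lit 286761) (nat_lit 13) (.e (nat_lit 393234) (nat_lit 17) (.e (nat_lit 7065) (nat_lit 377) (.e (nat_lit 1014) (nat_lit 81) .nil)))))))) (.g (nat_lit 7) .nil .nil))) 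
(.lf (nat_lit 292) (.g (nat_lit 1733) (.e (nat_lit 59) (nat_lit 0) (.e (nat_lit 1349) (nat_lit 102) (.e (nat_lit 286759) (nat_lit 12) (.e (nat_lit 385094) (nat_lit 49) .nil)))) .nil))) (.nd (nat_lit 5) 
(.lf (nat_lit 276) (.g (nat_lit 2341) (.e (nat_lit 59) (nat_lit 0) (.e (nat_lit 1348) (nat_lit 102) (.e (nat_lit 286759) (nat_lit 12) (.e (nat_lit 385094) (nat_lit 49) (.e (nat_lit 778326) (nat_lit 6) (.e (nat_lit 81948) (nat_lit 21) (.e (nat_lit 57911) (nat_lit 278) .nil))))))) (.g (nat_lit 4) .nil .nil))) 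
(.lf (nat_lit 308) (.g (nat_lit 4256) (.e (nat_lit 59) (nat_lit 0) (.e (nat_lit 1858) (nat_lit 124) (.e (nat_lit 557100) (nat_lit 13) (.e (nat_lit 172106) (nat_lit 10) (.e (nat_lit 434231) (nat_lit 23) (.e (nat_lit 532486) (nat_lit 0) (.e (nat_lit 6218) (nat_lit 333) (.e (nat_lit 57863) (nat_lit 256) .nil)))))))) (.g (nat_lit 0) .nil .nil))))) (.nd (nat_lit 4) (.nd (nat_lit 5) 
(.lf (nat_lit 268) (.g (nat_lit 3022) (.e (nat_lit 54) (nat_lit 0) (.e (nat_lit 1853) (nat_lit 124) (.e (nat_lit 557105) (nat_lit 14) (.e (nat_lit 180252) (nat_lit 10) (.e (nat_lit 573489) (nat_lit 14) .nil))))) .nil)) 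
(.lf (nat_lit 300) (.g (nat_lit 4298) (.e (nat_lit 59) (nat_lit 0) (.e (nat_lit 1349) (nat_lit 102) (.e (nat_lit 286761) (nat_lit 13) (.e (nat_lit 393301) (nat_lit 27) (.e (nat_lit 491560) (nat_lit 10) .nil))))) .nil))) (.nd (nat_lit 5) 
(.lf (nat_lit 284) (.g (nat_lit 2246) (.e (nat_lit 59) (nat_lit 0) (.e (nat_lit 1348) (nat_lit 102) (.e (nat_lit 286761) (nat_lit 13) (.e (nat_lit 393234) (nat_lit 17) (.e (nat_lit 7593) (nat_lit 407) (.e (nat_lit 73731) (nat_lit 0) (.e (nat_lit 6892) (nat_lit 371) .nil))))))) (.g (nat_lit 4) .nil .nil))) 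
(.lf (nat_lit 316) (.g (nat_lit 3997) (.e (nat_lit 59) (nat_lit 0) (.e (nat_lit 1858) (nat_lit 124) (.e (nat_lit 557100) (nat_lit 13) (.e (nat_lit 172106) (nat_lit 10) (.e (nat_lit 434244) (nat_lit 28) (.e (nat_lit 573471) (nat_lit 11) (.e (nat_lit 16392) (nat_lit 0) (.e (nat_lit 7349) (nat_lit 388) .nil)))))))) (.g (nat_lit 7) .nil .nil))))))) 
(.nd (nat_lit 2) (.nd (nat_lit 3) (.nd (nat_lit 4) (.nd (nat_lit 5) 
(.lf (nat_lit 258) (.g (nat_lit 3381) (.e (nat_lit 51) (nat_lit 0) (.e (nat_lit 3302) (nat_lit 202) (.e (nat_lit 573492) (nat_lit 15) (.e (nat_lit 81956) (nat_lit 23) (.e (nat_lit 98350) (nat_lit 24) (.e (nat_lit 409616) (nat_lit 10) (.e (nat_lit 7936) (nat_lit 298) .nil))))))) (.g (nat_lit 4) .nil .nil))) 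
(.lf (nat_lit 290) (.g (nat_lit 3659) (.e (nat_lit 59) (nat_lit 0) (.e (nat_lit 1349) (nat_lit 102) (.e (nat_lit 286759) (nat_lit 12) (.e (nat_lit 385074) (nat_lit 31) (.e (nat_lit 573484) (nat_lit 13) (.e (nat_lit 65617) (nat_lit 10) (.e (nat_lit 344091) (nat_lit 18) (.e (nat_lit 3862) (nat_lit 233) .nil)))))))) (.g (nat_lit 6) .nil .nil)))) (.nd (nat_lit 5) 
(.lf (nat_lit 274) (.g (nat_lit 2293) (.e (nat_lit 59) (nat_lit 0) (.e (nat_lit 1348) (nat_lit 102) (.e (nat_lit 286759) (nat_lit 12) (.e (nat_lit 385074) (nat_lit 31) (.e (nat_lit 573484) (nat_lit 13) .nil))))) .nil)) 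
(.lf (nat_lit 306) (.g (nat_lit 3084) (.e (nat_lit 59) (nat_lit 0) (.e (nat_lit 1849) (nat_lit 124) (.e (nat_lit 557108) (nat_lit 15) (.e (nat_lit 188452) (nat_lit 23) (.e (nat_lit 204846) (nat_lit 24) (.e (nat_lit 319505) (nat_lit 10) (.e (nat_lit 5714) (nat_lit 312) .nil))))))) (.g (nat_lit 0) .nil .nil))))) (.nd (nat_lit 4) (.nd (nat_lit 5) 
(.lf (nat_lit 266) (.g (nat_lit 2630) (.e (nat_lit 52) (nat_lit 0) (.e (nat_lit 5949) (nat_lit 322) (.e (nat_lit 57400) (nat_lit 10) (.e (nat_lit 319534) (nat_lit 16) (.e (nat_lit 286761) (nat_lit 13) (.e (nat_lit 393264) (nat_lit 22) (.e (nat_lit 417794) (nat_lit 0) .nil))))))) (.g (nat_lit 7) .nil .nil))) 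
(.lf (nat_lit 298) (.g (nat_lit 1802) (.e (nat_lit 59) (nat_lit 0) (.e (nat_lit 1349) (nat_lit 102) (.e (nat_lit 286761) (nat_lit 13) (.e (nat_lit 393234) (nat_lit 17) (.e (nat_lit 7593) (nat_lit 407) .nil))))) .nil))) (.nd (nat_lit 5) 
(.lf (nat_lit 282) (.g (nat_lit 2170) (.e (nat_lit 59) (nat_lit 0) (.e (nat_lit 1348) (nat_lit 102) (.e (nat_lit 286761) (nat_lit 13) (.e (nat_lit 393234) (nat_lit 17) (.e (nat_lit 7593) (nat_lit 407) .nil))))) .nil)) 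
(.lf (nat_lit 314) (.g (nat_lit 2263) (.e (nat_lit 59) (nat_lit 0) (.e (nat_lit 1858) (nat_lit 124) (.e (nat_lit 557100) (nat_lit 13) (.e (nat_lit 172106) (nat_lit 10) (.e (nat_lit 434244) (nat_lit 28) .nil))))) .nil))))) (.nd (nat_lit 3) (.nd (nat_lit 4) (.nd (nat_lit 5) 
(.lf (nat_lit 262) (.g (nat_lit 3157) (.e (nat_lit 52) (nat_lit 0) (.e (nat_lit 5949) (nat_lit 322) (.e (nat_lit 57400) (nat_lit 10) (.e (nat_lit 319530) (nat_lit 16) (.e (nat_lit 286761) (nat_lit 13) (.e (nat_lit 393234) (nat_lit 17) (.e (nat_lit 7065) (nat_lit 377) (.e (nat_lit 1014) (nat_lit 81) .nil)))))))) (.g (nat_lit 7) .nil .nil))) 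
(.lf (nat_lit 294) (.g (nat_lit 1803) (.e (nat_lit 59) (nat_lit 0) (.e (nat_lit 1349) (nat_lit 102) (.e (nat_lit 286759) (nat_lit 12) (.e (nat_lit 385106) (nat_lit 50) .nil)))) .nil))) (.nd (nat_lit 5) 
(.lf (nat_lit 278) (.g (nat_lit 2992) (.e (nat_lit 59) (nat_lit 0) (.e (nat_lit 1348) (nat_lit 102) (.e (nat_lit 286761) (nat_lit 13) (.e (nat_lit 393234) (nat_lit 17) (.e (nat_lit 7591) (nat_lit 407) (.e (nat_lit 73729) (nat_lit 0) (.e (nat_lit 6869) (nat_lit 371) .nil))))))) (.g (nat_lit 5) .nil .nil))) 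
(.lf (nat_lit 310) (.g (nat_lit 4290) (.e (nat_lit 59) (nat_lit 0) (.e (nat_lit 1858) (nat_lit 124) (.e (nat_lit 557100) (nat_lit 13) (.e (nat_lit 172106) (nat_lit 10) (.e (nat_lit 434231) (nat_lit 23) (.e (nat_lit 532490) (nat_lit 0) (.e (nat_lit 6206) (nat_lit 333) (.e (nat_lit 57862) (nat_lit 256) .nil)))))))) (.g (nat_lit 8) .nil .nil))))) (.nd (nat_lit 4) (.nd (nat_lit 5) 
(.lf (nat_lit 270) (.g (nat_lit 3055) (.e (nat_lit 54) (nat_lit 0) (.e (nat_lit 1853) (nat_lit 124) (.e (nat_lit 557105) (nat_lit 14) (.e (nat_lit 180252) (nat_lit 10) (.e (nat_lit 573489) (nat_lit 14) (.e (nat_lit 73755) (nat_lit 8) (.e (nat_lit 557090) (nat_lit 12) (.e (nat_lit 164010) (nat_lit 41) (.e (nat_lit 663574) (nat_lit 9) .nil))))))))) (.g (nat_lit 4) .nil .nil))) 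
(.lf (nat_lit 302) (.g (nat_lit 1301) (.e (nat_lit 59) (nat_lit 0) (.e (nat_lit 1849) (nat_lit 124) (.e (nat_lit 557108) (nat_lit 15) (.e (nat_lit 188452) (nat_lit 23) (.e (nat_lit 204846) (nat_lit 24) (.e (nat_lit 319504) (nat_lit 10) (.e (nat_lit 7936) (nat_lit 312) .nil))))))) (.g (nat_lit 6) .nil .nil)))) (.nd (nat_lit 5) 
(.lf (nat_lit 286) (.g (nat_lit 3941) (.e (nat_lit 59) (nat_lit 0) (.e (nat_lit 1348) (nat_lit 102) (.e (nat_lit 286761) (nat_lit 13) (.e (nat_lit 393301) (nat_lit 27) (.e (nat_lit 491560) (nat_lit 10) .nil))))) .nil)) 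
(.lf (nat_lit 318) (.g (nat_lit 2494) (.e (nat_lit 59) (nat_lit 0) (.e (nat_lit 1858) (nat_lit 124) (.e (nat_lit 557100) (nat_lit 13) (.e (nat_lit 172113) (nat_lit 10) .nil)))) .nil))))))) (.nd (nat_lit 1) (.nd (nat_lit 2) (.nd (nat_lit 3) (.nd (nat_lit 4) (.nd (nat_lit 5) 
(.lf (nat_lit 257) (.g (nat_lit 2779) (.e (nat_lit 48) (nat_lit 0) (.e (nat_lit 5949) (nat_lit 322) (.e (nat_lit 57400) (nat_lit 10) (.e (nat_lit 319533) (nat_lit 16) (.e (nat_lit 286761) (nat_lit 13) (.e (nat_lit 393264) (nat_lit 22) (.e (nat_lit 417800) (nat_lit 0) .nil))))))) (.g (nat_lit 5) .nil .nil))) 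
(.lf (nat_lit 289) (.g (nat_lit 2512) (.e (nat_lit 59) (nat_lit 0) (.e (nat_lit 1349) (nat_lit 102) (.e (nat_lit 286759) (nat_lit 12) (.e (nat_lit 385074) (nat_lit 31) (.e (nat_lit 573484) (nat_lit 13) (.e (nat_lit 65617) (nat_lit 10) (.e (nat_lit 344091) (nat_lit 18) (.e (nat_lit 3845) (nat_lit 233) .nil)))))))) (.g (nat_lit 4) .nil .nil)))) (.nd (nat_lit 5) 
(.lf (nat_lit 273) (.g (nat_lit 3035) (.e (nat_lit 56) (nat_lit 0) (.e (nat_lit 1856) (nat_lit 124) (.e (nat_lit 557105) (nat_lit 14) (.e (nat_lit 180252) (nat_lit 10) (.e (nat_lit 573489) (nat_lit 14) (.e (nat_lit 73755) (nat_lit 8) (.e (nat_lit 557090) (nat_lit 12) (.e (nat_lit 164007) (nat_lit 41) (.e (nat_lit 663574) (nat_lit 9) .nil))))))))) (.g (nat_lit 5) .nil .nil))) 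
(.lf (nat_lit 305) (.g (nat_lit 3104) (.e (nat_lit 59) (nat_lit 0) (.e (nat_lit 1849) (nat_lit 124) (.e (nat_lit 557108) (nat_lit 15) (.e (nat_lit 188452) (nat_lit 23) (.e (nat_lit 204846) (nat_lit 24) (.e (nat_lit 319505) (nat_lit 10) (.e (nat_lit 5712) (nat_lit 312) .nil))))))) (.g (nat_lit 0) .nil .nil))))) (.nd (nat_lit 4) (.nd (nat_lit 5) 
(.lf (nat_lit 265) (.g (nat_lit 2527) (.e (nat_lit 52) (nat_lit 0) (.e (nat_lit 5949) (nat_lit 322) (.e (nat_lit 57400) (nat_lit 10) (.e (nat_lit 319531) (nat_lit 16) (.e (nat_lit 286761) (nat_lit 13) (.e (nat_lit 393264) (nat_lit 22) (.e (nat_lit 417794) (nat_lit 0) .nil))))))) (.g (nat_lit 0) .nil .nil))) 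
(.lf (nat_lit 297) (.g (nat_lit 1872) (.e (nat_lit 59) (nat_lit 0) (.e (nat_lit 1349) (nat_lit 102) (.e (nat_lit 286761) (nat_lit 13) (.e (nat_lit 393234) (nat_lit 17) (.e (nat_lit 7591) (nat_lit 407) (.e (nat_lit 73733) (nat_lit 0) (.e (nat_lit 6892) (nat_lit 371) .nil))))))) (.g (nat_lit 4) .nil .nil)))) (.nd (nat_lit 5) 
(.lf (nat_lit 281) (.g (nat_lit 2780) (.e (nat_lit 59) (nat_lit 0) (.e (nat_lit 1348) (nat_lit 102) (.e (nat_lit 286761) (nat_lit 13) (.e (nat_lit 393234) (nat_lit 17) (.e (nat_lit 7591) (nat_lit 407) (.e (nat_lit 73731) (nat_lit 0) (.e (nat_lit 6892) (nat_lit 371) .nil))))))) (.g (nat_lit 5) .nil .nil))) 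
(.lf (nat_lit 313) (.g (nat_lit 4360) (.e (nat_lit 59) (nat_lit 0) (.e (nat_lit 1858) (nat_lit 124) (.e (nat_lit 557100) (nat_lit 13) (.e (nat_lit 172106) (nat_lit 10) (.e (nat_lit 434231) (nat_lit 23) (.e (nat_lit 532490) (nat_lit 0) (.e (nat_lit 6206) (nat_lit 333) (.e (nat_lit 57865) (nat_lit 256) .nil)))))))) (.g (nat_lit 0) .nil .nil)))))) (.nd (nat_lit 3) (.nd (nat_lit 4) (.nd (nat_lit 5) 
(.lf (nat_lit 261) (.g (nat_lit 2043) (.e (nat_lit 52) (nat_lit 0) (.e (nat_lit 5949) (nat_lit 322) (.e (nat_lit 57399) (nat_lit 10) (.e (nat_lit 319531) (nat_lit 16) (.e (nat_lit 286761) (nat_lit 13) (.e (nat_lit 393264) (nat_lit 22) (.e (nat_lit 417794) (nat_lit 0) .nil))))))) (.g (nat_lit 5) .nil .nil))) 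
(.lf (nat_lit 293) (.g (nat_lit 2756) (.e (nat_lit 59) (nat_lit 0) (.e (nat_lit 1349) (nat_lit 102) (.e (nat_lit 286759) (nat_lit 12) (.e (nat_lit 385094) (nat_lit 49) (.e (nat_lit 778326) (nat_lit 6) (.e (nat_lit 81948) (nat_lit 21) (.e (nat_lit 57911) (nat_lit 278) .nil))))))) (.g (nat_lit 5) .nil .nil)))) (.nd (nat_lit 5) 
(.lf (nat_lit 277) (.g (nat_lit 2192) (.e (nat_lit 59) (nat_lit 0) (.e (nat_lit 1348) (nat_lit 102) (.e (nat_lit 286761) (nat_lit 13) (.e (nat_lit 393234) (nat_lit 17) (.e (nat_lit 7591) (nat_lit 407) .nil))))) .nil)) 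
(.lf (nat_lit 309) (.g (nat_lit 4521) (.e (nat_lit 59) (nat_lit 0) (.e (nat_lit 1858) (nat_lit 124) (.e (nat_lit 557100) (nat_lit 13) (.e (nat_lit 172106) (nat_lit 10) (.e (nat_lit 434231) (nat_lit 23) (.e (nat_lit 532486) (nat_lit 0) (.e (nat_lit 6218) (nat_lit 333) (.e (nat_lit 57864) (nat_lit 256) .nil)))))))) (.g (nat_lit 0) .nil .nil))))) (.nd (nat_lit 4) (.nd (nat_lit 5) 
(.lf (nat_lit 269) (.g (nat_lit 3429) (.e (nat_lit 54) (nat_lit 0) (.e (nat_lit 1853) (nat_lit 124) (.e (nat_lit 557105) (nat_lit 14) (.e (nat_lit 180252) (nat_lit 10) (.e (nat_lit 573489) (nat_lit 14) (.e (nat_lit 73755) (nat_lit 8) (.e (nat_lit 557090) (nat_lit 12) (.e (nat_lit 164008) (nat_lit 41) (.e (nat_lit 663574) (nat_lit 9) .nil))))))))) (.g (nat_lit 5) .nil .nil))) 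
(.lf (nat_lit 301) (.g (nat_lit 2266) (.e (nat_lit 59) (nat_lit 0) (.e (nat_lit 1849) (nat_lit 124) (.e (nat_lit 557108) (nat_lit 15) (.e (nat_lit 188452) (nat_lit 23) (.e (nat_lit 204846) (nat_lit 24) (.e (nat_lit 319504) (nat_lit 10) (.e (nat_lit 5688) (nat_lit 312) .nil))))))) (.g (nat_lit 6) .nil .nil)))) (.nd (nat_lit 5) 
(.lf (nat_lit 285) (.g (nat_lit 2400) (.e (nat_lit 59) (nat_lit 0) (.e (nat_lit 1348) (nat_lit 102) (.e (nat_lit 286761) (nat_lit 13) (.e (nat_lit 393234) (nat_lit 17) (.e (nat_lit 7593) (nat_lit 407) (.e (nat_lit 73732) (nat_lit 0) (.e (nat_lit 6892) (nat_lit 371) .nil))))))) (.g (nat_lit 4) .nil .nil))) 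
(.lf (nat_lit 317) (.g (nat_lit 2385) (.e (nat_lit 59) (nat_lit 0) (.e (nat_lit 1858) (nat_lit 124) (.e (nat_lit 557100) (nat_lit 13) (.e (nat_lit 172106) (nat_lit 10) (.e (nat_lit 434244) (nat_lit 28) (.e (nat_lit 573471) (nat_lit 11) (.e (nat_lit 16396) (nat_lit 0) (.e (nat_lit 7350) (nat_lit 388) .nil)))))))) (.g (nat_lit 4) .nil .nil))))))) 
(.nd (nat_lit 2) (.nd (nat_lit 3) (.nd (nat_lit 4) (.nd (nat_lit 5) 
(.lf (nat_lit 259) (.g (nat_lit 1217) (.e (nat_lit 52) (nat_lit 0) (.e (nat_lit 3632) (nat_lit 227) (.e (nat_lit 778323) (nat_lit 5) (.e (nat_lit 81664) (nat_lit 35) .nil)))) .nil)) 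
(.lf (nat_lit 291) (.g (nat_lit 4534) (.e (nat_lit 59) (nat_lit 0) (.e (nat_lit 1349) (nat_lit 102) (.e (nat_lit 286759) (nat_lit 12) (.e (nat_lit 385074) (nat_lit 31) (.e (nat_lit 573484) (nat_lit 13) (.e (nat_lit 65617) (nat_lit 10) (.e (nat_lit 344096) (nat_lit 18) (.e (nat_lit 3862) (nat_lit 233) .nil)))))))) (.g (nat_lit 8) .nil .nil)))) (.nd (nat_lit 5) 
(.lf (nat_lit 275) (.g (nat_lit 3135) (.e (nat_lit 59) (nat_lit 0) (.e (nat_lit 1348) (nat_lit 102) (.e (nat_lit 286759) (nat_lit 12) (.e (nat_lit 385074) (nat_lit 31) (.e (nat_lit 573484) (nat_lit 13) (.e (nat_lit 65617) (nat_lit 10) (.e (nat_lit 344091) (nat_lit 18) (.e (nat_lit 3862) (nat_lit 233) .nil)))))))) (.g (nat_lit 5) .nil .nil))) 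
(.lf (nat_lit 307) (.g (nat_lit 4360) (.e (nat_lit 59) (nat_lit 0) (.e (nat_lit 1858) (nat_lit 124) (.e (nat_lit 557100) (nat_lit 13) (.e (nat_lit 172106) (nat_lit 10) (.e (nat_lit 434231) (nat_lit 23) (.e (nat_lit 532486) (nat_lit 0) (.e (nat_lit 6218) (nat_lit 333) (.e (nat_lit 57862) (nat_lit 256) .nil)))))))) (.g (nat_lit 0) .nil .nil))))) (.nd (nat_lit 4) (.nd (nat_lit 5) 
(.lf (nat_lit 267) (.g (nat_lit 2993) (.e (nat_lit 52) (nat_lit 0) (.e (nat_lit 6092) (nat_lit 332) (.e (nat_lit 1370) (nat_lit 103) (.e (nat_lit 294960) (nat_lit 13) (.e (nat_lit 393238) (nat_lit 17) (.e (nat_lit 7101) (nat_lit 380) (.e (nat_lit 164353) (nat_lit 246) .nil))))))) (.g (nat_lit 0) .nil .nil))) 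
(.lf (nat_lit 299) (.g (nat_lit 2089) (.e (nat_lit 59) (nat_lit 0) (.e (nat_lit 1349) (nat_lit 102) (.e (nat_lit 286761) (nat_lit 13) (.e (nat_lit 393234) (nat_lit 17) (.e (nat_lit 7593) (nat_lit 407) (.e (nat_lit 73729) (nat_lit 0) (.e (nat_lit 6869) (nat_lit 371) .nil))))))) (.g (nat_lit 4) .nil .nil)))) (.nd (nat_lit 5) 
(.lf (nat_lit 283) (.g (nat_lit 2923) (.e (nat_lit 59) (nat_lit 0) (.e (nat_lit 1348) (nat_lit 102) (.e (nat_lit 286761) (nat_lit 13) (.e (nat_lit 393234) (nat_lit 17) (.e (nat_lit 7593) (nat_lit 407) (.e (nat_lit 73729) (nat_lit 0) (.e (nat_lit 6869) (nat_lit 371) .nil))))))) (.g (nat_lit 5) .nil .nil))) 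
(.lf (nat_lit 315) (.g (nat_lit 3051) (.e (nat_lit 59) (nat_lit 0) (.e (nat_lit 1858) (nat_lit 124) (.e (nat_lit 557100) (nat_lit 13) (.e (nat_lit 172106) (nat_lit 10) (.e (nat_lit 434244) (nat_lit 28) (.e (nat_lit 573471) (nat_lit 11) (.e (nat_lit 16392) (nat_lit 0) (.e (nat_lit 7344) (nat_lit 388) .nil)))))))) (.g (nat_lit 5) .nil .nil)))))) (.nd (nat_lit 3) (.nd (nat_lit 4) (.nd (nat_lit 5) 
(.lf (nat_lit 263) (.g (nat_lit 3489) (.e (nat_lit 52) (nat_lit 0) (.e (nat_lit 5949) (nat_lit 322) (.e (nat_lit 57400) (nat_lit 10) (.e (nat_lit 319531) (nat_lit 16) (.e (nat_lit 286761) (nat_lit 13) (.e (nat_lit 393234) (nat_lit 17) (.e (nat_lit 7065) (nat_lit 377) (.e (nat_lit 1014) (nat_lit 81) .nil)))))))) (.g (nat_lit 8) .nil .nil))) 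
(.lf (nat_lit 295) (.g (nat_lit 1341) (.e (nat_lit 59) (nat_lit 0) (.e (nat_lit 1349) (nat_lit 102) (.e (nat_lit 286761) (nat_lit 13) (.e (nat_lit 393234) (nat_lit 17) .nil)))) .nil))) (.nd (nat_lit 5) 
(.lf (nat_lit 279) (.g (nat_lit 2275) (.e (nat_lit 59) (nat_lit 0) (.e (nat_lit 1348) (nat_lit 102) (.e (nat_lit 286761) (nat_lit 13) (.e (nat_lit 393234) (nat_lit 17) (.e (nat_lit 7591) (nat_lit 407) (.e (nat_lit 73730) (nat_lit 0) (.e (nat_lit 6869) (nat_lit 371) .nil))))))) (.g (nat_lit 4) .nil .nil))) 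
(.lf (nat_lit 311) (.g (nat_lit 4203) (.e (nat_lit 59) (nat_lit 0) (.e (nat_lit 1858) (nat_lit 124) (.e (nat_lit 557100) (nat_lit 13) (.e (nat_lit 172106) (nat_lit 10) (.e (nat_lit 434231) (nat_lit 23) (.e (nat_lit 532490) (nat_lit 0) (.e (nat_lit 6206) (nat_lit 333) (.e (nat_lit 57863) (nat_lit 256) .nil)))))))) (.g (nat_lit 0) .nil .nil))))) (.nd (nat_lit 4) (.nd (nat_lit 5) 
(.lf (nat_lit 271) (.g (nat_lit 3228) (.e (nat_lit 54) (nat_lit 0) (.e (nat_lit 1853) (nat_lit 124) (.e (nat_lit 557108) (nat_lit 15) (.e (nat_lit 188452) (nat_lit 23) (.e (nat_lit 204846) (nat_lit 24) .nil))))) .nil)) 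
(.lf (nat_lit 303) (.g (nat_lit 2243) (.e (nat_lit 59) (nat_lit 0) (.e (nat_lit 1849) (nat_lit 124) (.e (nat_lit 557108) (nat_lit 15) (.e (nat_lit 188452) (nat_lit 23) (.e (nat_lit 204846) (nat_lit 24) (.e (nat_lit 319505) (nat_lit 10) (.e (nat_lit 5688) (nat_lit 312) .nil))))))) (.g (nat_lit 6) .nil .nil)))) (.nd (nat_lit 5) 
(.lf (nat_lit 287) (.g (nat_lit 2302) (.e (nat_lit 59) (nat_lit 0) (.e (nat_lit 1349) (nat_lit 102) (.e (nat_lit 286759) (nat_lit 12) (.e (nat_lit 385074) (nat_lit 31) (.e (nat_lit 573484) (nat_lit 13) .nil))))) .nil)) 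
(.lf (nat_lit 319) (.g (nat_lit 3264) (.e (nat_lit 59) (nat_lit 0) (.e (nat_lit 1858) (nat_lit 124) (.e (nat_lit 557100) (nat_lit 13) (.e (nat_lit 172113) (nat_lit 10) (.e (nat_lit 434245) (nat_lit 28) .nil))))) .nil))))))))

noncomputable def tv005 : DT := (.nd (nat_lit 0) (.nd (nat_lit 1) (.nd (nat_lit 2) (.nd (nat_lit 3) (.nd (nat_lit 4) (.nd (nat_lit 5) 
(.lf (nat_lit 320) (.g (nat_lit 3539) (.e (nat_lit 59) (nat_lit 0) (.e (nat_lit 1858) (nat_lit 124) (.e (nat_lit 557100) (nat_lit 13) (.e (nat_lit 172113) (nat_lit 10) (.e (nat_lit 434245) (nat_lit 28) (.e (nat_lit 573471) (nat_lit 11) (.e (nat_lit 16392) (nat_lit 0) (.e (nat_lit 7349) (nat_lit 388) .nil)))))))) (.g (nat_lit 4) .nil .nil))) 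
(.lf (nat_lit 352) (.g (nat_lit 3000) (.e (nat_lit 59) (nat_lit 0) (.e (nat_lit 1858) (nat_lit 124) (.e (nat_lit 557105) (nat_lit 14) (.e (nat_lit 180252) (nat_lit 10) (.e (nat_lit 573489) (nat_lit 14) (.e (nat_lit 73755) (nat_lit 8) (.e (nat_lit 557090) (nat_lit 12) (.e (nat_lit 163844) (nat_lit 0) (.e (nat_lit 5808) (nat_lit 320) (.e (nat_lit 2488) (nat_lit 157) .nil)))))))))) (.g (nat_lit 4) .nil .nil)))) 
(.nd (nat_lit 5) 
(.lf (nat_lit 336) (.g (nat_lit 3930) (.e (nat_lit 59) (nat_lit 0) (.e (nat_lit 1858) (nat_lit 124) (.e (nat_lit 557101) (nat_lit 13) (.e (nat_lit 172115) (nat_lit 10) (.e (nat_lit 434231) (nat_lit 23) (.e (nat_lit 532490) (nat_lit 0) (.e (nat_lit 6206) (nat_lit 333) (.e (nat_lit 57863) (nat_lit 256) .nil)))))))) (.g (nat_lit 7) .nil .nil))) 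
(.lf (nat_lit 368) (.g (nat_lit 3142) (.e (nat_lit 59) (nat_lit 0) (.e (nat_lit 1858) (nat_lit 124) (.e (nat_lit 557109) (nat_lit 15) (.e (nat_lit 188452) (nat_lit 23) (.e (nat_lit 204816) (nat_lit 17) (.e (nat_lit 6712) (nat_lit 360) (.e (nat_lit 164249) (nat_lit 201) .nil))))))) (.g (nat_lit 4) .nil .nil))))) (.nd (nat_lit 4) (.nd (nat_lit 5) 
(.lf (nat_lit 328) (.g (nat_lit 1951) (.e (nat_lit 59) (nat_lit 0) (.e (nat_lit 1858) (nat_lit 124) (.e (nat_lit 557101) (nat_lit 13) (.e (nat_lit 172097) (nat_lit 9) (.e (nat_lit 426140) (nat_lit 3) .nil))))) .nil)) 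
(.lf (nat_lit 360) (.g (nat_lit 2186) (.e (nat_lit 59) (nat_lit 0) (.e (nat_lit 1858) (nat_lit 124) (.e (nat_lit 557107) (nat_lit 15) (.e (nat_lit 188450) (nat_lit 23) .nil)))) .nil))) (.nd (nat_lit 5) 
(.lf (nat_lit 344) (.g (nat_lit 841) (.e (nat_lit 59) (nat_lit 0) (.e (nat_lit 1858) (nat_lit 124) (.e (nat_lit 557103) (nat_lit 14) .nil))) .nil)) 
(.lf (nat_lit 376) (.g (nat_lit 3157) (.e (nat_lit 59) (nat_lit 0) (.e (nat_lit 1859) (nat_lit 124) (.e (nat_lit 557098) (nat_lit 13) (.e (nat_lit 172097) (nat_lit 9) (.e (nat_lit 426125) (nat_lit 2) (.e (nat_lit 196661) (nat_lit 12) (.e (nat_lit 57721) (nat_lit 177) (.e (nat_lit 57865) (nat_lit 256) .nil)))))))) (.g (nat_lit 7) .nil .nil)))))) (.nd (nat_lit 3) (.nd (nat_lit 4) (.nd (nat_lit 5) 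
(.lf (nat_lit 324) (.g (nat_lit 3526) (.e (nat_lit 59) (nat_lit 0) (.e (nat_lit 1858) (nat_lit 124) (.e (nat_lit 557101) (nat_lit 13) (.e (nat_lit 172097) (nat_lit 9) (.e (nat_lit 426125) (nat_lit 2) (.e (nat_lit 196661) (nat_lit 12) (.e (nat_lit 57721) (nat_lit 177) (.e (nat_lit 57864) (nat_lit 256) .nil)))))))) (.g (nat_lit 7) .nil .nil))) 
(.lf (nat_lit 356) (.g (nat_lit 4363) (.e (nat_lit 59) (nat_lit 0) (.e (nat_lit 1858) (nat_lit 124) (.e (nat_lit 557105) (nat_lit 14) (.e (nat_lit 180252) (nat_lit 10) (.e (nat_lit 573489) (nat_lit 14) (.e (nat_lit 73755) (nat_lit 8) (.e (nat_lit 557090) (nat_lit 12) (.e (nat_lit 164007) (nat_lit 41) (.e (nat_lit 663581) (nat_lit 9) .nil))))))))) (.g (nat_lit 7) .nil .nil)))) (.nd (nat_lit 5) 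
(.lf (nat_lit 340) (.g (nat_lit 2148) (.e (nat_lit 59) (nat_lit 0) (.e (nat_lit 1858) (nat_lit 124) (.e (nat_lit 557101) (nat_lit 13) (.e (nat_lit 172115) (nat_lit 10) (.e (nat_lit 434231) (nat_lit 23) (.e (nat_lit 532490) (nat_lit 0) (.e (nat_lit 6223) (nat_lit 334) (.e (nat_lit 123163) (nat_lit 256) .nil)))))))) (.g (nat_lit 4) .nil .nil))) 
(.lf (nat_lit 372) (.g (nat_lit 4764) (.e (nat_lit 59) (nat_lit 0) (.e (nat_lit 1858) (nat_lit 124) (.e (nat_lit 557109) (nat_lit 15) (.e (nat_lit 188452) (nat_lit 23) (.e (nat_lit 204849) (nat_lit 25) (.e (nat_lit 327705) (nat_lit 10) (.e (nat_lit 5723) (nat_lit 312) .nil))))))) (.g (nat_lit 7) .nil .nil))))) (.nd (nat_lit 4) (.nd (nat_lit 5) 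
(.lf (nat_lit 332) (.g (nat_lit 3472) (.e (nat_lit 59) (nat_lit 0) (.e (nat_lit 1858) (nat_lit 124) (.e (nat_lit 557101) (nat_lit 13) (.e (nat_lit 172097) (nat_lit 9) (.e (nat_lit 426140) (nat_lit 3) (.e (nat_lit 204821) (nat_lit 17) (.e (nat_lit 6206) (nat_lit 333) (.e (nat_lit 57865) (nat_lit 256) .nil)))))))) (.g (nat_lit 8) .nil .nil))) 
(.lf (nat_lit 364) (.g (nat_lit 3789) (.e (nat_lit 59) (nat_lit 0) (.e (nat_lit 1858) (nat_lit 124) (.e (nat_lit 557109) (nat_lit 15) (.e (nat_lit 188449) (nat_lit 22) (.e (nat_lit 196661) (nat_lit 12) .nil))))) .nil))) (.nd (nat_lit 5) 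
(.lf (nat_lit 348) (.g (nat_lit 4448) (.e (nat_lit 59) (nat_lit 0) (.e (nat_lit 1858) (nat_lit 124) (.e (nat_lit 557105) (nat_lit 14) (.e (nat_lit 180252) (nat_lit 10) (.e (nat_lit 573451) (nat_lit 9) (.e (nat_lit 1449) (nat_lit 108) (.e (nat_lit 336013) (nat_lit 2) (.e (nat_lit 90189) (nat_lit 18) (.e (nat_lit 2579) (nat_lit 161) (.e (nat_lit 40987) (nat_lit 9) .nil)))))))))) (.g (nat_lit 5) .nil .nil))) 
(.lf (nat_lit 380) (.g (nat_lit 3008) (.e (nat_lit 59) (nat_lit 0) (.e (nat_lit 1859) (nat_lit 124) (.e (nat_lit 557098) (nat_lit 13) (.e (nat_lit 172097) (nat_lit 9) (.e (nat_lit 426140) (nat_lit 3) (.e (nat_lit 204821) (nat_lit 17) (.e (nat_lit 6206) (nat_lit 333) (.e (nat_lit 57865) (nat_lit 256) .nil)))))))) (.g (nat_lit 7) .nil .nil))))))) 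
(.nd (nat_lit 2) (.nd (nat_lit 3) (.nd (nat_lit 4) (.nd (nat_lit 5) 
(.lf (nat_lit 322) (.g (nat_lit 3566) (.e (nat_lit 59) (nat_lit 0) (.e (nat_lit 1858) (nat_lit 124) (.e (nat_lit 557101) (nat_lit 13) (.e (nat_lit 172097) (nat_lit 9) (.e (nat_lit 426125) (nat_lit 2) (.e (nat_lit 196661) (nat_lit 12) (.e (nat_lit 57721) (nat_lit 177) (.e (nat_lit 57862) (nat_lit 256) .nil)))))))) (.g (nat_lit 8) .nil .nil))) 
(.lf (nat_lit 354) (.g (nat_lit 4859) (.e (nat_lit 59) (nat_lit 0) (.e (nat_lit 1858) (nat_lit 124) (.e (nat_lit 557105) (nat_lit 14) (.e (nat_lit 180252) (nat_lit 10) (.e (nat_lit 573489) (nat_lit 14) (.e (nat_lit 73755) (nat_lit 8) (.e (nat_lit 557090) (nat_lit 12) (.e (nat_lit 164005) (nat_lit 41) (.e (nat_lit 663581) (nat_lit 9) .nil))))))))) (.g (nat_lit 7) .nil .nil)))) (.nd (nat_lit 5) 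
(.lf (nat_lit 338) (.g (nat_lit 4087) (.e (nat_lit 59) (nat_lit 0) (.e (nat_lit 1858) (nat_lit 124) (.e (nat_lit 557101) (nat_lit 13) (.e (nat_lit 172115) (nat_lit 10) (.e (nat_lit 434231) (nat_lit 23) (.e (nat_lit 532490) (nat_lit 0) (.e (nat_lit 6206) (nat_lit 333) (.e (nat_lit 57865) (nat_lit 256) .nil)))))))) (.g (nat_lit 8) .nil .nil))) 
(.lf (nat_lit 370) (.g (nat_lit 3910) (.e (nat_lit 59) (nat_lit 0) (.e (nat_lit 1858) (nat_lit 124) (.e (nat_lit 557109) (nat_lit 15) (.e (nat_lit 188452) (nat_lit 23) (.e (nat_lit 204821) (nat_lit 17) .nil))))) .nil)))) (.nd (nat_lit 4) (.nd (nat_lit 5) 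
(.lf (nat_lit 330) (.g (nat_lit 3292) (.e (nat_lit 59) (nat_lit 0) (.e (nat_lit 1858) (nat_lit 124) (.e (nat_lit 557101) (nat_lit 13) (.e (nat_lit 172097) (nat_lit 9) (.e (nat_lit 426140) (nat_lit 3) (.e (nat_lit 204821) (nat_lit 17) (.e (nat_lit 6206) (nat_lit 333) (.e (nat_lit 57863) (nat_lit 256) .nil)))))))) (.g (nat_lit 7) .nil .nil))) 
(.lf (nat_lit 362) (.g (nat_lit 3041) (.e (nat_lit 59) (nat_lit 0) (.e (nat_lit 1858) (nat_lit 124) (.e (nat_lit 557107) (nat_lit 15) (.e (nat_lit 188450) (nat_lit 23) (.e (nat_lit 204819) (nat_lit 17) (.e (nat_lit 6218) (nat_lit 333) (.e (nat_lit 57864) (nat_lit 256) .nil))))))) (.g (nat_lit 4) .nil .nil)))) (.nd (nat_lit 5) 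
(.lf (nat_lit 346) (.g (nat_lit 808) (.e (nat_lit 59) (nat_lit 0) (.e (nat_lit 1858) (nat_lit 124) (.e (nat_lit 557105) (nat_lit 14) .nil))) .nil)) 
(.lf (nat_lit 378) (.g (nat_lit 2763) (.e (nat_lit 59) (nat_lit 0) (.e (nat_lit 1859) (nat_lit 124) (.e (nat_lit 557098) (nat_lit 13) (.e (nat_lit 172097) (nat_lit 9) (.e (nat_lit 426140) (nat_lit 3) (.e (nat_lit 204821) (nat_lit 17) (.e (nat_lit 6206) (nat_lit 333) (.e (nat_lit 57863) (nat_lit 256) .nil)))))))) (.g (nat_lit 6) .nil .nil)))))) (.nd (nat_lit 3) (.nd (nat_lit 4) (.nd (nat_lit 5) 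
(.lf (nat_lit 326) (.g (nat_lit 3303) (.e (nat_lit 59) (nat_lit 0) (.e (nat_lit 1858) (nat_lit 124) (.e (nat_lit 557101) (nat_lit 13) (.e (nat_lit 172097) (nat_lit 9) (.e (nat_lit 426125) (nat_lit 2) (.e (nat_lit 196661) (nat_lit 12) (.e (nat_lit 57722) (nat_lit 178) (.e (nat_lit 123166) (nat_lit 256) .nil)))))))) (.g (nat_lit 6) .nil .nil))) 
(.lf (nat_lit 358) (.g (nat_lit 2528) (.e (nat_lit 59) (nat_lit 0) (.e (nat_lit 1858) (nat_lit 124) (.e (nat_lit 557105) (nat_lit 14) (.e (nat_lit 180277) (nat_lit 32) (.e (nat_lit 1253) (nat_lit 92) (.e (nat_lit 98367) (nat_lit 27) (.e (nat_lit 434183) (nat_lit 8) .nil))))))) (.g (nat_lit 4) .nil .nil)))) (.nd (nat_lit 5) 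
(.lf (nat_lit 342) (.g (nat_lit 3550) (.e (nat_lit 59) (nat_lit 0) (.e (nat_lit 1858) (nat_lit 124) (.e (nat_lit 557101) (nat_lit 13) (.e (nat_lit 172115) (nat_lit 10) (.e (nat_lit 434231) (nat_lit 23) (.e (nat_lit 532490) (nat_lit 0) (.e (nat_lit 6223) (nat_lit 334) (.e (nat_lit 123166) (nat_lit 256) .nil)))))))) (.g (nat_lit 6) .nil .nil))) 
(.lf (nat_lit 374) (.g (nat_lit 3090) (.e (nat_lit 59) (nat_lit 0) (.e (nat_lit 1859) (nat_lit 124) (.e (nat_lit 557098) (nat_lit 13) (.e (nat_lit 172097) (nat_lit 9) (.e (nat_lit 426125) (nat_lit 2) (.e (nat_lit 196661) (nat_lit 12) (.e (nat_lit 57721) (nat_lit 177) (.e (nat_lit 57862) (nat_lit 256) .nil)))))))) (.g (nat_lit 6) .nil .nil))))) (.nd (nat_lit 4) (.nd (nat_lit 5) 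
(.lf (nat_lit 334) (.g (nat_lit 1981) (.e (nat_lit 59) (nat_lit 0) (.e (nat_lit 1858) (nat_lit 124) (.e (nat_lit 557101) (nat_lit 13) (.e (nat_lit 172115) (nat_lit 10) (.e (nat_lit 434231) (nat_lit 23) .nil))))) .nil)) 
(.lf (nat_lit 366) (.g (nat_lit 3101) (.e (nat_lit 59) (nat_lit 0) (.e (nat_lit 1858) (nat_lit 124) (.e (nat_lit 557109) (nat_lit 15) (.e (nat_lit 188452) (nat_lit 23) (.e (nat_lit 204816) (nat_lit 17) .nil))))) .nil))) (.nd (nat_lit 5) 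
(.lf (nat_lit 350) (.g (nat_lit 2882) (.e (nat_lit 59) (nat_lit 0) (.e (nat_lit 1858) (nat_lit 124) (.e (nat_lit 557105) (nat_lit 14) (.e (nat_lit 180252) (nat_lit 10) (.e (nat_lit 573489) (nat_lit 14) (.e (nat_lit 73755) (nat_lit 8) (.e (nat_lit 557090) (nat_lit 12) (.e (nat_lit 163843) (nat_lit 0) (.e (nat_lit 5808) (nat_lit 320) (.e (nat_lit 2488) (nat_lit 157) .nil)))))))))) (.g (nat_lit 4) .nil .nil))) 
(.lf (nat_lit 382) (.g (nat_lit 3585) (.e (nat_lit 59) (nat_lit 0) (.e (nat_lit 1859) (nat_lit 124) (.e (nat_lit 557098) (nat_lit 13) (.e (nat_lit 172115) (nat_lit 10) (.e (nat_lit 434231) (nat_lit 23) (.e (nat_lit 532490) (nat_lit 0) (.e (nat_lit 6206) (nat_lit 333) (.e (nat_lit 57862) (nat_lit 256) .nil)))))))) (.g (nat_lit 6) .nil .nil)))))))) 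
(.nd (nat_lit 1) (.nd (nat_lit 2) (.nd (nat_lit 3) (.nd (nat_lit 4) (.nd (nat_lit 5) 
(.lf (nat_lit 321) (.g (nat_lit 1956) (.e (nat_lit 59) (nat_lit 0) (.e (nat_lit 1858) (nat_lit 124) (.e (nat_lit 557101) (nat_lit 13) (.e (nat_lit 172097) (nat_lit 9) (.e (nat_lit 426125) (nat_lit 2) .nil))))) .nil)) 
(.lf (nat_lit 353) (.g (nat_lit 3086) (.e (nat_lit 59) (nat_lit 0) (.e (nat_lit 1858) (nat_lit 124) (.e (nat_lit 557105) (nat_lit 14) (.e (nat_lit 180252) (nat_lit 10) (.e (nat_lit 573489) (nat_lit 14) (.e (nat_lit 73755) (nat_lit 8) (.e (nat_lit 557090) (nat_lit 12) (.e (nat_lit 163844) (nat_lit 0) (.e (nat_lit 5808) (nat_lit 320) (.e (nat_lit 2491) (nat_lit 157) .nil)))))))))) (.g (nat_lit 4) .nil .nil)))) 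
(.nd (nat_lit 5) 
(.lf (nat_lit 337) (.g (nat_lit 4027) (.e (nat_lit 59) (nat_lit 0) (.e (nat_lit 1858) (nat_lit 124) (.e (nat_lit 557101) (nat_lit 13) (.e (nat_lit 172115) (nat_lit 10) (.e (nat_lit 434231) (nat_lit 23) (.e (nat_lit 532490) (nat_lit 0) (.e (nat_lit 6206) (nat_lit 333) (.e (nat_lit 57864) (nat_lit 256) .nil)))))))) (.g (nat_lit 7) .nil .nil))) 
(.lf (nat_lit 369) (.g (nat_lit 3966) (.e (nat_lit 59) (nat_lit 0) (.e (nat_lit 1858) (nat_lit 124) (.e (nat_lit 557109) (nat_lit 15) (.e (nat_lit 188452) (nat_lit 23) (.e (nat_lit 204819) (nat_lit 17) .nil))))) .nil)))) (.nd (nat_lit 4) (.nd (nat_lit 5) 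
(.lf (nat_lit 329) (.g (nat_lit 3397) (.e (nat_lit 59) (nat_lit 0) (.e (nat_lit 1858) (nat_lit 124) (.e (nat_lit 557101) (nat_lit 13) (.e (nat_lit 172097) (nat_lit 9) (.e (nat_lit 426140) (nat_lit 3) (.e (nat_lit 204821) (nat_lit 17) (.e (nat_lit 6206) (nat_lit 333) (.e (nat_lit 57862) (nat_lit 256) .nil)))))))) (.g (nat_lit 7) .nil .nil))) 
(.lf (nat_lit 361) (.g (nat_lit 3015) (.e (nat_lit 59) (nat_lit 0) (.e (nat_lit 1858) (nat_lit 124) (.e (nat_lit 557107) (nat_lit 15) (.e (nat_lit 188450) (nat_lit 23) (.e (nat_lit 204819) (nat_lit 17) .nil))))) .nil))) (.nd (nat_lit 5) 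
(.lf (nat_lit 345) (.g (nat_lit 2993) (.e (nat_lit 59) (nat_lit 0) (.e (nat_lit 1858) (nat_lit 124) (.e (nat_lit 557103) (nat_lit 14) (.e (nat_lit 180278) (nat_lit 32) (.e (nat_lit 1253) (nat_lit 92) (.e (nat_lit 98367) (nat_lit 27) (.e (nat_lit 434183) (nat_lit 8) .nil))))))) (.g (nat_lit 4) .nil .nil))) 
(.lf (nat_lit 377) (.g (nat_lit 2913) (.e (nat_lit 59) (nat_lit 0) (.e (nat_lit 1859) (nat_lit 124) (.e (nat_lit 557098) (nat_lit 13) (.e (nat_lit 172097) (nat_lit 9) (.e (nat_lit 426140) (nat_lit 3) (.e (nat_lit 204821) (nat_lit 17) (.e (nat_lit 6206) (nat_lit 333) (.e (nat_lit 57862) (nat_lit 256) .nil)))))))) (.g (nat_lit 6) .nil .nil)))))) (.nd (nat_lit 3) (.nd (nat_lit 4) (.nd (nat_lit 5) 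
(.lf (nat_lit 325) (.g (nat_lit 3622) (.e (nat_lit 59) (nat_lit 0) (.e (nat_lit 1858) (nat_lit 124) (.e (nat_lit 557101) (nat_lit 13) (.e (nat_lit 172097) (nat_lit 9) (.e (nat_lit 426125) (nat_lit 2) (.e (nat_lit 196661) (nat_lit 12) (.e (nat_lit 57721) (nat_lit 177) (.e (nat_lit 57865) (nat_lit 256) .nil)))))))) (.g (nat_lit 0) .nil .nil))) 
(.lf (nat_lit 357) (.g (nat_lit 3086) (.e (nat_lit 59) (nat_lit 0) (.e (nat_lit 1858) (nat_lit 124) (.e (nat_lit 557105) (nat_lit 14) (.e (nat_lit 180252) (nat_lit 10) (.e (nat_lit 573489) (nat_lit 14) (.e (nat_lit 73755) (nat_lit 8) (.e (nat_lit 557090) (nat_lit 12) (.e (nat_lit 164012) (nat_lit 42) (.e (nat_lit 671776) (nat_lit 9) .nil))))))))) (.g (nat_lit 4) .nil .nil)))) (.nd (nat_lit 5) 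
(.lf (nat_lit 341) (.g (nat_lit 2748) (.e (nat_lit 59) (nat_lit 0) (.e (nat_lit 1858) (nat_lit 124) (.e (nat_lit 557101) (nat_lit 13) (.e (nat_lit 172115) (nat_lit 10) (.e (nat_lit 434231) (nat_lit 23) (.e (nat_lit 532490) (nat_lit 0) (.e (nat_lit 6223) (nat_lit 334) (.e (nat_lit 123165) (nat_lit 256) .nil)))))))) (.g (nat_lit 5) .nil .nil))) 
(.lf (nat_lit 373) (.g (nat_lit 2571) (.e (nat_lit 59) (nat_lit 0) (.e (nat_lit 1858) (nat_lit 124) (.e (nat_lit 557109) (nat_lit 15) (.e (nat_lit 188458) (nat_lit 25) (.e (nat_lit 245784) (nat_lit 9) .nil))))) .nil)))) (.nd (nat_lit 4) (.nd (nat_lit 5) 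
(.lf (nat_lit 333) (.g (nat_lit 3208) (.e (nat_lit 59) (nat_lit 0) (.e (nat_lit 1858) (nat_lit 124) (.e (nat_lit 557101) (nat_lit 13) (.e (nat_lit 172097) (nat_lit 9) (.e (nat_lit 426140) (nat_lit 3) (.e (nat_lit 204821) (nat_lit 17) (.e (nat_lit 6223) (nat_lit 334) (.e (nat_lit 123166) (nat_lit 256) .nil)))))))) (.g (nat_lit 6) .nil .nil))) 
(.lf (nat_lit 365) (.g (nat_lit 1542) (.e (nat_lit 59) (nat_lit 0) (.e (nat_lit 1858) (nat_lit 124) (.e (nat_lit 557109) (nat_lit 15) (.e (nat_lit 188452) (nat_lit 23) .nil)))) .nil))) (.nd (nat_lit 5) 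
(.lf (nat_lit 349) (.g (nat_lit 2709) (.e (nat_lit 59) (nat_lit 0) (.e (nat_lit 1858) (nat_lit 124) (.e (nat_lit 557105) (nat_lit 14) (.e (nat_lit 180252) (nat_lit 10) (.e (nat_lit 573489) (nat_lit 14) .nil))))) .nil)) 
(.lf (nat_lit 381) (.g (nat_lit 2679) (.e (nat_lit 59) (nat_lit 0) (.e (nat_lit 1859) (nat_lit 124) (.e (nat_lit 557098) (nat_lit 13) (.e (nat_lit 172097) (nat_lit 9) (.e (nat_lit 426140) (nat_lit 3) (.e (nat_lit 204821) (nat_lit 17) (.e (nat_lit 6223) (nat_lit 334) (.e (nat_lit 123166) (nat_lit 256) .nil)))))))) (.g (nat_lit 5) .nil .nil))))))) 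
(.nd (nat_lit 2) (.nd (nat_lit 3) (.nd (nat_lit 4) (.nd (nat_lit 5) 
(.lf (nat_lit 323) (.g (nat_lit 3405) (.e (nat_lit 59) (nat_lit 0) (.e (nat_lit 1858) (nat_lit 124) (.e (nat_lit 557101) (nat_lit 13) (.e (nat_lit 172097) (nat_lit 9) (.e (nat_lit 426125) (nat_lit 2) (.e (nat_lit 196661) (nat_lit 12) (.e (nat_lit 57721) (nat_lit 177) (.e (nat_lit 57863) (nat_lit 256) .nil)))))))) (.g (nat_lit 7) .nil .nil))) 
(.lf (nat_lit 355) (.g (nat_lit 3369) (.e (nat_lit 59) (nat_lit 0) (.e (nat_lit 1858) (nat_lit 124) (.e (nat_lit 557105) (nat_lit 14) (.e (nat_lit 180252) (nat_lit 10) (.e (nat_lit 573489) (nat_lit 14) (.e (nat_lit 73755) (nat_lit 8) (.e (nat_lit 557090) (nat_lit 12) (.e (nat_lit 164006) (nat_lit 41) (.e (nat_lit 663581) (nat_lit 9) .nil))))))))) (.g (nat_lit 5) .nil .nil)))) (.nd (nat_lit 5) 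
(.lf (nat_lit 339) (.g (nat_lit 2042) (.e (nat_lit 59) (nat_lit 0) (.e (nat_lit 1858) (nat_lit 124) (.e (nat_lit 557101) (nat_lit 13) (.e (nat_lit 172115) (nat_lit 10) (.e (nat_lit 434231) (nat_lit 23) (.e (nat_lit 532490) (nat_lit 0) (.e (nat_lit 6206) (nat_lit 333) (.e (nat_lit 57867) (nat_lit 256) .nil)))))))) (.g (nat_lit 4) .nil .nil))) 
(.lf (nat_lit 371) (.g (nat_lit 3560) (.e (nat_lit 59) (nat_lit 0) (.e (nat_lit 1858) (nat_lit 124) (.e (nat_lit 557109) (nat_lit 15) (.e (nat_lit 188452) (nat_lit 23) (.e (nat_lit 204849) (nat_lit 25) .nil))))) .nil)))) (.nd (nat_lit 4) (.nd (nat_lit 5) 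
(.lf (nat_lit 331) (.g (nat_lit 3396) (.e (nat_lit 59) (nat_lit 0) (.e (nat_lit 1858) (nat_lit 124) (.e (nat_lit 557101) (nat_lit 13) (.e (nat_lit 172097) (nat_lit 9) (.e (nat_lit 426140) (nat_lit 3) (.e (nat_lit 204821) (nat_lit 17) (.e (nat_lit 6206) (nat_lit 333) (.e (nat_lit 57864) (nat_lit 256) .nil)))))))) (.g (nat_lit 7) .nil .nil))) 
(.lf (nat_lit 363) (.g (nat_lit 3008) (.e (nat_lit 59) (nat_lit 0) (.e (nat_lit 1858) (nat_lit 124) (.e (nat_lit 557107) (nat_lit 15) (.e (nat_lit 188450) (nat_lit 23) (.e (nat_lit 204821) (nat_lit 17) .nil))))) .nil))) (.nd (nat_lit 5) 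
(.lf (nat_lit 347) (.g (nat_lit 3305) (.e (nat_lit 59) (nat_lit 0) (.e (nat_lit 1858) (nat_lit 124) (.e (nat_lit 557105) (nat_lit 14) (.e (nat_lit 180252) (nat_lit 10) (.e (nat_lit 573451) (nat_lit 9) .nil))))) .nil)) 
(.lf (nat_lit 379) (.g (nat_lit 3000) (.e (nat_lit 59) (nat_lit 0) (.e (nat_lit 1859) (nat_lit 124) (.e (nat_lit 557098) (nat_lit 13) (.e (nat_lit 172097) (nat_lit 9) (.e (nat_lit 426140) (nat_lit 3) (.e (nat_lit 204821) (nat_lit 17) (.e (nat_lit 6206) (nat_lit 333) (.e (nat_lit 57864) (nat_lit 256) .nil)))))))) (.g (nat_lit 7) .nil .nil)))))) (.nd (nat_lit 3) (.nd (nat_lit 4) (.nd (nat_lit 5) 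
(.lf (nat_lit 327) (.g (nat_lit 2151) (.e (nat_lit 59) (nat_lit 0) (.e (nat_lit 1858) (nat_lit 124) (.e (nat_lit 557101) (nat_lit 13) (.e (nat_lit 172097) (nat_lit 9) (.e (nat_lit 426125) (nat_lit 2) (.e (nat_lit 196661) (nat_lit 12) (.e (nat_lit 57722) (nat_lit 178) (.e (nat_lit 123170) (nat_lit 256) .nil)))))))) (.g (nat_lit 4) .nil .nil))) 
(.lf (nat_lit 359) (.g (nat_lit 3028) (.e (nat_lit 59) (nat_lit 0) (.e (nat_lit 1858) (nat_lit 124) (.e (nat_lit 557107) (nat_lit 15) (.e (nat_lit 188447) (nat_lit 22) (.e (nat_lit 196661) (nat_lit 12) .nil))))) .nil))) (.nd (nat_lit 5) 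
(.lf (nat_lit 343) (.g (nat_lit 2103) (.e (nat_lit 59) (nat_lit 0) (.e (nat_lit 1858) (nat_lit 124) (.e (nat_lit 557101) (nat_lit 13) (.e (nat_lit 172115) (nat_lit 10) (.e (nat_lit 434231) (nat_lit 23) (.e (nat_lit 532490) (nat_lit 0) (.e (nat_lit 6223) (nat_lit 334) (.e (nat_lit 123170) (nat_lit 256) .nil)))))))) (.g (nat_lit 4) .nil .nil))) 
(.lf (nat_lit 375) (.g (nat_lit 3130) (.e (nat_lit 59) (nat_lit 0) (.e (nat_lit 1859) (nat_lit 124) (.e (nat_lit 557098) (nat_lit 13) (.e (nat_lit 172097) (nat_lit 9) (.e (nat_lit 426125) (nat_lit 2) (.e (nat_lit 196661) (nat_lit 12) (.e (nat_lit 57721) (nat_lit 177) (.e (nat_lit 57864) (nat_lit 256) .nil)))))))) (.g (nat_lit 7) .nil .nil))))) (.nd (nat_lit 4) (.nd (nat_lit 5) 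
(.lf (nat_lit 335) (.g (nat_lit 4017) (.e (nat_lit 59) (nat_lit 0) (.e (nat_lit 1858) (nat_lit 124) (.e (nat_lit 557101) (nat_lit 13) (.e (nat_lit 172115) (nat_lit 10) (.e (nat_lit 434231) (nat_lit 23) (.e (nat_lit 532490) (nat_lit 0) (.e (nat_lit 6206) (nat_lit 333) (.e (nat_lit 57862) (nat_lit 256) .nil)))))))) (.g (nat_lit 7) .nil .nil))) 
(.lf (nat_lit 367) (.g (nat_lit 3893) (.e (nat_lit 59) (nat_lit 0) (.e (nat_lit 1858) (nat_lit 124) (.e (nat_lit 557109) (nat_lit 15) (.e (nat_lit 188452) (nat_lit 23) (.e (nat_lit 204816) (nat_lit 17) (.e (nat_lit 6712) (nat_lit 360) (.e (nat_lit 164247) (nat_lit 201) .nil))))))) (.g (nat_lit 5) .nil .nil)))) (.nd (nat_lit 5) 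
(.lf (nat_lit 351) (.g (nat_lit 2968) (.e (nat_lit 59) (nat_lit 0) (.e (nat_lit 1858) (nat_lit 124) (.e (nat_lit 557105) (nat_lit 14) (.e (nat_lit 180252) (nat_lit 10) (.e (nat_lit 573489) (nat_lit 14) (.e (nat_lit 73755) (nat_lit 8) (.e (nat_lit 557090) (nat_lit 12) (.e (nat_lit 163843) (nat_lit 0) (.e (nat_lit 5808) (nat_lit 320) (.e (nat_lit 2491) (nat_lit 157) .nil)))))))))) (.g (nat_lit 4) .nil .nil))) 
(.lf (nat_lit 383) (.g (nat_lit 3453) (.e (nat_lit 59) (nat_lit 0) (.e (nat_lit 1859) (nat_lit 124) (.e (nat_lit 557098) (nat_lit 13) (.e (nat_lit 172115) (nat_lit 10) (.e (nat_lit 434231) (nat_lit 23) (.e (nat_lit 532490) (nat_lit 0) (.e (nat_lit 6206) (nat_lit 333) (.e (nat_lit 57863) (nat_lit 256) .nil)))))))) (.g (nat_lit 6) .nil .nil)))))))))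

noncomputable def tv006 : DT := (.nd (nat_lit 0) (.nd (nat_lit 1) (.nd (nat_lit 2) (.nd (nat_lit 3) (.nd (nat_lit 4) (.nd (nat_lit 5) 
(.lf (nat_lit 384) (.g (nat_lit 3683) (.e (nat_lit 59) (nat_lit 0) (.e (nat_lit 1859) (nat_lit 124) (.e (nat_lit 557098) (nat_lit 13) (.e (nat_lit 172115) (nat_lit 10) (.e (nat_lit 434231) (nat_lit 23) (.e (nat_lit 532490) (nat_lit 0) (.e (nat_lit 6206) (nat_lit 333) (.e (nat_lit 57864) (nat_lit 256) .nil)))))))) (.g (nat_lit 7) .nil .nil))) 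
(.lf (nat_lit 416) (.g (nat_lit 4475) (.e (nat_lit 59) (nat_lit 0) (.e (nat_lit 1859) (nat_lit 124) (.e (nat_lit 557109) (nat_lit 15) (.e (nat_lit 188452) (nat_lit 23) (.e (nat_lit 204846) (nat_lit 24) (.e (nat_lit 319511) (nat_lit 10) (.e (nat_lit 5664) (nat_lit 312) .nil))))))) (.g (nat_lit 5) .nil .nil)))) (.nd (nat_lit 5) 
(.lf (nat_lit 400) (.g (nat_lit 3303) (.e (nat_lit 59) (nat_lit 0) (.e (nat_lit 1859) (nat_lit 124) (.e (nat_lit 557109) (nat_lit 15) (.e (nat_lit 188452) (nat_lit 23) (.e (nat_lit 204819) (nat_lit 17) (.e (nat_lit 6218) (nat_lit 333) (.e (nat_lit 57863) (nat_lit 256) .nil))))))) (.g (nat_lit 6) .nil .nil))) 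
(.lf (nat_lit 432) (.g (nat_lit 3164) (.e (nat_lit 59) (nat_lit 0) (.e (nat_lit 7160) (nat_lit 382) (.e (nat_lit 1215) (nat_lit 90) (.e (nat_lit 81963) (nat_lit 26) (.e (nat_lit 147496) (nat_lit 11) (.e (nat_lit 24584) (nat_lit 0) (.e (nat_lit 6113) (nat_lit 332) (.e (nat_lit 2406) (nat_lit 157) .nil)))))))) (.g (nat_lit 8) .nil .nil))))) (.nd (nat_lit 4) (.nd (nat_lit 5) 
(.lf (nat_lit 392) (.g (nat_lit 1823) (.e (nat_lit 59) (nat_lit 0) (.e (nat_lit 1859) (nat_lit 124) (.e (nat_lit 557107) (nat_lit 15) (.e (nat_lit 188450) (nat_lit 23) (.e (nat_lit 204821) (nat_lit 17) (.e (nat_lit 6206) (nat_lit 333) (.e (nat_lit 57862) (nat_lit 256) .nil))))))) (.g (nat_lit 6) .nil .nil))) 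
(.lf (nat_lit 424) (.g (nat_lit 1842) (.e (nat_lit 59) (nat_lit 0) (.e (nat_lit 5905) (nat_lit 320) (.e (nat_lit 1190) (nat_lit 88) (.e (nat_lit 65628) (nat_lit 14) (.e (nat_lit 401459) (nat_lit 13) .nil))))) .nil))) (.nd (nat_lit 5) 
(.lf (nat_lit 408) (.g (nat_lit 3706) (.e (nat_lit 59) (nat_lit 0) (.e (nat_lit 1859) (nat_lit 124) (.e (nat_lit 557109) (nat_lit 15) (.e (nat_lit 188452) (nat_lit 23) (.e (nat_lit 204846) (nat_lit 24) (.e (nat_lit 319504) (nat_lit 10) (.e (nat_lit 5688) (nat_lit 312) .nil))))))) (.g (nat_lit 7) .nil .nil))) 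
(.lf (nat_lit 440) (.g (nat_lit 2674) (.e (nat_lit 60) (nat_lit 0) (.e (nat_lit 1849) (nat_lit 124) (.e (nat_lit 557097) (nat_lit 13) (.e (nat_lit 172097) (nat_lit 9) (.e (nat_lit 426140) (nat_lit 3) (.e (nat_lit 204821) (nat_lit 17) (.e (nat_lit 6206) (nat_lit 333) (.e (nat_lit 57865) (nat_lit 256) .nil)))))))) (.g (nat_lit 0) .nil .nil)))))) (.nd (nat_lit 3) (.nd (nat_lit 4) (.nd (nat_lit 5) 
(.lf (nat_lit 388) (.g (nat_lit 1988) (.e (nat_lit 59) (nat_lit 0) (.e (nat_lit 1859) (nat_lit 124) (.e (nat_lit 557107) (nat_lit 15) (.e (nat_lit 188447) (nat_lit 22) (.e (nat_lit 196661) (nat_lit 12) (.e (nat_lit 57721) (nat_lit 177) (.e (nat_lit 57865) (nat_lit 256) .nil))))))) (.g (nat_lit 0) .nil .nil))) 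
(.lf (nat_lit 420) (.g (nat_lit 2735) (.e (nat_lit 59) (nat_lit 0) (.e (nat_lit 2030) (nat_lit 140) (.e (nat_lit 688177) (nat_lit 16) (.e (nat_lit 65569) (nat_lit 3) (.e (nat_lit 98381) (nat_lit 31) (.e (nat_lit 466977) (nat_lit 22) (.e (nat_lit 196610) (nat_lit 0) .nil))))))) (.g (nat_lit 5) .nil .nil)))) (.nd (nat_lit 5) 
(.lf (nat_lit 404) (.g (nat_lit 2784) (.e (nat_lit 59) (nat_lit 0) (.e (nat_lit 1859) (nat_lit 124) (.e (nat_lit 557109) (nat_lit 15) (.e (nat_lit 188452) (nat_lit 23) (.e (nat_lit 204821) (nat_lit 17) (.e (nat_lit 6206) (nat_lit 333) (.e (nat_lit 57865) (nat_lit 256) .nil))))))) (.g (nat_lit 7) .nil .nil))) 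
(.lf (nat_lit 436) (.g (nat_lit 1856) (.e (nat_lit 60) (nat_lit 0) (.e (nat_lit 1349) (nat_lit 102) (.e (nat_lit 286759) (nat_lit 12) (.e (nat_lit 385094) (nat_lit 49) .nil)))) .nil)))) (.nd (nat_lit 4) (.nd (nat_lit 5) 
(.lf (nat_lit 396) (.g (nat_lit 2518) (.e (nat_lit 59) (nat_lit 0) (.e (nat_lit 1859) (nat_lit 124) (.e (nat_lit 557109) (nat_lit 15) (.e (nat_lit 188449) (nat_lit 22) (.e (nat_lit 196661) (nat_lit 12) (.e (nat_lit 57721) (nat_lit 177) (.e (nat_lit 57865) (nat_lit 256) .nil))))))) (.g (nat_lit 0) .nil .nil))) 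
(.lf (nat_lit 428) (.g (nat_lit 1520) (.e (nat_lit 59) (nat_lit 0) (.e (nat_lit 6114) (nat_lit 332) (.e (nat_lit 1370) (nat_lit 103) (.e (nat_lit 294960) (nat_lit 13) (.e (nat_lit 393238) (nat_lit 17) (.e (nat_lit 7101) (nat_lit 380) (.e (nat_lit 164359) (nat_lit 246) .nil))))))) (.g (nat_lit 4) .nil .nil)))) (.nd (nat_lit 5) 
(.lf (nat_lit 412) (.g (nat_lit 3470) (.e (nat_lit 59) (nat_lit 0) (.e (nat_lit 1859) (nat_lit 124) (.e (nat_lit 557109) (nat_lit 15) (.e (nat_lit 188452) (nat_lit 23) (.e (nat_lit 204846) (nat_lit 24) (.e (nat_lit 319505) (nat_lit 10) (.e (nat_lit 5688) (nat_lit 312) .nil))))))) (.g (nat_lit 7) .nil .nil))) 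
(.lf (nat_lit 444) (.g (nat_lit 2046) (.e (nat_lit 60) (nat_lit 0) (.e (nat_lit 1849) (nat_lit 124) (.e (nat_lit 557107) (nat_lit 15) (.e (nat_lit 188447) (nat_lit 22) (.e (nat_lit 196661) (nat_lit 12) (.e (nat_lit 57721) (nat_lit 177) (.e (nat_lit 57865) (nat_lit 256) .nil))))))) (.g (nat_lit 0) .nil .nil))))))) (.nd (nat_lit 2) (.nd (nat_lit 3) (.nd (nat_lit 4) (.nd (nat_lit 5) 
(.lf (nat_lit 386) (.g (nat_lit 1916) (.e (nat_lit 59) (nat_lit 0) (.e (nat_lit 1859) (nat_lit 124) (.e (nat_lit 557107) (nat_lit 15) (.e (nat_lit 188447) (nat_lit 22) (.e (nat_lit 196661) (nat_lit 12) (.e (nat_lit 57721) (nat_lit 177) (.e (nat_lit 57862) (nat_lit 256) .nil))))))) (.g (nat_lit 6) .nil .nil))) 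
(.lf (nat_lit 418) (.g (nat_lit 1516) (.e (nat_lit 59) (nat_lit 0) (.e (nat_lit 2030) (nat_lit 140) (.e (nat_lit 688177) (nat_lit 16) (.e (nat_lit 65569) (nat_lit 3) .nil)))) .nil))) (.nd (nat_lit 5) 
(.lf (nat_lit 402) (.g (nat_lit 2685) (.e (nat_lit 59) (nat_lit 0) (.e (nat_lit 1859) (nat_lit 124) (.e (nat_lit 557109) (nat_lit 15) (.e (nat_lit 188452) (nat_lit 23) (.e (nat_lit 204821) (nat_lit 17) (.e (nat_lit 6206) (nat_lit 333) (.e (nat_lit 57862) (nat_lit 256) .nil))))))) (.g (nat_lit 6) .nil .nil))) 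
(.lf (nat_lit 434) (.g (nat_lit 2379) (.e (nat_lit 60) (nat_lit 0) (.e (nat_lit 1349) (nat_lit 102) (.e (nat_lit 286759) (nat_lit 12) (.e (nat_lit 385074) (nat_lit 31) (.e (nat_lit 573484) (nat_lit 13) .nil))))) .nil)))) (.nd (nat_lit 4) (.nd (nat_lit 5) 
(.lf (nat_lit 394) (.g (nat_lit 1920) (.e (nat_lit 59) (nat_lit 0) (.e (nat_lit 1859) (nat_lit 124) (.e (nat_lit 557107) (nat_lit 15) (.e (nat_lit 188450) (nat_lit 23) (.e (nat_lit 204821) (nat_lit 17) (.e (nat_lit 6206) (nat_lit 333) (.e (nat_lit 57865) (nat_lit 256) .nil))))))) (.g (nat_lit 7) .nil .nil))) 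
(.lf (nat_lit 426) (.g (nat_lit 1047) (.e (nat_lit 59) (nat_lit 0) (.e (nat_lit 6114) (nat_lit 332) (.e (nat_lit 1370) (nat_lit 103) (.e (nat_lit 294960) (nat_lit 13) .nil)))) .nil))) (.nd (nat_lit 5) 
(.lf (nat_lit 410) (.g (nat_lit 3577) (.e (nat_lit 59) (nat_lit 0) (.e (nat_lit 1859) (nat_lit 124) (.e (nat_lit 557109) (nat_lit 15) (.e (nat_lit 188452) (nat_lit 23) (.e (nat_lit 204846) (nat_lit 24) (.e (nat_lit 319504) (nat_lit 10) (.e (nat_lit 5736) (nat_lit 312) .nil))))))) (.g (nat_lit 6) .nil .nil))) 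
(.lf (nat_lit 442) (.g (nat_lit 3530) (.e (nat_lit 60) (nat_lit 0) (.e (nat_lit 1849) (nat_lit 124) (.e (nat_lit 557097) (nat_lit 13) (.e (nat_lit 172115) (nat_lit 10) (.e (nat_lit 434231) (nat_lit 23) (.e (nat_lit 532490) (nat_lit 0) (.e (nat_lit 6206) (nat_lit 333) (.e (nat_lit 57865) (nat_lit 256) .nil)))))))) (.g (nat_lit 0) .nil .nil)))))) (.nd (nat_lit 3) (.nd (nat_lit 4) (.nd (nat_lit 5) 
(.lf (nat_lit 390) (.g (nat_lit 1914) (.e (nat_lit 59) (nat_lit 0) (.e (nat_lit 1859) (nat_lit 124) (.e (nat_lit 557107) (nat_lit 15) (.e (nat_lit 188450) (nat_lit 23) (.e (nat_lit 204819) (nat_lit 17) (.e (nat_lit 6218) (nat_lit 333) (.e (nat_lit 57863) (nat_lit 256) .nil))))))) (.g (nat_lit 6) .nil .nil))) 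
(.lf (nat_lit 422) (.g (nat_lit 2252) (.e (nat_lit 59) (nat_lit 0) (.e (nat_lit 2030) (nat_lit 140) (.e (nat_lit 688177) (nat_lit 16) (.e (nat_lit 65571) (nat_lit 3) (.e (nat_lit 98370) (nat_lit 28) .nil))))) .nil))) (.nd (nat_lit 5) 
(.lf (nat_lit 406) (.g (nat_lit 1954) (.e (nat_lit 59) (nat_lit 0) (.e (nat_lit 1859) (nat_lit 124) (.e (nat_lit 557109) (nat_lit 15) (.e (nat_lit 188452) (nat_lit 23) (.e (nat_lit 204846) (nat_lit 24) .nil))))) .nil)) 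
(.lf (nat_lit 438) (.g (nat_lit 2793) (.e (nat_lit 60) (nat_lit 0) (.e (nat_lit 1849) (nat_lit 124) (.e (nat_lit 557097) (nat_lit 13) (.e (nat_lit 172097) (nat_lit 9) (.e (nat_lit 426125) (nat_lit 2) (.e (nat_lit 196661) (nat_lit 12) (.e (nat_lit 57721) (nat_lit 177) (.e (nat_lit 57865) (nat_lit 256) .nil)))))))) (.g (nat_lit 0) .nil .nil))))) (.nd (nat_lit 4) (.nd (nat_lit 5) 
(.lf (nat_lit 398) (.g (nat_lit 874) (.e (nat_lit 59) (nat_lit 0) (.e (nat_lit 1859) (nat_lit 124) (.e (nat_lit 557109) (nat_lit 15) (.e (nat_lit 188452) (nat_lit 23) .nil)))) .nil)) 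
(.lf (nat_lit 430) (.g (nat_lit 2107) (.e (nat_lit 59) (nat_lit 0) (.e (nat_lit 6988) (nat_lit 377) (.e (nat_lit 1361) (nat_lit 102) (.e (nat_lit 286761) (nat_lit 13) (.e (nat_lit 393260) (nat_lit 21) (.e (nat_lit 409623) (nat_lit 10) (.e (nat_lit 5293) (nat_lit 298) .nil))))))) (.g (nat_lit 5) .nil .nil)))) (.nd (nat_lit 5) 
(.lf (nat_lit 414) (.g (nat_lit 4048) (.e (nat_lit 59) (nat_lit 0) (.e (nat_lit 1859) (nat_lit 124) (.e (nat_lit 557109) (nat_lit 15) (.e (nat_lit 188452) (nat_lit 23) (.e (nat_lit 204846) (nat_lit 24) (.e (nat_lit 319505) (nat_lit 10) (.e (nat_lit 5712) (nat_lit 312) .nil))))))) (.g (nat_lit 0) .nil .nil))) 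
(.lf (nat_lit 446) (.g (nat_lit 2018) (.e (nat_lit 60) (nat_lit 0) (.e (nat_lit 1849) (nat_lit 124) (.e (nat_lit 557107) (nat_lit 15) (.e (nat_lit 188450) (nat_lit 23) (.e (nat_lit 204821) (nat_lit 17) (.e (nat_lit 6206) (nat_lit 333) (.e (nat_lit 57863) (nat_lit 256) .nil))))))) (.g (nat_lit 0) .nil .nil)))))))) (.nd (nat_lit 1) (.nd (nat_lit 2) (.nd (nat_lit 3) (.nd (nat_lit 4) (.nd (nat_lit 5) 
(.lf (nat_lit 385) (.g (nat_lit 3675) (.e (nat_lit 59) (nat_lit 0) (.e (nat_lit 1859) (nat_lit 124) (.e (nat_lit 557098) (nat_lit 13) (.e (nat_lit 172115) (nat_lit 10) (.e (nat_lit 434231) (nat_lit 23) (.e (nat_lit 532490) (nat_lit 0) (.e (nat_lit 6206) (nat_lit 333) (.e (nat_lit 57865) (nat_lit 256) .nil)))))))) (.g (nat_lit 7) .nil .nil))) 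
(.lf (nat_lit 417) (.g (nat_lit 1329) (.e (nat_lit 59) (nat_lit 0) (.e (nat_lit 2030) (nat_lit 140) (.e (nat_lit 688177) (nat_lit 16) (.e (nat_lit 65566) (nat_lit 2) .nil)))) .nil))) (.nd (nat_lit 5) 
(.lf (nat_lit 401) (.g (nat_lit 3578) (.e (nat_lit 59) (nat_lit 0) (.e (nat_lit 1859) (nat_lit 124) (.e (nat_lit 557109) (nat_lit 15) (.e (nat_lit 188452) (nat_lit 23) (.e (nat_lit 204819) (nat_lit 17) (.e (nat_lit 6218) (nat_lit 333) (.e (nat_lit 57864) (nat_lit 256) .nil))))))) (.g (nat_lit 7) .nil .nil))) 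
(.lf (nat_lit 433) (.g (nat_lit 2929) (.e (nat_lit 60) (nat_lit 0) (.e (nat_lit 1348) (nat_lit 102) (.e (nat_lit 286735) (nat_lit 3) (.e (nat_lit 98372) (nat_lit 29) (.e (nat_lit 450579) (nat_lit 5) .nil))))) .nil)))) (.nd (nat_lit 4) (.nd (nat_lit 5) 
(.lf (nat_lit 393) (.g (nat_lit 1919) (.e (nat_lit 59) (nat_lit 0) (.e (nat_lit 1859) (nat_lit 124) (.e (nat_lit 557107) (nat_lit 15) (.e (nat_lit 188450) (nat_lit 23) (.e (nat_lit 204821) (nat_lit 17) (.e (nat_lit 6206) (nat_lit 333) (.e (nat_lit 57864) (nat_lit 256) .nil))))))) (.g (nat_lit 7) .nil .nil))) 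
(.lf (nat_lit 425) (.g (nat_lit 456) (.e (nat_lit 59) (nat_lit 0) (.e (nat_lit 6114) (nat_lit 332) (.e (nat_lit 1370) (nat_lit 103) .nil))) .nil))) (.nd (nat_lit 5) 
(.lf (nat_lit 409) (.g (nat_lit 2991) (.e (nat_lit 59) (nat_lit 0) (.e (nat_lit 1859) (nat_lit 124) (.e (nat_lit 557109) (nat_lit 15) (.e (nat_lit 188452) (nat_lit 23) (.e (nat_lit 204846) (nat_lit 24) (.e (nat_lit 319504) (nat_lit 10) (.e (nat_lit 5712) (nat_lit 312) .nil))))))) (.g (nat_lit 6) .nil .nil))) 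
(.lf (nat_lit 441) (.g (nat_lit 3579) (.e (nat_lit 60) (nat_lit 0) (.e (nat_lit 1849) (nat_lit 124) (.e (nat_lit 557097) (nat_lit 13) (.e (nat_lit 172115) (nat_lit 10) (.e (nat_lit 434231) (nat_lit 23) (.e (nat_lit 532490) (nat_lit 0) (.e (nat_lit 6206) (nat_lit 333) (.e (nat_lit 57863) (nat_lit 256) .nil)))))))) (.g (nat_lit 0) .nil .nil)))))) (.nd (nat_lit 3) (.nd (nat_lit 4) (.nd (nat_lit 5) 
(.lf (nat_lit 389) (.g (nat_lit 2064) (.e (nat_lit 59) (nat_lit 0) (.e (nat_lit 1859) (nat_lit 124) (.e (nat_lit 557107) (nat_lit 15) (.e (nat_lit 188450) (nat_lit 23) (.e (nat_lit 204819) (nat_lit 17) (.e (nat_lit 6218) (nat_lit 333) (.e (nat_lit 57862) (nat_lit 256) .nil))))))) (.g (nat_lit 6) .nil .nil))) 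
(.lf (nat_lit 421) (.g (nat_lit 1578) (.e (nat_lit 59) (nat_lit 0) (.e (nat_lit 2030) (nat_lit 140) (.e (nat_lit 688177) (nat_lit 16) (.e (nat_lit 65571) (nat_lit 3) .nil)))) .nil))) (.nd (nat_lit 5) 
(.lf (nat_lit 405) (.g (nat_lit 2442) (.e (nat_lit 59) (nat_lit 0) (.e (nat_lit 1859) (nat_lit 124) (.e (nat_lit 557109) (nat_lit 15) (.e (nat_lit 188452) (nat_lit 23) (.e (nat_lit 204821) (nat_lit 17) (.e (nat_lit 6223) (nat_lit 334) (.e (nat_lit 123166) (nat_lit 256) .nil))))))) (.g (nat_lit 5) .nil .nil))) 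
(.lf (nat_lit 437) (.g (nat_lit 2789) (.e (nat_lit 60) (nat_lit 0) (.e (nat_lit 1849) (nat_lit 124) (.e (nat_lit 557097) (nat_lit 13) (.e (nat_lit 172097) (nat_lit 9) (.e (nat_lit 426125) (nat_lit 2) (.e (nat_lit 196661) (nat_lit 12) (.e (nat_lit 57721) (nat_lit 177) (.e (nat_lit 57863) (nat_lit 256) .nil)))))))) (.g (nat_lit 0) .nil .nil))))) (.nd (nat_lit 4) (.nd (nat_lit 5) 
(.lf (nat_lit 397) (.g (nat_lit 2119) (.e (nat_lit 59) (nat_lit 0) (.e (nat_lit 1859) (nat_lit 124) (.e (nat_lit 557109) (nat_lit 15) (.e (nat_lit 188449) (nat_lit 22) (.e (nat_lit 196661) (nat_lit 12) (.e (nat_lit 57722) (nat_lit 178) (.e (nat_lit 123166) (nat_lit 256) .nil))))))) (.g (nat_lit 4) .nil .nil))) 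
(.lf (nat_lit 429) (.g (nat_lit 1880) (.e (nat_lit 59) (nat_lit 0) (.e (nat_lit 6320) (nat_lit 337) (.e (nat_lit 1221) (nat_lit 90) (.e (nat_lit 81965) (nat_lit 26) (.e (nat_lit 147496) (nat_lit 11) (.e (nat_lit 24617) (nat_lit 7) (.e (nat_lit 319511) (nat_lit 10) .nil))))))) (.g (nat_lit 4) .nil .nil)))) (.nd (nat_lit 5) 
(.lf (nat_lit 413) (.g (nat_lit 2276) (.e (nat_lit 59) (nat_lit 0) (.e (nat_lit 1859) (nat_lit 124) (.e (nat_lit 557109) (nat_lit 15) (.e (nat_lit 188452) (nat_lit 23) (.e (nat_lit 204846) (nat_lit 24) (.e (nat_lit 319505) (nat_lit 10) (.e (nat_lit 5692) (nat_lit 312) .nil))))))) (.g (nat_lit 5) .nil .nil))) 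
(.lf (nat_lit 445) (.g (nat_lit 2279) (.e (nat_lit 60) (nat_lit 0) (.e (nat_lit 1849) (nat_lit 124) (.e (nat_lit 557107) (nat_lit 15) (.e (nat_lit 188450) (nat_lit 23) (.e (nat_lit 204819) (nat_lit 17) (.e (nat_lit 6218) (nat_lit 333) (.e (nat_lit 57863) (nat_lit 256) .nil))))))) (.g (nat_lit 0) .nil .nil))))))) (.nd (nat_lit 2) (.nd (nat_lit 3) (.nd (nat_lit 4) (.nd (nat_lit 5) 
(.lf (nat_lit 387) (.g (nat_lit 1711) (.e (nat_lit 59) (nat_lit 0) (.e (nat_lit 1859) (nat_lit 124) (.e (nat_lit 557107) (nat_lit 15) (.e (nat_lit 188447) (nat_lit 22) (.e (nat_lit 196661) (nat_lit 12) (.e (nat_lit 57721) (nat_lit 177) (.e (nat_lit 57863) (nat_lit 256) .nil))))))) (.g (nat_lit 5) .nil .nil))) 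
(.lf (nat_lit 419) (.g (nat_lit 2255) (.e (nat_lit 59) (nat_lit 0) (.e (nat_lit 2030) (nat_lit 140) (.e (nat_lit 688177) (nat_lit 16) (.e (nat_lit 65569) (nat_lit 3) (.e (nat_lit 98381) (nat_lit 31) (.e (nat_lit 466977) (nat_lit 22) (.e (nat_lit 196609) (nat_lit 0) .nil))))))) (.g (nat_lit 4) .nil .nil)))) (.nd (nat_lit 5) 
(.lf (nat_lit 403) (.g (nat_lit 2776) (.e (nat_lit 59) (nat_lit 0) (.e (nat_lit 1859) (nat_lit 124) (.e (nat_lit 557109) (nat_lit 15) (.e (nat_lit 188452) (nat_lit 23) (.e (nat_lit 204821) (nat_lit 17) (.e (nat_lit 6206) (nat_lit 333) (.e (nat_lit 57864) (nat_lit 256) .nil))))))) (.g (nat_lit 7) .nil .nil))) 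
(.lf (nat_lit 435) (.g (nat_lit 3029) (.e (nat_lit 60) (nat_lit 0) (.e (nat_lit 1349) (nat_lit 102) (.e (nat_lit 286759) (nat_lit 12) (.e (nat_lit 385074) (nat_lit 31) (.e (nat_lit 573484) (nat_lit 13) (.e (nat_lit 65617) (nat_lit 10) (.e (nat_lit 344093) (nat_lit 18) (.e (nat_lit 3877) (nat_lit 233) .nil)))))))) (.g (nat_lit 5) .nil .nil))))) (.nd (nat_lit 4) (.nd (nat_lit 5) 
(.lf (nat_lit 395) (.g (nat_lit 2436) (.e (nat_lit 59) (nat_lit 0) (.e (nat_lit 1859) (nat_lit 124) (.e (nat_lit 557109) (nat_lit 15) (.e (nat_lit 188449) (nat_lit 22) (.e (nat_lit 196661) (nat_lit 12) (.e (nat_lit 57721) (nat_lit 177) (.e (nat_lit 57862) (nat_lit 256) .nil))))))) (.g (nat_lit 6) .nil .nil))) 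
(.lf (nat_lit 427) (.g (nat_lit 1587) (.e (nat_lit 59) (nat_lit 0) (.e (nat_lit 6114) (nat_lit 332) (.e (nat_lit 1370) (nat_lit 103) (.e (nat_lit 294960) (nat_lit 13) (.e (nat_lit 393238) (nat_lit 17) (.e (nat_lit 7099) (nat_lit 380) (.e (nat_lit 164354) (nat_lit 246) .nil))))))) (.g (nat_lit 4) .nil .nil)))) (.nd (nat_lit 5) 
(.lf (nat_lit 411) (.g (nat_lit 2633) (.e (nat_lit 59) (nat_lit 0) (.e (nat_lit 1859) (nat_lit 124) (.e (nat_lit 557109) (nat_lit 15) (.e (nat_lit 188452) (nat_lit 23) (.e (nat_lit 204846) (nat_lit 24) (.e (nat_lit 319504) (nat_lit 10) (.e (nat_lit 7936) (nat_lit 312) .nil))))))) (.g (nat_lit 6) .nil .nil))) 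
(.lf (nat_lit 443) (.g (nat_lit 2032) (.e (nat_lit 60) (nat_lit 0) (.e (nat_lit 1849) (nat_lit 124) (.e (nat_lit 557107) (nat_lit 15) (.e (nat_lit 188447) (nat_lit 22) (.e (nat_lit 196661) (nat_lit 12) (.e (nat_lit 57721) (nat_lit 177) (.e (nat_lit 57863) (nat_lit 256) .nil))))))) (.g (nat_lit 0) .nil .nil)))))) (.nd (nat_lit 3) (.nd (nat_lit 4) (.nd (nat_lit 5) 
(.lf (nat_lit 391) (.g (nat_lit 2202) (.e (nat_lit 59) (nat_lit 0) (.e (nat_lit 1859) (nat_lit 124) (.e (nat_lit 557107) (nat_lit 15) (.e (nat_lit 188450) (nat_lit 23) (.e (nat_lit 204819) (nat_lit 17) (.e (nat_lit 6218) (nat_lit 333) (.e (nat_lit 57864) (nat_lit 256) .nil))))))) (.g (nat_lit 7) .nil .nil))) 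
(.lf (nat_lit 423) (.g (nat_lit 2533) (.e (nat_lit 59) (nat_lit 0) (.e (nat_lit 2030) (nat_lit 140) (.e (nat_lit 688177) (nat_lit 16) (.e (nat_lit 65571) (nat_lit 3) (.e (nat_lit 98381) (nat_lit 31) .nil))))) .nil))) (.nd (nat_lit 5) 
(.lf (nat_lit 407) (.g (nat_lit 4561) (.e (nat_lit 59) (nat_lit 0) (.e (nat_lit 1859) (nat_lit 124) (.e (nat_lit 557109) (nat_lit 15) (.e (nat_lit 188452) (nat_lit 23) (.e (nat_lit 204846) (nat_lit 24) (.e (nat_lit 319502) (nat_lit 10) (.e (nat_lit 5693) (nat_lit 312) .nil))))))) (.g (nat_lit 5) .nil .nil))) 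
(.lf (nat_lit 439) (.g (nat_lit 2702) (.e (nat_lit 60) (nat_lit 0) (.e (nat_lit 1849) (nat_lit 124) (.e (nat_lit 557097) (nat_lit 13) (.e (nat_lit 172097) (nat_lit 9) (.e (nat_lit 426140) (nat_lit 3) (.e (nat_lit 204821) (nat_lit 17) (.e (nat_lit 6206) (nat_lit 333) (.e (nat_lit 57863) (nat_lit 256) .nil)))))))) (.g (nat_lit 0) .nil .nil))))) (.nd (nat_lit 4) (.nd (nat_lit 5) 
(.lf (nat_lit 399) (.g (nat_lit 3448) (.e (nat_lit 59) (nat_lit 0) (.e (nat_lit 1859) (nat_lit 124) (.e (nat_lit 557109) (nat_lit 15) (.e (nat_lit 188452) (nat_lit 23) (.e (nat_lit 204819) (nat_lit 17) (.e (nat_lit 6218) (nat_lit 333) (.e (nat_lit 57862) (nat_lit 256) .nil))))))) (.g (nat_lit 6) .nil .nil))) 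
(.lf (nat_lit 431) (.g (nat_lit 2921) (.e (nat_lit 59) (nat_lit 0) (.e (nat_lit 6988) (nat_lit 377) (.e (nat_lit 1370) (nat_lit 103) (.e (nat_lit 294960) (nat_lit 13) (.e (nat_lit 393260) (nat_lit 21) (.e (nat_lit 409623) (nat_lit 10) (.e (nat_lit 5293) (nat_lit 298) .nil))))))) (.g (nat_lit 0) .nil .nil)))) (.nd (nat_lit 5) 
(.lf (nat_lit 415) (.g (nat_lit 4035) (.e (nat_lit 59) (nat_lit 0) (.e (nat_lit 1859) (nat_lit 124) (.e (nat_lit 557109) (nat_lit 15) (.e (nat_lit 188452) (nat_lit 23) (.e (nat_lit 204846) (nat_lit 24) (.e (nat_lit 319505) (nat_lit 10) (.e (nat_lit 5714) (nat_lit 312) .nil))))))) (.g (nat_lit 0) .nil .nil))) 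
(.lf (nat_lit 447) (.g (nat_lit 1998) (.e (nat_lit 60) (nat_lit 0) (.e (nat_lit 1849) (nat_lit 124) (.e (nat_lit 557107) (nat_lit 15) (.e (nat_lit 188450) (nat_lit 23) (.e (nat_lit 204821) (nat_lit 17) (.e (nat_lit 6206) (nat_lit 333) (.e (nat_lit 57865) (nat_lit 256) .nil))))))) (.g (nat_lit 0) .nil .nil)))))))))

noncomputable def tv007 : DT := (.nd (nat_lit 0) (.nd (nat_lit 1) (.nd (nat_lit 2) (.nd (nat_lit 3) (.nd (nat_lit 4) (.nd (nat_lit 5) 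
(.lf (nat_lit 448) (.g (nat_lit 2209) (.e (nat_lit 60) (nat_lit 0) (.e (nat_lit 1849) (nat_lit 124) (.e (nat_lit 557108) (nat_lit 15) (.e (nat_lit 188449) (nat_lit 22) (.e (nat_lit 196661) (nat_lit 12) (.e (nat_lit 57721) (nat_lit 177) (.e (nat_lit 57863) (nat_lit 256) .nil))))))) (.g (nat_lit 0) .nil .nil))) 
(.lf (nat_lit 480) (.g (nat_lit 3173) (.e (nat_lit 60) (nat_lit 0) (.e (nat_lit 1858) (nat_lit 124) (.e (nat_lit 557107) (nat_lit 15) (.e (nat_lit 188450) (nat_lit 23) (.e (nat_lit 204819) (nat_lit 17) (.e (nat_lit 6218) (nat_lit 333) (.e (nat_lit 57864) (nat_lit 256) .nil))))))) (.g (nat_lit 4) .nil .nil)))) (.nd (nat_lit 5) 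
(.lf (nat_lit 464) (.g (nat_lit 3271) (.e (nat_lit 60) (nat_lit 0) (.e (nat_lit 1849) (nat_lit 124) (.e (nat_lit 557109) (nat_lit 15) (.e (nat_lit 188452) (nat_lit 23) (.e (nat_lit 204821) (nat_lit 17) (.e (nat_lit 6206) (nat_lit 333) (.e (nat_lit 57862) (nat_lit 256) .nil))))))) (.g (nat_lit 6) .nil .nil))) 
(.lf (nat_lit 496) (.g (nat_lit 3946) (.e (nat_lit 60) (nat_lit 0) (.e (nat_lit 1859) (nat_lit 124) (.e (nat_lit 557098) (nat_lit 13) (.e (nat_lit 172115) (nat_lit 10) (.e (nat_lit 434231) (nat_lit 23) (.e (nat_lit 532490) (nat_lit 0) (.e (nat_lit 6206) (nat_lit 333) (.e (nat_lit 57863) (nat_lit 256) .nil)))))))) (.g (nat_lit 0) .nil .nil))))) (.nd (nat_lit 4) (.nd (nat_lit 5) 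
(.lf (nat_lit 456) (.g (nat_lit 4694) (.e (nat_lit 60) (nat_lit 0) (.e (nat_lit 1849) (nat_lit 124) (.e (nat_lit 557108) (nat_lit 15) (.e (nat_lit 188452) (nat_lit 23) (.e (nat_lit 204846) (nat_lit 24) (.e (nat_lit 319506) (nat_lit 10) (.e (nat_lit 5721) (nat_lit 312) .nil))))))) (.g (nat_lit 6) .nil .nil))) 
(.lf (nat_lit 488) (.g (nat_lit 3882) (.e (nat_lit 60) (nat_lit 0) (.e (nat_lit 1858) (nat_lit 124) (.e (nat_lit 557109) (nat_lit 15) (.e (nat_lit 188452) (nat_lit 23) (.e (nat_lit 204821) (nat_lit 17) .nil))))) .nil))) (.nd (nat_lit 5) 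
(.lf (nat_lit 472) (.g (nat_lit 4019) (.e (nat_lit 60) (nat_lit 0) (.e (nat_lit 1858) (nat_lit 124) (.e (nat_lit 557101) (nat_lit 13) (.e (nat_lit 172115) (nat_lit 10) (.e (nat_lit 434231) (nat_lit 23) (.e (nat_lit 532490) (nat_lit 0) (.e (nat_lit 6206) (nat_lit 333) (.e (nat_lit 57865) (nat_lit 256) .nil)))))))) (.g (nat_lit 0) .nil .nil))) 
(.lf (nat_lit 504) (.g (nat_lit 4585) (.e (nat_lit 60) (nat_lit 0) (.e (nat_lit 1859) (nat_lit 124) (.e (nat_lit 557109) (nat_lit 15) (.e (nat_lit 188449) (nat_lit 22) (.e (nat_lit 196677) (nat_lit 16) .nil))))) .nil))))) (.nd (nat_lit 3) (.nd (nat_lit 4) (.nd (nat_lit 5) 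
(.lf (nat_lit 452) (.g (nat_lit 2702) (.e (nat_lit 60) (nat_lit 0) (.e (nat_lit 1849) (nat_lit 124) (.e (nat_lit 557108) (nat_lit 15) (.e (nat_lit 188452) (nat_lit 23) (.e (nat_lit 204821) (nat_lit 17) (.e (nat_lit 6206) (nat_lit 333) (.e (nat_lit 57865) (nat_lit 256) .nil))))))) (.g (nat_lit 0) .nil .nil))) 
(.lf (nat_lit 484) (.g (nat_lit 3055) (.e (nat_lit 60) (nat_lit 0) (.e (nat_lit 1858) (nat_lit 124) (.e (nat_lit 557107) (nat_lit 15) (.e (nat_lit 188450) (nat_lit 23) (.e (nat_lit 204821) (nat_lit 17) (.e (nat_lit 6206) (nat_lit 333) (.e (nat_lit 57865) (nat_lit 256) .nil))))))) (.g (nat_lit 4) .nil .nil)))) (.nd (nat_lit 5) 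
(.lf (nat_lit 468) (.g (nat_lit 4416) (.e (nat_lit 60) (nat_lit 0) (.e (nat_lit 1858) (nat_lit 124) (.e (nat_lit 557100) (nat_lit 13) (.e (nat_lit 172106) (nat_lit 10) (.e (nat_lit 434231) (nat_lit 23) (.e (nat_lit 532490) (nat_lit 0) (.e (nat_lit 6206) (nat_lit 333) (.e (nat_lit 57865) (nat_lit 256) .nil)))))))) (.g (nat_lit 0) .nil .nil))) 
(.lf (nat_lit 500) (.g (nat_lit 2162) (.e (nat_lit 60) (nat_lit 0) (.e (nat_lit 1859) (nat_lit 124) (.e (nat_lit 557107) (nat_lit 15) (.e (nat_lit 188450) (nat_lit 23) (.e (nat_lit 204821) (nat_lit 17) (.e (nat_lit 6206) (nat_lit 333) (.e (nat_lit 57863) (nat_lit 256) .nil))))))) (.g (nat_lit 0) .nil .nil))))) (.nd (nat_lit 4) (.nd (nat_lit 5) 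
(.lf (nat_lit 460) (.g (nat_lit 2803) (.e (nat_lit 60) (nat_lit 0) (.e (nat_lit 1849) (nat_lit 124) (.e (nat_lit 557109) (nat_lit 15) (.e (nat_lit 188449) (nat_lit 22) (.e (nat_lit 196661) (nat_lit 12) (.e (nat_lit 57721) (nat_lit 177) (.e (nat_lit 57863) (nat_lit 256) .nil))))))) (.g (nat_lit 5) .nil .nil))) 
(.lf (nat_lit 492) (.g (nat_lit 3374) (.e (nat_lit 60) (nat_lit 0) (.e (nat_lit 1859) (nat_lit 124) (.e (nat_lit 557098) (nat_lit 13) (.e (nat_lit 172097) (nat_lit 9) (.e (nat_lit 426125) (nat_lit 2) (.e (nat_lit 196661) (nat_lit 12) (.e (nat_lit 57721) (nat_lit 177) (.e (nat_lit 57863) (nat_lit 256) .nil)))))))) (.g (nat_lit 0) .nil .nil)))) (.nd (nat_lit 5) 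
(.lf (nat_lit 476) (.g (nat_lit 2983) (.e (nat_lit 60) (nat_lit 0) (.e (nat_lit 1858) (nat_lit 124) (.e (nat_lit 557107) (nat_lit 15) (.e (nat_lit 188447) (nat_lit 22) (.e (nat_lit 196661) (nat_lit 12) .nil))))) .nil)) 
(.lf (nat_lit 508) (.g (nat_lit 3285) (.e (nat_lit 60) (nat_lit 0) (.e (nat_lit 1859) (nat_lit 124) (.e (nat_lit 557109) (nat_lit 15) (.e (nat_lit 188452) (nat_lit 23) (.e (nat_lit 204821) (nat_lit 17) (.e (nat_lit 6206) (nat_lit 333) (.e (nat_lit 57863) (nat_lit 256) .nil))))))) (.g (nat_lit 0) .nil .nil))))))) (.nd (nat_lit 2) (.nd (nat_lit 3) (.nd (nat_lit 4) (.nd (nat_lit 5) 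
(.lf (nat_lit 450) (.g (nat_lit 3116) (.e (nat_lit 60) (nat_lit 0) (.e (nat_lit 1849) (nat_lit 124) (.e (nat_lit 557108) (nat_lit 15) (.e (nat_lit 188452) (nat_lit 23) (.e (nat_lit 204819) (nat_lit 17) (.e (nat_lit 6218) (nat_lit 333) (.e (nat_lit 57863) (nat_lit 256) .nil))))))) (.g (nat_lit 0) .nil .nil))) 
(.lf (nat_lit 482) (.g (nat_lit 3057) (.e (nat_lit 60) (nat_lit 0) (.e (nat_lit 1858) (nat_lit 124) (.e (nat_lit 557107) (nat_lit 15) (.e (nat_lit 188450) (nat_lit 23) (.e (nat_lit 204821) (nat_lit 17) (.e (nat_lit 6206) (nat_lit 333) (.e (nat_lit 57863) (nat_lit 256) .nil))))))) (.g (nat_lit 4) .nil .nil)))) (.nd (nat_lit 5) 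
(.lf (nat_lit 466) (.g (nat_lit 3258) (.e (nat_lit 60) (nat_lit 0) (.e (nat_lit 1849) (nat_lit 124) (.e (nat_lit 557109) (nat_lit 15) (.e (nat_lit 188452) (nat_lit 23) (.e (nat_lit 204821) (nat_lit 17) (.e (nat_lit 6206) (nat_lit 333) (.e (nat_lit 57864) (nat_lit 256) .nil))))))) (.g (nat_lit 6) .nil .nil))) 
(.lf (nat_lit 498) (.g (nat_lit 2185) (.e (nat_lit 60) (nat_lit 0) (.e (nat_lit 1859) (nat_lit 124) (.e (nat_lit 557107) (nat_lit 15) (.e (nat_lit 188447) (nat_lit 22) (.e (nat_lit 196661) (nat_lit 12) (.e (nat_lit 57721) (nat_lit 177) (.e (nat_lit 57865) (nat_lit 256) .nil))))))) (.g (nat_lit 0) .nil .nil))))) (.nd (nat_lit 4) (.nd (nat_lit 5) 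
(.lf (nat_lit 458) (.g (nat_lit 4697) (.e (nat_lit 60) (nat_lit 0) (.e (nat_lit 1849) (nat_lit 124) (.e (nat_lit 557108) (nat_lit 15) (.e (nat_lit 188452) (nat_lit 23) (.e (nat_lit 204846) (nat_lit 24) (.e (nat_lit 319506) (nat_lit 10) (.e (nat_lit 5723) (nat_lit 312) .nil))))))) (.g (nat_lit 7) .nil .nil))) 
(.lf (nat_lit 490) (.g (nat_lit 1710) (.e (nat_lit 60) (nat_lit 0) (.e (nat_lit 1858) (nat_lit 124) (.e (nat_lit 557109) (nat_lit 15) (.e (nat_lit 188458) (nat_lit 25) .nil)))) .nil))) (.nd (nat_lit 5) 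
(.lf (nat_lit 474) (.g (nat_lit 3341) (.e (nat_lit 60) (nat_lit 0) (.e (nat_lit 1858) (nat_lit 124) (.e (nat_lit 557105) (nat_lit 14) (.e (nat_lit 180252) (nat_lit 10) (.e (nat_lit 573489) (nat_lit 14) (.e (nat_lit 73755) (nat_lit 8) (.e (nat_lit 557090) (nat_lit 12) (.e (nat_lit 164006) (nat_lit 41) (.e (nat_lit 671488) (nat_lit 9) .nil))))))))) (.g (nat_lit 5) .nil .nil))) 
(.lf (nat_lit 506) (.g (nat_lit 3023) (.e (nat_lit 60) (nat_lit 0) (.e (nat_lit 1859) (nat_lit 124) (.e (nat_lit 557109) (nat_lit 15) (.e (nat_lit 188450) (nat_lit 23) (.e (nat_lit 204821) (nat_lit 17) .nil))))) .nil))))) (.nd (nat_lit 3) (.nd (nat_lit 4) (.nd (nat_lit 5) 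
(.lf (nat_lit 454) (.g (nat_lit 1444) (.e (nat_lit 60) (nat_lit 0) (.e (nat_lit 1849) (nat_lit 124) (.e (nat_lit 557108) (nat_lit 15) (.e (nat_lit 188452) (nat_lit 23) (.e (nat_lit 204846) (nat_lit 24) (.e (nat_lit 319504) (nat_lit 10) (.e (nat_lit 7936) (nat_lit 312) .nil))))))) (.g (nat_lit 6) .nil .nil))) 
(.lf (nat_lit 486) (.g (nat_lit 3018) (.e (nat_lit 60) (nat_lit 0) (.e (nat_lit 1858) (nat_lit 124) (.e (nat_lit 557109) (nat_lit 15) (.e (nat_lit 188452) (nat_lit 23) (.e (nat_lit 204816) (nat_lit 17) .nil))))) .nil))) (.nd (nat_lit 5) 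
(.lf (nat_lit 470) (.g (nat_lit 1871) (.e (nat_lit 60) (nat_lit 0) (.e (nat_lit 1858) (nat_lit 124) (.e (nat_lit 557101) (nat_lit 13) (.e (nat_lit 172115) (nat_lit 10) (.e (nat_lit 434231) (nat_lit 23) .nil))))) .nil)) 
(.lf (nat_lit 502) (.g (nat_lit 2901) (.e (nat_lit 60) (nat_lit 0) (.e (nat_lit 1859) (nat_lit 124) (.e (nat_lit 557109) (nat_lit 15) (.e (nat_lit 188449) (nat_lit 22) (.e (nat_lit 196661) (nat_lit 12) (.e (nat_lit 57721) (nat_lit 177) (.e (nat_lit 57863) (nat_lit 256) .nil))))))) (.g (nat_lit 0) .nil .nil))))) (.nd (nat_lit 4) (.nd (nat_lit 5) 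
(.lf (nat_lit 462) (.g (nat_lit 2812) (.e (nat_lit 60) (nat_lit 0) (.e (nat_lit 1849) (nat_lit 124) (.e (nat_lit 557109) (nat_lit 15) (.e (nat_lit 188449) (nat_lit 22) (.e (nat_lit 196661) (nat_lit 12) (.e (nat_lit 57721) (nat_lit 177) (.e (nat_lit 57865) (nat_lit 256) .nil))))))) (.g (nat_lit 5) .nil .nil))) 
(.lf (nat_lit 494) (.g (nat_lit 3273) (.e (nat_lit 60) (nat_lit 0) (.e (nat_lit 1859) (nat_lit 124) (.e (nat_lit 557098) (nat_lit 13) (.e (nat_lit 172097) (nat_lit 9) (.e (nat_lit 426140) (nat_lit 3) (.e (nat_lit 204821) (nat_lit 17) (.e (nat_lit 6206) (nat_lit 333) (.e (nat_lit 57863) (nat_lit 256) .nil)))))))) (.g (nat_lit 0) .nil .nil)))) (.nd (nat_lit 5) 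
(.lf (nat_lit 478) (.g (nat_lit 3118) (.e (nat_lit 60) (nat_lit 0) (.e (nat_lit 1858) (nat_lit 124) (.e (nat_lit 557107) (nat_lit 15) (.e (nat_lit 188450) (nat_lit 23) (.e (nat_lit 204819) (nat_lit 17) (.e (nat_lit 6218) (nat_lit 333) (.e (nat_lit 57862) (nat_lit 256) .nil))))))) (.g (nat_lit 4) .nil .nil))) 
(.lf (nat_lit 510) (.g (nat_lit 2424) (.e (nat_lit 60) (nat_lit 0) (.e (nat_lit 1859) (nat_lit 124) (.e (nat_lit 557109) (nat_lit 15) (.e (nat_lit 188452) (nat_lit 23) (.e (nat_lit 204845) (nat_lit 24) .nil))))) .nil))))))) (.nd (nat_lit 1) (.nd (nat_lit 2) (.nd (nat_lit 3) (.nd (nat_lit 4) (.nd (nat_lit 5) 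
(.lf (nat_lit 449) (.g (nat_lit 2220) (.e (nat_lit 60) (nat_lit 0) (.e (nat_lit 1849) (nat_lit 124) (.e (nat_lit 557108) (nat_lit 15) (.e (nat_lit 188449) (nat_lit 22) (.e (nat_lit 196661) (nat_lit 12) (.e (nat_lit 57721) (nat_lit 177) (.e (nat_lit 57865) (nat_lit 256) .nil))))))) (.g (nat_lit 0) .nil .nil))) 
(.lf (nat_lit 481) (.g (nat_lit 3063) (.e (nat_lit 60) (nat_lit 0) (.e (nat_lit 1858) (nat_lit 124) (.e (nat_lit 557107) (nat_lit 15) (.e (nat_lit 188450) (nat_lit 23) (.e (nat_lit 204821) (nat_lit 17) (.e (nat_lit 6206) (nat_lit 333) (.e (nat_lit 57862) (nat_lit 256) .nil))))))) (.g (nat_lit 4) .nil .nil)))) (.nd (nat_lit 5) 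
(.lf (nat_lit 465) (.g (nat_lit 3257) (.e (nat_lit 60) (nat_lit 0) (.e (nat_lit 1849) (nat_lit 124) (.e (nat_lit 557109) (nat_lit 15) (.e (nat_lit 188452) (nat_lit 23) (.e (nat_lit 204821) (nat_lit 17) (.e (nat_lit 6206) (nat_lit 333) (.e (nat_lit 57863) (nat_lit 256) .nil))))))) (.g (nat_lit 6) .nil .nil))) 
(.lf (nat_lit 497) (.g (nat_lit 2187) (.e (nat_lit 60) (nat_lit 0) (.e (nat_lit 1859) (nat_lit 124) (.e (nat_lit 557107) (nat_lit 15) (.e (nat_lit 188447) (nat_lit 22) (.e (nat_lit 196661) (nat_lit 12) (.e (nat_lit 57721) (nat_lit 177) (.e (nat_lit 57863) (nat_lit 256) .nil))))))) (.g (nat_lit 0) .nil .nil))))) (.nd (nat_lit 4) (.nd (nat_lit 5) 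
(.lf (nat_lit 457) (.g (nat_lit 4857) (.e (nat_lit 60) (nat_lit 0) (.e (nat_lit 1849) (nat_lit 124) (.e (nat_lit 557108) (nat_lit 15) (.e (nat_lit 188452) (nat_lit 23) (.e (nat_lit 204846) (nat_lit 24) (.e (nat_lit 319506) (nat_lit 10) (.e (nat_lit 5722) (nat_lit 312) .nil))))))) (.g (nat_lit 0) .nil .nil))) 
(.lf (nat_lit 489) (.g (nat_lit 4663) (.e (nat_lit 60) (nat_lit 0) (.e (nat_lit 1858) (nat_lit 124) (.e (nat_lit 557109) (nat_lit 15) (.e (nat_lit 188452) (nat_lit 23) (.e (nat_lit 204849) (nat_lit 25) (.e (nat_lit 327705) (nat_lit 10) (.e (nat_lit 5723) (nat_lit 312) .nil))))))) (.g (nat_lit 6) .nil .nil)))) (.nd (nat_lit 5) 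
(.lf (nat_lit 473) (.g (nat_lit 2681) (.e (nat_lit 60) (nat_lit 0) (.e (nat_lit 1858) (nat_lit 124) (.e (nat_lit 557105) (nat_lit 14) (.e (nat_lit 180252) (nat_lit 10) (.e (nat_lit 573489) (nat_lit 14) .nil))))) .nil)) 
(.lf (nat_lit 505) (.g (nat_lit 2891) (.e (nat_lit 60) (nat_lit 0) (.e (nat_lit 1859) (nat_lit 124) (.e (nat_lit 557109) (nat_lit 15) (.e (nat_lit 188450) (nat_lit 23) (.e (nat_lit 204819) (nat_lit 17) .nil))))) .nil))))) (.nd (nat_lit 3) (.nd (nat_lit 4) (.nd (nat_lit 5) 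
(.lf (nat_lit 453) (.g (nat_lit 1909) (.e (nat_lit 60) (nat_lit 0) (.e (nat_lit 1849) (nat_lit 124) (.e (nat_lit 557108) (nat_lit 15) (.e (nat_lit 188452) (nat_lit 23) (.e (nat_lit 204846) (nat_lit 24) (.e (nat_lit 319504) (nat_lit 10) (.e (nat_lit 5712) (nat_lit 312) .nil))))))) (.g (nat_lit 6) .nil .nil))) 
(.lf (nat_lit 485) (.g (nat_lit 3658) (.e (nat_lit 60) (nat_lit 0) (.e (nat_lit 1858) (nat_lit 124) (.e (nat_lit 557109) (nat_lit 15) (.e (nat_lit 188449) (nat_lit 22) (.e (nat_lit 196661) (nat_lit 12) .nil))))) .nil))) (.nd (nat_lit 5) 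
(.lf (nat_lit 469) (.g (nat_lit 3398) (.e (nat_lit 60) (nat_lit 0) (.e (nat_lit 1858) (nat_lit 124) (.e (nat_lit 557101) (nat_lit 13) (.e (nat_lit 172097) (nat_lit 9) (.e (nat_lit 426140) (nat_lit 3) (.e (nat_lit 204821) (nat_lit 17) (.e (nat_lit 6206) (nat_lit 333) (.e (nat_lit 57865) (nat_lit 256) .nil)))))))) (.g (nat_lit 0) .nil .nil))) 
(.lf (nat_lit 501) (.g (nat_lit 2723) (.e (nat_lit 60) (nat_lit 0) (.e (nat_lit 1859) (nat_lit 124) (.e (nat_lit 557109) (nat_lit 15) (.e (nat_lit 188447) (nat_lit 22) (.e (nat_lit 196661) (nat_lit 12) .nil))))) .nil)))) (.nd (nat_lit 4) (.nd (nat_lit 5) 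
(.lf (nat_lit 461) (.g (nat_lit 2821) (.e (nat_lit 60) (nat_lit 0) (.e (nat_lit 1849) (nat_lit 124) (.e (nat_lit 557109) (nat_lit 15) (.e (nat_lit 188449) (nat_lit 22) (.e (nat_lit 196661) (nat_lit 12) (.e (nat_lit 57721) (nat_lit 177) (.e (nat_lit 57864) (nat_lit 256) .nil))))))) (.g (nat_lit 5) .nil .nil))) 
(.lf (nat_lit 493) (.g (nat_lit 3381) (.e (nat_lit 60) (nat_lit 0) (.e (nat_lit 1859) (nat_lit 124) (.e (nat_lit 557098) (nat_lit 13) (.e (nat_lit 172097) (nat_lit 9) (.e (nat_lit 426125) (nat_lit 2) (.e (nat_lit 196661) (nat_lit 12) (.e (nat_lit 57721) (nat_lit 177) (.e (nat_lit 57865) (nat_lit 256) .nil)))))))) (.g (nat_lit 0) .nil .nil)))) (.nd (nat_lit 5) 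
(.lf (nat_lit 477) (.g (nat_lit 2134) (.e (nat_lit 60) (nat_lit 0) (.e (nat_lit 1858) (nat_lit 124) (.e (nat_lit 557107) (nat_lit 15) (.e (nat_lit 188450) (nat_lit 23) .nil)))) .nil)) 
(.lf (nat_lit 509) (.g (nat_lit 3261) (.e (nat_lit 60) (nat_lit 0) (.e (nat_lit 1859) (nat_lit 124) (.e (nat_lit 557109) (nat_lit 15) (.e (nat_lit 188452) (nat_lit 23) (.e (nat_lit 204821) (nat_lit 17) (.e (nat_lit 6206) (nat_lit 333) (.e (nat_lit 57865) (nat_lit 256) .nil))))))) (.g (nat_lit 0) .nil .nil))))))) (.nd (nat_lit 2) (.nd (nat_lit 3) (.nd (nat_lit 4) (.nd (nat_lit 5) 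
(.lf (nat_lit 451) (.g (nat_lit 2726) (.e (nat_lit 60) (nat_lit 0) (.e (nat_lit 1849) (nat_lit 124) (.e (nat_lit 557108) (nat_lit 15) (.e (nat_lit 188452) (nat_lit 23) (.e (nat_lit 204821) (nat_lit 17) (.e (nat_lit 6206) (nat_lit 333) (.e (nat_lit 57863) (nat_lit 256) .nil))))))) (.g (nat_lit 0) .nil .nil))) 
(.lf (nat_lit 483) (.g (nat_lit 3066) (.e (nat_lit 60) (nat_lit 0) (.e (nat_lit 1858) (nat_lit 124) (.e (nat_lit 557107) (nat_lit 15) (.e (nat_lit 188450) (nat_lit 23) (.e (nat_lit 204821) (nat_lit 17) (.e (nat_lit 6206) (nat_lit 333) (.e (nat_lit 57864) (nat_lit 256) .nil))))))) (.g (nat_lit 4) .nil .nil)))) (.nd (nat_lit 5) 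
(.lf (nat_lit 467) (.g (nat_lit 3231) (.e (nat_lit 60) (nat_lit 0) (.e (nat_lit 1849) (nat_lit 124) (.e (nat_lit 557109) (nat_lit 15) (.e (nat_lit 188452) (nat_lit 23) (.e (nat_lit 204821) (nat_lit 17) (.e (nat_lit 6206) (nat_lit 333) (.e (nat_lit 57865) (nat_lit 256) .nil))))))) (.g (nat_lit 5) .nil .nil))) 
(.lf (nat_lit 499) (.g (nat_lit 2409) (.e (nat_lit 60) (nat_lit 0) (.e (nat_lit 1859) (nat_lit 124) (.e (nat_lit 557107) (nat_lit 15) (.e (nat_lit 188450) (nat_lit 23) (.e (nat_lit 204819) (nat_lit 17) (.e (nat_lit 6218) (nat_lit 333) (.e (nat_lit 57863) (nat_lit 256) .nil))))))) (.g (nat_lit 0) .nil .nil))))) (.nd (nat_lit 4) (.nd (nat_lit 5) 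
(.lf (nat_lit 459) (.g (nat_lit 2827) (.e (nat_lit 60) (nat_lit 0) (.e (nat_lit 1849) (nat_lit 124) (.e (nat_lit 557109) (nat_lit 15) (.e (nat_lit 188449) (nat_lit 22) (.e (nat_lit 196661) (nat_lit 12) (.e (nat_lit 57721) (nat_lit 177) (.e (nat_lit 57862) (nat_lit 256) .nil))))))) (.g (nat_lit 5) .nil .nil))) 
(.lf (nat_lit 491) (.g (nat_lit 2495) (.e (nat_lit 60) (nat_lit 0) (.e (nat_lit 1858) (nat_lit 124) (.e (nat_lit 557109) (nat_lit 15) (.e (nat_lit 188458) (nat_lit 25) (.e (nat_lit 245784) (nat_lit 9) .nil))))) .nil))) (.nd (nat_lit 5) 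
(.lf (nat_lit 475) (.g (nat_lit 3040) (.e (nat_lit 60) (nat_lit 0) (.e (nat_lit 1858) (nat_lit 124) (.e (nat_lit 557105) (nat_lit 14) (.e (nat_lit 180252) (nat_lit 10) (.e (nat_lit 573489) (nat_lit 14) (.e (nat_lit 73755) (nat_lit 8) (.e (nat_lit 557090) (nat_lit 12) (.e (nat_lit 164007) (nat_lit 41) (.e (nat_lit 671488) (nat_lit 9) .nil))))))))) (.g (nat_lit 4) .nil .nil))) 
(.lf (nat_lit 507) (.g (nat_lit 4054) (.e (nat_lit 60) (nat_lit 0) (.e (nat_lit 1859) (nat_lit 124) (.e (nat_lit 557109) (nat_lit 15) (.e (nat_lit 188452) (nat_lit 23) (.e (nat_lit 204819) (nat_lit 17) (.e (nat_lit 6218) (nat_lit 333) (.e (nat_lit 57863) (nat_lit 256) .nil))))))) (.g (nat_lit 0) .nil .nil)))))) (.nd (nat_lit 3) (.nd (nat_lit 4) (.nd (nat_lit 5) 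
(.lf (nat_lit 455) (.g (nat_lit 3053) (.e (nat_lit 60) (nat_lit 0) (.e (nat_lit 1849) (nat_lit 124) (.e (nat_lit 557108) (nat_lit 15) (.e (nat_lit 188452) (nat_lit 23) (.e (nat_lit 204846) (nat_lit 24) (.e (nat_lit 319505) (nat_lit 10) (.e (nat_lit 5712) (nat_lit 312) .nil))))))) (.g (nat_lit 0) .nil .nil))) 
(.lf (nat_lit 487) (.g (nat_lit 3938) (.e (nat_lit 60) (nat_lit 0) (.e (nat_lit 1858) (nat_lit 124) (.e (nat_lit 557109) (nat_lit 15) (.e (nat_lit 188452) (nat_lit 23) (.e (nat_lit 204819) (nat_lit 17) .nil))))) .nil))) (.nd (nat_lit 5) 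
(.lf (nat_lit 471) (.g (nat_lit 2961) (.e (nat_lit 60) (nat_lit 0) (.e (nat_lit 1858) (nat_lit 124) (.e (nat_lit 557101) (nat_lit 13) (.e (nat_lit 172115) (nat_lit 10) (.e (nat_lit 434231) (nat_lit 23) (.e (nat_lit 532486) (nat_lit 0) (.e (nat_lit 6218) (nat_lit 333) (.e (nat_lit 57864) (nat_lit 256) .nil)))))))) (.g (nat_lit 5) .nil .nil))) 
(.lf (nat_lit 503) (.g (nat_lit 2906) (.e (nat_lit 60) (nat_lit 0) (.e (nat_lit 1859) (nat_lit 124) (.e (nat_lit 557109) (nat_lit 15) (.e (nat_lit 188449) (nat_lit 22) (.e (nat_lit 196661) (nat_lit 12) (.e (nat_lit 57721) (nat_lit 177) (.e (nat_lit 57865) (nat_lit 256) .nil))))))) (.g (nat_lit 0) .nil .nil))))) (.nd (nat_lit 4) (.nd (nat_lit 5) 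
(.lf (nat_lit 463) (.g (nat_lit 3239) (.e (nat_lit 60) (nat_lit 0) (.e (nat_lit 1849) (nat_lit 124) (.e (nat_lit 557109) (nat_lit 15) (.e (nat_lit 188452) (nat_lit 23) (.e (nat_lit 204819) (nat_lit 17) .nil))))) .nil)) 
(.lf (nat_lit 495) (.g (nat_lit 3254) (.e (nat_lit 60) (nat_lit 0) (.e (nat_lit 1859) (nat_lit 124) (.e (nat_lit 557098) (nat_lit 13) (.e (nat_lit 172097) (nat_lit 9) (.e (nat_lit 426140) (nat_lit 3) (.e (nat_lit 204821) (nat_lit 17) (.e (nat_lit 6206) (nat_lit 333) (.e (nat_lit 57865) (nat_lit 256) .nil)))))))) (.g (nat_lit 0) .nil .nil)))) (.nd (nat_lit 5) 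
(.lf (nat_lit 479) (.g (nat_lit 3128) (.e (nat_lit 60) (nat_lit 0) (.e (nat_lit 1858) (nat_lit 124) (.e (nat_lit 557107) (nat_lit 15) (.e (nat_lit 188450) (nat_lit 23) (.e (nat_lit 204819) (nat_lit 17) (.e (nat_lit 6218) (nat_lit 333) (.e (nat_lit 57863) (nat_lit 256) .nil))))))) (.g (nat_lit 4) .nil .nil))) 
(.lf (nat_lit 511) (.g (nat_lit 4389) (.e (nat_lit 60) (nat_lit 0) (.e (nat_lit 1859) (nat_lit 124) (.e (nat_lit 557109) (nat_lit 15) (.e (nat_lit 188452) (nat_lit 23) (.e (nat_lit 204846) (nat_lit 24) (.e (nat_lit 319502) (nat_lit 10) (.e (nat_lit 5677) (nat_lit 312) .nil))))))) (.g (nat_lit 6) .nil .nil)))))))))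

noncomputable def tv008 : DT := (.nd (nat_lit 0) (.nd (nat_lit 1) (.nd (nat_lit 2) (.nd (nat_lit 3) (.nd (nat_lit 4) (.nd (nat_lit 5) 
(.lf (nat_lit 512) (.g (nat_lit 4236) (.e (nat_lit 60) (nat_lit 0) (.e (nat_lit 1859) (nat_lit 124) (.e (nat_lit 557109) (nat_lit 15) (.e (nat_lit 188452) (nat_lit 23) (.e (nat_lit 204846) (nat_lit 24) (.e (nat_lit 319502) (nat_lit 10) (.e (nat_lit 5718) (nat_lit 312) .nil))))))) (.g (nat_lit 6) .nil .nil))) 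
(.lf (nat_lit 544) (.g (nat_lit 1833) (.e (nat_lit 61) (nat_lit 0) (.e (nat_lit 1349) (nat_lit 102) (.e (nat_lit 286761) (nat_lit 13) (.e (nat_lit 393234) (nat_lit 17) (.e (nat_lit 7593) (nat_lit 407) (.e (nat_lit 73728) (nat_lit 0) (.e (nat_lit 6848) (nat_lit 371) .nil))))))) (.g (nat_lit 4) .nil .nil)))) (.nd (nat_lit 5) 
(.lf (nat_lit 528) (.g (nat_lit 3256) (.e (nat_lit 60) (nat_lit 0) (.e (nat_lit 2030) (nat_lit 140) (.e (nat_lit 688178) (nat_lit 16) (.e (nat_lit 65571) (nat_lit 3) (.e (nat_lit 98359) (nat_lit 26) (.e (nat_lit 426211) (nat_lit 9) (.e (nat_lit 426125) (nat_lit 2) (.e (nat_lit 204544) (nat_lit 0) .nil)))))))) (.g (nat_lit 5) .nil .nil))) 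
(.lf (nat_lit 560) (.g (nat_lit 1410) (.e (nat_lit 61) (nat_lit 0) (.e (nat_lit 1849) (nat_lit 124) (.e (nat_lit 557108) (nat_lit 15) (.e (nat_lit 188452) (nat_lit 23) (.e (nat_lit 204846) (nat_lit 24) (.e (nat_lit 319504) (nat_lit 10) (.e (nat_lit 7936) (nat_lit 312) .nil))))))) (.g (nat_lit 6) .nil .nil))))) (.nd (nat_lit 4) (.nd (nat_lit 5) 
(.lf (nat_lit 520) (.g (nat_lit 4218) (.e (nat_lit 60) (nat_lit 0) (.e (nat_lit 1859) (nat_lit 124) (.e (nat_lit 557109) (nat_lit 15) (.e (nat_lit 188452) (nat_lit 23) (.e (nat_lit 204848) (nat_lit 25) (.e (nat_lit 327705) (nat_lit 10) (.e (nat_lit 5723) (nat_lit 312) .nil))))))) (.g (nat_lit 4) .nil .nil))) 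
(.lf (nat_lit 552) (.g (nat_lit 2219) (.e (nat_lit 61) (nat_lit 0) (.e (nat_lit 1849) (nat_lit 124) (.e (nat_lit 557107) (nat_lit 15) (.e (nat_lit 188447) (nat_lit 22) (.e (nat_lit 196661) (nat_lit 12) (.e (nat_lit 57722) (nat_lit 178) (.e (nat_lit 123164) (nat_lit 256) .nil))))))) (.g (nat_lit 0) .nil .nil)))) (.nd (nat_lit 5) 
(.lf (nat_lit 536) (.g (nat_lit 2320) (.e (nat_lit 61) (nat_lit 0) (.e (nat_lit 1348) (nat_lit 102) (.e (nat_lit 286761) (nat_lit 13) (.e (nat_lit 393234) (nat_lit 17) (.e (nat_lit 7593) (nat_lit 407) .nil))))) .nil)) 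
(.lf (nat_lit 568) (.g (nat_lit 3461) (.e (nat_lit 61) (nat_lit 0) (.e (nat_lit 1849) (nat_lit 124) (.e (nat_lit 557109) (nat_lit 15) (.e (nat_lit 188452) (nat_lit 23) (.e (nat_lit 204821) (nat_lit 17) (.e (nat_lit 6223) (nat_lit 334) (.e (nat_lit 123165) (nat_lit 256) .nil))))))) (.g (nat_lit 6) .nil .nil)))))) (.nd (nat_lit 3) (.nd (nat_lit 4) (.nd (nat_lit 5) 
(.lf (nat_lit 516) (.g (nat_lit 3379) (.e (nat_lit 60) (nat_lit 0) (.e (nat_lit 1859) (nat_lit 124) (.e (nat_lit 557109) (nat_lit 15) (.e (nat_lit 188452) (nat_lit 23) (.e (nat_lit 204846) (nat_lit 24) (.e (nat_lit 319505) (nat_lit 10) (.e (nat_lit 5712) (nat_lit 312) .nil))))))) (.g (nat_lit 0) .nil .nil))) 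
(.lf (nat_lit 548) (.g (nat_lit 2882) (.e (nat_lit 61) (nat_lit 0) (.e (nat_lit 1849) (nat_lit 124) (.e (nat_lit 557097) (nat_lit 13) (.e (nat_lit 172097) (nat_lit 9) (.e (nat_lit 426140) (nat_lit 3) (.e (nat_lit 204821) (nat_lit 17) (.e (nat_lit 6223) (nat_lit 334) (.e (nat_lit 123164) (nat_lit 256) .nil)))))))) (.g (nat_lit 0) .nil .nil)))) (.nd (nat_lit 5) 
(.lf (nat_lit 532) (.g (nat_lit 3507) (.e (nat_lit 60) (nat_lit 0) (.e (nat_lit 6114) (nat_lit 332) (.e (nat_lit 1370) (nat_lit 103) (.e (nat_lit 294960) (nat_lit 13) (.e (nat_lit 393238) (nat_lit 17) (.e (nat_lit 7107) (nat_lit 380) (.e (nat_lit 164364) (nat_lit 246) .nil))))))) (.g (nat_lit 5) .nil .nil))) 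
(.lf (nat_lit 564) (.g (nat_lit 3002) (.e (nat_lit 61) (nat_lit 0) (.e (nat_lit 1849) (nat_lit 124) (.e (nat_lit 557109) (nat_lit 15) (.e (nat_lit 188449) (nat_lit 22) (.e (nat_lit 196661) (nat_lit 12) (.e (nat_lit 57722) (nat_lit 178) (.e (nat_lit 123165) (nat_lit 256) .nil))))))) (.g (nat_lit 6) .nil .nil))))) (.nd (nat_lit 4) (.nd (nat_lit 5) 
(.lf (nat_lit 524) (.g (nat_lit 7058) (.e (nat_lit 60) (nat_lit 0) (.e (nat_lit 2030) (nat_lit 140) (.e (nat_lit 688177) (nat_lit 16) (.e (nat_lit 65571) (nat_lit 3) (.e (nat_lit 98359) (nat_lit 26) (.e (nat_lit 426211) (nat_lit 9) (.e (nat_lit 426125) (nat_lit 2) (.e (nat_lit 196615) (nat_lit 0) .nil)))))))) (.g (nat_lit 8) .nil .nil))) 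
(.lf (nat_lit 556) (.g (nat_lit 2392) (.e (nat_lit 61) (nat_lit 0) (.e (nat_lit 1849) (nat_lit 124) (.e (nat_lit 557108) (nat_lit 15) (.e (nat_lit 188449) (nat_lit 22) (.e (nat_lit 196661) (nat_lit 12) (.e (nat_lit 57722) (nat_lit 178) (.e (nat_lit 123164) (nat_lit 256) .nil))))))) (.g (nat_lit 0) .nil .nil)))) (.nd (nat_lit 5) 
(.lf (nat_lit 540) (.g (nat_lit 1881) (.e (nat_lit 61) (nat_lit 0) (.e (nat_lit 1349) (nat_lit 102) (.e (nat_lit 286759) (nat_lit 12) (.e (nat_lit 385106) (nat_lit 50) .nil)))) .nil)) 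
(.lf (nat_lit 572) (.g (nat_lit 3772) (.e (nat_lit 61) (nat_lit 0) (.e (nat_lit 1858) (nat_lit 124) (.e (nat_lit 557101) (nat_lit 13) (.e (nat_lit 172097) (nat_lit 9) (.e (nat_lit 426125) (nat_lit 2) (.e (nat_lit 196661) (nat_lit 12) (.e (nat_lit 57722) (nat_lit 178) (.e (nat_lit 123164) (nat_lit 256) .nil)))))))) (.g (nat_lit 0) .nil .nil))))))) 
(.nd (nat_lit 2) (.nd (nat_lit 3) (.nd (nat_lit 4) (.nd (nat_lit 5) 
(.lf (nat_lit 514) (.g (nat_lit 2459) (.e (nat_lit 60) (nat_lit 0) (.e (nat_lit 1859) (nat_lit 124) (.e (nat_lit 557109) (nat_lit 15) (.e (nat_lit 188452) (nat_lit 23) (.e (nat_lit 204846) (nat_lit 24) (.e (nat_lit 319504) (nat_lit 10) (.e (nat_lit 5712) (nat_lit 312) .nil))))))) (.g (nat_lit 6) .nil .nil))) 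
(.lf (nat_lit 546) (.g (nat_lit 2992) (.e (nat_lit 61) (nat_lit 0) (.e (nat_lit 1849) (nat_lit 124) (.e (nat_lit 557097) (nat_lit 13) (.e (nat_lit 172097) (nat_lit 9) (.e (nat_lit 426125) (nat_lit 2) (.e (nat_lit 196661) (nat_lit 12) (.e (nat_lit 57722) (nat_lit 178) (.e (nat_lit 123164) (nat_lit 256) .nil)))))))) (.g (nat_lit 0) .nil .nil)))) (.nd (nat_lit 5) 
(.lf (nat_lit 530) (.g (nat_lit 4225) (.e (nat_lit 60) (nat_lit 0) (.e (nat_lit 2030) (nat_lit 140) (.e (nat_lit 688180) (nat_lit 17) (.e (nat_lit 73745) (nat_lit 3) (.e (nat_lit 516151) (nat_lit 9) (.e (nat_lit 426211) (nat_lit 9) (.e (nat_lit 426125) (nat_lit 2) (.e (nat_lit 204544) (nat_lit 0) .nil)))))))) (.g (nat_lit 7) .nil .nil))) 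
(.lf (nat_lit 562) (.g (nat_lit 2952) (.e (nat_lit 61) (nat_lit 0) (.e (nat_lit 1849) (nat_lit 124) (.e (nat_lit 557109) (nat_lit 15) (.e (nat_lit 188449) (nat_lit 22) (.e (nat_lit 196661) (nat_lit 12) (.e (nat_lit 57722) (nat_lit 178) (.e (nat_lit 123163) (nat_lit 256) .nil))))))) (.g (nat_lit 5) .nil .nil))))) (.nd (nat_lit 4) (.nd (nat_lit 5) 
(.lf (nat_lit 522) (.g (nat_lit 6582) (.e (nat_lit 60) (nat_lit 0) (.e (nat_lit 2030) (nat_lit 140) (.e (nat_lit 688177) (nat_lit 16) (.e (nat_lit 65569) (nat_lit 3) (.e (nat_lit 98359) (nat_lit 26) (.e (nat_lit 426211) (nat_lit 9) (.e (nat_lit 426125) (nat_lit 2) (.e (nat_lit 196615) (nat_lit 0) .nil)))))))) (.g (nat_lit 8) .nil .nil))) 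
(.lf (nat_lit 554) (.g (nat_lit 2187) (.e (nat_lit 61) (nat_lit 0) (.e (nat_lit 1849) (nat_lit 124) (.e (nat_lit 557107) (nat_lit 15) (.e (nat_lit 188450) (nat_lit 23) (.e (nat_lit 204821) (nat_lit 17) (.e (nat_lit 6223) (nat_lit 334) (.e (nat_lit 123164) (nat_lit 256) .nil))))))) (.g (nat_lit 0) .nil .nil)))) (.nd (nat_lit 5) 
(.lf (nat_lit 538) (.g (nat_lit 4192) (.e (nat_lit 61) (nat_lit 0) (.e (nat_lit 1348) (nat_lit 102) (.e (nat_lit 286761) (nat_lit 13) (.e (nat_lit 393301) (nat_lit 27) (.e (nat_lit 491560) (nat_lit 10) .nil))))) .nil)) 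
(.lf (nat_lit 570) (.g (nat_lit 4659) (.e (nat_lit 61) (nat_lit 0) (.e (nat_lit 1858) (nat_lit 124) (.e (nat_lit 557100) (nat_lit 13) (.e (nat_lit 172106) (nat_lit 10) (.e (nat_lit 434231) (nat_lit 23) (.e (nat_lit 532490) (nat_lit 0) (.e (nat_lit 6223) (nat_lit 334) (.e (nat_lit 123164) (nat_lit 256) .nil)))))))) (.g (nat_lit 0) .nil .nil)))))) (.nd (nat_lit 3) (.nd (nat_lit 4) (.nd (nat_lit 5) 
(.lf (nat_lit 518) (.g (nat_lit 6571) (.e (nat_lit 60) (nat_lit 0) (.e (nat_lit 1859) (nat_lit 124) (.e (nat_lit 557109) (nat_lit 15) (.e (nat_lit 188452) (nat_lit 23) (.e (nat_lit 204846) (nat_lit 24) (.e (nat_lit 319506) (nat_lit 10) (.e (nat_lit 5722) (nat_lit 312) .nil))))))) (.g (nat_lit 0) .nil .nil))) 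
(.lf (nat_lit 550) (.g (nat_lit 3460) (.e (nat_lit 61) (nat_lit 0) (.e (nat_lit 1849) (nat_lit 124) (.e (nat_lit 557097) (nat_lit 13) (.e (nat_lit 172115) (nat_lit 10) (.e (nat_lit 434231) (nat_lit 23) (.e (nat_lit 532490) (nat_lit 0) (.e (nat_lit 6223) (nat_lit 334) (.e (nat_lit 123164) (nat_lit 256) .nil)))))))) (.g (nat_lit 0) .nil .nil)))) (.nd (nat_lit 5) 
(.lf (nat_lit 534) (.g (nat_lit 3259) (.e (nat_lit 61) (nat_lit 0) (.e (nat_lit 1348) (nat_lit 102) (.e (nat_lit 286761) (nat_lit 13) (.e (nat_lit 393234) (nat_lit 17) (.e (nat_lit 7591) (nat_lit 407) (.e (nat_lit 73730) (nat_lit 0) (.e (nat_lit 6848) (nat_lit 371) .nil))))))) (.g (nat_lit 5) .nil .nil))) 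
(.lf (nat_lit 566) (.g (nat_lit 3413) (.e (nat_lit 61) (nat_lit 0) (.e (nat_lit 1849) (nat_lit 124) (.e (nat_lit 557109) (nat_lit 15) (.e (nat_lit 188452) (nat_lit 23) (.e (nat_lit 204821) (nat_lit 17) (.e (nat_lit 6223) (nat_lit 334) (.e (nat_lit 123163) (nat_lit 256) .nil))))))) (.g (nat_lit 6) .nil .nil))))) (.nd (nat_lit 4) (.nd (nat_lit 5) 
(.lf (nat_lit 526) (.g (nat_lit 2830) (.e (nat_lit 60) (nat_lit 0) (.e (nat_lit 2030) (nat_lit 140) (.e (nat_lit 688178) (nat_lit 16) (.e (nat_lit 65569) (nat_lit 3) (.e (nat_lit 98359) (nat_lit 26) (.e (nat_lit 426211) (nat_lit 9) (.e (nat_lit 426125) (nat_lit 2) (.e (nat_lit 204544) (nat_lit 0) .nil)))))))) (.g (nat_lit 5) .nil .nil))) 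
(.lf (nat_lit 558) (.g (nat_lit 2897) (.e (nat_lit 61) (nat_lit 0) (.e (nat_lit 1849) (nat_lit 124) (.e (nat_lit 557108) (nat_lit 15) (.e (nat_lit 188452) (nat_lit 23) (.e (nat_lit 204821) (nat_lit 17) (.e (nat_lit 6223) (nat_lit 334) (.e (nat_lit 123164) (nat_lit 256) .nil))))))) (.g (nat_lit 0) .nil .nil)))) (.nd (nat_lit 5) 
(.lf (nat_lit 542) (.g (nat_lit 2854) (.e (nat_lit 61) (nat_lit 0) (.e (nat_lit 1349) (nat_lit 102) (.e (nat_lit 286761) (nat_lit 13) (.e (nat_lit 393234) (nat_lit 17) (.e (nat_lit 7591) (nat_lit 407) (.e (nat_lit 73730) (nat_lit 0) (.e (nat_lit 6848) (nat_lit 371) .nil))))))) (.g (nat_lit 5) .nil .nil))) 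
(.lf (nat_lit 574) (.g (nat_lit 3652) (.e (nat_lit 61) (nat_lit 0) (.e (nat_lit 1858) (nat_lit 124) (.e (nat_lit 557101) (nat_lit 13) (.e (nat_lit 172097) (nat_lit 9) (.e (nat_lit 426140) (nat_lit 3) (.e (nat_lit 204821) (nat_lit 17) (.e (nat_lit 6223) (nat_lit 334) (.e (nat_lit 123164) (nat_lit 256) .nil)))))))) (.g (nat_lit 0) .nil .nil)))))))) 
(.nd (nat_lit 1) (.nd (nat_lit 2) (.nd (nat_lit 3) (.nd (nat_lit 4) (.nd (nat_lit 5) 
(.lf (nat_lit 513) (.g (nat_lit 4270) (.e (nat_lit 60) (nat_lit 0) (.e (nat_lit 1859) (nat_lit 124) (.e (nat_lit 557109) (nat_lit 15) (.e (nat_lit 188452) (nat_lit 23) (.e (nat_lit 204846) (nat_lit 24) (.e (nat_lit 319502) (nat_lit 10) (.e (nat_lit 5720) (nat_lit 312) .nil))))))) (.g (nat_lit 6) .nil .nil))) 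
(.lf (nat_lit 545) (.g (nat_lit 4441) (.e (nat_lit 61) (nat_lit 0) (.e (nat_lit 1349) (nat_lit 102) (.e (nat_lit 286761) (nat_lit 13) (.e (nat_lit 393301) (nat_lit 27) (.e (nat_lit 491560) (nat_lit 10) .nil))))) .nil))) (.nd (nat_lit 5) 
(.lf (nat_lit 529) (.g (nat_lit 1900) (.e (nat_lit 60) (nat_lit 0) (.e (nat_lit 2030) (nat_lit 140) (.e (nat_lit 688178) (nat_lit 16) (.e (nat_lit 65571) (nat_lit 3) (.e (nat_lit 98370) (nat_lit 28) .nil))))) .nil)) 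
(.lf (nat_lit 561) (.g (nat_lit 3233) (.e (nat_lit 61) (nat_lit 0) (.e (nat_lit 1849) (nat_lit 124) (.e (nat_lit 557108) (nat_lit 15) (.e (nat_lit 188452) (nat_lit 23) (.e (nat_lit 204846) (nat_lit 24) (.e (nat_lit 319513) (nat_lit 10) (.e (nat_lit 5634) (nat_lit 312) .nil))))))) (.g (nat_lit 6) .nil .nil))))) (.nd (nat_lit 4) (.nd (nat_lit 5) 
(.lf (nat_lit 521) (.g (nat_lit 4208) (.e (nat_lit 60) (nat_lit 0) (.e (nat_lit 1859) (nat_lit 124) (.e (nat_lit 557109) (nat_lit 15) (.e (nat_lit 188452) (nat_lit 23) (.e (nat_lit 204849) (nat_lit 25) (.e (nat_lit 327705) (nat_lit 10) (.e (nat_lit 5722) (nat_lit 312) .nil))))))) (.g (nat_lit 6) .nil .nil))) 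
(.lf (nat_lit 553) (.g (nat_lit 2215) (.e (nat_lit 61) (nat_lit 0) (.e (nat_lit 1849) (nat_lit 124) (.e (nat_lit 557107) (nat_lit 15) (.e (nat_lit 188447) (nat_lit 22) (.e (nat_lit 196661) (nat_lit 12) (.e (nat_lit 57722) (nat_lit 178) (.e (nat_lit 123166) (nat_lit 256) .nil))))))) (.g (nat_lit 0) .nil .nil)))) (.nd (nat_lit 5) 
(.lf (nat_lit 537) (.g (nat_lit 2326) (.e (nat_lit 61) (nat_lit 0) (.e (nat_lit 1348) (nat_lit 102) (.e (nat_lit 286761) (nat_lit 13) (.e (nat_lit 393234) (nat_lit 17) (.e (nat_lit 7593) (nat_lit 407) (.e (nat_lit 73728) (nat_lit 0) (.e (nat_lit 6848) (nat_lit 371) .nil))))))) (.g (nat_lit 4) .nil .nil))) 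
(.lf (nat_lit 569) (.g (nat_lit 3455) (.e (nat_lit 61) (nat_lit 0) (.e (nat_lit 1849) (nat_lit 124) (.e (nat_lit 557109) (nat_lit 15) (.e (nat_lit 188452) (nat_lit 23) (.e (nat_lit 204821) (nat_lit 17) (.e (nat_lit 6223) (nat_lit 334) (.e (nat_lit 123166) (nat_lit 256) .nil))))))) (.g (nat_lit 6) .nil .nil)))))) (.nd (nat_lit 3) (.nd (nat_lit 4) (.nd (nat_lit 5) 
(.lf (nat_lit 517) (.g (nat_lit 6412) (.e (nat_lit 60) (nat_lit 0) (.e (nat_lit 1859) (nat_lit 124) (.e (nat_lit 557109) (nat_lit 15) (.e (nat_lit 188452) (nat_lit 23) (.e (nat_lit 204846) (nat_lit 24) (.e (nat_lit 319506) (nat_lit 10) (.e (nat_lit 5721) (nat_lit 312) .nil))))))) (.g (nat_lit 6) .nil .nil))) 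
(.lf (nat_lit 549) (.g (nat_lit 2906) (.e (nat_lit 61) (nat_lit 0) (.e (nat_lit 1849) (nat_lit 124) (.e (nat_lit 557097) (nat_lit 13) (.e (nat_lit 172097) (nat_lit 9) (.e (nat_lit 426140) (nat_lit 3) (.e (nat_lit 204821) (nat_lit 17) (.e (nat_lit 6223) (nat_lit 334) (.e (nat_lit 123166) (nat_lit 256) .nil)))))))) (.g (nat_lit 0) .nil .nil)))) (.nd (nat_lit 5) 
(.lf (nat_lit 533) (.g (nat_lit 2647) (.e (nat_lit 61) (nat_lit 0) (.e (nat_lit 1348) (nat_lit 102) (.e (nat_lit 286761) (nat_lit 13) (.e (nat_lit 393234) (nat_lit 17) (.e (nat_lit 7591) (nat_lit 407) (.e (nat_lit 73728) (nat_lit 0) (.e (nat_lit 6848) (nat_lit 371) .nil))))))) (.g (nat_lit 4) .nil .nil))) 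
(.lf (nat_lit 565) (.g (nat_lit 2974) (.e (nat_lit 61) (nat_lit 0) (.e (nat_lit 1849) (nat_lit 124) (.e (nat_lit 557109) (nat_lit 15) (.e (nat_lit 188449) (nat_lit 22) (.e (nat_lit 196661) (nat_lit 12) (.e (nat_lit 57722) (nat_lit 178) (.e (nat_lit 123166) (nat_lit 256) .nil))))))) (.g (nat_lit 6) .nil .nil))))) (.nd (nat_lit 4) (.nd (nat_lit 5) 
(.lf (nat_lit 525) (.g (nat_lit 4679) (.e (nat_lit 60) (nat_lit 0) (.e (nat_lit 2030) (nat_lit 140) (.e (nat_lit 688177) (nat_lit 16) (.e (nat_lit 65571) (nat_lit 3) (.e (nat_lit 98359) (nat_lit 26) (.e (nat_lit 426211) (nat_lit 9) (.e (nat_lit 426125) (nat_lit 2) (.e (nat_lit 204544) (nat_lit 0) .nil)))))))) (.g (nat_lit 6) .nil .nil))) 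
(.lf (nat_lit 557) (.g (nat_lit 2385) (.e (nat_lit 61) (nat_lit 0) (.e (nat_lit 1849) (nat_lit 124) (.e (nat_lit 557108) (nat_lit 15) (.e (nat_lit 188449) (nat_lit 22) (.e (nat_lit 196661) (nat_lit 12) (.e (nat_lit 57722) (nat_lit 178) (.e (nat_lit 123166) (nat_lit 256) .nil))))))) (.g (nat_lit 0) .nil .nil)))) (.nd (nat_lit 5) 
(.lf (nat_lit 541) (.g (nat_lit 2242) (.e (nat_lit 61) (nat_lit 0) (.e (nat_lit 1349) (nat_lit 102) (.e (nat_lit 286761) (nat_lit 13) (.e (nat_lit 393234) (nat_lit 17) (.e (nat_lit 7591) (nat_lit 407) (.e (nat_lit 73728) (nat_lit 0) (.e (nat_lit 6848) (nat_lit 371) .nil))))))) (.g (nat_lit 4) .nil .nil))) 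
(.lf (nat_lit 573) (.g (nat_lit 3771) (.e (nat_lit 61) (nat_lit 0) (.e (nat_lit 1858) (nat_lit 124) (.e (nat_lit 557101) (nat_lit 13) (.e (nat_lit 172097) (nat_lit 9) (.e (nat_lit 426125) (nat_lit 2) (.e (nat_lit 196661) (nat_lit 12) (.e (nat_lit 57722) (nat_lit 178) (.e (nat_lit 123166) (nat_lit 256) .nil)))))))) (.g (nat_lit 0) .nil .nil))))))) 
(.nd (nat_lit 2) (.nd (nat_lit 3) (.nd (nat_lit 4) (.nd (nat_lit 5) 
(.lf (nat_lit 515) (.g (nat_lit 1967) (.e (nat_lit 60) (nat_lit 0) (.e (nat_lit 1859) (nat_lit 124) (.e (nat_lit 557109) (nat_lit 15) (.e (nat_lit 188452) (nat_lit 23) (.e (nat_lit 204846) (nat_lit 24) (.e (nat_lit 319504) (nat_lit 10) (.e (nat_lit 7936) (nat_lit 312) .nil))))))) (.g (nat_lit 6) .nil .nil))) 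
(.lf (nat_lit 547) (.g (nat_lit 2987) (.e (nat_lit 61) (nat_lit 0) (.e (nat_lit 1849) (nat_lit 124) (.e (nat_lit 557097) (nat_lit 13) (.e (nat_lit 172097) (nat_lit 9) (.e (nat_lit 426125) (nat_lit 2) (.e (nat_lit 196661) (nat_lit 12) (.e (nat_lit 57722) (nat_lit 178) (.e (nat_lit 123166) (nat_lit 256) .nil)))))))) (.g (nat_lit 0) .nil .nil)))) (.nd (nat_lit 5) 
(.lf (nat_lit 531) (.g (nat_lit 2663) (.e (nat_lit 60) (nat_lit 0) (.e (nat_lit 6114) (nat_lit 332) (.e (nat_lit 1370) (nat_lit 103) (.e (nat_lit 294960) (nat_lit 13) .nil)))) .nil)) 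
(.lf (nat_lit 563) (.g (nat_lit 2978) (.e (nat_lit 61) (nat_lit 0) (.e (nat_lit 1849) (nat_lit 124) (.e (nat_lit 557109) (nat_lit 15) (.e (nat_lit 188449) (nat_lit 22) (.e (nat_lit 196661) (nat_lit 12) (.e (nat_lit 57722) (nat_lit 178) (.e (nat_lit 123164) (nat_lit 256) .nil))))))) (.g (nat_lit 5) .nil .nil))))) (.nd (nat_lit 4) (.nd (nat_lit 5) 
(.lf (nat_lit 523) (.g (nat_lit 4203) (.e (nat_lit 60) (nat_lit 0) (.e (nat_lit 2030) (nat_lit 140) (.e (nat_lit 688177) (nat_lit 16) (.e (nat_lit 65569) (nat_lit 3) (.e (nat_lit 98359) (nat_lit 26) (.e (nat_lit 426211) (nat_lit 9) (.e (nat_lit 426125) (nat_lit 2) (.e (nat_lit 204544) (nat_lit 0) .nil)))))))) (.g (nat_lit 7) .nil .nil))) 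
(.lf (nat_lit 555) (.g (nat_lit 2209) (.e (nat_lit 61) (nat_lit 0) (.e (nat_lit 1849) (nat_lit 124) (.e (nat_lit 557107) (nat_lit 15) (.e (nat_lit 188450) (nat_lit 23) (.e (nat_lit 204821) (nat_lit 17) (.e (nat_lit 6223) (nat_lit 334) (.e (nat_lit 123166) (nat_lit 256) .nil))))))) (.g (nat_lit 0) .nil .nil)))) (.nd (nat_lit 5) 
(.lf (nat_lit 539) (.g (nat_lit 1856) (.e (nat_lit 61) (nat_lit 0) (.e (nat_lit 1349) (nat_lit 102) (.e (nat_lit 286759) (nat_lit 12) (.e (nat_lit 385094) (nat_lit 49) .nil)))) .nil)) 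
(.lf (nat_lit 571) (.g (nat_lit 4700) (.e (nat_lit 61) (nat_lit 0) (.e (nat_lit 1858) (nat_lit 124) (.e (nat_lit 557100) (nat_lit 13) (.e (nat_lit 172106) (nat_lit 10) (.e (nat_lit 434231) (nat_lit 23) (.e (nat_lit 532490) (nat_lit 0) (.e (nat_lit 6223) (nat_lit 334) (.e (nat_lit 123166) (nat_lit 256) .nil)))))))) (.g (nat_lit 0) .nil .nil)))))) (.nd (nat_lit 3) (.nd (nat_lit 4) (.nd (nat_lit 5) 
(.lf (nat_lit 519) (.g (nat_lit 6402) (.e (nat_lit 60) (nat_lit 0) (.e (nat_lit 1859) (nat_lit 124) (.e (nat_lit 557109) (nat_lit 15) (.e (nat_lit 188452) (nat_lit 23) (.e (nat_lit 204846) (nat_lit 24) (.e (nat_lit 319506) (nat_lit 10) (.e (nat_lit 5723) (nat_lit 312) .nil))))))) (.g (nat_lit 7) .nil .nil))) 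
(.lf (nat_lit 551) (.g (nat_lit 3488) (.e (nat_lit 61) (nat_lit 0) (.e (nat_lit 1849) (nat_lit 124) (.e (nat_lit 557097) (nat_lit 13) (.e (nat_lit 172115) (nat_lit 10) (.e (nat_lit 434231) (nat_lit 23) (.e (nat_lit 532490) (nat_lit 0) (.e (nat_lit 6223) (nat_lit 334) (.e (nat_lit 123166) (nat_lit 256) .nil)))))))) (.g (nat_lit 0) .nil .nil)))) (.nd (nat_lit 5) 
(.lf (nat_lit 535) (.g (nat_lit 2692) (.e (nat_lit 61) (nat_lit 0) (.e (nat_lit 1348) (nat_lit 102) (.e (nat_lit 286761) (nat_lit 13) (.e (nat_lit 393234) (nat_lit 17) (.e (nat_lit 7591) (nat_lit 407) (.e (nat_lit 73731) (nat_lit 0) (.e (nat_lit 6848) (nat_lit 371) .nil))))))) (.g (nat_lit 4) .nil .nil))) 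
(.lf (nat_lit 567) (.g (nat_lit 3435) (.e (nat_lit 61) (nat_lit 0) (.e (nat_lit 1849) (nat_lit 124) (.e (nat_lit 557109) (nat_lit 15) (.e (nat_lit 188452) (nat_lit 23) (.e (nat_lit 204821) (nat_lit 17) (.e (nat_lit 6223) (nat_lit 334) (.e (nat_lit 123164) (nat_lit 256) .nil))))))) (.g (nat_lit 6) .nil .nil))))) (.nd (nat_lit 4) (.nd (nat_lit 5) 
(.lf (nat_lit 527) (.g (nat_lit 1190) (.e (nat_lit 60) (nat_lit 0) (.e (nat_lit 2030) (nat_lit 140) (.e (nat_lit 688178) (nat_lit 16) (.e (nat_lit 65570) (nat_lit 3) .nil)))) .nil)) 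
(.lf (nat_lit 559) (.g (nat_lit 2914) (.e (nat_lit 61) (nat_lit 0) (.e (nat_lit 1849) (nat_lit 124) (.e (nat_lit 557108) (nat_lit 15) (.e (nat_lit 188452) (nat_lit 23) (.e (nat_lit 204821) (nat_lit 17) (.e (nat_lit 6223) (nat_lit 334) (.e (nat_lit 123166) (nat_lit 256) .nil))))))) (.g (nat_lit 0) .nil .nil)))) (.nd (nat_lit 5) 
(.lf (nat_lit 543) (.g (nat_lit 1826) (.e (nat_lit 61) (nat_lit 0) (.e (nat_lit 1349) (nat_lit 102) (.e (nat_lit 286761) (nat_lit 13) (.e (nat_lit 393234) (nat_lit 17) (.e (nat_lit 7593) (nat_lit 407) .nil))))) .nil)) 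
(.lf (nat_lit 575) (.g (nat_lit 3689) (.e (nat_lit 61) (nat_lit 0) (.e (nat_lit 1858) (nat_lit 124) (.e (nat_lit 557101) (nat_lit 13) (.e (nat_lit 172097) (nat_lit 9) (.e (nat_lit 426140) (nat_lit 3) (.e (nat_lit 204821) (nat_lit 17) (.e (nat_lit 6223) (nat_lit 334) (.e (nat_lit 123166) (nat_lit 256) .nil)))))))) (.g (nat_lit 0) .nil .nil)))))))))

noncomputable def tv009 : DT := (.nd (nat_lit 0) (.nd (nat_lit 1) (.nd (nat_lit 2) (.nd (nat_lit 3) (.nd (nat_lit 4) (.nd (nat_lit 5) 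
(.lf (nat_lit 576) (.g (nat_lit 4002) (.e (nat_lit 61) (nat_lit 0) (.e (nat_lit 1858) (nat_lit 124) (.e (nat_lit 557101) (nat_lit 13) (.e (nat_lit 172115) (nat_lit 10) (.e (nat_lit 434231) (nat_lit 23) (.e (nat_lit 532490) (nat_lit 0) (.e (nat_lit 6223) (nat_lit 334) (.e (nat_lit 123164) (nat_lit 256) .nil)))))))) (.g (nat_lit 0) .nil .nil))) 
(.lf (nat_lit 608) (.g (nat_lit 2756) (.e (nat_lit 61) (nat_lit 0) (.e (nat_lit 1859) (nat_lit 124) (.e (nat_lit 557109) (nat_lit 15) (.e (nat_lit 188447) (nat_lit 22) (.e (nat_lit 196661) (nat_lit 12) (.e (nat_lit 57722) (nat_lit 178) (.e (nat_lit 123163) (nat_lit 256) .nil))))))) (.g (nat_lit 4) .nil .nil)))) (.nd (nat_lit 5) 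
(.lf (nat_lit 592) (.g (nat_lit 4343) (.e (nat_lit 61) (nat_lit 0) (.e (nat_lit 1858) (nat_lit 124) (.e (nat_lit 557109) (nat_lit 15) (.e (nat_lit 188452) (nat_lit 23) (.e (nat_lit 204821) (nat_lit 17) (.e (nat_lit 6223) (nat_lit 334) (.e (nat_lit 123165) (nat_lit 256) .nil))))))) (.g (nat_lit 4) .nil .nil))) 
(.lf (nat_lit 624) (.g (nat_lit 4627) (.e (nat_lit 61) (nat_lit 0) (.e (nat_lit 1859) (nat_lit 124) (.e (nat_lit 557109) (nat_lit 15) (.e (nat_lit 188452) (nat_lit 23) (.e (nat_lit 204846) (nat_lit 24) (.e (nat_lit 319513) (nat_lit 10) (.e (nat_lit 5634) (nat_lit 312) .nil))))))) (.g (nat_lit 0) .nil .nil))))) (.nd (nat_lit 4) (.nd (nat_lit 5) 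
(.lf (nat_lit 584) (.g (nat_lit 4181) (.e (nat_lit 61) (nat_lit 0) (.e (nat_lit 1858) (nat_lit 124) (.e (nat_lit 557109) (nat_lit 15) (.e (nat_lit 188447) (nat_lit 22) (.e (nat_lit 196661) (nat_lit 12) .nil))))) .nil)) 
(.lf (nat_lit 616) (.g (nat_lit 3166) (.e (nat_lit 61) (nat_lit 0) (.e (nat_lit 1859) (nat_lit 124) (.e (nat_lit 557109) (nat_lit 15) (.e (nat_lit 188450) (nat_lit 23) (.e (nat_lit 204821) (nat_lit 17) (.e (nat_lit 6223) (nat_lit 334) (.e (nat_lit 123164) (nat_lit 256) .nil))))))) (.g (nat_lit 4) .nil .nil)))) (.nd (nat_lit 5) 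
(.lf (nat_lit 600) (.g (nat_lit 3450) (.e (nat_lit 61) (nat_lit 0) (.e (nat_lit 1859) (nat_lit 124) (.e (nat_lit 557098) (nat_lit 13) (.e (nat_lit 172097) (nat_lit 9) (.e (nat_lit 426140) (nat_lit 3) (.e (nat_lit 204821) (nat_lit 17) (.e (nat_lit 6223) (nat_lit 334) (.e (nat_lit 123164) (nat_lit 256) .nil)))))))) (.g (nat_lit 0) .nil .nil))) 
(.lf (nat_lit 632) (.g (nat_lit 2653) (.e (nat_lit 62) (nat_lit 0) (.e (nat_lit 1348) (nat_lit 102) (.e (nat_lit 286761) (nat_lit 13) (.e (nat_lit 393234) (nat_lit 17) (.e (nat_lit 7591) (nat_lit 407) (.e (nat_lit 73730) (nat_lit 0) (.e (nat_lit 6848) (nat_lit 371) .nil))))))) (.g (nat_lit 4) .nil .nil)))))) (.nd (nat_lit 3) (.nd (nat_lit 4) (.nd (nat_lit 5) 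
(.lf (nat_lit 580) (.g (nat_lit 3232) (.e (nat_lit 61) (nat_lit 0) (.e (nat_lit 1858) (nat_lit 124) (.e (nat_lit 557107) (nat_lit 15) (.e (nat_lit 188450) (nat_lit 23) (.e (nat_lit 204821) (nat_lit 17) (.e (nat_lit 6223) (nat_lit 334) (.e (nat_lit 123163) (nat_lit 256) .nil))))))) (.g (nat_lit 4) .nil .nil))) 
(.lf (nat_lit 612) (.g (nat_lit 3059) (.e (nat_lit 61) (nat_lit 0) (.e (nat_lit 1859) (nat_lit 124) (.e (nat_lit 557109) (nat_lit 15) (.e (nat_lit 188449) (nat_lit 22) (.e (nat_lit 196661) (nat_lit 12) (.e (nat_lit 57722) (nat_lit 178) (.e (nat_lit 123163) (nat_lit 256) .nil))))))) (.g (nat_lit 0) .nil .nil)))) (.nd (nat_lit 5) 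
(.lf (nat_lit 596) (.g (nat_lit 2875) (.e (nat_lit 61) (nat_lit 0) (.e (nat_lit 1858) (nat_lit 124) (.e (nat_lit 557109) (nat_lit 15) (.e (nat_lit 188458) (nat_lit 25) (.e (nat_lit 245784) (nat_lit 9) (.e (nat_lit 1023) (nat_lit 81) (.e (nat_lit 6223) (nat_lit 334) (.e (nat_lit 123165) (nat_lit 256) .nil)))))))) (.g (nat_lit 4) .nil .nil))) 
(.lf (nat_lit 628) (.g (nat_lit 3924) (.e (nat_lit 61) (nat_lit 0) (.e (nat_lit 6114) (nat_lit 332) (.e (nat_lit 1370) (nat_lit 103) (.e (nat_lit 294960) (nat_lit 13) (.e (nat_lit 393238) (nat_lit 17) (.e (nat_lit 7101) (nat_lit 380) (.e (nat_lit 164353) (nat_lit 246) .nil))))))) (.g (nat_lit 7) .nil .nil))))) (.nd (nat_lit 4) (.nd (nat_lit 5) 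
(.lf (nat_lit 588) (.g (nat_lit 4070) (.e (nat_lit 61) (nat_lit 0) (.e (nat_lit 1858) (nat_lit 124) (.e (nat_lit 557109) (nat_lit 15) (.e (nat_lit 188449) (nat_lit 22) (.e (nat_lit 196661) (nat_lit 12) (.e (nat_lit 57722) (nat_lit 178) (.e (nat_lit 123166) (nat_lit 256) .nil))))))) (.g (nat_lit 4) .nil .nil))) 
(.lf (nat_lit 620) (.g (nat_lit 3471) (.e (nat_lit 61) (nat_lit 0) (.e (nat_lit 1859) (nat_lit 124) (.e (nat_lit 557109) (nat_lit 15) (.e (nat_lit 188452) (nat_lit 23) (.e (nat_lit 204821) (nat_lit 17) (.e (nat_lit 6223) (nat_lit 334) (.e (nat_lit 123164) (nat_lit 256) .nil))))))) (.g (nat_lit 0) .nil .nil)))) (.nd (nat_lit 5) 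
(.lf (nat_lit 604) (.g (nat_lit 2359) (.e (nat_lit 61) (nat_lit 0) (.e (nat_lit 1859) (nat_lit 124) (.e (nat_lit 557107) (nat_lit 15) (.e (nat_lit 188447) (nat_lit 22) (.e (nat_lit 196661) (nat_lit 12) (.e (nat_lit 57722) (nat_lit 178) (.e (nat_lit 123164) (nat_lit 256) .nil))))))) (.g (nat_lit 0) .nil .nil))) 
(.lf (nat_lit 636) (.g (nat_lit 1257) (.e (nat_lit 62) (nat_lit 0) (.e (nat_lit 1849) (nat_lit 124) (.e (nat_lit 557108) (nat_lit 15) (.e (nat_lit 188452) (nat_lit 23) (.e (nat_lit 204846) (nat_lit 24) (.e (nat_lit 319504) (nat_lit 10) (.e (nat_lit 7936) (nat_lit 312) .nil))))))) (.g (nat_lit 4) .nil .nil))))))) (.nd (nat_lit 2) (.nd (nat_lit 3) (.nd (nat_lit 4) (.nd (nat_lit 5) 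
(.lf (nat_lit 578) (.g (nat_lit 2969) (.e (nat_lit 61) (nat_lit 0) (.e (nat_lit 1858) (nat_lit 124) (.e (nat_lit 557107) (nat_lit 15) (.e (nat_lit 188447) (nat_lit 22) (.e (nat_lit 196661) (nat_lit 12) .nil))))) .nil)) 
(.lf (nat_lit 610) (.g (nat_lit 2807) (.e (nat_lit 61) (nat_lit 0) (.e (nat_lit 1859) (nat_lit 124) (.e (nat_lit 557109) (nat_lit 15) (.e (nat_lit 188447) (nat_lit 22) (.e (nat_lit 196661) (nat_lit 12) (.e (nat_lit 57722) (nat_lit 178) (.e (nat_lit 123165) (nat_lit 256) .nil))))))) (.g (nat_lit 4) .nil .nil)))) (.nd (nat_lit 5) 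
(.lf (nat_lit 594) (.g (nat_lit 2801) (.e (nat_lit 61) (nat_lit 0) (.e (nat_lit 1858) (nat_lit 124) (.e (nat_lit 557109) (nat_lit 15) (.e (nat_lit 188458) (nat_lit 25) (.e (nat_lit 245784) (nat_lit 9) (.e (nat_lit 1023) (nat_lit 81) (.e (nat_lit 6223) (nat_lit 334) (.e (nat_lit 123163) (nat_lit 256) .nil)))))))) (.g (nat_lit 4) .nil .nil))) 
(.lf (nat_lit 626) (.g (nat_lit 2673) (.e (nat_lit 61) (nat_lit 0) (.e (nat_lit 2030) (nat_lit 140) (.e (nat_lit 688177) (nat_lit 16) (.e (nat_lit 65569) (nat_lit 3) (.e (nat_lit 98370) (nat_lit 28) (.e (nat_lit 442424) (nat_lit 22) (.e (nat_lit 204544) (nat_lit 0) .nil))))))) (.g (nat_lit 4) .nil .nil))))) (.nd (nat_lit 4) (.nd (nat_lit 5) 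
(.lf (nat_lit 586) (.g (nat_lit 4084) (.e (nat_lit 61) (nat_lit 0) (.e (nat_lit 1858) (nat_lit 124) (.e (nat_lit 557109) (nat_lit 15) (.e (nat_lit 188449) (nat_lit 22) (.e (nat_lit 196661) (nat_lit 12) (.e (nat_lit 57722) (nat_lit 178) (.e (nat_lit 123164) (nat_lit 256) .nil))))))) (.g (nat_lit 4) .nil .nil))) 
(.lf (nat_lit 618) (.g (nat_lit 3185) (.e (nat_lit 61) (nat_lit 0) (.e (nat_lit 1859) (nat_lit 124) (.e (nat_lit 557109) (nat_lit 15) (.e (nat_lit 188450) (nat_lit 23) (.e (nat_lit 204821) (nat_lit 17) (.e (nat_lit 6223) (nat_lit 334) (.e (nat_lit 123166) (nat_lit 256) .nil))))))) (.g (nat_lit 4) .nil .nil)))) (.nd (nat_lit 5) 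
(.lf (nat_lit 602) (.g (nat_lit 3828) (.e (nat_lit 61) (nat_lit 0) (.e (nat_lit 1859) (nat_lit 124) (.e (nat_lit 557098) (nat_lit 13) (.e (nat_lit 172115) (nat_lit 10) (.e (nat_lit 434231) (nat_lit 23) (.e (nat_lit 532490) (nat_lit 0) (.e (nat_lit 6223) (nat_lit 334) (.e (nat_lit 123164) (nat_lit 256) .nil)))))))) (.g (nat_lit 0) .nil .nil))) 
(.lf (nat_lit 634) (.g (nat_lit 4306) (.e (nat_lit 62) (nat_lit 0) (.e (nat_lit 1348) (nat_lit 102) (.e (nat_lit 286761) (nat_lit 13) (.e (nat_lit 393301) (nat_lit 27) (.e (nat_lit 491560) (nat_lit 10) .nil))))) .nil))))) (.nd (nat_lit 3) (.nd (nat_lit 4) (.nd (nat_lit 5) 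
(.lf (nat_lit 582) (.g (nat_lit 3292) (.e (nat_lit 61) (nat_lit 0) (.e (nat_lit 1858) (nat_lit 124) (.e (nat_lit 557107) (nat_lit 15) (.e (nat_lit 188450) (nat_lit 23) (.e (nat_lit 204821) (nat_lit 17) (.e (nat_lit 6223) (nat_lit 334) (.e (nat_lit 123165) (nat_lit 256) .nil))))))) (.g (nat_lit 4) .nil .nil))) 
(.lf (nat_lit 614) (.g (nat_lit 3083) (.e (nat_lit 61) (nat_lit 0) (.e (nat_lit 1859) (nat_lit 124) (.e (nat_lit 557109) (nat_lit 15) (.e (nat_lit 188449) (nat_lit 22) (.e (nat_lit 196661) (nat_lit 12) (.e (nat_lit 57722) (nat_lit 178) (.e (nat_lit 123166) (nat_lit 256) .nil))))))) (.g (nat_lit 0) .nil .nil)))) (.nd (nat_lit 5) 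
(.lf (nat_lit 598) (.g (nat_lit 3568) (.e (nat_lit 61) (nat_lit 0) (.e (nat_lit 1859) (nat_lit 124) (.e (nat_lit 557098) (nat_lit 13) (.e (nat_lit 172097) (nat_lit 9) (.e (nat_lit 426125) (nat_lit 2) (.e (nat_lit 196661) (nat_lit 12) (.e (nat_lit 57722) (nat_lit 178) (.e (nat_lit 123164) (nat_lit 256) .nil)))))))) (.g (nat_lit 0) .nil .nil))) 
(.lf (nat_lit 630) (.g (nat_lit 2406) (.e (nat_lit 62) (nat_lit 0) (.e (nat_lit 1348) (nat_lit 102) (.e (nat_lit 286759) (nat_lit 12) (.e (nat_lit 385106) (nat_lit 50) (.e (nat_lit 786483) (nat_lit 30) .nil))))) .nil)))) (.nd (nat_lit 4) (.nd (nat_lit 5) 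
(.lf (nat_lit 590) (.g (nat_lit 4274) (.e (nat_lit 61) (nat_lit 0) (.e (nat_lit 1858) (nat_lit 124) (.e (nat_lit 557109) (nat_lit 15) (.e (nat_lit 188452) (nat_lit 23) (.e (nat_lit 204821) (nat_lit 17) (.e (nat_lit 6223) (nat_lit 334) (.e (nat_lit 123163) (nat_lit 256) .nil))))))) (.g (nat_lit 4) .nil .nil))) 
(.lf (nat_lit 622) (.g (nat_lit 4278) (.e (nat_lit 61) (nat_lit 0) (.e (nat_lit 1859) (nat_lit 124) (.e (nat_lit 557109) (nat_lit 15) (.e (nat_lit 188452) (nat_lit 23) (.e (nat_lit 204846) (nat_lit 24) (.e (nat_lit 319502) (nat_lit 10) (.e (nat_lit 5672) (nat_lit 312) .nil))))))) (.g (nat_lit 6) .nil .nil)))) (.nd (nat_lit 5) 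
(.lf (nat_lit 606) (.g (nat_lit 2328) (.e (nat_lit 61) (nat_lit 0) (.e (nat_lit 1859) (nat_lit 124) (.e (nat_lit 557107) (nat_lit 15) (.e (nat_lit 188450) (nat_lit 23) (.e (nat_lit 204821) (nat_lit 17) (.e (nat_lit 6223) (nat_lit 334) (.e (nat_lit 123164) (nat_lit 256) .nil))))))) (.g (nat_lit 0) .nil .nil))) 
(.lf (nat_lit 638) (.g (nat_lit 2439) (.e (nat_lit 62) (nat_lit 0) (.e (nat_lit 1858) (nat_lit 124) (.e (nat_lit 557101) (nat_lit 13) (.e (nat_lit 172097) (nat_lit 9) (.e (nat_lit 426125) (nat_lit 2) (.e (nat_lit 196661) (nat_lit 12) (.e (nat_lit 57722) (nat_lit 178) (.e (nat_lit 123163) (nat_lit 256) .nil)))))))) (.g (nat_lit 4) .nil .nil)))))))) 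
(.nd (nat_lit 1) (.nd (nat_lit 2) (.nd (nat_lit 3) (.nd (nat_lit 4) (.nd (nat_lit 5) 
(.lf (nat_lit 577) (.g (nat_lit 4043) (.e (nat_lit 61) (nat_lit 0) (.e (nat_lit 1858) (nat_lit 124) (.e (nat_lit 557101) (nat_lit 13) (.e (nat_lit 172115) (nat_lit 10) (.e (nat_lit 434231) (nat_lit 23) (.e (nat_lit 532490) (nat_lit 0) (.e (nat_lit 6223) (nat_lit 334) (.e (nat_lit 123166) (nat_lit 256) .nil)))))))) (.g (nat_lit 0) .nil .nil))) 
(.lf (nat_lit 609) (.g (nat_lit 2785) (.e (nat_lit 61) (nat_lit 0) (.e (nat_lit 1859) (nat_lit 124) (.e (nat_lit 557109) (nat_lit 15) (.e (nat_lit 188447) (nat_lit 22) (.e (nat_lit 196661) (nat_lit 12) (.e (nat_lit 57722) (nat_lit 178) (.e (nat_lit 123164) (nat_lit 256) .nil))))))) (.g (nat_lit 4) .nil .nil)))) (.nd (nat_lit 5) 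
(.lf (nat_lit 593) (.g (nat_lit 4320) (.e (nat_lit 61) (nat_lit 0) (.e (nat_lit 1858) (nat_lit 124) (.e (nat_lit 557109) (nat_lit 15) (.e (nat_lit 188452) (nat_lit 23) (.e (nat_lit 204821) (nat_lit 17) (.e (nat_lit 6223) (nat_lit 334) (.e (nat_lit 123166) (nat_lit 256) .nil))))))) (.g (nat_lit 4) .nil .nil))) 
(.lf (nat_lit 625) (.g (nat_lit 2604) (.e (nat_lit 61) (nat_lit 0) (.e (nat_lit 1859) (nat_lit 124) (.e (nat_lit 557109) (nat_lit 15) (.e (nat_lit 188458) (nat_lit 25) (.e (nat_lit 245784) (nat_lit 9) .nil))))) .nil)))) (.nd (nat_lit 4) (.nd (nat_lit 5) 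
(.lf (nat_lit 585) (.g (nat_lit 4043) (.e (nat_lit 61) (nat_lit 0) (.e (nat_lit 1858) (nat_lit 124) (.e (nat_lit 557109) (nat_lit 15) (.e (nat_lit 188449) (nat_lit 22) (.e (nat_lit 196661) (nat_lit 12) (.e (nat_lit 57722) (nat_lit 178) (.e (nat_lit 123163) (nat_lit 256) .nil))))))) (.g (nat_lit 4) .nil .nil))) 
(.lf (nat_lit 617) (.g (nat_lit 3192) (.e (nat_lit 61) (nat_lit 0) (.e (nat_lit 1859) (nat_lit 124) (.e (nat_lit 557109) (nat_lit 15) (.e (nat_lit 188450) (nat_lit 23) (.e (nat_lit 204821) (nat_lit 17) (.e (nat_lit 6223) (nat_lit 334) (.e (nat_lit 123165) (nat_lit 256) .nil))))))) (.g (nat_lit 4) .nil .nil)))) (.nd (nat_lit 5) 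
(.lf (nat_lit 601) (.g (nat_lit 3473) (.e (nat_lit 61) (nat_lit 0) (.e (nat_lit 1859) (nat_lit 124) (.e (nat_lit 557098) (nat_lit 13) (.e (nat_lit 172097) (nat_lit 9) (.e (nat_lit 426140) (nat_lit 3) (.e (nat_lit 204821) (nat_lit 17) (.e (nat_lit 6223) (nat_lit 334) (.e (nat_lit 123166) (nat_lit 256) .nil)))))))) (.g (nat_lit 0) .nil .nil))) 
(.lf (nat_lit 633) (.g (nat_lit 2364) (.e (nat_lit 62) (nat_lit 0) (.e (nat_lit 1348) (nat_lit 102) (.e (nat_lit 286761) (nat_lit 13) (.e (nat_lit 393234) (nat_lit 17) (.e (nat_lit 7593) (nat_lit 407) .nil))))) .nil))))) (.nd (nat_lit 3) (.nd (nat_lit 4) (.nd (nat_lit 5) 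
(.lf (nat_lit 581) (.g (nat_lit 3251) (.e (nat_lit 61) (nat_lit 0) (.e (nat_lit 1858) (nat_lit 124) (.e (nat_lit 557107) (nat_lit 15) (.e (nat_lit 188450) (nat_lit 23) (.e (nat_lit 204821) (nat_lit 17) (.e (nat_lit 6223) (nat_lit 334) (.e (nat_lit 123164) (nat_lit 256) .nil))))))) (.g (nat_lit 4) .nil .nil))) 
(.lf (nat_lit 613) (.g (nat_lit 3088) (.e (nat_lit 61) (nat_lit 0) (.e (nat_lit 1859) (nat_lit 124) (.e (nat_lit 557109) (nat_lit 15) (.e (nat_lit 188449) (nat_lit 22) (.e (nat_lit 196661) (nat_lit 12) (.e (nat_lit 57722) (nat_lit 178) (.e (nat_lit 123164) (nat_lit 256) .nil))))))) (.g (nat_lit 0) .nil .nil)))) (.nd (nat_lit 5) 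
(.lf (nat_lit 597) (.g (nat_lit 2856) (.e (nat_lit 61) (nat_lit 0) (.e (nat_lit 1858) (nat_lit 124) (.e (nat_lit 557109) (nat_lit 15) (.e (nat_lit 188458) (nat_lit 25) (.e (nat_lit 245784) (nat_lit 9) (.e (nat_lit 1023) (nat_lit 81) (.e (nat_lit 6223) (nat_lit 334) (.e (nat_lit 123166) (nat_lit 256) .nil)))))))) (.g (nat_lit 4) .nil .nil))) 
(.lf (nat_lit 629) (.g (nat_lit 3140) (.e (nat_lit 61) (nat_lit 0) (.e (nat_lit 7086) (nat_lit 379) (.e (nat_lit 123202) (nat_lit 270) (.e (nat_lit 1239) (nat_lit 91) (.e (nat_lit 90170) (nat_lit 13) (.e (nat_lit 172113) (nat_lit 10) (.e (nat_lit 434248) (nat_lit 28) (.e (nat_lit 573452) (nat_lit 9) .nil)))))))) (.g (nat_lit 7) .nil .nil))))) (.nd (nat_lit 4) (.nd (nat_lit 5) 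
(.lf (nat_lit 589) (.g (nat_lit 4307) (.e (nat_lit 61) (nat_lit 0) (.e (nat_lit 1858) (nat_lit 124) (.e (nat_lit 557109) (nat_lit 15) (.e (nat_lit 188450) (nat_lit 23) (.e (nat_lit 204821) (nat_lit 17) .nil))))) .nil)) 
(.lf (nat_lit 621) (.g (nat_lit 3491) (.e (nat_lit 61) (nat_lit 0) (.e (nat_lit 1859) (nat_lit 124) (.e (nat_lit 557109) (nat_lit 15) (.e (nat_lit 188452) (nat_lit 23) (.e (nat_lit 204821) (nat_lit 17) (.e (nat_lit 6223) (nat_lit 334) (.e (nat_lit 123166) (nat_lit 256) .nil))))))) (.g (nat_lit 0) .nil .nil)))) (.nd (nat_lit 5) 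
(.lf (nat_lit 605) (.g (nat_lit 2350) (.e (nat_lit 61) (nat_lit 0) (.e (nat_lit 1859) (nat_lit 124) (.e (nat_lit 557107) (nat_lit 15) (.e (nat_lit 188447) (nat_lit 22) (.e (nat_lit 196661) (nat_lit 12) (.e (nat_lit 57722) (nat_lit 178) (.e (nat_lit 123166) (nat_lit 256) .nil))))))) (.g (nat_lit 0) .nil .nil))) 
(.lf (nat_lit 637) (.g (nat_lit 2310) (.e (nat_lit 62) (nat_lit 0) (.e (nat_lit 1858) (nat_lit 124) (.e (nat_lit 557101) (nat_lit 13) (.e (nat_lit 172097) (nat_lit 9) (.e (nat_lit 426125) (nat_lit 2) (.e (nat_lit 196661) (nat_lit 12) (.e (nat_lit 57722) (nat_lit 178) (.e (nat_lit 123162) (nat_lit 256) .nil)))))))) (.g (nat_lit 4) .nil .nil))))))) 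
(.nd (nat_lit 2) (.nd (nat_lit 3) (.nd (nat_lit 4) (.nd (nat_lit 5) 
(.lf (nat_lit 579) (.g (nat_lit 2128) (.e (nat_lit 61) (nat_lit 0) (.e (nat_lit 1858) (nat_lit 124) (.e (nat_lit 557107) (nat_lit 15) (.e (nat_lit 188450) (nat_lit 23) .nil)))) .nil)) 
(.lf (nat_lit 611) (.g (nat_lit 2777) (.e (nat_lit 61) (nat_lit 0) (.e (nat_lit 1859) (nat_lit 124) (.e (nat_lit 557109) (nat_lit 15) (.e (nat_lit 188447) (nat_lit 22) (.e (nat_lit 196661) (nat_lit 12) (.e (nat_lit 57722) (nat_lit 178) (.e (nat_lit 123166) (nat_lit 256) .nil))))))) (.g (nat_lit 4) .nil .nil)))) (.nd (nat_lit 5) 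
(.lf (nat_lit 595) (.g (nat_lit 2820) (.e (nat_lit 61) (nat_lit 0) (.e (nat_lit 1858) (nat_lit 124) (.e (nat_lit 557109) (nat_lit 15) (.e (nat_lit 188458) (nat_lit 25) (.e (nat_lit 245784) (nat_lit 9) (.e (nat_lit 1023) (nat_lit 81) (.e (nat_lit 6223) (nat_lit 334) (.e (nat_lit 123164) (nat_lit 256) .nil)))))))) (.g (nat_lit 4) .nil .nil))) 
(.lf (nat_lit 627) (.g (nat_lit 1824) (.e (nat_lit 61) (nat_lit 0) (.e (nat_lit 6114) (nat_lit 332) (.e (nat_lit 1370) (nat_lit 103) (.e (nat_lit 294960) (nat_lit 13) .nil)))) .nil)))) (.nd (nat_lit 4) (.nd (nat_lit 5) 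
(.lf (nat_lit 587) (.g (nat_lit 4114) (.e (nat_lit 61) (nat_lit 0) (.e (nat_lit 1858) (nat_lit 124) (.e (nat_lit 557109) (nat_lit 15) (.e (nat_lit 188449) (nat_lit 22) (.e (nat_lit 196661) (nat_lit 12) (.e (nat_lit 57722) (nat_lit 178) (.e (nat_lit 123165) (nat_lit 256) .nil))))))) (.g (nat_lit 5) .nil .nil))) 
(.lf (nat_lit 619) (.g (nat_lit 3447) (.e (nat_lit 61) (nat_lit 0) (.e (nat_lit 1859) (nat_lit 124) (.e (nat_lit 557109) (nat_lit 15) (.e (nat_lit 188452) (nat_lit 23) (.e (nat_lit 204821) (nat_lit 17) (.e (nat_lit 6223) (nat_lit 334) (.e (nat_lit 123163) (nat_lit 256) .nil))))))) (.g (nat_lit 0) .nil .nil)))) (.nd (nat_lit 5) 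
(.lf (nat_lit 603) (.g (nat_lit 3855) (.e (nat_lit 61) (nat_lit 0) (.e (nat_lit 1859) (nat_lit 124) (.e (nat_lit 557098) (nat_lit 13) (.e (nat_lit 172115) (nat_lit 10) (.e (nat_lit 434231) (nat_lit 23) (.e (nat_lit 532490) (nat_lit 0) (.e (nat_lit 6223) (nat_lit 334) (.e (nat_lit 123166) (nat_lit 256) .nil)))))))) (.g (nat_lit 0) .nil .nil))) 
(.lf (nat_lit 635) (.g (nat_lit 1380) (.e (nat_lit 62) (nat_lit 0) (.e (nat_lit 1349) (nat_lit 102) (.e (nat_lit 286761) (nat_lit 13) (.e (nat_lit 393234) (nat_lit 17) .nil)))) .nil))))) (.nd (nat_lit 3) (.nd (nat_lit 4) (.nd (nat_lit 5) 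
(.lf (nat_lit 583) (.g (nat_lit 3284) (.e (nat_lit 61) (nat_lit 0) (.e (nat_lit 1858) (nat_lit 124) (.e (nat_lit 557107) (nat_lit 15) (.e (nat_lit 188450) (nat_lit 23) (.e (nat_lit 204821) (nat_lit 17) (.e (nat_lit 6223) (nat_lit 334) (.e (nat_lit 123166) (nat_lit 256) .nil))))))) (.g (nat_lit 4) .nil .nil))) 
(.lf (nat_lit 615) (.g (nat_lit 3141) (.e (nat_lit 61) (nat_lit 0) (.e (nat_lit 1859) (nat_lit 124) (.e (nat_lit 557109) (nat_lit 15) (.e (nat_lit 188450) (nat_lit 23) (.e (nat_lit 204821) (nat_lit 17) (.e (nat_lit 6223) (nat_lit 334) (.e (nat_lit 123163) (nat_lit 256) .nil))))))) (.g (nat_lit 4) .nil .nil)))) (.nd (nat_lit 5) 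
(.lf (nat_lit 599) (.g (nat_lit 3561) (.e (nat_lit 61) (nat_lit 0) (.e (nat_lit 1859) (nat_lit 124) (.e (nat_lit 557098) (nat_lit 13) (.e (nat_lit 172097) (nat_lit 9) (.e (nat_lit 426125) (nat_lit 2) (.e (nat_lit 196661) (nat_lit 12) (.e (nat_lit 57722) (nat_lit 178) (.e (nat_lit 123166) (nat_lit 256) .nil)))))))) (.g (nat_lit 0) .nil .nil))) 
(.lf (nat_lit 631) (.g (nat_lit 2386) (.e (nat_lit 62) (nat_lit 0) (.e (nat_lit 1348) (nat_lit 102) (.e (nat_lit 286761) (nat_lit 13) (.e (nat_lit 393234) (nat_lit 17) (.e (nat_lit 7591) (nat_lit 407) .nil))))) .nil)))) (.nd (nat_lit 4) (.nd (nat_lit 5) 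
(.lf (nat_lit 591) (.g (nat_lit 4301) (.e (nat_lit 61) (nat_lit 0) (.e (nat_lit 1858) (nat_lit 124) (.e (nat_lit 557109) (nat_lit 15) (.e (nat_lit 188452) (nat_lit 23) (.e (nat_lit 204821) (nat_lit 17) (.e (nat_lit 6223) (nat_lit 334) (.e (nat_lit 123164) (nat_lit 256) .nil))))))) (.g (nat_lit 4) .nil .nil))) 
(.lf (nat_lit 623) (.g (nat_lit 1972) (.e (nat_lit 61) (nat_lit 0) (.e (nat_lit 1859) (nat_lit 124) (.e (nat_lit 557109) (nat_lit 15) (.e (nat_lit 188452) (nat_lit 23) (.e (nat_lit 204846) (nat_lit 24) (.e (nat_lit 319504) (nat_lit 10) (.e (nat_lit 7936) (nat_lit 312) .nil))))))) (.g (nat_lit 6) .nil .nil)))) (.nd (nat_lit 5) 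
(.lf (nat_lit 607) (.g (nat_lit 2346) (.e (nat_lit 61) (nat_lit 0) (.e (nat_lit 1859) (nat_lit 124) (.e (nat_lit 557107) (nat_lit 15) (.e (nat_lit 188450) (nat_lit 23) (.e (nat_lit 204821) (nat_lit 17) (.e (nat_lit 6223) (nat_lit 334) (.e (nat_lit 123166) (nat_lit 256) .nil))))))) (.g (nat_lit 0) .nil .nil))) 
(.lf (nat_lit 639) (.g (nat_lit 2454) (.e (nat_lit 62) (nat_lit 0) (.e (nat_lit 1858) (nat_lit 124) (.e (nat_lit 557101) (nat_lit 13) (.e (nat_lit 172097) (nat_lit 9) (.e (nat_lit 426125) (nat_lit 2) (.e (nat_lit 196661) (nat_lit 12) (.e (nat_lit 57722) (nat_lit 178) (.e (nat_lit 123164) (nat_lit 256) .nil)))))))) (.g (nat_lit 4) .nil .nil)))))))))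

noncomputable def tv010 : DT := (.nd (nat_lit 0) (.nd (nat_lit 1) (.nd (nat_lit 2) (.nd (nat_lit 3) (.nd (nat_lit 4) (.nd (nat_lit 5) 
(.lf (nat_lit 640) (.g (nat_lit 2133) (.e (nat_lit 62) (nat_lit 0) (.e (nat_lit 1858) (nat_lit 124) (.e (nat_lit 557101) (nat_lit 13) (.e (nat_lit 172097) (nat_lit 9) (.e (nat_lit 426140) (nat_lit 3) .nil))))) .nil)) 
(.lf (nat_lit 672) (.g (nat_lit 3431) (.e (nat_lit 68) (nat_lit 0) (.e (nat_lit 1348) (nat_lit 102) (.e (nat_lit 286761) (nat_lit 13) (.e (nat_lit 393234) (nat_lit 17) (.e (nat_lit 7591) (nat_lit 407) (.e (nat_lit 73730) (nat_lit 0) (.e (nat_lit 6848) (nat_lit 371) .nil))))))) (.g (nat_lit 5) .nil .nil)))) (.nd (nat_lit 5) 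
(.lf (nat_lit 656) (.g (nat_lit 1723) (.e (nat_lit 67) (nat_lit 0) (.e (nat_lit 5949) (nat_lit 322) (.e (nat_lit 57399) (nat_lit 10) (.e (nat_lit 319530) (nat_lit 16) (.e (nat_lit 286761) (nat_lit 13) (.e (nat_lit 393264) (nat_lit 22) (.e (nat_lit 417795) (nat_lit 0) .nil))))))) (.g (nat_lit 5) .nil .nil))) 
(.lf (nat_lit 688) (.g (nat_lit 2116) (.e (nat_lit 68) (nat_lit 0) (.e (nat_lit 1849) (nat_lit 124) (.e (nat_lit 557108) (nat_lit 15) (.e (nat_lit 188452) (nat_lit 23) (.e (nat_lit 204846) (nat_lit 24) (.e (nat_lit 319504) (nat_lit 10) (.e (nat_lit 7936) (nat_lit 312) .nil))))))) (.g (nat_lit 6) .nil .nil))))) (.nd (nat_lit 4) (.nd (nat_lit 5) 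
(.lf (nat_lit 648) (.g (nat_lit 2776) (.e (nat_lit 63) (nat_lit 0) (.e (nat_lit 5949) (nat_lit 322) (.e (nat_lit 57400) (nat_lit 10) (.e (nat_lit 319533) (nat_lit 16) (.e (nat_lit 286761) (nat_lit 13) (.e (nat_lit 393264) (nat_lit 22) (.e (nat_lit 417795) (nat_lit 0) .nil))))))) (.g (nat_lit 5) .nil .nil))) 
(.lf (nat_lit 680) (.g (nat_lit 2799) (.e (nat_lit 68) (nat_lit 0) (.e (nat_lit 1349) (nat_lit 102) (.e (nat_lit 286761) (nat_lit 13) (.e (nat_lit 393234) (nat_lit 17) (.e (nat_lit 7591) (nat_lit 407) (.e (nat_lit 73729) (nat_lit 0) (.e (nat_lit 6848) (nat_lit 371) .nil))))))) (.g (nat_lit 5) .nil .nil)))) (.nd (nat_lit 5) 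
(.lf (nat_lit 664) (.g (nat_lit 2549) (.e (nat_lit 67) (nat_lit 0) (.e (nat_lit 5949) (nat_lit 322) (.e (nat_lit 57400) (nat_lit 10) (.e (nat_lit 319532) (nat_lit 16) (.e (nat_lit 286761) (nat_lit 13) (.e (nat_lit 393265) (nat_lit 22) (.e (nat_lit 417792) (nat_lit 0) .nil))))))) (.g (nat_lit 7) .nil .nil))) 
(.lf (nat_lit 696) (.g (nat_lit 3166) (.e (nat_lit 68) (nat_lit 0) (.e (nat_lit 1858) (nat_lit 124) (.e (nat_lit 557105) (nat_lit 14) (.e (nat_lit 180252) (nat_lit 10) (.e (nat_lit 573489) (nat_lit 14) (.e (nat_lit 73755) (nat_lit 8) (.e (nat_lit 557090) (nat_lit 12) (.e (nat_lit 164010) (nat_lit 41) (.e (nat_lit 663572) (nat_lit 9) .nil))))))))) (.g (nat_lit 4) .nil .nil)))))) 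
(.nd (nat_lit 3) (.nd (nat_lit 4) (.nd (nat_lit 5) 
(.lf (nat_lit 644) (.g (nat_lit 2861) (.e (nat_lit 62) (nat_lit 0) (.e (nat_lit 1859) (nat_lit 124) (.e (nat_lit 557109) (nat_lit 15) (.e (nat_lit 188452) (nat_lit 23) (.e (nat_lit 204846) (nat_lit 24) (.e (nat_lit 319504) (nat_lit 10) (.e (nat_lit 7936) (nat_lit 312) .nil))))))) (.g (nat_lit 6) .nil .nil))) 
(.lf (nat_lit 676) (.g (nat_lit 5023) (.e (nat_lit 68) (nat_lit 0) (.e (nat_lit 1348) (nat_lit 102) (.e (nat_lit 286761) (nat_lit 13) (.e (nat_lit 393301) (nat_lit 27) (.e (nat_lit 491558) (nat_lit 10) .nil))))) .nil))) (.nd (nat_lit 5) 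
(.lf (nat_lit 660) (.g (nat_lit 2346) (.e (nat_lit 67) (nat_lit 0) (.e (nat_lit 5949) (nat_lit 322) (.e (nat_lit 57400) (nat_lit 10) (.e (nat_lit 319530) (nat_lit 16) (.e (nat_lit 286761) (nat_lit 13) (.e (nat_lit 393264) (nat_lit 22) (.e (nat_lit 417792) (nat_lit 0) .nil))))))) (.g (nat_lit 7) .nil .nil))) 
(.lf (nat_lit 692) (.g (nat_lit 3750) (.e (nat_lit 68) (nat_lit 0) (.e (nat_lit 1858) (nat_lit 124) (.e (nat_lit 557105) (nat_lit 14) (.e (nat_lit 180252) (nat_lit 10) (.e (nat_lit 573489) (nat_lit 14) (.e (nat_lit 73755) (nat_lit 8) (.e (nat_lit 557090) (nat_lit 12) (.e (nat_lit 164006) (nat_lit 41) (.e (nat_lit 663572) (nat_lit 9) .nil))))))))) (.g (nat_lit 6) .nil .nil))))) 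
(.nd (nat_lit 4) (.nd (nat_lit 5) 
(.lf (nat_lit 652) (.g (nat_lit 1971) (.e (nat_lit 67) (nat_lit 0) (.e (nat_lit 5946) (nat_lit 322) (.e (nat_lit 57400) (nat_lit 10) (.e (nat_lit 319531) (nat_lit 16) (.e (nat_lit 286761) (nat_lit 13) (.e (nat_lit 393264) (nat_lit 22) (.e (nat_lit 417792) (nat_lit 0) .nil))))))) (.g (nat_lit 5) .nil .nil))) 
(.lf (nat_lit 684) (.g (nat_lit 2642) (.e (nat_lit 68) (nat_lit 0) (.e (nat_lit 1349) (nat_lit 102) (.e (nat_lit 286761) (nat_lit 13) (.e (nat_lit 393234) (nat_lit 17) (.e (nat_lit 7593) (nat_lit 407) (.e (nat_lit 73729) (nat_lit 0) (.e (nat_lit 6848) (nat_lit 371) .nil))))))) (.g (nat_lit 5) .nil .nil)))) (.nd (nat_lit 5) 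
(.lf (nat_lit 668) (.g (nat_lit 2884) (.e (nat_lit 67) (nat_lit 0) (.e (nat_lit 6092) (nat_lit 332) (.e (nat_lit 1370) (nat_lit 103) (.e (nat_lit 294960) (nat_lit 13) (.e (nat_lit 393238) (nat_lit 17) (.e (nat_lit 7101) (nat_lit 380) (.e (nat_lit 164353) (nat_lit 246) .nil))))))) (.g (nat_lit 0) .nil .nil))) 
(.lf (nat_lit 700) (.g (nat_lit 1247) (.e (nat_lit 70) (nat_lit 0) (.e (nat_lit 1848) (nat_lit 124) (.e (nat_lit 557108) (nat_lit 15) (.e (nat_lit 188452) (nat_lit 23) .nil)))) .nil)))))) (.nd (nat_lit 2) (.nd (nat_lit 3) (.nd (nat_lit 4) (.nd (nat_lit 5) 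
(.lf (nat_lit 642) (.g (nat_lit 2305) (.e (nat_lit 62) (nat_lit 0) (.e (nat_lit 1858) (nat_lit 124) (.e (nat_lit 557101) (nat_lit 13) (.e (nat_lit 172097) (nat_lit 9) (.e (nat_lit 426140) (nat_lit 3) (.e (nat_lit 204821) (nat_lit 17) (.e (nat_lit 6223) (nat_lit 334) (.e (nat_lit 123164) (nat_lit 256) .nil)))))))) (.g (nat_lit 4) .nil .nil))) 
(.lf (nat_lit 674) (.g (nat_lit 2364) (.e (nat_lit 68) (nat_lit 0) (.e (nat_lit 1348) (nat_lit 102) (.e (nat_lit 286761) (nat_lit 13) (.e (nat_lit 393234) (nat_lit 17) (.e (nat_lit 7593) (nat_lit 407) .nil))))) .nil))) (.nd (nat_lit 5) 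
(.lf (nat_lit 658) (.g (nat_lit 2025) (.e (nat_lit 67) (nat_lit 0) (.e (nat_lit 5949) (nat_lit 322) (.e (nat_lit 57399) (nat_lit 10) (.e (nat_lit 319531) (nat_lit 16) (.e (nat_lit 286761) (nat_lit 13) (.e (nat_lit 393264) (nat_lit 22) (.e (nat_lit 417792) (nat_lit 0) .nil))))))) (.g (nat_lit 5) .nil .nil))) 
(.lf (nat_lit 690) (.g (nat_lit 2290) (.e (nat_lit 68) (nat_lit 0) (.e (nat_lit 1858) (nat_lit 124) (.e (nat_lit 557101) (nat_lit 13) (.e (nat_lit 172097) (nat_lit 9) (.e (nat_lit 426140) (nat_lit 3) (.e (nat_lit 204821) (nat_lit 17) (.e (nat_lit 6223) (nat_lit 334) (.e (nat_lit 123162) (nat_lit 256) .nil)))))))) (.g (nat_lit 4) .nil .nil))))) (.nd (nat_lit 4) (.nd (nat_lit 5) 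
(.lf (nat_lit 650) (.g (nat_lit 2354) (.e (nat_lit 66) (nat_lit 0) (.e (nat_lit 6092) (nat_lit 332) (.e (nat_lit 1370) (nat_lit 103) (.e (nat_lit 294960) (nat_lit 13) (.e (nat_lit 393238) (nat_lit 17) (.e (nat_lit 7101) (nat_lit 380) (.e (nat_lit 164353) (nat_lit 246) .nil))))))) (.g (nat_lit 6) .nil .nil))) 
(.lf (nat_lit 682) (.g (nat_lit 2030) (.e (nat_lit 68) (nat_lit 0) (.e (nat_lit 1349) (nat_lit 102) (.e (nat_lit 286761) (nat_lit 13) (.e (nat_lit 393234) (nat_lit 17) (.e (nat_lit 7591) (nat_lit 407) (.e (nat_lit 73731) (nat_lit 0) (.e (nat_lit 6848) (nat_lit 371) .nil))))))) (.g (nat_lit 4) .nil .nil)))) (.nd (nat_lit 5) 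
(.lf (nat_lit 666) (.g (nat_lit 2504) (.e (nat_lit 67) (nat_lit 0) (.e (nat_lit 5949) (nat_lit 322) (.e (nat_lit 57400) (nat_lit 10) (.e (nat_lit 319534) (nat_lit 16) (.e (nat_lit 286761) (nat_lit 13) (.e (nat_lit 393264) (nat_lit 22) (.e (nat_lit 417792) (nat_lit 0) .nil))))))) (.g (nat_lit 6) .nil .nil))) 
(.lf (nat_lit 698) (.g (nat_lit 2732) (.e (nat_lit 68) (nat_lit 0) (.e (nat_lit 1859) (nat_lit 124) (.e (nat_lit 557109) (nat_lit 15) (.e (nat_lit 188452) (nat_lit 23) (.e (nat_lit 204846) (nat_lit 24) (.e (nat_lit 319504) (nat_lit 10) (.e (nat_lit 7936) (nat_lit 312) .nil))))))) (.g (nat_lit 6) .nil .nil)))))) (.nd (nat_lit 3) (.nd (nat_lit 4) (.nd (nat_lit 5) 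
(.lf (nat_lit 646) (.g (nat_lit 2003) (.e (nat_lit 63) (nat_lit 0) (.e (nat_lit 1855) (nat_lit 124) (.e (nat_lit 557109) (nat_lit 15) (.e (nat_lit 188452) (nat_lit 23) (.e (nat_lit 204846) (nat_lit 24) .nil))))) .nil)) 
(.lf (nat_lit 678) (.g (nat_lit 1855) (.e (nat_lit 68) (nat_lit 0) (.e (nat_lit 1349) (nat_lit 102) (.e (nat_lit 286759) (nat_lit 12) (.e (nat_lit 385094) (nat_lit 49) .nil)))) .nil))) (.nd (nat_lit 5) 
(.lf (nat_lit 662) (.g (nat_lit 1981) (.e (nat_lit 67) (nat_lit 0) (.e (nat_lit 5949) (nat_lit 322) (.e (nat_lit 57400) (nat_lit 10) (.e (nat_lit 319531) (nat_lit 16) (.e (nat_lit 286761) (nat_lit 13) (.e (nat_lit 393264) (nat_lit 22) (.e (nat_lit 417795) (nat_lit 0) .nil))))))) (.g (nat_lit 5) .nil .nil))) 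
(.lf (nat_lit 694) (.g (nat_lit 3373) (.e (nat_lit 68) (nat_lit 0) (.e (nat_lit 1858) (nat_lit 124) (.e (nat_lit 557105) (nat_lit 14) (.e (nat_lit 180252) (nat_lit 10) (.e (nat_lit 573489) (nat_lit 14) (.e (nat_lit 73755) (nat_lit 8) (.e (nat_lit 557090) (nat_lit 12) (.e (nat_lit 164008) (nat_lit 41) (.e (nat_lit 663572) (nat_lit 9) .nil))))))))) (.g (nat_lit 4) .nil .nil))))) 
(.nd (nat_lit 4) (.nd (nat_lit 5) 
(.lf (nat_lit 654) (.g (nat_lit 1683) (.e (nat_lit 67) (nat_lit 0) (.e (nat_lit 5948) (nat_lit 322) (.e (nat_lit 57400) (nat_lit 10) (.e (nat_lit 319528) (nat_lit 16) (.e (nat_lit 286761) (nat_lit 13) (.e (nat_lit 393264) (nat_lit 22) (.e (nat_lit 417792) (nat_lit 0) .nil))))))) (.g (nat_lit 5) .nil .nil))) 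
(.lf (nat_lit 686) (.g (nat_lit 4461) (.e (nat_lit 68) (nat_lit 0) (.e (nat_lit 1349) (nat_lit 102) (.e (nat_lit 286761) (nat_lit 13) (.e (nat_lit 393301) (nat_lit 27) (.e (nat_lit 491560) (nat_lit 10) .nil))))) .nil))) (.nd (nat_lit 5) 
(.lf (nat_lit 670) (.g (nat_lit 2819) (.e (nat_lit 68) (nat_lit 0) (.e (nat_lit 1348) (nat_lit 102) (.e (nat_lit 286761) (nat_lit 13) (.e (nat_lit 393234) (nat_lit 17) (.e (nat_lit 7591) (nat_lit 407) (.e (nat_lit 73728) (nat_lit 0) (.e (nat_lit 6848) (nat_lit 371) .nil))))))) (.g (nat_lit 4) .nil .nil))) 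
(.lf (nat_lit 702) (.g (nat_lit 1960) (.e (nat_lit 70) (nat_lit 0) (.e (nat_lit 1849) (nat_lit 124) (.e (nat_lit 557108) (nat_lit 15) (.e (nat_lit 188452) (nat_lit 23) (.e (nat_lit 204846) (nat_lit 24) (.e (nat_lit 319504) (nat_lit 10) (.e (nat_lit 7936) (nat_lit 312) .nil))))))) (.g (nat_lit 6) .nil .nil)))))))) (.nd (nat_lit 1) (.nd (nat_lit 2) (.nd (nat_lit 3) (.nd (nat_lit 4) (.nd (nat_lit 5) 
(.lf (nat_lit 641) (.g (nat_lit 2334) (.e (nat_lit 62) (nat_lit 0) (.e (nat_lit 1858) (nat_lit 124) (.e (nat_lit 557101) (nat_lit 13) (.e (nat_lit 172097) (nat_lit 9) (.e (nat_lit 426140) (nat_lit 3) (.e (nat_lit 204821) (nat_lit 17) (.e (nat_lit 6223) (nat_lit 334) (.e (nat_lit 123163) (nat_lit 256) .nil)))))))) (.g (nat_lit 4) .nil .nil))) 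
(.lf (nat_lit 673) (.g (nat_lit 2864) (.e (nat_lit 68) (nat_lit 0) (.e (nat_lit 1348) (nat_lit 102) (.e (nat_lit 286761) (nat_lit 13) (.e (nat_lit 393234) (nat_lit 17) (.e (nat_lit 7591) (nat_lit 407) (.e (nat_lit 73731) (nat_lit 0) (.e (nat_lit 6848) (nat_lit 371) .nil))))))) (.g (nat_lit 4) .nil .nil)))) (.nd (nat_lit 5) 
(.lf (nat_lit 657) (.g (nat_lit 2568) (.e (nat_lit 67) (nat_lit 0) (.e (nat_lit 5949) (nat_lit 322) (.e (nat_lit 57399) (nat_lit 10) (.e (nat_lit 319530) (nat_lit 16) (.e (nat_lit 286761) (nat_lit 13) (.e (nat_lit 393265) (nat_lit 22) (.e (nat_lit 417792) (nat_lit 0) .nil))))))) (.g (nat_lit 6) .nil .nil))) 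
(.lf (nat_lit 689) (.g (nat_lit 2494) (.e (nat_lit 68) (nat_lit 0) (.e (nat_lit 1858) (nat_lit 124) (.e (nat_lit 557101) (nat_lit 13) (.e (nat_lit 172097) (nat_lit 9) (.e (nat_lit 426125) (nat_lit 2) (.e (nat_lit 196661) (nat_lit 12) (.e (nat_lit 57722) (nat_lit 178) (.e (nat_lit 123162) (nat_lit 256) .nil)))))))) (.g (nat_lit 4) .nil .nil))))) (.nd (nat_lit 4) (.nd (nat_lit 5) 
(.lf (nat_lit 649) (.g (nat_lit 2447) (.e (nat_lit 63) (nat_lit 0) (.e (nat_lit 5949) (nat_lit 322) (.e (nat_lit 57400) (nat_lit 10) (.e (nat_lit 319534) (nat_lit 16) (.e (nat_lit 286761) (nat_lit 13) (.e (nat_lit 393264) (nat_lit 22) (.e (nat_lit 417795) (nat_lit 0) .nil))))))) (.g (nat_lit 6) .nil .nil))) 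
(.lf (nat_lit 681) (.g (nat_lit 2597) (.e (nat_lit 68) (nat_lit 0) (.e (nat_lit 1349) (nat_lit 102) (.e (nat_lit 286761) (nat_lit 13) (.e (nat_lit 393234) (nat_lit 17) (.e (nat_lit 7591) (nat_lit 407) (.e (nat_lit 73730) (nat_lit 0) (.e (nat_lit 6848) (nat_lit 371) .nil))))))) (.g (nat_lit 5) .nil .nil)))) (.nd (nat_lit 5) 
(.lf (nat_lit 665) (.g (nat_lit 2593) (.e (nat_lit 67) (nat_lit 0) (.e (nat_lit 5949) (nat_lit 322) (.e (nat_lit 57400) (nat_lit 10) (.e (nat_lit 319533) (nat_lit 16) (.e (nat_lit 286760) (nat_lit 13) (.e (nat_lit 393265) (nat_lit 22) (.e (nat_lit 417792) (nat_lit 0) .nil))))))) (.g (nat_lit 7) .nil .nil))) 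
(.lf (nat_lit 697) (.g (nat_lit 4759) (.e (nat_lit 68) (nat_lit 0) (.e (nat_lit 1858) (nat_lit 124) (.e (nat_lit 557109) (nat_lit 15) (.e (nat_lit 188452) (nat_lit 23) (.e (nat_lit 204846) (nat_lit 24) .nil))))) .nil))))) (.nd (nat_lit 3) (.nd (nat_lit 4) (.nd (nat_lit 5) 
(.lf (nat_lit 645) (.g (nat_lit 3853) (.e (nat_lit 62) (nat_lit 0) (.e (nat_lit 6114) (nat_lit 332) (.e (nat_lit 1370) (nat_lit 103) (.e (nat_lit 294960) (nat_lit 13) (.e (nat_lit 393238) (nat_lit 17) (.e (nat_lit 7101) (nat_lit 380) (.e (nat_lit 164353) (nat_lit 246) .nil))))))) (.g (nat_lit 5) .nil .nil))) 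
(.lf (nat_lit 677) (.g (nat_lit 4306) (.e (nat_lit 68) (nat_lit 0) (.e (nat_lit 1348) (nat_lit 102) (.e (nat_lit 286761) (nat_lit 13) (.e (nat_lit 393301) (nat_lit 27) (.e (nat_lit 491560) (nat_lit 10) .nil))))) .nil))) (.nd (nat_lit 5) 
(.lf (nat_lit 661) (.g (nat_lit 2765) (.e (nat_lit 67) (nat_lit 0) (.e (nat_lit 5949) (nat_lit 322) (.e (nat_lit 57400) (nat_lit 10) (.e (nat_lit 319530) (nat_lit 16) (.e (nat_lit 286761) (nat_lit 13) (.e (nat_lit 393265) (nat_lit 22) (.e (nat_lit 417792) (nat_lit 0) .nil))))))) (.g (nat_lit 6) .nil .nil))) 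
(.lf (nat_lit 693) (.g (nat_lit 3976) (.e (nat_lit 68) (nat_lit 0) (.e (nat_lit 1858) (nat_lit 124) (.e (nat_lit 557105) (nat_lit 14) (.e (nat_lit 180252) (nat_lit 10) (.e (nat_lit 573489) (nat_lit 14) (.e (nat_lit 73755) (nat_lit 8) (.e (nat_lit 557090) (nat_lit 12) (.e (nat_lit 164007) (nat_lit 41) (.e (nat_lit 663572) (nat_lit 9) .nil))))))))) (.g (nat_lit 6) .nil .nil))))) 
(.nd (nat_lit 4) (.nd (nat_lit 5) 
(.lf (nat_lit 653) (.g (nat_lit 1836) (.e (nat_lit 67) (nat_lit 0) (.e (nat_lit 5948) (nat_lit 322) (.e (nat_lit 57399) (nat_lit 10) (.e (nat_lit 319530) (nat_lit 16) (.e (nat_lit 286761) (nat_lit 13) (.e (nat_lit 393264) (nat_lit 22) (.e (nat_lit 417792) (nat_lit 0) .nil))))))) (.g (nat_lit 6) .nil .nil))) 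
(.lf (nat_lit 685) (.g (nat_lit 2121) (.e (nat_lit 68) (nat_lit 0) (.e (nat_lit 1349) (nat_lit 102) (.e (nat_lit 286761) (nat_lit 13) (.e (nat_lit 393234) (nat_lit 17) (.e (nat_lit 7593) (nat_lit 407) (.e (nat_lit 73730) (nat_lit 0) (.e (nat_lit 6848) (nat_lit 371) .nil))))))) (.g (nat_lit 4) .nil .nil)))) (.nd (nat_lit 5) 
(.lf (nat_lit 669) (.g (nat_lit 1686) (.e (nat_lit 68) (nat_lit 0) (.e (nat_lit 1348) (nat_lit 102) (.e (nat_lit 286759) (nat_lit 12) (.e (nat_lit 385094) (nat_lit 49) .nil)))) .nil)) 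
(.lf (nat_lit 701) (.g (nat_lit 2350) (.e (nat_lit 70) (nat_lit 0) (.e (nat_lit 1848) (nat_lit 124) (.e (nat_lit 557108) (nat_lit 15) (.e (nat_lit 188452) (nat_lit 23) (.e (nat_lit 204846) (nat_lit 24) (.e (nat_lit 319504) (nat_lit 10) (.e (nat_lit 7936) (nat_lit 312) .nil))))))) (.g (nat_lit 6) .nil .nil))))))) (.nd (nat_lit 2) (.nd (nat_lit 3) (.nd (nat_lit 4) (.nd (nat_lit 5) 
(.lf (nat_lit 643) (.g (nat_lit 2520) (.e (nat_lit 62) (nat_lit 0) (.e (nat_lit 1858) (nat_lit 124) (.e (nat_lit 557101) (nat_lit 13) (.e (nat_lit 172115) (nat_lit 10) (.e (nat_lit 434231) (nat_lit 23) (.e (nat_lit 532490) (nat_lit 0) (.e (nat_lit 6223) (nat_lit 334) (.e (nat_lit 123162) (nat_lit 256) .nil)))))))) (.g (nat_lit 4) .nil .nil))) 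
(.lf (nat_lit 675) (.g (nat_lit 2498) (.e (nat_lit 68) (nat_lit 0) (.e (nat_lit 1348) (nat_lit 102) (.e (nat_lit 286761) (nat_lit 13) (.e (nat_lit 393234) (nat_lit 17) (.e (nat_lit 7593) (nat_lit 407) (.e (nat_lit 73728) (nat_lit 0) (.e (nat_lit 6848) (nat_lit 371) .nil))))))) (.g (nat_lit 4) .nil .nil)))) (.nd (nat_lit 5) 
(.lf (nat_lit 659) (.g (nat_lit 2520) (.e (nat_lit 67) (nat_lit 0) (.e (nat_lit 5949) (nat_lit 322) (.e (nat_lit 57400) (nat_lit 10) (.e (nat_lit 319528) (nat_lit 16) (.e (nat_lit 286761) (nat_lit 13) (.e (nat_lit 393265) (nat_lit 22) (.e (nat_lit 417792) (nat_lit 0) .nil))))))) (.g (nat_lit 6) .nil .nil))) 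
(.lf (nat_lit 691) (.g (nat_lit 2704) (.e (nat_lit 68) (nat_lit 0) (.e (nat_lit 1858) (nat_lit 124) (.e (nat_lit 557101) (nat_lit 13) (.e (nat_lit 172115) (nat_lit 10) (.e (nat_lit 434231) (nat_lit 23) (.e (nat_lit 532490) (nat_lit 0) (.e (nat_lit 6223) (nat_lit 334) (.e (nat_lit 123162) (nat_lit 256) .nil)))))))) (.g (nat_lit 4) .nil .nil))))) (.nd (nat_lit 4) (.nd (nat_lit 5) 
(.lf (nat_lit 651) (.g (nat_lit 3570) (.e (nat_lit 67) (nat_lit 0) (.e (nat_lit 5818) (nat_lit 320) (.e (nat_lit 999) (nat_lit 81) (.e (nat_lit 1400) (nat_lit 106) (.e (nat_lit 319533) (nat_lit 16) (.e (nat_lit 286761) (nat_lit 13) (.e (nat_lit 393265) (nat_lit 22) (.e (nat_lit 417792) (nat_lit 0) .nil)))))))) (.g (nat_lit 7) .nil .nil))) 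
(.lf (nat_lit 683) (.g (nat_lit 1841) (.e (nat_lit 68) (nat_lit 0) (.e (nat_lit 1349) (nat_lit 102) (.e (nat_lit 286761) (nat_lit 13) (.e (nat_lit 393234) (nat_lit 17) (.e (nat_lit 7593) (nat_lit 407) .nil))))) .nil))) (.nd (nat_lit 5) 
(.lf (nat_lit 667) (.g (nat_lit 3020) (.e (nat_lit 67) (nat_lit 0) (.e (nat_lit 5949) (nat_lit 322) (.e (nat_lit 57400) (nat_lit 10) (.e (nat_lit 319534) (nat_lit 16) (.e (nat_lit 286761) (nat_lit 13) (.e (nat_lit 393265) (nat_lit 22) (.e (nat_lit 417792) (nat_lit 0) .nil))))))) (.g (nat_lit 6) .nil .nil))) 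
(.lf (nat_lit 699) (.g (nat_lit 2388) (.e (nat_lit 68) (nat_lit 0) (.e (nat_lit 6264) (nat_lit 337) (.e (nat_lit 1221) (nat_lit 90) (.e (nat_lit 81965) (nat_lit 26) (.e (nat_lit 147496) (nat_lit 11) (.e (nat_lit 24617) (nat_lit 7) (.e (nat_lit 327424) (nat_lit 10) .nil))))))) (.g (nat_lit 6) .nil .nil)))))) (.nd (nat_lit 3) (.nd (nat_lit 4) (.nd (nat_lit 5) 
(.lf (nat_lit 647) (.g (nat_lit 1915) (.e (nat_lit 63) (nat_lit 0) (.e (nat_lit 5949) (nat_lit 322) (.e (nat_lit 57400) (nat_lit 10) (.e (nat_lit 319528) (nat_lit 16) (.e (nat_lit 286761) (nat_lit 13) (.e (nat_lit 393264) (nat_lit 22) (.e (nat_lit 417795) (nat_lit 0) .nil))))))) (.g (nat_lit 6) .nil .nil))) 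
(.lf (nat_lit 679) (.g (nat_lit 1985) (.e (nat_lit 68) (nat_lit 0) (.e (nat_lit 1349) (nat_lit 102) (.e (nat_lit 286761) (nat_lit 13) (.e (nat_lit 393234) (nat_lit 17) (.e (nat_lit 7591) (nat_lit 407) (.e (nat_lit 73728) (nat_lit 0) (.e (nat_lit 6848) (nat_lit 371) .nil))))))) (.g (nat_lit 4) .nil .nil)))) (.nd (nat_lit 5) 
(.lf (nat_lit 663) (.g (nat_lit 2771) (.e (nat_lit 67) (nat_lit 0) (.e (nat_lit 5949) (nat_lit 322) (.e (nat_lit 57400) (nat_lit 10) (.e (nat_lit 319531) (nat_lit 16) (.e (nat_lit 286761) (nat_lit 13) (.e (nat_lit 393265) (nat_lit 22) (.e (nat_lit 417792) (nat_lit 0) .nil))))))) (.g (nat_lit 6) .nil .nil))) 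
(.lf (nat_lit 695) (.g (nat_lit 3007) (.e (nat_lit 68) (nat_lit 0) (.e (nat_lit 1858) (nat_lit 124) (.e (nat_lit 557105) (nat_lit 14) (.e (nat_lit 180252) (nat_lit 10) (.e (nat_lit 573489) (nat_lit 14) (.e (nat_lit 73755) (nat_lit 8) (.e (nat_lit 557090) (nat_lit 12) (.e (nat_lit 164009) (nat_lit 41) (.e (nat_lit 663572) (nat_lit 9) .nil))))))))) (.g (nat_lit 4) .nil .nil))))) 
(.nd (nat_lit 4) (.nd (nat_lit 5) 
(.lf (nat_lit 655) (.g (nat_lit 3131) (.e (nat_lit 67) (nat_lit 0) (.e (nat_lit 5948) (nat_lit 322) (.e (nat_lit 57400) (nat_lit 10) (.e (nat_lit 319533) (nat_lit 16) (.e (nat_lit 286761) (nat_lit 13) (.e (nat_lit 393265) (nat_lit 22) (.e (nat_lit 417792) (nat_lit 0) .nil))))))) (.g (nat_lit 6) .nil .nil))) 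
(.lf (nat_lit 687) (.g (nat_lit 2524) (.e (nat_lit 68) (nat_lit 0) (.e (nat_lit 1848) (nat_lit 124) (.e (nat_lit 557108) (nat_lit 15) (.e (nat_lit 188452) (nat_lit 23) (.e (nat_lit 204846) (nat_lit 24) (.e (nat_lit 319504) (nat_lit 10) (.e (nat_lit 7936) (nat_lit 312) .nil))))))) (.g (nat_lit 6) .nil .nil)))) (.nd (nat_lit 5) 
(.lf (nat_lit 671) (.g (nat_lit 3633) (.e (nat_lit 68) (nat_lit 0) (.e (nat_lit 1348) (nat_lit 102) (.e (nat_lit 286761) (nat_lit 13) (.e (nat_lit 393234) (nat_lit 17) (.e (nat_lit 7591) (nat_lit 407) (.e (nat_lit 73729) (nat_lit 0) (.e (nat_lit 6848) (nat_lit 371) .nil))))))) (.g (nat_lit 5) .nil .nil))) 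
(.lf (nat_lit 703) (.g (nat_lit 2666) (.e (nat_lit 70) (nat_lit 0) (.e (nat_lit 1858) (nat_lit 124) (.e (nat_lit 557105) (nat_lit 14) (.e (nat_lit 180252) (nat_lit 10) (.e (nat_lit 573489) (nat_lit 14) .nil))))) .nil))))))))

noncomputable def tv011 : DT := (.nd (nat_lit 0) (.nd (nat_lit 1) (.nd (nat_lit 2) (.nd (nat_lit 3) (.nd (nat_lit 4) (.nd (nat_lit 5) 
(.lf (nat_lit 704) (.g (nat_lit 3154) (.e (nat_lit 70) (nat_lit 0) (.e (nat_lit 1858) (nat_lit 124) (.e (nat_lit 557105) (nat_lit 14) (.e (nat_lit 180252) (nat_lit 10) (.e (nat_lit 573489) (nat_lit 14) (.e (nat_lit 73755) (nat_lit 8) (.e (nat_lit 557089) (nat_lit 12) (.e (nat_lit 164007) (nat_lit 41) (.e (nat_lit 663572) (nat_lit 9) .nil))))))))) (.g (nat_lit 4) .nil .nil))) 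
(.lf (nat_lit 736) (.g (nat_lit 4461) (.e (nat_lit 71) (nat_lit 0) (.e (nat_lit 1349) (nat_lit 102) (.e (nat_lit 286761) (nat_lit 13) (.e (nat_lit 393301) (nat_lit 27) (.e (nat_lit 491560) (nat_lit 10) .nil))))) .nil))) (.nd (nat_lit 5) 
(.lf (nat_lit 720) (.g (nat_lit 2410) (.e (nat_lit 70) (nat_lit 0) (.e (nat_lit 7270) (nat_lit 385) (.e (nat_lit 122919) (nat_lit 15) (.e (nat_lit 360491) (nat_lit 22) .nil)))) .nil)) 
(.lf (nat_lit 752) (.g (nat_lit 3264) (.e (nat_lit 71) (nat_lit 0) (.e (nat_lit 1858) (nat_lit 124) (.e (nat_lit 557105) (nat_lit 14) (.e (nat_lit 180252) (nat_lit 10) (.e (nat_lit 573489) (nat_lit 14) (.e (nat_lit 73755) (nat_lit 8) (.e (nat_lit 557090) (nat_lit 12) (.e (nat_lit 164004) (nat_lit 41) (.e (nat_lit 663572) (nat_lit 9) .nil))))))))) (.g (nat_lit 5) .nil .nil))))) 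
(.nd (nat_lit 4) (.nd (nat_lit 5) 
(.lf (nat_lit 712) (.g (nat_lit 5028) (.e (nat_lit 70) (nat_lit 0) (.e (nat_lit 1858) (nat_lit 124) (.e (nat_lit 557105) (nat_lit 14) (.e (nat_lit 180252) (nat_lit 10) (.e (nat_lit 573489) (nat_lit 14) (.e (nat_lit 73755) (nat_lit 8) (.e (nat_lit 557090) (nat_lit 12) (.e (nat_lit 164007) (nat_lit 41) (.e (nat_lit 663572) (nat_lit 9) .nil))))))))) (.g (nat_lit 9) .nil .nil))) 
(.lf (nat_lit 744) (.g (nat_lit 3742) (.e (nat_lit 71) (nat_lit 0) (.e (nat_lit 1858) (nat_lit 124) (.e (nat_lit 557105) (nat_lit 14) (.e (nat_lit 180252) (nat_lit 10) (.e (nat_lit 573488) (nat_lit 14) (.e (nat_lit 81664) (nat_lit 1) (.e (nat_lit 500056) (nat_lit 17) (.e (nat_lit 57575) (nat_lit 55) (.e (nat_lit 778362) (nat_lit 9) .nil))))))))) (.g (nat_lit 4) .nil .nil)))) (.nd (nat_lit 5) 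
(.lf (nat_lit 728) (.g (nat_lit 4148) (.e (nat_lit 71) (nat_lit 0) (.e (nat_lit 1348) (nat_lit 102) (.e (nat_lit 286761) (nat_lit 13) (.e (nat_lit 393301) (nat_lit 27) (.e (nat_lit 491560) (nat_lit 10) .nil))))) .nil)) 
(.lf (nat_lit 760) (.g (nat_lit 2670) (.e (nat_lit 71) (nat_lit 0) (.e (nat_lit 6114) (nat_lit 332) (.e (nat_lit 1370) (nat_lit 103) (.e (nat_lit 294960) (nat_lit 13) .nil)))) .nil))))) (.nd (nat_lit 3) (.nd (nat_lit 4) (.nd (nat_lit 5) 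
(.lf (nat_lit 708) (.g (nat_lit 3309) (.e (nat_lit 70) (nat_lit 0) (.e (nat_lit 1858) (nat_lit 124) (.e (nat_lit 557105) (nat_lit 14) (.e (nat_lit 180252) (nat_lit 10) (.e (nat_lit 573489) (nat_lit 14) (.e (nat_lit 73755) (nat_lit 8) (.e (nat_lit 557090) (nat_lit 12) (.e (nat_lit 164005) (nat_lit 41) (.e (nat_lit 663572) (nat_lit 9) .nil))))))))) (.g (nat_lit 5) .nil .nil))) 
(.lf (nat_lit 740) (.g (nat_lit 1994) (.e (nat_lit 71) (nat_lit 0) (.e (nat_lit 1849) (nat_lit 124) (.e (nat_lit 557108) (nat_lit 15) (.e (nat_lit 188452) (nat_lit 23) (.e (nat_lit 204846) (nat_lit 24) (.e (nat_lit 319505) (nat_lit 10) (.e (nat_lit 7936) (nat_lit 312) .nil))))))) (.g (nat_lit 6) .nil .nil)))) (.nd (nat_lit 5) 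
(.lf (nat_lit 724) (.g (nat_lit 2613) (.e (nat_lit 71) (nat_lit 0) (.e (nat_lit 1348) (nat_lit 102) (.e (nat_lit 286761) (nat_lit 13) (.e (nat_lit 393234) (nat_lit 17) (.e (nat_lit 7591) (nat_lit 407) (.e (nat_lit 73728) (nat_lit 0) (.e (nat_lit 6848) (nat_lit 371) .nil))))))) (.g (nat_lit 4) .nil .nil))) 
(.lf (nat_lit 756) (.g (nat_lit 3784) (.e (nat_lit 71) (nat_lit 0) (.e (nat_lit 1858) (nat_lit 124) (.e (nat_lit 557105) (nat_lit 14) (.e (nat_lit 180252) (nat_lit 10) (.e (nat_lit 573489) (nat_lit 14) (.e (nat_lit 73755) (nat_lit 8) (.e (nat_lit 557090) (nat_lit 12) (.e (nat_lit 164009) (nat_lit 41) (.e (nat_lit 663572) (nat_lit 9) .nil))))))))) (.g (nat_lit 6) .nil .nil))))) 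
(.nd (nat_lit 4) (.nd (nat_lit 5) 
(.lf (nat_lit 716) (.g (nat_lit 2005) (.e (nat_lit 70) (nat_lit 0) (.e (nat_lit 1858) (nat_lit 124) (.e (nat_lit 557109) (nat_lit 15) (.e (nat_lit 188461) (nat_lit 26) .nil)))) .nil)) 
(.lf (nat_lit 748) (.g (nat_lit 3080) (.e (nat_lit 71) (nat_lit 0) (.e (nat_lit 1858) (nat_lit 124) (.e (nat_lit 557105) (nat_lit 14) (.e (nat_lit 180252) (nat_lit 10) (.e (nat_lit 573489) (nat_lit 14) (.e (nat_lit 73755) (nat_lit 8) (.e (nat_lit 557090) (nat_lit 12) (.e (nat_lit 163843) (nat_lit 0) (.e (nat_lit 5798) (nat_lit 320) (.e (nat_lit 2431) (nat_lit 157) .nil)))))))))) (.g (nat_lit 4) .nil .nil)))) 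
(.nd (nat_lit 5) 
(.lf (nat_lit 732) (.g (nat_lit 3433) (.e (nat_lit 71) (nat_lit 0) (.e (nat_lit 1349) (nat_lit 102) (.e (nat_lit 286759) (nat_lit 12) (.e (nat_lit 385106) (nat_lit 50) (.e (nat_lit 786483) (nat_lit 30) (.e (nat_lit 360451) (nat_lit 0) (.e (nat_lit 5429) (nat_lit 306) .nil))))))) (.g (nat_lit 5) .nil .nil))) 
(.lf (nat_lit 764) (.g (nat_lit 2837) (.e (nat_lit 75) (nat_lit 0) (.e (nat_lit 6092) (nat_lit 332) (.e (nat_lit 1370) (nat_lit 103) (.e (nat_lit 294960) (nat_lit 13) (.e (nat_lit 393260) (nat_lit 21) (.e (nat_lit 409623) (nat_lit 10) (.e (nat_lit 5664) (nat_lit 312) .nil))))))) (.g (nat_lit 0) .nil .nil))))))) (.nd (nat_lit 2) (.nd (nat_lit 3) (.nd (nat_lit 4) (.nd (nat_lit 5) 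
(.lf (nat_lit 706) (.g (nat_lit 2931) (.e (nat_lit 70) (nat_lit 0) (.e (nat_lit 1858) (nat_lit 124) (.e (nat_lit 557105) (nat_lit 14) (.e (nat_lit 180252) (nat_lit 10) (.e (nat_lit 573489) (nat_lit 14) (.e (nat_lit 73755) (nat_lit 8) (.e (nat_lit 557089) (nat_lit 12) (.e (nat_lit 164010) (nat_lit 41) (.e (nat_lit 663573) (nat_lit 9) .nil))))))))) (.g (nat_lit 4) .nil .nil))) 
(.lf (nat_lit 738) (.g (nat_lit 2520) (.e (nat_lit 71) (nat_lit 0) (.e (nat_lit 1848) (nat_lit 124) (.e (nat_lit 557108) (nat_lit 15) (.e (nat_lit 188452) (nat_lit 23) (.e (nat_lit 204846) (nat_lit 24) (.e (nat_lit 319505) (nat_lit 10) (.e (nat_lit 7936) (nat_lit 312) .nil))))))) (.g (nat_lit 6) .nil .nil)))) (.nd (nat_lit 5) 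
(.lf (nat_lit 722) (.g (nat_lit 1686) (.e (nat_lit 71) (nat_lit 0) (.e (nat_lit 1348) (nat_lit 102) (.e (nat_lit 286759) (nat_lit 12) (.e (nat_lit 385094) (nat_lit 49) .nil)))) .nil)) 
(.lf (nat_lit 754) (.g (nat_lit 4527) (.e (nat_lit 71) (nat_lit 0) (.e (nat_lit 1858) (nat_lit 124) (.e (nat_lit 557105) (nat_lit 14) (.e (nat_lit 180252) (nat_lit 10) (.e (nat_lit 573489) (nat_lit 14) (.e (nat_lit 73755) (nat_lit 8) (.e (nat_lit 557090) (nat_lit 12) (.e (nat_lit 164006) (nat_lit 41) (.e (nat_lit 663572) (nat_lit 9) .nil))))))))) (.g (nat_lit 7) .nil .nil))))) 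
(.nd (nat_lit 4) (.nd (nat_lit 5) 
(.lf (nat_lit 714) (.g (nat_lit 4855) (.e (nat_lit 70) (nat_lit 0) (.e (nat_lit 1858) (nat_lit 124) (.e (nat_lit 557105) (nat_lit 14) (.e (nat_lit 180252) (nat_lit 10) (.e (nat_lit 573489) (nat_lit 14) (.e (nat_lit 73755) (nat_lit 8) (.e (nat_lit 557090) (nat_lit 12) (.e (nat_lit 164008) (nat_lit 41) (.e (nat_lit 663573) (nat_lit 9) .nil))))))))) (.g (nat_lit 7) .nil .nil))) 
(.lf (nat_lit 746) (.g (nat_lit 2823) (.e (nat_lit 71) (nat_lit 0) (.e (nat_lit 1858) (nat_lit 124) (.e (nat_lit 557105) (nat_lit 14) (.e (nat_lit 180252) (nat_lit 10) (.e (nat_lit 573489) (nat_lit 14) (.e (nat_lit 81664) (nat_lit 1) (.e (nat_lit 500056) (nat_lit 17) (.e (nat_lit 57575) (nat_lit 55) (.e (nat_lit 778362) (nat_lit 9) .nil))))))))) (.g (nat_lit 4) .nil .nil)))) (.nd (nat_lit 5) 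
(.lf (nat_lit 730) (.g (nat_lit 2456) (.e (nat_lit 71) (nat_lit 0) (.e (nat_lit 1349) (nat_lit 102) (.e (nat_lit 286759) (nat_lit 12) (.e (nat_lit 385074) (nat_lit 31) (.e (nat_lit 573484) (nat_lit 13) (.e (nat_lit 65610) (nat_lit 10) (.e (nat_lit 344088) (nat_lit 18) (.e (nat_lit 3837) (nat_lit 233) .nil)))))))) (.g (nat_lit 4) .nil .nil))) 
(.lf (nat_lit 762) (.g (nat_lit 1827) (.e (nat_lit 75) (nat_lit 0) (.e (nat_lit 3307) (nat_lit 202) (.e (nat_lit 573479) (nat_lit 13) (.e (nat_lit 65619) (nat_lit 10) (.e (nat_lit 344117) (nat_lit 21) (.e (nat_lit 516106) (nat_lit 0) (.e (nat_lit 7095) (nat_lit 380) (.e (nat_lit 164339) (nat_lit 232) .nil)))))))) (.g (nat_lit 4) .nil .nil)))))) (.nd (nat_lit 3) (.nd (nat_lit 4) (.nd (nat_lit 5) 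
(.lf (nat_lit 710) (.g (nat_lit 4802) (.e (nat_lit 70) (nat_lit 0) (.e (nat_lit 1858) (nat_lit 124) (.e (nat_lit 557105) (nat_lit 14) (.e (nat_lit 180252) (nat_lit 10) (.e (nat_lit 573489) (nat_lit 14) (.e (nat_lit 73755) (nat_lit 8) (.e (nat_lit 557090) (nat_lit 12) (.e (nat_lit 164006) (nat_lit 41) (.e (nat_lit 663572) (nat_lit 9) .nil))))))))) (.g (nat_lit 7) .nil .nil))) 
(.lf (nat_lit 742) (.g (nat_lit 3481) (.e (nat_lit 71) (nat_lit 0) (.e (nat_lit 1858) (nat_lit 124) (.e (nat_lit 557105) (nat_lit 14) (.e (nat_lit 180252) (nat_lit 10) (.e (nat_lit 573487) (nat_lit 14) (.e (nat_lit 81664) (nat_lit 5) (.e (nat_lit 532519) (nat_lit 5) (.e (nat_lit 147467) (nat_lit 9) .nil)))))))) (.g (nat_lit 4) .nil .nil)))) (.nd (nat_lit 5) 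
(.lf (nat_lit 726) (.g (nat_lit 2658) (.e (nat_lit 71) (nat_lit 0) (.e (nat_lit 1348) (nat_lit 102) (.e (nat_lit 286761) (nat_lit 13) (.e (nat_lit 393234) (nat_lit 17) (.e (nat_lit 7591) (nat_lit 407) (.e (nat_lit 73731) (nat_lit 0) (.e (nat_lit 6848) (nat_lit 371) .nil))))))) (.g (nat_lit 4) .nil .nil))) 
(.lf (nat_lit 758) (.g (nat_lit 2126) (.e (nat_lit 71) (nat_lit 0) (.e (nat_lit 1859) (nat_lit 124) (.e (nat_lit 557109) (nat_lit 15) (.e (nat_lit 188452) (nat_lit 23) (.e (nat_lit 204846) (nat_lit 24) (.e (nat_lit 319504) (nat_lit 10) (.e (nat_lit 7936) (nat_lit 312) .nil))))))) (.g (nat_lit 6) .nil .nil))))) (.nd (nat_lit 4) (.nd (nat_lit 5) 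
(.lf (nat_lit 718) (.g (nat_lit 1645) (.e (nat_lit 70) (nat_lit 0) (.e (nat_lit 2030) (nat_lit 140) (.e (nat_lit 688177) (nat_lit 16) (.e (nat_lit 65571) (nat_lit 3) .nil)))) .nil)) 
(.lf (nat_lit 750) (.g (nat_lit 2954) (.e (nat_lit 71) (nat_lit 0) (.e (nat_lit 1858) (nat_lit 124) (.e (nat_lit 557105) (nat_lit 14) (.e (nat_lit 180252) (nat_lit 10) (.e (nat_lit 573489) (nat_lit 14) (.e (nat_lit 73755) (nat_lit 8) (.e (nat_lit 557090) (nat_lit 12) (.e (nat_lit 163844) (nat_lit 0) (.e (nat_lit 5798) (nat_lit 320) (.e (nat_lit 2431) (nat_lit 157) .nil)))))))))) (.g (nat_lit 4) .nil .nil)))) 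
(.nd (nat_lit 5) 
(.lf (nat_lit 734) (.g (nat_lit 1825) (.e (nat_lit 71) (nat_lit 0) (.e (nat_lit 1349) (nat_lit 102) (.e (nat_lit 286761) (nat_lit 13) (.e (nat_lit 393234) (nat_lit 17) (.e (nat_lit 7593) (nat_lit 407) .nil))))) .nil)) 
(.lf (nat_lit 766) (.g (nat_lit 2913) (.e (nat_lit 75) (nat_lit 0) (.e (nat_lit 6112) (nat_lit 332) (.e (nat_lit 1370) (nat_lit 103) (.e (nat_lit 294960) (nat_lit 13) (.e (nat_lit 393260) (nat_lit 21) (.e (nat_lit 409623) (nat_lit 10) (.e (nat_lit 5664) (nat_lit 312) .nil))))))) (.g (nat_lit 0) .nil .nil)))))))) (.nd (nat_lit 1) (.nd (nat_lit 2) (.nd (nat_lit 3) (.nd (nat_lit 4) (.nd (nat_lit 5) 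
(.lf (nat_lit 705) (.g (nat_lit 2874) (.e (nat_lit 70) (nat_lit 0) (.e (nat_lit 1858) (nat_lit 124) (.e (nat_lit 557105) (nat_lit 14) (.e (nat_lit 180252) (nat_lit 10) (.e (nat_lit 573489) (nat_lit 14) (.e (nat_lit 73755) (nat_lit 8) (.e (nat_lit 557089) (nat_lit 12) (.e (nat_lit 164007) (nat_lit 41) (.e (nat_lit 663573) (nat_lit 9) .nil))))))))) (.g (nat_lit 4) .nil .nil))) 
(.lf (nat_lit 737) (.g (nat_lit 2129) (.e (nat_lit 71) (nat_lit 0) (.e (nat_lit 1848) (nat_lit 124) (.e (nat_lit 557108) (nat_lit 15) (.e (nat_lit 188452) (nat_lit 23) (.e (nat_lit 204846) (nat_lit 24) (.e (nat_lit 319504) (nat_lit 10) (.e (nat_lit 7936) (nat_lit 312) .nil))))))) (.g (nat_lit 6) .nil .nil)))) (.nd (nat_lit 5) 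
(.lf (nat_lit 721) (.g (nat_lit 2502) (.e (nat_lit 71) (nat_lit 0) (.e (nat_lit 1348) (nat_lit 102) (.e (nat_lit 286759) (nat_lit 12) (.e (nat_lit 385074) (nat_lit 31) (.e (nat_lit 573484) (nat_lit 13) .nil))))) .nil)) 
(.lf (nat_lit 753) (.g (nat_lit 3034) (.e (nat_lit 71) (nat_lit 0) (.e (nat_lit 1858) (nat_lit 124) (.e (nat_lit 557105) (nat_lit 14) (.e (nat_lit 180252) (nat_lit 10) (.e (nat_lit 573489) (nat_lit 14) (.e (nat_lit 73755) (nat_lit 8) (.e (nat_lit 557090) (nat_lit 12) (.e (nat_lit 164005) (nat_lit 41) (.e (nat_lit 663572) (nat_lit 9) .nil))))))))) (.g (nat_lit 4) .nil .nil))))) 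
(.nd (nat_lit 4) (.nd (nat_lit 5) 
(.lf (nat_lit 713) (.g (nat_lit 4835) (.e (nat_lit 70) (nat_lit 0) (.e (nat_lit 1858) (nat_lit 124) (.e (nat_lit 557105) (nat_lit 14) (.e (nat_lit 180252) (nat_lit 10) (.e (nat_lit 573489) (nat_lit 14) (.e (nat_lit 73755) (nat_lit 8) (.e (nat_lit 557090) (nat_lit 12) (.e (nat_lit 164007) (nat_lit 41) (.e (nat_lit 663573) (nat_lit 9) .nil))))))))) (.g (nat_lit 8) .nil .nil))) 
(.lf (nat_lit 745) (.g (nat_lit 2682) (.e (nat_lit 71) (nat_lit 0) (.e (nat_lit 1858) (nat_lit 124) (.e (nat_lit 557105) (nat_lit 14) (.e (nat_lit 180252) (nat_lit 10) (.e (nat_lit 573489) (nat_lit 14) .nil))))) .nil))) (.nd (nat_lit 5) 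
(.lf (nat_lit 729) (.g (nat_lit 2349) (.e (nat_lit 71) (nat_lit 0) (.e (nat_lit 1349) (nat_lit 102) (.e (nat_lit 286759) (nat_lit 12) (.e (nat_lit 385074) (nat_lit 31) (.e (nat_lit 573484) (nat_lit 13) .nil))))) .nil)) 
(.lf (nat_lit 761) (.g (nat_lit 1817) (.e (nat_lit 75) (nat_lit 0) (.e (nat_lit 3307) (nat_lit 202) (.e (nat_lit 573479) (nat_lit 13) (.e (nat_lit 65619) (nat_lit 10) (.e (nat_lit 344117) (nat_lit 21) (.e (nat_lit 516106) (nat_lit 0) (.e (nat_lit 7095) (nat_lit 380) (.e (nat_lit 164337) (nat_lit 232) .nil)))))))) (.g (nat_lit 4) .nil .nil)))))) (.nd (nat_lit 3) (.nd (nat_lit 4) (.nd (nat_lit 5) 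
(.lf (nat_lit 709) (.g (nat_lit 3759) (.e (nat_lit 70) (nat_lit 0) (.e (nat_lit 1858) (nat_lit 124) (.e (nat_lit 557105) (nat_lit 14) (.e (nat_lit 180252) (nat_lit 10) (.e (nat_lit 573489) (nat_lit 14) (.e (nat_lit 73755) (nat_lit 8) (.e (nat_lit 557090) (nat_lit 12) (.e (nat_lit 164005) (nat_lit 41) (.e (nat_lit 663573) (nat_lit 9) .nil))))))))) (.g (nat_lit 6) .nil .nil))) 
(.lf (nat_lit 741) (.g (nat_lit 3366) (.e (nat_lit 71) (nat_lit 0) (.e (nat_lit 1858) (nat_lit 124) (.e (nat_lit 557105) (nat_lit 14) (.e (nat_lit 180252) (nat_lit 10) (.e (nat_lit 573487) (nat_lit 14) (.e (nat_lit 81664) (nat_lit 1) (.e (nat_lit 500056) (nat_lit 17) (.e (nat_lit 57575) (nat_lit 55) (.e (nat_lit 778362) (nat_lit 9) .nil))))))))) (.g (nat_lit 4) .nil .nil)))) (.nd (nat_lit 5) 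
(.lf (nat_lit 725) (.g (nat_lit 3225) (.e (nat_lit 71) (nat_lit 0) (.e (nat_lit 1348) (nat_lit 102) (.e (nat_lit 286761) (nat_lit 13) (.e (nat_lit 393234) (nat_lit 17) (.e (nat_lit 7591) (nat_lit 407) (.e (nat_lit 73730) (nat_lit 0) (.e (nat_lit 6848) (nat_lit 371) .nil))))))) (.g (nat_lit 5) .nil .nil))) 
(.lf (nat_lit 757) (.g (nat_lit 3943) (.e (nat_lit 71) (nat_lit 0) (.e (nat_lit 1858) (nat_lit 124) (.e (nat_lit 557105) (nat_lit 14) (.e (nat_lit 180252) (nat_lit 10) (.e (nat_lit 573489) (nat_lit 14) (.e (nat_lit 73755) (nat_lit 8) (.e (nat_lit 557090) (nat_lit 12) (.e (nat_lit 164010) (nat_lit 41) (.e (nat_lit 663572) (nat_lit 9) .nil))))))))) (.g (nat_lit 6) .nil .nil))))) 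
(.nd (nat_lit 4) (.nd (nat_lit 5) 
(.lf (nat_lit 717) (.g (nat_lit 2486) (.e (nat_lit 70) (nat_lit 0) (.e (nat_lit 1859) (nat_lit 124) (.e (nat_lit 557109) (nat_lit 15) (.e (nat_lit 188452) (nat_lit 23) (.e (nat_lit 204846) (nat_lit 24) (.e (nat_lit 319504) (nat_lit 10) (.e (nat_lit 7936) (nat_lit 312) .nil))))))) (.g (nat_lit 6) .nil .nil))) 
(.lf (nat_lit 749) (.g (nat_lit 2891) (.e (nat_lit 71) (nat_lit 0) (.e (nat_lit 1858) (nat_lit 124) (.e (nat_lit 557105) (nat_lit 14) (.e (nat_lit 180252) (nat_lit 10) (.e (nat_lit 573489) (nat_lit 14) (.e (nat_lit 73755) (nat_lit 8) (.e (nat_lit 557090) (nat_lit 12) (.e (nat_lit 163843) (nat_lit 0) (.e (nat_lit 5800) (nat_lit 320) (.e (nat_lit 2431) (nat_lit 157) .nil)))))))))) (.g (nat_lit 4) .nil .nil)))) 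
(.nd (nat_lit 5) 
(.lf (nat_lit 733) (.g (nat_lit 2963) (.e (nat_lit 71) (nat_lit 0) (.e (nat_lit 1349) (nat_lit 102) (.e (nat_lit 286761) (nat_lit 13) (.e (nat_lit 393234) (nat_lit 17) (.e (nat_lit 7591) (nat_lit 407) (.e (nat_lit 73730) (nat_lit 0) (.e (nat_lit 6848) (nat_lit 371) .nil))))))) (.g (nat_lit 6) .nil .nil))) 
(.lf (nat_lit 765) (.g (nat_lit 3046) (.e (nat_lit 75) (nat_lit 0) (.e (nat_lit 6112) (nat_lit 332) (.e (nat_lit 1361) (nat_lit 102) (.e (nat_lit 286761) (nat_lit 13) (.e (nat_lit 393265) (nat_lit 22) (.e (nat_lit 417820) (nat_lit 10) (.e (nat_lit 5664) (nat_lit 312) .nil))))))) (.g (nat_lit 0) .nil .nil))))))) (.nd (nat_lit 2) (.nd (nat_lit 3) (.nd (nat_lit 4) (.nd (nat_lit 5) 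
(.lf (nat_lit 707) (.g (nat_lit 3539) (.e (nat_lit 70) (nat_lit 0) (.e (nat_lit 1858) (nat_lit 124) (.e (nat_lit 557105) (nat_lit 14) (.e (nat_lit 180252) (nat_lit 10) (.e (nat_lit 573489) (nat_lit 14) (.e (nat_lit 73755) (nat_lit 8) (.e (nat_lit 557090) (nat_lit 12) (.e (nat_lit 164004) (nat_lit 41) (.e (nat_lit 663572) (nat_lit 9) .nil))))))))) (.g (nat_lit 6) .nil .nil))) 
(.lf (nat_lit 739) (.g (nat_lit 1603) (.e (nat_lit 71) (nat_lit 0) (.e (nat_lit 1849) (nat_lit 124) (.e (nat_lit 557108) (nat_lit 15) (.e (nat_lit 188452) (nat_lit 23) (.e (nat_lit 204846) (nat_lit 24) (.e (nat_lit 319504) (nat_lit 10) (.e (nat_lit 7936) (nat_lit 312) .nil))))))) (.g (nat_lit 6) .nil .nil)))) (.nd (nat_lit 5) 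
(.lf (nat_lit 723) (.g (nat_lit 1897) (.e (nat_lit 71) (nat_lit 0) (.e (nat_lit 1348) (nat_lit 102) (.e (nat_lit 286759) (nat_lit 12) (.e (nat_lit 385102) (nat_lit 50) .nil)))) .nil)) 
(.lf (nat_lit 755) (.g (nat_lit 4753) (.e (nat_lit 71) (nat_lit 0) (.e (nat_lit 1858) (nat_lit 124) (.e (nat_lit 557105) (nat_lit 14) (.e (nat_lit 180252) (nat_lit 10) (.e (nat_lit 573489) (nat_lit 14) (.e (nat_lit 73755) (nat_lit 8) (.e (nat_lit 557090) (nat_lit 12) (.e (nat_lit 164007) (nat_lit 41) (.e (nat_lit 663572) (nat_lit 9) .nil))))))))) (.g (nat_lit 8) .nil .nil))))) 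
(.nd (nat_lit 4) (.nd (nat_lit 5) 
(.lf (nat_lit 715) (.g (nat_lit 3612) (.e (nat_lit 70) (nat_lit 0) (.e (nat_lit 1858) (nat_lit 124) (.e (nat_lit 557105) (nat_lit 14) (.e (nat_lit 180252) (nat_lit 10) (.e (nat_lit 573489) (nat_lit 14) (.e (nat_lit 73755) (nat_lit 8) (.e (nat_lit 557090) (nat_lit 12) (.e (nat_lit 164009) (nat_lit 41) (.e (nat_lit 663573) (nat_lit 9) .nil))))))))) (.g (nat_lit 6) .nil .nil))) 
(.lf (nat_lit 747) (.g (nat_lit 2879) (.e (nat_lit 71) (nat_lit 0) (.e (nat_lit 1858) (nat_lit 124) (.e (nat_lit 557105) (nat_lit 14) (.e (nat_lit 180252) (nat_lit 10) (.e (nat_lit 573489) (nat_lit 14) (.e (nat_lit 73755) (nat_lit 8) (.e (nat_lit 557089) (nat_lit 12) (.e (nat_lit 164007) (nat_lit 41) (.e (nat_lit 663572) (nat_lit 9) .nil))))))))) (.g (nat_lit 4) .nil .nil)))) (.nd (nat_lit 5) 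
(.lf (nat_lit 731) (.g (nat_lit 1826) (.e (nat_lit 71) (nat_lit 0) (.e (nat_lit 1349) (nat_lit 102) (.e (nat_lit 286759) (nat_lit 12) (.e (nat_lit 385094) (nat_lit 49) .nil)))) .nil)) 
(.lf (nat_lit 763) (.g (nat_lit 1887) (.e (nat_lit 75) (nat_lit 0) (.e (nat_lit 3307) (nat_lit 202) (.e (nat_lit 573479) (nat_lit 13) (.e (nat_lit 65619) (nat_lit 10) (.e (nat_lit 344117) (nat_lit 21) (.e (nat_lit 516106) (nat_lit 0) (.e (nat_lit 7095) (nat_lit 380) (.e (nat_lit 164340) (nat_lit 232) .nil)))))))) (.g (nat_lit 4) .nil .nil)))))) (.nd (nat_lit 3) (.nd (nat_lit 4) (.nd (nat_lit 5) 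
(.lf (nat_lit 711) (.g (nat_lit 3840) (.e (nat_lit 70) (nat_lit 0) (.e (nat_lit 1858) (nat_lit 124) (.e (nat_lit 557105) (nat_lit 14) (.e (nat_lit 180252) (nat_lit 10) (.e (nat_lit 573489) (nat_lit 14) (.e (nat_lit 73755) (nat_lit 8) (.e (nat_lit 557090) (nat_lit 12) (.e (nat_lit 164006) (nat_lit 41) (.e (nat_lit 663573) (nat_lit 9) .nil))))))))) (.g (nat_lit 6) .nil .nil))) 
(.lf (nat_lit 743) (.g (nat_lit 3239) (.e (nat_lit 71) (nat_lit 0) (.e (nat_lit 1858) (nat_lit 124) (.e (nat_lit 557105) (nat_lit 14) (.e (nat_lit 180252) (nat_lit 10) (.e (nat_lit 573488) (nat_lit 14) .nil))))) .nil))) (.nd (nat_lit 5) 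
(.lf (nat_lit 727) (.g (nat_lit 2330) (.e (nat_lit 71) (nat_lit 0) (.e (nat_lit 1348) (nat_lit 102) (.e (nat_lit 286761) (nat_lit 13) (.e (nat_lit 393234) (nat_lit 17) (.e (nat_lit 7593) (nat_lit 407) .nil))))) .nil)) 
(.lf (nat_lit 759) (.g (nat_lit 2304) (.e (nat_lit 71) (nat_lit 0) (.e (nat_lit 1859) (nat_lit 124) (.e (nat_lit 557109) (nat_lit 15) (.e (nat_lit 188452) (nat_lit 23) (.e (nat_lit 204846) (nat_lit 24) (.e (nat_lit 319505) (nat_lit 10) (.e (nat_lit 7936) (nat_lit 312) .nil))))))) (.g (nat_lit 6) .nil .nil))))) (.nd (nat_lit 4) (.nd (nat_lit 5) 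
(.lf (nat_lit 719) (.g (nat_lit 2205) (.e (nat_lit 70) (nat_lit 0) (.e (nat_lit 6264) (nat_lit 337) (.e (nat_lit 1221) (nat_lit 90) (.e (nat_lit 81965) (nat_lit 26) (.e (nat_lit 147496) (nat_lit 11) (.e (nat_lit 24617) (nat_lit 7) (.e (nat_lit 327424) (nat_lit 10) .nil))))))) (.g (nat_lit 6) .nil .nil))) 
(.lf (nat_lit 751) (.g (nat_lit 2770) (.e (nat_lit 71) (nat_lit 0) (.e (nat_lit 1858) (nat_lit 124) (.e (nat_lit 557105) (nat_lit 14) (.e (nat_lit 180252) (nat_lit 10) (.e (nat_lit 573489) (nat_lit 14) (.e (nat_lit 73755) (nat_lit 8) (.e (nat_lit 557090) (nat_lit 12) (.e (nat_lit 163844) (nat_lit 0) (.e (nat_lit 5800) (nat_lit 320) (.e (nat_lit 2431) (nat_lit 157) .nil)))))))))) (.g (nat_lit 4) .nil .nil)))) 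
(.nd (nat_lit 5) 
(.lf (nat_lit 735) (.g (nat_lit 1942) (.e (nat_lit 71) (nat_lit 0) (.e (nat_lit 1349) (nat_lit 102) (.e (nat_lit 286761) (nat_lit 13) (.e (nat_lit 393234) (nat_lit 17) (.e (nat_lit 7593) (nat_lit 407) (.e (nat_lit 73728) (nat_lit 0) (.e (nat_lit 6848) (nat_lit 371) .nil))))))) (.g (nat_lit 4) .nil .nil))) 
(.lf (nat_lit 767) (.g (nat_lit 2346) (.e (nat_lit 75) (nat_lit 0) (.e (nat_lit 6986) (nat_lit 377) (.e (nat_lit 1370) (nat_lit 103) (.e (nat_lit 294960) (nat_lit 13) (.e (nat_lit 393260) (nat_lit 21) (.e (nat_lit 409623) (nat_lit 10) (.e (nat_lit 5293) (nat_lit 298) .nil))))))) (.g (nat_lit 4) .nil .nil)))))))))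

noncomputable def tv012 : DT := (.nd (nat_lit 0) (.nd (nat_lit 1) (.nd (nat_lit 2) (.nd (nat_lit 3) (.nd (nat_lit 4) (.nd (nat_lit 5) 
(.lf (nat_lit 768) (.g (nat_lit 2002) (.e (nat_lit 77) (nat_lit 0) (.e (nat_lit 3307) (nat_lit 202) (.e (nat_lit 573479) (nat_lit 13) (.e (nat_lit 65619) (nat_lit 10) (.e (nat_lit 344117) (nat_lit 21) (.e (nat_lit 516106) (nat_lit 0) (.e (nat_lit 7095) (nat_lit 380) (.e (nat_lit 164337) (nat_lit 232) .nil)))))))) (.g (nat_lit 4) .nil .nil))) 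
(.lf (nat_lit 800) (.g (nat_lit 2941) (.e (nat_lit 87) (nat_lit 0) (.e (nat_lit 2426) (nat_lit 157) (.e (nat_lit 5355) (nat_lit 298) (.e (nat_lit 1661) (nat_lit 115) (.e (nat_lit 393260) (nat_lit 21) (.e (nat_lit 409648) (nat_lit 18) (.e (nat_lit 303114) (nat_lit 1) (.e (nat_lit 164151) (nat_lit 152) .nil)))))))) (.g (nat_lit 7) .nil .nil)))) (.nd (nat_lit 5) 
(.lf (nat_lit 784) (.g (nat_lit 2915) (.e (nat_lit 79) (nat_lit 0) (.e (nat_lit 1856) (nat_lit 124) (.e (nat_lit 557105) (nat_lit 14) (.e (nat_lit 180252) (nat_lit 10) (.e (nat_lit 573489) (nat_lit 14) (.e (nat_lit 73755) (nat_lit 8) (.e (nat_lit 557090) (nat_lit 12) (.e (nat_lit 164006) (nat_lit 41) (.e (nat_lit 663574) (nat_lit 9) .nil))))))))) (.g (nat_lit 5) .nil .nil))) 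
(.lf (nat_lit 816) (.g (nat_lit 2106) (.e (nat_lit 7936) (nat_lit 0) (.e (nat_lit 1859) (nat_lit 124) (.e (nat_lit 557109) (nat_lit 15) (.e (nat_lit 188449) (nat_lit 22) (.e (nat_lit 196661) (nat_lit 12) .nil))))) .nil)))) (.nd (nat_lit 4) (.nd (nat_lit 5) 
(.lf (nat_lit 776) (.g (nat_lit 1893) (.e (nat_lit 79) (nat_lit 0) (.e (nat_lit 1855) (nat_lit 124) (.e (nat_lit 557105) (nat_lit 14) (.e (nat_lit 180252) (nat_lit 10) (.e (nat_lit 573489) (nat_lit 14) .nil))))) .nil)) 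
(.lf (nat_lit 808) (.g (nat_lit 2527) (.e (nat_lit 87) (nat_lit 0) (.e (nat_lit 2787) (nat_lit 179) (.e (nat_lit 294959) (nat_lit 13) (.e (nat_lit 393260) (nat_lit 21) (.e (nat_lit 409649) (nat_lit 18) (.e (nat_lit 303115) (nat_lit 1) (.e (nat_lit 164151) (nat_lit 152) .nil))))))) (.g (nat_lit 0) .nil .nil)))) (.nd (nat_lit 5) 
(.lf (nat_lit 792) (.g (nat_lit 3409) (.e (nat_lit 81) (nat_lit 0) (.e (nat_lit 1856) (nat_lit 124) (.e (nat_lit 557105) (nat_lit 14) (.e (nat_lit 180252) (nat_lit 10) (.e (nat_lit 573489) (nat_lit 14) (.e (nat_lit 73755) (nat_lit 8) (.e (nat_lit 557090) (nat_lit 12) (.e (nat_lit 164005) (nat_lit 41) (.e (nat_lit 663574) (nat_lit 9) .nil))))))))) (.g (nat_lit 6) .nil .nil))) 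
(.lf (nat_lit 824) (.g (nat_lit 2472) (.e (nat_lit 92) (nat_lit 1) (.e (nat_lit 57809) (nat_lit 246) (.e (nat_lit 57815) (nat_lit 246) (.e (nat_lit 57584) (nat_lit 61) (.e (nat_lit 5193) (nat_lit 294) (.e (nat_lit 57437) (nat_lit 17) (.e (nat_lit 376860) (nat_lit 21) (.e (nat_lit 57832) (nat_lit 250) .nil)))))))) (.g (nat_lit 8) .nil .nil)))))) (.nd (nat_lit 3) (.nd (nat_lit 4) (.nd (nat_lit 5) 
(.lf (nat_lit 772) (.g (nat_lit 1865) (.e (nat_lit 78) (nat_lit 0) (.e (nat_lit 3307) (nat_lit 202) (.e (nat_lit 573479) (nat_lit 13) (.e (nat_lit 65619) (nat_lit 10) (.e (nat_lit 344117) (nat_lit 21) (.e (nat_lit 516106) (nat_lit 0) (.e (nat_lit 7112) (nat_lit 381) (.e (nat_lit 229644) (nat_lit 232) .nil)))))))) (.g (nat_lit 4) .nil .nil))) 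
(.lf (nat_lit 804) (.g (nat_lit 3066) (.e (nat_lit 87) (nat_lit 0) (.e (nat_lit 2427) (nat_lit 157) (.e (nat_lit 5355) (nat_lit 298) (.e (nat_lit 1661) (nat_lit 115) (.e (nat_lit 393260) (nat_lit 21) (.e (nat_lit 409649) (nat_lit 18) (.e (nat_lit 303114) (nat_lit 1) (.e (nat_lit 164151) (nat_lit 152) .nil)))))))) (.g (nat_lit 6) .nil .nil)))) (.nd (nat_lit 5) 
(.lf (nat_lit 788) (.g (nat_lit 2486) (.e (nat_lit 81) (nat_lit 0) (.e (nat_lit 1856) (nat_lit 124) (.e (nat_lit 557105) (nat_lit 14) (.e (nat_lit 180252) (nat_lit 10) (.e (nat_lit 573489) (nat_lit 14) .nil))))) .nil)) 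
(.lf (nat_lit 820) (.g (nat_lit 1273) (.e (nat_lit 92) (nat_lit 1) (.e (nat_lit 57599) (nat_lit 84) (.e (nat_lit 516151) (nat_lit 9) (.e (nat_lit 426211) (nat_lit 9) .nil)))) .nil)))) (.nd (nat_lit 4) (.nd (nat_lit 5) 
(.lf (nat_lit 780) (.g (nat_lit 4603) (.e (nat_lit 79) (nat_lit 0) (.e (nat_lit 1855) (nat_lit 124) (.e (nat_lit 557105) (nat_lit 14) (.e (nat_lit 180252) (nat_lit 10) (.e (nat_lit 573489) (nat_lit 14) (.e (nat_lit 73755) (nat_lit 8) (.e (nat_lit 557090) (nat_lit 12) (.e (nat_lit 164007) (nat_lit 41) (.e (nat_lit 663580) (nat_lit 9) .nil))))))))) (.g (nat_lit 9) .nil .nil))) 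
(.lf (nat_lit 812) (.g (nat_lit 2101) (.e (nat_lit 7936) (nat_lit 0) (.e (nat_lit 1348) (nat_lit 102) (.e (nat_lit 286759) (nat_lit 12) (.e (nat_lit 385094) (nat_lit 49) (.e (nat_lit 778327) (nat_lit 6) .nil))))) .nil))) (.nd (nat_lit 5) 
(.lf (nat_lit 796) (.g (nat_lit 2322) (.e (nat_lit 84) (nat_lit 0) (.e (nat_lit 6216) (nat_lit 333) (.e (nat_lit 57887) (nat_lit 270) (.e (nat_lit 1656) (nat_lit 115) (.e (nat_lit 393265) (nat_lit 22) (.e (nat_lit 417820) (nat_lit 10) (.e (nat_lit 5612) (nat_lit 312) .nil))))))) (.g (nat_lit 6) .nil .nil))) 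
(.lf (nat_lit 828) (.g (nat_lit 2554) (.e (nat_lit 98) (nat_lit 2) (.e (nat_lit 90170) (nat_lit 13) (.e (nat_lit 172106) (nat_lit 10) (.e (nat_lit 434202) (nat_lit 18) .nil)))) .nil)))))) (.nd (nat_lit 2) (.nd (nat_lit 3) (.nd (nat_lit 4) (.nd (nat_lit 5) 
(.lf (nat_lit 770) (.g (nat_lit 2021) (.e (nat_lit 77) (nat_lit 0) (.e (nat_lit 3307) (nat_lit 202) (.e (nat_lit 573479) (nat_lit 13) (.e (nat_lit 65619) (nat_lit 10) (.e (nat_lit 344117) (nat_lit 21) (.e (nat_lit 516106) (nat_lit 0) (.e (nat_lit 7095) (nat_lit 380) (.e (nat_lit 164339) (nat_lit 232) .nil)))))))) (.g (nat_lit 4) .nil .nil))) 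
(.lf (nat_lit 802) (.g (nat_lit 3283) (.e (nat_lit 87) (nat_lit 0) (.e (nat_lit 2427) (nat_lit 157) (.e (nat_lit 5355) (nat_lit 298) (.e (nat_lit 1661) (nat_lit 115) (.e (nat_lit 393260) (nat_lit 21) (.e (nat_lit 409648) (nat_lit 18) (.e (nat_lit 303114) (nat_lit 1) (.e (nat_lit 164151) (nat_lit 152) .nil)))))))) (.g (nat_lit 8) .nil .nil)))) (.nd (nat_lit 5) 
(.lf (nat_lit 786) (.g (nat_lit 2895) (.e (nat_lit 79) (nat_lit 0) (.e (nat_lit 1856) (nat_lit 124) (.e (nat_lit 557105) (nat_lit 14) (.e (nat_lit 180252) (nat_lit 10) (.e (nat_lit 573489) (nat_lit 14) (.e (nat_lit 73755) (nat_lit 8) (.e (nat_lit 557090) (nat_lit 12) (.e (nat_lit 164009) (nat_lit 41) (.e (nat_lit 663576) (nat_lit 9) .nil))))))))) (.g (nat_lit 5) .nil .nil))) 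
(.lf (nat_lit 818) (.g (nat_lit 1857) (.e (nat_lit 7936) (nat_lit 0) (.e (nat_lit 1860) (nat_lit 124) (.e (nat_lit 557101) (nat_lit 13) (.e (nat_lit 172097) (nat_lit 9) (.e (nat_lit 426140) (nat_lit 3) .nil))))) .nil)))) (.nd (nat_lit 4) (.nd (nat_lit 5) 
(.lf (nat_lit 778) (.g (nat_lit 1928) (.e (nat_lit 79) (nat_lit 0) (.e (nat_lit 1855) (nat_lit 124) (.e (nat_lit 557105) (nat_lit 14) (.e (nat_lit 180252) (nat_lit 10) (.e (nat_lit 573489) (nat_lit 14) (.e (nat_lit 73755) (nat_lit 8) (.e (nat_lit 557090) (nat_lit 12) (.e (nat_lit 164005) (nat_lit 41) (.e (nat_lit 663580) (nat_lit 9) .nil))))))))) (.g (nat_lit 4) .nil .nil))) 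
(.lf (nat_lit 810) (.g (nat_lit 2993) (.e (nat_lit 87) (nat_lit 0) (.e (nat_lit 6216) (nat_lit 333) (.e (nat_lit 57887) (nat_lit 270) (.e (nat_lit 1656) (nat_lit 115) (.e (nat_lit 393265) (nat_lit 22) (.e (nat_lit 417820) (nat_lit 10) (.e (nat_lit 5612) (nat_lit 312) .nil))))))) (.g (nat_lit 0) .nil .nil)))) (.nd (nat_lit 5) 
(.lf (nat_lit 794) (.g (nat_lit 2332) (.e (nat_lit 82) (nat_lit 0) (.e (nat_lit 1855) (nat_lit 124) (.e (nat_lit 557105) (nat_lit 14) (.e (nat_lit 180252) (nat_lit 10) (.e (nat_lit 573489) (nat_lit 14) (.e (nat_lit 73755) (nat_lit 8) (.e (nat_lit 557090) (nat_lit 12) (.e (nat_lit 164007) (nat_lit 41) (.e (nat_lit 663578) (nat_lit 9) .nil))))))))) (.g (nat_lit 5) .nil .nil))) 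
(.lf (nat_lit 826) (.g (nat_lit 1403) (.e (nat_lit 97) (nat_lit 1) (.e (nat_lit 57895) (nat_lit 272) (.e (nat_lit 16473) (nat_lit 14) (.e (nat_lit 491560) (nat_lit 10) .nil)))) .nil))))) (.nd (nat_lit 3) (.nd (nat_lit 4) (.nd (nat_lit 5) 
(.lf (nat_lit 774) (.g (nat_lit 1933) (.e (nat_lit 78) (nat_lit 0) (.e (nat_lit 3307) (nat_lit 202) (.e (nat_lit 573479) (nat_lit 13) (.e (nat_lit 65619) (nat_lit 10) (.e (nat_lit 344117) (nat_lit 21) (.e (nat_lit 516106) (nat_lit 0) (.e (nat_lit 7112) (nat_lit 381) (.e (nat_lit 229646) (nat_lit 232) .nil)))))))) (.g (nat_lit 4) .nil .nil))) 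
(.lf (nat_lit 806) (.g (nat_lit 2630) (.e (nat_lit 87) (nat_lit 0) (.e (nat_lit 2787) (nat_lit 179) (.e (nat_lit 294959) (nat_lit 13) (.e (nat_lit 393260) (nat_lit 21) (.e (nat_lit 409646) (nat_lit 18) (.e (nat_lit 303115) (nat_lit 1) (.e (nat_lit 164151) (nat_lit 152) .nil))))))) (.g (nat_lit 7) .nil .nil)))) (.nd (nat_lit 5) 
(.lf (nat_lit 790) (.g (nat_lit 2929) (.e (nat_lit 81) (nat_lit 0) (.e (nat_lit 1856) (nat_lit 124) (.e (nat_lit 557105) (nat_lit 14) (.e (nat_lit 180252) (nat_lit 10) (.e (nat_lit 573489) (nat_lit 14) (.e (nat_lit 73755) (nat_lit 8) (.e (nat_lit 557089) (nat_lit 12) (.e (nat_lit 164007) (nat_lit 41) (.e (nat_lit 663574) (nat_lit 9) .nil))))))))) (.g (nat_lit 5) .nil .nil))) 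
(.lf (nat_lit 822) (.g (nat_lit 7231) (.e (nat_lit 92) (nat_lit 1) (.e (nat_lit 57599) (nat_lit 84) (.e (nat_lit 516151) (nat_lit 9) (.e (nat_lit 426211) (nat_lit 9) (.e (nat_lit 426125) (nat_lit 2) (.e (nat_lit 196681) (nat_lit 17) (.e (nat_lit 131089) (nat_lit 1) (.e (nat_lit 57832) (nat_lit 250) .nil)))))))) (.g (nat_lit 8) .nil .nil))))) (.nd (nat_lit 4) (.nd (nat_lit 5) 
(.lf (nat_lit 782) (.g (nat_lit 2467) (.e (nat_lit 79) (nat_lit 0) (.e (nat_lit 1856) (nat_lit 124) (.e (nat_lit 557105) (nat_lit 14) (.e (nat_lit 180252) (nat_lit 10) (.e (nat_lit 573489) (nat_lit 14) .nil))))) .nil)) 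
(.lf (nat_lit 814) (.g (nat_lit 2100) (.e (nat_lit 7936) (nat_lit 0) (.e (nat_lit 1349) (nat_lit 102) (.e (nat_lit 286759) (nat_lit 12) (.e (nat_lit 385094) (nat_lit 49) (.e (nat_lit 778327) (nat_lit 6) .nil))))) .nil))) (.nd (nat_lit 5) 
(.lf (nat_lit 798) (.g (nat_lit 2168) (.e (nat_lit 84) (nat_lit 0) (.e (nat_lit 6306) (nat_lit 337) (.e (nat_lit 1221) (nat_lit 90) (.e (nat_lit 81965) (nat_lit 26) (.e (nat_lit 147496) (nat_lit 11) (.e (nat_lit 24617) (nat_lit 7) (.e (nat_lit 327424) (nat_lit 10) .nil))))))) (.g (nat_lit 5) .nil .nil))) 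
(.lf (nat_lit 830) (.g (nat_lit 2420) (.e (nat_lit 98) (nat_lit 2) (.e (nat_lit 90170) (nat_lit 13) (.e (nat_lit 172106) (nat_lit 10) (.e (nat_lit 434231) (nat_lit 23) .nil)))) .nil))))))) (.nd (nat_lit 1) (.nd (nat_lit 2) (.nd (nat_lit 3) (.nd (nat_lit 4) (.nd (nat_lit 5) 
(.lf (nat_lit 769) (.g (nat_lit 2016) (.e (nat_lit 77) (nat_lit 0) (.e (nat_lit 3307) (nat_lit 202) (.e (nat_lit 573479) (nat_lit 13) (.e (nat_lit 65619) (nat_lit 10) (.e (nat_lit 344117) (nat_lit 21) (.e (nat_lit 516106) (nat_lit 0) (.e (nat_lit 7095) (nat_lit 380) (.e (nat_lit 164338) (nat_lit 232) .nil)))))))) (.g (nat_lit 4) .nil .nil))) 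
(.lf (nat_lit 801) (.g (nat_lit 3489) (.e (nat_lit 87) (nat_lit 0) (.e (nat_lit 2426) (nat_lit 157) (.e (nat_lit 5355) (nat_lit 298) (.e (nat_lit 1661) (nat_lit 115) (.e (nat_lit 393260) (nat_lit 21) (.e (nat_lit 409649) (nat_lit 18) (.e (nat_lit 303115) (nat_lit 1) (.e (nat_lit 164151) (nat_lit 152) .nil)))))))) (.g (nat_lit 8) .nil .nil)))) (.nd (nat_lit 5) 
(.lf (nat_lit 785) (.g (nat_lit 2517) (.e (nat_lit 79) (nat_lit 0) (.e (nat_lit 1856) (nat_lit 124) (.e (nat_lit 557105) (nat_lit 14) (.e (nat_lit 180252) (nat_lit 10) (.e (nat_lit 573489) (nat_lit 14) (.e (nat_lit 73755) (nat_lit 8) (.e (nat_lit 557090) (nat_lit 12) (.e (nat_lit 164007) (nat_lit 41) (.e (nat_lit 663578) (nat_lit 9) .nil))))))))) (.g (nat_lit 4) .nil .nil))) 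
(.lf (nat_lit 817) (.g (nat_lit 2177) (.e (nat_lit 7936) (nat_lit 0) (.e (nat_lit 1859) (nat_lit 124) (.e (nat_lit 557109) (nat_lit 15) (.e (nat_lit 188452) (nat_lit 23) (.e (nat_lit 204821) (nat_lit 17) .nil))))) .nil)))) (.nd (nat_lit 4) (.nd (nat_lit 5) 
(.lf (nat_lit 777) (.g (nat_lit 1997) (.e (nat_lit 79) (nat_lit 0) (.e (nat_lit 1855) (nat_lit 124) (.e (nat_lit 557105) (nat_lit 14) (.e (nat_lit 180252) (nat_lit 10) (.e (nat_lit 573489) (nat_lit 14) (.e (nat_lit 73755) (nat_lit 8) (.e (nat_lit 557090) (nat_lit 12) (.e (nat_lit 164005) (nat_lit 41) (.e (nat_lit 663578) (nat_lit 9) .nil))))))))) (.g (nat_lit 4) .nil .nil))) 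
(.lf (nat_lit 809) (.g (nat_lit 1525) (.e (nat_lit 87) (nat_lit 0) (.e (nat_lit 6112) (nat_lit 332) (.e (nat_lit 1361) (nat_lit 102) (.e (nat_lit 286761) (nat_lit 13) (.e (nat_lit 393265) (nat_lit 22) (.e (nat_lit 417820) (nat_lit 10) (.e (nat_lit 5612) (nat_lit 312) .nil))))))) (.g (nat_lit 4) .nil .nil)))) (.nd (nat_lit 5) 
(.lf (nat_lit 793) (.g (nat_lit 1963) (.e (nat_lit 82) (nat_lit 0) (.e (nat_lit 1855) (nat_lit 124) (.e (nat_lit 557105) (nat_lit 14) (.e (nat_lit 180252) (nat_lit 10) (.e (nat_lit 573489) (nat_lit 14) .nil))))) .nil)) 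
(.lf (nat_lit 825) (.g (nat_lit 1827) (.e (nat_lit 97) (nat_lit 1) (.e (nat_lit 57849) (nat_lit 252) (.e (nat_lit 57411) (nat_lit 12) (.e (nat_lit 336019) (nat_lit 3) .nil)))) .nil))))) (.nd (nat_lit 3) (.nd (nat_lit 4) (.nd (nat_lit 5) 
(.lf (nat_lit 773) (.g (nat_lit 1890) (.e (nat_lit 78) (nat_lit 0) (.e (nat_lit 3307) (nat_lit 202) (.e (nat_lit 573479) (nat_lit 13) (.e (nat_lit 65619) (nat_lit 10) (.e (nat_lit 344117) (nat_lit 21) (.e (nat_lit 516106) (nat_lit 0) (.e (nat_lit 7112) (nat_lit 381) (.e (nat_lit 229645) (nat_lit 232) .nil)))))))) (.g (nat_lit 4) .nil .nil))) 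
(.lf (nat_lit 805) (.g (nat_lit 3829) (.e (nat_lit 87) (nat_lit 0) (.e (nat_lit 2427) (nat_lit 157) (.e (nat_lit 5355) (nat_lit 298) (.e (nat_lit 1661) (nat_lit 115) (.e (nat_lit 393260) (nat_lit 21) (.e (nat_lit 409649) (nat_lit 18) (.e (nat_lit 303115) (nat_lit 1) (.e (nat_lit 164151) (nat_lit 152) .nil)))))))) (.g (nat_lit 0) .nil .nil)))) (.nd (nat_lit 5) 
(.lf (nat_lit 789) (.g (nat_lit 2920) (.e (nat_lit 81) (nat_lit 0) (.e (nat_lit 1856) (nat_lit 124) (.e (nat_lit 557105) (nat_lit 14) (.e (nat_lit 180252) (nat_lit 10) (.e (nat_lit 573489) (nat_lit 14) (.e (nat_lit 73755) (nat_lit 8) (.e (nat_lit 557089) (nat_lit 12) (.e (nat_lit 164006) (nat_lit 41) (.e (nat_lit 663574) (nat_lit 9) .nil))))))))) (.g (nat_lit 5) .nil .nil))) 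
(.lf (nat_lit 821) (.g (nat_lit 6845) (.e (nat_lit 92) (nat_lit 1) (.e (nat_lit 57599) (nat_lit 84) (.e (nat_lit 516151) (nat_lit 9) (.e (nat_lit 426211) (nat_lit 9) (.e (nat_lit 426125) (nat_lit 2) (.e (nat_lit 196681) (nat_lit 17) (.e (nat_lit 131086) (nat_lit 1) (.e (nat_lit 57832) (nat_lit 250) .nil)))))))) (.g (nat_lit 7) .nil .nil))))) (.nd (nat_lit 4) (.nd (nat_lit 5) 
(.lf (nat_lit 781) (.g (nat_lit 2003) (.e (nat_lit 79) (nat_lit 0) (.e (nat_lit 1855) (nat_lit 124) (.e (nat_lit 557109) (nat_lit 15) (.e (nat_lit 188452) (nat_lit 23) (.e (nat_lit 204846) (nat_lit 24) .nil))))) .nil)) 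
(.lf (nat_lit 813) (.g (nat_lit 2062) (.e (nat_lit 7936) (nat_lit 0) (.e (nat_lit 1349) (nat_lit 102) (.e (nat_lit 286759) (nat_lit 12) (.e (nat_lit 385094) (nat_lit 49) (.e (nat_lit 778326) (nat_lit 6) .nil))))) .nil))) (.nd (nat_lit 5) 
(.lf (nat_lit 797) (.g (nat_lit 2388) (.e (nat_lit 84) (nat_lit 0) (.e (nat_lit 6264) (nat_lit 337) (.e (nat_lit 1221) (nat_lit 90) (.e (nat_lit 81965) (nat_lit 26) (.e (nat_lit 147496) (nat_lit 11) (.e (nat_lit 24617) (nat_lit 7) (.e (nat_lit 327424) (nat_lit 10) .nil))))))) (.g (nat_lit 6) .nil .nil))) 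
(.lf (nat_lit 829) (.g (nat_lit 2447) (.e (nat_lit 98) (nat_lit 2) (.e (nat_lit 90170) (nat_lit 13) (.e (nat_lit 172106) (nat_lit 10) (.e (nat_lit 434209) (nat_lit 18) .nil)))) .nil)))))) (.nd (nat_lit 2) (.nd (nat_lit 3) (.nd (nat_lit 4) (.nd (nat_lit 5) 
(.lf (nat_lit 771) (.g (nat_lit 1996) (.e (nat_lit 77) (nat_lit 0) (.e (nat_lit 3307) (nat_lit 202) (.e (nat_lit 573479) (nat_lit 13) (.e (nat_lit 65619) (nat_lit 10) (.e (nat_lit 344117) (nat_lit 21) (.e (nat_lit 516106) (nat_lit 0) (.e (nat_lit 7095) (nat_lit 380) (.e (nat_lit 164340) (nat_lit 232) .nil)))))))) (.g (nat_lit 4) .nil .nil))) 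
(.lf (nat_lit 803) (.g (nat_lit 3497) (.e (nat_lit 87) (nat_lit 0) (.e (nat_lit 2427) (nat_lit 157) (.e (nat_lit 5355) (nat_lit 298) (.e (nat_lit 1661) (nat_lit 115) (.e (nat_lit 393260) (nat_lit 21) (.e (nat_lit 409648) (nat_lit 18) (.e (nat_lit 303115) (nat_lit 1) (.e (nat_lit 164151) (nat_lit 152) .nil)))))))) (.g (nat_lit 8) .nil .nil)))) (.nd (nat_lit 5) 
(.lf (nat_lit 787) (.g (nat_lit 1893) (.e (nat_lit 81) (nat_lit 0) (.e (nat_lit 1855) (nat_lit 124) (.e (nat_lit 557105) (nat_lit 14) (.e (nat_lit 180252) (nat_lit 10) (.e (nat_lit 573489) (nat_lit 14) .nil))))) .nil)) 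
(.lf (nat_lit 819) (.g (nat_lit 1532) (.e (nat_lit 7936) (nat_lit 0) (.e (nat_lit 2031) (nat_lit 140) (.e (nat_lit 688177) (nat_lit 16) (.e (nat_lit 65583) (nat_lit 7) .nil)))) .nil)))) (.nd (nat_lit 4) (.nd (nat_lit 5) 
(.lf (nat_lit 779) (.g (nat_lit 3802) (.e (nat_lit 79) (nat_lit 0) (.e (nat_lit 1855) (nat_lit 124) (.e (nat_lit 557105) (nat_lit 14) (.e (nat_lit 180252) (nat_lit 10) (.e (nat_lit 573489) (nat_lit 14) (.e (nat_lit 73755) (nat_lit 8) (.e (nat_lit 557090) (nat_lit 12) (.e (nat_lit 164006) (nat_lit 41) (.e (nat_lit 663580) (nat_lit 9) .nil))))))))) (.g (nat_lit 7) .nil .nil))) 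
(.lf (nat_lit 811) (.g (nat_lit 2099) (.e (nat_lit 7936) (nat_lit 0) (.e (nat_lit 1348) (nat_lit 102) (.e (nat_lit 286759) (nat_lit 12) (.e (nat_lit 385094) (nat_lit 49) (.e (nat_lit 778326) (nat_lit 6) .nil))))) .nil))) (.nd (nat_lit 5) 
(.lf (nat_lit 795) (.g (nat_lit 3727) (.e (nat_lit 82) (nat_lit 0) (.e (nat_lit 5815) (nat_lit 320) (.e (nat_lit 1201) (nat_lit 88) (.e (nat_lit 65630) (nat_lit 14) (.e (nat_lit 401459) (nat_lit 13) (.e (nat_lit 483374) (nat_lit 22) (.e (nat_lit 327685) (nat_lit 0) .nil))))))) (.g (nat_lit 6) .nil .nil))) 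
(.lf (nat_lit 827) (.g (nat_lit 1638) (.e (nat_lit 7936) (nat_lit 1) (.e (nat_lit 57849) (nat_lit 252) (.e (nat_lit 57379) (nat_lit 3) (.e (nat_lit 98313) (nat_lit 9) (.e (nat_lit 336223) (nat_lit 13) .nil))))) .nil))))) (.nd (nat_lit 3) (.nd (nat_lit 4) (.nd (nat_lit 5) 
(.lf (nat_lit 775) (.g (nat_lit 1931) (.e (nat_lit 78) (nat_lit 0) (.e (nat_lit 3307) (nat_lit 202) (.e (nat_lit 573479) (nat_lit 13) (.e (nat_lit 65619) (nat_lit 10) (.e (nat_lit 344117) (nat_lit 21) (.e (nat_lit 516106) (nat_lit 0) (.e (nat_lit 7112) (nat_lit 381) (.e (nat_lit 229647) (nat_lit 232) .nil)))))))) (.g (nat_lit 4) .nil .nil))) 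
(.lf (nat_lit 807) (.g (nat_lit 2204) (.e (nat_lit 87) (nat_lit 0) (.e (nat_lit 2787) (nat_lit 179) (.e (nat_lit 294959) (nat_lit 13) (.e (nat_lit 393260) (nat_lit 21) (.e (nat_lit 409648) (nat_lit 18) (.e (nat_lit 303114) (nat_lit 1) (.e (nat_lit 164151) (nat_lit 152) .nil))))))) (.g (nat_lit 7) .nil .nil)))) (.nd (nat_lit 5) 
(.lf (nat_lit 791) (.g (nat_lit 2793) (.e (nat_lit 81) (nat_lit 0) (.e (nat_lit 1856) (nat_lit 124) (.e (nat_lit 557105) (nat_lit 14) (.e (nat_lit 180252) (nat_lit 10) (.e (nat_lit 573489) (nat_lit 14) (.e (nat_lit 73755) (nat_lit 8) (.e (nat_lit 557090) (nat_lit 12) (.e (nat_lit 164004) (nat_lit 41) (.e (nat_lit 663574) (nat_lit 9) .nil))))))))) (.g (nat_lit 5) .nil .nil))) 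
(.lf (nat_lit 823) (.g (nat_lit 2472) (.e (nat_lit 92) (nat_lit 1) (.e (nat_lit 57808) (nat_lit 246) (.e (nat_lit 57816) (nat_lit 246) (.e (nat_lit 57584) (nat_lit 61) (.e (nat_lit 5193) (nat_lit 294) (.e (nat_lit 57437) (nat_lit 17) (.e (nat_lit 376860) (nat_lit 21) (.e (nat_lit 57832) (nat_lit 250) .nil)))))))) (.g (nat_lit 8) .nil .nil))))) (.nd (nat_lit 4) (.nd (nat_lit 5) 
(.lf (nat_lit 783) (.g (nat_lit 2886) (.e (nat_lit 79) (nat_lit 0) (.e (nat_lit 1856) (nat_lit 124) (.e (nat_lit 557105) (nat_lit 14) (.e (nat_lit 180252) (nat_lit 10) (.e (nat_lit 573489) (nat_lit 14) (.e (nat_lit 73755) (nat_lit 8) (.e (nat_lit 557089) (nat_lit 12) (.e (nat_lit 164007) (nat_lit 41) (.e (nat_lit 663580) (nat_lit 9) .nil))))))))) (.g (nat_lit 5) .nil .nil))) 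
(.lf (nat_lit 815) (.g (nat_lit 1765) (.e (nat_lit 7936) (nat_lit 0) (.e (nat_lit 1848) (nat_lit 124) (.e (nat_lit 557108) (nat_lit 15) (.e (nat_lit 188452) (nat_lit 23) (.e (nat_lit 204821) (nat_lit 17) .nil))))) .nil))) (.nd (nat_lit 5) 
(.lf (nat_lit 799) (.g (nat_lit 2362) (.e (nat_lit 86) (nat_lit 0) (.e (nat_lit 6264) (nat_lit 337) (.e (nat_lit 1221) (nat_lit 90) (.e (nat_lit 81965) (nat_lit 26) (.e (nat_lit 147496) (nat_lit 11) (.e (nat_lit 24617) (nat_lit 7) (.e (nat_lit 327424) (nat_lit 10) .nil))))))) (.g (nat_lit 6) .nil .nil))) 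
(.lf (nat_lit 831) (.g (nat_lit 3361) (.e (nat_lit 98) (nat_lit 2) (.e (nat_lit 90170) (nat_lit 13) (.e (nat_lit 172106) (nat_lit 10) (.e (nat_lit 434231) (nat_lit 23) (.e (nat_lit 532543) (nat_lit 10) (.e (nat_lit 344160) (nat_lit 37) (.e (nat_lit 655104) (nat_lit 0) .nil))))))) (.g (nat_lit 6) .nil .nil)))))))))

noncomputable def tv013 : DT := (.nd (nat_lit 0) (.nd (nat_lit 1) (.nd (nat_lit 2) (.nd (nat_lit 3) (.nd (nat_lit 4) (.nd (nat_lit 5) 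
(.lf (nat_lit 832) (.g (nat_lit 2706) (.e (nat_lit 98) (nat_lit 2) (.e (nat_lit 90170) (nat_lit 13) (.e (nat_lit 172106) (nat_lit 10) (.e (nat_lit 434295) (nat_lit 49) (.e (nat_lit 745492) (nat_lit 5) .nil))))) .nil)) 
(.lf (nat_lit 864) (.g (nat_lit 1697) (.e (nat_lit 100) (nat_lit 2) (.e (nat_lit 90170) (nat_lit 13) (.e (nat_lit 172106) (nat_lit 10) (.e (nat_lit 434202) (nat_lit 18) .nil)))) .nil))) (.nd (nat_lit 5) 
(.lf (nat_lit 848) (.g (nat_lit 1400) (.e (nat_lit 99) (nat_lit 2) (.e (nat_lit 90170) (nat_lit 13) (.e (nat_lit 172123) (nat_lit 13) (.e (nat_lit 483333) (nat_lit 0) .nil)))) .nil)) 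
(.lf (nat_lit 880) (.g (nat_lit 1361) (.e (nat_lit 100) (nat_lit 2) (.e (nat_lit 90170) (nat_lit 13) (.e (nat_lit 172113) (nat_lit 10) (.e (nat_lit 434203) (nat_lit 18) .nil)))) .nil)))) (.nd (nat_lit 4) (.nd (nat_lit 5) 
(.lf (nat_lit 840) (.g (nat_lit 874) (.e (nat_lit 98) (nat_lit 2) (.e (nat_lit 90185) (nat_lit 17) (.e (nat_lit 237621) (nat_lit 13) .nil))) .nil)) 
(.lf (nat_lit 872) (.g (nat_lit 3961) (.e (nat_lit 100) (nat_lit 2) (.e (nat_lit 90170) (nat_lit 13) (.e (nat_lit 172106) (nat_lit 10) (.e (nat_lit 434209) (nat_lit 18) (.e (nat_lit 6792) (nat_lit 365) (.e (nat_lit 1210) (nat_lit 89) (.e (nat_lit 81664) (nat_lit 32) .nil))))))) (.g (nat_lit 6) .nil .nil)))) (.nd (nat_lit 5) 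
(.lf (nat_lit 856) (.g (nat_lit 2039) (.e (nat_lit 100) (nat_lit 2) (.e (nat_lit 90170) (nat_lit 13) (.e (nat_lit 172065) (nat_lit 3) (.e (nat_lit 204838) (nat_lit 20) (.e (nat_lit 114713) (nat_lit 22) .nil))))) .nil)) 
(.lf (nat_lit 888) (.g (nat_lit 852) (.e (nat_lit 100) (nat_lit 2) (.e (nat_lit 90170) (nat_lit 13) (.e (nat_lit 172121) (nat_lit 13) (.e (nat_lit 483333) (nat_lit 0) .nil)))) .nil))))) (.nd (nat_lit 3) (.nd (nat_lit 4) (.nd (nat_lit 5) 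
(.lf (nat_lit 836) (.g (nat_lit 1076) (.e (nat_lit 98) (nat_lit 2) (.e (nat_lit 90176) (nat_lit 15) (.e (nat_lit 188423) (nat_lit 11) (.e (nat_lit 336288) (nat_lit 15) (.e (nat_lit 7096) (nat_lit 380) .nil))))) .nil)) 
(.lf (nat_lit 868) (.g (nat_lit 2363) (.e (nat_lit 100) (nat_lit 2) (.e (nat_lit 90170) (nat_lit 13) (.e (nat_lit 172106) (nat_lit 10) (.e (nat_lit 434202) (nat_lit 18) (.e (nat_lit 6830) (nat_lit 367) (.e (nat_lit 57400) (nat_lit 10) (.e (nat_lit 327424) (nat_lit 0) (.e (nat_lit 5629) (nat_lit 312) .nil)))))))) (.g (nat_lit 4) .nil .nil)))) (.nd (nat_lit 5) 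
(.lf (nat_lit 852) (.g (nat_lit 918) (.e (nat_lit 99) (nat_lit 2) (.e (nat_lit 90185) (nat_lit 17) (.e (nat_lit 237624) (nat_lit 13) .nil))) .nil)) 
(.lf (nat_lit 884) (.g (nat_lit 2372) (.e (nat_lit 100) (nat_lit 2) (.e (nat_lit 90170) (nat_lit 13) (.e (nat_lit 172113) (nat_lit 10) (.e (nat_lit 434208) (nat_lit 18) (.e (nat_lit 6830) (nat_lit 367) (.e (nat_lit 57400) (nat_lit 10) (.e (nat_lit 319490) (nat_lit 0) (.e (nat_lit 5629) (nat_lit 312) .nil)))))))) (.g (nat_lit 4) .nil .nil))))) (.nd (nat_lit 4) (.nd (nat_lit 5) 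
(.lf (nat_lit 844) (.g (nat_lit 2478) (.e (nat_lit 99) (nat_lit 2) (.e (nat_lit 90170) (nat_lit 13) (.e (nat_lit 172106) (nat_lit 10) (.e (nat_lit 434231) (nat_lit 23) .nil)))) .nil)) 
(.lf (nat_lit 876) (.g (nat_lit 1848) (.e (nat_lit 100) (nat_lit 2) (.e (nat_lit 90170) (nat_lit 13) (.e (nat_lit 172106) (nat_lit 10) (.e (nat_lit 434295) (nat_lit 49) .nil)))) .nil))) (.nd (nat_lit 5) 
(.lf (nat_lit 860) (.g (nat_lit 786) (.e (nat_lit 100) (nat_lit 2) (.e (nat_lit 90170) (nat_lit 13) (.e (nat_lit 172067) (nat_lit 3) .nil))) .nil)) 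
(.lf (nat_lit 892) (.g (nat_lit 470) (.e (nat_lit 100) (nat_lit 2) (.e (nat_lit 90170) (nat_lit 13) (.e (nat_lit 172123) (nat_lit 13) .nil))) .nil)))))) (.nd (nat_lit 2) (.nd (nat_lit 3) (.nd (nat_lit 4) (.nd (nat_lit 5) 
(.lf (nat_lit 834) (.g (nat_lit 875) (.e (nat_lit 98) (nat_lit 2) (.e (nat_lit 90170) (nat_lit 13) (.e (nat_lit 172123) (nat_lit 13) .nil))) .nil)) 
(.lf (nat_lit 866) (.g (nat_lit 1985) (.e (nat_lit 100) (nat_lit 2) (.e (nat_lit 90170) (nat_lit 13) (.e (nat_lit 172106) (nat_lit 10) (.e (nat_lit 434202) (nat_lit 18) (.e (nat_lit 6830) (nat_lit 367) .nil))))) .nil))) (.nd (nat_lit 5) 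
(.lf (nat_lit 850) (.g (nat_lit 1904) (.e (nat_lit 99) (nat_lit 2) (.e (nat_lit 90170) (nat_lit 13) (.e (nat_lit 172123) (nat_lit 13) (.e (nat_lit 483333) (nat_lit 0) (.e (nat_lit 7098) (nat_lit 380) (.e (nat_lit 164352) (nat_lit 246) .nil)))))) (.g (nat_lit 4) .nil .nil))) 
(.lf (nat_lit 882) (.g (nat_lit 1879) (.e (nat_lit 100) (nat_lit 2) (.e (nat_lit 90170) (nat_lit 13) (.e (nat_lit 172113) (nat_lit 10) (.e (nat_lit 434203) (nat_lit 18) (.e (nat_lit 6830) (nat_lit 367) .nil))))) .nil)))) (.nd (nat_lit 4) (.nd (nat_lit 5) 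
(.lf (nat_lit 842) (.g (nat_lit 856) (.e (nat_lit 99) (nat_lit 2) (.e (nat_lit 90170) (nat_lit 13) (.e (nat_lit 172065) (nat_lit 3) .nil))) .nil)) 
(.lf (nat_lit 874) (.g (nat_lit 3499) (.e (nat_lit 100) (nat_lit 2) (.e (nat_lit 90170) (nat_lit 13) (.e (nat_lit 172106) (nat_lit 10) (.e (nat_lit 434231) (nat_lit 23) (.e (nat_lit 532543) (nat_lit 10) (.e (nat_lit 344160) (nat_lit 37) (.e (nat_lit 655104) (nat_lit 0) .nil))))))) (.g (nat_lit 6) .nil .nil)))) (.nd (nat_lit 5) 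
(.lf (nat_lit 858) (.g (nat_lit 1675) (.e (nat_lit 100) (nat_lit 2) (.e (nat_lit 90170) (nat_lit 13) (.e (nat_lit 172065) (nat_lit 3) (.e (nat_lit 204838) (nat_lit 20) (.e (nat_lit 114716) (nat_lit 22) (.e (nat_lit 98048) (nat_lit 21) (.e (nat_lit 164353) (nat_lit 246) .nil))))))) (.g (nat_lit 4) .nil .nil))) 
(.lf (nat_lit 890) (.g (nat_lit 1781) (.e (nat_lit 100) (nat_lit 2) (.e (nat_lit 90170) (nat_lit 13) (.e (nat_lit 172121) (nat_lit 13) (.e (nat_lit 483333) (nat_lit 0) (.e (nat_lit 6988) (nat_lit 377) (.e (nat_lit 2506) (nat_lit 157) (.e (nat_lit 5629) (nat_lit 312) .nil))))))) (.g (nat_lit 4) .nil .nil)))))) (.nd (nat_lit 3) (.nd (nat_lit 4) (.nd (nat_lit 5) 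
(.lf (nat_lit 838) (.g (nat_lit 1052) (.e (nat_lit 98) (nat_lit 2) (.e (nat_lit 90176) (nat_lit 15) (.e (nat_lit 188423) (nat_lit 11) (.e (nat_lit 336288) (nat_lit 15) (.e (nat_lit 7106) (nat_lit 380) .nil))))) .nil)) 
(.lf (nat_lit 870) (.g (nat_lit 2925) (.e (nat_lit 100) (nat_lit 2) (.e (nat_lit 90170) (nat_lit 13) (.e (nat_lit 172106) (nat_lit 10) (.e (nat_lit 434209) (nat_lit 18) (.e (nat_lit 6792) (nat_lit 365) (.e (nat_lit 1208) (nat_lit 89) (.e (nat_lit 81664) (nat_lit 32) .nil))))))) (.g (nat_lit 4) .nil .nil)))) (.nd (nat_lit 5) 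
(.lf (nat_lit 854) (.g (nat_lit 733) (.e (nat_lit 100) (nat_lit 2) (.e (nat_lit 90169) (nat_lit 13) (.e (nat_lit 172121) (nat_lit 13) (.e (nat_lit 483333) (nat_lit 0) .nil)))) .nil)) 
(.lf (nat_lit 886) (.g (nat_lit 2424) (.e (nat_lit 100) (nat_lit 2) (.e (nat_lit 90170) (nat_lit 13) (.e (nat_lit 172113) (nat_lit 10) (.e (nat_lit 434295) (nat_lit 49) (.e (nat_lit 745492) (nat_lit 5) (.e (nat_lit 81664) (nat_lit 32) .nil)))))) (.g (nat_lit 4) .nil .nil))))) (.nd (nat_lit 4) (.nd (nat_lit 5) 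
(.lf (nat_lit 846) (.g (nat_lit 2364) (.e (nat_lit 99) (nat_lit 2) (.e (nat_lit 90170) (nat_lit 13) (.e (nat_lit 172106) (nat_lit 10) (.e (nat_lit 434295) (nat_lit 49) .nil)))) .nil)) 
(.lf (nat_lit 878) (.g (nat_lit 495) (.e (nat_lit 100) (nat_lit 2) (.e (nat_lit 90170) (nat_lit 13) (.e (nat_lit 172113) (nat_lit 10) .nil))) .nil))) (.nd (nat_lit 5) 
(.lf (nat_lit 862) (.g (nat_lit 1204) (.e (nat_lit 100) (nat_lit 2) (.e (nat_lit 90170) (nat_lit 13) (.e (nat_lit 172079) (nat_lit 7) (.e (nat_lit 409611) (nat_lit 10) .nil)))) .nil)) 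
(.lf (nat_lit 894) (.g (nat_lit 1781) (.e (nat_lit 100) (nat_lit 2) (.e (nat_lit 90170) (nat_lit 13) (.e (nat_lit 172123) (nat_lit 13) (.e (nat_lit 483333) (nat_lit 0) (.e (nat_lit 6988) (nat_lit 377) (.e (nat_lit 2404) (nat_lit 157) (.e (nat_lit 5629) (nat_lit 312) .nil))))))) (.g (nat_lit 4) .nil .nil)))))))) (.nd (nat_lit 1) (.nd (nat_lit 2) (.nd (nat_lit 3) (.nd (nat_lit 4) (.nd (nat_lit 5) 
(.lf (nat_lit 833) (.g (nat_lit 833) (.e (nat_lit 98) (nat_lit 2) (.e (nat_lit 90170) (nat_lit 13) (.e (nat_lit 172121) (nat_lit 13) .nil))) .nil)) 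
(.lf (nat_lit 865) (.g (nat_lit 2104) (.e (nat_lit 100) (nat_lit 2) (.e (nat_lit 90170) (nat_lit 13) (.e (nat_lit 172106) (nat_lit 10) (.e (nat_lit 434202) (nat_lit 18) (.e (nat_lit 6740) (nat_lit 365) .nil))))) .nil))) (.nd (nat_lit 5) 
(.lf (nat_lit 849) (.g (nat_lit 1891) (.e (nat_lit 99) (nat_lit 2) (.e (nat_lit 90170) (nat_lit 13) (.e (nat_lit 172123) (nat_lit 13) (.e (nat_lit 483333) (nat_lit 0) (.e (nat_lit 7098) (nat_lit 380) (.e (nat_lit 164351) (nat_lit 246) .nil)))))) (.g (nat_lit 4) .nil .nil))) 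
(.lf (nat_lit 881) (.g (nat_lit 2089) (.e (nat_lit 100) (nat_lit 2) (.e (nat_lit 90170) (nat_lit 13) (.e (nat_lit 172113) (nat_lit 10) (.e (nat_lit 434203) (nat_lit 18) (.e (nat_lit 6738) (nat_lit 365) .nil))))) .nil)))) (.nd (nat_lit 4) (.nd (nat_lit 5) 
(.lf (nat_lit 841) (.g (nat_lit 918) (.e (nat_lit 98) (nat_lit 2) (.e (nat_lit 90185) (nat_lit 17) (.e (nat_lit 237624) (nat_lit 13) .nil))) .nil)) 
(.lf (nat_lit 873) (.g (nat_lit 4120) (.e (nat_lit 100) (nat_lit 2) (.e (nat_lit 90170) (nat_lit 13) (.e (nat_lit 172106) (nat_lit 10) (.e (nat_lit 434209) (nat_lit 18) (.e (nat_lit 6792) (nat_lit 365) (.e (nat_lit 1211) (nat_lit 89) (.e (nat_lit 81664) (nat_lit 32) .nil))))))) (.g (nat_lit 6) .nil .nil)))) (.nd (nat_lit 5) 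
(.lf (nat_lit 857) (.g (nat_lit 1832) (.e (nat_lit 100) (nat_lit 2) (.e (nat_lit 90170) (nat_lit 13) (.e (nat_lit 172065) (nat_lit 3) (.e (nat_lit 204838) (nat_lit 20) (.e (nat_lit 114715) (nat_lit 22) (.e (nat_lit 90203) (nat_lit 21) (.e (nat_lit 164358) (nat_lit 246) .nil))))))) (.g (nat_lit 4) .nil .nil))) 
(.lf (nat_lit 889) (.g (nat_lit 1781) (.e (nat_lit 100) (nat_lit 2) (.e (nat_lit 90170) (nat_lit 13) (.e (nat_lit 172121) (nat_lit 13) (.e (nat_lit 483333) (nat_lit 0) (.e (nat_lit 6988) (nat_lit 377) (.e (nat_lit 2404) (nat_lit 157) (.e (nat_lit 5629) (nat_lit 312) .nil))))))) (.g (nat_lit 4) .nil .nil)))))) (.nd (nat_lit 3) (.nd (nat_lit 4) (.nd (nat_lit 5) 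
(.lf (nat_lit 837) (.g (nat_lit 1066) (.e (nat_lit 98) (nat_lit 2) (.e (nat_lit 90176) (nat_lit 15) (.e (nat_lit 188423) (nat_lit 11) (.e (nat_lit 336288) (nat_lit 15) (.e (nat_lit 7098) (nat_lit 380) .nil))))) .nil)) 
(.lf (nat_lit 869) (.g (nat_lit 1976) (.e (nat_lit 100) (nat_lit 2) (.e (nat_lit 90170) (nat_lit 13) (.e (nat_lit 172106) (nat_lit 10) (.e (nat_lit 434209) (nat_lit 18) .nil)))) .nil))) (.nd (nat_lit 5) 
(.lf (nat_lit 853) (.g (nat_lit 1817) (.e (nat_lit 100) (nat_lit 2) (.e (nat_lit 90158) (nat_lit 11) (.e (nat_lit 24655) (nat_lit 13) (.e (nat_lit 393229) (nat_lit 9) .nil)))) .nil)) 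
(.lf (nat_lit 885) (.g (nat_lit 1401) (.e (nat_lit 100) (nat_lit 2) (.e (nat_lit 90170) (nat_lit 13) (.e (nat_lit 172113) (nat_lit 10) (.e (nat_lit 434295) (nat_lit 49) .nil)))) .nil)))) (.nd (nat_lit 4) (.nd (nat_lit 5) 
(.lf (nat_lit 845) (.g (nat_lit 3585) (.e (nat_lit 99) (nat_lit 2) (.e (nat_lit 90170) (nat_lit 13) (.e (nat_lit 172106) (nat_lit 10) (.e (nat_lit 434231) (nat_lit 23) (.e (nat_lit 532543) (nat_lit 10) (.e (nat_lit 344160) (nat_lit 37) (.e (nat_lit 655104) (nat_lit 0) .nil))))))) (.g (nat_lit 6) .nil .nil))) 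
(.lf (nat_lit 877) (.g (nat_lit 2875) (.e (nat_lit 100) (nat_lit 2) (.e (nat_lit 90170) (nat_lit 13) (.e (nat_lit 172106) (nat_lit 10) (.e (nat_lit 434295) (nat_lit 49) (.e (nat_lit 745492) (nat_lit 5) (.e (nat_lit 81664) (nat_lit 32) .nil)))))) (.g (nat_lit 4) .nil .nil)))) (.nd (nat_lit 5) 
(.lf (nat_lit 861) (.g (nat_lit 1539) (.e (nat_lit 100) (nat_lit 2) (.e (nat_lit 90170) (nat_lit 13) (.e (nat_lit 172067) (nat_lit 3) (.e (nat_lit 204838) (nat_lit 20) .nil)))) .nil)) 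
(.lf (nat_lit 893) (.g (nat_lit 913) (.e (nat_lit 100) (nat_lit 2) (.e (nat_lit 90170) (nat_lit 13) (.e (nat_lit 172123) (nat_lit 13) (.e (nat_lit 483333) (nat_lit 0) .nil)))) .nil)))))) (.nd (nat_lit 2) (.nd (nat_lit 3) (.nd (nat_lit 4) (.nd (nat_lit 5) 
(.lf (nat_lit 835) (.g (nat_lit 1384) (.e (nat_lit 98) (nat_lit 2) (.e (nat_lit 90170) (nat_lit 13) (.e (nat_lit 172123) (nat_lit 13) (.e (nat_lit 483333) (nat_lit 0) .nil)))) .nil)) 
(.lf (nat_lit 867) (.g (nat_lit 4803) (.e (nat_lit 100) (nat_lit 2) (.e (nat_lit 90170) (nat_lit 13) (.e (nat_lit 172106) (nat_lit 10) (.e (nat_lit 434202) (nat_lit 18) (.e (nat_lit 6830) (nat_lit 367) (.e (nat_lit 57400) (nat_lit 10) (.e (nat_lit 319490) (nat_lit 0) (.e (nat_lit 5629) (nat_lit 312) .nil)))))))) (.g (nat_lit 8) .nil .nil)))) (.nd (nat_lit 5) 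
(.lf (nat_lit 851) (.g (nat_lit 874) (.e (nat_lit 99) (nat_lit 2) (.e (nat_lit 90185) (nat_lit 17) (.e (nat_lit 237621) (nat_lit 13) .nil))) .nil)) 
(.lf (nat_lit 883) (.g (nat_lit 1361) (.e (nat_lit 100) (nat_lit 2) (.e (nat_lit 90170) (nat_lit 13) (.e (nat_lit 172113) (nat_lit 10) (.e (nat_lit 434208) (nat_lit 18) .nil)))) .nil)))) (.nd (nat_lit 4) (.nd (nat_lit 5) 
(.lf (nat_lit 843) (.g (nat_lit 843) (.e (nat_lit 99) (nat_lit 2) (.e (nat_lit 90170) (nat_lit 13) (.e (nat_lit 172106) (nat_lit 10) .nil))) .nil)) 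
(.lf (nat_lit 875) (.g (nat_lit 2970) (.e (nat_lit 100) (nat_lit 2) (.e (nat_lit 90170) (nat_lit 13) (.e (nat_lit 172106) (nat_lit 10) (.e (nat_lit 434231) (nat_lit 23) (.e (nat_lit 532544) (nat_lit 10) (.e (nat_lit 344160) (nat_lit 37) (.e (nat_lit 655104) (nat_lit 0) .nil))))))) (.g (nat_lit 5) .nil .nil)))) (.nd (nat_lit 5) 
(.lf (nat_lit 859) (.g (nat_lit 1843) (.e (nat_lit 100) (nat_lit 2) (.e (nat_lit 90170) (nat_lit 13) (.e (nat_lit 172065) (nat_lit 3) (.e (nat_lit 204838) (nat_lit 20) (.e (nat_lit 114716) (nat_lit 22) (.e (nat_lit 98048) (nat_lit 21) (.e (nat_lit 164358) (nat_lit 246) .nil))))))) (.g (nat_lit 4) .nil .nil))) 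
(.lf (nat_lit 891) (.g (nat_lit 2449) (.e (nat_lit 100) (nat_lit 2) (.e (nat_lit 90170) (nat_lit 13) (.e (nat_lit 172121) (nat_lit 13) (.e (nat_lit 483333) (nat_lit 0) (.e (nat_lit 6988) (nat_lit 377) (.e (nat_lit 7936) (nat_lit 157) (.e (nat_lit 5629) (nat_lit 312) .nil))))))) (.g (nat_lit 5) .nil .nil)))))) (.nd (nat_lit 3) (.nd (nat_lit 4) (.nd (nat_lit 5) 
(.lf (nat_lit 839) (.g (nat_lit 361) (.e (nat_lit 98) (nat_lit 2) (.e (nat_lit 90176) (nat_lit 15) (.e (nat_lit 188439) (nat_lit 20) .nil))) .nil)) 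
(.lf (nat_lit 871) (.g (nat_lit 4313) (.e (nat_lit 100) (nat_lit 2) (.e (nat_lit 90170) (nat_lit 13) (.e (nat_lit 172106) (nat_lit 10) (.e (nat_lit 434209) (nat_lit 18) (.e (nat_lit 6792) (nat_lit 365) (.e (nat_lit 1209) (nat_lit 89) (.e (nat_lit 81664) (nat_lit 32) .nil))))))) (.g (nat_lit 6) .nil .nil)))) (.nd (nat_lit 5) 
(.lf (nat_lit 855) (.g (nat_lit 1129) (.e (nat_lit 100) (nat_lit 2) (.e (nat_lit 90170) (nat_lit 13) (.e (nat_lit 172065) (nat_lit 3) (.e (nat_lit 204834) (nat_lit 19) .nil)))) .nil)) 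
(.lf (nat_lit 887) (.g (nat_lit 432) (.e (nat_lit 100) (nat_lit 2) (.e (nat_lit 90170) (nat_lit 13) (.e (nat_lit 172121) (nat_lit 13) .nil))) .nil)))) (.nd (nat_lit 4) (.nd (nat_lit 5) 
(.lf (nat_lit 847) (.g (nat_lit 1298) (.e (nat_lit 99) (nat_lit 2) (.e (nat_lit 90170) (nat_lit 13) (.e (nat_lit 172121) (nat_lit 13) (.e (nat_lit 483333) (nat_lit 0) .nil)))) .nil)) 
(.lf (nat_lit 879) (.g (nat_lit 1649) (.e (nat_lit 100) (nat_lit 2) (.e (nat_lit 90170) (nat_lit 13) (.e (nat_lit 172113) (nat_lit 10) (.e (nat_lit 434202) (nat_lit 18) .nil)))) .nil))) (.nd (nat_lit 5) 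
(.lf (nat_lit 863) (.g (nat_lit 1160) (.e (nat_lit 100) (nat_lit 2) (.e (nat_lit 90170) (nat_lit 13) (.e (nat_lit 172092) (nat_lit 9) (.e (nat_lit 426528) (nat_lit 27) (.e (nat_lit 336288) (nat_lit 15) .nil))))) .nil)) 
(.lf (nat_lit 895) (.g (nat_lit 1781) (.e (nat_lit 100) (nat_lit 2) (.e (nat_lit 90170) (nat_lit 13) (.e (nat_lit 172123) (nat_lit 13) (.e (nat_lit 483333) (nat_lit 0) (.e (nat_lit 6988) (nat_lit 377) (.e (nat_lit 2506) (nat_lit 157) (.e (nat_lit 5629) (nat_lit 312) .nil))))))) (.g (nat_lit 4) .nil .nil)))))))))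

noncomputable def tv014 : DT := (.nd (nat_lit 0) (.nd (nat_lit 1) (.nd (nat_lit 2) (.nd (nat_lit 3) (.nd (nat_lit 4) (.nd (nat_lit 5) (.nd (nat_lit 6) 
(.lf (nat_lit 896) (.g (nat_lit 2449) (.e (nat_lit 100) (nat_lit 2) (.e (nat_lit 90170) (nat_lit 13) (.e (nat_lit 172123) (nat_lit 13) (.e (nat_lit 483333) (nat_lit 0) (.e (nat_lit 6988) (nat_lit 377) (.e (nat_lit 7936) (nat_lit 157) (.e (nat_lit 5629) (nat_lit 312) .nil))))))) (.g (nat_lit 5) .nil .nil))) 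
(.lf (nat_lit 960) (.g (nat_lit 766) (.e (nat_lit 100) (nat_lit 2) (.e (nat_lit 90185) (nat_lit 17) (.e (nat_lit 237621) (nat_lit 13) (.e (nat_lit 483333) (nat_lit 0) .nil)))) .nil))) (.nd (nat_lit 6) 
(.lf (nat_lit 928) (.g (nat_lit 2954) (.e (nat_lit 100) (nat_lit 2) (.e (nat_lit 90174) (nat_lit 14) (.e (nat_lit 180252) (nat_lit 10) (.e (nat_lit 573489) (nat_lit 14) (.e (nat_lit 73755) (nat_lit 8) (.e (nat_lit 557119) (nat_lit 18) (.e (nat_lit 7936) (nat_lit 157) (.e (nat_lit 5629) (nat_lit 312) .nil)))))))) (.g (nat_lit 4) .nil .nil))) 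
(.lf (nat_lit 992) (.g (nat_lit 2788) (.e (nat_lit 103) (nat_lit 2) (.e (nat_lit 90170) (nat_lit 13) (.e (nat_lit 172106) (nat_lit 10) (.e (nat_lit 434209) (nat_lit 18) .nil)))) .nil)))) (.nd (nat_lit 5) (.nd (nat_lit 6) 
(.lf (nat_lit 912) (.g (nat_lit 2157) (.e (nat_lit 100) (nat_lit 2) (.e (nat_lit 90174) (nat_lit 14) (.e (nat_lit 180243) (nat_lit 5) (.e (nat_lit 532511) (nat_lit 2) (.e (nat_lit 106526) (nat_lit 9) (.e (nat_lit 1234) (nat_lit 91) (.e (nat_lit 90203) (nat_lit 21) (.e (nat_lit 164358) (nat_lit 246) .nil)))))))) (.g (nat_lit 5) .nil .nil))) 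
(.lf (nat_lit 976) (.g (nat_lit 2914) (.e (nat_lit 101) (nat_lit 2) (.e (nat_lit 90170) (nat_lit 13) (.e (nat_lit 172106) (nat_lit 10) (.e (nat_lit 434231) (nat_lit 23) (.e (nat_lit 532554) (nat_lit 13) .nil))))) .nil))) (.nd (nat_lit 6) 
(.lf (nat_lit 944) (.g (nat_lit 1455) (.e (nat_lit 100) (nat_lit 2) (.e (nat_lit 90176) (nat_lit 15) (.e (nat_lit 188431) (nat_lit 20) (.e (nat_lit 3571) (nat_lit 222) (.e (nat_lit 745216) (nat_lit 0) (.e (nat_lit 5022) (nat_lit 290) (.e (nat_lit 164354) (nat_lit 246) .nil))))))) (.g (nat_lit 4) .nil .nil))) 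
(.lf (nat_lit 1008) (.g (nat_lit 2129) (.e (nat_lit 107) (nat_lit 3) (.e (nat_lit 98384) (nat_lit 32) (.e (nat_lit 475177) (nat_lit 24) (.e (nat_lit 516146) (nat_lit 9) .nil)))) .nil))))) (.nd (nat_lit 4) (.nd (nat_lit 5) (.nd (nat_lit 6) 
(.lf (nat_lit 904) (.g (nat_lit 417) (.e (nat_lit 100) (nat_lit 2) (.e (nat_lit 90172) (nat_lit 14) (.e (nat_lit 188160) (nat_lit 34) .nil))) .nil)) 
(.lf (nat_lit 968) (.g (nat_lit 2107) (.e (nat_lit 100) (nat_lit 2) (.e (nat_lit 90185) (nat_lit 17) (.e (nat_lit 237624) (nat_lit 13) (.e (nat_lit 483333) (nat_lit 0) (.e (nat_lit 7096) (nat_lit 380) (.e (nat_lit 164354) (nat_lit 246) .nil)))))) (.g (nat_lit 0) .nil .nil)))) (.nd (nat_lit 6) 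
(.lf (nat_lit 936) (.g (nat_lit 1289) (.e (nat_lit 100) (nat_lit 2) (.e (nat_lit 90176) (nat_lit 15) (.e (nat_lit 188423) (nat_lit 11) (.e (nat_lit 336288) (nat_lit 15) (.e (nat_lit 6988) (nat_lit 377) .nil))))) .nil)) 
(.lf (nat_lit 1000) (.g (nat_lit 478) (.e (nat_lit 7936) (nat_lit 2) (.e (nat_lit 90176) (nat_lit 15) (.e (nat_lit 196352) (nat_lit 19) .nil))) .nil)))) (.nd (nat_lit 5) (.nd (nat_lit 6) 
(.lf (nat_lit 920) (.g (nat_lit 1690) (.e (nat_lit 100) (nat_lit 2) (.e (nat_lit 90174) (nat_lit 14) (.e (nat_lit 180243) (nat_lit 5) (.e (nat_lit 532515) (nat_lit 3) (.e (nat_lit 114715) (nat_lit 22) (.e (nat_lit 98048) (nat_lit 21) (.e (nat_lit 164358) (nat_lit 246) .nil))))))) (.g (nat_lit 4) .nil .nil))) 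
(.lf (nat_lit 984) (.g (nat_lit 1387) (.e (nat_lit 101) (nat_lit 2) (.e (nat_lit 90185) (nat_lit 17) (.e (nat_lit 237624) (nat_lit 13) (.e (nat_lit 483333) (nat_lit 0) .nil)))) .nil))) (.nd (nat_lit 6) 
(.lf (nat_lit 952) (.g (nat_lit 2563) (.e (nat_lit 100) (nat_lit 2) (.e (nat_lit 90178) (nat_lit 15) (.e (nat_lit 188421) (nat_lit 11) (.e (nat_lit 336288) (nat_lit 15) (.e (nat_lit 7098) (nat_lit 380) (.e (nat_lit 164353) (nat_lit 246) .nil)))))) (.g (nat_lit 0) .nil .nil))) 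
(.lf (nat_lit 1016) (.g (nat_lit 1769) (.e (nat_lit 108) (nat_lit 3) (.e (nat_lit 98342) (nat_lit 20) (.e (nat_lit 221215) (nat_lit 23) (.e (nat_lit 204846) (nat_lit 24) .nil)))) .nil)))))) (.nd (nat_lit 3) (.nd (nat_lit 4) (.nd (nat_lit 5) (.nd (nat_lit 6) 
(.lf (nat_lit 900) (.g (nat_lit 1244) (.e (nat_lit 100) (nat_lit 2) (.e (nat_lit 90172) (nat_lit 14) (.e (nat_lit 180244) (nat_lit 5) (.e (nat_lit 532515) (nat_lit 3) (.e (nat_lit 114716) (nat_lit 22) .nil))))) .nil)) 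
(.lf (nat_lit 964) (.g (nat_lit 1903) (.e (nat_lit 100) (nat_lit 2) (.e (nat_lit 90185) (nat_lit 17) (.e (nat_lit 237623) (nat_lit 13) (.e (nat_lit 491264) (nat_lit 7) (.e (nat_lit 409625) (nat_lit 10) (.e (nat_lit 5631) (nat_lit 312) .nil)))))) (.g (nat_lit 5) .nil .nil)))) (.nd (nat_lit 6) 
(.lf (nat_lit 932) (.g (nat_lit 1586) (.e (nat_lit 100) (nat_lit 2) (.e (nat_lit 90176) (nat_lit 15) (.e (nat_lit 188421) (nat_lit 11) (.e (nat_lit 336288) (nat_lit 15) (.e (nat_lit 7098) (nat_lit 380) (.e (nat_lit 164353) (nat_lit 246) .nil)))))) (.g (nat_lit 4) .nil .nil))) 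
(.lf (nat_lit 996) (.g (nat_lit 1378) (.e (nat_lit 103) (nat_lit 2) (.e (nat_lit 90185) (nat_lit 17) (.e (nat_lit 237624) (nat_lit 13) (.e (nat_lit 483333) (nat_lit 0) .nil)))) .nil)))) (.nd (nat_lit 5) (.nd (nat_lit 6) 
(.lf (nat_lit 916) (.g (nat_lit 2546) (.e (nat_lit 100) (nat_lit 2) (.e (nat_lit 90174) (nat_lit 14) (.e (nat_lit 180243) (nat_lit 5) (.e (nat_lit 532513) (nat_lit 3) (.e (nat_lit 114714) (nat_lit 22) (.e (nat_lit 98048) (nat_lit 21) (.e (nat_lit 164356) (nat_lit 246) .nil))))))) (.g (nat_lit 5) .nil .nil))) 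
(.lf (nat_lit 980) (.g (nat_lit 549) (.e (nat_lit 101) (nat_lit 2) (.e (nat_lit 90178) (nat_lit 15) (.e (nat_lit 188421) (nat_lit 11) .nil))) .nil))) (.nd (nat_lit 6) 
(.lf (nat_lit 948) (.g (nat_lit 399) (.e (nat_lit 100) (nat_lit 2) (.e (nat_lit 90178) (nat_lit 15) (.e (nat_lit 188421) (nat_lit 11) .nil))) .nil)) 
(.lf (nat_lit 1012) (.g (nat_lit 3073) (.e (nat_lit 108) (nat_lit 3) (.e (nat_lit 98342) (nat_lit 20) (.e (nat_lit 221194) (nat_lit 11) (.e (nat_lit 336012) (nat_lit 2) (.e (nat_lit 90172) (nat_lit 14) .nil))))) .nil))))) (.nd (nat_lit 4) (.nd (nat_lit 5) (.nd (nat_lit 6) 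
(.lf (nat_lit 908) (.g (nat_lit 1206) (.e (nat_lit 100) (nat_lit 2) (.e (nat_lit 90174) (nat_lit 14) (.e (nat_lit 180243) (nat_lit 5) (.e (nat_lit 532508) (nat_lit 2) .nil)))) .nil)) 
(.lf (nat_lit 972) (.g (nat_lit 2269) (.e (nat_lit 101) (nat_lit 2) (.e (nat_lit 90170) (nat_lit 13) (.e (nat_lit 172106) (nat_lit 10) (.e (nat_lit 434231) (nat_lit 23) (.e (nat_lit 532543) (nat_lit 10) .nil))))) .nil))) (.nd (nat_lit 6) 
(.lf (nat_lit 940) (.g (nat_lit 574) (.e (nat_lit 100) (nat_lit 2) (.e (nat_lit 90176) (nat_lit 15) (.e (nat_lit 196352) (nat_lit 19) (.e (nat_lit 401472) (nat_lit 28) (.e (nat_lit 352000) (nat_lit 0) .nil))))) (.g (nat_lit 4) .nil .nil))) 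
(.lf (nat_lit 1004) (.g (nat_lit 980) (.e (nat_lit 106) (nat_lit 3) (.e (nat_lit 98356) (nat_lit 26) (.e (nat_lit 426438) (nat_lit 18) .nil))) .nil)))) (.nd (nat_lit 5) (.nd (nat_lit 6) 
(.lf (nat_lit 924) (.g (nat_lit 4145) (.e (nat_lit 100) (nat_lit 2) (.e (nat_lit 90174) (nat_lit 14) (.e (nat_lit 180250) (nat_lit 10) (.e (nat_lit 573489) (nat_lit 14) (.e (nat_lit 73755) (nat_lit 8) (.e (nat_lit 557119) (nat_lit 18) (.e (nat_lit 2505) (nat_lit 157) (.e (nat_lit 5629) (nat_lit 312) .nil)))))))) (.g (nat_lit 6) .nil .nil))) 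
(.lf (nat_lit 988) (.g (nat_lit 2823) (.e (nat_lit 102) (nat_lit 2) (.e (nat_lit 90170) (nat_lit 13) (.e (nat_lit 172106) (nat_lit 10) (.e (nat_lit 434231) (nat_lit 23) (.e (nat_lit 532544) (nat_lit 10) .nil))))) .nil))) (.nd (nat_lit 6) 
(.lf (nat_lit 956) (.g (nat_lit 1744) (.e (nat_lit 100) (nat_lit 2) (.e (nat_lit 90185) (nat_lit 17) (.e (nat_lit 237603) (nat_lit 9) (.e (nat_lit 426562) (nat_lit 33) (.e (nat_lit 385041) (nat_lit 19) .nil))))) .nil)) 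
(.lf (nat_lit 1020) (.g (nat_lit 2204) (.e (nat_lit 108) (nat_lit 3) (.e (nat_lit 98356) (nat_lit 26) (.e (nat_lit 426438) (nat_lit 18) (.e (nat_lit 98367) (nat_lit 27) (.e (nat_lit 434247) (nat_lit 28) .nil))))) .nil))))))) (.nd (nat_lit 2) (.nd (nat_lit 3) (.nd (nat_lit 4) (.nd (nat_lit 5) (.nd (nat_lit 6) 
(.lf (nat_lit 898) (.g (nat_lit 1195) (.e (nat_lit 100) (nat_lit 2) (.e (nat_lit 90172) (nat_lit 14) (.e (nat_lit 180244) (nat_lit 5) (.e (nat_lit 532508) (nat_lit 2) .nil)))) .nil)) 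
(.lf (nat_lit 962) (.g (nat_lit 2100) (.e (nat_lit 100) (nat_lit 2) (.e (nat_lit 90185) (nat_lit 17) (.e (nat_lit 237621) (nat_lit 13) (.e (nat_lit 483333) (nat_lit 0) (.e (nat_lit 7098) (nat_lit 380) (.e (nat_lit 164358) (nat_lit 246) .nil)))))) (.g (nat_lit 6) .nil .nil)))) (.nd (nat_lit 6) 
(.lf (nat_lit 930) (.g (nat_lit 1774) (.e (nat_lit 100) (nat_lit 2) (.e (nat_lit 90176) (nat_lit 15) (.e (nat_lit 188421) (nat_lit 11) (.e (nat_lit 336288) (nat_lit 15) (.e (nat_lit 7096) (nat_lit 380) (.e (nat_lit 164353) (nat_lit 246) .nil)))))) (.g (nat_lit 4) .nil .nil))) 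
(.lf (nat_lit 994) (.g (nat_lit 3047) (.e (nat_lit 103) (nat_lit 2) (.e (nat_lit 90170) (nat_lit 13) (.e (nat_lit 172106) (nat_lit 10) (.e (nat_lit 434295) (nat_lit 49) (.e (nat_lit 745492) (nat_lit 5) .nil))))) .nil)))) (.nd (nat_lit 5) (.nd (nat_lit 6) 
(.lf (nat_lit 914) (.g (nat_lit 3489) (.e (nat_lit 100) (nat_lit 2) (.e (nat_lit 90174) (nat_lit 14) (.e (nat_lit 180243) (nat_lit 5) (.e (nat_lit 532513) (nat_lit 3) (.e (nat_lit 114714) (nat_lit 22) (.e (nat_lit 90203) (nat_lit 21) (.e (nat_lit 164358) (nat_lit 246) .nil))))))) (.g (nat_lit 0) .nil .nil))) 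
(.lf (nat_lit 978) (.g (nat_lit 2257) (.e (nat_lit 101) (nat_lit 2) (.e (nat_lit 90170) (nat_lit 13) (.e (nat_lit 172113) (nat_lit 10) (.e (nat_lit 434295) (nat_lit 49) (.e (nat_lit 745492) (nat_lit 5) (.e (nat_lit 81664) (nat_lit 32) .nil)))))) (.g (nat_lit 5) .nil .nil)))) (.nd (nat_lit 6) 
(.lf (nat_lit 946) (.g (nat_lit 525) (.e (nat_lit 100) (nat_lit 2) (.e (nat_lit 90176) (nat_lit 15) (.e (nat_lit 188439) (nat_lit 20) .nil))) .nil)) 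
(.lf (nat_lit 1010) (.g (nat_lit 1003) (.e (nat_lit 108) (nat_lit 3) (.e (nat_lit 98333) (nat_lit 18) (.e (nat_lit 164325) (nat_lit 230) .nil))) .nil))))) (.nd (nat_lit 4) (.nd (nat_lit 5) (.nd (nat_lit 6) 
(.lf (nat_lit 906) (.g (nat_lit 696) (.e (nat_lit 100) (nat_lit 2) (.e (nat_lit 90172) (nat_lit 14) (.e (nat_lit 180285) (nat_lit 45) .nil))) .nil)) 
(.lf (nat_lit 970) (.g (nat_lit 2386) (.e (nat_lit 101) (nat_lit 2) (.e (nat_lit 90170) (nat_lit 13) (.e (nat_lit 172106) (nat_lit 10) (.e (nat_lit 434209) (nat_lit 18) .nil)))) .nil))) (.nd (nat_lit 6) 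
(.lf (nat_lit 938) (.g (nat_lit 2175) (.e (nat_lit 100) (nat_lit 2) (.e (nat_lit 90176) (nat_lit 15) (.e (nat_lit 188423) (nat_lit 11) (.e (nat_lit 336288) (nat_lit 15) (.e (nat_lit 7096) (nat_lit 380) (.e (nat_lit 164354) (nat_lit 246) .nil)))))) (.g (nat_lit 0) .nil .nil))) 
(.lf (nat_lit 1002) (.g (nat_lit 1231) (.e (nat_lit 7936) (nat_lit 2) (.e (nat_lit 90176) (nat_lit 15) (.e (nat_lit 188450) (nat_lit 23) (.e (nat_lit 204864) (nat_lit 27) .nil)))) .nil)))) (.nd (nat_lit 5) (.nd (nat_lit 6) 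
(.lf (nat_lit 922) (.g (nat_lit 2092) (.e (nat_lit 100) (nat_lit 2) (.e (nat_lit 90174) (nat_lit 14) (.e (nat_lit 180250) (nat_lit 10) (.e (nat_lit 573487) (nat_lit 14) (.e (nat_lit 73753) (nat_lit 8) (.e (nat_lit 564992) (nat_lit 21) (.e (nat_lit 164353) (nat_lit 246) .nil))))))) (.g (nat_lit 4) .nil .nil))) 
(.lf (nat_lit 986) (.g (nat_lit 2713) (.e (nat_lit 102) (nat_lit 2) (.e (nat_lit 90170) (nat_lit 13) (.e (nat_lit 172106) (nat_lit 10) (.e (nat_lit 434231) (nat_lit 23) .nil)))) .nil))) (.nd (nat_lit 6) 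
(.lf (nat_lit 954) (.g (nat_lit 974) (.e (nat_lit 100) (nat_lit 2) (.e (nat_lit 90178) (nat_lit 15) (.e (nat_lit 188421) (nat_lit 11) (.e (nat_lit 343808) (nat_lit 25) .nil)))) .nil)) 
(.lf (nat_lit 1018) (.g (nat_lit 1802) (.e (nat_lit 108) (nat_lit 3) (.e (nat_lit 98356) (nat_lit 26) (.e (nat_lit 426428) (nat_lit 17) (.e (nat_lit 90174) (nat_lit 14) (.e (nat_lit 180250) (nat_lit 10) (.e (nat_lit 573478) (nat_lit 12) (.e (nat_lit 65280) (nat_lit 201) .nil))))))) (.g (nat_lit 4) .nil .nil))))))) (.nd (nat_lit 3) (.nd (nat_lit 4) (.nd (nat_lit 5) (.nd (nat_lit 6) 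
(.lf (nat_lit 902) (.g (nat_lit 510) (.e (nat_lit 100) (nat_lit 2) (.e (nat_lit 90172) (nat_lit 14) (.e (nat_lit 180276) (nat_lit 32) .nil))) .nil)) 
(.lf (nat_lit 966) (.g (nat_lit 393) (.e (nat_lit 100) (nat_lit 2) (.e (nat_lit 90185) (nat_lit 17) (.e (nat_lit 237624) (nat_lit 13) .nil))) .nil))) (.nd (nat_lit 6) 
(.lf (nat_lit 934) (.g (nat_lit 1590) (.e (nat_lit 100) (nat_lit 2) (.e (nat_lit 90176) (nat_lit 15) (.e (nat_lit 188421) (nat_lit 11) (.e (nat_lit 336288) (nat_lit 15) (.e (nat_lit 7105) (nat_lit 380) (.e (nat_lit 164358) (nat_lit 246) .nil)))))) (.g (nat_lit 4) .nil .nil))) 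
(.lf (nat_lit 998) (.g (nat_lit 1908) (.e (nat_lit 7936) (nat_lit 2) (.e (nat_lit 90170) (nat_lit 13) (.e (nat_lit 172106) (nat_lit 10) (.e (nat_lit 434231) (nat_lit 23) .nil)))) .nil)))) (.nd (nat_lit 5) (.nd (nat_lit 6) 
(.lf (nat_lit 918) (.g (nat_lit 1605) (.e (nat_lit 100) (nat_lit 2) (.e (nat_lit 90174) (nat_lit 14) (.e (nat_lit 180243) (nat_lit 5) (.e (nat_lit 532515) (nat_lit 3) (.e (nat_lit 114715) (nat_lit 22) .nil))))) .nil)) 
(.lf (nat_lit 982) (.g (nat_lit 1130) (.e (nat_lit 101) (nat_lit 2) (.e (nat_lit 90178) (nat_lit 15) (.e (nat_lit 188441) (nat_lit 20) (.e (nat_lit 3579) (nat_lit 223) .nil)))) .nil))) (.nd (nat_lit 6) 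
(.lf (nat_lit 950) (.g (nat_lit 1830) (.e (nat_lit 100) (nat_lit 2) (.e (nat_lit 90178) (nat_lit 15) (.e (nat_lit 188421) (nat_lit 11) (.e (nat_lit 336288) (nat_lit 15) (.e (nat_lit 6988) (nat_lit 377) .nil))))) .nil)) 
(.lf (nat_lit 1014) (.g (nat_lit 1669) (.e (nat_lit 108) (nat_lit 3) (.e (nat_lit 98342) (nat_lit 20) (.e (nat_lit 221212) (nat_lit 22) (.e (nat_lit 196668) (nat_lit 14) .nil)))) .nil))))) (.nd (nat_lit 4) (.nd (nat_lit 5) (.nd (nat_lit 6) 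
(.lf (nat_lit 910) (.g (nat_lit 3064) (.e (nat_lit 100) (nat_lit 2) (.e (nat_lit 90174) (nat_lit 14) (.e (nat_lit 180243) (nat_lit 5) (.e (nat_lit 532508) (nat_lit 2) (.e (nat_lit 106526) (nat_lit 9) (.e (nat_lit 1234) (nat_lit 91) (.e (nat_lit 90203) (nat_lit 21) (.e (nat_lit 164358) (nat_lit 246) .nil)))))))) (.g (nat_lit 7) .nil .nil))) 
(.lf (nat_lit 974) (.g (nat_lit 3194) (.e (nat_lit 101) (nat_lit 2) (.e (nat_lit 90170) (nat_lit 13) (.e (nat_lit 172106) (nat_lit 10) (.e (nat_lit 434231) (nat_lit 23) (.e (nat_lit 532543) (nat_lit 10) (.e (nat_lit 344160) (nat_lit 37) (.e (nat_lit 655104) (nat_lit 0) .nil))))))) (.g (nat_lit 6) .nil .nil)))) (.nd (nat_lit 6) 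
(.lf (nat_lit 942) (.g (nat_lit 636) (.e (nat_lit 100) (nat_lit 2) (.e (nat_lit 90176) (nat_lit 15) (.e (nat_lit 188430) (nat_lit 20) .nil))) .nil)) 
(.lf (nat_lit 1006) (.g (nat_lit 3400) (.e (nat_lit 107) (nat_lit 3) (.e (nat_lit 98356) (nat_lit 26) (.e (nat_lit 426428) (nat_lit 17) (.e (nat_lit 90174) (nat_lit 14) (.e (nat_lit 180250) (nat_lit 10) (.e (nat_lit 573473) (nat_lit 12) (.e (nat_lit 65280) (nat_lit 201) .nil))))))) (.g (nat_lit 6) .nil .nil))))) (.nd (nat_lit 5) (.nd (nat_lit 6) 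
(.lf (nat_lit 926) (.g (nat_lit 4217) (.e (nat_lit 100) (nat_lit 2) (.e (nat_lit 90174) (nat_lit 14) (.e (nat_lit 180251) (nat_lit 10) (.e (nat_lit 573489) (nat_lit 14) (.e (nat_lit 73755) (nat_lit 8) (.e (nat_lit 557119) (nat_lit 18) (.e (nat_lit 2505) (nat_lit 157) (.e (nat_lit 5629) (nat_lit 312) .nil)))))))) (.g (nat_lit 6) .nil .nil))) 
(.lf (nat_lit 990) (.g (nat_lit 2632) (.e (nat_lit 102) (nat_lit 2) (.e (nat_lit 90170) (nat_lit 13) (.e (nat_lit 172106) (nat_lit 10) (.e (nat_lit 434295) (nat_lit 49) .nil)))) .nil))) (.nd (nat_lit 6) 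
(.lf (nat_lit 958) (.g (nat_lit 971) (.e (nat_lit 100) (nat_lit 2) (.e (nat_lit 90185) (nat_lit 17) (.e (nat_lit 237620) (nat_lit 13) .nil))) .nil)) 
(.lf (nat_lit 1022) (.g (nat_lit 1060) (.e (nat_lit 108) (nat_lit 3) (.e (nat_lit 98358) (nat_lit 26) (.e (nat_lit 426320) (nat_lit 12) .nil))) .nil)))))))) (.nd (nat_lit 1) (.nd (nat_lit 2) (.nd (nat_lit 3) (.nd (nat_lit 4) (.nd (nat_lit 5) (.nd (nat_lit 6) 
(.lf (nat_lit 897) (.g (nat_lit 2073) (.e (nat_lit 100) (nat_lit 2) (.e (nat_lit 90170) (nat_lit 13) (.e (nat_lit 172126) (nat_lit 14) (.e (nat_lit 491580) (nat_lit 27) .nil)))) .nil)) 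
(.lf (nat_lit 961) (.g (nat_lit 2129) (.e (nat_lit 100) (nat_lit 2) (.e (nat_lit 90185) (nat_lit 17) (.e (nat_lit 237621) (nat_lit 13) (.e (nat_lit 483333) (nat_lit 0) (.e (nat_lit 7096) (nat_lit 380) (.e (nat_lit 164354) (nat_lit 246) .nil)))))) (.g (nat_lit 0) .nil .nil)))) (.nd (nat_lit 6) 
(.lf (nat_lit 929) (.g (nat_lit 543) (.e (nat_lit 100) (nat_lit 2) (.e (nat_lit 90174) (nat_lit 14) (.e (nat_lit 180275) (nat_lit 32) .nil))) .nil)) 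
(.lf (nat_lit 993) (.g (nat_lit 2734) (.e (nat_lit 103) (nat_lit 2) (.e (nat_lit 90170) (nat_lit 13) (.e (nat_lit 172106) (nat_lit 10) (.e (nat_lit 434231) (nat_lit 23) .nil)))) .nil)))) (.nd (nat_lit 5) (.nd (nat_lit 6) 
(.lf (nat_lit 913) (.g (nat_lit 2205) (.e (nat_lit 100) (nat_lit 2) (.e (nat_lit 90174) (nat_lit 14) (.e (nat_lit 180243) (nat_lit 5) (.e (nat_lit 532513) (nat_lit 3) (.e (nat_lit 114713) (nat_lit 22) (.e (nat_lit 90203) (nat_lit 21) (.e (nat_lit 164358) (nat_lit 246) .nil))))))) (.g (nat_lit 4) .nil .nil))) 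
(.lf (nat_lit 977) (.g (nat_lit 2694) (.e (nat_lit 101) (nat_lit 2) (.e (nat_lit 90170) (nat_lit 13) (.e (nat_lit 172106) (nat_lit 10) (.e (nat_lit 434295) (nat_lit 49) (.e (nat_lit 745492) (nat_lit 5) (.e (nat_lit 81664) (nat_lit 32) .nil)))))) (.g (nat_lit 4) .nil .nil)))) (.nd (nat_lit 6) 
(.lf (nat_lit 945) (.g (nat_lit 1598) (.e (nat_lit 100) (nat_lit 2) (.e (nat_lit 90176) (nat_lit 15) (.e (nat_lit 188431) (nat_lit 20) (.e (nat_lit 3572) (nat_lit 222) (.e (nat_lit 745216) (nat_lit 0) (.e (nat_lit 5022) (nat_lit 290) (.e (nat_lit 164354) (nat_lit 246) .nil))))))) (.g (nat_lit 4) .nil .nil))) 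
(.lf (nat_lit 1009) (.g (nat_lit 1889) (.e (nat_lit 107) (nat_lit 3) (.e (nat_lit 98384) (nat_lit 32) (.e (nat_lit 475177) (nat_lit 24) (.e (nat_lit 516150) (nat_lit 9) .nil)))) .nil))))) (.nd (nat_lit 4) (.nd (nat_lit 5) (.nd (nat_lit 6) 
(.lf (nat_lit 905) (.g (nat_lit 417) (.e (nat_lit 100) (nat_lit 2) (.e (nat_lit 90172) (nat_lit 14) (.e (nat_lit 188160) (nat_lit 40) .nil))) .nil)) 
(.lf (nat_lit 969) (.g (nat_lit 785) (.e (nat_lit 100) (nat_lit 2) (.e (nat_lit 90185) (nat_lit 17) (.e (nat_lit 237624) (nat_lit 13) (.e (nat_lit 491264) (nat_lit 7) .nil)))) .nil))) (.nd (nat_lit 6) 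
(.lf (nat_lit 937) (.g (nat_lit 2264) (.e (nat_lit 100) (nat_lit 2) (.e (nat_lit 90176) (nat_lit 15) (.e (nat_lit 188423) (nat_lit 11) (.e (nat_lit 336288) (nat_lit 15) (.e (nat_lit 7096) (nat_lit 380) (.e (nat_lit 164353) (nat_lit 246) .nil)))))) (.g (nat_lit 0) .nil .nil))) 
(.lf (nat_lit 1001) (.g (nat_lit 990) (.e (nat_lit 7936) (nat_lit 2) (.e (nat_lit 90176) (nat_lit 15) (.e (nat_lit 188450) (nat_lit 23) (.e (nat_lit 204863) (nat_lit 27) .nil)))) .nil)))) (.nd (nat_lit 5) (.nd (nat_lit 6) 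
(.lf (nat_lit 921) (.g (nat_lit 2340) (.e (nat_lit 100) (nat_lit 2) (.e (nat_lit 90174) (nat_lit 14) (.e (nat_lit 180243) (nat_lit 5) (.e (nat_lit 532515) (nat_lit 3) (.e (nat_lit 114716) (nat_lit 22) (.e (nat_lit 98048) (nat_lit 21) (.e (nat_lit 164354) (nat_lit 246) .nil))))))) (.g (nat_lit 5) .nil .nil))) 
(.lf (nat_lit 985) (.g (nat_lit 1021) (.e (nat_lit 102) (nat_lit 2) (.e (nat_lit 90170) (nat_lit 13) (.e (nat_lit 172106) (nat_lit 10) .nil))) .nil))) (.nd (nat_lit 6) 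
(.lf (nat_lit 953) (.g (nat_lit 2709) (.e (nat_lit 100) (nat_lit 2) (.e (nat_lit 90178) (nat_lit 15) (.e (nat_lit 188421) (nat_lit 11) (.e (nat_lit 336288) (nat_lit 15) (.e (nat_lit 7098) (nat_lit 380) (.e (nat_lit 164358) (nat_lit 246) .nil)))))) (.g (nat_lit 6) .nil .nil))) 
(.lf (nat_lit 1017) (.g (nat_lit 3111) (.e (nat_lit 108) (nat_lit 3) (.e (nat_lit 98356) (nat_lit 26) (.e (nat_lit 426428) (nat_lit 17) (.e (nat_lit 90174) (nat_lit 14) (.e (nat_lit 180250) (nat_lit 10) (.e (nat_lit 573473) (nat_lit 12) (.e (nat_lit 65280) (nat_lit 201) .nil))))))) (.g (nat_lit 6) .nil .nil))))))) (.nd (nat_lit 3) (.nd (nat_lit 4) (.nd (nat_lit 5) (.nd (nat_lit 6) 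
(.lf (nat_lit 901) (.g (nat_lit 1483) (.e (nat_lit 100) (nat_lit 2) (.e (nat_lit 90172) (nat_lit 14) (.e (nat_lit 180244) (nat_lit 5) (.e (nat_lit 532515) (nat_lit 3) (.e (nat_lit 114716) (nat_lit 22) (.e (nat_lit 98048) (nat_lit 21) (.e (nat_lit 164353) (nat_lit 246) .nil))))))) (.g (nat_lit 4) .nil .nil))) 
(.lf (nat_lit 965) (.g (nat_lit 1970) (.e (nat_lit 100) (nat_lit 2) (.e (nat_lit 90185) (nat_lit 17) (.e (nat_lit 237623) (nat_lit 13) (.e (nat_lit 491264) (nat_lit 7) (.e (nat_lit 409625) (nat_lit 10) (.e (nat_lit 5632) (nat_lit 312) .nil)))))) (.g (nat_lit 5) .nil .nil)))) (.nd (nat_lit 6) 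
(.lf (nat_lit 933) (.g (nat_lit 1469) (.e (nat_lit 100) (nat_lit 2) (.e (nat_lit 90176) (nat_lit 15) (.e (nat_lit 188421) (nat_lit 11) (.e (nat_lit 336288) (nat_lit 15) (.e (nat_lit 7098) (nat_lit 380) (.e (nat_lit 164354) (nat_lit 246) .nil)))))) (.g (nat_lit 4) .nil .nil))) 
(.lf (nat_lit 997) (.g (nat_lit 751) (.e (nat_lit 104) (nat_lit 2) (.e (nat_lit 90177) (nat_lit 15) (.e (nat_lit 188434) (nat_lit 20) (.e (nat_lit 3578) (nat_lit 223) .nil)))) .nil)))) (.nd (nat_lit 5) (.nd (nat_lit 6) 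
(.lf (nat_lit 917) (.g (nat_lit 1922) (.e (nat_lit 100) (nat_lit 2) (.e (nat_lit 90174) (nat_lit 14) (.e (nat_lit 180243) (nat_lit 5) (.e (nat_lit 532515) (nat_lit 3) (.e (nat_lit 114713) (nat_lit 22) .nil))))) .nil)) 
(.lf (nat_lit 981) (.g (nat_lit 632) (.e (nat_lit 101) (nat_lit 2) (.e (nat_lit 90178) (nat_lit 15) (.e (nat_lit 188441) (nat_lit 20) .nil))) .nil))) (.nd (nat_lit 6) 
(.lf (nat_lit 949) (.g (nat_lit 1064) (.e (nat_lit 100) (nat_lit 2) (.e (nat_lit 90178) (nat_lit 15) (.e (nat_lit 188421) (nat_lit 11) (.e (nat_lit 336288) (nat_lit 15) .nil)))) .nil)) 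
(.lf (nat_lit 1013) (.g (nat_lit 695) (.e (nat_lit 108) (nat_lit 3) (.e (nat_lit 98342) (nat_lit 20) (.e (nat_lit 221212) (nat_lit 22) .nil))) .nil))))) (.nd (nat_lit 4) (.nd (nat_lit 5) (.nd (nat_lit 6) 
(.lf (nat_lit 909) (.g (nat_lit 2050) (.e (nat_lit 100) (nat_lit 2) (.e (nat_lit 90174) (nat_lit 14) (.e (nat_lit 180243) (nat_lit 5) (.e (nat_lit 532508) (nat_lit 2) (.e (nat_lit 106526) (nat_lit 9) (.e (nat_lit 1226) (nat_lit 91) (.e (nat_lit 90203) (nat_lit 21) (.e (nat_lit 164358) (nat_lit 246) .nil)))))))) (.g (nat_lit 5) .nil .nil))) 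
(.lf (nat_lit 973) (.g (nat_lit 3558) (.e (nat_lit 101) (nat_lit 2) (.e (nat_lit 90170) (nat_lit 13) (.e (nat_lit 172106) (nat_lit 10) (.e (nat_lit 434231) (nat_lit 23) (.e (nat_lit 532543) (nat_lit 10) (.e (nat_lit 344160) (nat_lit 37) (.e (nat_lit 647168) (nat_lit 0) .nil))))))) (.g (nat_lit 6) .nil .nil)))) (.nd (nat_lit 6) 
(.lf (nat_lit 941) (.g (nat_lit 646) (.e (nat_lit 100) (nat_lit 2) (.e (nat_lit 90176) (nat_lit 15) (.e (nat_lit 188428) (nat_lit 20) .nil))) .nil)) 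
(.lf (nat_lit 1005) (.g (nat_lit 2029) (.e (nat_lit 107) (nat_lit 3) (.e (nat_lit 98356) (nat_lit 26) (.e (nat_lit 426428) (nat_lit 17) (.e (nat_lit 90174) (nat_lit 14) (.e (nat_lit 180250) (nat_lit 10) .nil))))) .nil)))) (.nd (nat_lit 5) (.nd (nat_lit 6) 
(.lf (nat_lit 925) (.g (nat_lit 4245) (.e (nat_lit 100) (nat_lit 2) (.e (nat_lit 90174) (nat_lit 14) (.e (nat_lit 180251) (nat_lit 10) (.e (nat_lit 573489) (nat_lit 14) (.e (nat_lit 73755) (nat_lit 8) (.e (nat_lit 557119) (nat_lit 18) (.e (nat_lit 2448) (nat_lit 157) (.e (nat_lit 5630) (nat_lit 312) .nil)))))))) (.g (nat_lit 6) .nil .nil))) 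
(.lf (nat_lit 989) (.g (nat_lit 2829) (.e (nat_lit 102) (nat_lit 2) (.e (nat_lit 90170) (nat_lit 13) (.e (nat_lit 172106) (nat_lit 10) (.e (nat_lit 434231) (nat_lit 23) (.e (nat_lit 532544) (nat_lit 10) (.e (nat_lit 344158) (nat_lit 37) (.e (nat_lit 647169) (nat_lit 0) .nil))))))) (.g (nat_lit 4) .nil .nil)))) (.nd (nat_lit 6) 
(.lf (nat_lit 957) (.g (nat_lit 337) (.e (nat_lit 100) (nat_lit 2) (.e (nat_lit 90185) (nat_lit 17) (.e (nat_lit 237605) (nat_lit 9) .nil))) .nil)) 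
(.lf (nat_lit 1021) (.g (nat_lit 2245) (.e (nat_lit 108) (nat_lit 3) (.e (nat_lit 98356) (nat_lit 26) (.e (nat_lit 426438) (nat_lit 18) (.e (nat_lit 98367) (nat_lit 27) (.e (nat_lit 434248) (nat_lit 28) .nil))))) .nil))))))) (.nd (nat_lit 2) (.nd (nat_lit 3) (.nd (nat_lit 4) (.nd (nat_lit 5) (.nd (nat_lit 6) 
(.lf (nat_lit 899) (.g (nat_lit 1259) (.e (nat_lit 100) (nat_lit 2) (.e (nat_lit 90172) (nat_lit 14) (.e (nat_lit 180244) (nat_lit 5) (.e (nat_lit 532515) (nat_lit 3) (.e (nat_lit 114715) (nat_lit 22) .nil))))) .nil)) 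
(.lf (nat_lit 963) (.g (nat_lit 989) (.e (nat_lit 100) (nat_lit 2) (.e (nat_lit 90185) (nat_lit 17) (.e (nat_lit 237623) (nat_lit 13) .nil))) .nil))) (.nd (nat_lit 6) 
(.lf (nat_lit 931) (.g (nat_lit 1638) (.e (nat_lit 100) (nat_lit 2) (.e (nat_lit 90176) (nat_lit 15) (.e (nat_lit 188421) (nat_lit 11) (.e (nat_lit 336288) (nat_lit 15) (.e (nat_lit 7096) (nat_lit 380) (.e (nat_lit 164354) (nat_lit 246) .nil)))))) (.g (nat_lit 4) .nil .nil))) 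
(.lf (nat_lit 995) (.g (nat_lit 1370) (.e (nat_lit 103) (nat_lit 2) (.e (nat_lit 90185) (nat_lit 17) (.e (nat_lit 237621) (nat_lit 13) (.e (nat_lit 483333) (nat_lit 0) .nil)))) .nil)))) (.nd (nat_lit 5) (.nd (nat_lit 6) 
(.lf (nat_lit 915) (.g (nat_lit 2605) (.e (nat_lit 100) (nat_lit 2) (.e (nat_lit 90174) (nat_lit 14) (.e (nat_lit 180243) (nat_lit 5) (.e (nat_lit 532513) (nat_lit 3) (.e (nat_lit 114714) (nat_lit 22) (.e (nat_lit 98048) (nat_lit 21) (.e (nat_lit 164353) (nat_lit 246) .nil))))))) (.g (nat_lit 5) .nil .nil))) 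
(.lf (nat_lit 979) (.g (nat_lit 1349) (.e (nat_lit 101) (nat_lit 2) (.e (nat_lit 90170) (nat_lit 13) (.e (nat_lit 172123) (nat_lit 13) (.e (nat_lit 483333) (nat_lit 0) .nil)))) .nil))) (.nd (nat_lit 6) 
(.lf (nat_lit 947) (.g (nat_lit 587) (.e (nat_lit 100) (nat_lit 2) (.e (nat_lit 90176) (nat_lit 15) (.e (nat_lit 188444) (nat_lit 21) .nil))) .nil)) 
(.lf (nat_lit 1011) (.g (nat_lit 1918) (.e (nat_lit 108) (nat_lit 3) (.e (nat_lit 98342) (nat_lit 20) (.e (nat_lit 221194) (nat_lit 11) (.e (nat_lit 336010) (nat_lit 2) (.e (nat_lit 90172) (nat_lit 14) .nil))))) .nil))))) (.nd (nat_lit 4) (.nd (nat_lit 5) (.nd (nat_lit 6) 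
(.lf (nat_lit 907) (.g (nat_lit 637) (.e (nat_lit 100) (nat_lit 2) (.e (nat_lit 90172) (nat_lit 14) (.e (nat_lit 180291) (nat_lit 48) .nil))) .nil)) 
(.lf (nat_lit 971) (.g (nat_lit 2187) (.e (nat_lit 101) (nat_lit 2) (.e (nat_lit 90170) (nat_lit 13) (.e (nat_lit 172106) (nat_lit 10) (.e (nat_lit 434231) (nat_lit 23) .nil)))) .nil))) (.nd (nat_lit 6) 
(.lf (nat_lit 939) (.g (nat_lit 1033) (.e (nat_lit 100) (nat_lit 2) (.e (nat_lit 90176) (nat_lit 15) (.e (nat_lit 188423) (nat_lit 11) (.e (nat_lit 336288) (nat_lit 15) (.e (nat_lit 7098) (nat_lit 380) .nil))))) .nil)) 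
(.lf (nat_lit 1003) (.g (nat_lit 3034) (.e (nat_lit 106) (nat_lit 3) (.e (nat_lit 98333) (nat_lit 18) (.e (nat_lit 164325) (nat_lit 230) (.e (nat_lit 163903) (nat_lit 12) (.e (nat_lit 426568) (nat_lit 34) .nil))))) .nil)))) (.nd (nat_lit 5) (.nd (nat_lit 6) 
(.lf (nat_lit 923) (.g (nat_lit 4235) (.e (nat_lit 100) (nat_lit 2) (.e (nat_lit 90174) (nat_lit 14) (.e (nat_lit 180250) (nat_lit 10) (.e (nat_lit 573489) (nat_lit 14) (.e (nat_lit 73755) (nat_lit 8) (.e (nat_lit 557119) (nat_lit 18) (.e (nat_lit 2448) (nat_lit 157) (.e (nat_lit 5630) (nat_lit 312) .nil)))))))) (.g (nat_lit 6) .nil .nil))) 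
(.lf (nat_lit 987) (.g (nat_lit 3060) (.e (nat_lit 102) (nat_lit 2) (.e (nat_lit 90170) (nat_lit 13) (.e (nat_lit 172106) (nat_lit 10) (.e (nat_lit 434231) (nat_lit 23) (.e (nat_lit 532535) (nat_lit 9) .nil))))) .nil))) (.nd (nat_lit 6) 
(.lf (nat_lit 955) (.g (nat_lit 344) (.e (nat_lit 100) (nat_lit 2) (.e (nat_lit 90178) (nat_lit 15) (.e (nat_lit 196352) (nat_lit 17) .nil))) .nil)) 
(.lf (nat_lit 1019) (.g (nat_lit 962) (.e (nat_lit 108) (nat_lit 3) (.e (nat_lit 98356) (nat_lit 26) (.e (nat_lit 426438) (nat_lit 18) .nil))) .nil)))))) (.nd (nat_lit 3) (.nd (nat_lit 4) (.nd (nat_lit 5) (.nd (nat_lit 6) 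
(.lf (nat_lit 903) (.g (nat_lit 2010) (.e (nat_lit 100) (nat_lit 2) (.e (nat_lit 90172) (nat_lit 14) (.e (nat_lit 180276) (nat_lit 32) (.e (nat_lit 418) (nat_lit 32) (.e (nat_lit 426351) (nat_lit 15) (.e (nat_lit 6236) (nat_lit 335) (.e (nat_lit 164353) (nat_lit 246) .nil))))))) (.g (nat_lit 0) .nil .nil))) 
(.lf (nat_lit 967) (.g (nat_lit 745) (.e (nat_lit 100) (nat_lit 2) (.e (nat_lit 90185) (nat_lit 17) (.e (nat_lit 237624) (nat_lit 13) (.e (nat_lit 483333) (nat_lit 0) .nil)))) .nil))) (.nd (nat_lit 6) 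
(.lf (nat_lit 935) (.g (nat_lit 344) (.e (nat_lit 100) (nat_lit 2) (.e (nat_lit 90176) (nat_lit 15) (.e (nat_lit 188423) (nat_lit 11) .nil))) .nil)) 
(.lf (nat_lit 999) (.g (nat_lit 2068) (.e (nat_lit 7936) (nat_lit 2) (.e (nat_lit 90170) (nat_lit 13) (.e (nat_lit 172106) (nat_lit 10) (.e (nat_lit 434295) (nat_lit 49) .nil)))) .nil)))) (.nd (nat_lit 5) (.nd (nat_lit 6) 
(.lf (nat_lit 919) (.g (nat_lit 2068) (.e (nat_lit 100) (nat_lit 2) (.e (nat_lit 90174) (nat_lit 14) (.e (nat_lit 180243) (nat_lit 5) (.e (nat_lit 532515) (nat_lit 3) (.e (nat_lit 114715) (nat_lit 22) (.e (nat_lit 90203) (nat_lit 21) (.e (nat_lit 164358) (nat_lit 246) .nil))))))) (.g (nat_lit 5) .nil .nil))) 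
(.lf (nat_lit 983) (.g (nat_lit 1380) (.e (nat_lit 101) (nat_lit 2) (.e (nat_lit 90185) (nat_lit 17) (.e (nat_lit 237621) (nat_lit 13) (.e (nat_lit 483333) (nat_lit 0) .nil)))) .nil))) (.nd (nat_lit 6) 
(.lf (nat_lit 951) (.g (nat_lit 2641) (.e (nat_lit 100) (nat_lit 2) (.e (nat_lit 90178) (nat_lit 15) (.e (nat_lit 188421) (nat_lit 11) (.e (nat_lit 336288) (nat_lit 15) (.e (nat_lit 7096) (nat_lit 380) (.e (nat_lit 164354) (nat_lit 246) .nil)))))) (.g (nat_lit 0) .nil .nil))) 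
(.lf (nat_lit 1015) (.g (nat_lit 1901) (.e (nat_lit 108) (nat_lit 3) (.e (nat_lit 98342) (nat_lit 20) (.e (nat_lit 221212) (nat_lit 22) (.e (nat_lit 196669) (nat_lit 14) (.e (nat_lit 73755) (nat_lit 8) .nil))))) .nil))))) (.nd (nat_lit 4) (.nd (nat_lit 5) (.nd (nat_lit 6) 
(.lf (nat_lit 911) (.g (nat_lit 1211) (.e (nat_lit 100) (nat_lit 2) (.e (nat_lit 90174) (nat_lit 14) (.e (nat_lit 180243) (nat_lit 5) (.e (nat_lit 532511) (nat_lit 2) .nil)))) .nil)) 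
(.lf (nat_lit 975) (.g (nat_lit 3202) (.e (nat_lit 101) (nat_lit 2) (.e (nat_lit 90170) (nat_lit 13) (.e (nat_lit 172106) (nat_lit 10) (.e (nat_lit 434231) (nat_lit 23) (.e (nat_lit 532544) (nat_lit 10) (.e (nat_lit 344163) (nat_lit 37) (.e (nat_lit 647168) (nat_lit 0) .nil))))))) (.g (nat_lit 5) .nil .nil)))) (.nd (nat_lit 6) 
(.lf (nat_lit 943) (.g (nat_lit 448) (.e (nat_lit 100) (nat_lit 2) (.e (nat_lit 90176) (nat_lit 15) (.e (nat_lit 188431) (nat_lit 20) .nil))) .nil)) 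
(.lf (nat_lit 1007) (.g (nat_lit 2291) (.e (nat_lit 107) (nat_lit 3) (.e (nat_lit 98356) (nat_lit 26) (.e (nat_lit 426438) (nat_lit 18) (.e (nat_lit 98367) (nat_lit 27) (.e (nat_lit 434248) (nat_lit 28) .nil))))) .nil)))) (.nd (nat_lit 5) (.nd (nat_lit 6) 
(.lf (nat_lit 927) (.g (nat_lit 2754) (.e (nat_lit 100) (nat_lit 2) (.e (nat_lit 90174) (nat_lit 14) (.e (nat_lit 180252) (nat_lit 10) (.e (nat_lit 573489) (nat_lit 14) (.e (nat_lit 73755) (nat_lit 8) .nil))))) .nil)) 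
(.lf (nat_lit 991) (.g (nat_lit 898) (.e (nat_lit 102) (nat_lit 2) (.e (nat_lit 90185) (nat_lit 17) (.e (nat_lit 237605) (nat_lit 9) .nil))) .nil))) (.nd (nat_lit 6) 
(.lf (nat_lit 959) (.g (nat_lit 391) (.e (nat_lit 100) (nat_lit 2) (.e (nat_lit 90185) (nat_lit 17) (.e (nat_lit 237621) (nat_lit 13) .nil))) .nil)) 
(.lf (nat_lit 1023) (.g (nat_lit 2633) (.e (nat_lit 108) (nat_lit 3) (.e (nat_lit 98358) (nat_lit 26) (.e (nat_lit 426428) (nat_lit 17) (.e (nat_lit 90174) (nat_lit 14) (.e (nat_lit 180250) (nat_lit 10) (.e (nat_lit 573473) (nat_lit 12) (.e (nat_lit 65280) (nat_lit 201) .nil))))))) (.g (nat_lit 6) .nil .nil))))))))))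

noncomputable def tv015 : DT := (.nd (nat_lit 0) (.nd (nat_lit 1) (.nd (nat_lit 2) (.nd (nat_lit 3) (.nd (nat_lit 4) (.nd (nat_lit 5) (.nd (nat_lit 6) 
(.lf (nat_lit 1024) (.g (nat_lit 1784) (.e (nat_lit 108) (nat_lit 3) (.e (nat_lit 98372) (nat_lit 29) (.e (nat_lit 450579) (nat_lit 5) (.e (nat_lit 532530) (nat_lit 9) .nil)))) .nil)) 
(.lf (nat_lit 1088) (.g (nat_lit 980) (.e (nat_lit 111) (nat_lit 3) (.e (nat_lit 98356) (nat_lit 26) (.e (nat_lit 426438) (nat_lit 18) .nil))) .nil))) (.nd (nat_lit 6) 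
(.lf (nat_lit 1056) (.g (nat_lit 2689) (.e (nat_lit 109) (nat_lit 3) (.e (nat_lit 98356) (nat_lit 26) (.e (nat_lit 426438) (nat_lit 18) (.e (nat_lit 98367) (nat_lit 27) (.e (nat_lit 434248) (nat_lit 28) (.e (nat_lit 573475) (nat_lit 12) (.e (nat_lit 65280) (nat_lit 201) .nil))))))) (.g (nat_lit 5) .nil .nil))) 
(.lf (nat_lit 1120) (.g (nat_lit 1632) (.e (nat_lit 112) (nat_lit 3) (.e (nat_lit 98342) (nat_lit 20) (.e (nat_lit 229120) (nat_lit 11) (.e (nat_lit 336012) (nat_lit 2) (.e (nat_lit 90172) (nat_lit 14) (.e (nat_lit 188160) (nat_lit 40) .nil)))))) (.g (nat_lit 4) .nil .nil))))) (.nd (nat_lit 5) (.nd (nat_lit 6) 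
(.lf (nat_lit 1040) (.g (nat_lit 630) (.e (nat_lit 109) (nat_lit 3) (.e (nat_lit 98335) (nat_lit 18) (.e (nat_lit 164325) (nat_lit 230) .nil))) .nil)) 
(.lf (nat_lit 1104) (.g (nat_lit 2616) (.e (nat_lit 112) (nat_lit 3) (.e (nat_lit 98334) (nat_lit 18) (.e (nat_lit 164330) (nat_lit 230) (.e (nat_lit 163943) (nat_lit 19) (.e (nat_lit 483333) (nat_lit 0) .nil))))) .nil))) (.nd (nat_lit 6) 
(.lf (nat_lit 1072) (.g (nat_lit 1532) (.e (nat_lit 110) (nat_lit 3) (.e (nat_lit 98341) (nat_lit 20) (.e (nat_lit 221194) (nat_lit 11) (.e (nat_lit 336010) (nat_lit 2) .nil)))) .nil)) 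
(.lf (nat_lit 1136) (.g (nat_lit 2336) (.e (nat_lit 112) (nat_lit 3) (.e (nat_lit 98358) (nat_lit 26) (.e (nat_lit 426323) (nat_lit 13) (.e (nat_lit 483333) (nat_lit 0) (.e (nat_lit 7096) (nat_lit 380) (.e (nat_lit 164354) (nat_lit 246) .nil)))))) (.g (nat_lit 0) .nil .nil)))))) (.nd (nat_lit 4) (.nd (nat_lit 5) (.nd (nat_lit 6) 
(.lf (nat_lit 1032) (.g (nat_lit 1993) (.e (nat_lit 108) (nat_lit 3) (.e (nat_lit 98384) (nat_lit 32) (.e (nat_lit 475177) (nat_lit 24) (.e (nat_lit 516146) (nat_lit 9) .nil)))) .nil)) 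
(.lf (nat_lit 1096) (.g (nat_lit 2627) (.e (nat_lit 112) (nat_lit 3) (.e (nat_lit 98333) (nat_lit 18) (.e (nat_lit 164325) (nat_lit 230) (.e (nat_lit 163942) (nat_lit 19) .nil)))) .nil))) (.nd (nat_lit 6) 
(.lf (nat_lit 1064) (.g (nat_lit 1972) (.e (nat_lit 109) (nat_lit 3) (.e (nat_lit 98384) (nat_lit 32) (.e (nat_lit 475177) (nat_lit 24) (.e (nat_lit 516146) (nat_lit 9) .nil)))) .nil)) 
(.lf (nat_lit 1128) (.g (nat_lit 1839) (.e (nat_lit 112) (nat_lit 3) (.e (nat_lit 98358) (nat_lit 26) (.e (nat_lit 426131) (nat_lit 3) (.e (nat_lit 204838) (nat_lit 20) (.e (nat_lit 114702) (nat_lit 20) .nil))))) .nil)))) (.nd (nat_lit 5) (.nd (nat_lit 6) 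
(.lf (nat_lit 1048) (.g (nat_lit 786) (.e (nat_lit 109) (nat_lit 3) (.e (nat_lit 98342) (nat_lit 20) (.e (nat_lit 221212) (nat_lit 22) .nil))) .nil)) 
(.lf (nat_lit 1112) (.g (nat_lit 2819) (.e (nat_lit 112) (nat_lit 3) (.e (nat_lit 98334) (nat_lit 18) (.e (nat_lit 164332) (nat_lit 230) (.e (nat_lit 163943) (nat_lit 19) (.e (nat_lit 483333) (nat_lit 0) (.e (nat_lit 6988) (nat_lit 377) (.e (nat_lit 1076) (nat_lit 81) (.e (nat_lit 5629) (nat_lit 312) .nil)))))))) (.g (nat_lit 6) .nil .nil)))) (.nd (nat_lit 6) 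
(.lf (nat_lit 1080) (.g (nat_lit 1536) (.e (nat_lit 110) (nat_lit 3) (.e (nat_lit 98365) (nat_lit 26) (.e (nat_lit 426188) (nat_lit 9) (.e (nat_lit 426562) (nat_lit 33) .nil)))) .nil)) 
(.lf (nat_lit 1144) (.g (nat_lit 2289) (.e (nat_lit 112) (nat_lit 3) (.e (nat_lit 98358) (nat_lit 26) (.e (nat_lit 426323) (nat_lit 13) (.e (nat_lit 483333) (nat_lit 0) (.e (nat_lit 7106) (nat_lit 380) (.e (nat_lit 164358) (nat_lit 246) .nil)))))) (.g (nat_lit 0) .nil .nil))))))) (.nd (nat_lit 3) (.nd (nat_lit 4) (.nd (nat_lit 5) (.nd (nat_lit 6) 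
(.lf (nat_lit 1028) (.g (nat_lit 1445) (.e (nat_lit 108) (nat_lit 3) (.e (nat_lit 98381) (nat_lit 31) (.e (nat_lit 466977) (nat_lit 22) (.e (nat_lit 196668) (nat_lit 14) .nil)))) .nil)) 
(.lf (nat_lit 1092) (.g (nat_lit 725) (.e (nat_lit 112) (nat_lit 3) (.e (nat_lit 98317) (nat_lit 9) (.e (nat_lit 336215) (nat_lit 13) .nil))) .nil))) (.nd (nat_lit 6) 
(.lf (nat_lit 1060) (.g (nat_lit 764) (.e (nat_lit 109) (nat_lit 3) (.e (nat_lit 98359) (nat_lit 26) (.e (nat_lit 426286) (nat_lit 10) .nil))) .nil)) 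
(.lf (nat_lit 1124) (.g (nat_lit 2964) (.e (nat_lit 112) (nat_lit 3) (.e (nat_lit 98356) (nat_lit 26) (.e (nat_lit 426428) (nat_lit 17) (.e (nat_lit 90174) (nat_lit 14) (.e (nat_lit 180250) (nat_lit 10) (.e (nat_lit 573478) (nat_lit 12) (.e (nat_lit 65280) (nat_lit 201) .nil))))))) (.g (nat_lit 5) .nil .nil))))) (.nd (nat_lit 5) (.nd (nat_lit 6) 
(.lf (nat_lit 1044) (.g (nat_lit 597) (.e (nat_lit 109) (nat_lit 3) (.e (nat_lit 98342) (nat_lit 20) (.e (nat_lit 221193) (nat_lit 11) .nil))) .nil)) 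
(.lf (nat_lit 1108) (.g (nat_lit 991) (.e (nat_lit 112) (nat_lit 3) (.e (nat_lit 98334) (nat_lit 18) (.e (nat_lit 164332) (nat_lit 230) (.e (nat_lit 163905) (nat_lit 12) .nil)))) .nil))) (.nd (nat_lit 6) 
(.lf (nat_lit 1076) (.g (nat_lit 973) (.e (nat_lit 110) (nat_lit 3) (.e (nat_lit 98342) (nat_lit 20) (.e (nat_lit 221212) (nat_lit 22) .nil))) .nil)) 
(.lf (nat_lit 1140) (.g (nat_lit 2160) (.e (nat_lit 112) (nat_lit 3) (.e (nat_lit 98358) (nat_lit 26) (.e (nat_lit 426323) (nat_lit 13) (.e (nat_lit 483333) (nat_lit 0) (.e (nat_lit 7098) (nat_lit 380) (.e (nat_lit 164354) (nat_lit 246) .nil)))))) (.g (nat_lit 0) .nil .nil)))))) (.nd (nat_lit 4) (.nd (nat_lit 5) (.nd (nat_lit 6) 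
(.lf (nat_lit 1036) (.g (nat_lit 1960) (.e (nat_lit 109) (nat_lit 3) (.e (nat_lit 98333) (nat_lit 18) (.e (nat_lit 164325) (nat_lit 230) (.e (nat_lit 163903) (nat_lit 12) .nil)))) .nil)) 
(.lf (nat_lit 1100) (.g (nat_lit 738) (.e (nat_lit 112) (nat_lit 3) (.e (nat_lit 98333) (nat_lit 18) (.e (nat_lit 164327) (nat_lit 230) .nil))) .nil))) (.nd (nat_lit 6) 
(.lf (nat_lit 1068) (.g (nat_lit 1848) (.e (nat_lit 110) (nat_lit 3) (.e (nat_lit 98317) (nat_lit 9) (.e (nat_lit 336076) (nat_lit 9) (.e (nat_lit 336454) (nat_lit 34) .nil)))) .nil)) 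
(.lf (nat_lit 1132) (.g (nat_lit 432) (.e (nat_lit 112) (nat_lit 3) (.e (nat_lit 98358) (nat_lit 26) (.e (nat_lit 426323) (nat_lit 13) .nil))) .nil)))) (.nd (nat_lit 5) (.nd (nat_lit 6) 
(.lf (nat_lit 1052) (.g (nat_lit 1934) (.e (nat_lit 109) (nat_lit 3) (.e (nat_lit 98356) (nat_lit 26) (.e (nat_lit 426428) (nat_lit 17) (.e (nat_lit 90174) (nat_lit 14) (.e (nat_lit 180250) (nat_lit 10) (.e (nat_lit 573477) (nat_lit 12) (.e (nat_lit 65280) (nat_lit 201) .nil))))))) (.g (nat_lit 4) .nil .nil))) 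
(.lf (nat_lit 1116) (.g (nat_lit 2323) (.e (nat_lit 112) (nat_lit 3) (.e (nat_lit 98342) (nat_lit 20) (.e (nat_lit 221190) (nat_lit 11) (.e (nat_lit 336012) (nat_lit 2) (.e (nat_lit 90172) (nat_lit 14) .nil))))) .nil))) (.nd (nat_lit 6) 
(.lf (nat_lit 1084) (.g (nat_lit 3331) (.e (nat_lit 110) (nat_lit 3) (.e (nat_lit 98373) (nat_lit 29) (.e (nat_lit 450563) (nat_lit 0) (.e (nat_lit 6830) (nat_lit 367) .nil)))) .nil)) 
(.lf (nat_lit 1148) (.g (nat_lit 1962) (.e (nat_lit 112) (nat_lit 3) (.e (nat_lit 98363) (nat_lit 26) (.e (nat_lit 426321) (nat_lit 13) (.e (nat_lit 483333) (nat_lit 0) (.e (nat_lit 7096) (nat_lit 380) (.e (nat_lit 164353) (nat_lit 246) .nil)))))) (.g (nat_lit 0) .nil .nil)))))))) (.nd (nat_lit 2) (.nd (nat_lit 3) (.nd (nat_lit 4) (.nd (nat_lit 5) (.nd (nat_lit 6) 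
(.lf (nat_lit 1026) (.g (nat_lit 982) (.e (nat_lit 108) (nat_lit 3) (.e (nat_lit 98380) (nat_lit 31) (.e (nat_lit 466974) (nat_lit 22) (.e (nat_lit 196681) (nat_lit 17) .nil)))) .nil)) 
(.lf (nat_lit 1090) (.g (nat_lit 1613) (.e (nat_lit 112) (nat_lit 3) (.e (nat_lit 98317) (nat_lit 9) (.e (nat_lit 336213) (nat_lit 13) (.e (nat_lit 393229) (nat_lit 9) .nil)))) .nil))) (.nd (nat_lit 6) 
(.lf (nat_lit 1058) (.g (nat_lit 1464) (.e (nat_lit 109) (nat_lit 3) (.e (nat_lit 98358) (nat_lit 26) (.e (nat_lit 426323) (nat_lit 13) (.e (nat_lit 483333) (nat_lit 0) .nil)))) .nil)) 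
(.lf (nat_lit 1122) (.g (nat_lit 3481) (.e (nat_lit 112) (nat_lit 3) (.e (nat_lit 98356) (nat_lit 26) (.e (nat_lit 426428) (nat_lit 17) (.e (nat_lit 90174) (nat_lit 14) (.e (nat_lit 180250) (nat_lit 10) (.e (nat_lit 573473) (nat_lit 12) (.e (nat_lit 65280) (nat_lit 201) .nil))))))) (.g (nat_lit 6) .nil .nil))))) (.nd (nat_lit 5) (.nd (nat_lit 6) 
(.lf (nat_lit 1042) (.g (nat_lit 2330) (.e (nat_lit 109) (nat_lit 3) (.e (nat_lit 98341) (nat_lit 20) (.e (nat_lit 221194) (nat_lit 11) (.e (nat_lit 336010) (nat_lit 2) (.e (nat_lit 90174) (nat_lit 14) (.e (nat_lit 188160) (nat_lit 40) .nil)))))) (.g (nat_lit 5) .nil .nil))) 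
(.lf (nat_lit 1106) (.g (nat_lit 1519) (.e (nat_lit 112) (nat_lit 3) (.e (nat_lit 98334) (nat_lit 18) (.e (nat_lit 164332) (nat_lit 230) (.e (nat_lit 163902) (nat_lit 12) (.e (nat_lit 426568) (nat_lit 34) .nil))))) .nil))) (.nd (nat_lit 6) 
(.lf (nat_lit 1074) (.g (nat_lit 2075) (.e (nat_lit 110) (nat_lit 3) (.e (nat_lit 98342) (nat_lit 20) (.e (nat_lit 221194) (nat_lit 11) (.e (nat_lit 336010) (nat_lit 2) (.e (nat_lit 90172) (nat_lit 14) (.e (nat_lit 188160) (nat_lit 40) .nil)))))) (.g (nat_lit 4) .nil .nil))) 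
(.lf (nat_lit 1138) (.g (nat_lit 1472) (.e (nat_lit 112) (nat_lit 3) (.e (nat_lit 98358) (nat_lit 26) (.e (nat_lit 426323) (nat_lit 13) (.e (nat_lit 483333) (nat_lit 0) (.e (nat_lit 7097) (nat_lit 380) .nil))))) .nil))))) (.nd (nat_lit 4) (.nd (nat_lit 5) (.nd (nat_lit 6) 
(.lf (nat_lit 1034) (.g (nat_lit 2667) (.e (nat_lit 108) (nat_lit 3) (.e (nat_lit 98384) (nat_lit 32) (.e (nat_lit 475177) (nat_lit 24) (.e (nat_lit 516150) (nat_lit 9) (.e (nat_lit 426428) (nat_lit 17) .nil))))) .nil)) 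
(.lf (nat_lit 1098) (.g (nat_lit 2019) (.e (nat_lit 112) (nat_lit 3) (.e (nat_lit 98333) (nat_lit 18) (.e (nat_lit 164325) (nat_lit 230) (.e (nat_lit 163944) (nat_lit 19) (.e (nat_lit 483333) (nat_lit 0) .nil))))) .nil))) (.nd (nat_lit 6) 
(.lf (nat_lit 1066) (.g (nat_lit 2646) (.e (nat_lit 109) (nat_lit 3) (.e (nat_lit 98384) (nat_lit 32) (.e (nat_lit 475177) (nat_lit 24) (.e (nat_lit 516150) (nat_lit 9) (.e (nat_lit 426428) (nat_lit 17) .nil))))) .nil)) 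
(.lf (nat_lit 1130) (.g (nat_lit 2557) (.e (nat_lit 112) (nat_lit 3) (.e (nat_lit 98358) (nat_lit 26) (.e (nat_lit 426131) (nat_lit 3) (.e (nat_lit 204838) (nat_lit 20) (.e (nat_lit 114715) (nat_lit 22) (.e (nat_lit 98048) (nat_lit 21) (.e (nat_lit 164356) (nat_lit 246) .nil))))))) (.g (nat_lit 5) .nil .nil))))) (.nd (nat_lit 5) (.nd (nat_lit 6) 
(.lf (nat_lit 1050) (.g (nat_lit 2129) (.e (nat_lit 109) (nat_lit 3) (.e (nat_lit 98342) (nat_lit 20) (.e (nat_lit 221212) (nat_lit 22) (.e (nat_lit 196669) (nat_lit 14) (.e (nat_lit 81664) (nat_lit 5) (.e (nat_lit 532490) (nat_lit 0) (.e (nat_lit 2346) (nat_lit 151) (.e (nat_lit 778362) (nat_lit 9) .nil)))))))) (.g (nat_lit 4) .nil .nil))) 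
(.lf (nat_lit 1114) (.g (nat_lit 1164) (.e (nat_lit 112) (nat_lit 3) (.e (nat_lit 98337) (nat_lit 19) (.e (nat_lit 213032) (nat_lit 11) (.e (nat_lit 24605) (nat_lit 2) .nil)))) .nil))) (.nd (nat_lit 6) 
(.lf (nat_lit 1082) (.g (nat_lit 1898) (.e (nat_lit 110) (nat_lit 3) (.e (nat_lit 98365) (nat_lit 26) (.e (nat_lit 426325) (nat_lit 13) (.e (nat_lit 491264) (nat_lit 7) .nil)))) .nil)) 
(.lf (nat_lit 1146) (.g (nat_lit 1892) (.e (nat_lit 112) (nat_lit 3) (.e (nat_lit 98358) (nat_lit 26) (.e (nat_lit 426428) (nat_lit 17) (.e (nat_lit 90174) (nat_lit 14) (.e (nat_lit 180250) (nat_lit 10) .nil))))) .nil)))))) (.nd (nat_lit 3) (.nd (nat_lit 4) (.nd (nat_lit 5) (.nd (nat_lit 6) 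
(.lf (nat_lit 1030) (.g (nat_lit 2381) (.e (nat_lit 108) (nat_lit 3) (.e (nat_lit 98381) (nat_lit 31) (.e (nat_lit 466977) (nat_lit 22) (.e (nat_lit 196681) (nat_lit 17) (.e (nat_lit 131089) (nat_lit 1) .nil))))) .nil)) 
(.lf (nat_lit 1094) (.g (nat_lit 2016) (.e (nat_lit 112) (nat_lit 3) (.e (nat_lit 98333) (nat_lit 18) (.e (nat_lit 164325) (nat_lit 230) (.e (nat_lit 163903) (nat_lit 12) (.e (nat_lit 426568) (nat_lit 34) .nil))))) .nil))) (.nd (nat_lit 6) 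
(.lf (nat_lit 1062) (.g (nat_lit 1933) (.e (nat_lit 109) (nat_lit 3) (.e (nat_lit 98372) (nat_lit 29) (.e (nat_lit 450579) (nat_lit 5) (.e (nat_lit 532543) (nat_lit 10) .nil)))) .nil)) 
(.lf (nat_lit 1126) (.g (nat_lit 2323) (.e (nat_lit 112) (nat_lit 3) (.e (nat_lit 98356) (nat_lit 26) (.e (nat_lit 426428) (nat_lit 17) (.e (nat_lit 90174) (nat_lit 14) (.e (nat_lit 180251) (nat_lit 10) (.e (nat_lit 573478) (nat_lit 12) (.e (nat_lit 65280) (nat_lit 201) .nil))))))) (.g (nat_lit 4) .nil .nil))))) (.nd (nat_lit 5) (.nd (nat_lit 6) 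
(.lf (nat_lit 1046) (.g (nat_lit 2589) (.e (nat_lit 109) (nat_lit 3) (.e (nat_lit 98342) (nat_lit 20) (.e (nat_lit 221193) (nat_lit 11) (.e (nat_lit 336012) (nat_lit 2) (.e (nat_lit 90172) (nat_lit 14) (.e (nat_lit 188160) (nat_lit 40) .nil)))))) (.g (nat_lit 5) .nil .nil))) 
(.lf (nat_lit 1110) (.g (nat_lit 2576) (.e (nat_lit 112) (nat_lit 3) (.e (nat_lit 98334) (nat_lit 18) (.e (nat_lit 164332) (nat_lit 230) (.e (nat_lit 163941) (nat_lit 19) (.e (nat_lit 483333) (nat_lit 0) (.e (nat_lit 6988) (nat_lit 377) (.e (nat_lit 1076) (nat_lit 81) (.e (nat_lit 5629) (nat_lit 312) .nil)))))))) (.g (nat_lit 5) .nil .nil)))) (.nd (nat_lit 6) 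
(.lf (nat_lit 1078) (.g (nat_lit 767) (.e (nat_lit 110) (nat_lit 3) (.e (nat_lit 98359) (nat_lit 26) (.e (nat_lit 426286) (nat_lit 10) .nil))) .nil)) 
(.lf (nat_lit 1142) (.g (nat_lit 2370) (.e (nat_lit 112) (nat_lit 3) (.e (nat_lit 98358) (nat_lit 26) (.e (nat_lit 426323) (nat_lit 13) (.e (nat_lit 483333) (nat_lit 0) (.e (nat_lit 7105) (nat_lit 380) (.e (nat_lit 164358) (nat_lit 246) .nil)))))) (.g (nat_lit 0) .nil .nil)))))) (.nd (nat_lit 4) (.nd (nat_lit 5) (.nd (nat_lit 6) 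
(.lf (nat_lit 1038) (.g (nat_lit 3220) (.e (nat_lit 109) (nat_lit 3) (.e (nat_lit 98333) (nat_lit 18) (.e (nat_lit 164325) (nat_lit 230) (.e (nat_lit 163942) (nat_lit 19) .nil)))) .nil)) 
(.lf (nat_lit 1102) (.g (nat_lit 3120) (.e (nat_lit 112) (nat_lit 3) (.e (nat_lit 98334) (nat_lit 18) (.e (nat_lit 164330) (nat_lit 230) (.e (nat_lit 163902) (nat_lit 12) (.e (nat_lit 426568) (nat_lit 34) (.e (nat_lit 393234) (nat_lit 17) (.e (nat_lit 7309) (nat_lit 388) .nil))))))) (.g (nat_lit 4) .nil .nil)))) (.nd (nat_lit 6) 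
(.lf (nat_lit 1070) (.g (nat_lit 2940) (.e (nat_lit 110) (nat_lit 3) (.e (nat_lit 98333) (nat_lit 18) (.e (nat_lit 164325) (nat_lit 230) (.e (nat_lit 163903) (nat_lit 12) (.e (nat_lit 426568) (nat_lit 34) .nil))))) .nil)) 
(.lf (nat_lit 1134) (.g (nat_lit 1437) (.e (nat_lit 112) (nat_lit 3) (.e (nat_lit 98358) (nat_lit 26) (.e (nat_lit 426323) (nat_lit 13) (.e (nat_lit 483333) (nat_lit 0) (.e (nat_lit 6988) (nat_lit 377) (.e (nat_lit 2404) (nat_lit 157) (.e (nat_lit 5629) (nat_lit 312) .nil))))))) (.g (nat_lit 4) .nil .nil))))) (.nd (nat_lit 5) (.nd (nat_lit 6) 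
(.lf (nat_lit 1054) (.g (nat_lit 2071) (.e (nat_lit 109) (nat_lit 3) (.e (nat_lit 98356) (nat_lit 26) (.e (nat_lit 426428) (nat_lit 17) (.e (nat_lit 90174) (nat_lit 14) (.e (nat_lit 180251) (nat_lit 10) (.e (nat_lit 573478) (nat_lit 12) (.e (nat_lit 65280) (nat_lit 201) .nil))))))) (.g (nat_lit 4) .nil .nil))) 
(.lf (nat_lit 1118) (.g (nat_lit 1386) (.e (nat_lit 112) (nat_lit 3) (.e (nat_lit 98342) (nat_lit 20) (.e (nat_lit 221193) (nat_lit 11) (.e (nat_lit 336010) (nat_lit 2) (.e (nat_lit 90174) (nat_lit 14) (.e (nat_lit 188160) (nat_lit 40) .nil)))))) (.g (nat_lit 4) .nil .nil)))) (.nd (nat_lit 6) 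
(.lf (nat_lit 1086) (.g (nat_lit 881) (.e (nat_lit 111) (nat_lit 3) (.e (nat_lit 98342) (nat_lit 20) (.e (nat_lit 221212) (nat_lit 22) .nil))) .nil)) 
(.lf (nat_lit 1150) (.g (nat_lit 1785) (.e (nat_lit 112) (nat_lit 3) (.e (nat_lit 98363) (nat_lit 26) (.e (nat_lit 426321) (nat_lit 13) (.e (nat_lit 483333) (nat_lit 0) (.e (nat_lit 7098) (nat_lit 380) (.e (nat_lit 164353) (nat_lit 246) .nil)))))) (.g (nat_lit 0) .nil .nil))))))))) (.nd (nat_lit 1) (.nd (nat_lit 2) (.nd (nat_lit 3) (.nd (nat_lit 4) (.nd (nat_lit 5) (.nd (nat_lit 6) 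
(.lf (nat_lit 1025) (.g (nat_lit 1868) (.e (nat_lit 108) (nat_lit 3) (.e (nat_lit 98372) (nat_lit 29) (.e (nat_lit 450579) (nat_lit 5) (.e (nat_lit 532534) (nat_lit 9) .nil)))) .nil)) 
(.lf (nat_lit 1089) (.g (nat_lit 1687) (.e (nat_lit 111) (nat_lit 3) (.e (nat_lit 98381) (nat_lit 31) (.e (nat_lit 466954) (nat_lit 11) (.e (nat_lit 336288) (nat_lit 15) (.e (nat_lit 7098) (nat_lit 380) .nil))))) .nil))) (.nd (nat_lit 6) 
(.lf (nat_lit 1057) (.g (nat_lit 1577) (.e (nat_lit 109) (nat_lit 3) (.e (nat_lit 98356) (nat_lit 26) (.e (nat_lit 426438) (nat_lit 18) (.e (nat_lit 98368) (nat_lit 27) .nil)))) .nil)) 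
(.lf (nat_lit 1121) (.g (nat_lit 528) (.e (nat_lit 112) (nat_lit 3) (.e (nat_lit 98356) (nat_lit 26) (.e (nat_lit 426428) (nat_lit 17) .nil))) .nil)))) (.nd (nat_lit 5) (.nd (nat_lit 6) 
(.lf (nat_lit 1041) (.g (nat_lit 2646) (.e (nat_lit 109) (nat_lit 3) (.e (nat_lit 98341) (nat_lit 20) (.e (nat_lit 221194) (nat_lit 11) (.e (nat_lit 336010) (nat_lit 2) (.e (nat_lit 90172) (nat_lit 14) (.e (nat_lit 188160) (nat_lit 40) .nil)))))) (.g (nat_lit 5) .nil .nil))) 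
(.lf (nat_lit 1105) (.g (nat_lit 973) (.e (nat_lit 112) (nat_lit 3) (.e (nat_lit 98334) (nat_lit 18) (.e (nat_lit 164332) (nat_lit 230) (.e (nat_lit 163902) (nat_lit 12) .nil)))) .nil))) (.nd (nat_lit 6) 
(.lf (nat_lit 1073) (.g (nat_lit 954) (.e (nat_lit 110) (nat_lit 3) (.e (nat_lit 98342) (nat_lit 20) (.e (nat_lit 221194) (nat_lit 11) .nil))) .nil)) 
(.lf (nat_lit 1137) (.g (nat_lit 2620) (.e (nat_lit 112) (nat_lit 3) (.e (nat_lit 98358) (nat_lit 26) (.e (nat_lit 426323) (nat_lit 13) (.e (nat_lit 483333) (nat_lit 0) (.e (nat_lit 7096) (nat_lit 380) (.e (nat_lit 164358) (nat_lit 246) .nil)))))) (.g (nat_lit 6) .nil .nil)))))) (.nd (nat_lit 4) (.nd (nat_lit 5) (.nd (nat_lit 6) 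
(.lf (nat_lit 1033) (.g (nat_lit 2831) (.e (nat_lit 108) (nat_lit 3) (.e (nat_lit 98384) (nat_lit 32) (.e (nat_lit 475177) (nat_lit 24) (.e (nat_lit 516146) (nat_lit 9) (.e (nat_lit 426438) (nat_lit 18) .nil))))) .nil)) 
(.lf (nat_lit 1097) (.g (nat_lit 1340) (.e (nat_lit 112) (nat_lit 3) (.e (nat_lit 98333) (nat_lit 18) (.e (nat_lit 164325) (nat_lit 230) (.e (nat_lit 163943) (nat_lit 19) .nil)))) .nil))) (.nd (nat_lit 6) 
(.lf (nat_lit 1065) (.g (nat_lit 2998) (.e (nat_lit 109) (nat_lit 3) (.e (nat_lit 98384) (nat_lit 32) (.e (nat_lit 475177) (nat_lit 24) (.e (nat_lit 516146) (nat_lit 9) (.e (nat_lit 426438) (nat_lit 18) (.e (nat_lit 98323) (nat_lit 17) (.e (nat_lit 7936) (nat_lit 388) .nil))))))) (.g (nat_lit 4) .nil .nil))) 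
(.lf (nat_lit 1129) (.g (nat_lit 1897) (.e (nat_lit 112) (nat_lit 3) (.e (nat_lit 98358) (nat_lit 26) (.e (nat_lit 426131) (nat_lit 3) (.e (nat_lit 204838) (nat_lit 20) (.e (nat_lit 114702) (nat_lit 20) (.e (nat_lit 1776) (nat_lit 118) (.e (nat_lit 507932) (nat_lit 10) (.e (nat_lit 5618) (nat_lit 312) .nil)))))))) (.g (nat_lit 4) .nil .nil))))) (.nd (nat_lit 5) (.nd (nat_lit 6) 
(.lf (nat_lit 1049) (.g (nat_lit 2551) (.e (nat_lit 109) (nat_lit 3) (.e (nat_lit 98342) (nat_lit 20) (.e (nat_lit 221212) (nat_lit 22) (.e (nat_lit 196668) (nat_lit 14) (.e (nat_lit 81664) (nat_lit 5) (.e (nat_lit 532490) (nat_lit 0) (.e (nat_lit 2346) (nat_lit 151) (.e (nat_lit 778362) (nat_lit 9) .nil)))))))) (.g (nat_lit 4) .nil .nil))) 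
(.lf (nat_lit 1113) (.g (nat_lit 627) (.e (nat_lit 112) (nat_lit 3) (.e (nat_lit 98335) (nat_lit 18) (.e (nat_lit 164327) (nat_lit 230) .nil))) .nil))) (.nd (nat_lit 6) 
(.lf (nat_lit 1081) (.g (nat_lit 1513) (.e (nat_lit 110) (nat_lit 3) (.e (nat_lit 98365) (nat_lit 26) (.e (nat_lit 426325) (nat_lit 13) (.e (nat_lit 483333) (nat_lit 0) .nil)))) .nil)) 
(.lf (nat_lit 1145) (.g (nat_lit 1040) (.e (nat_lit 112) (nat_lit 3) (.e (nat_lit 98358) (nat_lit 26) (.e (nat_lit 426323) (nat_lit 13) (.e (nat_lit 491264) (nat_lit 7) .nil)))) .nil)))))) (.nd (nat_lit 3) (.nd (nat_lit 4) (.nd (nat_lit 5) (.nd (nat_lit 6) 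
(.lf (nat_lit 1029) (.g (nat_lit 2133) (.e (nat_lit 108) (nat_lit 3) (.e (nat_lit 98381) (nat_lit 31) (.e (nat_lit 466977) (nat_lit 22) (.e (nat_lit 196668) (nat_lit 14) (.e (nat_lit 73737) (nat_lit 0) .nil))))) .nil)) 
(.lf (nat_lit 1093) (.g (nat_lit 1267) (.e (nat_lit 112) (nat_lit 3) (.e (nat_lit 98333) (nat_lit 18) (.e (nat_lit 164325) (nat_lit 230) (.e (nat_lit 163903) (nat_lit 12) .nil)))) .nil))) (.nd (nat_lit 6) 
(.lf (nat_lit 1061) (.g (nat_lit 661) (.e (nat_lit 109) (nat_lit 3) (.e (nat_lit 98372) (nat_lit 29) (.e (nat_lit 450579) (nat_lit 5) .nil))) .nil)) 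
(.lf (nat_lit 1125) (.g (nat_lit 1917) (.e (nat_lit 112) (nat_lit 3) (.e (nat_lit 98356) (nat_lit 26) (.e (nat_lit 426428) (nat_lit 17) (.e (nat_lit 90174) (nat_lit 14) (.e (nat_lit 180251) (nat_lit 10) .nil))))) .nil)))) (.nd (nat_lit 5) (.nd (nat_lit 6) 
(.lf (nat_lit 1045) (.g (nat_lit 2225) (.e (nat_lit 109) (nat_lit 3) (.e (nat_lit 98342) (nat_lit 20) (.e (nat_lit 221193) (nat_lit 11) (.e (nat_lit 336010) (nat_lit 2) (.e (nat_lit 90172) (nat_lit 14) (.e (nat_lit 188160) (nat_lit 40) .nil)))))) (.g (nat_lit 5) .nil .nil))) 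
(.lf (nat_lit 1109) (.g (nat_lit 2594) (.e (nat_lit 112) (nat_lit 3) (.e (nat_lit 98334) (nat_lit 18) (.e (nat_lit 164332) (nat_lit 230) (.e (nat_lit 163941) (nat_lit 19) (.e (nat_lit 483333) (nat_lit 0) (.e (nat_lit 6988) (nat_lit 377) (.e (nat_lit 977) (nat_lit 81) (.e (nat_lit 5629) (nat_lit 312) .nil)))))))) (.g (nat_lit 5) .nil .nil)))) (.nd (nat_lit 6) 
(.lf (nat_lit 1077) (.g (nat_lit 925) (.e (nat_lit 110) (nat_lit 3) (.e (nat_lit 98356) (nat_lit 26) (.e (nat_lit 426438) (nat_lit 18) .nil))) .nil)) 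
(.lf (nat_lit 1141) (.g (nat_lit 2609) (.e (nat_lit 112) (nat_lit 3) (.e (nat_lit 98358) (nat_lit 26) (.e (nat_lit 426323) (nat_lit 13) (.e (nat_lit 483333) (nat_lit 0) (.e (nat_lit 7098) (nat_lit 380) (.e (nat_lit 164356) (nat_lit 246) .nil)))))) (.g (nat_lit 6) .nil .nil)))))) (.nd (nat_lit 4) (.nd (nat_lit 5) (.nd (nat_lit 6) 
(.lf (nat_lit 1037) (.g (nat_lit 2709) (.e (nat_lit 109) (nat_lit 3) (.e (nat_lit 98333) (nat_lit 18) (.e (nat_lit 164325) (nat_lit 230) (.e (nat_lit 163903) (nat_lit 12) (.e (nat_lit 426568) (nat_lit 34) .nil))))) .nil)) 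
(.lf (nat_lit 1101) (.g (nat_lit 981) (.e (nat_lit 112) (nat_lit 3) (.e (nat_lit 98333) (nat_lit 18) (.e (nat_lit 164332) (nat_lit 230) .nil))) .nil))) (.nd (nat_lit 6) 
(.lf (nat_lit 1069) (.g (nat_lit 2044) (.e (nat_lit 110) (nat_lit 3) (.e (nat_lit 98317) (nat_lit 9) (.e (nat_lit 336213) (nat_lit 13) (.e (nat_lit 393229) (nat_lit 9) .nil)))) .nil)) 
(.lf (nat_lit 1133) (.g (nat_lit 1047) (.e (nat_lit 112) (nat_lit 3) (.e (nat_lit 98358) (nat_lit 26) (.e (nat_lit 426323) (nat_lit 13) (.e (nat_lit 483332) (nat_lit 0) .nil)))) .nil)))) (.nd (nat_lit 5) (.nd (nat_lit 6) 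
(.lf (nat_lit 1053) (.g (nat_lit 2712) (.e (nat_lit 109) (nat_lit 3) (.e (nat_lit 98356) (nat_lit 26) (.e (nat_lit 426428) (nat_lit 17) (.e (nat_lit 90174) (nat_lit 14) (.e (nat_lit 180250) (nat_lit 10) (.e (nat_lit 573478) (nat_lit 12) (.e (nat_lit 65280) (nat_lit 201) .nil))))))) (.g (nat_lit 5) .nil .nil))) 
(.lf (nat_lit 1117) (.g (nat_lit 717) (.e (nat_lit 112) (nat_lit 3) (.e (nat_lit 98342) (nat_lit 20) (.e (nat_lit 221193) (nat_lit 11) .nil))) .nil))) (.nd (nat_lit 6) 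
(.lf (nat_lit 1085) (.g (nat_lit 954) (.e (nat_lit 111) (nat_lit 3) (.e (nat_lit 98342) (nat_lit 20) (.e (nat_lit 221194) (nat_lit 11) .nil))) .nil)) 
(.lf (nat_lit 1149) (.g (nat_lit 1906) (.e (nat_lit 112) (nat_lit 3) (.e (nat_lit 98363) (nat_lit 26) (.e (nat_lit 426321) (nat_lit 13) (.e (nat_lit 483333) (nat_lit 0) (.e (nat_lit 7096) (nat_lit 380) (.e (nat_lit 164354) (nat_lit 246) .nil)))))) (.g (nat_lit 0) .nil .nil)))))))) (.nd (nat_lit 2) (.nd (nat_lit 3) (.nd (nat_lit 4) (.nd (nat_lit 5) (.nd (nat_lit 6) 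
(.lf (nat_lit 1027) (.g (nat_lit 1184) (.e (nat_lit 108) (nat_lit 3) (.e (nat_lit 98381) (nat_lit 31) (.e (nat_lit 466974) (nat_lit 22) (.e (nat_lit 196681) (nat_lit 17) .nil)))) .nil)) 
(.lf (nat_lit 1091) (.g (nat_lit 1492) (.e (nat_lit 112) (nat_lit 3) (.e (nat_lit 98317) (nat_lit 9) (.e (nat_lit 336213) (nat_lit 13) (.e (nat_lit 401152) (nat_lit 15) .nil)))) .nil))) (.nd (nat_lit 6) 
(.lf (nat_lit 1059) (.g (nat_lit 3097) (.e (nat_lit 109) (nat_lit 3) (.e (nat_lit 98358) (nat_lit 26) (.e (nat_lit 426428) (nat_lit 17) (.e (nat_lit 90174) (nat_lit 14) (.e (nat_lit 180250) (nat_lit 10) (.e (nat_lit 573473) (nat_lit 12) (.e (nat_lit 65280) (nat_lit 201) .nil))))))) (.g (nat_lit 6) .nil .nil))) 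
(.lf (nat_lit 1123) (.g (nat_lit 2173) (.e (nat_lit 112) (nat_lit 3) (.e (nat_lit 98356) (nat_lit 26) (.e (nat_lit 426428) (nat_lit 17) (.e (nat_lit 90174) (nat_lit 14) (.e (nat_lit 180250) (nat_lit 10) (.e (nat_lit 573477) (nat_lit 12) (.e (nat_lit 65280) (nat_lit 201) .nil))))))) (.g (nat_lit 4) .nil .nil))))) (.nd (nat_lit 5) (.nd (nat_lit 6) 
(.lf (nat_lit 1043) (.g (nat_lit 3696) (.e (nat_lit 109) (nat_lit 3) (.e (nat_lit 98341) (nat_lit 20) (.e (nat_lit 221194) (nat_lit 11) (.e (nat_lit 336012) (nat_lit 2) (.e (nat_lit 90172) (nat_lit 14) (.e (nat_lit 188160) (nat_lit 40) .nil)))))) (.g (nat_lit 5) .nil .nil))) 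
(.lf (nat_lit 1107) (.g (nat_lit 3699) (.e (nat_lit 112) (nat_lit 3) (.e (nat_lit 98334) (nat_lit 18) (.e (nat_lit 164332) (nat_lit 230) (.e (nat_lit 163902) (nat_lit 12) (.e (nat_lit 426568) (nat_lit 34) (.e (nat_lit 393234) (nat_lit 17) (.e (nat_lit 7309) (nat_lit 388) .nil))))))) (.g (nat_lit 6) .nil .nil)))) (.nd (nat_lit 6) 
(.lf (nat_lit 1075) (.g (nat_lit 3188) (.e (nat_lit 110) (nat_lit 3) (.e (nat_lit 98342) (nat_lit 20) (.e (nat_lit 221194) (nat_lit 11) (.e (nat_lit 336012) (nat_lit 2) (.e (nat_lit 90172) (nat_lit 14) .nil))))) .nil)) 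
(.lf (nat_lit 1139) (.g (nat_lit 2220) (.e (nat_lit 112) (nat_lit 3) (.e (nat_lit 98358) (nat_lit 26) (.e (nat_lit 426323) (nat_lit 13) (.e (nat_lit 483333) (nat_lit 0) (.e (nat_lit 7098) (nat_lit 380) (.e (nat_lit 164353) (nat_lit 246) .nil)))))) (.g (nat_lit 0) .nil .nil)))))) (.nd (nat_lit 4) (.nd (nat_lit 5) (.nd (nat_lit 6) 
(.lf (nat_lit 1035) (.g (nat_lit 2808) (.e (nat_lit 108) (nat_lit 3) (.e (nat_lit 98384) (nat_lit 32) (.e (nat_lit 475177) (nat_lit 24) (.e (nat_lit 516150) (nat_lit 9) (.e (nat_lit 426438) (nat_lit 18) .nil))))) .nil)) 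
(.lf (nat_lit 1099) (.g (nat_lit 2021) (.e (nat_lit 112) (nat_lit 3) (.e (nat_lit 98333) (nat_lit 18) (.e (nat_lit 164325) (nat_lit 230) (.e (nat_lit 163944) (nat_lit 19) (.e (nat_lit 483333) (nat_lit 0) (.e (nat_lit 7086) (nat_lit 379) (.e (nat_lit 123166) (nat_lit 256) .nil))))))) (.g (nat_lit 4) .nil .nil)))) (.nd (nat_lit 6) 
(.lf (nat_lit 1067) (.g (nat_lit 2861) (.e (nat_lit 109) (nat_lit 3) (.e (nat_lit 98384) (nat_lit 32) (.e (nat_lit 475177) (nat_lit 24) (.e (nat_lit 516150) (nat_lit 9) (.e (nat_lit 426438) (nat_lit 18) (.e (nat_lit 98323) (nat_lit 17) (.e (nat_lit 7936) (nat_lit 388) .nil))))))) (.g (nat_lit 4) .nil .nil))) 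
(.lf (nat_lit 1131) (.g (nat_lit 2249) (.e (nat_lit 112) (nat_lit 3) (.e (nat_lit 98358) (nat_lit 26) (.e (nat_lit 426131) (nat_lit 3) (.e (nat_lit 204838) (nat_lit 20) (.e (nat_lit 114716) (nat_lit 22) .nil))))) .nil)))) (.nd (nat_lit 5) (.nd (nat_lit 6) 
(.lf (nat_lit 1051) (.g (nat_lit 3286) (.e (nat_lit 109) (nat_lit 3) (.e (nat_lit 98356) (nat_lit 26) (.e (nat_lit 426428) (nat_lit 17) (.e (nat_lit 90174) (nat_lit 14) (.e (nat_lit 180250) (nat_lit 10) (.e (nat_lit 573473) (nat_lit 12) (.e (nat_lit 65280) (nat_lit 201) .nil))))))) (.g (nat_lit 6) .nil .nil))) 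
(.lf (nat_lit 1115) (.g (nat_lit 1853) (.e (nat_lit 112) (nat_lit 3) (.e (nat_lit 98339) (nat_lit 19) (.e (nat_lit 213032) (nat_lit 11) (.e (nat_lit 24604) (nat_lit 2) (.e (nat_lit 90172) (nat_lit 14) .nil))))) .nil))) (.nd (nat_lit 6) 
(.lf (nat_lit 1083) (.g (nat_lit 751) (.e (nat_lit 110) (nat_lit 3) (.e (nat_lit 98365) (nat_lit 26) (.e (nat_lit 426326) (nat_lit 13) .nil))) .nil)) 
(.lf (nat_lit 1147) (.g (nat_lit 201) (.e (nat_lit 112) (nat_lit 3) (.e (nat_lit 98363) (nat_lit 26) (.e (nat_lit 426321) (nat_lit 13) .nil))) .nil)))))) (.nd (nat_lit 3) (.nd (nat_lit 4) (.nd (nat_lit 5) (.nd (nat_lit 6) 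
(.lf (nat_lit 1031) (.g (nat_lit 1079) (.e (nat_lit 108) (nat_lit 3) (.e (nat_lit 98384) (nat_lit 32) (.e (nat_lit 475177) (nat_lit 24) .nil))) .nil)) 
(.lf (nat_lit 1095) (.g (nat_lit 1086) (.e (nat_lit 112) (nat_lit 3) (.e (nat_lit 98333) (nat_lit 18) (.e (nat_lit 164325) (nat_lit 230) (.e (nat_lit 163907) (nat_lit 12) .nil)))) .nil))) (.nd (nat_lit 6) 
(.lf (nat_lit 1063) (.g (nat_lit 1058) (.e (nat_lit 109) (nat_lit 3) (.e (nat_lit 98384) (nat_lit 32) (.e (nat_lit 475177) (nat_lit 24) .nil))) .nil)) 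
(.lf (nat_lit 1127) (.g (nat_lit 1227) (.e (nat_lit 112) (nat_lit 3) (.e (nat_lit 98356) (nat_lit 26) (.e (nat_lit 426438) (nat_lit 18) (.e (nat_lit 98367) (nat_lit 27) .nil)))) .nil)))) (.nd (nat_lit 5) (.nd (nat_lit 6) 
(.lf (nat_lit 1047) (.g (nat_lit 3223) (.e (nat_lit 109) (nat_lit 3) (.e (nat_lit 98342) (nat_lit 20) (.e (nat_lit 221194) (nat_lit 11) (.e (nat_lit 336011) (nat_lit 2) (.e (nat_lit 90174) (nat_lit 14) .nil))))) .nil)) 
(.lf (nat_lit 1111) (.g (nat_lit 2839) (.e (nat_lit 112) (nat_lit 3) (.e (nat_lit 98334) (nat_lit 18) (.e (nat_lit 164332) (nat_lit 230) (.e (nat_lit 163943) (nat_lit 19) (.e (nat_lit 483333) (nat_lit 0) (.e (nat_lit 6988) (nat_lit 377) (.e (nat_lit 977) (nat_lit 81) (.e (nat_lit 5629) (nat_lit 312) .nil)))))))) (.g (nat_lit 6) .nil .nil)))) (.nd (nat_lit 6) 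
(.lf (nat_lit 1079) (.g (nat_lit 1258) (.e (nat_lit 110) (nat_lit 3) (.e (nat_lit 98365) (nat_lit 26) (.e (nat_lit 426187) (nat_lit 9) (.e (nat_lit 426562) (nat_lit 33) .nil)))) .nil)) 
(.lf (nat_lit 1143) (.g (nat_lit 2442) (.e (nat_lit 112) (nat_lit 3) (.e (nat_lit 98358) (nat_lit 26) (.e (nat_lit 426323) (nat_lit 13) (.e (nat_lit 483333) (nat_lit 0) (.e (nat_lit 7106) (nat_lit 380) (.e (nat_lit 164356) (nat_lit 246) .nil)))))) (.g (nat_lit 0) .nil .nil)))))) (.nd (nat_lit 4) (.nd (nat_lit 5) (.nd (nat_lit 6) 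
(.lf (nat_lit 1039) (.g (nat_lit 829) (.e (nat_lit 109) (nat_lit 3) (.e (nat_lit 98334) (nat_lit 18) (.e (nat_lit 164332) (nat_lit 230) .nil))) .nil)) 
(.lf (nat_lit 1103) (.g (nat_lit 1613) (.e (nat_lit 112) (nat_lit 3) (.e (nat_lit 98334) (nat_lit 18) (.e (nat_lit 164330) (nat_lit 230) (.e (nat_lit 163905) (nat_lit 12) .nil)))) .nil))) (.nd (nat_lit 6) 
(.lf (nat_lit 1071) (.g (nat_lit 1181) (.e (nat_lit 110) (nat_lit 3) (.e (nat_lit 98341) (nat_lit 20) (.e (nat_lit 221193) (nat_lit 11) (.e (nat_lit 336010) (nat_lit 2) (.e (nat_lit 90172) (nat_lit 14) .nil))))) .nil)) 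
(.lf (nat_lit 1135) (.g (nat_lit 1437) (.e (nat_lit 112) (nat_lit 3) (.e (nat_lit 98358) (nat_lit 26) (.e (nat_lit 426323) (nat_lit 13) (.e (nat_lit 483333) (nat_lit 0) (.e (nat_lit 6988) (nat_lit 377) (.e (nat_lit 2506) (nat_lit 157) (.e (nat_lit 5629) (nat_lit 312) .nil))))))) (.g (nat_lit 4) .nil .nil))))) (.nd (nat_lit 5) (.nd (nat_lit 6) 
(.lf (nat_lit 1055) (.g (nat_lit 1461) (.e (nat_lit 109) (nat_lit 3) (.e (nat_lit 98356) (nat_lit 26) (.e (nat_lit 426438) (nat_lit 18) (.e (nat_lit 98366) (nat_lit 27) .nil)))) .nil)) 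
(.lf (nat_lit 1119) (.g (nat_lit 1776) (.e (nat_lit 112) (nat_lit 3) (.e (nat_lit 98342) (nat_lit 20) (.e (nat_lit 221194) (nat_lit 11) (.e (nat_lit 336011) (nat_lit 2) .nil)))) .nil))) (.nd (nat_lit 6) 
(.lf (nat_lit 1087) (.g (nat_lit 1708) (.e (nat_lit 111) (nat_lit 3) (.e (nat_lit 98342) (nat_lit 20) (.e (nat_lit 221212) (nat_lit 22) (.e (nat_lit 196668) (nat_lit 14) .nil)))) .nil)) 
(.lf (nat_lit 1151) (.g (nat_lit 1724) (.e (nat_lit 112) (nat_lit 3) (.e (nat_lit 98363) (nat_lit 26) (.e (nat_lit 426321) (nat_lit 13) (.e (nat_lit 483333) (nat_lit 0) (.e (nat_lit 7098) (nat_lit 380) (.e (nat_lit 164354) (nat_lit 246) .nil)))))) (.g (nat_lit 0) .nil .nil))))))))))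

noncomputable def tv016 : DT := (.nd (nat_lit 0) (.nd (nat_lit 1) (.nd (nat_lit 2) (.nd (nat_lit 3) (.nd (nat_lit 4) (.nd (nat_lit 5) (.nd (nat_lit 6) 
(.lf (nat_lit 1152) (.g (nat_lit 395) (.e (nat_lit 112) (nat_lit 3) (.e (nat_lit 98365) (nat_lit 26) (.e (nat_lit 426187) (nat_lit 9) .nil))) .nil)) 
(.lf (nat_lit 1216) (.g (nat_lit 2739) (.e (nat_lit 112) (nat_lit 3) (.e (nat_lit 98373) (nat_lit 29) (.e (nat_lit 450562) (nat_lit 0) (.e (nat_lit 6776) (nat_lit 365) .nil)))) .nil))) (.nd (nat_lit 6) 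
(.lf (nat_lit 1184) (.g (nat_lit 2002) (.e (nat_lit 112) (nat_lit 3) (.e (nat_lit 98367) (nat_lit 27) (.e (nat_lit 434246) (nat_lit 28) (.e (nat_lit 573489) (nat_lit 14) (.e (nat_lit 73755) (nat_lit 8) .nil))))) .nil)) 
(.lf (nat_lit 1248) (.g (nat_lit 1819) (.e (nat_lit 112) (nat_lit 3) (.e (nat_lit 98376) (nat_lit 30) (.e (nat_lit 458789) (nat_lit 23) (.e (nat_lit 532515) (nat_lit 3) (.e (nat_lit 114716) (nat_lit 22) (.e (nat_lit 98048) (nat_lit 21) (.e (nat_lit 164356) (nat_lit 246) .nil))))))) (.g (nat_lit 5) .nil .nil))))) (.nd (nat_lit 5) (.nd (nat_lit 6) 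
(.lf (nat_lit 1168) (.g (nat_lit 940) (.e (nat_lit 112) (nat_lit 3) (.e (nat_lit 98365) (nat_lit 26) (.e (nat_lit 426326) (nat_lit 13) (.e (nat_lit 491264) (nat_lit 7) .nil)))) .nil)) 
(.lf (nat_lit 1232) (.g (nat_lit 3037) (.e (nat_lit 112) (nat_lit 3) (.e (nat_lit 98373) (nat_lit 29) (.e (nat_lit 450563) (nat_lit 0) (.e (nat_lit 6745) (nat_lit 365) (.e (nat_lit 1208) (nat_lit 89) (.e (nat_lit 81664) (nat_lit 32) .nil)))))) (.g (nat_lit 4) .nil .nil)))) (.nd (nat_lit 6) 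
(.lf (nat_lit 1200) (.g (nat_lit 786) (.e (nat_lit 112) (nat_lit 3) (.e (nat_lit 98370) (nat_lit 28) (.e (nat_lit 442391) (nat_lit 19) (.e (nat_lit 401472) (nat_lit 28) (.e (nat_lit 352000) (nat_lit 0) .nil))))) (.g (nat_lit 4) .nil .nil))) 
(.lf (nat_lit 1264) (.g (nat_lit 1812) (.e (nat_lit 112) (nat_lit 3) (.e (nat_lit 98381) (nat_lit 31) (.e (nat_lit 466954) (nat_lit 11) (.e (nat_lit 336288) (nat_lit 15) (.e (nat_lit 6988) (nat_lit 377) (.e (nat_lit 7936) (nat_lit 157) (.e (nat_lit 5629) (nat_lit 312) .nil))))))) (.g (nat_lit 4) .nil .nil)))))) (.nd (nat_lit 4) (.nd (nat_lit 5) (.nd (nat_lit 6) 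
(.lf (nat_lit 1160) (.g (nat_lit 1405) (.e (nat_lit 112) (nat_lit 3) (.e (nat_lit 98365) (nat_lit 26) (.e (nat_lit 426190) (nat_lit 9) (.e (nat_lit 426562) (nat_lit 33) .nil)))) .nil)) 
(.lf (nat_lit 1224) (.g (nat_lit 2856) (.e (nat_lit 112) (nat_lit 3) (.e (nat_lit 98373) (nat_lit 29) (.e (nat_lit 450563) (nat_lit 0) (.e (nat_lit 6736) (nat_lit 365) (.e (nat_lit 1208) (nat_lit 89) .nil))))) .nil))) (.nd (nat_lit 6) 
(.lf (nat_lit 1192) (.g (nat_lit 2342) (.e (nat_lit 112) (nat_lit 3) (.e (nat_lit 98369) (nat_lit 28) (.e (nat_lit 442390) (nat_lit 11) (.e (nat_lit 336288) (nat_lit 15) (.e (nat_lit 7096) (nat_lit 380) (.e (nat_lit 164354) (nat_lit 246) .nil)))))) (.g (nat_lit 0) .nil .nil))) 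
(.lf (nat_lit 1256) (.g (nat_lit 2414) (.e (nat_lit 112) (nat_lit 3) (.e (nat_lit 98380) (nat_lit 31) (.e (nat_lit 466954) (nat_lit 11) (.e (nat_lit 336288) (nat_lit 15) (.e (nat_lit 7096) (nat_lit 380) (.e (nat_lit 164354) (nat_lit 246) .nil)))))) (.g (nat_lit 0) .nil .nil))))) (.nd (nat_lit 5) (.nd (nat_lit 6) 
(.lf (nat_lit 1176) (.g (nat_lit 1852) (.e (nat_lit 112) (nat_lit 3) (.e (nat_lit 98367) (nat_lit 27) (.e (nat_lit 434231) (nat_lit 23) (.e (nat_lit 532514) (nat_lit 3) (.e (nat_lit 114716) (nat_lit 22) .nil))))) .nil)) 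
(.lf (nat_lit 1240) (.g (nat_lit 2749) (.e (nat_lit 112) (nat_lit 3) (.e (nat_lit 98373) (nat_lit 29) (.e (nat_lit 450566) (nat_lit 0) (.e (nat_lit 6791) (nat_lit 365) (.e (nat_lit 1209) (nat_lit 89) (.e (nat_lit 81664) (nat_lit 32) .nil)))))) (.g (nat_lit 5) .nil .nil)))) (.nd (nat_lit 6) 
(.lf (nat_lit 1208) (.g (nat_lit 1109) (.e (nat_lit 112) (nat_lit 3) (.e (nat_lit 98373) (nat_lit 29) (.e (nat_lit 450560) (nat_lit 0) .nil))) .nil)) 
(.lf (nat_lit 1272) (.g (nat_lit 675) (.e (nat_lit 112) (nat_lit 3) (.e (nat_lit 98384) (nat_lit 32) (.e (nat_lit 475177) (nat_lit 24) .nil))) .nil)))))) (.nd (nat_lit 3) (.nd (nat_lit 4) (.nd (nat_lit 5) (.nd (nat_lit 6) 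
(.lf (nat_lit 1156) (.g (nat_lit 365) (.e (nat_lit 112) (nat_lit 3) (.e (nat_lit 98365) (nat_lit 26) (.e (nat_lit 426188) (nat_lit 9) .nil))) .nil)) 
(.lf (nat_lit 1220) (.g (nat_lit 2726) (.e (nat_lit 112) (nat_lit 3) (.e (nat_lit 98373) (nat_lit 29) (.e (nat_lit 450562) (nat_lit 0) (.e (nat_lit 6830) (nat_lit 367) .nil)))) .nil))) (.nd (nat_lit 6) 
(.lf (nat_lit 1188) (.g (nat_lit 2821) (.e (nat_lit 112) (nat_lit 3) (.e (nat_lit 98367) (nat_lit 27) (.e (nat_lit 434248) (nat_lit 28) (.e (nat_lit 573489) (nat_lit 14) (.e (nat_lit 73755) (nat_lit 8) .nil))))) .nil)) 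
(.lf (nat_lit 1252) (.g (nat_lit 1577) (.e (nat_lit 112) (nat_lit 3) (.e (nat_lit 98380) (nat_lit 31) (.e (nat_lit 466954) (nat_lit 11) (.e (nat_lit 336287) (nat_lit 15) (.e (nat_lit 7098) (nat_lit 380) (.e (nat_lit 164353) (nat_lit 246) .nil)))))) (.g (nat_lit 5) .nil .nil))))) (.nd (nat_lit 5) (.nd (nat_lit 6) 
(.lf (nat_lit 1172) (.g (nat_lit 1469) (.e (nat_lit 112) (nat_lit 3) (.e (nat_lit 98367) (nat_lit 27) (.e (nat_lit 434231) (nat_lit 23) (.e (nat_lit 532513) (nat_lit 3) .nil)))) .nil)) 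
(.lf (nat_lit 1236) (.g (nat_lit 2987) (.e (nat_lit 112) (nat_lit 3) (.e (nat_lit 98373) (nat_lit 29) (.e (nat_lit 450563) (nat_lit 0) (.e (nat_lit 6830) (nat_lit 367) (.e (nat_lit 57400) (nat_lit 10) .nil))))) .nil))) (.nd (nat_lit 6) 
(.lf (nat_lit 1204) (.g (nat_lit 1732) (.e (nat_lit 112) (nat_lit 3) (.e (nat_lit 98372) (nat_lit 29) (.e (nat_lit 450564) (nat_lit 0) (.e (nat_lit 6792) (nat_lit 365) (.e (nat_lit 1209) (nat_lit 89) (.e (nat_lit 81664) (nat_lit 32) .nil)))))) (.g (nat_lit 4) .nil .nil))) 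
(.lf (nat_lit 1268) (.g (nat_lit 2400) (.e (nat_lit 112) (nat_lit 3) (.e (nat_lit 98381) (nat_lit 31) (.e (nat_lit 466954) (nat_lit 11) (.e (nat_lit 336288) (nat_lit 15) (.e (nat_lit 7098) (nat_lit 380) (.e (nat_lit 164353) (nat_lit 246) .nil)))))) (.g (nat_lit 0) .nil .nil)))))) (.nd (nat_lit 4) (.nd (nat_lit 5) (.nd (nat_lit 6) 
(.lf (nat_lit 1164) (.g (nat_lit 1517) (.e (nat_lit 112) (nat_lit 3) (.e (nat_lit 98365) (nat_lit 26) (.e (nat_lit 426325) (nat_lit 13) (.e (nat_lit 483333) (nat_lit 0) (.e (nat_lit 6988) (nat_lit 377) .nil))))) .nil)) 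
(.lf (nat_lit 1228) (.g (nat_lit 2861) (.e (nat_lit 112) (nat_lit 3) (.e (nat_lit 98373) (nat_lit 29) (.e (nat_lit 450563) (nat_lit 0) (.e (nat_lit 6740) (nat_lit 365) (.e (nat_lit 1208) (nat_lit 89) (.e (nat_lit 81664) (nat_lit 32) .nil)))))) (.g (nat_lit 4) .nil .nil)))) (.nd (nat_lit 6) 
(.lf (nat_lit 1196) (.g (nat_lit 2537) (.e (nat_lit 112) (nat_lit 3) (.e (nat_lit 98370) (nat_lit 28) (.e (nat_lit 442390) (nat_lit 11) (.e (nat_lit 336288) (nat_lit 15) (.e (nat_lit 7096) (nat_lit 380) (.e (nat_lit 164354) (nat_lit 246) .nil)))))) (.g (nat_lit 0) .nil .nil))) 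
(.lf (nat_lit 1260) (.g (nat_lit 1049) (.e (nat_lit 112) (nat_lit 3) (.e (nat_lit 98381) (nat_lit 31) (.e (nat_lit 466954) (nat_lit 11) (.e (nat_lit 336287) (nat_lit 15) .nil)))) .nil)))) (.nd (nat_lit 5) (.nd (nat_lit 6) 
(.lf (nat_lit 1180) (.g (nat_lit 970) (.e (nat_lit 112) (nat_lit 3) (.e (nat_lit 98367) (nat_lit 27) (.e (nat_lit 434242) (nat_lit 28) .nil))) .nil)) 
(.lf (nat_lit 1244) (.g (nat_lit 523) (.e (nat_lit 112) (nat_lit 3) (.e (nat_lit 98373) (nat_lit 29) (.e (nat_lit 450588) (nat_lit 10) .nil))) .nil))) (.nd (nat_lit 6) 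
(.lf (nat_lit 1212) (.g (nat_lit 2740) (.e (nat_lit 112) (nat_lit 3) (.e (nat_lit 98373) (nat_lit 29) (.e (nat_lit 450562) (nat_lit 0) (.e (nat_lit 6736) (nat_lit 365) .nil)))) .nil)) 
(.lf (nat_lit 1276) (.g (nat_lit 2308) (.e (nat_lit 112) (nat_lit 3) (.e (nat_lit 98384) (nat_lit 32) (.e (nat_lit 475177) (nat_lit 24) (.e (nat_lit 516179) (nat_lit 15) (.e (nat_lit 475179) (nat_lit 24) .nil))))) .nil))))))) (.nd (nat_lit 2) (.nd (nat_lit 3) (.nd (nat_lit 4) (.nd (nat_lit 5) (.nd (nat_lit 6) 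
(.lf (nat_lit 1154) (.g (nat_lit 1307) (.e (nat_lit 112) (nat_lit 3) (.e (nat_lit 98365) (nat_lit 26) (.e (nat_lit 426187) (nat_lit 9) (.e (nat_lit 426558) (nat_lit 33) (.e (nat_lit 385041) (nat_lit 19) .nil))))) .nil)) 
(.lf (nat_lit 1218) (.g (nat_lit 2739) (.e (nat_lit 112) (nat_lit 3) (.e (nat_lit 98373) (nat_lit 29) (.e (nat_lit 450562) (nat_lit 0) (.e (nat_lit 6819) (nat_lit 366) .nil)))) .nil))) (.nd (nat_lit 6) 
(.lf (nat_lit 1186) (.g (nat_lit 2263) (.e (nat_lit 112) (nat_lit 3) (.e (nat_lit 98367) (nat_lit 27) (.e (nat_lit 434247) (nat_lit 28) (.e (nat_lit 573489) (nat_lit 14) (.e (nat_lit 73755) (nat_lit 8) (.e (nat_lit 557119) (nat_lit 18) (.e (nat_lit 2449) (nat_lit 157) (.e (nat_lit 5630) (nat_lit 312) .nil)))))))) (.g (nat_lit 4) .nil .nil))) 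
(.lf (nat_lit 1250) (.g (nat_lit 940) (.e (nat_lit 112) (nat_lit 3) (.e (nat_lit 98380) (nat_lit 31) (.e (nat_lit 466954) (nat_lit 11) (.e (nat_lit 336287) (nat_lit 15) .nil)))) .nil)))) (.nd (nat_lit 5) (.nd (nat_lit 6) 
(.lf (nat_lit 1170) (.g (nat_lit 2460) (.e (nat_lit 112) (nat_lit 3) (.e (nat_lit 98367) (nat_lit 27) (.e (nat_lit 434231) (nat_lit 23) (.e (nat_lit 532483) (nat_lit 0) .nil)))) .nil)) 
(.lf (nat_lit 1234) (.g (nat_lit 2215) (.e (nat_lit 112) (nat_lit 3) (.e (nat_lit 98373) (nat_lit 29) (.e (nat_lit 450563) (nat_lit 0) (.e (nat_lit 6830) (nat_lit 367) .nil)))) .nil))) (.nd (nat_lit 6) 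
(.lf (nat_lit 1202) (.g (nat_lit 646) (.e (nat_lit 112) (nat_lit 3) (.e (nat_lit 98372) (nat_lit 29) (.e (nat_lit 450561) (nat_lit 0) .nil))) .nil)) 
(.lf (nat_lit 1266) (.g (nat_lit 2563) (.e (nat_lit 112) (nat_lit 3) (.e (nat_lit 98381) (nat_lit 31) (.e (nat_lit 466954) (nat_lit 11) (.e (nat_lit 336288) (nat_lit 15) (.e (nat_lit 7096) (nat_lit 380) (.e (nat_lit 164353) (nat_lit 246) .nil)))))) (.g (nat_lit 0) .nil .nil)))))) (.nd (nat_lit 4) (.nd (nat_lit 5) (.nd (nat_lit 6) 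
(.lf (nat_lit 1162) (.g (nat_lit 2457) (.e (nat_lit 112) (nat_lit 3) (.e (nat_lit 98365) (nat_lit 26) (.e (nat_lit 426325) (nat_lit 13) (.e (nat_lit 483331) (nat_lit 0) (.e (nat_lit 7103) (nat_lit 380) (.e (nat_lit 164356) (nat_lit 246) .nil)))))) (.g (nat_lit 4) .nil .nil))) 
(.lf (nat_lit 1226) (.g (nat_lit 3276) (.e (nat_lit 112) (nat_lit 3) (.e (nat_lit 98373) (nat_lit 29) (.e (nat_lit 450563) (nat_lit 0) (.e (nat_lit 6736) (nat_lit 365) (.e (nat_lit 1214) (nat_lit 89) (.e (nat_lit 81664) (nat_lit 32) .nil)))))) (.g (nat_lit 4) .nil .nil)))) (.nd (nat_lit 6) 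
(.lf (nat_lit 1194) (.g (nat_lit 710) (.e (nat_lit 112) (nat_lit 3) (.e (nat_lit 98369) (nat_lit 28) (.e (nat_lit 442391) (nat_lit 19) (.e (nat_lit 401472) (nat_lit 28) (.e (nat_lit 352000) (nat_lit 0) .nil))))) (.g (nat_lit 4) .nil .nil))) 
(.lf (nat_lit 1258) (.g (nat_lit 1133) (.e (nat_lit 112) (nat_lit 3) (.e (nat_lit 98380) (nat_lit 31) (.e (nat_lit 466954) (nat_lit 11) (.e (nat_lit 336291) (nat_lit 15) .nil)))) .nil)))) (.nd (nat_lit 5) (.nd (nat_lit 6) 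
(.lf (nat_lit 1178) (.g (nat_lit 970) (.e (nat_lit 112) (nat_lit 3) (.e (nat_lit 98367) (nat_lit 27) (.e (nat_lit 434234) (nat_lit 23) .nil))) .nil)) 
(.lf (nat_lit 1242) (.g (nat_lit 2095) (.e (nat_lit 112) (nat_lit 3) (.e (nat_lit 98373) (nat_lit 29) (.e (nat_lit 450566) (nat_lit 0) (.e (nat_lit 6792) (nat_lit 365) (.e (nat_lit 1211) (nat_lit 89) (.e (nat_lit 81664) (nat_lit 32) .nil)))))) (.g (nat_lit 4) .nil .nil)))) (.nd (nat_lit 6) 
(.lf (nat_lit 1210) (.g (nat_lit 757) (.e (nat_lit 112) (nat_lit 3) (.e (nat_lit 98373) (nat_lit 29) (.e (nat_lit 450562) (nat_lit 0) .nil))) .nil)) 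
(.lf (nat_lit 1274) (.g (nat_lit 3084) (.e (nat_lit 112) (nat_lit 3) (.e (nat_lit 98384) (nat_lit 32) (.e (nat_lit 475177) (nat_lit 24) (.e (nat_lit 516150) (nat_lit 9) (.e (nat_lit 426438) (nat_lit 18) (.e (nat_lit 98323) (nat_lit 17) (.e (nat_lit 7936) (nat_lit 388) .nil))))))) (.g (nat_lit 6) .nil .nil))))))) (.nd (nat_lit 3) (.nd (nat_lit 4) (.nd (nat_lit 5) (.nd (nat_lit 6) 
(.lf (nat_lit 1158) (.g (nat_lit 1292) (.e (nat_lit 112) (nat_lit 3) (.e (nat_lit 98365) (nat_lit 26) (.e (nat_lit 426188) (nat_lit 9) (.e (nat_lit 426558) (nat_lit 33) .nil)))) .nil)) 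
(.lf (nat_lit 1222) (.g (nat_lit 2334) (.e (nat_lit 112) (nat_lit 3) (.e (nat_lit 98373) (nat_lit 29) (.e (nat_lit 450563) (nat_lit 0) (.e (nat_lit 6595) (nat_lit 351) .nil)))) .nil))) (.nd (nat_lit 6) 
(.lf (nat_lit 1190) (.g (nat_lit 2953) (.e (nat_lit 112) (nat_lit 3) (.e (nat_lit 98367) (nat_lit 27) (.e (nat_lit 434248) (nat_lit 28) (.e (nat_lit 573489) (nat_lit 14) (.e (nat_lit 73755) (nat_lit 8) (.e (nat_lit 557119) (nat_lit 18) (.e (nat_lit 2448) (nat_lit 157) (.e (nat_lit 5639) (nat_lit 312) .nil)))))))) (.g (nat_lit 4) .nil .nil))) 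
(.lf (nat_lit 1254) (.g (nat_lit 1751) (.e (nat_lit 112) (nat_lit 3) (.e (nat_lit 98380) (nat_lit 31) (.e (nat_lit 466954) (nat_lit 11) (.e (nat_lit 336288) (nat_lit 15) (.e (nat_lit 7095) (nat_lit 380) (.e (nat_lit 164358) (nat_lit 246) .nil)))))) (.g (nat_lit 4) .nil .nil))))) (.nd (nat_lit 5) (.nd (nat_lit 6) 
(.lf (nat_lit 1174) (.g (nat_lit 1895) (.e (nat_lit 112) (nat_lit 3) (.e (nat_lit 98367) (nat_lit 27) (.e (nat_lit 434231) (nat_lit 23) (.e (nat_lit 532514) (nat_lit 3) (.e (nat_lit 114715) (nat_lit 22) .nil))))) .nil)) 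
(.lf (nat_lit 1238) (.g (nat_lit 3304) (.e (nat_lit 112) (nat_lit 3) (.e (nat_lit 98373) (nat_lit 29) (.e (nat_lit 450563) (nat_lit 0) (.e (nat_lit 6830) (nat_lit 367) (.e (nat_lit 57421) (nat_lit 13) (.e (nat_lit 352000) (nat_lit 0) .nil)))))) (.g (nat_lit 4) .nil .nil)))) (.nd (nat_lit 6) 
(.lf (nat_lit 1206) (.g (nat_lit 674) (.e (nat_lit 112) (nat_lit 3) (.e (nat_lit 98372) (nat_lit 29) (.e (nat_lit 450602) (nat_lit 22) .nil))) .nil)) 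
(.lf (nat_lit 1270) (.g (nat_lit 1191) (.e (nat_lit 112) (nat_lit 3) (.e (nat_lit 98381) (nat_lit 31) (.e (nat_lit 466954) (nat_lit 11) (.e (nat_lit 336293) (nat_lit 15) .nil)))) .nil))))) (.nd (nat_lit 4) (.nd (nat_lit 5) (.nd (nat_lit 6) 
(.lf (nat_lit 1166) (.g (nat_lit 2237) (.e (nat_lit 112) (nat_lit 3) (.e (nat_lit 98365) (nat_lit 26) (.e (nat_lit 426325) (nat_lit 13) (.e (nat_lit 483333) (nat_lit 0) (.e (nat_lit 7098) (nat_lit 380) (.e (nat_lit 164354) (nat_lit 246) .nil)))))) (.g (nat_lit 0) .nil .nil))) 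
(.lf (nat_lit 1230) (.g (nat_lit 3605) (.e (nat_lit 112) (nat_lit 3) (.e (nat_lit 98373) (nat_lit 29) (.e (nat_lit 450563) (nat_lit 0) (.e (nat_lit 6740) (nat_lit 365) (.e (nat_lit 1214) (nat_lit 89) (.e (nat_lit 81664) (nat_lit 32) .nil)))))) (.g (nat_lit 5) .nil .nil)))) (.nd (nat_lit 6) 
(.lf (nat_lit 1198) (.g (nat_lit 1005) (.e (nat_lit 112) (nat_lit 3) (.e (nat_lit 98370) (nat_lit 28) (.e (nat_lit 442390) (nat_lit 11) (.e (nat_lit 336293) (nat_lit 15) .nil)))) .nil)) 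
(.lf (nat_lit 1262) (.g (nat_lit 1674) (.e (nat_lit 112) (nat_lit 3) (.e (nat_lit 98381) (nat_lit 31) (.e (nat_lit 466954) (nat_lit 11) (.e (nat_lit 336287) (nat_lit 15) (.e (nat_lit 7098) (nat_lit 380) (.e (nat_lit 164353) (nat_lit 246) .nil)))))) (.g (nat_lit 5) .nil .nil))))) (.nd (nat_lit 5) (.nd (nat_lit 6) 
(.lf (nat_lit 1182) (.g (nat_lit 2836) (.e (nat_lit 112) (nat_lit 3) (.e (nat_lit 98367) (nat_lit 27) (.e (nat_lit 434244) (nat_lit 28) (.e (nat_lit 573488) (nat_lit 14) (.e (nat_lit 73755) (nat_lit 8) (.e (nat_lit 557119) (nat_lit 18) (.e (nat_lit 7936) (nat_lit 157) (.e (nat_lit 5629) (nat_lit 312) .nil)))))))) (.g (nat_lit 4) .nil .nil))) 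
(.lf (nat_lit 1246) (.g (nat_lit 724) (.e (nat_lit 112) (nat_lit 3) (.e (nat_lit 98373) (nat_lit 29) (.e (nat_lit 458496) (nat_lit 26) .nil))) .nil))) (.nd (nat_lit 6) 
(.lf (nat_lit 1214) (.g (nat_lit 2739) (.e (nat_lit 112) (nat_lit 3) (.e (nat_lit 98373) (nat_lit 29) (.e (nat_lit 450562) (nat_lit 0) (.e (nat_lit 6743) (nat_lit 365) .nil)))) .nil)) 
(.lf (nat_lit 1278) (.g (nat_lit 2123) (.e (nat_lit 113) (nat_lit 3) (.e (nat_lit 98356) (nat_lit 26) (.e (nat_lit 426428) (nat_lit 17) (.e (nat_lit 90174) (nat_lit 14) (.e (nat_lit 180250) (nat_lit 10) (.e (nat_lit 573475) (nat_lit 12) (.e (nat_lit 65280) (nat_lit 201) .nil))))))) (.g (nat_lit 4) .nil .nil))))))))) 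
(.nd (nat_lit 1) (.nd (nat_lit 2) (.nd (nat_lit 3) (.nd (nat_lit 4) (.nd (nat_lit 5) 
(.nd (nat_lit 6) 
(.lf (nat_lit 1153) (.g (nat_lit 1314) (.e (nat_lit 112) (nat_lit 3) (.e (nat_lit 98365) (nat_lit 26) (.e (nat_lit 426187) (nat_lit 9) (.e (nat_lit 426558) (nat_lit 33) (.e (nat_lit 385040) (nat_lit 19) .nil))))) .nil)) 
(.lf (nat_lit 1217) (.g (nat_lit 2962) (.e (nat_lit 112) (nat_lit 3) (.e (nat_lit 98373) (nat_lit 29) (.e (nat_lit 450562) (nat_lit 0) (.e (nat_lit 6808) (nat_lit 365) (.e (nat_lit 7936) (nat_lit 89) (.e (nat_lit 81664) (nat_lit 32) .nil)))))) (.g (nat_lit 4) .nil .nil)))) (.nd (nat_lit 6) 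
(.lf (nat_lit 1185) (.g (nat_lit 722) (.e (nat_lit 112) (nat_lit 3) (.e (nat_lit 98367) (nat_lit 27) (.e (nat_lit 434247) (nat_lit 28) .nil))) .nil)) 
(.lf (nat_lit 1249) (.g (nat_lit 2014) (.e (nat_lit 112) (nat_lit 3) (.e (nat_lit 98377) (nat_lit 30) (.e (nat_lit 458789) (nat_lit 23) (.e (nat_lit 532515) (nat_lit 3) (.e (nat_lit 114716) (nat_lit 22) (.e (nat_lit 98048) (nat_lit 21) (.e (nat_lit 164356) (nat_lit 246) .nil))))))) (.g (nat_lit 5) .nil .nil))))) (.nd (nat_lit 5) (.nd (nat_lit 6) 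
(.lf (nat_lit 1169) (.g (nat_lit 1266) (.e (nat_lit 112) (nat_lit 3) (.e (nat_lit 98365) (nat_lit 26) (.e (nat_lit 426327) (nat_lit 13) (.e (nat_lit 491264) (nat_lit 7) .nil)))) .nil)) 
(.lf (nat_lit 1233) (.g (nat_lit 2417) (.e (nat_lit 112) (nat_lit 3) (.e (nat_lit 98373) (nat_lit 29) (.e (nat_lit 450563) (nat_lit 0) (.e (nat_lit 6808) (nat_lit 365) .nil)))) .nil))) (.nd (nat_lit 6) 
(.lf (nat_lit 1201) (.g (nat_lit 685) (.e (nat_lit 112) (nat_lit 3) (.e (nat_lit 98370) (nat_lit 28) (.e (nat_lit 442396) (nat_lit 20) .nil))) .nil)) 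
(.lf (nat_lit 1265) (.g (nat_lit 1833) (.e (nat_lit 112) (nat_lit 3) (.e (nat_lit 98381) (nat_lit 31) (.e (nat_lit 466954) (nat_lit 11) (.e (nat_lit 336288) (nat_lit 15) (.e (nat_lit 7095) (nat_lit 380) (.e (nat_lit 164358) (nat_lit 246) .nil)))))) (.g (nat_lit 4) .nil .nil)))))) (.nd (nat_lit 4) (.nd (nat_lit 5) (.nd (nat_lit 6) 
(.lf (nat_lit 1161) (.g (nat_lit 397) (.e (nat_lit 112) (nat_lit 3) (.e (nat_lit 98365) (nat_lit 26) (.e (nat_lit 426325) (nat_lit 13) .nil))) .nil)) 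
(.lf (nat_lit 1225) (.g (nat_lit 3216) (.e (nat_lit 112) (nat_lit 3) (.e (nat_lit 98373) (nat_lit 29) (.e (nat_lit 450563) (nat_lit 0) (.e (nat_lit 6736) (nat_lit 365) (.e (nat_lit 1212) (nat_lit 89) (.e (nat_lit 81664) (nat_lit 32) .nil)))))) (.g (nat_lit 4) .nil .nil)))) (.nd (nat_lit 6) 
(.lf (nat_lit 1193) (.g (nat_lit 2228) (.e (nat_lit 112) (nat_lit 3) (.e (nat_lit 98369) (nat_lit 28) (.e (nat_lit 442390) (nat_lit 11) (.e (nat_lit 336288) (nat_lit 15) (.e (nat_lit 7098) (nat_lit 380) (.e (nat_lit 164353) (nat_lit 246) .nil)))))) (.g (nat_lit 0) .nil .nil))) 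
(.lf (nat_lit 1257) (.g (nat_lit 2302) (.e (nat_lit 112) (nat_lit 3) (.e (nat_lit 98380) (nat_lit 31) (.e (nat_lit 466954) (nat_lit 11) (.e (nat_lit 336288) (nat_lit 15) (.e (nat_lit 7098) (nat_lit 380) (.e (nat_lit 164353) (nat_lit 246) .nil)))))) (.g (nat_lit 0) .nil .nil))))) (.nd (nat_lit 5) (.nd (nat_lit 6) 
(.lf (nat_lit 1177) (.g (nat_lit 970) (.e (nat_lit 112) (nat_lit 3) (.e (nat_lit 98367) (nat_lit 27) (.e (nat_lit 434232) (nat_lit 23) .nil))) .nil)) 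
(.lf (nat_lit 1241) (.g (nat_lit 2571) (.e (nat_lit 112) (nat_lit 3) (.e (nat_lit 98373) (nat_lit 29) (.e (nat_lit 450566) (nat_lit 0) (.e (nat_lit 6792) (nat_lit 365) (.e (nat_lit 1209) (nat_lit 89) (.e (nat_lit 81664) (nat_lit 32) .nil)))))) (.g (nat_lit 5) .nil .nil)))) (.nd (nat_lit 6) 
(.lf (nat_lit 1209) (.g (nat_lit 1042) (.e (nat_lit 112) (nat_lit 3) (.e (nat_lit 98373) (nat_lit 29) (.e (nat_lit 450561) (nat_lit 0) .nil))) .nil)) 
(.lf (nat_lit 1273) (.g (nat_lit 3221) (.e (nat_lit 112) (nat_lit 3) (.e (nat_lit 98384) (nat_lit 32) (.e (nat_lit 475177) (nat_lit 24) (.e (nat_lit 516146) (nat_lit 9) (.e (nat_lit 426438) (nat_lit 18) (.e (nat_lit 98323) (nat_lit 17) (.e (nat_lit 7936) (nat_lit 388) .nil))))))) (.g (nat_lit 6) .nil .nil))))))) (.nd (nat_lit 3) (.nd (nat_lit 4) (.nd (nat_lit 5) (.nd (nat_lit 6) 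
(.lf (nat_lit 1157) (.g (nat_lit 1219) (.e (nat_lit 112) (nat_lit 3) (.e (nat_lit 98365) (nat_lit 26) (.e (nat_lit 426188) (nat_lit 9) (.e (nat_lit 426486) (nat_lit 27) .nil)))) .nil)) 
(.lf (nat_lit 1221) (.g (nat_lit 553) (.e (nat_lit 112) (nat_lit 3) (.e (nat_lit 98373) (nat_lit 29) (.e (nat_lit 450563) (nat_lit 0) .nil))) .nil))) (.nd (nat_lit 6) 
(.lf (nat_lit 1189) (.g (nat_lit 2988) (.e (nat_lit 112) (nat_lit 3) (.e (nat_lit 98367) (nat_lit 27) (.e (nat_lit 434248) (nat_lit 28) (.e (nat_lit 573489) (nat_lit 14) (.e (nat_lit 73755) (nat_lit 8) (.e (nat_lit 557119) (nat_lit 18) (.e (nat_lit 2448) (nat_lit 157) (.e (nat_lit 5630) (nat_lit 312) .nil)))))))) (.g (nat_lit 4) .nil .nil))) 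
(.lf (nat_lit 1253) (.g (nat_lit 1120) (.e (nat_lit 112) (nat_lit 3) (.e (nat_lit 98380) (nat_lit 31) (.e (nat_lit 466954) (nat_lit 11) (.e (nat_lit 336287) (nat_lit 15) (.e (nat_lit 7106) (nat_lit 380) (.e (nat_lit 164356) (nat_lit 246) .nil)))))) (.g (nat_lit 4) .nil .nil))))) (.nd (nat_lit 5) (.nd (nat_lit 6) 
(.lf (nat_lit 1173) (.g (nat_lit 1907) (.e (nat_lit 112) (nat_lit 3) (.e (nat_lit 98367) (nat_lit 27) (.e (nat_lit 434231) (nat_lit 23) (.e (nat_lit 532514) (nat_lit 3) (.e (nat_lit 114713) (nat_lit 22) .nil))))) .nil)) 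
(.lf (nat_lit 1237) (.g (nat_lit 4706) (.e (nat_lit 112) (nat_lit 3) (.e (nat_lit 98373) (nat_lit 29) (.e (nat_lit 450563) (nat_lit 0) (.e (nat_lit 6830) (nat_lit 367) (.e (nat_lit 57400) (nat_lit 10) (.e (nat_lit 319490) (nat_lit 0) (.e (nat_lit 5629) (nat_lit 312) .nil))))))) (.g (nat_lit 6) .nil .nil)))) (.nd (nat_lit 6) 
(.lf (nat_lit 1205) (.g (nat_lit 2211) (.e (nat_lit 112) (nat_lit 3) (.e (nat_lit 98372) (nat_lit 29) (.e (nat_lit 450579) (nat_lit 5) (.e (nat_lit 532543) (nat_lit 10) (.e (nat_lit 344160) (nat_lit 37) (.e (nat_lit 655104) (nat_lit 0) .nil)))))) (.g (nat_lit 5) .nil .nil))) 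
(.lf (nat_lit 1269) (.g (nat_lit 1214) (.e (nat_lit 112) (nat_lit 3) (.e (nat_lit 98381) (nat_lit 31) (.e (nat_lit 466954) (nat_lit 11) (.e (nat_lit 336291) (nat_lit 15) .nil)))) .nil))))) (.nd (nat_lit 4) (.nd (nat_lit 5) (.nd (nat_lit 6) 
(.lf (nat_lit 1165) (.g (nat_lit 2416) (.e (nat_lit 112) (nat_lit 3) (.e (nat_lit 98365) (nat_lit 26) (.e (nat_lit 426325) (nat_lit 13) (.e (nat_lit 483333) (nat_lit 0) (.e (nat_lit 7096) (nat_lit 380) (.e (nat_lit 164354) (nat_lit 246) .nil)))))) (.g (nat_lit 0) .nil .nil))) 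
(.lf (nat_lit 1229) (.g (nat_lit 3588) (.e (nat_lit 112) (nat_lit 3) (.e (nat_lit 98373) (nat_lit 29) (.e (nat_lit 450563) (nat_lit 0) (.e (nat_lit 6740) (nat_lit 365) (.e (nat_lit 1212) (nat_lit 89) (.e (nat_lit 81664) (nat_lit 32) .nil)))))) (.g (nat_lit 5) .nil .nil)))) (.nd (nat_lit 6) 
(.lf (nat_lit 1197) (.g (nat_lit 2418) (.e (nat_lit 112) (nat_lit 3) (.e (nat_lit 98370) (nat_lit 28) (.e (nat_lit 442390) (nat_lit 11) (.e (nat_lit 336288) (nat_lit 15) (.e (nat_lit 7098) (nat_lit 380) (.e (nat_lit 164353) (nat_lit 246) .nil)))))) (.g (nat_lit 0) .nil .nil))) 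
(.lf (nat_lit 1261) (.g (nat_lit 2061) (.e (nat_lit 112) (nat_lit 3) (.e (nat_lit 98381) (nat_lit 31) (.e (nat_lit 466954) (nat_lit 11) (.e (nat_lit 336287) (nat_lit 15) (.e (nat_lit 7096) (nat_lit 380) (.e (nat_lit 164358) (nat_lit 246) .nil)))))) (.g (nat_lit 5) .nil .nil))))) (.nd (nat_lit 5) (.nd (nat_lit 6) 
(.lf (nat_lit 1181) (.g (nat_lit 2529) (.e (nat_lit 112) (nat_lit 3) (.e (nat_lit 98367) (nat_lit 27) (.e (nat_lit 434244) (nat_lit 28) (.e (nat_lit 573488) (nat_lit 14) (.e (nat_lit 73755) (nat_lit 8) .nil))))) .nil)) 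
(.lf (nat_lit 1245) (.g (nat_lit 942) (.e (nat_lit 112) (nat_lit 3) (.e (nat_lit 98373) (nat_lit 29) (.e (nat_lit 450602) (nat_lit 22) .nil))) .nil))) (.nd (nat_lit 6) 
(.lf (nat_lit 1213) (.g (nat_lit 2740) (.e (nat_lit 112) (nat_lit 3) (.e (nat_lit 98373) (nat_lit 29) (.e (nat_lit 450562) (nat_lit 0) (.e (nat_lit 6740) (nat_lit 365) .nil)))) .nil)) 
(.lf (nat_lit 1277) (.g (nat_lit 954) (.e (nat_lit 113) (nat_lit 3) (.e (nat_lit 98342) (nat_lit 20) (.e (nat_lit 221194) (nat_lit 11) .nil))) .nil))))))) (.nd (nat_lit 2) (.nd (nat_lit 3) (.nd (nat_lit 4) (.nd (nat_lit 5) (.nd (nat_lit 6) 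
(.lf (nat_lit 1155) (.g (nat_lit 1203) (.e (nat_lit 112) (nat_lit 3) (.e (nat_lit 98365) (nat_lit 26) (.e (nat_lit 426187) (nat_lit 9) (.e (nat_lit 426558) (nat_lit 33) (.e (nat_lit 392960) (nat_lit 19) .nil))))) .nil)) 
(.lf (nat_lit 1219) (.g (nat_lit 2739) (.e (nat_lit 112) (nat_lit 3) (.e (nat_lit 98373) (nat_lit 29) (.e (nat_lit 450562) (nat_lit 0) (.e (nat_lit 6828) (nat_lit 367) .nil)))) .nil))) (.nd (nat_lit 6) 
(.lf (nat_lit 1187) (.g (nat_lit 768) (.e (nat_lit 112) (nat_lit 3) (.e (nat_lit 98367) (nat_lit 27) (.e (nat_lit 434248) (nat_lit 28) .nil))) .nil)) 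
(.lf (nat_lit 1251) (.g (nat_lit 2001) (.e (nat_lit 112) (nat_lit 3) (.e (nat_lit 98380) (nat_lit 31) (.e (nat_lit 466954) (nat_lit 11) (.e (nat_lit 336287) (nat_lit 15) (.e (nat_lit 7096) (nat_lit 380) (.e (nat_lit 164358) (nat_lit 246) .nil)))))) (.g (nat_lit 5) .nil .nil))))) (.nd (nat_lit 5) (.nd (nat_lit 6) 
(.lf (nat_lit 1171) (.g (nat_lit 1590) (.e (nat_lit 112) (nat_lit 3) (.e (nat_lit 98367) (nat_lit 27) (.e (nat_lit 434231) (nat_lit 23) (.e (nat_lit 532507) (nat_lit 2) .nil)))) .nil)) 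
(.lf (nat_lit 1235) (.g (nat_lit 2974) (.e (nat_lit 112) (nat_lit 3) (.e (nat_lit 98373) (nat_lit 29) (.e (nat_lit 450563) (nat_lit 0) (.e (nat_lit 6830) (nat_lit 367) (.e (nat_lit 57354) (nat_lit 0) .nil))))) .nil))) (.nd (nat_lit 6) 
(.lf (nat_lit 1203) (.g (nat_lit 675) (.e (nat_lit 112) (nat_lit 3) (.e (nat_lit 98372) (nat_lit 29) (.e (nat_lit 450563) (nat_lit 0) .nil))) .nil)) 
(.lf (nat_lit 1267) (.g (nat_lit 2515) (.e (nat_lit 112) (nat_lit 3) (.e (nat_lit 98381) (nat_lit 31) (.e (nat_lit 466954) (nat_lit 11) (.e (nat_lit 336288) (nat_lit 15) (.e (nat_lit 7096) (nat_lit 380) (.e (nat_lit 164354) (nat_lit 246) .nil)))))) (.g (nat_lit 0) .nil .nil)))))) (.nd (nat_lit 4) (.nd (nat_lit 5) (.nd (nat_lit 6) 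
(.lf (nat_lit 1163) (.g (nat_lit 954) (.e (nat_lit 112) (nat_lit 3) (.e (nat_lit 98365) (nat_lit 26) (.e (nat_lit 426325) (nat_lit 13) (.e (nat_lit 483333) (nat_lit 0) .nil)))) .nil)) 
(.lf (nat_lit 1227) (.g (nat_lit 2256) (.e (nat_lit 112) (nat_lit 3) (.e (nat_lit 98373) (nat_lit 29) (.e (nat_lit 450563) (nat_lit 0) (.e (nat_lit 6740) (nat_lit 365) .nil)))) .nil))) (.nd (nat_lit 6) 
(.lf (nat_lit 1195) (.g (nat_lit 2588) (.e (nat_lit 112) (nat_lit 3) (.e (nat_lit 98370) (nat_lit 28) (.e (nat_lit 442390) (nat_lit 11) (.e (nat_lit 336288) (nat_lit 15) (.e (nat_lit 7096) (nat_lit 380) (.e (nat_lit 164353) (nat_lit 246) .nil)))))) (.g (nat_lit 0) .nil .nil))) 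
(.lf (nat_lit 1259) (.g (nat_lit 1111) (.e (nat_lit 112) (nat_lit 3) (.e (nat_lit 98380) (nat_lit 31) (.e (nat_lit 466954) (nat_lit 11) (.e (nat_lit 336293) (nat_lit 15) .nil)))) .nil)))) (.nd (nat_lit 5) (.nd (nat_lit 6) 
(.lf (nat_lit 1179) (.g (nat_lit 1639) (.e (nat_lit 112) (nat_lit 3) (.e (nat_lit 98367) (nat_lit 27) (.e (nat_lit 434234) (nat_lit 23) (.e (nat_lit 532515) (nat_lit 3) (.e (nat_lit 114716) (nat_lit 22) .nil))))) .nil)) 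
(.lf (nat_lit 1243) (.g (nat_lit 975) (.e (nat_lit 112) (nat_lit 3) (.e (nat_lit 98373) (nat_lit 29) (.e (nat_lit 450568) (nat_lit 0) .nil))) .nil))) (.nd (nat_lit 6) 
(.lf (nat_lit 1211) (.g (nat_lit 2681) (.e (nat_lit 112) (nat_lit 3) (.e (nat_lit 98373) (nat_lit 29) (.e (nat_lit 450562) (nat_lit 0) (.e (nat_lit 6595) (nat_lit 351) .nil)))) .nil)) 
(.lf (nat_lit 1275) (.g (nat_lit 1493) (.e (nat_lit 112) (nat_lit 3) (.e (nat_lit 98384) (nat_lit 32) (.e (nat_lit 475177) (nat_lit 24) (.e (nat_lit 516159) (nat_lit 10) .nil)))) .nil)))))) (.nd (nat_lit 3) (.nd (nat_lit 4) (.nd (nat_lit 5) (.nd (nat_lit 6) 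
(.lf (nat_lit 1159) (.g (nat_lit 714) (.e (nat_lit 112) (nat_lit 3) (.e (nat_lit 98365) (nat_lit 26) (.e (nat_lit 426189) (nat_lit 9) .nil))) .nil)) 
(.lf (nat_lit 1223) (.g (nat_lit 2446) (.e (nat_lit 112) (nat_lit 3) (.e (nat_lit 98373) (nat_lit 29) (.e (nat_lit 450563) (nat_lit 0) (.e (nat_lit 6736) (nat_lit 365) .nil)))) .nil))) (.nd (nat_lit 6) 
(.lf (nat_lit 1191) (.g (nat_lit 2395) (.e (nat_lit 112) (nat_lit 3) (.e (nat_lit 98369) (nat_lit 28) (.e (nat_lit 442390) (nat_lit 11) (.e (nat_lit 336288) (nat_lit 15) (.e (nat_lit 7096) (nat_lit 380) (.e (nat_lit 164353) (nat_lit 246) .nil)))))) (.g (nat_lit 0) .nil .nil))) 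
(.lf (nat_lit 1255) (.g (nat_lit 2464) (.e (nat_lit 112) (nat_lit 3) (.e (nat_lit 98380) (nat_lit 31) (.e (nat_lit 466954) (nat_lit 11) (.e (nat_lit 336288) (nat_lit 15) (.e (nat_lit 7096) (nat_lit 380) (.e (nat_lit 164353) (nat_lit 246) .nil)))))) (.g (nat_lit 0) .nil .nil))))) (.nd (nat_lit 5) (.nd (nat_lit 6) 
(.lf (nat_lit 1175) (.g (nat_lit 1932) (.e (nat_lit 112) (nat_lit 3) (.e (nat_lit 98367) (nat_lit 27) (.e (nat_lit 434231) (nat_lit 23) (.e (nat_lit 532514) (nat_lit 3) (.e (nat_lit 114715) (nat_lit 22) (.e (nat_lit 90203) (nat_lit 21) (.e (nat_lit 164358) (nat_lit 246) .nil))))))) (.g (nat_lit 4) .nil .nil))) 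
(.lf (nat_lit 1239) (.g (nat_lit 1041) (.e (nat_lit 112) (nat_lit 3) (.e (nat_lit 98373) (nat_lit 29) (.e (nat_lit 450566) (nat_lit 0) .nil))) .nil))) (.nd (nat_lit 6) 
(.lf (nat_lit 1207) (.g (nat_lit 437) (.e (nat_lit 112) (nat_lit 3) (.e (nat_lit 98372) (nat_lit 29) (.e (nat_lit 458496) (nat_lit 26) .nil))) .nil)) 
(.lf (nat_lit 1271) (.g (nat_lit 903) (.e (nat_lit 112) (nat_lit 3) (.e (nat_lit 98381) (nat_lit 31) (.e (nat_lit 466954) (nat_lit 11) (.e (nat_lit 343808) (nat_lit 25) .nil)))) .nil))))) (.nd (nat_lit 4) (.nd (nat_lit 5) (.nd (nat_lit 6) 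
(.lf (nat_lit 1167) (.g (nat_lit 1359) (.e (nat_lit 112) (nat_lit 3) (.e (nat_lit 98365) (nat_lit 26) (.e (nat_lit 426325) (nat_lit 13) (.e (nat_lit 491264) (nat_lit 7) .nil)))) .nil)) 
(.lf (nat_lit 1231) (.g (nat_lit 2438) (.e (nat_lit 112) (nat_lit 3) (.e (nat_lit 98373) (nat_lit 29) (.e (nat_lit 450563) (nat_lit 0) (.e (nat_lit 6745) (nat_lit 365) .nil)))) .nil))) (.nd (nat_lit 6) 
(.lf (nat_lit 1199) (.g (nat_lit 411) (.e (nat_lit 112) (nat_lit 3) (.e (nat_lit 98370) (nat_lit 28) (.e (nat_lit 450304) (nat_lit 17) .nil))) .nil)) 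
(.lf (nat_lit 1263) (.g (nat_lit 1283) (.e (nat_lit 112) (nat_lit 3) (.e (nat_lit 98381) (nat_lit 31) (.e (nat_lit 466954) (nat_lit 11) (.e (nat_lit 336287) (nat_lit 15) (.e (nat_lit 7104) (nat_lit 380) (.e (nat_lit 164358) (nat_lit 246) .nil)))))) (.g (nat_lit 4) .nil .nil))))) (.nd (nat_lit 5) (.nd (nat_lit 6) 
(.lf (nat_lit 1183) (.g (nat_lit 2206) (.e (nat_lit 112) (nat_lit 3) (.e (nat_lit 98367) (nat_lit 27) (.e (nat_lit 434245) (nat_lit 28) (.e (nat_lit 573488) (nat_lit 14) (.e (nat_lit 73755) (nat_lit 8) .nil))))) .nil)) 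
(.lf (nat_lit 1247) (.g (nat_lit 587) (.e (nat_lit 112) (nat_lit 3) (.e (nat_lit 98373) (nat_lit 29) (.e (nat_lit 450605) (nat_lit 27) .nil))) .nil))) (.nd (nat_lit 6) 
(.lf (nat_lit 1215) (.g (nat_lit 2739) (.e (nat_lit 112) (nat_lit 3) (.e (nat_lit 98373) (nat_lit 29) (.e (nat_lit 450562) (nat_lit 0) (.e (nat_lit 6745) (nat_lit 365) .nil)))) .nil)) 
(.lf (nat_lit 1279) (.g (nat_lit 1280) (.e (nat_lit 113) (nat_lit 3) (.e (nat_lit 98358) (nat_lit 26) (.e (nat_lit 426323) (nat_lit 13) (.e (nat_lit 483333) (nat_lit 0) (.e (nat_lit 7098) (nat_lit 380) .nil))))) .nil)))))))))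

noncomputable def tv017 : DT := (.nd (nat_lit 0) (.nd (nat_lit 1) (.nd (nat_lit 2) (.nd (nat_lit 3) (.nd (nat_lit 4) (.nd (nat_lit 5) 
(.lf (nat_lit 1280) (.g (nat_lit 1967) (.e (nat_lit 113) (nat_lit 3) (.e (nat_lit 98358) (nat_lit 26) (.e (nat_lit 426428) (nat_lit 17) (.e (nat_lit 90174) (nat_lit 14) (.e (nat_lit 180250) (nat_lit 10) (.e (nat_lit 573473) (nat_lit 12) (.e (nat_lit 65280) (nat_lit 201) .nil))))))) (.g (nat_lit 4) .nil .nil))) 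
(.lf (nat_lit 1312) (.g (nat_lit 2210) (.e (nat_lit 7936) (nat_lit 3) (.e (nat_lit 98372) (nat_lit 29) (.e (nat_lit 450579) (nat_lit 5) (.e (nat_lit 532534) (nat_lit 9) (.e (nat_lit 335878) (nat_lit 0) .nil))))) .nil))) (.nd (nat_lit 5) 
(.lf (nat_lit 1296) (.g (nat_lit 3215) (.e (nat_lit 113) (nat_lit 3) (.e (nat_lit 98373) (nat_lit 29) (.e (nat_lit 450563) (nat_lit 0) (.e (nat_lit 6830) (nat_lit 367) .nil)))) .nil)) 
(.lf (nat_lit 1328) (.g (nat_lit 3463) (.e (nat_lit 119) (nat_lit 4) (.e (nat_lit 106536) (nat_lit 11) (.e (nat_lit 16463) (nat_lit 13) (.e (nat_lit 483408) (nat_lit 26) (.e (nat_lit 385100) (nat_lit 49) .nil))))) .nil)))) (.nd (nat_lit 4) (.nd (nat_lit 5) 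
(.lf (nat_lit 1288) (.g (nat_lit 1799) (.e (nat_lit 113) (nat_lit 3) (.e (nat_lit 98372) (nat_lit 29) (.e (nat_lit 450579) (nat_lit 5) (.e (nat_lit 532555) (nat_lit 13) .nil)))) .nil)) 
(.lf (nat_lit 1320) (.g (nat_lit 1457) (.e (nat_lit 116) (nat_lit 4) (.e (nat_lit 106536) (nat_lit 11) (.e (nat_lit 16436) (nat_lit 9) .nil))) .nil))) (.nd (nat_lit 5) 
(.lf (nat_lit 1304) (.g (nat_lit 1837) (.e (nat_lit 7936) (nat_lit 3) (.e (nat_lit 98370) (nat_lit 28) (.e (nat_lit 442427) (nat_lit 23) (.e (nat_lit 204862) (nat_lit 27) .nil)))) .nil)) 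
(.lf (nat_lit 1336) (.g (nat_lit 1637) (.e (nat_lit 122) (nat_lit 5) (.e (nat_lit 114710) (nat_lit 21) (.e (nat_lit 57830) (nat_lit 250) (.e (nat_lit 1214) (nat_lit 89) (.e (nat_lit 73746) (nat_lit 3) .nil))))) .nil))))) (.nd (nat_lit 3) (.nd (nat_lit 4) (.nd (nat_lit 5) 
(.lf (nat_lit 1284) (.g (nat_lit 615) (.e (nat_lit 113) (nat_lit 3) (.e (nat_lit 98372) (nat_lit 29) (.e (nat_lit 450579) (nat_lit 5) .nil))) .nil)) 
(.lf (nat_lit 1316) (.g (nat_lit 1615) (.e (nat_lit 7936) (nat_lit 3) (.e (nat_lit 98372) (nat_lit 29) (.e (nat_lit 450579) (nat_lit 5) (.e (nat_lit 532545) (nat_lit 10) .nil)))) .nil))) (.nd (nat_lit 5) 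
(.lf (nat_lit 1300) (.g (nat_lit 577) (.e (nat_lit 7936) (nat_lit 3) (.e (nat_lit 98359) (nat_lit 26) (.e (nat_lit 426324) (nat_lit 13) .nil))) .nil)) 
(.lf (nat_lit 1332) (.g (nat_lit 2230) (.e (nat_lit 7936) (nat_lit 4) (.e (nat_lit 106534) (nat_lit 11) (.e (nat_lit 16463) (nat_lit 13) (.e (nat_lit 483408) (nat_lit 26) (.e (nat_lit 385100) (nat_lit 49) .nil))))) .nil)))) (.nd (nat_lit 4) (.nd (nat_lit 5) 
(.lf (nat_lit 1292) (.g (nat_lit 3446) (.e (nat_lit 113) (nat_lit 3) (.e (nat_lit 98373) (nat_lit 29) (.e (nat_lit 450563) (nat_lit 0) (.e (nat_lit 6736) (nat_lit 365) .nil)))) .nil)) 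
(.lf (nat_lit 1324) (.g (nat_lit 2442) (.e (nat_lit 118) (nat_lit 4) (.e (nat_lit 106536) (nat_lit 11) (.e (nat_lit 16412) (nat_lit 2) (.e (nat_lit 196668) (nat_lit 14) .nil)))) .nil))) (.nd (nat_lit 5) 
(.lf (nat_lit 1308) (.g (nat_lit 2689) (.e (nat_lit 7936) (nat_lit 3) (.e (nat_lit 98370) (nat_lit 28) (.e (nat_lit 442427) (nat_lit 23) (.e (nat_lit 204863) (nat_lit 27) (.e (nat_lit 344163) (nat_lit 37) .nil))))) .nil)) 
(.lf (nat_lit 1340) (.g (nat_lit 3067) (.e (nat_lit 122) (nat_lit 5) (.e (nat_lit 114711) (nat_lit 21) (.e (nat_lit 57847) (nat_lit 252) (.e (nat_lit 57430) (nat_lit 16) (.e (nat_lit 368676) (nat_lit 21) (.e (nat_lit 516131) (nat_lit 3) (.e (nat_lit 221219) (nat_lit 24) (.e (nat_lit 213003) (nat_lit 9) .nil)))))))) (.g (nat_lit 8) .nil .nil))))))) 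
(.nd (nat_lit 2) (.nd (nat_lit 3) (.nd (nat_lit 4) (.nd (nat_lit 5) 
(.lf (nat_lit 1282) (.g (nat_lit 765) (.e (nat_lit 113) (nat_lit 3) (.e (nat_lit 98367) (nat_lit 27) (.e (nat_lit 434231) (nat_lit 23) .nil))) .nil)) 
(.lf (nat_lit 1314) (.g (nat_lit 1775) (.e (nat_lit 7936) (nat_lit 3) (.e (nat_lit 98372) (nat_lit 29) (.e (nat_lit 450579) (nat_lit 5) (.e (nat_lit 532543) (nat_lit 10) (.e (nat_lit 344164) (nat_lit 37) .nil))))) .nil))) (.nd (nat_lit 5) 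
(.lf (nat_lit 1298) (.g (nat_lit 774) (.e (nat_lit 7936) (nat_lit 3) (.e (nat_lit 98359) (nat_lit 26) (.e (nat_lit 426132) (nat_lit 3) .nil))) .nil)) 
(.lf (nat_lit 1330) (.g (nat_lit 2147) (.e (nat_lit 120) (nat_lit 4) (.e (nat_lit 106534) (nat_lit 11) (.e (nat_lit 16425) (nat_lit 7) (.e (nat_lit 409649) (nat_lit 18) (.e (nat_lit 303140) (nat_lit 10) .nil))))) .nil)))) (.nd (nat_lit 4) (.nd (nat_lit 5) 
(.lf (nat_lit 1290) (.g (nat_lit 3536) (.e (nat_lit 113) (nat_lit 3) (.e (nat_lit 98373) (nat_lit 29) (.e (nat_lit 450562) (nat_lit 0) (.e (nat_lit 6806) (nat_lit 365) .nil)))) .nil)) 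
(.lf (nat_lit 1322) (.g (nat_lit 3463) (.e (nat_lit 117) (nat_lit 4) (.e (nat_lit 106536) (nat_lit 11) (.e (nat_lit 16463) (nat_lit 13) (.e (nat_lit 483408) (nat_lit 26) (.e (nat_lit 385100) (nat_lit 49) .nil))))) .nil))) (.nd (nat_lit 5) 
(.lf (nat_lit 1306) (.g (nat_lit 2510) (.e (nat_lit 7936) (nat_lit 3) (.e (nat_lit 98370) (nat_lit 28) (.e (nat_lit 442427) (nat_lit 23) (.e (nat_lit 204863) (nat_lit 27) (.e (nat_lit 344160) (nat_lit 37) .nil))))) .nil)) 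
(.lf (nat_lit 1338) (.g (nat_lit 2232) (.e (nat_lit 122) (nat_lit 5) (.e (nat_lit 114710) (nat_lit 21) (.e (nat_lit 57847) (nat_lit 252) (.e (nat_lit 57432) (nat_lit 16) (.e (nat_lit 368676) (nat_lit 21) (.e (nat_lit 516131) (nat_lit 3) (.e (nat_lit 221219) (nat_lit 24) (.e (nat_lit 213003) (nat_lit 9) .nil)))))))) (.g (nat_lit 6) .nil .nil)))))) (.nd (nat_lit 3) (.nd (nat_lit 4) (.nd (nat_lit 5) 
(.lf (nat_lit 1286) (.g (nat_lit 1842) (.e (nat_lit 113) (nat_lit 3) (.e (nat_lit 98372) (nat_lit 29) (.e (nat_lit 450579) (nat_lit 5) (.e (nat_lit 532543) (nat_lit 10) .nil)))) .nil)) 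
(.lf (nat_lit 1318) (.g (nat_lit 1460) (.e (nat_lit 7936) (nat_lit 3) (.e (nat_lit 98372) (nat_lit 29) (.e (nat_lit 450579) (nat_lit 5) (.e (nat_lit 532553) (nat_lit 13) .nil)))) .nil))) (.nd (nat_lit 5) 
(.lf (nat_lit 1302) (.g (nat_lit 1036) (.e (nat_lit 7936) (nat_lit 3) (.e (nat_lit 98365) (nat_lit 26) (.e (nat_lit 426325) (nat_lit 13) (.e (nat_lit 483333) (nat_lit 0) .nil)))) .nil)) 
(.lf (nat_lit 1334) (.g (nat_lit 3100) (.e (nat_lit 7936) (nat_lit 4) (.e (nat_lit 106536) (nat_lit 11) (.e (nat_lit 16436) (nat_lit 9) (.e (nat_lit 426555) (nat_lit 32) (.e (nat_lit 376836) (nat_lit 0) .nil))))) .nil)))) (.nd (nat_lit 4) (.nd (nat_lit 5) 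
(.lf (nat_lit 1294) (.g (nat_lit 3438) (.e (nat_lit 113) (nat_lit 3) (.e (nat_lit 98373) (nat_lit 29) (.e (nat_lit 450563) (nat_lit 0) (.e (nat_lit 6745) (nat_lit 365) .nil)))) .nil)) 
(.lf (nat_lit 1326) (.g (nat_lit 826) (.e (nat_lit 118) (nat_lit 4) (.e (nat_lit 106536) (nat_lit 11) (.e (nat_lit 16463) (nat_lit 13) .nil))) .nil))) (.nd (nat_lit 5) 
(.lf (nat_lit 1310) (.g (nat_lit 2164) (.e (nat_lit 7936) (nat_lit 3) (.e (nat_lit 98372) (nat_lit 29) (.e (nat_lit 450579) (nat_lit 5) (.e (nat_lit 532530) (nat_lit 9) (.e (nat_lit 335878) (nat_lit 0) .nil))))) .nil)) 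
(.lf (nat_lit 1342) (.g (nat_lit 3126) (.e (nat_lit 122) (nat_lit 5) (.e (nat_lit 114711) (nat_lit 21) (.e (nat_lit 57847) (nat_lit 252) (.e (nat_lit 57432) (nat_lit 16) (.e (nat_lit 368676) (nat_lit 21) (.e (nat_lit 516131) (nat_lit 3) (.e (nat_lit 221219) (nat_lit 24) (.e (nat_lit 213003) (nat_lit 9) .nil)))))))) (.g (nat_lit 8) .nil .nil)))))))) 
(.nd (nat_lit 1) (.nd (nat_lit 2) (.nd (nat_lit 3) (.nd (nat_lit 4) (.nd (nat_lit 5) 
(.lf (nat_lit 1281) (.g (nat_lit 1518) (.e (nat_lit 113) (nat_lit 3) (.e (nat_lit 98365) (nat_lit 26) (.e (nat_lit 426325) (nat_lit 13) (.e (nat_lit 483333) (nat_lit 0) .nil)))) .nil)) 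
(.lf (nat_lit 1313) (.g (nat_lit 1501) (.e (nat_lit 7936) (nat_lit 3) (.e (nat_lit 98372) (nat_lit 29) (.e (nat_lit 450579) (nat_lit 5) (.e (nat_lit 532543) (nat_lit 10) .nil)))) .nil))) (.nd (nat_lit 5) 
(.lf (nat_lit 1297) (.g (nat_lit 1223) (.e (nat_lit 113) (nat_lit 3) (.e (nat_lit 98373) (nat_lit 29) (.e (nat_lit 450566) (nat_lit 0) .nil))) .nil)) 
(.lf (nat_lit 1329) (.g (nat_lit 1463) (.e (nat_lit 119) (nat_lit 4) (.e (nat_lit 106536) (nat_lit 11) (.e (nat_lit 16466) (nat_lit 13) .nil))) .nil)))) (.nd (nat_lit 4) (.nd (nat_lit 5) 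
(.lf (nat_lit 1289) (.g (nat_lit 835) (.e (nat_lit 113) (nat_lit 3) (.e (nat_lit 98373) (nat_lit 29) (.e (nat_lit 450562) (nat_lit 0) .nil))) .nil)) 
(.lf (nat_lit 1321) (.g (nat_lit 1032) (.e (nat_lit 116) (nat_lit 4) (.e (nat_lit 106536) (nat_lit 11) (.e (nat_lit 16438) (nat_lit 9) .nil))) .nil))) (.nd (nat_lit 5) 
(.lf (nat_lit 1305) (.g (nat_lit 1485) (.e (nat_lit 7936) (nat_lit 3) (.e (nat_lit 98370) (nat_lit 28) (.e (nat_lit 442427) (nat_lit 23) (.e (nat_lit 204863) (nat_lit 27) .nil)))) .nil)) 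
(.lf (nat_lit 1337) (.g (nat_lit 1645) (.e (nat_lit 122) (nat_lit 5) (.e (nat_lit 114710) (nat_lit 21) (.e (nat_lit 57830) (nat_lit 250) (.e (nat_lit 1214) (nat_lit 89) (.e (nat_lit 73746) (nat_lit 3) (.e (nat_lit 516131) (nat_lit 3) (.e (nat_lit 221219) (nat_lit 24) (.e (nat_lit 213000) (nat_lit 9) .nil)))))))) (.g (nat_lit 4) .nil .nil)))))) (.nd (nat_lit 3) (.nd (nat_lit 4) (.nd (nat_lit 5) 
(.lf (nat_lit 1285) (.g (nat_lit 1755) (.e (nat_lit 113) (nat_lit 3) (.e (nat_lit 98372) (nat_lit 29) (.e (nat_lit 450579) (nat_lit 5) (.e (nat_lit 532530) (nat_lit 9) .nil)))) .nil)) 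
(.lf (nat_lit 1317) (.g (nat_lit 1826) (.e (nat_lit 7936) (nat_lit 3) (.e (nat_lit 98372) (nat_lit 29) (.e (nat_lit 450579) (nat_lit 5) (.e (nat_lit 532545) (nat_lit 10) (.e (nat_lit 344164) (nat_lit 37) .nil))))) .nil))) (.nd (nat_lit 5) 
(.lf (nat_lit 1301) (.g (nat_lit 1377) (.e (nat_lit 7936) (nat_lit 3) (.e (nat_lit 98365) (nat_lit 26) (.e (nat_lit 426298) (nat_lit 11) (.e (nat_lit 458789) (nat_lit 23) (.e (nat_lit 532555) (nat_lit 13) .nil))))) .nil)) 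
(.lf (nat_lit 1333) (.g (nat_lit 964) (.e (nat_lit 7936) (nat_lit 4) (.e (nat_lit 106536) (nat_lit 11) (.e (nat_lit 16412) (nat_lit 2) (.e (nat_lit 196666) (nat_lit 13) .nil)))) .nil)))) (.nd (nat_lit 4) (.nd (nat_lit 5) 
(.lf (nat_lit 1293) (.g (nat_lit 3269) (.e (nat_lit 113) (nat_lit 3) (.e (nat_lit 98373) (nat_lit 29) (.e (nat_lit 450563) (nat_lit 0) (.e (nat_lit 6740) (nat_lit 365) .nil)))) .nil)) 
(.lf (nat_lit 1325) (.g (nat_lit 1427) (.e (nat_lit 118) (nat_lit 4) (.e (nat_lit 106536) (nat_lit 11) (.e (nat_lit 16416) (nat_lit 3) .nil))) .nil))) (.nd (nat_lit 5) 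
(.lf (nat_lit 1309) (.g (nat_lit 429) (.e (nat_lit 7936) (nat_lit 3) (.e (nat_lit 98372) (nat_lit 29) (.e (nat_lit 450579) (nat_lit 5) .nil))) .nil)) 
(.lf (nat_lit 1341) (.g (nat_lit 3262) (.e (nat_lit 122) (nat_lit 5) (.e (nat_lit 114711) (nat_lit 21) (.e (nat_lit 57847) (nat_lit 252) (.e (nat_lit 57432) (nat_lit 16) (.e (nat_lit 368676) (nat_lit 21) (.e (nat_lit 516131) (nat_lit 3) (.e (nat_lit 221219) (nat_lit 24) (.e (nat_lit 213000) (nat_lit 9) .nil)))))))) (.g (nat_lit 0) .nil .nil))))))) 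
(.nd (nat_lit 2) (.nd (nat_lit 3) (.nd (nat_lit 4) (.nd (nat_lit 5) 
(.lf (nat_lit 1283) (.g (nat_lit 1682) (.e (nat_lit 113) (nat_lit 3) (.e (nat_lit 98367) (nat_lit 27) (.e (nat_lit 434247) (nat_lit 28) (.e (nat_lit 573489) (nat_lit 14) .nil)))) .nil)) 
(.lf (nat_lit 1315) (.g (nat_lit 1848) (.e (nat_lit 7936) (nat_lit 3) (.e (nat_lit 98372) (nat_lit 29) (.e (nat_lit 450579) (nat_lit 5) (.e (nat_lit 532544) (nat_lit 10) .nil)))) .nil))) (.nd (nat_lit 5) 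
(.lf (nat_lit 1299) (.g (nat_lit 1505) (.e (nat_lit 7936) (nat_lit 3) (.e (nat_lit 98359) (nat_lit 26) (.e (nat_lit 426286) (nat_lit 10) (.e (nat_lit 434295) (nat_lit 49) (.e (nat_lit 745492) (nat_lit 5) .nil))))) .nil)) 
(.lf (nat_lit 1331) (.g (nat_lit 770) (.e (nat_lit 120) (nat_lit 4) (.e (nat_lit 106534) (nat_lit 11) (.e (nat_lit 16463) (nat_lit 13) .nil))) .nil)))) (.nd (nat_lit 4) (.nd (nat_lit 5) 
(.lf (nat_lit 1291) (.g (nat_lit 848) (.e (nat_lit 113) (nat_lit 3) (.e (nat_lit 98373) (nat_lit 29) (.e (nat_lit 450563) (nat_lit 0) .nil))) .nil)) 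
(.lf (nat_lit 1323) (.g (nat_lit 1463) (.e (nat_lit 117) (nat_lit 4) (.e (nat_lit 106536) (nat_lit 11) (.e (nat_lit 16466) (nat_lit 13) .nil))) .nil))) (.nd (nat_lit 5) 
(.lf (nat_lit 1307) (.g (nat_lit 2659) (.e (nat_lit 7936) (nat_lit 3) (.e (nat_lit 98370) (nat_lit 28) (.e (nat_lit 442427) (nat_lit 23) (.e (nat_lit 204863) (nat_lit 27) (.e (nat_lit 344161) (nat_lit 37) .nil))))) .nil)) 
(.lf (nat_lit 1339) (.g (nat_lit 3203) (.e (nat_lit 122) (nat_lit 5) (.e (nat_lit 114711) (nat_lit 21) (.e (nat_lit 57847) (nat_lit 252) (.e (nat_lit 57430) (nat_lit 16) (.e (nat_lit 368676) (nat_lit 21) (.e (nat_lit 516131) (nat_lit 3) (.e (nat_lit 221219) (nat_lit 24) (.e (nat_lit 213000) (nat_lit 9) .nil)))))))) (.g (nat_lit 0) .nil .nil)))))) (.nd (nat_lit 3) (.nd (nat_lit 4) (.nd (nat_lit 5) 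
(.lf (nat_lit 1287) (.g (nat_lit 1810) (.e (nat_lit 113) (nat_lit 3) (.e (nat_lit 98372) (nat_lit 29) (.e (nat_lit 450579) (nat_lit 5) (.e (nat_lit 532553) (nat_lit 13) .nil)))) .nil)) 
(.lf (nat_lit 1319) (.g (nat_lit 1426) (.e (nat_lit 7936) (nat_lit 3) (.e (nat_lit 98372) (nat_lit 29) (.e (nat_lit 450579) (nat_lit 5) (.e (nat_lit 532555) (nat_lit 13) .nil)))) .nil))) (.nd (nat_lit 5) 
(.lf (nat_lit 1303) (.g (nat_lit 975) (.e (nat_lit 7936) (nat_lit 3) (.e (nat_lit 98370) (nat_lit 28) (.e (nat_lit 442390) (nat_lit 11) (.e (nat_lit 336288) (nat_lit 15) .nil)))) .nil)) 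
(.lf (nat_lit 1335) (.g (nat_lit 2110) (.e (nat_lit 7936) (nat_lit 4) (.e (nat_lit 106536) (nat_lit 11) (.e (nat_lit 16466) (nat_lit 13) (.e (nat_lit 483408) (nat_lit 26) (.e (nat_lit 385100) (nat_lit 49) .nil))))) .nil)))) (.nd (nat_lit 4) (.nd (nat_lit 5) 
(.lf (nat_lit 1295) (.g (nat_lit 3380) (.e (nat_lit 113) (nat_lit 3) (.e (nat_lit 98373) (nat_lit 29) (.e (nat_lit 450563) (nat_lit 0) (.e (nat_lit 6806) (nat_lit 365) .nil)))) .nil)) 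
(.lf (nat_lit 1327) (.g (nat_lit 2269) (.e (nat_lit 118) (nat_lit 4) (.e (nat_lit 106536) (nat_lit 11) (.e (nat_lit 16463) (nat_lit 13) (.e (nat_lit 483408) (nat_lit 26) .nil)))) .nil))) (.nd (nat_lit 5) 
(.lf (nat_lit 1311) (.g (nat_lit 1818) (.e (nat_lit 7936) (nat_lit 3) (.e (nat_lit 98372) (nat_lit 29) (.e (nat_lit 450579) (nat_lit 5) (.e (nat_lit 532533) (nat_lit 9) (.e (nat_lit 335878) (nat_lit 0) .nil))))) .nil)) 
(.lf (nat_lit 1343) (.g (nat_lit 1403) (.e (nat_lit 122) (nat_lit 5) (.e (nat_lit 114712) (nat_lit 21) (.e (nat_lit 57830) (nat_lit 250) (.e (nat_lit 1214) (nat_lit 89) (.e (nat_lit 73746) (nat_lit 3) .nil))))) .nil))))))))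

noncomputable def tv018 : DT := (.nd (nat_lit 0) (.nd (nat_lit 1) (.nd (nat_lit 2) (.nd (nat_lit 3) (.nd (nat_lit 4) (.nd (nat_lit 5) 
(.lf (nat_lit 1344) (.g (nat_lit 1955) (.e (nat_lit 122) (nat_lit 5) (.e (nat_lit 114712) (nat_lit 21) (.e (nat_lit 57830) (nat_lit 250) (.e (nat_lit 1214) (nat_lit 89) (.e (nat_lit 73746) (nat_lit 3) (.e (nat_lit 516131) (nat_lit 3) (.e (nat_lit 221219) (nat_lit 24) (.e (nat_lit 213003) (nat_lit 9) .nil)))))))) (.g (nat_lit 5) .nil .nil))) 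
(.lf (nat_lit 1376) (.g (nat_lit 1761) (.e (nat_lit 124) (nat_lit 5) (.e (nat_lit 114710) (nat_lit 21) (.e (nat_lit 57852) (nat_lit 252) (.e (nat_lit 57431) (nat_lit 16) (.e (nat_lit 368676) (nat_lit 21) (.e (nat_lit 516131) (nat_lit 3) (.e (nat_lit 221218) (nat_lit 24) (.e (nat_lit 213003) (nat_lit 9) .nil)))))))) (.g (nat_lit 4) .nil .nil)))) (.nd (nat_lit 5) 
(.lf (nat_lit 1360) (.g (nat_lit 1232) (.e (nat_lit 123) (nat_lit 5) (.e (nat_lit 114723) (nat_lit 24) (.e (nat_lit 106533) (nat_lit 10) (.e (nat_lit 16128) (nat_lit 13) (.e (nat_lit 516151) (nat_lit 9) (.e (nat_lit 426211) (nat_lit 9) (.e (nat_lit 426125) (nat_lit 2) (.e (nat_lit 204544) (nat_lit 0) .nil)))))))) (.g (nat_lit 7) .nil .nil))) 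
(.lf (nat_lit 1392) (.g (nat_lit 3275) (.e (nat_lit 124) (nat_lit 5) (.e (nat_lit 114711) (nat_lit 21) (.e (nat_lit 57847) (nat_lit 252) (.e (nat_lit 57432) (nat_lit 16) (.e (nat_lit 368676) (nat_lit 21) (.e (nat_lit 516131) (nat_lit 3) (.e (nat_lit 221219) (nat_lit 24) (.e (nat_lit 213000) (nat_lit 9) .nil)))))))) (.g (nat_lit 8) .nil .nil))))) (.nd (nat_lit 4) (.nd (nat_lit 5) 
(.lf (nat_lit 1352) (.g (nat_lit 3079) (.e (nat_lit 123) (nat_lit 5) (.e (nat_lit 114711) (nat_lit 21) (.e (nat_lit 57847) (nat_lit 252) (.e (nat_lit 57407) (nat_lit 12) (.e (nat_lit 336019) (nat_lit 3) (.e (nat_lit 98342) (nat_lit 20) (.e (nat_lit 221219) (nat_lit 24) (.e (nat_lit 213001) (nat_lit 9) .nil)))))))) (.g (nat_lit 4) .nil .nil))) 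
(.lf (nat_lit 1384) (.g (nat_lit 3212) (.e (nat_lit 124) (nat_lit 5) (.e (nat_lit 114711) (nat_lit 21) (.e (nat_lit 57847) (nat_lit 252) (.e (nat_lit 57430) (nat_lit 16) (.e (nat_lit 368676) (nat_lit 21) (.e (nat_lit 516131) (nat_lit 3) (.e (nat_lit 221219) (nat_lit 24) (.e (nat_lit 213000) (nat_lit 9) .nil)))))))) (.g (nat_lit 8) .nil .nil)))) (.nd (nat_lit 5) 
(.lf (nat_lit 1368) (.g (nat_lit 1748) (.e (nat_lit 124) (nat_lit 5) (.e (nat_lit 114710) (nat_lit 21) (.e (nat_lit 57847) (nat_lit 252) (.e (nat_lit 57432) (nat_lit 16) (.e (nat_lit 368676) (nat_lit 21) (.e (nat_lit 516131) (nat_lit 3) (.e (nat_lit 221218) (nat_lit 24) (.e (nat_lit 213004) (nat_lit 9) .nil)))))))) (.g (nat_lit 5) .nil .nil))) 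
(.lf (nat_lit 1400) (.g (nat_lit 1446) (.e (nat_lit 124) (nat_lit 5) (.e (nat_lit 114714) (nat_lit 22) (.e (nat_lit 90185) (nat_lit 17) (.e (nat_lit 237587) (nat_lit 2) .nil)))) .nil))))) (.nd (nat_lit 3) (.nd (nat_lit 4) (.nd (nat_lit 5) 
(.lf (nat_lit 1348) (.g (nat_lit 1551) (.e (nat_lit 122) (nat_lit 5) (.e (nat_lit 114719) (nat_lit 23) (.e (nat_lit 98365) (nat_lit 26) (.e (nat_lit 426114) (nat_lit 2) .nil)))) .nil)) 
(.lf (nat_lit 1380) (.g (nat_lit 2732) (.e (nat_lit 124) (nat_lit 5) (.e (nat_lit 114711) (nat_lit 21) (.e (nat_lit 57847) (nat_lit 252) (.e (nat_lit 57430) (nat_lit 16) (.e (nat_lit 368676) (nat_lit 21) (.e (nat_lit 516131) (nat_lit 3) (.e (nat_lit 221218) (nat_lit 24) (.e (nat_lit 213001) (nat_lit 9) .nil)))))))) (.g (nat_lit 6) .nil .nil)))) (.nd (nat_lit 5) 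
(.lf (nat_lit 1364) (.g (nat_lit 2924) (.e (nat_lit 124) (nat_lit 5) (.e (nat_lit 114710) (nat_lit 21) (.e (nat_lit 57847) (nat_lit 252) (.e (nat_lit 57430) (nat_lit 16) (.e (nat_lit 368676) (nat_lit 21) (.e (nat_lit 516131) (nat_lit 3) (.e (nat_lit 221219) (nat_lit 24) (.e (nat_lit 213001) (nat_lit 9) .nil)))))))) (.g (nat_lit 8) .nil .nil))) 
(.lf (nat_lit 1396) (.g (nat_lit 2087) (.e (nat_lit 124) (nat_lit 5) (.e (nat_lit 114712) (nat_lit 21) (.e (nat_lit 57830) (nat_lit 250) (.e (nat_lit 1214) (nat_lit 89) (.e (nat_lit 73746) (nat_lit 3) (.e (nat_lit 516131) (nat_lit 3) (.e (nat_lit 221219) (nat_lit 24) (.e (nat_lit 213001) (nat_lit 9) .nil)))))))) (.g (nat_lit 5) .nil .nil))))) (.nd (nat_lit 4) (.nd (nat_lit 5) 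
(.lf (nat_lit 1356) (.g (nat_lit 830) (.e (nat_lit 123) (nat_lit 5) (.e (nat_lit 114719) (nat_lit 23) (.e (nat_lit 98317) (nat_lit 9) .nil))) .nil)) 
(.lf (nat_lit 1388) (.g (nat_lit 2764) (.e (nat_lit 124) (nat_lit 5) (.e (nat_lit 114711) (nat_lit 21) (.e (nat_lit 57847) (nat_lit 252) (.e (nat_lit 57432) (nat_lit 16) (.e (nat_lit 368676) (nat_lit 21) (.e (nat_lit 516131) (nat_lit 3) (.e (nat_lit 221218) (nat_lit 24) (.e (nat_lit 213001) (nat_lit 9) .nil)))))))) (.g (nat_lit 6) .nil .nil)))) (.nd (nat_lit 5) 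
(.lf (nat_lit 1372) (.g (nat_lit 2793) (.e (nat_lit 124) (nat_lit 5) (.e (nat_lit 114710) (nat_lit 21) (.e (nat_lit 57847) (nat_lit 252) (.e (nat_lit 57432) (nat_lit 16) (.e (nat_lit 368676) (nat_lit 21) (.e (nat_lit 516131) (nat_lit 3) (.e (nat_lit 221219) (nat_lit 24) (.e (nat_lit 213003) (nat_lit 9) .nil)))))))) (.g (nat_lit 8) .nil .nil))) 
(.lf (nat_lit 1404) (.g (nat_lit 2562) (.e (nat_lit 124) (nat_lit 5) (.e (nat_lit 114718) (nat_lit 23) (.e (nat_lit 98365) (nat_lit 26) (.e (nat_lit 426116) (nat_lit 2) (.e (nat_lit 196624) (nat_lit 9) .nil))))) .nil)))))) (.nd (nat_lit 2) (.nd (nat_lit 3) (.nd (nat_lit 4) (.nd (nat_lit 5) 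
(.lf (nat_lit 1346) (.g (nat_lit 1129) (.e (nat_lit 122) (nat_lit 5) (.e (nat_lit 114716) (nat_lit 22) (.e (nat_lit 90185) (nat_lit 17) (.e (nat_lit 237587) (nat_lit 2) .nil)))) .nil)) 
(.lf (nat_lit 1378) (.g (nat_lit 1633) (.e (nat_lit 124) (nat_lit 5) (.e (nat_lit 114710) (nat_lit 21) (.e (nat_lit 57854) (nat_lit 252) (.e (nat_lit 57431) (nat_lit 16) (.e (nat_lit 368676) (nat_lit 21) (.e (nat_lit 516131) (nat_lit 3) (.e (nat_lit 221219) (nat_lit 24) (.e (nat_lit 213000) (nat_lit 9) .nil)))))))) (.g (nat_lit 4) .nil .nil)))) (.nd (nat_lit 5) 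
(.lf (nat_lit 1362) (.g (nat_lit 2715) (.e (nat_lit 124) (nat_lit 5) (.e (nat_lit 114710) (nat_lit 21) (.e (nat_lit 57847) (nat_lit 252) (.e (nat_lit 57430) (nat_lit 16) (.e (nat_lit 368676) (nat_lit 21) (.e (nat_lit 516131) (nat_lit 3) (.e (nat_lit 221218) (nat_lit 24) (.e (nat_lit 213003) (nat_lit 9) .nil)))))))) (.g (nat_lit 8) .nil .nil))) 
(.lf (nat_lit 1394) (.g (nat_lit 3176) (.e (nat_lit 124) (nat_lit 5) (.e (nat_lit 114711) (nat_lit 21) (.e (nat_lit 57847) (nat_lit 252) (.e (nat_lit 57432) (nat_lit 16) (.e (nat_lit 368676) (nat_lit 21) (.e (nat_lit 516131) (nat_lit 3) (.e (nat_lit 221219) (nat_lit 24) (.e (nat_lit 213003) (nat_lit 9) .nil)))))))) (.g (nat_lit 7) .nil .nil))))) (.nd (nat_lit 4) (.nd (nat_lit 5) 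
(.lf (nat_lit 1354) (.g (nat_lit 2772) (.e (nat_lit 123) (nat_lit 5) (.e (nat_lit 114711) (nat_lit 21) (.e (nat_lit 57847) (nat_lit 252) (.e (nat_lit 57430) (nat_lit 16) (.e (nat_lit 368676) (nat_lit 21) (.e (nat_lit 516131) (nat_lit 3) (.e (nat_lit 221219) (nat_lit 24) (.e (nat_lit 213001) (nat_lit 9) .nil)))))))) (.g (nat_lit 6) .nil .nil))) 
(.lf (nat_lit 1386) (.g (nat_lit 3113) (.e (nat_lit 124) (nat_lit 5) (.e (nat_lit 114711) (nat_lit 21) (.e (nat_lit 57847) (nat_lit 252) (.e (nat_lit 57430) (nat_lit 16) (.e (nat_lit 368676) (nat_lit 21) (.e (nat_lit 516131) (nat_lit 3) (.e (nat_lit 221219) (nat_lit 24) (.e (nat_lit 213003) (nat_lit 9) .nil)))))))) (.g (nat_lit 7) .nil .nil)))) (.nd (nat_lit 5) 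
(.lf (nat_lit 1370) (.g (nat_lit 2912) (.e (nat_lit 124) (nat_lit 5) (.e (nat_lit 114710) (nat_lit 21) (.e (nat_lit 57847) (nat_lit 252) (.e (nat_lit 57432) (nat_lit 16) (.e (nat_lit 368676) (nat_lit 21) (.e (nat_lit 516131) (nat_lit 3) (.e (nat_lit 221219) (nat_lit 24) (.e (nat_lit 213000) (nat_lit 9) .nil)))))))) (.g (nat_lit 0) .nil .nil))) 
(.lf (nat_lit 1402) (.g (nat_lit 1532) (.e (nat_lit 124) (nat_lit 5) (.e (nat_lit 114718) (nat_lit 23) (.e (nat_lit 98365) (nat_lit 26) (.e (nat_lit 426115) (nat_lit 2) .nil)))) .nil))))) (.nd (nat_lit 3) (.nd (nat_lit 4) (.nd (nat_lit 5) 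
(.lf (nat_lit 1350) (.g (nat_lit 2010) (.e (nat_lit 122) (nat_lit 5) (.e (nat_lit 114719) (nat_lit 23) (.e (nat_lit 98365) (nat_lit 26) (.e (nat_lit 426115) (nat_lit 2) (.e (nat_lit 196656) (nat_lit 11) .nil))))) .nil)) 
(.lf (nat_lit 1382) (.g (nat_lit 2055) (.e (nat_lit 124) (nat_lit 5) (.e (nat_lit 114711) (nat_lit 21) (.e (nat_lit 57847) (nat_lit 252) (.e (nat_lit 57430) (nat_lit 16) (.e (nat_lit 368676) (nat_lit 21) (.e (nat_lit 516131) (nat_lit 3) (.e (nat_lit 221218) (nat_lit 24) (.e (nat_lit 213004) (nat_lit 9) .nil)))))))) (.g (nat_lit 5) .nil .nil)))) (.nd (nat_lit 5) 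
(.lf (nat_lit 1366) (.g (nat_lit 2418) (.e (nat_lit 124) (nat_lit 5) (.e (nat_lit 114710) (nat_lit 21) (.e (nat_lit 57847) (nat_lit 252) (.e (nat_lit 57430) (nat_lit 16) (.e (nat_lit 368676) (nat_lit 21) (.e (nat_lit 516131) (nat_lit 3) (.e (nat_lit 221219) (nat_lit 24) (.e (nat_lit 213006) (nat_lit 9) .nil)))))))) (.g (nat_lit 6) .nil .nil))) 
(.lf (nat_lit 1398) (.g (nat_lit 1558) (.e (nat_lit 124) (nat_lit 5) (.e (nat_lit 114712) (nat_lit 21) (.e (nat_lit 57830) (nat_lit 250) (.e (nat_lit 1214) (nat_lit 89) (.e (nat_lit 73746) (nat_lit 3) (.e (nat_lit 516131) (nat_lit 3) (.e (nat_lit 221219) (nat_lit 24) (.e (nat_lit 213006) (nat_lit 9) .nil)))))))) (.g (nat_lit 4) .nil .nil))))) (.nd (nat_lit 4) (.nd (nat_lit 5) 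
(.lf (nat_lit 1358) (.g (nat_lit 1944) (.e (nat_lit 123) (nat_lit 5) (.e (nat_lit 114719) (nat_lit 23) (.e (nat_lit 98317) (nat_lit 9) (.e (nat_lit 336100) (nat_lit 9) .nil)))) .nil)) 
(.lf (nat_lit 1390) (.g (nat_lit 2087) (.e (nat_lit 124) (nat_lit 5) (.e (nat_lit 114711) (nat_lit 21) (.e (nat_lit 57847) (nat_lit 252) (.e (nat_lit 57432) (nat_lit 16) (.e (nat_lit 368676) (nat_lit 21) (.e (nat_lit 516131) (nat_lit 3) (.e (nat_lit 221218) (nat_lit 24) (.e (nat_lit 213004) (nat_lit 9) .nil)))))))) (.g (nat_lit 5) .nil .nil)))) (.nd (nat_lit 5) 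
(.lf (nat_lit 1374) (.g (nat_lit 1443) (.e (nat_lit 124) (nat_lit 5) (.e (nat_lit 114710) (nat_lit 21) (.e (nat_lit 57852) (nat_lit 252) (.e (nat_lit 57421) (nat_lit 13) .nil)))) .nil)) 
(.lf (nat_lit 1406) (.g (nat_lit 1637) (.e (nat_lit 125) (nat_lit 5) (.e (nat_lit 114710) (nat_lit 21) (.e (nat_lit 57830) (nat_lit 250) (.e (nat_lit 1214) (nat_lit 89) (.e (nat_lit 73746) (nat_lit 3) .nil))))) .nil))))))) (.nd (nat_lit 1) (.nd (nat_lit 2) (.nd (nat_lit 3) (.nd (nat_lit 4) (.nd (nat_lit 5) 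
(.lf (nat_lit 1345) (.g (nat_lit 1448) (.e (nat_lit 122) (nat_lit 5) (.e (nat_lit 114714) (nat_lit 22) (.e (nat_lit 90185) (nat_lit 17) (.e (nat_lit 237587) (nat_lit 2) .nil)))) .nil)) 
(.lf (nat_lit 1377) (.g (nat_lit 1787) (.e (nat_lit 124) (nat_lit 5) (.e (nat_lit 114710) (nat_lit 21) (.e (nat_lit 57852) (nat_lit 252) (.e (nat_lit 57431) (nat_lit 16) (.e (nat_lit 368676) (nat_lit 21) (.e (nat_lit 516131) (nat_lit 3) (.e (nat_lit 221218) (nat_lit 24) (.e (nat_lit 213007) (nat_lit 9) .nil)))))))) (.g (nat_lit 4) .nil .nil)))) (.nd (nat_lit 5) 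
(.lf (nat_lit 1361) (.g (nat_lit 2558) (.e (nat_lit 124) (nat_lit 5) (.e (nat_lit 114710) (nat_lit 21) (.e (nat_lit 57847) (nat_lit 252) (.e (nat_lit 57430) (nat_lit 16) (.e (nat_lit 368676) (nat_lit 21) (.e (nat_lit 516131) (nat_lit 3) (.e (nat_lit 221218) (nat_lit 24) (.e (nat_lit 213001) (nat_lit 9) .nil)))))))) (.g (nat_lit 7) .nil .nil))) 
(.lf (nat_lit 1393) (.g (nat_lit 3162) (.e (nat_lit 124) (nat_lit 5) (.e (nat_lit 114711) (nat_lit 21) (.e (nat_lit 57847) (nat_lit 252) (.e (nat_lit 57432) (nat_lit 16) (.e (nat_lit 368676) (nat_lit 21) (.e (nat_lit 516131) (nat_lit 3) (.e (nat_lit 221219) (nat_lit 24) (.e (nat_lit 213001) (nat_lit 9) .nil)))))))) (.g (nat_lit 7) .nil .nil))))) (.nd (nat_lit 4) (.nd (nat_lit 5) 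
(.lf (nat_lit 1353) (.g (nat_lit 2686) (.e (nat_lit 123) (nat_lit 5) (.e (nat_lit 114711) (nat_lit 21) (.e (nat_lit 57847) (nat_lit 252) (.e (nat_lit 57430) (nat_lit 16) (.e (nat_lit 368676) (nat_lit 21) (.e (nat_lit 516131) (nat_lit 3) (.e (nat_lit 221219) (nat_lit 24) (.e (nat_lit 213000) (nat_lit 9) .nil)))))))) (.g (nat_lit 6) .nil .nil))) 
(.lf (nat_lit 1385) (.g (nat_lit 3099) (.e (nat_lit 124) (nat_lit 5) (.e (nat_lit 114711) (nat_lit 21) (.e (nat_lit 57847) (nat_lit 252) (.e (nat_lit 57430) (nat_lit 16) (.e (nat_lit 368676) (nat_lit 21) (.e (nat_lit 516131) (nat_lit 3) (.e (nat_lit 221219) (nat_lit 24) (.e (nat_lit 213001) (nat_lit 9) .nil)))))))) (.g (nat_lit 7) .nil .nil)))) (.nd (nat_lit 5) 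
(.lf (nat_lit 1369) (.g (nat_lit 2588) (.e (nat_lit 124) (nat_lit 5) (.e (nat_lit 114710) (nat_lit 21) (.e (nat_lit 57847) (nat_lit 252) (.e (nat_lit 57432) (nat_lit 16) (.e (nat_lit 368676) (nat_lit 21) (.e (nat_lit 516131) (nat_lit 3) (.e (nat_lit 221218) (nat_lit 24) (.e (nat_lit 213007) (nat_lit 9) .nil)))))))) (.g (nat_lit 8) .nil .nil))) 
(.lf (nat_lit 1401) (.g (nat_lit 1776) (.e (nat_lit 124) (nat_lit 5) (.e (nat_lit 114718) (nat_lit 23) (.e (nat_lit 98365) (nat_lit 26) (.e (nat_lit 426114) (nat_lit 2) (.e (nat_lit 196654) (nat_lit 11) (.e (nat_lit 24320) (nat_lit 17) (.e (nat_lit 90125) (nat_lit 9) .nil))))))) (.g (nat_lit 4) .nil .nil)))))) (.nd (nat_lit 3) (.nd (nat_lit 4) (.nd (nat_lit 5) 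
(.lf (nat_lit 1349) (.g (nat_lit 1679) (.e (nat_lit 122) (nat_lit 5) (.e (nat_lit 114719) (nat_lit 23) (.e (nat_lit 98365) (nat_lit 26) (.e (nat_lit 426115) (nat_lit 2) .nil)))) .nil)) 
(.lf (nat_lit 1381) (.g (nat_lit 2912) (.e (nat_lit 124) (nat_lit 5) (.e (nat_lit 114711) (nat_lit 21) (.e (nat_lit 57847) (nat_lit 252) (.e (nat_lit 57430) (nat_lit 16) (.e (nat_lit 368676) (nat_lit 21) (.e (nat_lit 516131) (nat_lit 3) (.e (nat_lit 221218) (nat_lit 24) (.e (nat_lit 213003) (nat_lit 9) .nil)))))))) (.g (nat_lit 7) .nil .nil)))) (.nd (nat_lit 5) 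
(.lf (nat_lit 1365) (.g (nat_lit 2917) (.e (nat_lit 124) (nat_lit 5) (.e (nat_lit 114710) (nat_lit 21) (.e (nat_lit 57847) (nat_lit 252) (.e (nat_lit 57430) (nat_lit 16) (.e (nat_lit 368676) (nat_lit 21) (.e (nat_lit 516131) (nat_lit 3) (.e (nat_lit 221219) (nat_lit 24) (.e (nat_lit 213003) (nat_lit 9) .nil)))))))) (.g (nat_lit 8) .nil .nil))) 
(.lf (nat_lit 1397) (.g (nat_lit 2101) (.e (nat_lit 124) (nat_lit 5) (.e (nat_lit 114712) (nat_lit 21) (.e (nat_lit 57830) (nat_lit 250) (.e (nat_lit 1214) (nat_lit 89) (.e (nat_lit 73746) (nat_lit 3) (.e (nat_lit 516131) (nat_lit 3) (.e (nat_lit 221219) (nat_lit 24) (.e (nat_lit 213003) (nat_lit 9) .nil)))))))) (.g (nat_lit 5) .nil .nil))))) (.nd (nat_lit 4) (.nd (nat_lit 5) 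
(.lf (nat_lit 1357) (.g (nat_lit 1753) (.e (nat_lit 123) (nat_lit 5) (.e (nat_lit 114719) (nat_lit 23) (.e (nat_lit 98317) (nat_lit 9) (.e (nat_lit 336088) (nat_lit 9) .nil)))) .nil)) 
(.lf (nat_lit 1389) (.g (nat_lit 2944) (.e (nat_lit 124) (nat_lit 5) (.e (nat_lit 114711) (nat_lit 21) (.e (nat_lit 57847) (nat_lit 252) (.e (nat_lit 57432) (nat_lit 16) (.e (nat_lit 368676) (nat_lit 21) (.e (nat_lit 516131) (nat_lit 3) (.e (nat_lit 221218) (nat_lit 24) (.e (nat_lit 213003) (nat_lit 9) .nil)))))))) (.g (nat_lit 7) .nil .nil)))) (.nd (nat_lit 5) 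
(.lf (nat_lit 1373) (.g (nat_lit 2294) (.e (nat_lit 124) (nat_lit 5) (.e (nat_lit 114710) (nat_lit 21) (.e (nat_lit 57847) (nat_lit 252) (.e (nat_lit 57432) (nat_lit 16) (.e (nat_lit 368676) (nat_lit 21) (.e (nat_lit 516131) (nat_lit 3) (.e (nat_lit 221219) (nat_lit 24) (.e (nat_lit 213006) (nat_lit 9) .nil)))))))) (.g (nat_lit 6) .nil .nil))) 
(.lf (nat_lit 1405) (.g (nat_lit 1303) (.e (nat_lit 124) (nat_lit 5) (.e (nat_lit 114718) (nat_lit 23) (.e (nat_lit 98365) (nat_lit 26) (.e (nat_lit 426133) (nat_lit 3) .nil)))) .nil)))))) (.nd (nat_lit 2) (.nd (nat_lit 3) (.nd (nat_lit 4) (.nd (nat_lit 5) 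
(.lf (nat_lit 1347) (.g (nat_lit 1530) (.e (nat_lit 122) (nat_lit 5) (.e (nat_lit 114718) (nat_lit 23) (.e (nat_lit 98365) (nat_lit 26) (.e (nat_lit 426115) (nat_lit 2) .nil)))) .nil)) 
(.lf (nat_lit 1379) (.g (nat_lit 3038) (.e (nat_lit 124) (nat_lit 5) (.e (nat_lit 114711) (nat_lit 21) (.e (nat_lit 57847) (nat_lit 252) (.e (nat_lit 57407) (nat_lit 12) (.e (nat_lit 336019) (nat_lit 3) .nil))))) .nil))) (.nd (nat_lit 5) 
(.lf (nat_lit 1363) (.g (nat_lit 3036) (.e (nat_lit 124) (nat_lit 5) (.e (nat_lit 114710) (nat_lit 21) (.e (nat_lit 57847) (nat_lit 252) (.e (nat_lit 57430) (nat_lit 16) (.e (nat_lit 368676) (nat_lit 21) (.e (nat_lit 516131) (nat_lit 3) (.e (nat_lit 221219) (nat_lit 24) (.e (nat_lit 213000) (nat_lit 9) .nil)))))))) (.g (nat_lit 0) .nil .nil))) 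
(.lf (nat_lit 1395) (.g (nat_lit 2732) (.e (nat_lit 124) (nat_lit 5) (.e (nat_lit 114711) (nat_lit 21) (.e (nat_lit 57847) (nat_lit 252) (.e (nat_lit 57432) (nat_lit 16) (.e (nat_lit 368676) (nat_lit 21) (.e (nat_lit 516131) (nat_lit 3) (.e (nat_lit 221219) (nat_lit 24) (.e (nat_lit 213004) (nat_lit 9) .nil)))))))) (.g (nat_lit 6) .nil .nil))))) (.nd (nat_lit 4) (.nd (nat_lit 5) 
(.lf (nat_lit 1355) (.g (nat_lit 2749) (.e (nat_lit 123) (nat_lit 5) (.e (nat_lit 114711) (nat_lit 21) (.e (nat_lit 57847) (nat_lit 252) (.e (nat_lit 57432) (nat_lit 16) (.e (nat_lit 368676) (nat_lit 21) (.e (nat_lit 516131) (nat_lit 3) (.e (nat_lit 221219) (nat_lit 24) (.e (nat_lit 213000) (nat_lit 9) .nil)))))))) (.g (nat_lit 6) .nil .nil))) 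
(.lf (nat_lit 1387) (.g (nat_lit 2669) (.e (nat_lit 124) (nat_lit 5) (.e (nat_lit 114711) (nat_lit 21) (.e (nat_lit 57847) (nat_lit 252) (.e (nat_lit 57430) (nat_lit 16) (.e (nat_lit 368676) (nat_lit 21) (.e (nat_lit 516131) (nat_lit 3) (.e (nat_lit 221219) (nat_lit 24) (.e (nat_lit 213004) (nat_lit 9) .nil)))))))) (.g (nat_lit 6) .nil .nil)))) (.nd (nat_lit 5) 
(.lf (nat_lit 1371) (.g (nat_lit 2800) (.e (nat_lit 124) (nat_lit 5) (.e (nat_lit 114710) (nat_lit 21) (.e (nat_lit 57847) (nat_lit 252) (.e (nat_lit 57432) (nat_lit 16) (.e (nat_lit 368676) (nat_lit 21) (.e (nat_lit 516131) (nat_lit 3) (.e (nat_lit 221219) (nat_lit 24) (.e (nat_lit 213001) (nat_lit 9) .nil)))))))) (.g (nat_lit 8) .nil .nil))) 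
(.lf (nat_lit 1403) (.g (nat_lit 1883) (.e (nat_lit 124) (nat_lit 5) (.e (nat_lit 114718) (nat_lit 23) (.e (nat_lit 98365) (nat_lit 26) (.e (nat_lit 426115) (nat_lit 2) (.e (nat_lit 196656) (nat_lit 11) .nil))))) .nil))))) (.nd (nat_lit 3) (.nd (nat_lit 4) (.nd (nat_lit 5) 
(.lf (nat_lit 1351) (.g (nat_lit 1484) (.e (nat_lit 122) (nat_lit 5) (.e (nat_lit 114719) (nat_lit 23) (.e (nat_lit 98365) (nat_lit 26) (.e (nat_lit 426133) (nat_lit 3) .nil)))) .nil)) 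
(.lf (nat_lit 1383) (.g (nat_lit 2902) (.e (nat_lit 124) (nat_lit 5) (.e (nat_lit 114711) (nat_lit 21) (.e (nat_lit 57847) (nat_lit 252) (.e (nat_lit 57430) (nat_lit 16) (.e (nat_lit 368676) (nat_lit 21) (.e (nat_lit 516131) (nat_lit 3) (.e (nat_lit 221218) (nat_lit 24) (.e (nat_lit 213007) (nat_lit 9) .nil)))))))) (.g (nat_lit 7) .nil .nil)))) (.nd (nat_lit 5) 
(.lf (nat_lit 1367) (.g (nat_lit 2560) (.e (nat_lit 124) (nat_lit 5) (.e (nat_lit 114710) (nat_lit 21) (.e (nat_lit 57847) (nat_lit 252) (.e (nat_lit 57432) (nat_lit 16) (.e (nat_lit 368676) (nat_lit 21) (.e (nat_lit 516131) (nat_lit 3) (.e (nat_lit 221218) (nat_lit 24) (.e (nat_lit 213003) (nat_lit 9) .nil)))))))) (.g (nat_lit 7) .nil .nil))) 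
(.lf (nat_lit 1399) (.g (nat_lit 538) (.e (nat_lit 124) (nat_lit 5) (.e (nat_lit 114714) (nat_lit 22) (.e (nat_lit 90172) (nat_lit 14) .nil))) .nil)))) (.nd (nat_lit 4) (.nd (nat_lit 5) 
(.lf (nat_lit 1359) (.g (nat_lit 1481) (.e (nat_lit 123) (nat_lit 5) (.e (nat_lit 114723) (nat_lit 24) (.e (nat_lit 106532) (nat_lit 10) (.e (nat_lit 16128) (nat_lit 13) (.e (nat_lit 516151) (nat_lit 9) (.e (nat_lit 426211) (nat_lit 9) (.e (nat_lit 426125) (nat_lit 2) (.e (nat_lit 204544) (nat_lit 0) .nil)))))))) (.g (nat_lit 7) .nil .nil))) 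
(.lf (nat_lit 1391) (.g (nat_lit 2934) (.e (nat_lit 124) (nat_lit 5) (.e (nat_lit 114711) (nat_lit 21) (.e (nat_lit 57847) (nat_lit 252) (.e (nat_lit 57432) (nat_lit 16) (.e (nat_lit 368676) (nat_lit 21) (.e (nat_lit 516131) (nat_lit 3) (.e (nat_lit 221218) (nat_lit 24) (.e (nat_lit 213007) (nat_lit 9) .nil)))))))) (.g (nat_lit 7) .nil .nil)))) (.nd (nat_lit 5) 
(.lf (nat_lit 1375) (.g (nat_lit 1600) (.e (nat_lit 124) (nat_lit 5) (.e (nat_lit 114710) (nat_lit 21) (.e (nat_lit 57852) (nat_lit 252) (.e (nat_lit 57430) (nat_lit 16) .nil)))) .nil)) 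
(.lf (nat_lit 1407) (.g (nat_lit 2302) (.e (nat_lit 125) (nat_lit 5) (.e (nat_lit 114710) (nat_lit 21) (.e (nat_lit 57847) (nat_lit 252) (.e (nat_lit 57430) (nat_lit 16) (.e (nat_lit 368676) (nat_lit 21) (.e (nat_lit 516131) (nat_lit 3) (.e (nat_lit 221219) (nat_lit 24) (.e (nat_lit 213000) (nat_lit 9) .nil)))))))) (.g (nat_lit 6) .nil .nil)))))))))

noncomputable def tv019 : DT := (.nd (nat_lit 0) (.nd (nat_lit 1) (.nd (nat_lit 2) (.nd (nat_lit 3) (.nd (nat_lit 4) (.nd (nat_lit 5) 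
(.lf (nat_lit 1408) (.g (nat_lit 1530) (.e (nat_lit 125) (nat_lit 5) (.e (nat_lit 114718) (nat_lit 23) (.e (nat_lit 98365) (nat_lit 26) (.e (nat_lit 426115) (nat_lit 2) .nil)))) .nil)) 
(.lf (nat_lit 1440) (.g (nat_lit 720) (.e (nat_lit 144) (nat_lit 8) (.e (nat_lit 147495) (nat_lit 11) (.e (nat_lit 24608) (nat_lit 3) .nil))) .nil))) (.nd (nat_lit 5) 
(.lf (nat_lit 1424) (.g (nat_lit 2160) (.e (nat_lit 140) (nat_lit 8) (.e (nat_lit 147495) (nat_lit 11) (.e (nat_lit 24604) (nat_lit 2) (.e (nat_lit 90176) (nat_lit 15) (.e (nat_lit 188439) (nat_lit 20) .nil))))) .nil)) 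
(.lf (nat_lit 1456) (.g (nat_lit 2471) (.e (nat_lit 156) (nat_lit 10) (.e (nat_lit 164183) (nat_lit 154) (.e (nat_lit 57411) (nat_lit 12) (.e (nat_lit 336019) (nat_lit 3) (.e (nat_lit 98381) (nat_lit 31) (.e (nat_lit 466976) (nat_lit 22) (.e (nat_lit 196628) (nat_lit 9) .nil))))))) (.g (nat_lit 5) .nil .nil))))) (.nd (nat_lit 4) (.nd (nat_lit 5) 
(.lf (nat_lit 1416) (.g (nat_lit 1968) (.e (nat_lit 140) (nat_lit 8) (.e (nat_lit 147467) (nat_lit 9) (.e (nat_lit 232) (nat_lit 21) (.e (nat_lit 336060) (nat_lit 7) (.e (nat_lit 319534) (nat_lit 16) .nil))))) .nil)) 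
(.lf (nat_lit 1448) (.g (nat_lit 833) (.e (nat_lit 156) (nat_lit 10) (.e (nat_lit 164179) (nat_lit 154) (.e (nat_lit 57430) (nat_lit 16) .nil))) .nil))) (.nd (nat_lit 5) 
(.lf (nat_lit 1432) (.g (nat_lit 1457) (.e (nat_lit 140) (nat_lit 8) (.e (nat_lit 147496) (nat_lit 11) (.e (nat_lit 24604) (nat_lit 2) (.e (nat_lit 90170) (nat_lit 13) .nil)))) .nil)) 
(.lf (nat_lit 1464) (.g (nat_lit 2884) (.e (nat_lit 158) (nat_lit 10) (.e (nat_lit 164178) (nat_lit 154) (.e (nat_lit 57432) (nat_lit 16) (.e (nat_lit 368676) (nat_lit 21) (.e (nat_lit 516176) (nat_lit 14) (.e (nat_lit 466976) (nat_lit 22) (.e (nat_lit 196622) (nat_lit 9) .nil))))))) (.g (nat_lit 0) .nil .nil)))))) (.nd (nat_lit 3) (.nd (nat_lit 4) (.nd (nat_lit 5) 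
(.lf (nat_lit 1412) (.g (nat_lit 1635) (.e (nat_lit 7936) (nat_lit 5) (.e (nat_lit 114698) (nat_lit 11) (.e (nat_lit 426124) (nat_lit 2) (.e (nat_lit 196668) (nat_lit 14) (.e (nat_lit 73789) (nat_lit 45) .nil))))) .nil)) 
(.lf (nat_lit 1444) (.g (nat_lit 3275) (.e (nat_lit 154) (nat_lit 10) (.e (nat_lit 164335) (nat_lit 232) (.e (nat_lit 1659) (nat_lit 115) (.e (nat_lit 393301) (nat_lit 27) (.e (nat_lit 491560) (nat_lit 10) (.e (nat_lit 344099) (nat_lit 18) (.e (nat_lit 7167) (nat_lit 382) .nil))))))) (.g (nat_lit 7) .nil .nil)))) (.nd (nat_lit 5) 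
(.lf (nat_lit 1428) (.g (nat_lit 1873) (.e (nat_lit 140) (nat_lit 8) (.e (nat_lit 147496) (nat_lit 11) (.e (nat_lit 24603) (nat_lit 2) (.e (nat_lit 90172) (nat_lit 14) (.e (nat_lit 188160) (nat_lit 32) .nil))))) .nil)) 
(.lf (nat_lit 1460) (.g (nat_lit 3154) (.e (nat_lit 157) (nat_lit 10) (.e (nat_lit 164182) (nat_lit 154) (.e (nat_lit 57411) (nat_lit 12) (.e (nat_lit 336019) (nat_lit 3) (.e (nat_lit 98381) (nat_lit 31) (.e (nat_lit 466977) (nat_lit 22) (.e (nat_lit 196624) (nat_lit 9) .nil))))))) (.g (nat_lit 6) .nil .nil))))) (.nd (nat_lit 4) (.nd (nat_lit 5) 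
(.lf (nat_lit 1420) (.g (nat_lit 1891) (.e (nat_lit 140) (nat_lit 8) (.e (nat_lit 147494) (nat_lit 11) (.e (nat_lit 24603) (nat_lit 2) (.e (nat_lit 90176) (nat_lit 15) (.e (nat_lit 188439) (nat_lit 20) (.e (nat_lit 3272) (nat_lit 199) (.e (nat_lit 548896) (nat_lit 14) .nil))))))) (.g (nat_lit 7) .nil .nil))) 
(.lf (nat_lit 1452) (.g (nat_lit 3067) (.e (nat_lit 156) (nat_lit 10) (.e (nat_lit 164179) (nat_lit 154) (.e (nat_lit 57432) (nat_lit 16) (.e (nat_lit 368676) (nat_lit 21) (.e (nat_lit 516176) (nat_lit 14) (.e (nat_lit 466975) (nat_lit 22) (.e (nat_lit 196622) (nat_lit 9) .nil))))))) (.g (nat_lit 6) .nil .nil)))) (.nd (nat_lit 5) 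
(.lf (nat_lit 1436) (.g (nat_lit 2218) (.e (nat_lit 140) (nat_lit 8) (.e (nat_lit 147496) (nat_lit 11) (.e (nat_lit 24604) (nat_lit 2) (.e (nat_lit 90178) (nat_lit 15) (.e (nat_lit 188418) (nat_lit 0) (.e (nat_lit 1856) (nat_lit 124) (.e (nat_lit 557072) (nat_lit 9) .nil))))))) (.g (nat_lit 4) .nil .nil))) 
(.lf (nat_lit 1468) (.g (nat_lit 3459) (.e (nat_lit 159) (nat_lit 10) (.e (nat_lit 164178) (nat_lit 154) (.e (nat_lit 57432) (nat_lit 16) (.e (nat_lit 368676) (nat_lit 21) (.e (nat_lit 516176) (nat_lit 14) (.e (nat_lit 466977) (nat_lit 22) (.e (nat_lit 196624) (nat_lit 9) .nil))))))) (.g (nat_lit 7) .nil .nil))))))) (.nd (nat_lit 2) (.nd (nat_lit 3) (.nd (nat_lit 4) (.nd (nat_lit 5) 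
(.lf (nat_lit 1410) (.g (nat_lit 553) (.e (nat_lit 126) (nat_lit 5) (.e (nat_lit 114711) (nat_lit 21) (.e (nat_lit 57847) (nat_lit 252) .nil))) .nil)) 
(.lf (nat_lit 1442) (.g (nat_lit 1619) (.e (nat_lit 7936) (nat_lit 8) (.e (nat_lit 147495) (nat_lit 11) (.e (nat_lit 24604) (nat_lit 2) (.e (nat_lit 90172) (nat_lit 14) .nil)))) .nil))) (.nd (nat_lit 5) 
(.lf (nat_lit 1426) (.g (nat_lit 734) (.e (nat_lit 140) (nat_lit 8) (.e (nat_lit 147496) (nat_lit 11) (.e (nat_lit 24603) (nat_lit 2) .nil))) .nil)) 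
(.lf (nat_lit 1458) (.g (nat_lit 2219) (.e (nat_lit 157) (nat_lit 10) (.e (nat_lit 164179) (nat_lit 154) (.e (nat_lit 57411) (nat_lit 12) (.e (nat_lit 336019) (nat_lit 3) (.e (nat_lit 98381) (nat_lit 31) (.e (nat_lit 466977) (nat_lit 22) (.e (nat_lit 196624) (nat_lit 9) .nil))))))) (.g (nat_lit 4) .nil .nil))))) (.nd (nat_lit 4) (.nd (nat_lit 5) 
(.lf (nat_lit 1418) (.g (nat_lit 3095) (.e (nat_lit 140) (nat_lit 8) (.e (nat_lit 147494) (nat_lit 11) (.e (nat_lit 24603) (nat_lit 2) (.e (nat_lit 90172) (nat_lit 14) (.e (nat_lit 180278) (nat_lit 32) (.e (nat_lit 1235) (nat_lit 91) (.e (nat_lit 90134) (nat_lit 9) .nil))))))) (.g (nat_lit 0) .nil .nil))) 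
(.lf (nat_lit 1450) (.g (nat_lit 887) (.e (nat_lit 156) (nat_lit 10) (.e (nat_lit 164179) (nat_lit 154) (.e (nat_lit 57431) (nat_lit 16) .nil))) .nil))) (.nd (nat_lit 5) 
(.lf (nat_lit 1434) (.g (nat_lit 2906) (.e (nat_lit 140) (nat_lit 8) (.e (nat_lit 147496) (nat_lit 11) (.e (nat_lit 24604) (nat_lit 2) (.e (nat_lit 90176) (nat_lit 15) (.e (nat_lit 188420) (nat_lit 0) (.e (nat_lit 1856) (nat_lit 124) (.e (nat_lit 557072) (nat_lit 9) .nil))))))) (.g (nat_lit 6) .nil .nil))) 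
(.lf (nat_lit 1466) (.g (nat_lit 3228) (.e (nat_lit 158) (nat_lit 10) (.e (nat_lit 164178) (nat_lit 154) (.e (nat_lit 57432) (nat_lit 16) (.e (nat_lit 368676) (nat_lit 21) (.e (nat_lit 516176) (nat_lit 14) (.e (nat_lit 466977) (nat_lit 22) (.e (nat_lit 196622) (nat_lit 9) .nil))))))) (.g (nat_lit 0) .nil .nil)))))) (.nd (nat_lit 3) (.nd (nat_lit 4) (.nd (nat_lit 5) 
(.lf (nat_lit 1414) (.g (nat_lit 2153) (.e (nat_lit 134) (nat_lit 7) (.e (nat_lit 139280) (nat_lit 4) (.e (nat_lit 65610) (nat_lit 10) (.e (nat_lit 344117) (nat_lit 21) (.e (nat_lit 516160) (nat_lit 10) .nil))))) .nil)) 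
(.lf (nat_lit 1446) (.g (nat_lit 2897) (.e (nat_lit 156) (nat_lit 10) (.e (nat_lit 164178) (nat_lit 154) (.e (nat_lit 57432) (nat_lit 16) (.e (nat_lit 368676) (nat_lit 21) (.e (nat_lit 516176) (nat_lit 14) (.e (nat_lit 466976) (nat_lit 22) (.e (nat_lit 196628) (nat_lit 9) .nil))))))) (.g (nat_lit 0) .nil .nil)))) (.nd (nat_lit 5) 
(.lf (nat_lit 1430) (.g (nat_lit 2429) (.e (nat_lit 140) (nat_lit 8) (.e (nat_lit 147496) (nat_lit 11) (.e (nat_lit 24603) (nat_lit 2) (.e (nat_lit 90176) (nat_lit 15) (.e (nat_lit 188439) (nat_lit 20) (.e (nat_lit 3272) (nat_lit 199) (.e (nat_lit 548896) (nat_lit 14) .nil))))))) (.g (nat_lit 7) .nil .nil))) 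
(.lf (nat_lit 1462) (.g (nat_lit 1107) (.e (nat_lit 158) (nat_lit 10) (.e (nat_lit 164159) (nat_lit 152) (.e (nat_lit 1296) (nat_lit 96) (.e (nat_lit 131094) (nat_lit 2) .nil)))) .nil)))) (.nd (nat_lit 4) (.nd (nat_lit 5) 
(.lf (nat_lit 1422) (.g (nat_lit 2937) (.e (nat_lit 140) (nat_lit 8) (.e (nat_lit 147495) (nat_lit 11) (.e (nat_lit 24604) (nat_lit 2) (.e (nat_lit 90172) (nat_lit 14) (.e (nat_lit 180278) (nat_lit 32) (.e (nat_lit 1235) (nat_lit 91) (.e (nat_lit 90134) (nat_lit 9) .nil))))))) (.g (nat_lit 4) .nil .nil))) 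
(.lf (nat_lit 1454) (.g (nat_lit 473) (.e (nat_lit 156) (nat_lit 10) (.e (nat_lit 164182) (nat_lit 154) (.e (nat_lit 57411) (nat_lit 12) .nil))) .nil))) (.nd (nat_lit 5) 
(.lf (nat_lit 1438) (.g (nat_lit 2347) (.e (nat_lit 140) (nat_lit 8) (.e (nat_lit 147496) (nat_lit 11) (.e (nat_lit 24617) (nat_lit 7) (.e (nat_lit 319534) (nat_lit 16) (.e (nat_lit 286756) (nat_lit 10) .nil))))) .nil)) 
(.lf (nat_lit 1470) (.g (nat_lit 1601) (.e (nat_lit 7936) (nat_lit 10) (.e (nat_lit 164183) (nat_lit 154) (.e (nat_lit 57411) (nat_lit 12) (.e (nat_lit 336019) (nat_lit 3) (.e (nat_lit 98381) (nat_lit 31) .nil))))) .nil))))))) (.nd (nat_lit 1) (.nd (nat_lit 2) (.nd (nat_lit 3) (.nd (nat_lit 4) (.nd (nat_lit 5) 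
(.lf (nat_lit 1409) (.g (nat_lit 830) (.e (nat_lit 125) (nat_lit 5) (.e (nat_lit 114719) (nat_lit 23) (.e (nat_lit 98317) (nat_lit 9) .nil))) .nil)) 
(.lf (nat_lit 1441) (.g (nat_lit 2030) (.e (nat_lit 144) (nat_lit 8) (.e (nat_lit 147496) (nat_lit 11) (.e (nat_lit 24617) (nat_lit 7) (.e (nat_lit 319534) (nat_lit 16) .nil)))) .nil))) (.nd (nat_lit 5) 
(.lf (nat_lit 1425) (.g (nat_lit 1647) (.e (nat_lit 140) (nat_lit 8) (.e (nat_lit 147495) (nat_lit 11) (.e (nat_lit 24604) (nat_lit 2) (.e (nat_lit 90178) (nat_lit 15) .nil)))) .nil)) 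
(.lf (nat_lit 1457) (.g (nat_lit 3415) (.e (nat_lit 157) (nat_lit 10) (.e (nat_lit 164119) (nat_lit 128) (.e (nat_lit 1220) (nat_lit 90) (.e (nat_lit 81956) (nat_lit 23) (.e (nat_lit 98350) (nat_lit 24) (.e (nat_lit 409616) (nat_lit 10) (.e (nat_lit 7936) (nat_lit 298) .nil))))))) (.g (nat_lit 6) .nil .nil))))) (.nd (nat_lit 4) (.nd (nat_lit 5) 
(.lf (nat_lit 1417) (.g (nat_lit 2038) (.e (nat_lit 140) (nat_lit 8) (.e (nat_lit 147467) (nat_lit 9) (.e (nat_lit 232) (nat_lit 21) (.e (nat_lit 336060) (nat_lit 7) (.e (nat_lit 319534) (nat_lit 16) (.e (nat_lit 286756) (nat_lit 10) (.e (nat_lit 344156) (nat_lit 36) (.e (nat_lit 638983) (nat_lit 5) .nil)))))))) (.g (nat_lit 4) .nil .nil))) 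
(.lf (nat_lit 1449) (.g (nat_lit 1732) (.e (nat_lit 156) (nat_lit 10) (.e (nat_lit 164179) (nat_lit 154) (.e (nat_lit 57430) (nat_lit 16) (.e (nat_lit 368676) (nat_lit 21) (.e (nat_lit 516176) (nat_lit 14) .nil))))) .nil))) (.nd (nat_lit 5) 
(.lf (nat_lit 1433) (.g (nat_lit 3922) (.e (nat_lit 140) (nat_lit 8) (.e (nat_lit 147496) (nat_lit 11) (.e (nat_lit 24604) (nat_lit 2) (.e (nat_lit 90172) (nat_lit 14) (.e (nat_lit 180278) (nat_lit 32) (.e (nat_lit 1235) (nat_lit 91) (.e (nat_lit 90134) (nat_lit 9) .nil))))))) (.g (nat_lit 6) .nil .nil))) 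
(.lf (nat_lit 1465) (.g (nat_lit 2981) (.e (nat_lit 158) (nat_lit 10) (.e (nat_lit 164178) (nat_lit 154) (.e (nat_lit 57432) (nat_lit 16) (.e (nat_lit 368676) (nat_lit 21) (.e (nat_lit 516176) (nat_lit 14) (.e (nat_lit 466976) (nat_lit 22) (.e (nat_lit 196628) (nat_lit 9) .nil))))))) (.g (nat_lit 7) .nil .nil)))))) (.nd (nat_lit 3) (.nd (nat_lit 4) (.nd (nat_lit 5) 
(.lf (nat_lit 1413) (.g (nat_lit 1885) (.e (nat_lit 134) (nat_lit 7) (.e (nat_lit 139280) (nat_lit 4) (.e (nat_lit 65610) (nat_lit 10) (.e (nat_lit 344117) (nat_lit 21) (.e (nat_lit 516159) (nat_lit 10) .nil))))) .nil)) 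
(.lf (nat_lit 1445) (.g (nat_lit 3262) (.e (nat_lit 155) (nat_lit 10) (.e (nat_lit 164178) (nat_lit 154) (.e (nat_lit 57432) (nat_lit 16) (.e (nat_lit 368676) (nat_lit 21) (.e (nat_lit 516176) (nat_lit 14) (.e (nat_lit 466977) (nat_lit 22) (.e (nat_lit 196624) (nat_lit 9) .nil))))))) (.g (nat_lit 0) .nil .nil)))) (.nd (nat_lit 5) 
(.lf (nat_lit 1429) (.g (nat_lit 2809) (.e (nat_lit 140) (nat_lit 8) (.e (nat_lit 147496) (nat_lit 11) (.e (nat_lit 24603) (nat_lit 2) (.e (nat_lit 90176) (nat_lit 15) (.e (nat_lit 188420) (nat_lit 0) (.e (nat_lit 1856) (nat_lit 124) (.e (nat_lit 557072) (nat_lit 9) .nil))))))) (.g (nat_lit 7) .nil .nil))) 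
(.lf (nat_lit 1461) (.g (nat_lit 1230) (.e (nat_lit 158) (nat_lit 10) (.e (nat_lit 164159) (nat_lit 152) (.e (nat_lit 1296) (nat_lit 96) (.e (nat_lit 131091) (nat_lit 2) .nil)))) .nil)))) (.nd (nat_lit 4) (.nd (nat_lit 5) 
(.lf (nat_lit 1421) (.g (nat_lit 1662) (.e (nat_lit 140) (nat_lit 8) (.e (nat_lit 147494) (nat_lit 11) (.e (nat_lit 24604) (nat_lit 2) (.e (nat_lit 90178) (nat_lit 15) (.e (nat_lit 188418) (nat_lit 0) .nil))))) .nil)) 
(.lf (nat_lit 1453) (.g (nat_lit 3196) (.e (nat_lit 156) (nat_lit 10) (.e (nat_lit 164179) (nat_lit 154) (.e (nat_lit 57432) (nat_lit 16) (.e (nat_lit 368676) (nat_lit 21) (.e (nat_lit 516176) (nat_lit 14) (.e (nat_lit 466976) (nat_lit 22) (.e (nat_lit 196628) (nat_lit 9) .nil))))))) (.g (nat_lit 7) .nil .nil)))) (.nd (nat_lit 5) 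
(.lf (nat_lit 1437) (.g (nat_lit 2808) (.e (nat_lit 140) (nat_lit 8) (.e (nat_lit 147496) (nat_lit 11) (.e (nat_lit 24617) (nat_lit 7) (.e (nat_lit 319533) (nat_lit 16) (.e (nat_lit 286753) (nat_lit 10) .nil))))) .nil)) 
(.lf (nat_lit 1469) (.g (nat_lit 1396) (.e (nat_lit 7936) (nat_lit 10) (.e (nat_lit 164179) (nat_lit 154) (.e (nat_lit 57411) (nat_lit 12) (.e (nat_lit 336019) (nat_lit 3) .nil)))) .nil)))))) (.nd (nat_lit 2) (.nd (nat_lit 3) (.nd (nat_lit 4) (.nd (nat_lit 5) 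
(.lf (nat_lit 1411) (.g (nat_lit 1531) (.e (nat_lit 127) (nat_lit 5) (.e (nat_lit 114711) (nat_lit 21) (.e (nat_lit 57847) (nat_lit 252) (.e (nat_lit 57432) (nat_lit 16) (.e (nat_lit 368676) (nat_lit 21) (.e (nat_lit 516131) (nat_lit 3) (.e (nat_lit 221219) (nat_lit 24) (.e (nat_lit 213001) (nat_lit 9) .nil)))))))) (.g (nat_lit 4) .nil .nil))) 
(.lf (nat_lit 1443) (.g (nat_lit 3229) (.e (nat_lit 154) (nat_lit 10) (.e (nat_lit 164335) (nat_lit 232) (.e (nat_lit 1659) (nat_lit 115) (.e (nat_lit 393301) (nat_lit 27) (.e (nat_lit 491560) (nat_lit 10) (.e (nat_lit 344087) (nat_lit 18) (.e (nat_lit 7167) (nat_lit 382) .nil))))))) (.g (nat_lit 5) .nil .nil)))) (.nd (nat_lit 5) 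
(.lf (nat_lit 1427) (.g (nat_lit 3670) (.e (nat_lit 140) (nat_lit 8) (.e (nat_lit 147496) (nat_lit 11) (.e (nat_lit 24603) (nat_lit 2) (.e (nat_lit 90172) (nat_lit 14) (.e (nat_lit 180278) (nat_lit 32) (.e (nat_lit 1235) (nat_lit 91) (.e (nat_lit 90134) (nat_lit 9) .nil))))))) (.g (nat_lit 7) .nil .nil))) 
(.lf (nat_lit 1459) (.g (nat_lit 844) (.e (nat_lit 157) (nat_lit 10) (.e (nat_lit 164179) (nat_lit 154) (.e (nat_lit 57432) (nat_lit 16) .nil))) .nil)))) (.nd (nat_lit 4) (.nd (nat_lit 5) 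
(.lf (nat_lit 1419) (.g (nat_lit 2265) (.e (nat_lit 140) (nat_lit 8) (.e (nat_lit 147494) (nat_lit 11) (.e (nat_lit 24603) (nat_lit 2) (.e (nat_lit 90176) (nat_lit 15) (.e (nat_lit 188420) (nat_lit 0) (.e (nat_lit 1856) (nat_lit 124) (.e (nat_lit 557072) (nat_lit 9) .nil))))))) (.g (nat_lit 0) .nil .nil))) 
(.lf (nat_lit 1451) (.g (nat_lit 2246) (.e (nat_lit 156) (nat_lit 10) (.e (nat_lit 164179) (nat_lit 154) (.e (nat_lit 57432) (nat_lit 16) (.e (nat_lit 368676) (nat_lit 21) (.e (nat_lit 516174) (nat_lit 14) (.e (nat_lit 466975) (nat_lit 22) (.e (nat_lit 196622) (nat_lit 9) .nil))))))) (.g (nat_lit 6) .nil .nil)))) (.nd (nat_lit 5) 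
(.lf (nat_lit 1435) (.g (nat_lit 2614) (.e (nat_lit 140) (nat_lit 8) (.e (nat_lit 147496) (nat_lit 11) (.e (nat_lit 24604) (nat_lit 2) (.e (nat_lit 90176) (nat_lit 15) (.e (nat_lit 188439) (nat_lit 20) (.e (nat_lit 3272) (nat_lit 199) (.e (nat_lit 548896) (nat_lit 14) .nil))))))) (.g (nat_lit 5) .nil .nil))) 
(.lf (nat_lit 1467) (.g (nat_lit 3227) (.e (nat_lit 159) (nat_lit 10) (.e (nat_lit 164119) (nat_lit 128) (.e (nat_lit 1220) (nat_lit 90) (.e (nat_lit 81956) (nat_lit 23) (.e (nat_lit 98350) (nat_lit 24) (.e (nat_lit 409616) (nat_lit 10) (.e (nat_lit 7936) (nat_lit 298) .nil))))))) (.g (nat_lit 6) .nil .nil)))))) (.nd (nat_lit 3) (.nd (nat_lit 4) (.nd (nat_lit 5) 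
(.lf (nat_lit 1415) (.g (nat_lit 834) (.e (nat_lit 7936) (nat_lit 7) (.e (nat_lit 139282) (nat_lit 6) (.e (nat_lit 81956) (nat_lit 23) (.e (nat_lit 98367) (nat_lit 27) .nil)))) .nil)) 
(.lf (nat_lit 1447) (.g (nat_lit 2121) (.e (nat_lit 156) (nat_lit 10) (.e (nat_lit 164179) (nat_lit 154) (.e (nat_lit 57411) (nat_lit 12) (.e (nat_lit 336019) (nat_lit 3) (.e (nat_lit 98381) (nat_lit 31) .nil))))) .nil))) (.nd (nat_lit 5) 
(.lf (nat_lit 1431) (.g (nat_lit 682) (.e (nat_lit 140) (nat_lit 8) (.e (nat_lit 147496) (nat_lit 11) (.e (nat_lit 24604) (nat_lit 2) .nil))) .nil)) 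
(.lf (nat_lit 1463) (.g (nat_lit 3069) (.e (nat_lit 158) (nat_lit 10) (.e (nat_lit 164178) (nat_lit 154) (.e (nat_lit 57432) (nat_lit 16) (.e (nat_lit 368676) (nat_lit 21) (.e (nat_lit 516176) (nat_lit 14) (.e (nat_lit 466975) (nat_lit 22) (.e (nat_lit 196622) (nat_lit 9) .nil))))))) (.g (nat_lit 0) .nil .nil))))) (.nd (nat_lit 4) (.nd (nat_lit 5) 
(.lf (nat_lit 1423) (.g (nat_lit 2179) (.e (nat_lit 140) (nat_lit 8) (.e (nat_lit 147495) (nat_lit 11) (.e (nat_lit 24604) (nat_lit 2) (.e (nat_lit 90176) (nat_lit 15) (.e (nat_lit 188420) (nat_lit 0) .nil))))) .nil)) 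
(.lf (nat_lit 1455) (.g (nat_lit 1453) (.e (nat_lit 156) (nat_lit 10) (.e (nat_lit 164183) (nat_lit 154) (.e (nat_lit 57410) (nat_lit 12) (.e (nat_lit 336019) (nat_lit 3) (.e (nat_lit 98381) (nat_lit 31) .nil))))) .nil))) (.nd (nat_lit 5) 
(.lf (nat_lit 1439) (.g (nat_lit 725) (.e (nat_lit 144) (nat_lit 8) (.e (nat_lit 147495) (nat_lit 11) (.e (nat_lit 24604) (nat_lit 2) .nil))) .nil)) 
(.lf (nat_lit 1471) (.g (nat_lit 649) (.e (nat_lit 162) (nat_lit 11) (.e (nat_lit 196666) (nat_lit 13) (.e (nat_lit 65583) (nat_lit 7) .nil))) .nil))))))))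

noncomputable def tv020 : DT := (.nd (nat_lit 0) (.nd (nat_lit 1) (.nd (nat_lit 2) (.nd (nat_lit 3) (.nd (nat_lit 4) (.nd (nat_lit 5) 
(.lf (nat_lit 1472) (.g (nat_lit 812) (.e (nat_lit 162) (nat_lit 11) (.e (nat_lit 196666) (nat_lit 13) (.e (nat_lit 65586) (nat_lit 7) .nil))) .nil)) 
(.lf (nat_lit 1504) (.g (nat_lit 2117) (.e (nat_lit 206) (nat_lit 17) (.e (nat_lit 253992) (nat_lit 11) (.e (nat_lit 16425) (nat_lit 7) (.e (nat_lit 409648) (nat_lit 18) .nil)))) .nil))) (.nd (nat_lit 5) 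
(.lf (nat_lit 1488) (.g (nat_lit 394) (.e (nat_lit 174) (nat_lit 12) (.e (nat_lit 204830) (nat_lit 18) (.e (nat_lit 57854) (nat_lit 252) .nil))) .nil)) 
(.lf (nat_lit 1520) (.g (nat_lit 4411) (.e (nat_lit 214) (nat_lit 19) (.e (nat_lit 319490) (nat_lit 0) (.e (nat_lit 5664) (nat_lit 312) (.e (nat_lit 2679) (nat_lit 168) (.e (nat_lit 204868) (nat_lit 29) (.e (nat_lit 360475) (nat_lit 8) (.e (nat_lit 557068) (nat_lit 9) .nil))))))) (.g (nat_lit 6) .nil .nil))))) (.nd (nat_lit 4) (.nd (nat_lit 5) 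
(.lf (nat_lit 1480) (.g (nat_lit 1041) (.e (nat_lit 172) (nat_lit 12) (.e (nat_lit 204877) (nat_lit 31) (.e (nat_lit 376842) (nat_lit 11) (.e (nat_lit 426408) (nat_lit 15) .nil)))) .nil)) 
(.lf (nat_lit 1512) (.g (nat_lit 5201) (.e (nat_lit 214) (nat_lit 19) (.e (nat_lit 319490) (nat_lit 0) (.e (nat_lit 5626) (nat_lit 312) (.e (nat_lit 2668) (nat_lit 167) (.e (nat_lit 196666) (nat_lit 13) (.e (nat_lit 65617) (nat_lit 10) (.e (nat_lit 344132) (nat_lit 26) (.e (nat_lit 557073) (nat_lit 9) .nil)))))))) (.g (nat_lit 0) .nil .nil)))) (.nd (nat_lit 5) 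
(.lf (nat_lit 1496) (.g (nat_lit 3104) (.e (nat_lit 184) (nat_lit 14) (.e (nat_lit 221194) (nat_lit 11) (.e (nat_lit 336012) (nat_lit 2) (.e (nat_lit 90172) (nat_lit 14) .nil)))) .nil)) 
(.lf (nat_lit 1528) (.g (nat_lit 2652) (.e (nat_lit 214) (nat_lit 19) (.e (nat_lit 319491) (nat_lit 0) (.e (nat_lit 5761) (nat_lit 315) (.e (nat_lit 163962) (nat_lit 25) (.e (nat_lit 532550) (nat_lit 12) (.e (nat_lit 360474) (nat_lit 8) (.e (nat_lit 557073) (nat_lit 9) .nil))))))) (.g (nat_lit 0) .nil .nil)))))) (.nd (nat_lit 3) (.nd (nat_lit 4) (.nd (nat_lit 5) 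
(.lf (nat_lit 1476) (.g (nat_lit 2083) (.e (nat_lit 7936) (nat_lit 11) (.e (nat_lit 196666) (nat_lit 13) (.e (nat_lit 65610) (nat_lit 10) (.e (nat_lit 344117) (nat_lit 21) (.e (nat_lit 516160) (nat_lit 10) .nil))))) .nil)) 
(.lf (nat_lit 1508) (.g (nat_lit 2469) (.e (nat_lit 214) (nat_lit 19) (.e (nat_lit 319490) (nat_lit 0) (.e (nat_lit 5626) (nat_lit 312) (.e (nat_lit 2668) (nat_lit 167) (.e (nat_lit 196666) (nat_lit 13) (.e (nat_lit 65617) (nat_lit 10) (.e (nat_lit 344127) (nat_lit 26) (.e (nat_lit 557071) (nat_lit 9) .nil)))))))) (.g (nat_lit 4) .nil .nil)))) (.nd (nat_lit 5) 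
(.lf (nat_lit 1492) (.g (nat_lit 2253) (.e (nat_lit 174) (nat_lit 12) (.e (nat_lit 204861) (nat_lit 26) (.e (nat_lit 336213) (nat_lit 13) (.e (nat_lit 393219) (nat_lit 0) .nil)))) .nil)) 
(.lf (nat_lit 1524) (.g (nat_lit 3506) (.e (nat_lit 214) (nat_lit 19) (.e (nat_lit 319491) (nat_lit 0) (.e (nat_lit 5626) (nat_lit 312) (.e (nat_lit 2668) (nat_lit 167) (.e (nat_lit 196666) (nat_lit 13) (.e (nat_lit 65617) (nat_lit 10) (.e (nat_lit 344130) (nat_lit 26) (.e (nat_lit 557064) (nat_lit 9) .nil)))))))) (.g (nat_lit 5) .nil .nil))))) (.nd (nat_lit 4) (.nd (nat_lit 5) 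
(.lf (nat_lit 1484) (.g (nat_lit 852) (.e (nat_lit 174) (nat_lit 12) (.e (nat_lit 204830) (nat_lit 18) (.e (nat_lit 57852) (nat_lit 252) .nil))) .nil)) 
(.lf (nat_lit 1516) (.g (nat_lit 4163) (.e (nat_lit 214) (nat_lit 19) (.e (nat_lit 319490) (nat_lit 0) (.e (nat_lit 5664) (nat_lit 312) (.e (nat_lit 2661) (nat_lit 167) (.e (nat_lit 196666) (nat_lit 13) (.e (nat_lit 65617) (nat_lit 10) (.e (nat_lit 344130) (nat_lit 26) (.e (nat_lit 557067) (nat_lit 9) .nil)))))))) (.g (nat_lit 7) .nil .nil)))) (.nd (nat_lit 5) 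
(.lf (nat_lit 1500) (.g (nat_lit 1876) (.e (nat_lit 202) (nat_lit 17) (.e (nat_lit 253992) (nat_lit 11) (.e (nat_lit 16411) (nat_lit 2) (.e (nat_lit 196668) (nat_lit 14) (.e (nat_lit 73789) (nat_lit 45) .nil))))) .nil)) 
(.lf (nat_lit 1532) (.g (nat_lit 3759) (.e (nat_lit 214) (nat_lit 19) (.e (nat_lit 319493) (nat_lit 0) (.e (nat_lit 5626) (nat_lit 312) (.e (nat_lit 2668) (nat_lit 167) (.e (nat_lit 196666) (nat_lit 13) (.e (nat_lit 65617) (nat_lit 10) (.e (nat_lit 344130) (nat_lit 26) (.e (nat_lit 557065) (nat_lit 9) .nil)))))))) (.g (nat_lit 6) .nil .nil))))))) 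
(.nd (nat_lit 2) (.nd (nat_lit 3) (.nd (nat_lit 4) (.nd (nat_lit 5) 
(.lf (nat_lit 1474) (.g (nat_lit 2826) (.e (nat_lit 162) (nat_lit 11) (.e (nat_lit 196670) (nat_lit 14) (.e (nat_lit 73753) (nat_lit 8) (.e (nat_lit 557104) (nat_lit 14) (.e (nat_lit 180252) (nat_lit 10) .nil))))) .nil)) 
(.lf (nat_lit 1506) (.g (nat_lit 2156) (.e (nat_lit 214) (nat_lit 19) (.e (nat_lit 319490) (nat_lit 0) (.e (nat_lit 5626) (nat_lit 312) (.e (nat_lit 2668) (nat_lit 167) (.e (nat_lit 196666) (nat_lit 13) (.e (nat_lit 65610) (nat_lit 10) (.e (nat_lit 344129) (nat_lit 26) (.e (nat_lit 557065) (nat_lit 9) .nil)))))))) (.g (nat_lit 4) .nil .nil)))) (.nd (nat_lit 5) 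
(.lf (nat_lit 1490) (.g (nat_lit 495) (.e (nat_lit 174) (nat_lit 12) (.e (nat_lit 204831) (nat_lit 18) (.e (nat_lit 57852) (nat_lit 252) .nil))) .nil)) 
(.lf (nat_lit 1522) (.g (nat_lit 2789) (.e (nat_lit 214) (nat_lit 19) (.e (nat_lit 319490) (nat_lit 0) (.e (nat_lit 5761) (nat_lit 315) (.e (nat_lit 163962) (nat_lit 25) (.e (nat_lit 532549) (nat_lit 12) (.e (nat_lit 360473) (nat_lit 8) (.e (nat_lit 557073) (nat_lit 9) .nil))))))) (.g (nat_lit 0) .nil .nil))))) (.nd (nat_lit 4) (.nd (nat_lit 5) 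
(.lf (nat_lit 1482) (.g (nat_lit 2522) (.e (nat_lit 174) (nat_lit 12) (.e (nat_lit 204829) (nat_lit 18) (.e (nat_lit 57847) (nat_lit 252) (.e (nat_lit 57445) (nat_lit 19) (.e (nat_lit 393221) (nat_lit 0) .nil))))) .nil)) 
(.lf (nat_lit 1514) (.g (nat_lit 5604) (.e (nat_lit 214) (nat_lit 19) (.e (nat_lit 319490) (nat_lit 0) (.e (nat_lit 5626) (nat_lit 312) (.e (nat_lit 2668) (nat_lit 167) (.e (nat_lit 196666) (nat_lit 13) (.e (nat_lit 65617) (nat_lit 10) (.e (nat_lit 344133) (nat_lit 26) (.e (nat_lit 557068) (nat_lit 9) .nil)))))))) (.g (nat_lit 0) .nil .nil)))) (.nd (nat_lit 5) 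
(.lf (nat_lit 1498) (.g (nat_lit 1751) (.e (nat_lit 184) (nat_lit 14) (.e (nat_lit 221194) (nat_lit 11) (.e (nat_lit 336027) (nat_lit 3) .nil))) .nil)) 
(.lf (nat_lit 1530) (.g (nat_lit 4458) (.e (nat_lit 214) (nat_lit 19) (.e (nat_lit 319492) (nat_lit 0) (.e (nat_lit 5626) (nat_lit 312) (.e (nat_lit 2668) (nat_lit 167) (.e (nat_lit 196666) (nat_lit 13) (.e (nat_lit 65617) (nat_lit 10) (.e (nat_lit 344133) (nat_lit 26) (.e (nat_lit 557071) (nat_lit 9) .nil)))))))) (.g (nat_lit 7) .nil .nil)))))) (.nd (nat_lit 3) (.nd (nat_lit 4) (.nd (nat_lit 5) 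
(.lf (nat_lit 1478) (.g (nat_lit 893) (.e (nat_lit 171) (nat_lit 12) (.e (nat_lit 204829) (nat_lit 18) (.e (nat_lit 57847) (nat_lit 252) .nil))) .nil)) 
(.lf (nat_lit 1510) (.g (nat_lit 2469) (.e (nat_lit 214) (nat_lit 19) (.e (nat_lit 319490) (nat_lit 0) (.e (nat_lit 5626) (nat_lit 312) (.e (nat_lit 2668) (nat_lit 167) (.e (nat_lit 196666) (nat_lit 13) (.e (nat_lit 65617) (nat_lit 10) (.e (nat_lit 344130) (nat_lit 26) (.e (nat_lit 557071) (nat_lit 9) .nil)))))))) (.g (nat_lit 4) .nil .nil)))) (.nd (nat_lit 5) 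
(.lf (nat_lit 1494) (.g (nat_lit 2463) (.e (nat_lit 174) (nat_lit 12) (.e (nat_lit 204869) (nat_lit 29) (.e (nat_lit 360451) (nat_lit 0) (.e (nat_lit 7609) (nat_lit 410) .nil)))) .nil)) 
(.lf (nat_lit 1526) (.g (nat_lit 4099) (.e (nat_lit 214) (nat_lit 19) (.e (nat_lit 319491) (nat_lit 0) (.e (nat_lit 5626) (nat_lit 312) (.e (nat_lit 2668) (nat_lit 167) (.e (nat_lit 196666) (nat_lit 13) (.e (nat_lit 65617) (nat_lit 10) (.e (nat_lit 344133) (nat_lit 26) (.e (nat_lit 557071) (nat_lit 9) .nil)))))))) (.g (nat_lit 6) .nil .nil))))) (.nd (nat_lit 4) (.nd (nat_lit 5) 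
(.lf (nat_lit 1486) (.g (nat_lit 3550) (.e (nat_lit 174) (nat_lit 12) (.e (nat_lit 204830) (nat_lit 18) (.e (nat_lit 57852) (nat_lit 252) (.e (nat_lit 57445) (nat_lit 19) (.e (nat_lit 393221) (nat_lit 0) .nil))))) .nil)) 
(.lf (nat_lit 1518) (.g (nat_lit 2389) (.e (nat_lit 214) (nat_lit 19) (.e (nat_lit 319490) (nat_lit 0) (.e (nat_lit 5664) (nat_lit 312) (.e (nat_lit 2661) (nat_lit 167) (.e (nat_lit 196666) (nat_lit 13) (.e (nat_lit 65617) (nat_lit 10) (.e (nat_lit 344133) (nat_lit 26) (.e (nat_lit 557071) (nat_lit 9) .nil)))))))) (.g (nat_lit 4) .nil .nil)))) (.nd (nat_lit 5) 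
(.lf (nat_lit 1502) (.g (nat_lit 3861) (.e (nat_lit 206) (nat_lit 17) (.e (nat_lit 253992) (nat_lit 11) (.e (nat_lit 16411) (nat_lit 2) (.e (nat_lit 196663) (nat_lit 13) (.e (nat_lit 65630) (nat_lit 14) (.e (nat_lit 401425) (nat_lit 2) (.e (nat_lit 196628) (nat_lit 9) .nil))))))) (.g (nat_lit 7) .nil .nil))) 
(.lf (nat_lit 1534) (.g (nat_lit 1547) (.e (nat_lit 214) (nat_lit 19) (.e (nat_lit 319504) (nat_lit 10) (.e (nat_lit 618) (nat_lit 48) (.e (nat_lit 557105) (nat_lit 14) .nil)))) .nil))))))) (.nd (nat_lit 1) (.nd (nat_lit 2) (.nd (nat_lit 3) (.nd (nat_lit 4) (.nd (nat_lit 5) 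
(.lf (nat_lit 1473) (.g (nat_lit 2070) (.e (nat_lit 162) (nat_lit 11) (.e (nat_lit 196670) (nat_lit 14) (.e (nat_lit 73753) (nat_lit 8) (.e (nat_lit 557103) (nat_lit 14) (.e (nat_lit 180250) (nat_lit 10) .nil))))) .nil)) 
(.lf (nat_lit 1505) (.g (nat_lit 2713) (.e (nat_lit 214) (nat_lit 19) (.e (nat_lit 319490) (nat_lit 0) (.e (nat_lit 5612) (nat_lit 312) (.e (nat_lit 2685) (nat_lit 168) (.e (nat_lit 204869) (nat_lit 29) (.e (nat_lit 360474) (nat_lit 8) (.e (nat_lit 557073) (nat_lit 9) .nil))))))) (.g (nat_lit 6) .nil .nil)))) (.nd (nat_lit 5) 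
(.lf (nat_lit 1489) (.g (nat_lit 2535) (.e (nat_lit 174) (nat_lit 12) (.e (nat_lit 204831) (nat_lit 18) (.e (nat_lit 57849) (nat_lit 252) (.e (nat_lit 57448) (nat_lit 19) (.e (nat_lit 393221) (nat_lit 0) .nil))))) .nil)) 
(.lf (nat_lit 1521) (.g (nat_lit 2272) (.e (nat_lit 214) (nat_lit 19) (.e (nat_lit 319490) (nat_lit 0) (.e (nat_lit 5756) (nat_lit 315) (.e (nat_lit 163962) (nat_lit 25) (.e (nat_lit 532550) (nat_lit 12) (.e (nat_lit 360474) (nat_lit 8) (.e (nat_lit 557073) (nat_lit 9) .nil))))))) (.g (nat_lit 5) .nil .nil))))) (.nd (nat_lit 4) (.nd (nat_lit 5) 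
(.lf (nat_lit 1481) (.g (nat_lit 1527) (.e (nat_lit 174) (nat_lit 12) (.e (nat_lit 204829) (nat_lit 18) (.e (nat_lit 57847) (nat_lit 252) (.e (nat_lit 57411) (nat_lit 12) (.e (nat_lit 336456) (nat_lit 34) .nil))))) .nil)) 
(.lf (nat_lit 1513) (.g (nat_lit 4287) (.e (nat_lit 214) (nat_lit 19) (.e (nat_lit 319490) (nat_lit 0) (.e (nat_lit 5626) (nat_lit 312) (.e (nat_lit 2668) (nat_lit 167) (.e (nat_lit 196666) (nat_lit 13) (.e (nat_lit 65617) (nat_lit 10) (.e (nat_lit 344133) (nat_lit 26) (.e (nat_lit 557065) (nat_lit 9) .nil)))))))) (.g (nat_lit 6) .nil .nil)))) (.nd (nat_lit 5) 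
(.lf (nat_lit 1497) (.g (nat_lit 3014) (.e (nat_lit 184) (nat_lit 14) (.e (nat_lit 221194) (nat_lit 11) (.e (nat_lit 336012) (nat_lit 2) (.e (nat_lit 90174) (nat_lit 14) .nil)))) .nil)) 
(.lf (nat_lit 1529) (.g (nat_lit 2992) (.e (nat_lit 214) (nat_lit 19) (.e (nat_lit 319492) (nat_lit 0) (.e (nat_lit 5626) (nat_lit 312) (.e (nat_lit 2668) (nat_lit 167) (.e (nat_lit 196666) (nat_lit 13) (.e (nat_lit 65617) (nat_lit 10) (.e (nat_lit 344127) (nat_lit 26) (.e (nat_lit 557071) (nat_lit 9) .nil)))))))) (.g (nat_lit 5) .nil .nil)))))) (.nd (nat_lit 3) (.nd (nat_lit 4) (.nd (nat_lit 5) 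
(.lf (nat_lit 1477) (.g (nat_lit 1217) (.e (nat_lit 169) (nat_lit 12) (.e (nat_lit 204829) (nat_lit 18) (.e (nat_lit 57847) (nat_lit 252) .nil))) .nil)) 
(.lf (nat_lit 1509) (.g (nat_lit 4369) (.e (nat_lit 214) (nat_lit 19) (.e (nat_lit 319490) (nat_lit 0) (.e (nat_lit 5626) (nat_lit 312) (.e (nat_lit 2668) (nat_lit 167) (.e (nat_lit 196666) (nat_lit 13) (.e (nat_lit 65617) (nat_lit 10) (.e (nat_lit 344130) (nat_lit 26) (.e (nat_lit 557065) (nat_lit 9) .nil)))))))) (.g (nat_lit 6) .nil .nil)))) (.nd (nat_lit 5) 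
(.lf (nat_lit 1493) (.g (nat_lit 2739) (.e (nat_lit 174) (nat_lit 12) (.e (nat_lit 204869) (nat_lit 29) (.e (nat_lit 360450) (nat_lit 0) (.e (nat_lit 7609) (nat_lit 410) .nil)))) .nil)) 
(.lf (nat_lit 1525) (.g (nat_lit 3825) (.e (nat_lit 214) (nat_lit 19) (.e (nat_lit 319491) (nat_lit 0) (.e (nat_lit 5626) (nat_lit 312) (.e (nat_lit 2668) (nat_lit 167) (.e (nat_lit 196666) (nat_lit 13) (.e (nat_lit 65617) (nat_lit 10) (.e (nat_lit 344130) (nat_lit 26) (.e (nat_lit 557065) (nat_lit 9) .nil)))))))) (.g (nat_lit 6) .nil .nil))))) (.nd (nat_lit 4) (.nd (nat_lit 5) 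
(.lf (nat_lit 1485) (.g (nat_lit 3041) (.e (nat_lit 174) (nat_lit 12) (.e (nat_lit 204830) (nat_lit 18) (.e (nat_lit 57852) (nat_lit 252) (.e (nat_lit 57406) (nat_lit 12) (.e (nat_lit 336456) (nat_lit 34) .nil))))) .nil)) 
(.lf (nat_lit 1517) (.g (nat_lit 3654) (.e (nat_lit 214) (nat_lit 19) (.e (nat_lit 319490) (nat_lit 0) (.e (nat_lit 5664) (nat_lit 312) (.e (nat_lit 2661) (nat_lit 167) (.e (nat_lit 196666) (nat_lit 13) (.e (nat_lit 65617) (nat_lit 10) (.e (nat_lit 344132) (nat_lit 26) (.e (nat_lit 557073) (nat_lit 9) .nil)))))))) (.g (nat_lit 6) .nil .nil)))) (.nd (nat_lit 5) 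
(.lf (nat_lit 1501) (.g (nat_lit 1343) (.e (nat_lit 202) (nat_lit 17) (.e (nat_lit 253992) (nat_lit 11) (.e (nat_lit 16412) (nat_lit 2) (.e (nat_lit 196681) (nat_lit 17) .nil)))) .nil)) 
(.lf (nat_lit 1533) (.g (nat_lit 3503) (.e (nat_lit 214) (nat_lit 19) (.e (nat_lit 319493) (nat_lit 0) (.e (nat_lit 5626) (nat_lit 312) (.e (nat_lit 2668) (nat_lit 167) (.e (nat_lit 196666) (nat_lit 13) (.e (nat_lit 65617) (nat_lit 10) (.e (nat_lit 344133) (nat_lit 26) (.e (nat_lit 557071) (nat_lit 9) .nil)))))))) (.g (nat_lit 6) .nil .nil))))))) 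
(.nd (nat_lit 2) (.nd (nat_lit 3) (.nd (nat_lit 4) (.nd (nat_lit 5) 
(.lf (nat_lit 1475) (.g (nat_lit 2690) (.e (nat_lit 7936) (nat_lit 11) (.e (nat_lit 196666) (nat_lit 13) (.e (nat_lit 65610) (nat_lit 10) (.e (nat_lit 344117) (nat_lit 21) (.e (nat_lit 516145) (nat_lit 9) .nil))))) .nil)) 
(.lf (nat_lit 1507) (.g (nat_lit 3506) (.e (nat_lit 214) (nat_lit 19) (.e (nat_lit 319490) (nat_lit 0) (.e (nat_lit 5626) (nat_lit 312) (.e (nat_lit 2668) (nat_lit 167) (.e (nat_lit 196666) (nat_lit 13) (.e (nat_lit 65617) (nat_lit 10) (.e (nat_lit 344127) (nat_lit 26) (.e (nat_lit 557067) (nat_lit 9) .nil)))))))) (.g (nat_lit 6) .nil .nil)))) (.nd (nat_lit 5) 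
(.lf (nat_lit 1491) (.g (nat_lit 3606) (.e (nat_lit 174) (nat_lit 12) (.e (nat_lit 204831) (nat_lit 18) (.e (nat_lit 57852) (nat_lit 252) (.e (nat_lit 57445) (nat_lit 19) (.e (nat_lit 393221) (nat_lit 0) .nil))))) .nil)) 
(.lf (nat_lit 1523) (.g (nat_lit 2976) (.e (nat_lit 214) (nat_lit 19) (.e (nat_lit 319490) (nat_lit 0) (.e (nat_lit 5761) (nat_lit 315) (.e (nat_lit 163962) (nat_lit 25) (.e (nat_lit 532550) (nat_lit 12) (.e (nat_lit 360474) (nat_lit 8) (.e (nat_lit 557073) (nat_lit 9) .nil))))))) (.g (nat_lit 0) .nil .nil))))) (.nd (nat_lit 4) (.nd (nat_lit 5) 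
(.lf (nat_lit 1483) (.g (nat_lit 2105) (.e (nat_lit 174) (nat_lit 12) (.e (nat_lit 204829) (nat_lit 18) (.e (nat_lit 57847) (nat_lit 252) (.e (nat_lit 57448) (nat_lit 19) (.e (nat_lit 393220) (nat_lit 0) .nil))))) .nil)) 
(.lf (nat_lit 1515) (.g (nat_lit 3935) (.e (nat_lit 214) (nat_lit 19) (.e (nat_lit 319490) (nat_lit 0) (.e (nat_lit 5626) (nat_lit 312) (.e (nat_lit 2668) (nat_lit 167) (.e (nat_lit 196666) (nat_lit 13) (.e (nat_lit 65617) (nat_lit 10) (.e (nat_lit 344133) (nat_lit 26) (.e (nat_lit 557071) (nat_lit 9) .nil)))))))) (.g (nat_lit 6) .nil .nil)))) (.nd (nat_lit 5) 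
(.lf (nat_lit 1499) (.g (nat_lit 3171) (.e (nat_lit 185) (nat_lit 14) (.e (nat_lit 221194) (nat_lit 11) (.e (nat_lit 336012) (nat_lit 2) (.e (nat_lit 90167) (nat_lit 13) .nil)))) .nil)) 
(.lf (nat_lit 1531) (.g (nat_lit 2595) (.e (nat_lit 214) (nat_lit 19) (.e (nat_lit 319492) (nat_lit 0) (.e (nat_lit 5761) (nat_lit 315) (.e (nat_lit 163962) (nat_lit 25) (.e (nat_lit 532550) (nat_lit 12) (.e (nat_lit 360474) (nat_lit 8) (.e (nat_lit 557073) (nat_lit 9) .nil))))))) (.g (nat_lit 0) .nil .nil)))))) (.nd (nat_lit 3) (.nd (nat_lit 4) (.nd (nat_lit 5) 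
(.lf (nat_lit 1479) (.g (nat_lit 2002) (.e (nat_lit 172) (nat_lit 12) (.e (nat_lit 204830) (nat_lit 18) (.e (nat_lit 57852) (nat_lit 252) (.e (nat_lit 57445) (nat_lit 19) .nil)))) .nil)) 
(.lf (nat_lit 1511) (.g (nat_lit 3592) (.e (nat_lit 214) (nat_lit 19) (.e (nat_lit 319490) (nat_lit 0) (.e (nat_lit 5626) (nat_lit 312) (.e (nat_lit 2668) (nat_lit 167) (.e (nat_lit 196666) (nat_lit 13) (.e (nat_lit 65617) (nat_lit 10) (.e (nat_lit 344132) (nat_lit 26) (.e (nat_lit 557072) (nat_lit 9) .nil)))))))) (.g (nat_lit 5) .nil .nil)))) (.nd (nat_lit 5) 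
(.lf (nat_lit 1495) (.g (nat_lit 1589) (.e (nat_lit 174) (nat_lit 12) (.e (nat_lit 204877) (nat_lit 31) (.e (nat_lit 376842) (nat_lit 11) (.e (nat_lit 426408) (nat_lit 15) (.e (nat_lit 6112) (nat_lit 332) .nil))))) .nil)) 
(.lf (nat_lit 1527) (.g (nat_lit 992) (.e (nat_lit 214) (nat_lit 19) (.e (nat_lit 319491) (nat_lit 0) (.e (nat_lit 5664) (nat_lit 312) (.e (nat_lit 3078) (nat_lit 191) .nil)))) .nil)))) (.nd (nat_lit 4) (.nd (nat_lit 5) 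
(.lf (nat_lit 1487) (.g (nat_lit 3567) (.e (nat_lit 174) (nat_lit 12) (.e (nat_lit 204830) (nat_lit 18) (.e (nat_lit 57852) (nat_lit 252) (.e (nat_lit 57445) (nat_lit 19) (.e (nat_lit 393221) (nat_lit 0) (.e (nat_lit 6112) (nat_lit 332) (.e (nat_lit 2406) (nat_lit 157) (.e (nat_lit 5259) (nat_lit 298) .nil)))))))) (.g (nat_lit 4) .nil .nil))) 
(.lf (nat_lit 1519) (.g (nat_lit 2581) (.e (nat_lit 214) (nat_lit 19) (.e (nat_lit 319490) (nat_lit 0) (.e (nat_lit 5664) (nat_lit 312) (.e (nat_lit 2679) (nat_lit 168) (.e (nat_lit 204868) (nat_lit 29) (.e (nat_lit 360473) (nat_lit 8) (.e (nat_lit 557065) (nat_lit 9) .nil))))))) (.g (nat_lit 4) .nil .nil)))) (.nd (nat_lit 5) 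
(.lf (nat_lit 1503) (.g (nat_lit 3102) (.e (nat_lit 206) (nat_lit 17) (.e (nat_lit 253992) (nat_lit 11) (.e (nat_lit 16412) (nat_lit 2) (.e (nat_lit 196663) (nat_lit 13) (.e (nat_lit 65630) (nat_lit 14) (.e (nat_lit 401425) (nat_lit 2) (.e (nat_lit 196628) (nat_lit 9) .nil))))))) (.g (nat_lit 5) .nil .nil))) 
(.lf (nat_lit 1535) (.g (nat_lit 2342) (.e (nat_lit 214) (nat_lit 19) (.e (nat_lit 319504) (nat_lit 10) (.e (nat_lit 618) (nat_lit 48) (.e (nat_lit 557105) (nat_lit 14) (.e (nat_lit 180252) (nat_lit 10) .nil))))) .nil))))))))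

noncomputable def tv021 : DT := (.nd (nat_lit 0) (.nd (nat_lit 1) (.nd (nat_lit 2) (.nd (nat_lit 3) (.nd (nat_lit 4) (.nd (nat_lit 5) 
(.lf (nat_lit 1536) (.g (nat_lit 3158) (.e (nat_lit 214) (nat_lit 19) (.e (nat_lit 319504) (nat_lit 10) (.e (nat_lit 618) (nat_lit 48) (.e (nat_lit 557105) (nat_lit 14) (.e (nat_lit 180252) (nat_lit 10) (.e (nat_lit 573482) (nat_lit 13) (.e (nat_lit 65566) (nat_lit 2) (.e (nat_lit 90134) (nat_lit 9) .nil)))))))) (.g (nat_lit 4) .nil .nil))) 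
(.lf (nat_lit 1568) (.g (nat_lit 3698) (.e (nat_lit 214) (nat_lit 19) (.e (nat_lit 319505) (nat_lit 10) (.e (nat_lit 618) (nat_lit 48) (.e (nat_lit 557105) (nat_lit 14) (.e (nat_lit 180252) (nat_lit 10) (.e (nat_lit 573488) (nat_lit 14) (.e (nat_lit 73743) (nat_lit 1) (.e (nat_lit 499811) (nat_lit 5) .nil)))))))) (.g (nat_lit 4) .nil .nil)))) (.nd (nat_lit 5) 
(.lf (nat_lit 1552) (.g (nat_lit 4992) (.e (nat_lit 214) (nat_lit 19) (.e (nat_lit 319505) (nat_lit 10) (.e (nat_lit 618) (nat_lit 48) (.e (nat_lit 557105) (nat_lit 14) (.e (nat_lit 180252) (nat_lit 10) (.e (nat_lit 573482) (nat_lit 13) (.e (nat_lit 65566) (nat_lit 2) (.e (nat_lit 90134) (nat_lit 9) .nil)))))))) (.g (nat_lit 5) .nil .nil))) 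
(.lf (nat_lit 1584) (.g (nat_lit 3803) (.e (nat_lit 214) (nat_lit 19) (.e (nat_lit 319530) (nat_lit 16) (.e (nat_lit 286735) (nat_lit 3) (.e (nat_lit 98373) (nat_lit 29) (.e (nat_lit 450587) (nat_lit 10) (.e (nat_lit 581376) (nat_lit 0) .nil)))))) (.g (nat_lit 5) .nil .nil))))) (.nd (nat_lit 4) (.nd (nat_lit 5) 
(.lf (nat_lit 1544) (.g (nat_lit 3230) (.e (nat_lit 214) (nat_lit 19) (.e (nat_lit 319505) (nat_lit 10) (.e (nat_lit 618) (nat_lit 48) (.e (nat_lit 557105) (nat_lit 14) (.e (nat_lit 180252) (nat_lit 10) (.e (nat_lit 573480) (nat_lit 13) (.e (nat_lit 65568) (nat_lit 2) (.e (nat_lit 90134) (nat_lit 9) .nil)))))))) (.g (nat_lit 4) .nil .nil))) 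
(.lf (nat_lit 1576) (.g (nat_lit 3316) (.e (nat_lit 214) (nat_lit 19) (.e (nat_lit 319505) (nat_lit 10) (.e (nat_lit 618) (nat_lit 48) (.e (nat_lit 557105) (nat_lit 14) (.e (nat_lit 180252) (nat_lit 10) (.e (nat_lit 573489) (nat_lit 14) (.e (nat_lit 73741) (nat_lit 1) (.e (nat_lit 499817) (nat_lit 5) .nil)))))))) (.g (nat_lit 4) .nil .nil)))) (.nd (nat_lit 5) 
(.lf (nat_lit 1560) (.g (nat_lit 3266) (.e (nat_lit 214) (nat_lit 19) (.e (nat_lit 319505) (nat_lit 10) (.e (nat_lit 618) (nat_lit 48) (.e (nat_lit 557105) (nat_lit 14) (.e (nat_lit 180252) (nat_lit 10) (.e (nat_lit 573488) (nat_lit 14) (.e (nat_lit 73740) (nat_lit 1) (.e (nat_lit 499817) (nat_lit 5) .nil)))))))) (.g (nat_lit 4) .nil .nil))) 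
(.lf (nat_lit 1592) (.g (nat_lit 2928) (.e (nat_lit 214) (nat_lit 19) (.e (nat_lit 319530) (nat_lit 16) (.e (nat_lit 286761) (nat_lit 13) (.e (nat_lit 393234) (nat_lit 17) (.e (nat_lit 7118) (nat_lit 381) (.e (nat_lit 229683) (nat_lit 246) .nil)))))) (.g (nat_lit 4) .nil .nil)))))) (.nd (nat_lit 3) (.nd (nat_lit 4) (.nd (nat_lit 5) 
(.lf (nat_lit 1540) (.g (nat_lit 3832) (.e (nat_lit 214) (nat_lit 19) (.e (nat_lit 319505) (nat_lit 10) (.e (nat_lit 618) (nat_lit 48) (.e (nat_lit 557105) (nat_lit 14) (.e (nat_lit 180251) (nat_lit 10) (.e (nat_lit 573484) (nat_lit 13) (.e (nat_lit 65566) (nat_lit 2) (.e (nat_lit 90130) (nat_lit 9) .nil)))))))) (.g (nat_lit 4) .nil .nil))) 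
(.lf (nat_lit 1572) (.g (nat_lit 3240) (.e (nat_lit 214) (nat_lit 19) (.e (nat_lit 319505) (nat_lit 10) (.e (nat_lit 618) (nat_lit 48) (.e (nat_lit 557105) (nat_lit 14) (.e (nat_lit 180252) (nat_lit 10) (.e (nat_lit 573489) (nat_lit 14) (.e (nat_lit 73738) (nat_lit 1) (.e (nat_lit 499820) (nat_lit 5) .nil)))))))) (.g (nat_lit 4) .nil .nil)))) (.nd (nat_lit 5) 
(.lf (nat_lit 1556) (.g (nat_lit 4129) (.e (nat_lit 214) (nat_lit 19) (.e (nat_lit 319505) (nat_lit 10) (.e (nat_lit 618) (nat_lit 48) (.e (nat_lit 557105) (nat_lit 14) (.e (nat_lit 180252) (nat_lit 10) (.e (nat_lit 573482) (nat_lit 13) (.e (nat_lit 65568) (nat_lit 2) (.e (nat_lit 90130) (nat_lit 9) .nil)))))))) (.g (nat_lit 5) .nil .nil))) 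
(.lf (nat_lit 1588) (.g (nat_lit 2771) (.e (nat_lit 214) (nat_lit 19) (.e (nat_lit 319530) (nat_lit 16) (.e (nat_lit 286761) (nat_lit 13) (.e (nat_lit 393234) (nat_lit 17) (.e (nat_lit 7030) (nat_lit 377) .nil))))) .nil)))) (.nd (nat_lit 4) (.nd (nat_lit 5) 
(.lf (nat_lit 1548) (.g (nat_lit 3981) (.e (nat_lit 214) (nat_lit 19) (.e (nat_lit 319505) (nat_lit 10) (.e (nat_lit 618) (nat_lit 48) (.e (nat_lit 557105) (nat_lit 14) (.e (nat_lit 180252) (nat_lit 10) (.e (nat_lit 573481) (nat_lit 13) (.e (nat_lit 65568) (nat_lit 2) (.e (nat_lit 90134) (nat_lit 9) .nil)))))))) (.g (nat_lit 5) .nil .nil))) 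
(.lf (nat_lit 1580) (.g (nat_lit 4045) (.e (nat_lit 214) (nat_lit 19) (.e (nat_lit 319505) (nat_lit 10) (.e (nat_lit 618) (nat_lit 48) (.e (nat_lit 557105) (nat_lit 14) (.e (nat_lit 180252) (nat_lit 10) (.e (nat_lit 573489) (nat_lit 14) (.e (nat_lit 73741) (nat_lit 1) (.e (nat_lit 499828) (nat_lit 5) .nil)))))))) (.g (nat_lit 5) .nil .nil)))) (.nd (nat_lit 5) 
(.lf (nat_lit 1564) (.g (nat_lit 4046) (.e (nat_lit 214) (nat_lit 19) (.e (nat_lit 319505) (nat_lit 10) (.e (nat_lit 618) (nat_lit 48) (.e (nat_lit 557105) (nat_lit 14) (.e (nat_lit 180252) (nat_lit 10) (.e (nat_lit 573488) (nat_lit 14) (.e (nat_lit 73740) (nat_lit 1) (.e (nat_lit 499828) (nat_lit 5) .nil)))))))) (.g (nat_lit 5) .nil .nil))) 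
(.lf (nat_lit 1596) (.g (nat_lit 3616) (.e (nat_lit 214) (nat_lit 19) (.e (nat_lit 319530) (nat_lit 16) (.e (nat_lit 286761) (nat_lit 13) (.e (nat_lit 393265) (nat_lit 22) (.e (nat_lit 417820) (nat_lit 10) (.e (nat_lit 5612) (nat_lit 312) .nil)))))) (.g (nat_lit 0) .nil .nil))))))) (.nd (nat_lit 2) (.nd (nat_lit 3) (.nd (nat_lit 4) (.nd (nat_lit 5) 
(.lf (nat_lit 1538) (.g (nat_lit 2330) (.e (nat_lit 214) (nat_lit 19) (.e (nat_lit 319505) (nat_lit 10) (.e (nat_lit 584) (nat_lit 43) (.e (nat_lit 516131) (nat_lit 3) (.e (nat_lit 221212) (nat_lit 22) (.e (nat_lit 196681) (nat_lit 17) (.e (nat_lit 131091) (nat_lit 2) (.e (nat_lit 90130) (nat_lit 9) .nil)))))))) (.g (nat_lit 4) .nil .nil))) 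
(.lf (nat_lit 1570) (.g (nat_lit 3346) (.e (nat_lit 214) (nat_lit 19) (.e (nat_lit 319505) (nat_lit 10) (.e (nat_lit 618) (nat_lit 48) (.e (nat_lit 557105) (nat_lit 14) (.e (nat_lit 180252) (nat_lit 10) (.e (nat_lit 573489) (nat_lit 14) (.e (nat_lit 73738) (nat_lit 1) (.e (nat_lit 499817) (nat_lit 5) .nil)))))))) (.g (nat_lit 4) .nil .nil)))) (.nd (nat_lit 5) 
(.lf (nat_lit 1554) (.g (nat_lit 3169) (.e (nat_lit 214) (nat_lit 19) (.e (nat_lit 319505) (nat_lit 10) (.e (nat_lit 618) (nat_lit 48) (.e (nat_lit 557105) (nat_lit 14) (.e (nat_lit 180252) (nat_lit 10) (.e (nat_lit 573482) (nat_lit 13) (.e (nat_lit 65567) (nat_lit 2) (.e (nat_lit 90134) (nat_lit 9) .nil)))))))) (.g (nat_lit 4) .nil .nil))) 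
(.lf (nat_lit 1586) (.g (nat_lit 1877) (.e (nat_lit 214) (nat_lit 19) (.e (nat_lit 319530) (nat_lit 16) (.e (nat_lit 286748) (nat_lit 9) (.e (nat_lit 336389) (nat_lit 27) (.e (nat_lit 426182) (nat_lit 8) .nil))))) .nil)))) (.nd (nat_lit 4) (.nd (nat_lit 5) 
(.lf (nat_lit 1546) (.g (nat_lit 3693) (.e (nat_lit 214) (nat_lit 19) (.e (nat_lit 319505) (nat_lit 10) (.e (nat_lit 618) (nat_lit 48) (.e (nat_lit 557105) (nat_lit 14) (.e (nat_lit 180252) (nat_lit 10) (.e (nat_lit 573481) (nat_lit 13) (.e (nat_lit 65566) (nat_lit 2) (.e (nat_lit 90134) (nat_lit 9) .nil)))))))) (.g (nat_lit 4) .nil .nil))) 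
(.lf (nat_lit 1578) (.g (nat_lit 3584) (.e (nat_lit 214) (nat_lit 19) (.e (nat_lit 319505) (nat_lit 10) (.e (nat_lit 618) (nat_lit 48) (.e (nat_lit 557105) (nat_lit 14) (.e (nat_lit 180252) (nat_lit 10) (.e (nat_lit 573489) (nat_lit 14) (.e (nat_lit 73741) (nat_lit 1) (.e (nat_lit 499820) (nat_lit 5) .nil)))))))) (.g (nat_lit 4) .nil .nil)))) (.nd (nat_lit 5) 
(.lf (nat_lit 1562) (.g (nat_lit 3029) (.e (nat_lit 214) (nat_lit 19) (.e (nat_lit 319505) (nat_lit 10) (.e (nat_lit 618) (nat_lit 48) (.e (nat_lit 557105) (nat_lit 14) (.e (nat_lit 180252) (nat_lit 10) (.e (nat_lit 573488) (nat_lit 14) (.e (nat_lit 73740) (nat_lit 1) (.e (nat_lit 499820) (nat_lit 5) .nil)))))))) (.g (nat_lit 4) .nil .nil))) 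
(.lf (nat_lit 1594) (.g (nat_lit 1778) (.e (nat_lit 214) (nat_lit 19) (.e (nat_lit 319530) (nat_lit 16) (.e (nat_lit 286761) (nat_lit 13) (.e (nat_lit 393263) (nat_lit 22) .nil)))) .nil))))) (.nd (nat_lit 3) (.nd (nat_lit 4) (.nd (nat_lit 5) 
(.lf (nat_lit 1542) (.g (nat_lit 2592) (.e (nat_lit 214) (nat_lit 19) (.e (nat_lit 319505) (nat_lit 10) (.e (nat_lit 618) (nat_lit 48) (.e (nat_lit 557105) (nat_lit 14) (.e (nat_lit 180252) (nat_lit 10) .nil))))) .nil)) 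
(.lf (nat_lit 1574) (.g (nat_lit 4263) (.e (nat_lit 214) (nat_lit 19) (.e (nat_lit 319505) (nat_lit 10) (.e (nat_lit 618) (nat_lit 48) (.e (nat_lit 557105) (nat_lit 14) (.e (nat_lit 180252) (nat_lit 10) (.e (nat_lit 573489) (nat_lit 14) (.e (nat_lit 73738) (nat_lit 1) (.e (nat_lit 499828) (nat_lit 5) .nil)))))))) (.g (nat_lit 5) .nil .nil)))) (.nd (nat_lit 5) 
(.lf (nat_lit 1558) (.g (nat_lit 3721) (.e (nat_lit 214) (nat_lit 19) (.e (nat_lit 319505) (nat_lit 10) (.e (nat_lit 618) (nat_lit 48) (.e (nat_lit 557105) (nat_lit 14) (.e (nat_lit 180252) (nat_lit 10) (.e (nat_lit 573488) (nat_lit 14) (.e (nat_lit 73738) (nat_lit 1) (.e (nat_lit 499828) (nat_lit 5) .nil)))))))) (.g (nat_lit 4) .nil .nil))) 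
(.lf (nat_lit 1590) (.g (nat_lit 2487) (.e (nat_lit 214) (nat_lit 19) (.e (nat_lit 319530) (nat_lit 16) (.e (nat_lit 286761) (nat_lit 13) (.e (nat_lit 393234) (nat_lit 17) (.e (nat_lit 7110) (nat_lit 380) (.e (nat_lit 164351) (nat_lit 246) .nil)))))) (.g (nat_lit 4) .nil .nil))))) (.nd (nat_lit 4) (.nd (nat_lit 5) 
(.lf (nat_lit 1550) (.g (nat_lit 3438) (.e (nat_lit 214) (nat_lit 19) (.e (nat_lit 319505) (nat_lit 10) (.e (nat_lit 618) (nat_lit 48) (.e (nat_lit 557105) (nat_lit 14) (.e (nat_lit 180252) (nat_lit 10) (.e (nat_lit 573482) (nat_lit 13) (.e (nat_lit 65566) (nat_lit 2) (.e (nat_lit 90127) (nat_lit 9) .nil)))))))) (.g (nat_lit 4) .nil .nil))) 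
(.lf (nat_lit 1582) (.g (nat_lit 3377) (.e (nat_lit 214) (nat_lit 19) (.e (nat_lit 319511) (nat_lit 10) (.e (nat_lit 5293) (nat_lit 298) (.e (nat_lit 1656) (nat_lit 115) (.e (nat_lit 393265) (nat_lit 22) (.e (nat_lit 417820) (nat_lit 10) (.e (nat_lit 5626) (nat_lit 312) .nil))))))) (.g (nat_lit 0) .nil .nil)))) (.nd (nat_lit 5) 
(.lf (nat_lit 1566) (.g (nat_lit 3144) (.e (nat_lit 214) (nat_lit 19) (.e (nat_lit 319505) (nat_lit 10) (.e (nat_lit 618) (nat_lit 48) (.e (nat_lit 557105) (nat_lit 14) (.e (nat_lit 180252) (nat_lit 10) (.e (nat_lit 573488) (nat_lit 14) (.e (nat_lit 73741) (nat_lit 1) (.e (nat_lit 499827) (nat_lit 5) .nil)))))))) (.g (nat_lit 4) .nil .nil))) 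
(.lf (nat_lit 1598) (.g (nat_lit 3362) (.e (nat_lit 214) (nat_lit 19) (.e (nat_lit 319531) (nat_lit 16) (.e (nat_lit 286735) (nat_lit 3) (.e (nat_lit 98373) (nat_lit 29) (.e (nat_lit 450588) (nat_lit 10) (.e (nat_lit 581376) (nat_lit 0) .nil)))))) (.g (nat_lit 5) .nil .nil)))))))) (.nd (nat_lit 1) (.nd (nat_lit 2) (.nd (nat_lit 3) (.nd (nat_lit 4) (.nd (nat_lit 5) 
(.lf (nat_lit 1537) (.g (nat_lit 2923) (.e (nat_lit 214) (nat_lit 19) (.e (nat_lit 319504) (nat_lit 10) (.e (nat_lit 618) (nat_lit 48) (.e (nat_lit 557105) (nat_lit 14) (.e (nat_lit 180252) (nat_lit 10) (.e (nat_lit 573482) (nat_lit 13) (.e (nat_lit 65568) (nat_lit 2) (.e (nat_lit 90134) (nat_lit 9) .nil)))))))) (.g (nat_lit 4) .nil .nil))) 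
(.lf (nat_lit 1569) (.g (nat_lit 3275) (.e (nat_lit 214) (nat_lit 19) (.e (nat_lit 319505) (nat_lit 10) (.e (nat_lit 618) (nat_lit 48) (.e (nat_lit 557105) (nat_lit 14) (.e (nat_lit 180252) (nat_lit 10) (.e (nat_lit 573489) (nat_lit 14) (.e (nat_lit 73738) (nat_lit 1) (.e (nat_lit 499811) (nat_lit 5) .nil)))))))) (.g (nat_lit 4) .nil .nil)))) (.nd (nat_lit 5) 
(.lf (nat_lit 1553) (.g (nat_lit 3555) (.e (nat_lit 214) (nat_lit 19) (.e (nat_lit 319505) (nat_lit 10) (.e (nat_lit 618) (nat_lit 48) (.e (nat_lit 557105) (nat_lit 14) (.e (nat_lit 180252) (nat_lit 10) (.e (nat_lit 573482) (nat_lit 13) (.e (nat_lit 65567) (nat_lit 2) (.e (nat_lit 90130) (nat_lit 9) .nil)))))))) (.g (nat_lit 4) .nil .nil))) 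
(.lf (nat_lit 1585) (.g (nat_lit 3920) (.e (nat_lit 214) (nat_lit 19) (.e (nat_lit 319530) (nat_lit 16) (.e (nat_lit 286735) (nat_lit 3) (.e (nat_lit 98373) (nat_lit 29) (.e (nat_lit 450588) (nat_lit 10) (.e (nat_lit 581376) (nat_lit 0) .nil)))))) (.g (nat_lit 5) .nil .nil))))) (.nd (nat_lit 4) (.nd (nat_lit 5) 
(.lf (nat_lit 1545) (.g (nat_lit 3058) (.e (nat_lit 214) (nat_lit 19) (.e (nat_lit 319505) (nat_lit 10) (.e (nat_lit 618) (nat_lit 48) (.e (nat_lit 557105) (nat_lit 14) (.e (nat_lit 180252) (nat_lit 10) (.e (nat_lit 573481) (nat_lit 13) (.e (nat_lit 65566) (nat_lit 2) (.e (nat_lit 90130) (nat_lit 9) .nil)))))))) (.g (nat_lit 4) .nil .nil))) 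
(.lf (nat_lit 1577) (.g (nat_lit 3434) (.e (nat_lit 214) (nat_lit 19) (.e (nat_lit 319505) (nat_lit 10) (.e (nat_lit 618) (nat_lit 48) (.e (nat_lit 557105) (nat_lit 14) (.e (nat_lit 180252) (nat_lit 10) (.e (nat_lit 573489) (nat_lit 14) (.e (nat_lit 73741) (nat_lit 1) (.e (nat_lit 499819) (nat_lit 5) .nil)))))))) (.g (nat_lit 4) .nil .nil)))) (.nd (nat_lit 5) 
(.lf (nat_lit 1561) (.g (nat_lit 3139) (.e (nat_lit 214) (nat_lit 19) (.e (nat_lit 319505) (nat_lit 10) (.e (nat_lit 618) (nat_lit 48) (.e (nat_lit 557105) (nat_lit 14) (.e (nat_lit 180252) (nat_lit 10) (.e (nat_lit 573488) (nat_lit 14) (.e (nat_lit 73740) (nat_lit 1) (.e (nat_lit 499819) (nat_lit 5) .nil)))))))) (.g (nat_lit 4) .nil .nil))) 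
(.lf (nat_lit 1593) (.g (nat_lit 1600) (.e (nat_lit 214) (nat_lit 19) (.e (nat_lit 319530) (nat_lit 16) (.e (nat_lit 286761) (nat_lit 13) (.e (nat_lit 393260) (nat_lit 21) .nil)))) .nil))))) (.nd (nat_lit 3) (.nd (nat_lit 4) (.nd (nat_lit 5) 
(.lf (nat_lit 1541) (.g (nat_lit 4467) (.e (nat_lit 214) (nat_lit 19) (.e (nat_lit 319505) (nat_lit 10) (.e (nat_lit 618) (nat_lit 48) (.e (nat_lit 557105) (nat_lit 14) (.e (nat_lit 180251) (nat_lit 10) (.e (nat_lit 573484) (nat_lit 13) (.e (nat_lit 65566) (nat_lit 2) (.e (nat_lit 90134) (nat_lit 9) .nil)))))))) (.g (nat_lit 5) .nil .nil))) 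
(.lf (nat_lit 1573) (.g (nat_lit 3453) (.e (nat_lit 214) (nat_lit 19) (.e (nat_lit 319505) (nat_lit 10) (.e (nat_lit 618) (nat_lit 48) (.e (nat_lit 557105) (nat_lit 14) (.e (nat_lit 180252) (nat_lit 10) (.e (nat_lit 573489) (nat_lit 14) (.e (nat_lit 73738) (nat_lit 1) (.e (nat_lit 499827) (nat_lit 5) .nil)))))))) (.g (nat_lit 4) .nil .nil)))) (.nd (nat_lit 5) 
(.lf (nat_lit 1557) (.g (nat_lit 4757) (.e (nat_lit 214) (nat_lit 19) (.e (nat_lit 319505) (nat_lit 10) (.e (nat_lit 618) (nat_lit 48) (.e (nat_lit 557105) (nat_lit 14) (.e (nat_lit 180252) (nat_lit 10) (.e (nat_lit 573482) (nat_lit 13) (.e (nat_lit 65568) (nat_lit 2) (.e (nat_lit 90134) (nat_lit 9) .nil)))))))) (.g (nat_lit 5) .nil .nil))) 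
(.lf (nat_lit 1589) (.g (nat_lit 1835) (.e (nat_lit 214) (nat_lit 19) (.e (nat_lit 319530) (nat_lit 16) (.e (nat_lit 286761) (nat_lit 13) (.e (nat_lit 393234) (nat_lit 17) (.e (nat_lit 7065) (nat_lit 377) .nil))))) .nil)))) (.nd (nat_lit 4) (.nd (nat_lit 5) 
(.lf (nat_lit 1549) (.g (nat_lit 3396) (.e (nat_lit 214) (nat_lit 19) (.e (nat_lit 319505) (nat_lit 10) (.e (nat_lit 618) (nat_lit 48) (.e (nat_lit 557105) (nat_lit 14) (.e (nat_lit 180252) (nat_lit 10) (.e (nat_lit 573482) (nat_lit 13) (.e (nat_lit 65566) (nat_lit 2) (.e (nat_lit 90121) (nat_lit 9) .nil)))))))) (.g (nat_lit 4) .nil .nil))) 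
(.lf (nat_lit 1581) (.g (nat_lit 2125) (.e (nat_lit 214) (nat_lit 19) (.e (nat_lit 319506) (nat_lit 10) (.e (nat_lit 5296) (nat_lit 298) (.e (nat_lit 1656) (nat_lit 115) (.e (nat_lit 393265) (nat_lit 22) (.e (nat_lit 417820) (nat_lit 10) (.e (nat_lit 5626) (nat_lit 312) .nil))))))) (.g (nat_lit 4) .nil .nil)))) (.nd (nat_lit 5) 
(.lf (nat_lit 1565) (.g (nat_lit 3123) (.e (nat_lit 214) (nat_lit 19) (.e (nat_lit 319505) (nat_lit 10) (.e (nat_lit 618) (nat_lit 48) (.e (nat_lit 557105) (nat_lit 14) (.e (nat_lit 180252) (nat_lit 10) (.e (nat_lit 573488) (nat_lit 14) (.e (nat_lit 73741) (nat_lit 1) (.e (nat_lit 499820) (nat_lit 5) .nil)))))))) (.g (nat_lit 4) .nil .nil))) 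
(.lf (nat_lit 1597) (.g (nat_lit 3157) (.e (nat_lit 214) (nat_lit 19) (.e (nat_lit 319531) (nat_lit 16) (.e (nat_lit 286735) (nat_lit 3) (.e (nat_lit 98373) (nat_lit 29) (.e (nat_lit 450587) (nat_lit 10) (.e (nat_lit 581376) (nat_lit 0) .nil)))))) (.g (nat_lit 5) .nil .nil))))))) (.nd (nat_lit 2) (.nd (nat_lit 3) (.nd (nat_lit 4) (.nd (nat_lit 5) 
(.lf (nat_lit 1539) (.g (nat_lit 3001) (.e (nat_lit 214) (nat_lit 19) (.e (nat_lit 319505) (nat_lit 10) (.e (nat_lit 584) (nat_lit 43) (.e (nat_lit 516131) (nat_lit 3) (.e (nat_lit 221212) (nat_lit 22) (.e (nat_lit 196681) (nat_lit 17) (.e (nat_lit 131093) (nat_lit 2) (.e (nat_lit 90130) (nat_lit 9) .nil)))))))) (.g (nat_lit 5) .nil .nil))) 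
(.lf (nat_lit 1571) (.g (nat_lit 3178) (.e (nat_lit 214) (nat_lit 19) (.e (nat_lit 319505) (nat_lit 10) (.e (nat_lit 618) (nat_lit 48) (.e (nat_lit 557105) (nat_lit 14) (.e (nat_lit 180252) (nat_lit 10) (.e (nat_lit 573489) (nat_lit 14) (.e (nat_lit 73738) (nat_lit 1) (.e (nat_lit 499819) (nat_lit 5) .nil)))))))) (.g (nat_lit 4) .nil .nil)))) (.nd (nat_lit 5) 
(.lf (nat_lit 1555) (.g (nat_lit 3408) (.e (nat_lit 214) (nat_lit 19) (.e (nat_lit 319505) (nat_lit 10) (.e (nat_lit 618) (nat_lit 48) (.e (nat_lit 557105) (nat_lit 14) (.e (nat_lit 180252) (nat_lit 10) (.e (nat_lit 573482) (nat_lit 13) (.e (nat_lit 65568) (nat_lit 2) (.e (nat_lit 90121) (nat_lit 9) .nil)))))))) (.g (nat_lit 4) .nil .nil))) 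
(.lf (nat_lit 1587) (.g (nat_lit 391) (.e (nat_lit 214) (nat_lit 19) (.e (nat_lit 319530) (nat_lit 16) (.e (nat_lit 286761) (nat_lit 13) .nil))) .nil)))) (.nd (nat_lit 4) (.nd (nat_lit 5) 
(.lf (nat_lit 1547) (.g (nat_lit 3366) (.e (nat_lit 214) (nat_lit 19) (.e (nat_lit 319505) (nat_lit 10) (.e (nat_lit 618) (nat_lit 48) (.e (nat_lit 557105) (nat_lit 14) (.e (nat_lit 180252) (nat_lit 10) (.e (nat_lit 573481) (nat_lit 13) (.e (nat_lit 65568) (nat_lit 2) (.e (nat_lit 90130) (nat_lit 9) .nil)))))))) (.g (nat_lit 4) .nil .nil))) 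
(.lf (nat_lit 1579) (.g (nat_lit 3605) (.e (nat_lit 214) (nat_lit 19) (.e (nat_lit 319505) (nat_lit 10) (.e (nat_lit 618) (nat_lit 48) (.e (nat_lit 557105) (nat_lit 14) (.e (nat_lit 180252) (nat_lit 10) (.e (nat_lit 573489) (nat_lit 14) (.e (nat_lit 73741) (nat_lit 1) (.e (nat_lit 499827) (nat_lit 5) .nil)))))))) (.g (nat_lit 4) .nil .nil)))) (.nd (nat_lit 5) 
(.lf (nat_lit 1563) (.g (nat_lit 3634) (.e (nat_lit 214) (nat_lit 19) (.e (nat_lit 319505) (nat_lit 10) (.e (nat_lit 618) (nat_lit 48) (.e (nat_lit 557105) (nat_lit 14) (.e (nat_lit 180252) (nat_lit 10) (.e (nat_lit 573488) (nat_lit 14) (.e (nat_lit 73740) (nat_lit 1) (.e (nat_lit 499827) (nat_lit 5) .nil)))))))) (.g (nat_lit 4) .nil .nil))) 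
(.lf (nat_lit 1595) (.g (nat_lit 2509) (.e (nat_lit 214) (nat_lit 19) (.e (nat_lit 319530) (nat_lit 16) (.e (nat_lit 286761) (nat_lit 13) (.e (nat_lit 393265) (nat_lit 22) (.e (nat_lit 417815) (nat_lit 10) (.e (nat_lit 5627) (nat_lit 312) .nil)))))) (.g (nat_lit 4) .nil .nil)))))) (.nd (nat_lit 3) (.nd (nat_lit 4) (.nd (nat_lit 5) 
(.lf (nat_lit 1543) (.g (nat_lit 3092) (.e (nat_lit 214) (nat_lit 19) (.e (nat_lit 319505) (nat_lit 10) (.e (nat_lit 618) (nat_lit 48) (.e (nat_lit 557105) (nat_lit 14) (.e (nat_lit 180252) (nat_lit 10) (.e (nat_lit 573451) (nat_lit 9) (.e (nat_lit 1449) (nat_lit 108) (.e (nat_lit 336013) (nat_lit 2) (.e (nat_lit 90121) (nat_lit 9) .nil))))))))) (.g (nat_lit 4) .nil .nil))) 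
(.lf (nat_lit 1575) (.g (nat_lit 3196) (.e (nat_lit 214) (nat_lit 19) (.e (nat_lit 319505) (nat_lit 10) (.e (nat_lit 618) (nat_lit 48) (.e (nat_lit 557105) (nat_lit 14) (.e (nat_lit 180252) (nat_lit 10) (.e (nat_lit 573489) (nat_lit 14) (.e (nat_lit 73741) (nat_lit 1) (.e (nat_lit 499811) (nat_lit 5) .nil)))))))) (.g (nat_lit 4) .nil .nil)))) (.nd (nat_lit 5) 
(.lf (nat_lit 1559) (.g (nat_lit 3147) (.e (nat_lit 214) (nat_lit 19) (.e (nat_lit 319505) (nat_lit 10) (.e (nat_lit 618) (nat_lit 48) (.e (nat_lit 557105) (nat_lit 14) (.e (nat_lit 180252) (nat_lit 10) (.e (nat_lit 573488) (nat_lit 14) (.e (nat_lit 73740) (nat_lit 1) (.e (nat_lit 499811) (nat_lit 5) .nil)))))))) (.g (nat_lit 4) .nil .nil))) 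
(.lf (nat_lit 1591) (.g (nat_lit 3138) (.e (nat_lit 214) (nat_lit 19) (.e (nat_lit 319530) (nat_lit 16) (.e (nat_lit 286761) (nat_lit 13) (.e (nat_lit 393234) (nat_lit 17) (.e (nat_lit 7111) (nat_lit 381) (.e (nat_lit 229683) (nat_lit 246) .nil)))))) (.g (nat_lit 4) .nil .nil))))) (.nd (nat_lit 4) (.nd (nat_lit 5) 
(.lf (nat_lit 1551) (.g (nat_lit 4433) (.e (nat_lit 214) (nat_lit 19) (.e (nat_lit 319505) (nat_lit 10) (.e (nat_lit 618) (nat_lit 48) (.e (nat_lit 557105) (nat_lit 14) (.e (nat_lit 180252) (nat_lit 10) (.e (nat_lit 573482) (nat_lit 13) (.e (nat_lit 65566) (nat_lit 2) (.e (nat_lit 90130) (nat_lit 9) .nil)))))))) (.g (nat_lit 5) .nil .nil))) 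
(.lf (nat_lit 1583) (.g (nat_lit 3079) (.e (nat_lit 214) (nat_lit 19) (.e (nat_lit 319529) (nat_lit 16) (.e (nat_lit 286761) (nat_lit 13) (.e (nat_lit 393265) (nat_lit 22) (.e (nat_lit 417820) (nat_lit 10) (.e (nat_lit 5626) (nat_lit 312) .nil)))))) (.g (nat_lit 6) .nil .nil)))) (.nd (nat_lit 5) 
(.lf (nat_lit 1567) (.g (nat_lit 3584) (.e (nat_lit 214) (nat_lit 19) (.e (nat_lit 319505) (nat_lit 10) (.e (nat_lit 618) (nat_lit 48) (.e (nat_lit 557105) (nat_lit 14) (.e (nat_lit 180252) (nat_lit 10) (.e (nat_lit 573488) (nat_lit 14) (.e (nat_lit 73741) (nat_lit 1) (.e (nat_lit 499828) (nat_lit 5) .nil)))))))) (.g (nat_lit 4) .nil .nil))) 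
(.lf (nat_lit 1599) (.g (nat_lit 1884) (.e (nat_lit 214) (nat_lit 19) (.e (nat_lit 319531) (nat_lit 16) (.e (nat_lit 286748) (nat_lit 9) (.e (nat_lit 336389) (nat_lit 27) (.e (nat_lit 426182) (nat_lit 8) .nil))))) .nil))))))))

noncomputable def tv022 : DT := (.nd (nat_lit 0) (.nd (nat_lit 1) (.nd (nat_lit 2) (.nd (nat_lit 3) (.nd (nat_lit 4) (.nd (nat_lit 5) 
(.lf (nat_lit 1600) (.g (nat_lit 467) (.e (nat_lit 214) (nat_lit 19) (.e (nat_lit 319531) (nat_lit 16) (.e (nat_lit 286761) (nat_lit 13) .nil))) .nil)) 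
(.lf (nat_lit 1632) (.g (nat_lit 1955) (.e (nat_lit 216) (nat_lit 19) (.e (nat_lit 319530) (nat_lit 16) (.e (nat_lit 286761) (nat_lit 13) (.e (nat_lit 393233) (nat_lit 17) (.e (nat_lit 7110) (nat_lit 380) .nil))))) .nil))) (.nd (nat_lit 5) 
(.lf (nat_lit 1616) (.g (nat_lit 2723) (.e (nat_lit 216) (nat_lit 19) (.e (nat_lit 319528) (nat_lit 16) (.e (nat_lit 286761) (nat_lit 13) (.e (nat_lit 393234) (nat_lit 17) (.e (nat_lit 7109) (nat_lit 380) (.e (nat_lit 164354) (nat_lit 246) .nil)))))) (.g (nat_lit 6) .nil .nil))) 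
(.lf (nat_lit 1648) (.g (nat_lit 2055) (.e (nat_lit 216) (nat_lit 19) (.e (nat_lit 319530) (nat_lit 16) (.e (nat_lit 286761) (nat_lit 13) (.e (nat_lit 393263) (nat_lit 22) (.e (nat_lit 425728) (nat_lit 10) .nil))))) .nil)))) (.nd (nat_lit 4) (.nd (nat_lit 5) 
(.lf (nat_lit 1608) (.g (nat_lit 2874) (.e (nat_lit 214) (nat_lit 19) (.e (nat_lit 319534) (nat_lit 16) (.e (nat_lit 286761) (nat_lit 13) (.e (nat_lit 393265) (nat_lit 22) (.e (nat_lit 417820) (nat_lit 10) (.e (nat_lit 5612) (nat_lit 312) .nil)))))) (.g (nat_lit 0) .nil .nil))) 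
(.lf (nat_lit 1640) (.g (nat_lit 3313) (.e (nat_lit 216) (nat_lit 19) (.e (nat_lit 319530) (nat_lit 16) (.e (nat_lit 286761) (nat_lit 13) (.e (nat_lit 393234) (nat_lit 17) (.e (nat_lit 7109) (nat_lit 380) (.e (nat_lit 164358) (nat_lit 246) .nil)))))) (.g (nat_lit 0) .nil .nil)))) (.nd (nat_lit 5) 
(.lf (nat_lit 1624) (.g (nat_lit 1630) (.e (nat_lit 216) (nat_lit 19) (.e (nat_lit 319528) (nat_lit 16) (.e (nat_lit 286761) (nat_lit 13) (.e (nat_lit 393265) (nat_lit 22) (.e (nat_lit 417817) (nat_lit 10) .nil))))) .nil)) 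
(.lf (nat_lit 1656) (.g (nat_lit 3539) (.e (nat_lit 216) (nat_lit 19) (.e (nat_lit 319531) (nat_lit 16) (.e (nat_lit 286735) (nat_lit 3) (.e (nat_lit 98373) (nat_lit 29) (.e (nat_lit 450563) (nat_lit 0) (.e (nat_lit 4181) (nat_lit 251) (.e (nat_lit 2400) (nat_lit 157) .nil))))))) (.g (nat_lit 7) .nil .nil)))))) (.nd (nat_lit 3) (.nd (nat_lit 4) (.nd (nat_lit 5) 
(.lf (nat_lit 1604) (.g (nat_lit 2998) (.e (nat_lit 214) (nat_lit 19) (.e (nat_lit 319533) (nat_lit 16) (.e (nat_lit 286761) (nat_lit 13) (.e (nat_lit 393265) (nat_lit 22) (.e (nat_lit 417820) (nat_lit 10) (.e (nat_lit 5612) (nat_lit 312) .nil)))))) (.g (nat_lit 6) .nil .nil))) 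
(.lf (nat_lit 1636) (.g (nat_lit 2661) (.e (nat_lit 216) (nat_lit 19) (.e (nat_lit 319530) (nat_lit 16) (.e (nat_lit 286761) (nat_lit 13) (.e (nat_lit 393234) (nat_lit 17) (.e (nat_lit 7065) (nat_lit 377) (.e (nat_lit 2508) (nat_lit 157) (.e (nat_lit 5629) (nat_lit 312) .nil))))))) (.g (nat_lit 5) .nil .nil)))) (.nd (nat_lit 5) 
(.lf (nat_lit 1620) (.g (nat_lit 1822) (.e (nat_lit 216) (nat_lit 19) (.e (nat_lit 319528) (nat_lit 16) (.e (nat_lit 286761) (nat_lit 13) (.e (nat_lit 393263) (nat_lit 22) (.e (nat_lit 417817) (nat_lit 10) .nil))))) .nil)) 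
(.lf (nat_lit 1652) (.g (nat_lit 1806) (.e (nat_lit 216) (nat_lit 19) (.e (nat_lit 319530) (nat_lit 16) (.e (nat_lit 286761) (nat_lit 13) (.e (nat_lit 393264) (nat_lit 22) (.e (nat_lit 417817) (nat_lit 10) (.e (nat_lit 5631) (nat_lit 312) .nil)))))) (.g (nat_lit 4) .nil .nil))))) (.nd (nat_lit 4) (.nd (nat_lit 5) 
(.lf (nat_lit 1612) (.g (nat_lit 2579) (.e (nat_lit 215) (nat_lit 19) (.e (nat_lit 319534) (nat_lit 16) (.e (nat_lit 286756) (nat_lit 10) (.e (nat_lit 344177) (nat_lit 43) (.e (nat_lit 770073) (nat_lit 9) (.e (nat_lit 81664) (nat_lit 32) .nil)))))) (.g (nat_lit 4) .nil .nil))) 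
(.lf (nat_lit 1644) (.g (nat_lit 2730) (.e (nat_lit 216) (nat_lit 19) (.e (nat_lit 319530) (nat_lit 16) (.e (nat_lit 286761) (nat_lit 13) (.e (nat_lit 393260) (nat_lit 21) (.e (nat_lit 409623) (nat_lit 10) (.e (nat_lit 5629) (nat_lit 312) .nil)))))) (.g (nat_lit 4) .nil .nil)))) (.nd (nat_lit 5) 
(.lf (nat_lit 1628) (.g (nat_lit 1465) (.e (nat_lit 216) (nat_lit 19) (.e (nat_lit 319530) (nat_lit 16) (.e (nat_lit 286743) (nat_lit 9) (.e (nat_lit 336438) (nat_lit 31) .nil)))) .nil)) 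
(.lf (nat_lit 1660) (.g (nat_lit 432) (.e (nat_lit 216) (nat_lit 19) (.e (nat_lit 319531) (nat_lit 16) (.e (nat_lit 286748) (nat_lit 9) .nil))) .nil)))))) (.nd (nat_lit 2) (.nd (nat_lit 3) (.nd (nat_lit 4) (.nd (nat_lit 5) 
(.lf (nat_lit 1602) (.g (nat_lit 3078) (.e (nat_lit 214) (nat_lit 19) (.e (nat_lit 319531) (nat_lit 16) (.e (nat_lit 286761) (nat_lit 13) (.e (nat_lit 393265) (nat_lit 22) (.e (nat_lit 417820) (nat_lit 10) (.e (nat_lit 5612) (nat_lit 312) .nil)))))) (.g (nat_lit 6) .nil .nil))) 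
(.lf (nat_lit 1634) (.g (nat_lit 1989) (.e (nat_lit 216) (nat_lit 19) (.e (nat_lit 319530) (nat_lit 16) (.e (nat_lit 286761) (nat_lit 13) (.e (nat_lit 393234) (nat_lit 17) (.e (nat_lit 7065) (nat_lit 377) (.e (nat_lit 2487) (nat_lit 157) (.e (nat_lit 5632) (nat_lit 312) .nil))))))) (.g (nat_lit 4) .nil .nil)))) (.nd (nat_lit 5) 
(.lf (nat_lit 1618) (.g (nat_lit 3244) (.e (nat_lit 216) (nat_lit 19) (.e (nat_lit 319528) (nat_lit 16) (.e (nat_lit 286761) (nat_lit 13) (.e (nat_lit 393234) (nat_lit 17) (.e (nat_lit 7110) (nat_lit 380) (.e (nat_lit 164353) (nat_lit 246) .nil)))))) (.g (nat_lit 0) .nil .nil))) 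
(.lf (nat_lit 1650) (.g (nat_lit 1500) (.e (nat_lit 216) (nat_lit 19) (.e (nat_lit 319530) (nat_lit 16) (.e (nat_lit 286761) (nat_lit 13) (.e (nat_lit 393264) (nat_lit 22) (.e (nat_lit 417817) (nat_lit 10) .nil))))) .nil)))) (.nd (nat_lit 4) (.nd (nat_lit 5) 
(.lf (nat_lit 1610) (.g (nat_lit 2496) (.e (nat_lit 215) (nat_lit 19) (.e (nat_lit 319531) (nat_lit 16) (.e (nat_lit 286761) (nat_lit 13) (.e (nat_lit 393234) (nat_lit 17) (.e (nat_lit 7109) (nat_lit 380) .nil))))) .nil)) 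
(.lf (nat_lit 1642) (.g (nat_lit 2827) (.e (nat_lit 216) (nat_lit 19) (.e (nat_lit 319530) (nat_lit 16) (.e (nat_lit 286761) (nat_lit 13) (.e (nat_lit 393234) (nat_lit 17) (.e (nat_lit 7110) (nat_lit 380) (.e (nat_lit 164356) (nat_lit 246) .nil)))))) (.g (nat_lit 5) .nil .nil)))) (.nd (nat_lit 5) 
(.lf (nat_lit 1626) (.g (nat_lit 2100) (.e (nat_lit 216) (nat_lit 19) (.e (nat_lit 319530) (nat_lit 16) (.e (nat_lit 286735) (nat_lit 3) (.e (nat_lit 98373) (nat_lit 29) (.e (nat_lit 450562) (nat_lit 0) (.e (nat_lit 4181) (nat_lit 251) (.e (nat_lit 2400) (nat_lit 157) .nil))))))) (.g (nat_lit 4) .nil .nil))) 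
(.lf (nat_lit 1658) (.g (nat_lit 2997) (.e (nat_lit 216) (nat_lit 19) (.e (nat_lit 319531) (nat_lit 16) (.e (nat_lit 286735) (nat_lit 3) (.e (nat_lit 98373) (nat_lit 29) (.e (nat_lit 450588) (nat_lit 10) (.e (nat_lit 581376) (nat_lit 0) .nil)))))) (.g (nat_lit 5) .nil .nil)))))) (.nd (nat_lit 3) (.nd (nat_lit 4) (.nd (nat_lit 5) 
(.lf (nat_lit 1606) (.g (nat_lit 2908) (.e (nat_lit 214) (nat_lit 19) (.e (nat_lit 319534) (nat_lit 16) (.e (nat_lit 286756) (nat_lit 10) (.e (nat_lit 344177) (nat_lit 43) (.e (nat_lit 770073) (nat_lit 9) (.e (nat_lit 81664) (nat_lit 32) .nil)))))) (.g (nat_lit 4) .nil .nil))) 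
(.lf (nat_lit 1638) (.g (nat_lit 2700) (.e (nat_lit 216) (nat_lit 19) (.e (nat_lit 319530) (nat_lit 16) (.e (nat_lit 286761) (nat_lit 13) (.e (nat_lit 393234) (nat_lit 17) (.e (nat_lit 7109) (nat_lit 380) (.e (nat_lit 164353) (nat_lit 246) .nil)))))) (.g (nat_lit 5) .nil .nil)))) (.nd (nat_lit 5) 
(.lf (nat_lit 1622) (.g (nat_lit 824) (.e (nat_lit 216) (nat_lit 19) (.e (nat_lit 319528) (nat_lit 16) (.e (nat_lit 286761) (nat_lit 13) (.e (nat_lit 393264) (nat_lit 22) .nil)))) .nil)) 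
(.lf (nat_lit 1654) (.g (nat_lit 2029) (.e (nat_lit 216) (nat_lit 19) (.e (nat_lit 319530) (nat_lit 16) (.e (nat_lit 286761) (nat_lit 13) (.e (nat_lit 393265) (nat_lit 22) (.e (nat_lit 417817) (nat_lit 10) .nil))))) .nil)))) (.nd (nat_lit 4) (.nd (nat_lit 5) 
(.lf (nat_lit 1614) (.g (nat_lit 1634) (.e (nat_lit 216) (nat_lit 19) (.e (nat_lit 319490) (nat_lit 0) (.e (nat_lit 5664) (nat_lit 312) (.e (nat_lit 2852) (nat_lit 184) .nil)))) .nil)) 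
(.lf (nat_lit 1646) (.g (nat_lit 1468) (.e (nat_lit 216) (nat_lit 19) (.e (nat_lit 319530) (nat_lit 16) (.e (nat_lit 286761) (nat_lit 13) (.e (nat_lit 393262) (nat_lit 22) .nil)))) .nil))) (.nd (nat_lit 5) 
(.lf (nat_lit 1630) (.g (nat_lit 2151) (.e (nat_lit 216) (nat_lit 19) (.e (nat_lit 319530) (nat_lit 16) (.e (nat_lit 286748) (nat_lit 9) (.e (nat_lit 336389) (nat_lit 27) (.e (nat_lit 426012) (nat_lit 0) (.e (nat_lit 7110) (nat_lit 380) (.e (nat_lit 164353) (nat_lit 246) .nil))))))) (.g (nat_lit 5) .nil .nil))) 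
(.lf (nat_lit 1662) (.g (nat_lit 2488) (.e (nat_lit 216) (nat_lit 19) (.e (nat_lit 319531) (nat_lit 16) (.e (nat_lit 286748) (nat_lit 9) (.e (nat_lit 336389) (nat_lit 27) (.e (nat_lit 426012) (nat_lit 0) (.e (nat_lit 7109) (nat_lit 380) (.e (nat_lit 164353) (nat_lit 246) .nil))))))) (.g (nat_lit 6) .nil .nil)))))))) 
(.nd (nat_lit 1) (.nd (nat_lit 2) (.nd (nat_lit 3) (.nd (nat_lit 4) (.nd (nat_lit 5) 
(.lf (nat_lit 1601) (.g (nat_lit 1872) (.e (nat_lit 214) (nat_lit 19) (.e (nat_lit 319531) (nat_lit 16) (.e (nat_lit 286761) (nat_lit 13) (.e (nat_lit 393234) (nat_lit 17) (.e (nat_lit 7065) (nat_lit 377) .nil))))) .nil)) 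
(.lf (nat_lit 1633) (.g (nat_lit 1668) (.e (nat_lit 216) (nat_lit 19) (.e (nat_lit 319530) (nat_lit 16) (.e (nat_lit 286761) (nat_lit 13) (.e (nat_lit 393234) (nat_lit 17) (.e (nat_lit 7065) (nat_lit 377) .nil))))) .nil))) (.nd (nat_lit 5) 
(.lf (nat_lit 1617) (.g (nat_lit 3009) (.e (nat_lit 216) (nat_lit 19) (.e (nat_lit 319528) (nat_lit 16) (.e (nat_lit 286761) (nat_lit 13) (.e (nat_lit 393234) (nat_lit 17) (.e (nat_lit 7109) (nat_lit 380) (.e (nat_lit 164358) (nat_lit 246) .nil)))))) (.g (nat_lit 6) .nil .nil))) 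
(.lf (nat_lit 1649) (.g (nat_lit 1268) (.e (nat_lit 216) (nat_lit 19) (.e (nat_lit 319530) (nat_lit 16) (.e (nat_lit 286761) (nat_lit 13) (.e (nat_lit 393264) (nat_lit 22) .nil)))) .nil)))) (.nd (nat_lit 4) (.nd (nat_lit 5) 
(.lf (nat_lit 1609) (.g (nat_lit 3759) (.e (nat_lit 214) (nat_lit 19) (.e (nat_lit 319535) (nat_lit 17) (.e (nat_lit 294960) (nat_lit 13) (.e (nat_lit 393260) (nat_lit 21) (.e (nat_lit 409623) (nat_lit 10) (.e (nat_lit 5626) (nat_lit 312) .nil)))))) (.g (nat_lit 0) .nil .nil))) 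
(.lf (nat_lit 1641) (.g (nat_lit 3545) (.e (nat_lit 216) (nat_lit 19) (.e (nat_lit 319530) (nat_lit 16) (.e (nat_lit 286761) (nat_lit 13) (.e (nat_lit 393234) (nat_lit 17) (.e (nat_lit 7110) (nat_lit 380) (.e (nat_lit 164353) (nat_lit 246) .nil)))))) (.g (nat_lit 0) .nil .nil)))) (.nd (nat_lit 5) 
(.lf (nat_lit 1625) (.g (nat_lit 2924) (.e (nat_lit 216) (nat_lit 19) (.e (nat_lit 319529) (nat_lit 16) (.e (nat_lit 286761) (nat_lit 13) (.e (nat_lit 393234) (nat_lit 17) (.e (nat_lit 7110) (nat_lit 380) .nil))))) .nil)) 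
(.lf (nat_lit 1657) (.g (nat_lit 2986) (.e (nat_lit 216) (nat_lit 19) (.e (nat_lit 319531) (nat_lit 16) (.e (nat_lit 286735) (nat_lit 3) (.e (nat_lit 98373) (nat_lit 29) (.e (nat_lit 450587) (nat_lit 10) (.e (nat_lit 581376) (nat_lit 0) .nil)))))) (.g (nat_lit 5) .nil .nil)))))) (.nd (nat_lit 3) (.nd (nat_lit 4) (.nd (nat_lit 5) 
(.lf (nat_lit 1605) (.g (nat_lit 3722) (.e (nat_lit 214) (nat_lit 19) (.e (nat_lit 319533) (nat_lit 16) (.e (nat_lit 286761) (nat_lit 13) (.e (nat_lit 393265) (nat_lit 22) (.e (nat_lit 417820) (nat_lit 10) (.e (nat_lit 5626) (nat_lit 312) .nil)))))) (.g (nat_lit 0) .nil .nil))) 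
(.lf (nat_lit 1637) (.g (nat_lit 1747) (.e (nat_lit 216) (nat_lit 19) (.e (nat_lit 319530) (nat_lit 16) (.e (nat_lit 286761) (nat_lit 13) (.e (nat_lit 393234) (nat_lit 17) (.e (nat_lit 7065) (nat_lit 377) (.e (nat_lit 2517) (nat_lit 157) (.e (nat_lit 5631) (nat_lit 312) .nil))))))) (.g (nat_lit 4) .nil .nil)))) (.nd (nat_lit 5) 
(.lf (nat_lit 1621) (.g (nat_lit 1853) (.e (nat_lit 216) (nat_lit 19) (.e (nat_lit 319528) (nat_lit 16) (.e (nat_lit 286761) (nat_lit 13) (.e (nat_lit 393263) (nat_lit 22) (.e (nat_lit 425728) (nat_lit 10) .nil))))) .nil)) 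
(.lf (nat_lit 1653) (.g (nat_lit 1247) (.e (nat_lit 216) (nat_lit 19) (.e (nat_lit 319530) (nat_lit 16) (.e (nat_lit 286761) (nat_lit 13) (.e (nat_lit 393265) (nat_lit 22) .nil)))) .nil)))) (.nd (nat_lit 4) (.nd (nat_lit 5) 
(.lf (nat_lit 1613) (.g (nat_lit 2099) (.e (nat_lit 215) (nat_lit 19) (.e (nat_lit 319534) (nat_lit 16) (.e (nat_lit 286761) (nat_lit 13) (.e (nat_lit 393265) (nat_lit 22) (.e (nat_lit 417820) (nat_lit 10) .nil))))) .nil)) 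
(.lf (nat_lit 1645) (.g (nat_lit 2564) (.e (nat_lit 216) (nat_lit 19) (.e (nat_lit 319530) (nat_lit 16) (.e (nat_lit 286761) (nat_lit 13) (.e (nat_lit 393260) (nat_lit 21) (.e (nat_lit 417536) (nat_lit 10) .nil))))) .nil))) (.nd (nat_lit 5) 
(.lf (nat_lit 1629) (.g (nat_lit 447) (.e (nat_lit 216) (nat_lit 19) (.e (nat_lit 319530) (nat_lit 16) (.e (nat_lit 286748) (nat_lit 9) .nil))) .nil)) 
(.lf (nat_lit 1661) (.g (nat_lit 1965) (.e (nat_lit 216) (nat_lit 19) (.e (nat_lit 319531) (nat_lit 16) (.e (nat_lit 286748) (nat_lit 9) (.e (nat_lit 336389) (nat_lit 27) (.e (nat_lit 426003) (nat_lit 0) .nil))))) .nil)))))) (.nd (nat_lit 2) (.nd (nat_lit 3) (.nd (nat_lit 4) (.nd (nat_lit 5) 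
(.lf (nat_lit 1603) (.g (nat_lit 3829) (.e (nat_lit 214) (nat_lit 19) (.e (nat_lit 319531) (nat_lit 16) (.e (nat_lit 286761) (nat_lit 13) (.e (nat_lit 393265) (nat_lit 22) (.e (nat_lit 417820) (nat_lit 10) (.e (nat_lit 5626) (nat_lit 312) .nil)))))) (.g (nat_lit 0) .nil .nil))) 
(.lf (nat_lit 1635) (.g (nat_lit 1775) (.e (nat_lit 216) (nat_lit 19) (.e (nat_lit 319530) (nat_lit 16) (.e (nat_lit 286761) (nat_lit 13) (.e (nat_lit 393234) (nat_lit 17) (.e (nat_lit 7065) (nat_lit 377) (.e (nat_lit 2489) (nat_lit 157) (.e (nat_lit 5631) (nat_lit 312) .nil))))))) (.g (nat_lit 4) .nil .nil)))) (.nd (nat_lit 5) 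
(.lf (nat_lit 1619) (.g (nat_lit 1978) (.e (nat_lit 216) (nat_lit 19) (.e (nat_lit 319528) (nat_lit 16) (.e (nat_lit 286761) (nat_lit 13) (.e (nat_lit 393260) (nat_lit 21) (.e (nat_lit 417536) (nat_lit 10) .nil))))) .nil)) 
(.lf (nat_lit 1651) (.g (nat_lit 1995) (.e (nat_lit 216) (nat_lit 19) (.e (nat_lit 319530) (nat_lit 16) (.e (nat_lit 286761) (nat_lit 13) (.e (nat_lit 393264) (nat_lit 22) (.e (nat_lit 417817) (nat_lit 10) (.e (nat_lit 5618) (nat_lit 312) .nil)))))) (.g (nat_lit 4) .nil .nil))))) (.nd (nat_lit 4) (.nd (nat_lit 5) 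
(.lf (nat_lit 1611) (.g (nat_lit 971) (.e (nat_lit 215) (nat_lit 19) (.e (nat_lit 319533) (nat_lit 16) (.e (nat_lit 286753) (nat_lit 10) .nil))) .nil)) 
(.lf (nat_lit 1643) (.g (nat_lit 2593) (.e (nat_lit 216) (nat_lit 19) (.e (nat_lit 319530) (nat_lit 16) (.e (nat_lit 286761) (nat_lit 13) (.e (nat_lit 393238) (nat_lit 17) (.e (nat_lit 7101) (nat_lit 380) .nil))))) .nil))) (.nd (nat_lit 5) 
(.lf (nat_lit 1627) (.g (nat_lit 3032) (.e (nat_lit 216) (nat_lit 19) (.e (nat_lit 319530) (nat_lit 16) (.e (nat_lit 286735) (nat_lit 3) (.e (nat_lit 98373) (nat_lit 29) (.e (nat_lit 450563) (nat_lit 0) (.e (nat_lit 4181) (nat_lit 251) (.e (nat_lit 2400) (nat_lit 157) .nil))))))) (.g (nat_lit 5) .nil .nil))) 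
(.lf (nat_lit 1659) (.g (nat_lit 1747) (.e (nat_lit 216) (nat_lit 19) (.e (nat_lit 319531) (nat_lit 16) (.e (nat_lit 286743) (nat_lit 9) (.e (nat_lit 336438) (nat_lit 31) (.e (nat_lit 458769) (nat_lit 16) .nil))))) .nil))))) (.nd (nat_lit 3) (.nd (nat_lit 4) (.nd (nat_lit 5) 
(.lf (nat_lit 1607) (.g (nat_lit 2344) (.e (nat_lit 214) (nat_lit 19) (.e (nat_lit 319534) (nat_lit 16) (.e (nat_lit 286760) (nat_lit 13) (.e (nat_lit 393265) (nat_lit 22) (.e (nat_lit 417820) (nat_lit 10) (.e (nat_lit 5612) (nat_lit 312) .nil)))))) (.g (nat_lit 4) .nil .nil))) 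
(.lf (nat_lit 1639) (.g (nat_lit 3146) (.e (nat_lit 216) (nat_lit 19) (.e (nat_lit 319530) (nat_lit 16) (.e (nat_lit 286761) (nat_lit 13) (.e (nat_lit 393234) (nat_lit 17) (.e (nat_lit 7109) (nat_lit 380) (.e (nat_lit 164354) (nat_lit 246) .nil)))))) (.g (nat_lit 0) .nil .nil)))) (.nd (nat_lit 5) 
(.lf (nat_lit 1623) (.g (nat_lit 1420) (.e (nat_lit 216) (nat_lit 19) (.e (nat_lit 319528) (nat_lit 16) (.e (nat_lit 286761) (nat_lit 13) (.e (nat_lit 393264) (nat_lit 22) (.e (nat_lit 417817) (nat_lit 10) (.e (nat_lit 5618) (nat_lit 312) .nil)))))) (.g (nat_lit 4) .nil .nil))) 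
(.lf (nat_lit 1655) (.g (nat_lit 2070) (.e (nat_lit 216) (nat_lit 19) (.e (nat_lit 319530) (nat_lit 16) (.e (nat_lit 286761) (nat_lit 13) (.e (nat_lit 393265) (nat_lit 22) (.e (nat_lit 417817) (nat_lit 10) (.e (nat_lit 5618) (nat_lit 312) .nil)))))) (.g (nat_lit 4) .nil .nil))))) (.nd (nat_lit 4) (.nd (nat_lit 5) 
(.lf (nat_lit 1615) (.g (nat_lit 631) (.e (nat_lit 216) (nat_lit 19) (.e (nat_lit 319505) (nat_lit 10) (.e (nat_lit 5351) (nat_lit 298) .nil))) .nil)) 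
(.lf (nat_lit 1647) (.g (nat_lit 1571) (.e (nat_lit 216) (nat_lit 19) (.e (nat_lit 319530) (nat_lit 16) (.e (nat_lit 286761) (nat_lit 13) (.e (nat_lit 393263) (nat_lit 22) .nil)))) .nil))) (.nd (nat_lit 5) 
(.lf (nat_lit 1631) (.g (nat_lit 1881) (.e (nat_lit 216) (nat_lit 19) (.e (nat_lit 319530) (nat_lit 16) (.e (nat_lit 286748) (nat_lit 9) (.e (nat_lit 336389) (nat_lit 27) (.e (nat_lit 426182) (nat_lit 8) .nil))))) .nil)) 
(.lf (nat_lit 1663) (.g (nat_lit 2983) (.e (nat_lit 216) (nat_lit 19) (.e (nat_lit 319531) (nat_lit 16) (.e (nat_lit 286748) (nat_lit 9) (.e (nat_lit 336389) (nat_lit 27) (.e (nat_lit 426012) (nat_lit 0) (.e (nat_lit 7109) (nat_lit 380) (.e (nat_lit 164354) (nat_lit 246) .nil))))))) (.g (nat_lit 0) .nil .nil)))))))))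

noncomputable def tv023 : DT := (.nd (nat_lit 0) (.nd (nat_lit 1) (.nd (nat_lit 2) (.nd (nat_lit 3) (.nd (nat_lit 4) (.nd (nat_lit 5) (.nd (nat_lit 6) 
(.lf (nat_lit 1664) (.g (nat_lit 3150) (.e (nat_lit 216) (nat_lit 19) (.e (nat_lit 319531) (nat_lit 16) (.e (nat_lit 286748) (nat_lit 9) (.e (nat_lit 336389) (nat_lit 27) (.e (nat_lit 426012) (nat_lit 0) (.e (nat_lit 7109) (nat_lit 380) (.e (nat_lit 164358) (nat_lit 246) .nil))))))) (.g (nat_lit 0) .nil .nil))) 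
(.lf (nat_lit 1728) (.g (nat_lit 2728) (.e (nat_lit 216) (nat_lit 19) (.e (nat_lit 319533) (nat_lit 16) (.e (nat_lit 286761) (nat_lit 13) (.e (nat_lit 393234) (nat_lit 17) (.e (nat_lit 7109) (nat_lit 380) (.e (nat_lit 164354) (nat_lit 246) .nil)))))) (.g (nat_lit 4) .nil .nil)))) (.nd (nat_lit 6) 
(.lf (nat_lit 1696) (.g (nat_lit 2118) (.e (nat_lit 216) (nat_lit 19) (.e (nat_lit 319531) (nat_lit 16) (.e (nat_lit 286761) (nat_lit 13) (.e (nat_lit 393264) (nat_lit 22) (.e (nat_lit 417817) (nat_lit 10) (.e (nat_lit 5618) (nat_lit 312) .nil)))))) (.g (nat_lit 4) .nil .nil))) 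
(.lf (nat_lit 1760) (.g (nat_lit 784) (.e (nat_lit 216) (nat_lit 19) (.e (nat_lit 319534) (nat_lit 16) (.e (nat_lit 286761) (nat_lit 13) (.e (nat_lit 393265) (nat_lit 22) .nil)))) .nil)))) (.nd (nat_lit 5) (.nd (nat_lit 6) 
(.lf (nat_lit 1680) (.g (nat_lit 1941) (.e (nat_lit 216) (nat_lit 19) (.e (nat_lit 319531) (nat_lit 16) (.e (nat_lit 286761) (nat_lit 13) (.e (nat_lit 393234) (nat_lit 17) (.e (nat_lit 7065) (nat_lit 377) (.e (nat_lit 2509) (nat_lit 157) (.e (nat_lit 5629) (nat_lit 312) .nil))))))) (.g (nat_lit 4) .nil .nil))) 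
(.lf (nat_lit 1744) (.g (nat_lit 1915) (.e (nat_lit 216) (nat_lit 19) (.e (nat_lit 319534) (nat_lit 16) (.e (nat_lit 286748) (nat_lit 9) (.e (nat_lit 336389) (nat_lit 27) .nil)))) .nil))) (.nd (nat_lit 6) 
(.lf (nat_lit 1712) (.g (nat_lit 1304) (.e (nat_lit 216) (nat_lit 19) (.e (nat_lit 319533) (nat_lit 16) (.e (nat_lit 286753) (nat_lit 10) (.e (nat_lit 344097) (nat_lit 18) (.e (nat_lit 7146) (nat_lit 382) .nil))))) .nil)) 
(.lf (nat_lit 1776) (.g (nat_lit 4867) (.e (nat_lit 217) (nat_lit 19) (.e (nat_lit 319531) (nat_lit 16) (.e (nat_lit 286761) (nat_lit 13) (.e (nat_lit 393301) (nat_lit 27) (.e (nat_lit 491526) (nat_lit 0) .nil))))) .nil))))) (.nd (nat_lit 4) (.nd (nat_lit 5) (.nd (nat_lit 6) 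
(.lf (nat_lit 1672) (.g (nat_lit 1810) (.e (nat_lit 216) (nat_lit 19) (.e (nat_lit 319531) (nat_lit 16) (.e (nat_lit 286748) (nat_lit 9) (.e (nat_lit 336389) (nat_lit 27) (.e (nat_lit 426182) (nat_lit 8) (.e (nat_lit 417816) (nat_lit 10) (.e (nat_lit 5618) (nat_lit 312) .nil))))))) (.g (nat_lit 4) .nil .nil))) 
(.lf (nat_lit 1736) (.g (nat_lit 2229) (.e (nat_lit 216) (nat_lit 19) (.e (nat_lit 319533) (nat_lit 16) (.e (nat_lit 286761) (nat_lit 13) (.e (nat_lit 393263) (nat_lit 22) (.e (nat_lit 417817) (nat_lit 10) .nil))))) .nil))) (.nd (nat_lit 6) 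
(.lf (nat_lit 1704) (.g (nat_lit 1246) (.e (nat_lit 216) (nat_lit 19) (.e (nat_lit 319532) (nat_lit 16) (.e (nat_lit 286761) (nat_lit 13) (.e (nat_lit 393264) (nat_lit 22) .nil)))) .nil)) 
(.lf (nat_lit 1768) (.g (nat_lit 2323) (.e (nat_lit 217) (nat_lit 19) (.e (nat_lit 319530) (nat_lit 16) (.e (nat_lit 286761) (nat_lit 13) (.e (nat_lit 393265) (nat_lit 22) (.e (nat_lit 417820) (nat_lit 10) (.e (nat_lit 5612) (nat_lit 312) .nil)))))) (.g (nat_lit 5) .nil .nil))))) (.nd (nat_lit 5) (.nd (nat_lit 6) 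
(.lf (nat_lit 1688) (.g (nat_lit 2820) (.e (nat_lit 216) (nat_lit 19) (.e (nat_lit 319531) (nat_lit 16) (.e (nat_lit 286761) (nat_lit 13) (.e (nat_lit 393260) (nat_lit 21) (.e (nat_lit 409623) (nat_lit 10) (.e (nat_lit 5629) (nat_lit 312) .nil)))))) (.g (nat_lit 6) .nil .nil))) 
(.lf (nat_lit 1752) (.g (nat_lit 2074) (.e (nat_lit 216) (nat_lit 19) (.e (nat_lit 319534) (nat_lit 16) (.e (nat_lit 286760) (nat_lit 13) (.e (nat_lit 393265) (nat_lit 22) (.e (nat_lit 417820) (nat_lit 10) (.e (nat_lit 5629) (nat_lit 312) .nil)))))) (.g (nat_lit 4) .nil .nil)))) (.nd (nat_lit 6) 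
(.lf (nat_lit 1720) (.g (nat_lit 2201) (.e (nat_lit 216) (nat_lit 19) (.e (nat_lit 319533) (nat_lit 16) (.e (nat_lit 286753) (nat_lit 10) (.e (nat_lit 344177) (nat_lit 43) (.e (nat_lit 770073) (nat_lit 9) (.e (nat_lit 81664) (nat_lit 32) .nil)))))) (.g (nat_lit 5) .nil .nil))) 
(.lf (nat_lit 1784) (.g (nat_lit 1940) (.e (nat_lit 7936) (nat_lit 19) (.e (nat_lit 319530) (nat_lit 16) (.e (nat_lit 286761) (nat_lit 13) (.e (nat_lit 393265) (nat_lit 22) (.e (nat_lit 425728) (nat_lit 10) .nil))))) .nil)))))) (.nd (nat_lit 3) (.nd (nat_lit 4) (.nd (nat_lit 5) (.nd (nat_lit 6) 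
(.lf (nat_lit 1668) (.g (nat_lit 1538) (.e (nat_lit 216) (nat_lit 19) (.e (nat_lit 319531) (nat_lit 16) (.e (nat_lit 286748) (nat_lit 9) (.e (nat_lit 336389) (nat_lit 27) (.e (nat_lit 426181) (nat_lit 8) .nil))))) .nil)) 
(.lf (nat_lit 1732) (.g (nat_lit 2555) (.e (nat_lit 216) (nat_lit 19) (.e (nat_lit 319533) (nat_lit 16) (.e (nat_lit 286761) (nat_lit 13) (.e (nat_lit 393260) (nat_lit 21) (.e (nat_lit 409623) (nat_lit 10) (.e (nat_lit 5629) (nat_lit 312) .nil)))))) (.g (nat_lit 4) .nil .nil)))) (.nd (nat_lit 6) 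
(.lf (nat_lit 1700) (.g (nat_lit 2148) (.e (nat_lit 216) (nat_lit 19) (.e (nat_lit 319531) (nat_lit 16) (.e (nat_lit 286761) (nat_lit 13) (.e (nat_lit 393265) (nat_lit 22) (.e (nat_lit 417817) (nat_lit 10) (.e (nat_lit 5618) (nat_lit 312) .nil)))))) (.g (nat_lit 4) .nil .nil))) 
(.lf (nat_lit 1764) (.g (nat_lit 2413) (.e (nat_lit 216) (nat_lit 19) (.e (nat_lit 319536) (nat_lit 17) (.e (nat_lit 294960) (nat_lit 13) (.e (nat_lit 393260) (nat_lit 21) (.e (nat_lit 409623) (nat_lit 10) (.e (nat_lit 5629) (nat_lit 312) .nil)))))) (.g (nat_lit 6) .nil .nil))))) (.nd (nat_lit 5) (.nd (nat_lit 6) 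
(.lf (nat_lit 1684) (.g (nat_lit 3675) (.e (nat_lit 216) (nat_lit 19) (.e (nat_lit 319531) (nat_lit 16) (.e (nat_lit 286761) (nat_lit 13) (.e (nat_lit 393234) (nat_lit 17) (.e (nat_lit 7110) (nat_lit 380) (.e (nat_lit 164353) (nat_lit 246) .nil)))))) (.g (nat_lit 0) .nil .nil))) 
(.lf (nat_lit 1748) (.g (nat_lit 674) (.e (nat_lit 216) (nat_lit 19) (.e (nat_lit 319534) (nat_lit 16) (.e (nat_lit 286760) (nat_lit 13) .nil))) .nil))) (.nd (nat_lit 6) 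
(.lf (nat_lit 1716) (.g (nat_lit 2060) (.e (nat_lit 216) (nat_lit 19) (.e (nat_lit 319533) (nat_lit 16) (.e (nat_lit 286753) (nat_lit 10) (.e (nat_lit 344097) (nat_lit 18) (.e (nat_lit 7254) (nat_lit 383) (.e (nat_lit 8198) (nat_lit 0) (.e (nat_lit 5024) (nat_lit 290) (.e (nat_lit 164358) (nat_lit 246) .nil)))))))) (.g (nat_lit 5) .nil .nil))) 
(.lf (nat_lit 1780) (.g (nat_lit 1071) (.e (nat_lit 7936) (nat_lit 19) (.e (nat_lit 319530) (nat_lit 16) (.e (nat_lit 286761) (nat_lit 13) (.e (nat_lit 393264) (nat_lit 22) .nil)))) .nil))))) (.nd (nat_lit 4) (.nd (nat_lit 5) (.nd (nat_lit 6) 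
(.lf (nat_lit 1676) (.g (nat_lit 1375) (.e (nat_lit 216) (nat_lit 19) (.e (nat_lit 319531) (nat_lit 16) (.e (nat_lit 286761) (nat_lit 13) (.e (nat_lit 393233) (nat_lit 17) .nil)))) .nil)) 
(.lf (nat_lit 1740) (.g (nat_lit 1046) (.e (nat_lit 216) (nat_lit 19) (.e (nat_lit 319533) (nat_lit 16) (.e (nat_lit 286761) (nat_lit 13) (.e (nat_lit 393265) (nat_lit 22) .nil)))) .nil))) (.nd (nat_lit 6) 
(.lf (nat_lit 1708) (.g (nat_lit 884) (.e (nat_lit 216) (nat_lit 19) (.e (nat_lit 319533) (nat_lit 16) (.e (nat_lit 286743) (nat_lit 9) .nil))) .nil)) 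
(.lf (nat_lit 1772) (.g (nat_lit 627) (.e (nat_lit 217) (nat_lit 19) (.e (nat_lit 319531) (nat_lit 16) (.e (nat_lit 286761) (nat_lit 13) .nil))) .nil)))) (.nd (nat_lit 5) (.nd (nat_lit 6) 
(.lf (nat_lit 1692) (.g (nat_lit 2300) (.e (nat_lit 216) (nat_lit 19) (.e (nat_lit 319531) (nat_lit 16) (.e (nat_lit 286761) (nat_lit 13) (.e (nat_lit 393263) (nat_lit 22) (.e (nat_lit 417817) (nat_lit 10) (.e (nat_lit 5618) (nat_lit 312) .nil)))))) (.g (nat_lit 4) .nil .nil))) 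
(.lf (nat_lit 1756) (.g (nat_lit 977) (.e (nat_lit 216) (nat_lit 19) (.e (nat_lit 319534) (nat_lit 16) (.e (nat_lit 286761) (nat_lit 13) (.e (nat_lit 393264) (nat_lit 22) .nil)))) .nil))) (.nd (nat_lit 6) 
(.lf (nat_lit 1724) (.g (nat_lit 1053) (.e (nat_lit 216) (nat_lit 19) (.e (nat_lit 319533) (nat_lit 16) (.e (nat_lit 286760) (nat_lit 13) (.e (nat_lit 393264) (nat_lit 22) .nil)))) .nil)) 
(.lf (nat_lit 1788) (.g (nat_lit 1235) (.e (nat_lit 7936) (nat_lit 19) (.e (nat_lit 319531) (nat_lit 16) (.e (nat_lit 286761) (nat_lit 13) (.e (nat_lit 393264) (nat_lit 22) (.e (nat_lit 425728) (nat_lit 10) .nil))))) .nil))))))) (.nd (nat_lit 2) (.nd (nat_lit 3) (.nd (nat_lit 4) (.nd (nat_lit 5) (.nd (nat_lit 6) 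
(.lf (nat_lit 1666) (.g (nat_lit 1753) (.e (nat_lit 216) (nat_lit 19) (.e (nat_lit 319531) (nat_lit 16) (.e (nat_lit 286748) (nat_lit 9) (.e (nat_lit 336389) (nat_lit 27) (.e (nat_lit 426012) (nat_lit 0) (.e (nat_lit 7111) (nat_lit 381) (.e (nat_lit 229684) (nat_lit 246) .nil))))))) (.g (nat_lit 5) .nil .nil))) 
(.lf (nat_lit 1730) (.g (nat_lit 3178) (.e (nat_lit 216) (nat_lit 19) (.e (nat_lit 319533) (nat_lit 16) (.e (nat_lit 286761) (nat_lit 13) (.e (nat_lit 393234) (nat_lit 17) (.e (nat_lit 7110) (nat_lit 380) (.e (nat_lit 164353) (nat_lit 246) .nil)))))) (.g (nat_lit 5) .nil .nil)))) (.nd (nat_lit 6) 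
(.lf (nat_lit 1698) (.g (nat_lit 1180) (.e (nat_lit 216) (nat_lit 19) (.e (nat_lit 319531) (nat_lit 16) (.e (nat_lit 286761) (nat_lit 13) (.e (nat_lit 393265) (nat_lit 22) .nil)))) .nil)) 
(.lf (nat_lit 1762) (.g (nat_lit 1685) (.e (nat_lit 216) (nat_lit 19) (.e (nat_lit 319535) (nat_lit 17) (.e (nat_lit 294960) (nat_lit 13) (.e (nat_lit 393238) (nat_lit 17) (.e (nat_lit 7101) (nat_lit 380) (.e (nat_lit 164353) (nat_lit 246) .nil)))))) (.g (nat_lit 4) .nil .nil))))) (.nd (nat_lit 5) (.nd (nat_lit 6) 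
(.lf (nat_lit 1682) (.g (nat_lit 2812) (.e (nat_lit 216) (nat_lit 19) (.e (nat_lit 319531) (nat_lit 16) (.e (nat_lit 286761) (nat_lit 13) (.e (nat_lit 393234) (nat_lit 17) (.e (nat_lit 7109) (nat_lit 380) (.e (nat_lit 164353) (nat_lit 246) .nil)))))) (.g (nat_lit 5) .nil .nil))) 
(.lf (nat_lit 1746) (.g (nat_lit 1012) (.e (nat_lit 216) (nat_lit 19) (.e (nat_lit 319534) (nat_lit 16) (.e (nat_lit 286756) (nat_lit 10) (.e (nat_lit 344097) (nat_lit 18) .nil)))) .nil))) (.nd (nat_lit 6) 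
(.lf (nat_lit 1714) (.g (nat_lit 2032) (.e (nat_lit 216) (nat_lit 19) (.e (nat_lit 319533) (nat_lit 16) (.e (nat_lit 286753) (nat_lit 10) (.e (nat_lit 344097) (nat_lit 18) (.e (nat_lit 7147) (nat_lit 382) (.e (nat_lit 1206) (nat_lit 89) (.e (nat_lit 81664) (nat_lit 32) .nil))))))) (.g (nat_lit 5) .nil .nil))) 
(.lf (nat_lit 1778) (.g (nat_lit 2634) (.e (nat_lit 217) (nat_lit 19) (.e (nat_lit 319534) (nat_lit 16) (.e (nat_lit 286756) (nat_lit 10) (.e (nat_lit 344177) (nat_lit 43) (.e (nat_lit 770073) (nat_lit 9) (.e (nat_lit 81664) (nat_lit 32) .nil)))))) (.g (nat_lit 4) .nil .nil)))))) (.nd (nat_lit 4) (.nd (nat_lit 5) (.nd (nat_lit 6) 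
(.lf (nat_lit 1674) (.g (nat_lit 817) (.e (nat_lit 216) (nat_lit 19) (.e (nat_lit 319531) (nat_lit 16) (.e (nat_lit 286760) (nat_lit 13) .nil))) .nil)) 
(.lf (nat_lit 1738) (.g (nat_lit 2488) (.e (nat_lit 216) (nat_lit 19) (.e (nat_lit 319533) (nat_lit 16) (.e (nat_lit 286761) (nat_lit 13) (.e (nat_lit 393263) (nat_lit 22) (.e (nat_lit 425728) (nat_lit 10) (.e (nat_lit 5629) (nat_lit 312) .nil)))))) (.g (nat_lit 4) .nil .nil)))) (.nd (nat_lit 6) 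
(.lf (nat_lit 1706) (.g (nat_lit 3150) (.e (nat_lit 216) (nat_lit 19) (.e (nat_lit 319533) (nat_lit 16) (.e (nat_lit 286735) (nat_lit 3) (.e (nat_lit 98373) (nat_lit 29) (.e (nat_lit 450588) (nat_lit 10) .nil))))) .nil)) 
(.lf (nat_lit 1770) (.g (nat_lit 3097) (.e (nat_lit 217) (nat_lit 19) (.e (nat_lit 319531) (nat_lit 16) (.e (nat_lit 286735) (nat_lit 3) (.e (nat_lit 98373) (nat_lit 29) (.e (nat_lit 450588) (nat_lit 10) (.e (nat_lit 581376) (nat_lit 0) .nil)))))) (.g (nat_lit 5) .nil .nil))))) (.nd (nat_lit 5) (.nd (nat_lit 6) 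
(.lf (nat_lit 1690) (.g (nat_lit 1432) (.e (nat_lit 216) (nat_lit 19) (.e (nat_lit 319531) (nat_lit 16) (.e (nat_lit 286761) (nat_lit 13) (.e (nat_lit 393262) (nat_lit 22) .nil)))) .nil)) 
(.lf (nat_lit 1754) (.g (nat_lit 1390) (.e (nat_lit 216) (nat_lit 19) (.e (nat_lit 319534) (nat_lit 16) (.e (nat_lit 286761) (nat_lit 13) (.e (nat_lit 393260) (nat_lit 21) (.e (nat_lit 417536) (nat_lit 10) (.e (nat_lit 5629) (nat_lit 312) .nil)))))) (.g (nat_lit 4) .nil .nil)))) (.nd (nat_lit 6) 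
(.lf (nat_lit 1722) (.g (nat_lit 3210) (.e (nat_lit 216) (nat_lit 19) (.e (nat_lit 319533) (nat_lit 16) (.e (nat_lit 286760) (nat_lit 13) (.e (nat_lit 393238) (nat_lit 17) (.e (nat_lit 7101) (nat_lit 380) (.e (nat_lit 164353) (nat_lit 246) .nil)))))) (.g (nat_lit 6) .nil .nil))) 
(.lf (nat_lit 1786) (.g (nat_lit 362) (.e (nat_lit 7936) (nat_lit 19) (.e (nat_lit 319531) (nat_lit 16) (.e (nat_lit 286761) (nat_lit 13) .nil))) .nil)))))) (.nd (nat_lit 3) (.nd (nat_lit 4) (.nd (nat_lit 5) (.nd (nat_lit 6) 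
(.lf (nat_lit 1670) (.g (nat_lit 1723) (.e (nat_lit 216) (nat_lit 19) (.e (nat_lit 319531) (nat_lit 16) (.e (nat_lit 286748) (nat_lit 9) (.e (nat_lit 336389) (nat_lit 27) (.e (nat_lit 426182) (nat_lit 8) .nil))))) .nil)) 
(.lf (nat_lit 1734) (.g (nat_lit 1774) (.e (nat_lit 216) (nat_lit 19) (.e (nat_lit 319533) (nat_lit 16) (.e (nat_lit 286761) (nat_lit 13) (.e (nat_lit 393262) (nat_lit 22) .nil)))) .nil))) (.nd (nat_lit 6) 
(.lf (nat_lit 1702) (.g (nat_lit 1996) (.e (nat_lit 216) (nat_lit 19) (.e (nat_lit 319532) (nat_lit 16) (.e (nat_lit 286761) (nat_lit 13) (.e (nat_lit 393260) (nat_lit 21) (.e (nat_lit 417536) (nat_lit 10) .nil))))) .nil)) 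
(.lf (nat_lit 1766) (.g (nat_lit 2359) (.e (nat_lit 217) (nat_lit 19) (.e (nat_lit 319490) (nat_lit 0) (.e (nat_lit 5626) (nat_lit 312) (.e (nat_lit 2668) (nat_lit 167) (.e (nat_lit 196666) (nat_lit 13) (.e (nat_lit 65610) (nat_lit 10) (.e (nat_lit 344129) (nat_lit 26) (.e (nat_lit 557066) (nat_lit 9) .nil)))))))) (.g (nat_lit 4) .nil .nil))))) (.nd (nat_lit 5) (.nd (nat_lit 6) 
(.lf (nat_lit 1686) (.g (nat_lit 2571) (.e (nat_lit 216) (nat_lit 19) (.e (nat_lit 319531) (nat_lit 16) (.e (nat_lit 286761) (nat_lit 13) (.e (nat_lit 393234) (nat_lit 17) (.e (nat_lit 7118) (nat_lit 381) .nil))))) .nil)) 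
(.lf (nat_lit 1750) (.g (nat_lit 2462) (.e (nat_lit 216) (nat_lit 19) (.e (nat_lit 319534) (nat_lit 16) (.e (nat_lit 286760) (nat_lit 13) (.e (nat_lit 393260) (nat_lit 21) (.e (nat_lit 409623) (nat_lit 10) (.e (nat_lit 5629) (nat_lit 312) .nil)))))) (.g (nat_lit 5) .nil .nil)))) (.nd (nat_lit 6) 
(.lf (nat_lit 1718) (.g (nat_lit 1937) (.e (nat_lit 216) (nat_lit 19) (.e (nat_lit 319533) (nat_lit 16) (.e (nat_lit 286753) (nat_lit 10) (.e (nat_lit 344097) (nat_lit 18) (.e (nat_lit 7255) (nat_lit 383) (.e (nat_lit 8198) (nat_lit 0) (.e (nat_lit 5024) (nat_lit 290) (.e (nat_lit 164358) (nat_lit 246) .nil)))))))) (.g (nat_lit 4) .nil .nil))) 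
(.lf (nat_lit 1782) (.g (nat_lit 813) (.e (nat_lit 7936) (nat_lit 19) (.e (nat_lit 319530) (nat_lit 16) (.e (nat_lit 286761) (nat_lit 13) (.e (nat_lit 393265) (nat_lit 22) .nil)))) .nil))))) (.nd (nat_lit 4) (.nd (nat_lit 5) (.nd (nat_lit 6) 
(.lf (nat_lit 1678) (.g (nat_lit 1635) (.e (nat_lit 216) (nat_lit 19) (.e (nat_lit 319531) (nat_lit 16) (.e (nat_lit 286761) (nat_lit 13) (.e (nat_lit 393234) (nat_lit 17) (.e (nat_lit 7065) (nat_lit 377) .nil))))) .nil)) 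
(.lf (nat_lit 1742) (.g (nat_lit 2165) (.e (nat_lit 216) (nat_lit 19) (.e (nat_lit 319533) (nat_lit 16) (.e (nat_lit 286761) (nat_lit 13) (.e (nat_lit 393265) (nat_lit 22) (.e (nat_lit 417817) (nat_lit 10) (.e (nat_lit 5618) (nat_lit 312) .nil)))))) (.g (nat_lit 4) .nil .nil)))) (.nd (nat_lit 6) 
(.lf (nat_lit 1710) (.g (nat_lit 1984) (.e (nat_lit 216) (nat_lit 19) (.e (nat_lit 319533) (nat_lit 16) (.e (nat_lit 286748) (nat_lit 9) (.e (nat_lit 336389) (nat_lit 27) .nil)))) .nil)) 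
(.lf (nat_lit 1774) (.g (nat_lit 1704) (.e (nat_lit 217) (nat_lit 19) (.e (nat_lit 319531) (nat_lit 16) (.e (nat_lit 286761) (nat_lit 13) (.e (nat_lit 393300) (nat_lit 27) .nil)))) .nil)))) (.nd (nat_lit 5) (.nd (nat_lit 6) 
(.lf (nat_lit 1694) (.g (nat_lit 1228) (.e (nat_lit 216) (nat_lit 19) (.e (nat_lit 319531) (nat_lit 16) (.e (nat_lit 286761) (nat_lit 13) (.e (nat_lit 393264) (nat_lit 22) .nil)))) .nil)) 
(.lf (nat_lit 1758) (.g (nat_lit 1522) (.e (nat_lit 216) (nat_lit 19) (.e (nat_lit 319534) (nat_lit 16) (.e (nat_lit 286761) (nat_lit 13) (.e (nat_lit 393264) (nat_lit 22) (.e (nat_lit 417817) (nat_lit 10) (.e (nat_lit 5618) (nat_lit 312) .nil)))))) (.g (nat_lit 4) .nil .nil)))) (.nd (nat_lit 6) 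
(.lf (nat_lit 1726) (.g (nat_lit 437) (.e (nat_lit 216) (nat_lit 19) (.e (nat_lit 319533) (nat_lit 16) (.e (nat_lit 286761) (nat_lit 13) .nil))) .nil)) 
(.lf (nat_lit 1790) (.g (nat_lit 1715) (.e (nat_lit 7936) (nat_lit 19) (.e (nat_lit 319531) (nat_lit 16) (.e (nat_lit 286761) (nat_lit 13) (.e (nat_lit 393265) (nat_lit 22) (.e (nat_lit 425728) (nat_lit 10) .nil))))) .nil)))))))) (.nd (nat_lit 1) (.nd (nat_lit 2) (.nd (nat_lit 3) (.nd (nat_lit 4) (.nd (nat_lit 5) (.nd (nat_lit 6) 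
(.lf (nat_lit 1665) (.g (nat_lit 3431) (.e (nat_lit 216) (nat_lit 19) (.e (nat_lit 319531) (nat_lit 16) (.e (nat_lit 286748) (nat_lit 9) (.e (nat_lit 336389) (nat_lit 27) (.e (nat_lit 426012) (nat_lit 0) (.e (nat_lit 7110) (nat_lit 380) (.e (nat_lit 164353) (nat_lit 246) .nil))))))) (.g (nat_lit 0) .nil .nil))) 
(.lf (nat_lit 1729) (.g (nat_lit 2656) (.e (nat_lit 216) (nat_lit 19) (.e (nat_lit 319533) (nat_lit 16) (.e (nat_lit 286761) (nat_lit 13) (.e (nat_lit 393234) (nat_lit 17) (.e (nat_lit 7109) (nat_lit 380) (.e (nat_lit 164358) (nat_lit 246) .nil)))))) (.g (nat_lit 4) .nil .nil)))) (.nd (nat_lit 6) 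
(.lf (nat_lit 1697) (.g (nat_lit 1907) (.e (nat_lit 216) (nat_lit 19) (.e (nat_lit 319531) (nat_lit 16) (.e (nat_lit 286761) (nat_lit 13) (.e (nat_lit 393264) (nat_lit 22) (.e (nat_lit 417817) (nat_lit 10) (.e (nat_lit 5631) (nat_lit 312) .nil)))))) (.g (nat_lit 4) .nil .nil))) 
(.lf (nat_lit 1761) (.g (nat_lit 1658) (.e (nat_lit 216) (nat_lit 19) (.e (nat_lit 319534) (nat_lit 16) (.e (nat_lit 286761) (nat_lit 13) (.e (nat_lit 393265) (nat_lit 22) (.e (nat_lit 417817) (nat_lit 10) .nil))))) .nil)))) (.nd (nat_lit 5) (.nd (nat_lit 6) 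
(.lf (nat_lit 1681) (.g (nat_lit 2111) (.e (nat_lit 216) (nat_lit 19) (.e (nat_lit 319531) (nat_lit 16) (.e (nat_lit 286761) (nat_lit 13) (.e (nat_lit 393234) (nat_lit 17) (.e (nat_lit 7065) (nat_lit 377) (.e (nat_lit 2513) (nat_lit 157) (.e (nat_lit 5631) (nat_lit 312) .nil))))))) (.g (nat_lit 4) .nil .nil))) 
(.lf (nat_lit 1745) (.g (nat_lit 1950) (.e (nat_lit 216) (nat_lit 19) (.e (nat_lit 319534) (nat_lit 16) (.e (nat_lit 286749) (nat_lit 9) (.e (nat_lit 336386) (nat_lit 27) .nil)))) .nil))) (.nd (nat_lit 6) 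
(.lf (nat_lit 1713) (.g (nat_lit 1809) (.e (nat_lit 216) (nat_lit 19) (.e (nat_lit 319533) (nat_lit 16) (.e (nat_lit 286753) (nat_lit 10) (.e (nat_lit 344097) (nat_lit 18) (.e (nat_lit 7146) (nat_lit 382) (.e (nat_lit 1206) (nat_lit 89) (.e (nat_lit 81664) (nat_lit 32) .nil))))))) (.g (nat_lit 4) .nil .nil))) 
(.lf (nat_lit 1777) (.g (nat_lit 605) (.e (nat_lit 217) (nat_lit 19) (.e (nat_lit 319533) (nat_lit 16) (.e (nat_lit 286753) (nat_lit 10) .nil))) .nil))))) (.nd (nat_lit 4) (.nd (nat_lit 5) (.nd (nat_lit 6) 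
(.lf (nat_lit 1673) (.g (nat_lit 2405) (.e (nat_lit 216) (nat_lit 19) (.e (nat_lit 319531) (nat_lit 16) (.e (nat_lit 286748) (nat_lit 9) (.e (nat_lit 336389) (nat_lit 27) (.e (nat_lit 426182) (nat_lit 8) (.e (nat_lit 425728) (nat_lit 10) (.e (nat_lit 5629) (nat_lit 312) .nil))))))) (.g (nat_lit 5) .nil .nil))) 
(.lf (nat_lit 1737) (.g (nat_lit 2665) (.e (nat_lit 216) (nat_lit 19) (.e (nat_lit 319533) (nat_lit 16) (.e (nat_lit 286761) (nat_lit 13) (.e (nat_lit 393263) (nat_lit 22) (.e (nat_lit 417817) (nat_lit 10) (.e (nat_lit 5618) (nat_lit 312) .nil)))))) (.g (nat_lit 4) .nil .nil)))) (.nd (nat_lit 6) 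
(.lf (nat_lit 1705) (.g (nat_lit 1605) (.e (nat_lit 216) (nat_lit 19) (.e (nat_lit 319532) (nat_lit 16) (.e (nat_lit 286761) (nat_lit 13) (.e (nat_lit 393264) (nat_lit 22) (.e (nat_lit 425728) (nat_lit 10) .nil))))) .nil)) 
(.lf (nat_lit 1769) (.g (nat_lit 3086) (.e (nat_lit 217) (nat_lit 19) (.e (nat_lit 319531) (nat_lit 16) (.e (nat_lit 286735) (nat_lit 3) (.e (nat_lit 98373) (nat_lit 29) (.e (nat_lit 450587) (nat_lit 10) (.e (nat_lit 581376) (nat_lit 0) .nil)))))) (.g (nat_lit 5) .nil .nil))))) (.nd (nat_lit 5) (.nd (nat_lit 6) 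
(.lf (nat_lit 1689) (.g (nat_lit 2046) (.e (nat_lit 216) (nat_lit 19) (.e (nat_lit 319531) (nat_lit 16) (.e (nat_lit 286761) (nat_lit 13) (.e (nat_lit 393260) (nat_lit 21) (.e (nat_lit 417536) (nat_lit 10) (.e (nat_lit 5629) (nat_lit 312) .nil)))))) (.g (nat_lit 4) .nil .nil))) 
(.lf (nat_lit 1753) (.g (nat_lit 2349) (.e (nat_lit 216) (nat_lit 19) (.e (nat_lit 319534) (nat_lit 16) (.e (nat_lit 286761) (nat_lit 13) (.e (nat_lit 393234) (nat_lit 17) (.e (nat_lit 7110) (nat_lit 380) .nil))))) .nil))) (.nd (nat_lit 6) 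
(.lf (nat_lit 1721) (.g (nat_lit 472) (.e (nat_lit 216) (nat_lit 19) (.e (nat_lit 319533) (nat_lit 16) (.e (nat_lit 286760) (nat_lit 13) .nil))) .nil)) 
(.lf (nat_lit 1785) (.g (nat_lit 1589) (.e (nat_lit 7936) (nat_lit 19) (.e (nat_lit 319531) (nat_lit 16) (.e (nat_lit 286748) (nat_lit 9) (.e (nat_lit 336389) (nat_lit 27) (.e (nat_lit 426182) (nat_lit 8) .nil))))) .nil)))))) (.nd (nat_lit 3) (.nd (nat_lit 4) (.nd (nat_lit 5) (.nd (nat_lit 6) 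
(.lf (nat_lit 1669) (.g (nat_lit 1941) (.e (nat_lit 216) (nat_lit 19) (.e (nat_lit 319531) (nat_lit 16) (.e (nat_lit 286748) (nat_lit 9) (.e (nat_lit 336389) (nat_lit 27) (.e (nat_lit 426181) (nat_lit 8) (.e (nat_lit 425728) (nat_lit 10) (.e (nat_lit 5629) (nat_lit 312) .nil))))))) (.g (nat_lit 5) .nil .nil))) 
(.lf (nat_lit 1733) (.g (nat_lit 2256) (.e (nat_lit 216) (nat_lit 19) (.e (nat_lit 319533) (nat_lit 16) (.e (nat_lit 286761) (nat_lit 13) (.e (nat_lit 393260) (nat_lit 21) (.e (nat_lit 417536) (nat_lit 10) .nil))))) .nil))) (.nd (nat_lit 6) 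
(.lf (nat_lit 1701) (.g (nat_lit 2860) (.e (nat_lit 216) (nat_lit 19) (.e (nat_lit 319532) (nat_lit 16) (.e (nat_lit 286761) (nat_lit 13) (.e (nat_lit 393234) (nat_lit 17) (.e (nat_lit 7110) (nat_lit 380) .nil))))) .nil)) 
(.lf (nat_lit 1765) (.g (nat_lit 1755) (.e (nat_lit 216) (nat_lit 19) (.e (nat_lit 319536) (nat_lit 17) (.e (nat_lit 294960) (nat_lit 13) (.e (nat_lit 393260) (nat_lit 21) (.e (nat_lit 417536) (nat_lit 10) (.e (nat_lit 5629) (nat_lit 312) .nil)))))) (.g (nat_lit 4) .nil .nil))))) (.nd (nat_lit 5) (.nd (nat_lit 6) 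
(.lf (nat_lit 1685) (.g (nat_lit 2517) (.e (nat_lit 216) (nat_lit 19) (.e (nat_lit 319531) (nat_lit 16) (.e (nat_lit 286761) (nat_lit 13) (.e (nat_lit 393234) (nat_lit 17) (.e (nat_lit 7111) (nat_lit 381) .nil))))) .nil)) 
(.lf (nat_lit 1749) (.g (nat_lit 2436) (.e (nat_lit 216) (nat_lit 19) (.e (nat_lit 319534) (nat_lit 16) (.e (nat_lit 286760) (nat_lit 13) (.e (nat_lit 393238) (nat_lit 17) (.e (nat_lit 7101) (nat_lit 380) (.e (nat_lit 164353) (nat_lit 246) .nil)))))) (.g (nat_lit 4) .nil .nil)))) (.nd (nat_lit 6) 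
(.lf (nat_lit 1717) (.g (nat_lit 1663) (.e (nat_lit 216) (nat_lit 19) (.e (nat_lit 319533) (nat_lit 16) (.e (nat_lit 286753) (nat_lit 10) (.e (nat_lit 344097) (nat_lit 18) (.e (nat_lit 7255) (nat_lit 383) (.e (nat_lit 8198) (nat_lit 0) (.e (nat_lit 5023) (nat_lit 290) (.e (nat_lit 164358) (nat_lit 246) .nil)))))))) (.g (nat_lit 4) .nil .nil))) 
(.lf (nat_lit 1781) (.g (nat_lit 1582) (.e (nat_lit 7936) (nat_lit 19) (.e (nat_lit 319530) (nat_lit 16) (.e (nat_lit 286761) (nat_lit 13) (.e (nat_lit 393264) (nat_lit 22) (.e (nat_lit 425728) (nat_lit 10) .nil))))) .nil))))) (.nd (nat_lit 4) (.nd (nat_lit 5) (.nd (nat_lit 6) 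
(.lf (nat_lit 1677) (.g (nat_lit 2143) (.e (nat_lit 216) (nat_lit 19) (.e (nat_lit 319531) (nat_lit 16) (.e (nat_lit 286761) (nat_lit 13) (.e (nat_lit 393233) (nat_lit 17) (.e (nat_lit 7110) (nat_lit 380) .nil))))) .nil)) 
(.lf (nat_lit 1741) (.g (nat_lit 2113) (.e (nat_lit 216) (nat_lit 19) (.e (nat_lit 319533) (nat_lit 16) (.e (nat_lit 286761) (nat_lit 13) (.e (nat_lit 393265) (nat_lit 22) (.e (nat_lit 417817) (nat_lit 10) .nil))))) .nil))) (.nd (nat_lit 6) 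
(.lf (nat_lit 1709) (.g (nat_lit 2063) (.e (nat_lit 216) (nat_lit 19) (.e (nat_lit 319533) (nat_lit 16) (.e (nat_lit 286743) (nat_lit 9) (.e (nat_lit 336438) (nat_lit 31) (.e (nat_lit 458769) (nat_lit 16) .nil))))) .nil)) 
(.lf (nat_lit 1773) (.g (nat_lit 2398) (.e (nat_lit 217) (nat_lit 19) (.e (nat_lit 319531) (nat_lit 16) (.e (nat_lit 286761) (nat_lit 13) (.e (nat_lit 393265) (nat_lit 22) (.e (nat_lit 417820) (nat_lit 10) (.e (nat_lit 5612) (nat_lit 312) .nil)))))) (.g (nat_lit 4) .nil .nil))))) (.nd (nat_lit 5) (.nd (nat_lit 6) 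
(.lf (nat_lit 1693) (.g (nat_lit 2487) (.e (nat_lit 216) (nat_lit 19) (.e (nat_lit 319531) (nat_lit 16) (.e (nat_lit 286761) (nat_lit 13) (.e (nat_lit 393263) (nat_lit 22) (.e (nat_lit 425728) (nat_lit 10) (.e (nat_lit 5629) (nat_lit 312) .nil)))))) (.g (nat_lit 4) .nil .nil))) 
(.lf (nat_lit 1757) (.g (nat_lit 1280) (.e (nat_lit 216) (nat_lit 19) (.e (nat_lit 319534) (nat_lit 16) (.e (nat_lit 286761) (nat_lit 13) (.e (nat_lit 393264) (nat_lit 22) (.e (nat_lit 417817) (nat_lit 10) .nil))))) .nil))) (.nd (nat_lit 6) 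
(.lf (nat_lit 1725) (.g (nat_lit 891) (.e (nat_lit 216) (nat_lit 19) (.e (nat_lit 319533) (nat_lit 16) (.e (nat_lit 286760) (nat_lit 13) (.e (nat_lit 393265) (nat_lit 22) .nil)))) .nil)) 
(.lf (nat_lit 1789) (.g (nat_lit 1726) (.e (nat_lit 7936) (nat_lit 19) (.e (nat_lit 319531) (nat_lit 16) (.e (nat_lit 286761) (nat_lit 13) (.e (nat_lit 393265) (nat_lit 22) (.e (nat_lit 417820) (nat_lit 10) .nil))))) .nil))))))) (.nd (nat_lit 2) (.nd (nat_lit 3) (.nd (nat_lit 4) (.nd (nat_lit 5) (.nd (nat_lit 6) 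
(.lf (nat_lit 1667) (.g (nat_lit 2266) (.e (nat_lit 216) (nat_lit 19) (.e (nat_lit 319531) (nat_lit 16) (.e (nat_lit 286748) (nat_lit 9) (.e (nat_lit 336389) (nat_lit 27) (.e (nat_lit 426180) (nat_lit 8) (.e (nat_lit 425728) (nat_lit 10) (.e (nat_lit 5629) (nat_lit 312) .nil))))))) (.g (nat_lit 5) .nil .nil))) 
(.lf (nat_lit 1731) (.g (nat_lit 2875) (.e (nat_lit 216) (nat_lit 19) (.e (nat_lit 319533) (nat_lit 16) (.e (nat_lit 286761) (nat_lit 13) (.e (nat_lit 393238) (nat_lit 17) (.e (nat_lit 7101) (nat_lit 380) (.e (nat_lit 164353) (nat_lit 246) .nil)))))) (.g (nat_lit 4) .nil .nil)))) (.nd (nat_lit 6) 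
(.lf (nat_lit 1699) (.g (nat_lit 1998) (.e (nat_lit 216) (nat_lit 19) (.e (nat_lit 319531) (nat_lit 16) (.e (nat_lit 286761) (nat_lit 13) (.e (nat_lit 393265) (nat_lit 22) (.e (nat_lit 417817) (nat_lit 10) .nil))))) .nil)) 
(.lf (nat_lit 1763) (.g (nat_lit 1888) (.e (nat_lit 216) (nat_lit 19) (.e (nat_lit 319536) (nat_lit 17) (.e (nat_lit 294941) (nat_lit 9) (.e (nat_lit 336369) (nat_lit 27) (.e (nat_lit 426173) (nat_lit 7) (.e (nat_lit 409617) (nat_lit 10) (.e (nat_lit 5630) (nat_lit 312) .nil))))))) (.g (nat_lit 4) .nil .nil))))) (.nd (nat_lit 5) (.nd (nat_lit 6) 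
(.lf (nat_lit 1683) (.g (nat_lit 3467) (.e (nat_lit 216) (nat_lit 19) (.e (nat_lit 319531) (nat_lit 16) (.e (nat_lit 286761) (nat_lit 13) (.e (nat_lit 393234) (nat_lit 17) (.e (nat_lit 7109) (nat_lit 380) (.e (nat_lit 164358) (nat_lit 246) .nil)))))) (.g (nat_lit 0) .nil .nil))) 
(.lf (nat_lit 1747) (.g (nat_lit 1186) (.e (nat_lit 216) (nat_lit 19) (.e (nat_lit 319534) (nat_lit 16) (.e (nat_lit 286756) (nat_lit 10) (.e (nat_lit 344174) (nat_lit 42) .nil)))) .nil))) (.nd (nat_lit 6) 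
(.lf (nat_lit 1715) (.g (nat_lit 1818) (.e (nat_lit 216) (nat_lit 19) (.e (nat_lit 319533) (nat_lit 16) (.e (nat_lit 286753) (nat_lit 10) (.e (nat_lit 344097) (nat_lit 18) (.e (nat_lit 7254) (nat_lit 383) (.e (nat_lit 8198) (nat_lit 0) (.e (nat_lit 5023) (nat_lit 290) (.e (nat_lit 164358) (nat_lit 246) .nil)))))))) (.g (nat_lit 4) .nil .nil))) 
(.lf (nat_lit 1779) (.g (nat_lit 366) (.e (nat_lit 7936) (nat_lit 19) (.e (nat_lit 319530) (nat_lit 16) (.e (nat_lit 286761) (nat_lit 13) .nil))) .nil))))) (.nd (nat_lit 4) (.nd (nat_lit 5) (.nd (nat_lit 6) 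
(.lf (nat_lit 1675) (.g (nat_lit 363) (.e (nat_lit 216) (nat_lit 19) (.e (nat_lit 319531) (nat_lit 16) (.e (nat_lit 286761) (nat_lit 13) .nil))) .nil)) 
(.lf (nat_lit 1739) (.g (nat_lit 1613) (.e (nat_lit 216) (nat_lit 19) (.e (nat_lit 319533) (nat_lit 16) (.e (nat_lit 286761) (nat_lit 13) (.e (nat_lit 393264) (nat_lit 22) .nil)))) .nil))) (.nd (nat_lit 6) 
(.lf (nat_lit 1707) (.g (nat_lit 2310) (.e (nat_lit 216) (nat_lit 19) (.e (nat_lit 319533) (nat_lit 16) (.e (nat_lit 286742) (nat_lit 9) (.e (nat_lit 336369) (nat_lit 27) (.e (nat_lit 426173) (nat_lit 7) (.e (nat_lit 409617) (nat_lit 10) (.e (nat_lit 5630) (nat_lit 312) .nil))))))) (.g (nat_lit 5) .nil .nil))) 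
(.lf (nat_lit 1771) (.g (nat_lit 855) (.e (nat_lit 217) (nat_lit 19) (.e (nat_lit 319531) (nat_lit 16) (.e (nat_lit 286748) (nat_lit 9) .nil))) .nil)))) (.nd (nat_lit 5) (.nd (nat_lit 6) 
(.lf (nat_lit 1691) (.g (nat_lit 2148) (.e (nat_lit 216) (nat_lit 19) (.e (nat_lit 319531) (nat_lit 16) (.e (nat_lit 286761) (nat_lit 13) (.e (nat_lit 393263) (nat_lit 22) (.e (nat_lit 417817) (nat_lit 10) .nil))))) .nil)) 
(.lf (nat_lit 1755) (.g (nat_lit 1328) (.e (nat_lit 216) (nat_lit 19) (.e (nat_lit 319534) (nat_lit 16) (.e (nat_lit 286761) (nat_lit 13) (.e (nat_lit 393263) (nat_lit 22) .nil)))) .nil))) (.nd (nat_lit 6) 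
(.lf (nat_lit 1723) (.g (nat_lit 1820) (.e (nat_lit 216) (nat_lit 19) (.e (nat_lit 319533) (nat_lit 16) (.e (nat_lit 286760) (nat_lit 13) (.e (nat_lit 393260) (nat_lit 21) (.e (nat_lit 417536) (nat_lit 10) (.e (nat_lit 5629) (nat_lit 312) .nil)))))) (.g (nat_lit 4) .nil .nil))) 
(.lf (nat_lit 1787) (.g (nat_lit 1014) (.e (nat_lit 7936) (nat_lit 19) (.e (nat_lit 319531) (nat_lit 16) (.e (nat_lit 286761) (nat_lit 13) (.e (nat_lit 393264) (nat_lit 22) .nil)))) .nil)))))) (.nd (nat_lit 3) (.nd (nat_lit 4) (.nd (nat_lit 5) (.nd (nat_lit 6) 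
(.lf (nat_lit 1671) (.g (nat_lit 1972) (.e (nat_lit 216) (nat_lit 19) (.e (nat_lit 319531) (nat_lit 16) (.e (nat_lit 286748) (nat_lit 9) (.e (nat_lit 336389) (nat_lit 27) (.e (nat_lit 426182) (nat_lit 8) (.e (nat_lit 417814) (nat_lit 10) (.e (nat_lit 5638) (nat_lit 312) .nil))))))) (.g (nat_lit 4) .nil .nil))) 
(.lf (nat_lit 1735) (.g (nat_lit 1782) (.e (nat_lit 216) (nat_lit 19) (.e (nat_lit 319533) (nat_lit 16) (.e (nat_lit 286761) (nat_lit 13) (.e (nat_lit 393263) (nat_lit 22) .nil)))) .nil))) (.nd (nat_lit 6) 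
(.lf (nat_lit 1703) (.g (nat_lit 1413) (.e (nat_lit 216) (nat_lit 19) (.e (nat_lit 319532) (nat_lit 16) (.e (nat_lit 286761) (nat_lit 13) (.e (nat_lit 393263) (nat_lit 22) .nil)))) .nil)) 
(.lf (nat_lit 1767) (.g (nat_lit 415) (.e (nat_lit 217) (nat_lit 19) (.e (nat_lit 319530) (nat_lit 16) (.e (nat_lit 286761) (nat_lit 13) .nil))) .nil)))) (.nd (nat_lit 5) (.nd (nat_lit 6) 
(.lf (nat_lit 1687) (.g (nat_lit 2499) (.e (nat_lit 216) (nat_lit 19) (.e (nat_lit 319531) (nat_lit 16) (.e (nat_lit 286761) (nat_lit 13) (.e (nat_lit 393238) (nat_lit 17) (.e (nat_lit 7101) (nat_lit 380) .nil))))) .nil)) 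
(.lf (nat_lit 1751) (.g (nat_lit 2002) (.e (nat_lit 216) (nat_lit 19) (.e (nat_lit 319534) (nat_lit 16) (.e (nat_lit 286760) (nat_lit 13) (.e (nat_lit 393265) (nat_lit 22) (.e (nat_lit 417820) (nat_lit 10) (.e (nat_lit 5612) (nat_lit 312) .nil)))))) (.g (nat_lit 4) .nil .nil)))) (.nd (nat_lit 6) 
(.lf (nat_lit 1719) (.g (nat_lit 2356) (.e (nat_lit 216) (nat_lit 19) (.e (nat_lit 319533) (nat_lit 16) (.e (nat_lit 286753) (nat_lit 10) (.e (nat_lit 344176) (nat_lit 43) (.e (nat_lit 770073) (nat_lit 9) (.e (nat_lit 81664) (nat_lit 32) .nil)))))) (.g (nat_lit 5) .nil .nil))) 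
(.lf (nat_lit 1783) (.g (nat_lit 1811) (.e (nat_lit 7936) (nat_lit 19) (.e (nat_lit 319530) (nat_lit 16) (.e (nat_lit 286761) (nat_lit 13) (.e (nat_lit 393265) (nat_lit 22) (.e (nat_lit 417820) (nat_lit 10) .nil))))) .nil))))) (.nd (nat_lit 4) (.nd (nat_lit 5) (.nd (nat_lit 6) 
(.lf (nat_lit 1679) (.g (nat_lit 2405) (.e (nat_lit 216) (nat_lit 19) (.e (nat_lit 319531) (nat_lit 16) (.e (nat_lit 286761) (nat_lit 13) (.e (nat_lit 393234) (nat_lit 17) (.e (nat_lit 7065) (nat_lit 377) (.e (nat_lit 2487) (nat_lit 157) (.e (nat_lit 5632) (nat_lit 312) .nil))))))) (.g (nat_lit 5) .nil .nil))) 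
(.lf (nat_lit 1743) (.g (nat_lit 868) (.e (nat_lit 216) (nat_lit 19) (.e (nat_lit 319534) (nat_lit 16) (.e (nat_lit 286742) (nat_lit 9) .nil))) .nil))) (.nd (nat_lit 6) 
(.lf (nat_lit 1711) (.g (nat_lit 2561) (.e (nat_lit 216) (nat_lit 19) (.e (nat_lit 319533) (nat_lit 16) (.e (nat_lit 286748) (nat_lit 9) (.e (nat_lit 336389) (nat_lit 27) (.e (nat_lit 426012) (nat_lit 0) .nil))))) .nil)) 
(.lf (nat_lit 1775) (.g (nat_lit 1850) (.e (nat_lit 217) (nat_lit 19) (.e (nat_lit 319531) (nat_lit 16) (.e (nat_lit 286761) (nat_lit 13) (.e (nat_lit 393301) (nat_lit 27) .nil)))) .nil)))) (.nd (nat_lit 5) (.nd (nat_lit 6) 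
(.lf (nat_lit 1695) (.g (nat_lit 1455) (.e (nat_lit 216) (nat_lit 19) (.e (nat_lit 319531) (nat_lit 16) (.e (nat_lit 286761) (nat_lit 13) (.e (nat_lit 393264) (nat_lit 22) (.e (nat_lit 417817) (nat_lit 10) .nil))))) .nil)) 
(.lf (nat_lit 1759) (.g (nat_lit 1665) (.e (nat_lit 216) (nat_lit 19) (.e (nat_lit 319534) (nat_lit 16) (.e (nat_lit 286761) (nat_lit 13) (.e (nat_lit 393264) (nat_lit 22) (.e (nat_lit 425728) (nat_lit 10) (.e (nat_lit 5629) (nat_lit 312) .nil)))))) (.g (nat_lit 4) .nil .nil)))) (.nd (nat_lit 6) 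
(.lf (nat_lit 1727) (.g (nat_lit 2632) (.e (nat_lit 216) (nat_lit 19) (.e (nat_lit 319533) (nat_lit 16) (.e (nat_lit 286761) (nat_lit 13) (.e (nat_lit 393234) (nat_lit 17) (.e (nat_lit 7109) (nat_lit 380) .nil))))) .nil)) 
(.lf (nat_lit 1791) (.g (nat_lit 1151) (.e (nat_lit 7936) (nat_lit 19) (.e (nat_lit 319533) (nat_lit 16) (.e (nat_lit 286760) (nat_lit 13) (.e (nat_lit 393265) (nat_lit 22) (.e (nat_lit 417820) (nat_lit 10) .nil))))) .nil)))))))))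

noncomputable def tv024 : DT := (.nd (nat_lit 0) (.nd (nat_lit 1) (.nd (nat_lit 2) (.nd (nat_lit 3) (.nd (nat_lit 4) (.nd (nat_lit 5) 
(.lf (nat_lit 1792) (.g (nat_lit 962) (.e (nat_lit 7936) (nat_lit 19) (.e (nat_lit 319534) (nat_lit 16) (.e (nat_lit 286761) (nat_lit 13) (.e (nat_lit 393264) (nat_lit 22) .nil)))) .nil)) 
(.lf (nat_lit 1824) (.g (nat_lit 648) (.e (nat_lit 224) (nat_lit 21) (.e (nat_lit 336443) (nat_lit 32) (.e (nat_lit 466981) (nat_lit 23) .nil))) .nil))) (.nd (nat_lit 5) 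
(.lf (nat_lit 1808) (.g (nat_lit 2816) (.e (nat_lit 224) (nat_lit 21) (.e (nat_lit 336013) (nat_lit 2) (.e (nat_lit 90170) (nat_lit 13) (.e (nat_lit 172106) (nat_lit 10) (.e (nat_lit 434244) (nat_lit 28) .nil))))) .nil)) 
(.lf (nat_lit 1840) (.g (nat_lit 1579) (.e (nat_lit 225) (nat_lit 21) (.e (nat_lit 336023) (nat_lit 3) (.e (nat_lit 98372) (nat_lit 29) (.e (nat_lit 450586) (nat_lit 10) (.e (nat_lit 573478) (nat_lit 12) (.e (nat_lit 57574) (nat_lit 55) (.e (nat_lit 778361) (nat_lit 9) .nil))))))) (.g (nat_lit 4) .nil .nil))))) (.nd (nat_lit 4) (.nd (nat_lit 5) 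
(.lf (nat_lit 1800) (.g (nat_lit 2577) (.e (nat_lit 220) (nat_lit 20) (.e (nat_lit 327684) (nat_lit 0) (.e (nat_lit 5762) (nat_lit 315) (.e (nat_lit 163962) (nat_lit 25) (.e (nat_lit 532550) (nat_lit 12) (.e (nat_lit 360474) (nat_lit 8) (.e (nat_lit 557073) (nat_lit 9) .nil))))))) (.g (nat_lit 0) .nil .nil))) 
(.lf (nat_lit 1832) (.g (nat_lit 5283) (.e (nat_lit 225) (nat_lit 21) (.e (nat_lit 336013) (nat_lit 2) (.e (nat_lit 90170) (nat_lit 13) (.e (nat_lit 172113) (nat_lit 10) (.e (nat_lit 434245) (nat_lit 28) (.e (nat_lit 573474) (nat_lit 12) (.e (nat_lit 57574) (nat_lit 55) (.e (nat_lit 778361) (nat_lit 9) .nil)))))))) (.g (nat_lit 8) .nil .nil)))) (.nd (nat_lit 5) 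
(.lf (nat_lit 1816) (.g (nat_lit 2794) (.e (nat_lit 224) (nat_lit 21) (.e (nat_lit 336028) (nat_lit 3) (.e (nat_lit 98373) (nat_lit 29) (.e (nat_lit 450588) (nat_lit 10) (.e (nat_lit 573475) (nat_lit 12) .nil))))) .nil)) 
(.lf (nat_lit 1848) (.g (nat_lit 3787) (.e (nat_lit 225) (nat_lit 21) (.e (nat_lit 336028) (nat_lit 3) (.e (nat_lit 98373) (nat_lit 29) (.e (nat_lit 450587) (nat_lit 10) (.e (nat_lit 573478) (nat_lit 12) (.e (nat_lit 57574) (nat_lit 55) (.e (nat_lit 778361) (nat_lit 9) .nil))))))) (.g (nat_lit 0) .nil .nil)))))) (.nd (nat_lit 3) (.nd (nat_lit 4) (.nd (nat_lit 5) 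
(.lf (nat_lit 1796) (.g (nat_lit 3866) (.e (nat_lit 220) (nat_lit 20) (.e (nat_lit 327682) (nat_lit 0) (.e (nat_lit 5627) (nat_lit 312) (.e (nat_lit 2668) (nat_lit 167) (.e (nat_lit 196666) (nat_lit 13) (.e (nat_lit 65617) (nat_lit 10) (.e (nat_lit 344132) (nat_lit 26) (.e (nat_lit 557072) (nat_lit 9) .nil)))))))) (.g (nat_lit 0) .nil .nil))) 
(.lf (nat_lit 1828) (.g (nat_lit 3019) (.e (nat_lit 225) (nat_lit 21) (.e (nat_lit 336008) (nat_lit 2) (.e (nat_lit 90170) (nat_lit 13) (.e (nat_lit 172113) (nat_lit 10) (.e (nat_lit 434247) (nat_lit 28) (.e (nat_lit 573478) (nat_lit 12) (.e (nat_lit 57574) (nat_lit 55) (.e (nat_lit 778361) (nat_lit 9) .nil)))))))) (.g (nat_lit 5) .nil .nil)))) (.nd (nat_lit 5) 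
(.lf (nat_lit 1812) (.g (nat_lit 3452) (.e (nat_lit 224) (nat_lit 21) (.e (nat_lit 336013) (nat_lit 2) (.e (nat_lit 90170) (nat_lit 13) (.e (nat_lit 172113) (nat_lit 10) (.e (nat_lit 434248) (nat_lit 28) .nil))))) .nil)) 
(.lf (nat_lit 1844) (.g (nat_lit 2171) (.e (nat_lit 225) (nat_lit 21) (.e (nat_lit 336028) (nat_lit 3) (.e (nat_lit 98372) (nat_lit 29) (.e (nat_lit 450586) (nat_lit 10) (.e (nat_lit 573477) (nat_lit 12) (.e (nat_lit 57574) (nat_lit 55) (.e (nat_lit 778359) (nat_lit 9) .nil))))))) (.g (nat_lit 4) .nil .nil))))) (.nd (nat_lit 4) (.nd (nat_lit 5) 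
(.lf (nat_lit 1804) (.g (nat_lit 5356) (.e (nat_lit 220) (nat_lit 20) (.e (nat_lit 327700) (nat_lit 8) (.e (nat_lit 303117) (nat_lit 2) (.e (nat_lit 196666) (nat_lit 13) (.e (nat_lit 65610) (nat_lit 10) (.e (nat_lit 344129) (nat_lit 26) (.e (nat_lit 557067) (nat_lit 9) .nil))))))) (.g (nat_lit 0) .nil .nil))) 
(.lf (nat_lit 1836) (.g (nat_lit 3414) (.e (nat_lit 225) (nat_lit 21) (.e (nat_lit 336013) (nat_lit 2) (.e (nat_lit 90170) (nat_lit 13) (.e (nat_lit 172113) (nat_lit 10) (.e (nat_lit 434247) (nat_lit 28) (.e (nat_lit 573478) (nat_lit 12) (.e (nat_lit 57574) (nat_lit 55) (.e (nat_lit 778360) (nat_lit 9) .nil)))))))) (.g (nat_lit 6) .nil .nil)))) (.nd (nat_lit 5) 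
(.lf (nat_lit 1820) (.g (nat_lit 2127) (.e (nat_lit 224) (nat_lit 21) (.e (nat_lit 336443) (nat_lit 32) (.e (nat_lit 466977) (nat_lit 22) (.e (nat_lit 196649) (nat_lit 10) (.e (nat_lit 8499) (nat_lit 183) (.e (nat_lit 164358) (nat_lit 246) .nil)))))) (.g (nat_lit 5) .nil .nil))) 
(.lf (nat_lit 1852) (.g (nat_lit 2587) (.e (nat_lit 225) (nat_lit 21) (.e (nat_lit 336211) (nat_lit 13) (.e (nat_lit 393225) (nat_lit 9) (.e (nat_lit 335995) (nat_lit 1) (.e (nat_lit 57847) (nat_lit 252) (.e (nat_lit 57375) (nat_lit 2) (.e (nat_lit 90128) (nat_lit 9) .nil))))))) (.g (nat_lit 5) .nil .nil))))))) (.nd (nat_lit 2) (.nd (nat_lit 3) (.nd (nat_lit 4) (.nd (nat_lit 5) 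
(.lf (nat_lit 1794) (.g (nat_lit 1286) (.e (nat_lit 7936) (nat_lit 19) (.e (nat_lit 319534) (nat_lit 16) (.e (nat_lit 286761) (nat_lit 13) (.e (nat_lit 393265) (nat_lit 22) (.e (nat_lit 425728) (nat_lit 10) .nil))))) .nil)) 
(.lf (nat_lit 1826) (.g (nat_lit 1208) (.e (nat_lit 224) (nat_lit 21) (.e (nat_lit 336443) (nat_lit 32) (.e (nat_lit 466981) (nat_lit 23) (.e (nat_lit 204805) (nat_lit 0) (.e (nat_lit 7096) (nat_lit 380) .nil))))) .nil))) (.nd (nat_lit 5) 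
(.lf (nat_lit 1810) (.g (nat_lit 3443) (.e (nat_lit 224) (nat_lit 21) (.e (nat_lit 336013) (nat_lit 2) (.e (nat_lit 90170) (nat_lit 13) (.e (nat_lit 172113) (nat_lit 10) (.e (nat_lit 434245) (nat_lit 28) .nil))))) .nil)) 
(.lf (nat_lit 1842) (.g (nat_lit 2970) (.e (nat_lit 225) (nat_lit 21) (.e (nat_lit 336028) (nat_lit 3) (.e (nat_lit 98372) (nat_lit 29) (.e (nat_lit 450586) (nat_lit 10) (.e (nat_lit 573475) (nat_lit 12) (.e (nat_lit 57574) (nat_lit 55) (.e (nat_lit 778360) (nat_lit 9) .nil))))))) (.g (nat_lit 5) .nil .nil))))) (.nd (nat_lit 4) (.nd (nat_lit 5) 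
(.lf (nat_lit 1802) (.g (nat_lit 4740) (.e (nat_lit 220) (nat_lit 20) (.e (nat_lit 327699) (nat_lit 8) (.e (nat_lit 303117) (nat_lit 2) (.e (nat_lit 196666) (nat_lit 13) (.e (nat_lit 65610) (nat_lit 10) (.e (nat_lit 344129) (nat_lit 26) (.e (nat_lit 557067) (nat_lit 9) .nil))))))) (.g (nat_lit 7) .nil .nil))) 
(.lf (nat_lit 1834) (.g (nat_lit 3688) (.e (nat_lit 225) (nat_lit 21) (.e (nat_lit 336013) (nat_lit 2) (.e (nat_lit 90170) (nat_lit 13) (.e (nat_lit 172113) (nat_lit 10) (.e (nat_lit 434247) (nat_lit 28) (.e (nat_lit 573477) (nat_lit 12) (.e (nat_lit 57574) (nat_lit 55) (.e (nat_lit 778360) (nat_lit 9) .nil)))))))) (.g (nat_lit 6) .nil .nil)))) (.nd (nat_lit 5) 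
(.lf (nat_lit 1818) (.g (nat_lit 1407) (.e (nat_lit 224) (nat_lit 21) (.e (nat_lit 336211) (nat_lit 13) (.e (nat_lit 393291) (nat_lit 26) (.e (nat_lit 475214) (nat_lit 42) .nil)))) .nil)) 
(.lf (nat_lit 1850) (.g (nat_lit 931) (.e (nat_lit 225) (nat_lit 21) (.e (nat_lit 336173) (nat_lit 10) (.e (nat_lit 344126) (nat_lit 25) (.e (nat_lit 548873) (nat_lit 5) .nil)))) .nil))))) (.nd (nat_lit 3) (.nd (nat_lit 4) (.nd (nat_lit 5) 
(.lf (nat_lit 1798) (.g (nat_lit 2415) (.e (nat_lit 220) (nat_lit 20) (.e (nat_lit 327683) (nat_lit 0) (.e (nat_lit 5762) (nat_lit 315) (.e (nat_lit 163962) (nat_lit 25) (.e (nat_lit 532550) (nat_lit 12) (.e (nat_lit 360474) (nat_lit 8) (.e (nat_lit 557073) (nat_lit 9) .nil))))))) (.g (nat_lit 0) .nil .nil))) 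
(.lf (nat_lit 1830) (.g (nat_lit 4098) (.e (nat_lit 225) (nat_lit 21) (.e (nat_lit 336013) (nat_lit 2) (.e (nat_lit 90170) (nat_lit 13) (.e (nat_lit 172106) (nat_lit 10) (.e (nat_lit 434242) (nat_lit 28) .nil))))) .nil))) (.nd (nat_lit 5) 
(.lf (nat_lit 1814) (.g (nat_lit 2623) (.e (nat_lit 224) (nat_lit 21) (.e (nat_lit 336028) (nat_lit 3) (.e (nat_lit 98373) (nat_lit 29) (.e (nat_lit 450587) (nat_lit 10) (.e (nat_lit 573477) (nat_lit 12) .nil))))) .nil)) 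
(.lf (nat_lit 1846) (.g (nat_lit 2107) (.e (nat_lit 225) (nat_lit 21) (.e (nat_lit 336028) (nat_lit 3) (.e (nat_lit 98372) (nat_lit 29) (.e (nat_lit 450586) (nat_lit 10) (.e (nat_lit 573478) (nat_lit 12) (.e (nat_lit 57574) (nat_lit 55) (.e (nat_lit 778359) (nat_lit 9) .nil))))))) (.g (nat_lit 4) .nil .nil))))) (.nd (nat_lit 4) (.nd (nat_lit 5) 
(.lf (nat_lit 1806) (.g (nat_lit 1543) (.e (nat_lit 221) (nat_lit 20) (.e (nat_lit 327708) (nat_lit 10) (.e (nat_lit 5293) (nat_lit 298) (.e (nat_lit 1656) (nat_lit 115) (.e (nat_lit 393265) (nat_lit 22) .nil))))) .nil)) 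
(.lf (nat_lit 1838) (.g (nat_lit 4028) (.e (nat_lit 225) (nat_lit 21) (.e (nat_lit 336013) (nat_lit 2) (.e (nat_lit 90170) (nat_lit 13) (.e (nat_lit 172113) (nat_lit 10) (.e (nat_lit 434248) (nat_lit 28) (.e (nat_lit 573475) (nat_lit 12) (.e (nat_lit 57574) (nat_lit 55) (.e (nat_lit 778360) (nat_lit 9) .nil)))))))) (.g (nat_lit 6) .nil .nil)))) (.nd (nat_lit 5) 
(.lf (nat_lit 1822) (.g (nat_lit 940) (.e (nat_lit 224) (nat_lit 21) (.e (nat_lit 336443) (nat_lit 32) (.e (nat_lit 466979) (nat_lit 23) (.e (nat_lit 204805) (nat_lit 0) .nil)))) .nil)) 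
(.lf (nat_lit 1854) (.g (nat_lit 469) (.e (nat_lit 225) (nat_lit 21) (.e (nat_lit 336224) (nat_lit 13) (.e (nat_lit 393231) (nat_lit 17) .nil))) .nil))))))) (.nd (nat_lit 1) (.nd (nat_lit 2) (.nd (nat_lit 3) (.nd (nat_lit 4) (.nd (nat_lit 5) 
(.lf (nat_lit 1793) (.g (nat_lit 796) (.e (nat_lit 7936) (nat_lit 19) (.e (nat_lit 319534) (nat_lit 16) (.e (nat_lit 286761) (nat_lit 13) (.e (nat_lit 393265) (nat_lit 22) .nil)))) .nil)) 
(.lf (nat_lit 1825) (.g (nat_lit 1049) (.e (nat_lit 224) (nat_lit 21) (.e (nat_lit 336443) (nat_lit 32) (.e (nat_lit 466981) (nat_lit 23) (.e (nat_lit 204805) (nat_lit 0) .nil)))) .nil))) (.nd (nat_lit 5) 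
(.lf (nat_lit 1809) (.g (nat_lit 4158) (.e (nat_lit 224) (nat_lit 21) (.e (nat_lit 336013) (nat_lit 2) (.e (nat_lit 90170) (nat_lit 13) (.e (nat_lit 172106) (nat_lit 10) (.e (nat_lit 434244) (nat_lit 28) (.e (nat_lit 573474) (nat_lit 12) (.e (nat_lit 57573) (nat_lit 55) (.e (nat_lit 778339) (nat_lit 9) .nil)))))))) (.g (nat_lit 5) .nil .nil))) 
(.lf (nat_lit 1841) (.g (nat_lit 2704) (.e (nat_lit 225) (nat_lit 21) (.e (nat_lit 336028) (nat_lit 3) (.e (nat_lit 98359) (nat_lit 26) (.e (nat_lit 426286) (nat_lit 10) (.e (nat_lit 434247) (nat_lit 28) (.e (nat_lit 573477) (nat_lit 12) (.e (nat_lit 57574) (nat_lit 55) (.e (nat_lit 778360) (nat_lit 9) .nil)))))))) (.g (nat_lit 5) .nil .nil))))) (.nd (nat_lit 4) (.nd (nat_lit 5) 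
(.lf (nat_lit 1801) (.g (nat_lit 3078) (.e (nat_lit 220) (nat_lit 20) (.e (nat_lit 327684) (nat_lit 0) (.e (nat_lit 5762) (nat_lit 315) (.e (nat_lit 163962) (nat_lit 25) (.e (nat_lit 532550) (nat_lit 12) (.e (nat_lit 360475) (nat_lit 8) (.e (nat_lit 557073) (nat_lit 9) .nil))))))) (.g (nat_lit 6) .nil .nil))) 
(.lf (nat_lit 1833) (.g (nat_lit 3395) (.e (nat_lit 225) (nat_lit 21) (.e (nat_lit 336013) (nat_lit 2) (.e (nat_lit 90170) (nat_lit 13) (.e (nat_lit 172113) (nat_lit 10) (.e (nat_lit 434247) (nat_lit 28) (.e (nat_lit 573477) (nat_lit 12) (.e (nat_lit 57574) (nat_lit 55) (.e (nat_lit 778359) (nat_lit 9) .nil)))))))) (.g (nat_lit 5) .nil .nil)))) (.nd (nat_lit 5) 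
(.lf (nat_lit 1817) (.g (nat_lit 2833) (.e (nat_lit 224) (nat_lit 21) (.e (nat_lit 336028) (nat_lit 3) (.e (nat_lit 98373) (nat_lit 29) (.e (nat_lit 450588) (nat_lit 10) (.e (nat_lit 573475) (nat_lit 12) (.e (nat_lit 57573) (nat_lit 55) (.e (nat_lit 778340) (nat_lit 9) .nil))))))) (.g (nat_lit 4) .nil .nil))) 
(.lf (nat_lit 1849) (.g (nat_lit 4589) (.e (nat_lit 225) (nat_lit 21) (.e (nat_lit 336028) (nat_lit 3) (.e (nat_lit 98373) (nat_lit 29) (.e (nat_lit 450588) (nat_lit 10) (.e (nat_lit 573475) (nat_lit 12) (.e (nat_lit 57574) (nat_lit 55) (.e (nat_lit 778361) (nat_lit 9) .nil))))))) (.g (nat_lit 0) .nil .nil)))))) (.nd (nat_lit 3) (.nd (nat_lit 4) (.nd (nat_lit 5) 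
(.lf (nat_lit 1797) (.g (nat_lit 2464) (.e (nat_lit 220) (nat_lit 20) (.e (nat_lit 327682) (nat_lit 0) (.e (nat_lit 5762) (nat_lit 315) (.e (nat_lit 163962) (nat_lit 25) (.e (nat_lit 532550) (nat_lit 12) (.e (nat_lit 360474) (nat_lit 8) (.e (nat_lit 557072) (nat_lit 9) .nil))))))) (.g (nat_lit 0) .nil .nil))) 
(.lf (nat_lit 1829) (.g (nat_lit 2326) (.e (nat_lit 225) (nat_lit 21) (.e (nat_lit 336013) (nat_lit 2) (.e (nat_lit 90170) (nat_lit 13) (.e (nat_lit 172106) (nat_lit 10) .nil)))) .nil))) (.nd (nat_lit 5) 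
(.lf (nat_lit 1813) (.g (nat_lit 1550) (.e (nat_lit 224) (nat_lit 21) (.e (nat_lit 336028) (nat_lit 3) (.e (nat_lit 98372) (nat_lit 29) (.e (nat_lit 450586) (nat_lit 10) .nil)))) .nil)) 
(.lf (nat_lit 1845) (.g (nat_lit 2167) (.e (nat_lit 225) (nat_lit 21) (.e (nat_lit 336028) (nat_lit 3) (.e (nat_lit 98372) (nat_lit 29) (.e (nat_lit 450586) (nat_lit 10) (.e (nat_lit 573477) (nat_lit 12) (.e (nat_lit 57575) (nat_lit 55) (.e (nat_lit 778361) (nat_lit 9) .nil))))))) (.g (nat_lit 4) .nil .nil))))) (.nd (nat_lit 4) (.nd (nat_lit 5) 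
(.lf (nat_lit 1805) (.g (nat_lit 2232) (.e (nat_lit 220) (nat_lit 20) (.e (nat_lit 327715) (nat_lit 16) (.e (nat_lit 286761) (nat_lit 13) (.e (nat_lit 393265) (nat_lit 22) (.e (nat_lit 417820) (nat_lit 10) .nil))))) .nil)) 
(.lf (nat_lit 1837) (.g (nat_lit 4696) (.e (nat_lit 225) (nat_lit 21) (.e (nat_lit 336013) (nat_lit 2) (.e (nat_lit 90170) (nat_lit 13) (.e (nat_lit 172113) (nat_lit 10) (.e (nat_lit 434247) (nat_lit 28) (.e (nat_lit 573478) (nat_lit 12) (.e (nat_lit 57574) (nat_lit 55) (.e (nat_lit 778361) (nat_lit 9) .nil)))))))) (.g (nat_lit 8) .nil .nil)))) (.nd (nat_lit 5) 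
(.lf (nat_lit 1821) (.g (nat_lit 1835) (.e (nat_lit 224) (nat_lit 21) (.e (nat_lit 336443) (nat_lit 32) (.e (nat_lit 466977) (nat_lit 22) (.e (nat_lit 196651) (nat_lit 10) .nil)))) .nil)) 
(.lf (nat_lit 1853) (.g (nat_lit 2606) (.e (nat_lit 225) (nat_lit 21) (.e (nat_lit 336211) (nat_lit 13) (.e (nat_lit 393301) (nat_lit 27) (.e (nat_lit 491556) (nat_lit 9) (.e (nat_lit 336051) (nat_lit 6) .nil))))) .nil)))))) (.nd (nat_lit 2) (.nd (nat_lit 3) (.nd (nat_lit 4) (.nd (nat_lit 5) 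
(.lf (nat_lit 1795) (.g (nat_lit 3809) (.e (nat_lit 220) (nat_lit 20) (.e (nat_lit 327681) (nat_lit 0) (.e (nat_lit 5627) (nat_lit 312) (.e (nat_lit 2668) (nat_lit 167) (.e (nat_lit 196666) (nat_lit 13) (.e (nat_lit 65617) (nat_lit 10) (.e (nat_lit 344132) (nat_lit 26) (.e (nat_lit 557072) (nat_lit 9) .nil)))))))) (.g (nat_lit 0) .nil .nil))) 
(.lf (nat_lit 1827) (.g (nat_lit 1283) (.e (nat_lit 224) (nat_lit 21) (.e (nat_lit 336443) (nat_lit 32) (.e (nat_lit 466981) (nat_lit 23) (.e (nat_lit 204805) (nat_lit 0) (.e (nat_lit 7098) (nat_lit 380) (.e (nat_lit 164355) (nat_lit 246) .nil)))))) (.g (nat_lit 4) .nil .nil)))) (.nd (nat_lit 5) 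
(.lf (nat_lit 1811) (.g (nat_lit 3520) (.e (nat_lit 224) (nat_lit 21) (.e (nat_lit 336013) (nat_lit 2) (.e (nat_lit 90170) (nat_lit 13) (.e (nat_lit 172113) (nat_lit 10) (.e (nat_lit 434247) (nat_lit 28) .nil))))) .nil)) 
(.lf (nat_lit 1843) (.g (nat_lit 2156) (.e (nat_lit 225) (nat_lit 21) (.e (nat_lit 336028) (nat_lit 3) (.e (nat_lit 98372) (nat_lit 29) (.e (nat_lit 450586) (nat_lit 10) (.e (nat_lit 573477) (nat_lit 12) .nil))))) .nil)))) (.nd (nat_lit 4) (.nd (nat_lit 5) 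
(.lf (nat_lit 1803) (.g (nat_lit 4211) (.e (nat_lit 220) (nat_lit 20) (.e (nat_lit 327699) (nat_lit 8) (.e (nat_lit 303117) (nat_lit 2) (.e (nat_lit 196666) (nat_lit 13) (.e (nat_lit 65617) (nat_lit 10) (.e (nat_lit 344130) (nat_lit 26) (.e (nat_lit 557067) (nat_lit 9) .nil))))))) (.g (nat_lit 5) .nil .nil))) 
(.lf (nat_lit 1835) (.g (nat_lit 3441) (.e (nat_lit 225) (nat_lit 21) (.e (nat_lit 336013) (nat_lit 2) (.e (nat_lit 90170) (nat_lit 13) (.e (nat_lit 172113) (nat_lit 10) (.e (nat_lit 434247) (nat_lit 28) (.e (nat_lit 573477) (nat_lit 12) (.e (nat_lit 57575) (nat_lit 55) (.e (nat_lit 778359) (nat_lit 9) .nil)))))))) (.g (nat_lit 5) .nil .nil)))) (.nd (nat_lit 5) 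
(.lf (nat_lit 1819) (.g (nat_lit 1788) (.e (nat_lit 224) (nat_lit 21) (.e (nat_lit 336443) (nat_lit 32) (.e (nat_lit 466974) (nat_lit 22) (.e (nat_lit 196651) (nat_lit 10) .nil)))) .nil)) 
(.lf (nat_lit 1851) (.g (nat_lit 1932) (.e (nat_lit 225) (nat_lit 21) (.e (nat_lit 336173) (nat_lit 10) (.e (nat_lit 344126) (nat_lit 25) (.e (nat_lit 548874) (nat_lit 5) (.e (nat_lit 1598) (nat_lit 111) .nil))))) .nil))))) (.nd (nat_lit 3) (.nd (nat_lit 4) (.nd (nat_lit 5) 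
(.lf (nat_lit 1799) (.g (nat_lit 2531) (.e (nat_lit 220) (nat_lit 20) (.e (nat_lit 327684) (nat_lit 0) (.e (nat_lit 5756) (nat_lit 315) (.e (nat_lit 163962) (nat_lit 25) (.e (nat_lit 532550) (nat_lit 12) (.e (nat_lit 360474) (nat_lit 8) (.e (nat_lit 557073) (nat_lit 9) .nil))))))) (.g (nat_lit 6) .nil .nil))) 
(.lf (nat_lit 1831) (.g (nat_lit 2210) (.e (nat_lit 225) (nat_lit 21) (.e (nat_lit 336013) (nat_lit 2) (.e (nat_lit 90170) (nat_lit 13) (.e (nat_lit 172113) (nat_lit 10) (.e (nat_lit 434242) (nat_lit 28) .nil))))) .nil))) (.nd (nat_lit 5) 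
(.lf (nat_lit 1815) (.g (nat_lit 2583) (.e (nat_lit 224) (nat_lit 21) (.e (nat_lit 336028) (nat_lit 3) (.e (nat_lit 98373) (nat_lit 29) (.e (nat_lit 450587) (nat_lit 10) (.e (nat_lit 573478) (nat_lit 12) .nil))))) .nil)) 
(.lf (nat_lit 1847) (.g (nat_lit 2403) (.e (nat_lit 225) (nat_lit 21) (.e (nat_lit 336028) (nat_lit 3) (.e (nat_lit 98372) (nat_lit 29) (.e (nat_lit 450586) (nat_lit 10) (.e (nat_lit 573478) (nat_lit 12) (.e (nat_lit 57574) (nat_lit 55) (.e (nat_lit 778360) (nat_lit 9) .nil))))))) (.g (nat_lit 5) .nil .nil))))) (.nd (nat_lit 4) (.nd (nat_lit 5) 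
(.lf (nat_lit 1807) (.g (nat_lit 1989) (.e (nat_lit 222) (nat_lit 20) (.e (nat_lit 327716) (nat_lit 16) (.e (nat_lit 286761) (nat_lit 13) (.e (nat_lit 393265) (nat_lit 22) (.e (nat_lit 417820) (nat_lit 10) .nil))))) .nil)) 
(.lf (nat_lit 1839) (.g (nat_lit 5315) (.e (nat_lit 225) (nat_lit 21) (.e (nat_lit 336013) (nat_lit 2) (.e (nat_lit 90170) (nat_lit 13) (.e (nat_lit 172113) (nat_lit 10) (.e (nat_lit 434248) (nat_lit 28) (.e (nat_lit 573475) (nat_lit 12) (.e (nat_lit 57574) (nat_lit 55) (.e (nat_lit 778361) (nat_lit 9) .nil)))))))) (.g (nat_lit 8) .nil .nil)))) (.nd (nat_lit 5) 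
(.lf (nat_lit 1823) (.g (nat_lit 1120) (.e (nat_lit 224) (nat_lit 21) (.e (nat_lit 336443) (nat_lit 32) (.e (nat_lit 466979) (nat_lit 23) (.e (nat_lit 204805) (nat_lit 0) (.e (nat_lit 7096) (nat_lit 380) (.e (nat_lit 164354) (nat_lit 246) .nil)))))) (.g (nat_lit 4) .nil .nil))) 
(.lf (nat_lit 1855) (.g (nat_lit 4240) (.e (nat_lit 225) (nat_lit 21) (.e (nat_lit 336228) (nat_lit 14) (.e (nat_lit 401428) (nat_lit 3) (.e (nat_lit 204869) (nat_lit 29) (.e (nat_lit 360474) (nat_lit 8) (.e (nat_lit 557065) (nat_lit 9) .nil)))))) (.g (nat_lit 0) .nil .nil)))))))))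

noncomputable def tv025 : DT := (.nd (nat_lit 0) (.nd (nat_lit 1) (.nd (nat_lit 2) (.nd (nat_lit 3) (.nd (nat_lit 4) (.nd (nat_lit 5) 
(.lf (nat_lit 1856) (.g (nat_lit 2519) (.e (nat_lit 225) (nat_lit 21) (.e (nat_lit 336316) (nat_lit 17) (.e (nat_lit 196670) (nat_lit 14) (.e (nat_lit 73753) (nat_lit 8) (.e (nat_lit 557096) (nat_lit 13) (.e (nat_lit 172064) (nat_lit 2) (.e (nat_lit 204544) (nat_lit 0) .nil))))))) (.g (nat_lit 5) .nil .nil))) 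
(.lf (nat_lit 1888) (.g (nat_lit 3080) (.e (nat_lit 226) (nat_lit 21) (.e (nat_lit 336324) (nat_lit 18) (.e (nat_lit 204863) (nat_lit 27) (.e (nat_lit 344132) (nat_lit 26) (.e (nat_lit 557101) (nat_lit 13) .nil))))) .nil))) (.nd (nat_lit 5) 
(.lf (nat_lit 1872) (.g (nat_lit 2943) (.e (nat_lit 226) (nat_lit 21) (.e (nat_lit 336316) (nat_lit 17) (.e (nat_lit 196670) (nat_lit 14) (.e (nat_lit 73753) (nat_lit 8) (.e (nat_lit 557098) (nat_lit 13) (.e (nat_lit 172062) (nat_lit 2) (.e (nat_lit 204544) (nat_lit 0) .nil))))))) (.g (nat_lit 5) .nil .nil))) 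
(.lf (nat_lit 1904) (.g (nat_lit 3311) (.e (nat_lit 226) (nat_lit 21) (.e (nat_lit 336326) (nat_lit 18) (.e (nat_lit 204863) (nat_lit 27) (.e (nat_lit 344131) (nat_lit 26) (.e (nat_lit 557098) (nat_lit 13) (.e (nat_lit 172064) (nat_lit 2) (.e (nat_lit 204544) (nat_lit 0) .nil))))))) (.g (nat_lit 5) .nil .nil))))) (.nd (nat_lit 4) (.nd (nat_lit 5) 
(.lf (nat_lit 1864) (.g (nat_lit 2092) (.e (nat_lit 226) (nat_lit 21) (.e (nat_lit 336225) (nat_lit 14) (.e (nat_lit 401458) (nat_lit 13) (.e (nat_lit 483350) (nat_lit 17) (.e (nat_lit 6113) (nat_lit 332) (.e (nat_lit 975) (nat_lit 81) (.e (nat_lit 5629) (nat_lit 312) .nil))))))) (.g (nat_lit 4) .nil .nil))) 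
(.lf (nat_lit 1896) (.g (nat_lit 2955) (.e (nat_lit 226) (nat_lit 21) (.e (nat_lit 336326) (nat_lit 18) (.e (nat_lit 204862) (nat_lit 27) (.e (nat_lit 344129) (nat_lit 26) (.e (nat_lit 557096) (nat_lit 13) (.e (nat_lit 172064) (nat_lit 2) (.e (nat_lit 204544) (nat_lit 0) .nil))))))) (.g (nat_lit 4) .nil .nil)))) (.nd (nat_lit 5) 
(.lf (nat_lit 1880) (.g (nat_lit 925) (.e (nat_lit 226) (nat_lit 21) (.e (nat_lit 336324) (nat_lit 18) (.e (nat_lit 204862) (nat_lit 27) .nil))) .nil)) 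
(.lf (nat_lit 1912) (.g (nat_lit 434) (.e (nat_lit 226) (nat_lit 21) (.e (nat_lit 336430) (nat_lit 29) (.e (nat_lit 442425) (nat_lit 23) .nil))) .nil))))) (.nd (nat_lit 3) (.nd (nat_lit 4) (.nd (nat_lit 5) 
(.lf (nat_lit 1860) (.g (nat_lit 1133) (.e (nat_lit 225) (nat_lit 21) (.e (nat_lit 336443) (nat_lit 32) (.e (nat_lit 466979) (nat_lit 23) (.e (nat_lit 204805) (nat_lit 0) .nil)))) .nil)) 
(.lf (nat_lit 1892) (.g (nat_lit 3179) (.e (nat_lit 226) (nat_lit 21) (.e (nat_lit 336324) (nat_lit 18) (.e (nat_lit 204864) (nat_lit 27) (.e (nat_lit 344132) (nat_lit 26) (.e (nat_lit 557100) (nat_lit 13) (.e (nat_lit 172064) (nat_lit 2) (.e (nat_lit 204544) (nat_lit 0) .nil))))))) (.g (nat_lit 5) .nil .nil)))) (.nd (nat_lit 5) 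
(.lf (nat_lit 1876) (.g (nat_lit 3954) (.e (nat_lit 226) (nat_lit 21) (.e (nat_lit 336316) (nat_lit 17) (.e (nat_lit 196670) (nat_lit 14) (.e (nat_lit 73753) (nat_lit 8) (.e (nat_lit 557101) (nat_lit 13) (.e (nat_lit 172064) (nat_lit 2) (.e (nat_lit 204544) (nat_lit 0) .nil))))))) (.g (nat_lit 6) .nil .nil))) 
(.lf (nat_lit 1908) (.g (nat_lit 2306) (.e (nat_lit 226) (nat_lit 21) (.e (nat_lit 336326) (nat_lit 18) (.e (nat_lit 204864) (nat_lit 27) (.e (nat_lit 344130) (nat_lit 26) (.e (nat_lit 557097) (nat_lit 13) (.e (nat_lit 172064) (nat_lit 2) (.e (nat_lit 204544) (nat_lit 0) .nil))))))) (.g (nat_lit 4) .nil .nil))))) (.nd (nat_lit 4) (.nd (nat_lit 5) 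
(.lf (nat_lit 1868) (.g (nat_lit 4251) (.e (nat_lit 226) (nat_lit 21) (.e (nat_lit 336225) (nat_lit 14) (.e (nat_lit 401459) (nat_lit 13) (.e (nat_lit 483372) (nat_lit 21) (.e (nat_lit 319511) (nat_lit 10) .nil))))) .nil)) 
(.lf (nat_lit 1900) (.g (nat_lit 2278) (.e (nat_lit 226) (nat_lit 21) (.e (nat_lit 336326) (nat_lit 18) (.e (nat_lit 204862) (nat_lit 27) (.e (nat_lit 344132) (nat_lit 26) (.e (nat_lit 557101) (nat_lit 13) (.e (nat_lit 172064) (nat_lit 2) (.e (nat_lit 204544) (nat_lit 0) .nil))))))) (.g (nat_lit 4) .nil .nil)))) (.nd (nat_lit 5) 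
(.lf (nat_lit 1884) (.g (nat_lit 2763) (.e (nat_lit 226) (nat_lit 21) (.e (nat_lit 336324) (nat_lit 18) (.e (nat_lit 204862) (nat_lit 27) (.e (nat_lit 344132) (nat_lit 26) (.e (nat_lit 557101) (nat_lit 13) (.e (nat_lit 172064) (nat_lit 2) (.e (nat_lit 204544) (nat_lit 0) .nil))))))) (.g (nat_lit 4) .nil .nil))) 
(.lf (nat_lit 1916) (.g (nat_lit 975) (.e (nat_lit 226) (nat_lit 21) (.e (nat_lit 336430) (nat_lit 29) (.e (nat_lit 442427) (nat_lit 23) (.e (nat_lit 212736) (nat_lit 0) .nil)))) .nil)))))) (.nd (nat_lit 2) (.nd (nat_lit 3) (.nd (nat_lit 4) (.nd (nat_lit 5) 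
(.lf (nat_lit 1858) (.g (nat_lit 3701) (.e (nat_lit 225) (nat_lit 21) (.e (nat_lit 336369) (nat_lit 27) (.e (nat_lit 426173) (nat_lit 7) (.e (nat_lit 409617) (nat_lit 10) (.e (nat_lit 632) (nat_lit 50) (.e (nat_lit 573487) (nat_lit 14) (.e (nat_lit 81664) (nat_lit 32) .nil))))))) (.g (nat_lit 6) .nil .nil))) 
(.lf (nat_lit 1890) (.g (nat_lit 3042) (.e (nat_lit 226) (nat_lit 21) (.e (nat_lit 336324) (nat_lit 18) (.e (nat_lit 204864) (nat_lit 27) (.e (nat_lit 344130) (nat_lit 26) (.e (nat_lit 557097) (nat_lit 13) (.e (nat_lit 172064) (nat_lit 2) (.e (nat_lit 204544) (nat_lit 0) .nil))))))) (.g (nat_lit 5) .nil .nil)))) (.nd (nat_lit 5) 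
(.lf (nat_lit 1874) (.g (nat_lit 3528) (.e (nat_lit 226) (nat_lit 21) (.e (nat_lit 336316) (nat_lit 17) (.e (nat_lit 196670) (nat_lit 14) (.e (nat_lit 73753) (nat_lit 8) (.e (nat_lit 557100) (nat_lit 13) (.e (nat_lit 172062) (nat_lit 2) (.e (nat_lit 204544) (nat_lit 0) .nil))))))) (.g (nat_lit 5) .nil .nil))) 
(.lf (nat_lit 1906) (.g (nat_lit 3398) (.e (nat_lit 226) (nat_lit 21) (.e (nat_lit 336326) (nat_lit 18) (.e (nat_lit 204863) (nat_lit 27) (.e (nat_lit 344132) (nat_lit 26) (.e (nat_lit 557101) (nat_lit 13) (.e (nat_lit 172064) (nat_lit 2) (.e (nat_lit 204544) (nat_lit 0) .nil))))))) (.g (nat_lit 5) .nil .nil))))) (.nd (nat_lit 4) (.nd (nat_lit 5) 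
(.lf (nat_lit 1866) (.g (nat_lit 1627) (.e (nat_lit 226) (nat_lit 21) (.e (nat_lit 336225) (nat_lit 14) (.e (nat_lit 401458) (nat_lit 13) (.e (nat_lit 483372) (nat_lit 21) (.e (nat_lit 327424) (nat_lit 10) .nil))))) .nil)) 
(.lf (nat_lit 1898) (.g (nat_lit 2426) (.e (nat_lit 226) (nat_lit 21) (.e (nat_lit 336326) (nat_lit 18) (.e (nat_lit 204862) (nat_lit 27) (.e (nat_lit 344130) (nat_lit 26) (.e (nat_lit 557097) (nat_lit 13) (.e (nat_lit 172064) (nat_lit 2) (.e (nat_lit 204544) (nat_lit 0) .nil))))))) (.g (nat_lit 4) .nil .nil)))) (.nd (nat_lit 5) 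
(.lf (nat_lit 1882) (.g (nat_lit 3924) (.e (nat_lit 226) (nat_lit 21) (.e (nat_lit 336324) (nat_lit 18) (.e (nat_lit 204862) (nat_lit 27) (.e (nat_lit 344129) (nat_lit 26) (.e (nat_lit 557097) (nat_lit 13) (.e (nat_lit 172064) (nat_lit 2) (.e (nat_lit 204544) (nat_lit 0) .nil))))))) (.g (nat_lit 5) .nil .nil))) 
(.lf (nat_lit 1914) (.g (nat_lit 369) (.e (nat_lit 226) (nat_lit 21) (.e (nat_lit 336430) (nat_lit 29) (.e (nat_lit 442427) (nat_lit 23) .nil))) .nil))))) (.nd (nat_lit 3) (.nd (nat_lit 4) (.nd (nat_lit 5) 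
(.lf (nat_lit 1862) (.g (nat_lit 2284) (.e (nat_lit 226) (nat_lit 21) (.e (nat_lit 336208) (nat_lit 12) (.e (nat_lit 392960) (nat_lit 24) (.e (nat_lit 516151) (nat_lit 9) (.e (nat_lit 426211) (nat_lit 9) (.e (nat_lit 426365) (nat_lit 15) (.e (nat_lit 6620) (nat_lit 357) .nil))))))) (.g (nat_lit 5) .nil .nil))) 
(.lf (nat_lit 1894) (.g (nat_lit 3544) (.e (nat_lit 226) (nat_lit 21) (.e (nat_lit 336324) (nat_lit 18) (.e (nat_lit 204864) (nat_lit 27) (.e (nat_lit 344133) (nat_lit 26) (.e (nat_lit 557098) (nat_lit 13) (.e (nat_lit 172064) (nat_lit 2) (.e (nat_lit 204544) (nat_lit 0) .nil))))))) (.g (nat_lit 5) .nil .nil)))) (.nd (nat_lit 5) 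
(.lf (nat_lit 1878) (.g (nat_lit 3380) (.e (nat_lit 226) (nat_lit 21) (.e (nat_lit 336316) (nat_lit 17) (.e (nat_lit 196670) (nat_lit 14) (.e (nat_lit 73754) (nat_lit 8) (.e (nat_lit 557101) (nat_lit 13) (.e (nat_lit 172064) (nat_lit 2) (.e (nat_lit 204544) (nat_lit 0) .nil))))))) (.g (nat_lit 5) .nil .nil))) 
(.lf (nat_lit 1910) (.g (nat_lit 2213) (.e (nat_lit 226) (nat_lit 21) (.e (nat_lit 336326) (nat_lit 18) (.e (nat_lit 204864) (nat_lit 27) (.e (nat_lit 344132) (nat_lit 26) (.e (nat_lit 557101) (nat_lit 13) (.e (nat_lit 172064) (nat_lit 2) (.e (nat_lit 204544) (nat_lit 0) .nil))))))) (.g (nat_lit 4) .nil .nil))))) (.nd (nat_lit 4) (.nd (nat_lit 5) 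
(.lf (nat_lit 1870) (.g (nat_lit 3766) (.e (nat_lit 226) (nat_lit 21) (.e (nat_lit 336316) (nat_lit 17) (.e (nat_lit 196670) (nat_lit 14) (.e (nat_lit 73753) (nat_lit 8) (.e (nat_lit 557096) (nat_lit 13) (.e (nat_lit 172064) (nat_lit 2) (.e (nat_lit 204544) (nat_lit 0) .nil))))))) (.g (nat_lit 6) .nil .nil))) 
(.lf (nat_lit 1902) (.g (nat_lit 3701) (.e (nat_lit 226) (nat_lit 21) (.e (nat_lit 336326) (nat_lit 18) (.e (nat_lit 204863) (nat_lit 27) (.e (nat_lit 344129) (nat_lit 26) (.e (nat_lit 557097) (nat_lit 13) (.e (nat_lit 172064) (nat_lit 2) (.e (nat_lit 204544) (nat_lit 0) .nil))))))) (.g (nat_lit 5) .nil .nil)))) (.nd (nat_lit 5) 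
(.lf (nat_lit 1886) (.g (nat_lit 969) (.e (nat_lit 226) (nat_lit 21) (.e (nat_lit 336324) (nat_lit 18) (.e (nat_lit 204863) (nat_lit 27) .nil))) .nil)) 
(.lf (nat_lit 1918) (.g (nat_lit 1774) (.e (nat_lit 226) (nat_lit 21) (.e (nat_lit 336432) (nat_lit 30) (.e (nat_lit 450579) (nat_lit 5) (.e (nat_lit 532575) (nat_lit 17) (.e (nat_lit 7105) (nat_lit 380) (.e (nat_lit 164356) (nat_lit 246) .nil)))))) (.g (nat_lit 4) .nil .nil)))))))) (.nd (nat_lit 1) (.nd (nat_lit 2) (.nd (nat_lit 3) (.nd (nat_lit 4) (.nd (nat_lit 5) 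
(.lf (nat_lit 1857) (.g (nat_lit 2144) (.e (nat_lit 225) (nat_lit 21) (.e (nat_lit 336316) (nat_lit 17) (.e (nat_lit 196670) (nat_lit 14) (.e (nat_lit 73754) (nat_lit 8) (.e (nat_lit 557101) (nat_lit 13) .nil))))) .nil)) 
(.lf (nat_lit 1889) (.g (nat_lit 3563) (.e (nat_lit 226) (nat_lit 21) (.e (nat_lit 336324) (nat_lit 18) (.e (nat_lit 204863) (nat_lit 27) (.e (nat_lit 344133) (nat_lit 26) (.e (nat_lit 557098) (nat_lit 13) (.e (nat_lit 172064) (nat_lit 2) (.e (nat_lit 204544) (nat_lit 0) .nil))))))) (.g (nat_lit 4) .nil .nil)))) (.nd (nat_lit 5) 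
(.lf (nat_lit 1873) (.g (nat_lit 4555) (.e (nat_lit 226) (nat_lit 21) (.e (nat_lit 336316) (nat_lit 17) (.e (nat_lit 196670) (nat_lit 14) (.e (nat_lit 73753) (nat_lit 8) (.e (nat_lit 557098) (nat_lit 13) (.e (nat_lit 172064) (nat_lit 2) (.e (nat_lit 204544) (nat_lit 0) .nil))))))) (.g (nat_lit 6) .nil .nil))) 
(.lf (nat_lit 1905) (.g (nat_lit 3548) (.e (nat_lit 226) (nat_lit 21) (.e (nat_lit 336326) (nat_lit 18) (.e (nat_lit 204863) (nat_lit 27) (.e (nat_lit 344132) (nat_lit 26) (.e (nat_lit 557100) (nat_lit 13) (.e (nat_lit 172064) (nat_lit 2) (.e (nat_lit 204544) (nat_lit 0) .nil))))))) (.g (nat_lit 5) .nil .nil))))) (.nd (nat_lit 4) (.nd (nat_lit 5) 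
(.lf (nat_lit 1865) (.g (nat_lit 3057) (.e (nat_lit 226) (nat_lit 21) (.e (nat_lit 336225) (nat_lit 14) (.e (nat_lit 401458) (nat_lit 13) (.e (nat_lit 483372) (nat_lit 21) (.e (nat_lit 319511) (nat_lit 10) (.e (nat_lit 5629) (nat_lit 312) .nil)))))) (.g (nat_lit 6) .nil .nil))) 
(.lf (nat_lit 1897) (.g (nat_lit 3528) (.e (nat_lit 226) (nat_lit 21) (.e (nat_lit 336326) (nat_lit 18) (.e (nat_lit 204862) (nat_lit 27) (.e (nat_lit 344129) (nat_lit 26) (.e (nat_lit 557097) (nat_lit 13) (.e (nat_lit 172064) (nat_lit 2) (.e (nat_lit 204544) (nat_lit 0) .nil))))))) (.g (nat_lit 5) .nil .nil)))) (.nd (nat_lit 5) 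
(.lf (nat_lit 1881) (.g (nat_lit 3388) (.e (nat_lit 226) (nat_lit 21) (.e (nat_lit 336324) (nat_lit 18) (.e (nat_lit 204862) (nat_lit 27) (.e (nat_lit 344129) (nat_lit 26) (.e (nat_lit 557096) (nat_lit 13) (.e (nat_lit 172064) (nat_lit 2) (.e (nat_lit 204544) (nat_lit 0) .nil))))))) (.g (nat_lit 4) .nil .nil))) 
(.lf (nat_lit 1913) (.g (nat_lit 2228) (.e (nat_lit 226) (nat_lit 21) (.e (nat_lit 336430) (nat_lit 29) (.e (nat_lit 442425) (nat_lit 23) (.e (nat_lit 204805) (nat_lit 0) (.e (nat_lit 7105) (nat_lit 380) (.e (nat_lit 164358) (nat_lit 246) .nil)))))) (.g (nat_lit 0) .nil .nil)))))) (.nd (nat_lit 3) (.nd (nat_lit 4) (.nd (nat_lit 5) 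
(.lf (nat_lit 1861) (.g (nat_lit 1214) (.e (nat_lit 225) (nat_lit 21) (.e (nat_lit 336443) (nat_lit 32) (.e (nat_lit 466981) (nat_lit 23) (.e (nat_lit 204805) (nat_lit 0) .nil)))) .nil)) 
(.lf (nat_lit 1893) (.g (nat_lit 2949) (.e (nat_lit 226) (nat_lit 21) (.e (nat_lit 336324) (nat_lit 18) (.e (nat_lit 204864) (nat_lit 27) (.e (nat_lit 344132) (nat_lit 26) (.e (nat_lit 557101) (nat_lit 13) (.e (nat_lit 172064) (nat_lit 2) (.e (nat_lit 204544) (nat_lit 0) .nil))))))) (.g (nat_lit 5) .nil .nil)))) (.nd (nat_lit 5) 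
(.lf (nat_lit 1877) (.g (nat_lit 3429) (.e (nat_lit 226) (nat_lit 21) (.e (nat_lit 336316) (nat_lit 17) (.e (nat_lit 196670) (nat_lit 14) (.e (nat_lit 73754) (nat_lit 8) (.e (nat_lit 557100) (nat_lit 13) (.e (nat_lit 172064) (nat_lit 2) (.e (nat_lit 204544) (nat_lit 0) .nil))))))) (.g (nat_lit 5) .nil .nil))) 
(.lf (nat_lit 1909) (.g (nat_lit 2443) (.e (nat_lit 226) (nat_lit 21) (.e (nat_lit 336326) (nat_lit 18) (.e (nat_lit 204864) (nat_lit 27) (.e (nat_lit 344132) (nat_lit 26) (.e (nat_lit 557100) (nat_lit 13) (.e (nat_lit 172064) (nat_lit 2) (.e (nat_lit 204544) (nat_lit 0) .nil))))))) (.g (nat_lit 5) .nil .nil))))) (.nd (nat_lit 4) (.nd (nat_lit 5) 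
(.lf (nat_lit 1869) (.g (nat_lit 4171) (.e (nat_lit 226) (nat_lit 21) (.e (nat_lit 336236) (nat_lit 14) (.e (nat_lit 401459) (nat_lit 13) (.e (nat_lit 483372) (nat_lit 21) (.e (nat_lit 319511) (nat_lit 10) (.e (nat_lit 5629) (nat_lit 312) .nil)))))) (.g (nat_lit 4) .nil .nil))) 
(.lf (nat_lit 1901) (.g (nat_lit 2461) (.e (nat_lit 226) (nat_lit 21) (.e (nat_lit 336326) (nat_lit 18) (.e (nat_lit 204863) (nat_lit 27) (.e (nat_lit 344129) (nat_lit 26) (.e (nat_lit 557096) (nat_lit 13) (.e (nat_lit 172064) (nat_lit 2) (.e (nat_lit 204544) (nat_lit 0) .nil))))))) (.g (nat_lit 4) .nil .nil)))) (.nd (nat_lit 5) 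
(.lf (nat_lit 1885) (.g (nat_lit 3603) (.e (nat_lit 226) (nat_lit 21) (.e (nat_lit 336324) (nat_lit 18) (.e (nat_lit 204862) (nat_lit 27) (.e (nat_lit 344133) (nat_lit 26) (.e (nat_lit 557098) (nat_lit 13) (.e (nat_lit 172064) (nat_lit 2) (.e (nat_lit 204544) (nat_lit 0) .nil))))))) (.g (nat_lit 5) .nil .nil))) 
(.lf (nat_lit 1917) (.g (nat_lit 1590) (.e (nat_lit 226) (nat_lit 21) (.e (nat_lit 336432) (nat_lit 30) (.e (nat_lit 450579) (nat_lit 5) (.e (nat_lit 532575) (nat_lit 17) (.e (nat_lit 7098) (nat_lit 380) (.e (nat_lit 164353) (nat_lit 246) .nil)))))) (.g (nat_lit 4) .nil .nil))))))) (.nd (nat_lit 2) (.nd (nat_lit 3) (.nd (nat_lit 4) (.nd (nat_lit 5) 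
(.lf (nat_lit 1859) (.g (nat_lit 2672) (.e (nat_lit 225) (nat_lit 21) (.e (nat_lit 336369) (nat_lit 27) (.e (nat_lit 426173) (nat_lit 7) (.e (nat_lit 409617) (nat_lit 10) (.e (nat_lit 632) (nat_lit 50) (.e (nat_lit 573489) (nat_lit 14) (.e (nat_lit 81664) (nat_lit 32) .nil))))))) (.g (nat_lit 5) .nil .nil))) 
(.lf (nat_lit 1891) (.g (nat_lit 2443) (.e (nat_lit 226) (nat_lit 21) (.e (nat_lit 336324) (nat_lit 18) (.e (nat_lit 204864) (nat_lit 27) (.e (nat_lit 344132) (nat_lit 26) (.e (nat_lit 557100) (nat_lit 13) (.e (nat_lit 172062) (nat_lit 2) (.e (nat_lit 204544) (nat_lit 0) .nil))))))) (.g (nat_lit 4) .nil .nil)))) (.nd (nat_lit 5) 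
(.lf (nat_lit 1875) (.g (nat_lit 4177) (.e (nat_lit 226) (nat_lit 21) (.e (nat_lit 336316) (nat_lit 17) (.e (nat_lit 196670) (nat_lit 14) (.e (nat_lit 73753) (nat_lit 8) (.e (nat_lit 557100) (nat_lit 13) (.e (nat_lit 172064) (nat_lit 2) (.e (nat_lit 204544) (nat_lit 0) .nil))))))) (.g (nat_lit 6) .nil .nil))) 
(.lf (nat_lit 1907) (.g (nat_lit 3312) (.e (nat_lit 226) (nat_lit 21) (.e (nat_lit 336326) (nat_lit 18) (.e (nat_lit 204863) (nat_lit 27) (.e (nat_lit 344133) (nat_lit 26) (.e (nat_lit 557096) (nat_lit 13) (.e (nat_lit 172064) (nat_lit 2) (.e (nat_lit 204544) (nat_lit 0) .nil))))))) (.g (nat_lit 5) .nil .nil))))) (.nd (nat_lit 4) (.nd (nat_lit 5) 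
(.lf (nat_lit 1867) (.g (nat_lit 2789) (.e (nat_lit 226) (nat_lit 21) (.e (nat_lit 336225) (nat_lit 14) (.e (nat_lit 401459) (nat_lit 13) (.e (nat_lit 483350) (nat_lit 17) (.e (nat_lit 6113) (nat_lit 332) .nil))))) .nil)) 
(.lf (nat_lit 1899) (.g (nat_lit 2508) (.e (nat_lit 226) (nat_lit 21) (.e (nat_lit 336326) (nat_lit 18) (.e (nat_lit 204862) (nat_lit 27) (.e (nat_lit 344132) (nat_lit 26) (.e (nat_lit 557100) (nat_lit 13) (.e (nat_lit 172064) (nat_lit 2) (.e (nat_lit 204544) (nat_lit 0) .nil))))))) (.g (nat_lit 4) .nil .nil)))) (.nd (nat_lit 5) 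
(.lf (nat_lit 1883) (.g (nat_lit 2911) (.e (nat_lit 226) (nat_lit 21) (.e (nat_lit 336324) (nat_lit 18) (.e (nat_lit 204862) (nat_lit 27) (.e (nat_lit 344130) (nat_lit 26) (.e (nat_lit 557097) (nat_lit 13) (.e (nat_lit 172064) (nat_lit 2) (.e (nat_lit 204544) (nat_lit 0) .nil))))))) (.g (nat_lit 4) .nil .nil))) 
(.lf (nat_lit 1915) (.g (nat_lit 2418) (.e (nat_lit 226) (nat_lit 21) (.e (nat_lit 336430) (nat_lit 29) (.e (nat_lit 442427) (nat_lit 23) (.e (nat_lit 204805) (nat_lit 0) (.e (nat_lit 7105) (nat_lit 380) (.e (nat_lit 164358) (nat_lit 246) .nil)))))) (.g (nat_lit 0) .nil .nil)))))) (.nd (nat_lit 3) (.nd (nat_lit 4) (.nd (nat_lit 5) 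
(.lf (nat_lit 1863) (.g (nat_lit 2997) (.e (nat_lit 226) (nat_lit 21) (.e (nat_lit 336211) (nat_lit 13) (.e (nat_lit 393301) (nat_lit 27) (.e (nat_lit 491560) (nat_lit 10) (.e (nat_lit 344178) (nat_lit 44) .nil))))) .nil)) 
(.lf (nat_lit 1895) (.g (nat_lit 941) (.e (nat_lit 226) (nat_lit 21) (.e (nat_lit 336324) (nat_lit 18) (.e (nat_lit 204873) (nat_lit 30) .nil))) .nil))) (.nd (nat_lit 5) 
(.lf (nat_lit 1879) (.g (nat_lit 2914) (.e (nat_lit 226) (nat_lit 21) (.e (nat_lit 336316) (nat_lit 17) (.e (nat_lit 196670) (nat_lit 14) (.e (nat_lit 73755) (nat_lit 8) (.e (nat_lit 557098) (nat_lit 13) (.e (nat_lit 172064) (nat_lit 2) (.e (nat_lit 204544) (nat_lit 0) .nil))))))) (.g (nat_lit 4) .nil .nil))) 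
(.lf (nat_lit 1911) (.g (nat_lit 1160) (.e (nat_lit 226) (nat_lit 21) (.e (nat_lit 336395) (nat_lit 27) (.e (nat_lit 426289) (nat_lit 10) (.e (nat_lit 434231) (nat_lit 23) (.e (nat_lit 532575) (nat_lit 17) .nil))))) .nil)))) (.nd (nat_lit 4) (.nd (nat_lit 5) 
(.lf (nat_lit 1871) (.g (nat_lit 2627) (.e (nat_lit 226) (nat_lit 21) (.e (nat_lit 336316) (nat_lit 17) (.e (nat_lit 196670) (nat_lit 14) (.e (nat_lit 73753) (nat_lit 8) (.e (nat_lit 557097) (nat_lit 13) (.e (nat_lit 172064) (nat_lit 2) (.e (nat_lit 204544) (nat_lit 0) .nil))))))) (.g (nat_lit 4) .nil .nil))) 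
(.lf (nat_lit 1903) (.g (nat_lit 3379) (.e (nat_lit 226) (nat_lit 21) (.e (nat_lit 336326) (nat_lit 18) (.e (nat_lit 204863) (nat_lit 27) (.e (nat_lit 344130) (nat_lit 26) (.e (nat_lit 557097) (nat_lit 13) (.e (nat_lit 172064) (nat_lit 2) (.e (nat_lit 204544) (nat_lit 0) .nil))))))) (.g (nat_lit 5) .nil .nil)))) (.nd (nat_lit 5) 
(.lf (nat_lit 1887) (.g (nat_lit 3033) (.e (nat_lit 226) (nat_lit 21) (.e (nat_lit 336324) (nat_lit 18) (.e (nat_lit 204863) (nat_lit 27) (.e (nat_lit 344132) (nat_lit 26) (.e (nat_lit 557100) (nat_lit 13) .nil))))) .nil)) 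
(.lf (nat_lit 1919) (.g (nat_lit 1586) (.e (nat_lit 226) (nat_lit 21) (.e (nat_lit 336432) (nat_lit 30) (.e (nat_lit 450579) (nat_lit 5) (.e (nat_lit 532575) (nat_lit 17) (.e (nat_lit 7105) (nat_lit 380) (.e (nat_lit 164358) (nat_lit 246) .nil)))))) (.g (nat_lit 4) .nil .nil)))))))))

noncomputable def tv026 : DT := (.nd (nat_lit 0) (.nd (nat_lit 1) (.nd (nat_lit 2) (.nd (nat_lit 3) (.nd (nat_lit 4) (.nd (nat_lit 5) (.nd (nat_lit 6) 
(.lf (nat_lit 1920) (.g (nat_lit 1638) (.e (nat_lit 226) (nat_lit 21) (.e (nat_lit 336432) (nat_lit 30) (.e (nat_lit 450579) (nat_lit 5) (.e (nat_lit 532575) (nat_lit 17) (.e (nat_lit 7106) (nat_lit 380) (.e (nat_lit 164356) (nat_lit 246) .nil)))))) (.g (nat_lit 4) .nil .nil))) 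
(.lf (nat_lit 1984) (.g (nat_lit 3614) (.e (nat_lit 229) (nat_lit 21) (.e (nat_lit 336013) (nat_lit 2) (.e (nat_lit 90170) (nat_lit 13) (.e (nat_lit 172113) (nat_lit 10) (.e (nat_lit 434247) (nat_lit 28) .nil))))) .nil))) (.nd (nat_lit 6) 
(.lf (nat_lit 1952) (.g (nat_lit 1985) (.e (nat_lit 227) (nat_lit 21) (.e (nat_lit 336211) (nat_lit 13) (.e (nat_lit 393234) (nat_lit 17) (.e (nat_lit 7591) (nat_lit 407) (.e (nat_lit 73775) (nat_lit 26) .nil))))) .nil)) 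
(.lf (nat_lit 2016) (.g (nat_lit 1708) (.e (nat_lit 231) (nat_lit 21) (.e (nat_lit 336013) (nat_lit 2) (.e (nat_lit 90170) (nat_lit 13) (.e (nat_lit 172106) (nat_lit 10) (.e (nat_lit 434244) (nat_lit 28) (.e (nat_lit 573458) (nat_lit 9) (.e (nat_lit 1003) (nat_lit 81) (.e (nat_lit 2336) (nat_lit 151) (.e (nat_lit 778334) (nat_lit 9) .nil))))))))) (.g (nat_lit 5) .nil .nil))))) 
(.nd (nat_lit 5) (.nd (nat_lit 6) 
(.lf (nat_lit 1936) (.g (nat_lit 1833) (.e (nat_lit 226) (nat_lit 21) (.e (nat_lit 336443) (nat_lit 32) (.e (nat_lit 466981) (nat_lit 23) (.e (nat_lit 204805) (nat_lit 0) (.e (nat_lit 7098) (nat_lit 380) (.e (nat_lit 164351) (nat_lit 246) .nil)))))) (.g (nat_lit 4) .nil .nil))) 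
(.lf (nat_lit 2000) (.g (nat_lit 2087) (.e (nat_lit 230) (nat_lit 21) (.e (nat_lit 336028) (nat_lit 3) (.e (nat_lit 98359) (nat_lit 26) (.e (nat_lit 426286) (nat_lit 10) (.e (nat_lit 434247) (nat_lit 28) (.e (nat_lit 573478) (nat_lit 12) (.e (nat_lit 57574) (nat_lit 55) (.e (nat_lit 778362) (nat_lit 9) .nil)))))))) (.g (nat_lit 4) .nil .nil)))) (.nd (nat_lit 6) 
(.lf (nat_lit 1968) (.g (nat_lit 2479) (.e (nat_lit 227) (nat_lit 21) (.e (nat_lit 336324) (nat_lit 18) (.e (nat_lit 204864) (nat_lit 27) (.e (nat_lit 344133) (nat_lit 26) (.e (nat_lit 557096) (nat_lit 13) .nil))))) .nil)) 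
(.lf (nat_lit 2032) (.g (nat_lit 1566) (.e (nat_lit 231) (nat_lit 21) (.e (nat_lit 336224) (nat_lit 13) (.e (nat_lit 393234) (nat_lit 17) (.e (nat_lit 7591) (nat_lit 407) (.e (nat_lit 81664) (nat_lit 26) .nil))))) .nil))))) (.nd (nat_lit 4) (.nd (nat_lit 5) (.nd (nat_lit 6) 
(.lf (nat_lit 1928) (.g (nat_lit 874) (.e (nat_lit 226) (nat_lit 21) (.e (nat_lit 336443) (nat_lit 32) (.e (nat_lit 466973) (nat_lit 22) .nil))) .nil)) 
(.lf (nat_lit 1992) (.g (nat_lit 4576) (.e (nat_lit 229) (nat_lit 21) (.e (nat_lit 336227) (nat_lit 14) (.e (nat_lit 401459) (nat_lit 13) (.e (nat_lit 483372) (nat_lit 21) (.e (nat_lit 319511) (nat_lit 10) .nil))))) .nil))) (.nd (nat_lit 6) 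
(.lf (nat_lit 1960) (.g (nat_lit 935) (.e (nat_lit 227) (nat_lit 21) (.e (nat_lit 336324) (nat_lit 18) (.e (nat_lit 204862) (nat_lit 27) .nil))) .nil)) 
(.lf (nat_lit 2024) (.g (nat_lit 2549) (.e (nat_lit 231) (nat_lit 21) (.e (nat_lit 336028) (nat_lit 3) (.e (nat_lit 98359) (nat_lit 26) (.e (nat_lit 426286) (nat_lit 10) (.e (nat_lit 434248) (nat_lit 28) (.e (nat_lit 573473) (nat_lit 12) (.e (nat_lit 65280) (nat_lit 55) (.e (nat_lit 778334) (nat_lit 9) .nil)))))))) (.g (nat_lit 5) .nil .nil))))) (.nd (nat_lit 5) (.nd (nat_lit 6) 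
(.lf (nat_lit 1944) (.g (nat_lit 2425) (.e (nat_lit 227) (nat_lit 21) (.e (nat_lit 336019) (nat_lit 3) (.e (nat_lit 98372) (nat_lit 29) (.e (nat_lit 450586) (nat_lit 10) (.e (nat_lit 573478) (nat_lit 12) .nil))))) .nil)) 
(.lf (nat_lit 2008) (.g (nat_lit 2078) (.e (nat_lit 230) (nat_lit 21) (.e (nat_lit 336173) (nat_lit 10) (.e (nat_lit 344177) (nat_lit 43) (.e (nat_lit 770074) (nat_lit 10) (.e (nat_lit 81965) (nat_lit 26) .nil))))) .nil))) (.nd (nat_lit 6) 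
(.lf (nat_lit 1976) (.g (nat_lit 3986) (.e (nat_lit 228) (nat_lit 21) (.e (nat_lit 336024) (nat_lit 3) (.e (nat_lit 98373) (nat_lit 29) (.e (nat_lit 450588) (nat_lit 10) (.e (nat_lit 573475) (nat_lit 12) (.e (nat_lit 57574) (nat_lit 55) (.e (nat_lit 778360) (nat_lit 9) .nil))))))) (.g (nat_lit 5) .nil .nil))) 
(.lf (nat_lit 2040) (.g (nat_lit 2409) (.e (nat_lit 232) (nat_lit 21) (.e (nat_lit 335907) (nat_lit 0) (.e (nat_lit 7936) (nat_lit 126) (.e (nat_lit 573489) (nat_lit 14) (.e (nat_lit 73755) (nat_lit 8) (.e (nat_lit 557096) (nat_lit 13) (.e (nat_lit 172064) (nat_lit 2) (.e (nat_lit 204544) (nat_lit 0) .nil)))))))) (.g (nat_lit 5) .nil .nil))))))) 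
(.nd (nat_lit 3) (.nd (nat_lit 4) (.nd (nat_lit 5) (.nd (nat_lit 6) 
(.lf (nat_lit 1924) (.g (nat_lit 2717) (.e (nat_lit 226) (nat_lit 21) (.e (nat_lit 336432) (nat_lit 30) (.e (nat_lit 450580) (nat_lit 5) (.e (nat_lit 532575) (nat_lit 17) (.e (nat_lit 7105) (nat_lit 380) (.e (nat_lit 164356) (nat_lit 246) .nil)))))) (.g (nat_lit 0) .nil .nil))) 
(.lf (nat_lit 1988) (.g (nat_lit 1262) (.e (nat_lit 229) (nat_lit 21) (.e (nat_lit 336226) (nat_lit 14) (.e (nat_lit 401458) (nat_lit 13) (.e (nat_lit 483350) (nat_lit 17) .nil)))) .nil))) (.nd (nat_lit 6) 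
(.lf (nat_lit 1956) (.g (nat_lit 2763) (.e (nat_lit 227) (nat_lit 21) (.e (nat_lit 336211) (nat_lit 13) (.e (nat_lit 393301) (nat_lit 27) (.e (nat_lit 491560) (nat_lit 10) (.e (nat_lit 344179) (nat_lit 44) .nil))))) .nil)) 
(.lf (nat_lit 2020) (.g (nat_lit 2163) (.e (nat_lit 231) (nat_lit 21) (.e (nat_lit 336013) (nat_lit 2) (.e (nat_lit 90170) (nat_lit 13) (.e (nat_lit 172120) (nat_lit 12) .nil)))) .nil)))) (.nd (nat_lit 5) (.nd (nat_lit 6) 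
(.lf (nat_lit 1940) (.g (nat_lit 2358) (.e (nat_lit 227) (nat_lit 21) (.e (nat_lit 336019) (nat_lit 3) (.e (nat_lit 98342) (nat_lit 20) (.e (nat_lit 221215) (nat_lit 23) (.e (nat_lit 204828) (nat_lit 18) .nil))))) .nil)) 
(.lf (nat_lit 2004) (.g (nat_lit 1684) (.e (nat_lit 230) (nat_lit 21) (.e (nat_lit 336028) (nat_lit 3) (.e (nat_lit 98373) (nat_lit 29) (.e (nat_lit 450587) (nat_lit 10) .nil)))) .nil))) (.nd (nat_lit 6) 
(.lf (nat_lit 1972) (.g (nat_lit 1577) (.e (nat_lit 228) (nat_lit 21) (.e (nat_lit 336024) (nat_lit 3) (.e (nat_lit 98372) (nat_lit 29) (.e (nat_lit 450586) (nat_lit 10) (.e (nat_lit 573477) (nat_lit 12) .nil))))) .nil)) 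
(.lf (nat_lit 2036) (.g (nat_lit 3556) (.e (nat_lit 231) (nat_lit 21) (.e (nat_lit 336228) (nat_lit 14) (.e (nat_lit 401459) (nat_lit 13) (.e (nat_lit 483372) (nat_lit 21) (.e (nat_lit 319511) (nat_lit 10) .nil))))) .nil))))) (.nd (nat_lit 4) (.nd (nat_lit 5) (.nd (nat_lit 6) 
(.lf (nat_lit 1932) (.g (nat_lit 1751) (.e (nat_lit 226) (nat_lit 21) (.e (nat_lit 336443) (nat_lit 32) (.e (nat_lit 466979) (nat_lit 23) (.e (nat_lit 204805) (nat_lit 0) (.e (nat_lit 7098) (nat_lit 380) (.e (nat_lit 164351) (nat_lit 246) .nil)))))) (.g (nat_lit 4) .nil .nil))) 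
(.lf (nat_lit 1996) (.g (nat_lit 2243) (.e (nat_lit 230) (nat_lit 21) (.e (nat_lit 336013) (nat_lit 2) (.e (nat_lit 90170) (nat_lit 13) (.e (nat_lit 172113) (nat_lit 10) .nil)))) .nil))) (.nd (nat_lit 6) 
(.lf (nat_lit 1964) (.g (nat_lit 3032) (.e (nat_lit 227) (nat_lit 21) (.e (nat_lit 336324) (nat_lit 18) (.e (nat_lit 204863) (nat_lit 27) (.e (nat_lit 344132) (nat_lit 26) (.e (nat_lit 557100) (nat_lit 13) .nil))))) .nil)) 
(.lf (nat_lit 2028) (.g (nat_lit 426) (.e (nat_lit 231) (nat_lit 21) (.e (nat_lit 336205) (nat_lit 12) (.e (nat_lit 385094) (nat_lit 49) .nil))) .nil)))) (.nd (nat_lit 5) (.nd (nat_lit 6) 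
(.lf (nat_lit 1948) (.g (nat_lit 4366) (.e (nat_lit 227) (nat_lit 21) (.e (nat_lit 336208) (nat_lit 12) (.e (nat_lit 385074) (nat_lit 31) (.e (nat_lit 573485) (nat_lit 13) (.e (nat_lit 65619) (nat_lit 10) (.e (nat_lit 344129) (nat_lit 26) (.e (nat_lit 557065) (nat_lit 9) .nil))))))) (.g (nat_lit 7) .nil .nil))) 
(.lf (nat_lit 2012) (.g (nat_lit 2892) (.e (nat_lit 230) (nat_lit 21) (.e (nat_lit 336228) (nat_lit 14) (.e (nat_lit 401459) (nat_lit 13) (.e (nat_lit 483372) (nat_lit 21) (.e (nat_lit 319504) (nat_lit 10) (.e (nat_lit 7936) (nat_lit 312) .nil)))))) (.g (nat_lit 5) .nil .nil)))) (.nd (nat_lit 6) 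
(.lf (nat_lit 1980) (.g (nat_lit 2353) (.e (nat_lit 228) (nat_lit 21) (.e (nat_lit 336219) (nat_lit 13) (.e (nat_lit 393300) (nat_lit 27) (.e (nat_lit 491556) (nat_lit 9) (.e (nat_lit 336051) (nat_lit 6) (.e (nat_lit 147467) (nat_lit 9) .nil)))))) (.g (nat_lit 4) .nil .nil))) 
(.lf (nat_lit 2044) (.g (nat_lit 2097) (.e (nat_lit 232) (nat_lit 21) (.e (nat_lit 335907) (nat_lit 0) (.e (nat_lit 6092) (nat_lit 332) (.e (nat_lit 1140) (nat_lit 84) (.e (nat_lit 32787) (nat_lit 9) (.e (nat_lit 65610) (nat_lit 10) (.e (nat_lit 344129) (nat_lit 26) (.e (nat_lit 557066) (nat_lit 9) .nil)))))))) (.g (nat_lit 5) .nil .nil)))))))) 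
(.nd (nat_lit 2) (.nd (nat_lit 3) (.nd (nat_lit 4) (.nd (nat_lit 5) (.nd (nat_lit 6) 
(.lf (nat_lit 1922) (.g (nat_lit 1064) (.e (nat_lit 226) (nat_lit 21) (.e (nat_lit 336432) (nat_lit 30) (.e (nat_lit 450580) (nat_lit 5) (.e (nat_lit 532575) (nat_lit 17) .nil)))) .nil)) 
(.lf (nat_lit 1986) (.g (nat_lit 3678) (.e (nat_lit 229) (nat_lit 21) (.e (nat_lit 336013) (nat_lit 2) (.e (nat_lit 90170) (nat_lit 13) (.e (nat_lit 172113) (nat_lit 10) (.e (nat_lit 434248) (nat_lit 28) (.e (nat_lit 573475) (nat_lit 12) (.e (nat_lit 57574) (nat_lit 55) (.e (nat_lit 786176) (nat_lit 9) .nil)))))))) (.g (nat_lit 4) .nil .nil)))) (.nd (nat_lit 6) 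
(.lf (nat_lit 1954) (.g (nat_lit 2508) (.e (nat_lit 227) (nat_lit 21) (.e (nat_lit 336211) (nat_lit 13) (.e (nat_lit 393300) (nat_lit 27) (.e (nat_lit 491556) (nat_lit 9) (.e (nat_lit 336051) (nat_lit 6) .nil))))) .nil)) 
(.lf (nat_lit 2018) (.g (nat_lit 2742) (.e (nat_lit 231) (nat_lit 21) (.e (nat_lit 336013) (nat_lit 2) (.e (nat_lit 90170) (nat_lit 13) (.e (nat_lit 172113) (nat_lit 10) (.e (nat_lit 434248) (nat_lit 28) (.e (nat_lit 573473) (nat_lit 12) (.e (nat_lit 65280) (nat_lit 55) (.e (nat_lit 778334) (nat_lit 9) .nil)))))))) (.g (nat_lit 5) .nil .nil))))) (.nd (nat_lit 5) (.nd (nat_lit 6) 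
(.lf (nat_lit 1938) (.g (nat_lit 1770) (.e (nat_lit 227) (nat_lit 21) (.e (nat_lit 336019) (nat_lit 3) (.e (nat_lit 98342) (nat_lit 20) (.e (nat_lit 221212) (nat_lit 22) .nil)))) .nil)) 
(.lf (nat_lit 2002) (.g (nat_lit 2472) (.e (nat_lit 230) (nat_lit 21) (.e (nat_lit 336028) (nat_lit 3) (.e (nat_lit 98372) (nat_lit 29) (.e (nat_lit 450586) (nat_lit 10) (.e (nat_lit 573477) (nat_lit 12) (.e (nat_lit 57574) (nat_lit 55) (.e (nat_lit 778361) (nat_lit 9) .nil))))))) (.g (nat_lit 5) .nil .nil)))) (.nd (nat_lit 6) 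
(.lf (nat_lit 1970) (.g (nat_lit 1111) (.e (nat_lit 227) (nat_lit 21) (.e (nat_lit 336443) (nat_lit 32) (.e (nat_lit 466979) (nat_lit 23) (.e (nat_lit 204805) (nat_lit 0) .nil)))) .nil)) 
(.lf (nat_lit 2034) (.g (nat_lit 1659) (.e (nat_lit 231) (nat_lit 21) (.e (nat_lit 336224) (nat_lit 13) (.e (nat_lit 393301) (nat_lit 27) (.e (nat_lit 491558) (nat_lit 10) (.e (nat_lit 352000) (nat_lit 44) (.e (nat_lit 778339) (nat_lit 9) .nil)))))) (.g (nat_lit 4) .nil .nil)))))) (.nd (nat_lit 4) (.nd (nat_lit 5) (.nd (nat_lit 6) 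
(.lf (nat_lit 1930) (.g (nat_lit 1450) (.e (nat_lit 226) (nat_lit 21) (.e (nat_lit 336443) (nat_lit 32) (.e (nat_lit 466974) (nat_lit 22) (.e (nat_lit 196651) (nat_lit 10) .nil)))) .nil)) 
(.lf (nat_lit 1994) (.g (nat_lit 2436) (.e (nat_lit 229) (nat_lit 21) (.e (nat_lit 336228) (nat_lit 14) (.e (nat_lit 401459) (nat_lit 13) (.e (nat_lit 483372) (nat_lit 21) (.e (nat_lit 319504) (nat_lit 10) (.e (nat_lit 7936) (nat_lit 312) .nil)))))) (.g (nat_lit 5) .nil .nil)))) (.nd (nat_lit 6) 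
(.lf (nat_lit 1962) (.g (nat_lit 2385) (.e (nat_lit 227) (nat_lit 21) (.e (nat_lit 336324) (nat_lit 18) (.e (nat_lit 204862) (nat_lit 27) (.e (nat_lit 344133) (nat_lit 26) (.e (nat_lit 557096) (nat_lit 13) .nil))))) .nil)) 
(.lf (nat_lit 2026) (.g (nat_lit 461) (.e (nat_lit 231) (nat_lit 21) (.e (nat_lit 336028) (nat_lit 3) (.e (nat_lit 98370) (nat_lit 28) .nil))) .nil)))) (.nd (nat_lit 5) (.nd (nat_lit 6) 
(.lf (nat_lit 1946) (.g (nat_lit 2303) (.e (nat_lit 227) (nat_lit 21) (.e (nat_lit 336208) (nat_lit 12) (.e (nat_lit 385074) (nat_lit 31) (.e (nat_lit 573484) (nat_lit 13) (.e (nat_lit 65617) (nat_lit 10) .nil))))) .nil)) 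
(.lf (nat_lit 2010) (.g (nat_lit 2334) (.e (nat_lit 230) (nat_lit 21) (.e (nat_lit 336219) (nat_lit 13) (.e (nat_lit 393301) (nat_lit 27) (.e (nat_lit 491556) (nat_lit 9) (.e (nat_lit 336051) (nat_lit 6) (.e (nat_lit 147467) (nat_lit 9) .nil)))))) (.g (nat_lit 4) .nil .nil)))) (.nd (nat_lit 6) 
(.lf (nat_lit 1978) (.g (nat_lit 1330) (.e (nat_lit 228) (nat_lit 21) (.e (nat_lit 336212) (nat_lit 13) (.e (nat_lit 393301) (nat_lit 27) (.e (nat_lit 491556) (nat_lit 9) (.e (nat_lit 336051) (nat_lit 6) .nil))))) .nil)) 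
(.lf (nat_lit 2042) (.g (nat_lit 3589) (.e (nat_lit 232) (nat_lit 21) (.e (nat_lit 335907) (nat_lit 0) (.e (nat_lit 7936) (nat_lit 126) (.e (nat_lit 573489) (nat_lit 14) (.e (nat_lit 73755) (nat_lit 8) (.e (nat_lit 557098) (nat_lit 13) (.e (nat_lit 172064) (nat_lit 2) (.e (nat_lit 204544) (nat_lit 0) .nil)))))))) (.g (nat_lit 6) .nil .nil))))))) 
(.nd (nat_lit 3) (.nd (nat_lit 4) (.nd (nat_lit 5) (.nd (nat_lit 6) 
(.lf (nat_lit 1926) (.g (nat_lit 1323) (.e (nat_lit 226) (nat_lit 21) (.e (nat_lit 336432) (nat_lit 30) (.e (nat_lit 450588) (nat_lit 10) (.e (nat_lit 573503) (nat_lit 18) .nil)))) .nil)) 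
(.lf (nat_lit 1990) (.g (nat_lit 2536) (.e (nat_lit 229) (nat_lit 21) (.e (nat_lit 336226) (nat_lit 14) (.e (nat_lit 401459) (nat_lit 13) (.e (nat_lit 483350) (nat_lit 17) (.e (nat_lit 6113) (nat_lit 332) .nil))))) .nil))) (.nd (nat_lit 6) 
(.lf (nat_lit 1958) (.g (nat_lit 3824) (.e (nat_lit 227) (nat_lit 21) (.e (nat_lit 336316) (nat_lit 17) (.e (nat_lit 196670) (nat_lit 14) (.e (nat_lit 73753) (nat_lit 8) (.e (nat_lit 557098) (nat_lit 13) (.e (nat_lit 172064) (nat_lit 2) (.e (nat_lit 204544) (nat_lit 0) .nil))))))) (.g (nat_lit 6) .nil .nil))) 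
(.lf (nat_lit 2022) (.g (nat_lit 3023) (.e (nat_lit 231) (nat_lit 21) (.e (nat_lit 336028) (nat_lit 3) (.e (nat_lit 98359) (nat_lit 26) (.e (nat_lit 426286) (nat_lit 10) (.e (nat_lit 434247) (nat_lit 28) (.e (nat_lit 573477) (nat_lit 12) (.e (nat_lit 65280) (nat_lit 55) (.e (nat_lit 778334) (nat_lit 9) .nil)))))))) (.g (nat_lit 6) .nil .nil))))) (.nd (nat_lit 5) (.nd (nat_lit 6) 
(.lf (nat_lit 1942) (.g (nat_lit 2448) (.e (nat_lit 227) (nat_lit 21) (.e (nat_lit 336019) (nat_lit 3) (.e (nat_lit 98372) (nat_lit 29) (.e (nat_lit 450586) (nat_lit 10) (.e (nat_lit 573475) (nat_lit 12) (.e (nat_lit 57574) (nat_lit 55) (.e (nat_lit 778361) (nat_lit 9) .nil))))))) (.g (nat_lit 4) .nil .nil))) 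
(.lf (nat_lit 2006) (.g (nat_lit 2623) (.e (nat_lit 230) (nat_lit 21) (.e (nat_lit 336028) (nat_lit 3) (.e (nat_lit 98373) (nat_lit 29) (.e (nat_lit 450587) (nat_lit 10) (.e (nat_lit 573478) (nat_lit 12) .nil))))) .nil))) (.nd (nat_lit 6) 
(.lf (nat_lit 1974) (.g (nat_lit 2000) (.e (nat_lit 228) (nat_lit 21) (.e (nat_lit 336024) (nat_lit 3) (.e (nat_lit 98373) (nat_lit 29) (.e (nat_lit 450587) (nat_lit 10) (.e (nat_lit 573478) (nat_lit 12) .nil))))) .nil)) 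
(.lf (nat_lit 2038) (.g (nat_lit 3182) (.e (nat_lit 231) (nat_lit 21) (.e (nat_lit 336228) (nat_lit 14) (.e (nat_lit 401459) (nat_lit 13) (.e (nat_lit 483372) (nat_lit 21) (.e (nat_lit 327424) (nat_lit 10) .nil))))) .nil))))) (.nd (nat_lit 4) (.nd (nat_lit 5) (.nd (nat_lit 6) 
(.lf (nat_lit 1934) (.g (nat_lit 1041) (.e (nat_lit 226) (nat_lit 21) (.e (nat_lit 336443) (nat_lit 32) (.e (nat_lit 466981) (nat_lit 23) (.e (nat_lit 204804) (nat_lit 0) .nil)))) .nil)) 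
(.lf (nat_lit 1998) (.g (nat_lit 3203) (.e (nat_lit 230) (nat_lit 21) (.e (nat_lit 336013) (nat_lit 2) (.e (nat_lit 90170) (nat_lit 13) (.e (nat_lit 172113) (nat_lit 10) (.e (nat_lit 434247) (nat_lit 28) (.e (nat_lit 573477) (nat_lit 12) (.e (nat_lit 57574) (nat_lit 55) (.e (nat_lit 778360) (nat_lit 9) .nil)))))))) (.g (nat_lit 4) .nil .nil)))) (.nd (nat_lit 6) 
(.lf (nat_lit 1966) (.g (nat_lit 3007) (.e (nat_lit 227) (nat_lit 21) (.e (nat_lit 336324) (nat_lit 18) (.e (nat_lit 204864) (nat_lit 27) (.e (nat_lit 344132) (nat_lit 26) (.e (nat_lit 557100) (nat_lit 13) (.e (nat_lit 172064) (nat_lit 2) (.e (nat_lit 204544) (nat_lit 0) .nil))))))) (.g (nat_lit 5) .nil .nil))) 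
(.lf (nat_lit 2030) (.g (nat_lit 1546) (.e (nat_lit 231) (nat_lit 21) (.e (nat_lit 336224) (nat_lit 13) (.e (nat_lit 393234) (nat_lit 17) (.e (nat_lit 7591) (nat_lit 407) (.e (nat_lit 73774) (nat_lit 26) (.e (nat_lit 778337) (nat_lit 9) .nil)))))) (.g (nat_lit 4) .nil .nil))))) (.nd (nat_lit 5) (.nd (nat_lit 6) 
(.lf (nat_lit 1950) (.g (nat_lit 1643) (.e (nat_lit 227) (nat_lit 21) (.e (nat_lit 336211) (nat_lit 13) (.e (nat_lit 393232) (nat_lit 17) (.e (nat_lit 7591) (nat_lit 407) (.e (nat_lit 73775) (nat_lit 26) .nil))))) .nil)) 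
(.lf (nat_lit 2014) (.g (nat_lit 2502) (.e (nat_lit 231) (nat_lit 21) (.e (nat_lit 336013) (nat_lit 2) (.e (nat_lit 90170) (nat_lit 13) (.e (nat_lit 172095) (nat_lit 9) .nil)))) .nil))) (.nd (nat_lit 6) 
(.lf (nat_lit 1982) (.g (nat_lit 2936) (.e (nat_lit 229) (nat_lit 21) (.e (nat_lit 336013) (nat_lit 2) (.e (nat_lit 90170) (nat_lit 13) (.e (nat_lit 172106) (nat_lit 10) (.e (nat_lit 434244) (nat_lit 28) (.e (nat_lit 573474) (nat_lit 12) (.e (nat_lit 65280) (nat_lit 55) (.e (nat_lit 778348) (nat_lit 9) .nil)))))))) (.g (nat_lit 4) .nil .nil))) 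
(.lf (nat_lit 2046) (.g (nat_lit 3230) (.e (nat_lit 232) (nat_lit 21) (.e (nat_lit 335907) (nat_lit 0) (.e (nat_lit 6146) (nat_lit 332) (.e (nat_lit 1140) (nat_lit 84) (.e (nat_lit 32787) (nat_lit 9) (.e (nat_lit 65610) (nat_lit 10) (.e (nat_lit 344129) (nat_lit 26) (.e (nat_lit 557066) (nat_lit 9) .nil)))))))) (.g (nat_lit 7) .nil .nil))))))))) 
(.nd (nat_lit 1) (.nd (nat_lit 2) (.nd (nat_lit 3) (.nd (nat_lit 4) (.nd (nat_lit 5) 
(.nd (nat_lit 6) 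
(.lf (nat_lit 1921) (.g (nat_lit 1469) (.e (nat_lit 226) (nat_lit 21) (.e (nat_lit 336432) (nat_lit 30) (.e (nat_lit 450579) (nat_lit 5) (.e (nat_lit 532575) (nat_lit 17) (.e (nat_lit 7106) (nat_lit 380) (.e (nat_lit 164358) (nat_lit 246) .nil)))))) (.g (nat_lit 4) .nil .nil))) 
(.lf (nat_lit 1985) (.g (nat_lit 3546) (.e (nat_lit 229) (nat_lit 21) (.e (nat_lit 336013) (nat_lit 2) (.e (nat_lit 90170) (nat_lit 13) (.e (nat_lit 172113) (nat_lit 10) (.e (nat_lit 434248) (nat_lit 28) .nil))))) .nil))) (.nd (nat_lit 6) 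
(.lf (nat_lit 1953) (.g (nat_lit 2533) (.e (nat_lit 227) (nat_lit 21) (.e (nat_lit 336211) (nat_lit 13) (.e (nat_lit 393299) (nat_lit 27) (.e (nat_lit 491556) (nat_lit 9) (.e (nat_lit 336051) (nat_lit 6) .nil))))) .nil)) 
(.lf (nat_lit 2017) (.g (nat_lit 3492) (.e (nat_lit 231) (nat_lit 21) (.e (nat_lit 336013) (nat_lit 2) (.e (nat_lit 90170) (nat_lit 13) (.e (nat_lit 172113) (nat_lit 10) (.e (nat_lit 434247) (nat_lit 28) (.e (nat_lit 573477) (nat_lit 12) (.e (nat_lit 65280) (nat_lit 55) (.e (nat_lit 778337) (nat_lit 9) .nil)))))))) (.g (nat_lit 6) .nil .nil))))) (.nd (nat_lit 5) (.nd (nat_lit 6) 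
(.lf (nat_lit 1937) (.g (nat_lit 2217) (.e (nat_lit 226) (nat_lit 21) (.e (nat_lit 336456) (nat_lit 34) (.e (nat_lit 483372) (nat_lit 21) (.e (nat_lit 319505) (nat_lit 10) .nil)))) .nil)) 
(.lf (nat_lit 2001) (.g (nat_lit 1550) (.e (nat_lit 230) (nat_lit 21) (.e (nat_lit 336028) (nat_lit 3) (.e (nat_lit 98372) (nat_lit 29) (.e (nat_lit 450586) (nat_lit 10) .nil)))) .nil))) (.nd (nat_lit 6) 
(.lf (nat_lit 1969) (.g (nat_lit 1005) (.e (nat_lit 227) (nat_lit 21) (.e (nat_lit 336430) (nat_lit 29) (.e (nat_lit 442427) (nat_lit 23) (.e (nat_lit 204805) (nat_lit 0) .nil)))) .nil)) 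
(.lf (nat_lit 2033) (.g (nat_lit 1654) (.e (nat_lit 231) (nat_lit 21) (.e (nat_lit 336224) (nat_lit 13) (.e (nat_lit 393301) (nat_lit 27) (.e (nat_lit 491558) (nat_lit 10) (.e (nat_lit 352000) (nat_lit 44) .nil))))) .nil))))) (.nd (nat_lit 4) (.nd (nat_lit 5) (.nd (nat_lit 6) 
(.lf (nat_lit 1929) (.g (nat_lit 1381) (.e (nat_lit 226) (nat_lit 21) (.e (nat_lit 336443) (nat_lit 32) (.e (nat_lit 466974) (nat_lit 22) (.e (nat_lit 196649) (nat_lit 10) (.e (nat_lit 16128) (nat_lit 183) .nil))))) .nil)) 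
(.lf (nat_lit 1993) (.g (nat_lit 1701) (.e (nat_lit 229) (nat_lit 21) (.e (nat_lit 336228) (nat_lit 14) (.e (nat_lit 401459) (nat_lit 13) (.e (nat_lit 483350) (nat_lit 17) .nil)))) .nil))) (.nd (nat_lit 6) 
(.lf (nat_lit 1961) (.g (nat_lit 3875) (.e (nat_lit 227) (nat_lit 21) (.e (nat_lit 336324) (nat_lit 18) (.e (nat_lit 204862) (nat_lit 27) (.e (nat_lit 344129) (nat_lit 26) (.e (nat_lit 557097) (nat_lit 13) (.e (nat_lit 172064) (nat_lit 2) (.e (nat_lit 204544) (nat_lit 0) .nil))))))) (.g (nat_lit 5) .nil .nil))) 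
(.lf (nat_lit 2025) (.g (nat_lit 462) (.e (nat_lit 231) (nat_lit 21) (.e (nat_lit 336028) (nat_lit 3) (.e (nat_lit 98369) (nat_lit 28) .nil))) .nil)))) (.nd (nat_lit 5) (.nd (nat_lit 6) 
(.lf (nat_lit 1945) (.g (nat_lit 2790) (.e (nat_lit 227) (nat_lit 21) (.e (nat_lit 336019) (nat_lit 3) (.e (nat_lit 98372) (nat_lit 29) (.e (nat_lit 450586) (nat_lit 10) (.e (nat_lit 573478) (nat_lit 12) (.e (nat_lit 57574) (nat_lit 55) (.e (nat_lit 778362) (nat_lit 9) .nil))))))) (.g (nat_lit 5) .nil .nil))) 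
(.lf (nat_lit 2009) (.g (nat_lit 2252) (.e (nat_lit 230) (nat_lit 21) (.e (nat_lit 336219) (nat_lit 13) (.e (nat_lit 393300) (nat_lit 27) (.e (nat_lit 491556) (nat_lit 9) (.e (nat_lit 336051) (nat_lit 6) (.e (nat_lit 147466) (nat_lit 9) .nil)))))) (.g (nat_lit 4) .nil .nil)))) (.nd (nat_lit 6) 
(.lf (nat_lit 1977) (.g (nat_lit 4181) (.e (nat_lit 228) (nat_lit 21) (.e (nat_lit 336200) (nat_lit 12) (.e (nat_lit 385074) (nat_lit 31) (.e (nat_lit 573485) (nat_lit 13) (.e (nat_lit 65619) (nat_lit 10) (.e (nat_lit 344129) (nat_lit 26) (.e (nat_lit 557066) (nat_lit 9) .nil))))))) (.g (nat_lit 7) .nil .nil))) 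
(.lf (nat_lit 2041) (.g (nat_lit 2843) (.e (nat_lit 232) (nat_lit 21) (.e (nat_lit 335907) (nat_lit 0) (.e (nat_lit 7936) (nat_lit 126) (.e (nat_lit 573489) (nat_lit 14) (.e (nat_lit 73755) (nat_lit 8) (.e (nat_lit 557097) (nat_lit 13) (.e (nat_lit 172064) (nat_lit 2) (.e (nat_lit 204544) (nat_lit 0) .nil)))))))) (.g (nat_lit 5) .nil .nil))))))) 
(.nd (nat_lit 3) (.nd (nat_lit 4) (.nd (nat_lit 5) (.nd (nat_lit 6) 
(.lf (nat_lit 1925) (.g (nat_lit 2563) (.e (nat_lit 226) (nat_lit 21) (.e (nat_lit 336432) (nat_lit 30) (.e (nat_lit 450580) (nat_lit 5) (.e (nat_lit 532575) (nat_lit 17) (.e (nat_lit 7105) (nat_lit 380) (.e (nat_lit 164358) (nat_lit 246) .nil)))))) (.g (nat_lit 0) .nil .nil))) 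
(.lf (nat_lit 1989) (.g (nat_lit 2140) (.e (nat_lit 229) (nat_lit 21) (.e (nat_lit 336226) (nat_lit 14) (.e (nat_lit 401458) (nat_lit 13) (.e (nat_lit 483372) (nat_lit 21) (.e (nat_lit 319511) (nat_lit 10) (.e (nat_lit 5629) (nat_lit 312) .nil)))))) (.g (nat_lit 4) .nil .nil)))) (.nd (nat_lit 6) 
(.lf (nat_lit 1957) (.g (nat_lit 3035) (.e (nat_lit 227) (nat_lit 21) (.e (nat_lit 336316) (nat_lit 17) (.e (nat_lit 196670) (nat_lit 14) (.e (nat_lit 73753) (nat_lit 8) (.e (nat_lit 557096) (nat_lit 13) (.e (nat_lit 172064) (nat_lit 2) (.e (nat_lit 204544) (nat_lit 0) .nil))))))) (.g (nat_lit 6) .nil .nil))) 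
(.lf (nat_lit 2021) (.g (nat_lit 3165) (.e (nat_lit 231) (nat_lit 21) (.e (nat_lit 336013) (nat_lit 2) (.e (nat_lit 90170) (nat_lit 13) (.e (nat_lit 172120) (nat_lit 12) (.e (nat_lit 475179) (nat_lit 24) .nil))))) .nil)))) (.nd (nat_lit 5) (.nd (nat_lit 6) 
(.lf (nat_lit 1941) (.g (nat_lit 2201) (.e (nat_lit 227) (nat_lit 21) (.e (nat_lit 336019) (nat_lit 3) (.e (nat_lit 98342) (nat_lit 20) (.e (nat_lit 221215) (nat_lit 23) (.e (nat_lit 204829) (nat_lit 18) .nil))))) .nil)) 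
(.lf (nat_lit 2005) (.g (nat_lit 2663) (.e (nat_lit 230) (nat_lit 21) (.e (nat_lit 336028) (nat_lit 3) (.e (nat_lit 98373) (nat_lit 29) (.e (nat_lit 450587) (nat_lit 10) (.e (nat_lit 573477) (nat_lit 12) .nil))))) .nil))) (.nd (nat_lit 6) 
(.lf (nat_lit 1973) (.g (nat_lit 1528) (.e (nat_lit 228) (nat_lit 21) (.e (nat_lit 336024) (nat_lit 3) (.e (nat_lit 98372) (nat_lit 29) (.e (nat_lit 450586) (nat_lit 10) (.e (nat_lit 573478) (nat_lit 12) .nil))))) .nil)) 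
(.lf (nat_lit 2037) (.g (nat_lit 3789) (.e (nat_lit 231) (nat_lit 21) (.e (nat_lit 336228) (nat_lit 14) (.e (nat_lit 401459) (nat_lit 13) (.e (nat_lit 483372) (nat_lit 21) (.e (nat_lit 319513) (nat_lit 10) .nil))))) .nil))))) (.nd (nat_lit 4) (.nd (nat_lit 5) (.nd (nat_lit 6) 
(.lf (nat_lit 1933) (.g (nat_lit 407) (.e (nat_lit 226) (nat_lit 21) (.e (nat_lit 336443) (nat_lit 32) (.e (nat_lit 466981) (nat_lit 23) .nil))) .nil)) 
(.lf (nat_lit 1997) (.g (nat_lit 3110) (.e (nat_lit 230) (nat_lit 21) (.e (nat_lit 336013) (nat_lit 2) (.e (nat_lit 90170) (nat_lit 13) (.e (nat_lit 172113) (nat_lit 10) (.e (nat_lit 434247) (nat_lit 28) .nil))))) .nil))) (.nd (nat_lit 6) 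
(.lf (nat_lit 1965) (.g (nat_lit 3080) (.e (nat_lit 227) (nat_lit 21) (.e (nat_lit 336324) (nat_lit 18) (.e (nat_lit 204863) (nat_lit 27) (.e (nat_lit 344132) (nat_lit 26) (.e (nat_lit 557101) (nat_lit 13) .nil))))) .nil)) 
(.lf (nat_lit 2029) (.g (nat_lit 408) (.e (nat_lit 231) (nat_lit 21) (.e (nat_lit 336224) (nat_lit 13) (.e (nat_lit 393233) (nat_lit 17) .nil))) .nil)))) (.nd (nat_lit 5) (.nd (nat_lit 6) 
(.lf (nat_lit 1949) (.g (nat_lit 4419) (.e (nat_lit 227) (nat_lit 21) (.e (nat_lit 336208) (nat_lit 12) (.e (nat_lit 385074) (nat_lit 31) (.e (nat_lit 573485) (nat_lit 13) (.e (nat_lit 65619) (nat_lit 10) (.e (nat_lit 344129) (nat_lit 26) (.e (nat_lit 557066) (nat_lit 9) .nil))))))) (.g (nat_lit 0) .nil .nil))) 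
(.lf (nat_lit 2013) (.g (nat_lit 2612) (.e (nat_lit 231) (nat_lit 21) (.e (nat_lit 336013) (nat_lit 2) (.e (nat_lit 90170) (nat_lit 13) (.e (nat_lit 172088) (nat_lit 9) .nil)))) .nil))) (.nd (nat_lit 6) 
(.lf (nat_lit 1981) (.g (nat_lit 2828) (.e (nat_lit 229) (nat_lit 21) (.e (nat_lit 336013) (nat_lit 2) (.e (nat_lit 90170) (nat_lit 13) (.e (nat_lit 172106) (nat_lit 10) (.e (nat_lit 434244) (nat_lit 28) .nil))))) .nil)) 
(.lf (nat_lit 2045) (.g (nat_lit 1885) (.e (nat_lit 232) (nat_lit 21) (.e (nat_lit 335907) (nat_lit 0) (.e (nat_lit 6146) (nat_lit 332) (.e (nat_lit 1139) (nat_lit 84) (.e (nat_lit 32787) (nat_lit 9) (.e (nat_lit 65610) (nat_lit 10) (.e (nat_lit 344129) (nat_lit 26) (.e (nat_lit 557066) (nat_lit 9) .nil)))))))) (.g (nat_lit 5) .nil .nil)))))))) 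
(.nd (nat_lit 2) (.nd (nat_lit 3) (.nd (nat_lit 4) (.nd (nat_lit 5) (.nd (nat_lit 6) 
(.lf (nat_lit 1923) (.g (nat_lit 2709) (.e (nat_lit 226) (nat_lit 21) (.e (nat_lit 336432) (nat_lit 30) (.e (nat_lit 450580) (nat_lit 5) (.e (nat_lit 532575) (nat_lit 17) (.e (nat_lit 7098) (nat_lit 380) (.e (nat_lit 164358) (nat_lit 246) .nil)))))) (.g (nat_lit 6) .nil .nil))) 
(.lf (nat_lit 1987) (.g (nat_lit 1684) (.e (nat_lit 229) (nat_lit 21) (.e (nat_lit 336028) (nat_lit 3) (.e (nat_lit 98373) (nat_lit 29) (.e (nat_lit 450587) (nat_lit 10) .nil)))) .nil))) (.nd (nat_lit 6) 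
(.lf (nat_lit 1955) (.g (nat_lit 2615) (.e (nat_lit 227) (nat_lit 21) (.e (nat_lit 336211) (nat_lit 13) (.e (nat_lit 393301) (nat_lit 27) (.e (nat_lit 491556) (nat_lit 9) (.e (nat_lit 336051) (nat_lit 6) (.e (nat_lit 147466) (nat_lit 9) .nil)))))) (.g (nat_lit 4) .nil .nil))) 
(.lf (nat_lit 2019) (.g (nat_lit 2359) (.e (nat_lit 231) (nat_lit 21) (.e (nat_lit 336013) (nat_lit 2) (.e (nat_lit 90170) (nat_lit 13) (.e (nat_lit 172118) (nat_lit 12) .nil)))) .nil)))) (.nd (nat_lit 5) (.nd (nat_lit 6) 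
(.lf (nat_lit 1939) (.g (nat_lit 2168) (.e (nat_lit 227) (nat_lit 21) (.e (nat_lit 336019) (nat_lit 3) (.e (nat_lit 98342) (nat_lit 20) (.e (nat_lit 221214) (nat_lit 23) (.e (nat_lit 204829) (nat_lit 18) .nil))))) .nil)) 
(.lf (nat_lit 2003) (.g (nat_lit 2120) (.e (nat_lit 230) (nat_lit 21) (.e (nat_lit 336028) (nat_lit 3) (.e (nat_lit 98372) (nat_lit 29) (.e (nat_lit 450586) (nat_lit 10) (.e (nat_lit 573478) (nat_lit 12) (.e (nat_lit 57574) (nat_lit 55) (.e (nat_lit 778362) (nat_lit 9) .nil))))))) (.g (nat_lit 4) .nil .nil)))) (.nd (nat_lit 6) 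
(.lf (nat_lit 1971) (.g (nat_lit 1191) (.e (nat_lit 227) (nat_lit 21) (.e (nat_lit 336443) (nat_lit 32) (.e (nat_lit 466981) (nat_lit 23) (.e (nat_lit 204805) (nat_lit 0) .nil)))) .nil)) 
(.lf (nat_lit 2035) (.g (nat_lit 1575) (.e (nat_lit 231) (nat_lit 21) (.e (nat_lit 336224) (nat_lit 13) (.e (nat_lit 393301) (nat_lit 27) (.e (nat_lit 491560) (nat_lit 10) (.e (nat_lit 352000) (nat_lit 44) .nil))))) .nil))))) (.nd (nat_lit 4) (.nd (nat_lit 5) (.nd (nat_lit 6) 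
(.lf (nat_lit 1931) (.g (nat_lit 742) (.e (nat_lit 226) (nat_lit 21) (.e (nat_lit 336443) (nat_lit 32) (.e (nat_lit 466978) (nat_lit 23) .nil))) .nil)) 
(.lf (nat_lit 1995) (.g (nat_lit 2413) (.e (nat_lit 230) (nat_lit 21) (.e (nat_lit 336013) (nat_lit 2) (.e (nat_lit 90170) (nat_lit 13) (.e (nat_lit 172106) (nat_lit 10) .nil)))) .nil))) (.nd (nat_lit 6) 
(.lf (nat_lit 1963) (.g (nat_lit 3525) (.e (nat_lit 227) (nat_lit 21) (.e (nat_lit 336324) (nat_lit 18) (.e (nat_lit 204862) (nat_lit 27) (.e (nat_lit 344133) (nat_lit 26) (.e (nat_lit 557098) (nat_lit 13) (.e (nat_lit 172064) (nat_lit 2) (.e (nat_lit 204544) (nat_lit 0) .nil))))))) (.g (nat_lit 5) .nil .nil))) 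
(.lf (nat_lit 2027) (.g (nat_lit 1154) (.e (nat_lit 231) (nat_lit 21) (.e (nat_lit 336028) (nat_lit 3) (.e (nat_lit 98370) (nat_lit 28) (.e (nat_lit 450304) (nat_lit 3) .nil)))) .nil)))) (.nd (nat_lit 5) (.nd (nat_lit 6) 
(.lf (nat_lit 1947) (.g (nat_lit 2438) (.e (nat_lit 227) (nat_lit 21) (.e (nat_lit 336208) (nat_lit 12) (.e (nat_lit 385074) (nat_lit 31) (.e (nat_lit 573484) (nat_lit 13) (.e (nat_lit 65617) (nat_lit 10) (.e (nat_lit 344133) (nat_lit 26) (.e (nat_lit 557066) (nat_lit 9) .nil))))))) (.g (nat_lit 4) .nil .nil))) 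
(.lf (nat_lit 2011) (.g (nat_lit 1754) (.e (nat_lit 230) (nat_lit 21) (.e (nat_lit 336224) (nat_lit 13) (.e (nat_lit 393301) (nat_lit 27) (.e (nat_lit 491556) (nat_lit 9) (.e (nat_lit 336051) (nat_lit 6) .nil))))) .nil))) (.nd (nat_lit 6) 
(.lf (nat_lit 1979) (.g (nat_lit 1410) (.e (nat_lit 228) (nat_lit 21) (.e (nat_lit 336219) (nat_lit 13) (.e (nat_lit 393233) (nat_lit 17) (.e (nat_lit 7591) (nat_lit 407) (.e (nat_lit 73775) (nat_lit 26) .nil))))) .nil)) 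
(.lf (nat_lit 2043) (.g (nat_lit 1895) (.e (nat_lit 232) (nat_lit 21) (.e (nat_lit 335907) (nat_lit 0) (.e (nat_lit 6092) (nat_lit 332) (.e (nat_lit 1139) (nat_lit 84) (.e (nat_lit 32787) (nat_lit 9) (.e (nat_lit 65610) (nat_lit 10) (.e (nat_lit 344129) (nat_lit 26) (.e (nat_lit 557066) (nat_lit 9) .nil)))))))) (.g (nat_lit 5) .nil .nil))))))) 
(.nd (nat_lit 3) (.nd (nat_lit 4) (.nd (nat_lit 5) (.nd (nat_lit 6) 
(.lf (nat_lit 1927) (.g (nat_lit 866) (.e (nat_lit 226) (nat_lit 21) (.e (nat_lit 336443) (nat_lit 32) (.e (nat_lit 466960) (nat_lit 20) .nil))) .nil)) 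
(.lf (nat_lit 1991) (.g (nat_lit 4645) (.e (nat_lit 229) (nat_lit 21) (.e (nat_lit 336226) (nat_lit 14) (.e (nat_lit 401459) (nat_lit 13) (.e (nat_lit 483372) (nat_lit 21) (.e (nat_lit 319511) (nat_lit 10) (.e (nat_lit 5629) (nat_lit 312) .nil)))))) (.g (nat_lit 6) .nil .nil)))) (.nd (nat_lit 6) 
(.lf (nat_lit 1959) (.g (nat_lit 2189) (.e (nat_lit 227) (nat_lit 21) (.e (nat_lit 336324) (nat_lit 18) (.e (nat_lit 204854) (nat_lit 26) (.e (nat_lit 336019) (nat_lit 3) .nil)))) .nil)) 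
(.lf (nat_lit 2023) (.g (nat_lit 3041) (.e (nat_lit 231) (nat_lit 21) (.e (nat_lit 336028) (nat_lit 3) (.e (nat_lit 98359) (nat_lit 26) (.e (nat_lit 426286) (nat_lit 10) (.e (nat_lit 434247) (nat_lit 28) (.e (nat_lit 573477) (nat_lit 12) (.e (nat_lit 65280) (nat_lit 55) (.e (nat_lit 778337) (nat_lit 9) .nil)))))))) (.g (nat_lit 6) .nil .nil))))) (.nd (nat_lit 5) (.nd (nat_lit 6) 
(.lf (nat_lit 1943) (.g (nat_lit 3338) (.e (nat_lit 227) (nat_lit 21) (.e (nat_lit 336019) (nat_lit 3) (.e (nat_lit 98372) (nat_lit 29) (.e (nat_lit 450586) (nat_lit 10) (.e (nat_lit 573475) (nat_lit 12) (.e (nat_lit 57574) (nat_lit 55) (.e (nat_lit 778362) (nat_lit 9) .nil))))))) (.g (nat_lit 5) .nil .nil))) 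
(.lf (nat_lit 2007) (.g (nat_lit 1932) (.e (nat_lit 230) (nat_lit 21) (.e (nat_lit 336173) (nat_lit 10) (.e (nat_lit 344126) (nat_lit 25) (.e (nat_lit 548874) (nat_lit 5) (.e (nat_lit 1598) (nat_lit 111) .nil))))) .nil))) (.nd (nat_lit 6) 
(.lf (nat_lit 1975) (.g (nat_lit 3836) (.e (nat_lit 228) (nat_lit 21) (.e (nat_lit 336024) (nat_lit 3) (.e (nat_lit 98373) (nat_lit 29) (.e (nat_lit 450588) (nat_lit 10) (.e (nat_lit 573475) (nat_lit 12) (.e (nat_lit 57574) (nat_lit 55) (.e (nat_lit 778359) (nat_lit 9) .nil))))))) (.g (nat_lit 5) .nil .nil))) 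
(.lf (nat_lit 2039) (.g (nat_lit 2839) (.e (nat_lit 232) (nat_lit 21) (.e (nat_lit 335907) (nat_lit 0) (.e (nat_lit 7936) (nat_lit 126) (.e (nat_lit 573489) (nat_lit 14) (.e (nat_lit 73754) (nat_lit 8) (.e (nat_lit 557101) (nat_lit 13) (.e (nat_lit 172064) (nat_lit 2) (.e (nat_lit 204544) (nat_lit 0) .nil)))))))) (.g (nat_lit 5) .nil .nil)))))) (.nd (nat_lit 4) (.nd (nat_lit 5) (.nd (nat_lit 6) 
(.lf (nat_lit 1935) (.g (nat_lit 1812) (.e (nat_lit 226) (nat_lit 21) (.e (nat_lit 336443) (nat_lit 32) (.e (nat_lit 466981) (nat_lit 23) (.e (nat_lit 204805) (nat_lit 0) (.e (nat_lit 6988) (nat_lit 377) (.e (nat_lit 7936) (nat_lit 157) (.e (nat_lit 5629) (nat_lit 312) .nil))))))) (.g (nat_lit 4) .nil .nil))) 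
(.lf (nat_lit 1999) (.g (nat_lit 3922) (.e (nat_lit 230) (nat_lit 21) (.e (nat_lit 336013) (nat_lit 2) (.e (nat_lit 90170) (nat_lit 13) (.e (nat_lit 172113) (nat_lit 10) (.e (nat_lit 434247) (nat_lit 28) (.e (nat_lit 573478) (nat_lit 12) (.e (nat_lit 57574) (nat_lit 55) (.e (nat_lit 778362) (nat_lit 9) .nil)))))))) (.g (nat_lit 5) .nil .nil)))) (.nd (nat_lit 6) 
(.lf (nat_lit 1967) (.g (nat_lit 2777) (.e (nat_lit 227) (nat_lit 21) (.e (nat_lit 336324) (nat_lit 18) (.e (nat_lit 204864) (nat_lit 27) (.e (nat_lit 344132) (nat_lit 26) (.e (nat_lit 557101) (nat_lit 13) (.e (nat_lit 172064) (nat_lit 2) (.e (nat_lit 204544) (nat_lit 0) .nil))))))) (.g (nat_lit 5) .nil .nil))) 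
(.lf (nat_lit 2031) (.g (nat_lit 1554) (.e (nat_lit 231) (nat_lit 21) (.e (nat_lit 336224) (nat_lit 13) (.e (nat_lit 393234) (nat_lit 17) (.e (nat_lit 7591) (nat_lit 407) (.e (nat_lit 73774) (nat_lit 26) (.e (nat_lit 778340) (nat_lit 9) .nil)))))) (.g (nat_lit 4) .nil .nil))))) (.nd (nat_lit 5) (.nd (nat_lit 6) 
(.lf (nat_lit 1951) (.g (nat_lit 443) (.e (nat_lit 227) (nat_lit 21) (.e (nat_lit 336211) (nat_lit 13) (.e (nat_lit 393233) (nat_lit 17) .nil))) .nil)) 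
(.lf (nat_lit 2015) (.g (nat_lit 1006) (.e (nat_lit 231) (nat_lit 21) (.e (nat_lit 336013) (nat_lit 2) (.e (nat_lit 90170) (nat_lit 13) (.e (nat_lit 172106) (nat_lit 10) .nil)))) .nil))) (.nd (nat_lit 6) 
(.lf (nat_lit 1983) (.g (nat_lit 3537) (.e (nat_lit 229) (nat_lit 21) (.e (nat_lit 336013) (nat_lit 2) (.e (nat_lit 90170) (nat_lit 13) (.e (nat_lit 172113) (nat_lit 10) (.e (nat_lit 434245) (nat_lit 28) .nil))))) .nil)) 
(.lf (nat_lit 2047) (.g (nat_lit 1561) (.e (nat_lit 232) (nat_lit 21) (.e (nat_lit 335907) (nat_lit 0) (.e (nat_lit 6146) (nat_lit 332) (.e (nat_lit 1140) (nat_lit 84) (.e (nat_lit 32787) (nat_lit 9) (.e (nat_lit 65619) (nat_lit 10) (.e (nat_lit 344129) (nat_lit 26) (.e (nat_lit 557066) (nat_lit 9) .nil)))))))) (.g (nat_lit 4) .nil .nil))))))))))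

noncomputable def tv027 : DT := (.nd (nat_lit 0) (.nd (nat_lit 1) (.nd (nat_lit 2) (.nd (nat_lit 3) (.nd (nat_lit 4) (.nd (nat_lit 5) 
(.lf (nat_lit 2048) (.g (nat_lit 3423) (.e (nat_lit 232) (nat_lit 21) (.e (nat_lit 335907) (nat_lit 0) (.e (nat_lit 6146) (nat_lit 332) (.e (nat_lit 1141) (nat_lit 84) (.e (nat_lit 32787) (nat_lit 9) (.e (nat_lit 65610) (nat_lit 10) (.e (nat_lit 344129) (nat_lit 26) (.e (nat_lit 557066) (nat_lit 9) .nil)))))))) (.g (nat_lit 7) .nil .nil))) 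
(.lf (nat_lit 2080) (.g (nat_lit 3762) (.e (nat_lit 232) (nat_lit 21) (.e (nat_lit 336013) (nat_lit 2) (.e (nat_lit 90160) (nat_lit 11) (.e (nat_lit 24607) (nat_lit 3) .nil)))) .nil))) (.nd (nat_lit 5) 
(.lf (nat_lit 2064) (.g (nat_lit 3069) (.e (nat_lit 232) (nat_lit 21) (.e (nat_lit 336013) (nat_lit 2) (.e (nat_lit 90134) (nat_lit 9) (.e (nat_lit 290) (nat_lit 21) (.e (nat_lit 336021) (nat_lit 3) (.e (nat_lit 98313) (nat_lit 9) (.e (nat_lit 336012) (nat_lit 2) (.e (nat_lit 90122) (nat_lit 9) .nil)))))))) (.g (nat_lit 5) .nil .nil))) 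
(.lf (nat_lit 2096) (.g (nat_lit 3731) (.e (nat_lit 232) (nat_lit 21) (.e (nat_lit 336013) (nat_lit 2) (.e (nat_lit 90170) (nat_lit 13) (.e (nat_lit 172106) (nat_lit 10) (.e (nat_lit 434231) (nat_lit 23) (.e (nat_lit 532481) (nat_lit 0) (.e (nat_lit 984) (nat_lit 81) (.e (nat_lit 4568) (nat_lit 269) (.e (nat_lit 2424) (nat_lit 157) .nil))))))))) (.g (nat_lit 5) .nil .nil))))) 
(.nd (nat_lit 4) (.nd (nat_lit 5) 
(.lf (nat_lit 2056) (.g (nat_lit 2052) (.e (nat_lit 232) (nat_lit 21) (.e (nat_lit 335915) (nat_lit 0) (.e (nat_lit 1812) (nat_lit 120) (.e (nat_lit 524322) (nat_lit 12) (.e (nat_lit 450587) (nat_lit 10) (.e (nat_lit 573478) (nat_lit 12) (.e (nat_lit 57574) (nat_lit 55) (.e (nat_lit 778360) (nat_lit 9) .nil)))))))) (.g (nat_lit 5) .nil .nil))) 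
(.lf (nat_lit 2088) (.g (nat_lit 3098) (.e (nat_lit 232) (nat_lit 21) (.e (nat_lit 336013) (nat_lit 2) (.e (nat_lit 90170) (nat_lit 13) (.e (nat_lit 172105) (nat_lit 10) (.e (nat_lit 434247) (nat_lit 28) (.e (nat_lit 573477) (nat_lit 12) (.e (nat_lit 57575) (nat_lit 55) (.e (nat_lit 778360) (nat_lit 9) .nil)))))))) (.g (nat_lit 5) .nil .nil)))) (.nd (nat_lit 5) 
(.lf (nat_lit 2072) (.g (nat_lit 3222) (.e (nat_lit 232) (nat_lit 21) (.e (nat_lit 336013) (nat_lit 2) (.e (nat_lit 90157) (nat_lit 11) (.e (nat_lit 24602) (nat_lit 2) .nil)))) .nil)) 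
(.lf (nat_lit 2104) (.g (nat_lit 5081) (.e (nat_lit 232) (nat_lit 21) (.e (nat_lit 336013) (nat_lit 2) (.e (nat_lit 90170) (nat_lit 13) (.e (nat_lit 172106) (nat_lit 10) (.e (nat_lit 434231) (nat_lit 23) (.e (nat_lit 532481) (nat_lit 0) (.e (nat_lit 997) (nat_lit 81) (.e (nat_lit 4624) (nat_lit 269) (.e (nat_lit 2423) (nat_lit 157) .nil))))))))) (.g (nat_lit 6) .nil .nil)))))) 
(.nd (nat_lit 3) (.nd (nat_lit 4) (.nd (nat_lit 5) 
(.lf (nat_lit 2052) (.g (nat_lit 4683) (.e (nat_lit 232) (nat_lit 21) (.e (nat_lit 335907) (nat_lit 0) (.e (nat_lit 6677) (nat_lit 357) (.e (nat_lit 2664) (nat_lit 167) (.e (nat_lit 196666) (nat_lit 13) (.e (nat_lit 65610) (nat_lit 10) (.e (nat_lit 344129) (nat_lit 26) (.e (nat_lit 557066) (nat_lit 9) .nil)))))))) (.g (nat_lit 7) .nil .nil))) 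
(.lf (nat_lit 2084) (.g (nat_lit 1925) (.e (nat_lit 232) (nat_lit 21) (.e (nat_lit 336013) (nat_lit 2) (.e (nat_lit 90170) (nat_lit 13) (.e (nat_lit 172105) (nat_lit 10) .nil)))) .nil))) (.nd (nat_lit 5) 
(.lf (nat_lit 2068) (.g (nat_lit 2841) (.e (nat_lit 232) (nat_lit 21) (.e (nat_lit 336013) (nat_lit 2) (.e (nat_lit 90134) (nat_lit 9) (.e (nat_lit 3009) (nat_lit 187) (.e (nat_lit 450588) (nat_lit 10) (.e (nat_lit 573475) (nat_lit 12) (.e (nat_lit 57574) (nat_lit 55) (.e (nat_lit 778359) (nat_lit 9) .nil)))))))) (.g (nat_lit 4) .nil .nil))) 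
(.lf (nat_lit 2100) (.g (nat_lit 4171) (.e (nat_lit 232) (nat_lit 21) (.e (nat_lit 336013) (nat_lit 2) (.e (nat_lit 90170) (nat_lit 13) (.e (nat_lit 172106) (nat_lit 10) (.e (nat_lit 434231) (nat_lit 23) (.e (nat_lit 532481) (nat_lit 0) (.e (nat_lit 996) (nat_lit 81) (.e (nat_lit 4621) (nat_lit 269) (.e (nat_lit 2423) (nat_lit 157) .nil))))))))) (.g (nat_lit 5) .nil .nil))))) 
(.nd (nat_lit 4) (.nd (nat_lit 5) 
(.lf (nat_lit 2060) (.g (nat_lit 2862) (.e (nat_lit 232) (nat_lit 21) (.e (nat_lit 336006) (nat_lit 2) (.e (nat_lit 90170) (nat_lit 13) (.e (nat_lit 172113) (nat_lit 10) (.e (nat_lit 434247) (nat_lit 28) (.e (nat_lit 573478) (nat_lit 12) (.e (nat_lit 57574) (nat_lit 55) (.e (nat_lit 778362) (nat_lit 9) .nil)))))))) (.g (nat_lit 4) .nil .nil))) 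
(.lf (nat_lit 2092) (.g (nat_lit 3532) (.e (nat_lit 232) (nat_lit 21) (.e (nat_lit 336013) (nat_lit 2) (.e (nat_lit 90170) (nat_lit 13) (.e (nat_lit 172105) (nat_lit 10) (.e (nat_lit 434248) (nat_lit 28) (.e (nat_lit 573475) (nat_lit 12) (.e (nat_lit 57574) (nat_lit 55) (.e (nat_lit 778360) (nat_lit 9) .nil)))))))) (.g (nat_lit 5) .nil .nil)))) (.nd (nat_lit 5) 
(.lf (nat_lit 2076) (.g (nat_lit 3341) (.e (nat_lit 232) (nat_lit 21) (.e (nat_lit 336013) (nat_lit 2) (.e (nat_lit 90158) (nat_lit 11) (.e (nat_lit 24607) (nat_lit 3) .nil)))) .nil)) 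
(.lf (nat_lit 2108) (.g (nat_lit 3627) (.e (nat_lit 232) (nat_lit 21) (.e (nat_lit 336013) (nat_lit 2) (.e (nat_lit 90170) (nat_lit 13) (.e (nat_lit 172106) (nat_lit 10) (.e (nat_lit 434231) (nat_lit 23) (.e (nat_lit 532483) (nat_lit 0) (.e (nat_lit 982) (nat_lit 81) (.e (nat_lit 4566) (nat_lit 269) (.e (nat_lit 2424) (nat_lit 157) .nil))))))))) (.g (nat_lit 5) .nil .nil))))))) 
(.nd (nat_lit 2) (.nd (nat_lit 3) (.nd (nat_lit 4) (.nd (nat_lit 5) 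
(.lf (nat_lit 2050) (.g (nat_lit 4191) (.e (nat_lit 232) (nat_lit 21) (.e (nat_lit 335907) (nat_lit 0) (.e (nat_lit 6676) (nat_lit 357) (.e (nat_lit 2664) (nat_lit 167) (.e (nat_lit 196666) (nat_lit 13) (.e (nat_lit 65610) (nat_lit 10) (.e (nat_lit 344129) (nat_lit 26) (.e (nat_lit 557066) (nat_lit 9) .nil)))))))) (.g (nat_lit 7) .nil .nil))) 
(.lf (nat_lit 2082) (.g (nat_lit 1211) (.e (nat_lit 232) (nat_lit 21) (.e (nat_lit 336013) (nat_lit 2) (.e (nat_lit 90166) (nat_lit 13) .nil))) .nil))) (.nd (nat_lit 5) 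
(.lf (nat_lit 2066) (.g (nat_lit 3533) (.e (nat_lit 232) (nat_lit 21) (.e (nat_lit 336013) (nat_lit 2) (.e (nat_lit 90134) (nat_lit 9) (.e (nat_lit 290) (nat_lit 21) (.e (nat_lit 336021) (nat_lit 3) (.e (nat_lit 98317) (nat_lit 9) (.e (nat_lit 336012) (nat_lit 2) (.e (nat_lit 90123) (nat_lit 9) .nil)))))))) (.g (nat_lit 5) .nil .nil))) 
(.lf (nat_lit 2098) (.g (nat_lit 4986) (.e (nat_lit 232) (nat_lit 21) (.e (nat_lit 336013) (nat_lit 2) (.e (nat_lit 90170) (nat_lit 13) (.e (nat_lit 172106) (nat_lit 10) (.e (nat_lit 434231) (nat_lit 23) (.e (nat_lit 532481) (nat_lit 0) (.e (nat_lit 984) (nat_lit 81) (.e (nat_lit 4624) (nat_lit 269) (.e (nat_lit 2423) (nat_lit 157) .nil))))))))) (.g (nat_lit 6) .nil .nil))))) 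
(.nd (nat_lit 4) (.nd (nat_lit 5) 
(.lf (nat_lit 2058) (.g (nat_lit 3117) (.e (nat_lit 232) (nat_lit 21) (.e (nat_lit 336005) (nat_lit 2) (.e (nat_lit 90170) (nat_lit 13) (.e (nat_lit 172113) (nat_lit 10) (.e (nat_lit 434245) (nat_lit 28) (.e (nat_lit 573474) (nat_lit 12) (.e (nat_lit 57574) (nat_lit 55) (.e (nat_lit 778362) (nat_lit 9) .nil)))))))) (.g (nat_lit 4) .nil .nil))) 
(.lf (nat_lit 2090) (.g (nat_lit 3268) (.e (nat_lit 232) (nat_lit 21) (.e (nat_lit 336013) (nat_lit 2) (.e (nat_lit 90170) (nat_lit 13) (.e (nat_lit 172105) (nat_lit 10) (.e (nat_lit 434247) (nat_lit 28) (.e (nat_lit 573478) (nat_lit 12) (.e (nat_lit 57574) (nat_lit 55) (.e (nat_lit 778360) (nat_lit 9) .nil)))))))) (.g (nat_lit 5) .nil .nil)))) (.nd (nat_lit 5) 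
(.lf (nat_lit 2074) (.g (nat_lit 3362) (.e (nat_lit 232) (nat_lit 21) (.e (nat_lit 336013) (nat_lit 2) (.e (nat_lit 90157) (nat_lit 11) (.e (nat_lit 24608) (nat_lit 3) .nil)))) .nil)) 
(.lf (nat_lit 2106) (.g (nat_lit 5292) (.e (nat_lit 232) (nat_lit 21) (.e (nat_lit 336013) (nat_lit 2) (.e (nat_lit 90170) (nat_lit 13) (.e (nat_lit 172106) (nat_lit 10) (.e (nat_lit 434231) (nat_lit 23) (.e (nat_lit 532481) (nat_lit 0) (.e (nat_lit 1917) (nat_lit 130) (.e (nat_lit 614144) (nat_lit 9) .nil)))))))) (.g (nat_lit 6) .nil .nil)))))) (.nd (nat_lit 3) (.nd (nat_lit 4) (.nd (nat_lit 5) 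
(.lf (nat_lit 2054) (.g (nat_lit 3848) (.e (nat_lit 232) (nat_lit 21) (.e (nat_lit 335907) (nat_lit 0) (.e (nat_lit 6679) (nat_lit 357) (.e (nat_lit 2664) (nat_lit 167) (.e (nat_lit 196666) (nat_lit 13) (.e (nat_lit 65610) (nat_lit 10) (.e (nat_lit 344129) (nat_lit 26) (.e (nat_lit 557066) (nat_lit 9) .nil)))))))) (.g (nat_lit 7) .nil .nil))) 
(.lf (nat_lit 2086) (.g (nat_lit 3881) (.e (nat_lit 232) (nat_lit 21) (.e (nat_lit 336013) (nat_lit 2) (.e (nat_lit 90170) (nat_lit 13) (.e (nat_lit 172105) (nat_lit 10) (.e (nat_lit 434247) (nat_lit 28) (.e (nat_lit 573477) (nat_lit 12) (.e (nat_lit 57574) (nat_lit 55) (.e (nat_lit 778360) (nat_lit 9) .nil)))))))) (.g (nat_lit 7) .nil .nil)))) (.nd (nat_lit 5) 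
(.lf (nat_lit 2070) (.g (nat_lit 1386) (.e (nat_lit 232) (nat_lit 21) (.e (nat_lit 336013) (nat_lit 2) (.e (nat_lit 90156) (nat_lit 11) .nil))) .nil)) 
(.lf (nat_lit 2102) (.g (nat_lit 3779) (.e (nat_lit 232) (nat_lit 21) (.e (nat_lit 336013) (nat_lit 2) (.e (nat_lit 90170) (nat_lit 13) (.e (nat_lit 172106) (nat_lit 10) (.e (nat_lit 434231) (nat_lit 23) (.e (nat_lit 532481) (nat_lit 0) (.e (nat_lit 997) (nat_lit 81) (.e (nat_lit 4568) (nat_lit 269) (.e (nat_lit 2424) (nat_lit 157) .nil))))))))) (.g (nat_lit 5) .nil .nil))))) 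
(.nd (nat_lit 4) (.nd (nat_lit 5) 
(.lf (nat_lit 2062) (.g (nat_lit 1704) (.e (nat_lit 232) (nat_lit 21) (.e (nat_lit 336013) (nat_lit 2) (.e (nat_lit 90134) (nat_lit 9) (.e (nat_lit 290) (nat_lit 21) .nil)))) .nil)) 
(.lf (nat_lit 2094) (.g (nat_lit 1044) (.e (nat_lit 232) (nat_lit 21) (.e (nat_lit 336013) (nat_lit 2) (.e (nat_lit 90170) (nat_lit 13) (.e (nat_lit 172106) (nat_lit 10) .nil)))) .nil))) (.nd (nat_lit 5) 
(.lf (nat_lit 2078) (.g (nat_lit 3877) (.e (nat_lit 232) (nat_lit 21) (.e (nat_lit 336013) (nat_lit 2) (.e (nat_lit 90160) (nat_lit 11) (.e (nat_lit 24602) (nat_lit 2) .nil)))) .nil)) 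
(.lf (nat_lit 2110) (.g (nat_lit 4011) (.e (nat_lit 232) (nat_lit 21) (.e (nat_lit 336013) (nat_lit 2) (.e (nat_lit 90170) (nat_lit 13) (.e (nat_lit 172106) (nat_lit 10) (.e (nat_lit 434231) (nat_lit 23) (.e (nat_lit 532483) (nat_lit 0) (.e (nat_lit 982) (nat_lit 81) (.e (nat_lit 4621) (nat_lit 269) (.e (nat_lit 2423) (nat_lit 157) .nil))))))))) (.g (nat_lit 5) .nil .nil)))))))) 
(.nd (nat_lit 1) (.nd (nat_lit 2) (.nd (nat_lit 3) (.nd (nat_lit 4) (.nd (nat_lit 5) 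
(.lf (nat_lit 2049) (.g (nat_lit 3141) (.e (nat_lit 232) (nat_lit 21) (.e (nat_lit 335907) (nat_lit 0) (.e (nat_lit 6151) (nat_lit 332) (.e (nat_lit 1141) (nat_lit 84) (.e (nat_lit 32787) (nat_lit 9) (.e (nat_lit 65610) (nat_lit 10) (.e (nat_lit 344129) (nat_lit 26) (.e (nat_lit 557066) (nat_lit 9) .nil)))))))) (.g (nat_lit 7) .nil .nil))) 
(.lf (nat_lit 2081) (.g (nat_lit 4040) (.e (nat_lit 232) (nat_lit 21) (.e (nat_lit 336013) (nat_lit 2) (.e (nat_lit 90160) (nat_lit 11) (.e (nat_lit 24608) (nat_lit 3) .nil)))) .nil))) (.nd (nat_lit 5) 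
(.lf (nat_lit 2065) (.g (nat_lit 4102) (.e (nat_lit 232) (nat_lit 21) (.e (nat_lit 336013) (nat_lit 2) (.e (nat_lit 90134) (nat_lit 9) (.e (nat_lit 290) (nat_lit 21) (.e (nat_lit 336021) (nat_lit 3) (.e (nat_lit 98313) (nat_lit 9) (.e (nat_lit 336012) (nat_lit 2) (.e (nat_lit 90123) (nat_lit 9) .nil)))))))) (.g (nat_lit 6) .nil .nil))) 
(.lf (nat_lit 2097) (.g (nat_lit 4787) (.e (nat_lit 232) (nat_lit 21) (.e (nat_lit 336013) (nat_lit 2) (.e (nat_lit 90170) (nat_lit 13) (.e (nat_lit 172106) (nat_lit 10) (.e (nat_lit 434231) (nat_lit 23) (.e (nat_lit 532481) (nat_lit 0) (.e (nat_lit 984) (nat_lit 81) (.e (nat_lit 4569) (nat_lit 269) (.e (nat_lit 2424) (nat_lit 157) .nil))))))))) (.g (nat_lit 6) .nil .nil))))) 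
(.nd (nat_lit 4) (.nd (nat_lit 5) 
(.lf (nat_lit 2057) (.g (nat_lit 3899) (.e (nat_lit 232) (nat_lit 21) (.e (nat_lit 336001) (nat_lit 2) (.e (nat_lit 90170) (nat_lit 13) (.e (nat_lit 172113) (nat_lit 10) (.e (nat_lit 434247) (nat_lit 28) (.e (nat_lit 573477) (nat_lit 12) (.e (nat_lit 57574) (nat_lit 55) (.e (nat_lit 778362) (nat_lit 9) .nil)))))))) (.g (nat_lit 5) .nil .nil))) 
(.lf (nat_lit 2089) (.g (nat_lit 3374) (.e (nat_lit 232) (nat_lit 21) (.e (nat_lit 336013) (nat_lit 2) (.e (nat_lit 90170) (nat_lit 13) (.e (nat_lit 172105) (nat_lit 10) (.e (nat_lit 434247) (nat_lit 28) (.e (nat_lit 573478) (nat_lit 12) (.e (nat_lit 57574) (nat_lit 55) (.e (nat_lit 778359) (nat_lit 9) .nil)))))))) (.g (nat_lit 5) .nil .nil)))) (.nd (nat_lit 5) 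
(.lf (nat_lit 2073) (.g (nat_lit 3261) (.e (nat_lit 232) (nat_lit 21) (.e (nat_lit 336013) (nat_lit 2) (.e (nat_lit 90157) (nat_lit 11) (.e (nat_lit 24607) (nat_lit 3) .nil)))) .nil)) 
(.lf (nat_lit 2105) (.g (nat_lit 4715) (.e (nat_lit 232) (nat_lit 21) (.e (nat_lit 336013) (nat_lit 2) (.e (nat_lit 90170) (nat_lit 13) (.e (nat_lit 172106) (nat_lit 10) (.e (nat_lit 434231) (nat_lit 23) (.e (nat_lit 532481) (nat_lit 0) (.e (nat_lit 1917) (nat_lit 130) (.e (nat_lit 606231) (nat_lit 9) .nil)))))))) (.g (nat_lit 6) .nil .nil)))))) (.nd (nat_lit 3) (.nd (nat_lit 4) (.nd (nat_lit 5) 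
(.lf (nat_lit 2053) (.g (nat_lit 4408) (.e (nat_lit 232) (nat_lit 21) (.e (nat_lit 335907) (nat_lit 0) (.e (nat_lit 6679) (nat_lit 357) (.e (nat_lit 2663) (nat_lit 167) (.e (nat_lit 196666) (nat_lit 13) (.e (nat_lit 65610) (nat_lit 10) (.e (nat_lit 344129) (nat_lit 26) (.e (nat_lit 557066) (nat_lit 9) .nil)))))))) (.g (nat_lit 6) .nil .nil))) 
(.lf (nat_lit 2085) (.g (nat_lit 4002) (.e (nat_lit 232) (nat_lit 21) (.e (nat_lit 336013) (nat_lit 2) (.e (nat_lit 90170) (nat_lit 13) (.e (nat_lit 172105) (nat_lit 10) (.e (nat_lit 434247) (nat_lit 28) (.e (nat_lit 573477) (nat_lit 12) (.e (nat_lit 57574) (nat_lit 55) (.e (nat_lit 778359) (nat_lit 9) .nil)))))))) (.g (nat_lit 7) .nil .nil)))) (.nd (nat_lit 5) 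
(.lf (nat_lit 2069) (.g (nat_lit 1063) (.e (nat_lit 232) (nat_lit 21) (.e (nat_lit 336013) (nat_lit 2) (.e (nat_lit 90141) (nat_lit 9) .nil))) .nil)) 
(.lf (nat_lit 2101) (.g (nat_lit 3891) (.e (nat_lit 232) (nat_lit 21) (.e (nat_lit 336013) (nat_lit 2) (.e (nat_lit 90170) (nat_lit 13) (.e (nat_lit 172106) (nat_lit 10) (.e (nat_lit 434231) (nat_lit 23) (.e (nat_lit 532481) (nat_lit 0) (.e (nat_lit 997) (nat_lit 81) (.e (nat_lit 4566) (nat_lit 269) (.e (nat_lit 2424) (nat_lit 157) .nil))))))))) (.g (nat_lit 5) .nil .nil))))) 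
(.nd (nat_lit 4) (.nd (nat_lit 5) 
(.lf (nat_lit 2061) (.g (nat_lit 2167) (.e (nat_lit 232) (nat_lit 21) (.e (nat_lit 336013) (nat_lit 2) (.e (nat_lit 90134) (nat_lit 9) (.e (nat_lit 249) (nat_lit 21) .nil)))) .nil)) 
(.lf (nat_lit 2093) (.g (nat_lit 4131) (.e (nat_lit 232) (nat_lit 21) (.e (nat_lit 336013) (nat_lit 2) (.e (nat_lit 90170) (nat_lit 13) (.e (nat_lit 172105) (nat_lit 10) (.e (nat_lit 434248) (nat_lit 28) (.e (nat_lit 573475) (nat_lit 12) (.e (nat_lit 57574) (nat_lit 55) (.e (nat_lit 778361) (nat_lit 9) .nil)))))))) (.g (nat_lit 6) .nil .nil)))) (.nd (nat_lit 5) 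
(.lf (nat_lit 2077) (.g (nat_lit 3323) (.e (nat_lit 232) (nat_lit 21) (.e (nat_lit 336013) (nat_lit 2) (.e (nat_lit 90159) (nat_lit 11) (.e (nat_lit 24607) (nat_lit 3) .nil)))) .nil)) 
(.lf (nat_lit 2109) (.g (nat_lit 3616) (.e (nat_lit 232) (nat_lit 21) (.e (nat_lit 336013) (nat_lit 2) (.e (nat_lit 90170) (nat_lit 13) (.e (nat_lit 172106) (nat_lit 10) (.e (nat_lit 434231) (nat_lit 23) (.e (nat_lit 532483) (nat_lit 0) (.e (nat_lit 982) (nat_lit 81) (.e (nat_lit 4569) (nat_lit 269) (.e (nat_lit 2424) (nat_lit 157) .nil))))))))) (.g (nat_lit 5) .nil .nil))))))) 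
(.nd (nat_lit 2) (.nd (nat_lit 3) (.nd (nat_lit 4) (.nd (nat_lit 5) 
(.lf (nat_lit 2051) (.g (nat_lit 4245) (.e (nat_lit 232) (nat_lit 21) (.e (nat_lit 335907) (nat_lit 0) (.e (nat_lit 6677) (nat_lit 357) (.e (nat_lit 2663) (nat_lit 167) (.e (nat_lit 196666) (nat_lit 13) (.e (nat_lit 65610) (nat_lit 10) (.e (nat_lit 344129) (nat_lit 26) (.e (nat_lit 557066) (nat_lit 9) .nil)))))))) (.g (nat_lit 6) .nil .nil))) 
(.lf (nat_lit 2083) (.g (nat_lit 3531) (.e (nat_lit 232) (nat_lit 21) (.e (nat_lit 336013) (nat_lit 2) (.e (nat_lit 90170) (nat_lit 13) (.e (nat_lit 172095) (nat_lit 9) .nil)))) .nil))) (.nd (nat_lit 5) 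
(.lf (nat_lit 2067) (.g (nat_lit 2077) (.e (nat_lit 232) (nat_lit 21) (.e (nat_lit 336013) (nat_lit 2) (.e (nat_lit 90134) (nat_lit 9) (.e (nat_lit 3009) (nat_lit 187) .nil)))) .nil)) 
(.lf (nat_lit 2099) (.g (nat_lit 4078) (.e (nat_lit 232) (nat_lit 21) (.e (nat_lit 336013) (nat_lit 2) (.e (nat_lit 90170) (nat_lit 13) (.e (nat_lit 172106) (nat_lit 10) (.e (nat_lit 434231) (nat_lit 23) (.e (nat_lit 532481) (nat_lit 0) (.e (nat_lit 996) (nat_lit 81) (.e (nat_lit 4569) (nat_lit 269) (.e (nat_lit 2424) (nat_lit 157) .nil))))))))) (.g (nat_lit 5) .nil .nil))))) 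
(.nd (nat_lit 4) (.nd (nat_lit 5) 
(.lf (nat_lit 2059) (.g (nat_lit 3072) (.e (nat_lit 232) (nat_lit 21) (.e (nat_lit 336005) (nat_lit 2) (.e (nat_lit 90170) (nat_lit 13) (.e (nat_lit 172113) (nat_lit 10) (.e (nat_lit 434247) (nat_lit 28) (.e (nat_lit 573477) (nat_lit 12) (.e (nat_lit 57574) (nat_lit 55) (.e (nat_lit 778362) (nat_lit 9) .nil)))))))) (.g (nat_lit 4) .nil .nil))) 
(.lf (nat_lit 2091) (.g (nat_lit 3635) (.e (nat_lit 232) (nat_lit 21) (.e (nat_lit 336013) (nat_lit 2) (.e (nat_lit 90170) (nat_lit 13) (.e (nat_lit 172105) (nat_lit 10) (.e (nat_lit 434248) (nat_lit 28) (.e (nat_lit 573475) (nat_lit 12) (.e (nat_lit 57574) (nat_lit 55) (.e (nat_lit 778359) (nat_lit 9) .nil)))))))) (.g (nat_lit 5) .nil .nil)))) (.nd (nat_lit 5) 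
(.lf (nat_lit 2075) (.g (nat_lit 1386) (.e (nat_lit 232) (nat_lit 21) (.e (nat_lit 336013) (nat_lit 2) (.e (nat_lit 90158) (nat_lit 11) .nil))) .nil)) 
(.lf (nat_lit 2107) (.g (nat_lit 3352) (.e (nat_lit 232) (nat_lit 21) (.e (nat_lit 336013) (nat_lit 2) (.e (nat_lit 90170) (nat_lit 13) (.e (nat_lit 172106) (nat_lit 10) (.e (nat_lit 434231) (nat_lit 23) (.e (nat_lit 532482) (nat_lit 0) (.e (nat_lit 971) (nat_lit 81) (.e (nat_lit 4620) (nat_lit 269) (.e (nat_lit 2423) (nat_lit 157) .nil))))))))) (.g (nat_lit 5) .nil .nil)))))) 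
(.nd (nat_lit 3) (.nd (nat_lit 4) (.nd (nat_lit 5) 
(.lf (nat_lit 2055) (.g (nat_lit 2165) (.e (nat_lit 232) (nat_lit 21) (.e (nat_lit 335915) (nat_lit 0) (.e (nat_lit 1812) (nat_lit 120) (.e (nat_lit 524322) (nat_lit 12) (.e (nat_lit 450587) (nat_lit 10) (.e (nat_lit 573478) (nat_lit 12) (.e (nat_lit 57574) (nat_lit 55) (.e (nat_lit 778359) (nat_lit 9) .nil)))))))) (.g (nat_lit 5) .nil .nil))) 
(.lf (nat_lit 2087) (.g (nat_lit 4210) (.e (nat_lit 232) (nat_lit 21) (.e (nat_lit 336013) (nat_lit 2) (.e (nat_lit 90170) (nat_lit 13) (.e (nat_lit 172105) (nat_lit 10) (.e (nat_lit 434247) (nat_lit 28) (.e (nat_lit 573477) (nat_lit 12) (.e (nat_lit 57575) (nat_lit 55) (.e (nat_lit 778359) (nat_lit 9) .nil)))))))) (.g (nat_lit 7) .nil .nil)))) (.nd (nat_lit 5) 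
(.lf (nat_lit 2071) (.g (nat_lit 1377) (.e (nat_lit 232) (nat_lit 21) (.e (nat_lit 336013) (nat_lit 2) (.e (nat_lit 90157) (nat_lit 11) .nil))) .nil)) 
(.lf (nat_lit 2103) (.g (nat_lit 4949) (.e (nat_lit 232) (nat_lit 21) (.e (nat_lit 336013) (nat_lit 2) (.e (nat_lit 90170) (nat_lit 13) (.e (nat_lit 172106) (nat_lit 10) (.e (nat_lit 434231) (nat_lit 23) (.e (nat_lit 532481) (nat_lit 0) (.e (nat_lit 997) (nat_lit 81) (.e (nat_lit 4621) (nat_lit 269) (.e (nat_lit 2423) (nat_lit 157) .nil))))))))) (.g (nat_lit 6) .nil .nil))))) 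
(.nd (nat_lit 4) (.nd (nat_lit 5) 
(.lf (nat_lit 2063) (.g (nat_lit 2891) (.e (nat_lit 232) (nat_lit 21) (.e (nat_lit 336013) (nat_lit 2) (.e (nat_lit 90134) (nat_lit 9) (.e (nat_lit 290) (nat_lit 21) (.e (nat_lit 336002) (nat_lit 2) (.e (nat_lit 90158) (nat_lit 11) (.e (nat_lit 24604) (nat_lit 2) (.e (nat_lit 90123) (nat_lit 9) .nil)))))))) (.g (nat_lit 4) .nil .nil))) 
(.lf (nat_lit 2095) (.g (nat_lit 3774) (.e (nat_lit 232) (nat_lit 21) (.e (nat_lit 336013) (nat_lit 2) (.e (nat_lit 90170) (nat_lit 13) (.e (nat_lit 172106) (nat_lit 10) (.e (nat_lit 434231) (nat_lit 23) (.e (nat_lit 532481) (nat_lit 0) (.e (nat_lit 984) (nat_lit 81) (.e (nat_lit 4566) (nat_lit 269) (.e (nat_lit 2424) (nat_lit 157) .nil))))))))) (.g (nat_lit 5) .nil .nil)))) (.nd (nat_lit 5) 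
(.lf (nat_lit 2079) (.g (nat_lit 3862) (.e (nat_lit 232) (nat_lit 21) (.e (nat_lit 336013) (nat_lit 2) (.e (nat_lit 90160) (nat_lit 11) (.e (nat_lit 24604) (nat_lit 2) .nil)))) .nil)) 
(.lf (nat_lit 2111) (.g (nat_lit 2441) (.e (nat_lit 232) (nat_lit 21) (.e (nat_lit 336013) (nat_lit 2) (.e (nat_lit 90170) (nat_lit 13) (.e (nat_lit 172106) (nat_lit 10) (.e (nat_lit 434231) (nat_lit 23) (.e (nat_lit 532483) (nat_lit 0) (.e (nat_lit 997) (nat_lit 81) (.e (nat_lit 4569) (nat_lit 269) (.e (nat_lit 2424) (nat_lit 157) .nil))))))))) (.g (nat_lit 4) .nil .nil)))))))))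

noncomputable def tv028 : DT := (.nd (nat_lit 0) (.nd (nat_lit 1) (.nd (nat_lit 2) (.nd (nat_lit 3) (.nd (nat_lit 4) (.nd (nat_lit 5) 
(.lf (nat_lit 2112) (.g (nat_lit 2474) (.e (nat_lit 232) (nat_lit 21) (.e (nat_lit 336013) (nat_lit 2) (.e (nat_lit 90170) (nat_lit 13) (.e (nat_lit 172106) (nat_lit 10) (.e (nat_lit 434231) (nat_lit 23) (.e (nat_lit 532483) (nat_lit 0) (.e (nat_lit 1036) (nat_lit 81) (.e (nat_lit 4614) (nat_lit 269) (.e (nat_lit 2416) (nat_lit 157) .nil))))))))) (.g (nat_lit 4) .nil .nil))) 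
(.lf (nat_lit 2144) (.g (nat_lit 4341) (.e (nat_lit 232) (nat_lit 21) (.e (nat_lit 336013) (nat_lit 2) (.e (nat_lit 90170) (nat_lit 13) (.e (nat_lit 172106) (nat_lit 10) (.e (nat_lit 434243) (nat_lit 28) (.e (nat_lit 573477) (nat_lit 12) (.e (nat_lit 57574) (nat_lit 55) (.e (nat_lit 778360) (nat_lit 9) .nil)))))))) (.g (nat_lit 6) .nil .nil)))) (.nd (nat_lit 5) 
(.lf (nat_lit 2128) (.g (nat_lit 4654) (.e (nat_lit 232) (nat_lit 21) (.e (nat_lit 336013) (nat_lit 2) (.e (nat_lit 90170) (nat_lit 13) (.e (nat_lit 172106) (nat_lit 10) (.e (nat_lit 434242) (nat_lit 28) (.e (nat_lit 573477) (nat_lit 12) (.e (nat_lit 57574) (nat_lit 55) (.e (nat_lit 778360) (nat_lit 9) .nil)))))))) (.g (nat_lit 6) .nil .nil))) 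
(.lf (nat_lit 2160) (.g (nat_lit 2481) (.e (nat_lit 232) (nat_lit 21) (.e (nat_lit 336013) (nat_lit 2) (.e (nat_lit 90170) (nat_lit 13) (.e (nat_lit 172106) (nat_lit 10) (.e (nat_lit 434244) (nat_lit 28) (.e (nat_lit 573451) (nat_lit 9) (.e (nat_lit 1002) (nat_lit 81) (.e (nat_lit 2345) (nat_lit 151) (.e (nat_lit 778360) (nat_lit 9) .nil))))))))) (.g (nat_lit 5) .nil .nil))))) 
(.nd (nat_lit 4) (.nd (nat_lit 5) 
(.lf (nat_lit 2120) (.g (nat_lit 2602) (.e (nat_lit 232) (nat_lit 21) (.e (nat_lit 336013) (nat_lit 2) (.e (nat_lit 90170) (nat_lit 13) (.e (nat_lit 172106) (nat_lit 10) (.e (nat_lit 434241) (nat_lit 27) .nil))))) .nil)) 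
(.lf (nat_lit 2152) (.g (nat_lit 2892) (.e (nat_lit 232) (nat_lit 21) (.e (nat_lit 336013) (nat_lit 2) (.e (nat_lit 90170) (nat_lit 13) (.e (nat_lit 172106) (nat_lit 10) (.e (nat_lit 434244) (nat_lit 28) (.e (nat_lit 573449) (nat_lit 9) (.e (nat_lit 1312) (nat_lit 98) (.e (nat_lit 147463) (nat_lit 9) .nil)))))))) (.g (nat_lit 5) .nil .nil)))) (.nd (nat_lit 5) 
(.lf (nat_lit 2136) (.g (nat_lit 3101) (.e (nat_lit 232) (nat_lit 21) (.e (nat_lit 336013) (nat_lit 2) (.e (nat_lit 90170) (nat_lit 13) (.e (nat_lit 172106) (nat_lit 10) (.e (nat_lit 434243) (nat_lit 28) (.e (nat_lit 573474) (nat_lit 12) (.e (nat_lit 57574) (nat_lit 55) (.e (nat_lit 778359) (nat_lit 9) .nil)))))))) (.g (nat_lit 4) .nil .nil))) 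
(.lf (nat_lit 2168) (.g (nat_lit 3649) (.e (nat_lit 232) (nat_lit 21) (.e (nat_lit 336013) (nat_lit 2) (.e (nat_lit 90170) (nat_lit 13) (.e (nat_lit 172106) (nat_lit 10) (.e (nat_lit 434244) (nat_lit 28) (.e (nat_lit 573451) (nat_lit 9) (.e (nat_lit 1310) (nat_lit 98) (.e (nat_lit 147467) (nat_lit 9) .nil)))))))) (.g (nat_lit 6) .nil .nil)))))) (.nd (nat_lit 3) (.nd (nat_lit 4) (.nd (nat_lit 5) 
(.lf (nat_lit 2116) (.g (nat_lit 3974) (.e (nat_lit 232) (nat_lit 21) (.e (nat_lit 336013) (nat_lit 2) (.e (nat_lit 90170) (nat_lit 13) (.e (nat_lit 172106) (nat_lit 10) (.e (nat_lit 434231) (nat_lit 23) (.e (nat_lit 532499) (nat_lit 1) (.e (nat_lit 65280) (nat_lit 233) (.e (nat_lit 2397) (nat_lit 157) .nil)))))))) (.g (nat_lit 5) .nil .nil))) 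
(.lf (nat_lit 2148) (.g (nat_lit 3548) (.e (nat_lit 232) (nat_lit 21) (.e (nat_lit 336013) (nat_lit 2) (.e (nat_lit 90170) (nat_lit 13) (.e (nat_lit 172106) (nat_lit 10) (.e (nat_lit 434243) (nat_lit 28) (.e (nat_lit 573478) (nat_lit 12) (.e (nat_lit 57574) (nat_lit 55) (.e (nat_lit 778359) (nat_lit 9) .nil)))))))) (.g (nat_lit 4) .nil .nil)))) (.nd (nat_lit 5) 
(.lf (nat_lit 2132) (.g (nat_lit 3920) (.e (nat_lit 232) (nat_lit 21) (.e (nat_lit 336013) (nat_lit 2) (.e (nat_lit 90170) (nat_lit 13) (.e (nat_lit 172106) (nat_lit 10) (.e (nat_lit 434242) (nat_lit 28) (.e (nat_lit 573478) (nat_lit 12) (.e (nat_lit 57574) (nat_lit 55) (.e (nat_lit 778359) (nat_lit 9) .nil)))))))) (.g (nat_lit 5) .nil .nil))) 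
(.lf (nat_lit 2164) (.g (nat_lit 2332) (.e (nat_lit 232) (nat_lit 21) (.e (nat_lit 336013) (nat_lit 2) (.e (nat_lit 90170) (nat_lit 13) (.e (nat_lit 172106) (nat_lit 10) (.e (nat_lit 434244) (nat_lit 28) (.e (nat_lit 573451) (nat_lit 9) (.e (nat_lit 1007) (nat_lit 81) (.e (nat_lit 2350) (nat_lit 151) (.e (nat_lit 778360) (nat_lit 9) .nil))))))))) (.g (nat_lit 5) .nil .nil))))) 
(.nd (nat_lit 4) (.nd (nat_lit 5) 
(.lf (nat_lit 2124) (.g (nat_lit 6579) (.e (nat_lit 232) (nat_lit 21) (.e (nat_lit 336013) (nat_lit 2) (.e (nat_lit 90170) (nat_lit 13) (.e (nat_lit 172106) (nat_lit 10) (.e (nat_lit 434242) (nat_lit 28) (.e (nat_lit 573474) (nat_lit 12) (.e (nat_lit 57574) (nat_lit 55) (.e (nat_lit 778361) (nat_lit 9) .nil)))))))) (.g (nat_lit 7) .nil .nil))) 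
(.lf (nat_lit 2156) (.g (nat_lit 3278) (.e (nat_lit 232) (nat_lit 21) (.e (nat_lit 336013) (nat_lit 2) (.e (nat_lit 90170) (nat_lit 13) (.e (nat_lit 172106) (nat_lit 10) (.e (nat_lit 434244) (nat_lit 28) (.e (nat_lit 573449) (nat_lit 9) (.e (nat_lit 1312) (nat_lit 98) (.e (nat_lit 147467) (nat_lit 9) .nil)))))))) (.g (nat_lit 6) .nil .nil)))) (.nd (nat_lit 5) 
(.lf (nat_lit 2140) (.g (nat_lit 4617) (.e (nat_lit 232) (nat_lit 21) (.e (nat_lit 336013) (nat_lit 2) (.e (nat_lit 90170) (nat_lit 13) (.e (nat_lit 172106) (nat_lit 10) (.e (nat_lit 434243) (nat_lit 28) (.e (nat_lit 573475) (nat_lit 12) (.e (nat_lit 57574) (nat_lit 55) (.e (nat_lit 778360) (nat_lit 9) .nil)))))))) (.g (nat_lit 6) .nil .nil))) 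
(.lf (nat_lit 2172) (.g (nat_lit 2895) (.e (nat_lit 232) (nat_lit 21) (.e (nat_lit 336013) (nat_lit 2) (.e (nat_lit 90170) (nat_lit 13) (.e (nat_lit 172106) (nat_lit 10) (.e (nat_lit 434244) (nat_lit 28) (.e (nat_lit 573451) (nat_lit 9) (.e (nat_lit 7936) (nat_lit 98) (.e (nat_lit 147467) (nat_lit 9) .nil)))))))) (.g (nat_lit 6) .nil .nil))))))) 
(.nd (nat_lit 2) (.nd (nat_lit 3) (.nd (nat_lit 4) (.nd (nat_lit 5) 
(.lf (nat_lit 2114) (.g (nat_lit 2132) (.e (nat_lit 232) (nat_lit 21) (.e (nat_lit 336013) (nat_lit 2) (.e (nat_lit 90170) (nat_lit 13) (.e (nat_lit 172106) (nat_lit 10) (.e (nat_lit 434231) (nat_lit 23) (.e (nat_lit 532490) (nat_lit 0) (.e (nat_lit 1040) (nat_lit 81) (.e (nat_lit 4614) (nat_lit 269) (.e (nat_lit 2416) (nat_lit 157) .nil))))))))) (.g (nat_lit 4) .nil .nil))) 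
(.lf (nat_lit 2146) (.g (nat_lit 4719) (.e (nat_lit 232) (nat_lit 21) (.e (nat_lit 336013) (nat_lit 2) (.e (nat_lit 90170) (nat_lit 13) (.e (nat_lit 172106) (nat_lit 10) (.e (nat_lit 434243) (nat_lit 28) (.e (nat_lit 573477) (nat_lit 12) (.e (nat_lit 57575) (nat_lit 55) (.e (nat_lit 778359) (nat_lit 9) .nil)))))))) (.g (nat_lit 7) .nil .nil)))) (.nd (nat_lit 5) 
(.lf (nat_lit 2130) (.g (nat_lit 5032) (.e (nat_lit 232) (nat_lit 21) (.e (nat_lit 336013) (nat_lit 2) (.e (nat_lit 90170) (nat_lit 13) (.e (nat_lit 172106) (nat_lit 10) (.e (nat_lit 434242) (nat_lit 28) (.e (nat_lit 573477) (nat_lit 12) (.e (nat_lit 57575) (nat_lit 55) (.e (nat_lit 778359) (nat_lit 9) .nil)))))))) (.g (nat_lit 7) .nil .nil))) 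
(.lf (nat_lit 2162) (.g (nat_lit 2348) (.e (nat_lit 232) (nat_lit 21) (.e (nat_lit 336013) (nat_lit 2) (.e (nat_lit 90170) (nat_lit 13) (.e (nat_lit 172106) (nat_lit 10) (.e (nat_lit 434244) (nat_lit 28) (.e (nat_lit 573451) (nat_lit 9) (.e (nat_lit 1004) (nat_lit 81) (.e (nat_lit 2345) (nat_lit 151) (.e (nat_lit 778360) (nat_lit 9) .nil))))))))) (.g (nat_lit 5) .nil .nil))))) 
(.nd (nat_lit 4) (.nd (nat_lit 5) 
(.lf (nat_lit 2122) (.g (nat_lit 6125) (.e (nat_lit 232) (nat_lit 21) (.e (nat_lit 336013) (nat_lit 2) (.e (nat_lit 90170) (nat_lit 13) (.e (nat_lit 172106) (nat_lit 10) (.e (nat_lit 434242) (nat_lit 28) (.e (nat_lit 573474) (nat_lit 12) (.e (nat_lit 57574) (nat_lit 55) (.e (nat_lit 778359) (nat_lit 9) .nil)))))))) (.g (nat_lit 7) .nil .nil))) 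
(.lf (nat_lit 2154) (.g (nat_lit 3319) (.e (nat_lit 232) (nat_lit 21) (.e (nat_lit 336013) (nat_lit 2) (.e (nat_lit 90170) (nat_lit 13) (.e (nat_lit 172106) (nat_lit 10) (.e (nat_lit 434244) (nat_lit 28) (.e (nat_lit 573449) (nat_lit 9) (.e (nat_lit 1312) (nat_lit 98) (.e (nat_lit 147465) (nat_lit 9) .nil)))))))) (.g (nat_lit 6) .nil .nil)))) (.nd (nat_lit 5) 
(.lf (nat_lit 2138) (.g (nat_lit 3555) (.e (nat_lit 232) (nat_lit 21) (.e (nat_lit 336013) (nat_lit 2) (.e (nat_lit 90170) (nat_lit 13) (.e (nat_lit 172106) (nat_lit 10) (.e (nat_lit 434243) (nat_lit 28) (.e (nat_lit 573474) (nat_lit 12) (.e (nat_lit 57574) (nat_lit 55) (.e (nat_lit 778361) (nat_lit 9) .nil)))))))) (.g (nat_lit 4) .nil .nil))) 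
(.lf (nat_lit 2170) (.g (nat_lit 2754) (.e (nat_lit 232) (nat_lit 21) (.e (nat_lit 336013) (nat_lit 2) (.e (nat_lit 90170) (nat_lit 13) (.e (nat_lit 172106) (nat_lit 10) (.e (nat_lit 434244) (nat_lit 28) (.e (nat_lit 573451) (nat_lit 9) (.e (nat_lit 7936) (nat_lit 98) (.e (nat_lit 147465) (nat_lit 9) .nil)))))))) (.g (nat_lit 6) .nil .nil)))))) (.nd (nat_lit 3) (.nd (nat_lit 4) (.nd (nat_lit 5) 
(.lf (nat_lit 2118) (.g (nat_lit 4305) (.e (nat_lit 232) (nat_lit 21) (.e (nat_lit 336013) (nat_lit 2) (.e (nat_lit 90170) (nat_lit 13) (.e (nat_lit 172106) (nat_lit 10) (.e (nat_lit 434231) (nat_lit 23) (.e (nat_lit 532500) (nat_lit 1) (.e (nat_lit 65280) (nat_lit 233) (.e (nat_lit 2397) (nat_lit 157) .nil)))))))) (.g (nat_lit 5) .nil .nil))) 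
(.lf (nat_lit 2150) (.g (nat_lit 1368) (.e (nat_lit 232) (nat_lit 21) (.e (nat_lit 336013) (nat_lit 2) (.e (nat_lit 90170) (nat_lit 13) (.e (nat_lit 172106) (nat_lit 10) (.e (nat_lit 434244) (nat_lit 28) .nil))))) .nil))) (.nd (nat_lit 5) 
(.lf (nat_lit 2134) (.g (nat_lit 4394) (.e (nat_lit 232) (nat_lit 21) (.e (nat_lit 336013) (nat_lit 2) (.e (nat_lit 90170) (nat_lit 13) (.e (nat_lit 172106) (nat_lit 10) (.e (nat_lit 434242) (nat_lit 28) (.e (nat_lit 573478) (nat_lit 12) (.e (nat_lit 57574) (nat_lit 55) (.e (nat_lit 778361) (nat_lit 9) .nil)))))))) (.g (nat_lit 6) .nil .nil))) 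
(.lf (nat_lit 2166) (.g (nat_lit 3512) (.e (nat_lit 232) (nat_lit 21) (.e (nat_lit 336013) (nat_lit 2) (.e (nat_lit 90170) (nat_lit 13) (.e (nat_lit 172106) (nat_lit 10) (.e (nat_lit 434244) (nat_lit 28) (.e (nat_lit 573451) (nat_lit 9) (.e (nat_lit 1310) (nat_lit 98) (.e (nat_lit 147465) (nat_lit 9) .nil)))))))) (.g (nat_lit 6) .nil .nil))))) (.nd (nat_lit 4) (.nd (nat_lit 5) 
(.lf (nat_lit 2126) (.g (nat_lit 3028) (.e (nat_lit 232) (nat_lit 21) (.e (nat_lit 336013) (nat_lit 2) (.e (nat_lit 90170) (nat_lit 13) (.e (nat_lit 172106) (nat_lit 10) (.e (nat_lit 434242) (nat_lit 28) (.e (nat_lit 573475) (nat_lit 12) (.e (nat_lit 57574) (nat_lit 55) (.e (nat_lit 778362) (nat_lit 9) .nil)))))))) (.g (nat_lit 4) .nil .nil))) 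
(.lf (nat_lit 2158) (.g (nat_lit 2098) (.e (nat_lit 232) (nat_lit 21) (.e (nat_lit 336013) (nat_lit 2) (.e (nat_lit 90170) (nat_lit 13) (.e (nat_lit 172106) (nat_lit 10) (.e (nat_lit 434244) (nat_lit 28) (.e (nat_lit 573450) (nat_lit 9) (.e (nat_lit 1316) (nat_lit 98) (.e (nat_lit 147467) (nat_lit 9) .nil)))))))) (.g (nat_lit 4) .nil .nil)))) (.nd (nat_lit 5) 
(.lf (nat_lit 2142) (.g (nat_lit 2924) (.e (nat_lit 232) (nat_lit 21) (.e (nat_lit 336013) (nat_lit 2) (.e (nat_lit 90170) (nat_lit 13) (.e (nat_lit 172106) (nat_lit 10) (.e (nat_lit 434243) (nat_lit 28) (.e (nat_lit 573476) (nat_lit 12) (.e (nat_lit 57574) (nat_lit 55) (.e (nat_lit 778362) (nat_lit 9) .nil)))))))) (.g (nat_lit 4) .nil .nil))) 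
(.lf (nat_lit 2174) (.g (nat_lit 1825) (.e (nat_lit 232) (nat_lit 21) (.e (nat_lit 336013) (nat_lit 2) (.e (nat_lit 90170) (nat_lit 13) (.e (nat_lit 172106) (nat_lit 10) (.e (nat_lit 434244) (nat_lit 28) (.e (nat_lit 573453) (nat_lit 9) (.e (nat_lit 1310) (nat_lit 98) (.e (nat_lit 147467) (nat_lit 9) .nil)))))))) (.g (nat_lit 4) .nil .nil)))))))) 
(.nd (nat_lit 1) (.nd (nat_lit 2) (.nd (nat_lit 3) (.nd (nat_lit 4) (.nd (nat_lit 5) 
(.lf (nat_lit 2113) (.g (nat_lit 2498) (.e (nat_lit 232) (nat_lit 21) (.e (nat_lit 336013) (nat_lit 2) (.e (nat_lit 90170) (nat_lit 13) (.e (nat_lit 172106) (nat_lit 10) (.e (nat_lit 434231) (nat_lit 23) (.e (nat_lit 532485) (nat_lit 0) (.e (nat_lit 1917) (nat_lit 130) (.e (nat_lit 614144) (nat_lit 9) .nil)))))))) (.g (nat_lit 4) .nil .nil))) 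
(.lf (nat_lit 2145) (.g (nat_lit 4891) (.e (nat_lit 232) (nat_lit 21) (.e (nat_lit 336013) (nat_lit 2) (.e (nat_lit 90170) (nat_lit 13) (.e (nat_lit 172106) (nat_lit 10) (.e (nat_lit 434243) (nat_lit 28) (.e (nat_lit 573477) (nat_lit 12) (.e (nat_lit 57574) (nat_lit 55) (.e (nat_lit 778361) (nat_lit 9) .nil)))))))) (.g (nat_lit 7) .nil .nil)))) (.nd (nat_lit 5) 
(.lf (nat_lit 2129) (.g (nat_lit 5204) (.e (nat_lit 232) (nat_lit 21) (.e (nat_lit 336013) (nat_lit 2) (.e (nat_lit 90170) (nat_lit 13) (.e (nat_lit 172106) (nat_lit 10) (.e (nat_lit 434242) (nat_lit 28) (.e (nat_lit 573477) (nat_lit 12) (.e (nat_lit 57574) (nat_lit 55) (.e (nat_lit 778361) (nat_lit 9) .nil)))))))) (.g (nat_lit 7) .nil .nil))) 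
(.lf (nat_lit 2161) (.g (nat_lit 2348) (.e (nat_lit 232) (nat_lit 21) (.e (nat_lit 336013) (nat_lit 2) (.e (nat_lit 90170) (nat_lit 13) (.e (nat_lit 172106) (nat_lit 10) (.e (nat_lit 434244) (nat_lit 28) (.e (nat_lit 573451) (nat_lit 9) (.e (nat_lit 1004) (nat_lit 81) (.e (nat_lit 2343) (nat_lit 151) (.e (nat_lit 778360) (nat_lit 9) .nil))))))))) (.g (nat_lit 5) .nil .nil))))) 
(.nd (nat_lit 4) (.nd (nat_lit 5) 
(.lf (nat_lit 2121) (.g (nat_lit 2815) (.e (nat_lit 232) (nat_lit 21) (.e (nat_lit 336013) (nat_lit 2) (.e (nat_lit 90170) (nat_lit 13) (.e (nat_lit 172106) (nat_lit 10) (.e (nat_lit 434242) (nat_lit 28) .nil))))) .nil)) 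
(.lf (nat_lit 2153) (.g (nat_lit 2832) (.e (nat_lit 232) (nat_lit 21) (.e (nat_lit 336013) (nat_lit 2) (.e (nat_lit 90170) (nat_lit 13) (.e (nat_lit 172106) (nat_lit 10) (.e (nat_lit 434244) (nat_lit 28) (.e (nat_lit 573449) (nat_lit 9) (.e (nat_lit 1312) (nat_lit 98) (.e (nat_lit 147464) (nat_lit 9) .nil)))))))) (.g (nat_lit 5) .nil .nil)))) (.nd (nat_lit 5) 
(.lf (nat_lit 2137) (.g (nat_lit 2992) (.e (nat_lit 232) (nat_lit 21) (.e (nat_lit 336013) (nat_lit 2) (.e (nat_lit 90170) (nat_lit 13) (.e (nat_lit 172106) (nat_lit 10) (.e (nat_lit 434243) (nat_lit 28) (.e (nat_lit 573474) (nat_lit 12) (.e (nat_lit 57574) (nat_lit 55) (.e (nat_lit 778360) (nat_lit 9) .nil)))))))) (.g (nat_lit 4) .nil .nil))) 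
(.lf (nat_lit 2169) (.g (nat_lit 3439) (.e (nat_lit 232) (nat_lit 21) (.e (nat_lit 336013) (nat_lit 2) (.e (nat_lit 90170) (nat_lit 13) (.e (nat_lit 172106) (nat_lit 10) (.e (nat_lit 434244) (nat_lit 28) (.e (nat_lit 573451) (nat_lit 9) (.e (nat_lit 1314) (nat_lit 98) (.e (nat_lit 147466) (nat_lit 9) .nil)))))))) (.g (nat_lit 6) .nil .nil)))))) (.nd (nat_lit 3) (.nd (nat_lit 4) (.nd (nat_lit 5) 
(.lf (nat_lit 2117) (.g (nat_lit 4151) (.e (nat_lit 232) (nat_lit 21) (.e (nat_lit 336013) (nat_lit 2) (.e (nat_lit 90170) (nat_lit 13) (.e (nat_lit 172106) (nat_lit 10) (.e (nat_lit 434231) (nat_lit 23) (.e (nat_lit 532500) (nat_lit 1) (.e (nat_lit 57777) (nat_lit 233) (.e (nat_lit 2416) (nat_lit 157) .nil)))))))) (.g (nat_lit 5) .nil .nil))) 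
(.lf (nat_lit 2149) (.g (nat_lit 3439) (.e (nat_lit 232) (nat_lit 21) (.e (nat_lit 336013) (nat_lit 2) (.e (nat_lit 90170) (nat_lit 13) (.e (nat_lit 172106) (nat_lit 10) (.e (nat_lit 434243) (nat_lit 28) (.e (nat_lit 573478) (nat_lit 12) (.e (nat_lit 57574) (nat_lit 55) (.e (nat_lit 778360) (nat_lit 9) .nil)))))))) (.g (nat_lit 4) .nil .nil)))) (.nd (nat_lit 5) 
(.lf (nat_lit 2133) (.g (nat_lit 3811) (.e (nat_lit 232) (nat_lit 21) (.e (nat_lit 336013) (nat_lit 2) (.e (nat_lit 90170) (nat_lit 13) (.e (nat_lit 172106) (nat_lit 10) (.e (nat_lit 434242) (nat_lit 28) (.e (nat_lit 573478) (nat_lit 12) (.e (nat_lit 57574) (nat_lit 55) (.e (nat_lit 778360) (nat_lit 9) .nil)))))))) (.g (nat_lit 5) .nil .nil))) 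
(.lf (nat_lit 2165) (.g (nat_lit 3219) (.e (nat_lit 232) (nat_lit 21) (.e (nat_lit 336013) (nat_lit 2) (.e (nat_lit 90170) (nat_lit 13) (.e (nat_lit 172106) (nat_lit 10) (.e (nat_lit 434244) (nat_lit 28) (.e (nat_lit 573451) (nat_lit 9) (.e (nat_lit 1310) (nat_lit 98) (.e (nat_lit 147464) (nat_lit 9) .nil)))))))) (.g (nat_lit 6) .nil .nil))))) (.nd (nat_lit 4) (.nd (nat_lit 5) 
(.lf (nat_lit 2125) (.g (nat_lit 7093) (.e (nat_lit 232) (nat_lit 21) (.e (nat_lit 336013) (nat_lit 2) (.e (nat_lit 90170) (nat_lit 13) (.e (nat_lit 172106) (nat_lit 10) (.e (nat_lit 434242) (nat_lit 28) (.e (nat_lit 573474) (nat_lit 12) (.e (nat_lit 57574) (nat_lit 55) (.e (nat_lit 778362) (nat_lit 9) .nil)))))))) (.g (nat_lit 8) .nil .nil))) 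
(.lf (nat_lit 2157) (.g (nat_lit 2117) (.e (nat_lit 232) (nat_lit 21) (.e (nat_lit 336013) (nat_lit 2) (.e (nat_lit 90170) (nat_lit 13) (.e (nat_lit 172106) (nat_lit 10) (.e (nat_lit 434244) (nat_lit 28) (.e (nat_lit 573450) (nat_lit 9) (.e (nat_lit 1309) (nat_lit 98) (.e (nat_lit 147467) (nat_lit 9) .nil)))))))) (.g (nat_lit 4) .nil .nil)))) (.nd (nat_lit 5) 
(.lf (nat_lit 2141) (.g (nat_lit 5203) (.e (nat_lit 232) (nat_lit 21) (.e (nat_lit 336013) (nat_lit 2) (.e (nat_lit 90170) (nat_lit 13) (.e (nat_lit 172106) (nat_lit 10) (.e (nat_lit 434243) (nat_lit 28) (.e (nat_lit 573475) (nat_lit 12) (.e (nat_lit 57574) (nat_lit 55) (.e (nat_lit 778361) (nat_lit 9) .nil)))))))) (.g (nat_lit 7) .nil .nil))) 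
(.lf (nat_lit 2173) (.g (nat_lit 1974) (.e (nat_lit 232) (nat_lit 21) (.e (nat_lit 336013) (nat_lit 2) (.e (nat_lit 90170) (nat_lit 13) (.e (nat_lit 172106) (nat_lit 10) (.e (nat_lit 434244) (nat_lit 28) (.e (nat_lit 573453) (nat_lit 9) (.e (nat_lit 1310) (nat_lit 98) (.e (nat_lit 147466) (nat_lit 9) .nil)))))))) (.g (nat_lit 4) .nil .nil))))))) 
(.nd (nat_lit 2) (.nd (nat_lit 3) (.nd (nat_lit 4) (.nd (nat_lit 5) 
(.lf (nat_lit 2115) (.g (nat_lit 2279) (.e (nat_lit 232) (nat_lit 21) (.e (nat_lit 336013) (nat_lit 2) (.e (nat_lit 90170) (nat_lit 13) (.e (nat_lit 172106) (nat_lit 10) (.e (nat_lit 434231) (nat_lit 23) (.e (nat_lit 532490) (nat_lit 0) (.e (nat_lit 7936) (nat_lit 81) (.e (nat_lit 4621) (nat_lit 269) (.e (nat_lit 2423) (nat_lit 157) .nil))))))))) (.g (nat_lit 4) .nil .nil))) 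
(.lf (nat_lit 2147) (.g (nat_lit 3607) (.e (nat_lit 232) (nat_lit 21) (.e (nat_lit 336013) (nat_lit 2) (.e (nat_lit 90170) (nat_lit 13) (.e (nat_lit 172106) (nat_lit 10) (.e (nat_lit 434243) (nat_lit 28) (.e (nat_lit 573477) (nat_lit 12) (.e (nat_lit 57575) (nat_lit 55) (.e (nat_lit 778360) (nat_lit 9) .nil)))))))) (.g (nat_lit 5) .nil .nil)))) (.nd (nat_lit 5) 
(.lf (nat_lit 2131) (.g (nat_lit 3920) (.e (nat_lit 232) (nat_lit 21) (.e (nat_lit 336013) (nat_lit 2) (.e (nat_lit 90170) (nat_lit 13) (.e (nat_lit 172106) (nat_lit 10) (.e (nat_lit 434242) (nat_lit 28) (.e (nat_lit 573477) (nat_lit 12) (.e (nat_lit 57575) (nat_lit 55) (.e (nat_lit 778360) (nat_lit 9) .nil)))))))) (.g (nat_lit 5) .nil .nil))) 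
(.lf (nat_lit 2163) (.g (nat_lit 2023) (.e (nat_lit 232) (nat_lit 21) (.e (nat_lit 336013) (nat_lit 2) (.e (nat_lit 90170) (nat_lit 13) (.e (nat_lit 172106) (nat_lit 10) (.e (nat_lit 434244) (nat_lit 28) (.e (nat_lit 573451) (nat_lit 9) (.e (nat_lit 1007) (nat_lit 81) (.e (nat_lit 2350) (nat_lit 151) (.e (nat_lit 778359) (nat_lit 9) .nil))))))))) (.g (nat_lit 4) .nil .nil))))) 
(.nd (nat_lit 4) (.nd (nat_lit 5) 
(.lf (nat_lit 2123) (.g (nat_lit 6016) (.e (nat_lit 232) (nat_lit 21) (.e (nat_lit 336013) (nat_lit 2) (.e (nat_lit 90170) (nat_lit 13) (.e (nat_lit 172106) (nat_lit 10) (.e (nat_lit 434242) (nat_lit 28) (.e (nat_lit 573474) (nat_lit 12) (.e (nat_lit 57574) (nat_lit 55) (.e (nat_lit 778360) (nat_lit 9) .nil)))))))) (.g (nat_lit 6) .nil .nil))) 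
(.lf (nat_lit 2155) (.g (nat_lit 3246) (.e (nat_lit 232) (nat_lit 21) (.e (nat_lit 336013) (nat_lit 2) (.e (nat_lit 90170) (nat_lit 13) (.e (nat_lit 172106) (nat_lit 10) (.e (nat_lit 434244) (nat_lit 28) (.e (nat_lit 573449) (nat_lit 9) (.e (nat_lit 1312) (nat_lit 98) (.e (nat_lit 147466) (nat_lit 9) .nil)))))))) (.g (nat_lit 6) .nil .nil)))) (.nd (nat_lit 5) 
(.lf (nat_lit 2139) (.g (nat_lit 4723) (.e (nat_lit 232) (nat_lit 21) (.e (nat_lit 336013) (nat_lit 2) (.e (nat_lit 90170) (nat_lit 13) (.e (nat_lit 172106) (nat_lit 10) (.e (nat_lit 434243) (nat_lit 28) (.e (nat_lit 573475) (nat_lit 12) (.e (nat_lit 57574) (nat_lit 55) (.e (nat_lit 778359) (nat_lit 9) .nil)))))))) (.g (nat_lit 7) .nil .nil))) 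
(.lf (nat_lit 2171) (.g (nat_lit 2092) (.e (nat_lit 232) (nat_lit 21) (.e (nat_lit 336013) (nat_lit 2) (.e (nat_lit 90170) (nat_lit 13) (.e (nat_lit 172106) (nat_lit 10) (.e (nat_lit 434244) (nat_lit 28) (.e (nat_lit 573451) (nat_lit 9) (.e (nat_lit 7936) (nat_lit 98) (.e (nat_lit 147466) (nat_lit 9) .nil)))))))) (.g (nat_lit 4) .nil .nil)))))) (.nd (nat_lit 3) (.nd (nat_lit 4) (.nd (nat_lit 5) 
(.lf (nat_lit 2119) (.g (nat_lit 4717) (.e (nat_lit 232) (nat_lit 21) (.e (nat_lit 336013) (nat_lit 2) (.e (nat_lit 90170) (nat_lit 13) (.e (nat_lit 172106) (nat_lit 10) (.e (nat_lit 434231) (nat_lit 23) (.e (nat_lit 532500) (nat_lit 1) (.e (nat_lit 65280) (nat_lit 233) (.e (nat_lit 2423) (nat_lit 157) .nil)))))))) (.g (nat_lit 5) .nil .nil))) 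
(.lf (nat_lit 2151) (.g (nat_lit 3649) (.e (nat_lit 232) (nat_lit 21) (.e (nat_lit 336013) (nat_lit 2) (.e (nat_lit 90170) (nat_lit 13) (.e (nat_lit 172106) (nat_lit 10) (.e (nat_lit 434244) (nat_lit 28) (.e (nat_lit 573448) (nat_lit 9) (.e (nat_lit 1315) (nat_lit 98) (.e (nat_lit 147467) (nat_lit 9) .nil)))))))) (.g (nat_lit 5) .nil .nil)))) (.nd (nat_lit 5) 
(.lf (nat_lit 2135) (.g (nat_lit 2847) (.e (nat_lit 232) (nat_lit 21) (.e (nat_lit 336013) (nat_lit 2) (.e (nat_lit 90170) (nat_lit 13) (.e (nat_lit 172106) (nat_lit 10) (.e (nat_lit 434243) (nat_lit 28) .nil))))) .nil)) 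
(.lf (nat_lit 2167) (.g (nat_lit 3798) (.e (nat_lit 232) (nat_lit 21) (.e (nat_lit 336013) (nat_lit 2) (.e (nat_lit 90170) (nat_lit 13) (.e (nat_lit 172106) (nat_lit 10) (.e (nat_lit 434244) (nat_lit 28) (.e (nat_lit 573451) (nat_lit 9) (.e (nat_lit 1310) (nat_lit 98) (.e (nat_lit 147466) (nat_lit 9) .nil)))))))) (.g (nat_lit 6) .nil .nil))))) (.nd (nat_lit 4) (.nd (nat_lit 5) 
(.lf (nat_lit 2127) (.g (nat_lit 4789) (.e (nat_lit 232) (nat_lit 21) (.e (nat_lit 336013) (nat_lit 2) (.e (nat_lit 90170) (nat_lit 13) (.e (nat_lit 172106) (nat_lit 10) (.e (nat_lit 434242) (nat_lit 28) (.e (nat_lit 573477) (nat_lit 12) (.e (nat_lit 57574) (nat_lit 55) (.e (nat_lit 778359) (nat_lit 9) .nil)))))))) (.g (nat_lit 7) .nil .nil))) 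
(.lf (nat_lit 2159) (.g (nat_lit 2257) (.e (nat_lit 232) (nat_lit 21) (.e (nat_lit 336013) (nat_lit 2) (.e (nat_lit 90170) (nat_lit 13) (.e (nat_lit 172106) (nat_lit 10) (.e (nat_lit 434244) (nat_lit 28) (.e (nat_lit 573451) (nat_lit 9) (.e (nat_lit 1002) (nat_lit 81) (.e (nat_lit 2343) (nat_lit 151) (.e (nat_lit 778360) (nat_lit 9) .nil))))))))) (.g (nat_lit 5) .nil .nil)))) (.nd (nat_lit 5) 
(.lf (nat_lit 2143) (.g (nat_lit 4476) (.e (nat_lit 232) (nat_lit 21) (.e (nat_lit 336013) (nat_lit 2) (.e (nat_lit 90170) (nat_lit 13) (.e (nat_lit 172106) (nat_lit 10) (.e (nat_lit 434243) (nat_lit 28) (.e (nat_lit 573477) (nat_lit 12) (.e (nat_lit 57574) (nat_lit 55) (.e (nat_lit 778359) (nat_lit 9) .nil)))))))) (.g (nat_lit 6) .nil .nil))) 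
(.lf (nat_lit 2175) (.g (nat_lit 2494) (.e (nat_lit 232) (nat_lit 21) (.e (nat_lit 336013) (nat_lit 2) (.e (nat_lit 90170) (nat_lit 13) (.e (nat_lit 172106) (nat_lit 10) (.e (nat_lit 434244) (nat_lit 28) (.e (nat_lit 573458) (nat_lit 9) (.e (nat_lit 1310) (nat_lit 98) (.e (nat_lit 147463) (nat_lit 9) .nil)))))))) (.g (nat_lit 5) .nil .nil)))))))))

noncomputable def tv029 : DT := (.nd (nat_lit 0) (.nd (nat_lit 1) (.nd (nat_lit 2) (.nd (nat_lit 3) (.nd (nat_lit 4) (.nd (nat_lit 5) 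
(.lf (nat_lit 2176) (.g (nat_lit 2531) (.e (nat_lit 232) (nat_lit 21) (.e (nat_lit 336013) (nat_lit 2) (.e (nat_lit 90170) (nat_lit 13) (.e (nat_lit 172106) (nat_lit 10) (.e (nat_lit 434244) (nat_lit 28) (.e (nat_lit 573458) (nat_lit 9) (.e (nat_lit 1310) (nat_lit 98) (.e (nat_lit 147464) (nat_lit 9) .nil)))))))) (.g (nat_lit 6) .nil .nil))) 
(.lf (nat_lit 2208) (.g (nat_lit 4651) (.e (nat_lit 232) (nat_lit 21) (.e (nat_lit 336013) (nat_lit 2) (.e (nat_lit 90170) (nat_lit 13) (.e (nat_lit 172106) (nat_lit 10) (.e (nat_lit 434244) (nat_lit 28) (.e (nat_lit 573477) (nat_lit 12) (.e (nat_lit 57575) (nat_lit 55) (.e (nat_lit 778361) (nat_lit 9) .nil)))))))) (.g (nat_lit 7) .nil .nil)))) (.nd (nat_lit 5) 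
(.lf (nat_lit 2192) (.g (nat_lit 4473) (.e (nat_lit 232) (nat_lit 21) (.e (nat_lit 336013) (nat_lit 2) (.e (nat_lit 90170) (nat_lit 13) (.e (nat_lit 172106) (nat_lit 10) (.e (nat_lit 434244) (nat_lit 28) (.e (nat_lit 573473) (nat_lit 12) (.e (nat_lit 57575) (nat_lit 55) (.e (nat_lit 778360) (nat_lit 9) .nil)))))))) (.g (nat_lit 6) .nil .nil))) 
(.lf (nat_lit 2224) (.g (nat_lit 4387) (.e (nat_lit 232) (nat_lit 21) (.e (nat_lit 336013) (nat_lit 2) (.e (nat_lit 90170) (nat_lit 13) (.e (nat_lit 172106) (nat_lit 10) (.e (nat_lit 434246) (nat_lit 28) (.e (nat_lit 573477) (nat_lit 12) (.e (nat_lit 57574) (nat_lit 55) (.e (nat_lit 778361) (nat_lit 9) .nil)))))))) (.g (nat_lit 6) .nil .nil))))) (.nd (nat_lit 4) (.nd (nat_lit 5) 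
(.lf (nat_lit 2184) (.g (nat_lit 3539) (.e (nat_lit 232) (nat_lit 21) (.e (nat_lit 336013) (nat_lit 2) (.e (nat_lit 90170) (nat_lit 13) (.e (nat_lit 172106) (nat_lit 10) (.e (nat_lit 434244) (nat_lit 28) (.e (nat_lit 573468) (nat_lit 10) (.e (nat_lit 8193) (nat_lit 0) (.e (nat_lit 4620) (nat_lit 269) (.e (nat_lit 2423) (nat_lit 157) .nil))))))))) (.g (nat_lit 6) .nil .nil))) 
(.lf (nat_lit 2216) (.g (nat_lit 5415) (.e (nat_lit 232) (nat_lit 21) (.e (nat_lit 336013) (nat_lit 2) (.e (nat_lit 90170) (nat_lit 13) (.e (nat_lit 172106) (nat_lit 10) (.e (nat_lit 434245) (nat_lit 28) (.e (nat_lit 573474) (nat_lit 12) (.e (nat_lit 57574) (nat_lit 55) (.e (nat_lit 778361) (nat_lit 9) .nil)))))))) (.g (nat_lit 7) .nil .nil)))) (.nd (nat_lit 5) 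
(.lf (nat_lit 2200) (.g (nat_lit 5203) (.e (nat_lit 232) (nat_lit 21) (.e (nat_lit 336013) (nat_lit 2) (.e (nat_lit 90170) (nat_lit 13) (.e (nat_lit 172106) (nat_lit 10) (.e (nat_lit 434244) (nat_lit 28) (.e (nat_lit 573476) (nat_lit 12) (.e (nat_lit 57574) (nat_lit 55) (.e (nat_lit 778360) (nat_lit 9) .nil)))))))) (.g (nat_lit 8) .nil .nil))) 
(.lf (nat_lit 2232) (.g (nat_lit 2833) (.e (nat_lit 232) (nat_lit 21) (.e (nat_lit 336013) (nat_lit 2) (.e (nat_lit 90170) (nat_lit 13) (.e (nat_lit 172106) (nat_lit 10) (.e (nat_lit 434247) (nat_lit 28) (.e (nat_lit 573475) (nat_lit 12) (.e (nat_lit 57574) (nat_lit 55) (.e (nat_lit 778360) (nat_lit 9) .nil)))))))) (.g (nat_lit 4) .nil .nil)))))) (.nd (nat_lit 3) (.nd (nat_lit 4) (.nd (nat_lit 5) 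
(.lf (nat_lit 2180) (.g (nat_lit 3346) (.e (nat_lit 232) (nat_lit 21) (.e (nat_lit 336013) (nat_lit 2) (.e (nat_lit 90170) (nat_lit 13) (.e (nat_lit 172106) (nat_lit 10) (.e (nat_lit 434244) (nat_lit 28) (.e (nat_lit 573458) (nat_lit 9) (.e (nat_lit 1313) (nat_lit 98) (.e (nat_lit 147466) (nat_lit 9) .nil)))))))) (.g (nat_lit 6) .nil .nil))) 
(.lf (nat_lit 2212) (.g (nat_lit 2723) (.e (nat_lit 232) (nat_lit 21) (.e (nat_lit 336013) (nat_lit 2) (.e (nat_lit 90170) (nat_lit 13) (.e (nat_lit 172106) (nat_lit 10) (.e (nat_lit 434244) (nat_lit 28) (.e (nat_lit 573503) (nat_lit 18) (.e (nat_lit 7936) (nat_lit 161) (.e (nat_lit 40972) (nat_lit 9) .nil)))))))) (.g (nat_lit 6) .nil .nil)))) (.nd (nat_lit 5) 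
(.lf (nat_lit 2196) (.g (nat_lit 6347) (.e (nat_lit 232) (nat_lit 21) (.e (nat_lit 336013) (nat_lit 2) (.e (nat_lit 90170) (nat_lit 13) (.e (nat_lit 172106) (nat_lit 10) (.e (nat_lit 434244) (nat_lit 28) (.e (nat_lit 573475) (nat_lit 12) (.e (nat_lit 57574) (nat_lit 55) (.e (nat_lit 778359) (nat_lit 9) .nil)))))))) (.g (nat_lit 7) .nil .nil))) 
(.lf (nat_lit 2228) (.g (nat_lit 3796) (.e (nat_lit 232) (nat_lit 21) (.e (nat_lit 336013) (nat_lit 2) (.e (nat_lit 90170) (nat_lit 13) (.e (nat_lit 172106) (nat_lit 10) (.e (nat_lit 434246) (nat_lit 28) (.e (nat_lit 573478) (nat_lit 12) (.e (nat_lit 57574) (nat_lit 55) (.e (nat_lit 778359) (nat_lit 9) .nil)))))))) (.g (nat_lit 5) .nil .nil))))) (.nd (nat_lit 4) (.nd (nat_lit 5) 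
(.lf (nat_lit 2188) (.g (nat_lit 3443) (.e (nat_lit 232) (nat_lit 21) (.e (nat_lit 336013) (nat_lit 2) (.e (nat_lit 90170) (nat_lit 13) (.e (nat_lit 172106) (nat_lit 10) (.e (nat_lit 434244) (nat_lit 28) (.e (nat_lit 573472) (nat_lit 12) (.e (nat_lit 57575) (nat_lit 55) (.e (nat_lit 778360) (nat_lit 9) .nil)))))))) (.g (nat_lit 5) .nil .nil))) 
(.lf (nat_lit 2220) (.g (nat_lit 4873) (.e (nat_lit 232) (nat_lit 21) (.e (nat_lit 336013) (nat_lit 2) (.e (nat_lit 90170) (nat_lit 13) (.e (nat_lit 172106) (nat_lit 10) (.e (nat_lit 434246) (nat_lit 28) (.e (nat_lit 573475) (nat_lit 12) (.e (nat_lit 57574) (nat_lit 55) (.e (nat_lit 778361) (nat_lit 9) .nil)))))))) (.g (nat_lit 7) .nil .nil)))) (.nd (nat_lit 5) 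
(.lf (nat_lit 2204) (.g (nat_lit 5475) (.e (nat_lit 232) (nat_lit 21) (.e (nat_lit 336013) (nat_lit 2) (.e (nat_lit 90170) (nat_lit 13) (.e (nat_lit 172106) (nat_lit 10) (.e (nat_lit 434244) (nat_lit 28) (.e (nat_lit 573476) (nat_lit 12) (.e (nat_lit 57575) (nat_lit 55) (.e (nat_lit 778362) (nat_lit 9) .nil)))))))) (.g (nat_lit 8) .nil .nil))) 
(.lf (nat_lit 2236) (.g (nat_lit 5054) (.e (nat_lit 232) (nat_lit 21) (.e (nat_lit 336013) (nat_lit 2) (.e (nat_lit 90170) (nat_lit 13) (.e (nat_lit 172106) (nat_lit 10) (.e (nat_lit 434247) (nat_lit 28) (.e (nat_lit 573477) (nat_lit 12) (.e (nat_lit 57575) (nat_lit 55) (.e (nat_lit 778359) (nat_lit 9) .nil)))))))) (.g (nat_lit 7) .nil .nil))))))) 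
(.nd (nat_lit 2) (.nd (nat_lit 3) (.nd (nat_lit 4) (.nd (nat_lit 5) 
(.lf (nat_lit 2178) (.g (nat_lit 3110) (.e (nat_lit 232) (nat_lit 21) (.e (nat_lit 336013) (nat_lit 2) (.e (nat_lit 90170) (nat_lit 13) (.e (nat_lit 172106) (nat_lit 10) (.e (nat_lit 434244) (nat_lit 28) (.e (nat_lit 573458) (nat_lit 9) (.e (nat_lit 1310) (nat_lit 98) (.e (nat_lit 147466) (nat_lit 9) .nil)))))))) (.g (nat_lit 6) .nil .nil))) 
(.lf (nat_lit 2210) (.g (nat_lit 5545) (.e (nat_lit 232) (nat_lit 21) (.e (nat_lit 336013) (nat_lit 2) (.e (nat_lit 90170) (nat_lit 13) (.e (nat_lit 172106) (nat_lit 10) (.e (nat_lit 434244) (nat_lit 28) (.e (nat_lit 573478) (nat_lit 12) (.e (nat_lit 57574) (nat_lit 55) (.e (nat_lit 778360) (nat_lit 9) .nil)))))))) (.g (nat_lit 7) .nil .nil)))) (.nd (nat_lit 5) 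
(.lf (nat_lit 2194) (.g (nat_lit 2195) (.e (nat_lit 232) (nat_lit 21) (.e (nat_lit 336013) (nat_lit 2) (.e (nat_lit 90170) (nat_lit 13) (.e (nat_lit 172106) (nat_lit 10) (.e (nat_lit 434244) (nat_lit 28) (.e (nat_lit 573474) (nat_lit 12) (.e (nat_lit 65280) (nat_lit 55) (.e (nat_lit 778353) (nat_lit 9) .nil)))))))) (.g (nat_lit 4) .nil .nil))) 
(.lf (nat_lit 2226) (.g (nat_lit 3103) (.e (nat_lit 232) (nat_lit 21) (.e (nat_lit 336013) (nat_lit 2) (.e (nat_lit 90170) (nat_lit 13) (.e (nat_lit 172106) (nat_lit 10) (.e (nat_lit 434246) (nat_lit 28) (.e (nat_lit 573477) (nat_lit 12) (.e (nat_lit 57575) (nat_lit 55) (.e (nat_lit 778360) (nat_lit 9) .nil)))))))) (.g (nat_lit 4) .nil .nil))))) (.nd (nat_lit 4) (.nd (nat_lit 5) 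
(.lf (nat_lit 2186) (.g (nat_lit 2989) (.e (nat_lit 232) (nat_lit 21) (.e (nat_lit 336013) (nat_lit 2) (.e (nat_lit 90170) (nat_lit 13) (.e (nat_lit 172106) (nat_lit 10) (.e (nat_lit 434244) (nat_lit 28) (.e (nat_lit 573472) (nat_lit 12) (.e (nat_lit 57574) (nat_lit 55) (.e (nat_lit 778361) (nat_lit 9) .nil)))))))) (.g (nat_lit 5) .nil .nil))) 
(.lf (nat_lit 2218) (.g (nat_lit 4393) (.e (nat_lit 232) (nat_lit 21) (.e (nat_lit 336013) (nat_lit 2) (.e (nat_lit 90170) (nat_lit 13) (.e (nat_lit 172106) (nat_lit 10) (.e (nat_lit 434246) (nat_lit 28) (.e (nat_lit 573475) (nat_lit 12) (.e (nat_lit 57574) (nat_lit 55) (.e (nat_lit 778359) (nat_lit 9) .nil)))))))) (.g (nat_lit 6) .nil .nil)))) (.nd (nat_lit 5) 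
(.lf (nat_lit 2202) (.g (nat_lit 4832) (.e (nat_lit 232) (nat_lit 21) (.e (nat_lit 336013) (nat_lit 2) (.e (nat_lit 90170) (nat_lit 13) (.e (nat_lit 172106) (nat_lit 10) (.e (nat_lit 434244) (nat_lit 28) (.e (nat_lit 573476) (nat_lit 12) (.e (nat_lit 57575) (nat_lit 55) (.e (nat_lit 778360) (nat_lit 9) .nil)))))))) (.g (nat_lit 7) .nil .nil))) 
(.lf (nat_lit 2234) (.g (nat_lit 4829) (.e (nat_lit 232) (nat_lit 21) (.e (nat_lit 336013) (nat_lit 2) (.e (nat_lit 90170) (nat_lit 13) (.e (nat_lit 172106) (nat_lit 10) (.e (nat_lit 434247) (nat_lit 28) (.e (nat_lit 573477) (nat_lit 12) (.e (nat_lit 57574) (nat_lit 55) (.e (nat_lit 778359) (nat_lit 9) .nil)))))))) (.g (nat_lit 7) .nil .nil)))))) (.nd (nat_lit 3) (.nd (nat_lit 4) (.nd (nat_lit 5) 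
(.lf (nat_lit 2182) (.g (nat_lit 2461) (.e (nat_lit 232) (nat_lit 21) (.e (nat_lit 336013) (nat_lit 2) (.e (nat_lit 90170) (nat_lit 13) (.e (nat_lit 172106) (nat_lit 10) (.e (nat_lit 434244) (nat_lit 28) (.e (nat_lit 573468) (nat_lit 10) (.e (nat_lit 8192) (nat_lit 0) (.e (nat_lit 4620) (nat_lit 269) (.e (nat_lit 2422) (nat_lit 157) .nil))))))))) (.g (nat_lit 5) .nil .nil))) 
(.lf (nat_lit 2214) (.g (nat_lit 4953) (.e (nat_lit 232) (nat_lit 21) (.e (nat_lit 336013) (nat_lit 2) (.e (nat_lit 90170) (nat_lit 13) (.e (nat_lit 172106) (nat_lit 10) (.e (nat_lit 434245) (nat_lit 28) (.e (nat_lit 573474) (nat_lit 12) (.e (nat_lit 57574) (nat_lit 55) (.e (nat_lit 778359) (nat_lit 9) .nil)))))))) (.g (nat_lit 6) .nil .nil)))) (.nd (nat_lit 5) 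
(.lf (nat_lit 2198) (.g (nat_lit 6827) (.e (nat_lit 232) (nat_lit 21) (.e (nat_lit 336013) (nat_lit 2) (.e (nat_lit 90170) (nat_lit 13) (.e (nat_lit 172106) (nat_lit 10) (.e (nat_lit 434244) (nat_lit 28) (.e (nat_lit 573475) (nat_lit 12) (.e (nat_lit 57574) (nat_lit 55) (.e (nat_lit 778361) (nat_lit 9) .nil)))))))) (.g (nat_lit 8) .nil .nil))) 
(.lf (nat_lit 2230) (.g (nat_lit 4270) (.e (nat_lit 232) (nat_lit 21) (.e (nat_lit 336013) (nat_lit 2) (.e (nat_lit 90170) (nat_lit 13) (.e (nat_lit 172106) (nat_lit 10) (.e (nat_lit 434246) (nat_lit 28) (.e (nat_lit 573478) (nat_lit 12) (.e (nat_lit 57574) (nat_lit 55) (.e (nat_lit 778361) (nat_lit 9) .nil)))))))) (.g (nat_lit 6) .nil .nil))))) (.nd (nat_lit 4) (.nd (nat_lit 5) 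
(.lf (nat_lit 2190) (.g (nat_lit 3551) (.e (nat_lit 232) (nat_lit 21) (.e (nat_lit 336013) (nat_lit 2) (.e (nat_lit 90170) (nat_lit 13) (.e (nat_lit 172106) (nat_lit 10) (.e (nat_lit 434244) (nat_lit 28) (.e (nat_lit 573473) (nat_lit 12) (.e (nat_lit 57574) (nat_lit 55) (.e (nat_lit 778360) (nat_lit 9) .nil)))))))) (.g (nat_lit 5) .nil .nil))) 
(.lf (nat_lit 2222) (.g (nat_lit 3972) (.e (nat_lit 232) (nat_lit 21) (.e (nat_lit 336013) (nat_lit 2) (.e (nat_lit 90170) (nat_lit 13) (.e (nat_lit 172106) (nat_lit 10) (.e (nat_lit 434246) (nat_lit 28) (.e (nat_lit 573477) (nat_lit 12) (.e (nat_lit 57574) (nat_lit 55) (.e (nat_lit 778359) (nat_lit 9) .nil)))))))) (.g (nat_lit 5) .nil .nil)))) (.nd (nat_lit 5) 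
(.lf (nat_lit 2206) (.g (nat_lit 4465) (.e (nat_lit 232) (nat_lit 21) (.e (nat_lit 336013) (nat_lit 2) (.e (nat_lit 90170) (nat_lit 13) (.e (nat_lit 172106) (nat_lit 10) (.e (nat_lit 434244) (nat_lit 28) (.e (nat_lit 573477) (nat_lit 12) (.e (nat_lit 57574) (nat_lit 55) (.e (nat_lit 778360) (nat_lit 9) .nil)))))))) (.g (nat_lit 7) .nil .nil))) 
(.lf (nat_lit 2238) (.g (nat_lit 4613) (.e (nat_lit 232) (nat_lit 21) (.e (nat_lit 336013) (nat_lit 2) (.e (nat_lit 90170) (nat_lit 13) (.e (nat_lit 172106) (nat_lit 10) (.e (nat_lit 434247) (nat_lit 28) (.e (nat_lit 573477) (nat_lit 12) (.e (nat_lit 57575) (nat_lit 55) (.e (nat_lit 778361) (nat_lit 9) .nil)))))))) (.g (nat_lit 6) .nil .nil)))))))) 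
(.nd (nat_lit 1) (.nd (nat_lit 2) (.nd (nat_lit 3) (.nd (nat_lit 4) (.nd (nat_lit 5) 
(.lf (nat_lit 2177) (.g (nat_lit 2824) (.e (nat_lit 232) (nat_lit 21) (.e (nat_lit 336013) (nat_lit 2) (.e (nat_lit 90170) (nat_lit 13) (.e (nat_lit 172106) (nat_lit 10) (.e (nat_lit 434244) (nat_lit 28) (.e (nat_lit 573458) (nat_lit 9) (.e (nat_lit 1310) (nat_lit 98) (.e (nat_lit 147465) (nat_lit 9) .nil)))))))) (.g (nat_lit 6) .nil .nil))) 
(.lf (nat_lit 2209) (.g (nat_lit 5657) (.e (nat_lit 232) (nat_lit 21) (.e (nat_lit 336013) (nat_lit 2) (.e (nat_lit 90170) (nat_lit 13) (.e (nat_lit 172106) (nat_lit 10) (.e (nat_lit 434244) (nat_lit 28) (.e (nat_lit 573478) (nat_lit 12) (.e (nat_lit 57574) (nat_lit 55) (.e (nat_lit 778359) (nat_lit 9) .nil)))))))) (.g (nat_lit 7) .nil .nil)))) (.nd (nat_lit 5) 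
(.lf (nat_lit 2193) (.g (nat_lit 5110) (.e (nat_lit 232) (nat_lit 21) (.e (nat_lit 336013) (nat_lit 2) (.e (nat_lit 90170) (nat_lit 13) (.e (nat_lit 172106) (nat_lit 10) (.e (nat_lit 434244) (nat_lit 28) (.e (nat_lit 573473) (nat_lit 12) (.e (nat_lit 57575) (nat_lit 55) (.e (nat_lit 778362) (nat_lit 9) .nil)))))))) (.g (nat_lit 7) .nil .nil))) 
(.lf (nat_lit 2225) (.g (nat_lit 4215) (.e (nat_lit 232) (nat_lit 21) (.e (nat_lit 336013) (nat_lit 2) (.e (nat_lit 90170) (nat_lit 13) (.e (nat_lit 172106) (nat_lit 10) (.e (nat_lit 434246) (nat_lit 28) (.e (nat_lit 573477) (nat_lit 12) (.e (nat_lit 57575) (nat_lit 55) (.e (nat_lit 778359) (nat_lit 9) .nil)))))))) (.g (nat_lit 6) .nil .nil))))) (.nd (nat_lit 4) (.nd (nat_lit 5) 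
(.lf (nat_lit 2185) (.g (nat_lit 3622) (.e (nat_lit 232) (nat_lit 21) (.e (nat_lit 336013) (nat_lit 2) (.e (nat_lit 90170) (nat_lit 13) (.e (nat_lit 172106) (nat_lit 10) (.e (nat_lit 434244) (nat_lit 28) (.e (nat_lit 573468) (nat_lit 10) (.e (nat_lit 8194) (nat_lit 0) (.e (nat_lit 4620) (nat_lit 269) (.e (nat_lit 2423) (nat_lit 157) .nil))))))))) (.g (nat_lit 6) .nil .nil))) 
(.lf (nat_lit 2217) (.g (nat_lit 5950) (.e (nat_lit 232) (nat_lit 21) (.e (nat_lit 336013) (nat_lit 2) (.e (nat_lit 90170) (nat_lit 13) (.e (nat_lit 172106) (nat_lit 10) (.e (nat_lit 434245) (nat_lit 28) (.e (nat_lit 573474) (nat_lit 12) (.e (nat_lit 57574) (nat_lit 55) (.e (nat_lit 778362) (nat_lit 9) .nil)))))))) (.g (nat_lit 8) .nil .nil)))) (.nd (nat_lit 5) 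
(.lf (nat_lit 2201) (.g (nat_lit 5739) (.e (nat_lit 232) (nat_lit 21) (.e (nat_lit 336013) (nat_lit 2) (.e (nat_lit 90170) (nat_lit 13) (.e (nat_lit 172106) (nat_lit 10) (.e (nat_lit 434244) (nat_lit 28) (.e (nat_lit 573476) (nat_lit 12) (.e (nat_lit 57574) (nat_lit 55) (.e (nat_lit 778361) (nat_lit 9) .nil)))))))) (.g (nat_lit 8) .nil .nil))) 
(.lf (nat_lit 2233) (.g (nat_lit 3419) (.e (nat_lit 232) (nat_lit 21) (.e (nat_lit 336013) (nat_lit 2) (.e (nat_lit 90170) (nat_lit 13) (.e (nat_lit 172106) (nat_lit 10) (.e (nat_lit 434247) (nat_lit 28) (.e (nat_lit 573475) (nat_lit 12) (.e (nat_lit 57574) (nat_lit 55) (.e (nat_lit 778361) (nat_lit 9) .nil)))))))) (.g (nat_lit 4) .nil .nil)))))) (.nd (nat_lit 3) (.nd (nat_lit 4) (.nd (nat_lit 5) 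
(.lf (nat_lit 2181) (.g (nat_lit 3144) (.e (nat_lit 232) (nat_lit 21) (.e (nat_lit 336013) (nat_lit 2) (.e (nat_lit 90170) (nat_lit 13) (.e (nat_lit 172106) (nat_lit 10) (.e (nat_lit 434244) (nat_lit 28) (.e (nat_lit 573458) (nat_lit 9) (.e (nat_lit 1313) (nat_lit 98) (.e (nat_lit 147467) (nat_lit 9) .nil)))))))) (.g (nat_lit 6) .nil .nil))) 
(.lf (nat_lit 2213) (.g (nat_lit 2072) (.e (nat_lit 232) (nat_lit 21) (.e (nat_lit 336013) (nat_lit 2) (.e (nat_lit 90170) (nat_lit 13) (.e (nat_lit 172106) (nat_lit 10) (.e (nat_lit 434244) (nat_lit 28) (.e (nat_lit 573505) (nat_lit 18) (.e (nat_lit 2574) (nat_lit 161) (.e (nat_lit 40972) (nat_lit 9) .nil)))))))) (.g (nat_lit 4) .nil .nil)))) (.nd (nat_lit 5) 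
(.lf (nat_lit 2197) (.g (nat_lit 6241) (.e (nat_lit 232) (nat_lit 21) (.e (nat_lit 336013) (nat_lit 2) (.e (nat_lit 90170) (nat_lit 13) (.e (nat_lit 172106) (nat_lit 10) (.e (nat_lit 434244) (nat_lit 28) (.e (nat_lit 573475) (nat_lit 12) (.e (nat_lit 57574) (nat_lit 55) (.e (nat_lit 778360) (nat_lit 9) .nil)))))))) (.g (nat_lit 7) .nil .nil))) 
(.lf (nat_lit 2229) (.g (nat_lit 3687) (.e (nat_lit 232) (nat_lit 21) (.e (nat_lit 336013) (nat_lit 2) (.e (nat_lit 90170) (nat_lit 13) (.e (nat_lit 172106) (nat_lit 10) (.e (nat_lit 434246) (nat_lit 28) (.e (nat_lit 573478) (nat_lit 12) (.e (nat_lit 57574) (nat_lit 55) (.e (nat_lit 778360) (nat_lit 9) .nil)))))))) (.g (nat_lit 5) .nil .nil))))) (.nd (nat_lit 4) (.nd (nat_lit 5) 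
(.lf (nat_lit 2189) (.g (nat_lit 3562) (.e (nat_lit 232) (nat_lit 21) (.e (nat_lit 336013) (nat_lit 2) (.e (nat_lit 90170) (nat_lit 13) (.e (nat_lit 172106) (nat_lit 10) (.e (nat_lit 434244) (nat_lit 28) (.e (nat_lit 573473) (nat_lit 12) (.e (nat_lit 57574) (nat_lit 55) (.e (nat_lit 778359) (nat_lit 9) .nil)))))))) (.g (nat_lit 5) .nil .nil))) 
(.lf (nat_lit 2221) (.g (nat_lit 5490) (.e (nat_lit 232) (nat_lit 21) (.e (nat_lit 336013) (nat_lit 2) (.e (nat_lit 90170) (nat_lit 13) (.e (nat_lit 172106) (nat_lit 10) (.e (nat_lit 434246) (nat_lit 28) (.e (nat_lit 573475) (nat_lit 12) (.e (nat_lit 57574) (nat_lit 55) (.e (nat_lit 778362) (nat_lit 9) .nil)))))))) (.g (nat_lit 8) .nil .nil)))) (.nd (nat_lit 5) 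
(.lf (nat_lit 2205) (.g (nat_lit 4600) (.e (nat_lit 232) (nat_lit 21) (.e (nat_lit 336013) (nat_lit 2) (.e (nat_lit 90170) (nat_lit 13) (.e (nat_lit 172106) (nat_lit 10) (.e (nat_lit 434244) (nat_lit 28) (.e (nat_lit 573477) (nat_lit 12) (.e (nat_lit 57574) (nat_lit 55) (.e (nat_lit 778359) (nat_lit 9) .nil)))))))) (.g (nat_lit 7) .nil .nil))) 
(.lf (nat_lit 2237) (.g (nat_lit 3942) (.e (nat_lit 232) (nat_lit 21) (.e (nat_lit 336013) (nat_lit 2) (.e (nat_lit 90170) (nat_lit 13) (.e (nat_lit 172106) (nat_lit 10) (.e (nat_lit 434247) (nat_lit 28) (.e (nat_lit 573477) (nat_lit 12) (.e (nat_lit 57575) (nat_lit 55) (.e (nat_lit 778360) (nat_lit 9) .nil)))))))) (.g (nat_lit 5) .nil .nil))))))) 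
(.nd (nat_lit 2) (.nd (nat_lit 3) (.nd (nat_lit 4) (.nd (nat_lit 5) 
(.lf (nat_lit 2179) (.g (nat_lit 2961) (.e (nat_lit 232) (nat_lit 21) (.e (nat_lit 336013) (nat_lit 2) (.e (nat_lit 90170) (nat_lit 13) (.e (nat_lit 172106) (nat_lit 10) (.e (nat_lit 434244) (nat_lit 28) (.e (nat_lit 573458) (nat_lit 9) (.e (nat_lit 1310) (nat_lit 98) (.e (nat_lit 147467) (nat_lit 9) .nil)))))))) (.g (nat_lit 6) .nil .nil))) 
(.lf (nat_lit 2211) (.g (nat_lit 6130) (.e (nat_lit 232) (nat_lit 21) (.e (nat_lit 336013) (nat_lit 2) (.e (nat_lit 90170) (nat_lit 13) (.e (nat_lit 172106) (nat_lit 10) (.e (nat_lit 434244) (nat_lit 28) (.e (nat_lit 573478) (nat_lit 12) (.e (nat_lit 57574) (nat_lit 55) (.e (nat_lit 778361) (nat_lit 9) .nil)))))))) (.g (nat_lit 8) .nil .nil)))) (.nd (nat_lit 5) 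
(.lf (nat_lit 2195) (.g (nat_lit 2045) (.e (nat_lit 232) (nat_lit 21) (.e (nat_lit 336013) (nat_lit 2) (.e (nat_lit 90170) (nat_lit 13) (.e (nat_lit 172106) (nat_lit 10) (.e (nat_lit 434244) (nat_lit 28) (.e (nat_lit 573474) (nat_lit 12) (.e (nat_lit 65280) (nat_lit 55) (.e (nat_lit 778355) (nat_lit 9) .nil)))))))) (.g (nat_lit 4) .nil .nil))) 
(.lf (nat_lit 2227) (.g (nat_lit 3774) (.e (nat_lit 232) (nat_lit 21) (.e (nat_lit 336013) (nat_lit 2) (.e (nat_lit 90170) (nat_lit 13) (.e (nat_lit 172106) (nat_lit 10) (.e (nat_lit 434246) (nat_lit 28) (.e (nat_lit 573477) (nat_lit 12) (.e (nat_lit 57575) (nat_lit 55) (.e (nat_lit 778361) (nat_lit 9) .nil)))))))) (.g (nat_lit 5) .nil .nil))))) (.nd (nat_lit 4) (.nd (nat_lit 5) 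
(.lf (nat_lit 2187) (.g (nat_lit 4555) (.e (nat_lit 232) (nat_lit 21) (.e (nat_lit 336013) (nat_lit 2) (.e (nat_lit 90170) (nat_lit 13) (.e (nat_lit 172106) (nat_lit 10) (.e (nat_lit 434244) (nat_lit 28) (.e (nat_lit 573472) (nat_lit 12) (.e (nat_lit 57575) (nat_lit 55) (.e (nat_lit 778359) (nat_lit 9) .nil)))))))) (.g (nat_lit 7) .nil .nil))) 
(.lf (nat_lit 2219) (.g (nat_lit 4287) (.e (nat_lit 232) (nat_lit 21) (.e (nat_lit 336013) (nat_lit 2) (.e (nat_lit 90170) (nat_lit 13) (.e (nat_lit 172106) (nat_lit 10) (.e (nat_lit 434246) (nat_lit 28) (.e (nat_lit 573475) (nat_lit 12) (.e (nat_lit 57574) (nat_lit 55) (.e (nat_lit 778360) (nat_lit 9) .nil)))))))) (.g (nat_lit 6) .nil .nil)))) (.nd (nat_lit 5) 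
(.lf (nat_lit 2203) (.g (nat_lit 5499) (.e (nat_lit 232) (nat_lit 21) (.e (nat_lit 336013) (nat_lit 2) (.e (nat_lit 90170) (nat_lit 13) (.e (nat_lit 172106) (nat_lit 10) (.e (nat_lit 434244) (nat_lit 28) (.e (nat_lit 573476) (nat_lit 12) (.e (nat_lit 57575) (nat_lit 55) (.e (nat_lit 778361) (nat_lit 9) .nil)))))))) (.g (nat_lit 7) .nil .nil))) 
(.lf (nat_lit 2235) (.g (nat_lit 4708) (.e (nat_lit 232) (nat_lit 21) (.e (nat_lit 336013) (nat_lit 2) (.e (nat_lit 90170) (nat_lit 13) (.e (nat_lit 172106) (nat_lit 10) (.e (nat_lit 434247) (nat_lit 28) (.e (nat_lit 573477) (nat_lit 12) (.e (nat_lit 57574) (nat_lit 55) (.e (nat_lit 778360) (nat_lit 9) .nil)))))))) (.g (nat_lit 7) .nil .nil)))))) (.nd (nat_lit 3) (.nd (nat_lit 4) (.nd (nat_lit 5) 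
(.lf (nat_lit 2183) (.g (nat_lit 4539) (.e (nat_lit 232) (nat_lit 21) (.e (nat_lit 336013) (nat_lit 2) (.e (nat_lit 90170) (nat_lit 13) (.e (nat_lit 172106) (nat_lit 10) (.e (nat_lit 434244) (nat_lit 28) (.e (nat_lit 573468) (nat_lit 10) (.e (nat_lit 8192) (nat_lit 0) (.e (nat_lit 4620) (nat_lit 269) (.e (nat_lit 2423) (nat_lit 157) .nil))))))))) (.g (nat_lit 9) .nil .nil))) 
(.lf (nat_lit 2215) (.g (nat_lit 4840) (.e (nat_lit 232) (nat_lit 21) (.e (nat_lit 336013) (nat_lit 2) (.e (nat_lit 90170) (nat_lit 13) (.e (nat_lit 172106) (nat_lit 10) (.e (nat_lit 434245) (nat_lit 28) (.e (nat_lit 573474) (nat_lit 12) (.e (nat_lit 57574) (nat_lit 55) (.e (nat_lit 778360) (nat_lit 9) .nil)))))))) (.g (nat_lit 6) .nil .nil)))) (.nd (nat_lit 5) 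
(.lf (nat_lit 2199) (.g (nat_lit 5330) (.e (nat_lit 232) (nat_lit 21) (.e (nat_lit 336013) (nat_lit 2) (.e (nat_lit 90170) (nat_lit 13) (.e (nat_lit 172106) (nat_lit 10) (.e (nat_lit 434244) (nat_lit 28) (.e (nat_lit 573476) (nat_lit 12) (.e (nat_lit 57574) (nat_lit 55) (.e (nat_lit 778359) (nat_lit 9) .nil)))))))) (.g (nat_lit 8) .nil .nil))) 
(.lf (nat_lit 2231) (.g (nat_lit 2939) (.e (nat_lit 232) (nat_lit 21) (.e (nat_lit 336013) (nat_lit 2) (.e (nat_lit 90170) (nat_lit 13) (.e (nat_lit 172106) (nat_lit 10) (.e (nat_lit 434247) (nat_lit 28) (.e (nat_lit 573475) (nat_lit 12) (.e (nat_lit 57574) (nat_lit 55) (.e (nat_lit 778359) (nat_lit 9) .nil)))))))) (.g (nat_lit 4) .nil .nil))))) (.nd (nat_lit 4) (.nd (nat_lit 5) 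
(.lf (nat_lit 2191) (.g (nat_lit 5578) (.e (nat_lit 232) (nat_lit 21) (.e (nat_lit 336013) (nat_lit 2) (.e (nat_lit 90170) (nat_lit 13) (.e (nat_lit 172106) (nat_lit 10) (.e (nat_lit 434244) (nat_lit 28) (.e (nat_lit 573473) (nat_lit 12) (.e (nat_lit 57575) (nat_lit 55) (.e (nat_lit 778359) (nat_lit 9) .nil)))))))) (.g (nat_lit 7) .nil .nil))) 
(.lf (nat_lit 2223) (.g (nat_lit 3837) (.e (nat_lit 232) (nat_lit 21) (.e (nat_lit 336013) (nat_lit 2) (.e (nat_lit 90170) (nat_lit 13) (.e (nat_lit 172106) (nat_lit 10) (.e (nat_lit 434246) (nat_lit 28) (.e (nat_lit 573477) (nat_lit 12) (.e (nat_lit 57574) (nat_lit 55) (.e (nat_lit 778360) (nat_lit 9) .nil)))))))) (.g (nat_lit 5) .nil .nil)))) (.nd (nat_lit 5) 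
(.lf (nat_lit 2207) (.g (nat_lit 5015) (.e (nat_lit 232) (nat_lit 21) (.e (nat_lit 336013) (nat_lit 2) (.e (nat_lit 90170) (nat_lit 13) (.e (nat_lit 172106) (nat_lit 10) (.e (nat_lit 434244) (nat_lit 28) (.e (nat_lit 573477) (nat_lit 12) (.e (nat_lit 57574) (nat_lit 55) (.e (nat_lit 778361) (nat_lit 9) .nil)))))))) (.g (nat_lit 7) .nil .nil))) 
(.lf (nat_lit 2239) (.g (nat_lit 4266) (.e (nat_lit 232) (nat_lit 21) (.e (nat_lit 336013) (nat_lit 2) (.e (nat_lit 90170) (nat_lit 13) (.e (nat_lit 172106) (nat_lit 10) (.e (nat_lit 434247) (nat_lit 28) (.e (nat_lit 573478) (nat_lit 12) (.e (nat_lit 57574) (nat_lit 55) (.e (nat_lit 778359) (nat_lit 9) .nil)))))))) (.g (nat_lit 6) .nil .nil)))))))))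

noncomputable def tv030 : DT := (.nd (nat_lit 0) (.nd (nat_lit 1) (.nd (nat_lit 2) (.nd (nat_lit 3) (.nd (nat_lit 4) (.nd (nat_lit 5) 
(.lf (nat_lit 2240) (.g (nat_lit 4160) (.e (nat_lit 232) (nat_lit 21) (.e (nat_lit 336013) (nat_lit 2) (.e (nat_lit 90170) (nat_lit 13) (.e (nat_lit 172106) (nat_lit 10) (.e (nat_lit 434247) (nat_lit 28) (.e (nat_lit 573478) (nat_lit 12) (.e (nat_lit 57574) (nat_lit 55) (.e (nat_lit 778360) (nat_lit 9) .nil)))))))) (.g (nat_lit 5) .nil .nil))) 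
(.lf (nat_lit 2272) (.g (nat_lit 1873) (.e (nat_lit 232) (nat_lit 21) (.e (nat_lit 336013) (nat_lit 2) (.e (nat_lit 90170) (nat_lit 13) (.e (nat_lit 172120) (nat_lit 12) .nil)))) .nil))) (.nd (nat_lit 5) 
(.lf (nat_lit 2256) (.g (nat_lit 5017) (.e (nat_lit 232) (nat_lit 21) (.e (nat_lit 336013) (nat_lit 2) (.e (nat_lit 90170) (nat_lit 13) (.e (nat_lit 172110) (nat_lit 10) (.e (nat_lit 434247) (nat_lit 28) (.e (nat_lit 573477) (nat_lit 12) (.e (nat_lit 57575) (nat_lit 55) (.e (nat_lit 778359) (nat_lit 9) .nil)))))))) (.g (nat_lit 5) .nil .nil))) 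
(.lf (nat_lit 2288) (.g (nat_lit 5279) (.e (nat_lit 232) (nat_lit 21) (.e (nat_lit 336023) (nat_lit 3) (.e (nat_lit 98373) (nat_lit 29) (.e (nat_lit 450587) (nat_lit 10) (.e (nat_lit 573477) (nat_lit 12) (.e (nat_lit 57574) (nat_lit 55) (.e (nat_lit 778362) (nat_lit 9) .nil))))))) (.g (nat_lit 6) .nil .nil))))) (.nd (nat_lit 4) (.nd (nat_lit 5) 
(.lf (nat_lit 2248) (.g (nat_lit 4127) (.e (nat_lit 232) (nat_lit 21) (.e (nat_lit 336013) (nat_lit 2) (.e (nat_lit 90170) (nat_lit 13) (.e (nat_lit 172107) (nat_lit 10) (.e (nat_lit 434248) (nat_lit 28) .nil))))) .nil)) 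
(.lf (nat_lit 2280) (.g (nat_lit 2470) (.e (nat_lit 232) (nat_lit 21) (.e (nat_lit 336023) (nat_lit 3) (.e (nat_lit 98359) (nat_lit 26) (.e (nat_lit 426286) (nat_lit 10) (.e (nat_lit 434247) (nat_lit 28) (.e (nat_lit 573478) (nat_lit 12) (.e (nat_lit 57574) (nat_lit 55) (.e (nat_lit 778362) (nat_lit 9) .nil)))))))) (.g (nat_lit 4) .nil .nil)))) (.nd (nat_lit 5) 
(.lf (nat_lit 2264) (.g (nat_lit 2026) (.e (nat_lit 232) (nat_lit 21) (.e (nat_lit 336013) (nat_lit 2) (.e (nat_lit 90170) (nat_lit 13) (.e (nat_lit 172113) (nat_lit 10) (.e (nat_lit 434242) (nat_lit 28) (.e (nat_lit 573478) (nat_lit 12) (.e (nat_lit 57574) (nat_lit 55) (.e (nat_lit 778362) (nat_lit 9) .nil)))))))) (.g (nat_lit 4) .nil .nil))) 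
(.lf (nat_lit 2296) (.g (nat_lit 3311) (.e (nat_lit 232) (nat_lit 21) (.e (nat_lit 336028) (nat_lit 3) (.e (nat_lit 98372) (nat_lit 29) (.e (nat_lit 450586) (nat_lit 10) (.e (nat_lit 573477) (nat_lit 12) (.e (nat_lit 57574) (nat_lit 55) (.e (nat_lit 778359) (nat_lit 9) .nil))))))) (.g (nat_lit 7) .nil .nil)))))) (.nd (nat_lit 3) (.nd (nat_lit 4) (.nd (nat_lit 5) 
(.lf (nat_lit 2244) (.g (nat_lit 5663) (.e (nat_lit 232) (nat_lit 21) (.e (nat_lit 336013) (nat_lit 2) (.e (nat_lit 90170) (nat_lit 13) (.e (nat_lit 172106) (nat_lit 10) (.e (nat_lit 434248) (nat_lit 28) (.e (nat_lit 573475) (nat_lit 12) (.e (nat_lit 57574) (nat_lit 55) (.e (nat_lit 778361) (nat_lit 9) .nil)))))))) (.g (nat_lit 7) .nil .nil))) 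
(.lf (nat_lit 2276) (.g (nat_lit 3457) (.e (nat_lit 232) (nat_lit 21) (.e (nat_lit 336022) (nat_lit 3) (.e (nat_lit 98373) (nat_lit 29) (.e (nat_lit 450587) (nat_lit 10) (.e (nat_lit 573478) (nat_lit 12) (.e (nat_lit 57574) (nat_lit 55) (.e (nat_lit 778362) (nat_lit 9) .nil))))))) (.g (nat_lit 4) .nil .nil)))) (.nd (nat_lit 5) 
(.lf (nat_lit 2260) (.g (nat_lit 3989) (.e (nat_lit 232) (nat_lit 21) (.e (nat_lit 336013) (nat_lit 2) (.e (nat_lit 90170) (nat_lit 13) (.e (nat_lit 172112) (nat_lit 10) (.e (nat_lit 434248) (nat_lit 28) .nil))))) .nil)) 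
(.lf (nat_lit 2292) (.g (nat_lit 4099) (.e (nat_lit 232) (nat_lit 21) (.e (nat_lit 336028) (nat_lit 3) (.e (nat_lit 98359) (nat_lit 26) (.e (nat_lit 426286) (nat_lit 10) (.e (nat_lit 434247) (nat_lit 28) (.e (nat_lit 573477) (nat_lit 12) (.e (nat_lit 57574) (nat_lit 55) (.e (nat_lit 778359) (nat_lit 9) .nil)))))))) (.g (nat_lit 8) .nil .nil))))) (.nd (nat_lit 4) (.nd (nat_lit 5) 
(.lf (nat_lit 2252) (.g (nat_lit 3779) (.e (nat_lit 232) (nat_lit 21) (.e (nat_lit 336013) (nat_lit 2) (.e (nat_lit 90170) (nat_lit 13) (.e (nat_lit 172110) (nat_lit 10) .nil)))) .nil)) 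
(.lf (nat_lit 2284) (.g (nat_lit 2468) (.e (nat_lit 232) (nat_lit 21) (.e (nat_lit 336023) (nat_lit 3) (.e (nat_lit 98372) (nat_lit 29) (.e (nat_lit 450586) (nat_lit 10) (.e (nat_lit 573477) (nat_lit 12) (.e (nat_lit 57574) (nat_lit 55) (.e (nat_lit 778361) (nat_lit 9) .nil))))))) (.g (nat_lit 5) .nil .nil)))) (.nd (nat_lit 5) 
(.lf (nat_lit 2268) (.g (nat_lit 3902) (.e (nat_lit 232) (nat_lit 21) (.e (nat_lit 336013) (nat_lit 2) (.e (nat_lit 90170) (nat_lit 13) (.e (nat_lit 172113) (nat_lit 10) (.e (nat_lit 434247) (nat_lit 28) (.e (nat_lit 573477) (nat_lit 12) (.e (nat_lit 57575) (nat_lit 55) (.e (nat_lit 778360) (nat_lit 9) .nil)))))))) (.g (nat_lit 6) .nil .nil))) 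
(.lf (nat_lit 2300) (.g (nat_lit 1439) (.e (nat_lit 232) (nat_lit 21) (.e (nat_lit 336028) (nat_lit 3) (.e (nat_lit 98372) (nat_lit 29) (.e (nat_lit 450587) (nat_lit 10) .nil)))) .nil)))))) (.nd (nat_lit 2) (.nd (nat_lit 3) (.nd (nat_lit 4) (.nd (nat_lit 5) 
(.lf (nat_lit 2242) (.g (nat_lit 5167) (.e (nat_lit 232) (nat_lit 21) (.e (nat_lit 336013) (nat_lit 2) (.e (nat_lit 90170) (nat_lit 13) (.e (nat_lit 172106) (nat_lit 10) (.e (nat_lit 434248) (nat_lit 28) (.e (nat_lit 573475) (nat_lit 12) (.e (nat_lit 57574) (nat_lit 55) (.e (nat_lit 778359) (nat_lit 9) .nil)))))))) (.g (nat_lit 6) .nil .nil))) 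
(.lf (nat_lit 2274) (.g (nat_lit 887) (.e (nat_lit 232) (nat_lit 21) (.e (nat_lit 336013) (nat_lit 2) (.e (nat_lit 90189) (nat_lit 18) .nil))) .nil))) (.nd (nat_lit 5) 
(.lf (nat_lit 2258) (.g (nat_lit 4636) (.e (nat_lit 232) (nat_lit 21) (.e (nat_lit 336013) (nat_lit 2) (.e (nat_lit 90170) (nat_lit 13) (.e (nat_lit 172110) (nat_lit 10) (.e (nat_lit 434247) (nat_lit 28) (.e (nat_lit 573478) (nat_lit 12) (.e (nat_lit 57574) (nat_lit 55) (.e (nat_lit 778361) (nat_lit 9) .nil)))))))) (.g (nat_lit 4) .nil .nil))) 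
(.lf (nat_lit 2290) (.g (nat_lit 5085) (.e (nat_lit 232) (nat_lit 21) (.e (nat_lit 336023) (nat_lit 3) (.e (nat_lit 98373) (nat_lit 29) (.e (nat_lit 450588) (nat_lit 10) (.e (nat_lit 573475) (nat_lit 12) (.e (nat_lit 57574) (nat_lit 55) (.e (nat_lit 778359) (nat_lit 9) .nil))))))) (.g (nat_lit 5) .nil .nil))))) (.nd (nat_lit 4) (.nd (nat_lit 5) 
(.lf (nat_lit 2250) (.g (nat_lit 5057) (.e (nat_lit 232) (nat_lit 21) (.e (nat_lit 336013) (nat_lit 2) (.e (nat_lit 90170) (nat_lit 13) (.e (nat_lit 172107) (nat_lit 10) (.e (nat_lit 434248) (nat_lit 28) (.e (nat_lit 573475) (nat_lit 12) (.e (nat_lit 57574) (nat_lit 55) (.e (nat_lit 778362) (nat_lit 9) .nil)))))))) (.g (nat_lit 5) .nil .nil))) 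
(.lf (nat_lit 2282) (.g (nat_lit 1740) (.e (nat_lit 232) (nat_lit 21) (.e (nat_lit 336023) (nat_lit 3) (.e (nat_lit 98372) (nat_lit 29) (.e (nat_lit 450586) (nat_lit 10) (.e (nat_lit 573477) (nat_lit 12) (.e (nat_lit 57574) (nat_lit 55) (.e (nat_lit 778359) (nat_lit 9) .nil))))))) (.g (nat_lit 4) .nil .nil)))) (.nd (nat_lit 5) 
(.lf (nat_lit 2266) (.g (nat_lit 4733) (.e (nat_lit 232) (nat_lit 21) (.e (nat_lit 336013) (nat_lit 2) (.e (nat_lit 90170) (nat_lit 13) (.e (nat_lit 172113) (nat_lit 10) (.e (nat_lit 434247) (nat_lit 28) (.e (nat_lit 573477) (nat_lit 12) (.e (nat_lit 57574) (nat_lit 55) (.e (nat_lit 778360) (nat_lit 9) .nil)))))))) (.g (nat_lit 0) .nil .nil))) 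
(.lf (nat_lit 2298) (.g (nat_lit 3739) (.e (nat_lit 232) (nat_lit 21) (.e (nat_lit 336028) (nat_lit 3) (.e (nat_lit 98372) (nat_lit 29) (.e (nat_lit 450586) (nat_lit 10) (.e (nat_lit 573477) (nat_lit 12) (.e (nat_lit 57574) (nat_lit 55) (.e (nat_lit 778361) (nat_lit 9) .nil))))))) (.g (nat_lit 0) .nil .nil)))))) (.nd (nat_lit 3) (.nd (nat_lit 4) (.nd (nat_lit 5) 
(.lf (nat_lit 2246) (.g (nat_lit 4502) (.e (nat_lit 232) (nat_lit 21) (.e (nat_lit 336013) (nat_lit 2) (.e (nat_lit 90170) (nat_lit 13) (.e (nat_lit 172107) (nat_lit 10) (.e (nat_lit 434245) (nat_lit 28) (.e (nat_lit 573474) (nat_lit 12) (.e (nat_lit 57574) (nat_lit 55) (.e (nat_lit 778359) (nat_lit 9) .nil)))))))) (.g (nat_lit 4) .nil .nil))) 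
(.lf (nat_lit 2278) (.g (nat_lit 2354) (.e (nat_lit 232) (nat_lit 21) (.e (nat_lit 336023) (nat_lit 3) (.e (nat_lit 98359) (nat_lit 26) (.e (nat_lit 426286) (nat_lit 10) (.e (nat_lit 434245) (nat_lit 28) (.e (nat_lit 573474) (nat_lit 12) (.e (nat_lit 57574) (nat_lit 55) (.e (nat_lit 778361) (nat_lit 9) .nil)))))))) (.g (nat_lit 4) .nil .nil)))) (.nd (nat_lit 5) 
(.lf (nat_lit 2262) (.g (nat_lit 2252) (.e (nat_lit 232) (nat_lit 21) (.e (nat_lit 336013) (nat_lit 2) (.e (nat_lit 90170) (nat_lit 13) (.e (nat_lit 172113) (nat_lit 10) (.e (nat_lit 434242) (nat_lit 28) (.e (nat_lit 573477) (nat_lit 12) (.e (nat_lit 57574) (nat_lit 55) (.e (nat_lit 778361) (nat_lit 9) .nil)))))))) (.g (nat_lit 4) .nil .nil))) 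
(.lf (nat_lit 2294) (.g (nat_lit 4517) (.e (nat_lit 232) (nat_lit 21) (.e (nat_lit 336028) (nat_lit 3) (.e (nat_lit 98359) (nat_lit 26) (.e (nat_lit 426286) (nat_lit 10) (.e (nat_lit 434247) (nat_lit 28) (.e (nat_lit 573477) (nat_lit 12) (.e (nat_lit 57574) (nat_lit 55) (.e (nat_lit 778361) (nat_lit 9) .nil)))))))) (.g (nat_lit 0) .nil .nil))))) (.nd (nat_lit 4) (.nd (nat_lit 5) 
(.lf (nat_lit 2254) (.g (nat_lit 4692) (.e (nat_lit 232) (nat_lit 21) (.e (nat_lit 336013) (nat_lit 2) (.e (nat_lit 90170) (nat_lit 13) (.e (nat_lit 172110) (nat_lit 10) (.e (nat_lit 434247) (nat_lit 28) (.e (nat_lit 573477) (nat_lit 12) (.e (nat_lit 57574) (nat_lit 55) (.e (nat_lit 778360) (nat_lit 9) .nil)))))))) (.g (nat_lit 5) .nil .nil))) 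
(.lf (nat_lit 2286) (.g (nat_lit 3705) (.e (nat_lit 232) (nat_lit 21) (.e (nat_lit 336023) (nat_lit 3) (.e (nat_lit 98373) (nat_lit 29) (.e (nat_lit 450587) (nat_lit 10) (.e (nat_lit 573477) (nat_lit 12) (.e (nat_lit 57574) (nat_lit 55) (.e (nat_lit 778359) (nat_lit 9) .nil))))))) (.g (nat_lit 4) .nil .nil)))) (.nd (nat_lit 5) 
(.lf (nat_lit 2270) (.g (nat_lit 4552) (.e (nat_lit 232) (nat_lit 21) (.e (nat_lit 336013) (nat_lit 2) (.e (nat_lit 90170) (nat_lit 13) (.e (nat_lit 172113) (nat_lit 10) (.e (nat_lit 434247) (nat_lit 28) (.e (nat_lit 573477) (nat_lit 12) (.e (nat_lit 57575) (nat_lit 55) (.e (nat_lit 778362) (nat_lit 9) .nil)))))))) (.g (nat_lit 7) .nil .nil))) 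
(.lf (nat_lit 2302) (.g (nat_lit 2259) (.e (nat_lit 232) (nat_lit 21) (.e (nat_lit 336028) (nat_lit 3) (.e (nat_lit 98372) (nat_lit 29) (.e (nat_lit 450587) (nat_lit 10) (.e (nat_lit 573478) (nat_lit 12) .nil))))) .nil))))))) (.nd (nat_lit 1) (.nd (nat_lit 2) (.nd (nat_lit 3) (.nd (nat_lit 4) (.nd (nat_lit 5) 
(.lf (nat_lit 2241) (.g (nat_lit 2773) (.e (nat_lit 232) (nat_lit 21) (.e (nat_lit 336013) (nat_lit 2) (.e (nat_lit 90170) (nat_lit 13) (.e (nat_lit 172106) (nat_lit 10) (.e (nat_lit 434248) (nat_lit 28) .nil))))) .nil)) 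
(.lf (nat_lit 2273) (.g (nat_lit 4179) (.e (nat_lit 232) (nat_lit 21) (.e (nat_lit 336013) (nat_lit 2) (.e (nat_lit 90178) (nat_lit 15) (.e (nat_lit 188440) (nat_lit 20) (.e (nat_lit 3307) (nat_lit 202) .nil))))) .nil))) (.nd (nat_lit 5) 
(.lf (nat_lit 2257) (.g (nat_lit 4576) (.e (nat_lit 232) (nat_lit 21) (.e (nat_lit 336013) (nat_lit 2) (.e (nat_lit 90170) (nat_lit 13) (.e (nat_lit 172110) (nat_lit 10) (.e (nat_lit 434247) (nat_lit 28) (.e (nat_lit 573477) (nat_lit 12) (.e (nat_lit 57575) (nat_lit 55) (.e (nat_lit 778361) (nat_lit 9) .nil)))))))) (.g (nat_lit 4) .nil .nil))) 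
(.lf (nat_lit 2289) (.g (nat_lit 3946) (.e (nat_lit 232) (nat_lit 21) (.e (nat_lit 336023) (nat_lit 3) (.e (nat_lit 98373) (nat_lit 29) (.e (nat_lit 450587) (nat_lit 10) (.e (nat_lit 573478) (nat_lit 12) (.e (nat_lit 57574) (nat_lit 55) (.e (nat_lit 778361) (nat_lit 9) .nil))))))) (.g (nat_lit 4) .nil .nil))))) (.nd (nat_lit 4) (.nd (nat_lit 5) 
(.lf (nat_lit 2249) (.g (nat_lit 4433) (.e (nat_lit 232) (nat_lit 21) (.e (nat_lit 336013) (nat_lit 2) (.e (nat_lit 90170) (nat_lit 13) (.e (nat_lit 172107) (nat_lit 10) (.e (nat_lit 434248) (nat_lit 28) (.e (nat_lit 573475) (nat_lit 12) (.e (nat_lit 57574) (nat_lit 55) (.e (nat_lit 778361) (nat_lit 9) .nil)))))))) (.g (nat_lit 4) .nil .nil))) 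
(.lf (nat_lit 2281) (.g (nat_lit 2896) (.e (nat_lit 232) (nat_lit 21) (.e (nat_lit 336023) (nat_lit 3) (.e (nat_lit 98372) (nat_lit 29) (.e (nat_lit 450586) (nat_lit 10) (.e (nat_lit 573475) (nat_lit 12) (.e (nat_lit 57574) (nat_lit 55) (.e (nat_lit 778361) (nat_lit 9) .nil))))))) (.g (nat_lit 5) .nil .nil)))) (.nd (nat_lit 5) 
(.lf (nat_lit 2265) (.g (nat_lit 4854) (.e (nat_lit 232) (nat_lit 21) (.e (nat_lit 336013) (nat_lit 2) (.e (nat_lit 90170) (nat_lit 13) (.e (nat_lit 172113) (nat_lit 10) (.e (nat_lit 434247) (nat_lit 28) (.e (nat_lit 573477) (nat_lit 12) (.e (nat_lit 57574) (nat_lit 55) (.e (nat_lit 778359) (nat_lit 9) .nil)))))))) (.g (nat_lit 0) .nil .nil))) 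
(.lf (nat_lit 2297) (.g (nat_lit 3233) (.e (nat_lit 232) (nat_lit 21) (.e (nat_lit 336028) (nat_lit 3) (.e (nat_lit 98372) (nat_lit 29) (.e (nat_lit 450586) (nat_lit 10) (.e (nat_lit 573477) (nat_lit 12) (.e (nat_lit 57574) (nat_lit 55) (.e (nat_lit 778360) (nat_lit 9) .nil))))))) (.g (nat_lit 7) .nil .nil)))))) (.nd (nat_lit 3) (.nd (nat_lit 4) (.nd (nat_lit 5) 
(.lf (nat_lit 2245) (.g (nat_lit 3695) (.e (nat_lit 232) (nat_lit 21) (.e (nat_lit 336013) (nat_lit 2) (.e (nat_lit 90170) (nat_lit 13) (.e (nat_lit 172107) (nat_lit 10) .nil)))) .nil)) 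
(.lf (nat_lit 2277) (.g (nat_lit 5035) (.e (nat_lit 232) (nat_lit 21) (.e (nat_lit 336022) (nat_lit 3) (.e (nat_lit 98373) (nat_lit 29) (.e (nat_lit 450588) (nat_lit 10) (.e (nat_lit 573475) (nat_lit 12) (.e (nat_lit 57574) (nat_lit 55) (.e (nat_lit 778362) (nat_lit 9) .nil))))))) (.g (nat_lit 5) .nil .nil)))) (.nd (nat_lit 5) 
(.lf (nat_lit 2261) (.g (nat_lit 1842) (.e (nat_lit 232) (nat_lit 21) (.e (nat_lit 336013) (nat_lit 2) (.e (nat_lit 90170) (nat_lit 13) (.e (nat_lit 172113) (nat_lit 10) (.e (nat_lit 434242) (nat_lit 28) .nil))))) .nil)) 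
(.lf (nat_lit 2293) (.g (nat_lit 3984) (.e (nat_lit 232) (nat_lit 21) (.e (nat_lit 336028) (nat_lit 3) (.e (nat_lit 98359) (nat_lit 26) (.e (nat_lit 426286) (nat_lit 10) (.e (nat_lit 434247) (nat_lit 28) (.e (nat_lit 573477) (nat_lit 12) (.e (nat_lit 57574) (nat_lit 55) (.e (nat_lit 778360) (nat_lit 9) .nil)))))))) (.g (nat_lit 8) .nil .nil))))) (.nd (nat_lit 4) (.nd (nat_lit 5) 
(.lf (nat_lit 2253) (.g (nat_lit 4813) (.e (nat_lit 232) (nat_lit 21) (.e (nat_lit 336013) (nat_lit 2) (.e (nat_lit 90170) (nat_lit 13) (.e (nat_lit 172110) (nat_lit 10) (.e (nat_lit 434247) (nat_lit 28) (.e (nat_lit 573477) (nat_lit 12) (.e (nat_lit 57574) (nat_lit 55) (.e (nat_lit 778359) (nat_lit 9) .nil)))))))) (.g (nat_lit 5) .nil .nil))) 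
(.lf (nat_lit 2285) (.g (nat_lit 2326) (.e (nat_lit 232) (nat_lit 21) (.e (nat_lit 336023) (nat_lit 3) (.e (nat_lit 98372) (nat_lit 29) (.e (nat_lit 450586) (nat_lit 10) (.e (nat_lit 573478) (nat_lit 12) (.e (nat_lit 57574) (nat_lit 55) (.e (nat_lit 778361) (nat_lit 9) .nil))))))) (.g (nat_lit 4) .nil .nil)))) (.nd (nat_lit 5) 
(.lf (nat_lit 2269) (.g (nat_lit 4573) (.e (nat_lit 232) (nat_lit 21) (.e (nat_lit 336013) (nat_lit 2) (.e (nat_lit 90170) (nat_lit 13) (.e (nat_lit 172113) (nat_lit 10) (.e (nat_lit 434247) (nat_lit 28) (.e (nat_lit 573477) (nat_lit 12) (.e (nat_lit 57575) (nat_lit 55) (.e (nat_lit 778361) (nat_lit 9) .nil)))))))) (.g (nat_lit 7) .nil .nil))) 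
(.lf (nat_lit 2301) (.g (nat_lit 2362) (.e (nat_lit 232) (nat_lit 21) (.e (nat_lit 336028) (nat_lit 3) (.e (nat_lit 98372) (nat_lit 29) (.e (nat_lit 450587) (nat_lit 10) (.e (nat_lit 573477) (nat_lit 12) (.e (nat_lit 57574) (nat_lit 55) (.e (nat_lit 778362) (nat_lit 9) .nil))))))) (.g (nat_lit 4) .nil .nil))))))) (.nd (nat_lit 2) (.nd (nat_lit 3) (.nd (nat_lit 4) (.nd (nat_lit 5) 
(.lf (nat_lit 2243) (.g (nat_lit 5064) (.e (nat_lit 232) (nat_lit 21) (.e (nat_lit 336013) (nat_lit 2) (.e (nat_lit 90170) (nat_lit 13) (.e (nat_lit 172106) (nat_lit 10) (.e (nat_lit 434248) (nat_lit 28) (.e (nat_lit 573475) (nat_lit 12) (.e (nat_lit 57574) (nat_lit 55) (.e (nat_lit 778360) (nat_lit 9) .nil)))))))) (.g (nat_lit 6) .nil .nil))) 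
(.lf (nat_lit 2275) (.g (nat_lit 1061) (.e (nat_lit 232) (nat_lit 21) (.e (nat_lit 336013) (nat_lit 2) (.e (nat_lit 90204) (nat_lit 22) .nil))) .nil))) (.nd (nat_lit 5) 
(.lf (nat_lit 2259) (.g (nat_lit 3718) (.e (nat_lit 232) (nat_lit 21) (.e (nat_lit 336013) (nat_lit 2) (.e (nat_lit 90170) (nat_lit 13) (.e (nat_lit 172112) (nat_lit 10) .nil)))) .nil)) 
(.lf (nat_lit 2291) (.g (nat_lit 5867) (.e (nat_lit 232) (nat_lit 21) (.e (nat_lit 336023) (nat_lit 3) (.e (nat_lit 98373) (nat_lit 29) (.e (nat_lit 450588) (nat_lit 10) (.e (nat_lit 573475) (nat_lit 12) (.e (nat_lit 57574) (nat_lit 55) (.e (nat_lit 778361) (nat_lit 9) .nil))))))) (.g (nat_lit 6) .nil .nil))))) (.nd (nat_lit 4) (.nd (nat_lit 5) 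
(.lf (nat_lit 2251) (.g (nat_lit 3659) (.e (nat_lit 232) (nat_lit 21) (.e (nat_lit 336013) (nat_lit 2) (.e (nat_lit 90170) (nat_lit 13) (.e (nat_lit 172109) (nat_lit 10) .nil)))) .nil)) 
(.lf (nat_lit 2283) (.g (nat_lit 1649) (.e (nat_lit 232) (nat_lit 21) (.e (nat_lit 336023) (nat_lit 3) (.e (nat_lit 98372) (nat_lit 29) (.e (nat_lit 450586) (nat_lit 10) (.e (nat_lit 573477) (nat_lit 12) (.e (nat_lit 57574) (nat_lit 55) (.e (nat_lit 778360) (nat_lit 9) .nil))))))) (.g (nat_lit 4) .nil .nil)))) (.nd (nat_lit 5) 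
(.lf (nat_lit 2267) (.g (nat_lit 5014) (.e (nat_lit 232) (nat_lit 21) (.e (nat_lit 336013) (nat_lit 2) (.e (nat_lit 90170) (nat_lit 13) (.e (nat_lit 172113) (nat_lit 10) (.e (nat_lit 434247) (nat_lit 28) (.e (nat_lit 573477) (nat_lit 12) (.e (nat_lit 57575) (nat_lit 55) (.e (nat_lit 778359) (nat_lit 9) .nil)))))))) (.g (nat_lit 7) .nil .nil))) 
(.lf (nat_lit 2299) (.g (nat_lit 3418) (.e (nat_lit 232) (nat_lit 21) (.e (nat_lit 336028) (nat_lit 3) (.e (nat_lit 98372) (nat_lit 29) (.e (nat_lit 450586) (nat_lit 10) (.e (nat_lit 573477) (nat_lit 12) (.e (nat_lit 57575) (nat_lit 55) (.e (nat_lit 778359) (nat_lit 9) .nil))))))) (.g (nat_lit 6) .nil .nil)))))) (.nd (nat_lit 3) (.nd (nat_lit 4) (.nd (nat_lit 5) 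
(.lf (nat_lit 2247) (.g (nat_lit 4114) (.e (nat_lit 232) (nat_lit 21) (.e (nat_lit 336013) (nat_lit 2) (.e (nat_lit 90170) (nat_lit 13) (.e (nat_lit 172107) (nat_lit 10) (.e (nat_lit 434247) (nat_lit 28) .nil))))) .nil)) 
(.lf (nat_lit 2279) (.g (nat_lit 2898) (.e (nat_lit 232) (nat_lit 21) (.e (nat_lit 336023) (nat_lit 3) (.e (nat_lit 98359) (nat_lit 26) (.e (nat_lit 426286) (nat_lit 10) (.e (nat_lit 434247) (nat_lit 28) (.e (nat_lit 573477) (nat_lit 12) (.e (nat_lit 57574) (nat_lit 55) (.e (nat_lit 778362) (nat_lit 9) .nil)))))))) (.g (nat_lit 5) .nil .nil)))) (.nd (nat_lit 5) 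
(.lf (nat_lit 2263) (.g (nat_lit 2080) (.e (nat_lit 232) (nat_lit 21) (.e (nat_lit 336013) (nat_lit 2) (.e (nat_lit 90170) (nat_lit 13) (.e (nat_lit 172113) (nat_lit 10) (.e (nat_lit 434242) (nat_lit 28) (.e (nat_lit 573477) (nat_lit 12) (.e (nat_lit 57575) (nat_lit 55) (.e (nat_lit 778359) (nat_lit 9) .nil)))))))) (.g (nat_lit 4) .nil .nil))) 
(.lf (nat_lit 2295) (.g (nat_lit 4371) (.e (nat_lit 232) (nat_lit 21) (.e (nat_lit 336028) (nat_lit 3) (.e (nat_lit 98359) (nat_lit 26) (.e (nat_lit 426286) (nat_lit 10) (.e (nat_lit 434247) (nat_lit 28) (.e (nat_lit 573477) (nat_lit 12) (.e (nat_lit 57575) (nat_lit 55) (.e (nat_lit 778359) (nat_lit 9) .nil)))))))) (.g (nat_lit 7) .nil .nil))))) (.nd (nat_lit 4) (.nd (nat_lit 5) 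
(.lf (nat_lit 2255) (.g (nat_lit 5242) (.e (nat_lit 232) (nat_lit 21) (.e (nat_lit 336013) (nat_lit 2) (.e (nat_lit 90170) (nat_lit 13) (.e (nat_lit 172110) (nat_lit 10) (.e (nat_lit 434247) (nat_lit 28) (.e (nat_lit 573477) (nat_lit 12) (.e (nat_lit 57574) (nat_lit 55) (.e (nat_lit 778361) (nat_lit 9) .nil)))))))) (.g (nat_lit 5) .nil .nil))) 
(.lf (nat_lit 2287) (.g (nat_lit 4436) (.e (nat_lit 232) (nat_lit 21) (.e (nat_lit 336023) (nat_lit 3) (.e (nat_lit 98373) (nat_lit 29) (.e (nat_lit 450587) (nat_lit 10) (.e (nat_lit 573477) (nat_lit 12) (.e (nat_lit 57574) (nat_lit 55) (.e (nat_lit 778361) (nat_lit 9) .nil))))))) (.g (nat_lit 5) .nil .nil)))) (.nd (nat_lit 5) 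
(.lf (nat_lit 2271) (.g (nat_lit 3714) (.e (nat_lit 232) (nat_lit 21) (.e (nat_lit 336013) (nat_lit 2) (.e (nat_lit 90170) (nat_lit 13) (.e (nat_lit 172115) (nat_lit 10) .nil)))) .nil)) 
(.lf (nat_lit 2303) (.g (nat_lit 4128) (.e (nat_lit 232) (nat_lit 21) (.e (nat_lit 336028) (nat_lit 3) (.e (nat_lit 98372) (nat_lit 29) (.e (nat_lit 450588) (nat_lit 10) (.e (nat_lit 573475) (nat_lit 12) (.e (nat_lit 57574) (nat_lit 55) (.e (nat_lit 778359) (nat_lit 9) .nil))))))) (.g (nat_lit 5) .nil .nil)))))))))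

noncomputable def tv031 : DT := (.nd (nat_lit 0) (.nd (nat_lit 1) (.nd (nat_lit 2) (.nd (nat_lit 3) (.nd (nat_lit 4) (.nd (nat_lit 5) 
(.lf (nat_lit 2304) (.g (nat_lit 4029) (.e (nat_lit 232) (nat_lit 21) (.e (nat_lit 336028) (nat_lit 3) (.e (nat_lit 98372) (nat_lit 29) (.e (nat_lit 450588) (nat_lit 10) (.e (nat_lit 573475) (nat_lit 12) (.e (nat_lit 57574) (nat_lit 55) (.e (nat_lit 778360) (nat_lit 9) .nil))))))) (.g (nat_lit 5) .nil .nil))) 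
(.lf (nat_lit 2336) (.g (nat_lit 3727) (.e (nat_lit 232) (nat_lit 21) (.e (nat_lit 336060) (nat_lit 7) (.e (nat_lit 319505) (nat_lit 10) (.e (nat_lit 618) (nat_lit 48) (.e (nat_lit 557098) (nat_lit 13) (.e (nat_lit 172119) (nat_lit 12) (.e (nat_lit 483072) (nat_lit 0) .nil))))))) (.g (nat_lit 6) .nil .nil)))) (.nd (nat_lit 5) 
(.lf (nat_lit 2320) (.g (nat_lit 2125) (.e (nat_lit 232) (nat_lit 21) (.e (nat_lit 336060) (nat_lit 7) (.e (nat_lit 319504) (nat_lit 10) (.e (nat_lit 720) (nat_lit 64) (.e (nat_lit 688186) (nat_lit 18) (.e (nat_lit 81965) (nat_lit 26) (.e (nat_lit 147463) (nat_lit 9) .nil))))))) (.g (nat_lit 5) .nil .nil))) 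
(.lf (nat_lit 2352) (.g (nat_lit 2484) (.e (nat_lit 232) (nat_lit 21) (.e (nat_lit 336060) (nat_lit 7) (.e (nat_lit 319505) (nat_lit 10) (.e (nat_lit 618) (nat_lit 48) (.e (nat_lit 557107) (nat_lit 15) (.e (nat_lit 188431) (nat_lit 20) (.e (nat_lit 3441) (nat_lit 215) (.e (nat_lit 679965) (nat_lit 13) .nil)))))))) (.g (nat_lit 4) .nil .nil))))) (.nd (nat_lit 4) (.nd (nat_lit 5) 
(.lf (nat_lit 2312) (.g (nat_lit 3423) (.e (nat_lit 232) (nat_lit 21) (.e (nat_lit 336028) (nat_lit 3) (.e (nat_lit 98373) (nat_lit 29) (.e (nat_lit 450587) (nat_lit 10) (.e (nat_lit 573477) (nat_lit 12) (.e (nat_lit 57575) (nat_lit 55) (.e (nat_lit 778361) (nat_lit 9) .nil))))))) (.g (nat_lit 5) .nil .nil))) 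
(.lf (nat_lit 2344) (.g (nat_lit 2157) (.e (nat_lit 232) (nat_lit 21) (.e (nat_lit 336060) (nat_lit 7) (.e (nat_lit 319505) (nat_lit 10) (.e (nat_lit 618) (nat_lit 48) (.e (nat_lit 557101) (nat_lit 13) (.e (nat_lit 172115) (nat_lit 10) (.e (nat_lit 434202) (nat_lit 18) (.e (nat_lit 5979) (nat_lit 326) (.e (nat_lit 2431) (nat_lit 157) .nil))))))))) (.g (nat_lit 4) .nil .nil)))) (.nd (nat_lit 5) 
(.lf (nat_lit 2328) (.g (nat_lit 2626) (.e (nat_lit 232) (nat_lit 21) (.e (nat_lit 336060) (nat_lit 7) (.e (nat_lit 319505) (nat_lit 10) (.e (nat_lit 584) (nat_lit 43) (.e (nat_lit 516117) (nat_lit 1) (.e (nat_lit 164398) (nat_lit 256) (.e (nat_lit 57390) (nat_lit 5) (.e (nat_lit 114715) (nat_lit 22) (.e (nat_lit 90121) (nat_lit 9) .nil))))))))) (.g (nat_lit 5) .nil .nil))) 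
(.lf (nat_lit 2360) (.g (nat_lit 3679) (.e (nat_lit 232) (nat_lit 21) (.e (nat_lit 336060) (nat_lit 7) (.e (nat_lit 319505) (nat_lit 10) (.e (nat_lit 618) (nat_lit 48) (.e (nat_lit 557109) (nat_lit 15) (.e (nat_lit 196352) (nat_lit 0) (.e (nat_lit 6628) (nat_lit 357) .nil))))))) (.g (nat_lit 5) .nil .nil)))))) (.nd (nat_lit 3) (.nd (nat_lit 4) (.nd (nat_lit 5) 
(.lf (nat_lit 2308) (.g (nat_lit 4002) (.e (nat_lit 232) (nat_lit 21) (.e (nat_lit 336028) (nat_lit 3) (.e (nat_lit 98373) (nat_lit 29) (.e (nat_lit 450587) (nat_lit 10) (.e (nat_lit 573477) (nat_lit 12) (.e (nat_lit 57574) (nat_lit 55) (.e (nat_lit 778359) (nat_lit 9) .nil))))))) (.g (nat_lit 7) .nil .nil))) 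
(.lf (nat_lit 2340) (.g (nat_lit 2199) (.e (nat_lit 232) (nat_lit 21) (.e (nat_lit 336060) (nat_lit 7) (.e (nat_lit 319505) (nat_lit 10) (.e (nat_lit 618) (nat_lit 48) (.e (nat_lit 557100) (nat_lit 13) (.e (nat_lit 172113) (nat_lit 10) (.e (nat_lit 434208) (nat_lit 18) (.e (nat_lit 5979) (nat_lit 326) (.e (nat_lit 2417) (nat_lit 157) .nil))))))))) (.g (nat_lit 4) .nil .nil)))) (.nd (nat_lit 5) 
(.lf (nat_lit 2324) (.g (nat_lit 2847) (.e (nat_lit 232) (nat_lit 21) (.e (nat_lit 336060) (nat_lit 7) (.e (nat_lit 319504) (nat_lit 10) (.e (nat_lit 804) (nat_lit 67) (.e (nat_lit 712752) (nat_lit 29) (.e (nat_lit 442424) (nat_lit 22) (.e (nat_lit 204544) (nat_lit 0) .nil))))))) (.g (nat_lit 6) .nil .nil))) 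
(.lf (nat_lit 2356) (.g (nat_lit 3561) (.e (nat_lit 232) (nat_lit 21) (.e (nat_lit 336060) (nat_lit 7) (.e (nat_lit 319505) (nat_lit 10) (.e (nat_lit 618) (nat_lit 48) (.e (nat_lit 557109) (nat_lit 15) (.e (nat_lit 188419) (nat_lit 0) (.e (nat_lit 7936) (nat_lit 357) .nil))))))) (.g (nat_lit 6) .nil .nil))))) (.nd (nat_lit 4) (.nd (nat_lit 5) 
(.lf (nat_lit 2316) (.g (nat_lit 932) (.e (nat_lit 232) (nat_lit 21) (.e (nat_lit 336060) (nat_lit 7) (.e (nat_lit 319503) (nat_lit 10) (.e (nat_lit 7936) (nat_lit 45) .nil)))) .nil)) 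
(.lf (nat_lit 2348) (.g (nat_lit 3019) (.e (nat_lit 232) (nat_lit 21) (.e (nat_lit 336060) (nat_lit 7) (.e (nat_lit 319505) (nat_lit 10) (.e (nat_lit 618) (nat_lit 48) (.e (nat_lit 557107) (nat_lit 15) (.e (nat_lit 188418) (nat_lit 0) (.e (nat_lit 7936) (nat_lit 357) .nil))))))) (.g (nat_lit 6) .nil .nil)))) (.nd (nat_lit 5) 
(.lf (nat_lit 2332) (.g (nat_lit 3064) (.e (nat_lit 232) (nat_lit 21) (.e (nat_lit 336060) (nat_lit 7) (.e (nat_lit 319505) (nat_lit 10) (.e (nat_lit 618) (nat_lit 48) (.e (nat_lit 557098) (nat_lit 13) (.e (nat_lit 172115) (nat_lit 10) (.e (nat_lit 434202) (nat_lit 18) (.e (nat_lit 5979) (nat_lit 326) (.e (nat_lit 2417) (nat_lit 157) .nil))))))))) (.g (nat_lit 5) .nil .nil))) 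
(.lf (nat_lit 2364) (.g (nat_lit 3796) (.e (nat_lit 232) (nat_lit 21) (.e (nat_lit 336060) (nat_lit 7) (.e (nat_lit 319505) (nat_lit 10) (.e (nat_lit 618) (nat_lit 48) (.e (nat_lit 557109) (nat_lit 15) (.e (nat_lit 188427) (nat_lit 20) (.e (nat_lit 3441) (nat_lit 215) (.e (nat_lit 679965) (nat_lit 13) .nil)))))))) (.g (nat_lit 6) .nil .nil))))))) 
(.nd (nat_lit 2) (.nd (nat_lit 3) (.nd (nat_lit 4) (.nd (nat_lit 5) 
(.lf (nat_lit 2306) (.g (nat_lit 5090) (.e (nat_lit 232) (nat_lit 21) (.e (nat_lit 336028) (nat_lit 3) (.e (nat_lit 98372) (nat_lit 29) (.e (nat_lit 450588) (nat_lit 10) (.e (nat_lit 573475) (nat_lit 12) (.e (nat_lit 57574) (nat_lit 55) (.e (nat_lit 778362) (nat_lit 9) .nil))))))) (.g (nat_lit 6) .nil .nil))) 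
(.lf (nat_lit 2338) (.g (nat_lit 2134) (.e (nat_lit 232) (nat_lit 21) (.e (nat_lit 336060) (nat_lit 7) (.e (nat_lit 319505) (nat_lit 10) (.e (nat_lit 618) (nat_lit 48) (.e (nat_lit 557100) (nat_lit 13) (.e (nat_lit 172106) (nat_lit 10) (.e (nat_lit 434202) (nat_lit 18) (.e (nat_lit 5979) (nat_lit 326) (.e (nat_lit 2417) (nat_lit 157) .nil))))))))) (.g (nat_lit 4) .nil .nil)))) (.nd (nat_lit 5) 
(.lf (nat_lit 2322) (.g (nat_lit 2449) (.e (nat_lit 232) (nat_lit 21) (.e (nat_lit 336060) (nat_lit 7) (.e (nat_lit 319504) (nat_lit 10) (.e (nat_lit 730) (nat_lit 66) (.e (nat_lit 704593) (nat_lit 4) (.e (nat_lit 172094) (nat_lit 9) (.e (nat_lit 426125) (nat_lit 2) (.e (nat_lit 204544) (nat_lit 0) .nil)))))))) (.g (nat_lit 6) .nil .nil))) 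
(.lf (nat_lit 2354) (.g (nat_lit 3499) (.e (nat_lit 232) (nat_lit 21) (.e (nat_lit 336060) (nat_lit 7) (.e (nat_lit 319505) (nat_lit 10) (.e (nat_lit 618) (nat_lit 48) (.e (nat_lit 557109) (nat_lit 15) (.e (nat_lit 188417) (nat_lit 0) (.e (nat_lit 7936) (nat_lit 357) .nil))))))) (.g (nat_lit 6) .nil .nil))))) (.nd (nat_lit 4) (.nd (nat_lit 5) 
(.lf (nat_lit 2314) (.g (nat_lit 518) (.e (nat_lit 232) (nat_lit 21) (.e (nat_lit 336060) (nat_lit 7) (.e (nat_lit 319500) (nat_lit 10) .nil))) .nil)) 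
(.lf (nat_lit 2346) (.g (nat_lit 2818) (.e (nat_lit 232) (nat_lit 21) (.e (nat_lit 336060) (nat_lit 7) (.e (nat_lit 319505) (nat_lit 10) (.e (nat_lit 618) (nat_lit 48) (.e (nat_lit 557107) (nat_lit 15) (.e (nat_lit 188416) (nat_lit 0) (.e (nat_lit 7936) (nat_lit 357) .nil))))))) (.g (nat_lit 5) .nil .nil)))) (.nd (nat_lit 5) 
(.lf (nat_lit 2330) (.g (nat_lit 2333) (.e (nat_lit 232) (nat_lit 21) (.e (nat_lit 336060) (nat_lit 7) (.e (nat_lit 319505) (nat_lit 10) (.e (nat_lit 584) (nat_lit 43) (.e (nat_lit 516117) (nat_lit 1) (.e (nat_lit 164399) (nat_lit 256) (.e (nat_lit 57390) (nat_lit 5) (.e (nat_lit 114715) (nat_lit 22) (.e (nat_lit 90121) (nat_lit 9) .nil))))))))) (.g (nat_lit 5) .nil .nil))) 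
(.lf (nat_lit 2362) (.g (nat_lit 3081) (.e (nat_lit 232) (nat_lit 21) (.e (nat_lit 336060) (nat_lit 7) (.e (nat_lit 319505) (nat_lit 10) (.e (nat_lit 618) (nat_lit 48) (.e (nat_lit 557109) (nat_lit 15) (.e (nat_lit 196352) (nat_lit 0) (.e (nat_lit 7936) (nat_lit 357) .nil))))))) (.g (nat_lit 5) .nil .nil)))))) (.nd (nat_lit 3) (.nd (nat_lit 4) (.nd (nat_lit 5) 
(.lf (nat_lit 2310) (.g (nat_lit 4432) (.e (nat_lit 232) (nat_lit 21) (.e (nat_lit 336028) (nat_lit 3) (.e (nat_lit 98373) (nat_lit 29) (.e (nat_lit 450587) (nat_lit 10) (.e (nat_lit 573477) (nat_lit 12) (.e (nat_lit 57574) (nat_lit 55) (.e (nat_lit 778361) (nat_lit 9) .nil))))))) (.g (nat_lit 0) .nil .nil))) 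
(.lf (nat_lit 2342) (.g (nat_lit 2786) (.e (nat_lit 232) (nat_lit 21) (.e (nat_lit 336060) (nat_lit 7) (.e (nat_lit 319505) (nat_lit 10) (.e (nat_lit 618) (nat_lit 48) (.e (nat_lit 557101) (nat_lit 13) (.e (nat_lit 172115) (nat_lit 10) (.e (nat_lit 434202) (nat_lit 18) (.e (nat_lit 5979) (nat_lit 326) (.e (nat_lit 2417) (nat_lit 157) .nil))))))))) (.g (nat_lit 5) .nil .nil)))) (.nd (nat_lit 5) 
(.lf (nat_lit 2326) (.g (nat_lit 202) (.e (nat_lit 232) (nat_lit 21) (.e (nat_lit 336060) (nat_lit 7) (.e (nat_lit 319505) (nat_lit 10) .nil))) .nil)) 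
(.lf (nat_lit 2358) (.g (nat_lit 2928) (.e (nat_lit 232) (nat_lit 21) (.e (nat_lit 336060) (nat_lit 7) (.e (nat_lit 319505) (nat_lit 10) (.e (nat_lit 618) (nat_lit 48) (.e (nat_lit 557109) (nat_lit 15) (.e (nat_lit 196352) (nat_lit 0) (.e (nat_lit 6617) (nat_lit 357) .nil))))))) (.g (nat_lit 5) .nil .nil))))) (.nd (nat_lit 4) (.nd (nat_lit 5) 
(.lf (nat_lit 2318) (.g (nat_lit 3417) (.e (nat_lit 232) (nat_lit 21) (.e (nat_lit 336060) (nat_lit 7) (.e (nat_lit 319504) (nat_lit 10) (.e (nat_lit 7936) (nat_lit 45) (.e (nat_lit 532550) (nat_lit 12) (.e (nat_lit 360474) (nat_lit 8) (.e (nat_lit 564992) (nat_lit 9) .nil))))))) (.g (nat_lit 6) .nil .nil))) 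
(.lf (nat_lit 2350) (.g (nat_lit 2004) (.e (nat_lit 232) (nat_lit 21) (.e (nat_lit 336060) (nat_lit 7) (.e (nat_lit 319505) (nat_lit 10) (.e (nat_lit 618) (nat_lit 48) (.e (nat_lit 557107) (nat_lit 15) (.e (nat_lit 196352) (nat_lit 0) (.e (nat_lit 6627) (nat_lit 357) .nil))))))) (.g (nat_lit 4) .nil .nil)))) (.nd (nat_lit 5) 
(.lf (nat_lit 2334) (.g (nat_lit 3206) (.e (nat_lit 232) (nat_lit 21) (.e (nat_lit 336060) (nat_lit 7) (.e (nat_lit 319505) (nat_lit 10) (.e (nat_lit 618) (nat_lit 48) (.e (nat_lit 557098) (nat_lit 13) (.e (nat_lit 172115) (nat_lit 10) (.e (nat_lit 434202) (nat_lit 18) (.e (nat_lit 5979) (nat_lit 326) (.e (nat_lit 2430) (nat_lit 157) .nil))))))))) (.g (nat_lit 5) .nil .nil))) 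
(.lf (nat_lit 2366) (.g (nat_lit 2429) (.e (nat_lit 232) (nat_lit 21) (.e (nat_lit 336060) (nat_lit 7) (.e (nat_lit 319505) (nat_lit 10) (.e (nat_lit 720) (nat_lit 64) (.e (nat_lit 688177) (nat_lit 16) (.e (nat_lit 65595) (nat_lit 9) (.e (nat_lit 336048) (nat_lit 6) (.e (nat_lit 147467) (nat_lit 9) .nil)))))))) (.g (nat_lit 5) .nil .nil)))))))) 
(.nd (nat_lit 1) (.nd (nat_lit 2) (.nd (nat_lit 3) (.nd (nat_lit 4) (.nd (nat_lit 5) 
(.lf (nat_lit 2305) (.g (nat_lit 4610) (.e (nat_lit 232) (nat_lit 21) (.e (nat_lit 336028) (nat_lit 3) (.e (nat_lit 98372) (nat_lit 29) (.e (nat_lit 450588) (nat_lit 10) (.e (nat_lit 573475) (nat_lit 12) (.e (nat_lit 57574) (nat_lit 55) (.e (nat_lit 778361) (nat_lit 9) .nil))))))) (.g (nat_lit 6) .nil .nil))) 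
(.lf (nat_lit 2337) (.g (nat_lit 4490) (.e (nat_lit 232) (nat_lit 21) (.e (nat_lit 336060) (nat_lit 7) (.e (nat_lit 319505) (nat_lit 10) (.e (nat_lit 618) (nat_lit 48) (.e (nat_lit 557098) (nat_lit 13) (.e (nat_lit 172120) (nat_lit 12) (.e (nat_lit 483072) (nat_lit 0) .nil))))))) (.g (nat_lit 6) .nil .nil)))) (.nd (nat_lit 5) 
(.lf (nat_lit 2321) (.g (nat_lit 2208) (.e (nat_lit 232) (nat_lit 21) (.e (nat_lit 336060) (nat_lit 7) (.e (nat_lit 319504) (nat_lit 10) (.e (nat_lit 720) (nat_lit 64) (.e (nat_lit 688186) (nat_lit 18) (.e (nat_lit 81965) (nat_lit 26) (.e (nat_lit 147467) (nat_lit 9) .nil))))))) (.g (nat_lit 5) .nil .nil))) 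
(.lf (nat_lit 2353) (.g (nat_lit 3062) (.e (nat_lit 232) (nat_lit 21) (.e (nat_lit 336060) (nat_lit 7) (.e (nat_lit 319505) (nat_lit 10) (.e (nat_lit 618) (nat_lit 48) (.e (nat_lit 557109) (nat_lit 15) (.e (nat_lit 188416) (nat_lit 0) (.e (nat_lit 7936) (nat_lit 357) .nil))))))) (.g (nat_lit 5) .nil .nil))))) (.nd (nat_lit 4) (.nd (nat_lit 5) 
(.lf (nat_lit 2313) (.g (nat_lit 4479) (.e (nat_lit 232) (nat_lit 21) (.e (nat_lit 336028) (nat_lit 3) (.e (nat_lit 98373) (nat_lit 29) (.e (nat_lit 450588) (nat_lit 10) (.e (nat_lit 573475) (nat_lit 12) (.e (nat_lit 57574) (nat_lit 55) (.e (nat_lit 778359) (nat_lit 9) .nil))))))) (.g (nat_lit 0) .nil .nil))) 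
(.lf (nat_lit 2345) (.g (nat_lit 2995) (.e (nat_lit 232) (nat_lit 21) (.e (nat_lit 336060) (nat_lit 7) (.e (nat_lit 319505) (nat_lit 10) (.e (nat_lit 618) (nat_lit 48) (.e (nat_lit 557101) (nat_lit 13) (.e (nat_lit 172119) (nat_lit 12) (.e (nat_lit 483072) (nat_lit 0) .nil))))))) (.g (nat_lit 6) .nil .nil)))) (.nd (nat_lit 5) 
(.lf (nat_lit 2329) (.g (nat_lit 2754) (.e (nat_lit 232) (nat_lit 21) (.e (nat_lit 336060) (nat_lit 7) (.e (nat_lit 319505) (nat_lit 10) (.e (nat_lit 584) (nat_lit 43) (.e (nat_lit 516117) (nat_lit 1) (.e (nat_lit 164398) (nat_lit 256) (.e (nat_lit 57390) (nat_lit 5) (.e (nat_lit 114716) (nat_lit 22) (.e (nat_lit 90128) (nat_lit 9) .nil))))))))) (.g (nat_lit 5) .nil .nil))) 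
(.lf (nat_lit 2361) (.g (nat_lit 3268) (.e (nat_lit 232) (nat_lit 21) (.e (nat_lit 336060) (nat_lit 7) (.e (nat_lit 319505) (nat_lit 10) (.e (nat_lit 618) (nat_lit 48) (.e (nat_lit 557109) (nat_lit 15) (.e (nat_lit 196352) (nat_lit 0) (.e (nat_lit 6636) (nat_lit 357) .nil))))))) (.g (nat_lit 5) .nil .nil)))))) (.nd (nat_lit 3) (.nd (nat_lit 4) (.nd (nat_lit 5) 
(.lf (nat_lit 2309) (.g (nat_lit 3893) (.e (nat_lit 232) (nat_lit 21) (.e (nat_lit 336028) (nat_lit 3) (.e (nat_lit 98373) (nat_lit 29) (.e (nat_lit 450587) (nat_lit 10) (.e (nat_lit 573477) (nat_lit 12) (.e (nat_lit 57574) (nat_lit 55) (.e (nat_lit 778360) (nat_lit 9) .nil))))))) (.g (nat_lit 7) .nil .nil))) 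
(.lf (nat_lit 2341) (.g (nat_lit 2341) (.e (nat_lit 232) (nat_lit 21) (.e (nat_lit 336060) (nat_lit 7) (.e (nat_lit 319505) (nat_lit 10) (.e (nat_lit 618) (nat_lit 48) (.e (nat_lit 557100) (nat_lit 13) (.e (nat_lit 172113) (nat_lit 10) (.e (nat_lit 434208) (nat_lit 18) (.e (nat_lit 5979) (nat_lit 326) (.e (nat_lit 2430) (nat_lit 157) .nil))))))))) (.g (nat_lit 4) .nil .nil)))) (.nd (nat_lit 5) 
(.lf (nat_lit 2325) (.g (nat_lit 3394) (.e (nat_lit 232) (nat_lit 21) (.e (nat_lit 336060) (nat_lit 7) (.e (nat_lit 319504) (nat_lit 10) (.e (nat_lit 806) (nat_lit 67) (.e (nat_lit 712752) (nat_lit 29) (.e (nat_lit 442424) (nat_lit 22) (.e (nat_lit 204544) (nat_lit 0) .nil))))))) (.g (nat_lit 6) .nil .nil))) 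
(.lf (nat_lit 2357) (.g (nat_lit 3542) (.e (nat_lit 232) (nat_lit 21) (.e (nat_lit 336060) (nat_lit 7) (.e (nat_lit 319505) (nat_lit 10) (.e (nat_lit 618) (nat_lit 48) (.e (nat_lit 557109) (nat_lit 15) (.e (nat_lit 196352) (nat_lit 0) (.e (nat_lit 6616) (nat_lit 357) .nil))))))) (.g (nat_lit 5) .nil .nil))))) (.nd (nat_lit 4) (.nd (nat_lit 5) 
(.lf (nat_lit 2317) (.g (nat_lit 711) (.e (nat_lit 232) (nat_lit 21) (.e (nat_lit 336060) (nat_lit 7) (.e (nat_lit 319504) (nat_lit 10) (.e (nat_lit 531) (nat_lit 41) .nil)))) .nil)) 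
(.lf (nat_lit 2349) (.g (nat_lit 2789) (.e (nat_lit 232) (nat_lit 21) (.e (nat_lit 336060) (nat_lit 7) (.e (nat_lit 319505) (nat_lit 10) (.e (nat_lit 618) (nat_lit 48) (.e (nat_lit 557107) (nat_lit 15) (.e (nat_lit 188420) (nat_lit 0) (.e (nat_lit 7936) (nat_lit 357) .nil))))))) (.g (nat_lit 6) .nil .nil)))) (.nd (nat_lit 5) 
(.lf (nat_lit 2333) (.g (nat_lit 2502) (.e (nat_lit 232) (nat_lit 21) (.e (nat_lit 336060) (nat_lit 7) (.e (nat_lit 319505) (nat_lit 10) (.e (nat_lit 618) (nat_lit 48) (.e (nat_lit 557098) (nat_lit 13) (.e (nat_lit 172115) (nat_lit 10) (.e (nat_lit 434202) (nat_lit 18) (.e (nat_lit 5979) (nat_lit 326) (.e (nat_lit 2418) (nat_lit 157) .nil))))))))) (.g (nat_lit 4) .nil .nil))) 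
(.lf (nat_lit 2365) (.g (nat_lit 3834) (.e (nat_lit 232) (nat_lit 21) (.e (nat_lit 336060) (nat_lit 7) (.e (nat_lit 319505) (nat_lit 10) (.e (nat_lit 618) (nat_lit 48) (.e (nat_lit 557109) (nat_lit 15) (.e (nat_lit 188455) (nat_lit 24) (.e (nat_lit 229542) (nat_lit 146) (.e (nat_lit 2416) (nat_lit 157) .nil)))))))) (.g (nat_lit 6) .nil .nil))))))) 
(.nd (nat_lit 2) (.nd (nat_lit 3) (.nd (nat_lit 4) (.nd (nat_lit 5) 
(.lf (nat_lit 2307) (.g (nat_lit 1311) (.e (nat_lit 232) (nat_lit 21) (.e (nat_lit 336028) (nat_lit 3) (.e (nat_lit 98373) (nat_lit 29) (.e (nat_lit 450586) (nat_lit 10) .nil)))) .nil)) 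
(.lf (nat_lit 2339) (.g (nat_lit 2276) (.e (nat_lit 232) (nat_lit 21) (.e (nat_lit 336060) (nat_lit 7) (.e (nat_lit 319505) (nat_lit 10) (.e (nat_lit 618) (nat_lit 48) (.e (nat_lit 557100) (nat_lit 13) (.e (nat_lit 172106) (nat_lit 10) (.e (nat_lit 434202) (nat_lit 18) (.e (nat_lit 5979) (nat_lit 326) (.e (nat_lit 2430) (nat_lit 157) .nil))))))))) (.g (nat_lit 4) .nil .nil)))) (.nd (nat_lit 5) 
(.lf (nat_lit 2323) (.g (nat_lit 1952) (.e (nat_lit 232) (nat_lit 21) (.e (nat_lit 336060) (nat_lit 7) (.e (nat_lit 319504) (nat_lit 10) (.e (nat_lit 730) (nat_lit 66) (.e (nat_lit 704599) (nat_lit 6) (.e (nat_lit 188449) (nat_lit 22) (.e (nat_lit 204544) (nat_lit 0) .nil))))))) (.g (nat_lit 4) .nil .nil))) 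
(.lf (nat_lit 2355) (.g (nat_lit 3727) (.e (nat_lit 232) (nat_lit 21) (.e (nat_lit 336060) (nat_lit 7) (.e (nat_lit 319505) (nat_lit 10) (.e (nat_lit 618) (nat_lit 48) (.e (nat_lit 557109) (nat_lit 15) (.e (nat_lit 188418) (nat_lit 0) (.e (nat_lit 7936) (nat_lit 357) .nil))))))) (.g (nat_lit 6) .nil .nil))))) (.nd (nat_lit 4) (.nd (nat_lit 5) 
(.lf (nat_lit 2315) (.g (nat_lit 2392) (.e (nat_lit 232) (nat_lit 21) (.e (nat_lit 336060) (nat_lit 7) (.e (nat_lit 319500) (nat_lit 10) (.e (nat_lit 806) (nat_lit 67) (.e (nat_lit 712752) (nat_lit 29) (.e (nat_lit 442424) (nat_lit 22) (.e (nat_lit 204544) (nat_lit 0) .nil))))))) (.g (nat_lit 4) .nil .nil))) 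
(.lf (nat_lit 2347) (.g (nat_lit 3037) (.e (nat_lit 232) (nat_lit 21) (.e (nat_lit 336060) (nat_lit 7) (.e (nat_lit 319505) (nat_lit 10) (.e (nat_lit 618) (nat_lit 48) (.e (nat_lit 557107) (nat_lit 15) (.e (nat_lit 188417) (nat_lit 0) (.e (nat_lit 7936) (nat_lit 357) .nil))))))) (.g (nat_lit 6) .nil .nil)))) (.nd (nat_lit 5) 
(.lf (nat_lit 2331) (.g (nat_lit 3156) (.e (nat_lit 232) (nat_lit 21) (.e (nat_lit 336060) (nat_lit 7) (.e (nat_lit 319505) (nat_lit 10) (.e (nat_lit 584) (nat_lit 43) (.e (nat_lit 516119) (nat_lit 1) (.e (nat_lit 164403) (nat_lit 256) (.e (nat_lit 57389) (nat_lit 5) (.e (nat_lit 114715) (nat_lit 22) (.e (nat_lit 90121) (nat_lit 9) .nil))))))))) (.g (nat_lit 6) .nil .nil))) 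
(.lf (nat_lit 2363) (.g (nat_lit 3057) (.e (nat_lit 232) (nat_lit 21) (.e (nat_lit 336060) (nat_lit 7) (.e (nat_lit 319505) (nat_lit 10) (.e (nat_lit 618) (nat_lit 48) (.e (nat_lit 557109) (nat_lit 15) (.e (nat_lit 188425) (nat_lit 20) (.e (nat_lit 3441) (nat_lit 215) (.e (nat_lit 679965) (nat_lit 13) .nil)))))))) (.g (nat_lit 5) .nil .nil)))))) (.nd (nat_lit 3) (.nd (nat_lit 4) (.nd (nat_lit 5) 
(.lf (nat_lit 2311) (.g (nat_lit 3837) (.e (nat_lit 232) (nat_lit 21) (.e (nat_lit 336028) (nat_lit 3) (.e (nat_lit 98373) (nat_lit 29) (.e (nat_lit 450587) (nat_lit 10) (.e (nat_lit 573477) (nat_lit 12) (.e (nat_lit 57575) (nat_lit 55) (.e (nat_lit 778359) (nat_lit 9) .nil))))))) (.g (nat_lit 6) .nil .nil))) 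
(.lf (nat_lit 2343) (.g (nat_lit 2224) (.e (nat_lit 232) (nat_lit 21) (.e (nat_lit 336060) (nat_lit 7) (.e (nat_lit 319505) (nat_lit 10) (.e (nat_lit 618) (nat_lit 48) (.e (nat_lit 557101) (nat_lit 13) (.e (nat_lit 172115) (nat_lit 10) (.e (nat_lit 434202) (nat_lit 18) (.e (nat_lit 5979) (nat_lit 326) (.e (nat_lit 2418) (nat_lit 157) .nil))))))))) (.g (nat_lit 4) .nil .nil)))) (.nd (nat_lit 5) 
(.lf (nat_lit 2327) (.g (nat_lit 2912) (.e (nat_lit 232) (nat_lit 21) (.e (nat_lit 336060) (nat_lit 7) (.e (nat_lit 319505) (nat_lit 10) (.e (nat_lit 584) (nat_lit 43) (.e (nat_lit 516115) (nat_lit 1) (.e (nat_lit 164399) (nat_lit 256) (.e (nat_lit 57390) (nat_lit 5) (.e (nat_lit 114715) (nat_lit 22) (.e (nat_lit 90121) (nat_lit 9) .nil))))))))) (.g (nat_lit 6) .nil .nil))) 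
(.lf (nat_lit 2359) (.g (nat_lit 3654) (.e (nat_lit 232) (nat_lit 21) (.e (nat_lit 336060) (nat_lit 7) (.e (nat_lit 319505) (nat_lit 10) (.e (nat_lit 618) (nat_lit 48) (.e (nat_lit 557109) (nat_lit 15) (.e (nat_lit 196352) (nat_lit 0) (.e (nat_lit 6627) (nat_lit 357) .nil))))))) (.g (nat_lit 5) .nil .nil))))) (.nd (nat_lit 4) (.nd (nat_lit 5) 
(.lf (nat_lit 2319) (.g (nat_lit 1688) (.e (nat_lit 232) (nat_lit 21) (.e (nat_lit 336060) (nat_lit 7) (.e (nat_lit 319504) (nat_lit 10) (.e (nat_lit 7936) (nat_lit 45) (.e (nat_lit 532550) (nat_lit 12) (.e (nat_lit 360475) (nat_lit 8) (.e (nat_lit 564992) (nat_lit 9) .nil))))))) (.g (nat_lit 6) .nil .nil))) 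
(.lf (nat_lit 2351) (.g (nat_lit 2202) (.e (nat_lit 232) (nat_lit 21) (.e (nat_lit 336060) (nat_lit 7) (.e (nat_lit 319505) (nat_lit 10) (.e (nat_lit 618) (nat_lit 48) (.e (nat_lit 557107) (nat_lit 15) (.e (nat_lit 196352) (nat_lit 0) (.e (nat_lit 6628) (nat_lit 357) .nil))))))) (.g (nat_lit 4) .nil .nil)))) (.nd (nat_lit 5) 
(.lf (nat_lit 2335) (.g (nat_lit 4007) (.e (nat_lit 232) (nat_lit 21) (.e (nat_lit 336060) (nat_lit 7) (.e (nat_lit 319505) (nat_lit 10) (.e (nat_lit 618) (nat_lit 48) (.e (nat_lit 557098) (nat_lit 13) (.e (nat_lit 172118) (nat_lit 12) (.e (nat_lit 483072) (nat_lit 0) .nil))))))) (.g (nat_lit 6) .nil .nil))) 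
(.lf (nat_lit 2367) (.g (nat_lit 3010) (.e (nat_lit 232) (nat_lit 21) (.e (nat_lit 336060) (nat_lit 7) (.e (nat_lit 319505) (nat_lit 10) (.e (nat_lit 720) (nat_lit 64) (.e (nat_lit 688177) (nat_lit 16) (.e (nat_lit 73472) (nat_lit 9) (.e (nat_lit 336051) (nat_lit 6) (.e (nat_lit 147466) (nat_lit 9) .nil)))))))) (.g (nat_lit 5) .nil .nil)))))))))

noncomputable def tv032 : DT := (.nd (nat_lit 0) (.nd (nat_lit 1) (.nd (nat_lit 2) (.nd (nat_lit 3) (.nd (nat_lit 4) (.nd (nat_lit 5) 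
(.lf (nat_lit 2368) (.g (nat_lit 2058) (.e (nat_lit 232) (nat_lit 21) (.e (nat_lit 336060) (nat_lit 7) (.e (nat_lit 319505) (nat_lit 10) (.e (nat_lit 720) (nat_lit 64) (.e (nat_lit 688178) (nat_lit 16) (.e (nat_lit 65604) (nat_lit 9) (.e (nat_lit 336048) (nat_lit 6) (.e (nat_lit 147467) (nat_lit 9) .nil)))))))) (.g (nat_lit 4) .nil .nil))) 
(.lf (nat_lit 2400) (.g (nat_lit 3916) (.e (nat_lit 232) (nat_lit 21) (.e (nat_lit 336060) (nat_lit 7) (.e (nat_lit 319531) (nat_lit 16) (.e (nat_lit 286748) (nat_lit 9) (.e (nat_lit 336295) (nat_lit 15) (.e (nat_lit 3806) (nat_lit 231) (.e (nat_lit 811045) (nat_lit 14) (.e (nat_lit 40972) (nat_lit 9) .nil)))))))) (.g (nat_lit 5) .nil .nil)))) (.nd (nat_lit 5) 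
(.lf (nat_lit 2384) (.g (nat_lit 3282) (.e (nat_lit 232) (nat_lit 21) (.e (nat_lit 336060) (nat_lit 7) (.e (nat_lit 319517) (nat_lit 12) (.e (nat_lit 32787) (nat_lit 9) (.e (nat_lit 65610) (nat_lit 10) (.e (nat_lit 344129) (nat_lit 26) (.e (nat_lit 557066) (nat_lit 9) .nil))))))) (.g (nat_lit 6) .nil .nil))) 
(.lf (nat_lit 2416) (.g (nat_lit 2903) (.e (nat_lit 232) (nat_lit 21) (.e (nat_lit 336060) (nat_lit 7) (.e (nat_lit 319533) (nat_lit 16) (.e (nat_lit 286753) (nat_lit 10) (.e (nat_lit 344160) (nat_lit 37) (.e (nat_lit 647190) (nat_lit 9) (.e (nat_lit 1310) (nat_lit 98) (.e (nat_lit 147465) (nat_lit 9) .nil)))))))) (.g (nat_lit 5) .nil .nil))))) (.nd (nat_lit 4) (.nd (nat_lit 5) 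
(.lf (nat_lit 2376) (.g (nat_lit 3027) (.e (nat_lit 232) (nat_lit 21) (.e (nat_lit 336060) (nat_lit 7) (.e (nat_lit 319505) (nat_lit 10) (.e (nat_lit 720) (nat_lit 64) (.e (nat_lit 688186) (nat_lit 18) (.e (nat_lit 81965) (nat_lit 26) (.e (nat_lit 147466) (nat_lit 9) .nil))))))) (.g (nat_lit 6) .nil .nil))) 
(.lf (nat_lit 2408) (.g (nat_lit 1620) (.e (nat_lit 232) (nat_lit 21) (.e (nat_lit 336060) (nat_lit 7) (.e (nat_lit 319533) (nat_lit 16) (.e (nat_lit 286753) (nat_lit 10) (.e (nat_lit 344097) (nat_lit 18) (.e (nat_lit 5195) (nat_lit 294) (.e (nat_lit 57367) (nat_lit 1) (.e (nat_lit 57872) (nat_lit 264) (.e (nat_lit 7936) (nat_lit 157) .nil))))))))) (.g (nat_lit 4) .nil .nil)))) (.nd (nat_lit 5) 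
(.lf (nat_lit 2392) (.g (nat_lit 2911) (.e (nat_lit 232) (nat_lit 21) (.e (nat_lit 336060) (nat_lit 7) (.e (nat_lit 319519) (nat_lit 12) (.e (nat_lit 32787) (nat_lit 9) (.e (nat_lit 65619) (nat_lit 10) (.e (nat_lit 344129) (nat_lit 26) (.e (nat_lit 557066) (nat_lit 9) .nil))))))) (.g (nat_lit 6) .nil .nil))) 
(.lf (nat_lit 2424) (.g (nat_lit 3260) (.e (nat_lit 232) (nat_lit 21) (.e (nat_lit 336060) (nat_lit 7) (.e (nat_lit 319533) (nat_lit 16) (.e (nat_lit 286753) (nat_lit 10) (.e (nat_lit 344160) (nat_lit 37) (.e (nat_lit 647190) (nat_lit 9) (.e (nat_lit 1312) (nat_lit 98) (.e (nat_lit 147465) (nat_lit 9) .nil)))))))) (.g (nat_lit 6) .nil .nil)))))) (.nd (nat_lit 3) (.nd (nat_lit 4) (.nd (nat_lit 5) 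
(.lf (nat_lit 2372) (.g (nat_lit 2569) (.e (nat_lit 232) (nat_lit 21) (.e (nat_lit 336060) (nat_lit 7) (.e (nat_lit 319505) (nat_lit 10) (.e (nat_lit 720) (nat_lit 64) (.e (nat_lit 688185) (nat_lit 18) (.e (nat_lit 81965) (nat_lit 26) (.e (nat_lit 147463) (nat_lit 9) .nil))))))) (.g (nat_lit 5) .nil .nil))) 
(.lf (nat_lit 2404) (.g (nat_lit 2756) (.e (nat_lit 232) (nat_lit 21) (.e (nat_lit 336060) (nat_lit 7) (.e (nat_lit 319531) (nat_lit 16) (.e (nat_lit 286759) (nat_lit 12) (.e (nat_lit 385115) (nat_lit 53) (.e (nat_lit 811045) (nat_lit 14) (.e (nat_lit 40972) (nat_lit 9) .nil))))))) (.g (nat_lit 4) .nil .nil)))) (.nd (nat_lit 5) 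
(.lf (nat_lit 2388) (.g (nat_lit 1963) (.e (nat_lit 232) (nat_lit 21) (.e (nat_lit 336060) (nat_lit 7) (.e (nat_lit 319518) (nat_lit 12) (.e (nat_lit 32787) (nat_lit 9) (.e (nat_lit 65617) (nat_lit 10) (.e (nat_lit 344130) (nat_lit 26) (.e (nat_lit 557066) (nat_lit 9) .nil))))))) (.g (nat_lit 4) .nil .nil))) 
(.lf (nat_lit 2420) (.g (nat_lit 3552) (.e (nat_lit 232) (nat_lit 21) (.e (nat_lit 336060) (nat_lit 7) (.e (nat_lit 319533) (nat_lit 16) (.e (nat_lit 286753) (nat_lit 10) (.e (nat_lit 344160) (nat_lit 37) (.e (nat_lit 647190) (nat_lit 9) (.e (nat_lit 1311) (nat_lit 98) (.e (nat_lit 147466) (nat_lit 9) .nil)))))))) (.g (nat_lit 6) .nil .nil))))) (.nd (nat_lit 4) (.nd (nat_lit 5) 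
(.lf (nat_lit 2380) (.g (nat_lit 3263) (.e (nat_lit 232) (nat_lit 21) (.e (nat_lit 336060) (nat_lit 7) (.e (nat_lit 319505) (nat_lit 10) (.e (nat_lit 804) (nat_lit 67) (.e (nat_lit 712752) (nat_lit 29) (.e (nat_lit 442424) (nat_lit 22) (.e (nat_lit 204544) (nat_lit 0) .nil))))))) (.g (nat_lit 6) .nil .nil))) 
(.lf (nat_lit 2412) (.g (nat_lit 2110) (.e (nat_lit 232) (nat_lit 21) (.e (nat_lit 336060) (nat_lit 7) (.e (nat_lit 319533) (nat_lit 16) (.e (nat_lit 286753) (nat_lit 10) (.e (nat_lit 344160) (nat_lit 37) (.e (nat_lit 647190) (nat_lit 9) (.e (nat_lit 984) (nat_lit 81) (.e (nat_lit 2289) (nat_lit 151) (.e (nat_lit 778367) (nat_lit 9) .nil))))))))) (.g (nat_lit 4) .nil .nil)))) (.nd (nat_lit 5) 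
(.lf (nat_lit 2396) (.g (nat_lit 2233) (.e (nat_lit 232) (nat_lit 21) (.e (nat_lit 336060) (nat_lit 7) (.e (nat_lit 319528) (nat_lit 16) (.e (nat_lit 286759) (nat_lit 12) (.e (nat_lit 385115) (nat_lit 53) (.e (nat_lit 811045) (nat_lit 14) (.e (nat_lit 40972) (nat_lit 9) .nil))))))) (.g (nat_lit 4) .nil .nil))) 
(.lf (nat_lit 2428) (.g (nat_lit 2255) (.e (nat_lit 232) (nat_lit 21) (.e (nat_lit 336060) (nat_lit 7) (.e (nat_lit 319533) (nat_lit 16) (.e (nat_lit 286753) (nat_lit 10) (.e (nat_lit 344160) (nat_lit 37) (.e (nat_lit 647195) (nat_lit 9) (.e (nat_lit 1008) (nat_lit 81) (.e (nat_lit 2328) (nat_lit 151) (.e (nat_lit 778360) (nat_lit 9) .nil))))))))) (.g (nat_lit 4) .nil .nil))))))) 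
(.nd (nat_lit 2) (.nd (nat_lit 3) (.nd (nat_lit 4) (.nd (nat_lit 5) 
(.lf (nat_lit 2370) (.g (nat_lit 1852) (.e (nat_lit 232) (nat_lit 21) (.e (nat_lit 336060) (nat_lit 7) (.e (nat_lit 319505) (nat_lit 10) (.e (nat_lit 720) (nat_lit 64) (.e (nat_lit 688184) (nat_lit 18) (.e (nat_lit 81963) (nat_lit 26) (.e (nat_lit 147466) (nat_lit 9) .nil))))))) (.g (nat_lit 4) .nil .nil))) 
(.lf (nat_lit 2402) (.g (nat_lit 2115) (.e (nat_lit 232) (nat_lit 21) (.e (nat_lit 336060) (nat_lit 7) (.e (nat_lit 319531) (nat_lit 16) (.e (nat_lit 286759) (nat_lit 12) (.e (nat_lit 385113) (nat_lit 53) .nil))))) .nil))) (.nd (nat_lit 5) 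
(.lf (nat_lit 2386) (.g (nat_lit 2931) (.e (nat_lit 232) (nat_lit 21) (.e (nat_lit 336060) (nat_lit 7) (.e (nat_lit 319517) (nat_lit 12) (.e (nat_lit 32787) (nat_lit 9) (.e (nat_lit 65619) (nat_lit 10) (.e (nat_lit 344129) (nat_lit 26) (.e (nat_lit 557066) (nat_lit 9) .nil))))))) (.g (nat_lit 6) .nil .nil))) 
(.lf (nat_lit 2418) (.g (nat_lit 3495) (.e (nat_lit 232) (nat_lit 21) (.e (nat_lit 336060) (nat_lit 7) (.e (nat_lit 319533) (nat_lit 16) (.e (nat_lit 286753) (nat_lit 10) (.e (nat_lit 344160) (nat_lit 37) (.e (nat_lit 647190) (nat_lit 9) (.e (nat_lit 1310) (nat_lit 98) (.e (nat_lit 147467) (nat_lit 9) .nil)))))))) (.g (nat_lit 6) .nil .nil))))) (.nd (nat_lit 4) (.nd (nat_lit 5) 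
(.lf (nat_lit 2378) (.g (nat_lit 2713) (.e (nat_lit 232) (nat_lit 21) (.e (nat_lit 336060) (nat_lit 7) (.e (nat_lit 319505) (nat_lit 10) (.e (nat_lit 730) (nat_lit 66) (.e (nat_lit 704593) (nat_lit 4) (.e (nat_lit 172094) (nat_lit 9) (.e (nat_lit 426125) (nat_lit 2) (.e (nat_lit 204544) (nat_lit 0) .nil)))))))) (.g (nat_lit 7) .nil .nil))) 
(.lf (nat_lit 2410) (.g (nat_lit 2159) (.e (nat_lit 232) (nat_lit 21) (.e (nat_lit 336060) (nat_lit 7) (.e (nat_lit 319533) (nat_lit 16) (.e (nat_lit 286753) (nat_lit 10) (.e (nat_lit 344160) (nat_lit 37) (.e (nat_lit 647189) (nat_lit 9) (.e (nat_lit 1315) (nat_lit 98) (.e (nat_lit 147467) (nat_lit 9) .nil)))))))) (.g (nat_lit 4) .nil .nil)))) (.nd (nat_lit 5) 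
(.lf (nat_lit 2394) (.g (nat_lit 1788) (.e (nat_lit 232) (nat_lit 21) (.e (nat_lit 336060) (nat_lit 7) (.e (nat_lit 319528) (nat_lit 16) (.e (nat_lit 286759) (nat_lit 12) (.e (nat_lit 385113) (nat_lit 53) (.e (nat_lit 811045) (nat_lit 14) (.e (nat_lit 40972) (nat_lit 9) .nil))))))) (.g (nat_lit 4) .nil .nil))) 
(.lf (nat_lit 2426) (.g (nat_lit 3558) (.e (nat_lit 232) (nat_lit 21) (.e (nat_lit 336060) (nat_lit 7) (.e (nat_lit 319533) (nat_lit 16) (.e (nat_lit 286753) (nat_lit 10) (.e (nat_lit 344160) (nat_lit 37) (.e (nat_lit 647190) (nat_lit 9) (.e (nat_lit 1312) (nat_lit 98) (.e (nat_lit 147467) (nat_lit 9) .nil)))))))) (.g (nat_lit 6) .nil .nil)))))) (.nd (nat_lit 3) (.nd (nat_lit 4) (.nd (nat_lit 5) 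
(.lf (nat_lit 2374) (.g (nat_lit 3206) (.e (nat_lit 232) (nat_lit 21) (.e (nat_lit 336060) (nat_lit 7) (.e (nat_lit 319505) (nat_lit 10) (.e (nat_lit 720) (nat_lit 64) (.e (nat_lit 688185) (nat_lit 18) (.e (nat_lit 81965) (nat_lit 26) (.e (nat_lit 147467) (nat_lit 9) .nil))))))) (.g (nat_lit 7) .nil .nil))) 
(.lf (nat_lit 2406) (.g (nat_lit 776) (.e (nat_lit 232) (nat_lit 21) (.e (nat_lit 336060) (nat_lit 7) (.e (nat_lit 319533) (nat_lit 16) (.e (nat_lit 286753) (nat_lit 10) .nil)))) .nil))) (.nd (nat_lit 5) 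
(.lf (nat_lit 2390) (.g (nat_lit 3886) (.e (nat_lit 232) (nat_lit 21) (.e (nat_lit 336060) (nat_lit 7) (.e (nat_lit 319519) (nat_lit 12) (.e (nat_lit 32787) (nat_lit 9) (.e (nat_lit 65610) (nat_lit 10) (.e (nat_lit 344129) (nat_lit 26) (.e (nat_lit 557066) (nat_lit 9) .nil))))))) (.g (nat_lit 6) .nil .nil))) 
(.lf (nat_lit 2422) (.g (nat_lit 3113) (.e (nat_lit 232) (nat_lit 21) (.e (nat_lit 336060) (nat_lit 7) (.e (nat_lit 319533) (nat_lit 16) (.e (nat_lit 286753) (nat_lit 10) (.e (nat_lit 344160) (nat_lit 37) (.e (nat_lit 647190) (nat_lit 9) (.e (nat_lit 1312) (nat_lit 98) (.e (nat_lit 147463) (nat_lit 9) .nil)))))))) (.g (nat_lit 6) .nil .nil))))) (.nd (nat_lit 4) (.nd (nat_lit 5) 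
(.lf (nat_lit 2382) (.g (nat_lit 3258) (.e (nat_lit 232) (nat_lit 21) (.e (nat_lit 336060) (nat_lit 7) (.e (nat_lit 319505) (nat_lit 10) (.e (nat_lit 806) (nat_lit 67) (.e (nat_lit 712752) (nat_lit 29) (.e (nat_lit 442424) (nat_lit 22) (.e (nat_lit 204544) (nat_lit 0) .nil))))))) (.g (nat_lit 6) .nil .nil))) 
(.lf (nat_lit 2414) (.g (nat_lit 2915) (.e (nat_lit 232) (nat_lit 21) (.e (nat_lit 336060) (nat_lit 7) (.e (nat_lit 319533) (nat_lit 16) (.e (nat_lit 286753) (nat_lit 10) (.e (nat_lit 344160) (nat_lit 37) (.e (nat_lit 647190) (nat_lit 9) (.e (nat_lit 1310) (nat_lit 98) (.e (nat_lit 147463) (nat_lit 9) .nil)))))))) (.g (nat_lit 5) .nil .nil)))) (.nd (nat_lit 5) 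
(.lf (nat_lit 2398) (.g (nat_lit 2833) (.e (nat_lit 232) (nat_lit 21) (.e (nat_lit 336060) (nat_lit 7) (.e (nat_lit 319530) (nat_lit 16) (.e (nat_lit 286759) (nat_lit 12) (.e (nat_lit 385115) (nat_lit 53) (.e (nat_lit 811045) (nat_lit 14) (.e (nat_lit 40972) (nat_lit 9) .nil))))))) (.g (nat_lit 4) .nil .nil))) 
(.lf (nat_lit 2430) (.g (nat_lit 2239) (.e (nat_lit 232) (nat_lit 21) (.e (nat_lit 336060) (nat_lit 7) (.e (nat_lit 319533) (nat_lit 16) (.e (nat_lit 286753) (nat_lit 10) (.e (nat_lit 344160) (nat_lit 37) (.e (nat_lit 647195) (nat_lit 9) (.e (nat_lit 1015) (nat_lit 81) (.e (nat_lit 2350) (nat_lit 151) (.e (nat_lit 778360) (nat_lit 9) .nil))))))))) (.g (nat_lit 4) .nil .nil)))))))) 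
(.nd (nat_lit 1) (.nd (nat_lit 2) (.nd (nat_lit 3) (.nd (nat_lit 4) (.nd (nat_lit 5) 
(.lf (nat_lit 2369) (.g (nat_lit 2546) (.e (nat_lit 232) (nat_lit 21) (.e (nat_lit 336060) (nat_lit 7) (.e (nat_lit 319505) (nat_lit 10) (.e (nat_lit 720) (nat_lit 64) (.e (nat_lit 688184) (nat_lit 18) (.e (nat_lit 81963) (nat_lit 26) (.e (nat_lit 147463) (nat_lit 9) .nil))))))) (.g (nat_lit 5) .nil .nil))) 
(.lf (nat_lit 2401) (.g (nat_lit 1131) (.e (nat_lit 232) (nat_lit 21) (.e (nat_lit 336060) (nat_lit 7) (.e (nat_lit 319531) (nat_lit 16) (.e (nat_lit 286759) (nat_lit 12) .nil)))) .nil))) (.nd (nat_lit 5) 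
(.lf (nat_lit 2385) (.g (nat_lit 2471) (.e (nat_lit 232) (nat_lit 21) (.e (nat_lit 336060) (nat_lit 7) (.e (nat_lit 319517) (nat_lit 12) (.e (nat_lit 32787) (nat_lit 9) (.e (nat_lit 65617) (nat_lit 10) (.e (nat_lit 344130) (nat_lit 26) (.e (nat_lit 557066) (nat_lit 9) .nil))))))) (.g (nat_lit 5) .nil .nil))) 
(.lf (nat_lit 2417) (.g (nat_lit 3374) (.e (nat_lit 232) (nat_lit 21) (.e (nat_lit 336060) (nat_lit 7) (.e (nat_lit 319533) (nat_lit 16) (.e (nat_lit 286753) (nat_lit 10) (.e (nat_lit 344160) (nat_lit 37) (.e (nat_lit 647190) (nat_lit 9) (.e (nat_lit 1310) (nat_lit 98) (.e (nat_lit 147466) (nat_lit 9) .nil)))))))) (.g (nat_lit 6) .nil .nil))))) (.nd (nat_lit 4) (.nd (nat_lit 5) 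
(.lf (nat_lit 2377) (.g (nat_lit 3741) (.e (nat_lit 232) (nat_lit 21) (.e (nat_lit 336060) (nat_lit 7) (.e (nat_lit 319505) (nat_lit 10) (.e (nat_lit 720) (nat_lit 64) (.e (nat_lit 688186) (nat_lit 18) (.e (nat_lit 81965) (nat_lit 26) (.e (nat_lit 147467) (nat_lit 9) .nil))))))) (.g (nat_lit 0) .nil .nil))) 
(.lf (nat_lit 2409) (.g (nat_lit 1721) (.e (nat_lit 232) (nat_lit 21) (.e (nat_lit 336060) (nat_lit 7) (.e (nat_lit 319533) (nat_lit 16) (.e (nat_lit 286753) (nat_lit 10) (.e (nat_lit 344097) (nat_lit 18) (.e (nat_lit 5195) (nat_lit 294) (.e (nat_lit 65280) (nat_lit 65) (.e (nat_lit 213000) (nat_lit 9) .nil)))))))) (.g (nat_lit 4) .nil .nil)))) (.nd (nat_lit 5) 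
(.lf (nat_lit 2393) (.g (nat_lit 2404) (.e (nat_lit 232) (nat_lit 21) (.e (nat_lit 336060) (nat_lit 7) (.e (nat_lit 327424) (nat_lit 12) (.e (nat_lit 32787) (nat_lit 9) (.e (nat_lit 65610) (nat_lit 10) (.e (nat_lit 344129) (nat_lit 26) (.e (nat_lit 557066) (nat_lit 9) .nil))))))) (.g (nat_lit 6) .nil .nil))) 
(.lf (nat_lit 2425) (.g (nat_lit 3366) (.e (nat_lit 232) (nat_lit 21) (.e (nat_lit 336060) (nat_lit 7) (.e (nat_lit 319533) (nat_lit 16) (.e (nat_lit 286753) (nat_lit 10) (.e (nat_lit 344160) (nat_lit 37) (.e (nat_lit 647190) (nat_lit 9) (.e (nat_lit 1312) (nat_lit 98) (.e (nat_lit 147466) (nat_lit 9) .nil)))))))) (.g (nat_lit 6) .nil .nil)))))) (.nd (nat_lit 3) (.nd (nat_lit 4) (.nd (nat_lit 5) 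
(.lf (nat_lit 2373) (.g (nat_lit 1810) (.e (nat_lit 232) (nat_lit 21) (.e (nat_lit 336060) (nat_lit 7) (.e (nat_lit 319505) (nat_lit 10) (.e (nat_lit 720) (nat_lit 64) (.e (nat_lit 688185) (nat_lit 18) (.e (nat_lit 81965) (nat_lit 26) (.e (nat_lit 147466) (nat_lit 9) .nil))))))) (.g (nat_lit 4) .nil .nil))) 
(.lf (nat_lit 2405) (.g (nat_lit 189) (.e (nat_lit 232) (nat_lit 21) (.e (nat_lit 336060) (nat_lit 7) (.e (nat_lit 319533) (nat_lit 16) .nil))) .nil))) (.nd (nat_lit 5) 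
(.lf (nat_lit 2389) (.g (nat_lit 2031) (.e (nat_lit 232) (nat_lit 21) (.e (nat_lit 336060) (nat_lit 7) (.e (nat_lit 319518) (nat_lit 12) (.e (nat_lit 32787) (nat_lit 9) (.e (nat_lit 65619) (nat_lit 10) (.e (nat_lit 344129) (nat_lit 26) (.e (nat_lit 557066) (nat_lit 9) .nil))))))) (.g (nat_lit 4) .nil .nil))) 
(.lf (nat_lit 2421) (.g (nat_lit 3490) (.e (nat_lit 232) (nat_lit 21) (.e (nat_lit 336060) (nat_lit 7) (.e (nat_lit 319533) (nat_lit 16) (.e (nat_lit 286753) (nat_lit 10) (.e (nat_lit 344160) (nat_lit 37) (.e (nat_lit 647190) (nat_lit 9) (.e (nat_lit 1311) (nat_lit 98) (.e (nat_lit 147467) (nat_lit 9) .nil)))))))) (.g (nat_lit 6) .nil .nil))))) (.nd (nat_lit 4) (.nd (nat_lit 5) 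
(.lf (nat_lit 2381) (.g (nat_lit 1693) (.e (nat_lit 232) (nat_lit 21) (.e (nat_lit 336060) (nat_lit 7) (.e (nat_lit 319505) (nat_lit 10) (.e (nat_lit 806) (nat_lit 67) (.e (nat_lit 712742) (nat_lit 27) (.e (nat_lit 426211) (nat_lit 9) (.e (nat_lit 426125) (nat_lit 2) (.e (nat_lit 204544) (nat_lit 0) .nil)))))))) (.g (nat_lit 4) .nil .nil))) 
(.lf (nat_lit 2413) (.g (nat_lit 2193) (.e (nat_lit 232) (nat_lit 21) (.e (nat_lit 336060) (nat_lit 7) (.e (nat_lit 319533) (nat_lit 16) (.e (nat_lit 286753) (nat_lit 10) (.e (nat_lit 344160) (nat_lit 37) (.e (nat_lit 647190) (nat_lit 9) (.e (nat_lit 984) (nat_lit 81) (.e (nat_lit 2289) (nat_lit 151) (.e (nat_lit 778368) (nat_lit 9) .nil))))))))) (.g (nat_lit 4) .nil .nil)))) (.nd (nat_lit 5) 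
(.lf (nat_lit 2397) (.g (nat_lit 1264) (.e (nat_lit 232) (nat_lit 21) (.e (nat_lit 336060) (nat_lit 7) (.e (nat_lit 319530) (nat_lit 16) (.e (nat_lit 286759) (nat_lit 12) .nil)))) .nil)) 
(.lf (nat_lit 2429) (.g (nat_lit 2267) (.e (nat_lit 232) (nat_lit 21) (.e (nat_lit 336060) (nat_lit 7) (.e (nat_lit 319533) (nat_lit 16) (.e (nat_lit 286753) (nat_lit 10) (.e (nat_lit 344160) (nat_lit 37) (.e (nat_lit 647195) (nat_lit 9) (.e (nat_lit 1015) (nat_lit 81) (.e (nat_lit 2328) (nat_lit 151) (.e (nat_lit 778359) (nat_lit 9) .nil))))))))) (.g (nat_lit 4) .nil .nil))))))) 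
(.nd (nat_lit 2) (.nd (nat_lit 3) (.nd (nat_lit 4) (.nd (nat_lit 5) 
(.lf (nat_lit 2371) (.g (nat_lit 3476) (.e (nat_lit 232) (nat_lit 21) (.e (nat_lit 336060) (nat_lit 7) (.e (nat_lit 319505) (nat_lit 10) (.e (nat_lit 720) (nat_lit 64) (.e (nat_lit 688184) (nat_lit 18) (.e (nat_lit 81963) (nat_lit 26) (.e (nat_lit 147467) (nat_lit 9) .nil))))))) (.g (nat_lit 7) .nil .nil))) 
(.lf (nat_lit 2403) (.g (nat_lit 2288) (.e (nat_lit 232) (nat_lit 21) (.e (nat_lit 336060) (nat_lit 7) (.e (nat_lit 319531) (nat_lit 16) (.e (nat_lit 286759) (nat_lit 12) (.e (nat_lit 385114) (nat_lit 53) (.e (nat_lit 811045) (nat_lit 14) (.e (nat_lit 40972) (nat_lit 9) .nil))))))) (.g (nat_lit 4) .nil .nil)))) (.nd (nat_lit 5) 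
(.lf (nat_lit 2387) (.g (nat_lit 2171) (.e (nat_lit 232) (nat_lit 21) (.e (nat_lit 336060) (nat_lit 7) (.e (nat_lit 319518) (nat_lit 12) (.e (nat_lit 32786) (nat_lit 9) (.e (nat_lit 65619) (nat_lit 10) (.e (nat_lit 344129) (nat_lit 26) (.e (nat_lit 557066) (nat_lit 9) .nil))))))) (.g (nat_lit 5) .nil .nil))) 
(.lf (nat_lit 2419) (.g (nat_lit 2850) (.e (nat_lit 232) (nat_lit 21) (.e (nat_lit 336060) (nat_lit 7) (.e (nat_lit 319533) (nat_lit 16) (.e (nat_lit 286753) (nat_lit 10) (.e (nat_lit 344160) (nat_lit 37) (.e (nat_lit 647190) (nat_lit 9) (.e (nat_lit 1311) (nat_lit 98) (.e (nat_lit 147463) (nat_lit 9) .nil)))))))) (.g (nat_lit 5) .nil .nil))))) (.nd (nat_lit 4) (.nd (nat_lit 5) 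
(.lf (nat_lit 2379) (.g (nat_lit 1005) (.e (nat_lit 232) (nat_lit 21) (.e (nat_lit 336060) (nat_lit 7) (.e (nat_lit 319505) (nat_lit 10) (.e (nat_lit 804) (nat_lit 67) .nil)))) .nil)) 
(.lf (nat_lit 2411) (.g (nat_lit 2374) (.e (nat_lit 232) (nat_lit 21) (.e (nat_lit 336060) (nat_lit 7) (.e (nat_lit 319533) (nat_lit 16) (.e (nat_lit 286753) (nat_lit 10) (.e (nat_lit 344160) (nat_lit 37) (.e (nat_lit 647190) (nat_lit 9) (.e (nat_lit 984) (nat_lit 81) (.e (nat_lit 2289) (nat_lit 151) (.e (nat_lit 778353) (nat_lit 9) .nil))))))))) (.g (nat_lit 4) .nil .nil)))) (.nd (nat_lit 5) 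
(.lf (nat_lit 2395) (.g (nat_lit 2076) (.e (nat_lit 232) (nat_lit 21) (.e (nat_lit 336060) (nat_lit 7) (.e (nat_lit 319528) (nat_lit 16) (.e (nat_lit 286759) (nat_lit 12) (.e (nat_lit 385114) (nat_lit 53) (.e (nat_lit 811045) (nat_lit 14) (.e (nat_lit 40972) (nat_lit 9) .nil))))))) (.g (nat_lit 4) .nil .nil))) 
(.lf (nat_lit 2427) (.g (nat_lit 2133) (.e (nat_lit 232) (nat_lit 21) (.e (nat_lit 336060) (nat_lit 7) (.e (nat_lit 319533) (nat_lit 16) (.e (nat_lit 286753) (nat_lit 10) (.e (nat_lit 344160) (nat_lit 37) (.e (nat_lit 647190) (nat_lit 9) (.e (nat_lit 7936) (nat_lit 98) (.e (nat_lit 147465) (nat_lit 9) .nil)))))))) (.g (nat_lit 4) .nil .nil)))))) (.nd (nat_lit 3) (.nd (nat_lit 4) (.nd (nat_lit 5) 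
(.lf (nat_lit 2375) (.g (nat_lit 3509) (.e (nat_lit 232) (nat_lit 21) (.e (nat_lit 336060) (nat_lit 7) (.e (nat_lit 319505) (nat_lit 10) (.e (nat_lit 720) (nat_lit 64) (.e (nat_lit 688186) (nat_lit 18) (.e (nat_lit 81965) (nat_lit 26) (.e (nat_lit 147463) (nat_lit 9) .nil))))))) (.g (nat_lit 7) .nil .nil))) 
(.lf (nat_lit 2407) (.g (nat_lit 2105) (.e (nat_lit 232) (nat_lit 21) (.e (nat_lit 336060) (nat_lit 7) (.e (nat_lit 319533) (nat_lit 16) (.e (nat_lit 286753) (nat_lit 10) (.e (nat_lit 344097) (nat_lit 18) (.e (nat_lit 5195) (nat_lit 294) (.e (nat_lit 57367) (nat_lit 1) (.e (nat_lit 57870) (nat_lit 264) (.e (nat_lit 7936) (nat_lit 157) .nil))))))))) (.g (nat_lit 5) .nil .nil)))) (.nd (nat_lit 5) 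
(.lf (nat_lit 2391) (.g (nat_lit 3211) (.e (nat_lit 232) (nat_lit 21) (.e (nat_lit 336060) (nat_lit 7) (.e (nat_lit 319519) (nat_lit 12) (.e (nat_lit 32787) (nat_lit 9) (.e (nat_lit 65617) (nat_lit 10) (.e (nat_lit 344130) (nat_lit 26) (.e (nat_lit 557066) (nat_lit 9) .nil))))))) (.g (nat_lit 6) .nil .nil))) 
(.lf (nat_lit 2423) (.g (nat_lit 2929) (.e (nat_lit 232) (nat_lit 21) (.e (nat_lit 336060) (nat_lit 7) (.e (nat_lit 319533) (nat_lit 16) (.e (nat_lit 286753) (nat_lit 10) (.e (nat_lit 344160) (nat_lit 37) (.e (nat_lit 647190) (nat_lit 9) (.e (nat_lit 1312) (nat_lit 98) (.e (nat_lit 147464) (nat_lit 9) .nil)))))))) (.g (nat_lit 5) .nil .nil))))) (.nd (nat_lit 4) (.nd (nat_lit 5) 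
(.lf (nat_lit 2383) (.g (nat_lit 619) (.e (nat_lit 232) (nat_lit 21) (.e (nat_lit 336060) (nat_lit 7) (.e (nat_lit 319517) (nat_lit 12) .nil))) .nil)) 
(.lf (nat_lit 2415) (.g (nat_lit 2833) (.e (nat_lit 232) (nat_lit 21) (.e (nat_lit 336060) (nat_lit 7) (.e (nat_lit 319533) (nat_lit 16) (.e (nat_lit 286753) (nat_lit 10) (.e (nat_lit 344160) (nat_lit 37) (.e (nat_lit 647190) (nat_lit 9) (.e (nat_lit 1310) (nat_lit 98) (.e (nat_lit 147464) (nat_lit 9) .nil)))))))) (.g (nat_lit 5) .nil .nil)))) (.nd (nat_lit 5) 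
(.lf (nat_lit 2399) (.g (nat_lit 2241) (.e (nat_lit 232) (nat_lit 21) (.e (nat_lit 336060) (nat_lit 7) (.e (nat_lit 319531) (nat_lit 16) (.e (nat_lit 286748) (nat_lit 9) (.e (nat_lit 336295) (nat_lit 15) .nil))))) .nil)) 
(.lf (nat_lit 2431) (.g (nat_lit 3288) (.e (nat_lit 232) (nat_lit 21) (.e (nat_lit 336060) (nat_lit 7) (.e (nat_lit 319533) (nat_lit 16) (.e (nat_lit 286753) (nat_lit 10) (.e (nat_lit 344160) (nat_lit 37) (.e (nat_lit 647195) (nat_lit 9) (.e (nat_lit 1040) (nat_lit 81) (.e (nat_lit 7936) (nat_lit 151) (.e (nat_lit 778348) (nat_lit 9) .nil))))))))) (.g (nat_lit 5) .nil .nil)))))))))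

noncomputable def tv033 : DT := (.nd (nat_lit 0) (.nd (nat_lit 1) (.nd (nat_lit 2) (.nd (nat_lit 3) (.nd (nat_lit 4) (.nd (nat_lit 5) 
(.lf (nat_lit 2432) (.g (nat_lit 3445) (.e (nat_lit 232) (nat_lit 21) (.e (nat_lit 336060) (nat_lit 7) (.e (nat_lit 319533) (nat_lit 16) (.e (nat_lit 286753) (nat_lit 10) (.e (nat_lit 344160) (nat_lit 37) (.e (nat_lit 647195) (nat_lit 9) (.e (nat_lit 1040) (nat_lit 81) (.e (nat_lit 7936) (nat_lit 151) (.e (nat_lit 778353) (nat_lit 9) .nil))))))))) (.g (nat_lit 6) .nil .nil))) 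
(.lf (nat_lit 2464) (.g (nat_lit 1707) (.e (nat_lit 232) (nat_lit 21) (.e (nat_lit 336060) (nat_lit 7) (.e (nat_lit 319533) (nat_lit 16) (.e (nat_lit 286753) (nat_lit 10) (.e (nat_lit 344168) (nat_lit 40) (.e (nat_lit 671759) (nat_lit 3) (.e (nat_lit 57353) (nat_lit 0) (.e (nat_lit 6811) (nat_lit 365) (.e (nat_lit 2423) (nat_lit 157) .nil))))))))) (.g (nat_lit 4) .nil .nil)))) (.nd (nat_lit 5) 
(.lf (nat_lit 2448) (.g (nat_lit 3899) (.e (nat_lit 232) (nat_lit 21) (.e (nat_lit 336060) (nat_lit 7) (.e (nat_lit 319533) (nat_lit 16) (.e (nat_lit 286753) (nat_lit 10) (.e (nat_lit 344160) (nat_lit 37) (.e (nat_lit 647201) (nat_lit 12) (.e (nat_lit 57574) (nat_lit 55) (.e (nat_lit 778359) (nat_lit 9) .nil)))))))) (.g (nat_lit 7) .nil .nil))) 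
(.lf (nat_lit 2480) (.g (nat_lit 2246) (.e (nat_lit 232) (nat_lit 21) (.e (nat_lit 336060) (nat_lit 7) (.e (nat_lit 319533) (nat_lit 16) (.e (nat_lit 286753) (nat_lit 10) (.e (nat_lit 344168) (nat_lit 40) (.e (nat_lit 671784) (nat_lit 14) (.e (nat_lit 1146) (nat_lit 85) (.e (nat_lit 40972) (nat_lit 9) .nil)))))))) (.g (nat_lit 5) .nil .nil))))) (.nd (nat_lit 4) (.nd (nat_lit 5) 
(.lf (nat_lit 2440) (.g (nat_lit 3691) (.e (nat_lit 232) (nat_lit 21) (.e (nat_lit 336060) (nat_lit 7) (.e (nat_lit 319533) (nat_lit 16) (.e (nat_lit 286753) (nat_lit 10) (.e (nat_lit 344160) (nat_lit 37) (.e (nat_lit 647195) (nat_lit 9) (.e (nat_lit 1310) (nat_lit 98) (.e (nat_lit 147467) (nat_lit 9) .nil)))))))) (.g (nat_lit 6) .nil .nil))) 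
(.lf (nat_lit 2472) (.g (nat_lit 2233) (.e (nat_lit 232) (nat_lit 21) (.e (nat_lit 336060) (nat_lit 7) (.e (nat_lit 319533) (nat_lit 16) (.e (nat_lit 286753) (nat_lit 10) (.e (nat_lit 344168) (nat_lit 40) (.e (nat_lit 671774) (nat_lit 9) (.e (nat_lit 2699) (nat_lit 169) (.e (nat_lit 213000) (nat_lit 9) .nil)))))))) (.g (nat_lit 5) .nil .nil)))) (.nd (nat_lit 5) 
(.lf (nat_lit 2456) (.g (nat_lit 2703) (.e (nat_lit 232) (nat_lit 21) (.e (nat_lit 336060) (nat_lit 7) (.e (nat_lit 319533) (nat_lit 16) (.e (nat_lit 286753) (nat_lit 10) (.e (nat_lit 344160) (nat_lit 37) (.e (nat_lit 647201) (nat_lit 12) (.e (nat_lit 65280) (nat_lit 55) (.e (nat_lit 778354) (nat_lit 9) .nil)))))))) (.g (nat_lit 5) .nil .nil))) 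
(.lf (nat_lit 2488) (.g (nat_lit 2533) (.e (nat_lit 232) (nat_lit 21) (.e (nat_lit 336060) (nat_lit 7) (.e (nat_lit 319533) (nat_lit 16) (.e (nat_lit 286753) (nat_lit 10) (.e (nat_lit 344169) (nat_lit 40) (.e (nat_lit 671759) (nat_lit 3) (.e (nat_lit 57353) (nat_lit 0) (.e (nat_lit 6811) (nat_lit 365) (.e (nat_lit 2422) (nat_lit 157) .nil))))))))) (.g (nat_lit 4) .nil .nil)))))) 
(.nd (nat_lit 3) (.nd (nat_lit 4) (.nd (nat_lit 5) 
(.lf (nat_lit 2436) (.g (nat_lit 3260) (.e (nat_lit 232) (nat_lit 21) (.e (nat_lit 336060) (nat_lit 7) (.e (nat_lit 319533) (nat_lit 16) (.e (nat_lit 286753) (nat_lit 10) (.e (nat_lit 344160) (nat_lit 37) (.e (nat_lit 647195) (nat_lit 9) (.e (nat_lit 1310) (nat_lit 98) (.e (nat_lit 147463) (nat_lit 9) .nil)))))))) (.g (nat_lit 6) .nil .nil))) 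
(.lf (nat_lit 2468) (.g (nat_lit 2312) (.e (nat_lit 232) (nat_lit 21) (.e (nat_lit 336060) (nat_lit 7) (.e (nat_lit 319533) (nat_lit 16) (.e (nat_lit 286753) (nat_lit 10) (.e (nat_lit 344168) (nat_lit 40) (.e (nat_lit 671771) (nat_lit 9) (.e (nat_lit 2749) (nat_lit 175) (.e (nat_lit 262151) (nat_lit 9) .nil)))))))) (.g (nat_lit 4) .nil .nil)))) (.nd (nat_lit 5) 
(.lf (nat_lit 2452) (.g (nat_lit 4972) (.e (nat_lit 232) (nat_lit 21) (.e (nat_lit 336060) (nat_lit 7) (.e (nat_lit 319533) (nat_lit 16) (.e (nat_lit 286753) (nat_lit 10) (.e (nat_lit 344160) (nat_lit 37) (.e (nat_lit 647201) (nat_lit 12) (.e (nat_lit 57575) (nat_lit 55) (.e (nat_lit 778361) (nat_lit 9) .nil)))))))) (.g (nat_lit 0) .nil .nil))) 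
(.lf (nat_lit 2484) (.g (nat_lit 1634) (.e (nat_lit 232) (nat_lit 21) (.e (nat_lit 336060) (nat_lit 7) (.e (nat_lit 319533) (nat_lit 16) (.e (nat_lit 286753) (nat_lit 10) (.e (nat_lit 344168) (nat_lit 40) (.e (nat_lit 679680) (nat_lit 14) (.e (nat_lit 1146) (nat_lit 85) (.e (nat_lit 40972) (nat_lit 9) .nil)))))))) (.g (nat_lit 4) .nil .nil))))) (.nd (nat_lit 4) (.nd (nat_lit 5) 
(.lf (nat_lit 2444) (.g (nat_lit 2297) (.e (nat_lit 232) (nat_lit 21) (.e (nat_lit 336060) (nat_lit 7) (.e (nat_lit 319533) (nat_lit 16) (.e (nat_lit 286753) (nat_lit 10) (.e (nat_lit 344160) (nat_lit 37) (.e (nat_lit 647200) (nat_lit 12) (.e (nat_lit 57575) (nat_lit 55) (.e (nat_lit 778359) (nat_lit 9) .nil)))))))) (.g (nat_lit 4) .nil .nil))) 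
(.lf (nat_lit 2476) (.g (nat_lit 2412) (.e (nat_lit 232) (nat_lit 21) (.e (nat_lit 336060) (nat_lit 7) (.e (nat_lit 319533) (nat_lit 16) (.e (nat_lit 286753) (nat_lit 10) (.e (nat_lit 344168) (nat_lit 40) (.e (nat_lit 671782) (nat_lit 12) (.e (nat_lit 164049) (nat_lit 55) (.e (nat_lit 778360) (nat_lit 9) .nil)))))))) (.g (nat_lit 4) .nil .nil)))) (.nd (nat_lit 5) 
(.lf (nat_lit 2460) (.g (nat_lit 1928) (.e (nat_lit 232) (nat_lit 21) (.e (nat_lit 336060) (nat_lit 7) (.e (nat_lit 319533) (nat_lit 16) (.e (nat_lit 286753) (nat_lit 10) (.e (nat_lit 344160) (nat_lit 37) (.e (nat_lit 647201) (nat_lit 12) (.e (nat_lit 65280) (nat_lit 55) (.e (nat_lit 786176) (nat_lit 9) .nil)))))))) (.g (nat_lit 4) .nil .nil))) 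
(.lf (nat_lit 2492) (.g (nat_lit 2482) (.e (nat_lit 232) (nat_lit 21) (.e (nat_lit 336060) (nat_lit 7) (.e (nat_lit 319533) (nat_lit 16) (.e (nat_lit 286753) (nat_lit 10) (.e (nat_lit 344169) (nat_lit 40) (.e (nat_lit 671770) (nat_lit 9) (.e (nat_lit 2700) (nat_lit 169) (.e (nat_lit 213000) (nat_lit 9) .nil)))))))) (.g (nat_lit 5) .nil .nil))))))) 
(.nd (nat_lit 2) (.nd (nat_lit 3) (.nd (nat_lit 4) (.nd (nat_lit 5) 
(.lf (nat_lit 2434) (.g (nat_lit 2311) (.e (nat_lit 232) (nat_lit 21) (.e (nat_lit 336060) (nat_lit 7) (.e (nat_lit 319533) (nat_lit 16) (.e (nat_lit 286753) (nat_lit 10) (.e (nat_lit 344160) (nat_lit 37) (.e (nat_lit 647195) (nat_lit 9) (.e (nat_lit 1040) (nat_lit 81) (.e (nat_lit 7936) (nat_lit 151) (.e (nat_lit 778368) (nat_lit 9) .nil))))))))) (.g (nat_lit 4) .nil .nil))) 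
(.lf (nat_lit 2466) (.g (nat_lit 2162) (.e (nat_lit 232) (nat_lit 21) (.e (nat_lit 336060) (nat_lit 7) (.e (nat_lit 319533) (nat_lit 16) (.e (nat_lit 286753) (nat_lit 10) (.e (nat_lit 344168) (nat_lit 40) (.e (nat_lit 671771) (nat_lit 9) (.e (nat_lit 2694) (nat_lit 169) (.e (nat_lit 213000) (nat_lit 9) .nil)))))))) (.g (nat_lit 4) .nil .nil)))) (.nd (nat_lit 5) 
(.lf (nat_lit 2450) (.g (nat_lit 5157) (.e (nat_lit 232) (nat_lit 21) (.e (nat_lit 336060) (nat_lit 7) (.e (nat_lit 319533) (nat_lit 16) (.e (nat_lit 286753) (nat_lit 10) (.e (nat_lit 344160) (nat_lit 37) (.e (nat_lit 647201) (nat_lit 12) (.e (nat_lit 57574) (nat_lit 55) (.e (nat_lit 778361) (nat_lit 9) .nil)))))))) (.g (nat_lit 8) .nil .nil))) 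
(.lf (nat_lit 2482) (.g (nat_lit 2379) (.e (nat_lit 232) (nat_lit 21) (.e (nat_lit 336060) (nat_lit 7) (.e (nat_lit 319533) (nat_lit 16) (.e (nat_lit 286753) (nat_lit 10) (.e (nat_lit 344168) (nat_lit 40) (.e (nat_lit 671786) (nat_lit 14) (.e (nat_lit 1149) (nat_lit 85) (.e (nat_lit 40972) (nat_lit 9) .nil)))))))) (.g (nat_lit 5) .nil .nil))))) (.nd (nat_lit 4) (.nd (nat_lit 5) 
(.lf (nat_lit 2442) (.g (nat_lit 1855) (.e (nat_lit 232) (nat_lit 21) (.e (nat_lit 336060) (nat_lit 7) (.e (nat_lit 319533) (nat_lit 16) (.e (nat_lit 286753) (nat_lit 10) (.e (nat_lit 344160) (nat_lit 37) (.e (nat_lit 647200) (nat_lit 12) (.e (nat_lit 57348) (nat_lit 0) (.e (nat_lit 7464) (nat_lit 396) (.e (nat_lit 2423) (nat_lit 157) .nil))))))))) (.g (nat_lit 4) .nil .nil))) 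
(.lf (nat_lit 2474) (.g (nat_lit 2479) (.e (nat_lit 232) (nat_lit 21) (.e (nat_lit 336060) (nat_lit 7) (.e (nat_lit 319533) (nat_lit 16) (.e (nat_lit 286753) (nat_lit 10) (.e (nat_lit 344168) (nat_lit 40) (.e (nat_lit 671782) (nat_lit 12) (.e (nat_lit 164035) (nat_lit 55) (.e (nat_lit 778368) (nat_lit 9) .nil)))))))) (.g (nat_lit 4) .nil .nil)))) (.nd (nat_lit 5) 
(.lf (nat_lit 2458) (.g (nat_lit 2586) (.e (nat_lit 232) (nat_lit 21) (.e (nat_lit 336060) (nat_lit 7) (.e (nat_lit 319533) (nat_lit 16) (.e (nat_lit 286753) (nat_lit 10) (.e (nat_lit 344160) (nat_lit 37) (.e (nat_lit 647201) (nat_lit 12) (.e (nat_lit 65280) (nat_lit 55) (.e (nat_lit 778359) (nat_lit 9) .nil)))))))) (.g (nat_lit 5) .nil .nil))) 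
(.lf (nat_lit 2490) (.g (nat_lit 2351) (.e (nat_lit 232) (nat_lit 21) (.e (nat_lit 336060) (nat_lit 7) (.e (nat_lit 319533) (nat_lit 16) (.e (nat_lit 286753) (nat_lit 10) (.e (nat_lit 344169) (nat_lit 40) (.e (nat_lit 671770) (nat_lit 9) (.e (nat_lit 2686) (nat_lit 169) (.e (nat_lit 213000) (nat_lit 9) .nil)))))))) (.g (nat_lit 5) .nil .nil)))))) (.nd (nat_lit 3) (.nd (nat_lit 4) (.nd (nat_lit 5) 
(.lf (nat_lit 2438) (.g (nat_lit 3310) (.e (nat_lit 232) (nat_lit 21) (.e (nat_lit 336060) (nat_lit 7) (.e (nat_lit 319533) (nat_lit 16) (.e (nat_lit 286753) (nat_lit 10) (.e (nat_lit 344160) (nat_lit 37) (.e (nat_lit 647195) (nat_lit 9) (.e (nat_lit 1310) (nat_lit 98) (.e (nat_lit 147465) (nat_lit 9) .nil)))))))) (.g (nat_lit 6) .nil .nil))) 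
(.lf (nat_lit 2470) (.g (nat_lit 1682) (.e (nat_lit 232) (nat_lit 21) (.e (nat_lit 336060) (nat_lit 7) (.e (nat_lit 319533) (nat_lit 16) (.e (nat_lit 286753) (nat_lit 10) (.e (nat_lit 344168) (nat_lit 40) (.e (nat_lit 671774) (nat_lit 9) (.e (nat_lit 2695) (nat_lit 169) (.e (nat_lit 213000) (nat_lit 9) .nil)))))))) (.g (nat_lit 4) .nil .nil)))) (.nd (nat_lit 5) 
(.lf (nat_lit 2454) (.g (nat_lit 2831) (.e (nat_lit 232) (nat_lit 21) (.e (nat_lit 336060) (nat_lit 7) (.e (nat_lit 319533) (nat_lit 16) (.e (nat_lit 286753) (nat_lit 10) (.e (nat_lit 344160) (nat_lit 37) (.e (nat_lit 647201) (nat_lit 12) (.e (nat_lit 65280) (nat_lit 55) (.e (nat_lit 778348) (nat_lit 9) .nil)))))))) (.g (nat_lit 5) .nil .nil))) 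
(.lf (nat_lit 2486) (.g (nat_lit 1363) (.e (nat_lit 232) (nat_lit 21) (.e (nat_lit 336060) (nat_lit 7) (.e (nat_lit 319533) (nat_lit 16) (.e (nat_lit 286753) (nat_lit 10) (.e (nat_lit 344169) (nat_lit 40) .nil))))) .nil)))) (.nd (nat_lit 4) (.nd (nat_lit 5) 
(.lf (nat_lit 2446) (.g (nat_lit 2821) (.e (nat_lit 232) (nat_lit 21) (.e (nat_lit 336060) (nat_lit 7) (.e (nat_lit 319533) (nat_lit 16) (.e (nat_lit 286753) (nat_lit 10) (.e (nat_lit 344160) (nat_lit 37) (.e (nat_lit 647201) (nat_lit 12) (.e (nat_lit 57351) (nat_lit 0) (.e (nat_lit 7464) (nat_lit 396) (.e (nat_lit 2423) (nat_lit 157) .nil))))))))) (.g (nat_lit 6) .nil .nil))) 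
(.lf (nat_lit 2478) (.g (nat_lit 2526) (.e (nat_lit 232) (nat_lit 21) (.e (nat_lit 336060) (nat_lit 7) (.e (nat_lit 319533) (nat_lit 16) (.e (nat_lit 286753) (nat_lit 10) (.e (nat_lit 344168) (nat_lit 40) (.e (nat_lit 671782) (nat_lit 12) (.e (nat_lit 164050) (nat_lit 55) (.e (nat_lit 778360) (nat_lit 9) .nil)))))))) (.g (nat_lit 4) .nil .nil)))) (.nd (nat_lit 5) 
(.lf (nat_lit 2462) (.g (nat_lit 2245) (.e (nat_lit 232) (nat_lit 21) (.e (nat_lit 336060) (nat_lit 7) (.e (nat_lit 319533) (nat_lit 16) (.e (nat_lit 286753) (nat_lit 10) (.e (nat_lit 344161) (nat_lit 37) (.e (nat_lit 647201) (nat_lit 12) (.e (nat_lit 57575) (nat_lit 55) (.e (nat_lit 778359) (nat_lit 9) .nil)))))))) (.g (nat_lit 4) .nil .nil))) 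
(.lf (nat_lit 2494) (.g (nat_lit 2582) (.e (nat_lit 232) (nat_lit 21) (.e (nat_lit 336060) (nat_lit 7) (.e (nat_lit 319533) (nat_lit 16) (.e (nat_lit 286753) (nat_lit 10) (.e (nat_lit 344169) (nat_lit 40) (.e (nat_lit 671770) (nat_lit 9) (.e (nat_lit 2749) (nat_lit 175) (.e (nat_lit 262151) (nat_lit 9) .nil)))))))) (.g (nat_lit 5) .nil .nil)))))))) 
(.nd (nat_lit 1) (.nd (nat_lit 2) (.nd (nat_lit 3) (.nd (nat_lit 4) (.nd (nat_lit 5) 
(.lf (nat_lit 2433) (.g (nat_lit 2287) (.e (nat_lit 232) (nat_lit 21) (.e (nat_lit 336060) (nat_lit 7) (.e (nat_lit 319533) (nat_lit 16) (.e (nat_lit 286753) (nat_lit 10) (.e (nat_lit 344160) (nat_lit 37) (.e (nat_lit 647195) (nat_lit 9) (.e (nat_lit 1040) (nat_lit 81) (.e (nat_lit 7936) (nat_lit 151) (.e (nat_lit 778360) (nat_lit 9) .nil))))))))) (.g (nat_lit 4) .nil .nil))) 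
(.lf (nat_lit 2465) (.g (nat_lit 1893) (.e (nat_lit 232) (nat_lit 21) (.e (nat_lit 336060) (nat_lit 7) (.e (nat_lit 319533) (nat_lit 16) (.e (nat_lit 286753) (nat_lit 10) (.e (nat_lit 344168) (nat_lit 40) (.e (nat_lit 671771) (nat_lit 9) (.e (nat_lit 2686) (nat_lit 169) (.e (nat_lit 213000) (nat_lit 9) .nil)))))))) (.g (nat_lit 4) .nil .nil)))) (.nd (nat_lit 5) 
(.lf (nat_lit 2449) (.g (nat_lit 4184) (.e (nat_lit 232) (nat_lit 21) (.e (nat_lit 336060) (nat_lit 7) (.e (nat_lit 319533) (nat_lit 16) (.e (nat_lit 286753) (nat_lit 10) (.e (nat_lit 344160) (nat_lit 37) (.e (nat_lit 647201) (nat_lit 12) (.e (nat_lit 57574) (nat_lit 55) (.e (nat_lit 778360) (nat_lit 9) .nil)))))))) (.g (nat_lit 7) .nil .nil))) 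
(.lf (nat_lit 2481) (.g (nat_lit 2452) (.e (nat_lit 232) (nat_lit 21) (.e (nat_lit 336060) (nat_lit 7) (.e (nat_lit 319533) (nat_lit 16) (.e (nat_lit 286753) (nat_lit 10) (.e (nat_lit 344168) (nat_lit 40) (.e (nat_lit 671786) (nat_lit 14) (.e (nat_lit 1146) (nat_lit 85) (.e (nat_lit 40972) (nat_lit 9) .nil)))))))) (.g (nat_lit 5) .nil .nil))))) (.nd (nat_lit 4) (.nd (nat_lit 5) 
(.lf (nat_lit 2441) (.g (nat_lit 3045) (.e (nat_lit 232) (nat_lit 21) (.e (nat_lit 336060) (nat_lit 7) (.e (nat_lit 319533) (nat_lit 16) (.e (nat_lit 286753) (nat_lit 10) (.e (nat_lit 344160) (nat_lit 37) (.e (nat_lit 647196) (nat_lit 9) (.e (nat_lit 1313) (nat_lit 98) (.e (nat_lit 147467) (nat_lit 9) .nil)))))))) (.g (nat_lit 6) .nil .nil))) 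
(.lf (nat_lit 2473) (.g (nat_lit 2269) (.e (nat_lit 232) (nat_lit 21) (.e (nat_lit 336060) (nat_lit 7) (.e (nat_lit 319533) (nat_lit 16) (.e (nat_lit 286753) (nat_lit 10) (.e (nat_lit 344168) (nat_lit 40) (.e (nat_lit 671782) (nat_lit 12) (.e (nat_lit 163849) (nat_lit 0) (.e (nat_lit 7460) (nat_lit 396) (.e (nat_lit 2423) (nat_lit 157) .nil))))))))) (.g (nat_lit 5) .nil .nil)))) (.nd (nat_lit 5) 
(.lf (nat_lit 2457) (.g (nat_lit 3067) (.e (nat_lit 232) (nat_lit 21) (.e (nat_lit 336060) (nat_lit 7) (.e (nat_lit 319533) (nat_lit 16) (.e (nat_lit 286753) (nat_lit 10) (.e (nat_lit 344160) (nat_lit 37) (.e (nat_lit 647201) (nat_lit 12) (.e (nat_lit 65280) (nat_lit 55) (.e (nat_lit 778355) (nat_lit 9) .nil)))))))) (.g (nat_lit 6) .nil .nil))) 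
(.lf (nat_lit 2489) (.g (nat_lit 3516) (.e (nat_lit 232) (nat_lit 21) (.e (nat_lit 336060) (nat_lit 7) (.e (nat_lit 319533) (nat_lit 16) (.e (nat_lit 286753) (nat_lit 10) (.e (nat_lit 344169) (nat_lit 40) (.e (nat_lit 671759) (nat_lit 3) (.e (nat_lit 57353) (nat_lit 0) (.e (nat_lit 6811) (nat_lit 365) (.e (nat_lit 2423) (nat_lit 157) .nil))))))))) (.g (nat_lit 7) .nil .nil)))))) 
(.nd (nat_lit 3) (.nd (nat_lit 4) (.nd (nat_lit 5) 
(.lf (nat_lit 2437) (.g (nat_lit 3067) (.e (nat_lit 232) (nat_lit 21) (.e (nat_lit 336060) (nat_lit 7) (.e (nat_lit 319533) (nat_lit 16) (.e (nat_lit 286753) (nat_lit 10) (.e (nat_lit 344160) (nat_lit 37) (.e (nat_lit 647195) (nat_lit 9) (.e (nat_lit 1310) (nat_lit 98) (.e (nat_lit 147464) (nat_lit 9) .nil)))))))) (.g (nat_lit 5) .nil .nil))) 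
(.lf (nat_lit 2469) (.g (nat_lit 1743) (.e (nat_lit 232) (nat_lit 21) (.e (nat_lit 336060) (nat_lit 7) (.e (nat_lit 319533) (nat_lit 16) (.e (nat_lit 286753) (nat_lit 10) (.e (nat_lit 344168) (nat_lit 40) (.e (nat_lit 671773) (nat_lit 9) (.e (nat_lit 2695) (nat_lit 169) (.e (nat_lit 213000) (nat_lit 9) .nil)))))))) (.g (nat_lit 4) .nil .nil)))) (.nd (nat_lit 5) 
(.lf (nat_lit 2453) (.g (nat_lit 3152) (.e (nat_lit 232) (nat_lit 21) (.e (nat_lit 336060) (nat_lit 7) (.e (nat_lit 319533) (nat_lit 16) (.e (nat_lit 286753) (nat_lit 10) (.e (nat_lit 344160) (nat_lit 37) (.e (nat_lit 647201) (nat_lit 12) (.e (nat_lit 65280) (nat_lit 55) (.e (nat_lit 778334) (nat_lit 9) .nil)))))))) (.g (nat_lit 5) .nil .nil))) 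
(.lf (nat_lit 2485) (.g (nat_lit 2005) (.e (nat_lit 232) (nat_lit 21) (.e (nat_lit 336060) (nat_lit 7) (.e (nat_lit 319533) (nat_lit 16) (.e (nat_lit 286753) (nat_lit 10) (.e (nat_lit 344168) (nat_lit 40) (.e (nat_lit 679680) (nat_lit 14) (.e (nat_lit 1151) (nat_lit 85) (.e (nat_lit 40972) (nat_lit 9) .nil)))))))) (.g (nat_lit 4) .nil .nil))))) (.nd (nat_lit 4) (.nd (nat_lit 5) 
(.lf (nat_lit 2445) (.g (nat_lit 2294) (.e (nat_lit 232) (nat_lit 21) (.e (nat_lit 336060) (nat_lit 7) (.e (nat_lit 319533) (nat_lit 16) (.e (nat_lit 286753) (nat_lit 10) (.e (nat_lit 344160) (nat_lit 37) (.e (nat_lit 647201) (nat_lit 12) (.e (nat_lit 57351) (nat_lit 0) (.e (nat_lit 7464) (nat_lit 396) (.e (nat_lit 2422) (nat_lit 157) .nil))))))))) (.g (nat_lit 4) .nil .nil))) 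
(.lf (nat_lit 2477) (.g (nat_lit 2485) (.e (nat_lit 232) (nat_lit 21) (.e (nat_lit 336060) (nat_lit 7) (.e (nat_lit 319533) (nat_lit 16) (.e (nat_lit 286753) (nat_lit 10) (.e (nat_lit 344168) (nat_lit 40) (.e (nat_lit 671782) (nat_lit 12) (.e (nat_lit 164049) (nat_lit 55) (.e (nat_lit 778361) (nat_lit 9) .nil)))))))) (.g (nat_lit 4) .nil .nil)))) (.nd (nat_lit 5) 
(.lf (nat_lit 2461) (.g (nat_lit 1981) (.e (nat_lit 232) (nat_lit 21) (.e (nat_lit 336060) (nat_lit 7) (.e (nat_lit 319533) (nat_lit 16) (.e (nat_lit 286753) (nat_lit 10) (.e (nat_lit 344160) (nat_lit 37) (.e (nat_lit 647204) (nat_lit 14) (.e (nat_lit 2574) (nat_lit 161) (.e (nat_lit 40972) (nat_lit 9) .nil)))))))) (.g (nat_lit 4) .nil .nil))) 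
(.lf (nat_lit 2493) (.g (nat_lit 2358) (.e (nat_lit 232) (nat_lit 21) (.e (nat_lit 336060) (nat_lit 7) (.e (nat_lit 319533) (nat_lit 16) (.e (nat_lit 286753) (nat_lit 10) (.e (nat_lit 344169) (nat_lit 40) (.e (nat_lit 671770) (nat_lit 9) (.e (nat_lit 2747) (nat_lit 175) (.e (nat_lit 262151) (nat_lit 9) .nil)))))))) (.g (nat_lit 4) .nil .nil))))))) 
(.nd (nat_lit 2) (.nd (nat_lit 3) (.nd (nat_lit 4) (.nd (nat_lit 5) 
(.lf (nat_lit 2435) (.g (nat_lit 2671) (.e (nat_lit 232) (nat_lit 21) (.e (nat_lit 336060) (nat_lit 7) (.e (nat_lit 319533) (nat_lit 16) (.e (nat_lit 286753) (nat_lit 10) (.e (nat_lit 344160) (nat_lit 37) (.e (nat_lit 647195) (nat_lit 9) (.e (nat_lit 1086) (nat_lit 81) (.e (nat_lit 2334) (nat_lit 151) (.e (nat_lit 778334) (nat_lit 9) .nil))))))))) (.g (nat_lit 4) .nil .nil))) 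
(.lf (nat_lit 2467) (.g (nat_lit 2224) (.e (nat_lit 232) (nat_lit 21) (.e (nat_lit 336060) (nat_lit 7) (.e (nat_lit 319533) (nat_lit 16) (.e (nat_lit 286753) (nat_lit 10) (.e (nat_lit 344168) (nat_lit 40) (.e (nat_lit 671771) (nat_lit 9) (.e (nat_lit 2700) (nat_lit 169) (.e (nat_lit 213000) (nat_lit 9) .nil)))))))) (.g (nat_lit 5) .nil .nil)))) (.nd (nat_lit 5) 
(.lf (nat_lit 2451) (.g (nat_lit 4154) (.e (nat_lit 232) (nat_lit 21) (.e (nat_lit 336060) (nat_lit 7) (.e (nat_lit 319533) (nat_lit 16) (.e (nat_lit 286753) (nat_lit 10) (.e (nat_lit 344160) (nat_lit 37) (.e (nat_lit 647201) (nat_lit 12) (.e (nat_lit 57575) (nat_lit 55) (.e (nat_lit 778360) (nat_lit 9) .nil)))))))) (.g (nat_lit 7) .nil .nil))) 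
(.lf (nat_lit 2483) (.g (nat_lit 1806) (.e (nat_lit 232) (nat_lit 21) (.e (nat_lit 336060) (nat_lit 7) (.e (nat_lit 319533) (nat_lit 16) (.e (nat_lit 286753) (nat_lit 10) (.e (nat_lit 344168) (nat_lit 40) (.e (nat_lit 671786) (nat_lit 14) (.e (nat_lit 1150) (nat_lit 85) (.e (nat_lit 40972) (nat_lit 9) .nil)))))))) (.g (nat_lit 4) .nil .nil))))) (.nd (nat_lit 4) (.nd (nat_lit 5) 
(.lf (nat_lit 2443) (.g (nat_lit 4399) (.e (nat_lit 232) (nat_lit 21) (.e (nat_lit 336060) (nat_lit 7) (.e (nat_lit 319533) (nat_lit 16) (.e (nat_lit 286753) (nat_lit 10) (.e (nat_lit 344160) (nat_lit 37) (.e (nat_lit 647200) (nat_lit 12) (.e (nat_lit 57573) (nat_lit 55) (.e (nat_lit 778334) (nat_lit 9) .nil)))))))) (.g (nat_lit 6) .nil .nil))) 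
(.lf (nat_lit 2475) (.g (nat_lit 2523) (.e (nat_lit 232) (nat_lit 21) (.e (nat_lit 336060) (nat_lit 7) (.e (nat_lit 319533) (nat_lit 16) (.e (nat_lit 286753) (nat_lit 10) (.e (nat_lit 344168) (nat_lit 40) (.e (nat_lit 671782) (nat_lit 12) (.e (nat_lit 164046) (nat_lit 55) (.e (nat_lit 778368) (nat_lit 9) .nil)))))))) (.g (nat_lit 4) .nil .nil)))) (.nd (nat_lit 5) 
(.lf (nat_lit 2459) (.g (nat_lit 3006) (.e (nat_lit 232) (nat_lit 21) (.e (nat_lit 336060) (nat_lit 7) (.e (nat_lit 319533) (nat_lit 16) (.e (nat_lit 286753) (nat_lit 10) (.e (nat_lit 344160) (nat_lit 37) (.e (nat_lit 647201) (nat_lit 12) (.e (nat_lit 65280) (nat_lit 55) (.e (nat_lit 778360) (nat_lit 9) .nil)))))))) (.g (nat_lit 6) .nil .nil))) 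
(.lf (nat_lit 2491) (.g (nat_lit 2237) (.e (nat_lit 232) (nat_lit 21) (.e (nat_lit 336060) (nat_lit 7) (.e (nat_lit 319533) (nat_lit 16) (.e (nat_lit 286753) (nat_lit 10) (.e (nat_lit 344169) (nat_lit 40) (.e (nat_lit 671770) (nat_lit 9) (.e (nat_lit 2694) (nat_lit 169) (.e (nat_lit 213000) (nat_lit 9) .nil)))))))) (.g (nat_lit 4) .nil .nil)))))) (.nd (nat_lit 3) (.nd (nat_lit 4) (.nd (nat_lit 5) 
(.lf (nat_lit 2439) (.g (nat_lit 3555) (.e (nat_lit 232) (nat_lit 21) (.e (nat_lit 336060) (nat_lit 7) (.e (nat_lit 319533) (nat_lit 16) (.e (nat_lit 286753) (nat_lit 10) (.e (nat_lit 344160) (nat_lit 37) (.e (nat_lit 647195) (nat_lit 9) (.e (nat_lit 1310) (nat_lit 98) (.e (nat_lit 147466) (nat_lit 9) .nil)))))))) (.g (nat_lit 6) .nil .nil))) 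
(.lf (nat_lit 2471) (.g (nat_lit 2213) (.e (nat_lit 232) (nat_lit 21) (.e (nat_lit 336060) (nat_lit 7) (.e (nat_lit 319533) (nat_lit 16) (.e (nat_lit 286753) (nat_lit 10) (.e (nat_lit 344168) (nat_lit 40) (.e (nat_lit 671774) (nat_lit 9) (.e (nat_lit 2698) (nat_lit 169) (.e (nat_lit 213000) (nat_lit 9) .nil)))))))) (.g (nat_lit 4) .nil .nil)))) (.nd (nat_lit 5) 
(.lf (nat_lit 2455) (.g (nat_lit 2969) (.e (nat_lit 232) (nat_lit 21) (.e (nat_lit 336060) (nat_lit 7) (.e (nat_lit 319533) (nat_lit 16) (.e (nat_lit 286753) (nat_lit 10) (.e (nat_lit 344160) (nat_lit 37) (.e (nat_lit 647201) (nat_lit 12) (.e (nat_lit 65280) (nat_lit 55) (.e (nat_lit 778353) (nat_lit 9) .nil)))))))) (.g (nat_lit 5) .nil .nil))) 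
(.lf (nat_lit 2487) (.g (nat_lit 2880) (.e (nat_lit 232) (nat_lit 21) (.e (nat_lit 336060) (nat_lit 7) (.e (nat_lit 319533) (nat_lit 16) (.e (nat_lit 286753) (nat_lit 10) (.e (nat_lit 344169) (nat_lit 40) (.e (nat_lit 671759) (nat_lit 3) (.e (nat_lit 57352) (nat_lit 0) (.e (nat_lit 6811) (nat_lit 365) (.e (nat_lit 2423) (nat_lit 157) .nil))))))))) (.g (nat_lit 6) .nil .nil))))) 
(.nd (nat_lit 4) (.nd (nat_lit 5) 
(.lf (nat_lit 2447) (.g (nat_lit 2446) (.e (nat_lit 232) (nat_lit 21) (.e (nat_lit 336060) (nat_lit 7) (.e (nat_lit 319533) (nat_lit 16) (.e (nat_lit 286753) (nat_lit 10) (.e (nat_lit 344160) (nat_lit 37) (.e (nat_lit 647201) (nat_lit 12) (.e (nat_lit 57573) (nat_lit 55) (.e (nat_lit 786176) (nat_lit 9) .nil)))))))) (.g (nat_lit 6) .nil .nil))) 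
(.lf (nat_lit 2479) (.g (nat_lit 2209) (.e (nat_lit 232) (nat_lit 21) (.e (nat_lit 336060) (nat_lit 7) (.e (nat_lit 319533) (nat_lit 16) (.e (nat_lit 286753) (nat_lit 10) (.e (nat_lit 344168) (nat_lit 40) (.e (nat_lit 671782) (nat_lit 12) (.e (nat_lit 164050) (nat_lit 55) (.e (nat_lit 778361) (nat_lit 9) .nil)))))))) (.g (nat_lit 4) .nil .nil)))) (.nd (nat_lit 5) 
(.lf (nat_lit 2463) (.g (nat_lit 1344) (.e (nat_lit 232) (nat_lit 21) (.e (nat_lit 336060) (nat_lit 7) (.e (nat_lit 319533) (nat_lit 16) (.e (nat_lit 286753) (nat_lit 10) (.e (nat_lit 344168) (nat_lit 40) .nil))))) .nil)) 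
(.lf (nat_lit 2495) (.g (nat_lit 1992) (.e (nat_lit 232) (nat_lit 21) (.e (nat_lit 336060) (nat_lit 7) (.e (nat_lit 319533) (nat_lit 16) (.e (nat_lit 286753) (nat_lit 10) (.e (nat_lit 344169) (nat_lit 40) (.e (nat_lit 671773) (nat_lit 9) (.e (nat_lit 2695) (nat_lit 169) (.e (nat_lit 213000) (nat_lit 9) .nil)))))))) (.g (nat_lit 4) .nil .nil)))))))))

noncomputable def tv034 : DT := (.nd (nat_lit 0) (.nd (nat_lit 1) (.nd (nat_lit 2) (.nd (nat_lit 3) (.nd (nat_lit 4) (.nd (nat_lit 5) 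
(.lf (nat_lit 2496) (.g (nat_lit 2208) (.e (nat_lit 232) (nat_lit 21) (.e (nat_lit 336060) (nat_lit 7) (.e (nat_lit 319533) (nat_lit 16) (.e (nat_lit 286753) (nat_lit 10) (.e (nat_lit 344169) (nat_lit 40) (.e (nat_lit 671774) (nat_lit 9) (.e (nat_lit 2695) (nat_lit 169) (.e (nat_lit 213000) (nat_lit 9) .nil)))))))) (.g (nat_lit 4) .nil .nil))) 
(.lf (nat_lit 2528) (.g (nat_lit 1861) (.e (nat_lit 232) (nat_lit 21) (.e (nat_lit 336060) (nat_lit 7) (.e (nat_lit 319533) (nat_lit 16) (.e (nat_lit 286753) (nat_lit 10) (.e (nat_lit 344169) (nat_lit 40) (.e (nat_lit 679680) (nat_lit 14) (.e (nat_lit 1150) (nat_lit 85) (.e (nat_lit 40972) (nat_lit 9) .nil)))))))) (.g (nat_lit 4) .nil .nil)))) (.nd (nat_lit 5) 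
(.lf (nat_lit 2512) (.g (nat_lit 2615) (.e (nat_lit 232) (nat_lit 21) (.e (nat_lit 336060) (nat_lit 7) (.e (nat_lit 319533) (nat_lit 16) (.e (nat_lit 286753) (nat_lit 10) (.e (nat_lit 344169) (nat_lit 40) (.e (nat_lit 671780) (nat_lit 12) (.e (nat_lit 164049) (nat_lit 55) (.e (nat_lit 778360) (nat_lit 9) .nil)))))))) (.g (nat_lit 5) .nil .nil))) 
(.lf (nat_lit 2544) (.g (nat_lit 2182) (.e (nat_lit 232) (nat_lit 21) (.e (nat_lit 336060) (nat_lit 7) (.e (nat_lit 319534) (nat_lit 16) (.e (nat_lit 286749) (nat_lit 9) (.e (nat_lit 335907) (nat_lit 0) (.e (nat_lit 1994) (nat_lit 137) (.e (nat_lit 663585) (nat_lit 12) (.e (nat_lit 164050) (nat_lit 55) (.e (nat_lit 778361) (nat_lit 9) .nil))))))))) (.g (nat_lit 4) .nil .nil))))) 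
(.nd (nat_lit 4) (.nd (nat_lit 5) 
(.lf (nat_lit 2504) (.g (nat_lit 2139) (.e (nat_lit 232) (nat_lit 21) (.e (nat_lit 336060) (nat_lit 7) (.e (nat_lit 319533) (nat_lit 16) (.e (nat_lit 286753) (nat_lit 10) (.e (nat_lit 344169) (nat_lit 40) (.e (nat_lit 671780) (nat_lit 12) (.e (nat_lit 164043) (nat_lit 55) (.e (nat_lit 778368) (nat_lit 9) .nil)))))))) (.g (nat_lit 4) .nil .nil))) 
(.lf (nat_lit 2536) (.g (nat_lit 2046) (.e (nat_lit 232) (nat_lit 21) (.e (nat_lit 336060) (nat_lit 7) (.e (nat_lit 319534) (nat_lit 16) (.e (nat_lit 286728) (nat_lit 0) (.e (nat_lit 2280) (nat_lit 150) (.e (nat_lit 770090) (nat_lit 17) (.e (nat_lit 188160) (nat_lit 40) .nil))))))) (.g (nat_lit 5) .nil .nil)))) (.nd (nat_lit 5) 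
(.lf (nat_lit 2520) (.g (nat_lit 2362) (.e (nat_lit 232) (nat_lit 21) (.e (nat_lit 336060) (nat_lit 7) (.e (nat_lit 319533) (nat_lit 16) (.e (nat_lit 286753) (nat_lit 10) (.e (nat_lit 344169) (nat_lit 40) (.e (nat_lit 671783) (nat_lit 13) (.e (nat_lit 229468) (nat_lit 55) (.e (nat_lit 778334) (nat_lit 9) .nil)))))))) (.g (nat_lit 4) .nil .nil))) 
(.lf (nat_lit 2552) (.g (nat_lit 2443) (.e (nat_lit 232) (nat_lit 21) (.e (nat_lit 336060) (nat_lit 7) (.e (nat_lit 319534) (nat_lit 16) (.e (nat_lit 286756) (nat_lit 10) (.e (nat_lit 344088) (nat_lit 18) (.e (nat_lit 5573) (nat_lit 308) (.e (nat_lit 57395) (nat_lit 8) (.e (nat_lit 147466) (nat_lit 9) .nil)))))))) (.g (nat_lit 5) .nil .nil)))))) (.nd (nat_lit 3) (.nd (nat_lit 4) (.nd (nat_lit 5) 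
(.lf (nat_lit 2500) (.g (nat_lit 2485) (.e (nat_lit 232) (nat_lit 21) (.e (nat_lit 336060) (nat_lit 7) (.e (nat_lit 319533) (nat_lit 16) (.e (nat_lit 286753) (nat_lit 10) (.e (nat_lit 344169) (nat_lit 40) (.e (nat_lit 671776) (nat_lit 9) (.e (nat_lit 2693) (nat_lit 169) (.e (nat_lit 213000) (nat_lit 9) .nil)))))))) (.g (nat_lit 5) .nil .nil))) 
(.lf (nat_lit 2532) (.g (nat_lit 2679) (.e (nat_lit 232) (nat_lit 21) (.e (nat_lit 336060) (nat_lit 7) (.e (nat_lit 319533) (nat_lit 16) (.e (nat_lit 286759) (nat_lit 12) (.e (nat_lit 385114) (nat_lit 53) (.e (nat_lit 811045) (nat_lit 14) (.e (nat_lit 40972) (nat_lit 9) .nil))))))) (.g (nat_lit 5) .nil .nil)))) (.nd (nat_lit 5) 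
(.lf (nat_lit 2516) (.g (nat_lit 2263) (.e (nat_lit 232) (nat_lit 21) (.e (nat_lit 336060) (nat_lit 7) (.e (nat_lit 319533) (nat_lit 16) (.e (nat_lit 286753) (nat_lit 10) (.e (nat_lit 344169) (nat_lit 40) (.e (nat_lit 671781) (nat_lit 12) (.e (nat_lit 164050) (nat_lit 55) (.e (nat_lit 778360) (nat_lit 9) .nil)))))))) (.g (nat_lit 4) .nil .nil))) 
(.lf (nat_lit 2548) (.g (nat_lit 2419) (.e (nat_lit 232) (nat_lit 21) (.e (nat_lit 336060) (nat_lit 7) (.e (nat_lit 319534) (nat_lit 16) (.e (nat_lit 286749) (nat_lit 9) (.e (nat_lit 336282) (nat_lit 15) (.e (nat_lit 3806) (nat_lit 231) (.e (nat_lit 811045) (nat_lit 14) (.e (nat_lit 40972) (nat_lit 9) .nil)))))))) (.g (nat_lit 4) .nil .nil))))) (.nd (nat_lit 4) (.nd (nat_lit 5) 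
(.lf (nat_lit 2508) (.g (nat_lit 2324) (.e (nat_lit 232) (nat_lit 21) (.e (nat_lit 336060) (nat_lit 7) (.e (nat_lit 319533) (nat_lit 16) (.e (nat_lit 286753) (nat_lit 10) (.e (nat_lit 344169) (nat_lit 40) (.e (nat_lit 671780) (nat_lit 12) (.e (nat_lit 164046) (nat_lit 55) (.e (nat_lit 778353) (nat_lit 9) .nil)))))))) (.g (nat_lit 4) .nil .nil))) 
(.lf (nat_lit 2540) (.g (nat_lit 2323) (.e (nat_lit 232) (nat_lit 21) (.e (nat_lit 336060) (nat_lit 7) (.e (nat_lit 319534) (nat_lit 16) (.e (nat_lit 286749) (nat_lit 9) (.e (nat_lit 335907) (nat_lit 0) (.e (nat_lit 1994) (nat_lit 137) (.e (nat_lit 663585) (nat_lit 12) (.e (nat_lit 164045) (nat_lit 55) (.e (nat_lit 778368) (nat_lit 9) .nil))))))))) (.g (nat_lit 4) .nil .nil)))) (.nd (nat_lit 5) 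
(.lf (nat_lit 2524) (.g (nat_lit 2694) (.e (nat_lit 232) (nat_lit 21) (.e (nat_lit 336060) (nat_lit 7) (.e (nat_lit 319533) (nat_lit 16) (.e (nat_lit 286753) (nat_lit 10) (.e (nat_lit 344169) (nat_lit 40) (.e (nat_lit 671786) (nat_lit 14) (.e (nat_lit 1149) (nat_lit 85) (.e (nat_lit 40972) (nat_lit 9) .nil)))))))) (.g (nat_lit 5) .nil .nil))) 
(.lf (nat_lit 2556) (.g (nat_lit 2020) (.e (nat_lit 232) (nat_lit 21) (.e (nat_lit 336060) (nat_lit 7) (.e (nat_lit 319534) (nat_lit 16) (.e (nat_lit 286756) (nat_lit 10) (.e (nat_lit 344090) (nat_lit 18) (.e (nat_lit 5566) (nat_lit 308) (.e (nat_lit 57395) (nat_lit 8) (.e (nat_lit 147467) (nat_lit 9) .nil)))))))) (.g (nat_lit 4) .nil .nil))))))) 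
(.nd (nat_lit 2) (.nd (nat_lit 3) (.nd (nat_lit 4) (.nd (nat_lit 5) 
(.lf (nat_lit 2498) (.g (nat_lit 2697) (.e (nat_lit 232) (nat_lit 21) (.e (nat_lit 336060) (nat_lit 7) (.e (nat_lit 319533) (nat_lit 16) (.e (nat_lit 286753) (nat_lit 10) (.e (nat_lit 344169) (nat_lit 40) (.e (nat_lit 671774) (nat_lit 9) (.e (nat_lit 2699) (nat_lit 169) (.e (nat_lit 213000) (nat_lit 9) .nil)))))))) (.g (nat_lit 5) .nil .nil))) 
(.lf (nat_lit 2530) (.g (nat_lit 2227) (.e (nat_lit 232) (nat_lit 21) (.e (nat_lit 336060) (nat_lit 7) (.e (nat_lit 319533) (nat_lit 16) (.e (nat_lit 286758) (nat_lit 12) (.e (nat_lit 385115) (nat_lit 53) (.e (nat_lit 811045) (nat_lit 14) (.e (nat_lit 40972) (nat_lit 9) .nil))))))) (.g (nat_lit 4) .nil .nil)))) (.nd (nat_lit 5) 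
(.lf (nat_lit 2514) (.g (nat_lit 2954) (.e (nat_lit 232) (nat_lit 21) (.e (nat_lit 336060) (nat_lit 7) (.e (nat_lit 319533) (nat_lit 16) (.e (nat_lit 286753) (nat_lit 10) (.e (nat_lit 344169) (nat_lit 40) (.e (nat_lit 671780) (nat_lit 12) (.e (nat_lit 164050) (nat_lit 55) (.e (nat_lit 778360) (nat_lit 9) .nil)))))))) (.g (nat_lit 5) .nil .nil))) 
(.lf (nat_lit 2546) (.g (nat_lit 2474) (.e (nat_lit 232) (nat_lit 21) (.e (nat_lit 336060) (nat_lit 7) (.e (nat_lit 319534) (nat_lit 16) (.e (nat_lit 286749) (nat_lit 9) (.e (nat_lit 336280) (nat_lit 15) (.e (nat_lit 3801) (nat_lit 231) (.e (nat_lit 811045) (nat_lit 14) (.e (nat_lit 40968) (nat_lit 9) .nil)))))))) (.g (nat_lit 4) .nil .nil))))) (.nd (nat_lit 4) (.nd (nat_lit 5) 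
(.lf (nat_lit 2506) (.g (nat_lit 2740) (.e (nat_lit 232) (nat_lit 21) (.e (nat_lit 336060) (nat_lit 7) (.e (nat_lit 319533) (nat_lit 16) (.e (nat_lit 286753) (nat_lit 10) (.e (nat_lit 344169) (nat_lit 40) (.e (nat_lit 671780) (nat_lit 12) (.e (nat_lit 164044) (nat_lit 55) (.e (nat_lit 778368) (nat_lit 9) .nil)))))))) (.g (nat_lit 5) .nil .nil))) 
(.lf (nat_lit 2538) (.g (nat_lit 3916) (.e (nat_lit 232) (nat_lit 21) (.e (nat_lit 336060) (nat_lit 7) (.e (nat_lit 319534) (nat_lit 16) (.e (nat_lit 286748) (nat_lit 9) (.e (nat_lit 336295) (nat_lit 15) (.e (nat_lit 3806) (nat_lit 231) (.e (nat_lit 811045) (nat_lit 14) (.e (nat_lit 40972) (nat_lit 9) .nil)))))))) (.g (nat_lit 5) .nil .nil)))) (.nd (nat_lit 5) 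
(.lf (nat_lit 2522) (.g (nat_lit 2745) (.e (nat_lit 232) (nat_lit 21) (.e (nat_lit 336060) (nat_lit 7) (.e (nat_lit 319533) (nat_lit 16) (.e (nat_lit 286753) (nat_lit 10) (.e (nat_lit 344169) (nat_lit 40) (.e (nat_lit 671785) (nat_lit 14) (.e (nat_lit 1146) (nat_lit 85) (.e (nat_lit 40972) (nat_lit 9) .nil)))))))) (.g (nat_lit 5) .nil .nil))) 
(.lf (nat_lit 2554) (.g (nat_lit 1864) (.e (nat_lit 232) (nat_lit 21) (.e (nat_lit 336060) (nat_lit 7) (.e (nat_lit 319534) (nat_lit 16) (.e (nat_lit 286756) (nat_lit 10) (.e (nat_lit 344088) (nat_lit 18) (.e (nat_lit 5918) (nat_lit 320) (.e (nat_lit 2610) (nat_lit 163) (.e (nat_lit 164050) (nat_lit 55) (.e (nat_lit 778360) (nat_lit 9) .nil))))))))) (.g (nat_lit 4) .nil .nil)))))) 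
(.nd (nat_lit 3) (.nd (nat_lit 4) (.nd (nat_lit 5) 
(.lf (nat_lit 2502) (.g (nat_lit 2674) (.e (nat_lit 232) (nat_lit 21) (.e (nat_lit 336060) (nat_lit 7) (.e (nat_lit 319533) (nat_lit 16) (.e (nat_lit 286753) (nat_lit 10) (.e (nat_lit 344169) (nat_lit 40) (.e (nat_lit 671780) (nat_lit 12) (.e (nat_lit 164035) (nat_lit 55) (.e (nat_lit 778368) (nat_lit 9) .nil)))))))) (.g (nat_lit 5) .nil .nil))) 
(.lf (nat_lit 2534) (.g (nat_lit 3381) (.e (nat_lit 232) (nat_lit 21) (.e (nat_lit 336060) (nat_lit 7) (.e (nat_lit 319533) (nat_lit 16) (.e (nat_lit 286759) (nat_lit 12) (.e (nat_lit 385115) (nat_lit 53) (.e (nat_lit 811045) (nat_lit 14) (.e (nat_lit 40972) (nat_lit 9) .nil))))))) (.g (nat_lit 0) .nil .nil)))) (.nd (nat_lit 5) 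
(.lf (nat_lit 2518) (.g (nat_lit 1996) (.e (nat_lit 232) (nat_lit 21) (.e (nat_lit 336060) (nat_lit 7) (.e (nat_lit 319533) (nat_lit 16) (.e (nat_lit 286753) (nat_lit 10) (.e (nat_lit 344169) (nat_lit 40) (.e (nat_lit 671782) (nat_lit 12) (.e (nat_lit 164049) (nat_lit 55) (.e (nat_lit 778360) (nat_lit 9) .nil)))))))) (.g (nat_lit 4) .nil .nil))) 
(.lf (nat_lit 2550) (.g (nat_lit 2425) (.e (nat_lit 232) (nat_lit 21) (.e (nat_lit 336060) (nat_lit 7) (.e (nat_lit 319534) (nat_lit 16) (.e (nat_lit 286749) (nat_lit 9) (.e (nat_lit 343808) (nat_lit 20) (.e (nat_lit 221218) (nat_lit 24) (.e (nat_lit 213000) (nat_lit 9) .nil))))))) (.g (nat_lit 4) .nil .nil))))) (.nd (nat_lit 4) (.nd (nat_lit 5) 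
(.lf (nat_lit 2510) (.g (nat_lit 2196) (.e (nat_lit 232) (nat_lit 21) (.e (nat_lit 336060) (nat_lit 7) (.e (nat_lit 319533) (nat_lit 16) (.e (nat_lit 286753) (nat_lit 10) (.e (nat_lit 344169) (nat_lit 40) (.e (nat_lit 671780) (nat_lit 12) (.e (nat_lit 164047) (nat_lit 55) (.e (nat_lit 778353) (nat_lit 9) .nil)))))))) (.g (nat_lit 4) .nil .nil))) 
(.lf (nat_lit 2542) (.g (nat_lit 1911) (.e (nat_lit 232) (nat_lit 21) (.e (nat_lit 336060) (nat_lit 7) (.e (nat_lit 319534) (nat_lit 16) (.e (nat_lit 286749) (nat_lit 9) (.e (nat_lit 335907) (nat_lit 0) (.e (nat_lit 1994) (nat_lit 137) (.e (nat_lit 663585) (nat_lit 12) (.e (nat_lit 164050) (nat_lit 55) (.e (nat_lit 778359) (nat_lit 9) .nil))))))))) (.g (nat_lit 4) .nil .nil)))) (.nd (nat_lit 5) 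
(.lf (nat_lit 2526) (.g (nat_lit 2681) (.e (nat_lit 232) (nat_lit 21) (.e (nat_lit 336060) (nat_lit 7) (.e (nat_lit 319533) (nat_lit 16) (.e (nat_lit 286753) (nat_lit 10) (.e (nat_lit 344169) (nat_lit 40) (.e (nat_lit 671789) (nat_lit 14) (.e (nat_lit 1146) (nat_lit 85) (.e (nat_lit 40972) (nat_lit 9) .nil)))))))) (.g (nat_lit 5) .nil .nil))) 
(.lf (nat_lit 2558) (.g (nat_lit 2737) (.e (nat_lit 232) (nat_lit 21) (.e (nat_lit 336060) (nat_lit 7) (.e (nat_lit 319534) (nat_lit 16) (.e (nat_lit 286756) (nat_lit 10) (.e (nat_lit 344090) (nat_lit 18) (.e (nat_lit 5569) (nat_lit 308) (.e (nat_lit 57395) (nat_lit 8) (.e (nat_lit 147466) (nat_lit 9) .nil)))))))) (.g (nat_lit 5) .nil .nil)))))))) 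
(.nd (nat_lit 1) (.nd (nat_lit 2) (.nd (nat_lit 3) (.nd (nat_lit 4) (.nd (nat_lit 5) 
(.lf (nat_lit 2497) (.g (nat_lit 2691) (.e (nat_lit 232) (nat_lit 21) (.e (nat_lit 336060) (nat_lit 7) (.e (nat_lit 319533) (nat_lit 16) (.e (nat_lit 286753) (nat_lit 10) (.e (nat_lit 344169) (nat_lit 40) (.e (nat_lit 671774) (nat_lit 9) (.e (nat_lit 2698) (nat_lit 169) (.e (nat_lit 213000) (nat_lit 9) .nil)))))))) (.g (nat_lit 5) .nil .nil))) 
(.lf (nat_lit 2529) (.g (nat_lit 2239) (.e (nat_lit 232) (nat_lit 21) (.e (nat_lit 336060) (nat_lit 7) (.e (nat_lit 319533) (nat_lit 16) (.e (nat_lit 286753) (nat_lit 10) (.e (nat_lit 344169) (nat_lit 40) (.e (nat_lit 679680) (nat_lit 14) (.e (nat_lit 1151) (nat_lit 85) (.e (nat_lit 40972) (nat_lit 9) .nil)))))))) (.g (nat_lit 5) .nil .nil)))) (.nd (nat_lit 5) 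
(.lf (nat_lit 2513) (.g (nat_lit 2319) (.e (nat_lit 232) (nat_lit 21) (.e (nat_lit 336060) (nat_lit 7) (.e (nat_lit 319533) (nat_lit 16) (.e (nat_lit 286753) (nat_lit 10) (.e (nat_lit 344169) (nat_lit 40) (.e (nat_lit 671780) (nat_lit 12) (.e (nat_lit 164050) (nat_lit 55) (.e (nat_lit 778359) (nat_lit 9) .nil)))))))) (.g (nat_lit 4) .nil .nil))) 
(.lf (nat_lit 2545) (.g (nat_lit 2031) (.e (nat_lit 232) (nat_lit 21) (.e (nat_lit 336060) (nat_lit 7) (.e (nat_lit 319534) (nat_lit 16) (.e (nat_lit 286749) (nat_lit 9) (.e (nat_lit 335907) (nat_lit 0) (.e (nat_lit 1996) (nat_lit 137) (.e (nat_lit 663587) (nat_lit 14) (.e (nat_lit 1150) (nat_lit 85) (.e (nat_lit 40972) (nat_lit 9) .nil))))))))) (.g (nat_lit 4) .nil .nil))))) 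
(.nd (nat_lit 4) (.nd (nat_lit 5) 
(.lf (nat_lit 2505) (.g (nat_lit 2233) (.e (nat_lit 232) (nat_lit 21) (.e (nat_lit 336060) (nat_lit 7) (.e (nat_lit 319533) (nat_lit 16) (.e (nat_lit 286753) (nat_lit 10) (.e (nat_lit 344169) (nat_lit 40) (.e (nat_lit 671780) (nat_lit 12) (.e (nat_lit 164044) (nat_lit 55) (.e (nat_lit 778353) (nat_lit 9) .nil)))))))) (.g (nat_lit 4) .nil .nil))) 
(.lf (nat_lit 2537) (.g (nat_lit 2241) (.e (nat_lit 232) (nat_lit 21) (.e (nat_lit 336060) (nat_lit 7) (.e (nat_lit 319534) (nat_lit 16) (.e (nat_lit 286748) (nat_lit 9) (.e (nat_lit 336295) (nat_lit 15) .nil))))) .nil))) (.nd (nat_lit 5) 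
(.lf (nat_lit 2521) (.g (nat_lit 3344) (.e (nat_lit 232) (nat_lit 21) (.e (nat_lit 336060) (nat_lit 7) (.e (nat_lit 319533) (nat_lit 16) (.e (nat_lit 286753) (nat_lit 10) (.e (nat_lit 344169) (nat_lit 40) (.e (nat_lit 671784) (nat_lit 14) (.e (nat_lit 1146) (nat_lit 85) (.e (nat_lit 40972) (nat_lit 9) .nil)))))))) (.g (nat_lit 6) .nil .nil))) 
(.lf (nat_lit 2553) (.g (nat_lit 1971) (.e (nat_lit 232) (nat_lit 21) (.e (nat_lit 336060) (nat_lit 7) (.e (nat_lit 319534) (nat_lit 16) (.e (nat_lit 286756) (nat_lit 10) (.e (nat_lit 344088) (nat_lit 18) (.e (nat_lit 5573) (nat_lit 308) (.e (nat_lit 57395) (nat_lit 8) (.e (nat_lit 147467) (nat_lit 9) .nil)))))))) (.g (nat_lit 4) .nil .nil)))))) (.nd (nat_lit 3) (.nd (nat_lit 4) (.nd (nat_lit 5) 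
(.lf (nat_lit 2501) (.g (nat_lit 2166) (.e (nat_lit 232) (nat_lit 21) (.e (nat_lit 336060) (nat_lit 7) (.e (nat_lit 319533) (nat_lit 16) (.e (nat_lit 286753) (nat_lit 10) (.e (nat_lit 344169) (nat_lit 40) (.e (nat_lit 671780) (nat_lit 12) (.e (nat_lit 164035) (nat_lit 55) (.e (nat_lit 778353) (nat_lit 9) .nil)))))))) (.g (nat_lit 4) .nil .nil))) 
(.lf (nat_lit 2533) (.g (nat_lit 2207) (.e (nat_lit 232) (nat_lit 21) (.e (nat_lit 336060) (nat_lit 7) (.e (nat_lit 319533) (nat_lit 16) (.e (nat_lit 286759) (nat_lit 12) (.e (nat_lit 385115) (nat_lit 53) (.e (nat_lit 811045) (nat_lit 14) (.e (nat_lit 40968) (nat_lit 9) .nil))))))) (.g (nat_lit 4) .nil .nil)))) (.nd (nat_lit 5) 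
(.lf (nat_lit 2517) (.g (nat_lit 2107) (.e (nat_lit 232) (nat_lit 21) (.e (nat_lit 336060) (nat_lit 7) (.e (nat_lit 319533) (nat_lit 16) (.e (nat_lit 286753) (nat_lit 10) (.e (nat_lit 344169) (nat_lit 40) (.e (nat_lit 671782) (nat_lit 12) (.e (nat_lit 164046) (nat_lit 55) (.e (nat_lit 778368) (nat_lit 9) .nil)))))))) (.g (nat_lit 4) .nil .nil))) 
(.lf (nat_lit 2549) (.g (nat_lit 2286) (.e (nat_lit 232) (nat_lit 21) (.e (nat_lit 336060) (nat_lit 7) (.e (nat_lit 319534) (nat_lit 16) (.e (nat_lit 286749) (nat_lit 9) (.e (nat_lit 343808) (nat_lit 20) (.e (nat_lit 221217) (nat_lit 24) (.e (nat_lit 213000) (nat_lit 9) .nil))))))) (.g (nat_lit 4) .nil .nil))))) (.nd (nat_lit 4) (.nd (nat_lit 5) 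
(.lf (nat_lit 2509) (.g (nat_lit 2857) (.e (nat_lit 232) (nat_lit 21) (.e (nat_lit 336060) (nat_lit 7) (.e (nat_lit 319533) (nat_lit 16) (.e (nat_lit 286753) (nat_lit 10) (.e (nat_lit 344169) (nat_lit 40) (.e (nat_lit 671780) (nat_lit 12) (.e (nat_lit 164046) (nat_lit 55) (.e (nat_lit 778368) (nat_lit 9) .nil)))))))) (.g (nat_lit 5) .nil .nil))) 
(.lf (nat_lit 2541) (.g (nat_lit 2025) (.e (nat_lit 232) (nat_lit 21) (.e (nat_lit 336060) (nat_lit 7) (.e (nat_lit 319534) (nat_lit 16) (.e (nat_lit 286749) (nat_lit 9) (.e (nat_lit 335907) (nat_lit 0) (.e (nat_lit 1994) (nat_lit 137) (.e (nat_lit 663585) (nat_lit 12) (.e (nat_lit 164046) (nat_lit 55) (.e (nat_lit 778368) (nat_lit 9) .nil))))))))) (.g (nat_lit 4) .nil .nil)))) (.nd (nat_lit 5) 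
(.lf (nat_lit 2525) (.g (nat_lit 2082) (.e (nat_lit 232) (nat_lit 21) (.e (nat_lit 336060) (nat_lit 7) (.e (nat_lit 319533) (nat_lit 16) (.e (nat_lit 286753) (nat_lit 10) (.e (nat_lit 344169) (nat_lit 40) (.e (nat_lit 671786) (nat_lit 14) (.e (nat_lit 1150) (nat_lit 85) (.e (nat_lit 40972) (nat_lit 9) .nil)))))))) (.g (nat_lit 4) .nil .nil))) 
(.lf (nat_lit 2557) (.g (nat_lit 2374) (.e (nat_lit 232) (nat_lit 21) (.e (nat_lit 336060) (nat_lit 7) (.e (nat_lit 319534) (nat_lit 16) (.e (nat_lit 286756) (nat_lit 10) (.e (nat_lit 344090) (nat_lit 18) (.e (nat_lit 5566) (nat_lit 308) (.e (nat_lit 57396) (nat_lit 8) (.e (nat_lit 147467) (nat_lit 9) .nil)))))))) (.g (nat_lit 4) .nil .nil))))))) 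
(.nd (nat_lit 2) (.nd (nat_lit 3) (.nd (nat_lit 4) (.nd (nat_lit 5) 
(.lf (nat_lit 2499) (.g (nat_lit 2081) (.e (nat_lit 232) (nat_lit 21) (.e (nat_lit 336060) (nat_lit 7) (.e (nat_lit 319533) (nat_lit 16) (.e (nat_lit 286753) (nat_lit 10) (.e (nat_lit 344169) (nat_lit 40) (.e (nat_lit 671776) (nat_lit 9) (.e (nat_lit 2686) (nat_lit 169) (.e (nat_lit 213000) (nat_lit 9) .nil)))))))) (.g (nat_lit 4) .nil .nil))) 
(.lf (nat_lit 2531) (.g (nat_lit 2367) (.e (nat_lit 232) (nat_lit 21) (.e (nat_lit 336060) (nat_lit 7) (.e (nat_lit 319533) (nat_lit 16) (.e (nat_lit 286759) (nat_lit 12) (.e (nat_lit 385113) (nat_lit 53) (.e (nat_lit 811045) (nat_lit 14) (.e (nat_lit 40972) (nat_lit 9) .nil))))))) (.g (nat_lit 5) .nil .nil)))) (.nd (nat_lit 5) 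
(.lf (nat_lit 2515) (.g (nat_lit 2190) (.e (nat_lit 232) (nat_lit 21) (.e (nat_lit 336060) (nat_lit 7) (.e (nat_lit 319533) (nat_lit 16) (.e (nat_lit 286753) (nat_lit 10) (.e (nat_lit 344169) (nat_lit 40) (.e (nat_lit 671781) (nat_lit 12) (.e (nat_lit 164046) (nat_lit 55) (.e (nat_lit 778368) (nat_lit 9) .nil)))))))) (.g (nat_lit 4) .nil .nil))) 
(.lf (nat_lit 2547) (.g (nat_lit 3621) (.e (nat_lit 232) (nat_lit 21) (.e (nat_lit 336060) (nat_lit 7) (.e (nat_lit 319534) (nat_lit 16) (.e (nat_lit 286749) (nat_lit 9) (.e (nat_lit 336280) (nat_lit 15) (.e (nat_lit 3801) (nat_lit 231) (.e (nat_lit 811045) (nat_lit 14) (.e (nat_lit 40972) (nat_lit 9) .nil)))))))) (.g (nat_lit 8) .nil .nil))))) (.nd (nat_lit 4) (.nd (nat_lit 5) 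
(.lf (nat_lit 2507) (.g (nat_lit 2630) (.e (nat_lit 232) (nat_lit 21) (.e (nat_lit 336060) (nat_lit 7) (.e (nat_lit 319533) (nat_lit 16) (.e (nat_lit 286753) (nat_lit 10) (.e (nat_lit 344169) (nat_lit 40) (.e (nat_lit 671780) (nat_lit 12) (.e (nat_lit 164045) (nat_lit 55) (.e (nat_lit 778368) (nat_lit 9) .nil)))))))) (.g (nat_lit 4) .nil .nil))) 
(.lf (nat_lit 2539) (.g (nat_lit 1813) (.e (nat_lit 232) (nat_lit 21) (.e (nat_lit 336060) (nat_lit 7) (.e (nat_lit 319534) (nat_lit 16) (.e (nat_lit 286749) (nat_lit 9) (.e (nat_lit 335907) (nat_lit 0) .nil))))) .nil))) (.nd (nat_lit 5) 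
(.lf (nat_lit 2523) (.g (nat_lit 2767) (.e (nat_lit 232) (nat_lit 21) (.e (nat_lit 336060) (nat_lit 7) (.e (nat_lit 319533) (nat_lit 16) (.e (nat_lit 286753) (nat_lit 10) (.e (nat_lit 344169) (nat_lit 40) (.e (nat_lit 671786) (nat_lit 14) (.e (nat_lit 1146) (nat_lit 85) (.e (nat_lit 40972) (nat_lit 9) .nil)))))))) (.g (nat_lit 5) .nil .nil))) 
(.lf (nat_lit 2555) (.g (nat_lit 2492) (.e (nat_lit 232) (nat_lit 21) (.e (nat_lit 336060) (nat_lit 7) (.e (nat_lit 319534) (nat_lit 16) (.e (nat_lit 286756) (nat_lit 10) (.e (nat_lit 344090) (nat_lit 18) (.e (nat_lit 5566) (nat_lit 308) (.e (nat_lit 57395) (nat_lit 8) (.e (nat_lit 147466) (nat_lit 9) .nil)))))))) (.g (nat_lit 5) .nil .nil)))))) (.nd (nat_lit 3) (.nd (nat_lit 4) (.nd (nat_lit 5) 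
(.lf (nat_lit 2503) (.g (nat_lit 2205) (.e (nat_lit 232) (nat_lit 21) (.e (nat_lit 336060) (nat_lit 7) (.e (nat_lit 319533) (nat_lit 16) (.e (nat_lit 286753) (nat_lit 10) (.e (nat_lit 344169) (nat_lit 40) (.e (nat_lit 671780) (nat_lit 12) (.e (nat_lit 164043) (nat_lit 55) (.e (nat_lit 778353) (nat_lit 9) .nil)))))))) (.g (nat_lit 4) .nil .nil))) 
(.lf (nat_lit 2535) (.g (nat_lit 1589) (.e (nat_lit 232) (nat_lit 21) (.e (nat_lit 336060) (nat_lit 7) (.e (nat_lit 319534) (nat_lit 16) (.e (nat_lit 286720) (nat_lit 0) .nil)))) .nil))) (.nd (nat_lit 5) 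
(.lf (nat_lit 2519) (.g (nat_lit 2204) (.e (nat_lit 232) (nat_lit 21) (.e (nat_lit 336060) (nat_lit 7) (.e (nat_lit 319533) (nat_lit 16) (.e (nat_lit 286753) (nat_lit 10) (.e (nat_lit 344169) (nat_lit 40) (.e (nat_lit 671782) (nat_lit 12) (.e (nat_lit 164050) (nat_lit 55) (.e (nat_lit 778360) (nat_lit 9) .nil)))))))) (.g (nat_lit 4) .nil .nil))) 
(.lf (nat_lit 2551) (.g (nat_lit 2465) (.e (nat_lit 232) (nat_lit 21) (.e (nat_lit 336060) (nat_lit 7) (.e (nat_lit 319534) (nat_lit 16) (.e (nat_lit 286749) (nat_lit 9) (.e (nat_lit 343808) (nat_lit 20) (.e (nat_lit 221219) (nat_lit 24) (.e (nat_lit 213000) (nat_lit 9) .nil))))))) (.g (nat_lit 4) .nil .nil))))) (.nd (nat_lit 4) (.nd (nat_lit 5) 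
(.lf (nat_lit 2511) (.g (nat_lit 2742) (.e (nat_lit 232) (nat_lit 21) (.e (nat_lit 336060) (nat_lit 7) (.e (nat_lit 319533) (nat_lit 16) (.e (nat_lit 286753) (nat_lit 10) (.e (nat_lit 344169) (nat_lit 40) (.e (nat_lit 671780) (nat_lit 12) (.e (nat_lit 164047) (nat_lit 55) (.e (nat_lit 778368) (nat_lit 9) .nil)))))))) (.g (nat_lit 5) .nil .nil))) 
(.lf (nat_lit 2543) (.g (nat_lit 2490) (.e (nat_lit 232) (nat_lit 21) (.e (nat_lit 336060) (nat_lit 7) (.e (nat_lit 319534) (nat_lit 16) (.e (nat_lit 286749) (nat_lit 9) (.e (nat_lit 335907) (nat_lit 0) (.e (nat_lit 1994) (nat_lit 137) (.e (nat_lit 663585) (nat_lit 12) (.e (nat_lit 164050) (nat_lit 55) (.e (nat_lit 778360) (nat_lit 9) .nil))))))))) (.g (nat_lit 4) .nil .nil)))) (.nd (nat_lit 5) 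
(.lf (nat_lit 2527) (.g (nat_lit 2163) (.e (nat_lit 232) (nat_lit 21) (.e (nat_lit 336060) (nat_lit 7) (.e (nat_lit 319533) (nat_lit 16) (.e (nat_lit 286753) (nat_lit 10) (.e (nat_lit 344169) (nat_lit 40) (.e (nat_lit 679680) (nat_lit 14) (.e (nat_lit 1146) (nat_lit 85) (.e (nat_lit 40972) (nat_lit 9) .nil)))))))) (.g (nat_lit 5) .nil .nil))) 
(.lf (nat_lit 2559) (.g (nat_lit 2265) (.e (nat_lit 232) (nat_lit 21) (.e (nat_lit 336060) (nat_lit 7) (.e (nat_lit 319534) (nat_lit 16) (.e (nat_lit 286756) (nat_lit 10) (.e (nat_lit 344090) (nat_lit 18) (.e (nat_lit 5569) (nat_lit 308) (.e (nat_lit 57395) (nat_lit 8) (.e (nat_lit 147467) (nat_lit 9) .nil)))))))) (.g (nat_lit 4) .nil .nil)))))))))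

noncomputable def tv035 : DT := (.nd (nat_lit 0) (.nd (nat_lit 1) (.nd (nat_lit 2) (.nd (nat_lit 3) (.nd (nat_lit 4) (.nd (nat_lit 5) 
(.lf (nat_lit 2560) (.g (nat_lit 2162) (.e (nat_lit 232) (nat_lit 21) (.e (nat_lit 336060) (nat_lit 7) (.e (nat_lit 319534) (nat_lit 16) (.e (nat_lit 286756) (nat_lit 10) (.e (nat_lit 344090) (nat_lit 18) (.e (nat_lit 5570) (nat_lit 308) (.e (nat_lit 57395) (nat_lit 8) (.e (nat_lit 147466) (nat_lit 9) .nil)))))))) (.g (nat_lit 4) .nil .nil))) 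
(.lf (nat_lit 2592) (.g (nat_lit 2166) (.e (nat_lit 232) (nat_lit 21) (.e (nat_lit 336060) (nat_lit 7) (.e (nat_lit 319534) (nat_lit 16) (.e (nat_lit 286756) (nat_lit 10) (.e (nat_lit 344160) (nat_lit 37) (.e (nat_lit 647190) (nat_lit 9) (.e (nat_lit 1007) (nat_lit 81) (.e (nat_lit 2350) (nat_lit 151) (.e (nat_lit 778360) (nat_lit 9) .nil))))))))) (.g (nat_lit 4) .nil .nil)))) (.nd (nat_lit 5) 
(.lf (nat_lit 2576) (.g (nat_lit 4360) (.e (nat_lit 232) (nat_lit 21) (.e (nat_lit 336060) (nat_lit 7) (.e (nat_lit 319534) (nat_lit 16) (.e (nat_lit 286756) (nat_lit 10) (.e (nat_lit 344160) (nat_lit 37) (.e (nat_lit 647188) (nat_lit 9) (.e (nat_lit 1315) (nat_lit 98) (.e (nat_lit 147466) (nat_lit 9) .nil)))))))) (.g (nat_lit 8) .nil .nil))) 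
(.lf (nat_lit 2608) (.g (nat_lit 3979) (.e (nat_lit 232) (nat_lit 21) (.e (nat_lit 336060) (nat_lit 7) (.e (nat_lit 319534) (nat_lit 16) (.e (nat_lit 286756) (nat_lit 10) (.e (nat_lit 344160) (nat_lit 37) (.e (nat_lit 647190) (nat_lit 9) (.e (nat_lit 1312) (nat_lit 98) (.e (nat_lit 147464) (nat_lit 9) .nil)))))))) (.g (nat_lit 0) .nil .nil))))) (.nd (nat_lit 4) (.nd (nat_lit 5) 
(.lf (nat_lit 2568) (.g (nat_lit 2553) (.e (nat_lit 232) (nat_lit 21) (.e (nat_lit 336060) (nat_lit 7) (.e (nat_lit 319534) (nat_lit 16) (.e (nat_lit 286756) (nat_lit 10) (.e (nat_lit 344097) (nat_lit 18) (.e (nat_lit 5195) (nat_lit 294) (.e (nat_lit 65280) (nat_lit 65) (.e (nat_lit 213000) (nat_lit 9) .nil)))))))) (.g (nat_lit 6) .nil .nil))) 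
(.lf (nat_lit 2600) (.g (nat_lit 3959) (.e (nat_lit 232) (nat_lit 21) (.e (nat_lit 336060) (nat_lit 7) (.e (nat_lit 319534) (nat_lit 16) (.e (nat_lit 286756) (nat_lit 10) (.e (nat_lit 344160) (nat_lit 37) (.e (nat_lit 647190) (nat_lit 9) (.e (nat_lit 1310) (nat_lit 98) (.e (nat_lit 147463) (nat_lit 9) .nil)))))))) (.g (nat_lit 8) .nil .nil)))) (.nd (nat_lit 5) 
(.lf (nat_lit 2584) (.g (nat_lit 2236) (.e (nat_lit 232) (nat_lit 21) (.e (nat_lit 336060) (nat_lit 7) (.e (nat_lit 319534) (nat_lit 16) (.e (nat_lit 286756) (nat_lit 10) (.e (nat_lit 344160) (nat_lit 37) (.e (nat_lit 647190) (nat_lit 9) (.e (nat_lit 984) (nat_lit 81) (.e (nat_lit 2326) (nat_lit 151) (.e (nat_lit 778354) (nat_lit 9) .nil))))))))) (.g (nat_lit 4) .nil .nil))) 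
(.lf (nat_lit 2616) (.g (nat_lit 3120) (.e (nat_lit 232) (nat_lit 21) (.e (nat_lit 336060) (nat_lit 7) (.e (nat_lit 319534) (nat_lit 16) (.e (nat_lit 286756) (nat_lit 10) (.e (nat_lit 344160) (nat_lit 37) (.e (nat_lit 647195) (nat_lit 9) (.e (nat_lit 1008) (nat_lit 81) (.e (nat_lit 2328) (nat_lit 151) (.e (nat_lit 778359) (nat_lit 9) .nil))))))))) (.g (nat_lit 6) .nil .nil)))))) 
(.nd (nat_lit 3) (.nd (nat_lit 4) (.nd (nat_lit 5) 
(.lf (nat_lit 2564) (.g (nat_lit 1511) (.e (nat_lit 232) (nat_lit 21) (.e (nat_lit 336060) (nat_lit 7) (.e (nat_lit 319534) (nat_lit 16) (.e (nat_lit 286756) (nat_lit 10) (.e (nat_lit 344097) (nat_lit 18) (.e (nat_lit 5194) (nat_lit 294) (.e (nat_lit 65280) (nat_lit 65) (.e (nat_lit 213000) (nat_lit 9) .nil)))))))) (.g (nat_lit 4) .nil .nil))) 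
(.lf (nat_lit 2596) (.g (nat_lit 2515) (.e (nat_lit 232) (nat_lit 21) (.e (nat_lit 336060) (nat_lit 7) (.e (nat_lit 319534) (nat_lit 16) (.e (nat_lit 286756) (nat_lit 10) (.e (nat_lit 344160) (nat_lit 37) (.e (nat_lit 647190) (nat_lit 9) (.e (nat_lit 1016) (nat_lit 81) (.e (nat_lit 2350) (nat_lit 151) (.e (nat_lit 778360) (nat_lit 9) .nil))))))))) (.g (nat_lit 4) .nil .nil)))) (.nd (nat_lit 5) 
(.lf (nat_lit 2580) (.g (nat_lit 3836) (.e (nat_lit 232) (nat_lit 21) (.e (nat_lit 336060) (nat_lit 7) (.e (nat_lit 319534) (nat_lit 16) (.e (nat_lit 286756) (nat_lit 10) (.e (nat_lit 344160) (nat_lit 37) (.e (nat_lit 647190) (nat_lit 9) (.e (nat_lit 984) (nat_lit 81) (.e (nat_lit 2289) (nat_lit 151) (.e (nat_lit 778368) (nat_lit 9) .nil))))))))) (.g (nat_lit 6) .nil .nil))) 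
(.lf (nat_lit 2612) (.g (nat_lit 2041) (.e (nat_lit 232) (nat_lit 21) (.e (nat_lit 336060) (nat_lit 7) (.e (nat_lit 319534) (nat_lit 16) (.e (nat_lit 286756) (nat_lit 10) (.e (nat_lit 344160) (nat_lit 37) (.e (nat_lit 647194) (nat_lit 9) (.e (nat_lit 1313) (nat_lit 98) (.e (nat_lit 147466) (nat_lit 9) .nil)))))))) (.g (nat_lit 4) .nil .nil))))) (.nd (nat_lit 4) (.nd (nat_lit 5) 
(.lf (nat_lit 2572) (.g (nat_lit 1412) (.e (nat_lit 232) (nat_lit 21) (.e (nat_lit 336060) (nat_lit 7) (.e (nat_lit 319534) (nat_lit 16) (.e (nat_lit 286756) (nat_lit 10) (.e (nat_lit 344104) (nat_lit 18) (.e (nat_lit 5964) (nat_lit 324) (.e (nat_lit 163881) (nat_lit 4) (.e (nat_lit 213000) (nat_lit 9) .nil)))))))) (.g (nat_lit 4) .nil .nil))) 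
(.lf (nat_lit 2604) (.g (nat_lit 1870) (.e (nat_lit 232) (nat_lit 21) (.e (nat_lit 336060) (nat_lit 7) (.e (nat_lit 319534) (nat_lit 16) (.e (nat_lit 286756) (nat_lit 10) (.e (nat_lit 344160) (nat_lit 37) (.e (nat_lit 647190) (nat_lit 9) (.e (nat_lit 1310) (nat_lit 98) (.e (nat_lit 155392) (nat_lit 9) .nil)))))))) (.g (nat_lit 4) .nil .nil)))) (.nd (nat_lit 5) 
(.lf (nat_lit 2588) (.g (nat_lit 1765) (.e (nat_lit 232) (nat_lit 21) (.e (nat_lit 336060) (nat_lit 7) (.e (nat_lit 319534) (nat_lit 16) (.e (nat_lit 286756) (nat_lit 10) (.e (nat_lit 344160) (nat_lit 37) (.e (nat_lit 647190) (nat_lit 9) (.e (nat_lit 1005) (nat_lit 81) (.e (nat_lit 2343) (nat_lit 151) (.e (nat_lit 778360) (nat_lit 9) .nil))))))))) (.g (nat_lit 4) .nil .nil))) 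
(.lf (nat_lit 2620) (.g (nat_lit 2691) (.e (nat_lit 232) (nat_lit 21) (.e (nat_lit 336060) (nat_lit 7) (.e (nat_lit 319534) (nat_lit 16) (.e (nat_lit 286756) (nat_lit 10) (.e (nat_lit 344160) (nat_lit 37) (.e (nat_lit 647195) (nat_lit 9) (.e (nat_lit 1012) (nat_lit 81) (.e (nat_lit 2328) (nat_lit 151) (.e (nat_lit 778359) (nat_lit 9) .nil))))))))) (.g (nat_lit 5) .nil .nil))))))) 
(.nd (nat_lit 2) (.nd (nat_lit 3) (.nd (nat_lit 4) (.nd (nat_lit 5) 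
(.lf (nat_lit 2562) (.g (nat_lit 2217) (.e (nat_lit 232) (nat_lit 21) (.e (nat_lit 336060) (nat_lit 7) (.e (nat_lit 319534) (nat_lit 16) (.e (nat_lit 286756) (nat_lit 10) (.e (nat_lit 344090) (nat_lit 18) (.e (nat_lit 5918) (nat_lit 320) (.e (nat_lit 2610) (nat_lit 163) (.e (nat_lit 164050) (nat_lit 55) (.e (nat_lit 778359) (nat_lit 9) .nil))))))))) (.g (nat_lit 4) .nil .nil))) 
(.lf (nat_lit 2594) (.g (nat_lit 3060) (.e (nat_lit 232) (nat_lit 21) (.e (nat_lit 336060) (nat_lit 7) (.e (nat_lit 319534) (nat_lit 16) (.e (nat_lit 286756) (nat_lit 10) (.e (nat_lit 344160) (nat_lit 37) (.e (nat_lit 647190) (nat_lit 9) (.e (nat_lit 1016) (nat_lit 81) (.e (nat_lit 2328) (nat_lit 151) (.e (nat_lit 778360) (nat_lit 9) .nil))))))))) (.g (nat_lit 5) .nil .nil)))) (.nd (nat_lit 5) 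
(.lf (nat_lit 2578) (.g (nat_lit 4001) (.e (nat_lit 232) (nat_lit 21) (.e (nat_lit 336060) (nat_lit 7) (.e (nat_lit 319534) (nat_lit 16) (.e (nat_lit 286756) (nat_lit 10) (.e (nat_lit 344160) (nat_lit 37) (.e (nat_lit 647190) (nat_lit 9) (.e (nat_lit 984) (nat_lit 81) (.e (nat_lit 2289) (nat_lit 151) (.e (nat_lit 778353) (nat_lit 9) .nil))))))))) (.g (nat_lit 6) .nil .nil))) 
(.lf (nat_lit 2610) (.g (nat_lit 3442) (.e (nat_lit 232) (nat_lit 21) (.e (nat_lit 336060) (nat_lit 7) (.e (nat_lit 319534) (nat_lit 16) (.e (nat_lit 286756) (nat_lit 10) (.e (nat_lit 344160) (nat_lit 37) (.e (nat_lit 647190) (nat_lit 9) (.e (nat_lit 1312) (nat_lit 98) (.e (nat_lit 155392) (nat_lit 9) .nil)))))))) (.g (nat_lit 7) .nil .nil))))) (.nd (nat_lit 4) (.nd (nat_lit 5) 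
(.lf (nat_lit 2570) (.g (nat_lit 1948) (.e (nat_lit 232) (nat_lit 21) (.e (nat_lit 336060) (nat_lit 7) (.e (nat_lit 319534) (nat_lit 16) (.e (nat_lit 286756) (nat_lit 10) (.e (nat_lit 344097) (nat_lit 18) (.e (nat_lit 5907) (nat_lit 320) (.e (nat_lit 60) (nat_lit 0) (.e (nat_lit 1149) (nat_lit 85) (.e (nat_lit 40972) (nat_lit 9) .nil))))))))) (.g (nat_lit 4) .nil .nil))) 
(.lf (nat_lit 2602) (.g (nat_lit 3943) (.e (nat_lit 232) (nat_lit 21) (.e (nat_lit 336060) (nat_lit 7) (.e (nat_lit 319534) (nat_lit 16) (.e (nat_lit 286756) (nat_lit 10) (.e (nat_lit 344160) (nat_lit 37) (.e (nat_lit 647190) (nat_lit 9) (.e (nat_lit 1310) (nat_lit 98) (.e (nat_lit 147465) (nat_lit 9) .nil)))))))) (.g (nat_lit 7) .nil .nil)))) (.nd (nat_lit 5) 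
(.lf (nat_lit 2586) (.g (nat_lit 2149) (.e (nat_lit 232) (nat_lit 21) (.e (nat_lit 336060) (nat_lit 7) (.e (nat_lit 319534) (nat_lit 16) (.e (nat_lit 286756) (nat_lit 10) (.e (nat_lit 344160) (nat_lit 37) (.e (nat_lit 647190) (nat_lit 9) (.e (nat_lit 984) (nat_lit 81) (.e (nat_lit 2354) (nat_lit 151) (.e (nat_lit 778360) (nat_lit 9) .nil))))))))) (.g (nat_lit 4) .nil .nil))) 
(.lf (nat_lit 2618) (.g (nat_lit 2604) (.e (nat_lit 232) (nat_lit 21) (.e (nat_lit 336060) (nat_lit 7) (.e (nat_lit 319534) (nat_lit 16) (.e (nat_lit 286756) (nat_lit 10) (.e (nat_lit 344160) (nat_lit 37) (.e (nat_lit 647195) (nat_lit 9) (.e (nat_lit 1008) (nat_lit 81) (.e (nat_lit 2350) (nat_lit 151) (.e (nat_lit 778353) (nat_lit 9) .nil))))))))) (.g (nat_lit 4) .nil .nil)))))) 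
(.nd (nat_lit 3) (.nd (nat_lit 4) (.nd (nat_lit 5) 
(.lf (nat_lit 2566) (.g (nat_lit 2960) (.e (nat_lit 232) (nat_lit 21) (.e (nat_lit 336060) (nat_lit 7) (.e (nat_lit 319534) (nat_lit 16) (.e (nat_lit 286756) (nat_lit 10) (.e (nat_lit 344097) (nat_lit 18) (.e (nat_lit 5195) (nat_lit 294) (.e (nat_lit 57367) (nat_lit 1) (.e (nat_lit 57870) (nat_lit 264) (.e (nat_lit 7936) (nat_lit 157) .nil))))))))) (.g (nat_lit 8) .nil .nil))) 
(.lf (nat_lit 2598) (.g (nat_lit 3256) (.e (nat_lit 232) (nat_lit 21) (.e (nat_lit 336060) (nat_lit 7) (.e (nat_lit 319534) (nat_lit 16) (.e (nat_lit 286756) (nat_lit 10) (.e (nat_lit 344160) (nat_lit 37) (.e (nat_lit 647190) (nat_lit 9) (.e (nat_lit 1038) (nat_lit 81) (.e (nat_lit 2346) (nat_lit 151) (.e (nat_lit 778362) (nat_lit 9) .nil))))))))) (.g (nat_lit 6) .nil .nil)))) (.nd (nat_lit 5) 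
(.lf (nat_lit 2582) (.g (nat_lit 2148) (.e (nat_lit 232) (nat_lit 21) (.e (nat_lit 336060) (nat_lit 7) (.e (nat_lit 319534) (nat_lit 16) (.e (nat_lit 286756) (nat_lit 10) (.e (nat_lit 344160) (nat_lit 37) (.e (nat_lit 647190) (nat_lit 9) (.e (nat_lit 984) (nat_lit 81) (.e (nat_lit 2313) (nat_lit 151) (.e (nat_lit 778360) (nat_lit 9) .nil))))))))) (.g (nat_lit 4) .nil .nil))) 
(.lf (nat_lit 2614) (.g (nat_lit 1852) (.e (nat_lit 232) (nat_lit 21) (.e (nat_lit 336060) (nat_lit 7) (.e (nat_lit 319534) (nat_lit 16) (.e (nat_lit 286756) (nat_lit 10) (.e (nat_lit 344160) (nat_lit 37) (.e (nat_lit 647195) (nat_lit 9) (.e (nat_lit 982) (nat_lit 81) (.e (nat_lit 2343) (nat_lit 151) (.e (nat_lit 778360) (nat_lit 9) .nil))))))))) (.g (nat_lit 4) .nil .nil))))) 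
(.nd (nat_lit 4) (.nd (nat_lit 5) 
(.lf (nat_lit 2574) (.g (nat_lit 2379) (.e (nat_lit 232) (nat_lit 21) (.e (nat_lit 336060) (nat_lit 7) (.e (nat_lit 319534) (nat_lit 16) (.e (nat_lit 286756) (nat_lit 10) (.e (nat_lit 344160) (nat_lit 37) (.e (nat_lit 647188) (nat_lit 9) (.e (nat_lit 1313) (nat_lit 98) (.e (nat_lit 147466) (nat_lit 9) .nil)))))))) (.g (nat_lit 5) .nil .nil))) 
(.lf (nat_lit 2606) (.g (nat_lit 4436) (.e (nat_lit 232) (nat_lit 21) (.e (nat_lit 336060) (nat_lit 7) (.e (nat_lit 319534) (nat_lit 16) (.e (nat_lit 286756) (nat_lit 10) (.e (nat_lit 344160) (nat_lit 37) (.e (nat_lit 647190) (nat_lit 9) (.e (nat_lit 1311) (nat_lit 98) (.e (nat_lit 147466) (nat_lit 9) .nil)))))))) (.g (nat_lit 8) .nil .nil)))) (.nd (nat_lit 5) 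
(.lf (nat_lit 2590) (.g (nat_lit 2062) (.e (nat_lit 232) (nat_lit 21) (.e (nat_lit 336060) (nat_lit 7) (.e (nat_lit 319534) (nat_lit 16) (.e (nat_lit 286756) (nat_lit 10) (.e (nat_lit 344160) (nat_lit 37) (.e (nat_lit 647190) (nat_lit 9) (.e (nat_lit 1007) (nat_lit 81) (.e (nat_lit 2328) (nat_lit 151) (.e (nat_lit 778359) (nat_lit 9) .nil))))))))) (.g (nat_lit 4) .nil .nil))) 
(.lf (nat_lit 2622) (.g (nat_lit 2128) (.e (nat_lit 232) (nat_lit 21) (.e (nat_lit 336060) (nat_lit 7) (.e (nat_lit 319534) (nat_lit 16) (.e (nat_lit 286756) (nat_lit 10) (.e (nat_lit 344160) (nat_lit 37) (.e (nat_lit 647195) (nat_lit 9) (.e (nat_lit 1012) (nat_lit 81) (.e (nat_lit 2350) (nat_lit 151) (.e (nat_lit 778353) (nat_lit 9) .nil))))))))) (.g (nat_lit 4) .nil .nil)))))))) 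
(.nd (nat_lit 1) (.nd (nat_lit 2) (.nd (nat_lit 3) (.nd (nat_lit 4) (.nd (nat_lit 5) 
(.lf (nat_lit 2561) (.g (nat_lit 1841) (.e (nat_lit 232) (nat_lit 21) (.e (nat_lit 336060) (nat_lit 7) (.e (nat_lit 319534) (nat_lit 16) (.e (nat_lit 286756) (nat_lit 10) (.e (nat_lit 344090) (nat_lit 18) (.e (nat_lit 5896) (nat_lit 320) (.e (nat_lit 2508) (nat_lit 157) (.e (nat_lit 2686) (nat_lit 169) (.e (nat_lit 213000) (nat_lit 9) .nil))))))))) (.g (nat_lit 4) .nil .nil))) 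
(.lf (nat_lit 2593) (.g (nat_lit 2685) (.e (nat_lit 232) (nat_lit 21) (.e (nat_lit 336060) (nat_lit 7) (.e (nat_lit 319534) (nat_lit 16) (.e (nat_lit 286756) (nat_lit 10) (.e (nat_lit 344160) (nat_lit 37) (.e (nat_lit 647190) (nat_lit 9) (.e (nat_lit 1016) (nat_lit 81) (.e (nat_lit 2328) (nat_lit 151) (.e (nat_lit 778359) (nat_lit 9) .nil))))))))) (.g (nat_lit 5) .nil .nil)))) (.nd (nat_lit 5) 
(.lf (nat_lit 2577) (.g (nat_lit 4379) (.e (nat_lit 232) (nat_lit 21) (.e (nat_lit 336060) (nat_lit 7) (.e (nat_lit 319534) (nat_lit 16) (.e (nat_lit 286756) (nat_lit 10) (.e (nat_lit 344160) (nat_lit 37) (.e (nat_lit 647188) (nat_lit 9) (.e (nat_lit 1315) (nat_lit 98) (.e (nat_lit 147467) (nat_lit 9) .nil)))))))) (.g (nat_lit 0) .nil .nil))) 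
(.lf (nat_lit 2609) (.g (nat_lit 4427) (.e (nat_lit 232) (nat_lit 21) (.e (nat_lit 336060) (nat_lit 7) (.e (nat_lit 319534) (nat_lit 16) (.e (nat_lit 286756) (nat_lit 10) (.e (nat_lit 344160) (nat_lit 37) (.e (nat_lit 647190) (nat_lit 9) (.e (nat_lit 1312) (nat_lit 98) (.e (nat_lit 147466) (nat_lit 9) .nil)))))))) (.g (nat_lit 8) .nil .nil))))) (.nd (nat_lit 4) (.nd (nat_lit 5) 
(.lf (nat_lit 2569) (.g (nat_lit 2107) (.e (nat_lit 232) (nat_lit 21) (.e (nat_lit 336060) (nat_lit 7) (.e (nat_lit 319534) (nat_lit 16) (.e (nat_lit 286756) (nat_lit 10) (.e (nat_lit 344097) (nat_lit 18) (.e (nat_lit 5203) (nat_lit 294) (.e (nat_lit 65280) (nat_lit 65) (.e (nat_lit 213000) (nat_lit 9) .nil)))))))) (.g (nat_lit 5) .nil .nil))) 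
(.lf (nat_lit 2601) (.g (nat_lit 3854) (.e (nat_lit 232) (nat_lit 21) (.e (nat_lit 336060) (nat_lit 7) (.e (nat_lit 319534) (nat_lit 16) (.e (nat_lit 286756) (nat_lit 10) (.e (nat_lit 344160) (nat_lit 37) (.e (nat_lit 647190) (nat_lit 9) (.e (nat_lit 1310) (nat_lit 98) (.e (nat_lit 147464) (nat_lit 9) .nil)))))))) (.g (nat_lit 8) .nil .nil)))) (.nd (nat_lit 5) 
(.lf (nat_lit 2585) (.g (nat_lit 3064) (.e (nat_lit 232) (nat_lit 21) (.e (nat_lit 336060) (nat_lit 7) (.e (nat_lit 319534) (nat_lit 16) (.e (nat_lit 286756) (nat_lit 10) (.e (nat_lit 344160) (nat_lit 37) (.e (nat_lit 647190) (nat_lit 9) (.e (nat_lit 984) (nat_lit 81) (.e (nat_lit 2353) (nat_lit 151) (.e (nat_lit 778360) (nat_lit 9) .nil))))))))) (.g (nat_lit 5) .nil .nil))) 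
(.lf (nat_lit 2617) (.g (nat_lit 3495) (.e (nat_lit 232) (nat_lit 21) (.e (nat_lit 336060) (nat_lit 7) (.e (nat_lit 319534) (nat_lit 16) (.e (nat_lit 286756) (nat_lit 10) (.e (nat_lit 344160) (nat_lit 37) (.e (nat_lit 647195) (nat_lit 9) (.e (nat_lit 1008) (nat_lit 81) (.e (nat_lit 2328) (nat_lit 151) (.e (nat_lit 778360) (nat_lit 9) .nil))))))))) (.g (nat_lit 6) .nil .nil)))))) 
(.nd (nat_lit 3) (.nd (nat_lit 4) (.nd (nat_lit 5) 
(.lf (nat_lit 2565) (.g (nat_lit 2769) (.e (nat_lit 232) (nat_lit 21) (.e (nat_lit 336060) (nat_lit 7) (.e (nat_lit 319534) (nat_lit 16) (.e (nat_lit 286756) (nat_lit 10) (.e (nat_lit 344097) (nat_lit 18) (.e (nat_lit 5195) (nat_lit 294) (.e (nat_lit 57354) (nat_lit 0) (.e (nat_lit 2006) (nat_lit 138) (.e (nat_lit 671767) (nat_lit 9) .nil))))))))) (.g (nat_lit 5) .nil .nil))) 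
(.lf (nat_lit 2597) (.g (nat_lit 3278) (.e (nat_lit 232) (nat_lit 21) (.e (nat_lit 336060) (nat_lit 7) (.e (nat_lit 319534) (nat_lit 16) (.e (nat_lit 286756) (nat_lit 10) (.e (nat_lit 344160) (nat_lit 37) (.e (nat_lit 647190) (nat_lit 9) (.e (nat_lit 1027) (nat_lit 81) (.e (nat_lit 2346) (nat_lit 151) (.e (nat_lit 778362) (nat_lit 9) .nil))))))))) (.g (nat_lit 6) .nil .nil)))) (.nd (nat_lit 5) 
(.lf (nat_lit 2581) (.g (nat_lit 2203) (.e (nat_lit 232) (nat_lit 21) (.e (nat_lit 336060) (nat_lit 7) (.e (nat_lit 319534) (nat_lit 16) (.e (nat_lit 286756) (nat_lit 10) (.e (nat_lit 344160) (nat_lit 37) (.e (nat_lit 647190) (nat_lit 9) (.e (nat_lit 984) (nat_lit 81) (.e (nat_lit 2308) (nat_lit 151) (.e (nat_lit 778360) (nat_lit 9) .nil))))))))) (.g (nat_lit 4) .nil .nil))) 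
(.lf (nat_lit 2613) (.g (nat_lit 2101) (.e (nat_lit 232) (nat_lit 21) (.e (nat_lit 336060) (nat_lit 7) (.e (nat_lit 319534) (nat_lit 16) (.e (nat_lit 286756) (nat_lit 10) (.e (nat_lit 344160) (nat_lit 37) (.e (nat_lit 647194) (nat_lit 9) (.e (nat_lit 1313) (nat_lit 98) (.e (nat_lit 147467) (nat_lit 9) .nil)))))))) (.g (nat_lit 4) .nil .nil))))) (.nd (nat_lit 4) (.nd (nat_lit 5) 
(.lf (nat_lit 2573) (.g (nat_lit 2048) (.e (nat_lit 232) (nat_lit 21) (.e (nat_lit 336060) (nat_lit 7) (.e (nat_lit 319534) (nat_lit 16) (.e (nat_lit 286756) (nat_lit 10) (.e (nat_lit 344160) (nat_lit 37) (.e (nat_lit 647188) (nat_lit 9) (.e (nat_lit 1312) (nat_lit 98) (.e (nat_lit 147467) (nat_lit 9) .nil)))))))) (.g (nat_lit 4) .nil .nil))) 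
(.lf (nat_lit 2605) (.g (nat_lit 2042) (.e (nat_lit 232) (nat_lit 21) (.e (nat_lit 336060) (nat_lit 7) (.e (nat_lit 319534) (nat_lit 16) (.e (nat_lit 286756) (nat_lit 10) (.e (nat_lit 344160) (nat_lit 37) (.e (nat_lit 647190) (nat_lit 9) (.e (nat_lit 1311) (nat_lit 98) (.e (nat_lit 147465) (nat_lit 9) .nil)))))))) (.g (nat_lit 4) .nil .nil)))) (.nd (nat_lit 5) 
(.lf (nat_lit 2589) (.g (nat_lit 2117) (.e (nat_lit 232) (nat_lit 21) (.e (nat_lit 336060) (nat_lit 7) (.e (nat_lit 319534) (nat_lit 16) (.e (nat_lit 286756) (nat_lit 10) (.e (nat_lit 344160) (nat_lit 37) (.e (nat_lit 647190) (nat_lit 9) (.e (nat_lit 1005) (nat_lit 81) (.e (nat_lit 2345) (nat_lit 151) (.e (nat_lit 778360) (nat_lit 9) .nil))))))))) (.g (nat_lit 4) .nil .nil))) 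
(.lf (nat_lit 2621) (.g (nat_lit 3066) (.e (nat_lit 232) (nat_lit 21) (.e (nat_lit 336060) (nat_lit 7) (.e (nat_lit 319534) (nat_lit 16) (.e (nat_lit 286756) (nat_lit 10) (.e (nat_lit 344160) (nat_lit 37) (.e (nat_lit 647195) (nat_lit 9) (.e (nat_lit 1012) (nat_lit 81) (.e (nat_lit 2328) (nat_lit 151) (.e (nat_lit 778360) (nat_lit 9) .nil))))))))) (.g (nat_lit 6) .nil .nil))))))) 
(.nd (nat_lit 2) (.nd (nat_lit 3) (.nd (nat_lit 4) (.nd (nat_lit 5) 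
(.lf (nat_lit 2563) (.g (nat_lit 2821) (.e (nat_lit 232) (nat_lit 21) (.e (nat_lit 336060) (nat_lit 7) (.e (nat_lit 319534) (nat_lit 16) (.e (nat_lit 286756) (nat_lit 10) (.e (nat_lit 344090) (nat_lit 18) (.e (nat_lit 5918) (nat_lit 320) (.e (nat_lit 2610) (nat_lit 163) (.e (nat_lit 164050) (nat_lit 55) (.e (nat_lit 778360) (nat_lit 9) .nil))))))))) (.g (nat_lit 5) .nil .nil))) 
(.lf (nat_lit 2595) (.g (nat_lit 1871) (.e (nat_lit 232) (nat_lit 21) (.e (nat_lit 336060) (nat_lit 7) (.e (nat_lit 319534) (nat_lit 16) (.e (nat_lit 286756) (nat_lit 10) (.e (nat_lit 344160) (nat_lit 37) (.e (nat_lit 647190) (nat_lit 9) (.e (nat_lit 1016) (nat_lit 81) (.e (nat_lit 2350) (nat_lit 151) (.e (nat_lit 778353) (nat_lit 9) .nil))))))))) (.g (nat_lit 4) .nil .nil)))) (.nd (nat_lit 5) 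
(.lf (nat_lit 2579) (.g (nat_lit 3753) (.e (nat_lit 232) (nat_lit 21) (.e (nat_lit 336060) (nat_lit 7) (.e (nat_lit 319534) (nat_lit 16) (.e (nat_lit 286756) (nat_lit 10) (.e (nat_lit 344160) (nat_lit 37) (.e (nat_lit 647190) (nat_lit 9) (.e (nat_lit 984) (nat_lit 81) (.e (nat_lit 2289) (nat_lit 151) (.e (nat_lit 778367) (nat_lit 9) .nil))))))))) (.g (nat_lit 6) .nil .nil))) 
(.lf (nat_lit 2611) (.g (nat_lit 2821) (.e (nat_lit 232) (nat_lit 21) (.e (nat_lit 336060) (nat_lit 7) (.e (nat_lit 319534) (nat_lit 16) (.e (nat_lit 286756) (nat_lit 10) (.e (nat_lit 344160) (nat_lit 37) (.e (nat_lit 647190) (nat_lit 9) (.e (nat_lit 7936) (nat_lit 98) (.e (nat_lit 147463) (nat_lit 9) .nil)))))))) (.g (nat_lit 6) .nil .nil))))) (.nd (nat_lit 4) (.nd (nat_lit 5) 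
(.lf (nat_lit 2571) (.g (nat_lit 2216) (.e (nat_lit 232) (nat_lit 21) (.e (nat_lit 336060) (nat_lit 7) (.e (nat_lit 319534) (nat_lit 16) (.e (nat_lit 286756) (nat_lit 10) (.e (nat_lit 344102) (nat_lit 18) (.e (nat_lit 5813) (nat_lit 320) (.e (nat_lit 11) (nat_lit 0) (.e (nat_lit 1151) (nat_lit 85) (.e (nat_lit 40972) (nat_lit 9) .nil))))))))) (.g (nat_lit 4) .nil .nil))) 
(.lf (nat_lit 2603) (.g (nat_lit 4406) (.e (nat_lit 232) (nat_lit 21) (.e (nat_lit 336060) (nat_lit 7) (.e (nat_lit 319534) (nat_lit 16) (.e (nat_lit 286756) (nat_lit 10) (.e (nat_lit 344160) (nat_lit 37) (.e (nat_lit 647190) (nat_lit 9) (.e (nat_lit 1310) (nat_lit 98) (.e (nat_lit 147466) (nat_lit 9) .nil)))))))) (.g (nat_lit 8) .nil .nil)))) (.nd (nat_lit 5) 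
(.lf (nat_lit 2587) (.g (nat_lit 2036) (.e (nat_lit 232) (nat_lit 21) (.e (nat_lit 336060) (nat_lit 7) (.e (nat_lit 319534) (nat_lit 16) (.e (nat_lit 286756) (nat_lit 10) (.e (nat_lit 344160) (nat_lit 37) (.e (nat_lit 647190) (nat_lit 9) (.e (nat_lit 1005) (nat_lit 81) (.e (nat_lit 2292) (nat_lit 151) (.e (nat_lit 778348) (nat_lit 9) .nil))))))))) (.g (nat_lit 4) .nil .nil))) 
(.lf (nat_lit 2619) (.g (nat_lit 3248) (.e (nat_lit 232) (nat_lit 21) (.e (nat_lit 336060) (nat_lit 7) (.e (nat_lit 319534) (nat_lit 16) (.e (nat_lit 286756) (nat_lit 10) (.e (nat_lit 344160) (nat_lit 37) (.e (nat_lit 647195) (nat_lit 9) (.e (nat_lit 1008) (nat_lit 81) (.e (nat_lit 2350) (nat_lit 151) (.e (nat_lit 778360) (nat_lit 9) .nil))))))))) (.g (nat_lit 6) .nil .nil)))))) 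
(.nd (nat_lit 3) (.nd (nat_lit 4) (.nd (nat_lit 5) 
(.lf (nat_lit 2567) (.g (nat_lit 2475) (.e (nat_lit 232) (nat_lit 21) (.e (nat_lit 336060) (nat_lit 7) (.e (nat_lit 319534) (nat_lit 16) (.e (nat_lit 286756) (nat_lit 10) (.e (nat_lit 344097) (nat_lit 18) (.e (nat_lit 5195) (nat_lit 294) (.e (nat_lit 57367) (nat_lit 1) (.e (nat_lit 57872) (nat_lit 264) (.e (nat_lit 7936) (nat_lit 157) .nil))))))))) (.g (nat_lit 6) .nil .nil))) 
(.lf (nat_lit 2599) (.g (nat_lit 2203) (.e (nat_lit 232) (nat_lit 21) (.e (nat_lit 336060) (nat_lit 7) (.e (nat_lit 319534) (nat_lit 16) (.e (nat_lit 286756) (nat_lit 10) (.e (nat_lit 344160) (nat_lit 37) (.e (nat_lit 647190) (nat_lit 9) (.e (nat_lit 7936) (nat_lit 81) (.e (nat_lit 2298) (nat_lit 151) (.e (nat_lit 778334) (nat_lit 9) .nil))))))))) (.g (nat_lit 4) .nil .nil)))) (.nd (nat_lit 5) 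
(.lf (nat_lit 2583) (.g (nat_lit 3545) (.e (nat_lit 232) (nat_lit 21) (.e (nat_lit 336060) (nat_lit 7) (.e (nat_lit 319534) (nat_lit 16) (.e (nat_lit 286756) (nat_lit 10) (.e (nat_lit 344160) (nat_lit 37) (.e (nat_lit 647190) (nat_lit 9) (.e (nat_lit 984) (nat_lit 81) (.e (nat_lit 2326) (nat_lit 151) (.e (nat_lit 778353) (nat_lit 9) .nil))))))))) (.g (nat_lit 6) .nil .nil))) 
(.lf (nat_lit 2615) (.g (nat_lit 1991) (.e (nat_lit 232) (nat_lit 21) (.e (nat_lit 336060) (nat_lit 7) (.e (nat_lit 319534) (nat_lit 16) (.e (nat_lit 286756) (nat_lit 10) (.e (nat_lit 344160) (nat_lit 37) (.e (nat_lit 647195) (nat_lit 9) (.e (nat_lit 982) (nat_lit 81) (.e (nat_lit 2345) (nat_lit 151) (.e (nat_lit 778360) (nat_lit 9) .nil))))))))) (.g (nat_lit 4) .nil .nil))))) 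
(.nd (nat_lit 4) (.nd (nat_lit 5) 
(.lf (nat_lit 2575) (.g (nat_lit 2439) (.e (nat_lit 232) (nat_lit 21) (.e (nat_lit 336060) (nat_lit 7) (.e (nat_lit 319534) (nat_lit 16) (.e (nat_lit 286756) (nat_lit 10) (.e (nat_lit 344160) (nat_lit 37) (.e (nat_lit 647188) (nat_lit 9) (.e (nat_lit 1313) (nat_lit 98) (.e (nat_lit 147467) (nat_lit 9) .nil)))))))) (.g (nat_lit 4) .nil .nil))) 
(.lf (nat_lit 2607) (.g (nat_lit 4186) (.e (nat_lit 232) (nat_lit 21) (.e (nat_lit 336060) (nat_lit 7) (.e (nat_lit 319534) (nat_lit 16) (.e (nat_lit 286756) (nat_lit 10) (.e (nat_lit 344160) (nat_lit 37) (.e (nat_lit 647190) (nat_lit 9) (.e (nat_lit 1312) (nat_lit 98) (.e (nat_lit 147463) (nat_lit 9) .nil)))))))) (.g (nat_lit 8) .nil .nil)))) (.nd (nat_lit 5) 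
(.lf (nat_lit 2591) (.g (nat_lit 2437) (.e (nat_lit 232) (nat_lit 21) (.e (nat_lit 336060) (nat_lit 7) (.e (nat_lit 319534) (nat_lit 16) (.e (nat_lit 286756) (nat_lit 10) (.e (nat_lit 344160) (nat_lit 37) (.e (nat_lit 647190) (nat_lit 9) (.e (nat_lit 1007) (nat_lit 81) (.e (nat_lit 2328) (nat_lit 151) (.e (nat_lit 778360) (nat_lit 9) .nil))))))))) (.g (nat_lit 4) .nil .nil))) 
(.lf (nat_lit 2623) (.g (nat_lit 1997) (.e (nat_lit 232) (nat_lit 21) (.e (nat_lit 336060) (nat_lit 7) (.e (nat_lit 319534) (nat_lit 16) (.e (nat_lit 286756) (nat_lit 10) (.e (nat_lit 344160) (nat_lit 37) (.e (nat_lit 647195) (nat_lit 9) (.e (nat_lit 1012) (nat_lit 81) (.e (nat_lit 2350) (nat_lit 151) (.e (nat_lit 778359) (nat_lit 9) .nil))))))))) (.g (nat_lit 4) .nil .nil)))))))))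

noncomputable def tv036 : DT := (.nd (nat_lit 0) (.nd (nat_lit 1) (.nd (nat_lit 2) (.nd (nat_lit 3) (.nd (nat_lit 4) (.nd (nat_lit 5) 
(.lf (nat_lit 2624) (.g (nat_lit 2772) (.e (nat_lit 232) (nat_lit 21) (.e (nat_lit 336060) (nat_lit 7) (.e (nat_lit 319534) (nat_lit 16) (.e (nat_lit 286756) (nat_lit 10) (.e (nat_lit 344160) (nat_lit 37) (.e (nat_lit 647195) (nat_lit 9) (.e (nat_lit 1012) (nat_lit 81) (.e (nat_lit 2350) (nat_lit 151) (.e (nat_lit 778360) (nat_lit 9) .nil))))))))) (.g (nat_lit 5) .nil .nil))) 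
(.lf (nat_lit 2656) (.g (nat_lit 4175) (.e (nat_lit 232) (nat_lit 21) (.e (nat_lit 336060) (nat_lit 7) (.e (nat_lit 319534) (nat_lit 16) (.e (nat_lit 286756) (nat_lit 10) (.e (nat_lit 344160) (nat_lit 37) (.e (nat_lit 647195) (nat_lit 9) (.e (nat_lit 1310) (nat_lit 98) (.e (nat_lit 147464) (nat_lit 9) .nil)))))))) (.g (nat_lit 8) .nil .nil)))) (.nd (nat_lit 5) 
(.lf (nat_lit 2640) (.g (nat_lit 4221) (.e (nat_lit 232) (nat_lit 21) (.e (nat_lit 336060) (nat_lit 7) (.e (nat_lit 319534) (nat_lit 16) (.e (nat_lit 286756) (nat_lit 10) (.e (nat_lit 344160) (nat_lit 37) (.e (nat_lit 647195) (nat_lit 9) (.e (nat_lit 1040) (nat_lit 81) (.e (nat_lit 7936) (nat_lit 151) (.e (nat_lit 778348) (nat_lit 9) .nil))))))))) (.g (nat_lit 6) .nil .nil))) 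
(.lf (nat_lit 2672) (.g (nat_lit 1880) (.e (nat_lit 232) (nat_lit 21) (.e (nat_lit 336060) (nat_lit 7) (.e (nat_lit 319534) (nat_lit 16) (.e (nat_lit 286756) (nat_lit 10) (.e (nat_lit 344160) (nat_lit 37) (.e (nat_lit 647200) (nat_lit 12) (.e (nat_lit 57353) (nat_lit 0) (.e (nat_lit 7464) (nat_lit 396) (.e (nat_lit 2423) (nat_lit 157) .nil))))))))) (.g (nat_lit 4) .nil .nil))))) 
(.nd (nat_lit 4) (.nd (nat_lit 5) 
(.lf (nat_lit 2632) (.g (nat_lit 2249) (.e (nat_lit 232) (nat_lit 21) (.e (nat_lit 336060) (nat_lit 7) (.e (nat_lit 319534) (nat_lit 16) (.e (nat_lit 286756) (nat_lit 10) (.e (nat_lit 344160) (nat_lit 37) (.e (nat_lit 647195) (nat_lit 9) (.e (nat_lit 1015) (nat_lit 81) (.e (nat_lit 2328) (nat_lit 151) (.e (nat_lit 778361) (nat_lit 9) .nil))))))))) (.g (nat_lit 4) .nil .nil))) 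
(.lf (nat_lit 2664) (.g (nat_lit 1825) (.e (nat_lit 232) (nat_lit 21) (.e (nat_lit 336060) (nat_lit 7) (.e (nat_lit 319534) (nat_lit 16) (.e (nat_lit 286756) (nat_lit 10) (.e (nat_lit 344160) (nat_lit 37) (.e (nat_lit 647196) (nat_lit 9) (.e (nat_lit 1003) (nat_lit 81) (.e (nat_lit 2345) (nat_lit 151) (.e (nat_lit 778360) (nat_lit 9) .nil))))))))) (.g (nat_lit 4) .nil .nil)))) (.nd (nat_lit 5) 
(.lf (nat_lit 2648) (.g (nat_lit 3559) (.e (nat_lit 232) (nat_lit 21) (.e (nat_lit 336060) (nat_lit 7) (.e (nat_lit 319534) (nat_lit 16) (.e (nat_lit 286756) (nat_lit 10) (.e (nat_lit 344160) (nat_lit 37) (.e (nat_lit 647195) (nat_lit 9) (.e (nat_lit 7936) (nat_lit 81) (.e (nat_lit 2336) (nat_lit 151) (.e (nat_lit 778334) (nat_lit 9) .nil))))))))) (.g (nat_lit 6) .nil .nil))) 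
(.lf (nat_lit 2680) (.g (nat_lit 4205) (.e (nat_lit 232) (nat_lit 21) (.e (nat_lit 336060) (nat_lit 7) (.e (nat_lit 319534) (nat_lit 16) (.e (nat_lit 286756) (nat_lit 10) (.e (nat_lit 344160) (nat_lit 37) (.e (nat_lit 647201) (nat_lit 12) (.e (nat_lit 57574) (nat_lit 55) (.e (nat_lit 778360) (nat_lit 9) .nil)))))))) (.g (nat_lit 7) .nil .nil)))))) 
(.nd (nat_lit 3) (.nd (nat_lit 4) (.nd (nat_lit 5) 
(.lf (nat_lit 2628) (.g (nat_lit 2062) (.e (nat_lit 232) (nat_lit 21) (.e (nat_lit 336060) (nat_lit 7) (.e (nat_lit 319534) (nat_lit 16) (.e (nat_lit 286756) (nat_lit 10) (.e (nat_lit 344160) (nat_lit 37) (.e (nat_lit 647195) (nat_lit 9) (.e (nat_lit 1014) (nat_lit 81) (.e (nat_lit 2350) (nat_lit 151) (.e (nat_lit 778359) (nat_lit 9) .nil))))))))) (.g (nat_lit 4) .nil .nil))) 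
(.lf (nat_lit 2660) (.g (nat_lit 2260) (.e (nat_lit 232) (nat_lit 21) (.e (nat_lit 336060) (nat_lit 7) (.e (nat_lit 319534) (nat_lit 16) (.e (nat_lit 286756) (nat_lit 10) (.e (nat_lit 344160) (nat_lit 37) (.e (nat_lit 647196) (nat_lit 9) (.e (nat_lit 991) (nat_lit 81) (.e (nat_lit 2354) (nat_lit 151) (.e (nat_lit 778360) (nat_lit 9) .nil))))))))) (.g (nat_lit 4) .nil .nil)))) (.nd (nat_lit 5) 
(.lf (nat_lit 2644) (.g (nat_lit 2299) (.e (nat_lit 232) (nat_lit 21) (.e (nat_lit 336060) (nat_lit 7) (.e (nat_lit 319534) (nat_lit 16) (.e (nat_lit 286756) (nat_lit 10) (.e (nat_lit 344160) (nat_lit 37) (.e (nat_lit 647195) (nat_lit 9) (.e (nat_lit 7936) (nat_lit 81) (.e (nat_lit 2288) (nat_lit 151) (.e (nat_lit 778353) (nat_lit 9) .nil))))))))) (.g (nat_lit 4) .nil .nil))) 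
(.lf (nat_lit 2676) (.g (nat_lit 2626) (.e (nat_lit 232) (nat_lit 21) (.e (nat_lit 336060) (nat_lit 7) (.e (nat_lit 319534) (nat_lit 16) (.e (nat_lit 286756) (nat_lit 10) (.e (nat_lit 344160) (nat_lit 37) (.e (nat_lit 647201) (nat_lit 12) (.e (nat_lit 57351) (nat_lit 0) (.e (nat_lit 7464) (nat_lit 396) (.e (nat_lit 2422) (nat_lit 157) .nil))))))))) (.g (nat_lit 5) .nil .nil))))) 
(.nd (nat_lit 4) (.nd (nat_lit 5) 
(.lf (nat_lit 2636) (.g (nat_lit 3209) (.e (nat_lit 232) (nat_lit 21) (.e (nat_lit 336060) (nat_lit 7) (.e (nat_lit 319534) (nat_lit 16) (.e (nat_lit 286756) (nat_lit 10) (.e (nat_lit 344160) (nat_lit 37) (.e (nat_lit 647195) (nat_lit 9) (.e (nat_lit 1040) (nat_lit 81) (.e (nat_lit 2334) (nat_lit 151) (.e (nat_lit 778334) (nat_lit 9) .nil))))))))) (.g (nat_lit 5) .nil .nil))) 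
(.lf (nat_lit 2668) (.g (nat_lit 1941) (.e (nat_lit 232) (nat_lit 21) (.e (nat_lit 336060) (nat_lit 7) (.e (nat_lit 319534) (nat_lit 16) (.e (nat_lit 286756) (nat_lit 10) (.e (nat_lit 344160) (nat_lit 37) (.e (nat_lit 647198) (nat_lit 10) (.e (nat_lit 8193) (nat_lit 0) (.e (nat_lit 4620) (nat_lit 269) (.e (nat_lit 2423) (nat_lit 157) .nil))))))))) (.g (nat_lit 4) .nil .nil)))) (.nd (nat_lit 5) 
(.lf (nat_lit 2652) (.g (nat_lit 1919) (.e (nat_lit 232) (nat_lit 21) (.e (nat_lit 336060) (nat_lit 7) (.e (nat_lit 319534) (nat_lit 16) (.e (nat_lit 286756) (nat_lit 10) (.e (nat_lit 344160) (nat_lit 37) (.e (nat_lit 647195) (nat_lit 9) (.e (nat_lit 7936) (nat_lit 81) (.e (nat_lit 2352) (nat_lit 151) (.e (nat_lit 778360) (nat_lit 9) .nil))))))))) (.g (nat_lit 4) .nil .nil))) 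
(.lf (nat_lit 2684) (.g (nat_lit 3653) (.e (nat_lit 232) (nat_lit 21) (.e (nat_lit 336060) (nat_lit 7) (.e (nat_lit 319534) (nat_lit 16) (.e (nat_lit 286756) (nat_lit 10) (.e (nat_lit 344160) (nat_lit 37) (.e (nat_lit 647201) (nat_lit 12) (.e (nat_lit 65280) (nat_lit 55) (.e (nat_lit 778334) (nat_lit 9) .nil)))))))) (.g (nat_lit 6) .nil .nil))))))) 
(.nd (nat_lit 2) (.nd (nat_lit 3) (.nd (nat_lit 4) (.nd (nat_lit 5) 
(.lf (nat_lit 2626) (.g (nat_lit 3184) (.e (nat_lit 232) (nat_lit 21) (.e (nat_lit 336060) (nat_lit 7) (.e (nat_lit 319534) (nat_lit 16) (.e (nat_lit 286756) (nat_lit 10) (.e (nat_lit 344160) (nat_lit 37) (.e (nat_lit 647195) (nat_lit 9) (.e (nat_lit 1014) (nat_lit 81) (.e (nat_lit 2328) (nat_lit 151) (.e (nat_lit 778360) (nat_lit 9) .nil))))))))) (.g (nat_lit 6) .nil .nil))) 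
(.lf (nat_lit 2658) (.g (nat_lit 4674) (.e (nat_lit 232) (nat_lit 21) (.e (nat_lit 336060) (nat_lit 7) (.e (nat_lit 319534) (nat_lit 16) (.e (nat_lit 286756) (nat_lit 10) (.e (nat_lit 344160) (nat_lit 37) (.e (nat_lit 647195) (nat_lit 9) (.e (nat_lit 1310) (nat_lit 98) (.e (nat_lit 147466) (nat_lit 9) .nil)))))))) (.g (nat_lit 8) .nil .nil)))) (.nd (nat_lit 5) 
(.lf (nat_lit 2642) (.g (nat_lit 3249) (.e (nat_lit 232) (nat_lit 21) (.e (nat_lit 336060) (nat_lit 7) (.e (nat_lit 319534) (nat_lit 16) (.e (nat_lit 286756) (nat_lit 10) (.e (nat_lit 344160) (nat_lit 37) (.e (nat_lit 647195) (nat_lit 9) (.e (nat_lit 1040) (nat_lit 81) (.e (nat_lit 7936) (nat_lit 151) (.e (nat_lit 778368) (nat_lit 9) .nil))))))))) (.g (nat_lit 6) .nil .nil))) 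
(.lf (nat_lit 2674) (.g (nat_lit 2879) (.e (nat_lit 232) (nat_lit 21) (.e (nat_lit 336060) (nat_lit 7) (.e (nat_lit 319534) (nat_lit 16) (.e (nat_lit 286756) (nat_lit 10) (.e (nat_lit 344160) (nat_lit 37) (.e (nat_lit 647200) (nat_lit 12) (.e (nat_lit 57575) (nat_lit 55) (.e (nat_lit 778361) (nat_lit 9) .nil)))))))) (.g (nat_lit 5) .nil .nil))))) (.nd (nat_lit 4) (.nd (nat_lit 5) 
(.lf (nat_lit 2634) (.g (nat_lit 2618) (.e (nat_lit 232) (nat_lit 21) (.e (nat_lit 336060) (nat_lit 7) (.e (nat_lit 319534) (nat_lit 16) (.e (nat_lit 286756) (nat_lit 10) (.e (nat_lit 344160) (nat_lit 37) (.e (nat_lit 647195) (nat_lit 9) (.e (nat_lit 1015) (nat_lit 81) (.e (nat_lit 2350) (nat_lit 151) (.e (nat_lit 778359) (nat_lit 9) .nil))))))))) (.g (nat_lit 5) .nil .nil))) 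
(.lf (nat_lit 2666) (.g (nat_lit 1817) (.e (nat_lit 232) (nat_lit 21) (.e (nat_lit 336060) (nat_lit 7) (.e (nat_lit 319534) (nat_lit 16) (.e (nat_lit 286756) (nat_lit 10) (.e (nat_lit 344160) (nat_lit 37) (.e (nat_lit 647196) (nat_lit 9) (.e (nat_lit 1313) (nat_lit 98) (.e (nat_lit 147465) (nat_lit 9) .nil)))))))) (.g (nat_lit 4) .nil .nil)))) (.nd (nat_lit 5) 
(.lf (nat_lit 2650) (.g (nat_lit 2836) (.e (nat_lit 232) (nat_lit 21) (.e (nat_lit 336060) (nat_lit 7) (.e (nat_lit 319534) (nat_lit 16) (.e (nat_lit 286756) (nat_lit 10) (.e (nat_lit 344160) (nat_lit 37) (.e (nat_lit 647195) (nat_lit 9) (.e (nat_lit 7936) (nat_lit 81) (.e (nat_lit 2348) (nat_lit 151) (.e (nat_lit 778334) (nat_lit 9) .nil))))))))) (.g (nat_lit 4) .nil .nil))) 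
(.lf (nat_lit 2682) (.g (nat_lit 4647) (.e (nat_lit 232) (nat_lit 21) (.e (nat_lit 336060) (nat_lit 7) (.e (nat_lit 319534) (nat_lit 16) (.e (nat_lit 286756) (nat_lit 10) (.e (nat_lit 344160) (nat_lit 37) (.e (nat_lit 647201) (nat_lit 12) (.e (nat_lit 57575) (nat_lit 55) (.e (nat_lit 778359) (nat_lit 9) .nil)))))))) (.g (nat_lit 8) .nil .nil)))))) 
(.nd (nat_lit 3) (.nd (nat_lit 4) (.nd (nat_lit 5) 
(.lf (nat_lit 2630) (.g (nat_lit 3452) (.e (nat_lit 232) (nat_lit 21) (.e (nat_lit 336060) (nat_lit 7) (.e (nat_lit 319534) (nat_lit 16) (.e (nat_lit 286756) (nat_lit 10) (.e (nat_lit 344160) (nat_lit 37) (.e (nat_lit 647195) (nat_lit 9) (.e (nat_lit 1015) (nat_lit 81) (.e (nat_lit 2328) (nat_lit 151) (.e (nat_lit 778359) (nat_lit 9) .nil))))))))) (.g (nat_lit 6) .nil .nil))) 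
(.lf (nat_lit 2662) (.g (nat_lit 2258) (.e (nat_lit 232) (nat_lit 21) (.e (nat_lit 336060) (nat_lit 7) (.e (nat_lit 319534) (nat_lit 16) (.e (nat_lit 286756) (nat_lit 10) (.e (nat_lit 344160) (nat_lit 37) (.e (nat_lit 647196) (nat_lit 9) (.e (nat_lit 1003) (nat_lit 81) (.e (nat_lit 2336) (nat_lit 151) (.e (nat_lit 778334) (nat_lit 9) .nil))))))))) (.g (nat_lit 4) .nil .nil)))) (.nd (nat_lit 5) 
(.lf (nat_lit 2646) (.g (nat_lit 1878) (.e (nat_lit 232) (nat_lit 21) (.e (nat_lit 336060) (nat_lit 7) (.e (nat_lit 319534) (nat_lit 16) (.e (nat_lit 286756) (nat_lit 10) (.e (nat_lit 344160) (nat_lit 37) (.e (nat_lit 647195) (nat_lit 9) (.e (nat_lit 7936) (nat_lit 81) (.e (nat_lit 2323) (nat_lit 151) (.e (nat_lit 778353) (nat_lit 9) .nil))))))))) (.g (nat_lit 4) .nil .nil))) 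
(.lf (nat_lit 2678) (.g (nat_lit 3050) (.e (nat_lit 232) (nat_lit 21) (.e (nat_lit 336060) (nat_lit 7) (.e (nat_lit 319534) (nat_lit 16) (.e (nat_lit 286756) (nat_lit 10) (.e (nat_lit 344160) (nat_lit 37) (.e (nat_lit 647201) (nat_lit 12) (.e (nat_lit 57573) (nat_lit 55) (.e (nat_lit 786176) (nat_lit 9) .nil)))))))) (.g (nat_lit 6) .nil .nil))))) (.nd (nat_lit 4) (.nd (nat_lit 5) 
(.lf (nat_lit 2638) (.g (nat_lit 5494) (.e (nat_lit 232) (nat_lit 21) (.e (nat_lit 336060) (nat_lit 7) (.e (nat_lit 319534) (nat_lit 16) (.e (nat_lit 286756) (nat_lit 10) (.e (nat_lit 344160) (nat_lit 37) (.e (nat_lit 647195) (nat_lit 9) (.e (nat_lit 1040) (nat_lit 81) (.e (nat_lit 2346) (nat_lit 151) (.e (nat_lit 778362) (nat_lit 9) .nil))))))))) (.g (nat_lit 0) .nil .nil))) 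
(.lf (nat_lit 2670) (.g (nat_lit 2651) (.e (nat_lit 232) (nat_lit 21) (.e (nat_lit 336060) (nat_lit 7) (.e (nat_lit 319534) (nat_lit 16) (.e (nat_lit 286756) (nat_lit 10) (.e (nat_lit 344160) (nat_lit 37) (.e (nat_lit 647200) (nat_lit 12) (.e (nat_lit 57348) (nat_lit 0) (.e (nat_lit 7464) (nat_lit 396) (.e (nat_lit 2423) (nat_lit 157) .nil))))))))) (.g (nat_lit 6) .nil .nil)))) (.nd (nat_lit 5) 
(.lf (nat_lit 2654) (.g (nat_lit 2153) (.e (nat_lit 232) (nat_lit 21) (.e (nat_lit 336060) (nat_lit 7) (.e (nat_lit 319534) (nat_lit 16) (.e (nat_lit 286756) (nat_lit 10) (.e (nat_lit 344160) (nat_lit 37) (.e (nat_lit 647195) (nat_lit 9) (.e (nat_lit 7936) (nat_lit 81) (.e (nat_lit 2354) (nat_lit 151) (.e (nat_lit 778360) (nat_lit 9) .nil))))))))) (.g (nat_lit 4) .nil .nil))) 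
(.lf (nat_lit 2686) (.g (nat_lit 3221) (.e (nat_lit 232) (nat_lit 21) (.e (nat_lit 336060) (nat_lit 7) (.e (nat_lit 319534) (nat_lit 16) (.e (nat_lit 286756) (nat_lit 10) (.e (nat_lit 344160) (nat_lit 37) (.e (nat_lit 647201) (nat_lit 12) (.e (nat_lit 65280) (nat_lit 55) (.e (nat_lit 778354) (nat_lit 9) .nil)))))))) (.g (nat_lit 6) .nil .nil)))))))) 
(.nd (nat_lit 1) (.nd (nat_lit 2) (.nd (nat_lit 3) (.nd (nat_lit 4) (.nd (nat_lit 5) 
(.lf (nat_lit 2625) (.g (nat_lit 2809) (.e (nat_lit 232) (nat_lit 21) (.e (nat_lit 336060) (nat_lit 7) (.e (nat_lit 319534) (nat_lit 16) (.e (nat_lit 286756) (nat_lit 10) (.e (nat_lit 344160) (nat_lit 37) (.e (nat_lit 647195) (nat_lit 9) (.e (nat_lit 1014) (nat_lit 81) (.e (nat_lit 2328) (nat_lit 151) (.e (nat_lit 778359) (nat_lit 9) .nil))))))))) (.g (nat_lit 5) .nil .nil))) 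
(.lf (nat_lit 2657) (.g (nat_lit 4437) (.e (nat_lit 232) (nat_lit 21) (.e (nat_lit 336060) (nat_lit 7) (.e (nat_lit 319534) (nat_lit 16) (.e (nat_lit 286756) (nat_lit 10) (.e (nat_lit 344160) (nat_lit 37) (.e (nat_lit 647195) (nat_lit 9) (.e (nat_lit 1310) (nat_lit 98) (.e (nat_lit 147465) (nat_lit 9) .nil)))))))) (.g (nat_lit 0) .nil .nil)))) (.nd (nat_lit 5) 
(.lf (nat_lit 2641) (.g (nat_lit 4367) (.e (nat_lit 232) (nat_lit 21) (.e (nat_lit 336060) (nat_lit 7) (.e (nat_lit 319534) (nat_lit 16) (.e (nat_lit 286756) (nat_lit 10) (.e (nat_lit 344160) (nat_lit 37) (.e (nat_lit 647195) (nat_lit 9) (.e (nat_lit 1040) (nat_lit 81) (.e (nat_lit 7936) (nat_lit 151) (.e (nat_lit 778353) (nat_lit 9) .nil))))))))) (.g (nat_lit 6) .nil .nil))) 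
(.lf (nat_lit 2673) (.g (nat_lit 5383) (.e (nat_lit 232) (nat_lit 21) (.e (nat_lit 336060) (nat_lit 7) (.e (nat_lit 319534) (nat_lit 16) (.e (nat_lit 286756) (nat_lit 10) (.e (nat_lit 344160) (nat_lit 37) (.e (nat_lit 647200) (nat_lit 12) (.e (nat_lit 57573) (nat_lit 55) (.e (nat_lit 778334) (nat_lit 9) .nil)))))))) (.g (nat_lit 6) .nil .nil))))) (.nd (nat_lit 4) (.nd (nat_lit 5) 
(.lf (nat_lit 2633) (.g (nat_lit 2749) (.e (nat_lit 232) (nat_lit 21) (.e (nat_lit 336060) (nat_lit 7) (.e (nat_lit 319534) (nat_lit 16) (.e (nat_lit 286756) (nat_lit 10) (.e (nat_lit 344160) (nat_lit 37) (.e (nat_lit 647195) (nat_lit 9) (.e (nat_lit 1015) (nat_lit 81) (.e (nat_lit 2350) (nat_lit 151) (.e (nat_lit 778353) (nat_lit 9) .nil))))))))) (.g (nat_lit 5) .nil .nil))) 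
(.lf (nat_lit 2665) (.g (nat_lit 2488) (.e (nat_lit 232) (nat_lit 21) (.e (nat_lit 336060) (nat_lit 7) (.e (nat_lit 319534) (nat_lit 16) (.e (nat_lit 286756) (nat_lit 10) (.e (nat_lit 344160) (nat_lit 37) (.e (nat_lit 647196) (nat_lit 9) (.e (nat_lit 1313) (nat_lit 98) (.e (nat_lit 147463) (nat_lit 9) .nil)))))))) (.g (nat_lit 5) .nil .nil)))) (.nd (nat_lit 5) 
(.lf (nat_lit 2649) (.g (nat_lit 2958) (.e (nat_lit 232) (nat_lit 21) (.e (nat_lit 336060) (nat_lit 7) (.e (nat_lit 319534) (nat_lit 16) (.e (nat_lit 286756) (nat_lit 10) (.e (nat_lit 344160) (nat_lit 37) (.e (nat_lit 647195) (nat_lit 9) (.e (nat_lit 7936) (nat_lit 81) (.e (nat_lit 2337) (nat_lit 151) (.e (nat_lit 778334) (nat_lit 9) .nil))))))))) (.g (nat_lit 5) .nil .nil))) 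
(.lf (nat_lit 2681) (.g (nat_lit 5216) (.e (nat_lit 232) (nat_lit 21) (.e (nat_lit 336060) (nat_lit 7) (.e (nat_lit 319534) (nat_lit 16) (.e (nat_lit 286756) (nat_lit 10) (.e (nat_lit 344160) (nat_lit 37) (.e (nat_lit 647201) (nat_lit 12) (.e (nat_lit 57574) (nat_lit 55) (.e (nat_lit 778361) (nat_lit 9) .nil)))))))) (.g (nat_lit 8) .nil .nil)))))) 
(.nd (nat_lit 3) (.nd (nat_lit 4) (.nd (nat_lit 5) 
(.lf (nat_lit 2629) (.g (nat_lit 2837) (.e (nat_lit 232) (nat_lit 21) (.e (nat_lit 336060) (nat_lit 7) (.e (nat_lit 319534) (nat_lit 16) (.e (nat_lit 286756) (nat_lit 10) (.e (nat_lit 344160) (nat_lit 37) (.e (nat_lit 647195) (nat_lit 9) (.e (nat_lit 1014) (nat_lit 81) (.e (nat_lit 2350) (nat_lit 151) (.e (nat_lit 778360) (nat_lit 9) .nil))))))))) (.g (nat_lit 5) .nil .nil))) 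
(.lf (nat_lit 2661) (.g (nat_lit 2682) (.e (nat_lit 232) (nat_lit 21) (.e (nat_lit 336060) (nat_lit 7) (.e (nat_lit 319534) (nat_lit 16) (.e (nat_lit 286756) (nat_lit 10) (.e (nat_lit 344160) (nat_lit 37) (.e (nat_lit 647196) (nat_lit 9) (.e (nat_lit 1003) (nat_lit 81) (.e (nat_lit 2292) (nat_lit 151) (.e (nat_lit 778348) (nat_lit 9) .nil))))))))) (.g (nat_lit 4) .nil .nil)))) (.nd (nat_lit 5) 
(.lf (nat_lit 2645) (.g (nat_lit 2429) (.e (nat_lit 232) (nat_lit 21) (.e (nat_lit 336060) (nat_lit 7) (.e (nat_lit 319534) (nat_lit 16) (.e (nat_lit 286756) (nat_lit 10) (.e (nat_lit 344160) (nat_lit 37) (.e (nat_lit 647195) (nat_lit 9) (.e (nat_lit 7936) (nat_lit 81) (.e (nat_lit 2288) (nat_lit 151) (.e (nat_lit 778368) (nat_lit 9) .nil))))))))) (.g (nat_lit 4) .nil .nil))) 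
(.lf (nat_lit 2677) (.g (nat_lit 3144) (.e (nat_lit 232) (nat_lit 21) (.e (nat_lit 336060) (nat_lit 7) (.e (nat_lit 319534) (nat_lit 16) (.e (nat_lit 286756) (nat_lit 10) (.e (nat_lit 344160) (nat_lit 37) (.e (nat_lit 647201) (nat_lit 12) (.e (nat_lit 57351) (nat_lit 0) (.e (nat_lit 7464) (nat_lit 396) (.e (nat_lit 2423) (nat_lit 157) .nil))))))))) (.g (nat_lit 9) .nil .nil))))) 
(.nd (nat_lit 4) (.nd (nat_lit 5) 
(.lf (nat_lit 2637) (.g (nat_lit 2262) (.e (nat_lit 232) (nat_lit 21) (.e (nat_lit 336060) (nat_lit 7) (.e (nat_lit 319534) (nat_lit 16) (.e (nat_lit 286756) (nat_lit 10) (.e (nat_lit 344160) (nat_lit 37) (.e (nat_lit 647195) (nat_lit 9) (.e (nat_lit 1040) (nat_lit 81) (.e (nat_lit 2346) (nat_lit 151) (.e (nat_lit 778361) (nat_lit 9) .nil))))))))) (.g (nat_lit 4) .nil .nil))) 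
(.lf (nat_lit 2669) (.g (nat_lit 2133) (.e (nat_lit 232) (nat_lit 21) (.e (nat_lit 336060) (nat_lit 7) (.e (nat_lit 319534) (nat_lit 16) (.e (nat_lit 286756) (nat_lit 10) (.e (nat_lit 344160) (nat_lit 37) (.e (nat_lit 647200) (nat_lit 12) (.e (nat_lit 57348) (nat_lit 0) (.e (nat_lit 7464) (nat_lit 396) (.e (nat_lit 2422) (nat_lit 157) .nil))))))))) (.g (nat_lit 4) .nil .nil)))) (.nd (nat_lit 5) 
(.lf (nat_lit 2653) (.g (nat_lit 2468) (.e (nat_lit 232) (nat_lit 21) (.e (nat_lit 336060) (nat_lit 7) (.e (nat_lit 319534) (nat_lit 16) (.e (nat_lit 286756) (nat_lit 10) (.e (nat_lit 344160) (nat_lit 37) (.e (nat_lit 647195) (nat_lit 9) (.e (nat_lit 7936) (nat_lit 81) (.e (nat_lit 2353) (nat_lit 151) (.e (nat_lit 778360) (nat_lit 9) .nil))))))))) (.g (nat_lit 4) .nil .nil))) 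
(.lf (nat_lit 2685) (.g (nat_lit 3344) (.e (nat_lit 232) (nat_lit 21) (.e (nat_lit 336060) (nat_lit 7) (.e (nat_lit 319534) (nat_lit 16) (.e (nat_lit 286756) (nat_lit 10) (.e (nat_lit 344160) (nat_lit 37) (.e (nat_lit 647201) (nat_lit 12) (.e (nat_lit 65280) (nat_lit 55) (.e (nat_lit 778348) (nat_lit 9) .nil)))))))) (.g (nat_lit 6) .nil .nil))))))) 
(.nd (nat_lit 2) (.nd (nat_lit 3) (.nd (nat_lit 4) (.nd (nat_lit 5) 
(.lf (nat_lit 2627) (.g (nat_lit 2193) (.e (nat_lit 232) (nat_lit 21) (.e (nat_lit 336060) (nat_lit 7) (.e (nat_lit 319534) (nat_lit 16) (.e (nat_lit 286756) (nat_lit 10) (.e (nat_lit 344160) (nat_lit 37) (.e (nat_lit 647195) (nat_lit 9) (.e (nat_lit 1014) (nat_lit 81) (.e (nat_lit 2350) (nat_lit 151) (.e (nat_lit 778353) (nat_lit 9) .nil))))))))) (.g (nat_lit 4) .nil .nil))) 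
(.lf (nat_lit 2659) (.g (nat_lit 2109) (.e (nat_lit 232) (nat_lit 21) (.e (nat_lit 336060) (nat_lit 7) (.e (nat_lit 319534) (nat_lit 16) (.e (nat_lit 286756) (nat_lit 10) (.e (nat_lit 344160) (nat_lit 37) (.e (nat_lit 647196) (nat_lit 9) (.e (nat_lit 991) (nat_lit 81) (.e (nat_lit 2349) (nat_lit 151) (.e (nat_lit 778360) (nat_lit 9) .nil))))))))) (.g (nat_lit 4) .nil .nil)))) (.nd (nat_lit 5) 
(.lf (nat_lit 2643) (.g (nat_lit 3834) (.e (nat_lit 232) (nat_lit 21) (.e (nat_lit 336060) (nat_lit 7) (.e (nat_lit 319534) (nat_lit 16) (.e (nat_lit 286756) (nat_lit 10) (.e (nat_lit 344160) (nat_lit 37) (.e (nat_lit 647195) (nat_lit 9) (.e (nat_lit 1086) (nat_lit 81) (.e (nat_lit 2334) (nat_lit 151) (.e (nat_lit 778334) (nat_lit 9) .nil))))))))) (.g (nat_lit 6) .nil .nil))) 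
(.lf (nat_lit 2675) (.g (nat_lit 1759) (.e (nat_lit 232) (nat_lit 21) (.e (nat_lit 336060) (nat_lit 7) (.e (nat_lit 319534) (nat_lit 16) (.e (nat_lit 286756) (nat_lit 10) (.e (nat_lit 344160) (nat_lit 37) (.e (nat_lit 647201) (nat_lit 12) (.e (nat_lit 57351) (nat_lit 0) (.e (nat_lit 7464) (nat_lit 396) (.e (nat_lit 2416) (nat_lit 157) .nil))))))))) (.g (nat_lit 4) .nil .nil))))) 
(.nd (nat_lit 4) (.nd (nat_lit 5) 
(.lf (nat_lit 2635) (.g (nat_lit 3393) (.e (nat_lit 232) (nat_lit 21) (.e (nat_lit 336060) (nat_lit 7) (.e (nat_lit 319534) (nat_lit 16) (.e (nat_lit 286756) (nat_lit 10) (.e (nat_lit 344160) (nat_lit 37) (.e (nat_lit 647195) (nat_lit 9) (.e (nat_lit 1015) (nat_lit 81) (.e (nat_lit 2350) (nat_lit 151) (.e (nat_lit 778360) (nat_lit 9) .nil))))))))) (.g (nat_lit 6) .nil .nil))) 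
(.lf (nat_lit 2667) (.g (nat_lit 2034) (.e (nat_lit 232) (nat_lit 21) (.e (nat_lit 336060) (nat_lit 7) (.e (nat_lit 319534) (nat_lit 16) (.e (nat_lit 286756) (nat_lit 10) (.e (nat_lit 344160) (nat_lit 37) (.e (nat_lit 655104) (nat_lit 9) (.e (nat_lit 1312) (nat_lit 98) (.e (nat_lit 147467) (nat_lit 9) .nil)))))))) (.g (nat_lit 4) .nil .nil)))) (.nd (nat_lit 5) 
(.lf (nat_lit 2651) (.g (nat_lit 2172) (.e (nat_lit 232) (nat_lit 21) (.e (nat_lit 336060) (nat_lit 7) (.e (nat_lit 319534) (nat_lit 16) (.e (nat_lit 286756) (nat_lit 10) (.e (nat_lit 344160) (nat_lit 37) (.e (nat_lit 647195) (nat_lit 9) (.e (nat_lit 7936) (nat_lit 81) (.e (nat_lit 2351) (nat_lit 151) (.e (nat_lit 778360) (nat_lit 9) .nil))))))))) (.g (nat_lit 4) .nil .nil))) 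
(.lf (nat_lit 2683) (.g (nat_lit 4145) (.e (nat_lit 232) (nat_lit 21) (.e (nat_lit 336060) (nat_lit 7) (.e (nat_lit 319534) (nat_lit 16) (.e (nat_lit 286756) (nat_lit 10) (.e (nat_lit 344160) (nat_lit 37) (.e (nat_lit 647201) (nat_lit 12) (.e (nat_lit 57575) (nat_lit 55) (.e (nat_lit 778360) (nat_lit 9) .nil)))))))) (.g (nat_lit 7) .nil .nil)))))) 
(.nd (nat_lit 3) (.nd (nat_lit 4) (.nd (nat_lit 5) 
(.lf (nat_lit 2631) (.g (nat_lit 3816) (.e (nat_lit 232) (nat_lit 21) (.e (nat_lit 336060) (nat_lit 7) (.e (nat_lit 319534) (nat_lit 16) (.e (nat_lit 286756) (nat_lit 10) (.e (nat_lit 344160) (nat_lit 37) (.e (nat_lit 647195) (nat_lit 9) (.e (nat_lit 1015) (nat_lit 81) (.e (nat_lit 2328) (nat_lit 151) (.e (nat_lit 778360) (nat_lit 9) .nil))))))))) (.g (nat_lit 7) .nil .nil))) 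
(.lf (nat_lit 2663) (.g (nat_lit 1867) (.e (nat_lit 232) (nat_lit 21) (.e (nat_lit 336060) (nat_lit 7) (.e (nat_lit 319534) (nat_lit 16) (.e (nat_lit 286756) (nat_lit 10) (.e (nat_lit 344160) (nat_lit 37) (.e (nat_lit 647196) (nat_lit 9) (.e (nat_lit 1003) (nat_lit 81) (.e (nat_lit 2343) (nat_lit 151) (.e (nat_lit 778360) (nat_lit 9) .nil))))))))) (.g (nat_lit 4) .nil .nil)))) (.nd (nat_lit 5) 
(.lf (nat_lit 2647) (.g (nat_lit 3653) (.e (nat_lit 232) (nat_lit 21) (.e (nat_lit 336060) (nat_lit 7) (.e (nat_lit 319534) (nat_lit 16) (.e (nat_lit 286756) (nat_lit 10) (.e (nat_lit 344160) (nat_lit 37) (.e (nat_lit 647195) (nat_lit 9) (.e (nat_lit 7936) (nat_lit 81) (.e (nat_lit 2335) (nat_lit 151) (.e (nat_lit 778334) (nat_lit 9) .nil))))))))) (.g (nat_lit 6) .nil .nil))) 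
(.lf (nat_lit 2679) (.g (nat_lit 3951) (.e (nat_lit 232) (nat_lit 21) (.e (nat_lit 336060) (nat_lit 7) (.e (nat_lit 319534) (nat_lit 16) (.e (nat_lit 286756) (nat_lit 10) (.e (nat_lit 344160) (nat_lit 37) (.e (nat_lit 647201) (nat_lit 12) (.e (nat_lit 57574) (nat_lit 55) (.e (nat_lit 778359) (nat_lit 9) .nil)))))))) (.g (nat_lit 7) .nil .nil))))) (.nd (nat_lit 4) (.nd (nat_lit 5) 
(.lf (nat_lit 2639) (.g (nat_lit 2576) (.e (nat_lit 232) (nat_lit 21) (.e (nat_lit 336060) (nat_lit 7) (.e (nat_lit 319534) (nat_lit 16) (.e (nat_lit 286756) (nat_lit 10) (.e (nat_lit 344160) (nat_lit 37) (.e (nat_lit 647195) (nat_lit 9) (.e (nat_lit 1040) (nat_lit 81) (.e (nat_lit 7936) (nat_lit 151) (.e (nat_lit 778334) (nat_lit 9) .nil))))))))) (.g (nat_lit 4) .nil .nil))) 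
(.lf (nat_lit 2671) (.g (nat_lit 1761) (.e (nat_lit 232) (nat_lit 21) (.e (nat_lit 336060) (nat_lit 7) (.e (nat_lit 319534) (nat_lit 16) (.e (nat_lit 286756) (nat_lit 10) (.e (nat_lit 344160) (nat_lit 37) (.e (nat_lit 647200) (nat_lit 12) (.e (nat_lit 57352) (nat_lit 0) (.e (nat_lit 7464) (nat_lit 396) (.e (nat_lit 2423) (nat_lit 157) .nil))))))))) (.g (nat_lit 4) .nil .nil)))) (.nd (nat_lit 5) 
(.lf (nat_lit 2655) (.g (nat_lit 4391) (.e (nat_lit 232) (nat_lit 21) (.e (nat_lit 336060) (nat_lit 7) (.e (nat_lit 319534) (nat_lit 16) (.e (nat_lit 286756) (nat_lit 10) (.e (nat_lit 344160) (nat_lit 37) (.e (nat_lit 647195) (nat_lit 9) (.e (nat_lit 1310) (nat_lit 98) (.e (nat_lit 147463) (nat_lit 9) .nil)))))))) (.g (nat_lit 8) .nil .nil))) 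
(.lf (nat_lit 2687) (.g (nat_lit 3086) (.e (nat_lit 232) (nat_lit 21) (.e (nat_lit 336060) (nat_lit 7) (.e (nat_lit 319534) (nat_lit 16) (.e (nat_lit 286756) (nat_lit 10) (.e (nat_lit 344160) (nat_lit 37) (.e (nat_lit 647201) (nat_lit 12) (.e (nat_lit 65280) (nat_lit 55) (.e (nat_lit 778359) (nat_lit 9) .nil)))))))) (.g (nat_lit 6) .nil .nil)))))))))

noncomputable def tv037 : DT := (.nd (nat_lit 0) (.nd (nat_lit 1) (.nd (nat_lit 2) (.nd (nat_lit 3) (.nd (nat_lit 4) (.nd (nat_lit 5) 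
(.lf (nat_lit 2688) (.g (nat_lit 2351) (.e (nat_lit 232) (nat_lit 21) (.e (nat_lit 336060) (nat_lit 7) (.e (nat_lit 319534) (nat_lit 16) (.e (nat_lit 286756) (nat_lit 10) (.e (nat_lit 344160) (nat_lit 37) (.e (nat_lit 647201) (nat_lit 12) (.e (nat_lit 65280) (nat_lit 55) (.e (nat_lit 778368) (nat_lit 9) .nil)))))))) (.g (nat_lit 4) .nil .nil))) 
(.lf (nat_lit 2720) (.g (nat_lit 1882) (.e (nat_lit 232) (nat_lit 21) (.e (nat_lit 336060) (nat_lit 7) (.e (nat_lit 319534) (nat_lit 16) (.e (nat_lit 286756) (nat_lit 10) (.e (nat_lit 344168) (nat_lit 40) (.e (nat_lit 671769) (nat_lit 9) (.e (nat_lit 2694) (nat_lit 169) (.e (nat_lit 213000) (nat_lit 9) .nil)))))))) (.g (nat_lit 4) .nil .nil)))) (.nd (nat_lit 5) 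
(.lf (nat_lit 2704) (.g (nat_lit 2671) (.e (nat_lit 232) (nat_lit 21) (.e (nat_lit 336060) (nat_lit 7) (.e (nat_lit 319534) (nat_lit 16) (.e (nat_lit 286756) (nat_lit 10) (.e (nat_lit 344160) (nat_lit 37) (.e (nat_lit 655104) (nat_lit 14) (.e (nat_lit 2581) (nat_lit 161) (.e (nat_lit 40972) (nat_lit 9) .nil)))))))) (.g (nat_lit 5) .nil .nil))) 
(.lf (nat_lit 2736) (.g (nat_lit 2451) (.e (nat_lit 232) (nat_lit 21) (.e (nat_lit 336060) (nat_lit 7) (.e (nat_lit 319534) (nat_lit 16) (.e (nat_lit 286756) (nat_lit 10) (.e (nat_lit 344168) (nat_lit 40) (.e (nat_lit 671773) (nat_lit 9) (.e (nat_lit 2699) (nat_lit 169) (.e (nat_lit 213000) (nat_lit 9) .nil)))))))) (.g (nat_lit 5) .nil .nil))))) (.nd (nat_lit 4) (.nd (nat_lit 5) 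
(.lf (nat_lit 2696) (.g (nat_lit 2975) (.e (nat_lit 232) (nat_lit 21) (.e (nat_lit 336060) (nat_lit 7) (.e (nat_lit 319534) (nat_lit 16) (.e (nat_lit 286756) (nat_lit 10) (.e (nat_lit 344160) (nat_lit 37) (.e (nat_lit 647203) (nat_lit 14) (.e (nat_lit 2509) (nat_lit 157) (.e (nat_lit 879) (nat_lit 75) (.e (nat_lit 778361) (nat_lit 9) .nil))))))))) (.g (nat_lit 5) .nil .nil))) 
(.lf (nat_lit 2728) (.g (nat_lit 2722) (.e (nat_lit 232) (nat_lit 21) (.e (nat_lit 336060) (nat_lit 7) (.e (nat_lit 319534) (nat_lit 16) (.e (nat_lit 286756) (nat_lit 10) (.e (nat_lit 344168) (nat_lit 40) (.e (nat_lit 671771) (nat_lit 9) (.e (nat_lit 2747) (nat_lit 175) (.e (nat_lit 262151) (nat_lit 9) .nil)))))))) (.g (nat_lit 5) .nil .nil)))) (.nd (nat_lit 5) 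
(.lf (nat_lit 2712) (.g (nat_lit 1946) (.e (nat_lit 232) (nat_lit 21) (.e (nat_lit 336060) (nat_lit 7) (.e (nat_lit 319534) (nat_lit 16) (.e (nat_lit 286756) (nat_lit 10) (.e (nat_lit 352000) (nat_lit 39) (.e (nat_lit 663585) (nat_lit 12) (.e (nat_lit 164046) (nat_lit 55) (.e (nat_lit 778368) (nat_lit 9) .nil)))))))) (.g (nat_lit 4) .nil .nil))) 
(.lf (nat_lit 2744) (.g (nat_lit 2567) (.e (nat_lit 232) (nat_lit 21) (.e (nat_lit 336060) (nat_lit 7) (.e (nat_lit 319534) (nat_lit 16) (.e (nat_lit 286756) (nat_lit 10) (.e (nat_lit 344168) (nat_lit 40) (.e (nat_lit 671780) (nat_lit 12) (.e (nat_lit 164035) (nat_lit 55) (.e (nat_lit 778368) (nat_lit 9) .nil)))))))) (.g (nat_lit 4) .nil .nil)))))) 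
(.nd (nat_lit 3) (.nd (nat_lit 4) (.nd (nat_lit 5) 
(.lf (nat_lit 2692) (.g (nat_lit 2139) (.e (nat_lit 232) (nat_lit 21) (.e (nat_lit 336060) (nat_lit 7) (.e (nat_lit 319534) (nat_lit 16) (.e (nat_lit 286756) (nat_lit 10) (.e (nat_lit 344160) (nat_lit 37) (.e (nat_lit 647203) (nat_lit 14) (.e (nat_lit 2505) (nat_lit 157) (.e (nat_lit 879) (nat_lit 75) (.e (nat_lit 778353) (nat_lit 9) .nil))))))))) (.g (nat_lit 4) .nil .nil))) 
(.lf (nat_lit 2724) (.g (nat_lit 2036) (.e (nat_lit 232) (nat_lit 21) (.e (nat_lit 336060) (nat_lit 7) (.e (nat_lit 319534) (nat_lit 16) (.e (nat_lit 286756) (nat_lit 10) (.e (nat_lit 344168) (nat_lit 40) (.e (nat_lit 671771) (nat_lit 9) (.e (nat_lit 2694) (nat_lit 169) (.e (nat_lit 213001) (nat_lit 9) .nil)))))))) (.g (nat_lit 4) .nil .nil)))) (.nd (nat_lit 5) 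
(.lf (nat_lit 2708) (.g (nat_lit 1844) (.e (nat_lit 232) (nat_lit 21) (.e (nat_lit 336060) (nat_lit 7) (.e (nat_lit 319534) (nat_lit 16) (.e (nat_lit 286756) (nat_lit 10) (.e (nat_lit 352000) (nat_lit 39) (.e (nat_lit 663580) (nat_lit 9) (.e (nat_lit 2695) (nat_lit 169) (.e (nat_lit 213002) (nat_lit 9) .nil)))))))) (.g (nat_lit 4) .nil .nil))) 
(.lf (nat_lit 2740) (.g (nat_lit 3160) (.e (nat_lit 232) (nat_lit 21) (.e (nat_lit 336060) (nat_lit 7) (.e (nat_lit 319534) (nat_lit 16) (.e (nat_lit 286756) (nat_lit 10) (.e (nat_lit 344168) (nat_lit 40) (.e (nat_lit 671774) (nat_lit 9) (.e (nat_lit 2699) (nat_lit 169) (.e (nat_lit 213000) (nat_lit 9) .nil)))))))) (.g (nat_lit 0) .nil .nil))))) (.nd (nat_lit 4) (.nd (nat_lit 5) 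
(.lf (nat_lit 2700) (.g (nat_lit 2307) (.e (nat_lit 232) (nat_lit 21) (.e (nat_lit 336060) (nat_lit 7) (.e (nat_lit 319534) (nat_lit 16) (.e (nat_lit 286756) (nat_lit 10) (.e (nat_lit 344160) (nat_lit 37) (.e (nat_lit 655104) (nat_lit 14) (.e (nat_lit 2576) (nat_lit 161) (.e (nat_lit 40969) (nat_lit 9) .nil)))))))) (.g (nat_lit 4) .nil .nil))) 
(.lf (nat_lit 2732) (.g (nat_lit 1855) (.e (nat_lit 232) (nat_lit 21) (.e (nat_lit 336060) (nat_lit 7) (.e (nat_lit 319534) (nat_lit 16) (.e (nat_lit 286756) (nat_lit 10) (.e (nat_lit 344168) (nat_lit 40) (.e (nat_lit 671772) (nat_lit 9) (.e (nat_lit 2695) (nat_lit 169) (.e (nat_lit 213000) (nat_lit 9) .nil)))))))) (.g (nat_lit 4) .nil .nil)))) (.nd (nat_lit 5) 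
(.lf (nat_lit 2716) (.g (nat_lit 1425) (.e (nat_lit 232) (nat_lit 21) (.e (nat_lit 336060) (nat_lit 7) (.e (nat_lit 319534) (nat_lit 16) (.e (nat_lit 286756) (nat_lit 10) (.e (nat_lit 344168) (nat_lit 40) .nil))))) .nil)) 
(.lf (nat_lit 2748) (.g (nat_lit 2633) (.e (nat_lit 232) (nat_lit 21) (.e (nat_lit 336060) (nat_lit 7) (.e (nat_lit 319534) (nat_lit 16) (.e (nat_lit 286756) (nat_lit 10) (.e (nat_lit 344168) (nat_lit 40) (.e (nat_lit 671780) (nat_lit 12) (.e (nat_lit 164044) (nat_lit 55) (.e (nat_lit 778368) (nat_lit 9) .nil)))))))) (.g (nat_lit 4) .nil .nil))))))) 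
(.nd (nat_lit 2) (.nd (nat_lit 3) (.nd (nat_lit 4) (.nd (nat_lit 5) 
(.lf (nat_lit 2690) (.g (nat_lit 2736) (.e (nat_lit 232) (nat_lit 21) (.e (nat_lit 336060) (nat_lit 7) (.e (nat_lit 319534) (nat_lit 16) (.e (nat_lit 286756) (nat_lit 10) (.e (nat_lit 344160) (nat_lit 37) (.e (nat_lit 647202) (nat_lit 13) (.e (nat_lit 122980) (nat_lit 55) (.e (nat_lit 778334) (nat_lit 9) .nil)))))))) (.g (nat_lit 4) .nil .nil))) 
(.lf (nat_lit 2722) (.g (nat_lit 2750) (.e (nat_lit 232) (nat_lit 21) (.e (nat_lit 336060) (nat_lit 7) (.e (nat_lit 319534) (nat_lit 16) (.e (nat_lit 286756) (nat_lit 10) (.e (nat_lit 344168) (nat_lit 40) (.e (nat_lit 671771) (nat_lit 9) (.e (nat_lit 2686) (nat_lit 169) (.e (nat_lit 213000) (nat_lit 9) .nil)))))))) (.g (nat_lit 6) .nil .nil)))) (.nd (nat_lit 5) 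
(.lf (nat_lit 2706) (.g (nat_lit 1813) (.e (nat_lit 232) (nat_lit 21) (.e (nat_lit 336060) (nat_lit 7) (.e (nat_lit 319534) (nat_lit 16) (.e (nat_lit 286756) (nat_lit 10) (.e (nat_lit 352000) (nat_lit 39) (.e (nat_lit 663574) (nat_lit 9) (.e (nat_lit 2749) (nat_lit 175) (.e (nat_lit 262151) (nat_lit 9) .nil)))))))) (.g (nat_lit 4) .nil .nil))) 
(.lf (nat_lit 2738) (.g (nat_lit 2133) (.e (nat_lit 232) (nat_lit 21) (.e (nat_lit 336060) (nat_lit 7) (.e (nat_lit 319534) (nat_lit 16) (.e (nat_lit 286756) (nat_lit 10) (.e (nat_lit 344168) (nat_lit 40) (.e (nat_lit 671774) (nat_lit 9) (.e (nat_lit 2695) (nat_lit 169) (.e (nat_lit 213002) (nat_lit 9) .nil)))))))) (.g (nat_lit 4) .nil .nil))))) (.nd (nat_lit 4) (.nd (nat_lit 5) 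
(.lf (nat_lit 2698) (.g (nat_lit 2323) (.e (nat_lit 232) (nat_lit 21) (.e (nat_lit 336060) (nat_lit 7) (.e (nat_lit 319534) (nat_lit 16) (.e (nat_lit 286756) (nat_lit 10) (.e (nat_lit 344160) (nat_lit 37) (.e (nat_lit 647205) (nat_lit 14) (.e (nat_lit 2577) (nat_lit 161) (.e (nat_lit 40972) (nat_lit 9) .nil)))))))) (.g (nat_lit 5) .nil .nil))) 
(.lf (nat_lit 2730) (.g (nat_lit 1916) (.e (nat_lit 232) (nat_lit 21) (.e (nat_lit 336060) (nat_lit 7) (.e (nat_lit 319534) (nat_lit 16) (.e (nat_lit 286756) (nat_lit 10) (.e (nat_lit 344168) (nat_lit 40) (.e (nat_lit 671772) (nat_lit 9) (.e (nat_lit 2687) (nat_lit 169) (.e (nat_lit 213000) (nat_lit 9) .nil)))))))) (.g (nat_lit 4) .nil .nil)))) (.nd (nat_lit 5) 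
(.lf (nat_lit 2714) (.g (nat_lit 2372) (.e (nat_lit 232) (nat_lit 21) (.e (nat_lit 336060) (nat_lit 7) (.e (nat_lit 319534) (nat_lit 16) (.e (nat_lit 286756) (nat_lit 10) (.e (nat_lit 352000) (nat_lit 39) (.e (nat_lit 663585) (nat_lit 12) (.e (nat_lit 164050) (nat_lit 55) (.e (nat_lit 778360) (nat_lit 9) .nil)))))))) (.g (nat_lit 4) .nil .nil))) 
(.lf (nat_lit 2746) (.g (nat_lit 2032) (.e (nat_lit 232) (nat_lit 21) (.e (nat_lit 336060) (nat_lit 7) (.e (nat_lit 319534) (nat_lit 16) (.e (nat_lit 286756) (nat_lit 10) (.e (nat_lit 344168) (nat_lit 40) (.e (nat_lit 671780) (nat_lit 12) (.e (nat_lit 164043) (nat_lit 55) (.e (nat_lit 778368) (nat_lit 9) .nil)))))))) (.g (nat_lit 4) .nil .nil)))))) 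
(.nd (nat_lit 3) (.nd (nat_lit 4) (.nd (nat_lit 5) 
(.lf (nat_lit 2694) (.g (nat_lit 3049) (.e (nat_lit 232) (nat_lit 21) (.e (nat_lit 336060) (nat_lit 7) (.e (nat_lit 319534) (nat_lit 16) (.e (nat_lit 286756) (nat_lit 10) (.e (nat_lit 344160) (nat_lit 37) (.e (nat_lit 647203) (nat_lit 14) (.e (nat_lit 2505) (nat_lit 157) (.e (nat_lit 879) (nat_lit 75) (.e (nat_lit 778361) (nat_lit 9) .nil))))))))) (.g (nat_lit 5) .nil .nil))) 
(.lf (nat_lit 2726) (.g (nat_lit 2027) (.e (nat_lit 232) (nat_lit 21) (.e (nat_lit 336060) (nat_lit 7) (.e (nat_lit 319534) (nat_lit 16) (.e (nat_lit 286756) (nat_lit 10) (.e (nat_lit 344168) (nat_lit 40) (.e (nat_lit 671771) (nat_lit 9) (.e (nat_lit 2700) (nat_lit 169) (.e (nat_lit 213001) (nat_lit 9) .nil)))))))) (.g (nat_lit 4) .nil .nil)))) (.nd (nat_lit 5) 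
(.lf (nat_lit 2710) (.g (nat_lit 1840) (.e (nat_lit 232) (nat_lit 21) (.e (nat_lit 336060) (nat_lit 7) (.e (nat_lit 319534) (nat_lit 16) (.e (nat_lit 286756) (nat_lit 10) (.e (nat_lit 352000) (nat_lit 39) (.e (nat_lit 663585) (nat_lit 12) (.e (nat_lit 164040) (nat_lit 55) (.e (nat_lit 778335) (nat_lit 9) .nil)))))))) (.g (nat_lit 4) .nil .nil))) 
(.lf (nat_lit 2742) (.g (nat_lit 2382) (.e (nat_lit 232) (nat_lit 21) (.e (nat_lit 336060) (nat_lit 7) (.e (nat_lit 319534) (nat_lit 16) (.e (nat_lit 286756) (nat_lit 10) (.e (nat_lit 344168) (nat_lit 40) (.e (nat_lit 671774) (nat_lit 9) (.e (nat_lit 2699) (nat_lit 169) (.e (nat_lit 213002) (nat_lit 9) .nil)))))))) (.g (nat_lit 4) .nil .nil))))) (.nd (nat_lit 4) (.nd (nat_lit 5) 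
(.lf (nat_lit 2702) (.g (nat_lit 2866) (.e (nat_lit 232) (nat_lit 21) (.e (nat_lit 336060) (nat_lit 7) (.e (nat_lit 319534) (nat_lit 16) (.e (nat_lit 286756) (nat_lit 10) (.e (nat_lit 344160) (nat_lit 37) (.e (nat_lit 655104) (nat_lit 14) (.e (nat_lit 2579) (nat_lit 161) (.e (nat_lit 40968) (nat_lit 9) .nil)))))))) (.g (nat_lit 5) .nil .nil))) 
(.lf (nat_lit 2734) (.g (nat_lit 2109) (.e (nat_lit 232) (nat_lit 21) (.e (nat_lit 336060) (nat_lit 7) (.e (nat_lit 319534) (nat_lit 16) (.e (nat_lit 286756) (nat_lit 10) (.e (nat_lit 344168) (nat_lit 40) (.e (nat_lit 671773) (nat_lit 9) (.e (nat_lit 2695) (nat_lit 169) (.e (nat_lit 213002) (nat_lit 9) .nil)))))))) (.g (nat_lit 4) .nil .nil)))) (.nd (nat_lit 5) 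
(.lf (nat_lit 2718) (.g (nat_lit 2055) (.e (nat_lit 232) (nat_lit 21) (.e (nat_lit 336060) (nat_lit 7) (.e (nat_lit 319534) (nat_lit 16) (.e (nat_lit 286756) (nat_lit 10) (.e (nat_lit 344168) (nat_lit 40) (.e (nat_lit 671767) (nat_lit 9) (.e (nat_lit 2689) (nat_lit 169) (.e (nat_lit 213000) (nat_lit 9) .nil)))))))) (.g (nat_lit 4) .nil .nil))) 
(.lf (nat_lit 2750) (.g (nat_lit 2523) (.e (nat_lit 232) (nat_lit 21) (.e (nat_lit 336060) (nat_lit 7) (.e (nat_lit 319534) (nat_lit 16) (.e (nat_lit 286756) (nat_lit 10) (.e (nat_lit 344168) (nat_lit 40) (.e (nat_lit 671780) (nat_lit 12) (.e (nat_lit 164045) (nat_lit 55) (.e (nat_lit 778368) (nat_lit 9) .nil)))))))) (.g (nat_lit 4) .nil .nil)))))))) 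
(.nd (nat_lit 1) (.nd (nat_lit 2) (.nd (nat_lit 3) (.nd (nat_lit 4) (.nd (nat_lit 5) 
(.lf (nat_lit 2689) (.g (nat_lit 2375) (.e (nat_lit 232) (nat_lit 21) (.e (nat_lit 336060) (nat_lit 7) (.e (nat_lit 319534) (nat_lit 16) (.e (nat_lit 286756) (nat_lit 10) (.e (nat_lit 344160) (nat_lit 37) (.e (nat_lit 647201) (nat_lit 12) (.e (nat_lit 65280) (nat_lit 55) (.e (nat_lit 786176) (nat_lit 9) .nil)))))))) (.g (nat_lit 5) .nil .nil))) 
(.lf (nat_lit 2721) (.g (nat_lit 1858) (.e (nat_lit 232) (nat_lit 21) (.e (nat_lit 336060) (nat_lit 7) (.e (nat_lit 319534) (nat_lit 16) (.e (nat_lit 286756) (nat_lit 10) (.e (nat_lit 344168) (nat_lit 40) (.e (nat_lit 671769) (nat_lit 9) (.e (nat_lit 2700) (nat_lit 169) (.e (nat_lit 213000) (nat_lit 9) .nil)))))))) (.g (nat_lit 4) .nil .nil)))) (.nd (nat_lit 5) 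
(.lf (nat_lit 2705) (.g (nat_lit 2621) (.e (nat_lit 232) (nat_lit 21) (.e (nat_lit 336060) (nat_lit 7) (.e (nat_lit 319534) (nat_lit 16) (.e (nat_lit 286756) (nat_lit 10) (.e (nat_lit 344160) (nat_lit 37) (.e (nat_lit 655104) (nat_lit 14) (.e (nat_lit 7936) (nat_lit 161) (.e (nat_lit 40972) (nat_lit 9) .nil)))))))) (.g (nat_lit 5) .nil .nil))) 
(.lf (nat_lit 2737) (.g (nat_lit 2605) (.e (nat_lit 232) (nat_lit 21) (.e (nat_lit 336060) (nat_lit 7) (.e (nat_lit 319534) (nat_lit 16) (.e (nat_lit 286756) (nat_lit 10) (.e (nat_lit 344168) (nat_lit 40) (.e (nat_lit 671774) (nat_lit 9) (.e (nat_lit 2695) (nat_lit 169) (.e (nat_lit 213000) (nat_lit 9) .nil)))))))) (.g (nat_lit 5) .nil .nil))))) (.nd (nat_lit 4) (.nd (nat_lit 5) 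
(.lf (nat_lit 2697) (.g (nat_lit 2019) (.e (nat_lit 232) (nat_lit 21) (.e (nat_lit 336060) (nat_lit 7) (.e (nat_lit 319534) (nat_lit 16) (.e (nat_lit 286756) (nat_lit 10) (.e (nat_lit 344160) (nat_lit 37) (.e (nat_lit 647204) (nat_lit 14) (.e (nat_lit 2574) (nat_lit 161) (.e (nat_lit 40971) (nat_lit 9) .nil)))))))) (.g (nat_lit 4) .nil .nil))) 
(.lf (nat_lit 2729) (.g (nat_lit 3211) (.e (nat_lit 232) (nat_lit 21) (.e (nat_lit 336060) (nat_lit 7) (.e (nat_lit 319534) (nat_lit 16) (.e (nat_lit 286756) (nat_lit 10) (.e (nat_lit 344168) (nat_lit 40) (.e (nat_lit 671771) (nat_lit 9) (.e (nat_lit 2749) (nat_lit 175) (.e (nat_lit 262151) (nat_lit 9) .nil)))))))) (.g (nat_lit 8) .nil .nil)))) (.nd (nat_lit 5) 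
(.lf (nat_lit 2713) (.g (nat_lit 1802) (.e (nat_lit 232) (nat_lit 21) (.e (nat_lit 336060) (nat_lit 7) (.e (nat_lit 319534) (nat_lit 16) (.e (nat_lit 286756) (nat_lit 10) (.e (nat_lit 352000) (nat_lit 39) (.e (nat_lit 663585) (nat_lit 12) (.e (nat_lit 164050) (nat_lit 55) (.e (nat_lit 778359) (nat_lit 9) .nil)))))))) (.g (nat_lit 4) .nil .nil))) 
(.lf (nat_lit 2745) (.g (nat_lit 2082) (.e (nat_lit 232) (nat_lit 21) (.e (nat_lit 336060) (nat_lit 7) (.e (nat_lit 319534) (nat_lit 16) (.e (nat_lit 286756) (nat_lit 10) (.e (nat_lit 344168) (nat_lit 40) (.e (nat_lit 671780) (nat_lit 12) (.e (nat_lit 164043) (nat_lit 55) (.e (nat_lit 778353) (nat_lit 9) .nil)))))))) (.g (nat_lit 4) .nil .nil)))))) 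
(.nd (nat_lit 3) (.nd (nat_lit 4) (.nd (nat_lit 5) 
(.lf (nat_lit 2693) (.g (nat_lit 2020) (.e (nat_lit 232) (nat_lit 21) (.e (nat_lit 336060) (nat_lit 7) (.e (nat_lit 319534) (nat_lit 16) (.e (nat_lit 286756) (nat_lit 10) (.e (nat_lit 344160) (nat_lit 37) (.e (nat_lit 647203) (nat_lit 14) (.e (nat_lit 2505) (nat_lit 157) (.e (nat_lit 879) (nat_lit 75) (.e (nat_lit 778359) (nat_lit 9) .nil))))))))) (.g (nat_lit 4) .nil .nil))) 
(.lf (nat_lit 2725) (.g (nat_lit 3081) (.e (nat_lit 232) (nat_lit 21) (.e (nat_lit 336060) (nat_lit 7) (.e (nat_lit 319534) (nat_lit 16) (.e (nat_lit 286756) (nat_lit 10) (.e (nat_lit 344168) (nat_lit 40) (.e (nat_lit 671771) (nat_lit 9) (.e (nat_lit 2700) (nat_lit 169) (.e (nat_lit 213000) (nat_lit 9) .nil)))))))) (.g (nat_lit 0) .nil .nil)))) (.nd (nat_lit 5) 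
(.lf (nat_lit 2709) (.g (nat_lit 2432) (.e (nat_lit 232) (nat_lit 21) (.e (nat_lit 336060) (nat_lit 7) (.e (nat_lit 319534) (nat_lit 16) (.e (nat_lit 286756) (nat_lit 10) (.e (nat_lit 352000) (nat_lit 39) (.e (nat_lit 663580) (nat_lit 9) (.e (nat_lit 2699) (nat_lit 169) (.e (nat_lit 213000) (nat_lit 9) .nil)))))))) (.g (nat_lit 6) .nil .nil))) 
(.lf (nat_lit 2741) (.g (nat_lit 1971) (.e (nat_lit 232) (nat_lit 21) (.e (nat_lit 336060) (nat_lit 7) (.e (nat_lit 319534) (nat_lit 16) (.e (nat_lit 286756) (nat_lit 10) (.e (nat_lit 344168) (nat_lit 40) (.e (nat_lit 671774) (nat_lit 9) (.e (nat_lit 2699) (nat_lit 169) (.e (nat_lit 213001) (nat_lit 9) .nil)))))))) (.g (nat_lit 4) .nil .nil))))) (.nd (nat_lit 4) (.nd (nat_lit 5) 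
(.lf (nat_lit 2701) (.g (nat_lit 2401) (.e (nat_lit 232) (nat_lit 21) (.e (nat_lit 336060) (nat_lit 7) (.e (nat_lit 319534) (nat_lit 16) (.e (nat_lit 286756) (nat_lit 10) (.e (nat_lit 344160) (nat_lit 37) (.e (nat_lit 655104) (nat_lit 14) (.e (nat_lit 2578) (nat_lit 161) (.e (nat_lit 40968) (nat_lit 9) .nil)))))))) (.g (nat_lit 4) .nil .nil))) 
(.lf (nat_lit 2733) (.g (nat_lit 2581) (.e (nat_lit 232) (nat_lit 21) (.e (nat_lit 336060) (nat_lit 7) (.e (nat_lit 319534) (nat_lit 16) (.e (nat_lit 286756) (nat_lit 10) (.e (nat_lit 344168) (nat_lit 40) (.e (nat_lit 671773) (nat_lit 9) (.e (nat_lit 2695) (nat_lit 169) (.e (nat_lit 213000) (nat_lit 9) .nil)))))))) (.g (nat_lit 5) .nil .nil)))) (.nd (nat_lit 5) 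
(.lf (nat_lit 2717) (.g (nat_lit 1739) (.e (nat_lit 232) (nat_lit 21) (.e (nat_lit 336060) (nat_lit 7) (.e (nat_lit 319534) (nat_lit 16) (.e (nat_lit 286756) (nat_lit 10) (.e (nat_lit 344168) (nat_lit 40) (.e (nat_lit 671759) (nat_lit 3) (.e (nat_lit 57352) (nat_lit 0) (.e (nat_lit 6811) (nat_lit 365) (.e (nat_lit 2423) (nat_lit 157) .nil))))))))) (.g (nat_lit 4) .nil .nil))) 
(.lf (nat_lit 2749) (.g (nat_lit 1916) (.e (nat_lit 232) (nat_lit 21) (.e (nat_lit 336060) (nat_lit 7) (.e (nat_lit 319534) (nat_lit 16) (.e (nat_lit 286756) (nat_lit 10) (.e (nat_lit 344168) (nat_lit 40) (.e (nat_lit 671780) (nat_lit 12) (.e (nat_lit 164045) (nat_lit 55) (.e (nat_lit 778353) (nat_lit 9) .nil)))))))) (.g (nat_lit 4) .nil .nil))))))) 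
(.nd (nat_lit 2) (.nd (nat_lit 3) (.nd (nat_lit 4) (.nd (nat_lit 5) 
(.lf (nat_lit 2691) (.g (nat_lit 2101) (.e (nat_lit 232) (nat_lit 21) (.e (nat_lit 336060) (nat_lit 7) (.e (nat_lit 319534) (nat_lit 16) (.e (nat_lit 286756) (nat_lit 10) (.e (nat_lit 344160) (nat_lit 37) (.e (nat_lit 647202) (nat_lit 13) (.e (nat_lit 122980) (nat_lit 55) (.e (nat_lit 786176) (nat_lit 9) .nil)))))))) (.g (nat_lit 5) .nil .nil))) 
(.lf (nat_lit 2723) (.g (nat_lit 3019) (.e (nat_lit 232) (nat_lit 21) (.e (nat_lit 336060) (nat_lit 7) (.e (nat_lit 319534) (nat_lit 16) (.e (nat_lit 286756) (nat_lit 10) (.e (nat_lit 344168) (nat_lit 40) (.e (nat_lit 671771) (nat_lit 9) (.e (nat_lit 2694) (nat_lit 169) (.e (nat_lit 213000) (nat_lit 9) .nil)))))))) (.g (nat_lit 8) .nil .nil)))) (.nd (nat_lit 5) 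
(.lf (nat_lit 2707) (.g (nat_lit 1595) (.e (nat_lit 232) (nat_lit 21) (.e (nat_lit 336060) (nat_lit 7) (.e (nat_lit 319534) (nat_lit 16) (.e (nat_lit 286756) (nat_lit 10) (.e (nat_lit 352000) (nat_lit 39) (.e (nat_lit 663580) (nat_lit 9) (.e (nat_lit 2686) (nat_lit 169) (.e (nat_lit 213000) (nat_lit 9) .nil)))))))) (.g (nat_lit 4) .nil .nil))) 
(.lf (nat_lit 2739) (.g (nat_lit 3143) (.e (nat_lit 232) (nat_lit 21) (.e (nat_lit 336060) (nat_lit 7) (.e (nat_lit 319534) (nat_lit 16) (.e (nat_lit 286756) (nat_lit 10) (.e (nat_lit 344168) (nat_lit 40) (.e (nat_lit 671774) (nat_lit 9) (.e (nat_lit 2698) (nat_lit 169) (.e (nat_lit 213000) (nat_lit 9) .nil)))))))) (.g (nat_lit 0) .nil .nil))))) (.nd (nat_lit 4) (.nd (nat_lit 5) 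
(.lf (nat_lit 2699) (.g (nat_lit 1835) (.e (nat_lit 232) (nat_lit 21) (.e (nat_lit 336060) (nat_lit 7) (.e (nat_lit 319534) (nat_lit 16) (.e (nat_lit 286756) (nat_lit 10) (.e (nat_lit 344160) (nat_lit 37) (.e (nat_lit 655104) (nat_lit 14) (.e (nat_lit 2575) (nat_lit 161) (.e (nat_lit 40971) (nat_lit 9) .nil)))))))) (.g (nat_lit 4) .nil .nil))) 
(.lf (nat_lit 2731) (.g (nat_lit 1870) (.e (nat_lit 232) (nat_lit 21) (.e (nat_lit 336060) (nat_lit 7) (.e (nat_lit 319534) (nat_lit 16) (.e (nat_lit 286756) (nat_lit 10) (.e (nat_lit 344168) (nat_lit 40) (.e (nat_lit 671772) (nat_lit 9) (.e (nat_lit 2688) (nat_lit 169) (.e (nat_lit 213000) (nat_lit 9) .nil)))))))) (.g (nat_lit 4) .nil .nil)))) (.nd (nat_lit 5) 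
(.lf (nat_lit 2715) (.g (nat_lit 2073) (.e (nat_lit 232) (nat_lit 21) (.e (nat_lit 336060) (nat_lit 7) (.e (nat_lit 319534) (nat_lit 16) (.e (nat_lit 286756) (nat_lit 10) (.e (nat_lit 352000) (nat_lit 39) (.e (nat_lit 663585) (nat_lit 12) (.e (nat_lit 164050) (nat_lit 55) (.e (nat_lit 778361) (nat_lit 9) .nil)))))))) (.g (nat_lit 4) .nil .nil))) 
(.lf (nat_lit 2747) (.g (nat_lit 2110) (.e (nat_lit 232) (nat_lit 21) (.e (nat_lit 336060) (nat_lit 7) (.e (nat_lit 319534) (nat_lit 16) (.e (nat_lit 286756) (nat_lit 10) (.e (nat_lit 344168) (nat_lit 40) (.e (nat_lit 671780) (nat_lit 12) (.e (nat_lit 164044) (nat_lit 55) (.e (nat_lit 778353) (nat_lit 9) .nil)))))))) (.g (nat_lit 4) .nil .nil)))))) 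
(.nd (nat_lit 3) (.nd (nat_lit 4) (.nd (nat_lit 5) 
(.lf (nat_lit 2695) (.g (nat_lit 2065) (.e (nat_lit 232) (nat_lit 21) (.e (nat_lit 336060) (nat_lit 7) (.e (nat_lit 319534) (nat_lit 16) (.e (nat_lit 286756) (nat_lit 10) (.e (nat_lit 344160) (nat_lit 37) (.e (nat_lit 647203) (nat_lit 14) (.e (nat_lit 2509) (nat_lit 157) (.e (nat_lit 879) (nat_lit 75) (.e (nat_lit 778353) (nat_lit 9) .nil))))))))) (.g (nat_lit 4) .nil .nil))) 
(.lf (nat_lit 2727) (.g (nat_lit 1813) (.e (nat_lit 232) (nat_lit 21) (.e (nat_lit 336060) (nat_lit 7) (.e (nat_lit 319534) (nat_lit 16) (.e (nat_lit 286756) (nat_lit 10) (.e (nat_lit 344168) (nat_lit 40) (.e (nat_lit 671771) (nat_lit 9) (.e (nat_lit 2700) (nat_lit 169) (.e (nat_lit 213002) (nat_lit 9) .nil)))))))) (.g (nat_lit 4) .nil .nil)))) (.nd (nat_lit 5) 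
(.lf (nat_lit 2711) (.g (nat_lit 2244) (.e (nat_lit 232) (nat_lit 21) (.e (nat_lit 336060) (nat_lit 7) (.e (nat_lit 319534) (nat_lit 16) (.e (nat_lit 286756) (nat_lit 10) (.e (nat_lit 352000) (nat_lit 39) (.e (nat_lit 663585) (nat_lit 12) (.e (nat_lit 164045) (nat_lit 55) (.e (nat_lit 778368) (nat_lit 9) .nil)))))))) (.g (nat_lit 4) .nil .nil))) 
(.lf (nat_lit 2743) (.g (nat_lit 2043) (.e (nat_lit 232) (nat_lit 21) (.e (nat_lit 336060) (nat_lit 7) (.e (nat_lit 319534) (nat_lit 16) (.e (nat_lit 286756) (nat_lit 10) (.e (nat_lit 344168) (nat_lit 40) (.e (nat_lit 671780) (nat_lit 12) (.e (nat_lit 164035) (nat_lit 55) (.e (nat_lit 778353) (nat_lit 9) .nil)))))))) (.g (nat_lit 4) .nil .nil))))) (.nd (nat_lit 4) (.nd (nat_lit 5) 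
(.lf (nat_lit 2703) (.g (nat_lit 3171) (.e (nat_lit 232) (nat_lit 21) (.e (nat_lit 336060) (nat_lit 7) (.e (nat_lit 319534) (nat_lit 16) (.e (nat_lit 286756) (nat_lit 10) (.e (nat_lit 344160) (nat_lit 37) (.e (nat_lit 655104) (nat_lit 14) (.e (nat_lit 2580) (nat_lit 161) (.e (nat_lit 40968) (nat_lit 9) .nil)))))))) (.g (nat_lit 5) .nil .nil))) 
(.lf (nat_lit 2735) (.g (nat_lit 2325) (.e (nat_lit 232) (nat_lit 21) (.e (nat_lit 336060) (nat_lit 7) (.e (nat_lit 319534) (nat_lit 16) (.e (nat_lit 286756) (nat_lit 10) (.e (nat_lit 344168) (nat_lit 40) (.e (nat_lit 671773) (nat_lit 9) (.e (nat_lit 2698) (nat_lit 169) (.e (nat_lit 213000) (nat_lit 9) .nil)))))))) (.g (nat_lit 5) .nil .nil)))) (.nd (nat_lit 5) 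
(.lf (nat_lit 2719) (.g (nat_lit 1809) (.e (nat_lit 232) (nat_lit 21) (.e (nat_lit 336060) (nat_lit 7) (.e (nat_lit 319534) (nat_lit 16) (.e (nat_lit 286756) (nat_lit 10) (.e (nat_lit 344168) (nat_lit 40) (.e (nat_lit 671768) (nat_lit 9) (.e (nat_lit 2700) (nat_lit 169) (.e (nat_lit 213000) (nat_lit 9) .nil)))))))) (.g (nat_lit 4) .nil .nil))) 
(.lf (nat_lit 2751) (.g (nat_lit 2201) (.e (nat_lit 232) (nat_lit 21) (.e (nat_lit 336060) (nat_lit 7) (.e (nat_lit 319534) (nat_lit 16) (.e (nat_lit 286756) (nat_lit 10) (.e (nat_lit 344168) (nat_lit 40) (.e (nat_lit 671780) (nat_lit 12) (.e (nat_lit 164046) (nat_lit 55) (.e (nat_lit 778353) (nat_lit 9) .nil)))))))) (.g (nat_lit 4) .nil .nil)))))))))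

noncomputable def tv038 : DT := (.nd (nat_lit 0) (.nd (nat_lit 1) (.nd (nat_lit 2) (.nd (nat_lit 3) (.nd (nat_lit 4) (.nd (nat_lit 5) 
(.lf (nat_lit 2752) (.g (nat_lit 2750) (.e (nat_lit 232) (nat_lit 21) (.e (nat_lit 336060) (nat_lit 7) (.e (nat_lit 319534) (nat_lit 16) (.e (nat_lit 286756) (nat_lit 10) (.e (nat_lit 344168) (nat_lit 40) (.e (nat_lit 671780) (nat_lit 12) (.e (nat_lit 164046) (nat_lit 55) (.e (nat_lit 778368) (nat_lit 9) .nil)))))))) (.g (nat_lit 5) .nil .nil))) 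
(.lf (nat_lit 2784) (.g (nat_lit 1902) (.e (nat_lit 232) (nat_lit 21) (.e (nat_lit 336060) (nat_lit 7) (.e (nat_lit 319534) (nat_lit 16) (.e (nat_lit 286756) (nat_lit 10) (.e (nat_lit 344168) (nat_lit 40) (.e (nat_lit 671783) (nat_lit 13) (.e (nat_lit 229465) (nat_lit 55) (.e (nat_lit 778368) (nat_lit 9) .nil)))))))) (.g (nat_lit 4) .nil .nil)))) (.nd (nat_lit 5) 
(.lf (nat_lit 2768) (.g (nat_lit 2130) (.e (nat_lit 232) (nat_lit 21) (.e (nat_lit 336060) (nat_lit 7) (.e (nat_lit 319534) (nat_lit 16) (.e (nat_lit 286756) (nat_lit 10) (.e (nat_lit 344168) (nat_lit 40) (.e (nat_lit 671781) (nat_lit 12) (.e (nat_lit 164050) (nat_lit 55) (.e (nat_lit 778359) (nat_lit 9) .nil)))))))) (.g (nat_lit 4) .nil .nil))) 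
(.lf (nat_lit 2800) (.g (nat_lit 1909) (.e (nat_lit 232) (nat_lit 21) (.e (nat_lit 336060) (nat_lit 7) (.e (nat_lit 319534) (nat_lit 16) (.e (nat_lit 286756) (nat_lit 10) (.e (nat_lit 344169) (nat_lit 40) (.e (nat_lit 671770) (nat_lit 9) (.e (nat_lit 2686) (nat_lit 169) (.e (nat_lit 213001) (nat_lit 9) .nil)))))))) (.g (nat_lit 4) .nil .nil))))) (.nd (nat_lit 4) (.nd (nat_lit 5) 
(.lf (nat_lit 2760) (.g (nat_lit 2465) (.e (nat_lit 232) (nat_lit 21) (.e (nat_lit 336060) (nat_lit 7) (.e (nat_lit 319534) (nat_lit 16) (.e (nat_lit 286756) (nat_lit 10) (.e (nat_lit 344168) (nat_lit 40) (.e (nat_lit 671780) (nat_lit 12) (.e (nat_lit 164050) (nat_lit 55) (.e (nat_lit 778361) (nat_lit 9) .nil)))))))) (.g (nat_lit 4) .nil .nil))) 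
(.lf (nat_lit 2792) (.g (nat_lit 2308) (.e (nat_lit 232) (nat_lit 21) (.e (nat_lit 336060) (nat_lit 7) (.e (nat_lit 319534) (nat_lit 16) (.e (nat_lit 286756) (nat_lit 10) (.e (nat_lit 344168) (nat_lit 40) (.e (nat_lit 679680) (nat_lit 14) (.e (nat_lit 1152) (nat_lit 85) (.e (nat_lit 40969) (nat_lit 9) .nil)))))))) (.g (nat_lit 4) .nil .nil)))) (.nd (nat_lit 5) 
(.lf (nat_lit 2776) (.g (nat_lit 2437) (.e (nat_lit 232) (nat_lit 21) (.e (nat_lit 336060) (nat_lit 7) (.e (nat_lit 319534) (nat_lit 16) (.e (nat_lit 286756) (nat_lit 10) (.e (nat_lit 344168) (nat_lit 40) (.e (nat_lit 671782) (nat_lit 12) (.e (nat_lit 164045) (nat_lit 55) (.e (nat_lit 778368) (nat_lit 9) .nil)))))))) (.g (nat_lit 4) .nil .nil))) 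
(.lf (nat_lit 2808) (.g (nat_lit 1970) (.e (nat_lit 232) (nat_lit 21) (.e (nat_lit 336060) (nat_lit 7) (.e (nat_lit 319534) (nat_lit 16) (.e (nat_lit 286756) (nat_lit 10) (.e (nat_lit 344169) (nat_lit 40) (.e (nat_lit 671771) (nat_lit 9) (.e (nat_lit 2700) (nat_lit 169) (.e (nat_lit 213000) (nat_lit 9) .nil)))))))) (.g (nat_lit 4) .nil .nil)))))) (.nd (nat_lit 3) (.nd (nat_lit 4) (.nd (nat_lit 5) 
(.lf (nat_lit 2756) (.g (nat_lit 2459) (.e (nat_lit 232) (nat_lit 21) (.e (nat_lit 336060) (nat_lit 7) (.e (nat_lit 319534) (nat_lit 16) (.e (nat_lit 286756) (nat_lit 10) (.e (nat_lit 344168) (nat_lit 40) (.e (nat_lit 671780) (nat_lit 12) (.e (nat_lit 164049) (nat_lit 55) (.e (nat_lit 778360) (nat_lit 9) .nil)))))))) (.g (nat_lit 4) .nil .nil))) 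
(.lf (nat_lit 2788) (.g (nat_lit 2485) (.e (nat_lit 232) (nat_lit 21) (.e (nat_lit 336060) (nat_lit 7) (.e (nat_lit 319534) (nat_lit 16) (.e (nat_lit 286756) (nat_lit 10) (.e (nat_lit 344168) (nat_lit 40) (.e (nat_lit 679680) (nat_lit 14) (.e (nat_lit 1146) (nat_lit 85) (.e (nat_lit 40972) (nat_lit 9) .nil)))))))) (.g (nat_lit 5) .nil .nil)))) (.nd (nat_lit 5) 
(.lf (nat_lit 2772) (.g (nat_lit 1898) (.e (nat_lit 232) (nat_lit 21) (.e (nat_lit 336060) (nat_lit 7) (.e (nat_lit 319534) (nat_lit 16) (.e (nat_lit 286756) (nat_lit 10) (.e (nat_lit 344168) (nat_lit 40) (.e (nat_lit 671782) (nat_lit 12) (.e (nat_lit 164035) (nat_lit 55) (.e (nat_lit 778367) (nat_lit 9) .nil)))))))) (.g (nat_lit 4) .nil .nil))) 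
(.lf (nat_lit 2804) (.g (nat_lit 1752) (.e (nat_lit 232) (nat_lit 21) (.e (nat_lit 336060) (nat_lit 7) (.e (nat_lit 319534) (nat_lit 16) (.e (nat_lit 286756) (nat_lit 10) (.e (nat_lit 344169) (nat_lit 40) (.e (nat_lit 671770) (nat_lit 9) (.e (nat_lit 2700) (nat_lit 169) (.e (nat_lit 213002) (nat_lit 9) .nil)))))))) (.g (nat_lit 4) .nil .nil))))) (.nd (nat_lit 4) (.nd (nat_lit 5) 
(.lf (nat_lit 2764) (.g (nat_lit 2709) (.e (nat_lit 232) (nat_lit 21) (.e (nat_lit 336060) (nat_lit 7) (.e (nat_lit 319534) (nat_lit 16) (.e (nat_lit 286756) (nat_lit 10) (.e (nat_lit 344168) (nat_lit 40) (.e (nat_lit 671781) (nat_lit 12) (.e (nat_lit 164046) (nat_lit 55) (.e (nat_lit 778368) (nat_lit 9) .nil)))))))) (.g (nat_lit 5) .nil .nil))) 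
(.lf (nat_lit 2796) (.g (nat_lit 2325) (.e (nat_lit 232) (nat_lit 21) (.e (nat_lit 336060) (nat_lit 7) (.e (nat_lit 319534) (nat_lit 16) (.e (nat_lit 286756) (nat_lit 10) (.e (nat_lit 344169) (nat_lit 40) (.e (nat_lit 671759) (nat_lit 3) (.e (nat_lit 57353) (nat_lit 0) (.e (nat_lit 6811) (nat_lit 365) (.e (nat_lit 2416) (nat_lit 157) .nil))))))))) (.g (nat_lit 5) .nil .nil)))) (.nd (nat_lit 5) 
(.lf (nat_lit 2780) (.g (nat_lit 2532) (.e (nat_lit 232) (nat_lit 21) (.e (nat_lit 336060) (nat_lit 7) (.e (nat_lit 319534) (nat_lit 16) (.e (nat_lit 286756) (nat_lit 10) (.e (nat_lit 344168) (nat_lit 40) (.e (nat_lit 671782) (nat_lit 12) (.e (nat_lit 164047) (nat_lit 55) (.e (nat_lit 778368) (nat_lit 9) .nil)))))))) (.g (nat_lit 4) .nil .nil))) 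
(.lf (nat_lit 2812) (.g (nat_lit 2247) (.e (nat_lit 232) (nat_lit 21) (.e (nat_lit 336060) (nat_lit 7) (.e (nat_lit 319534) (nat_lit 16) (.e (nat_lit 286756) (nat_lit 10) (.e (nat_lit 344169) (nat_lit 40) (.e (nat_lit 671773) (nat_lit 9) (.e (nat_lit 2698) (nat_lit 169) (.e (nat_lit 213000) (nat_lit 9) .nil)))))))) (.g (nat_lit 5) .nil .nil))))))) 
(.nd (nat_lit 2) (.nd (nat_lit 3) (.nd (nat_lit 4) (.nd (nat_lit 5) 
(.lf (nat_lit 2754) (.g (nat_lit 2635) (.e (nat_lit 232) (nat_lit 21) (.e (nat_lit 336060) (nat_lit 7) (.e (nat_lit 319534) (nat_lit 16) (.e (nat_lit 286756) (nat_lit 10) (.e (nat_lit 344168) (nat_lit 40) (.e (nat_lit 671780) (nat_lit 12) (.e (nat_lit 164047) (nat_lit 55) (.e (nat_lit 778368) (nat_lit 9) .nil)))))))) (.g (nat_lit 4) .nil .nil))) 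
(.lf (nat_lit 2786) (.g (nat_lit 3071) (.e (nat_lit 232) (nat_lit 21) (.e (nat_lit 336060) (nat_lit 7) (.e (nat_lit 319534) (nat_lit 16) (.e (nat_lit 286756) (nat_lit 10) (.e (nat_lit 344168) (nat_lit 40) (.e (nat_lit 671784) (nat_lit 14) (.e (nat_lit 1146) (nat_lit 85) (.e (nat_lit 40972) (nat_lit 9) .nil)))))))) (.g (nat_lit 6) .nil .nil)))) (.nd (nat_lit 5) 
(.lf (nat_lit 2770) (.g (nat_lit 2401) (.e (nat_lit 232) (nat_lit 21) (.e (nat_lit 336060) (nat_lit 7) (.e (nat_lit 319534) (nat_lit 16) (.e (nat_lit 286756) (nat_lit 10) (.e (nat_lit 344168) (nat_lit 40) (.e (nat_lit 671781) (nat_lit 12) (.e (nat_lit 164050) (nat_lit 55) (.e (nat_lit 778361) (nat_lit 9) .nil)))))))) (.g (nat_lit 4) .nil .nil))) 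
(.lf (nat_lit 2802) (.g (nat_lit 1792) (.e (nat_lit 232) (nat_lit 21) (.e (nat_lit 336060) (nat_lit 7) (.e (nat_lit 319534) (nat_lit 16) (.e (nat_lit 286756) (nat_lit 10) (.e (nat_lit 344169) (nat_lit 40) (.e (nat_lit 671770) (nat_lit 9) (.e (nat_lit 2694) (nat_lit 169) (.e (nat_lit 213001) (nat_lit 9) .nil)))))))) (.g (nat_lit 4) .nil .nil))))) (.nd (nat_lit 4) (.nd (nat_lit 5) 
(.lf (nat_lit 2762) (.g (nat_lit 2203) (.e (nat_lit 232) (nat_lit 21) (.e (nat_lit 336060) (nat_lit 7) (.e (nat_lit 319534) (nat_lit 16) (.e (nat_lit 286756) (nat_lit 10) (.e (nat_lit 344168) (nat_lit 40) (.e (nat_lit 671781) (nat_lit 12) (.e (nat_lit 164045) (nat_lit 55) (.e (nat_lit 778368) (nat_lit 9) .nil)))))))) (.g (nat_lit 4) .nil .nil))) 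
(.lf (nat_lit 2794) (.g (nat_lit 2498) (.e (nat_lit 232) (nat_lit 21) (.e (nat_lit 336060) (nat_lit 7) (.e (nat_lit 319534) (nat_lit 16) (.e (nat_lit 286756) (nat_lit 10) (.e (nat_lit 344169) (nat_lit 40) (.e (nat_lit 671759) (nat_lit 3) (.e (nat_lit 57352) (nat_lit 0) (.e (nat_lit 6811) (nat_lit 365) (.e (nat_lit 2422) (nat_lit 157) .nil))))))))) (.g (nat_lit 4) .nil .nil)))) (.nd (nat_lit 5) 
(.lf (nat_lit 2778) (.g (nat_lit 3321) (.e (nat_lit 232) (nat_lit 21) (.e (nat_lit 336060) (nat_lit 7) (.e (nat_lit 319534) (nat_lit 16) (.e (nat_lit 286756) (nat_lit 10) (.e (nat_lit 344168) (nat_lit 40) (.e (nat_lit 671782) (nat_lit 12) (.e (nat_lit 164046) (nat_lit 55) (.e (nat_lit 778368) (nat_lit 9) .nil)))))))) (.g (nat_lit 8) .nil .nil))) 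
(.lf (nat_lit 2810) (.g (nat_lit 2503) (.e (nat_lit 232) (nat_lit 21) (.e (nat_lit 336060) (nat_lit 7) (.e (nat_lit 319534) (nat_lit 16) (.e (nat_lit 286756) (nat_lit 10) (.e (nat_lit 344169) (nat_lit 40) (.e (nat_lit 671773) (nat_lit 9) (.e (nat_lit 2695) (nat_lit 169) (.e (nat_lit 213000) (nat_lit 9) .nil)))))))) (.g (nat_lit 5) .nil .nil)))))) (.nd (nat_lit 3) (.nd (nat_lit 4) (.nd (nat_lit 5) 
(.lf (nat_lit 2758) (.g (nat_lit 2194) (.e (nat_lit 232) (nat_lit 21) (.e (nat_lit 336060) (nat_lit 7) (.e (nat_lit 319534) (nat_lit 16) (.e (nat_lit 286756) (nat_lit 10) (.e (nat_lit 344168) (nat_lit 40) (.e (nat_lit 671780) (nat_lit 12) (.e (nat_lit 164050) (nat_lit 55) (.e (nat_lit 778359) (nat_lit 9) .nil)))))))) (.g (nat_lit 4) .nil .nil))) 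
(.lf (nat_lit 2790) (.g (nat_lit 1883) (.e (nat_lit 232) (nat_lit 21) (.e (nat_lit 336060) (nat_lit 7) (.e (nat_lit 319534) (nat_lit 16) (.e (nat_lit 286756) (nat_lit 10) (.e (nat_lit 344168) (nat_lit 40) (.e (nat_lit 679680) (nat_lit 14) (.e (nat_lit 1149) (nat_lit 85) (.e (nat_lit 40972) (nat_lit 9) .nil)))))))) (.g (nat_lit 4) .nil .nil)))) (.nd (nat_lit 5) 
(.lf (nat_lit 2774) (.g (nat_lit 2143) (.e (nat_lit 232) (nat_lit 21) (.e (nat_lit 336060) (nat_lit 7) (.e (nat_lit 319534) (nat_lit 16) (.e (nat_lit 286756) (nat_lit 10) (.e (nat_lit 344168) (nat_lit 40) (.e (nat_lit 671782) (nat_lit 12) (.e (nat_lit 164041) (nat_lit 55) (.e (nat_lit 778335) (nat_lit 9) .nil)))))))) (.g (nat_lit 4) .nil .nil))) 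
(.lf (nat_lit 2806) (.g (nat_lit 2173) (.e (nat_lit 232) (nat_lit 21) (.e (nat_lit 336060) (nat_lit 7) (.e (nat_lit 319534) (nat_lit 16) (.e (nat_lit 286756) (nat_lit 10) (.e (nat_lit 344169) (nat_lit 40) (.e (nat_lit 671770) (nat_lit 9) (.e (nat_lit 2748) (nat_lit 175) (.e (nat_lit 262151) (nat_lit 9) .nil)))))))) (.g (nat_lit 4) .nil .nil))))) (.nd (nat_lit 4) (.nd (nat_lit 5) 
(.lf (nat_lit 2766) (.g (nat_lit 2191) (.e (nat_lit 232) (nat_lit 21) (.e (nat_lit 336060) (nat_lit 7) (.e (nat_lit 319534) (nat_lit 16) (.e (nat_lit 286756) (nat_lit 10) (.e (nat_lit 344168) (nat_lit 40) (.e (nat_lit 671781) (nat_lit 12) (.e (nat_lit 164049) (nat_lit 55) (.e (nat_lit 778360) (nat_lit 9) .nil)))))))) (.g (nat_lit 4) .nil .nil))) 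
(.lf (nat_lit 2798) (.g (nat_lit 4107) (.e (nat_lit 232) (nat_lit 21) (.e (nat_lit 336060) (nat_lit 7) (.e (nat_lit 319534) (nat_lit 16) (.e (nat_lit 286756) (nat_lit 10) (.e (nat_lit 344169) (nat_lit 40) (.e (nat_lit 671759) (nat_lit 3) (.e (nat_lit 57353) (nat_lit 0) (.e (nat_lit 6811) (nat_lit 365) (.e (nat_lit 2423) (nat_lit 157) .nil))))))))) (.g (nat_lit 0) .nil .nil)))) (.nd (nat_lit 5) 
(.lf (nat_lit 2782) (.g (nat_lit 2715) (.e (nat_lit 232) (nat_lit 21) (.e (nat_lit 336060) (nat_lit 7) (.e (nat_lit 319534) (nat_lit 16) (.e (nat_lit 286756) (nat_lit 10) (.e (nat_lit 344168) (nat_lit 40) (.e (nat_lit 671782) (nat_lit 12) (.e (nat_lit 164050) (nat_lit 55) (.e (nat_lit 778359) (nat_lit 9) .nil)))))))) (.g (nat_lit 5) .nil .nil))) 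
(.lf (nat_lit 2814) (.g (nat_lit 2205) (.e (nat_lit 232) (nat_lit 21) (.e (nat_lit 336060) (nat_lit 7) (.e (nat_lit 319534) (nat_lit 16) (.e (nat_lit 286756) (nat_lit 10) (.e (nat_lit 344169) (nat_lit 40) (.e (nat_lit 671774) (nat_lit 9) (.e (nat_lit 2515) (nat_lit 157) (.e (nat_lit 3711) (nat_lit 227) (.e (nat_lit 778334) (nat_lit 9) .nil))))))))) (.g (nat_lit 4) .nil .nil)))))))) 
(.nd (nat_lit 1) (.nd (nat_lit 2) (.nd (nat_lit 3) (.nd (nat_lit 4) (.nd (nat_lit 5) 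
(.lf (nat_lit 2753) (.g (nat_lit 2073) (.e (nat_lit 232) (nat_lit 21) (.e (nat_lit 336060) (nat_lit 7) (.e (nat_lit 319534) (nat_lit 16) (.e (nat_lit 286756) (nat_lit 10) (.e (nat_lit 344168) (nat_lit 40) (.e (nat_lit 671780) (nat_lit 12) (.e (nat_lit 164047) (nat_lit 55) (.e (nat_lit 778353) (nat_lit 9) .nil)))))))) (.g (nat_lit 4) .nil .nil))) 
(.lf (nat_lit 2785) (.g (nat_lit 2225) (.e (nat_lit 232) (nat_lit 21) (.e (nat_lit 336060) (nat_lit 7) (.e (nat_lit 319534) (nat_lit 16) (.e (nat_lit 286756) (nat_lit 10) (.e (nat_lit 344168) (nat_lit 40) (.e (nat_lit 671783) (nat_lit 13) (.e (nat_lit 229468) (nat_lit 55) (.e (nat_lit 778334) (nat_lit 9) .nil)))))))) (.g (nat_lit 4) .nil .nil)))) (.nd (nat_lit 5) 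
(.lf (nat_lit 2769) (.g (nat_lit 2734) (.e (nat_lit 232) (nat_lit 21) (.e (nat_lit 336060) (nat_lit 7) (.e (nat_lit 319534) (nat_lit 16) (.e (nat_lit 286756) (nat_lit 10) (.e (nat_lit 344168) (nat_lit 40) (.e (nat_lit 671781) (nat_lit 12) (.e (nat_lit 164050) (nat_lit 55) (.e (nat_lit 778360) (nat_lit 9) .nil)))))))) (.g (nat_lit 5) .nil .nil))) 
(.lf (nat_lit 2801) (.g (nat_lit 2775) (.e (nat_lit 232) (nat_lit 21) (.e (nat_lit 336060) (nat_lit 7) (.e (nat_lit 319534) (nat_lit 16) (.e (nat_lit 286756) (nat_lit 10) (.e (nat_lit 344169) (nat_lit 40) (.e (nat_lit 671770) (nat_lit 9) (.e (nat_lit 2694) (nat_lit 169) (.e (nat_lit 213000) (nat_lit 9) .nil)))))))) (.g (nat_lit 6) .nil .nil))))) (.nd (nat_lit 4) (.nd (nat_lit 5) 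
(.lf (nat_lit 2761) (.g (nat_lit 2191) (.e (nat_lit 232) (nat_lit 21) (.e (nat_lit 336060) (nat_lit 7) (.e (nat_lit 319534) (nat_lit 16) (.e (nat_lit 286756) (nat_lit 10) (.e (nat_lit 344168) (nat_lit 40) (.e (nat_lit 671781) (nat_lit 12) (.e (nat_lit 164035) (nat_lit 55) (.e (nat_lit 778368) (nat_lit 9) .nil)))))))) (.g (nat_lit 4) .nil .nil))) 
(.lf (nat_lit 2793) (.g (nat_lit 1287) (.e (nat_lit 232) (nat_lit 21) (.e (nat_lit 336060) (nat_lit 7) (.e (nat_lit 319534) (nat_lit 16) (.e (nat_lit 286756) (nat_lit 10) (.e (nat_lit 344169) (nat_lit 40) .nil))))) .nil))) (.nd (nat_lit 5) 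
(.lf (nat_lit 2777) (.g (nat_lit 2772) (.e (nat_lit 232) (nat_lit 21) (.e (nat_lit 336060) (nat_lit 7) (.e (nat_lit 319534) (nat_lit 16) (.e (nat_lit 286756) (nat_lit 10) (.e (nat_lit 344168) (nat_lit 40) (.e (nat_lit 671782) (nat_lit 12) (.e (nat_lit 164046) (nat_lit 55) (.e (nat_lit 778353) (nat_lit 9) .nil)))))))) (.g (nat_lit 5) .nil .nil))) 
(.lf (nat_lit 2809) (.g (nat_lit 2146) (.e (nat_lit 232) (nat_lit 21) (.e (nat_lit 336060) (nat_lit 7) (.e (nat_lit 319534) (nat_lit 16) (.e (nat_lit 286756) (nat_lit 10) (.e (nat_lit 344169) (nat_lit 40) (.e (nat_lit 671771) (nat_lit 9) (.e (nat_lit 2749) (nat_lit 175) (.e (nat_lit 262151) (nat_lit 9) .nil)))))))) (.g (nat_lit 4) .nil .nil)))))) (.nd (nat_lit 3) (.nd (nat_lit 4) (.nd (nat_lit 5) 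
(.lf (nat_lit 2757) (.g (nat_lit 2570) (.e (nat_lit 232) (nat_lit 21) (.e (nat_lit 336060) (nat_lit 7) (.e (nat_lit 319534) (nat_lit 16) (.e (nat_lit 286756) (nat_lit 10) (.e (nat_lit 344168) (nat_lit 40) (.e (nat_lit 671780) (nat_lit 12) (.e (nat_lit 164049) (nat_lit 55) (.e (nat_lit 778361) (nat_lit 9) .nil)))))))) (.g (nat_lit 5) .nil .nil))) 
(.lf (nat_lit 2789) (.g (nat_lit 2089) (.e (nat_lit 232) (nat_lit 21) (.e (nat_lit 336060) (nat_lit 7) (.e (nat_lit 319534) (nat_lit 16) (.e (nat_lit 286756) (nat_lit 10) (.e (nat_lit 344168) (nat_lit 40) (.e (nat_lit 679680) (nat_lit 14) (.e (nat_lit 1148) (nat_lit 85) (.e (nat_lit 40972) (nat_lit 9) .nil)))))))) (.g (nat_lit 4) .nil .nil)))) (.nd (nat_lit 5) 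
(.lf (nat_lit 2773) (.g (nat_lit 3277) (.e (nat_lit 232) (nat_lit 21) (.e (nat_lit 336060) (nat_lit 7) (.e (nat_lit 319534) (nat_lit 16) (.e (nat_lit 286756) (nat_lit 10) (.e (nat_lit 344168) (nat_lit 40) (.e (nat_lit 671782) (nat_lit 12) (.e (nat_lit 164035) (nat_lit 55) (.e (nat_lit 778368) (nat_lit 9) .nil)))))))) (.g (nat_lit 6) .nil .nil))) 
(.lf (nat_lit 2805) (.g (nat_lit 2935) (.e (nat_lit 232) (nat_lit 21) (.e (nat_lit 336060) (nat_lit 7) (.e (nat_lit 319534) (nat_lit 16) (.e (nat_lit 286756) (nat_lit 10) (.e (nat_lit 344169) (nat_lit 40) (.e (nat_lit 671770) (nat_lit 9) (.e (nat_lit 2747) (nat_lit 175) (.e (nat_lit 262151) (nat_lit 9) .nil)))))))) (.g (nat_lit 6) .nil .nil))))) (.nd (nat_lit 4) (.nd (nat_lit 5) 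
(.lf (nat_lit 2765) (.g (nat_lit 2372) (.e (nat_lit 232) (nat_lit 21) (.e (nat_lit 336060) (nat_lit 7) (.e (nat_lit 319534) (nat_lit 16) (.e (nat_lit 286756) (nat_lit 10) (.e (nat_lit 344168) (nat_lit 40) (.e (nat_lit 671781) (nat_lit 12) (.e (nat_lit 164047) (nat_lit 55) (.e (nat_lit 778368) (nat_lit 9) .nil)))))))) (.g (nat_lit 4) .nil .nil))) 
(.lf (nat_lit 2797) (.g (nat_lit 3133) (.e (nat_lit 232) (nat_lit 21) (.e (nat_lit 336060) (nat_lit 7) (.e (nat_lit 319534) (nat_lit 16) (.e (nat_lit 286756) (nat_lit 10) (.e (nat_lit 344169) (nat_lit 40) (.e (nat_lit 671759) (nat_lit 3) (.e (nat_lit 57353) (nat_lit 0) (.e (nat_lit 6811) (nat_lit 365) (.e (nat_lit 2422) (nat_lit 157) .nil))))))))) (.g (nat_lit 6) .nil .nil)))) (.nd (nat_lit 5) 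
(.lf (nat_lit 2781) (.g (nat_lit 3161) (.e (nat_lit 232) (nat_lit 21) (.e (nat_lit 336060) (nat_lit 7) (.e (nat_lit 319534) (nat_lit 16) (.e (nat_lit 286756) (nat_lit 10) (.e (nat_lit 344168) (nat_lit 40) (.e (nat_lit 671782) (nat_lit 12) (.e (nat_lit 164049) (nat_lit 55) (.e (nat_lit 778360) (nat_lit 9) .nil)))))))) (.g (nat_lit 6) .nil .nil))) 
(.lf (nat_lit 2813) (.g (nat_lit 2373) (.e (nat_lit 232) (nat_lit 21) (.e (nat_lit 336060) (nat_lit 7) (.e (nat_lit 319534) (nat_lit 16) (.e (nat_lit 286756) (nat_lit 10) (.e (nat_lit 344169) (nat_lit 40) (.e (nat_lit 671773) (nat_lit 9) (.e (nat_lit 2699) (nat_lit 169) (.e (nat_lit 213000) (nat_lit 9) .nil)))))))) (.g (nat_lit 5) .nil .nil))))))) 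
(.nd (nat_lit 2) (.nd (nat_lit 3) (.nd (nat_lit 4) (.nd (nat_lit 5) 
(.lf (nat_lit 2755) (.g (nat_lit 2202) (.e (nat_lit 232) (nat_lit 21) (.e (nat_lit 336060) (nat_lit 7) (.e (nat_lit 319534) (nat_lit 16) (.e (nat_lit 286756) (nat_lit 10) (.e (nat_lit 344168) (nat_lit 40) (.e (nat_lit 671780) (nat_lit 12) (.e (nat_lit 164048) (nat_lit 55) (.e (nat_lit 778334) (nat_lit 9) .nil)))))))) (.g (nat_lit 4) .nil .nil))) 
(.lf (nat_lit 2787) (.g (nat_lit 2669) (.e (nat_lit 232) (nat_lit 21) (.e (nat_lit 336060) (nat_lit 7) (.e (nat_lit 319534) (nat_lit 16) (.e (nat_lit 286756) (nat_lit 10) (.e (nat_lit 344168) (nat_lit 40) (.e (nat_lit 671786) (nat_lit 14) (.e (nat_lit 1150) (nat_lit 85) (.e (nat_lit 40972) (nat_lit 9) .nil)))))))) (.g (nat_lit 5) .nil .nil)))) (.nd (nat_lit 5) 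
(.lf (nat_lit 2771) (.g (nat_lit 2753) (.e (nat_lit 232) (nat_lit 21) (.e (nat_lit 336060) (nat_lit 7) (.e (nat_lit 319534) (nat_lit 16) (.e (nat_lit 286756) (nat_lit 10) (.e (nat_lit 344168) (nat_lit 40) (.e (nat_lit 671782) (nat_lit 12) (.e (nat_lit 164035) (nat_lit 55) (.e (nat_lit 778353) (nat_lit 9) .nil)))))))) (.g (nat_lit 5) .nil .nil))) 
(.lf (nat_lit 2803) (.g (nat_lit 1966) (.e (nat_lit 232) (nat_lit 21) (.e (nat_lit 336060) (nat_lit 7) (.e (nat_lit 319534) (nat_lit 16) (.e (nat_lit 286756) (nat_lit 10) (.e (nat_lit 344169) (nat_lit 40) (.e (nat_lit 671770) (nat_lit 9) (.e (nat_lit 2700) (nat_lit 169) (.e (nat_lit 213001) (nat_lit 9) .nil)))))))) (.g (nat_lit 4) .nil .nil))))) (.nd (nat_lit 4) (.nd (nat_lit 5) 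
(.lf (nat_lit 2763) (.g (nat_lit 2160) (.e (nat_lit 232) (nat_lit 21) (.e (nat_lit 336060) (nat_lit 7) (.e (nat_lit 319534) (nat_lit 16) (.e (nat_lit 286756) (nat_lit 10) (.e (nat_lit 344168) (nat_lit 40) (.e (nat_lit 671781) (nat_lit 12) (.e (nat_lit 164046) (nat_lit 55) (.e (nat_lit 778353) (nat_lit 9) .nil)))))))) (.g (nat_lit 4) .nil .nil))) 
(.lf (nat_lit 2795) (.g (nat_lit 3481) (.e (nat_lit 232) (nat_lit 21) (.e (nat_lit 336060) (nat_lit 7) (.e (nat_lit 319534) (nat_lit 16) (.e (nat_lit 286756) (nat_lit 10) (.e (nat_lit 344169) (nat_lit 40) (.e (nat_lit 671759) (nat_lit 3) (.e (nat_lit 57352) (nat_lit 0) (.e (nat_lit 6811) (nat_lit 365) (.e (nat_lit 2423) (nat_lit 157) .nil))))))))) (.g (nat_lit 7) .nil .nil)))) (.nd (nat_lit 5) 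
(.lf (nat_lit 2779) (.g (nat_lit 1970) (.e (nat_lit 232) (nat_lit 21) (.e (nat_lit 336060) (nat_lit 7) (.e (nat_lit 319534) (nat_lit 16) (.e (nat_lit 286756) (nat_lit 10) (.e (nat_lit 344168) (nat_lit 40) (.e (nat_lit 671782) (nat_lit 12) (.e (nat_lit 164047) (nat_lit 55) (.e (nat_lit 778353) (nat_lit 9) .nil)))))))) (.g (nat_lit 4) .nil .nil))) 
(.lf (nat_lit 2811) (.g (nat_lit 2031) (.e (nat_lit 232) (nat_lit 21) (.e (nat_lit 336060) (nat_lit 7) (.e (nat_lit 319534) (nat_lit 16) (.e (nat_lit 286756) (nat_lit 10) (.e (nat_lit 344169) (nat_lit 40) (.e (nat_lit 671773) (nat_lit 9) (.e (nat_lit 2695) (nat_lit 169) (.e (nat_lit 213002) (nat_lit 9) .nil)))))))) (.g (nat_lit 4) .nil .nil)))))) (.nd (nat_lit 3) (.nd (nat_lit 4) (.nd (nat_lit 5) 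
(.lf (nat_lit 2759) (.g (nat_lit 2798) (.e (nat_lit 232) (nat_lit 21) (.e (nat_lit 336060) (nat_lit 7) (.e (nat_lit 319534) (nat_lit 16) (.e (nat_lit 286756) (nat_lit 10) (.e (nat_lit 344168) (nat_lit 40) (.e (nat_lit 671780) (nat_lit 12) (.e (nat_lit 164050) (nat_lit 55) (.e (nat_lit 778360) (nat_lit 9) .nil)))))))) (.g (nat_lit 5) .nil .nil))) 
(.lf (nat_lit 2791) (.g (nat_lit 2187) (.e (nat_lit 232) (nat_lit 21) (.e (nat_lit 336060) (nat_lit 7) (.e (nat_lit 319534) (nat_lit 16) (.e (nat_lit 286756) (nat_lit 10) (.e (nat_lit 344168) (nat_lit 40) (.e (nat_lit 679680) (nat_lit 14) (.e (nat_lit 1150) (nat_lit 85) (.e (nat_lit 40972) (nat_lit 9) .nil)))))))) (.g (nat_lit 4) .nil .nil)))) (.nd (nat_lit 5) 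
(.lf (nat_lit 2775) (.g (nat_lit 2717) (.e (nat_lit 232) (nat_lit 21) (.e (nat_lit 336060) (nat_lit 7) (.e (nat_lit 319534) (nat_lit 16) (.e (nat_lit 286756) (nat_lit 10) (.e (nat_lit 344168) (nat_lit 40) (.e (nat_lit 671782) (nat_lit 12) (.e (nat_lit 164042) (nat_lit 55) (.e (nat_lit 778335) (nat_lit 9) .nil)))))))) (.g (nat_lit 5) .nil .nil))) 
(.lf (nat_lit 2807) (.g (nat_lit 1908) (.e (nat_lit 232) (nat_lit 21) (.e (nat_lit 336060) (nat_lit 7) (.e (nat_lit 319534) (nat_lit 16) (.e (nat_lit 286756) (nat_lit 10) (.e (nat_lit 344169) (nat_lit 40) (.e (nat_lit 671771) (nat_lit 9) (.e (nat_lit 2694) (nat_lit 169) (.e (nat_lit 213000) (nat_lit 9) .nil)))))))) (.g (nat_lit 4) .nil .nil))))) (.nd (nat_lit 4) (.nd (nat_lit 5) 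
(.lf (nat_lit 2767) (.g (nat_lit 2302) (.e (nat_lit 232) (nat_lit 21) (.e (nat_lit 336060) (nat_lit 7) (.e (nat_lit 319534) (nat_lit 16) (.e (nat_lit 286756) (nat_lit 10) (.e (nat_lit 344168) (nat_lit 40) (.e (nat_lit 671781) (nat_lit 12) (.e (nat_lit 164049) (nat_lit 55) (.e (nat_lit 778361) (nat_lit 9) .nil)))))))) (.g (nat_lit 4) .nil .nil))) 
(.lf (nat_lit 2799) (.g (nat_lit 2176) (.e (nat_lit 232) (nat_lit 21) (.e (nat_lit 336060) (nat_lit 7) (.e (nat_lit 319534) (nat_lit 16) (.e (nat_lit 286756) (nat_lit 10) (.e (nat_lit 344169) (nat_lit 40) (.e (nat_lit 671767) (nat_lit 9) (.e (nat_lit 2689) (nat_lit 169) (.e (nat_lit 213000) (nat_lit 9) .nil)))))))) (.g (nat_lit 5) .nil .nil)))) (.nd (nat_lit 5) 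
(.lf (nat_lit 2783) (.g (nat_lit 2986) (.e (nat_lit 232) (nat_lit 21) (.e (nat_lit 336060) (nat_lit 7) (.e (nat_lit 319534) (nat_lit 16) (.e (nat_lit 286756) (nat_lit 10) (.e (nat_lit 344168) (nat_lit 40) (.e (nat_lit 671782) (nat_lit 12) (.e (nat_lit 164050) (nat_lit 55) (.e (nat_lit 778361) (nat_lit 9) .nil)))))))) (.g (nat_lit 5) .nil .nil))) 
(.lf (nat_lit 2815) (.g (nat_lit 2733) (.e (nat_lit 232) (nat_lit 21) (.e (nat_lit 336060) (nat_lit 7) (.e (nat_lit 319534) (nat_lit 16) (.e (nat_lit 286756) (nat_lit 10) (.e (nat_lit 344169) (nat_lit 40) (.e (nat_lit 671774) (nat_lit 9) (.e (nat_lit 2695) (nat_lit 169) (.e (nat_lit 213000) (nat_lit 9) .nil)))))))) (.g (nat_lit 5) .nil .nil)))))))))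

noncomputable def tv039 : DT := (.nd (nat_lit 0) (.nd (nat_lit 1) (.nd (nat_lit 2) (.nd (nat_lit 3) (.nd (nat_lit 4) (.nd (nat_lit 5) 
(.lf (nat_lit 2816) (.g (nat_lit 2261) (.e (nat_lit 232) (nat_lit 21) (.e (nat_lit 336060) (nat_lit 7) (.e (nat_lit 319534) (nat_lit 16) (.e (nat_lit 286756) (nat_lit 10) (.e (nat_lit 344169) (nat_lit 40) (.e (nat_lit 671774) (nat_lit 9) (.e (nat_lit 2695) (nat_lit 169) (.e (nat_lit 213002) (nat_lit 9) .nil)))))))) (.g (nat_lit 4) .nil .nil))) 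
(.lf (nat_lit 2848) (.g (nat_lit 1844) (.e (nat_lit 232) (nat_lit 21) (.e (nat_lit 336060) (nat_lit 7) (.e (nat_lit 319534) (nat_lit 16) (.e (nat_lit 286756) (nat_lit 10) (.e (nat_lit 344169) (nat_lit 40) (.e (nat_lit 671781) (nat_lit 12) (.e (nat_lit 164050) (nat_lit 55) (.e (nat_lit 778359) (nat_lit 9) .nil)))))))) (.g (nat_lit 4) .nil .nil)))) (.nd (nat_lit 5) 
(.lf (nat_lit 2832) (.g (nat_lit 2604) (.e (nat_lit 232) (nat_lit 21) (.e (nat_lit 336060) (nat_lit 7) (.e (nat_lit 319534) (nat_lit 16) (.e (nat_lit 286756) (nat_lit 10) (.e (nat_lit 344169) (nat_lit 40) (.e (nat_lit 671780) (nat_lit 12) (.e (nat_lit 164046) (nat_lit 55) (.e (nat_lit 778353) (nat_lit 9) .nil)))))))) (.g (nat_lit 5) .nil .nil))) 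
(.lf (nat_lit 2864) (.g (nat_lit 2945) (.e (nat_lit 232) (nat_lit 21) (.e (nat_lit 336060) (nat_lit 7) (.e (nat_lit 319534) (nat_lit 16) (.e (nat_lit 286756) (nat_lit 10) (.e (nat_lit 344169) (nat_lit 40) (.e (nat_lit 671786) (nat_lit 14) (.e (nat_lit 1150) (nat_lit 85) (.e (nat_lit 40972) (nat_lit 9) .nil)))))))) (.g (nat_lit 6) .nil .nil))))) (.nd (nat_lit 4) (.nd (nat_lit 5) 
(.lf (nat_lit 2824) (.g (nat_lit 2446) (.e (nat_lit 232) (nat_lit 21) (.e (nat_lit 336060) (nat_lit 7) (.e (nat_lit 319534) (nat_lit 16) (.e (nat_lit 286756) (nat_lit 10) (.e (nat_lit 344169) (nat_lit 40) (.e (nat_lit 671780) (nat_lit 12) (.e (nat_lit 164035) (nat_lit 55) (.e (nat_lit 778353) (nat_lit 9) .nil)))))))) (.g (nat_lit 4) .nil .nil))) 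
(.lf (nat_lit 2856) (.g (nat_lit 2353) (.e (nat_lit 232) (nat_lit 21) (.e (nat_lit 336060) (nat_lit 7) (.e (nat_lit 319534) (nat_lit 16) (.e (nat_lit 286756) (nat_lit 10) (.e (nat_lit 344169) (nat_lit 40) (.e (nat_lit 671782) (nat_lit 12) (.e (nat_lit 164049) (nat_lit 55) (.e (nat_lit 778361) (nat_lit 9) .nil)))))))) (.g (nat_lit 4) .nil .nil)))) (.nd (nat_lit 5) 
(.lf (nat_lit 2840) (.g (nat_lit 3201) (.e (nat_lit 232) (nat_lit 21) (.e (nat_lit 336060) (nat_lit 7) (.e (nat_lit 319534) (nat_lit 16) (.e (nat_lit 286756) (nat_lit 10) (.e (nat_lit 344169) (nat_lit 40) (.e (nat_lit 671780) (nat_lit 12) (.e (nat_lit 164050) (nat_lit 55) (.e (nat_lit 778360) (nat_lit 9) .nil)))))))) (.g (nat_lit 6) .nil .nil))) 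
(.lf (nat_lit 2872) (.g (nat_lit 1940) (.e (nat_lit 232) (nat_lit 21) (.e (nat_lit 336060) (nat_lit 7) (.e (nat_lit 319534) (nat_lit 16) (.e (nat_lit 286756) (nat_lit 10) (.e (nat_lit 344169) (nat_lit 40) (.e (nat_lit 679680) (nat_lit 14) (.e (nat_lit 1156) (nat_lit 85) (.e (nat_lit 40972) (nat_lit 9) .nil)))))))) (.g (nat_lit 4) .nil .nil)))))) (.nd (nat_lit 3) (.nd (nat_lit 4) (.nd (nat_lit 5) 
(.lf (nat_lit 2820) (.g (nat_lit 2510) (.e (nat_lit 232) (nat_lit 21) (.e (nat_lit 336060) (nat_lit 7) (.e (nat_lit 319534) (nat_lit 16) (.e (nat_lit 286756) (nat_lit 10) (.e (nat_lit 344169) (nat_lit 40) (.e (nat_lit 671774) (nat_lit 9) (.e (nat_lit 2699) (nat_lit 169) (.e (nat_lit 213002) (nat_lit 9) .nil)))))))) (.g (nat_lit 5) .nil .nil))) 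
(.lf (nat_lit 2852) (.g (nat_lit 2358) (.e (nat_lit 232) (nat_lit 21) (.e (nat_lit 336060) (nat_lit 7) (.e (nat_lit 319534) (nat_lit 16) (.e (nat_lit 286756) (nat_lit 10) (.e (nat_lit 344169) (nat_lit 40) (.e (nat_lit 671782) (nat_lit 12) (.e (nat_lit 164035) (nat_lit 55) (.e (nat_lit 778368) (nat_lit 9) .nil)))))))) (.g (nat_lit 4) .nil .nil)))) (.nd (nat_lit 5) 
(.lf (nat_lit 2836) (.g (nat_lit 2605) (.e (nat_lit 232) (nat_lit 21) (.e (nat_lit 336060) (nat_lit 7) (.e (nat_lit 319534) (nat_lit 16) (.e (nat_lit 286756) (nat_lit 10) (.e (nat_lit 344169) (nat_lit 40) (.e (nat_lit 671780) (nat_lit 12) (.e (nat_lit 164048) (nat_lit 55) (.e (nat_lit 778334) (nat_lit 9) .nil)))))))) (.g (nat_lit 4) .nil .nil))) 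
(.lf (nat_lit 2868) (.g (nat_lit 2460) (.e (nat_lit 232) (nat_lit 21) (.e (nat_lit 336060) (nat_lit 7) (.e (nat_lit 319534) (nat_lit 16) (.e (nat_lit 286756) (nat_lit 10) (.e (nat_lit 344169) (nat_lit 40) (.e (nat_lit 679680) (nat_lit 14) (.e (nat_lit 1150) (nat_lit 85) (.e (nat_lit 40972) (nat_lit 9) .nil)))))))) (.g (nat_lit 5) .nil .nil))))) (.nd (nat_lit 4) (.nd (nat_lit 5) 
(.lf (nat_lit 2828) (.g (nat_lit 2513) (.e (nat_lit 232) (nat_lit 21) (.e (nat_lit 336060) (nat_lit 7) (.e (nat_lit 319534) (nat_lit 16) (.e (nat_lit 286756) (nat_lit 10) (.e (nat_lit 344169) (nat_lit 40) (.e (nat_lit 671780) (nat_lit 12) (.e (nat_lit 164044) (nat_lit 55) (.e (nat_lit 778353) (nat_lit 9) .nil)))))))) (.g (nat_lit 4) .nil .nil))) 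
(.lf (nat_lit 2860) (.g (nat_lit 2281) (.e (nat_lit 232) (nat_lit 21) (.e (nat_lit 336060) (nat_lit 7) (.e (nat_lit 319534) (nat_lit 16) (.e (nat_lit 286756) (nat_lit 10) (.e (nat_lit 344169) (nat_lit 40) (.e (nat_lit 671783) (nat_lit 13) (.e (nat_lit 229465) (nat_lit 55) (.e (nat_lit 778368) (nat_lit 9) .nil)))))))) (.g (nat_lit 4) .nil .nil)))) (.nd (nat_lit 5) 
(.lf (nat_lit 2844) (.g (nat_lit 1874) (.e (nat_lit 232) (nat_lit 21) (.e (nat_lit 336060) (nat_lit 7) (.e (nat_lit 319534) (nat_lit 16) (.e (nat_lit 286756) (nat_lit 10) (.e (nat_lit 344169) (nat_lit 40) (.e (nat_lit 671781) (nat_lit 12) (.e (nat_lit 164046) (nat_lit 55) (.e (nat_lit 778353) (nat_lit 9) .nil)))))))) (.g (nat_lit 4) .nil .nil))) 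
(.lf (nat_lit 2876) (.g (nat_lit 2937) (.e (nat_lit 232) (nat_lit 21) (.e (nat_lit 336060) (nat_lit 7) (.e (nat_lit 319534) (nat_lit 16) (.e (nat_lit 286759) (nat_lit 12) (.e (nat_lit 385113) (nat_lit 53) (.e (nat_lit 811045) (nat_lit 14) (.e (nat_lit 40972) (nat_lit 9) .nil))))))) (.g (nat_lit 6) .nil .nil))))))) (.nd (nat_lit 2) (.nd (nat_lit 3) (.nd (nat_lit 4) (.nd (nat_lit 5) 
(.lf (nat_lit 2818) (.g (nat_lit 3288) (.e (nat_lit 232) (nat_lit 21) (.e (nat_lit 336060) (nat_lit 7) (.e (nat_lit 319534) (nat_lit 16) (.e (nat_lit 286756) (nat_lit 10) (.e (nat_lit 344169) (nat_lit 40) (.e (nat_lit 671774) (nat_lit 9) (.e (nat_lit 2699) (nat_lit 169) (.e (nat_lit 213000) (nat_lit 9) .nil)))))))) (.g (nat_lit 0) .nil .nil))) 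
(.lf (nat_lit 2850) (.g (nat_lit 2115) (.e (nat_lit 232) (nat_lit 21) (.e (nat_lit 336060) (nat_lit 7) (.e (nat_lit 319534) (nat_lit 16) (.e (nat_lit 286756) (nat_lit 10) (.e (nat_lit 344169) (nat_lit 40) (.e (nat_lit 671781) (nat_lit 12) (.e (nat_lit 164050) (nat_lit 55) (.e (nat_lit 778361) (nat_lit 9) .nil)))))))) (.g (nat_lit 4) .nil .nil)))) (.nd (nat_lit 5) 
(.lf (nat_lit 2834) (.g (nat_lit 2476) (.e (nat_lit 232) (nat_lit 21) (.e (nat_lit 336060) (nat_lit 7) (.e (nat_lit 319534) (nat_lit 16) (.e (nat_lit 286756) (nat_lit 10) (.e (nat_lit 344169) (nat_lit 40) (.e (nat_lit 671780) (nat_lit 12) (.e (nat_lit 164047) (nat_lit 55) (.e (nat_lit 778353) (nat_lit 9) .nil)))))))) (.g (nat_lit 4) .nil .nil))) 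
(.lf (nat_lit 2866) (.g (nat_lit 2366) (.e (nat_lit 232) (nat_lit 21) (.e (nat_lit 336060) (nat_lit 7) (.e (nat_lit 319534) (nat_lit 16) (.e (nat_lit 286756) (nat_lit 10) (.e (nat_lit 344169) (nat_lit 40) (.e (nat_lit 679680) (nat_lit 14) (.e (nat_lit 1148) (nat_lit 85) (.e (nat_lit 40972) (nat_lit 9) .nil)))))))) (.g (nat_lit 5) .nil .nil))))) (.nd (nat_lit 4) (.nd (nat_lit 5) 
(.lf (nat_lit 2826) (.g (nat_lit 2485) (.e (nat_lit 232) (nat_lit 21) (.e (nat_lit 336060) (nat_lit 7) (.e (nat_lit 319534) (nat_lit 16) (.e (nat_lit 286756) (nat_lit 10) (.e (nat_lit 344169) (nat_lit 40) (.e (nat_lit 671780) (nat_lit 12) (.e (nat_lit 164043) (nat_lit 55) (.e (nat_lit 778353) (nat_lit 9) .nil)))))))) (.g (nat_lit 4) .nil .nil))) 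
(.lf (nat_lit 2858) (.g (nat_lit 2450) (.e (nat_lit 232) (nat_lit 21) (.e (nat_lit 336060) (nat_lit 7) (.e (nat_lit 319534) (nat_lit 16) (.e (nat_lit 286756) (nat_lit 10) (.e (nat_lit 344169) (nat_lit 40) (.e (nat_lit 671782) (nat_lit 12) (.e (nat_lit 164050) (nat_lit 55) (.e (nat_lit 778360) (nat_lit 9) .nil)))))))) (.g (nat_lit 4) .nil .nil)))) (.nd (nat_lit 5) 
(.lf (nat_lit 2842) (.g (nat_lit 1905) (.e (nat_lit 232) (nat_lit 21) (.e (nat_lit 336060) (nat_lit 7) (.e (nat_lit 319534) (nat_lit 16) (.e (nat_lit 286756) (nat_lit 10) (.e (nat_lit 344169) (nat_lit 40) (.e (nat_lit 671781) (nat_lit 12) (.e (nat_lit 164035) (nat_lit 55) (.e (nat_lit 778368) (nat_lit 9) .nil)))))))) (.g (nat_lit 4) .nil .nil))) 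
(.lf (nat_lit 2874) (.g (nat_lit 838) (.e (nat_lit 232) (nat_lit 21) (.e (nat_lit 336060) (nat_lit 7) (.e (nat_lit 319534) (nat_lit 16) (.e (nat_lit 286759) (nat_lit 12) .nil)))) .nil))))) (.nd (nat_lit 3) (.nd (nat_lit 4) (.nd (nat_lit 5) 
(.lf (nat_lit 2822) (.g (nat_lit 2404) (.e (nat_lit 232) (nat_lit 21) (.e (nat_lit 336060) (nat_lit 7) (.e (nat_lit 319534) (nat_lit 16) (.e (nat_lit 286756) (nat_lit 10) (.e (nat_lit 344169) (nat_lit 40) (.e (nat_lit 671776) (nat_lit 9) (.e (nat_lit 2686) (nat_lit 169) (.e (nat_lit 213000) (nat_lit 9) .nil)))))))) (.g (nat_lit 5) .nil .nil))) 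
(.lf (nat_lit 2854) (.g (nat_lit 2402) (.e (nat_lit 232) (nat_lit 21) (.e (nat_lit 336060) (nat_lit 7) (.e (nat_lit 319534) (nat_lit 16) (.e (nat_lit 286756) (nat_lit 10) (.e (nat_lit 344169) (nat_lit 40) (.e (nat_lit 671782) (nat_lit 12) (.e (nat_lit 164046) (nat_lit 55) (.e (nat_lit 778368) (nat_lit 9) .nil)))))))) (.g (nat_lit 4) .nil .nil)))) (.nd (nat_lit 5) 
(.lf (nat_lit 2838) (.g (nat_lit 2973) (.e (nat_lit 232) (nat_lit 21) (.e (nat_lit 336060) (nat_lit 7) (.e (nat_lit 319534) (nat_lit 16) (.e (nat_lit 286756) (nat_lit 10) (.e (nat_lit 344169) (nat_lit 40) (.e (nat_lit 671780) (nat_lit 12) (.e (nat_lit 164049) (nat_lit 55) (.e (nat_lit 778361) (nat_lit 9) .nil)))))))) (.g (nat_lit 5) .nil .nil))) 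
(.lf (nat_lit 2870) (.g (nat_lit 1941) (.e (nat_lit 232) (nat_lit 21) (.e (nat_lit 336060) (nat_lit 7) (.e (nat_lit 319534) (nat_lit 16) (.e (nat_lit 286756) (nat_lit 10) (.e (nat_lit 344169) (nat_lit 40) (.e (nat_lit 679680) (nat_lit 14) (.e (nat_lit 1152) (nat_lit 85) (.e (nat_lit 40970) (nat_lit 9) .nil)))))))) (.g (nat_lit 4) .nil .nil))))) (.nd (nat_lit 4) (.nd (nat_lit 5) 
(.lf (nat_lit 2830) (.g (nat_lit 2319) (.e (nat_lit 232) (nat_lit 21) (.e (nat_lit 336060) (nat_lit 7) (.e (nat_lit 319534) (nat_lit 16) (.e (nat_lit 286756) (nat_lit 10) (.e (nat_lit 344169) (nat_lit 40) (.e (nat_lit 671780) (nat_lit 12) (.e (nat_lit 164045) (nat_lit 55) (.e (nat_lit 778353) (nat_lit 9) .nil)))))))) (.g (nat_lit 4) .nil .nil))) 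
(.lf (nat_lit 2862) (.g (nat_lit 3884) (.e (nat_lit 232) (nat_lit 21) (.e (nat_lit 336060) (nat_lit 7) (.e (nat_lit 319534) (nat_lit 16) (.e (nat_lit 286756) (nat_lit 10) (.e (nat_lit 344169) (nat_lit 40) (.e (nat_lit 671784) (nat_lit 14) (.e (nat_lit 1146) (nat_lit 85) (.e (nat_lit 40972) (nat_lit 9) .nil)))))))) (.g (nat_lit 0) .nil .nil)))) (.nd (nat_lit 5) 
(.lf (nat_lit 2846) (.g (nat_lit 2086) (.e (nat_lit 232) (nat_lit 21) (.e (nat_lit 336060) (nat_lit 7) (.e (nat_lit 319534) (nat_lit 16) (.e (nat_lit 286756) (nat_lit 10) (.e (nat_lit 344169) (nat_lit 40) (.e (nat_lit 671781) (nat_lit 12) (.e (nat_lit 164047) (nat_lit 55) (.e (nat_lit 778368) (nat_lit 9) .nil)))))))) (.g (nat_lit 4) .nil .nil))) 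
(.lf (nat_lit 2878) (.g (nat_lit 2279) (.e (nat_lit 232) (nat_lit 21) (.e (nat_lit 336060) (nat_lit 7) (.e (nat_lit 319534) (nat_lit 16) (.e (nat_lit 286759) (nat_lit 12) (.e (nat_lit 385115) (nat_lit 53) (.e (nat_lit 811045) (nat_lit 14) (.e (nat_lit 40968) (nat_lit 9) .nil))))))) (.g (nat_lit 4) .nil .nil)))))))) 
(.nd (nat_lit 1) (.nd (nat_lit 2) (.nd (nat_lit 3) (.nd (nat_lit 4) (.nd (nat_lit 5) 
(.lf (nat_lit 2817) (.g (nat_lit 3271) (.e (nat_lit 232) (nat_lit 21) (.e (nat_lit 336060) (nat_lit 7) (.e (nat_lit 319534) (nat_lit 16) (.e (nat_lit 286756) (nat_lit 10) (.e (nat_lit 344169) (nat_lit 40) (.e (nat_lit 671774) (nat_lit 9) (.e (nat_lit 2698) (nat_lit 169) (.e (nat_lit 213000) (nat_lit 9) .nil)))))))) (.g (nat_lit 0) .nil .nil))) 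
(.lf (nat_lit 2849) (.g (nat_lit 2448) (.e (nat_lit 232) (nat_lit 21) (.e (nat_lit 336060) (nat_lit 7) (.e (nat_lit 319534) (nat_lit 16) (.e (nat_lit 286756) (nat_lit 10) (.e (nat_lit 344169) (nat_lit 40) (.e (nat_lit 671781) (nat_lit 12) (.e (nat_lit 164050) (nat_lit 55) (.e (nat_lit 778360) (nat_lit 9) .nil)))))))) (.g (nat_lit 4) .nil .nil)))) (.nd (nat_lit 5) 
(.lf (nat_lit 2833) (.g (nat_lit 3153) (.e (nat_lit 232) (nat_lit 21) (.e (nat_lit 336060) (nat_lit 7) (.e (nat_lit 319534) (nat_lit 16) (.e (nat_lit 286756) (nat_lit 10) (.e (nat_lit 344169) (nat_lit 40) (.e (nat_lit 671780) (nat_lit 12) (.e (nat_lit 164046) (nat_lit 55) (.e (nat_lit 778368) (nat_lit 9) .nil)))))))) (.g (nat_lit 5) .nil .nil))) 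
(.lf (nat_lit 2865) (.g (nat_lit 2044) (.e (nat_lit 232) (nat_lit 21) (.e (nat_lit 336060) (nat_lit 7) (.e (nat_lit 319534) (nat_lit 16) (.e (nat_lit 286756) (nat_lit 10) (.e (nat_lit 344169) (nat_lit 40) (.e (nat_lit 671787) (nat_lit 14) (.e (nat_lit 7936) (nat_lit 85) (.e (nat_lit 40972) (nat_lit 9) .nil)))))))) (.g (nat_lit 4) .nil .nil))))) (.nd (nat_lit 4) (.nd (nat_lit 5) 
(.lf (nat_lit 2825) (.g (nat_lit 2970) (.e (nat_lit 232) (nat_lit 21) (.e (nat_lit 336060) (nat_lit 7) (.e (nat_lit 319534) (nat_lit 16) (.e (nat_lit 286756) (nat_lit 10) (.e (nat_lit 344169) (nat_lit 40) (.e (nat_lit 671780) (nat_lit 12) (.e (nat_lit 164035) (nat_lit 55) (.e (nat_lit 778368) (nat_lit 9) .nil)))))))) (.g (nat_lit 5) .nil .nil))) 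
(.lf (nat_lit 2857) (.g (nat_lit 1893) (.e (nat_lit 232) (nat_lit 21) (.e (nat_lit 336060) (nat_lit 7) (.e (nat_lit 319534) (nat_lit 16) (.e (nat_lit 286756) (nat_lit 10) (.e (nat_lit 344169) (nat_lit 40) (.e (nat_lit 671782) (nat_lit 12) (.e (nat_lit 164050) (nat_lit 55) (.e (nat_lit 778359) (nat_lit 9) .nil)))))))) (.g (nat_lit 4) .nil .nil)))) (.nd (nat_lit 5) 
(.lf (nat_lit 2841) (.g (nat_lit 2868) (.e (nat_lit 232) (nat_lit 21) (.e (nat_lit 336060) (nat_lit 7) (.e (nat_lit 319534) (nat_lit 16) (.e (nat_lit 286756) (nat_lit 10) (.e (nat_lit 344169) (nat_lit 40) (.e (nat_lit 671780) (nat_lit 12) (.e (nat_lit 164050) (nat_lit 55) (.e (nat_lit 778361) (nat_lit 9) .nil)))))))) (.g (nat_lit 5) .nil .nil))) 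
(.lf (nat_lit 2873) (.g (nat_lit 2531) (.e (nat_lit 232) (nat_lit 21) (.e (nat_lit 336060) (nat_lit 7) (.e (nat_lit 319534) (nat_lit 16) (.e (nat_lit 286758) (nat_lit 12) (.e (nat_lit 385115) (nat_lit 53) (.e (nat_lit 811045) (nat_lit 14) (.e (nat_lit 40972) (nat_lit 9) .nil))))))) (.g (nat_lit 4) .nil .nil)))))) (.nd (nat_lit 3) (.nd (nat_lit 4) (.nd (nat_lit 5) 
(.lf (nat_lit 2821) (.g (nat_lit 2128) (.e (nat_lit 232) (nat_lit 21) (.e (nat_lit 336060) (nat_lit 7) (.e (nat_lit 319534) (nat_lit 16) (.e (nat_lit 286756) (nat_lit 10) (.e (nat_lit 344169) (nat_lit 40) (.e (nat_lit 671775) (nat_lit 9) (.e (nat_lit 2696) (nat_lit 169) (.e (nat_lit 213000) (nat_lit 9) .nil)))))))) (.g (nat_lit 5) .nil .nil))) 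
(.lf (nat_lit 2853) (.g (nat_lit 1853) (.e (nat_lit 232) (nat_lit 21) (.e (nat_lit 336060) (nat_lit 7) (.e (nat_lit 319534) (nat_lit 16) (.e (nat_lit 286756) (nat_lit 10) (.e (nat_lit 344169) (nat_lit 40) (.e (nat_lit 671782) (nat_lit 12) (.e (nat_lit 164046) (nat_lit 55) (.e (nat_lit 778353) (nat_lit 9) .nil)))))))) (.g (nat_lit 4) .nil .nil)))) (.nd (nat_lit 5) 
(.lf (nat_lit 2837) (.g (nat_lit 2862) (.e (nat_lit 232) (nat_lit 21) (.e (nat_lit 336060) (nat_lit 7) (.e (nat_lit 319534) (nat_lit 16) (.e (nat_lit 286756) (nat_lit 10) (.e (nat_lit 344169) (nat_lit 40) (.e (nat_lit 671780) (nat_lit 12) (.e (nat_lit 164049) (nat_lit 55) (.e (nat_lit 778360) (nat_lit 9) .nil)))))))) (.g (nat_lit 5) .nil .nil))) 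
(.lf (nat_lit 2869) (.g (nat_lit 2585) (.e (nat_lit 232) (nat_lit 21) (.e (nat_lit 336060) (nat_lit 7) (.e (nat_lit 319534) (nat_lit 16) (.e (nat_lit 286756) (nat_lit 10) (.e (nat_lit 344169) (nat_lit 40) (.e (nat_lit 679680) (nat_lit 14) (.e (nat_lit 1152) (nat_lit 85) (.e (nat_lit 40969) (nat_lit 9) .nil)))))))) (.g (nat_lit 5) .nil .nil))))) (.nd (nat_lit 4) (.nd (nat_lit 5) 
(.lf (nat_lit 2829) (.g (nat_lit 3036) (.e (nat_lit 232) (nat_lit 21) (.e (nat_lit 336060) (nat_lit 7) (.e (nat_lit 319534) (nat_lit 16) (.e (nat_lit 286756) (nat_lit 10) (.e (nat_lit 344169) (nat_lit 40) (.e (nat_lit 671780) (nat_lit 12) (.e (nat_lit 164044) (nat_lit 55) (.e (nat_lit 778368) (nat_lit 9) .nil)))))))) (.g (nat_lit 5) .nil .nil))) 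
(.lf (nat_lit 2861) (.g (nat_lit 2604) (.e (nat_lit 232) (nat_lit 21) (.e (nat_lit 336060) (nat_lit 7) (.e (nat_lit 319534) (nat_lit 16) (.e (nat_lit 286756) (nat_lit 10) (.e (nat_lit 344169) (nat_lit 40) (.e (nat_lit 671783) (nat_lit 13) (.e (nat_lit 229468) (nat_lit 55) (.e (nat_lit 778334) (nat_lit 9) .nil)))))))) (.g (nat_lit 4) .nil .nil)))) (.nd (nat_lit 5) 
(.lf (nat_lit 2845) (.g (nat_lit 2423) (.e (nat_lit 232) (nat_lit 21) (.e (nat_lit 336060) (nat_lit 7) (.e (nat_lit 319534) (nat_lit 16) (.e (nat_lit 286756) (nat_lit 10) (.e (nat_lit 344169) (nat_lit 40) (.e (nat_lit 671781) (nat_lit 12) (.e (nat_lit 164046) (nat_lit 55) (.e (nat_lit 778368) (nat_lit 9) .nil)))))))) (.g (nat_lit 4) .nil .nil))) 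
(.lf (nat_lit 2877) (.g (nat_lit 3060) (.e (nat_lit 232) (nat_lit 21) (.e (nat_lit 336060) (nat_lit 7) (.e (nat_lit 319534) (nat_lit 16) (.e (nat_lit 286759) (nat_lit 12) (.e (nat_lit 385114) (nat_lit 53) (.e (nat_lit 811045) (nat_lit 14) (.e (nat_lit 40972) (nat_lit 9) .nil))))))) (.g (nat_lit 6) .nil .nil))))))) (.nd (nat_lit 2) (.nd (nat_lit 3) (.nd (nat_lit 4) (.nd (nat_lit 5) 
(.lf (nat_lit 2819) (.g (nat_lit 2099) (.e (nat_lit 232) (nat_lit 21) (.e (nat_lit 336060) (nat_lit 7) (.e (nat_lit 319534) (nat_lit 16) (.e (nat_lit 286756) (nat_lit 10) (.e (nat_lit 344169) (nat_lit 40) (.e (nat_lit 671774) (nat_lit 9) (.e (nat_lit 2699) (nat_lit 169) (.e (nat_lit 213001) (nat_lit 9) .nil)))))))) (.g (nat_lit 4) .nil .nil))) 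
(.lf (nat_lit 2851) (.g (nat_lit 2141) (.e (nat_lit 232) (nat_lit 21) (.e (nat_lit 336060) (nat_lit 7) (.e (nat_lit 319534) (nat_lit 16) (.e (nat_lit 286756) (nat_lit 10) (.e (nat_lit 344169) (nat_lit 40) (.e (nat_lit 671782) (nat_lit 12) (.e (nat_lit 163849) (nat_lit 0) (.e (nat_lit 7460) (nat_lit 396) (.e (nat_lit 2423) (nat_lit 157) .nil))))))))) (.g (nat_lit 5) .nil .nil)))) (.nd (nat_lit 5) 
(.lf (nat_lit 2835) (.g (nat_lit 3038) (.e (nat_lit 232) (nat_lit 21) (.e (nat_lit 336060) (nat_lit 7) (.e (nat_lit 319534) (nat_lit 16) (.e (nat_lit 286756) (nat_lit 10) (.e (nat_lit 344169) (nat_lit 40) (.e (nat_lit 671780) (nat_lit 12) (.e (nat_lit 164047) (nat_lit 55) (.e (nat_lit 778368) (nat_lit 9) .nil)))))))) (.g (nat_lit 5) .nil .nil))) 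
(.lf (nat_lit 2867) (.g (nat_lit 2160) (.e (nat_lit 232) (nat_lit 21) (.e (nat_lit 336060) (nat_lit 7) (.e (nat_lit 319534) (nat_lit 16) (.e (nat_lit 286756) (nat_lit 10) (.e (nat_lit 344169) (nat_lit 40) (.e (nat_lit 679680) (nat_lit 14) (.e (nat_lit 1149) (nat_lit 85) (.e (nat_lit 40972) (nat_lit 9) .nil)))))))) (.g (nat_lit 5) .nil .nil))))) (.nd (nat_lit 4) (.nd (nat_lit 5) 
(.lf (nat_lit 2827) (.g (nat_lit 2435) (.e (nat_lit 232) (nat_lit 21) (.e (nat_lit 336060) (nat_lit 7) (.e (nat_lit 319534) (nat_lit 16) (.e (nat_lit 286756) (nat_lit 10) (.e (nat_lit 344169) (nat_lit 40) (.e (nat_lit 671780) (nat_lit 12) (.e (nat_lit 164043) (nat_lit 55) (.e (nat_lit 778368) (nat_lit 9) .nil)))))))) (.g (nat_lit 4) .nil .nil))) 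
(.lf (nat_lit 2859) (.g (nat_lit 2164) (.e (nat_lit 232) (nat_lit 21) (.e (nat_lit 336060) (nat_lit 7) (.e (nat_lit 319534) (nat_lit 16) (.e (nat_lit 286756) (nat_lit 10) (.e (nat_lit 344169) (nat_lit 40) (.e (nat_lit 671782) (nat_lit 12) (.e (nat_lit 164050) (nat_lit 55) (.e (nat_lit 778361) (nat_lit 9) .nil)))))))) (.g (nat_lit 4) .nil .nil)))) (.nd (nat_lit 5) 
(.lf (nat_lit 2843) (.g (nat_lit 1917) (.e (nat_lit 232) (nat_lit 21) (.e (nat_lit 336060) (nat_lit 7) (.e (nat_lit 319534) (nat_lit 16) (.e (nat_lit 286756) (nat_lit 10) (.e (nat_lit 344169) (nat_lit 40) (.e (nat_lit 671781) (nat_lit 12) (.e (nat_lit 164045) (nat_lit 55) (.e (nat_lit 778368) (nat_lit 9) .nil)))))))) (.g (nat_lit 4) .nil .nil))) 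
(.lf (nat_lit 2875) (.g (nat_lit 1763) (.e (nat_lit 232) (nat_lit 21) (.e (nat_lit 336060) (nat_lit 7) (.e (nat_lit 319534) (nat_lit 16) (.e (nat_lit 286759) (nat_lit 12) (.e (nat_lit 385111) (nat_lit 53) .nil))))) .nil))))) (.nd (nat_lit 3) (.nd (nat_lit 4) (.nd (nat_lit 5) 
(.lf (nat_lit 2823) (.g (nat_lit 2832) (.e (nat_lit 232) (nat_lit 21) (.e (nat_lit 336060) (nat_lit 7) (.e (nat_lit 319534) (nat_lit 16) (.e (nat_lit 286756) (nat_lit 10) (.e (nat_lit 344169) (nat_lit 40) (.e (nat_lit 671776) (nat_lit 9) (.e (nat_lit 2693) (nat_lit 169) (.e (nat_lit 213000) (nat_lit 9) .nil)))))))) (.g (nat_lit 6) .nil .nil))) 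
(.lf (nat_lit 2855) (.g (nat_lit 2242) (.e (nat_lit 232) (nat_lit 21) (.e (nat_lit 336060) (nat_lit 7) (.e (nat_lit 319534) (nat_lit 16) (.e (nat_lit 286756) (nat_lit 10) (.e (nat_lit 344169) (nat_lit 40) (.e (nat_lit 671782) (nat_lit 12) (.e (nat_lit 164049) (nat_lit 55) (.e (nat_lit 778360) (nat_lit 9) .nil)))))))) (.g (nat_lit 4) .nil .nil)))) (.nd (nat_lit 5) 
(.lf (nat_lit 2839) (.g (nat_lit 2597) (.e (nat_lit 232) (nat_lit 21) (.e (nat_lit 336060) (nat_lit 7) (.e (nat_lit 319534) (nat_lit 16) (.e (nat_lit 286756) (nat_lit 10) (.e (nat_lit 344169) (nat_lit 40) (.e (nat_lit 671780) (nat_lit 12) (.e (nat_lit 164050) (nat_lit 55) (.e (nat_lit 778359) (nat_lit 9) .nil)))))))) (.g (nat_lit 5) .nil .nil))) 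
(.lf (nat_lit 2871) (.g (nat_lit 1961) (.e (nat_lit 232) (nat_lit 21) (.e (nat_lit 336060) (nat_lit 7) (.e (nat_lit 319534) (nat_lit 16) (.e (nat_lit 286756) (nat_lit 10) (.e (nat_lit 344169) (nat_lit 40) (.e (nat_lit 679680) (nat_lit 14) (.e (nat_lit 1153) (nat_lit 85) (.e (nat_lit 40972) (nat_lit 9) .nil)))))))) (.g (nat_lit 4) .nil .nil))))) (.nd (nat_lit 4) (.nd (nat_lit 5) 
(.lf (nat_lit 2831) (.g (nat_lit 2926) (.e (nat_lit 232) (nat_lit 21) (.e (nat_lit 336060) (nat_lit 7) (.e (nat_lit 319534) (nat_lit 16) (.e (nat_lit 286756) (nat_lit 10) (.e (nat_lit 344169) (nat_lit 40) (.e (nat_lit 671780) (nat_lit 12) (.e (nat_lit 164045) (nat_lit 55) (.e (nat_lit 778368) (nat_lit 9) .nil)))))))) (.g (nat_lit 5) .nil .nil))) 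
(.lf (nat_lit 2863) (.g (nat_lit 3627) (.e (nat_lit 232) (nat_lit 21) (.e (nat_lit 336060) (nat_lit 7) (.e (nat_lit 319534) (nat_lit 16) (.e (nat_lit 286756) (nat_lit 10) (.e (nat_lit 344169) (nat_lit 40) (.e (nat_lit 671786) (nat_lit 14) (.e (nat_lit 1146) (nat_lit 85) (.e (nat_lit 40972) (nat_lit 9) .nil)))))))) (.g (nat_lit 0) .nil .nil)))) (.nd (nat_lit 5) 
(.lf (nat_lit 2847) (.g (nat_lit 1905) (.e (nat_lit 232) (nat_lit 21) (.e (nat_lit 336060) (nat_lit 7) (.e (nat_lit 319534) (nat_lit 16) (.e (nat_lit 286756) (nat_lit 10) (.e (nat_lit 344169) (nat_lit 40) (.e (nat_lit 671781) (nat_lit 12) (.e (nat_lit 164049) (nat_lit 55) (.e (nat_lit 778360) (nat_lit 9) .nil)))))))) (.g (nat_lit 4) .nil .nil))) 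
(.lf (nat_lit 2879) (.g (nat_lit 3427) (.e (nat_lit 232) (nat_lit 21) (.e (nat_lit 336060) (nat_lit 7) (.e (nat_lit 319534) (nat_lit 16) (.e (nat_lit 286759) (nat_lit 12) (.e (nat_lit 385115) (nat_lit 53) (.e (nat_lit 811045) (nat_lit 14) (.e (nat_lit 40972) (nat_lit 9) .nil))))))) (.g (nat_lit 7) .nil .nil)))))))))

noncomputable def tv040 : DT := (.nd (nat_lit 0) (.nd (nat_lit 1) (.nd (nat_lit 2) (.nd (nat_lit 3) (.nd (nat_lit 4) (.nd (nat_lit 5) 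
(.lf (nat_lit 2880) (.g (nat_lit 979) (.e (nat_lit 232) (nat_lit 21) (.e (nat_lit 336060) (nat_lit 7) (.e (nat_lit 319534) (nat_lit 16) (.e (nat_lit 286762) (nat_lit 14) .nil)))) .nil)) 
(.lf (nat_lit 2912) (.g (nat_lit 1893) (.e (nat_lit 232) (nat_lit 21) (.e (nat_lit 336224) (nat_lit 13) (.e (nat_lit 393225) (nat_lit 9) (.e (nat_lit 335996) (nat_lit 1) (.e (nat_lit 57851) (nat_lit 252) (.e (nat_lit 57371) (nat_lit 2) (.e (nat_lit 90128) (nat_lit 9) .nil))))))) (.g (nat_lit 4) .nil .nil)))) (.nd (nat_lit 5) 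
(.lf (nat_lit 2896) (.g (nat_lit 3855) (.e (nat_lit 232) (nat_lit 21) (.e (nat_lit 336175) (nat_lit 10) (.e (nat_lit 344126) (nat_lit 25) (.e (nat_lit 548889) (nat_lit 9) (.e (nat_lit 65619) (nat_lit 10) (.e (nat_lit 344129) (nat_lit 26) (.e (nat_lit 557066) (nat_lit 9) .nil))))))) (.g (nat_lit 6) .nil .nil))) 
(.lf (nat_lit 2928) (.g (nat_lit 3290) (.e (nat_lit 232) (nat_lit 21) (.e (nat_lit 336224) (nat_lit 13) (.e (nat_lit 393234) (nat_lit 17) (.e (nat_lit 7591) (nat_lit 407) (.e (nat_lit 73776) (nat_lit 26) (.e (nat_lit 778362) (nat_lit 9) .nil)))))) (.g (nat_lit 0) .nil .nil))))) (.nd (nat_lit 4) (.nd (nat_lit 5) 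
(.lf (nat_lit 2888) (.g (nat_lit 4452) (.e (nat_lit 232) (nat_lit 21) (.e (nat_lit 336060) (nat_lit 7) (.e (nat_lit 319534) (nat_lit 16) (.e (nat_lit 286762) (nat_lit 14) (.e (nat_lit 401454) (nat_lit 12) (.e (nat_lit 475221) (nat_lit 45) (.e (nat_lit 745496) (nat_lit 9) .nil))))))) (.g (nat_lit 5) .nil .nil))) 
(.lf (nat_lit 2920) (.g (nat_lit 1415) (.e (nat_lit 232) (nat_lit 21) (.e (nat_lit 336224) (nat_lit 13) (.e (nat_lit 393233) (nat_lit 17) (.e (nat_lit 7593) (nat_lit 407) (.e (nat_lit 73775) (nat_lit 26) .nil))))) .nil))) (.nd (nat_lit 5) 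
(.lf (nat_lit 2904) (.g (nat_lit 2982) (.e (nat_lit 232) (nat_lit 21) (.e (nat_lit 336205) (nat_lit 12) (.e (nat_lit 385074) (nat_lit 31) (.e (nat_lit 573482) (nat_lit 13) (.e (nat_lit 65619) (nat_lit 10) (.e (nat_lit 344129) (nat_lit 26) (.e (nat_lit 557066) (nat_lit 9) .nil))))))) (.g (nat_lit 4) .nil .nil))) 
(.lf (nat_lit 2936) (.g (nat_lit 2947) (.e (nat_lit 232) (nat_lit 21) (.e (nat_lit 336233) (nat_lit 14) (.e (nat_lit 401425) (nat_lit 2) (.e (nat_lit 196666) (nat_lit 13) (.e (nat_lit 65617) (nat_lit 10) (.e (nat_lit 344130) (nat_lit 26) (.e (nat_lit 557066) (nat_lit 9) .nil))))))) (.g (nat_lit 4) .nil .nil)))))) (.nd (nat_lit 3) (.nd (nat_lit 4) (.nd (nat_lit 5) 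
(.lf (nat_lit 2884) (.g (nat_lit 3616) (.e (nat_lit 232) (nat_lit 21) (.e (nat_lit 336060) (nat_lit 7) (.e (nat_lit 319534) (nat_lit 16) (.e (nat_lit 286762) (nat_lit 14) (.e (nat_lit 401454) (nat_lit 12) (.e (nat_lit 475155) (nat_lit 21) (.e (nat_lit 6811) (nat_lit 365) (.e (nat_lit 2422) (nat_lit 157) .nil)))))))) (.g (nat_lit 5) .nil .nil))) 
(.lf (nat_lit 2916) (.g (nat_lit 2112) (.e (nat_lit 232) (nat_lit 21) (.e (nat_lit 336224) (nat_lit 13) (.e (nat_lit 393232) (nat_lit 17) (.e (nat_lit 7591) (nat_lit 407) (.e (nat_lit 73775) (nat_lit 26) (.e (nat_lit 778362) (nat_lit 9) .nil)))))) (.g (nat_lit 4) .nil .nil)))) (.nd (nat_lit 5) 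
(.lf (nat_lit 2900) (.g (nat_lit 3721) (.e (nat_lit 232) (nat_lit 21) (.e (nat_lit 336197) (nat_lit 12) (.e (nat_lit 385074) (nat_lit 31) (.e (nat_lit 573484) (nat_lit 13) (.e (nat_lit 65610) (nat_lit 10) (.e (nat_lit 344129) (nat_lit 26) (.e (nat_lit 557066) (nat_lit 9) .nil))))))) (.g (nat_lit 6) .nil .nil))) 
(.lf (nat_lit 2932) (.g (nat_lit 2715) (.e (nat_lit 232) (nat_lit 21) (.e (nat_lit 336224) (nat_lit 13) (.e (nat_lit 393301) (nat_lit 27) (.e (nat_lit 491560) (nat_lit 10) (.e (nat_lit 344179) (nat_lit 44) (.e (nat_lit 778359) (nat_lit 9) .nil)))))) (.g (nat_lit 0) .nil .nil))))) (.nd (nat_lit 4) (.nd (nat_lit 5) 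
(.lf (nat_lit 2892) (.g (nat_lit 2353) (.e (nat_lit 232) (nat_lit 21) (.e (nat_lit 336089) (nat_lit 9) (.e (nat_lit 336456) (nat_lit 34) (.e (nat_lit 483365) (nat_lit 18) (.e (nat_lit 57854) (nat_lit 252) (.e (nat_lit 57373) (nat_lit 2) (.e (nat_lit 90128) (nat_lit 9) .nil))))))) (.g (nat_lit 4) .nil .nil))) 
(.lf (nat_lit 2924) (.g (nat_lit 2208) (.e (nat_lit 232) (nat_lit 21) (.e (nat_lit 336224) (nat_lit 13) (.e (nat_lit 393234) (nat_lit 17) (.e (nat_lit 7591) (nat_lit 407) (.e (nat_lit 73775) (nat_lit 26) (.e (nat_lit 778360) (nat_lit 9) .nil)))))) (.g (nat_lit 5) .nil .nil)))) (.nd (nat_lit 5) 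
(.lf (nat_lit 2908) (.g (nat_lit 3411) (.e (nat_lit 232) (nat_lit 21) (.e (nat_lit 336216) (nat_lit 13) (.e (nat_lit 393301) (nat_lit 27) (.e (nat_lit 491560) (nat_lit 10) (.e (nat_lit 344179) (nat_lit 44) (.e (nat_lit 778362) (nat_lit 9) .nil)))))) (.g (nat_lit 4) .nil .nil))) 
(.lf (nat_lit 2940) (.g (nat_lit 3344) (.e (nat_lit 233) (nat_lit 21) (.e (nat_lit 336211) (nat_lit 13) (.e (nat_lit 393225) (nat_lit 9) (.e (nat_lit 335995) (nat_lit 1) (.e (nat_lit 57848) (nat_lit 252) (.e (nat_lit 57374) (nat_lit 2) (.e (nat_lit 90133) (nat_lit 9) .nil))))))) (.g (nat_lit 6) .nil .nil))))))) (.nd (nat_lit 2) (.nd (nat_lit 3) (.nd (nat_lit 4) (.nd (nat_lit 5) 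
(.lf (nat_lit 2882) (.g (nat_lit 3598) (.e (nat_lit 232) (nat_lit 21) (.e (nat_lit 336060) (nat_lit 7) (.e (nat_lit 319534) (nat_lit 16) (.e (nat_lit 286762) (nat_lit 14) (.e (nat_lit 401446) (nat_lit 10) (.e (nat_lit 434276) (nat_lit 39) (.e (nat_lit 663572) (nat_lit 9) .nil))))))) (.g (nat_lit 5) .nil .nil))) 
(.lf (nat_lit 2914) (.g (nat_lit 1599) (.e (nat_lit 232) (nat_lit 21) (.e (nat_lit 336224) (nat_lit 13) (.e (nat_lit 393231) (nat_lit 17) (.e (nat_lit 7591) (nat_lit 407) (.e (nat_lit 73776) (nat_lit 26) (.e (nat_lit 778362) (nat_lit 9) .nil)))))) (.g (nat_lit 4) .nil .nil)))) (.nd (nat_lit 5) 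
(.lf (nat_lit 2898) (.g (nat_lit 2718) (.e (nat_lit 232) (nat_lit 21) (.e (nat_lit 336179) (nat_lit 10) (.e (nat_lit 344126) (nat_lit 25) (.e (nat_lit 548889) (nat_lit 9) (.e (nat_lit 65619) (nat_lit 10) (.e (nat_lit 344129) (nat_lit 26) (.e (nat_lit 557066) (nat_lit 9) .nil))))))) (.g (nat_lit 4) .nil .nil))) 
(.lf (nat_lit 2930) (.g (nat_lit 2891) (.e (nat_lit 232) (nat_lit 21) (.e (nat_lit 336224) (nat_lit 13) (.e (nat_lit 393298) (nat_lit 27) (.e (nat_lit 491556) (nat_lit 9) (.e (nat_lit 336051) (nat_lit 6) (.e (nat_lit 147467) (nat_lit 9) .nil)))))) (.g (nat_lit 4) .nil .nil))))) (.nd (nat_lit 4) (.nd (nat_lit 5) 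
(.lf (nat_lit 2890) (.g (nat_lit 3859) (.e (nat_lit 232) (nat_lit 21) (.e (nat_lit 336089) (nat_lit 9) (.e (nat_lit 336454) (nat_lit 34) (.e (nat_lit 483365) (nat_lit 18) (.e (nat_lit 57851) (nat_lit 252) (.e (nat_lit 57371) (nat_lit 2) (.e (nat_lit 90128) (nat_lit 9) .nil))))))) (.g (nat_lit 4) .nil .nil))) 
(.lf (nat_lit 2922) (.g (nat_lit 2273) (.e (nat_lit 232) (nat_lit 21) (.e (nat_lit 336224) (nat_lit 13) (.e (nat_lit 393234) (nat_lit 17) (.e (nat_lit 7587) (nat_lit 406) (.e (nat_lit 65580) (nat_lit 6) (.e (nat_lit 147467) (nat_lit 9) .nil)))))) (.g (nat_lit 4) .nil .nil)))) (.nd (nat_lit 5) 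
(.lf (nat_lit 2906) (.g (nat_lit 2731) (.e (nat_lit 232) (nat_lit 21) (.e (nat_lit 336205) (nat_lit 12) (.e (nat_lit 385074) (nat_lit 31) (.e (nat_lit 573485) (nat_lit 13) (.e (nat_lit 65619) (nat_lit 10) (.e (nat_lit 344129) (nat_lit 26) (.e (nat_lit 557065) (nat_lit 9) .nil))))))) (.g (nat_lit 5) .nil .nil))) 
(.lf (nat_lit 2938) (.g (nat_lit 3726) (.e (nat_lit 232) (nat_lit 21) (.e (nat_lit 336234) (nat_lit 14) (.e (nat_lit 401425) (nat_lit 2) (.e (nat_lit 196666) (nat_lit 13) (.e (nat_lit 65617) (nat_lit 10) (.e (nat_lit 344130) (nat_lit 26) (.e (nat_lit 557066) (nat_lit 9) .nil))))))) (.g (nat_lit 5) .nil .nil)))))) (.nd (nat_lit 3) (.nd (nat_lit 4) (.nd (nat_lit 5) 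
(.lf (nat_lit 2886) (.g (nat_lit 3992) (.e (nat_lit 232) (nat_lit 21) (.e (nat_lit 336060) (nat_lit 7) (.e (nat_lit 319534) (nat_lit 16) (.e (nat_lit 286762) (nat_lit 14) (.e (nat_lit 401454) (nat_lit 12) (.e (nat_lit 475156) (nat_lit 21) (.e (nat_lit 6811) (nat_lit 365) (.e (nat_lit 2423) (nat_lit 157) .nil)))))))) (.g (nat_lit 5) .nil .nil))) 
(.lf (nat_lit 2918) (.g (nat_lit 2183) (.e (nat_lit 232) (nat_lit 21) (.e (nat_lit 336224) (nat_lit 13) (.e (nat_lit 393232) (nat_lit 17) (.e (nat_lit 7593) (nat_lit 407) (.e (nat_lit 73775) (nat_lit 26) (.e (nat_lit 778362) (nat_lit 9) .nil)))))) (.g (nat_lit 4) .nil .nil)))) (.nd (nat_lit 5) 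
(.lf (nat_lit 2902) (.g (nat_lit 2303) (.e (nat_lit 232) (nat_lit 21) (.e (nat_lit 336205) (nat_lit 12) (.e (nat_lit 385072) (nat_lit 31) (.e (nat_lit 573482) (nat_lit 13) (.e (nat_lit 65619) (nat_lit 10) (.e (nat_lit 344129) (nat_lit 26) (.e (nat_lit 557066) (nat_lit 9) .nil))))))) (.g (nat_lit 4) .nil .nil))) 
(.lf (nat_lit 2934) (.g (nat_lit 4193) (.e (nat_lit 232) (nat_lit 21) (.e (nat_lit 336226) (nat_lit 14) (.e (nat_lit 401459) (nat_lit 13) (.e (nat_lit 483372) (nat_lit 21) (.e (nat_lit 319504) (nat_lit 10) .nil))))) .nil)))) (.nd (nat_lit 4) (.nd (nat_lit 5) 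
(.lf (nat_lit 2894) (.g (nat_lit 2889) (.e (nat_lit 232) (nat_lit 21) (.e (nat_lit 336166) (nat_lit 10) (.e (nat_lit 344126) (nat_lit 25) (.e (nat_lit 548889) (nat_lit 9) (.e (nat_lit 65610) (nat_lit 10) (.e (nat_lit 344129) (nat_lit 26) (.e (nat_lit 557066) (nat_lit 9) .nil))))))) (.g (nat_lit 4) .nil .nil))) 
(.lf (nat_lit 2926) (.g (nat_lit 1677) (.e (nat_lit 232) (nat_lit 21) (.e (nat_lit 336224) (nat_lit 13) (.e (nat_lit 393234) (nat_lit 17) (.e (nat_lit 7591) (nat_lit 407) (.e (nat_lit 73776) (nat_lit 26) .nil))))) .nil))) (.nd (nat_lit 5) 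
(.lf (nat_lit 2910) (.g (nat_lit 2090) (.e (nat_lit 232) (nat_lit 21) (.e (nat_lit 336224) (nat_lit 13) (.e (nat_lit 393225) (nat_lit 9) (.e (nat_lit 335995) (nat_lit 1) (.e (nat_lit 57848) (nat_lit 252) (.e (nat_lit 57372) (nat_lit 2) (.e (nat_lit 90128) (nat_lit 9) .nil))))))) (.g (nat_lit 4) .nil .nil))) 
(.lf (nat_lit 2942) (.g (nat_lit 2521) (.e (nat_lit 233) (nat_lit 21) (.e (nat_lit 336326) (nat_lit 18) (.e (nat_lit 204863) (nat_lit 27) (.e (nat_lit 344133) (nat_lit 26) (.e (nat_lit 557096) (nat_lit 13) .nil))))) .nil))))))) (.nd (nat_lit 1) (.nd (nat_lit 2) (.nd (nat_lit 3) (.nd (nat_lit 4) (.nd (nat_lit 5) 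
(.lf (nat_lit 2881) (.g (nat_lit 3268) (.e (nat_lit 232) (nat_lit 21) (.e (nat_lit 336060) (nat_lit 7) (.e (nat_lit 319534) (nat_lit 16) (.e (nat_lit 286762) (nat_lit 14) (.e (nat_lit 401446) (nat_lit 10) (.e (nat_lit 434275) (nat_lit 39) (.e (nat_lit 663572) (nat_lit 9) .nil))))))) (.g (nat_lit 5) .nil .nil))) 
(.lf (nat_lit 2913) (.g (nat_lit 1500) (.e (nat_lit 232) (nat_lit 21) (.e (nat_lit 336224) (nat_lit 13) (.e (nat_lit 393231) (nat_lit 17) (.e (nat_lit 7591) (nat_lit 407) (.e (nat_lit 73775) (nat_lit 26) (.e (nat_lit 778361) (nat_lit 9) .nil)))))) (.g (nat_lit 4) .nil .nil)))) (.nd (nat_lit 5) 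
(.lf (nat_lit 2897) (.g (nat_lit 3015) (.e (nat_lit 232) (nat_lit 21) (.e (nat_lit 336179) (nat_lit 10) (.e (nat_lit 344126) (nat_lit 25) (.e (nat_lit 548889) (nat_lit 9) (.e (nat_lit 65610) (nat_lit 10) (.e (nat_lit 344129) (nat_lit 26) (.e (nat_lit 557066) (nat_lit 9) .nil))))))) (.g (nat_lit 4) .nil .nil))) 
(.lf (nat_lit 2929) (.g (nat_lit 2664) (.e (nat_lit 232) (nat_lit 21) (.e (nat_lit 336224) (nat_lit 13) (.e (nat_lit 393298) (nat_lit 27) (.e (nat_lit 491556) (nat_lit 9) (.e (nat_lit 336051) (nat_lit 6) (.e (nat_lit 147466) (nat_lit 9) .nil)))))) (.g (nat_lit 4) .nil .nil))))) (.nd (nat_lit 4) (.nd (nat_lit 5) 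
(.lf (nat_lit 2889) (.g (nat_lit 1664) (.e (nat_lit 232) (nat_lit 21) (.e (nat_lit 336060) (nat_lit 7) (.e (nat_lit 327424) (nat_lit 18) (.e (nat_lit 303115) (nat_lit 1) (.e (nat_lit 164187) (nat_lit 157) (.e (nat_lit 229409) (nat_lit 13) (.e (nat_lit 442112) (nat_lit 8) .nil))))))) (.g (nat_lit 4) .nil .nil))) 
(.lf (nat_lit 2921) (.g (nat_lit 1631) (.e (nat_lit 232) (nat_lit 21) (.e (nat_lit 336224) (nat_lit 13) (.e (nat_lit 393233) (nat_lit 17) (.e (nat_lit 7593) (nat_lit 407) (.e (nat_lit 73775) (nat_lit 26) (.e (nat_lit 778361) (nat_lit 9) .nil)))))) (.g (nat_lit 4) .nil .nil)))) (.nd (nat_lit 5) 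
(.lf (nat_lit 2905) (.g (nat_lit 1839) (.e (nat_lit 232) (nat_lit 21) (.e (nat_lit 336205) (nat_lit 12) (.e (nat_lit 385074) (nat_lit 31) (.e (nat_lit 573484) (nat_lit 13) (.e (nat_lit 65617) (nat_lit 10) (.e (nat_lit 344130) (nat_lit 26) (.e (nat_lit 557065) (nat_lit 9) .nil))))))) (.g (nat_lit 4) .nil .nil))) 
(.lf (nat_lit 2937) (.g (nat_lit 4672) (.e (nat_lit 232) (nat_lit 21) (.e (nat_lit 336234) (nat_lit 14) (.e (nat_lit 401425) (nat_lit 2) (.e (nat_lit 196666) (nat_lit 13) (.e (nat_lit 65610) (nat_lit 10) (.e (nat_lit 344129) (nat_lit 26) (.e (nat_lit 557066) (nat_lit 9) .nil))))))) (.g (nat_lit 6) .nil .nil)))))) (.nd (nat_lit 3) (.nd (nat_lit 4) (.nd (nat_lit 5) 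
(.lf (nat_lit 2885) (.g (nat_lit 4572) (.e (nat_lit 232) (nat_lit 21) (.e (nat_lit 336060) (nat_lit 7) (.e (nat_lit 319534) (nat_lit 16) (.e (nat_lit 286762) (nat_lit 14) (.e (nat_lit 401454) (nat_lit 12) (.e (nat_lit 475155) (nat_lit 21) (.e (nat_lit 6811) (nat_lit 365) (.e (nat_lit 2423) (nat_lit 157) .nil)))))))) (.g (nat_lit 0) .nil .nil))) 
(.lf (nat_lit 2917) (.g (nat_lit 2014) (.e (nat_lit 232) (nat_lit 21) (.e (nat_lit 336224) (nat_lit 13) (.e (nat_lit 393232) (nat_lit 17) (.e (nat_lit 7591) (nat_lit 407) (.e (nat_lit 73776) (nat_lit 26) (.e (nat_lit 778362) (nat_lit 9) .nil)))))) (.g (nat_lit 4) .nil .nil)))) (.nd (nat_lit 5) 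
(.lf (nat_lit 2901) (.g (nat_lit 2979) (.e (nat_lit 232) (nat_lit 21) (.e (nat_lit 336205) (nat_lit 12) (.e (nat_lit 385072) (nat_lit 31) (.e (nat_lit 573481) (nat_lit 13) (.e (nat_lit 65619) (nat_lit 10) (.e (nat_lit 344129) (nat_lit 26) (.e (nat_lit 557066) (nat_lit 9) .nil))))))) (.g (nat_lit 5) .nil .nil))) 
(.lf (nat_lit 2933) (.g (nat_lit 4034) (.e (nat_lit 232) (nat_lit 21) (.e (nat_lit 336226) (nat_lit 14) (.e (nat_lit 401425) (nat_lit 2) (.e (nat_lit 196666) (nat_lit 13) (.e (nat_lit 65617) (nat_lit 10) (.e (nat_lit 344130) (nat_lit 26) (.e (nat_lit 557066) (nat_lit 9) .nil))))))) (.g (nat_lit 6) .nil .nil))))) (.nd (nat_lit 4) (.nd (nat_lit 5) 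
(.lf (nat_lit 2893) (.g (nat_lit 3297) (.e (nat_lit 232) (nat_lit 21) (.e (nat_lit 336164) (nat_lit 10) (.e (nat_lit 344126) (nat_lit 25) (.e (nat_lit 548889) (nat_lit 9) (.e (nat_lit 65619) (nat_lit 10) (.e (nat_lit 344129) (nat_lit 26) (.e (nat_lit 557066) (nat_lit 9) .nil))))))) (.g (nat_lit 5) .nil .nil))) 
(.lf (nat_lit 2925) (.g (nat_lit 2909) (.e (nat_lit 232) (nat_lit 21) (.e (nat_lit 336224) (nat_lit 13) (.e (nat_lit 393234) (nat_lit 17) (.e (nat_lit 7591) (nat_lit 407) (.e (nat_lit 73775) (nat_lit 26) (.e (nat_lit 778361) (nat_lit 9) .nil)))))) (.g (nat_lit 0) .nil .nil)))) (.nd (nat_lit 5) 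
(.lf (nat_lit 2909) (.g (nat_lit 3923) (.e (nat_lit 232) (nat_lit 21) (.e (nat_lit 336217) (nat_lit 13) (.e (nat_lit 393301) (nat_lit 27) (.e (nat_lit 491560) (nat_lit 10) (.e (nat_lit 344179) (nat_lit 44) (.e (nat_lit 778362) (nat_lit 9) .nil)))))) (.g (nat_lit 5) .nil .nil))) 
(.lf (nat_lit 2941) (.g (nat_lit 2189) (.e (nat_lit 233) (nat_lit 21) (.e (nat_lit 336324) (nat_lit 18) (.e (nat_lit 204854) (nat_lit 26) (.e (nat_lit 336019) (nat_lit 3) .nil)))) .nil)))))) (.nd (nat_lit 2) (.nd (nat_lit 3) (.nd (nat_lit 4) (.nd (nat_lit 5) 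
(.lf (nat_lit 2883) (.g (nat_lit 4101) (.e (nat_lit 232) (nat_lit 21) (.e (nat_lit 336060) (nat_lit 7) (.e (nat_lit 319534) (nat_lit 16) (.e (nat_lit 286762) (nat_lit 14) (.e (nat_lit 401448) (nat_lit 10) (.e (nat_lit 434275) (nat_lit 39) (.e (nat_lit 663572) (nat_lit 9) .nil))))))) (.g (nat_lit 5) .nil .nil))) 
(.lf (nat_lit 2915) (.g (nat_lit 1682) (.e (nat_lit 232) (nat_lit 21) (.e (nat_lit 336224) (nat_lit 13) (.e (nat_lit 393231) (nat_lit 17) (.e (nat_lit 7593) (nat_lit 407) (.e (nat_lit 73775) (nat_lit 26) (.e (nat_lit 778361) (nat_lit 9) .nil)))))) (.g (nat_lit 4) .nil .nil)))) (.nd (nat_lit 5) 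
(.lf (nat_lit 2899) (.g (nat_lit 2145) (.e (nat_lit 232) (nat_lit 21) (.e (nat_lit 336193) (nat_lit 12) (.e (nat_lit 385074) (nat_lit 31) (.e (nat_lit 573482) (nat_lit 13) .nil)))) .nil)) 
(.lf (nat_lit 2931) (.g (nat_lit 2468) (.e (nat_lit 232) (nat_lit 21) (.e (nat_lit 336224) (nat_lit 13) (.e (nat_lit 393300) (nat_lit 27) (.e (nat_lit 491556) (nat_lit 9) (.e (nat_lit 336051) (nat_lit 6) .nil))))) .nil)))) (.nd (nat_lit 4) (.nd (nat_lit 5) 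
(.lf (nat_lit 2891) (.g (nat_lit 3660) (.e (nat_lit 232) (nat_lit 21) (.e (nat_lit 336089) (nat_lit 9) (.e (nat_lit 336454) (nat_lit 34) (.e (nat_lit 483365) (nat_lit 18) (.e (nat_lit 57854) (nat_lit 252) .nil))))) .nil)) 
(.lf (nat_lit 2923) (.g (nat_lit 2260) (.e (nat_lit 232) (nat_lit 21) (.e (nat_lit 336224) (nat_lit 13) (.e (nat_lit 393234) (nat_lit 17) (.e (nat_lit 7591) (nat_lit 407) (.e (nat_lit 73775) (nat_lit 26) (.e (nat_lit 778359) (nat_lit 9) .nil)))))) (.g (nat_lit 5) .nil .nil)))) (.nd (nat_lit 5) 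
(.lf (nat_lit 2907) (.g (nat_lit 2992) (.e (nat_lit 232) (nat_lit 21) (.e (nat_lit 336212) (nat_lit 13) (.e (nat_lit 393301) (nat_lit 27) (.e (nat_lit 491560) (nat_lit 10) (.e (nat_lit 344179) (nat_lit 44) (.e (nat_lit 778362) (nat_lit 9) .nil)))))) (.g (nat_lit 4) .nil .nil))) 
(.lf (nat_lit 2939) (.g (nat_lit 921) (.e (nat_lit 233) (nat_lit 21) (.e (nat_lit 336209) (nat_lit 13) (.e (nat_lit 393225) (nat_lit 9) (.e (nat_lit 335996) (nat_lit 1) .nil)))) .nil))))) (.nd (nat_lit 3) (.nd (nat_lit 4) (.nd (nat_lit 5) 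
(.lf (nat_lit 2887) (.g (nat_lit 3439) (.e (nat_lit 232) (nat_lit 21) (.e (nat_lit 336060) (nat_lit 7) (.e (nat_lit 319534) (nat_lit 16) (.e (nat_lit 286762) (nat_lit 14) (.e (nat_lit 401454) (nat_lit 12) (.e (nat_lit 475157) (nat_lit 21) (.e (nat_lit 6811) (nat_lit 365) (.e (nat_lit 2423) (nat_lit 157) .nil)))))))) (.g (nat_lit 5) .nil .nil))) 
(.lf (nat_lit 2919) (.g (nat_lit 1600) (.e (nat_lit 232) (nat_lit 21) (.e (nat_lit 336224) (nat_lit 13) (.e (nat_lit 393233) (nat_lit 17) (.e (nat_lit 7591) (nat_lit 407) (.e (nat_lit 73775) (nat_lit 26) (.e (nat_lit 778361) (nat_lit 9) .nil)))))) (.g (nat_lit 4) .nil .nil)))) (.nd (nat_lit 5) 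
(.lf (nat_lit 2903) (.g (nat_lit 2415) (.e (nat_lit 232) (nat_lit 21) (.e (nat_lit 336205) (nat_lit 12) (.e (nat_lit 385073) (nat_lit 31) (.e (nat_lit 573482) (nat_lit 13) (.e (nat_lit 65619) (nat_lit 10) (.e (nat_lit 344129) (nat_lit 26) (.e (nat_lit 557066) (nat_lit 9) .nil))))))) (.g (nat_lit 5) .nil .nil))) 
(.lf (nat_lit 2935) (.g (nat_lit 3759) (.e (nat_lit 232) (nat_lit 21) (.e (nat_lit 336228) (nat_lit 14) (.e (nat_lit 401459) (nat_lit 13) (.e (nat_lit 483372) (nat_lit 21) (.e (nat_lit 319504) (nat_lit 10) (.e (nat_lit 7936) (nat_lit 312) .nil)))))) (.g (nat_lit 5) .nil .nil))))) (.nd (nat_lit 4) (.nd (nat_lit 5) 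
(.lf (nat_lit 2895) (.g (nat_lit 4152) (.e (nat_lit 232) (nat_lit 21) (.e (nat_lit 336175) (nat_lit 10) (.e (nat_lit 344126) (nat_lit 25) (.e (nat_lit 548889) (nat_lit 9) (.e (nat_lit 65610) (nat_lit 10) (.e (nat_lit 344129) (nat_lit 26) (.e (nat_lit 557066) (nat_lit 9) .nil))))))) (.g (nat_lit 6) .nil .nil))) 
(.lf (nat_lit 2927) (.g (nat_lit 2345) (.e (nat_lit 232) (nat_lit 21) (.e (nat_lit 336224) (nat_lit 13) (.e (nat_lit 393234) (nat_lit 17) (.e (nat_lit 7591) (nat_lit 407) (.e (nat_lit 73776) (nat_lit 26) (.e (nat_lit 778361) (nat_lit 9) .nil)))))) (.g (nat_lit 5) .nil .nil)))) (.nd (nat_lit 5) 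
(.lf (nat_lit 2911) (.g (nat_lit 2223) (.e (nat_lit 232) (nat_lit 21) (.e (nat_lit 336224) (nat_lit 13) (.e (nat_lit 393225) (nat_lit 9) (.e (nat_lit 335995) (nat_lit 1) (.e (nat_lit 57848) (nat_lit 252) (.e (nat_lit 57375) (nat_lit 2) (.e (nat_lit 90128) (nat_lit 9) .nil))))))) (.g (nat_lit 4) .nil .nil))) 
(.lf (nat_lit 2943) (.g (nat_lit 3665) (.e (nat_lit 233) (nat_lit 21) (.e (nat_lit 336369) (nat_lit 27) (.e (nat_lit 426173) (nat_lit 7) (.e (nat_lit 409617) (nat_lit 10) (.e (nat_lit 632) (nat_lit 50) (.e (nat_lit 573487) (nat_lit 14) (.e (nat_lit 81664) (nat_lit 32) .nil))))))) (.g (nat_lit 6) .nil .nil)))))))))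

noncomputable def tv041 : DT := (.nd (nat_lit 0) (.nd (nat_lit 1) (.nd (nat_lit 2) (.nd (nat_lit 3) (.nd (nat_lit 4) (.nd (nat_lit 5) (.nd (nat_lit 6) 
(.lf (nat_lit 2944) (.g (nat_lit 2638) (.e (nat_lit 233) (nat_lit 21) (.e (nat_lit 336369) (nat_lit 27) (.e (nat_lit 426173) (nat_lit 7) (.e (nat_lit 409617) (nat_lit 10) (.e (nat_lit 632) (nat_lit 50) (.e (nat_lit 573489) (nat_lit 14) (.e (nat_lit 81664) (nat_lit 32) .nil))))))) (.g (nat_lit 5) .nil .nil))) 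
(.lf (nat_lit 3008) (.g (nat_lit 1848) (.e (nat_lit 243) (nat_lit 21) (.e (nat_lit 336213) (nat_lit 13) (.e (nat_lit 393225) (nat_lit 9) (.e (nat_lit 335995) (nat_lit 1) .nil)))) .nil))) (.nd (nat_lit 6) 
(.lf (nat_lit 2976) (.g (nat_lit 1299) (.e (nat_lit 238) (nat_lit 21) (.e (nat_lit 336235) (nat_lit 14) (.e (nat_lit 401425) (nat_lit 2) (.e (nat_lit 196666) (nat_lit 13) .nil)))) .nil)) 
(.lf (nat_lit 3040) (.g (nat_lit 2618) (.e (nat_lit 245) (nat_lit 21) (.e (nat_lit 336021) (nat_lit 3) (.e (nat_lit 98313) (nat_lit 9) (.e (nat_lit 336004) (nat_lit 2) (.e (nat_lit 90158) (nat_lit 11) (.e (nat_lit 24604) (nat_lit 2) (.e (nat_lit 90128) (nat_lit 9) .nil))))))) (.g (nat_lit 4) .nil .nil))))) (.nd (nat_lit 5) (.nd (nat_lit 6) 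
(.lf (nat_lit 2960) (.g (nat_lit 1622) (.e (nat_lit 234) (nat_lit 21) (.e (nat_lit 336211) (nat_lit 13) (.e (nat_lit 393233) (nat_lit 17) (.e (nat_lit 7593) (nat_lit 407) (.e (nat_lit 73775) (nat_lit 26) (.e (nat_lit 778361) (nat_lit 9) .nil)))))) (.g (nat_lit 4) .nil .nil))) 
(.lf (nat_lit 3024) (.g (nat_lit 3432) (.e (nat_lit 243) (nat_lit 21) (.e (nat_lit 336213) (nat_lit 13) (.e (nat_lit 393301) (nat_lit 27) (.e (nat_lit 491560) (nat_lit 10) (.e (nat_lit 344179) (nat_lit 44) .nil))))) .nil))) (.nd (nat_lit 6) 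
(.lf (nat_lit 2992) (.g (nat_lit 2537) (.e (nat_lit 242) (nat_lit 21) (.e (nat_lit 336021) (nat_lit 3) (.e (nat_lit 98313) (nat_lit 9) (.e (nat_lit 336027) (nat_lit 3) (.e (nat_lit 98313) (nat_lit 9) .nil))))) .nil)) 
(.lf (nat_lit 3056) (.g (nat_lit 2718) (.e (nat_lit 245) (nat_lit 21) (.e (nat_lit 336203) (nat_lit 12) (.e (nat_lit 385074) (nat_lit 31) (.e (nat_lit 573485) (nat_lit 13) (.e (nat_lit 65619) (nat_lit 10) (.e (nat_lit 344129) (nat_lit 26) (.e (nat_lit 557066) (nat_lit 9) .nil))))))) (.g (nat_lit 4) .nil .nil)))))) (.nd (nat_lit 4) (.nd (nat_lit 5) (.nd (nat_lit 6) 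
(.lf (nat_lit 2952) (.g (nat_lit 2247) (.e (nat_lit 234) (nat_lit 21) (.e (nat_lit 336211) (nat_lit 13) (.e (nat_lit 393225) (nat_lit 9) (.e (nat_lit 335995) (nat_lit 1) (.e (nat_lit 57847) (nat_lit 252) (.e (nat_lit 57372) (nat_lit 2) (.e (nat_lit 90128) (nat_lit 9) .nil))))))) (.g (nat_lit 4) .nil .nil))) 
(.lf (nat_lit 3016) (.g (nat_lit 1084) (.e (nat_lit 243) (nat_lit 21) (.e (nat_lit 336213) (nat_lit 13) (.e (nat_lit 393234) (nat_lit 17) .nil))) .nil))) (.nd (nat_lit 6) 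
(.lf (nat_lit 2984) (.g (nat_lit 3058) (.e (nat_lit 239) (nat_lit 21) (.e (nat_lit 336235) (nat_lit 14) (.e (nat_lit 401425) (nat_lit 2) (.e (nat_lit 196666) (nat_lit 13) (.e (nat_lit 65610) (nat_lit 10) .nil))))) .nil)) 
(.lf (nat_lit 3048) (.g (nat_lit 2439) (.e (nat_lit 245) (nat_lit 21) (.e (nat_lit 336078) (nat_lit 9) (.e (nat_lit 336454) (nat_lit 34) (.e (nat_lit 483363) (nat_lit 18) (.e (nat_lit 57854) (nat_lit 252) .nil))))) .nil)))) (.nd (nat_lit 5) (.nd (nat_lit 6) 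
(.lf (nat_lit 2968) (.g (nat_lit 3797) (.e (nat_lit 234) (nat_lit 21) (.e (nat_lit 336316) (nat_lit 17) (.e (nat_lit 196670) (nat_lit 14) (.e (nat_lit 73753) (nat_lit 8) (.e (nat_lit 557098) (nat_lit 13) (.e (nat_lit 172064) (nat_lit 2) (.e (nat_lit 204544) (nat_lit 0) .nil))))))) (.g (nat_lit 6) .nil .nil))) 
(.lf (nat_lit 3032) (.g (nat_lit 1512) (.e (nat_lit 244) (nat_lit 21) (.e (nat_lit 336220) (nat_lit 13) (.e (nat_lit 393225) (nat_lit 9) (.e (nat_lit 335995) (nat_lit 1) (.e (nat_lit 57848) (nat_lit 252) .nil))))) .nil))) (.nd (nat_lit 6) 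
(.lf (nat_lit 3000) (.g (nat_lit 2028) (.e (nat_lit 243) (nat_lit 21) (.e (nat_lit 336021) (nat_lit 3) (.e (nat_lit 98313) (nat_lit 9) (.e (nat_lit 336004) (nat_lit 2) .nil)))) .nil)) 
(.lf (nat_lit 3064) (.g (nat_lit 1869) (.e (nat_lit 245) (nat_lit 21) (.e (nat_lit 336215) (nat_lit 13) (.e (nat_lit 393229) (nat_lit 9) (.e (nat_lit 335995) (nat_lit 1) (.e (nat_lit 57847) (nat_lit 252) .nil))))) .nil)))))) (.nd (nat_lit 3) (.nd (nat_lit 4) (.nd (nat_lit 5) (.nd (nat_lit 6) 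
(.lf (nat_lit 2948) (.g (nat_lit 2149) (.e (nat_lit 234) (nat_lit 21) (.e (nat_lit 336209) (nat_lit 13) (.e (nat_lit 393301) (nat_lit 27) (.e (nat_lit 491556) (nat_lit 9) (.e (nat_lit 336051) (nat_lit 6) (.e (nat_lit 147466) (nat_lit 9) .nil)))))) (.g (nat_lit 4) .nil .nil))) 
(.lf (nat_lit 3012) (.g (nat_lit 871) (.e (nat_lit 243) (nat_lit 21) (.e (nat_lit 336213) (nat_lit 13) (.e (nat_lit 393233) (nat_lit 17) .nil))) .nil))) (.nd (nat_lit 6) 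
(.lf (nat_lit 2980) (.g (nat_lit 554) (.e (nat_lit 239) (nat_lit 21) (.e (nat_lit 336017) (nat_lit 3) (.e (nat_lit 98372) (nat_lit 29) .nil))) .nil)) 
(.lf (nat_lit 3044) (.g (nat_lit 2525) (.e (nat_lit 245) (nat_lit 21) (.e (nat_lit 336021) (nat_lit 3) (.e (nat_lit 98313) (nat_lit 9) (.e (nat_lit 336027) (nat_lit 3) (.e (nat_lit 98317) (nat_lit 9) .nil))))) .nil)))) (.nd (nat_lit 5) (.nd (nat_lit 6) 
(.lf (nat_lit 2964) (.g (nat_lit 2615) (.e (nat_lit 234) (nat_lit 21) (.e (nat_lit 336211) (nat_lit 13) (.e (nat_lit 393299) (nat_lit 27) (.e (nat_lit 491556) (nat_lit 9) (.e (nat_lit 336051) (nat_lit 6) (.e (nat_lit 147466) (nat_lit 9) .nil)))))) (.g (nat_lit 4) .nil .nil))) 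
(.lf (nat_lit 3028) (.g (nat_lit 4221) (.e (nat_lit 243) (nat_lit 21) (.e (nat_lit 336226) (nat_lit 14) (.e (nat_lit 401459) (nat_lit 13) (.e (nat_lit 483372) (nat_lit 21) (.e (nat_lit 319504) (nat_lit 10) (.e (nat_lit 7936) (nat_lit 312) .nil)))))) (.g (nat_lit 4) .nil .nil)))) (.nd (nat_lit 6) 
(.lf (nat_lit 2996) (.g (nat_lit 3074) (.e (nat_lit 243) (nat_lit 21) (.e (nat_lit 336009) (nat_lit 2) (.e (nat_lit 90170) (nat_lit 13) (.e (nat_lit 172113) (nat_lit 10) (.e (nat_lit 434245) (nat_lit 28) (.e (nat_lit 573474) (nat_lit 12) (.e (nat_lit 57574) (nat_lit 55) (.e (nat_lit 778361) (nat_lit 9) .nil)))))))) (.g (nat_lit 5) .nil .nil))) 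
(.lf (nat_lit 3060) (.g (nat_lit 2839) (.e (nat_lit 245) (nat_lit 21) (.e (nat_lit 336213) (nat_lit 13) (.e (nat_lit 393300) (nat_lit 27) (.e (nat_lit 491556) (nat_lit 9) (.e (nat_lit 336051) (nat_lit 6) .nil))))) .nil))))) (.nd (nat_lit 4) (.nd (nat_lit 5) (.nd (nat_lit 6) 
(.lf (nat_lit 2956) (.g (nat_lit 1636) (.e (nat_lit 234) (nat_lit 21) (.e (nat_lit 336211) (nat_lit 13) (.e (nat_lit 393232) (nat_lit 17) (.e (nat_lit 7591) (nat_lit 407) (.e (nat_lit 73776) (nat_lit 26) (.e (nat_lit 778362) (nat_lit 9) .nil)))))) (.g (nat_lit 4) .nil .nil))) 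
(.lf (nat_lit 3020) (.g (nat_lit 870) (.e (nat_lit 243) (nat_lit 21) (.e (nat_lit 336213) (nat_lit 13) (.e (nat_lit 393300) (nat_lit 27) .nil))) .nil))) (.nd (nat_lit 6) 
(.lf (nat_lit 2988) (.g (nat_lit 2515) (.e (nat_lit 242) (nat_lit 21) (.e (nat_lit 336021) (nat_lit 3) (.e (nat_lit 98313) (nat_lit 9) (.e (nat_lit 336012) (nat_lit 2) (.e (nat_lit 90158) (nat_lit 11) .nil))))) .nil)) 
(.lf (nat_lit 3052) (.g (nat_lit 2725) (.e (nat_lit 245) (nat_lit 21) (.e (nat_lit 336078) (nat_lit 9) (.e (nat_lit 336454) (nat_lit 34) (.e (nat_lit 483365) (nat_lit 18) (.e (nat_lit 57854) (nat_lit 252) (.e (nat_lit 57371) (nat_lit 2) (.e (nat_lit 90128) (nat_lit 9) .nil))))))) (.g (nat_lit 5) .nil .nil))))) (.nd (nat_lit 5) (.nd (nat_lit 6) 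
(.lf (nat_lit 2972) (.g (nat_lit 2638) (.e (nat_lit 235) (nat_lit 21) (.e (nat_lit 336369) (nat_lit 27) (.e (nat_lit 426173) (nat_lit 7) (.e (nat_lit 409617) (nat_lit 10) (.e (nat_lit 632) (nat_lit 50) (.e (nat_lit 573489) (nat_lit 14) (.e (nat_lit 81664) (nat_lit 32) .nil))))))) (.g (nat_lit 5) .nil .nil))) 
(.lf (nat_lit 3036) (.g (nat_lit 3086) (.e (nat_lit 245) (nat_lit 21) (.e (nat_lit 336009) (nat_lit 2) (.e (nat_lit 90170) (nat_lit 13) (.e (nat_lit 172113) (nat_lit 10) (.e (nat_lit 434245) (nat_lit 28) (.e (nat_lit 573474) (nat_lit 12) (.e (nat_lit 57574) (nat_lit 55) (.e (nat_lit 778361) (nat_lit 9) .nil)))))))) (.g (nat_lit 5) .nil .nil)))) (.nd (nat_lit 6) 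
(.lf (nat_lit 3004) (.g (nat_lit 1909) (.e (nat_lit 243) (nat_lit 21) (.e (nat_lit 336078) (nat_lit 9) (.e (nat_lit 336454) (nat_lit 34) (.e (nat_lit 483365) (nat_lit 18) (.e (nat_lit 57847) (nat_lit 252) .nil))))) .nil)) 
(.lf (nat_lit 3068) (.g (nat_lit 2322) (.e (nat_lit 245) (nat_lit 21) (.e (nat_lit 336220) (nat_lit 13) (.e (nat_lit 393301) (nat_lit 27) (.e (nat_lit 491560) (nat_lit 10) (.e (nat_lit 344179) (nat_lit 44) (.e (nat_lit 778361) (nat_lit 9) .nil)))))) (.g (nat_lit 4) .nil .nil)))))))) (.nd (nat_lit 2) (.nd (nat_lit 3) (.nd (nat_lit 4) (.nd (nat_lit 5) (.nd (nat_lit 6) 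
(.lf (nat_lit 2946) (.g (nat_lit 1585) (.e (nat_lit 234) (nat_lit 21) (.e (nat_lit 336019) (nat_lit 3) (.e (nat_lit 98372) (nat_lit 29) (.e (nat_lit 450586) (nat_lit 10) .nil)))) .nil)) 
(.lf (nat_lit 3010) (.g (nat_lit 1151) (.e (nat_lit 243) (nat_lit 21) (.e (nat_lit 336213) (nat_lit 13) (.e (nat_lit 393231) (nat_lit 17) .nil))) .nil))) (.nd (nat_lit 6) 
(.lf (nat_lit 2978) (.g (nat_lit 1868) (.e (nat_lit 238) (nat_lit 21) (.e (nat_lit 336373) (nat_lit 27) (.e (nat_lit 426482) (nat_lit 27) (.e (nat_lit 336060) (nat_lit 7) (.e (nat_lit 319505) (nat_lit 10) .nil))))) .nil)) 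
(.lf (nat_lit 3042) (.g (nat_lit 2685) (.e (nat_lit 245) (nat_lit 21) (.e (nat_lit 336021) (nat_lit 3) (.e (nat_lit 98313) (nat_lit 9) (.e (nat_lit 336021) (nat_lit 3) (.e (nat_lit 98313) (nat_lit 9) .nil))))) .nil)))) (.nd (nat_lit 5) (.nd (nat_lit 6) 
(.lf (nat_lit 2962) (.g (nat_lit 1987) (.e (nat_lit 234) (nat_lit 21) (.e (nat_lit 336211) (nat_lit 13) (.e (nat_lit 393234) (nat_lit 17) (.e (nat_lit 7591) (nat_lit 407) (.e (nat_lit 73776) (nat_lit 26) .nil))))) .nil)) 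
(.lf (nat_lit 3026) (.g (nat_lit 3343) (.e (nat_lit 243) (nat_lit 21) (.e (nat_lit 336221) (nat_lit 13) (.e (nat_lit 393301) (nat_lit 27) (.e (nat_lit 491556) (nat_lit 9) (.e (nat_lit 336051) (nat_lit 6) (.e (nat_lit 147467) (nat_lit 9) .nil)))))) (.g (nat_lit 0) .nil .nil)))) (.nd (nat_lit 6) 
(.lf (nat_lit 2994) (.g (nat_lit 2274) (.e (nat_lit 242) (nat_lit 21) (.e (nat_lit 336213) (nat_lit 13) (.e (nat_lit 393225) (nat_lit 9) (.e (nat_lit 335995) (nat_lit 1) (.e (nat_lit 57848) (nat_lit 252) .nil))))) .nil)) 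
(.lf (nat_lit 3058) (.g (nat_lit 871) (.e (nat_lit 245) (nat_lit 21) (.e (nat_lit 336213) (nat_lit 13) (.e (nat_lit 393233) (nat_lit 17) .nil))) .nil))))) (.nd (nat_lit 4) (.nd (nat_lit 5) (.nd (nat_lit 6) 
(.lf (nat_lit 2954) (.g (nat_lit 1675) (.e (nat_lit 234) (nat_lit 21) (.e (nat_lit 336211) (nat_lit 13) (.e (nat_lit 393232) (nat_lit 17) (.e (nat_lit 7591) (nat_lit 407) (.e (nat_lit 73775) (nat_lit 26) .nil))))) .nil)) 
(.lf (nat_lit 3018) (.g (nat_lit 1112) (.e (nat_lit 243) (nat_lit 21) (.e (nat_lit 336213) (nat_lit 13) (.e (nat_lit 393299) (nat_lit 27) .nil))) .nil))) (.nd (nat_lit 6) 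
(.lf (nat_lit 2986) (.g (nat_lit 1854) (.e (nat_lit 241) (nat_lit 21) (.e (nat_lit 336409) (nat_lit 27) (.e (nat_lit 426188) (nat_lit 9) (.e (nat_lit 426432) (nat_lit 17) (.e (nat_lit 98048) (nat_lit 5) .nil))))) .nil)) 
(.lf (nat_lit 3050) (.g (nat_lit 2580) (.e (nat_lit 245) (nat_lit 21) (.e (nat_lit 336078) (nat_lit 9) (.e (nat_lit 336454) (nat_lit 34) (.e (nat_lit 483365) (nat_lit 18) (.e (nat_lit 57847) (nat_lit 252) (.e (nat_lit 57375) (nat_lit 2) (.e (nat_lit 90128) (nat_lit 9) .nil))))))) (.g (nat_lit 5) .nil .nil))))) (.nd (nat_lit 5) (.nd (nat_lit 6) 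
(.lf (nat_lit 2970) (.g (nat_lit 1846) (.e (nat_lit 235) (nat_lit 21) (.e (nat_lit 336316) (nat_lit 17) (.e (nat_lit 196670) (nat_lit 14) (.e (nat_lit 73753) (nat_lit 8) (.e (nat_lit 557096) (nat_lit 13) .nil))))) .nil)) 
(.lf (nat_lit 3034) (.g (nat_lit 2189) (.e (nat_lit 244) (nat_lit 21) (.e (nat_lit 336220) (nat_lit 13) (.e (nat_lit 393301) (nat_lit 27) (.e (nat_lit 491560) (nat_lit 10) (.e (nat_lit 344179) (nat_lit 44) .nil))))) .nil))) (.nd (nat_lit 6) 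
(.lf (nat_lit 3002) (.g (nat_lit 2007) (.e (nat_lit 243) (nat_lit 21) (.e (nat_lit 336021) (nat_lit 3) (.e (nat_lit 98313) (nat_lit 9) (.e (nat_lit 336027) (nat_lit 3) .nil)))) .nil)) 
(.lf (nat_lit 3066) (.g (nat_lit 2284) (.e (nat_lit 245) (nat_lit 21) (.e (nat_lit 336215) (nat_lit 13) (.e (nat_lit 393229) (nat_lit 9) (.e (nat_lit 335996) (nat_lit 1) (.e (nat_lit 57854) (nat_lit 252) (.e (nat_lit 57371) (nat_lit 2) (.e (nat_lit 90128) (nat_lit 9) .nil))))))) (.g (nat_lit 4) .nil .nil))))))) (.nd (nat_lit 3) (.nd (nat_lit 4) (.nd (nat_lit 5) (.nd (nat_lit 6) 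
(.lf (nat_lit 2950) (.g (nat_lit 2343) (.e (nat_lit 234) (nat_lit 21) (.e (nat_lit 336211) (nat_lit 13) (.e (nat_lit 393225) (nat_lit 9) (.e (nat_lit 335995) (nat_lit 1) (.e (nat_lit 57844) (nat_lit 252) (.e (nat_lit 57371) (nat_lit 2) (.e (nat_lit 90128) (nat_lit 9) .nil))))))) (.g (nat_lit 4) .nil .nil))) 
(.lf (nat_lit 3014) (.g (nat_lit 2363) (.e (nat_lit 243) (nat_lit 21) (.e (nat_lit 336213) (nat_lit 13) (.e (nat_lit 393233) (nat_lit 17) (.e (nat_lit 7591) (nat_lit 407) (.e (nat_lit 73775) (nat_lit 26) (.e (nat_lit 778362) (nat_lit 9) .nil)))))) (.g (nat_lit 4) .nil .nil)))) (.nd (nat_lit 6) 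
(.lf (nat_lit 2982) (.g (nat_lit 5093) (.e (nat_lit 239) (nat_lit 21) (.e (nat_lit 336017) (nat_lit 3) (.e (nat_lit 98373) (nat_lit 29) (.e (nat_lit 450587) (nat_lit 10) (.e (nat_lit 573477) (nat_lit 12) (.e (nat_lit 57574) (nat_lit 55) (.e (nat_lit 778362) (nat_lit 9) .nil))))))) (.g (nat_lit 7) .nil .nil))) 
(.lf (nat_lit 3046) (.g (nat_lit 2506) (.e (nat_lit 245) (nat_lit 21) (.e (nat_lit 336077) (nat_lit 9) (.e (nat_lit 336454) (nat_lit 34) (.e (nat_lit 483365) (nat_lit 18) (.e (nat_lit 57849) (nat_lit 252) (.e (nat_lit 57372) (nat_lit 2) (.e (nat_lit 90128) (nat_lit 9) .nil))))))) (.g (nat_lit 5) .nil .nil))))) (.nd (nat_lit 5) (.nd (nat_lit 6) 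
(.lf (nat_lit 2966) (.g (nat_lit 2728) (.e (nat_lit 234) (nat_lit 21) (.e (nat_lit 336211) (nat_lit 13) (.e (nat_lit 393301) (nat_lit 27) (.e (nat_lit 491560) (nat_lit 10) (.e (nat_lit 344179) (nat_lit 44) .nil))))) .nil)) 
(.lf (nat_lit 3030) (.g (nat_lit 1032) (.e (nat_lit 244) (nat_lit 21) (.e (nat_lit 336086) (nat_lit 9) (.e (nat_lit 336421) (nat_lit 28) (.e (nat_lit 442112) (nat_lit 5) .nil)))) .nil))) (.nd (nat_lit 6) 
(.lf (nat_lit 2998) (.g (nat_lit 3213) (.e (nat_lit 243) (nat_lit 21) (.e (nat_lit 336009) (nat_lit 2) (.e (nat_lit 90170) (nat_lit 13) (.e (nat_lit 172113) (nat_lit 10) (.e (nat_lit 434248) (nat_lit 28) (.e (nat_lit 573475) (nat_lit 12) (.e (nat_lit 57574) (nat_lit 55) (.e (nat_lit 778361) (nat_lit 9) .nil)))))))) (.g (nat_lit 5) .nil .nil))) 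
(.lf (nat_lit 3062) (.g (nat_lit 2351) (.e (nat_lit 245) (nat_lit 21) (.e (nat_lit 336215) (nat_lit 13) (.e (nat_lit 393229) (nat_lit 9) (.e (nat_lit 335986) (nat_lit 1) (.e (nat_lit 57854) (nat_lit 252) .nil))))) .nil))))) (.nd (nat_lit 4) (.nd (nat_lit 5) (.nd (nat_lit 6) 
(.lf (nat_lit 2958) (.g (nat_lit 1835) (.e (nat_lit 234) (nat_lit 21) (.e (nat_lit 336211) (nat_lit 13) (.e (nat_lit 393232) (nat_lit 17) (.e (nat_lit 7593) (nat_lit 407) (.e (nat_lit 73775) (nat_lit 26) (.e (nat_lit 778362) (nat_lit 9) .nil)))))) (.g (nat_lit 4) .nil .nil))) 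
(.lf (nat_lit 3022) (.g (nat_lit 2999) (.e (nat_lit 243) (nat_lit 21) (.e (nat_lit 336213) (nat_lit 13) (.e (nat_lit 393300) (nat_lit 27) (.e (nat_lit 491556) (nat_lit 9) (.e (nat_lit 336051) (nat_lit 6) (.e (nat_lit 147467) (nat_lit 9) .nil)))))) (.g (nat_lit 4) .nil .nil)))) (.nd (nat_lit 6) 
(.lf (nat_lit 2990) (.g (nat_lit 2358) (.e (nat_lit 242) (nat_lit 21) (.e (nat_lit 336021) (nat_lit 3) (.e (nat_lit 98313) (nat_lit 9) (.e (nat_lit 336021) (nat_lit 3) (.e (nat_lit 98317) (nat_lit 9) .nil))))) .nil)) 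
(.lf (nat_lit 3054) (.g (nat_lit 2581) (.e (nat_lit 245) (nat_lit 21) (.e (nat_lit 336194) (nat_lit 12) (.e (nat_lit 385074) (nat_lit 31) (.e (nat_lit 573485) (nat_lit 13) (.e (nat_lit 65619) (nat_lit 10) .nil))))) .nil)))) (.nd (nat_lit 5) (.nd (nat_lit 6) 
(.lf (nat_lit 2974) (.g (nat_lit 3877) (.e (nat_lit 236) (nat_lit 21) (.e (nat_lit 336316) (nat_lit 17) (.e (nat_lit 196670) (nat_lit 14) (.e (nat_lit 73753) (nat_lit 8) (.e (nat_lit 557098) (nat_lit 13) (.e (nat_lit 172064) (nat_lit 2) (.e (nat_lit 204544) (nat_lit 0) .nil))))))) (.g (nat_lit 6) .nil .nil))) 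
(.lf (nat_lit 3038) (.g (nat_lit 3225) (.e (nat_lit 245) (nat_lit 21) (.e (nat_lit 336009) (nat_lit 2) (.e (nat_lit 90170) (nat_lit 13) (.e (nat_lit 172113) (nat_lit 10) (.e (nat_lit 434248) (nat_lit 28) (.e (nat_lit 573475) (nat_lit 12) (.e (nat_lit 57574) (nat_lit 55) (.e (nat_lit 778361) (nat_lit 9) .nil)))))))) (.g (nat_lit 5) .nil .nil)))) (.nd (nat_lit 6) 
(.lf (nat_lit 3006) (.g (nat_lit 2721) (.e (nat_lit 243) (nat_lit 21) (.e (nat_lit 336078) (nat_lit 9) (.e (nat_lit 336454) (nat_lit 34) (.e (nat_lit 483365) (nat_lit 18) (.e (nat_lit 57849) (nat_lit 252) (.e (nat_lit 57372) (nat_lit 2) (.e (nat_lit 90128) (nat_lit 9) .nil))))))) (.g (nat_lit 5) .nil .nil))) 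
(.lf (nat_lit 3070) (.g (nat_lit 2670) (.e (nat_lit 246) (nat_lit 21) (.e (nat_lit 336010) (nat_lit 2) (.e (nat_lit 90170) (nat_lit 13) (.e (nat_lit 172113) (nat_lit 10) (.e (nat_lit 434247) (nat_lit 28) (.e (nat_lit 573477) (nat_lit 12) (.e (nat_lit 57574) (nat_lit 55) (.e (nat_lit 778362) (nat_lit 9) .nil)))))))) (.g (nat_lit 5) .nil .nil))))))))) 
(.nd (nat_lit 1) (.nd (nat_lit 2) (.nd (nat_lit 3) (.nd (nat_lit 4) (.nd (nat_lit 5) 
(.nd (nat_lit 6) 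
(.lf (nat_lit 2945) (.g (nat_lit 2052) (.e (nat_lit 233) (nat_lit 21) (.e (nat_lit 336456) (nat_lit 34) (.e (nat_lit 483372) (nat_lit 21) (.e (nat_lit 319505) (nat_lit 10) .nil)))) .nil)) 
(.lf (nat_lit 3009) (.g (nat_lit 1968) (.e (nat_lit 243) (nat_lit 21) (.e (nat_lit 336213) (nat_lit 13) (.e (nat_lit 393225) (nat_lit 9) (.e (nat_lit 335996) (nat_lit 1) .nil)))) .nil))) (.nd (nat_lit 6) 
(.lf (nat_lit 2977) (.g (nat_lit 4716) (.e (nat_lit 238) (nat_lit 21) (.e (nat_lit 336235) (nat_lit 14) (.e (nat_lit 401428) (nat_lit 3) (.e (nat_lit 204869) (nat_lit 29) (.e (nat_lit 360474) (nat_lit 8) (.e (nat_lit 557064) (nat_lit 9) .nil)))))) (.g (nat_lit 6) .nil .nil))) 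
(.lf (nat_lit 3041) (.g (nat_lit 2674) (.e (nat_lit 245) (nat_lit 21) (.e (nat_lit 336021) (nat_lit 3) (.e (nat_lit 98313) (nat_lit 9) (.e (nat_lit 336012) (nat_lit 2) (.e (nat_lit 90158) (nat_lit 11) (.e (nat_lit 24604) (nat_lit 2) (.e (nat_lit 90128) (nat_lit 9) .nil))))))) (.g (nat_lit 4) .nil .nil))))) (.nd (nat_lit 5) (.nd (nat_lit 6) 
(.lf (nat_lit 2961) (.g (nat_lit 1979) (.e (nat_lit 234) (nat_lit 21) (.e (nat_lit 336211) (nat_lit 13) (.e (nat_lit 393234) (nat_lit 17) (.e (nat_lit 7591) (nat_lit 407) (.e (nat_lit 73775) (nat_lit 26) .nil))))) .nil)) 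
(.lf (nat_lit 3025) (.g (nat_lit 1983) (.e (nat_lit 243) (nat_lit 21) (.e (nat_lit 336220) (nat_lit 13) (.e (nat_lit 393301) (nat_lit 27) (.e (nat_lit 491556) (nat_lit 9) (.e (nat_lit 336051) (nat_lit 6) .nil))))) .nil))) (.nd (nat_lit 6) 
(.lf (nat_lit 2993) (.g (nat_lit 1814) (.e (nat_lit 242) (nat_lit 21) (.e (nat_lit 336078) (nat_lit 9) (.e (nat_lit 336454) (nat_lit 34) (.e (nat_lit 483365) (nat_lit 18) (.e (nat_lit 57849) (nat_lit 252) .nil))))) .nil)) 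
(.lf (nat_lit 3057) (.g (nat_lit 2226) (.e (nat_lit 245) (nat_lit 21) (.e (nat_lit 336213) (nat_lit 13) (.e (nat_lit 393225) (nat_lit 9) (.e (nat_lit 335995) (nat_lit 1) (.e (nat_lit 57848) (nat_lit 252) .nil))))) .nil))))) (.nd (nat_lit 4) (.nd (nat_lit 5) (.nd (nat_lit 6) 
(.lf (nat_lit 2953) (.g (nat_lit 580) (.e (nat_lit 234) (nat_lit 21) (.e (nat_lit 336211) (nat_lit 13) (.e (nat_lit 393231) (nat_lit 17) .nil))) .nil)) 
(.lf (nat_lit 3017) (.g (nat_lit 1181) (.e (nat_lit 243) (nat_lit 21) (.e (nat_lit 336213) (nat_lit 13) (.e (nat_lit 393298) (nat_lit 27) .nil))) .nil))) (.nd (nat_lit 6) 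
(.lf (nat_lit 2985) (.g (nat_lit 1285) (.e (nat_lit 241) (nat_lit 21) (.e (nat_lit 336409) (nat_lit 27) (.e (nat_lit 426187) (nat_lit 9) (.e (nat_lit 426432) (nat_lit 17) (.e (nat_lit 98048) (nat_lit 5) .nil))))) .nil)) 
(.lf (nat_lit 3049) (.g (nat_lit 2339) (.e (nat_lit 245) (nat_lit 21) (.e (nat_lit 336078) (nat_lit 9) (.e (nat_lit 336454) (nat_lit 34) (.e (nat_lit 483365) (nat_lit 18) (.e (nat_lit 57846) (nat_lit 252) .nil))))) .nil)))) (.nd (nat_lit 5) (.nd (nat_lit 6) 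
(.lf (nat_lit 2969) (.g (nat_lit 2611) (.e (nat_lit 234) (nat_lit 21) (.e (nat_lit 336456) (nat_lit 34) (.e (nat_lit 483372) (nat_lit 21) (.e (nat_lit 319504) (nat_lit 10) .nil)))) .nil)) 
(.lf (nat_lit 3033) (.g (nat_lit 2288) (.e (nat_lit 244) (nat_lit 21) (.e (nat_lit 336220) (nat_lit 13) (.e (nat_lit 393300) (nat_lit 27) (.e (nat_lit 491556) (nat_lit 9) (.e (nat_lit 336051) (nat_lit 6) (.e (nat_lit 147466) (nat_lit 9) .nil)))))) (.g (nat_lit 4) .nil .nil)))) (.nd (nat_lit 6) 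
(.lf (nat_lit 3001) (.g (nat_lit 2014) (.e (nat_lit 243) (nat_lit 21) (.e (nat_lit 336021) (nat_lit 3) (.e (nat_lit 98313) (nat_lit 9) (.e (nat_lit 336012) (nat_lit 2) .nil)))) .nil)) 
(.lf (nat_lit 3065) (.g (nat_lit 2522) (.e (nat_lit 245) (nat_lit 21) (.e (nat_lit 336215) (nat_lit 13) (.e (nat_lit 393229) (nat_lit 9) (.e (nat_lit 335995) (nat_lit 1) (.e (nat_lit 57849) (nat_lit 252) (.e (nat_lit 57372) (nat_lit 2) (.e (nat_lit 90128) (nat_lit 9) .nil))))))) (.g (nat_lit 5) .nil .nil))))))) (.nd (nat_lit 3) (.nd (nat_lit 4) (.nd (nat_lit 5) (.nd (nat_lit 6) 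
(.lf (nat_lit 2949) (.g (nat_lit 2568) (.e (nat_lit 234) (nat_lit 21) (.e (nat_lit 336210) (nat_lit 13) (.e (nat_lit 393301) (nat_lit 27) (.e (nat_lit 491560) (nat_lit 10) (.e (nat_lit 344179) (nat_lit 44) .nil))))) .nil)) 
(.lf (nat_lit 3013) (.g (nat_lit 2071) (.e (nat_lit 243) (nat_lit 21) (.e (nat_lit 336213) (nat_lit 13) (.e (nat_lit 393233) (nat_lit 17) (.e (nat_lit 7591) (nat_lit 407) (.e (nat_lit 73775) (nat_lit 26) .nil))))) .nil))) (.nd (nat_lit 6) 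
(.lf (nat_lit 2981) (.g (nat_lit 1523) (.e (nat_lit 239) (nat_lit 21) (.e (nat_lit 336017) (nat_lit 3) (.e (nat_lit 98373) (nat_lit 29) (.e (nat_lit 450586) (nat_lit 10) .nil)))) .nil)) 
(.lf (nat_lit 3045) (.g (nat_lit 1770) (.e (nat_lit 245) (nat_lit 21) (.e (nat_lit 336077) (nat_lit 9) (.e (nat_lit 336454) (nat_lit 34) (.e (nat_lit 483365) (nat_lit 18) (.e (nat_lit 57847) (nat_lit 252) .nil))))) .nil)))) (.nd (nat_lit 5) (.nd (nat_lit 6) 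
(.lf (nat_lit 2965) (.g (nat_lit 2842) (.e (nat_lit 234) (nat_lit 21) (.e (nat_lit 336211) (nat_lit 13) (.e (nat_lit 393300) (nat_lit 27) (.e (nat_lit 491556) (nat_lit 9) (.e (nat_lit 336051) (nat_lit 6) (.e (nat_lit 147466) (nat_lit 9) .nil)))))) (.g (nat_lit 4) .nil .nil))) 
(.lf (nat_lit 3029) (.g (nat_lit 1814) (.e (nat_lit 244) (nat_lit 21) (.e (nat_lit 336078) (nat_lit 9) (.e (nat_lit 336454) (nat_lit 34) (.e (nat_lit 483365) (nat_lit 18) (.e (nat_lit 57849) (nat_lit 252) .nil))))) .nil))) (.nd (nat_lit 6) 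
(.lf (nat_lit 2997) (.g (nat_lit 3137) (.e (nat_lit 243) (nat_lit 21) (.e (nat_lit 336009) (nat_lit 2) (.e (nat_lit 90170) (nat_lit 13) (.e (nat_lit 172113) (nat_lit 10) (.e (nat_lit 434247) (nat_lit 28) (.e (nat_lit 573478) (nat_lit 12) (.e (nat_lit 57574) (nat_lit 55) (.e (nat_lit 778362) (nat_lit 9) .nil)))))))) (.g (nat_lit 5) .nil .nil))) 
(.lf (nat_lit 3061) (.g (nat_lit 1853) (.e (nat_lit 245) (nat_lit 21) (.e (nat_lit 336215) (nat_lit 13) (.e (nat_lit 393229) (nat_lit 9) (.e (nat_lit 335986) (nat_lit 1) (.e (nat_lit 57849) (nat_lit 252) .nil))))) .nil))))) (.nd (nat_lit 4) (.nd (nat_lit 5) (.nd (nat_lit 6) 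
(.lf (nat_lit 2957) (.g (nat_lit 1719) (.e (nat_lit 234) (nat_lit 21) (.e (nat_lit 336211) (nat_lit 13) (.e (nat_lit 393232) (nat_lit 17) (.e (nat_lit 7593) (nat_lit 407) (.e (nat_lit 73775) (nat_lit 26) (.e (nat_lit 778361) (nat_lit 9) .nil)))))) (.g (nat_lit 4) .nil .nil))) 
(.lf (nat_lit 3021) (.g (nat_lit 3066) (.e (nat_lit 243) (nat_lit 21) (.e (nat_lit 336213) (nat_lit 13) (.e (nat_lit 393300) (nat_lit 27) (.e (nat_lit 491556) (nat_lit 9) (.e (nat_lit 336051) (nat_lit 6) (.e (nat_lit 147466) (nat_lit 9) .nil)))))) (.g (nat_lit 4) .nil .nil)))) (.nd (nat_lit 6) 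
(.lf (nat_lit 2989) (.g (nat_lit 2614) (.e (nat_lit 242) (nat_lit 21) (.e (nat_lit 336021) (nat_lit 3) (.e (nat_lit 98313) (nat_lit 9) (.e (nat_lit 336021) (nat_lit 3) (.e (nat_lit 98313) (nat_lit 9) .nil))))) .nil)) 
(.lf (nat_lit 3053) (.g (nat_lit 1425) (.e (nat_lit 245) (nat_lit 21) (.e (nat_lit 336086) (nat_lit 9) (.e (nat_lit 336421) (nat_lit 28) (.e (nat_lit 434178) (nat_lit 0) (.e (nat_lit 1512) (nat_lit 108) (.e (nat_lit 336051) (nat_lit 6) (.e (nat_lit 147467) (nat_lit 9) .nil))))))) (.g (nat_lit 4) .nil .nil))))) (.nd (nat_lit 5) (.nd (nat_lit 6) 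
(.lf (nat_lit 2973) (.g (nat_lit 3088) (.e (nat_lit 236) (nat_lit 21) (.e (nat_lit 336316) (nat_lit 17) (.e (nat_lit 196670) (nat_lit 14) (.e (nat_lit 73753) (nat_lit 8) (.e (nat_lit 557096) (nat_lit 13) (.e (nat_lit 172064) (nat_lit 2) (.e (nat_lit 204544) (nat_lit 0) .nil))))))) (.g (nat_lit 6) .nil .nil))) 
(.lf (nat_lit 3037) (.g (nat_lit 3656) (.e (nat_lit 245) (nat_lit 21) (.e (nat_lit 336009) (nat_lit 2) (.e (nat_lit 90170) (nat_lit 13) (.e (nat_lit 172113) (nat_lit 10) (.e (nat_lit 434247) (nat_lit 28) (.e (nat_lit 573477) (nat_lit 12) (.e (nat_lit 57574) (nat_lit 55) (.e (nat_lit 778362) (nat_lit 9) .nil)))))))) (.g (nat_lit 6) .nil .nil)))) (.nd (nat_lit 6) 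
(.lf (nat_lit 3005) (.g (nat_lit 2055) (.e (nat_lit 243) (nat_lit 21) (.e (nat_lit 336078) (nat_lit 9) (.e (nat_lit 336454) (nat_lit 34) (.e (nat_lit 483365) (nat_lit 18) (.e (nat_lit 57847) (nat_lit 252) (.e (nat_lit 57372) (nat_lit 2) (.e (nat_lit 90128) (nat_lit 9) .nil))))))) (.g (nat_lit 4) .nil .nil))) 
(.lf (nat_lit 3069) (.g (nat_lit 3345) (.e (nat_lit 245) (nat_lit 21) (.e (nat_lit 336221) (nat_lit 13) (.e (nat_lit 393301) (nat_lit 27) (.e (nat_lit 491560) (nat_lit 10) (.e (nat_lit 344179) (nat_lit 44) (.e (nat_lit 778362) (nat_lit 9) .nil)))))) (.g (nat_lit 6) .nil .nil)))))))) (.nd (nat_lit 2) (.nd (nat_lit 3) (.nd (nat_lit 4) (.nd (nat_lit 5) (.nd (nat_lit 6) 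
(.lf (nat_lit 2947) (.g (nat_lit 1974) (.e (nat_lit 234) (nat_lit 21) (.e (nat_lit 336209) (nat_lit 13) (.e (nat_lit 393300) (nat_lit 27) (.e (nat_lit 491556) (nat_lit 9) (.e (nat_lit 336051) (nat_lit 6) (.e (nat_lit 147466) (nat_lit 9) .nil)))))) (.g (nat_lit 4) .nil .nil))) 
(.lf (nat_lit 3011) (.g (nat_lit 1176) (.e (nat_lit 243) (nat_lit 21) (.e (nat_lit 336213) (nat_lit 13) (.e (nat_lit 393232) (nat_lit 17) .nil))) .nil))) (.nd (nat_lit 6) 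
(.lf (nat_lit 2979) (.g (nat_lit 2336) (.e (nat_lit 239) (nat_lit 21) (.e (nat_lit 336017) (nat_lit 3) (.e (nat_lit 98359) (nat_lit 26) (.e (nat_lit 426286) (nat_lit 10) (.e (nat_lit 434247) (nat_lit 28) .nil))))) .nil)) 
(.lf (nat_lit 3043) (.g (nat_lit 2622) (.e (nat_lit 245) (nat_lit 21) (.e (nat_lit 336021) (nat_lit 3) (.e (nat_lit 98313) (nat_lit 9) (.e (nat_lit 336027) (nat_lit 3) (.e (nat_lit 98313) (nat_lit 9) .nil))))) .nil)))) (.nd (nat_lit 5) (.nd (nat_lit 6) 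
(.lf (nat_lit 2963) (.g (nat_lit 1896) (.e (nat_lit 234) (nat_lit 21) (.e (nat_lit 336211) (nat_lit 13) (.e (nat_lit 393234) (nat_lit 17) (.e (nat_lit 7593) (nat_lit 407) (.e (nat_lit 73775) (nat_lit 26) .nil))))) .nil)) 
(.lf (nat_lit 3027) (.g (nat_lit 2682) (.e (nat_lit 243) (nat_lit 21) (.e (nat_lit 336221) (nat_lit 13) (.e (nat_lit 393301) (nat_lit 27) (.e (nat_lit 491560) (nat_lit 10) (.e (nat_lit 344179) (nat_lit 44) (.e (nat_lit 778359) (nat_lit 9) .nil)))))) (.g (nat_lit 5) .nil .nil)))) (.nd (nat_lit 6) 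
(.lf (nat_lit 2995) (.g (nat_lit 3257) (.e (nat_lit 242) (nat_lit 21) (.e (nat_lit 336220) (nat_lit 13) (.e (nat_lit 393225) (nat_lit 9) (.e (nat_lit 335995) (nat_lit 1) (.e (nat_lit 57848) (nat_lit 252) (.e (nat_lit 57375) (nat_lit 2) (.e (nat_lit 90123) (nat_lit 9) .nil))))))) (.g (nat_lit 7) .nil .nil))) 
(.lf (nat_lit 3059) (.g (nat_lit 1876) (.e (nat_lit 245) (nat_lit 21) (.e (nat_lit 336213) (nat_lit 13) (.e (nat_lit 393233) (nat_lit 17) (.e (nat_lit 7593) (nat_lit 407) (.e (nat_lit 73775) (nat_lit 26) .nil))))) .nil))))) (.nd (nat_lit 4) (.nd (nat_lit 5) (.nd (nat_lit 6) 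
(.lf (nat_lit 2955) (.g (nat_lit 1792) (.e (nat_lit 234) (nat_lit 21) (.e (nat_lit 336211) (nat_lit 13) (.e (nat_lit 393232) (nat_lit 17) (.e (nat_lit 7591) (nat_lit 407) (.e (nat_lit 73775) (nat_lit 26) (.e (nat_lit 778362) (nat_lit 9) .nil)))))) (.g (nat_lit 4) .nil .nil))) 
(.lf (nat_lit 3019) (.g (nat_lit 3266) (.e (nat_lit 243) (nat_lit 21) (.e (nat_lit 336213) (nat_lit 13) (.e (nat_lit 393299) (nat_lit 27) (.e (nat_lit 491556) (nat_lit 9) (.e (nat_lit 336051) (nat_lit 6) .nil))))) .nil))) (.nd (nat_lit 6) 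
(.lf (nat_lit 2987) (.g (nat_lit 2423) (.e (nat_lit 242) (nat_lit 21) (.e (nat_lit 336021) (nat_lit 3) (.e (nat_lit 98313) (nat_lit 9) (.e (nat_lit 336004) (nat_lit 2) (.e (nat_lit 90158) (nat_lit 11) .nil))))) .nil)) 
(.lf (nat_lit 3051) (.g (nat_lit 2186) (.e (nat_lit 245) (nat_lit 21) (.e (nat_lit 336078) (nat_lit 9) (.e (nat_lit 336454) (nat_lit 34) (.e (nat_lit 483365) (nat_lit 18) (.e (nat_lit 57851) (nat_lit 252) .nil))))) .nil)))) (.nd (nat_lit 5) (.nd (nat_lit 6) 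
(.lf (nat_lit 2971) (.g (nat_lit 3665) (.e (nat_lit 235) (nat_lit 21) (.e (nat_lit 336369) (nat_lit 27) (.e (nat_lit 426173) (nat_lit 7) (.e (nat_lit 409617) (nat_lit 10) (.e (nat_lit 632) (nat_lit 50) (.e (nat_lit 573487) (nat_lit 14) (.e (nat_lit 81664) (nat_lit 32) .nil))))))) (.g (nat_lit 6) .nil .nil))) 
(.lf (nat_lit 3035) (.g (nat_lit 2339) (.e (nat_lit 245) (nat_lit 21) (.e (nat_lit 336009) (nat_lit 2) (.e (nat_lit 90170) (nat_lit 13) (.e (nat_lit 172113) (nat_lit 10) (.e (nat_lit 434245) (nat_lit 28) .nil))))) .nil))) (.nd (nat_lit 6) 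
(.lf (nat_lit 3003) (.g (nat_lit 2083) (.e (nat_lit 243) (nat_lit 21) (.e (nat_lit 336078) (nat_lit 9) (.e (nat_lit 336454) (nat_lit 34) (.e (nat_lit 483363) (nat_lit 18) (.e (nat_lit 57847) (nat_lit 252) .nil))))) .nil)) 
(.lf (nat_lit 3067) (.g (nat_lit 1990) (.e (nat_lit 245) (nat_lit 21) (.e (nat_lit 336220) (nat_lit 13) (.e (nat_lit 393301) (nat_lit 27) (.e (nat_lit 491556) (nat_lit 9) (.e (nat_lit 336051) (nat_lit 6) .nil))))) .nil)))))) (.nd (nat_lit 3) (.nd (nat_lit 4) (.nd (nat_lit 5) (.nd (nat_lit 6) 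
(.lf (nat_lit 2951) (.g (nat_lit 1998) (.e (nat_lit 234) (nat_lit 21) (.e (nat_lit 336211) (nat_lit 13) (.e (nat_lit 393225) (nat_lit 9) (.e (nat_lit 335995) (nat_lit 1) (.e (nat_lit 57847) (nat_lit 252) .nil))))) .nil)) 
(.lf (nat_lit 3015) (.g (nat_lit 2006) (.e (nat_lit 243) (nat_lit 21) (.e (nat_lit 336213) (nat_lit 13) (.e (nat_lit 393233) (nat_lit 17) (.e (nat_lit 7593) (nat_lit 407) (.e (nat_lit 73775) (nat_lit 26) (.e (nat_lit 778361) (nat_lit 9) .nil)))))) (.g (nat_lit 4) .nil .nil)))) (.nd (nat_lit 6) 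
(.lf (nat_lit 2983) (.g (nat_lit 170) (.e (nat_lit 239) (nat_lit 21) (.e (nat_lit 336118) (nat_lit 9) (.e (nat_lit 336437) (nat_lit 31) .nil))) .nil)) 
(.lf (nat_lit 3047) (.g (nat_lit 2724) (.e (nat_lit 245) (nat_lit 21) (.e (nat_lit 336078) (nat_lit 9) (.e (nat_lit 336454) (nat_lit 34) (.e (nat_lit 483363) (nat_lit 18) (.e (nat_lit 57847) (nat_lit 252) (.e (nat_lit 57372) (nat_lit 2) (.e (nat_lit 90128) (nat_lit 9) .nil))))))) (.g (nat_lit 5) .nil .nil))))) (.nd (nat_lit 5) (.nd (nat_lit 6) 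
(.lf (nat_lit 2967) (.g (nat_lit 3008) (.e (nat_lit 234) (nat_lit 21) (.e (nat_lit 336316) (nat_lit 17) (.e (nat_lit 196670) (nat_lit 14) (.e (nat_lit 73753) (nat_lit 8) (.e (nat_lit 557096) (nat_lit 13) (.e (nat_lit 172064) (nat_lit 2) (.e (nat_lit 204544) (nat_lit 0) .nil))))))) (.g (nat_lit 6) .nil .nil))) 
(.lf (nat_lit 3031) (.g (nat_lit 2839) (.e (nat_lit 244) (nat_lit 21) (.e (nat_lit 336213) (nat_lit 13) (.e (nat_lit 393300) (nat_lit 27) (.e (nat_lit 491556) (nat_lit 9) (.e (nat_lit 336051) (nat_lit 6) .nil))))) .nil))) (.nd (nat_lit 6) 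
(.lf (nat_lit 2999) (.g (nat_lit 1128) (.e (nat_lit 243) (nat_lit 21) (.e (nat_lit 336021) (nat_lit 3) (.e (nat_lit 98313) (nat_lit 9) .nil))) .nil)) 
(.lf (nat_lit 3063) (.g (nat_lit 1906) (.e (nat_lit 245) (nat_lit 21) (.e (nat_lit 336215) (nat_lit 13) (.e (nat_lit 393229) (nat_lit 9) (.e (nat_lit 335988) (nat_lit 1) (.e (nat_lit 57854) (nat_lit 252) .nil))))) .nil))))) (.nd (nat_lit 4) (.nd (nat_lit 5) (.nd (nat_lit 6) 
(.lf (nat_lit 2959) (.g (nat_lit 1625) (.e (nat_lit 234) (nat_lit 21) (.e (nat_lit 336211) (nat_lit 13) (.e (nat_lit 393233) (nat_lit 17) (.e (nat_lit 7591) (nat_lit 407) (.e (nat_lit 73776) (nat_lit 26) (.e (nat_lit 778362) (nat_lit 9) .nil)))))) (.g (nat_lit 4) .nil .nil))) 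
(.lf (nat_lit 3023) (.g (nat_lit 2339) (.e (nat_lit 243) (nat_lit 21) (.e (nat_lit 336213) (nat_lit 13) (.e (nat_lit 393301) (nat_lit 27) (.e (nat_lit 491556) (nat_lit 9) .nil)))) .nil))) (.nd (nat_lit 6) 
(.lf (nat_lit 2991) (.g (nat_lit 1922) (.e (nat_lit 242) (nat_lit 21) (.e (nat_lit 336021) (nat_lit 3) (.e (nat_lit 98313) (nat_lit 9) (.e (nat_lit 336027) (nat_lit 3) .nil)))) .nil)) 
(.lf (nat_lit 3055) (.g (nat_lit 3193) (.e (nat_lit 245) (nat_lit 21) (.e (nat_lit 336203) (nat_lit 12) (.e (nat_lit 385072) (nat_lit 31) (.e (nat_lit 573481) (nat_lit 13) (.e (nat_lit 65619) (nat_lit 10) (.e (nat_lit 344129) (nat_lit 26) (.e (nat_lit 557066) (nat_lit 9) .nil))))))) (.g (nat_lit 5) .nil .nil))))) (.nd (nat_lit 5) (.nd (nat_lit 6) 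
(.lf (nat_lit 2975) (.g (nat_lit 3058) (.e (nat_lit 237) (nat_lit 21) (.e (nat_lit 336235) (nat_lit 14) (.e (nat_lit 401425) (nat_lit 2) (.e (nat_lit 196666) (nat_lit 13) (.e (nat_lit 65610) (nat_lit 10) .nil))))) .nil)) 
(.lf (nat_lit 3039) (.g (nat_lit 1128) (.e (nat_lit 245) (nat_lit 21) (.e (nat_lit 336021) (nat_lit 3) (.e (nat_lit 98313) (nat_lit 9) .nil))) .nil))) (.nd (nat_lit 6) 
(.lf (nat_lit 3007) (.g (nat_lit 1960) (.e (nat_lit 243) (nat_lit 21) (.e (nat_lit 336078) (nat_lit 9) (.e (nat_lit 336454) (nat_lit 34) (.e (nat_lit 483365) (nat_lit 18) (.e (nat_lit 57854) (nat_lit 252) (.e (nat_lit 57371) (nat_lit 2) (.e (nat_lit 90128) (nat_lit 9) .nil))))))) (.g (nat_lit 4) .nil .nil))) 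
(.lf (nat_lit 3071) (.g (nat_lit 2557) (.e (nat_lit 246) (nat_lit 21) (.e (nat_lit 336011) (nat_lit 2) (.e (nat_lit 90170) (nat_lit 13) (.e (nat_lit 172113) (nat_lit 10) .nil)))) .nil)))))))))

noncomputable def tv042 : DT := (.nd (nat_lit 0) (.nd (nat_lit 1) (.nd (nat_lit 2) (.nd (nat_lit 3) (.nd (nat_lit 4) (.nd (nat_lit 5) (.nd (nat_lit 6) 
(.lf (nat_lit 3072) (.g (nat_lit 4238) (.e (nat_lit 246) (nat_lit 21) (.e (nat_lit 336011) (nat_lit 2) (.e (nat_lit 90170) (nat_lit 13) (.e (nat_lit 172113) (nat_lit 10) (.e (nat_lit 434245) (nat_lit 28) (.e (nat_lit 573474) (nat_lit 12) (.e (nat_lit 57574) (nat_lit 55) (.e (nat_lit 778359) (nat_lit 9) .nil)))))))) (.g (nat_lit 5) .nil .nil))) 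
(.lf (nat_lit 3136) (.g (nat_lit 1913) (.e (nat_lit 247) (nat_lit 21) (.e (nat_lit 336004) (nat_lit 2) (.e (nat_lit 90176) (nat_lit 15) (.e (nat_lit 188447) (nat_lit 22) (.e (nat_lit 196661) (nat_lit 12) (.e (nat_lit 57492) (nat_lit 34) (.e (nat_lit 606240) (nat_lit 9) .nil))))))) (.g (nat_lit 4) .nil .nil)))) (.nd (nat_lit 6) 
(.lf (nat_lit 3104) (.g (nat_lit 1948) (.e (nat_lit 246) (nat_lit 21) (.e (nat_lit 336223) (nat_lit 13) (.e (nat_lit 393234) (nat_lit 17) (.e (nat_lit 7587) (nat_lit 406) .nil)))) .nil)) 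
(.lf (nat_lit 3168) (.g (nat_lit 3251) (.e (nat_lit 247) (nat_lit 21) (.e (nat_lit 336011) (nat_lit 2) (.e (nat_lit 90170) (nat_lit 13) (.e (nat_lit 172113) (nat_lit 10) (.e (nat_lit 434245) (nat_lit 28) .nil))))) .nil)))) (.nd (nat_lit 5) (.nd (nat_lit 6) 
(.lf (nat_lit 3088) (.g (nat_lit 1708) (.e (nat_lit 246) (nat_lit 21) (.e (nat_lit 336078) (nat_lit 9) (.e (nat_lit 336454) (nat_lit 34) (.e (nat_lit 483365) (nat_lit 18) (.e (nat_lit 57847) (nat_lit 252) .nil))))) .nil)) 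
(.lf (nat_lit 3152) (.g (nat_lit 599) (.e (nat_lit 247) (nat_lit 21) (.e (nat_lit 336004) (nat_lit 2) (.e (nat_lit 90185) (nat_lit 17) .nil))) .nil))) (.nd (nat_lit 6) 
(.lf (nat_lit 3120) (.g (nat_lit 2477) (.e (nat_lit 247) (nat_lit 21) (.e (nat_lit 336004) (nat_lit 2) (.e (nat_lit 90158) (nat_lit 11) (.e (nat_lit 24607) (nat_lit 3) (.e (nat_lit 98313) (nat_lit 9) .nil))))) .nil)) 
(.lf (nat_lit 3184) (.g (nat_lit 2494) (.e (nat_lit 247) (nat_lit 21) (.e (nat_lit 336012) (nat_lit 2) (.e (nat_lit 90176) (nat_lit 15) (.e (nat_lit 188450) (nat_lit 23) (.e (nat_lit 204817) (nat_lit 17) (.e (nat_lit 1915) (nat_lit 130) (.e (nat_lit 606231) (nat_lit 9) .nil))))))) (.g (nat_lit 5) .nil .nil)))))) (.nd (nat_lit 4) (.nd (nat_lit 5) (.nd (nat_lit 6) 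
(.lf (nat_lit 3080) (.g (nat_lit 2396) (.e (nat_lit 246) (nat_lit 21) (.e (nat_lit 336021) (nat_lit 3) (.e (nat_lit 98313) (nat_lit 9) (.e (nat_lit 336021) (nat_lit 3) (.e (nat_lit 98317) (nat_lit 9) .nil))))) .nil)) 
(.lf (nat_lit 3144) (.g (nat_lit 1970) (.e (nat_lit 247) (nat_lit 21) (.e (nat_lit 336004) (nat_lit 2) (.e (nat_lit 90176) (nat_lit 15) (.e (nat_lit 188450) (nat_lit 23) (.e (nat_lit 204817) (nat_lit 17) (.e (nat_lit 1915) (nat_lit 130) (.e (nat_lit 606238) (nat_lit 9) .nil))))))) (.g (nat_lit 4) .nil .nil)))) (.nd (nat_lit 6) 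
(.lf (nat_lit 3112) (.g (nat_lit 2569) (.e (nat_lit 246) (nat_lit 21) (.e (nat_lit 336223) (nat_lit 13) (.e (nat_lit 393301) (nat_lit 27) (.e (nat_lit 491560) (nat_lit 10) (.e (nat_lit 344179) (nat_lit 44) .nil))))) .nil)) 
(.lf (nat_lit 3176) (.g (nat_lit 1255) (.e (nat_lit 247) (nat_lit 21) (.e (nat_lit 336012) (nat_lit 2) (.e (nat_lit 90176) (nat_lit 15) (.e (nat_lit 196352) (nat_lit 2) .nil)))) .nil)))) (.nd (nat_lit 5) (.nd (nat_lit 6) 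
(.lf (nat_lit 3096) (.g (nat_lit 871) (.e (nat_lit 246) (nat_lit 21) (.e (nat_lit 336213) (nat_lit 13) (.e (nat_lit 393233) (nat_lit 17) .nil))) .nil)) 
(.lf (nat_lit 3160) (.g (nat_lit 1951) (.e (nat_lit 247) (nat_lit 21) (.e (nat_lit 336004) (nat_lit 2) (.e (nat_lit 90185) (nat_lit 17) (.e (nat_lit 237619) (nat_lit 12) (.e (nat_lit 475177) (nat_lit 24) (.e (nat_lit 516137) (nat_lit 6) (.e (nat_lit 262163) (nat_lit 9) .nil))))))) (.g (nat_lit 4) .nil .nil)))) (.nd (nat_lit 6) 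
(.lf (nat_lit 3128) (.g (nat_lit 2017) (.e (nat_lit 247) (nat_lit 21) (.e (nat_lit 336004) (nat_lit 2) (.e (nat_lit 90158) (nat_lit 11) (.e (nat_lit 24609) (nat_lit 3) .nil)))) .nil)) 
(.lf (nat_lit 3192) (.g (nat_lit 2011) (.e (nat_lit 247) (nat_lit 21) (.e (nat_lit 336012) (nat_lit 2) (.e (nat_lit 90176) (nat_lit 15) (.e (nat_lit 188450) (nat_lit 23) (.e (nat_lit 204830) (nat_lit 18) .nil))))) .nil)))))) (.nd (nat_lit 3) (.nd (nat_lit 4) (.nd (nat_lit 5) (.nd (nat_lit 6) 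
(.lf (nat_lit 3076) (.g (nat_lit 4430) (.e (nat_lit 246) (nat_lit 21) (.e (nat_lit 336011) (nat_lit 2) (.e (nat_lit 90170) (nat_lit 13) (.e (nat_lit 172113) (nat_lit 10) (.e (nat_lit 434247) (nat_lit 28) (.e (nat_lit 573478) (nat_lit 12) (.e (nat_lit 57574) (nat_lit 55) (.e (nat_lit 778361) (nat_lit 9) .nil)))))))) (.g (nat_lit 5) .nil .nil))) 
(.lf (nat_lit 3140) (.g (nat_lit 1934) (.e (nat_lit 247) (nat_lit 21) (.e (nat_lit 336004) (nat_lit 2) (.e (nat_lit 90176) (nat_lit 15) (.e (nat_lit 188450) (nat_lit 23) (.e (nat_lit 204817) (nat_lit 17) .nil))))) .nil))) (.nd (nat_lit 6) 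
(.lf (nat_lit 3108) (.g (nat_lit 2854) (.e (nat_lit 246) (nat_lit 21) (.e (nat_lit 336223) (nat_lit 13) (.e (nat_lit 393234) (nat_lit 17) (.e (nat_lit 7591) (nat_lit 407) (.e (nat_lit 73776) (nat_lit 26) (.e (nat_lit 778362) (nat_lit 9) .nil)))))) (.g (nat_lit 5) .nil .nil))) 
(.lf (nat_lit 3172) (.g (nat_lit 3201) (.e (nat_lit 247) (nat_lit 21) (.e (nat_lit 336011) (nat_lit 2) (.e (nat_lit 90170) (nat_lit 13) (.e (nat_lit 172113) (nat_lit 10) (.e (nat_lit 434248) (nat_lit 28) .nil))))) .nil)))) (.nd (nat_lit 5) (.nd (nat_lit 6) 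
(.lf (nat_lit 3092) (.g (nat_lit 1037) (.e (nat_lit 246) (nat_lit 21) (.e (nat_lit 336088) (nat_lit 9) (.e (nat_lit 336438) (nat_lit 31) (.e (nat_lit 466688) (nat_lit 4) .nil)))) .nil)) 
(.lf (nat_lit 3156) (.g (nat_lit 1417) (.e (nat_lit 247) (nat_lit 21) (.e (nat_lit 336004) (nat_lit 2) (.e (nat_lit 90185) (nat_lit 17) (.e (nat_lit 237616) (nat_lit 12) .nil)))) .nil))) (.nd (nat_lit 6) 
(.lf (nat_lit 3124) (.g (nat_lit 2385) (.e (nat_lit 247) (nat_lit 21) (.e (nat_lit 336004) (nat_lit 2) (.e (nat_lit 90158) (nat_lit 11) (.e (nat_lit 24607) (nat_lit 3) (.e (nat_lit 98317) (nat_lit 9) .nil))))) .nil)) 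
(.lf (nat_lit 3188) (.g (nat_lit 2252) (.e (nat_lit 247) (nat_lit 21) (.e (nat_lit 336012) (nat_lit 2) (.e (nat_lit 90176) (nat_lit 15) (.e (nat_lit 188450) (nat_lit 23) (.e (nat_lit 204817) (nat_lit 17) (.e (nat_lit 1915) (nat_lit 130) (.e (nat_lit 606238) (nat_lit 9) .nil))))))) (.g (nat_lit 4) .nil .nil)))))) (.nd (nat_lit 4) (.nd (nat_lit 5) (.nd (nat_lit 6) 
(.lf (nat_lit 3084) (.g (nat_lit 3441) (.e (nat_lit 246) (nat_lit 21) (.e (nat_lit 336027) (nat_lit 3) (.e (nat_lit 98373) (nat_lit 29) (.e (nat_lit 450587) (nat_lit 10) (.e (nat_lit 573454) (nat_lit 9) .nil))))) .nil)) 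
(.lf (nat_lit 3148) (.g (nat_lit 2833) (.e (nat_lit 247) (nat_lit 21) (.e (nat_lit 336004) (nat_lit 2) (.e (nat_lit 90176) (nat_lit 15) (.e (nat_lit 188450) (nat_lit 23) (.e (nat_lit 204830) (nat_lit 18) (.e (nat_lit 57776) (nat_lit 233) (.e (nat_lit 2508) (nat_lit 157) .nil))))))) (.g (nat_lit 5) .nil .nil)))) (.nd (nat_lit 6) 
(.lf (nat_lit 3116) (.g (nat_lit 1965) (.e (nat_lit 247) (nat_lit 21) (.e (nat_lit 336004) (nat_lit 2) (.e (nat_lit 90158) (nat_lit 11) (.e (nat_lit 24602) (nat_lit 2) .nil)))) .nil)) 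
(.lf (nat_lit 3180) (.g (nat_lit 2150) (.e (nat_lit 247) (nat_lit 21) (.e (nat_lit 336012) (nat_lit 2) (.e (nat_lit 90176) (nat_lit 15) (.e (nat_lit 188447) (nat_lit 22) (.e (nat_lit 196661) (nat_lit 12) (.e (nat_lit 57492) (nat_lit 34) (.e (nat_lit 606240) (nat_lit 9) .nil))))))) (.g (nat_lit 4) .nil .nil))))) (.nd (nat_lit 5) (.nd (nat_lit 6) 
(.lf (nat_lit 3100) (.g (nat_lit 3252) (.e (nat_lit 246) (nat_lit 21) (.e (nat_lit 336213) (nat_lit 13) (.e (nat_lit 393301) (nat_lit 27) (.e (nat_lit 491556) (nat_lit 9) (.e (nat_lit 336051) (nat_lit 6) .nil))))) .nil)) 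
(.lf (nat_lit 3164) (.g (nat_lit 2065) (.e (nat_lit 247) (nat_lit 21) (.e (nat_lit 336011) (nat_lit 2) (.e (nat_lit 90170) (nat_lit 13) (.e (nat_lit 172106) (nat_lit 10) (.e (nat_lit 434231) (nat_lit 23) (.e (nat_lit 532490) (nat_lit 0) (.e (nat_lit 1040) (nat_lit 81) (.e (nat_lit 4602) (nat_lit 269) (.e (nat_lit 2510) (nat_lit 157) .nil))))))))) (.g (nat_lit 4) .nil .nil)))) (.nd (nat_lit 6) 
(.lf (nat_lit 3132) (.g (nat_lit 1194) (.e (nat_lit 247) (nat_lit 21) (.e (nat_lit 336004) (nat_lit 2) (.e (nat_lit 90176) (nat_lit 15) (.e (nat_lit 196352) (nat_lit 2) .nil)))) .nil)) 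
(.lf (nat_lit 3196) (.g (nat_lit 2532) (.e (nat_lit 247) (nat_lit 21) (.e (nat_lit 336012) (nat_lit 2) (.e (nat_lit 90176) (nat_lit 15) (.e (nat_lit 188450) (nat_lit 23) (.e (nat_lit 204830) (nat_lit 18) (.e (nat_lit 65280) (nat_lit 233) (.e (nat_lit 2458) (nat_lit 157) .nil))))))) (.g (nat_lit 5) .nil .nil)))))))) 
(.nd (nat_lit 2) (.nd (nat_lit 3) (.nd (nat_lit 4) (.nd (nat_lit 5) (.nd (nat_lit 6) 
(.lf (nat_lit 3074) (.g (nat_lit 3522) (.e (nat_lit 246) (nat_lit 21) (.e (nat_lit 336011) (nat_lit 2) (.e (nat_lit 90170) (nat_lit 13) (.e (nat_lit 172113) (nat_lit 10) (.e (nat_lit 434247) (nat_lit 28) .nil))))) .nil)) 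
(.lf (nat_lit 3138) (.g (nat_lit 1933) (.e (nat_lit 247) (nat_lit 21) (.e (nat_lit 336004) (nat_lit 2) (.e (nat_lit 90176) (nat_lit 15) (.e (nat_lit 188450) (nat_lit 23) (.e (nat_lit 204815) (nat_lit 17) .nil))))) .nil))) (.nd (nat_lit 6) 
(.lf (nat_lit 3106) (.g (nat_lit 1890) (.e (nat_lit 246) (nat_lit 21) (.e (nat_lit 336223) (nat_lit 13) (.e (nat_lit 393234) (nat_lit 17) (.e (nat_lit 7589) (nat_lit 406) .nil)))) .nil)) 
(.lf (nat_lit 3170) (.g (nat_lit 3409) (.e (nat_lit 247) (nat_lit 21) (.e (nat_lit 336011) (nat_lit 2) (.e (nat_lit 90170) (nat_lit 13) (.e (nat_lit 172113) (nat_lit 10) (.e (nat_lit 434247) (nat_lit 28) (.e (nat_lit 573477) (nat_lit 12) (.e (nat_lit 57575) (nat_lit 55) (.e (nat_lit 778379) (nat_lit 9) .nil)))))))) (.g (nat_lit 4) .nil .nil))))) (.nd (nat_lit 5) (.nd (nat_lit 6) 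
(.lf (nat_lit 3090) (.g (nat_lit 1781) (.e (nat_lit 246) (nat_lit 21) (.e (nat_lit 336078) (nat_lit 9) (.e (nat_lit 336454) (nat_lit 34) (.e (nat_lit 483365) (nat_lit 18) (.e (nat_lit 57854) (nat_lit 252) (.e (nat_lit 57371) (nat_lit 2) (.e (nat_lit 90128) (nat_lit 9) .nil))))))) (.g (nat_lit 4) .nil .nil))) 
(.lf (nat_lit 3154) (.g (nat_lit 1203) (.e (nat_lit 247) (nat_lit 21) (.e (nat_lit 336004) (nat_lit 2) (.e (nat_lit 90185) (nat_lit 17) (.e (nat_lit 237605) (nat_lit 9) .nil)))) .nil))) (.nd (nat_lit 6) 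
(.lf (nat_lit 3122) (.g (nat_lit 2679) (.e (nat_lit 247) (nat_lit 21) (.e (nat_lit 336004) (nat_lit 2) (.e (nat_lit 90158) (nat_lit 11) (.e (nat_lit 24607) (nat_lit 3) (.e (nat_lit 98313) (nat_lit 9) (.e (nat_lit 336012) (nat_lit 2) (.e (nat_lit 90137) (nat_lit 9) .nil))))))) (.g (nat_lit 4) .nil .nil))) 
(.lf (nat_lit 3186) (.g (nat_lit 2205) (.e (nat_lit 247) (nat_lit 21) (.e (nat_lit 336012) (nat_lit 2) (.e (nat_lit 90176) (nat_lit 15) (.e (nat_lit 188450) (nat_lit 23) (.e (nat_lit 204817) (nat_lit 17) (.e (nat_lit 1915) (nat_lit 130) (.e (nat_lit 606234) (nat_lit 9) .nil))))))) (.g (nat_lit 4) .nil .nil)))))) (.nd (nat_lit 4) (.nd (nat_lit 5) (.nd (nat_lit 6) 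
(.lf (nat_lit 3082) (.g (nat_lit 2525) (.e (nat_lit 246) (nat_lit 21) (.e (nat_lit 336027) (nat_lit 3) (.e (nat_lit 98372) (nat_lit 29) (.e (nat_lit 450586) (nat_lit 10) (.e (nat_lit 573477) (nat_lit 12) .nil))))) .nil)) 
(.lf (nat_lit 3146) (.g (nat_lit 2052) (.e (nat_lit 247) (nat_lit 21) (.e (nat_lit 336004) (nat_lit 2) (.e (nat_lit 90176) (nat_lit 15) (.e (nat_lit 188450) (nat_lit 23) (.e (nat_lit 204821) (nat_lit 17) .nil))))) .nil))) (.nd (nat_lit 6) 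
(.lf (nat_lit 3114) (.g (nat_lit 946) (.e (nat_lit 247) (nat_lit 21) (.e (nat_lit 335986) (nat_lit 1) (.e (nat_lit 57847) (nat_lit 252) .nil))) .nil)) 
(.lf (nat_lit 3178) (.g (nat_lit 1281) (.e (nat_lit 247) (nat_lit 21) (.e (nat_lit 336012) (nat_lit 2) (.e (nat_lit 90176) (nat_lit 15) (.e (nat_lit 188439) (nat_lit 20) .nil)))) .nil)))) (.nd (nat_lit 5) (.nd (nat_lit 6) 
(.lf (nat_lit 3098) (.g (nat_lit 3266) (.e (nat_lit 246) (nat_lit 21) (.e (nat_lit 336213) (nat_lit 13) (.e (nat_lit 393299) (nat_lit 27) (.e (nat_lit 491556) (nat_lit 9) (.e (nat_lit 336051) (nat_lit 6) .nil))))) .nil)) 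
(.lf (nat_lit 3162) (.g (nat_lit 5052) (.e (nat_lit 247) (nat_lit 21) (.e (nat_lit 336011) (nat_lit 2) (.e (nat_lit 90170) (nat_lit 13) (.e (nat_lit 172106) (nat_lit 10) (.e (nat_lit 434231) (nat_lit 23) (.e (nat_lit 532481) (nat_lit 0) (.e (nat_lit 1917) (nat_lit 130) (.e (nat_lit 606231) (nat_lit 9) .nil)))))))) (.g (nat_lit 7) .nil .nil)))) (.nd (nat_lit 6) 
(.lf (nat_lit 3130) (.g (nat_lit 1065) (.e (nat_lit 247) (nat_lit 21) (.e (nat_lit 336004) (nat_lit 2) (.e (nat_lit 90176) (nat_lit 15) (.e (nat_lit 188420) (nat_lit 0) .nil)))) .nil)) 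
(.lf (nat_lit 3194) (.g (nat_lit 2728) (.e (nat_lit 247) (nat_lit 21) (.e (nat_lit 336012) (nat_lit 2) (.e (nat_lit 90176) (nat_lit 15) (.e (nat_lit 188450) (nat_lit 23) (.e (nat_lit 204830) (nat_lit 18) (.e (nat_lit 65280) (nat_lit 233) (.e (nat_lit 2406) (nat_lit 157) .nil))))))) (.g (nat_lit 5) .nil .nil))))))) (.nd (nat_lit 3) (.nd (nat_lit 4) (.nd (nat_lit 5) (.nd (nat_lit 6) 
(.lf (nat_lit 3078) (.g (nat_lit 1105) (.e (nat_lit 246) (nat_lit 21) (.e (nat_lit 336021) (nat_lit 3) (.e (nat_lit 98313) (nat_lit 9) .nil))) .nil)) 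
(.lf (nat_lit 3142) (.g (nat_lit 2418) (.e (nat_lit 247) (nat_lit 21) (.e (nat_lit 336004) (nat_lit 2) (.e (nat_lit 90176) (nat_lit 15) (.e (nat_lit 188450) (nat_lit 23) (.e (nat_lit 204817) (nat_lit 17) (.e (nat_lit 1915) (nat_lit 130) (.e (nat_lit 606233) (nat_lit 9) .nil))))))) (.g (nat_lit 5) .nil .nil)))) (.nd (nat_lit 6) 
(.lf (nat_lit 3110) (.g (nat_lit 1178) (.e (nat_lit 246) (nat_lit 21) (.e (nat_lit 336223) (nat_lit 13) (.e (nat_lit 393300) (nat_lit 27) .nil))) .nil)) 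
(.lf (nat_lit 3174) (.g (nat_lit 1160) (.e (nat_lit 247) (nat_lit 21) (.e (nat_lit 336012) (nat_lit 2) (.e (nat_lit 90176) (nat_lit 15) (.e (nat_lit 188420) (nat_lit 0) .nil)))) .nil)))) (.nd (nat_lit 5) (.nd (nat_lit 6) 
(.lf (nat_lit 3094) (.g (nat_lit 1909) (.e (nat_lit 246) (nat_lit 21) (.e (nat_lit 336213) (nat_lit 13) (.e (nat_lit 393225) (nat_lit 9) (.e (nat_lit 335995) (nat_lit 1) .nil)))) .nil)) 
(.lf (nat_lit 3158) (.g (nat_lit 2209) (.e (nat_lit 247) (nat_lit 21) (.e (nat_lit 336004) (nat_lit 2) (.e (nat_lit 90185) (nat_lit 17) (.e (nat_lit 237616) (nat_lit 12) (.e (nat_lit 475179) (nat_lit 24) (.e (nat_lit 516124) (nat_lit 2) (.e (nat_lit 213019) (nat_lit 9) .nil))))))) (.g (nat_lit 5) .nil .nil)))) (.nd (nat_lit 6) 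
(.lf (nat_lit 3126) (.g (nat_lit 2021) (.e (nat_lit 247) (nat_lit 21) (.e (nat_lit 336004) (nat_lit 2) (.e (nat_lit 90158) (nat_lit 11) (.e (nat_lit 24608) (nat_lit 3) (.e (nat_lit 98313) (nat_lit 9) .nil))))) .nil)) 
(.lf (nat_lit 3190) (.g (nat_lit 2530) (.e (nat_lit 247) (nat_lit 21) (.e (nat_lit 336012) (nat_lit 2) (.e (nat_lit 90176) (nat_lit 15) (.e (nat_lit 188450) (nat_lit 23) (.e (nat_lit 204818) (nat_lit 17) .nil))))) .nil))))) (.nd (nat_lit 4) (.nd (nat_lit 5) (.nd (nat_lit 6) 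
(.lf (nat_lit 3086) (.g (nat_lit 2055) (.e (nat_lit 246) (nat_lit 21) (.e (nat_lit 336078) (nat_lit 9) (.e (nat_lit 336454) (nat_lit 34) (.e (nat_lit 483363) (nat_lit 18) (.e (nat_lit 57847) (nat_lit 252) .nil))))) .nil)) 
(.lf (nat_lit 3150) (.g (nat_lit 2575) (.e (nat_lit 247) (nat_lit 21) (.e (nat_lit 336004) (nat_lit 2) (.e (nat_lit 90176) (nat_lit 15) (.e (nat_lit 188450) (nat_lit 23) (.e (nat_lit 204830) (nat_lit 18) (.e (nat_lit 65280) (nat_lit 233) (.e (nat_lit 2450) (nat_lit 157) .nil))))))) (.g (nat_lit 5) .nil .nil)))) (.nd (nat_lit 6) 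
(.lf (nat_lit 3118) (.g (nat_lit 2025) (.e (nat_lit 247) (nat_lit 21) (.e (nat_lit 336004) (nat_lit 2) (.e (nat_lit 90158) (nat_lit 11) (.e (nat_lit 24604) (nat_lit 2) (.e (nat_lit 90158) (nat_lit 11) .nil))))) .nil)) 
(.lf (nat_lit 3182) (.g (nat_lit 2158) (.e (nat_lit 247) (nat_lit 21) (.e (nat_lit 336012) (nat_lit 2) (.e (nat_lit 90176) (nat_lit 15) (.e (nat_lit 188450) (nat_lit 23) (.e (nat_lit 204816) (nat_lit 17) (.e (nat_lit 1914) (nat_lit 130) (.e (nat_lit 606234) (nat_lit 9) .nil))))))) (.g (nat_lit 4) .nil .nil))))) (.nd (nat_lit 5) (.nd (nat_lit 6) 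
(.lf (nat_lit 3102) (.g (nat_lit 1588) (.e (nat_lit 246) (nat_lit 21) (.e (nat_lit 336215) (nat_lit 13) (.e (nat_lit 393229) (nat_lit 9) (.e (nat_lit 335995) (nat_lit 1) .nil)))) .nil)) 
(.lf (nat_lit 3166) (.g (nat_lit 3774) (.e (nat_lit 247) (nat_lit 21) (.e (nat_lit 336011) (nat_lit 2) (.e (nat_lit 90170) (nat_lit 13) (.e (nat_lit 172106) (nat_lit 10) (.e (nat_lit 434231) (nat_lit 23) (.e (nat_lit 532500) (nat_lit 1) (.e (nat_lit 57777) (nat_lit 233) (.e (nat_lit 2445) (nat_lit 157) .nil)))))))) (.g (nat_lit 5) .nil .nil)))) (.nd (nat_lit 6) 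
(.lf (nat_lit 3134) (.g (nat_lit 1842) (.e (nat_lit 247) (nat_lit 21) (.e (nat_lit 336004) (nat_lit 2) (.e (nat_lit 90176) (nat_lit 15) (.e (nat_lit 188447) (nat_lit 22) (.e (nat_lit 196661) (nat_lit 12) .nil))))) .nil)) 
(.lf (nat_lit 3198) (.g (nat_lit 513) (.e (nat_lit 247) (nat_lit 21) (.e (nat_lit 336012) (nat_lit 2) (.e (nat_lit 90178) (nat_lit 15) .nil))) .nil)))))))) (.nd (nat_lit 1) (.nd (nat_lit 2) (.nd (nat_lit 3) (.nd (nat_lit 4) (.nd (nat_lit 5) (.nd (nat_lit 6) 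
(.lf (nat_lit 3073) (.g (nat_lit 4256) (.e (nat_lit 246) (nat_lit 21) (.e (nat_lit 336011) (nat_lit 2) (.e (nat_lit 90170) (nat_lit 13) (.e (nat_lit 172113) (nat_lit 10) (.e (nat_lit 434245) (nat_lit 28) (.e (nat_lit 573474) (nat_lit 12) (.e (nat_lit 57574) (nat_lit 55) (.e (nat_lit 778362) (nat_lit 9) .nil)))))))) (.g (nat_lit 5) .nil .nil))) 
(.lf (nat_lit 3137) (.g (nat_lit 1087) (.e (nat_lit 247) (nat_lit 21) (.e (nat_lit 336004) (nat_lit 2) (.e (nat_lit 90176) (nat_lit 15) (.e (nat_lit 188450) (nat_lit 23) .nil)))) .nil))) (.nd (nat_lit 6) 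
(.lf (nat_lit 3105) (.g (nat_lit 2713) (.e (nat_lit 246) (nat_lit 21) (.e (nat_lit 336223) (nat_lit 13) (.e (nat_lit 393234) (nat_lit 17) (.e (nat_lit 7587) (nat_lit 406) (.e (nat_lit 65580) (nat_lit 6) (.e (nat_lit 147467) (nat_lit 9) .nil)))))) (.g (nat_lit 4) .nil .nil))) 
(.lf (nat_lit 3169) (.g (nat_lit 3280) (.e (nat_lit 247) (nat_lit 21) (.e (nat_lit 336011) (nat_lit 2) (.e (nat_lit 90170) (nat_lit 13) (.e (nat_lit 172113) (nat_lit 10) (.e (nat_lit 434247) (nat_lit 28) .nil))))) .nil)))) (.nd (nat_lit 5) (.nd (nat_lit 6) 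
(.lf (nat_lit 3089) (.g (nat_lit 2421) (.e (nat_lit 246) (nat_lit 21) (.e (nat_lit 336078) (nat_lit 9) (.e (nat_lit 336454) (nat_lit 34) (.e (nat_lit 483365) (nat_lit 18) (.e (nat_lit 57849) (nat_lit 252) (.e (nat_lit 57372) (nat_lit 2) (.e (nat_lit 90128) (nat_lit 9) .nil))))))) (.g (nat_lit 5) .nil .nil))) 
(.lf (nat_lit 3153) (.g (nat_lit 1996) (.e (nat_lit 247) (nat_lit 21) (.e (nat_lit 336004) (nat_lit 2) (.e (nat_lit 90185) (nat_lit 17) (.e (nat_lit 237601) (nat_lit 9) (.e (nat_lit 426436) (nat_lit 18) (.e (nat_lit 98338) (nat_lit 19) (.e (nat_lit 213013) (nat_lit 9) .nil))))))) (.g (nat_lit 5) .nil .nil)))) (.nd (nat_lit 6) 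
(.lf (nat_lit 3121) (.g (nat_lit 2564) (.e (nat_lit 247) (nat_lit 21) (.e (nat_lit 336004) (nat_lit 2) (.e (nat_lit 90158) (nat_lit 11) (.e (nat_lit 24607) (nat_lit 3) (.e (nat_lit 98313) (nat_lit 9) (.e (nat_lit 336012) (nat_lit 2) (.e (nat_lit 90127) (nat_lit 9) .nil))))))) (.g (nat_lit 4) .nil .nil))) 
(.lf (nat_lit 3185) (.g (nat_lit 2700) (.e (nat_lit 247) (nat_lit 21) (.e (nat_lit 336012) (nat_lit 2) (.e (nat_lit 90176) (nat_lit 15) (.e (nat_lit 188450) (nat_lit 23) (.e (nat_lit 204817) (nat_lit 17) (.e (nat_lit 1915) (nat_lit 130) (.e (nat_lit 606233) (nat_lit 9) .nil))))))) (.g (nat_lit 6) .nil .nil)))))) (.nd (nat_lit 4) (.nd (nat_lit 5) (.nd (nat_lit 6) 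
(.lf (nat_lit 3081) (.g (nat_lit 2502) (.e (nat_lit 246) (nat_lit 21) (.e (nat_lit 336021) (nat_lit 3) (.e (nat_lit 98313) (nat_lit 9) (.e (nat_lit 336027) (nat_lit 3) (.e (nat_lit 98317) (nat_lit 9) .nil))))) .nil)) 
(.lf (nat_lit 3145) (.g (nat_lit 2431) (.e (nat_lit 247) (nat_lit 21) (.e (nat_lit 336004) (nat_lit 2) (.e (nat_lit 90176) (nat_lit 15) (.e (nat_lit 188450) (nat_lit 23) (.e (nat_lit 204817) (nat_lit 17) (.e (nat_lit 1915) (nat_lit 130) (.e (nat_lit 606240) (nat_lit 9) .nil))))))) (.g (nat_lit 5) .nil .nil)))) (.nd (nat_lit 6) 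
(.lf (nat_lit 3113) (.g (nat_lit 4216) (.e (nat_lit 246) (nat_lit 21) (.e (nat_lit 336226) (nat_lit 14) (.e (nat_lit 401459) (nat_lit 13) (.e (nat_lit 483372) (nat_lit 21) (.e (nat_lit 319504) (nat_lit 10) (.e (nat_lit 7936) (nat_lit 312) .nil)))))) (.g (nat_lit 4) .nil .nil))) 
(.lf (nat_lit 3177) (.g (nat_lit 1255) (.e (nat_lit 247) (nat_lit 21) (.e (nat_lit 336012) (nat_lit 2) (.e (nat_lit 90176) (nat_lit 15) (.e (nat_lit 196352) (nat_lit 3) .nil)))) .nil)))) (.nd (nat_lit 5) (.nd (nat_lit 6) 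
(.lf (nat_lit 3097) (.g (nat_lit 2897) (.e (nat_lit 246) (nat_lit 21) (.e (nat_lit 336213) (nat_lit 13) (.e (nat_lit 393298) (nat_lit 27) (.e (nat_lit 491556) (nat_lit 9) (.e (nat_lit 336051) (nat_lit 6) .nil))))) .nil)) 
(.lf (nat_lit 3161) (.g (nat_lit 2357) (.e (nat_lit 247) (nat_lit 21) (.e (nat_lit 336004) (nat_lit 2) (.e (nat_lit 90185) (nat_lit 17) (.e (nat_lit 237619) (nat_lit 12) (.e (nat_lit 475179) (nat_lit 24) (.e (nat_lit 516124) (nat_lit 2) (.e (nat_lit 213019) (nat_lit 9) .nil))))))) (.g (nat_lit 5) .nil .nil)))) (.nd (nat_lit 6) 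
(.lf (nat_lit 3129) (.g (nat_lit 435) (.e (nat_lit 247) (nat_lit 21) (.e (nat_lit 336004) (nat_lit 2) (.e (nat_lit 90176) (nat_lit 15) .nil))) .nil)) 
(.lf (nat_lit 3193) (.g (nat_lit 2849) (.e (nat_lit 247) (nat_lit 21) (.e (nat_lit 336012) (nat_lit 2) (.e (nat_lit 90176) (nat_lit 15) (.e (nat_lit 188450) (nat_lit 23) (.e (nat_lit 204830) (nat_lit 18) (.e (nat_lit 57776) (nat_lit 233) (.e (nat_lit 2508) (nat_lit 157) .nil))))))) (.g (nat_lit 5) .nil .nil))))))) (.nd (nat_lit 3) (.nd (nat_lit 4) (.nd (nat_lit 5) (.nd (nat_lit 6) 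
(.lf (nat_lit 3077) (.g (nat_lit 4340) (.e (nat_lit 246) (nat_lit 21) (.e (nat_lit 336011) (nat_lit 2) (.e (nat_lit 90170) (nat_lit 13) (.e (nat_lit 172113) (nat_lit 10) (.e (nat_lit 434248) (nat_lit 28) (.e (nat_lit 573475) (nat_lit 12) (.e (nat_lit 57574) (nat_lit 55) (.e (nat_lit 778359) (nat_lit 9) .nil)))))))) (.g (nat_lit 5) .nil .nil))) 
(.lf (nat_lit 3141) (.g (nat_lit 2117) (.e (nat_lit 247) (nat_lit 21) (.e (nat_lit 336004) (nat_lit 2) (.e (nat_lit 90176) (nat_lit 15) (.e (nat_lit 188450) (nat_lit 23) (.e (nat_lit 204817) (nat_lit 17) (.e (nat_lit 1915) (nat_lit 130) (.e (nat_lit 606232) (nat_lit 9) .nil))))))) (.g (nat_lit 4) .nil .nil)))) (.nd (nat_lit 6) 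
(.lf (nat_lit 3109) (.g (nat_lit 1111) (.e (nat_lit 246) (nat_lit 21) (.e (nat_lit 336223) (nat_lit 13) (.e (nat_lit 393298) (nat_lit 27) .nil))) .nil)) 
(.lf (nat_lit 3173) (.g (nat_lit 439) (.e (nat_lit 247) (nat_lit 21) (.e (nat_lit 336012) (nat_lit 2) (.e (nat_lit 90176) (nat_lit 15) .nil))) .nil)))) (.nd (nat_lit 5) (.nd (nat_lit 6) 
(.lf (nat_lit 3093) (.g (nat_lit 3793) (.e (nat_lit 246) (nat_lit 21) (.e (nat_lit 336204) (nat_lit 12) (.e (nat_lit 385074) (nat_lit 31) (.e (nat_lit 573482) (nat_lit 13) (.e (nat_lit 65619) (nat_lit 10) .nil))))) .nil)) 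
(.lf (nat_lit 3157) (.g (nat_lit 1780) (.e (nat_lit 247) (nat_lit 21) (.e (nat_lit 336004) (nat_lit 2) (.e (nat_lit 90185) (nat_lit 17) (.e (nat_lit 237616) (nat_lit 12) (.e (nat_lit 475177) (nat_lit 24) (.e (nat_lit 516137) (nat_lit 6) (.e (nat_lit 262163) (nat_lit 9) .nil))))))) (.g (nat_lit 4) .nil .nil)))) (.nd (nat_lit 6) 
(.lf (nat_lit 3125) (.g (nat_lit 1503) (.e (nat_lit 247) (nat_lit 21) (.e (nat_lit 336004) (nat_lit 2) (.e (nat_lit 90158) (nat_lit 11) (.e (nat_lit 24608) (nat_lit 3) .nil)))) .nil)) 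
(.lf (nat_lit 3189) (.g (nat_lit 2713) (.e (nat_lit 247) (nat_lit 21) (.e (nat_lit 336012) (nat_lit 2) (.e (nat_lit 90176) (nat_lit 15) (.e (nat_lit 188450) (nat_lit 23) (.e (nat_lit 204817) (nat_lit 17) (.e (nat_lit 1915) (nat_lit 130) (.e (nat_lit 606240) (nat_lit 9) .nil))))))) (.g (nat_lit 6) .nil .nil)))))) (.nd (nat_lit 4) (.nd (nat_lit 5) (.nd (nat_lit 6) 
(.lf (nat_lit 3085) (.g (nat_lit 3239) (.e (nat_lit 246) (nat_lit 21) (.e (nat_lit 336027) (nat_lit 3) (.e (nat_lit 98373) (nat_lit 29) (.e (nat_lit 450587) (nat_lit 10) (.e (nat_lit 573477) (nat_lit 12) .nil))))) .nil)) 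
(.lf (nat_lit 3149) (.g (nat_lit 2748) (.e (nat_lit 247) (nat_lit 21) (.e (nat_lit 336004) (nat_lit 2) (.e (nat_lit 90176) (nat_lit 15) (.e (nat_lit 188450) (nat_lit 23) (.e (nat_lit 204830) (nat_lit 18) (.e (nat_lit 65280) (nat_lit 233) (.e (nat_lit 2427) (nat_lit 157) .nil))))))) (.g (nat_lit 5) .nil .nil)))) (.nd (nat_lit 6) 
(.lf (nat_lit 3117) (.g (nat_lit 1755) (.e (nat_lit 247) (nat_lit 21) (.e (nat_lit 336004) (nat_lit 2) (.e (nat_lit 90158) (nat_lit 11) (.e (nat_lit 24603) (nat_lit 2) .nil)))) .nil)) 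
(.lf (nat_lit 3181) (.g (nat_lit 2062) (.e (nat_lit 247) (nat_lit 21) (.e (nat_lit 336012) (nat_lit 2) (.e (nat_lit 90176) (nat_lit 15) (.e (nat_lit 188450) (nat_lit 23) (.e (nat_lit 204815) (nat_lit 17) .nil))))) .nil)))) (.nd (nat_lit 5) (.nd (nat_lit 6) 
(.lf (nat_lit 3101) (.g (nat_lit 3489) (.e (nat_lit 246) (nat_lit 21) (.e (nat_lit 336213) (nat_lit 13) (.e (nat_lit 393301) (nat_lit 27) (.e (nat_lit 491556) (nat_lit 9) (.e (nat_lit 336051) (nat_lit 6) (.e (nat_lit 147466) (nat_lit 9) .nil)))))) (.g (nat_lit 4) .nil .nil))) 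
(.lf (nat_lit 3165) (.g (nat_lit 2009) (.e (nat_lit 247) (nat_lit 21) (.e (nat_lit 336011) (nat_lit 2) (.e (nat_lit 90170) (nat_lit 13) (.e (nat_lit 172106) (nat_lit 10) (.e (nat_lit 434231) (nat_lit 23) (.e (nat_lit 532490) (nat_lit 0) (.e (nat_lit 1040) (nat_lit 81) (.e (nat_lit 4614) (nat_lit 269) (.e (nat_lit 2454) (nat_lit 157) .nil))))))))) (.g (nat_lit 4) .nil .nil)))) (.nd (nat_lit 6) 
(.lf (nat_lit 3133) (.g (nat_lit 1065) (.e (nat_lit 247) (nat_lit 21) (.e (nat_lit 336004) (nat_lit 2) (.e (nat_lit 90176) (nat_lit 15) (.e (nat_lit 188439) (nat_lit 20) .nil)))) .nil)) 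
(.lf (nat_lit 3197) (.g (nat_lit 1688) (.e (nat_lit 247) (nat_lit 21) (.e (nat_lit 336012) (nat_lit 2) (.e (nat_lit 90176) (nat_lit 15) (.e (nat_lit 188456) (nat_lit 25) (.e (nat_lit 245773) (nat_lit 3) (.e (nat_lit 164006) (nat_lit 41) (.e (nat_lit 663574) (nat_lit 9) .nil))))))) (.g (nat_lit 4) .nil .nil)))))))) 
(.nd (nat_lit 2) (.nd (nat_lit 3) (.nd (nat_lit 4) (.nd (nat_lit 5) (.nd (nat_lit 6) 
(.lf (nat_lit 3075) (.g (nat_lit 3588) (.e (nat_lit 246) (nat_lit 21) (.e (nat_lit 336011) (nat_lit 2) (.e (nat_lit 90170) (nat_lit 13) (.e (nat_lit 172113) (nat_lit 10) (.e (nat_lit 434247) (nat_lit 28) (.e (nat_lit 573478) (nat_lit 12) (.e (nat_lit 57574) (nat_lit 55) (.e (nat_lit 778360) (nat_lit 9) .nil)))))))) (.g (nat_lit 4) .nil .nil))) 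
(.lf (nat_lit 3139) (.g (nat_lit 2009) (.e (nat_lit 247) (nat_lit 21) (.e (nat_lit 336004) (nat_lit 2) (.e (nat_lit 90176) (nat_lit 15) (.e (nat_lit 188450) (nat_lit 23) (.e (nat_lit 204816) (nat_lit 17) (.e (nat_lit 1914) (nat_lit 130) (.e (nat_lit 606234) (nat_lit 9) .nil))))))) (.g (nat_lit 4) .nil .nil)))) (.nd (nat_lit 6) 
(.lf (nat_lit 3107) (.g (nat_lit 2610) (.e (nat_lit 246) (nat_lit 21) (.e (nat_lit 336223) (nat_lit 13) (.e (nat_lit 393234) (nat_lit 17) (.e (nat_lit 7591) (nat_lit 407) (.e (nat_lit 73776) (nat_lit 26) .nil))))) .nil)) 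
(.lf (nat_lit 3171) (.g (nat_lit 3394) (.e (nat_lit 247) (nat_lit 21) (.e (nat_lit 336011) (nat_lit 2) (.e (nat_lit 90170) (nat_lit 13) (.e (nat_lit 172113) (nat_lit 10) (.e (nat_lit 434247) (nat_lit 28) (.e (nat_lit 573477) (nat_lit 12) (.e (nat_lit 57575) (nat_lit 55) (.e (nat_lit 778394) (nat_lit 9) .nil)))))))) (.g (nat_lit 4) .nil .nil))))) (.nd (nat_lit 5) (.nd (nat_lit 6) 
(.lf (nat_lit 3091) (.g (nat_lit 549) (.e (nat_lit 246) (nat_lit 21) (.e (nat_lit 336086) (nat_lit 9) (.e (nat_lit 336421) (nat_lit 28) .nil))) .nil)) 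
(.lf (nat_lit 3155) (.g (nat_lit 2154) (.e (nat_lit 247) (nat_lit 21) (.e (nat_lit 336004) (nat_lit 2) (.e (nat_lit 90185) (nat_lit 17) (.e (nat_lit 237605) (nat_lit 9) (.e (nat_lit 426436) (nat_lit 18) (.e (nat_lit 98338) (nat_lit 19) (.e (nat_lit 213013) (nat_lit 9) .nil))))))) (.g (nat_lit 5) .nil .nil)))) (.nd (nat_lit 6) 
(.lf (nat_lit 3123) (.g (nat_lit 2543) (.e (nat_lit 247) (nat_lit 21) (.e (nat_lit 336004) (nat_lit 2) (.e (nat_lit 90158) (nat_lit 11) (.e (nat_lit 24607) (nat_lit 3) (.e (nat_lit 98313) (nat_lit 9) (.e (nat_lit 336012) (nat_lit 2) (.e (nat_lit 90140) (nat_lit 9) .nil))))))) (.g (nat_lit 4) .nil .nil))) 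
(.lf (nat_lit 3187) (.g (nat_lit 2098) (.e (nat_lit 247) (nat_lit 21) (.e (nat_lit 336012) (nat_lit 2) (.e (nat_lit 90176) (nat_lit 15) (.e (nat_lit 188450) (nat_lit 23) (.e (nat_lit 204817) (nat_lit 17) (.e (nat_lit 1915) (nat_lit 130) (.e (nat_lit 606236) (nat_lit 9) .nil))))))) (.g (nat_lit 4) .nil .nil)))))) (.nd (nat_lit 4) (.nd (nat_lit 5) (.nd (nat_lit 6) 
(.lf (nat_lit 3083) (.g (nat_lit 3756) (.e (nat_lit 246) (nat_lit 21) (.e (nat_lit 336027) (nat_lit 3) (.e (nat_lit 98372) (nat_lit 29) (.e (nat_lit 450588) (nat_lit 10) (.e (nat_lit 573475) (nat_lit 12) .nil))))) .nil)) 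
(.lf (nat_lit 3147) (.g (nat_lit 2009) (.e (nat_lit 247) (nat_lit 21) (.e (nat_lit 336004) (nat_lit 2) (.e (nat_lit 90176) (nat_lit 15) (.e (nat_lit 188450) (nat_lit 23) (.e (nat_lit 204830) (nat_lit 18) .nil))))) .nil))) (.nd (nat_lit 6) 
(.lf (nat_lit 3115) (.g (nat_lit 746) (.e (nat_lit 247) (nat_lit 21) (.e (nat_lit 335996) (nat_lit 1) (.e (nat_lit 57852) (nat_lit 252) .nil))) .nil)) 
(.lf (nat_lit 3179) (.g (nat_lit 2000) (.e (nat_lit 247) (nat_lit 21) (.e (nat_lit 336012) (nat_lit 2) (.e (nat_lit 90176) (nat_lit 15) (.e (nat_lit 188447) (nat_lit 22) (.e (nat_lit 196661) (nat_lit 12) .nil))))) .nil)))) (.nd (nat_lit 5) (.nd (nat_lit 6) 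
(.lf (nat_lit 3099) (.g (nat_lit 3518) (.e (nat_lit 246) (nat_lit 21) (.e (nat_lit 336213) (nat_lit 13) (.e (nat_lit 393299) (nat_lit 27) (.e (nat_lit 491556) (nat_lit 9) (.e (nat_lit 336051) (nat_lit 6) (.e (nat_lit 147466) (nat_lit 9) .nil)))))) (.g (nat_lit 4) .nil .nil))) 
(.lf (nat_lit 3163) (.g (nat_lit 4345) (.e (nat_lit 247) (nat_lit 21) (.e (nat_lit 336011) (nat_lit 2) (.e (nat_lit 90170) (nat_lit 13) (.e (nat_lit 172106) (nat_lit 10) (.e (nat_lit 434231) (nat_lit 23) (.e (nat_lit 532483) (nat_lit 0) (.e (nat_lit 1030) (nat_lit 81) (.e (nat_lit 4602) (nat_lit 269) (.e (nat_lit 2509) (nat_lit 157) .nil))))))))) (.g (nat_lit 7) .nil .nil)))) (.nd (nat_lit 6) 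
(.lf (nat_lit 3131) (.g (nat_lit 1194) (.e (nat_lit 247) (nat_lit 21) (.e (nat_lit 336004) (nat_lit 2) (.e (nat_lit 90176) (nat_lit 15) (.e (nat_lit 196352) (nat_lit 0) .nil)))) .nil)) 
(.lf (nat_lit 3195) (.g (nat_lit 2591) (.e (nat_lit 247) (nat_lit 21) (.e (nat_lit 336012) (nat_lit 2) (.e (nat_lit 90176) (nat_lit 15) (.e (nat_lit 188450) (nat_lit 23) (.e (nat_lit 204830) (nat_lit 18) (.e (nat_lit 65280) (nat_lit 233) (.e (nat_lit 2450) (nat_lit 157) .nil))))))) (.g (nat_lit 5) .nil .nil))))))) (.nd (nat_lit 3) (.nd (nat_lit 4) (.nd (nat_lit 5) (.nd (nat_lit 6) 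
(.lf (nat_lit 3079) (.g (nat_lit 2568) (.e (nat_lit 246) (nat_lit 21) (.e (nat_lit 336021) (nat_lit 3) (.e (nat_lit 98313) (nat_lit 9) (.e (nat_lit 336004) (nat_lit 2) (.e (nat_lit 90158) (nat_lit 11) (.e (nat_lit 24604) (nat_lit 2) (.e (nat_lit 90123) (nat_lit 9) .nil))))))) (.g (nat_lit 4) .nil .nil))) 
(.lf (nat_lit 3143) (.g (nat_lit 2124) (.e (nat_lit 247) (nat_lit 21) (.e (nat_lit 336004) (nat_lit 2) (.e (nat_lit 90176) (nat_lit 15) (.e (nat_lit 188450) (nat_lit 23) (.e (nat_lit 204817) (nat_lit 17) (.e (nat_lit 1915) (nat_lit 130) (.e (nat_lit 606237) (nat_lit 9) .nil))))))) (.g (nat_lit 4) .nil .nil)))) (.nd (nat_lit 6) 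
(.lf (nat_lit 3111) (.g (nat_lit 2888) (.e (nat_lit 246) (nat_lit 21) (.e (nat_lit 336223) (nat_lit 13) (.e (nat_lit 393301) (nat_lit 27) (.e (nat_lit 491556) (nat_lit 9) (.e (nat_lit 336051) (nat_lit 6) (.e (nat_lit 147467) (nat_lit 9) .nil)))))) (.g (nat_lit 4) .nil .nil))) 
(.lf (nat_lit 3175) (.g (nat_lit 1255) (.e (nat_lit 247) (nat_lit 21) (.e (nat_lit 336012) (nat_lit 2) (.e (nat_lit 90176) (nat_lit 15) (.e (nat_lit 196352) (nat_lit 0) .nil)))) .nil)))) (.nd (nat_lit 5) (.nd (nat_lit 6) 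
(.lf (nat_lit 3095) (.g (nat_lit 2000) (.e (nat_lit 246) (nat_lit 21) (.e (nat_lit 336213) (nat_lit 13) (.e (nat_lit 393225) (nat_lit 9) (.e (nat_lit 335996) (nat_lit 1) .nil)))) .nil)) 
(.lf (nat_lit 3159) (.g (nat_lit 1406) (.e (nat_lit 247) (nat_lit 21) (.e (nat_lit 336004) (nat_lit 2) (.e (nat_lit 90185) (nat_lit 17) (.e (nat_lit 237619) (nat_lit 12) .nil)))) .nil))) (.nd (nat_lit 6) 
(.lf (nat_lit 3127) (.g (nat_lit 2274) (.e (nat_lit 247) (nat_lit 21) (.e (nat_lit 336004) (nat_lit 2) (.e (nat_lit 90158) (nat_lit 11) (.e (nat_lit 24608) (nat_lit 3) (.e (nat_lit 98313) (nat_lit 9) (.e (nat_lit 336012) (nat_lit 2) (.e (nat_lit 90137) (nat_lit 9) .nil))))))) (.g (nat_lit 4) .nil .nil))) 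
(.lf (nat_lit 3191) (.g (nat_lit 2075) (.e (nat_lit 247) (nat_lit 21) (.e (nat_lit 336012) (nat_lit 2) (.e (nat_lit 90176) (nat_lit 15) (.e (nat_lit 188450) (nat_lit 23) (.e (nat_lit 204821) (nat_lit 17) .nil))))) .nil))))) (.nd (nat_lit 4) (.nd (nat_lit 5) (.nd (nat_lit 6) 
(.lf (nat_lit 3087) (.g (nat_lit 2084) (.e (nat_lit 246) (nat_lit 21) (.e (nat_lit 336078) (nat_lit 9) (.e (nat_lit 336454) (nat_lit 34) (.e (nat_lit 483363) (nat_lit 18) (.e (nat_lit 57847) (nat_lit 252) (.e (nat_lit 57372) (nat_lit 2) (.e (nat_lit 90128) (nat_lit 9) .nil))))))) (.g (nat_lit 4) .nil .nil))) 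
(.lf (nat_lit 3151) (.g (nat_lit 2516) (.e (nat_lit 247) (nat_lit 21) (.e (nat_lit 336004) (nat_lit 2) (.e (nat_lit 90176) (nat_lit 15) (.e (nat_lit 188450) (nat_lit 23) (.e (nat_lit 204830) (nat_lit 18) (.e (nat_lit 65280) (nat_lit 233) (.e (nat_lit 2458) (nat_lit 157) .nil))))))) (.g (nat_lit 5) .nil .nil)))) (.nd (nat_lit 6) 
(.lf (nat_lit 3119) (.g (nat_lit 2012) (.e (nat_lit 247) (nat_lit 21) (.e (nat_lit 336004) (nat_lit 2) (.e (nat_lit 90158) (nat_lit 11) (.e (nat_lit 24605) (nat_lit 2) .nil)))) .nil)) 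
(.lf (nat_lit 3183) (.g (nat_lit 2062) (.e (nat_lit 247) (nat_lit 21) (.e (nat_lit 336012) (nat_lit 2) (.e (nat_lit 90176) (nat_lit 15) (.e (nat_lit 188450) (nat_lit 23) (.e (nat_lit 204817) (nat_lit 17) .nil))))) .nil)))) (.nd (nat_lit 5) (.nd (nat_lit 6) 
(.lf (nat_lit 3103) (.g (nat_lit 2262) (.e (nat_lit 246) (nat_lit 21) (.e (nat_lit 336220) (nat_lit 13) (.e (nat_lit 393300) (nat_lit 27) (.e (nat_lit 491556) (nat_lit 9) (.e (nat_lit 336051) (nat_lit 6) .nil))))) .nil)) 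
(.lf (nat_lit 3167) (.g (nat_lit 1788) (.e (nat_lit 247) (nat_lit 21) (.e (nat_lit 336011) (nat_lit 2) (.e (nat_lit 90170) (nat_lit 13) (.e (nat_lit 172106) (nat_lit 10) (.e (nat_lit 434244) (nat_lit 28) .nil))))) .nil))) (.nd (nat_lit 6) 
(.lf (nat_lit 3135) (.g (nat_lit 2020) (.e (nat_lit 247) (nat_lit 21) (.e (nat_lit 336004) (nat_lit 2) (.e (nat_lit 90176) (nat_lit 15) (.e (nat_lit 188447) (nat_lit 22) (.e (nat_lit 196661) (nat_lit 12) (.e (nat_lit 57492) (nat_lit 34) (.e (nat_lit 606233) (nat_lit 9) .nil))))))) (.g (nat_lit 4) .nil .nil))) 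
(.lf (nat_lit 3199) (.g (nat_lit 1189) (.e (nat_lit 247) (nat_lit 21) (.e (nat_lit 336012) (nat_lit 2) (.e (nat_lit 90178) (nat_lit 15) (.e (nat_lit 188418) (nat_lit 0) .nil)))) .nil)))))))))

noncomputable def tv043 : DT := (.nd (nat_lit 0) (.nd (nat_lit 1) (.nd (nat_lit 2) (.nd (nat_lit 3) (.nd (nat_lit 4) (.nd (nat_lit 5) 
(.lf (nat_lit 3200) (.g (nat_lit 1362) (.e (nat_lit 247) (nat_lit 21) (.e (nat_lit 336012) (nat_lit 2) (.e (nat_lit 90178) (nat_lit 15) (.e (nat_lit 196352) (nat_lit 3) .nil)))) .nil)) 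
(.lf (nat_lit 3232) (.g (nat_lit 2245) (.e (nat_lit 247) (nat_lit 21) (.e (nat_lit 336027) (nat_lit 3) (.e (nat_lit 98372) (nat_lit 29) (.e (nat_lit 450579) (nat_lit 5) (.e (nat_lit 532503) (nat_lit 1) (.e (nat_lit 57778) (nat_lit 233) (.e (nat_lit 2442) (nat_lit 157) .nil))))))) (.g (nat_lit 4) .nil .nil)))) (.nd (nat_lit 5) 
(.lf (nat_lit 3216) (.g (nat_lit 490) (.e (nat_lit 247) (nat_lit 21) (.e (nat_lit 336027) (nat_lit 3) (.e (nat_lit 98363) (nat_lit 26) .nil))) .nil)) 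
(.lf (nat_lit 3248) (.g (nat_lit 2303) (.e (nat_lit 247) (nat_lit 21) (.e (nat_lit 336027) (nat_lit 3) (.e (nat_lit 98372) (nat_lit 29) (.e (nat_lit 450586) (nat_lit 10) (.e (nat_lit 573475) (nat_lit 12) (.e (nat_lit 57573) (nat_lit 55) (.e (nat_lit 778421) (nat_lit 9) .nil))))))) (.g (nat_lit 4) .nil .nil))))) (.nd (nat_lit 4) (.nd (nat_lit 5) 
(.lf (nat_lit 3208) (.g (nat_lit 2135) (.e (nat_lit 247) (nat_lit 21) (.e (nat_lit 336012) (nat_lit 2) (.e (nat_lit 90185) (nat_lit 17) (.e (nat_lit 237619) (nat_lit 12) (.e (nat_lit 475177) (nat_lit 24) (.e (nat_lit 516124) (nat_lit 2) (.e (nat_lit 213019) (nat_lit 9) .nil))))))) (.g (nat_lit 5) .nil .nil))) 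
(.lf (nat_lit 3240) (.g (nat_lit 3389) (.e (nat_lit 247) (nat_lit 21) (.e (nat_lit 336027) (nat_lit 3) (.e (nat_lit 98372) (nat_lit 29) (.e (nat_lit 450579) (nat_lit 5) (.e (nat_lit 532504) (nat_lit 1) (.e (nat_lit 57777) (nat_lit 233) (.e (nat_lit 2442) (nat_lit 157) .nil))))))) (.g (nat_lit 0) .nil .nil)))) (.nd (nat_lit 5) 
(.lf (nat_lit 3224) (.g (nat_lit 3461) (.e (nat_lit 247) (nat_lit 21) (.e (nat_lit 336027) (nat_lit 3) (.e (nat_lit 98372) (nat_lit 29) (.e (nat_lit 450579) (nat_lit 5) (.e (nat_lit 532501) (nat_lit 1) (.e (nat_lit 57777) (nat_lit 233) (.e (nat_lit 2479) (nat_lit 157) .nil))))))) (.g (nat_lit 7) .nil .nil))) 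
(.lf (nat_lit 3256) (.g (nat_lit 2249) (.e (nat_lit 247) (nat_lit 21) (.e (nat_lit 336027) (nat_lit 3) (.e (nat_lit 98372) (nat_lit 29) (.e (nat_lit 450586) (nat_lit 10) (.e (nat_lit 573477) (nat_lit 12) (.e (nat_lit 57574) (nat_lit 55) (.e (nat_lit 778365) (nat_lit 9) .nil))))))) (.g (nat_lit 4) .nil .nil)))))) (.nd (nat_lit 3) (.nd (nat_lit 4) (.nd (nat_lit 5) 
(.lf (nat_lit 3204) (.g (nat_lit 1148) (.e (nat_lit 247) (nat_lit 21) (.e (nat_lit 336012) (nat_lit 2) (.e (nat_lit 90185) (nat_lit 17) (.e (nat_lit 237616) (nat_lit 12) .nil)))) .nil)) 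
(.lf (nat_lit 3236) (.g (nat_lit 3716) (.e (nat_lit 247) (nat_lit 21) (.e (nat_lit 336027) (nat_lit 3) (.e (nat_lit 98372) (nat_lit 29) (.e (nat_lit 450579) (nat_lit 5) (.e (nat_lit 532504) (nat_lit 1) (.e (nat_lit 57776) (nat_lit 233) (.e (nat_lit 2509) (nat_lit 157) .nil))))))) (.g (nat_lit 0) .nil .nil)))) (.nd (nat_lit 5) 
(.lf (nat_lit 3220) (.g (nat_lit 2176) (.e (nat_lit 247) (nat_lit 21) (.e (nat_lit 336027) (nat_lit 3) (.e (nat_lit 98372) (nat_lit 29) (.e (nat_lit 450579) (nat_lit 5) (.e (nat_lit 532501) (nat_lit 1) .nil))))) .nil)) 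
(.lf (nat_lit 3252) (.g (nat_lit 2190) (.e (nat_lit 247) (nat_lit 21) (.e (nat_lit 336027) (nat_lit 3) (.e (nat_lit 98372) (nat_lit 29) (.e (nat_lit 450586) (nat_lit 10) (.e (nat_lit 573475) (nat_lit 12) (.e (nat_lit 57574) (nat_lit 55) (.e (nat_lit 778385) (nat_lit 9) .nil))))))) (.g (nat_lit 4) .nil .nil))))) (.nd (nat_lit 4) (.nd (nat_lit 5) 
(.lf (nat_lit 3212) (.g (nat_lit 1970) (.e (nat_lit 247) (nat_lit 21) (.e (nat_lit 336021) (nat_lit 3) (.e (nat_lit 98313) (nat_lit 9) (.e (nat_lit 336021) (nat_lit 3) .nil)))) .nil)) 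
(.lf (nat_lit 3244) (.g (nat_lit 3391) (.e (nat_lit 247) (nat_lit 21) (.e (nat_lit 336027) (nat_lit 3) (.e (nat_lit 98372) (nat_lit 29) (.e (nat_lit 450579) (nat_lit 5) (.e (nat_lit 532504) (nat_lit 1) (.e (nat_lit 57777) (nat_lit 233) (.e (nat_lit 2505) (nat_lit 157) .nil))))))) (.g (nat_lit 0) .nil .nil)))) (.nd (nat_lit 5) 
(.lf (nat_lit 3228) (.g (nat_lit 2201) (.e (nat_lit 247) (nat_lit 21) (.e (nat_lit 336027) (nat_lit 3) (.e (nat_lit 98372) (nat_lit 29) (.e (nat_lit 450579) (nat_lit 5) (.e (nat_lit 532503) (nat_lit 1) (.e (nat_lit 57776) (nat_lit 233) (.e (nat_lit 2508) (nat_lit 157) .nil))))))) (.g (nat_lit 4) .nil .nil))) 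
(.lf (nat_lit 3260) (.g (nat_lit 3776) (.e (nat_lit 247) (nat_lit 21) (.e (nat_lit 336027) (nat_lit 3) (.e (nat_lit 98372) (nat_lit 29) (.e (nat_lit 450586) (nat_lit 10) (.e (nat_lit 573477) (nat_lit 12) (.e (nat_lit 57575) (nat_lit 55) (.e (nat_lit 778363) (nat_lit 9) .nil))))))) (.g (nat_lit 6) .nil .nil))))))) (.nd (nat_lit 2) (.nd (nat_lit 3) (.nd (nat_lit 4) (.nd (nat_lit 5) 
(.lf (nat_lit 3202) (.g (nat_lit 2214) (.e (nat_lit 247) (nat_lit 21) (.e (nat_lit 336012) (nat_lit 2) (.e (nat_lit 90185) (nat_lit 17) (.e (nat_lit 237601) (nat_lit 9) (.e (nat_lit 426436) (nat_lit 18) (.e (nat_lit 98338) (nat_lit 19) (.e (nat_lit 213013) (nat_lit 9) .nil))))))) (.g (nat_lit 5) .nil .nil))) 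
(.lf (nat_lit 3234) (.g (nat_lit 2209) (.e (nat_lit 247) (nat_lit 21) (.e (nat_lit 336027) (nat_lit 3) (.e (nat_lit 98372) (nat_lit 29) (.e (nat_lit 450579) (nat_lit 5) (.e (nat_lit 532504) (nat_lit 1) .nil))))) .nil))) (.nd (nat_lit 5) 
(.lf (nat_lit 3218) (.g (nat_lit 2349) (.e (nat_lit 247) (nat_lit 21) (.e (nat_lit 336027) (nat_lit 3) (.e (nat_lit 98372) (nat_lit 29) (.e (nat_lit 450579) (nat_lit 5) (.e (nat_lit 532484) (nat_lit 0) .nil))))) .nil)) 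
(.lf (nat_lit 3250) (.g (nat_lit 2270) (.e (nat_lit 247) (nat_lit 21) (.e (nat_lit 336027) (nat_lit 3) (.e (nat_lit 98372) (nat_lit 29) (.e (nat_lit 450586) (nat_lit 10) (.e (nat_lit 573475) (nat_lit 12) (.e (nat_lit 57574) (nat_lit 55) (.e (nat_lit 778379) (nat_lit 9) .nil))))))) (.g (nat_lit 4) .nil .nil))))) (.nd (nat_lit 4) (.nd (nat_lit 5) 
(.lf (nat_lit 3210) (.g (nat_lit 2361) (.e (nat_lit 247) (nat_lit 21) (.e (nat_lit 336021) (nat_lit 3) (.e (nat_lit 98313) (nat_lit 9) (.e (nat_lit 336004) (nat_lit 2) (.e (nat_lit 90158) (nat_lit 11) .nil))))) .nil)) 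
(.lf (nat_lit 3242) (.g (nat_lit 3324) (.e (nat_lit 247) (nat_lit 21) (.e (nat_lit 336027) (nat_lit 3) (.e (nat_lit 98372) (nat_lit 29) (.e (nat_lit 450579) (nat_lit 5) (.e (nat_lit 532504) (nat_lit 1) (.e (nat_lit 57777) (nat_lit 233) (.e (nat_lit 2477) (nat_lit 157) .nil))))))) (.g (nat_lit 0) .nil .nil)))) (.nd (nat_lit 5) 
(.lf (nat_lit 3226) (.g (nat_lit 2075) (.e (nat_lit 247) (nat_lit 21) (.e (nat_lit 336027) (nat_lit 3) (.e (nat_lit 98372) (nat_lit 29) (.e (nat_lit 450579) (nat_lit 5) (.e (nat_lit 532503) (nat_lit 1) .nil))))) .nil)) 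
(.lf (nat_lit 3258) (.g (nat_lit 2951) (.e (nat_lit 247) (nat_lit 21) (.e (nat_lit 336027) (nat_lit 3) (.e (nat_lit 98372) (nat_lit 29) (.e (nat_lit 450586) (nat_lit 10) (.e (nat_lit 573477) (nat_lit 12) (.e (nat_lit 57575) (nat_lit 55) (.e (nat_lit 778353) (nat_lit 9) .nil))))))) (.g (nat_lit 5) .nil .nil)))))) (.nd (nat_lit 3) (.nd (nat_lit 4) (.nd (nat_lit 5) 
(.lf (nat_lit 3206) (.g (nat_lit 2142) (.e (nat_lit 247) (nat_lit 21) (.e (nat_lit 336012) (nat_lit 2) (.e (nat_lit 90185) (nat_lit 17) (.e (nat_lit 237616) (nat_lit 12) (.e (nat_lit 475179) (nat_lit 24) (.e (nat_lit 516124) (nat_lit 2) (.e (nat_lit 213019) (nat_lit 9) .nil))))))) (.g (nat_lit 5) .nil .nil))) 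
(.lf (nat_lit 3238) (.g (nat_lit 2253) (.e (nat_lit 247) (nat_lit 21) (.e (nat_lit 336027) (nat_lit 3) (.e (nat_lit 98372) (nat_lit 29) (.e (nat_lit 450579) (nat_lit 5) (.e (nat_lit 532504) (nat_lit 1) (.e (nat_lit 57776) (nat_lit 233) (.e (nat_lit 2517) (nat_lit 157) .nil))))))) (.g (nat_lit 4) .nil .nil)))) (.nd (nat_lit 5) 
(.lf (nat_lit 3222) (.g (nat_lit 3503) (.e (nat_lit 247) (nat_lit 21) (.e (nat_lit 336027) (nat_lit 3) (.e (nat_lit 98372) (nat_lit 29) (.e (nat_lit 450579) (nat_lit 5) (.e (nat_lit 532501) (nat_lit 1) (.e (nat_lit 57777) (nat_lit 233) (.e (nat_lit 2442) (nat_lit 157) .nil))))))) (.g (nat_lit 0) .nil .nil))) 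
(.lf (nat_lit 3254) (.g (nat_lit 3024) (.e (nat_lit 247) (nat_lit 21) (.e (nat_lit 336027) (nat_lit 3) (.e (nat_lit 98372) (nat_lit 29) (.e (nat_lit 450586) (nat_lit 10) (.e (nat_lit 573477) (nat_lit 12) (.e (nat_lit 57574) (nat_lit 55) (.e (nat_lit 778359) (nat_lit 9) .nil))))))) (.g (nat_lit 6) .nil .nil))))) (.nd (nat_lit 4) (.nd (nat_lit 5) 
(.lf (nat_lit 3214) (.g (nat_lit 1946) (.e (nat_lit 247) (nat_lit 21) (.e (nat_lit 336021) (nat_lit 3) (.e (nat_lit 98313) (nat_lit 9) (.e (nat_lit 336027) (nat_lit 3) .nil)))) .nil)) 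
(.lf (nat_lit 3246) (.g (nat_lit 2255) (.e (nat_lit 247) (nat_lit 21) (.e (nat_lit 336027) (nat_lit 3) (.e (nat_lit 98372) (nat_lit 29) (.e (nat_lit 450586) (nat_lit 10) (.e (nat_lit 573456) (nat_lit 9) .nil))))) .nil))) (.nd (nat_lit 5) 
(.lf (nat_lit 3230) (.g (nat_lit 2131) (.e (nat_lit 247) (nat_lit 21) (.e (nat_lit 336027) (nat_lit 3) (.e (nat_lit 98372) (nat_lit 29) (.e (nat_lit 450579) (nat_lit 5) (.e (nat_lit 532503) (nat_lit 1) (.e (nat_lit 57776) (nat_lit 233) (.e (nat_lit 2510) (nat_lit 157) .nil))))))) (.g (nat_lit 4) .nil .nil))) 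
(.lf (nat_lit 3262) (.g (nat_lit 3736) (.e (nat_lit 247) (nat_lit 21) (.e (nat_lit 336027) (nat_lit 3) (.e (nat_lit 98372) (nat_lit 29) (.e (nat_lit 450586) (nat_lit 10) (.e (nat_lit 573477) (nat_lit 12) (.e (nat_lit 57575) (nat_lit 55) (.e (nat_lit 778365) (nat_lit 9) .nil))))))) (.g (nat_lit 6) .nil .nil)))))))) 
(.nd (nat_lit 1) (.nd (nat_lit 2) (.nd (nat_lit 3) (.nd (nat_lit 4) (.nd (nat_lit 5) 
(.lf (nat_lit 3201) (.g (nat_lit 1239) (.e (nat_lit 247) (nat_lit 21) (.e (nat_lit 336012) (nat_lit 2) (.e (nat_lit 90185) (nat_lit 17) (.e (nat_lit 237601) (nat_lit 9) .nil)))) .nil)) 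
(.lf (nat_lit 3233) (.g (nat_lit 2138) (.e (nat_lit 247) (nat_lit 21) (.e (nat_lit 336027) (nat_lit 3) (.e (nat_lit 98372) (nat_lit 29) (.e (nat_lit 450579) (nat_lit 5) (.e (nat_lit 532503) (nat_lit 1) (.e (nat_lit 57778) (nat_lit 233) (.e (nat_lit 2454) (nat_lit 157) .nil))))))) (.g (nat_lit 4) .nil .nil)))) (.nd (nat_lit 5) 
(.lf (nat_lit 3217) (.g (nat_lit 1906) (.e (nat_lit 247) (nat_lit 21) (.e (nat_lit 336027) (nat_lit 3) (.e (nat_lit 98372) (nat_lit 29) (.e (nat_lit 458496) (nat_lit 3) .nil)))) .nil)) 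
(.lf (nat_lit 3249) (.g (nat_lit 3021) (.e (nat_lit 247) (nat_lit 21) (.e (nat_lit 336027) (nat_lit 3) (.e (nat_lit 98372) (nat_lit 29) (.e (nat_lit 450586) (nat_lit 10) (.e (nat_lit 573475) (nat_lit 12) (.e (nat_lit 57574) (nat_lit 55) (.e (nat_lit 778366) (nat_lit 9) .nil))))))) (.g (nat_lit 5) .nil .nil))))) (.nd (nat_lit 4) (.nd (nat_lit 5) 
(.lf (nat_lit 3209) (.g (nat_lit 2294) (.e (nat_lit 247) (nat_lit 21) (.e (nat_lit 336012) (nat_lit 2) (.e (nat_lit 90185) (nat_lit 17) (.e (nat_lit 237619) (nat_lit 12) (.e (nat_lit 475179) (nat_lit 24) (.e (nat_lit 516124) (nat_lit 2) (.e (nat_lit 213019) (nat_lit 9) .nil))))))) (.g (nat_lit 5) .nil .nil))) 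
(.lf (nat_lit 3241) (.g (nat_lit 3239) (.e (nat_lit 247) (nat_lit 21) (.e (nat_lit 336027) (nat_lit 3) (.e (nat_lit 98372) (nat_lit 29) (.e (nat_lit 450579) (nat_lit 5) (.e (nat_lit 532504) (nat_lit 1) (.e (nat_lit 57777) (nat_lit 233) (.e (nat_lit 2451) (nat_lit 157) .nil))))))) (.g (nat_lit 7) .nil .nil)))) (.nd (nat_lit 5) 
(.lf (nat_lit 3225) (.g (nat_lit 3515) (.e (nat_lit 247) (nat_lit 21) (.e (nat_lit 336027) (nat_lit 3) (.e (nat_lit 98372) (nat_lit 29) (.e (nat_lit 450579) (nat_lit 5) (.e (nat_lit 532501) (nat_lit 1) (.e (nat_lit 57777) (nat_lit 233) (.e (nat_lit 2505) (nat_lit 157) .nil))))))) (.g (nat_lit 0) .nil .nil))) 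
(.lf (nat_lit 3257) (.g (nat_lit 2568) (.e (nat_lit 247) (nat_lit 21) (.e (nat_lit 336027) (nat_lit 3) (.e (nat_lit 98372) (nat_lit 29) (.e (nat_lit 450586) (nat_lit 10) (.e (nat_lit 573477) (nat_lit 12) (.e (nat_lit 57574) (nat_lit 55) (.e (nat_lit 778381) (nat_lit 9) .nil))))))) (.g (nat_lit 5) .nil .nil)))))) (.nd (nat_lit 3) (.nd (nat_lit 4) (.nd (nat_lit 5) 
(.lf (nat_lit 3205) (.g (nat_lit 1999) (.e (nat_lit 247) (nat_lit 21) (.e (nat_lit 336012) (nat_lit 2) (.e (nat_lit 90185) (nat_lit 17) (.e (nat_lit 237616) (nat_lit 12) (.e (nat_lit 475177) (nat_lit 24) (.e (nat_lit 516124) (nat_lit 2) (.e (nat_lit 213019) (nat_lit 9) .nil))))))) (.g (nat_lit 5) .nil .nil))) 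
(.lf (nat_lit 3237) (.g (nat_lit 2248) (.e (nat_lit 247) (nat_lit 21) (.e (nat_lit 336027) (nat_lit 3) (.e (nat_lit 98372) (nat_lit 29) (.e (nat_lit 450579) (nat_lit 5) (.e (nat_lit 532504) (nat_lit 1) (.e (nat_lit 57776) (nat_lit 233) (.e (nat_lit 2513) (nat_lit 157) .nil))))))) (.g (nat_lit 4) .nil .nil)))) (.nd (nat_lit 5) 
(.lf (nat_lit 3221) (.g (nat_lit 3204) (.e (nat_lit 247) (nat_lit 21) (.e (nat_lit 336027) (nat_lit 3) (.e (nat_lit 98372) (nat_lit 29) (.e (nat_lit 450579) (nat_lit 5) (.e (nat_lit 532501) (nat_lit 1) (.e (nat_lit 57777) (nat_lit 233) (.e (nat_lit 2416) (nat_lit 157) .nil))))))) (.g (nat_lit 5) .nil .nil))) 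
(.lf (nat_lit 3253) (.g (nat_lit 2202) (.e (nat_lit 247) (nat_lit 21) (.e (nat_lit 336027) (nat_lit 3) (.e (nat_lit 98372) (nat_lit 29) (.e (nat_lit 450586) (nat_lit 10) (.e (nat_lit 573477) (nat_lit 12) .nil))))) .nil)))) (.nd (nat_lit 4) (.nd (nat_lit 5) 
(.lf (nat_lit 3213) (.g (nat_lit 2608) (.e (nat_lit 247) (nat_lit 21) (.e (nat_lit 336021) (nat_lit 3) (.e (nat_lit 98313) (nat_lit 9) (.e (nat_lit 336021) (nat_lit 3) (.e (nat_lit 98313) (nat_lit 9) .nil))))) .nil)) 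
(.lf (nat_lit 3245) (.g (nat_lit 1549) (.e (nat_lit 247) (nat_lit 21) (.e (nat_lit 336027) (nat_lit 3) (.e (nat_lit 98372) (nat_lit 29) (.e (nat_lit 450586) (nat_lit 10) .nil)))) .nil))) (.nd (nat_lit 5) 
(.lf (nat_lit 3229) (.g (nat_lit 2111) (.e (nat_lit 247) (nat_lit 21) (.e (nat_lit 336027) (nat_lit 3) (.e (nat_lit 98372) (nat_lit 29) (.e (nat_lit 450579) (nat_lit 5) (.e (nat_lit 532503) (nat_lit 1) (.e (nat_lit 57776) (nat_lit 233) (.e (nat_lit 2509) (nat_lit 157) .nil))))))) (.g (nat_lit 4) .nil .nil))) 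
(.lf (nat_lit 3261) (.g (nat_lit 3753) (.e (nat_lit 247) (nat_lit 21) (.e (nat_lit 336027) (nat_lit 3) (.e (nat_lit 98372) (nat_lit 29) (.e (nat_lit 450586) (nat_lit 10) (.e (nat_lit 573477) (nat_lit 12) (.e (nat_lit 57575) (nat_lit 55) (.e (nat_lit 778364) (nat_lit 9) .nil))))))) (.g (nat_lit 6) .nil .nil))))))) (.nd (nat_lit 2) (.nd (nat_lit 3) (.nd (nat_lit 4) (.nd (nat_lit 5) 
(.lf (nat_lit 3203) (.g (nat_lit 2356) (.e (nat_lit 247) (nat_lit 21) (.e (nat_lit 336012) (nat_lit 2) (.e (nat_lit 90185) (nat_lit 17) (.e (nat_lit 237605) (nat_lit 9) (.e (nat_lit 426436) (nat_lit 18) (.e (nat_lit 98338) (nat_lit 19) (.e (nat_lit 213013) (nat_lit 9) .nil))))))) (.g (nat_lit 5) .nil .nil))) 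
(.lf (nat_lit 3235) (.g (nat_lit 3686) (.e (nat_lit 247) (nat_lit 21) (.e (nat_lit 336027) (nat_lit 3) (.e (nat_lit 98372) (nat_lit 29) (.e (nat_lit 450579) (nat_lit 5) (.e (nat_lit 532504) (nat_lit 1) (.e (nat_lit 57776) (nat_lit 233) (.e (nat_lit 2505) (nat_lit 157) .nil))))))) (.g (nat_lit 7) .nil .nil)))) (.nd (nat_lit 5) 
(.lf (nat_lit 3219) (.g (nat_lit 2259) (.e (nat_lit 247) (nat_lit 21) (.e (nat_lit 336027) (nat_lit 3) (.e (nat_lit 98372) (nat_lit 29) (.e (nat_lit 450579) (nat_lit 5) (.e (nat_lit 532499) (nat_lit 1) .nil))))) .nil)) 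
(.lf (nat_lit 3251) (.g (nat_lit 2986) (.e (nat_lit 247) (nat_lit 21) (.e (nat_lit 336027) (nat_lit 3) (.e (nat_lit 98372) (nat_lit 29) (.e (nat_lit 450586) (nat_lit 10) (.e (nat_lit 573475) (nat_lit 12) (.e (nat_lit 57574) (nat_lit 55) (.e (nat_lit 778381) (nat_lit 9) .nil))))))) (.g (nat_lit 5) .nil .nil))))) (.nd (nat_lit 4) (.nd (nat_lit 5) 
(.lf (nat_lit 3211) (.g (nat_lit 2425) (.e (nat_lit 247) (nat_lit 21) (.e (nat_lit 336021) (nat_lit 3) (.e (nat_lit 98313) (nat_lit 9) (.e (nat_lit 336012) (nat_lit 2) (.e (nat_lit 90158) (nat_lit 11) .nil))))) .nil)) 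
(.lf (nat_lit 3243) (.g (nat_lit 3349) (.e (nat_lit 247) (nat_lit 21) (.e (nat_lit 336027) (nat_lit 3) (.e (nat_lit 98372) (nat_lit 29) (.e (nat_lit 450579) (nat_lit 5) (.e (nat_lit 532504) (nat_lit 1) (.e (nat_lit 57777) (nat_lit 233) (.e (nat_lit 2479) (nat_lit 157) .nil))))))) (.g (nat_lit 0) .nil .nil)))) (.nd (nat_lit 5) 
(.lf (nat_lit 3227) (.g (nat_lit 2078) (.e (nat_lit 247) (nat_lit 21) (.e (nat_lit 336027) (nat_lit 3) (.e (nat_lit 98372) (nat_lit 29) (.e (nat_lit 450579) (nat_lit 5) (.e (nat_lit 532503) (nat_lit 1) (.e (nat_lit 57776) (nat_lit 233) (.e (nat_lit 2505) (nat_lit 157) .nil))))))) (.g (nat_lit 4) .nil .nil))) 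
(.lf (nat_lit 3259) (.g (nat_lit 2958) (.e (nat_lit 247) (nat_lit 21) (.e (nat_lit 336027) (nat_lit 3) (.e (nat_lit 98372) (nat_lit 29) (.e (nat_lit 450586) (nat_lit 10) (.e (nat_lit 573477) (nat_lit 12) (.e (nat_lit 57575) (nat_lit 55) (.e (nat_lit 778359) (nat_lit 9) .nil))))))) (.g (nat_lit 5) .nil .nil)))))) (.nd (nat_lit 3) (.nd (nat_lit 4) (.nd (nat_lit 5) 
(.lf (nat_lit 3207) (.g (nat_lit 1108) (.e (nat_lit 247) (nat_lit 21) (.e (nat_lit 336012) (nat_lit 2) (.e (nat_lit 90185) (nat_lit 17) (.e (nat_lit 237619) (nat_lit 12) .nil)))) .nil)) 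
(.lf (nat_lit 3239) (.g (nat_lit 3080) (.e (nat_lit 247) (nat_lit 21) (.e (nat_lit 336027) (nat_lit 3) (.e (nat_lit 98372) (nat_lit 29) (.e (nat_lit 450579) (nat_lit 5) (.e (nat_lit 532504) (nat_lit 1) (.e (nat_lit 57777) (nat_lit 233) (.e (nat_lit 2416) (nat_lit 157) .nil))))))) (.g (nat_lit 5) .nil .nil)))) (.nd (nat_lit 5) 
(.lf (nat_lit 3223) (.g (nat_lit 3351) (.e (nat_lit 247) (nat_lit 21) (.e (nat_lit 336027) (nat_lit 3) (.e (nat_lit 98372) (nat_lit 29) (.e (nat_lit 450579) (nat_lit 5) (.e (nat_lit 532501) (nat_lit 1) (.e (nat_lit 57777) (nat_lit 233) (.e (nat_lit 2451) (nat_lit 157) .nil))))))) (.g (nat_lit 7) .nil .nil))) 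
(.lf (nat_lit 3255) (.g (nat_lit 2498) (.e (nat_lit 247) (nat_lit 21) (.e (nat_lit 336027) (nat_lit 3) (.e (nat_lit 98372) (nat_lit 29) (.e (nat_lit 450586) (nat_lit 10) (.e (nat_lit 573477) (nat_lit 12) (.e (nat_lit 57574) (nat_lit 55) (.e (nat_lit 778364) (nat_lit 9) .nil))))))) (.g (nat_lit 5) .nil .nil))))) (.nd (nat_lit 4) (.nd (nat_lit 5) 
(.lf (nat_lit 3215) (.g (nat_lit 2560) (.e (nat_lit 247) (nat_lit 21) (.e (nat_lit 336021) (nat_lit 3) (.e (nat_lit 98313) (nat_lit 9) (.e (nat_lit 336027) (nat_lit 3) (.e (nat_lit 98313) (nat_lit 9) .nil))))) .nil)) 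
(.lf (nat_lit 3247) (.g (nat_lit 2171) (.e (nat_lit 247) (nat_lit 21) (.e (nat_lit 336027) (nat_lit 3) (.e (nat_lit 98372) (nat_lit 29) (.e (nat_lit 450586) (nat_lit 10) (.e (nat_lit 573475) (nat_lit 12) .nil))))) .nil))) (.nd (nat_lit 5) 
(.lf (nat_lit 3231) (.g (nat_lit 2275) (.e (nat_lit 247) (nat_lit 21) (.e (nat_lit 336027) (nat_lit 3) (.e (nat_lit 98372) (nat_lit 29) (.e (nat_lit 450579) (nat_lit 5) (.e (nat_lit 532503) (nat_lit 1) (.e (nat_lit 57777) (nat_lit 233) (.e (nat_lit 2416) (nat_lit 157) .nil))))))) (.g (nat_lit 4) .nil .nil))) 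
(.lf (nat_lit 3263) (.g (nat_lit 3746) (.e (nat_lit 247) (nat_lit 21) (.e (nat_lit 336027) (nat_lit 3) (.e (nat_lit 98372) (nat_lit 29) (.e (nat_lit 450586) (nat_lit 10) (.e (nat_lit 573477) (nat_lit 12) (.e (nat_lit 57575) (nat_lit 55) (.e (nat_lit 778366) (nat_lit 9) .nil))))))) (.g (nat_lit 6) .nil .nil)))))))))

noncomputable def tv044 : DT := (.nd (nat_lit 0) (.nd (nat_lit 1) (.nd (nat_lit 2) (.nd (nat_lit 3) (.nd (nat_lit 4) (.nd (nat_lit 5) 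
(.lf (nat_lit 3264) (.g (nat_lit 3912) (.e (nat_lit 247) (nat_lit 21) (.e (nat_lit 336027) (nat_lit 3) (.e (nat_lit 98372) (nat_lit 29) (.e (nat_lit 450586) (nat_lit 10) (.e (nat_lit 573477) (nat_lit 12) (.e (nat_lit 57575) (nat_lit 55) (.e (nat_lit 778381) (nat_lit 9) .nil))))))) (.g (nat_lit 6) .nil .nil))) 
(.lf (nat_lit 3296) (.g (nat_lit 2909) (.e (nat_lit 247) (nat_lit 21) (.e (nat_lit 336027) (nat_lit 3) (.e (nat_lit 98373) (nat_lit 29) (.e (nat_lit 450587) (nat_lit 10) (.e (nat_lit 573478) (nat_lit 12) (.e (nat_lit 57574) (nat_lit 55) (.e (nat_lit 778363) (nat_lit 9) .nil))))))) (.g (nat_lit 4) .nil .nil)))) (.nd (nat_lit 5) 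
(.lf (nat_lit 3280) (.g (nat_lit 3007) (.e (nat_lit 247) (nat_lit 21) (.e (nat_lit 336027) (nat_lit 3) (.e (nat_lit 98373) (nat_lit 29) (.e (nat_lit 450587) (nat_lit 10) (.e (nat_lit 573475) (nat_lit 12) (.e (nat_lit 57346) (nat_lit 0) (.e (nat_lit 7461) (nat_lit 396) (.e (nat_lit 2448) (nat_lit 157) .nil)))))))) (.g (nat_lit 4) .nil .nil))) 
(.lf (nat_lit 3312) (.g (nat_lit 630) (.e (nat_lit 247) (nat_lit 21) (.e (nat_lit 336078) (nat_lit 9) (.e (nat_lit 336454) (nat_lit 34) .nil))) .nil)))) (.nd (nat_lit 4) (.nd (nat_lit 5) 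
(.lf (nat_lit 3272) (.g (nat_lit 2717) (.e (nat_lit 247) (nat_lit 21) (.e (nat_lit 336027) (nat_lit 3) (.e (nat_lit 98373) (nat_lit 29) (.e (nat_lit 450586) (nat_lit 10) (.e (nat_lit 573477) (nat_lit 12) .nil))))) .nil)) 
(.lf (nat_lit 3304) (.g (nat_lit 2976) (.e (nat_lit 247) (nat_lit 21) (.e (nat_lit 336027) (nat_lit 3) (.e (nat_lit 98373) (nat_lit 29) (.e (nat_lit 450588) (nat_lit 10) (.e (nat_lit 573475) (nat_lit 12) (.e (nat_lit 57573) (nat_lit 55) (.e (nat_lit 778345) (nat_lit 9) .nil))))))) (.g (nat_lit 4) .nil .nil)))) (.nd (nat_lit 5) 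
(.lf (nat_lit 3288) (.g (nat_lit 3469) (.e (nat_lit 247) (nat_lit 21) (.e (nat_lit 336027) (nat_lit 3) (.e (nat_lit 98373) (nat_lit 29) (.e (nat_lit 450587) (nat_lit 10) (.e (nat_lit 573477) (nat_lit 12) (.e (nat_lit 57574) (nat_lit 55) (.e (nat_lit 778420) (nat_lit 9) .nil))))))) (.g (nat_lit 5) .nil .nil))) 
(.lf (nat_lit 3320) (.g (nat_lit 478) (.e (nat_lit 247) (nat_lit 21) (.e (nat_lit 336204) (nat_lit 12) (.e (nat_lit 385074) (nat_lit 31) .nil))) .nil))))) (.nd (nat_lit 3) (.nd (nat_lit 4) (.nd (nat_lit 5) 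
(.lf (nat_lit 3268) (.g (nat_lit 2455) (.e (nat_lit 247) (nat_lit 21) (.e (nat_lit 336027) (nat_lit 3) (.e (nat_lit 98372) (nat_lit 29) (.e (nat_lit 450586) (nat_lit 10) (.e (nat_lit 573478) (nat_lit 12) (.e (nat_lit 57574) (nat_lit 55) (.e (nat_lit 778366) (nat_lit 9) .nil))))))) (.g (nat_lit 5) .nil .nil))) 
(.lf (nat_lit 3300) (.g (nat_lit 4070) (.e (nat_lit 247) (nat_lit 21) (.e (nat_lit 336027) (nat_lit 3) (.e (nat_lit 98373) (nat_lit 29) (.e (nat_lit 450588) (nat_lit 10) (.e (nat_lit 573452) (nat_lit 9) .nil))))) .nil))) (.nd (nat_lit 5) 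
(.lf (nat_lit 3284) (.g (nat_lit 3558) (.e (nat_lit 247) (nat_lit 21) (.e (nat_lit 336027) (nat_lit 3) (.e (nat_lit 98373) (nat_lit 29) (.e (nat_lit 450587) (nat_lit 10) (.e (nat_lit 573477) (nat_lit 12) (.e (nat_lit 57574) (nat_lit 55) (.e (nat_lit 778365) (nat_lit 9) .nil))))))) (.g (nat_lit 5) .nil .nil))) 
(.lf (nat_lit 3316) (.g (nat_lit 755) (.e (nat_lit 247) (nat_lit 21) (.e (nat_lit 336088) (nat_lit 9) (.e (nat_lit 336443) (nat_lit 32) .nil))) .nil)))) (.nd (nat_lit 4) (.nd (nat_lit 5) 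
(.lf (nat_lit 3276) (.g (nat_lit 3028) (.e (nat_lit 247) (nat_lit 21) (.e (nat_lit 336027) (nat_lit 3) (.e (nat_lit 98373) (nat_lit 29) (.e (nat_lit 450587) (nat_lit 10) (.e (nat_lit 573475) (nat_lit 12) (.e (nat_lit 57345) (nat_lit 0) (.e (nat_lit 7464) (nat_lit 396) (.e (nat_lit 2477) (nat_lit 157) .nil)))))))) (.g (nat_lit 4) .nil .nil))) 
(.lf (nat_lit 3308) (.g (nat_lit 1619) (.e (nat_lit 247) (nat_lit 21) (.e (nat_lit 336076) (nat_lit 9) (.e (nat_lit 336454) (nat_lit 34) (.e (nat_lit 483365) (nat_lit 18) (.e (nat_lit 57848) (nat_lit 252) (.e (nat_lit 57375) (nat_lit 2) (.e (nat_lit 90127) (nat_lit 9) .nil))))))) (.g (nat_lit 4) .nil .nil)))) (.nd (nat_lit 5) 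
(.lf (nat_lit 3292) (.g (nat_lit 4780) (.e (nat_lit 247) (nat_lit 21) (.e (nat_lit 336027) (nat_lit 3) (.e (nat_lit 98373) (nat_lit 29) (.e (nat_lit 450587) (nat_lit 10) (.e (nat_lit 573477) (nat_lit 12) (.e (nat_lit 57575) (nat_lit 55) (.e (nat_lit 778365) (nat_lit 9) .nil))))))) (.g (nat_lit 6) .nil .nil))) 
(.lf (nat_lit 3324) (.g (nat_lit 4092) (.e (nat_lit 247) (nat_lit 21) (.e (nat_lit 336204) (nat_lit 12) (.e (nat_lit 385074) (nat_lit 31) (.e (nat_lit 573479) (nat_lit 13) .nil)))) .nil)))))) (.nd (nat_lit 2) (.nd (nat_lit 3) (.nd (nat_lit 4) (.nd (nat_lit 5) 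
(.lf (nat_lit 3266) (.g (nat_lit 2149) (.e (nat_lit 247) (nat_lit 21) (.e (nat_lit 336027) (nat_lit 3) (.e (nat_lit 98372) (nat_lit 29) (.e (nat_lit 450586) (nat_lit 10) (.e (nat_lit 573478) (nat_lit 12) .nil))))) .nil)) 
(.lf (nat_lit 3298) (.g (nat_lit 2827) (.e (nat_lit 247) (nat_lit 21) (.e (nat_lit 336027) (nat_lit 3) (.e (nat_lit 98373) (nat_lit 29) (.e (nat_lit 450587) (nat_lit 10) (.e (nat_lit 573478) (nat_lit 12) (.e (nat_lit 57574) (nat_lit 55) (.e (nat_lit 778379) (nat_lit 9) .nil))))))) (.g (nat_lit 4) .nil .nil)))) (.nd (nat_lit 5) 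
(.lf (nat_lit 3282) (.g (nat_lit 2876) (.e (nat_lit 247) (nat_lit 21) (.e (nat_lit 336027) (nat_lit 3) (.e (nat_lit 98373) (nat_lit 29) (.e (nat_lit 450587) (nat_lit 10) (.e (nat_lit 573477) (nat_lit 12) .nil))))) .nil)) 
(.lf (nat_lit 3314) (.g (nat_lit 2010) (.e (nat_lit 247) (nat_lit 21) (.e (nat_lit 336078) (nat_lit 9) (.e (nat_lit 336454) (nat_lit 34) (.e (nat_lit 483365) (nat_lit 18) (.e (nat_lit 57851) (nat_lit 252) .nil))))) .nil)))) (.nd (nat_lit 4) (.nd (nat_lit 5) 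
(.lf (nat_lit 3274) (.g (nat_lit 3098) (.e (nat_lit 247) (nat_lit 21) (.e (nat_lit 336027) (nat_lit 3) (.e (nat_lit 98373) (nat_lit 29) (.e (nat_lit 450587) (nat_lit 10) (.e (nat_lit 573454) (nat_lit 9) .nil))))) .nil)) 
(.lf (nat_lit 3306) (.g (nat_lit 3098) (.e (nat_lit 247) (nat_lit 21) (.e (nat_lit 336027) (nat_lit 3) (.e (nat_lit 98373) (nat_lit 29) (.e (nat_lit 450588) (nat_lit 10) (.e (nat_lit 573475) (nat_lit 12) (.e (nat_lit 57573) (nat_lit 55) (.e (nat_lit 778424) (nat_lit 9) .nil))))))) (.g (nat_lit 4) .nil .nil)))) (.nd (nat_lit 5) 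
(.lf (nat_lit 3290) (.g (nat_lit 4818) (.e (nat_lit 247) (nat_lit 21) (.e (nat_lit 336027) (nat_lit 3) (.e (nat_lit 98373) (nat_lit 29) (.e (nat_lit 450587) (nat_lit 10) (.e (nat_lit 573477) (nat_lit 12) (.e (nat_lit 57575) (nat_lit 55) (.e (nat_lit 778363) (nat_lit 9) .nil))))))) (.g (nat_lit 6) .nil .nil))) 
(.lf (nat_lit 3322) (.g (nat_lit 3404) (.e (nat_lit 247) (nat_lit 21) (.e (nat_lit 336204) (nat_lit 12) (.e (nat_lit 385074) (nat_lit 31) (.e (nat_lit 573452) (nat_lit 9) .nil)))) .nil))))) (.nd (nat_lit 3) (.nd (nat_lit 4) (.nd (nat_lit 5) 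
(.lf (nat_lit 3270) (.g (nat_lit 3521) (.e (nat_lit 247) (nat_lit 21) (.e (nat_lit 336027) (nat_lit 3) (.e (nat_lit 98372) (nat_lit 29) (.e (nat_lit 450588) (nat_lit 10) (.e (nat_lit 573475) (nat_lit 12) .nil))))) .nil)) 
(.lf (nat_lit 3302) (.g (nat_lit 2921) (.e (nat_lit 247) (nat_lit 21) (.e (nat_lit 336027) (nat_lit 3) (.e (nat_lit 98373) (nat_lit 29) (.e (nat_lit 450588) (nat_lit 10) (.e (nat_lit 573475) (nat_lit 12) .nil))))) .nil))) (.nd (nat_lit 5) 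
(.lf (nat_lit 3286) (.g (nat_lit 2911) (.e (nat_lit 247) (nat_lit 21) (.e (nat_lit 336027) (nat_lit 3) (.e (nat_lit 98373) (nat_lit 29) (.e (nat_lit 450587) (nat_lit 10) (.e (nat_lit 573477) (nat_lit 12) (.e (nat_lit 57574) (nat_lit 55) (.e (nat_lit 778380) (nat_lit 9) .nil))))))) (.g (nat_lit 4) .nil .nil))) 
(.lf (nat_lit 3318) (.g (nat_lit 950) (.e (nat_lit 247) (nat_lit 21) (.e (nat_lit 336165) (nat_lit 10) (.e (nat_lit 344126) (nat_lit 25) (.e (nat_lit 548873) (nat_lit 5) (.e (nat_lit 1598) (nat_lit 111) (.e (nat_lit 360473) (nat_lit 8) (.e (nat_lit 557073) (nat_lit 9) .nil))))))) (.g (nat_lit 4) .nil .nil))))) (.nd (nat_lit 4) (.nd (nat_lit 5) 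
(.lf (nat_lit 3278) (.g (nat_lit 3017) (.e (nat_lit 247) (nat_lit 21) (.e (nat_lit 336027) (nat_lit 3) (.e (nat_lit 98373) (nat_lit 29) (.e (nat_lit 450587) (nat_lit 10) (.e (nat_lit 573475) (nat_lit 12) (.e (nat_lit 57346) (nat_lit 0) (.e (nat_lit 7458) (nat_lit 396) (.e (nat_lit 2458) (nat_lit 157) .nil)))))))) (.g (nat_lit 4) .nil .nil))) 
(.lf (nat_lit 3310) (.g (nat_lit 1896) (.e (nat_lit 247) (nat_lit 21) (.e (nat_lit 336076) (nat_lit 9) (.e (nat_lit 336454) (nat_lit 34) (.e (nat_lit 483366) (nat_lit 18) (.e (nat_lit 57848) (nat_lit 252) (.e (nat_lit 57374) (nat_lit 2) (.e (nat_lit 90134) (nat_lit 9) .nil))))))) (.g (nat_lit 4) .nil .nil)))) (.nd (nat_lit 5) 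
(.lf (nat_lit 3294) (.g (nat_lit 4893) (.e (nat_lit 247) (nat_lit 21) (.e (nat_lit 336027) (nat_lit 3) (.e (nat_lit 98373) (nat_lit 29) (.e (nat_lit 450587) (nat_lit 10) (.e (nat_lit 573477) (nat_lit 12) (.e (nat_lit 57575) (nat_lit 55) (.e (nat_lit 778381) (nat_lit 9) .nil))))))) (.g (nat_lit 7) .nil .nil))) 
(.lf (nat_lit 3326) (.g (nat_lit 2069) (.e (nat_lit 247) (nat_lit 21) (.e (nat_lit 336204) (nat_lit 12) (.e (nat_lit 385074) (nat_lit 31) (.e (nat_lit 573482) (nat_lit 13) .nil)))) .nil))))))) (.nd (nat_lit 1) (.nd (nat_lit 2) (.nd (nat_lit 3) (.nd (nat_lit 4) (.nd (nat_lit 5) 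
(.lf (nat_lit 3265) (.g (nat_lit 2259) (.e (nat_lit 247) (nat_lit 21) (.e (nat_lit 336027) (nat_lit 3) (.e (nat_lit 98372) (nat_lit 29) (.e (nat_lit 450586) (nat_lit 10) (.e (nat_lit 573477) (nat_lit 12) (.e (nat_lit 57575) (nat_lit 55) (.e (nat_lit 786176) (nat_lit 9) .nil))))))) (.g (nat_lit 4) .nil .nil))) 
(.lf (nat_lit 3297) (.g (nat_lit 3361) (.e (nat_lit 247) (nat_lit 21) (.e (nat_lit 336027) (nat_lit 3) (.e (nat_lit 98373) (nat_lit 29) (.e (nat_lit 450587) (nat_lit 10) (.e (nat_lit 573478) (nat_lit 12) (.e (nat_lit 57574) (nat_lit 55) (.e (nat_lit 778364) (nat_lit 9) .nil))))))) (.g (nat_lit 5) .nil .nil)))) (.nd (nat_lit 5) 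
(.lf (nat_lit 3281) (.g (nat_lit 3022) (.e (nat_lit 247) (nat_lit 21) (.e (nat_lit 336027) (nat_lit 3) (.e (nat_lit 98373) (nat_lit 29) (.e (nat_lit 450587) (nat_lit 10) (.e (nat_lit 573475) (nat_lit 12) (.e (nat_lit 57346) (nat_lit 0) (.e (nat_lit 7461) (nat_lit 396) (.e (nat_lit 2481) (nat_lit 157) .nil)))))))) (.g (nat_lit 4) .nil .nil))) 
(.lf (nat_lit 3313) (.g (nat_lit 1988) (.e (nat_lit 247) (nat_lit 21) (.e (nat_lit 336078) (nat_lit 9) (.e (nat_lit 336454) (nat_lit 34) (.e (nat_lit 483365) (nat_lit 18) (.e (nat_lit 57849) (nat_lit 252) (.e (nat_lit 57372) (nat_lit 2) (.e (nat_lit 90131) (nat_lit 9) .nil))))))) (.g (nat_lit 4) .nil .nil))))) (.nd (nat_lit 4) (.nd (nat_lit 5) 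
(.lf (nat_lit 3273) (.g (nat_lit 1476) (.e (nat_lit 247) (nat_lit 21) (.e (nat_lit 336027) (nat_lit 3) (.e (nat_lit 98373) (nat_lit 29) (.e (nat_lit 450587) (nat_lit 10) .nil)))) .nil)) 
(.lf (nat_lit 3305) (.g (nat_lit 3007) (.e (nat_lit 247) (nat_lit 21) (.e (nat_lit 336027) (nat_lit 3) (.e (nat_lit 98373) (nat_lit 29) (.e (nat_lit 450588) (nat_lit 10) (.e (nat_lit 573475) (nat_lit 12) (.e (nat_lit 57573) (nat_lit 55) (.e (nat_lit 778347) (nat_lit 9) .nil))))))) (.g (nat_lit 4) .nil .nil)))) (.nd (nat_lit 5) 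
(.lf (nat_lit 3289) (.g (nat_lit 3490) (.e (nat_lit 247) (nat_lit 21) (.e (nat_lit 336027) (nat_lit 3) (.e (nat_lit 98373) (nat_lit 29) (.e (nat_lit 450587) (nat_lit 10) (.e (nat_lit 573477) (nat_lit 12) (.e (nat_lit 57574) (nat_lit 55) (.e (nat_lit 786176) (nat_lit 9) .nil))))))) (.g (nat_lit 5) .nil .nil))) 
(.lf (nat_lit 3321) (.g (nat_lit 4262) (.e (nat_lit 247) (nat_lit 21) (.e (nat_lit 336204) (nat_lit 12) (.e (nat_lit 385074) (nat_lit 31) (.e (nat_lit 573451) (nat_lit 9) .nil)))) .nil))))) (.nd (nat_lit 3) (.nd (nat_lit 4) (.nd (nat_lit 5) 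
(.lf (nat_lit 3269) (.g (nat_lit 2285) (.e (nat_lit 247) (nat_lit 21) (.e (nat_lit 336027) (nat_lit 3) (.e (nat_lit 98372) (nat_lit 29) (.e (nat_lit 450586) (nat_lit 10) (.e (nat_lit 573478) (nat_lit 12) (.e (nat_lit 57574) (nat_lit 55) (.e (nat_lit 778381) (nat_lit 9) .nil))))))) (.g (nat_lit 4) .nil .nil))) 
(.lf (nat_lit 3301) (.g (nat_lit 2938) (.e (nat_lit 247) (nat_lit 21) (.e (nat_lit 336027) (nat_lit 3) (.e (nat_lit 98373) (nat_lit 29) (.e (nat_lit 450588) (nat_lit 10) (.e (nat_lit 573473) (nat_lit 12) .nil))))) .nil))) (.nd (nat_lit 5) 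
(.lf (nat_lit 3285) (.g (nat_lit 3051) (.e (nat_lit 247) (nat_lit 21) (.e (nat_lit 336027) (nat_lit 3) (.e (nat_lit 98373) (nat_lit 29) (.e (nat_lit 450587) (nat_lit 10) (.e (nat_lit 573477) (nat_lit 12) (.e (nat_lit 57574) (nat_lit 55) (.e (nat_lit 778378) (nat_lit 9) .nil))))))) (.g (nat_lit 4) .nil .nil))) 
(.lf (nat_lit 3317) (.g (nat_lit 1174) (.e (nat_lit 247) (nat_lit 21) (.e (nat_lit 336165) (nat_lit 10) (.e (nat_lit 344126) (nat_lit 25) (.e (nat_lit 548872) (nat_lit 5) (.e (nat_lit 1598) (nat_lit 111) .nil))))) .nil)))) (.nd (nat_lit 4) (.nd (nat_lit 5) 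
(.lf (nat_lit 3277) (.g (nat_lit 3010) (.e (nat_lit 247) (nat_lit 21) (.e (nat_lit 336027) (nat_lit 3) (.e (nat_lit 98373) (nat_lit 29) (.e (nat_lit 450587) (nat_lit 10) (.e (nat_lit 573475) (nat_lit 12) (.e (nat_lit 57346) (nat_lit 0) (.e (nat_lit 7458) (nat_lit 396) (.e (nat_lit 2428) (nat_lit 157) .nil)))))))) (.g (nat_lit 4) .nil .nil))) 
(.lf (nat_lit 3309) (.g (nat_lit 1900) (.e (nat_lit 247) (nat_lit 21) (.e (nat_lit 336076) (nat_lit 9) (.e (nat_lit 336454) (nat_lit 34) (.e (nat_lit 483366) (nat_lit 18) (.e (nat_lit 57848) (nat_lit 252) (.e (nat_lit 57372) (nat_lit 2) (.e (nat_lit 90140) (nat_lit 9) .nil))))))) (.g (nat_lit 4) .nil .nil)))) (.nd (nat_lit 5) 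
(.lf (nat_lit 3293) (.g (nat_lit 4803) (.e (nat_lit 247) (nat_lit 21) (.e (nat_lit 336027) (nat_lit 3) (.e (nat_lit 98373) (nat_lit 29) (.e (nat_lit 450587) (nat_lit 10) (.e (nat_lit 573477) (nat_lit 12) (.e (nat_lit 57575) (nat_lit 55) (.e (nat_lit 778366) (nat_lit 9) .nil))))))) (.g (nat_lit 6) .nil .nil))) 
(.lf (nat_lit 3325) (.g (nat_lit 3937) (.e (nat_lit 247) (nat_lit 21) (.e (nat_lit 336204) (nat_lit 12) (.e (nat_lit 385074) (nat_lit 31) (.e (nat_lit 573481) (nat_lit 13) .nil)))) .nil)))))) (.nd (nat_lit 2) (.nd (nat_lit 3) (.nd (nat_lit 4) (.nd (nat_lit 5) 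
(.lf (nat_lit 3267) (.g (nat_lit 2250) (.e (nat_lit 247) (nat_lit 21) (.e (nat_lit 336027) (nat_lit 3) (.e (nat_lit 98372) (nat_lit 29) (.e (nat_lit 450586) (nat_lit 10) (.e (nat_lit 573478) (nat_lit 12) (.e (nat_lit 57574) (nat_lit 55) (.e (nat_lit 778364) (nat_lit 9) .nil))))))) (.g (nat_lit 4) .nil .nil))) 
(.lf (nat_lit 3299) (.g (nat_lit 3335) (.e (nat_lit 247) (nat_lit 21) (.e (nat_lit 336027) (nat_lit 3) (.e (nat_lit 98373) (nat_lit 29) (.e (nat_lit 450587) (nat_lit 10) (.e (nat_lit 573478) (nat_lit 12) (.e (nat_lit 57574) (nat_lit 55) (.e (nat_lit 778381) (nat_lit 9) .nil))))))) (.g (nat_lit 5) .nil .nil)))) (.nd (nat_lit 5) 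
(.lf (nat_lit 3283) (.g (nat_lit 2890) (.e (nat_lit 247) (nat_lit 21) (.e (nat_lit 336027) (nat_lit 3) (.e (nat_lit 98373) (nat_lit 29) (.e (nat_lit 450587) (nat_lit 10) (.e (nat_lit 573477) (nat_lit 12) (.e (nat_lit 57574) (nat_lit 55) (.e (nat_lit 778353) (nat_lit 9) .nil))))))) (.g (nat_lit 4) .nil .nil))) 
(.lf (nat_lit 3315) (.g (nat_lit 572) (.e (nat_lit 247) (nat_lit 21) (.e (nat_lit 336088) (nat_lit 9) (.e (nat_lit 336438) (nat_lit 31) .nil))) .nil)))) (.nd (nat_lit 4) (.nd (nat_lit 5) 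
(.lf (nat_lit 3275) (.g (nat_lit 3056) (.e (nat_lit 247) (nat_lit 21) (.e (nat_lit 336027) (nat_lit 3) (.e (nat_lit 98373) (nat_lit 29) (.e (nat_lit 450587) (nat_lit 10) (.e (nat_lit 573456) (nat_lit 9) .nil))))) .nil)) 
(.lf (nat_lit 3307) (.g (nat_lit 4629) (.e (nat_lit 247) (nat_lit 21) (.e (nat_lit 336027) (nat_lit 3) (.e (nat_lit 98373) (nat_lit 29) (.e (nat_lit 450588) (nat_lit 10) (.e (nat_lit 573475) (nat_lit 12) (.e (nat_lit 57574) (nat_lit 55) (.e (nat_lit 778359) (nat_lit 9) .nil))))))) (.g (nat_lit 6) .nil .nil)))) (.nd (nat_lit 5) 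
(.lf (nat_lit 3291) (.g (nat_lit 4797) (.e (nat_lit 247) (nat_lit 21) (.e (nat_lit 336027) (nat_lit 3) (.e (nat_lit 98373) (nat_lit 29) (.e (nat_lit 450587) (nat_lit 10) (.e (nat_lit 573477) (nat_lit 12) (.e (nat_lit 57575) (nat_lit 55) (.e (nat_lit 778364) (nat_lit 9) .nil))))))) (.g (nat_lit 6) .nil .nil))) 
(.lf (nat_lit 3323) (.g (nat_lit 3812) (.e (nat_lit 247) (nat_lit 21) (.e (nat_lit 336204) (nat_lit 12) (.e (nat_lit 385074) (nat_lit 31) (.e (nat_lit 573456) (nat_lit 9) .nil)))) .nil))))) (.nd (nat_lit 3) (.nd (nat_lit 4) (.nd (nat_lit 5) 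
(.lf (nat_lit 3271) (.g (nat_lit 1803) (.e (nat_lit 247) (nat_lit 21) (.e (nat_lit 336027) (nat_lit 3) (.e (nat_lit 98373) (nat_lit 29) (.e (nat_lit 458496) (nat_lit 3) .nil)))) .nil)) 
(.lf (nat_lit 3303) (.g (nat_lit 3004) (.e (nat_lit 247) (nat_lit 21) (.e (nat_lit 336027) (nat_lit 3) (.e (nat_lit 98373) (nat_lit 29) (.e (nat_lit 450588) (nat_lit 10) (.e (nat_lit 573475) (nat_lit 12) (.e (nat_lit 57573) (nat_lit 55) (.e (nat_lit 778334) (nat_lit 9) .nil))))))) (.g (nat_lit 4) .nil .nil)))) (.nd (nat_lit 5) 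
(.lf (nat_lit 3287) (.g (nat_lit 3052) (.e (nat_lit 247) (nat_lit 21) (.e (nat_lit 336027) (nat_lit 3) (.e (nat_lit 98373) (nat_lit 29) (.e (nat_lit 450587) (nat_lit 10) (.e (nat_lit 573477) (nat_lit 12) (.e (nat_lit 57574) (nat_lit 55) (.e (nat_lit 778394) (nat_lit 9) .nil))))))) (.g (nat_lit 4) .nil .nil))) 
(.lf (nat_lit 3319) (.g (nat_lit 1669) (.e (nat_lit 247) (nat_lit 21) (.e (nat_lit 336165) (nat_lit 10) (.e (nat_lit 344126) (nat_lit 25) (.e (nat_lit 548874) (nat_lit 5) (.e (nat_lit 1598) (nat_lit 111) (.e (nat_lit 360473) (nat_lit 8) (.e (nat_lit 557073) (nat_lit 9) .nil))))))) (.g (nat_lit 4) .nil .nil))))) (.nd (nat_lit 4) (.nd (nat_lit 5) 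
(.lf (nat_lit 3279) (.g (nat_lit 2911) (.e (nat_lit 247) (nat_lit 21) (.e (nat_lit 336027) (nat_lit 3) (.e (nat_lit 98373) (nat_lit 29) (.e (nat_lit 450587) (nat_lit 10) (.e (nat_lit 573475) (nat_lit 12) (.e (nat_lit 57346) (nat_lit 0) (.e (nat_lit 7461) (nat_lit 396) (.e (nat_lit 2422) (nat_lit 157) .nil)))))))) (.g (nat_lit 4) .nil .nil))) 
(.lf (nat_lit 3311) (.g (nat_lit 1723) (.e (nat_lit 247) (nat_lit 21) (.e (nat_lit 336076) (nat_lit 9) (.e (nat_lit 336454) (nat_lit 34) (.e (nat_lit 483366) (nat_lit 18) (.e (nat_lit 57848) (nat_lit 252) (.e (nat_lit 57375) (nat_lit 2) (.e (nat_lit 90130) (nat_lit 9) .nil))))))) (.g (nat_lit 4) .nil .nil)))) (.nd (nat_lit 5) 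
(.lf (nat_lit 3295) (.g (nat_lit 2765) (.e (nat_lit 247) (nat_lit 21) (.e (nat_lit 336027) (nat_lit 3) (.e (nat_lit 98373) (nat_lit 29) (.e (nat_lit 450587) (nat_lit 10) (.e (nat_lit 573478) (nat_lit 12) .nil))))) .nil)) 
(.lf (nat_lit 3327) (.g (nat_lit 3288) (.e (nat_lit 247) (nat_lit 21) (.e (nat_lit 336204) (nat_lit 12) (.e (nat_lit 385074) (nat_lit 31) (.e (nat_lit 573482) (nat_lit 13) (.e (nat_lit 65609) (nat_lit 10) (.e (nat_lit 344133) (nat_lit 26) (.e (nat_lit 557068) (nat_lit 9) .nil))))))) (.g (nat_lit 4) .nil .nil)))))))))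

noncomputable def tv045 : DT := (.nd (nat_lit 0) (.nd (nat_lit 1) (.nd (nat_lit 2) (.nd (nat_lit 3) (.nd (nat_lit 4) (.nd (nat_lit 5) (.nd (nat_lit 6) 
(.lf (nat_lit 3328) (.g (nat_lit 3930) (.e (nat_lit 247) (nat_lit 21) (.e (nat_lit 336204) (nat_lit 12) (.e (nat_lit 385074) (nat_lit 31) (.e (nat_lit 573482) (nat_lit 13) (.e (nat_lit 65610) (nat_lit 10) .nil))))) .nil)) 
(.lf (nat_lit 3392) (.g (nat_lit 1637) (.e (nat_lit 247) (nat_lit 21) (.e (nat_lit 336231) (nat_lit 14) (.e (nat_lit 401458) (nat_lit 13) (.e (nat_lit 483372) (nat_lit 21) .nil)))) .nil))) (.nd (nat_lit 6) 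
(.lf (nat_lit 3360) (.g (nat_lit 2160) (.e (nat_lit 247) (nat_lit 21) (.e (nat_lit 336223) (nat_lit 13) (.e (nat_lit 393234) (nat_lit 17) (.e (nat_lit 7587) (nat_lit 406) (.e (nat_lit 65580) (nat_lit 6) .nil))))) .nil)) 
(.lf (nat_lit 3424) (.g (nat_lit 1847) (.e (nat_lit 248) (nat_lit 21) (.e (nat_lit 336078) (nat_lit 9) (.e (nat_lit 336454) (nat_lit 34) (.e (nat_lit 483365) (nat_lit 18) (.e (nat_lit 57849) (nat_lit 252) (.e (nat_lit 57372) (nat_lit 2) (.e (nat_lit 90131) (nat_lit 9) .nil))))))) (.g (nat_lit 4) .nil .nil))))) (.nd (nat_lit 5) (.nd (nat_lit 6) 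
(.lf (nat_lit 3344) (.g (nat_lit 1796) (.e (nat_lit 247) (nat_lit 21) (.e (nat_lit 336213) (nat_lit 13) (.e (nat_lit 393225) (nat_lit 9) (.e (nat_lit 335995) (nat_lit 1) (.e (nat_lit 57848) (nat_lit 252) .nil))))) .nil)) 
(.lf (nat_lit 3408) (.g (nat_lit 2538) (.e (nat_lit 248) (nat_lit 21) (.e (nat_lit 336021) (nat_lit 3) (.e (nat_lit 98313) (nat_lit 9) (.e (nat_lit 336012) (nat_lit 2) (.e (nat_lit 90158) (nat_lit 11) .nil))))) .nil))) (.nd (nat_lit 6) 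
(.lf (nat_lit 3376) (.g (nat_lit 2211) (.e (nat_lit 247) (nat_lit 21) (.e (nat_lit 336223) (nat_lit 13) (.e (nat_lit 393301) (nat_lit 27) (.e (nat_lit 491556) (nat_lit 9) .nil)))) .nil)) 
(.lf (nat_lit 3440) (.g (nat_lit 2053) (.e (nat_lit 249) (nat_lit 21) (.e (nat_lit 335894) (nat_lit 0) (.e (nat_lit 6712) (nat_lit 360) (.e (nat_lit 163962) (nat_lit 25) .nil)))) .nil))))) (.nd (nat_lit 4) (.nd (nat_lit 5) (.nd (nat_lit 6) 
(.lf (nat_lit 3336) (.g (nat_lit 4788) (.e (nat_lit 247) (nat_lit 21) (.e (nat_lit 336204) (nat_lit 12) (.e (nat_lit 385074) (nat_lit 31) (.e (nat_lit 573491) (nat_lit 15) (.e (nat_lit 81946) (nat_lit 20) (.e (nat_lit 1858) (nat_lit 124) (.e (nat_lit 557072) (nat_lit 9) .nil))))))) (.g (nat_lit 7) .nil .nil))) 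
(.lf (nat_lit 3400) (.g (nat_lit 1411) (.e (nat_lit 248) (nat_lit 21) (.e (nat_lit 336012) (nat_lit 2) (.e (nat_lit 90176) (nat_lit 15) (.e (nat_lit 188450) (nat_lit 23) .nil)))) .nil))) (.nd (nat_lit 6) 
(.lf (nat_lit 3368) (.g (nat_lit 2268) (.e (nat_lit 247) (nat_lit 21) (.e (nat_lit 336223) (nat_lit 13) (.e (nat_lit 393234) (nat_lit 17) (.e (nat_lit 7591) (nat_lit 407) (.e (nat_lit 73776) (nat_lit 26) (.e (nat_lit 778403) (nat_lit 9) .nil)))))) (.g (nat_lit 4) .nil .nil))) 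
(.lf (nat_lit 3432) (.g (nat_lit 1950) (.e (nat_lit 248) (nat_lit 21) (.e (nat_lit 336213) (nat_lit 13) (.e (nat_lit 393225) (nat_lit 9) (.e (nat_lit 335995) (nat_lit 1) (.e (nat_lit 57848) (nat_lit 252) (.e (nat_lit 57375) (nat_lit 2) (.e (nat_lit 90130) (nat_lit 9) .nil))))))) (.g (nat_lit 4) .nil .nil))))) (.nd (nat_lit 5) (.nd (nat_lit 6) 
(.lf (nat_lit 3352) (.g (nat_lit 1371) (.e (nat_lit 247) (nat_lit 21) (.e (nat_lit 336222) (nat_lit 13) (.e (nat_lit 393260) (nat_lit 21) (.e (nat_lit 409616) (nat_lit 10) .nil)))) .nil)) 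
(.lf (nat_lit 3416) (.g (nat_lit 2747) (.e (nat_lit 248) (nat_lit 21) (.e (nat_lit 336027) (nat_lit 3) (.e (nat_lit 98373) (nat_lit 29) (.e (nat_lit 450587) (nat_lit 10) (.e (nat_lit 573477) (nat_lit 12) .nil))))) .nil))) (.nd (nat_lit 6) 
(.lf (nat_lit 3384) (.g (nat_lit 3151) (.e (nat_lit 247) (nat_lit 21) (.e (nat_lit 336223) (nat_lit 13) (.e (nat_lit 393301) (nat_lit 27) (.e (nat_lit 491560) (nat_lit 10) (.e (nat_lit 344179) (nat_lit 44) (.e (nat_lit 778381) (nat_lit 9) .nil)))))) (.g (nat_lit 5) .nil .nil))) 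
(.lf (nat_lit 3448) (.g (nat_lit 2572) (.e (nat_lit 249) (nat_lit 21) (.e (nat_lit 336009) (nat_lit 2) (.e (nat_lit 90170) (nat_lit 13) (.e (nat_lit 172113) (nat_lit 10) (.e (nat_lit 434245) (nat_lit 28) (.e (nat_lit 573449) (nat_lit 9) (.e (nat_lit 1312) (nat_lit 98) (.e (nat_lit 147463) (nat_lit 9) .nil)))))))) (.g (nat_lit 4) .nil .nil))))))) 
(.nd (nat_lit 3) (.nd (nat_lit 4) (.nd (nat_lit 5) (.nd (nat_lit 6) 
(.lf (nat_lit 3332) (.g (nat_lit 2245) (.e (nat_lit 247) (nat_lit 21) (.e (nat_lit 336204) (nat_lit 12) (.e (nat_lit 385074) (nat_lit 31) (.e (nat_lit 573491) (nat_lit 15) (.e (nat_lit 81946) (nat_lit 20) .nil))))) .nil)) 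
(.lf (nat_lit 3396) (.g (nat_lit 3476) (.e (nat_lit 248) (nat_lit 21) (.e (nat_lit 336011) (nat_lit 2) (.e (nat_lit 90170) (nat_lit 13) (.e (nat_lit 172113) (nat_lit 10) (.e (nat_lit 434245) (nat_lit 28) .nil))))) .nil))) (.nd (nat_lit 6) 
(.lf (nat_lit 3364) (.g (nat_lit 2154) (.e (nat_lit 247) (nat_lit 21) (.e (nat_lit 336223) (nat_lit 13) (.e (nat_lit 393234) (nat_lit 17) (.e (nat_lit 7591) (nat_lit 407) (.e (nat_lit 73776) (nat_lit 26) (.e (nat_lit 778366) (nat_lit 9) .nil)))))) (.g (nat_lit 4) .nil .nil))) 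
(.lf (nat_lit 3428) (.g (nat_lit 2849) (.e (nat_lit 248) (nat_lit 21) (.e (nat_lit 336204) (nat_lit 12) (.e (nat_lit 385074) (nat_lit 31) (.e (nat_lit 573482) (nat_lit 13) .nil)))) .nil)))) (.nd (nat_lit 5) (.nd (nat_lit 6) 
(.lf (nat_lit 3348) (.g (nat_lit 1931) (.e (nat_lit 247) (nat_lit 21) (.e (nat_lit 336213) (nat_lit 13) (.e (nat_lit 393225) (nat_lit 9) (.e (nat_lit 335995) (nat_lit 1) (.e (nat_lit 57848) (nat_lit 252) (.e (nat_lit 57375) (nat_lit 2) (.e (nat_lit 90130) (nat_lit 9) .nil))))))) (.g (nat_lit 4) .nil .nil))) 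
(.lf (nat_lit 3412) (.g (nat_lit 2002) (.e (nat_lit 248) (nat_lit 21) (.e (nat_lit 336027) (nat_lit 3) (.e (nat_lit 98372) (nat_lit 29) (.e (nat_lit 450586) (nat_lit 10) (.e (nat_lit 573475) (nat_lit 12) .nil))))) .nil))) (.nd (nat_lit 6) 
(.lf (nat_lit 3380) (.g (nat_lit 2601) (.e (nat_lit 247) (nat_lit 21) (.e (nat_lit 336223) (nat_lit 13) (.e (nat_lit 393301) (nat_lit 27) (.e (nat_lit 491558) (nat_lit 10) (.e (nat_lit 352000) (nat_lit 44) (.e (nat_lit 778427) (nat_lit 9) .nil)))))) (.g (nat_lit 4) .nil .nil))) 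
(.lf (nat_lit 3444) (.g (nat_lit 3718) (.e (nat_lit 249) (nat_lit 21) (.e (nat_lit 336009) (nat_lit 2) (.e (nat_lit 90170) (nat_lit 13) (.e (nat_lit 172106) (nat_lit 10) (.e (nat_lit 434244) (nat_lit 28) (.e (nat_lit 573449) (nat_lit 9) (.e (nat_lit 1312) (nat_lit 98) (.e (nat_lit 147463) (nat_lit 9) .nil)))))))) (.g (nat_lit 8) .nil .nil)))))) (.nd (nat_lit 4) (.nd (nat_lit 5) (.nd (nat_lit 6) 
(.lf (nat_lit 3340) (.g (nat_lit 4303) (.e (nat_lit 247) (nat_lit 21) (.e (nat_lit 336204) (nat_lit 12) (.e (nat_lit 385074) (nat_lit 31) (.e (nat_lit 573491) (nat_lit 15) (.e (nat_lit 81946) (nat_lit 20) (.e (nat_lit 1858) (nat_lit 124) (.e (nat_lit 557078) (nat_lit 9) .nil))))))) (.g (nat_lit 0) .nil .nil))) 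
(.lf (nat_lit 3404) (.g (nat_lit 2269) (.e (nat_lit 248) (nat_lit 21) (.e (nat_lit 336012) (nat_lit 2) (.e (nat_lit 90176) (nat_lit 15) (.e (nat_lit 188450) (nat_lit 23) (.e (nat_lit 204821) (nat_lit 17) .nil))))) .nil))) (.nd (nat_lit 6) 
(.lf (nat_lit 3372) (.g (nat_lit 1727) (.e (nat_lit 247) (nat_lit 21) (.e (nat_lit 336223) (nat_lit 13) (.e (nat_lit 393234) (nat_lit 17) (.e (nat_lit 7593) (nat_lit 407) (.e (nat_lit 73775) (nat_lit 26) .nil))))) .nil)) 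
(.lf (nat_lit 3436) (.g (nat_lit 1685) (.e (nat_lit 248) (nat_lit 21) (.e (nat_lit 336223) (nat_lit 13) (.e (nat_lit 393234) (nat_lit 17) (.e (nat_lit 7593) (nat_lit 407) (.e (nat_lit 73775) (nat_lit 26) (.e (nat_lit 778359) (nat_lit 9) .nil)))))) (.g (nat_lit 4) .nil .nil))))) (.nd (nat_lit 5) (.nd (nat_lit 6) 
(.lf (nat_lit 3356) (.g (nat_lit 2092) (.e (nat_lit 247) (nat_lit 21) (.e (nat_lit 336222) (nat_lit 13) (.e (nat_lit 393260) (nat_lit 21) (.e (nat_lit 409649) (nat_lit 18) (.e (nat_lit 303111) (nat_lit 0) (.e (nat_lit 3578) (nat_lit 223) (.e (nat_lit 745500) (nat_lit 9) .nil))))))) (.g (nat_lit 4) .nil .nil))) 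
(.lf (nat_lit 3420) (.g (nat_lit 2860) (.e (nat_lit 248) (nat_lit 21) (.e (nat_lit 336027) (nat_lit 3) (.e (nat_lit 98373) (nat_lit 29) (.e (nat_lit 450588) (nat_lit 10) (.e (nat_lit 573475) (nat_lit 12) .nil))))) .nil))) (.nd (nat_lit 6) 
(.lf (nat_lit 3388) (.g (nat_lit 1211) (.e (nat_lit 247) (nat_lit 21) (.e (nat_lit 336229) (nat_lit 14) (.e (nat_lit 401458) (nat_lit 13) (.e (nat_lit 483372) (nat_lit 21) .nil)))) .nil)) 
(.lf (nat_lit 3452) (.g (nat_lit 2511) (.e (nat_lit 249) (nat_lit 21) (.e (nat_lit 336009) (nat_lit 2) (.e (nat_lit 90170) (nat_lit 13) (.e (nat_lit 172113) (nat_lit 10) (.e (nat_lit 434248) (nat_lit 28) (.e (nat_lit 573452) (nat_lit 9) (.e (nat_lit 1314) (nat_lit 98) (.e (nat_lit 147463) (nat_lit 9) .nil)))))))) (.g (nat_lit 4) .nil .nil)))))))) 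
(.nd (nat_lit 2) (.nd (nat_lit 3) (.nd (nat_lit 4) (.nd (nat_lit 5) (.nd (nat_lit 6) 
(.lf (nat_lit 3330) (.g (nat_lit 4163) (.e (nat_lit 247) (nat_lit 21) (.e (nat_lit 336204) (nat_lit 12) (.e (nat_lit 385074) (nat_lit 31) (.e (nat_lit 573482) (nat_lit 13) (.e (nat_lit 65619) (nat_lit 10) (.e (nat_lit 344129) (nat_lit 26) (.e (nat_lit 557074) (nat_lit 9) .nil))))))) (.g (nat_lit 5) .nil .nil))) 
(.lf (nat_lit 3394) (.g (nat_lit 3880) (.e (nat_lit 247) (nat_lit 21) (.e (nat_lit 336231) (nat_lit 14) (.e (nat_lit 401458) (nat_lit 13) (.e (nat_lit 483372) (nat_lit 21) (.e (nat_lit 319511) (nat_lit 10) (.e (nat_lit 5664) (nat_lit 312) .nil)))))) (.g (nat_lit 0) .nil .nil)))) (.nd (nat_lit 6) 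
(.lf (nat_lit 3362) (.g (nat_lit 2010) (.e (nat_lit 247) (nat_lit 21) (.e (nat_lit 336223) (nat_lit 13) (.e (nat_lit 393234) (nat_lit 17) (.e (nat_lit 7591) (nat_lit 407) (.e (nat_lit 73775) (nat_lit 26) (.e (nat_lit 778359) (nat_lit 9) .nil)))))) (.g (nat_lit 4) .nil .nil))) 
(.lf (nat_lit 3426) (.g (nat_lit 1904) (.e (nat_lit 248) (nat_lit 21) (.e (nat_lit 336086) (nat_lit 9) (.e (nat_lit 336369) (nat_lit 27) (.e (nat_lit 426173) (nat_lit 7) (.e (nat_lit 409649) (nat_lit 18) .nil))))) .nil)))) (.nd (nat_lit 5) (.nd (nat_lit 6) 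
(.lf (nat_lit 3346) (.g (nat_lit 2013) (.e (nat_lit 247) (nat_lit 21) (.e (nat_lit 336213) (nat_lit 13) (.e (nat_lit 393225) (nat_lit 9) (.e (nat_lit 335995) (nat_lit 1) (.e (nat_lit 57848) (nat_lit 252) (.e (nat_lit 57372) (nat_lit 2) (.e (nat_lit 90140) (nat_lit 9) .nil))))))) (.g (nat_lit 4) .nil .nil))) 
(.lf (nat_lit 3410) (.g (nat_lit 1978) (.e (nat_lit 248) (nat_lit 21) (.e (nat_lit 336021) (nat_lit 3) (.e (nat_lit 98313) (nat_lit 9) (.e (nat_lit 336027) (nat_lit 3) .nil)))) .nil))) (.nd (nat_lit 6) 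
(.lf (nat_lit 3378) (.g (nat_lit 2944) (.e (nat_lit 247) (nat_lit 21) (.e (nat_lit 336223) (nat_lit 13) (.e (nat_lit 393301) (nat_lit 27) (.e (nat_lit 491558) (nat_lit 10) (.e (nat_lit 344180) (nat_lit 44) .nil))))) .nil)) 
(.lf (nat_lit 3442) (.g (nat_lit 2028) (.e (nat_lit 249) (nat_lit 21) (.e (nat_lit 335895) (nat_lit 0) (.e (nat_lit 2356) (nat_lit 152) (.e (nat_lit 786481) (nat_lit 30) (.e (nat_lit 360473) (nat_lit 8) (.e (nat_lit 557089) (nat_lit 12) (.e (nat_lit 164007) (nat_lit 41) (.e (nat_lit 663574) (nat_lit 9) .nil)))))))) (.g (nat_lit 5) .nil .nil)))))) (.nd (nat_lit 4) (.nd (nat_lit 5) (.nd (nat_lit 6) 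
(.lf (nat_lit 3338) (.g (nat_lit 4216) (.e (nat_lit 247) (nat_lit 21) (.e (nat_lit 336204) (nat_lit 12) (.e (nat_lit 385074) (nat_lit 31) (.e (nat_lit 573491) (nat_lit 15) (.e (nat_lit 81946) (nat_lit 20) (.e (nat_lit 1858) (nat_lit 124) (.e (nat_lit 557076) (nat_lit 9) .nil))))))) (.g (nat_lit 6) .nil .nil))) 
(.lf (nat_lit 3402) (.g (nat_lit 2287) (.e (nat_lit 248) (nat_lit 21) (.e (nat_lit 336012) (nat_lit 2) (.e (nat_lit 90176) (nat_lit 15) (.e (nat_lit 188450) (nat_lit 23) (.e (nat_lit 204817) (nat_lit 17) .nil))))) .nil))) (.nd (nat_lit 6) 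
(.lf (nat_lit 3370) (.g (nat_lit 2134) (.e (nat_lit 247) (nat_lit 21) (.e (nat_lit 336223) (nat_lit 13) (.e (nat_lit 393234) (nat_lit 17) (.e (nat_lit 7591) (nat_lit 407) (.e (nat_lit 81664) (nat_lit 26) (.e (nat_lit 778427) (nat_lit 9) .nil)))))) (.g (nat_lit 4) .nil .nil))) 
(.lf (nat_lit 3434) (.g (nat_lit 2061) (.e (nat_lit 248) (nat_lit 21) (.e (nat_lit 336223) (nat_lit 13) (.e (nat_lit 393234) (nat_lit 17) (.e (nat_lit 7591) (nat_lit 407) (.e (nat_lit 73776) (nat_lit 26) .nil))))) .nil)))) (.nd (nat_lit 5) (.nd (nat_lit 6) 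
(.lf (nat_lit 3354) (.g (nat_lit 2386) (.e (nat_lit 247) (nat_lit 21) (.e (nat_lit 336222) (nat_lit 13) (.e (nat_lit 393260) (nat_lit 21) (.e (nat_lit 409617) (nat_lit 10) (.e (nat_lit 4934) (nat_lit 287) (.e (nat_lit 2579) (nat_lit 161) (.e (nat_lit 40987) (nat_lit 9) .nil))))))) (.g (nat_lit 4) .nil .nil))) 
(.lf (nat_lit 3418) (.g (nat_lit 3668) (.e (nat_lit 248) (nat_lit 21) (.e (nat_lit 336027) (nat_lit 3) (.e (nat_lit 98373) (nat_lit 29) (.e (nat_lit 450587) (nat_lit 10) (.e (nat_lit 573477) (nat_lit 12) (.e (nat_lit 57575) (nat_lit 55) (.e (nat_lit 778380) (nat_lit 9) .nil))))))) (.g (nat_lit 5) .nil .nil)))) (.nd (nat_lit 6) 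
(.lf (nat_lit 3386) (.g (nat_lit 3270) (.e (nat_lit 247) (nat_lit 21) (.e (nat_lit 336223) (nat_lit 13) (.e (nat_lit 393301) (nat_lit 27) (.e (nat_lit 491560) (nat_lit 10) (.e (nat_lit 344179) (nat_lit 44) (.e (nat_lit 778404) (nat_lit 9) .nil)))))) (.g (nat_lit 6) .nil .nil))) 
(.lf (nat_lit 3450) (.g (nat_lit 2609) (.e (nat_lit 249) (nat_lit 21) (.e (nat_lit 336009) (nat_lit 2) (.e (nat_lit 90170) (nat_lit 13) (.e (nat_lit 172113) (nat_lit 10) (.e (nat_lit 434247) (nat_lit 28) (.e (nat_lit 573477) (nat_lit 12) (.e (nat_lit 57575) (nat_lit 55) (.e (nat_lit 778377) (nat_lit 9) .nil)))))))) (.g (nat_lit 4) .nil .nil))))))) 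
(.nd (nat_lit 3) (.nd (nat_lit 4) (.nd (nat_lit 5) (.nd (nat_lit 6) 
(.lf (nat_lit 3334) (.g (nat_lit 3220) (.e (nat_lit 247) (nat_lit 21) (.e (nat_lit 336204) (nat_lit 12) (.e (nat_lit 385074) (nat_lit 31) (.e (nat_lit 573491) (nat_lit 15) (.e (nat_lit 81946) (nat_lit 20) (.e (nat_lit 1858) (nat_lit 124) (.e (nat_lit 557069) (nat_lit 9) .nil))))))) (.g (nat_lit 5) .nil .nil))) 
(.lf (nat_lit 3398) (.g (nat_lit 3425) (.e (nat_lit 248) (nat_lit 21) (.e (nat_lit 336011) (nat_lit 2) (.e (nat_lit 90170) (nat_lit 13) (.e (nat_lit 172113) (nat_lit 10) (.e (nat_lit 434248) (nat_lit 28) .nil))))) .nil))) (.nd (nat_lit 6) 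
(.lf (nat_lit 3366) (.g (nat_lit 2105) (.e (nat_lit 247) (nat_lit 21) (.e (nat_lit 336223) (nat_lit 13) (.e (nat_lit 393234) (nat_lit 17) (.e (nat_lit 7591) (nat_lit 407) (.e (nat_lit 73776) (nat_lit 26) (.e (nat_lit 778380) (nat_lit 9) .nil)))))) (.g (nat_lit 4) .nil .nil))) 
(.lf (nat_lit 3430) (.g (nat_lit 1906) (.e (nat_lit 248) (nat_lit 21) (.e (nat_lit 336213) (nat_lit 13) (.e (nat_lit 393225) (nat_lit 9) (.e (nat_lit 335995) (nat_lit 1) (.e (nat_lit 57848) (nat_lit 252) .nil))))) .nil)))) (.nd (nat_lit 5) (.nd (nat_lit 6) 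
(.lf (nat_lit 3350) (.g (nat_lit 1616) (.e (nat_lit 247) (nat_lit 21) (.e (nat_lit 336220) (nat_lit 13) (.e (nat_lit 393225) (nat_lit 9) (.e (nat_lit 335995) (nat_lit 1) (.e (nat_lit 57848) (nat_lit 252) (.e (nat_lit 57372) (nat_lit 2) (.e (nat_lit 90127) (nat_lit 9) .nil))))))) (.g (nat_lit 4) .nil .nil))) 
(.lf (nat_lit 3414) (.g (nat_lit 2313) (.e (nat_lit 248) (nat_lit 21) (.e (nat_lit 336027) (nat_lit 3) (.e (nat_lit 98372) (nat_lit 29) (.e (nat_lit 450586) (nat_lit 10) (.e (nat_lit 573477) (nat_lit 12) (.e (nat_lit 57574) (nat_lit 55) (.e (nat_lit 778359) (nat_lit 9) .nil))))))) (.g (nat_lit 5) .nil .nil)))) (.nd (nat_lit 6) 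
(.lf (nat_lit 3382) (.g (nat_lit 2538) (.e (nat_lit 247) (nat_lit 21) (.e (nat_lit 336223) (nat_lit 13) (.e (nat_lit 393301) (nat_lit 27) (.e (nat_lit 491560) (nat_lit 10) (.e (nat_lit 344179) (nat_lit 44) .nil))))) .nil)) 
(.lf (nat_lit 3446) (.g (nat_lit 2689) (.e (nat_lit 249) (nat_lit 21) (.e (nat_lit 336009) (nat_lit 2) (.e (nat_lit 90170) (nat_lit 13) (.e (nat_lit 172106) (nat_lit 10) (.e (nat_lit 434244) (nat_lit 28) (.e (nat_lit 573458) (nat_lit 9) (.e (nat_lit 1313) (nat_lit 98) (.e (nat_lit 147463) (nat_lit 9) .nil)))))))) (.g (nat_lit 6) .nil .nil)))))) (.nd (nat_lit 4) (.nd (nat_lit 5) (.nd (nat_lit 6) 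
(.lf (nat_lit 3342) (.g (nat_lit 2330) (.e (nat_lit 247) (nat_lit 21) (.e (nat_lit 336204) (nat_lit 12) (.e (nat_lit 385074) (nat_lit 31) (.e (nat_lit 573491) (nat_lit 15) (.e (nat_lit 81946) (nat_lit 20) (.e (nat_lit 1858) (nat_lit 124) (.e (nat_lit 557080) (nat_lit 9) .nil))))))) (.g (nat_lit 4) .nil .nil))) 
(.lf (nat_lit 3406) (.g (nat_lit 2221) (.e (nat_lit 248) (nat_lit 21) (.e (nat_lit 336012) (nat_lit 2) (.e (nat_lit 90176) (nat_lit 15) (.e (nat_lit 188450) (nat_lit 23) (.e (nat_lit 204830) (nat_lit 18) (.e (nat_lit 65280) (nat_lit 233) (.e (nat_lit 2399) (nat_lit 157) .nil))))))) (.g (nat_lit 4) .nil .nil)))) (.nd (nat_lit 6) 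
(.lf (nat_lit 3374) (.g (nat_lit 2373) (.e (nat_lit 247) (nat_lit 21) (.e (nat_lit 336223) (nat_lit 13) (.e (nat_lit 393301) (nat_lit 27) (.e (nat_lit 491546) (nat_lit 9) (.e (nat_lit 336048) (nat_lit 6) .nil))))) .nil)) 
(.lf (nat_lit 3438) (.g (nat_lit 2545) (.e (nat_lit 248) (nat_lit 21) (.e (nat_lit 336223) (nat_lit 13) (.e (nat_lit 393301) (nat_lit 27) (.e (nat_lit 491560) (nat_lit 10) (.e (nat_lit 344179) (nat_lit 44) .nil))))) .nil)))) (.nd (nat_lit 5) (.nd (nat_lit 6) 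
(.lf (nat_lit 3358) (.g (nat_lit 1999) (.e (nat_lit 247) (nat_lit 21) (.e (nat_lit 336223) (nat_lit 13) (.e (nat_lit 393225) (nat_lit 9) (.e (nat_lit 335995) (nat_lit 1) (.e (nat_lit 57848) (nat_lit 252) (.e (nat_lit 57374) (nat_lit 2) (.e (nat_lit 90134) (nat_lit 9) .nil))))))) (.g (nat_lit 4) .nil .nil))) 
(.lf (nat_lit 3422) (.g (nat_lit 1628) (.e (nat_lit 248) (nat_lit 21) (.e (nat_lit 336076) (nat_lit 9) (.e (nat_lit 336454) (nat_lit 34) (.e (nat_lit 483365) (nat_lit 18) (.e (nat_lit 57848) (nat_lit 252) (.e (nat_lit 57375) (nat_lit 2) (.e (nat_lit 90130) (nat_lit 9) .nil))))))) (.g (nat_lit 4) .nil .nil)))) (.nd (nat_lit 6) 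
(.lf (nat_lit 3390) (.g (nat_lit 3598) (.e (nat_lit 247) (nat_lit 21) (.e (nat_lit 336229) (nat_lit 14) (.e (nat_lit 401459) (nat_lit 13) (.e (nat_lit 483372) (nat_lit 21) (.e (nat_lit 319511) (nat_lit 10) (.e (nat_lit 5664) (nat_lit 312) .nil)))))) (.g (nat_lit 4) .nil .nil))) 
(.lf (nat_lit 3454) (.g (nat_lit 1754) (.e (nat_lit 249) (nat_lit 21) (.e (nat_lit 336010) (nat_lit 2) (.e (nat_lit 90170) (nat_lit 13) (.e (nat_lit 172113) (nat_lit 10) (.e (nat_lit 434248) (nat_lit 28) .nil))))) .nil)))))))) (.nd (nat_lit 1) (.nd (nat_lit 2) (.nd (nat_lit 3) (.nd (nat_lit 4) (.nd (nat_lit 5) (.nd (nat_lit 6) 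
(.lf (nat_lit 3329) (.g (nat_lit 3193) (.e (nat_lit 247) (nat_lit 21) (.e (nat_lit 336204) (nat_lit 12) (.e (nat_lit 385074) (nat_lit 31) (.e (nat_lit 573482) (nat_lit 13) (.e (nat_lit 65616) (nat_lit 10) .nil))))) .nil)) 
(.lf (nat_lit 3393) (.g (nat_lit 2067) (.e (nat_lit 247) (nat_lit 21) (.e (nat_lit 336231) (nat_lit 14) (.e (nat_lit 401458) (nat_lit 13) (.e (nat_lit 483372) (nat_lit 21) (.e (nat_lit 319504) (nat_lit 10) .nil))))) .nil))) (.nd (nat_lit 6) 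
(.lf (nat_lit 3361) (.g (nat_lit 1808) (.e (nat_lit 247) (nat_lit 21) (.e (nat_lit 336223) (nat_lit 13) (.e (nat_lit 393234) (nat_lit 17) (.e (nat_lit 7591) (nat_lit 407) (.e (nat_lit 73775) (nat_lit 26) .nil))))) .nil)) 
(.lf (nat_lit 3425) (.g (nat_lit 2189) (.e (nat_lit 248) (nat_lit 21) (.e (nat_lit 336078) (nat_lit 9) (.e (nat_lit 336454) (nat_lit 34) (.e (nat_lit 483365) (nat_lit 18) (.e (nat_lit 57851) (nat_lit 252) .nil))))) .nil)))) (.nd (nat_lit 5) (.nd (nat_lit 6) 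
(.lf (nat_lit 3345) (.g (nat_lit 2425) (.e (nat_lit 247) (nat_lit 21) (.e (nat_lit 336213) (nat_lit 13) (.e (nat_lit 393225) (nat_lit 9) (.e (nat_lit 335995) (nat_lit 1) (.e (nat_lit 57848) (nat_lit 252) (.e (nat_lit 57372) (nat_lit 2) (.e (nat_lit 90130) (nat_lit 9) .nil))))))) (.g (nat_lit 5) .nil .nil))) 
(.lf (nat_lit 3409) (.g (nat_lit 2018) (.e (nat_lit 248) (nat_lit 21) (.e (nat_lit 336021) (nat_lit 3) (.e (nat_lit 98313) (nat_lit 9) (.e (nat_lit 336021) (nat_lit 3) .nil)))) .nil))) (.nd (nat_lit 6) 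
(.lf (nat_lit 3377) (.g (nat_lit 2721) (.e (nat_lit 247) (nat_lit 21) (.e (nat_lit 336223) (nat_lit 13) (.e (nat_lit 393301) (nat_lit 27) (.e (nat_lit 491558) (nat_lit 10) (.e (nat_lit 344096) (nat_lit 18) .nil))))) .nil)) 
(.lf (nat_lit 3441) (.g (nat_lit 2665) (.e (nat_lit 249) (nat_lit 21) (.e (nat_lit 335894) (nat_lit 0) (.e (nat_lit 6712) (nat_lit 360) (.e (nat_lit 163962) (nat_lit 25) (.e (nat_lit 532535) (nat_lit 9) (.e (nat_lit 336176) (nat_lit 10) (.e (nat_lit 344133) (nat_lit 26) (.e (nat_lit 557068) (nat_lit 9) .nil)))))))) (.g (nat_lit 4) .nil .nil)))))) (.nd (nat_lit 4) (.nd (nat_lit 5) (.nd (nat_lit 6) 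
(.lf (nat_lit 3337) (.g (nat_lit 4528) (.e (nat_lit 247) (nat_lit 21) (.e (nat_lit 336204) (nat_lit 12) (.e (nat_lit 385074) (nat_lit 31) (.e (nat_lit 573491) (nat_lit 15) (.e (nat_lit 81946) (nat_lit 20) (.e (nat_lit 1858) (nat_lit 124) (.e (nat_lit 557073) (nat_lit 9) .nil))))))) (.g (nat_lit 0) .nil .nil))) 
(.lf (nat_lit 3401) (.g (nat_lit 2244) (.e (nat_lit 248) (nat_lit 21) (.e (nat_lit 336012) (nat_lit 2) (.e (nat_lit 90176) (nat_lit 15) (.e (nat_lit 188450) (nat_lit 23) (.e (nat_lit 204815) (nat_lit 17) .nil))))) .nil))) (.nd (nat_lit 6) 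
(.lf (nat_lit 3369) (.g (nat_lit 2220) (.e (nat_lit 247) (nat_lit 21) (.e (nat_lit 336223) (nat_lit 13) (.e (nat_lit 393234) (nat_lit 17) (.e (nat_lit 7591) (nat_lit 407) (.e (nat_lit 73776) (nat_lit 26) (.e (nat_lit 778404) (nat_lit 9) .nil)))))) (.g (nat_lit 4) .nil .nil))) 
(.lf (nat_lit 3433) (.g (nat_lit 1786) (.e (nat_lit 248) (nat_lit 21) (.e (nat_lit 336223) (nat_lit 13) (.e (nat_lit 393234) (nat_lit 17) (.e (nat_lit 7591) (nat_lit 407) (.e (nat_lit 73775) (nat_lit 26) .nil))))) .nil)))) (.nd (nat_lit 5) (.nd (nat_lit 6) 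
(.lf (nat_lit 3353) (.g (nat_lit 2692) (.e (nat_lit 247) (nat_lit 21) (.e (nat_lit 336222) (nat_lit 13) (.e (nat_lit 393260) (nat_lit 21) (.e (nat_lit 409616) (nat_lit 10) (.e (nat_lit 4931) (nat_lit 287) .nil))))) .nil)) 
(.lf (nat_lit 3417) (.g (nat_lit 3653) (.e (nat_lit 248) (nat_lit 21) (.e (nat_lit 336027) (nat_lit 3) (.e (nat_lit 98373) (nat_lit 29) (.e (nat_lit 450587) (nat_lit 10) (.e (nat_lit 573477) (nat_lit 12) (.e (nat_lit 57575) (nat_lit 55) (.e (nat_lit 778365) (nat_lit 9) .nil))))))) (.g (nat_lit 5) .nil .nil)))) (.nd (nat_lit 6) 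
(.lf (nat_lit 3385) (.g (nat_lit 2647) (.e (nat_lit 247) (nat_lit 21) (.e (nat_lit 336223) (nat_lit 13) (.e (nat_lit 393301) (nat_lit 27) (.e (nat_lit 491560) (nat_lit 10) (.e (nat_lit 344179) (nat_lit 44) (.e (nat_lit 778401) (nat_lit 9) .nil)))))) (.g (nat_lit 4) .nil .nil))) 
(.lf (nat_lit 3449) (.g (nat_lit 3070) (.e (nat_lit 249) (nat_lit 21) (.e (nat_lit 336009) (nat_lit 2) (.e (nat_lit 90170) (nat_lit 13) (.e (nat_lit 172113) (nat_lit 10) (.e (nat_lit 434245) (nat_lit 28) (.e (nat_lit 573474) (nat_lit 12) (.e (nat_lit 57574) (nat_lit 55) (.e (nat_lit 778359) (nat_lit 9) .nil)))))))) (.g (nat_lit 5) .nil .nil))))))) 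
(.nd (nat_lit 3) (.nd (nat_lit 4) (.nd (nat_lit 5) (.nd (nat_lit 6) 
(.lf (nat_lit 3333) (.g (nat_lit 3208) (.e (nat_lit 247) (nat_lit 21) (.e (nat_lit 336204) (nat_lit 12) (.e (nat_lit 385074) (nat_lit 31) (.e (nat_lit 573491) (nat_lit 15) (.e (nat_lit 81946) (nat_lit 20) (.e (nat_lit 1858) (nat_lit 124) (.e (nat_lit 557065) (nat_lit 9) .nil))))))) (.g (nat_lit 5) .nil .nil))) 
(.lf (nat_lit 3397) (.g (nat_lit 3505) (.e (nat_lit 248) (nat_lit 21) (.e (nat_lit 336011) (nat_lit 2) (.e (nat_lit 90170) (nat_lit 13) (.e (nat_lit 172113) (nat_lit 10) (.e (nat_lit 434247) (nat_lit 28) .nil))))) .nil))) (.nd (nat_lit 6) 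
(.lf (nat_lit 3365) (.g (nat_lit 2109) (.e (nat_lit 247) (nat_lit 21) (.e (nat_lit 336223) (nat_lit 13) (.e (nat_lit 393234) (nat_lit 17) (.e (nat_lit 7591) (nat_lit 407) (.e (nat_lit 73776) (nat_lit 26) (.e (nat_lit 778377) (nat_lit 9) .nil)))))) (.g (nat_lit 4) .nil .nil))) 
(.lf (nat_lit 3429) (.g (nat_lit 3220) (.e (nat_lit 248) (nat_lit 21) (.e (nat_lit 336204) (nat_lit 12) (.e (nat_lit 385074) (nat_lit 31) (.e (nat_lit 573485) (nat_lit 13) .nil)))) .nil)))) (.nd (nat_lit 5) (.nd (nat_lit 6) 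
(.lf (nat_lit 3349) (.g (nat_lit 777) (.e (nat_lit 247) (nat_lit 21) (.e (nat_lit 336213) (nat_lit 13) (.e (nat_lit 393296) (nat_lit 26) .nil))) .nil)) 
(.lf (nat_lit 3413) (.g (nat_lit 2034) (.e (nat_lit 248) (nat_lit 21) (.e (nat_lit 336027) (nat_lit 3) (.e (nat_lit 98372) (nat_lit 29) (.e (nat_lit 450586) (nat_lit 10) (.e (nat_lit 573477) (nat_lit 12) .nil))))) .nil))) (.nd (nat_lit 6) 
(.lf (nat_lit 3381) (.g (nat_lit 2571) (.e (nat_lit 247) (nat_lit 21) (.e (nat_lit 336223) (nat_lit 13) (.e (nat_lit 393301) (nat_lit 27) (.e (nat_lit 491560) (nat_lit 10) (.e (nat_lit 344178) (nat_lit 44) .nil))))) .nil)) 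
(.lf (nat_lit 3445) (.g (nat_lit 3310) (.e (nat_lit 249) (nat_lit 21) (.e (nat_lit 336009) (nat_lit 2) (.e (nat_lit 90170) (nat_lit 13) (.e (nat_lit 172106) (nat_lit 10) (.e (nat_lit 434244) (nat_lit 28) (.e (nat_lit 573458) (nat_lit 9) (.e (nat_lit 1310) (nat_lit 98) (.e (nat_lit 147463) (nat_lit 9) .nil)))))))) (.g (nat_lit 8) .nil .nil)))))) (.nd (nat_lit 4) (.nd (nat_lit 5) (.nd (nat_lit 6) 
(.lf (nat_lit 3341) (.g (nat_lit 2520) (.e (nat_lit 247) (nat_lit 21) (.e (nat_lit 336204) (nat_lit 12) (.e (nat_lit 385074) (nat_lit 31) (.e (nat_lit 573491) (nat_lit 15) (.e (nat_lit 81946) (nat_lit 20) (.e (nat_lit 1858) (nat_lit 124) (.e (nat_lit 557079) (nat_lit 9) .nil))))))) (.g (nat_lit 4) .nil .nil))) 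
(.lf (nat_lit 3405) (.g (nat_lit 2213) (.e (nat_lit 248) (nat_lit 21) (.e (nat_lit 336012) (nat_lit 2) (.e (nat_lit 90176) (nat_lit 15) (.e (nat_lit 188450) (nat_lit 23) (.e (nat_lit 204830) (nat_lit 18) .nil))))) .nil))) (.nd (nat_lit 6) 
(.lf (nat_lit 3373) (.g (nat_lit 986) (.e (nat_lit 247) (nat_lit 21) (.e (nat_lit 336223) (nat_lit 13) (.e (nat_lit 393281) (nat_lit 23) .nil))) .nil)) 
(.lf (nat_lit 3437) (.g (nat_lit 2961) (.e (nat_lit 248) (nat_lit 21) (.e (nat_lit 336223) (nat_lit 13) (.e (nat_lit 393301) (nat_lit 27) (.e (nat_lit 491558) (nat_lit 10) (.e (nat_lit 344180) (nat_lit 44) .nil))))) .nil)))) (.nd (nat_lit 5) (.nd (nat_lit 6) 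
(.lf (nat_lit 3357) (.g (nat_lit 1951) (.e (nat_lit 247) (nat_lit 21) (.e (nat_lit 336223) (nat_lit 13) (.e (nat_lit 393225) (nat_lit 9) (.e (nat_lit 335995) (nat_lit 1) (.e (nat_lit 57848) (nat_lit 252) .nil))))) .nil)) 
(.lf (nat_lit 3421) (.g (nat_lit 2874) (.e (nat_lit 248) (nat_lit 21) (.e (nat_lit 336027) (nat_lit 3) (.e (nat_lit 98373) (nat_lit 29) (.e (nat_lit 450588) (nat_lit 10) (.e (nat_lit 573475) (nat_lit 12) (.e (nat_lit 57574) (nat_lit 55) (.e (nat_lit 778365) (nat_lit 9) .nil))))))) (.g (nat_lit 4) .nil .nil)))) (.nd (nat_lit 6) 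
(.lf (nat_lit 3389) (.g (nat_lit 3485) (.e (nat_lit 247) (nat_lit 21) (.e (nat_lit 336229) (nat_lit 14) (.e (nat_lit 401458) (nat_lit 13) (.e (nat_lit 483372) (nat_lit 21) (.e (nat_lit 319505) (nat_lit 10) (.e (nat_lit 5714) (nat_lit 312) .nil)))))) (.g (nat_lit 5) .nil .nil))) 
(.lf (nat_lit 3453) (.g (nat_lit 3175) (.e (nat_lit 249) (nat_lit 21) (.e (nat_lit 336009) (nat_lit 2) (.e (nat_lit 90170) (nat_lit 13) (.e (nat_lit 172113) (nat_lit 10) (.e (nat_lit 434248) (nat_lit 28) (.e (nat_lit 573475) (nat_lit 12) (.e (nat_lit 57574) (nat_lit 55) (.e (nat_lit 778359) (nat_lit 9) .nil)))))))) (.g (nat_lit 5) .nil .nil)))))))) 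
(.nd (nat_lit 2) (.nd (nat_lit 3) (.nd (nat_lit 4) (.nd (nat_lit 5) (.nd (nat_lit 6) 
(.lf (nat_lit 3331) (.g (nat_lit 1972) (.e (nat_lit 247) (nat_lit 21) (.e (nat_lit 336204) (nat_lit 12) (.e (nat_lit 385074) (nat_lit 31) (.e (nat_lit 573485) (nat_lit 13) .nil)))) .nil)) 
(.lf (nat_lit 3395) (.g (nat_lit 2540) (.e (nat_lit 248) (nat_lit 21) (.e (nat_lit 336011) (nat_lit 2) (.e (nat_lit 90170) (nat_lit 13) (.e (nat_lit 172113) (nat_lit 10) .nil)))) .nil))) (.nd (nat_lit 6) 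
(.lf (nat_lit 3363) (.g (nat_lit 2083) (.e (nat_lit 247) (nat_lit 21) (.e (nat_lit 336223) (nat_lit 13) (.e (nat_lit 393234) (nat_lit 17) (.e (nat_lit 7591) (nat_lit 407) (.e (nat_lit 73776) (nat_lit 26) .nil))))) .nil)) 
(.lf (nat_lit 3427) (.g (nat_lit 2005) (.e (nat_lit 248) (nat_lit 21) (.e (nat_lit 336086) (nat_lit 9) (.e (nat_lit 336369) (nat_lit 27) (.e (nat_lit 426173) (nat_lit 7) (.e (nat_lit 409649) (nat_lit 18) (.e (nat_lit 303111) (nat_lit 0) (.e (nat_lit 3578) (nat_lit 223) (.e (nat_lit 745499) (nat_lit 9) .nil)))))))) (.g (nat_lit 4) .nil .nil))))) (.nd (nat_lit 5) (.nd (nat_lit 6) 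
(.lf (nat_lit 3347) (.g (nat_lit 2151) (.e (nat_lit 247) (nat_lit 21) (.e (nat_lit 336213) (nat_lit 13) (.e (nat_lit 393225) (nat_lit 9) (.e (nat_lit 335995) (nat_lit 1) (.e (nat_lit 57848) (nat_lit 252) (.e (nat_lit 57374) (nat_lit 2) (.e (nat_lit 90134) (nat_lit 9) .nil))))))) (.g (nat_lit 4) .nil .nil))) 
(.lf (nat_lit 3411) (.g (nat_lit 2023) (.e (nat_lit 248) (nat_lit 21) (.e (nat_lit 336027) (nat_lit 3) (.e (nat_lit 98372) (nat_lit 29) (.e (nat_lit 450579) (nat_lit 5) (.e (nat_lit 532503) (nat_lit 1) .nil))))) .nil))) (.nd (nat_lit 6) 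
(.lf (nat_lit 3379) (.g (nat_lit 2474) (.e (nat_lit 247) (nat_lit 21) (.e (nat_lit 336223) (nat_lit 13) (.e (nat_lit 393301) (nat_lit 27) (.e (nat_lit 491558) (nat_lit 10) (.e (nat_lit 352000) (nat_lit 44) .nil))))) .nil)) 
(.lf (nat_lit 3443) (.g (nat_lit 1437) (.e (nat_lit 249) (nat_lit 21) (.e (nat_lit 336004) (nat_lit 2) (.e (nat_lit 90176) (nat_lit 15) (.e (nat_lit 188450) (nat_lit 23) .nil)))) .nil))))) (.nd (nat_lit 4) (.nd (nat_lit 5) (.nd (nat_lit 6) 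
(.lf (nat_lit 3339) (.g (nat_lit 4322) (.e (nat_lit 247) (nat_lit 21) (.e (nat_lit 336204) (nat_lit 12) (.e (nat_lit 385074) (nat_lit 31) (.e (nat_lit 573491) (nat_lit 15) (.e (nat_lit 81946) (nat_lit 20) (.e (nat_lit 1858) (nat_lit 124) (.e (nat_lit 557077) (nat_lit 9) .nil))))))) (.g (nat_lit 7) .nil .nil))) 
(.lf (nat_lit 3403) (.g (nat_lit 2751) (.e (nat_lit 248) (nat_lit 21) (.e (nat_lit 336012) (nat_lit 2) (.e (nat_lit 90176) (nat_lit 15) (.e (nat_lit 188450) (nat_lit 23) (.e (nat_lit 204818) (nat_lit 17) .nil))))) .nil))) (.nd (nat_lit 6) 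
(.lf (nat_lit 3371) (.g (nat_lit 1831) (.e (nat_lit 247) (nat_lit 21) (.e (nat_lit 336223) (nat_lit 13) (.e (nat_lit 393234) (nat_lit 17) (.e (nat_lit 7593) (nat_lit 407) (.e (nat_lit 73774) (nat_lit 26) .nil))))) .nil)) 
(.lf (nat_lit 3435) (.g (nat_lit 1679) (.e (nat_lit 248) (nat_lit 21) (.e (nat_lit 336223) (nat_lit 13) (.e (nat_lit 393234) (nat_lit 17) (.e (nat_lit 7593) (nat_lit 407) (.e (nat_lit 73775) (nat_lit 26) .nil))))) .nil)))) (.nd (nat_lit 5) (.nd (nat_lit 6) 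
(.lf (nat_lit 3355) (.g (nat_lit 2115) (.e (nat_lit 247) (nat_lit 21) (.e (nat_lit 336222) (nat_lit 13) (.e (nat_lit 393260) (nat_lit 21) (.e (nat_lit 409649) (nat_lit 18) (.e (nat_lit 303111) (nat_lit 0) (.e (nat_lit 3578) (nat_lit 223) (.e (nat_lit 745499) (nat_lit 9) .nil))))))) (.g (nat_lit 4) .nil .nil))) 
(.lf (nat_lit 3419) (.g (nat_lit 2636) (.e (nat_lit 248) (nat_lit 21) (.e (nat_lit 336027) (nat_lit 3) (.e (nat_lit 98373) (nat_lit 29) (.e (nat_lit 450587) (nat_lit 10) (.e (nat_lit 573478) (nat_lit 12) .nil))))) .nil))) (.nd (nat_lit 6) 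
(.lf (nat_lit 3387) (.g (nat_lit 2377) (.e (nat_lit 247) (nat_lit 21) (.e (nat_lit 336223) (nat_lit 13) (.e (nat_lit 393301) (nat_lit 27) (.e (nat_lit 491560) (nat_lit 10) (.e (nat_lit 352000) (nat_lit 44) .nil))))) .nil)) 
(.lf (nat_lit 3451) (.g (nat_lit 2511) (.e (nat_lit 249) (nat_lit 21) (.e (nat_lit 336009) (nat_lit 2) (.e (nat_lit 90170) (nat_lit 13) (.e (nat_lit 172113) (nat_lit 10) (.e (nat_lit 434247) (nat_lit 28) (.e (nat_lit 573478) (nat_lit 12) (.e (nat_lit 57574) (nat_lit 55) (.e (nat_lit 778359) (nat_lit 9) .nil)))))))) (.g (nat_lit 4) .nil .nil))))))) 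
(.nd (nat_lit 3) (.nd (nat_lit 4) (.nd (nat_lit 5) (.nd (nat_lit 6) 
(.lf (nat_lit 3335) (.g (nat_lit 4333) (.e (nat_lit 247) (nat_lit 21) (.e (nat_lit 336204) (nat_lit 12) (.e (nat_lit 385074) (nat_lit 31) (.e (nat_lit 573491) (nat_lit 15) (.e (nat_lit 81946) (nat_lit 20) (.e (nat_lit 1858) (nat_lit 124) (.e (nat_lit 557071) (nat_lit 9) .nil))))))) (.g (nat_lit 7) .nil .nil))) 
(.lf (nat_lit 3399) (.g (nat_lit 2183) (.e (nat_lit 248) (nat_lit 21) (.e (nat_lit 336012) (nat_lit 2) (.e (nat_lit 90176) (nat_lit 15) (.e (nat_lit 188447) (nat_lit 22) (.e (nat_lit 196661) (nat_lit 12) .nil))))) .nil))) (.nd (nat_lit 6) 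
(.lf (nat_lit 3367) (.g (nat_lit 2559) (.e (nat_lit 247) (nat_lit 21) (.e (nat_lit 336223) (nat_lit 13) (.e (nat_lit 393234) (nat_lit 17) (.e (nat_lit 7591) (nat_lit 407) (.e (nat_lit 73776) (nat_lit 26) (.e (nat_lit 778381) (nat_lit 9) .nil)))))) (.g (nat_lit 5) .nil .nil))) 
(.lf (nat_lit 3431) (.g (nat_lit 2446) (.e (nat_lit 248) (nat_lit 21) (.e (nat_lit 336213) (nat_lit 13) (.e (nat_lit 393225) (nat_lit 9) (.e (nat_lit 335995) (nat_lit 1) (.e (nat_lit 57848) (nat_lit 252) (.e (nat_lit 57372) (nat_lit 2) (.e (nat_lit 90130) (nat_lit 9) .nil))))))) (.g (nat_lit 5) .nil .nil))))) (.nd (nat_lit 5) (.nd (nat_lit 6) 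
(.lf (nat_lit 3351) (.g (nat_lit 1630) (.e (nat_lit 247) (nat_lit 21) (.e (nat_lit 336220) (nat_lit 13) (.e (nat_lit 393225) (nat_lit 9) (.e (nat_lit 335995) (nat_lit 1) (.e (nat_lit 57848) (nat_lit 252) (.e (nat_lit 57375) (nat_lit 2) (.e (nat_lit 90127) (nat_lit 9) .nil))))))) (.g (nat_lit 4) .nil .nil))) 
(.lf (nat_lit 3415) (.g (nat_lit 1980) (.e (nat_lit 248) (nat_lit 21) (.e (nat_lit 336027) (nat_lit 3) (.e (nat_lit 98372) (nat_lit 29) (.e (nat_lit 450586) (nat_lit 10) (.e (nat_lit 573478) (nat_lit 12) .nil))))) .nil))) (.nd (nat_lit 6) 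
(.lf (nat_lit 3383) (.g (nat_lit 3165) (.e (nat_lit 247) (nat_lit 21) (.e (nat_lit 336223) (nat_lit 13) (.e (nat_lit 393301) (nat_lit 27) (.e (nat_lit 491560) (nat_lit 10) (.e (nat_lit 344179) (nat_lit 44) (.e (nat_lit 778377) (nat_lit 9) .nil)))))) (.g (nat_lit 5) .nil .nil))) 
(.lf (nat_lit 3447) (.g (nat_lit 2338) (.e (nat_lit 249) (nat_lit 21) (.e (nat_lit 336009) (nat_lit 2) (.e (nat_lit 90170) (nat_lit 13) (.e (nat_lit 172113) (nat_lit 10) (.e (nat_lit 434245) (nat_lit 28) .nil))))) .nil))))) (.nd (nat_lit 4) (.nd (nat_lit 5) (.nd (nat_lit 6) 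
(.lf (nat_lit 3343) (.g (nat_lit 1696) (.e (nat_lit 247) (nat_lit 21) (.e (nat_lit 336204) (nat_lit 12) (.e (nat_lit 385074) (nat_lit 31) (.e (nat_lit 573493) (nat_lit 15) .nil)))) .nil)) 
(.lf (nat_lit 3407) (.g (nat_lit 2445) (.e (nat_lit 248) (nat_lit 21) (.e (nat_lit 336021) (nat_lit 3) (.e (nat_lit 98313) (nat_lit 9) (.e (nat_lit 336004) (nat_lit 2) (.e (nat_lit 90158) (nat_lit 11) .nil))))) .nil))) (.nd (nat_lit 6) 
(.lf (nat_lit 3375) (.g (nat_lit 1666) (.e (nat_lit 247) (nat_lit 21) (.e (nat_lit 336223) (nat_lit 13) (.e (nat_lit 393301) (nat_lit 27) (.e (nat_lit 491552) (nat_lit 9) .nil)))) .nil)) 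
(.lf (nat_lit 3439) (.g (nat_lit 4177) (.e (nat_lit 248) (nat_lit 21) (.e (nat_lit 336226) (nat_lit 14) (.e (nat_lit 401459) (nat_lit 13) (.e (nat_lit 483372) (nat_lit 21) (.e (nat_lit 319504) (nat_lit 10) .nil))))) .nil)))) (.nd (nat_lit 5) (.nd (nat_lit 6) 
(.lf (nat_lit 3359) (.g (nat_lit 978) (.e (nat_lit 247) (nat_lit 21) (.e (nat_lit 336223) (nat_lit 13) (.e (nat_lit 393229) (nat_lit 9) .nil))) .nil)) 
(.lf (nat_lit 3423) (.g (nat_lit 1341) (.e (nat_lit 248) (nat_lit 21) (.e (nat_lit 336076) (nat_lit 9) (.e (nat_lit 336454) (nat_lit 34) (.e (nat_lit 483366) (nat_lit 18) (.e (nat_lit 57848) (nat_lit 252) .nil))))) .nil))) (.nd (nat_lit 6) 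
(.lf (nat_lit 3391) (.g (nat_lit 1486) (.e (nat_lit 247) (nat_lit 21) (.e (nat_lit 336231) (nat_lit 14) (.e (nat_lit 401458) (nat_lit 13) (.e (nat_lit 483350) (nat_lit 17) .nil)))) .nil)) 
(.lf (nat_lit 3455) (.g (nat_lit 2613) (.e (nat_lit 249) (nat_lit 21) (.e (nat_lit 336011) (nat_lit 2) (.e (nat_lit 90170) (nat_lit 13) (.e (nat_lit 172106) (nat_lit 10) (.e (nat_lit 434231) (nat_lit 23) (.e (nat_lit 532490) (nat_lit 0) (.e (nat_lit 1918) (nat_lit 130) (.e (nat_lit 606231) (nat_lit 9) .nil)))))))) (.g (nat_lit 4) .nil .nil))))))))))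

noncomputable def tv046 : DT := (.nd (nat_lit 0) (.nd (nat_lit 1) (.nd (nat_lit 2) (.nd (nat_lit 3) (.nd (nat_lit 4) (.nd (nat_lit 5) 
(.lf (nat_lit 3456) (.g (nat_lit 2206) (.e (nat_lit 249) (nat_lit 21) (.e (nat_lit 336011) (nat_lit 2) (.e (nat_lit 90170) (nat_lit 13) (.e (nat_lit 172106) (nat_lit 10) (.e (nat_lit 434244) (nat_lit 28) .nil))))) .nil)) 
(.lf (nat_lit 3488) (.g (nat_lit 882) (.e (nat_lit 249) (nat_lit 21) (.e (nat_lit 336021) (nat_lit 3) (.e (nat_lit 98365) (nat_lit 26) .nil))) .nil))) (.nd (nat_lit 5) 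
(.lf (nat_lit 3472) (.g (nat_lit 705) (.e (nat_lit 249) (nat_lit 21) (.e (nat_lit 336012) (nat_lit 2) (.e (nat_lit 90176) (nat_lit 15) .nil))) .nil)) 
(.lf (nat_lit 3504) (.g (nat_lit 2099) (.e (nat_lit 249) (nat_lit 21) (.e (nat_lit 336027) (nat_lit 3) (.e (nat_lit 98372) (nat_lit 29) (.e (nat_lit 450586) (nat_lit 10) (.e (nat_lit 573477) (nat_lit 12) (.e (nat_lit 57575) (nat_lit 55) (.e (nat_lit 778379) (nat_lit 9) .nil))))))) (.g (nat_lit 4) .nil .nil))))) (.nd (nat_lit 4) (.nd (nat_lit 5) 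
(.lf (nat_lit 3464) (.g (nat_lit 4731) (.e (nat_lit 249) (nat_lit 21) (.e (nat_lit 336011) (nat_lit 2) (.e (nat_lit 90170) (nat_lit 13) (.e (nat_lit 172113) (nat_lit 10) (.e (nat_lit 434247) (nat_lit 28) (.e (nat_lit 573456) (nat_lit 9) (.e (nat_lit 1312) (nat_lit 98) (.e (nat_lit 147463) (nat_lit 9) .nil)))))))) (.g (nat_lit 5) .nil .nil))) 
(.lf (nat_lit 3496) (.g (nat_lit 4694) (.e (nat_lit 249) (nat_lit 21) (.e (nat_lit 336026) (nat_lit 3) (.e (nat_lit 98373) (nat_lit 29) (.e (nat_lit 450588) (nat_lit 10) (.e (nat_lit 573452) (nat_lit 9) .nil))))) .nil))) (.nd (nat_lit 5) 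
(.lf (nat_lit 3480) (.g (nat_lit 2321) (.e (nat_lit 249) (nat_lit 21) (.e (nat_lit 336021) (nat_lit 3) (.e (nat_lit 98313) (nat_lit 9) (.e (nat_lit 336004) (nat_lit 2) (.e (nat_lit 90158) (nat_lit 11) .nil))))) .nil)) 
(.lf (nat_lit 3512) (.g (nat_lit 2866) (.e (nat_lit 249) (nat_lit 21) (.e (nat_lit 336027) (nat_lit 3) (.e (nat_lit 98373) (nat_lit 29) (.e (nat_lit 450587) (nat_lit 10) (.e (nat_lit 573477) (nat_lit 12) (.e (nat_lit 57575) (nat_lit 55) (.e (nat_lit 778379) (nat_lit 9) .nil))))))) (.g (nat_lit 4) .nil .nil)))))) (.nd (nat_lit 3) (.nd (nat_lit 4) (.nd (nat_lit 5) 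
(.lf (nat_lit 3460) (.g (nat_lit 3489) (.e (nat_lit 249) (nat_lit 21) (.e (nat_lit 336011) (nat_lit 2) (.e (nat_lit 90170) (nat_lit 13) (.e (nat_lit 172113) (nat_lit 10) (.e (nat_lit 434245) (nat_lit 28) .nil))))) .nil)) 
(.lf (nat_lit 3492) (.g (nat_lit 1871) (.e (nat_lit 249) (nat_lit 21) (.e (nat_lit 336021) (nat_lit 3) (.e (nat_lit 98372) (nat_lit 29) (.e (nat_lit 450586) (nat_lit 10) .nil)))) .nil))) (.nd (nat_lit 5) 
(.lf (nat_lit 3476) (.g (nat_lit 2509) (.e (nat_lit 249) (nat_lit 21) (.e (nat_lit 336012) (nat_lit 2) (.e (nat_lit 90176) (nat_lit 15) (.e (nat_lit 188450) (nat_lit 23) (.e (nat_lit 204815) (nat_lit 17) (.e (nat_lit 1917) (nat_lit 130) (.e (nat_lit 606231) (nat_lit 9) .nil))))))) (.g (nat_lit 4) .nil .nil))) 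
(.lf (nat_lit 3508) (.g (nat_lit 1562) (.e (nat_lit 249) (nat_lit 21) (.e (nat_lit 336027) (nat_lit 3) (.e (nat_lit 98373) (nat_lit 29) (.e (nat_lit 450586) (nat_lit 10) .nil)))) .nil)))) (.nd (nat_lit 4) (.nd (nat_lit 5) 
(.lf (nat_lit 3468) (.g (nat_lit 3683) (.e (nat_lit 249) (nat_lit 21) (.e (nat_lit 336011) (nat_lit 2) (.e (nat_lit 90170) (nat_lit 13) (.e (nat_lit 172113) (nat_lit 10) (.e (nat_lit 434248) (nat_lit 28) (.e (nat_lit 573449) (nat_lit 9) (.e (nat_lit 1312) (nat_lit 98) (.e (nat_lit 147463) (nat_lit 9) .nil)))))))) (.g (nat_lit 4) .nil .nil))) 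
(.lf (nat_lit 3500) (.g (nat_lit 2026) (.e (nat_lit 249) (nat_lit 21) (.e (nat_lit 336027) (nat_lit 3) (.e (nat_lit 98372) (nat_lit 29) (.e (nat_lit 450586) (nat_lit 10) (.e (nat_lit 573477) (nat_lit 12) .nil))))) .nil))) (.nd (nat_lit 5) 
(.lf (nat_lit 3484) (.g (nat_lit 1928) (.e (nat_lit 249) (nat_lit 21) (.e (nat_lit 336021) (nat_lit 3) (.e (nat_lit 98313) (nat_lit 9) (.e (nat_lit 336021) (nat_lit 3) .nil)))) .nil)) 
(.lf (nat_lit 3516) (.g (nat_lit 2242) (.e (nat_lit 249) (nat_lit 21) (.e (nat_lit 336078) (nat_lit 9) (.e (nat_lit 336240) (nat_lit 15) (.e (nat_lit 3309) (nat_lit 202) (.e (nat_lit 573485) (nat_lit 13) (.e (nat_lit 65619) (nat_lit 10) (.e (nat_lit 344129) (nat_lit 26) (.e (nat_lit 557065) (nat_lit 9) .nil)))))))) (.g (nat_lit 4) .nil .nil))))))) 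
(.nd (nat_lit 2) (.nd (nat_lit 3) (.nd (nat_lit 4) (.nd (nat_lit 5) 
(.lf (nat_lit 3458) (.g (nat_lit 3812) (.e (nat_lit 249) (nat_lit 21) (.e (nat_lit 336011) (nat_lit 2) (.e (nat_lit 90170) (nat_lit 13) (.e (nat_lit 172106) (nat_lit 10) (.e (nat_lit 434244) (nat_lit 28) (.e (nat_lit 573458) (nat_lit 9) (.e (nat_lit 1313) (nat_lit 98) (.e (nat_lit 147463) (nat_lit 9) .nil)))))))) (.g (nat_lit 6) .nil .nil))) 
(.lf (nat_lit 3490) (.g (nat_lit 1093) (.e (nat_lit 249) (nat_lit 21) (.e (nat_lit 336021) (nat_lit 3) (.e (nat_lit 98369) (nat_lit 28) .nil))) .nil))) (.nd (nat_lit 5) 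
(.lf (nat_lit 3474) (.g (nat_lit 1413) (.e (nat_lit 249) (nat_lit 21) (.e (nat_lit 336012) (nat_lit 2) (.e (nat_lit 90176) (nat_lit 15) (.e (nat_lit 188450) (nat_lit 23) .nil)))) .nil)) 
(.lf (nat_lit 3506) (.g (nat_lit 3642) (.e (nat_lit 249) (nat_lit 21) (.e (nat_lit 336027) (nat_lit 3) (.e (nat_lit 98372) (nat_lit 29) (.e (nat_lit 450588) (nat_lit 10) (.e (nat_lit 573452) (nat_lit 9) .nil))))) .nil)))) (.nd (nat_lit 4) (.nd (nat_lit 5) 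
(.lf (nat_lit 3466) (.g (nat_lit 3697) (.e (nat_lit 249) (nat_lit 21) (.e (nat_lit 336011) (nat_lit 2) (.e (nat_lit 90170) (nat_lit 13) (.e (nat_lit 172113) (nat_lit 10) (.e (nat_lit 434247) (nat_lit 28) (.e (nat_lit 573478) (nat_lit 12) (.e (nat_lit 57574) (nat_lit 55) (.e (nat_lit 778359) (nat_lit 9) .nil)))))))) (.g (nat_lit 4) .nil .nil))) 
(.lf (nat_lit 3498) (.g (nat_lit 2290) (.e (nat_lit 249) (nat_lit 21) (.e (nat_lit 336027) (nat_lit 3) (.e (nat_lit 98372) (nat_lit 29) (.e (nat_lit 450586) (nat_lit 10) (.e (nat_lit 573452) (nat_lit 9) (.e (nat_lit 1314) (nat_lit 98) (.e (nat_lit 147463) (nat_lit 9) .nil))))))) (.g (nat_lit 4) .nil .nil)))) (.nd (nat_lit 5) 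
(.lf (nat_lit 3482) (.g (nat_lit 2393) (.e (nat_lit 249) (nat_lit 21) (.e (nat_lit 336021) (nat_lit 3) (.e (nat_lit 98313) (nat_lit 9) (.e (nat_lit 336012) (nat_lit 2) (.e (nat_lit 90158) (nat_lit 11) .nil))))) .nil)) 
(.lf (nat_lit 3514) (.g (nat_lit 4788) (.e (nat_lit 249) (nat_lit 21) (.e (nat_lit 336027) (nat_lit 3) (.e (nat_lit 98373) (nat_lit 29) (.e (nat_lit 450588) (nat_lit 10) (.e (nat_lit 573452) (nat_lit 9) (.e (nat_lit 1310) (nat_lit 98) (.e (nat_lit 147463) (nat_lit 9) .nil))))))) (.g (nat_lit 6) .nil .nil)))))) (.nd (nat_lit 3) (.nd (nat_lit 4) (.nd (nat_lit 5) 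
(.lf (nat_lit 3462) (.g (nat_lit 4241) (.e (nat_lit 249) (nat_lit 21) (.e (nat_lit 336011) (nat_lit 2) (.e (nat_lit 90170) (nat_lit 13) (.e (nat_lit 172113) (nat_lit 10) (.e (nat_lit 434245) (nat_lit 28) (.e (nat_lit 573474) (nat_lit 12) (.e (nat_lit 57574) (nat_lit 55) (.e (nat_lit 778359) (nat_lit 9) .nil)))))))) (.g (nat_lit 5) .nil .nil))) 
(.lf (nat_lit 3494) (.g (nat_lit 3928) (.e (nat_lit 249) (nat_lit 21) (.e (nat_lit 336025) (nat_lit 3) (.e (nat_lit 98373) (nat_lit 29) (.e (nat_lit 450587) (nat_lit 10) (.e (nat_lit 573454) (nat_lit 9) (.e (nat_lit 1315) (nat_lit 98) (.e (nat_lit 147463) (nat_lit 9) .nil))))))) (.g (nat_lit 6) .nil .nil)))) (.nd (nat_lit 5) 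
(.lf (nat_lit 3478) (.g (nat_lit 2752) (.e (nat_lit 249) (nat_lit 21) (.e (nat_lit 336012) (nat_lit 2) (.e (nat_lit 90176) (nat_lit 15) (.e (nat_lit 188450) (nat_lit 23) (.e (nat_lit 204818) (nat_lit 17) .nil))))) .nil)) 
(.lf (nat_lit 3510) (.g (nat_lit 2758) (.e (nat_lit 249) (nat_lit 21) (.e (nat_lit 336027) (nat_lit 3) (.e (nat_lit 98373) (nat_lit 29) (.e (nat_lit 450587) (nat_lit 10) (.e (nat_lit 573477) (nat_lit 12) .nil))))) .nil)))) (.nd (nat_lit 4) (.nd (nat_lit 5) 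
(.lf (nat_lit 3470) (.g (nat_lit 3597) (.e (nat_lit 249) (nat_lit 21) (.e (nat_lit 336011) (nat_lit 2) (.e (nat_lit 90170) (nat_lit 13) (.e (nat_lit 172113) (nat_lit 10) (.e (nat_lit 434248) (nat_lit 28) (.e (nat_lit 573452) (nat_lit 9) (.e (nat_lit 1314) (nat_lit 98) (.e (nat_lit 147463) (nat_lit 9) .nil)))))))) (.g (nat_lit 4) .nil .nil))) 
(.lf (nat_lit 3502) (.g (nat_lit 2905) (.e (nat_lit 249) (nat_lit 21) (.e (nat_lit 336027) (nat_lit 3) (.e (nat_lit 98372) (nat_lit 29) (.e (nat_lit 450586) (nat_lit 10) (.e (nat_lit 573477) (nat_lit 12) (.e (nat_lit 57575) (nat_lit 55) (.e (nat_lit 778366) (nat_lit 9) .nil))))))) (.g (nat_lit 5) .nil .nil)))) (.nd (nat_lit 5) 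
(.lf (nat_lit 3486) (.g (nat_lit 1888) (.e (nat_lit 249) (nat_lit 21) (.e (nat_lit 336021) (nat_lit 3) (.e (nat_lit 98313) (nat_lit 9) (.e (nat_lit 336027) (nat_lit 3) .nil)))) .nil)) 
(.lf (nat_lit 3518) (.g (nat_lit 2344) (.e (nat_lit 249) (nat_lit 21) (.e (nat_lit 336078) (nat_lit 9) (.e (nat_lit 336454) (nat_lit 34) (.e (nat_lit 483363) (nat_lit 18) (.e (nat_lit 57854) (nat_lit 252) .nil))))) .nil))))))) (.nd (nat_lit 1) (.nd (nat_lit 2) (.nd (nat_lit 3) (.nd (nat_lit 4) (.nd (nat_lit 5) 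
(.lf (nat_lit 3457) (.g (nat_lit 5041) (.e (nat_lit 249) (nat_lit 21) (.e (nat_lit 336011) (nat_lit 2) (.e (nat_lit 90170) (nat_lit 13) (.e (nat_lit 172106) (nat_lit 10) (.e (nat_lit 434244) (nat_lit 28) (.e (nat_lit 573451) (nat_lit 9) (.e (nat_lit 1310) (nat_lit 98) (.e (nat_lit 147463) (nat_lit 9) .nil)))))))) (.g (nat_lit 0) .nil .nil))) 
(.lf (nat_lit 3489) (.g (nat_lit 2211) (.e (nat_lit 249) (nat_lit 21) (.e (nat_lit 336021) (nat_lit 3) (.e (nat_lit 98365) (nat_lit 26) (.e (nat_lit 426298) (nat_lit 11) (.e (nat_lit 458789) (nat_lit 23) (.e (nat_lit 532481) (nat_lit 0) (.e (nat_lit 1917) (nat_lit 130) (.e (nat_lit 606231) (nat_lit 9) .nil)))))))) (.g (nat_lit 4) .nil .nil)))) (.nd (nat_lit 5) 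
(.lf (nat_lit 3473) (.g (nat_lit 2185) (.e (nat_lit 249) (nat_lit 21) (.e (nat_lit 336012) (nat_lit 2) (.e (nat_lit 90176) (nat_lit 15) (.e (nat_lit 188447) (nat_lit 22) (.e (nat_lit 196661) (nat_lit 12) .nil))))) .nil)) 
(.lf (nat_lit 3505) (.g (nat_lit 1980) (.e (nat_lit 249) (nat_lit 21) (.e (nat_lit 336027) (nat_lit 3) (.e (nat_lit 98372) (nat_lit 29) (.e (nat_lit 450586) (nat_lit 10) (.e (nat_lit 573478) (nat_lit 12) .nil))))) .nil)))) (.nd (nat_lit 4) (.nd (nat_lit 5) 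
(.lf (nat_lit 3465) (.g (nat_lit 3795) (.e (nat_lit 249) (nat_lit 21) (.e (nat_lit 336011) (nat_lit 2) (.e (nat_lit 90170) (nat_lit 13) (.e (nat_lit 172113) (nat_lit 10) (.e (nat_lit 434247) (nat_lit 28) (.e (nat_lit 573477) (nat_lit 12) (.e (nat_lit 57575) (nat_lit 55) (.e (nat_lit 778377) (nat_lit 9) .nil)))))))) (.g (nat_lit 4) .nil .nil))) 
(.lf (nat_lit 3497) (.g (nat_lit 2247) (.e (nat_lit 249) (nat_lit 21) (.e (nat_lit 336027) (nat_lit 3) (.e (nat_lit 98372) (nat_lit 29) (.e (nat_lit 450586) (nat_lit 10) (.e (nat_lit 573449) (nat_lit 9) (.e (nat_lit 1312) (nat_lit 98) (.e (nat_lit 147463) (nat_lit 9) .nil))))))) (.g (nat_lit 4) .nil .nil)))) (.nd (nat_lit 5) 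
(.lf (nat_lit 3481) (.g (nat_lit 2505) (.e (nat_lit 249) (nat_lit 21) (.e (nat_lit 336021) (nat_lit 3) (.e (nat_lit 98313) (nat_lit 9) (.e (nat_lit 336004) (nat_lit 2) (.e (nat_lit 90158) (nat_lit 11) (.e (nat_lit 24604) (nat_lit 2) (.e (nat_lit 90130) (nat_lit 9) .nil))))))) (.g (nat_lit 4) .nil .nil))) 
(.lf (nat_lit 3513) (.g (nat_lit 2647) (.e (nat_lit 249) (nat_lit 21) (.e (nat_lit 336027) (nat_lit 3) (.e (nat_lit 98373) (nat_lit 29) (.e (nat_lit 450587) (nat_lit 10) (.e (nat_lit 573478) (nat_lit 12) .nil))))) .nil))))) (.nd (nat_lit 3) (.nd (nat_lit 4) (.nd (nat_lit 5) 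
(.lf (nat_lit 3461) (.g (nat_lit 3653) (.e (nat_lit 249) (nat_lit 21) (.e (nat_lit 336011) (nat_lit 2) (.e (nat_lit 90170) (nat_lit 13) (.e (nat_lit 172113) (nat_lit 10) (.e (nat_lit 434245) (nat_lit 28) (.e (nat_lit 573449) (nat_lit 9) (.e (nat_lit 1312) (nat_lit 98) (.e (nat_lit 147463) (nat_lit 9) .nil)))))))) (.g (nat_lit 4) .nil .nil))) 
(.lf (nat_lit 3493) (.g (nat_lit 2926) (.e (nat_lit 249) (nat_lit 21) (.e (nat_lit 336021) (nat_lit 3) (.e (nat_lit 98372) (nat_lit 29) (.e (nat_lit 450586) (nat_lit 10) (.e (nat_lit 573456) (nat_lit 9) .nil))))) .nil))) (.nd (nat_lit 5) 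
(.lf (nat_lit 3477) (.g (nat_lit 2645) (.e (nat_lit 249) (nat_lit 21) (.e (nat_lit 336012) (nat_lit 2) (.e (nat_lit 90176) (nat_lit 15) (.e (nat_lit 188450) (nat_lit 23) (.e (nat_lit 204817) (nat_lit 17) (.e (nat_lit 1915) (nat_lit 130) (.e (nat_lit 606231) (nat_lit 9) .nil))))))) (.g (nat_lit 5) .nil .nil))) 
(.lf (nat_lit 3509) (.g (nat_lit 3729) (.e (nat_lit 249) (nat_lit 21) (.e (nat_lit 336027) (nat_lit 3) (.e (nat_lit 98373) (nat_lit 29) (.e (nat_lit 450587) (nat_lit 10) (.e (nat_lit 573454) (nat_lit 9) (.e (nat_lit 1315) (nat_lit 98) (.e (nat_lit 147463) (nat_lit 9) .nil))))))) (.g (nat_lit 6) .nil .nil))))) (.nd (nat_lit 4) (.nd (nat_lit 5) 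
(.lf (nat_lit 3469) (.g (nat_lit 3806) (.e (nat_lit 249) (nat_lit 21) (.e (nat_lit 336011) (nat_lit 2) (.e (nat_lit 90170) (nat_lit 13) (.e (nat_lit 172113) (nat_lit 10) (.e (nat_lit 434248) (nat_lit 28) (.e (nat_lit 573452) (nat_lit 9) (.e (nat_lit 1310) (nat_lit 98) (.e (nat_lit 147463) (nat_lit 9) .nil)))))))) (.g (nat_lit 4) .nil .nil))) 
(.lf (nat_lit 3501) (.g (nat_lit 2674) (.e (nat_lit 249) (nat_lit 21) (.e (nat_lit 336027) (nat_lit 3) (.e (nat_lit 98372) (nat_lit 29) (.e (nat_lit 450586) (nat_lit 10) (.e (nat_lit 573477) (nat_lit 12) (.e (nat_lit 57575) (nat_lit 55) (.e (nat_lit 778359) (nat_lit 9) .nil))))))) (.g (nat_lit 5) .nil .nil)))) (.nd (nat_lit 5) 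
(.lf (nat_lit 3485) (.g (nat_lit 2566) (.e (nat_lit 249) (nat_lit 21) (.e (nat_lit 336021) (nat_lit 3) (.e (nat_lit 98313) (nat_lit 9) (.e (nat_lit 336021) (nat_lit 3) (.e (nat_lit 98313) (nat_lit 9) .nil))))) .nil)) 
(.lf (nat_lit 3517) (.g (nat_lit 564) (.e (nat_lit 249) (nat_lit 21) (.e (nat_lit 336078) (nat_lit 9) (.e (nat_lit 336454) (nat_lit 34) .nil))) .nil)))))) (.nd (nat_lit 2) (.nd (nat_lit 3) (.nd (nat_lit 4) (.nd (nat_lit 5) 
(.lf (nat_lit 3459) (.g (nat_lit 2553) (.e (nat_lit 249) (nat_lit 21) (.e (nat_lit 336011) (nat_lit 2) (.e (nat_lit 90170) (nat_lit 13) (.e (nat_lit 172113) (nat_lit 10) .nil)))) .nil)) 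
(.lf (nat_lit 3491) (.g (nat_lit 1106) (.e (nat_lit 249) (nat_lit 21) (.e (nat_lit 336021) (nat_lit 3) (.e (nat_lit 98372) (nat_lit 29) .nil))) .nil))) (.nd (nat_lit 5) 
(.lf (nat_lit 3475) (.g (nat_lit 2246) (.e (nat_lit 249) (nat_lit 21) (.e (nat_lit 336012) (nat_lit 2) (.e (nat_lit 90176) (nat_lit 15) (.e (nat_lit 188450) (nat_lit 23) (.e (nat_lit 204815) (nat_lit 17) .nil))))) .nil)) 
(.lf (nat_lit 3507) (.g (nat_lit 3447) (.e (nat_lit 249) (nat_lit 21) (.e (nat_lit 336027) (nat_lit 3) (.e (nat_lit 98372) (nat_lit 29) (.e (nat_lit 450588) (nat_lit 10) (.e (nat_lit 573475) (nat_lit 12) .nil))))) .nil)))) (.nd (nat_lit 4) (.nd (nat_lit 5) 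
(.lf (nat_lit 3467) (.g (nat_lit 3438) (.e (nat_lit 249) (nat_lit 21) (.e (nat_lit 336011) (nat_lit 2) (.e (nat_lit 90170) (nat_lit 13) (.e (nat_lit 172113) (nat_lit 10) (.e (nat_lit 434248) (nat_lit 28) .nil))))) .nil)) 
(.lf (nat_lit 3499) (.g (nat_lit 2171) (.e (nat_lit 249) (nat_lit 21) (.e (nat_lit 336027) (nat_lit 3) (.e (nat_lit 98372) (nat_lit 29) (.e (nat_lit 450586) (nat_lit 10) (.e (nat_lit 573475) (nat_lit 12) (.e (nat_lit 57574) (nat_lit 55) (.e (nat_lit 778366) (nat_lit 9) .nil))))))) (.g (nat_lit 4) .nil .nil)))) (.nd (nat_lit 5) 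
(.lf (nat_lit 3483) (.g (nat_lit 2551) (.e (nat_lit 249) (nat_lit 21) (.e (nat_lit 336021) (nat_lit 3) (.e (nat_lit 98313) (nat_lit 9) (.e (nat_lit 336012) (nat_lit 2) (.e (nat_lit 90158) (nat_lit 11) (.e (nat_lit 24604) (nat_lit 2) (.e (nat_lit 90130) (nat_lit 9) .nil))))))) (.g (nat_lit 4) .nil .nil))) 
(.lf (nat_lit 3515) (.g (nat_lit 4629) (.e (nat_lit 249) (nat_lit 21) (.e (nat_lit 336027) (nat_lit 3) (.e (nat_lit 98373) (nat_lit 29) (.e (nat_lit 450588) (nat_lit 10) (.e (nat_lit 573452) (nat_lit 9) (.e (nat_lit 1314) (nat_lit 98) (.e (nat_lit 147463) (nat_lit 9) .nil))))))) (.g (nat_lit 5) .nil .nil)))))) (.nd (nat_lit 3) (.nd (nat_lit 4) (.nd (nat_lit 5) 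
(.lf (nat_lit 3463) (.g (nat_lit 3518) (.e (nat_lit 249) (nat_lit 21) (.e (nat_lit 336011) (nat_lit 2) (.e (nat_lit 90170) (nat_lit 13) (.e (nat_lit 172113) (nat_lit 10) (.e (nat_lit 434247) (nat_lit 28) .nil))))) .nil)) 
(.lf (nat_lit 3495) (.g (nat_lit 4456) (.e (nat_lit 249) (nat_lit 21) (.e (nat_lit 336025) (nat_lit 3) (.e (nat_lit 98373) (nat_lit 29) (.e (nat_lit 450587) (nat_lit 10) (.e (nat_lit 573456) (nat_lit 9) (.e (nat_lit 1312) (nat_lit 98) (.e (nat_lit 147463) (nat_lit 9) .nil))))))) (.g (nat_lit 5) .nil .nil)))) (.nd (nat_lit 5) 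
(.lf (nat_lit 3479) (.g (nat_lit 1583) (.e (nat_lit 249) (nat_lit 21) (.e (nat_lit 336012) (nat_lit 2) (.e (nat_lit 90178) (nat_lit 15) (.e (nat_lit 188440) (nat_lit 20) .nil)))) .nil)) 
(.lf (nat_lit 3511) (.g (nat_lit 2865) (.e (nat_lit 249) (nat_lit 21) (.e (nat_lit 336027) (nat_lit 3) (.e (nat_lit 98373) (nat_lit 29) (.e (nat_lit 450587) (nat_lit 10) (.e (nat_lit 573477) (nat_lit 12) (.e (nat_lit 57575) (nat_lit 55) (.e (nat_lit 778378) (nat_lit 9) .nil))))))) (.g (nat_lit 4) .nil .nil))))) (.nd (nat_lit 4) (.nd (nat_lit 5) 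
(.lf (nat_lit 3471) (.g (nat_lit 4351) (.e (nat_lit 249) (nat_lit 21) (.e (nat_lit 336011) (nat_lit 2) (.e (nat_lit 90170) (nat_lit 13) (.e (nat_lit 172113) (nat_lit 10) (.e (nat_lit 434248) (nat_lit 28) (.e (nat_lit 573475) (nat_lit 12) (.e (nat_lit 57574) (nat_lit 55) (.e (nat_lit 778359) (nat_lit 9) .nil)))))))) (.g (nat_lit 5) .nil .nil))) 
(.lf (nat_lit 3503) (.g (nat_lit 2098) (.e (nat_lit 249) (nat_lit 21) (.e (nat_lit 336027) (nat_lit 3) (.e (nat_lit 98372) (nat_lit 29) (.e (nat_lit 450586) (nat_lit 10) (.e (nat_lit 573477) (nat_lit 12) (.e (nat_lit 57575) (nat_lit 55) (.e (nat_lit 778378) (nat_lit 9) .nil))))))) (.g (nat_lit 4) .nil .nil)))) (.nd (nat_lit 5) 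
(.lf (nat_lit 3487) (.g (nat_lit 2502) (.e (nat_lit 249) (nat_lit 21) (.e (nat_lit 336021) (nat_lit 3) (.e (nat_lit 98313) (nat_lit 9) (.e (nat_lit 336027) (nat_lit 3) (.e (nat_lit 98313) (nat_lit 9) .nil))))) .nil)) 
(.lf (nat_lit 3519) (.g (nat_lit 1223) (.e (nat_lit 249) (nat_lit 21) (.e (nat_lit 336078) (nat_lit 9) (.e (nat_lit 336454) (nat_lit 34) (.e (nat_lit 483365) (nat_lit 18) .nil)))) .nil))))))))

noncomputable def tv047 : DT := (.nd (nat_lit 0) (.nd (nat_lit 1) (.nd (nat_lit 2) (.nd (nat_lit 3) (.nd (nat_lit 4) (.nd (nat_lit 5) 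
(.lf (nat_lit 3520) (.g (nat_lit 1759) (.e (nat_lit 249) (nat_lit 21) (.e (nat_lit 336078) (nat_lit 9) (.e (nat_lit 336454) (nat_lit 34) (.e (nat_lit 483365) (nat_lit 18) (.e (nat_lit 57847) (nat_lit 252) .nil))))) .nil)) 
(.lf (nat_lit 3552) (.g (nat_lit 3539) (.e (nat_lit 249) (nat_lit 21) (.e (nat_lit 336204) (nat_lit 12) (.e (nat_lit 385074) (nat_lit 31) (.e (nat_lit 573452) (nat_lit 9) .nil)))) .nil))) (.nd (nat_lit 5) 
(.lf (nat_lit 3536) (.g (nat_lit 3025) (.e (nat_lit 249) (nat_lit 21) (.e (nat_lit 336188) (nat_lit 11) (.e (nat_lit 368662) (nat_lit 18) (.e (nat_lit 7147) (nat_lit 382) (.e (nat_lit 1217) (nat_lit 90) (.e (nat_lit 81965) (nat_lit 26) (.e (nat_lit 147463) (nat_lit 9) .nil))))))) (.g (nat_lit 0) .nil .nil))) 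
(.lf (nat_lit 3568) (.g (nat_lit 2365) (.e (nat_lit 249) (nat_lit 21) (.e (nat_lit 336213) (nat_lit 13) (.e (nat_lit 393225) (nat_lit 9) (.e (nat_lit 335995) (nat_lit 1) (.e (nat_lit 57848) (nat_lit 252) .nil))))) .nil)))) (.nd (nat_lit 4) (.nd (nat_lit 5) 
(.lf (nat_lit 3528) (.g (nat_lit 1122) (.e (nat_lit 249) (nat_lit 21) (.e (nat_lit 336158) (nat_lit 9) (.e (nat_lit 335988) (nat_lit 1) (.e (nat_lit 65280) (nat_lit 152) .nil)))) .nil)) 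
(.lf (nat_lit 3560) (.g (nat_lit 4547) (.e (nat_lit 249) (nat_lit 21) (.e (nat_lit 336204) (nat_lit 12) (.e (nat_lit 385074) (nat_lit 31) (.e (nat_lit 573484) (nat_lit 13) (.e (nat_lit 65610) (nat_lit 10) (.e (nat_lit 344129) (nat_lit 26) (.e (nat_lit 557067) (nat_lit 9) .nil))))))) (.g (nat_lit 6) .nil .nil)))) (.nd (nat_lit 5) 
(.lf (nat_lit 3544) (.g (nat_lit 4270) (.e (nat_lit 249) (nat_lit 21) (.e (nat_lit 336196) (nat_lit 12) (.e (nat_lit 385072) (nat_lit 31) (.e (nat_lit 573485) (nat_lit 13) (.e (nat_lit 65619) (nat_lit 10) (.e (nat_lit 344129) (nat_lit 26) (.e (nat_lit 557065) (nat_lit 9) .nil))))))) (.g (nat_lit 7) .nil .nil))) 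
(.lf (nat_lit 3576) (.g (nat_lit 2039) (.e (nat_lit 249) (nat_lit 21) (.e (nat_lit 336213) (nat_lit 13) (.e (nat_lit 393298) (nat_lit 27) (.e (nat_lit 491554) (nat_lit 9) .nil)))) .nil))))) (.nd (nat_lit 3) (.nd (nat_lit 4) (.nd (nat_lit 5) 
(.lf (nat_lit 3524) (.g (nat_lit 2039) (.e (nat_lit 249) (nat_lit 21) (.e (nat_lit 336078) (nat_lit 9) (.e (nat_lit 336454) (nat_lit 34) (.e (nat_lit 483365) (nat_lit 18) (.e (nat_lit 57851) (nat_lit 252) .nil))))) .nil)) 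
(.lf (nat_lit 3556) (.g (nat_lit 3906) (.e (nat_lit 249) (nat_lit 21) (.e (nat_lit 336204) (nat_lit 12) (.e (nat_lit 385074) (nat_lit 31) (.e (nat_lit 573482) (nat_lit 13) (.e (nat_lit 65609) (nat_lit 10) .nil))))) .nil))) (.nd (nat_lit 5) 
(.lf (nat_lit 3540) (.g (nat_lit 1676) (.e (nat_lit 249) (nat_lit 21) (.e (nat_lit 336196) (nat_lit 12) (.e (nat_lit 385044) (nat_lit 21) (.e (nat_lit 4492) (nat_lit 263) (.e (nat_lit 1220) (nat_lit 90) (.e (nat_lit 81965) (nat_lit 26) (.e (nat_lit 147463) (nat_lit 9) .nil))))))) (.g (nat_lit 5) .nil .nil))) 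
(.lf (nat_lit 3572) (.g (nat_lit 744) (.e (nat_lit 249) (nat_lit 21) (.e (nat_lit 336213) (nat_lit 13) (.e (nat_lit 393233) (nat_lit 17) .nil))) .nil)))) (.nd (nat_lit 4) (.nd (nat_lit 5) 
(.lf (nat_lit 3532) (.g (nat_lit 1073) (.e (nat_lit 249) (nat_lit 21) (.e (nat_lit 336184) (nat_lit 11) (.e (nat_lit 368662) (nat_lit 18) (.e (nat_lit 7147) (nat_lit 382) (.e (nat_lit 1217) (nat_lit 90) (.e (nat_lit 81963) (nat_lit 26) (.e (nat_lit 147463) (nat_lit 9) .nil))))))) (.g (nat_lit 4) .nil .nil))) 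
(.lf (nat_lit 3564) (.g (nat_lit 4211) (.e (nat_lit 249) (nat_lit 21) (.e (nat_lit 336204) (nat_lit 12) (.e (nat_lit 385074) (nat_lit 31) (.e (nat_lit 573491) (nat_lit 15) (.e (nat_lit 81946) (nat_lit 20) (.e (nat_lit 1858) (nat_lit 124) (.e (nat_lit 557065) (nat_lit 9) .nil))))))) (.g (nat_lit 6) .nil .nil)))) (.nd (nat_lit 5) 
(.lf (nat_lit 3548) (.g (nat_lit 2228) (.e (nat_lit 249) (nat_lit 21) (.e (nat_lit 336196) (nat_lit 12) (.e (nat_lit 385074) (nat_lit 31) (.e (nat_lit 573484) (nat_lit 13) (.e (nat_lit 65617) (nat_lit 10) .nil))))) .nil)) 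
(.lf (nat_lit 3580) (.g (nat_lit 3389) (.e (nat_lit 249) (nat_lit 21) (.e (nat_lit 336213) (nat_lit 13) (.e (nat_lit 393300) (nat_lit 27) (.e (nat_lit 491546) (nat_lit 9) (.e (nat_lit 336048) (nat_lit 6) (.e (nat_lit 147463) (nat_lit 9) .nil)))))) (.g (nat_lit 0) .nil .nil))))))) (.nd (nat_lit 2) (.nd (nat_lit 3) (.nd (nat_lit 4) (.nd (nat_lit 5) 
(.lf (nat_lit 3522) (.g (nat_lit 2062) (.e (nat_lit 249) (nat_lit 21) (.e (nat_lit 336078) (nat_lit 9) (.e (nat_lit 336454) (nat_lit 34) (.e (nat_lit 483365) (nat_lit 18) (.e (nat_lit 57849) (nat_lit 252) (.e (nat_lit 57372) (nat_lit 2) (.e (nat_lit 90127) (nat_lit 9) .nil))))))) (.g (nat_lit 4) .nil .nil))) 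
(.lf (nat_lit 3554) (.g (nat_lit 4415) (.e (nat_lit 249) (nat_lit 21) (.e (nat_lit 336204) (nat_lit 12) (.e (nat_lit 385074) (nat_lit 31) (.e (nat_lit 573479) (nat_lit 13) .nil)))) .nil))) (.nd (nat_lit 5) 
(.lf (nat_lit 3538) (.g (nat_lit 2973) (.e (nat_lit 249) (nat_lit 21) (.e (nat_lit 336194) (nat_lit 12) (.e (nat_lit 385074) (nat_lit 31) (.e (nat_lit 573484) (nat_lit 13) (.e (nat_lit 65617) (nat_lit 10) .nil))))) .nil)) 
(.lf (nat_lit 3570) (.g (nat_lit 3718) (.e (nat_lit 249) (nat_lit 21) (.e (nat_lit 336213) (nat_lit 13) (.e (nat_lit 393225) (nat_lit 9) (.e (nat_lit 335995) (nat_lit 1) (.e (nat_lit 57848) (nat_lit 252) (.e (nat_lit 57374) (nat_lit 2) (.e (nat_lit 90134) (nat_lit 9) .nil))))))) (.g (nat_lit 6) .nil .nil))))) (.nd (nat_lit 4) (.nd (nat_lit 5) 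
(.lf (nat_lit 3530) (.g (nat_lit 1190) (.e (nat_lit 249) (nat_lit 21) (.e (nat_lit 336165) (nat_lit 10) (.e (nat_lit 344126) (nat_lit 25) (.e (nat_lit 548872) (nat_lit 5) (.e (nat_lit 1598) (nat_lit 111) .nil))))) .nil)) 
(.lf (nat_lit 3562) (.g (nat_lit 2561) (.e (nat_lit 249) (nat_lit 21) (.e (nat_lit 336204) (nat_lit 12) (.e (nat_lit 385074) (nat_lit 31) (.e (nat_lit 573485) (nat_lit 13) .nil)))) .nil))) (.nd (nat_lit 5) 
(.lf (nat_lit 3546) (.g (nat_lit 2144) (.e (nat_lit 249) (nat_lit 21) (.e (nat_lit 336196) (nat_lit 12) (.e (nat_lit 385073) (nat_lit 31) (.e (nat_lit 573484) (nat_lit 13) (.e (nat_lit 65617) (nat_lit 10) (.e (nat_lit 344130) (nat_lit 26) (.e (nat_lit 557067) (nat_lit 9) .nil))))))) (.g (nat_lit 4) .nil .nil))) 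
(.lf (nat_lit 3578) (.g (nat_lit 3442) (.e (nat_lit 249) (nat_lit 21) (.e (nat_lit 336213) (nat_lit 13) (.e (nat_lit 393299) (nat_lit 27) (.e (nat_lit 491546) (nat_lit 9) (.e (nat_lit 336048) (nat_lit 6) (.e (nat_lit 147463) (nat_lit 9) .nil)))))) (.g (nat_lit 4) .nil .nil)))))) (.nd (nat_lit 3) (.nd (nat_lit 4) (.nd (nat_lit 5) 
(.lf (nat_lit 3526) (.g (nat_lit 1697) (.e (nat_lit 249) (nat_lit 21) (.e (nat_lit 336158) (nat_lit 9) (.e (nat_lit 335986) (nat_lit 1) (.e (nat_lit 57655) (nat_lit 152) (.e (nat_lit 1216) (nat_lit 90) (.e (nat_lit 81963) (nat_lit 26) (.e (nat_lit 147463) (nat_lit 9) .nil))))))) (.g (nat_lit 5) .nil .nil))) 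
(.lf (nat_lit 3558) (.g (nat_lit 3893) (.e (nat_lit 249) (nat_lit 21) (.e (nat_lit 336204) (nat_lit 12) (.e (nat_lit 385074) (nat_lit 31) (.e (nat_lit 573482) (nat_lit 13) (.e (nat_lit 65616) (nat_lit 10) .nil))))) .nil))) (.nd (nat_lit 5) 
(.lf (nat_lit 3542) (.g (nat_lit 5115) (.e (nat_lit 249) (nat_lit 21) (.e (nat_lit 336196) (nat_lit 12) (.e (nat_lit 385072) (nat_lit 31) (.e (nat_lit 573481) (nat_lit 13) (.e (nat_lit 65619) (nat_lit 10) (.e (nat_lit 344129) (nat_lit 26) (.e (nat_lit 557065) (nat_lit 9) .nil))))))) (.g (nat_lit 0) .nil .nil))) 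
(.lf (nat_lit 3574) (.g (nat_lit 879) (.e (nat_lit 249) (nat_lit 21) (.e (nat_lit 336213) (nat_lit 13) (.e (nat_lit 393237) (nat_lit 17) .nil))) .nil)))) (.nd (nat_lit 4) (.nd (nat_lit 5) 
(.lf (nat_lit 3534) (.g (nat_lit 3003) (.e (nat_lit 249) (nat_lit 21) (.e (nat_lit 336186) (nat_lit 11) (.e (nat_lit 368662) (nat_lit 18) (.e (nat_lit 7147) (nat_lit 382) (.e (nat_lit 1217) (nat_lit 90) (.e (nat_lit 81965) (nat_lit 26) (.e (nat_lit 147463) (nat_lit 9) .nil))))))) (.g (nat_lit 0) .nil .nil))) 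
(.lf (nat_lit 3566) (.g (nat_lit 2749) (.e (nat_lit 249) (nat_lit 21) (.e (nat_lit 336204) (nat_lit 12) (.e (nat_lit 385074) (nat_lit 31) (.e (nat_lit 573491) (nat_lit 15) (.e (nat_lit 81946) (nat_lit 20) (.e (nat_lit 1858) (nat_lit 124) (.e (nat_lit 557068) (nat_lit 9) .nil))))))) (.g (nat_lit 4) .nil .nil)))) (.nd (nat_lit 5) 
(.lf (nat_lit 3550) (.g (nat_lit 2405) (.e (nat_lit 249) (nat_lit 21) (.e (nat_lit 336202) (nat_lit 12) (.e (nat_lit 385074) (nat_lit 31) (.e (nat_lit 573484) (nat_lit 13) (.e (nat_lit 65617) (nat_lit 10) .nil))))) .nil)) 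
(.lf (nat_lit 3582) (.g (nat_lit 3278) (.e (nat_lit 249) (nat_lit 21) (.e (nat_lit 336213) (nat_lit 13) (.e (nat_lit 393301) (nat_lit 27) (.e (nat_lit 491546) (nat_lit 9) (.e (nat_lit 336048) (nat_lit 6) .nil))))) .nil))))))) (.nd (nat_lit 1) (.nd (nat_lit 2) (.nd (nat_lit 3) (.nd (nat_lit 4) (.nd (nat_lit 5) 
(.lf (nat_lit 3521) (.g (nat_lit 1664) (.e (nat_lit 249) (nat_lit 21) (.e (nat_lit 336078) (nat_lit 9) (.e (nat_lit 336454) (nat_lit 34) (.e (nat_lit 483365) (nat_lit 18) (.e (nat_lit 57849) (nat_lit 252) .nil))))) .nil)) 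
(.lf (nat_lit 3553) (.g (nat_lit 4135) (.e (nat_lit 249) (nat_lit 21) (.e (nat_lit 336204) (nat_lit 12) (.e (nat_lit 385074) (nat_lit 31) (.e (nat_lit 573456) (nat_lit 9) .nil)))) .nil))) (.nd (nat_lit 5) 
(.lf (nat_lit 3537) (.g (nat_lit 2368) (.e (nat_lit 249) (nat_lit 21) (.e (nat_lit 336193) (nat_lit 12) (.e (nat_lit 385074) (nat_lit 31) (.e (nat_lit 573484) (nat_lit 13) (.e (nat_lit 65617) (nat_lit 10) (.e (nat_lit 344133) (nat_lit 26) (.e (nat_lit 557068) (nat_lit 9) .nil))))))) (.g (nat_lit 4) .nil .nil))) 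
(.lf (nat_lit 3569) (.g (nat_lit 2770) (.e (nat_lit 249) (nat_lit 21) (.e (nat_lit 336213) (nat_lit 13) (.e (nat_lit 393225) (nat_lit 9) (.e (nat_lit 335995) (nat_lit 1) (.e (nat_lit 57848) (nat_lit 252) (.e (nat_lit 57372) (nat_lit 2) (.e (nat_lit 90131) (nat_lit 9) .nil))))))) (.g (nat_lit 4) .nil .nil))))) (.nd (nat_lit 4) (.nd (nat_lit 5) 
(.lf (nat_lit 3529) (.g (nat_lit 3229) (.e (nat_lit 249) (nat_lit 21) (.e (nat_lit 336163) (nat_lit 10) (.e (nat_lit 344177) (nat_lit 43) (.e (nat_lit 770074) (nat_lit 10) (.e (nat_lit 81965) (nat_lit 26) (.e (nat_lit 147463) (nat_lit 9) .nil)))))) (.g (nat_lit 6) .nil .nil))) 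
(.lf (nat_lit 3561) (.g (nat_lit 3772) (.e (nat_lit 249) (nat_lit 21) (.e (nat_lit 336204) (nat_lit 12) (.e (nat_lit 385074) (nat_lit 31) (.e (nat_lit 573484) (nat_lit 13) (.e (nat_lit 65617) (nat_lit 10) (.e (nat_lit 344133) (nat_lit 26) (.e (nat_lit 557068) (nat_lit 9) .nil))))))) (.g (nat_lit 4) .nil .nil)))) (.nd (nat_lit 5) 
(.lf (nat_lit 3545) (.g (nat_lit 4198) (.e (nat_lit 249) (nat_lit 21) (.e (nat_lit 336196) (nat_lit 12) (.e (nat_lit 385073) (nat_lit 31) (.e (nat_lit 573482) (nat_lit 13) (.e (nat_lit 65619) (nat_lit 10) (.e (nat_lit 344129) (nat_lit 26) (.e (nat_lit 557065) (nat_lit 9) .nil))))))) (.g (nat_lit 0) .nil .nil))) 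
(.lf (nat_lit 3577) (.g (nat_lit 946) (.e (nat_lit 249) (nat_lit 21) (.e (nat_lit 336213) (nat_lit 13) (.e (nat_lit 393299) (nat_lit 27) .nil))) .nil))))) (.nd (nat_lit 3) (.nd (nat_lit 4) (.nd (nat_lit 5) 
(.lf (nat_lit 3525) (.g (nat_lit 666) (.e (nat_lit 249) (nat_lit 21) (.e (nat_lit 336088) (nat_lit 9) (.e (nat_lit 335878) (nat_lit 0) .nil))) .nil)) 
(.lf (nat_lit 3557) (.g (nat_lit 4631) (.e (nat_lit 249) (nat_lit 21) (.e (nat_lit 336204) (nat_lit 12) (.e (nat_lit 385074) (nat_lit 31) (.e (nat_lit 573482) (nat_lit 13) (.e (nat_lit 65610) (nat_lit 10) .nil))))) .nil))) (.nd (nat_lit 5) 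
(.lf (nat_lit 3541) (.g (nat_lit 2464) (.e (nat_lit 249) (nat_lit 21) (.e (nat_lit 336196) (nat_lit 12) (.e (nat_lit 385072) (nat_lit 31) (.e (nat_lit 573481) (nat_lit 13) (.e (nat_lit 65619) (nat_lit 10) .nil))))) .nil)) 
(.lf (nat_lit 3573) (.g (nat_lit 2642) (.e (nat_lit 249) (nat_lit 21) (.e (nat_lit 336213) (nat_lit 13) (.e (nat_lit 393233) (nat_lit 17) (.e (nat_lit 7587) (nat_lit 406) (.e (nat_lit 65580) (nat_lit 6) (.e (nat_lit 147463) (nat_lit 9) .nil)))))) (.g (nat_lit 6) .nil .nil))))) (.nd (nat_lit 4) (.nd (nat_lit 5) 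
(.lf (nat_lit 3533) (.g (nat_lit 2554) (.e (nat_lit 249) (nat_lit 21) (.e (nat_lit 336186) (nat_lit 11) (.e (nat_lit 368662) (nat_lit 18) (.e (nat_lit 7147) (nat_lit 382) (.e (nat_lit 1216) (nat_lit 90) (.e (nat_lit 81965) (nat_lit 26) (.e (nat_lit 147463) (nat_lit 9) .nil))))))) (.g (nat_lit 7) .nil .nil))) 
(.lf (nat_lit 3565) (.g (nat_lit 4459) (.e (nat_lit 249) (nat_lit 21) (.e (nat_lit 336204) (nat_lit 12) (.e (nat_lit 385074) (nat_lit 31) (.e (nat_lit 573491) (nat_lit 15) (.e (nat_lit 81946) (nat_lit 20) (.e (nat_lit 1858) (nat_lit 124) (.e (nat_lit 557067) (nat_lit 9) .nil))))))) (.g (nat_lit 6) .nil .nil)))) (.nd (nat_lit 5) 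
(.lf (nat_lit 3549) (.g (nat_lit 2589) (.e (nat_lit 249) (nat_lit 21) (.e (nat_lit 336196) (nat_lit 12) (.e (nat_lit 385074) (nat_lit 31) (.e (nat_lit 573484) (nat_lit 13) (.e (nat_lit 65617) (nat_lit 10) (.e (nat_lit 344130) (nat_lit 26) (.e (nat_lit 557067) (nat_lit 9) .nil))))))) (.g (nat_lit 4) .nil .nil))) 
(.lf (nat_lit 3581) (.g (nat_lit 888) (.e (nat_lit 249) (nat_lit 21) (.e (nat_lit 336213) (nat_lit 13) (.e (nat_lit 393301) (nat_lit 27) .nil))) .nil)))))) (.nd (nat_lit 2) (.nd (nat_lit 3) (.nd (nat_lit 4) (.nd (nat_lit 5) 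
(.lf (nat_lit 3523) (.g (nat_lit 1964) (.e (nat_lit 249) (nat_lit 21) (.e (nat_lit 336078) (nat_lit 9) (.e (nat_lit 336454) (nat_lit 34) (.e (nat_lit 483365) (nat_lit 18) (.e (nat_lit 57849) (nat_lit 252) (.e (nat_lit 57372) (nat_lit 2) (.e (nat_lit 90131) (nat_lit 9) .nil))))))) (.g (nat_lit 4) .nil .nil))) 
(.lf (nat_lit 3555) (.g (nat_lit 2770) (.e (nat_lit 249) (nat_lit 21) (.e (nat_lit 336204) (nat_lit 12) (.e (nat_lit 385074) (nat_lit 31) (.e (nat_lit 573482) (nat_lit 13) .nil)))) .nil))) (.nd (nat_lit 5) 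
(.lf (nat_lit 3539) (.g (nat_lit 575) (.e (nat_lit 249) (nat_lit 21) (.e (nat_lit 336196) (nat_lit 12) (.e (nat_lit 385044) (nat_lit 21) .nil))) .nil)) 
(.lf (nat_lit 3571) (.g (nat_lit 2893) (.e (nat_lit 249) (nat_lit 21) (.e (nat_lit 336213) (nat_lit 13) (.e (nat_lit 393225) (nat_lit 9) (.e (nat_lit 335995) (nat_lit 1) (.e (nat_lit 57848) (nat_lit 252) (.e (nat_lit 57375) (nat_lit 2) (.e (nat_lit 90130) (nat_lit 9) .nil))))))) (.g (nat_lit 5) .nil .nil))))) (.nd (nat_lit 4) (.nd (nat_lit 5) 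
(.lf (nat_lit 3531) (.g (nat_lit 3174) (.e (nat_lit 249) (nat_lit 21) (.e (nat_lit 336165) (nat_lit 10) (.e (nat_lit 344177) (nat_lit 43) (.e (nat_lit 770074) (nat_lit 10) (.e (nat_lit 81965) (nat_lit 26) (.e (nat_lit 147463) (nat_lit 9) .nil)))))) (.g (nat_lit 0) .nil .nil))) 
(.lf (nat_lit 3563) (.g (nat_lit 4706) (.e (nat_lit 249) (nat_lit 21) (.e (nat_lit 336204) (nat_lit 12) (.e (nat_lit 385074) (nat_lit 31) (.e (nat_lit 573485) (nat_lit 13) (.e (nat_lit 65619) (nat_lit 10) (.e (nat_lit 344129) (nat_lit 26) (.e (nat_lit 557065) (nat_lit 9) .nil))))))) (.g (nat_lit 6) .nil .nil)))) (.nd (nat_lit 5) 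
(.lf (nat_lit 3547) (.g (nat_lit 3957) (.e (nat_lit 249) (nat_lit 21) (.e (nat_lit 336196) (nat_lit 12) (.e (nat_lit 385073) (nat_lit 31) (.e (nat_lit 573485) (nat_lit 13) (.e (nat_lit 65619) (nat_lit 10) (.e (nat_lit 344129) (nat_lit 26) (.e (nat_lit 557065) (nat_lit 9) .nil))))))) (.g (nat_lit 7) .nil .nil))) 
(.lf (nat_lit 3579) (.g (nat_lit 738) (.e (nat_lit 249) (nat_lit 21) (.e (nat_lit 336213) (nat_lit 13) (.e (nat_lit 393300) (nat_lit 27) .nil))) .nil))))) (.nd (nat_lit 3) (.nd (nat_lit 4) (.nd (nat_lit 5) 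
(.lf (nat_lit 3527) (.g (nat_lit 1709) (.e (nat_lit 249) (nat_lit 21) (.e (nat_lit 336158) (nat_lit 9) (.e (nat_lit 335986) (nat_lit 1) (.e (nat_lit 57655) (nat_lit 152) (.e (nat_lit 1217) (nat_lit 90) (.e (nat_lit 81963) (nat_lit 26) (.e (nat_lit 147463) (nat_lit 9) .nil))))))) (.g (nat_lit 5) .nil .nil))) 
(.lf (nat_lit 3559) (.g (nat_lit 4798) (.e (nat_lit 249) (nat_lit 21) (.e (nat_lit 336204) (nat_lit 12) (.e (nat_lit 385074) (nat_lit 31) (.e (nat_lit 573482) (nat_lit 13) (.e (nat_lit 65619) (nat_lit 10) (.e (nat_lit 344129) (nat_lit 26) (.e (nat_lit 557065) (nat_lit 9) .nil))))))) (.g (nat_lit 5) .nil .nil)))) (.nd (nat_lit 5) 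
(.lf (nat_lit 3543) (.g (nat_lit 2427) (.e (nat_lit 249) (nat_lit 21) (.e (nat_lit 336196) (nat_lit 12) (.e (nat_lit 385072) (nat_lit 31) (.e (nat_lit 573484) (nat_lit 13) (.e (nat_lit 65617) (nat_lit 10) (.e (nat_lit 344130) (nat_lit 26) (.e (nat_lit 557067) (nat_lit 9) .nil))))))) (.g (nat_lit 4) .nil .nil))) 
(.lf (nat_lit 3575) (.g (nat_lit 2028) (.e (nat_lit 249) (nat_lit 21) (.e (nat_lit 336213) (nat_lit 13) (.e (nat_lit 393298) (nat_lit 27) (.e (nat_lit 491552) (nat_lit 9) .nil)))) .nil)))) (.nd (nat_lit 4) (.nd (nat_lit 5) 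
(.lf (nat_lit 3535) (.g (nat_lit 2575) (.e (nat_lit 249) (nat_lit 21) (.e (nat_lit 336188) (nat_lit 11) (.e (nat_lit 368662) (nat_lit 18) (.e (nat_lit 7147) (nat_lit 382) (.e (nat_lit 1216) (nat_lit 90) (.e (nat_lit 81965) (nat_lit 26) (.e (nat_lit 147463) (nat_lit 9) .nil))))))) (.g (nat_lit 7) .nil .nil))) 
(.lf (nat_lit 3567) (.g (nat_lit 2538) (.e (nat_lit 249) (nat_lit 21) (.e (nat_lit 336204) (nat_lit 12) (.e (nat_lit 385074) (nat_lit 31) (.e (nat_lit 573491) (nat_lit 15) (.e (nat_lit 81946) (nat_lit 20) (.e (nat_lit 1858) (nat_lit 124) (.e (nat_lit 557073) (nat_lit 9) .nil))))))) (.g (nat_lit 4) .nil .nil)))) (.nd (nat_lit 5) 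
(.lf (nat_lit 3551) (.g (nat_lit 2702) (.e (nat_lit 249) (nat_lit 21) (.e (nat_lit 336202) (nat_lit 12) (.e (nat_lit 385074) (nat_lit 31) (.e (nat_lit 573484) (nat_lit 13) (.e (nat_lit 65617) (nat_lit 10) (.e (nat_lit 344130) (nat_lit 26) (.e (nat_lit 557067) (nat_lit 9) .nil))))))) (.g (nat_lit 4) .nil .nil))) 
(.lf (nat_lit 3583) (.g (nat_lit 621) (.e (nat_lit 249) (nat_lit 21) (.e (nat_lit 336215) (nat_lit 13) (.e (nat_lit 393217) (nat_lit 0) .nil))) .nil))))))))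

noncomputable def tv048 : DT := (.nd (nat_lit 0) (.nd (nat_lit 1) (.nd (nat_lit 2) (.nd (nat_lit 3) (.nd (nat_lit 4) (.nd (nat_lit 5) 
(.lf (nat_lit 3584) (.g (nat_lit 621) (.e (nat_lit 249) (nat_lit 21) (.e (nat_lit 336215) (nat_lit 13) (.e (nat_lit 393218) (nat_lit 0) .nil))) .nil)) 
(.lf (nat_lit 3616) (.g (nat_lit 3976) (.e (nat_lit 249) (nat_lit 21) (.e (nat_lit 336215) (nat_lit 13) (.e (nat_lit 393229) (nat_lit 9) (.e (nat_lit 335988) (nat_lit 1) (.e (nat_lit 57854) (nat_lit 252) (.e (nat_lit 57373) (nat_lit 2) (.e (nat_lit 90134) (nat_lit 9) .nil))))))) (.g (nat_lit 6) .nil .nil)))) (.nd (nat_lit 5) 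
(.lf (nat_lit 3600) (.g (nat_lit 2798) (.e (nat_lit 249) (nat_lit 21) (.e (nat_lit 336215) (nat_lit 13) (.e (nat_lit 393229) (nat_lit 9) (.e (nat_lit 335986) (nat_lit 1) (.e (nat_lit 57849) (nat_lit 252) (.e (nat_lit 57375) (nat_lit 2) (.e (nat_lit 90129) (nat_lit 9) .nil))))))) (.g (nat_lit 5) .nil .nil))) 
(.lf (nat_lit 3632) (.g (nat_lit 2255) (.e (nat_lit 249) (nat_lit 21) (.e (nat_lit 336215) (nat_lit 13) (.e (nat_lit 393229) (nat_lit 9) (.e (nat_lit 335996) (nat_lit 1) (.e (nat_lit 57830) (nat_lit 250) (.e (nat_lit 999) (nat_lit 81) (.e (nat_lit 1239) (nat_lit 91) (.e (nat_lit 90134) (nat_lit 9) .nil)))))))) (.g (nat_lit 4) .nil .nil))))) (.nd (nat_lit 4) (.nd (nat_lit 5) 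
(.lf (nat_lit 3592) (.g (nat_lit 3077) (.e (nat_lit 249) (nat_lit 21) (.e (nat_lit 336215) (nat_lit 13) (.e (nat_lit 393227) (nat_lit 9) (.e (nat_lit 335998) (nat_lit 1) (.e (nat_lit 57849) (nat_lit 252) (.e (nat_lit 57375) (nat_lit 2) (.e (nat_lit 90129) (nat_lit 9) .nil))))))) (.g (nat_lit 6) .nil .nil))) 
(.lf (nat_lit 3624) (.g (nat_lit 2333) (.e (nat_lit 249) (nat_lit 21) (.e (nat_lit 336215) (nat_lit 13) (.e (nat_lit 393229) (nat_lit 9) (.e (nat_lit 335995) (nat_lit 1) (.e (nat_lit 57847) (nat_lit 252) (.e (nat_lit 57374) (nat_lit 2) (.e (nat_lit 90130) (nat_lit 9) .nil))))))) (.g (nat_lit 4) .nil .nil)))) (.nd (nat_lit 5) 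
(.lf (nat_lit 3608) (.g (nat_lit 3773) (.e (nat_lit 249) (nat_lit 21) (.e (nat_lit 336215) (nat_lit 13) (.e (nat_lit 393229) (nat_lit 9) (.e (nat_lit 335988) (nat_lit 1) (.e (nat_lit 57852) (nat_lit 252) (.e (nat_lit 57373) (nat_lit 2) (.e (nat_lit 90130) (nat_lit 9) .nil))))))) (.g (nat_lit 7) .nil .nil))) 
(.lf (nat_lit 3640) (.g (nat_lit 2816) (.e (nat_lit 249) (nat_lit 21) (.e (nat_lit 336215) (nat_lit 13) (.e (nat_lit 393229) (nat_lit 9) (.e (nat_lit 335996) (nat_lit 1) (.e (nat_lit 57852) (nat_lit 252) (.e (nat_lit 57373) (nat_lit 2) (.e (nat_lit 90129) (nat_lit 9) .nil))))))) (.g (nat_lit 5) .nil .nil)))))) (.nd (nat_lit 3) (.nd (nat_lit 4) (.nd (nat_lit 5) 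
(.lf (nat_lit 3588) (.g (nat_lit 1211) (.e (nat_lit 249) (nat_lit 21) (.e (nat_lit 336215) (nat_lit 13) (.e (nat_lit 401152) (nat_lit 7) (.e (nat_lit 319537) (nat_lit 19) (.e (nat_lit 311311) (nat_lit 2) (.e (nat_lit 204544) (nat_lit 0) .nil)))))) (.g (nat_lit 4) .nil .nil))) 
(.lf (nat_lit 3620) (.g (nat_lit 1233) (.e (nat_lit 249) (nat_lit 21) (.e (nat_lit 336215) (nat_lit 13) (.e (nat_lit 393229) (nat_lit 9) (.e (nat_lit 335995) (nat_lit 1) .nil)))) .nil))) (.nd (nat_lit 5) 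
(.lf (nat_lit 3604) (.g (nat_lit 2801) (.e (nat_lit 249) (nat_lit 21) (.e (nat_lit 336215) (nat_lit 13) (.e (nat_lit 393229) (nat_lit 9) (.e (nat_lit 335987) (nat_lit 1) (.e (nat_lit 57854) (nat_lit 252) (.e (nat_lit 57373) (nat_lit 2) (.e (nat_lit 90131) (nat_lit 9) .nil))))))) (.g (nat_lit 4) .nil .nil))) 
(.lf (nat_lit 3636) (.g (nat_lit 2960) (.e (nat_lit 249) (nat_lit 21) (.e (nat_lit 336215) (nat_lit 13) (.e (nat_lit 393229) (nat_lit 9) (.e (nat_lit 335996) (nat_lit 1) (.e (nat_lit 57851) (nat_lit 252) (.e (nat_lit 57371) (nat_lit 2) (.e (nat_lit 90134) (nat_lit 9) .nil))))))) (.g (nat_lit 5) .nil .nil))))) (.nd (nat_lit 4) (.nd (nat_lit 5) 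
(.lf (nat_lit 3596) (.g (nat_lit 2214) (.e (nat_lit 249) (nat_lit 21) (.e (nat_lit 336215) (nat_lit 13) (.e (nat_lit 393229) (nat_lit 9) (.e (nat_lit 335986) (nat_lit 1) (.e (nat_lit 57847) (nat_lit 252) (.e (nat_lit 57374) (nat_lit 2) (.e (nat_lit 90130) (nat_lit 9) .nil))))))) (.g (nat_lit 4) .nil .nil))) 
(.lf (nat_lit 3628) (.g (nat_lit 4180) (.e (nat_lit 249) (nat_lit 21) (.e (nat_lit 336215) (nat_lit 13) (.e (nat_lit 393229) (nat_lit 9) (.e (nat_lit 335995) (nat_lit 1) (.e (nat_lit 57849) (nat_lit 252) (.e (nat_lit 57372) (nat_lit 2) (.e (nat_lit 90127) (nat_lit 9) .nil))))))) (.g (nat_lit 7) .nil .nil)))) (.nd (nat_lit 5) 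
(.lf (nat_lit 3612) (.g (nat_lit 2700) (.e (nat_lit 249) (nat_lit 21) (.e (nat_lit 336215) (nat_lit 13) (.e (nat_lit 393229) (nat_lit 9) (.e (nat_lit 335988) (nat_lit 1) (.e (nat_lit 57854) (nat_lit 252) (.e (nat_lit 57371) (nat_lit 2) (.e (nat_lit 90131) (nat_lit 9) .nil))))))) (.g (nat_lit 5) .nil .nil))) 
(.lf (nat_lit 3644) (.g (nat_lit 2043) (.e (nat_lit 249) (nat_lit 21) (.e (nat_lit 336215) (nat_lit 13) (.e (nat_lit 393229) (nat_lit 9) (.e (nat_lit 335996) (nat_lit 1) (.e (nat_lit 57853) (nat_lit 252) .nil))))) .nil)))))) (.nd (nat_lit 2) (.nd (nat_lit 3) (.nd (nat_lit 4) (.nd (nat_lit 5) 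
(.lf (nat_lit 3586) (.g (nat_lit 447) (.e (nat_lit 249) (nat_lit 21) (.e (nat_lit 336215) (nat_lit 13) (.e (nat_lit 401152) (nat_lit 0) .nil))) .nil)) 
(.lf (nat_lit 3618) (.g (nat_lit 3997) (.e (nat_lit 249) (nat_lit 21) (.e (nat_lit 336215) (nat_lit 13) (.e (nat_lit 393229) (nat_lit 9) (.e (nat_lit 335994) (nat_lit 1) (.e (nat_lit 57854) (nat_lit 252) .nil))))) .nil))) (.nd (nat_lit 5) 
(.lf (nat_lit 3602) (.g (nat_lit 2537) (.e (nat_lit 249) (nat_lit 21) (.e (nat_lit 336215) (nat_lit 13) (.e (nat_lit 393229) (nat_lit 9) (.e (nat_lit 335986) (nat_lit 1) (.e (nat_lit 57854) (nat_lit 252) (.e (nat_lit 57371) (nat_lit 2) (.e (nat_lit 90121) (nat_lit 9) .nil))))))) (.g (nat_lit 4) .nil .nil))) 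
(.lf (nat_lit 3634) (.g (nat_lit 2589) (.e (nat_lit 249) (nat_lit 21) (.e (nat_lit 336215) (nat_lit 13) (.e (nat_lit 393229) (nat_lit 9) (.e (nat_lit 335996) (nat_lit 1) (.e (nat_lit 57851) (nat_lit 252) (.e (nat_lit 57371) (nat_lit 2) (.e (nat_lit 90129) (nat_lit 9) .nil))))))) (.g (nat_lit 4) .nil .nil))))) (.nd (nat_lit 4) (.nd (nat_lit 5) 
(.lf (nat_lit 3594) (.g (nat_lit 1148) (.e (nat_lit 249) (nat_lit 21) (.e (nat_lit 336215) (nat_lit 13) (.e (nat_lit 393229) (nat_lit 9) (.e (nat_lit 335986) (nat_lit 1) .nil)))) .nil)) 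
(.lf (nat_lit 3626) (.g (nat_lit 3675) (.e (nat_lit 249) (nat_lit 21) (.e (nat_lit 336215) (nat_lit 13) (.e (nat_lit 393229) (nat_lit 9) (.e (nat_lit 335995) (nat_lit 1) (.e (nat_lit 57847) (nat_lit 252) (.e (nat_lit 57375) (nat_lit 2) (.e (nat_lit 90129) (nat_lit 9) .nil))))))) (.g (nat_lit 6) .nil .nil)))) (.nd (nat_lit 5) 
(.lf (nat_lit 3610) (.g (nat_lit 2498) (.e (nat_lit 249) (nat_lit 21) (.e (nat_lit 336215) (nat_lit 13) (.e (nat_lit 393229) (nat_lit 9) (.e (nat_lit 335988) (nat_lit 1) (.e (nat_lit 57854) (nat_lit 252) (.e (nat_lit 57371) (nat_lit 2) (.e (nat_lit 90127) (nat_lit 9) .nil))))))) (.g (nat_lit 5) .nil .nil))) 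
(.lf (nat_lit 3642) (.g (nat_lit 2132) (.e (nat_lit 249) (nat_lit 21) (.e (nat_lit 336215) (nat_lit 13) (.e (nat_lit 393229) (nat_lit 9) (.e (nat_lit 335996) (nat_lit 1) (.e (nat_lit 57852) (nat_lit 252) (.e (nat_lit 57373) (nat_lit 2) (.e (nat_lit 90131) (nat_lit 9) .nil))))))) (.g (nat_lit 4) .nil .nil)))))) (.nd (nat_lit 3) (.nd (nat_lit 4) (.nd (nat_lit 5) 
(.lf (nat_lit 3590) (.g (nat_lit 2561) (.e (nat_lit 249) (nat_lit 21) (.e (nat_lit 336215) (nat_lit 13) (.e (nat_lit 393225) (nat_lit 9) (.e (nat_lit 335995) (nat_lit 1) (.e (nat_lit 57848) (nat_lit 252) .nil))))) .nil)) 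
(.lf (nat_lit 3622) (.g (nat_lit 2354) (.e (nat_lit 249) (nat_lit 21) (.e (nat_lit 336215) (nat_lit 13) (.e (nat_lit 393229) (nat_lit 9) (.e (nat_lit 335995) (nat_lit 1) (.e (nat_lit 57847) (nat_lit 252) (.e (nat_lit 57373) (nat_lit 2) (.e (nat_lit 90130) (nat_lit 9) .nil))))))) (.g (nat_lit 4) .nil .nil)))) (.nd (nat_lit 5) 
(.lf (nat_lit 3606) (.g (nat_lit 1866) (.e (nat_lit 249) (nat_lit 21) (.e (nat_lit 336215) (nat_lit 13) (.e (nat_lit 393229) (nat_lit 9) (.e (nat_lit 335988) (nat_lit 1) (.e (nat_lit 57852) (nat_lit 252) (.e (nat_lit 57373) (nat_lit 2) (.e (nat_lit 90127) (nat_lit 9) .nil))))))) (.g (nat_lit 4) .nil .nil))) 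
(.lf (nat_lit 3638) (.g (nat_lit 2287) (.e (nat_lit 249) (nat_lit 21) (.e (nat_lit 336215) (nat_lit 13) (.e (nat_lit 393229) (nat_lit 9) (.e (nat_lit 335996) (nat_lit 1) (.e (nat_lit 57852) (nat_lit 252) (.e (nat_lit 57371) (nat_lit 2) (.e (nat_lit 90131) (nat_lit 9) .nil))))))) (.g (nat_lit 4) .nil .nil))))) (.nd (nat_lit 4) (.nd (nat_lit 5) 
(.lf (nat_lit 3598) (.g (nat_lit 3565) (.e (nat_lit 249) (nat_lit 21) (.e (nat_lit 336215) (nat_lit 13) (.e (nat_lit 393229) (nat_lit 9) (.e (nat_lit 335986) (nat_lit 1) (.e (nat_lit 57847) (nat_lit 252) (.e (nat_lit 57375) (nat_lit 2) (.e (nat_lit 90129) (nat_lit 9) .nil))))))) (.g (nat_lit 6) .nil .nil))) 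
(.lf (nat_lit 3630) (.g (nat_lit 4015) (.e (nat_lit 249) (nat_lit 21) (.e (nat_lit 336215) (nat_lit 13) (.e (nat_lit 393229) (nat_lit 9) (.e (nat_lit 335995) (nat_lit 1) (.e (nat_lit 57849) (nat_lit 252) (.e (nat_lit 57372) (nat_lit 2) (.e (nat_lit 90131) (nat_lit 9) .nil))))))) (.g (nat_lit 0) .nil .nil)))) (.nd (nat_lit 5) 
(.lf (nat_lit 3614) (.g (nat_lit 4636) (.e (nat_lit 249) (nat_lit 21) (.e (nat_lit 336215) (nat_lit 13) (.e (nat_lit 393229) (nat_lit 9) (.e (nat_lit 335988) (nat_lit 1) (.e (nat_lit 57854) (nat_lit 252) (.e (nat_lit 57373) (nat_lit 2) (.e (nat_lit 90129) (nat_lit 9) .nil))))))) (.g (nat_lit 6) .nil .nil))) 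
(.lf (nat_lit 3646) (.g (nat_lit 4205) (.e (nat_lit 249) (nat_lit 21) (.e (nat_lit 336215) (nat_lit 13) (.e (nat_lit 393229) (nat_lit 9) (.e (nat_lit 335996) (nat_lit 1) (.e (nat_lit 57854) (nat_lit 252) (.e (nat_lit 57371) (nat_lit 2) (.e (nat_lit 90121) (nat_lit 9) .nil))))))) (.g (nat_lit 7) .nil .nil)))))))) (.nd (nat_lit 1) (.nd (nat_lit 2) (.nd (nat_lit 3) (.nd (nat_lit 4) (.nd (nat_lit 5) 
(.lf (nat_lit 3585) (.g (nat_lit 608) (.e (nat_lit 249) (nat_lit 21) (.e (nat_lit 336215) (nat_lit 13) (.e (nat_lit 393219) (nat_lit 0) .nil))) .nil)) 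
(.lf (nat_lit 3617) (.g (nat_lit 2722) (.e (nat_lit 249) (nat_lit 21) (.e (nat_lit 336215) (nat_lit 13) (.e (nat_lit 393229) (nat_lit 9) (.e (nat_lit 335993) (nat_lit 1) (.e (nat_lit 57854) (nat_lit 252) .nil))))) .nil))) (.nd (nat_lit 5) 
(.lf (nat_lit 3601) (.g (nat_lit 2248) (.e (nat_lit 249) (nat_lit 21) (.e (nat_lit 336215) (nat_lit 13) (.e (nat_lit 393229) (nat_lit 9) (.e (nat_lit 335986) (nat_lit 1) (.e (nat_lit 57849) (nat_lit 252) (.e (nat_lit 57375) (nat_lit 2) (.e (nat_lit 90130) (nat_lit 9) .nil))))))) (.g (nat_lit 4) .nil .nil))) 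
(.lf (nat_lit 3633) (.g (nat_lit 4603) (.e (nat_lit 249) (nat_lit 21) (.e (nat_lit 336215) (nat_lit 13) (.e (nat_lit 393229) (nat_lit 9) (.e (nat_lit 335996) (nat_lit 1) (.e (nat_lit 57851) (nat_lit 252) (.e (nat_lit 57371) (nat_lit 2) (.e (nat_lit 90121) (nat_lit 9) .nil))))))) (.g (nat_lit 7) .nil .nil))))) (.nd (nat_lit 4) (.nd (nat_lit 5) 
(.lf (nat_lit 3593) (.g (nat_lit 454) (.e (nat_lit 249) (nat_lit 21) (.e (nat_lit 336215) (nat_lit 13) (.e (nat_lit 393229) (nat_lit 9) .nil))) .nil)) 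
(.lf (nat_lit 3625) (.g (nat_lit 1978) (.e (nat_lit 249) (nat_lit 21) (.e (nat_lit 336215) (nat_lit 13) (.e (nat_lit 393229) (nat_lit 9) (.e (nat_lit 335995) (nat_lit 1) (.e (nat_lit 57847) (nat_lit 252) (.e (nat_lit 57375) (nat_lit 2) (.e (nat_lit 90121) (nat_lit 9) .nil))))))) (.g (nat_lit 4) .nil .nil)))) (.nd (nat_lit 5) 
(.lf (nat_lit 3609) (.g (nat_lit 3729) (.e (nat_lit 249) (nat_lit 21) (.e (nat_lit 336215) (nat_lit 13) (.e (nat_lit 393229) (nat_lit 9) (.e (nat_lit 335988) (nat_lit 1) (.e (nat_lit 57854) (nat_lit 252) (.e (nat_lit 57371) (nat_lit 2) (.e (nat_lit 90121) (nat_lit 9) .nil))))))) (.g (nat_lit 7) .nil .nil))) 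
(.lf (nat_lit 3641) (.g (nat_lit 4252) (.e (nat_lit 249) (nat_lit 21) (.e (nat_lit 336215) (nat_lit 13) (.e (nat_lit 393229) (nat_lit 9) (.e (nat_lit 335996) (nat_lit 1) (.e (nat_lit 57852) (nat_lit 252) (.e (nat_lit 57373) (nat_lit 2) (.e (nat_lit 90130) (nat_lit 9) .nil))))))) (.g (nat_lit 7) .nil .nil)))))) (.nd (nat_lit 3) (.nd (nat_lit 4) (.nd (nat_lit 5) 
(.lf (nat_lit 3589) (.g (nat_lit 1649) (.e (nat_lit 249) (nat_lit 21) (.e (nat_lit 336215) (nat_lit 13) (.e (nat_lit 401152) (nat_lit 7) (.e (nat_lit 319537) (nat_lit 19) (.e (nat_lit 311312) (nat_lit 2) (.e (nat_lit 204544) (nat_lit 0) .nil)))))) (.g (nat_lit 5) .nil .nil))) 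
(.lf (nat_lit 3621) (.g (nat_lit 1703) (.e (nat_lit 249) (nat_lit 21) (.e (nat_lit 336215) (nat_lit 13) (.e (nat_lit 393229) (nat_lit 9) (.e (nat_lit 335995) (nat_lit 1) (.e (nat_lit 57847) (nat_lit 252) .nil))))) .nil))) (.nd (nat_lit 5) 
(.lf (nat_lit 3605) (.g (nat_lit 1575) (.e (nat_lit 249) (nat_lit 21) (.e (nat_lit 336215) (nat_lit 13) (.e (nat_lit 393229) (nat_lit 9) (.e (nat_lit 335988) (nat_lit 1) (.e (nat_lit 57852) (nat_lit 252) .nil))))) .nil)) 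
(.lf (nat_lit 3637) (.g (nat_lit 1763) (.e (nat_lit 249) (nat_lit 21) (.e (nat_lit 336215) (nat_lit 13) (.e (nat_lit 393229) (nat_lit 9) (.e (nat_lit 335996) (nat_lit 1) (.e (nat_lit 57852) (nat_lit 252) .nil))))) .nil)))) (.nd (nat_lit 4) (.nd (nat_lit 5) 
(.lf (nat_lit 3597) (.g (nat_lit 1868) (.e (nat_lit 249) (nat_lit 21) (.e (nat_lit 336215) (nat_lit 13) (.e (nat_lit 393229) (nat_lit 9) (.e (nat_lit 335986) (nat_lit 1) (.e (nat_lit 57847) (nat_lit 252) (.e (nat_lit 57375) (nat_lit 2) (.e (nat_lit 90121) (nat_lit 9) .nil))))))) (.g (nat_lit 4) .nil .nil))) 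
(.lf (nat_lit 3629) (.g (nat_lit 3635) (.e (nat_lit 249) (nat_lit 21) (.e (nat_lit 336215) (nat_lit 13) (.e (nat_lit 393229) (nat_lit 9) (.e (nat_lit 335995) (nat_lit 1) (.e (nat_lit 57849) (nat_lit 252) (.e (nat_lit 57372) (nat_lit 2) (.e (nat_lit 90130) (nat_lit 9) .nil))))))) (.g (nat_lit 6) .nil .nil)))) (.nd (nat_lit 5) 
(.lf (nat_lit 3613) (.g (nat_lit 4298) (.e (nat_lit 249) (nat_lit 21) (.e (nat_lit 336215) (nat_lit 13) (.e (nat_lit 393229) (nat_lit 9) (.e (nat_lit 335988) (nat_lit 1) (.e (nat_lit 57854) (nat_lit 252) (.e (nat_lit 57373) (nat_lit 2) (.e (nat_lit 90127) (nat_lit 9) .nil))))))) (.g (nat_lit 6) .nil .nil))) 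
(.lf (nat_lit 3645) (.g (nat_lit 3086) (.e (nat_lit 249) (nat_lit 21) (.e (nat_lit 336215) (nat_lit 13) (.e (nat_lit 393229) (nat_lit 9) (.e (nat_lit 335996) (nat_lit 1) (.e (nat_lit 57853) (nat_lit 252) (.e (nat_lit 57371) (nat_lit 2) (.e (nat_lit 90121) (nat_lit 9) .nil))))))) (.g (nat_lit 5) .nil .nil))))))) (.nd (nat_lit 2) (.nd (nat_lit 3) (.nd (nat_lit 4) (.nd (nat_lit 5) 
(.lf (nat_lit 3587) (.g (nat_lit 447) (.e (nat_lit 249) (nat_lit 21) (.e (nat_lit 336215) (nat_lit 13) (.e (nat_lit 401152) (nat_lit 7) .nil))) .nil)) 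
(.lf (nat_lit 3619) (.g (nat_lit 4004) (.e (nat_lit 249) (nat_lit 21) (.e (nat_lit 336215) (nat_lit 13) (.e (nat_lit 393229) (nat_lit 9) (.e (nat_lit 335994) (nat_lit 1) (.e (nat_lit 57854) (nat_lit 252) (.e (nat_lit 57373) (nat_lit 2) (.e (nat_lit 90129) (nat_lit 9) .nil))))))) (.g (nat_lit 4) .nil .nil)))) (.nd (nat_lit 5) 
(.lf (nat_lit 3603) (.g (nat_lit 1778) (.e (nat_lit 249) (nat_lit 21) (.e (nat_lit 336215) (nat_lit 13) (.e (nat_lit 393229) (nat_lit 9) (.e (nat_lit 335987) (nat_lit 1) .nil)))) .nil)) 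
(.lf (nat_lit 3635) (.g (nat_lit 2979) (.e (nat_lit 249) (nat_lit 21) (.e (nat_lit 336215) (nat_lit 13) (.e (nat_lit 393229) (nat_lit 9) (.e (nat_lit 335996) (nat_lit 1) (.e (nat_lit 57851) (nat_lit 252) (.e (nat_lit 57371) (nat_lit 2) (.e (nat_lit 90130) (nat_lit 9) .nil))))))) (.g (nat_lit 5) .nil .nil))))) (.nd (nat_lit 4) (.nd (nat_lit 5) 
(.lf (nat_lit 3595) (.g (nat_lit 2858) (.e (nat_lit 249) (nat_lit 21) (.e (nat_lit 336215) (nat_lit 13) (.e (nat_lit 393229) (nat_lit 9) (.e (nat_lit 335986) (nat_lit 1) (.e (nat_lit 57847) (nat_lit 252) (.e (nat_lit 57374) (nat_lit 2) (.e (nat_lit 90121) (nat_lit 9) .nil))))))) (.g (nat_lit 5) .nil .nil))) 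
(.lf (nat_lit 3627) (.g (nat_lit 3723) (.e (nat_lit 249) (nat_lit 21) (.e (nat_lit 336215) (nat_lit 13) (.e (nat_lit 393229) (nat_lit 9) (.e (nat_lit 335995) (nat_lit 1) (.e (nat_lit 57849) (nat_lit 252) (.e (nat_lit 57372) (nat_lit 2) (.e (nat_lit 90121) (nat_lit 9) .nil))))))) (.g (nat_lit 6) .nil .nil)))) (.nd (nat_lit 5) 
(.lf (nat_lit 3611) (.g (nat_lit 2077) (.e (nat_lit 249) (nat_lit 21) (.e (nat_lit 336215) (nat_lit 13) (.e (nat_lit 393229) (nat_lit 9) (.e (nat_lit 335988) (nat_lit 1) (.e (nat_lit 57854) (nat_lit 252) (.e (nat_lit 57371) (nat_lit 2) (.e (nat_lit 90130) (nat_lit 9) .nil))))))) (.g (nat_lit 4) .nil .nil))) 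
(.lf (nat_lit 3643) (.g (nat_lit 3532) (.e (nat_lit 249) (nat_lit 21) (.e (nat_lit 336215) (nat_lit 13) (.e (nat_lit 393229) (nat_lit 9) (.e (nat_lit 335996) (nat_lit 1) (.e (nat_lit 57852) (nat_lit 252) (.e (nat_lit 57373) (nat_lit 2) (.e (nat_lit 90134) (nat_lit 9) .nil))))))) (.g (nat_lit 6) .nil .nil)))))) (.nd (nat_lit 3) (.nd (nat_lit 4) (.nd (nat_lit 5) 
(.lf (nat_lit 3591) (.g (nat_lit 618) (.e (nat_lit 249) (nat_lit 21) (.e (nat_lit 336215) (nat_lit 13) (.e (nat_lit 393227) (nat_lit 9) .nil))) .nil)) 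
(.lf (nat_lit 3623) (.g (nat_lit 2977) (.e (nat_lit 249) (nat_lit 21) (.e (nat_lit 336215) (nat_lit 13) (.e (nat_lit 393229) (nat_lit 9) (.e (nat_lit 335995) (nat_lit 1) (.e (nat_lit 57847) (nat_lit 252) (.e (nat_lit 57374) (nat_lit 2) (.e (nat_lit 90121) (nat_lit 9) .nil))))))) (.g (nat_lit 5) .nil .nil)))) (.nd (nat_lit 5) 
(.lf (nat_lit 3607) (.g (nat_lit 2337) (.e (nat_lit 249) (nat_lit 21) (.e (nat_lit 336215) (nat_lit 13) (.e (nat_lit 393229) (nat_lit 9) (.e (nat_lit 335988) (nat_lit 1) (.e (nat_lit 57852) (nat_lit 252) (.e (nat_lit 57373) (nat_lit 2) (.e (nat_lit 90129) (nat_lit 9) .nil))))))) (.g (nat_lit 5) .nil .nil))) 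
(.lf (nat_lit 3639) (.g (nat_lit 2345) (.e (nat_lit 249) (nat_lit 21) (.e (nat_lit 336215) (nat_lit 13) (.e (nat_lit 393229) (nat_lit 9) (.e (nat_lit 335996) (nat_lit 1) (.e (nat_lit 57852) (nat_lit 252) (.e (nat_lit 57373) (nat_lit 2) (.e (nat_lit 90127) (nat_lit 9) .nil))))))) (.g (nat_lit 4) .nil .nil))))) (.nd (nat_lit 4) (.nd (nat_lit 5) 
(.lf (nat_lit 3599) (.g (nat_lit 2813) (.e (nat_lit 249) (nat_lit 21) (.e (nat_lit 336215) (nat_lit 13) (.e (nat_lit 393229) (nat_lit 9) (.e (nat_lit 335986) (nat_lit 1) (.e (nat_lit 57849) (nat_lit 252) (.e (nat_lit 57372) (nat_lit 2) (.e (nat_lit 90131) (nat_lit 9) .nil))))))) (.g (nat_lit 5) .nil .nil))) 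
(.lf (nat_lit 3631) (.g (nat_lit 3034) (.e (nat_lit 249) (nat_lit 21) (.e (nat_lit 336215) (nat_lit 13) (.e (nat_lit 393229) (nat_lit 9) (.e (nat_lit 335995) (nat_lit 1) (.e (nat_lit 57854) (nat_lit 252) .nil))))) .nil))) (.nd (nat_lit 5) 
(.lf (nat_lit 3615) (.g (nat_lit 4635) (.e (nat_lit 249) (nat_lit 21) (.e (nat_lit 336215) (nat_lit 13) (.e (nat_lit 393229) (nat_lit 9) (.e (nat_lit 335988) (nat_lit 1) (.e (nat_lit 57854) (nat_lit 252) (.e (nat_lit 57373) (nat_lit 2) (.e (nat_lit 90130) (nat_lit 9) .nil))))))) (.g (nat_lit 7) .nil .nil))) 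
(.lf (nat_lit 3647) (.g (nat_lit 3011) (.e (nat_lit 249) (nat_lit 21) (.e (nat_lit 336215) (nat_lit 13) (.e (nat_lit 393229) (nat_lit 9) (.e (nat_lit 335996) (nat_lit 1) (.e (nat_lit 57854) (nat_lit 252) (.e (nat_lit 57371) (nat_lit 2) (.e (nat_lit 90127) (nat_lit 9) .nil))))))) (.g (nat_lit 5) .nil .nil)))))))))

noncomputable def tv049 : DT := (.nd (nat_lit 0) (.nd (nat_lit 1) (.nd (nat_lit 2) (.nd (nat_lit 3) (.nd (nat_lit 4) (.nd (nat_lit 5) 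
(.lf (nat_lit 3648) (.g (nat_lit 2200) (.e (nat_lit 249) (nat_lit 21) (.e (nat_lit 336215) (nat_lit 13) (.e (nat_lit 393229) (nat_lit 9) (.e (nat_lit 335996) (nat_lit 1) (.e (nat_lit 57854) (nat_lit 252) (.e (nat_lit 57371) (nat_lit 2) (.e (nat_lit 90129) (nat_lit 9) .nil))))))) (.g (nat_lit 4) .nil .nil))) 
(.lf (nat_lit 3680) (.g (nat_lit 2410) (.e (nat_lit 249) (nat_lit 21) (.e (nat_lit 336215) (nat_lit 13) (.e (nat_lit 393271) (nat_lit 23) (.e (nat_lit 426112) (nat_lit 1) (.e (nat_lit 164327) (nat_lit 230) (.e (nat_lit 163879) (nat_lit 4) (.e (nat_lit 213000) (nat_lit 9) .nil))))))) (.g (nat_lit 5) .nil .nil)))) (.nd (nat_lit 5) 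
(.lf (nat_lit 3664) (.g (nat_lit 649) (.e (nat_lit 249) (nat_lit 21) (.e (nat_lit 336215) (nat_lit 13) (.e (nat_lit 393242) (nat_lit 17) .nil))) .nil)) 
(.lf (nat_lit 3696) (.g (nat_lit 1998) (.e (nat_lit 249) (nat_lit 21) (.e (nat_lit 336215) (nat_lit 13) (.e (nat_lit 393281) (nat_lit 23) (.e (nat_lit 426100) (nat_lit 1) (.e (nat_lit 164329) (nat_lit 230) (.e (nat_lit 163878) (nat_lit 4) (.e (nat_lit 213000) (nat_lit 9) .nil))))))) (.g (nat_lit 4) .nil .nil))))) (.nd (nat_lit 4) (.nd (nat_lit 5) 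
(.lf (nat_lit 3656) (.g (nat_lit 2505) (.e (nat_lit 249) (nat_lit 21) (.e (nat_lit 336215) (nat_lit 13) (.e (nat_lit 401152) (nat_lit 10) (.e (nat_lit 344160) (nat_lit 37) (.e (nat_lit 647200) (nat_lit 12) (.e (nat_lit 57477) (nat_lit 28) (.e (nat_lit 557064) (nat_lit 9) .nil))))))) (.g (nat_lit 6) .nil .nil))) 
(.lf (nat_lit 3688) (.g (nat_lit 1679) (.e (nat_lit 249) (nat_lit 21) (.e (nat_lit 336215) (nat_lit 13) (.e (nat_lit 393281) (nat_lit 23) (.e (nat_lit 426098) (nat_lit 1) (.e (nat_lit 164332) (nat_lit 230) .nil))))) .nil))) (.nd (nat_lit 5) 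
(.lf (nat_lit 3672) (.g (nat_lit 3790) (.e (nat_lit 249) (nat_lit 21) (.e (nat_lit 336215) (nat_lit 13) (.e (nat_lit 393260) (nat_lit 21) (.e (nat_lit 409649) (nat_lit 18) (.e (nat_lit 303111) (nat_lit 0) (.e (nat_lit 3578) (nat_lit 223) (.e (nat_lit 745496) (nat_lit 9) .nil))))))) (.g (nat_lit 5) .nil .nil))) 
(.lf (nat_lit 3704) (.g (nat_lit 2199) (.e (nat_lit 249) (nat_lit 21) (.e (nat_lit 336215) (nat_lit 13) (.e (nat_lit 393283) (nat_lit 24) (.e (nat_lit 434268) (nat_lit 36) (.e (nat_lit 638996) (nat_lit 7) (.e (nat_lit 164042) (nat_lit 55) (.e (nat_lit 778336) (nat_lit 9) .nil))))))) (.g (nat_lit 4) .nil .nil)))))) (.nd (nat_lit 3) (.nd (nat_lit 4) (.nd (nat_lit 5) 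
(.lf (nat_lit 3652) (.g (nat_lit 5130) (.e (nat_lit 249) (nat_lit 21) (.e (nat_lit 336215) (nat_lit 13) (.e (nat_lit 393229) (nat_lit 9) (.e (nat_lit 335996) (nat_lit 1) (.e (nat_lit 57854) (nat_lit 252) (.e (nat_lit 57373) (nat_lit 2) (.e (nat_lit 90130) (nat_lit 9) .nil))))))) (.g (nat_lit 7) .nil .nil))) 
(.lf (nat_lit 3684) (.g (nat_lit 1838) (.e (nat_lit 249) (nat_lit 21) (.e (nat_lit 336215) (nat_lit 13) (.e (nat_lit 393281) (nat_lit 23) (.e (nat_lit 426098) (nat_lit 1) (.e (nat_lit 164325) (nat_lit 230) (.e (nat_lit 163882) (nat_lit 4) (.e (nat_lit 213008) (nat_lit 9) .nil))))))) (.g (nat_lit 4) .nil .nil)))) (.nd (nat_lit 5) 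
(.lf (nat_lit 3668) (.g (nat_lit 2056) (.e (nat_lit 249) (nat_lit 21) (.e (nat_lit 336215) (nat_lit 13) (.e (nat_lit 393260) (nat_lit 21) (.e (nat_lit 409646) (nat_lit 18) (.e (nat_lit 303111) (nat_lit 0) .nil))))) .nil)) 
(.lf (nat_lit 3700) (.g (nat_lit 2067) (.e (nat_lit 249) (nat_lit 21) (.e (nat_lit 336215) (nat_lit 13) (.e (nat_lit 393281) (nat_lit 23) (.e (nat_lit 426100) (nat_lit 1) (.e (nat_lit 164332) (nat_lit 230) (.e (nat_lit 163878) (nat_lit 4) (.e (nat_lit 213009) (nat_lit 9) .nil))))))) (.g (nat_lit 4) .nil .nil))))) (.nd (nat_lit 4) (.nd (nat_lit 5) 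
(.lf (nat_lit 3660) (.g (nat_lit 2332) (.e (nat_lit 249) (nat_lit 21) (.e (nat_lit 336215) (nat_lit 13) (.e (nat_lit 393231) (nat_lit 17) (.e (nat_lit 7587) (nat_lit 406) (.e (nat_lit 65580) (nat_lit 6) (.e (nat_lit 147463) (nat_lit 9) .nil)))))) (.g (nat_lit 6) .nil .nil))) 
(.lf (nat_lit 3692) (.g (nat_lit 2992) (.e (nat_lit 249) (nat_lit 21) (.e (nat_lit 336215) (nat_lit 13) (.e (nat_lit 393281) (nat_lit 23) (.e (nat_lit 426099) (nat_lit 1) (.e (nat_lit 164332) (nat_lit 230) (.e (nat_lit 163878) (nat_lit 4) (.e (nat_lit 213008) (nat_lit 9) .nil))))))) (.g (nat_lit 6) .nil .nil)))) (.nd (nat_lit 5) 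
(.lf (nat_lit 3676) (.g (nat_lit 3765) (.e (nat_lit 249) (nat_lit 21) (.e (nat_lit 336215) (nat_lit 13) (.e (nat_lit 393260) (nat_lit 21) (.e (nat_lit 409649) (nat_lit 18) (.e (nat_lit 303111) (nat_lit 0) (.e (nat_lit 3579) (nat_lit 223) (.e (nat_lit 745496) (nat_lit 9) .nil))))))) (.g (nat_lit 5) .nil .nil))) 
(.lf (nat_lit 3708) (.g (nat_lit 3051) (.e (nat_lit 249) (nat_lit 21) (.e (nat_lit 336215) (nat_lit 13) (.e (nat_lit 393298) (nat_lit 27) (.e (nat_lit 491552) (nat_lit 9) (.e (nat_lit 336046) (nat_lit 6) (.e (nat_lit 147463) (nat_lit 9) .nil)))))) (.g (nat_lit 5) .nil .nil))))))) (.nd (nat_lit 2) (.nd (nat_lit 3) (.nd (nat_lit 4) (.nd (nat_lit 5) 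
(.lf (nat_lit 3650) (.g (nat_lit 4862) (.e (nat_lit 249) (nat_lit 21) (.e (nat_lit 336215) (nat_lit 13) (.e (nat_lit 393229) (nat_lit 9) (.e (nat_lit 335996) (nat_lit 1) (.e (nat_lit 57854) (nat_lit 252) (.e (nat_lit 57373) (nat_lit 2) (.e (nat_lit 90127) (nat_lit 9) .nil))))))) (.g (nat_lit 6) .nil .nil))) 
(.lf (nat_lit 3682) (.g (nat_lit 651) (.e (nat_lit 249) (nat_lit 21) (.e (nat_lit 336215) (nat_lit 13) (.e (nat_lit 393281) (nat_lit 23) .nil))) .nil))) (.nd (nat_lit 5) 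
(.lf (nat_lit 3666) (.g (nat_lit 605) (.e (nat_lit 249) (nat_lit 21) (.e (nat_lit 336215) (nat_lit 13) (.e (nat_lit 393259) (nat_lit 21) .nil))) .nil)) 
(.lf (nat_lit 3698) (.g (nat_lit 3701) (.e (nat_lit 249) (nat_lit 21) (.e (nat_lit 336215) (nat_lit 13) (.e (nat_lit 393281) (nat_lit 23) (.e (nat_lit 426100) (nat_lit 1) (.e (nat_lit 164332) (nat_lit 230) (.e (nat_lit 163878) (nat_lit 4) (.e (nat_lit 213000) (nat_lit 9) .nil))))))) (.g (nat_lit 0) .nil .nil))))) (.nd (nat_lit 4) (.nd (nat_lit 5) 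
(.lf (nat_lit 3658) (.g (nat_lit 1619) (.e (nat_lit 249) (nat_lit 21) (.e (nat_lit 336215) (nat_lit 13) (.e (nat_lit 401152) (nat_lit 16) (.e (nat_lit 401434) (nat_lit 9) (.e (nat_lit 426125) (nat_lit 2) (.e (nat_lit 204544) (nat_lit 0) .nil)))))) (.g (nat_lit 5) .nil .nil))) 
(.lf (nat_lit 3690) (.g (nat_lit 1836) (.e (nat_lit 249) (nat_lit 21) (.e (nat_lit 336215) (nat_lit 13) (.e (nat_lit 393281) (nat_lit 23) (.e (nat_lit 426099) (nat_lit 1) (.e (nat_lit 164330) (nat_lit 230) (.e (nat_lit 163878) (nat_lit 4) (.e (nat_lit 213008) (nat_lit 9) .nil))))))) (.g (nat_lit 4) .nil .nil)))) (.nd (nat_lit 5) 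
(.lf (nat_lit 3674) (.g (nat_lit 4052) (.e (nat_lit 249) (nat_lit 21) (.e (nat_lit 336215) (nat_lit 13) (.e (nat_lit 393260) (nat_lit 21) (.e (nat_lit 409649) (nat_lit 18) (.e (nat_lit 303111) (nat_lit 0) (.e (nat_lit 3578) (nat_lit 223) (.e (nat_lit 745499) (nat_lit 9) .nil))))))) (.g (nat_lit 5) .nil .nil))) 
(.lf (nat_lit 3706) (.g (nat_lit 2523) (.e (nat_lit 249) (nat_lit 21) (.e (nat_lit 336215) (nat_lit 13) (.e (nat_lit 393297) (nat_lit 27) (.e (nat_lit 491566) (nat_lit 12) (.e (nat_lit 385078) (nat_lit 35) .nil))))) .nil))))) (.nd (nat_lit 3) (.nd (nat_lit 4) (.nd (nat_lit 5) 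
(.lf (nat_lit 3654) (.g (nat_lit 4467) (.e (nat_lit 249) (nat_lit 21) (.e (nat_lit 336215) (nat_lit 13) (.e (nat_lit 393229) (nat_lit 9) (.e (nat_lit 335996) (nat_lit 1) (.e (nat_lit 57854) (nat_lit 252) (.e (nat_lit 57373) (nat_lit 2) (.e (nat_lit 90134) (nat_lit 9) .nil))))))) (.g (nat_lit 6) .nil .nil))) 
(.lf (nat_lit 3686) (.g (nat_lit 1993) (.e (nat_lit 249) (nat_lit 21) (.e (nat_lit 336215) (nat_lit 13) (.e (nat_lit 393281) (nat_lit 23) (.e (nat_lit 426098) (nat_lit 1) (.e (nat_lit 164327) (nat_lit 230) (.e (nat_lit 163879) (nat_lit 4) (.e (nat_lit 213008) (nat_lit 9) .nil))))))) (.g (nat_lit 4) .nil .nil)))) (.nd (nat_lit 5) 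
(.lf (nat_lit 3670) (.g (nat_lit 3075) (.e (nat_lit 249) (nat_lit 21) (.e (nat_lit 336215) (nat_lit 13) (.e (nat_lit 393260) (nat_lit 21) (.e (nat_lit 409648) (nat_lit 18) (.e (nat_lit 303108) (nat_lit 0) (.e (nat_lit 3579) (nat_lit 223) (.e (nat_lit 745496) (nat_lit 9) .nil))))))) (.g (nat_lit 4) .nil .nil))) 
(.lf (nat_lit 3702) (.g (nat_lit 621) (.e (nat_lit 249) (nat_lit 21) (.e (nat_lit 336215) (nat_lit 13) (.e (nat_lit 393283) (nat_lit 24) .nil))) .nil)))) (.nd (nat_lit 4) (.nd (nat_lit 5) 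
(.lf (nat_lit 3662) (.g (nat_lit 3153) (.e (nat_lit 249) (nat_lit 21) (.e (nat_lit 336215) (nat_lit 13) (.e (nat_lit 393232) (nat_lit 17) (.e (nat_lit 7587) (nat_lit 406) (.e (nat_lit 65580) (nat_lit 6) (.e (nat_lit 147463) (nat_lit 9) .nil)))))) (.g (nat_lit 0) .nil .nil))) 
(.lf (nat_lit 3694) (.g (nat_lit 2047) (.e (nat_lit 249) (nat_lit 21) (.e (nat_lit 336215) (nat_lit 13) (.e (nat_lit 393281) (nat_lit 23) (.e (nat_lit 426100) (nat_lit 1) (.e (nat_lit 164305) (nat_lit 226) (.e (nat_lit 2612) (nat_lit 163) (.e (nat_lit 164042) (nat_lit 55) (.e (nat_lit 778336) (nat_lit 9) .nil)))))))) (.g (nat_lit 4) .nil .nil)))) (.nd (nat_lit 5) 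
(.lf (nat_lit 3678) (.g (nat_lit 1600) (.e (nat_lit 249) (nat_lit 21) (.e (nat_lit 336215) (nat_lit 13) (.e (nat_lit 393271) (nat_lit 23) (.e (nat_lit 426112) (nat_lit 1) (.e (nat_lit 164326) (nat_lit 230) (.e (nat_lit 163879) (nat_lit 4) (.e (nat_lit 213000) (nat_lit 9) .nil))))))) (.g (nat_lit 4) .nil .nil))) 
(.lf (nat_lit 3710) (.g (nat_lit 2929) (.e (nat_lit 249) (nat_lit 21) (.e (nat_lit 336215) (nat_lit 13) (.e (nat_lit 393298) (nat_lit 27) (.e (nat_lit 491554) (nat_lit 9) (.e (nat_lit 336048) (nat_lit 6) (.e (nat_lit 147463) (nat_lit 9) .nil)))))) (.g (nat_lit 0) .nil .nil)))))))) (.nd (nat_lit 1) (.nd (nat_lit 2) (.nd (nat_lit 3) (.nd (nat_lit 4) (.nd (nat_lit 5) 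
(.lf (nat_lit 3649) (.g (nat_lit 3213) (.e (nat_lit 249) (nat_lit 21) (.e (nat_lit 336215) (nat_lit 13) (.e (nat_lit 393229) (nat_lit 9) (.e (nat_lit 335996) (nat_lit 1) (.e (nat_lit 57854) (nat_lit 252) (.e (nat_lit 57371) (nat_lit 2) (.e (nat_lit 90131) (nat_lit 9) .nil))))))) (.g (nat_lit 5) .nil .nil))) 
(.lf (nat_lit 3681) (.g (nat_lit 2251) (.e (nat_lit 249) (nat_lit 21) (.e (nat_lit 336215) (nat_lit 13) (.e (nat_lit 393271) (nat_lit 23) (.e (nat_lit 426112) (nat_lit 1) (.e (nat_lit 164327) (nat_lit 230) (.e (nat_lit 163879) (nat_lit 4) (.e (nat_lit 213008) (nat_lit 9) .nil))))))) (.g (nat_lit 5) .nil .nil)))) (.nd (nat_lit 5) 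
(.lf (nat_lit 3665) (.g (nat_lit 621) (.e (nat_lit 249) (nat_lit 21) (.e (nat_lit 336215) (nat_lit 13) (.e (nat_lit 393247) (nat_lit 17) .nil))) .nil)) 
(.lf (nat_lit 3697) (.g (nat_lit 2235) (.e (nat_lit 249) (nat_lit 21) (.e (nat_lit 336215) (nat_lit 13) (.e (nat_lit 393281) (nat_lit 23) (.e (nat_lit 426100) (nat_lit 1) (.e (nat_lit 164330) (nat_lit 230) (.e (nat_lit 163878) (nat_lit 4) (.e (nat_lit 213008) (nat_lit 9) .nil))))))) (.g (nat_lit 4) .nil .nil))))) (.nd (nat_lit 4) (.nd (nat_lit 5) 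
(.lf (nat_lit 3657) (.g (nat_lit 1593) (.e (nat_lit 249) (nat_lit 21) (.e (nat_lit 336215) (nat_lit 13) (.e (nat_lit 401152) (nat_lit 10) (.e (nat_lit 344160) (nat_lit 37) (.e (nat_lit 647200) (nat_lit 12) (.e (nat_lit 57477) (nat_lit 28) (.e (nat_lit 557071) (nat_lit 9) .nil))))))) (.g (nat_lit 5) .nil .nil))) 
(.lf (nat_lit 3689) (.g (nat_lit 2228) (.e (nat_lit 249) (nat_lit 21) (.e (nat_lit 336215) (nat_lit 13) (.e (nat_lit 393281) (nat_lit 23) (.e (nat_lit 426099) (nat_lit 1) (.e (nat_lit 164330) (nat_lit 230) (.e (nat_lit 163878) (nat_lit 4) (.e (nat_lit 213000) (nat_lit 9) .nil))))))) (.g (nat_lit 5) .nil .nil)))) (.nd (nat_lit 5) 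
(.lf (nat_lit 3673) (.g (nat_lit 2964) (.e (nat_lit 249) (nat_lit 21) (.e (nat_lit 336215) (nat_lit 13) (.e (nat_lit 393260) (nat_lit 21) (.e (nat_lit 409649) (nat_lit 18) (.e (nat_lit 303111) (nat_lit 0) (.e (nat_lit 3578) (nat_lit 223) (.e (nat_lit 745498) (nat_lit 9) .nil))))))) (.g (nat_lit 4) .nil .nil))) 
(.lf (nat_lit 3705) (.g (nat_lit 3376) (.e (nat_lit 249) (nat_lit 21) (.e (nat_lit 336215) (nat_lit 13) (.e (nat_lit 393283) (nat_lit 24) (.e (nat_lit 434275) (nat_lit 39) (.e (nat_lit 663584) (nat_lit 12) (.e (nat_lit 164007) (nat_lit 41) (.e (nat_lit 663574) (nat_lit 9) .nil))))))) (.g (nat_lit 6) .nil .nil)))))) (.nd (nat_lit 3) (.nd (nat_lit 4) (.nd (nat_lit 5) 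
(.lf (nat_lit 3653) (.g (nat_lit 4510) (.e (nat_lit 249) (nat_lit 21) (.e (nat_lit 336215) (nat_lit 13) (.e (nat_lit 393229) (nat_lit 9) (.e (nat_lit 335996) (nat_lit 1) (.e (nat_lit 57854) (nat_lit 252) (.e (nat_lit 57373) (nat_lit 2) (.e (nat_lit 90131) (nat_lit 9) .nil))))))) (.g (nat_lit 6) .nil .nil))) 
(.lf (nat_lit 3685) (.g (nat_lit 2157) (.e (nat_lit 249) (nat_lit 21) (.e (nat_lit 336215) (nat_lit 13) (.e (nat_lit 393281) (nat_lit 23) (.e (nat_lit 426098) (nat_lit 1) (.e (nat_lit 164327) (nat_lit 230) (.e (nat_lit 163879) (nat_lit 4) (.e (nat_lit 213000) (nat_lit 9) .nil))))))) (.g (nat_lit 4) .nil .nil)))) (.nd (nat_lit 5) 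
(.lf (nat_lit 3669) (.g (nat_lit 1504) (.e (nat_lit 249) (nat_lit 21) (.e (nat_lit 336215) (nat_lit 13) (.e (nat_lit 393260) (nat_lit 21) (.e (nat_lit 409648) (nat_lit 18) .nil)))) .nil)) 
(.lf (nat_lit 3701) (.g (nat_lit 1986) (.e (nat_lit 249) (nat_lit 21) (.e (nat_lit 336215) (nat_lit 13) (.e (nat_lit 393281) (nat_lit 23) (.e (nat_lit 426108) (nat_lit 1) (.e (nat_lit 164329) (nat_lit 230) (.e (nat_lit 163878) (nat_lit 4) (.e (nat_lit 213000) (nat_lit 9) .nil))))))) (.g (nat_lit 4) .nil .nil))))) (.nd (nat_lit 4) (.nd (nat_lit 5) 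
(.lf (nat_lit 3661) (.g (nat_lit 622) (.e (nat_lit 249) (nat_lit 21) (.e (nat_lit 336215) (nat_lit 13) (.e (nat_lit 393232) (nat_lit 17) .nil))) .nil)) 
(.lf (nat_lit 3693) (.g (nat_lit 1082) (.e (nat_lit 249) (nat_lit 21) (.e (nat_lit 336215) (nat_lit 13) (.e (nat_lit 393281) (nat_lit 23) (.e (nat_lit 426100) (nat_lit 1) .nil)))) .nil))) (.nd (nat_lit 5) 
(.lf (nat_lit 3677) (.g (nat_lit 1249) (.e (nat_lit 249) (nat_lit 21) (.e (nat_lit 336215) (nat_lit 13) (.e (nat_lit 393271) (nat_lit 23) (.e (nat_lit 425986) (nat_lit 0) .nil)))) .nil)) 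
(.lf (nat_lit 3709) (.g (nat_lit 2727) (.e (nat_lit 249) (nat_lit 21) (.e (nat_lit 336215) (nat_lit 13) (.e (nat_lit 393298) (nat_lit 27) (.e (nat_lit 491552) (nat_lit 9) (.e (nat_lit 336050) (nat_lit 6) .nil))))) .nil)))))) (.nd (nat_lit 2) (.nd (nat_lit 3) (.nd (nat_lit 4) (.nd (nat_lit 5) 
(.lf (nat_lit 3651) (.g (nat_lit 5116) (.e (nat_lit 249) (nat_lit 21) (.e (nat_lit 336215) (nat_lit 13) (.e (nat_lit 393229) (nat_lit 9) (.e (nat_lit 335996) (nat_lit 1) (.e (nat_lit 57854) (nat_lit 252) (.e (nat_lit 57373) (nat_lit 2) (.e (nat_lit 90129) (nat_lit 9) .nil))))))) (.g (nat_lit 6) .nil .nil))) 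
(.lf (nat_lit 3683) (.g (nat_lit 1807) (.e (nat_lit 249) (nat_lit 21) (.e (nat_lit 336215) (nat_lit 13) (.e (nat_lit 393281) (nat_lit 23) (.e (nat_lit 426098) (nat_lit 1) (.e (nat_lit 164325) (nat_lit 230) (.e (nat_lit 163879) (nat_lit 4) (.e (nat_lit 213000) (nat_lit 9) .nil))))))) (.g (nat_lit 4) .nil .nil)))) (.nd (nat_lit 5) 
(.lf (nat_lit 3667) (.g (nat_lit 621) (.e (nat_lit 249) (nat_lit 21) (.e (nat_lit 336215) (nat_lit 13) (.e (nat_lit 393260) (nat_lit 21) .nil))) .nil)) 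
(.lf (nat_lit 3699) (.g (nat_lit 3319) (.e (nat_lit 249) (nat_lit 21) (.e (nat_lit 336215) (nat_lit 13) (.e (nat_lit 393281) (nat_lit 23) (.e (nat_lit 426100) (nat_lit 1) (.e (nat_lit 164332) (nat_lit 230) (.e (nat_lit 163878) (nat_lit 4) (.e (nat_lit 213008) (nat_lit 9) .nil))))))) (.g (nat_lit 6) .nil .nil))))) (.nd (nat_lit 4) (.nd (nat_lit 5) 
(.lf (nat_lit 3659) (.g (nat_lit 622) (.e (nat_lit 249) (nat_lit 21) (.e (nat_lit 336215) (nat_lit 13) (.e (nat_lit 393231) (nat_lit 17) .nil))) .nil)) 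
(.lf (nat_lit 3691) (.g (nat_lit 3377) (.e (nat_lit 249) (nat_lit 21) (.e (nat_lit 336215) (nat_lit 13) (.e (nat_lit 393281) (nat_lit 23) (.e (nat_lit 426099) (nat_lit 1) (.e (nat_lit 164332) (nat_lit 230) (.e (nat_lit 163878) (nat_lit 4) (.e (nat_lit 213000) (nat_lit 9) .nil))))))) (.g (nat_lit 0) .nil .nil)))) (.nd (nat_lit 5) 
(.lf (nat_lit 3675) (.g (nat_lit 3985) (.e (nat_lit 249) (nat_lit 21) (.e (nat_lit 336215) (nat_lit 13) (.e (nat_lit 393260) (nat_lit 21) (.e (nat_lit 409649) (nat_lit 18) (.e (nat_lit 303111) (nat_lit 0) (.e (nat_lit 3578) (nat_lit 223) (.e (nat_lit 745500) (nat_lit 9) .nil))))))) (.g (nat_lit 5) .nil .nil))) 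
(.lf (nat_lit 3707) (.g (nat_lit 3284) (.e (nat_lit 249) (nat_lit 21) (.e (nat_lit 336215) (nat_lit 13) (.e (nat_lit 393298) (nat_lit 27) (.e (nat_lit 491546) (nat_lit 9) (.e (nat_lit 336048) (nat_lit 6) (.e (nat_lit 147463) (nat_lit 9) .nil)))))) (.g (nat_lit 6) .nil .nil)))))) (.nd (nat_lit 3) (.nd (nat_lit 4) (.nd (nat_lit 5) 
(.lf (nat_lit 3655) (.g (nat_lit 447) (.e (nat_lit 249) (nat_lit 21) (.e (nat_lit 336215) (nat_lit 13) (.e (nat_lit 401152) (nat_lit 9) .nil))) .nil)) 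
(.lf (nat_lit 3687) (.g (nat_lit 1767) (.e (nat_lit 249) (nat_lit 21) (.e (nat_lit 336215) (nat_lit 13) (.e (nat_lit 393281) (nat_lit 23) (.e (nat_lit 426098) (nat_lit 1) (.e (nat_lit 164327) (nat_lit 230) (.e (nat_lit 163882) (nat_lit 4) (.e (nat_lit 213008) (nat_lit 9) .nil))))))) (.g (nat_lit 4) .nil .nil)))) (.nd (nat_lit 5) 
(.lf (nat_lit 3671) (.g (nat_lit 1534) (.e (nat_lit 249) (nat_lit 21) (.e (nat_lit 336215) (nat_lit 13) (.e (nat_lit 393260) (nat_lit 21) (.e (nat_lit 409649) (nat_lit 18) .nil)))) .nil)) 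
(.lf (nat_lit 3703) (.g (nat_lit 2252) (.e (nat_lit 249) (nat_lit 21) (.e (nat_lit 336215) (nat_lit 13) (.e (nat_lit 393283) (nat_lit 24) (.e (nat_lit 434268) (nat_lit 36) (.e (nat_lit 638995) (nat_lit 7) (.e (nat_lit 164042) (nat_lit 55) (.e (nat_lit 778336) (nat_lit 9) .nil))))))) (.g (nat_lit 4) .nil .nil))))) (.nd (nat_lit 4) (.nd (nat_lit 5) 
(.lf (nat_lit 3663) (.g (nat_lit 607) (.e (nat_lit 249) (nat_lit 21) (.e (nat_lit 336215) (nat_lit 13) (.e (nat_lit 393239) (nat_lit 17) .nil))) .nil)) 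
(.lf (nat_lit 3695) (.g (nat_lit 2143) (.e (nat_lit 249) (nat_lit 21) (.e (nat_lit 336215) (nat_lit 13) (.e (nat_lit 393281) (nat_lit 23) (.e (nat_lit 426100) (nat_lit 1) (.e (nat_lit 164322) (nat_lit 230) (.e (nat_lit 163878) (nat_lit 4) (.e (nat_lit 213000) (nat_lit 9) .nil))))))) (.g (nat_lit 4) .nil .nil)))) (.nd (nat_lit 5) 
(.lf (nat_lit 3679) (.g (nat_lit 1441) (.e (nat_lit 249) (nat_lit 21) (.e (nat_lit 336215) (nat_lit 13) (.e (nat_lit 393271) (nat_lit 23) (.e (nat_lit 426112) (nat_lit 1) (.e (nat_lit 164326) (nat_lit 230) (.e (nat_lit 163879) (nat_lit 4) (.e (nat_lit 213008) (nat_lit 9) .nil))))))) (.g (nat_lit 4) .nil .nil))) 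
(.lf (nat_lit 3711) (.g (nat_lit 3311) (.e (nat_lit 249) (nat_lit 21) (.e (nat_lit 336215) (nat_lit 13) (.e (nat_lit 393299) (nat_lit 27) (.e (nat_lit 491546) (nat_lit 9) (.e (nat_lit 336048) (nat_lit 6) (.e (nat_lit 147463) (nat_lit 9) .nil)))))) (.g (nat_lit 0) .nil .nil)))))))))

noncomputable def tv050 : DT := (.nd (nat_lit 0) (.nd (nat_lit 1) (.nd (nat_lit 2) (.nd (nat_lit 3) (.nd (nat_lit 4) (.nd (nat_lit 5) 
(.lf (nat_lit 3712) (.g (nat_lit 1488) (.e (nat_lit 249) (nat_lit 21) (.e (nat_lit 336215) (nat_lit 13) (.e (nat_lit 393299) (nat_lit 27) (.e (nat_lit 491552) (nat_lit 9) .nil)))) .nil)) 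
(.lf (nat_lit 3744) (.g (nat_lit 576) (.e (nat_lit 249) (nat_lit 21) (.e (nat_lit 336231) (nat_lit 14) (.e (nat_lit 401428) (nat_lit 3) .nil))) .nil))) (.nd (nat_lit 5) 
(.lf (nat_lit 3728) (.g (nat_lit 4305) (.e (nat_lit 249) (nat_lit 21) (.e (nat_lit 336229) (nat_lit 14) (.e (nat_lit 401425) (nat_lit 2) (.e (nat_lit 196666) (nat_lit 13) (.e (nat_lit 65610) (nat_lit 10) (.e (nat_lit 344129) (nat_lit 26) (.e (nat_lit 557067) (nat_lit 9) .nil))))))) (.g (nat_lit 7) .nil .nil))) 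
(.lf (nat_lit 3760) (.g (nat_lit 913) (.e (nat_lit 250) (nat_lit 21) (.e (nat_lit 336012) (nat_lit 2) (.e (nat_lit 90160) (nat_lit 11) .nil))) .nil)))) (.nd (nat_lit 4) (.nd (nat_lit 5) 
(.lf (nat_lit 3720) (.g (nat_lit 1682) (.e (nat_lit 249) (nat_lit 21) (.e (nat_lit 336223) (nat_lit 13) (.e (nat_lit 393234) (nat_lit 17) (.e (nat_lit 7593) (nat_lit 407) (.e (nat_lit 73775) (nat_lit 26) (.e (nat_lit 778359) (nat_lit 9) .nil)))))) (.g (nat_lit 4) .nil .nil))) 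
(.lf (nat_lit 3752) (.g (nat_lit 1495) (.e (nat_lit 250) (nat_lit 21) (.e (nat_lit 336004) (nat_lit 2) (.e (nat_lit 90158) (nat_lit 11) (.e (nat_lit 24608) (nat_lit 3) .nil)))) .nil))) (.nd (nat_lit 5) 
(.lf (nat_lit 3736) (.g (nat_lit 2208) (.e (nat_lit 249) (nat_lit 21) (.e (nat_lit 336231) (nat_lit 14) (.e (nat_lit 401424) (nat_lit 2) (.e (nat_lit 196666) (nat_lit 13) (.e (nat_lit 65617) (nat_lit 10) (.e (nat_lit 344133) (nat_lit 26) (.e (nat_lit 557068) (nat_lit 9) .nil))))))) (.g (nat_lit 4) .nil .nil))) 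
(.lf (nat_lit 3768) (.g (nat_lit 980) (.e (nat_lit 250) (nat_lit 21) (.e (nat_lit 336012) (nat_lit 2) (.e (nat_lit 90176) (nat_lit 15) (.e (nat_lit 188420) (nat_lit 0) (.e (nat_lit 1800) (nat_lit 119) .nil))))) .nil))))) (.nd (nat_lit 3) (.nd (nat_lit 4) (.nd (nat_lit 5) 
(.lf (nat_lit 3716) (.g (nat_lit 1407) (.e (nat_lit 249) (nat_lit 21) (.e (nat_lit 336221) (nat_lit 13) (.e (nat_lit 393301) (nat_lit 27) (.e (nat_lit 491552) (nat_lit 9) .nil)))) .nil)) 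
(.lf (nat_lit 3748) (.g (nat_lit 3372) (.e (nat_lit 249) (nat_lit 21) (.e (nat_lit 336231) (nat_lit 14) (.e (nat_lit 401458) (nat_lit 13) (.e (nat_lit 483372) (nat_lit 21) (.e (nat_lit 319504) (nat_lit 10) (.e (nat_lit 7936) (nat_lit 312) .nil)))))) (.g (nat_lit 5) .nil .nil)))) (.nd (nat_lit 5) 
(.lf (nat_lit 3732) (.g (nat_lit 4669) (.e (nat_lit 249) (nat_lit 21) (.e (nat_lit 336231) (nat_lit 14) (.e (nat_lit 401423) (nat_lit 2) (.e (nat_lit 196666) (nat_lit 13) (.e (nat_lit 65610) (nat_lit 10) (.e (nat_lit 344129) (nat_lit 26) (.e (nat_lit 557067) (nat_lit 9) .nil))))))) (.g (nat_lit 7) .nil .nil))) 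
(.lf (nat_lit 3764) (.g (nat_lit 1566) (.e (nat_lit 250) (nat_lit 21) (.e (nat_lit 336012) (nat_lit 2) (.e (nat_lit 90176) (nat_lit 15) (.e (nat_lit 188418) (nat_lit 0) (.e (nat_lit 1800) (nat_lit 119) (.e (nat_lit 516127) (nat_lit 2) (.e (nat_lit 213019) (nat_lit 9) .nil))))))) (.g (nat_lit 4) .nil .nil))))) (.nd (nat_lit 4) (.nd (nat_lit 5) 
(.lf (nat_lit 3724) (.g (nat_lit 2042) (.e (nat_lit 249) (nat_lit 21) (.e (nat_lit 336223) (nat_lit 13) (.e (nat_lit 393301) (nat_lit 27) (.e (nat_lit 491556) (nat_lit 9) .nil)))) .nil)) 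
(.lf (nat_lit 3756) (.g (nat_lit 2694) (.e (nat_lit 250) (nat_lit 21) (.e (nat_lit 336011) (nat_lit 2) (.e (nat_lit 90170) (nat_lit 13) (.e (nat_lit 172120) (nat_lit 12) (.e (nat_lit 475177) (nat_lit 24) .nil))))) .nil))) (.nd (nat_lit 5) 
(.lf (nat_lit 3740) (.g (nat_lit 3627) (.e (nat_lit 249) (nat_lit 21) (.e (nat_lit 336231) (nat_lit 14) (.e (nat_lit 401425) (nat_lit 2) (.e (nat_lit 196666) (nat_lit 13) (.e (nat_lit 65617) (nat_lit 10) (.e (nat_lit 344133) (nat_lit 26) (.e (nat_lit 557068) (nat_lit 9) .nil))))))) (.g (nat_lit 5) .nil .nil))) 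
(.lf (nat_lit 3772) (.g (nat_lit 2282) (.e (nat_lit 250) (nat_lit 21) (.e (nat_lit 336012) (nat_lit 2) (.e (nat_lit 90176) (nat_lit 15) (.e (nat_lit 188420) (nat_lit 0) (.e (nat_lit 1800) (nat_lit 119) (.e (nat_lit 516126) (nat_lit 2) (.e (nat_lit 213017) (nat_lit 9) .nil))))))) (.g (nat_lit 0) .nil .nil))))))) (.nd (nat_lit 2) (.nd (nat_lit 3) (.nd (nat_lit 4) (.nd (nat_lit 5) 
(.lf (nat_lit 3714) (.g (nat_lit 2780) (.e (nat_lit 249) (nat_lit 21) (.e (nat_lit 336220) (nat_lit 13) (.e (nat_lit 393301) (nat_lit 27) (.e (nat_lit 491546) (nat_lit 9) (.e (nat_lit 336048) (nat_lit 6) (.e (nat_lit 147463) (nat_lit 9) .nil)))))) (.g (nat_lit 5) .nil .nil))) 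
(.lf (nat_lit 3746) (.g (nat_lit 4685) (.e (nat_lit 249) (nat_lit 21) (.e (nat_lit 336231) (nat_lit 14) (.e (nat_lit 401428) (nat_lit 3) (.e (nat_lit 204869) (nat_lit 29) (.e (nat_lit 360475) (nat_lit 8) (.e (nat_lit 557067) (nat_lit 9) .nil)))))) (.g (nat_lit 6) .nil .nil)))) (.nd (nat_lit 5) 
(.lf (nat_lit 3730) (.g (nat_lit 2679) (.e (nat_lit 249) (nat_lit 21) (.e (nat_lit 336229) (nat_lit 14) (.e (nat_lit 401425) (nat_lit 2) (.e (nat_lit 196666) (nat_lit 13) (.e (nat_lit 65617) (nat_lit 10) (.e (nat_lit 344133) (nat_lit 26) (.e (nat_lit 557068) (nat_lit 9) .nil))))))) (.g (nat_lit 4) .nil .nil))) 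
(.lf (nat_lit 3762) (.g (nat_lit 1192) (.e (nat_lit 250) (nat_lit 21) (.e (nat_lit 336012) (nat_lit 2) (.e (nat_lit 90176) (nat_lit 15) (.e (nat_lit 188418) (nat_lit 0) .nil)))) .nil)))) (.nd (nat_lit 4) (.nd (nat_lit 5) 
(.lf (nat_lit 3722) (.g (nat_lit 3332) (.e (nat_lit 249) (nat_lit 21) (.e (nat_lit 336223) (nat_lit 13) (.e (nat_lit 393301) (nat_lit 27) (.e (nat_lit 491546) (nat_lit 9) (.e (nat_lit 336048) (nat_lit 6) (.e (nat_lit 147463) (nat_lit 9) .nil)))))) (.g (nat_lit 0) .nil .nil))) 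
(.lf (nat_lit 3754) (.g (nat_lit 3522) (.e (nat_lit 250) (nat_lit 21) (.e (nat_lit 336011) (nat_lit 2) (.e (nat_lit 90170) (nat_lit 13) (.e (nat_lit 172113) (nat_lit 10) (.e (nat_lit 434247) (nat_lit 28) .nil))))) .nil))) (.nd (nat_lit 5) 
(.lf (nat_lit 3738) (.g (nat_lit 2959) (.e (nat_lit 249) (nat_lit 21) (.e (nat_lit 336231) (nat_lit 14) (.e (nat_lit 401425) (nat_lit 2) (.e (nat_lit 196666) (nat_lit 13) (.e (nat_lit 65617) (nat_lit 10) .nil))))) .nil)) 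
(.lf (nat_lit 3770) (.g (nat_lit 1947) (.e (nat_lit 250) (nat_lit 21) (.e (nat_lit 336012) (nat_lit 2) (.e (nat_lit 90176) (nat_lit 15) (.e (nat_lit 188420) (nat_lit 0) (.e (nat_lit 1800) (nat_lit 119) (.e (nat_lit 516124) (nat_lit 2) (.e (nat_lit 213015) (nat_lit 9) .nil))))))) (.g (nat_lit 6) .nil .nil)))))) (.nd (nat_lit 3) (.nd (nat_lit 4) (.nd (nat_lit 5) 
(.lf (nat_lit 3718) (.g (nat_lit 1733) (.e (nat_lit 249) (nat_lit 21) (.e (nat_lit 336223) (nat_lit 13) (.e (nat_lit 393234) (nat_lit 17) (.e (nat_lit 7591) (nat_lit 407) (.e (nat_lit 73775) (nat_lit 26) .nil))))) .nil)) 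
(.lf (nat_lit 3750) (.g (nat_lit 1748) (.e (nat_lit 250) (nat_lit 21) (.e (nat_lit 335986) (nat_lit 1) (.e (nat_lit 57847) (nat_lit 252) (.e (nat_lit 57365) (nat_lit 1) .nil)))) .nil))) (.nd (nat_lit 5) 
(.lf (nat_lit 3734) (.g (nat_lit 4796) (.e (nat_lit 249) (nat_lit 21) (.e (nat_lit 336231) (nat_lit 14) (.e (nat_lit 401424) (nat_lit 2) (.e (nat_lit 196666) (nat_lit 13) (.e (nat_lit 65610) (nat_lit 10) (.e (nat_lit 344129) (nat_lit 26) (.e (nat_lit 557067) (nat_lit 9) .nil))))))) (.g (nat_lit 7) .nil .nil))) 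
(.lf (nat_lit 3766) (.g (nat_lit 2502) (.e (nat_lit 250) (nat_lit 21) (.e (nat_lit 336012) (nat_lit 2) (.e (nat_lit 90176) (nat_lit 15) (.e (nat_lit 188420) (nat_lit 0) (.e (nat_lit 1798) (nat_lit 119) (.e (nat_lit 516124) (nat_lit 2) (.e (nat_lit 213019) (nat_lit 9) .nil))))))) (.g (nat_lit 0) .nil .nil))))) (.nd (nat_lit 4) (.nd (nat_lit 5) 
(.lf (nat_lit 3726) (.g (nat_lit 2231) (.e (nat_lit 249) (nat_lit 21) (.e (nat_lit 336226) (nat_lit 14) (.e (nat_lit 401425) (nat_lit 2) (.e (nat_lit 196666) (nat_lit 13) (.e (nat_lit 65610) (nat_lit 10) (.e (nat_lit 344129) (nat_lit 26) (.e (nat_lit 557067) (nat_lit 9) .nil))))))) (.g (nat_lit 4) .nil .nil))) 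
(.lf (nat_lit 3758) (.g (nat_lit 2541) (.e (nat_lit 250) (nat_lit 21) (.e (nat_lit 336011) (nat_lit 2) (.e (nat_lit 90170) (nat_lit 13) (.e (nat_lit 172120) (nat_lit 12) (.e (nat_lit 475179) (nat_lit 24) .nil))))) .nil))) (.nd (nat_lit 5) 
(.lf (nat_lit 3742) (.g (nat_lit 744) (.e (nat_lit 249) (nat_lit 21) (.e (nat_lit 336231) (nat_lit 14) (.e (nat_lit 401427) (nat_lit 3) .nil))) .nil)) 
(.lf (nat_lit 3774) (.g (nat_lit 1067) (.e (nat_lit 250) (nat_lit 21) (.e (nat_lit 336012) (nat_lit 2) (.e (nat_lit 90176) (nat_lit 15) (.e (nat_lit 196352) (nat_lit 0) .nil)))) .nil))))))) (.nd (nat_lit 1) (.nd (nat_lit 2) (.nd (nat_lit 3) (.nd (nat_lit 4) (.nd (nat_lit 5) 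
(.lf (nat_lit 3713) (.g (nat_lit 1799) (.e (nat_lit 249) (nat_lit 21) (.e (nat_lit 336220) (nat_lit 13) (.e (nat_lit 393300) (nat_lit 27) (.e (nat_lit 491546) (nat_lit 9) (.e (nat_lit 336048) (nat_lit 6) (.e (nat_lit 147463) (nat_lit 9) .nil)))))) (.g (nat_lit 4) .nil .nil))) 
(.lf (nat_lit 3745) (.g (nat_lit 1485) (.e (nat_lit 249) (nat_lit 21) (.e (nat_lit 336231) (nat_lit 14) (.e (nat_lit 401428) (nat_lit 3) (.e (nat_lit 204868) (nat_lit 29) .nil)))) .nil))) (.nd (nat_lit 5) 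
(.lf (nat_lit 3729) (.g (nat_lit 2887) (.e (nat_lit 249) (nat_lit 21) (.e (nat_lit 336229) (nat_lit 14) (.e (nat_lit 401425) (nat_lit 2) (.e (nat_lit 196666) (nat_lit 13) (.e (nat_lit 65617) (nat_lit 10) (.e (nat_lit 344130) (nat_lit 26) (.e (nat_lit 557067) (nat_lit 9) .nil))))))) (.g (nat_lit 4) .nil .nil))) 
(.lf (nat_lit 3761) (.g (nat_lit 385) (.e (nat_lit 250) (nat_lit 21) (.e (nat_lit 336012) (nat_lit 2) (.e (nat_lit 90176) (nat_lit 15) .nil))) .nil)))) (.nd (nat_lit 4) (.nd (nat_lit 5) 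
(.lf (nat_lit 3721) (.g (nat_lit 1116) (.e (nat_lit 249) (nat_lit 21) (.e (nat_lit 336223) (nat_lit 13) (.e (nat_lit 393298) (nat_lit 27) .nil))) .nil)) 
(.lf (nat_lit 3753) (.g (nat_lit 1430) (.e (nat_lit 250) (nat_lit 21) (.e (nat_lit 336004) (nat_lit 2) (.e (nat_lit 90185) (nat_lit 17) (.e (nat_lit 237619) (nat_lit 12) .nil)))) .nil))) (.nd (nat_lit 5) 
(.lf (nat_lit 3737) (.g (nat_lit 4848) (.e (nat_lit 249) (nat_lit 21) (.e (nat_lit 336231) (nat_lit 14) (.e (nat_lit 401425) (nat_lit 2) (.e (nat_lit 196666) (nat_lit 13) (.e (nat_lit 65610) (nat_lit 10) (.e (nat_lit 344129) (nat_lit 26) (.e (nat_lit 557067) (nat_lit 9) .nil))))))) (.g (nat_lit 6) .nil .nil))) 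
(.lf (nat_lit 3769) (.g (nat_lit 1053) (.e (nat_lit 250) (nat_lit 21) (.e (nat_lit 336012) (nat_lit 2) (.e (nat_lit 90176) (nat_lit 15) (.e (nat_lit 188420) (nat_lit 0) (.e (nat_lit 1800) (nat_lit 119) (.e (nat_lit 516122) (nat_lit 2) (.e (nat_lit 213017) (nat_lit 9) .nil))))))) (.g (nat_lit 4) .nil .nil)))))) (.nd (nat_lit 3) (.nd (nat_lit 4) (.nd (nat_lit 5) 
(.lf (nat_lit 3717) (.g (nat_lit 1239) (.e (nat_lit 249) (nat_lit 21) (.e (nat_lit 336223) (nat_lit 13) (.e (nat_lit 393233) (nat_lit 17) .nil))) .nil)) 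
(.lf (nat_lit 3749) (.g (nat_lit 869) (.e (nat_lit 250) (nat_lit 21) (.e (nat_lit 335986) (nat_lit 1) (.e (nat_lit 57847) (nat_lit 252) .nil))) .nil))) (.nd (nat_lit 5) 
(.lf (nat_lit 3733) (.g (nat_lit 2393) (.e (nat_lit 249) (nat_lit 21) (.e (nat_lit 336231) (nat_lit 14) (.e (nat_lit 401423) (nat_lit 2) (.e (nat_lit 196666) (nat_lit 13) (.e (nat_lit 65617) (nat_lit 10) (.e (nat_lit 344130) (nat_lit 26) (.e (nat_lit 557067) (nat_lit 9) .nil))))))) (.g (nat_lit 4) .nil .nil))) 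
(.lf (nat_lit 3765) (.g (nat_lit 840) (.e (nat_lit 250) (nat_lit 21) (.e (nat_lit 336012) (nat_lit 2) (.e (nat_lit 90176) (nat_lit 15) (.e (nat_lit 188420) (nat_lit 0) .nil)))) .nil)))) (.nd (nat_lit 4) (.nd (nat_lit 5) 
(.lf (nat_lit 3725) (.g (nat_lit 2404) (.e (nat_lit 249) (nat_lit 21) (.e (nat_lit 336223) (nat_lit 13) (.e (nat_lit 393301) (nat_lit 27) (.e (nat_lit 491560) (nat_lit 10) (.e (nat_lit 344179) (nat_lit 44) .nil))))) .nil)) 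
(.lf (nat_lit 3757) (.g (nat_lit 2747) (.e (nat_lit 250) (nat_lit 21) (.e (nat_lit 336011) (nat_lit 2) (.e (nat_lit 90170) (nat_lit 13) (.e (nat_lit 172120) (nat_lit 12) (.e (nat_lit 475178) (nat_lit 24) .nil))))) .nil))) (.nd (nat_lit 5) 
(.lf (nat_lit 3741) (.g (nat_lit 788) (.e (nat_lit 249) (nat_lit 21) (.e (nat_lit 336231) (nat_lit 14) (.e (nat_lit 401426) (nat_lit 3) .nil))) .nil)) 
(.lf (nat_lit 3773) (.g (nat_lit 2625) (.e (nat_lit 250) (nat_lit 21) (.e (nat_lit 336012) (nat_lit 2) (.e (nat_lit 90176) (nat_lit 15) (.e (nat_lit 188420) (nat_lit 0) (.e (nat_lit 1800) (nat_lit 119) (.e (nat_lit 516127) (nat_lit 2) (.e (nat_lit 213019) (nat_lit 9) .nil))))))) (.g (nat_lit 0) .nil .nil))))))) (.nd (nat_lit 2) (.nd (nat_lit 3) (.nd (nat_lit 4) (.nd (nat_lit 5) 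
(.lf (nat_lit 3715) (.g (nat_lit 2826) (.e (nat_lit 249) (nat_lit 21) (.e (nat_lit 336221) (nat_lit 13) (.e (nat_lit 393301) (nat_lit 27) (.e (nat_lit 491546) (nat_lit 9) (.e (nat_lit 336048) (nat_lit 6) (.e (nat_lit 147463) (nat_lit 9) .nil)))))) (.g (nat_lit 6) .nil .nil))) 
(.lf (nat_lit 3747) (.g (nat_lit 1668) (.e (nat_lit 249) (nat_lit 21) (.e (nat_lit 336231) (nat_lit 14) (.e (nat_lit 401458) (nat_lit 13) (.e (nat_lit 483372) (nat_lit 21) .nil)))) .nil))) (.nd (nat_lit 5) 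
(.lf (nat_lit 3731) (.g (nat_lit 3920) (.e (nat_lit 249) (nat_lit 21) (.e (nat_lit 336229) (nat_lit 14) (.e (nat_lit 401428) (nat_lit 3) (.e (nat_lit 204869) (nat_lit 29) (.e (nat_lit 360475) (nat_lit 8) (.e (nat_lit 557067) (nat_lit 9) .nil)))))) (.g (nat_lit 0) .nil .nil))) 
(.lf (nat_lit 3763) (.g (nat_lit 1562) (.e (nat_lit 250) (nat_lit 21) (.e (nat_lit 336012) (nat_lit 2) (.e (nat_lit 90176) (nat_lit 15) (.e (nat_lit 188418) (nat_lit 0) (.e (nat_lit 1800) (nat_lit 119) (.e (nat_lit 516124) (nat_lit 2) (.e (nat_lit 213019) (nat_lit 9) .nil))))))) (.g (nat_lit 4) .nil .nil))))) (.nd (nat_lit 4) (.nd (nat_lit 5) 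
(.lf (nat_lit 3723) (.g (nat_lit 2230) (.e (nat_lit 249) (nat_lit 21) (.e (nat_lit 336223) (nat_lit 13) (.e (nat_lit 393301) (nat_lit 27) (.e (nat_lit 491552) (nat_lit 9) (.e (nat_lit 336050) (nat_lit 6) (.e (nat_lit 147463) (nat_lit 9) .nil)))))) (.g (nat_lit 4) .nil .nil))) 
(.lf (nat_lit 3755) (.g (nat_lit 2323) (.e (nat_lit 250) (nat_lit 21) (.e (nat_lit 336011) (nat_lit 2) (.e (nat_lit 90170) (nat_lit 13) (.e (nat_lit 172118) (nat_lit 12) .nil)))) .nil))) (.nd (nat_lit 5) 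
(.lf (nat_lit 3739) (.g (nat_lit 3953) (.e (nat_lit 249) (nat_lit 21) (.e (nat_lit 336231) (nat_lit 14) (.e (nat_lit 401425) (nat_lit 2) (.e (nat_lit 196666) (nat_lit 13) (.e (nat_lit 65617) (nat_lit 10) (.e (nat_lit 344130) (nat_lit 26) (.e (nat_lit 557067) (nat_lit 9) .nil))))))) (.g (nat_lit 5) .nil .nil))) 
(.lf (nat_lit 3771) (.g (nat_lit 2704) (.e (nat_lit 250) (nat_lit 21) (.e (nat_lit 336012) (nat_lit 2) (.e (nat_lit 90176) (nat_lit 15) (.e (nat_lit 188420) (nat_lit 0) (.e (nat_lit 1800) (nat_lit 119) (.e (nat_lit 516124) (nat_lit 2) (.e (nat_lit 213019) (nat_lit 9) .nil))))))) (.g (nat_lit 0) .nil .nil)))))) (.nd (nat_lit 3) (.nd (nat_lit 4) (.nd (nat_lit 5) 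
(.lf (nat_lit 3719) (.g (nat_lit 2008) (.e (nat_lit 249) (nat_lit 21) (.e (nat_lit 336223) (nat_lit 13) (.e (nat_lit 393234) (nat_lit 17) (.e (nat_lit 7591) (nat_lit 407) (.e (nat_lit 73776) (nat_lit 26) .nil))))) .nil)) 
(.lf (nat_lit 3751) (.g (nat_lit 632) (.e (nat_lit 250) (nat_lit 21) (.e (nat_lit 336004) (nat_lit 2) (.e (nat_lit 90158) (nat_lit 11) .nil))) .nil))) (.nd (nat_lit 5) 
(.lf (nat_lit 3735) (.g (nat_lit 2570) (.e (nat_lit 249) (nat_lit 21) (.e (nat_lit 336231) (nat_lit 14) (.e (nat_lit 401424) (nat_lit 2) (.e (nat_lit 196666) (nat_lit 13) (.e (nat_lit 65617) (nat_lit 10) (.e (nat_lit 344130) (nat_lit 26) (.e (nat_lit 557067) (nat_lit 9) .nil))))))) (.g (nat_lit 4) .nil .nil))) 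
(.lf (nat_lit 3767) (.g (nat_lit 1266) (.e (nat_lit 250) (nat_lit 21) (.e (nat_lit 336012) (nat_lit 2) (.e (nat_lit 90176) (nat_lit 15) (.e (nat_lit 188420) (nat_lit 0) (.e (nat_lit 1798) (nat_lit 119) (.e (nat_lit 516126) (nat_lit 2) (.e (nat_lit 213017) (nat_lit 9) .nil))))))) (.g (nat_lit 4) .nil .nil))))) (.nd (nat_lit 4) (.nd (nat_lit 5) 
(.lf (nat_lit 3727) (.g (nat_lit 4481) (.e (nat_lit 249) (nat_lit 21) (.e (nat_lit 336226) (nat_lit 14) (.e (nat_lit 401428) (nat_lit 3) (.e (nat_lit 204869) (nat_lit 29) (.e (nat_lit 360475) (nat_lit 8) (.e (nat_lit 557067) (nat_lit 9) .nil)))))) (.g (nat_lit 0) .nil .nil))) 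
(.lf (nat_lit 3759) (.g (nat_lit 2703) (.e (nat_lit 250) (nat_lit 21) (.e (nat_lit 336011) (nat_lit 2) (.e (nat_lit 90170) (nat_lit 13) (.e (nat_lit 172120) (nat_lit 12) (.e (nat_lit 475179) (nat_lit 24) (.e (nat_lit 516127) (nat_lit 2) (.e (nat_lit 213019) (nat_lit 9) .nil))))))) (.g (nat_lit 4) .nil .nil)))) (.nd (nat_lit 5) 
(.lf (nat_lit 3743) (.g (nat_lit 4921) (.e (nat_lit 249) (nat_lit 21) (.e (nat_lit 336231) (nat_lit 14) (.e (nat_lit 401427) (nat_lit 3) (.e (nat_lit 204869) (nat_lit 29) (.e (nat_lit 360475) (nat_lit 8) (.e (nat_lit 557067) (nat_lit 9) .nil)))))) (.g (nat_lit 6) .nil .nil))) 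
(.lf (nat_lit 3775) (.g (nat_lit 1753) (.e (nat_lit 250) (nat_lit 21) (.e (nat_lit 336012) (nat_lit 2) (.e (nat_lit 90176) (nat_lit 15) (.e (nat_lit 196352) (nat_lit 0) (.e (nat_lit 1788) (nat_lit 119) (.e (nat_lit 516122) (nat_lit 2) (.e (nat_lit 213015) (nat_lit 9) .nil))))))) (.g (nat_lit 6) .nil .nil)))))))))

noncomputable def tv051 : DT := (.nd (nat_lit 0) (.nd (nat_lit 1) (.nd (nat_lit 2) (.nd (nat_lit 3) (.nd (nat_lit 4) (.nd (nat_lit 5) 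
(.lf (nat_lit 3776) (.g (nat_lit 1609) (.e (nat_lit 250) (nat_lit 21) (.e (nat_lit 336012) (nat_lit 2) (.e (nat_lit 90176) (nat_lit 15) (.e (nat_lit 196352) (nat_lit 0) (.e (nat_lit 1788) (nat_lit 119) (.e (nat_lit 516122) (nat_lit 2) (.e (nat_lit 213017) (nat_lit 9) .nil))))))) (.g (nat_lit 5) .nil .nil))) 
(.lf (nat_lit 3808) (.g (nat_lit 1523) (.e (nat_lit 250) (nat_lit 21) (.e (nat_lit 336012) (nat_lit 2) (.e (nat_lit 90185) (nat_lit 17) (.e (nat_lit 237601) (nat_lit 9) (.e (nat_lit 426436) (nat_lit 18) (.e (nat_lit 98338) (nat_lit 19) (.e (nat_lit 213015) (nat_lit 9) .nil))))))) (.g (nat_lit 4) .nil .nil)))) (.nd (nat_lit 5) 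
(.lf (nat_lit 3792) (.g (nat_lit 2198) (.e (nat_lit 250) (nat_lit 21) (.e (nat_lit 336012) (nat_lit 2) (.e (nat_lit 90176) (nat_lit 15) (.e (nat_lit 188450) (nat_lit 23) (.e (nat_lit 204818) (nat_lit 17) .nil))))) .nil)) 
(.lf (nat_lit 3824) (.g (nat_lit 1555) (.e (nat_lit 250) (nat_lit 21) (.e (nat_lit 336012) (nat_lit 2) (.e (nat_lit 90185) (nat_lit 17) (.e (nat_lit 237619) (nat_lit 12) (.e (nat_lit 475179) (nat_lit 24) (.e (nat_lit 516126) (nat_lit 2) (.e (nat_lit 213010) (nat_lit 9) .nil))))))) (.g (nat_lit 4) .nil .nil))))) (.nd (nat_lit 4) (.nd (nat_lit 5) 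
(.lf (nat_lit 3784) (.g (nat_lit 1746) (.e (nat_lit 250) (nat_lit 21) (.e (nat_lit 336012) (nat_lit 2) (.e (nat_lit 90176) (nat_lit 15) (.e (nat_lit 188450) (nat_lit 23) (.e (nat_lit 204815) (nat_lit 17) (.e (nat_lit 1916) (nat_lit 130) (.e (nat_lit 606235) (nat_lit 9) .nil))))))) (.g (nat_lit 4) .nil .nil))) 
(.lf (nat_lit 3816) (.g (nat_lit 3161) (.e (nat_lit 250) (nat_lit 21) (.e (nat_lit 336012) (nat_lit 2) (.e (nat_lit 90185) (nat_lit 17) (.e (nat_lit 237616) (nat_lit 12) (.e (nat_lit 475179) (nat_lit 24) (.e (nat_lit 516124) (nat_lit 2) (.e (nat_lit 213019) (nat_lit 9) .nil))))))) (.g (nat_lit 0) .nil .nil)))) (.nd (nat_lit 5) 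
(.lf (nat_lit 3800) (.g (nat_lit 1463) (.e (nat_lit 250) (nat_lit 21) (.e (nat_lit 336012) (nat_lit 2) (.e (nat_lit 90178) (nat_lit 15) (.e (nat_lit 188418) (nat_lit 0) (.e (nat_lit 1798) (nat_lit 119) .nil))))) .nil)) 
(.lf (nat_lit 3832) (.g (nat_lit 2495) (.e (nat_lit 250) (nat_lit 21) (.e (nat_lit 336021) (nat_lit 3) (.e (nat_lit 98313) (nat_lit 9) (.e (nat_lit 336021) (nat_lit 3) (.e (nat_lit 98313) (nat_lit 9) (.e (nat_lit 336012) (nat_lit 2) (.e (nat_lit 90137) (nat_lit 9) .nil))))))) (.g (nat_lit 4) .nil .nil)))))) (.nd (nat_lit 3) (.nd (nat_lit 4) (.nd (nat_lit 5) 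
(.lf (nat_lit 3780) (.g (nat_lit 1061) (.e (nat_lit 250) (nat_lit 21) (.e (nat_lit 336012) (nat_lit 2) (.e (nat_lit 90176) (nat_lit 15) (.e (nat_lit 188431) (nat_lit 20) .nil)))) .nil)) 
(.lf (nat_lit 3812) (.g (nat_lit 1612) (.e (nat_lit 250) (nat_lit 21) (.e (nat_lit 336012) (nat_lit 2) (.e (nat_lit 90185) (nat_lit 17) (.e (nat_lit 237605) (nat_lit 9) (.e (nat_lit 426438) (nat_lit 18) .nil))))) .nil))) (.nd (nat_lit 5) 
(.lf (nat_lit 3796) (.g (nat_lit 2262) (.e (nat_lit 250) (nat_lit 21) (.e (nat_lit 336012) (nat_lit 2) (.e (nat_lit 90176) (nat_lit 15) (.e (nat_lit 188456) (nat_lit 25) (.e (nat_lit 245773) (nat_lit 3) (.e (nat_lit 164006) (nat_lit 41) (.e (nat_lit 663579) (nat_lit 9) .nil))))))) (.g (nat_lit 0) .nil .nil))) 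
(.lf (nat_lit 3828) (.g (nat_lit 2307) (.e (nat_lit 250) (nat_lit 21) (.e (nat_lit 336021) (nat_lit 3) (.e (nat_lit 98313) (nat_lit 9) (.e (nat_lit 336012) (nat_lit 2) (.e (nat_lit 90158) (nat_lit 11) .nil))))) .nil)))) (.nd (nat_lit 4) (.nd (nat_lit 5) 
(.lf (nat_lit 3788) (.g (nat_lit 2564) (.e (nat_lit 250) (nat_lit 21) (.e (nat_lit 336012) (nat_lit 2) (.e (nat_lit 90176) (nat_lit 15) (.e (nat_lit 188450) (nat_lit 23) (.e (nat_lit 204817) (nat_lit 17) (.e (nat_lit 1915) (nat_lit 130) (.e (nat_lit 606231) (nat_lit 9) .nil))))))) (.g (nat_lit 0) .nil .nil))) 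
(.lf (nat_lit 3820) (.g (nat_lit 2527) (.e (nat_lit 250) (nat_lit 21) (.e (nat_lit 336012) (nat_lit 2) (.e (nat_lit 90185) (nat_lit 17) (.e (nat_lit 237619) (nat_lit 12) (.e (nat_lit 475177) (nat_lit 24) (.e (nat_lit 516127) (nat_lit 2) (.e (nat_lit 213019) (nat_lit 9) .nil))))))) (.g (nat_lit 6) .nil .nil)))) (.nd (nat_lit 5) 
(.lf (nat_lit 3804) (.g (nat_lit 1513) (.e (nat_lit 250) (nat_lit 21) (.e (nat_lit 336012) (nat_lit 2) (.e (nat_lit 90178) (nat_lit 15) (.e (nat_lit 188418) (nat_lit 0) (.e (nat_lit 1800) (nat_lit 119) (.e (nat_lit 516126) (nat_lit 2) (.e (nat_lit 213017) (nat_lit 9) .nil))))))) (.g (nat_lit 4) .nil .nil))) 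
(.lf (nat_lit 3836) (.g (nat_lit 2405) (.e (nat_lit 250) (nat_lit 21) (.e (nat_lit 336021) (nat_lit 3) (.e (nat_lit 98313) (nat_lit 9) (.e (nat_lit 336027) (nat_lit 3) (.e (nat_lit 98313) (nat_lit 9) (.e (nat_lit 336012) (nat_lit 2) (.e (nat_lit 90137) (nat_lit 9) .nil))))))) (.g (nat_lit 4) .nil .nil))))))) (.nd (nat_lit 2) (.nd (nat_lit 3) (.nd (nat_lit 4) (.nd (nat_lit 5) 
(.lf (nat_lit 3778) (.g (nat_lit 1067) (.e (nat_lit 250) (nat_lit 21) (.e (nat_lit 336012) (nat_lit 2) (.e (nat_lit 90176) (nat_lit 15) (.e (nat_lit 196352) (nat_lit 3) .nil)))) .nil)) 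
(.lf (nat_lit 3810) (.g (nat_lit 1721) (.e (nat_lit 250) (nat_lit 21) (.e (nat_lit 336012) (nat_lit 2) (.e (nat_lit 90185) (nat_lit 17) (.e (nat_lit 237605) (nat_lit 9) (.e (nat_lit 426436) (nat_lit 18) (.e (nat_lit 98338) (nat_lit 19) (.e (nat_lit 213013) (nat_lit 9) .nil))))))) (.g (nat_lit 4) .nil .nil)))) (.nd (nat_lit 5) 
(.lf (nat_lit 3794) (.g (nat_lit 1906) (.e (nat_lit 250) (nat_lit 21) (.e (nat_lit 336012) (nat_lit 2) (.e (nat_lit 90176) (nat_lit 15) (.e (nat_lit 188450) (nat_lit 23) (.e (nat_lit 204821) (nat_lit 17) (.e (nat_lit 1918) (nat_lit 130) (.e (nat_lit 606235) (nat_lit 9) .nil))))))) (.g (nat_lit 4) .nil .nil))) 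
(.lf (nat_lit 3826) (.g (nat_lit 2493) (.e (nat_lit 250) (nat_lit 21) (.e (nat_lit 336012) (nat_lit 2) (.e (nat_lit 90185) (nat_lit 17) (.e (nat_lit 237619) (nat_lit 12) (.e (nat_lit 475179) (nat_lit 24) (.e (nat_lit 516127) (nat_lit 2) (.e (nat_lit 213019) (nat_lit 9) .nil))))))) (.g (nat_lit 6) .nil .nil))))) (.nd (nat_lit 4) (.nd (nat_lit 5) 
(.lf (nat_lit 3786) (.g (nat_lit 2428) (.e (nat_lit 250) (nat_lit 21) (.e (nat_lit 336012) (nat_lit 2) (.e (nat_lit 90176) (nat_lit 15) (.e (nat_lit 188450) (nat_lit 23) (.e (nat_lit 204815) (nat_lit 17) (.e (nat_lit 1917) (nat_lit 130) (.e (nat_lit 606231) (nat_lit 9) .nil))))))) (.g (nat_lit 0) .nil .nil))) 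
(.lf (nat_lit 3818) (.g (nat_lit 2370) (.e (nat_lit 250) (nat_lit 21) (.e (nat_lit 336012) (nat_lit 2) (.e (nat_lit 90185) (nat_lit 17) (.e (nat_lit 237616) (nat_lit 12) (.e (nat_lit 475179) (nat_lit 24) (.e (nat_lit 516127) (nat_lit 2) (.e (nat_lit 213019) (nat_lit 9) .nil))))))) (.g (nat_lit 6) .nil .nil)))) (.nd (nat_lit 5) 
(.lf (nat_lit 3802) (.g (nat_lit 1386) (.e (nat_lit 250) (nat_lit 21) (.e (nat_lit 336012) (nat_lit 2) (.e (nat_lit 90178) (nat_lit 15) (.e (nat_lit 188418) (nat_lit 0) (.e (nat_lit 1800) (nat_lit 119) .nil))))) .nil)) 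
(.lf (nat_lit 3834) (.g (nat_lit 1763) (.e (nat_lit 250) (nat_lit 21) (.e (nat_lit 336021) (nat_lit 3) (.e (nat_lit 98313) (nat_lit 9) (.e (nat_lit 336027) (nat_lit 3) .nil)))) .nil))))) (.nd (nat_lit 3) (.nd (nat_lit 4) (.nd (nat_lit 5) 
(.lf (nat_lit 3782) (.g (nat_lit 1696) (.e (nat_lit 250) (nat_lit 21) (.e (nat_lit 336012) (nat_lit 2) (.e (nat_lit 90176) (nat_lit 15) (.e (nat_lit 188450) (nat_lit 23) (.e (nat_lit 204815) (nat_lit 17) .nil))))) .nil)) 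
(.lf (nat_lit 3814) (.g (nat_lit 2422) (.e (nat_lit 250) (nat_lit 21) (.e (nat_lit 336012) (nat_lit 2) (.e (nat_lit 90185) (nat_lit 17) (.e (nat_lit 237616) (nat_lit 12) (.e (nat_lit 475177) (nat_lit 24) (.e (nat_lit 516127) (nat_lit 2) (.e (nat_lit 213019) (nat_lit 9) .nil))))))) (.g (nat_lit 6) .nil .nil)))) (.nd (nat_lit 5) 
(.lf (nat_lit 3798) (.g (nat_lit 484) (.e (nat_lit 250) (nat_lit 21) (.e (nat_lit 336012) (nat_lit 2) (.e (nat_lit 90178) (nat_lit 15) .nil))) .nil)) 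
(.lf (nat_lit 3830) (.g (nat_lit 2485) (.e (nat_lit 250) (nat_lit 21) (.e (nat_lit 336021) (nat_lit 3) (.e (nat_lit 98313) (nat_lit 9) (.e (nat_lit 336021) (nat_lit 3) (.e (nat_lit 98313) (nat_lit 9) .nil))))) .nil)))) (.nd (nat_lit 4) (.nd (nat_lit 5) 
(.lf (nat_lit 3790) (.g (nat_lit 1868) (.e (nat_lit 250) (nat_lit 21) (.e (nat_lit 336012) (nat_lit 2) (.e (nat_lit 90176) (nat_lit 15) (.e (nat_lit 188450) (nat_lit 23) (.e (nat_lit 204817) (nat_lit 17) (.e (nat_lit 1919) (nat_lit 130) (.e (nat_lit 606235) (nat_lit 9) .nil))))))) (.g (nat_lit 4) .nil .nil))) 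
(.lf (nat_lit 3822) (.g (nat_lit 2226) (.e (nat_lit 250) (nat_lit 21) (.e (nat_lit 336012) (nat_lit 2) (.e (nat_lit 90185) (nat_lit 17) (.e (nat_lit 237619) (nat_lit 12) (.e (nat_lit 475179) (nat_lit 24) (.e (nat_lit 516124) (nat_lit 2) (.e (nat_lit 213015) (nat_lit 9) .nil))))))) (.g (nat_lit 5) .nil .nil)))) (.nd (nat_lit 5) 
(.lf (nat_lit 3806) (.g (nat_lit 456) (.e (nat_lit 250) (nat_lit 21) (.e (nat_lit 336012) (nat_lit 2) (.e (nat_lit 90185) (nat_lit 17) .nil))) .nil)) 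
(.lf (nat_lit 3838) (.g (nat_lit 790) (.e (nat_lit 250) (nat_lit 21) (.e (nat_lit 336021) (nat_lit 3) (.e (nat_lit 98317) (nat_lit 9) .nil))) .nil))))))) (.nd (nat_lit 1) (.nd (nat_lit 2) (.nd (nat_lit 3) (.nd (nat_lit 4) (.nd (nat_lit 5) 
(.lf (nat_lit 3777) (.g (nat_lit 1843) (.e (nat_lit 250) (nat_lit 21) (.e (nat_lit 336012) (nat_lit 2) (.e (nat_lit 90176) (nat_lit 15) (.e (nat_lit 196352) (nat_lit 0) (.e (nat_lit 1788) (nat_lit 119) (.e (nat_lit 516123) (nat_lit 2) (.e (nat_lit 213000) (nat_lit 9) .nil))))))) (.g (nat_lit 6) .nil .nil))) 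
(.lf (nat_lit 3809) (.g (nat_lit 1630) (.e (nat_lit 250) (nat_lit 21) (.e (nat_lit 336012) (nat_lit 2) (.e (nat_lit 90185) (nat_lit 17) (.e (nat_lit 237605) (nat_lit 9) (.e (nat_lit 426436) (nat_lit 18) .nil))))) .nil))) (.nd (nat_lit 5) 
(.lf (nat_lit 3793) (.g (nat_lit 1717) (.e (nat_lit 250) (nat_lit 21) (.e (nat_lit 336012) (nat_lit 2) (.e (nat_lit 90176) (nat_lit 15) (.e (nat_lit 188450) (nat_lit 23) (.e (nat_lit 204821) (nat_lit 17) .nil))))) .nil)) 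
(.lf (nat_lit 3825) (.g (nat_lit 2094) (.e (nat_lit 250) (nat_lit 21) (.e (nat_lit 336012) (nat_lit 2) (.e (nat_lit 90185) (nat_lit 17) (.e (nat_lit 237619) (nat_lit 12) (.e (nat_lit 475179) (nat_lit 24) (.e (nat_lit 516126) (nat_lit 2) (.e (nat_lit 213017) (nat_lit 9) .nil))))))) (.g (nat_lit 5) .nil .nil))))) (.nd (nat_lit 4) (.nd (nat_lit 5) 
(.lf (nat_lit 3785) (.g (nat_lit 2068) (.e (nat_lit 250) (nat_lit 21) (.e (nat_lit 336012) (nat_lit 2) (.e (nat_lit 90176) (nat_lit 15) (.e (nat_lit 188450) (nat_lit 23) (.e (nat_lit 204815) (nat_lit 17) (.e (nat_lit 1916) (nat_lit 130) (.e (nat_lit 606236) (nat_lit 9) .nil))))))) (.g (nat_lit 5) .nil .nil))) 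
(.lf (nat_lit 3817) (.g (nat_lit 1972) (.e (nat_lit 250) (nat_lit 21) (.e (nat_lit 336012) (nat_lit 2) (.e (nat_lit 90185) (nat_lit 17) (.e (nat_lit 237616) (nat_lit 12) (.e (nat_lit 475179) (nat_lit 24) (.e (nat_lit 516126) (nat_lit 2) (.e (nat_lit 213017) (nat_lit 9) .nil))))))) (.g (nat_lit 5) .nil .nil)))) (.nd (nat_lit 5) 
(.lf (nat_lit 3801) (.g (nat_lit 1788) (.e (nat_lit 250) (nat_lit 21) (.e (nat_lit 336012) (nat_lit 2) (.e (nat_lit 90178) (nat_lit 15) (.e (nat_lit 188418) (nat_lit 0) (.e (nat_lit 1798) (nat_lit 119) (.e (nat_lit 516124) (nat_lit 2) (.e (nat_lit 213019) (nat_lit 9) .nil))))))) (.g (nat_lit 4) .nil .nil))) 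
(.lf (nat_lit 3833) (.g (nat_lit 2334) (.e (nat_lit 250) (nat_lit 21) (.e (nat_lit 336021) (nat_lit 3) (.e (nat_lit 98313) (nat_lit 9) (.e (nat_lit 336021) (nat_lit 3) (.e (nat_lit 98317) (nat_lit 9) (.e (nat_lit 336011) (nat_lit 2) (.e (nat_lit 90141) (nat_lit 9) .nil))))))) (.g (nat_lit 4) .nil .nil)))))) (.nd (nat_lit 3) (.nd (nat_lit 4) (.nd (nat_lit 5) 
(.lf (nat_lit 3781) (.g (nat_lit 2082) (.e (nat_lit 250) (nat_lit 21) (.e (nat_lit 336012) (nat_lit 2) (.e (nat_lit 90176) (nat_lit 15) (.e (nat_lit 188439) (nat_lit 20) (.e (nat_lit 7936) (nat_lit 200) (.e (nat_lit 557065) (nat_lit 9) (.e (nat_lit 2700) (nat_lit 169) (.e (nat_lit 213017) (nat_lit 9) .nil)))))))) (.g (nat_lit 7) .nil .nil))) 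
(.lf (nat_lit 3813) (.g (nat_lit 1219) (.e (nat_lit 250) (nat_lit 21) (.e (nat_lit 336012) (nat_lit 2) (.e (nat_lit 90185) (nat_lit 17) (.e (nat_lit 237616) (nat_lit 12) .nil)))) .nil))) (.nd (nat_lit 5) 
(.lf (nat_lit 3797) (.g (nat_lit 1477) (.e (nat_lit 250) (nat_lit 21) (.e (nat_lit 336012) (nat_lit 2) (.e (nat_lit 90176) (nat_lit 15) (.e (nat_lit 188456) (nat_lit 25) (.e (nat_lit 245774) (nat_lit 3) (.e (nat_lit 164010) (nat_lit 41) (.e (nat_lit 663579) (nat_lit 9) .nil))))))) (.g (nat_lit 4) .nil .nil))) 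
(.lf (nat_lit 3829) (.g (nat_lit 1847) (.e (nat_lit 250) (nat_lit 21) (.e (nat_lit 336021) (nat_lit 3) (.e (nat_lit 98313) (nat_lit 9) (.e (nat_lit 336021) (nat_lit 3) .nil)))) .nil)))) (.nd (nat_lit 4) (.nd (nat_lit 5) 
(.lf (nat_lit 3789) (.g (nat_lit 2225) (.e (nat_lit 250) (nat_lit 21) (.e (nat_lit 336012) (nat_lit 2) (.e (nat_lit 90176) (nat_lit 15) (.e (nat_lit 188450) (nat_lit 23) (.e (nat_lit 204817) (nat_lit 17) (.e (nat_lit 1915) (nat_lit 130) (.e (nat_lit 606236) (nat_lit 9) .nil))))))) (.g (nat_lit 5) .nil .nil))) 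
(.lf (nat_lit 3821) (.g (nat_lit 1428) (.e (nat_lit 250) (nat_lit 21) (.e (nat_lit 336012) (nat_lit 2) (.e (nat_lit 90185) (nat_lit 17) (.e (nat_lit 237619) (nat_lit 12) (.e (nat_lit 475179) (nat_lit 24) .nil))))) .nil))) (.nd (nat_lit 5) 
(.lf (nat_lit 3805) (.g (nat_lit 1296) (.e (nat_lit 250) (nat_lit 21) (.e (nat_lit 336012) (nat_lit 2) (.e (nat_lit 90178) (nat_lit 15) (.e (nat_lit 196352) (nat_lit 0) .nil)))) .nil)) 
(.lf (nat_lit 3837) (.g (nat_lit 2280) (.e (nat_lit 250) (nat_lit 21) (.e (nat_lit 336021) (nat_lit 3) (.e (nat_lit 98313) (nat_lit 9) (.e (nat_lit 336027) (nat_lit 3) (.e (nat_lit 98317) (nat_lit 9) .nil))))) .nil)))))) (.nd (nat_lit 2) (.nd (nat_lit 3) (.nd (nat_lit 4) (.nd (nat_lit 5) 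
(.lf (nat_lit 3779) (.g (nat_lit 1323) (.e (nat_lit 250) (nat_lit 21) (.e (nat_lit 336012) (nat_lit 2) (.e (nat_lit 90176) (nat_lit 15) (.e (nat_lit 196352) (nat_lit 3) (.e (nat_lit 98337) (nat_lit 19) (.e (nat_lit 213015) (nat_lit 9) .nil)))))) (.g (nat_lit 5) .nil .nil))) 
(.lf (nat_lit 3811) (.g (nat_lit 1671) (.e (nat_lit 250) (nat_lit 21) (.e (nat_lit 336012) (nat_lit 2) (.e (nat_lit 90185) (nat_lit 17) (.e (nat_lit 237605) (nat_lit 9) (.e (nat_lit 426436) (nat_lit 18) (.e (nat_lit 98338) (nat_lit 19) (.e (nat_lit 213015) (nat_lit 9) .nil))))))) (.g (nat_lit 4) .nil .nil)))) (.nd (nat_lit 5) 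
(.lf (nat_lit 3795) (.g (nat_lit 1084) (.e (nat_lit 250) (nat_lit 21) (.e (nat_lit 336012) (nat_lit 2) (.e (nat_lit 90176) (nat_lit 15) (.e (nat_lit 188456) (nat_lit 25) .nil)))) .nil)) 
(.lf (nat_lit 3827) (.g (nat_lit 2241) (.e (nat_lit 250) (nat_lit 21) (.e (nat_lit 336021) (nat_lit 3) (.e (nat_lit 98313) (nat_lit 9) (.e (nat_lit 336004) (nat_lit 2) (.e (nat_lit 90158) (nat_lit 11) .nil))))) .nil)))) (.nd (nat_lit 4) (.nd (nat_lit 5) 
(.lf (nat_lit 3787) (.g (nat_lit 1735) (.e (nat_lit 250) (nat_lit 21) (.e (nat_lit 336012) (nat_lit 2) (.e (nat_lit 90176) (nat_lit 15) (.e (nat_lit 188450) (nat_lit 23) (.e (nat_lit 204817) (nat_lit 17) .nil))))) .nil)) 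
(.lf (nat_lit 3819) (.g (nat_lit 1451) (.e (nat_lit 250) (nat_lit 21) (.e (nat_lit 336012) (nat_lit 2) (.e (nat_lit 90185) (nat_lit 17) (.e (nat_lit 237619) (nat_lit 12) (.e (nat_lit 475177) (nat_lit 24) .nil))))) .nil))) (.nd (nat_lit 5) 
(.lf (nat_lit 3803) (.g (nat_lit 2133) (.e (nat_lit 250) (nat_lit 21) (.e (nat_lit 336012) (nat_lit 2) (.e (nat_lit 90178) (nat_lit 15) (.e (nat_lit 188418) (nat_lit 0) (.e (nat_lit 1800) (nat_lit 119) (.e (nat_lit 516124) (nat_lit 2) (.e (nat_lit 213019) (nat_lit 9) .nil))))))) (.g (nat_lit 5) .nil .nil))) 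
(.lf (nat_lit 3835) (.g (nat_lit 2377) (.e (nat_lit 250) (nat_lit 21) (.e (nat_lit 336021) (nat_lit 3) (.e (nat_lit 98313) (nat_lit 9) (.e (nat_lit 336027) (nat_lit 3) (.e (nat_lit 98313) (nat_lit 9) .nil))))) .nil))))) (.nd (nat_lit 3) (.nd (nat_lit 4) (.nd (nat_lit 5) 
(.lf (nat_lit 3783) (.g (nat_lit 1785) (.e (nat_lit 250) (nat_lit 21) (.e (nat_lit 336012) (nat_lit 2) (.e (nat_lit 90176) (nat_lit 15) (.e (nat_lit 188450) (nat_lit 23) (.e (nat_lit 204815) (nat_lit 17) (.e (nat_lit 1915) (nat_lit 130) (.e (nat_lit 606231) (nat_lit 9) .nil))))))) (.g (nat_lit 4) .nil .nil))) 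
(.lf (nat_lit 3815) (.g (nat_lit 2106) (.e (nat_lit 250) (nat_lit 21) (.e (nat_lit 336012) (nat_lit 2) (.e (nat_lit 90185) (nat_lit 17) (.e (nat_lit 237616) (nat_lit 12) (.e (nat_lit 475179) (nat_lit 24) (.e (nat_lit 516124) (nat_lit 2) (.e (nat_lit 213015) (nat_lit 9) .nil))))))) (.g (nat_lit 5) .nil .nil)))) (.nd (nat_lit 5) 
(.lf (nat_lit 3799) (.g (nat_lit 1103) (.e (nat_lit 250) (nat_lit 21) (.e (nat_lit 336012) (nat_lit 2) (.e (nat_lit 90178) (nat_lit 15) (.e (nat_lit 188418) (nat_lit 0) .nil)))) .nil)) 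
(.lf (nat_lit 3831) (.g (nat_lit 2672) (.e (nat_lit 250) (nat_lit 21) (.e (nat_lit 336021) (nat_lit 3) (.e (nat_lit 98313) (nat_lit 9) (.e (nat_lit 336021) (nat_lit 3) (.e (nat_lit 98313) (nat_lit 9) (.e (nat_lit 336011) (nat_lit 2) (.e (nat_lit 90141) (nat_lit 9) .nil))))))) (.g (nat_lit 4) .nil .nil))))) (.nd (nat_lit 4) (.nd (nat_lit 5) 
(.lf (nat_lit 3791) (.g (nat_lit 1947) (.e (nat_lit 250) (nat_lit 21) (.e (nat_lit 336012) (nat_lit 2) (.e (nat_lit 90176) (nat_lit 15) (.e (nat_lit 188450) (nat_lit 23) (.e (nat_lit 204817) (nat_lit 17) (.e (nat_lit 7936) (nat_lit 130) (.e (nat_lit 606236) (nat_lit 9) .nil))))))) (.g (nat_lit 4) .nil .nil))) 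
(.lf (nat_lit 3823) (.g (nat_lit 3281) (.e (nat_lit 250) (nat_lit 21) (.e (nat_lit 336012) (nat_lit 2) (.e (nat_lit 90185) (nat_lit 17) (.e (nat_lit 237619) (nat_lit 12) (.e (nat_lit 475179) (nat_lit 24) (.e (nat_lit 516124) (nat_lit 2) (.e (nat_lit 213019) (nat_lit 9) .nil))))))) (.g (nat_lit 0) .nil .nil)))) (.nd (nat_lit 5) 
(.lf (nat_lit 3807) (.g (nat_lit 1314) (.e (nat_lit 250) (nat_lit 21) (.e (nat_lit 336012) (nat_lit 2) (.e (nat_lit 90185) (nat_lit 17) (.e (nat_lit 237601) (nat_lit 9) .nil)))) .nil)) 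
(.lf (nat_lit 3839) (.g (nat_lit 2070) (.e (nat_lit 250) (nat_lit 21) (.e (nat_lit 336021) (nat_lit 3) (.e (nat_lit 98317) (nat_lit 9) (.e (nat_lit 336004) (nat_lit 2) .nil)))) .nil))))))))

noncomputable def tv052 : DT := (.nd (nat_lit 0) (.nd (nat_lit 1) (.nd (nat_lit 2) (.nd (nat_lit 3) (.nd (nat_lit 4) (.nd (nat_lit 5) 
(.lf (nat_lit 3840) (.g (nat_lit 2059) (.e (nat_lit 250) (nat_lit 21) (.e (nat_lit 336021) (nat_lit 3) (.e (nat_lit 98317) (nat_lit 9) (.e (nat_lit 336021) (nat_lit 3) .nil)))) .nil)) 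
(.lf (nat_lit 3872) (.g (nat_lit 2888) (.e (nat_lit 250) (nat_lit 21) (.e (nat_lit 336027) (nat_lit 3) (.e (nat_lit 98365) (nat_lit 26) (.e (nat_lit 426306) (nat_lit 12) (.e (nat_lit 475179) (nat_lit 24) (.e (nat_lit 516127) (nat_lit 2) (.e (nat_lit 213019) (nat_lit 9) .nil))))))) (.g (nat_lit 6) .nil .nil)))) (.nd (nat_lit 5) 
(.lf (nat_lit 3856) (.g (nat_lit 1927) (.e (nat_lit 250) (nat_lit 21) (.e (nat_lit 336027) (nat_lit 3) (.e (nat_lit 98365) (nat_lit 26) (.e (nat_lit 426188) (nat_lit 9) (.e (nat_lit 426436) (nat_lit 18) (.e (nat_lit 98338) (nat_lit 19) (.e (nat_lit 213013) (nat_lit 9) .nil))))))) (.g (nat_lit 4) .nil .nil))) 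
(.lf (nat_lit 3888) (.g (nat_lit 2322) (.e (nat_lit 250) (nat_lit 21) (.e (nat_lit 336027) (nat_lit 3) (.e (nat_lit 98372) (nat_lit 29) (.e (nat_lit 458496) (nat_lit 3) (.e (nat_lit 516097) (nat_lit 0) (.e (nat_lit 3421) (nat_lit 213) (.e (nat_lit 663579) (nat_lit 9) .nil))))))) (.g (nat_lit 5) .nil .nil))))) (.nd (nat_lit 4) (.nd (nat_lit 5) 
(.lf (nat_lit 3848) (.g (nat_lit 1966) (.e (nat_lit 250) (nat_lit 21) (.e (nat_lit 336027) (nat_lit 3) (.e (nat_lit 98363) (nat_lit 26) (.e (nat_lit 426318) (nat_lit 12) (.e (nat_lit 475179) (nat_lit 24) (.e (nat_lit 516127) (nat_lit 2) (.e (nat_lit 213019) (nat_lit 9) .nil))))))) (.g (nat_lit 5) .nil .nil))) 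
(.lf (nat_lit 3880) (.g (nat_lit 633) (.e (nat_lit 250) (nat_lit 21) (.e (nat_lit 336027) (nat_lit 3) (.e (nat_lit 98370) (nat_lit 28) .nil))) .nil))) (.nd (nat_lit 5) 
(.lf (nat_lit 3864) (.g (nat_lit 3005) (.e (nat_lit 250) (nat_lit 21) (.e (nat_lit 336027) (nat_lit 3) (.e (nat_lit 98365) (nat_lit 26) (.e (nat_lit 426306) (nat_lit 12) (.e (nat_lit 475177) (nat_lit 24) (.e (nat_lit 516127) (nat_lit 2) (.e (nat_lit 213019) (nat_lit 9) .nil))))))) (.g (nat_lit 6) .nil .nil))) 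
(.lf (nat_lit 3896) (.g (nat_lit 2912) (.e (nat_lit 250) (nat_lit 21) (.e (nat_lit 336027) (nat_lit 3) (.e (nat_lit 98372) (nat_lit 29) (.e (nat_lit 450579) (nat_lit 5) (.e (nat_lit 532484) (nat_lit 0) (.e (nat_lit 1915) (nat_lit 130) (.e (nat_lit 606231) (nat_lit 9) .nil))))))) (.g (nat_lit 0) .nil .nil)))))) (.nd (nat_lit 3) (.nd (nat_lit 4) (.nd (nat_lit 5) 
(.lf (nat_lit 3844) (.g (nat_lit 1108) (.e (nat_lit 250) (nat_lit 21) (.e (nat_lit 336027) (nat_lit 3) (.e (nat_lit 98363) (nat_lit 26) (.e (nat_lit 426230) (nat_lit 9) .nil)))) .nil)) 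
(.lf (nat_lit 3876) (.g (nat_lit 2800) (.e (nat_lit 250) (nat_lit 21) (.e (nat_lit 336027) (nat_lit 3) (.e (nat_lit 98369) (nat_lit 28) (.e (nat_lit 442374) (nat_lit 0) (.e (nat_lit 1800) (nat_lit 119) (.e (nat_lit 516124) (nat_lit 2) (.e (nat_lit 213019) (nat_lit 9) .nil))))))) (.g (nat_lit 0) .nil .nil)))) (.nd (nat_lit 5) 
(.lf (nat_lit 3860) (.g (nat_lit 1411) (.e (nat_lit 250) (nat_lit 21) (.e (nat_lit 336027) (nat_lit 3) (.e (nat_lit 98365) (nat_lit 26) (.e (nat_lit 426189) (nat_lit 9) .nil)))) .nil)) 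
(.lf (nat_lit 3892) (.g (nat_lit 2185) (.e (nat_lit 250) (nat_lit 21) (.e (nat_lit 336027) (nat_lit 3) (.e (nat_lit 98372) (nat_lit 29) (.e (nat_lit 458496) (nat_lit 3) (.e (nat_lit 516106) (nat_lit 0) (.e (nat_lit 3424) (nat_lit 213) (.e (nat_lit 663578) (nat_lit 9) .nil))))))) (.g (nat_lit 5) .nil .nil))))) (.nd (nat_lit 4) (.nd (nat_lit 5) 
(.lf (nat_lit 3852) (.g (nat_lit 1701) (.e (nat_lit 250) (nat_lit 21) (.e (nat_lit 336027) (nat_lit 3) (.e (nat_lit 98365) (nat_lit 26) (.e (nat_lit 426187) (nat_lit 9) (.e (nat_lit 426436) (nat_lit 18) (.e (nat_lit 98338) (nat_lit 19) (.e (nat_lit 213013) (nat_lit 9) .nil))))))) (.g (nat_lit 4) .nil .nil))) 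
(.lf (nat_lit 3884) (.g (nat_lit 447) (.e (nat_lit 250) (nat_lit 21) (.e (nat_lit 336027) (nat_lit 3) (.e (nat_lit 98372) (nat_lit 29) .nil))) .nil))) (.nd (nat_lit 5) 
(.lf (nat_lit 3868) (.g (nat_lit 2608) (.e (nat_lit 250) (nat_lit 21) (.e (nat_lit 336027) (nat_lit 3) (.e (nat_lit 98365) (nat_lit 26) (.e (nat_lit 426306) (nat_lit 12) (.e (nat_lit 475179) (nat_lit 24) (.e (nat_lit 516124) (nat_lit 2) (.e (nat_lit 213015) (nat_lit 9) .nil))))))) (.g (nat_lit 5) .nil .nil))) 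
(.lf (nat_lit 3900) (.g (nat_lit 2460) (.e (nat_lit 250) (nat_lit 21) (.e (nat_lit 336027) (nat_lit 3) (.e (nat_lit 98372) (nat_lit 29) (.e (nat_lit 450579) (nat_lit 5) (.e (nat_lit 532499) (nat_lit 1) (.e (nat_lit 65280) (nat_lit 233) (.e (nat_lit 2458) (nat_lit 157) .nil))))))) (.g (nat_lit 5) .nil .nil))))))) (.nd (nat_lit 2) (.nd (nat_lit 3) (.nd (nat_lit 4) (.nd (nat_lit 5) 
(.lf (nat_lit 3842) (.g (nat_lit 499) (.e (nat_lit 250) (nat_lit 21) (.e (nat_lit 336027) (nat_lit 3) (.e (nat_lit 98354) (nat_lit 26) .nil))) .nil)) 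
(.lf (nat_lit 3874) (.g (nat_lit 831) (.e (nat_lit 250) (nat_lit 21) (.e (nat_lit 336027) (nat_lit 3) (.e (nat_lit 98369) (nat_lit 28) (.e (nat_lit 442373) (nat_lit 0) .nil)))) .nil))) (.nd (nat_lit 5) 
(.lf (nat_lit 3858) (.g (nat_lit 2064) (.e (nat_lit 250) (nat_lit 21) (.e (nat_lit 336027) (nat_lit 3) (.e (nat_lit 98365) (nat_lit 26) (.e (nat_lit 426188) (nat_lit 9) (.e (nat_lit 426436) (nat_lit 18) (.e (nat_lit 98339) (nat_lit 19) (.e (nat_lit 213011) (nat_lit 9) .nil))))))) (.g (nat_lit 4) .nil .nil))) 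
(.lf (nat_lit 3890) (.g (nat_lit 2412) (.e (nat_lit 250) (nat_lit 21) (.e (nat_lit 336027) (nat_lit 3) (.e (nat_lit 98372) (nat_lit 29) (.e (nat_lit 458496) (nat_lit 3) (.e (nat_lit 516106) (nat_lit 0) (.e (nat_lit 3415) (nat_lit 213) (.e (nat_lit 663579) (nat_lit 9) .nil))))))) (.g (nat_lit 5) .nil .nil))))) (.nd (nat_lit 4) (.nd (nat_lit 5) 
(.lf (nat_lit 3850) (.g (nat_lit 1297) (.e (nat_lit 250) (nat_lit 21) (.e (nat_lit 336027) (nat_lit 3) (.e (nat_lit 98365) (nat_lit 26) (.e (nat_lit 426187) (nat_lit 9) .nil)))) .nil)) 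
(.lf (nat_lit 3882) (.g (nat_lit 2308) (.e (nat_lit 250) (nat_lit 21) (.e (nat_lit 336027) (nat_lit 3) (.e (nat_lit 98370) (nat_lit 28) (.e (nat_lit 442374) (nat_lit 0) (.e (nat_lit 1800) (nat_lit 119) (.e (nat_lit 516124) (nat_lit 2) (.e (nat_lit 213019) (nat_lit 9) .nil))))))) (.g (nat_lit 5) .nil .nil)))) (.nd (nat_lit 5) 
(.lf (nat_lit 3866) (.g (nat_lit 2170) (.e (nat_lit 250) (nat_lit 21) (.e (nat_lit 336027) (nat_lit 3) (.e (nat_lit 98365) (nat_lit 26) (.e (nat_lit 426306) (nat_lit 12) (.e (nat_lit 475178) (nat_lit 24) (.e (nat_lit 516127) (nat_lit 2) (.e (nat_lit 213019) (nat_lit 9) .nil))))))) (.g (nat_lit 4) .nil .nil))) 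
(.lf (nat_lit 3898) (.g (nat_lit 2587) (.e (nat_lit 250) (nat_lit 21) (.e (nat_lit 336027) (nat_lit 3) (.e (nat_lit 98372) (nat_lit 29) (.e (nat_lit 450579) (nat_lit 5) (.e (nat_lit 532484) (nat_lit 0) (.e (nat_lit 1915) (nat_lit 130) (.e (nat_lit 606236) (nat_lit 9) .nil))))))) (.g (nat_lit 5) .nil .nil)))))) (.nd (nat_lit 3) (.nd (nat_lit 4) (.nd (nat_lit 5) 
(.lf (nat_lit 3846) (.g (nat_lit 1919) (.e (nat_lit 250) (nat_lit 21) (.e (nat_lit 336027) (nat_lit 3) (.e (nat_lit 98363) (nat_lit 26) (.e (nat_lit 426318) (nat_lit 12) (.e (nat_lit 475177) (nat_lit 24) (.e (nat_lit 516127) (nat_lit 2) (.e (nat_lit 213019) (nat_lit 9) .nil))))))) (.g (nat_lit 5) .nil .nil))) 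
(.lf (nat_lit 3878) (.g (nat_lit 938) (.e (nat_lit 250) (nat_lit 21) (.e (nat_lit 336027) (nat_lit 3) (.e (nat_lit 98369) (nat_lit 28) (.e (nat_lit 450304) (nat_lit 0) .nil)))) .nil))) (.nd (nat_lit 5) 
(.lf (nat_lit 3862) (.g (nat_lit 1838) (.e (nat_lit 250) (nat_lit 21) (.e (nat_lit 336027) (nat_lit 3) (.e (nat_lit 98365) (nat_lit 26) (.e (nat_lit 426306) (nat_lit 12) (.e (nat_lit 475177) (nat_lit 24) .nil))))) .nil)) 
(.lf (nat_lit 3894) (.g (nat_lit 1205) (.e (nat_lit 250) (nat_lit 21) (.e (nat_lit 336027) (nat_lit 3) (.e (nat_lit 98372) (nat_lit 29) (.e (nat_lit 450579) (nat_lit 5) .nil)))) .nil)))) (.nd (nat_lit 4) (.nd (nat_lit 5) 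
(.lf (nat_lit 3854) (.g (nat_lit 1815) (.e (nat_lit 250) (nat_lit 21) (.e (nat_lit 336027) (nat_lit 3) (.e (nat_lit 98365) (nat_lit 26) (.e (nat_lit 426187) (nat_lit 9) (.e (nat_lit 426436) (nat_lit 18) (.e (nat_lit 98339) (nat_lit 19) (.e (nat_lit 213011) (nat_lit 9) .nil))))))) (.g (nat_lit 4) .nil .nil))) 
(.lf (nat_lit 3886) (.g (nat_lit 1696) (.e (nat_lit 250) (nat_lit 21) (.e (nat_lit 336027) (nat_lit 3) (.e (nat_lit 98372) (nat_lit 29) (.e (nat_lit 458496) (nat_lit 3) .nil)))) .nil))) (.nd (nat_lit 5) 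
(.lf (nat_lit 3870) (.g (nat_lit 1918) (.e (nat_lit 250) (nat_lit 21) (.e (nat_lit 336027) (nat_lit 3) (.e (nat_lit 98365) (nat_lit 26) (.e (nat_lit 426306) (nat_lit 12) (.e (nat_lit 475179) (nat_lit 24) (.e (nat_lit 516126) (nat_lit 2) (.e (nat_lit 213010) (nat_lit 9) .nil))))))) (.g (nat_lit 4) .nil .nil))) 
(.lf (nat_lit 3902) (.g (nat_lit 3333) (.e (nat_lit 250) (nat_lit 21) (.e (nat_lit 336027) (nat_lit 3) (.e (nat_lit 98372) (nat_lit 29) (.e (nat_lit 450579) (nat_lit 5) (.e (nat_lit 532501) (nat_lit 1) (.e (nat_lit 57777) (nat_lit 233) (.e (nat_lit 2451) (nat_lit 157) .nil))))))) (.g (nat_lit 0) .nil .nil)))))))) (.nd (nat_lit 1) (.nd (nat_lit 2) (.nd (nat_lit 3) (.nd (nat_lit 4) (.nd (nat_lit 5) 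
(.lf (nat_lit 3841) (.g (nat_lit 1359) (.e (nat_lit 250) (nat_lit 21) (.e (nat_lit 336021) (nat_lit 3) (.e (nat_lit 98365) (nat_lit 26) (.e (nat_lit 426306) (nat_lit 12) .nil)))) .nil)) 
(.lf (nat_lit 3873) (.g (nat_lit 434) (.e (nat_lit 250) (nat_lit 21) (.e (nat_lit 336027) (nat_lit 3) (.e (nat_lit 98369) (nat_lit 28) .nil))) .nil))) (.nd (nat_lit 5) 
(.lf (nat_lit 3857) (.g (nat_lit 1952) (.e (nat_lit 250) (nat_lit 21) (.e (nat_lit 336027) (nat_lit 3) (.e (nat_lit 98365) (nat_lit 26) (.e (nat_lit 426188) (nat_lit 9) (.e (nat_lit 426436) (nat_lit 18) (.e (nat_lit 98338) (nat_lit 19) (.e (nat_lit 213015) (nat_lit 9) .nil))))))) (.g (nat_lit 4) .nil .nil))) 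
(.lf (nat_lit 3889) (.g (nat_lit 2312) (.e (nat_lit 250) (nat_lit 21) (.e (nat_lit 336027) (nat_lit 3) (.e (nat_lit 98372) (nat_lit 29) (.e (nat_lit 458496) (nat_lit 3) (.e (nat_lit 516097) (nat_lit 0) (.e (nat_lit 3429) (nat_lit 213) (.e (nat_lit 663577) (nat_lit 9) .nil))))))) (.g (nat_lit 5) .nil .nil))))) (.nd (nat_lit 4) (.nd (nat_lit 5) 
(.lf (nat_lit 3849) (.g (nat_lit 550) (.e (nat_lit 250) (nat_lit 21) (.e (nat_lit 336027) (nat_lit 3) (.e (nat_lit 98365) (nat_lit 26) .nil))) .nil)) 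
(.lf (nat_lit 3881) (.g (nat_lit 1576) (.e (nat_lit 250) (nat_lit 21) (.e (nat_lit 336027) (nat_lit 3) (.e (nat_lit 98370) (nat_lit 28) (.e (nat_lit 442374) (nat_lit 0) (.e (nat_lit 1800) (nat_lit 119) .nil))))) .nil))) (.nd (nat_lit 5) 
(.lf (nat_lit 3865) (.g (nat_lit 1976) (.e (nat_lit 250) (nat_lit 21) (.e (nat_lit 336027) (nat_lit 3) (.e (nat_lit 98365) (nat_lit 26) (.e (nat_lit 426306) (nat_lit 12) (.e (nat_lit 475178) (nat_lit 24) .nil))))) .nil)) 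
(.lf (nat_lit 3897) (.g (nat_lit 2384) (.e (nat_lit 250) (nat_lit 21) (.e (nat_lit 336027) (nat_lit 3) (.e (nat_lit 98372) (nat_lit 29) (.e (nat_lit 450579) (nat_lit 5) (.e (nat_lit 532484) (nat_lit 0) (.e (nat_lit 1915) (nat_lit 130) (.e (nat_lit 606235) (nat_lit 9) .nil))))))) (.g (nat_lit 4) .nil .nil)))))) (.nd (nat_lit 3) (.nd (nat_lit 4) (.nd (nat_lit 5) 
(.lf (nat_lit 3845) (.g (nat_lit 1002) (.e (nat_lit 250) (nat_lit 21) (.e (nat_lit 336027) (nat_lit 3) (.e (nat_lit 98363) (nat_lit 26) (.e (nat_lit 426318) (nat_lit 12) .nil)))) .nil)) 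
(.lf (nat_lit 3877) (.g (nat_lit 2379) (.e (nat_lit 250) (nat_lit 21) (.e (nat_lit 336027) (nat_lit 3) (.e (nat_lit 98369) (nat_lit 28) (.e (nat_lit 442374) (nat_lit 0) (.e (nat_lit 1800) (nat_lit 119) (.e (nat_lit 516126) (nat_lit 2) (.e (nat_lit 213017) (nat_lit 9) .nil))))))) (.g (nat_lit 7) .nil .nil)))) (.nd (nat_lit 5) 
(.lf (nat_lit 3861) (.g (nat_lit 2300) (.e (nat_lit 250) (nat_lit 21) (.e (nat_lit 336027) (nat_lit 3) (.e (nat_lit 98365) (nat_lit 26) (.e (nat_lit 426306) (nat_lit 12) (.e (nat_lit 475175) (nat_lit 24) (.e (nat_lit 516124) (nat_lit 2) (.e (nat_lit 213019) (nat_lit 9) .nil))))))) (.g (nat_lit 5) .nil .nil))) 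
(.lf (nat_lit 3893) (.g (nat_lit 2392) (.e (nat_lit 250) (nat_lit 21) (.e (nat_lit 336027) (nat_lit 3) (.e (nat_lit 98372) (nat_lit 29) (.e (nat_lit 458496) (nat_lit 3) (.e (nat_lit 516106) (nat_lit 0) (.e (nat_lit 3426) (nat_lit 213) (.e (nat_lit 663579) (nat_lit 9) .nil))))))) (.g (nat_lit 5) .nil .nil))))) (.nd (nat_lit 4) (.nd (nat_lit 5) 
(.lf (nat_lit 3853) (.g (nat_lit 1728) (.e (nat_lit 250) (nat_lit 21) (.e (nat_lit 336027) (nat_lit 3) (.e (nat_lit 98365) (nat_lit 26) (.e (nat_lit 426187) (nat_lit 9) (.e (nat_lit 426436) (nat_lit 18) (.e (nat_lit 98338) (nat_lit 19) (.e (nat_lit 213015) (nat_lit 9) .nil))))))) (.g (nat_lit 4) .nil .nil))) 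
(.lf (nat_lit 3885) (.g (nat_lit 1696) (.e (nat_lit 250) (nat_lit 21) (.e (nat_lit 336027) (nat_lit 3) (.e (nat_lit 98372) (nat_lit 29) (.e (nat_lit 458496) (nat_lit 1) .nil)))) .nil))) (.nd (nat_lit 5) 
(.lf (nat_lit 3869) (.g (nat_lit 3636) (.e (nat_lit 250) (nat_lit 21) (.e (nat_lit 336027) (nat_lit 3) (.e (nat_lit 98365) (nat_lit 26) (.e (nat_lit 426306) (nat_lit 12) (.e (nat_lit 475179) (nat_lit 24) (.e (nat_lit 516124) (nat_lit 2) (.e (nat_lit 213019) (nat_lit 9) .nil))))))) (.g (nat_lit 0) .nil .nil))) 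
(.lf (nat_lit 3901) (.g (nat_lit 3211) (.e (nat_lit 250) (nat_lit 21) (.e (nat_lit 336027) (nat_lit 3) (.e (nat_lit 98372) (nat_lit 29) (.e (nat_lit 450579) (nat_lit 5) (.e (nat_lit 532501) (nat_lit 1) (.e (nat_lit 57777) (nat_lit 233) (.e (nat_lit 2416) (nat_lit 157) .nil))))))) (.g (nat_lit 0) .nil .nil))))))) (.nd (nat_lit 2) (.nd (nat_lit 3) (.nd (nat_lit 4) (.nd (nat_lit 5) 
(.lf (nat_lit 3843) (.g (nat_lit 499) (.e (nat_lit 250) (nat_lit 21) (.e (nat_lit 336027) (nat_lit 3) (.e (nat_lit 98363) (nat_lit 26) .nil))) .nil)) 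
(.lf (nat_lit 3875) (.g (nat_lit 1077) (.e (nat_lit 250) (nat_lit 21) (.e (nat_lit 336027) (nat_lit 3) (.e (nat_lit 98369) (nat_lit 28) (.e (nat_lit 442374) (nat_lit 0) (.e (nat_lit 1800) (nat_lit 119) .nil))))) .nil))) (.nd (nat_lit 5) 
(.lf (nat_lit 3859) (.g (nat_lit 2013) (.e (nat_lit 250) (nat_lit 21) (.e (nat_lit 336027) (nat_lit 3) (.e (nat_lit 98365) (nat_lit 26) (.e (nat_lit 426188) (nat_lit 9) (.e (nat_lit 426438) (nat_lit 18) .nil))))) .nil)) 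
(.lf (nat_lit 3891) (.g (nat_lit 2487) (.e (nat_lit 250) (nat_lit 21) (.e (nat_lit 336027) (nat_lit 3) (.e (nat_lit 98372) (nat_lit 29) (.e (nat_lit 458496) (nat_lit 3) (.e (nat_lit 516106) (nat_lit 0) (.e (nat_lit 3416) (nat_lit 213) (.e (nat_lit 663579) (nat_lit 9) .nil))))))) (.g (nat_lit 5) .nil .nil))))) (.nd (nat_lit 4) (.nd (nat_lit 5) 
(.lf (nat_lit 3851) (.g (nat_lit 1610) (.e (nat_lit 250) (nat_lit 21) (.e (nat_lit 336027) (nat_lit 3) (.e (nat_lit 98365) (nat_lit 26) (.e (nat_lit 426187) (nat_lit 9) (.e (nat_lit 426436) (nat_lit 18) .nil))))) .nil)) 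
(.lf (nat_lit 3883) (.g (nat_lit 2293) (.e (nat_lit 250) (nat_lit 21) (.e (nat_lit 336027) (nat_lit 3) (.e (nat_lit 98370) (nat_lit 28) (.e (nat_lit 442374) (nat_lit 0) (.e (nat_lit 1800) (nat_lit 119) (.e (nat_lit 516127) (nat_lit 2) (.e (nat_lit 213019) (nat_lit 9) .nil))))))) (.g (nat_lit 5) .nil .nil)))) (.nd (nat_lit 5) 
(.lf (nat_lit 3867) (.g (nat_lit 1763) (.e (nat_lit 250) (nat_lit 21) (.e (nat_lit 336027) (nat_lit 3) (.e (nat_lit 98365) (nat_lit 26) (.e (nat_lit 426306) (nat_lit 12) (.e (nat_lit 475179) (nat_lit 24) .nil))))) .nil)) 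
(.lf (nat_lit 3899) (.g (nat_lit 2042) (.e (nat_lit 250) (nat_lit 21) (.e (nat_lit 336027) (nat_lit 3) (.e (nat_lit 98372) (nat_lit 29) (.e (nat_lit 450579) (nat_lit 5) (.e (nat_lit 532488) (nat_lit 0) .nil))))) .nil))))) (.nd (nat_lit 3) (.nd (nat_lit 4) (.nd (nat_lit 5) 
(.lf (nat_lit 3847) (.g (nat_lit 2822) (.e (nat_lit 250) (nat_lit 21) (.e (nat_lit 336027) (nat_lit 3) (.e (nat_lit 98363) (nat_lit 26) (.e (nat_lit 426318) (nat_lit 12) (.e (nat_lit 475179) (nat_lit 24) (.e (nat_lit 516124) (nat_lit 2) (.e (nat_lit 213019) (nat_lit 9) .nil))))))) (.g (nat_lit 7) .nil .nil))) 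
(.lf (nat_lit 3879) (.g (nat_lit 938) (.e (nat_lit 250) (nat_lit 21) (.e (nat_lit 336027) (nat_lit 3) (.e (nat_lit 98369) (nat_lit 28) (.e (nat_lit 450304) (nat_lit 3) .nil)))) .nil))) (.nd (nat_lit 5) 
(.lf (nat_lit 3863) (.g (nat_lit 1868) (.e (nat_lit 250) (nat_lit 21) (.e (nat_lit 336027) (nat_lit 3) (.e (nat_lit 98365) (nat_lit 26) (.e (nat_lit 426306) (nat_lit 12) (.e (nat_lit 475177) (nat_lit 24) (.e (nat_lit 516126) (nat_lit 2) (.e (nat_lit 213010) (nat_lit 9) .nil))))))) (.g (nat_lit 4) .nil .nil))) 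
(.lf (nat_lit 3895) (.g (nat_lit 2140) (.e (nat_lit 250) (nat_lit 21) (.e (nat_lit 336027) (nat_lit 3) (.e (nat_lit 98372) (nat_lit 29) (.e (nat_lit 450579) (nat_lit 5) (.e (nat_lit 532484) (nat_lit 0) .nil))))) .nil)))) (.nd (nat_lit 4) (.nd (nat_lit 5) 
(.lf (nat_lit 3855) (.g (nat_lit 1902) (.e (nat_lit 250) (nat_lit 21) (.e (nat_lit 336027) (nat_lit 3) (.e (nat_lit 98365) (nat_lit 26) (.e (nat_lit 426188) (nat_lit 9) (.e (nat_lit 426436) (nat_lit 18) .nil))))) .nil)) 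
(.lf (nat_lit 3887) (.g (nat_lit 2355) (.e (nat_lit 250) (nat_lit 21) (.e (nat_lit 336027) (nat_lit 3) (.e (nat_lit 98372) (nat_lit 29) (.e (nat_lit 458496) (nat_lit 3) (.e (nat_lit 516097) (nat_lit 0) (.e (nat_lit 3420) (nat_lit 213) (.e (nat_lit 663579) (nat_lit 9) .nil))))))) (.g (nat_lit 5) .nil .nil)))) (.nd (nat_lit 5) 
(.lf (nat_lit 3871) (.g (nat_lit 2468) (.e (nat_lit 250) (nat_lit 21) (.e (nat_lit 336027) (nat_lit 3) (.e (nat_lit 98365) (nat_lit 26) (.e (nat_lit 426306) (nat_lit 12) (.e (nat_lit 475179) (nat_lit 24) (.e (nat_lit 516126) (nat_lit 2) (.e (nat_lit 213017) (nat_lit 9) .nil))))))) (.g (nat_lit 5) .nil .nil))) 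
(.lf (nat_lit 3903) (.g (nat_lit 3292) (.e (nat_lit 250) (nat_lit 21) (.e (nat_lit 336027) (nat_lit 3) (.e (nat_lit 98372) (nat_lit 29) (.e (nat_lit 450579) (nat_lit 5) (.e (nat_lit 532501) (nat_lit 1) (.e (nat_lit 57777) (nat_lit 233) (.e (nat_lit 2454) (nat_lit 157) .nil))))))) (.g (nat_lit 0) .nil .nil)))))))))

noncomputable def tv053 : DT := (.nd (nat_lit 0) (.nd (nat_lit 1) (.nd (nat_lit 2) (.nd (nat_lit 3) (.nd (nat_lit 4) (.nd (nat_lit 5) 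
(.lf (nat_lit 3904) (.g (nat_lit 2954) (.e (nat_lit 250) (nat_lit 21) (.e (nat_lit 336027) (nat_lit 3) (.e (nat_lit 98372) (nat_lit 29) (.e (nat_lit 450579) (nat_lit 5) (.e (nat_lit 532501) (nat_lit 1) (.e (nat_lit 65280) (nat_lit 233) (.e (nat_lit 2458) (nat_lit 157) .nil))))))) (.g (nat_lit 5) .nil .nil))) 
(.lf (nat_lit 3936) (.g (nat_lit 3725) (.e (nat_lit 250) (nat_lit 21) (.e (nat_lit 336027) (nat_lit 3) (.e (nat_lit 98373) (nat_lit 29) (.e (nat_lit 450587) (nat_lit 10) (.e (nat_lit 573475) (nat_lit 12) (.e (nat_lit 57346) (nat_lit 0) (.e (nat_lit 7409) (nat_lit 396) (.e (nat_lit 2472) (nat_lit 157) .nil)))))))) (.g (nat_lit 5) .nil .nil)))) (.nd (nat_lit 5) 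
(.lf (nat_lit 3920) (.g (nat_lit 3662) (.e (nat_lit 250) (nat_lit 21) (.e (nat_lit 336027) (nat_lit 3) (.e (nat_lit 98372) (nat_lit 29) (.e (nat_lit 450586) (nat_lit 10) (.e (nat_lit 573477) (nat_lit 12) (.e (nat_lit 57575) (nat_lit 55) (.e (nat_lit 778394) (nat_lit 9) .nil))))))) (.g (nat_lit 6) .nil .nil))) 
(.lf (nat_lit 3952) (.g (nat_lit 1393) (.e (nat_lit 250) (nat_lit 21) (.e (nat_lit 336027) (nat_lit 3) (.e (nat_lit 98380) (nat_lit 31) (.e (nat_lit 466947) (nat_lit 0) (.e (nat_lit 1800) (nat_lit 119) (.e (nat_lit 516127) (nat_lit 2) (.e (nat_lit 213019) (nat_lit 9) .nil))))))) (.g (nat_lit 4) .nil .nil))))) (.nd (nat_lit 4) (.nd (nat_lit 5) 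
(.lf (nat_lit 3912) (.g (nat_lit 1969) (.e (nat_lit 250) (nat_lit 21) (.e (nat_lit 336027) (nat_lit 3) (.e (nat_lit 98372) (nat_lit 29) (.e (nat_lit 450586) (nat_lit 10) (.e (nat_lit 573456) (nat_lit 9) .nil))))) .nil)) 
(.lf (nat_lit 3944) (.g (nat_lit 3064) (.e (nat_lit 250) (nat_lit 21) (.e (nat_lit 336027) (nat_lit 3) (.e (nat_lit 98373) (nat_lit 29) (.e (nat_lit 450587) (nat_lit 10) (.e (nat_lit 573478) (nat_lit 12) (.e (nat_lit 57574) (nat_lit 55) (.e (nat_lit 778353) (nat_lit 9) .nil))))))) (.g (nat_lit 5) .nil .nil)))) (.nd (nat_lit 5) 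
(.lf (nat_lit 3928) (.g (nat_lit 2364) (.e (nat_lit 250) (nat_lit 21) (.e (nat_lit 336027) (nat_lit 3) (.e (nat_lit 98373) (nat_lit 29) (.e (nat_lit 458496) (nat_lit 3) (.e (nat_lit 516106) (nat_lit 0) (.e (nat_lit 3424) (nat_lit 213) (.e (nat_lit 663576) (nat_lit 9) .nil))))))) (.g (nat_lit 5) .nil .nil))) 
(.lf (nat_lit 3960) (.g (nat_lit 3561) (.e (nat_lit 250) (nat_lit 21) (.e (nat_lit 336194) (nat_lit 12) (.e (nat_lit 385074) (nat_lit 31) (.e (nat_lit 573484) (nat_lit 13) (.e (nat_lit 65610) (nat_lit 10) (.e (nat_lit 344129) (nat_lit 26) (.e (nat_lit 557074) (nat_lit 9) .nil))))))) (.g (nat_lit 7) .nil .nil)))))) (.nd (nat_lit 3) (.nd (nat_lit 4) (.nd (nat_lit 5) 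
(.lf (nat_lit 3908) (.g (nat_lit 3221) (.e (nat_lit 250) (nat_lit 21) (.e (nat_lit 336027) (nat_lit 3) (.e (nat_lit 98372) (nat_lit 29) (.e (nat_lit 450579) (nat_lit 5) (.e (nat_lit 532504) (nat_lit 1) (.e (nat_lit 57777) (nat_lit 233) (.e (nat_lit 2451) (nat_lit 157) .nil))))))) (.g (nat_lit 0) .nil .nil))) 
(.lf (nat_lit 3940) (.g (nat_lit 3267) (.e (nat_lit 250) (nat_lit 21) (.e (nat_lit 336027) (nat_lit 3) (.e (nat_lit 98373) (nat_lit 29) (.e (nat_lit 450587) (nat_lit 10) (.e (nat_lit 573477) (nat_lit 12) (.e (nat_lit 57574) (nat_lit 55) (.e (nat_lit 778394) (nat_lit 9) .nil))))))) (.g (nat_lit 5) .nil .nil)))) (.nd (nat_lit 5) 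
(.lf (nat_lit 3924) (.g (nat_lit 2001) (.e (nat_lit 250) (nat_lit 21) (.e (nat_lit 336027) (nat_lit 3) (.e (nat_lit 98373) (nat_lit 29) (.e (nat_lit 450574) (nat_lit 1) .nil)))) .nil)) 
(.lf (nat_lit 3956) (.g (nat_lit 1444) (.e (nat_lit 250) (nat_lit 21) (.e (nat_lit 336027) (nat_lit 3) (.e (nat_lit 98381) (nat_lit 31) (.e (nat_lit 466947) (nat_lit 0) (.e (nat_lit 1800) (nat_lit 119) (.e (nat_lit 516127) (nat_lit 2) (.e (nat_lit 213019) (nat_lit 9) .nil))))))) (.g (nat_lit 4) .nil .nil))))) (.nd (nat_lit 4) (.nd (nat_lit 5) 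
(.lf (nat_lit 3916) (.g (nat_lit 2721) (.e (nat_lit 250) (nat_lit 21) (.e (nat_lit 336027) (nat_lit 3) (.e (nat_lit 98372) (nat_lit 29) (.e (nat_lit 450586) (nat_lit 10) (.e (nat_lit 573475) (nat_lit 12) (.e (nat_lit 57574) (nat_lit 55) (.e (nat_lit 778385) (nat_lit 9) .nil))))))) (.g (nat_lit 5) .nil .nil))) 
(.lf (nat_lit 3948) (.g (nat_lit 3672) (.e (nat_lit 250) (nat_lit 21) (.e (nat_lit 336027) (nat_lit 3) (.e (nat_lit 98373) (nat_lit 29) (.e (nat_lit 450588) (nat_lit 10) (.e (nat_lit 573475) (nat_lit 12) (.e (nat_lit 57574) (nat_lit 55) (.e (nat_lit 778385) (nat_lit 9) .nil))))))) (.g (nat_lit 5) .nil .nil)))) (.nd (nat_lit 5) 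
(.lf (nat_lit 3932) (.g (nat_lit 4155) (.e (nat_lit 250) (nat_lit 21) (.e (nat_lit 336027) (nat_lit 3) (.e (nat_lit 98373) (nat_lit 29) (.e (nat_lit 450587) (nat_lit 10) (.e (nat_lit 573475) (nat_lit 12) (.e (nat_lit 57345) (nat_lit 0) (.e (nat_lit 7464) (nat_lit 396) (.e (nat_lit 2458) (nat_lit 157) .nil)))))))) (.g (nat_lit 7) .nil .nil))) 
(.lf (nat_lit 3964) (.g (nat_lit 2909) (.e (nat_lit 250) (nat_lit 21) (.e (nat_lit 336204) (nat_lit 12) (.e (nat_lit 385072) (nat_lit 31) (.e (nat_lit 573482) (nat_lit 13) (.e (nat_lit 65619) (nat_lit 10) (.e (nat_lit 344129) (nat_lit 26) (.e (nat_lit 557074) (nat_lit 9) .nil))))))) (.g (nat_lit 4) .nil .nil))))))) (.nd (nat_lit 2) (.nd (nat_lit 3) (.nd (nat_lit 4) (.nd (nat_lit 5) 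
(.lf (nat_lit 3906) (.g (nat_lit 3104) (.e (nat_lit 250) (nat_lit 21) (.e (nat_lit 336027) (nat_lit 3) (.e (nat_lit 98372) (nat_lit 29) (.e (nat_lit 450579) (nat_lit 5) (.e (nat_lit 532503) (nat_lit 1) (.e (nat_lit 57778) (nat_lit 233) (.e (nat_lit 2454) (nat_lit 157) .nil))))))) (.g (nat_lit 5) .nil .nil))) 
(.lf (nat_lit 3938) (.g (nat_lit 3707) (.e (nat_lit 250) (nat_lit 21) (.e (nat_lit 336027) (nat_lit 3) (.e (nat_lit 98373) (nat_lit 29) (.e (nat_lit 450587) (nat_lit 10) (.e (nat_lit 573475) (nat_lit 12) (.e (nat_lit 57346) (nat_lit 0) (.e (nat_lit 7458) (nat_lit 396) (.e (nat_lit 2468) (nat_lit 157) .nil)))))))) (.g (nat_lit 5) .nil .nil)))) (.nd (nat_lit 5) 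
(.lf (nat_lit 3922) (.g (nat_lit 2007) (.e (nat_lit 250) (nat_lit 21) (.e (nat_lit 336027) (nat_lit 3) (.e (nat_lit 98372) (nat_lit 29) (.e (nat_lit 450586) (nat_lit 10) (.e (nat_lit 573478) (nat_lit 12) (.e (nat_lit 57574) (nat_lit 55) (.e (nat_lit 778385) (nat_lit 9) .nil))))))) (.g (nat_lit 4) .nil .nil))) 
(.lf (nat_lit 3954) (.g (nat_lit 1249) (.e (nat_lit 250) (nat_lit 21) (.e (nat_lit 336027) (nat_lit 3) (.e (nat_lit 98381) (nat_lit 31) (.e (nat_lit 466947) (nat_lit 0) (.e (nat_lit 1800) (nat_lit 119) .nil))))) .nil)))) (.nd (nat_lit 4) (.nd (nat_lit 5) 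
(.lf (nat_lit 3914) (.g (nat_lit 1884) (.e (nat_lit 250) (nat_lit 21) (.e (nat_lit 336027) (nat_lit 3) (.e (nat_lit 98372) (nat_lit 29) (.e (nat_lit 450586) (nat_lit 10) (.e (nat_lit 573475) (nat_lit 12) .nil))))) .nil)) 
(.lf (nat_lit 3946) (.g (nat_lit 3554) (.e (nat_lit 250) (nat_lit 21) (.e (nat_lit 336027) (nat_lit 3) (.e (nat_lit 98373) (nat_lit 29) (.e (nat_lit 450587) (nat_lit 10) (.e (nat_lit 573478) (nat_lit 12) (.e (nat_lit 57574) (nat_lit 55) (.e (nat_lit 786176) (nat_lit 9) .nil))))))) (.g (nat_lit 6) .nil .nil)))) (.nd (nat_lit 5) 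
(.lf (nat_lit 3930) (.g (nat_lit 2496) (.e (nat_lit 250) (nat_lit 21) (.e (nat_lit 336027) (nat_lit 3) (.e (nat_lit 98373) (nat_lit 29) (.e (nat_lit 458496) (nat_lit 3) (.e (nat_lit 516106) (nat_lit 0) (.e (nat_lit 3424) (nat_lit 213) (.e (nat_lit 663579) (nat_lit 9) .nil))))))) (.g (nat_lit 6) .nil .nil))) 
(.lf (nat_lit 3962) (.g (nat_lit 2487) (.e (nat_lit 250) (nat_lit 21) (.e (nat_lit 336203) (nat_lit 12) (.e (nat_lit 385074) (nat_lit 31) (.e (nat_lit 573484) (nat_lit 13) (.e (nat_lit 65617) (nat_lit 10) .nil))))) .nil))))) (.nd (nat_lit 3) (.nd (nat_lit 4) (.nd (nat_lit 5) 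
(.lf (nat_lit 3910) (.g (nat_lit 2861) (.e (nat_lit 250) (nat_lit 21) (.e (nat_lit 336027) (nat_lit 3) (.e (nat_lit 98372) (nat_lit 29) (.e (nat_lit 450579) (nat_lit 5) (.e (nat_lit 532504) (nat_lit 1) (.e (nat_lit 65280) (nat_lit 233) (.e (nat_lit 2458) (nat_lit 157) .nil))))))) (.g (nat_lit 5) .nil .nil))) 
(.lf (nat_lit 3942) (.g (nat_lit 4649) (.e (nat_lit 250) (nat_lit 21) (.e (nat_lit 336027) (nat_lit 3) (.e (nat_lit 98373) (nat_lit 29) (.e (nat_lit 450587) (nat_lit 10) (.e (nat_lit 573477) (nat_lit 12) (.e (nat_lit 57575) (nat_lit 55) (.e (nat_lit 778385) (nat_lit 9) .nil))))))) (.g (nat_lit 7) .nil .nil)))) (.nd (nat_lit 5) 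
(.lf (nat_lit 3926) (.g (nat_lit 1719) (.e (nat_lit 250) (nat_lit 21) (.e (nat_lit 336027) (nat_lit 3) (.e (nat_lit 98373) (nat_lit 29) (.e (nat_lit 458496) (nat_lit 3) .nil)))) .nil)) 
(.lf (nat_lit 3958) (.g (nat_lit 1753) (.e (nat_lit 250) (nat_lit 21) (.e (nat_lit 336076) (nat_lit 9) (.e (nat_lit 336454) (nat_lit 34) (.e (nat_lit 483366) (nat_lit 18) (.e (nat_lit 57848) (nat_lit 252) (.e (nat_lit 57374) (nat_lit 2) (.e (nat_lit 90141) (nat_lit 9) .nil))))))) (.g (nat_lit 4) .nil .nil))))) (.nd (nat_lit 4) (.nd (nat_lit 5) 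
(.lf (nat_lit 3918) (.g (nat_lit 2204) (.e (nat_lit 250) (nat_lit 21) (.e (nat_lit 336027) (nat_lit 3) (.e (nat_lit 98372) (nat_lit 29) (.e (nat_lit 450586) (nat_lit 10) (.e (nat_lit 573477) (nat_lit 12) (.e (nat_lit 57574) (nat_lit 55) (.e (nat_lit 778394) (nat_lit 9) .nil))))))) (.g (nat_lit 5) .nil .nil))) 
(.lf (nat_lit 3950) (.g (nat_lit 589) (.e (nat_lit 250) (nat_lit 21) (.e (nat_lit 336027) (nat_lit 3) (.e (nat_lit 98380) (nat_lit 31) .nil))) .nil))) (.nd (nat_lit 5) 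
(.lf (nat_lit 3934) (.g (nat_lit 3751) (.e (nat_lit 250) (nat_lit 21) (.e (nat_lit 336027) (nat_lit 3) (.e (nat_lit 98373) (nat_lit 29) (.e (nat_lit 450587) (nat_lit 10) (.e (nat_lit 573475) (nat_lit 12) (.e (nat_lit 57346) (nat_lit 0) (.e (nat_lit 7409) (nat_lit 396) (.e (nat_lit 2464) (nat_lit 157) .nil)))))))) (.g (nat_lit 5) .nil .nil))) 
(.lf (nat_lit 3966) (.g (nat_lit 4254) (.e (nat_lit 250) (nat_lit 21) (.e (nat_lit 336204) (nat_lit 12) (.e (nat_lit 385074) (nat_lit 31) (.e (nat_lit 573456) (nat_lit 9) .nil)))) .nil))))))) (.nd (nat_lit 1) (.nd (nat_lit 2) (.nd (nat_lit 3) (.nd (nat_lit 4) (.nd (nat_lit 5) 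
(.lf (nat_lit 3905) (.g (nat_lit 3164) (.e (nat_lit 250) (nat_lit 21) (.e (nat_lit 336027) (nat_lit 3) (.e (nat_lit 98372) (nat_lit 29) (.e (nat_lit 450579) (nat_lit 5) (.e (nat_lit 532503) (nat_lit 1) (.e (nat_lit 57778) (nat_lit 233) (.e (nat_lit 2451) (nat_lit 157) .nil))))))) (.g (nat_lit 5) .nil .nil))) 
(.lf (nat_lit 3937) (.g (nat_lit 4046) (.e (nat_lit 250) (nat_lit 21) (.e (nat_lit 336027) (nat_lit 3) (.e (nat_lit 98373) (nat_lit 29) (.e (nat_lit 450587) (nat_lit 10) (.e (nat_lit 573475) (nat_lit 12) (.e (nat_lit 57346) (nat_lit 0) (.e (nat_lit 7458) (nat_lit 396) (.e (nat_lit 2458) (nat_lit 157) .nil)))))))) (.g (nat_lit 6) .nil .nil)))) (.nd (nat_lit 5) 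
(.lf (nat_lit 3921) (.g (nat_lit 2187) (.e (nat_lit 250) (nat_lit 21) (.e (nat_lit 336027) (nat_lit 3) (.e (nat_lit 98372) (nat_lit 29) (.e (nat_lit 450586) (nat_lit 10) (.e (nat_lit 573478) (nat_lit 12) (.e (nat_lit 57574) (nat_lit 55) (.e (nat_lit 778353) (nat_lit 9) .nil))))))) (.g (nat_lit 5) .nil .nil))) 
(.lf (nat_lit 3953) (.g (nat_lit 587) (.e (nat_lit 250) (nat_lit 21) (.e (nat_lit 336027) (nat_lit 3) (.e (nat_lit 98381) (nat_lit 31) .nil))) .nil)))) (.nd (nat_lit 4) (.nd (nat_lit 5) 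
(.lf (nat_lit 3913) (.g (nat_lit 1753) (.e (nat_lit 250) (nat_lit 21) (.e (nat_lit 336027) (nat_lit 3) (.e (nat_lit 98372) (nat_lit 29) (.e (nat_lit 450586) (nat_lit 10) (.e (nat_lit 573473) (nat_lit 12) .nil))))) .nil)) 
(.lf (nat_lit 3945) (.g (nat_lit 2923) (.e (nat_lit 250) (nat_lit 21) (.e (nat_lit 336027) (nat_lit 3) (.e (nat_lit 98373) (nat_lit 29) (.e (nat_lit 450587) (nat_lit 10) (.e (nat_lit 573478) (nat_lit 12) (.e (nat_lit 57574) (nat_lit 55) (.e (nat_lit 778394) (nat_lit 9) .nil))))))) (.g (nat_lit 5) .nil .nil)))) (.nd (nat_lit 5) 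
(.lf (nat_lit 3929) (.g (nat_lit 2395) (.e (nat_lit 250) (nat_lit 21) (.e (nat_lit 336027) (nat_lit 3) (.e (nat_lit 98373) (nat_lit 29) (.e (nat_lit 458496) (nat_lit 3) (.e (nat_lit 516106) (nat_lit 0) (.e (nat_lit 3424) (nat_lit 213) (.e (nat_lit 663577) (nat_lit 9) .nil))))))) (.g (nat_lit 5) .nil .nil))) 
(.lf (nat_lit 3961) (.g (nat_lit 2488) (.e (nat_lit 250) (nat_lit 21) (.e (nat_lit 336196) (nat_lit 12) (.e (nat_lit 385072) (nat_lit 31) (.e (nat_lit 573481) (nat_lit 13) (.e (nat_lit 65619) (nat_lit 10) (.e (nat_lit 344129) (nat_lit 26) (.e (nat_lit 557074) (nat_lit 9) .nil))))))) (.g (nat_lit 4) .nil .nil)))))) (.nd (nat_lit 3) (.nd (nat_lit 4) (.nd (nat_lit 5) 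
(.lf (nat_lit 3909) (.g (nat_lit 3188) (.e (nat_lit 250) (nat_lit 21) (.e (nat_lit 336027) (nat_lit 3) (.e (nat_lit 98372) (nat_lit 29) (.e (nat_lit 450579) (nat_lit 5) (.e (nat_lit 532504) (nat_lit 1) (.e (nat_lit 57777) (nat_lit 233) (.e (nat_lit 2454) (nat_lit 157) .nil))))))) (.g (nat_lit 0) .nil .nil))) 
(.lf (nat_lit 3941) (.g (nat_lit 3938) (.e (nat_lit 250) (nat_lit 21) (.e (nat_lit 336027) (nat_lit 3) (.e (nat_lit 98373) (nat_lit 29) (.e (nat_lit 450587) (nat_lit 10) (.e (nat_lit 573477) (nat_lit 12) (.e (nat_lit 57574) (nat_lit 55) (.e (nat_lit 786176) (nat_lit 9) .nil))))))) (.g (nat_lit 6) .nil .nil)))) (.nd (nat_lit 5) 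
(.lf (nat_lit 3925) (.g (nat_lit 1719) (.e (nat_lit 250) (nat_lit 21) (.e (nat_lit 336027) (nat_lit 3) (.e (nat_lit 98373) (nat_lit 29) (.e (nat_lit 458496) (nat_lit 1) .nil)))) .nil)) 
(.lf (nat_lit 3957) (.g (nat_lit 397) (.e (nat_lit 250) (nat_lit 21) (.e (nat_lit 336059) (nat_lit 7) (.e (nat_lit 319526) (nat_lit 15) .nil))) .nil)))) (.nd (nat_lit 4) (.nd (nat_lit 5) 
(.lf (nat_lit 3917) (.g (nat_lit 2310) (.e (nat_lit 250) (nat_lit 21) (.e (nat_lit 336027) (nat_lit 3) (.e (nat_lit 98372) (nat_lit 29) (.e (nat_lit 450586) (nat_lit 10) (.e (nat_lit 573477) (nat_lit 12) (.e (nat_lit 57574) (nat_lit 55) (.e (nat_lit 778385) (nat_lit 9) .nil))))))) (.g (nat_lit 5) .nil .nil))) 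
(.lf (nat_lit 3949) (.g (nat_lit 4258) (.e (nat_lit 250) (nat_lit 21) (.e (nat_lit 336027) (nat_lit 3) (.e (nat_lit 98373) (nat_lit 29) (.e (nat_lit 450588) (nat_lit 10) (.e (nat_lit 573475) (nat_lit 12) (.e (nat_lit 57574) (nat_lit 55) (.e (nat_lit 786176) (nat_lit 9) .nil))))))) (.g (nat_lit 6) .nil .nil)))) (.nd (nat_lit 5) 
(.lf (nat_lit 3933) (.g (nat_lit 3551) (.e (nat_lit 250) (nat_lit 21) (.e (nat_lit 336027) (nat_lit 3) (.e (nat_lit 98373) (nat_lit 29) (.e (nat_lit 450587) (nat_lit 10) (.e (nat_lit 573475) (nat_lit 12) (.e (nat_lit 57346) (nat_lit 0) (.e (nat_lit 7409) (nat_lit 396) (.e (nat_lit 2456) (nat_lit 157) .nil)))))))) (.g (nat_lit 5) .nil .nil))) 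
(.lf (nat_lit 3965) (.g (nat_lit 2474) (.e (nat_lit 250) (nat_lit 21) (.e (nat_lit 336204) (nat_lit 12) (.e (nat_lit 385072) (nat_lit 31) (.e (nat_lit 573484) (nat_lit 13) (.e (nat_lit 65610) (nat_lit 10) (.e (nat_lit 344129) (nat_lit 26) (.e (nat_lit 557074) (nat_lit 9) .nil))))))) (.g (nat_lit 4) .nil .nil))))))) (.nd (nat_lit 2) (.nd (nat_lit 3) (.nd (nat_lit 4) (.nd (nat_lit 5) 
(.lf (nat_lit 3907) (.g (nat_lit 3087) (.e (nat_lit 250) (nat_lit 21) (.e (nat_lit 336027) (nat_lit 3) (.e (nat_lit 98372) (nat_lit 29) (.e (nat_lit 450579) (nat_lit 5) (.e (nat_lit 532504) (nat_lit 1) (.e (nat_lit 57777) (nat_lit 233) (.e (nat_lit 2416) (nat_lit 157) .nil))))))) (.g (nat_lit 0) .nil .nil))) 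
(.lf (nat_lit 3939) (.g (nat_lit 3751) (.e (nat_lit 250) (nat_lit 21) (.e (nat_lit 336027) (nat_lit 3) (.e (nat_lit 98373) (nat_lit 29) (.e (nat_lit 450587) (nat_lit 10) (.e (nat_lit 573475) (nat_lit 12) (.e (nat_lit 57346) (nat_lit 0) (.e (nat_lit 7461) (nat_lit 396) (.e (nat_lit 2458) (nat_lit 157) .nil)))))))) (.g (nat_lit 5) .nil .nil)))) (.nd (nat_lit 5) 
(.lf (nat_lit 3923) (.g (nat_lit 2056) (.e (nat_lit 250) (nat_lit 21) (.e (nat_lit 336027) (nat_lit 3) (.e (nat_lit 98372) (nat_lit 29) (.e (nat_lit 450586) (nat_lit 10) (.e (nat_lit 573478) (nat_lit 12) (.e (nat_lit 57574) (nat_lit 55) (.e (nat_lit 778394) (nat_lit 9) .nil))))))) (.g (nat_lit 4) .nil .nil))) 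
(.lf (nat_lit 3955) (.g (nat_lit 1480) (.e (nat_lit 250) (nat_lit 21) (.e (nat_lit 336027) (nat_lit 3) (.e (nat_lit 98381) (nat_lit 31) (.e (nat_lit 466947) (nat_lit 0) (.e (nat_lit 1800) (nat_lit 119) (.e (nat_lit 516124) (nat_lit 2) (.e (nat_lit 213019) (nat_lit 9) .nil))))))) (.g (nat_lit 4) .nil .nil))))) (.nd (nat_lit 4) (.nd (nat_lit 5) 
(.lf (nat_lit 3915) (.g (nat_lit 2884) (.e (nat_lit 250) (nat_lit 21) (.e (nat_lit 336027) (nat_lit 3) (.e (nat_lit 98372) (nat_lit 29) (.e (nat_lit 450586) (nat_lit 10) (.e (nat_lit 573475) (nat_lit 12) (.e (nat_lit 57574) (nat_lit 55) (.e (nat_lit 778353) (nat_lit 9) .nil))))))) (.g (nat_lit 5) .nil .nil))) 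
(.lf (nat_lit 3947) (.g (nat_lit 2600) (.e (nat_lit 250) (nat_lit 21) (.e (nat_lit 336027) (nat_lit 3) (.e (nat_lit 98373) (nat_lit 29) (.e (nat_lit 450588) (nat_lit 10) (.e (nat_lit 573475) (nat_lit 12) .nil))))) .nil))) (.nd (nat_lit 5) 
(.lf (nat_lit 3931) (.g (nat_lit 2800) (.e (nat_lit 250) (nat_lit 21) (.e (nat_lit 336027) (nat_lit 3) (.e (nat_lit 98373) (nat_lit 29) (.e (nat_lit 450587) (nat_lit 10) (.e (nat_lit 573454) (nat_lit 9) .nil))))) .nil)) 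
(.lf (nat_lit 3963) (.g (nat_lit 3265) (.e (nat_lit 250) (nat_lit 21) (.e (nat_lit 336204) (nat_lit 12) (.e (nat_lit 385072) (nat_lit 31) (.e (nat_lit 573481) (nat_lit 13) (.e (nat_lit 65619) (nat_lit 10) (.e (nat_lit 344129) (nat_lit 26) (.e (nat_lit 557074) (nat_lit 9) .nil))))))) (.g (nat_lit 4) .nil .nil)))))) (.nd (nat_lit 3) (.nd (nat_lit 4) (.nd (nat_lit 5) 
(.lf (nat_lit 3911) (.g (nat_lit 1262) (.e (nat_lit 250) (nat_lit 21) (.e (nat_lit 336027) (nat_lit 3) (.e (nat_lit 98372) (nat_lit 29) (.e (nat_lit 450586) (nat_lit 10) .nil)))) .nil)) 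
(.lf (nat_lit 3943) (.g (nat_lit 4460) (.e (nat_lit 250) (nat_lit 21) (.e (nat_lit 336027) (nat_lit 3) (.e (nat_lit 98373) (nat_lit 29) (.e (nat_lit 450587) (nat_lit 10) (.e (nat_lit 573477) (nat_lit 12) (.e (nat_lit 57575) (nat_lit 55) (.e (nat_lit 778394) (nat_lit 9) .nil))))))) (.g (nat_lit 6) .nil .nil)))) (.nd (nat_lit 5) 
(.lf (nat_lit 3927) (.g (nat_lit 2438) (.e (nat_lit 250) (nat_lit 21) (.e (nat_lit 336027) (nat_lit 3) (.e (nat_lit 98373) (nat_lit 29) (.e (nat_lit 458496) (nat_lit 3) (.e (nat_lit 516097) (nat_lit 0) (.e (nat_lit 3429) (nat_lit 213) (.e (nat_lit 663579) (nat_lit 9) .nil))))))) (.g (nat_lit 5) .nil .nil))) 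
(.lf (nat_lit 3959) (.g (nat_lit 2800) (.e (nat_lit 250) (nat_lit 21) (.e (nat_lit 336194) (nat_lit 12) (.e (nat_lit 385072) (nat_lit 31) (.e (nat_lit 573481) (nat_lit 13) (.e (nat_lit 65619) (nat_lit 10) .nil))))) .nil)))) (.nd (nat_lit 4) (.nd (nat_lit 5) 
(.lf (nat_lit 3919) (.g (nat_lit 3845) (.e (nat_lit 250) (nat_lit 21) (.e (nat_lit 336027) (nat_lit 3) (.e (nat_lit 98372) (nat_lit 29) (.e (nat_lit 450586) (nat_lit 10) (.e (nat_lit 573477) (nat_lit 12) (.e (nat_lit 57575) (nat_lit 55) (.e (nat_lit 778353) (nat_lit 9) .nil))))))) (.g (nat_lit 7) .nil .nil))) 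
(.lf (nat_lit 3951) (.g (nat_lit 1429) (.e (nat_lit 250) (nat_lit 21) (.e (nat_lit 336027) (nat_lit 3) (.e (nat_lit 98380) (nat_lit 31) (.e (nat_lit 466947) (nat_lit 0) (.e (nat_lit 1800) (nat_lit 119) (.e (nat_lit 516124) (nat_lit 2) (.e (nat_lit 213019) (nat_lit 9) .nil))))))) (.g (nat_lit 4) .nil .nil)))) (.nd (nat_lit 5) 
(.lf (nat_lit 3935) (.g (nat_lit 3773) (.e (nat_lit 250) (nat_lit 21) (.e (nat_lit 336027) (nat_lit 3) (.e (nat_lit 98373) (nat_lit 29) (.e (nat_lit 450587) (nat_lit 10) (.e (nat_lit 573475) (nat_lit 12) (.e (nat_lit 57346) (nat_lit 0) (.e (nat_lit 7409) (nat_lit 396) (.e (nat_lit 2467) (nat_lit 157) .nil)))))))) (.g (nat_lit 5) .nil .nil))) 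
(.lf (nat_lit 3967) (.g (nat_lit 5300) (.e (nat_lit 250) (nat_lit 21) (.e (nat_lit 336204) (nat_lit 12) (.e (nat_lit 385074) (nat_lit 31) (.e (nat_lit 573479) (nat_lit 13) (.e (nat_lit 65619) (nat_lit 10) (.e (nat_lit 344129) (nat_lit 26) (.e (nat_lit 557074) (nat_lit 9) .nil))))))) (.g (nat_lit 4) .nil .nil)))))))))

noncomputable def tv054 : DT := (.nd (nat_lit 0) (.nd (nat_lit 1) (.nd (nat_lit 2) (.nd (nat_lit 3) (.nd (nat_lit 4) (.nd (nat_lit 5) (.nd (nat_lit 6) 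
(.lf (nat_lit 3968) (.g (nat_lit 4842) (.e (nat_lit 250) (nat_lit 21) (.e (nat_lit 336204) (nat_lit 12) (.e (nat_lit 385074) (nat_lit 31) (.e (nat_lit 573481) (nat_lit 13) (.e (nat_lit 65619) (nat_lit 10) .nil))))) .nil)) 
(.lf (nat_lit 4032) (.g (nat_lit 2909) (.e (nat_lit 250) (nat_lit 21) (.e (nat_lit 336223) (nat_lit 13) (.e (nat_lit 393301) (nat_lit 27) (.e (nat_lit 491560) (nat_lit 10) (.e (nat_lit 344096) (nat_lit 18) .nil))))) .nil))) (.nd (nat_lit 6) 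
(.lf (nat_lit 4000) (.g (nat_lit 1760) (.e (nat_lit 250) (nat_lit 21) (.e (nat_lit 336223) (nat_lit 13) (.e (nat_lit 393281) (nat_lit 23) (.e (nat_lit 426098) (nat_lit 1) (.e (nat_lit 164327) (nat_lit 230) (.e (nat_lit 163881) (nat_lit 4) (.e (nat_lit 213017) (nat_lit 9) .nil))))))) (.g (nat_lit 4) .nil .nil))) 
(.lf (nat_lit 4064) (.g (nat_lit 2046) (.e (nat_lit 251) (nat_lit 21) (.e (nat_lit 336012) (nat_lit 2) (.e (nat_lit 90176) (nat_lit 15) (.e (nat_lit 188450) (nat_lit 23) (.e (nat_lit 204821) (nat_lit 17) .nil))))) .nil)))) (.nd (nat_lit 5) (.nd (nat_lit 6) 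
(.lf (nat_lit 3984) (.g (nat_lit 1724) (.e (nat_lit 250) (nat_lit 21) (.e (nat_lit 336223) (nat_lit 13) (.e (nat_lit 393234) (nat_lit 17) (.e (nat_lit 7591) (nat_lit 407) (.e (nat_lit 73775) (nat_lit 26) .nil))))) .nil)) 
(.lf (nat_lit 4048) (.g (nat_lit 1434) (.e (nat_lit 251) (nat_lit 21) (.e (nat_lit 336004) (nat_lit 2) (.e (nat_lit 90176) (nat_lit 15) (.e (nat_lit 188450) (nat_lit 23) .nil)))) .nil))) (.nd (nat_lit 6) 
(.lf (nat_lit 4016) (.g (nat_lit 2166) (.e (nat_lit 250) (nat_lit 21) (.e (nat_lit 336223) (nat_lit 13) (.e (nat_lit 393301) (nat_lit 27) (.e (nat_lit 491545) (nat_lit 8) .nil)))) .nil)) 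
(.lf (nat_lit 4080) (.g (nat_lit 2099) (.e (nat_lit 251) (nat_lit 21) (.e (nat_lit 336027) (nat_lit 3) (.e (nat_lit 98372) (nat_lit 29) (.e (nat_lit 450579) (nat_lit 5) (.e (nat_lit 532503) (nat_lit 1) (.e (nat_lit 57777) (nat_lit 233) (.e (nat_lit 2416) (nat_lit 157) .nil))))))) (.g (nat_lit 4) .nil .nil)))))) (.nd (nat_lit 4) (.nd (nat_lit 5) (.nd (nat_lit 6) 
(.lf (nat_lit 3976) (.g (nat_lit 2712) (.e (nat_lit 250) (nat_lit 21) (.e (nat_lit 336213) (nat_lit 13) (.e (nat_lit 393225) (nat_lit 9) (.e (nat_lit 335995) (nat_lit 1) (.e (nat_lit 57848) (nat_lit 252) (.e (nat_lit 57375) (nat_lit 2) (.e (nat_lit 90135) (nat_lit 9) .nil))))))) (.g (nat_lit 4) .nil .nil))) 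
(.lf (nat_lit 4040) (.g (nat_lit 2846) (.e (nat_lit 250) (nat_lit 21) (.e (nat_lit 336229) (nat_lit 14) (.e (nat_lit 401425) (nat_lit 2) (.e (nat_lit 196666) (nat_lit 13) (.e (nat_lit 65617) (nat_lit 10) .nil))))) .nil))) (.nd (nat_lit 6) 
(.lf (nat_lit 4008) (.g (nat_lit 1902) (.e (nat_lit 250) (nat_lit 21) (.e (nat_lit 336223) (nat_lit 13) (.e (nat_lit 393281) (nat_lit 23) (.e (nat_lit 426100) (nat_lit 1) (.e (nat_lit 164330) (nat_lit 230) (.e (nat_lit 163877) (nat_lit 4) (.e (nat_lit 213015) (nat_lit 9) .nil))))))) (.g (nat_lit 4) .nil .nil))) 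
(.lf (nat_lit 4072) (.g (nat_lit 1879) (.e (nat_lit 251) (nat_lit 21) (.e (nat_lit 336021) (nat_lit 3) (.e (nat_lit 98313) (nat_lit 9) (.e (nat_lit 336027) (nat_lit 3) .nil)))) .nil)))) (.nd (nat_lit 5) (.nd (nat_lit 6) 
(.lf (nat_lit 3992) (.g (nat_lit 1740) (.e (nat_lit 250) (nat_lit 21) (.e (nat_lit 336223) (nat_lit 13) (.e (nat_lit 393234) (nat_lit 17) (.e (nat_lit 7593) (nat_lit 407) (.e (nat_lit 73775) (nat_lit 26) (.e (nat_lit 778394) (nat_lit 9) .nil)))))) (.g (nat_lit 4) .nil .nil))) 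
(.lf (nat_lit 4056) (.g (nat_lit 535) (.e (nat_lit 251) (nat_lit 21) (.e (nat_lit 336012) (nat_lit 2) (.e (nat_lit 90176) (nat_lit 15) .nil))) .nil))) (.nd (nat_lit 6) 
(.lf (nat_lit 4024) (.g (nat_lit 2892) (.e (nat_lit 250) (nat_lit 21) (.e (nat_lit 336223) (nat_lit 13) (.e (nat_lit 393301) (nat_lit 27) (.e (nat_lit 491558) (nat_lit 10) (.e (nat_lit 344180) (nat_lit 44) (.e (nat_lit 778353) (nat_lit 9) .nil)))))) (.g (nat_lit 4) .nil .nil))) 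
(.lf (nat_lit 4088) (.g (nat_lit 3762) (.e (nat_lit 251) (nat_lit 21) (.e (nat_lit 336027) (nat_lit 3) (.e (nat_lit 98372) (nat_lit 29) (.e (nat_lit 450586) (nat_lit 10) (.e (nat_lit 573475) (nat_lit 12) (.e (nat_lit 57574) (nat_lit 55) (.e (nat_lit 778359) (nat_lit 9) .nil))))))) (.g (nat_lit 7) .nil .nil))))))) (.nd (nat_lit 3) (.nd (nat_lit 4) (.nd (nat_lit 5) (.nd (nat_lit 6) 
(.lf (nat_lit 3972) (.g (nat_lit 2275) (.e (nat_lit 250) (nat_lit 21) (.e (nat_lit 336213) (nat_lit 13) (.e (nat_lit 393225) (nat_lit 9) (.e (nat_lit 335995) (nat_lit 1) (.e (nat_lit 57848) (nat_lit 252) .nil))))) .nil)) 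
(.lf (nat_lit 4036) (.g (nat_lit 2281) (.e (nat_lit 250) (nat_lit 21) (.e (nat_lit 336223) (nat_lit 13) (.e (nat_lit 393301) (nat_lit 27) (.e (nat_lit 491560) (nat_lit 10) (.e (nat_lit 352000) (nat_lit 44) .nil))))) .nil))) (.nd (nat_lit 6) 
(.lf (nat_lit 4004) (.g (nat_lit 1660) (.e (nat_lit 250) (nat_lit 21) (.e (nat_lit 336223) (nat_lit 13) (.e (nat_lit 393281) (nat_lit 23) (.e (nat_lit 426099) (nat_lit 1) (.e (nat_lit 164330) (nat_lit 230) (.e (nat_lit 163878) (nat_lit 4) (.e (nat_lit 213015) (nat_lit 9) .nil))))))) (.g (nat_lit 4) .nil .nil))) 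
(.lf (nat_lit 4068) (.g (nat_lit 2307) (.e (nat_lit 251) (nat_lit 21) (.e (nat_lit 336021) (nat_lit 3) (.e (nat_lit 98313) (nat_lit 9) (.e (nat_lit 336004) (nat_lit 2) (.e (nat_lit 90158) (nat_lit 11) .nil))))) .nil)))) (.nd (nat_lit 5) (.nd (nat_lit 6) 
(.lf (nat_lit 3988) (.g (nat_lit 2614) (.e (nat_lit 250) (nat_lit 21) (.e (nat_lit 336223) (nat_lit 13) (.e (nat_lit 393234) (nat_lit 17) (.e (nat_lit 7591) (nat_lit 407) (.e (nat_lit 73776) (nat_lit 26) (.e (nat_lit 778385) (nat_lit 9) .nil)))))) (.g (nat_lit 6) .nil .nil))) 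
(.lf (nat_lit 4052) (.g (nat_lit 3522) (.e (nat_lit 251) (nat_lit 21) (.e (nat_lit 336011) (nat_lit 2) (.e (nat_lit 90170) (nat_lit 13) (.e (nat_lit 172113) (nat_lit 10) (.e (nat_lit 434247) (nat_lit 28) .nil))))) .nil))) (.nd (nat_lit 6) 
(.lf (nat_lit 4020) (.g (nat_lit 1649) (.e (nat_lit 250) (nat_lit 21) (.e (nat_lit 336223) (nat_lit 13) (.e (nat_lit 393301) (nat_lit 27) (.e (nat_lit 491558) (nat_lit 10) .nil)))) .nil)) 
(.lf (nat_lit 4084) (.g (nat_lit 2096) (.e (nat_lit 251) (nat_lit 21) (.e (nat_lit 336027) (nat_lit 3) (.e (nat_lit 98372) (nat_lit 29) (.e (nat_lit 450586) (nat_lit 10) (.e (nat_lit 573456) (nat_lit 9) .nil))))) .nil))))) (.nd (nat_lit 4) (.nd (nat_lit 5) (.nd (nat_lit 6) 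
(.lf (nat_lit 3980) (.g (nat_lit 1767) (.e (nat_lit 250) (nat_lit 21) (.e (nat_lit 336223) (nat_lit 13) (.e (nat_lit 393229) (nat_lit 9) (.e (nat_lit 335994) (nat_lit 1) (.e (nat_lit 57848) (nat_lit 252) (.e (nat_lit 57372) (nat_lit 2) (.e (nat_lit 90140) (nat_lit 9) .nil))))))) (.g (nat_lit 4) .nil .nil))) 
(.lf (nat_lit 4044) (.g (nat_lit 1882) (.e (nat_lit 250) (nat_lit 21) (.e (nat_lit 336231) (nat_lit 14) (.e (nat_lit 401425) (nat_lit 2) (.e (nat_lit 196666) (nat_lit 13) .nil)))) .nil))) (.nd (nat_lit 6) 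
(.lf (nat_lit 4012) (.g (nat_lit 1863) (.e (nat_lit 250) (nat_lit 21) (.e (nat_lit 336223) (nat_lit 13) (.e (nat_lit 393281) (nat_lit 23) (.e (nat_lit 426100) (nat_lit 1) (.e (nat_lit 164332) (nat_lit 230) (.e (nat_lit 163877) (nat_lit 4) (.e (nat_lit 213017) (nat_lit 9) .nil))))))) (.g (nat_lit 4) .nil .nil))) 
(.lf (nat_lit 4076) (.g (nat_lit 1726) (.e (nat_lit 251) (nat_lit 21) (.e (nat_lit 336027) (nat_lit 3) (.e (nat_lit 98372) (nat_lit 29) (.e (nat_lit 458496) (nat_lit 3) .nil)))) .nil)))) (.nd (nat_lit 5) (.nd (nat_lit 6) 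
(.lf (nat_lit 3996) (.g (nat_lit 2692) (.e (nat_lit 250) (nat_lit 21) (.e (nat_lit 336223) (nat_lit 13) (.e (nat_lit 393281) (nat_lit 23) (.e (nat_lit 426098) (nat_lit 1) (.e (nat_lit 164325) (nat_lit 230) (.e (nat_lit 163879) (nat_lit 4) (.e (nat_lit 213019) (nat_lit 9) .nil))))))) (.g (nat_lit 5) .nil .nil))) 
(.lf (nat_lit 4060) (.g (nat_lit 2017) (.e (nat_lit 251) (nat_lit 21) (.e (nat_lit 336012) (nat_lit 2) (.e (nat_lit 90176) (nat_lit 15) (.e (nat_lit 188450) (nat_lit 23) (.e (nat_lit 204815) (nat_lit 17) .nil))))) .nil))) (.nd (nat_lit 6) 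
(.lf (nat_lit 4028) (.g (nat_lit 2411) (.e (nat_lit 250) (nat_lit 21) (.e (nat_lit 336223) (nat_lit 13) (.e (nat_lit 393301) (nat_lit 27) (.e (nat_lit 491558) (nat_lit 10) (.e (nat_lit 352000) (nat_lit 44) (.e (nat_lit 778393) (nat_lit 9) .nil)))))) (.g (nat_lit 4) .nil .nil))) 
(.lf (nat_lit 4092) (.g (nat_lit 2171) (.e (nat_lit 251) (nat_lit 21) (.e (nat_lit 336027) (nat_lit 3) (.e (nat_lit 98372) (nat_lit 29) (.e (nat_lit 450586) (nat_lit 10) (.e (nat_lit 573477) (nat_lit 12) (.e (nat_lit 57574) (nat_lit 55) (.e (nat_lit 778363) (nat_lit 9) .nil))))))) (.g (nat_lit 4) .nil .nil)))))))) 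
(.nd (nat_lit 2) (.nd (nat_lit 3) (.nd (nat_lit 4) (.nd (nat_lit 5) (.nd (nat_lit 6) 
(.lf (nat_lit 3970) (.g (nat_lit 2049) (.e (nat_lit 250) (nat_lit 21) (.e (nat_lit 336204) (nat_lit 12) (.e (nat_lit 385074) (nat_lit 31) (.e (nat_lit 573491) (nat_lit 15) (.e (nat_lit 81946) (nat_lit 20) .nil))))) .nil)) 
(.lf (nat_lit 4034) (.g (nat_lit 3308) (.e (nat_lit 250) (nat_lit 21) (.e (nat_lit 336223) (nat_lit 13) (.e (nat_lit 393301) (nat_lit 27) (.e (nat_lit 491560) (nat_lit 10) (.e (nat_lit 344179) (nat_lit 44) (.e (nat_lit 778385) (nat_lit 9) .nil)))))) (.g (nat_lit 6) .nil .nil)))) (.nd (nat_lit 6) 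
(.lf (nat_lit 4002) (.g (nat_lit 1260) (.e (nat_lit 250) (nat_lit 21) (.e (nat_lit 336223) (nat_lit 13) (.e (nat_lit 393281) (nat_lit 23) (.e (nat_lit 426099) (nat_lit 1) .nil)))) .nil)) 
(.lf (nat_lit 4066) (.g (nat_lit 1376) (.e (nat_lit 251) (nat_lit 21) (.e (nat_lit 336012) (nat_lit 2) (.e (nat_lit 90178) (nat_lit 15) (.e (nat_lit 196352) (nat_lit 2) .nil)))) .nil)))) (.nd (nat_lit 5) (.nd (nat_lit 6) 
(.lf (nat_lit 3986) (.g (nat_lit 1999) (.e (nat_lit 250) (nat_lit 21) (.e (nat_lit 336223) (nat_lit 13) (.e (nat_lit 393234) (nat_lit 17) (.e (nat_lit 7591) (nat_lit 407) (.e (nat_lit 73776) (nat_lit 26) .nil))))) .nil)) 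
(.lf (nat_lit 4050) (.g (nat_lit 2104) (.e (nat_lit 251) (nat_lit 21) (.e (nat_lit 336011) (nat_lit 2) (.e (nat_lit 90170) (nat_lit 13) (.e (nat_lit 172106) (nat_lit 10) (.e (nat_lit 434244) (nat_lit 28) .nil))))) .nil))) (.nd (nat_lit 6) 
(.lf (nat_lit 4018) (.g (nat_lit 1575) (.e (nat_lit 250) (nat_lit 21) (.e (nat_lit 336223) (nat_lit 13) (.e (nat_lit 393301) (nat_lit 27) (.e (nat_lit 491552) (nat_lit 9) .nil)))) .nil)) 
(.lf (nat_lit 4082) (.g (nat_lit 1726) (.e (nat_lit 251) (nat_lit 21) (.e (nat_lit 336027) (nat_lit 3) (.e (nat_lit 98372) (nat_lit 29) (.e (nat_lit 458496) (nat_lit 8) .nil)))) .nil))))) (.nd (nat_lit 4) (.nd (nat_lit 5) (.nd (nat_lit 6) 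
(.lf (nat_lit 3978) (.g (nat_lit 946) (.e (nat_lit 250) (nat_lit 21) (.e (nat_lit 336223) (nat_lit 13) (.e (nat_lit 393219) (nat_lit 0) .nil))) .nil)) 
(.lf (nat_lit 4042) (.g (nat_lit 2371) (.e (nat_lit 250) (nat_lit 21) (.e (nat_lit 336229) (nat_lit 14) (.e (nat_lit 401458) (nat_lit 13) (.e (nat_lit 483372) (nat_lit 21) (.e (nat_lit 319505) (nat_lit 10) (.e (nat_lit 7936) (nat_lit 312) .nil)))))) (.g (nat_lit 4) .nil .nil)))) (.nd (nat_lit 6) 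
(.lf (nat_lit 4010) (.g (nat_lit 1829) (.e (nat_lit 250) (nat_lit 21) (.e (nat_lit 336223) (nat_lit 13) (.e (nat_lit 393281) (nat_lit 23) (.e (nat_lit 426100) (nat_lit 1) (.e (nat_lit 164332) (nat_lit 230) .nil))))) .nil)) 
(.lf (nat_lit 4074) (.g (nat_lit 1380) (.e (nat_lit 251) (nat_lit 21) (.e (nat_lit 336027) (nat_lit 3) (.e (nat_lit 98365) (nat_lit 26) (.e (nat_lit 426187) (nat_lit 9) .nil)))) .nil)))) (.nd (nat_lit 5) (.nd (nat_lit 6) 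
(.lf (nat_lit 3994) (.g (nat_lit 1631) (.e (nat_lit 250) (nat_lit 21) (.e (nat_lit 336223) (nat_lit 13) (.e (nat_lit 393281) (nat_lit 23) (.e (nat_lit 426098) (nat_lit 1) (.e (nat_lit 164325) (nat_lit 230) .nil))))) .nil)) 
(.lf (nat_lit 4058) (.g (nat_lit 1542) (.e (nat_lit 251) (nat_lit 21) (.e (nat_lit 336012) (nat_lit 2) (.e (nat_lit 90176) (nat_lit 15) (.e (nat_lit 188430) (nat_lit 20) .nil)))) .nil))) (.nd (nat_lit 6) 
(.lf (nat_lit 4026) (.g (nat_lit 2490) (.e (nat_lit 250) (nat_lit 21) (.e (nat_lit 336223) (nat_lit 13) (.e (nat_lit 393301) (nat_lit 27) (.e (nat_lit 491558) (nat_lit 10) (.e (nat_lit 352000) (nat_lit 44) (.e (nat_lit 778391) (nat_lit 9) .nil)))))) (.g (nat_lit 4) .nil .nil))) 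
(.lf (nat_lit 4090) (.g (nat_lit 2043) (.e (nat_lit 251) (nat_lit 21) (.e (nat_lit 336027) (nat_lit 3) (.e (nat_lit 98372) (nat_lit 29) (.e (nat_lit 450586) (nat_lit 10) (.e (nat_lit 573477) (nat_lit 12) .nil))))) .nil)))))) (.nd (nat_lit 3) (.nd (nat_lit 4) (.nd (nat_lit 5) (.nd (nat_lit 6) 
(.lf (nat_lit 3974) (.g (nat_lit 2946) (.e (nat_lit 250) (nat_lit 21) (.e (nat_lit 336213) (nat_lit 13) (.e (nat_lit 393225) (nat_lit 9) (.e (nat_lit 335995) (nat_lit 1) (.e (nat_lit 57848) (nat_lit 252) (.e (nat_lit 57372) (nat_lit 2) (.e (nat_lit 90136) (nat_lit 9) .nil))))))) (.g (nat_lit 5) .nil .nil))) 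
(.lf (nat_lit 4038) (.g (nat_lit 2146) (.e (nat_lit 250) (nat_lit 21) (.e (nat_lit 336226) (nat_lit 14) (.e (nat_lit 401425) (nat_lit 2) (.e (nat_lit 196666) (nat_lit 13) (.e (nat_lit 65610) (nat_lit 10) (.e (nat_lit 344129) (nat_lit 26) (.e (nat_lit 557074) (nat_lit 9) .nil))))))) (.g (nat_lit 4) .nil .nil)))) (.nd (nat_lit 6) 
(.lf (nat_lit 4006) (.g (nat_lit 2793) (.e (nat_lit 250) (nat_lit 21) (.e (nat_lit 336223) (nat_lit 13) (.e (nat_lit 393281) (nat_lit 23) (.e (nat_lit 426099) (nat_lit 1) (.e (nat_lit 164332) (nat_lit 230) (.e (nat_lit 163878) (nat_lit 4) (.e (nat_lit 213015) (nat_lit 9) .nil))))))) (.g (nat_lit 6) .nil .nil))) 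
(.lf (nat_lit 4070) (.g (nat_lit 1930) (.e (nat_lit 251) (nat_lit 21) (.e (nat_lit 336021) (nat_lit 3) (.e (nat_lit 98313) (nat_lit 9) (.e (nat_lit 336021) (nat_lit 3) .nil)))) .nil)))) (.nd (nat_lit 5) (.nd (nat_lit 6) 
(.lf (nat_lit 3990) (.g (nat_lit 1644) (.e (nat_lit 250) (nat_lit 21) (.e (nat_lit 336223) (nat_lit 13) (.e (nat_lit 393234) (nat_lit 17) (.e (nat_lit 7593) (nat_lit 407) (.e (nat_lit 73775) (nat_lit 26) .nil))))) .nil)) 
(.lf (nat_lit 4054) (.g (nat_lit 3821) (.e (nat_lit 251) (nat_lit 21) (.e (nat_lit 336011) (nat_lit 2) (.e (nat_lit 90170) (nat_lit 13) (.e (nat_lit 172113) (nat_lit 10) (.e (nat_lit 434247) (nat_lit 28) (.e (nat_lit 573477) (nat_lit 12) (.e (nat_lit 57575) (nat_lit 55) (.e (nat_lit 778365) (nat_lit 9) .nil)))))))) (.g (nat_lit 4) .nil .nil)))) (.nd (nat_lit 6) 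
(.lf (nat_lit 4022) (.g (nat_lit 2622) (.e (nat_lit 250) (nat_lit 21) (.e (nat_lit 336223) (nat_lit 13) (.e (nat_lit 393301) (nat_lit 27) (.e (nat_lit 491558) (nat_lit 10) (.e (nat_lit 344096) (nat_lit 18) .nil))))) .nil)) 
(.lf (nat_lit 4086) (.g (nat_lit 2012) (.e (nat_lit 251) (nat_lit 21) (.e (nat_lit 336027) (nat_lit 3) (.e (nat_lit 98372) (nat_lit 29) (.e (nat_lit 450586) (nat_lit 10) (.e (nat_lit 573475) (nat_lit 12) .nil))))) .nil))))) (.nd (nat_lit 4) (.nd (nat_lit 5) (.nd (nat_lit 6) 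
(.lf (nat_lit 3982) (.g (nat_lit 2078) (.e (nat_lit 250) (nat_lit 21) (.e (nat_lit 336223) (nat_lit 13) (.e (nat_lit 393234) (nat_lit 17) (.e (nat_lit 7587) (nat_lit 406) (.e (nat_lit 65580) (nat_lit 6) .nil))))) .nil)) 
(.lf (nat_lit 4046) (.g (nat_lit 737) (.e (nat_lit 250) (nat_lit 21) (.e (nat_lit 336232) (nat_lit 14) (.e (nat_lit 401423) (nat_lit 2) .nil))) .nil))) (.nd (nat_lit 6) 
(.lf (nat_lit 4014) (.g (nat_lit 1550) (.e (nat_lit 250) (nat_lit 21) (.e (nat_lit 336223) (nat_lit 13) (.e (nat_lit 393281) (nat_lit 23) (.e (nat_lit 426108) (nat_lit 1) (.e (nat_lit 164330) (nat_lit 230) .nil))))) .nil)) 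
(.lf (nat_lit 4078) (.g (nat_lit 2190) (.e (nat_lit 251) (nat_lit 21) (.e (nat_lit 336027) (nat_lit 3) (.e (nat_lit 98372) (nat_lit 29) (.e (nat_lit 450579) (nat_lit 5) (.e (nat_lit 532499) (nat_lit 1) (.e (nat_lit 65280) (nat_lit 233) (.e (nat_lit 2399) (nat_lit 157) .nil))))))) (.g (nat_lit 4) .nil .nil))))) (.nd (nat_lit 5) (.nd (nat_lit 6) 
(.lf (nat_lit 3998) (.g (nat_lit 1723) (.e (nat_lit 250) (nat_lit 21) (.e (nat_lit 336223) (nat_lit 13) (.e (nat_lit 393281) (nat_lit 23) (.e (nat_lit 426098) (nat_lit 1) (.e (nat_lit 164327) (nat_lit 230) (.e (nat_lit 163877) (nat_lit 4) (.e (nat_lit 213017) (nat_lit 9) .nil))))))) (.g (nat_lit 4) .nil .nil))) 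
(.lf (nat_lit 4062) (.g (nat_lit 2717) (.e (nat_lit 251) (nat_lit 21) (.e (nat_lit 336012) (nat_lit 2) (.e (nat_lit 90176) (nat_lit 15) (.e (nat_lit 188450) (nat_lit 23) (.e (nat_lit 204817) (nat_lit 17) (.e (nat_lit 1915) (nat_lit 130) (.e (nat_lit 606231) (nat_lit 9) .nil))))))) (.g (nat_lit 6) .nil .nil)))) (.nd (nat_lit 6) 
(.lf (nat_lit 4030) (.g (nat_lit 3153) (.e (nat_lit 250) (nat_lit 21) (.e (nat_lit 336223) (nat_lit 13) (.e (nat_lit 393301) (nat_lit 27) (.e (nat_lit 491560) (nat_lit 10) (.e (nat_lit 344088) (nat_lit 18) .nil))))) .nil)) 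
(.lf (nat_lit 4094) (.g (nat_lit 2080) (.e (nat_lit 251) (nat_lit 21) (.e (nat_lit 336027) (nat_lit 3) (.e (nat_lit 98372) (nat_lit 29) (.e (nat_lit 450586) (nat_lit 10) (.e (nat_lit 573477) (nat_lit 12) (.e (nat_lit 57574) (nat_lit 55) (.e (nat_lit 786176) (nat_lit 9) .nil))))))) (.g (nat_lit 4) .nil .nil))))))))) 
(.nd (nat_lit 1) (.nd (nat_lit 2) (.nd (nat_lit 3) (.nd (nat_lit 4) (.nd (nat_lit 5) 
(.nd (nat_lit 6) 
(.lf (nat_lit 3969) (.g (nat_lit 4113) (.e (nat_lit 250) (nat_lit 21) (.e (nat_lit 336204) (nat_lit 12) (.e (nat_lit 385074) (nat_lit 31) (.e (nat_lit 573483) (nat_lit 13) .nil)))) .nil)) 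
(.lf (nat_lit 4033) (.g (nat_lit 3374) (.e (nat_lit 250) (nat_lit 21) (.e (nat_lit 336223) (nat_lit 13) (.e (nat_lit 393301) (nat_lit 27) (.e (nat_lit 491560) (nat_lit 10) (.e (nat_lit 344179) (nat_lit 44) (.e (nat_lit 778353) (nat_lit 9) .nil)))))) (.g (nat_lit 6) .nil .nil)))) (.nd (nat_lit 6) 
(.lf (nat_lit 4001) (.g (nat_lit 1709) (.e (nat_lit 250) (nat_lit 21) (.e (nat_lit 336223) (nat_lit 13) (.e (nat_lit 393281) (nat_lit 23) (.e (nat_lit 426098) (nat_lit 1) (.e (nat_lit 164332) (nat_lit 230) .nil))))) .nil)) 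
(.lf (nat_lit 4065) (.g (nat_lit 581) (.e (nat_lit 251) (nat_lit 21) (.e (nat_lit 336012) (nat_lit 2) (.e (nat_lit 90178) (nat_lit 15) .nil))) .nil)))) (.nd (nat_lit 5) (.nd (nat_lit 6) 
(.lf (nat_lit 3985) (.g (nat_lit 2349) (.e (nat_lit 250) (nat_lit 21) (.e (nat_lit 336223) (nat_lit 13) (.e (nat_lit 393234) (nat_lit 17) (.e (nat_lit 7591) (nat_lit 407) (.e (nat_lit 73775) (nat_lit 26) (.e (nat_lit 778385) (nat_lit 9) .nil)))))) (.g (nat_lit 5) .nil .nil))) 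
(.lf (nat_lit 4049) (.g (nat_lit 5451) (.e (nat_lit 251) (nat_lit 21) (.e (nat_lit 336011) (nat_lit 2) (.e (nat_lit 90170) (nat_lit 13) (.e (nat_lit 172106) (nat_lit 10) (.e (nat_lit 434231) (nat_lit 23) (.e (nat_lit 532481) (nat_lit 0) (.e (nat_lit 1917) (nat_lit 130) (.e (nat_lit 606231) (nat_lit 9) .nil)))))))) (.g (nat_lit 7) .nil .nil)))) (.nd (nat_lit 6) 
(.lf (nat_lit 4017) (.g (nat_lit 2301) (.e (nat_lit 250) (nat_lit 21) (.e (nat_lit 336223) (nat_lit 13) (.e (nat_lit 393301) (nat_lit 27) (.e (nat_lit 491546) (nat_lit 9) (.e (nat_lit 336048) (nat_lit 6) .nil))))) .nil)) 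
(.lf (nat_lit 4081) (.g (nat_lit 2904) (.e (nat_lit 251) (nat_lit 21) (.e (nat_lit 336027) (nat_lit 3) (.e (nat_lit 98372) (nat_lit 29) (.e (nat_lit 450579) (nat_lit 5) (.e (nat_lit 532504) (nat_lit 1) (.e (nat_lit 57777) (nat_lit 233) (.e (nat_lit 2416) (nat_lit 157) .nil))))))) (.g (nat_lit 5) .nil .nil)))))) (.nd (nat_lit 4) (.nd (nat_lit 5) (.nd (nat_lit 6) 
(.lf (nat_lit 3977) (.g (nat_lit 3360) (.e (nat_lit 250) (nat_lit 21) (.e (nat_lit 336220) (nat_lit 13) (.e (nat_lit 393225) (nat_lit 9) (.e (nat_lit 335995) (nat_lit 1) (.e (nat_lit 57848) (nat_lit 252) (.e (nat_lit 57374) (nat_lit 2) (.e (nat_lit 90141) (nat_lit 9) .nil))))))) (.g (nat_lit 6) .nil .nil))) 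
(.lf (nat_lit 4041) (.g (nat_lit 2672) (.e (nat_lit 250) (nat_lit 21) (.e (nat_lit 336229) (nat_lit 14) (.e (nat_lit 401458) (nat_lit 13) (.e (nat_lit 483372) (nat_lit 21) (.e (nat_lit 319504) (nat_lit 10) (.e (nat_lit 7936) (nat_lit 312) .nil)))))) (.g (nat_lit 5) .nil .nil)))) (.nd (nat_lit 6) 
(.lf (nat_lit 4009) (.g (nat_lit 2025) (.e (nat_lit 250) (nat_lit 21) (.e (nat_lit 336223) (nat_lit 13) (.e (nat_lit 393281) (nat_lit 23) (.e (nat_lit 426100) (nat_lit 1) (.e (nat_lit 164330) (nat_lit 230) (.e (nat_lit 163878) (nat_lit 4) (.e (nat_lit 213015) (nat_lit 9) .nil))))))) (.g (nat_lit 4) .nil .nil))) 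
(.lf (nat_lit 4073) (.g (nat_lit 2493) (.e (nat_lit 251) (nat_lit 21) (.e (nat_lit 336021) (nat_lit 3) (.e (nat_lit 98313) (nat_lit 9) (.e (nat_lit 336027) (nat_lit 3) (.e (nat_lit 98313) (nat_lit 9) .nil))))) .nil)))) (.nd (nat_lit 5) (.nd (nat_lit 6) 
(.lf (nat_lit 3993) (.g (nat_lit 694) (.e (nat_lit 250) (nat_lit 21) (.e (nat_lit 336223) (nat_lit 13) (.e (nat_lit 393281) (nat_lit 23) .nil))) .nil)) 
(.lf (nat_lit 4057) (.g (nat_lit 1367) (.e (nat_lit 251) (nat_lit 21) (.e (nat_lit 336012) (nat_lit 2) (.e (nat_lit 90176) (nat_lit 15) (.e (nat_lit 196352) (nat_lit 2) .nil)))) .nil))) (.nd (nat_lit 6) 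
(.lf (nat_lit 4025) (.g (nat_lit 3138) (.e (nat_lit 250) (nat_lit 21) (.e (nat_lit 336223) (nat_lit 13) (.e (nat_lit 393301) (nat_lit 27) (.e (nat_lit 491558) (nat_lit 10) (.e (nat_lit 344180) (nat_lit 44) (.e (nat_lit 778385) (nat_lit 9) .nil)))))) (.g (nat_lit 5) .nil .nil))) 
(.lf (nat_lit 4089) (.g (nat_lit 2913) (.e (nat_lit 251) (nat_lit 21) (.e (nat_lit 336027) (nat_lit 3) (.e (nat_lit 98372) (nat_lit 29) (.e (nat_lit 450586) (nat_lit 10) (.e (nat_lit 573475) (nat_lit 12) (.e (nat_lit 57574) (nat_lit 55) (.e (nat_lit 778365) (nat_lit 9) .nil))))))) (.g (nat_lit 5) .nil .nil))))))) (.nd (nat_lit 3) (.nd (nat_lit 4) (.nd (nat_lit 5) (.nd (nat_lit 6) 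
(.lf (nat_lit 3973) (.g (nat_lit 3166) (.e (nat_lit 250) (nat_lit 21) (.e (nat_lit 336213) (nat_lit 13) (.e (nat_lit 393225) (nat_lit 9) (.e (nat_lit 335995) (nat_lit 1) (.e (nat_lit 57848) (nat_lit 252) (.e (nat_lit 57372) (nat_lit 2) (.e (nat_lit 90135) (nat_lit 9) .nil))))))) (.g (nat_lit 5) .nil .nil))) 
(.lf (nat_lit 4037) (.g (nat_lit 1650) (.e (nat_lit 250) (nat_lit 21) (.e (nat_lit 336223) (nat_lit 13) (.e (nat_lit 393301) (nat_lit 27) (.e (nat_lit 491563) (nat_lit 12) .nil)))) .nil))) (.nd (nat_lit 6) 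
(.lf (nat_lit 4005) (.g (nat_lit 1573) (.e (nat_lit 250) (nat_lit 21) (.e (nat_lit 336223) (nat_lit 13) (.e (nat_lit 393281) (nat_lit 23) (.e (nat_lit 426099) (nat_lit 1) (.e (nat_lit 164332) (nat_lit 230) (.e (nat_lit 163877) (nat_lit 4) (.e (nat_lit 213017) (nat_lit 9) .nil))))))) (.g (nat_lit 4) .nil .nil))) 
(.lf (nat_lit 4069) (.g (nat_lit 2411) (.e (nat_lit 251) (nat_lit 21) (.e (nat_lit 336021) (nat_lit 3) (.e (nat_lit 98313) (nat_lit 9) (.e (nat_lit 336012) (nat_lit 2) (.e (nat_lit 90158) (nat_lit 11) .nil))))) .nil)))) (.nd (nat_lit 5) (.nd (nat_lit 6) 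
(.lf (nat_lit 3989) (.g (nat_lit 2504) (.e (nat_lit 250) (nat_lit 21) (.e (nat_lit 336223) (nat_lit 13) (.e (nat_lit 393234) (nat_lit 17) (.e (nat_lit 7591) (nat_lit 407) (.e (nat_lit 73776) (nat_lit 26) (.e (nat_lit 778394) (nat_lit 9) .nil)))))) (.g (nat_lit 5) .nil .nil))) 
(.lf (nat_lit 4053) (.g (nat_lit 3866) (.e (nat_lit 251) (nat_lit 21) (.e (nat_lit 336011) (nat_lit 2) (.e (nat_lit 90170) (nat_lit 13) (.e (nat_lit 172113) (nat_lit 10) (.e (nat_lit 434247) (nat_lit 28) (.e (nat_lit 573477) (nat_lit 12) (.e (nat_lit 57575) (nat_lit 55) (.e (nat_lit 778363) (nat_lit 9) .nil)))))))) (.g (nat_lit 4) .nil .nil)))) (.nd (nat_lit 6) 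
(.lf (nat_lit 4021) (.g (nat_lit 2692) (.e (nat_lit 250) (nat_lit 21) (.e (nat_lit 336223) (nat_lit 13) (.e (nat_lit 393301) (nat_lit 27) (.e (nat_lit 491558) (nat_lit 10) (.e (nat_lit 344091) (nat_lit 18) .nil))))) .nil)) 
(.lf (nat_lit 4085) (.g (nat_lit 2243) (.e (nat_lit 251) (nat_lit 21) (.e (nat_lit 336027) (nat_lit 3) (.e (nat_lit 98372) (nat_lit 29) (.e (nat_lit 450586) (nat_lit 10) (.e (nat_lit 573456) (nat_lit 9) (.e (nat_lit 1312) (nat_lit 98) (.e (nat_lit 147470) (nat_lit 9) .nil))))))) (.g (nat_lit 4) .nil .nil)))))) (.nd (nat_lit 4) (.nd (nat_lit 5) (.nd (nat_lit 6) 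
(.lf (nat_lit 3981) (.g (nat_lit 1987) (.e (nat_lit 250) (nat_lit 21) (.e (nat_lit 336223) (nat_lit 13) (.e (nat_lit 393229) (nat_lit 9) (.e (nat_lit 335995) (nat_lit 1) (.e (nat_lit 57848) (nat_lit 252) (.e (nat_lit 57374) (nat_lit 2) (.e (nat_lit 90141) (nat_lit 9) .nil))))))) (.g (nat_lit 4) .nil .nil))) 
(.lf (nat_lit 4045) (.g (nat_lit 3612) (.e (nat_lit 250) (nat_lit 21) (.e (nat_lit 336231) (nat_lit 14) (.e (nat_lit 401458) (nat_lit 13) (.e (nat_lit 483372) (nat_lit 21) (.e (nat_lit 319504) (nat_lit 10) (.e (nat_lit 7936) (nat_lit 312) .nil)))))) (.g (nat_lit 5) .nil .nil)))) (.nd (nat_lit 6) 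
(.lf (nat_lit 4013) (.g (nat_lit 3074) (.e (nat_lit 250) (nat_lit 21) (.e (nat_lit 336223) (nat_lit 13) (.e (nat_lit 393281) (nat_lit 23) (.e (nat_lit 426100) (nat_lit 1) (.e (nat_lit 164332) (nat_lit 230) (.e (nat_lit 163878) (nat_lit 4) (.e (nat_lit 213015) (nat_lit 9) .nil))))))) (.g (nat_lit 6) .nil .nil))) 
(.lf (nat_lit 4077) (.g (nat_lit 1308) (.e (nat_lit 251) (nat_lit 21) (.e (nat_lit 336027) (nat_lit 3) (.e (nat_lit 98372) (nat_lit 29) (.e (nat_lit 450579) (nat_lit 5) .nil)))) .nil)))) (.nd (nat_lit 5) (.nd (nat_lit 6) 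
(.lf (nat_lit 3997) (.g (nat_lit 1774) (.e (nat_lit 250) (nat_lit 21) (.e (nat_lit 336223) (nat_lit 13) (.e (nat_lit 393281) (nat_lit 23) (.e (nat_lit 426098) (nat_lit 1) (.e (nat_lit 164325) (nat_lit 230) (.e (nat_lit 163881) (nat_lit 4) (.e (nat_lit 213017) (nat_lit 9) .nil))))))) (.g (nat_lit 4) .nil .nil))) 
(.lf (nat_lit 4061) (.g (nat_lit 2588) (.e (nat_lit 251) (nat_lit 21) (.e (nat_lit 336012) (nat_lit 2) (.e (nat_lit 90176) (nat_lit 15) (.e (nat_lit 188450) (nat_lit 23) (.e (nat_lit 204815) (nat_lit 17) (.e (nat_lit 1917) (nat_lit 130) (.e (nat_lit 606231) (nat_lit 9) .nil))))))) (.g (nat_lit 5) .nil .nil)))) (.nd (nat_lit 6) 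
(.lf (nat_lit 4029) (.g (nat_lit 3027) (.e (nat_lit 250) (nat_lit 21) (.e (nat_lit 336223) (nat_lit 13) (.e (nat_lit 393301) (nat_lit 27) (.e (nat_lit 491560) (nat_lit 10) (.e (nat_lit 344087) (nat_lit 18) .nil))))) .nil)) 
(.lf (nat_lit 4093) (.g (nat_lit 2495) (.e (nat_lit 251) (nat_lit 21) (.e (nat_lit 336027) (nat_lit 3) (.e (nat_lit 98372) (nat_lit 29) (.e (nat_lit 450586) (nat_lit 10) (.e (nat_lit 573477) (nat_lit 12) (.e (nat_lit 57574) (nat_lit 55) (.e (nat_lit 778365) (nat_lit 9) .nil))))))) (.g (nat_lit 5) .nil .nil)))))))) 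
(.nd (nat_lit 2) (.nd (nat_lit 3) (.nd (nat_lit 4) (.nd (nat_lit 5) (.nd (nat_lit 6) 
(.lf (nat_lit 3971) (.g (nat_lit 905) (.e (nat_lit 250) (nat_lit 21) (.e (nat_lit 336213) (nat_lit 13) (.e (nat_lit 393225) (nat_lit 9) .nil))) .nil)) 
(.lf (nat_lit 4035) (.g (nat_lit 3195) (.e (nat_lit 250) (nat_lit 21) (.e (nat_lit 336223) (nat_lit 13) (.e (nat_lit 393301) (nat_lit 27) (.e (nat_lit 491560) (nat_lit 10) (.e (nat_lit 344179) (nat_lit 44) (.e (nat_lit 778394) (nat_lit 9) .nil)))))) (.g (nat_lit 5) .nil .nil)))) (.nd (nat_lit 6) 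
(.lf (nat_lit 4003) (.g (nat_lit 1410) (.e (nat_lit 250) (nat_lit 21) (.e (nat_lit 336223) (nat_lit 13) (.e (nat_lit 393281) (nat_lit 23) (.e (nat_lit 426099) (nat_lit 1) (.e (nat_lit 164330) (nat_lit 230) .nil))))) .nil)) 
(.lf (nat_lit 4067) (.g (nat_lit 1343) (.e (nat_lit 251) (nat_lit 21) (.e (nat_lit 336012) (nat_lit 2) (.e (nat_lit 90185) (nat_lit 17) (.e (nat_lit 237601) (nat_lit 9) .nil)))) .nil)))) (.nd (nat_lit 5) (.nd (nat_lit 6) 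
(.lf (nat_lit 3987) (.g (nat_lit 2454) (.e (nat_lit 250) (nat_lit 21) (.e (nat_lit 336223) (nat_lit 13) (.e (nat_lit 393234) (nat_lit 17) (.e (nat_lit 7591) (nat_lit 407) (.e (nat_lit 73776) (nat_lit 26) (.e (nat_lit 778353) (nat_lit 9) .nil)))))) (.g (nat_lit 5) .nil .nil))) 
(.lf (nat_lit 4051) (.g (nat_lit 3493) (.e (nat_lit 251) (nat_lit 21) (.e (nat_lit 336011) (nat_lit 2) (.e (nat_lit 90170) (nat_lit 13) (.e (nat_lit 172113) (nat_lit 10) (.e (nat_lit 434245) (nat_lit 28) .nil))))) .nil))) (.nd (nat_lit 6) 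
(.lf (nat_lit 4019) (.g (nat_lit 2131) (.e (nat_lit 250) (nat_lit 21) (.e (nat_lit 336223) (nat_lit 13) (.e (nat_lit 393301) (nat_lit 27) (.e (nat_lit 491556) (nat_lit 9) .nil)))) .nil)) 
(.lf (nat_lit 4083) (.g (nat_lit 1390) (.e (nat_lit 251) (nat_lit 21) (.e (nat_lit 336027) (nat_lit 3) (.e (nat_lit 98372) (nat_lit 29) (.e (nat_lit 450586) (nat_lit 10) .nil)))) .nil))))) (.nd (nat_lit 4) (.nd (nat_lit 5) (.nd (nat_lit 6) 
(.lf (nat_lit 3979) (.g (nat_lit 1304) (.e (nat_lit 250) (nat_lit 21) (.e (nat_lit 336223) (nat_lit 13) (.e (nat_lit 393229) (nat_lit 9) (.e (nat_lit 335994) (nat_lit 1) .nil)))) .nil)) 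
(.lf (nat_lit 4043) (.g (nat_lit 1476) (.e (nat_lit 250) (nat_lit 21) (.e (nat_lit 336231) (nat_lit 14) (.e (nat_lit 401423) (nat_lit 2) (.e (nat_lit 196666) (nat_lit 13) .nil)))) .nil))) (.nd (nat_lit 6) 
(.lf (nat_lit 4011) (.g (nat_lit 2049) (.e (nat_lit 250) (nat_lit 21) (.e (nat_lit 336223) (nat_lit 13) (.e (nat_lit 393281) (nat_lit 23) (.e (nat_lit 426100) (nat_lit 1) (.e (nat_lit 164332) (nat_lit 230) (.e (nat_lit 163877) (nat_lit 4) (.e (nat_lit 213015) (nat_lit 9) .nil))))))) (.g (nat_lit 4) .nil .nil))) 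
(.lf (nat_lit 4075) (.g (nat_lit 624) (.e (nat_lit 251) (nat_lit 21) (.e (nat_lit 336027) (nat_lit 3) (.e (nat_lit 98369) (nat_lit 28) .nil))) .nil)))) (.nd (nat_lit 5) (.nd (nat_lit 6) 
(.lf (nat_lit 3995) (.g (nat_lit 1801) (.e (nat_lit 250) (nat_lit 21) (.e (nat_lit 336223) (nat_lit 13) (.e (nat_lit 393281) (nat_lit 23) (.e (nat_lit 426098) (nat_lit 1) (.e (nat_lit 164325) (nat_lit 230) (.e (nat_lit 163877) (nat_lit 4) (.e (nat_lit 213015) (nat_lit 9) .nil))))))) (.g (nat_lit 4) .nil .nil))) 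
(.lf (nat_lit 4059) (.g (nat_lit 1890) (.e (nat_lit 251) (nat_lit 21) (.e (nat_lit 336012) (nat_lit 2) (.e (nat_lit 90176) (nat_lit 15) (.e (nat_lit 188439) (nat_lit 20) (.e (nat_lit 7936) (nat_lit 200) (.e (nat_lit 557090) (nat_lit 12) (.e (nat_lit 164038) (nat_lit 55) (.e (nat_lit 778336) (nat_lit 9) .nil)))))))) (.g (nat_lit 4) .nil .nil)))) (.nd (nat_lit 6) 
(.lf (nat_lit 4027) (.g (nat_lit 2473) (.e (nat_lit 250) (nat_lit 21) (.e (nat_lit 336223) (nat_lit 13) (.e (nat_lit 393301) (nat_lit 27) (.e (nat_lit 491558) (nat_lit 10) (.e (nat_lit 352000) (nat_lit 44) (.e (nat_lit 778392) (nat_lit 9) .nil)))))) (.g (nat_lit 4) .nil .nil))) 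
(.lf (nat_lit 4091) (.g (nat_lit 3405) (.e (nat_lit 251) (nat_lit 21) (.e (nat_lit 336027) (nat_lit 3) (.e (nat_lit 98372) (nat_lit 29) (.e (nat_lit 450586) (nat_lit 10) (.e (nat_lit 573477) (nat_lit 12) (.e (nat_lit 57574) (nat_lit 55) (.e (nat_lit 778359) (nat_lit 9) .nil))))))) (.g (nat_lit 7) .nil .nil))))))) (.nd (nat_lit 3) (.nd (nat_lit 4) (.nd (nat_lit 5) (.nd (nat_lit 6) 
(.lf (nat_lit 3975) (.g (nat_lit 4165) (.e (nat_lit 250) (nat_lit 21) (.e (nat_lit 336213) (nat_lit 13) (.e (nat_lit 393225) (nat_lit 9) (.e (nat_lit 335995) (nat_lit 1) (.e (nat_lit 57848) (nat_lit 252) (.e (nat_lit 57374) (nat_lit 2) (.e (nat_lit 90141) (nat_lit 9) .nil))))))) (.g (nat_lit 6) .nil .nil))) 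
(.lf (nat_lit 4039) (.g (nat_lit 2177) (.e (nat_lit 250) (nat_lit 21) (.e (nat_lit 336226) (nat_lit 14) (.e (nat_lit 401425) (nat_lit 2) (.e (nat_lit 196666) (nat_lit 13) (.e (nat_lit 65617) (nat_lit 10) (.e (nat_lit 344130) (nat_lit 26) (.e (nat_lit 557074) (nat_lit 9) .nil))))))) (.g (nat_lit 4) .nil .nil)))) (.nd (nat_lit 6) 
(.lf (nat_lit 4007) (.g (nat_lit 1861) (.e (nat_lit 250) (nat_lit 21) (.e (nat_lit 336223) (nat_lit 13) (.e (nat_lit 393281) (nat_lit 23) (.e (nat_lit 426100) (nat_lit 1) (.e (nat_lit 164330) (nat_lit 230) .nil))))) .nil)) 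
(.lf (nat_lit 4071) (.g (nat_lit 2568) (.e (nat_lit 251) (nat_lit 21) (.e (nat_lit 336021) (nat_lit 3) (.e (nat_lit 98313) (nat_lit 9) (.e (nat_lit 336021) (nat_lit 3) (.e (nat_lit 98313) (nat_lit 9) .nil))))) .nil)))) (.nd (nat_lit 5) (.nd (nat_lit 6) 
(.lf (nat_lit 3991) (.g (nat_lit 2370) (.e (nat_lit 250) (nat_lit 21) (.e (nat_lit 336223) (nat_lit 13) (.e (nat_lit 393234) (nat_lit 17) (.e (nat_lit 7593) (nat_lit 407) (.e (nat_lit 73775) (nat_lit 26) (.e (nat_lit 778385) (nat_lit 9) .nil)))))) (.g (nat_lit 5) .nil .nil))) 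
(.lf (nat_lit 4055) (.g (nat_lit 3443) (.e (nat_lit 251) (nat_lit 21) (.e (nat_lit 336011) (nat_lit 2) (.e (nat_lit 90170) (nat_lit 13) (.e (nat_lit 172113) (nat_lit 10) (.e (nat_lit 434248) (nat_lit 28) .nil))))) .nil))) (.nd (nat_lit 6) 
(.lf (nat_lit 4023) (.g (nat_lit 2845) (.e (nat_lit 250) (nat_lit 21) (.e (nat_lit 336223) (nat_lit 13) (.e (nat_lit 393301) (nat_lit 27) (.e (nat_lit 491558) (nat_lit 10) (.e (nat_lit 344180) (nat_lit 44) .nil))))) .nil)) 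
(.lf (nat_lit 4087) (.g (nat_lit 2285) (.e (nat_lit 251) (nat_lit 21) (.e (nat_lit 336027) (nat_lit 3) (.e (nat_lit 98372) (nat_lit 29) (.e (nat_lit 450586) (nat_lit 10) (.e (nat_lit 573475) (nat_lit 12) (.e (nat_lit 57574) (nat_lit 55) (.e (nat_lit 778353) (nat_lit 9) .nil))))))) (.g (nat_lit 4) .nil .nil)))))) (.nd (nat_lit 4) (.nd (nat_lit 5) (.nd (nat_lit 6) 
(.lf (nat_lit 3983) (.g (nat_lit 2690) (.e (nat_lit 250) (nat_lit 21) (.e (nat_lit 336223) (nat_lit 13) (.e (nat_lit 393234) (nat_lit 17) (.e (nat_lit 7587) (nat_lit 406) (.e (nat_lit 65580) (nat_lit 6) (.e (nat_lit 147479) (nat_lit 9) .nil)))))) (.g (nat_lit 6) .nil .nil))) 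
(.lf (nat_lit 4047) (.g (nat_lit 628) (.e (nat_lit 251) (nat_lit 21) (.e (nat_lit 336004) (nat_lit 2) (.e (nat_lit 90158) (nat_lit 11) .nil))) .nil))) (.nd (nat_lit 6) 
(.lf (nat_lit 4015) (.g (nat_lit 1695) (.e (nat_lit 250) (nat_lit 21) (.e (nat_lit 336223) (nat_lit 13) (.e (nat_lit 393281) (nat_lit 23) (.e (nat_lit 426108) (nat_lit 1) (.e (nat_lit 164330) (nat_lit 230) (.e (nat_lit 163877) (nat_lit 4) (.e (nat_lit 213015) (nat_lit 9) .nil))))))) (.g (nat_lit 4) .nil .nil))) 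
(.lf (nat_lit 4079) (.g (nat_lit 3028) (.e (nat_lit 251) (nat_lit 21) (.e (nat_lit 336027) (nat_lit 3) (.e (nat_lit 98372) (nat_lit 29) (.e (nat_lit 450579) (nat_lit 5) (.e (nat_lit 532501) (nat_lit 1) (.e (nat_lit 57777) (nat_lit 233) (.e (nat_lit 2416) (nat_lit 157) .nil))))))) (.g (nat_lit 5) .nil .nil))))) (.nd (nat_lit 5) (.nd (nat_lit 6) 
(.lf (nat_lit 3999) (.g (nat_lit 2687) (.e (nat_lit 250) (nat_lit 21) (.e (nat_lit 336223) (nat_lit 13) (.e (nat_lit 393281) (nat_lit 23) (.e (nat_lit 426098) (nat_lit 1) (.e (nat_lit 164327) (nat_lit 230) (.e (nat_lit 163879) (nat_lit 4) (.e (nat_lit 213015) (nat_lit 9) .nil))))))) (.g (nat_lit 6) .nil .nil))) 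
(.lf (nat_lit 4063) (.g (nat_lit 2528) (.e (nat_lit 251) (nat_lit 21) (.e (nat_lit 336012) (nat_lit 2) (.e (nat_lit 90176) (nat_lit 15) (.e (nat_lit 188450) (nat_lit 23) (.e (nat_lit 204818) (nat_lit 17) .nil))))) .nil))) (.nd (nat_lit 6) 
(.lf (nat_lit 4031) (.g (nat_lit 2530) (.e (nat_lit 250) (nat_lit 21) (.e (nat_lit 336223) (nat_lit 13) (.e (nat_lit 393301) (nat_lit 27) (.e (nat_lit 491560) (nat_lit 10) (.e (nat_lit 344094) (nat_lit 18) .nil))))) .nil)) 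
(.lf (nat_lit 4095) (.g (nat_lit 3990) (.e (nat_lit 251) (nat_lit 21) (.e (nat_lit 336027) (nat_lit 3) (.e (nat_lit 98372) (nat_lit 29) (.e (nat_lit 450586) (nat_lit 10) (.e (nat_lit 573477) (nat_lit 12) (.e (nat_lit 57575) (nat_lit 55) (.e (nat_lit 778363) (nat_lit 9) .nil))))))) (.g (nat_lit 0) .nil .nil))))))))))

noncomputable def tv055 : DT := (.nd (nat_lit 0) (.nd (nat_lit 1) (.nd (nat_lit 2) (.nd (nat_lit 3) (.nd (nat_lit 4) (.nd (nat_lit 5) 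
(.lf (nat_lit 4096) (.g (nat_lit 4007) (.e (nat_lit 251) (nat_lit 21) (.e (nat_lit 336027) (nat_lit 3) (.e (nat_lit 98372) (nat_lit 29) (.e (nat_lit 450586) (nat_lit 10) (.e (nat_lit 573477) (nat_lit 12) (.e (nat_lit 57575) (nat_lit 55) (.e (nat_lit 778364) (nat_lit 9) .nil))))))) (.g (nat_lit 0) .nil .nil))) 
(.lf (nat_lit 4128) (.g (nat_lit 2155) (.e (nat_lit 251) (nat_lit 21) (.e (nat_lit 336078) (nat_lit 9) (.e (nat_lit 336454) (nat_lit 34) (.e (nat_lit 483365) (nat_lit 18) (.e (nat_lit 57851) (nat_lit 252) .nil))))) .nil))) (.nd (nat_lit 5) 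
(.lf (nat_lit 4112) (.g (nat_lit 4675) (.e (nat_lit 251) (nat_lit 21) (.e (nat_lit 336027) (nat_lit 3) (.e (nat_lit 98373) (nat_lit 29) (.e (nat_lit 450587) (nat_lit 10) (.e (nat_lit 573477) (nat_lit 12) (.e (nat_lit 57575) (nat_lit 55) (.e (nat_lit 778365) (nat_lit 9) .nil))))))) (.g (nat_lit 6) .nil .nil))) 
(.lf (nat_lit 4144) (.g (nat_lit 3030) (.e (nat_lit 251) (nat_lit 21) (.e (nat_lit 336204) (nat_lit 12) (.e (nat_lit 385074) (nat_lit 31) (.e (nat_lit 573484) (nat_lit 13) (.e (nat_lit 65617) (nat_lit 10) (.e (nat_lit 344130) (nat_lit 26) (.e (nat_lit 557067) (nat_lit 9) .nil))))))) (.g (nat_lit 4) .nil .nil))))) (.nd (nat_lit 4) (.nd (nat_lit 5) 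
(.lf (nat_lit 4104) (.g (nat_lit 3341) (.e (nat_lit 251) (nat_lit 21) (.e (nat_lit 336027) (nat_lit 3) (.e (nat_lit 98372) (nat_lit 29) (.e (nat_lit 450588) (nat_lit 10) (.e (nat_lit 573475) (nat_lit 12) .nil))))) .nil)) 
(.lf (nat_lit 4136) (.g (nat_lit 4143) (.e (nat_lit 251) (nat_lit 21) (.e (nat_lit 336204) (nat_lit 12) (.e (nat_lit 385074) (nat_lit 31) (.e (nat_lit 573456) (nat_lit 9) .nil)))) .nil))) (.nd (nat_lit 5) 
(.lf (nat_lit 4120) (.g (nat_lit 2758) (.e (nat_lit 251) (nat_lit 21) (.e (nat_lit 336027) (nat_lit 3) (.e (nat_lit 98373) (nat_lit 29) (.e (nat_lit 450588) (nat_lit 10) (.e (nat_lit 573475) (nat_lit 12) .nil))))) .nil)) 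
(.lf (nat_lit 4152) (.g (nat_lit 2058) (.e (nat_lit 251) (nat_lit 21) (.e (nat_lit 336213) (nat_lit 13) (.e (nat_lit 393225) (nat_lit 9) (.e (nat_lit 335995) (nat_lit 1) (.e (nat_lit 57848) (nat_lit 252) (.e (nat_lit 57375) (nat_lit 2) (.e (nat_lit 90127) (nat_lit 9) .nil))))))) (.g (nat_lit 4) .nil .nil)))))) (.nd (nat_lit 3) (.nd (nat_lit 4) (.nd (nat_lit 5) 
(.lf (nat_lit 4100) (.g (nat_lit 1990) (.e (nat_lit 251) (nat_lit 21) (.e (nat_lit 336027) (nat_lit 3) (.e (nat_lit 98372) (nat_lit 29) (.e (nat_lit 450586) (nat_lit 10) (.e (nat_lit 573478) (nat_lit 12) .nil))))) .nil)) 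
(.lf (nat_lit 4132) (.g (nat_lit 2961) (.e (nat_lit 251) (nat_lit 21) (.e (nat_lit 336165) (nat_lit 10) (.e (nat_lit 344126) (nat_lit 25) (.e (nat_lit 548874) (nat_lit 5) (.e (nat_lit 1598) (nat_lit 111) (.e (nat_lit 360473) (nat_lit 8) (.e (nat_lit 557068) (nat_lit 9) .nil))))))) (.g (nat_lit 0) .nil .nil)))) (.nd (nat_lit 5) 
(.lf (nat_lit 4116) (.g (nat_lit 3109) (.e (nat_lit 251) (nat_lit 21) (.e (nat_lit 336027) (nat_lit 3) (.e (nat_lit 98373) (nat_lit 29) (.e (nat_lit 450587) (nat_lit 10) (.e (nat_lit 573478) (nat_lit 12) (.e (nat_lit 57574) (nat_lit 55) (.e (nat_lit 778365) (nat_lit 9) .nil))))))) (.g (nat_lit 5) .nil .nil))) 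
(.lf (nat_lit 4148) (.g (nat_lit 2525) (.e (nat_lit 251) (nat_lit 21) (.e (nat_lit 336204) (nat_lit 12) (.e (nat_lit 385074) (nat_lit 31) (.e (nat_lit 573491) (nat_lit 15) (.e (nat_lit 81946) (nat_lit 20) (.e (nat_lit 1858) (nat_lit 124) (.e (nat_lit 557064) (nat_lit 9) .nil))))))) (.g (nat_lit 4) .nil .nil))))) (.nd (nat_lit 4) (.nd (nat_lit 5) 
(.lf (nat_lit 4108) (.g (nat_lit 4399) (.e (nat_lit 251) (nat_lit 21) (.e (nat_lit 336027) (nat_lit 3) (.e (nat_lit 98373) (nat_lit 29) (.e (nat_lit 450587) (nat_lit 10) (.e (nat_lit 573477) (nat_lit 12) (.e (nat_lit 57574) (nat_lit 55) (.e (nat_lit 778359) (nat_lit 9) .nil))))))) (.g (nat_lit 0) .nil .nil))) 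
(.lf (nat_lit 4140) (.g (nat_lit 3160) (.e (nat_lit 251) (nat_lit 21) (.e (nat_lit 336204) (nat_lit 12) (.e (nat_lit 385074) (nat_lit 31) (.e (nat_lit 573482) (nat_lit 13) (.e (nat_lit 65615) (nat_lit 10) .nil))))) .nil))) (.nd (nat_lit 5) 
(.lf (nat_lit 4124) (.g (nat_lit 1338) (.e (nat_lit 251) (nat_lit 21) (.e (nat_lit 336076) (nat_lit 9) (.e (nat_lit 336454) (nat_lit 34) (.e (nat_lit 483366) (nat_lit 18) (.e (nat_lit 57848) (nat_lit 252) .nil))))) .nil)) 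
(.lf (nat_lit 4156) (.g (nat_lit 985) (.e (nat_lit 251) (nat_lit 21) (.e (nat_lit 336223) (nat_lit 13) (.e (nat_lit 393229) (nat_lit 9) .nil))) .nil)))))) (.nd (nat_lit 2) (.nd (nat_lit 3) (.nd (nat_lit 4) (.nd (nat_lit 5) 
(.lf (nat_lit 4098) (.g (nat_lit 4009) (.e (nat_lit 251) (nat_lit 21) (.e (nat_lit 336027) (nat_lit 3) (.e (nat_lit 98372) (nat_lit 29) (.e (nat_lit 450586) (nat_lit 10) (.e (nat_lit 573477) (nat_lit 12) (.e (nat_lit 57575) (nat_lit 55) (.e (nat_lit 778366) (nat_lit 9) .nil))))))) (.g (nat_lit 0) .nil .nil))) 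
(.lf (nat_lit 4130) (.g (nat_lit 3157) (.e (nat_lit 251) (nat_lit 21) (.e (nat_lit 336163) (nat_lit 10) (.e (nat_lit 344126) (nat_lit 25) (.e (nat_lit 548874) (nat_lit 5) (.e (nat_lit 1586) (nat_lit 111) (.e (nat_lit 360475) (nat_lit 8) (.e (nat_lit 557068) (nat_lit 9) .nil))))))) (.g (nat_lit 6) .nil .nil)))) (.nd (nat_lit 5) 
(.lf (nat_lit 4114) (.g (nat_lit 2550) (.e (nat_lit 251) (nat_lit 21) (.e (nat_lit 336027) (nat_lit 3) (.e (nat_lit 98373) (nat_lit 29) (.e (nat_lit 450587) (nat_lit 10) (.e (nat_lit 573478) (nat_lit 12) (.e (nat_lit 57574) (nat_lit 55) (.e (nat_lit 778353) (nat_lit 9) .nil))))))) (.g (nat_lit 4) .nil .nil))) 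
(.lf (nat_lit 4146) (.g (nat_lit 4210) (.e (nat_lit 251) (nat_lit 21) (.e (nat_lit 336204) (nat_lit 12) (.e (nat_lit 385074) (nat_lit 31) (.e (nat_lit 573485) (nat_lit 13) (.e (nat_lit 65619) (nat_lit 10) (.e (nat_lit 344129) (nat_lit 26) (.e (nat_lit 557065) (nat_lit 9) .nil))))))) (.g (nat_lit 6) .nil .nil))))) (.nd (nat_lit 4) (.nd (nat_lit 5) 
(.lf (nat_lit 4106) (.g (nat_lit 2660) (.e (nat_lit 251) (nat_lit 21) (.e (nat_lit 336027) (nat_lit 3) (.e (nat_lit 98373) (nat_lit 29) (.e (nat_lit 450586) (nat_lit 10) (.e (nat_lit 573477) (nat_lit 12) .nil))))) .nil)) 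
(.lf (nat_lit 4138) (.g (nat_lit 4164) (.e (nat_lit 251) (nat_lit 21) (.e (nat_lit 336204) (nat_lit 12) (.e (nat_lit 385074) (nat_lit 31) (.e (nat_lit 573479) (nat_lit 13) .nil)))) .nil))) (.nd (nat_lit 5) 
(.lf (nat_lit 4122) (.g (nat_lit 3873) (.e (nat_lit 251) (nat_lit 21) (.e (nat_lit 336027) (nat_lit 3) (.e (nat_lit 98373) (nat_lit 29) (.e (nat_lit 450588) (nat_lit 10) (.e (nat_lit 573475) (nat_lit 12) (.e (nat_lit 57574) (nat_lit 55) (.e (nat_lit 778365) (nat_lit 9) .nil))))))) (.g (nat_lit 5) .nil .nil))) 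
(.lf (nat_lit 4154) (.g (nat_lit 858) (.e (nat_lit 251) (nat_lit 21) (.e (nat_lit 336213) (nat_lit 13) (.e (nat_lit 393229) (nat_lit 9) .nil))) .nil))))) (.nd (nat_lit 3) (.nd (nat_lit 4) (.nd (nat_lit 5) 
(.lf (nat_lit 4102) (.g (nat_lit 2023) (.e (nat_lit 251) (nat_lit 21) (.e (nat_lit 336027) (nat_lit 3) (.e (nat_lit 98372) (nat_lit 29) (.e (nat_lit 450586) (nat_lit 10) (.e (nat_lit 573478) (nat_lit 12) (.e (nat_lit 57574) (nat_lit 55) (.e (nat_lit 778363) (nat_lit 9) .nil))))))) (.g (nat_lit 4) .nil .nil))) 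
(.lf (nat_lit 4134) (.g (nat_lit 4323) (.e (nat_lit 251) (nat_lit 21) (.e (nat_lit 336204) (nat_lit 12) (.e (nat_lit 385074) (nat_lit 31) (.e (nat_lit 573451) (nat_lit 9) .nil)))) .nil))) (.nd (nat_lit 5) 
(.lf (nat_lit 4118) (.g (nat_lit 2725) (.e (nat_lit 251) (nat_lit 21) (.e (nat_lit 336027) (nat_lit 3) (.e (nat_lit 98373) (nat_lit 29) (.e (nat_lit 450587) (nat_lit 10) (.e (nat_lit 573478) (nat_lit 12) (.e (nat_lit 57574) (nat_lit 55) (.e (nat_lit 786176) (nat_lit 9) .nil))))))) (.g (nat_lit 4) .nil .nil))) 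
(.lf (nat_lit 4150) (.g (nat_lit 2131) (.e (nat_lit 251) (nat_lit 21) (.e (nat_lit 336213) (nat_lit 13) (.e (nat_lit 393225) (nat_lit 9) (.e (nat_lit 335995) (nat_lit 1) (.e (nat_lit 57848) (nat_lit 252) (.e (nat_lit 57372) (nat_lit 2) (.e (nat_lit 90121) (nat_lit 9) .nil))))))) (.g (nat_lit 4) .nil .nil))))) (.nd (nat_lit 4) (.nd (nat_lit 5) 
(.lf (nat_lit 4110) (.g (nat_lit 4731) (.e (nat_lit 251) (nat_lit 21) (.e (nat_lit 336027) (nat_lit 3) (.e (nat_lit 98373) (nat_lit 29) (.e (nat_lit 450587) (nat_lit 10) (.e (nat_lit 573477) (nat_lit 12) (.e (nat_lit 57575) (nat_lit 55) (.e (nat_lit 778363) (nat_lit 9) .nil))))))) (.g (nat_lit 7) .nil .nil))) 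
(.lf (nat_lit 4142) (.g (nat_lit 3847) (.e (nat_lit 251) (nat_lit 21) (.e (nat_lit 336204) (nat_lit 12) (.e (nat_lit 385074) (nat_lit 31) (.e (nat_lit 573482) (nat_lit 13) (.e (nat_lit 65619) (nat_lit 10) (.e (nat_lit 344129) (nat_lit 26) (.e (nat_lit 557065) (nat_lit 9) .nil))))))) (.g (nat_lit 5) .nil .nil)))) (.nd (nat_lit 5) 
(.lf (nat_lit 4126) (.g (nat_lit 656) (.e (nat_lit 251) (nat_lit 21) (.e (nat_lit 336078) (nat_lit 9) (.e (nat_lit 336454) (nat_lit 34) .nil))) .nil)) 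
(.lf (nat_lit 4158) (.g (nat_lit 2330) (.e (nat_lit 251) (nat_lit 21) (.e (nat_lit 336223) (nat_lit 13) (.e (nat_lit 393234) (nat_lit 17) (.e (nat_lit 7587) (nat_lit 406) (.e (nat_lit 65580) (nat_lit 6) (.e (nat_lit 147464) (nat_lit 9) .nil)))))) (.g (nat_lit 4) .nil .nil)))))))) (.nd (nat_lit 1) (.nd (nat_lit 2) (.nd (nat_lit 3) (.nd (nat_lit 4) (.nd (nat_lit 5) 
(.lf (nat_lit 4097) (.g (nat_lit 3982) (.e (nat_lit 251) (nat_lit 21) (.e (nat_lit 336027) (nat_lit 3) (.e (nat_lit 98372) (nat_lit 29) (.e (nat_lit 450586) (nat_lit 10) (.e (nat_lit 573477) (nat_lit 12) (.e (nat_lit 57575) (nat_lit 55) (.e (nat_lit 778365) (nat_lit 9) .nil))))))) (.g (nat_lit 0) .nil .nil))) 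
(.lf (nat_lit 4129) (.g (nat_lit 1452) (.e (nat_lit 251) (nat_lit 21) (.e (nat_lit 336163) (nat_lit 10) (.e (nat_lit 344126) (nat_lit 25) (.e (nat_lit 548872) (nat_lit 5) (.e (nat_lit 1598) (nat_lit 111) (.e (nat_lit 360473) (nat_lit 8) (.e (nat_lit 557068) (nat_lit 9) .nil))))))) (.g (nat_lit 4) .nil .nil)))) (.nd (nat_lit 5) 
(.lf (nat_lit 4113) (.g (nat_lit 4731) (.e (nat_lit 251) (nat_lit 21) (.e (nat_lit 336027) (nat_lit 3) (.e (nat_lit 98373) (nat_lit 29) (.e (nat_lit 450587) (nat_lit 10) (.e (nat_lit 573477) (nat_lit 12) (.e (nat_lit 57575) (nat_lit 55) (.e (nat_lit 778366) (nat_lit 9) .nil))))))) (.g (nat_lit 7) .nil .nil))) 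
(.lf (nat_lit 4145) (.g (nat_lit 2683) (.e (nat_lit 251) (nat_lit 21) (.e (nat_lit 336204) (nat_lit 12) (.e (nat_lit 385074) (nat_lit 31) (.e (nat_lit 573485) (nat_lit 13) (.e (nat_lit 65619) (nat_lit 10) .nil))))) .nil)))) (.nd (nat_lit 4) (.nd (nat_lit 5) 
(.lf (nat_lit 4105) (.g (nat_lit 3531) (.e (nat_lit 251) (nat_lit 21) (.e (nat_lit 336027) (nat_lit 3) (.e (nat_lit 98372) (nat_lit 29) (.e (nat_lit 450588) (nat_lit 10) (.e (nat_lit 573475) (nat_lit 12) (.e (nat_lit 57574) (nat_lit 55) (.e (nat_lit 778359) (nat_lit 9) .nil))))))) (.g (nat_lit 4) .nil .nil))) 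
(.lf (nat_lit 4137) (.g (nat_lit 5477) (.e (nat_lit 251) (nat_lit 21) (.e (nat_lit 336204) (nat_lit 12) (.e (nat_lit 385074) (nat_lit 31) (.e (nat_lit 573456) (nat_lit 9) (.e (nat_lit 1586) (nat_lit 111) .nil))))) .nil))) (.nd (nat_lit 5) 
(.lf (nat_lit 4121) (.g (nat_lit 4754) (.e (nat_lit 251) (nat_lit 21) (.e (nat_lit 336027) (nat_lit 3) (.e (nat_lit 98373) (nat_lit 29) (.e (nat_lit 450588) (nat_lit 10) (.e (nat_lit 573475) (nat_lit 12) (.e (nat_lit 57574) (nat_lit 55) (.e (nat_lit 778359) (nat_lit 9) .nil))))))) (.g (nat_lit 7) .nil .nil))) 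
(.lf (nat_lit 4153) (.g (nat_lit 2184) (.e (nat_lit 251) (nat_lit 21) (.e (nat_lit 336213) (nat_lit 13) (.e (nat_lit 393225) (nat_lit 9) (.e (nat_lit 335995) (nat_lit 1) (.e (nat_lit 57848) (nat_lit 252) (.e (nat_lit 57375) (nat_lit 2) (.e (nat_lit 90130) (nat_lit 9) .nil))))))) (.g (nat_lit 4) .nil .nil)))))) (.nd (nat_lit 3) (.nd (nat_lit 4) (.nd (nat_lit 5) 
(.lf (nat_lit 4101) (.g (nat_lit 3197) (.e (nat_lit 251) (nat_lit 21) (.e (nat_lit 336027) (nat_lit 3) (.e (nat_lit 98372) (nat_lit 29) (.e (nat_lit 450586) (nat_lit 10) (.e (nat_lit 573478) (nat_lit 12) (.e (nat_lit 57574) (nat_lit 55) (.e (nat_lit 778359) (nat_lit 9) .nil))))))) (.g (nat_lit 7) .nil .nil))) 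
(.lf (nat_lit 4133) (.g (nat_lit 491) (.e (nat_lit 251) (nat_lit 21) (.e (nat_lit 336204) (nat_lit 12) (.e (nat_lit 385074) (nat_lit 31) .nil))) .nil))) (.nd (nat_lit 5) 
(.lf (nat_lit 4117) (.g (nat_lit 3585) (.e (nat_lit 251) (nat_lit 21) (.e (nat_lit 336027) (nat_lit 3) (.e (nat_lit 98373) (nat_lit 29) (.e (nat_lit 450587) (nat_lit 10) (.e (nat_lit 573478) (nat_lit 12) (.e (nat_lit 57574) (nat_lit 55) (.e (nat_lit 778366) (nat_lit 9) .nil))))))) (.g (nat_lit 6) .nil .nil))) 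
(.lf (nat_lit 4149) (.g (nat_lit 4187) (.e (nat_lit 251) (nat_lit 21) (.e (nat_lit 336204) (nat_lit 12) (.e (nat_lit 385074) (nat_lit 31) (.e (nat_lit 573491) (nat_lit 15) (.e (nat_lit 81946) (nat_lit 20) (.e (nat_lit 1858) (nat_lit 124) (.e (nat_lit 557069) (nat_lit 9) .nil))))))) (.g (nat_lit 6) .nil .nil))))) (.nd (nat_lit 4) (.nd (nat_lit 5) 
(.lf (nat_lit 4109) (.g (nat_lit 3929) (.e (nat_lit 251) (nat_lit 21) (.e (nat_lit 336027) (nat_lit 3) (.e (nat_lit 98373) (nat_lit 29) (.e (nat_lit 450587) (nat_lit 10) (.e (nat_lit 573477) (nat_lit 12) (.e (nat_lit 57574) (nat_lit 55) (.e (nat_lit 778366) (nat_lit 9) .nil))))))) (.g (nat_lit 6) .nil .nil))) 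
(.lf (nat_lit 4141) (.g (nat_lit 3617) (.e (nat_lit 251) (nat_lit 21) (.e (nat_lit 336204) (nat_lit 12) (.e (nat_lit 385074) (nat_lit 31) (.e (nat_lit 573482) (nat_lit 13) (.e (nat_lit 65616) (nat_lit 10) (.e (nat_lit 344133) (nat_lit 26) (.e (nat_lit 557068) (nat_lit 9) .nil))))))) (.g (nat_lit 5) .nil .nil)))) (.nd (nat_lit 5) 
(.lf (nat_lit 4125) (.g (nat_lit 2003) (.e (nat_lit 251) (nat_lit 21) (.e (nat_lit 336076) (nat_lit 9) (.e (nat_lit 336454) (nat_lit 34) (.e (nat_lit 483366) (nat_lit 18) (.e (nat_lit 57854) (nat_lit 252) (.e (nat_lit 57373) (nat_lit 2) (.e (nat_lit 90130) (nat_lit 9) .nil))))))) (.g (nat_lit 4) .nil .nil))) 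
(.lf (nat_lit 4157) (.g (nat_lit 2159) (.e (nat_lit 251) (nat_lit 21) (.e (nat_lit 336223) (nat_lit 13) (.e (nat_lit 393234) (nat_lit 17) (.e (nat_lit 7587) (nat_lit 406) (.e (nat_lit 65580) (nat_lit 6) .nil))))) .nil)))))) (.nd (nat_lit 2) (.nd (nat_lit 3) (.nd (nat_lit 4) (.nd (nat_lit 5) 
(.lf (nat_lit 4099) (.g (nat_lit 2168) (.e (nat_lit 251) (nat_lit 21) (.e (nat_lit 336027) (nat_lit 3) (.e (nat_lit 98372) (nat_lit 29) (.e (nat_lit 450586) (nat_lit 10) (.e (nat_lit 573477) (nat_lit 12) (.e (nat_lit 57575) (nat_lit 55) (.e (nat_lit 786176) (nat_lit 9) .nil))))))) (.g (nat_lit 4) .nil .nil))) 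
(.lf (nat_lit 4131) (.g (nat_lit 2566) (.e (nat_lit 251) (nat_lit 21) (.e (nat_lit 336163) (nat_lit 10) (.e (nat_lit 344126) (nat_lit 25) (.e (nat_lit 548874) (nat_lit 5) (.e (nat_lit 1598) (nat_lit 111) (.e (nat_lit 360473) (nat_lit 8) (.e (nat_lit 557068) (nat_lit 9) .nil))))))) (.g (nat_lit 6) .nil .nil)))) (.nd (nat_lit 5) 
(.lf (nat_lit 4115) (.g (nat_lit 3994) (.e (nat_lit 251) (nat_lit 21) (.e (nat_lit 336027) (nat_lit 3) (.e (nat_lit 98373) (nat_lit 29) (.e (nat_lit 450587) (nat_lit 10) (.e (nat_lit 573478) (nat_lit 12) (.e (nat_lit 57574) (nat_lit 55) (.e (nat_lit 778359) (nat_lit 9) .nil))))))) (.g (nat_lit 7) .nil .nil))) 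
(.lf (nat_lit 4147) (.g (nat_lit 3465) (.e (nat_lit 251) (nat_lit 21) (.e (nat_lit 336204) (nat_lit 12) (.e (nat_lit 385074) (nat_lit 31) (.e (nat_lit 573485) (nat_lit 13) (.e (nat_lit 65619) (nat_lit 10) (.e (nat_lit 344129) (nat_lit 26) (.e (nat_lit 557069) (nat_lit 9) .nil))))))) (.g (nat_lit 5) .nil .nil))))) (.nd (nat_lit 4) (.nd (nat_lit 5) 
(.lf (nat_lit 4107) (.g (nat_lit 2896) (.e (nat_lit 251) (nat_lit 21) (.e (nat_lit 336027) (nat_lit 3) (.e (nat_lit 98373) (nat_lit 29) (.e (nat_lit 450587) (nat_lit 10) (.e (nat_lit 573477) (nat_lit 12) (.e (nat_lit 57574) (nat_lit 55) (.e (nat_lit 778353) (nat_lit 9) .nil))))))) (.g (nat_lit 4) .nil .nil))) 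
(.lf (nat_lit 4139) (.g (nat_lit 1967) (.e (nat_lit 251) (nat_lit 21) (.e (nat_lit 336204) (nat_lit 12) (.e (nat_lit 385074) (nat_lit 31) (.e (nat_lit 573482) (nat_lit 13) .nil)))) .nil))) (.nd (nat_lit 5) 
(.lf (nat_lit 4123) (.g (nat_lit 1615) (.e (nat_lit 251) (nat_lit 21) (.e (nat_lit 336076) (nat_lit 9) (.e (nat_lit 336454) (nat_lit 34) (.e (nat_lit 483365) (nat_lit 18) (.e (nat_lit 57848) (nat_lit 252) (.e (nat_lit 57375) (nat_lit 2) (.e (nat_lit 90130) (nat_lit 9) .nil))))))) (.g (nat_lit 4) .nil .nil))) 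
(.lf (nat_lit 4155) (.g (nat_lit 1817) (.e (nat_lit 251) (nat_lit 21) (.e (nat_lit 336223) (nat_lit 13) (.e (nat_lit 393225) (nat_lit 9) (.e (nat_lit 335995) (nat_lit 1) (.e (nat_lit 57848) (nat_lit 252) (.e (nat_lit 57372) (nat_lit 2) (.e (nat_lit 90130) (nat_lit 9) .nil))))))) (.g (nat_lit 4) .nil .nil)))))) (.nd (nat_lit 3) (.nd (nat_lit 4) (.nd (nat_lit 5) 
(.lf (nat_lit 4103) (.g (nat_lit 2347) (.e (nat_lit 251) (nat_lit 21) (.e (nat_lit 336027) (nat_lit 3) (.e (nat_lit 98372) (nat_lit 29) (.e (nat_lit 450586) (nat_lit 10) (.e (nat_lit 573478) (nat_lit 12) (.e (nat_lit 57574) (nat_lit 55) (.e (nat_lit 778365) (nat_lit 9) .nil))))))) (.g (nat_lit 5) .nil .nil))) 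
(.lf (nat_lit 4135) (.g (nat_lit 3276) (.e (nat_lit 251) (nat_lit 21) (.e (nat_lit 336204) (nat_lit 12) (.e (nat_lit 385074) (nat_lit 31) (.e (nat_lit 573452) (nat_lit 9) .nil)))) .nil))) (.nd (nat_lit 5) 
(.lf (nat_lit 4119) (.g (nat_lit 2774) (.e (nat_lit 251) (nat_lit 21) (.e (nat_lit 336027) (nat_lit 3) (.e (nat_lit 98373) (nat_lit 29) (.e (nat_lit 450588) (nat_lit 10) (.e (nat_lit 573473) (nat_lit 12) .nil))))) .nil)) 
(.lf (nat_lit 4151) (.g (nat_lit 2044) (.e (nat_lit 251) (nat_lit 21) (.e (nat_lit 336213) (nat_lit 13) (.e (nat_lit 393225) (nat_lit 9) (.e (nat_lit 335995) (nat_lit 1) (.e (nat_lit 57848) (nat_lit 252) (.e (nat_lit 57372) (nat_lit 2) (.e (nat_lit 90127) (nat_lit 9) .nil))))))) (.g (nat_lit 4) .nil .nil))))) (.nd (nat_lit 4) (.nd (nat_lit 5) 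
(.lf (nat_lit 4111) (.g (nat_lit 4757) (.e (nat_lit 251) (nat_lit 21) (.e (nat_lit 336027) (nat_lit 3) (.e (nat_lit 98373) (nat_lit 29) (.e (nat_lit 450587) (nat_lit 10) (.e (nat_lit 573477) (nat_lit 12) (.e (nat_lit 57575) (nat_lit 55) (.e (nat_lit 778364) (nat_lit 9) .nil))))))) (.g (nat_lit 7) .nil .nil))) 
(.lf (nat_lit 4143) (.g (nat_lit 3071) (.e (nat_lit 251) (nat_lit 21) (.e (nat_lit 336204) (nat_lit 12) (.e (nat_lit 385074) (nat_lit 31) (.e (nat_lit 573482) (nat_lit 13) (.e (nat_lit 65619) (nat_lit 10) (.e (nat_lit 344129) (nat_lit 26) (.e (nat_lit 557069) (nat_lit 9) .nil))))))) (.g (nat_lit 4) .nil .nil)))) (.nd (nat_lit 5) 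
(.lf (nat_lit 4127) (.g (nat_lit 1945) (.e (nat_lit 251) (nat_lit 21) (.e (nat_lit 336078) (nat_lit 9) (.e (nat_lit 336454) (nat_lit 34) (.e (nat_lit 483365) (nat_lit 18) (.e (nat_lit 57849) (nat_lit 252) (.e (nat_lit 57372) (nat_lit 2) (.e (nat_lit 90131) (nat_lit 9) .nil))))))) (.g (nat_lit 4) .nil .nil))) 
(.lf (nat_lit 4159) (.g (nat_lit 2204) (.e (nat_lit 251) (nat_lit 21) (.e (nat_lit 336223) (nat_lit 13) (.e (nat_lit 393234) (nat_lit 17) (.e (nat_lit 7587) (nat_lit 406) (.e (nat_lit 65580) (nat_lit 6) (.e (nat_lit 147470) (nat_lit 9) .nil)))))) (.g (nat_lit 4) .nil .nil)))))))))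

noncomputable def tv056 : DT := (.nd (nat_lit 0) (.nd (nat_lit 1) (.nd (nat_lit 2) (.nd (nat_lit 3) (.nd (nat_lit 4) (.nd (nat_lit 5) 
(.lf (nat_lit 4160) (.g (nat_lit 1797) (.e (nat_lit 251) (nat_lit 21) (.e (nat_lit 336223) (nat_lit 13) (.e (nat_lit 393234) (nat_lit 17) (.e (nat_lit 7591) (nat_lit 407) (.e (nat_lit 73775) (nat_lit 26) .nil))))) .nil)) 
(.lf (nat_lit 4192) (.g (nat_lit 3790) (.e (nat_lit 252) (nat_lit 21) (.e (nat_lit 336009) (nat_lit 2) (.e (nat_lit 90170) (nat_lit 13) (.e (nat_lit 172113) (nat_lit 10) (.e (nat_lit 434247) (nat_lit 28) (.e (nat_lit 573477) (nat_lit 12) (.e (nat_lit 57574) (nat_lit 55) (.e (nat_lit 778361) (nat_lit 9) .nil)))))))) (.g (nat_lit 6) .nil .nil)))) (.nd (nat_lit 5) 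
(.lf (nat_lit 4176) (.g (nat_lit 2142) (.e (nat_lit 251) (nat_lit 21) (.e (nat_lit 336223) (nat_lit 13) (.e (nat_lit 393301) (nat_lit 27) (.e (nat_lit 491556) (nat_lit 9) .nil)))) .nil)) 
(.lf (nat_lit 4208) (.g (nat_lit 2700) (.e (nat_lit 252) (nat_lit 21) (.e (nat_lit 336027) (nat_lit 3) (.e (nat_lit 98373) (nat_lit 29) (.e (nat_lit 450587) (nat_lit 10) (.e (nat_lit 573478) (nat_lit 12) (.e (nat_lit 57574) (nat_lit 55) (.e (nat_lit 778359) (nat_lit 9) .nil))))))) (.g (nat_lit 4) .nil .nil))))) (.nd (nat_lit 4) (.nd (nat_lit 5) 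
(.lf (nat_lit 4168) (.g (nat_lit 2622) (.e (nat_lit 251) (nat_lit 21) (.e (nat_lit 336223) (nat_lit 13) (.e (nat_lit 393234) (nat_lit 17) (.e (nat_lit 7591) (nat_lit 407) (.e (nat_lit 73776) (nat_lit 26) (.e (nat_lit 778366) (nat_lit 9) .nil)))))) (.g (nat_lit 5) .nil .nil))) 
(.lf (nat_lit 4200) (.g (nat_lit 1128) (.e (nat_lit 252) (nat_lit 21) (.e (nat_lit 336021) (nat_lit 3) (.e (nat_lit 98313) (nat_lit 9) .nil))) .nil))) (.nd (nat_lit 5) 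
(.lf (nat_lit 4184) (.g (nat_lit 3396) (.e (nat_lit 251) (nat_lit 21) (.e (nat_lit 336223) (nat_lit 13) (.e (nat_lit 393301) (nat_lit 27) (.e (nat_lit 491560) (nat_lit 10) (.e (nat_lit 344179) (nat_lit 44) (.e (nat_lit 778363) (nat_lit 9) .nil)))))) (.g (nat_lit 0) .nil .nil))) 
(.lf (nat_lit 4216) (.g (nat_lit 2839) (.e (nat_lit 252) (nat_lit 21) (.e (nat_lit 336213) (nat_lit 13) (.e (nat_lit 393300) (nat_lit 27) (.e (nat_lit 491556) (nat_lit 9) (.e (nat_lit 336051) (nat_lit 6) .nil))))) .nil))))) (.nd (nat_lit 3) (.nd (nat_lit 4) (.nd (nat_lit 5) 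
(.lf (nat_lit 4164) (.g (nat_lit 2072) (.e (nat_lit 251) (nat_lit 21) (.e (nat_lit 336223) (nat_lit 13) (.e (nat_lit 393234) (nat_lit 17) (.e (nat_lit 7591) (nat_lit 407) (.e (nat_lit 73776) (nat_lit 26) .nil))))) .nil)) 
(.lf (nat_lit 4196) (.g (nat_lit 3239) (.e (nat_lit 252) (nat_lit 21) (.e (nat_lit 336011) (nat_lit 2) (.e (nat_lit 90170) (nat_lit 13) (.e (nat_lit 172113) (nat_lit 10) (.e (nat_lit 434247) (nat_lit 28) (.e (nat_lit 573477) (nat_lit 12) (.e (nat_lit 57574) (nat_lit 55) (.e (nat_lit 778359) (nat_lit 9) .nil)))))))) (.g (nat_lit 4) .nil .nil)))) (.nd (nat_lit 5) 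
(.lf (nat_lit 4180) (.g (nat_lit 3119) (.e (nat_lit 251) (nat_lit 21) (.e (nat_lit 336223) (nat_lit 13) (.e (nat_lit 393301) (nat_lit 27) (.e (nat_lit 491558) (nat_lit 10) (.e (nat_lit 344180) (nat_lit 44) (.e (nat_lit 778365) (nat_lit 9) .nil)))))) (.g (nat_lit 5) .nil .nil))) 
(.lf (nat_lit 4212) (.g (nat_lit 2960) (.e (nat_lit 252) (nat_lit 21) (.e (nat_lit 336204) (nat_lit 12) (.e (nat_lit 385074) (nat_lit 31) (.e (nat_lit 573482) (nat_lit 13) .nil)))) .nil)))) (.nd (nat_lit 4) (.nd (nat_lit 5) 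
(.lf (nat_lit 4172) (.g (nat_lit 1895) (.e (nat_lit 251) (nat_lit 21) (.e (nat_lit 336223) (nat_lit 13) (.e (nat_lit 393234) (nat_lit 17) (.e (nat_lit 7593) (nat_lit 407) (.e (nat_lit 73775) (nat_lit 26) (.e (nat_lit 778363) (nat_lit 9) .nil)))))) (.g (nat_lit 4) .nil .nil))) 
(.lf (nat_lit 4204) (.g (nat_lit 2118) (.e (nat_lit 252) (nat_lit 21) (.e (nat_lit 336027) (nat_lit 3) (.e (nat_lit 98372) (nat_lit 29) (.e (nat_lit 450586) (nat_lit 10) (.e (nat_lit 573477) (nat_lit 12) .nil))))) .nil))) (.nd (nat_lit 5) 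
(.lf (nat_lit 4188) (.g (nat_lit 2152) (.e (nat_lit 251) (nat_lit 21) (.e (nat_lit 336226) (nat_lit 14) (.e (nat_lit 401425) (nat_lit 2) (.e (nat_lit 196666) (nat_lit 13) (.e (nat_lit 65617) (nat_lit 10) (.e (nat_lit 344133) (nat_lit 26) (.e (nat_lit 557068) (nat_lit 9) .nil))))))) (.g (nat_lit 4) .nil .nil))) 
(.lf (nat_lit 4220) (.g (nat_lit 2989) (.e (nat_lit 252) (nat_lit 21) (.e (nat_lit 336223) (nat_lit 13) (.e (nat_lit 393301) (nat_lit 27) (.e (nat_lit 491560) (nat_lit 10) (.e (nat_lit 344179) (nat_lit 44) (.e (nat_lit 778361) (nat_lit 9) .nil)))))) (.g (nat_lit 4) .nil .nil))))))) (.nd (nat_lit 2) (.nd (nat_lit 3) (.nd (nat_lit 4) (.nd (nat_lit 5) 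
(.lf (nat_lit 4162) (.g (nat_lit 1867) (.e (nat_lit 251) (nat_lit 21) (.e (nat_lit 336223) (nat_lit 13) (.e (nat_lit 393234) (nat_lit 17) (.e (nat_lit 7591) (nat_lit 407) (.e (nat_lit 73775) (nat_lit 26) (.e (nat_lit 778363) (nat_lit 9) .nil)))))) (.g (nat_lit 4) .nil .nil))) 
(.lf (nat_lit 4194) (.g (nat_lit 3464) (.e (nat_lit 252) (nat_lit 21) (.e (nat_lit 336011) (nat_lit 2) (.e (nat_lit 90170) (nat_lit 13) (.e (nat_lit 172113) (nat_lit 10) (.e (nat_lit 434245) (nat_lit 28) (.e (nat_lit 573474) (nat_lit 12) (.e (nat_lit 57574) (nat_lit 55) (.e (nat_lit 778359) (nat_lit 9) .nil)))))))) (.g (nat_lit 4) .nil .nil)))) (.nd (nat_lit 5) 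
(.lf (nat_lit 4178) (.g (nat_lit 3049) (.e (nat_lit 251) (nat_lit 21) (.e (nat_lit 336223) (nat_lit 13) (.e (nat_lit 393301) (nat_lit 27) (.e (nat_lit 491558) (nat_lit 10) (.e (nat_lit 344180) (nat_lit 44) (.e (nat_lit 778363) (nat_lit 9) .nil)))))) (.g (nat_lit 4) .nil .nil))) 
(.lf (nat_lit 4210) (.g (nat_lit 4546) (.e (nat_lit 252) (nat_lit 21) (.e (nat_lit 336027) (nat_lit 3) (.e (nat_lit 98373) (nat_lit 29) (.e (nat_lit 450588) (nat_lit 10) (.e (nat_lit 573475) (nat_lit 12) (.e (nat_lit 57574) (nat_lit 55) (.e (nat_lit 778361) (nat_lit 9) .nil))))))) (.g (nat_lit 6) .nil .nil))))) (.nd (nat_lit 4) (.nd (nat_lit 5) 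
(.lf (nat_lit 4170) (.g (nat_lit 1699) (.e (nat_lit 251) (nat_lit 21) (.e (nat_lit 336223) (nat_lit 13) (.e (nat_lit 393234) (nat_lit 17) (.e (nat_lit 7593) (nat_lit 407) (.e (nat_lit 73775) (nat_lit 26) .nil))))) .nil)) 
(.lf (nat_lit 4202) (.g (nat_lit 1434) (.e (nat_lit 252) (nat_lit 21) (.e (nat_lit 336025) (nat_lit 3) (.e (nat_lit 98372) (nat_lit 29) (.e (nat_lit 450586) (nat_lit 10) (.e (nat_lit 573478) (nat_lit 12) .nil))))) .nil))) (.nd (nat_lit 5) 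
(.lf (nat_lit 4186) (.g (nat_lit 3326) (.e (nat_lit 251) (nat_lit 21) (.e (nat_lit 336223) (nat_lit 13) (.e (nat_lit 393301) (nat_lit 27) (.e (nat_lit 491560) (nat_lit 10) (.e (nat_lit 344179) (nat_lit 44) (.e (nat_lit 778365) (nat_lit 9) .nil)))))) (.g (nat_lit 0) .nil .nil))) 
(.lf (nat_lit 4218) (.g (nat_lit 2414) (.e (nat_lit 252) (nat_lit 21) (.e (nat_lit 336223) (nat_lit 13) (.e (nat_lit 393234) (nat_lit 17) (.e (nat_lit 7591) (nat_lit 407) (.e (nat_lit 73775) (nat_lit 26) .nil))))) .nil))))) (.nd (nat_lit 3) (.nd (nat_lit 4) (.nd (nat_lit 5) 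
(.lf (nat_lit 4166) (.g (nat_lit 2736) (.e (nat_lit 251) (nat_lit 21) (.e (nat_lit 336223) (nat_lit 13) (.e (nat_lit 393234) (nat_lit 17) (.e (nat_lit 7591) (nat_lit 407) (.e (nat_lit 73776) (nat_lit 26) (.e (nat_lit 778364) (nat_lit 9) .nil)))))) (.g (nat_lit 6) .nil .nil))) 
(.lf (nat_lit 4198) (.g (nat_lit 3285) (.e (nat_lit 252) (nat_lit 21) (.e (nat_lit 336011) (nat_lit 2) (.e (nat_lit 90170) (nat_lit 13) (.e (nat_lit 172113) (nat_lit 10) (.e (nat_lit 434247) (nat_lit 28) (.e (nat_lit 573477) (nat_lit 12) (.e (nat_lit 57575) (nat_lit 55) (.e (nat_lit 778359) (nat_lit 9) .nil)))))))) (.g (nat_lit 4) .nil .nil)))) (.nd (nat_lit 5) 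
(.lf (nat_lit 4182) (.g (nat_lit 2706) (.e (nat_lit 251) (nat_lit 21) (.e (nat_lit 336223) (nat_lit 13) (.e (nat_lit 393301) (nat_lit 27) (.e (nat_lit 491560) (nat_lit 10) (.e (nat_lit 344179) (nat_lit 44) (.e (nat_lit 778353) (nat_lit 9) .nil)))))) (.g (nat_lit 4) .nil .nil))) 
(.lf (nat_lit 4214) (.g (nat_lit 1949) (.e (nat_lit 252) (nat_lit 21) (.e (nat_lit 336213) (nat_lit 13) (.e (nat_lit 393225) (nat_lit 9) (.e (nat_lit 335995) (nat_lit 1) .nil)))) .nil)))) (.nd (nat_lit 4) (.nd (nat_lit 5) 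
(.lf (nat_lit 4174) (.g (nat_lit 1602) (.e (nat_lit 251) (nat_lit 21) (.e (nat_lit 336223) (nat_lit 13) (.e (nat_lit 393301) (nat_lit 27) (.e (nat_lit 491552) (nat_lit 9) .nil)))) .nil)) 
(.lf (nat_lit 4206) (.g (nat_lit 2096) (.e (nat_lit 252) (nat_lit 21) (.e (nat_lit 336027) (nat_lit 3) (.e (nat_lit 98372) (nat_lit 29) (.e (nat_lit 450586) (nat_lit 10) (.e (nat_lit 573478) (nat_lit 12) (.e (nat_lit 57574) (nat_lit 55) (.e (nat_lit 778359) (nat_lit 9) .nil))))))) (.g (nat_lit 4) .nil .nil)))) (.nd (nat_lit 5) 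
(.lf (nat_lit 4190) (.g (nat_lit 2846) (.e (nat_lit 251) (nat_lit 21) (.e (nat_lit 336229) (nat_lit 14) (.e (nat_lit 401425) (nat_lit 2) (.e (nat_lit 196666) (nat_lit 13) (.e (nat_lit 65617) (nat_lit 10) .nil))))) .nil)) 
(.lf (nat_lit 4222) (.g (nat_lit 3767) (.e (nat_lit 253) (nat_lit 21) (.e (nat_lit 335894) (nat_lit 0) (.e (nat_lit 6712) (nat_lit 360) (.e (nat_lit 163962) (nat_lit 25) (.e (nat_lit 532550) (nat_lit 12) (.e (nat_lit 360474) (nat_lit 8) (.e (nat_lit 557070) (nat_lit 9) .nil))))))) (.g (nat_lit 6) .nil .nil)))))))) 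
(.nd (nat_lit 1) (.nd (nat_lit 2) (.nd (nat_lit 3) (.nd (nat_lit 4) (.nd (nat_lit 5) 
(.lf (nat_lit 4161) (.g (nat_lit 2531) (.e (nat_lit 251) (nat_lit 21) (.e (nat_lit 336223) (nat_lit 13) (.e (nat_lit 393234) (nat_lit 17) (.e (nat_lit 7591) (nat_lit 407) (.e (nat_lit 73775) (nat_lit 26) (.e (nat_lit 778359) (nat_lit 9) .nil)))))) (.g (nat_lit 6) .nil .nil))) 
(.lf (nat_lit 4193) (.g (nat_lit 3287) (.e (nat_lit 252) (nat_lit 21) (.e (nat_lit 336009) (nat_lit 2) (.e (nat_lit 90170) (nat_lit 13) (.e (nat_lit 172113) (nat_lit 10) (.e (nat_lit 434248) (nat_lit 28) (.e (nat_lit 573475) (nat_lit 12) (.e (nat_lit 57574) (nat_lit 55) (.e (nat_lit 778359) (nat_lit 9) .nil)))))))) (.g (nat_lit 5) .nil .nil)))) (.nd (nat_lit 5) 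
(.lf (nat_lit 4177) (.g (nat_lit 2876) (.e (nat_lit 251) (nat_lit 21) (.e (nat_lit 336223) (nat_lit 13) (.e (nat_lit 393301) (nat_lit 27) (.e (nat_lit 491558) (nat_lit 10) (.e (nat_lit 344180) (nat_lit 44) .nil))))) .nil)) 
(.lf (nat_lit 4209) (.g (nat_lit 3758) (.e (nat_lit 252) (nat_lit 21) (.e (nat_lit 336027) (nat_lit 3) (.e (nat_lit 98373) (nat_lit 29) (.e (nat_lit 450587) (nat_lit 10) (.e (nat_lit 573478) (nat_lit 12) (.e (nat_lit 57574) (nat_lit 55) (.e (nat_lit 778361) (nat_lit 9) .nil))))))) (.g (nat_lit 6) .nil .nil))))) (.nd (nat_lit 4) (.nd (nat_lit 5) 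
(.lf (nat_lit 4169) (.g (nat_lit 1184) (.e (nat_lit 251) (nat_lit 21) (.e (nat_lit 336223) (nat_lit 13) (.e (nat_lit 393234) (nat_lit 17) (.e (nat_lit 7593) (nat_lit 407) .nil)))) .nil)) 
(.lf (nat_lit 4201) (.g (nat_lit 1492) (.e (nat_lit 252) (nat_lit 21) (.e (nat_lit 336025) (nat_lit 3) (.e (nat_lit 98372) (nat_lit 29) (.e (nat_lit 450586) (nat_lit 10) (.e (nat_lit 573477) (nat_lit 12) (.e (nat_lit 57574) (nat_lit 55) (.e (nat_lit 778359) (nat_lit 9) .nil))))))) (.g (nat_lit 4) .nil .nil)))) (.nd (nat_lit 5) 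
(.lf (nat_lit 4185) (.g (nat_lit 3384) (.e (nat_lit 251) (nat_lit 21) (.e (nat_lit 336223) (nat_lit 13) (.e (nat_lit 393301) (nat_lit 27) (.e (nat_lit 491560) (nat_lit 10) (.e (nat_lit 344179) (nat_lit 44) (.e (nat_lit 778364) (nat_lit 9) .nil)))))) (.g (nat_lit 6) .nil .nil))) 
(.lf (nat_lit 4217) (.g (nat_lit 1814) (.e (nat_lit 252) (nat_lit 21) (.e (nat_lit 336223) (nat_lit 13) (.e (nat_lit 393234) (nat_lit 17) (.e (nat_lit 7591) (nat_lit 407) .nil)))) .nil))))) (.nd (nat_lit 3) (.nd (nat_lit 4) (.nd (nat_lit 5) 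
(.lf (nat_lit 4165) (.g (nat_lit 2711) (.e (nat_lit 251) (nat_lit 21) (.e (nat_lit 336223) (nat_lit 13) (.e (nat_lit 393234) (nat_lit 17) (.e (nat_lit 7591) (nat_lit 407) (.e (nat_lit 73776) (nat_lit 26) (.e (nat_lit 778363) (nat_lit 9) .nil)))))) (.g (nat_lit 6) .nil .nil))) 
(.lf (nat_lit 4197) (.g (nat_lit 4154) (.e (nat_lit 252) (nat_lit 21) (.e (nat_lit 336011) (nat_lit 2) (.e (nat_lit 90170) (nat_lit 13) (.e (nat_lit 172113) (nat_lit 10) (.e (nat_lit 434247) (nat_lit 28) (.e (nat_lit 573477) (nat_lit 12) (.e (nat_lit 57574) (nat_lit 55) (.e (nat_lit 778361) (nat_lit 9) .nil)))))))) (.g (nat_lit 5) .nil .nil)))) (.nd (nat_lit 5) 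
(.lf (nat_lit 4181) (.g (nat_lit 1097) (.e (nat_lit 251) (nat_lit 21) (.e (nat_lit 336223) (nat_lit 13) (.e (nat_lit 393301) (nat_lit 27) (.e (nat_lit 491559) (nat_lit 10) .nil)))) .nil)) 
(.lf (nat_lit 4213) (.g (nat_lit 3761) (.e (nat_lit 252) (nat_lit 21) (.e (nat_lit 336204) (nat_lit 12) (.e (nat_lit 385074) (nat_lit 31) (.e (nat_lit 573485) (nat_lit 13) (.e (nat_lit 65619) (nat_lit 10) .nil))))) .nil)))) (.nd (nat_lit 4) (.nd (nat_lit 5) 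
(.lf (nat_lit 4173) (.g (nat_lit 1590) (.e (nat_lit 251) (nat_lit 21) (.e (nat_lit 336223) (nat_lit 13) (.e (nat_lit 393301) (nat_lit 27) (.e (nat_lit 491546) (nat_lit 9) .nil)))) .nil)) 
(.lf (nat_lit 4205) (.g (nat_lit 2173) (.e (nat_lit 252) (nat_lit 21) (.e (nat_lit 336027) (nat_lit 3) (.e (nat_lit 98372) (nat_lit 29) (.e (nat_lit 450586) (nat_lit 10) (.e (nat_lit 573477) (nat_lit 12) (.e (nat_lit 57574) (nat_lit 55) (.e (nat_lit 778359) (nat_lit 9) .nil))))))) (.g (nat_lit 4) .nil .nil)))) (.nd (nat_lit 5) 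
(.lf (nat_lit 4189) (.g (nat_lit 2139) (.e (nat_lit 251) (nat_lit 21) (.e (nat_lit 336226) (nat_lit 14) (.e (nat_lit 401428) (nat_lit 3) (.e (nat_lit 204868) (nat_lit 29) (.e (nat_lit 360473) (nat_lit 8) (.e (nat_lit 557068) (nat_lit 9) .nil)))))) (.g (nat_lit 5) .nil .nil))) 
(.lf (nat_lit 4221) (.g (nat_lit 4159) (.e (nat_lit 252) (nat_lit 21) (.e (nat_lit 336226) (nat_lit 14) (.e (nat_lit 401459) (nat_lit 13) (.e (nat_lit 483372) (nat_lit 21) (.e (nat_lit 319504) (nat_lit 10) .nil))))) .nil)))))) (.nd (nat_lit 2) (.nd (nat_lit 3) (.nd (nat_lit 4) (.nd (nat_lit 5) 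
(.lf (nat_lit 4163) (.g (nat_lit 1964) (.e (nat_lit 251) (nat_lit 21) (.e (nat_lit 336223) (nat_lit 13) (.e (nat_lit 393234) (nat_lit 17) (.e (nat_lit 7591) (nat_lit 407) (.e (nat_lit 73775) (nat_lit 26) (.e (nat_lit 778365) (nat_lit 9) .nil)))))) (.g (nat_lit 4) .nil .nil))) 
(.lf (nat_lit 4195) (.g (nat_lit 3182) (.e (nat_lit 252) (nat_lit 21) (.e (nat_lit 336011) (nat_lit 2) (.e (nat_lit 90170) (nat_lit 13) (.e (nat_lit 172113) (nat_lit 10) (.e (nat_lit 434247) (nat_lit 28) .nil))))) .nil))) (.nd (nat_lit 5) 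
(.lf (nat_lit 4179) (.g (nat_lit 2973) (.e (nat_lit 251) (nat_lit 21) (.e (nat_lit 336223) (nat_lit 13) (.e (nat_lit 393301) (nat_lit 27) (.e (nat_lit 491558) (nat_lit 10) (.e (nat_lit 344180) (nat_lit 44) (.e (nat_lit 778364) (nat_lit 9) .nil)))))) (.g (nat_lit 4) .nil .nil))) 
(.lf (nat_lit 4211) (.g (nat_lit 2129) (.e (nat_lit 252) (nat_lit 21) (.e (nat_lit 336078) (nat_lit 9) (.e (nat_lit 336454) (nat_lit 34) (.e (nat_lit 483365) (nat_lit 18) (.e (nat_lit 57849) (nat_lit 252) (.e (nat_lit 57372) (nat_lit 2) (.e (nat_lit 90128) (nat_lit 9) .nil))))))) (.g (nat_lit 4) .nil .nil))))) (.nd (nat_lit 4) (.nd (nat_lit 5) 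
(.lf (nat_lit 4171) (.g (nat_lit 2511) (.e (nat_lit 251) (nat_lit 21) (.e (nat_lit 336223) (nat_lit 13) (.e (nat_lit 393234) (nat_lit 17) (.e (nat_lit 7593) (nat_lit 407) (.e (nat_lit 73775) (nat_lit 26) (.e (nat_lit 778359) (nat_lit 9) .nil)))))) (.g (nat_lit 0) .nil .nil))) 
(.lf (nat_lit 4203) (.g (nat_lit 3599) (.e (nat_lit 252) (nat_lit 21) (.e (nat_lit 336027) (nat_lit 3) (.e (nat_lit 98372) (nat_lit 29) (.e (nat_lit 450586) (nat_lit 10) (.e (nat_lit 573475) (nat_lit 12) (.e (nat_lit 57574) (nat_lit 55) (.e (nat_lit 778361) (nat_lit 9) .nil))))))) (.g (nat_lit 6) .nil .nil)))) (.nd (nat_lit 5) 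
(.lf (nat_lit 4187) (.g (nat_lit 3393) (.e (nat_lit 251) (nat_lit 21) (.e (nat_lit 336223) (nat_lit 13) (.e (nat_lit 393301) (nat_lit 27) (.e (nat_lit 491560) (nat_lit 10) (.e (nat_lit 344179) (nat_lit 44) (.e (nat_lit 778366) (nat_lit 9) .nil)))))) (.g (nat_lit 0) .nil .nil))) 
(.lf (nat_lit 4219) (.g (nat_lit 2311) (.e (nat_lit 252) (nat_lit 21) (.e (nat_lit 336223) (nat_lit 13) (.e (nat_lit 393234) (nat_lit 17) (.e (nat_lit 7593) (nat_lit 407) (.e (nat_lit 73775) (nat_lit 26) .nil))))) .nil))))) (.nd (nat_lit 3) (.nd (nat_lit 4) (.nd (nat_lit 5) 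
(.lf (nat_lit 4167) (.g (nat_lit 2745) (.e (nat_lit 251) (nat_lit 21) (.e (nat_lit 336223) (nat_lit 13) (.e (nat_lit 393234) (nat_lit 17) (.e (nat_lit 7591) (nat_lit 407) (.e (nat_lit 73776) (nat_lit 26) (.e (nat_lit 778365) (nat_lit 9) .nil)))))) (.g (nat_lit 0) .nil .nil))) 
(.lf (nat_lit 4199) (.g (nat_lit 3961) (.e (nat_lit 252) (nat_lit 21) (.e (nat_lit 336011) (nat_lit 2) (.e (nat_lit 90170) (nat_lit 13) (.e (nat_lit 172113) (nat_lit 10) (.e (nat_lit 434247) (nat_lit 28) (.e (nat_lit 573478) (nat_lit 12) (.e (nat_lit 57574) (nat_lit 55) (.e (nat_lit 778361) (nat_lit 9) .nil)))))))) (.g (nat_lit 5) .nil .nil)))) (.nd (nat_lit 5) 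
(.lf (nat_lit 4183) (.g (nat_lit 3403) (.e (nat_lit 251) (nat_lit 21) (.e (nat_lit 336223) (nat_lit 13) (.e (nat_lit 393301) (nat_lit 27) (.e (nat_lit 491560) (nat_lit 10) (.e (nat_lit 344179) (nat_lit 44) (.e (nat_lit 778359) (nat_lit 9) .nil)))))) (.g (nat_lit 0) .nil .nil))) 
(.lf (nat_lit 4215) (.g (nat_lit 871) (.e (nat_lit 252) (nat_lit 21) (.e (nat_lit 336213) (nat_lit 13) (.e (nat_lit 393233) (nat_lit 17) .nil))) .nil)))) (.nd (nat_lit 4) (.nd (nat_lit 5) 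
(.lf (nat_lit 4175) (.g (nat_lit 2302) (.e (nat_lit 251) (nat_lit 21) (.e (nat_lit 336223) (nat_lit 13) (.e (nat_lit 393301) (nat_lit 27) (.e (nat_lit 491552) (nat_lit 9) (.e (nat_lit 336050) (nat_lit 6) .nil))))) .nil)) 
(.lf (nat_lit 4207) (.g (nat_lit 3574) (.e (nat_lit 252) (nat_lit 21) (.e (nat_lit 336027) (nat_lit 3) (.e (nat_lit 98372) (nat_lit 29) (.e (nat_lit 450588) (nat_lit 10) (.e (nat_lit 573475) (nat_lit 12) (.e (nat_lit 57574) (nat_lit 55) (.e (nat_lit 778361) (nat_lit 9) .nil))))))) (.g (nat_lit 4) .nil .nil)))) (.nd (nat_lit 5) 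
(.lf (nat_lit 4191) (.g (nat_lit 3182) (.e (nat_lit 252) (nat_lit 21) (.e (nat_lit 336009) (nat_lit 2) (.e (nat_lit 90170) (nat_lit 13) (.e (nat_lit 172113) (nat_lit 10) (.e (nat_lit 434245) (nat_lit 28) (.e (nat_lit 573474) (nat_lit 12) (.e (nat_lit 57574) (nat_lit 55) (.e (nat_lit 778359) (nat_lit 9) .nil)))))))) (.g (nat_lit 5) .nil .nil))) 
(.lf (nat_lit 4223) (.g (nat_lit 701) (.e (nat_lit 253) (nat_lit 21) (.e (nat_lit 335894) (nat_lit 0) (.e (nat_lit 6714) (nat_lit 360) .nil))) .nil))))))))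

noncomputable def tv057 : DT := (.nd (nat_lit 0) (.nd (nat_lit 1) (.nd (nat_lit 2) (.nd (nat_lit 3) (.nd (nat_lit 4) (.nd (nat_lit 5) (.nd (nat_lit 6) 
(.lf (nat_lit 4224) (.g (nat_lit 1843) (.e (nat_lit 253) (nat_lit 21) (.e (nat_lit 336004) (nat_lit 2) (.e (nat_lit 90158) (nat_lit 11) (.e (nat_lit 24607) (nat_lit 3) .nil)))) .nil)) 
(.lf (nat_lit 4288) (.g (nat_lit 642) (.e (nat_lit 253) (nat_lit 21) (.e (nat_lit 336232) (nat_lit 14) (.e (nat_lit 401424) (nat_lit 2) .nil))) .nil))) (.nd (nat_lit 6) 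
(.lf (nat_lit 4256) (.g (nat_lit 2646) (.e (nat_lit 253) (nat_lit 21) (.e (nat_lit 336078) (nat_lit 9) (.e (nat_lit 336454) (nat_lit 34) (.e (nat_lit 483365) (nat_lit 18) (.e (nat_lit 57852) (nat_lit 252) (.e (nat_lit 57373) (nat_lit 2) (.e (nat_lit 90133) (nat_lit 9) .nil))))))) (.g (nat_lit 6) .nil .nil))) 
(.lf (nat_lit 4320) (.g (nat_lit 3081) (.e (nat_lit 254) (nat_lit 21) (.e (nat_lit 336223) (nat_lit 13) (.e (nat_lit 393301) (nat_lit 27) (.e (nat_lit 491556) (nat_lit 9) (.e (nat_lit 336051) (nat_lit 6) .nil))))) .nil)))) (.nd (nat_lit 5) (.nd (nat_lit 6) 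
(.lf (nat_lit 4240) (.g (nat_lit 2700) (.e (nat_lit 253) (nat_lit 21) (.e (nat_lit 336021) (nat_lit 3) (.e (nat_lit 98317) (nat_lit 9) (.e (nat_lit 336021) (nat_lit 3) (.e (nat_lit 98313) (nat_lit 9) (.e (nat_lit 336012) (nat_lit 2) (.e (nat_lit 90133) (nat_lit 9) .nil))))))) (.g (nat_lit 4) .nil .nil))) 
(.lf (nat_lit 4304) (.g (nat_lit 2067) (.e (nat_lit 254) (nat_lit 21) (.e (nat_lit 336078) (nat_lit 9) (.e (nat_lit 336454) (nat_lit 34) (.e (nat_lit 483363) (nat_lit 18) (.e (nat_lit 57847) (nat_lit 252) .nil))))) .nil))) (.nd (nat_lit 6) 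
(.lf (nat_lit 4272) (.g (nat_lit 3942) (.e (nat_lit 253) (nat_lit 21) (.e (nat_lit 336215) (nat_lit 13) (.e (nat_lit 393229) (nat_lit 9) (.e (nat_lit 335995) (nat_lit 1) (.e (nat_lit 57849) (nat_lit 252) (.e (nat_lit 57372) (nat_lit 2) (.e (nat_lit 90133) (nat_lit 9) .nil))))))) (.g (nat_lit 0) .nil .nil))) 
(.lf (nat_lit 4336) (.g (nat_lit 5141) (.e (nat_lit 256) (nat_lit 21) (.e (nat_lit 336013) (nat_lit 2) (.e (nat_lit 90170) (nat_lit 13) (.e (nat_lit 172106) (nat_lit 10) (.e (nat_lit 434231) (nat_lit 23) (.e (nat_lit 532483) (nat_lit 0) (.e (nat_lit 1030) (nat_lit 81) (.e (nat_lit 4602) (nat_lit 269) (.e (nat_lit 2489) (nat_lit 157) .nil))))))))) (.g (nat_lit 8) .nil .nil)))))) 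
(.nd (nat_lit 4) (.nd (nat_lit 5) (.nd (nat_lit 6) 
(.lf (nat_lit 4232) (.g (nat_lit 3055) (.e (nat_lit 253) (nat_lit 21) (.e (nat_lit 336021) (nat_lit 3) (.e (nat_lit 98313) (nat_lit 9) (.e (nat_lit 336027) (nat_lit 3) (.e (nat_lit 98317) (nat_lit 9) (.e (nat_lit 336011) (nat_lit 2) (.e (nat_lit 90133) (nat_lit 9) .nil))))))) (.g (nat_lit 7) .nil .nil))) 
(.lf (nat_lit 4296) (.g (nat_lit 3151) (.e (nat_lit 254) (nat_lit 21) (.e (nat_lit 336011) (nat_lit 2) (.e (nat_lit 90170) (nat_lit 13) (.e (nat_lit 172113) (nat_lit 10) (.e (nat_lit 434247) (nat_lit 28) (.e (nat_lit 573477) (nat_lit 12) (.e (nat_lit 57574) (nat_lit 55) (.e (nat_lit 778360) (nat_lit 9) .nil)))))))) (.g (nat_lit 4) .nil .nil)))) (.nd (nat_lit 6) 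
(.lf (nat_lit 4264) (.g (nat_lit 2467) (.e (nat_lit 253) (nat_lit 21) (.e (nat_lit 336204) (nat_lit 12) (.e (nat_lit 385074) (nat_lit 31) (.e (nat_lit 573491) (nat_lit 15) (.e (nat_lit 81946) (nat_lit 20) .nil))))) .nil)) 
(.lf (nat_lit 4328) (.g (nat_lit 2179) (.e (nat_lit 255) (nat_lit 21) (.e (nat_lit 336221) (nat_lit 13) (.e (nat_lit 393301) (nat_lit 27) (.e (nat_lit 491556) (nat_lit 9) (.e (nat_lit 336051) (nat_lit 6) .nil))))) .nil)))) (.nd (nat_lit 5) (.nd (nat_lit 6) 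
(.lf (nat_lit 4248) (.g (nat_lit 3299) (.e (nat_lit 253) (nat_lit 21) (.e (nat_lit 336027) (nat_lit 3) (.e (nat_lit 98372) (nat_lit 29) (.e (nat_lit 450586) (nat_lit 10) (.e (nat_lit 573456) (nat_lit 9) (.e (nat_lit 1312) (nat_lit 98) (.e (nat_lit 147472) (nat_lit 9) .nil))))))) (.g (nat_lit 6) .nil .nil))) 
(.lf (nat_lit 4312) (.g (nat_lit 2168) (.e (nat_lit 254) (nat_lit 21) (.e (nat_lit 336213) (nat_lit 13) (.e (nat_lit 393299) (nat_lit 27) (.e (nat_lit 491556) (nat_lit 9) .nil)))) .nil))) (.nd (nat_lit 6) 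
(.lf (nat_lit 4280) (.g (nat_lit 1669) (.e (nat_lit 253) (nat_lit 21) (.e (nat_lit 336223) (nat_lit 13) (.e (nat_lit 393301) (nat_lit 27) (.e (nat_lit 491552) (nat_lit 9) .nil)))) .nil)) 
(.lf (nat_lit 4344) (.g (nat_lit 3821) (.e (nat_lit 256) (nat_lit 21) (.e (nat_lit 336013) (nat_lit 2) (.e (nat_lit 90170) (nat_lit 13) (.e (nat_lit 172113) (nat_lit 10) (.e (nat_lit 434245) (nat_lit 28) .nil))))) .nil)))))) (.nd (nat_lit 3) (.nd (nat_lit 4) (.nd (nat_lit 5) (.nd (nat_lit 6) 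
(.lf (nat_lit 4228) (.g (nat_lit 474) (.e (nat_lit 253) (nat_lit 21) (.e (nat_lit 336021) (nat_lit 3) (.e (nat_lit 98313) (nat_lit 9) .nil))) .nil)) 
(.lf (nat_lit 4292) (.g (nat_lit 3099) (.e (nat_lit 254) (nat_lit 21) (.e (nat_lit 336009) (nat_lit 2) (.e (nat_lit 90170) (nat_lit 13) (.e (nat_lit 172113) (nat_lit 10) (.e (nat_lit 434247) (nat_lit 28) (.e (nat_lit 573478) (nat_lit 12) (.e (nat_lit 57574) (nat_lit 55) (.e (nat_lit 778359) (nat_lit 9) .nil)))))))) (.g (nat_lit 5) .nil .nil)))) (.nd (nat_lit 6) 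
(.lf (nat_lit 4260) (.g (nat_lit 4169) (.e (nat_lit 253) (nat_lit 21) (.e (nat_lit 336204) (nat_lit 12) (.e (nat_lit 385074) (nat_lit 31) (.e (nat_lit 573456) (nat_lit 9) .nil)))) .nil)) 
(.lf (nat_lit 4324) (.g (nat_lit 622) (.e (nat_lit 255) (nat_lit 21) (.e (nat_lit 336088) (nat_lit 9) (.e (nat_lit 336438) (nat_lit 31) .nil))) .nil)))) (.nd (nat_lit 5) (.nd (nat_lit 6) 
(.lf (nat_lit 4244) (.g (nat_lit 2091) (.e (nat_lit 253) (nat_lit 21) (.e (nat_lit 336021) (nat_lit 3) (.e (nat_lit 98317) (nat_lit 9) (.e (nat_lit 336026) (nat_lit 3) .nil)))) .nil)) 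
(.lf (nat_lit 4308) (.g (nat_lit 3607) (.e (nat_lit 254) (nat_lit 21) (.e (nat_lit 336204) (nat_lit 12) (.e (nat_lit 385074) (nat_lit 31) (.e (nat_lit 573485) (nat_lit 13) (.e (nat_lit 65619) (nat_lit 10) .nil))))) .nil))) (.nd (nat_lit 6) 
(.lf (nat_lit 4276) (.g (nat_lit 1187) (.e (nat_lit 253) (nat_lit 21) (.e (nat_lit 336221) (nat_lit 13) (.e (nat_lit 393301) (nat_lit 27) (.e (nat_lit 491546) (nat_lit 9) .nil)))) .nil)) 
(.lf (nat_lit 4340) (.g (nat_lit 2640) (.e (nat_lit 256) (nat_lit 21) (.e (nat_lit 336013) (nat_lit 2) (.e (nat_lit 90170) (nat_lit 13) (.e (nat_lit 172106) (nat_lit 10) (.e (nat_lit 434231) (nat_lit 23) (.e (nat_lit 532498) (nat_lit 1) (.e (nat_lit 57776) (nat_lit 233) (.e (nat_lit 2517) (nat_lit 157) .nil)))))))) (.g (nat_lit 4) .nil .nil)))))) (.nd (nat_lit 4) (.nd (nat_lit 5) (.nd (nat_lit 6) 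
(.lf (nat_lit 4236) (.g (nat_lit 2184) (.e (nat_lit 253) (nat_lit 21) (.e (nat_lit 336021) (nat_lit 3) (.e (nat_lit 98317) (nat_lit 9) (.e (nat_lit 336003) (nat_lit 2) .nil)))) .nil)) 
(.lf (nat_lit 4300) (.g (nat_lit 3747) (.e (nat_lit 254) (nat_lit 21) (.e (nat_lit 336027) (nat_lit 3) (.e (nat_lit 98372) (nat_lit 29) (.e (nat_lit 450588) (nat_lit 10) (.e (nat_lit 573475) (nat_lit 12) .nil))))) .nil))) (.nd (nat_lit 6) 
(.lf (nat_lit 4268) (.g (nat_lit 523) (.e (nat_lit 253) (nat_lit 21) (.e (nat_lit 336215) (nat_lit 13) (.e (nat_lit 393229) (nat_lit 9) .nil))) .nil)) 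
(.lf (nat_lit 4332) (.g (nat_lit 2243) (.e (nat_lit 255) (nat_lit 21) (.e (nat_lit 336223) (nat_lit 13) (.e (nat_lit 393234) (nat_lit 17) (.e (nat_lit 7593) (nat_lit 407) (.e (nat_lit 73775) (nat_lit 26) .nil))))) .nil)))) (.nd (nat_lit 5) (.nd (nat_lit 6) 
(.lf (nat_lit 4252) (.g (nat_lit 3212) (.e (nat_lit 253) (nat_lit 21) (.e (nat_lit 336078) (nat_lit 9) (.e (nat_lit 336454) (nat_lit 34) (.e (nat_lit 483364) (nat_lit 18) (.e (nat_lit 57854) (nat_lit 252) (.e (nat_lit 57373) (nat_lit 2) (.e (nat_lit 90133) (nat_lit 9) .nil))))))) (.g (nat_lit 6) .nil .nil))) 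
(.lf (nat_lit 4316) (.g (nat_lit 2179) (.e (nat_lit 254) (nat_lit 21) (.e (nat_lit 336221) (nat_lit 13) (.e (nat_lit 393301) (nat_lit 27) (.e (nat_lit 491556) (nat_lit 9) (.e (nat_lit 336051) (nat_lit 6) .nil))))) .nil))) (.nd (nat_lit 6) 
(.lf (nat_lit 4284) (.g (nat_lit 3280) (.e (nat_lit 253) (nat_lit 21) (.e (nat_lit 336231) (nat_lit 14) (.e (nat_lit 401427) (nat_lit 3) (.e (nat_lit 204869) (nat_lit 29) (.e (nat_lit 360474) (nat_lit 8) (.e (nat_lit 557070) (nat_lit 9) .nil)))))) (.g (nat_lit 5) .nil .nil))) 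
(.lf (nat_lit 4348) (.g (nat_lit 2338) (.e (nat_lit 256) (nat_lit 21) (.e (nat_lit 336028) (nat_lit 3) (.e (nat_lit 98372) (nat_lit 29) (.e (nat_lit 450579) (nat_lit 5) (.e (nat_lit 532501) (nat_lit 1) (.e (nat_lit 57776) (nat_lit 233) (.e (nat_lit 2489) (nat_lit 157) .nil))))))) (.g (nat_lit 4) .nil .nil)))))))) (.nd (nat_lit 2) (.nd (nat_lit 3) (.nd (nat_lit 4) (.nd (nat_lit 5) (.nd (nat_lit 6) 
(.lf (nat_lit 4226) (.g (nat_lit 2290) (.e (nat_lit 253) (nat_lit 21) (.e (nat_lit 336011) (nat_lit 2) (.e (nat_lit 90170) (nat_lit 13) (.e (nat_lit 172106) (nat_lit 10) (.e (nat_lit 434244) (nat_lit 28) (.e (nat_lit 573451) (nat_lit 9) (.e (nat_lit 1310) (nat_lit 98) (.e (nat_lit 147472) (nat_lit 9) .nil)))))))) (.g (nat_lit 4) .nil .nil))) 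
(.lf (nat_lit 4290) (.g (nat_lit 2656) (.e (nat_lit 253) (nat_lit 21) (.e (nat_lit 336232) (nat_lit 14) (.e (nat_lit 401456) (nat_lit 13) (.e (nat_lit 483372) (nat_lit 21) (.e (nat_lit 319504) (nat_lit 10) (.e (nat_lit 7936) (nat_lit 312) .nil)))))) (.g (nat_lit 5) .nil .nil)))) (.nd (nat_lit 6) 
(.lf (nat_lit 4258) (.g (nat_lit 3977) (.e (nat_lit 253) (nat_lit 21) (.e (nat_lit 336078) (nat_lit 9) (.e (nat_lit 336454) (nat_lit 34) (.e (nat_lit 483365) (nat_lit 18) (.e (nat_lit 57854) (nat_lit 252) (.e (nat_lit 57373) (nat_lit 2) (.e (nat_lit 90133) (nat_lit 9) .nil))))))) (.g (nat_lit 7) .nil .nil))) 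
(.lf (nat_lit 4322) (.g (nat_lit 4289) (.e (nat_lit 254) (nat_lit 21) (.e (nat_lit 336226) (nat_lit 14) (.e (nat_lit 401459) (nat_lit 13) (.e (nat_lit 483372) (nat_lit 21) (.e (nat_lit 319504) (nat_lit 10) (.e (nat_lit 7936) (nat_lit 312) .nil)))))) (.g (nat_lit 4) .nil .nil))))) (.nd (nat_lit 5) (.nd (nat_lit 6) 
(.lf (nat_lit 4242) (.g (nat_lit 2126) (.e (nat_lit 253) (nat_lit 21) (.e (nat_lit 336021) (nat_lit 3) (.e (nat_lit 98317) (nat_lit 9) (.e (nat_lit 336025) (nat_lit 3) .nil)))) .nil)) 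
(.lf (nat_lit 4306) (.g (nat_lit 1667) (.e (nat_lit 254) (nat_lit 21) (.e (nat_lit 336078) (nat_lit 9) (.e (nat_lit 336454) (nat_lit 34) (.e (nat_lit 483365) (nat_lit 18) (.e (nat_lit 57854) (nat_lit 252) .nil))))) .nil))) (.nd (nat_lit 6) 
(.lf (nat_lit 4274) (.g (nat_lit 3680) (.e (nat_lit 253) (nat_lit 21) (.e (nat_lit 336215) (nat_lit 13) (.e (nat_lit 393229) (nat_lit 9) (.e (nat_lit 335996) (nat_lit 1) (.e (nat_lit 57854) (nat_lit 252) (.e (nat_lit 57371) (nat_lit 2) (.e (nat_lit 90133) (nat_lit 9) .nil))))))) (.g (nat_lit 6) .nil .nil))) 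
(.lf (nat_lit 4338) (.g (nat_lit 4493) (.e (nat_lit 256) (nat_lit 21) (.e (nat_lit 336013) (nat_lit 2) (.e (nat_lit 90170) (nat_lit 13) (.e (nat_lit 172106) (nat_lit 10) (.e (nat_lit 434231) (nat_lit 23) (.e (nat_lit 532483) (nat_lit 0) (.e (nat_lit 1036) (nat_lit 81) (.e (nat_lit 4602) (nat_lit 269) (.e (nat_lit 2517) (nat_lit 157) .nil))))))))) (.g (nat_lit 5) .nil .nil)))))) 
(.nd (nat_lit 4) (.nd (nat_lit 5) (.nd (nat_lit 6) 
(.lf (nat_lit 4234) (.g (nat_lit 797) (.e (nat_lit 253) (nat_lit 21) (.e (nat_lit 336021) (nat_lit 3) (.e (nat_lit 98317) (nat_lit 9) .nil))) .nil)) 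
(.lf (nat_lit 4298) (.g (nat_lit 1493) (.e (nat_lit 254) (nat_lit 21) (.e (nat_lit 336025) (nat_lit 3) (.e (nat_lit 98372) (nat_lit 29) (.e (nat_lit 450586) (nat_lit 10) (.e (nat_lit 573478) (nat_lit 12) (.e (nat_lit 57574) (nat_lit 55) (.e (nat_lit 778360) (nat_lit 9) .nil))))))) (.g (nat_lit 4) .nil .nil)))) (.nd (nat_lit 6) 
(.lf (nat_lit 4266) (.g (nat_lit 872) (.e (nat_lit 253) (nat_lit 21) (.e (nat_lit 336213) (nat_lit 13) (.e (nat_lit 393233) (nat_lit 17) .nil))) .nil)) 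
(.lf (nat_lit 4330) (.g (nat_lit 2368) (.e (nat_lit 255) (nat_lit 21) (.e (nat_lit 336223) (nat_lit 13) (.e (nat_lit 393234) (nat_lit 17) (.e (nat_lit 7591) (nat_lit 407) (.e (nat_lit 73775) (nat_lit 26) .nil))))) .nil)))) (.nd (nat_lit 5) (.nd (nat_lit 6) 
(.lf (nat_lit 4250) (.g (nat_lit 2387) (.e (nat_lit 253) (nat_lit 21) (.e (nat_lit 336077) (nat_lit 9) (.e (nat_lit 336454) (nat_lit 34) (.e (nat_lit 483365) (nat_lit 18) (.e (nat_lit 57851) (nat_lit 252) (.e (nat_lit 57371) (nat_lit 2) (.e (nat_lit 90133) (nat_lit 9) .nil))))))) (.g (nat_lit 4) .nil .nil))) 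
(.lf (nat_lit 4314) (.g (nat_lit 2996) (.e (nat_lit 254) (nat_lit 21) (.e (nat_lit 336213) (nat_lit 13) (.e (nat_lit 393300) (nat_lit 27) (.e (nat_lit 491556) (nat_lit 9) (.e (nat_lit 336051) (nat_lit 6) (.e (nat_lit 147466) (nat_lit 9) .nil)))))) (.g (nat_lit 4) .nil .nil)))) (.nd (nat_lit 6) 
(.lf (nat_lit 4282) (.g (nat_lit 4197) (.e (nat_lit 253) (nat_lit 21) (.e (nat_lit 336226) (nat_lit 14) (.e (nat_lit 401428) (nat_lit 3) (.e (nat_lit 204869) (nat_lit 29) (.e (nat_lit 360474) (nat_lit 8) (.e (nat_lit 557070) (nat_lit 9) .nil)))))) (.g (nat_lit 0) .nil .nil))) 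
(.lf (nat_lit 4346) (.g (nat_lit 3830) (.e (nat_lit 256) (nat_lit 21) (.e (nat_lit 336013) (nat_lit 2) (.e (nat_lit 90170) (nat_lit 13) (.e (nat_lit 172113) (nat_lit 10) (.e (nat_lit 434248) (nat_lit 28) .nil))))) .nil)))))) (.nd (nat_lit 3) (.nd (nat_lit 4) (.nd (nat_lit 5) (.nd (nat_lit 6) 
(.lf (nat_lit 4230) (.g (nat_lit 1616) (.e (nat_lit 253) (nat_lit 21) (.e (nat_lit 336021) (nat_lit 3) (.e (nat_lit 98313) (nat_lit 9) (.e (nat_lit 336012) (nat_lit 2) (.e (nat_lit 90158) (nat_lit 11) .nil))))) .nil)) 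
(.lf (nat_lit 4294) (.g (nat_lit 3095) (.e (nat_lit 254) (nat_lit 21) (.e (nat_lit 336011) (nat_lit 2) (.e (nat_lit 90170) (nat_lit 13) (.e (nat_lit 172113) (nat_lit 10) (.e (nat_lit 434247) (nat_lit 28) .nil))))) .nil))) (.nd (nat_lit 6) 
(.lf (nat_lit 4262) (.g (nat_lit 4011) (.e (nat_lit 253) (nat_lit 21) (.e (nat_lit 336204) (nat_lit 12) (.e (nat_lit 385074) (nat_lit 31) (.e (nat_lit 573484) (nat_lit 13) (.e (nat_lit 65617) (nat_lit 10) .nil))))) .nil)) 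
(.lf (nat_lit 4326) (.g (nat_lit 3545) (.e (nat_lit 255) (nat_lit 21) (.e (nat_lit 336204) (nat_lit 12) (.e (nat_lit 385074) (nat_lit 31) (.e (nat_lit 573485) (nat_lit 13) (.e (nat_lit 65619) (nat_lit 10) .nil))))) .nil)))) (.nd (nat_lit 5) (.nd (nat_lit 6) 
(.lf (nat_lit 4246) (.g (nat_lit 1700) (.e (nat_lit 253) (nat_lit 21) (.e (nat_lit 336027) (nat_lit 3) (.e (nat_lit 98372) (nat_lit 29) (.e (nat_lit 450586) (nat_lit 10) .nil)))) .nil)) 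
(.lf (nat_lit 4310) (.g (nat_lit 871) (.e (nat_lit 254) (nat_lit 21) (.e (nat_lit 336213) (nat_lit 13) (.e (nat_lit 393233) (nat_lit 17) .nil))) .nil))) (.nd (nat_lit 6) 
(.lf (nat_lit 4278) (.g (nat_lit 2809) (.e (nat_lit 253) (nat_lit 21) (.e (nat_lit 336223) (nat_lit 13) (.e (nat_lit 393234) (nat_lit 17) (.e (nat_lit 7587) (nat_lit 406) (.e (nat_lit 65580) (nat_lit 6) (.e (nat_lit 147472) (nat_lit 9) .nil)))))) (.g (nat_lit 6) .nil .nil))) 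
(.lf (nat_lit 4342) (.g (nat_lit 4550) (.e (nat_lit 256) (nat_lit 21) (.e (nat_lit 336013) (nat_lit 2) (.e (nat_lit 90170) (nat_lit 13) (.e (nat_lit 172106) (nat_lit 10) (.e (nat_lit 434231) (nat_lit 23) (.e (nat_lit 532499) (nat_lit 1) (.e (nat_lit 57776) (nat_lit 233) (.e (nat_lit 2489) (nat_lit 157) .nil)))))))) (.g (nat_lit 5) .nil .nil)))))) (.nd (nat_lit 4) (.nd (nat_lit 5) (.nd (nat_lit 6) 
(.lf (nat_lit 4238) (.g (nat_lit 2184) (.e (nat_lit 253) (nat_lit 21) (.e (nat_lit 336021) (nat_lit 3) (.e (nat_lit 98317) (nat_lit 9) (.e (nat_lit 336009) (nat_lit 2) .nil)))) .nil)) 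
(.lf (nat_lit 4302) (.g (nat_lit 3423) (.e (nat_lit 254) (nat_lit 21) (.e (nat_lit 336027) (nat_lit 3) (.e (nat_lit 98373) (nat_lit 29) (.e (nat_lit 450587) (nat_lit 10) (.e (nat_lit 573454) (nat_lit 9) .nil))))) .nil))) (.nd (nat_lit 6) 
(.lf (nat_lit 4270) (.g (nat_lit 4102) (.e (nat_lit 253) (nat_lit 21) (.e (nat_lit 336215) (nat_lit 13) (.e (nat_lit 393229) (nat_lit 9) (.e (nat_lit 335994) (nat_lit 1) (.e (nat_lit 57854) (nat_lit 252) .nil))))) .nil)) 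
(.lf (nat_lit 4334) (.g (nat_lit 2056) (.e (nat_lit 256) (nat_lit 21) (.e (nat_lit 336013) (nat_lit 2) (.e (nat_lit 90170) (nat_lit 13) (.e (nat_lit 172106) (nat_lit 10) .nil)))) .nil)))) (.nd (nat_lit 5) (.nd (nat_lit 6) 
(.lf (nat_lit 4254) (.g (nat_lit 3706) (.e (nat_lit 253) (nat_lit 21) (.e (nat_lit 336078) (nat_lit 9) (.e (nat_lit 336454) (nat_lit 34) (.e (nat_lit 483365) (nat_lit 18) (.e (nat_lit 57849) (nat_lit 252) (.e (nat_lit 57372) (nat_lit 2) (.e (nat_lit 90133) (nat_lit 9) .nil))))))) (.g (nat_lit 0) .nil .nil))) 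
(.lf (nat_lit 4318) (.g (nat_lit 1800) (.e (nat_lit 254) (nat_lit 21) (.e (nat_lit 336223) (nat_lit 13) (.e (nat_lit 393234) (nat_lit 17) (.e (nat_lit 7591) (nat_lit 407) .nil)))) .nil))) (.nd (nat_lit 6) 
(.lf (nat_lit 4286) (.g (nat_lit 3338) (.e (nat_lit 253) (nat_lit 21) (.e (nat_lit 336231) (nat_lit 14) (.e (nat_lit 401458) (nat_lit 13) (.e (nat_lit 483372) (nat_lit 21) (.e (nat_lit 319504) (nat_lit 10) (.e (nat_lit 7936) (nat_lit 312) .nil)))))) (.g (nat_lit 5) .nil .nil))) 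
(.lf (nat_lit 4350) (.g (nat_lit 2396) (.e (nat_lit 256) (nat_lit 21) (.e (nat_lit 336028) (nat_lit 3) (.e (nat_lit 98372) (nat_lit 29) (.e (nat_lit 450579) (nat_lit 5) (.e (nat_lit 532504) (nat_lit 1) .nil))))) .nil)))))))) (.nd (nat_lit 1) (.nd (nat_lit 2) (.nd (nat_lit 3) (.nd (nat_lit 4) (.nd (nat_lit 5) (.nd (nat_lit 6) 
(.lf (nat_lit 4225) (.g (nat_lit 2198) (.e (nat_lit 253) (nat_lit 21) (.e (nat_lit 336011) (nat_lit 2) (.e (nat_lit 90170) (nat_lit 13) (.e (nat_lit 172106) (nat_lit 10) (.e (nat_lit 434244) (nat_lit 28) .nil))))) .nil)) 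
(.lf (nat_lit 4289) (.g (nat_lit 3264) (.e (nat_lit 253) (nat_lit 21) (.e (nat_lit 336232) (nat_lit 14) (.e (nat_lit 401427) (nat_lit 3) (.e (nat_lit 204869) (nat_lit 29) (.e (nat_lit 360474) (nat_lit 8) (.e (nat_lit 557070) (nat_lit 9) .nil)))))) (.g (nat_lit 6) .nil .nil)))) (.nd (nat_lit 6) 
(.lf (nat_lit 4257) (.g (nat_lit 3062) (.e (nat_lit 253) (nat_lit 21) (.e (nat_lit 336078) (nat_lit 9) (.e (nat_lit 336454) (nat_lit 34) (.e (nat_lit 483365) (nat_lit 18) (.e (nat_lit 57854) (nat_lit 252) (.e (nat_lit 57371) (nat_lit 2) (.e (nat_lit 90133) (nat_lit 9) .nil))))))) (.g (nat_lit 6) .nil .nil))) 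
(.lf (nat_lit 4321) (.g (nat_lit 2695) (.e (nat_lit 254) (nat_lit 21) (.e (nat_lit 336223) (nat_lit 13) (.e (nat_lit 393301) (nat_lit 27) (.e (nat_lit 491560) (nat_lit 10) (.e (nat_lit 344179) (nat_lit 44) .nil))))) .nil)))) (.nd (nat_lit 5) (.nd (nat_lit 6) 
(.lf (nat_lit 4241) (.g (nat_lit 3658) (.e (nat_lit 253) (nat_lit 21) (.e (nat_lit 336021) (nat_lit 3) (.e (nat_lit 98317) (nat_lit 9) (.e (nat_lit 336021) (nat_lit 3) (.e (nat_lit 98317) (nat_lit 9) (.e (nat_lit 336011) (nat_lit 2) (.e (nat_lit 90133) (nat_lit 9) .nil))))))) (.g (nat_lit 5) .nil .nil))) 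
(.lf (nat_lit 4305) (.g (nat_lit 1721) (.e (nat_lit 254) (nat_lit 21) (.e (nat_lit 336078) (nat_lit 9) (.e (nat_lit 336454) (nat_lit 34) (.e (nat_lit 483365) (nat_lit 18) (.e (nat_lit 57847) (nat_lit 252) .nil))))) .nil))) (.nd (nat_lit 6) 
(.lf (nat_lit 4273) (.g (nat_lit 3466) (.e (nat_lit 253) (nat_lit 21) (.e (nat_lit 336215) (nat_lit 13) (.e (nat_lit 393229) (nat_lit 9) (.e (nat_lit 335996) (nat_lit 1) (.e (nat_lit 57852) (nat_lit 252) (.e (nat_lit 57373) (nat_lit 2) (.e (nat_lit 90133) (nat_lit 9) .nil))))))) (.g (nat_lit 6) .nil .nil))) 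
(.lf (nat_lit 4337) (.g (nat_lit 4482) (.e (nat_lit 256) (nat_lit 21) (.e (nat_lit 336013) (nat_lit 2) (.e (nat_lit 90170) (nat_lit 13) (.e (nat_lit 172106) (nat_lit 10) (.e (nat_lit 434231) (nat_lit 23) (.e (nat_lit 532483) (nat_lit 0) (.e (nat_lit 1036) (nat_lit 81) (.e (nat_lit 4602) (nat_lit 269) (.e (nat_lit 2489) (nat_lit 157) .nil))))))))) (.g (nat_lit 5) .nil .nil)))))) 
(.nd (nat_lit 4) (.nd (nat_lit 5) (.nd (nat_lit 6) 
(.lf (nat_lit 4233) (.g (nat_lit 916) (.e (nat_lit 253) (nat_lit 21) (.e (nat_lit 336021) (nat_lit 3) (.e (nat_lit 98315) (nat_lit 9) .nil))) .nil)) 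
(.lf (nat_lit 4297) (.g (nat_lit 3299) (.e (nat_lit 254) (nat_lit 21) (.e (nat_lit 336011) (nat_lit 2) (.e (nat_lit 90170) (nat_lit 13) (.e (nat_lit 172113) (nat_lit 10) (.e (nat_lit 434247) (nat_lit 28) (.e (nat_lit 573477) (nat_lit 12) (.e (nat_lit 57575) (nat_lit 55) (.e (nat_lit 778359) (nat_lit 9) .nil)))))))) (.g (nat_lit 4) .nil .nil)))) (.nd (nat_lit 6) 
(.lf (nat_lit 4265) (.g (nat_lit 3545) (.e (nat_lit 253) (nat_lit 21) (.e (nat_lit 336204) (nat_lit 12) (.e (nat_lit 385074) (nat_lit 31) (.e (nat_lit 573493) (nat_lit 15) (.e (nat_lit 81947) (nat_lit 20) .nil))))) .nil)) 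
(.lf (nat_lit 4329) (.g (nat_lit 1767) (.e (nat_lit 255) (nat_lit 21) (.e (nat_lit 336223) (nat_lit 13) (.e (nat_lit 393234) (nat_lit 17) (.e (nat_lit 7591) (nat_lit 407) .nil)))) .nil)))) (.nd (nat_lit 5) (.nd (nat_lit 6) 
(.lf (nat_lit 4249) (.g (nat_lit 2354) (.e (nat_lit 253) (nat_lit 21) (.e (nat_lit 336027) (nat_lit 3) (.e (nat_lit 98372) (nat_lit 29) (.e (nat_lit 450586) (nat_lit 10) (.e (nat_lit 573477) (nat_lit 12) .nil))))) .nil)) 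
(.lf (nat_lit 4313) (.g (nat_lit 2839) (.e (nat_lit 254) (nat_lit 21) (.e (nat_lit 336213) (nat_lit 13) (.e (nat_lit 393300) (nat_lit 27) (.e (nat_lit 491556) (nat_lit 9) (.e (nat_lit 336051) (nat_lit 6) .nil))))) .nil))) (.nd (nat_lit 6) 
(.lf (nat_lit 4281) (.g (nat_lit 2194) (.e (nat_lit 253) (nat_lit 21) (.e (nat_lit 336223) (nat_lit 13) (.e (nat_lit 393301) (nat_lit 27) (.e (nat_lit 491556) (nat_lit 9) .nil)))) .nil)) 
(.lf (nat_lit 4345) (.g (nat_lit 3898) (.e (nat_lit 256) (nat_lit 21) (.e (nat_lit 336013) (nat_lit 2) (.e (nat_lit 90170) (nat_lit 13) (.e (nat_lit 172113) (nat_lit 10) (.e (nat_lit 434247) (nat_lit 28) .nil))))) .nil)))))) (.nd (nat_lit 3) (.nd (nat_lit 4) (.nd (nat_lit 5) (.nd (nat_lit 6) 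
(.lf (nat_lit 4229) (.g (nat_lit 3706) (.e (nat_lit 253) (nat_lit 21) (.e (nat_lit 336021) (nat_lit 3) (.e (nat_lit 98313) (nat_lit 9) (.e (nat_lit 336004) (nat_lit 2) (.e (nat_lit 90158) (nat_lit 11) (.e (nat_lit 24604) (nat_lit 2) (.e (nat_lit 90133) (nat_lit 9) .nil))))))) (.g (nat_lit 7) .nil .nil))) 
(.lf (nat_lit 4293) (.g (nat_lit 3915) (.e (nat_lit 254) (nat_lit 21) (.e (nat_lit 336011) (nat_lit 2) (.e (nat_lit 90170) (nat_lit 13) (.e (nat_lit 172113) (nat_lit 10) (.e (nat_lit 434245) (nat_lit 28) (.e (nat_lit 573474) (nat_lit 12) (.e (nat_lit 57574) (nat_lit 55) (.e (nat_lit 778362) (nat_lit 9) .nil)))))))) (.g (nat_lit 5) .nil .nil)))) (.nd (nat_lit 6) 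
(.lf (nat_lit 4261) (.g (nat_lit 2843) (.e (nat_lit 253) (nat_lit 21) (.e (nat_lit 336204) (nat_lit 12) (.e (nat_lit 385074) (nat_lit 31) (.e (nat_lit 573482) (nat_lit 13) .nil)))) .nil)) 
(.lf (nat_lit 4325) (.g (nat_lit 3774) (.e (nat_lit 255) (nat_lit 21) (.e (nat_lit 336204) (nat_lit 12) (.e (nat_lit 385074) (nat_lit 31) (.e (nat_lit 573482) (nat_lit 13) (.e (nat_lit 65619) (nat_lit 10) .nil))))) .nil)))) (.nd (nat_lit 5) (.nd (nat_lit 6) 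
(.lf (nat_lit 4245) (.g (nat_lit 2367) (.e (nat_lit 253) (nat_lit 21) (.e (nat_lit 336021) (nat_lit 3) (.e (nat_lit 98317) (nat_lit 9) (.e (nat_lit 336027) (nat_lit 3) (.e (nat_lit 98317) (nat_lit 9) (.e (nat_lit 336011) (nat_lit 2) (.e (nat_lit 90133) (nat_lit 9) .nil))))))) (.g (nat_lit 4) .nil .nil))) 
(.lf (nat_lit 4309) (.g (nat_lit 2007) (.e (nat_lit 254) (nat_lit 21) (.e (nat_lit 336213) (nat_lit 13) (.e (nat_lit 393225) (nat_lit 9) (.e (nat_lit 335996) (nat_lit 1) .nil)))) .nil))) (.nd (nat_lit 6) 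
(.lf (nat_lit 4277) (.g (nat_lit 1238) (.e (nat_lit 253) (nat_lit 21) (.e (nat_lit 336223) (nat_lit 13) (.e (nat_lit 393233) (nat_lit 17) .nil))) .nil)) 
(.lf (nat_lit 4341) (.g (nat_lit 4406) (.e (nat_lit 256) (nat_lit 21) (.e (nat_lit 336013) (nat_lit 2) (.e (nat_lit 90170) (nat_lit 13) (.e (nat_lit 172106) (nat_lit 10) (.e (nat_lit 434231) (nat_lit 23) (.e (nat_lit 532499) (nat_lit 1) (.e (nat_lit 57776) (nat_lit 233) (.e (nat_lit 2487) (nat_lit 157) .nil)))))))) (.g (nat_lit 5) .nil .nil)))))) (.nd (nat_lit 4) (.nd (nat_lit 5) (.nd (nat_lit 6) 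
(.lf (nat_lit 4237) (.g (nat_lit 1959) (.e (nat_lit 253) (nat_lit 21) (.e (nat_lit 336021) (nat_lit 3) (.e (nat_lit 98317) (nat_lit 9) (.e (nat_lit 336004) (nat_lit 2) .nil)))) .nil)) 
(.lf (nat_lit 4301) (.g (nat_lit 3853) (.e (nat_lit 254) (nat_lit 21) (.e (nat_lit 336027) (nat_lit 3) (.e (nat_lit 98372) (nat_lit 29) (.e (nat_lit 450588) (nat_lit 10) (.e (nat_lit 573475) (nat_lit 12) (.e (nat_lit 57574) (nat_lit 55) (.e (nat_lit 778362) (nat_lit 9) .nil))))))) (.g (nat_lit 4) .nil .nil)))) (.nd (nat_lit 6) 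
(.lf (nat_lit 4269) (.g (nat_lit 1780) (.e (nat_lit 253) (nat_lit 21) (.e (nat_lit 336215) (nat_lit 13) (.e (nat_lit 393229) (nat_lit 9) (.e (nat_lit 335987) (nat_lit 1) .nil)))) .nil)) 
(.lf (nat_lit 4333) (.g (nat_lit 2650) (.e (nat_lit 255) (nat_lit 21) (.e (nat_lit 336223) (nat_lit 13) (.e (nat_lit 393301) (nat_lit 27) (.e (nat_lit 491556) (nat_lit 9) .nil)))) .nil)))) (.nd (nat_lit 5) (.nd (nat_lit 6) 
(.lf (nat_lit 4253) (.g (nat_lit 836) (.e (nat_lit 253) (nat_lit 21) (.e (nat_lit 336078) (nat_lit 9) (.e (nat_lit 336454) (nat_lit 34) (.e (nat_lit 483365) (nat_lit 18) .nil)))) .nil)) 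
(.lf (nat_lit 4317) (.g (nat_lit 1988) (.e (nat_lit 254) (nat_lit 21) (.e (nat_lit 336223) (nat_lit 13) (.e (nat_lit 393234) (nat_lit 17) (.e (nat_lit 7587) (nat_lit 406) .nil)))) .nil))) (.nd (nat_lit 6) 
(.lf (nat_lit 4285) (.g (nat_lit 2039) (.e (nat_lit 253) (nat_lit 21) (.e (nat_lit 336231) (nat_lit 14) (.e (nat_lit 401456) (nat_lit 13) (.e (nat_lit 483372) (nat_lit 21) (.e (nat_lit 319505) (nat_lit 10) .nil))))) .nil)) 
(.lf (nat_lit 4349) (.g (nat_lit 2373) (.e (nat_lit 256) (nat_lit 21) (.e (nat_lit 336028) (nat_lit 3) (.e (nat_lit 98372) (nat_lit 29) (.e (nat_lit 450579) (nat_lit 5) (.e (nat_lit 532501) (nat_lit 1) (.e (nat_lit 57776) (nat_lit 233) (.e (nat_lit 2517) (nat_lit 157) .nil))))))) (.g (nat_lit 4) .nil .nil)))))))) (.nd (nat_lit 2) (.nd (nat_lit 3) (.nd (nat_lit 4) (.nd (nat_lit 5) (.nd (nat_lit 6) 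
(.lf (nat_lit 4227) (.g (nat_lit 1794) (.e (nat_lit 253) (nat_lit 21) (.e (nat_lit 336012) (nat_lit 2) (.e (nat_lit 90172) (nat_lit 14) (.e (nat_lit 180278) (nat_lit 32) .nil)))) .nil)) 
(.lf (nat_lit 4291) (.g (nat_lit 3251) (.e (nat_lit 254) (nat_lit 21) (.e (nat_lit 336009) (nat_lit 2) (.e (nat_lit 90170) (nat_lit 13) (.e (nat_lit 172113) (nat_lit 10) (.e (nat_lit 434247) (nat_lit 28) (.e (nat_lit 573477) (nat_lit 12) (.e (nat_lit 57574) (nat_lit 55) (.e (nat_lit 778360) (nat_lit 9) .nil)))))))) (.g (nat_lit 5) .nil .nil)))) (.nd (nat_lit 6) 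
(.lf (nat_lit 4259) (.g (nat_lit 579) (.e (nat_lit 253) (nat_lit 21) (.e (nat_lit 336088) (nat_lit 9) (.e (nat_lit 336438) (nat_lit 31) .nil))) .nil)) 
(.lf (nat_lit 4323) (.g (nat_lit 1032) (.e (nat_lit 255) (nat_lit 21) (.e (nat_lit 336086) (nat_lit 9) (.e (nat_lit 336421) (nat_lit 28) (.e (nat_lit 442112) (nat_lit 5) .nil)))) .nil)))) (.nd (nat_lit 5) (.nd (nat_lit 6) 
(.lf (nat_lit 4243) (.g (nat_lit 2733) (.e (nat_lit 253) (nat_lit 21) (.e (nat_lit 336021) (nat_lit 3) (.e (nat_lit 98317) (nat_lit 9) (.e (nat_lit 336025) (nat_lit 3) (.e (nat_lit 98313) (nat_lit 9) (.e (nat_lit 336011) (nat_lit 2) (.e (nat_lit 90133) (nat_lit 9) .nil))))))) (.g (nat_lit 4) .nil .nil))) 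
(.lf (nat_lit 4307) (.g (nat_lit 2912) (.e (nat_lit 254) (nat_lit 21) (.e (nat_lit 336204) (nat_lit 12) (.e (nat_lit 385074) (nat_lit 31) (.e (nat_lit 573482) (nat_lit 13) .nil)))) .nil))) (.nd (nat_lit 6) 
(.lf (nat_lit 4275) (.g (nat_lit 1410) (.e (nat_lit 253) (nat_lit 21) (.e (nat_lit 336220) (nat_lit 13) (.e (nat_lit 393301) (nat_lit 27) (.e (nat_lit 491546) (nat_lit 9) .nil)))) .nil)) 
(.lf (nat_lit 4339) (.g (nat_lit 2822) (.e (nat_lit 256) (nat_lit 21) (.e (nat_lit 336013) (nat_lit 2) (.e (nat_lit 90170) (nat_lit 13) (.e (nat_lit 172106) (nat_lit 10) (.e (nat_lit 434231) (nat_lit 23) (.e (nat_lit 532490) (nat_lit 0) (.e (nat_lit 1040) (nat_lit 81) (.e (nat_lit 4602) (nat_lit 269) (.e (nat_lit 2513) (nat_lit 157) .nil))))))))) (.g (nat_lit 4) .nil .nil)))))) 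
(.nd (nat_lit 4) (.nd (nat_lit 5) (.nd (nat_lit 6) 
(.lf (nat_lit 4235) (.g (nat_lit 2009) (.e (nat_lit 253) (nat_lit 21) (.e (nat_lit 336021) (nat_lit 3) (.e (nat_lit 98317) (nat_lit 9) (.e (nat_lit 336002) (nat_lit 2) .nil)))) .nil)) 
(.lf (nat_lit 4299) (.g (nat_lit 2503) (.e (nat_lit 254) (nat_lit 21) (.e (nat_lit 336027) (nat_lit 3) (.e (nat_lit 98372) (nat_lit 29) (.e (nat_lit 450586) (nat_lit 10) (.e (nat_lit 573477) (nat_lit 12) .nil))))) .nil))) (.nd (nat_lit 6) 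
(.lf (nat_lit 4267) (.g (nat_lit 642) (.e (nat_lit 253) (nat_lit 21) (.e (nat_lit 336215) (nat_lit 13) (.e (nat_lit 393227) (nat_lit 9) .nil))) .nil)) 
(.lf (nat_lit 4331) (.g (nat_lit 2407) (.e (nat_lit 255) (nat_lit 21) (.e (nat_lit 336223) (nat_lit 13) (.e (nat_lit 393234) (nat_lit 17) (.e (nat_lit 7591) (nat_lit 407) (.e (nat_lit 73775) (nat_lit 26) (.e (nat_lit 778359) (nat_lit 9) .nil)))))) (.g (nat_lit 4) .nil .nil))))) (.nd (nat_lit 5) (.nd (nat_lit 6) 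
(.lf (nat_lit 4251) (.g (nat_lit 2177) (.e (nat_lit 253) (nat_lit 21) (.e (nat_lit 336078) (nat_lit 9) (.e (nat_lit 336454) (nat_lit 34) (.e (nat_lit 483363) (nat_lit 18) (.e (nat_lit 57854) (nat_lit 252) (.e (nat_lit 57371) (nat_lit 2) (.e (nat_lit 90133) (nat_lit 9) .nil))))))) (.g (nat_lit 4) .nil .nil))) 
(.lf (nat_lit 4315) (.g (nat_lit 2339) (.e (nat_lit 254) (nat_lit 21) (.e (nat_lit 336213) (nat_lit 13) (.e (nat_lit 393301) (nat_lit 27) (.e (nat_lit 491556) (nat_lit 9) .nil)))) .nil))) (.nd (nat_lit 6) 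
(.lf (nat_lit 4283) (.g (nat_lit 670) (.e (nat_lit 253) (nat_lit 21) (.e (nat_lit 336229) (nat_lit 14) (.e (nat_lit 401427) (nat_lit 3) .nil))) .nil)) 
(.lf (nat_lit 4347) (.g (nat_lit 2332) (.e (nat_lit 256) (nat_lit 21) (.e (nat_lit 336028) (nat_lit 3) (.e (nat_lit 98372) (nat_lit 29) (.e (nat_lit 450579) (nat_lit 5) (.e (nat_lit 532501) (nat_lit 1) .nil))))) .nil)))))) (.nd (nat_lit 3) (.nd (nat_lit 4) (.nd (nat_lit 5) (.nd (nat_lit 6) 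
(.lf (nat_lit 4231) (.g (nat_lit 1548) (.e (nat_lit 253) (nat_lit 21) (.e (nat_lit 336021) (nat_lit 3) (.e (nat_lit 98313) (nat_lit 9) (.e (nat_lit 336027) (nat_lit 3) (.e (nat_lit 98317) (nat_lit 9) .nil))))) .nil)) 
(.lf (nat_lit 4295) (.g (nat_lit 3239) (.e (nat_lit 254) (nat_lit 21) (.e (nat_lit 336011) (nat_lit 2) (.e (nat_lit 90170) (nat_lit 13) (.e (nat_lit 172113) (nat_lit 10) (.e (nat_lit 434247) (nat_lit 28) (.e (nat_lit 573477) (nat_lit 12) (.e (nat_lit 57574) (nat_lit 55) (.e (nat_lit 778359) (nat_lit 9) .nil)))))))) (.g (nat_lit 4) .nil .nil)))) (.nd (nat_lit 6) 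
(.lf (nat_lit 4263) (.g (nat_lit 3126) (.e (nat_lit 253) (nat_lit 21) (.e (nat_lit 336204) (nat_lit 12) (.e (nat_lit 385074) (nat_lit 31) (.e (nat_lit 573485) (nat_lit 13) .nil)))) .nil)) 
(.lf (nat_lit 4327) (.g (nat_lit 1983) (.e (nat_lit 255) (nat_lit 21) (.e (nat_lit 336220) (nat_lit 13) (.e (nat_lit 393301) (nat_lit 27) (.e (nat_lit 491556) (nat_lit 9) (.e (nat_lit 336051) (nat_lit 6) .nil))))) .nil)))) (.nd (nat_lit 5) (.nd (nat_lit 6) 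
(.lf (nat_lit 4247) (.g (nat_lit 2558) (.e (nat_lit 253) (nat_lit 21) (.e (nat_lit 336027) (nat_lit 3) (.e (nat_lit 98372) (nat_lit 29) (.e (nat_lit 450586) (nat_lit 10) (.e (nat_lit 573449) (nat_lit 9) .nil))))) .nil)) 
(.lf (nat_lit 4311) (.g (nat_lit 1181) (.e (nat_lit 254) (nat_lit 21) (.e (nat_lit 336213) (nat_lit 13) (.e (nat_lit 393298) (nat_lit 27) .nil))) .nil))) (.nd (nat_lit 6) 
(.lf (nat_lit 4279) (.g (nat_lit 1118) (.e (nat_lit 253) (nat_lit 21) (.e (nat_lit 336223) (nat_lit 13) (.e (nat_lit 393298) (nat_lit 27) .nil))) .nil)) 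
(.lf (nat_lit 4343) (.g (nat_lit 4594) (.e (nat_lit 256) (nat_lit 21) (.e (nat_lit 336013) (nat_lit 2) (.e (nat_lit 90170) (nat_lit 13) (.e (nat_lit 172106) (nat_lit 10) (.e (nat_lit 434231) (nat_lit 23) (.e (nat_lit 532499) (nat_lit 1) (.e (nat_lit 57776) (nat_lit 233) (.e (nat_lit 2517) (nat_lit 157) .nil)))))))) (.g (nat_lit 5) .nil .nil)))))) (.nd (nat_lit 4) (.nd (nat_lit 5) (.nd (nat_lit 6) 
(.lf (nat_lit 4239) (.g (nat_lit 2026) (.e (nat_lit 253) (nat_lit 21) (.e (nat_lit 336021) (nat_lit 3) (.e (nat_lit 98317) (nat_lit 9) (.e (nat_lit 336021) (nat_lit 3) .nil)))) .nil)) 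
(.lf (nat_lit 4303) (.g (nat_lit 3221) (.e (nat_lit 254) (nat_lit 21) (.e (nat_lit 336027) (nat_lit 3) (.e (nat_lit 98373) (nat_lit 29) (.e (nat_lit 450587) (nat_lit 10) (.e (nat_lit 573477) (nat_lit 12) .nil))))) .nil))) (.nd (nat_lit 6) 
(.lf (nat_lit 4271) (.g (nat_lit 1331) (.e (nat_lit 253) (nat_lit 21) (.e (nat_lit 336215) (nat_lit 13) (.e (nat_lit 393229) (nat_lit 9) (.e (nat_lit 335995) (nat_lit 1) .nil)))) .nil)) 
(.lf (nat_lit 4335) (.g (nat_lit 2626) (.e (nat_lit 256) (nat_lit 21) (.e (nat_lit 336013) (nat_lit 2) (.e (nat_lit 90170) (nat_lit 13) (.e (nat_lit 172106) (nat_lit 10) (.e (nat_lit 434231) (nat_lit 23) .nil))))) .nil)))) (.nd (nat_lit 5) (.nd (nat_lit 6) 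
(.lf (nat_lit 4255) (.g (nat_lit 3261) (.e (nat_lit 253) (nat_lit 21) (.e (nat_lit 336078) (nat_lit 9) (.e (nat_lit 336454) (nat_lit 34) (.e (nat_lit 483365) (nat_lit 18) (.e (nat_lit 57851) (nat_lit 252) (.e (nat_lit 57371) (nat_lit 2) (.e (nat_lit 90133) (nat_lit 9) .nil))))))) (.g (nat_lit 6) .nil .nil))) 
(.lf (nat_lit 4319) (.g (nat_lit 2469) (.e (nat_lit 254) (nat_lit 21) (.e (nat_lit 336223) (nat_lit 13) (.e (nat_lit 393234) (nat_lit 17) (.e (nat_lit 7591) (nat_lit 407) (.e (nat_lit 73775) (nat_lit 26) (.e (nat_lit 778360) (nat_lit 9) .nil)))))) (.g (nat_lit 4) .nil .nil)))) (.nd (nat_lit 6) 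
(.lf (nat_lit 4287) (.g (nat_lit 622) (.e (nat_lit 253) (nat_lit 21) (.e (nat_lit 336232) (nat_lit 14) (.e (nat_lit 401414) (nat_lit 0) .nil))) .nil)) 
(.lf (nat_lit 4351) (.g (nat_lit 2552) (.e (nat_lit 256) (nat_lit 21) (.e (nat_lit 336028) (nat_lit 3) (.e (nat_lit 98372) (nat_lit 29) (.e (nat_lit 450579) (nat_lit 5) (.e (nat_lit 532504) (nat_lit 1) (.e (nat_lit 57776) (nat_lit 233) (.e (nat_lit 2487) (nat_lit 157) .nil))))))) (.g (nat_lit 4) .nil .nil))))))))))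

noncomputable def tv058 : DT := (.nd (nat_lit 0) (.nd (nat_lit 1) (.nd (nat_lit 2) (.nd (nat_lit 3) (.nd (nat_lit 4) (.nd (nat_lit 5) 
(.lf (nat_lit 4352) (.g (nat_lit 1597) (.e (nat_lit 256) (nat_lit 21) (.e (nat_lit 336028) (nat_lit 3) (.e (nat_lit 98373) (nat_lit 29) (.e (nat_lit 458496) (nat_lit 3) .nil)))) .nil)) 
(.lf (nat_lit 4384) (.g (nat_lit 1443) (.e (nat_lit 256) (nat_lit 21) (.e (nat_lit 336228) (nat_lit 14) (.e (nat_lit 401438) (nat_lit 9) (.e (nat_lit 426533) (nat_lit 28) (.e (nat_lit 344085) (nat_lit 15) (.e (nat_lit 123166) (nat_lit 256) .nil)))))) (.g (nat_lit 4) .nil .nil)))) (.nd (nat_lit 5) 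
(.lf (nat_lit 4368) (.g (nat_lit 5156) (.e (nat_lit 256) (nat_lit 21) (.e (nat_lit 336228) (nat_lit 14) (.e (nat_lit 401428) (nat_lit 3) (.e (nat_lit 204869) (nat_lit 29) (.e (nat_lit 360474) (nat_lit 8) (.e (nat_lit 557079) (nat_lit 9) .nil)))))) (.g (nat_lit 6) .nil .nil))) 
(.lf (nat_lit 4400) (.g (nat_lit 3423) (.e (nat_lit 256) (nat_lit 21) (.e (nat_lit 336228) (nat_lit 14) (.e (nat_lit 401459) (nat_lit 13) (.e (nat_lit 483372) (nat_lit 21) (.e (nat_lit 319504) (nat_lit 10) (.e (nat_lit 5712) (nat_lit 312) .nil)))))) (.g (nat_lit 0) .nil .nil))))) (.nd (nat_lit 4) (.nd (nat_lit 5) 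
(.lf (nat_lit 4360) (.g (nat_lit 2472) (.e (nat_lit 256) (nat_lit 21) (.e (nat_lit 336176) (nat_lit 10) (.e (nat_lit 344133) (nat_lit 26) (.e (nat_lit 557119) (nat_lit 18) (.e (nat_lit 2798) (nat_lit 180) (.e (nat_lit 303143) (nat_lit 12) (.e (nat_lit 475139) (nat_lit 0) .nil))))))) (.g (nat_lit 4) .nil .nil))) 
(.lf (nat_lit 4392) (.g (nat_lit 951) (.e (nat_lit 256) (nat_lit 21) (.e (nat_lit 336228) (nat_lit 14) (.e (nat_lit 401459) (nat_lit 13) (.e (nat_lit 483354) (nat_lit 17) .nil)))) .nil))) (.nd (nat_lit 5) 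
(.lf (nat_lit 4376) (.g (nat_lit 1937) (.e (nat_lit 256) (nat_lit 21) (.e (nat_lit 336228) (nat_lit 14) (.e (nat_lit 401437) (nat_lit 9) (.e (nat_lit 426550) (nat_lit 31) (.e (nat_lit 368656) (nat_lit 14) (.e (nat_lit 57862) (nat_lit 256) .nil)))))) (.g (nat_lit 4) .nil .nil))) 
(.lf (nat_lit 4408) (.g (nat_lit 3387) (.e (nat_lit 256) (nat_lit 21) (.e (nat_lit 336228) (nat_lit 14) (.e (nat_lit 401459) (nat_lit 13) (.e (nat_lit 483372) (nat_lit 21) (.e (nat_lit 319513) (nat_lit 10) .nil))))) .nil))))) (.nd (nat_lit 3) (.nd (nat_lit 4) (.nd (nat_lit 5) 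
(.lf (nat_lit 4356) (.g (nat_lit 978) (.e (nat_lit 256) (nat_lit 21) (.e (nat_lit 336099) (nat_lit 9) (.e (nat_lit 336013) (nat_lit 2) (.e (nat_lit 98048) (nat_lit 2) .nil)))) .nil)) 
(.lf (nat_lit 4388) (.g (nat_lit 1317) (.e (nat_lit 256) (nat_lit 21) (.e (nat_lit 336228) (nat_lit 14) (.e (nat_lit 401459) (nat_lit 13) (.e (nat_lit 483342) (nat_lit 17) .nil)))) .nil))) (.nd (nat_lit 5) 
(.lf (nat_lit 4372) (.g (nat_lit 1935) (.e (nat_lit 256) (nat_lit 21) (.e (nat_lit 336228) (nat_lit 14) (.e (nat_lit 401437) (nat_lit 9) (.e (nat_lit 426533) (nat_lit 28) (.e (nat_lit 344084) (nat_lit 14) (.e (nat_lit 57862) (nat_lit 256) .nil)))))) (.g (nat_lit 4) .nil .nil))) 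
(.lf (nat_lit 4404) (.g (nat_lit 3335) (.e (nat_lit 256) (nat_lit 21) (.e (nat_lit 336228) (nat_lit 14) (.e (nat_lit 401459) (nat_lit 13) (.e (nat_lit 483372) (nat_lit 21) (.e (nat_lit 319506) (nat_lit 10) (.e (nat_lit 5722) (nat_lit 312) .nil)))))) (.g (nat_lit 5) .nil .nil))))) (.nd (nat_lit 4) (.nd (nat_lit 5) 
(.lf (nat_lit 4364) (.g (nat_lit 2492) (.e (nat_lit 256) (nat_lit 21) (.e (nat_lit 336227) (nat_lit 14) (.e (nat_lit 401459) (nat_lit 13) (.e (nat_lit 483350) (nat_lit 17) (.e (nat_lit 6218) (nat_lit 333) .nil))))) .nil)) 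
(.lf (nat_lit 4396) (.g (nat_lit 1381) (.e (nat_lit 256) (nat_lit 21) (.e (nat_lit 336228) (nat_lit 14) (.e (nat_lit 401459) (nat_lit 13) (.e (nat_lit 483354) (nat_lit 17) (.e (nat_lit 6223) (nat_lit 334) (.e (nat_lit 123166) (nat_lit 256) .nil)))))) (.g (nat_lit 4) .nil .nil)))) (.nd (nat_lit 5) 
(.lf (nat_lit 4380) (.g (nat_lit 1669) (.e (nat_lit 256) (nat_lit 21) (.e (nat_lit 336228) (nat_lit 14) (.e (nat_lit 401438) (nat_lit 9) (.e (nat_lit 426533) (nat_lit 28) (.e (nat_lit 344084) (nat_lit 14) (.e (nat_lit 57862) (nat_lit 256) .nil)))))) (.g (nat_lit 4) .nil .nil))) 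
(.lf (nat_lit 4412) (.g (nat_lit 2533) (.e (nat_lit 256) (nat_lit 21) (.e (nat_lit 336228) (nat_lit 14) (.e (nat_lit 401459) (nat_lit 13) (.e (nat_lit 483375) (nat_lit 22) (.e (nat_lit 327705) (nat_lit 10) (.e (nat_lit 5722) (nat_lit 312) .nil)))))) (.g (nat_lit 4) .nil .nil))))))) (.nd (nat_lit 2) (.nd (nat_lit 3) (.nd (nat_lit 4) (.nd (nat_lit 5) 
(.lf (nat_lit 4354) (.g (nat_lit 1476) (.e (nat_lit 256) (nat_lit 21) (.e (nat_lit 336061) (nat_lit 7) (.e (nat_lit 319531) (nat_lit 16) (.e (nat_lit 286731) (nat_lit 1) .nil)))) .nil)) 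
(.lf (nat_lit 4386) (.g (nat_lit 2041) (.e (nat_lit 256) (nat_lit 21) (.e (nat_lit 336228) (nat_lit 14) (.e (nat_lit 401458) (nat_lit 13) (.e (nat_lit 483372) (nat_lit 21) (.e (nat_lit 319506) (nat_lit 10) .nil))))) .nil))) (.nd (nat_lit 5) 
(.lf (nat_lit 4370) (.g (nat_lit 3857) (.e (nat_lit 256) (nat_lit 21) (.e (nat_lit 336228) (nat_lit 14) (.e (nat_lit 401428) (nat_lit 3) (.e (nat_lit 204869) (nat_lit 29) (.e (nat_lit 360474) (nat_lit 8) (.e (nat_lit 557081) (nat_lit 9) .nil)))))) (.g (nat_lit 0) .nil .nil))) 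
(.lf (nat_lit 4402) (.g (nat_lit 2729) (.e (nat_lit 256) (nat_lit 21) (.e (nat_lit 336228) (nat_lit 14) (.e (nat_lit 401459) (nat_lit 13) (.e (nat_lit 483372) (nat_lit 21) (.e (nat_lit 319504) (nat_lit 10) (.e (nat_lit 7936) (nat_lit 312) .nil)))))) (.g (nat_lit 5) .nil .nil))))) (.nd (nat_lit 4) (.nd (nat_lit 5) 
(.lf (nat_lit 4362) (.g (nat_lit 4229) (.e (nat_lit 256) (nat_lit 21) (.e (nat_lit 336226) (nat_lit 14) (.e (nat_lit 401459) (nat_lit 13) (.e (nat_lit 483372) (nat_lit 21) (.e (nat_lit 319506) (nat_lit 10) .nil))))) .nil)) 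
(.lf (nat_lit 4394) (.g (nat_lit 1863) (.e (nat_lit 256) (nat_lit 21) (.e (nat_lit 336228) (nat_lit 14) (.e (nat_lit 401459) (nat_lit 13) (.e (nat_lit 483354) (nat_lit 17) (.e (nat_lit 6206) (nat_lit 333) (.e (nat_lit 57864) (nat_lit 256) .nil)))))) (.g (nat_lit 6) .nil .nil)))) (.nd (nat_lit 5) 
(.lf (nat_lit 4378) (.g (nat_lit 2145) (.e (nat_lit 256) (nat_lit 21) (.e (nat_lit 336228) (nat_lit 14) (.e (nat_lit 401437) (nat_lit 9) (.e (nat_lit 426550) (nat_lit 31) (.e (nat_lit 368656) (nat_lit 14) (.e (nat_lit 57865) (nat_lit 256) .nil)))))) (.g (nat_lit 5) .nil .nil))) 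
(.lf (nat_lit 4410) (.g (nat_lit 2134) (.e (nat_lit 256) (nat_lit 21) (.e (nat_lit 336228) (nat_lit 14) (.e (nat_lit 401459) (nat_lit 13) (.e (nat_lit 483374) (nat_lit 22) (.e (nat_lit 327705) (nat_lit 10) .nil))))) .nil))))) (.nd (nat_lit 3) (.nd (nat_lit 4) (.nd (nat_lit 5) 
(.lf (nat_lit 4358) (.g (nat_lit 1388) (.e (nat_lit 256) (nat_lit 21) (.e (nat_lit 336176) (nat_lit 10) (.e (nat_lit 344133) (nat_lit 26) (.e (nat_lit 557119) (nat_lit 18) .nil)))) .nil)) 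
(.lf (nat_lit 4390) (.g (nat_lit 2765) (.e (nat_lit 256) (nat_lit 21) (.e (nat_lit 336228) (nat_lit 14) (.e (nat_lit 401459) (nat_lit 13) (.e (nat_lit 483350) (nat_lit 17) (.e (nat_lit 6218) (nat_lit 333) (.e (nat_lit 57863) (nat_lit 256) .nil)))))) (.g (nat_lit 5) .nil .nil)))) (.nd (nat_lit 5) 
(.lf (nat_lit 4374) (.g (nat_lit 2115) (.e (nat_lit 256) (nat_lit 21) (.e (nat_lit 336228) (nat_lit 14) (.e (nat_lit 401437) (nat_lit 9) (.e (nat_lit 426533) (nat_lit 28) (.e (nat_lit 344084) (nat_lit 14) (.e (nat_lit 57864) (nat_lit 256) .nil)))))) (.g (nat_lit 6) .nil .nil))) 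
(.lf (nat_lit 4406) (.g (nat_lit 3836) (.e (nat_lit 256) (nat_lit 21) (.e (nat_lit 336228) (nat_lit 14) (.e (nat_lit 401459) (nat_lit 13) (.e (nat_lit 483372) (nat_lit 21) (.e (nat_lit 319509) (nat_lit 10) (.e (nat_lit 5723) (nat_lit 312) .nil)))))) (.g (nat_lit 4) .nil .nil))))) (.nd (nat_lit 4) (.nd (nat_lit 5) 
(.lf (nat_lit 4366) (.g (nat_lit 2318) (.e (nat_lit 256) (nat_lit 21) (.e (nat_lit 336227) (nat_lit 14) (.e (nat_lit 401459) (nat_lit 13) (.e (nat_lit 483375) (nat_lit 22) (.e (nat_lit 327705) (nat_lit 10) .nil))))) .nil)) 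
(.lf (nat_lit 4398) (.g (nat_lit 1309) (.e (nat_lit 256) (nat_lit 21) (.e (nat_lit 336228) (nat_lit 14) (.e (nat_lit 401459) (nat_lit 13) (.e (nat_lit 483372) (nat_lit 21) .nil)))) .nil))) (.nd (nat_lit 5) 
(.lf (nat_lit 4382) (.g (nat_lit 1851) (.e (nat_lit 256) (nat_lit 21) (.e (nat_lit 336228) (nat_lit 14) (.e (nat_lit 401438) (nat_lit 9) (.e (nat_lit 426533) (nat_lit 28) (.e (nat_lit 344084) (nat_lit 14) (.e (nat_lit 57864) (nat_lit 256) .nil)))))) (.g (nat_lit 6) .nil .nil))) 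
(.lf (nat_lit 4414) (.g (nat_lit 2415) (.e (nat_lit 257) (nat_lit 21) (.e (nat_lit 336013) (nat_lit 2) (.e (nat_lit 90170) (nat_lit 13) (.e (nat_lit 172106) (nat_lit 10) .nil)))) .nil))))))) (.nd (nat_lit 1) (.nd (nat_lit 2) (.nd (nat_lit 3) (.nd (nat_lit 4) (.nd (nat_lit 5) 
(.lf (nat_lit 4353) (.g (nat_lit 1684) (.e (nat_lit 256) (nat_lit 21) (.e (nat_lit 336028) (nat_lit 3) (.e (nat_lit 98373) (nat_lit 29) (.e (nat_lit 450587) (nat_lit 10) .nil)))) .nil)) 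
(.lf (nat_lit 4385) (.g (nat_lit 1705) (.e (nat_lit 256) (nat_lit 21) (.e (nat_lit 336228) (nat_lit 14) (.e (nat_lit 401457) (nat_lit 13) (.e (nat_lit 483377) (nat_lit 22) (.e (nat_lit 327708) (nat_lit 10) .nil))))) .nil))) (.nd (nat_lit 5) 
(.lf (nat_lit 4369) (.g (nat_lit 5211) (.e (nat_lit 256) (nat_lit 21) (.e (nat_lit 336228) (nat_lit 14) (.e (nat_lit 401428) (nat_lit 3) (.e (nat_lit 204869) (nat_lit 29) (.e (nat_lit 360474) (nat_lit 8) (.e (nat_lit 557080) (nat_lit 9) .nil)))))) (.g (nat_lit 5) .nil .nil))) 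
(.lf (nat_lit 4401) (.g (nat_lit 3651) (.e (nat_lit 256) (nat_lit 21) (.e (nat_lit 336228) (nat_lit 14) (.e (nat_lit 401459) (nat_lit 13) (.e (nat_lit 483372) (nat_lit 21) (.e (nat_lit 319504) (nat_lit 10) (.e (nat_lit 5714) (nat_lit 312) .nil)))))) (.g (nat_lit 0) .nil .nil))))) (.nd (nat_lit 4) (.nd (nat_lit 5) 
(.lf (nat_lit 4361) (.g (nat_lit 1663) (.e (nat_lit 256) (nat_lit 21) (.e (nat_lit 336226) (nat_lit 14) (.e (nat_lit 401459) (nat_lit 13) (.e (nat_lit 483350) (nat_lit 17) .nil)))) .nil)) 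
(.lf (nat_lit 4393) (.g (nat_lit 1703) (.e (nat_lit 256) (nat_lit 21) (.e (nat_lit 336228) (nat_lit 14) (.e (nat_lit 401459) (nat_lit 13) (.e (nat_lit 483354) (nat_lit 17) (.e (nat_lit 6206) (nat_lit 333) (.e (nat_lit 57862) (nat_lit 256) .nil)))))) (.g (nat_lit 5) .nil .nil)))) (.nd (nat_lit 5) 
(.lf (nat_lit 4377) (.g (nat_lit 2159) (.e (nat_lit 256) (nat_lit 21) (.e (nat_lit 336228) (nat_lit 14) (.e (nat_lit 401437) (nat_lit 9) (.e (nat_lit 426550) (nat_lit 31) (.e (nat_lit 368656) (nat_lit 14) (.e (nat_lit 57864) (nat_lit 256) .nil)))))) (.g (nat_lit 5) .nil .nil))) 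
(.lf (nat_lit 4409) (.g (nat_lit 2764) (.e (nat_lit 256) (nat_lit 21) (.e (nat_lit 336228) (nat_lit 14) (.e (nat_lit 401459) (nat_lit 13) (.e (nat_lit 483372) (nat_lit 21) (.e (nat_lit 327424) (nat_lit 10) .nil))))) .nil))))) (.nd (nat_lit 3) (.nd (nat_lit 4) (.nd (nat_lit 5) 
(.lf (nat_lit 4357) (.g (nat_lit 1621) (.e (nat_lit 256) (nat_lit 21) (.e (nat_lit 336173) (nat_lit 10) (.e (nat_lit 344123) (nat_lit 24) (.e (nat_lit 540724) (nat_lit 28) (.e (nat_lit 442376) (nat_lit 0) (.e (nat_lit 6672) (nat_lit 357) .nil)))))) (.g (nat_lit 6) .nil .nil))) 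
(.lf (nat_lit 4389) (.g (nat_lit 2769) (.e (nat_lit 256) (nat_lit 21) (.e (nat_lit 336228) (nat_lit 14) (.e (nat_lit 401459) (nat_lit 13) (.e (nat_lit 483350) (nat_lit 17) (.e (nat_lit 6218) (nat_lit 333) (.e (nat_lit 57862) (nat_lit 256) .nil)))))) (.g (nat_lit 5) .nil .nil)))) (.nd (nat_lit 5) 
(.lf (nat_lit 4373) (.g (nat_lit 1773) (.e (nat_lit 256) (nat_lit 21) (.e (nat_lit 336228) (nat_lit 14) (.e (nat_lit 401437) (nat_lit 9) (.e (nat_lit 426533) (nat_lit 28) (.e (nat_lit 344084) (nat_lit 14) (.e (nat_lit 57863) (nat_lit 256) .nil)))))) (.g (nat_lit 4) .nil .nil))) 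
(.lf (nat_lit 4405) (.g (nat_lit 3525) (.e (nat_lit 256) (nat_lit 21) (.e (nat_lit 336228) (nat_lit 14) (.e (nat_lit 401459) (nat_lit 13) (.e (nat_lit 483372) (nat_lit 21) (.e (nat_lit 319506) (nat_lit 10) (.e (nat_lit 5723) (nat_lit 312) .nil)))))) (.g (nat_lit 6) .nil .nil))))) (.nd (nat_lit 4) (.nd (nat_lit 5) 
(.lf (nat_lit 4365) (.g (nat_lit 3941) (.e (nat_lit 256) (nat_lit 21) (.e (nat_lit 336227) (nat_lit 14) (.e (nat_lit 401459) (nat_lit 13) (.e (nat_lit 483372) (nat_lit 21) (.e (nat_lit 319506) (nat_lit 10) .nil))))) .nil)) 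
(.lf (nat_lit 4397) (.g (nat_lit 1280) (.e (nat_lit 256) (nat_lit 21) (.e (nat_lit 336228) (nat_lit 14) (.e (nat_lit 401459) (nat_lit 13) (.e (nat_lit 491264) (nat_lit 17) .nil)))) .nil))) (.nd (nat_lit 5) 
(.lf (nat_lit 4381) (.g (nat_lit 1505) (.e (nat_lit 256) (nat_lit 21) (.e (nat_lit 336228) (nat_lit 14) (.e (nat_lit 401438) (nat_lit 9) (.e (nat_lit 426533) (nat_lit 28) (.e (nat_lit 344084) (nat_lit 14) (.e (nat_lit 57863) (nat_lit 256) .nil)))))) (.g (nat_lit 4) .nil .nil))) 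
(.lf (nat_lit 4413) (.g (nat_lit 2930) (.e (nat_lit 256) (nat_lit 21) (.e (nat_lit 336228) (nat_lit 14) (.e (nat_lit 401459) (nat_lit 13) (.e (nat_lit 483375) (nat_lit 22) (.e (nat_lit 327705) (nat_lit 10) (.e (nat_lit 5723) (nat_lit 312) .nil)))))) (.g (nat_lit 6) .nil .nil))))))) (.nd (nat_lit 2) (.nd (nat_lit 3) (.nd (nat_lit 4) (.nd (nat_lit 5) 
(.lf (nat_lit 4355) (.g (nat_lit 1715) (.e (nat_lit 256) (nat_lit 21) (.e (nat_lit 336061) (nat_lit 7) (.e (nat_lit 319531) (nat_lit 16) (.e (nat_lit 286748) (nat_lit 9) .nil)))) .nil)) 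
(.lf (nat_lit 4387) (.g (nat_lit 2244) (.e (nat_lit 256) (nat_lit 21) (.e (nat_lit 336228) (nat_lit 14) (.e (nat_lit 401458) (nat_lit 13) (.e (nat_lit 483372) (nat_lit 21) (.e (nat_lit 319511) (nat_lit 10) (.e (nat_lit 5664) (nat_lit 312) .nil)))))) (.g (nat_lit 4) .nil .nil)))) (.nd (nat_lit 5) 
(.lf (nat_lit 4371) (.g (nat_lit 651) (.e (nat_lit 256) (nat_lit 21) (.e (nat_lit 336228) (nat_lit 14) (.e (nat_lit 401436) (nat_lit 9) (.e (nat_lit 426533) (nat_lit 28) .nil)))) .nil)) 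
(.lf (nat_lit 4403) (.g (nat_lit 3548) (.e (nat_lit 256) (nat_lit 21) (.e (nat_lit 336228) (nat_lit 14) (.e (nat_lit 401459) (nat_lit 13) (.e (nat_lit 483372) (nat_lit 21) (.e (nat_lit 319506) (nat_lit 10) (.e (nat_lit 5721) (nat_lit 312) .nil)))))) (.g (nat_lit 6) .nil .nil))))) (.nd (nat_lit 4) (.nd (nat_lit 5) 
(.lf (nat_lit 4363) (.g (nat_lit 1880) (.e (nat_lit 256) (nat_lit 21) (.e (nat_lit 336227) (nat_lit 14) (.e (nat_lit 401458) (nat_lit 13) (.e (nat_lit 483350) (nat_lit 17) (.e (nat_lit 6218) (nat_lit 333) .nil))))) .nil)) 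
(.lf (nat_lit 4395) (.g (nat_lit 1807) (.e (nat_lit 256) (nat_lit 21) (.e (nat_lit 336228) (nat_lit 14) (.e (nat_lit 401459) (nat_lit 13) (.e (nat_lit 483354) (nat_lit 17) (.e (nat_lit 6206) (nat_lit 333) (.e (nat_lit 57865) (nat_lit 256) .nil)))))) (.g (nat_lit 6) .nil .nil)))) (.nd (nat_lit 5) 
(.lf (nat_lit 4379) (.g (nat_lit 1688) (.e (nat_lit 256) (nat_lit 21) (.e (nat_lit 336228) (nat_lit 14) (.e (nat_lit 401438) (nat_lit 9) (.e (nat_lit 426482) (nat_lit 27) (.e (nat_lit 336060) (nat_lit 7) .nil))))) .nil)) 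
(.lf (nat_lit 4411) (.g (nat_lit 2242) (.e (nat_lit 256) (nat_lit 21) (.e (nat_lit 336228) (nat_lit 14) (.e (nat_lit 401459) (nat_lit 13) (.e (nat_lit 483375) (nat_lit 22) (.e (nat_lit 327705) (nat_lit 10) .nil))))) .nil))))) (.nd (nat_lit 3) (.nd (nat_lit 4) (.nd (nat_lit 5) 
(.lf (nat_lit 4359) (.g (nat_lit 2081) (.e (nat_lit 256) (nat_lit 21) (.e (nat_lit 336176) (nat_lit 10) (.e (nat_lit 344133) (nat_lit 26) (.e (nat_lit 557119) (nat_lit 18) (.e (nat_lit 2798) (nat_lit 180) .nil))))) .nil)) 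
(.lf (nat_lit 4391) (.g (nat_lit 2822) (.e (nat_lit 256) (nat_lit 21) (.e (nat_lit 336228) (nat_lit 14) (.e (nat_lit 401459) (nat_lit 13) (.e (nat_lit 483350) (nat_lit 17) (.e (nat_lit 6218) (nat_lit 333) (.e (nat_lit 57864) (nat_lit 256) .nil)))))) (.g (nat_lit 6) .nil .nil)))) (.nd (nat_lit 5) 
(.lf (nat_lit 4375) (.g (nat_lit 2068) (.e (nat_lit 256) (nat_lit 21) (.e (nat_lit 336228) (nat_lit 14) (.e (nat_lit 401437) (nat_lit 9) (.e (nat_lit 426533) (nat_lit 28) (.e (nat_lit 344084) (nat_lit 14) (.e (nat_lit 57865) (nat_lit 256) .nil)))))) (.g (nat_lit 5) .nil .nil))) 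
(.lf (nat_lit 4407) (.g (nat_lit 3326) (.e (nat_lit 256) (nat_lit 21) (.e (nat_lit 336228) (nat_lit 14) (.e (nat_lit 401459) (nat_lit 13) (.e (nat_lit 483372) (nat_lit 21) (.e (nat_lit 319511) (nat_lit 10) (.e (nat_lit 5629) (nat_lit 312) .nil)))))) (.g (nat_lit 4) .nil .nil))))) (.nd (nat_lit 4) (.nd (nat_lit 5) 
(.lf (nat_lit 4367) (.g (nat_lit 2188) (.e (nat_lit 256) (nat_lit 21) (.e (nat_lit 336227) (nat_lit 14) (.e (nat_lit 401459) (nat_lit 13) (.e (nat_lit 483411) (nat_lit 27) (.e (nat_lit 401414) (nat_lit 0) .nil))))) .nil)) 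
(.lf (nat_lit 4399) (.g (nat_lit 3449) (.e (nat_lit 256) (nat_lit 21) (.e (nat_lit 336228) (nat_lit 14) (.e (nat_lit 401459) (nat_lit 13) (.e (nat_lit 483372) (nat_lit 21) (.e (nat_lit 319502) (nat_lit 10) .nil))))) .nil))) (.nd (nat_lit 5) 
(.lf (nat_lit 4383) (.g (nat_lit 1803) (.e (nat_lit 256) (nat_lit 21) (.e (nat_lit 336228) (nat_lit 14) (.e (nat_lit 401438) (nat_lit 9) (.e (nat_lit 426533) (nat_lit 28) (.e (nat_lit 344084) (nat_lit 14) (.e (nat_lit 57865) (nat_lit 256) .nil)))))) (.g (nat_lit 6) .nil .nil))) 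
(.lf (nat_lit 4415) (.g (nat_lit 2984) (.e (nat_lit 257) (nat_lit 21) (.e (nat_lit 336013) (nat_lit 2) (.e (nat_lit 90170) (nat_lit 13) (.e (nat_lit 172106) (nat_lit 10) (.e (nat_lit 434231) (nat_lit 23) .nil))))) .nil))))))))

noncomputable def tv059 : DT := (.nd (nat_lit 0) (.nd (nat_lit 1) (.nd (nat_lit 2) (.nd (nat_lit 3) (.nd (nat_lit 4) (.nd (nat_lit 5) 
(.lf (nat_lit 4416) (.g (nat_lit 3114) (.e (nat_lit 257) (nat_lit 21) (.e (nat_lit 336013) (nat_lit 2) (.e (nat_lit 90170) (nat_lit 13) (.e (nat_lit 172106) (nat_lit 10) (.e (nat_lit 434231) (nat_lit 23) (.e (nat_lit 532483) (nat_lit 0) (.e (nat_lit 1004) (nat_lit 81) (.e (nat_lit 4553) (nat_lit 269) (.e (nat_lit 2521) (nat_lit 157) .nil))))))))) (.g (nat_lit 4) .nil .nil))) 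
(.lf (nat_lit 4448) (.g (nat_lit 2516) (.e (nat_lit 257) (nat_lit 21) (.e (nat_lit 336228) (nat_lit 14) (.e (nat_lit 401456) (nat_lit 13) (.e (nat_lit 483372) (nat_lit 21) (.e (nat_lit 319506) (nat_lit 10) .nil))))) .nil))) (.nd (nat_lit 5) 
(.lf (nat_lit 4432) (.g (nat_lit 1896) (.e (nat_lit 257) (nat_lit 21) (.e (nat_lit 336227) (nat_lit 14) (.e (nat_lit 401458) (nat_lit 13) (.e (nat_lit 483372) (nat_lit 21) (.e (nat_lit 319506) (nat_lit 10) .nil))))) .nil)) 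
(.lf (nat_lit 4464) (.g (nat_lit 3572) (.e (nat_lit 257) (nat_lit 21) (.e (nat_lit 336228) (nat_lit 14) (.e (nat_lit 401459) (nat_lit 13) (.e (nat_lit 483372) (nat_lit 21) (.e (nat_lit 319506) (nat_lit 10) (.e (nat_lit 5723) (nat_lit 312) .nil)))))) (.g (nat_lit 6) .nil .nil))))) (.nd (nat_lit 4) (.nd (nat_lit 5) 
(.lf (nat_lit 4424) (.g (nat_lit 1712) (.e (nat_lit 257) (nat_lit 21) (.e (nat_lit 336028) (nat_lit 3) (.e (nat_lit 98372) (nat_lit 29) (.e (nat_lit 458496) (nat_lit 3) .nil)))) .nil)) 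
(.lf (nat_lit 4456) (.g (nat_lit 1300) (.e (nat_lit 257) (nat_lit 21) (.e (nat_lit 336228) (nat_lit 14) (.e (nat_lit 401459) (nat_lit 13) (.e (nat_lit 491264) (nat_lit 17) .nil)))) .nil))) (.nd (nat_lit 5) 
(.lf (nat_lit 4440) (.g (nat_lit 1992) (.e (nat_lit 257) (nat_lit 21) (.e (nat_lit 336228) (nat_lit 14) (.e (nat_lit 401437) (nat_lit 9) (.e (nat_lit 426533) (nat_lit 28) (.e (nat_lit 344084) (nat_lit 14) (.e (nat_lit 57862) (nat_lit 256) .nil)))))) (.g (nat_lit 0) .nil .nil))) 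
(.lf (nat_lit 4472) (.g (nat_lit 3048) (.e (nat_lit 258) (nat_lit 21) (.e (nat_lit 336013) (nat_lit 2) (.e (nat_lit 90170) (nat_lit 13) (.e (nat_lit 172106) (nat_lit 10) (.e (nat_lit 434244) (nat_lit 28) (.e (nat_lit 573474) (nat_lit 12) (.e (nat_lit 65280) (nat_lit 55) (.e (nat_lit 778339) (nat_lit 9) .nil)))))))) (.g (nat_lit 4) .nil .nil)))))) (.nd (nat_lit 3) (.nd (nat_lit 4) (.nd (nat_lit 5) 
(.lf (nat_lit 4420) (.g (nat_lit 3827) (.e (nat_lit 257) (nat_lit 21) (.e (nat_lit 336013) (nat_lit 2) (.e (nat_lit 90170) (nat_lit 13) (.e (nat_lit 172113) (nat_lit 10) (.e (nat_lit 434245) (nat_lit 28) .nil))))) .nil)) 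
(.lf (nat_lit 4452) (.g (nat_lit 1815) (.e (nat_lit 257) (nat_lit 21) (.e (nat_lit 336228) (nat_lit 14) (.e (nat_lit 401458) (nat_lit 13) (.e (nat_lit 483372) (nat_lit 21) (.e (nat_lit 319506) (nat_lit 10) .nil))))) .nil))) (.nd (nat_lit 5) 
(.lf (nat_lit 4436) (.g (nat_lit 2265) (.e (nat_lit 257) (nat_lit 21) (.e (nat_lit 336227) (nat_lit 14) (.e (nat_lit 401459) (nat_lit 13) (.e (nat_lit 483375) (nat_lit 22) (.e (nat_lit 327705) (nat_lit 10) .nil))))) .nil)) 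
(.lf (nat_lit 4468) (.g (nat_lit 2347) (.e (nat_lit 257) (nat_lit 21) (.e (nat_lit 336228) (nat_lit 14) (.e (nat_lit 401459) (nat_lit 13) (.e (nat_lit 483375) (nat_lit 22) (.e (nat_lit 327705) (nat_lit 10) .nil))))) .nil)))) (.nd (nat_lit 4) (.nd (nat_lit 5) 
(.lf (nat_lit 4428) (.g (nat_lit 347) (.e (nat_lit 257) (nat_lit 21) (.e (nat_lit 336099) (nat_lit 9) (.e (nat_lit 336013) (nat_lit 2) .nil))) .nil)) 
(.lf (nat_lit 4460) (.g (nat_lit 3427) (.e (nat_lit 257) (nat_lit 21) (.e (nat_lit 336228) (nat_lit 14) (.e (nat_lit 401459) (nat_lit 13) (.e (nat_lit 483372) (nat_lit 21) (.e (nat_lit 319502) (nat_lit 10) (.e (nat_lit 5677) (nat_lit 312) .nil)))))) (.g (nat_lit 5) .nil .nil)))) (.nd (nat_lit 5) 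
(.lf (nat_lit 4444) (.g (nat_lit 2079) (.e (nat_lit 257) (nat_lit 21) (.e (nat_lit 336228) (nat_lit 14) (.e (nat_lit 401437) (nat_lit 9) (.e (nat_lit 426550) (nat_lit 31) (.e (nat_lit 368656) (nat_lit 14) (.e (nat_lit 57862) (nat_lit 256) .nil)))))) (.g (nat_lit 6) .nil .nil))) 
(.lf (nat_lit 4476) (.g (nat_lit 3703) (.e (nat_lit 258) (nat_lit 21) (.e (nat_lit 336013) (nat_lit 2) (.e (nat_lit 90170) (nat_lit 13) (.e (nat_lit 172113) (nat_lit 10) (.e (nat_lit 434247) (nat_lit 28) (.e (nat_lit 573477) (nat_lit 12) (.e (nat_lit 57573) (nat_lit 55) (.e (nat_lit 778340) (nat_lit 9) .nil)))))))) (.g (nat_lit 4) .nil .nil))))))) 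
(.nd (nat_lit 2) (.nd (nat_lit 3) (.nd (nat_lit 4) (.nd (nat_lit 5) 
(.lf (nat_lit 4418) (.g (nat_lit 2813) (.e (nat_lit 257) (nat_lit 21) (.e (nat_lit 336013) (nat_lit 2) (.e (nat_lit 90170) (nat_lit 13) (.e (nat_lit 172106) (nat_lit 10) (.e (nat_lit 434244) (nat_lit 28) (.e (nat_lit 573474) (nat_lit 12) (.e (nat_lit 57346) (nat_lit 0) (.e (nat_lit 7404) (nat_lit 396) (.e (nat_lit 2521) (nat_lit 157) .nil))))))))) (.g (nat_lit 4) .nil .nil))) 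
(.lf (nat_lit 4450) (.g (nat_lit 2756) (.e (nat_lit 257) (nat_lit 21) (.e (nat_lit 336228) (nat_lit 14) (.e (nat_lit 401458) (nat_lit 13) (.e (nat_lit 483350) (nat_lit 17) (.e (nat_lit 6218) (nat_lit 333) (.e (nat_lit 57863) (nat_lit 256) .nil)))))) (.g (nat_lit 5) .nil .nil)))) (.nd (nat_lit 5) 
(.lf (nat_lit 4434) (.g (nat_lit 1604) (.e (nat_lit 257) (nat_lit 21) (.e (nat_lit 336227) (nat_lit 14) (.e (nat_lit 401459) (nat_lit 13) (.e (nat_lit 483354) (nat_lit 17) (.e (nat_lit 6206) (nat_lit 333) .nil))))) .nil)) 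
(.lf (nat_lit 4466) (.g (nat_lit 2655) (.e (nat_lit 257) (nat_lit 21) (.e (nat_lit 336228) (nat_lit 14) (.e (nat_lit 401459) (nat_lit 13) (.e (nat_lit 483372) (nat_lit 21) (.e (nat_lit 327424) (nat_lit 10) .nil))))) .nil)))) (.nd (nat_lit 4) (.nd (nat_lit 5) 
(.lf (nat_lit 4426) (.g (nat_lit 2623) (.e (nat_lit 257) (nat_lit 21) (.e (nat_lit 336028) (nat_lit 3) (.e (nat_lit 98373) (nat_lit 29) (.e (nat_lit 450587) (nat_lit 10) (.e (nat_lit 573478) (nat_lit 12) .nil))))) .nil)) 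
(.lf (nat_lit 4458) (.g (nat_lit 2993) (.e (nat_lit 257) (nat_lit 21) (.e (nat_lit 336228) (nat_lit 14) (.e (nat_lit 401459) (nat_lit 13) (.e (nat_lit 483372) (nat_lit 21) (.e (nat_lit 319502) (nat_lit 10) .nil))))) .nil))) (.nd (nat_lit 5) 
(.lf (nat_lit 4442) (.g (nat_lit 2003) (.e (nat_lit 257) (nat_lit 21) (.e (nat_lit 336228) (nat_lit 14) (.e (nat_lit 401437) (nat_lit 9) (.e (nat_lit 426533) (nat_lit 28) (.e (nat_lit 344084) (nat_lit 14) (.e (nat_lit 57864) (nat_lit 256) .nil)))))) (.g (nat_lit 0) .nil .nil))) 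
(.lf (nat_lit 4474) (.g (nat_lit 4245) (.e (nat_lit 258) (nat_lit 21) (.e (nat_lit 336013) (nat_lit 2) (.e (nat_lit 90170) (nat_lit 13) (.e (nat_lit 172113) (nat_lit 10) (.e (nat_lit 434245) (nat_lit 28) (.e (nat_lit 573474) (nat_lit 12) (.e (nat_lit 57573) (nat_lit 55) (.e (nat_lit 778340) (nat_lit 9) .nil)))))))) (.g (nat_lit 5) .nil .nil)))))) (.nd (nat_lit 3) (.nd (nat_lit 4) (.nd (nat_lit 5) 
(.lf (nat_lit 4422) (.g (nat_lit 3905) (.e (nat_lit 257) (nat_lit 21) (.e (nat_lit 336013) (nat_lit 2) (.e (nat_lit 90170) (nat_lit 13) (.e (nat_lit 172113) (nat_lit 10) (.e (nat_lit 434247) (nat_lit 28) .nil))))) .nil)) 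
(.lf (nat_lit 4454) (.g (nat_lit 1953) (.e (nat_lit 257) (nat_lit 21) (.e (nat_lit 336228) (nat_lit 14) (.e (nat_lit 401459) (nat_lit 13) (.e (nat_lit 483350) (nat_lit 17) (.e (nat_lit 6218) (nat_lit 333) .nil))))) .nil))) (.nd (nat_lit 5) 
(.lf (nat_lit 4438) (.g (nat_lit 2889) (.e (nat_lit 257) (nat_lit 21) (.e (nat_lit 336227) (nat_lit 14) (.e (nat_lit 401459) (nat_lit 13) (.e (nat_lit 483375) (nat_lit 22) (.e (nat_lit 327705) (nat_lit 10) (.e (nat_lit 5723) (nat_lit 312) .nil)))))) (.g (nat_lit 0) .nil .nil))) 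
(.lf (nat_lit 4470) (.g (nat_lit 2947) (.e (nat_lit 257) (nat_lit 21) (.e (nat_lit 336228) (nat_lit 14) (.e (nat_lit 401459) (nat_lit 13) (.e (nat_lit 483375) (nat_lit 22) (.e (nat_lit 327705) (nat_lit 10) (.e (nat_lit 5723) (nat_lit 312) .nil)))))) (.g (nat_lit 6) .nil .nil))))) (.nd (nat_lit 4) (.nd (nat_lit 5) 
(.lf (nat_lit 4430) (.g (nat_lit 1745) (.e (nat_lit 257) (nat_lit 21) (.e (nat_lit 336224) (nat_lit 13) (.e (nat_lit 393301) (nat_lit 27) (.e (nat_lit 491560) (nat_lit 10) (.e (nat_lit 352000) (nat_lit 44) .nil))))) .nil)) 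
(.lf (nat_lit 4462) (.g (nat_lit 2735) (.e (nat_lit 257) (nat_lit 21) (.e (nat_lit 336228) (nat_lit 14) (.e (nat_lit 401459) (nat_lit 13) (.e (nat_lit 483372) (nat_lit 21) (.e (nat_lit 319505) (nat_lit 10) (.e (nat_lit 5712) (nat_lit 312) .nil)))))) (.g (nat_lit 6) .nil .nil)))) (.nd (nat_lit 5) 
(.lf (nat_lit 4446) (.g (nat_lit 2087) (.e (nat_lit 257) (nat_lit 21) (.e (nat_lit 336228) (nat_lit 14) (.e (nat_lit 401437) (nat_lit 9) (.e (nat_lit 426550) (nat_lit 31) (.e (nat_lit 368656) (nat_lit 14) (.e (nat_lit 57865) (nat_lit 256) .nil)))))) (.g (nat_lit 6) .nil .nil))) 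
(.lf (nat_lit 4478) (.g (nat_lit 4367) (.e (nat_lit 258) (nat_lit 21) (.e (nat_lit 336013) (nat_lit 2) (.e (nat_lit 90170) (nat_lit 13) (.e (nat_lit 172113) (nat_lit 10) (.e (nat_lit 434248) (nat_lit 28) (.e (nat_lit 573475) (nat_lit 12) (.e (nat_lit 57573) (nat_lit 55) (.e (nat_lit 778340) (nat_lit 9) .nil)))))))) (.g (nat_lit 5) .nil .nil)))))))) 
(.nd (nat_lit 1) (.nd (nat_lit 2) (.nd (nat_lit 3) (.nd (nat_lit 4) (.nd (nat_lit 5) 
(.lf (nat_lit 4417) (.g (nat_lit 2739) (.e (nat_lit 257) (nat_lit 21) (.e (nat_lit 336013) (nat_lit 2) (.e (nat_lit 90170) (nat_lit 13) (.e (nat_lit 172106) (nat_lit 10) (.e (nat_lit 434244) (nat_lit 28) .nil))))) .nil)) 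
(.lf (nat_lit 4449) (.g (nat_lit 2714) (.e (nat_lit 257) (nat_lit 21) (.e (nat_lit 336228) (nat_lit 14) (.e (nat_lit 401458) (nat_lit 13) (.e (nat_lit 483350) (nat_lit 17) (.e (nat_lit 6218) (nat_lit 333) (.e (nat_lit 57862) (nat_lit 256) .nil)))))) (.g (nat_lit 5) .nil .nil)))) (.nd (nat_lit 5) 
(.lf (nat_lit 4433) (.g (nat_lit 2521) (.e (nat_lit 257) (nat_lit 21) (.e (nat_lit 336227) (nat_lit 14) (.e (nat_lit 401459) (nat_lit 13) (.e (nat_lit 483344) (nat_lit 17) (.e (nat_lit 6221) (nat_lit 333) (.e (nat_lit 57865) (nat_lit 256) .nil)))))) (.g (nat_lit 5) .nil .nil))) 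
(.lf (nat_lit 4465) (.g (nat_lit 3901) (.e (nat_lit 257) (nat_lit 21) (.e (nat_lit 336228) (nat_lit 14) (.e (nat_lit 401459) (nat_lit 13) (.e (nat_lit 483372) (nat_lit 21) (.e (nat_lit 319509) (nat_lit 10) (.e (nat_lit 5723) (nat_lit 312) .nil)))))) (.g (nat_lit 6) .nil .nil))))) (.nd (nat_lit 4) (.nd (nat_lit 5) 
(.lf (nat_lit 4425) (.g (nat_lit 1684) (.e (nat_lit 257) (nat_lit 21) (.e (nat_lit 336028) (nat_lit 3) (.e (nat_lit 98373) (nat_lit 29) (.e (nat_lit 450587) (nat_lit 10) .nil)))) .nil)) 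
(.lf (nat_lit 4457) (.g (nat_lit 3921) (.e (nat_lit 257) (nat_lit 21) (.e (nat_lit 336228) (nat_lit 14) (.e (nat_lit 401459) (nat_lit 13) (.e (nat_lit 483372) (nat_lit 21) (.e (nat_lit 319496) (nat_lit 10) .nil))))) .nil))) (.nd (nat_lit 5) 
(.lf (nat_lit 4441) (.g (nat_lit 1979) (.e (nat_lit 257) (nat_lit 21) (.e (nat_lit 336228) (nat_lit 14) (.e (nat_lit 401437) (nat_lit 9) (.e (nat_lit 426533) (nat_lit 28) (.e (nat_lit 344084) (nat_lit 14) (.e (nat_lit 57863) (nat_lit 256) .nil)))))) (.g (nat_lit 6) .nil .nil))) 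
(.lf (nat_lit 4473) (.g (nat_lit 2636) (.e (nat_lit 258) (nat_lit 21) (.e (nat_lit 336013) (nat_lit 2) (.e (nat_lit 90170) (nat_lit 13) (.e (nat_lit 172113) (nat_lit 10) .nil)))) .nil))))) (.nd (nat_lit 3) (.nd (nat_lit 4) (.nd (nat_lit 5) 
(.lf (nat_lit 4421) (.g (nat_lit 4015) (.e (nat_lit 257) (nat_lit 21) (.e (nat_lit 336013) (nat_lit 2) (.e (nat_lit 90170) (nat_lit 13) (.e (nat_lit 172113) (nat_lit 10) (.e (nat_lit 434245) (nat_lit 28) (.e (nat_lit 573474) (nat_lit 12) (.e (nat_lit 57573) (nat_lit 55) (.e (nat_lit 778436) (nat_lit 9) .nil)))))))) (.g (nat_lit 4) .nil .nil))) 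
(.lf (nat_lit 4453) (.g (nat_lit 1305) (.e (nat_lit 257) (nat_lit 21) (.e (nat_lit 336228) (nat_lit 14) (.e (nat_lit 401459) (nat_lit 13) (.e (nat_lit 483342) (nat_lit 17) .nil)))) .nil))) (.nd (nat_lit 5) 
(.lf (nat_lit 4437) (.g (nat_lit 2723) (.e (nat_lit 257) (nat_lit 21) (.e (nat_lit 336227) (nat_lit 14) (.e (nat_lit 401459) (nat_lit 13) (.e (nat_lit 483375) (nat_lit 22) (.e (nat_lit 327705) (nat_lit 10) (.e (nat_lit 5722) (nat_lit 312) .nil)))))) (.g (nat_lit 5) .nil .nil))) 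
(.lf (nat_lit 4469) (.g (nat_lit 2761) (.e (nat_lit 257) (nat_lit 21) (.e (nat_lit 336228) (nat_lit 14) (.e (nat_lit 401459) (nat_lit 13) (.e (nat_lit 483375) (nat_lit 22) (.e (nat_lit 327705) (nat_lit 10) (.e (nat_lit 5722) (nat_lit 312) .nil)))))) (.g (nat_lit 5) .nil .nil))))) (.nd (nat_lit 4) (.nd (nat_lit 5) 
(.lf (nat_lit 4429) (.g (nat_lit 1802) (.e (nat_lit 257) (nat_lit 21) (.e (nat_lit 336224) (nat_lit 13) (.e (nat_lit 393301) (nat_lit 27) (.e (nat_lit 491558) (nat_lit 10) (.e (nat_lit 352000) (nat_lit 44) .nil))))) .nil)) 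
(.lf (nat_lit 4461) (.g (nat_lit 2139) (.e (nat_lit 257) (nat_lit 21) (.e (nat_lit 336228) (nat_lit 14) (.e (nat_lit 401459) (nat_lit 13) (.e (nat_lit 483372) (nat_lit 21) (.e (nat_lit 319504) (nat_lit 10) (.e (nat_lit 7936) (nat_lit 312) .nil)))))) (.g (nat_lit 5) .nil .nil)))) (.nd (nat_lit 5) 
(.lf (nat_lit 4445) (.g (nat_lit 2112) (.e (nat_lit 257) (nat_lit 21) (.e (nat_lit 336228) (nat_lit 14) (.e (nat_lit 401437) (nat_lit 9) (.e (nat_lit 426550) (nat_lit 31) (.e (nat_lit 368656) (nat_lit 14) (.e (nat_lit 57864) (nat_lit 256) .nil)))))) (.g (nat_lit 0) .nil .nil))) 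
(.lf (nat_lit 4477) (.g (nat_lit 3709) (.e (nat_lit 258) (nat_lit 21) (.e (nat_lit 336013) (nat_lit 2) (.e (nat_lit 90170) (nat_lit 13) (.e (nat_lit 172113) (nat_lit 10) (.e (nat_lit 434247) (nat_lit 28) (.e (nat_lit 573478) (nat_lit 12) (.e (nat_lit 57573) (nat_lit 55) (.e (nat_lit 778340) (nat_lit 9) .nil)))))))) (.g (nat_lit 4) .nil .nil))))))) 
(.nd (nat_lit 2) (.nd (nat_lit 3) (.nd (nat_lit 4) (.nd (nat_lit 5) 
(.lf (nat_lit 4419) (.g (nat_lit 3038) (.e (nat_lit 257) (nat_lit 21) (.e (nat_lit 336013) (nat_lit 2) (.e (nat_lit 90170) (nat_lit 13) (.e (nat_lit 172113) (nat_lit 10) .nil)))) .nil)) 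
(.lf (nat_lit 4451) (.g (nat_lit 2784) (.e (nat_lit 257) (nat_lit 21) (.e (nat_lit 336228) (nat_lit 14) (.e (nat_lit 401458) (nat_lit 13) (.e (nat_lit 483350) (nat_lit 17) (.e (nat_lit 6218) (nat_lit 333) (.e (nat_lit 57864) (nat_lit 256) .nil)))))) (.g (nat_lit 0) .nil .nil)))) (.nd (nat_lit 5) 
(.lf (nat_lit 4435) (.g (nat_lit 4680) (.e (nat_lit 257) (nat_lit 21) (.e (nat_lit 336227) (nat_lit 14) (.e (nat_lit 401459) (nat_lit 13) (.e (nat_lit 483372) (nat_lit 21) (.e (nat_lit 319502) (nat_lit 10) .nil))))) .nil)) 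
(.lf (nat_lit 4467) (.g (nat_lit 2123) (.e (nat_lit 257) (nat_lit 21) (.e (nat_lit 336228) (nat_lit 14) (.e (nat_lit 401459) (nat_lit 13) (.e (nat_lit 483374) (nat_lit 22) (.e (nat_lit 327705) (nat_lit 10) .nil))))) .nil)))) (.nd (nat_lit 4) (.nd (nat_lit 5) 
(.lf (nat_lit 4427) (.g (nat_lit 2827) (.e (nat_lit 257) (nat_lit 21) (.e (nat_lit 336028) (nat_lit 3) (.e (nat_lit 98373) (nat_lit 29) (.e (nat_lit 450588) (nat_lit 10) (.e (nat_lit 573475) (nat_lit 12) .nil))))) .nil)) 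
(.lf (nat_lit 4459) (.g (nat_lit 3163) (.e (nat_lit 257) (nat_lit 21) (.e (nat_lit 336228) (nat_lit 14) (.e (nat_lit 401459) (nat_lit 13) (.e (nat_lit 483372) (nat_lit 21) (.e (nat_lit 319502) (nat_lit 10) (.e (nat_lit 5675) (nat_lit 312) .nil)))))) (.g (nat_lit 4) .nil .nil)))) (.nd (nat_lit 5) 
(.lf (nat_lit 4443) (.g (nat_lit 1962) (.e (nat_lit 257) (nat_lit 21) (.e (nat_lit 336228) (nat_lit 14) (.e (nat_lit 401437) (nat_lit 9) (.e (nat_lit 426533) (nat_lit 28) (.e (nat_lit 344084) (nat_lit 14) (.e (nat_lit 57865) (nat_lit 256) .nil)))))) (.g (nat_lit 6) .nil .nil))) 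
(.lf (nat_lit 4475) (.g (nat_lit 3503) (.e (nat_lit 258) (nat_lit 21) (.e (nat_lit 336013) (nat_lit 2) (.e (nat_lit 90170) (nat_lit 13) (.e (nat_lit 172113) (nat_lit 10) (.e (nat_lit 434247) (nat_lit 28) .nil))))) .nil))))) (.nd (nat_lit 3) (.nd (nat_lit 4) (.nd (nat_lit 5) 
(.lf (nat_lit 4423) (.g (nat_lit 3836) (.e (nat_lit 257) (nat_lit 21) (.e (nat_lit 336013) (nat_lit 2) (.e (nat_lit 90170) (nat_lit 13) (.e (nat_lit 172113) (nat_lit 10) (.e (nat_lit 434248) (nat_lit 28) .nil))))) .nil)) 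
(.lf (nat_lit 4455) (.g (nat_lit 3211) (.e (nat_lit 257) (nat_lit 21) (.e (nat_lit 336228) (nat_lit 14) (.e (nat_lit 401459) (nat_lit 13) (.e (nat_lit 483350) (nat_lit 17) (.e (nat_lit 6218) (nat_lit 333) (.e (nat_lit 57863) (nat_lit 256) .nil)))))) (.g (nat_lit 0) .nil .nil)))) (.nd (nat_lit 5) 
(.lf (nat_lit 4439) (.g (nat_lit 767) (.e (nat_lit 257) (nat_lit 21) (.e (nat_lit 336228) (nat_lit 14) (.e (nat_lit 401436) (nat_lit 9) (.e (nat_lit 426533) (nat_lit 28) (.e (nat_lit 344084) (nat_lit 14) .nil))))) .nil)) 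
(.lf (nat_lit 4471) (.g (nat_lit 2460) (.e (nat_lit 258) (nat_lit 21) (.e (nat_lit 336013) (nat_lit 2) (.e (nat_lit 90170) (nat_lit 13) (.e (nat_lit 172106) (nat_lit 10) .nil)))) .nil)))) (.nd (nat_lit 4) (.nd (nat_lit 5) 
(.lf (nat_lit 4431) (.g (nat_lit 2739) (.e (nat_lit 257) (nat_lit 21) (.e (nat_lit 336227) (nat_lit 14) (.e (nat_lit 401458) (nat_lit 13) (.e (nat_lit 483350) (nat_lit 17) (.e (nat_lit 6218) (nat_lit 333) (.e (nat_lit 57864) (nat_lit 256) .nil)))))) (.g (nat_lit 5) .nil .nil))) 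
(.lf (nat_lit 4463) (.g (nat_lit 3661) (.e (nat_lit 257) (nat_lit 21) (.e (nat_lit 336228) (nat_lit 14) (.e (nat_lit 401459) (nat_lit 13) (.e (nat_lit 483372) (nat_lit 21) (.e (nat_lit 319506) (nat_lit 10) (.e (nat_lit 5721) (nat_lit 312) .nil)))))) (.g (nat_lit 6) .nil .nil)))) (.nd (nat_lit 5) 
(.lf (nat_lit 4447) (.g (nat_lit 1704) (.e (nat_lit 257) (nat_lit 21) (.e (nat_lit 336228) (nat_lit 14) (.e (nat_lit 401438) (nat_lit 9) (.e (nat_lit 426533) (nat_lit 28) (.e (nat_lit 344084) (nat_lit 14) (.e (nat_lit 57865) (nat_lit 256) .nil)))))) (.g (nat_lit 0) .nil .nil))) 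
(.lf (nat_lit 4479) (.g (nat_lit 1993) (.e (nat_lit 258) (nat_lit 21) (.e (nat_lit 336028) (nat_lit 3) (.e (nat_lit 98359) (nat_lit 26) (.e (nat_lit 426286) (nat_lit 10) (.e (nat_lit 434247) (nat_lit 28) .nil))))) .nil))))))))

noncomputable def tv060 : DT := (.nd (nat_lit 0) (.nd (nat_lit 1) (.nd (nat_lit 2) (.nd (nat_lit 3) (.nd (nat_lit 4) (.nd (nat_lit 5) (.nd (nat_lit 6) 
(.lf (nat_lit 4480) (.g (nat_lit 2226) (.e (nat_lit 258) (nat_lit 21) (.e (nat_lit 336028) (nat_lit 3) (.e (nat_lit 98359) (nat_lit 26) (.e (nat_lit 426286) (nat_lit 10) (.e (nat_lit 434247) (nat_lit 28) (.e (nat_lit 573477) (nat_lit 12) (.e (nat_lit 57573) (nat_lit 55) (.e (nat_lit 778340) (nat_lit 9) .nil)))))))) (.g (nat_lit 4) .nil .nil))) 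
(.lf (nat_lit 4544) (.g (nat_lit 1232) (.e (nat_lit 263) (nat_lit 21) (.e (nat_lit 336408) (nat_lit 27) (.e (nat_lit 426188) (nat_lit 9) (.e (nat_lit 426432) (nat_lit 17) (.e (nat_lit 90203) (nat_lit 21) .nil))))) .nil))) (.nd (nat_lit 6) 
(.lf (nat_lit 4512) (.g (nat_lit 3092) (.e (nat_lit 258) (nat_lit 21) (.e (nat_lit 336228) (nat_lit 14) (.e (nat_lit 401459) (nat_lit 13) (.e (nat_lit 483372) (nat_lit 21) (.e (nat_lit 319511) (nat_lit 10) .nil))))) .nil)) 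
(.lf (nat_lit 4576) (.g (nat_lit 4817) (.e (nat_lit 267) (nat_lit 21) (.e (nat_lit 336013) (nat_lit 2) (.e (nat_lit 90170) (nat_lit 13) (.e (nat_lit 172113) (nat_lit 10) (.e (nat_lit 434247) (nat_lit 28) (.e (nat_lit 573477) (nat_lit 12) (.e (nat_lit 57575) (nat_lit 55) (.e (nat_lit 778374) (nat_lit 9) .nil)))))))) (.g (nat_lit 5) .nil .nil))))) (.nd (nat_lit 5) (.nd (nat_lit 6) 
(.lf (nat_lit 4496) (.g (nat_lit 4680) (.e (nat_lit 258) (nat_lit 21) (.e (nat_lit 336227) (nat_lit 14) (.e (nat_lit 401459) (nat_lit 13) (.e (nat_lit 483372) (nat_lit 21) (.e (nat_lit 319513) (nat_lit 10) .nil))))) .nil)) 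
(.lf (nat_lit 4560) (.g (nat_lit 2392) (.e (nat_lit 265) (nat_lit 21) (.e (nat_lit 336178) (nat_lit 10) (.e (nat_lit 344117) (nat_lit 21) (.e (nat_lit 516106) (nat_lit 0) (.e (nat_lit 7936) (nat_lit 407) .nil))))) .nil))) (.nd (nat_lit 6) 
(.lf (nat_lit 4528) (.g (nat_lit 2172) (.e (nat_lit 260) (nat_lit 21) (.e (nat_lit 336223) (nat_lit 13) (.e (nat_lit 393301) (nat_lit 27) (.e (nat_lit 491558) (nat_lit 10) .nil)))) .nil)) 
(.lf (nat_lit 4592) (.g (nat_lit 2264) (.e (nat_lit 267) (nat_lit 21) (.e (nat_lit 336228) (nat_lit 14) (.e (nat_lit 401459) (nat_lit 13) (.e (nat_lit 483372) (nat_lit 21) (.e (nat_lit 319504) (nat_lit 10) (.e (nat_lit 7936) (nat_lit 312) .nil)))))) (.g (nat_lit 5) .nil .nil)))))) (.nd (nat_lit 4) (.nd (nat_lit 5) (.nd (nat_lit 6) 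
(.lf (nat_lit 4488) (.g (nat_lit 2452) (.e (nat_lit 258) (nat_lit 21) (.e (nat_lit 336028) (nat_lit 3) (.e (nat_lit 98373) (nat_lit 29) (.e (nat_lit 450587) (nat_lit 10) (.e (nat_lit 573477) (nat_lit 12) .nil))))) .nil)) 
(.lf (nat_lit 4552) (.g (nat_lit 4592) (.e (nat_lit 265) (nat_lit 21) (.e (nat_lit 336013) (nat_lit 2) (.e (nat_lit 90170) (nat_lit 13) (.e (nat_lit 172113) (nat_lit 10) (.e (nat_lit 434248) (nat_lit 28) (.e (nat_lit 573475) (nat_lit 12) (.e (nat_lit 57574) (nat_lit 55) (.e (nat_lit 778361) (nat_lit 9) .nil)))))))) (.g (nat_lit 5) .nil .nil)))) (.nd (nat_lit 6) 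
(.lf (nat_lit 4520) (.g (nat_lit 1062) (.e (nat_lit 259) (nat_lit 21) (.e (nat_lit 336226) (nat_lit 14) (.e (nat_lit 401458) (nat_lit 13) (.e (nat_lit 483372) (nat_lit 21) .nil)))) .nil)) 
(.lf (nat_lit 4584) (.g (nat_lit 1754) (.e (nat_lit 267) (nat_lit 21) (.e (nat_lit 336061) (nat_lit 7) (.e (nat_lit 319531) (nat_lit 16) (.e (nat_lit 286759) (nat_lit 12) .nil)))) .nil)))) (.nd (nat_lit 5) (.nd (nat_lit 6) 
(.lf (nat_lit 4504) (.g (nat_lit 1879) (.e (nat_lit 258) (nat_lit 21) (.e (nat_lit 336228) (nat_lit 14) (.e (nat_lit 401458) (nat_lit 13) (.e (nat_lit 483350) (nat_lit 17) (.e (nat_lit 6225) (nat_lit 334) (.e (nat_lit 123165) (nat_lit 256) .nil)))))) (.g (nat_lit 4) .nil .nil))) 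
(.lf (nat_lit 4568) (.g (nat_lit 2538) (.e (nat_lit 265) (nat_lit 21) (.e (nat_lit 336228) (nat_lit 14) (.e (nat_lit 401459) (nat_lit 13) (.e (nat_lit 483372) (nat_lit 21) (.e (nat_lit 319504) (nat_lit 10) (.e (nat_lit 7936) (nat_lit 312) .nil)))))) (.g (nat_lit 5) .nil .nil)))) (.nd (nat_lit 6) 
(.lf (nat_lit 4536) (.g (nat_lit 3195) (.e (nat_lit 261) (nat_lit 21) (.e (nat_lit 336223) (nat_lit 13) (.e (nat_lit 393301) (nat_lit 27) (.e (nat_lit 491560) (nat_lit 10) (.e (nat_lit 344178) (nat_lit 44) .nil))))) .nil)) 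
(.lf (nat_lit 4600) (.g (nat_lit 3117) (.e (nat_lit 268) (nat_lit 21) (.e (nat_lit 336013) (nat_lit 2) (.e (nat_lit 90170) (nat_lit 13) (.e (nat_lit 172106) (nat_lit 10) (.e (nat_lit 434247) (nat_lit 28) .nil))))) .nil)))))) (.nd (nat_lit 3) (.nd (nat_lit 4) (.nd (nat_lit 5) (.nd (nat_lit 6) 
(.lf (nat_lit 4484) (.g (nat_lit 2149) (.e (nat_lit 258) (nat_lit 21) (.e (nat_lit 336028) (nat_lit 3) (.e (nat_lit 98372) (nat_lit 29) (.e (nat_lit 450586) (nat_lit 10) (.e (nat_lit 573477) (nat_lit 12) .nil))))) .nil)) 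
(.lf (nat_lit 4548) (.g (nat_lit 1951) (.e (nat_lit 264) (nat_lit 21) (.e (nat_lit 336223) (nat_lit 13) (.e (nat_lit 393301) (nat_lit 27) (.e (nat_lit 491560) (nat_lit 10) .nil)))) .nil))) (.nd (nat_lit 6) 
(.lf (nat_lit 4516) (.g (nat_lit 3026) (.e (nat_lit 258) (nat_lit 21) (.e (nat_lit 336228) (nat_lit 14) (.e (nat_lit 401459) (nat_lit 13) (.e (nat_lit 483372) (nat_lit 21) (.e (nat_lit 327424) (nat_lit 10) (.e (nat_lit 5619) (nat_lit 312) .nil)))))) (.g (nat_lit 4) .nil .nil))) 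
(.lf (nat_lit 4580) (.g (nat_lit 2613) (.e (nat_lit 267) (nat_lit 21) (.e (nat_lit 336028) (nat_lit 3) (.e (nat_lit 98373) (nat_lit 29) (.e (nat_lit 450587) (nat_lit 10) (.e (nat_lit 573478) (nat_lit 12) .nil))))) .nil)))) (.nd (nat_lit 5) (.nd (nat_lit 6) 
(.lf (nat_lit 4500) (.g (nat_lit 2241) (.e (nat_lit 258) (nat_lit 21) (.e (nat_lit 336228) (nat_lit 14) (.e (nat_lit 401437) (nat_lit 9) (.e (nat_lit 426533) (nat_lit 28) (.e (nat_lit 344085) (nat_lit 15) (.e (nat_lit 123166) (nat_lit 256) .nil)))))) (.g (nat_lit 6) .nil .nil))) 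
(.lf (nat_lit 4564) (.g (nat_lit 2667) (.e (nat_lit 265) (nat_lit 21) (.e (nat_lit 336178) (nat_lit 10) (.e (nat_lit 344126) (nat_lit 25) (.e (nat_lit 548889) (nat_lit 9) (.e (nat_lit 65617) (nat_lit 10) .nil))))) .nil))) (.nd (nat_lit 6) 
(.lf (nat_lit 4532) (.g (nat_lit 1789) (.e (nat_lit 261) (nat_lit 21) (.e (nat_lit 336223) (nat_lit 13) (.e (nat_lit 393234) (nat_lit 17) (.e (nat_lit 7591) (nat_lit 407) .nil)))) .nil)) 
(.lf (nat_lit 4596) (.g (nat_lit 3125) (.e (nat_lit 268) (nat_lit 21) (.e (nat_lit 336013) (nat_lit 2) (.e (nat_lit 90170) (nat_lit 13) (.e (nat_lit 172106) (nat_lit 10) (.e (nat_lit 434242) (nat_lit 28) .nil))))) .nil))))) (.nd (nat_lit 4) (.nd (nat_lit 5) (.nd (nat_lit 6) 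
(.lf (nat_lit 4492) (.g (nat_lit 3649) (.e (nat_lit 258) (nat_lit 21) (.e (nat_lit 336028) (nat_lit 3) (.e (nat_lit 98373) (nat_lit 29) (.e (nat_lit 450588) (nat_lit 10) (.e (nat_lit 573475) (nat_lit 12) (.e (nat_lit 57573) (nat_lit 55) (.e (nat_lit 778340) (nat_lit 9) .nil))))))) (.g (nat_lit 5) .nil .nil))) 
(.lf (nat_lit 4556) (.g (nat_lit 2663) (.e (nat_lit 265) (nat_lit 21) (.e (nat_lit 336028) (nat_lit 3) (.e (nat_lit 98373) (nat_lit 29) (.e (nat_lit 450587) (nat_lit 10) (.e (nat_lit 573477) (nat_lit 12) .nil))))) .nil))) (.nd (nat_lit 6) 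
(.lf (nat_lit 4524) (.g (nat_lit 1691) (.e (nat_lit 260) (nat_lit 21) (.e (nat_lit 336027) (nat_lit 3) (.e (nat_lit 98372) (nat_lit 29) (.e (nat_lit 450579) (nat_lit 5) .nil)))) .nil)) 
(.lf (nat_lit 4588) (.g (nat_lit 1905) (.e (nat_lit 267) (nat_lit 21) (.e (nat_lit 336224) (nat_lit 13) (.e (nat_lit 393225) (nat_lit 9) (.e (nat_lit 335995) (nat_lit 1) (.e (nat_lit 57848) (nat_lit 252) .nil))))) .nil)))) (.nd (nat_lit 5) (.nd (nat_lit 6) 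
(.lf (nat_lit 4508) (.g (nat_lit 2297) (.e (nat_lit 258) (nat_lit 21) (.e (nat_lit 336228) (nat_lit 14) (.e (nat_lit 401459) (nat_lit 13) (.e (nat_lit 483350) (nat_lit 17) (.e (nat_lit 6225) (nat_lit 334) (.e (nat_lit 123165) (nat_lit 256) .nil)))))) (.g (nat_lit 4) .nil .nil))) 
(.lf (nat_lit 4572) (.g (nat_lit 2409) (.e (nat_lit 266) (nat_lit 21) (.e (nat_lit 336223) (nat_lit 13) (.e (nat_lit 393234) (nat_lit 17) (.e (nat_lit 7591) (nat_lit 407) (.e (nat_lit 73775) (nat_lit 26) .nil))))) .nil))) (.nd (nat_lit 6) 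
(.lf (nat_lit 4540) (.g (nat_lit 1790) (.e (nat_lit 263) (nat_lit 21) (.e (nat_lit 336223) (nat_lit 13) (.e (nat_lit 393234) (nat_lit 17) (.e (nat_lit 7591) (nat_lit 407) .nil)))) .nil)) 
(.lf (nat_lit 4604) (.g (nat_lit 2482) (.e (nat_lit 268) (nat_lit 21) (.e (nat_lit 336013) (nat_lit 2) (.e (nat_lit 90170) (nat_lit 13) (.e (nat_lit 172113) (nat_lit 10) (.e (nat_lit 434245) (nat_lit 28) (.e (nat_lit 573474) (nat_lit 12) (.e (nat_lit 57574) (nat_lit 55) (.e (nat_lit 778360) (nat_lit 9) .nil)))))))) (.g (nat_lit 4) .nil .nil)))))))) 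
(.nd (nat_lit 2) (.nd (nat_lit 3) (.nd (nat_lit 4) (.nd (nat_lit 5) (.nd (nat_lit 6) 
(.lf (nat_lit 4482) (.g (nat_lit 3086) (.e (nat_lit 258) (nat_lit 21) (.e (nat_lit 336028) (nat_lit 3) (.e (nat_lit 98359) (nat_lit 26) (.e (nat_lit 426286) (nat_lit 10) (.e (nat_lit 434248) (nat_lit 28) (.e (nat_lit 573475) (nat_lit 12) (.e (nat_lit 57573) (nat_lit 55) (.e (nat_lit 778340) (nat_lit 9) .nil)))))))) (.g (nat_lit 5) .nil .nil))) 
(.lf (nat_lit 4546) (.g (nat_lit 1814) (.e (nat_lit 264) (nat_lit 21) (.e (nat_lit 336223) (nat_lit 13) (.e (nat_lit 393234) (nat_lit 17) (.e (nat_lit 7591) (nat_lit 407) .nil)))) .nil))) (.nd (nat_lit 6) 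
(.lf (nat_lit 4514) (.g (nat_lit 3856) (.e (nat_lit 258) (nat_lit 21) (.e (nat_lit 336228) (nat_lit 14) (.e (nat_lit 401459) (nat_lit 13) (.e (nat_lit 483372) (nat_lit 21) (.e (nat_lit 319513) (nat_lit 10) (.e (nat_lit 5634) (nat_lit 312) .nil)))))) (.g (nat_lit 0) .nil .nil))) 
(.lf (nat_lit 4578) (.g (nat_lit 744) (.e (nat_lit 267) (nat_lit 21) (.e (nat_lit 336028) (nat_lit 3) (.e (nat_lit 98373) (nat_lit 29) .nil))) .nil)))) (.nd (nat_lit 5) (.nd (nat_lit 6) 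
(.lf (nat_lit 4498) (.g (nat_lit 1895) (.e (nat_lit 258) (nat_lit 21) (.e (nat_lit 336228) (nat_lit 14) (.e (nat_lit 401437) (nat_lit 9) (.e (nat_lit 426482) (nat_lit 27) (.e (nat_lit 336060) (nat_lit 7) .nil))))) .nil)) 
(.lf (nat_lit 4562) (.g (nat_lit 1956) (.e (nat_lit 265) (nat_lit 21) (.e (nat_lit 336178) (nat_lit 10) (.e (nat_lit 344117) (nat_lit 21) (.e (nat_lit 516147) (nat_lit 9) (.e (nat_lit 426446) (nat_lit 20) (.e (nat_lit 114715) (nat_lit 22) (.e (nat_lit 90121) (nat_lit 9) .nil))))))) (.g (nat_lit 4) .nil .nil)))) (.nd (nat_lit 6) 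
(.lf (nat_lit 4530) (.g (nat_lit 2844) (.e (nat_lit 260) (nat_lit 21) (.e (nat_lit 336223) (nat_lit 13) (.e (nat_lit 393301) (nat_lit 27) (.e (nat_lit 491560) (nat_lit 10) (.e (nat_lit 344179) (nat_lit 44) .nil))))) .nil)) 
(.lf (nat_lit 4594) (.g (nat_lit 4798) (.e (nat_lit 268) (nat_lit 21) (.e (nat_lit 336001) (nat_lit 2) (.e (nat_lit 90170) (nat_lit 13) (.e (nat_lit 172113) (nat_lit 10) (.e (nat_lit 434247) (nat_lit 28) (.e (nat_lit 573477) (nat_lit 12) (.e (nat_lit 57574) (nat_lit 55) (.e (nat_lit 778362) (nat_lit 9) .nil)))))))) (.g (nat_lit 7) .nil .nil)))))) (.nd (nat_lit 4) (.nd (nat_lit 5) (.nd (nat_lit 6) 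
(.lf (nat_lit 4490) (.g (nat_lit 2411) (.e (nat_lit 258) (nat_lit 21) (.e (nat_lit 336028) (nat_lit 3) (.e (nat_lit 98373) (nat_lit 29) (.e (nat_lit 450587) (nat_lit 10) (.e (nat_lit 573478) (nat_lit 12) .nil))))) .nil)) 
(.lf (nat_lit 4554) (.g (nat_lit 2136) (.e (nat_lit 265) (nat_lit 21) (.e (nat_lit 336028) (nat_lit 3) (.e (nat_lit 98372) (nat_lit 29) (.e (nat_lit 450586) (nat_lit 10) (.e (nat_lit 573475) (nat_lit 12) .nil))))) .nil))) (.nd (nat_lit 6) 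
(.lf (nat_lit 4522) (.g (nat_lit 3102) (.e (nat_lit 259) (nat_lit 21) (.e (nat_lit 336228) (nat_lit 14) (.e (nat_lit 401459) (nat_lit 13) (.e (nat_lit 483372) (nat_lit 21) (.e (nat_lit 327424) (nat_lit 10) .nil))))) .nil)) 
(.lf (nat_lit 4586) (.g (nat_lit 3284) (.e (nat_lit 267) (nat_lit 21) (.e (nat_lit 336219) (nat_lit 13) (.e (nat_lit 393225) (nat_lit 9) (.e (nat_lit 335995) (nat_lit 1) (.e (nat_lit 57848) (nat_lit 252) (.e (nat_lit 57372) (nat_lit 2) (.e (nat_lit 90133) (nat_lit 9) .nil))))))) (.g (nat_lit 7) .nil .nil))))) (.nd (nat_lit 5) (.nd (nat_lit 6) 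
(.lf (nat_lit 4506) (.g (nat_lit 2260) (.e (nat_lit 258) (nat_lit 21) (.e (nat_lit 336228) (nat_lit 14) (.e (nat_lit 401459) (nat_lit 13) (.e (nat_lit 483350) (nat_lit 17) (.e (nat_lit 6225) (nat_lit 334) (.e (nat_lit 123163) (nat_lit 256) .nil)))))) (.g (nat_lit 4) .nil .nil))) 
(.lf (nat_lit 4570) (.g (nat_lit 3759) (.e (nat_lit 266) (nat_lit 21) (.e (nat_lit 336204) (nat_lit 12) (.e (nat_lit 385074) (nat_lit 31) (.e (nat_lit 573485) (nat_lit 13) (.e (nat_lit 65619) (nat_lit 10) .nil))))) .nil))) (.nd (nat_lit 6) 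
(.lf (nat_lit 4538) (.g (nat_lit 2300) (.e (nat_lit 262) (nat_lit 21) (.e (nat_lit 336223) (nat_lit 13) (.e (nat_lit 393301) (nat_lit 27) (.e (nat_lit 491558) (nat_lit 10) .nil)))) .nil)) 
(.lf (nat_lit 4602) (.g (nat_lit 3131) (.e (nat_lit 268) (nat_lit 21) (.e (nat_lit 336013) (nat_lit 2) (.e (nat_lit 90170) (nat_lit 13) (.e (nat_lit 172113) (nat_lit 10) (.e (nat_lit 434242) (nat_lit 28) (.e (nat_lit 573477) (nat_lit 12) (.e (nat_lit 57574) (nat_lit 55) (.e (nat_lit 778362) (nat_lit 9) .nil)))))))) (.g (nat_lit 5) .nil .nil))))))) 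
(.nd (nat_lit 3) (.nd (nat_lit 4) (.nd (nat_lit 5) (.nd (nat_lit 6) 
(.lf (nat_lit 4486) (.g (nat_lit 2197) (.e (nat_lit 258) (nat_lit 21) (.e (nat_lit 336028) (nat_lit 3) (.e (nat_lit 98372) (nat_lit 29) (.e (nat_lit 450586) (nat_lit 10) (.e (nat_lit 573478) (nat_lit 12) (.e (nat_lit 57573) (nat_lit 55) (.e (nat_lit 778340) (nat_lit 9) .nil))))))) (.g (nat_lit 4) .nil .nil))) 
(.lf (nat_lit 4550) (.g (nat_lit 3734) (.e (nat_lit 265) (nat_lit 21) (.e (nat_lit 336013) (nat_lit 2) (.e (nat_lit 90170) (nat_lit 13) (.e (nat_lit 172113) (nat_lit 10) (.e (nat_lit 434245) (nat_lit 28) .nil))))) .nil))) (.nd (nat_lit 6) 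
(.lf (nat_lit 4518) (.g (nat_lit 1807) (.e (nat_lit 259) (nat_lit 21) (.e (nat_lit 336224) (nat_lit 13) (.e (nat_lit 393301) (nat_lit 27) (.e (nat_lit 491558) (nat_lit 10) (.e (nat_lit 352000) (nat_lit 44) .nil))))) .nil)) 
(.lf (nat_lit 4582) (.g (nat_lit 1707) (.e (nat_lit 267) (nat_lit 21) (.e (nat_lit 336061) (nat_lit 7) (.e (nat_lit 319531) (nat_lit 16) (.e (nat_lit 286748) (nat_lit 9) .nil)))) .nil)))) (.nd (nat_lit 5) (.nd (nat_lit 6) 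
(.lf (nat_lit 4502) (.g (nat_lit 2022) (.e (nat_lit 258) (nat_lit 21) (.e (nat_lit 336228) (nat_lit 14) (.e (nat_lit 401438) (nat_lit 9) (.e (nat_lit 426533) (nat_lit 28) (.e (nat_lit 344085) (nat_lit 15) (.e (nat_lit 123166) (nat_lit 256) .nil)))))) (.g (nat_lit 0) .nil .nil))) 
(.lf (nat_lit 4566) (.g (nat_lit 782) (.e (nat_lit 265) (nat_lit 21) (.e (nat_lit 336224) (nat_lit 13) (.e (nat_lit 393234) (nat_lit 17) (.e (nat_lit 7593) (nat_lit 407) .nil)))) .nil))) (.nd (nat_lit 6) 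
(.lf (nat_lit 4534) (.g (nat_lit 2280) (.e (nat_lit 261) (nat_lit 21) (.e (nat_lit 336223) (nat_lit 13) (.e (nat_lit 393301) (nat_lit 27) (.e (nat_lit 491558) (nat_lit 10) .nil)))) .nil)) 
(.lf (nat_lit 4598) (.g (nat_lit 3156) (.e (nat_lit 268) (nat_lit 21) (.e (nat_lit 336013) (nat_lit 2) (.e (nat_lit 90170) (nat_lit 13) (.e (nat_lit 172106) (nat_lit 10) (.e (nat_lit 434243) (nat_lit 28) .nil))))) .nil))))) (.nd (nat_lit 4) (.nd (nat_lit 5) (.nd (nat_lit 6) 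
(.lf (nat_lit 4494) (.g (nat_lit 2842) (.e (nat_lit 258) (nat_lit 21) (.e (nat_lit 336227) (nat_lit 14) (.e (nat_lit 401459) (nat_lit 13) (.e (nat_lit 483350) (nat_lit 17) (.e (nat_lit 6225) (nat_lit 334) .nil))))) .nil)) 
(.lf (nat_lit 4558) (.g (nat_lit 2623) (.e (nat_lit 265) (nat_lit 21) (.e (nat_lit 336028) (nat_lit 3) (.e (nat_lit 98373) (nat_lit 29) (.e (nat_lit 450587) (nat_lit 10) (.e (nat_lit 573478) (nat_lit 12) .nil))))) .nil))) (.nd (nat_lit 6) 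
(.lf (nat_lit 4526) (.g (nat_lit 1691) (.e (nat_lit 260) (nat_lit 21) (.e (nat_lit 336223) (nat_lit 13) (.e (nat_lit 393234) (nat_lit 17) (.e (nat_lit 7591) (nat_lit 407) .nil)))) .nil)) 
(.lf (nat_lit 4590) (.g (nat_lit 2375) (.e (nat_lit 267) (nat_lit 21) (.e (nat_lit 336228) (nat_lit 14) (.e (nat_lit 401425) (nat_lit 2) (.e (nat_lit 196666) (nat_lit 13) (.e (nat_lit 65617) (nat_lit 10) (.e (nat_lit 344132) (nat_lit 26) (.e (nat_lit 557070) (nat_lit 9) .nil))))))) (.g (nat_lit 5) .nil .nil))))) (.nd (nat_lit 5) (.nd (nat_lit 6) 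
(.lf (nat_lit 4510) (.g (nat_lit 2021) (.e (nat_lit 258) (nat_lit 21) (.e (nat_lit 336228) (nat_lit 14) (.e (nat_lit 401459) (nat_lit 13) (.e (nat_lit 483354) (nat_lit 17) (.e (nat_lit 6223) (nat_lit 334) (.e (nat_lit 123166) (nat_lit 256) .nil)))))) (.g (nat_lit 0) .nil .nil))) 
(.lf (nat_lit 4574) (.g (nat_lit 2386) (.e (nat_lit 266) (nat_lit 21) (.e (nat_lit 336223) (nat_lit 13) (.e (nat_lit 393301) (nat_lit 27) (.e (nat_lit 491556) (nat_lit 9) .nil)))) .nil))) (.nd (nat_lit 6) 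
(.lf (nat_lit 4542) (.g (nat_lit 1799) (.e (nat_lit 263) (nat_lit 21) (.e (nat_lit 336223) (nat_lit 13) (.e (nat_lit 393301) (nat_lit 27) (.e (nat_lit 491560) (nat_lit 10) .nil)))) .nil)) 
(.lf (nat_lit 4606) (.g (nat_lit 6212) (.e (nat_lit 268) (nat_lit 21) (.e (nat_lit 336013) (nat_lit 2) (.e (nat_lit 90170) (nat_lit 13) (.e (nat_lit 172113) (nat_lit 10) (.e (nat_lit 434245) (nat_lit 28) (.e (nat_lit 573474) (nat_lit 12) (.e (nat_lit 57574) (nat_lit 55) (.e (nat_lit 778362) (nat_lit 9) .nil)))))))) (.g (nat_lit 0) .nil .nil))))))))) 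
(.nd (nat_lit 1) (.nd (nat_lit 2) (.nd (nat_lit 3) (.nd (nat_lit 4) (.nd (nat_lit 5) 
(.nd (nat_lit 6) 
(.lf (nat_lit 4481) (.g (nat_lit 2255) (.e (nat_lit 258) (nat_lit 21) (.e (nat_lit 336028) (nat_lit 3) (.e (nat_lit 98359) (nat_lit 26) (.e (nat_lit 426286) (nat_lit 10) (.e (nat_lit 434247) (nat_lit 28) (.e (nat_lit 573478) (nat_lit 12) (.e (nat_lit 57573) (nat_lit 55) (.e (nat_lit 778340) (nat_lit 9) .nil)))))))) (.g (nat_lit 4) .nil .nil))) 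
(.lf (nat_lit 4545) (.g (nat_lit 1191) (.e (nat_lit 264) (nat_lit 21) (.e (nat_lit 336088) (nat_lit 9) (.e (nat_lit 336438) (nat_lit 31) (.e (nat_lit 458769) (nat_lit 16) .nil)))) .nil))) (.nd (nat_lit 6) 
(.lf (nat_lit 4513) (.g (nat_lit 3956) (.e (nat_lit 258) (nat_lit 21) (.e (nat_lit 336228) (nat_lit 14) (.e (nat_lit 401459) (nat_lit 13) (.e (nat_lit 483372) (nat_lit 21) (.e (nat_lit 319512) (nat_lit 10) .nil))))) .nil)) 
(.lf (nat_lit 4577) (.g (nat_lit 2857) (.e (nat_lit 267) (nat_lit 21) (.e (nat_lit 336028) (nat_lit 3) (.e (nat_lit 98372) (nat_lit 29) (.e (nat_lit 450586) (nat_lit 10) (.e (nat_lit 573477) (nat_lit 12) (.e (nat_lit 57575) (nat_lit 55) (.e (nat_lit 778374) (nat_lit 9) .nil))))))) (.g (nat_lit 5) .nil .nil))))) (.nd (nat_lit 5) (.nd (nat_lit 6) 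
(.lf (nat_lit 4497) (.g (nat_lit 934) (.e (nat_lit 258) (nat_lit 21) (.e (nat_lit 336228) (nat_lit 14) (.e (nat_lit 401436) (nat_lit 9) (.e (nat_lit 426533) (nat_lit 28) (.e (nat_lit 344085) (nat_lit 15) .nil))))) .nil)) 
(.lf (nat_lit 4561) (.g (nat_lit 1403) (.e (nat_lit 265) (nat_lit 21) (.e (nat_lit 336178) (nat_lit 10) (.e (nat_lit 344117) (nat_lit 21) (.e (nat_lit 516147) (nat_lit 9) .nil)))) .nil))) (.nd (nat_lit 6) 
(.lf (nat_lit 4529) (.g (nat_lit 2877) (.e (nat_lit 260) (nat_lit 21) (.e (nat_lit 336223) (nat_lit 13) (.e (nat_lit 393301) (nat_lit 27) (.e (nat_lit 491560) (nat_lit 10) (.e (nat_lit 344178) (nat_lit 44) .nil))))) .nil)) 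
(.lf (nat_lit 4593) (.g (nat_lit 4884) (.e (nat_lit 268) (nat_lit 21) (.e (nat_lit 336001) (nat_lit 2) (.e (nat_lit 90170) (nat_lit 13) (.e (nat_lit 172113) (nat_lit 10) (.e (nat_lit 434245) (nat_lit 28) (.e (nat_lit 573474) (nat_lit 12) (.e (nat_lit 57574) (nat_lit 55) (.e (nat_lit 778362) (nat_lit 9) .nil)))))))) (.g (nat_lit 7) .nil .nil)))))) (.nd (nat_lit 4) (.nd (nat_lit 5) (.nd (nat_lit 6) 
(.lf (nat_lit 4489) (.g (nat_lit 2666) (.e (nat_lit 258) (nat_lit 21) (.e (nat_lit 336028) (nat_lit 3) (.e (nat_lit 98373) (nat_lit 29) (.e (nat_lit 450587) (nat_lit 10) (.e (nat_lit 573477) (nat_lit 12) (.e (nat_lit 57573) (nat_lit 55) (.e (nat_lit 778340) (nat_lit 9) .nil))))))) (.g (nat_lit 4) .nil .nil))) 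
(.lf (nat_lit 4553) (.g (nat_lit 1550) (.e (nat_lit 265) (nat_lit 21) (.e (nat_lit 336028) (nat_lit 3) (.e (nat_lit 98372) (nat_lit 29) (.e (nat_lit 450586) (nat_lit 10) .nil)))) .nil))) (.nd (nat_lit 6) 
(.lf (nat_lit 4521) (.g (nat_lit 3243) (.e (nat_lit 259) (nat_lit 21) (.e (nat_lit 336228) (nat_lit 14) (.e (nat_lit 401459) (nat_lit 13) (.e (nat_lit 483372) (nat_lit 21) (.e (nat_lit 319504) (nat_lit 10) (.e (nat_lit 7936) (nat_lit 312) .nil)))))) (.g (nat_lit 5) .nil .nil))) 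
(.lf (nat_lit 4585) (.g (nat_lit 1714) (.e (nat_lit 267) (nat_lit 21) (.e (nat_lit 336219) (nat_lit 13) (.e (nat_lit 393225) (nat_lit 9) (.e (nat_lit 335995) (nat_lit 1) (.e (nat_lit 57848) (nat_lit 252) (.e (nat_lit 57372) (nat_lit 2) (.e (nat_lit 90121) (nat_lit 9) .nil))))))) (.g (nat_lit 4) .nil .nil))))) (.nd (nat_lit 5) (.nd (nat_lit 6) 
(.lf (nat_lit 4505) (.g (nat_lit 2531) (.e (nat_lit 258) (nat_lit 21) (.e (nat_lit 336228) (nat_lit 14) (.e (nat_lit 401459) (nat_lit 13) (.e (nat_lit 483350) (nat_lit 17) (.e (nat_lit 6097) (nat_lit 332) .nil))))) .nil)) 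
(.lf (nat_lit 4569) (.g (nat_lit 2958) (.e (nat_lit 266) (nat_lit 21) (.e (nat_lit 336204) (nat_lit 12) (.e (nat_lit 385074) (nat_lit 31) (.e (nat_lit 573482) (nat_lit 13) .nil)))) .nil))) (.nd (nat_lit 6) 
(.lf (nat_lit 4537) (.g (nat_lit 2021) (.e (nat_lit 262) (nat_lit 21) (.e (nat_lit 336158) (nat_lit 9) (.e (nat_lit 336021) (nat_lit 3) (.e (nat_lit 106240) (nat_lit 16) (.e (nat_lit 401454) (nat_lit 12) (.e (nat_lit 475139) (nat_lit 0) .nil)))))) (.g (nat_lit 5) .nil .nil))) 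
(.lf (nat_lit 4601) (.g (nat_lit 3082) (.e (nat_lit 268) (nat_lit 21) (.e (nat_lit 336013) (nat_lit 2) (.e (nat_lit 90170) (nat_lit 13) (.e (nat_lit 172106) (nat_lit 10) (.e (nat_lit 434248) (nat_lit 28) .nil))))) .nil)))))) (.nd (nat_lit 3) (.nd (nat_lit 4) (.nd (nat_lit 5) (.nd (nat_lit 6) 
(.lf (nat_lit 4485) (.g (nat_lit 2095) (.e (nat_lit 258) (nat_lit 21) (.e (nat_lit 336028) (nat_lit 3) (.e (nat_lit 98372) (nat_lit 29) (.e (nat_lit 450586) (nat_lit 10) (.e (nat_lit 573478) (nat_lit 12) .nil))))) .nil)) 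
(.lf (nat_lit 4549) (.g (nat_lit 3240) (.e (nat_lit 264) (nat_lit 21) (.e (nat_lit 336223) (nat_lit 13) (.e (nat_lit 393301) (nat_lit 27) (.e (nat_lit 491560) (nat_lit 10) (.e (nat_lit 344178) (nat_lit 44) .nil))))) .nil))) (.nd (nat_lit 6) 
(.lf (nat_lit 4517) (.g (nat_lit 2689) (.e (nat_lit 259) (nat_lit 21) (.e (nat_lit 336013) (nat_lit 2) (.e (nat_lit 90170) (nat_lit 13) (.e (nat_lit 172106) (nat_lit 10) .nil)))) .nil)) 
(.lf (nat_lit 4581) (.g (nat_lit 2940) (.e (nat_lit 267) (nat_lit 21) (.e (nat_lit 336028) (nat_lit 3) (.e (nat_lit 98373) (nat_lit 29) (.e (nat_lit 450588) (nat_lit 10) (.e (nat_lit 573475) (nat_lit 12) (.e (nat_lit 57574) (nat_lit 55) (.e (nat_lit 778374) (nat_lit 9) .nil))))))) (.g (nat_lit 4) .nil .nil))))) (.nd (nat_lit 5) (.nd (nat_lit 6) 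
(.lf (nat_lit 4501) (.g (nat_lit 1956) (.e (nat_lit 258) (nat_lit 21) (.e (nat_lit 336228) (nat_lit 14) (.e (nat_lit 401438) (nat_lit 9) (.e (nat_lit 426533) (nat_lit 28) (.e (nat_lit 344085) (nat_lit 15) (.e (nat_lit 123164) (nat_lit 256) .nil)))))) (.g (nat_lit 0) .nil .nil))) 
(.lf (nat_lit 4565) (.g (nat_lit 4141) (.e (nat_lit 265) (nat_lit 21) (.e (nat_lit 336200) (nat_lit 12) (.e (nat_lit 385074) (nat_lit 31) (.e (nat_lit 573485) (nat_lit 13) (.e (nat_lit 65619) (nat_lit 10) (.e (nat_lit 344129) (nat_lit 26) (.e (nat_lit 557065) (nat_lit 9) .nil))))))) (.g (nat_lit 7) .nil .nil)))) (.nd (nat_lit 6) 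
(.lf (nat_lit 4533) (.g (nat_lit 1756) (.e (nat_lit 261) (nat_lit 21) (.e (nat_lit 336223) (nat_lit 13) (.e (nat_lit 393234) (nat_lit 17) (.e (nat_lit 7593) (nat_lit 407) .nil)))) .nil)) 
(.lf (nat_lit 4597) (.g (nat_lit 3539) (.e (nat_lit 268) (nat_lit 21) (.e (nat_lit 336013) (nat_lit 2) (.e (nat_lit 90170) (nat_lit 13) (.e (nat_lit 172106) (nat_lit 10) (.e (nat_lit 434242) (nat_lit 28) (.e (nat_lit 573474) (nat_lit 12) (.e (nat_lit 57574) (nat_lit 55) (.e (nat_lit 778362) (nat_lit 9) .nil)))))))) (.g (nat_lit 4) .nil .nil)))))) (.nd (nat_lit 4) (.nd (nat_lit 5) (.nd (nat_lit 6) 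
(.lf (nat_lit 4493) (.g (nat_lit 1857) (.e (nat_lit 258) (nat_lit 21) (.e (nat_lit 336227) (nat_lit 14) (.e (nat_lit 401458) (nat_lit 13) (.e (nat_lit 483350) (nat_lit 17) (.e (nat_lit 6225) (nat_lit 334) .nil))))) .nil)) 
(.lf (nat_lit 4557) (.g (nat_lit 3235) (.e (nat_lit 265) (nat_lit 21) (.e (nat_lit 336028) (nat_lit 3) (.e (nat_lit 98373) (nat_lit 29) (.e (nat_lit 450587) (nat_lit 10) (.e (nat_lit 573477) (nat_lit 12) (.e (nat_lit 57574) (nat_lit 55) (.e (nat_lit 778361) (nat_lit 9) .nil))))))) (.g (nat_lit 5) .nil .nil)))) (.nd (nat_lit 6) 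
(.lf (nat_lit 4525) (.g (nat_lit 1104) (.e (nat_lit 260) (nat_lit 21) (.e (nat_lit 336088) (nat_lit 9) (.e (nat_lit 336438) (nat_lit 31) (.e (nat_lit 458769) (nat_lit 16) .nil)))) .nil)) 
(.lf (nat_lit 4589) (.g (nat_lit 1724) (.e (nat_lit 267) (nat_lit 21) (.e (nat_lit 336224) (nat_lit 13) (.e (nat_lit 393301) (nat_lit 27) (.e (nat_lit 491560) (nat_lit 10) (.e (nat_lit 344179) (nat_lit 44) (.e (nat_lit 778374) (nat_lit 9) .nil)))))) (.g (nat_lit 4) .nil .nil))))) (.nd (nat_lit 5) (.nd (nat_lit 6) 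
(.lf (nat_lit 4509) (.g (nat_lit 1982) (.e (nat_lit 258) (nat_lit 21) (.e (nat_lit 336228) (nat_lit 14) (.e (nat_lit 401459) (nat_lit 13) (.e (nat_lit 483354) (nat_lit 17) (.e (nat_lit 6223) (nat_lit 334) (.e (nat_lit 123164) (nat_lit 256) .nil)))))) (.g (nat_lit 0) .nil .nil))) 
(.lf (nat_lit 4573) (.g (nat_lit 2297) (.e (nat_lit 266) (nat_lit 21) (.e (nat_lit 336223) (nat_lit 13) (.e (nat_lit 393234) (nat_lit 17) (.e (nat_lit 7593) (nat_lit 407) (.e (nat_lit 73775) (nat_lit 26) .nil))))) .nil))) (.nd (nat_lit 6) 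
(.lf (nat_lit 4541) (.g (nat_lit 1756) (.e (nat_lit 263) (nat_lit 21) (.e (nat_lit 336223) (nat_lit 13) (.e (nat_lit 393234) (nat_lit 17) (.e (nat_lit 7593) (nat_lit 407) .nil)))) .nil)) 
(.lf (nat_lit 4605) (.g (nat_lit 4411) (.e (nat_lit 268) (nat_lit 21) (.e (nat_lit 336013) (nat_lit 2) (.e (nat_lit 90170) (nat_lit 13) (.e (nat_lit 172113) (nat_lit 10) (.e (nat_lit 434245) (nat_lit 28) (.e (nat_lit 573474) (nat_lit 12) (.e (nat_lit 57574) (nat_lit 55) (.e (nat_lit 778361) (nat_lit 9) .nil)))))))) (.g (nat_lit 6) .nil .nil)))))))) 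
(.nd (nat_lit 2) (.nd (nat_lit 3) (.nd (nat_lit 4) (.nd (nat_lit 5) (.nd (nat_lit 6) 
(.lf (nat_lit 4483) (.g (nat_lit 2369) (.e (nat_lit 258) (nat_lit 21) (.e (nat_lit 336028) (nat_lit 3) (.e (nat_lit 98372) (nat_lit 29) (.e (nat_lit 450586) (nat_lit 10) (.e (nat_lit 573475) (nat_lit 12) (.e (nat_lit 57573) (nat_lit 55) (.e (nat_lit 778339) (nat_lit 9) .nil))))))) (.g (nat_lit 4) .nil .nil))) 
(.lf (nat_lit 4547) (.g (nat_lit 1796) (.e (nat_lit 264) (nat_lit 21) (.e (nat_lit 336223) (nat_lit 13) (.e (nat_lit 393234) (nat_lit 17) (.e (nat_lit 7593) (nat_lit 407) .nil)))) .nil))) (.nd (nat_lit 6) 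
(.lf (nat_lit 4515) (.g (nat_lit 2718) (.e (nat_lit 258) (nat_lit 21) (.e (nat_lit 336228) (nat_lit 14) (.e (nat_lit 401459) (nat_lit 13) (.e (nat_lit 483372) (nat_lit 21) (.e (nat_lit 327424) (nat_lit 10) .nil))))) .nil)) 
(.lf (nat_lit 4579) (.g (nat_lit 2653) (.e (nat_lit 267) (nat_lit 21) (.e (nat_lit 336028) (nat_lit 3) (.e (nat_lit 98373) (nat_lit 29) (.e (nat_lit 450587) (nat_lit 10) (.e (nat_lit 573477) (nat_lit 12) .nil))))) .nil)))) (.nd (nat_lit 5) (.nd (nat_lit 6) 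
(.lf (nat_lit 4499) (.g (nat_lit 2234) (.e (nat_lit 258) (nat_lit 21) (.e (nat_lit 336228) (nat_lit 14) (.e (nat_lit 401437) (nat_lit 9) (.e (nat_lit 426533) (nat_lit 28) (.e (nat_lit 344085) (nat_lit 15) (.e (nat_lit 123165) (nat_lit 256) .nil)))))) (.g (nat_lit 6) .nil .nil))) 
(.lf (nat_lit 4563) (.g (nat_lit 2024) (.e (nat_lit 265) (nat_lit 21) (.e (nat_lit 336178) (nat_lit 10) (.e (nat_lit 344126) (nat_lit 25) (.e (nat_lit 548874) (nat_lit 5) (.e (nat_lit 1586) (nat_lit 111) .nil))))) .nil))) (.nd (nat_lit 6) 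
(.lf (nat_lit 4531) (.g (nat_lit 612) (.e (nat_lit 261) (nat_lit 21) (.e (nat_lit 336088) (nat_lit 9) (.e (nat_lit 336438) (nat_lit 31) .nil))) .nil)) 
(.lf (nat_lit 4595) (.g (nat_lit 5006) (.e (nat_lit 268) (nat_lit 21) (.e (nat_lit 336001) (nat_lit 2) (.e (nat_lit 90170) (nat_lit 13) (.e (nat_lit 172113) (nat_lit 10) (.e (nat_lit 434248) (nat_lit 28) (.e (nat_lit 573475) (nat_lit 12) (.e (nat_lit 57574) (nat_lit 55) (.e (nat_lit 778362) (nat_lit 9) .nil)))))))) (.g (nat_lit 7) .nil .nil)))))) (.nd (nat_lit 4) (.nd (nat_lit 5) (.nd (nat_lit 6) 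
(.lf (nat_lit 4491) (.g (nat_lit 2760) (.e (nat_lit 258) (nat_lit 21) (.e (nat_lit 336028) (nat_lit 3) (.e (nat_lit 98373) (nat_lit 29) (.e (nat_lit 450587) (nat_lit 10) (.e (nat_lit 573478) (nat_lit 12) (.e (nat_lit 57573) (nat_lit 55) (.e (nat_lit 778340) (nat_lit 9) .nil))))))) (.g (nat_lit 4) .nil .nil))) 
(.lf (nat_lit 4555) (.g (nat_lit 2166) (.e (nat_lit 265) (nat_lit 21) (.e (nat_lit 336028) (nat_lit 3) (.e (nat_lit 98372) (nat_lit 29) (.e (nat_lit 450586) (nat_lit 10) (.e (nat_lit 573477) (nat_lit 12) .nil))))) .nil))) (.nd (nat_lit 6) 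
(.lf (nat_lit 4523) (.g (nat_lit 2287) (.e (nat_lit 260) (nat_lit 21) (.e (nat_lit 336012) (nat_lit 2) (.e (nat_lit 90176) (nat_lit 15) (.e (nat_lit 188450) (nat_lit 23) (.e (nat_lit 204817) (nat_lit 17) .nil))))) .nil)) 
(.lf (nat_lit 4587) (.g (nat_lit 3138) (.e (nat_lit 267) (nat_lit 21) (.e (nat_lit 336219) (nat_lit 13) (.e (nat_lit 393225) (nat_lit 9) (.e (nat_lit 335996) (nat_lit 1) (.e (nat_lit 57851) (nat_lit 252) (.e (nat_lit 57371) (nat_lit 2) (.e (nat_lit 90133) (nat_lit 9) .nil))))))) (.g (nat_lit 6) .nil .nil))))) (.nd (nat_lit 5) (.nd (nat_lit 6) 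
(.lf (nat_lit 4507) (.g (nat_lit 2192) (.e (nat_lit 258) (nat_lit 21) (.e (nat_lit 336228) (nat_lit 14) (.e (nat_lit 401459) (nat_lit 13) (.e (nat_lit 483350) (nat_lit 17) (.e (nat_lit 6225) (nat_lit 334) (.e (nat_lit 123164) (nat_lit 256) .nil)))))) (.g (nat_lit 4) .nil .nil))) 
(.lf (nat_lit 4571) (.g (nat_lit 1808) (.e (nat_lit 266) (nat_lit 21) (.e (nat_lit 336223) (nat_lit 13) (.e (nat_lit 393234) (nat_lit 17) (.e (nat_lit 7591) (nat_lit 407) .nil)))) .nil))) (.nd (nat_lit 6) 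
(.lf (nat_lit 4539) (.g (nat_lit 1956) (.e (nat_lit 262) (nat_lit 21) (.e (nat_lit 336223) (nat_lit 13) (.e (nat_lit 393301) (nat_lit 27) (.e (nat_lit 491560) (nat_lit 10) .nil)))) .nil)) 
(.lf (nat_lit 4603) (.g (nat_lit 2206) (.e (nat_lit 268) (nat_lit 21) (.e (nat_lit 336013) (nat_lit 2) (.e (nat_lit 90170) (nat_lit 13) (.e (nat_lit 172113) (nat_lit 10) (.e (nat_lit 434242) (nat_lit 28) (.e (nat_lit 573478) (nat_lit 12) (.e (nat_lit 57574) (nat_lit 55) (.e (nat_lit 778362) (nat_lit 9) .nil)))))))) (.g (nat_lit 4) .nil .nil))))))) 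
(.nd (nat_lit 3) (.nd (nat_lit 4) (.nd (nat_lit 5) (.nd (nat_lit 6) 
(.lf (nat_lit 4487) (.g (nat_lit 3273) (.e (nat_lit 258) (nat_lit 21) (.e (nat_lit 336028) (nat_lit 3) (.e (nat_lit 98372) (nat_lit 29) (.e (nat_lit 450588) (nat_lit 10) (.e (nat_lit 573475) (nat_lit 12) .nil))))) .nil)) 
(.lf (nat_lit 4551) (.g (nat_lit 3743) (.e (nat_lit 265) (nat_lit 21) (.e (nat_lit 336013) (nat_lit 2) (.e (nat_lit 90170) (nat_lit 13) (.e (nat_lit 172113) (nat_lit 10) (.e (nat_lit 434248) (nat_lit 28) .nil))))) .nil))) (.nd (nat_lit 6) 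
(.lf (nat_lit 4519) (.g (nat_lit 1958) (.e (nat_lit 259) (nat_lit 21) (.e (nat_lit 336224) (nat_lit 13) (.e (nat_lit 393301) (nat_lit 27) (.e (nat_lit 491560) (nat_lit 10) (.e (nat_lit 352000) (nat_lit 44) (.e (nat_lit 778348) (nat_lit 9) .nil)))))) (.g (nat_lit 4) .nil .nil))) 
(.lf (nat_lit 4583) (.g (nat_lit 3621) (.e (nat_lit 267) (nat_lit 21) (.e (nat_lit 336061) (nat_lit 7) (.e (nat_lit 319531) (nat_lit 16) (.e (nat_lit 286748) (nat_lit 9) (.e (nat_lit 336295) (nat_lit 15) (.e (nat_lit 3806) (nat_lit 231) (.e (nat_lit 811045) (nat_lit 14) (.e (nat_lit 40976) (nat_lit 9) .nil)))))))) (.g (nat_lit 8) .nil .nil))))) (.nd (nat_lit 5) (.nd (nat_lit 6) 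
(.lf (nat_lit 4503) (.g (nat_lit 1851) (.e (nat_lit 258) (nat_lit 21) (.e (nat_lit 336228) (nat_lit 14) (.e (nat_lit 401458) (nat_lit 13) (.e (nat_lit 483350) (nat_lit 17) (.e (nat_lit 6225) (nat_lit 334) (.e (nat_lit 123163) (nat_lit 256) .nil)))))) (.g (nat_lit 4) .nil .nil))) 
(.lf (nat_lit 4567) (.g (nat_lit 4172) (.e (nat_lit 265) (nat_lit 21) (.e (nat_lit 336226) (nat_lit 14) (.e (nat_lit 401459) (nat_lit 13) (.e (nat_lit 483372) (nat_lit 21) (.e (nat_lit 319504) (nat_lit 10) .nil))))) .nil))) (.nd (nat_lit 6) 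
(.lf (nat_lit 4535) (.g (nat_lit 1906) (.e (nat_lit 261) (nat_lit 21) (.e (nat_lit 336223) (nat_lit 13) (.e (nat_lit 393301) (nat_lit 27) (.e (nat_lit 491560) (nat_lit 10) .nil)))) .nil)) 
(.lf (nat_lit 4599) (.g (nat_lit 3137) (.e (nat_lit 268) (nat_lit 21) (.e (nat_lit 336013) (nat_lit 2) (.e (nat_lit 90170) (nat_lit 13) (.e (nat_lit 172106) (nat_lit 10) (.e (nat_lit 434245) (nat_lit 28) .nil))))) .nil))))) (.nd (nat_lit 4) (.nd (nat_lit 5) (.nd (nat_lit 6) 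
(.lf (nat_lit 4495) (.g (nat_lit 1697) (.e (nat_lit 258) (nat_lit 21) (.e (nat_lit 336227) (nat_lit 14) (.e (nat_lit 401459) (nat_lit 13) (.e (nat_lit 483354) (nat_lit 17) (.e (nat_lit 6223) (nat_lit 334) .nil))))) .nil)) 
(.lf (nat_lit 4559) (.g (nat_lit 314) (.e (nat_lit 265) (nat_lit 21) (.e (nat_lit 336178) (nat_lit 10) (.e (nat_lit 344117) (nat_lit 21) .nil))) .nil))) (.nd (nat_lit 6) 
(.lf (nat_lit 4527) (.g (nat_lit 2212) (.e (nat_lit 260) (nat_lit 21) (.e (nat_lit 336223) (nat_lit 13) (.e (nat_lit 393234) (nat_lit 17) (.e (nat_lit 7593) (nat_lit 407) (.e (nat_lit 73774) (nat_lit 26) .nil))))) .nil)) 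
(.lf (nat_lit 4591) (.g (nat_lit 3932) (.e (nat_lit 267) (nat_lit 21) (.e (nat_lit 336228) (nat_lit 14) (.e (nat_lit 401428) (nat_lit 3) (.e (nat_lit 204869) (nat_lit 29) (.e (nat_lit 360474) (nat_lit 8) (.e (nat_lit 557070) (nat_lit 9) .nil)))))) (.g (nat_lit 0) .nil .nil))))) (.nd (nat_lit 5) (.nd (nat_lit 6) 
(.lf (nat_lit 4511) (.g (nat_lit 2235) (.e (nat_lit 258) (nat_lit 21) (.e (nat_lit 336228) (nat_lit 14) (.e (nat_lit 401459) (nat_lit 13) (.e (nat_lit 483372) (nat_lit 21) (.e (nat_lit 319504) (nat_lit 10) (.e (nat_lit 7936) (nat_lit 312) .nil)))))) (.g (nat_lit 5) .nil .nil))) 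
(.lf (nat_lit 4575) (.g (nat_lit 2568) (.e (nat_lit 267) (nat_lit 21) (.e (nat_lit 336013) (nat_lit 2) (.e (nat_lit 90170) (nat_lit 13) (.e (nat_lit 172106) (nat_lit 10) .nil)))) .nil))) (.nd (nat_lit 6) 
(.lf (nat_lit 4543) (.g (nat_lit 3089) (.e (nat_lit 263) (nat_lit 21) (.e (nat_lit 336223) (nat_lit 13) (.e (nat_lit 393301) (nat_lit 27) (.e (nat_lit 491560) (nat_lit 10) (.e (nat_lit 344178) (nat_lit 44) .nil))))) .nil)) 
(.lf (nat_lit 4607) (.g (nat_lit 4030) (.e (nat_lit 268) (nat_lit 21) (.e (nat_lit 336013) (nat_lit 2) (.e (nat_lit 90170) (nat_lit 13) (.e (nat_lit 172113) (nat_lit 10) (.e (nat_lit 434247) (nat_lit 28) (.e (nat_lit 573477) (nat_lit 12) (.e (nat_lit 57574) (nat_lit 55) (.e (nat_lit 778361) (nat_lit 9) .nil)))))))) (.g (nat_lit 5) .nil .nil))))))))))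

noncomputable def tv061 : DT := (.nd (nat_lit 0) (.nd (nat_lit 1) (.nd (nat_lit 2) (.nd (nat_lit 3) (.nd (nat_lit 4) (.nd (nat_lit 5) 
(.lf (nat_lit 4608) (.g (nat_lit 6156) (.e (nat_lit 268) (nat_lit 21) (.e (nat_lit 336013) (nat_lit 2) (.e (nat_lit 90170) (nat_lit 13) (.e (nat_lit 172113) (nat_lit 10) (.e (nat_lit 434247) (nat_lit 28) (.e (nat_lit 573477) (nat_lit 12) (.e (nat_lit 57574) (nat_lit 55) (.e (nat_lit 778362) (nat_lit 9) .nil)))))))) (.g (nat_lit 0) .nil .nil))) 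
(.lf (nat_lit 4640) (.g (nat_lit 3819) (.e (nat_lit 268) (nat_lit 21) (.e (nat_lit 336028) (nat_lit 3) (.e (nat_lit 98373) (nat_lit 29) (.e (nat_lit 450587) (nat_lit 10) (.e (nat_lit 573477) (nat_lit 12) (.e (nat_lit 57574) (nat_lit 55) (.e (nat_lit 778361) (nat_lit 9) .nil))))))) (.g (nat_lit 6) .nil .nil)))) (.nd (nat_lit 5) 
(.lf (nat_lit 4624) (.g (nat_lit 3777) (.e (nat_lit 268) (nat_lit 21) (.e (nat_lit 336028) (nat_lit 3) (.e (nat_lit 98359) (nat_lit 26) (.e (nat_lit 426286) (nat_lit 10) (.e (nat_lit 434247) (nat_lit 28) (.e (nat_lit 573477) (nat_lit 12) (.e (nat_lit 57575) (nat_lit 55) (.e (nat_lit 778362) (nat_lit 9) .nil)))))))) (.g (nat_lit 6) .nil .nil))) 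
(.lf (nat_lit 4656) (.g (nat_lit 3325) (.e (nat_lit 268) (nat_lit 21) (.e (nat_lit 336177) (nat_lit 10) (.e (nat_lit 344117) (nat_lit 21) (.e (nat_lit 516151) (nat_lit 9) (.e (nat_lit 433920) (nat_lit 20) (.e (nat_lit 114716) (nat_lit 22) (.e (nat_lit 90128) (nat_lit 9) .nil))))))) (.g (nat_lit 4) .nil .nil))))) (.nd (nat_lit 4) (.nd (nat_lit 5) 
(.lf (nat_lit 4616) (.g (nat_lit 2192) (.e (nat_lit 268) (nat_lit 21) (.e (nat_lit 336020) (nat_lit 3) (.e (nat_lit 98373) (nat_lit 29) (.e (nat_lit 450587) (nat_lit 10) (.e (nat_lit 573477) (nat_lit 12) (.e (nat_lit 57574) (nat_lit 55) (.e (nat_lit 778362) (nat_lit 9) .nil))))))) (.g (nat_lit 4) .nil .nil))) 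
(.lf (nat_lit 4648) (.g (nat_lit 4094) (.e (nat_lit 268) (nat_lit 21) (.e (nat_lit 336083) (nat_lit 9) (.e (nat_lit 336454) (nat_lit 34) (.e (nat_lit 483365) (nat_lit 18) (.e (nat_lit 57848) (nat_lit 252) .nil))))) .nil))) (.nd (nat_lit 5) 
(.lf (nat_lit 4632) (.g (nat_lit 4348) (.e (nat_lit 268) (nat_lit 21) (.e (nat_lit 336028) (nat_lit 3) (.e (nat_lit 98372) (nat_lit 29) (.e (nat_lit 450586) (nat_lit 10) (.e (nat_lit 573478) (nat_lit 12) (.e (nat_lit 57574) (nat_lit 55) (.e (nat_lit 778362) (nat_lit 9) .nil))))))) (.g (nat_lit 0) .nil .nil))) 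
(.lf (nat_lit 4664) (.g (nat_lit 2789) (.e (nat_lit 268) (nat_lit 21) (.e (nat_lit 336219) (nat_lit 13) (.e (nat_lit 393225) (nat_lit 9) (.e (nat_lit 335995) (nat_lit 1) (.e (nat_lit 57847) (nat_lit 252) (.e (nat_lit 57375) (nat_lit 2) (.e (nat_lit 90128) (nat_lit 9) .nil))))))) (.g (nat_lit 5) .nil .nil)))))) (.nd (nat_lit 3) (.nd (nat_lit 4) (.nd (nat_lit 5) 
(.lf (nat_lit 4612) (.g (nat_lit 5713) (.e (nat_lit 268) (nat_lit 21) (.e (nat_lit 336013) (nat_lit 2) (.e (nat_lit 90170) (nat_lit 13) (.e (nat_lit 172113) (nat_lit 10) (.e (nat_lit 434247) (nat_lit 28) (.e (nat_lit 573478) (nat_lit 12) (.e (nat_lit 57574) (nat_lit 55) (.e (nat_lit 778362) (nat_lit 9) .nil)))))))) (.g (nat_lit 0) .nil .nil))) 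
(.lf (nat_lit 4644) (.g (nat_lit 2580) (.e (nat_lit 268) (nat_lit 21) (.e (nat_lit 336028) (nat_lit 3) (.e (nat_lit 98373) (nat_lit 29) (.e (nat_lit 450588) (nat_lit 10) (.e (nat_lit 573475) (nat_lit 12) (.e (nat_lit 57574) (nat_lit 55) (.e (nat_lit 778360) (nat_lit 9) .nil))))))) (.g (nat_lit 4) .nil .nil)))) (.nd (nat_lit 5) 
(.lf (nat_lit 4628) (.g (nat_lit 3679) (.e (nat_lit 268) (nat_lit 21) (.e (nat_lit 336028) (nat_lit 3) (.e (nat_lit 98372) (nat_lit 29) (.e (nat_lit 450586) (nat_lit 10) (.e (nat_lit 573475) (nat_lit 12) (.e (nat_lit 57574) (nat_lit 55) (.e (nat_lit 778361) (nat_lit 9) .nil))))))) (.g (nat_lit 6) .nil .nil))) 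
(.lf (nat_lit 4660) (.g (nat_lit 3343) (.e (nat_lit 268) (nat_lit 21) (.e (nat_lit 336212) (nat_lit 13) (.e (nat_lit 393301) (nat_lit 27) (.e (nat_lit 491560) (nat_lit 10) (.e (nat_lit 344179) (nat_lit 44) (.e (nat_lit 778362) (nat_lit 9) .nil)))))) (.g (nat_lit 5) .nil .nil))))) (.nd (nat_lit 4) (.nd (nat_lit 5) 
(.lf (nat_lit 4620) (.g (nat_lit 4388) (.e (nat_lit 268) (nat_lit 21) (.e (nat_lit 336028) (nat_lit 3) (.e (nat_lit 98359) (nat_lit 26) (.e (nat_lit 426286) (nat_lit 10) (.e (nat_lit 434245) (nat_lit 28) (.e (nat_lit 573474) (nat_lit 12) (.e (nat_lit 57574) (nat_lit 55) (.e (nat_lit 778361) (nat_lit 9) .nil)))))))) (.g (nat_lit 7) .nil .nil))) 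
(.lf (nat_lit 4652) (.g (nat_lit 5212) (.e (nat_lit 268) (nat_lit 21) (.e (nat_lit 336099) (nat_lit 9) (.e (nat_lit 336013) (nat_lit 2) (.e (nat_lit 90170) (nat_lit 13) (.e (nat_lit 179968) (nat_lit 20) (.e (nat_lit 114716) (nat_lit 22) (.e (nat_lit 90128) (nat_lit 9) .nil))))))) (.g (nat_lit 4) .nil .nil)))) (.nd (nat_lit 5) 
(.lf (nat_lit 4636) (.g (nat_lit 5342) (.e (nat_lit 268) (nat_lit 21) (.e (nat_lit 336028) (nat_lit 3) (.e (nat_lit 98372) (nat_lit 29) (.e (nat_lit 450588) (nat_lit 10) (.e (nat_lit 573475) (nat_lit 12) (.e (nat_lit 57574) (nat_lit 55) (.e (nat_lit 778362) (nat_lit 9) .nil))))))) (.g (nat_lit 6) .nil .nil))) 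
(.lf (nat_lit 4668) (.g (nat_lit 1930) (.e (nat_lit 268) (nat_lit 21) (.e (nat_lit 336224) (nat_lit 13) (.e (nat_lit 393225) (nat_lit 9) (.e (nat_lit 335995) (nat_lit 1) (.e (nat_lit 57848) (nat_lit 252) .nil))))) .nil)))))) (.nd (nat_lit 2) (.nd (nat_lit 3) (.nd (nat_lit 4) (.nd (nat_lit 5) 
(.lf (nat_lit 4610) (.g (nat_lit 4605) (.e (nat_lit 268) (nat_lit 21) (.e (nat_lit 336013) (nat_lit 2) (.e (nat_lit 90170) (nat_lit 13) (.e (nat_lit 172113) (nat_lit 10) (.e (nat_lit 434247) (nat_lit 28) (.e (nat_lit 573477) (nat_lit 12) (.e (nat_lit 57575) (nat_lit 55) (.e (nat_lit 778362) (nat_lit 9) .nil)))))))) (.g (nat_lit 6) .nil .nil))) 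
(.lf (nat_lit 4642) (.g (nat_lit 2132) (.e (nat_lit 268) (nat_lit 21) (.e (nat_lit 336028) (nat_lit 3) (.e (nat_lit 98373) (nat_lit 29) (.e (nat_lit 450587) (nat_lit 10) (.e (nat_lit 573478) (nat_lit 12) .nil))))) .nil))) (.nd (nat_lit 5) 
(.lf (nat_lit 4626) (.g (nat_lit 4332) (.e (nat_lit 268) (nat_lit 21) (.e (nat_lit 336028) (nat_lit 3) (.e (nat_lit 98359) (nat_lit 26) (.e (nat_lit 426286) (nat_lit 10) (.e (nat_lit 434248) (nat_lit 28) (.e (nat_lit 573475) (nat_lit 12) (.e (nat_lit 57574) (nat_lit 55) (.e (nat_lit 778361) (nat_lit 9) .nil)))))))) (.g (nat_lit 7) .nil .nil))) 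
(.lf (nat_lit 4658) (.g (nat_lit 1979) (.e (nat_lit 268) (nat_lit 21) (.e (nat_lit 336212) (nat_lit 13) (.e (nat_lit 393225) (nat_lit 9) (.e (nat_lit 335995) (nat_lit 1) (.e (nat_lit 57848) (nat_lit 252) (.e (nat_lit 57372) (nat_lit 2) (.e (nat_lit 90128) (nat_lit 9) .nil))))))) (.g (nat_lit 4) .nil .nil))))) (.nd (nat_lit 4) (.nd (nat_lit 5) 
(.lf (nat_lit 4618) (.g (nat_lit 3309) (.e (nat_lit 268) (nat_lit 21) (.e (nat_lit 336024) (nat_lit 3) (.e (nat_lit 98373) (nat_lit 29) (.e (nat_lit 450588) (nat_lit 10) (.e (nat_lit 573475) (nat_lit 12) (.e (nat_lit 57574) (nat_lit 55) (.e (nat_lit 778361) (nat_lit 9) .nil))))))) (.g (nat_lit 4) .nil .nil))) 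
(.lf (nat_lit 4650) (.g (nat_lit 4095) (.e (nat_lit 268) (nat_lit 21) (.e (nat_lit 336083) (nat_lit 9) (.e (nat_lit 336454) (nat_lit 34) (.e (nat_lit 483365) (nat_lit 18) (.e (nat_lit 57851) (nat_lit 252) (.e (nat_lit 57371) (nat_lit 2) (.e (nat_lit 90128) (nat_lit 9) .nil))))))) (.g (nat_lit 4) .nil .nil)))) (.nd (nat_lit 5) 
(.lf (nat_lit 4634) (.g (nat_lit 2210) (.e (nat_lit 268) (nat_lit 21) (.e (nat_lit 336028) (nat_lit 3) (.e (nat_lit 98372) (nat_lit 29) (.e (nat_lit 450587) (nat_lit 10) (.e (nat_lit 573478) (nat_lit 12) .nil))))) .nil)) 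
(.lf (nat_lit 4666) (.g (nat_lit 2662) (.e (nat_lit 268) (nat_lit 21) (.e (nat_lit 336219) (nat_lit 13) (.e (nat_lit 393300) (nat_lit 27) (.e (nat_lit 491556) (nat_lit 9) (.e (nat_lit 336051) (nat_lit 6) (.e (nat_lit 147467) (nat_lit 9) .nil)))))) (.g (nat_lit 4) .nil .nil)))))) (.nd (nat_lit 3) (.nd (nat_lit 4) (.nd (nat_lit 5) 
(.lf (nat_lit 4614) (.g (nat_lit 4454) (.e (nat_lit 268) (nat_lit 21) (.e (nat_lit 336013) (nat_lit 2) (.e (nat_lit 90170) (nat_lit 13) (.e (nat_lit 172113) (nat_lit 10) (.e (nat_lit 434248) (nat_lit 28) (.e (nat_lit 573475) (nat_lit 12) (.e (nat_lit 57574) (nat_lit 55) (.e (nat_lit 778361) (nat_lit 9) .nil)))))))) (.g (nat_lit 6) .nil .nil))) 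
(.lf (nat_lit 4646) (.g (nat_lit 2419) (.e (nat_lit 268) (nat_lit 21) (.e (nat_lit 336061) (nat_lit 7) (.e (nat_lit 319531) (nat_lit 16) (.e (nat_lit 286748) (nat_lit 9) (.e (nat_lit 336295) (nat_lit 15) (.e (nat_lit 3806) (nat_lit 231) (.e (nat_lit 811045) (nat_lit 14) (.e (nat_lit 40972) (nat_lit 9) .nil)))))))) (.g (nat_lit 4) .nil .nil)))) (.nd (nat_lit 5) 
(.lf (nat_lit 4630) (.g (nat_lit 2966) (.e (nat_lit 268) (nat_lit 21) (.e (nat_lit 336028) (nat_lit 3) (.e (nat_lit 98372) (nat_lit 29) (.e (nat_lit 450586) (nat_lit 10) (.e (nat_lit 573477) (nat_lit 12) (.e (nat_lit 57575) (nat_lit 55) (.e (nat_lit 778362) (nat_lit 9) .nil))))))) (.g (nat_lit 5) .nil .nil))) 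
(.lf (nat_lit 4662) (.g (nat_lit 2442) (.e (nat_lit 268) (nat_lit 21) (.e (nat_lit 336219) (nat_lit 13) (.e (nat_lit 393225) (nat_lit 9) (.e (nat_lit 335986) (nat_lit 1) (.e (nat_lit 57847) (nat_lit 252) (.e (nat_lit 57375) (nat_lit 2) (.e (nat_lit 90128) (nat_lit 9) .nil))))))) (.g (nat_lit 5) .nil .nil))))) (.nd (nat_lit 4) (.nd (nat_lit 5) 
(.lf (nat_lit 4622) (.g (nat_lit 5222) (.e (nat_lit 268) (nat_lit 21) (.e (nat_lit 336028) (nat_lit 3) (.e (nat_lit 98359) (nat_lit 26) (.e (nat_lit 426286) (nat_lit 10) (.e (nat_lit 434247) (nat_lit 28) (.e (nat_lit 573477) (nat_lit 12) (.e (nat_lit 57574) (nat_lit 55) (.e (nat_lit 778362) (nat_lit 9) .nil)))))))) (.g (nat_lit 0) .nil .nil))) 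
(.lf (nat_lit 4654) (.g (nat_lit 2247) (.e (nat_lit 268) (nat_lit 21) (.e (nat_lit 336173) (nat_lit 10) (.e (nat_lit 344177) (nat_lit 43) (.e (nat_lit 770074) (nat_lit 10) (.e (nat_lit 81965) (nat_lit 26) (.e (nat_lit 147467) (nat_lit 9) .nil)))))) (.g (nat_lit 4) .nil .nil)))) (.nd (nat_lit 5) 
(.lf (nat_lit 4638) (.g (nat_lit 2084) (.e (nat_lit 268) (nat_lit 21) (.e (nat_lit 336028) (nat_lit 3) (.e (nat_lit 98373) (nat_lit 29) (.e (nat_lit 450587) (nat_lit 10) (.e (nat_lit 573454) (nat_lit 9) .nil))))) .nil)) 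
(.lf (nat_lit 4670) (.g (nat_lit 2122) (.e (nat_lit 268) (nat_lit 21) (.e (nat_lit 336224) (nat_lit 13) (.e (nat_lit 393233) (nat_lit 17) (.e (nat_lit 7591) (nat_lit 407) (.e (nat_lit 73775) (nat_lit 26) (.e (nat_lit 778362) (nat_lit 9) .nil)))))) (.g (nat_lit 4) .nil .nil)))))))) (.nd (nat_lit 1) (.nd (nat_lit 2) (.nd (nat_lit 3) (.nd (nat_lit 4) (.nd (nat_lit 5) 
(.lf (nat_lit 4609) (.g (nat_lit 2586) (.e (nat_lit 268) (nat_lit 21) (.e (nat_lit 336013) (nat_lit 2) (.e (nat_lit 90170) (nat_lit 13) (.e (nat_lit 172113) (nat_lit 10) (.e (nat_lit 434247) (nat_lit 28) (.e (nat_lit 573477) (nat_lit 12) (.e (nat_lit 57575) (nat_lit 55) (.e (nat_lit 778361) (nat_lit 9) .nil)))))))) (.g (nat_lit 4) .nil .nil))) 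
(.lf (nat_lit 4641) (.g (nat_lit 3433) (.e (nat_lit 268) (nat_lit 21) (.e (nat_lit 336028) (nat_lit 3) (.e (nat_lit 98373) (nat_lit 29) (.e (nat_lit 450587) (nat_lit 10) (.e (nat_lit 573477) (nat_lit 12) (.e (nat_lit 57575) (nat_lit 55) (.e (nat_lit 778362) (nat_lit 9) .nil))))))) (.g (nat_lit 5) .nil .nil)))) (.nd (nat_lit 5) 
(.lf (nat_lit 4625) (.g (nat_lit 2378) (.e (nat_lit 268) (nat_lit 21) (.e (nat_lit 336028) (nat_lit 3) (.e (nat_lit 98359) (nat_lit 26) (.e (nat_lit 426286) (nat_lit 10) (.e (nat_lit 434248) (nat_lit 28) (.e (nat_lit 573475) (nat_lit 12) (.e (nat_lit 57574) (nat_lit 55) (.e (nat_lit 778360) (nat_lit 9) .nil)))))))) (.g (nat_lit 4) .nil .nil))) 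
(.lf (nat_lit 4657) (.g (nat_lit 1703) (.e (nat_lit 268) (nat_lit 21) (.e (nat_lit 336212) (nat_lit 13) (.e (nat_lit 393225) (nat_lit 9) (.e (nat_lit 335995) (nat_lit 1) (.e (nat_lit 57847) (nat_lit 252) .nil))))) .nil)))) (.nd (nat_lit 4) (.nd (nat_lit 5) 
(.lf (nat_lit 4617) (.g (nat_lit 3221) (.e (nat_lit 268) (nat_lit 21) (.e (nat_lit 336024) (nat_lit 3) (.e (nat_lit 98373) (nat_lit 29) (.e (nat_lit 450587) (nat_lit 10) (.e (nat_lit 573475) (nat_lit 12) .nil))))) .nil)) 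
(.lf (nat_lit 4649) (.g (nat_lit 4143) (.e (nat_lit 268) (nat_lit 21) (.e (nat_lit 336083) (nat_lit 9) (.e (nat_lit 336454) (nat_lit 34) (.e (nat_lit 483365) (nat_lit 18) (.e (nat_lit 57849) (nat_lit 252) (.e (nat_lit 57372) (nat_lit 2) (.e (nat_lit 90128) (nat_lit 9) .nil))))))) (.g (nat_lit 4) .nil .nil)))) (.nd (nat_lit 5) 
(.lf (nat_lit 4633) (.g (nat_lit 2607) (.e (nat_lit 268) (nat_lit 21) (.e (nat_lit 336028) (nat_lit 3) (.e (nat_lit 98372) (nat_lit 29) (.e (nat_lit 450587) (nat_lit 10) (.e (nat_lit 573477) (nat_lit 12) (.e (nat_lit 57574) (nat_lit 55) (.e (nat_lit 778362) (nat_lit 9) .nil))))))) (.g (nat_lit 4) .nil .nil))) 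
(.lf (nat_lit 4665) (.g (nat_lit 2623) (.e (nat_lit 268) (nat_lit 21) (.e (nat_lit 336219) (nat_lit 13) (.e (nat_lit 393225) (nat_lit 9) (.e (nat_lit 335996) (nat_lit 1) (.e (nat_lit 57854) (nat_lit 252) (.e (nat_lit 57371) (nat_lit 2) (.e (nat_lit 90128) (nat_lit 9) .nil))))))) (.g (nat_lit 5) .nil .nil)))))) (.nd (nat_lit 3) (.nd (nat_lit 4) (.nd (nat_lit 5) 
(.lf (nat_lit 4613) (.g (nat_lit 2500) (.e (nat_lit 268) (nat_lit 21) (.e (nat_lit 336013) (nat_lit 2) (.e (nat_lit 90170) (nat_lit 13) (.e (nat_lit 172113) (nat_lit 10) (.e (nat_lit 434248) (nat_lit 28) (.e (nat_lit 573475) (nat_lit 12) (.e (nat_lit 57574) (nat_lit 55) (.e (nat_lit 778360) (nat_lit 9) .nil)))))))) (.g (nat_lit 4) .nil .nil))) 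
(.lf (nat_lit 4645) (.g (nat_lit 4534) (.e (nat_lit 268) (nat_lit 21) (.e (nat_lit 336028) (nat_lit 3) (.e (nat_lit 98373) (nat_lit 29) (.e (nat_lit 450588) (nat_lit 10) (.e (nat_lit 573475) (nat_lit 12) (.e (nat_lit 57574) (nat_lit 55) (.e (nat_lit 778361) (nat_lit 9) .nil))))))) (.g (nat_lit 6) .nil .nil)))) (.nd (nat_lit 5) 
(.lf (nat_lit 4629) (.g (nat_lit 1812) (.e (nat_lit 268) (nat_lit 21) (.e (nat_lit 336028) (nat_lit 3) (.e (nat_lit 98372) (nat_lit 29) (.e (nat_lit 450586) (nat_lit 10) (.e (nat_lit 573477) (nat_lit 12) .nil))))) .nil)) 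
(.lf (nat_lit 4661) (.g (nat_lit 2518) (.e (nat_lit 268) (nat_lit 21) (.e (nat_lit 336219) (nat_lit 13) (.e (nat_lit 393225) (nat_lit 9) (.e (nat_lit 335986) (nat_lit 1) (.e (nat_lit 57847) (nat_lit 252) (.e (nat_lit 57372) (nat_lit 2) (.e (nat_lit 90128) (nat_lit 9) .nil))))))) (.g (nat_lit 5) .nil .nil))))) (.nd (nat_lit 4) (.nd (nat_lit 5) 
(.lf (nat_lit 4621) (.g (nat_lit 5574) (.e (nat_lit 268) (nat_lit 21) (.e (nat_lit 336028) (nat_lit 3) (.e (nat_lit 98359) (nat_lit 26) (.e (nat_lit 426286) (nat_lit 10) (.e (nat_lit 434245) (nat_lit 28) (.e (nat_lit 573474) (nat_lit 12) (.e (nat_lit 57574) (nat_lit 55) (.e (nat_lit 778362) (nat_lit 9) .nil)))))))) (.g (nat_lit 0) .nil .nil))) 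
(.lf (nat_lit 4653) (.g (nat_lit 1862) (.e (nat_lit 268) (nat_lit 21) (.e (nat_lit 336173) (nat_lit 10) (.e (nat_lit 344126) (nat_lit 25) (.e (nat_lit 548874) (nat_lit 5) (.e (nat_lit 1586) (nat_lit 111) (.e (nat_lit 360475) (nat_lit 8) (.e (nat_lit 557066) (nat_lit 9) .nil))))))) (.g (nat_lit 4) .nil .nil)))) (.nd (nat_lit 5) 
(.lf (nat_lit 4637) (.g (nat_lit 2310) (.e (nat_lit 268) (nat_lit 21) (.e (nat_lit 336028) (nat_lit 3) (.e (nat_lit 98373) (nat_lit 29) (.e (nat_lit 450586) (nat_lit 10) (.e (nat_lit 573475) (nat_lit 12) .nil))))) .nil)) 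
(.lf (nat_lit 4669) (.g (nat_lit 2013) (.e (nat_lit 268) (nat_lit 21) (.e (nat_lit 336224) (nat_lit 13) (.e (nat_lit 393225) (nat_lit 9) (.e (nat_lit 335995) (nat_lit 1) (.e (nat_lit 57848) (nat_lit 252) (.e (nat_lit 57375) (nat_lit 2) (.e (nat_lit 90128) (nat_lit 9) .nil))))))) (.g (nat_lit 4) .nil .nil))))))) (.nd (nat_lit 2) (.nd (nat_lit 3) (.nd (nat_lit 4) (.nd (nat_lit 5) 
(.lf (nat_lit 4611) (.g (nat_lit 3837) (.e (nat_lit 268) (nat_lit 21) (.e (nat_lit 336013) (nat_lit 2) (.e (nat_lit 90170) (nat_lit 13) (.e (nat_lit 172113) (nat_lit 10) (.e (nat_lit 434247) (nat_lit 28) (.e (nat_lit 573478) (nat_lit 12) (.e (nat_lit 57574) (nat_lit 55) (.e (nat_lit 778361) (nat_lit 9) .nil)))))))) (.g (nat_lit 5) .nil .nil))) 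
(.lf (nat_lit 4643) (.g (nat_lit 3719) (.e (nat_lit 268) (nat_lit 21) (.e (nat_lit 336028) (nat_lit 3) (.e (nat_lit 98373) (nat_lit 29) (.e (nat_lit 450587) (nat_lit 10) (.e (nat_lit 573478) (nat_lit 12) (.e (nat_lit 57574) (nat_lit 55) (.e (nat_lit 778361) (nat_lit 9) .nil))))))) (.g (nat_lit 6) .nil .nil)))) (.nd (nat_lit 5) 
(.lf (nat_lit 4627) (.g (nat_lit 5629) (.e (nat_lit 268) (nat_lit 21) (.e (nat_lit 336028) (nat_lit 3) (.e (nat_lit 98359) (nat_lit 26) (.e (nat_lit 426286) (nat_lit 10) (.e (nat_lit 434248) (nat_lit 28) (.e (nat_lit 573475) (nat_lit 12) (.e (nat_lit 57574) (nat_lit 55) (.e (nat_lit 778362) (nat_lit 9) .nil)))))))) (.g (nat_lit 0) .nil .nil))) 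
(.lf (nat_lit 4659) (.g (nat_lit 2177) (.e (nat_lit 268) (nat_lit 21) (.e (nat_lit 336212) (nat_lit 13) (.e (nat_lit 393225) (nat_lit 9) (.e (nat_lit 335995) (nat_lit 1) (.e (nat_lit 57848) (nat_lit 252) (.e (nat_lit 57375) (nat_lit 2) (.e (nat_lit 90128) (nat_lit 9) .nil))))))) (.g (nat_lit 4) .nil .nil))))) (.nd (nat_lit 4) (.nd (nat_lit 5) 
(.lf (nat_lit 4619) (.g (nat_lit 2459) (.e (nat_lit 268) (nat_lit 21) (.e (nat_lit 336028) (nat_lit 3) (.e (nat_lit 98359) (nat_lit 26) (.e (nat_lit 426286) (nat_lit 10) (.e (nat_lit 434245) (nat_lit 28) (.e (nat_lit 573474) (nat_lit 12) (.e (nat_lit 57574) (nat_lit 55) (.e (nat_lit 778360) (nat_lit 9) .nil)))))))) (.g (nat_lit 4) .nil .nil))) 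
(.lf (nat_lit 4651) (.g (nat_lit 3693) (.e (nat_lit 268) (nat_lit 21) (.e (nat_lit 336089) (nat_lit 9) (.e (nat_lit 336454) (nat_lit 34) (.e (nat_lit 483365) (nat_lit 18) (.e (nat_lit 57851) (nat_lit 252) .nil))))) .nil))) (.nd (nat_lit 5) 
(.lf (nat_lit 4635) (.g (nat_lit 4070) (.e (nat_lit 268) (nat_lit 21) (.e (nat_lit 336028) (nat_lit 3) (.e (nat_lit 98372) (nat_lit 29) (.e (nat_lit 450588) (nat_lit 10) (.e (nat_lit 573475) (nat_lit 12) (.e (nat_lit 57574) (nat_lit 55) (.e (nat_lit 778361) (nat_lit 9) .nil))))))) (.g (nat_lit 5) .nil .nil))) 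
(.lf (nat_lit 4667) (.g (nat_lit 2323) (.e (nat_lit 268) (nat_lit 21) (.e (nat_lit 336219) (nat_lit 13) (.e (nat_lit 393301) (nat_lit 27) (.e (nat_lit 491556) (nat_lit 9) (.e (nat_lit 336051) (nat_lit 6) .nil))))) .nil))))) (.nd (nat_lit 3) (.nd (nat_lit 4) (.nd (nat_lit 5) 
(.lf (nat_lit 4615) (.g (nat_lit 6366) (.e (nat_lit 268) (nat_lit 21) (.e (nat_lit 336013) (nat_lit 2) (.e (nat_lit 90170) (nat_lit 13) (.e (nat_lit 172113) (nat_lit 10) (.e (nat_lit 434248) (nat_lit 28) (.e (nat_lit 573475) (nat_lit 12) (.e (nat_lit 57574) (nat_lit 55) (.e (nat_lit 778362) (nat_lit 9) .nil)))))))) (.g (nat_lit 0) .nil .nil))) 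
(.lf (nat_lit 4647) (.g (nat_lit 2656) (.e (nat_lit 268) (nat_lit 21) (.e (nat_lit 336073) (nat_lit 9) (.e (nat_lit 336454) (nat_lit 34) (.e (nat_lit 483365) (nat_lit 18) (.e (nat_lit 57849) (nat_lit 252) (.e (nat_lit 57372) (nat_lit 2) (.e (nat_lit 90128) (nat_lit 9) .nil))))))) (.g (nat_lit 4) .nil .nil)))) (.nd (nat_lit 5) 
(.lf (nat_lit 4631) (.g (nat_lit 1759) (.e (nat_lit 268) (nat_lit 21) (.e (nat_lit 336028) (nat_lit 3) (.e (nat_lit 98372) (nat_lit 29) (.e (nat_lit 450586) (nat_lit 10) (.e (nat_lit 573478) (nat_lit 12) .nil))))) .nil)) 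
(.lf (nat_lit 4663) (.g (nat_lit 2180) (.e (nat_lit 268) (nat_lit 21) (.e (nat_lit 336219) (nat_lit 13) (.e (nat_lit 393225) (nat_lit 9) (.e (nat_lit 335988) (nat_lit 1) (.e (nat_lit 57854) (nat_lit 252) (.e (nat_lit 57371) (nat_lit 2) (.e (nat_lit 90128) (nat_lit 9) .nil))))))) (.g (nat_lit 4) .nil .nil))))) (.nd (nat_lit 4) (.nd (nat_lit 5) 
(.lf (nat_lit 4623) (.g (nat_lit 2320) (.e (nat_lit 268) (nat_lit 21) (.e (nat_lit 336028) (nat_lit 3) (.e (nat_lit 98359) (nat_lit 26) (.e (nat_lit 426286) (nat_lit 10) (.e (nat_lit 434247) (nat_lit 28) (.e (nat_lit 573477) (nat_lit 12) (.e (nat_lit 57575) (nat_lit 55) (.e (nat_lit 778361) (nat_lit 9) .nil)))))))) (.g (nat_lit 4) .nil .nil))) 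
(.lf (nat_lit 4655) (.g (nat_lit 3499) (.e (nat_lit 268) (nat_lit 21) (.e (nat_lit 336177) (nat_lit 10) (.e (nat_lit 344117) (nat_lit 21) (.e (nat_lit 516151) (nat_lit 9) (.e (nat_lit 433920) (nat_lit 20) (.e (nat_lit 114714) (nat_lit 22) (.e (nat_lit 90128) (nat_lit 9) .nil))))))) (.g (nat_lit 4) .nil .nil)))) (.nd (nat_lit 5) 
(.lf (nat_lit 4639) (.g (nat_lit 2172) (.e (nat_lit 268) (nat_lit 21) (.e (nat_lit 336028) (nat_lit 3) (.e (nat_lit 98373) (nat_lit 29) (.e (nat_lit 450587) (nat_lit 10) (.e (nat_lit 573477) (nat_lit 12) .nil))))) .nil)) 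
(.lf (nat_lit 4671) (.g (nat_lit 2108) (.e (nat_lit 268) (nat_lit 21) (.e (nat_lit 336224) (nat_lit 13) (.e (nat_lit 393233) (nat_lit 17) (.e (nat_lit 7591) (nat_lit 407) (.e (nat_lit 73776) (nat_lit 26) (.e (nat_lit 778362) (nat_lit 9) .nil)))))) (.g (nat_lit 4) .nil .nil)))))))))

noncomputable def tv062 : DT := (.nd (nat_lit 0) (.nd (nat_lit 1) (.nd (nat_lit 2) (.nd (nat_lit 3) (.nd (nat_lit 4) (.nd (nat_lit 5) 
(.lf (nat_lit 4672) (.g (nat_lit 2160) (.e (nat_lit 268) (nat_lit 21) (.e (nat_lit 336224) (nat_lit 13) (.e (nat_lit 393233) (nat_lit 17) (.e (nat_lit 7593) (nat_lit 407) (.e (nat_lit 73775) (nat_lit 26) (.e (nat_lit 778362) (nat_lit 9) .nil)))))) (.g (nat_lit 4) .nil .nil))) 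
(.lf (nat_lit 4704) (.g (nat_lit 2451) (.e (nat_lit 271) (nat_lit 21) (.e (nat_lit 336009) (nat_lit 2) (.e (nat_lit 90170) (nat_lit 13) (.e (nat_lit 172113) (nat_lit 10) (.e (nat_lit 434247) (nat_lit 28) (.e (nat_lit 573478) (nat_lit 12) (.e (nat_lit 57574) (nat_lit 55) (.e (nat_lit 778359) (nat_lit 9) .nil)))))))) (.g (nat_lit 4) .nil .nil)))) (.nd (nat_lit 5) 
(.lf (nat_lit 4688) (.g (nat_lit 3212) (.e (nat_lit 269) (nat_lit 21) (.e (nat_lit 336223) (nat_lit 13) (.e (nat_lit 393301) (nat_lit 27) (.e (nat_lit 491560) (nat_lit 10) (.e (nat_lit 344179) (nat_lit 44) .nil))))) .nil)) 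
(.lf (nat_lit 4720) (.g (nat_lit 2749) (.e (nat_lit 271) (nat_lit 21) (.e (nat_lit 336021) (nat_lit 3) (.e (nat_lit 98313) (nat_lit 9) (.e (nat_lit 336021) (nat_lit 3) (.e (nat_lit 98313) (nat_lit 9) (.e (nat_lit 336012) (nat_lit 2) (.e (nat_lit 90123) (nat_lit 9) .nil))))))) (.g (nat_lit 4) .nil .nil))))) (.nd (nat_lit 4) (.nd (nat_lit 5) 
(.lf (nat_lit 4680) (.g (nat_lit 4812) (.e (nat_lit 268) (nat_lit 21) (.e (nat_lit 336228) (nat_lit 14) (.e (nat_lit 401428) (nat_lit 3) (.e (nat_lit 204869) (nat_lit 29) (.e (nat_lit 360474) (nat_lit 8) (.e (nat_lit 557066) (nat_lit 9) .nil)))))) (.g (nat_lit 0) .nil .nil))) 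
(.lf (nat_lit 4712) (.g (nat_lit 4448) (.e (nat_lit 271) (nat_lit 21) (.e (nat_lit 336011) (nat_lit 2) (.e (nat_lit 90170) (nat_lit 13) (.e (nat_lit 172113) (nat_lit 10) (.e (nat_lit 434245) (nat_lit 28) (.e (nat_lit 573474) (nat_lit 12) (.e (nat_lit 57574) (nat_lit 55) (.e (nat_lit 778362) (nat_lit 9) .nil)))))))) (.g (nat_lit 6) .nil .nil)))) (.nd (nat_lit 5) 
(.lf (nat_lit 4696) (.g (nat_lit 2664) (.e (nat_lit 270) (nat_lit 21) (.e (nat_lit 336223) (nat_lit 13) (.e (nat_lit 393301) (nat_lit 27) (.e (nat_lit 491556) (nat_lit 9) .nil)))) .nil)) 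
(.lf (nat_lit 4728) (.g (nat_lit 3051) (.e (nat_lit 271) (nat_lit 21) (.e (nat_lit 336025) (nat_lit 3) (.e (nat_lit 98373) (nat_lit 29) (.e (nat_lit 450587) (nat_lit 10) (.e (nat_lit 573478) (nat_lit 12) (.e (nat_lit 57574) (nat_lit 55) (.e (nat_lit 778361) (nat_lit 9) .nil))))))) (.g (nat_lit 5) .nil .nil)))))) (.nd (nat_lit 3) (.nd (nat_lit 4) (.nd (nat_lit 5) 
(.lf (nat_lit 4676) (.g (nat_lit 2610) (.e (nat_lit 268) (nat_lit 21) (.e (nat_lit 336228) (nat_lit 14) (.e (nat_lit 401425) (nat_lit 2) (.e (nat_lit 196666) (nat_lit 13) (.e (nat_lit 65617) (nat_lit 10) (.e (nat_lit 344133) (nat_lit 26) (.e (nat_lit 557065) (nat_lit 9) .nil))))))) (.g (nat_lit 5) .nil .nil))) 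
(.lf (nat_lit 4708) (.g (nat_lit 4124) (.e (nat_lit 271) (nat_lit 21) (.e (nat_lit 336009) (nat_lit 2) (.e (nat_lit 90170) (nat_lit 13) (.e (nat_lit 172113) (nat_lit 10) (.e (nat_lit 434248) (nat_lit 28) (.e (nat_lit 573475) (nat_lit 12) (.e (nat_lit 57574) (nat_lit 55) (.e (nat_lit 778362) (nat_lit 9) .nil)))))))) (.g (nat_lit 6) .nil .nil)))) (.nd (nat_lit 5) 
(.lf (nat_lit 4692) (.g (nat_lit 2908) (.e (nat_lit 270) (nat_lit 21) (.e (nat_lit 336204) (nat_lit 12) (.e (nat_lit 385074) (nat_lit 31) (.e (nat_lit 573482) (nat_lit 13) .nil)))) .nil)) 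
(.lf (nat_lit 4724) (.g (nat_lit 3475) (.e (nat_lit 271) (nat_lit 21) (.e (nat_lit 336025) (nat_lit 3) (.e (nat_lit 98373) (nat_lit 29) (.e (nat_lit 450587) (nat_lit 10) (.e (nat_lit 573454) (nat_lit 9) (.e (nat_lit 1315) (nat_lit 98) (.e (nat_lit 147466) (nat_lit 9) .nil))))))) (.g (nat_lit 4) .nil .nil))))) (.nd (nat_lit 4) (.nd (nat_lit 5) 
(.lf (nat_lit 4684) (.g (nat_lit 2116) (.e (nat_lit 268) (nat_lit 21) (.e (nat_lit 336228) (nat_lit 14) (.e (nat_lit 401459) (nat_lit 13) (.e (nat_lit 483372) (nat_lit 21) (.e (nat_lit 319505) (nat_lit 10) (.e (nat_lit 7936) (nat_lit 312) .nil)))))) (.g (nat_lit 5) .nil .nil))) 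
(.lf (nat_lit 4716) (.g (nat_lit 2800) (.e (nat_lit 271) (nat_lit 21) (.e (nat_lit 336011) (nat_lit 2) (.e (nat_lit 90170) (nat_lit 13) (.e (nat_lit 172113) (nat_lit 10) (.e (nat_lit 434247) (nat_lit 28) (.e (nat_lit 573477) (nat_lit 12) (.e (nat_lit 57575) (nat_lit 55) (.e (nat_lit 778362) (nat_lit 9) .nil)))))))) (.g (nat_lit 4) .nil .nil)))) (.nd (nat_lit 5) 
(.lf (nat_lit 4700) (.g (nat_lit 2755) (.e (nat_lit 271) (nat_lit 21) (.e (nat_lit 336009) (nat_lit 2) (.e (nat_lit 90170) (nat_lit 13) (.e (nat_lit 172113) (nat_lit 10) (.e (nat_lit 434247) (nat_lit 28) (.e (nat_lit 573477) (nat_lit 12) (.e (nat_lit 57574) (nat_lit 55) (.e (nat_lit 778359) (nat_lit 9) .nil)))))))) (.g (nat_lit 4) .nil .nil))) 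
(.lf (nat_lit 4732) (.g (nat_lit 3112) (.e (nat_lit 271) (nat_lit 21) (.e (nat_lit 336027) (nat_lit 3) (.e (nat_lit 98372) (nat_lit 29) (.e (nat_lit 450586) (nat_lit 10) (.e (nat_lit 573477) (nat_lit 12) (.e (nat_lit 57574) (nat_lit 55) (.e (nat_lit 778359) (nat_lit 9) .nil))))))) (.g (nat_lit 5) .nil .nil))))))) (.nd (nat_lit 2) (.nd (nat_lit 3) (.nd (nat_lit 4) (.nd (nat_lit 5) 
(.lf (nat_lit 4674) (.g (nat_lit 1901) (.e (nat_lit 268) (nat_lit 21) (.e (nat_lit 336224) (nat_lit 13) (.e (nat_lit 393234) (nat_lit 17) (.e (nat_lit 7591) (nat_lit 407) (.e (nat_lit 73775) (nat_lit 26) (.e (nat_lit 778361) (nat_lit 9) .nil)))))) (.g (nat_lit 4) .nil .nil))) 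
(.lf (nat_lit 4706) (.g (nat_lit 3328) (.e (nat_lit 271) (nat_lit 21) (.e (nat_lit 336009) (nat_lit 2) (.e (nat_lit 90170) (nat_lit 13) (.e (nat_lit 172113) (nat_lit 10) (.e (nat_lit 434247) (nat_lit 28) (.e (nat_lit 573478) (nat_lit 12) (.e (nat_lit 57574) (nat_lit 55) (.e (nat_lit 778362) (nat_lit 9) .nil)))))))) (.g (nat_lit 5) .nil .nil)))) (.nd (nat_lit 5) 
(.lf (nat_lit 4690) (.g (nat_lit 2501) (.e (nat_lit 270) (nat_lit 21) (.e (nat_lit 336027) (nat_lit 3) (.e (nat_lit 98372) (nat_lit 29) (.e (nat_lit 450586) (nat_lit 10) (.e (nat_lit 573475) (nat_lit 12) .nil))))) .nil)) 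
(.lf (nat_lit 4722) (.g (nat_lit 2765) (.e (nat_lit 271) (nat_lit 21) (.e (nat_lit 336021) (nat_lit 3) (.e (nat_lit 98313) (nat_lit 9) (.e (nat_lit 336027) (nat_lit 3) (.e (nat_lit 98313) (nat_lit 9) (.e (nat_lit 336012) (nat_lit 2) (.e (nat_lit 90123) (nat_lit 9) .nil))))))) (.g (nat_lit 4) .nil .nil))))) (.nd (nat_lit 4) (.nd (nat_lit 5) 
(.lf (nat_lit 4682) (.g (nat_lit 5130) (.e (nat_lit 268) (nat_lit 21) (.e (nat_lit 336228) (nat_lit 14) (.e (nat_lit 401428) (nat_lit 3) (.e (nat_lit 204869) (nat_lit 29) (.e (nat_lit 360475) (nat_lit 8) (.e (nat_lit 557064) (nat_lit 9) .nil)))))) (.g (nat_lit 5) .nil .nil))) 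
(.lf (nat_lit 4714) (.g (nat_lit 3771) (.e (nat_lit 271) (nat_lit 21) (.e (nat_lit 336011) (nat_lit 2) (.e (nat_lit 90170) (nat_lit 13) (.e (nat_lit 172113) (nat_lit 10) (.e (nat_lit 434247) (nat_lit 28) (.e (nat_lit 573477) (nat_lit 12) (.e (nat_lit 57575) (nat_lit 55) (.e (nat_lit 778359) (nat_lit 9) .nil)))))))) (.g (nat_lit 5) .nil .nil)))) (.nd (nat_lit 5) 
(.lf (nat_lit 4698) (.g (nat_lit 3666) (.e (nat_lit 270) (nat_lit 21) (.e (nat_lit 336223) (nat_lit 13) (.e (nat_lit 393301) (nat_lit 27) (.e (nat_lit 491560) (nat_lit 10) (.e (nat_lit 344179) (nat_lit 44) (.e (nat_lit 778361) (nat_lit 9) .nil)))))) (.g (nat_lit 5) .nil .nil))) 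
(.lf (nat_lit 4730) (.g (nat_lit 3583) (.e (nat_lit 271) (nat_lit 21) (.e (nat_lit 336027) (nat_lit 3) (.e (nat_lit 98372) (nat_lit 29) (.e (nat_lit 450586) (nat_lit 10) (.e (nat_lit 573475) (nat_lit 12) (.e (nat_lit 57574) (nat_lit 55) (.e (nat_lit 778359) (nat_lit 9) .nil))))))) (.g (nat_lit 5) .nil .nil)))))) (.nd (nat_lit 3) (.nd (nat_lit 4) (.nd (nat_lit 5) 
(.lf (nat_lit 4678) (.g (nat_lit 4706) (.e (nat_lit 268) (nat_lit 21) (.e (nat_lit 336228) (nat_lit 14) (.e (nat_lit 401428) (nat_lit 3) (.e (nat_lit 204869) (nat_lit 29) (.e (nat_lit 360474) (nat_lit 8) (.e (nat_lit 557064) (nat_lit 9) .nil)))))) (.g (nat_lit 0) .nil .nil))) 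
(.lf (nat_lit 4710) (.g (nat_lit 2162) (.e (nat_lit 271) (nat_lit 21) (.e (nat_lit 336011) (nat_lit 2) (.e (nat_lit 90170) (nat_lit 13) (.e (nat_lit 172106) (nat_lit 10) (.e (nat_lit 434244) (nat_lit 28) (.e (nat_lit 573451) (nat_lit 9) (.e (nat_lit 1310) (nat_lit 98) (.e (nat_lit 147465) (nat_lit 9) .nil)))))))) (.g (nat_lit 4) .nil .nil)))) (.nd (nat_lit 5) 
(.lf (nat_lit 4694) (.g (nat_lit 1776) (.e (nat_lit 270) (nat_lit 21) (.e (nat_lit 336223) (nat_lit 13) (.e (nat_lit 393234) (nat_lit 17) (.e (nat_lit 7591) (nat_lit 407) .nil)))) .nil)) 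
(.lf (nat_lit 4726) (.g (nat_lit 2798) (.e (nat_lit 271) (nat_lit 21) (.e (nat_lit 336025) (nat_lit 3) (.e (nat_lit 98373) (nat_lit 29) (.e (nat_lit 450587) (nat_lit 10) (.e (nat_lit 573477) (nat_lit 12) (.e (nat_lit 57574) (nat_lit 55) (.e (nat_lit 778359) (nat_lit 9) .nil))))))) (.g (nat_lit 4) .nil .nil))))) (.nd (nat_lit 4) (.nd (nat_lit 5) 
(.lf (nat_lit 4686) (.g (nat_lit 1795) (.e (nat_lit 269) (nat_lit 21) (.e (nat_lit 336204) (nat_lit 12) (.e (nat_lit 385074) (nat_lit 31) (.e (nat_lit 573491) (nat_lit 15) .nil)))) .nil)) 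
(.lf (nat_lit 4718) (.g (nat_lit 4057) (.e (nat_lit 271) (nat_lit 21) (.e (nat_lit 336011) (nat_lit 2) (.e (nat_lit 90170) (nat_lit 13) (.e (nat_lit 172113) (nat_lit 10) (.e (nat_lit 434247) (nat_lit 28) (.e (nat_lit 573478) (nat_lit 12) (.e (nat_lit 57574) (nat_lit 55) (.e (nat_lit 778362) (nat_lit 9) .nil)))))))) (.g (nat_lit 6) .nil .nil)))) (.nd (nat_lit 5) 
(.lf (nat_lit 4702) (.g (nat_lit 3817) (.e (nat_lit 271) (nat_lit 21) (.e (nat_lit 336009) (nat_lit 2) (.e (nat_lit 90170) (nat_lit 13) (.e (nat_lit 172113) (nat_lit 10) (.e (nat_lit 434247) (nat_lit 28) (.e (nat_lit 573477) (nat_lit 12) (.e (nat_lit 57574) (nat_lit 55) (.e (nat_lit 778362) (nat_lit 9) .nil)))))))) (.g (nat_lit 6) .nil .nil))) 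
(.lf (nat_lit 4734) (.g (nat_lit 3714) (.e (nat_lit 271) (nat_lit 21) (.e (nat_lit 336027) (nat_lit 3) (.e (nat_lit 98372) (nat_lit 29) (.e (nat_lit 450586) (nat_lit 10) (.e (nat_lit 573477) (nat_lit 12) (.e (nat_lit 57574) (nat_lit 55) (.e (nat_lit 778361) (nat_lit 9) .nil))))))) (.g (nat_lit 6) .nil .nil)))))))) 
(.nd (nat_lit 1) (.nd (nat_lit 2) (.nd (nat_lit 3) (.nd (nat_lit 4) (.nd (nat_lit 5) 
(.lf (nat_lit 4673) (.g (nat_lit 2245) (.e (nat_lit 268) (nat_lit 21) (.e (nat_lit 336224) (nat_lit 13) (.e (nat_lit 393234) (nat_lit 17) (.e (nat_lit 7587) (nat_lit 406) (.e (nat_lit 65580) (nat_lit 6) (.e (nat_lit 147467) (nat_lit 9) .nil)))))) (.g (nat_lit 4) .nil .nil))) 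
(.lf (nat_lit 4705) (.g (nat_lit 3187) (.e (nat_lit 271) (nat_lit 21) (.e (nat_lit 336009) (nat_lit 2) (.e (nat_lit 90170) (nat_lit 13) (.e (nat_lit 172113) (nat_lit 10) (.e (nat_lit 434247) (nat_lit 28) (.e (nat_lit 573478) (nat_lit 12) (.e (nat_lit 57574) (nat_lit 55) (.e (nat_lit 778361) (nat_lit 9) .nil)))))))) (.g (nat_lit 5) .nil .nil)))) (.nd (nat_lit 5) 
(.lf (nat_lit 4689) (.g (nat_lit 1879) (.e (nat_lit 270) (nat_lit 21) (.e (nat_lit 336027) (nat_lit 3) (.e (nat_lit 98372) (nat_lit 29) (.e (nat_lit 450586) (nat_lit 10) .nil)))) .nil)) 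
(.lf (nat_lit 4721) (.g (nat_lit 2390) (.e (nat_lit 271) (nat_lit 21) (.e (nat_lit 336021) (nat_lit 3) (.e (nat_lit 98313) (nat_lit 9) (.e (nat_lit 336021) (nat_lit 3) (.e (nat_lit 98317) (nat_lit 9) .nil))))) .nil)))) (.nd (nat_lit 4) (.nd (nat_lit 5) 
(.lf (nat_lit 4681) (.g (nat_lit 3236) (.e (nat_lit 268) (nat_lit 21) (.e (nat_lit 336228) (nat_lit 14) (.e (nat_lit 401428) (nat_lit 3) (.e (nat_lit 204869) (nat_lit 29) (.e (nat_lit 360474) (nat_lit 8) (.e (nat_lit 564992) (nat_lit 9) .nil)))))) (.g (nat_lit 5) .nil .nil))) 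
(.lf (nat_lit 4713) (.g (nat_lit 3717) (.e (nat_lit 271) (nat_lit 21) (.e (nat_lit 336011) (nat_lit 2) (.e (nat_lit 90170) (nat_lit 13) (.e (nat_lit 172113) (nat_lit 10) (.e (nat_lit 434247) (nat_lit 28) (.e (nat_lit 573477) (nat_lit 12) (.e (nat_lit 57574) (nat_lit 55) (.e (nat_lit 778359) (nat_lit 9) .nil)))))))) (.g (nat_lit 5) .nil .nil)))) (.nd (nat_lit 5) 
(.lf (nat_lit 4697) (.g (nat_lit 3120) (.e (nat_lit 270) (nat_lit 21) (.e (nat_lit 336223) (nat_lit 13) (.e (nat_lit 393301) (nat_lit 27) (.e (nat_lit 491560) (nat_lit 10) (.e (nat_lit 344179) (nat_lit 44) .nil))))) .nil)) 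
(.lf (nat_lit 4729) (.g (nat_lit 3727) (.e (nat_lit 271) (nat_lit 21) (.e (nat_lit 336025) (nat_lit 3) (.e (nat_lit 98373) (nat_lit 29) (.e (nat_lit 450588) (nat_lit 10) (.e (nat_lit 573475) (nat_lit 12) (.e (nat_lit 57574) (nat_lit 55) (.e (nat_lit 778361) (nat_lit 9) .nil))))))) (.g (nat_lit 5) .nil .nil)))))) (.nd (nat_lit 3) (.nd (nat_lit 4) (.nd (nat_lit 5) 
(.lf (nat_lit 4677) (.g (nat_lit 3611) (.e (nat_lit 268) (nat_lit 21) (.e (nat_lit 336228) (nat_lit 14) (.e (nat_lit 401428) (nat_lit 3) (.e (nat_lit 204869) (nat_lit 29) (.e (nat_lit 360473) (nat_lit 8) (.e (nat_lit 557066) (nat_lit 9) .nil)))))) (.g (nat_lit 5) .nil .nil))) 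
(.lf (nat_lit 4709) (.g (nat_lit 2052) (.e (nat_lit 271) (nat_lit 21) (.e (nat_lit 336011) (nat_lit 2) (.e (nat_lit 90170) (nat_lit 13) (.e (nat_lit 172106) (nat_lit 10) (.e (nat_lit 434244) (nat_lit 28) (.e (nat_lit 573449) (nat_lit 9) (.e (nat_lit 1312) (nat_lit 98) (.e (nat_lit 147465) (nat_lit 9) .nil)))))))) (.g (nat_lit 4) .nil .nil)))) (.nd (nat_lit 5) 
(.lf (nat_lit 4693) (.g (nat_lit 3575) (.e (nat_lit 270) (nat_lit 21) (.e (nat_lit 336204) (nat_lit 12) (.e (nat_lit 385074) (nat_lit 31) (.e (nat_lit 573485) (nat_lit 13) (.e (nat_lit 65619) (nat_lit 10) .nil))))) .nil)) 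
(.lf (nat_lit 4725) (.g (nat_lit 3325) (.e (nat_lit 271) (nat_lit 21) (.e (nat_lit 336025) (nat_lit 3) (.e (nat_lit 98373) (nat_lit 29) (.e (nat_lit 450587) (nat_lit 10) (.e (nat_lit 573475) (nat_lit 12) (.e (nat_lit 57574) (nat_lit 55) (.e (nat_lit 778361) (nat_lit 9) .nil))))))) (.g (nat_lit 5) .nil .nil))))) (.nd (nat_lit 4) (.nd (nat_lit 5) 
(.lf (nat_lit 4685) (.g (nat_lit 3766) (.e (nat_lit 269) (nat_lit 21) (.e (nat_lit 336204) (nat_lit 12) (.e (nat_lit 385074) (nat_lit 31) (.e (nat_lit 573482) (nat_lit 13) (.e (nat_lit 65619) (nat_lit 10) .nil))))) .nil)) 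
(.lf (nat_lit 4717) (.g (nat_lit 2851) (.e (nat_lit 271) (nat_lit 21) (.e (nat_lit 336011) (nat_lit 2) (.e (nat_lit 90170) (nat_lit 13) (.e (nat_lit 172113) (nat_lit 10) (.e (nat_lit 434247) (nat_lit 28) (.e (nat_lit 573478) (nat_lit 12) (.e (nat_lit 57574) (nat_lit 55) (.e (nat_lit 778360) (nat_lit 9) .nil)))))))) (.g (nat_lit 4) .nil .nil)))) (.nd (nat_lit 5) 
(.lf (nat_lit 4701) (.g (nat_lit 3389) (.e (nat_lit 271) (nat_lit 21) (.e (nat_lit 336009) (nat_lit 2) (.e (nat_lit 90170) (nat_lit 13) (.e (nat_lit 172113) (nat_lit 10) (.e (nat_lit 434247) (nat_lit 28) (.e (nat_lit 573477) (nat_lit 12) (.e (nat_lit 57574) (nat_lit 55) (.e (nat_lit 778361) (nat_lit 9) .nil)))))))) (.g (nat_lit 5) .nil .nil))) 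
(.lf (nat_lit 4733) (.g (nat_lit 2584) (.e (nat_lit 271) (nat_lit 21) (.e (nat_lit 336027) (nat_lit 3) (.e (nat_lit 98372) (nat_lit 29) (.e (nat_lit 450586) (nat_lit 10) (.e (nat_lit 573477) (nat_lit 12) (.e (nat_lit 57574) (nat_lit 55) (.e (nat_lit 778360) (nat_lit 9) .nil))))))) (.g (nat_lit 4) .nil .nil))))))) (.nd (nat_lit 2) (.nd (nat_lit 3) (.nd (nat_lit 4) (.nd (nat_lit 5) 
(.lf (nat_lit 4675) (.g (nat_lit 2422) (.e (nat_lit 268) (nat_lit 21) (.e (nat_lit 336228) (nat_lit 14) (.e (nat_lit 401425) (nat_lit 2) (.e (nat_lit 196666) (nat_lit 13) (.e (nat_lit 65617) (nat_lit 10) (.e (nat_lit 344130) (nat_lit 26) (.e (nat_lit 557064) (nat_lit 9) .nil))))))) (.g (nat_lit 5) .nil .nil))) 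
(.lf (nat_lit 4707) (.g (nat_lit 2514) (.e (nat_lit 271) (nat_lit 21) (.e (nat_lit 336009) (nat_lit 2) (.e (nat_lit 90170) (nat_lit 13) (.e (nat_lit 172113) (nat_lit 10) (.e (nat_lit 434248) (nat_lit 28) (.e (nat_lit 573475) (nat_lit 12) (.e (nat_lit 57574) (nat_lit 55) (.e (nat_lit 778360) (nat_lit 9) .nil)))))))) (.g (nat_lit 4) .nil .nil)))) (.nd (nat_lit 5) 
(.lf (nat_lit 4691) (.g (nat_lit 549) (.e (nat_lit 270) (nat_lit 21) (.e (nat_lit 336086) (nat_lit 9) (.e (nat_lit 336421) (nat_lit 28) .nil))) .nil)) 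
(.lf (nat_lit 4723) (.g (nat_lit 2497) (.e (nat_lit 271) (nat_lit 21) (.e (nat_lit 336021) (nat_lit 3) (.e (nat_lit 98313) (nat_lit 9) (.e (nat_lit 336027) (nat_lit 3) (.e (nat_lit 98317) (nat_lit 9) .nil))))) .nil)))) (.nd (nat_lit 4) (.nd (nat_lit 5) 
(.lf (nat_lit 4683) (.g (nat_lit 2694) (.e (nat_lit 268) (nat_lit 21) (.e (nat_lit 336228) (nat_lit 14) (.e (nat_lit 401459) (nat_lit 13) (.e (nat_lit 483372) (nat_lit 21) (.e (nat_lit 319504) (nat_lit 10) (.e (nat_lit 7936) (nat_lit 312) .nil)))))) (.g (nat_lit 5) .nil .nil))) 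
(.lf (nat_lit 4715) (.g (nat_lit 2981) (.e (nat_lit 271) (nat_lit 21) (.e (nat_lit 336011) (nat_lit 2) (.e (nat_lit 90170) (nat_lit 13) (.e (nat_lit 172113) (nat_lit 10) (.e (nat_lit 434247) (nat_lit 28) (.e (nat_lit 573477) (nat_lit 12) (.e (nat_lit 57575) (nat_lit 55) (.e (nat_lit 778361) (nat_lit 9) .nil)))))))) (.g (nat_lit 4) .nil .nil)))) (.nd (nat_lit 5) 
(.lf (nat_lit 4699) (.g (nat_lit 2400) (.e (nat_lit 271) (nat_lit 21) (.e (nat_lit 336009) (nat_lit 2) (.e (nat_lit 90170) (nat_lit 13) (.e (nat_lit 172113) (nat_lit 10) (.e (nat_lit 434245) (nat_lit 28) (.e (nat_lit 573474) (nat_lit 12) (.e (nat_lit 57574) (nat_lit 55) (.e (nat_lit 778360) (nat_lit 9) .nil)))))))) (.g (nat_lit 4) .nil .nil))) 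
(.lf (nat_lit 4731) (.g (nat_lit 2519) (.e (nat_lit 271) (nat_lit 21) (.e (nat_lit 336027) (nat_lit 3) (.e (nat_lit 98372) (nat_lit 29) (.e (nat_lit 450586) (nat_lit 10) (.e (nat_lit 573477) (nat_lit 12) .nil))))) .nil))))) (.nd (nat_lit 3) (.nd (nat_lit 4) (.nd (nat_lit 5) 
(.lf (nat_lit 4679) (.g (nat_lit 4588) (.e (nat_lit 268) (nat_lit 21) (.e (nat_lit 336228) (nat_lit 14) (.e (nat_lit 401428) (nat_lit 3) (.e (nat_lit 204869) (nat_lit 29) (.e (nat_lit 360474) (nat_lit 8) (.e (nat_lit 557065) (nat_lit 9) .nil)))))) (.g (nat_lit 6) .nil .nil))) 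
(.lf (nat_lit 4711) (.g (nat_lit 3347) (.e (nat_lit 271) (nat_lit 21) (.e (nat_lit 336011) (nat_lit 2) (.e (nat_lit 90170) (nat_lit 13) (.e (nat_lit 172113) (nat_lit 10) (.e (nat_lit 434245) (nat_lit 28) (.e (nat_lit 573474) (nat_lit 12) (.e (nat_lit 57574) (nat_lit 55) (.e (nat_lit 778360) (nat_lit 9) .nil)))))))) (.g (nat_lit 5) .nil .nil)))) (.nd (nat_lit 5) 
(.lf (nat_lit 4695) (.g (nat_lit 1749) (.e (nat_lit 270) (nat_lit 21) (.e (nat_lit 336223) (nat_lit 13) (.e (nat_lit 393234) (nat_lit 17) (.e (nat_lit 7593) (nat_lit 407) .nil)))) .nil)) 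
(.lf (nat_lit 4727) (.g (nat_lit 2311) (.e (nat_lit 271) (nat_lit 21) (.e (nat_lit 336025) (nat_lit 3) (.e (nat_lit 98373) (nat_lit 29) (.e (nat_lit 450587) (nat_lit 10) (.e (nat_lit 573478) (nat_lit 12) (.e (nat_lit 57574) (nat_lit 55) (.e (nat_lit 778359) (nat_lit 9) .nil))))))) (.g (nat_lit 4) .nil .nil))))) (.nd (nat_lit 4) (.nd (nat_lit 5) 
(.lf (nat_lit 4687) (.g (nat_lit 1814) (.e (nat_lit 269) (nat_lit 21) (.e (nat_lit 336223) (nat_lit 13) (.e (nat_lit 393234) (nat_lit 17) (.e (nat_lit 7591) (nat_lit 407) .nil)))) .nil)) 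
(.lf (nat_lit 4719) (.g (nat_lit 2633) (.e (nat_lit 271) (nat_lit 21) (.e (nat_lit 336021) (nat_lit 3) (.e (nat_lit 98313) (nat_lit 9) (.e (nat_lit 336012) (nat_lit 2) (.e (nat_lit 90158) (nat_lit 11) (.e (nat_lit 24604) (nat_lit 2) (.e (nat_lit 90123) (nat_lit 9) .nil))))))) (.g (nat_lit 4) .nil .nil)))) (.nd (nat_lit 5) 
(.lf (nat_lit 4703) (.g (nat_lit 2809) (.e (nat_lit 271) (nat_lit 21) (.e (nat_lit 336009) (nat_lit 2) (.e (nat_lit 90170) (nat_lit 13) (.e (nat_lit 172113) (nat_lit 10) (.e (nat_lit 434247) (nat_lit 28) (.e (nat_lit 573477) (nat_lit 12) (.e (nat_lit 57575) (nat_lit 55) (.e (nat_lit 778359) (nat_lit 9) .nil)))))))) (.g (nat_lit 4) .nil .nil))) 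
(.lf (nat_lit 4735) (.g (nat_lit 3007) (.e (nat_lit 271) (nat_lit 21) (.e (nat_lit 336027) (nat_lit 3) (.e (nat_lit 98372) (nat_lit 29) (.e (nat_lit 450586) (nat_lit 10) (.e (nat_lit 573478) (nat_lit 12) (.e (nat_lit 57574) (nat_lit 55) (.e (nat_lit 778359) (nat_lit 9) .nil))))))) (.g (nat_lit 5) .nil .nil)))))))))

noncomputable def tv063 : DT := (.nd (nat_lit 0) (.nd (nat_lit 1) (.nd (nat_lit 2) (.nd (nat_lit 3) (.nd (nat_lit 4) (.nd (nat_lit 5) (.nd (nat_lit 6) 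
(.lf (nat_lit 4736) (.g (nat_lit 2472) (.e (nat_lit 271) (nat_lit 21) (.e (nat_lit 336027) (nat_lit 3) (.e (nat_lit 98372) (nat_lit 29) (.e (nat_lit 450586) (nat_lit 10) (.e (nat_lit 573478) (nat_lit 12) (.e (nat_lit 57574) (nat_lit 55) (.e (nat_lit 778360) (nat_lit 9) .nil))))))) (.g (nat_lit 4) .nil .nil))) 
(.lf (nat_lit 4800) (.g (nat_lit 3073) (.e (nat_lit 272) (nat_lit 21) (.e (nat_lit 336213) (nat_lit 13) (.e (nat_lit 393225) (nat_lit 9) (.e (nat_lit 335995) (nat_lit 1) (.e (nat_lit 57848) (nat_lit 252) (.e (nat_lit 57374) (nat_lit 2) (.e (nat_lit 90134) (nat_lit 9) .nil))))))) (.g (nat_lit 6) .nil .nil)))) (.nd (nat_lit 6) 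
(.lf (nat_lit 4768) (.g (nat_lit 1790) (.e (nat_lit 271) (nat_lit 21) (.e (nat_lit 336223) (nat_lit 13) (.e (nat_lit 393234) (nat_lit 17) (.e (nat_lit 7593) (nat_lit 407) (.e (nat_lit 73775) (nat_lit 26) .nil))))) .nil)) 
(.lf (nat_lit 4832) (.g (nat_lit 3583) (.e (nat_lit 274) (nat_lit 21) (.e (nat_lit 336011) (nat_lit 2) (.e (nat_lit 90170) (nat_lit 13) (.e (nat_lit 172106) (nat_lit 10) (.e (nat_lit 434244) (nat_lit 28) (.e (nat_lit 573474) (nat_lit 12) (.e (nat_lit 57573) (nat_lit 55) (.e (nat_lit 778340) (nat_lit 9) .nil)))))))) (.g (nat_lit 6) .nil .nil))))) (.nd (nat_lit 5) (.nd (nat_lit 6) 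
(.lf (nat_lit 4752) (.g (nat_lit 576) (.e (nat_lit 271) (nat_lit 21) (.e (nat_lit 336076) (nat_lit 9) (.e (nat_lit 336454) (nat_lit 34) .nil))) .nil)) 
(.lf (nat_lit 4816) (.g (nat_lit 1879) (.e (nat_lit 273) (nat_lit 21) (.e (nat_lit 336027) (nat_lit 3) (.e (nat_lit 98372) (nat_lit 29) (.e (nat_lit 450586) (nat_lit 10) .nil)))) .nil))) (.nd (nat_lit 6) 
(.lf (nat_lit 4784) (.g (nat_lit 2453) (.e (nat_lit 272) (nat_lit 21) (.e (nat_lit 336027) (nat_lit 3) (.e (nat_lit 98372) (nat_lit 29) (.e (nat_lit 450579) (nat_lit 5) (.e (nat_lit 532501) (nat_lit 1) .nil))))) .nil)) 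
(.lf (nat_lit 4848) (.g (nat_lit 2363) (.e (nat_lit 274) (nat_lit 21) (.e (nat_lit 336223) (nat_lit 13) (.e (nat_lit 393234) (nat_lit 17) (.e (nat_lit 7591) (nat_lit 407) (.e (nat_lit 73774) (nat_lit 26) .nil))))) .nil))))) (.nd (nat_lit 4) (.nd (nat_lit 5) (.nd (nat_lit 6) 
(.lf (nat_lit 4744) (.g (nat_lit 4197) (.e (nat_lit 271) (nat_lit 21) (.e (nat_lit 336027) (nat_lit 3) (.e (nat_lit 98373) (nat_lit 29) (.e (nat_lit 450587) (nat_lit 10) (.e (nat_lit 573477) (nat_lit 12) (.e (nat_lit 57574) (nat_lit 55) (.e (nat_lit 778359) (nat_lit 9) .nil))))))) (.g (nat_lit 5) .nil .nil))) 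
(.lf (nat_lit 4808) (.g (nat_lit 2846) (.e (nat_lit 272) (nat_lit 21) (.e (nat_lit 336229) (nat_lit 14) (.e (nat_lit 401425) (nat_lit 2) (.e (nat_lit 196666) (nat_lit 13) (.e (nat_lit 65617) (nat_lit 10) .nil))))) .nil))) (.nd (nat_lit 6) 
(.lf (nat_lit 4776) (.g (nat_lit 3493) (.e (nat_lit 272) (nat_lit 21) (.e (nat_lit 336011) (nat_lit 2) (.e (nat_lit 90170) (nat_lit 13) (.e (nat_lit 172113) (nat_lit 10) (.e (nat_lit 434245) (nat_lit 28) .nil))))) .nil)) 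
(.lf (nat_lit 4840) (.g (nat_lit 2112) (.e (nat_lit 274) (nat_lit 21) (.e (nat_lit 336027) (nat_lit 3) (.e (nat_lit 98372) (nat_lit 29) (.e (nat_lit 450586) (nat_lit 10) (.e (nat_lit 573475) (nat_lit 12) (.e (nat_lit 57573) (nat_lit 55) (.e (nat_lit 778337) (nat_lit 9) .nil))))))) (.g (nat_lit 4) .nil .nil))))) (.nd (nat_lit 5) (.nd (nat_lit 6) 
(.lf (nat_lit 4760) (.g (nat_lit 3468) (.e (nat_lit 271) (nat_lit 21) (.e (nat_lit 336213) (nat_lit 13) (.e (nat_lit 393300) (nat_lit 27) (.e (nat_lit 491556) (nat_lit 9) (.e (nat_lit 336051) (nat_lit 6) (.e (nat_lit 147466) (nat_lit 9) .nil)))))) (.g (nat_lit 4) .nil .nil))) 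
(.lf (nat_lit 4824) (.g (nat_lit 3371) (.e (nat_lit 273) (nat_lit 21) (.e (nat_lit 336204) (nat_lit 12) (.e (nat_lit 385074) (nat_lit 31) (.e (nat_lit 573484) (nat_lit 13) .nil)))) .nil))) (.nd (nat_lit 6) 
(.lf (nat_lit 4792) (.g (nat_lit 1559) (.e (nat_lit 272) (nat_lit 21) (.e (nat_lit 336076) (nat_lit 9) (.e (nat_lit 336454) (nat_lit 34) (.e (nat_lit 483366) (nat_lit 18) (.e (nat_lit 57854) (nat_lit 252) .nil))))) .nil)) 
(.lf (nat_lit 4856) (.g (nat_lit 1257) (.e (nat_lit 274) (nat_lit 21) (.e (nat_lit 336408) (nat_lit 27) (.e (nat_lit 426188) (nat_lit 9) (.e (nat_lit 426432) (nat_lit 17) (.e (nat_lit 90203) (nat_lit 21) (.e (nat_lit 164287) (nat_lit 224) (.e (nat_lit 164354) (nat_lit 246) .nil))))))) (.g (nat_lit 4) .nil .nil))))))) (.nd (nat_lit 3) (.nd (nat_lit 4) (.nd (nat_lit 5) (.nd (nat_lit 6) 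
(.lf (nat_lit 4740) (.g (nat_lit 3531) (.e (nat_lit 271) (nat_lit 21) (.e (nat_lit 336027) (nat_lit 3) (.e (nat_lit 98373) (nat_lit 29) (.e (nat_lit 450587) (nat_lit 10) (.e (nat_lit 573454) (nat_lit 9) (.e (nat_lit 1315) (nat_lit 98) (.e (nat_lit 147466) (nat_lit 9) .nil))))))) (.g (nat_lit 4) .nil .nil))) 
(.lf (nat_lit 4804) (.g (nat_lit 2427) (.e (nat_lit 272) (nat_lit 21) (.e (nat_lit 336223) (nat_lit 13) (.e (nat_lit 393234) (nat_lit 17) (.e (nat_lit 7591) (nat_lit 407) (.e (nat_lit 73776) (nat_lit 26) .nil))))) .nil))) (.nd (nat_lit 6) 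
(.lf (nat_lit 4772) (.g (nat_lit 3180) (.e (nat_lit 271) (nat_lit 21) (.e (nat_lit 336223) (nat_lit 13) (.e (nat_lit 393301) (nat_lit 27) (.e (nat_lit 491556) (nat_lit 9) (.e (nat_lit 336051) (nat_lit 6) (.e (nat_lit 147467) (nat_lit 9) .nil)))))) (.g (nat_lit 4) .nil .nil))) 
(.lf (nat_lit 4836) (.g (nat_lit 2369) (.e (nat_lit 274) (nat_lit 21) (.e (nat_lit 336011) (nat_lit 2) (.e (nat_lit 90170) (nat_lit 13) (.e (nat_lit 172120) (nat_lit 12) (.e (nat_lit 475179) (nat_lit 24) .nil))))) .nil)))) (.nd (nat_lit 5) (.nd (nat_lit 6) 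
(.lf (nat_lit 4756) (.g (nat_lit 3189) (.e (nat_lit 271) (nat_lit 21) (.e (nat_lit 336204) (nat_lit 12) (.e (nat_lit 385074) (nat_lit 31) (.e (nat_lit 573484) (nat_lit 13) .nil)))) .nil)) 
(.lf (nat_lit 4820) (.g (nat_lit 3264) (.e (nat_lit 273) (nat_lit 21) (.e (nat_lit 336027) (nat_lit 3) (.e (nat_lit 98373) (nat_lit 29) (.e (nat_lit 450587) (nat_lit 10) (.e (nat_lit 573477) (nat_lit 12) .nil))))) .nil))) (.nd (nat_lit 6) 
(.lf (nat_lit 4788) (.g (nat_lit 2479) (.e (nat_lit 272) (nat_lit 21) (.e (nat_lit 336027) (nat_lit 3) (.e (nat_lit 98372) (nat_lit 29) (.e (nat_lit 450586) (nat_lit 10) (.e (nat_lit 573478) (nat_lit 12) .nil))))) .nil)) 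
(.lf (nat_lit 4852) (.g (nat_lit 2871) (.e (nat_lit 274) (nat_lit 21) (.e (nat_lit 336223) (nat_lit 13) (.e (nat_lit 393301) (nat_lit 27) (.e (nat_lit 491560) (nat_lit 10) (.e (nat_lit 344178) (nat_lit 44) .nil))))) .nil))))) (.nd (nat_lit 4) (.nd (nat_lit 5) (.nd (nat_lit 6) 
(.lf (nat_lit 4748) (.g (nat_lit 3377) (.e (nat_lit 271) (nat_lit 21) (.e (nat_lit 336027) (nat_lit 3) (.e (nat_lit 98373) (nat_lit 29) (.e (nat_lit 450587) (nat_lit 10) (.e (nat_lit 573478) (nat_lit 12) (.e (nat_lit 57574) (nat_lit 55) (.e (nat_lit 778360) (nat_lit 9) .nil))))))) (.g (nat_lit 4) .nil .nil))) 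
(.lf (nat_lit 4812) (.g (nat_lit 3443) (.e (nat_lit 273) (nat_lit 21) (.e (nat_lit 336011) (nat_lit 2) (.e (nat_lit 90170) (nat_lit 13) (.e (nat_lit 172113) (nat_lit 10) (.e (nat_lit 434248) (nat_lit 28) .nil))))) .nil))) (.nd (nat_lit 6) 
(.lf (nat_lit 4780) (.g (nat_lit 2287) (.e (nat_lit 272) (nat_lit 21) (.e (nat_lit 336012) (nat_lit 2) (.e (nat_lit 90176) (nat_lit 15) (.e (nat_lit 188450) (nat_lit 23) (.e (nat_lit 204817) (nat_lit 17) .nil))))) .nil)) 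
(.lf (nat_lit 4844) (.g (nat_lit 2734) (.e (nat_lit 274) (nat_lit 21) (.e (nat_lit 336027) (nat_lit 3) (.e (nat_lit 98373) (nat_lit 29) (.e (nat_lit 450587) (nat_lit 10) (.e (nat_lit 573477) (nat_lit 12) .nil))))) .nil)))) (.nd (nat_lit 5) (.nd (nat_lit 6) 
(.lf (nat_lit 4764) (.g (nat_lit 1913) (.e (nat_lit 271) (nat_lit 21) (.e (nat_lit 336223) (nat_lit 13) (.e (nat_lit 393234) (nat_lit 17) (.e (nat_lit 7591) (nat_lit 407) (.e (nat_lit 73775) (nat_lit 26) .nil))))) .nil)) 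
(.lf (nat_lit 4828) (.g (nat_lit 3077) (.e (nat_lit 273) (nat_lit 21) (.e (nat_lit 336223) (nat_lit 13) (.e (nat_lit 393301) (nat_lit 27) (.e (nat_lit 491560) (nat_lit 10) (.e (nat_lit 344178) (nat_lit 44) .nil))))) .nil))) (.nd (nat_lit 6) 
(.lf (nat_lit 4796) (.g (nat_lit 3089) (.e (nat_lit 272) (nat_lit 21) (.e (nat_lit 336204) (nat_lit 12) (.e (nat_lit 385074) (nat_lit 31) (.e (nat_lit 573484) (nat_lit 13) .nil)))) .nil)) 
(.lf (nat_lit 4860) (.g (nat_lit 1895) (.e (nat_lit 275) (nat_lit 21) (.e (nat_lit 336011) (nat_lit 2) (.e (nat_lit 90170) (nat_lit 13) (.e (nat_lit 172106) (nat_lit 10) (.e (nat_lit 434244) (nat_lit 28) .nil))))) .nil))))))) (.nd (nat_lit 2) (.nd (nat_lit 3) (.nd (nat_lit 4) (.nd (nat_lit 5) (.nd (nat_lit 6) 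
(.lf (nat_lit 4738) (.g (nat_lit 3853) (.e (nat_lit 271) (nat_lit 21) (.e (nat_lit 336027) (nat_lit 3) (.e (nat_lit 98372) (nat_lit 29) (.e (nat_lit 450588) (nat_lit 10) (.e (nat_lit 573475) (nat_lit 12) (.e (nat_lit 57574) (nat_lit 55) (.e (nat_lit 778361) (nat_lit 9) .nil))))))) (.g (nat_lit 4) .nil .nil))) 
(.lf (nat_lit 4802) (.g (nat_lit 2918) (.e (nat_lit 272) (nat_lit 21) (.e (nat_lit 336220) (nat_lit 13) (.e (nat_lit 393225) (nat_lit 9) (.e (nat_lit 335995) (nat_lit 1) (.e (nat_lit 57848) (nat_lit 252) (.e (nat_lit 57372) (nat_lit 2) (.e (nat_lit 90130) (nat_lit 9) .nil))))))) (.g (nat_lit 6) .nil .nil)))) (.nd (nat_lit 6) 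
(.lf (nat_lit 4770) (.g (nat_lit 2488) (.e (nat_lit 271) (nat_lit 21) (.e (nat_lit 336223) (nat_lit 13) (.e (nat_lit 393234) (nat_lit 17) (.e (nat_lit 7593) (nat_lit 407) (.e (nat_lit 73775) (nat_lit 26) (.e (nat_lit 778362) (nat_lit 9) .nil)))))) (.g (nat_lit 5) .nil .nil))) 
(.lf (nat_lit 4834) (.g (nat_lit 3101) (.e (nat_lit 274) (nat_lit 21) (.e (nat_lit 336011) (nat_lit 2) (.e (nat_lit 90170) (nat_lit 13) (.e (nat_lit 172113) (nat_lit 10) (.e (nat_lit 434247) (nat_lit 28) .nil))))) .nil)))) (.nd (nat_lit 5) (.nd (nat_lit 6) 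
(.lf (nat_lit 4754) (.g (nat_lit 2215) (.e (nat_lit 271) (nat_lit 21) (.e (nat_lit 336201) (nat_lit 12) (.e (nat_lit 385074) (nat_lit 31) (.e (nat_lit 573485) (nat_lit 13) (.e (nat_lit 65619) (nat_lit 10) (.e (nat_lit 344129) (nat_lit 26) (.e (nat_lit 557066) (nat_lit 9) .nil))))))) (.g (nat_lit 4) .nil .nil))) 
(.lf (nat_lit 4818) (.g (nat_lit 2533) (.e (nat_lit 273) (nat_lit 21) (.e (nat_lit 336027) (nat_lit 3) (.e (nat_lit 98372) (nat_lit 29) (.e (nat_lit 450586) (nat_lit 10) (.e (nat_lit 573477) (nat_lit 12) .nil))))) .nil))) (.nd (nat_lit 6) 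
(.lf (nat_lit 4786) (.g (nat_lit 2501) (.e (nat_lit 272) (nat_lit 21) (.e (nat_lit 336027) (nat_lit 3) (.e (nat_lit 98372) (nat_lit 29) (.e (nat_lit 450586) (nat_lit 10) (.e (nat_lit 573475) (nat_lit 12) .nil))))) .nil)) 
(.lf (nat_lit 4850) (.g (nat_lit 2062) (.e (nat_lit 274) (nat_lit 21) (.e (nat_lit 336223) (nat_lit 13) (.e (nat_lit 393234) (nat_lit 17) (.e (nat_lit 7593) (nat_lit 407) (.e (nat_lit 73774) (nat_lit 26) .nil))))) .nil))))) (.nd (nat_lit 4) (.nd (nat_lit 5) (.nd (nat_lit 6) 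
(.lf (nat_lit 4746) (.g (nat_lit 4812) (.e (nat_lit 271) (nat_lit 21) (.e (nat_lit 336027) (nat_lit 3) (.e (nat_lit 98373) (nat_lit 29) (.e (nat_lit 450587) (nat_lit 10) (.e (nat_lit 573477) (nat_lit 12) (.e (nat_lit 57574) (nat_lit 55) (.e (nat_lit 778361) (nat_lit 9) .nil))))))) (.g (nat_lit 6) .nil .nil))) 
(.lf (nat_lit 4810) (.g (nat_lit 3493) (.e (nat_lit 273) (nat_lit 21) (.e (nat_lit 336011) (nat_lit 2) (.e (nat_lit 90170) (nat_lit 13) (.e (nat_lit 172113) (nat_lit 10) (.e (nat_lit 434245) (nat_lit 28) .nil))))) .nil))) (.nd (nat_lit 6) 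
(.lf (nat_lit 4778) (.g (nat_lit 3659) (.e (nat_lit 272) (nat_lit 21) (.e (nat_lit 336011) (nat_lit 2) (.e (nat_lit 90170) (nat_lit 13) (.e (nat_lit 172113) (nat_lit 10) (.e (nat_lit 434247) (nat_lit 28) (.e (nat_lit 573477) (nat_lit 12) (.e (nat_lit 57575) (nat_lit 55) (.e (nat_lit 778381) (nat_lit 9) .nil)))))))) (.g (nat_lit 4) .nil .nil))) 
(.lf (nat_lit 4842) (.g (nat_lit 2109) (.e (nat_lit 274) (nat_lit 21) (.e (nat_lit 336027) (nat_lit 3) (.e (nat_lit 98372) (nat_lit 29) (.e (nat_lit 450586) (nat_lit 10) (.e (nat_lit 573477) (nat_lit 12) .nil))))) .nil)))) (.nd (nat_lit 5) (.nd (nat_lit 6) 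
(.lf (nat_lit 4762) (.g (nat_lit 2322) (.e (nat_lit 271) (nat_lit 21) (.e (nat_lit 336220) (nat_lit 13) (.e (nat_lit 393301) (nat_lit 27) (.e (nat_lit 491556) (nat_lit 9) (.e (nat_lit 336051) (nat_lit 6) (.e (nat_lit 147466) (nat_lit 9) .nil)))))) (.g (nat_lit 4) .nil .nil))) 
(.lf (nat_lit 4826) (.g (nat_lit 1814) (.e (nat_lit 273) (nat_lit 21) (.e (nat_lit 336223) (nat_lit 13) (.e (nat_lit 393234) (nat_lit 17) (.e (nat_lit 7591) (nat_lit 407) .nil)))) .nil))) (.nd (nat_lit 6) 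
(.lf (nat_lit 4794) (.g (nat_lit 2337) (.e (nat_lit 272) (nat_lit 21) (.e (nat_lit 336193) (nat_lit 12) (.e (nat_lit 385074) (nat_lit 31) (.e (nat_lit 573484) (nat_lit 13) (.e (nat_lit 65617) (nat_lit 10) .nil))))) .nil)) 
(.lf (nat_lit 4858) (.g (nat_lit 2360) (.e (nat_lit 275) (nat_lit 21) (.e (nat_lit 336009) (nat_lit 2) (.e (nat_lit 90170) (nat_lit 13) (.e (nat_lit 172113) (nat_lit 10) (.e (nat_lit 434247) (nat_lit 28) .nil))))) .nil)))))) (.nd (nat_lit 3) (.nd (nat_lit 4) (.nd (nat_lit 5) (.nd (nat_lit 6) 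
(.lf (nat_lit 4742) (.g (nat_lit 4665) (.e (nat_lit 271) (nat_lit 21) (.e (nat_lit 336027) (nat_lit 3) (.e (nat_lit 98373) (nat_lit 29) (.e (nat_lit 450587) (nat_lit 10) (.e (nat_lit 573475) (nat_lit 12) (.e (nat_lit 57574) (nat_lit 55) (.e (nat_lit 778361) (nat_lit 9) .nil))))))) (.g (nat_lit 5) .nil .nil))) 
(.lf (nat_lit 4806) (.g (nat_lit 3340) (.e (nat_lit 272) (nat_lit 21) (.e (nat_lit 336223) (nat_lit 13) (.e (nat_lit 393301) (nat_lit 27) (.e (nat_lit 491558) (nat_lit 10) (.e (nat_lit 344180) (nat_lit 44) .nil))))) .nil))) (.nd (nat_lit 6) 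
(.lf (nat_lit 4774) (.g (nat_lit 2484) (.e (nat_lit 272) (nat_lit 21) (.e (nat_lit 336009) (nat_lit 2) (.e (nat_lit 90170) (nat_lit 13) (.e (nat_lit 172113) (nat_lit 10) (.e (nat_lit 434245) (nat_lit 28) (.e (nat_lit 573474) (nat_lit 12) (.e (nat_lit 57574) (nat_lit 55) (.e (nat_lit 778359) (nat_lit 9) .nil)))))))) (.g (nat_lit 4) .nil .nil))) 
(.lf (nat_lit 4838) (.g (nat_lit 1465) (.e (nat_lit 274) (nat_lit 21) (.e (nat_lit 336012) (nat_lit 2) (.e (nat_lit 90176) (nat_lit 15) (.e (nat_lit 196352) (nat_lit 2) .nil)))) .nil)))) (.nd (nat_lit 5) (.nd (nat_lit 6) 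
(.lf (nat_lit 4758) (.g (nat_lit 871) (.e (nat_lit 271) (nat_lit 21) (.e (nat_lit 336213) (nat_lit 13) (.e (nat_lit 393233) (nat_lit 17) .nil))) .nil)) 
(.lf (nat_lit 4822) (.g (nat_lit 3319) (.e (nat_lit 273) (nat_lit 21) (.e (nat_lit 336027) (nat_lit 3) (.e (nat_lit 98373) (nat_lit 29) (.e (nat_lit 450588) (nat_lit 10) (.e (nat_lit 573475) (nat_lit 12) .nil))))) .nil))) (.nd (nat_lit 6) 
(.lf (nat_lit 4790) (.g (nat_lit 2900) (.e (nat_lit 272) (nat_lit 21) (.e (nat_lit 336027) (nat_lit 3) (.e (nat_lit 98373) (nat_lit 29) (.e (nat_lit 450587) (nat_lit 10) (.e (nat_lit 573478) (nat_lit 12) .nil))))) .nil)) 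
(.lf (nat_lit 4854) (.g (nat_lit 2672) (.e (nat_lit 274) (nat_lit 21) (.e (nat_lit 336223) (nat_lit 13) (.e (nat_lit 393301) (nat_lit 27) (.e (nat_lit 491560) (nat_lit 10) (.e (nat_lit 352000) (nat_lit 44) .nil))))) .nil))))) (.nd (nat_lit 4) (.nd (nat_lit 5) (.nd (nat_lit 6) 
(.lf (nat_lit 4750) (.g (nat_lit 5261) (.e (nat_lit 271) (nat_lit 21) (.e (nat_lit 336027) (nat_lit 3) (.e (nat_lit 98373) (nat_lit 29) (.e (nat_lit 450588) (nat_lit 10) (.e (nat_lit 573475) (nat_lit 12) (.e (nat_lit 57574) (nat_lit 55) (.e (nat_lit 778361) (nat_lit 9) .nil))))))) (.g (nat_lit 6) .nil .nil))) 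
(.lf (nat_lit 4814) (.g (nat_lit 2402) (.e (nat_lit 273) (nat_lit 21) (.e (nat_lit 336021) (nat_lit 3) (.e (nat_lit 98313) (nat_lit 9) (.e (nat_lit 336021) (nat_lit 3) (.e (nat_lit 98317) (nat_lit 9) (.e (nat_lit 336012) (nat_lit 2) (.e (nat_lit 90123) (nat_lit 9) .nil))))))) (.g (nat_lit 4) .nil .nil)))) (.nd (nat_lit 6) 
(.lf (nat_lit 4782) (.g (nat_lit 2028) (.e (nat_lit 272) (nat_lit 21) (.e (nat_lit 336021) (nat_lit 3) (.e (nat_lit 98313) (nat_lit 9) (.e (nat_lit 336004) (nat_lit 2) .nil)))) .nil)) 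
(.lf (nat_lit 4846) (.g (nat_lit 2891) (.e (nat_lit 274) (nat_lit 21) (.e (nat_lit 336027) (nat_lit 3) (.e (nat_lit 98373) (nat_lit 29) (.e (nat_lit 450588) (nat_lit 10) (.e (nat_lit 573475) (nat_lit 12) .nil))))) .nil)))) (.nd (nat_lit 5) (.nd (nat_lit 6) 
(.lf (nat_lit 4766) (.g (nat_lit 2565) (.e (nat_lit 271) (nat_lit 21) (.e (nat_lit 336223) (nat_lit 13) (.e (nat_lit 393234) (nat_lit 17) (.e (nat_lit 7591) (nat_lit 407) (.e (nat_lit 73775) (nat_lit 26) (.e (nat_lit 778362) (nat_lit 9) .nil)))))) (.g (nat_lit 5) .nil .nil))) 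
(.lf (nat_lit 4830) (.g (nat_lit 4166) (.e (nat_lit 273) (nat_lit 21) (.e (nat_lit 336226) (nat_lit 14) (.e (nat_lit 401459) (nat_lit 13) (.e (nat_lit 483372) (nat_lit 21) (.e (nat_lit 319504) (nat_lit 10) .nil))))) .nil))) (.nd (nat_lit 6) 
(.lf (nat_lit 4798) (.g (nat_lit 2553) (.e (nat_lit 272) (nat_lit 21) (.e (nat_lit 336204) (nat_lit 12) (.e (nat_lit 385074) (nat_lit 31) (.e (nat_lit 573491) (nat_lit 15) (.e (nat_lit 81946) (nat_lit 20) .nil))))) .nil)) 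
(.lf (nat_lit 4862) (.g (nat_lit 697) (.e (nat_lit 275) (nat_lit 21) (.e (nat_lit 336012) (nat_lit 2) (.e (nat_lit 90176) (nat_lit 15) .nil))) .nil)))))))) (.nd (nat_lit 1) (.nd (nat_lit 2) (.nd (nat_lit 3) (.nd (nat_lit 4) (.nd (nat_lit 5) (.nd (nat_lit 6) 
(.lf (nat_lit 4737) (.g (nat_lit 3753) (.e (nat_lit 271) (nat_lit 21) (.e (nat_lit 336027) (nat_lit 3) (.e (nat_lit 98372) (nat_lit 29) (.e (nat_lit 450588) (nat_lit 10) (.e (nat_lit 573475) (nat_lit 12) .nil))))) .nil)) 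
(.lf (nat_lit 4801) (.g (nat_lit 1946) (.e (nat_lit 272) (nat_lit 21) (.e (nat_lit 336213) (nat_lit 13) (.e (nat_lit 393225) (nat_lit 9) (.e (nat_lit 335995) (nat_lit 1) (.e (nat_lit 57848) (nat_lit 252) (.e (nat_lit 57375) (nat_lit 2) (.e (nat_lit 90130) (nat_lit 9) .nil))))))) (.g (nat_lit 4) .nil .nil)))) (.nd (nat_lit 6) 
(.lf (nat_lit 4769) (.g (nat_lit 2615) (.e (nat_lit 271) (nat_lit 21) (.e (nat_lit 336223) (nat_lit 13) (.e (nat_lit 393234) (nat_lit 17) (.e (nat_lit 7593) (nat_lit 407) (.e (nat_lit 73775) (nat_lit 26) (.e (nat_lit 778361) (nat_lit 9) .nil)))))) (.g (nat_lit 5) .nil .nil))) 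
(.lf (nat_lit 4833) (.g (nat_lit 3073) (.e (nat_lit 274) (nat_lit 21) (.e (nat_lit 336011) (nat_lit 2) (.e (nat_lit 90170) (nat_lit 13) (.e (nat_lit 172113) (nat_lit 10) (.e (nat_lit 434245) (nat_lit 28) .nil))))) .nil)))) (.nd (nat_lit 5) (.nd (nat_lit 6) 
(.lf (nat_lit 4753) (.g (nat_lit 1155) (.e (nat_lit 271) (nat_lit 21) (.e (nat_lit 336076) (nat_lit 9) (.e (nat_lit 336454) (nat_lit 34) (.e (nat_lit 483365) (nat_lit 18) .nil)))) .nil)) 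
(.lf (nat_lit 4817) (.g (nat_lit 2501) (.e (nat_lit 273) (nat_lit 21) (.e (nat_lit 336027) (nat_lit 3) (.e (nat_lit 98372) (nat_lit 29) (.e (nat_lit 450586) (nat_lit 10) (.e (nat_lit 573475) (nat_lit 12) .nil))))) .nil))) (.nd (nat_lit 6) 
(.lf (nat_lit 4785) (.g (nat_lit 2487) (.e (nat_lit 272) (nat_lit 21) (.e (nat_lit 336027) (nat_lit 3) (.e (nat_lit 98372) (nat_lit 29) (.e (nat_lit 450579) (nat_lit 5) (.e (nat_lit 532504) (nat_lit 1) .nil))))) .nil)) 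
(.lf (nat_lit 4849) (.g (nat_lit 1444) (.e (nat_lit 274) (nat_lit 21) (.e (nat_lit 336223) (nat_lit 13) (.e (nat_lit 393234) (nat_lit 17) (.e (nat_lit 7593) (nat_lit 407) .nil)))) .nil))))) (.nd (nat_lit 4) (.nd (nat_lit 5) (.nd (nat_lit 6) 
(.lf (nat_lit 4745) (.g (nat_lit 3655) (.e (nat_lit 271) (nat_lit 21) (.e (nat_lit 336027) (nat_lit 3) (.e (nat_lit 98373) (nat_lit 29) (.e (nat_lit 450587) (nat_lit 10) (.e (nat_lit 573477) (nat_lit 12) (.e (nat_lit 57574) (nat_lit 55) (.e (nat_lit 778360) (nat_lit 9) .nil))))))) (.g (nat_lit 4) .nil .nil))) 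
(.lf (nat_lit 4809) (.g (nat_lit 583) (.e (nat_lit 272) (nat_lit 21) (.e (nat_lit 336229) (nat_lit 14) (.e (nat_lit 401428) (nat_lit 3) .nil))) .nil))) (.nd (nat_lit 6) 
(.lf (nat_lit 4777) (.g (nat_lit 3522) (.e (nat_lit 272) (nat_lit 21) (.e (nat_lit 336011) (nat_lit 2) (.e (nat_lit 90170) (nat_lit 13) (.e (nat_lit 172113) (nat_lit 10) (.e (nat_lit 434247) (nat_lit 28) .nil))))) .nil)) 
(.lf (nat_lit 4841) (.g (nat_lit 2099) (.e (nat_lit 274) (nat_lit 21) (.e (nat_lit 336027) (nat_lit 3) (.e (nat_lit 98372) (nat_lit 29) (.e (nat_lit 450586) (nat_lit 10) (.e (nat_lit 573475) (nat_lit 12) (.e (nat_lit 57574) (nat_lit 55) (.e (nat_lit 786176) (nat_lit 9) .nil))))))) (.g (nat_lit 4) .nil .nil))))) (.nd (nat_lit 5) (.nd (nat_lit 6) 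
(.lf (nat_lit 4761) (.g (nat_lit 2262) (.e (nat_lit 271) (nat_lit 21) (.e (nat_lit 336220) (nat_lit 13) (.e (nat_lit 393300) (nat_lit 27) (.e (nat_lit 491556) (nat_lit 9) (.e (nat_lit 336051) (nat_lit 6) .nil))))) .nil)) 
(.lf (nat_lit 4825) (.g (nat_lit 2588) (.e (nat_lit 273) (nat_lit 21) (.e (nat_lit 336204) (nat_lit 12) (.e (nat_lit 385074) (nat_lit 31) (.e (nat_lit 573491) (nat_lit 15) (.e (nat_lit 81946) (nat_lit 20) .nil))))) .nil))) (.nd (nat_lit 6) 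
(.lf (nat_lit 4793) (.g (nat_lit 1523) (.e (nat_lit 272) (nat_lit 21) (.e (nat_lit 336165) (nat_lit 10) (.e (nat_lit 344126) (nat_lit 25) (.e (nat_lit 548874) (nat_lit 5) (.e (nat_lit 1598) (nat_lit 111) .nil))))) .nil)) 
(.lf (nat_lit 4857) (.g (nat_lit 1362) (.e (nat_lit 274) (nat_lit 21) (.e (nat_lit 336408) (nat_lit 27) (.e (nat_lit 426188) (nat_lit 9) (.e (nat_lit 426432) (nat_lit 17) (.e (nat_lit 90203) (nat_lit 21) (.e (nat_lit 164288) (nat_lit 224) (.e (nat_lit 164354) (nat_lit 246) .nil))))))) (.g (nat_lit 5) .nil .nil))))))) (.nd (nat_lit 3) (.nd (nat_lit 4) (.nd (nat_lit 5) (.nd (nat_lit 6) 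
(.lf (nat_lit 4741) (.g (nat_lit 3477) (.e (nat_lit 271) (nat_lit 21) (.e (nat_lit 336027) (nat_lit 3) (.e (nat_lit 98373) (nat_lit 29) (.e (nat_lit 450587) (nat_lit 10) (.e (nat_lit 573475) (nat_lit 12) (.e (nat_lit 57574) (nat_lit 55) (.e (nat_lit 778360) (nat_lit 9) .nil))))))) (.g (nat_lit 4) .nil .nil))) 
(.lf (nat_lit 4805) (.g (nat_lit 2160) (.e (nat_lit 272) (nat_lit 21) (.e (nat_lit 336223) (nat_lit 13) (.e (nat_lit 393234) (nat_lit 17) (.e (nat_lit 7593) (nat_lit 407) (.e (nat_lit 73775) (nat_lit 26) .nil))))) .nil))) (.nd (nat_lit 6) 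
(.lf (nat_lit 4773) (.g (nat_lit 2590) (.e (nat_lit 271) (nat_lit 21) (.e (nat_lit 336223) (nat_lit 13) (.e (nat_lit 393301) (nat_lit 27) (.e (nat_lit 491560) (nat_lit 10) (.e (nat_lit 344179) (nat_lit 44) .nil))))) .nil)) 
(.lf (nat_lit 4837) (.g (nat_lit 643) (.e (nat_lit 274) (nat_lit 21) (.e (nat_lit 336012) (nat_lit 2) (.e (nat_lit 90176) (nat_lit 15) .nil))) .nil)))) (.nd (nat_lit 5) (.nd (nat_lit 6) 
(.lf (nat_lit 4757) (.g (nat_lit 4082) (.e (nat_lit 271) (nat_lit 21) (.e (nat_lit 336204) (nat_lit 12) (.e (nat_lit 385074) (nat_lit 31) (.e (nat_lit 573485) (nat_lit 13) (.e (nat_lit 65619) (nat_lit 10) (.e (nat_lit 344129) (nat_lit 26) (.e (nat_lit 557066) (nat_lit 9) .nil))))))) (.g (nat_lit 5) .nil .nil))) 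
(.lf (nat_lit 4821) (.g (nat_lit 3154) (.e (nat_lit 273) (nat_lit 21) (.e (nat_lit 336027) (nat_lit 3) (.e (nat_lit 98373) (nat_lit 29) (.e (nat_lit 450587) (nat_lit 10) (.e (nat_lit 573478) (nat_lit 12) .nil))))) .nil))) (.nd (nat_lit 6) 
(.lf (nat_lit 4789) (.g (nat_lit 3010) (.e (nat_lit 272) (nat_lit 21) (.e (nat_lit 336027) (nat_lit 3) (.e (nat_lit 98373) (nat_lit 29) (.e (nat_lit 450587) (nat_lit 10) (.e (nat_lit 573477) (nat_lit 12) .nil))))) .nil)) 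
(.lf (nat_lit 4853) (.g (nat_lit 3006) (.e (nat_lit 274) (nat_lit 21) (.e (nat_lit 336223) (nat_lit 13) (.e (nat_lit 393301) (nat_lit 27) (.e (nat_lit 491560) (nat_lit 10) (.e (nat_lit 344178) (nat_lit 44) (.e (nat_lit 778340) (nat_lit 9) .nil)))))) (.g (nat_lit 6) .nil .nil)))))) (.nd (nat_lit 4) (.nd (nat_lit 5) (.nd (nat_lit 6) 
(.lf (nat_lit 4749) (.g (nat_lit 4588) (.e (nat_lit 271) (nat_lit 21) (.e (nat_lit 336027) (nat_lit 3) (.e (nat_lit 98373) (nat_lit 29) (.e (nat_lit 450588) (nat_lit 10) (.e (nat_lit 573475) (nat_lit 12) (.e (nat_lit 57574) (nat_lit 55) (.e (nat_lit 778359) (nat_lit 9) .nil))))))) (.g (nat_lit 5) .nil .nil))) 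
(.lf (nat_lit 4813) (.g (nat_lit 1098) (.e (nat_lit 273) (nat_lit 21) (.e (nat_lit 336021) (nat_lit 3) (.e (nat_lit 98313) (nat_lit 9) .nil))) .nil))) (.nd (nat_lit 6) 
(.lf (nat_lit 4781) (.g (nat_lit 1128) (.e (nat_lit 272) (nat_lit 21) (.e (nat_lit 336021) (nat_lit 3) (.e (nat_lit 98313) (nat_lit 9) .nil))) .nil)) 
(.lf (nat_lit 4845) (.g (nat_lit 2624) (.e (nat_lit 274) (nat_lit 21) (.e (nat_lit 336027) (nat_lit 3) (.e (nat_lit 98373) (nat_lit 29) (.e (nat_lit 450587) (nat_lit 10) (.e (nat_lit 573478) (nat_lit 12) .nil))))) .nil)))) (.nd (nat_lit 5) (.nd (nat_lit 6) 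
(.lf (nat_lit 4765) (.g (nat_lit 2631) (.e (nat_lit 271) (nat_lit 21) (.e (nat_lit 336223) (nat_lit 13) (.e (nat_lit 393234) (nat_lit 17) (.e (nat_lit 7591) (nat_lit 407) (.e (nat_lit 73775) (nat_lit 26) (.e (nat_lit 778361) (nat_lit 9) .nil)))))) (.g (nat_lit 5) .nil .nil))) 
(.lf (nat_lit 4829) (.g (nat_lit 3044) (.e (nat_lit 273) (nat_lit 21) (.e (nat_lit 336223) (nat_lit 13) (.e (nat_lit 393301) (nat_lit 27) (.e (nat_lit 491560) (nat_lit 10) (.e (nat_lit 344179) (nat_lit 44) .nil))))) .nil))) (.nd (nat_lit 6) 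
(.lf (nat_lit 4797) (.g (nat_lit 3704) (.e (nat_lit 272) (nat_lit 21) (.e (nat_lit 336204) (nat_lit 12) (.e (nat_lit 385074) (nat_lit 31) (.e (nat_lit 573485) (nat_lit 13) (.e (nat_lit 65619) (nat_lit 10) .nil))))) .nil)) 
(.lf (nat_lit 4861) (.g (nat_lit 2444) (.e (nat_lit 275) (nat_lit 21) (.e (nat_lit 336011) (nat_lit 2) (.e (nat_lit 90170) (nat_lit 13) (.e (nat_lit 172113) (nat_lit 10) (.e (nat_lit 434247) (nat_lit 28) .nil))))) .nil))))))) (.nd (nat_lit 2) (.nd (nat_lit 3) (.nd (nat_lit 4) (.nd (nat_lit 5) (.nd (nat_lit 6) 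
(.lf (nat_lit 4739) (.g (nat_lit 3441) (.e (nat_lit 271) (nat_lit 21) (.e (nat_lit 336027) (nat_lit 3) (.e (nat_lit 98373) (nat_lit 29) (.e (nat_lit 450587) (nat_lit 10) (.e (nat_lit 573454) (nat_lit 9) .nil))))) .nil)) 
(.lf (nat_lit 4803) (.g (nat_lit 2152) (.e (nat_lit 272) (nat_lit 21) (.e (nat_lit 336223) (nat_lit 13) (.e (nat_lit 393234) (nat_lit 17) (.e (nat_lit 7591) (nat_lit 407) (.e (nat_lit 73775) (nat_lit 26) .nil))))) .nil))) (.nd (nat_lit 6) 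
(.lf (nat_lit 4771) (.g (nat_lit 1178) (.e (nat_lit 271) (nat_lit 21) (.e (nat_lit 336223) (nat_lit 13) (.e (nat_lit 393300) (nat_lit 27) .nil))) .nil)) 
(.lf (nat_lit 4835) (.g (nat_lit 3022) (.e (nat_lit 274) (nat_lit 21) (.e (nat_lit 336011) (nat_lit 2) (.e (nat_lit 90170) (nat_lit 13) (.e (nat_lit 172113) (nat_lit 10) (.e (nat_lit 434248) (nat_lit 28) .nil))))) .nil)))) (.nd (nat_lit 5) (.nd (nat_lit 6) 
(.lf (nat_lit 4755) (.g (nat_lit 3740) (.e (nat_lit 271) (nat_lit 21) (.e (nat_lit 336204) (nat_lit 12) (.e (nat_lit 385074) (nat_lit 31) (.e (nat_lit 573482) (nat_lit 13) (.e (nat_lit 65619) (nat_lit 10) .nil))))) .nil)) 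
(.lf (nat_lit 4819) (.g (nat_lit 2479) (.e (nat_lit 273) (nat_lit 21) (.e (nat_lit 336027) (nat_lit 3) (.e (nat_lit 98372) (nat_lit 29) (.e (nat_lit 450586) (nat_lit 10) (.e (nat_lit 573478) (nat_lit 12) .nil))))) .nil))) (.nd (nat_lit 6) 
(.lf (nat_lit 4787) (.g (nat_lit 2533) (.e (nat_lit 272) (nat_lit 21) (.e (nat_lit 336027) (nat_lit 3) (.e (nat_lit 98372) (nat_lit 29) (.e (nat_lit 450586) (nat_lit 10) (.e (nat_lit 573477) (nat_lit 12) .nil))))) .nil)) 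
(.lf (nat_lit 4851) (.g (nat_lit 2018) (.e (nat_lit 274) (nat_lit 21) (.e (nat_lit 336223) (nat_lit 13) (.e (nat_lit 393301) (nat_lit 27) (.e (nat_lit 491558) (nat_lit 10) .nil)))) .nil))))) (.nd (nat_lit 4) (.nd (nat_lit 5) (.nd (nat_lit 6) 
(.lf (nat_lit 4747) (.g (nat_lit 3895) (.e (nat_lit 271) (nat_lit 21) (.e (nat_lit 336027) (nat_lit 3) (.e (nat_lit 98373) (nat_lit 29) (.e (nat_lit 450587) (nat_lit 10) (.e (nat_lit 573478) (nat_lit 12) (.e (nat_lit 57574) (nat_lit 55) (.e (nat_lit 778359) (nat_lit 9) .nil))))))) (.g (nat_lit 5) .nil .nil))) 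
(.lf (nat_lit 4811) (.g (nat_lit 3522) (.e (nat_lit 273) (nat_lit 21) (.e (nat_lit 336011) (nat_lit 2) (.e (nat_lit 90170) (nat_lit 13) (.e (nat_lit 172113) (nat_lit 10) (.e (nat_lit 434247) (nat_lit 28) .nil))))) .nil))) (.nd (nat_lit 6) 
(.lf (nat_lit 4779) (.g (nat_lit 3505) (.e (nat_lit 272) (nat_lit 21) (.e (nat_lit 336011) (nat_lit 2) (.e (nat_lit 90170) (nat_lit 13) (.e (nat_lit 172113) (nat_lit 10) (.e (nat_lit 434248) (nat_lit 28) (.e (nat_lit 573475) (nat_lit 12) (.e (nat_lit 57574) (nat_lit 55) (.e (nat_lit 778359) (nat_lit 9) .nil)))))))) (.g (nat_lit 4) .nil .nil))) 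
(.lf (nat_lit 4843) (.g (nat_lit 2055) (.e (nat_lit 274) (nat_lit 21) (.e (nat_lit 336027) (nat_lit 3) (.e (nat_lit 98372) (nat_lit 29) (.e (nat_lit 450586) (nat_lit 10) (.e (nat_lit 573478) (nat_lit 12) .nil))))) .nil)))) (.nd (nat_lit 5) (.nd (nat_lit 6) 
(.lf (nat_lit 4763) (.g (nat_lit 2326) (.e (nat_lit 271) (nat_lit 21) (.e (nat_lit 336223) (nat_lit 13) (.e (nat_lit 393234) (nat_lit 17) (.e (nat_lit 7587) (nat_lit 406) (.e (nat_lit 65580) (nat_lit 6) .nil))))) .nil)) 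
(.lf (nat_lit 4827) (.g (nat_lit 1796) (.e (nat_lit 273) (nat_lit 21) (.e (nat_lit 336223) (nat_lit 13) (.e (nat_lit 393234) (nat_lit 17) (.e (nat_lit 7593) (nat_lit 407) .nil)))) .nil))) (.nd (nat_lit 6) 
(.lf (nat_lit 4795) (.g (nat_lit 3062) (.e (nat_lit 272) (nat_lit 21) (.e (nat_lit 336194) (nat_lit 12) (.e (nat_lit 385074) (nat_lit 31) (.e (nat_lit 573484) (nat_lit 13) (.e (nat_lit 65617) (nat_lit 10) .nil))))) .nil)) 
(.lf (nat_lit 4859) (.g (nat_lit 2391) (.e (nat_lit 275) (nat_lit 21) (.e (nat_lit 336009) (nat_lit 2) (.e (nat_lit 90170) (nat_lit 13) (.e (nat_lit 172113) (nat_lit 10) (.e (nat_lit 434247) (nat_lit 28) (.e (nat_lit 573478) (nat_lit 12) (.e (nat_lit 57574) (nat_lit 55) (.e (nat_lit 778362) (nat_lit 9) .nil)))))))) (.g (nat_lit 4) .nil .nil))))))) 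
(.nd (nat_lit 3) (.nd (nat_lit 4) (.nd (nat_lit 5) (.nd (nat_lit 6) 
(.lf (nat_lit 4743) (.g (nat_lit 3239) (.e (nat_lit 271) (nat_lit 21) (.e (nat_lit 336027) (nat_lit 3) (.e (nat_lit 98373) (nat_lit 29) (.e (nat_lit 450587) (nat_lit 10) (.e (nat_lit 573477) (nat_lit 12) .nil))))) .nil)) 
(.lf (nat_lit 4807) (.g (nat_lit 2815) (.e (nat_lit 272) (nat_lit 21) (.e (nat_lit 336223) (nat_lit 13) (.e (nat_lit 393301) (nat_lit 27) (.e (nat_lit 491560) (nat_lit 10) (.e (nat_lit 344179) (nat_lit 44) .nil))))) .nil))) (.nd (nat_lit 6) 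
(.lf (nat_lit 4775) (.g (nat_lit 2557) (.e (nat_lit 272) (nat_lit 21) (.e (nat_lit 336011) (nat_lit 2) (.e (nat_lit 90170) (nat_lit 13) (.e (nat_lit 172113) (nat_lit 10) .nil)))) .nil)) 
(.lf (nat_lit 4839) (.g (nat_lit 2077) (.e (nat_lit 274) (nat_lit 21) (.e (nat_lit 336027) (nat_lit 3) (.e (nat_lit 98372) (nat_lit 29) (.e (nat_lit 450586) (nat_lit 10) (.e (nat_lit 573475) (nat_lit 12) .nil))))) .nil)))) (.nd (nat_lit 5) (.nd (nat_lit 6) 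
(.lf (nat_lit 4759) (.g (nat_lit 2839) (.e (nat_lit 271) (nat_lit 21) (.e (nat_lit 336213) (nat_lit 13) (.e (nat_lit 393300) (nat_lit 27) (.e (nat_lit 491556) (nat_lit 9) (.e (nat_lit 336051) (nat_lit 6) .nil))))) .nil)) 
(.lf (nat_lit 4823) (.g (nat_lit 3813) (.e (nat_lit 273) (nat_lit 21) (.e (nat_lit 336204) (nat_lit 12) (.e (nat_lit 385074) (nat_lit 31) (.e (nat_lit 573482) (nat_lit 13) (.e (nat_lit 65619) (nat_lit 10) .nil))))) .nil))) (.nd (nat_lit 6) 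
(.lf (nat_lit 4791) (.g (nat_lit 3197) (.e (nat_lit 272) (nat_lit 21) (.e (nat_lit 336027) (nat_lit 3) (.e (nat_lit 98373) (nat_lit 29) (.e (nat_lit 450588) (nat_lit 10) (.e (nat_lit 573475) (nat_lit 12) .nil))))) .nil)) 
(.lf (nat_lit 4855) (.g (nat_lit 1232) (.e (nat_lit 274) (nat_lit 21) (.e (nat_lit 336408) (nat_lit 27) (.e (nat_lit 426188) (nat_lit 9) (.e (nat_lit 426432) (nat_lit 17) (.e (nat_lit 90203) (nat_lit 21) .nil))))) .nil))))) (.nd (nat_lit 4) (.nd (nat_lit 5) (.nd (nat_lit 6) 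
(.lf (nat_lit 4751) (.g (nat_lit 555) (.e (nat_lit 271) (nat_lit 21) (.e (nat_lit 336076) (nat_lit 9) (.e (nat_lit 336438) (nat_lit 31) .nil))) .nil)) 
(.lf (nat_lit 4815) (.g (nat_lit 2494) (.e (nat_lit 273) (nat_lit 21) (.e (nat_lit 336021) (nat_lit 3) (.e (nat_lit 98313) (nat_lit 9) (.e (nat_lit 336027) (nat_lit 3) (.e (nat_lit 98317) (nat_lit 9) .nil))))) .nil))) (.nd (nat_lit 6) 
(.lf (nat_lit 4783) (.g (nat_lit 1691) (.e (nat_lit 272) (nat_lit 21) (.e (nat_lit 336027) (nat_lit 3) (.e (nat_lit 98372) (nat_lit 29) (.e (nat_lit 450579) (nat_lit 5) .nil)))) .nil)) 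
(.lf (nat_lit 4847) (.g (nat_lit 1511) (.e (nat_lit 274) (nat_lit 21) (.e (nat_lit 336223) (nat_lit 13) (.e (nat_lit 393234) (nat_lit 17) (.e (nat_lit 7591) (nat_lit 407) .nil)))) .nil)))) (.nd (nat_lit 5) (.nd (nat_lit 6) 
(.lf (nat_lit 4767) (.g (nat_lit 2463) (.e (nat_lit 271) (nat_lit 21) (.e (nat_lit 336223) (nat_lit 13) (.e (nat_lit 393234) (nat_lit 17) (.e (nat_lit 7591) (nat_lit 407) (.e (nat_lit 73776) (nat_lit 26) (.e (nat_lit 778362) (nat_lit 9) .nil)))))) (.g (nat_lit 4) .nil .nil))) 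
(.lf (nat_lit 4831) (.g (nat_lit 1880) (.e (nat_lit 274) (nat_lit 21) (.e (nat_lit 336011) (nat_lit 2) (.e (nat_lit 90170) (nat_lit 13) (.e (nat_lit 172106) (nat_lit 10) (.e (nat_lit 434244) (nat_lit 28) .nil))))) .nil))) (.nd (nat_lit 6) 
(.lf (nat_lit 4799) (.g (nat_lit 2439) (.e (nat_lit 272) (nat_lit 21) (.e (nat_lit 336213) (nat_lit 13) (.e (nat_lit 393225) (nat_lit 9) (.e (nat_lit 335995) (nat_lit 1) (.e (nat_lit 57848) (nat_lit 252) (.e (nat_lit 57372) (nat_lit 2) (.e (nat_lit 90130) (nat_lit 9) .nil))))))) (.g (nat_lit 5) .nil .nil))) 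
(.lf (nat_lit 4863) (.g (nat_lit 1539) (.e (nat_lit 275) (nat_lit 21) (.e (nat_lit 336012) (nat_lit 2) (.e (nat_lit 90176) (nat_lit 15) (.e (nat_lit 196352) (nat_lit 0) .nil)))) .nil)))))))))

noncomputable def tv064 : DT := (.nd (nat_lit 0) (.nd (nat_lit 1) (.nd (nat_lit 2) (.nd (nat_lit 3) (.nd (nat_lit 4) (.nd (nat_lit 5) 
(.lf (nat_lit 4864) (.g (nat_lit 1539) (.e (nat_lit 275) (nat_lit 21) (.e (nat_lit 336012) (nat_lit 2) (.e (nat_lit 90176) (nat_lit 15) (.e (nat_lit 196352) (nat_lit 2) .nil)))) .nil)) 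
(.lf (nat_lit 4896) (.g (nat_lit 2317) (.e (nat_lit 275) (nat_lit 21) (.e (nat_lit 336223) (nat_lit 13) (.e (nat_lit 393234) (nat_lit 17) (.e (nat_lit 7591) (nat_lit 407) (.e (nat_lit 73775) (nat_lit 26) (.e (nat_lit 778360) (nat_lit 9) .nil)))))) (.g (nat_lit 5) .nil .nil)))) (.nd (nat_lit 5) 
(.lf (nat_lit 4880) (.g (nat_lit 3305) (.e (nat_lit 275) (nat_lit 21) (.e (nat_lit 336027) (nat_lit 3) (.e (nat_lit 98372) (nat_lit 29) (.e (nat_lit 450588) (nat_lit 10) (.e (nat_lit 573475) (nat_lit 12) .nil))))) .nil)) 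
(.lf (nat_lit 4912) (.g (nat_lit 3460) (.e (nat_lit 276) (nat_lit 21) (.e (nat_lit 336010) (nat_lit 2) (.e (nat_lit 90170) (nat_lit 13) (.e (nat_lit 172113) (nat_lit 10) (.e (nat_lit 434248) (nat_lit 28) (.e (nat_lit 573475) (nat_lit 12) (.e (nat_lit 57574) (nat_lit 55) (.e (nat_lit 778361) (nat_lit 9) .nil)))))))) (.g (nat_lit 6) .nil .nil))))) (.nd (nat_lit 4) (.nd (nat_lit 5) 
(.lf (nat_lit 4872) (.g (nat_lit 2389) (.e (nat_lit 275) (nat_lit 21) (.e (nat_lit 336021) (nat_lit 3) (.e (nat_lit 98313) (nat_lit 9) (.e (nat_lit 336021) (nat_lit 3) (.e (nat_lit 98317) (nat_lit 9) (.e (nat_lit 336012) (nat_lit 2) (.e (nat_lit 90123) (nat_lit 9) .nil))))))) (.g (nat_lit 4) .nil .nil))) 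
(.lf (nat_lit 4904) (.g (nat_lit 3213) (.e (nat_lit 275) (nat_lit 21) (.e (nat_lit 336223) (nat_lit 13) (.e (nat_lit 393301) (nat_lit 27) (.e (nat_lit 491560) (nat_lit 10) (.e (nat_lit 344179) (nat_lit 44) (.e (nat_lit 778360) (nat_lit 9) .nil)))))) (.g (nat_lit 6) .nil .nil)))) (.nd (nat_lit 5) 
(.lf (nat_lit 4888) (.g (nat_lit 5101) (.e (nat_lit 275) (nat_lit 21) (.e (nat_lit 336027) (nat_lit 3) (.e (nat_lit 98373) (nat_lit 29) (.e (nat_lit 450588) (nat_lit 10) (.e (nat_lit 573475) (nat_lit 12) (.e (nat_lit 57574) (nat_lit 55) (.e (nat_lit 778361) (nat_lit 9) .nil))))))) (.g (nat_lit 7) .nil .nil))) 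
(.lf (nat_lit 4920) (.g (nat_lit 2530) (.e (nat_lit 276) (nat_lit 21) (.e (nat_lit 336021) (nat_lit 3) (.e (nat_lit 98313) (nat_lit 9) (.e (nat_lit 336004) (nat_lit 2) (.e (nat_lit 90158) (nat_lit 11) (.e (nat_lit 24604) (nat_lit 2) (.e (nat_lit 90123) (nat_lit 9) .nil))))))) (.g (nat_lit 4) .nil .nil)))))) (.nd (nat_lit 3) (.nd (nat_lit 4) (.nd (nat_lit 5) 
(.lf (nat_lit 4868) (.g (nat_lit 2410) (.e (nat_lit 275) (nat_lit 21) (.e (nat_lit 336021) (nat_lit 3) (.e (nat_lit 98313) (nat_lit 9) (.e (nat_lit 336004) (nat_lit 2) (.e (nat_lit 90158) (nat_lit 11) .nil))))) .nil)) 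
(.lf (nat_lit 4900) (.g (nat_lit 2255) (.e (nat_lit 275) (nat_lit 21) (.e (nat_lit 336223) (nat_lit 13) (.e (nat_lit 393234) (nat_lit 17) (.e (nat_lit 7593) (nat_lit 407) (.e (nat_lit 73775) (nat_lit 26) (.e (nat_lit 778360) (nat_lit 9) .nil)))))) (.g (nat_lit 6) .nil .nil)))) (.nd (nat_lit 5) 
(.lf (nat_lit 4884) (.g (nat_lit 3743) (.e (nat_lit 275) (nat_lit 21) (.e (nat_lit 336027) (nat_lit 3) (.e (nat_lit 98373) (nat_lit 29) (.e (nat_lit 450587) (nat_lit 10) (.e (nat_lit 573475) (nat_lit 12) (.e (nat_lit 57574) (nat_lit 55) (.e (nat_lit 778359) (nat_lit 9) .nil))))))) (.g (nat_lit 5) .nil .nil))) 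
(.lf (nat_lit 4916) (.g (nat_lit 4613) (.e (nat_lit 276) (nat_lit 21) (.e (nat_lit 336011) (nat_lit 2) (.e (nat_lit 90170) (nat_lit 13) (.e (nat_lit 172113) (nat_lit 10) (.e (nat_lit 434247) (nat_lit 28) (.e (nat_lit 573478) (nat_lit 12) (.e (nat_lit 57574) (nat_lit 55) (.e (nat_lit 778361) (nat_lit 9) .nil)))))))) (.g (nat_lit 6) .nil .nil))))) (.nd (nat_lit 4) (.nd (nat_lit 5) 
(.lf (nat_lit 4876) (.g (nat_lit 1930) (.e (nat_lit 275) (nat_lit 21) (.e (nat_lit 336027) (nat_lit 3) (.e (nat_lit 98372) (nat_lit 29) (.e (nat_lit 450586) (nat_lit 10) (.e (nat_lit 573477) (nat_lit 12) .nil))))) .nil)) 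
(.lf (nat_lit 4908) (.g (nat_lit 4117) (.e (nat_lit 276) (nat_lit 21) (.e (nat_lit 336009) (nat_lit 2) (.e (nat_lit 90170) (nat_lit 13) (.e (nat_lit 172113) (nat_lit 10) (.e (nat_lit 434247) (nat_lit 28) (.e (nat_lit 573477) (nat_lit 12) (.e (nat_lit 57574) (nat_lit 55) (.e (nat_lit 778361) (nat_lit 9) .nil)))))))) (.g (nat_lit 7) .nil .nil)))) (.nd (nat_lit 5) 
(.lf (nat_lit 4892) (.g (nat_lit 1912) (.e (nat_lit 275) (nat_lit 21) (.e (nat_lit 336213) (nat_lit 13) (.e (nat_lit 393225) (nat_lit 9) (.e (nat_lit 335995) (nat_lit 1) .nil)))) .nil)) 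
(.lf (nat_lit 4924) (.g (nat_lit 2654) (.e (nat_lit 276) (nat_lit 21) (.e (nat_lit 336021) (nat_lit 3) (.e (nat_lit 98313) (nat_lit 9) (.e (nat_lit 336021) (nat_lit 3) (.e (nat_lit 98313) (nat_lit 9) .nil))))) .nil)))))) (.nd (nat_lit 2) (.nd (nat_lit 3) (.nd (nat_lit 4) (.nd (nat_lit 5) 
(.lf (nat_lit 4866) (.g (nat_lit 2277) (.e (nat_lit 275) (nat_lit 21) (.e (nat_lit 336012) (nat_lit 2) (.e (nat_lit 90176) (nat_lit 15) (.e (nat_lit 188450) (nat_lit 23) (.e (nat_lit 204817) (nat_lit 17) .nil))))) .nil)) 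
(.lf (nat_lit 4898) (.g (nat_lit 2074) (.e (nat_lit 275) (nat_lit 21) (.e (nat_lit 336223) (nat_lit 13) (.e (nat_lit 393234) (nat_lit 17) (.e (nat_lit 7591) (nat_lit 407) (.e (nat_lit 73776) (nat_lit 26) .nil))))) .nil))) (.nd (nat_lit 5) 
(.lf (nat_lit 4882) (.g (nat_lit 2364) (.e (nat_lit 275) (nat_lit 21) (.e (nat_lit 336027) (nat_lit 3) (.e (nat_lit 98373) (nat_lit 29) (.e (nat_lit 450586) (nat_lit 10) (.e (nat_lit 573475) (nat_lit 12) .nil))))) .nil)) 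
(.lf (nat_lit 4914) (.g (nat_lit 4478) (.e (nat_lit 276) (nat_lit 21) (.e (nat_lit 336011) (nat_lit 2) (.e (nat_lit 90170) (nat_lit 13) (.e (nat_lit 172113) (nat_lit 10) (.e (nat_lit 434247) (nat_lit 28) (.e (nat_lit 573477) (nat_lit 12) (.e (nat_lit 57574) (nat_lit 55) (.e (nat_lit 778360) (nat_lit 9) .nil)))))))) (.g (nat_lit 5) .nil .nil))))) (.nd (nat_lit 4) (.nd (nat_lit 5) 
(.lf (nat_lit 4874) (.g (nat_lit 1898) (.e (nat_lit 275) (nat_lit 21) (.e (nat_lit 336027) (nat_lit 3) (.e (nat_lit 98372) (nat_lit 29) (.e (nat_lit 450586) (nat_lit 10) (.e (nat_lit 573475) (nat_lit 12) .nil))))) .nil)) 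
(.lf (nat_lit 4906) (.g (nat_lit 4166) (.e (nat_lit 275) (nat_lit 21) (.e (nat_lit 336226) (nat_lit 14) (.e (nat_lit 401459) (nat_lit 13) (.e (nat_lit 483372) (nat_lit 21) (.e (nat_lit 319504) (nat_lit 10) .nil))))) .nil))) (.nd (nat_lit 5) 
(.lf (nat_lit 4890) (.g (nat_lit 3018) (.e (nat_lit 275) (nat_lit 21) (.e (nat_lit 336204) (nat_lit 12) (.e (nat_lit 385074) (nat_lit 31) (.e (nat_lit 573485) (nat_lit 13) .nil)))) .nil)) 
(.lf (nat_lit 4922) (.g (nat_lit 2537) (.e (nat_lit 276) (nat_lit 21) (.e (nat_lit 336021) (nat_lit 3) (.e (nat_lit 98313) (nat_lit 9) (.e (nat_lit 336012) (nat_lit 2) (.e (nat_lit 90158) (nat_lit 11) .nil))))) .nil))))) (.nd (nat_lit 3) (.nd (nat_lit 4) (.nd (nat_lit 5) 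
(.lf (nat_lit 4870) (.g (nat_lit 2524) (.e (nat_lit 275) (nat_lit 21) (.e (nat_lit 336021) (nat_lit 3) (.e (nat_lit 98313) (nat_lit 9) (.e (nat_lit 336012) (nat_lit 2) (.e (nat_lit 90158) (nat_lit 11) .nil))))) .nil)) 
(.lf (nat_lit 4902) (.g (nat_lit 3044) (.e (nat_lit 275) (nat_lit 21) (.e (nat_lit 336223) (nat_lit 13) (.e (nat_lit 393234) (nat_lit 17) (.e (nat_lit 7593) (nat_lit 407) (.e (nat_lit 73775) (nat_lit 26) (.e (nat_lit 778362) (nat_lit 9) .nil)))))) (.g (nat_lit 6) .nil .nil)))) (.nd (nat_lit 5) 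
(.lf (nat_lit 4886) (.g (nat_lit 2549) (.e (nat_lit 275) (nat_lit 21) (.e (nat_lit 336027) (nat_lit 3) (.e (nat_lit 98373) (nat_lit 29) (.e (nat_lit 450587) (nat_lit 10) (.e (nat_lit 573477) (nat_lit 12) .nil))))) .nil)) 
(.lf (nat_lit 4918) (.g (nat_lit 2207) (.e (nat_lit 276) (nat_lit 21) (.e (nat_lit 336012) (nat_lit 2) (.e (nat_lit 90170) (nat_lit 13) (.e (nat_lit 172113) (nat_lit 10) .nil)))) .nil)))) (.nd (nat_lit 4) (.nd (nat_lit 5) 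
(.lf (nat_lit 4878) (.g (nat_lit 3588) (.e (nat_lit 275) (nat_lit 21) (.e (nat_lit 336027) (nat_lit 3) (.e (nat_lit 98372) (nat_lit 29) (.e (nat_lit 450586) (nat_lit 10) (.e (nat_lit 573477) (nat_lit 12) (.e (nat_lit 57574) (nat_lit 55) (.e (nat_lit 778361) (nat_lit 9) .nil))))))) (.g (nat_lit 7) .nil .nil))) 
(.lf (nat_lit 4910) (.g (nat_lit 3851) (.e (nat_lit 276) (nat_lit 21) (.e (nat_lit 336009) (nat_lit 2) (.e (nat_lit 90170) (nat_lit 13) (.e (nat_lit 172113) (nat_lit 10) (.e (nat_lit 434248) (nat_lit 28) (.e (nat_lit 573475) (nat_lit 12) (.e (nat_lit 57574) (nat_lit 55) (.e (nat_lit 778359) (nat_lit 9) .nil)))))))) (.g (nat_lit 6) .nil .nil)))) (.nd (nat_lit 5) 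
(.lf (nat_lit 4894) (.g (nat_lit 2116) (.e (nat_lit 275) (nat_lit 21) (.e (nat_lit 336223) (nat_lit 13) (.e (nat_lit 393234) (nat_lit 17) (.e (nat_lit 7587) (nat_lit 406) (.e (nat_lit 65580) (nat_lit 6) .nil))))) .nil)) 
(.lf (nat_lit 4926) (.g (nat_lit 2398) (.e (nat_lit 276) (nat_lit 21) (.e (nat_lit 336021) (nat_lit 3) (.e (nat_lit 98313) (nat_lit 9) (.e (nat_lit 336021) (nat_lit 3) (.e (nat_lit 98317) (nat_lit 9) .nil))))) .nil))))))) (.nd (nat_lit 1) (.nd (nat_lit 2) (.nd (nat_lit 3) (.nd (nat_lit 4) (.nd (nat_lit 5) 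
(.lf (nat_lit 4865) (.g (nat_lit 2242) (.e (nat_lit 275) (nat_lit 21) (.e (nat_lit 336012) (nat_lit 2) (.e (nat_lit 90176) (nat_lit 15) (.e (nat_lit 188450) (nat_lit 23) (.e (nat_lit 204815) (nat_lit 17) .nil))))) .nil)) 
(.lf (nat_lit 4897) (.g (nat_lit 3211) (.e (nat_lit 275) (nat_lit 21) (.e (nat_lit 336223) (nat_lit 13) (.e (nat_lit 393234) (nat_lit 17) (.e (nat_lit 7591) (nat_lit 407) (.e (nat_lit 73775) (nat_lit 26) (.e (nat_lit 778362) (nat_lit 9) .nil)))))) (.g (nat_lit 6) .nil .nil)))) (.nd (nat_lit 5) 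
(.lf (nat_lit 4881) (.g (nat_lit 3332) (.e (nat_lit 275) (nat_lit 21) (.e (nat_lit 336027) (nat_lit 3) (.e (nat_lit 98372) (nat_lit 29) (.e (nat_lit 450588) (nat_lit 10) (.e (nat_lit 573475) (nat_lit 12) (.e (nat_lit 57574) (nat_lit 55) (.e (nat_lit 778359) (nat_lit 9) .nil))))))) (.g (nat_lit 4) .nil .nil))) 
(.lf (nat_lit 4913) (.g (nat_lit 3279) (.e (nat_lit 276) (nat_lit 21) (.e (nat_lit 336011) (nat_lit 2) (.e (nat_lit 90170) (nat_lit 13) (.e (nat_lit 172113) (nat_lit 10) (.e (nat_lit 434242) (nat_lit 28) (.e (nat_lit 573474) (nat_lit 12) (.e (nat_lit 57574) (nat_lit 55) (.e (nat_lit 778362) (nat_lit 9) .nil)))))))) (.g (nat_lit 4) .nil .nil))))) (.nd (nat_lit 4) (.nd (nat_lit 5) 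
(.lf (nat_lit 4873) (.g (nat_lit 2492) (.e (nat_lit 275) (nat_lit 21) (.e (nat_lit 336021) (nat_lit 3) (.e (nat_lit 98313) (nat_lit 9) (.e (nat_lit 336027) (nat_lit 3) (.e (nat_lit 98317) (nat_lit 9) .nil))))) .nil)) 
(.lf (nat_lit 4905) (.g (nat_lit 3699) (.e (nat_lit 275) (nat_lit 21) (.e (nat_lit 336223) (nat_lit 13) (.e (nat_lit 393301) (nat_lit 27) (.e (nat_lit 491560) (nat_lit 10) (.e (nat_lit 344179) (nat_lit 44) (.e (nat_lit 778361) (nat_lit 9) .nil)))))) (.g (nat_lit 0) .nil .nil)))) (.nd (nat_lit 5) 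
(.lf (nat_lit 4889) (.g (nat_lit 3582) (.e (nat_lit 275) (nat_lit 21) (.e (nat_lit 336204) (nat_lit 12) (.e (nat_lit 385074) (nat_lit 31) (.e (nat_lit 573482) (nat_lit 13) (.e (nat_lit 65619) (nat_lit 10) .nil))))) .nil)) 
(.lf (nat_lit 4921) (.g (nat_lit 2461) (.e (nat_lit 276) (nat_lit 21) (.e (nat_lit 336021) (nat_lit 3) (.e (nat_lit 98313) (nat_lit 9) (.e (nat_lit 336004) (nat_lit 2) (.e (nat_lit 90158) (nat_lit 11) (.e (nat_lit 24604) (nat_lit 2) (.e (nat_lit 90128) (nat_lit 9) .nil))))))) (.g (nat_lit 4) .nil .nil)))))) (.nd (nat_lit 3) (.nd (nat_lit 4) (.nd (nat_lit 5) 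
(.lf (nat_lit 4869) (.g (nat_lit 2512) (.e (nat_lit 275) (nat_lit 21) (.e (nat_lit 336021) (nat_lit 3) (.e (nat_lit 98313) (nat_lit 9) (.e (nat_lit 336004) (nat_lit 2) (.e (nat_lit 90158) (nat_lit 11) (.e (nat_lit 24604) (nat_lit 2) (.e (nat_lit 90123) (nat_lit 9) .nil))))))) (.g (nat_lit 4) .nil .nil))) 
(.lf (nat_lit 4901) (.g (nat_lit 2716) (.e (nat_lit 275) (nat_lit 21) (.e (nat_lit 336223) (nat_lit 13) (.e (nat_lit 393234) (nat_lit 17) (.e (nat_lit 7593) (nat_lit 407) (.e (nat_lit 73775) (nat_lit 26) (.e (nat_lit 778361) (nat_lit 9) .nil)))))) (.g (nat_lit 6) .nil .nil)))) (.nd (nat_lit 5) 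
(.lf (nat_lit 4885) (.g (nat_lit 3741) (.e (nat_lit 275) (nat_lit 21) (.e (nat_lit 336027) (nat_lit 3) (.e (nat_lit 98373) (nat_lit 29) (.e (nat_lit 450587) (nat_lit 10) (.e (nat_lit 573475) (nat_lit 12) (.e (nat_lit 57574) (nat_lit 55) (.e (nat_lit 778360) (nat_lit 9) .nil))))))) (.g (nat_lit 5) .nil .nil))) 
(.lf (nat_lit 4917) (.g (nat_lit 5230) (.e (nat_lit 276) (nat_lit 21) (.e (nat_lit 336011) (nat_lit 2) (.e (nat_lit 90170) (nat_lit 13) (.e (nat_lit 172113) (nat_lit 10) (.e (nat_lit 434248) (nat_lit 28) (.e (nat_lit 573475) (nat_lit 12) (.e (nat_lit 57574) (nat_lit 55) (.e (nat_lit 778361) (nat_lit 9) .nil)))))))) (.g (nat_lit 6) .nil .nil))))) (.nd (nat_lit 4) (.nd (nat_lit 5) 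
(.lf (nat_lit 4877) (.g (nat_lit 3050) (.e (nat_lit 275) (nat_lit 21) (.e (nat_lit 336027) (nat_lit 3) (.e (nat_lit 98372) (nat_lit 29) (.e (nat_lit 450586) (nat_lit 10) (.e (nat_lit 573477) (nat_lit 12) (.e (nat_lit 57574) (nat_lit 55) (.e (nat_lit 778359) (nat_lit 9) .nil))))))) (.g (nat_lit 7) .nil .nil))) 
(.lf (nat_lit 4909) (.g (nat_lit 3230) (.e (nat_lit 276) (nat_lit 21) (.e (nat_lit 336009) (nat_lit 2) (.e (nat_lit 90170) (nat_lit 13) (.e (nat_lit 172113) (nat_lit 10) (.e (nat_lit 434247) (nat_lit 28) (.e (nat_lit 573478) (nat_lit 12) (.e (nat_lit 57574) (nat_lit 55) (.e (nat_lit 778359) (nat_lit 9) .nil)))))))) (.g (nat_lit 6) .nil .nil)))) (.nd (nat_lit 5) 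
(.lf (nat_lit 4893) (.g (nat_lit 2001) (.e (nat_lit 275) (nat_lit 21) (.e (nat_lit 336213) (nat_lit 13) (.e (nat_lit 393225) (nat_lit 9) (.e (nat_lit 335996) (nat_lit 1) .nil)))) .nil)) 
(.lf (nat_lit 4925) (.g (nat_lit 2762) (.e (nat_lit 276) (nat_lit 21) (.e (nat_lit 336021) (nat_lit 3) (.e (nat_lit 98313) (nat_lit 9) (.e (nat_lit 336021) (nat_lit 3) (.e (nat_lit 98313) (nat_lit 9) (.e (nat_lit 336012) (nat_lit 2) (.e (nat_lit 90123) (nat_lit 9) .nil))))))) (.g (nat_lit 4) .nil .nil))))))) (.nd (nat_lit 2) (.nd (nat_lit 3) (.nd (nat_lit 4) (.nd (nat_lit 5) 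
(.lf (nat_lit 4867) (.g (nat_lit 1095) (.e (nat_lit 275) (nat_lit 21) (.e (nat_lit 336021) (nat_lit 3) (.e (nat_lit 98313) (nat_lit 9) .nil))) .nil)) 
(.lf (nat_lit 4899) (.g (nat_lit 2245) (.e (nat_lit 275) (nat_lit 21) (.e (nat_lit 336223) (nat_lit 13) (.e (nat_lit 393234) (nat_lit 17) (.e (nat_lit 7593) (nat_lit 407) (.e (nat_lit 73775) (nat_lit 26) (.e (nat_lit 778359) (nat_lit 9) .nil)))))) (.g (nat_lit 0) .nil .nil)))) (.nd (nat_lit 5) 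
(.lf (nat_lit 4883) (.g (nat_lit 2600) (.e (nat_lit 275) (nat_lit 21) (.e (nat_lit 336027) (nat_lit 3) (.e (nat_lit 98373) (nat_lit 29) (.e (nat_lit 450586) (nat_lit 10) (.e (nat_lit 573477) (nat_lit 12) .nil))))) .nil)) 
(.lf (nat_lit 4915) (.g (nat_lit 3575) (.e (nat_lit 276) (nat_lit 21) (.e (nat_lit 336011) (nat_lit 2) (.e (nat_lit 90170) (nat_lit 13) (.e (nat_lit 172113) (nat_lit 10) (.e (nat_lit 434247) (nat_lit 28) (.e (nat_lit 573477) (nat_lit 12) (.e (nat_lit 57575) (nat_lit 55) (.e (nat_lit 778360) (nat_lit 9) .nil)))))))) (.g (nat_lit 4) .nil .nil))))) (.nd (nat_lit 4) (.nd (nat_lit 5) 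
(.lf (nat_lit 4875) (.g (nat_lit 4103) (.e (nat_lit 275) (nat_lit 21) (.e (nat_lit 336027) (nat_lit 3) (.e (nat_lit 98372) (nat_lit 29) (.e (nat_lit 450586) (nat_lit 10) (.e (nat_lit 573475) (nat_lit 12) (.e (nat_lit 57574) (nat_lit 55) (.e (nat_lit 778361) (nat_lit 9) .nil))))))) (.g (nat_lit 7) .nil .nil))) 
(.lf (nat_lit 4907) (.g (nat_lit 3506) (.e (nat_lit 276) (nat_lit 21) (.e (nat_lit 336009) (nat_lit 2) (.e (nat_lit 90170) (nat_lit 13) (.e (nat_lit 172113) (nat_lit 10) (.e (nat_lit 434247) (nat_lit 28) (.e (nat_lit 573477) (nat_lit 12) (.e (nat_lit 57574) (nat_lit 55) (.e (nat_lit 778359) (nat_lit 9) .nil)))))))) (.g (nat_lit 6) .nil .nil)))) (.nd (nat_lit 5) 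
(.lf (nat_lit 4891) (.g (nat_lit 2533) (.e (nat_lit 275) (nat_lit 21) (.e (nat_lit 336204) (nat_lit 12) (.e (nat_lit 385074) (nat_lit 31) (.e (nat_lit 573491) (nat_lit 15) (.e (nat_lit 81946) (nat_lit 20) (.e (nat_lit 1858) (nat_lit 124) (.e (nat_lit 557065) (nat_lit 9) .nil))))))) (.g (nat_lit 4) .nil .nil))) 
(.lf (nat_lit 4923) (.g (nat_lit 2637) (.e (nat_lit 276) (nat_lit 21) (.e (nat_lit 336021) (nat_lit 3) (.e (nat_lit 98313) (nat_lit 9) (.e (nat_lit 336012) (nat_lit 2) (.e (nat_lit 90158) (nat_lit 11) (.e (nat_lit 24604) (nat_lit 2) (.e (nat_lit 90123) (nat_lit 9) .nil))))))) (.g (nat_lit 4) .nil .nil)))))) (.nd (nat_lit 3) (.nd (nat_lit 4) (.nd (nat_lit 5) 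
(.lf (nat_lit 4871) (.g (nat_lit 2380) (.e (nat_lit 275) (nat_lit 21) (.e (nat_lit 336021) (nat_lit 3) (.e (nat_lit 98313) (nat_lit 9) (.e (nat_lit 336021) (nat_lit 3) (.e (nat_lit 98317) (nat_lit 9) .nil))))) .nil)) 
(.lf (nat_lit 4903) (.g (nat_lit 3179) (.e (nat_lit 275) (nat_lit 21) (.e (nat_lit 336223) (nat_lit 13) (.e (nat_lit 393301) (nat_lit 27) (.e (nat_lit 491560) (nat_lit 10) (.e (nat_lit 344179) (nat_lit 44) (.e (nat_lit 778359) (nat_lit 9) .nil)))))) (.g (nat_lit 0) .nil .nil)))) (.nd (nat_lit 5) 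
(.lf (nat_lit 4887) (.g (nat_lit 4631) (.e (nat_lit 275) (nat_lit 21) (.e (nat_lit 336027) (nat_lit 3) (.e (nat_lit 98373) (nat_lit 29) (.e (nat_lit 450587) (nat_lit 10) (.e (nat_lit 573477) (nat_lit 12) (.e (nat_lit 57574) (nat_lit 55) (.e (nat_lit 778361) (nat_lit 9) .nil))))))) (.g (nat_lit 7) .nil .nil))) 
(.lf (nat_lit 4919) (.g (nat_lit 1109) (.e (nat_lit 276) (nat_lit 21) (.e (nat_lit 336021) (nat_lit 3) (.e (nat_lit 98313) (nat_lit 9) .nil))) .nil)))) (.nd (nat_lit 4) (.nd (nat_lit 5) 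
(.lf (nat_lit 4879) (.g (nat_lit 3552) (.e (nat_lit 275) (nat_lit 21) (.e (nat_lit 336027) (nat_lit 3) (.e (nat_lit 98372) (nat_lit 29) (.e (nat_lit 450586) (nat_lit 10) (.e (nat_lit 573478) (nat_lit 12) (.e (nat_lit 57574) (nat_lit 55) (.e (nat_lit 778361) (nat_lit 9) .nil))))))) (.g (nat_lit 7) .nil .nil))) 
(.lf (nat_lit 4911) (.g (nat_lit 2846) (.e (nat_lit 276) (nat_lit 21) (.e (nat_lit 336010) (nat_lit 2) (.e (nat_lit 90170) (nat_lit 13) (.e (nat_lit 172113) (nat_lit 10) (.e (nat_lit 434247) (nat_lit 28) (.e (nat_lit 573478) (nat_lit 12) (.e (nat_lit 57574) (nat_lit 55) (.e (nat_lit 778361) (nat_lit 9) .nil)))))))) (.g (nat_lit 6) .nil .nil)))) (.nd (nat_lit 5) 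
(.lf (nat_lit 4895) (.g (nat_lit 2338) (.e (nat_lit 275) (nat_lit 21) (.e (nat_lit 336223) (nat_lit 13) (.e (nat_lit 393234) (nat_lit 17) (.e (nat_lit 7591) (nat_lit 407) (.e (nat_lit 73775) (nat_lit 26) (.e (nat_lit 778359) (nat_lit 9) .nil)))))) (.g (nat_lit 5) .nil .nil))) 
(.lf (nat_lit 4927) (.g (nat_lit 2503) (.e (nat_lit 276) (nat_lit 21) (.e (nat_lit 336021) (nat_lit 3) (.e (nat_lit 98313) (nat_lit 9) (.e (nat_lit 336021) (nat_lit 3) (.e (nat_lit 98317) (nat_lit 9) (.e (nat_lit 336012) (nat_lit 2) (.e (nat_lit 90128) (nat_lit 9) .nil))))))) (.g (nat_lit 4) .nil .nil)))))))))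

noncomputable def tv065 : DT := (.nd (nat_lit 0) (.nd (nat_lit 1) (.nd (nat_lit 2) (.nd (nat_lit 3) (.nd (nat_lit 4) (.nd (nat_lit 5) 
(.lf (nat_lit 4928) (.g (nat_lit 2602) (.e (nat_lit 276) (nat_lit 21) (.e (nat_lit 336021) (nat_lit 3) (.e (nat_lit 98313) (nat_lit 9) (.e (nat_lit 336027) (nat_lit 3) (.e (nat_lit 98313) (nat_lit 9) .nil))))) .nil)) 
(.lf (nat_lit 4960) (.g (nat_lit 3266) (.e (nat_lit 276) (nat_lit 21) (.e (nat_lit 336213) (nat_lit 13) (.e (nat_lit 393299) (nat_lit 27) (.e (nat_lit 491556) (nat_lit 9) (.e (nat_lit 336051) (nat_lit 6) .nil))))) .nil))) (.nd (nat_lit 5) 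
(.lf (nat_lit 4944) (.g (nat_lit 3423) (.e (nat_lit 276) (nat_lit 21) (.e (nat_lit 336204) (nat_lit 12) (.e (nat_lit 385074) (nat_lit 31) (.e (nat_lit 573485) (nat_lit 13) (.e (nat_lit 65619) (nat_lit 10) .nil))))) .nil)) 
(.lf (nat_lit 4976) (.g (nat_lit 1532) (.e (nat_lit 280) (nat_lit 21) (.e (nat_lit 335872) (nat_lit 0) (.e (nat_lit 6717) (nat_lit 361) (.e (nat_lit 172150) (nat_lit 27) (.e (nat_lit 336067) (nat_lit 8) (.e (nat_lit 327705) (nat_lit 10) (.e (nat_lit 5723) (nat_lit 312) .nil))))))) (.g (nat_lit 6) .nil .nil))))) (.nd (nat_lit 4) (.nd (nat_lit 5) 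
(.lf (nat_lit 4936) (.g (nat_lit 1711) (.e (nat_lit 276) (nat_lit 21) (.e (nat_lit 336078) (nat_lit 9) (.e (nat_lit 336454) (nat_lit 34) (.e (nat_lit 483365) (nat_lit 18) (.e (nat_lit 57847) (nat_lit 252) .nil))))) .nil)) 
(.lf (nat_lit 4968) (.g (nat_lit 2280) (.e (nat_lit 276) (nat_lit 21) (.e (nat_lit 336223) (nat_lit 13) (.e (nat_lit 393234) (nat_lit 17) (.e (nat_lit 7593) (nat_lit 407) (.e (nat_lit 73775) (nat_lit 26) (.e (nat_lit 778359) (nat_lit 9) .nil)))))) (.g (nat_lit 4) .nil .nil)))) (.nd (nat_lit 5) 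
(.lf (nat_lit 4952) (.g (nat_lit 2215) (.e (nat_lit 276) (nat_lit 21) (.e (nat_lit 336213) (nat_lit 13) (.e (nat_lit 393233) (nat_lit 17) (.e (nat_lit 7591) (nat_lit 407) (.e (nat_lit 73775) (nat_lit 26) (.e (nat_lit 778361) (nat_lit 9) .nil)))))) (.g (nat_lit 4) .nil .nil))) 
(.lf (nat_lit 4984) (.g (nat_lit 3560) (.e (nat_lit 280) (nat_lit 21) (.e (nat_lit 336235) (nat_lit 14) (.e (nat_lit 401437) (nat_lit 9) (.e (nat_lit 426482) (nat_lit 27) (.e (nat_lit 336060) (nat_lit 7) (.e (nat_lit 319505) (nat_lit 10) (.e (nat_lit 5712) (nat_lit 312) .nil))))))) (.g (nat_lit 0) .nil .nil)))))) (.nd (nat_lit 3) (.nd (nat_lit 4) (.nd (nat_lit 5) 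
(.lf (nat_lit 4932) (.g (nat_lit 3249) (.e (nat_lit 276) (nat_lit 21) (.e (nat_lit 336027) (nat_lit 3) (.e (nat_lit 98373) (nat_lit 29) (.e (nat_lit 450587) (nat_lit 10) (.e (nat_lit 573477) (nat_lit 12) .nil))))) .nil)) 
(.lf (nat_lit 4964) (.g (nat_lit 2027) (.e (nat_lit 276) (nat_lit 21) (.e (nat_lit 336220) (nat_lit 13) (.e (nat_lit 393301) (nat_lit 27) (.e (nat_lit 491556) (nat_lit 9) (.e (nat_lit 336051) (nat_lit 6) (.e (nat_lit 147466) (nat_lit 9) .nil)))))) (.g (nat_lit 4) .nil .nil)))) (.nd (nat_lit 5) 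
(.lf (nat_lit 4948) (.g (nat_lit 1176) (.e (nat_lit 276) (nat_lit 21) (.e (nat_lit 336213) (nat_lit 13) (.e (nat_lit 393232) (nat_lit 17) .nil))) .nil)) 
(.lf (nat_lit 4980) (.g (nat_lit 1691) (.e (nat_lit 280) (nat_lit 21) (.e (nat_lit 335874) (nat_lit 0) (.e (nat_lit 6717) (nat_lit 361) (.e (nat_lit 172150) (nat_lit 27) (.e (nat_lit 336067) (nat_lit 8) (.e (nat_lit 327705) (nat_lit 10) (.e (nat_lit 5723) (nat_lit 312) .nil))))))) (.g (nat_lit 7) .nil .nil))))) (.nd (nat_lit 4) (.nd (nat_lit 5) 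
(.lf (nat_lit 4940) (.g (nat_lit 1935) (.e (nat_lit 276) (nat_lit 21) (.e (nat_lit 336194) (nat_lit 12) (.e (nat_lit 385074) (nat_lit 31) (.e (nat_lit 573485) (nat_lit 13) .nil)))) .nil)) 
(.lf (nat_lit 4972) (.g (nat_lit 154) (.e (nat_lit 277) (nat_lit 21) (.e (nat_lit 336152) (nat_lit 9) (.e (nat_lit 336449) (nat_lit 33) .nil))) .nil))) (.nd (nat_lit 5) 
(.lf (nat_lit 4956) (.g (nat_lit 2384) (.e (nat_lit 276) (nat_lit 21) (.e (nat_lit 336213) (nat_lit 13) (.e (nat_lit 393233) (nat_lit 17) (.e (nat_lit 7593) (nat_lit 407) (.e (nat_lit 73775) (nat_lit 26) (.e (nat_lit 778361) (nat_lit 9) .nil)))))) (.g (nat_lit 5) .nil .nil))) 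
(.lf (nat_lit 4988) (.g (nat_lit 2423) (.e (nat_lit 281) (nat_lit 21) (.e (nat_lit 336209) (nat_lit 13) (.e (nat_lit 393225) (nat_lit 9) (.e (nat_lit 335995) (nat_lit 1) (.e (nat_lit 57848) (nat_lit 252) (.e (nat_lit 57372) (nat_lit 2) (.e (nat_lit 90133) (nat_lit 9) .nil))))))) (.g (nat_lit 6) .nil .nil))))))) (.nd (nat_lit 2) (.nd (nat_lit 3) (.nd (nat_lit 4) (.nd (nat_lit 5) 
(.lf (nat_lit 4930) (.g (nat_lit 2528) (.e (nat_lit 276) (nat_lit 21) (.e (nat_lit 336027) (nat_lit 3) (.e (nat_lit 98372) (nat_lit 29) (.e (nat_lit 450586) (nat_lit 10) (.e (nat_lit 573477) (nat_lit 12) .nil))))) .nil)) 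
(.lf (nat_lit 4962) (.g (nat_lit 3252) (.e (nat_lit 276) (nat_lit 21) (.e (nat_lit 336213) (nat_lit 13) (.e (nat_lit 393301) (nat_lit 27) (.e (nat_lit 491556) (nat_lit 9) (.e (nat_lit 336051) (nat_lit 6) .nil))))) .nil))) (.nd (nat_lit 5) 
(.lf (nat_lit 4946) (.g (nat_lit 2035) (.e (nat_lit 276) (nat_lit 21) (.e (nat_lit 336213) (nat_lit 13) (.e (nat_lit 393225) (nat_lit 9) (.e (nat_lit 335996) (nat_lit 1) .nil)))) .nil)) 
(.lf (nat_lit 4978) (.g (nat_lit 1491) (.e (nat_lit 280) (nat_lit 21) (.e (nat_lit 335872) (nat_lit 0) (.e (nat_lit 6719) (nat_lit 361) (.e (nat_lit 172150) (nat_lit 27) (.e (nat_lit 336067) (nat_lit 8) (.e (nat_lit 327705) (nat_lit 10) (.e (nat_lit 5723) (nat_lit 312) .nil))))))) (.g (nat_lit 6) .nil .nil))))) (.nd (nat_lit 4) (.nd (nat_lit 5) 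
(.lf (nat_lit 4938) (.g (nat_lit 1782) (.e (nat_lit 276) (nat_lit 21) (.e (nat_lit 336078) (nat_lit 9) (.e (nat_lit 336454) (nat_lit 34) (.e (nat_lit 483365) (nat_lit 18) (.e (nat_lit 57854) (nat_lit 252) (.e (nat_lit 57371) (nat_lit 2) (.e (nat_lit 90128) (nat_lit 9) .nil))))))) (.g (nat_lit 4) .nil .nil))) 
(.lf (nat_lit 4970) (.g (nat_lit 2913) (.e (nat_lit 276) (nat_lit 21) (.e (nat_lit 336223) (nat_lit 13) (.e (nat_lit 393301) (nat_lit 27) (.e (nat_lit 491556) (nat_lit 9) (.e (nat_lit 336051) (nat_lit 6) .nil))))) .nil))) (.nd (nat_lit 5) 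
(.lf (nat_lit 4954) (.g (nat_lit 2124) (.e (nat_lit 276) (nat_lit 21) (.e (nat_lit 336213) (nat_lit 13) (.e (nat_lit 393233) (nat_lit 17) (.e (nat_lit 7591) (nat_lit 407) (.e (nat_lit 73776) (nat_lit 26) (.e (nat_lit 778362) (nat_lit 9) .nil)))))) (.g (nat_lit 4) .nil .nil))) 
(.lf (nat_lit 4986) (.g (nat_lit 4209) (.e (nat_lit 280) (nat_lit 21) (.e (nat_lit 336235) (nat_lit 14) (.e (nat_lit 401459) (nat_lit 13) (.e (nat_lit 483372) (nat_lit 21) (.e (nat_lit 319505) (nat_lit 10) (.e (nat_lit 5712) (nat_lit 312) .nil)))))) (.g (nat_lit 6) .nil .nil)))))) (.nd (nat_lit 3) (.nd (nat_lit 4) (.nd (nat_lit 5) 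
(.lf (nat_lit 4934) (.g (nat_lit 2084) (.e (nat_lit 276) (nat_lit 21) (.e (nat_lit 336078) (nat_lit 9) (.e (nat_lit 336454) (nat_lit 34) (.e (nat_lit 483363) (nat_lit 18) (.e (nat_lit 57847) (nat_lit 252) (.e (nat_lit 57372) (nat_lit 2) (.e (nat_lit 90128) (nat_lit 9) .nil))))))) (.g (nat_lit 4) .nil .nil))) 
(.lf (nat_lit 4966) (.g (nat_lit 2342) (.e (nat_lit 276) (nat_lit 21) (.e (nat_lit 336223) (nat_lit 13) (.e (nat_lit 393234) (nat_lit 17) (.e (nat_lit 7591) (nat_lit 407) (.e (nat_lit 73775) (nat_lit 26) (.e (nat_lit 778359) (nat_lit 9) .nil)))))) (.g (nat_lit 4) .nil .nil)))) (.nd (nat_lit 5) 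
(.lf (nat_lit 4950) (.g (nat_lit 871) (.e (nat_lit 276) (nat_lit 21) (.e (nat_lit 336213) (nat_lit 13) (.e (nat_lit 393233) (nat_lit 17) .nil))) .nil)) 
(.lf (nat_lit 4982) (.g (nat_lit 1546) (.e (nat_lit 280) (nat_lit 21) (.e (nat_lit 335874) (nat_lit 0) (.e (nat_lit 6719) (nat_lit 361) (.e (nat_lit 172150) (nat_lit 27) (.e (nat_lit 336067) (nat_lit 8) (.e (nat_lit 327705) (nat_lit 10) (.e (nat_lit 5723) (nat_lit 312) .nil))))))) (.g (nat_lit 7) .nil .nil))))) (.nd (nat_lit 4) (.nd (nat_lit 5) 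
(.lf (nat_lit 4942) (.g (nat_lit 3745) (.e (nat_lit 276) (nat_lit 21) (.e (nat_lit 336204) (nat_lit 12) (.e (nat_lit 385074) (nat_lit 31) (.e (nat_lit 573482) (nat_lit 13) (.e (nat_lit 65619) (nat_lit 10) (.e (nat_lit 344129) (nat_lit 26) (.e (nat_lit 557066) (nat_lit 9) .nil))))))) (.g (nat_lit 4) .nil .nil))) 
(.lf (nat_lit 4974) (.g (nat_lit 4162) (.e (nat_lit 278) (nat_lit 21) (.e (nat_lit 336235) (nat_lit 14) (.e (nat_lit 401425) (nat_lit 2) (.e (nat_lit 196666) (nat_lit 13) (.e (nat_lit 65617) (nat_lit 10) (.e (nat_lit 344130) (nat_lit 26) (.e (nat_lit 557074) (nat_lit 9) .nil))))))) (.g (nat_lit 0) .nil .nil)))) (.nd (nat_lit 5) 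
(.lf (nat_lit 4958) (.g (nat_lit 1181) (.e (nat_lit 276) (nat_lit 21) (.e (nat_lit 336213) (nat_lit 13) (.e (nat_lit 393298) (nat_lit 27) .nil))) .nil)) 
(.lf (nat_lit 4990) (.g (nat_lit 666) (.e (nat_lit 281) (nat_lit 21) (.e (nat_lit 336323) (nat_lit 18) (.e (nat_lit 204862) (nat_lit 27) (.e (nat_lit 344132) (nat_lit 26) .nil)))) .nil))))))) (.nd (nat_lit 1) (.nd (nat_lit 2) (.nd (nat_lit 3) (.nd (nat_lit 4) (.nd (nat_lit 5) 
(.lf (nat_lit 4929) (.g (nat_lit 2505) (.e (nat_lit 276) (nat_lit 21) (.e (nat_lit 336021) (nat_lit 3) (.e (nat_lit 98313) (nat_lit 9) (.e (nat_lit 336027) (nat_lit 3) (.e (nat_lit 98317) (nat_lit 9) .nil))))) .nil)) 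
(.lf (nat_lit 4961) (.g (nat_lit 870) (.e (nat_lit 276) (nat_lit 21) (.e (nat_lit 336213) (nat_lit 13) (.e (nat_lit 393300) (nat_lit 27) .nil))) .nil))) (.nd (nat_lit 5) 
(.lf (nat_lit 4945) (.g (nat_lit 1983) (.e (nat_lit 276) (nat_lit 21) (.e (nat_lit 336213) (nat_lit 13) (.e (nat_lit 393225) (nat_lit 9) (.e (nat_lit 335995) (nat_lit 1) .nil)))) .nil)) 
(.lf (nat_lit 4977) (.g (nat_lit 1719) (.e (nat_lit 280) (nat_lit 21) (.e (nat_lit 335872) (nat_lit 0) (.e (nat_lit 6717) (nat_lit 361) (.e (nat_lit 172150) (nat_lit 27) (.e (nat_lit 336070) (nat_lit 8) (.e (nat_lit 327705) (nat_lit 10) (.e (nat_lit 5723) (nat_lit 312) .nil))))))) (.g (nat_lit 6) .nil .nil))))) (.nd (nat_lit 4) (.nd (nat_lit 5) 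
(.lf (nat_lit 4937) (.g (nat_lit 2404) (.e (nat_lit 276) (nat_lit 21) (.e (nat_lit 336078) (nat_lit 9) (.e (nat_lit 336454) (nat_lit 34) (.e (nat_lit 483365) (nat_lit 18) (.e (nat_lit 57849) (nat_lit 252) (.e (nat_lit 57372) (nat_lit 2) (.e (nat_lit 90128) (nat_lit 9) .nil))))))) (.g (nat_lit 5) .nil .nil))) 
(.lf (nat_lit 4969) (.g (nat_lit 3472) (.e (nat_lit 276) (nat_lit 21) (.e (nat_lit 336223) (nat_lit 13) (.e (nat_lit 393234) (nat_lit 17) (.e (nat_lit 7593) (nat_lit 407) (.e (nat_lit 73775) (nat_lit 26) (.e (nat_lit 778361) (nat_lit 9) .nil)))))) (.g (nat_lit 6) .nil .nil)))) (.nd (nat_lit 5) 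
(.lf (nat_lit 4953) (.g (nat_lit 2183) (.e (nat_lit 276) (nat_lit 21) (.e (nat_lit 336213) (nat_lit 13) (.e (nat_lit 393233) (nat_lit 17) (.e (nat_lit 7591) (nat_lit 407) (.e (nat_lit 73775) (nat_lit 26) (.e (nat_lit 778362) (nat_lit 9) .nil)))))) (.g (nat_lit 4) .nil .nil))) 
(.lf (nat_lit 4985) (.g (nat_lit 3273) (.e (nat_lit 280) (nat_lit 21) (.e (nat_lit 336235) (nat_lit 14) (.e (nat_lit 401458) (nat_lit 13) (.e (nat_lit 483372) (nat_lit 21) (.e (nat_lit 319505) (nat_lit 10) (.e (nat_lit 5712) (nat_lit 312) .nil)))))) (.g (nat_lit 0) .nil .nil)))))) (.nd (nat_lit 3) (.nd (nat_lit 4) (.nd (nat_lit 5) 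
(.lf (nat_lit 4933) (.g (nat_lit 2057) (.e (nat_lit 276) (nat_lit 21) (.e (nat_lit 336078) (nat_lit 9) (.e (nat_lit 336454) (nat_lit 34) (.e (nat_lit 483363) (nat_lit 18) (.e (nat_lit 57847) (nat_lit 252) .nil))))) .nil)) 
(.lf (nat_lit 4965) (.g (nat_lit 1970) (.e (nat_lit 276) (nat_lit 21) (.e (nat_lit 336223) (nat_lit 13) (.e (nat_lit 393234) (nat_lit 17) (.e (nat_lit 7587) (nat_lit 406) .nil)))) .nil))) (.nd (nat_lit 5) 
(.lf (nat_lit 4949) (.g (nat_lit 1690) (.e (nat_lit 276) (nat_lit 21) (.e (nat_lit 336213) (nat_lit 13) (.e (nat_lit 393232) (nat_lit 17) (.e (nat_lit 7593) (nat_lit 407) .nil)))) .nil)) 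
(.lf (nat_lit 4981) (.g (nat_lit 1878) (.e (nat_lit 280) (nat_lit 21) (.e (nat_lit 335874) (nat_lit 0) (.e (nat_lit 6717) (nat_lit 361) (.e (nat_lit 172150) (nat_lit 27) (.e (nat_lit 336070) (nat_lit 8) (.e (nat_lit 327705) (nat_lit 10) (.e (nat_lit 5723) (nat_lit 312) .nil))))))) (.g (nat_lit 7) .nil .nil))))) (.nd (nat_lit 4) (.nd (nat_lit 5) 
(.lf (nat_lit 4941) (.g (nat_lit 2856) (.e (nat_lit 276) (nat_lit 21) (.e (nat_lit 336204) (nat_lit 12) (.e (nat_lit 385074) (nat_lit 31) (.e (nat_lit 573482) (nat_lit 13) .nil)))) .nil)) 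
(.lf (nat_lit 4973) (.g (nat_lit 3019) (.e (nat_lit 278) (nat_lit 21) (.e (nat_lit 336209) (nat_lit 13) (.e (nat_lit 393225) (nat_lit 9) (.e (nat_lit 335995) (nat_lit 1) (.e (nat_lit 57848) (nat_lit 252) (.e (nat_lit 57372) (nat_lit 2) (.e (nat_lit 90140) (nat_lit 9) .nil))))))) (.g (nat_lit 7) .nil .nil)))) (.nd (nat_lit 5) 
(.lf (nat_lit 4957) (.g (nat_lit 1084) (.e (nat_lit 276) (nat_lit 21) (.e (nat_lit 336213) (nat_lit 13) (.e (nat_lit 393234) (nat_lit 17) .nil))) .nil)) 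
(.lf (nat_lit 4989) (.g (nat_lit 834) (.e (nat_lit 281) (nat_lit 21) (.e (nat_lit 336323) (nat_lit 18) (.e (nat_lit 204862) (nat_lit 27) (.e (nat_lit 344130) (nat_lit 26) .nil)))) .nil)))))) (.nd (nat_lit 2) (.nd (nat_lit 3) (.nd (nat_lit 4) (.nd (nat_lit 5) 
(.lf (nat_lit 4931) (.g (nat_lit 3757) (.e (nat_lit 276) (nat_lit 21) (.e (nat_lit 336027) (nat_lit 3) (.e (nat_lit 98372) (nat_lit 29) (.e (nat_lit 450588) (nat_lit 10) (.e (nat_lit 573475) (nat_lit 12) .nil))))) .nil)) 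
(.lf (nat_lit 4963) (.g (nat_lit 3432) (.e (nat_lit 276) (nat_lit 21) (.e (nat_lit 336213) (nat_lit 13) (.e (nat_lit 393301) (nat_lit 27) (.e (nat_lit 491560) (nat_lit 10) (.e (nat_lit 344179) (nat_lit 44) .nil))))) .nil))) (.nd (nat_lit 5) 
(.lf (nat_lit 4947) (.g (nat_lit 1151) (.e (nat_lit 276) (nat_lit 21) (.e (nat_lit 336213) (nat_lit 13) (.e (nat_lit 393231) (nat_lit 17) .nil))) .nil)) 
(.lf (nat_lit 4979) (.g (nat_lit 1690) (.e (nat_lit 280) (nat_lit 21) (.e (nat_lit 335872) (nat_lit 0) (.e (nat_lit 6719) (nat_lit 361) (.e (nat_lit 172150) (nat_lit 27) (.e (nat_lit 336070) (nat_lit 8) (.e (nat_lit 327705) (nat_lit 10) (.e (nat_lit 5723) (nat_lit 312) .nil))))))) (.g (nat_lit 6) .nil .nil))))) (.nd (nat_lit 4) (.nd (nat_lit 5) 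
(.lf (nat_lit 4939) (.g (nat_lit 1075) (.e (nat_lit 276) (nat_lit 21) (.e (nat_lit 336086) (nat_lit 9) (.e (nat_lit 336421) (nat_lit 28) (.e (nat_lit 434179) (nat_lit 0) .nil)))) .nil)) 
(.lf (nat_lit 4971) (.g (nat_lit 2477) (.e (nat_lit 276) (nat_lit 21) (.e (nat_lit 336223) (nat_lit 13) (.e (nat_lit 393301) (nat_lit 27) (.e (nat_lit 491560) (nat_lit 10) (.e (nat_lit 344179) (nat_lit 44) .nil))))) .nil))) (.nd (nat_lit 5) 
(.lf (nat_lit 4955) (.g (nat_lit 1360) (.e (nat_lit 276) (nat_lit 21) (.e (nat_lit 336213) (nat_lit 13) (.e (nat_lit 393233) (nat_lit 17) (.e (nat_lit 7593) (nat_lit 407) .nil)))) .nil)) 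
(.lf (nat_lit 4987) (.g (nat_lit 2524) (.e (nat_lit 281) (nat_lit 21) (.e (nat_lit 336209) (nat_lit 13) (.e (nat_lit 393225) (nat_lit 9) (.e (nat_lit 335995) (nat_lit 1) (.e (nat_lit 57848) (nat_lit 252) (.e (nat_lit 57372) (nat_lit 2) (.e (nat_lit 90121) (nat_lit 9) .nil))))))) (.g (nat_lit 6) .nil .nil)))))) (.nd (nat_lit 3) (.nd (nat_lit 4) (.nd (nat_lit 5) 
(.lf (nat_lit 4935) (.g (nat_lit 1752) (.e (nat_lit 276) (nat_lit 21) (.e (nat_lit 336078) (nat_lit 9) (.e (nat_lit 336454) (nat_lit 34) (.e (nat_lit 483364) (nat_lit 18) (.e (nat_lit 57854) (nat_lit 252) .nil))))) .nil)) 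
(.lf (nat_lit 4967) (.g (nat_lit 2568) (.e (nat_lit 276) (nat_lit 21) (.e (nat_lit 336223) (nat_lit 13) (.e (nat_lit 393234) (nat_lit 17) (.e (nat_lit 7591) (nat_lit 407) (.e (nat_lit 73776) (nat_lit 26) .nil))))) .nil))) (.nd (nat_lit 5) 
(.lf (nat_lit 4951) (.g (nat_lit 1361) (.e (nat_lit 276) (nat_lit 21) (.e (nat_lit 336213) (nat_lit 13) (.e (nat_lit 393233) (nat_lit 17) (.e (nat_lit 7591) (nat_lit 407) .nil)))) .nil)) 
(.lf (nat_lit 4983) (.g (nat_lit 1745) (.e (nat_lit 280) (nat_lit 21) (.e (nat_lit 335874) (nat_lit 0) (.e (nat_lit 6719) (nat_lit 361) (.e (nat_lit 172150) (nat_lit 27) (.e (nat_lit 336070) (nat_lit 8) (.e (nat_lit 327705) (nat_lit 10) (.e (nat_lit 5723) (nat_lit 312) .nil))))))) (.g (nat_lit 7) .nil .nil))))) (.nd (nat_lit 4) (.nd (nat_lit 5) 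
(.lf (nat_lit 4943) (.g (nat_lit 3223) (.e (nat_lit 276) (nat_lit 21) (.e (nat_lit 336204) (nat_lit 12) (.e (nat_lit 385074) (nat_lit 31) (.e (nat_lit 573484) (nat_lit 13) .nil)))) .nil)) 
(.lf (nat_lit 4975) (.g (nat_lit 2439) (.e (nat_lit 279) (nat_lit 21) (.e (nat_lit 336209) (nat_lit 13) (.e (nat_lit 393225) (nat_lit 9) (.e (nat_lit 335995) (nat_lit 1) (.e (nat_lit 57848) (nat_lit 252) (.e (nat_lit 57372) (nat_lit 2) (.e (nat_lit 90121) (nat_lit 9) .nil))))))) (.g (nat_lit 6) .nil .nil)))) (.nd (nat_lit 5) 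
(.lf (nat_lit 4959) (.g (nat_lit 1112) (.e (nat_lit 276) (nat_lit 21) (.e (nat_lit 336213) (nat_lit 13) (.e (nat_lit 393299) (nat_lit 27) .nil))) .nil)) 
(.lf (nat_lit 4991) (.g (nat_lit 2577) (.e (nat_lit 282) (nat_lit 21) (.e (nat_lit 336011) (nat_lit 2) (.e (nat_lit 90170) (nat_lit 13) (.e (nat_lit 172113) (nat_lit 10) .nil)))) .nil))))))))

noncomputable def tv066 : DT := (.nd (nat_lit 0) (.nd (nat_lit 1) (.nd (nat_lit 2) (.nd (nat_lit 3) (.nd (nat_lit 4) (.nd (nat_lit 5) 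
(.lf (nat_lit 4992) (.g (nat_lit 3542) (.e (nat_lit 282) (nat_lit 21) (.e (nat_lit 336011) (nat_lit 2) (.e (nat_lit 90170) (nat_lit 13) (.e (nat_lit 172113) (nat_lit 10) (.e (nat_lit 434247) (nat_lit 28) .nil))))) .nil)) 
(.lf (nat_lit 5024) (.g (nat_lit 2697) (.e (nat_lit 282) (nat_lit 21) (.e (nat_lit 336088) (nat_lit 9) (.e (nat_lit 336443) (nat_lit 32) (.e (nat_lit 466972) (nat_lit 21) (.e (nat_lit 164332) (nat_lit 230) (.e (nat_lit 163878) (nat_lit 4) (.e (nat_lit 213013) (nat_lit 9) .nil))))))) (.g (nat_lit 4) .nil .nil)))) (.nd (nat_lit 5) 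
(.lf (nat_lit 5008) (.g (nat_lit 3645) (.e (nat_lit 282) (nat_lit 21) (.e (nat_lit 336086) (nat_lit 9) (.e (nat_lit 336306) (nat_lit 15) (.e (nat_lit 3308) (nat_lit 202) (.e (nat_lit 573482) (nat_lit 13) (.e (nat_lit 65619) (nat_lit 10) (.e (nat_lit 344129) (nat_lit 26) (.e (nat_lit 557074) (nat_lit 9) .nil)))))))) (.g (nat_lit 7) .nil .nil))) 
(.lf (nat_lit 5040) (.g (nat_lit 3223) (.e (nat_lit 282) (nat_lit 21) (.e (nat_lit 336223) (nat_lit 13) (.e (nat_lit 393301) (nat_lit 27) (.e (nat_lit 491558) (nat_lit 10) (.e (nat_lit 344180) (nat_lit 44) .nil))))) .nil)))) (.nd (nat_lit 4) (.nd (nat_lit 5) 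
(.lf (nat_lit 5000) (.g (nat_lit 2487) (.e (nat_lit 282) (nat_lit 21) (.e (nat_lit 336027) (nat_lit 3) (.e (nat_lit 98372) (nat_lit 29) (.e (nat_lit 450579) (nat_lit 5) (.e (nat_lit 532504) (nat_lit 1) .nil))))) .nil)) 
(.lf (nat_lit 5032) (.g (nat_lit 2603) (.e (nat_lit 282) (nat_lit 21) (.e (nat_lit 336213) (nat_lit 13) (.e (nat_lit 393225) (nat_lit 9) (.e (nat_lit 335995) (nat_lit 1) (.e (nat_lit 57848) (nat_lit 252) (.e (nat_lit 57372) (nat_lit 2) (.e (nat_lit 90140) (nat_lit 9) .nil))))))) (.g (nat_lit 5) .nil .nil)))) (.nd (nat_lit 5) 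
(.lf (nat_lit 5016) (.g (nat_lit 1621) (.e (nat_lit 282) (nat_lit 21) (.e (nat_lit 336088) (nat_lit 9) (.e (nat_lit 336443) (nat_lit 32) (.e (nat_lit 466971) (nat_lit 21) .nil)))) .nil)) 
(.lf (nat_lit 5048) (.g (nat_lit 3218) (.e (nat_lit 283) (nat_lit 21) (.e (nat_lit 336027) (nat_lit 3) (.e (nat_lit 98373) (nat_lit 29) (.e (nat_lit 450587) (nat_lit 10) (.e (nat_lit 573477) (nat_lit 12) .nil))))) .nil))))) (.nd (nat_lit 3) (.nd (nat_lit 4) (.nd (nat_lit 5) 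
(.lf (nat_lit 4996) (.g (nat_lit 1950) (.e (nat_lit 282) (nat_lit 21) (.e (nat_lit 336021) (nat_lit 3) (.e (nat_lit 98313) (nat_lit 9) (.e (nat_lit 336027) (nat_lit 3) .nil)))) .nil)) 
(.lf (nat_lit 5028) (.g (nat_lit 2440) (.e (nat_lit 282) (nat_lit 21) (.e (nat_lit 336204) (nat_lit 12) (.e (nat_lit 385074) (nat_lit 31) (.e (nat_lit 573484) (nat_lit 13) (.e (nat_lit 65610) (nat_lit 10) .nil))))) .nil))) (.nd (nat_lit 5) 
(.lf (nat_lit 5012) (.g (nat_lit 2498) (.e (nat_lit 282) (nat_lit 21) (.e (nat_lit 336088) (nat_lit 9) (.e (nat_lit 336443) (nat_lit 32) (.e (nat_lit 466969) (nat_lit 21) (.e (nat_lit 164326) (nat_lit 230) .nil))))) .nil)) 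
(.lf (nat_lit 5044) (.g (nat_lit 2384) (.e (nat_lit 283) (nat_lit 21) (.e (nat_lit 336021) (nat_lit 3) (.e (nat_lit 98313) (nat_lit 9) (.e (nat_lit 336012) (nat_lit 2) (.e (nat_lit 90158) (nat_lit 11) (.e (nat_lit 24604) (nat_lit 2) (.e (nat_lit 90122) (nat_lit 9) .nil))))))) (.g (nat_lit 4) .nil .nil))))) (.nd (nat_lit 4) (.nd (nat_lit 5) 
(.lf (nat_lit 5004) (.g (nat_lit 1623) (.e (nat_lit 282) (nat_lit 21) (.e (nat_lit 336076) (nat_lit 9) (.e (nat_lit 336454) (nat_lit 34) (.e (nat_lit 483366) (nat_lit 18) (.e (nat_lit 57848) (nat_lit 252) (.e (nat_lit 57372) (nat_lit 2) (.e (nat_lit 90140) (nat_lit 9) .nil))))))) (.g (nat_lit 4) .nil .nil))) 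
(.lf (nat_lit 5036) (.g (nat_lit 2077) (.e (nat_lit 282) (nat_lit 21) (.e (nat_lit 336223) (nat_lit 13) (.e (nat_lit 393234) (nat_lit 17) (.e (nat_lit 7593) (nat_lit 407) (.e (nat_lit 73775) (nat_lit 26) .nil))))) .nil))) (.nd (nat_lit 5) 
(.lf (nat_lit 5020) (.g (nat_lit 1722) (.e (nat_lit 282) (nat_lit 21) (.e (nat_lit 336088) (nat_lit 9) (.e (nat_lit 336443) (nat_lit 32) (.e (nat_lit 466972) (nat_lit 21) .nil)))) .nil)) 
(.lf (nat_lit 5052) (.g (nat_lit 3675) (.e (nat_lit 283) (nat_lit 21) (.e (nat_lit 336204) (nat_lit 12) (.e (nat_lit 385074) (nat_lit 31) (.e (nat_lit 573485) (nat_lit 13) (.e (nat_lit 65619) (nat_lit 10) .nil))))) .nil)))))) (.nd (nat_lit 2) (.nd (nat_lit 3) (.nd (nat_lit 4) (.nd (nat_lit 5) 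
(.lf (nat_lit 4994) (.g (nat_lit 1989) (.e (nat_lit 282) (nat_lit 21) (.e (nat_lit 336021) (nat_lit 3) (.e (nat_lit 98313) (nat_lit 9) (.e (nat_lit 336021) (nat_lit 3) .nil)))) .nil)) 
(.lf (nat_lit 5026) (.g (nat_lit 938) (.e (nat_lit 282) (nat_lit 21) (.e (nat_lit 336186) (nat_lit 11) (.e (nat_lit 368676) (nat_lit 21) (.e (nat_lit 516181) (nat_lit 15) .nil)))) .nil))) (.nd (nat_lit 5) 
(.lf (nat_lit 5010) (.g (nat_lit 1803) (.e (nat_lit 282) (nat_lit 21) (.e (nat_lit 336088) (nat_lit 9) (.e (nat_lit 336443) (nat_lit 32) (.e (nat_lit 466969) (nat_lit 21) .nil)))) .nil)) 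
(.lf (nat_lit 5042) (.g (nat_lit 2557) (.e (nat_lit 283) (nat_lit 21) (.e (nat_lit 336011) (nat_lit 2) (.e (nat_lit 90170) (nat_lit 13) (.e (nat_lit 172113) (nat_lit 10) .nil)))) .nil)))) (.nd (nat_lit 4) (.nd (nat_lit 5) 
(.lf (nat_lit 5002) (.g (nat_lit 3223) (.e (nat_lit 282) (nat_lit 21) (.e (nat_lit 336027) (nat_lit 3) (.e (nat_lit 98373) (nat_lit 29) (.e (nat_lit 450587) (nat_lit 10) (.e (nat_lit 573477) (nat_lit 12) .nil))))) .nil)) 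
(.lf (nat_lit 5034) (.g (nat_lit 1482) (.e (nat_lit 282) (nat_lit 21) (.e (nat_lit 336223) (nat_lit 13) (.e (nat_lit 393234) (nat_lit 17) (.e (nat_lit 7591) (nat_lit 407) .nil)))) .nil))) (.nd (nat_lit 5) 
(.lf (nat_lit 5018) (.g (nat_lit 2159) (.e (nat_lit 282) (nat_lit 21) (.e (nat_lit 336088) (nat_lit 9) (.e (nat_lit 336443) (nat_lit 32) (.e (nat_lit 466971) (nat_lit 21) (.e (nat_lit 164325) (nat_lit 230) .nil))))) .nil)) 
(.lf (nat_lit 5050) (.g (nat_lit 652) (.e (nat_lit 283) (nat_lit 21) (.e (nat_lit 336078) (nat_lit 9) (.e (nat_lit 336454) (nat_lit 34) .nil))) .nil))))) (.nd (nat_lit 3) (.nd (nat_lit 4) (.nd (nat_lit 5) 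
(.lf (nat_lit 4998) (.g (nat_lit 1691) (.e (nat_lit 282) (nat_lit 21) (.e (nat_lit 336027) (nat_lit 3) (.e (nat_lit 98372) (nat_lit 29) (.e (nat_lit 450579) (nat_lit 5) .nil)))) .nil)) 
(.lf (nat_lit 5030) (.g (nat_lit 3002) (.e (nat_lit 282) (nat_lit 21) (.e (nat_lit 336204) (nat_lit 12) (.e (nat_lit 385074) (nat_lit 31) (.e (nat_lit 573485) (nat_lit 13) .nil)))) .nil))) (.nd (nat_lit 5) 
(.lf (nat_lit 5014) (.g (nat_lit 2588) (.e (nat_lit 282) (nat_lit 21) (.e (nat_lit 336088) (nat_lit 9) (.e (nat_lit 336443) (nat_lit 32) (.e (nat_lit 466969) (nat_lit 21) (.e (nat_lit 164332) (nat_lit 230) .nil))))) .nil)) 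
(.lf (nat_lit 5046) (.g (nat_lit 1792) (.e (nat_lit 283) (nat_lit 21) (.e (nat_lit 336021) (nat_lit 3) (.e (nat_lit 98313) (nat_lit 9) (.e (nat_lit 336027) (nat_lit 3) .nil)))) .nil)))) (.nd (nat_lit 4) (.nd (nat_lit 5) 
(.lf (nat_lit 5006) (.g (nat_lit 2074) (.e (nat_lit 282) (nat_lit 21) (.e (nat_lit 336078) (nat_lit 9) (.e (nat_lit 336454) (nat_lit 34) (.e (nat_lit 483365) (nat_lit 18) (.e (nat_lit 57851) (nat_lit 252) .nil))))) .nil)) 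
(.lf (nat_lit 5038) (.g (nat_lit 1598) (.e (nat_lit 282) (nat_lit 21) (.e (nat_lit 336223) (nat_lit 13) (.e (nat_lit 393281) (nat_lit 23) (.e (nat_lit 426099) (nat_lit 1) .nil)))) .nil))) (.nd (nat_lit 5) 
(.lf (nat_lit 5022) (.g (nat_lit 2378) (.e (nat_lit 282) (nat_lit 21) (.e (nat_lit 336088) (nat_lit 9) (.e (nat_lit 336443) (nat_lit 32) (.e (nat_lit 466972) (nat_lit 21) (.e (nat_lit 164331) (nat_lit 230) .nil))))) .nil)) 
(.lf (nat_lit 5054) (.g (nat_lit 2532) (.e (nat_lit 283) (nat_lit 21) (.e (nat_lit 336223) (nat_lit 13) (.e (nat_lit 393234) (nat_lit 17) (.e (nat_lit 7591) (nat_lit 407) (.e (nat_lit 73776) (nat_lit 26) .nil))))) .nil))))))) (.nd (nat_lit 1) (.nd (nat_lit 2) (.nd (nat_lit 3) (.nd (nat_lit 4) (.nd (nat_lit 5) 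
(.lf (nat_lit 4993) (.g (nat_lit 2478) (.e (nat_lit 282) (nat_lit 21) (.e (nat_lit 336021) (nat_lit 3) (.e (nat_lit 98313) (nat_lit 9) (.e (nat_lit 336012) (nat_lit 2) (.e (nat_lit 90158) (nat_lit 11) (.e (nat_lit 24604) (nat_lit 2) (.e (nat_lit 90125) (nat_lit 9) .nil))))))) (.g (nat_lit 4) .nil .nil))) 
(.lf (nat_lit 5025) (.g (nat_lit 1003) (.e (nat_lit 282) (nat_lit 21) (.e (nat_lit 336186) (nat_lit 11) (.e (nat_lit 368676) (nat_lit 21) (.e (nat_lit 516180) (nat_lit 15) (.e (nat_lit 475212) (nat_lit 42) (.e (nat_lit 720937) (nat_lit 22) (.e (nat_lit 90140) (nat_lit 9) .nil))))))) (.g (nat_lit 4) .nil .nil)))) (.nd (nat_lit 5) 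
(.lf (nat_lit 5009) (.g (nat_lit 3051) (.e (nat_lit 282) (nat_lit 21) (.e (nat_lit 336088) (nat_lit 9) (.e (nat_lit 336240) (nat_lit 15) (.e (nat_lit 3309) (nat_lit 202) (.e (nat_lit 573485) (nat_lit 13) (.e (nat_lit 65619) (nat_lit 10) (.e (nat_lit 344129) (nat_lit 26) (.e (nat_lit 557074) (nat_lit 9) .nil)))))))) (.g (nat_lit 6) .nil .nil))) 
(.lf (nat_lit 5041) (.g (nat_lit 2715) (.e (nat_lit 282) (nat_lit 21) (.e (nat_lit 336223) (nat_lit 13) (.e (nat_lit 393301) (nat_lit 27) (.e (nat_lit 491560) (nat_lit 10) (.e (nat_lit 344179) (nat_lit 44) .nil))))) .nil)))) (.nd (nat_lit 4) (.nd (nat_lit 5) 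
(.lf (nat_lit 5001) (.g (nat_lit 2533) (.e (nat_lit 282) (nat_lit 21) (.e (nat_lit 336027) (nat_lit 3) (.e (nat_lit 98372) (nat_lit 29) (.e (nat_lit 450586) (nat_lit 10) (.e (nat_lit 573477) (nat_lit 12) .nil))))) .nil)) 
(.lf (nat_lit 5033) (.g (nat_lit 2075) (.e (nat_lit 282) (nat_lit 21) (.e (nat_lit 336213) (nat_lit 13) (.e (nat_lit 393225) (nat_lit 9) (.e (nat_lit 335995) (nat_lit 1) (.e (nat_lit 57848) (nat_lit 252) (.e (nat_lit 57375) (nat_lit 2) (.e (nat_lit 90140) (nat_lit 9) .nil))))))) (.g (nat_lit 4) .nil .nil)))) (.nd (nat_lit 5) 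
(.lf (nat_lit 5017) (.g (nat_lit 2302) (.e (nat_lit 282) (nat_lit 21) (.e (nat_lit 336088) (nat_lit 9) (.e (nat_lit 336443) (nat_lit 32) (.e (nat_lit 466971) (nat_lit 21) (.e (nat_lit 164322) (nat_lit 230) (.e (nat_lit 163878) (nat_lit 4) (.e (nat_lit 213013) (nat_lit 9) .nil))))))) (.g (nat_lit 4) .nil .nil))) 
(.lf (nat_lit 5049) (.g (nat_lit 1535) (.e (nat_lit 283) (nat_lit 21) (.e (nat_lit 336076) (nat_lit 9) (.e (nat_lit 336454) (nat_lit 34) (.e (nat_lit 483365) (nat_lit 18) (.e (nat_lit 57848) (nat_lit 252) (.e (nat_lit 57372) (nat_lit 2) (.e (nat_lit 90121) (nat_lit 9) .nil))))))) (.g (nat_lit 4) .nil .nil)))))) (.nd (nat_lit 3) (.nd (nat_lit 4) (.nd (nat_lit 5) 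
(.lf (nat_lit 4997) (.g (nat_lit 2564) (.e (nat_lit 282) (nat_lit 21) (.e (nat_lit 336021) (nat_lit 3) (.e (nat_lit 98313) (nat_lit 9) (.e (nat_lit 336027) (nat_lit 3) (.e (nat_lit 98313) (nat_lit 9) .nil))))) .nil)) 
(.lf (nat_lit 5029) (.g (nat_lit 3429) (.e (nat_lit 282) (nat_lit 21) (.e (nat_lit 336204) (nat_lit 12) (.e (nat_lit 385074) (nat_lit 31) (.e (nat_lit 573484) (nat_lit 13) (.e (nat_lit 65617) (nat_lit 10) .nil))))) .nil))) (.nd (nat_lit 5) 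
(.lf (nat_lit 5013) (.g (nat_lit 2409) (.e (nat_lit 282) (nat_lit 21) (.e (nat_lit 336088) (nat_lit 9) (.e (nat_lit 336443) (nat_lit 32) (.e (nat_lit 466969) (nat_lit 21) (.e (nat_lit 164327) (nat_lit 230) (.e (nat_lit 163879) (nat_lit 4) (.e (nat_lit 213019) (nat_lit 9) .nil))))))) (.g (nat_lit 4) .nil .nil))) 
(.lf (nat_lit 5045) (.g (nat_lit 1832) (.e (nat_lit 283) (nat_lit 21) (.e (nat_lit 336021) (nat_lit 3) (.e (nat_lit 98313) (nat_lit 9) (.e (nat_lit 336021) (nat_lit 3) .nil)))) .nil)))) (.nd (nat_lit 4) (.nd (nat_lit 5) 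
(.lf (nat_lit 5005) (.g (nat_lit 644) (.e (nat_lit 282) (nat_lit 21) (.e (nat_lit 336078) (nat_lit 9) (.e (nat_lit 336454) (nat_lit 34) .nil))) .nil)) 
(.lf (nat_lit 5037) (.g (nat_lit 974) (.e (nat_lit 282) (nat_lit 21) (.e (nat_lit 336223) (nat_lit 13) (.e (nat_lit 393281) (nat_lit 23) .nil))) .nil))) (.nd (nat_lit 5) 
(.lf (nat_lit 5021) (.g (nat_lit 2638) (.e (nat_lit 282) (nat_lit 21) (.e (nat_lit 336088) (nat_lit 9) (.e (nat_lit 336443) (nat_lit 32) (.e (nat_lit 466972) (nat_lit 21) (.e (nat_lit 164330) (nat_lit 230) .nil))))) .nil)) 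
(.lf (nat_lit 5053) (.g (nat_lit 2189) (.e (nat_lit 283) (nat_lit 21) (.e (nat_lit 336213) (nat_lit 13) (.e (nat_lit 393225) (nat_lit 9) (.e (nat_lit 335995) (nat_lit 1) (.e (nat_lit 57848) (nat_lit 252) (.e (nat_lit 57372) (nat_lit 2) (.e (nat_lit 90121) (nat_lit 9) .nil))))))) (.g (nat_lit 4) .nil .nil))))))) (.nd (nat_lit 2) (.nd (nat_lit 3) (.nd (nat_lit 4) (.nd (nat_lit 5) 
(.lf (nat_lit 4995) (.g (nat_lit 2628) (.e (nat_lit 282) (nat_lit 21) (.e (nat_lit 336021) (nat_lit 3) (.e (nat_lit 98313) (nat_lit 9) (.e (nat_lit 336021) (nat_lit 3) (.e (nat_lit 98313) (nat_lit 9) .nil))))) .nil)) 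
(.lf (nat_lit 5027) (.g (nat_lit 2642) (.e (nat_lit 282) (nat_lit 21) (.e (nat_lit 336203) (nat_lit 12) (.e (nat_lit 385074) (nat_lit 31) (.e (nat_lit 573485) (nat_lit 13) (.e (nat_lit 65619) (nat_lit 10) .nil))))) .nil))) (.nd (nat_lit 5) 
(.lf (nat_lit 5011) (.g (nat_lit 2361) (.e (nat_lit 282) (nat_lit 21) (.e (nat_lit 336088) (nat_lit 9) (.e (nat_lit 336443) (nat_lit 32) (.e (nat_lit 466969) (nat_lit 21) (.e (nat_lit 164325) (nat_lit 230) .nil))))) .nil)) 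
(.lf (nat_lit 5043) (.g (nat_lit 2287) (.e (nat_lit 283) (nat_lit 21) (.e (nat_lit 336012) (nat_lit 2) (.e (nat_lit 90176) (nat_lit 15) (.e (nat_lit 188450) (nat_lit 23) (.e (nat_lit 204817) (nat_lit 17) .nil))))) .nil)))) (.nd (nat_lit 4) (.nd (nat_lit 5) 
(.lf (nat_lit 5003) (.g (nat_lit 3302) (.e (nat_lit 282) (nat_lit 21) (.e (nat_lit 336027) (nat_lit 3) (.e (nat_lit 98373) (nat_lit 29) (.e (nat_lit 450588) (nat_lit 10) (.e (nat_lit 573475) (nat_lit 12) .nil))))) .nil)) 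
(.lf (nat_lit 5035) (.g (nat_lit 2357) (.e (nat_lit 282) (nat_lit 21) (.e (nat_lit 336223) (nat_lit 13) (.e (nat_lit 393234) (nat_lit 17) (.e (nat_lit 7591) (nat_lit 407) (.e (nat_lit 73776) (nat_lit 26) .nil))))) .nil))) (.nd (nat_lit 5) 
(.lf (nat_lit 5019) (.g (nat_lit 2219) (.e (nat_lit 282) (nat_lit 21) (.e (nat_lit 336088) (nat_lit 9) (.e (nat_lit 336443) (nat_lit 32) (.e (nat_lit 466971) (nat_lit 21) (.e (nat_lit 164326) (nat_lit 230) .nil))))) .nil)) 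
(.lf (nat_lit 5051) (.g (nat_lit 2094) (.e (nat_lit 283) (nat_lit 21) (.e (nat_lit 336078) (nat_lit 9) (.e (nat_lit 336454) (nat_lit 34) (.e (nat_lit 483365) (nat_lit 18) (.e (nat_lit 57851) (nat_lit 252) .nil))))) .nil))))) (.nd (nat_lit 3) (.nd (nat_lit 4) (.nd (nat_lit 5) 
(.lf (nat_lit 4999) (.g (nat_lit 2453) (.e (nat_lit 282) (nat_lit 21) (.e (nat_lit 336027) (nat_lit 3) (.e (nat_lit 98372) (nat_lit 29) (.e (nat_lit 450579) (nat_lit 5) (.e (nat_lit 532501) (nat_lit 1) .nil))))) .nil)) 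
(.lf (nat_lit 5031) (.g (nat_lit 4881) (.e (nat_lit 282) (nat_lit 21) (.e (nat_lit 336204) (nat_lit 12) (.e (nat_lit 385074) (nat_lit 31) (.e (nat_lit 573485) (nat_lit 13) (.e (nat_lit 65619) (nat_lit 10) (.e (nat_lit 344129) (nat_lit 26) (.e (nat_lit 557074) (nat_lit 9) .nil))))))) (.g (nat_lit 6) .nil .nil)))) (.nd (nat_lit 5) 
(.lf (nat_lit 5015) (.g (nat_lit 2731) (.e (nat_lit 282) (nat_lit 21) (.e (nat_lit 336088) (nat_lit 9) (.e (nat_lit 336443) (nat_lit 32) (.e (nat_lit 466969) (nat_lit 21) (.e (nat_lit 164332) (nat_lit 230) (.e (nat_lit 163878) (nat_lit 4) (.e (nat_lit 213013) (nat_lit 9) .nil))))))) (.g (nat_lit 4) .nil .nil))) 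
(.lf (nat_lit 5047) (.g (nat_lit 2533) (.e (nat_lit 283) (nat_lit 21) (.e (nat_lit 336027) (nat_lit 3) (.e (nat_lit 98372) (nat_lit 29) (.e (nat_lit 450586) (nat_lit 10) (.e (nat_lit 573477) (nat_lit 12) .nil))))) .nil)))) (.nd (nat_lit 4) (.nd (nat_lit 5) 
(.lf (nat_lit 5007) (.g (nat_lit 3667) (.e (nat_lit 282) (nat_lit 21) (.e (nat_lit 336086) (nat_lit 9) (.e (nat_lit 336306) (nat_lit 15) (.e (nat_lit 3307) (nat_lit 202) (.e (nat_lit 573485) (nat_lit 13) (.e (nat_lit 65619) (nat_lit 10) (.e (nat_lit 344129) (nat_lit 26) (.e (nat_lit 557074) (nat_lit 9) .nil)))))))) (.g (nat_lit 7) .nil .nil))) 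
(.lf (nat_lit 5039) (.g (nat_lit 2166) (.e (nat_lit 282) (nat_lit 21) (.e (nat_lit 336223) (nat_lit 13) (.e (nat_lit 393281) (nat_lit 23) (.e (nat_lit 426100) (nat_lit 1) (.e (nat_lit 164332) (nat_lit 230) .nil))))) .nil))) (.nd (nat_lit 5) 
(.lf (nat_lit 5023) (.g (nat_lit 2503) (.e (nat_lit 282) (nat_lit 21) (.e (nat_lit 336088) (nat_lit 9) (.e (nat_lit 336443) (nat_lit 32) (.e (nat_lit 466972) (nat_lit 21) (.e (nat_lit 164332) (nat_lit 230) .nil))))) .nil)) 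
(.lf (nat_lit 5055) (.g (nat_lit 2915) (.e (nat_lit 283) (nat_lit 21) (.e (nat_lit 336223) (nat_lit 13) (.e (nat_lit 393301) (nat_lit 27) (.e (nat_lit 491560) (nat_lit 10) (.e (nat_lit 344179) (nat_lit 44) .nil))))) .nil))))))))

noncomputable def tv067 : DT := (.nd (nat_lit 0) (.nd (nat_lit 1) (.nd (nat_lit 2) (.nd (nat_lit 3) (.nd (nat_lit 4) (.nd (nat_lit 5) 
(.lf (nat_lit 5056) (.g (nat_lit 2906) (.e (nat_lit 283) (nat_lit 21) (.e (nat_lit 336231) (nat_lit 14) (.e (nat_lit 401458) (nat_lit 13) (.e (nat_lit 483372) (nat_lit 21) (.e (nat_lit 319505) (nat_lit 10) .nil))))) .nil)) 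
(.lf (nat_lit 5088) (.g (nat_lit 3139) (.e (nat_lit 284) (nat_lit 21) (.e (nat_lit 335988) (nat_lit 1) (.e (nat_lit 57854) (nat_lit 252) (.e (nat_lit 57364) (nat_lit 1) (.e (nat_lit 57852) (nat_lit 252) (.e (nat_lit 57427) (nat_lit 15) (.e (nat_lit 360483) (nat_lit 15) (.e (nat_lit 647171) (nat_lit 0) .nil)))))))) (.g (nat_lit 5) .nil .nil)))) (.nd (nat_lit 5) 
(.lf (nat_lit 5072) (.g (nat_lit 4526) (.e (nat_lit 284) (nat_lit 21) (.e (nat_lit 335986) (nat_lit 1) (.e (nat_lit 57847) (nat_lit 252) (.e (nat_lit 57365) (nat_lit 1) (.e (nat_lit 57854) (nat_lit 252) (.e (nat_lit 57427) (nat_lit 15) (.e (nat_lit 360483) (nat_lit 15) (.e (nat_lit 647171) (nat_lit 0) .nil)))))))) (.g (nat_lit 6) .nil .nil))) 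
(.lf (nat_lit 5104) (.g (nat_lit 3006) (.e (nat_lit 284) (nat_lit 21) (.e (nat_lit 336004) (nat_lit 2) (.e (nat_lit 90176) (nat_lit 15) (.e (nat_lit 188447) (nat_lit 22) (.e (nat_lit 196661) (nat_lit 12) (.e (nat_lit 57492) (nat_lit 34) (.e (nat_lit 606236) (nat_lit 9) .nil))))))) (.g (nat_lit 5) .nil .nil))))) (.nd (nat_lit 4) (.nd (nat_lit 5) 
(.lf (nat_lit 5064) (.g (nat_lit 2618) (.e (nat_lit 284) (nat_lit 21) (.e (nat_lit 335986) (nat_lit 1) (.e (nat_lit 57847) (nat_lit 252) (.e (nat_lit 57365) (nat_lit 1) (.e (nat_lit 57851) (nat_lit 252) (.e (nat_lit 57427) (nat_lit 15) (.e (nat_lit 360483) (nat_lit 15) (.e (nat_lit 647173) (nat_lit 0) .nil)))))))) (.g (nat_lit 4) .nil .nil))) 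
(.lf (nat_lit 5096) (.g (nat_lit 2323) (.e (nat_lit 284) (nat_lit 21) (.e (nat_lit 335995) (nat_lit 1) (.e (nat_lit 57847) (nat_lit 252) (.e (nat_lit 57365) (nat_lit 1) (.e (nat_lit 57852) (nat_lit 252) (.e (nat_lit 57427) (nat_lit 15) (.e (nat_lit 360483) (nat_lit 15) (.e (nat_lit 647171) (nat_lit 0) .nil)))))))) (.g (nat_lit 4) .nil .nil)))) (.nd (nat_lit 5) 
(.lf (nat_lit 5080) (.g (nat_lit 3188) (.e (nat_lit 284) (nat_lit 21) (.e (nat_lit 335986) (nat_lit 1) (.e (nat_lit 57847) (nat_lit 252) (.e (nat_lit 57368) (nat_lit 1) (.e (nat_lit 57853) (nat_lit 252) (.e (nat_lit 57427) (nat_lit 15) (.e (nat_lit 360483) (nat_lit 15) (.e (nat_lit 647171) (nat_lit 0) .nil)))))))) (.g (nat_lit 5) .nil .nil))) 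
(.lf (nat_lit 5112) (.g (nat_lit 2199) (.e (nat_lit 284) (nat_lit 21) (.e (nat_lit 336004) (nat_lit 2) (.e (nat_lit 90176) (nat_lit 15) (.e (nat_lit 188450) (nat_lit 23) (.e (nat_lit 204816) (nat_lit 17) .nil))))) .nil))))) (.nd (nat_lit 3) (.nd (nat_lit 4) (.nd (nat_lit 5) 
(.lf (nat_lit 5060) (.g (nat_lit 2001) (.e (nat_lit 284) (nat_lit 21) (.e (nat_lit 335986) (nat_lit 1) (.e (nat_lit 57847) (nat_lit 252) (.e (nat_lit 57363) (nat_lit 1) .nil)))) .nil)) 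
(.lf (nat_lit 5092) (.g (nat_lit 3107) (.e (nat_lit 284) (nat_lit 21) (.e (nat_lit 335988) (nat_lit 1) (.e (nat_lit 57854) (nat_lit 252) (.e (nat_lit 57366) (nat_lit 1) (.e (nat_lit 57852) (nat_lit 252) (.e (nat_lit 57427) (nat_lit 15) (.e (nat_lit 360484) (nat_lit 15) (.e (nat_lit 647171) (nat_lit 0) .nil)))))))) (.g (nat_lit 5) .nil .nil)))) (.nd (nat_lit 5) 
(.lf (nat_lit 5076) (.g (nat_lit 2337) (.e (nat_lit 284) (nat_lit 21) (.e (nat_lit 335986) (nat_lit 1) (.e (nat_lit 57847) (nat_lit 252) (.e (nat_lit 57368) (nat_lit 1) (.e (nat_lit 57829) (nat_lit 250) (.e (nat_lit 1201) (nat_lit 88) (.e (nat_lit 65617) (nat_lit 10) (.e (nat_lit 344164) (nat_lit 37) (.e (nat_lit 647171) (nat_lit 0) .nil))))))))) (.g (nat_lit 4) .nil .nil))) 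
(.lf (nat_lit 5108) (.g (nat_lit 2398) (.e (nat_lit 284) (nat_lit 21) (.e (nat_lit 336004) (nat_lit 2) (.e (nat_lit 90176) (nat_lit 15) (.e (nat_lit 188450) (nat_lit 23) (.e (nat_lit 204815) (nat_lit 17) (.e (nat_lit 1915) (nat_lit 130) (.e (nat_lit 606236) (nat_lit 9) .nil))))))) (.g (nat_lit 4) .nil .nil))))) (.nd (nat_lit 4) (.nd (nat_lit 5) 
(.lf (nat_lit 5068) (.g (nat_lit 4391) (.e (nat_lit 284) (nat_lit 21) (.e (nat_lit 335986) (nat_lit 1) (.e (nat_lit 57847) (nat_lit 252) (.e (nat_lit 57365) (nat_lit 1) (.e (nat_lit 57852) (nat_lit 252) (.e (nat_lit 57427) (nat_lit 15) (.e (nat_lit 360484) (nat_lit 15) (.e (nat_lit 647171) (nat_lit 0) .nil)))))))) (.g (nat_lit 6) .nil .nil))) 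
(.lf (nat_lit 5100) (.g (nat_lit 1574) (.e (nat_lit 284) (nat_lit 21) (.e (nat_lit 335995) (nat_lit 1) (.e (nat_lit 57848) (nat_lit 252) (.e (nat_lit 57365) (nat_lit 1) .nil)))) .nil))) (.nd (nat_lit 5) 
(.lf (nat_lit 5084) (.g (nat_lit 5001) (.e (nat_lit 284) (nat_lit 21) (.e (nat_lit 335986) (nat_lit 1) (.e (nat_lit 57847) (nat_lit 252) (.e (nat_lit 57368) (nat_lit 1) (.e (nat_lit 57854) (nat_lit 252) (.e (nat_lit 57427) (nat_lit 15) (.e (nat_lit 360484) (nat_lit 15) (.e (nat_lit 647171) (nat_lit 0) .nil)))))))) (.g (nat_lit 7) .nil .nil))) 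
(.lf (nat_lit 5116) (.g (nat_lit 2434) (.e (nat_lit 284) (nat_lit 21) (.e (nat_lit 336004) (nat_lit 2) (.e (nat_lit 90176) (nat_lit 15) (.e (nat_lit 188450) (nat_lit 23) (.e (nat_lit 204817) (nat_lit 17) (.e (nat_lit 1919) (nat_lit 130) (.e (nat_lit 606236) (nat_lit 9) .nil))))))) (.g (nat_lit 4) .nil .nil))))))) (.nd (nat_lit 2) (.nd (nat_lit 3) (.nd (nat_lit 4) (.nd (nat_lit 5) 
(.lf (nat_lit 5058) (.g (nat_lit 3692) (.e (nat_lit 284) (nat_lit 21) (.e (nat_lit 335894) (nat_lit 0) (.e (nat_lit 2356) (nat_lit 152) (.e (nat_lit 786482) (nat_lit 30) (.e (nat_lit 360475) (nat_lit 8) (.e (nat_lit 557089) (nat_lit 12) (.e (nat_lit 164007) (nat_lit 41) (.e (nat_lit 663580) (nat_lit 9) .nil)))))))) (.g (nat_lit 6) .nil .nil))) 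
(.lf (nat_lit 5090) (.g (nat_lit 3158) (.e (nat_lit 284) (nat_lit 21) (.e (nat_lit 335988) (nat_lit 1) (.e (nat_lit 57854) (nat_lit 252) (.e (nat_lit 57366) (nat_lit 1) (.e (nat_lit 57830) (nat_lit 250) (.e (nat_lit 1201) (nat_lit 88) (.e (nat_lit 65617) (nat_lit 10) (.e (nat_lit 344164) (nat_lit 37) (.e (nat_lit 647171) (nat_lit 0) .nil))))))))) (.g (nat_lit 6) .nil .nil)))) (.nd (nat_lit 5) 
(.lf (nat_lit 5074) (.g (nat_lit 2022) (.e (nat_lit 284) (nat_lit 21) (.e (nat_lit 335986) (nat_lit 1) (.e (nat_lit 57847) (nat_lit 252) (.e (nat_lit 57367) (nat_lit 1) .nil)))) .nil)) 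
(.lf (nat_lit 5106) (.g (nat_lit 3400) (.e (nat_lit 284) (nat_lit 21) (.e (nat_lit 336004) (nat_lit 2) (.e (nat_lit 90176) (nat_lit 15) (.e (nat_lit 188449) (nat_lit 22) (.e (nat_lit 204544) (nat_lit 3) .nil))))) .nil)))) (.nd (nat_lit 4) (.nd (nat_lit 5) 
(.lf (nat_lit 5066) (.g (nat_lit 2485) (.e (nat_lit 284) (nat_lit 21) (.e (nat_lit 335986) (nat_lit 1) (.e (nat_lit 57847) (nat_lit 252) (.e (nat_lit 57365) (nat_lit 1) (.e (nat_lit 57852) (nat_lit 252) .nil))))) .nil)) 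
(.lf (nat_lit 5098) (.g (nat_lit 2446) (.e (nat_lit 284) (nat_lit 21) (.e (nat_lit 335995) (nat_lit 1) (.e (nat_lit 57847) (nat_lit 252) (.e (nat_lit 57365) (nat_lit 1) (.e (nat_lit 57854) (nat_lit 252) (.e (nat_lit 57427) (nat_lit 15) (.e (nat_lit 360483) (nat_lit 15) (.e (nat_lit 647171) (nat_lit 0) .nil)))))))) (.g (nat_lit 4) .nil .nil)))) (.nd (nat_lit 5) 
(.lf (nat_lit 5082) (.g (nat_lit 4169) (.e (nat_lit 284) (nat_lit 21) (.e (nat_lit 335986) (nat_lit 1) (.e (nat_lit 57847) (nat_lit 252) (.e (nat_lit 57368) (nat_lit 1) (.e (nat_lit 57854) (nat_lit 252) (.e (nat_lit 57426) (nat_lit 15) (.e (nat_lit 360484) (nat_lit 15) (.e (nat_lit 647171) (nat_lit 0) .nil)))))))) (.g (nat_lit 6) .nil .nil))) 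
(.lf (nat_lit 5114) (.g (nat_lit 3061) (.e (nat_lit 284) (nat_lit 21) (.e (nat_lit 336004) (nat_lit 2) (.e (nat_lit 90176) (nat_lit 15) (.e (nat_lit 188450) (nat_lit 23) (.e (nat_lit 204817) (nat_lit 17) (.e (nat_lit 1915) (nat_lit 130) (.e (nat_lit 606236) (nat_lit 9) .nil))))))) (.g (nat_lit 6) .nil .nil)))))) (.nd (nat_lit 3) (.nd (nat_lit 4) (.nd (nat_lit 5) 
(.lf (nat_lit 5062) (.g (nat_lit 3081) (.e (nat_lit 284) (nat_lit 21) (.e (nat_lit 335986) (nat_lit 1) (.e (nat_lit 57847) (nat_lit 252) (.e (nat_lit 57365) (nat_lit 1) (.e (nat_lit 57829) (nat_lit 250) (.e (nat_lit 1201) (nat_lit 88) (.e (nat_lit 65617) (nat_lit 10) (.e (nat_lit 344164) (nat_lit 37) (.e (nat_lit 647171) (nat_lit 0) .nil))))))))) (.g (nat_lit 5) .nil .nil))) 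
(.lf (nat_lit 5094) (.g (nat_lit 2794) (.e (nat_lit 284) (nat_lit 21) (.e (nat_lit 335995) (nat_lit 1) (.e (nat_lit 57847) (nat_lit 252) (.e (nat_lit 57365) (nat_lit 1) (.e (nat_lit 57851) (nat_lit 252) (.e (nat_lit 57427) (nat_lit 15) (.e (nat_lit 360483) (nat_lit 15) (.e (nat_lit 647171) (nat_lit 0) .nil)))))))) (.g (nat_lit 5) .nil .nil)))) (.nd (nat_lit 5) 
(.lf (nat_lit 5078) (.g (nat_lit 4322) (.e (nat_lit 284) (nat_lit 21) (.e (nat_lit 335986) (nat_lit 1) (.e (nat_lit 57847) (nat_lit 252) (.e (nat_lit 57368) (nat_lit 1) (.e (nat_lit 57852) (nat_lit 252) (.e (nat_lit 57427) (nat_lit 15) (.e (nat_lit 360483) (nat_lit 15) (.e (nat_lit 647171) (nat_lit 0) .nil)))))))) (.g (nat_lit 6) .nil .nil))) 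
(.lf (nat_lit 5110) (.g (nat_lit 3039) (.e (nat_lit 284) (nat_lit 21) (.e (nat_lit 336004) (nat_lit 2) (.e (nat_lit 90176) (nat_lit 15) (.e (nat_lit 188450) (nat_lit 23) (.e (nat_lit 204815) (nat_lit 17) (.e (nat_lit 1916) (nat_lit 130) (.e (nat_lit 606236) (nat_lit 9) .nil))))))) (.g (nat_lit 6) .nil .nil))))) (.nd (nat_lit 4) (.nd (nat_lit 5) 
(.lf (nat_lit 5070) (.g (nat_lit 2535) (.e (nat_lit 284) (nat_lit 21) (.e (nat_lit 335986) (nat_lit 1) (.e (nat_lit 57847) (nat_lit 252) (.e (nat_lit 57365) (nat_lit 1) (.e (nat_lit 57854) (nat_lit 252) (.e (nat_lit 57426) (nat_lit 15) (.e (nat_lit 360482) (nat_lit 15) (.e (nat_lit 647171) (nat_lit 0) .nil)))))))) (.g (nat_lit 4) .nil .nil))) 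
(.lf (nat_lit 5102) (.g (nat_lit 2489) (.e (nat_lit 284) (nat_lit 21) (.e (nat_lit 335996) (nat_lit 1) (.e (nat_lit 57854) (nat_lit 252) (.e (nat_lit 57366) (nat_lit 1) .nil)))) .nil))) (.nd (nat_lit 5) 
(.lf (nat_lit 5086) (.g (nat_lit 2782) (.e (nat_lit 284) (nat_lit 21) (.e (nat_lit 335988) (nat_lit 1) (.e (nat_lit 57854) (nat_lit 252) (.e (nat_lit 57364) (nat_lit 1) (.e (nat_lit 57851) (nat_lit 252) (.e (nat_lit 57427) (nat_lit 15) (.e (nat_lit 360483) (nat_lit 15) (.e (nat_lit 647171) (nat_lit 0) .nil)))))))) (.g (nat_lit 5) .nil .nil))) 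
(.lf (nat_lit 5118) (.g (nat_lit 2783) (.e (nat_lit 284) (nat_lit 21) (.e (nat_lit 336004) (nat_lit 2) (.e (nat_lit 90176) (nat_lit 15) (.e (nat_lit 188450) (nat_lit 23) (.e (nat_lit 204817) (nat_lit 17) (.e (nat_lit 7936) (nat_lit 130) (.e (nat_lit 606236) (nat_lit 9) .nil))))))) (.g (nat_lit 5) .nil .nil)))))))) 
(.nd (nat_lit 1) (.nd (nat_lit 2) (.nd (nat_lit 3) (.nd (nat_lit 4) (.nd (nat_lit 5) 
(.lf (nat_lit 5057) (.g (nat_lit 2714) (.e (nat_lit 284) (nat_lit 21) (.e (nat_lit 335894) (nat_lit 0) (.e (nat_lit 2356) (nat_lit 152) (.e (nat_lit 786481) (nat_lit 30) (.e (nat_lit 360473) (nat_lit 8) (.e (nat_lit 557091) (nat_lit 12) (.e (nat_lit 164006) (nat_lit 41) (.e (nat_lit 663580) (nat_lit 9) .nil)))))))) (.g (nat_lit 5) .nil .nil))) 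
(.lf (nat_lit 5089) (.g (nat_lit 3060) (.e (nat_lit 284) (nat_lit 21) (.e (nat_lit 335988) (nat_lit 1) (.e (nat_lit 57854) (nat_lit 252) (.e (nat_lit 57364) (nat_lit 1) (.e (nat_lit 57852) (nat_lit 252) (.e (nat_lit 57427) (nat_lit 15) (.e (nat_lit 360484) (nat_lit 15) (.e (nat_lit 647171) (nat_lit 0) .nil)))))))) (.g (nat_lit 5) .nil .nil)))) (.nd (nat_lit 5) 
(.lf (nat_lit 5073) (.g (nat_lit 2045) (.e (nat_lit 284) (nat_lit 21) (.e (nat_lit 335986) (nat_lit 1) (.e (nat_lit 57847) (nat_lit 252) (.e (nat_lit 57366) (nat_lit 1) .nil)))) .nil)) 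
(.lf (nat_lit 5105) (.g (nat_lit 2500) (.e (nat_lit 284) (nat_lit 21) (.e (nat_lit 336004) (nat_lit 2) (.e (nat_lit 90176) (nat_lit 15) (.e (nat_lit 188447) (nat_lit 22) (.e (nat_lit 196661) (nat_lit 12) (.e (nat_lit 57492) (nat_lit 34) (.e (nat_lit 606238) (nat_lit 9) .nil))))))) (.g (nat_lit 4) .nil .nil))))) (.nd (nat_lit 4) (.nd (nat_lit 5) 
(.lf (nat_lit 5065) (.g (nat_lit 4947) (.e (nat_lit 284) (nat_lit 21) (.e (nat_lit 335986) (nat_lit 1) (.e (nat_lit 57847) (nat_lit 252) (.e (nat_lit 57365) (nat_lit 1) (.e (nat_lit 57851) (nat_lit 252) (.e (nat_lit 57427) (nat_lit 15) (.e (nat_lit 360484) (nat_lit 15) (.e (nat_lit 647171) (nat_lit 0) .nil)))))))) (.g (nat_lit 8) .nil .nil))) 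
(.lf (nat_lit 5097) (.g (nat_lit 2244) (.e (nat_lit 284) (nat_lit 21) (.e (nat_lit 335995) (nat_lit 1) (.e (nat_lit 57847) (nat_lit 252) (.e (nat_lit 57365) (nat_lit 1) (.e (nat_lit 57852) (nat_lit 252) (.e (nat_lit 57427) (nat_lit 15) (.e (nat_lit 360484) (nat_lit 15) (.e (nat_lit 647171) (nat_lit 0) .nil)))))))) (.g (nat_lit 4) .nil .nil)))) (.nd (nat_lit 5) 
(.lf (nat_lit 5081) (.g (nat_lit 3151) (.e (nat_lit 284) (nat_lit 21) (.e (nat_lit 335986) (nat_lit 1) (.e (nat_lit 57847) (nat_lit 252) (.e (nat_lit 57368) (nat_lit 1) (.e (nat_lit 57853) (nat_lit 252) (.e (nat_lit 57427) (nat_lit 15) (.e (nat_lit 360484) (nat_lit 15) (.e (nat_lit 647171) (nat_lit 0) .nil)))))))) (.g (nat_lit 5) .nil .nil))) 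
(.lf (nat_lit 5113) (.g (nat_lit 2191) (.e (nat_lit 284) (nat_lit 21) (.e (nat_lit 336004) (nat_lit 2) (.e (nat_lit 90176) (nat_lit 15) (.e (nat_lit 188450) (nat_lit 23) (.e (nat_lit 204817) (nat_lit 17) .nil))))) .nil))))) (.nd (nat_lit 3) (.nd (nat_lit 4) (.nd (nat_lit 5) 
(.lf (nat_lit 5061) (.g (nat_lit 1835) (.e (nat_lit 284) (nat_lit 21) (.e (nat_lit 335986) (nat_lit 1) (.e (nat_lit 57847) (nat_lit 252) (.e (nat_lit 57365) (nat_lit 1) .nil)))) .nil)) 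
(.lf (nat_lit 5093) (.g (nat_lit 1710) (.e (nat_lit 284) (nat_lit 21) (.e (nat_lit 335995) (nat_lit 1) (.e (nat_lit 57847) (nat_lit 252) (.e (nat_lit 57365) (nat_lit 1) (.e (nat_lit 57830) (nat_lit 250) .nil))))) .nil))) (.nd (nat_lit 5) 
(.lf (nat_lit 5077) (.g (nat_lit 4351) (.e (nat_lit 284) (nat_lit 21) (.e (nat_lit 335986) (nat_lit 1) (.e (nat_lit 57847) (nat_lit 252) (.e (nat_lit 57368) (nat_lit 1) (.e (nat_lit 57851) (nat_lit 252) (.e (nat_lit 57427) (nat_lit 15) (.e (nat_lit 360484) (nat_lit 15) (.e (nat_lit 647171) (nat_lit 0) .nil)))))))) (.g (nat_lit 7) .nil .nil))) 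
(.lf (nat_lit 5109) (.g (nat_lit 2297) (.e (nat_lit 284) (nat_lit 21) (.e (nat_lit 336004) (nat_lit 2) (.e (nat_lit 90176) (nat_lit 15) (.e (nat_lit 188450) (nat_lit 23) (.e (nat_lit 204815) (nat_lit 17) (.e (nat_lit 1915) (nat_lit 130) (.e (nat_lit 606238) (nat_lit 9) .nil))))))) (.g (nat_lit 4) .nil .nil))))) (.nd (nat_lit 4) (.nd (nat_lit 5) 
(.lf (nat_lit 5069) (.g (nat_lit 2377) (.e (nat_lit 284) (nat_lit 21) (.e (nat_lit 335986) (nat_lit 1) (.e (nat_lit 57847) (nat_lit 252) (.e (nat_lit 57365) (nat_lit 1) (.e (nat_lit 57854) (nat_lit 252) .nil))))) .nil)) 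
(.lf (nat_lit 5101) (.g (nat_lit 2306) (.e (nat_lit 284) (nat_lit 21) (.e (nat_lit 335996) (nat_lit 1) (.e (nat_lit 57854) (nat_lit 252) (.e (nat_lit 57364) (nat_lit 1) .nil)))) .nil))) (.nd (nat_lit 5) 
(.lf (nat_lit 5085) (.g (nat_lit 3031) (.e (nat_lit 284) (nat_lit 21) (.e (nat_lit 335988) (nat_lit 1) (.e (nat_lit 57854) (nat_lit 252) (.e (nat_lit 57364) (nat_lit 1) (.e (nat_lit 57830) (nat_lit 250) (.e (nat_lit 1201) (nat_lit 88) (.e (nat_lit 65617) (nat_lit 10) (.e (nat_lit 344164) (nat_lit 37) (.e (nat_lit 647171) (nat_lit 0) .nil))))))))) (.g (nat_lit 6) .nil .nil))) 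
(.lf (nat_lit 5117) (.g (nat_lit 2301) (.e (nat_lit 284) (nat_lit 21) (.e (nat_lit 336004) (nat_lit 2) (.e (nat_lit 90176) (nat_lit 15) (.e (nat_lit 188450) (nat_lit 23) (.e (nat_lit 204817) (nat_lit 17) (.e (nat_lit 1919) (nat_lit 130) (.e (nat_lit 606238) (nat_lit 9) .nil))))))) (.g (nat_lit 4) .nil .nil))))))) (.nd (nat_lit 2) (.nd (nat_lit 3) (.nd (nat_lit 4) (.nd (nat_lit 5) 
(.lf (nat_lit 5059) (.g (nat_lit 2768) (.e (nat_lit 284) (nat_lit 21) (.e (nat_lit 335895) (nat_lit 0) (.e (nat_lit 2356) (nat_lit 152) (.e (nat_lit 786481) (nat_lit 30) (.e (nat_lit 360473) (nat_lit 8) (.e (nat_lit 557089) (nat_lit 12) (.e (nat_lit 164007) (nat_lit 41) (.e (nat_lit 663580) (nat_lit 9) .nil)))))))) (.g (nat_lit 6) .nil .nil))) 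
(.lf (nat_lit 5091) (.g (nat_lit 3186) (.e (nat_lit 284) (nat_lit 21) (.e (nat_lit 335988) (nat_lit 1) (.e (nat_lit 57854) (nat_lit 252) (.e (nat_lit 57366) (nat_lit 1) (.e (nat_lit 57852) (nat_lit 252) (.e (nat_lit 57427) (nat_lit 15) (.e (nat_lit 360483) (nat_lit 15) (.e (nat_lit 647171) (nat_lit 0) .nil)))))))) (.g (nat_lit 5) .nil .nil)))) (.nd (nat_lit 5) 
(.lf (nat_lit 5075) (.g (nat_lit 1725) (.e (nat_lit 284) (nat_lit 21) (.e (nat_lit 335986) (nat_lit 1) (.e (nat_lit 57847) (nat_lit 252) (.e (nat_lit 57368) (nat_lit 1) .nil)))) .nil)) 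
(.lf (nat_lit 5107) (.g (nat_lit 2190) (.e (nat_lit 284) (nat_lit 21) (.e (nat_lit 336004) (nat_lit 2) (.e (nat_lit 90176) (nat_lit 15) (.e (nat_lit 188450) (nat_lit 23) (.e (nat_lit 204815) (nat_lit 17) .nil))))) .nil)))) (.nd (nat_lit 4) (.nd (nat_lit 5) 
(.lf (nat_lit 5067) (.g (nat_lit 4399) (.e (nat_lit 284) (nat_lit 21) (.e (nat_lit 335986) (nat_lit 1) (.e (nat_lit 57847) (nat_lit 252) (.e (nat_lit 57365) (nat_lit 1) (.e (nat_lit 57852) (nat_lit 252) (.e (nat_lit 57427) (nat_lit 15) (.e (nat_lit 360483) (nat_lit 15) (.e (nat_lit 647171) (nat_lit 0) .nil)))))))) (.g (nat_lit 6) .nil .nil))) 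
(.lf (nat_lit 5099) (.g (nat_lit 2340) (.e (nat_lit 284) (nat_lit 21) (.e (nat_lit 335995) (nat_lit 1) (.e (nat_lit 57847) (nat_lit 252) (.e (nat_lit 57365) (nat_lit 1) (.e (nat_lit 57854) (nat_lit 252) (.e (nat_lit 57427) (nat_lit 15) (.e (nat_lit 360484) (nat_lit 15) (.e (nat_lit 647171) (nat_lit 0) .nil)))))))) (.g (nat_lit 4) .nil .nil)))) (.nd (nat_lit 5) 
(.lf (nat_lit 5083) (.g (nat_lit 5014) (.e (nat_lit 284) (nat_lit 21) (.e (nat_lit 335986) (nat_lit 1) (.e (nat_lit 57847) (nat_lit 252) (.e (nat_lit 57368) (nat_lit 1) (.e (nat_lit 57854) (nat_lit 252) (.e (nat_lit 57427) (nat_lit 15) (.e (nat_lit 360483) (nat_lit 15) (.e (nat_lit 647171) (nat_lit 0) .nil)))))))) (.g (nat_lit 7) .nil .nil))) 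
(.lf (nat_lit 5115) (.g (nat_lit 2960) (.e (nat_lit 284) (nat_lit 21) (.e (nat_lit 336004) (nat_lit 2) (.e (nat_lit 90176) (nat_lit 15) (.e (nat_lit 188450) (nat_lit 23) (.e (nat_lit 204817) (nat_lit 17) (.e (nat_lit 1915) (nat_lit 130) (.e (nat_lit 606238) (nat_lit 9) .nil))))))) (.g (nat_lit 5) .nil .nil)))))) (.nd (nat_lit 3) (.nd (nat_lit 4) (.nd (nat_lit 5) 
(.lf (nat_lit 5063) (.g (nat_lit 3609) (.e (nat_lit 284) (nat_lit 21) (.e (nat_lit 335986) (nat_lit 1) (.e (nat_lit 57847) (nat_lit 252) (.e (nat_lit 57365) (nat_lit 1) (.e (nat_lit 57830) (nat_lit 250) (.e (nat_lit 1201) (nat_lit 88) (.e (nat_lit 65617) (nat_lit 10) (.e (nat_lit 344164) (nat_lit 37) (.e (nat_lit 647171) (nat_lit 0) .nil))))))))) (.g (nat_lit 6) .nil .nil))) 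
(.lf (nat_lit 5095) (.g (nat_lit 2791) (.e (nat_lit 284) (nat_lit 21) (.e (nat_lit 335995) (nat_lit 1) (.e (nat_lit 57847) (nat_lit 252) (.e (nat_lit 57365) (nat_lit 1) (.e (nat_lit 57851) (nat_lit 252) (.e (nat_lit 57427) (nat_lit 15) (.e (nat_lit 360484) (nat_lit 15) (.e (nat_lit 647171) (nat_lit 0) .nil)))))))) (.g (nat_lit 5) .nil .nil)))) (.nd (nat_lit 5) 
(.lf (nat_lit 5079) (.g (nat_lit 4319) (.e (nat_lit 284) (nat_lit 21) (.e (nat_lit 335986) (nat_lit 1) (.e (nat_lit 57847) (nat_lit 252) (.e (nat_lit 57368) (nat_lit 1) (.e (nat_lit 57852) (nat_lit 252) (.e (nat_lit 57427) (nat_lit 15) (.e (nat_lit 360484) (nat_lit 15) (.e (nat_lit 647171) (nat_lit 0) .nil)))))))) (.g (nat_lit 6) .nil .nil))) 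
(.lf (nat_lit 5111) (.g (nat_lit 2324) (.e (nat_lit 284) (nat_lit 21) (.e (nat_lit 336004) (nat_lit 2) (.e (nat_lit 90176) (nat_lit 15) (.e (nat_lit 188450) (nat_lit 23) (.e (nat_lit 204815) (nat_lit 17) (.e (nat_lit 1916) (nat_lit 130) (.e (nat_lit 606238) (nat_lit 9) .nil))))))) (.g (nat_lit 4) .nil .nil))))) (.nd (nat_lit 4) (.nd (nat_lit 5) 
(.lf (nat_lit 5071) (.g (nat_lit 3659) (.e (nat_lit 284) (nat_lit 21) (.e (nat_lit 335986) (nat_lit 1) (.e (nat_lit 57847) (nat_lit 252) (.e (nat_lit 57365) (nat_lit 1) (.e (nat_lit 57854) (nat_lit 252) (.e (nat_lit 57426) (nat_lit 15) (.e (nat_lit 360484) (nat_lit 15) (.e (nat_lit 647171) (nat_lit 0) .nil)))))))) (.g (nat_lit 5) .nil .nil))) 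
(.lf (nat_lit 5103) (.g (nat_lit 525) (.e (nat_lit 284) (nat_lit 21) (.e (nat_lit 336004) (nat_lit 2) (.e (nat_lit 90176) (nat_lit 15) .nil))) .nil))) (.nd (nat_lit 5) 
(.lf (nat_lit 5087) (.g (nat_lit 2778) (.e (nat_lit 284) (nat_lit 21) (.e (nat_lit 335988) (nat_lit 1) (.e (nat_lit 57854) (nat_lit 252) (.e (nat_lit 57364) (nat_lit 1) (.e (nat_lit 57851) (nat_lit 252) (.e (nat_lit 57427) (nat_lit 15) (.e (nat_lit 360484) (nat_lit 15) (.e (nat_lit 647171) (nat_lit 0) .nil)))))))) (.g (nat_lit 5) .nil .nil))) 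
(.lf (nat_lit 5119) (.g (nat_lit 2347) (.e (nat_lit 284) (nat_lit 21) (.e (nat_lit 336004) (nat_lit 2) (.e (nat_lit 90176) (nat_lit 15) (.e (nat_lit 188450) (nat_lit 23) (.e (nat_lit 204819) (nat_lit 17) .nil))))) .nil))))))))

noncomputable def tv068 : DT := (.nd (nat_lit 0) (.nd (nat_lit 1) (.nd (nat_lit 2) (.nd (nat_lit 3) (.nd (nat_lit 4) (.nd (nat_lit 5) (.nd (nat_lit 6) 
(.lf (nat_lit 5120) (.g (nat_lit 2308) (.e (nat_lit 284) (nat_lit 21) (.e (nat_lit 336004) (nat_lit 2) (.e (nat_lit 90176) (nat_lit 15) (.e (nat_lit 188450) (nat_lit 23) (.e (nat_lit 204821) (nat_lit 17) .nil))))) .nil)) 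
(.lf (nat_lit 5184) (.g (nat_lit 2613) (.e (nat_lit 284) (nat_lit 21) (.e (nat_lit 336027) (nat_lit 3) (.e (nat_lit 98372) (nat_lit 29) (.e (nat_lit 450579) (nat_lit 5) (.e (nat_lit 532501) (nat_lit 1) (.e (nat_lit 65280) (nat_lit 233) (.e (nat_lit 2475) (nat_lit 157) .nil))))))) (.g (nat_lit 4) .nil .nil)))) (.nd (nat_lit 6) 
(.lf (nat_lit 5152) (.g (nat_lit 1653) (.e (nat_lit 284) (nat_lit 21) (.e (nat_lit 336012) (nat_lit 2) (.e (nat_lit 90178) (nat_lit 15) (.e (nat_lit 188458) (nat_lit 25) .nil)))) .nil)) 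
(.lf (nat_lit 5216) (.g (nat_lit 2189) (.e (nat_lit 284) (nat_lit 21) (.e (nat_lit 336076) (nat_lit 9) (.e (nat_lit 336257) (nat_lit 15) (.e (nat_lit 3307) (nat_lit 202) (.e (nat_lit 573485) (nat_lit 13) (.e (nat_lit 65619) (nat_lit 10) (.e (nat_lit 344129) (nat_lit 26) (.e (nat_lit 557074) (nat_lit 9) .nil)))))))) (.g (nat_lit 4) .nil .nil))))) (.nd (nat_lit 5) (.nd (nat_lit 6) 
(.lf (nat_lit 5136) (.g (nat_lit 3255) (.e (nat_lit 284) (nat_lit 21) (.e (nat_lit 336012) (nat_lit 2) (.e (nat_lit 90176) (nat_lit 15) (.e (nat_lit 188449) (nat_lit 22) (.e (nat_lit 204544) (nat_lit 3) .nil))))) .nil)) 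
(.lf (nat_lit 5200) (.g (nat_lit 2262) (.e (nat_lit 284) (nat_lit 21) (.e (nat_lit 336027) (nat_lit 3) (.e (nat_lit 98372) (nat_lit 29) (.e (nat_lit 450586) (nat_lit 10) (.e (nat_lit 573478) (nat_lit 12) (.e (nat_lit 57574) (nat_lit 55) (.e (nat_lit 778401) (nat_lit 9) .nil))))))) (.g (nat_lit 4) .nil .nil)))) (.nd (nat_lit 6) 
(.lf (nat_lit 5168) (.g (nat_lit 1369) (.e (nat_lit 284) (nat_lit 21) (.e (nat_lit 336021) (nat_lit 3) (.e (nat_lit 98365) (nat_lit 26) (.e (nat_lit 426306) (nat_lit 12) .nil)))) .nil)) 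
(.lf (nat_lit 5232) (.g (nat_lit 2683) (.e (nat_lit 284) (nat_lit 21) (.e (nat_lit 336078) (nat_lit 9) (.e (nat_lit 336432) (nat_lit 30) (.e (nat_lit 450595) (nat_lit 17) (.e (nat_lit 663584) (nat_lit 12) (.e (nat_lit 164007) (nat_lit 41) (.e (nat_lit 663580) (nat_lit 9) .nil))))))) (.g (nat_lit 5) .nil .nil)))))) (.nd (nat_lit 4) (.nd (nat_lit 5) (.nd (nat_lit 6) 
(.lf (nat_lit 5128) (.g (nat_lit 2803) (.e (nat_lit 284) (nat_lit 21) (.e (nat_lit 336011) (nat_lit 2) (.e (nat_lit 90170) (nat_lit 13) (.e (nat_lit 172106) (nat_lit 10) (.e (nat_lit 434231) (nat_lit 23) (.e (nat_lit 532490) (nat_lit 0) (.e (nat_lit 1915) (nat_lit 130) (.e (nat_lit 606238) (nat_lit 9) .nil)))))))) (.g (nat_lit 4) .nil .nil))) 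
(.lf (nat_lit 5192) (.g (nat_lit 2082) (.e (nat_lit 284) (nat_lit 21) (.e (nat_lit 336027) (nat_lit 3) (.e (nat_lit 98372) (nat_lit 29) (.e (nat_lit 450586) (nat_lit 10) (.e (nat_lit 573477) (nat_lit 12) .nil))))) .nil))) (.nd (nat_lit 6) 
(.lf (nat_lit 5160) (.g (nat_lit 1046) (.e (nat_lit 284) (nat_lit 21) (.e (nat_lit 336021) (nat_lit 3) (.e (nat_lit 98359) (nat_lit 26) .nil))) .nil)) 
(.lf (nat_lit 5224) (.g (nat_lit 1801) (.e (nat_lit 284) (nat_lit 21) (.e (nat_lit 336076) (nat_lit 9) (.e (nat_lit 336443) (nat_lit 32) (.e (nat_lit 466971) (nat_lit 21) (.e (nat_lit 164322) (nat_lit 230) (.e (nat_lit 163878) (nat_lit 4) (.e (nat_lit 213013) (nat_lit 9) .nil))))))) (.g (nat_lit 4) .nil .nil))))) (.nd (nat_lit 5) (.nd (nat_lit 6) 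
(.lf (nat_lit 5144) (.g (nat_lit 2526) (.e (nat_lit 284) (nat_lit 21) (.e (nat_lit 336012) (nat_lit 2) (.e (nat_lit 90176) (nat_lit 15) (.e (nat_lit 188450) (nat_lit 23) (.e (nat_lit 204817) (nat_lit 17) (.e (nat_lit 1919) (nat_lit 130) (.e (nat_lit 606238) (nat_lit 9) .nil))))))) (.g (nat_lit 4) .nil .nil))) 
(.lf (nat_lit 5208) (.g (nat_lit 4909) (.e (nat_lit 284) (nat_lit 21) (.e (nat_lit 336027) (nat_lit 3) (.e (nat_lit 98373) (nat_lit 29) (.e (nat_lit 450587) (nat_lit 10) (.e (nat_lit 573477) (nat_lit 12) (.e (nat_lit 57575) (nat_lit 55) (.e (nat_lit 778401) (nat_lit 9) .nil))))))) (.g (nat_lit 6) .nil .nil)))) (.nd (nat_lit 6) 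
(.lf (nat_lit 5176) (.g (nat_lit 2603) (.e (nat_lit 284) (nat_lit 21) (.e (nat_lit 336027) (nat_lit 3) (.e (nat_lit 98370) (nat_lit 28) (.e (nat_lit 442424) (nat_lit 22) (.e (nat_lit 204544) (nat_lit 3) (.e (nat_lit 164006) (nat_lit 41) (.e (nat_lit 663580) (nat_lit 9) .nil))))))) (.g (nat_lit 4) .nil .nil))) 
(.lf (nat_lit 5240) (.g (nat_lit 2038) (.e (nat_lit 284) (nat_lit 21) (.e (nat_lit 336088) (nat_lit 9) (.e (nat_lit 336019) (nat_lit 3) (.e (nat_lit 98388) (nat_lit 33) (.e (nat_lit 491558) (nat_lit 10) .nil))))) .nil)))))) (.nd (nat_lit 3) (.nd (nat_lit 4) (.nd (nat_lit 5) (.nd (nat_lit 6) 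
(.lf (nat_lit 5124) (.g (nat_lit 3526) (.e (nat_lit 284) (nat_lit 21) (.e (nat_lit 336004) (nat_lit 2) (.e (nat_lit 90176) (nat_lit 15) (.e (nat_lit 188456) (nat_lit 25) (.e (nat_lit 245773) (nat_lit 3) (.e (nat_lit 164006) (nat_lit 41) (.e (nat_lit 663580) (nat_lit 9) .nil))))))) (.g (nat_lit 0) .nil .nil))) 
(.lf (nat_lit 5188) (.g (nat_lit 2127) (.e (nat_lit 284) (nat_lit 21) (.e (nat_lit 336027) (nat_lit 3) (.e (nat_lit 98372) (nat_lit 29) (.e (nat_lit 450579) (nat_lit 5) (.e (nat_lit 532504) (nat_lit 1) .nil))))) .nil))) (.nd (nat_lit 6) 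
(.lf (nat_lit 5156) (.g (nat_lit 1812) (.e (nat_lit 284) (nat_lit 21) (.e (nat_lit 336021) (nat_lit 3) (.e (nat_lit 98313) (nat_lit 9) (.e (nat_lit 336012) (nat_lit 2) .nil)))) .nil)) 
(.lf (nat_lit 5220) (.g (nat_lit 747) (.e (nat_lit 284) (nat_lit 21) (.e (nat_lit 336076) (nat_lit 9) (.e (nat_lit 336443) (nat_lit 32) (.e (nat_lit 466969) (nat_lit 21) .nil)))) .nil)))) (.nd (nat_lit 5) (.nd (nat_lit 6) 
(.lf (nat_lit 5140) (.g (nat_lit 2414) (.e (nat_lit 284) (nat_lit 21) (.e (nat_lit 336012) (nat_lit 2) (.e (nat_lit 90176) (nat_lit 15) (.e (nat_lit 188450) (nat_lit 23) (.e (nat_lit 204815) (nat_lit 17) (.e (nat_lit 1916) (nat_lit 130) (.e (nat_lit 606238) (nat_lit 9) .nil))))))) (.g (nat_lit 4) .nil .nil))) 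
(.lf (nat_lit 5204) (.g (nat_lit 3398) (.e (nat_lit 284) (nat_lit 21) (.e (nat_lit 336027) (nat_lit 3) (.e (nat_lit 98373) (nat_lit 29) (.e (nat_lit 450587) (nat_lit 10) (.e (nat_lit 573477) (nat_lit 12) (.e (nat_lit 57574) (nat_lit 55) (.e (nat_lit 778385) (nat_lit 9) .nil))))))) (.g (nat_lit 5) .nil .nil)))) (.nd (nat_lit 6) 
(.lf (nat_lit 5172) (.g (nat_lit 1081) (.e (nat_lit 284) (nat_lit 21) (.e (nat_lit 336021) (nat_lit 3) (.e (nat_lit 98372) (nat_lit 29) .nil))) .nil)) 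
(.lf (nat_lit 5236) (.g (nat_lit 2027) (.e (nat_lit 284) (nat_lit 21) (.e (nat_lit 336078) (nat_lit 9) (.e (nat_lit 336443) (nat_lit 32) (.e (nat_lit 466972) (nat_lit 21) (.e (nat_lit 164332) (nat_lit 230) .nil))))) .nil))))) (.nd (nat_lit 4) (.nd (nat_lit 5) (.nd (nat_lit 6) 
(.lf (nat_lit 5132) (.g (nat_lit 3655) (.e (nat_lit 284) (nat_lit 21) (.e (nat_lit 336011) (nat_lit 2) (.e (nat_lit 90170) (nat_lit 13) (.e (nat_lit 172113) (nat_lit 10) (.e (nat_lit 434247) (nat_lit 28) (.e (nat_lit 573477) (nat_lit 12) (.e (nat_lit 57575) (nat_lit 55) (.e (nat_lit 778401) (nat_lit 9) .nil)))))))) (.g (nat_lit 4) .nil .nil))) 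
(.lf (nat_lit 5196) (.g (nat_lit 4010) (.e (nat_lit 284) (nat_lit 21) (.e (nat_lit 336027) (nat_lit 3) (.e (nat_lit 98372) (nat_lit 29) (.e (nat_lit 450586) (nat_lit 10) (.e (nat_lit 573477) (nat_lit 12) (.e (nat_lit 57575) (nat_lit 55) (.e (nat_lit 778385) (nat_lit 9) .nil))))))) (.g (nat_lit 6) .nil .nil)))) (.nd (nat_lit 6) 
(.lf (nat_lit 5164) (.g (nat_lit 2004) (.e (nat_lit 284) (nat_lit 21) (.e (nat_lit 336021) (nat_lit 3) (.e (nat_lit 98365) (nat_lit 26) (.e (nat_lit 426188) (nat_lit 9) (.e (nat_lit 426436) (nat_lit 18) .nil))))) .nil)) 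
(.lf (nat_lit 5228) (.g (nat_lit 2084) (.e (nat_lit 284) (nat_lit 21) (.e (nat_lit 336076) (nat_lit 9) (.e (nat_lit 336454) (nat_lit 34) (.e (nat_lit 483365) (nat_lit 18) (.e (nat_lit 57848) (nat_lit 252) (.e (nat_lit 57372) (nat_lit 2) (.e (nat_lit 90121) (nat_lit 9) .nil))))))) (.g (nat_lit 5) .nil .nil))))) (.nd (nat_lit 5) (.nd (nat_lit 6) 
(.lf (nat_lit 5148) (.g (nat_lit 2315) (.e (nat_lit 284) (nat_lit 21) (.e (nat_lit 336012) (nat_lit 2) (.e (nat_lit 90176) (nat_lit 15) (.e (nat_lit 188450) (nat_lit 23) (.e (nat_lit 204821) (nat_lit 17) (.e (nat_lit 1918) (nat_lit 130) (.e (nat_lit 606238) (nat_lit 9) .nil))))))) (.g (nat_lit 4) .nil .nil))) 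
(.lf (nat_lit 5212) (.g (nat_lit 3027) (.e (nat_lit 284) (nat_lit 21) (.e (nat_lit 336027) (nat_lit 3) (.e (nat_lit 98373) (nat_lit 29) (.e (nat_lit 450587) (nat_lit 10) (.e (nat_lit 573478) (nat_lit 12) (.e (nat_lit 57574) (nat_lit 55) (.e (nat_lit 778401) (nat_lit 9) .nil))))))) (.g (nat_lit 4) .nil .nil)))) (.nd (nat_lit 6) 
(.lf (nat_lit 5180) (.g (nat_lit 2337) (.e (nat_lit 284) (nat_lit 21) (.e (nat_lit 336027) (nat_lit 3) (.e (nat_lit 98372) (nat_lit 29) (.e (nat_lit 450579) (nat_lit 5) (.e (nat_lit 532484) (nat_lit 0) (.e (nat_lit 1915) (nat_lit 130) (.e (nat_lit 606236) (nat_lit 9) .nil))))))) (.g (nat_lit 4) .nil .nil))) 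
(.lf (nat_lit 5244) (.g (nat_lit 4153) (.e (nat_lit 284) (nat_lit 21) (.e (nat_lit 336088) (nat_lit 9) (.e (nat_lit 336019) (nat_lit 3) (.e (nat_lit 98389) (nat_lit 33) (.e (nat_lit 491560) (nat_lit 10) (.e (nat_lit 344129) (nat_lit 26) (.e (nat_lit 557074) (nat_lit 9) .nil))))))) (.g (nat_lit 7) .nil .nil)))))))) 
(.nd (nat_lit 2) (.nd (nat_lit 3) (.nd (nat_lit 4) (.nd (nat_lit 5) (.nd (nat_lit 6) 
(.lf (nat_lit 5122) (.g (nat_lit 2453) (.e (nat_lit 284) (nat_lit 21) (.e (nat_lit 336004) (nat_lit 2) (.e (nat_lit 90176) (nat_lit 15) (.e (nat_lit 188450) (nat_lit 23) (.e (nat_lit 204829) (nat_lit 18) .nil))))) .nil)) 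
(.lf (nat_lit 5186) (.g (nat_lit 2945) (.e (nat_lit 284) (nat_lit 21) (.e (nat_lit 336027) (nat_lit 3) (.e (nat_lit 98372) (nat_lit 29) (.e (nat_lit 450579) (nat_lit 5) (.e (nat_lit 532503) (nat_lit 1) (.e (nat_lit 57777) (nat_lit 233) (.e (nat_lit 2479) (nat_lit 157) .nil))))))) (.g (nat_lit 5) .nil .nil)))) (.nd (nat_lit 6) 
(.lf (nat_lit 5154) (.g (nat_lit 1020) (.e (nat_lit 284) (nat_lit 21) (.e (nat_lit 336021) (nat_lit 3) (.e (nat_lit 98313) (nat_lit 9) .nil))) .nil)) 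
(.lf (nat_lit 5218) (.g (nat_lit 2216) (.e (nat_lit 284) (nat_lit 21) (.e (nat_lit 336076) (nat_lit 9) (.e (nat_lit 336303) (nat_lit 15) (.e (nat_lit 3307) (nat_lit 202) (.e (nat_lit 573485) (nat_lit 13) (.e (nat_lit 65619) (nat_lit 10) (.e (nat_lit 344129) (nat_lit 26) (.e (nat_lit 557074) (nat_lit 9) .nil)))))))) (.g (nat_lit 4) .nil .nil))))) (.nd (nat_lit 5) (.nd (nat_lit 6) 
(.lf (nat_lit 5138) (.g (nat_lit 2484) (.e (nat_lit 284) (nat_lit 21) (.e (nat_lit 336012) (nat_lit 2) (.e (nat_lit 90176) (nat_lit 15) (.e (nat_lit 188450) (nat_lit 23) (.e (nat_lit 204815) (nat_lit 17) (.e (nat_lit 1915) (nat_lit 130) (.e (nat_lit 606236) (nat_lit 9) .nil))))))) (.g (nat_lit 4) .nil .nil))) 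
(.lf (nat_lit 5202) (.g (nat_lit 2531) (.e (nat_lit 284) (nat_lit 21) (.e (nat_lit 336027) (nat_lit 3) (.e (nat_lit 98373) (nat_lit 29) (.e (nat_lit 450586) (nat_lit 10) (.e (nat_lit 573477) (nat_lit 12) .nil))))) .nil))) (.nd (nat_lit 6) 
(.lf (nat_lit 5170) (.g (nat_lit 2350) (.e (nat_lit 284) (nat_lit 21) (.e (nat_lit 336021) (nat_lit 3) (.e (nat_lit 98365) (nat_lit 26) (.e (nat_lit 426306) (nat_lit 12) (.e (nat_lit 475179) (nat_lit 24) (.e (nat_lit 516124) (nat_lit 2) (.e (nat_lit 213019) (nat_lit 9) .nil))))))) (.g (nat_lit 4) .nil .nil))) 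
(.lf (nat_lit 5234) (.g (nat_lit 1810) (.e (nat_lit 284) (nat_lit 21) (.e (nat_lit 336078) (nat_lit 9) (.e (nat_lit 336443) (nat_lit 32) (.e (nat_lit 466969) (nat_lit 21) (.e (nat_lit 164332) (nat_lit 230) .nil))))) .nil))))) (.nd (nat_lit 4) (.nd (nat_lit 5) (.nd (nat_lit 6) 
(.lf (nat_lit 5130) (.g (nat_lit 2557) (.e (nat_lit 284) (nat_lit 21) (.e (nat_lit 336011) (nat_lit 2) (.e (nat_lit 90170) (nat_lit 13) (.e (nat_lit 172113) (nat_lit 10) .nil)))) .nil)) 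
(.lf (nat_lit 5194) (.g (nat_lit 2410) (.e (nat_lit 284) (nat_lit 21) (.e (nat_lit 336027) (nat_lit 3) (.e (nat_lit 98372) (nat_lit 29) (.e (nat_lit 450586) (nat_lit 10) (.e (nat_lit 573477) (nat_lit 12) (.e (nat_lit 57574) (nat_lit 55) (.e (nat_lit 778401) (nat_lit 9) .nil))))))) (.g (nat_lit 4) .nil .nil)))) (.nd (nat_lit 6) 
(.lf (nat_lit 5162) (.g (nat_lit 1396) (.e (nat_lit 284) (nat_lit 21) (.e (nat_lit 336021) (nat_lit 3) (.e (nat_lit 98365) (nat_lit 26) (.e (nat_lit 426187) (nat_lit 9) .nil)))) .nil)) 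
(.lf (nat_lit 5226) (.g (nat_lit 1760) (.e (nat_lit 284) (nat_lit 21) (.e (nat_lit 336076) (nat_lit 9) (.e (nat_lit 336443) (nat_lit 32) (.e (nat_lit 466972) (nat_lit 21) (.e (nat_lit 164332) (nat_lit 230) (.e (nat_lit 163878) (nat_lit 4) (.e (nat_lit 213000) (nat_lit 9) .nil))))))) (.g (nat_lit 4) .nil .nil))))) (.nd (nat_lit 5) (.nd (nat_lit 6) 
(.lf (nat_lit 5146) (.g (nat_lit 2249) (.e (nat_lit 284) (nat_lit 21) (.e (nat_lit 336012) (nat_lit 2) (.e (nat_lit 90176) (nat_lit 15) (.e (nat_lit 188450) (nat_lit 23) (.e (nat_lit 204821) (nat_lit 17) (.e (nat_lit 1915) (nat_lit 130) (.e (nat_lit 606238) (nat_lit 9) .nil))))))) (.g (nat_lit 4) .nil .nil))) 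
(.lf (nat_lit 5210) (.g (nat_lit 2640) (.e (nat_lit 284) (nat_lit 21) (.e (nat_lit 336027) (nat_lit 3) (.e (nat_lit 98373) (nat_lit 29) (.e (nat_lit 450587) (nat_lit 10) (.e (nat_lit 573478) (nat_lit 12) .nil))))) .nil))) (.nd (nat_lit 6) 
(.lf (nat_lit 5178) (.g (nat_lit 1331) (.e (nat_lit 284) (nat_lit 21) (.e (nat_lit 336027) (nat_lit 3) (.e (nat_lit 98372) (nat_lit 29) (.e (nat_lit 450579) (nat_lit 5) .nil)))) .nil)) 
(.lf (nat_lit 5242) (.g (nat_lit 4890) (.e (nat_lit 284) (nat_lit 21) (.e (nat_lit 336088) (nat_lit 9) (.e (nat_lit 336019) (nat_lit 3) (.e (nat_lit 98388) (nat_lit 33) (.e (nat_lit 491560) (nat_lit 10) (.e (nat_lit 344129) (nat_lit 26) (.e (nat_lit 557074) (nat_lit 9) .nil))))))) (.g (nat_lit 7) .nil .nil))))))) (.nd (nat_lit 3) (.nd (nat_lit 4) (.nd (nat_lit 5) (.nd (nat_lit 6) 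
(.lf (nat_lit 5126) (.g (nat_lit 1116) (.e (nat_lit 284) (nat_lit 21) (.e (nat_lit 336004) (nat_lit 2) (.e (nat_lit 90185) (nat_lit 17) (.e (nat_lit 237605) (nat_lit 9) .nil)))) .nil)) 
(.lf (nat_lit 5190) (.g (nat_lit 2520) (.e (nat_lit 284) (nat_lit 21) (.e (nat_lit 336027) (nat_lit 3) (.e (nat_lit 98372) (nat_lit 29) (.e (nat_lit 450579) (nat_lit 5) (.e (nat_lit 532504) (nat_lit 1) (.e (nat_lit 65280) (nat_lit 233) (.e (nat_lit 2475) (nat_lit 157) .nil))))))) (.g (nat_lit 4) .nil .nil)))) (.nd (nat_lit 6) 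
(.lf (nat_lit 5158) (.g (nat_lit 1939) (.e (nat_lit 284) (nat_lit 21) (.e (nat_lit 336021) (nat_lit 3) (.e (nat_lit 98313) (nat_lit 9) (.e (nat_lit 336021) (nat_lit 3) .nil)))) .nil)) 
(.lf (nat_lit 5222) (.g (nat_lit 1716) (.e (nat_lit 284) (nat_lit 21) (.e (nat_lit 336076) (nat_lit 9) (.e (nat_lit 336443) (nat_lit 32) (.e (nat_lit 466969) (nat_lit 21) (.e (nat_lit 164332) (nat_lit 230) (.e (nat_lit 163878) (nat_lit 4) (.e (nat_lit 213000) (nat_lit 9) .nil))))))) (.g (nat_lit 4) .nil .nil))))) (.nd (nat_lit 5) (.nd (nat_lit 6) 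
(.lf (nat_lit 5142) (.g (nat_lit 2107) (.e (nat_lit 284) (nat_lit 21) (.e (nat_lit 336012) (nat_lit 2) (.e (nat_lit 90176) (nat_lit 15) (.e (nat_lit 188450) (nat_lit 23) (.e (nat_lit 204817) (nat_lit 17) .nil))))) .nil)) 
(.lf (nat_lit 5206) (.g (nat_lit 3049) (.e (nat_lit 284) (nat_lit 21) (.e (nat_lit 336027) (nat_lit 3) (.e (nat_lit 98373) (nat_lit 29) (.e (nat_lit 450587) (nat_lit 10) (.e (nat_lit 573477) (nat_lit 12) (.e (nat_lit 57575) (nat_lit 55) (.e (nat_lit 778353) (nat_lit 9) .nil))))))) (.g (nat_lit 4) .nil .nil)))) (.nd (nat_lit 6) 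
(.lf (nat_lit 5174) (.g (nat_lit 780) (.e (nat_lit 284) (nat_lit 21) (.e (nat_lit 336027) (nat_lit 3) (.e (nat_lit 98369) (nat_lit 28) .nil))) .nil)) 
(.lf (nat_lit 5238) (.g (nat_lit 1191) (.e (nat_lit 284) (nat_lit 21) (.e (nat_lit 336088) (nat_lit 9) (.e (nat_lit 336019) (nat_lit 3) (.e (nat_lit 98319) (nat_lit 17) .nil)))) .nil))))) (.nd (nat_lit 4) (.nd (nat_lit 5) (.nd (nat_lit 6) 
(.lf (nat_lit 5134) (.g (nat_lit 3127) (.e (nat_lit 284) (nat_lit 21) (.e (nat_lit 336012) (nat_lit 2) (.e (nat_lit 90176) (nat_lit 15) (.e (nat_lit 188447) (nat_lit 22) (.e (nat_lit 196661) (nat_lit 12) (.e (nat_lit 57492) (nat_lit 34) (.e (nat_lit 606236) (nat_lit 9) .nil))))))) (.g (nat_lit 6) .nil .nil))) 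
(.lf (nat_lit 5198) (.g (nat_lit 2030) (.e (nat_lit 284) (nat_lit 21) (.e (nat_lit 336027) (nat_lit 3) (.e (nat_lit 98372) (nat_lit 29) (.e (nat_lit 450586) (nat_lit 10) (.e (nat_lit 573478) (nat_lit 12) .nil))))) .nil))) (.nd (nat_lit 6) 
(.lf (nat_lit 5166) (.g (nat_lit 2314) (.e (nat_lit 284) (nat_lit 21) (.e (nat_lit 336021) (nat_lit 3) (.e (nat_lit 98365) (nat_lit 26) (.e (nat_lit 426188) (nat_lit 9) (.e (nat_lit 426438) (nat_lit 18) (.e (nat_lit 98338) (nat_lit 19) (.e (nat_lit 213013) (nat_lit 9) .nil))))))) (.g (nat_lit 4) .nil .nil))) 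
(.lf (nat_lit 5230) (.g (nat_lit 1586) (.e (nat_lit 284) (nat_lit 21) (.e (nat_lit 336076) (nat_lit 9) (.e (nat_lit 336454) (nat_lit 34) (.e (nat_lit 483366) (nat_lit 18) (.e (nat_lit 57848) (nat_lit 252) (.e (nat_lit 57375) (nat_lit 2) (.e (nat_lit 90140) (nat_lit 9) .nil))))))) (.g (nat_lit 4) .nil .nil))))) (.nd (nat_lit 5) (.nd (nat_lit 6) 
(.lf (nat_lit 5150) (.g (nat_lit 2198) (.e (nat_lit 284) (nat_lit 21) (.e (nat_lit 336012) (nat_lit 2) (.e (nat_lit 90176) (nat_lit 15) (.e (nat_lit 188450) (nat_lit 23) (.e (nat_lit 204830) (nat_lit 18) (.e (nat_lit 57777) (nat_lit 233) (.e (nat_lit 2479) (nat_lit 157) .nil))))))) (.g (nat_lit 4) .nil .nil))) 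
(.lf (nat_lit 5214) (.g (nat_lit 2912) (.e (nat_lit 284) (nat_lit 21) (.e (nat_lit 336027) (nat_lit 3) (.e (nat_lit 98373) (nat_lit 29) (.e (nat_lit 450588) (nat_lit 10) (.e (nat_lit 573475) (nat_lit 12) (.e (nat_lit 57574) (nat_lit 55) (.e (nat_lit 778404) (nat_lit 9) .nil))))))) (.g (nat_lit 4) .nil .nil)))) (.nd (nat_lit 6) 
(.lf (nat_lit 5182) (.g (nat_lit 2093) (.e (nat_lit 284) (nat_lit 21) (.e (nat_lit 336027) (nat_lit 3) (.e (nat_lit 98372) (nat_lit 29) (.e (nat_lit 450579) (nat_lit 5) (.e (nat_lit 532501) (nat_lit 1) .nil))))) .nil)) 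
(.lf (nat_lit 5246) (.g (nat_lit 1534) (.e (nat_lit 284) (nat_lit 21) (.e (nat_lit 336088) (nat_lit 9) (.e (nat_lit 336443) (nat_lit 32) (.e (nat_lit 466969) (nat_lit 21) .nil)))) .nil)))))))) (.nd (nat_lit 1) (.nd (nat_lit 2) (.nd (nat_lit 3) (.nd (nat_lit 4) (.nd (nat_lit 5) (.nd (nat_lit 6) 
(.lf (nat_lit 5121) (.g (nat_lit 2957) (.e (nat_lit 284) (nat_lit 21) (.e (nat_lit 336004) (nat_lit 2) (.e (nat_lit 90176) (nat_lit 15) (.e (nat_lit 188450) (nat_lit 23) (.e (nat_lit 204821) (nat_lit 17) (.e (nat_lit 1918) (nat_lit 130) (.e (nat_lit 606236) (nat_lit 9) .nil))))))) (.g (nat_lit 5) .nil .nil))) 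
(.lf (nat_lit 5185) (.g (nat_lit 2441) (.e (nat_lit 284) (nat_lit 21) (.e (nat_lit 336027) (nat_lit 3) (.e (nat_lit 98372) (nat_lit 29) (.e (nat_lit 450579) (nat_lit 5) (.e (nat_lit 532503) (nat_lit 1) (.e (nat_lit 57777) (nat_lit 233) (.e (nat_lit 2454) (nat_lit 157) .nil))))))) (.g (nat_lit 4) .nil .nil)))) (.nd (nat_lit 6) 
(.lf (nat_lit 5153) (.g (nat_lit 555) (.e (nat_lit 284) (nat_lit 21) (.e (nat_lit 336012) (nat_lit 2) (.e (nat_lit 90185) (nat_lit 17) .nil))) .nil)) 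
(.lf (nat_lit 5217) (.g (nat_lit 2207) (.e (nat_lit 284) (nat_lit 21) (.e (nat_lit 336076) (nat_lit 9) (.e (nat_lit 336261) (nat_lit 15) (.e (nat_lit 3307) (nat_lit 202) (.e (nat_lit 573485) (nat_lit 13) (.e (nat_lit 65619) (nat_lit 10) (.e (nat_lit 344129) (nat_lit 26) (.e (nat_lit 557074) (nat_lit 9) .nil)))))))) (.g (nat_lit 4) .nil .nil))))) (.nd (nat_lit 5) (.nd (nat_lit 6) 
(.lf (nat_lit 5137) (.g (nat_lit 2063) (.e (nat_lit 284) (nat_lit 21) (.e (nat_lit 336012) (nat_lit 2) (.e (nat_lit 90176) (nat_lit 15) (.e (nat_lit 188450) (nat_lit 23) (.e (nat_lit 204815) (nat_lit 17) .nil))))) .nil)) 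
(.lf (nat_lit 5201) (.g (nat_lit 2008) (.e (nat_lit 284) (nat_lit 21) (.e (nat_lit 336027) (nat_lit 3) (.e (nat_lit 98372) (nat_lit 29) (.e (nat_lit 450587) (nat_lit 10) .nil)))) .nil))) (.nd (nat_lit 6) 
(.lf (nat_lit 5169) (.g (nat_lit 2330) (.e (nat_lit 284) (nat_lit 21) (.e (nat_lit 336021) (nat_lit 3) (.e (nat_lit 98365) (nat_lit 26) (.e (nat_lit 426306) (nat_lit 12) (.e (nat_lit 475177) (nat_lit 24) (.e (nat_lit 516124) (nat_lit 2) (.e (nat_lit 213019) (nat_lit 9) .nil))))))) (.g (nat_lit 4) .nil .nil))) 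
(.lf (nat_lit 5233) (.g (nat_lit 1206) (.e (nat_lit 284) (nat_lit 21) (.e (nat_lit 336078) (nat_lit 9) (.e (nat_lit 336443) (nat_lit 32) (.e (nat_lit 466969) (nat_lit 21) .nil)))) .nil))))) (.nd (nat_lit 4) (.nd (nat_lit 5) (.nd (nat_lit 6) 
(.lf (nat_lit 5129) (.g (nat_lit 2826) (.e (nat_lit 284) (nat_lit 21) (.e (nat_lit 336011) (nat_lit 2) (.e (nat_lit 90170) (nat_lit 13) (.e (nat_lit 172106) (nat_lit 10) (.e (nat_lit 434231) (nat_lit 23) (.e (nat_lit 532499) (nat_lit 1) (.e (nat_lit 57778) (nat_lit 233) (.e (nat_lit 2454) (nat_lit 157) .nil)))))))) (.g (nat_lit 4) .nil .nil))) 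
(.lf (nat_lit 5193) (.g (nat_lit 2345) (.e (nat_lit 284) (nat_lit 21) (.e (nat_lit 336027) (nat_lit 3) (.e (nat_lit 98372) (nat_lit 29) (.e (nat_lit 450586) (nat_lit 10) (.e (nat_lit 573477) (nat_lit 12) (.e (nat_lit 57574) (nat_lit 55) (.e (nat_lit 778385) (nat_lit 9) .nil))))))) (.g (nat_lit 4) .nil .nil)))) (.nd (nat_lit 6) 
(.lf (nat_lit 5161) (.g (nat_lit 687) (.e (nat_lit 284) (nat_lit 21) (.e (nat_lit 336021) (nat_lit 3) (.e (nat_lit 98365) (nat_lit 26) .nil))) .nil)) 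
(.lf (nat_lit 5225) (.g (nat_lit 1513) (.e (nat_lit 284) (nat_lit 21) (.e (nat_lit 336076) (nat_lit 9) (.e (nat_lit 336443) (nat_lit 32) (.e (nat_lit 466972) (nat_lit 21) (.e (nat_lit 164332) (nat_lit 230) .nil))))) .nil)))) (.nd (nat_lit 5) (.nd (nat_lit 6) 
(.lf (nat_lit 5145) (.g (nat_lit 2346) (.e (nat_lit 284) (nat_lit 21) (.e (nat_lit 336012) (nat_lit 2) (.e (nat_lit 90176) (nat_lit 15) (.e (nat_lit 188450) (nat_lit 23) (.e (nat_lit 204821) (nat_lit 17) (.e (nat_lit 1915) (nat_lit 130) (.e (nat_lit 606236) (nat_lit 9) .nil))))))) (.g (nat_lit 4) .nil .nil))) 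
(.lf (nat_lit 5209) (.g (nat_lit 3827) (.e (nat_lit 284) (nat_lit 21) (.e (nat_lit 336027) (nat_lit 3) (.e (nat_lit 98373) (nat_lit 29) (.e (nat_lit 450587) (nat_lit 10) (.e (nat_lit 573477) (nat_lit 12) (.e (nat_lit 57575) (nat_lit 55) (.e (nat_lit 778404) (nat_lit 9) .nil))))))) (.g (nat_lit 5) .nil .nil)))) (.nd (nat_lit 6) 
(.lf (nat_lit 5177) (.g (nat_lit 1753) (.e (nat_lit 284) (nat_lit 21) (.e (nat_lit 336027) (nat_lit 3) (.e (nat_lit 98372) (nat_lit 29) (.e (nat_lit 458496) (nat_lit 3) .nil)))) .nil)) 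
(.lf (nat_lit 5241) (.g (nat_lit 2000) (.e (nat_lit 284) (nat_lit 21) (.e (nat_lit 336088) (nat_lit 9) (.e (nat_lit 336019) (nat_lit 3) (.e (nat_lit 98388) (nat_lit 33) (.e (nat_lit 491560) (nat_lit 10) .nil))))) .nil)))))) (.nd (nat_lit 3) (.nd (nat_lit 4) (.nd (nat_lit 5) (.nd (nat_lit 6) 
(.lf (nat_lit 5125) (.g (nat_lit 1152) (.e (nat_lit 284) (nat_lit 21) (.e (nat_lit 336004) (nat_lit 2) (.e (nat_lit 90185) (nat_lit 17) (.e (nat_lit 237601) (nat_lit 9) .nil)))) .nil)) 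
(.lf (nat_lit 5189) (.g (nat_lit 3192) (.e (nat_lit 284) (nat_lit 21) (.e (nat_lit 336027) (nat_lit 3) (.e (nat_lit 98372) (nat_lit 29) (.e (nat_lit 450579) (nat_lit 5) (.e (nat_lit 532504) (nat_lit 1) (.e (nat_lit 57777) (nat_lit 233) (.e (nat_lit 2454) (nat_lit 157) .nil))))))) (.g (nat_lit 5) .nil .nil)))) (.nd (nat_lit 6) 
(.lf (nat_lit 5157) (.g (nat_lit 2601) (.e (nat_lit 284) (nat_lit 21) (.e (nat_lit 336021) (nat_lit 3) (.e (nat_lit 98313) (nat_lit 9) (.e (nat_lit 336012) (nat_lit 2) (.e (nat_lit 90158) (nat_lit 11) (.e (nat_lit 24604) (nat_lit 2) (.e (nat_lit 90146) (nat_lit 9) .nil))))))) (.g (nat_lit 4) .nil .nil))) 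
(.lf (nat_lit 5221) (.g (nat_lit 1404) (.e (nat_lit 284) (nat_lit 21) (.e (nat_lit 336076) (nat_lit 9) (.e (nat_lit 336443) (nat_lit 32) (.e (nat_lit 466969) (nat_lit 21) (.e (nat_lit 164332) (nat_lit 230) .nil))))) .nil)))) (.nd (nat_lit 5) (.nd (nat_lit 6) 
(.lf (nat_lit 5141) (.g (nat_lit 2072) (.e (nat_lit 284) (nat_lit 21) (.e (nat_lit 336012) (nat_lit 2) (.e (nat_lit 90176) (nat_lit 15) (.e (nat_lit 188450) (nat_lit 23) (.e (nat_lit 204816) (nat_lit 17) .nil))))) .nil)) 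
(.lf (nat_lit 5205) (.g (nat_lit 3371) (.e (nat_lit 284) (nat_lit 21) (.e (nat_lit 336027) (nat_lit 3) (.e (nat_lit 98373) (nat_lit 29) (.e (nat_lit 450587) (nat_lit 10) (.e (nat_lit 573477) (nat_lit 12) (.e (nat_lit 57574) (nat_lit 55) (.e (nat_lit 778401) (nat_lit 9) .nil))))))) (.g (nat_lit 5) .nil .nil)))) (.nd (nat_lit 6) 
(.lf (nat_lit 5173) (.g (nat_lit 1068) (.e (nat_lit 284) (nat_lit 21) (.e (nat_lit 336021) (nat_lit 3) (.e (nat_lit 98374) (nat_lit 29) .nil))) .nil)) 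
(.lf (nat_lit 5237) (.g (nat_lit 2195) (.e (nat_lit 284) (nat_lit 21) (.e (nat_lit 336086) (nat_lit 9) (.e (nat_lit 336260) (nat_lit 15) (.e (nat_lit 3307) (nat_lit 202) (.e (nat_lit 573485) (nat_lit 13) (.e (nat_lit 65619) (nat_lit 10) (.e (nat_lit 344129) (nat_lit 26) (.e (nat_lit 557074) (nat_lit 9) .nil)))))))) (.g (nat_lit 4) .nil .nil)))))) (.nd (nat_lit 4) (.nd (nat_lit 5) (.nd (nat_lit 6) 
(.lf (nat_lit 5133) (.g (nat_lit 526) (.e (nat_lit 284) (nat_lit 21) (.e (nat_lit 336012) (nat_lit 2) (.e (nat_lit 90176) (nat_lit 15) .nil))) .nil)) 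
(.lf (nat_lit 5197) (.g (nat_lit 3025) (.e (nat_lit 284) (nat_lit 21) (.e (nat_lit 336027) (nat_lit 3) (.e (nat_lit 98372) (nat_lit 29) (.e (nat_lit 450586) (nat_lit 10) (.e (nat_lit 573477) (nat_lit 12) (.e (nat_lit 57575) (nat_lit 55) (.e (nat_lit 778404) (nat_lit 9) .nil))))))) (.g (nat_lit 5) .nil .nil)))) (.nd (nat_lit 6) 
(.lf (nat_lit 5165) (.g (nat_lit 3052) (.e (nat_lit 284) (nat_lit 21) (.e (nat_lit 336021) (nat_lit 3) (.e (nat_lit 98365) (nat_lit 26) (.e (nat_lit 426188) (nat_lit 9) (.e (nat_lit 426436) (nat_lit 18) (.e (nat_lit 98338) (nat_lit 19) (.e (nat_lit 213013) (nat_lit 9) .nil))))))) (.g (nat_lit 5) .nil .nil))) 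
(.lf (nat_lit 5229) (.g (nat_lit 1662) (.e (nat_lit 284) (nat_lit 21) (.e (nat_lit 336076) (nat_lit 9) (.e (nat_lit 336454) (nat_lit 34) (.e (nat_lit 483366) (nat_lit 18) (.e (nat_lit 57848) (nat_lit 252) (.e (nat_lit 57372) (nat_lit 2) (.e (nat_lit 90121) (nat_lit 9) .nil))))))) (.g (nat_lit 4) .nil .nil))))) (.nd (nat_lit 5) (.nd (nat_lit 6) 
(.lf (nat_lit 5149) (.g (nat_lit 2031) (.e (nat_lit 284) (nat_lit 21) (.e (nat_lit 336012) (nat_lit 2) (.e (nat_lit 90176) (nat_lit 15) (.e (nat_lit 188450) (nat_lit 23) (.e (nat_lit 204830) (nat_lit 18) .nil))))) .nil)) 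
(.lf (nat_lit 5213) (.g (nat_lit 3192) (.e (nat_lit 284) (nat_lit 21) (.e (nat_lit 336027) (nat_lit 3) (.e (nat_lit 98373) (nat_lit 29) (.e (nat_lit 450588) (nat_lit 10) (.e (nat_lit 573475) (nat_lit 12) (.e (nat_lit 57574) (nat_lit 55) (.e (nat_lit 778403) (nat_lit 9) .nil))))))) (.g (nat_lit 4) .nil .nil)))) (.nd (nat_lit 6) 
(.lf (nat_lit 5181) (.g (nat_lit 2176) (.e (nat_lit 284) (nat_lit 21) (.e (nat_lit 336027) (nat_lit 3) (.e (nat_lit 98372) (nat_lit 29) (.e (nat_lit 450579) (nat_lit 5) (.e (nat_lit 532499) (nat_lit 1) .nil))))) .nil)) 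
(.lf (nat_lit 5245) (.g (nat_lit 5310) (.e (nat_lit 284) (nat_lit 21) (.e (nat_lit 336088) (nat_lit 9) (.e (nat_lit 336240) (nat_lit 15) (.e (nat_lit 3309) (nat_lit 202) (.e (nat_lit 573485) (nat_lit 13) (.e (nat_lit 65619) (nat_lit 10) (.e (nat_lit 344129) (nat_lit 26) (.e (nat_lit 557074) (nat_lit 9) .nil)))))))) (.g (nat_lit 0) .nil .nil)))))))) 
(.nd (nat_lit 2) (.nd (nat_lit 3) (.nd (nat_lit 4) (.nd (nat_lit 5) (.nd (nat_lit 6) 
(.lf (nat_lit 5123) (.g (nat_lit 2266) (.e (nat_lit 284) (nat_lit 21) (.e (nat_lit 336004) (nat_lit 2) (.e (nat_lit 90176) (nat_lit 15) (.e (nat_lit 188450) (nat_lit 23) (.e (nat_lit 204830) (nat_lit 18) .nil))))) .nil)) 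
(.lf (nat_lit 5187) (.g (nat_lit 2276) (.e (nat_lit 284) (nat_lit 21) (.e (nat_lit 336027) (nat_lit 3) (.e (nat_lit 98372) (nat_lit 29) (.e (nat_lit 450579) (nat_lit 5) (.e (nat_lit 532503) (nat_lit 1) (.e (nat_lit 65280) (nat_lit 233) (.e (nat_lit 2475) (nat_lit 157) .nil))))))) (.g (nat_lit 4) .nil .nil)))) (.nd (nat_lit 6) 
(.lf (nat_lit 5155) (.g (nat_lit 1829) (.e (nat_lit 284) (nat_lit 21) (.e (nat_lit 336021) (nat_lit 3) (.e (nat_lit 98313) (nat_lit 9) (.e (nat_lit 336004) (nat_lit 2) .nil)))) .nil)) 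
(.lf (nat_lit 5219) (.g (nat_lit 2315) (.e (nat_lit 284) (nat_lit 21) (.e (nat_lit 336076) (nat_lit 9) (.e (nat_lit 336432) (nat_lit 30) (.e (nat_lit 450595) (nat_lit 17) (.e (nat_lit 663584) (nat_lit 12) (.e (nat_lit 164007) (nat_lit 41) (.e (nat_lit 663580) (nat_lit 9) .nil))))))) (.g (nat_lit 4) .nil .nil))))) (.nd (nat_lit 5) (.nd (nat_lit 6) 
(.lf (nat_lit 5139) (.g (nat_lit 2387) (.e (nat_lit 284) (nat_lit 21) (.e (nat_lit 336012) (nat_lit 2) (.e (nat_lit 90176) (nat_lit 15) (.e (nat_lit 188450) (nat_lit 23) (.e (nat_lit 204815) (nat_lit 17) (.e (nat_lit 1915) (nat_lit 130) (.e (nat_lit 606238) (nat_lit 9) .nil))))))) (.g (nat_lit 4) .nil .nil))) 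
(.lf (nat_lit 5203) (.g (nat_lit 2751) (.e (nat_lit 284) (nat_lit 21) (.e (nat_lit 336027) (nat_lit 3) (.e (nat_lit 98373) (nat_lit 29) (.e (nat_lit 450587) (nat_lit 10) (.e (nat_lit 573477) (nat_lit 12) .nil))))) .nil))) (.nd (nat_lit 6) 
(.lf (nat_lit 5171) (.g (nat_lit 1068) (.e (nat_lit 284) (nat_lit 21) (.e (nat_lit 336021) (nat_lit 3) (.e (nat_lit 98369) (nat_lit 28) .nil))) .nil)) 
(.lf (nat_lit 5235) (.g (nat_lit 1928) (.e (nat_lit 284) (nat_lit 21) (.e (nat_lit 336078) (nat_lit 9) (.e (nat_lit 336443) (nat_lit 32) (.e (nat_lit 466969) (nat_lit 21) (.e (nat_lit 164332) (nat_lit 230) (.e (nat_lit 163878) (nat_lit 4) (.e (nat_lit 213013) (nat_lit 9) .nil))))))) (.g (nat_lit 4) .nil .nil)))))) (.nd (nat_lit 4) (.nd (nat_lit 5) (.nd (nat_lit 6) 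
(.lf (nat_lit 5131) (.g (nat_lit 3522) (.e (nat_lit 284) (nat_lit 21) (.e (nat_lit 336011) (nat_lit 2) (.e (nat_lit 90170) (nat_lit 13) (.e (nat_lit 172113) (nat_lit 10) (.e (nat_lit 434247) (nat_lit 28) .nil))))) .nil)) 
(.lf (nat_lit 5195) (.g (nat_lit 2247) (.e (nat_lit 284) (nat_lit 21) (.e (nat_lit 336027) (nat_lit 3) (.e (nat_lit 98372) (nat_lit 29) (.e (nat_lit 450586) (nat_lit 10) (.e (nat_lit 573477) (nat_lit 12) (.e (nat_lit 57575) (nat_lit 55) (.e (nat_lit 778353) (nat_lit 9) .nil))))))) (.g (nat_lit 4) .nil .nil)))) (.nd (nat_lit 6) 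
(.lf (nat_lit 5163) (.g (nat_lit 2822) (.e (nat_lit 284) (nat_lit 21) (.e (nat_lit 336021) (nat_lit 3) (.e (nat_lit 98365) (nat_lit 26) (.e (nat_lit 426187) (nat_lit 9) (.e (nat_lit 426436) (nat_lit 18) (.e (nat_lit 98338) (nat_lit 19) (.e (nat_lit 213013) (nat_lit 9) .nil))))))) (.g (nat_lit 5) .nil .nil))) 
(.lf (nat_lit 5227) (.g (nat_lit 2324) (.e (nat_lit 284) (nat_lit 21) (.e (nat_lit 336076) (nat_lit 9) (.e (nat_lit 336443) (nat_lit 32) (.e (nat_lit 466972) (nat_lit 21) (.e (nat_lit 164332) (nat_lit 230) (.e (nat_lit 163878) (nat_lit 4) (.e (nat_lit 213013) (nat_lit 9) .nil))))))) (.g (nat_lit 5) .nil .nil))))) (.nd (nat_lit 5) (.nd (nat_lit 6) 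
(.lf (nat_lit 5147) (.g (nat_lit 3036) (.e (nat_lit 284) (nat_lit 21) (.e (nat_lit 336012) (nat_lit 2) (.e (nat_lit 90176) (nat_lit 15) (.e (nat_lit 188450) (nat_lit 23) (.e (nat_lit 204821) (nat_lit 17) (.e (nat_lit 1918) (nat_lit 130) (.e (nat_lit 606236) (nat_lit 9) .nil))))))) (.g (nat_lit 5) .nil .nil))) 
(.lf (nat_lit 5211) (.g (nat_lit 3015) (.e (nat_lit 284) (nat_lit 21) (.e (nat_lit 336027) (nat_lit 3) (.e (nat_lit 98373) (nat_lit 29) (.e (nat_lit 450587) (nat_lit 10) (.e (nat_lit 573478) (nat_lit 12) (.e (nat_lit 57574) (nat_lit 55) (.e (nat_lit 778385) (nat_lit 9) .nil))))))) (.g (nat_lit 4) .nil .nil)))) (.nd (nat_lit 6) 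
(.lf (nat_lit 5179) (.g (nat_lit 2266) (.e (nat_lit 284) (nat_lit 21) (.e (nat_lit 336027) (nat_lit 3) (.e (nat_lit 98372) (nat_lit 29) (.e (nat_lit 450579) (nat_lit 5) (.e (nat_lit 532484) (nat_lit 0) .nil))))) .nil)) 
(.lf (nat_lit 5243) (.g (nat_lit 1244) (.e (nat_lit 284) (nat_lit 21) (.e (nat_lit 336088) (nat_lit 9) (.e (nat_lit 336019) (nat_lit 3) (.e (nat_lit 98389) (nat_lit 33) .nil)))) .nil)))))) (.nd (nat_lit 3) (.nd (nat_lit 4) (.nd (nat_lit 5) (.nd (nat_lit 6) 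
(.lf (nat_lit 5127) (.g (nat_lit 1789) (.e (nat_lit 284) (nat_lit 21) (.e (nat_lit 336004) (nat_lit 2) (.e (nat_lit 90185) (nat_lit 17) (.e (nat_lit 237605) (nat_lit 9) (.e (nat_lit 426436) (nat_lit 18) (.e (nat_lit 98338) (nat_lit 19) (.e (nat_lit 213013) (nat_lit 9) .nil))))))) (.g (nat_lit 4) .nil .nil))) 
(.lf (nat_lit 5191) (.g (nat_lit 2080) (.e (nat_lit 284) (nat_lit 21) (.e (nat_lit 336027) (nat_lit 3) (.e (nat_lit 98372) (nat_lit 29) (.e (nat_lit 450586) (nat_lit 10) (.e (nat_lit 573475) (nat_lit 12) (.e (nat_lit 57574) (nat_lit 55) (.e (nat_lit 778403) (nat_lit 9) .nil))))))) (.g (nat_lit 4) .nil .nil)))) (.nd (nat_lit 6) 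
(.lf (nat_lit 5159) (.g (nat_lit 1899) (.e (nat_lit 284) (nat_lit 21) (.e (nat_lit 336021) (nat_lit 3) (.e (nat_lit 98313) (nat_lit 9) (.e (nat_lit 336027) (nat_lit 3) .nil)))) .nil)) 
(.lf (nat_lit 5223) (.g (nat_lit 2322) (.e (nat_lit 284) (nat_lit 21) (.e (nat_lit 336076) (nat_lit 9) (.e (nat_lit 336443) (nat_lit 32) (.e (nat_lit 466969) (nat_lit 21) (.e (nat_lit 164332) (nat_lit 230) (.e (nat_lit 163878) (nat_lit 4) (.e (nat_lit 213013) (nat_lit 9) .nil))))))) (.g (nat_lit 5) .nil .nil))))) (.nd (nat_lit 5) (.nd (nat_lit 6) 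
(.lf (nat_lit 5143) (.g (nat_lit 2655) (.e (nat_lit 284) (nat_lit 21) (.e (nat_lit 336012) (nat_lit 2) (.e (nat_lit 90176) (nat_lit 15) (.e (nat_lit 188450) (nat_lit 23) (.e (nat_lit 204817) (nat_lit 17) (.e (nat_lit 1919) (nat_lit 130) (.e (nat_lit 606236) (nat_lit 9) .nil))))))) (.g (nat_lit 5) .nil .nil))) 
(.lf (nat_lit 5207) (.g (nat_lit 4788) (.e (nat_lit 284) (nat_lit 21) (.e (nat_lit 336027) (nat_lit 3) (.e (nat_lit 98373) (nat_lit 29) (.e (nat_lit 450587) (nat_lit 10) (.e (nat_lit 573477) (nat_lit 12) (.e (nat_lit 57575) (nat_lit 55) (.e (nat_lit 778385) (nat_lit 9) .nil))))))) (.g (nat_lit 6) .nil .nil)))) (.nd (nat_lit 6) 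
(.lf (nat_lit 5175) (.g (nat_lit 664) (.e (nat_lit 284) (nat_lit 21) (.e (nat_lit 336027) (nat_lit 3) (.e (nat_lit 98370) (nat_lit 28) .nil))) .nil)) 
(.lf (nat_lit 5239) (.g (nat_lit 1297) (.e (nat_lit 284) (nat_lit 21) (.e (nat_lit 336088) (nat_lit 9) (.e (nat_lit 336019) (nat_lit 3) (.e (nat_lit 98320) (nat_lit 17) .nil)))) .nil))))) (.nd (nat_lit 4) (.nd (nat_lit 5) (.nd (nat_lit 6) 
(.lf (nat_lit 5135) (.g (nat_lit 2625) (.e (nat_lit 284) (nat_lit 21) (.e (nat_lit 336012) (nat_lit 2) (.e (nat_lit 90176) (nat_lit 15) (.e (nat_lit 188447) (nat_lit 22) (.e (nat_lit 196661) (nat_lit 12) (.e (nat_lit 57492) (nat_lit 34) (.e (nat_lit 606238) (nat_lit 9) .nil))))))) (.g (nat_lit 5) .nil .nil))) 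
(.lf (nat_lit 5199) (.g (nat_lit 2158) (.e (nat_lit 284) (nat_lit 21) (.e (nat_lit 336027) (nat_lit 3) (.e (nat_lit 98372) (nat_lit 29) (.e (nat_lit 450586) (nat_lit 10) (.e (nat_lit 573478) (nat_lit 12) (.e (nat_lit 57574) (nat_lit 55) (.e (nat_lit 778385) (nat_lit 9) .nil))))))) (.g (nat_lit 4) .nil .nil)))) (.nd (nat_lit 6) 
(.lf (nat_lit 5167) (.g (nat_lit 1382) (.e (nat_lit 284) (nat_lit 21) (.e (nat_lit 336021) (nat_lit 3) (.e (nat_lit 98365) (nat_lit 26) (.e (nat_lit 426298) (nat_lit 11) .nil)))) .nil)) 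
(.lf (nat_lit 5231) (.g (nat_lit 519) (.e (nat_lit 284) (nat_lit 21) (.e (nat_lit 336078) (nat_lit 9) (.e (nat_lit 336019) (nat_lit 3) .nil))) .nil)))) (.nd (nat_lit 5) (.nd (nat_lit 6) 
(.lf (nat_lit 5151) (.g (nat_lit 2048) (.e (nat_lit 284) (nat_lit 21) (.e (nat_lit 336012) (nat_lit 2) (.e (nat_lit 90178) (nat_lit 15) (.e (nat_lit 188456) (nat_lit 25) (.e (nat_lit 245773) (nat_lit 3) (.e (nat_lit 164006) (nat_lit 41) (.e (nat_lit 663580) (nat_lit 9) .nil))))))) (.g (nat_lit 4) .nil .nil))) 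
(.lf (nat_lit 5215) (.g (nat_lit 5088) (.e (nat_lit 284) (nat_lit 21) (.e (nat_lit 336076) (nat_lit 9) (.e (nat_lit 336240) (nat_lit 15) (.e (nat_lit 3309) (nat_lit 202) (.e (nat_lit 573485) (nat_lit 13) (.e (nat_lit 65619) (nat_lit 10) (.e (nat_lit 344129) (nat_lit 26) (.e (nat_lit 557074) (nat_lit 9) .nil)))))))) (.g (nat_lit 8) .nil .nil)))) (.nd (nat_lit 6) 
(.lf (nat_lit 5183) (.g (nat_lit 3301) (.e (nat_lit 284) (nat_lit 21) (.e (nat_lit 336027) (nat_lit 3) (.e (nat_lit 98372) (nat_lit 29) (.e (nat_lit 450579) (nat_lit 5) (.e (nat_lit 532501) (nat_lit 1) (.e (nat_lit 57777) (nat_lit 233) (.e (nat_lit 2454) (nat_lit 157) .nil))))))) (.g (nat_lit 5) .nil .nil))) 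
(.lf (nat_lit 5247) (.g (nat_lit 2319) (.e (nat_lit 284) (nat_lit 21) (.e (nat_lit 336088) (nat_lit 9) (.e (nat_lit 336443) (nat_lit 32) (.e (nat_lit 466969) (nat_lit 21) (.e (nat_lit 164332) (nat_lit 230) .nil))))) .nil)))))))))

noncomputable def tv069 : DT := (.nd (nat_lit 0) (.nd (nat_lit 1) (.nd (nat_lit 2) (.nd (nat_lit 3) (.nd (nat_lit 4) (.nd (nat_lit 5) 
(.lf (nat_lit 5248) (.g (nat_lit 1409) (.e (nat_lit 284) (nat_lit 21) (.e (nat_lit 336088) (nat_lit 9) (.e (nat_lit 336443) (nat_lit 32) (.e (nat_lit 466971) (nat_lit 21) .nil)))) .nil)) 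
(.lf (nat_lit 5280) (.g (nat_lit 4849) (.e (nat_lit 284) (nat_lit 21) (.e (nat_lit 336204) (nat_lit 12) (.e (nat_lit 385072) (nat_lit 31) (.e (nat_lit 573482) (nat_lit 13) (.e (nat_lit 65619) (nat_lit 10) (.e (nat_lit 344129) (nat_lit 26) (.e (nat_lit 557074) (nat_lit 9) .nil))))))) (.g (nat_lit 7) .nil .nil)))) (.nd (nat_lit 5) 
(.lf (nat_lit 5264) (.g (nat_lit 5115) (.e (nat_lit 284) (nat_lit 21) (.e (nat_lit 336196) (nat_lit 12) (.e (nat_lit 385072) (nat_lit 31) (.e (nat_lit 573481) (nat_lit 13) (.e (nat_lit 65619) (nat_lit 10) (.e (nat_lit 344129) (nat_lit 26) (.e (nat_lit 557074) (nat_lit 9) .nil))))))) (.g (nat_lit 0) .nil .nil))) 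
(.lf (nat_lit 5296) (.g (nat_lit 3869) (.e (nat_lit 284) (nat_lit 21) (.e (nat_lit 336204) (nat_lit 12) (.e (nat_lit 385074) (nat_lit 31) (.e (nat_lit 573491) (nat_lit 15) (.e (nat_lit 81946) (nat_lit 20) (.e (nat_lit 1858) (nat_lit 124) (.e (nat_lit 557078) (nat_lit 9) .nil))))))) (.g (nat_lit 5) .nil .nil))))) (.nd (nat_lit 4) (.nd (nat_lit 5) 
(.lf (nat_lit 5256) (.g (nat_lit 3627) (.e (nat_lit 284) (nat_lit 21) (.e (nat_lit 336193) (nat_lit 12) (.e (nat_lit 385074) (nat_lit 31) (.e (nat_lit 573484) (nat_lit 13) (.e (nat_lit 65610) (nat_lit 10) (.e (nat_lit 344129) (nat_lit 26) (.e (nat_lit 557074) (nat_lit 9) .nil))))))) (.g (nat_lit 6) .nil .nil))) 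
(.lf (nat_lit 5288) (.g (nat_lit 4955) (.e (nat_lit 284) (nat_lit 21) (.e (nat_lit 336204) (nat_lit 12) (.e (nat_lit 385074) (nat_lit 31) (.e (nat_lit 573481) (nat_lit 13) (.e (nat_lit 65619) (nat_lit 10) .nil))))) .nil))) (.nd (nat_lit 5) 
(.lf (nat_lit 5272) (.g (nat_lit 2184) (.e (nat_lit 284) (nat_lit 21) (.e (nat_lit 336201) (nat_lit 12) (.e (nat_lit 385073) (nat_lit 31) (.e (nat_lit 573484) (nat_lit 13) (.e (nat_lit 65617) (nat_lit 10) .nil))))) .nil)) 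
(.lf (nat_lit 5304) (.g (nat_lit 2322) (.e (nat_lit 284) (nat_lit 21) (.e (nat_lit 336213) (nat_lit 13) (.e (nat_lit 393229) (nat_lit 9) (.e (nat_lit 335995) (nat_lit 1) (.e (nat_lit 57848) (nat_lit 252) (.e (nat_lit 57375) (nat_lit 2) (.e (nat_lit 90140) (nat_lit 9) .nil))))))) (.g (nat_lit 5) .nil .nil)))))) (.nd (nat_lit 3) (.nd (nat_lit 4) (.nd (nat_lit 5) 
(.lf (nat_lit 5252) (.g (nat_lit 3120) (.e (nat_lit 284) (nat_lit 21) (.e (nat_lit 336091) (nat_lit 9) (.e (nat_lit 336295) (nat_lit 15) (.e (nat_lit 3305) (nat_lit 202) (.e (nat_lit 573485) (nat_lit 13) (.e (nat_lit 65619) (nat_lit 10) (.e (nat_lit 344129) (nat_lit 26) (.e (nat_lit 557074) (nat_lit 9) .nil)))))))) (.g (nat_lit 5) .nil .nil))) 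
(.lf (nat_lit 5284) (.g (nat_lit 3880) (.e (nat_lit 284) (nat_lit 21) (.e (nat_lit 336204) (nat_lit 12) (.e (nat_lit 385073) (nat_lit 31) (.e (nat_lit 573482) (nat_lit 13) (.e (nat_lit 65619) (nat_lit 10) (.e (nat_lit 344129) (nat_lit 26) (.e (nat_lit 557074) (nat_lit 9) .nil))))))) (.g (nat_lit 6) .nil .nil)))) (.nd (nat_lit 5) 
(.lf (nat_lit 5268) (.g (nat_lit 4311) (.e (nat_lit 284) (nat_lit 21) (.e (nat_lit 336196) (nat_lit 12) (.e (nat_lit 385072) (nat_lit 31) (.e (nat_lit 573485) (nat_lit 13) (.e (nat_lit 65619) (nat_lit 10) (.e (nat_lit 344129) (nat_lit 26) (.e (nat_lit 557074) (nat_lit 9) .nil))))))) (.g (nat_lit 0) .nil .nil))) 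
(.lf (nat_lit 5300) (.g (nat_lit 3235) (.e (nat_lit 284) (nat_lit 21) (.e (nat_lit 336213) (nat_lit 13) (.e (nat_lit 393225) (nat_lit 9) (.e (nat_lit 335995) (nat_lit 1) (.e (nat_lit 57848) (nat_lit 252) (.e (nat_lit 57375) (nat_lit 2) (.e (nat_lit 90140) (nat_lit 9) .nil))))))) (.g (nat_lit 6) .nil .nil))))) (.nd (nat_lit 4) (.nd (nat_lit 5) 
(.lf (nat_lit 5260) (.g (nat_lit 4878) (.e (nat_lit 284) (nat_lit 21) (.e (nat_lit 336194) (nat_lit 12) (.e (nat_lit 385073) (nat_lit 31) (.e (nat_lit 573482) (nat_lit 13) (.e (nat_lit 65619) (nat_lit 10) (.e (nat_lit 344129) (nat_lit 26) (.e (nat_lit 557074) (nat_lit 9) .nil))))))) (.g (nat_lit 7) .nil .nil))) 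
(.lf (nat_lit 5292) (.g (nat_lit 3903) (.e (nat_lit 284) (nat_lit 21) (.e (nat_lit 336204) (nat_lit 12) (.e (nat_lit 385074) (nat_lit 31) (.e (nat_lit 573483) (nat_lit 13) .nil)))) .nil))) (.nd (nat_lit 5) 
(.lf (nat_lit 5276) (.g (nat_lit 2272) (.e (nat_lit 284) (nat_lit 21) (.e (nat_lit 336203) (nat_lit 12) (.e (nat_lit 385072) (nat_lit 31) (.e (nat_lit 573484) (nat_lit 13) (.e (nat_lit 65617) (nat_lit 10) .nil))))) .nil)) 
(.lf (nat_lit 5308) (.g (nat_lit 1958) (.e (nat_lit 284) (nat_lit 21) (.e (nat_lit 336213) (nat_lit 13) (.e (nat_lit 393232) (nat_lit 17) (.e (nat_lit 7587) (nat_lit 406) .nil)))) .nil)))))) (.nd (nat_lit 2) (.nd (nat_lit 3) (.nd (nat_lit 4) (.nd (nat_lit 5) 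
(.lf (nat_lit 5250) (.g (nat_lit 1513) (.e (nat_lit 284) (nat_lit 21) (.e (nat_lit 336088) (nat_lit 9) (.e (nat_lit 336443) (nat_lit 32) (.e (nat_lit 466972) (nat_lit 21) .nil)))) .nil)) 
(.lf (nat_lit 5282) (.g (nat_lit 4242) (.e (nat_lit 284) (nat_lit 21) (.e (nat_lit 336204) (nat_lit 12) (.e (nat_lit 385072) (nat_lit 31) (.e (nat_lit 573484) (nat_lit 13) (.e (nat_lit 65617) (nat_lit 10) (.e (nat_lit 344130) (nat_lit 26) (.e (nat_lit 557074) (nat_lit 9) .nil))))))) (.g (nat_lit 6) .nil .nil)))) (.nd (nat_lit 5) 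
(.lf (nat_lit 5266) (.g (nat_lit 3492) (.e (nat_lit 284) (nat_lit 21) (.e (nat_lit 336196) (nat_lit 12) (.e (nat_lit 385072) (nat_lit 31) (.e (nat_lit 573484) (nat_lit 13) (.e (nat_lit 65610) (nat_lit 10) (.e (nat_lit 344129) (nat_lit 26) (.e (nat_lit 557074) (nat_lit 9) .nil))))))) (.g (nat_lit 6) .nil .nil))) 
(.lf (nat_lit 5298) (.g (nat_lit 3496) (.e (nat_lit 284) (nat_lit 21) (.e (nat_lit 336213) (nat_lit 13) (.e (nat_lit 393225) (nat_lit 9) (.e (nat_lit 335995) (nat_lit 1) (.e (nat_lit 57848) (nat_lit 252) (.e (nat_lit 57372) (nat_lit 2) (.e (nat_lit 90121) (nat_lit 9) .nil))))))) (.g (nat_lit 7) .nil .nil))))) (.nd (nat_lit 4) (.nd (nat_lit 5) 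
(.lf (nat_lit 5258) (.g (nat_lit 3933) (.e (nat_lit 284) (nat_lit 21) (.e (nat_lit 336194) (nat_lit 12) (.e (nat_lit 385072) (nat_lit 31) (.e (nat_lit 573484) (nat_lit 13) (.e (nat_lit 65617) (nat_lit 10) (.e (nat_lit 344130) (nat_lit 26) (.e (nat_lit 557074) (nat_lit 9) .nil))))))) (.g (nat_lit 7) .nil .nil))) 
(.lf (nat_lit 5290) (.g (nat_lit 4211) (.e (nat_lit 284) (nat_lit 21) (.e (nat_lit 336204) (nat_lit 12) (.e (nat_lit 385074) (nat_lit 31) (.e (nat_lit 573482) (nat_lit 13) (.e (nat_lit 65610) (nat_lit 10) (.e (nat_lit 344129) (nat_lit 26) (.e (nat_lit 557074) (nat_lit 9) .nil))))))) (.g (nat_lit 4) .nil .nil)))) (.nd (nat_lit 5) 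
(.lf (nat_lit 5274) (.g (nat_lit 4103) (.e (nat_lit 284) (nat_lit 21) (.e (nat_lit 336202) (nat_lit 12) (.e (nat_lit 385074) (nat_lit 31) (.e (nat_lit 573485) (nat_lit 13) (.e (nat_lit 65619) (nat_lit 10) (.e (nat_lit 344129) (nat_lit 26) (.e (nat_lit 557074) (nat_lit 9) .nil))))))) (.g (nat_lit 7) .nil .nil))) 
(.lf (nat_lit 5306) (.g (nat_lit 1176) (.e (nat_lit 284) (nat_lit 21) (.e (nat_lit 336213) (nat_lit 13) (.e (nat_lit 393231) (nat_lit 17) .nil))) .nil))))) (.nd (nat_lit 3) (.nd (nat_lit 4) (.nd (nat_lit 5) 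
(.lf (nat_lit 5254) (.g (nat_lit 1522) (.e (nat_lit 284) (nat_lit 21) (.e (nat_lit 336165) (nat_lit 10) (.e (nat_lit 344126) (nat_lit 25) (.e (nat_lit 548874) (nat_lit 5) (.e (nat_lit 1598) (nat_lit 111) .nil))))) .nil)) 
(.lf (nat_lit 5286) (.g (nat_lit 3947) (.e (nat_lit 284) (nat_lit 21) (.e (nat_lit 336204) (nat_lit 12) (.e (nat_lit 385074) (nat_lit 31) (.e (nat_lit 573456) (nat_lit 9) .nil)))) .nil))) (.nd (nat_lit 5) 
(.lf (nat_lit 5270) (.g (nat_lit 2386) (.e (nat_lit 284) (nat_lit 21) (.e (nat_lit 336196) (nat_lit 12) (.e (nat_lit 385073) (nat_lit 31) (.e (nat_lit 573484) (nat_lit 13) (.e (nat_lit 65617) (nat_lit 10) (.e (nat_lit 344130) (nat_lit 26) (.e (nat_lit 557074) (nat_lit 9) .nil))))))) (.g (nat_lit 4) .nil .nil))) 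
(.lf (nat_lit 5302) (.g (nat_lit 2536) (.e (nat_lit 284) (nat_lit 21) (.e (nat_lit 336213) (nat_lit 13) (.e (nat_lit 393225) (nat_lit 9) (.e (nat_lit 335996) (nat_lit 1) (.e (nat_lit 57851) (nat_lit 252) (.e (nat_lit 57371) (nat_lit 2) (.e (nat_lit 90140) (nat_lit 9) .nil))))))) (.g (nat_lit 5) .nil .nil))))) (.nd (nat_lit 4) (.nd (nat_lit 5) 
(.lf (nat_lit 5262) (.g (nat_lit 3724) (.e (nat_lit 284) (nat_lit 21) (.e (nat_lit 336194) (nat_lit 12) (.e (nat_lit 385073) (nat_lit 31) (.e (nat_lit 573484) (nat_lit 13) (.e (nat_lit 65617) (nat_lit 10) (.e (nat_lit 344130) (nat_lit 26) (.e (nat_lit 557074) (nat_lit 9) .nil))))))) (.g (nat_lit 4) .nil .nil))) 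
(.lf (nat_lit 5294) (.g (nat_lit 1678) (.e (nat_lit 284) (nat_lit 21) (.e (nat_lit 336204) (nat_lit 12) (.e (nat_lit 385074) (nat_lit 31) (.e (nat_lit 573491) (nat_lit 15) .nil)))) .nil))) (.nd (nat_lit 5) 
(.lf (nat_lit 5278) (.g (nat_lit 3941) (.e (nat_lit 284) (nat_lit 21) (.e (nat_lit 336203) (nat_lit 12) (.e (nat_lit 385074) (nat_lit 31) (.e (nat_lit 573485) (nat_lit 13) (.e (nat_lit 65619) (nat_lit 10) (.e (nat_lit 344129) (nat_lit 26) (.e (nat_lit 557074) (nat_lit 9) .nil))))))) (.g (nat_lit 6) .nil .nil))) 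
(.lf (nat_lit 5310) (.g (nat_lit 2958) (.e (nat_lit 284) (nat_lit 21) (.e (nat_lit 336213) (nat_lit 13) (.e (nat_lit 393232) (nat_lit 17) (.e (nat_lit 7591) (nat_lit 407) (.e (nat_lit 73776) (nat_lit 26) (.e (nat_lit 778385) (nat_lit 9) .nil)))))) (.g (nat_lit 5) .nil .nil)))))))) (.nd (nat_lit 1) (.nd (nat_lit 2) (.nd (nat_lit 3) (.nd (nat_lit 4) (.nd (nat_lit 5) 
(.lf (nat_lit 5249) (.g (nat_lit 1826) (.e (nat_lit 284) (nat_lit 21) (.e (nat_lit 336088) (nat_lit 9) (.e (nat_lit 336443) (nat_lit 32) (.e (nat_lit 466971) (nat_lit 21) (.e (nat_lit 164327) (nat_lit 230) .nil))))) .nil)) 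
(.lf (nat_lit 5281) (.g (nat_lit 4369) (.e (nat_lit 284) (nat_lit 21) (.e (nat_lit 336204) (nat_lit 12) (.e (nat_lit 385072) (nat_lit 31) (.e (nat_lit 573484) (nat_lit 13) (.e (nat_lit 65610) (nat_lit 10) (.e (nat_lit 344129) (nat_lit 26) (.e (nat_lit 557074) (nat_lit 9) .nil))))))) (.g (nat_lit 7) .nil .nil)))) (.nd (nat_lit 5) 
(.lf (nat_lit 5265) (.g (nat_lit 4496) (.e (nat_lit 284) (nat_lit 21) (.e (nat_lit 336196) (nat_lit 12) (.e (nat_lit 385072) (nat_lit 31) (.e (nat_lit 573482) (nat_lit 13) (.e (nat_lit 65619) (nat_lit 10) (.e (nat_lit 344129) (nat_lit 26) (.e (nat_lit 557074) (nat_lit 9) .nil))))))) (.g (nat_lit 7) .nil .nil))) 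
(.lf (nat_lit 5297) (.g (nat_lit 2560) (.e (nat_lit 284) (nat_lit 21) (.e (nat_lit 336204) (nat_lit 12) (.e (nat_lit 385074) (nat_lit 31) (.e (nat_lit 573493) (nat_lit 15) (.e (nat_lit 81938) (nat_lit 20) .nil))))) .nil)))) (.nd (nat_lit 4) (.nd (nat_lit 5) 
(.lf (nat_lit 5257) (.g (nat_lit 4580) (.e (nat_lit 284) (nat_lit 21) (.e (nat_lit 336194) (nat_lit 12) (.e (nat_lit 385072) (nat_lit 31) (.e (nat_lit 573482) (nat_lit 13) (.e (nat_lit 65619) (nat_lit 10) (.e (nat_lit 344129) (nat_lit 26) (.e (nat_lit 557074) (nat_lit 9) .nil))))))) (.g (nat_lit 7) .nil .nil))) 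
(.lf (nat_lit 5289) (.g (nat_lit 3290) (.e (nat_lit 284) (nat_lit 21) (.e (nat_lit 336204) (nat_lit 12) (.e (nat_lit 385074) (nat_lit 31) (.e (nat_lit 573482) (nat_lit 13) (.e (nat_lit 65609) (nat_lit 10) (.e (nat_lit 344129) (nat_lit 26) (.e (nat_lit 557074) (nat_lit 9) .nil))))))) (.g (nat_lit 4) .nil .nil)))) (.nd (nat_lit 5) 
(.lf (nat_lit 5273) (.g (nat_lit 2557) (.e (nat_lit 284) (nat_lit 21) (.e (nat_lit 336202) (nat_lit 12) (.e (nat_lit 385074) (nat_lit 31) (.e (nat_lit 573482) (nat_lit 13) (.e (nat_lit 65619) (nat_lit 10) .nil))))) .nil)) 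
(.lf (nat_lit 5305) (.g (nat_lit 2121) (.e (nat_lit 284) (nat_lit 21) (.e (nat_lit 336213) (nat_lit 13) (.e (nat_lit 393229) (nat_lit 9) (.e (nat_lit 335996) (nat_lit 1) (.e (nat_lit 57851) (nat_lit 252) .nil))))) .nil))))) (.nd (nat_lit 3) (.nd (nat_lit 4) (.nd (nat_lit 5) 
(.lf (nat_lit 5253) (.g (nat_lit 2693) (.e (nat_lit 284) (nat_lit 21) (.e (nat_lit 336163) (nat_lit 10) (.e (nat_lit 344126) (nat_lit 25) (.e (nat_lit 548889) (nat_lit 9) (.e (nat_lit 65610) (nat_lit 10) .nil))))) .nil)) 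
(.lf (nat_lit 5285) (.g (nat_lit 3048) (.e (nat_lit 284) (nat_lit 21) (.e (nat_lit 336204) (nat_lit 12) (.e (nat_lit 385073) (nat_lit 31) (.e (nat_lit 573484) (nat_lit 13) (.e (nat_lit 65617) (nat_lit 10) .nil))))) .nil))) (.nd (nat_lit 5) 
(.lf (nat_lit 5269) (.g (nat_lit 4502) (.e (nat_lit 284) (nat_lit 21) (.e (nat_lit 336196) (nat_lit 12) (.e (nat_lit 385073) (nat_lit 31) (.e (nat_lit 573482) (nat_lit 13) (.e (nat_lit 65619) (nat_lit 10) (.e (nat_lit 344129) (nat_lit 26) (.e (nat_lit 557074) (nat_lit 9) .nil))))))) (.g (nat_lit 0) .nil .nil))) 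
(.lf (nat_lit 5301) (.g (nat_lit 2406) (.e (nat_lit 284) (nat_lit 21) (.e (nat_lit 336213) (nat_lit 13) (.e (nat_lit 393225) (nat_lit 9) (.e (nat_lit 335996) (nat_lit 1) (.e (nat_lit 57851) (nat_lit 252) (.e (nat_lit 57371) (nat_lit 2) (.e (nat_lit 90121) (nat_lit 9) .nil))))))) (.g (nat_lit 4) .nil .nil))))) (.nd (nat_lit 4) (.nd (nat_lit 5) 
(.lf (nat_lit 5261) (.g (nat_lit 4052) (.e (nat_lit 284) (nat_lit 21) (.e (nat_lit 336194) (nat_lit 12) (.e (nat_lit 385073) (nat_lit 31) (.e (nat_lit 573484) (nat_lit 13) (.e (nat_lit 65610) (nat_lit 10) (.e (nat_lit 344129) (nat_lit 26) (.e (nat_lit 557074) (nat_lit 9) .nil))))))) (.g (nat_lit 5) .nil .nil))) 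
(.lf (nat_lit 5293) (.g (nat_lit 4602) (.e (nat_lit 284) (nat_lit 21) (.e (nat_lit 336204) (nat_lit 12) (.e (nat_lit 385074) (nat_lit 31) (.e (nat_lit 573484) (nat_lit 13) (.e (nat_lit 65610) (nat_lit 10) (.e (nat_lit 344129) (nat_lit 26) (.e (nat_lit 557074) (nat_lit 9) .nil))))))) (.g (nat_lit 0) .nil .nil)))) (.nd (nat_lit 5) 
(.lf (nat_lit 5277) (.g (nat_lit 3997) (.e (nat_lit 284) (nat_lit 21) (.e (nat_lit 336203) (nat_lit 12) (.e (nat_lit 385074) (nat_lit 31) (.e (nat_lit 573484) (nat_lit 13) (.e (nat_lit 65617) (nat_lit 10) (.e (nat_lit 344130) (nat_lit 26) (.e (nat_lit 557074) (nat_lit 9) .nil))))))) (.g (nat_lit 7) .nil .nil))) 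
(.lf (nat_lit 5309) (.g (nat_lit 2662) (.e (nat_lit 284) (nat_lit 21) (.e (nat_lit 336213) (nat_lit 13) (.e (nat_lit 393232) (nat_lit 17) (.e (nat_lit 7591) (nat_lit 407) (.e (nat_lit 73775) (nat_lit 26) (.e (nat_lit 778385) (nat_lit 9) .nil)))))) (.g (nat_lit 4) .nil .nil))))))) (.nd (nat_lit 2) (.nd (nat_lit 3) (.nd (nat_lit 4) (.nd (nat_lit 5) 
(.lf (nat_lit 5251) (.g (nat_lit 2293) (.e (nat_lit 284) (nat_lit 21) (.e (nat_lit 336088) (nat_lit 9) (.e (nat_lit 336443) (nat_lit 32) (.e (nat_lit 466972) (nat_lit 21) (.e (nat_lit 164332) (nat_lit 230) .nil))))) .nil)) 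
(.lf (nat_lit 5283) (.g (nat_lit 5018) (.e (nat_lit 284) (nat_lit 21) (.e (nat_lit 336204) (nat_lit 12) (.e (nat_lit 385072) (nat_lit 31) (.e (nat_lit 573485) (nat_lit 13) (.e (nat_lit 65619) (nat_lit 10) (.e (nat_lit 344129) (nat_lit 26) (.e (nat_lit 557074) (nat_lit 9) .nil))))))) (.g (nat_lit 0) .nil .nil)))) (.nd (nat_lit 5) 
(.lf (nat_lit 5267) (.g (nat_lit 2385) (.e (nat_lit 284) (nat_lit 21) (.e (nat_lit 336196) (nat_lit 12) (.e (nat_lit 385072) (nat_lit 31) (.e (nat_lit 573484) (nat_lit 13) (.e (nat_lit 65617) (nat_lit 10) (.e (nat_lit 344130) (nat_lit 26) (.e (nat_lit 557074) (nat_lit 9) .nil))))))) (.g (nat_lit 4) .nil .nil))) 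
(.lf (nat_lit 5299) (.g (nat_lit 3732) (.e (nat_lit 284) (nat_lit 21) (.e (nat_lit 336213) (nat_lit 13) (.e (nat_lit 393225) (nat_lit 9) (.e (nat_lit 335995) (nat_lit 1) (.e (nat_lit 57848) (nat_lit 252) (.e (nat_lit 57372) (nat_lit 2) (.e (nat_lit 90140) (nat_lit 9) .nil))))))) (.g (nat_lit 7) .nil .nil))))) (.nd (nat_lit 4) (.nd (nat_lit 5) 
(.lf (nat_lit 5259) (.g (nat_lit 4679) (.e (nat_lit 284) (nat_lit 21) (.e (nat_lit 336194) (nat_lit 12) (.e (nat_lit 385072) (nat_lit 31) (.e (nat_lit 573485) (nat_lit 13) (.e (nat_lit 65619) (nat_lit 10) (.e (nat_lit 344129) (nat_lit 26) (.e (nat_lit 557074) (nat_lit 9) .nil))))))) (.g (nat_lit 0) .nil .nil))) 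
(.lf (nat_lit 5291) (.g (nat_lit 5829) (.e (nat_lit 284) (nat_lit 21) (.e (nat_lit 336204) (nat_lit 12) (.e (nat_lit 385074) (nat_lit 31) (.e (nat_lit 573482) (nat_lit 13) (.e (nat_lit 65619) (nat_lit 10) (.e (nat_lit 344129) (nat_lit 26) (.e (nat_lit 557074) (nat_lit 9) .nil))))))) (.g (nat_lit 7) .nil .nil)))) (.nd (nat_lit 5) 
(.lf (nat_lit 5275) (.g (nat_lit 3960) (.e (nat_lit 284) (nat_lit 21) (.e (nat_lit 336203) (nat_lit 12) (.e (nat_lit 385072) (nat_lit 31) (.e (nat_lit 573482) (nat_lit 13) (.e (nat_lit 65619) (nat_lit 10) (.e (nat_lit 344129) (nat_lit 26) (.e (nat_lit 557074) (nat_lit 9) .nil))))))) (.g (nat_lit 6) .nil .nil))) 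
(.lf (nat_lit 5307) (.g (nat_lit 2444) (.e (nat_lit 284) (nat_lit 21) (.e (nat_lit 336213) (nat_lit 13) (.e (nat_lit 393231) (nat_lit 17) (.e (nat_lit 7593) (nat_lit 407) (.e (nat_lit 73775) (nat_lit 26) (.e (nat_lit 778385) (nat_lit 9) .nil)))))) (.g (nat_lit 4) .nil .nil)))))) (.nd (nat_lit 3) (.nd (nat_lit 4) (.nd (nat_lit 5) 
(.lf (nat_lit 5255) (.g (nat_lit 2895) (.e (nat_lit 284) (nat_lit 21) (.e (nat_lit 336174) (nat_lit 10) (.e (nat_lit 344126) (nat_lit 25) (.e (nat_lit 548889) (nat_lit 9) (.e (nat_lit 65610) (nat_lit 10) (.e (nat_lit 344129) (nat_lit 26) (.e (nat_lit 557074) (nat_lit 9) .nil))))))) (.g (nat_lit 4) .nil .nil))) 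
(.lf (nat_lit 5287) (.g (nat_lit 5333) (.e (nat_lit 284) (nat_lit 21) (.e (nat_lit 336204) (nat_lit 12) (.e (nat_lit 385074) (nat_lit 31) (.e (nat_lit 573479) (nat_lit 13) (.e (nat_lit 65619) (nat_lit 10) (.e (nat_lit 344129) (nat_lit 26) (.e (nat_lit 557074) (nat_lit 9) .nil))))))) (.g (nat_lit 4) .nil .nil)))) (.nd (nat_lit 5) 
(.lf (nat_lit 5271) (.g (nat_lit 4282) (.e (nat_lit 284) (nat_lit 21) (.e (nat_lit 336196) (nat_lit 12) (.e (nat_lit 385073) (nat_lit 31) (.e (nat_lit 573485) (nat_lit 13) (.e (nat_lit 65619) (nat_lit 10) (.e (nat_lit 344129) (nat_lit 26) (.e (nat_lit 557074) (nat_lit 9) .nil))))))) (.g (nat_lit 0) .nil .nil))) 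
(.lf (nat_lit 5303) (.g (nat_lit 924) (.e (nat_lit 284) (nat_lit 21) (.e (nat_lit 336213) (nat_lit 13) (.e (nat_lit 393229) (nat_lit 9) (.e (nat_lit 335994) (nat_lit 1) .nil)))) .nil)))) (.nd (nat_lit 4) (.nd (nat_lit 5) 
(.lf (nat_lit 5263) (.g (nat_lit 4804) (.e (nat_lit 284) (nat_lit 21) (.e (nat_lit 336194) (nat_lit 12) (.e (nat_lit 385073) (nat_lit 31) (.e (nat_lit 573485) (nat_lit 13) (.e (nat_lit 65619) (nat_lit 10) (.e (nat_lit 344129) (nat_lit 26) (.e (nat_lit 557074) (nat_lit 9) .nil))))))) (.g (nat_lit 7) .nil .nil))) 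
(.lf (nat_lit 5295) (.g (nat_lit 2760) (.e (nat_lit 284) (nat_lit 21) (.e (nat_lit 336204) (nat_lit 12) (.e (nat_lit 385074) (nat_lit 31) (.e (nat_lit 573491) (nat_lit 15) (.e (nat_lit 81946) (nat_lit 20) (.e (nat_lit 1846) (nat_lit 124) (.e (nat_lit 557077) (nat_lit 9) .nil))))))) (.g (nat_lit 4) .nil .nil)))) (.nd (nat_lit 5) 
(.lf (nat_lit 5279) (.g (nat_lit 2315) (.e (nat_lit 284) (nat_lit 21) (.e (nat_lit 336204) (nat_lit 12) (.e (nat_lit 385072) (nat_lit 31) (.e (nat_lit 573479) (nat_lit 13) (.e (nat_lit 65619) (nat_lit 10) (.e (nat_lit 344129) (nat_lit 26) (.e (nat_lit 557074) (nat_lit 9) .nil))))))) (.g (nat_lit 4) .nil .nil))) 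
(.lf (nat_lit 5311) (.g (nat_lit 2878) (.e (nat_lit 284) (nat_lit 21) (.e (nat_lit 336213) (nat_lit 13) (.e (nat_lit 393232) (nat_lit 17) (.e (nat_lit 7591) (nat_lit 407) (.e (nat_lit 73776) (nat_lit 26) (.e (nat_lit 778401) (nat_lit 9) .nil)))))) (.g (nat_lit 4) .nil .nil)))))))))

noncomputable def tv070 : DT := (.nd (nat_lit 0) (.nd (nat_lit 1) (.nd (nat_lit 2) (.nd (nat_lit 3) (.nd (nat_lit 4) (.nd (nat_lit 5) 
(.lf (nat_lit 5312) (.g (nat_lit 2752) (.e (nat_lit 284) (nat_lit 21) (.e (nat_lit 336213) (nat_lit 13) (.e (nat_lit 393232) (nat_lit 17) (.e (nat_lit 7591) (nat_lit 407) (.e (nat_lit 73776) (nat_lit 26) (.e (nat_lit 778403) (nat_lit 9) .nil)))))) (.g (nat_lit 4) .nil .nil))) 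
(.lf (nat_lit 5344) (.g (nat_lit 2449) (.e (nat_lit 284) (nat_lit 21) (.e (nat_lit 336213) (nat_lit 13) (.e (nat_lit 393281) (nat_lit 23) (.e (nat_lit 426100) (nat_lit 1) (.e (nat_lit 164332) (nat_lit 230) (.e (nat_lit 163878) (nat_lit 4) (.e (nat_lit 213000) (nat_lit 9) .nil))))))) (.g (nat_lit 5) .nil .nil)))) (.nd (nat_lit 5) 
(.lf (nat_lit 5328) (.g (nat_lit 2441) (.e (nat_lit 284) (nat_lit 21) (.e (nat_lit 336213) (nat_lit 13) (.e (nat_lit 393234) (nat_lit 17) (.e (nat_lit 7591) (nat_lit 407) (.e (nat_lit 73776) (nat_lit 26) .nil))))) .nil)) 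
(.lf (nat_lit 5360) (.g (nat_lit 2428) (.e (nat_lit 284) (nat_lit 21) (.e (nat_lit 336213) (nat_lit 13) (.e (nat_lit 393300) (nat_lit 27) (.e (nat_lit 491546) (nat_lit 9) (.e (nat_lit 336048) (nat_lit 6) (.e (nat_lit 147483) (nat_lit 9) .nil)))))) (.g (nat_lit 4) .nil .nil))))) (.nd (nat_lit 4) (.nd (nat_lit 5) 
(.lf (nat_lit 5320) (.g (nat_lit 2830) (.e (nat_lit 284) (nat_lit 21) (.e (nat_lit 336213) (nat_lit 13) (.e (nat_lit 393233) (nat_lit 17) (.e (nat_lit 7591) (nat_lit 407) (.e (nat_lit 73776) (nat_lit 26) (.e (nat_lit 778401) (nat_lit 9) .nil)))))) (.g (nat_lit 0) .nil .nil))) 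
(.lf (nat_lit 5352) (.g (nat_lit 1088) (.e (nat_lit 284) (nat_lit 21) (.e (nat_lit 336213) (nat_lit 13) (.e (nat_lit 393299) (nat_lit 27) .nil))) .nil))) (.nd (nat_lit 5) 
(.lf (nat_lit 5336) (.g (nat_lit 1172) (.e (nat_lit 284) (nat_lit 21) (.e (nat_lit 336213) (nat_lit 13) (.e (nat_lit 393264) (nat_lit 22) .nil))) .nil)) 
(.lf (nat_lit 5368) (.g (nat_lit 2353) (.e (nat_lit 284) (nat_lit 21) (.e (nat_lit 336213) (nat_lit 13) (.e (nat_lit 393301) (nat_lit 27) (.e (nat_lit 491546) (nat_lit 9) .nil)))) .nil))))) (.nd (nat_lit 3) (.nd (nat_lit 4) (.nd (nat_lit 5) 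
(.lf (nat_lit 5316) (.g (nat_lit 2508) (.e (nat_lit 284) (nat_lit 21) (.e (nat_lit 336213) (nat_lit 13) (.e (nat_lit 393233) (nat_lit 17) (.e (nat_lit 7591) (nat_lit 407) (.e (nat_lit 73775) (nat_lit 26) (.e (nat_lit 778385) (nat_lit 9) .nil)))))) (.g (nat_lit 5) .nil .nil))) 
(.lf (nat_lit 5348) (.g (nat_lit 2720) (.e (nat_lit 284) (nat_lit 21) (.e (nat_lit 336213) (nat_lit 13) (.e (nat_lit 393282) (nat_lit 24) (.e (nat_lit 434275) (nat_lit 39) (.e (nat_lit 663584) (nat_lit 12) (.e (nat_lit 164007) (nat_lit 41) (.e (nat_lit 663580) (nat_lit 9) .nil))))))) (.g (nat_lit 4) .nil .nil)))) (.nd (nat_lit 5) 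
(.lf (nat_lit 5332) (.g (nat_lit 2414) (.e (nat_lit 284) (nat_lit 21) (.e (nat_lit 336213) (nat_lit 13) (.e (nat_lit 393234) (nat_lit 17) (.e (nat_lit 7593) (nat_lit 407) (.e (nat_lit 73775) (nat_lit 26) .nil))))) .nil)) 
(.lf (nat_lit 5364) (.g (nat_lit 2985) (.e (nat_lit 284) (nat_lit 21) (.e (nat_lit 336213) (nat_lit 13) (.e (nat_lit 393300) (nat_lit 27) (.e (nat_lit 491558) (nat_lit 10) (.e (nat_lit 344180) (nat_lit 44) (.e (nat_lit 778401) (nat_lit 9) .nil)))))) (.g (nat_lit 5) .nil .nil))))) (.nd (nat_lit 4) (.nd (nat_lit 5) 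
(.lf (nat_lit 5324) (.g (nat_lit 2004) (.e (nat_lit 284) (nat_lit 21) (.e (nat_lit 336213) (nat_lit 13) (.e (nat_lit 393233) (nat_lit 17) (.e (nat_lit 7593) (nat_lit 407) (.e (nat_lit 73775) (nat_lit 26) (.e (nat_lit 778403) (nat_lit 9) .nil)))))) (.g (nat_lit 4) .nil .nil))) 
(.lf (nat_lit 5356) (.g (nat_lit 3044) (.e (nat_lit 284) (nat_lit 21) (.e (nat_lit 336213) (nat_lit 13) (.e (nat_lit 393299) (nat_lit 27) (.e (nat_lit 491558) (nat_lit 10) (.e (nat_lit 344180) (nat_lit 44) (.e (nat_lit 778401) (nat_lit 9) .nil)))))) (.g (nat_lit 4) .nil .nil)))) (.nd (nat_lit 5) 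
(.lf (nat_lit 5340) (.g (nat_lit 2782) (.e (nat_lit 284) (nat_lit 21) (.e (nat_lit 336213) (nat_lit 13) (.e (nat_lit 393281) (nat_lit 23) (.e (nat_lit 426099) (nat_lit 1) (.e (nat_lit 164332) (nat_lit 230) (.e (nat_lit 163878) (nat_lit 4) (.e (nat_lit 213013) (nat_lit 9) .nil))))))) (.g (nat_lit 6) .nil .nil))) 
(.lf (nat_lit 5372) (.g (nat_lit 4058) (.e (nat_lit 284) (nat_lit 21) (.e (nat_lit 336213) (nat_lit 13) (.e (nat_lit 393301) (nat_lit 27) (.e (nat_lit 491560) (nat_lit 10) (.e (nat_lit 344179) (nat_lit 44) (.e (nat_lit 778401) (nat_lit 9) .nil)))))) (.g (nat_lit 5) .nil .nil))))))) (.nd (nat_lit 2) (.nd (nat_lit 3) (.nd (nat_lit 4) (.nd (nat_lit 5) 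
(.lf (nat_lit 5314) (.g (nat_lit 2478) (.e (nat_lit 284) (nat_lit 21) (.e (nat_lit 336213) (nat_lit 13) (.e (nat_lit 393232) (nat_lit 17) (.e (nat_lit 7593) (nat_lit 407) (.e (nat_lit 73775) (nat_lit 26) (.e (nat_lit 778401) (nat_lit 9) .nil)))))) (.g (nat_lit 4) .nil .nil))) 
(.lf (nat_lit 5346) (.g (nat_lit 1960) (.e (nat_lit 284) (nat_lit 21) (.e (nat_lit 336213) (nat_lit 13) (.e (nat_lit 393281) (nat_lit 23) (.e (nat_lit 426100) (nat_lit 1) (.e (nat_lit 164332) (nat_lit 230) (.e (nat_lit 163878) (nat_lit 4) (.e (nat_lit 213021) (nat_lit 9) .nil))))))) (.g (nat_lit 4) .nil .nil)))) (.nd (nat_lit 5) 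
(.lf (nat_lit 5330) (.g (nat_lit 2800) (.e (nat_lit 284) (nat_lit 21) (.e (nat_lit 336213) (nat_lit 13) (.e (nat_lit 393234) (nat_lit 17) (.e (nat_lit 7591) (nat_lit 407) (.e (nat_lit 73776) (nat_lit 26) (.e (nat_lit 778401) (nat_lit 9) .nil)))))) (.g (nat_lit 4) .nil .nil))) 
(.lf (nat_lit 5362) (.g (nat_lit 2226) (.e (nat_lit 284) (nat_lit 21) (.e (nat_lit 336213) (nat_lit 13) (.e (nat_lit 393300) (nat_lit 27) (.e (nat_lit 491558) (nat_lit 10) (.e (nat_lit 344180) (nat_lit 44) .nil))))) .nil)))) (.nd (nat_lit 4) (.nd (nat_lit 5) 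
(.lf (nat_lit 5322) (.g (nat_lit 2611) (.e (nat_lit 284) (nat_lit 21) (.e (nat_lit 336213) (nat_lit 13) (.e (nat_lit 393233) (nat_lit 17) (.e (nat_lit 7593) (nat_lit 407) (.e (nat_lit 73775) (nat_lit 26) (.e (nat_lit 778385) (nat_lit 9) .nil)))))) (.g (nat_lit 5) .nil .nil))) 
(.lf (nat_lit 5354) (.g (nat_lit 2155) (.e (nat_lit 284) (nat_lit 21) (.e (nat_lit 336213) (nat_lit 13) (.e (nat_lit 393299) (nat_lit 27) (.e (nat_lit 491556) (nat_lit 9) .nil)))) .nil))) (.nd (nat_lit 5) 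
(.lf (nat_lit 5338) (.g (nat_lit 916) (.e (nat_lit 284) (nat_lit 21) (.e (nat_lit 336213) (nat_lit 13) (.e (nat_lit 393281) (nat_lit 23) (.e (nat_lit 426098) (nat_lit 1) .nil)))) .nil)) 
(.lf (nat_lit 5370) (.g (nat_lit 3285) (.e (nat_lit 284) (nat_lit 21) (.e (nat_lit 336213) (nat_lit 13) (.e (nat_lit 393301) (nat_lit 27) (.e (nat_lit 491560) (nat_lit 10) (.e (nat_lit 344179) (nat_lit 44) .nil))))) .nil))))) (.nd (nat_lit 3) (.nd (nat_lit 4) (.nd (nat_lit 5) 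
(.lf (nat_lit 5318) (.g (nat_lit 1884) (.e (nat_lit 284) (nat_lit 21) (.e (nat_lit 336213) (nat_lit 13) (.e (nat_lit 393233) (nat_lit 17) (.e (nat_lit 7591) (nat_lit 407) (.e (nat_lit 73775) (nat_lit 26) (.e (nat_lit 778403) (nat_lit 9) .nil)))))) (.g (nat_lit 4) .nil .nil))) 
(.lf (nat_lit 5350) (.g (nat_lit 1032) (.e (nat_lit 284) (nat_lit 21) (.e (nat_lit 336213) (nat_lit 13) (.e (nat_lit 393298) (nat_lit 27) .nil))) .nil))) (.nd (nat_lit 5) 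
(.lf (nat_lit 5334) (.g (nat_lit 1181) (.e (nat_lit 284) (nat_lit 21) (.e (nat_lit 336213) (nat_lit 13) (.e (nat_lit 393237) (nat_lit 17) .nil))) .nil)) 
(.lf (nat_lit 5366) (.g (nat_lit 2107) (.e (nat_lit 284) (nat_lit 21) (.e (nat_lit 336213) (nat_lit 13) (.e (nat_lit 393300) (nat_lit 27) (.e (nat_lit 491560) (nat_lit 10) (.e (nat_lit 344179) (nat_lit 44) (.e (nat_lit 778401) (nat_lit 9) .nil)))))) (.g (nat_lit 4) .nil .nil))))) (.nd (nat_lit 4) (.nd (nat_lit 5) 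
(.lf (nat_lit 5326) (.g (nat_lit 2464) (.e (nat_lit 284) (nat_lit 21) (.e (nat_lit 336213) (nat_lit 13) (.e (nat_lit 393234) (nat_lit 17) (.e (nat_lit 7591) (nat_lit 407) (.e (nat_lit 73775) (nat_lit 26) .nil))))) .nil)) 
(.lf (nat_lit 5358) (.g (nat_lit 1419) (.e (nat_lit 284) (nat_lit 21) (.e (nat_lit 336213) (nat_lit 13) (.e (nat_lit 393300) (nat_lit 27) (.e (nat_lit 491546) (nat_lit 9) .nil)))) .nil))) (.nd (nat_lit 5) 
(.lf (nat_lit 5342) (.g (nat_lit 2064) (.e (nat_lit 284) (nat_lit 21) (.e (nat_lit 336213) (nat_lit 13) (.e (nat_lit 393281) (nat_lit 23) (.e (nat_lit 426100) (nat_lit 1) (.e (nat_lit 164330) (nat_lit 230) (.e (nat_lit 163878) (nat_lit 4) (.e (nat_lit 213013) (nat_lit 9) .nil))))))) (.g (nat_lit 4) .nil .nil))) 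
(.lf (nat_lit 5374) (.g (nat_lit 718) (.e (nat_lit 284) (nat_lit 21) (.e (nat_lit 336215) (nat_lit 13) (.e (nat_lit 393229) (nat_lit 9) .nil))) .nil))))))) (.nd (nat_lit 1) (.nd (nat_lit 2) (.nd (nat_lit 3) (.nd (nat_lit 4) (.nd (nat_lit 5) 
(.lf (nat_lit 5313) (.g (nat_lit 2765) (.e (nat_lit 284) (nat_lit 21) (.e (nat_lit 336213) (nat_lit 13) (.e (nat_lit 393232) (nat_lit 17) (.e (nat_lit 7593) (nat_lit 407) (.e (nat_lit 73775) (nat_lit 26) (.e (nat_lit 778385) (nat_lit 9) .nil)))))) (.g (nat_lit 4) .nil .nil))) 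
(.lf (nat_lit 5345) (.g (nat_lit 3068) (.e (nat_lit 284) (nat_lit 21) (.e (nat_lit 336213) (nat_lit 13) (.e (nat_lit 393281) (nat_lit 23) (.e (nat_lit 426100) (nat_lit 1) (.e (nat_lit 164332) (nat_lit 230) (.e (nat_lit 163878) (nat_lit 4) (.e (nat_lit 213013) (nat_lit 9) .nil))))))) (.g (nat_lit 6) .nil .nil)))) (.nd (nat_lit 5) 
(.lf (nat_lit 5329) (.g (nat_lit 2903) (.e (nat_lit 284) (nat_lit 21) (.e (nat_lit 336213) (nat_lit 13) (.e (nat_lit 393234) (nat_lit 17) (.e (nat_lit 7591) (nat_lit 407) (.e (nat_lit 73776) (nat_lit 26) (.e (nat_lit 778385) (nat_lit 9) .nil)))))) (.g (nat_lit 4) .nil .nil))) 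
(.lf (nat_lit 5361) (.g (nat_lit 1378) (.e (nat_lit 284) (nat_lit 21) (.e (nat_lit 336213) (nat_lit 13) (.e (nat_lit 393300) (nat_lit 27) (.e (nat_lit 491556) (nat_lit 9) .nil)))) .nil)))) (.nd (nat_lit 4) (.nd (nat_lit 5) 
(.lf (nat_lit 5321) (.g (nat_lit 2082) (.e (nat_lit 284) (nat_lit 21) (.e (nat_lit 336213) (nat_lit 13) (.e (nat_lit 393233) (nat_lit 17) (.e (nat_lit 7591) (nat_lit 407) (.e (nat_lit 73776) (nat_lit 26) (.e (nat_lit 778404) (nat_lit 9) .nil)))))) (.g (nat_lit 4) .nil .nil))) 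
(.lf (nat_lit 5353) (.g (nat_lit 2239) (.e (nat_lit 284) (nat_lit 21) (.e (nat_lit 336213) (nat_lit 13) (.e (nat_lit 393299) (nat_lit 27) (.e (nat_lit 491546) (nat_lit 9) .nil)))) .nil))) (.nd (nat_lit 5) 
(.lf (nat_lit 5337) (.g (nat_lit 470) (.e (nat_lit 284) (nat_lit 21) (.e (nat_lit 336213) (nat_lit 13) (.e (nat_lit 393281) (nat_lit 23) .nil))) .nil)) 
(.lf (nat_lit 5369) (.g (nat_lit 3549) (.e (nat_lit 284) (nat_lit 21) (.e (nat_lit 336213) (nat_lit 13) (.e (nat_lit 393301) (nat_lit 27) (.e (nat_lit 491558) (nat_lit 10) (.e (nat_lit 344180) (nat_lit 44) .nil))))) .nil))))) (.nd (nat_lit 3) (.nd (nat_lit 4) (.nd (nat_lit 5) 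
(.lf (nat_lit 5317) (.g (nat_lit 2186) (.e (nat_lit 284) (nat_lit 21) (.e (nat_lit 336213) (nat_lit 13) (.e (nat_lit 393233) (nat_lit 17) (.e (nat_lit 7591) (nat_lit 407) (.e (nat_lit 73775) (nat_lit 26) (.e (nat_lit 778401) (nat_lit 9) .nil)))))) (.g (nat_lit 4) .nil .nil))) 
(.lf (nat_lit 5349) (.g (nat_lit 1180) (.e (nat_lit 284) (nat_lit 21) (.e (nat_lit 336213) (nat_lit 13) (.e (nat_lit 393289) (nat_lit 25) .nil))) .nil))) (.nd (nat_lit 5) 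
(.lf (nat_lit 5333) (.g (nat_lit 2559) (.e (nat_lit 284) (nat_lit 21) (.e (nat_lit 336213) (nat_lit 13) (.e (nat_lit 393234) (nat_lit 17) (.e (nat_lit 7593) (nat_lit 407) (.e (nat_lit 73775) (nat_lit 26) (.e (nat_lit 778385) (nat_lit 9) .nil)))))) (.g (nat_lit 4) .nil .nil))) 
(.lf (nat_lit 5365) (.g (nat_lit 2074) (.e (nat_lit 284) (nat_lit 21) (.e (nat_lit 336213) (nat_lit 13) (.e (nat_lit 393300) (nat_lit 27) (.e (nat_lit 491560) (nat_lit 10) (.e (nat_lit 344179) (nat_lit 44) .nil))))) .nil)))) (.nd (nat_lit 4) (.nd (nat_lit 5) 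
(.lf (nat_lit 5325) (.g (nat_lit 2140) (.e (nat_lit 284) (nat_lit 21) (.e (nat_lit 336213) (nat_lit 13) (.e (nat_lit 393234) (nat_lit 17) (.e (nat_lit 7587) (nat_lit 406) .nil)))) .nil)) 
(.lf (nat_lit 5357) (.g (nat_lit 2888) (.e (nat_lit 284) (nat_lit 21) (.e (nat_lit 336213) (nat_lit 13) (.e (nat_lit 393299) (nat_lit 27) (.e (nat_lit 491560) (nat_lit 10) (.e (nat_lit 344179) (nat_lit 44) .nil))))) .nil))) (.nd (nat_lit 5) 
(.lf (nat_lit 5341) (.g (nat_lit 963) (.e (nat_lit 284) (nat_lit 21) (.e (nat_lit 336213) (nat_lit 13) (.e (nat_lit 393281) (nat_lit 23) (.e (nat_lit 426100) (nat_lit 1) .nil)))) .nil)) 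
(.lf (nat_lit 5373) (.g (nat_lit 3737) (.e (nat_lit 284) (nat_lit 21) (.e (nat_lit 336213) (nat_lit 13) (.e (nat_lit 393301) (nat_lit 27) (.e (nat_lit 491560) (nat_lit 10) (.e (nat_lit 344179) (nat_lit 44) (.e (nat_lit 778403) (nat_lit 9) .nil)))))) (.g (nat_lit 4) .nil .nil))))))) (.nd (nat_lit 2) (.nd (nat_lit 3) (.nd (nat_lit 4) (.nd (nat_lit 5) 
(.lf (nat_lit 5315) (.g (nat_lit 553) (.e (nat_lit 284) (nat_lit 21) (.e (nat_lit 336213) (nat_lit 13) (.e (nat_lit 393233) (nat_lit 17) .nil))) .nil)) 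
(.lf (nat_lit 5347) (.g (nat_lit 1852) (.e (nat_lit 284) (nat_lit 21) (.e (nat_lit 336213) (nat_lit 13) (.e (nat_lit 393281) (nat_lit 23) (.e (nat_lit 426100) (nat_lit 1) (.e (nat_lit 164332) (nat_lit 230) (.e (nat_lit 163878) (nat_lit 4) (.e (nat_lit 213023) (nat_lit 9) .nil))))))) (.g (nat_lit 4) .nil .nil)))) (.nd (nat_lit 5) 
(.lf (nat_lit 5331) (.g (nat_lit 2608) (.e (nat_lit 284) (nat_lit 21) (.e (nat_lit 336213) (nat_lit 13) (.e (nat_lit 393234) (nat_lit 17) (.e (nat_lit 7591) (nat_lit 407) (.e (nat_lit 73776) (nat_lit 26) (.e (nat_lit 778403) (nat_lit 9) .nil)))))) (.g (nat_lit 4) .nil .nil))) 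
(.lf (nat_lit 5363) (.g (nat_lit 2796) (.e (nat_lit 284) (nat_lit 21) (.e (nat_lit 336213) (nat_lit 13) (.e (nat_lit 393300) (nat_lit 27) (.e (nat_lit 491558) (nat_lit 10) (.e (nat_lit 344180) (nat_lit 44) (.e (nat_lit 778385) (nat_lit 9) .nil)))))) (.g (nat_lit 4) .nil .nil))))) (.nd (nat_lit 4) (.nd (nat_lit 5) 
(.lf (nat_lit 5323) (.g (nat_lit 2312) (.e (nat_lit 284) (nat_lit 21) (.e (nat_lit 336213) (nat_lit 13) (.e (nat_lit 393233) (nat_lit 17) (.e (nat_lit 7593) (nat_lit 407) (.e (nat_lit 73775) (nat_lit 26) (.e (nat_lit 778401) (nat_lit 9) .nil)))))) (.g (nat_lit 5) .nil .nil))) 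
(.lf (nat_lit 5355) (.g (nat_lit 2954) (.e (nat_lit 284) (nat_lit 21) (.e (nat_lit 336213) (nat_lit 13) (.e (nat_lit 393299) (nat_lit 27) (.e (nat_lit 491558) (nat_lit 10) (.e (nat_lit 344180) (nat_lit 44) .nil))))) .nil))) (.nd (nat_lit 5) 
(.lf (nat_lit 5339) (.g (nat_lit 965) (.e (nat_lit 284) (nat_lit 21) (.e (nat_lit 336213) (nat_lit 13) (.e (nat_lit 393281) (nat_lit 23) (.e (nat_lit 426099) (nat_lit 1) .nil)))) .nil)) 
(.lf (nat_lit 5371) (.g (nat_lit 3966) (.e (nat_lit 284) (nat_lit 21) (.e (nat_lit 336213) (nat_lit 13) (.e (nat_lit 393301) (nat_lit 27) (.e (nat_lit 491560) (nat_lit 10) (.e (nat_lit 344179) (nat_lit 44) (.e (nat_lit 778385) (nat_lit 9) .nil)))))) (.g (nat_lit 4) .nil .nil)))))) (.nd (nat_lit 3) (.nd (nat_lit 4) (.nd (nat_lit 5) 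
(.lf (nat_lit 5319) (.g (nat_lit 2914) (.e (nat_lit 284) (nat_lit 21) (.e (nat_lit 336213) (nat_lit 13) (.e (nat_lit 393233) (nat_lit 17) (.e (nat_lit 7591) (nat_lit 407) (.e (nat_lit 73776) (nat_lit 26) (.e (nat_lit 778385) (nat_lit 9) .nil)))))) (.g (nat_lit 0) .nil .nil))) 
(.lf (nat_lit 5351) (.g (nat_lit 3739) (.e (nat_lit 284) (nat_lit 21) (.e (nat_lit 336213) (nat_lit 13) (.e (nat_lit 393298) (nat_lit 27) (.e (nat_lit 491566) (nat_lit 12) (.e (nat_lit 385078) (nat_lit 35) .nil))))) .nil))) (.nd (nat_lit 5) 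
(.lf (nat_lit 5335) (.g (nat_lit 672) (.e (nat_lit 284) (nat_lit 21) (.e (nat_lit 336213) (nat_lit 13) (.e (nat_lit 393249) (nat_lit 17) .nil))) .nil)) 
(.lf (nat_lit 5367) (.g (nat_lit 925) (.e (nat_lit 284) (nat_lit 21) (.e (nat_lit 336213) (nat_lit 13) (.e (nat_lit 393301) (nat_lit 27) .nil))) .nil)))) (.nd (nat_lit 4) (.nd (nat_lit 5) 
(.lf (nat_lit 5327) (.g (nat_lit 2595) (.e (nat_lit 284) (nat_lit 21) (.e (nat_lit 336213) (nat_lit 13) (.e (nat_lit 393234) (nat_lit 17) (.e (nat_lit 7591) (nat_lit 407) (.e (nat_lit 73775) (nat_lit 26) (.e (nat_lit 778385) (nat_lit 9) .nil)))))) (.g (nat_lit 4) .nil .nil))) 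
(.lf (nat_lit 5359) (.g (nat_lit 2097) (.e (nat_lit 284) (nat_lit 21) (.e (nat_lit 336213) (nat_lit 13) (.e (nat_lit 393300) (nat_lit 27) (.e (nat_lit 491546) (nat_lit 9) (.e (nat_lit 336048) (nat_lit 6) (.e (nat_lit 147478) (nat_lit 9) .nil)))))) (.g (nat_lit 4) .nil .nil)))) (.nd (nat_lit 5) 
(.lf (nat_lit 5343) (.g (nat_lit 1575) (.e (nat_lit 284) (nat_lit 21) (.e (nat_lit 336213) (nat_lit 13) (.e (nat_lit 393281) (nat_lit 23) (.e (nat_lit 426100) (nat_lit 1) (.e (nat_lit 164332) (nat_lit 230) .nil))))) .nil)) 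
(.lf (nat_lit 5375) (.g (nat_lit 1934) (.e (nat_lit 284) (nat_lit 21) (.e (nat_lit 336215) (nat_lit 13) (.e (nat_lit 393229) (nat_lit 9) (.e (nat_lit 335995) (nat_lit 1) (.e (nat_lit 57849) (nat_lit 252) .nil))))) .nil))))))))

noncomputable def tv071 : DT := (.nd (nat_lit 0) (.nd (nat_lit 1) (.nd (nat_lit 2) (.nd (nat_lit 3) (.nd (nat_lit 4) (.nd (nat_lit 5) (.nd (nat_lit 6) 
(.lf (nat_lit 5376) (.g (nat_lit 2503) (.e (nat_lit 284) (nat_lit 21) (.e (nat_lit 336215) (nat_lit 13) (.e (nat_lit 393229) (nat_lit 9) (.e (nat_lit 335996) (nat_lit 1) (.e (nat_lit 57851) (nat_lit 252) .nil))))) .nil)) 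
(.lf (nat_lit 5440) (.g (nat_lit 2185) (.e (nat_lit 285) (nat_lit 21) (.e (nat_lit 336223) (nat_lit 13) (.e (nat_lit 393301) (nat_lit 27) (.e (nat_lit 491558) (nat_lit 10) .nil)))) .nil))) (.nd (nat_lit 6) 
(.lf (nat_lit 5408) (.g (nat_lit 3596) (.e (nat_lit 284) (nat_lit 21) (.e (nat_lit 336223) (nat_lit 13) (.e (nat_lit 393301) (nat_lit 27) (.e (nat_lit 491560) (nat_lit 10) (.e (nat_lit 344179) (nat_lit 44) (.e (nat_lit 778403) (nat_lit 9) .nil)))))) (.g (nat_lit 6) .nil .nil))) 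
(.lf (nat_lit 5472) (.g (nat_lit 2507) (.e (nat_lit 286) (nat_lit 21) (.e (nat_lit 336204) (nat_lit 12) (.e (nat_lit 385074) (nat_lit 31) (.e (nat_lit 573491) (nat_lit 15) (.e (nat_lit 81946) (nat_lit 20) .nil))))) .nil)))) (.nd (nat_lit 5) (.nd (nat_lit 6) 
(.lf (nat_lit 5392) (.g (nat_lit 1497) (.e (nat_lit 284) (nat_lit 21) (.e (nat_lit 336223) (nat_lit 13) (.e (nat_lit 393234) (nat_lit 17) (.e (nat_lit 7587) (nat_lit 406) .nil)))) .nil)) 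
(.lf (nat_lit 5456) (.g (nat_lit 3602) (.e (nat_lit 286) (nat_lit 21) (.e (nat_lit 336011) (nat_lit 2) (.e (nat_lit 90170) (nat_lit 13) (.e (nat_lit 172113) (nat_lit 10) (.e (nat_lit 434248) (nat_lit 28) (.e (nat_lit 573475) (nat_lit 12) (.e (nat_lit 65280) (nat_lit 55) (.e (nat_lit 778351) (nat_lit 9) .nil)))))))) (.g (nat_lit 4) .nil .nil)))) (.nd (nat_lit 6) 
(.lf (nat_lit 5424) (.g (nat_lit 4177) (.e (nat_lit 285) (nat_lit 21) (.e (nat_lit 336011) (nat_lit 2) (.e (nat_lit 90170) (nat_lit 13) (.e (nat_lit 172106) (nat_lit 10) (.e (nat_lit 434231) (nat_lit 23) (.e (nat_lit 532481) (nat_lit 0) (.e (nat_lit 1917) (nat_lit 130) (.e (nat_lit 606231) (nat_lit 9) .nil)))))))) (.g (nat_lit 5) .nil .nil))) 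
(.lf (nat_lit 5488) (.g (nat_lit 2374) (.e (nat_lit 287) (nat_lit 21) (.e (nat_lit 336021) (nat_lit 3) (.e (nat_lit 98313) (nat_lit 9) (.e (nat_lit 336021) (nat_lit 3) (.e (nat_lit 98313) (nat_lit 9) .nil))))) .nil))))) (.nd (nat_lit 4) (.nd (nat_lit 5) (.nd (nat_lit 6) 
(.lf (nat_lit 5384) (.g (nat_lit 1914) (.e (nat_lit 284) (nat_lit 21) (.e (nat_lit 336215) (nat_lit 13) (.e (nat_lit 393281) (nat_lit 23) (.e (nat_lit 426100) (nat_lit 1) (.e (nat_lit 164332) (nat_lit 230) .nil))))) .nil)) 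
(.lf (nat_lit 5448) (.g (nat_lit 3431) (.e (nat_lit 286) (nat_lit 21) (.e (nat_lit 336011) (nat_lit 2) (.e (nat_lit 90170) (nat_lit 13) (.e (nat_lit 172106) (nat_lit 10) (.e (nat_lit 434244) (nat_lit 28) (.e (nat_lit 573474) (nat_lit 12) (.e (nat_lit 65280) (nat_lit 55) (.e (nat_lit 778348) (nat_lit 9) .nil)))))))) (.g (nat_lit 5) .nil .nil)))) (.nd (nat_lit 6) 
(.lf (nat_lit 5416) (.g (nat_lit 2327) (.e (nat_lit 284) (nat_lit 21) (.e (nat_lit 336230) (nat_lit 14) (.e (nat_lit 401425) (nat_lit 2) (.e (nat_lit 196666) (nat_lit 13) (.e (nat_lit 65610) (nat_lit 10) (.e (nat_lit 344129) (nat_lit 26) (.e (nat_lit 557074) (nat_lit 9) .nil))))))) (.g (nat_lit 4) .nil .nil))) 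
(.lf (nat_lit 5480) (.g (nat_lit 5097) (.e (nat_lit 286) (nat_lit 21) (.e (nat_lit 336226) (nat_lit 14) (.e (nat_lit 401459) (nat_lit 13) (.e (nat_lit 483372) (nat_lit 21) (.e (nat_lit 319502) (nat_lit 10) (.e (nat_lit 5677) (nat_lit 312) .nil)))))) (.g (nat_lit 5) .nil .nil))))) (.nd (nat_lit 5) (.nd (nat_lit 6) 
(.lf (nat_lit 5400) (.g (nat_lit 2643) (.e (nat_lit 284) (nat_lit 21) (.e (nat_lit 336223) (nat_lit 13) (.e (nat_lit 393234) (nat_lit 17) (.e (nat_lit 7593) (nat_lit 407) (.e (nat_lit 73775) (nat_lit 26) (.e (nat_lit 778385) (nat_lit 9) .nil)))))) (.g (nat_lit 6) .nil .nil))) 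
(.lf (nat_lit 5464) (.g (nat_lit 3597) (.e (nat_lit 286) (nat_lit 21) (.e (nat_lit 336027) (nat_lit 3) (.e (nat_lit 98373) (nat_lit 29) (.e (nat_lit 450587) (nat_lit 10) (.e (nat_lit 573473) (nat_lit 12) .nil))))) .nil))) (.nd (nat_lit 6) 
(.lf (nat_lit 5432) (.g (nat_lit 1110) (.e (nat_lit 285) (nat_lit 21) (.e (nat_lit 336088) (nat_lit 9) (.e (nat_lit 336438) (nat_lit 31) (.e (nat_lit 458769) (nat_lit 16) .nil)))) .nil)) 
(.lf (nat_lit 5496) (.g (nat_lit 1882) (.e (nat_lit 287) (nat_lit 21) (.e (nat_lit 336078) (nat_lit 9) (.e (nat_lit 336454) (nat_lit 34) (.e (nat_lit 483365) (nat_lit 18) (.e (nat_lit 57847) (nat_lit 252) .nil))))) .nil)))))) (.nd (nat_lit 3) (.nd (nat_lit 4) (.nd (nat_lit 5) (.nd (nat_lit 6) 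
(.lf (nat_lit 5380) (.g (nat_lit 841) (.e (nat_lit 284) (nat_lit 21) (.e (nat_lit 336215) (nat_lit 13) (.e (nat_lit 393281) (nat_lit 23) .nil))) .nil)) 
(.lf (nat_lit 5444) (.g (nat_lit 2355) (.e (nat_lit 286) (nat_lit 21) (.e (nat_lit 335986) (nat_lit 1) (.e (nat_lit 57847) (nat_lit 252) (.e (nat_lit 57377) (nat_lit 3) .nil)))) .nil))) (.nd (nat_lit 6) 
(.lf (nat_lit 5412) (.g (nat_lit 1272) (.e (nat_lit 284) (nat_lit 21) (.e (nat_lit 336226) (nat_lit 14) (.e (nat_lit 401428) (nat_lit 3) (.e (nat_lit 204869) (nat_lit 29) (.e (nat_lit 360472) (nat_lit 8) .nil))))) .nil)) 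
(.lf (nat_lit 5476) (.g (nat_lit 3013) (.e (nat_lit 286) (nat_lit 21) (.e (nat_lit 336223) (nat_lit 13) (.e (nat_lit 393301) (nat_lit 27) (.e (nat_lit 491558) (nat_lit 10) (.e (nat_lit 352000) (nat_lit 44) .nil))))) .nil)))) (.nd (nat_lit 5) (.nd (nat_lit 6) 
(.lf (nat_lit 5396) (.g (nat_lit 2035) (.e (nat_lit 284) (nat_lit 21) (.e (nat_lit 336223) (nat_lit 13) (.e (nat_lit 393234) (nat_lit 17) (.e (nat_lit 7591) (nat_lit 407) (.e (nat_lit 73775) (nat_lit 26) (.e (nat_lit 778403) (nat_lit 9) .nil)))))) (.g (nat_lit 4) .nil .nil))) 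
(.lf (nat_lit 5460) (.g (nat_lit 2279) (.e (nat_lit 286) (nat_lit 21) (.e (nat_lit 336027) (nat_lit 3) (.e (nat_lit 98372) (nat_lit 29) (.e (nat_lit 450586) (nat_lit 10) (.e (nat_lit 573475) (nat_lit 12) (.e (nat_lit 65280) (nat_lit 55) (.e (nat_lit 778348) (nat_lit 9) .nil))))))) (.g (nat_lit 4) .nil .nil)))) (.nd (nat_lit 6) 
(.lf (nat_lit 5428) (.g (nat_lit 1688) (.e (nat_lit 285) (nat_lit 21) (.e (nat_lit 336076) (nat_lit 9) (.e (nat_lit 336454) (nat_lit 34) (.e (nat_lit 483365) (nat_lit 18) (.e (nat_lit 57848) (nat_lit 252) (.e (nat_lit 57372) (nat_lit 2) (.e (nat_lit 90121) (nat_lit 9) .nil))))))) (.g (nat_lit 4) .nil .nil))) 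
(.lf (nat_lit 5492) (.g (nat_lit 862) (.e (nat_lit 287) (nat_lit 21) (.e (nat_lit 336021) (nat_lit 3) (.e (nat_lit 98317) (nat_lit 9) .nil))) .nil))))) (.nd (nat_lit 4) (.nd (nat_lit 5) (.nd (nat_lit 6) 
(.lf (nat_lit 5388) (.g (nat_lit 2470) (.e (nat_lit 284) (nat_lit 21) (.e (nat_lit 336222) (nat_lit 13) (.e (nat_lit 393260) (nat_lit 21) (.e (nat_lit 409617) (nat_lit 10) (.e (nat_lit 4934) (nat_lit 287) (.e (nat_lit 2579) (nat_lit 161) (.e (nat_lit 40983) (nat_lit 9) .nil))))))) (.g (nat_lit 4) .nil .nil))) 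
(.lf (nat_lit 5452) (.g (nat_lit 3499) (.e (nat_lit 286) (nat_lit 21) (.e (nat_lit 336011) (nat_lit 2) (.e (nat_lit 90170) (nat_lit 13) (.e (nat_lit 172113) (nat_lit 10) (.e (nat_lit 434247) (nat_lit 28) .nil))))) .nil))) (.nd (nat_lit 6) 
(.lf (nat_lit 5420) (.g (nat_lit 2805) (.e (nat_lit 284) (nat_lit 21) (.e (nat_lit 336231) (nat_lit 14) (.e (nat_lit 401424) (nat_lit 2) (.e (nat_lit 196666) (nat_lit 13) (.e (nat_lit 65617) (nat_lit 10) (.e (nat_lit 344130) (nat_lit 26) (.e (nat_lit 557074) (nat_lit 9) .nil))))))) (.g (nat_lit 5) .nil .nil))) 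
(.lf (nat_lit 5484) (.g (nat_lit 3483) (.e (nat_lit 287) (nat_lit 21) (.e (nat_lit 336011) (nat_lit 2) (.e (nat_lit 90170) (nat_lit 13) (.e (nat_lit 172113) (nat_lit 10) (.e (nat_lit 434245) (nat_lit 28) .nil))))) .nil)))) (.nd (nat_lit 5) (.nd (nat_lit 6) 
(.lf (nat_lit 5404) (.g (nat_lit 1812) (.e (nat_lit 284) (nat_lit 21) (.e (nat_lit 336223) (nat_lit 13) (.e (nat_lit 393281) (nat_lit 23) (.e (nat_lit 426100) (nat_lit 1) (.e (nat_lit 164332) (nat_lit 230) (.e (nat_lit 163878) (nat_lit 4) (.e (nat_lit 213013) (nat_lit 9) .nil))))))) (.g (nat_lit 4) .nil .nil))) 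
(.lf (nat_lit 5468) (.g (nat_lit 530) (.e (nat_lit 286) (nat_lit 21) (.e (nat_lit 336193) (nat_lit 12) (.e (nat_lit 385093) (nat_lit 49) .nil))) .nil))) (.nd (nat_lit 6) 
(.lf (nat_lit 5436) (.g (nat_lit 3207) (.e (nat_lit 285) (nat_lit 21) (.e (nat_lit 336204) (nat_lit 12) (.e (nat_lit 385074) (nat_lit 31) (.e (nat_lit 573485) (nat_lit 13) .nil)))) .nil)) 
(.lf (nat_lit 5500) (.g (nat_lit 2857) (.e (nat_lit 287) (nat_lit 21) (.e (nat_lit 336204) (nat_lit 12) (.e (nat_lit 385074) (nat_lit 31) (.e (nat_lit 573482) (nat_lit 13) .nil)))) .nil))))))) (.nd (nat_lit 2) (.nd (nat_lit 3) (.nd (nat_lit 4) (.nd (nat_lit 5) (.nd (nat_lit 6) 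
(.lf (nat_lit 5378) (.g (nat_lit 612) (.e (nat_lit 284) (nat_lit 21) (.e (nat_lit 336215) (nat_lit 13) (.e (nat_lit 401152) (nat_lit 10) .nil))) .nil)) 
(.lf (nat_lit 5442) (.g (nat_lit 2890) (.e (nat_lit 285) (nat_lit 21) (.e (nat_lit 336223) (nat_lit 13) (.e (nat_lit 393301) (nat_lit 27) (.e (nat_lit 491560) (nat_lit 10) (.e (nat_lit 344179) (nat_lit 44) .nil))))) .nil))) (.nd (nat_lit 6) 
(.lf (nat_lit 5410) (.g (nat_lit 3732) (.e (nat_lit 284) (nat_lit 21) (.e (nat_lit 336226) (nat_lit 14) (.e (nat_lit 401425) (nat_lit 2) (.e (nat_lit 196666) (nat_lit 13) (.e (nat_lit 65610) (nat_lit 10) (.e (nat_lit 344129) (nat_lit 26) (.e (nat_lit 557074) (nat_lit 9) .nil))))))) (.g (nat_lit 6) .nil .nil))) 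
(.lf (nat_lit 5474) (.g (nat_lit 1583) (.e (nat_lit 286) (nat_lit 21) (.e (nat_lit 336223) (nat_lit 13) (.e (nat_lit 393234) (nat_lit 17) (.e (nat_lit 7593) (nat_lit 407) .nil)))) .nil)))) (.nd (nat_lit 5) (.nd (nat_lit 6) 
(.lf (nat_lit 5394) (.g (nat_lit 2644) (.e (nat_lit 284) (nat_lit 21) (.e (nat_lit 336223) (nat_lit 13) (.e (nat_lit 393234) (nat_lit 17) (.e (nat_lit 7591) (nat_lit 407) (.e (nat_lit 73775) (nat_lit 26) (.e (nat_lit 778385) (nat_lit 9) .nil)))))) (.g (nat_lit 5) .nil .nil))) 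
(.lf (nat_lit 5458) (.g (nat_lit 2141) (.e (nat_lit 286) (nat_lit 21) (.e (nat_lit 336027) (nat_lit 3) (.e (nat_lit 98372) (nat_lit 29) (.e (nat_lit 450586) (nat_lit 10) (.e (nat_lit 573473) (nat_lit 12) .nil))))) .nil))) (.nd (nat_lit 6) 
(.lf (nat_lit 5426) (.g (nat_lit 1071) (.e (nat_lit 285) (nat_lit 21) (.e (nat_lit 336021) (nat_lit 3) (.e (nat_lit 98313) (nat_lit 9) .nil))) .nil)) 
(.lf (nat_lit 5490) (.g (nat_lit 1642) (.e (nat_lit 287) (nat_lit 21) (.e (nat_lit 336021) (nat_lit 3) (.e (nat_lit 98313) (nat_lit 9) (.e (nat_lit 336027) (nat_lit 3) .nil)))) .nil))))) (.nd (nat_lit 4) (.nd (nat_lit 5) (.nd (nat_lit 6) 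
(.lf (nat_lit 5386) (.g (nat_lit 1467) (.e (nat_lit 284) (nat_lit 21) (.e (nat_lit 336222) (nat_lit 13) (.e (nat_lit 393260) (nat_lit 21) (.e (nat_lit 409616) (nat_lit 10) .nil)))) .nil)) 
(.lf (nat_lit 5450) (.g (nat_lit 3470) (.e (nat_lit 286) (nat_lit 21) (.e (nat_lit 336011) (nat_lit 2) (.e (nat_lit 90170) (nat_lit 13) (.e (nat_lit 172113) (nat_lit 10) (.e (nat_lit 434245) (nat_lit 28) .nil))))) .nil))) (.nd (nat_lit 6) 
(.lf (nat_lit 5418) (.g (nat_lit 2707) (.e (nat_lit 284) (nat_lit 21) (.e (nat_lit 336231) (nat_lit 14) (.e (nat_lit 401423) (nat_lit 2) (.e (nat_lit 196666) (nat_lit 13) (.e (nat_lit 65617) (nat_lit 10) (.e (nat_lit 344130) (nat_lit 26) (.e (nat_lit 557074) (nat_lit 9) .nil))))))) (.g (nat_lit 5) .nil .nil))) 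
(.lf (nat_lit 5482) (.g (nat_lit 2196) (.e (nat_lit 287) (nat_lit 21) (.e (nat_lit 336011) (nat_lit 2) (.e (nat_lit 90170) (nat_lit 13) (.e (nat_lit 172106) (nat_lit 10) (.e (nat_lit 434244) (nat_lit 28) .nil))))) .nil)))) (.nd (nat_lit 5) (.nd (nat_lit 6) 
(.lf (nat_lit 5402) (.g (nat_lit 2051) (.e (nat_lit 284) (nat_lit 21) (.e (nat_lit 336223) (nat_lit 13) (.e (nat_lit 393234) (nat_lit 17) (.e (nat_lit 7593) (nat_lit 407) (.e (nat_lit 73775) (nat_lit 26) (.e (nat_lit 778403) (nat_lit 9) .nil)))))) (.g (nat_lit 4) .nil .nil))) 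
(.lf (nat_lit 5466) (.g (nat_lit 3100) (.e (nat_lit 286) (nat_lit 21) (.e (nat_lit 336027) (nat_lit 3) (.e (nat_lit 98373) (nat_lit 29) (.e (nat_lit 450588) (nat_lit 10) (.e (nat_lit 573473) (nat_lit 12) .nil))))) .nil))) (.nd (nat_lit 6) 
(.lf (nat_lit 5434) (.g (nat_lit 1690) (.e (nat_lit 285) (nat_lit 21) (.e (nat_lit 336088) (nat_lit 9) (.e (nat_lit 336443) (nat_lit 32) (.e (nat_lit 466972) (nat_lit 21) .nil)))) .nil)) 
(.lf (nat_lit 5498) (.g (nat_lit 1744) (.e (nat_lit 287) (nat_lit 21) (.e (nat_lit 336078) (nat_lit 9) (.e (nat_lit 336454) (nat_lit 34) (.e (nat_lit 483365) (nat_lit 18) (.e (nat_lit 57852) (nat_lit 252) .nil))))) .nil)))))) (.nd (nat_lit 3) (.nd (nat_lit 4) (.nd (nat_lit 5) (.nd (nat_lit 6) 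
(.lf (nat_lit 5382) (.g (nat_lit 1290) (.e (nat_lit 284) (nat_lit 21) (.e (nat_lit 336215) (nat_lit 13) (.e (nat_lit 393281) (nat_lit 23) (.e (nat_lit 426099) (nat_lit 1) .nil)))) .nil)) 
(.lf (nat_lit 5446) (.g (nat_lit 2712) (.e (nat_lit 286) (nat_lit 21) (.e (nat_lit 336011) (nat_lit 2) (.e (nat_lit 90170) (nat_lit 13) (.e (nat_lit 172106) (nat_lit 10) (.e (nat_lit 434244) (nat_lit 28) (.e (nat_lit 573451) (nat_lit 9) (.e (nat_lit 1002) (nat_lit 81) (.e (nat_lit 2292) (nat_lit 151) (.e (nat_lit 778351) (nat_lit 9) .nil))))))))) (.g (nat_lit 5) .nil .nil)))) (.nd (nat_lit 6) 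
(.lf (nat_lit 5414) (.g (nat_lit 1121) (.e (nat_lit 284) (nat_lit 21) (.e (nat_lit 336229) (nat_lit 14) (.e (nat_lit 401458) (nat_lit 13) (.e (nat_lit 483372) (nat_lit 21) .nil)))) .nil)) 
(.lf (nat_lit 5478) (.g (nat_lit 2914) (.e (nat_lit 286) (nat_lit 21) (.e (nat_lit 336223) (nat_lit 13) (.e (nat_lit 393301) (nat_lit 27) (.e (nat_lit 491560) (nat_lit 10) (.e (nat_lit 352000) (nat_lit 44) .nil))))) .nil)))) (.nd (nat_lit 5) (.nd (nat_lit 6) 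
(.lf (nat_lit 5398) (.g (nat_lit 2692) (.e (nat_lit 284) (nat_lit 21) (.e (nat_lit 336223) (nat_lit 13) (.e (nat_lit 393234) (nat_lit 17) (.e (nat_lit 7591) (nat_lit 407) (.e (nat_lit 73776) (nat_lit 26) (.e (nat_lit 778403) (nat_lit 9) .nil)))))) (.g (nat_lit 5) .nil .nil))) 
(.lf (nat_lit 5462) (.g (nat_lit 2250) (.e (nat_lit 286) (nat_lit 21) (.e (nat_lit 336027) (nat_lit 3) (.e (nat_lit 98372) (nat_lit 29) (.e (nat_lit 450586) (nat_lit 10) (.e (nat_lit 573478) (nat_lit 12) .nil))))) .nil))) (.nd (nat_lit 6) 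
(.lf (nat_lit 5430) (.g (nat_lit 2112) (.e (nat_lit 285) (nat_lit 21) (.e (nat_lit 336078) (nat_lit 9) (.e (nat_lit 336454) (nat_lit 34) (.e (nat_lit 483365) (nat_lit 18) (.e (nat_lit 57851) (nat_lit 252) .nil))))) .nil)) 
(.lf (nat_lit 5494) (.g (nat_lit 2402) (.e (nat_lit 287) (nat_lit 21) (.e (nat_lit 336027) (nat_lit 3) (.e (nat_lit 98372) (nat_lit 29) (.e (nat_lit 450586) (nat_lit 10) (.e (nat_lit 573477) (nat_lit 12) .nil))))) .nil))))) (.nd (nat_lit 4) (.nd (nat_lit 5) (.nd (nat_lit 6) 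
(.lf (nat_lit 5390) (.g (nat_lit 2114) (.e (nat_lit 284) (nat_lit 21) (.e (nat_lit 336222) (nat_lit 13) (.e (nat_lit 393282) (nat_lit 24) (.e (nat_lit 434275) (nat_lit 39) (.e (nat_lit 663584) (nat_lit 12) (.e (nat_lit 164007) (nat_lit 41) (.e (nat_lit 663580) (nat_lit 9) .nil))))))) (.g (nat_lit 5) .nil .nil))) 
(.lf (nat_lit 5454) (.g (nat_lit 3419) (.e (nat_lit 286) (nat_lit 21) (.e (nat_lit 336011) (nat_lit 2) (.e (nat_lit 90170) (nat_lit 13) (.e (nat_lit 172113) (nat_lit 10) (.e (nat_lit 434248) (nat_lit 28) .nil))))) .nil))) (.nd (nat_lit 6) 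
(.lf (nat_lit 5422) (.g (nat_lit 1686) (.e (nat_lit 284) (nat_lit 21) (.e (nat_lit 336231) (nat_lit 14) (.e (nat_lit 401458) (nat_lit 13) (.e (nat_lit 483372) (nat_lit 21) .nil)))) .nil)) 
(.lf (nat_lit 5486) (.g (nat_lit 4545) (.e (nat_lit 287) (nat_lit 21) (.e (nat_lit 336011) (nat_lit 2) (.e (nat_lit 90170) (nat_lit 13) (.e (nat_lit 172113) (nat_lit 10) (.e (nat_lit 434247) (nat_lit 28) (.e (nat_lit 573477) (nat_lit 12) (.e (nat_lit 57575) (nat_lit 55) (.e (nat_lit 778374) (nat_lit 9) .nil)))))))) (.g (nat_lit 5) .nil .nil))))) (.nd (nat_lit 5) (.nd (nat_lit 6) 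
(.lf (nat_lit 5406) (.g (nat_lit 2482) (.e (nat_lit 284) (nat_lit 21) (.e (nat_lit 336223) (nat_lit 13) (.e (nat_lit 393301) (nat_lit 27) (.e (nat_lit 491560) (nat_lit 10) (.e (nat_lit 344179) (nat_lit 44) .nil))))) .nil)) 
(.lf (nat_lit 5470) (.g (nat_lit 3326) (.e (nat_lit 286) (nat_lit 21) (.e (nat_lit 336204) (nat_lit 12) (.e (nat_lit 385074) (nat_lit 31) (.e (nat_lit 573484) (nat_lit 13) .nil)))) .nil))) (.nd (nat_lit 6) 
(.lf (nat_lit 5438) (.g (nat_lit 1734) (.e (nat_lit 285) (nat_lit 21) (.e (nat_lit 336223) (nat_lit 13) (.e (nat_lit 393234) (nat_lit 17) (.e (nat_lit 7591) (nat_lit 407) .nil)))) .nil)) 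
(.lf (nat_lit 5502) (.g (nat_lit 1962) (.e (nat_lit 287) (nat_lit 21) (.e (nat_lit 336213) (nat_lit 13) (.e (nat_lit 393225) (nat_lit 9) (.e (nat_lit 335995) (nat_lit 1) (.e (nat_lit 57848) (nat_lit 252) .nil))))) .nil)))))))) (.nd (nat_lit 1) (.nd (nat_lit 2) (.nd (nat_lit 3) (.nd (nat_lit 4) (.nd (nat_lit 5) (.nd (nat_lit 6) 
(.lf (nat_lit 5377) (.g (nat_lit 2157) (.e (nat_lit 284) (nat_lit 21) (.e (nat_lit 336215) (nat_lit 13) (.e (nat_lit 393229) (nat_lit 9) (.e (nat_lit 335996) (nat_lit 1) (.e (nat_lit 57854) (nat_lit 252) .nil))))) .nil)) 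
(.lf (nat_lit 5441) (.g (nat_lit 1634) (.e (nat_lit 285) (nat_lit 21) (.e (nat_lit 336223) (nat_lit 13) (.e (nat_lit 393301) (nat_lit 27) (.e (nat_lit 491560) (nat_lit 10) .nil)))) .nil))) (.nd (nat_lit 6) 
(.lf (nat_lit 5409) (.g (nat_lit 3076) (.e (nat_lit 284) (nat_lit 21) (.e (nat_lit 336223) (nat_lit 13) (.e (nat_lit 393301) (nat_lit 27) (.e (nat_lit 491560) (nat_lit 10) (.e (nat_lit 344179) (nat_lit 44) (.e (nat_lit 778404) (nat_lit 9) .nil)))))) (.g (nat_lit 5) .nil .nil))) 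
(.lf (nat_lit 5473) (.g (nat_lit 2800) (.e (nat_lit 286) (nat_lit 21) (.e (nat_lit 336204) (nat_lit 12) (.e (nat_lit 385074) (nat_lit 31) (.e (nat_lit 573493) (nat_lit 15) (.e (nat_lit 81938) (nat_lit 20) (.e (nat_lit 1855) (nat_lit 124) (.e (nat_lit 564992) (nat_lit 9) .nil))))))) (.g (nat_lit 4) .nil .nil))))) (.nd (nat_lit 5) (.nd (nat_lit 6) 
(.lf (nat_lit 5393) (.g (nat_lit 1180) (.e (nat_lit 284) (nat_lit 21) (.e (nat_lit 336223) (nat_lit 13) (.e (nat_lit 393234) (nat_lit 17) (.e (nat_lit 7591) (nat_lit 407) .nil)))) .nil)) 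
(.lf (nat_lit 5457) (.g (nat_lit 1941) (.e (nat_lit 286) (nat_lit 21) (.e (nat_lit 336027) (nat_lit 3) (.e (nat_lit 98372) (nat_lit 29) (.e (nat_lit 458496) (nat_lit 3) .nil)))) .nil))) (.nd (nat_lit 6) 
(.lf (nat_lit 5425) (.g (nat_lit 2287) (.e (nat_lit 285) (nat_lit 21) (.e (nat_lit 336012) (nat_lit 2) (.e (nat_lit 90176) (nat_lit 15) (.e (nat_lit 188450) (nat_lit 23) (.e (nat_lit 204817) (nat_lit 17) .nil))))) .nil)) 
(.lf (nat_lit 5489) (.g (nat_lit 2118) (.e (nat_lit 287) (nat_lit 21) (.e (nat_lit 336021) (nat_lit 3) (.e (nat_lit 98313) (nat_lit 9) (.e (nat_lit 336021) (nat_lit 3) (.e (nat_lit 98317) (nat_lit 9) .nil))))) .nil))))) (.nd (nat_lit 4) (.nd (nat_lit 5) (.nd (nat_lit 6) 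
(.lf (nat_lit 5385) (.g (nat_lit 2537) (.e (nat_lit 284) (nat_lit 21) (.e (nat_lit 336215) (nat_lit 13) (.e (nat_lit 393281) (nat_lit 23) (.e (nat_lit 426100) (nat_lit 1) (.e (nat_lit 164332) (nat_lit 230) (.e (nat_lit 163878) (nat_lit 4) (.e (nat_lit 213013) (nat_lit 9) .nil))))))) (.g (nat_lit 4) .nil .nil))) 
(.lf (nat_lit 5449) (.g (nat_lit 3408) (.e (nat_lit 286) (nat_lit 21) (.e (nat_lit 336011) (nat_lit 2) (.e (nat_lit 90170) (nat_lit 13) (.e (nat_lit 172106) (nat_lit 10) (.e (nat_lit 434244) (nat_lit 28) (.e (nat_lit 573474) (nat_lit 12) (.e (nat_lit 65280) (nat_lit 55) (.e (nat_lit 778351) (nat_lit 9) .nil)))))))) (.g (nat_lit 5) .nil .nil)))) (.nd (nat_lit 6) 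
(.lf (nat_lit 5417) (.g (nat_lit 2209) (.e (nat_lit 284) (nat_lit 21) (.e (nat_lit 336230) (nat_lit 14) (.e (nat_lit 401425) (nat_lit 2) (.e (nat_lit 196666) (nat_lit 13) (.e (nat_lit 65617) (nat_lit 10) .nil))))) .nil)) 
(.lf (nat_lit 5481) (.g (nat_lit 5332) (.e (nat_lit 287) (nat_lit 21) (.e (nat_lit 336011) (nat_lit 2) (.e (nat_lit 90170) (nat_lit 13) (.e (nat_lit 172106) (nat_lit 10) (.e (nat_lit 434231) (nat_lit 23) (.e (nat_lit 532481) (nat_lit 0) (.e (nat_lit 1917) (nat_lit 130) (.e (nat_lit 606231) (nat_lit 9) .nil)))))))) (.g (nat_lit 6) .nil .nil))))) (.nd (nat_lit 5) (.nd (nat_lit 6) 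
(.lf (nat_lit 5401) (.g (nat_lit 2359) (.e (nat_lit 284) (nat_lit 21) (.e (nat_lit 336223) (nat_lit 13) (.e (nat_lit 393234) (nat_lit 17) (.e (nat_lit 7593) (nat_lit 407) (.e (nat_lit 73775) (nat_lit 26) (.e (nat_lit 778401) (nat_lit 9) .nil)))))) (.g (nat_lit 5) .nil .nil))) 
(.lf (nat_lit 5465) (.g (nat_lit 2865) (.e (nat_lit 286) (nat_lit 21) (.e (nat_lit 336027) (nat_lit 3) (.e (nat_lit 98373) (nat_lit 29) (.e (nat_lit 450587) (nat_lit 10) (.e (nat_lit 573478) (nat_lit 12) .nil))))) .nil))) (.nd (nat_lit 6) 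
(.lf (nat_lit 5433) (.g (nat_lit 1770) (.e (nat_lit 285) (nat_lit 21) (.e (nat_lit 336088) (nat_lit 9) (.e (nat_lit 336443) (nat_lit 32) (.e (nat_lit 466969) (nat_lit 21) .nil)))) .nil)) 
(.lf (nat_lit 5497) (.g (nat_lit 2162) (.e (nat_lit 287) (nat_lit 21) (.e (nat_lit 336078) (nat_lit 9) (.e (nat_lit 336454) (nat_lit 34) (.e (nat_lit 483365) (nat_lit 18) (.e (nat_lit 57851) (nat_lit 252) .nil))))) .nil)))))) (.nd (nat_lit 3) (.nd (nat_lit 4) (.nd (nat_lit 5) (.nd (nat_lit 6) 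
(.lf (nat_lit 5381) (.g (nat_lit 1744) (.e (nat_lit 284) (nat_lit 21) (.e (nat_lit 336215) (nat_lit 13) (.e (nat_lit 393281) (nat_lit 23) (.e (nat_lit 426098) (nat_lit 1) (.e (nat_lit 164327) (nat_lit 230) .nil))))) .nil)) 
(.lf (nat_lit 5445) (.g (nat_lit 2380) (.e (nat_lit 286) (nat_lit 21) (.e (nat_lit 336011) (nat_lit 2) (.e (nat_lit 90170) (nat_lit 13) (.e (nat_lit 172106) (nat_lit 10) (.e (nat_lit 434244) (nat_lit 28) (.e (nat_lit 573451) (nat_lit 9) (.e (nat_lit 1002) (nat_lit 81) (.e (nat_lit 2292) (nat_lit 151) (.e (nat_lit 778348) (nat_lit 9) .nil))))))))) (.g (nat_lit 4) .nil .nil)))) (.nd (nat_lit 6) 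
(.lf (nat_lit 5413) (.g (nat_lit 4219) (.e (nat_lit 284) (nat_lit 21) (.e (nat_lit 336229) (nat_lit 14) (.e (nat_lit 401425) (nat_lit 2) (.e (nat_lit 196666) (nat_lit 13) (.e (nat_lit 65617) (nat_lit 10) (.e (nat_lit 344130) (nat_lit 26) (.e (nat_lit 557074) (nat_lit 9) .nil))))))) (.g (nat_lit 6) .nil .nil))) 
(.lf (nat_lit 5477) (.g (nat_lit 3053) (.e (nat_lit 286) (nat_lit 21) (.e (nat_lit 336223) (nat_lit 13) (.e (nat_lit 393301) (nat_lit 27) (.e (nat_lit 491558) (nat_lit 10) (.e (nat_lit 352000) (nat_lit 44) (.e (nat_lit 778351) (nat_lit 9) .nil)))))) (.g (nat_lit 4) .nil .nil))))) (.nd (nat_lit 5) (.nd (nat_lit 6) 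
(.lf (nat_lit 5397) (.g (nat_lit 2857) (.e (nat_lit 284) (nat_lit 21) (.e (nat_lit 336223) (nat_lit 13) (.e (nat_lit 393234) (nat_lit 17) (.e (nat_lit 7591) (nat_lit 407) (.e (nat_lit 73776) (nat_lit 26) (.e (nat_lit 778401) (nat_lit 9) .nil)))))) (.g (nat_lit 6) .nil .nil))) 
(.lf (nat_lit 5461) (.g (nat_lit 2304) (.e (nat_lit 286) (nat_lit 21) (.e (nat_lit 336027) (nat_lit 3) (.e (nat_lit 98372) (nat_lit 29) (.e (nat_lit 450586) (nat_lit 10) (.e (nat_lit 573477) (nat_lit 12) .nil))))) .nil))) (.nd (nat_lit 6) 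
(.lf (nat_lit 5429) (.g (nat_lit 655) (.e (nat_lit 285) (nat_lit 21) (.e (nat_lit 336078) (nat_lit 9) (.e (nat_lit 336454) (nat_lit 34) .nil))) .nil)) 
(.lf (nat_lit 5493) (.g (nat_lit 2114) (.e (nat_lit 287) (nat_lit 21) (.e (nat_lit 336021) (nat_lit 3) (.e (nat_lit 98317) (nat_lit 9) (.e (nat_lit 336021) (nat_lit 3) .nil)))) .nil))))) (.nd (nat_lit 4) (.nd (nat_lit 5) (.nd (nat_lit 6) 
(.lf (nat_lit 5389) (.g (nat_lit 3225) (.e (nat_lit 284) (nat_lit 21) (.e (nat_lit 336222) (nat_lit 13) (.e (nat_lit 393260) (nat_lit 21) (.e (nat_lit 409649) (nat_lit 18) (.e (nat_lit 303111) (nat_lit 0) (.e (nat_lit 3578) (nat_lit 223) (.e (nat_lit 745504) (nat_lit 9) .nil))))))) (.g (nat_lit 5) .nil .nil))) 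
(.lf (nat_lit 5453) (.g (nat_lit 4642) (.e (nat_lit 286) (nat_lit 21) (.e (nat_lit 336011) (nat_lit 2) (.e (nat_lit 90170) (nat_lit 13) (.e (nat_lit 172113) (nat_lit 10) (.e (nat_lit 434247) (nat_lit 28) (.e (nat_lit 573477) (nat_lit 12) (.e (nat_lit 57575) (nat_lit 55) (.e (nat_lit 786176) (nat_lit 9) .nil)))))))) (.g (nat_lit 5) .nil .nil)))) (.nd (nat_lit 6) 
(.lf (nat_lit 5421) (.g (nat_lit 2256) (.e (nat_lit 284) (nat_lit 21) (.e (nat_lit 336231) (nat_lit 14) (.e (nat_lit 401426) (nat_lit 3) (.e (nat_lit 204855) (nat_lit 26) (.e (nat_lit 336176) (nat_lit 10) (.e (nat_lit 344130) (nat_lit 26) (.e (nat_lit 557074) (nat_lit 9) .nil))))))) (.g (nat_lit 5) .nil .nil))) 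
(.lf (nat_lit 5485) (.g (nat_lit 3512) (.e (nat_lit 287) (nat_lit 21) (.e (nat_lit 336011) (nat_lit 2) (.e (nat_lit 90170) (nat_lit 13) (.e (nat_lit 172113) (nat_lit 10) (.e (nat_lit 434247) (nat_lit 28) .nil))))) .nil)))) (.nd (nat_lit 5) (.nd (nat_lit 6) 
(.lf (nat_lit 5405) (.g (nat_lit 2996) (.e (nat_lit 284) (nat_lit 21) (.e (nat_lit 336223) (nat_lit 13) (.e (nat_lit 393301) (nat_lit 27) (.e (nat_lit 491558) (nat_lit 10) (.e (nat_lit 344180) (nat_lit 44) .nil))))) .nil)) 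
(.lf (nat_lit 5469) (.g (nat_lit 584) (.e (nat_lit 286) (nat_lit 21) (.e (nat_lit 336204) (nat_lit 12) (.e (nat_lit 385074) (nat_lit 31) .nil))) .nil))) (.nd (nat_lit 6) 
(.lf (nat_lit 5437) (.g (nat_lit 2061) (.e (nat_lit 285) (nat_lit 21) (.e (nat_lit 336213) (nat_lit 13) (.e (nat_lit 393225) (nat_lit 9) (.e (nat_lit 335995) (nat_lit 1) (.e (nat_lit 57848) (nat_lit 252) (.e (nat_lit 57372) (nat_lit 2) (.e (nat_lit 90121) (nat_lit 9) .nil))))))) (.g (nat_lit 4) .nil .nil))) 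
(.lf (nat_lit 5501) (.g (nat_lit 3265) (.e (nat_lit 287) (nat_lit 21) (.e (nat_lit 336204) (nat_lit 12) (.e (nat_lit 385074) (nat_lit 31) (.e (nat_lit 573485) (nat_lit 13) (.e (nat_lit 65619) (nat_lit 10) .nil))))) .nil))))))) (.nd (nat_lit 2) (.nd (nat_lit 3) (.nd (nat_lit 4) (.nd (nat_lit 5) (.nd (nat_lit 6) 
(.lf (nat_lit 5379) (.g (nat_lit 1888) (.e (nat_lit 284) (nat_lit 21) (.e (nat_lit 336215) (nat_lit 13) (.e (nat_lit 393271) (nat_lit 23) (.e (nat_lit 425986) (nat_lit 0) .nil)))) .nil)) 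
(.lf (nat_lit 5443) (.g (nat_lit 4166) (.e (nat_lit 285) (nat_lit 21) (.e (nat_lit 336226) (nat_lit 14) (.e (nat_lit 401459) (nat_lit 13) (.e (nat_lit 483372) (nat_lit 21) (.e (nat_lit 319504) (nat_lit 10) .nil))))) .nil))) (.nd (nat_lit 6) 
(.lf (nat_lit 5411) (.g (nat_lit 3781) (.e (nat_lit 284) (nat_lit 21) (.e (nat_lit 336226) (nat_lit 14) (.e (nat_lit 401425) (nat_lit 2) (.e (nat_lit 196666) (nat_lit 13) (.e (nat_lit 65617) (nat_lit 10) (.e (nat_lit 344130) (nat_lit 26) (.e (nat_lit 557074) (nat_lit 9) .nil))))))) (.g (nat_lit 6) .nil .nil))) 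
(.lf (nat_lit 5475) (.g (nat_lit 883) (.e (nat_lit 286) (nat_lit 21) (.e (nat_lit 336223) (nat_lit 13) (.e (nat_lit 393301) (nat_lit 27) .nil))) .nil)))) (.nd (nat_lit 5) (.nd (nat_lit 6) 
(.lf (nat_lit 5395) (.g (nat_lit 2337) (.e (nat_lit 284) (nat_lit 21) (.e (nat_lit 336223) (nat_lit 13) (.e (nat_lit 393234) (nat_lit 17) (.e (nat_lit 7591) (nat_lit 407) (.e (nat_lit 73775) (nat_lit 26) (.e (nat_lit 778401) (nat_lit 9) .nil)))))) (.g (nat_lit 5) .nil .nil))) 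
(.lf (nat_lit 5459) (.g (nat_lit 2272) (.e (nat_lit 286) (nat_lit 21) (.e (nat_lit 336027) (nat_lit 3) (.e (nat_lit 98372) (nat_lit 29) (.e (nat_lit 450586) (nat_lit 10) (.e (nat_lit 573475) (nat_lit 12) .nil))))) .nil))) (.nd (nat_lit 6) 
(.lf (nat_lit 5427) (.g (nat_lit 1950) (.e (nat_lit 285) (nat_lit 21) (.e (nat_lit 336021) (nat_lit 3) (.e (nat_lit 98313) (nat_lit 9) (.e (nat_lit 336027) (nat_lit 3) .nil)))) .nil)) 
(.lf (nat_lit 5491) (.g (nat_lit 2160) (.e (nat_lit 287) (nat_lit 21) (.e (nat_lit 336021) (nat_lit 3) (.e (nat_lit 98313) (nat_lit 9) (.e (nat_lit 336027) (nat_lit 3) (.e (nat_lit 98317) (nat_lit 9) .nil))))) .nil))))) (.nd (nat_lit 4) (.nd (nat_lit 5) (.nd (nat_lit 6) 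
(.lf (nat_lit 5387) (.g (nat_lit 2788) (.e (nat_lit 284) (nat_lit 21) (.e (nat_lit 336222) (nat_lit 13) (.e (nat_lit 393260) (nat_lit 21) (.e (nat_lit 409616) (nat_lit 10) (.e (nat_lit 4931) (nat_lit 287) .nil))))) .nil)) 
(.lf (nat_lit 5451) (.g (nat_lit 3482) (.e (nat_lit 286) (nat_lit 21) (.e (nat_lit 336011) (nat_lit 2) (.e (nat_lit 90170) (nat_lit 13) (.e (nat_lit 172113) (nat_lit 10) (.e (nat_lit 434245) (nat_lit 28) (.e (nat_lit 573474) (nat_lit 12) (.e (nat_lit 65280) (nat_lit 55) (.e (nat_lit 778348) (nat_lit 9) .nil)))))))) (.g (nat_lit 4) .nil .nil)))) (.nd (nat_lit 6) 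
(.lf (nat_lit 5419) (.g (nat_lit 4226) (.e (nat_lit 284) (nat_lit 21) (.e (nat_lit 336231) (nat_lit 14) (.e (nat_lit 401424) (nat_lit 2) (.e (nat_lit 196666) (nat_lit 13) (.e (nat_lit 65610) (nat_lit 10) (.e (nat_lit 344129) (nat_lit 26) (.e (nat_lit 557074) (nat_lit 9) .nil))))))) (.g (nat_lit 7) .nil .nil))) 
(.lf (nat_lit 5483) (.g (nat_lit 2547) (.e (nat_lit 287) (nat_lit 21) (.e (nat_lit 336011) (nat_lit 2) (.e (nat_lit 90170) (nat_lit 13) (.e (nat_lit 172113) (nat_lit 10) .nil)))) .nil)))) (.nd (nat_lit 5) (.nd (nat_lit 6) 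
(.lf (nat_lit 5403) (.g (nat_lit 490) (.e (nat_lit 284) (nat_lit 21) (.e (nat_lit 336223) (nat_lit 13) (.e (nat_lit 393281) (nat_lit 23) .nil))) .nil)) 
(.lf (nat_lit 5467) (.g (nat_lit 3083) (.e (nat_lit 286) (nat_lit 21) (.e (nat_lit 336027) (nat_lit 3) (.e (nat_lit 98373) (nat_lit 29) (.e (nat_lit 450588) (nat_lit 10) (.e (nat_lit 573475) (nat_lit 12) .nil))))) .nil))) (.nd (nat_lit 6) 
(.lf (nat_lit 5435) (.g (nat_lit 2785) (.e (nat_lit 285) (nat_lit 21) (.e (nat_lit 336163) (nat_lit 10) (.e (nat_lit 344117) (nat_lit 21) (.e (nat_lit 516145) (nat_lit 9) (.e (nat_lit 426448) (nat_lit 20) .nil))))) .nil)) 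
(.lf (nat_lit 5499) (.g (nat_lit 1828) (.e (nat_lit 287) (nat_lit 21) (.e (nat_lit 336078) (nat_lit 9) (.e (nat_lit 336454) (nat_lit 34) (.e (nat_lit 483365) (nat_lit 18) (.e (nat_lit 57854) (nat_lit 252) .nil))))) .nil)))))) (.nd (nat_lit 3) (.nd (nat_lit 4) (.nd (nat_lit 5) (.nd (nat_lit 6) 
(.lf (nat_lit 5383) (.g (nat_lit 1935) (.e (nat_lit 284) (nat_lit 21) (.e (nat_lit 336215) (nat_lit 13) (.e (nat_lit 393281) (nat_lit 23) (.e (nat_lit 426100) (nat_lit 1) (.e (nat_lit 164330) (nat_lit 230) .nil))))) .nil)) 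
(.lf (nat_lit 5447) (.g (nat_lit 2793) (.e (nat_lit 286) (nat_lit 21) (.e (nat_lit 336011) (nat_lit 2) (.e (nat_lit 90170) (nat_lit 13) (.e (nat_lit 172106) (nat_lit 10) (.e (nat_lit 434244) (nat_lit 28) (.e (nat_lit 573451) (nat_lit 9) (.e (nat_lit 1004) (nat_lit 81) (.e (nat_lit 2292) (nat_lit 151) (.e (nat_lit 778351) (nat_lit 9) .nil))))))))) (.g (nat_lit 5) .nil .nil)))) (.nd (nat_lit 6) 
(.lf (nat_lit 5415) (.g (nat_lit 2537) (.e (nat_lit 284) (nat_lit 21) (.e (nat_lit 336229) (nat_lit 14) (.e (nat_lit 401458) (nat_lit 13) (.e (nat_lit 483372) (nat_lit 21) (.e (nat_lit 319504) (nat_lit 10) (.e (nat_lit 5734) (nat_lit 312) .nil)))))) (.g (nat_lit 5) .nil .nil))) 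
(.lf (nat_lit 5479) (.g (nat_lit 2999) (.e (nat_lit 286) (nat_lit 21) (.e (nat_lit 336223) (nat_lit 13) (.e (nat_lit 393301) (nat_lit 27) (.e (nat_lit 491560) (nat_lit 10) (.e (nat_lit 352000) (nat_lit 44) (.e (nat_lit 778348) (nat_lit 9) .nil)))))) (.g (nat_lit 4) .nil .nil))))) (.nd (nat_lit 5) (.nd (nat_lit 6) 
(.lf (nat_lit 5399) (.g (nat_lit 2098) (.e (nat_lit 284) (nat_lit 21) (.e (nat_lit 336223) (nat_lit 13) (.e (nat_lit 393234) (nat_lit 17) (.e (nat_lit 7591) (nat_lit 407) (.e (nat_lit 73776) (nat_lit 26) (.e (nat_lit 778404) (nat_lit 9) .nil)))))) (.g (nat_lit 4) .nil .nil))) 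
(.lf (nat_lit 5463) (.g (nat_lit 3704) (.e (nat_lit 286) (nat_lit 21) (.e (nat_lit 336027) (nat_lit 3) (.e (nat_lit 98372) (nat_lit 29) (.e (nat_lit 450588) (nat_lit 10) (.e (nat_lit 573475) (nat_lit 12) .nil))))) .nil))) (.nd (nat_lit 6) 
(.lf (nat_lit 5431) (.g (nat_lit 1904) (.e (nat_lit 285) (nat_lit 21) (.e (nat_lit 336086) (nat_lit 9) (.e (nat_lit 336369) (nat_lit 27) (.e (nat_lit 426173) (nat_lit 7) (.e (nat_lit 409649) (nat_lit 18) .nil))))) .nil)) 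
(.lf (nat_lit 5495) (.g (nat_lit 1234) (.e (nat_lit 287) (nat_lit 21) (.e (nat_lit 336078) (nat_lit 9) (.e (nat_lit 336454) (nat_lit 34) (.e (nat_lit 483364) (nat_lit 18) .nil)))) .nil))))) (.nd (nat_lit 4) (.nd (nat_lit 5) (.nd (nat_lit 6) 
(.lf (nat_lit 5391) (.g (nat_lit 2318) (.e (nat_lit 284) (nat_lit 21) (.e (nat_lit 336222) (nat_lit 13) (.e (nat_lit 393283) (nat_lit 24) (.e (nat_lit 434275) (nat_lit 39) (.e (nat_lit 663584) (nat_lit 12) (.e (nat_lit 164007) (nat_lit 41) (.e (nat_lit 663580) (nat_lit 9) .nil))))))) (.g (nat_lit 5) .nil .nil))) 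
(.lf (nat_lit 5455) (.g (nat_lit 3625) (.e (nat_lit 286) (nat_lit 21) (.e (nat_lit 336011) (nat_lit 2) (.e (nat_lit 90170) (nat_lit 13) (.e (nat_lit 172113) (nat_lit 10) (.e (nat_lit 434248) (nat_lit 28) (.e (nat_lit 573475) (nat_lit 12) (.e (nat_lit 65280) (nat_lit 55) (.e (nat_lit 778348) (nat_lit 9) .nil)))))))) (.g (nat_lit 4) .nil .nil)))) (.nd (nat_lit 6) 
(.lf (nat_lit 5423) (.g (nat_lit 3280) (.e (nat_lit 284) (nat_lit 21) (.e (nat_lit 336231) (nat_lit 14) (.e (nat_lit 401458) (nat_lit 13) (.e (nat_lit 483372) (nat_lit 21) (.e (nat_lit 319504) (nat_lit 10) (.e (nat_lit 5734) (nat_lit 312) .nil)))))) (.g (nat_lit 5) .nil .nil))) 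
(.lf (nat_lit 5487) (.g (nat_lit 3432) (.e (nat_lit 287) (nat_lit 21) (.e (nat_lit 336011) (nat_lit 2) (.e (nat_lit 90170) (nat_lit 13) (.e (nat_lit 172113) (nat_lit 10) (.e (nat_lit 434248) (nat_lit 28) .nil))))) .nil)))) (.nd (nat_lit 5) (.nd (nat_lit 6) 
(.lf (nat_lit 5407) (.g (nat_lit 3809) (.e (nat_lit 284) (nat_lit 21) (.e (nat_lit 336223) (nat_lit 13) (.e (nat_lit 393301) (nat_lit 27) (.e (nat_lit 491560) (nat_lit 10) (.e (nat_lit 344179) (nat_lit 44) (.e (nat_lit 778401) (nat_lit 9) .nil)))))) (.g (nat_lit 0) .nil .nil))) 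
(.lf (nat_lit 5471) (.g (nat_lit 3279) (.e (nat_lit 286) (nat_lit 21) (.e (nat_lit 336204) (nat_lit 12) (.e (nat_lit 385074) (nat_lit 31) (.e (nat_lit 573485) (nat_lit 13) .nil)))) .nil))) (.nd (nat_lit 6) 
(.lf (nat_lit 5439) (.g (nat_lit 974) (.e (nat_lit 285) (nat_lit 21) (.e (nat_lit 336223) (nat_lit 13) (.e (nat_lit 393281) (nat_lit 23) .nil))) .nil)) 
(.lf (nat_lit 5503) (.g (nat_lit 2196) (.e (nat_lit 287) (nat_lit 21) (.e (nat_lit 336213) (nat_lit 13) (.e (nat_lit 393225) (nat_lit 9) (.e (nat_lit 335995) (nat_lit 1) (.e (nat_lit 57848) (nat_lit 252) (.e (nat_lit 57372) (nat_lit 2) (.e (nat_lit 90121) (nat_lit 9) .nil))))))) (.g (nat_lit 4) .nil .nil))))))))))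

noncomputable def tv072 : DT := (.nd (nat_lit 0) (.nd (nat_lit 1) (.nd (nat_lit 2) (.nd (nat_lit 3) (.nd (nat_lit 4) 
(.lf (nat_lit 5504) (.g (nat_lit 1809) (.e (nat_lit 287) (nat_lit 21) (.e (nat_lit 336213) (nat_lit 13) (.e (nat_lit 393229) (nat_lit 9) (.e (nat_lit 335994) (nat_lit 1) (.e (nat_lit 57854) (nat_lit 252) .nil))))) .nil)) 
(.lf (nat_lit 5520) (.g (nat_lit 3576) (.e (nat_lit 289) (nat_lit 21) (.e (nat_lit 336235) (nat_lit 14) (.e (nat_lit 401459) (nat_lit 13) (.e (nat_lit 483372) (nat_lit 21) (.e (nat_lit 319504) (nat_lit 10) .nil))))) .nil))) (.nd (nat_lit 4) 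
(.lf (nat_lit 5512) (.g (nat_lit 4149) (.e (nat_lit 287) (nat_lit 21) (.e (nat_lit 336226) (nat_lit 14) (.e (nat_lit 401459) (nat_lit 13) (.e (nat_lit 483372) (nat_lit 21) (.e (nat_lit 319504) (nat_lit 10) .nil))))) .nil)) 
(.lf (nat_lit 5528) (.g (nat_lit 2024) (.e (nat_lit 290) (nat_lit 21) (.e (nat_lit 335894) (nat_lit 0) (.e (nat_lit 6192) (nat_lit 332) (.e (nat_lit 1139) (nat_lit 84) (.e (nat_lit 32787) (nat_lit 9) (.e (nat_lit 65617) (nat_lit 10) (.e (nat_lit 344130) (nat_lit 26) (.e (nat_lit 557067) (nat_lit 9) .nil)))))))) (.g (nat_lit 4) .nil .nil))))) (.nd (nat_lit 3) (.nd (nat_lit 4) 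
(.lf (nat_lit 5508) (.g (nat_lit 2440) (.e (nat_lit 287) (nat_lit 21) (.e (nat_lit 336215) (nat_lit 13) (.e (nat_lit 393229) (nat_lit 9) (.e (nat_lit 335996) (nat_lit 1) (.e (nat_lit 57851) (nat_lit 252) .nil))))) .nil)) 
(.lf (nat_lit 5524) (.g (nat_lit 3288) (.e (nat_lit 290) (nat_lit 21) (.e (nat_lit 335893) (nat_lit 0) (.e (nat_lit 6714) (nat_lit 360) (.e (nat_lit 163962) (nat_lit 25) (.e (nat_lit 532550) (nat_lit 12) (.e (nat_lit 360475) (nat_lit 8) (.e (nat_lit 557073) (nat_lit 9) .nil))))))) (.g (nat_lit 7) .nil .nil)))) (.nd (nat_lit 4) 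
(.lf (nat_lit 5516) (.g (nat_lit 2468) (.e (nat_lit 287) (nat_lit 21) (.e (nat_lit 336232) (nat_lit 14) (.e (nat_lit 401432) (nat_lit 7) (.e (nat_lit 409648) (nat_lit 18) (.e (nat_lit 303137) (nat_lit 10) .nil))))) .nil)) 
(.lf (nat_lit 5532) (.g (nat_lit 3598) (.e (nat_lit 290) (nat_lit 21) (.e (nat_lit 335894) (nat_lit 0) (.e (nat_lit 6617) (nat_lit 357) (.e (nat_lit 2685) (nat_lit 168) (.e (nat_lit 204869) (nat_lit 29) (.e (nat_lit 360474) (nat_lit 8) (.e (nat_lit 557072) (nat_lit 9) .nil))))))) (.g (nat_lit 7) .nil .nil)))))) (.nd (nat_lit 2) (.nd (nat_lit 3) (.nd (nat_lit 4) 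
(.lf (nat_lit 5506) (.g (nat_lit 1293) (.e (nat_lit 287) (nat_lit 21) (.e (nat_lit 336215) (nat_lit 13) (.e (nat_lit 393229) (nat_lit 9) (.e (nat_lit 335988) (nat_lit 1) .nil)))) .nil)) 
(.lf (nat_lit 5522) (.g (nat_lit 3585) (.e (nat_lit 290) (nat_lit 21) (.e (nat_lit 335893) (nat_lit 0) (.e (nat_lit 6619) (nat_lit 357) (.e (nat_lit 2685) (nat_lit 168) (.e (nat_lit 204869) (nat_lit 29) (.e (nat_lit 360475) (nat_lit 8) (.e (nat_lit 557073) (nat_lit 9) .nil))))))) (.g (nat_lit 7) .nil .nil)))) (.nd (nat_lit 4) 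
(.lf (nat_lit 5514) (.g (nat_lit 3405) (.e (nat_lit 287) (nat_lit 21) (.e (nat_lit 336229) (nat_lit 14) (.e (nat_lit 401459) (nat_lit 13) (.e (nat_lit 483372) (nat_lit 21) (.e (nat_lit 319504) (nat_lit 10) .nil))))) .nil)) 
(.lf (nat_lit 5530) (.g (nat_lit 2025) (.e (nat_lit 290) (nat_lit 21) (.e (nat_lit 335894) (nat_lit 0) (.e (nat_lit 6192) (nat_lit 332) (.e (nat_lit 1139) (nat_lit 84) (.e (nat_lit 32787) (nat_lit 9) (.e (nat_lit 65617) (nat_lit 10) (.e (nat_lit 344133) (nat_lit 26) (.e (nat_lit 557068) (nat_lit 9) .nil)))))))) (.g (nat_lit 4) .nil .nil))))) (.nd (nat_lit 3) (.nd (nat_lit 4) 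
(.lf (nat_lit 5510) (.g (nat_lit 2491) (.e (nat_lit 287) (nat_lit 21) (.e (nat_lit 336223) (nat_lit 13) (.e (nat_lit 393234) (nat_lit 17) (.e (nat_lit 7591) (nat_lit 407) (.e (nat_lit 73776) (nat_lit 26) .nil))))) .nil)) 
(.lf (nat_lit 5526) (.g (nat_lit 1930) (.e (nat_lit 290) (nat_lit 21) (.e (nat_lit 335894) (nat_lit 0) (.e (nat_lit 2358) (nat_lit 152) (.e (nat_lit 786481) (nat_lit 30) (.e (nat_lit 360473) (nat_lit 8) (.e (nat_lit 557089) (nat_lit 12) (.e (nat_lit 164006) (nat_lit 41) (.e (nat_lit 663574) (nat_lit 9) .nil)))))))) (.g (nat_lit 4) .nil .nil)))) (.nd (nat_lit 4) 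
(.lf (nat_lit 5518) (.g (nat_lit 3516) (.e (nat_lit 288) (nat_lit 21) (.e (nat_lit 336235) (nat_lit 14) (.e (nat_lit 401428) (nat_lit 3) (.e (nat_lit 204869) (nat_lit 29) (.e (nat_lit 360474) (nat_lit 8) (.e (nat_lit 557068) (nat_lit 9) .nil)))))) (.g (nat_lit 0) .nil .nil))) 
(.lf (nat_lit 5534) (.g (nat_lit 3864) (.e (nat_lit 290) (nat_lit 21) (.e (nat_lit 335894) (nat_lit 0) (.e (nat_lit 6617) (nat_lit 357) (.e (nat_lit 2685) (nat_lit 168) (.e (nat_lit 204869) (nat_lit 29) (.e (nat_lit 360475) (nat_lit 8) (.e (nat_lit 557068) (nat_lit 9) .nil))))))) (.g (nat_lit 7) .nil .nil))))))) (.nd (nat_lit 1) (.nd (nat_lit 2) (.nd (nat_lit 3) (.nd (nat_lit 4) 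
(.lf (nat_lit 5505) (.g (nat_lit 642) (.e (nat_lit 287) (nat_lit 21) (.e (nat_lit 336215) (nat_lit 13) (.e (nat_lit 393229) (nat_lit 9) .nil))) .nil)) 
(.lf (nat_lit 5521) (.g (nat_lit 2416) (.e (nat_lit 290) (nat_lit 21) (.e (nat_lit 335893) (nat_lit 0) (.e (nat_lit 6617) (nat_lit 357) (.e (nat_lit 2685) (nat_lit 168) (.e (nat_lit 204869) (nat_lit 29) (.e (nat_lit 360474) (nat_lit 8) (.e (nat_lit 557073) (nat_lit 9) .nil))))))) (.g (nat_lit 6) .nil .nil)))) (.nd (nat_lit 4) 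
(.lf (nat_lit 5513) (.g (nat_lit 2741) (.e (nat_lit 287) (nat_lit 21) (.e (nat_lit 336229) (nat_lit 14) (.e (nat_lit 401458) (nat_lit 13) (.e (nat_lit 483372) (nat_lit 21) (.e (nat_lit 319504) (nat_lit 10) (.e (nat_lit 7936) (nat_lit 312) .nil)))))) (.g (nat_lit 5) .nil .nil))) 
(.lf (nat_lit 5529) (.g (nat_lit 1925) (.e (nat_lit 290) (nat_lit 21) (.e (nat_lit 335894) (nat_lit 0) (.e (nat_lit 6192) (nat_lit 332) (.e (nat_lit 1139) (nat_lit 84) (.e (nat_lit 32787) (nat_lit 9) (.e (nat_lit 65617) (nat_lit 10) (.e (nat_lit 344132) (nat_lit 26) (.e (nat_lit 557072) (nat_lit 9) .nil)))))))) (.g (nat_lit 4) .nil .nil))))) (.nd (nat_lit 3) (.nd (nat_lit 4) 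
(.lf (nat_lit 5509) (.g (nat_lit 2094) (.e (nat_lit 287) (nat_lit 21) (.e (nat_lit 336215) (nat_lit 13) (.e (nat_lit 393229) (nat_lit 9) (.e (nat_lit 335996) (nat_lit 1) (.e (nat_lit 57854) (nat_lit 252) .nil))))) .nil)) 
(.lf (nat_lit 5525) (.g (nat_lit 2234) (.e (nat_lit 290) (nat_lit 21) (.e (nat_lit 335894) (nat_lit 0) (.e (nat_lit 2356) (nat_lit 152) (.e (nat_lit 786481) (nat_lit 30) (.e (nat_lit 360473) (nat_lit 8) (.e (nat_lit 557089) (nat_lit 12) (.e (nat_lit 164007) (nat_lit 41) (.e (nat_lit 663574) (nat_lit 9) .nil)))))))) (.g (nat_lit 4) .nil .nil)))) (.nd (nat_lit 4) 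
(.lf (nat_lit 5517) (.g (nat_lit 3478) (.e (nat_lit 288) (nat_lit 21) (.e (nat_lit 335877) (nat_lit 0) (.e (nat_lit 6618) (nat_lit 357) (.e (nat_lit 2668) (nat_lit 167) (.e (nat_lit 196666) (nat_lit 13) (.e (nat_lit 65617) (nat_lit 10) (.e (nat_lit 344130) (nat_lit 26) (.e (nat_lit 557067) (nat_lit 9) .nil)))))))) (.g (nat_lit 0) .nil .nil))) 
(.lf (nat_lit 5533) (.g (nat_lit 3344) (.e (nat_lit 290) (nat_lit 21) (.e (nat_lit 335894) (nat_lit 0) (.e (nat_lit 6617) (nat_lit 357) (.e (nat_lit 2685) (nat_lit 168) (.e (nat_lit 204869) (nat_lit 29) (.e (nat_lit 360474) (nat_lit 8) (.e (nat_lit 557073) (nat_lit 9) .nil))))))) (.g (nat_lit 0) .nil .nil)))))) (.nd (nat_lit 2) (.nd (nat_lit 3) (.nd (nat_lit 4) 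
(.lf (nat_lit 5507) (.g (nat_lit 1872) (.e (nat_lit 287) (nat_lit 21) (.e (nat_lit 336215) (nat_lit 13) (.e (nat_lit 393229) (nat_lit 9) (.e (nat_lit 335995) (nat_lit 1) (.e (nat_lit 57849) (nat_lit 252) (.e (nat_lit 57372) (nat_lit 2) (.e (nat_lit 90133) (nat_lit 9) .nil))))))) (.g (nat_lit 4) .nil .nil))) 
(.lf (nat_lit 5523) (.g (nat_lit 3459) (.e (nat_lit 290) (nat_lit 21) (.e (nat_lit 335893) (nat_lit 0) (.e (nat_lit 6712) (nat_lit 360) (.e (nat_lit 163962) (nat_lit 25) (.e (nat_lit 532550) (nat_lit 12) (.e (nat_lit 360475) (nat_lit 8) (.e (nat_lit 557073) (nat_lit 9) .nil))))))) (.g (nat_lit 7) .nil .nil)))) (.nd (nat_lit 4) 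
(.lf (nat_lit 5515) (.g (nat_lit 3420) (.e (nat_lit 287) (nat_lit 21) (.e (nat_lit 336231) (nat_lit 14) (.e (nat_lit 401458) (nat_lit 13) (.e (nat_lit 483372) (nat_lit 21) (.e (nat_lit 319504) (nat_lit 10) (.e (nat_lit 7936) (nat_lit 312) .nil)))))) (.g (nat_lit 5) .nil .nil))) 
(.lf (nat_lit 5531) (.g (nat_lit 756) (.e (nat_lit 290) (nat_lit 21) (.e (nat_lit 335894) (nat_lit 0) (.e (nat_lit 6514) (nat_lit 346) .nil))) .nil)))) (.nd (nat_lit 3) (.nd (nat_lit 4) 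
(.lf (nat_lit 5511) (.g (nat_lit 2843) (.e (nat_lit 287) (nat_lit 21) (.e (nat_lit 336223) (nat_lit 13) (.e (nat_lit 393301) (nat_lit 27) (.e (nat_lit 491560) (nat_lit 10) (.e (nat_lit 344179) (nat_lit 44) .nil))))) .nil)) 
(.lf (nat_lit 5527) (.g (nat_lit 1978) (.e (nat_lit 290) (nat_lit 21) (.e (nat_lit 335894) (nat_lit 0) (.e (nat_lit 2358) (nat_lit 152) (.e (nat_lit 786481) (nat_lit 30) (.e (nat_lit 360473) (nat_lit 8) (.e (nat_lit 557089) (nat_lit 12) (.e (nat_lit 164007) (nat_lit 41) (.e (nat_lit 663574) (nat_lit 9) .nil)))))))) (.g (nat_lit 4) .nil .nil)))) (.nd (nat_lit 4) 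
(.lf (nat_lit 5519) (.g (nat_lit 2236) (.e (nat_lit 289) (nat_lit 21) (.e (nat_lit 336235) (nat_lit 14) (.e (nat_lit 401458) (nat_lit 13) (.e (nat_lit 483372) (nat_lit 21) (.e (nat_lit 319505) (nat_lit 10) .nil))))) .nil)) 
(.lf (nat_lit 5535) (.g (nat_lit 3932) (.e (nat_lit 290) (nat_lit 21) (.e (nat_lit 335894) (nat_lit 0) (.e (nat_lit 6617) (nat_lit 357) (.e (nat_lit 2685) (nat_lit 168) (.e (nat_lit 204869) (nat_lit 29) (.e (nat_lit 360475) (nat_lit 8) (.e (nat_lit 557073) (nat_lit 9) .nil))))))) (.g (nat_lit 7) .nil .nil))))))))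

noncomputable def tv073 : DT := (.nd (nat_lit 0) (.nd (nat_lit 1) (.nd (nat_lit 2) (.nd (nat_lit 3) (.nd (nat_lit 4) 
(.lf (nat_lit 5536) (.g (nat_lit 2439) (.e (nat_lit 290) (nat_lit 21) (.e (nat_lit 335894) (nat_lit 0) (.e (nat_lit 6619) (nat_lit 357) (.e (nat_lit 2668) (nat_lit 167) (.e (nat_lit 196666) (nat_lit 13) (.e (nat_lit 65617) (nat_lit 10) (.e (nat_lit 344127) (nat_lit 26) (.e (nat_lit 557072) (nat_lit 9) .nil)))))))) (.g (nat_lit 5) .nil .nil))) 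
(.lf (nat_lit 5552) (.g (nat_lit 2128) (.e (nat_lit 290) (nat_lit 21) (.e (nat_lit 335894) (nat_lit 0) (.e (nat_lit 6670) (nat_lit 357) (.e (nat_lit 2664) (nat_lit 167) (.e (nat_lit 196666) (nat_lit 13) (.e (nat_lit 65617) (nat_lit 10) (.e (nat_lit 344133) (nat_lit 26) (.e (nat_lit 557068) (nat_lit 9) .nil)))))))) (.g (nat_lit 4) .nil .nil)))) (.nd (nat_lit 4) 
(.lf (nat_lit 5544) (.g (nat_lit 2545) (.e (nat_lit 290) (nat_lit 21) (.e (nat_lit 335894) (nat_lit 0) (.e (nat_lit 6654) (nat_lit 357) (.e (nat_lit 2664) (nat_lit 167) (.e (nat_lit 196666) (nat_lit 13) (.e (nat_lit 65617) (nat_lit 10) (.e (nat_lit 344132) (nat_lit 26) (.e (nat_lit 557072) (nat_lit 9) .nil)))))))) (.g (nat_lit 5) .nil .nil))) 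
(.lf (nat_lit 5560) (.g (nat_lit 3665) (.e (nat_lit 290) (nat_lit 21) (.e (nat_lit 335895) (nat_lit 0) (.e (nat_lit 6617) (nat_lit 357) (.e (nat_lit 2685) (nat_lit 168) (.e (nat_lit 204869) (nat_lit 29) (.e (nat_lit 360475) (nat_lit 8) (.e (nat_lit 557068) (nat_lit 9) .nil))))))) (.g (nat_lit 0) .nil .nil))))) (.nd (nat_lit 3) (.nd (nat_lit 4) 
(.lf (nat_lit 5540) (.g (nat_lit 2359) (.e (nat_lit 290) (nat_lit 21) (.e (nat_lit 335894) (nat_lit 0) (.e (nat_lit 6654) (nat_lit 357) (.e (nat_lit 2663) (nat_lit 167) (.e (nat_lit 196666) (nat_lit 13) (.e (nat_lit 65617) (nat_lit 10) (.e (nat_lit 344130) (nat_lit 26) (.e (nat_lit 557067) (nat_lit 9) .nil)))))))) (.g (nat_lit 4) .nil .nil))) 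
(.lf (nat_lit 5556) (.g (nat_lit 3826) (.e (nat_lit 290) (nat_lit 21) (.e (nat_lit 335894) (nat_lit 0) (.e (nat_lit 6714) (nat_lit 360) (.e (nat_lit 163962) (nat_lit 25) (.e (nat_lit 532550) (nat_lit 12) (.e (nat_lit 360475) (nat_lit 8) (.e (nat_lit 557068) (nat_lit 9) .nil))))))) (.g (nat_lit 0) .nil .nil)))) (.nd (nat_lit 4) 
(.lf (nat_lit 5548) (.g (nat_lit 2333) (.e (nat_lit 290) (nat_lit 21) (.e (nat_lit 335894) (nat_lit 0) (.e (nat_lit 6670) (nat_lit 357) (.e (nat_lit 2663) (nat_lit 167) (.e (nat_lit 196666) (nat_lit 13) (.e (nat_lit 65617) (nat_lit 10) (.e (nat_lit 344132) (nat_lit 26) (.e (nat_lit 557072) (nat_lit 9) .nil)))))))) (.g (nat_lit 4) .nil .nil))) 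
(.lf (nat_lit 5564) (.g (nat_lit 3089) (.e (nat_lit 290) (nat_lit 21) (.e (nat_lit 335895) (nat_lit 0) (.e (nat_lit 6712) (nat_lit 360) (.e (nat_lit 163962) (nat_lit 25) (.e (nat_lit 532550) (nat_lit 12) (.e (nat_lit 360474) (nat_lit 8) (.e (nat_lit 557073) (nat_lit 9) .nil))))))) (.g (nat_lit 0) .nil .nil)))))) (.nd (nat_lit 2) (.nd (nat_lit 3) (.nd (nat_lit 4) 
(.lf (nat_lit 5538) (.g (nat_lit 2133) (.e (nat_lit 290) (nat_lit 21) (.e (nat_lit 335894) (nat_lit 0) (.e (nat_lit 6643) (nat_lit 357) (.e (nat_lit 2663) (nat_lit 167) (.e (nat_lit 196666) (nat_lit 13) (.e (nat_lit 65617) (nat_lit 10) (.e (nat_lit 344130) (nat_lit 26) (.e (nat_lit 557067) (nat_lit 9) .nil)))))))) (.g (nat_lit 4) .nil .nil))) 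
(.lf (nat_lit 5554) (.g (nat_lit 4509) (.e (nat_lit 290) (nat_lit 21) (.e (nat_lit 335894) (nat_lit 0) (.e (nat_lit 6712) (nat_lit 360) (.e (nat_lit 163962) (nat_lit 25) (.e (nat_lit 532550) (nat_lit 12) (.e (nat_lit 360475) (nat_lit 8) (.e (nat_lit 557073) (nat_lit 9) .nil))))))) (.g (nat_lit 7) .nil .nil)))) (.nd (nat_lit 4) 
(.lf (nat_lit 5546) (.g (nat_lit 2649) (.e (nat_lit 290) (nat_lit 21) (.e (nat_lit 335894) (nat_lit 0) (.e (nat_lit 6654) (nat_lit 357) (.e (nat_lit 2664) (nat_lit 167) (.e (nat_lit 196666) (nat_lit 13) (.e (nat_lit 65617) (nat_lit 10) (.e (nat_lit 344133) (nat_lit 26) (.e (nat_lit 557068) (nat_lit 9) .nil)))))))) (.g (nat_lit 5) .nil .nil))) 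
(.lf (nat_lit 5562) (.g (nat_lit 3727) (.e (nat_lit 290) (nat_lit 21) (.e (nat_lit 335895) (nat_lit 0) (.e (nat_lit 6619) (nat_lit 357) (.e (nat_lit 2685) (nat_lit 168) (.e (nat_lit 204869) (nat_lit 29) (.e (nat_lit 360475) (nat_lit 8) (.e (nat_lit 557068) (nat_lit 9) .nil))))))) (.g (nat_lit 0) .nil .nil))))) (.nd (nat_lit 3) (.nd (nat_lit 4) 
(.lf (nat_lit 5542) (.g (nat_lit 2373) (.e (nat_lit 290) (nat_lit 21) (.e (nat_lit 335894) (nat_lit 0) (.e (nat_lit 6654) (nat_lit 357) (.e (nat_lit 2663) (nat_lit 167) (.e (nat_lit 196666) (nat_lit 13) (.e (nat_lit 65617) (nat_lit 10) (.e (nat_lit 344133) (nat_lit 26) (.e (nat_lit 557068) (nat_lit 9) .nil)))))))) (.g (nat_lit 4) .nil .nil))) 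
(.lf (nat_lit 5558) (.g (nat_lit 3438) (.e (nat_lit 290) (nat_lit 21) (.e (nat_lit 335895) (nat_lit 0) (.e (nat_lit 6617) (nat_lit 357) (.e (nat_lit 2685) (nat_lit 168) (.e (nat_lit 204869) (nat_lit 29) (.e (nat_lit 360474) (nat_lit 8) (.e (nat_lit 557072) (nat_lit 9) .nil))))))) (.g (nat_lit 7) .nil .nil)))) (.nd (nat_lit 4) 
(.lf (nat_lit 5550) (.g (nat_lit 2074) (.e (nat_lit 290) (nat_lit 21) (.e (nat_lit 335894) (nat_lit 0) (.e (nat_lit 6670) (nat_lit 357) (.e (nat_lit 2664) (nat_lit 167) (.e (nat_lit 196666) (nat_lit 13) (.e (nat_lit 65617) (nat_lit 10) (.e (nat_lit 344130) (nat_lit 26) (.e (nat_lit 557067) (nat_lit 9) .nil)))))))) (.g (nat_lit 4) .nil .nil))) 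
(.lf (nat_lit 5566) (.g (nat_lit 3706) (.e (nat_lit 290) (nat_lit 21) (.e (nat_lit 335895) (nat_lit 0) (.e (nat_lit 6712) (nat_lit 360) (.e (nat_lit 163962) (nat_lit 25) (.e (nat_lit 532550) (nat_lit 12) (.e (nat_lit 360475) (nat_lit 8) (.e (nat_lit 557073) (nat_lit 9) .nil))))))) (.g (nat_lit 7) .nil .nil))))))) (.nd (nat_lit 1) (.nd (nat_lit 2) (.nd (nat_lit 3) (.nd (nat_lit 4) 
(.lf (nat_lit 5537) (.g (nat_lit 4038) (.e (nat_lit 290) (nat_lit 21) (.e (nat_lit 335894) (nat_lit 0) (.e (nat_lit 6619) (nat_lit 357) (.e (nat_lit 2685) (nat_lit 168) (.e (nat_lit 204869) (nat_lit 29) (.e (nat_lit 360475) (nat_lit 8) (.e (nat_lit 557073) (nat_lit 9) .nil))))))) (.g (nat_lit 7) .nil .nil))) 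
(.lf (nat_lit 5553) (.g (nat_lit 4262) (.e (nat_lit 290) (nat_lit 21) (.e (nat_lit 335894) (nat_lit 0) (.e (nat_lit 6712) (nat_lit 360) (.e (nat_lit 163962) (nat_lit 25) (.e (nat_lit 532549) (nat_lit 12) (.e (nat_lit 360475) (nat_lit 8) (.e (nat_lit 557068) (nat_lit 9) .nil))))))) (.g (nat_lit 6) .nil .nil)))) (.nd (nat_lit 4) 
(.lf (nat_lit 5545) (.g (nat_lit 2223) (.e (nat_lit 290) (nat_lit 21) (.e (nat_lit 335894) (nat_lit 0) (.e (nat_lit 6654) (nat_lit 357) (.e (nat_lit 2664) (nat_lit 167) (.e (nat_lit 196666) (nat_lit 13) (.e (nat_lit 65617) (nat_lit 10) (.e (nat_lit 344132) (nat_lit 26) (.e (nat_lit 557073) (nat_lit 9) .nil)))))))) (.g (nat_lit 4) .nil .nil))) 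
(.lf (nat_lit 5561) (.g (nat_lit 3206) (.e (nat_lit 290) (nat_lit 21) (.e (nat_lit 335895) (nat_lit 0) (.e (nat_lit 6619) (nat_lit 357) (.e (nat_lit 2685) (nat_lit 168) (.e (nat_lit 204869) (nat_lit 29) (.e (nat_lit 360474) (nat_lit 8) (.e (nat_lit 557073) (nat_lit 9) .nil))))))) (.g (nat_lit 0) .nil .nil))))) (.nd (nat_lit 3) (.nd (nat_lit 4) 
(.lf (nat_lit 5541) (.g (nat_lit 2315) (.e (nat_lit 290) (nat_lit 21) (.e (nat_lit 335894) (nat_lit 0) (.e (nat_lit 6654) (nat_lit 357) (.e (nat_lit 2663) (nat_lit 167) (.e (nat_lit 196666) (nat_lit 13) (.e (nat_lit 65617) (nat_lit 10) (.e (nat_lit 344132) (nat_lit 26) (.e (nat_lit 557072) (nat_lit 9) .nil)))))))) (.g (nat_lit 4) .nil .nil))) 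
(.lf (nat_lit 5557) (.g (nat_lit 3766) (.e (nat_lit 290) (nat_lit 21) (.e (nat_lit 335894) (nat_lit 0) (.e (nat_lit 6714) (nat_lit 360) (.e (nat_lit 163962) (nat_lit 25) (.e (nat_lit 532550) (nat_lit 12) (.e (nat_lit 360475) (nat_lit 8) (.e (nat_lit 557073) (nat_lit 9) .nil))))))) (.g (nat_lit 7) .nil .nil)))) (.nd (nat_lit 4) 
(.lf (nat_lit 5549) (.g (nat_lit 2391) (.e (nat_lit 290) (nat_lit 21) (.e (nat_lit 335894) (nat_lit 0) (.e (nat_lit 6670) (nat_lit 357) (.e (nat_lit 2663) (nat_lit 167) (.e (nat_lit 196666) (nat_lit 13) (.e (nat_lit 65617) (nat_lit 10) (.e (nat_lit 344133) (nat_lit 26) (.e (nat_lit 557068) (nat_lit 9) .nil)))))))) (.g (nat_lit 4) .nil .nil))) 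
(.lf (nat_lit 5565) (.g (nat_lit 3743) (.e (nat_lit 290) (nat_lit 21) (.e (nat_lit 335895) (nat_lit 0) (.e (nat_lit 6712) (nat_lit 360) (.e (nat_lit 163962) (nat_lit 25) (.e (nat_lit 532550) (nat_lit 12) (.e (nat_lit 360475) (nat_lit 8) (.e (nat_lit 557068) (nat_lit 9) .nil))))))) (.g (nat_lit 0) .nil .nil)))))) (.nd (nat_lit 2) (.nd (nat_lit 3) (.nd (nat_lit 4) 
(.lf (nat_lit 5539) (.g (nat_lit 2147) (.e (nat_lit 290) (nat_lit 21) (.e (nat_lit 335894) (nat_lit 0) (.e (nat_lit 6643) (nat_lit 357) (.e (nat_lit 2663) (nat_lit 167) (.e (nat_lit 196666) (nat_lit 13) (.e (nat_lit 65617) (nat_lit 10) (.e (nat_lit 344133) (nat_lit 26) (.e (nat_lit 557068) (nat_lit 9) .nil)))))))) (.g (nat_lit 4) .nil .nil))) 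
(.lf (nat_lit 5555) (.g (nat_lit 3447) (.e (nat_lit 290) (nat_lit 21) (.e (nat_lit 335894) (nat_lit 0) (.e (nat_lit 6714) (nat_lit 360) (.e (nat_lit 163962) (nat_lit 25) (.e (nat_lit 532549) (nat_lit 12) (.e (nat_lit 360475) (nat_lit 8) (.e (nat_lit 557068) (nat_lit 9) .nil))))))) (.g (nat_lit 6) .nil .nil)))) (.nd (nat_lit 4) 
(.lf (nat_lit 5547) (.g (nat_lit 2377) (.e (nat_lit 290) (nat_lit 21) (.e (nat_lit 335894) (nat_lit 0) (.e (nat_lit 6670) (nat_lit 357) (.e (nat_lit 2663) (nat_lit 167) (.e (nat_lit 196666) (nat_lit 13) (.e (nat_lit 65617) (nat_lit 10) (.e (nat_lit 344130) (nat_lit 26) (.e (nat_lit 557067) (nat_lit 9) .nil)))))))) (.g (nat_lit 4) .nil .nil))) 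
(.lf (nat_lit 5563) (.g (nat_lit 3820) (.e (nat_lit 290) (nat_lit 21) (.e (nat_lit 335895) (nat_lit 0) (.e (nat_lit 6619) (nat_lit 357) (.e (nat_lit 2685) (nat_lit 168) (.e (nat_lit 204869) (nat_lit 29) (.e (nat_lit 360475) (nat_lit 8) (.e (nat_lit 557073) (nat_lit 9) .nil))))))) (.g (nat_lit 7) .nil .nil))))) (.nd (nat_lit 3) (.nd (nat_lit 4) 
(.lf (nat_lit 5543) (.g (nat_lit 2595) (.e (nat_lit 290) (nat_lit 21) (.e (nat_lit 335894) (nat_lit 0) (.e (nat_lit 6654) (nat_lit 357) (.e (nat_lit 2664) (nat_lit 167) (.e (nat_lit 196666) (nat_lit 13) (.e (nat_lit 65617) (nat_lit 10) (.e (nat_lit 344130) (nat_lit 26) (.e (nat_lit 557067) (nat_lit 9) .nil)))))))) (.g (nat_lit 5) .nil .nil))) 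
(.lf (nat_lit 5559) (.g (nat_lit 3168) (.e (nat_lit 290) (nat_lit 21) (.e (nat_lit 335895) (nat_lit 0) (.e (nat_lit 6617) (nat_lit 357) (.e (nat_lit 2685) (nat_lit 168) (.e (nat_lit 204869) (nat_lit 29) (.e (nat_lit 360474) (nat_lit 8) (.e (nat_lit 557073) (nat_lit 9) .nil))))))) (.g (nat_lit 0) .nil .nil)))) (.nd (nat_lit 4) 
(.lf (nat_lit 5551) (.g (nat_lit 2024) (.e (nat_lit 290) (nat_lit 21) (.e (nat_lit 335894) (nat_lit 0) (.e (nat_lit 6670) (nat_lit 357) (.e (nat_lit 2664) (nat_lit 167) (.e (nat_lit 196666) (nat_lit 13) (.e (nat_lit 65617) (nat_lit 10) (.e (nat_lit 344132) (nat_lit 26) (.e (nat_lit 557072) (nat_lit 9) .nil)))))))) (.g (nat_lit 4) .nil .nil))) 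
(.lf (nat_lit 5567) (.g (nat_lit 2737) (.e (nat_lit 290) (nat_lit 21) (.e (nat_lit 335895) (nat_lit 0) (.e (nat_lit 6714) (nat_lit 360) (.e (nat_lit 163962) (nat_lit 25) (.e (nat_lit 532550) (nat_lit 12) (.e (nat_lit 360474) (nat_lit 8) (.e (nat_lit 557073) (nat_lit 9) .nil))))))) (.g (nat_lit 0) .nil .nil))))))))

noncomputable def tv074 : DT := (.nd (nat_lit 0) (.nd (nat_lit 1) (.nd (nat_lit 2) (.nd (nat_lit 3) (.nd (nat_lit 4) (.nd (nat_lit 5) 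
(.lf (nat_lit 5568) (.g (nat_lit 3394) (.e (nat_lit 290) (nat_lit 21) (.e (nat_lit 335895) (nat_lit 0) (.e (nat_lit 6714) (nat_lit 360) (.e (nat_lit 163962) (nat_lit 25) (.e (nat_lit 532550) (nat_lit 12) (.e (nat_lit 360475) (nat_lit 8) (.e (nat_lit 557068) (nat_lit 9) .nil))))))) (.g (nat_lit 0) .nil .nil))) 
(.lf (nat_lit 5600) (.g (nat_lit 4957) (.e (nat_lit 290) (nat_lit 21) (.e (nat_lit 336011) (nat_lit 2) (.e (nat_lit 90170) (nat_lit 13) (.e (nat_lit 172113) (nat_lit 10) (.e (nat_lit 434247) (nat_lit 28) (.e (nat_lit 573477) (nat_lit 12) (.e (nat_lit 57575) (nat_lit 55) (.e (nat_lit 778380) (nat_lit 9) .nil)))))))) (.g (nat_lit 6) .nil .nil)))) (.nd (nat_lit 5) 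
(.lf (nat_lit 5584) (.g (nat_lit 2389) (.e (nat_lit 290) (nat_lit 21) (.e (nat_lit 336009) (nat_lit 2) (.e (nat_lit 90170) (nat_lit 13) (.e (nat_lit 172113) (nat_lit 10) (.e (nat_lit 434247) (nat_lit 28) (.e (nat_lit 573478) (nat_lit 12) (.e (nat_lit 57574) (nat_lit 55) (.e (nat_lit 778380) (nat_lit 9) .nil)))))))) (.g (nat_lit 4) .nil .nil))) 
(.lf (nat_lit 5616) (.g (nat_lit 3816) (.e (nat_lit 290) (nat_lit 21) (.e (nat_lit 336021) (nat_lit 3) (.e (nat_lit 98313) (nat_lit 9) (.e (nat_lit 336027) (nat_lit 3) (.e (nat_lit 98317) (nat_lit 9) (.e (nat_lit 336011) (nat_lit 2) (.e (nat_lit 90134) (nat_lit 9) .nil))))))) (.g (nat_lit 0) .nil .nil))))) (.nd (nat_lit 4) (.nd (nat_lit 5) 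
(.lf (nat_lit 5576) (.g (nat_lit 1610) (.e (nat_lit 290) (nat_lit 21) (.e (nat_lit 336009) (nat_lit 2) (.e (nat_lit 90170) (nat_lit 13) (.e (nat_lit 172106) (nat_lit 10) (.e (nat_lit 434244) (nat_lit 28) (.e (nat_lit 573458) (nat_lit 9) (.e (nat_lit 1310) (nat_lit 98) (.e (nat_lit 147476) (nat_lit 9) .nil)))))))) (.g (nat_lit 4) .nil .nil))) 
(.lf (nat_lit 5608) (.g (nat_lit 983) (.e (nat_lit 290) (nat_lit 21) (.e (nat_lit 336021) (nat_lit 3) (.e (nat_lit 98313) (nat_lit 9) (.e (nat_lit 336012) (nat_lit 2) .nil)))) .nil))) (.nd (nat_lit 5) 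
(.lf (nat_lit 5592) (.g (nat_lit 2405) (.e (nat_lit 290) (nat_lit 21) (.e (nat_lit 336011) (nat_lit 2) (.e (nat_lit 90170) (nat_lit 13) (.e (nat_lit 172106) (nat_lit 10) (.e (nat_lit 434244) (nat_lit 28) (.e (nat_lit 573449) (nat_lit 9) (.e (nat_lit 1312) (nat_lit 98) (.e (nat_lit 147476) (nat_lit 9) .nil)))))))) (.g (nat_lit 4) .nil .nil))) 
(.lf (nat_lit 5624) (.g (nat_lit 4187) (.e (nat_lit 290) (nat_lit 21) (.e (nat_lit 336021) (nat_lit 3) (.e (nat_lit 98317) (nat_lit 9) (.e (nat_lit 336012) (nat_lit 2) (.e (nat_lit 90158) (nat_lit 11) (.e (nat_lit 24604) (nat_lit 2) (.e (nat_lit 90134) (nat_lit 9) .nil))))))) (.g (nat_lit 7) .nil .nil)))))) (.nd (nat_lit 3) (.nd (nat_lit 4) (.nd (nat_lit 5) 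
(.lf (nat_lit 5572) (.g (nat_lit 3796) (.e (nat_lit 290) (nat_lit 21) (.e (nat_lit 336002) (nat_lit 2) (.e (nat_lit 90158) (nat_lit 11) (.e (nat_lit 24608) (nat_lit 3) (.e (nat_lit 98313) (nat_lit 9) (.e (nat_lit 336011) (nat_lit 2) (.e (nat_lit 90134) (nat_lit 9) .nil))))))) (.g (nat_lit 0) .nil .nil))) 
(.lf (nat_lit 5604) (.g (nat_lit 2287) (.e (nat_lit 290) (nat_lit 21) (.e (nat_lit 336012) (nat_lit 2) (.e (nat_lit 90176) (nat_lit 15) (.e (nat_lit 188450) (nat_lit 23) (.e (nat_lit 204817) (nat_lit 17) .nil))))) .nil))) (.nd (nat_lit 5) 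
(.lf (nat_lit 5588) (.g (nat_lit 1932) (.e (nat_lit 290) (nat_lit 21) (.e (nat_lit 336010) (nat_lit 2) (.e (nat_lit 90170) (nat_lit 13) (.e (nat_lit 172113) (nat_lit 10) (.e (nat_lit 434245) (nat_lit 28) (.e (nat_lit 573474) (nat_lit 12) (.e (nat_lit 57574) (nat_lit 55) (.e (nat_lit 778359) (nat_lit 9) .nil)))))))) (.g (nat_lit 4) .nil .nil))) 
(.lf (nat_lit 5620) (.g (nat_lit 4337) (.e (nat_lit 290) (nat_lit 21) (.e (nat_lit 336021) (nat_lit 3) (.e (nat_lit 98317) (nat_lit 9) (.e (nat_lit 336004) (nat_lit 2) (.e (nat_lit 90158) (nat_lit 11) (.e (nat_lit 24604) (nat_lit 2) (.e (nat_lit 90134) (nat_lit 9) .nil))))))) (.g (nat_lit 7) .nil .nil))))) (.nd (nat_lit 4) (.nd (nat_lit 5) 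
(.lf (nat_lit 5580) (.g (nat_lit 2579) (.e (nat_lit 290) (nat_lit 21) (.e (nat_lit 336009) (nat_lit 2) (.e (nat_lit 90170) (nat_lit 13) (.e (nat_lit 172113) (nat_lit 10) (.e (nat_lit 434245) (nat_lit 28) (.e (nat_lit 573474) (nat_lit 12) (.e (nat_lit 57574) (nat_lit 55) (.e (nat_lit 778359) (nat_lit 9) .nil)))))))) (.g (nat_lit 4) .nil .nil))) 
(.lf (nat_lit 5612) (.g (nat_lit 4425) (.e (nat_lit 290) (nat_lit 21) (.e (nat_lit 336021) (nat_lit 3) (.e (nat_lit 98313) (nat_lit 9) (.e (nat_lit 336027) (nat_lit 3) (.e (nat_lit 98313) (nat_lit 9) (.e (nat_lit 336011) (nat_lit 2) (.e (nat_lit 90134) (nat_lit 9) .nil))))))) (.g (nat_lit 0) .nil .nil)))) (.nd (nat_lit 5) 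
(.lf (nat_lit 5596) (.g (nat_lit 3214) (.e (nat_lit 290) (nat_lit 21) (.e (nat_lit 336011) (nat_lit 2) (.e (nat_lit 90170) (nat_lit 13) (.e (nat_lit 172113) (nat_lit 10) (.e (nat_lit 434245) (nat_lit 28) .nil))))) .nil)) 
(.lf (nat_lit 5628) (.g (nat_lit 1599) (.e (nat_lit 290) (nat_lit 21) (.e (nat_lit 336021) (nat_lit 3) (.e (nat_lit 98317) (nat_lit 9) (.e (nat_lit 336026) (nat_lit 3) .nil)))) .nil)))))) (.nd (nat_lit 2) (.nd (nat_lit 3) (.nd (nat_lit 4) (.nd (nat_lit 5) 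
(.lf (nat_lit 5570) (.g (nat_lit 3555) (.e (nat_lit 290) (nat_lit 21) (.e (nat_lit 336002) (nat_lit 2) (.e (nat_lit 90158) (nat_lit 11) (.e (nat_lit 24604) (nat_lit 2) (.e (nat_lit 90158) (nat_lit 11) (.e (nat_lit 24604) (nat_lit 2) (.e (nat_lit 90134) (nat_lit 9) .nil))))))) (.g (nat_lit 7) .nil .nil))) 
(.lf (nat_lit 5602) (.g (nat_lit 3261) (.e (nat_lit 290) (nat_lit 21) (.e (nat_lit 336011) (nat_lit 2) (.e (nat_lit 90170) (nat_lit 13) (.e (nat_lit 172113) (nat_lit 10) (.e (nat_lit 434248) (nat_lit 28) (.e (nat_lit 573475) (nat_lit 12) (.e (nat_lit 57574) (nat_lit 55) (.e (nat_lit 778380) (nat_lit 9) .nil)))))))) (.g (nat_lit 4) .nil .nil)))) (.nd (nat_lit 5) 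
(.lf (nat_lit 5586) (.g (nat_lit 2417) (.e (nat_lit 290) (nat_lit 21) (.e (nat_lit 336009) (nat_lit 2) (.e (nat_lit 90170) (nat_lit 13) (.e (nat_lit 172113) (nat_lit 10) (.e (nat_lit 434248) (nat_lit 28) (.e (nat_lit 573475) (nat_lit 12) (.e (nat_lit 57574) (nat_lit 55) (.e (nat_lit 778377) (nat_lit 9) .nil)))))))) (.g (nat_lit 4) .nil .nil))) 
(.lf (nat_lit 5618) (.g (nat_lit 1871) (.e (nat_lit 290) (nat_lit 21) (.e (nat_lit 336021) (nat_lit 3) (.e (nat_lit 98317) (nat_lit 9) (.e (nat_lit 336003) (nat_lit 2) .nil)))) .nil)))) (.nd (nat_lit 4) (.nd (nat_lit 5) 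
(.lf (nat_lit 5578) (.g (nat_lit 2126) (.e (nat_lit 290) (nat_lit 21) (.e (nat_lit 336009) (nat_lit 2) (.e (nat_lit 90170) (nat_lit 13) (.e (nat_lit 172113) (nat_lit 10) (.e (nat_lit 434242) (nat_lit 28) .nil))))) .nil)) 
(.lf (nat_lit 5610) (.g (nat_lit 4208) (.e (nat_lit 290) (nat_lit 21) (.e (nat_lit 336021) (nat_lit 3) (.e (nat_lit 98313) (nat_lit 9) (.e (nat_lit 336021) (nat_lit 3) (.e (nat_lit 98313) (nat_lit 9) (.e (nat_lit 336011) (nat_lit 2) (.e (nat_lit 90134) (nat_lit 9) .nil))))))) (.g (nat_lit 7) .nil .nil)))) (.nd (nat_lit 5) 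
(.lf (nat_lit 5594) (.g (nat_lit 2541) (.e (nat_lit 290) (nat_lit 21) (.e (nat_lit 336011) (nat_lit 2) (.e (nat_lit 90170) (nat_lit 13) (.e (nat_lit 172106) (nat_lit 10) (.e (nat_lit 434244) (nat_lit 28) (.e (nat_lit 573458) (nat_lit 9) (.e (nat_lit 1313) (nat_lit 98) (.e (nat_lit 147477) (nat_lit 9) .nil)))))))) (.g (nat_lit 4) .nil .nil))) 
(.lf (nat_lit 5626) (.g (nat_lit 4481) (.e (nat_lit 290) (nat_lit 21) (.e (nat_lit 336021) (nat_lit 3) (.e (nat_lit 98317) (nat_lit 9) (.e (nat_lit 336021) (nat_lit 3) (.e (nat_lit 98313) (nat_lit 9) (.e (nat_lit 336011) (nat_lit 2) (.e (nat_lit 90134) (nat_lit 9) .nil))))))) (.g (nat_lit 7) .nil .nil)))))) (.nd (nat_lit 3) (.nd (nat_lit 4) (.nd (nat_lit 5) 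
(.lf (nat_lit 5574) (.g (nat_lit 2543) (.e (nat_lit 290) (nat_lit 21) (.e (nat_lit 336002) (nat_lit 2) (.e (nat_lit 90170) (nat_lit 13) (.e (nat_lit 172113) (nat_lit 10) (.e (nat_lit 434247) (nat_lit 28) (.e (nat_lit 573477) (nat_lit 12) (.e (nat_lit 57575) (nat_lit 55) (.e (nat_lit 778380) (nat_lit 9) .nil)))))))) (.g (nat_lit 4) .nil .nil))) 
(.lf (nat_lit 5606) (.g (nat_lit 3206) (.e (nat_lit 290) (nat_lit 21) (.e (nat_lit 336021) (nat_lit 3) (.e (nat_lit 98313) (nat_lit 9) (.e (nat_lit 336004) (nat_lit 2) (.e (nat_lit 90158) (nat_lit 11) (.e (nat_lit 24605) (nat_lit 2) (.e (nat_lit 90134) (nat_lit 9) .nil))))))) (.g (nat_lit 7) .nil .nil)))) (.nd (nat_lit 5) 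
(.lf (nat_lit 5590) (.g (nat_lit 2126) (.e (nat_lit 290) (nat_lit 21) (.e (nat_lit 336011) (nat_lit 2) (.e (nat_lit 90170) (nat_lit 13) (.e (nat_lit 172106) (nat_lit 10) (.e (nat_lit 434244) (nat_lit 28) .nil))))) .nil)) 
(.lf (nat_lit 5622) (.g (nat_lit 2911) (.e (nat_lit 290) (nat_lit 21) (.e (nat_lit 336021) (nat_lit 3) (.e (nat_lit 98317) (nat_lit 9) (.e (nat_lit 336010) (nat_lit 2) (.e (nat_lit 90158) (nat_lit 11) (.e (nat_lit 24605) (nat_lit 2) (.e (nat_lit 90134) (nat_lit 9) .nil))))))) (.g (nat_lit 6) .nil .nil))))) (.nd (nat_lit 4) (.nd (nat_lit 5) 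
(.lf (nat_lit 5582) (.g (nat_lit 3186) (.e (nat_lit 290) (nat_lit 21) (.e (nat_lit 336009) (nat_lit 2) (.e (nat_lit 90170) (nat_lit 13) (.e (nat_lit 172113) (nat_lit 10) (.e (nat_lit 434245) (nat_lit 28) (.e (nat_lit 573474) (nat_lit 12) (.e (nat_lit 57574) (nat_lit 55) (.e (nat_lit 778380) (nat_lit 9) .nil)))))))) (.g (nat_lit 5) .nil .nil))) 
(.lf (nat_lit 5614) (.g (nat_lit 2905) (.e (nat_lit 290) (nat_lit 21) (.e (nat_lit 336021) (nat_lit 3) (.e (nat_lit 98313) (nat_lit 9) (.e (nat_lit 336027) (nat_lit 3) (.e (nat_lit 98316) (nat_lit 9) (.e (nat_lit 336011) (nat_lit 2) (.e (nat_lit 90134) (nat_lit 9) .nil))))))) (.g (nat_lit 6) .nil .nil)))) (.nd (nat_lit 5) 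
(.lf (nat_lit 5598) (.g (nat_lit 3243) (.e (nat_lit 290) (nat_lit 21) (.e (nat_lit 336011) (nat_lit 2) (.e (nat_lit 90170) (nat_lit 13) (.e (nat_lit 172113) (nat_lit 10) (.e (nat_lit 434247) (nat_lit 28) .nil))))) .nil)) 
(.lf (nat_lit 5630) (.g (nat_lit 2277) (.e (nat_lit 290) (nat_lit 21) (.e (nat_lit 336021) (nat_lit 3) (.e (nat_lit 98317) (nat_lit 9) (.e (nat_lit 336027) (nat_lit 3) (.e (nat_lit 98316) (nat_lit 9) .nil))))) .nil))))))) (.nd (nat_lit 1) (.nd (nat_lit 2) (.nd (nat_lit 3) (.nd (nat_lit 4) (.nd (nat_lit 5) 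
(.lf (nat_lit 5569) (.g (nat_lit 1895) (.e (nat_lit 290) (nat_lit 21) (.e (nat_lit 336002) (nat_lit 2) (.e (nat_lit 90158) (nat_lit 11) (.e (nat_lit 24603) (nat_lit 2) (.e (nat_lit 90158) (nat_lit 11) (.e (nat_lit 24605) (nat_lit 2) (.e (nat_lit 90134) (nat_lit 9) .nil))))))) (.g (nat_lit 6) .nil .nil))) 
(.lf (nat_lit 5601) (.g (nat_lit 3163) (.e (nat_lit 290) (nat_lit 21) (.e (nat_lit 336011) (nat_lit 2) (.e (nat_lit 90170) (nat_lit 13) (.e (nat_lit 172113) (nat_lit 10) (.e (nat_lit 434248) (nat_lit 28) .nil))))) .nil))) (.nd (nat_lit 5) 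
(.lf (nat_lit 5585) (.g (nat_lit 2285) (.e (nat_lit 290) (nat_lit 21) (.e (nat_lit 336009) (nat_lit 2) (.e (nat_lit 90170) (nat_lit 13) (.e (nat_lit 172113) (nat_lit 10) (.e (nat_lit 434248) (nat_lit 28) .nil))))) .nil)) 
(.lf (nat_lit 5617) (.g (nat_lit 456) (.e (nat_lit 290) (nat_lit 21) (.e (nat_lit 336021) (nat_lit 3) (.e (nat_lit 98317) (nat_lit 9) .nil))) .nil)))) (.nd (nat_lit 4) (.nd (nat_lit 5) 
(.lf (nat_lit 5577) (.g (nat_lit 1631) (.e (nat_lit 290) (nat_lit 21) (.e (nat_lit 336009) (nat_lit 2) (.e (nat_lit 90170) (nat_lit 13) (.e (nat_lit 172106) (nat_lit 10) (.e (nat_lit 434244) (nat_lit 28) (.e (nat_lit 573458) (nat_lit 9) (.e (nat_lit 1313) (nat_lit 98) (.e (nat_lit 147477) (nat_lit 9) .nil)))))))) (.g (nat_lit 4) .nil .nil))) 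
(.lf (nat_lit 5609) (.g (nat_lit 3374) (.e (nat_lit 290) (nat_lit 21) (.e (nat_lit 336021) (nat_lit 3) (.e (nat_lit 98313) (nat_lit 9) (.e (nat_lit 336012) (nat_lit 2) (.e (nat_lit 90158) (nat_lit 11) (.e (nat_lit 24605) (nat_lit 2) (.e (nat_lit 90134) (nat_lit 9) .nil))))))) (.g (nat_lit 7) .nil .nil)))) (.nd (nat_lit 5) 
(.lf (nat_lit 5593) (.g (nat_lit 2526) (.e (nat_lit 290) (nat_lit 21) (.e (nat_lit 336011) (nat_lit 2) (.e (nat_lit 90170) (nat_lit 13) (.e (nat_lit 172106) (nat_lit 10) (.e (nat_lit 434244) (nat_lit 28) (.e (nat_lit 573458) (nat_lit 9) (.e (nat_lit 1310) (nat_lit 98) (.e (nat_lit 147476) (nat_lit 9) .nil)))))))) (.g (nat_lit 5) .nil .nil))) 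
(.lf (nat_lit 5625) (.g (nat_lit 3470) (.e (nat_lit 290) (nat_lit 21) (.e (nat_lit 336021) (nat_lit 3) (.e (nat_lit 98317) (nat_lit 9) (.e (nat_lit 336012) (nat_lit 2) (.e (nat_lit 90158) (nat_lit 11) (.e (nat_lit 24605) (nat_lit 2) (.e (nat_lit 90134) (nat_lit 9) .nil))))))) (.g (nat_lit 6) .nil .nil)))))) (.nd (nat_lit 3) (.nd (nat_lit 4) (.nd (nat_lit 5) 
(.lf (nat_lit 5573) (.g (nat_lit 1961) (.e (nat_lit 290) (nat_lit 21) (.e (nat_lit 336002) (nat_lit 2) (.e (nat_lit 90158) (nat_lit 11) (.e (nat_lit 24609) (nat_lit 3) (.e (nat_lit 98317) (nat_lit 9) (.e (nat_lit 336010) (nat_lit 2) (.e (nat_lit 90134) (nat_lit 9) .nil))))))) (.g (nat_lit 5) .nil .nil))) 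
(.lf (nat_lit 5605) (.g (nat_lit 433) (.e (nat_lit 290) (nat_lit 21) (.e (nat_lit 336021) (nat_lit 3) (.e (nat_lit 98313) (nat_lit 9) .nil))) .nil))) (.nd (nat_lit 5) 
(.lf (nat_lit 5589) (.g (nat_lit 1942) (.e (nat_lit 290) (nat_lit 21) (.e (nat_lit 336010) (nat_lit 2) (.e (nat_lit 90170) (nat_lit 13) (.e (nat_lit 172113) (nat_lit 10) (.e (nat_lit 434245) (nat_lit 28) (.e (nat_lit 573474) (nat_lit 12) (.e (nat_lit 57574) (nat_lit 55) (.e (nat_lit 778377) (nat_lit 9) .nil)))))))) (.g (nat_lit 4) .nil .nil))) 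
(.lf (nat_lit 5621) (.g (nat_lit 2374) (.e (nat_lit 290) (nat_lit 21) (.e (nat_lit 336021) (nat_lit 3) (.e (nat_lit 98317) (nat_lit 9) (.e (nat_lit 336009) (nat_lit 2) (.e (nat_lit 90158) (nat_lit 11) (.e (nat_lit 24604) (nat_lit 2) (.e (nat_lit 90134) (nat_lit 9) .nil))))))) (.g (nat_lit 4) .nil .nil))))) (.nd (nat_lit 4) (.nd (nat_lit 5) 
(.lf (nat_lit 5581) (.g (nat_lit 2589) (.e (nat_lit 290) (nat_lit 21) (.e (nat_lit 336009) (nat_lit 2) (.e (nat_lit 90170) (nat_lit 13) (.e (nat_lit 172113) (nat_lit 10) (.e (nat_lit 434245) (nat_lit 28) (.e (nat_lit 573474) (nat_lit 12) (.e (nat_lit 57574) (nat_lit 55) (.e (nat_lit 778377) (nat_lit 9) .nil)))))))) (.g (nat_lit 4) .nil .nil))) 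
(.lf (nat_lit 5613) (.g (nat_lit 1774) (.e (nat_lit 290) (nat_lit 21) (.e (nat_lit 336021) (nat_lit 3) (.e (nat_lit 98313) (nat_lit 9) (.e (nat_lit 336027) (nat_lit 3) (.e (nat_lit 98316) (nat_lit 9) .nil))))) .nil))) (.nd (nat_lit 5) 
(.lf (nat_lit 5597) (.g (nat_lit 3428) (.e (nat_lit 290) (nat_lit 21) (.e (nat_lit 336011) (nat_lit 2) (.e (nat_lit 90170) (nat_lit 13) (.e (nat_lit 172113) (nat_lit 10) (.e (nat_lit 434245) (nat_lit 28) (.e (nat_lit 573474) (nat_lit 12) (.e (nat_lit 57574) (nat_lit 55) (.e (nat_lit 778380) (nat_lit 9) .nil)))))))) (.g (nat_lit 4) .nil .nil))) 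
(.lf (nat_lit 5629) (.g (nat_lit 4429) (.e (nat_lit 290) (nat_lit 21) (.e (nat_lit 336021) (nat_lit 3) (.e (nat_lit 98317) (nat_lit 9) (.e (nat_lit 336027) (nat_lit 3) (.e (nat_lit 98313) (nat_lit 9) (.e (nat_lit 336011) (nat_lit 2) (.e (nat_lit 90134) (nat_lit 9) .nil))))))) (.g (nat_lit 0) .nil .nil))))))) (.nd (nat_lit 2) (.nd (nat_lit 3) (.nd (nat_lit 4) (.nd (nat_lit 5) 
(.lf (nat_lit 5571) (.g (nat_lit 3702) (.e (nat_lit 290) (nat_lit 21) (.e (nat_lit 336002) (nat_lit 2) (.e (nat_lit 90158) (nat_lit 11) (.e (nat_lit 24607) (nat_lit 3) (.e (nat_lit 98317) (nat_lit 9) (.e (nat_lit 336011) (nat_lit 2) (.e (nat_lit 90134) (nat_lit 9) .nil))))))) (.g (nat_lit 7) .nil .nil))) 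
(.lf (nat_lit 5603) (.g (nat_lit 704) (.e (nat_lit 290) (nat_lit 21) (.e (nat_lit 336012) (nat_lit 2) (.e (nat_lit 90176) (nat_lit 15) .nil))) .nil))) (.nd (nat_lit 5) 
(.lf (nat_lit 5587) (.g (nat_lit 1930) (.e (nat_lit 290) (nat_lit 21) (.e (nat_lit 336010) (nat_lit 2) (.e (nat_lit 90170) (nat_lit 13) (.e (nat_lit 172106) (nat_lit 10) (.e (nat_lit 434244) (nat_lit 28) (.e (nat_lit 573458) (nat_lit 9) (.e (nat_lit 1313) (nat_lit 98) (.e (nat_lit 147476) (nat_lit 9) .nil)))))))) (.g (nat_lit 6) .nil .nil))) 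
(.lf (nat_lit 5619) (.g (nat_lit 1423) (.e (nat_lit 290) (nat_lit 21) (.e (nat_lit 336021) (nat_lit 3) (.e (nat_lit 98317) (nat_lit 9) (.e (nat_lit 336004) (nat_lit 2) .nil)))) .nil)))) (.nd (nat_lit 4) (.nd (nat_lit 5) 
(.lf (nat_lit 5579) (.g (nat_lit 2338) (.e (nat_lit 290) (nat_lit 21) (.e (nat_lit 336009) (nat_lit 2) (.e (nat_lit 90170) (nat_lit 13) (.e (nat_lit 172113) (nat_lit 10) (.e (nat_lit 434245) (nat_lit 28) .nil))))) .nil)) 
(.lf (nat_lit 5611) (.g (nat_lit 3233) (.e (nat_lit 290) (nat_lit 21) (.e (nat_lit 336021) (nat_lit 3) (.e (nat_lit 98313) (nat_lit 9) (.e (nat_lit 336027) (nat_lit 3) (.e (nat_lit 98312) (nat_lit 9) (.e (nat_lit 336011) (nat_lit 2) (.e (nat_lit 90134) (nat_lit 9) .nil))))))) (.g (nat_lit 7) .nil .nil)))) (.nd (nat_lit 5) 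
(.lf (nat_lit 5595) (.g (nat_lit 2278) (.e (nat_lit 290) (nat_lit 21) (.e (nat_lit 336011) (nat_lit 2) (.e (nat_lit 90170) (nat_lit 13) (.e (nat_lit 172113) (nat_lit 10) .nil)))) .nil)) 
(.lf (nat_lit 5627) (.g (nat_lit 4441) (.e (nat_lit 290) (nat_lit 21) (.e (nat_lit 336021) (nat_lit 3) (.e (nat_lit 98317) (nat_lit 9) (.e (nat_lit 336021) (nat_lit 3) (.e (nat_lit 98317) (nat_lit 9) (.e (nat_lit 336011) (nat_lit 2) (.e (nat_lit 90134) (nat_lit 9) .nil))))))) (.g (nat_lit 7) .nil .nil)))))) (.nd (nat_lit 3) (.nd (nat_lit 4) (.nd (nat_lit 5) 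
(.lf (nat_lit 5575) (.g (nat_lit 1465) (.e (nat_lit 290) (nat_lit 21) (.e (nat_lit 336002) (nat_lit 2) (.e (nat_lit 90185) (nat_lit 17) (.e (nat_lit 237603) (nat_lit 9) .nil)))) .nil)) 
(.lf (nat_lit 5607) (.g (nat_lit 2408) (.e (nat_lit 290) (nat_lit 21) (.e (nat_lit 336021) (nat_lit 3) (.e (nat_lit 98313) (nat_lit 9) (.e (nat_lit 336011) (nat_lit 2) (.e (nat_lit 90158) (nat_lit 11) (.e (nat_lit 24604) (nat_lit 2) (.e (nat_lit 90134) (nat_lit 9) .nil))))))) (.g (nat_lit 4) .nil .nil)))) (.nd (nat_lit 5) 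
(.lf (nat_lit 5591) (.g (nat_lit 2320) (.e (nat_lit 290) (nat_lit 21) (.e (nat_lit 336011) (nat_lit 2) (.e (nat_lit 90170) (nat_lit 13) (.e (nat_lit 172106) (nat_lit 10) (.e (nat_lit 434244) (nat_lit 28) (.e (nat_lit 573449) (nat_lit 9) (.e (nat_lit 1311) (nat_lit 98) (.e (nat_lit 147476) (nat_lit 9) .nil)))))))) (.g (nat_lit 4) .nil .nil))) 
(.lf (nat_lit 5623) (.g (nat_lit 1312) (.e (nat_lit 290) (nat_lit 21) (.e (nat_lit 336021) (nat_lit 3) (.e (nat_lit 98317) (nat_lit 9) (.e (nat_lit 336012) (nat_lit 2) .nil)))) .nil)))) (.nd (nat_lit 4) (.nd (nat_lit 5) 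
(.lf (nat_lit 5583) (.g (nat_lit 3377) (.e (nat_lit 290) (nat_lit 21) (.e (nat_lit 336009) (nat_lit 2) (.e (nat_lit 90170) (nat_lit 13) (.e (nat_lit 172113) (nat_lit 10) (.e (nat_lit 434247) (nat_lit 28) (.e (nat_lit 573477) (nat_lit 12) (.e (nat_lit 57575) (nat_lit 55) (.e (nat_lit 778381) (nat_lit 9) .nil)))))))) (.g (nat_lit 5) .nil .nil))) 
(.lf (nat_lit 5615) (.g (nat_lit 3157) (.e (nat_lit 290) (nat_lit 21) (.e (nat_lit 336021) (nat_lit 3) (.e (nat_lit 98313) (nat_lit 9) (.e (nat_lit 336027) (nat_lit 3) (.e (nat_lit 98317) (nat_lit 9) (.e (nat_lit 336010) (nat_lit 2) (.e (nat_lit 90134) (nat_lit 9) .nil))))))) (.g (nat_lit 0) .nil .nil)))) (.nd (nat_lit 5) 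
(.lf (nat_lit 5599) (.g (nat_lit 4270) (.e (nat_lit 290) (nat_lit 21) (.e (nat_lit 336011) (nat_lit 2) (.e (nat_lit 90170) (nat_lit 13) (.e (nat_lit 172113) (nat_lit 10) (.e (nat_lit 434247) (nat_lit 28) (.e (nat_lit 573477) (nat_lit 12) (.e (nat_lit 57575) (nat_lit 55) (.e (nat_lit 778377) (nat_lit 9) .nil)))))))) (.g (nat_lit 5) .nil .nil))) 
(.lf (nat_lit 5631) (.g (nat_lit 1852) (.e (nat_lit 290) (nat_lit 21) (.e (nat_lit 336021) (nat_lit 3) (.e (nat_lit 98317) (nat_lit 9) (.e (nat_lit 336027) (nat_lit 3) (.e (nat_lit 98317) (nat_lit 9) .nil))))) .nil))))))))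

noncomputable def tv075 : DT := (.nd (nat_lit 0) (.nd (nat_lit 1) (.nd (nat_lit 2) (.nd (nat_lit 3) (.nd (nat_lit 4) (.nd (nat_lit 5) 
(.lf (nat_lit 5632) (.g (nat_lit 3738) (.e (nat_lit 290) (nat_lit 21) (.e (nat_lit 336021) (nat_lit 3) (.e (nat_lit 98317) (nat_lit 9) (.e (nat_lit 336027) (nat_lit 3) (.e (nat_lit 98317) (nat_lit 9) (.e (nat_lit 336011) (nat_lit 2) (.e (nat_lit 90134) (nat_lit 9) .nil))))))) (.g (nat_lit 7) .nil .nil))) 
(.lf (nat_lit 5664) (.g (nat_lit 3498) (.e (nat_lit 290) (nat_lit 21) (.e (nat_lit 336025) (nat_lit 3) (.e (nat_lit 98373) (nat_lit 29) (.e (nat_lit 450587) (nat_lit 10) (.e (nat_lit 573456) (nat_lit 9) .nil))))) .nil))) (.nd (nat_lit 5) 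
(.lf (nat_lit 5648) (.g (nat_lit 3292) (.e (nat_lit 290) (nat_lit 21) (.e (nat_lit 336021) (nat_lit 3) (.e (nat_lit 98372) (nat_lit 29) (.e (nat_lit 450588) (nat_lit 10) (.e (nat_lit 573475) (nat_lit 12) .nil))))) .nil)) 
(.lf (nat_lit 5680) (.g (nat_lit 3037) (.e (nat_lit 290) (nat_lit 21) (.e (nat_lit 336027) (nat_lit 3) (.e (nat_lit 98373) (nat_lit 29) (.e (nat_lit 450588) (nat_lit 10) (.e (nat_lit 573475) (nat_lit 12) .nil))))) .nil)))) (.nd (nat_lit 4) (.nd (nat_lit 5) 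
(.lf (nat_lit 5640) (.g (nat_lit 1783) (.e (nat_lit 290) (nat_lit 21) (.e (nat_lit 336021) (nat_lit 3) (.e (nat_lit 98370) (nat_lit 28) (.e (nat_lit 450304) (nat_lit 3) .nil)))) .nil)) 
(.lf (nat_lit 5672) (.g (nat_lit 3022) (.e (nat_lit 290) (nat_lit 21) (.e (nat_lit 336027) (nat_lit 3) (.e (nat_lit 98372) (nat_lit 29) (.e (nat_lit 450586) (nat_lit 10) (.e (nat_lit 573477) (nat_lit 12) (.e (nat_lit 57575) (nat_lit 55) (.e (nat_lit 778377) (nat_lit 9) .nil))))))) (.g (nat_lit 5) .nil .nil)))) (.nd (nat_lit 5) 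
(.lf (nat_lit 5656) (.g (nat_lit 3920) (.e (nat_lit 290) (nat_lit 21) (.e (nat_lit 336021) (nat_lit 3) (.e (nat_lit 98373) (nat_lit 29) (.e (nat_lit 450588) (nat_lit 10) (.e (nat_lit 573475) (nat_lit 12) .nil))))) .nil)) 
(.lf (nat_lit 5688) (.g (nat_lit 1732) (.e (nat_lit 290) (nat_lit 21) (.e (nat_lit 336078) (nat_lit 9) (.e (nat_lit 336019) (nat_lit 3) (.e (nat_lit 98320) (nat_lit 17) (.e (nat_lit 7591) (nat_lit 407) (.e (nat_lit 73754) (nat_lit 8) (.e (nat_lit 557072) (nat_lit 9) .nil))))))) (.g (nat_lit 4) .nil .nil)))))) (.nd (nat_lit 3) (.nd (nat_lit 4) (.nd (nat_lit 5) 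
(.lf (nat_lit 5636) (.g (nat_lit 480) (.e (nat_lit 290) (nat_lit 21) (.e (nat_lit 336021) (nat_lit 3) (.e (nat_lit 98365) (nat_lit 26) .nil))) .nil)) 
(.lf (nat_lit 5668) (.g (nat_lit 1604) (.e (nat_lit 290) (nat_lit 21) (.e (nat_lit 336027) (nat_lit 3) (.e (nat_lit 98372) (nat_lit 29) (.e (nat_lit 450586) (nat_lit 10) .nil)))) .nil))) (.nd (nat_lit 5) 
(.lf (nat_lit 5652) (.g (nat_lit 3825) (.e (nat_lit 290) (nat_lit 21) (.e (nat_lit 336021) (nat_lit 3) (.e (nat_lit 98373) (nat_lit 29) (.e (nat_lit 450587) (nat_lit 10) (.e (nat_lit 573477) (nat_lit 12) (.e (nat_lit 57575) (nat_lit 55) (.e (nat_lit 778377) (nat_lit 9) .nil))))))) (.g (nat_lit 4) .nil .nil))) 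
(.lf (nat_lit 5684) (.g (nat_lit 3880) (.e (nat_lit 290) (nat_lit 21) (.e (nat_lit 336077) (nat_lit 9) (.e (nat_lit 336454) (nat_lit 34) (.e (nat_lit 483365) (nat_lit 18) (.e (nat_lit 57848) (nat_lit 252) (.e (nat_lit 57374) (nat_lit 2) (.e (nat_lit 90134) (nat_lit 9) .nil))))))) (.g (nat_lit 0) .nil .nil))))) (.nd (nat_lit 4) (.nd (nat_lit 5) 
(.lf (nat_lit 5644) (.g (nat_lit 2340) (.e (nat_lit 290) (nat_lit 21) (.e (nat_lit 336021) (nat_lit 3) (.e (nat_lit 98372) (nat_lit 29) (.e (nat_lit 450586) (nat_lit 10) (.e (nat_lit 573477) (nat_lit 12) .nil))))) .nil)) 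
(.lf (nat_lit 5676) (.g (nat_lit 2934) (.e (nat_lit 290) (nat_lit 21) (.e (nat_lit 336027) (nat_lit 3) (.e (nat_lit 98373) (nat_lit 29) (.e (nat_lit 450587) (nat_lit 10) (.e (nat_lit 573477) (nat_lit 12) .nil))))) .nil))) (.nd (nat_lit 5) 
(.lf (nat_lit 5660) (.g (nat_lit 1656) (.e (nat_lit 290) (nat_lit 21) (.e (nat_lit 336025) (nat_lit 3) (.e (nat_lit 98372) (nat_lit 29) (.e (nat_lit 450586) (nat_lit 10) (.e (nat_lit 573477) (nat_lit 12) (.e (nat_lit 57574) (nat_lit 55) (.e (nat_lit 778380) (nat_lit 9) .nil))))))) (.g (nat_lit 4) .nil .nil))) 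
(.lf (nat_lit 5692) (.g (nat_lit 1914) (.e (nat_lit 290) (nat_lit 21) (.e (nat_lit 336078) (nat_lit 9) (.e (nat_lit 336019) (nat_lit 3) (.e (nat_lit 98389) (nat_lit 33) (.e (nat_lit 491558) (nat_lit 10) (.e (nat_lit 344130) (nat_lit 26) (.e (nat_lit 557067) (nat_lit 9) .nil))))))) (.g (nat_lit 4) .nil .nil))))))) (.nd (nat_lit 2) (.nd (nat_lit 3) (.nd (nat_lit 4) (.nd (nat_lit 5) 
(.lf (nat_lit 5634) (.g (nat_lit 2760) (.e (nat_lit 290) (nat_lit 21) (.e (nat_lit 336021) (nat_lit 3) (.e (nat_lit 98359) (nat_lit 26) (.e (nat_lit 426286) (nat_lit 10) (.e (nat_lit 434247) (nat_lit 28) .nil))))) .nil)) 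
(.lf (nat_lit 5666) (.g (nat_lit 2279) (.e (nat_lit 290) (nat_lit 21) (.e (nat_lit 336025) (nat_lit 3) (.e (nat_lit 98373) (nat_lit 29) (.e (nat_lit 450587) (nat_lit 10) (.e (nat_lit 573478) (nat_lit 12) .nil))))) .nil))) (.nd (nat_lit 5) 
(.lf (nat_lit 5650) (.g (nat_lit 4717) (.e (nat_lit 290) (nat_lit 21) (.e (nat_lit 336021) (nat_lit 3) (.e (nat_lit 98373) (nat_lit 29) (.e (nat_lit 450587) (nat_lit 10) (.e (nat_lit 573454) (nat_lit 9) .nil))))) .nil)) 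
(.lf (nat_lit 5682) (.g (nat_lit 391) (.e (nat_lit 290) (nat_lit 21) (.e (nat_lit 336059) (nat_lit 7) (.e (nat_lit 319519) (nat_lit 12) .nil))) .nil)))) (.nd (nat_lit 4) (.nd (nat_lit 5) 
(.lf (nat_lit 5642) (.g (nat_lit 1553) (.e (nat_lit 290) (nat_lit 21) (.e (nat_lit 336021) (nat_lit 3) (.e (nat_lit 98372) (nat_lit 29) (.e (nat_lit 450586) (nat_lit 10) .nil)))) .nil)) 
(.lf (nat_lit 5674) (.g (nat_lit 2204) (.e (nat_lit 290) (nat_lit 21) (.e (nat_lit 336027) (nat_lit 3) (.e (nat_lit 98372) (nat_lit 29) (.e (nat_lit 450586) (nat_lit 10) (.e (nat_lit 573478) (nat_lit 12) .nil))))) .nil))) (.nd (nat_lit 5) 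
(.lf (nat_lit 5658) (.g (nat_lit 1211) (.e (nat_lit 290) (nat_lit 21) (.e (nat_lit 336021) (nat_lit 3) (.e (nat_lit 98381) (nat_lit 31) .nil))) .nil)) 
(.lf (nat_lit 5690) (.g (nat_lit 1669) (.e (nat_lit 290) (nat_lit 21) (.e (nat_lit 336078) (nat_lit 9) (.e (nat_lit 336019) (nat_lit 3) (.e (nat_lit 98320) (nat_lit 17) (.e (nat_lit 7593) (nat_lit 407) (.e (nat_lit 73753) (nat_lit 8) (.e (nat_lit 557073) (nat_lit 9) .nil))))))) (.g (nat_lit 4) .nil .nil)))))) (.nd (nat_lit 3) (.nd (nat_lit 4) (.nd (nat_lit 5) 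
(.lf (nat_lit 5638) (.g (nat_lit 2025) (.e (nat_lit 290) (nat_lit 21) (.e (nat_lit 336021) (nat_lit 3) (.e (nat_lit 98365) (nat_lit 26) (.e (nat_lit 426188) (nat_lit 9) (.e (nat_lit 426438) (nat_lit 18) (.e (nat_lit 98339) (nat_lit 19) (.e (nat_lit 213009) (nat_lit 9) .nil))))))) (.g (nat_lit 4) .nil .nil))) 
(.lf (nat_lit 5670) (.g (nat_lit 2475) (.e (nat_lit 290) (nat_lit 21) (.e (nat_lit 336027) (nat_lit 3) (.e (nat_lit 98372) (nat_lit 29) (.e (nat_lit 450586) (nat_lit 10) (.e (nat_lit 573475) (nat_lit 12) (.e (nat_lit 57574) (nat_lit 55) (.e (nat_lit 778380) (nat_lit 9) .nil))))))) (.g (nat_lit 4) .nil .nil)))) (.nd (nat_lit 5) 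
(.lf (nat_lit 5654) (.g (nat_lit 3367) (.e (nat_lit 290) (nat_lit 21) (.e (nat_lit 336021) (nat_lit 3) (.e (nat_lit 98373) (nat_lit 29) (.e (nat_lit 450587) (nat_lit 10) (.e (nat_lit 573478) (nat_lit 12) .nil))))) .nil)) 
(.lf (nat_lit 5686) (.g (nat_lit 1253) (.e (nat_lit 290) (nat_lit 21) (.e (nat_lit 336078) (nat_lit 9) (.e (nat_lit 336019) (nat_lit 3) (.e (nat_lit 98319) (nat_lit 17) .nil)))) .nil)))) (.nd (nat_lit 4) (.nd (nat_lit 5) 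
(.lf (nat_lit 5646) (.g (nat_lit 3350) (.e (nat_lit 290) (nat_lit 21) (.e (nat_lit 336021) (nat_lit 3) (.e (nat_lit 98372) (nat_lit 29) (.e (nat_lit 450586) (nat_lit 10) (.e (nat_lit 573477) (nat_lit 12) (.e (nat_lit 57575) (nat_lit 55) (.e (nat_lit 778380) (nat_lit 9) .nil))))))) (.g (nat_lit 5) .nil .nil))) 
(.lf (nat_lit 5678) (.g (nat_lit 2823) (.e (nat_lit 290) (nat_lit 21) (.e (nat_lit 336027) (nat_lit 3) (.e (nat_lit 98373) (nat_lit 29) (.e (nat_lit 450587) (nat_lit 10) (.e (nat_lit 573478) (nat_lit 12) .nil))))) .nil))) (.nd (nat_lit 5) 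
(.lf (nat_lit 5662) (.g (nat_lit 1523) (.e (nat_lit 290) (nat_lit 21) (.e (nat_lit 336025) (nat_lit 3) (.e (nat_lit 98372) (nat_lit 29) (.e (nat_lit 450586) (nat_lit 10) (.e (nat_lit 573478) (nat_lit 12) (.e (nat_lit 57574) (nat_lit 55) (.e (nat_lit 778380) (nat_lit 9) .nil))))))) (.g (nat_lit 4) .nil .nil))) 
(.lf (nat_lit 5694) (.g (nat_lit 1624) (.e (nat_lit 290) (nat_lit 21) (.e (nat_lit 336078) (nat_lit 9) (.e (nat_lit 336019) (nat_lit 3) (.e (nat_lit 98389) (nat_lit 33) (.e (nat_lit 491560) (nat_lit 10) .nil))))) .nil))))))) (.nd (nat_lit 1) (.nd (nat_lit 2) (.nd (nat_lit 3) (.nd (nat_lit 4) (.nd (nat_lit 5) 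
(.lf (nat_lit 5633) (.g (nat_lit 2477) (.e (nat_lit 290) (nat_lit 21) (.e (nat_lit 336021) (nat_lit 3) (.e (nat_lit 98317) (nat_lit 9) (.e (nat_lit 336027) (nat_lit 3) (.e (nat_lit 98317) (nat_lit 9) (.e (nat_lit 336012) (nat_lit 2) (.e (nat_lit 90134) (nat_lit 9) .nil))))))) (.g (nat_lit 5) .nil .nil))) 
(.lf (nat_lit 5665) (.g (nat_lit 2534) (.e (nat_lit 290) (nat_lit 21) (.e (nat_lit 336025) (nat_lit 3) (.e (nat_lit 98373) (nat_lit 29) (.e (nat_lit 450587) (nat_lit 10) (.e (nat_lit 573477) (nat_lit 12) (.e (nat_lit 57574) (nat_lit 55) (.e (nat_lit 778377) (nat_lit 9) .nil))))))) (.g (nat_lit 4) .nil .nil)))) (.nd (nat_lit 5) 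
(.lf (nat_lit 5649) (.g (nat_lit 1061) (.e (nat_lit 290) (nat_lit 21) (.e (nat_lit 336021) (nat_lit 3) (.e (nat_lit 98373) (nat_lit 29) .nil))) .nil)) 
(.lf (nat_lit 5681) (.g (nat_lit 3078) (.e (nat_lit 290) (nat_lit 21) (.e (nat_lit 336027) (nat_lit 3) (.e (nat_lit 98373) (nat_lit 29) (.e (nat_lit 450588) (nat_lit 10) (.e (nat_lit 573475) (nat_lit 12) (.e (nat_lit 57574) (nat_lit 55) (.e (nat_lit 778359) (nat_lit 9) .nil))))))) (.g (nat_lit 4) .nil .nil))))) (.nd (nat_lit 4) (.nd (nat_lit 5) 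
(.lf (nat_lit 5641) (.g (nat_lit 1211) (.e (nat_lit 290) (nat_lit 21) (.e (nat_lit 336021) (nat_lit 3) (.e (nat_lit 98371) (nat_lit 28) .nil))) .nil)) 
(.lf (nat_lit 5673) (.g (nat_lit 3896) (.e (nat_lit 290) (nat_lit 21) (.e (nat_lit 336027) (nat_lit 3) (.e (nat_lit 98372) (nat_lit 29) (.e (nat_lit 450586) (nat_lit 10) (.e (nat_lit 573477) (nat_lit 12) (.e (nat_lit 57575) (nat_lit 55) (.e (nat_lit 778380) (nat_lit 9) .nil))))))) (.g (nat_lit 6) .nil .nil)))) (.nd (nat_lit 5) 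
(.lf (nat_lit 5657) (.g (nat_lit 1211) (.e (nat_lit 290) (nat_lit 21) (.e (nat_lit 336021) (nat_lit 3) (.e (nat_lit 98374) (nat_lit 29) .nil))) .nil)) 
(.lf (nat_lit 5689) (.g (nat_lit 1857) (.e (nat_lit 290) (nat_lit 21) (.e (nat_lit 336078) (nat_lit 9) (.e (nat_lit 336019) (nat_lit 3) (.e (nat_lit 98320) (nat_lit 17) (.e (nat_lit 7593) (nat_lit 407) (.e (nat_lit 73753) (nat_lit 8) (.e (nat_lit 557072) (nat_lit 9) .nil))))))) (.g (nat_lit 4) .nil .nil)))))) (.nd (nat_lit 3) (.nd (nat_lit 4) (.nd (nat_lit 5) 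
(.lf (nat_lit 5637) (.g (nat_lit 1067) (.e (nat_lit 290) (nat_lit 21) (.e (nat_lit 336021) (nat_lit 3) (.e (nat_lit 98365) (nat_lit 26) (.e (nat_lit 426187) (nat_lit 9) .nil)))) .nil)) 
(.lf (nat_lit 5669) (.g (nat_lit 2226) (.e (nat_lit 290) (nat_lit 21) (.e (nat_lit 336027) (nat_lit 3) (.e (nat_lit 98372) (nat_lit 29) (.e (nat_lit 450586) (nat_lit 10) (.e (nat_lit 573475) (nat_lit 12) .nil))))) .nil))) (.nd (nat_lit 5) 
(.lf (nat_lit 5653) (.g (nat_lit 4628) (.e (nat_lit 290) (nat_lit 21) (.e (nat_lit 336021) (nat_lit 3) (.e (nat_lit 98373) (nat_lit 29) (.e (nat_lit 450587) (nat_lit 10) (.e (nat_lit 573477) (nat_lit 12) (.e (nat_lit 57575) (nat_lit 55) (.e (nat_lit 778380) (nat_lit 9) .nil))))))) (.g (nat_lit 5) .nil .nil))) 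
(.lf (nat_lit 5685) (.g (nat_lit 2918) (.e (nat_lit 290) (nat_lit 21) (.e (nat_lit 336077) (nat_lit 9) (.e (nat_lit 336454) (nat_lit 34) (.e (nat_lit 483366) (nat_lit 18) (.e (nat_lit 57849) (nat_lit 252) (.e (nat_lit 57374) (nat_lit 2) (.e (nat_lit 90134) (nat_lit 9) .nil))))))) (.g (nat_lit 4) .nil .nil))))) (.nd (nat_lit 4) (.nd (nat_lit 5) 
(.lf (nat_lit 5645) (.g (nat_lit 2578) (.e (nat_lit 290) (nat_lit 21) (.e (nat_lit 336021) (nat_lit 3) (.e (nat_lit 98372) (nat_lit 29) (.e (nat_lit 450586) (nat_lit 10) (.e (nat_lit 573477) (nat_lit 12) (.e (nat_lit 57575) (nat_lit 55) (.e (nat_lit 778377) (nat_lit 9) .nil))))))) (.g (nat_lit 4) .nil .nil))) 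
(.lf (nat_lit 5677) (.g (nat_lit 2994) (.e (nat_lit 290) (nat_lit 21) (.e (nat_lit 336027) (nat_lit 3) (.e (nat_lit 98373) (nat_lit 29) (.e (nat_lit 450587) (nat_lit 10) (.e (nat_lit 573477) (nat_lit 12) (.e (nat_lit 57574) (nat_lit 55) (.e (nat_lit 778380) (nat_lit 9) .nil))))))) (.g (nat_lit 4) .nil .nil)))) (.nd (nat_lit 5) 
(.lf (nat_lit 5661) (.g (nat_lit 3495) (.e (nat_lit 290) (nat_lit 21) (.e (nat_lit 336025) (nat_lit 3) (.e (nat_lit 98372) (nat_lit 29) (.e (nat_lit 450586) (nat_lit 10) (.e (nat_lit 573477) (nat_lit 12) (.e (nat_lit 57575) (nat_lit 55) (.e (nat_lit 778380) (nat_lit 9) .nil))))))) (.g (nat_lit 0) .nil .nil))) 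
(.lf (nat_lit 5693) (.g (nat_lit 2029) (.e (nat_lit 290) (nat_lit 21) (.e (nat_lit 336078) (nat_lit 9) (.e (nat_lit 336019) (nat_lit 3) (.e (nat_lit 98389) (nat_lit 33) (.e (nat_lit 491558) (nat_lit 10) (.e (nat_lit 344132) (nat_lit 26) (.e (nat_lit 557072) (nat_lit 9) .nil))))))) (.g (nat_lit 4) .nil .nil))))))) (.nd (nat_lit 2) (.nd (nat_lit 3) (.nd (nat_lit 4) (.nd (nat_lit 5) 
(.lf (nat_lit 5635) (.g (nat_lit 3234) (.e (nat_lit 290) (nat_lit 21) (.e (nat_lit 336021) (nat_lit 3) (.e (nat_lit 98359) (nat_lit 26) (.e (nat_lit 426286) (nat_lit 10) (.e (nat_lit 434247) (nat_lit 28) (.e (nat_lit 573477) (nat_lit 12) (.e (nat_lit 57575) (nat_lit 55) (.e (nat_lit 778380) (nat_lit 9) .nil)))))))) (.g (nat_lit 4) .nil .nil))) 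
(.lf (nat_lit 5667) (.g (nat_lit 4229) (.e (nat_lit 290) (nat_lit 21) (.e (nat_lit 336025) (nat_lit 3) (.e (nat_lit 98373) (nat_lit 29) (.e (nat_lit 450588) (nat_lit 10) (.e (nat_lit 573452) (nat_lit 9) .nil))))) .nil))) (.nd (nat_lit 5) 
(.lf (nat_lit 5651) (.g (nat_lit 3658) (.e (nat_lit 290) (nat_lit 21) (.e (nat_lit 336021) (nat_lit 3) (.e (nat_lit 98373) (nat_lit 29) (.e (nat_lit 450587) (nat_lit 10) (.e (nat_lit 573477) (nat_lit 12) .nil))))) .nil)) 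
(.lf (nat_lit 5683) (.g (nat_lit 2346) (.e (nat_lit 290) (nat_lit 21) (.e (nat_lit 336077) (nat_lit 9) (.e (nat_lit 336454) (nat_lit 34) (.e (nat_lit 483365) (nat_lit 18) (.e (nat_lit 57830) (nat_lit 250) .nil))))) .nil)))) (.nd (nat_lit 4) (.nd (nat_lit 5) 
(.lf (nat_lit 5643) (.g (nat_lit 2312) (.e (nat_lit 290) (nat_lit 21) (.e (nat_lit 336021) (nat_lit 3) (.e (nat_lit 98372) (nat_lit 29) (.e (nat_lit 450586) (nat_lit 10) (.e (nat_lit 573475) (nat_lit 12) .nil))))) .nil)) 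
(.lf (nat_lit 5675) (.g (nat_lit 3136) (.e (nat_lit 290) (nat_lit 21) (.e (nat_lit 336027) (nat_lit 3) (.e (nat_lit 98373) (nat_lit 29) (.e (nat_lit 450587) (nat_lit 10) (.e (nat_lit 573454) (nat_lit 9) .nil))))) .nil))) (.nd (nat_lit 5) 
(.lf (nat_lit 5659) (.g (nat_lit 1214) (.e (nat_lit 290) (nat_lit 21) (.e (nat_lit 336021) (nat_lit 3) (.e (nat_lit 98382) (nat_lit 31) .nil))) .nil)) 
(.lf (nat_lit 5691) (.g (nat_lit 2540) (.e (nat_lit 290) (nat_lit 21) (.e (nat_lit 336078) (nat_lit 9) (.e (nat_lit 336019) (nat_lit 3) (.e (nat_lit 98320) (nat_lit 17) (.e (nat_lit 7593) (nat_lit 407) (.e (nat_lit 73754) (nat_lit 8) (.e (nat_lit 557072) (nat_lit 9) .nil))))))) (.g (nat_lit 5) .nil .nil)))))) (.nd (nat_lit 3) (.nd (nat_lit 4) (.nd (nat_lit 5) 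
(.lf (nat_lit 5639) (.g (nat_lit 822) (.e (nat_lit 290) (nat_lit 21) (.e (nat_lit 336021) (nat_lit 3) (.e (nat_lit 98369) (nat_lit 28) .nil))) .nil)) 
(.lf (nat_lit 5671) (.g (nat_lit 2258) (.e (nat_lit 290) (nat_lit 21) (.e (nat_lit 336027) (nat_lit 3) (.e (nat_lit 98372) (nat_lit 29) (.e (nat_lit 450586) (nat_lit 10) (.e (nat_lit 573477) (nat_lit 12) .nil))))) .nil))) (.nd (nat_lit 5) 
(.lf (nat_lit 5655) (.g (nat_lit 5567) (.e (nat_lit 290) (nat_lit 21) (.e (nat_lit 336021) (nat_lit 3) (.e (nat_lit 98373) (nat_lit 29) (.e (nat_lit 450588) (nat_lit 10) (.e (nat_lit 573452) (nat_lit 9) .nil))))) .nil)) 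
(.lf (nat_lit 5687) (.g (nat_lit 1255) (.e (nat_lit 290) (nat_lit 21) (.e (nat_lit 336078) (nat_lit 9) (.e (nat_lit 336019) (nat_lit 3) (.e (nat_lit 98320) (nat_lit 17) .nil)))) .nil)))) (.nd (nat_lit 4) (.nd (nat_lit 5) 
(.lf (nat_lit 5647) (.g (nat_lit 3530) (.e (nat_lit 290) (nat_lit 21) (.e (nat_lit 336021) (nat_lit 3) (.e (nat_lit 98372) (nat_lit 29) (.e (nat_lit 450588) (nat_lit 10) (.e (nat_lit 573452) (nat_lit 9) .nil))))) .nil)) 
(.lf (nat_lit 5679) (.g (nat_lit 4186) (.e (nat_lit 290) (nat_lit 21) (.e (nat_lit 336027) (nat_lit 3) (.e (nat_lit 98373) (nat_lit 29) (.e (nat_lit 450588) (nat_lit 10) (.e (nat_lit 573452) (nat_lit 9) .nil))))) .nil))) (.nd (nat_lit 5) 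
(.lf (nat_lit 5663) (.g (nat_lit 4096) (.e (nat_lit 290) (nat_lit 21) (.e (nat_lit 336025) (nat_lit 3) (.e (nat_lit 98373) (nat_lit 29) (.e (nat_lit 450587) (nat_lit 10) (.e (nat_lit 573454) (nat_lit 9) (.e (nat_lit 1315) (nat_lit 98) (.e (nat_lit 147476) (nat_lit 9) .nil))))))) (.g (nat_lit 7) .nil .nil))) 
(.lf (nat_lit 5695) (.g (nat_lit 627) (.e (nat_lit 290) (nat_lit 21) (.e (nat_lit 336078) (nat_lit 9) (.e (nat_lit 336452) (nat_lit 34) .nil))) .nil))))))))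

noncomputable def tv076 : DT := (.nd (nat_lit 0) (.nd (nat_lit 1) (.nd (nat_lit 2) (.nd (nat_lit 3) (.nd (nat_lit 4) (.nd (nat_lit 5) 
(.lf (nat_lit 5696) (.g (nat_lit 2588) (.e (nat_lit 290) (nat_lit 21) (.e (nat_lit 336078) (nat_lit 9) (.e (nat_lit 336454) (nat_lit 34) (.e (nat_lit 483363) (nat_lit 18) (.e (nat_lit 57847) (nat_lit 252) (.e (nat_lit 57370) (nat_lit 2) (.e (nat_lit 90134) (nat_lit 9) .nil))))))) (.g (nat_lit 5) .nil .nil))) 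
(.lf (nat_lit 5728) (.g (nat_lit 1344) (.e (nat_lit 290) (nat_lit 21) (.e (nat_lit 336163) (nat_lit 10) (.e (nat_lit 344126) (nat_lit 25) (.e (nat_lit 548873) (nat_lit 5) (.e (nat_lit 1598) (nat_lit 111) (.e (nat_lit 360473) (nat_lit 8) (.e (nat_lit 557073) (nat_lit 9) .nil))))))) (.g (nat_lit 4) .nil .nil)))) (.nd (nat_lit 5) 
(.lf (nat_lit 5712) (.g (nat_lit 1193) (.e (nat_lit 290) (nat_lit 21) (.e (nat_lit 336087) (nat_lit 9) (.e (nat_lit 336019) (nat_lit 3) (.e (nat_lit 98320) (nat_lit 17) .nil)))) .nil)) 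
(.lf (nat_lit 5744) (.g (nat_lit 3374) (.e (nat_lit 290) (nat_lit 21) (.e (nat_lit 336165) (nat_lit 10) (.e (nat_lit 344126) (nat_lit 25) (.e (nat_lit 548874) (nat_lit 5) (.e (nat_lit 1586) (nat_lit 111) (.e (nat_lit 360475) (nat_lit 8) (.e (nat_lit 557068) (nat_lit 9) .nil))))))) (.g (nat_lit 7) .nil .nil))))) (.nd (nat_lit 4) (.nd (nat_lit 5) 
(.lf (nat_lit 5704) (.g (nat_lit 3973) (.e (nat_lit 290) (nat_lit 21) (.e (nat_lit 336078) (nat_lit 9) (.e (nat_lit 336454) (nat_lit 34) (.e (nat_lit 483365) (nat_lit 18) (.e (nat_lit 57849) (nat_lit 252) (.e (nat_lit 57372) (nat_lit 2) (.e (nat_lit 90134) (nat_lit 9) .nil))))))) (.g (nat_lit 0) .nil .nil))) 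
(.lf (nat_lit 5736) (.g (nat_lit 751) (.e (nat_lit 290) (nat_lit 21) (.e (nat_lit 336165) (nat_lit 10) (.e (nat_lit 344115) (nat_lit 20) (.e (nat_lit 507908) (nat_lit 0) (.e (nat_lit 5412) (nat_lit 303) (.e (nat_lit 73753) (nat_lit 8) (.e (nat_lit 557073) (nat_lit 9) .nil))))))) (.g (nat_lit 4) .nil .nil)))) (.nd (nat_lit 5) 
(.lf (nat_lit 5720) (.g (nat_lit 1723) (.e (nat_lit 290) (nat_lit 21) (.e (nat_lit 336163) (nat_lit 10) (.e (nat_lit 344115) (nat_lit 20) (.e (nat_lit 507907) (nat_lit 0) (.e (nat_lit 5412) (nat_lit 303) (.e (nat_lit 73753) (nat_lit 8) (.e (nat_lit 557073) (nat_lit 9) .nil))))))) (.g (nat_lit 7) .nil .nil))) 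
(.lf (nat_lit 5752) (.g (nat_lit 1804) (.e (nat_lit 290) (nat_lit 21) (.e (nat_lit 336184) (nat_lit 11) (.e (nat_lit 368676) (nat_lit 21) (.e (nat_lit 516098) (nat_lit 0) (.e (nat_lit 7591) (nat_lit 407) (.e (nat_lit 73755) (nat_lit 8) (.e (nat_lit 557068) (nat_lit 9) .nil))))))) (.g (nat_lit 4) .nil .nil)))))) (.nd (nat_lit 3) (.nd (nat_lit 4) (.nd (nat_lit 5) 
(.lf (nat_lit 5700) (.g (nat_lit 2099) (.e (nat_lit 290) (nat_lit 21) (.e (nat_lit 336078) (nat_lit 9) (.e (nat_lit 336454) (nat_lit 34) (.e (nat_lit 483365) (nat_lit 18) (.e (nat_lit 57830) (nat_lit 250) .nil))))) .nil)) 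
(.lf (nat_lit 5732) (.g (nat_lit 2623) (.e (nat_lit 290) (nat_lit 21) (.e (nat_lit 336163) (nat_lit 10) (.e (nat_lit 344126) (nat_lit 25) (.e (nat_lit 548874) (nat_lit 5) (.e (nat_lit 1598) (nat_lit 111) (.e (nat_lit 360473) (nat_lit 8) (.e (nat_lit 557068) (nat_lit 9) .nil))))))) (.g (nat_lit 6) .nil .nil)))) (.nd (nat_lit 5) 
(.lf (nat_lit 5716) (.g (nat_lit 3123) (.e (nat_lit 290) (nat_lit 21) (.e (nat_lit 336100) (nat_lit 9) (.e (nat_lit 336013) (nat_lit 2) (.e (nat_lit 90165) (nat_lit 12) (.e (nat_lit 171776) (nat_lit 192) (.e (nat_lit 73753) (nat_lit 8) (.e (nat_lit 557068) (nat_lit 9) .nil))))))) (.g (nat_lit 6) .nil .nil))) 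
(.lf (nat_lit 5748) (.g (nat_lit 1711) (.e (nat_lit 290) (nat_lit 21) (.e (nat_lit 336174) (nat_lit 10) (.e (nat_lit 344115) (nat_lit 20) (.e (nat_lit 507908) (nat_lit 0) (.e (nat_lit 5412) (nat_lit 303) (.e (nat_lit 73753) (nat_lit 8) (.e (nat_lit 557068) (nat_lit 9) .nil))))))) (.g (nat_lit 7) .nil .nil))))) (.nd (nat_lit 4) (.nd (nat_lit 5) 
(.lf (nat_lit 5708) (.g (nat_lit 2273) (.e (nat_lit 290) (nat_lit 21) (.e (nat_lit 336078) (nat_lit 9) (.e (nat_lit 336454) (nat_lit 34) (.e (nat_lit 483365) (nat_lit 18) (.e (nat_lit 57854) (nat_lit 252) (.e (nat_lit 57370) (nat_lit 2) (.e (nat_lit 90134) (nat_lit 9) .nil))))))) (.g (nat_lit 5) .nil .nil))) 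
(.lf (nat_lit 5740) (.g (nat_lit 2532) (.e (nat_lit 290) (nat_lit 21) (.e (nat_lit 336165) (nat_lit 10) (.e (nat_lit 344126) (nat_lit 25) (.e (nat_lit 548873) (nat_lit 5) (.e (nat_lit 1586) (nat_lit 111) (.e (nat_lit 360474) (nat_lit 8) (.e (nat_lit 557072) (nat_lit 9) .nil))))))) (.g (nat_lit 7) .nil .nil)))) (.nd (nat_lit 5) 
(.lf (nat_lit 5724) (.g (nat_lit 1509) (.e (nat_lit 290) (nat_lit 21) (.e (nat_lit 336163) (nat_lit 10) (.e (nat_lit 344126) (nat_lit 25) (.e (nat_lit 548872) (nat_lit 5) (.e (nat_lit 1598) (nat_lit 111) (.e (nat_lit 360473) (nat_lit 8) (.e (nat_lit 557068) (nat_lit 9) .nil))))))) (.g (nat_lit 4) .nil .nil))) 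
(.lf (nat_lit 5756) (.g (nat_lit 2322) (.e (nat_lit 290) (nat_lit 21) (.e (nat_lit 336186) (nat_lit 11) (.e (nat_lit 368676) (nat_lit 21) (.e (nat_lit 516097) (nat_lit 0) (.e (nat_lit 7593) (nat_lit 407) (.e (nat_lit 73753) (nat_lit 8) (.e (nat_lit 557068) (nat_lit 9) .nil))))))) (.g (nat_lit 5) .nil .nil))))))) (.nd (nat_lit 2) (.nd (nat_lit 3) (.nd (nat_lit 4) (.nd (nat_lit 5) 
(.lf (nat_lit 5698) (.g (nat_lit 3831) (.e (nat_lit 290) (nat_lit 21) (.e (nat_lit 336078) (nat_lit 9) (.e (nat_lit 336454) (nat_lit 34) (.e (nat_lit 483364) (nat_lit 18) (.e (nat_lit 57852) (nat_lit 252) (.e (nat_lit 57373) (nat_lit 2) (.e (nat_lit 90134) (nat_lit 9) .nil))))))) (.g (nat_lit 0) .nil .nil))) 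
(.lf (nat_lit 5730) (.g (nat_lit 2652) (.e (nat_lit 290) (nat_lit 21) (.e (nat_lit 336163) (nat_lit 10) (.e (nat_lit 344126) (nat_lit 25) (.e (nat_lit 548874) (nat_lit 5) (.e (nat_lit 1586) (nat_lit 111) (.e (nat_lit 360474) (nat_lit 8) (.e (nat_lit 557073) (nat_lit 9) .nil))))))) (.g (nat_lit 6) .nil .nil)))) (.nd (nat_lit 5) 
(.lf (nat_lit 5714) (.g (nat_lit 928) (.e (nat_lit 290) (nat_lit 21) (.e (nat_lit 336087) (nat_lit 9) (.e (nat_lit 336019) (nat_lit 3) (.e (nat_lit 98389) (nat_lit 33) .nil)))) .nil)) 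
(.lf (nat_lit 5746) (.g (nat_lit 2614) (.e (nat_lit 290) (nat_lit 21) (.e (nat_lit 336165) (nat_lit 10) (.e (nat_lit 344126) (nat_lit 25) (.e (nat_lit 548874) (nat_lit 5) (.e (nat_lit 1598) (nat_lit 111) (.e (nat_lit 360473) (nat_lit 8) (.e (nat_lit 557072) (nat_lit 9) .nil))))))) (.g (nat_lit 7) .nil .nil))))) (.nd (nat_lit 4) (.nd (nat_lit 5) 
(.lf (nat_lit 5706) (.g (nat_lit 1934) (.e (nat_lit 290) (nat_lit 21) (.e (nat_lit 336078) (nat_lit 9) (.e (nat_lit 336454) (nat_lit 34) (.e (nat_lit 483365) (nat_lit 18) (.e (nat_lit 57852) (nat_lit 252) (.e (nat_lit 57370) (nat_lit 2) (.e (nat_lit 90134) (nat_lit 9) .nil))))))) (.g (nat_lit 5) .nil .nil))) 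
(.lf (nat_lit 5738) (.g (nat_lit 1916) (.e (nat_lit 290) (nat_lit 21) (.e (nat_lit 336165) (nat_lit 10) (.e (nat_lit 344126) (nat_lit 25) (.e (nat_lit 548872) (nat_lit 5) (.e (nat_lit 1598) (nat_lit 111) (.e (nat_lit 360473) (nat_lit 8) (.e (nat_lit 557072) (nat_lit 9) .nil))))))) (.g (nat_lit 6) .nil .nil)))) (.nd (nat_lit 5) 
(.lf (nat_lit 5722) (.g (nat_lit 913) (.e (nat_lit 290) (nat_lit 21) (.e (nat_lit 336163) (nat_lit 10) (.e (nat_lit 344117) (nat_lit 21) (.e (nat_lit 516098) (nat_lit 0) .nil)))) .nil)) 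
(.lf (nat_lit 5754) (.g (nat_lit 2246) (.e (nat_lit 290) (nat_lit 21) (.e (nat_lit 336186) (nat_lit 11) (.e (nat_lit 368676) (nat_lit 21) (.e (nat_lit 516097) (nat_lit 0) (.e (nat_lit 7591) (nat_lit 407) (.e (nat_lit 73754) (nat_lit 8) (.e (nat_lit 557073) (nat_lit 9) .nil))))))) (.g (nat_lit 5) .nil .nil)))))) (.nd (nat_lit 3) (.nd (nat_lit 4) (.nd (nat_lit 5) 
(.lf (nat_lit 5702) (.g (nat_lit 2371) (.e (nat_lit 290) (nat_lit 21) (.e (nat_lit 336078) (nat_lit 9) (.e (nat_lit 336454) (nat_lit 34) (.e (nat_lit 483365) (nat_lit 18) (.e (nat_lit 57847) (nat_lit 252) (.e (nat_lit 57370) (nat_lit 2) (.e (nat_lit 90134) (nat_lit 9) .nil))))))) (.g (nat_lit 5) .nil .nil))) 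
(.lf (nat_lit 5734) (.g (nat_lit 813) (.e (nat_lit 290) (nat_lit 21) (.e (nat_lit 336165) (nat_lit 10) (.e (nat_lit 344115) (nat_lit 20) (.e (nat_lit 507906) (nat_lit 0) (.e (nat_lit 5412) (nat_lit 303) (.e (nat_lit 73753) (nat_lit 8) (.e (nat_lit 557073) (nat_lit 9) .nil))))))) (.g (nat_lit 4) .nil .nil)))) (.nd (nat_lit 5) 
(.lf (nat_lit 5718) (.g (nat_lit 222) (.e (nat_lit 290) (nat_lit 21) (.e (nat_lit 336163) (nat_lit 10) (.e (nat_lit 344115) (nat_lit 20) .nil))) .nil)) 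
(.lf (nat_lit 5750) (.g (nat_lit 1761) (.e (nat_lit 290) (nat_lit 21) (.e (nat_lit 336184) (nat_lit 11) (.e (nat_lit 368676) (nat_lit 21) (.e (nat_lit 516097) (nat_lit 0) (.e (nat_lit 7591) (nat_lit 407) (.e (nat_lit 73754) (nat_lit 8) (.e (nat_lit 557072) (nat_lit 9) .nil))))))) (.g (nat_lit 4) .nil .nil))))) (.nd (nat_lit 4) (.nd (nat_lit 5) 
(.lf (nat_lit 5710) (.g (nat_lit 4495) (.e (nat_lit 290) (nat_lit 21) (.e (nat_lit 336078) (nat_lit 9) (.e (nat_lit 336454) (nat_lit 34) (.e (nat_lit 483365) (nat_lit 18) (.e (nat_lit 57854) (nat_lit 252) (.e (nat_lit 57373) (nat_lit 2) (.e (nat_lit 90134) (nat_lit 9) .nil))))))) (.g (nat_lit 0) .nil .nil))) 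
(.lf (nat_lit 5742) (.g (nat_lit 1928) (.e (nat_lit 290) (nat_lit 21) (.e (nat_lit 336165) (nat_lit 10) (.e (nat_lit 344126) (nat_lit 25) (.e (nat_lit 548873) (nat_lit 5) (.e (nat_lit 1598) (nat_lit 111) (.e (nat_lit 360473) (nat_lit 8) (.e (nat_lit 557073) (nat_lit 9) .nil))))))) (.g (nat_lit 7) .nil .nil)))) (.nd (nat_lit 5) 
(.lf (nat_lit 5726) (.g (nat_lit 1576) (.e (nat_lit 290) (nat_lit 21) (.e (nat_lit 336163) (nat_lit 10) (.e (nat_lit 344126) (nat_lit 25) (.e (nat_lit 548873) (nat_lit 5) (.e (nat_lit 1598) (nat_lit 111) (.e (nat_lit 360473) (nat_lit 8) (.e (nat_lit 557068) (nat_lit 9) .nil))))))) (.g (nat_lit 5) .nil .nil))) 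
(.lf (nat_lit 5758) (.g (nat_lit 3435) (.e (nat_lit 290) (nat_lit 21) (.e (nat_lit 336186) (nat_lit 11) (.e (nat_lit 368676) (nat_lit 21) (.e (nat_lit 516097) (nat_lit 0) (.e (nat_lit 7593) (nat_lit 407) (.e (nat_lit 73754) (nat_lit 8) (.e (nat_lit 557072) (nat_lit 9) .nil))))))) (.g (nat_lit 7) .nil .nil)))))))) (.nd (nat_lit 1) (.nd (nat_lit 2) (.nd (nat_lit 3) (.nd (nat_lit 4) (.nd (nat_lit 5) 
(.lf (nat_lit 5697) (.g (nat_lit 4794) (.e (nat_lit 290) (nat_lit 21) (.e (nat_lit 336078) (nat_lit 9) (.e (nat_lit 336454) (nat_lit 34) (.e (nat_lit 483363) (nat_lit 18) (.e (nat_lit 57854) (nat_lit 252) (.e (nat_lit 57373) (nat_lit 2) (.e (nat_lit 90134) (nat_lit 9) .nil))))))) (.g (nat_lit 7) .nil .nil))) 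
(.lf (nat_lit 5729) (.g (nat_lit 2875) (.e (nat_lit 290) (nat_lit 21) (.e (nat_lit 336163) (nat_lit 10) (.e (nat_lit 344126) (nat_lit 25) (.e (nat_lit 548874) (nat_lit 5) (.e (nat_lit 1586) (nat_lit 111) (.e (nat_lit 360474) (nat_lit 8) (.e (nat_lit 557072) (nat_lit 9) .nil))))))) (.g (nat_lit 6) .nil .nil)))) (.nd (nat_lit 5) 
(.lf (nat_lit 5713) (.g (nat_lit 1863) (.e (nat_lit 290) (nat_lit 21) (.e (nat_lit 336087) (nat_lit 9) (.e (nat_lit 336019) (nat_lit 3) (.e (nat_lit 98320) (nat_lit 17) (.e (nat_lit 7593) (nat_lit 407) (.e (nat_lit 73754) (nat_lit 8) (.e (nat_lit 557073) (nat_lit 9) .nil))))))) (.g (nat_lit 4) .nil .nil))) 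
(.lf (nat_lit 5745) (.g (nat_lit 2738) (.e (nat_lit 290) (nat_lit 21) (.e (nat_lit 336165) (nat_lit 10) (.e (nat_lit 344126) (nat_lit 25) (.e (nat_lit 548874) (nat_lit 5) (.e (nat_lit 1598) (nat_lit 111) (.e (nat_lit 360473) (nat_lit 8) (.e (nat_lit 557068) (nat_lit 9) .nil))))))) (.g (nat_lit 7) .nil .nil))))) (.nd (nat_lit 4) (.nd (nat_lit 5) 
(.lf (nat_lit 5705) (.g (nat_lit 3913) (.e (nat_lit 290) (nat_lit 21) (.e (nat_lit 336078) (nat_lit 9) (.e (nat_lit 336454) (nat_lit 34) (.e (nat_lit 483365) (nat_lit 18) (.e (nat_lit 57851) (nat_lit 252) (.e (nat_lit 57371) (nat_lit 2) (.e (nat_lit 90134) (nat_lit 9) .nil))))))) (.g (nat_lit 0) .nil .nil))) 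
(.lf (nat_lit 5737) (.g (nat_lit 2040) (.e (nat_lit 290) (nat_lit 21) (.e (nat_lit 336165) (nat_lit 10) (.e (nat_lit 344126) (nat_lit 25) (.e (nat_lit 548872) (nat_lit 5) (.e (nat_lit 1598) (nat_lit 111) (.e (nat_lit 360473) (nat_lit 8) (.e (nat_lit 557068) (nat_lit 9) .nil))))))) (.g (nat_lit 6) .nil .nil)))) (.nd (nat_lit 5) 
(.lf (nat_lit 5721) (.g (nat_lit 1748) (.e (nat_lit 290) (nat_lit 21) (.e (nat_lit 336163) (nat_lit 10) (.e (nat_lit 344115) (nat_lit 20) (.e (nat_lit 507908) (nat_lit 0) (.e (nat_lit 5412) (nat_lit 303) (.e (nat_lit 73753) (nat_lit 8) (.e (nat_lit 557073) (nat_lit 9) .nil))))))) (.g (nat_lit 7) .nil .nil))) 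
(.lf (nat_lit 5753) (.g (nat_lit 1074) (.e (nat_lit 290) (nat_lit 21) (.e (nat_lit 336185) (nat_lit 11) (.e (nat_lit 368676) (nat_lit 21) (.e (nat_lit 516097) (nat_lit 0) .nil)))) .nil))))) (.nd (nat_lit 3) (.nd (nat_lit 4) (.nd (nat_lit 5) 
(.lf (nat_lit 5701) (.g (nat_lit 1803) (.e (nat_lit 290) (nat_lit 21) (.e (nat_lit 336078) (nat_lit 9) (.e (nat_lit 336454) (nat_lit 34) (.e (nat_lit 483365) (nat_lit 18) (.e (nat_lit 57846) (nat_lit 252) .nil))))) .nil)) 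
(.lf (nat_lit 5733) (.g (nat_lit 2444) (.e (nat_lit 290) (nat_lit 21) (.e (nat_lit 336163) (nat_lit 10) (.e (nat_lit 344126) (nat_lit 25) (.e (nat_lit 548889) (nat_lit 9) (.e (nat_lit 65617) (nat_lit 10) .nil))))) .nil))) (.nd (nat_lit 5) 
(.lf (nat_lit 5717) (.g (nat_lit 3077) (.e (nat_lit 290) (nat_lit 21) (.e (nat_lit 336100) (nat_lit 9) (.e (nat_lit 336013) (nat_lit 2) (.e (nat_lit 90165) (nat_lit 12) (.e (nat_lit 171776) (nat_lit 192) (.e (nat_lit 73753) (nat_lit 8) (.e (nat_lit 557073) (nat_lit 9) .nil))))))) (.g (nat_lit 6) .nil .nil))) 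
(.lf (nat_lit 5749) (.g (nat_lit 1822) (.e (nat_lit 290) (nat_lit 21) (.e (nat_lit 336174) (nat_lit 10) (.e (nat_lit 344126) (nat_lit 25) (.e (nat_lit 548874) (nat_lit 5) (.e (nat_lit 1586) (nat_lit 111) (.e (nat_lit 360474) (nat_lit 8) (.e (nat_lit 557072) (nat_lit 9) .nil))))))) (.g (nat_lit 4) .nil .nil))))) (.nd (nat_lit 4) (.nd (nat_lit 5) 
(.lf (nat_lit 5709) (.g (nat_lit 3724) (.e (nat_lit 290) (nat_lit 21) (.e (nat_lit 336078) (nat_lit 9) (.e (nat_lit 336454) (nat_lit 34) (.e (nat_lit 483365) (nat_lit 18) (.e (nat_lit 57854) (nat_lit 252) (.e (nat_lit 57371) (nat_lit 2) (.e (nat_lit 90134) (nat_lit 9) .nil))))))) (.g (nat_lit 7) .nil .nil))) 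
(.lf (nat_lit 5741) (.g (nat_lit 2023) (.e (nat_lit 290) (nat_lit 21) (.e (nat_lit 336165) (nat_lit 10) (.e (nat_lit 344126) (nat_lit 25) (.e (nat_lit 548873) (nat_lit 5) (.e (nat_lit 1598) (nat_lit 111) (.e (nat_lit 360473) (nat_lit 8) (.e (nat_lit 557068) (nat_lit 9) .nil))))))) (.g (nat_lit 7) .nil .nil)))) (.nd (nat_lit 5) 
(.lf (nat_lit 5725) (.g (nat_lit 1769) (.e (nat_lit 290) (nat_lit 21) (.e (nat_lit 336163) (nat_lit 10) (.e (nat_lit 344126) (nat_lit 25) (.e (nat_lit 548873) (nat_lit 5) (.e (nat_lit 1586) (nat_lit 111) (.e (nat_lit 360474) (nat_lit 8) (.e (nat_lit 557073) (nat_lit 9) .nil))))))) (.g (nat_lit 5) .nil .nil))) 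
(.lf (nat_lit 5757) (.g (nat_lit 2278) (.e (nat_lit 290) (nat_lit 21) (.e (nat_lit 336186) (nat_lit 11) (.e (nat_lit 368676) (nat_lit 21) (.e (nat_lit 516097) (nat_lit 0) (.e (nat_lit 7593) (nat_lit 407) (.e (nat_lit 73753) (nat_lit 8) (.e (nat_lit 557073) (nat_lit 9) .nil))))))) (.g (nat_lit 5) .nil .nil))))))) (.nd (nat_lit 2) (.nd (nat_lit 3) (.nd (nat_lit 4) (.nd (nat_lit 5) 
(.lf (nat_lit 5699) (.g (nat_lit 4362) (.e (nat_lit 290) (nat_lit 21) (.e (nat_lit 336078) (nat_lit 9) (.e (nat_lit 336454) (nat_lit 34) (.e (nat_lit 483364) (nat_lit 18) (.e (nat_lit 57854) (nat_lit 252) (.e (nat_lit 57373) (nat_lit 2) (.e (nat_lit 90134) (nat_lit 9) .nil))))))) (.g (nat_lit 0) .nil .nil))) 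
(.lf (nat_lit 5731) (.g (nat_lit 1871) (.e (nat_lit 290) (nat_lit 21) (.e (nat_lit 336163) (nat_lit 10) (.e (nat_lit 344126) (nat_lit 25) (.e (nat_lit 548874) (nat_lit 5) (.e (nat_lit 1595) (nat_lit 111) (.e (nat_lit 360473) (nat_lit 8) (.e (nat_lit 557068) (nat_lit 9) .nil))))))) (.g (nat_lit 4) .nil .nil)))) (.nd (nat_lit 5) 
(.lf (nat_lit 5715) (.g (nat_lit 614) (.e (nat_lit 290) (nat_lit 21) (.e (nat_lit 336088) (nat_lit 9) (.e (nat_lit 336438) (nat_lit 31) .nil))) .nil)) 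
(.lf (nat_lit 5747) (.g (nat_lit 1826) (.e (nat_lit 290) (nat_lit 21) (.e (nat_lit 336174) (nat_lit 10) (.e (nat_lit 344115) (nat_lit 20) (.e (nat_lit 507906) (nat_lit 0) (.e (nat_lit 5412) (nat_lit 303) (.e (nat_lit 73753) (nat_lit 8) (.e (nat_lit 557068) (nat_lit 9) .nil))))))) (.g (nat_lit 7) .nil .nil))))) (.nd (nat_lit 4) (.nd (nat_lit 5) 
(.lf (nat_lit 5707) (.g (nat_lit 3860) (.e (nat_lit 290) (nat_lit 21) (.e (nat_lit 336078) (nat_lit 9) (.e (nat_lit 336454) (nat_lit 34) (.e (nat_lit 483365) (nat_lit 18) (.e (nat_lit 57852) (nat_lit 252) (.e (nat_lit 57373) (nat_lit 2) (.e (nat_lit 90134) (nat_lit 9) .nil))))))) (.g (nat_lit 0) .nil .nil))) 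
(.lf (nat_lit 5739) (.g (nat_lit 1952) (.e (nat_lit 290) (nat_lit 21) (.e (nat_lit 336165) (nat_lit 10) (.e (nat_lit 344126) (nat_lit 25) (.e (nat_lit 548872) (nat_lit 5) (.e (nat_lit 1598) (nat_lit 111) (.e (nat_lit 360473) (nat_lit 8) (.e (nat_lit 557073) (nat_lit 9) .nil))))))) (.g (nat_lit 6) .nil .nil)))) (.nd (nat_lit 5) 
(.lf (nat_lit 5723) (.g (nat_lit 1370) (.e (nat_lit 290) (nat_lit 21) (.e (nat_lit 336163) (nat_lit 10) (.e (nat_lit 344126) (nat_lit 25) (.e (nat_lit 548872) (nat_lit 5) (.e (nat_lit 1598) (nat_lit 111) .nil))))) .nil)) 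
(.lf (nat_lit 5755) (.g (nat_lit 1810) (.e (nat_lit 290) (nat_lit 21) (.e (nat_lit 336186) (nat_lit 11) (.e (nat_lit 368676) (nat_lit 21) (.e (nat_lit 516097) (nat_lit 0) (.e (nat_lit 7591) (nat_lit 407) (.e (nat_lit 73755) (nat_lit 8) (.e (nat_lit 557068) (nat_lit 9) .nil))))))) (.g (nat_lit 4) .nil .nil)))))) (.nd (nat_lit 3) (.nd (nat_lit 4) (.nd (nat_lit 5) 
(.lf (nat_lit 5703) (.g (nat_lit 2569) (.e (nat_lit 290) (nat_lit 21) (.e (nat_lit 336078) (nat_lit 9) (.e (nat_lit 336454) (nat_lit 34) (.e (nat_lit 483365) (nat_lit 18) (.e (nat_lit 57849) (nat_lit 252) (.e (nat_lit 57370) (nat_lit 2) (.e (nat_lit 90134) (nat_lit 9) .nil))))))) (.g (nat_lit 6) .nil .nil))) 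
(.lf (nat_lit 5735) (.g (nat_lit 747) (.e (nat_lit 290) (nat_lit 21) (.e (nat_lit 336165) (nat_lit 10) (.e (nat_lit 344115) (nat_lit 20) (.e (nat_lit 507907) (nat_lit 0) (.e (nat_lit 5412) (nat_lit 303) (.e (nat_lit 73753) (nat_lit 8) (.e (nat_lit 557073) (nat_lit 9) .nil))))))) (.g (nat_lit 4) .nil .nil)))) (.nd (nat_lit 5) 
(.lf (nat_lit 5719) (.g (nat_lit 1835) (.e (nat_lit 290) (nat_lit 21) (.e (nat_lit 336163) (nat_lit 10) (.e (nat_lit 344115) (nat_lit 20) (.e (nat_lit 507906) (nat_lit 0) (.e (nat_lit 5412) (nat_lit 303) (.e (nat_lit 73753) (nat_lit 8) (.e (nat_lit 557073) (nat_lit 9) .nil))))))) (.g (nat_lit 7) .nil .nil))) 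
(.lf (nat_lit 5751) (.g (nat_lit 2178) (.e (nat_lit 290) (nat_lit 21) (.e (nat_lit 336184) (nat_lit 11) (.e (nat_lit 368676) (nat_lit 21) (.e (nat_lit 516098) (nat_lit 0) (.e (nat_lit 7591) (nat_lit 407) (.e (nat_lit 73754) (nat_lit 8) (.e (nat_lit 557073) (nat_lit 9) .nil))))))) (.g (nat_lit 5) .nil .nil))))) (.nd (nat_lit 4) (.nd (nat_lit 5) 
(.lf (nat_lit 5711) (.g (nat_lit 3802) (.e (nat_lit 290) (nat_lit 21) (.e (nat_lit 336078) (nat_lit 9) (.e (nat_lit 336454) (nat_lit 34) (.e (nat_lit 483366) (nat_lit 18) (.e (nat_lit 57854) (nat_lit 252) .nil))))) .nil)) 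
(.lf (nat_lit 5743) (.g (nat_lit 3089) (.e (nat_lit 290) (nat_lit 21) (.e (nat_lit 336165) (nat_lit 10) (.e (nat_lit 344126) (nat_lit 25) (.e (nat_lit 548874) (nat_lit 5) (.e (nat_lit 1586) (nat_lit 111) (.e (nat_lit 360474) (nat_lit 8) (.e (nat_lit 557072) (nat_lit 9) .nil))))))) (.g (nat_lit 7) .nil .nil)))) (.nd (nat_lit 5) 
(.lf (nat_lit 5727) (.g (nat_lit 1346) (.e (nat_lit 290) (nat_lit 21) (.e (nat_lit 336163) (nat_lit 10) (.e (nat_lit 344126) (nat_lit 25) (.e (nat_lit 548873) (nat_lit 5) (.e (nat_lit 1598) (nat_lit 111) (.e (nat_lit 360473) (nat_lit 8) (.e (nat_lit 557072) (nat_lit 9) .nil))))))) (.g (nat_lit 4) .nil .nil))) 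
(.lf (nat_lit 5759) (.g (nat_lit 3240) (.e (nat_lit 290) (nat_lit 21) (.e (nat_lit 336186) (nat_lit 11) (.e (nat_lit 368676) (nat_lit 21) (.e (nat_lit 516097) (nat_lit 0) (.e (nat_lit 7593) (nat_lit 407) (.e (nat_lit 73754) (nat_lit 8) (.e (nat_lit 557073) (nat_lit 9) .nil))))))) (.g (nat_lit 7) .nil .nil)))))))))

noncomputable def tv077 : DT := (.nd (nat_lit 0) (.nd (nat_lit 1) (.nd (nat_lit 2) (.nd (nat_lit 3) (.nd (nat_lit 4) (.nd (nat_lit 5) 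
(.lf (nat_lit 5760) (.g (nat_lit 1596) (.e (nat_lit 290) (nat_lit 21) (.e (nat_lit 336186) (nat_lit 11) (.e (nat_lit 368676) (nat_lit 21) (.e (nat_lit 516097) (nat_lit 0) (.e (nat_lit 7593) (nat_lit 407) (.e (nat_lit 73755) (nat_lit 8) (.e (nat_lit 557068) (nat_lit 9) .nil))))))) (.g (nat_lit 4) .nil .nil))) 
(.lf (nat_lit 5792) (.g (nat_lit 4379) (.e (nat_lit 290) (nat_lit 21) (.e (nat_lit 336196) (nat_lit 12) (.e (nat_lit 385072) (nat_lit 31) (.e (nat_lit 573485) (nat_lit 13) (.e (nat_lit 65619) (nat_lit 10) (.e (nat_lit 344129) (nat_lit 26) (.e (nat_lit 557065) (nat_lit 9) .nil))))))) (.g (nat_lit 7) .nil .nil)))) (.nd (nat_lit 5) 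
(.lf (nat_lit 5776) (.g (nat_lit 2864) (.e (nat_lit 290) (nat_lit 21) (.e (nat_lit 336194) (nat_lit 12) (.e (nat_lit 385072) (nat_lit 31) (.e (nat_lit 573484) (nat_lit 13) (.e (nat_lit 65617) (nat_lit 10) .nil))))) .nil)) 
(.lf (nat_lit 5808) (.g (nat_lit 4150) (.e (nat_lit 290) (nat_lit 21) (.e (nat_lit 336196) (nat_lit 12) (.e (nat_lit 385074) (nat_lit 31) (.e (nat_lit 573484) (nat_lit 13) (.e (nat_lit 65617) (nat_lit 10) (.e (nat_lit 344132) (nat_lit 26) (.e (nat_lit 557072) (nat_lit 9) .nil))))))) (.g (nat_lit 7) .nil .nil))))) (.nd (nat_lit 4) (.nd (nat_lit 5) 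
(.lf (nat_lit 5768) (.g (nat_lit 3301) (.e (nat_lit 290) (nat_lit 21) (.e (nat_lit 336186) (nat_lit 11) (.e (nat_lit 368676) (nat_lit 21) (.e (nat_lit 516098) (nat_lit 0) (.e (nat_lit 7593) (nat_lit 407) (.e (nat_lit 73754) (nat_lit 8) (.e (nat_lit 557073) (nat_lit 9) .nil))))))) (.g (nat_lit 7) .nil .nil))) 
(.lf (nat_lit 5800) (.g (nat_lit 4309) (.e (nat_lit 290) (nat_lit 21) (.e (nat_lit 336196) (nat_lit 12) (.e (nat_lit 385073) (nat_lit 31) (.e (nat_lit 573484) (nat_lit 13) (.e (nat_lit 65617) (nat_lit 10) (.e (nat_lit 344132) (nat_lit 26) (.e (nat_lit 557072) (nat_lit 9) .nil))))))) (.g (nat_lit 7) .nil .nil)))) (.nd (nat_lit 5) 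
(.lf (nat_lit 5784) (.g (nat_lit 2695) (.e (nat_lit 290) (nat_lit 21) (.e (nat_lit 336196) (nat_lit 12) (.e (nat_lit 385072) (nat_lit 31) (.e (nat_lit 573481) (nat_lit 13) (.e (nat_lit 65609) (nat_lit 10) (.e (nat_lit 344133) (nat_lit 26) (.e (nat_lit 557068) (nat_lit 9) .nil))))))) (.g (nat_lit 5) .nil .nil))) 
(.lf (nat_lit 5816) (.g (nat_lit 2748) (.e (nat_lit 290) (nat_lit 21) (.e (nat_lit 336203) (nat_lit 12) (.e (nat_lit 385073) (nat_lit 31) (.e (nat_lit 573484) (nat_lit 13) (.e (nat_lit 65617) (nat_lit 10) (.e (nat_lit 344132) (nat_lit 26) (.e (nat_lit 557073) (nat_lit 9) .nil))))))) (.g (nat_lit 5) .nil .nil)))))) (.nd (nat_lit 3) (.nd (nat_lit 4) (.nd (nat_lit 5) 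
(.lf (nat_lit 5764) (.g (nat_lit 2602) (.e (nat_lit 290) (nat_lit 21) (.e (nat_lit 336186) (nat_lit 11) (.e (nat_lit 368676) (nat_lit 21) (.e (nat_lit 516098) (nat_lit 0) (.e (nat_lit 7593) (nat_lit 407) (.e (nat_lit 73753) (nat_lit 8) (.e (nat_lit 557068) (nat_lit 9) .nil))))))) (.g (nat_lit 6) .nil .nil))) 
(.lf (nat_lit 5796) (.g (nat_lit 2472) (.e (nat_lit 290) (nat_lit 21) (.e (nat_lit 336196) (nat_lit 12) (.e (nat_lit 385073) (nat_lit 31) (.e (nat_lit 573482) (nat_lit 13) (.e (nat_lit 65609) (nat_lit 10) (.e (nat_lit 344133) (nat_lit 26) (.e (nat_lit 557068) (nat_lit 9) .nil))))))) (.g (nat_lit 4) .nil .nil)))) (.nd (nat_lit 5) 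
(.lf (nat_lit 5780) (.g (nat_lit 4533) (.e (nat_lit 290) (nat_lit 21) (.e (nat_lit 336194) (nat_lit 12) (.e (nat_lit 385074) (nat_lit 31) (.e (nat_lit 573484) (nat_lit 13) (.e (nat_lit 65617) (nat_lit 10) (.e (nat_lit 344133) (nat_lit 26) (.e (nat_lit 557068) (nat_lit 9) .nil))))))) (.g (nat_lit 0) .nil .nil))) 
(.lf (nat_lit 5812) (.g (nat_lit 3137) (.e (nat_lit 290) (nat_lit 21) (.e (nat_lit 336203) (nat_lit 12) (.e (nat_lit 385072) (nat_lit 31) (.e (nat_lit 573484) (nat_lit 13) (.e (nat_lit 65617) (nat_lit 10) (.e (nat_lit 344130) (nat_lit 26) (.e (nat_lit 557067) (nat_lit 9) .nil))))))) (.g (nat_lit 5) .nil .nil))))) (.nd (nat_lit 4) (.nd (nat_lit 5) 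
(.lf (nat_lit 5772) (.g (nat_lit 2337) (.e (nat_lit 290) (nat_lit 21) (.e (nat_lit 336193) (nat_lit 12) (.e (nat_lit 385074) (nat_lit 31) (.e (nat_lit 573484) (nat_lit 13) (.e (nat_lit 65617) (nat_lit 10) .nil))))) .nil)) 
(.lf (nat_lit 5804) (.g (nat_lit 2008) (.e (nat_lit 290) (nat_lit 21) (.e (nat_lit 336196) (nat_lit 12) (.e (nat_lit 385073) (nat_lit 31) (.e (nat_lit 573491) (nat_lit 15) (.e (nat_lit 81946) (nat_lit 20) .nil))))) .nil))) (.nd (nat_lit 5) 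
(.lf (nat_lit 5788) (.g (nat_lit 4473) (.e (nat_lit 290) (nat_lit 21) (.e (nat_lit 336196) (nat_lit 12) (.e (nat_lit 385072) (nat_lit 31) (.e (nat_lit 573484) (nat_lit 13) (.e (nat_lit 65617) (nat_lit 10) (.e (nat_lit 344130) (nat_lit 26) (.e (nat_lit 557067) (nat_lit 9) .nil))))))) (.g (nat_lit 7) .nil .nil))) 
(.lf (nat_lit 5820) (.g (nat_lit 4443) (.e (nat_lit 290) (nat_lit 21) (.e (nat_lit 336203) (nat_lit 12) (.e (nat_lit 385074) (nat_lit 31) (.e (nat_lit 573484) (nat_lit 13) (.e (nat_lit 65617) (nat_lit 10) (.e (nat_lit 344133) (nat_lit 26) (.e (nat_lit 557068) (nat_lit 9) .nil))))))) (.g (nat_lit 0) .nil .nil))))))) (.nd (nat_lit 2) (.nd (nat_lit 3) (.nd (nat_lit 4) (.nd (nat_lit 5) 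
(.lf (nat_lit 5762) (.g (nat_lit 2634) (.e (nat_lit 290) (nat_lit 21) (.e (nat_lit 336186) (nat_lit 11) (.e (nat_lit 368676) (nat_lit 21) (.e (nat_lit 516098) (nat_lit 0) (.e (nat_lit 7591) (nat_lit 407) (.e (nat_lit 73754) (nat_lit 8) (.e (nat_lit 557073) (nat_lit 9) .nil))))))) (.g (nat_lit 7) .nil .nil))) 
(.lf (nat_lit 5794) (.g (nat_lit 2255) (.e (nat_lit 290) (nat_lit 21) (.e (nat_lit 336196) (nat_lit 12) (.e (nat_lit 385073) (nat_lit 31) (.e (nat_lit 573482) (nat_lit 13) (.e (nat_lit 65609) (nat_lit 10) .nil))))) .nil))) (.nd (nat_lit 5) 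
(.lf (nat_lit 5778) (.g (nat_lit 4390) (.e (nat_lit 290) (nat_lit 21) (.e (nat_lit 336194) (nat_lit 12) (.e (nat_lit 385074) (nat_lit 31) (.e (nat_lit 573484) (nat_lit 13) (.e (nat_lit 65617) (nat_lit 10) (.e (nat_lit 344132) (nat_lit 26) (.e (nat_lit 557072) (nat_lit 9) .nil))))))) (.g (nat_lit 7) .nil .nil))) 
(.lf (nat_lit 5810) (.g (nat_lit 4227) (.e (nat_lit 290) (nat_lit 21) (.e (nat_lit 336196) (nat_lit 12) (.e (nat_lit 385074) (nat_lit 31) (.e (nat_lit 573484) (nat_lit 13) (.e (nat_lit 65617) (nat_lit 10) (.e (nat_lit 344133) (nat_lit 26) (.e (nat_lit 557068) (nat_lit 9) .nil))))))) (.g (nat_lit 7) .nil .nil))))) (.nd (nat_lit 4) (.nd (nat_lit 5) 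
(.lf (nat_lit 5770) (.g (nat_lit 3678) (.e (nat_lit 290) (nat_lit 21) (.e (nat_lit 336186) (nat_lit 11) (.e (nat_lit 368676) (nat_lit 21) (.e (nat_lit 516185) (nat_lit 16) (.e (nat_lit 491560) (nat_lit 10) (.e (nat_lit 344132) (nat_lit 26) (.e (nat_lit 557073) (nat_lit 9) .nil))))))) (.g (nat_lit 7) .nil .nil))) 
(.lf (nat_lit 5802) (.g (nat_lit 4375) (.e (nat_lit 290) (nat_lit 21) (.e (nat_lit 336196) (nat_lit 12) (.e (nat_lit 385073) (nat_lit 31) (.e (nat_lit 573484) (nat_lit 13) (.e (nat_lit 65617) (nat_lit 10) (.e (nat_lit 344133) (nat_lit 26) (.e (nat_lit 557068) (nat_lit 9) .nil))))))) (.g (nat_lit 7) .nil .nil)))) (.nd (nat_lit 5) 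
(.lf (nat_lit 5786) (.g (nat_lit 2653) (.e (nat_lit 290) (nat_lit 21) (.e (nat_lit 336196) (nat_lit 12) (.e (nat_lit 385072) (nat_lit 31) (.e (nat_lit 573482) (nat_lit 13) (.e (nat_lit 65609) (nat_lit 10) .nil))))) .nil)) 
(.lf (nat_lit 5818) (.g (nat_lit 4400) (.e (nat_lit 290) (nat_lit 21) (.e (nat_lit 336203) (nat_lit 12) (.e (nat_lit 385074) (nat_lit 31) (.e (nat_lit 573484) (nat_lit 13) (.e (nat_lit 65617) (nat_lit 10) (.e (nat_lit 344132) (nat_lit 26) (.e (nat_lit 557072) (nat_lit 9) .nil))))))) (.g (nat_lit 7) .nil .nil)))))) (.nd (nat_lit 3) (.nd (nat_lit 4) (.nd (nat_lit 5) 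
(.lf (nat_lit 5766) (.g (nat_lit 1568) (.e (nat_lit 290) (nat_lit 21) (.e (nat_lit 336186) (nat_lit 11) (.e (nat_lit 368676) (nat_lit 21) (.e (nat_lit 516098) (nat_lit 0) (.e (nat_lit 7593) (nat_lit 407) (.e (nat_lit 73754) (nat_lit 8) (.e (nat_lit 557068) (nat_lit 9) .nil))))))) (.g (nat_lit 4) .nil .nil))) 
(.lf (nat_lit 5798) (.g (nat_lit 4447) (.e (nat_lit 290) (nat_lit 21) (.e (nat_lit 336196) (nat_lit 12) (.e (nat_lit 385073) (nat_lit 31) (.e (nat_lit 573482) (nat_lit 13) (.e (nat_lit 65619) (nat_lit 10) (.e (nat_lit 344129) (nat_lit 26) (.e (nat_lit 557065) (nat_lit 9) .nil))))))) (.g (nat_lit 7) .nil .nil)))) (.nd (nat_lit 5) 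
(.lf (nat_lit 5782) (.g (nat_lit 3075) (.e (nat_lit 290) (nat_lit 21) (.e (nat_lit 336196) (nat_lit 12) (.e (nat_lit 385072) (nat_lit 31) (.e (nat_lit 573451) (nat_lit 9) (.e (nat_lit 1595) (nat_lit 111) (.e (nat_lit 360473) (nat_lit 8) (.e (nat_lit 557072) (nat_lit 9) .nil))))))) (.g (nat_lit 5) .nil .nil))) 
(.lf (nat_lit 5814) (.g (nat_lit 2524) (.e (nat_lit 290) (nat_lit 21) (.e (nat_lit 336203) (nat_lit 12) (.e (nat_lit 385072) (nat_lit 31) (.e (nat_lit 573491) (nat_lit 15) (.e (nat_lit 81946) (nat_lit 20) (.e (nat_lit 1858) (nat_lit 124) (.e (nat_lit 557072) (nat_lit 9) .nil))))))) (.g (nat_lit 4) .nil .nil))))) (.nd (nat_lit 4) (.nd (nat_lit 5) 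
(.lf (nat_lit 5774) (.g (nat_lit 2402) (.e (nat_lit 290) (nat_lit 21) (.e (nat_lit 336193) (nat_lit 12) (.e (nat_lit 385074) (nat_lit 31) (.e (nat_lit 573484) (nat_lit 13) (.e (nat_lit 65617) (nat_lit 10) (.e (nat_lit 344132) (nat_lit 26) (.e (nat_lit 557072) (nat_lit 9) .nil))))))) (.g (nat_lit 4) .nil .nil))) 
(.lf (nat_lit 5806) (.g (nat_lit 2900) (.e (nat_lit 290) (nat_lit 21) (.e (nat_lit 336196) (nat_lit 12) (.e (nat_lit 385073) (nat_lit 31) (.e (nat_lit 573491) (nat_lit 15) (.e (nat_lit 81946) (nat_lit 20) (.e (nat_lit 1858) (nat_lit 124) (.e (nat_lit 557073) (nat_lit 9) .nil))))))) (.g (nat_lit 5) .nil .nil)))) (.nd (nat_lit 5) 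
(.lf (nat_lit 5790) (.g (nat_lit 4190) (.e (nat_lit 290) (nat_lit 21) (.e (nat_lit 336196) (nat_lit 12) (.e (nat_lit 385072) (nat_lit 31) (.e (nat_lit 573484) (nat_lit 13) (.e (nat_lit 65617) (nat_lit 10) (.e (nat_lit 344132) (nat_lit 26) (.e (nat_lit 557073) (nat_lit 9) .nil))))))) (.g (nat_lit 0) .nil .nil))) 
(.lf (nat_lit 5822) (.g (nat_lit 2748) (.e (nat_lit 290) (nat_lit 21) (.e (nat_lit 336204) (nat_lit 12) (.e (nat_lit 385074) (nat_lit 31) (.e (nat_lit 573482) (nat_lit 13) .nil)))) .nil))))))) (.nd (nat_lit 1) (.nd (nat_lit 2) (.nd (nat_lit 3) (.nd (nat_lit 4) (.nd (nat_lit 5) 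
(.lf (nat_lit 5761) (.g (nat_lit 1636) (.e (nat_lit 290) (nat_lit 21) (.e (nat_lit 336186) (nat_lit 11) (.e (nat_lit 368676) (nat_lit 21) (.e (nat_lit 516098) (nat_lit 0) (.e (nat_lit 7591) (nat_lit 407) (.e (nat_lit 73753) (nat_lit 8) (.e (nat_lit 557073) (nat_lit 9) .nil))))))) (.g (nat_lit 4) .nil .nil))) 
(.lf (nat_lit 5793) (.g (nat_lit 4295) (.e (nat_lit 290) (nat_lit 21) (.e (nat_lit 336196) (nat_lit 12) (.e (nat_lit 385072) (nat_lit 31) (.e (nat_lit 573491) (nat_lit 15) (.e (nat_lit 81946) (nat_lit 20) (.e (nat_lit 1858) (nat_lit 124) (.e (nat_lit 557072) (nat_lit 9) .nil))))))) (.g (nat_lit 7) .nil .nil)))) (.nd (nat_lit 5) 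
(.lf (nat_lit 5777) (.g (nat_lit 4532) (.e (nat_lit 290) (nat_lit 21) (.e (nat_lit 336194) (nat_lit 12) (.e (nat_lit 385074) (nat_lit 31) (.e (nat_lit 573484) (nat_lit 13) (.e (nat_lit 65617) (nat_lit 10) (.e (nat_lit 344130) (nat_lit 26) (.e (nat_lit 557067) (nat_lit 9) .nil))))))) (.g (nat_lit 0) .nil .nil))) 
(.lf (nat_lit 5809) (.g (nat_lit 3895) (.e (nat_lit 290) (nat_lit 21) (.e (nat_lit 336196) (nat_lit 12) (.e (nat_lit 385074) (nat_lit 31) (.e (nat_lit 573484) (nat_lit 13) (.e (nat_lit 65617) (nat_lit 10) (.e (nat_lit 344132) (nat_lit 26) (.e (nat_lit 557073) (nat_lit 9) .nil))))))) (.g (nat_lit 7) .nil .nil))))) (.nd (nat_lit 4) (.nd (nat_lit 5) 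
(.lf (nat_lit 5769) (.g (nat_lit 3889) (.e (nat_lit 290) (nat_lit 21) (.e (nat_lit 336186) (nat_lit 11) (.e (nat_lit 368676) (nat_lit 21) (.e (nat_lit 516185) (nat_lit 16) (.e (nat_lit 491560) (nat_lit 10) (.e (nat_lit 344132) (nat_lit 26) (.e (nat_lit 557072) (nat_lit 9) .nil))))))) (.g (nat_lit 7) .nil .nil))) 
(.lf (nat_lit 5801) (.g (nat_lit 4055) (.e (nat_lit 290) (nat_lit 21) (.e (nat_lit 336196) (nat_lit 12) (.e (nat_lit 385073) (nat_lit 31) (.e (nat_lit 573484) (nat_lit 13) (.e (nat_lit 65617) (nat_lit 10) (.e (nat_lit 344132) (nat_lit 26) (.e (nat_lit 557073) (nat_lit 9) .nil))))))) (.g (nat_lit 7) .nil .nil)))) (.nd (nat_lit 5) 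
(.lf (nat_lit 5785) (.g (nat_lit 5222) (.e (nat_lit 290) (nat_lit 21) (.e (nat_lit 336196) (nat_lit 12) (.e (nat_lit 385072) (nat_lit 31) (.e (nat_lit 573481) (nat_lit 13) (.e (nat_lit 65619) (nat_lit 10) (.e (nat_lit 344129) (nat_lit 26) (.e (nat_lit 557065) (nat_lit 9) .nil))))))) (.g (nat_lit 0) .nil .nil))) 
(.lf (nat_lit 5817) (.g (nat_lit 4411) (.e (nat_lit 290) (nat_lit 21) (.e (nat_lit 336203) (nat_lit 12) (.e (nat_lit 385074) (nat_lit 31) (.e (nat_lit 573484) (nat_lit 13) (.e (nat_lit 65617) (nat_lit 10) (.e (nat_lit 344130) (nat_lit 26) (.e (nat_lit 557067) (nat_lit 9) .nil))))))) (.g (nat_lit 0) .nil .nil)))))) (.nd (nat_lit 3) (.nd (nat_lit 4) (.nd (nat_lit 5) 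
(.lf (nat_lit 5765) (.g (nat_lit 2558) (.e (nat_lit 290) (nat_lit 21) (.e (nat_lit 336186) (nat_lit 11) (.e (nat_lit 368676) (nat_lit 21) (.e (nat_lit 516098) (nat_lit 0) (.e (nat_lit 7593) (nat_lit 407) (.e (nat_lit 73753) (nat_lit 8) (.e (nat_lit 557073) (nat_lit 9) .nil))))))) (.g (nat_lit 6) .nil .nil))) 
(.lf (nat_lit 5797) (.g (nat_lit 2341) (.e (nat_lit 290) (nat_lit 21) (.e (nat_lit 336196) (nat_lit 12) (.e (nat_lit 385073) (nat_lit 31) (.e (nat_lit 573482) (nat_lit 13) (.e (nat_lit 65616) (nat_lit 10) (.e (nat_lit 344133) (nat_lit 26) (.e (nat_lit 557068) (nat_lit 9) .nil))))))) (.g (nat_lit 4) .nil .nil)))) (.nd (nat_lit 5) 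
(.lf (nat_lit 5781) (.g (nat_lit 393) (.e (nat_lit 290) (nat_lit 21) (.e (nat_lit 336196) (nat_lit 12) (.e (nat_lit 385072) (nat_lit 31) .nil))) .nil)) 
(.lf (nat_lit 5813) (.g (nat_lit 3128) (.e (nat_lit 290) (nat_lit 21) (.e (nat_lit 336203) (nat_lit 12) (.e (nat_lit 385072) (nat_lit 31) (.e (nat_lit 573484) (nat_lit 13) (.e (nat_lit 65617) (nat_lit 10) (.e (nat_lit 344133) (nat_lit 26) (.e (nat_lit 557068) (nat_lit 9) .nil))))))) (.g (nat_lit 5) .nil .nil))))) (.nd (nat_lit 4) (.nd (nat_lit 5) 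
(.lf (nat_lit 5773) (.g (nat_lit 2556) (.e (nat_lit 290) (nat_lit 21) (.e (nat_lit 336193) (nat_lit 12) (.e (nat_lit 385074) (nat_lit 31) (.e (nat_lit 573484) (nat_lit 13) (.e (nat_lit 65617) (nat_lit 10) (.e (nat_lit 344130) (nat_lit 26) (.e (nat_lit 557067) (nat_lit 9) .nil))))))) (.g (nat_lit 4) .nil .nil))) 
(.lf (nat_lit 5805) (.g (nat_lit 3870) (.e (nat_lit 290) (nat_lit 21) (.e (nat_lit 336196) (nat_lit 12) (.e (nat_lit 385073) (nat_lit 31) (.e (nat_lit 573491) (nat_lit 15) (.e (nat_lit 81946) (nat_lit 20) (.e (nat_lit 1858) (nat_lit 124) (.e (nat_lit 557072) (nat_lit 9) .nil))))))) (.g (nat_lit 6) .nil .nil)))) (.nd (nat_lit 5) 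
(.lf (nat_lit 5789) (.g (nat_lit 4444) (.e (nat_lit 290) (nat_lit 21) (.e (nat_lit 336196) (nat_lit 12) (.e (nat_lit 385072) (nat_lit 31) (.e (nat_lit 573484) (nat_lit 13) (.e (nat_lit 65617) (nat_lit 10) (.e (nat_lit 344132) (nat_lit 26) (.e (nat_lit 557072) (nat_lit 9) .nil))))))) (.g (nat_lit 7) .nil .nil))) 
(.lf (nat_lit 5821) (.g (nat_lit 2630) (.e (nat_lit 290) (nat_lit 21) (.e (nat_lit 336203) (nat_lit 12) (.e (nat_lit 385074) (nat_lit 31) (.e (nat_lit 573485) (nat_lit 13) (.e (nat_lit 65619) (nat_lit 10) (.e (nat_lit 344129) (nat_lit 26) (.e (nat_lit 557065) (nat_lit 9) .nil))))))) (.g (nat_lit 4) .nil .nil))))))) (.nd (nat_lit 2) (.nd (nat_lit 3) (.nd (nat_lit 4) (.nd (nat_lit 5) 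
(.lf (nat_lit 5763) (.g (nat_lit 2252) (.e (nat_lit 290) (nat_lit 21) (.e (nat_lit 336186) (nat_lit 11) (.e (nat_lit 368676) (nat_lit 21) (.e (nat_lit 516098) (nat_lit 0) (.e (nat_lit 7591) (nat_lit 407) (.e (nat_lit 73755) (nat_lit 8) (.e (nat_lit 557068) (nat_lit 9) .nil))))))) (.g (nat_lit 6) .nil .nil))) 
(.lf (nat_lit 5795) (.g (nat_lit 2621) (.e (nat_lit 290) (nat_lit 21) (.e (nat_lit 336196) (nat_lit 12) (.e (nat_lit 385073) (nat_lit 31) (.e (nat_lit 573482) (nat_lit 13) (.e (nat_lit 65609) (nat_lit 10) (.e (nat_lit 344132) (nat_lit 26) (.e (nat_lit 557072) (nat_lit 9) .nil))))))) (.g (nat_lit 5) .nil .nil)))) (.nd (nat_lit 5) 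
(.lf (nat_lit 5779) (.g (nat_lit 4107) (.e (nat_lit 290) (nat_lit 21) (.e (nat_lit 336194) (nat_lit 12) (.e (nat_lit 385074) (nat_lit 31) (.e (nat_lit 573484) (nat_lit 13) (.e (nat_lit 65617) (nat_lit 10) (.e (nat_lit 344132) (nat_lit 26) (.e (nat_lit 557073) (nat_lit 9) .nil))))))) (.g (nat_lit 0) .nil .nil))) 
(.lf (nat_lit 5811) (.g (nat_lit 2674) (.e (nat_lit 290) (nat_lit 21) (.e (nat_lit 336196) (nat_lit 12) (.e (nat_lit 385074) (nat_lit 31) (.e (nat_lit 573485) (nat_lit 13) (.e (nat_lit 65619) (nat_lit 10) (.e (nat_lit 344129) (nat_lit 26) (.e (nat_lit 557072) (nat_lit 9) .nil))))))) (.g (nat_lit 4) .nil .nil))))) (.nd (nat_lit 4) (.nd (nat_lit 5) 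
(.lf (nat_lit 5771) (.g (nat_lit 4041) (.e (nat_lit 290) (nat_lit 21) (.e (nat_lit 336188) (nat_lit 11) (.e (nat_lit 368676) (nat_lit 21) (.e (nat_lit 516185) (nat_lit 16) (.e (nat_lit 491560) (nat_lit 10) (.e (nat_lit 344132) (nat_lit 26) (.e (nat_lit 557073) (nat_lit 9) .nil))))))) (.g (nat_lit 6) .nil .nil))) 
(.lf (nat_lit 5803) (.g (nat_lit 4206) (.e (nat_lit 290) (nat_lit 21) (.e (nat_lit 336196) (nat_lit 12) (.e (nat_lit 385073) (nat_lit 31) (.e (nat_lit 573485) (nat_lit 13) (.e (nat_lit 65619) (nat_lit 10) (.e (nat_lit 344129) (nat_lit 26) (.e (nat_lit 557065) (nat_lit 9) .nil))))))) (.g (nat_lit 7) .nil .nil)))) (.nd (nat_lit 5) 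
(.lf (nat_lit 5787) (.g (nat_lit 4585) (.e (nat_lit 290) (nat_lit 21) (.e (nat_lit 336196) (nat_lit 12) (.e (nat_lit 385072) (nat_lit 31) (.e (nat_lit 573482) (nat_lit 13) (.e (nat_lit 65619) (nat_lit 10) (.e (nat_lit 344129) (nat_lit 26) (.e (nat_lit 557065) (nat_lit 9) .nil))))))) (.g (nat_lit 7) .nil .nil))) 
(.lf (nat_lit 5819) (.g (nat_lit 4098) (.e (nat_lit 290) (nat_lit 21) (.e (nat_lit 336203) (nat_lit 12) (.e (nat_lit 385074) (nat_lit 31) (.e (nat_lit 573484) (nat_lit 13) (.e (nat_lit 65617) (nat_lit 10) (.e (nat_lit 344132) (nat_lit 26) (.e (nat_lit 557073) (nat_lit 9) .nil))))))) (.g (nat_lit 0) .nil .nil)))))) (.nd (nat_lit 3) (.nd (nat_lit 4) (.nd (nat_lit 5) 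
(.lf (nat_lit 5767) (.g (nat_lit 3532) (.e (nat_lit 290) (nat_lit 21) (.e (nat_lit 336186) (nat_lit 11) (.e (nat_lit 368676) (nat_lit 21) (.e (nat_lit 516098) (nat_lit 0) (.e (nat_lit 7593) (nat_lit 407) (.e (nat_lit 73754) (nat_lit 8) (.e (nat_lit 557072) (nat_lit 9) .nil))))))) (.g (nat_lit 7) .nil .nil))) 
(.lf (nat_lit 5799) (.g (nat_lit 4397) (.e (nat_lit 290) (nat_lit 21) (.e (nat_lit 336196) (nat_lit 12) (.e (nat_lit 385073) (nat_lit 31) (.e (nat_lit 573484) (nat_lit 13) (.e (nat_lit 65617) (nat_lit 10) (.e (nat_lit 344130) (nat_lit 26) (.e (nat_lit 557067) (nat_lit 9) .nil))))))) (.g (nat_lit 7) .nil .nil)))) (.nd (nat_lit 5) 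
(.lf (nat_lit 5783) (.g (nat_lit 2385) (.e (nat_lit 290) (nat_lit 21) (.e (nat_lit 336196) (nat_lit 12) (.e (nat_lit 385072) (nat_lit 31) (.e (nat_lit 573481) (nat_lit 13) (.e (nat_lit 65609) (nat_lit 10) .nil))))) .nil)) 
(.lf (nat_lit 5815) (.g (nat_lit 2095) (.e (nat_lit 290) (nat_lit 21) (.e (nat_lit 336203) (nat_lit 12) (.e (nat_lit 385073) (nat_lit 31) (.e (nat_lit 573482) (nat_lit 13) (.e (nat_lit 65609) (nat_lit 10) .nil))))) .nil)))) (.nd (nat_lit 4) (.nd (nat_lit 5) 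
(.lf (nat_lit 5775) (.g (nat_lit 2532) (.e (nat_lit 290) (nat_lit 21) (.e (nat_lit 336193) (nat_lit 12) (.e (nat_lit 385074) (nat_lit 31) (.e (nat_lit 573484) (nat_lit 13) (.e (nat_lit 65617) (nat_lit 10) (.e (nat_lit 344133) (nat_lit 26) (.e (nat_lit 557068) (nat_lit 9) .nil))))))) (.g (nat_lit 4) .nil .nil))) 
(.lf (nat_lit 5807) (.g (nat_lit 4265) (.e (nat_lit 290) (nat_lit 21) (.e (nat_lit 336196) (nat_lit 12) (.e (nat_lit 385074) (nat_lit 31) (.e (nat_lit 573484) (nat_lit 13) (.e (nat_lit 65617) (nat_lit 10) (.e (nat_lit 344130) (nat_lit 26) (.e (nat_lit 557067) (nat_lit 9) .nil))))))) (.g (nat_lit 7) .nil .nil)))) (.nd (nat_lit 5) 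
(.lf (nat_lit 5791) (.g (nat_lit 4490) (.e (nat_lit 290) (nat_lit 21) (.e (nat_lit 336196) (nat_lit 12) (.e (nat_lit 385072) (nat_lit 31) (.e (nat_lit 573484) (nat_lit 13) (.e (nat_lit 65617) (nat_lit 10) (.e (nat_lit 344133) (nat_lit 26) (.e (nat_lit 557068) (nat_lit 9) .nil))))))) (.g (nat_lit 7) .nil .nil))) 
(.lf (nat_lit 5823) (.g (nat_lit 3096) (.e (nat_lit 290) (nat_lit 21) (.e (nat_lit 336204) (nat_lit 12) (.e (nat_lit 385074) (nat_lit 31) (.e (nat_lit 573484) (nat_lit 13) .nil)))) .nil))))))))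

noncomputable def tv078 : DT := (.nd (nat_lit 0) (.nd (nat_lit 1) (.nd (nat_lit 2) (.nd (nat_lit 3) (.nd (nat_lit 4) (.nd (nat_lit 5) 
(.lf (nat_lit 5824) (.g (nat_lit 4340) (.e (nat_lit 290) (nat_lit 21) (.e (nat_lit 336204) (nat_lit 12) (.e (nat_lit 385074) (nat_lit 31) (.e (nat_lit 573484) (nat_lit 13) (.e (nat_lit 65617) (nat_lit 10) .nil))))) .nil)) 
(.lf (nat_lit 5856) (.g (nat_lit 2820) (.e (nat_lit 290) (nat_lit 21) (.e (nat_lit 336215) (nat_lit 13) (.e (nat_lit 393225) (nat_lit 9) (.e (nat_lit 335995) (nat_lit 1) (.e (nat_lit 57848) (nat_lit 252) (.e (nat_lit 57374) (nat_lit 2) (.e (nat_lit 90134) (nat_lit 9) .nil))))))) (.g (nat_lit 4) .nil .nil)))) (.nd (nat_lit 5) 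
(.lf (nat_lit 5840) (.g (nat_lit 2054) (.e (nat_lit 290) (nat_lit 21) (.e (nat_lit 336213) (nat_lit 13) (.e (nat_lit 393298) (nat_lit 27) (.e (nat_lit 491552) (nat_lit 9) .nil)))) .nil)) 
(.lf (nat_lit 5872) (.g (nat_lit 3982) (.e (nat_lit 290) (nat_lit 21) (.e (nat_lit 336215) (nat_lit 13) (.e (nat_lit 393229) (nat_lit 9) (.e (nat_lit 335994) (nat_lit 1) (.e (nat_lit 57854) (nat_lit 252) .nil))))) .nil)))) (.nd (nat_lit 4) (.nd (nat_lit 5) 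
(.lf (nat_lit 5832) (.g (nat_lit 3126) (.e (nat_lit 290) (nat_lit 21) (.e (nat_lit 336213) (nat_lit 13) (.e (nat_lit 393233) (nat_lit 17) (.e (nat_lit 7587) (nat_lit 406) (.e (nat_lit 65580) (nat_lit 6) (.e (nat_lit 147476) (nat_lit 9) .nil)))))) (.g (nat_lit 6) .nil .nil))) 
(.lf (nat_lit 5864) (.g (nat_lit 1721) (.e (nat_lit 290) (nat_lit 21) (.e (nat_lit 336215) (nat_lit 13) (.e (nat_lit 393229) (nat_lit 9) (.e (nat_lit 335987) (nat_lit 1) .nil)))) .nil))) (.nd (nat_lit 5) 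
(.lf (nat_lit 5848) (.g (nat_lit 2656) (.e (nat_lit 290) (nat_lit 21) (.e (nat_lit 336213) (nat_lit 13) (.e (nat_lit 393300) (nat_lit 27) (.e (nat_lit 491558) (nat_lit 10) (.e (nat_lit 344180) (nat_lit 44) .nil))))) .nil)) 
(.lf (nat_lit 5880) (.g (nat_lit 2777) (.e (nat_lit 290) (nat_lit 21) (.e (nat_lit 336215) (nat_lit 13) (.e (nat_lit 393229) (nat_lit 9) (.e (nat_lit 335996) (nat_lit 1) (.e (nat_lit 57854) (nat_lit 252) (.e (nat_lit 57370) (nat_lit 2) (.e (nat_lit 90134) (nat_lit 9) .nil))))))) (.g (nat_lit 5) .nil .nil)))))) (.nd (nat_lit 3) (.nd (nat_lit 4) (.nd (nat_lit 5) 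
(.lf (nat_lit 5828) (.g (nat_lit 959) (.e (nat_lit 290) (nat_lit 21) (.e (nat_lit 336213) (nat_lit 13) (.e (nat_lit 393231) (nat_lit 17) .nil))) .nil)) 
(.lf (nat_lit 5860) (.g (nat_lit 4370) (.e (nat_lit 290) (nat_lit 21) (.e (nat_lit 336215) (nat_lit 13) (.e (nat_lit 393229) (nat_lit 9) (.e (nat_lit 335986) (nat_lit 1) (.e (nat_lit 57847) (nat_lit 252) (.e (nat_lit 57374) (nat_lit 2) (.e (nat_lit 90134) (nat_lit 9) .nil))))))) (.g (nat_lit 0) .nil .nil)))) (.nd (nat_lit 5) 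
(.lf (nat_lit 5844) (.g (nat_lit 1593) (.e (nat_lit 290) (nat_lit 21) (.e (nat_lit 336213) (nat_lit 13) (.e (nat_lit 393299) (nat_lit 27) (.e (nat_lit 491560) (nat_lit 10) .nil)))) .nil)) 
(.lf (nat_lit 5876) (.g (nat_lit 4100) (.e (nat_lit 290) (nat_lit 21) (.e (nat_lit 336215) (nat_lit 13) (.e (nat_lit 393229) (nat_lit 9) (.e (nat_lit 335995) (nat_lit 1) (.e (nat_lit 57849) (nat_lit 252) (.e (nat_lit 57372) (nat_lit 2) (.e (nat_lit 90134) (nat_lit 9) .nil))))))) (.g (nat_lit 7) .nil .nil))))) (.nd (nat_lit 4) (.nd (nat_lit 5) 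
(.lf (nat_lit 5836) (.g (nat_lit 2305) (.e (nat_lit 290) (nat_lit 21) (.e (nat_lit 336213) (nat_lit 13) (.e (nat_lit 393233) (nat_lit 17) (.e (nat_lit 7593) (nat_lit 407) (.e (nat_lit 73775) (nat_lit 26) (.e (nat_lit 778380) (nat_lit 9) .nil)))))) (.g (nat_lit 4) .nil .nil))) 
(.lf (nat_lit 5868) (.g (nat_lit 2112) (.e (nat_lit 290) (nat_lit 21) (.e (nat_lit 336215) (nat_lit 13) (.e (nat_lit 393229) (nat_lit 9) (.e (nat_lit 335988) (nat_lit 1) (.e (nat_lit 57854) (nat_lit 252) (.e (nat_lit 57370) (nat_lit 2) (.e (nat_lit 90134) (nat_lit 9) .nil))))))) (.g (nat_lit 4) .nil .nil)))) (.nd (nat_lit 5) 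
(.lf (nat_lit 5852) (.g (nat_lit 2211) (.e (nat_lit 290) (nat_lit 21) (.e (nat_lit 336213) (nat_lit 13) (.e (nat_lit 393301) (nat_lit 27) (.e (nat_lit 491556) (nat_lit 9) .nil)))) .nil)) 
(.lf (nat_lit 5884) (.g (nat_lit 2435) (.e (nat_lit 290) (nat_lit 21) (.e (nat_lit 336215) (nat_lit 13) (.e (nat_lit 401152) (nat_lit 10) (.e (nat_lit 344160) (nat_lit 37) (.e (nat_lit 647200) (nat_lit 12) (.e (nat_lit 57477) (nat_lit 28) (.e (nat_lit 557064) (nat_lit 9) .nil))))))) (.g (nat_lit 6) .nil .nil))))))) (.nd (nat_lit 2) (.nd (nat_lit 3) (.nd (nat_lit 4) (.nd (nat_lit 5) 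
(.lf (nat_lit 5826) (.g (nat_lit 4664) (.e (nat_lit 290) (nat_lit 21) (.e (nat_lit 336213) (nat_lit 13) (.e (nat_lit 393225) (nat_lit 9) (.e (nat_lit 335995) (nat_lit 1) (.e (nat_lit 57848) (nat_lit 252) (.e (nat_lit 57375) (nat_lit 2) (.e (nat_lit 90134) (nat_lit 9) .nil))))))) (.g (nat_lit 6) .nil .nil))) 
(.lf (nat_lit 5858) (.g (nat_lit 1072) (.e (nat_lit 290) (nat_lit 21) (.e (nat_lit 336215) (nat_lit 13) (.e (nat_lit 393229) (nat_lit 9) (.e (nat_lit 335986) (nat_lit 1) .nil)))) .nil))) (.nd (nat_lit 5) 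
(.lf (nat_lit 5842) (.g (nat_lit 2897) (.e (nat_lit 290) (nat_lit 21) (.e (nat_lit 336213) (nat_lit 13) (.e (nat_lit 393299) (nat_lit 27) (.e (nat_lit 491546) (nat_lit 9) (.e (nat_lit 336048) (nat_lit 6) .nil))))) .nil)) 
(.lf (nat_lit 5874) (.g (nat_lit 2514) (.e (nat_lit 290) (nat_lit 21) (.e (nat_lit 336215) (nat_lit 13) (.e (nat_lit 393229) (nat_lit 9) (.e (nat_lit 335995) (nat_lit 1) (.e (nat_lit 57847) (nat_lit 252) (.e (nat_lit 57370) (nat_lit 2) (.e (nat_lit 90134) (nat_lit 9) .nil))))))) (.g (nat_lit 5) .nil .nil))))) (.nd (nat_lit 4) (.nd (nat_lit 5) 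
(.lf (nat_lit 5834) (.g (nat_lit 2008) (.e (nat_lit 290) (nat_lit 21) (.e (nat_lit 336213) (nat_lit 13) (.e (nat_lit 393233) (nat_lit 17) (.e (nat_lit 7591) (nat_lit 407) (.e (nat_lit 73776) (nat_lit 26) .nil))))) .nil)) 
(.lf (nat_lit 5866) (.g (nat_lit 2324) (.e (nat_lit 290) (nat_lit 21) (.e (nat_lit 336215) (nat_lit 13) (.e (nat_lit 393229) (nat_lit 9) (.e (nat_lit 335988) (nat_lit 1) (.e (nat_lit 57852) (nat_lit 252) (.e (nat_lit 57370) (nat_lit 2) (.e (nat_lit 90134) (nat_lit 9) .nil))))))) (.g (nat_lit 5) .nil .nil)))) (.nd (nat_lit 5) 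
(.lf (nat_lit 5850) (.g (nat_lit 2331) (.e (nat_lit 290) (nat_lit 21) (.e (nat_lit 336213) (nat_lit 13) (.e (nat_lit 393301) (nat_lit 27) (.e (nat_lit 491546) (nat_lit 9) .nil)))) .nil)) 
(.lf (nat_lit 5882) (.g (nat_lit 5387) (.e (nat_lit 290) (nat_lit 21) (.e (nat_lit 336215) (nat_lit 13) (.e (nat_lit 393229) (nat_lit 9) (.e (nat_lit 335996) (nat_lit 1) (.e (nat_lit 57854) (nat_lit 252) (.e (nat_lit 57373) (nat_lit 2) (.e (nat_lit 90134) (nat_lit 9) .nil))))))) (.g (nat_lit 0) .nil .nil)))))) (.nd (nat_lit 3) (.nd (nat_lit 4) (.nd (nat_lit 5) 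
(.lf (nat_lit 5830) (.g (nat_lit 2294) (.e (nat_lit 290) (nat_lit 21) (.e (nat_lit 336213) (nat_lit 13) (.e (nat_lit 393232) (nat_lit 17) (.e (nat_lit 7587) (nat_lit 406) (.e (nat_lit 65580) (nat_lit 6) .nil))))) .nil)) 
(.lf (nat_lit 5862) (.g (nat_lit 2095) (.e (nat_lit 290) (nat_lit 21) (.e (nat_lit 336215) (nat_lit 13) (.e (nat_lit 393229) (nat_lit 9) (.e (nat_lit 335986) (nat_lit 1) (.e (nat_lit 57854) (nat_lit 252) .nil))))) .nil))) (.nd (nat_lit 5) 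
(.lf (nat_lit 5846) (.g (nat_lit 3250) (.e (nat_lit 290) (nat_lit 21) (.e (nat_lit 336213) (nat_lit 13) (.e (nat_lit 393300) (nat_lit 27) (.e (nat_lit 491546) (nat_lit 9) (.e (nat_lit 336048) (nat_lit 6) (.e (nat_lit 147476) (nat_lit 9) .nil)))))) (.g (nat_lit 5) .nil .nil))) 
(.lf (nat_lit 5878) (.g (nat_lit 4703) (.e (nat_lit 290) (nat_lit 21) (.e (nat_lit 336215) (nat_lit 13) (.e (nat_lit 393229) (nat_lit 9) (.e (nat_lit 335996) (nat_lit 1) (.e (nat_lit 57852) (nat_lit 252) (.e (nat_lit 57373) (nat_lit 2) (.e (nat_lit 90134) (nat_lit 9) .nil))))))) (.g (nat_lit 0) .nil .nil))))) (.nd (nat_lit 4) (.nd (nat_lit 5) 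
(.lf (nat_lit 5838) (.g (nat_lit 2718) (.e (nat_lit 290) (nat_lit 21) (.e (nat_lit 336213) (nat_lit 13) (.e (nat_lit 393234) (nat_lit 17) (.e (nat_lit 7587) (nat_lit 406) (.e (nat_lit 65580) (nat_lit 6) .nil))))) .nil)) 
(.lf (nat_lit 5870) (.g (nat_lit 4906) (.e (nat_lit 290) (nat_lit 21) (.e (nat_lit 336215) (nat_lit 13) (.e (nat_lit 393229) (nat_lit 9) (.e (nat_lit 335988) (nat_lit 1) (.e (nat_lit 57854) (nat_lit 252) (.e (nat_lit 57373) (nat_lit 2) (.e (nat_lit 90134) (nat_lit 9) .nil))))))) (.g (nat_lit 0) .nil .nil)))) (.nd (nat_lit 5) 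
(.lf (nat_lit 5854) (.g (nat_lit 2081) (.e (nat_lit 290) (nat_lit 21) (.e (nat_lit 336214) (nat_lit 13) (.e (nat_lit 393225) (nat_lit 9) (.e (nat_lit 335996) (nat_lit 1) (.e (nat_lit 57851) (nat_lit 252) (.e (nat_lit 57371) (nat_lit 2) (.e (nat_lit 90134) (nat_lit 9) .nil))))))) (.g (nat_lit 4) .nil .nil))) 
(.lf (nat_lit 5886) (.g (nat_lit 1576) (.e (nat_lit 290) (nat_lit 21) (.e (nat_lit 336215) (nat_lit 13) (.e (nat_lit 401152) (nat_lit 10) (.e (nat_lit 344164) (nat_lit 37) (.e (nat_lit 647200) (nat_lit 12) (.e (nat_lit 57477) (nat_lit 28) (.e (nat_lit 557071) (nat_lit 9) .nil))))))) (.g (nat_lit 5) .nil .nil)))))))) 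
(.nd (nat_lit 1) (.nd (nat_lit 2) (.nd (nat_lit 3) (.nd (nat_lit 4) (.nd (nat_lit 5) 
(.lf (nat_lit 5825) (.g (nat_lit 2482) (.e (nat_lit 290) (nat_lit 21) (.e (nat_lit 336212) (nat_lit 13) (.e (nat_lit 393225) (nat_lit 9) (.e (nat_lit 335995) (nat_lit 1) (.e (nat_lit 57848) (nat_lit 252) (.e (nat_lit 57374) (nat_lit 2) (.e (nat_lit 90134) (nat_lit 9) .nil))))))) (.g (nat_lit 5) .nil .nil))) 
(.lf (nat_lit 5857) (.g (nat_lit 619) (.e (nat_lit 290) (nat_lit 21) (.e (nat_lit 336215) (nat_lit 13) (.e (nat_lit 393227) (nat_lit 9) .nil))) .nil))) (.nd (nat_lit 5) 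
(.lf (nat_lit 5841) (.g (nat_lit 1028) (.e (nat_lit 290) (nat_lit 21) (.e (nat_lit 336213) (nat_lit 13) (.e (nat_lit 393299) (nat_lit 27) .nil))) .nil)) 
(.lf (nat_lit 5873) (.g (nat_lit 2512) (.e (nat_lit 290) (nat_lit 21) (.e (nat_lit 336215) (nat_lit 13) (.e (nat_lit 393229) (nat_lit 9) (.e (nat_lit 335995) (nat_lit 1) (.e (nat_lit 57844) (nat_lit 252) .nil))))) .nil)))) (.nd (nat_lit 4) (.nd (nat_lit 5) 
(.lf (nat_lit 5833) (.g (nat_lit 2174) (.e (nat_lit 290) (nat_lit 21) (.e (nat_lit 336213) (nat_lit 13) (.e (nat_lit 393233) (nat_lit 17) (.e (nat_lit 7591) (nat_lit 407) (.e (nat_lit 73775) (nat_lit 26) .nil))))) .nil)) 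
(.lf (nat_lit 5865) (.g (nat_lit 2520) (.e (nat_lit 290) (nat_lit 21) (.e (nat_lit 336215) (nat_lit 13) (.e (nat_lit 393229) (nat_lit 9) (.e (nat_lit 335987) (nat_lit 1) (.e (nat_lit 57854) (nat_lit 252) (.e (nat_lit 57371) (nat_lit 2) (.e (nat_lit 90134) (nat_lit 9) .nil))))))) (.g (nat_lit 4) .nil .nil)))) (.nd (nat_lit 5) 
(.lf (nat_lit 5849) (.g (nat_lit 1667) (.e (nat_lit 290) (nat_lit 21) (.e (nat_lit 336213) (nat_lit 13) (.e (nat_lit 393300) (nat_lit 27) (.e (nat_lit 491560) (nat_lit 10) .nil)))) .nil)) 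
(.lf (nat_lit 5881) (.g (nat_lit 4360) (.e (nat_lit 290) (nat_lit 21) (.e (nat_lit 336215) (nat_lit 13) (.e (nat_lit 393229) (nat_lit 9) (.e (nat_lit 335996) (nat_lit 1) (.e (nat_lit 57854) (nat_lit 252) (.e (nat_lit 57371) (nat_lit 2) (.e (nat_lit 90134) (nat_lit 9) .nil))))))) (.g (nat_lit 7) .nil .nil)))))) (.nd (nat_lit 3) (.nd (nat_lit 4) (.nd (nat_lit 5) 
(.lf (nat_lit 5829) (.g (nat_lit 986) (.e (nat_lit 290) (nat_lit 21) (.e (nat_lit 336213) (nat_lit 13) (.e (nat_lit 393232) (nat_lit 17) .nil))) .nil)) 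
(.lf (nat_lit 5861) (.g (nat_lit 3140) (.e (nat_lit 290) (nat_lit 21) (.e (nat_lit 336215) (nat_lit 13) (.e (nat_lit 393229) (nat_lit 9) (.e (nat_lit 335986) (nat_lit 1) (.e (nat_lit 57851) (nat_lit 252) .nil))))) .nil))) (.nd (nat_lit 5) 
(.lf (nat_lit 5845) (.g (nat_lit 905) (.e (nat_lit 290) (nat_lit 21) (.e (nat_lit 336213) (nat_lit 13) (.e (nat_lit 393300) (nat_lit 27) .nil))) .nil)) 
(.lf (nat_lit 5877) (.g (nat_lit 2345) (.e (nat_lit 290) (nat_lit 21) (.e (nat_lit 336215) (nat_lit 13) (.e (nat_lit 393229) (nat_lit 9) (.e (nat_lit 335996) (nat_lit 1) (.e (nat_lit 57830) (nat_lit 250) (.e (nat_lit 1016) (nat_lit 81) (.e (nat_lit 1239) (nat_lit 91) (.e (nat_lit 90134) (nat_lit 9) .nil)))))))) (.g (nat_lit 4) .nil .nil))))) (.nd (nat_lit 4) (.nd (nat_lit 5) 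
(.lf (nat_lit 5837) (.g (nat_lit 959) (.e (nat_lit 290) (nat_lit 21) (.e (nat_lit 336213) (nat_lit 13) (.e (nat_lit 393234) (nat_lit 17) .nil))) .nil)) 
(.lf (nat_lit 5869) (.g (nat_lit 3857) (.e (nat_lit 290) (nat_lit 21) (.e (nat_lit 336215) (nat_lit 13) (.e (nat_lit 393229) (nat_lit 9) (.e (nat_lit 335988) (nat_lit 1) (.e (nat_lit 57854) (nat_lit 252) (.e (nat_lit 57371) (nat_lit 2) (.e (nat_lit 90134) (nat_lit 9) .nil))))))) (.g (nat_lit 7) .nil .nil)))) (.nd (nat_lit 5) 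
(.lf (nat_lit 5853) (.g (nat_lit 3305) (.e (nat_lit 290) (nat_lit 21) (.e (nat_lit 336213) (nat_lit 13) (.e (nat_lit 393301) (nat_lit 27) (.e (nat_lit 491560) (nat_lit 10) (.e (nat_lit 344179) (nat_lit 44) .nil))))) .nil)) 
(.lf (nat_lit 5885) (.g (nat_lit 1950) (.e (nat_lit 290) (nat_lit 21) (.e (nat_lit 336215) (nat_lit 13) (.e (nat_lit 401152) (nat_lit 10) (.e (nat_lit 344160) (nat_lit 37) (.e (nat_lit 647200) (nat_lit 12) (.e (nat_lit 57477) (nat_lit 28) (.e (nat_lit 557065) (nat_lit 9) .nil))))))) (.g (nat_lit 5) .nil .nil))))))) (.nd (nat_lit 2) (.nd (nat_lit 3) (.nd (nat_lit 4) (.nd (nat_lit 5) 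
(.lf (nat_lit 5827) (.g (nat_lit 3339) (.e (nat_lit 290) (nat_lit 21) (.e (nat_lit 336213) (nat_lit 13) (.e (nat_lit 393229) (nat_lit 9) (.e (nat_lit 335995) (nat_lit 1) (.e (nat_lit 57848) (nat_lit 252) (.e (nat_lit 57374) (nat_lit 2) (.e (nat_lit 90134) (nat_lit 9) .nil))))))) (.g (nat_lit 6) .nil .nil))) 
(.lf (nat_lit 5859) (.g (nat_lit 2494) (.e (nat_lit 290) (nat_lit 21) (.e (nat_lit 336215) (nat_lit 13) (.e (nat_lit 393229) (nat_lit 9) (.e (nat_lit 335986) (nat_lit 1) (.e (nat_lit 57847) (nat_lit 252) (.e (nat_lit 57370) (nat_lit 2) (.e (nat_lit 90134) (nat_lit 9) .nil))))))) (.g (nat_lit 5) .nil .nil)))) (.nd (nat_lit 5) 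
(.lf (nat_lit 5843) (.g (nat_lit 2144) (.e (nat_lit 290) (nat_lit 21) (.e (nat_lit 336213) (nat_lit 13) (.e (nat_lit 393299) (nat_lit 27) (.e (nat_lit 491552) (nat_lit 9) .nil)))) .nil)) 
(.lf (nat_lit 5875) (.g (nat_lit 2642) (.e (nat_lit 290) (nat_lit 21) (.e (nat_lit 336215) (nat_lit 13) (.e (nat_lit 393229) (nat_lit 9) (.e (nat_lit 335995) (nat_lit 1) (.e (nat_lit 57849) (nat_lit 252) (.e (nat_lit 57370) (nat_lit 2) (.e (nat_lit 90134) (nat_lit 9) .nil))))))) (.g (nat_lit 6) .nil .nil))))) (.nd (nat_lit 4) (.nd (nat_lit 5) 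
(.lf (nat_lit 5835) (.g (nat_lit 3062) (.e (nat_lit 290) (nat_lit 21) (.e (nat_lit 336213) (nat_lit 13) (.e (nat_lit 393233) (nat_lit 17) (.e (nat_lit 7591) (nat_lit 407) (.e (nat_lit 73776) (nat_lit 26) (.e (nat_lit 778380) (nat_lit 9) .nil)))))) (.g (nat_lit 6) .nil .nil))) 
(.lf (nat_lit 5867) (.g (nat_lit 4234) (.e (nat_lit 290) (nat_lit 21) (.e (nat_lit 336215) (nat_lit 13) (.e (nat_lit 393229) (nat_lit 9) (.e (nat_lit 335988) (nat_lit 1) (.e (nat_lit 57852) (nat_lit 252) (.e (nat_lit 57373) (nat_lit 2) (.e (nat_lit 90134) (nat_lit 9) .nil))))))) (.g (nat_lit 0) .nil .nil)))) (.nd (nat_lit 5) 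
(.lf (nat_lit 5851) (.g (nat_lit 2393) (.e (nat_lit 290) (nat_lit 21) (.e (nat_lit 336213) (nat_lit 13) (.e (nat_lit 393301) (nat_lit 27) (.e (nat_lit 491552) (nat_lit 9) .nil)))) .nil)) 
(.lf (nat_lit 5883) (.g (nat_lit 436) (.e (nat_lit 290) (nat_lit 21) (.e (nat_lit 336215) (nat_lit 13) (.e (nat_lit 401152) (nat_lit 10) .nil))) .nil))))) (.nd (nat_lit 3) (.nd (nat_lit 4) (.nd (nat_lit 5) 
(.lf (nat_lit 5831) (.g (nat_lit 897) (.e (nat_lit 290) (nat_lit 21) (.e (nat_lit 336213) (nat_lit 13) (.e (nat_lit 393233) (nat_lit 17) .nil))) .nil)) 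
(.lf (nat_lit 5863) (.g (nat_lit 4757) (.e (nat_lit 290) (nat_lit 21) (.e (nat_lit 336215) (nat_lit 13) (.e (nat_lit 393229) (nat_lit 9) (.e (nat_lit 335986) (nat_lit 1) (.e (nat_lit 57854) (nat_lit 252) (.e (nat_lit 57373) (nat_lit 2) (.e (nat_lit 90134) (nat_lit 9) .nil))))))) (.g (nat_lit 6) .nil .nil)))) (.nd (nat_lit 5) 
(.lf (nat_lit 5847) (.g (nat_lit 3136) (.e (nat_lit 290) (nat_lit 21) (.e (nat_lit 336213) (nat_lit 13) (.e (nat_lit 393300) (nat_lit 27) (.e (nat_lit 491556) (nat_lit 9) (.e (nat_lit 336051) (nat_lit 6) (.e (nat_lit 147476) (nat_lit 9) .nil)))))) (.g (nat_lit 4) .nil .nil))) 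
(.lf (nat_lit 5879) (.g (nat_lit 2057) (.e (nat_lit 290) (nat_lit 21) (.e (nat_lit 336215) (nat_lit 13) (.e (nat_lit 393229) (nat_lit 9) (.e (nat_lit 335996) (nat_lit 1) (.e (nat_lit 57853) (nat_lit 252) .nil))))) .nil)))) (.nd (nat_lit 4) (.nd (nat_lit 5) 
(.lf (nat_lit 5839) (.g (nat_lit 961) (.e (nat_lit 290) (nat_lit 21) (.e (nat_lit 336213) (nat_lit 13) (.e (nat_lit 393237) (nat_lit 17) .nil))) .nil)) 
(.lf (nat_lit 5871) (.g (nat_lit 1312) (.e (nat_lit 290) (nat_lit 21) (.e (nat_lit 336215) (nat_lit 13) (.e (nat_lit 393229) (nat_lit 9) (.e (nat_lit 335994) (nat_lit 1) .nil)))) .nil))) (.nd (nat_lit 5) 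
(.lf (nat_lit 5855) (.g (nat_lit 4009) (.e (nat_lit 290) (nat_lit 21) (.e (nat_lit 336214) (nat_lit 13) (.e (nat_lit 393229) (nat_lit 9) (.e (nat_lit 335995) (nat_lit 1) (.e (nat_lit 57848) (nat_lit 252) (.e (nat_lit 57374) (nat_lit 2) (.e (nat_lit 90134) (nat_lit 9) .nil))))))) (.g (nat_lit 0) .nil .nil))) 
(.lf (nat_lit 5887) (.g (nat_lit 627) (.e (nat_lit 290) (nat_lit 21) (.e (nat_lit 336215) (nat_lit 13) (.e (nat_lit 393232) (nat_lit 17) .nil))) .nil))))))))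

noncomputable def tv079 : DT := (.nd (nat_lit 0) (.nd (nat_lit 1) (.nd (nat_lit 2) (.nd (nat_lit 3) (.nd (nat_lit 4) (.nd (nat_lit 5) 
(.lf (nat_lit 5888) (.g (nat_lit 627) (.e (nat_lit 290) (nat_lit 21) (.e (nat_lit 336215) (nat_lit 13) (.e (nat_lit 393249) (nat_lit 17) .nil))) .nil)) 
(.lf (nat_lit 5920) (.g (nat_lit 2709) (.e (nat_lit 290) (nat_lit 21) (.e (nat_lit 336223) (nat_lit 13) (.e (nat_lit 393301) (nat_lit 27) (.e (nat_lit 491560) (nat_lit 10) (.e (nat_lit 344179) (nat_lit 44) .nil))))) .nil))) (.nd (nat_lit 5) 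
(.lf (nat_lit 5904) (.g (nat_lit 2405) (.e (nat_lit 290) (nat_lit 21) (.e (nat_lit 336222) (nat_lit 13) (.e (nat_lit 393260) (nat_lit 21) (.e (nat_lit 409617) (nat_lit 10) (.e (nat_lit 4934) (nat_lit 287) (.e (nat_lit 2580) (nat_lit 161) (.e (nat_lit 40977) (nat_lit 9) .nil))))))) (.g (nat_lit 4) .nil .nil))) 
(.lf (nat_lit 5936) (.g (nat_lit 4083) (.e (nat_lit 290) (nat_lit 21) (.e (nat_lit 336230) (nat_lit 14) (.e (nat_lit 401425) (nat_lit 2) (.e (nat_lit 196666) (nat_lit 13) (.e (nat_lit 65617) (nat_lit 10) (.e (nat_lit 344132) (nat_lit 26) (.e (nat_lit 557072) (nat_lit 9) .nil))))))) (.g (nat_lit 7) .nil .nil))))) (.nd (nat_lit 4) (.nd (nat_lit 5) 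
(.lf (nat_lit 5896) (.g (nat_lit 372) (.e (nat_lit 290) (nat_lit 21) (.e (nat_lit 336222) (nat_lit 13) (.e (nat_lit 393232) (nat_lit 17) .nil))) .nil)) 
(.lf (nat_lit 5928) (.g (nat_lit 2416) (.e (nat_lit 290) (nat_lit 21) (.e (nat_lit 336229) (nat_lit 14) (.e (nat_lit 401423) (nat_lit 2) (.e (nat_lit 196666) (nat_lit 13) (.e (nat_lit 65617) (nat_lit 10) (.e (nat_lit 344132) (nat_lit 26) (.e (nat_lit 557073) (nat_lit 9) .nil))))))) (.g (nat_lit 4) .nil .nil)))) (.nd (nat_lit 5) 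
(.lf (nat_lit 5912) (.g (nat_lit 2272) (.e (nat_lit 290) (nat_lit 21) (.e (nat_lit 336223) (nat_lit 13) (.e (nat_lit 393234) (nat_lit 17) (.e (nat_lit 7591) (nat_lit 407) (.e (nat_lit 73776) (nat_lit 26) .nil))))) .nil)) 
(.lf (nat_lit 5944) (.g (nat_lit 2435) (.e (nat_lit 290) (nat_lit 21) (.e (nat_lit 336230) (nat_lit 14) (.e (nat_lit 401428) (nat_lit 3) (.e (nat_lit 204868) (nat_lit 29) (.e (nat_lit 360473) (nat_lit 8) (.e (nat_lit 557068) (nat_lit 9) .nil)))))) (.g (nat_lit 6) .nil .nil)))))) (.nd (nat_lit 3) (.nd (nat_lit 4) (.nd (nat_lit 5) 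
(.lf (nat_lit 5892) (.g (nat_lit 2398) (.e (nat_lit 290) (nat_lit 21) (.e (nat_lit 336221) (nat_lit 13) (.e (nat_lit 393301) (nat_lit 27) (.e (nat_lit 491546) (nat_lit 9) (.e (nat_lit 336048) (nat_lit 6) (.e (nat_lit 147476) (nat_lit 9) .nil)))))) (.g (nat_lit 5) .nil .nil))) 
(.lf (nat_lit 5924) (.g (nat_lit 3582) (.e (nat_lit 290) (nat_lit 21) (.e (nat_lit 336226) (nat_lit 14) (.e (nat_lit 401428) (nat_lit 3) (.e (nat_lit 204869) (nat_lit 29) (.e (nat_lit 360474) (nat_lit 8) (.e (nat_lit 557068) (nat_lit 9) .nil)))))) (.g (nat_lit 6) .nil .nil)))) (.nd (nat_lit 5) 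
(.lf (nat_lit 5908) (.g (nat_lit 2943) (.e (nat_lit 290) (nat_lit 21) (.e (nat_lit 336222) (nat_lit 13) (.e (nat_lit 393260) (nat_lit 21) (.e (nat_lit 409649) (nat_lit 18) (.e (nat_lit 303111) (nat_lit 0) (.e (nat_lit 3578) (nat_lit 223) (.e (nat_lit 745498) (nat_lit 9) .nil))))))) (.g (nat_lit 5) .nil .nil))) 
(.lf (nat_lit 5940) (.g (nat_lit 2046) (.e (nat_lit 290) (nat_lit 21) (.e (nat_lit 336230) (nat_lit 14) (.e (nat_lit 401427) (nat_lit 3) (.e (nat_lit 204868) (nat_lit 29) (.e (nat_lit 360473) (nat_lit 8) (.e (nat_lit 557068) (nat_lit 9) .nil)))))) (.g (nat_lit 5) .nil .nil))))) (.nd (nat_lit 4) (.nd (nat_lit 5) 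
(.lf (nat_lit 5900) (.g (nat_lit 865) (.e (nat_lit 290) (nat_lit 21) (.e (nat_lit 336222) (nat_lit 13) (.e (nat_lit 393232) (nat_lit 17) (.e (nat_lit 7593) (nat_lit 407) .nil)))) .nil)) 
(.lf (nat_lit 5932) (.g (nat_lit 965) (.e (nat_lit 290) (nat_lit 21) (.e (nat_lit 336230) (nat_lit 14) (.e (nat_lit 401414) (nat_lit 0) (.e (nat_lit 7936) (nat_lit 197) (.e (nat_lit 532550) (nat_lit 12) (.e (nat_lit 360475) (nat_lit 8) (.e (nat_lit 557068) (nat_lit 9) .nil))))))) (.g (nat_lit 5) .nil .nil)))) (.nd (nat_lit 5) 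
(.lf (nat_lit 5916) (.g (nat_lit 2617) (.e (nat_lit 290) (nat_lit 21) (.e (nat_lit 336223) (nat_lit 13) (.e (nat_lit 393301) (nat_lit 27) (.e (nat_lit 491552) (nat_lit 9) (.e (nat_lit 336050) (nat_lit 6) (.e (nat_lit 147476) (nat_lit 9) .nil)))))) (.g (nat_lit 4) .nil .nil))) 
(.lf (nat_lit 5948) (.g (nat_lit 3877) (.e (nat_lit 290) (nat_lit 21) (.e (nat_lit 336230) (nat_lit 14) (.e (nat_lit 401428) (nat_lit 3) (.e (nat_lit 204869) (nat_lit 29) (.e (nat_lit 360474) (nat_lit 8) (.e (nat_lit 557072) (nat_lit 9) .nil)))))) (.g (nat_lit 6) .nil .nil))))))) (.nd (nat_lit 2) (.nd (nat_lit 3) (.nd (nat_lit 4) (.nd (nat_lit 5) 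
(.lf (nat_lit 5890) (.g (nat_lit 3952) (.e (nat_lit 290) (nat_lit 21) (.e (nat_lit 336220) (nat_lit 13) (.e (nat_lit 393225) (nat_lit 9) (.e (nat_lit 335995) (nat_lit 1) (.e (nat_lit 57848) (nat_lit 252) (.e (nat_lit 57374) (nat_lit 2) (.e (nat_lit 90134) (nat_lit 9) .nil))))))) (.g (nat_lit 0) .nil .nil))) 
(.lf (nat_lit 5922) (.g (nat_lit 2597) (.e (nat_lit 290) (nat_lit 21) (.e (nat_lit 336226) (nat_lit 14) (.e (nat_lit 401428) (nat_lit 3) (.e (nat_lit 204868) (nat_lit 29) (.e (nat_lit 360473) (nat_lit 8) (.e (nat_lit 557072) (nat_lit 9) .nil)))))) (.g (nat_lit 6) .nil .nil)))) (.nd (nat_lit 5) 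
(.lf (nat_lit 5906) (.g (nat_lit 1203) (.e (nat_lit 290) (nat_lit 21) (.e (nat_lit 336222) (nat_lit 13) (.e (nat_lit 393260) (nat_lit 21) (.e (nat_lit 409646) (nat_lit 18) .nil)))) .nil)) 
(.lf (nat_lit 5938) (.g (nat_lit 4083) (.e (nat_lit 290) (nat_lit 21) (.e (nat_lit 336230) (nat_lit 14) (.e (nat_lit 401425) (nat_lit 2) (.e (nat_lit 196666) (nat_lit 13) (.e (nat_lit 65617) (nat_lit 10) (.e (nat_lit 344133) (nat_lit 26) (.e (nat_lit 557068) (nat_lit 9) .nil))))))) (.g (nat_lit 7) .nil .nil))))) (.nd (nat_lit 4) (.nd (nat_lit 5) 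
(.lf (nat_lit 5898) (.g (nat_lit 848) (.e (nat_lit 290) (nat_lit 21) (.e (nat_lit 336222) (nat_lit 13) (.e (nat_lit 393232) (nat_lit 17) (.e (nat_lit 7591) (nat_lit 407) .nil)))) .nil)) 
(.lf (nat_lit 5930) (.g (nat_lit 3509) (.e (nat_lit 290) (nat_lit 21) (.e (nat_lit 336229) (nat_lit 14) (.e (nat_lit 401428) (nat_lit 3) (.e (nat_lit 204869) (nat_lit 29) (.e (nat_lit 360474) (nat_lit 8) (.e (nat_lit 557068) (nat_lit 9) .nil)))))) (.g (nat_lit 0) .nil .nil)))) (.nd (nat_lit 5) 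
(.lf (nat_lit 5914) (.g (nat_lit 2013) (.e (nat_lit 290) (nat_lit 21) (.e (nat_lit 336223) (nat_lit 13) (.e (nat_lit 393234) (nat_lit 17) (.e (nat_lit 7593) (nat_lit 407) (.e (nat_lit 73775) (nat_lit 26) .nil))))) .nil)) 
(.lf (nat_lit 5946) (.g (nat_lit 2364) (.e (nat_lit 290) (nat_lit 21) (.e (nat_lit 336230) (nat_lit 14) (.e (nat_lit 401428) (nat_lit 3) (.e (nat_lit 204868) (nat_lit 29) (.e (nat_lit 360473) (nat_lit 8) (.e (nat_lit 557073) (nat_lit 9) .nil)))))) (.g (nat_lit 6) .nil .nil)))))) (.nd (nat_lit 3) (.nd (nat_lit 4) (.nd (nat_lit 5) 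
(.lf (nat_lit 5894) (.g (nat_lit 2953) (.e (nat_lit 290) (nat_lit 21) (.e (nat_lit 336221) (nat_lit 13) (.e (nat_lit 393301) (nat_lit 27) (.e (nat_lit 491560) (nat_lit 10) (.e (nat_lit 344179) (nat_lit 44) (.e (nat_lit 778380) (nat_lit 9) .nil)))))) (.g (nat_lit 5) .nil .nil))) 
(.lf (nat_lit 5926) (.g (nat_lit 3624) (.e (nat_lit 290) (nat_lit 21) (.e (nat_lit 336226) (nat_lit 14) (.e (nat_lit 401428) (nat_lit 3) (.e (nat_lit 204869) (nat_lit 29) (.e (nat_lit 360474) (nat_lit 8) (.e (nat_lit 557073) (nat_lit 9) .nil)))))) (.g (nat_lit 6) .nil .nil)))) (.nd (nat_lit 5) 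
(.lf (nat_lit 5910) (.g (nat_lit 1396) (.e (nat_lit 290) (nat_lit 21) (.e (nat_lit 336223) (nat_lit 13) (.e (nat_lit 393234) (nat_lit 17) (.e (nat_lit 7591) (nat_lit 407) .nil)))) .nil)) 
(.lf (nat_lit 5942) (.g (nat_lit 1982) (.e (nat_lit 290) (nat_lit 21) (.e (nat_lit 336230) (nat_lit 14) (.e (nat_lit 401427) (nat_lit 3) (.e (nat_lit 204868) (nat_lit 29) (.e (nat_lit 360473) (nat_lit 8) (.e (nat_lit 557073) (nat_lit 9) .nil)))))) (.g (nat_lit 5) .nil .nil))))) (.nd (nat_lit 4) (.nd (nat_lit 5) 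
(.lf (nat_lit 5902) (.g (nat_lit 2724) (.e (nat_lit 290) (nat_lit 21) (.e (nat_lit 336222) (nat_lit 13) (.e (nat_lit 393260) (nat_lit 21) (.e (nat_lit 409616) (nat_lit 10) (.e (nat_lit 4931) (nat_lit 287) .nil))))) .nil)) 
(.lf (nat_lit 5934) (.g (nat_lit 1912) (.e (nat_lit 290) (nat_lit 21) (.e (nat_lit 336230) (nat_lit 14) (.e (nat_lit 401425) (nat_lit 2) (.e (nat_lit 196666) (nat_lit 13) (.e (nat_lit 65617) (nat_lit 10) (.e (nat_lit 344127) (nat_lit 26) (.e (nat_lit 557072) (nat_lit 9) .nil))))))) (.g (nat_lit 4) .nil .nil)))) (.nd (nat_lit 5) 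
(.lf (nat_lit 5918) (.g (nat_lit 3234) (.e (nat_lit 290) (nat_lit 21) (.e (nat_lit 336223) (nat_lit 13) (.e (nat_lit 393301) (nat_lit 27) (.e (nat_lit 491558) (nat_lit 10) (.e (nat_lit 344180) (nat_lit 44) .nil))))) .nil)) 
(.lf (nat_lit 5950) (.g (nat_lit 3808) (.e (nat_lit 290) (nat_lit 21) (.e (nat_lit 336230) (nat_lit 14) (.e (nat_lit 401428) (nat_lit 3) (.e (nat_lit 204869) (nat_lit 29) (.e (nat_lit 360475) (nat_lit 8) (.e (nat_lit 557068) (nat_lit 9) .nil)))))) (.g (nat_lit 6) .nil .nil)))))))) (.nd (nat_lit 1) (.nd (nat_lit 2) (.nd (nat_lit 3) (.nd (nat_lit 4) (.nd (nat_lit 5) 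
(.lf (nat_lit 5889) (.g (nat_lit 1703) (.e (nat_lit 290) (nat_lit 21) (.e (nat_lit 336215) (nat_lit 13) (.e (nat_lit 393281) (nat_lit 23) (.e (nat_lit 426100) (nat_lit 1) (.e (nat_lit 164332) (nat_lit 230) .nil))))) .nil)) 
(.lf (nat_lit 5921) (.g (nat_lit 2524) (.e (nat_lit 290) (nat_lit 21) (.e (nat_lit 336226) (nat_lit 14) (.e (nat_lit 401428) (nat_lit 3) (.e (nat_lit 204868) (nat_lit 29) (.e (nat_lit 360473) (nat_lit 8) (.e (nat_lit 557068) (nat_lit 9) .nil)))))) (.g (nat_lit 6) .nil .nil)))) (.nd (nat_lit 5) 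
(.lf (nat_lit 5905) (.g (nat_lit 2198) (.e (nat_lit 290) (nat_lit 21) (.e (nat_lit 336222) (nat_lit 13) (.e (nat_lit 393260) (nat_lit 21) (.e (nat_lit 409640) (nat_lit 17) (.e (nat_lit 294934) (nat_lit 6) (.e (nat_lit 147476) (nat_lit 9) .nil)))))) (.g (nat_lit 4) .nil .nil))) 
(.lf (nat_lit 5937) (.g (nat_lit 3730) (.e (nat_lit 290) (nat_lit 21) (.e (nat_lit 336230) (nat_lit 14) (.e (nat_lit 401425) (nat_lit 2) (.e (nat_lit 196666) (nat_lit 13) (.e (nat_lit 65617) (nat_lit 10) (.e (nat_lit 344132) (nat_lit 26) (.e (nat_lit 557073) (nat_lit 9) .nil))))))) (.g (nat_lit 7) .nil .nil))))) (.nd (nat_lit 4) (.nd (nat_lit 5) 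
(.lf (nat_lit 5897) (.g (nat_lit 1631) (.e (nat_lit 290) (nat_lit 21) (.e (nat_lit 336222) (nat_lit 13) (.e (nat_lit 393232) (nat_lit 17) (.e (nat_lit 7587) (nat_lit 406) (.e (nat_lit 65580) (nat_lit 6) (.e (nat_lit 147476) (nat_lit 9) .nil)))))) (.g (nat_lit 4) .nil .nil))) 
(.lf (nat_lit 5929) (.g (nat_lit 539) (.e (nat_lit 290) (nat_lit 21) (.e (nat_lit 336229) (nat_lit 14) (.e (nat_lit 401426) (nat_lit 3) .nil))) .nil))) (.nd (nat_lit 5) 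
(.lf (nat_lit 5913) (.g (nat_lit 2916) (.e (nat_lit 290) (nat_lit 21) (.e (nat_lit 336223) (nat_lit 13) (.e (nat_lit 393234) (nat_lit 17) (.e (nat_lit 7591) (nat_lit 407) (.e (nat_lit 73776) (nat_lit 26) (.e (nat_lit 778380) (nat_lit 9) .nil)))))) (.g (nat_lit 5) .nil .nil))) 
(.lf (nat_lit 5945) (.g (nat_lit 2544) (.e (nat_lit 290) (nat_lit 21) (.e (nat_lit 336230) (nat_lit 14) (.e (nat_lit 401428) (nat_lit 3) (.e (nat_lit 204868) (nat_lit 29) (.e (nat_lit 360473) (nat_lit 8) (.e (nat_lit 557072) (nat_lit 9) .nil)))))) (.g (nat_lit 6) .nil .nil)))))) (.nd (nat_lit 3) (.nd (nat_lit 4) (.nd (nat_lit 5) 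
(.lf (nat_lit 5893) (.g (nat_lit 2350) (.e (nat_lit 290) (nat_lit 21) (.e (nat_lit 336221) (nat_lit 13) (.e (nat_lit 393301) (nat_lit 27) (.e (nat_lit 491552) (nat_lit 9) (.e (nat_lit 336050) (nat_lit 6) .nil))))) .nil)) 
(.lf (nat_lit 5925) (.g (nat_lit 3773) (.e (nat_lit 290) (nat_lit 21) (.e (nat_lit 336226) (nat_lit 14) (.e (nat_lit 401428) (nat_lit 3) (.e (nat_lit 204869) (nat_lit 29) (.e (nat_lit 360474) (nat_lit 8) (.e (nat_lit 557072) (nat_lit 9) .nil)))))) (.g (nat_lit 6) .nil .nil)))) (.nd (nat_lit 5) 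
(.lf (nat_lit 5909) (.g (nat_lit 1692) (.e (nat_lit 290) (nat_lit 21) (.e (nat_lit 336223) (nat_lit 13) (.e (nat_lit 393234) (nat_lit 17) (.e (nat_lit 7587) (nat_lit 406) .nil)))) .nil)) 
(.lf (nat_lit 5941) (.g (nat_lit 2125) (.e (nat_lit 290) (nat_lit 21) (.e (nat_lit 336230) (nat_lit 14) (.e (nat_lit 401427) (nat_lit 3) (.e (nat_lit 204868) (nat_lit 29) (.e (nat_lit 360473) (nat_lit 8) (.e (nat_lit 557072) (nat_lit 9) .nil)))))) (.g (nat_lit 5) .nil .nil))))) (.nd (nat_lit 4) (.nd (nat_lit 5) 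
(.lf (nat_lit 5901) (.g (nat_lit 2742) (.e (nat_lit 290) (nat_lit 21) (.e (nat_lit 336222) (nat_lit 13) (.e (nat_lit 393260) (nat_lit 21) (.e (nat_lit 409616) (nat_lit 10) (.e (nat_lit 4926) (nat_lit 287) .nil))))) .nil)) 
(.lf (nat_lit 5933) (.g (nat_lit 3581) (.e (nat_lit 290) (nat_lit 21) (.e (nat_lit 336230) (nat_lit 14) (.e (nat_lit 401424) (nat_lit 2) (.e (nat_lit 196666) (nat_lit 13) (.e (nat_lit 65617) (nat_lit 10) (.e (nat_lit 344132) (nat_lit 26) (.e (nat_lit 557072) (nat_lit 9) .nil))))))) (.g (nat_lit 6) .nil .nil)))) (.nd (nat_lit 5) 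
(.lf (nat_lit 5917) (.g (nat_lit 2437) (.e (nat_lit 290) (nat_lit 21) (.e (nat_lit 336223) (nat_lit 13) (.e (nat_lit 393301) (nat_lit 27) (.e (nat_lit 491556) (nat_lit 9) .nil)))) .nil)) 
(.lf (nat_lit 5949) (.g (nat_lit 3723) (.e (nat_lit 290) (nat_lit 21) (.e (nat_lit 336230) (nat_lit 14) (.e (nat_lit 401428) (nat_lit 3) (.e (nat_lit 204869) (nat_lit 29) (.e (nat_lit 360474) (nat_lit 8) (.e (nat_lit 557073) (nat_lit 9) .nil)))))) (.g (nat_lit 6) .nil .nil))))))) (.nd (nat_lit 2) (.nd (nat_lit 3) (.nd (nat_lit 4) (.nd (nat_lit 5) 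
(.lf (nat_lit 5891) (.g (nat_lit 1923) (.e (nat_lit 290) (nat_lit 21) (.e (nat_lit 336221) (nat_lit 13) (.e (nat_lit 393234) (nat_lit 17) (.e (nat_lit 7587) (nat_lit 406) (.e (nat_lit 65580) (nat_lit 6) (.e (nat_lit 147476) (nat_lit 9) .nil)))))) (.g (nat_lit 4) .nil .nil))) 
(.lf (nat_lit 5923) (.g (nat_lit 2398) (.e (nat_lit 290) (nat_lit 21) (.e (nat_lit 336226) (nat_lit 14) (.e (nat_lit 401428) (nat_lit 3) (.e (nat_lit 204868) (nat_lit 29) (.e (nat_lit 360473) (nat_lit 8) (.e (nat_lit 557073) (nat_lit 9) .nil)))))) (.g (nat_lit 6) .nil .nil)))) (.nd (nat_lit 5) 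
(.lf (nat_lit 5907) (.g (nat_lit 2925) (.e (nat_lit 290) (nat_lit 21) (.e (nat_lit 336222) (nat_lit 13) (.e (nat_lit 393260) (nat_lit 21) (.e (nat_lit 409649) (nat_lit 18) (.e (nat_lit 303111) (nat_lit 0) (.e (nat_lit 3578) (nat_lit 223) (.e (nat_lit 745497) (nat_lit 9) .nil))))))) (.g (nat_lit 5) .nil .nil))) 
(.lf (nat_lit 5939) (.g (nat_lit 3498) (.e (nat_lit 290) (nat_lit 21) (.e (nat_lit 336230) (nat_lit 14) (.e (nat_lit 401426) (nat_lit 3) (.e (nat_lit 204869) (nat_lit 29) (.e (nat_lit 360475) (nat_lit 8) (.e (nat_lit 557073) (nat_lit 9) .nil)))))) (.g (nat_lit 6) .nil .nil))))) (.nd (nat_lit 4) (.nd (nat_lit 5) 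
(.lf (nat_lit 5899) (.g (nat_lit 1451) (.e (nat_lit 290) (nat_lit 21) (.e (nat_lit 336222) (nat_lit 13) (.e (nat_lit 393232) (nat_lit 17) (.e (nat_lit 7591) (nat_lit 407) (.e (nat_lit 73776) (nat_lit 26) (.e (nat_lit 778380) (nat_lit 9) .nil)))))) (.g (nat_lit 4) .nil .nil))) 
(.lf (nat_lit 5931) (.g (nat_lit 3652) (.e (nat_lit 290) (nat_lit 21) (.e (nat_lit 336229) (nat_lit 14) (.e (nat_lit 401428) (nat_lit 3) (.e (nat_lit 204869) (nat_lit 29) (.e (nat_lit 360475) (nat_lit 8) (.e (nat_lit 557067) (nat_lit 9) .nil)))))) (.g (nat_lit 0) .nil .nil)))) (.nd (nat_lit 5) 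
(.lf (nat_lit 5915) (.g (nat_lit 2662) (.e (nat_lit 290) (nat_lit 21) (.e (nat_lit 336223) (nat_lit 13) (.e (nat_lit 393301) (nat_lit 27) (.e (nat_lit 491546) (nat_lit 9) (.e (nat_lit 336048) (nat_lit 6) .nil))))) .nil)) 
(.lf (nat_lit 5947) (.g (nat_lit 3627) (.e (nat_lit 290) (nat_lit 21) (.e (nat_lit 336230) (nat_lit 14) (.e (nat_lit 401428) (nat_lit 3) (.e (nat_lit 204869) (nat_lit 29) (.e (nat_lit 360474) (nat_lit 8) (.e (nat_lit 557068) (nat_lit 9) .nil)))))) (.g (nat_lit 6) .nil .nil)))))) (.nd (nat_lit 3) (.nd (nat_lit 4) (.nd (nat_lit 5) 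
(.lf (nat_lit 5895) (.g (nat_lit 2423) (.e (nat_lit 290) (nat_lit 21) (.e (nat_lit 336222) (nat_lit 13) (.e (nat_lit 393229) (nat_lit 9) (.e (nat_lit 335994) (nat_lit 1) (.e (nat_lit 57848) (nat_lit 252) (.e (nat_lit 57374) (nat_lit 2) (.e (nat_lit 90134) (nat_lit 9) .nil))))))) (.g (nat_lit 5) .nil .nil))) 
(.lf (nat_lit 5927) (.g (nat_lit 3774) (.e (nat_lit 290) (nat_lit 21) (.e (nat_lit 336226) (nat_lit 14) (.e (nat_lit 401428) (nat_lit 3) (.e (nat_lit 204869) (nat_lit 29) (.e (nat_lit 360475) (nat_lit 8) (.e (nat_lit 557068) (nat_lit 9) .nil)))))) (.g (nat_lit 6) .nil .nil)))) (.nd (nat_lit 5) 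
(.lf (nat_lit 5911) (.g (nat_lit 2144) (.e (nat_lit 290) (nat_lit 21) (.e (nat_lit 336223) (nat_lit 13) (.e (nat_lit 393234) (nat_lit 17) (.e (nat_lit 7591) (nat_lit 407) (.e (nat_lit 73775) (nat_lit 26) (.e (nat_lit 778380) (nat_lit 9) .nil)))))) (.g (nat_lit 4) .nil .nil))) 
(.lf (nat_lit 5943) (.g (nat_lit 2936) (.e (nat_lit 290) (nat_lit 21) (.e (nat_lit 336230) (nat_lit 14) (.e (nat_lit 401427) (nat_lit 3) (.e (nat_lit 204869) (nat_lit 29) (.e (nat_lit 360474) (nat_lit 8) (.e (nat_lit 557073) (nat_lit 9) .nil)))))) (.g (nat_lit 5) .nil .nil))))) (.nd (nat_lit 4) (.nd (nat_lit 5) 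
(.lf (nat_lit 5903) (.g (nat_lit 2297) (.e (nat_lit 290) (nat_lit 21) (.e (nat_lit 336222) (nat_lit 13) (.e (nat_lit 393260) (nat_lit 21) (.e (nat_lit 409617) (nat_lit 10) (.e (nat_lit 4926) (nat_lit 287) .nil))))) .nil)) 
(.lf (nat_lit 5935) (.g (nat_lit 4074) (.e (nat_lit 290) (nat_lit 21) (.e (nat_lit 336230) (nat_lit 14) (.e (nat_lit 401425) (nat_lit 2) (.e (nat_lit 196666) (nat_lit 13) (.e (nat_lit 65617) (nat_lit 10) (.e (nat_lit 344130) (nat_lit 26) (.e (nat_lit 557067) (nat_lit 9) .nil))))))) (.g (nat_lit 7) .nil .nil)))) (.nd (nat_lit 5) 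
(.lf (nat_lit 5919) (.g (nat_lit 3392) (.e (nat_lit 290) (nat_lit 21) (.e (nat_lit 336223) (nat_lit 13) (.e (nat_lit 393301) (nat_lit 27) (.e (nat_lit 491558) (nat_lit 10) (.e (nat_lit 344180) (nat_lit 44) (.e (nat_lit 778380) (nat_lit 9) .nil)))))) (.g (nat_lit 4) .nil .nil))) 
(.lf (nat_lit 5951) (.g (nat_lit 4008) (.e (nat_lit 290) (nat_lit 21) (.e (nat_lit 336230) (nat_lit 14) (.e (nat_lit 401432) (nat_lit 7) (.e (nat_lit 409648) (nat_lit 18) (.e (nat_lit 303137) (nat_lit 10) (.e (nat_lit 434275) (nat_lit 39) (.e (nat_lit 663574) (nat_lit 9) .nil))))))) (.g (nat_lit 7) .nil .nil)))))))))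


end

end Pool.Agent.Lib.MP_5854e1_co.Cz
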