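import Pool.Agent.Lib.MP_5854e1_co.DtD

/-!
# Windows and cells of the rings
-/

set_option autoImplicit false
set_option maxRecDepth 100000
set_option deprecated.oldSectionVars true

namespace Pool.Agent.Lib.MP_5854e1_co.Cz

open Pool.Agent.Lib.MP_5854e1_co

noncomputable section

noncomputable def tv740 : DT := (.nd (nat_lit 0) (.nd (nat_lit 1) (.nd (nat_lit 2) (.nd (nat_lit 3) (.nd (nat_lit 4) (.nd (nat_lit 5) 
(.lf (nat_lit 53568) (.g (nat_lit 771) (.e (nat_lit 1370) (nat_lit 103) (.e (nat_lit 294960) (nat_lit 13) (.e (nat_lit 393260) (nat_lit 21) (.e (nat_lit 417536) (nat_lit 10) .nil)))) .nil)) 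
(.lf (nat_lit 53600) (.g (nat_lit 969) (.e (nat_lit 1370) (nat_lit 103) (.e (nat_lit 294960) (nat_lit 13) (.e (nat_lit 393283) (nat_lit 24) (.e (nat_lit 434211) (nat_lit 18) .nil)))) .nil))) (.nd (nat_lit 5) 
(.lf (nat_lit 53584) (.g (nat_lit 975) (.e (nat_lit 1370) (nat_lit 103) (.e (nat_lit 294960) (nat_lit 13) (.e (nat_lit 393274) (nat_lit 23) (.e (nat_lit 426142) (nat_lit 4) .nil)))) .nil)) 
(.lf (nat_lit 53616) (.g (nat_lit 922) (.e (nat_lit 1371) (nat_lit 103) (.e (nat_lit 294938) (nat_lit 9) (.e (nat_lit 336395) (nat_lit 27) (.e (nat_lit 426340) (nat_lit 14) (.e (nat_lit 491566) (nat_lit 12) (.e (nat_lit 392960) (nat_lit 16) .nil)))))) (.g (nat_lit 4) .nil .nil))))) (.nd (nat_lit 4) (.nd (nat_lit 5) 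
(.lf (nat_lit 53576) (.g (nat_lit 1811) (.e (nat_lit 1370) (nat_lit 103) (.e (nat_lit 294960) (nat_lit 13) (.e (nat_lit 393260) (nat_lit 21) (.e (nat_lit 409648) (nat_lit 18) (.e (nat_lit 311040) (nat_lit 15) .nil))))) .nil)) 
(.lf (nat_lit 53608) (.g (nat_lit 1950) (.e (nat_lit 1370) (nat_lit 103) (.e (nat_lit 294960) (nat_lit 13) (.e (nat_lit 393284) (nat_lit 24) (.e (nat_lit 434276) (nat_lit 39) (.e (nat_lit 663565) (nat_lit 3) (.e (nat_lit 57711) (nat_lit 176) .nil)))))) (.g (nat_lit 5) .nil .nil)))) (.nd (nat_lit 5) 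
(.lf (nat_lit 53592) (.g (nat_lit 2455) (.e (nat_lit 1370) (nat_lit 103) (.e (nat_lit 294960) (nat_lit 13) (.e (nat_lit 393282) (nat_lit 24) (.e (nat_lit 434275) (nat_lit 39) (.e (nat_lit 663565) (nat_lit 3) (.e (nat_lit 57712) (nat_lit 176) .nil)))))) (.g (nat_lit 6) .nil .nil))) 
(.lf (nat_lit 53624) (.g (nat_lit 1223) (.e (nat_lit 1371) (nat_lit 103) (.e (nat_lit 294960) (nat_lit 13) (.e (nat_lit 393260) (nat_lit 21) (.e (nat_lit 409645) (nat_lit 18) .nil)))) .nil))))) (.nd (nat_lit 3) (.nd (nat_lit 4) (.nd (nat_lit 5) 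
(.lf (nat_lit 53572) (.g (nat_lit 2998) (.e (nat_lit 1370) (nat_lit 103) (.e (nat_lit 294960) (nat_lit 13) (.e (nat_lit 393260) (nat_lit 21) (.e (nat_lit 409645) (nat_lit 18) (.e (nat_lit 303147) (nat_lit 15) (.e (nat_lit 6092) (nat_lit 332) .nil)))))) (.g (nat_lit 6) .nil .nil))) 
(.lf (nat_lit 53604) (.g (nat_lit 2695) (.e (nat_lit 1370) (nat_lit 103) (.e (nat_lit 294960) (nat_lit 13) (.e (nat_lit 393283) (nat_lit 24) (.e (nat_lit 434275) (nat_lit 39) (.e (nat_lit 663565) (nat_lit 3) (.e (nat_lit 57711) (nat_lit 176) .nil)))))) (.g (nat_lit 5) .nil .nil)))) (.nd (nat_lit 5) 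
(.lf (nat_lit 53588) (.g (nat_lit 360) (.e (nat_lit 1370) (nat_lit 103) (.e (nat_lit 294960) (nat_lit 13) (.e (nat_lit 393282) (nat_lit 24) .nil))) .nil)) 
(.lf (nat_lit 53620) (.g (nat_lit 2598) (.e (nat_lit 1371) (nat_lit 103) (.e (nat_lit 294960) (nat_lit 13) (.e (nat_lit 393238) (nat_lit 17) (.e (nat_lit 6989) (nat_lit 377) (.e (nat_lit 2777) (nat_lit 178) (.e (nat_lit 286763) (nat_lit 15) (.e (nat_lit 6975) (nat_lit 377) .nil))))))) (.g (nat_lit 7) .nil .nil))))) (.nd (nat_lit 4) (.nd (nat_lit 5) 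
(.lf (nat_lit 53580) (.g (nat_lit 1726) (.e (nat_lit 1370) (nat_lit 103) (.e (nat_lit 294960) (nat_lit 13) (.e (nat_lit 393260) (nat_lit 21) (.e (nat_lit 409649) (nat_lit 18) (.e (nat_lit 311040) (nat_lit 15) .nil))))) .nil)) 
(.lf (nat_lit 53612) (.g (nat_lit 2290) (.e (nat_lit 1370) (nat_lit 103) (.e (nat_lit 294960) (nat_lit 13) (.e (nat_lit 393299) (nat_lit 27) (.e (nat_lit 491563) (nat_lit 12) (.e (nat_lit 392960) (nat_lit 16) .nil))))) (.g (nat_lit 4) .nil .nil)))) (.nd (nat_lit 5) 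
(.lf (nat_lit 53596) (.g (nat_lit 1290) (.e (nat_lit 1370) (nat_lit 103) (.e (nat_lit 294960) (nat_lit 13) (.e (nat_lit 393283) (nat_lit 24) (.e (nat_lit 434204) (nat_lit 18) (.e (nat_lit 5814) (nat_lit 320) .nil))))) .nil)) 
(.lf (nat_lit 53628) (.g (nat_lit 2323) (.e (nat_lit 7936) (nat_lit 103) (.e (nat_lit 294931) (nat_lit 3) (.e (nat_lit 98373) (nat_lit 29) (.e (nat_lit 450581) (nat_lit 5) (.e (nat_lit 532486) (nat_lit 0) .nil))))) .nil)))))) (.nd (nat_lit 2) (.nd (nat_lit 3) (.nd (nat_lit 4) (.nd (nat_lit 5) 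
(.lf (nat_lit 53570) (.g (nat_lit 1805) (.e (nat_lit 1370) (nat_lit 103) (.e (nat_lit 294960) (nat_lit 13) (.e (nat_lit 393260) (nat_lit 21) (.e (nat_lit 409644) (nat_lit 18) (.e (nat_lit 303148) (nat_lit 15) (.e (nat_lit 6092) (nat_lit 332) .nil)))))) (.g (nat_lit 4) .nil .nil))) 
(.lf (nat_lit 53602) (.g (nat_lit 1369) (.e (nat_lit 1370) (nat_lit 103) (.e (nat_lit 294960) (nat_lit 13) (.e (nat_lit 393283) (nat_lit 24) (.e (nat_lit 434274) (nat_lit 39) (.e (nat_lit 663565) (nat_lit 3) (.e (nat_lit 57712) (nat_lit 176) .nil)))))) (.g (nat_lit 4) .nil .nil)))) (.nd (nat_lit 5) 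
(.lf (nat_lit 53586) (.g (nat_lit 2089) (.e (nat_lit 1370) (nat_lit 103) (.e (nat_lit 294960) (nat_lit 13) (.e (nat_lit 393281) (nat_lit 23) (.e (nat_lit 426100) (nat_lit 1) (.e (nat_lit 164383) (nat_lit 254) (.e (nat_lit 1183) (nat_lit 87) (.e (nat_lit 57712) (nat_lit 176) .nil))))))) (.g (nat_lit 4) .nil .nil))) 
(.lf (nat_lit 53618) (.g (nat_lit 826) (.e (nat_lit 1371) (nat_lit 103) (.e (nat_lit 294941) (nat_lit 9) (.e (nat_lit 336421) (nat_lit 28) (.e (nat_lit 442112) (nat_lit 4) .nil)))) .nil)))) (.nd (nat_lit 4) (.nd (nat_lit 5) 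
(.lf (nat_lit 53578) (.g (nat_lit 2472) (.e (nat_lit 1370) (nat_lit 103) (.e (nat_lit 294960) (nat_lit 13) (.e (nat_lit 393260) (nat_lit 21) (.e (nat_lit 409649) (nat_lit 18) (.e (nat_lit 303148) (nat_lit 15) (.e (nat_lit 6092) (nat_lit 332) .nil)))))) (.g (nat_lit 4) .nil .nil))) 
(.lf (nat_lit 53610) (.g (nat_lit 1366) (.e (nat_lit 1370) (nat_lit 103) (.e (nat_lit 294960) (nat_lit 13) (.e (nat_lit 393297) (nat_lit 27) (.e (nat_lit 491566) (nat_lit 12) (.e (nat_lit 392960) (nat_lit 16) .nil))))) (.g (nat_lit 4) .nil .nil)))) (.nd (nat_lit 5) 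
(.lf (nat_lit 53594) (.g (nat_lit 1327) (.e (nat_lit 1370) (nat_lit 103) (.e (nat_lit 294960) (nat_lit 13) (.e (nat_lit 393283) (nat_lit 24) (.e (nat_lit 434200) (nat_lit 18) (.e (nat_lit 5814) (nat_lit 320) .nil))))) .nil)) 
(.lf (nat_lit 53626) (.g (nat_lit 2304) (.e (nat_lit 1371) (nat_lit 103) (.e (nat_lit 294960) (nat_lit 13) (.e (nat_lit 393297) (nat_lit 27) (.e (nat_lit 491566) (nat_lit 12) (.e (nat_lit 385032) (nat_lit 16) .nil))))) .nil))))) (.nd (nat_lit 3) (.nd (nat_lit 4) (.nd (nat_lit 5) 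
(.lf (nat_lit 53574) (.g (nat_lit 2532) (.e (nat_lit 1370) (nat_lit 103) (.e (nat_lit 294960) (nat_lit 13) (.e (nat_lit 393260) (nat_lit 21) (.e (nat_lit 409648) (nat_lit 18) (.e (nat_lit 303148) (nat_lit 15) (.e (nat_lit 6092) (nat_lit 332) .nil)))))) (.g (nat_lit 4) .nil .nil))) 
(.lf (nat_lit 53606) (.g (nat_lit 365) (.e (nat_lit 1370) (nat_lit 103) (.e (nat_lit 294960) (nat_lit 13) (.e (nat_lit 393284) (nat_lit 24) .nil))) .nil))) (.nd (nat_lit 5) 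
(.lf (nat_lit 53590) (.g (nat_lit 1606) (.e (nat_lit 1370) (nat_lit 103) (.e (nat_lit 294960) (nat_lit 13) (.e (nat_lit 393282) (nat_lit 24) (.e (nat_lit 434275) (nat_lit 39) (.e (nat_lit 663564) (nat_lit 3) .nil))))) .nil)) 
(.lf (nat_lit 53622) (.g (nat_lit 867) (.e (nat_lit 1371) (nat_lit 103) (.e (nat_lit 294960) (nat_lit 13) (.e (nat_lit 393260) (nat_lit 21) (.e (nat_lit 417536) (nat_lit 16) .nil)))) .nil)))) (.nd (nat_lit 4) (.nd (nat_lit 5) 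
(.lf (nat_lit 53582) (.g (nat_lit 2232) (.e (nat_lit 1370) (nat_lit 103) (.e (nat_lit 294960) (nat_lit 13) (.e (nat_lit 393260) (nat_lit 21) (.e (nat_lit 409650) (nat_lit 19) (.e (nat_lit 311348) (nat_lit 15) .nil))))) .nil)) 
(.lf (nat_lit 53614) (.g (nat_lit 2525) (.e (nat_lit 1371) (nat_lit 103) (.e (nat_lit 294928) (nat_lit 2) (.e (nat_lit 90170) (nat_lit 13) (.e (nat_lit 172113) (nat_lit 10) (.e (nat_lit 434245) (nat_lit 28) .nil))))) .nil))) (.nd (nat_lit 5) 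
(.lf (nat_lit 53598) (.g (nat_lit 2025) (.e (nat_lit 1370) (nat_lit 103) (.e (nat_lit 294960) (nat_lit 13) (.e (nat_lit 393283) (nat_lit 24) (.e (nat_lit 434209) (nat_lit 18) (.e (nat_lit 5815) (nat_lit 320) (.e (nat_lit 1183) (nat_lit 87) (.e (nat_lit 57712) (nat_lit 176) .nil))))))) (.g (nat_lit 4) .nil .nil))) 
(.lf (nat_lit 53630) (.g (nat_lit 604) (.e (nat_lit 7936) (nat_lit 103) (.e (nat_lit 294941) (nat_lit 9) (.e (nat_lit 336421) (nat_lit 28) (.e (nat_lit 434178) (nat_lit 0) .nil)))) .nil))))))) (.nd (nat_lit 1) (.nd (nat_lit 2) (.nd (nat_lit 3) (.nd (nat_lit 4) (.nd (nat_lit 5) 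
(.lf (nat_lit 53569) (.g (nat_lit 771) (.e (nat_lit 1370) (nat_lit 103) (.e (nat_lit 294960) (nat_lit 13) (.e (nat_lit 393260) (nat_lit 21) (.e (nat_lit 417536) (nat_lit 16) .nil)))) .nil)) 
(.lf (nat_lit 53601) (.g (nat_lit 1222) (.e (nat_lit 1370) (nat_lit 103) (.e (nat_lit 294960) (nat_lit 13) (.e (nat_lit 393283) (nat_lit 24) (.e (nat_lit 434274) (nat_lit 39) (.e (nat_lit 663564) (nat_lit 3) (.e (nat_lit 57712) (nat_lit 176) .nil)))))) (.g (nat_lit 4) .nil .nil)))) (.nd (nat_lit 5) 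
(.lf (nat_lit 53585) (.g (nat_lit 2216) (.e (nat_lit 1370) (nat_lit 103) (.e (nat_lit 294960) (nat_lit 13) (.e (nat_lit 393281) (nat_lit 23) (.e (nat_lit 426100) (nat_lit 1) (.e (nat_lit 164379) (nat_lit 254) (.e (nat_lit 1183) (nat_lit 87) (.e (nat_lit 57712) (nat_lit 176) .nil))))))) (.g (nat_lit 4) .nil .nil))) 
(.lf (nat_lit 53617) (.g (nat_lit 1320) (.e (nat_lit 1371) (nat_lit 103) (.e (nat_lit 294941) (nat_lit 9) (.e (nat_lit 336395) (nat_lit 27) (.e (nat_lit 426340) (nat_lit 14) (.e (nat_lit 491566) (nat_lit 12) (.e (nat_lit 392960) (nat_lit 16) .nil)))))) (.g (nat_lit 4) .nil .nil))))) (.nd (nat_lit 4) (.nd (nat_lit 5) 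
(.lf (nat_lit 53577) (.g (nat_lit 3078) (.e (nat_lit 1370) (nat_lit 103) (.e (nat_lit 294960) (nat_lit 13) (.e (nat_lit 393260) (nat_lit 21) (.e (nat_lit 409649) (nat_lit 18) (.e (nat_lit 303147) (nat_lit 15) (.e (nat_lit 6092) (nat_lit 332) .nil)))))) (.g (nat_lit 6) .nil .nil))) 
(.lf (nat_lit 53609) (.g (nat_lit 1977) (.e (nat_lit 1370) (nat_lit 103) (.e (nat_lit 294960) (nat_lit 13) (.e (nat_lit 393284) (nat_lit 24) (.e (nat_lit 434276) (nat_lit 39) (.e (nat_lit 663565) (nat_lit 3) (.e (nat_lit 57712) (nat_lit 176) .nil)))))) (.g (nat_lit 5) .nil .nil)))) (.nd (nat_lit 5) 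
(.lf (nat_lit 53593) (.g (nat_lit 357) (.e (nat_lit 1370) (nat_lit 103) (.e (nat_lit 294960) (nat_lit 13) (.e (nat_lit 393283) (nat_lit 24) .nil))) .nil)) 
(.lf (nat_lit 53625) (.g (nat_lit 612) (.e (nat_lit 1371) (nat_lit 103) (.e (nat_lit 294960) (nat_lit 13) (.e (nat_lit 393297) (nat_lit 27) (.e (nat_lit 491566) (nat_lit 12) .nil)))) .nil))))) (.nd (nat_lit 3) (.nd (nat_lit 4) (.nd (nat_lit 5) 
(.lf (nat_lit 53573) (.g (nat_lit 2099) (.e (nat_lit 1370) (nat_lit 103) (.e (nat_lit 294960) (nat_lit 13) (.e (nat_lit 393260) (nat_lit 21) (.e (nat_lit 409646) (nat_lit 18) (.e (nat_lit 303148) (nat_lit 15) .nil))))) .nil)) 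
(.lf (nat_lit 53605) (.g (nat_lit 1644) (.e (nat_lit 1370) (nat_lit 103) (.e (nat_lit 294960) (nat_lit 13) (.e (nat_lit 393283) (nat_lit 24) (.e (nat_lit 434276) (nat_lit 39) (.e (nat_lit 663564) (nat_lit 3) (.e (nat_lit 57712) (nat_lit 176) .nil)))))) (.g (nat_lit 4) .nil .nil)))) (.nd (nat_lit 5) 
(.lf (nat_lit 53589) (.g (nat_lit 1852) (.e (nat_lit 1370) (nat_lit 103) (.e (nat_lit 294960) (nat_lit 13) (.e (nat_lit 393282) (nat_lit 24) (.e (nat_lit 434209) (nat_lit 18) (.e (nat_lit 5946) (nat_lit 322) (.e (nat_lit 57354) (nat_lit 0) (.e (nat_lit 6114) (nat_lit 332) .nil))))))) (.g (nat_lit 4) .nil .nil))) 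
(.lf (nat_lit 53621) (.g (nat_lit 2748) (.e (nat_lit 1371) (nat_lit 103) (.e (nat_lit 294960) (nat_lit 13) (.e (nat_lit 393260) (nat_lit 21) (.e (nat_lit 409616) (nat_lit 10) (.e (nat_lit 7936) (nat_lit 313) .nil))))) .nil)))) (.nd (nat_lit 4) (.nd (nat_lit 5) 
(.lf (nat_lit 53581) (.g (nat_lit 1479) (.e (nat_lit 1370) (nat_lit 103) (.e (nat_lit 294960) (nat_lit 13) (.e (nat_lit 393260) (nat_lit 21) (.e (nat_lit 409650) (nat_lit 19) .nil)))) .nil)) 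
(.lf (nat_lit 53613) (.g (nat_lit 2583) (.e (nat_lit 1370) (nat_lit 103) (.e (nat_lit 294961) (nat_lit 14) (.e (nat_lit 401454) (nat_lit 12) (.e (nat_lit 475193) (nat_lit 38) (.e (nat_lit 688180) (nat_lit 17) (.e (nat_lit 73787) (nat_lit 45) .nil)))))) (.g (nat_lit 4) .nil .nil)))) (.nd (nat_lit 5) 
(.lf (nat_lit 53597) (.g (nat_lit 1352) (.e (nat_lit 1370) (nat_lit 103) (.e (nat_lit 294960) (nat_lit 13) (.e (nat_lit 393283) (nat_lit 24) (.e (nat_lit 434207) (nat_lit 18) (.e (nat_lit 5814) (nat_lit 320) .nil))))) .nil)) 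
(.lf (nat_lit 53629) (.g (nat_lit 209) (.e (nat_lit 7936) (nat_lit 103) (.e (nat_lit 294941) (nat_lit 9) (.e (nat_lit 336421) (nat_lit 28) .nil))) .nil)))))) (.nd (nat_lit 2) (.nd (nat_lit 3) (.nd (nat_lit 4) (.nd (nat_lit 5) 
(.lf (nat_lit 53571) (.g (nat_lit 1859) (.e (nat_lit 1370) (nat_lit 103) (.e (nat_lit 294960) (nat_lit 13) (.e (nat_lit 393260) (nat_lit 21) (.e (nat_lit 409644) (nat_lit 18) (.e (nat_lit 311040) (nat_lit 15) (.e (nat_lit 6113) (nat_lit 332) .nil)))))) (.g (nat_lit 4) .nil .nil))) 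
(.lf (nat_lit 53603) (.g (nat_lit 1645) (.e (nat_lit 1370) (nat_lit 103) (.e (nat_lit 294960) (nat_lit 13) (.e (nat_lit 393283) (nat_lit 24) (.e (nat_lit 434275) (nat_lit 39) (.e (nat_lit 663564) (nat_lit 3) (.e (nat_lit 57712) (nat_lit 176) .nil)))))) (.g (nat_lit 4) .nil .nil)))) (.nd (nat_lit 5) 
(.lf (nat_lit 53587) (.g (nat_lit 1437) (.e (nat_lit 1370) (nat_lit 103) (.e (nat_lit 294960) (nat_lit 13) (.e (nat_lit 393281) (nat_lit 23) (.e (nat_lit 426100) (nat_lit 1) (.e (nat_lit 164399) (nat_lit 256) .nil))))) .nil)) 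
(.lf (nat_lit 53619) (.g (nat_lit 2601) (.e (nat_lit 1371) (nat_lit 103) (.e (nat_lit 294960) (nat_lit 13) (.e (nat_lit 393238) (nat_lit 17) (.e (nat_lit 6989) (nat_lit 377) (.e (nat_lit 2777) (nat_lit 178) (.e (nat_lit 286763) (nat_lit 15) (.e (nat_lit 6973) (nat_lit 377) .nil))))))) (.g (nat_lit 7) .nil .nil))))) (.nd (nat_lit 4) (.nd (nat_lit 5) 
(.lf (nat_lit 53579) (.g (nat_lit 2398) (.e (nat_lit 1370) (nat_lit 103) (.e (nat_lit 294960) (nat_lit 13) (.e (nat_lit 393260) (nat_lit 21) (.e (nat_lit 409649) (nat_lit 18) (.e (nat_lit 303150) (nat_lit 15) (.e (nat_lit 6092) (nat_lit 332) .nil)))))) (.g (nat_lit 4) .nil .nil))) 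
(.lf (nat_lit 53611) (.g (nat_lit 1705) (.e (nat_lit 1370) (nat_lit 103) (.e (nat_lit 294960) (nat_lit 13) (.e (nat_lit 393299) (nat_lit 27) (.e (nat_lit 491552) (nat_lit 9) (.e (nat_lit 336248) (nat_lit 15) .nil))))) .nil))) (.nd (nat_lit 5) 
(.lf (nat_lit 53595) (.g (nat_lit 1689) (.e (nat_lit 1370) (nat_lit 103) (.e (nat_lit 294960) (nat_lit 13) (.e (nat_lit 393283) (nat_lit 24) (.e (nat_lit 434202) (nat_lit 18) (.e (nat_lit 5814) (nat_lit 320) .nil))))) .nil)) 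
(.lf (nat_lit 53627) (.g (nat_lit 1950) (.e (nat_lit 7936) (nat_lit 103) (.e (nat_lit 294928) (nat_lit 2) (.e (nat_lit 90176) (nat_lit 15) (.e (nat_lit 188447) (nat_lit 22) (.e (nat_lit 196661) (nat_lit 12) .nil))))) .nil))))) (.nd (nat_lit 3) (.nd (nat_lit 4) (.nd (nat_lit 5) 
(.lf (nat_lit 53575) (.g (nat_lit 2323) (.e (nat_lit 1370) (nat_lit 103) (.e (nat_lit 294960) (nat_lit 13) (.e (nat_lit 393260) (nat_lit 21) (.e (nat_lit 409648) (nat_lit 18) (.e (nat_lit 303150) (nat_lit 15) (.e (nat_lit 6092) (nat_lit 332) .nil)))))) (.g (nat_lit 5) .nil .nil))) 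
(.lf (nat_lit 53607) (.g (nat_lit 1549) (.e (nat_lit 1370) (nat_lit 103) (.e (nat_lit 294960) (nat_lit 13) (.e (nat_lit 393284) (nat_lit 24) (.e (nat_lit 434276) (nat_lit 39) (.e (nat_lit 663564) (nat_lit 3) (.e (nat_lit 57712) (nat_lit 176) .nil)))))) (.g (nat_lit 4) .nil .nil)))) (.nd (nat_lit 5) 
(.lf (nat_lit 53591) (.g (nat_lit 2437) (.e (nat_lit 1370) (nat_lit 103) (.e (nat_lit 294960) (nat_lit 13) (.e (nat_lit 393282) (nat_lit 24) (.e (nat_lit 434275) (nat_lit 39) (.e (nat_lit 663565) (nat_lit 3) (.e (nat_lit 57711) (nat_lit 176) .nil)))))) (.g (nat_lit 5) .nil .nil))) 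
(.lf (nat_lit 53623) (.g (nat_lit 1397) (.e (nat_lit 1371) (nat_lit 103) (.e (nat_lit 294960) (nat_lit 13) (.e (nat_lit 393260) (nat_lit 21) (.e (nat_lit 409643) (nat_lit 18) .nil)))) .nil)))) (.nd (nat_lit 4) (.nd (nat_lit 5) 
(.lf (nat_lit 53583) (.g (nat_lit 1989) (.e (nat_lit 1370) (nat_lit 103) (.e (nat_lit 294960) (nat_lit 13) (.e (nat_lit 393260) (nat_lit 21) (.e (nat_lit 409651) (nat_lit 19) (.e (nat_lit 311350) (nat_lit 15) .nil))))) .nil)) 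
(.lf (nat_lit 53615) (.g (nat_lit 2047) (.e (nat_lit 1371) (nat_lit 103) (.e (nat_lit 294928) (nat_lit 2) (.e (nat_lit 90176) (nat_lit 15) (.e (nat_lit 188447) (nat_lit 22) (.e (nat_lit 196661) (nat_lit 12) .nil))))) .nil))) (.nd (nat_lit 5) 
(.lf (nat_lit 53599) (.g (nat_lit 1911) (.e (nat_lit 1370) (nat_lit 103) (.e (nat_lit 294960) (nat_lit 13) (.e (nat_lit 393283) (nat_lit 24) (.e (nat_lit 434209) (nat_lit 18) (.e (nat_lit 5946) (nat_lit 322) .nil))))) .nil)) 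
(.lf (nat_lit 53631) (.g (nat_lit 1853) (.e (nat_lit 7936) (nat_lit 103) (.e (nat_lit 294958) (nat_lit 13) (.e (nat_lit 393260) (nat_lit 21) (.e (nat_lit 409643) (nat_lit 18) (.e (nat_lit 303149) (nat_lit 15) .nil))))) .nil))))))))

noncomputable def tv741 : DT := (.nd (nat_lit 0) (.nd (nat_lit 1) (.nd (nat_lit 2) (.nd (nat_lit 3) (.nd (nat_lit 4) (.nd (nat_lit 5) 
(.lf (nat_lit 53632) (.g (nat_lit 2055) (.e (nat_lit 7936) (nat_lit 103) (.e (nat_lit 294958) (nat_lit 13) (.e (nat_lit 393260) (nat_lit 21) (.e (nat_lit 409648) (nat_lit 18) (.e (nat_lit 303149) (nat_lit 15) .nil))))) .nil)) 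
(.lf (nat_lit 53664) (.g (nat_lit 1980) (.e (nat_lit 1374) (nat_lit 104) (.e (nat_lit 303119) (nat_lit 3) (.e (nat_lit 204846) (nat_lit 24) (.e (nat_lit 319533) (nat_lit 16) (.e (nat_lit 286724) (nat_lit 0) .nil))))) .nil))) (.nd (nat_lit 5) 
(.lf (nat_lit 53648) (.g (nat_lit 1286) (.e (nat_lit 7936) (nat_lit 103) (.e (nat_lit 294960) (nat_lit 13) (.e (nat_lit 393260) (nat_lit 21) (.e (nat_lit 409646) (nat_lit 18) (.e (nat_lit 311040) (nat_lit 15) .nil))))) .nil)) 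
(.lf (nat_lit 53680) (.g (nat_lit 3399) (.e (nat_lit 1374) (nat_lit 104) (.e (nat_lit 303143) (nat_lit 12) (.e (nat_lit 475185) (nat_lit 29) (.e (nat_lit 557100) (nat_lit 13) (.e (nat_lit 172082) (nat_lit 7) .nil))))) .nil)))) (.nd (nat_lit 4) (.nd (nat_lit 5) 
(.lf (nat_lit 53640) (.g (nat_lit 1582) (.e (nat_lit 7936) (nat_lit 103) (.e (nat_lit 294959) (nat_lit 13) (.e (nat_lit 393260) (nat_lit 21) (.e (nat_lit 409648) (nat_lit 18) (.e (nat_lit 311040) (nat_lit 15) .nil))))) .nil)) 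
(.lf (nat_lit 53672) (.g (nat_lit 2300) (.e (nat_lit 1374) (nat_lit 104) (.e (nat_lit 303119) (nat_lit 3) (.e (nat_lit 204884) (nat_lit 33) (.e (nat_lit 401434) (nat_lit 9) (.e (nat_lit 426140) (nat_lit 3) (.e (nat_lit 204821) (nat_lit 17) (.e (nat_lit 6114) (nat_lit 332) .nil))))))) (.g (nat_lit 4) .nil .nil)))) (.nd (nat_lit 5) 
(.lf (nat_lit 53656) (.g (nat_lit 2203) (.e (nat_lit 1374) (nat_lit 104) (.e (nat_lit 303115) (nat_lit 1) (.e (nat_lit 164327) (nat_lit 230) (.e (nat_lit 163886) (nat_lit 5) (.e (nat_lit 229120) (nat_lit 13) (.e (nat_lit 352263) (nat_lit 0) (.e (nat_lit 6988) (nat_lit 377) .nil))))))) (.g (nat_lit 4) .nil .nil))) 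
(.lf (nat_lit 53688) (.g (nat_lit 2306) (.e (nat_lit 1374) (nat_lit 104) (.e (nat_lit 303147) (nat_lit 15) (.e (nat_lit 1848) (nat_lit 124) (.e (nat_lit 557097) (nat_lit 13) (.e (nat_lit 172097) (nat_lit 9) .nil))))) .nil))))) (.nd (nat_lit 3) (.nd (nat_lit 4) (.nd (nat_lit 5) 
(.lf (nat_lit 53636) (.g (nat_lit 2910) (.e (nat_lit 7936) (nat_lit 103) (.e (nat_lit 294958) (nat_lit 13) (.e (nat_lit 393297) (nat_lit 27) (.e (nat_lit 491566) (nat_lit 12) (.e (nat_lit 385033) (nat_lit 16) .nil))))) .nil)) 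
(.lf (nat_lit 53668) (.g (nat_lit 3977) (.e (nat_lit 1374) (nat_lit 104) (.e (nat_lit 303119) (nat_lit 3) (.e (nat_lit 204846) (nat_lit 24) (.e (nat_lit 319534) (nat_lit 16) (.e (nat_lit 286733) (nat_lit 2) (.e (nat_lit 90165) (nat_lit 12) (.e (nat_lit 164208) (nat_lit 176) .nil))))))) (.g (nat_lit 6) .nil .nil)))) (.nd (nat_lit 5) 
(.lf (nat_lit 53652) (.g (nat_lit 2566) (.e (nat_lit 1372) (nat_lit 104) (.e (nat_lit 303147) (nat_lit 15) (.e (nat_lit 1859) (nat_lit 124) (.e (nat_lit 557098) (nat_lit 13) (.e (nat_lit 172097) (nat_lit 9) .nil))))) .nil)) 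
(.lf (nat_lit 53684) (.g (nat_lit 4333) (.e (nat_lit 1374) (nat_lit 104) (.e (nat_lit 303143) (nat_lit 12) (.e (nat_lit 475185) (nat_lit 29) (.e (nat_lit 557100) (nat_lit 13) (.e (nat_lit 172082) (nat_lit 7) (.e (nat_lit 409612) (nat_lit 10) (.e (nat_lit 542) (nat_lit 41) (.e (nat_lit 499718) (nat_lit 0) .nil)))))))) (.g (nat_lit 4) .nil .nil))))) (.nd (nat_lit 4) (.nd (nat_lit 5) 
(.lf (nat_lit 53644) (.g (nat_lit 2662) (.e (nat_lit 7936) (nat_lit 103) (.e (nat_lit 294960) (nat_lit 13) (.e (nat_lit 393260) (nat_lit 21) (.e (nat_lit 409616) (nat_lit 10) (.e (nat_lit 7936) (nat_lit 299) .nil))))) .nil)) 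
(.lf (nat_lit 53676) (.g (nat_lit 4344) (.e (nat_lit 1374) (nat_lit 104) (.e (nat_lit 303119) (nat_lit 3) (.e (nat_lit 204885) (nat_lit 33) (.e (nat_lit 401446) (nat_lit 10) (.e (nat_lit 434231) (nat_lit 23) (.e (nat_lit 532490) (nat_lit 0) (.e (nat_lit 6114) (nat_lit 332) .nil))))))) (.g (nat_lit 6) .nil .nil)))) (.nd (nat_lit 5) 
(.lf (nat_lit 53660) (.g (nat_lit 4129) (.e (nat_lit 1374) (nat_lit 104) (.e (nat_lit 303119) (nat_lit 3) (.e (nat_lit 204845) (nat_lit 24) (.e (nat_lit 319530) (nat_lit 16) (.e (nat_lit 286735) (nat_lit 3) (.e (nat_lit 98323) (nat_lit 17) (.e (nat_lit 6989) (nat_lit 377) .nil))))))) (.g (nat_lit 7) .nil .nil))) 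
(.lf (nat_lit 53692) (.g (nat_lit 2755) (.e (nat_lit 1374) (nat_lit 104) (.e (nat_lit 303147) (nat_lit 15) (.e (nat_lit 1849) (nat_lit 124) (.e (nat_lit 557097) (nat_lit 13) (.e (nat_lit 172097) (nat_lit 9) (.e (nat_lit 426140) (nat_lit 3) (.e (nat_lit 204821) (nat_lit 17) (.e (nat_lit 6092) (nat_lit 332) .nil)))))))) (.g (nat_lit 6) .nil .nil))))))) 
(.nd (nat_lit 2) (.nd (nat_lit 3) (.nd (nat_lit 4) (.nd (nat_lit 5) 
(.lf (nat_lit 53634) (.g (nat_lit 328) (.e (nat_lit 7936) (nat_lit 103) (.e (nat_lit 294958) (nat_lit 13) (.e (nat_lit 393282) (nat_lit 24) .nil))) .nil)) 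
(.lf (nat_lit 53666) (.g (nat_lit 2658) (.e (nat_lit 1374) (nat_lit 104) (.e (nat_lit 303119) (nat_lit 3) (.e (nat_lit 204846) (nat_lit 24) (.e (nat_lit 319534) (nat_lit 16) (.e (nat_lit 286732) (nat_lit 2) (.e (nat_lit 90165) (nat_lit 12) (.e (nat_lit 164208) (nat_lit 176) .nil))))))) (.g (nat_lit 5) .nil .nil)))) (.nd (nat_lit 5) 
(.lf (nat_lit 53650) (.g (nat_lit 1940) (.e (nat_lit 7936) (nat_lit 103) (.e (nat_lit 294960) (nat_lit 13) (.e (nat_lit 393260) (nat_lit 21) (.e (nat_lit 409648) (nat_lit 18) (.e (nat_lit 311040) (nat_lit 15) .nil))))) .nil)) 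
(.lf (nat_lit 53682) (.g (nat_lit 4744) (.e (nat_lit 1374) (nat_lit 104) (.e (nat_lit 303143) (nat_lit 12) (.e (nat_lit 475185) (nat_lit 29) (.e (nat_lit 557100) (nat_lit 13) (.e (nat_lit 172082) (nat_lit 7) (.e (nat_lit 409612) (nat_lit 10) (.e (nat_lit 539) (nat_lit 41) (.e (nat_lit 499718) (nat_lit 0) .nil)))))))) (.g (nat_lit 5) .nil .nil))))) (.nd (nat_lit 4) (.nd (nat_lit 5) 
(.lf (nat_lit 53642) (.g (nat_lit 2684) (.e (nat_lit 7936) (nat_lit 103) (.e (nat_lit 294959) (nat_lit 13) (.e (nat_lit 393297) (nat_lit 27) (.e (nat_lit 491566) (nat_lit 12) (.e (nat_lit 385033) (nat_lit 16) .nil))))) .nil)) 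
(.lf (nat_lit 53674) (.g (nat_lit 4228) (.e (nat_lit 1374) (nat_lit 104) (.e (nat_lit 303119) (nat_lit 3) (.e (nat_lit 204884) (nat_lit 33) (.e (nat_lit 401448) (nat_lit 10) (.e (nat_lit 434231) (nat_lit 23) (.e (nat_lit 532490) (nat_lit 0) (.e (nat_lit 6114) (nat_lit 332) .nil))))))) (.g (nat_lit 5) .nil .nil)))) (.nd (nat_lit 5) 
(.lf (nat_lit 53658) (.g (nat_lit 773) (.e (nat_lit 1374) (nat_lit 104) (.e (nat_lit 303117) (nat_lit 2) (.e (nat_lit 196677) (nat_lit 16) .nil))) .nil)) 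
(.lf (nat_lit 53690) (.g (nat_lit 2379) (.e (nat_lit 1374) (nat_lit 104) (.e (nat_lit 303147) (nat_lit 15) (.e (nat_lit 1848) (nat_lit 124) (.e (nat_lit 557108) (nat_lit 15) (.e (nat_lit 188452) (nat_lit 23) (.e (nat_lit 204821) (nat_lit 17) (.e (nat_lit 6114) (nat_lit 332) .nil))))))) (.g (nat_lit 4) .nil .nil)))))) (.nd (nat_lit 3) (.nd (nat_lit 4) (.nd (nat_lit 5) 
(.lf (nat_lit 53638) (.g (nat_lit 1605) (.e (nat_lit 7936) (nat_lit 103) (.e (nat_lit 294959) (nat_lit 13) (.e (nat_lit 393260) (nat_lit 21) (.e (nat_lit 409644) (nat_lit 18) (.e (nat_lit 303149) (nat_lit 15) .nil))))) .nil)) 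
(.lf (nat_lit 53670) (.g (nat_lit 2147) (.e (nat_lit 1374) (nat_lit 104) (.e (nat_lit 303119) (nat_lit 3) (.e (nat_lit 204863) (nat_lit 27) (.e (nat_lit 344160) (nat_lit 37) .nil)))) .nil))) (.nd (nat_lit 5) 
(.lf (nat_lit 53654) (.g (nat_lit 2590) (.e (nat_lit 1373) (nat_lit 104) (.e (nat_lit 303147) (nat_lit 15) (.e (nat_lit 1859) (nat_lit 124) (.e (nat_lit 557098) (nat_lit 13) (.e (nat_lit 172115) (nat_lit 10) .nil))))) .nil)) 
(.lf (nat_lit 53686) (.g (nat_lit 2546) (.e (nat_lit 1374) (nat_lit 104) (.e (nat_lit 303147) (nat_lit 15) (.e (nat_lit 1847) (nat_lit 124) (.e (nat_lit 557098) (nat_lit 13) (.e (nat_lit 172097) (nat_lit 9) (.e (nat_lit 426125) (nat_lit 2) (.e (nat_lit 196661) (nat_lit 12) (.e (nat_lit 57712) (nat_lit 176) .nil)))))))) (.g (nat_lit 5) .nil .nil))))) (.nd (nat_lit 4) (.nd (nat_lit 5) 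
(.lf (nat_lit 53646) (.g (nat_lit 1391) (.e (nat_lit 7936) (nat_lit 103) (.e (nat_lit 294960) (nat_lit 13) (.e (nat_lit 393260) (nat_lit 21) (.e (nat_lit 409623) (nat_lit 10) (.e (nat_lit 5664) (nat_lit 312) .nil))))) .nil)) 
(.lf (nat_lit 53678) (.g (nat_lit 1835) (.e (nat_lit 1374) (nat_lit 104) (.e (nat_lit 303143) (nat_lit 12) (.e (nat_lit 475185) (nat_lit 29) (.e (nat_lit 557100) (nat_lit 13) .nil)))) .nil))) (.nd (nat_lit 5) 
(.lf (nat_lit 53662) (.g (nat_lit 1882) (.e (nat_lit 1374) (nat_lit 104) (.e (nat_lit 303119) (nat_lit 3) (.e (nat_lit 204846) (nat_lit 24) (.e (nat_lit 319528) (nat_lit 16) (.e (nat_lit 286733) (nat_lit 2) (.e (nat_lit 90165) (nat_lit 12) (.e (nat_lit 164208) (nat_lit 176) .nil))))))) (.g (nat_lit 4) .nil .nil))) 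
(.lf (nat_lit 53694) (.g (nat_lit 4352) (.e (nat_lit 1374) (nat_lit 104) (.e (nat_lit 303147) (nat_lit 15) (.e (nat_lit 1849) (nat_lit 124) (.e (nat_lit 557108) (nat_lit 15) (.e (nat_lit 188452) (nat_lit 23) (.e (nat_lit 204819) (nat_lit 17) (.e (nat_lit 6113) (nat_lit 332) .nil))))))) (.g (nat_lit 0) .nil .nil)))))))) 
(.nd (nat_lit 1) (.nd (nat_lit 2) (.nd (nat_lit 3) (.nd (nat_lit 4) (.nd (nat_lit 5) 
(.lf (nat_lit 53633) (.g (nat_lit 1016) (.e (nat_lit 7936) (nat_lit 103) (.e (nat_lit 294958) (nat_lit 13) (.e (nat_lit 393260) (nat_lit 21) (.e (nat_lit 409649) (nat_lit 18) .nil)))) .nil)) 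
(.lf (nat_lit 53665) (.g (nat_lit 3999) (.e (nat_lit 1374) (nat_lit 104) (.e (nat_lit 303119) (nat_lit 3) (.e (nat_lit 204846) (nat_lit 24) (.e (nat_lit 319533) (nat_lit 16) (.e (nat_lit 286733) (nat_lit 2) (.e (nat_lit 90165) (nat_lit 12) (.e (nat_lit 164208) (nat_lit 176) .nil))))))) (.g (nat_lit 6) .nil .nil)))) (.nd (nat_lit 5) 
(.lf (nat_lit 53649) (.g (nat_lit 911) (.e (nat_lit 7936) (nat_lit 103) (.e (nat_lit 294960) (nat_lit 13) (.e (nat_lit 393260) (nat_lit 21) (.e (nat_lit 409647) (nat_lit 18) .nil)))) .nil)) 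
(.lf (nat_lit 53681) (.g (nat_lit 3409) (.e (nat_lit 1374) (nat_lit 104) (.e (nat_lit 303143) (nat_lit 12) (.e (nat_lit 475185) (nat_lit 29) (.e (nat_lit 557100) (nat_lit 13) (.e (nat_lit 172082) (nat_lit 7) (.e (nat_lit 409612) (nat_lit 10) (.e (nat_lit 509) (nat_lit 41) (.e (nat_lit 499718) (nat_lit 0) .nil)))))))) (.g (nat_lit 4) .nil .nil))))) (.nd (nat_lit 4) (.nd (nat_lit 5) 
(.lf (nat_lit 53641) (.g (nat_lit 1235) (.e (nat_lit 7936) (nat_lit 103) (.e (nat_lit 294959) (nat_lit 13) (.e (nat_lit 393260) (nat_lit 21) (.e (nat_lit 409649) (nat_lit 18) (.e (nat_lit 311040) (nat_lit 15) .nil))))) .nil)) 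
(.lf (nat_lit 53673) (.g (nat_lit 3979) (.e (nat_lit 1374) (nat_lit 104) (.e (nat_lit 303119) (nat_lit 3) (.e (nat_lit 204884) (nat_lit 33) (.e (nat_lit 401448) (nat_lit 10) (.e (nat_lit 434231) (nat_lit 23) (.e (nat_lit 532486) (nat_lit 0) (.e (nat_lit 6113) (nat_lit 332) .nil))))))) (.g (nat_lit 5) .nil .nil)))) (.nd (nat_lit 5) 
(.lf (nat_lit 53657) (.g (nat_lit 686) (.e (nat_lit 1374) (nat_lit 104) (.e (nat_lit 303117) (nat_lit 2) (.e (nat_lit 196628) (nat_lit 9) .nil))) .nil)) 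
(.lf (nat_lit 53689) (.g (nat_lit 3592) (.e (nat_lit 1374) (nat_lit 104) (.e (nat_lit 303147) (nat_lit 15) (.e (nat_lit 1848) (nat_lit 124) (.e (nat_lit 557097) (nat_lit 13) (.e (nat_lit 172115) (nat_lit 10) (.e (nat_lit 434231) (nat_lit 23) (.e (nat_lit 532490) (nat_lit 0) (.e (nat_lit 6114) (nat_lit 332) .nil)))))))) (.g (nat_lit 5) .nil .nil)))))) 
(.nd (nat_lit 3) (.nd (nat_lit 4) (.nd (nat_lit 5) 
(.lf (nat_lit 53637) (.g (nat_lit 3822) (.e (nat_lit 7936) (nat_lit 103) (.e (nat_lit 294958) (nat_lit 13) (.e (nat_lit 393301) (nat_lit 27) (.e (nat_lit 491563) (nat_lit 12) (.e (nat_lit 385033) (nat_lit 16) .nil))))) .nil)) 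
(.lf (nat_lit 53669) (.g (nat_lit 2118) (.e (nat_lit 1374) (nat_lit 104) (.e (nat_lit 303119) (nat_lit 3) (.e (nat_lit 204846) (nat_lit 24) (.e (nat_lit 319534) (nat_lit 16) (.e (nat_lit 286735) (nat_lit 3) (.e (nat_lit 98323) (nat_lit 17) (.e (nat_lit 6970) (nat_lit 377) .nil))))))) (.g (nat_lit 4) .nil .nil)))) (.nd (nat_lit 5) 
(.lf (nat_lit 53653) (.g (nat_lit 2566) (.e (nat_lit 1373) (nat_lit 104) (.e (nat_lit 303147) (nat_lit 15) (.e (nat_lit 1859) (nat_lit 124) (.e (nat_lit 557098) (nat_lit 13) (.e (nat_lit 172097) (nat_lit 9) .nil))))) .nil)) 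
(.lf (nat_lit 53685) (.g (nat_lit 4255) (.e (nat_lit 1374) (nat_lit 104) (.e (nat_lit 303143) (nat_lit 12) (.e (nat_lit 475185) (nat_lit 29) (.e (nat_lit 557103) (nat_lit 14) (.e (nat_lit 180291) (nat_lit 48) .nil))))) .nil)))) (.nd (nat_lit 4) (.nd (nat_lit 5) 
(.lf (nat_lit 53645) (.g (nat_lit 1374) (.e (nat_lit 7936) (nat_lit 103) (.e (nat_lit 294960) (nat_lit 13) (.e (nat_lit 393260) (nat_lit 21) (.e (nat_lit 409623) (nat_lit 10) (.e (nat_lit 5293) (nat_lit 298) .nil))))) .nil)) 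
(.lf (nat_lit 53677) (.g (nat_lit 4751) (.e (nat_lit 1374) (nat_lit 104) (.e (nat_lit 303119) (nat_lit 3) (.e (nat_lit 204885) (nat_lit 33) (.e (nat_lit 401448) (nat_lit 10) (.e (nat_lit 434231) (nat_lit 23) (.e (nat_lit 532490) (nat_lit 0) (.e (nat_lit 6114) (nat_lit 332) .nil))))))) (.g (nat_lit 7) .nil .nil)))) (.nd (nat_lit 5) 
(.lf (nat_lit 53661) (.g (nat_lit 3676) (.e (nat_lit 1374) (nat_lit 104) (.e (nat_lit 303119) (nat_lit 3) (.e (nat_lit 204845) (nat_lit 24) (.e (nat_lit 319530) (nat_lit 16) (.e (nat_lit 286735) (nat_lit 3) (.e (nat_lit 98325) (nat_lit 17) (.e (nat_lit 6986) (nat_lit 377) .nil))))))) (.g (nat_lit 5) .nil .nil))) 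
(.lf (nat_lit 53693) (.g (nat_lit 2272) (.e (nat_lit 1374) (nat_lit 104) (.e (nat_lit 303147) (nat_lit 15) (.e (nat_lit 1849) (nat_lit 124) (.e (nat_lit 557108) (nat_lit 15) (.e (nat_lit 188449) (nat_lit 22) (.e (nat_lit 196661) (nat_lit 12) (.e (nat_lit 57711) (nat_lit 176) .nil))))))) (.g (nat_lit 5) .nil .nil))))))) (.nd (nat_lit 2) (.nd (nat_lit 3) (.nd (nat_lit 4) (.nd (nat_lit 5) 
(.lf (nat_lit 53635) (.g (nat_lit 1556) (.e (nat_lit 7936) (nat_lit 103) (.e (nat_lit 294958) (nat_lit 13) (.e (nat_lit 393283) (nat_lit 24) (.e (nat_lit 434275) (nat_lit 39) (.e (nat_lit 671488) (nat_lit 17) .nil))))) .nil)) 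
(.lf (nat_lit 53667) (.g (nat_lit 3233) (.e (nat_lit 1374) (nat_lit 104) (.e (nat_lit 303119) (nat_lit 3) (.e (nat_lit 204846) (nat_lit 24) (.e (nat_lit 319534) (nat_lit 16) (.e (nat_lit 286733) (nat_lit 2) (.e (nat_lit 90165) (nat_lit 12) (.e (nat_lit 164207) (nat_lit 176) .nil))))))) (.g (nat_lit 5) .nil .nil)))) (.nd (nat_lit 5) 
(.lf (nat_lit 53651) (.g (nat_lit 1715) (.e (nat_lit 7936) (nat_lit 103) (.e (nat_lit 294960) (nat_lit 13) (.e (nat_lit 393260) (nat_lit 21) (.e (nat_lit 409649) (nat_lit 18) (.e (nat_lit 311040) (nat_lit 15) .nil))))) .nil)) 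
(.lf (nat_lit 53683) (.g (nat_lit 3922) (.e (nat_lit 1374) (nat_lit 104) (.e (nat_lit 303143) (nat_lit 12) (.e (nat_lit 475185) (nat_lit 29) (.e (nat_lit 557100) (nat_lit 13) (.e (nat_lit 172082) (nat_lit 7) (.e (nat_lit 409612) (nat_lit 10) (.e (nat_lit 540) (nat_lit 41) (.e (nat_lit 499718) (nat_lit 0) .nil)))))))) (.g (nat_lit 4) .nil .nil))))) (.nd (nat_lit 4) (.nd (nat_lit 5) 
(.lf (nat_lit 53643) (.g (nat_lit 828) (.e (nat_lit 7936) (nat_lit 103) (.e (nat_lit 294960) (nat_lit 13) (.e (nat_lit 393238) (nat_lit 17) (.e (nat_lit 7936) (nat_lit 406) .nil)))) .nil)) 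
(.lf (nat_lit 53675) (.g (nat_lit 2636) (.e (nat_lit 1374) (nat_lit 104) (.e (nat_lit 303119) (nat_lit 3) (.e (nat_lit 204884) (nat_lit 33) (.e (nat_lit 401448) (nat_lit 10) (.e (nat_lit 434232) (nat_lit 23) .nil))))) .nil))) (.nd (nat_lit 5) 
(.lf (nat_lit 53659) (.g (nat_lit 1431) (.e (nat_lit 1374) (nat_lit 104) (.e (nat_lit 303119) (nat_lit 3) (.e (nat_lit 204819) (nat_lit 17) (.e (nat_lit 6113) (nat_lit 332) (.e (nat_lit 1361) (nat_lit 102) .nil))))) .nil)) 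
(.lf (nat_lit 53691) (.g (nat_lit 2739) (.e (nat_lit 1374) (nat_lit 104) (.e (nat_lit 303147) (nat_lit 15) (.e (nat_lit 1849) (nat_lit 124) (.e (nat_lit 557097) (nat_lit 13) (.e (nat_lit 172097) (nat_lit 9) (.e (nat_lit 426125) (nat_lit 2) (.e (nat_lit 196661) (nat_lit 12) (.e (nat_lit 57711) (nat_lit 176) .nil)))))))) (.g (nat_lit 6) .nil .nil)))))) 
(.nd (nat_lit 3) (.nd (nat_lit 4) (.nd (nat_lit 5) 
(.lf (nat_lit 53639) (.g (nat_lit 742) (.e (nat_lit 7936) (nat_lit 103) (.e (nat_lit 294959) (nat_lit 13) (.e (nat_lit 393260) (nat_lit 21) (.e (nat_lit 409646) (nat_lit 18) .nil)))) .nil)) 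
(.lf (nat_lit 53671) (.g (nat_lit 871) (.e (nat_lit 1374) (nat_lit 104) (.e (nat_lit 303119) (nat_lit 3) (.e (nat_lit 204884) (nat_lit 33) .nil))) .nil))) (.nd (nat_lit 5) 
(.lf (nat_lit 53655) (.g (nat_lit 2219) (.e (nat_lit 1374) (nat_lit 104) (.e (nat_lit 303115) (nat_lit 1) (.e (nat_lit 164327) (nat_lit 230) (.e (nat_lit 163884) (nat_lit 5) (.e (nat_lit 229120) (nat_lit 13) (.e (nat_lit 352263) (nat_lit 0) (.e (nat_lit 6988) (nat_lit 377) .nil))))))) (.g (nat_lit 4) .nil .nil))) 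
(.lf (nat_lit 53687) (.g (nat_lit 2809) (.e (nat_lit 1374) (nat_lit 104) (.e (nat_lit 303147) (nat_lit 15) (.e (nat_lit 1847) (nat_lit 124) (.e (nat_lit 557098) (nat_lit 13) (.e (nat_lit 172097) (nat_lit 9) (.e (nat_lit 426140) (nat_lit 3) (.e (nat_lit 204821) (nat_lit 17) (.e (nat_lit 6114) (nat_lit 332) .nil)))))))) (.g (nat_lit 5) .nil .nil))))) (.nd (nat_lit 4) (.nd (nat_lit 5) 
(.lf (nat_lit 53647) (.g (nat_lit 872) (.e (nat_lit 7936) (nat_lit 103) (.e (nat_lit 294960) (nat_lit 13) (.e (nat_lit 393260) (nat_lit 21) (.e (nat_lit 409644) (nat_lit 18) .nil)))) .nil)) 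
(.lf (nat_lit 53679) (.g (nat_lit 3601) (.e (nat_lit 1374) (nat_lit 104) (.e (nat_lit 303143) (nat_lit 12) (.e (nat_lit 475185) (nat_lit 29) (.e (nat_lit 557100) (nat_lit 13) (.e (nat_lit 172079) (nat_lit 7) .nil))))) .nil))) (.nd (nat_lit 5) 
(.lf (nat_lit 53663) (.g (nat_lit 3563) (.e (nat_lit 1374) (nat_lit 104) (.e (nat_lit 303119) (nat_lit 3) (.e (nat_lit 204846) (nat_lit 24) (.e (nat_lit 319530) (nat_lit 16) (.e (nat_lit 286735) (nat_lit 3) (.e (nat_lit 98323) (nat_lit 17) (.e (nat_lit 6989) (nat_lit 377) .nil))))))) (.g (nat_lit 7) .nil .nil))) 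
(.lf (nat_lit 53695) (.g (nat_lit 2713) (.e (nat_lit 1374) (nat_lit 104) (.e (nat_lit 303147) (nat_lit 15) (.e (nat_lit 1849) (nat_lit 124) (.e (nat_lit 557108) (nat_lit 15) (.e (nat_lit 188452) (nat_lit 23) (.e (nat_lit 204821) (nat_lit 17) (.e (nat_lit 6092) (nat_lit 332) .nil))))))) (.g (nat_lit 6) .nil .nil)))))))))

noncomputable def tv742 : DT := (.nd (nat_lit 0) (.nd (nat_lit 1) (.nd (nat_lit 2) (.nd (nat_lit 3) (.nd (nat_lit 4) 
(.lf (nat_lit 53696) (.g (nat_lit 3662) (.e (nat_lit 1374) (nat_lit 104) (.e (nat_lit 303147) (nat_lit 15) (.e (nat_lit 1849) (nat_lit 124) (.e (nat_lit 557109) (nat_lit 15) (.e (nat_lit 188449) (nat_lit 22) (.e (nat_lit 196661) (nat_lit 12) (.e (nat_lit 57712) (nat_lit 176) .nil))))))) (.g (nat_lit 6) .nil .nil))) 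
(.lf (nat_lit 53712) (.g (nat_lit 4139) (.e (nat_lit 1374) (nat_lit 104) (.e (nat_lit 303147) (nat_lit 15) (.e (nat_lit 1858) (nat_lit 124) (.e (nat_lit 557107) (nat_lit 15) (.e (nat_lit 188450) (nat_lit 23) (.e (nat_lit 204821) (nat_lit 17) (.e (nat_lit 6114) (nat_lit 332) .nil))))))) (.g (nat_lit 5) .nil .nil)))) (.nd (nat_lit 4) 
(.lf (nat_lit 53704) (.g (nat_lit 3164) (.e (nat_lit 1374) (nat_lit 104) (.e (nat_lit 303147) (nat_lit 15) (.e (nat_lit 1855) (nat_lit 124) (.e (nat_lit 557101) (nat_lit 13) (.e (nat_lit 172097) (nat_lit 9) (.e (nat_lit 426140) (nat_lit 3) (.e (nat_lit 204821) (nat_lit 17) (.e (nat_lit 6114) (nat_lit 332) .nil)))))))) (.g (nat_lit 5) .nil .nil))) 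
(.lf (nat_lit 53720) (.g (nat_lit 3690) (.e (nat_lit 1374) (nat_lit 104) (.e (nat_lit 303147) (nat_lit 15) (.e (nat_lit 1859) (nat_lit 124) (.e (nat_lit 557109) (nat_lit 15) (.e (nat_lit 188449) (nat_lit 22) (.e (nat_lit 196661) (nat_lit 12) (.e (nat_lit 57712) (nat_lit 176) .nil))))))) (.g (nat_lit 0) .nil .nil))))) (.nd (nat_lit 3) (.nd (nat_lit 4) 
(.lf (nat_lit 53700) (.g (nat_lit 3401) (.e (nat_lit 1374) (nat_lit 104) (.e (nat_lit 303147) (nat_lit 15) (.e (nat_lit 1855) (nat_lit 124) (.e (nat_lit 557098) (nat_lit 13) (.e (nat_lit 172097) (nat_lit 9) (.e (nat_lit 426140) (nat_lit 3) (.e (nat_lit 204821) (nat_lit 17) (.e (nat_lit 6114) (nat_lit 332) .nil)))))))) (.g (nat_lit 5) .nil .nil))) 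
(.lf (nat_lit 53716) (.g (nat_lit 3352) (.e (nat_lit 1374) (nat_lit 104) (.e (nat_lit 303147) (nat_lit 15) (.e (nat_lit 1859) (nat_lit 124) (.e (nat_lit 557098) (nat_lit 13) (.e (nat_lit 172097) (nat_lit 9) (.e (nat_lit 426125) (nat_lit 2) (.e (nat_lit 196661) (nat_lit 12) (.e (nat_lit 57711) (nat_lit 176) .nil)))))))) (.g (nat_lit 6) .nil .nil)))) (.nd (nat_lit 4) 
(.lf (nat_lit 53708) (.g (nat_lit 3460) (.e (nat_lit 1374) (nat_lit 104) (.e (nat_lit 303147) (nat_lit 15) (.e (nat_lit 1858) (nat_lit 124) (.e (nat_lit 557101) (nat_lit 13) (.e (nat_lit 172097) (nat_lit 9) (.e (nat_lit 426125) (nat_lit 2) (.e (nat_lit 196661) (nat_lit 12) (.e (nat_lit 57711) (nat_lit 176) .nil)))))))) (.g (nat_lit 6) .nil .nil))) 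
(.lf (nat_lit 53724) (.g (nat_lit 3354) (.e (nat_lit 1374) (nat_lit 104) (.e (nat_lit 303147) (nat_lit 15) (.e (nat_lit 1859) (nat_lit 124) (.e (nat_lit 557109) (nat_lit 15) (.e (nat_lit 188452) (nat_lit 23) (.e (nat_lit 204821) (nat_lit 17) (.e (nat_lit 6092) (nat_lit 332) .nil))))))) (.g (nat_lit 6) .nil .nil)))))) (.nd (nat_lit 2) (.nd (nat_lit 3) (.nd (nat_lit 4) 
(.lf (nat_lit 53698) (.g (nat_lit 4543) (.e (nat_lit 1374) (nat_lit 104) (.e (nat_lit 303147) (nat_lit 15) (.e (nat_lit 1849) (nat_lit 124) (.e (nat_lit 557109) (nat_lit 15) (.e (nat_lit 188452) (nat_lit 23) (.e (nat_lit 204821) (nat_lit 17) (.e (nat_lit 6114) (nat_lit 332) .nil))))))) (.g (nat_lit 7) .nil .nil))) 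
(.lf (nat_lit 53714) (.g (nat_lit 5104) (.e (nat_lit 1374) (nat_lit 104) (.e (nat_lit 303147) (nat_lit 15) (.e (nat_lit 1858) (nat_lit 124) (.e (nat_lit 557109) (nat_lit 15) (.e (nat_lit 188452) (nat_lit 23) (.e (nat_lit 204819) (nat_lit 17) (.e (nat_lit 6113) (nat_lit 332) .nil))))))) (.g (nat_lit 5) .nil .nil)))) (.nd (nat_lit 4) 
(.lf (nat_lit 53706) (.g (nat_lit 3770) (.e (nat_lit 1374) (nat_lit 104) (.e (nat_lit 303147) (nat_lit 15) (.e (nat_lit 1855) (nat_lit 124) (.e (nat_lit 557109) (nat_lit 15) (.e (nat_lit 188452) (nat_lit 23) (.e (nat_lit 204821) (nat_lit 17) (.e (nat_lit 6114) (nat_lit 332) .nil))))))) (.g (nat_lit 5) .nil .nil))) 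
(.lf (nat_lit 53722) (.g (nat_lit 4161) (.e (nat_lit 1374) (nat_lit 104) (.e (nat_lit 303147) (nat_lit 15) (.e (nat_lit 1859) (nat_lit 124) (.e (nat_lit 557109) (nat_lit 15) (.e (nat_lit 188450) (nat_lit 23) (.e (nat_lit 204821) (nat_lit 17) (.e (nat_lit 6114) (nat_lit 332) .nil))))))) (.g (nat_lit 6) .nil .nil))))) (.nd (nat_lit 3) (.nd (nat_lit 4) 
(.lf (nat_lit 53702) (.g (nat_lit 2006) (.e (nat_lit 1374) (nat_lit 104) (.e (nat_lit 303147) (nat_lit 15) (.e (nat_lit 1855) (nat_lit 124) (.e (nat_lit 557100) (nat_lit 13) (.e (nat_lit 172106) (nat_lit 10) .nil))))) .nil)) 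
(.lf (nat_lit 53718) (.g (nat_lit 3350) (.e (nat_lit 1374) (nat_lit 104) (.e (nat_lit 303147) (nat_lit 15) (.e (nat_lit 1859) (nat_lit 124) (.e (nat_lit 557109) (nat_lit 15) (.e (nat_lit 188447) (nat_lit 22) (.e (nat_lit 196661) (nat_lit 12) (.e (nat_lit 57712) (nat_lit 176) .nil))))))) (.g (nat_lit 5) .nil .nil)))) (.nd (nat_lit 4) 
(.lf (nat_lit 53710) (.g (nat_lit 4163) (.e (nat_lit 1374) (nat_lit 104) (.e (nat_lit 303147) (nat_lit 15) (.e (nat_lit 1858) (nat_lit 124) (.e (nat_lit 557101) (nat_lit 13) (.e (nat_lit 172115) (nat_lit 10) (.e (nat_lit 434231) (nat_lit 23) (.e (nat_lit 532486) (nat_lit 0) (.e (nat_lit 6113) (nat_lit 332) .nil)))))))) (.g (nat_lit 7) .nil .nil))) 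
(.lf (nat_lit 53726) (.g (nat_lit 3219) (.e (nat_lit 1374) (nat_lit 104) (.e (nat_lit 303147) (nat_lit 15) (.e (nat_lit 2030) (nat_lit 140) (.e (nat_lit 688177) (nat_lit 16) (.e (nat_lit 65583) (nat_lit 7) (.e (nat_lit 319530) (nat_lit 16) (.e (nat_lit 286727) (nat_lit 0) (.e (nat_lit 6114) (nat_lit 332) .nil)))))))) (.g (nat_lit 5) .nil .nil))))))) 
(.nd (nat_lit 1) (.nd (nat_lit 2) (.nd (nat_lit 3) (.nd (nat_lit 4) 
(.lf (nat_lit 53697) (.g (nat_lit 3412) (.e (nat_lit 1374) (nat_lit 104) (.e (nat_lit 303147) (nat_lit 15) (.e (nat_lit 1849) (nat_lit 124) (.e (nat_lit 557109) (nat_lit 15) (.e (nat_lit 188452) (nat_lit 23) (.e (nat_lit 204821) (nat_lit 17) (.e (nat_lit 6092) (nat_lit 332) .nil))))))) (.g (nat_lit 5) .nil .nil))) 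
(.lf (nat_lit 53713) (.g (nat_lit 4730) (.e (nat_lit 1374) (nat_lit 104) (.e (nat_lit 303147) (nat_lit 15) (.e (nat_lit 1858) (nat_lit 124) (.e (nat_lit 557109) (nat_lit 15) (.e (nat_lit 188449) (nat_lit 22) (.e (nat_lit 196661) (nat_lit 12) (.e (nat_lit 57712) (nat_lit 176) .nil))))))) (.g (nat_lit 5) .nil .nil)))) (.nd (nat_lit 4) 
(.lf (nat_lit 53705) (.g (nat_lit 2581) (.e (nat_lit 1374) (nat_lit 104) (.e (nat_lit 303147) (nat_lit 15) (.e (nat_lit 1855) (nat_lit 124) (.e (nat_lit 557107) (nat_lit 15) (.e (nat_lit 188450) (nat_lit 23) (.e (nat_lit 204819) (nat_lit 17) (.e (nat_lit 6113) (nat_lit 332) .nil))))))) (.g (nat_lit 4) .nil .nil))) 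
(.lf (nat_lit 53721) (.g (nat_lit 4411) (.e (nat_lit 1374) (nat_lit 104) (.e (nat_lit 303147) (nat_lit 15) (.e (nat_lit 1859) (nat_lit 124) (.e (nat_lit 557109) (nat_lit 15) (.e (nat_lit 188450) (nat_lit 23) (.e (nat_lit 204819) (nat_lit 17) (.e (nat_lit 6113) (nat_lit 332) .nil))))))) (.g (nat_lit 6) .nil .nil))))) (.nd (nat_lit 3) (.nd (nat_lit 4) 
(.lf (nat_lit 53701) (.g (nat_lit 4287) (.e (nat_lit 1374) (nat_lit 104) (.e (nat_lit 303147) (nat_lit 15) (.e (nat_lit 1855) (nat_lit 124) (.e (nat_lit 557098) (nat_lit 13) (.e (nat_lit 172115) (nat_lit 10) (.e (nat_lit 434231) (nat_lit 23) (.e (nat_lit 532490) (nat_lit 0) (.e (nat_lit 6114) (nat_lit 332) .nil)))))))) (.g (nat_lit 6) .nil .nil))) 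
(.lf (nat_lit 53717) (.g (nat_lit 3360) (.e (nat_lit 1374) (nat_lit 104) (.e (nat_lit 303147) (nat_lit 15) (.e (nat_lit 1859) (nat_lit 124) (.e (nat_lit 557098) (nat_lit 13) (.e (nat_lit 172097) (nat_lit 9) (.e (nat_lit 426140) (nat_lit 3) (.e (nat_lit 204821) (nat_lit 17) (.e (nat_lit 6092) (nat_lit 332) .nil)))))))) (.g (nat_lit 6) .nil .nil)))) (.nd (nat_lit 4) 
(.lf (nat_lit 53709) (.g (nat_lit 3476) (.e (nat_lit 1374) (nat_lit 104) (.e (nat_lit 303147) (nat_lit 15) (.e (nat_lit 1858) (nat_lit 124) (.e (nat_lit 557101) (nat_lit 13) (.e (nat_lit 172097) (nat_lit 9) (.e (nat_lit 426140) (nat_lit 3) (.e (nat_lit 204821) (nat_lit 17) (.e (nat_lit 6092) (nat_lit 332) .nil)))))))) (.g (nat_lit 6) .nil .nil))) 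
(.lf (nat_lit 53725) (.g (nat_lit 4485) (.e (nat_lit 1374) (nat_lit 104) (.e (nat_lit 303147) (nat_lit 15) (.e (nat_lit 1859) (nat_lit 124) (.e (nat_lit 557109) (nat_lit 15) (.e (nat_lit 188452) (nat_lit 23) (.e (nat_lit 204821) (nat_lit 17) (.e (nat_lit 6114) (nat_lit 332) .nil))))))) (.g (nat_lit 0) .nil .nil)))))) (.nd (nat_lit 2) (.nd (nat_lit 3) (.nd (nat_lit 4) 
(.lf (nat_lit 53699) (.g (nat_lit 2418) (.e (nat_lit 1374) (nat_lit 104) (.e (nat_lit 303147) (nat_lit 15) (.e (nat_lit 1855) (nat_lit 124) (.e (nat_lit 557098) (nat_lit 13) (.e (nat_lit 172097) (nat_lit 9) .nil))))) .nil)) 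
(.lf (nat_lit 53715) (.g (nat_lit 5071) (.e (nat_lit 1374) (nat_lit 104) (.e (nat_lit 303147) (nat_lit 15) (.e (nat_lit 1858) (nat_lit 124) (.e (nat_lit 557109) (nat_lit 15) (.e (nat_lit 188452) (nat_lit 23) (.e (nat_lit 204821) (nat_lit 17) (.e (nat_lit 6114) (nat_lit 332) .nil))))))) (.g (nat_lit 5) .nil .nil)))) (.nd (nat_lit 4) 
(.lf (nat_lit 53707) (.g (nat_lit 3778) (.e (nat_lit 1374) (nat_lit 104) (.e (nat_lit 303147) (nat_lit 15) (.e (nat_lit 1858) (nat_lit 124) (.e (nat_lit 557098) (nat_lit 13) (.e (nat_lit 172115) (nat_lit 10) (.e (nat_lit 434231) (nat_lit 23) (.e (nat_lit 532490) (nat_lit 0) (.e (nat_lit 6114) (nat_lit 332) .nil)))))))) (.g (nat_lit 4) .nil .nil))) 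
(.lf (nat_lit 53723) (.g (nat_lit 5282) (.e (nat_lit 1374) (nat_lit 104) (.e (nat_lit 303147) (nat_lit 15) (.e (nat_lit 1859) (nat_lit 124) (.e (nat_lit 557109) (nat_lit 15) (.e (nat_lit 188452) (nat_lit 23) (.e (nat_lit 204819) (nat_lit 17) (.e (nat_lit 6113) (nat_lit 332) .nil))))))) (.g (nat_lit 0) .nil .nil))))) (.nd (nat_lit 3) (.nd (nat_lit 4) 
(.lf (nat_lit 53703) (.g (nat_lit 2156) (.e (nat_lit 1374) (nat_lit 104) (.e (nat_lit 303147) (nat_lit 15) (.e (nat_lit 1855) (nat_lit 124) (.e (nat_lit 557100) (nat_lit 13) (.e (nat_lit 172106) (nat_lit 10) (.e (nat_lit 434231) (nat_lit 23) (.e (nat_lit 532490) (nat_lit 0) (.e (nat_lit 6114) (nat_lit 332) .nil)))))))) (.g (nat_lit 4) .nil .nil))) 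
(.lf (nat_lit 53719) (.g (nat_lit 2688) (.e (nat_lit 1374) (nat_lit 104) (.e (nat_lit 303147) (nat_lit 15) (.e (nat_lit 1859) (nat_lit 124) (.e (nat_lit 557109) (nat_lit 15) (.e (nat_lit 188449) (nat_lit 22) (.e (nat_lit 196661) (nat_lit 12) (.e (nat_lit 57711) (nat_lit 176) .nil))))))) (.g (nat_lit 5) .nil .nil)))) (.nd (nat_lit 4) 
(.lf (nat_lit 53711) (.g (nat_lit 3348) (.e (nat_lit 1374) (nat_lit 104) (.e (nat_lit 303147) (nat_lit 15) (.e (nat_lit 1858) (nat_lit 124) (.e (nat_lit 557107) (nat_lit 15) (.e (nat_lit 188447) (nat_lit 22) (.e (nat_lit 196661) (nat_lit 12) (.e (nat_lit 57712) (nat_lit 176) .nil))))))) (.g (nat_lit 4) .nil .nil))) 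
(.lf (nat_lit 53727) (.g (nat_lit 3378) (.e (nat_lit 1374) (nat_lit 104) (.e (nat_lit 303147) (nat_lit 15) (.e (nat_lit 2030) (nat_lit 140) (.e (nat_lit 688177) (nat_lit 16) (.e (nat_lit 65586) (nat_lit 7) (.e (nat_lit 319531) (nat_lit 16) (.e (nat_lit 286727) (nat_lit 0) (.e (nat_lit 6092) (nat_lit 332) .nil)))))))) (.g (nat_lit 6) .nil .nil))))))))

noncomputable def tv743 : DT := (.nd (nat_lit 0) (.nd (nat_lit 1) (.nd (nat_lit 2) (.nd (nat_lit 3) (.nd (nat_lit 4) 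
(.lf (nat_lit 53728) (.g (nat_lit 2827) (.e (nat_lit 1374) (nat_lit 104) (.e (nat_lit 303147) (nat_lit 15) (.e (nat_lit 2030) (nat_lit 140) (.e (nat_lit 688177) (nat_lit 16) (.e (nat_lit 65586) (nat_lit 7) (.e (nat_lit 319531) (nat_lit 16) (.e (nat_lit 286727) (nat_lit 0) (.e (nat_lit 6114) (nat_lit 332) .nil)))))))) (.g (nat_lit 5) .nil .nil))) 
(.lf (nat_lit 53744) (.g (nat_lit 2244) (.e (nat_lit 1374) (nat_lit 104) (.e (nat_lit 303154) (nat_lit 28) (.e (nat_lit 344069) (nat_lit 0) (.e (nat_lit 2857) (nat_lit 184) (.e (nat_lit 426533) (nat_lit 28) (.e (nat_lit 344074) (nat_lit 13) .nil)))))) (.g (nat_lit 0) .nil .nil)))) (.nd (nat_lit 4) 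
(.lf (nat_lit 53736) (.g (nat_lit 2535) (.e (nat_lit 1374) (nat_lit 104) (.e (nat_lit 303152) (nat_lit 27) (.e (nat_lit 336228) (nat_lit 14) (.e (nat_lit 401459) (nat_lit 13) (.e (nat_lit 483354) (nat_lit 17) (.e (nat_lit 6092) (nat_lit 332) .nil)))))) (.g (nat_lit 0) .nil .nil))) 
(.lf (nat_lit 53752) (.g (nat_lit 1020) (.e (nat_lit 1374) (nat_lit 104) (.e (nat_lit 303154) (nat_lit 28) (.e (nat_lit 344084) (nat_lit 14) (.e (nat_lit 57864) (nat_lit 256) (.e (nat_lit 300) (nat_lit 22) (.e (nat_lit 344075) (nat_lit 13) .nil)))))) (.g (nat_lit 0) .nil .nil))))) (.nd (nat_lit 3) (.nd (nat_lit 4) 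
(.lf (nat_lit 53732) (.g (nat_lit 2011) (.e (nat_lit 1374) (nat_lit 104) (.e (nat_lit 303152) (nat_lit 27) (.e (nat_lit 336227) (nat_lit 14) (.e (nat_lit 401459) (nat_lit 13) (.e (nat_lit 483354) (nat_lit 17) (.e (nat_lit 6092) (nat_lit 332) .nil)))))) (.g (nat_lit 5) .nil .nil))) 
(.lf (nat_lit 53748) (.g (nat_lit 993) (.e (nat_lit 1374) (nat_lit 104) (.e (nat_lit 303154) (nat_lit 28) (.e (nat_lit 344075) (nat_lit 13) (.e (nat_lit 1378) (nat_lit 104) (.e (nat_lit 303154) (nat_lit 28) (.e (nat_lit 344075) (nat_lit 13) .nil)))))) (.g (nat_lit 0) .nil .nil)))) (.nd (nat_lit 4) 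
(.lf (nat_lit 53740) (.g (nat_lit 1432) (.e (nat_lit 1374) (nat_lit 104) (.e (nat_lit 303154) (nat_lit 28) (.e (nat_lit 344069) (nat_lit 0) (.e (nat_lit 2854) (nat_lit 184) (.e (nat_lit 426533) (nat_lit 28) (.e (nat_lit 344075) (nat_lit 13) .nil)))))) (.g (nat_lit 0) .nil .nil))) 
(.lf (nat_lit 53756) (.g (nat_lit 1036) (.e (nat_lit 1374) (nat_lit 104) (.e (nat_lit 303155) (nat_lit 29) (.e (nat_lit 352267) (nat_lit 0) (.e (nat_lit 3630) (nat_lit 227) (.e (nat_lit 778323) (nat_lit 5) (.e (nat_lit 81664) (nat_lit 45) .nil)))))) (.g (nat_lit 4) .nil .nil)))))) (.nd (nat_lit 2) (.nd (nat_lit 3) (.nd (nat_lit 4) 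
(.lf (nat_lit 53730) (.g (nat_lit 1616) (.e (nat_lit 1374) (nat_lit 104) (.e (nat_lit 303152) (nat_lit 27) (.e (nat_lit 336061) (nat_lit 7) (.e (nat_lit 319539) (nat_lit 19) (.e (nat_lit 311357) (nat_lit 28) (.e (nat_lit 344075) (nat_lit 13) .nil)))))) (.g (nat_lit 4) .nil .nil))) 
(.lf (nat_lit 53746) (.g (nat_lit 1446) (.e (nat_lit 1374) (nat_lit 104) (.e (nat_lit 303154) (nat_lit 28) (.e (nat_lit 344075) (nat_lit 13) (.e (nat_lit 1374) (nat_lit 104) (.e (nat_lit 303154) (nat_lit 28) (.e (nat_lit 344075) (nat_lit 13) .nil)))))) (.g (nat_lit 0) .nil .nil)))) (.nd (nat_lit 4) 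
(.lf (nat_lit 53738) (.g (nat_lit 919) (.e (nat_lit 1374) (nat_lit 104) (.e (nat_lit 303154) (nat_lit 28) (.e (nat_lit 344067) (nat_lit 0) (.e (nat_lit 2941) (nat_lit 184) (.e (nat_lit 426532) (nat_lit 28) (.e (nat_lit 344075) (nat_lit 13) .nil)))))) (.g (nat_lit 0) .nil .nil))) 
(.lf (nat_lit 53754) (.g (nat_lit 601) (.e (nat_lit 1374) (nat_lit 104) (.e (nat_lit 303155) (nat_lit 29) (.e (nat_lit 352264) (nat_lit 0) (.e (nat_lit 3714) (nat_lit 227) (.e (nat_lit 786176) (nat_lit 5) (.e (nat_lit 73787) (nat_lit 45) .nil)))))) (.g (nat_lit 4) .nil .nil))))) (.nd (nat_lit 3) (.nd (nat_lit 4) 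
(.lf (nat_lit 53734) (.g (nat_lit 2119) (.e (nat_lit 1374) (nat_lit 104) (.e (nat_lit 303152) (nat_lit 27) (.e (nat_lit 336228) (nat_lit 14) (.e (nat_lit 401437) (nat_lit 9) (.e (nat_lit 426533) (nat_lit 28) (.e (nat_lit 344074) (nat_lit 13) .nil)))))) (.g (nat_lit 6) .nil .nil))) 
(.lf (nat_lit 53750) (.g (nat_lit 1139) (.e (nat_lit 1374) (nat_lit 104) (.e (nat_lit 303154) (nat_lit 28) (.e (nat_lit 344077) (nat_lit 13) (.e (nat_lit 1385) (nat_lit 105) (.e (nat_lit 311357) (nat_lit 28) (.e (nat_lit 344075) (nat_lit 13) .nil)))))) (.g (nat_lit 0) .nil .nil)))) (.nd (nat_lit 4) 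
(.lf (nat_lit 53742) (.g (nat_lit 2344) (.e (nat_lit 1374) (nat_lit 104) (.e (nat_lit 303154) (nat_lit 28) (.e (nat_lit 344069) (nat_lit 0) (.e (nat_lit 2856) (nat_lit 184) (.e (nat_lit 426533) (nat_lit 28) (.e (nat_lit 344074) (nat_lit 13) .nil)))))) (.g (nat_lit 6) .nil .nil))) 
(.lf (nat_lit 53758) (.g (nat_lit 2306) (.e (nat_lit 1374) (nat_lit 104) (.e (nat_lit 303155) (nat_lit 29) (.e (nat_lit 352267) (nat_lit 0) (.e (nat_lit 3632) (nat_lit 227) (.e (nat_lit 778323) (nat_lit 5) (.e (nat_lit 81664) (nat_lit 45) .nil)))))) (.g (nat_lit 5) .nil .nil))))))) (.nd (nat_lit 1) (.nd (nat_lit 2) (.nd (nat_lit 3) (.nd (nat_lit 4) 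
(.lf (nat_lit 53729) (.g (nat_lit 2359) (.e (nat_lit 1374) (nat_lit 104) (.e (nat_lit 303150) (nat_lit 15) (.e (nat_lit 1856) (nat_lit 124) (.e (nat_lit 557100) (nat_lit 13) (.e (nat_lit 172106) (nat_lit 10) (.e (nat_lit 434231) (nat_lit 23) (.e (nat_lit 532490) (nat_lit 0) (.e (nat_lit 6114) (nat_lit 332) .nil)))))))) (.g (nat_lit 4) .nil .nil))) 
(.lf (nat_lit 53745) (.g (nat_lit 2357) (.e (nat_lit 1374) (nat_lit 104) (.e (nat_lit 303154) (nat_lit 28) (.e (nat_lit 344069) (nat_lit 0) (.e (nat_lit 2857) (nat_lit 184) (.e (nat_lit 426533) (nat_lit 28) (.e (nat_lit 344075) (nat_lit 13) .nil)))))) (.g (nat_lit 0) .nil .nil)))) (.nd (nat_lit 4) 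
(.lf (nat_lit 53737) (.g (nat_lit 970) (.e (nat_lit 1374) (nat_lit 104) (.e (nat_lit 303154) (nat_lit 28) (.e (nat_lit 344067) (nat_lit 0) (.e (nat_lit 2940) (nat_lit 184) (.e (nat_lit 426532) (nat_lit 28) (.e (nat_lit 344075) (nat_lit 13) .nil)))))) (.g (nat_lit 0) .nil .nil))) 
(.lf (nat_lit 53753) (.g (nat_lit 590) (.e (nat_lit 1374) (nat_lit 104) (.e (nat_lit 303155) (nat_lit 29) (.e (nat_lit 352264) (nat_lit 0) (.e (nat_lit 3711) (nat_lit 227) (.e (nat_lit 786176) (nat_lit 5) (.e (nat_lit 73787) (nat_lit 45) .nil)))))) (.g (nat_lit 4) .nil .nil))))) (.nd (nat_lit 3) (.nd (nat_lit 4) 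
(.lf (nat_lit 53733) (.g (nat_lit 991) (.e (nat_lit 1374) (nat_lit 104) (.e (nat_lit 303152) (nat_lit 27) (.e (nat_lit 336228) (nat_lit 14) (.e (nat_lit 401436) (nat_lit 9) (.e (nat_lit 426533) (nat_lit 28) (.e (nat_lit 344075) (nat_lit 13) .nil)))))) (.g (nat_lit 4) .nil .nil))) 
(.lf (nat_lit 53749) (.g (nat_lit 984) (.e (nat_lit 1374) (nat_lit 104) (.e (nat_lit 303154) (nat_lit 28) (.e (nat_lit 344077) (nat_lit 13) (.e (nat_lit 1383) (nat_lit 105) (.e (nat_lit 311357) (nat_lit 28) (.e (nat_lit 344075) (nat_lit 13) .nil)))))) (.g (nat_lit 0) .nil .nil)))) (.nd (nat_lit 4) 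
(.lf (nat_lit 53741) (.g (nat_lit 1433) (.e (nat_lit 1374) (nat_lit 104) (.e (nat_lit 303154) (nat_lit 28) (.e (nat_lit 344069) (nat_lit 0) (.e (nat_lit 2855) (nat_lit 184) (.e (nat_lit 426533) (nat_lit 28) (.e (nat_lit 344074) (nat_lit 13) .nil)))))) (.g (nat_lit 5) .nil .nil))) 
(.lf (nat_lit 53757) (.g (nat_lit 1484) (.e (nat_lit 1374) (nat_lit 104) (.e (nat_lit 303155) (nat_lit 29) (.e (nat_lit 352267) (nat_lit 0) (.e (nat_lit 3631) (nat_lit 227) (.e (nat_lit 778323) (nat_lit 5) (.e (nat_lit 81664) (nat_lit 45) .nil)))))) (.g (nat_lit 5) .nil .nil)))))) (.nd (nat_lit 2) (.nd (nat_lit 3) (.nd (nat_lit 4) 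
(.lf (nat_lit 53731) (.g (nat_lit 2562) (.e (nat_lit 1374) (nat_lit 104) (.e (nat_lit 303152) (nat_lit 27) (.e (nat_lit 336226) (nat_lit 14) (.e (nat_lit 401437) (nat_lit 9) (.e (nat_lit 426533) (nat_lit 28) (.e (nat_lit 344074) (nat_lit 13) .nil)))))) (.g (nat_lit 5) .nil .nil))) 
(.lf (nat_lit 53747) (.g (nat_lit 1121) (.e (nat_lit 1374) (nat_lit 104) (.e (nat_lit 303154) (nat_lit 28) (.e (nat_lit 344075) (nat_lit 13) (.e (nat_lit 1374) (nat_lit 104) (.e (nat_lit 311040) (nat_lit 31) (.e (nat_lit 368648) (nat_lit 13) .nil)))))) (.g (nat_lit 4) .nil .nil)))) (.nd (nat_lit 4) 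
(.lf (nat_lit 53739) (.g (nat_lit 1394) (.e (nat_lit 1374) (nat_lit 104) (.e (nat_lit 303154) (nat_lit 28) (.e (nat_lit 344068) (nat_lit 0) (.e (nat_lit 2857) (nat_lit 184) (.e (nat_lit 426533) (nat_lit 28) (.e (nat_lit 344075) (nat_lit 13) .nil)))))) (.g (nat_lit 4) .nil .nil))) 
(.lf (nat_lit 53755) (.g (nat_lit 1035) (.e (nat_lit 1374) (nat_lit 104) (.e (nat_lit 303155) (nat_lit 29) (.e (nat_lit 352267) (nat_lit 0) (.e (nat_lit 3629) (nat_lit 227) (.e (nat_lit 778323) (nat_lit 5) (.e (nat_lit 81664) (nat_lit 45) .nil)))))) (.g (nat_lit 4) .nil .nil))))) (.nd (nat_lit 3) (.nd (nat_lit 4) 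
(.lf (nat_lit 53735) (.g (nat_lit 2214) (.e (nat_lit 1374) (nat_lit 104) (.e (nat_lit 303152) (nat_lit 27) (.e (nat_lit 336228) (nat_lit 14) (.e (nat_lit 401438) (nat_lit 9) (.e (nat_lit 426533) (nat_lit 28) (.e (nat_lit 344074) (nat_lit 13) .nil)))))) (.g (nat_lit 0) .nil .nil))) 
(.lf (nat_lit 53751) (.g (nat_lit 1459) (.e (nat_lit 1374) (nat_lit 104) (.e (nat_lit 303154) (nat_lit 28) (.e (nat_lit 344077) (nat_lit 13) (.e (nat_lit 1386) (nat_lit 105) (.e (nat_lit 311357) (nat_lit 28) (.e (nat_lit 344075) (nat_lit 13) .nil)))))) (.g (nat_lit 0) .nil .nil)))) (.nd (nat_lit 4) 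
(.lf (nat_lit 53743) (.g (nat_lit 2400) (.e (nat_lit 1374) (nat_lit 104) (.e (nat_lit 303154) (nat_lit 28) (.e (nat_lit 344069) (nat_lit 0) (.e (nat_lit 2856) (nat_lit 184) (.e (nat_lit 426533) (nat_lit 28) (.e (nat_lit 344075) (nat_lit 13) .nil)))))) (.g (nat_lit 0) .nil .nil))) 
(.lf (nat_lit 53759) (.g (nat_lit 1704) (.e (nat_lit 1374) (nat_lit 104) (.e (nat_lit 303155) (nat_lit 29) (.e (nat_lit 352267) (nat_lit 0) (.e (nat_lit 3748) (nat_lit 228) (.e (nat_lit 786475) (nat_lit 28) (.e (nat_lit 344075) (nat_lit 13) .nil)))))) (.g (nat_lit 5) .nil .nil))))))))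

noncomputable def tv744 : DT := (.nd (nat_lit 0) (.nd (nat_lit 1) (.nd (nat_lit 2) (.nd (nat_lit 3) (.nd (nat_lit 4) (.nd (nat_lit 5) 
(.lf (nat_lit 53760) (.g (nat_lit 1907) (.e (nat_lit 1374) (nat_lit 104) (.e (nat_lit 303155) (nat_lit 29) (.e (nat_lit 352267) (nat_lit 0) (.e (nat_lit 3748) (nat_lit 228) (.e (nat_lit 786477) (nat_lit 28) (.e (nat_lit 344074) (nat_lit 13) .nil)))))) (.g (nat_lit 5) .nil .nil))) 
(.lf (nat_lit 53792) (.g (nat_lit 990) (.e (nat_lit 1376) (nat_lit 104) (.e (nat_lit 303147) (nat_lit 15) (.e (nat_lit 1846) (nat_lit 124) .nil))) .nil))) (.nd (nat_lit 5) 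
(.lf (nat_lit 53776) (.g (nat_lit 1327) (.e (nat_lit 1374) (nat_lit 104) (.e (nat_lit 303155) (nat_lit 29) (.e (nat_lit 352316) (nat_lit 24) (.e (nat_lit 123198) (nat_lit 266) (.e (nat_lit 57420) (nat_lit 13) (.e (nat_lit 344075) (nat_lit 13) .nil)))))) (.g (nat_lit 5) .nil .nil))) 
(.lf (nat_lit 53808) (.g (nat_lit 3920) (.e (nat_lit 1376) (nat_lit 104) (.e (nat_lit 303147) (nat_lit 15) (.e (nat_lit 1859) (nat_lit 124) (.e (nat_lit 557098) (nat_lit 13) (.e (nat_lit 172097) (nat_lit 9) (.e (nat_lit 426125) (nat_lit 2) (.e (nat_lit 196661) (nat_lit 12) (.e (nat_lit 57712) (nat_lit 176) .nil)))))))) (.g (nat_lit 0) .nil .nil))))) (.nd (nat_lit 4) (.nd (nat_lit 5) 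
(.lf (nat_lit 53768) (.g (nat_lit 1976) (.e (nat_lit 1374) (nat_lit 104) (.e (nat_lit 303155) (nat_lit 29) (.e (nat_lit 352307) (nat_lit 21) (.e (nat_lit 57872) (nat_lit 264) (.e (nat_lit 1211) (nat_lit 89) (.e (nat_lit 73786) (nat_lit 45) .nil)))))) (.g (nat_lit 5) .nil .nil))) 
(.lf (nat_lit 53800) (.g (nat_lit 2201) (.e (nat_lit 1376) (nat_lit 104) (.e (nat_lit 303147) (nat_lit 15) (.e (nat_lit 1849) (nat_lit 124) (.e (nat_lit 557108) (nat_lit 15) (.e (nat_lit 188452) (nat_lit 23) (.e (nat_lit 204821) (nat_lit 17) (.e (nat_lit 6092) (nat_lit 332) .nil))))))) (.g (nat_lit 5) .nil .nil)))) (.nd (nat_lit 5) 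
(.lf (nat_lit 53784) (.g (nat_lit 2663) (.e (nat_lit 1376) (nat_lit 104) (.e (nat_lit 303119) (nat_lit 3) (.e (nat_lit 204816) (nat_lit 17) (.e (nat_lit 6724) (nat_lit 362) (.e (nat_lit 180243) (nat_lit 5) (.e (nat_lit 532486) (nat_lit 0) (.e (nat_lit 6113) (nat_lit 332) .nil))))))) (.g (nat_lit 5) .nil .nil))) 
(.lf (nat_lit 53816) (.g (nat_lit 2132) (.e (nat_lit 1376) (nat_lit 104) (.e (nat_lit 303152) (nat_lit 27) (.e (nat_lit 336226) (nat_lit 14) (.e (nat_lit 401437) (nat_lit 9) (.e (nat_lit 426533) (nat_lit 28) (.e (nat_lit 344074) (nat_lit 13) .nil)))))) (.g (nat_lit 5) .nil .nil)))))) (.nd (nat_lit 3) (.nd (nat_lit 4) (.nd (nat_lit 5) 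
(.lf (nat_lit 53764) (.g (nat_lit 1581) (.e (nat_lit 1374) (nat_lit 104) (.e (nat_lit 303155) (nat_lit 29) (.e (nat_lit 352307) (nat_lit 21) (.e (nat_lit 57870) (nat_lit 264) (.e (nat_lit 1211) (nat_lit 89) (.e (nat_lit 73786) (nat_lit 45) .nil)))))) (.g (nat_lit 5) .nil .nil))) 
(.lf (nat_lit 53796) (.g (nat_lit 4921) (.e (nat_lit 1376) (nat_lit 104) (.e (nat_lit 303147) (nat_lit 15) (.e (nat_lit 1849) (nat_lit 124) (.e (nat_lit 557097) (nat_lit 13) (.e (nat_lit 172115) (nat_lit 10) (.e (nat_lit 434231) (nat_lit 23) (.e (nat_lit 532490) (nat_lit 0) (.e (nat_lit 6114) (nat_lit 332) .nil)))))))) (.g (nat_lit 0) .nil .nil)))) (.nd (nat_lit 5) 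
(.lf (nat_lit 53780) (.g (nat_lit 2073) (.e (nat_lit 1374) (nat_lit 104) (.e (nat_lit 303155) (nat_lit 29) (.e (nat_lit 352318) (nat_lit 24) (.e (nat_lit 123184) (nat_lit 264) (.e (nat_lit 1212) (nat_lit 89) (.e (nat_lit 73787) (nat_lit 45) .nil)))))) (.g (nat_lit 5) .nil .nil))) 
(.lf (nat_lit 53812) (.g (nat_lit 4866) (.e (nat_lit 1376) (nat_lit 104) (.e (nat_lit 303147) (nat_lit 15) (.e (nat_lit 1859) (nat_lit 124) (.e (nat_lit 557109) (nat_lit 15) (.e (nat_lit 188452) (nat_lit 23) (.e (nat_lit 204819) (nat_lit 17) (.e (nat_lit 6113) (nat_lit 332) .nil))))))) (.g (nat_lit 0) .nil .nil))))) (.nd (nat_lit 4) (.nd (nat_lit 5) 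
(.lf (nat_lit 53772) (.g (nat_lit 2454) (.e (nat_lit 1374) (nat_lit 104) (.e (nat_lit 303155) (nat_lit 29) (.e (nat_lit 352307) (nat_lit 21) (.e (nat_lit 57873) (nat_lit 264) (.e (nat_lit 1211) (nat_lit 89) (.e (nat_lit 81664) (nat_lit 45) .nil)))))) (.g (nat_lit 5) .nil .nil))) 
(.lf (nat_lit 53804) (.g (nat_lit 5607) (.e (nat_lit 1376) (nat_lit 104) (.e (nat_lit 303147) (nat_lit 15) (.e (nat_lit 1858) (nat_lit 124) (.e (nat_lit 557100) (nat_lit 13) (.e (nat_lit 172106) (nat_lit 10) (.e (nat_lit 434231) (nat_lit 23) (.e (nat_lit 532490) (nat_lit 0) (.e (nat_lit 6114) (nat_lit 332) .nil)))))))) (.g (nat_lit 0) .nil .nil)))) (.nd (nat_lit 5) 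
(.lf (nat_lit 53788) (.g (nat_lit 2832) (.e (nat_lit 1376) (nat_lit 104) (.e (nat_lit 303119) (nat_lit 3) (.e (nat_lit 204845) (nat_lit 24) (.e (nat_lit 319531) (nat_lit 16) (.e (nat_lit 286735) (nat_lit 3) .nil))))) .nil)) 
(.lf (nat_lit 53820) (.g (nat_lit 1720) (.e (nat_lit 1376) (nat_lit 104) (.e (nat_lit 303152) (nat_lit 27) (.e (nat_lit 336228) (nat_lit 14) (.e (nat_lit 401438) (nat_lit 9) (.e (nat_lit 426533) (nat_lit 28) (.e (nat_lit 344075) (nat_lit 13) .nil)))))) (.g (nat_lit 0) .nil .nil))))))) (.nd (nat_lit 2) (.nd (nat_lit 3) (.nd (nat_lit 4) (.nd (nat_lit 5) 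
(.lf (nat_lit 53762) (.g (nat_lit 858) (.e (nat_lit 1374) (nat_lit 104) (.e (nat_lit 303155) (nat_lit 29) (.e (nat_lit 352297) (nat_lit 20) (.e (nat_lit 2006) (nat_lit 138) (.e (nat_lit 671763) (nat_lit 5) (.e (nat_lit 81664) (nat_lit 45) .nil)))))) (.g (nat_lit 4) .nil .nil))) 
(.lf (nat_lit 53794) (.g (nat_lit 2113) (.e (nat_lit 1376) (nat_lit 104) (.e (nat_lit 303147) (nat_lit 15) (.e (nat_lit 1848) (nat_lit 124) (.e (nat_lit 557097) (nat_lit 13) (.e (nat_lit 172097) (nat_lit 9) .nil))))) .nil))) (.nd (nat_lit 5) 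
(.lf (nat_lit 53778) (.g (nat_lit 2009) (.e (nat_lit 1374) (nat_lit 104) (.e (nat_lit 303155) (nat_lit 29) (.e (nat_lit 352318) (nat_lit 24) (.e (nat_lit 123183) (nat_lit 264) (.e (nat_lit 1212) (nat_lit 89) (.e (nat_lit 73787) (nat_lit 45) .nil)))))) (.g (nat_lit 5) .nil .nil))) 
(.lf (nat_lit 53810) (.g (nat_lit 2612) (.e (nat_lit 1376) (nat_lit 104) (.e (nat_lit 303147) (nat_lit 15) (.e (nat_lit 1859) (nat_lit 124) (.e (nat_lit 557107) (nat_lit 15) (.e (nat_lit 188447) (nat_lit 22) (.e (nat_lit 196661) (nat_lit 12) (.e (nat_lit 57712) (nat_lit 176) .nil))))))) (.g (nat_lit 0) .nil .nil))))) (.nd (nat_lit 4) (.nd (nat_lit 5) 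
(.lf (nat_lit 53770) (.g (nat_lit 2814) (.e (nat_lit 1374) (nat_lit 104) (.e (nat_lit 303155) (nat_lit 29) (.e (nat_lit 352307) (nat_lit 21) (.e (nat_lit 57873) (nat_lit 264) (.e (nat_lit 1209) (nat_lit 89) (.e (nat_lit 73786) (nat_lit 45) .nil)))))) (.g (nat_lit 5) .nil .nil))) 
(.lf (nat_lit 53802) (.g (nat_lit 2241) (.e (nat_lit 1376) (nat_lit 104) (.e (nat_lit 303147) (nat_lit 15) (.e (nat_lit 1855) (nat_lit 124) (.e (nat_lit 557107) (nat_lit 15) (.e (nat_lit 188450) (nat_lit 23) .nil))))) .nil))) (.nd (nat_lit 5) 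
(.lf (nat_lit 53786) (.g (nat_lit 2436) (.e (nat_lit 1376) (nat_lit 104) (.e (nat_lit 303119) (nat_lit 3) (.e (nat_lit 204845) (nat_lit 24) (.e (nat_lit 319529) (nat_lit 16) (.e (nat_lit 286735) (nat_lit 3) .nil))))) .nil)) 
(.lf (nat_lit 53818) (.g (nat_lit 1776) (.e (nat_lit 1376) (nat_lit 104) (.e (nat_lit 303152) (nat_lit 27) (.e (nat_lit 336228) (nat_lit 14) (.e (nat_lit 401437) (nat_lit 9) (.e (nat_lit 426533) (nat_lit 28) (.e (nat_lit 344075) (nat_lit 13) .nil)))))) (.g (nat_lit 0) .nil .nil)))))) (.nd (nat_lit 3) (.nd (nat_lit 4) (.nd (nat_lit 5) 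
(.lf (nat_lit 53766) (.g (nat_lit 1366) (.e (nat_lit 1374) (nat_lit 104) (.e (nat_lit 303155) (nat_lit 29) (.e (nat_lit 352307) (nat_lit 21) (.e (nat_lit 57871) (nat_lit 264) (.e (nat_lit 1210) (nat_lit 89) (.e (nat_lit 73786) (nat_lit 45) .nil)))))) (.g (nat_lit 4) .nil .nil))) 
(.lf (nat_lit 53798) (.g (nat_lit 2652) (.e (nat_lit 1376) (nat_lit 104) (.e (nat_lit 303147) (nat_lit 15) (.e (nat_lit 1849) (nat_lit 124) (.e (nat_lit 557108) (nat_lit 15) (.e (nat_lit 188449) (nat_lit 22) (.e (nat_lit 196661) (nat_lit 12) (.e (nat_lit 57712) (nat_lit 176) .nil))))))) (.g (nat_lit 0) .nil .nil)))) (.nd (nat_lit 5) 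
(.lf (nat_lit 53782) (.g (nat_lit 1253) (.e (nat_lit 1375) (nat_lit 104) (.e (nat_lit 303115) (nat_lit 1) (.e (nat_lit 164327) (nat_lit 230) (.e (nat_lit 163884) (nat_lit 5) .nil)))) .nil)) 
(.lf (nat_lit 53814) (.g (nat_lit 2297) (.e (nat_lit 1376) (nat_lit 104) (.e (nat_lit 303147) (nat_lit 15) (.e (nat_lit 2030) (nat_lit 140) (.e (nat_lit 688177) (nat_lit 16) (.e (nat_lit 65583) (nat_lit 7) .nil))))) .nil)))) (.nd (nat_lit 4) (.nd (nat_lit 5) 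
(.lf (nat_lit 53774) (.g (nat_lit 2447) (.e (nat_lit 1374) (nat_lit 104) (.e (nat_lit 303155) (nat_lit 29) (.e (nat_lit 352316) (nat_lit 24) (.e (nat_lit 123182) (nat_lit 264) (.e (nat_lit 1214) (nat_lit 89) (.e (nat_lit 73786) (nat_lit 45) .nil)))))) (.g (nat_lit 5) .nil .nil))) 
(.lf (nat_lit 53806) (.g (nat_lit 4059) (.e (nat_lit 1376) (nat_lit 104) (.e (nat_lit 303147) (nat_lit 15) (.e (nat_lit 1858) (nat_lit 124) (.e (nat_lit 557101) (nat_lit 13) (.e (nat_lit 172097) (nat_lit 9) (.e (nat_lit 426125) (nat_lit 2) (.e (nat_lit 196661) (nat_lit 12) (.e (nat_lit 57712) (nat_lit 176) .nil)))))))) (.g (nat_lit 0) .nil .nil)))) (.nd (nat_lit 5) 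
(.lf (nat_lit 53790) (.g (nat_lit 2531) (.e (nat_lit 1376) (nat_lit 104) (.e (nat_lit 303119) (nat_lit 3) (.e (nat_lit 204846) (nat_lit 24) (.e (nat_lit 319528) (nat_lit 16) (.e (nat_lit 286733) (nat_lit 2) .nil))))) .nil)) 
(.lf (nat_lit 53822) (.g (nat_lit 455) (.e (nat_lit 1376) (nat_lit 104) (.e (nat_lit 303154) (nat_lit 28) (.e (nat_lit 344067) (nat_lit 0) (.e (nat_lit 2939) (nat_lit 184) (.e (nat_lit 426532) (nat_lit 28) (.e (nat_lit 344075) (nat_lit 13) .nil)))))) (.g (nat_lit 0) .nil .nil)))))))) (.nd (nat_lit 1) (.nd (nat_lit 2) (.nd (nat_lit 3) (.nd (nat_lit 4) (.nd (nat_lit 5) 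
(.lf (nat_lit 53761) (.g (nat_lit 1703) (.e (nat_lit 1374) (nat_lit 104) (.e (nat_lit 303155) (nat_lit 29) (.e (nat_lit 352287) (nat_lit 20) (.e (nat_lit 1998) (nat_lit 137) (.e (nat_lit 663554) (nat_lit 0) (.e (nat_lit 1543) (nat_lit 109) (.e (nat_lit 344075) (nat_lit 13) .nil))))))) (.g (nat_lit 0) .nil .nil))) 
(.lf (nat_lit 53793) (.g (nat_lit 2969) (.e (nat_lit 1376) (nat_lit 104) (.e (nat_lit 303147) (nat_lit 15) (.e (nat_lit 1847) (nat_lit 124) (.e (nat_lit 557098) (nat_lit 13) (.e (nat_lit 172097) (nat_lit 9) (.e (nat_lit 426140) (nat_lit 3) (.e (nat_lit 204821) (nat_lit 17) (.e (nat_lit 6114) (nat_lit 332) .nil)))))))) (.g (nat_lit 6) .nil .nil)))) (.nd (nat_lit 5) 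
(.lf (nat_lit 53777) (.g (nat_lit 2612) (.e (nat_lit 1374) (nat_lit 104) (.e (nat_lit 303155) (nat_lit 29) (.e (nat_lit 352318) (nat_lit 24) (.e (nat_lit 123182) (nat_lit 264) (.e (nat_lit 1214) (nat_lit 89) (.e (nat_lit 73786) (nat_lit 45) .nil)))))) (.g (nat_lit 5) .nil .nil))) 
(.lf (nat_lit 53809) (.g (nat_lit 5304) (.e (nat_lit 1376) (nat_lit 104) (.e (nat_lit 303147) (nat_lit 15) (.e (nat_lit 1859) (nat_lit 124) (.e (nat_lit 557098) (nat_lit 13) (.e (nat_lit 172115) (nat_lit 10) (.e (nat_lit 434231) (nat_lit 23) (.e (nat_lit 532490) (nat_lit 0) (.e (nat_lit 6114) (nat_lit 332) .nil)))))))) (.g (nat_lit 0) .nil .nil))))) (.nd (nat_lit 4) (.nd (nat_lit 5) 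
(.lf (nat_lit 53769) (.g (nat_lit 1695) (.e (nat_lit 1374) (nat_lit 104) (.e (nat_lit 303155) (nat_lit 29) (.e (nat_lit 352307) (nat_lit 21) (.e (nat_lit 57872) (nat_lit 264) (.e (nat_lit 1211) (nat_lit 89) (.e (nat_lit 73787) (nat_lit 45) .nil)))))) (.g (nat_lit 5) .nil .nil))) 
(.lf (nat_lit 53801) (.g (nat_lit 3348) (.e (nat_lit 1376) (nat_lit 104) (.e (nat_lit 303147) (nat_lit 15) (.e (nat_lit 1849) (nat_lit 124) (.e (nat_lit 557109) (nat_lit 15) (.e (nat_lit 188449) (nat_lit 22) (.e (nat_lit 196661) (nat_lit 12) (.e (nat_lit 57712) (nat_lit 176) .nil))))))) (.g (nat_lit 6) .nil .nil)))) (.nd (nat_lit 5) 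
(.lf (nat_lit 53785) (.g (nat_lit 2151) (.e (nat_lit 1376) (nat_lit 104) (.e (nat_lit 303119) (nat_lit 3) (.e (nat_lit 204816) (nat_lit 17) (.e (nat_lit 6724) (nat_lit 362) (.e (nat_lit 180245) (nat_lit 5) .nil))))) .nil)) 
(.lf (nat_lit 53817) (.g (nat_lit 2147) (.e (nat_lit 1376) (nat_lit 104) (.e (nat_lit 303152) (nat_lit 27) (.e (nat_lit 336226) (nat_lit 14) (.e (nat_lit 401437) (nat_lit 9) (.e (nat_lit 426533) (nat_lit 28) (.e (nat_lit 344075) (nat_lit 13) .nil)))))) (.g (nat_lit 6) .nil .nil)))))) (.nd (nat_lit 3) (.nd (nat_lit 4) (.nd (nat_lit 5) 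
(.lf (nat_lit 53765) (.g (nat_lit 1297) (.e (nat_lit 1374) (nat_lit 104) (.e (nat_lit 303155) (nat_lit 29) (.e (nat_lit 352307) (nat_lit 21) (.e (nat_lit 57870) (nat_lit 264) (.e (nat_lit 1211) (nat_lit 89) (.e (nat_lit 73787) (nat_lit 45) .nil)))))) (.g (nat_lit 4) .nil .nil))) 
(.lf (nat_lit 53797) (.g (nat_lit 2466) (.e (nat_lit 1376) (nat_lit 104) (.e (nat_lit 303147) (nat_lit 15) (.e (nat_lit 1849) (nat_lit 124) (.e (nat_lit 557107) (nat_lit 15) (.e (nat_lit 188447) (nat_lit 22) (.e (nat_lit 196661) (nat_lit 12) (.e (nat_lit 57712) (nat_lit 176) .nil))))))) (.g (nat_lit 0) .nil .nil)))) (.nd (nat_lit 5) 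
(.lf (nat_lit 53781) (.g (nat_lit 2288) (.e (nat_lit 1374) (nat_lit 104) (.e (nat_lit 303155) (nat_lit 29) (.e (nat_lit 352318) (nat_lit 24) (.e (nat_lit 123184) (nat_lit 264) (.e (nat_lit 1214) (nat_lit 89) (.e (nat_lit 73786) (nat_lit 45) .nil)))))) (.g (nat_lit 5) .nil .nil))) 
(.lf (nat_lit 53813) (.g (nat_lit 1697) (.e (nat_lit 1376) (nat_lit 104) (.e (nat_lit 303147) (nat_lit 15) (.e (nat_lit 2024) (nat_lit 140) (.e (nat_lit 688177) (nat_lit 16) (.e (nat_lit 65583) (nat_lit 7) .nil))))) .nil)))) (.nd (nat_lit 4) (.nd (nat_lit 5) 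
(.lf (nat_lit 53773) (.g (nat_lit 2427) (.e (nat_lit 1374) (nat_lit 104) (.e (nat_lit 303155) (nat_lit 29) (.e (nat_lit 352309) (nat_lit 21) (.e (nat_lit 57872) (nat_lit 264) (.e (nat_lit 1209) (nat_lit 89) (.e (nat_lit 73787) (nat_lit 45) .nil)))))) (.g (nat_lit 5) .nil .nil))) 
(.lf (nat_lit 53805) (.g (nat_lit 2481) (.e (nat_lit 1376) (nat_lit 104) (.e (nat_lit 303147) (nat_lit 15) (.e (nat_lit 1858) (nat_lit 124) (.e (nat_lit 557101) (nat_lit 13) (.e (nat_lit 172097) (nat_lit 9) (.e (nat_lit 426125) (nat_lit 2) (.e (nat_lit 196661) (nat_lit 12) (.e (nat_lit 57711) (nat_lit 176) .nil)))))))) (.g (nat_lit 5) .nil .nil)))) (.nd (nat_lit 5) 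
(.lf (nat_lit 53789) (.g (nat_lit 2007) (.e (nat_lit 1376) (nat_lit 104) (.e (nat_lit 303119) (nat_lit 3) (.e (nat_lit 204845) (nat_lit 24) (.e (nat_lit 319534) (nat_lit 16) .nil)))) .nil)) 
(.lf (nat_lit 53821) (.g (nat_lit 499) (.e (nat_lit 1376) (nat_lit 104) (.e (nat_lit 303154) (nat_lit 28) (.e (nat_lit 344067) (nat_lit 0) (.e (nat_lit 2936) (nat_lit 184) (.e (nat_lit 426532) (nat_lit 28) (.e (nat_lit 344075) (nat_lit 13) .nil)))))) (.g (nat_lit 0) .nil .nil))))))) (.nd (nat_lit 2) (.nd (nat_lit 3) (.nd (nat_lit 4) (.nd (nat_lit 5) 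
(.lf (nat_lit 53763) (.g (nat_lit 1924) (.e (nat_lit 1374) (nat_lit 104) (.e (nat_lit 303155) (nat_lit 29) (.e (nat_lit 352307) (nat_lit 21) (.e (nat_lit 57849) (nat_lit 252) (.e (nat_lit 57390) (nat_lit 5) (.e (nat_lit 114692) (nat_lit 0) (.e (nat_lit 6988) (nat_lit 377) .nil))))))) (.g (nat_lit 4) .nil .nil))) 
(.lf (nat_lit 53795) (.g (nat_lit 3327) (.e (nat_lit 1376) (nat_lit 104) (.e (nat_lit 303147) (nat_lit 15) (.e (nat_lit 1849) (nat_lit 124) (.e (nat_lit 557097) (nat_lit 13) (.e (nat_lit 172097) (nat_lit 9) (.e (nat_lit 426125) (nat_lit 2) (.e (nat_lit 196661) (nat_lit 12) (.e (nat_lit 57712) (nat_lit 176) .nil)))))))) (.g (nat_lit 0) .nil .nil)))) (.nd (nat_lit 5) 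
(.lf (nat_lit 53779) (.g (nat_lit 1640) (.e (nat_lit 1374) (nat_lit 104) (.e (nat_lit 303155) (nat_lit 29) (.e (nat_lit 352318) (nat_lit 24) (.e (nat_lit 123184) (nat_lit 264) (.e (nat_lit 1212) (nat_lit 89) (.e (nat_lit 73786) (nat_lit 45) .nil)))))) (.g (nat_lit 4) .nil .nil))) 
(.lf (nat_lit 53811) (.g (nat_lit 3343) (.e (nat_lit 1376) (nat_lit 104) (.e (nat_lit 303147) (nat_lit 15) (.e (nat_lit 1859) (nat_lit 124) (.e (nat_lit 557109) (nat_lit 15) (.e (nat_lit 188449) (nat_lit 22) (.e (nat_lit 196661) (nat_lit 12) (.e (nat_lit 57712) (nat_lit 176) .nil))))))) (.g (nat_lit 0) .nil .nil))))) (.nd (nat_lit 4) (.nd (nat_lit 5) 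
(.lf (nat_lit 53771) (.g (nat_lit 2311) (.e (nat_lit 1374) (nat_lit 104) (.e (nat_lit 303155) (nat_lit 29) (.e (nat_lit 352307) (nat_lit 21) (.e (nat_lit 57873) (nat_lit 264) (.e (nat_lit 1209) (nat_lit 89) (.e (nat_lit 81664) (nat_lit 45) .nil)))))) (.g (nat_lit 5) .nil .nil))) 
(.lf (nat_lit 53803) (.g (nat_lit 3509) (.e (nat_lit 1376) (nat_lit 104) (.e (nat_lit 303147) (nat_lit 15) (.e (nat_lit 1858) (nat_lit 124) (.e (nat_lit 557098) (nat_lit 13) (.e (nat_lit 172115) (nat_lit 10) (.e (nat_lit 434231) (nat_lit 23) (.e (nat_lit 532490) (nat_lit 0) (.e (nat_lit 6114) (nat_lit 332) .nil)))))))) (.g (nat_lit 4) .nil .nil)))) (.nd (nat_lit 5) 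
(.lf (nat_lit 53787) (.g (nat_lit 2598) (.e (nat_lit 1376) (nat_lit 104) (.e (nat_lit 303119) (nat_lit 3) (.e (nat_lit 204845) (nat_lit 24) (.e (nat_lit 319530) (nat_lit 16) (.e (nat_lit 286735) (nat_lit 3) .nil))))) .nil)) 
(.lf (nat_lit 53819) (.g (nat_lit 1750) (.e (nat_lit 1376) (nat_lit 104) (.e (nat_lit 303152) (nat_lit 27) (.e (nat_lit 336228) (nat_lit 14) (.e (nat_lit 401438) (nat_lit 9) (.e (nat_lit 426533) (nat_lit 28) (.e (nat_lit 344074) (nat_lit 13) .nil)))))) (.g (nat_lit 0) .nil .nil)))))) (.nd (nat_lit 3) (.nd (nat_lit 4) (.nd (nat_lit 5) 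
(.lf (nat_lit 53767) (.g (nat_lit 2040) (.e (nat_lit 1374) (nat_lit 104) (.e (nat_lit 303155) (nat_lit 29) (.e (nat_lit 352307) (nat_lit 21) (.e (nat_lit 57872) (nat_lit 264) (.e (nat_lit 1209) (nat_lit 89) (.e (nat_lit 73786) (nat_lit 45) .nil)))))) (.g (nat_lit 5) .nil .nil))) 
(.lf (nat_lit 53799) (.g (nat_lit 3960) (.e (nat_lit 1376) (nat_lit 104) (.e (nat_lit 303147) (nat_lit 15) (.e (nat_lit 1849) (nat_lit 124) (.e (nat_lit 557108) (nat_lit 15) (.e (nat_lit 188452) (nat_lit 23) (.e (nat_lit 204819) (nat_lit 17) (.e (nat_lit 6113) (nat_lit 332) .nil))))))) (.g (nat_lit 0) .nil .nil)))) (.nd (nat_lit 5) 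
(.lf (nat_lit 53783) (.g (nat_lit 1958) (.e (nat_lit 1376) (nat_lit 104) (.e (nat_lit 303118) (nat_lit 3) (.e (nat_lit 204885) (nat_lit 33) (.e (nat_lit 401448) (nat_lit 10) (.e (nat_lit 434231) (nat_lit 23) .nil))))) .nil)) 
(.lf (nat_lit 53815) (.g (nat_lit 632) (.e (nat_lit 1376) (nat_lit 104) (.e (nat_lit 303152) (nat_lit 27) (.e (nat_lit 336061) (nat_lit 7) (.e (nat_lit 327424) (nat_lit 18) .nil)))) .nil)))) (.nd (nat_lit 4) (.nd (nat_lit 5) 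
(.lf (nat_lit 53775) (.g (nat_lit 1925) (.e (nat_lit 1374) (nat_lit 104) (.e (nat_lit 303155) (nat_lit 29) (.e (nat_lit 352316) (nat_lit 24) (.e (nat_lit 123197) (nat_lit 266) (.e (nat_lit 57420) (nat_lit 13) (.e (nat_lit 344075) (nat_lit 13) .nil)))))) (.g (nat_lit 5) .nil .nil))) 
(.lf (nat_lit 53807) (.g (nat_lit 5427) (.e (nat_lit 1376) (nat_lit 104) (.e (nat_lit 303147) (nat_lit 15) (.e (nat_lit 1858) (nat_lit 124) (.e (nat_lit 557101) (nat_lit 13) (.e (nat_lit 172115) (nat_lit 10) (.e (nat_lit 434231) (nat_lit 23) (.e (nat_lit 532490) (nat_lit 0) (.e (nat_lit 6114) (nat_lit 332) .nil)))))))) (.g (nat_lit 0) .nil .nil)))) (.nd (nat_lit 5) 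
(.lf (nat_lit 53791) (.g (nat_lit 3701) (.e (nat_lit 1376) (nat_lit 104) (.e (nat_lit 303119) (nat_lit 3) (.e (nat_lit 204846) (nat_lit 24) (.e (nat_lit 319531) (nat_lit 16) (.e (nat_lit 286733) (nat_lit 2) .nil))))) .nil)) 
(.lf (nat_lit 53823) (.g (nat_lit 465) (.e (nat_lit 1376) (nat_lit 104) (.e (nat_lit 303154) (nat_lit 28) (.e (nat_lit 344067) (nat_lit 0) (.e (nat_lit 2940) (nat_lit 184) (.e (nat_lit 426532) (nat_lit 28) (.e (nat_lit 344075) (nat_lit 13) .nil)))))) (.g (nat_lit 0) .nil .nil)))))))))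

noncomputable def tv745 : DT := (.nd (nat_lit 0) (.nd (nat_lit 1) (.nd (nat_lit 2) (.nd (nat_lit 3) (.nd (nat_lit 4) (.nd (nat_lit 5) 
(.lf (nat_lit 53824) (.g (nat_lit 404) (.e (nat_lit 1376) (nat_lit 104) (.e (nat_lit 303154) (nat_lit 28) (.e (nat_lit 344067) (nat_lit 0) (.e (nat_lit 2941) (nat_lit 184) (.e (nat_lit 426532) (nat_lit 28) (.e (nat_lit 344075) (nat_lit 13) .nil)))))) (.g (nat_lit 0) .nil .nil))) 
(.lf (nat_lit 53856) (.g (nat_lit 1318) (.e (nat_lit 1376) (nat_lit 104) (.e (nat_lit 303155) (nat_lit 29) (.e (nat_lit 352287) (nat_lit 20) (.e (nat_lit 1998) (nat_lit 137) (.e (nat_lit 663554) (nat_lit 0) (.e (nat_lit 1543) (nat_lit 109) (.e (nat_lit 344075) (nat_lit 13) .nil))))))) (.g (nat_lit 0) .nil .nil)))) (.nd (nat_lit 5) 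
(.lf (nat_lit 53840) (.g (nat_lit 506) (.e (nat_lit 1376) (nat_lit 104) (.e (nat_lit 303154) (nat_lit 28) (.e (nat_lit 344084) (nat_lit 14) (.e (nat_lit 57864) (nat_lit 256) (.e (nat_lit 300) (nat_lit 22) (.e (nat_lit 344075) (nat_lit 13) .nil)))))) (.g (nat_lit 0) .nil .nil))) 
(.lf (nat_lit 53872) (.g (nat_lit 760) (.e (nat_lit 1376) (nat_lit 104) (.e (nat_lit 303155) (nat_lit 29) (.e (nat_lit 352316) (nat_lit 24) (.e (nat_lit 123185) (nat_lit 264) (.e (nat_lit 1213) (nat_lit 89) (.e (nat_lit 73786) (nat_lit 45) .nil)))))) (.g (nat_lit 4) .nil .nil))))) (.nd (nat_lit 4) (.nd (nat_lit 5) 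
(.lf (nat_lit 53832) (.g (nat_lit 432) (.e (nat_lit 1376) (nat_lit 104) (.e (nat_lit 303154) (nat_lit 28) (.e (nat_lit 344075) (nat_lit 13) (.e (nat_lit 1376) (nat_lit 104) (.e (nat_lit 303154) (nat_lit 28) (.e (nat_lit 344075) (nat_lit 13) .nil)))))) (.g (nat_lit 0) .nil .nil))) 
(.lf (nat_lit 53864) (.g (nat_lit 2087) (.e (nat_lit 1376) (nat_lit 104) (.e (nat_lit 303155) (nat_lit 29) (.e (nat_lit 352307) (nat_lit 21) (.e (nat_lit 57872) (nat_lit 264) (.e (nat_lit 1209) (nat_lit 89) (.e (nat_lit 73787) (nat_lit 45) .nil)))))) (.g (nat_lit 0) .nil .nil)))) (.nd (nat_lit 5) 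
(.lf (nat_lit 53848) (.g (nat_lit 584) (.e (nat_lit 1376) (nat_lit 104) (.e (nat_lit 303155) (nat_lit 29) (.e (nat_lit 352267) (nat_lit 0) (.e (nat_lit 3630) (nat_lit 227) (.e (nat_lit 778323) (nat_lit 5) .nil))))) .nil)) 
(.lf (nat_lit 53880) (.g (nat_lit 3370) (.e (nat_lit 1378) (nat_lit 104) (.e (nat_lit 303147) (nat_lit 15) (.e (nat_lit 1847) (nat_lit 124) (.e (nat_lit 557098) (nat_lit 13) (.e (nat_lit 172097) (nat_lit 9) (.e (nat_lit 426140) (nat_lit 3) (.e (nat_lit 204821) (nat_lit 17) (.e (nat_lit 6114) (nat_lit 332) .nil)))))))) (.g (nat_lit 7) .nil .nil)))))) 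
(.nd (nat_lit 3) (.nd (nat_lit 4) (.nd (nat_lit 5) 
(.lf (nat_lit 53828) (.g (nat_lit 1748) (.e (nat_lit 1376) (nat_lit 104) (.e (nat_lit 303154) (nat_lit 28) (.e (nat_lit 344069) (nat_lit 0) (.e (nat_lit 2857) (nat_lit 184) (.e (nat_lit 426533) (nat_lit 28) (.e (nat_lit 344074) (nat_lit 13) .nil)))))) (.g (nat_lit 0) .nil .nil))) 
(.lf (nat_lit 53860) (.g (nat_lit 648) (.e (nat_lit 1376) (nat_lit 104) (.e (nat_lit 303155) (nat_lit 29) (.e (nat_lit 352297) (nat_lit 20) (.e (nat_lit 2004) (nat_lit 138) (.e (nat_lit 671763) (nat_lit 5) (.e (nat_lit 73787) (nat_lit 45) .nil)))))) (.g (nat_lit 0) .nil .nil)))) (.nd (nat_lit 5) 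
(.lf (nat_lit 53844) (.g (nat_lit 563) (.e (nat_lit 1376) (nat_lit 104) (.e (nat_lit 303155) (nat_lit 29) (.e (nat_lit 352264) (nat_lit 0) (.e (nat_lit 3714) (nat_lit 227) (.e (nat_lit 778322) (nat_lit 5) (.e (nat_lit 73787) (nat_lit 45) .nil)))))) (.g (nat_lit 0) .nil .nil))) 
(.lf (nat_lit 53876) (.g (nat_lit 2249) (.e (nat_lit 1377) (nat_lit 104) (.e (nat_lit 303147) (nat_lit 15) (.e (nat_lit 1858) (nat_lit 124) (.e (nat_lit 557101) (nat_lit 13) (.e (nat_lit 172097) (nat_lit 9) .nil))))) .nil)))) (.nd (nat_lit 4) (.nd (nat_lit 5) 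
(.lf (nat_lit 53836) (.g (nat_lit 505) (.e (nat_lit 1376) (nat_lit 104) (.e (nat_lit 303154) (nat_lit 28) (.e (nat_lit 344077) (nat_lit 13) (.e (nat_lit 1384) (nat_lit 105) (.e (nat_lit 311357) (nat_lit 28) (.e (nat_lit 344075) (nat_lit 13) .nil)))))) (.g (nat_lit 0) .nil .nil))) 
(.lf (nat_lit 53868) (.g (nat_lit 1737) (.e (nat_lit 1376) (nat_lit 104) (.e (nat_lit 303155) (nat_lit 29) (.e (nat_lit 352316) (nat_lit 24) (.e (nat_lit 123182) (nat_lit 264) (.e (nat_lit 1212) (nat_lit 89) (.e (nat_lit 73787) (nat_lit 45) .nil)))))) (.g (nat_lit 0) .nil .nil)))) (.nd (nat_lit 5) 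
(.lf (nat_lit 53852) (.g (nat_lit 1830) (.e (nat_lit 1376) (nat_lit 104) (.e (nat_lit 303155) (nat_lit 29) (.e (nat_lit 352267) (nat_lit 0) (.e (nat_lit 3632) (nat_lit 227) (.e (nat_lit 778323) (nat_lit 5) (.e (nat_lit 81664) (nat_lit 45) .nil)))))) (.g (nat_lit 5) .nil .nil))) 
(.lf (nat_lit 53884) (.g (nat_lit 3300) (.e (nat_lit 1378) (nat_lit 104) (.e (nat_lit 303147) (nat_lit 15) (.e (nat_lit 1849) (nat_lit 124) (.e (nat_lit 557109) (nat_lit 15) (.e (nat_lit 188449) (nat_lit 22) (.e (nat_lit 196661) (nat_lit 12) (.e (nat_lit 57712) (nat_lit 176) .nil))))))) (.g (nat_lit 6) .nil .nil))))))) (.nd (nat_lit 2) (.nd (nat_lit 3) (.nd (nat_lit 4) (.nd (nat_lit 5) 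
(.lf (nat_lit 53826) (.g (nat_lit 1072) (.e (nat_lit 1376) (nat_lit 104) (.e (nat_lit 303154) (nat_lit 28) (.e (nat_lit 344069) (nat_lit 0) (.e (nat_lit 2855) (nat_lit 184) (.e (nat_lit 426533) (nat_lit 28) (.e (nat_lit 344075) (nat_lit 13) .nil)))))) (.g (nat_lit 0) .nil .nil))) 
(.lf (nat_lit 53858) (.g (nat_lit 1110) (.e (nat_lit 1376) (nat_lit 104) (.e (nat_lit 303155) (nat_lit 29) (.e (nat_lit 352287) (nat_lit 20) (.e (nat_lit 1999) (nat_lit 137) (.e (nat_lit 663568) (nat_lit 5) (.e (nat_lit 73787) (nat_lit 45) .nil)))))) (.g (nat_lit 0) .nil .nil)))) (.nd (nat_lit 5) 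
(.lf (nat_lit 53842) (.g (nat_lit 843) (.e (nat_lit 1376) (nat_lit 104) (.e (nat_lit 303154) (nat_lit 28) (.e (nat_lit 344085) (nat_lit 15) (.e (nat_lit 123165) (nat_lit 256) (.e (nat_lit 301) (nat_lit 22) (.e (nat_lit 344075) (nat_lit 13) .nil)))))) (.g (nat_lit 0) .nil .nil))) 
(.lf (nat_lit 53874) (.g (nat_lit 1674) (.e (nat_lit 1376) (nat_lit 104) (.e (nat_lit 303155) (nat_lit 29) (.e (nat_lit 352318) (nat_lit 24) (.e (nat_lit 123183) (nat_lit 264) (.e (nat_lit 1212) (nat_lit 89) (.e (nat_lit 73787) (nat_lit 45) .nil)))))) (.g (nat_lit 5) .nil .nil))))) (.nd (nat_lit 4) (.nd (nat_lit 5) 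
(.lf (nat_lit 53834) (.g (nat_lit 438) (.e (nat_lit 1376) (nat_lit 104) (.e (nat_lit 303154) (nat_lit 28) (.e (nat_lit 344075) (nat_lit 13) (.e (nat_lit 1379) (nat_lit 104) (.e (nat_lit 303154) (nat_lit 28) (.e (nat_lit 344075) (nat_lit 13) .nil)))))) (.g (nat_lit 0) .nil .nil))) 
(.lf (nat_lit 53866) (.g (nat_lit 1829) (.e (nat_lit 1376) (nat_lit 104) (.e (nat_lit 303155) (nat_lit 29) (.e (nat_lit 352307) (nat_lit 21) (.e (nat_lit 57873) (nat_lit 264) (.e (nat_lit 1209) (nat_lit 89) (.e (nat_lit 81664) (nat_lit 45) .nil)))))) (.g (nat_lit 5) .nil .nil)))) (.nd (nat_lit 5) 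
(.lf (nat_lit 53850) (.g (nat_lit 1522) (.e (nat_lit 1376) (nat_lit 104) (.e (nat_lit 303155) (nat_lit 29) (.e (nat_lit 352267) (nat_lit 0) (.e (nat_lit 3631) (nat_lit 227) (.e (nat_lit 778323) (nat_lit 5) (.e (nat_lit 73787) (nat_lit 45) .nil)))))) (.g (nat_lit 0) .nil .nil))) 
(.lf (nat_lit 53882) (.g (nat_lit 2155) (.e (nat_lit 1378) (nat_lit 104) (.e (nat_lit 303147) (nat_lit 15) (.e (nat_lit 1848) (nat_lit 124) (.e (nat_lit 557097) (nat_lit 13) (.e (nat_lit 172097) (nat_lit 9) .nil))))) .nil))))) (.nd (nat_lit 3) (.nd (nat_lit 4) (.nd (nat_lit 5) 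
(.lf (nat_lit 53830) (.g (nat_lit 940) (.e (nat_lit 1376) (nat_lit 104) (.e (nat_lit 303154) (nat_lit 28) (.e (nat_lit 344075) (nat_lit 13) (.e (nat_lit 1374) (nat_lit 104) (.e (nat_lit 303154) (nat_lit 28) (.e (nat_lit 344075) (nat_lit 13) .nil)))))) (.g (nat_lit 0) .nil .nil))) 
(.lf (nat_lit 53862) (.g (nat_lit 859) (.e (nat_lit 1376) (nat_lit 104) (.e (nat_lit 303155) (nat_lit 29) (.e (nat_lit 352297) (nat_lit 20) (.e (nat_lit 2006) (nat_lit 138) (.e (nat_lit 671763) (nat_lit 5) (.e (nat_lit 73787) (nat_lit 45) .nil)))))) (.g (nat_lit 0) .nil .nil)))) (.nd (nat_lit 5) 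
(.lf (nat_lit 53846) (.g (nat_lit 397) (.e (nat_lit 1376) (nat_lit 104) (.e (nat_lit 303155) (nat_lit 29) (.e (nat_lit 352264) (nat_lit 0) (.e (nat_lit 3716) (nat_lit 227) (.e (nat_lit 778322) (nat_lit 5) (.e (nat_lit 73787) (nat_lit 45) .nil)))))) (.g (nat_lit 0) .nil .nil))) 
(.lf (nat_lit 53878) (.g (nat_lit 2525) (.e (nat_lit 1378) (nat_lit 104) (.e (nat_lit 303147) (nat_lit 15) (.e (nat_lit 1846) (nat_lit 124) (.e (nat_lit 557101) (nat_lit 13) (.e (nat_lit 172097) (nat_lit 9) (.e (nat_lit 426140) (nat_lit 3) (.e (nat_lit 204821) (nat_lit 17) (.e (nat_lit 6114) (nat_lit 332) .nil)))))))) (.g (nat_lit 5) .nil .nil))))) (.nd (nat_lit 4) (.nd (nat_lit 5) 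
(.lf (nat_lit 53838) (.g (nat_lit 946) (.e (nat_lit 1376) (nat_lit 104) (.e (nat_lit 303154) (nat_lit 28) (.e (nat_lit 344077) (nat_lit 13) (.e (nat_lit 1386) (nat_lit 105) (.e (nat_lit 311357) (nat_lit 28) (.e (nat_lit 344075) (nat_lit 13) .nil)))))) (.g (nat_lit 0) .nil .nil))) 
(.lf (nat_lit 53870) (.g (nat_lit 1605) (.e (nat_lit 1376) (nat_lit 104) (.e (nat_lit 303155) (nat_lit 29) (.e (nat_lit 352316) (nat_lit 24) (.e (nat_lit 123184) (nat_lit 264) (.e (nat_lit 1212) (nat_lit 89) (.e (nat_lit 73787) (nat_lit 45) .nil)))))) (.g (nat_lit 0) .nil .nil)))) (.nd (nat_lit 5) 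
(.lf (nat_lit 53854) (.g (nat_lit 876) (.e (nat_lit 1376) (nat_lit 104) (.e (nat_lit 303155) (nat_lit 29) (.e (nat_lit 352287) (nat_lit 20) (.e (nat_lit 1994) (nat_lit 137) (.e (nat_lit 663568) (nat_lit 5) (.e (nat_lit 73787) (nat_lit 45) .nil)))))) (.g (nat_lit 0) .nil .nil))) 
(.lf (nat_lit 53886) (.g (nat_lit 1886) (.e (nat_lit 1378) (nat_lit 104) (.e (nat_lit 303147) (nat_lit 15) (.e (nat_lit 1855) (nat_lit 124) (.e (nat_lit 557100) (nat_lit 13) (.e (nat_lit 172106) (nat_lit 10) (.e (nat_lit 434231) (nat_lit 23) (.e (nat_lit 532490) (nat_lit 0) (.e (nat_lit 6114) (nat_lit 332) .nil)))))))) (.g (nat_lit 4) .nil .nil)))))))) 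
(.nd (nat_lit 1) (.nd (nat_lit 2) (.nd (nat_lit 3) (.nd (nat_lit 4) (.nd (nat_lit 5) 
(.lf (nat_lit 53825) (.g (nat_lit 917) (.e (nat_lit 1376) (nat_lit 104) (.e (nat_lit 303154) (nat_lit 28) (.e (nat_lit 344069) (nat_lit 0) (.e (nat_lit 2854) (nat_lit 184) (.e (nat_lit 426533) (nat_lit 28) (.e (nat_lit 344075) (nat_lit 13) .nil)))))) (.g (nat_lit 0) .nil .nil))) 
(.lf (nat_lit 53857) (.g (nat_lit 758) (.e (nat_lit 1376) (nat_lit 104) (.e (nat_lit 303155) (nat_lit 29) (.e (nat_lit 352287) (nat_lit 20) (.e (nat_lit 1998) (nat_lit 137) (.e (nat_lit 663568) (nat_lit 5) (.e (nat_lit 73787) (nat_lit 45) .nil)))))) (.g (nat_lit 0) .nil .nil)))) (.nd (nat_lit 5) 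
(.lf (nat_lit 53841) (.g (nat_lit 715) (.e (nat_lit 1376) (nat_lit 104) (.e (nat_lit 303154) (nat_lit 28) (.e (nat_lit 344085) (nat_lit 15) (.e (nat_lit 123163) (nat_lit 256) (.e (nat_lit 301) (nat_lit 22) (.e (nat_lit 344075) (nat_lit 13) .nil)))))) (.g (nat_lit 0) .nil .nil))) 
(.lf (nat_lit 53873) (.g (nat_lit 1371) (.e (nat_lit 1376) (nat_lit 104) (.e (nat_lit 303155) (nat_lit 29) (.e (nat_lit 352316) (nat_lit 24) (.e (nat_lit 123198) (nat_lit 266) (.e (nat_lit 57421) (nat_lit 13) (.e (nat_lit 344074) (nat_lit 13) .nil)))))) (.g (nat_lit 6) .nil .nil))))) (.nd (nat_lit 4) (.nd (nat_lit 5) 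
(.lf (nat_lit 53833) (.g (nat_lit 485) (.e (nat_lit 1376) (nat_lit 104) (.e (nat_lit 303154) (nat_lit 28) (.e (nat_lit 344075) (nat_lit 13) (.e (nat_lit 1378) (nat_lit 104) (.e (nat_lit 303154) (nat_lit 28) (.e (nat_lit 344075) (nat_lit 13) .nil)))))) (.g (nat_lit 0) .nil .nil))) 
(.lf (nat_lit 53865) (.g (nat_lit 1564) (.e (nat_lit 1376) (nat_lit 104) (.e (nat_lit 303155) (nat_lit 29) (.e (nat_lit 352307) (nat_lit 21) (.e (nat_lit 57872) (nat_lit 264) (.e (nat_lit 1211) (nat_lit 89) (.e (nat_lit 73786) (nat_lit 45) .nil)))))) (.g (nat_lit 5) .nil .nil)))) (.nd (nat_lit 5) 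
(.lf (nat_lit 53849) (.g (nat_lit 1083) (.e (nat_lit 1376) (nat_lit 104) (.e (nat_lit 303155) (nat_lit 29) (.e (nat_lit 352267) (nat_lit 0) (.e (nat_lit 3630) (nat_lit 227) (.e (nat_lit 778323) (nat_lit 5) (.e (nat_lit 73787) (nat_lit 45) .nil)))))) (.g (nat_lit 0) .nil .nil))) 
(.lf (nat_lit 53881) (.g (nat_lit 1033) (.e (nat_lit 1378) (nat_lit 104) (.e (nat_lit 303147) (nat_lit 15) (.e (nat_lit 1847) (nat_lit 124) (.e (nat_lit 557108) (nat_lit 15) .nil)))) .nil))))) (.nd (nat_lit 3) (.nd (nat_lit 4) (.nd (nat_lit 5) 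
(.lf (nat_lit 53829) (.g (nat_lit 1831) (.e (nat_lit 1376) (nat_lit 104) (.e (nat_lit 303154) (nat_lit 28) (.e (nat_lit 344069) (nat_lit 0) (.e (nat_lit 2857) (nat_lit 184) (.e (nat_lit 426533) (nat_lit 28) (.e (nat_lit 344075) (nat_lit 13) .nil)))))) (.g (nat_lit 0) .nil .nil))) 
(.lf (nat_lit 53861) (.g (nat_lit 673) (.e (nat_lit 1376) (nat_lit 104) (.e (nat_lit 303155) (nat_lit 29) (.e (nat_lit 352297) (nat_lit 20) (.e (nat_lit 2005) (nat_lit 138) (.e (nat_lit 671763) (nat_lit 5) (.e (nat_lit 73787) (nat_lit 45) .nil)))))) (.g (nat_lit 0) .nil .nil)))) (.nd (nat_lit 5) 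
(.lf (nat_lit 53845) (.g (nat_lit 662) (.e (nat_lit 1376) (nat_lit 104) (.e (nat_lit 303155) (nat_lit 29) (.e (nat_lit 352264) (nat_lit 0) (.e (nat_lit 3715) (nat_lit 227) (.e (nat_lit 778322) (nat_lit 5) (.e (nat_lit 73787) (nat_lit 45) .nil)))))) (.g (nat_lit 0) .nil .nil))) 
(.lf (nat_lit 53877) (.g (nat_lit 2367) (.e (nat_lit 1377) (nat_lit 104) (.e (nat_lit 303147) (nat_lit 15) (.e (nat_lit 1859) (nat_lit 124) (.e (nat_lit 557098) (nat_lit 13) (.e (nat_lit 172097) (nat_lit 9) .nil))))) .nil)))) (.nd (nat_lit 4) (.nd (nat_lit 5) 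
(.lf (nat_lit 53837) (.g (nat_lit 629) (.e (nat_lit 1376) (nat_lit 104) (.e (nat_lit 303154) (nat_lit 28) (.e (nat_lit 344077) (nat_lit 13) (.e (nat_lit 1385) (nat_lit 105) (.e (nat_lit 311357) (nat_lit 28) (.e (nat_lit 344075) (nat_lit 13) .nil)))))) (.g (nat_lit 0) .nil .nil))) 
(.lf (nat_lit 53869) (.g (nat_lit 2034) (.e (nat_lit 1376) (nat_lit 104) (.e (nat_lit 303155) (nat_lit 29) (.e (nat_lit 352316) (nat_lit 24) (.e (nat_lit 123182) (nat_lit 264) (.e (nat_lit 1214) (nat_lit 89) (.e (nat_lit 73786) (nat_lit 45) .nil)))))) (.g (nat_lit 5) .nil .nil)))) (.nd (nat_lit 5) 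
(.lf (nat_lit 53853) (.g (nat_lit 1488) (.e (nat_lit 1376) (nat_lit 104) (.e (nat_lit 303155) (nat_lit 29) (.e (nat_lit 352267) (nat_lit 0) (.e (nat_lit 3748) (nat_lit 228) (.e (nat_lit 786477) (nat_lit 28) (.e (nat_lit 344074) (nat_lit 13) .nil)))))) (.g (nat_lit 5) .nil .nil))) 
(.lf (nat_lit 53885) (.g (nat_lit 3169) (.e (nat_lit 1378) (nat_lit 104) (.e (nat_lit 303147) (nat_lit 15) (.e (nat_lit 1855) (nat_lit 124) (.e (nat_lit 557098) (nat_lit 13) (.e (nat_lit 172097) (nat_lit 9) (.e (nat_lit 426140) (nat_lit 3) (.e (nat_lit 204821) (nat_lit 17) (.e (nat_lit 6114) (nat_lit 332) .nil)))))))) (.g (nat_lit 5) .nil .nil))))))) 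
(.nd (nat_lit 2) (.nd (nat_lit 3) (.nd (nat_lit 4) (.nd (nat_lit 5) 
(.lf (nat_lit 53827) (.g (nat_lit 1872) (.e (nat_lit 1376) (nat_lit 104) (.e (nat_lit 303154) (nat_lit 28) (.e (nat_lit 344069) (nat_lit 0) (.e (nat_lit 2856) (nat_lit 184) (.e (nat_lit 426533) (nat_lit 28) (.e (nat_lit 344075) (nat_lit 13) .nil)))))) (.g (nat_lit 0) .nil .nil))) 
(.lf (nat_lit 53859) (.g (nat_lit 747) (.e (nat_lit 1376) (nat_lit 104) (.e (nat_lit 303155) (nat_lit 29) (.e (nat_lit 352297) (nat_lit 20) (.e (nat_lit 2003) (nat_lit 138) (.e (nat_lit 671763) (nat_lit 5) (.e (nat_lit 73787) (nat_lit 45) .nil)))))) (.g (nat_lit 0) .nil .nil)))) (.nd (nat_lit 5) 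
(.lf (nat_lit 53843) (.g (nat_lit 653) (.e (nat_lit 1376) (nat_lit 104) (.e (nat_lit 303155) (nat_lit 29) (.e (nat_lit 352264) (nat_lit 0) (.e (nat_lit 3711) (nat_lit 227) (.e (nat_lit 778322) (nat_lit 5) (.e (nat_lit 73787) (nat_lit 45) .nil)))))) (.g (nat_lit 0) .nil .nil))) 
(.lf (nat_lit 53875) (.g (nat_lit 1735) (.e (nat_lit 1376) (nat_lit 104) (.e (nat_lit 303155) (nat_lit 29) (.e (nat_lit 352318) (nat_lit 24) (.e (nat_lit 123184) (nat_lit 264) (.e (nat_lit 1212) (nat_lit 89) (.e (nat_lit 73787) (nat_lit 45) .nil)))))) (.g (nat_lit 5) .nil .nil))))) (.nd (nat_lit 4) (.nd (nat_lit 5) 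
(.lf (nat_lit 53835) (.g (nat_lit 471) (.e (nat_lit 1376) (nat_lit 104) (.e (nat_lit 303154) (nat_lit 28) (.e (nat_lit 344077) (nat_lit 13) (.e (nat_lit 1383) (nat_lit 105) (.e (nat_lit 311357) (nat_lit 28) (.e (nat_lit 344075) (nat_lit 13) .nil)))))) (.g (nat_lit 0) .nil .nil))) 
(.lf (nat_lit 53867) (.g (nat_lit 1965) (.e (nat_lit 1376) (nat_lit 104) (.e (nat_lit 303155) (nat_lit 29) (.e (nat_lit 352307) (nat_lit 21) (.e (nat_lit 57873) (nat_lit 264) (.e (nat_lit 1211) (nat_lit 89) (.e (nat_lit 81664) (nat_lit 45) .nil)))))) (.g (nat_lit 5) .nil .nil)))) (.nd (nat_lit 5) 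
(.lf (nat_lit 53851) (.g (nat_lit 2110) (.e (nat_lit 1376) (nat_lit 104) (.e (nat_lit 303155) (nat_lit 29) (.e (nat_lit 352267) (nat_lit 0) (.e (nat_lit 3632) (nat_lit 227) (.e (nat_lit 778323) (nat_lit 5) (.e (nat_lit 73787) (nat_lit 45) .nil)))))) (.g (nat_lit 0) .nil .nil))) 
(.lf (nat_lit 53883) (.g (nat_lit 2257) (.e (nat_lit 1378) (nat_lit 104) (.e (nat_lit 303147) (nat_lit 15) (.e (nat_lit 1848) (nat_lit 124) (.e (nat_lit 557097) (nat_lit 13) (.e (nat_lit 172097) (nat_lit 9) (.e (nat_lit 426140) (nat_lit 3) (.e (nat_lit 204821) (nat_lit 17) (.e (nat_lit 6114) (nat_lit 332) .nil)))))))) (.g (nat_lit 4) .nil .nil)))))) 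
(.nd (nat_lit 3) (.nd (nat_lit 4) (.nd (nat_lit 5) 
(.lf (nat_lit 53831) (.g (nat_lit 749) (.e (nat_lit 1376) (nat_lit 104) (.e (nat_lit 303154) (nat_lit 28) (.e (nat_lit 344075) (nat_lit 13) (.e (nat_lit 1374) (nat_lit 104) (.e (nat_lit 311040) (nat_lit 31) .nil))))) .nil)) 
(.lf (nat_lit 53863) (.g (nat_lit 1693) (.e (nat_lit 1376) (nat_lit 104) (.e (nat_lit 303155) (nat_lit 29) (.e (nat_lit 352307) (nat_lit 21) (.e (nat_lit 57870) (nat_lit 264) (.e (nat_lit 1209) (nat_lit 89) (.e (nat_lit 73787) (nat_lit 45) .nil)))))) (.g (nat_lit 0) .nil .nil)))) (.nd (nat_lit 5) 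
(.lf (nat_lit 53847) (.g (nat_lit 1086) (.e (nat_lit 1376) (nat_lit 104) (.e (nat_lit 303155) (nat_lit 29) (.e (nat_lit 352267) (nat_lit 0) (.e (nat_lit 3629) (nat_lit 227) (.e (nat_lit 778323) (nat_lit 5) (.e (nat_lit 73787) (nat_lit 45) .nil)))))) (.g (nat_lit 0) .nil .nil))) 
(.lf (nat_lit 53879) (.g (nat_lit 3085) (.e (nat_lit 1378) (nat_lit 104) (.e (nat_lit 303147) (nat_lit 15) (.e (nat_lit 1847) (nat_lit 124) (.e (nat_lit 557098) (nat_lit 13) (.e (nat_lit 172097) (nat_lit 9) (.e (nat_lit 426125) (nat_lit 2) (.e (nat_lit 196661) (nat_lit 12) (.e (nat_lit 57712) (nat_lit 176) .nil)))))))) (.g (nat_lit 6) .nil .nil))))) (.nd (nat_lit 4) (.nd (nat_lit 5) 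
(.lf (nat_lit 53839) (.g (nat_lit 477) (.e (nat_lit 1376) (nat_lit 104) (.e (nat_lit 303154) (nat_lit 28) (.e (nat_lit 344084) (nat_lit 14) (.e (nat_lit 57862) (nat_lit 256) (.e (nat_lit 300) (nat_lit 22) (.e (nat_lit 344075) (nat_lit 13) .nil)))))) (.g (nat_lit 0) .nil .nil))) 
(.lf (nat_lit 53871) (.g (nat_lit 1810) (.e (nat_lit 1376) (nat_lit 104) (.e (nat_lit 303155) (nat_lit 29) (.e (nat_lit 352316) (nat_lit 24) (.e (nat_lit 123184) (nat_lit 264) (.e (nat_lit 1214) (nat_lit 89) (.e (nat_lit 73786) (nat_lit 45) .nil)))))) (.g (nat_lit 5) .nil .nil)))) (.nd (nat_lit 5) 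
(.lf (nat_lit 53855) (.g (nat_lit 735) (.e (nat_lit 1376) (nat_lit 104) (.e (nat_lit 303155) (nat_lit 29) (.e (nat_lit 352287) (nat_lit 20) (.e (nat_lit 1996) (nat_lit 137) (.e (nat_lit 663568) (nat_lit 5) (.e (nat_lit 73787) (nat_lit 45) .nil)))))) (.g (nat_lit 0) .nil .nil))) 
(.lf (nat_lit 53887) (.g (nat_lit 2932) (.e (nat_lit 1378) (nat_lit 104) (.e (nat_lit 303147) (nat_lit 15) (.e (nat_lit 1855) (nat_lit 124) (.e (nat_lit 557101) (nat_lit 13) (.e (nat_lit 172097) (nat_lit 9) (.e (nat_lit 426140) (nat_lit 3) (.e (nat_lit 204821) (nat_lit 17) (.e (nat_lit 6114) (nat_lit 332) .nil)))))))) (.g (nat_lit 5) .nil .nil)))))))))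

noncomputable def tv746 : DT := (.nd (nat_lit 0) (.nd (nat_lit 1) (.nd (nat_lit 2) (.nd (nat_lit 3) (.nd (nat_lit 4) 
(.lf (nat_lit 53888) (.g (nat_lit 3466) (.e (nat_lit 1378) (nat_lit 104) (.e (nat_lit 303147) (nat_lit 15) (.e (nat_lit 1858) (nat_lit 124) (.e (nat_lit 557098) (nat_lit 13) (.e (nat_lit 172115) (nat_lit 10) (.e (nat_lit 434231) (nat_lit 23) (.e (nat_lit 532490) (nat_lit 0) (.e (nat_lit 6114) (nat_lit 332) .nil)))))))) (.g (nat_lit 4) .nil .nil))) 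
(.lf (nat_lit 53904) (.g (nat_lit 2531) (.e (nat_lit 1383) (nat_lit 105) (.e (nat_lit 311315) (nat_lit 3) (.e (nat_lit 204846) (nat_lit 24) (.e (nat_lit 319533) (nat_lit 16) (.e (nat_lit 286724) (nat_lit 0) (.e (nat_lit 1842) (nat_lit 123) (.e (nat_lit 548886) (nat_lit 8) (.e (nat_lit 57714) (nat_lit 176) .nil)))))))) (.g (nat_lit 5) .nil .nil)))) (.nd (nat_lit 4) 
(.lf (nat_lit 53896) (.g (nat_lit 3365) (.e (nat_lit 1379) (nat_lit 104) (.e (nat_lit 303147) (nat_lit 15) (.e (nat_lit 1858) (nat_lit 124) (.e (nat_lit 557098) (nat_lit 13) (.e (nat_lit 172115) (nat_lit 10) .nil))))) .nil)) 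
(.lf (nat_lit 53912) (.g (nat_lit 2954) (.e (nat_lit 1383) (nat_lit 105) (.e (nat_lit 311348) (nat_lit 15) (.e (nat_lit 1859) (nat_lit 124) (.e (nat_lit 557109) (nat_lit 15) (.e (nat_lit 188449) (nat_lit 22) (.e (nat_lit 196661) (nat_lit 12) (.e (nat_lit 57714) (nat_lit 176) .nil))))))) (.g (nat_lit 0) .nil .nil))))) (.nd (nat_lit 3) (.nd (nat_lit 4) 
(.lf (nat_lit 53892) (.g (nat_lit 1650) (.e (nat_lit 1378) (nat_lit 104) (.e (nat_lit 303155) (nat_lit 29) (.e (nat_lit 352318) (nat_lit 24) (.e (nat_lit 123183) (nat_lit 264) (.e (nat_lit 1212) (nat_lit 89) (.e (nat_lit 73787) (nat_lit 45) .nil)))))) (.g (nat_lit 5) .nil .nil))) 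
(.lf (nat_lit 53908) (.g (nat_lit 2243) (.e (nat_lit 1383) (nat_lit 105) (.e (nat_lit 311348) (nat_lit 15) (.e (nat_lit 1848) (nat_lit 124) (.e (nat_lit 557107) (nat_lit 15) (.e (nat_lit 188447) (nat_lit 22) (.e (nat_lit 196661) (nat_lit 12) (.e (nat_lit 57714) (nat_lit 176) .nil))))))) (.g (nat_lit 0) .nil .nil)))) (.nd (nat_lit 4) 
(.lf (nat_lit 53900) (.g (nat_lit 1773) (.e (nat_lit 1379) (nat_lit 104) (.e (nat_lit 303152) (nat_lit 27) (.e (nat_lit 336228) (nat_lit 14) (.e (nat_lit 401437) (nat_lit 9) (.e (nat_lit 426533) (nat_lit 28) (.e (nat_lit 344075) (nat_lit 13) .nil)))))) (.g (nat_lit 0) .nil .nil))) 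
(.lf (nat_lit 53916) (.g (nat_lit 601) (.e (nat_lit 1383) (nat_lit 105) (.e (nat_lit 311357) (nat_lit 28) (.e (nat_lit 344076) (nat_lit 13) (.e (nat_lit 1385) (nat_lit 105) (.e (nat_lit 311357) (nat_lit 28) (.e (nat_lit 344077) (nat_lit 13) .nil)))))) (.g (nat_lit 6) .nil .nil)))))) (.nd (nat_lit 2) (.nd (nat_lit 3) (.nd (nat_lit 4) 
(.lf (nat_lit 53890) (.g (nat_lit 3446) (.e (nat_lit 1378) (nat_lit 104) (.e (nat_lit 303147) (nat_lit 15) (.e (nat_lit 2030) (nat_lit 140) (.e (nat_lit 688177) (nat_lit 16) (.e (nat_lit 65586) (nat_lit 7) (.e (nat_lit 319531) (nat_lit 16) (.e (nat_lit 286727) (nat_lit 0) (.e (nat_lit 6092) (nat_lit 332) .nil)))))))) (.g (nat_lit 6) .nil .nil))) 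
(.lf (nat_lit 53906) (.g (nat_lit 3137) (.e (nat_lit 1383) (nat_lit 105) (.e (nat_lit 311348) (nat_lit 15) (.e (nat_lit 1848) (nat_lit 124) (.e (nat_lit 557097) (nat_lit 13) (.e (nat_lit 172097) (nat_lit 9) (.e (nat_lit 426140) (nat_lit 3) (.e (nat_lit 204821) (nat_lit 17) (.e (nat_lit 6136) (nat_lit 332) .nil)))))))) (.g (nat_lit 0) .nil .nil)))) (.nd (nat_lit 4) 
(.lf (nat_lit 53898) (.g (nat_lit 2179) (.e (nat_lit 1379) (nat_lit 104) (.e (nat_lit 303152) (nat_lit 27) (.e (nat_lit 336226) (nat_lit 14) (.e (nat_lit 401437) (nat_lit 9) (.e (nat_lit 426533) (nat_lit 28) (.e (nat_lit 344075) (nat_lit 13) .nil)))))) (.g (nat_lit 0) .nil .nil))) 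
(.lf (nat_lit 53914) (.g (nat_lit 1596) (.e (nat_lit 1383) (nat_lit 105) (.e (nat_lit 311357) (nat_lit 28) (.e (nat_lit 344068) (nat_lit 0) (.e (nat_lit 2857) (nat_lit 184) (.e (nat_lit 426533) (nat_lit 28) (.e (nat_lit 344077) (nat_lit 13) .nil)))))) (.g (nat_lit 0) .nil .nil))))) (.nd (nat_lit 3) (.nd (nat_lit 4) 
(.lf (nat_lit 53894) (.g (nat_lit 2458) (.e (nat_lit 1379) (nat_lit 104) (.e (nat_lit 303147) (nat_lit 15) (.e (nat_lit 1847) (nat_lit 124) (.e (nat_lit 557098) (nat_lit 13) (.e (nat_lit 172097) (nat_lit 9) (.e (nat_lit 426140) (nat_lit 3) (.e (nat_lit 204821) (nat_lit 17) (.e (nat_lit 6114) (nat_lit 332) .nil)))))))) (.g (nat_lit 5) .nil .nil))) 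
(.lf (nat_lit 53910) (.g (nat_lit 2420) (.e (nat_lit 1383) (nat_lit 105) (.e (nat_lit 311348) (nat_lit 15) (.e (nat_lit 1848) (nat_lit 124) (.e (nat_lit 557108) (nat_lit 15) (.e (nat_lit 188449) (nat_lit 22) (.e (nat_lit 196661) (nat_lit 12) (.e (nat_lit 57714) (nat_lit 176) .nil))))))) (.g (nat_lit 0) .nil .nil)))) (.nd (nat_lit 4) 
(.lf (nat_lit 53902) (.g (nat_lit 1679) (.e (nat_lit 1379) (nat_lit 104) (.e (nat_lit 303155) (nat_lit 29) (.e (nat_lit 352318) (nat_lit 24) (.e (nat_lit 123184) (nat_lit 264) (.e (nat_lit 1212) (nat_lit 89) (.e (nat_lit 73787) (nat_lit 45) .nil)))))) (.g (nat_lit 5) .nil .nil))) 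
(.lf (nat_lit 53918) (.g (nat_lit 646) (.e (nat_lit 1383) (nat_lit 105) (.e (nat_lit 311357) (nat_lit 28) (.e (nat_lit 344077) (nat_lit 13) (.e (nat_lit 1385) (nat_lit 105) (.e (nat_lit 311357) (nat_lit 28) (.e (nat_lit 344077) (nat_lit 13) .nil)))))) (.g (nat_lit 0) .nil .nil))))))) (.nd (nat_lit 1) (.nd (nat_lit 2) (.nd (nat_lit 3) (.nd (nat_lit 4) 
(.lf (nat_lit 53889) (.g (nat_lit 3153) (.e (nat_lit 1378) (nat_lit 104) (.e (nat_lit 303147) (nat_lit 15) (.e (nat_lit 1858) (nat_lit 124) (.e (nat_lit 557107) (nat_lit 15) (.e (nat_lit 188447) (nat_lit 22) .nil))))) .nil)) 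
(.lf (nat_lit 53905) (.g (nat_lit 3186) (.e (nat_lit 1383) (nat_lit 105) (.e (nat_lit 311348) (nat_lit 15) (.e (nat_lit 1848) (nat_lit 124) (.e (nat_lit 557097) (nat_lit 13) (.e (nat_lit 172097) (nat_lit 9) (.e (nat_lit 426125) (nat_lit 2) (.e (nat_lit 196661) (nat_lit 12) (.e (nat_lit 57714) (nat_lit 176) .nil)))))))) (.g (nat_lit 0) .nil .nil)))) (.nd (nat_lit 4) 
(.lf (nat_lit 53897) (.g (nat_lit 3155) (.e (nat_lit 1379) (nat_lit 104) (.e (nat_lit 303147) (nat_lit 15) (.e (nat_lit 1858) (nat_lit 124) (.e (nat_lit 557107) (nat_lit 15) (.e (nat_lit 188447) (nat_lit 22) .nil))))) .nil)) 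
(.lf (nat_lit 53913) (.g (nat_lit 435) (.e (nat_lit 1383) (nat_lit 105) (.e (nat_lit 311357) (nat_lit 28) (.e (nat_lit 344067) (nat_lit 0) (.e (nat_lit 2941) (nat_lit 184) (.e (nat_lit 426532) (nat_lit 28) (.e (nat_lit 344077) (nat_lit 13) .nil)))))) (.g (nat_lit 0) .nil .nil))))) (.nd (nat_lit 3) (.nd (nat_lit 4) 
(.lf (nat_lit 53893) (.g (nat_lit 1715) (.e (nat_lit 1378) (nat_lit 104) (.e (nat_lit 303155) (nat_lit 29) (.e (nat_lit 352318) (nat_lit 24) (.e (nat_lit 123184) (nat_lit 264) (.e (nat_lit 1212) (nat_lit 89) (.e (nat_lit 73787) (nat_lit 45) .nil)))))) (.g (nat_lit 5) .nil .nil))) 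
(.lf (nat_lit 53909) (.g (nat_lit 2330) (.e (nat_lit 1383) (nat_lit 105) (.e (nat_lit 311348) (nat_lit 15) (.e (nat_lit 1848) (nat_lit 124) (.e (nat_lit 557107) (nat_lit 15) (.e (nat_lit 188450) (nat_lit 23) (.e (nat_lit 204821) (nat_lit 17) (.e (nat_lit 6136) (nat_lit 332) .nil))))))) (.g (nat_lit 0) .nil .nil)))) (.nd (nat_lit 4) 
(.lf (nat_lit 53901) (.g (nat_lit 1614) (.e (nat_lit 1379) (nat_lit 104) (.e (nat_lit 303155) (nat_lit 29) (.e (nat_lit 352318) (nat_lit 24) (.e (nat_lit 123183) (nat_lit 264) (.e (nat_lit 1212) (nat_lit 89) (.e (nat_lit 73787) (nat_lit 45) .nil)))))) (.g (nat_lit 5) .nil .nil))) 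
(.lf (nat_lit 53917) (.g (nat_lit 508) (.e (nat_lit 1383) (nat_lit 105) (.e (nat_lit 311357) (nat_lit 28) (.e (nat_lit 344077) (nat_lit 13) (.e (nat_lit 1383) (nat_lit 105) (.e (nat_lit 311357) (nat_lit 28) (.e (nat_lit 344077) (nat_lit 13) .nil)))))) (.g (nat_lit 0) .nil .nil)))))) (.nd (nat_lit 2) (.nd (nat_lit 3) (.nd (nat_lit 4) 
(.lf (nat_lit 53891) (.g (nat_lit 2217) (.e (nat_lit 1378) (nat_lit 104) (.e (nat_lit 303152) (nat_lit 27) (.e (nat_lit 336226) (nat_lit 14) (.e (nat_lit 401437) (nat_lit 9) (.e (nat_lit 426533) (nat_lit 28) (.e (nat_lit 344075) (nat_lit 13) .nil)))))) (.g (nat_lit 0) .nil .nil))) 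
(.lf (nat_lit 53907) (.g (nat_lit 3809) (.e (nat_lit 1383) (nat_lit 105) (.e (nat_lit 311348) (nat_lit 15) (.e (nat_lit 1848) (nat_lit 124) (.e (nat_lit 557097) (nat_lit 13) (.e (nat_lit 172115) (nat_lit 10) (.e (nat_lit 434231) (nat_lit 23) (.e (nat_lit 532490) (nat_lit 0) (.e (nat_lit 6136) (nat_lit 332) .nil)))))))) (.g (nat_lit 0) .nil .nil)))) (.nd (nat_lit 4) 
(.lf (nat_lit 53899) (.g (nat_lit 2046) (.e (nat_lit 1379) (nat_lit 104) (.e (nat_lit 303152) (nat_lit 27) (.e (nat_lit 336227) (nat_lit 14) (.e (nat_lit 401459) (nat_lit 13) (.e (nat_lit 483354) (nat_lit 17) (.e (nat_lit 6114) (nat_lit 332) .nil)))))) (.g (nat_lit 6) .nil .nil))) 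
(.lf (nat_lit 53915) (.g (nat_lit 522) (.e (nat_lit 1383) (nat_lit 105) (.e (nat_lit 311357) (nat_lit 28) (.e (nat_lit 344075) (nat_lit 13) (.e (nat_lit 1378) (nat_lit 104) (.e (nat_lit 303154) (nat_lit 28) (.e (nat_lit 344077) (nat_lit 13) .nil)))))) (.g (nat_lit 0) .nil .nil))))) (.nd (nat_lit 3) (.nd (nat_lit 4) 
(.lf (nat_lit 53895) (.g (nat_lit 2305) (.e (nat_lit 1379) (nat_lit 104) (.e (nat_lit 303147) (nat_lit 15) (.e (nat_lit 1848) (nat_lit 124) (.e (nat_lit 557097) (nat_lit 13) (.e (nat_lit 172097) (nat_lit 9) .nil))))) .nil)) 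
(.lf (nat_lit 53911) (.g (nat_lit 3103) (.e (nat_lit 1383) (nat_lit 105) (.e (nat_lit 311348) (nat_lit 15) (.e (nat_lit 1848) (nat_lit 124) (.e (nat_lit 557108) (nat_lit 15) (.e (nat_lit 188452) (nat_lit 23) (.e (nat_lit 204821) (nat_lit 17) (.e (nat_lit 6136) (nat_lit 332) .nil))))))) (.g (nat_lit 0) .nil .nil)))) (.nd (nat_lit 4) 
(.lf (nat_lit 53903) (.g (nat_lit 1018) (.e (nat_lit 7936) (nat_lit 104) (.e (nat_lit 303127) (nat_lit 9) (.e (nat_lit 426428) (nat_lit 17) (.e (nat_lit 98048) (nat_lit 5) .nil)))) .nil)) 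
(.lf (nat_lit 53919) (.g (nat_lit 531) (.e (nat_lit 1383) (nat_lit 105) (.e (nat_lit 311357) (nat_lit 28) (.e (nat_lit 344084) (nat_lit 14) (.e (nat_lit 57864) (nat_lit 256) (.e (nat_lit 300) (nat_lit 22) (.e (nat_lit 344077) (nat_lit 13) .nil)))))) (.g (nat_lit 0) .nil .nil))))))))

noncomputable def tv747 : DT := (.nd (nat_lit 0) (.nd (nat_lit 1) (.nd (nat_lit 2) (.nd (nat_lit 3) (.nd (nat_lit 4) 
(.lf (nat_lit 53920) (.g (nat_lit 588) (.e (nat_lit 1383) (nat_lit 105) (.e (nat_lit 311358) (nat_lit 29) (.e (nat_lit 352264) (nat_lit 0) (.e (nat_lit 3711) (nat_lit 227) (.e (nat_lit 778322) (nat_lit 5) (.e (nat_lit 73791) (nat_lit 45) .nil)))))) (.g (nat_lit 4) .nil .nil))) 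
(.lf (nat_lit 53936) (.g (nat_lit 1091) (.e (nat_lit 1383) (nat_lit 105) (.e (nat_lit 311358) (nat_lit 29) (.e (nat_lit 352287) (nat_lit 20) (.e (nat_lit 1999) (nat_lit 137) (.e (nat_lit 663568) (nat_lit 5) (.e (nat_lit 73791) (nat_lit 45) .nil)))))) (.g (nat_lit 5) .nil .nil)))) (.nd (nat_lit 4) 
(.lf (nat_lit 53928) (.g (nat_lit 1312) (.e (nat_lit 1383) (nat_lit 105) (.e (nat_lit 311358) (nat_lit 29) (.e (nat_lit 352283) (nat_lit 20) (.e (nat_lit 1999) (nat_lit 137) (.e (nat_lit 663568) (nat_lit 5) (.e (nat_lit 73789) (nat_lit 45) .nil)))))) (.g (nat_lit 0) .nil .nil))) 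
(.lf (nat_lit 53944) (.g (nat_lit 1009) (.e (nat_lit 1383) (nat_lit 105) (.e (nat_lit 311358) (nat_lit 29) (.e (nat_lit 352303) (nat_lit 20) (.e (nat_lit 2003) (nat_lit 138) (.e (nat_lit 671763) (nat_lit 5) (.e (nat_lit 73789) (nat_lit 45) .nil)))))) (.g (nat_lit 5) .nil .nil))))) (.nd (nat_lit 3) (.nd (nat_lit 4) 
(.lf (nat_lit 53924) (.g (nat_lit 196) (.e (nat_lit 1383) (nat_lit 105) (.e (nat_lit 311358) (nat_lit 29) (.e (nat_lit 360192) (nat_lit 8) .nil))) .nil)) 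
(.lf (nat_lit 53940) (.g (nat_lit 1023) (.e (nat_lit 1383) (nat_lit 105) (.e (nat_lit 311358) (nat_lit 29) (.e (nat_lit 352296) (nat_lit 20) (.e (nat_lit 2004) (nat_lit 138) (.e (nat_lit 671763) (nat_lit 5) (.e (nat_lit 73789) (nat_lit 45) .nil)))))) (.g (nat_lit 6) .nil .nil)))) (.nd (nat_lit 4) 
(.lf (nat_lit 53932) (.g (nat_lit 615) (.e (nat_lit 1383) (nat_lit 105) (.e (nat_lit 311358) (nat_lit 29) (.e (nat_lit 352286) (nat_lit 20) (.e (nat_lit 1994) (nat_lit 137) (.e (nat_lit 663568) (nat_lit 5) (.e (nat_lit 73791) (nat_lit 45) .nil)))))) (.g (nat_lit 4) .nil .nil))) 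
(.lf (nat_lit 53948) (.g (nat_lit 1175) (.e (nat_lit 1383) (nat_lit 105) (.e (nat_lit 311358) (nat_lit 29) (.e (nat_lit 352307) (nat_lit 21) (.e (nat_lit 57873) (nat_lit 264) (.e (nat_lit 7936) (nat_lit 89) .nil))))) .nil))))) (.nd (nat_lit 2) (.nd (nat_lit 3) (.nd (nat_lit 4) 
(.lf (nat_lit 53922) (.g (nat_lit 598) (.e (nat_lit 1383) (nat_lit 105) (.e (nat_lit 311358) (nat_lit 29) (.e (nat_lit 352264) (nat_lit 0) (.e (nat_lit 3715) (nat_lit 227) (.e (nat_lit 778322) (nat_lit 5) (.e (nat_lit 73791) (nat_lit 45) .nil)))))) (.g (nat_lit 4) .nil .nil))) 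
(.lf (nat_lit 53938) (.g (nat_lit 1123) (.e (nat_lit 1383) (nat_lit 105) (.e (nat_lit 311358) (nat_lit 29) (.e (nat_lit 352290) (nat_lit 20) (.e (nat_lit 2006) (nat_lit 138) (.e (nat_lit 671763) (nat_lit 5) (.e (nat_lit 73789) (nat_lit 45) .nil)))))) (.g (nat_lit 0) .nil .nil)))) (.nd (nat_lit 4) 
(.lf (nat_lit 53930) (.g (nat_lit 1159) (.e (nat_lit 1383) (nat_lit 105) (.e (nat_lit 311358) (nat_lit 29) (.e (nat_lit 352285) (nat_lit 20) (.e (nat_lit 1999) (nat_lit 137) (.e (nat_lit 663568) (nat_lit 5) (.e (nat_lit 73789) (nat_lit 45) .nil)))))) (.g (nat_lit 6) .nil .nil))) 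
(.lf (nat_lit 53946) (.g (nat_lit 1119) (.e (nat_lit 1383) (nat_lit 105) (.e (nat_lit 311358) (nat_lit 29) (.e (nat_lit 352303) (nat_lit 20) (.e (nat_lit 2006) (nat_lit 138) (.e (nat_lit 671763) (nat_lit 5) (.e (nat_lit 73789) (nat_lit 45) .nil)))))) (.g (nat_lit 6) .nil .nil))))) (.nd (nat_lit 3) (.nd (nat_lit 4) 
(.lf (nat_lit 53926) (.g (nat_lit 1229) (.e (nat_lit 1383) (nat_lit 105) (.e (nat_lit 311358) (nat_lit 29) (.e (nat_lit 352283) (nat_lit 20) (.e (nat_lit 1994) (nat_lit 137) (.e (nat_lit 663568) (nat_lit 5) (.e (nat_lit 73789) (nat_lit 45) .nil)))))) (.g (nat_lit 0) .nil .nil))) 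
(.lf (nat_lit 53942) (.g (nat_lit 1207) (.e (nat_lit 1383) (nat_lit 105) (.e (nat_lit 311358) (nat_lit 29) (.e (nat_lit 352297) (nat_lit 20) (.e (nat_lit 2006) (nat_lit 138) (.e (nat_lit 671763) (nat_lit 5) (.e (nat_lit 73789) (nat_lit 45) .nil)))))) (.g (nat_lit 0) .nil .nil)))) (.nd (nat_lit 4) 
(.lf (nat_lit 53934) (.g (nat_lit 1101) (.e (nat_lit 1383) (nat_lit 105) (.e (nat_lit 311358) (nat_lit 29) (.e (nat_lit 352287) (nat_lit 20) (.e (nat_lit 1998) (nat_lit 137) (.e (nat_lit 663568) (nat_lit 5) (.e (nat_lit 73789) (nat_lit 45) .nil)))))) (.g (nat_lit 0) .nil .nil))) 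
(.lf (nat_lit 53950) (.g (nat_lit 2457) (.e (nat_lit 1383) (nat_lit 105) (.e (nat_lit 311358) (nat_lit 29) (.e (nat_lit 352309) (nat_lit 21) (.e (nat_lit 57871) (nat_lit 264) (.e (nat_lit 1209) (nat_lit 89) (.e (nat_lit 73789) (nat_lit 45) .nil)))))) (.g (nat_lit 6) .nil .nil))))))) (.nd (nat_lit 1) (.nd (nat_lit 2) (.nd (nat_lit 3) (.nd (nat_lit 4) 
(.lf (nat_lit 53921) (.g (nat_lit 481) (.e (nat_lit 1383) (nat_lit 105) (.e (nat_lit 311358) (nat_lit 29) (.e (nat_lit 352264) (nat_lit 0) (.e (nat_lit 3714) (nat_lit 227) (.e (nat_lit 778322) (nat_lit 5) .nil))))) .nil)) 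
(.lf (nat_lit 53937) (.g (nat_lit 1067) (.e (nat_lit 1383) (nat_lit 105) (.e (nat_lit 311358) (nat_lit 29) (.e (nat_lit 352290) (nat_lit 20) (.e (nat_lit 2005) (nat_lit 138) (.e (nat_lit 671763) (nat_lit 5) (.e (nat_lit 73789) (nat_lit 45) .nil)))))) (.g (nat_lit 0) .nil .nil)))) (.nd (nat_lit 4) 
(.lf (nat_lit 53929) (.g (nat_lit 955) (.e (nat_lit 1383) (nat_lit 105) (.e (nat_lit 311358) (nat_lit 29) (.e (nat_lit 352285) (nat_lit 20) (.e (nat_lit 1998) (nat_lit 137) (.e (nat_lit 663568) (nat_lit 5) (.e (nat_lit 73789) (nat_lit 45) .nil)))))) (.g (nat_lit 6) .nil .nil))) 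
(.lf (nat_lit 53945) (.g (nat_lit 1069) (.e (nat_lit 1383) (nat_lit 105) (.e (nat_lit 311358) (nat_lit 29) (.e (nat_lit 352303) (nat_lit 20) (.e (nat_lit 2005) (nat_lit 138) (.e (nat_lit 671763) (nat_lit 5) (.e (nat_lit 73789) (nat_lit 45) .nil)))))) (.g (nat_lit 6) .nil .nil))))) (.nd (nat_lit 3) (.nd (nat_lit 4) 
(.lf (nat_lit 53925) (.g (nat_lit 336) (.e (nat_lit 1383) (nat_lit 105) (.e (nat_lit 311358) (nat_lit 29) (.e (nat_lit 352280) (nat_lit 20) .nil))) .nil)) 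
(.lf (nat_lit 53941) (.g (nat_lit 1105) (.e (nat_lit 1383) (nat_lit 105) (.e (nat_lit 311358) (nat_lit 29) (.e (nat_lit 352297) (nat_lit 20) (.e (nat_lit 2003) (nat_lit 138) (.e (nat_lit 671763) (nat_lit 5) (.e (nat_lit 73789) (nat_lit 45) .nil)))))) (.g (nat_lit 0) .nil .nil)))) (.nd (nat_lit 4) 
(.lf (nat_lit 53933) (.g (nat_lit 1168) (.e (nat_lit 1383) (nat_lit 105) (.e (nat_lit 311358) (nat_lit 29) (.e (nat_lit 352286) (nat_lit 20) (.e (nat_lit 1999) (nat_lit 137) (.e (nat_lit 663568) (nat_lit 5) (.e (nat_lit 73789) (nat_lit 45) .nil)))))) (.g (nat_lit 0) .nil .nil))) 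
(.lf (nat_lit 53949) (.g (nat_lit 1741) (.e (nat_lit 1383) (nat_lit 105) (.e (nat_lit 311358) (nat_lit 29) (.e (nat_lit 352308) (nat_lit 21) (.e (nat_lit 57872) (nat_lit 264) (.e (nat_lit 1209) (nat_lit 89) (.e (nat_lit 73789) (nat_lit 45) .nil)))))) (.g (nat_lit 6) .nil .nil)))))) (.nd (nat_lit 2) (.nd (nat_lit 3) (.nd (nat_lit 4) 
(.lf (nat_lit 53923) (.g (nat_lit 196) (.e (nat_lit 1383) (nat_lit 105) (.e (nat_lit 311358) (nat_lit 29) (.e (nat_lit 360192) (nat_lit 4) .nil))) .nil)) 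
(.lf (nat_lit 53939) (.g (nat_lit 796) (.e (nat_lit 1383) (nat_lit 105) (.e (nat_lit 311358) (nat_lit 29) (.e (nat_lit 352290) (nat_lit 20) (.e (nat_lit 2006) (nat_lit 138) (.e (nat_lit 671763) (nat_lit 5) (.e (nat_lit 73791) (nat_lit 45) .nil)))))) (.g (nat_lit 5) .nil .nil)))) (.nd (nat_lit 4) 
(.lf (nat_lit 53931) (.g (nat_lit 233) (.e (nat_lit 1383) (nat_lit 105) (.e (nat_lit 311358) (nat_lit 29) (.e (nat_lit 352286) (nat_lit 20) .nil))) .nil)) 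
(.lf (nat_lit 53947) (.g (nat_lit 2136) (.e (nat_lit 1383) (nat_lit 105) (.e (nat_lit 311358) (nat_lit 29) (.e (nat_lit 352307) (nat_lit 21) (.e (nat_lit 57873) (nat_lit 264) (.e (nat_lit 1209) (nat_lit 89) (.e (nat_lit 73791) (nat_lit 45) .nil)))))) (.g (nat_lit 6) .nil .nil))))) (.nd (nat_lit 3) (.nd (nat_lit 4) 
(.lf (nat_lit 53927) (.g (nat_lit 1086) (.e (nat_lit 1383) (nat_lit 105) (.e (nat_lit 311358) (nat_lit 29) (.e (nat_lit 352283) (nat_lit 20) (.e (nat_lit 1998) (nat_lit 137) (.e (nat_lit 663568) (nat_lit 5) (.e (nat_lit 73789) (nat_lit 45) .nil)))))) (.g (nat_lit 0) .nil .nil))) 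
(.lf (nat_lit 53943) (.g (nat_lit 887) (.e (nat_lit 1383) (nat_lit 105) (.e (nat_lit 311358) (nat_lit 29) (.e (nat_lit 352297) (nat_lit 20) (.e (nat_lit 2006) (nat_lit 138) (.e (nat_lit 671763) (nat_lit 5) (.e (nat_lit 73791) (nat_lit 45) .nil)))))) (.g (nat_lit 5) .nil .nil)))) (.nd (nat_lit 4) 
(.lf (nat_lit 53935) (.g (nat_lit 1474) (.e (nat_lit 1383) (nat_lit 105) (.e (nat_lit 311358) (nat_lit 29) (.e (nat_lit 352287) (nat_lit 20) (.e (nat_lit 1999) (nat_lit 137) (.e (nat_lit 663568) (nat_lit 5) (.e (nat_lit 73789) (nat_lit 45) .nil)))))) (.g (nat_lit 0) .nil .nil))) 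
(.lf (nat_lit 53951) (.g (nat_lit 2786) (.e (nat_lit 1383) (nat_lit 105) (.e (nat_lit 311358) (nat_lit 29) (.e (nat_lit 352309) (nat_lit 21) (.e (nat_lit 57873) (nat_lit 264) (.e (nat_lit 1209) (nat_lit 89) (.e (nat_lit 73789) (nat_lit 45) .nil)))))) (.g (nat_lit 0) .nil .nil))))))))

noncomputable def tv748 : DT := (.nd (nat_lit 0) (.nd (nat_lit 1) (.nd (nat_lit 2) (.nd (nat_lit 3) (.nd (nat_lit 4) (.nd (nat_lit 5) 
(.lf (nat_lit 53952) (.g (nat_lit 1195) (.e (nat_lit 1383) (nat_lit 105) (.e (nat_lit 311358) (nat_lit 29) (.e (nat_lit 352309) (nat_lit 21) (.e (nat_lit 57873) (nat_lit 264) (.e (nat_lit 7936) (nat_lit 89) .nil))))) .nil)) 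
(.lf (nat_lit 53984) (.g (nat_lit 948) (.e (nat_lit 1384) (nat_lit 105) (.e (nat_lit 311357) (nat_lit 28) (.e (nat_lit 344069) (nat_lit 0) (.e (nat_lit 2854) (nat_lit 184) (.e (nat_lit 426533) (nat_lit 28) (.e (nat_lit 344077) (nat_lit 13) .nil)))))) (.g (nat_lit 0) .nil .nil)))) (.nd (nat_lit 5) 
(.lf (nat_lit 53968) (.g (nat_lit 2280) (.e (nat_lit 1384) (nat_lit 105) (.e (nat_lit 311348) (nat_lit 15) (.e (nat_lit 1849) (nat_lit 124) (.e (nat_lit 557108) (nat_lit 15) (.e (nat_lit 188449) (nat_lit 22) (.e (nat_lit 196661) (nat_lit 12) (.e (nat_lit 57714) (nat_lit 176) .nil))))))) (.g (nat_lit 0) .nil .nil))) 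
(.lf (nat_lit 54000) (.g (nat_lit 934) (.e (nat_lit 1384) (nat_lit 105) (.e (nat_lit 311358) (nat_lit 29) (.e (nat_lit 352264) (nat_lit 0) (.e (nat_lit 3714) (nat_lit 227) (.e (nat_lit 778322) (nat_lit 5) (.e (nat_lit 73789) (nat_lit 45) .nil)))))) (.g (nat_lit 0) .nil .nil))))) (.nd (nat_lit 4) (.nd (nat_lit 5) 
(.lf (nat_lit 53960) (.g (nat_lit 3866) (.e (nat_lit 1384) (nat_lit 105) (.e (nat_lit 311348) (nat_lit 15) (.e (nat_lit 1848) (nat_lit 124) (.e (nat_lit 557097) (nat_lit 13) (.e (nat_lit 172115) (nat_lit 10) (.e (nat_lit 434231) (nat_lit 23) (.e (nat_lit 532490) (nat_lit 0) (.e (nat_lit 6136) (nat_lit 332) .nil)))))))) (.g (nat_lit 0) .nil .nil))) 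
(.lf (nat_lit 53992) (.g (nat_lit 681) (.e (nat_lit 1384) (nat_lit 105) (.e (nat_lit 311357) (nat_lit 28) (.e (nat_lit 344077) (nat_lit 13) (.e (nat_lit 1385) (nat_lit 105) (.e (nat_lit 311357) (nat_lit 28) (.e (nat_lit 344077) (nat_lit 13) .nil)))))) (.g (nat_lit 0) .nil .nil)))) (.nd (nat_lit 5) 
(.lf (nat_lit 53976) (.g (nat_lit 2154) (.e (nat_lit 1384) (nat_lit 105) (.e (nat_lit 311353) (nat_lit 27) (.e (nat_lit 336200) (nat_lit 12) (.e (nat_lit 385094) (nat_lit 49) (.e (nat_lit 778323) (nat_lit 5) (.e (nat_lit 73789) (nat_lit 45) .nil)))))) (.g (nat_lit 6) .nil .nil))) 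
(.lf (nat_lit 54008) (.g (nat_lit 2443) (.e (nat_lit 1384) (nat_lit 105) (.e (nat_lit 311358) (nat_lit 29) (.e (nat_lit 352267) (nat_lit 0) (.e (nat_lit 3632) (nat_lit 227) (.e (nat_lit 778323) (nat_lit 5) (.e (nat_lit 73789) (nat_lit 45) .nil)))))) (.g (nat_lit 0) .nil .nil)))))) (.nd (nat_lit 3) (.nd (nat_lit 4) (.nd (nat_lit 5) 
(.lf (nat_lit 53956) (.g (nat_lit 1301) (.e (nat_lit 1383) (nat_lit 105) (.e (nat_lit 311358) (nat_lit 29) (.e (nat_lit 352318) (nat_lit 24) (.e (nat_lit 123185) (nat_lit 264) (.e (nat_lit 1214) (nat_lit 89) (.e (nat_lit 73791) (nat_lit 45) .nil)))))) (.g (nat_lit 5) .nil .nil))) 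
(.lf (nat_lit 53988) (.g (nat_lit 635) (.e (nat_lit 1384) (nat_lit 105) (.e (nat_lit 311357) (nat_lit 28) (.e (nat_lit 344076) (nat_lit 13) (.e (nat_lit 1385) (nat_lit 105) (.e (nat_lit 311357) (nat_lit 28) (.e (nat_lit 344077) (nat_lit 13) .nil)))))) (.g (nat_lit 6) .nil .nil)))) (.nd (nat_lit 5) 
(.lf (nat_lit 53972) (.g (nat_lit 3536) (.e (nat_lit 1384) (nat_lit 105) (.e (nat_lit 311348) (nat_lit 15) (.e (nat_lit 1859) (nat_lit 124) (.e (nat_lit 557098) (nat_lit 13) (.e (nat_lit 172097) (nat_lit 9) (.e (nat_lit 426125) (nat_lit 2) (.e (nat_lit 196661) (nat_lit 12) (.e (nat_lit 57714) (nat_lit 176) .nil)))))))) (.g (nat_lit 0) .nil .nil))) 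
(.lf (nat_lit 54004) (.g (nat_lit 1801) (.e (nat_lit 1384) (nat_lit 105) (.e (nat_lit 311358) (nat_lit 29) (.e (nat_lit 352265) (nat_lit 0) (.e (nat_lit 3631) (nat_lit 227) (.e (nat_lit 778323) (nat_lit 5) (.e (nat_lit 73789) (nat_lit 45) .nil)))))) (.g (nat_lit 6) .nil .nil))))) (.nd (nat_lit 4) (.nd (nat_lit 5) 
(.lf (nat_lit 53964) (.g (nat_lit 3168) (.e (nat_lit 1384) (nat_lit 105) (.e (nat_lit 311348) (nat_lit 15) (.e (nat_lit 1848) (nat_lit 124) (.e (nat_lit 557108) (nat_lit 15) (.e (nat_lit 188452) (nat_lit 23) (.e (nat_lit 204821) (nat_lit 17) (.e (nat_lit 6136) (nat_lit 332) .nil))))))) (.g (nat_lit 0) .nil .nil))) 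
(.lf (nat_lit 53996) (.g (nat_lit 782) (.e (nat_lit 1384) (nat_lit 105) (.e (nat_lit 311357) (nat_lit 28) (.e (nat_lit 344085) (nat_lit 15) (.e (nat_lit 123163) (nat_lit 256) (.e (nat_lit 301) (nat_lit 22) (.e (nat_lit 344077) (nat_lit 13) .nil)))))) (.g (nat_lit 0) .nil .nil)))) (.nd (nat_lit 5) 
(.lf (nat_lit 53980) (.g (nat_lit 526) (.e (nat_lit 1384) (nat_lit 105) (.e (nat_lit 311357) (nat_lit 28) (.e (nat_lit 344067) (nat_lit 0) (.e (nat_lit 2939) (nat_lit 184) (.e (nat_lit 426532) (nat_lit 28) (.e (nat_lit 344077) (nat_lit 13) .nil)))))) (.g (nat_lit 0) .nil .nil))) 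
(.lf (nat_lit 54012) (.g (nat_lit 1141) (.e (nat_lit 1384) (nat_lit 105) (.e (nat_lit 311358) (nat_lit 29) (.e (nat_lit 352285) (nat_lit 20) (.e (nat_lit 1999) (nat_lit 137) (.e (nat_lit 663568) (nat_lit 5) (.e (nat_lit 73789) (nat_lit 45) .nil)))))) (.g (nat_lit 6) .nil .nil))))))) (.nd (nat_lit 2) (.nd (nat_lit 3) (.nd (nat_lit 4) (.nd (nat_lit 5) 
(.lf (nat_lit 53954) (.g (nat_lit 542) (.e (nat_lit 1383) (nat_lit 105) (.e (nat_lit 311358) (nat_lit 29) (.e (nat_lit 352316) (nat_lit 24) (.e (nat_lit 123185) (nat_lit 264) (.e (nat_lit 7936) (nat_lit 89) .nil))))) .nil)) 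
(.lf (nat_lit 53986) (.g (nat_lit 1019) (.e (nat_lit 1384) (nat_lit 105) (.e (nat_lit 311357) (nat_lit 28) (.e (nat_lit 344075) (nat_lit 13) (.e (nat_lit 1374) (nat_lit 104) (.e (nat_lit 303154) (nat_lit 28) (.e (nat_lit 344077) (nat_lit 13) .nil)))))) (.g (nat_lit 0) .nil .nil)))) (.nd (nat_lit 5) 
(.lf (nat_lit 53970) (.g (nat_lit 3578) (.e (nat_lit 1384) (nat_lit 105) (.e (nat_lit 311348) (nat_lit 15) (.e (nat_lit 1858) (nat_lit 124) (.e (nat_lit 557101) (nat_lit 13) (.e (nat_lit 172097) (nat_lit 9) (.e (nat_lit 426125) (nat_lit 2) (.e (nat_lit 196661) (nat_lit 12) (.e (nat_lit 57714) (nat_lit 176) .nil)))))))) (.g (nat_lit 0) .nil .nil))) 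
(.lf (nat_lit 54002) (.g (nat_lit 1026) (.e (nat_lit 1384) (nat_lit 105) (.e (nat_lit 311358) (nat_lit 29) (.e (nat_lit 352264) (nat_lit 0) (.e (nat_lit 3715) (nat_lit 227) (.e (nat_lit 778322) (nat_lit 5) (.e (nat_lit 73789) (nat_lit 45) .nil)))))) (.g (nat_lit 0) .nil .nil))))) (.nd (nat_lit 4) (.nd (nat_lit 5) 
(.lf (nat_lit 53962) (.g (nat_lit 2386) (.e (nat_lit 1384) (nat_lit 105) (.e (nat_lit 311348) (nat_lit 15) (.e (nat_lit 1848) (nat_lit 124) (.e (nat_lit 557107) (nat_lit 15) (.e (nat_lit 188450) (nat_lit 23) (.e (nat_lit 204821) (nat_lit 17) (.e (nat_lit 6136) (nat_lit 332) .nil))))))) (.g (nat_lit 0) .nil .nil))) 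
(.lf (nat_lit 53994) (.g (nat_lit 574) (.e (nat_lit 1384) (nat_lit 105) (.e (nat_lit 311357) (nat_lit 28) (.e (nat_lit 344084) (nat_lit 14) (.e (nat_lit 57864) (nat_lit 256) (.e (nat_lit 300) (nat_lit 22) (.e (nat_lit 344077) (nat_lit 13) .nil)))))) (.g (nat_lit 0) .nil .nil)))) (.nd (nat_lit 5) 
(.lf (nat_lit 53978) (.g (nat_lit 1567) (.e (nat_lit 1384) (nat_lit 105) (.e (nat_lit 311353) (nat_lit 27) (.e (nat_lit 336228) (nat_lit 14) (.e (nat_lit 401438) (nat_lit 9) (.e (nat_lit 426533) (nat_lit 28) (.e (nat_lit 344077) (nat_lit 13) .nil)))))) (.g (nat_lit 0) .nil .nil))) 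
(.lf (nat_lit 54010) (.g (nat_lit 1100) (.e (nat_lit 1384) (nat_lit 105) (.e (nat_lit 311358) (nat_lit 29) (.e (nat_lit 352283) (nat_lit 20) (.e (nat_lit 1998) (nat_lit 137) (.e (nat_lit 663568) (nat_lit 5) (.e (nat_lit 73789) (nat_lit 45) .nil)))))) (.g (nat_lit 6) .nil .nil)))))) (.nd (nat_lit 3) (.nd (nat_lit 4) (.nd (nat_lit 5) 
(.lf (nat_lit 53958) (.g (nat_lit 3225) (.e (nat_lit 1384) (nat_lit 105) (.e (nat_lit 311348) (nat_lit 15) (.e (nat_lit 1848) (nat_lit 124) (.e (nat_lit 557097) (nat_lit 13) (.e (nat_lit 172097) (nat_lit 9) (.e (nat_lit 426125) (nat_lit 2) (.e (nat_lit 196661) (nat_lit 12) (.e (nat_lit 57714) (nat_lit 176) .nil)))))))) (.g (nat_lit 0) .nil .nil))) 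
(.lf (nat_lit 53990) (.g (nat_lit 542) (.e (nat_lit 1384) (nat_lit 105) (.e (nat_lit 311357) (nat_lit 28) (.e (nat_lit 344077) (nat_lit 13) (.e (nat_lit 1383) (nat_lit 105) (.e (nat_lit 311357) (nat_lit 28) (.e (nat_lit 344077) (nat_lit 13) .nil)))))) (.g (nat_lit 0) .nil .nil)))) (.nd (nat_lit 5) 
(.lf (nat_lit 53974) (.g (nat_lit 2294) (.e (nat_lit 1384) (nat_lit 105) (.e (nat_lit 311348) (nat_lit 15) (.e (nat_lit 1859) (nat_lit 124) (.e (nat_lit 557107) (nat_lit 15) (.e (nat_lit 188447) (nat_lit 22) (.e (nat_lit 196661) (nat_lit 12) (.e (nat_lit 57714) (nat_lit 176) .nil))))))) (.g (nat_lit 0) .nil .nil))) 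
(.lf (nat_lit 54006) (.g (nat_lit 1439) (.e (nat_lit 1384) (nat_lit 105) (.e (nat_lit 311358) (nat_lit 29) (.e (nat_lit 352267) (nat_lit 0) (.e (nat_lit 3630) (nat_lit 227) (.e (nat_lit 778323) (nat_lit 5) (.e (nat_lit 73789) (nat_lit 45) .nil)))))) (.g (nat_lit 0) .nil .nil))))) (.nd (nat_lit 4) (.nd (nat_lit 5) 
(.lf (nat_lit 53966) (.g (nat_lit 3547) (.e (nat_lit 1384) (nat_lit 105) (.e (nat_lit 311348) (nat_lit 15) (.e (nat_lit 1849) (nat_lit 124) (.e (nat_lit 557097) (nat_lit 13) (.e (nat_lit 172115) (nat_lit 10) (.e (nat_lit 434231) (nat_lit 23) (.e (nat_lit 532490) (nat_lit 0) (.e (nat_lit 6136) (nat_lit 332) .nil)))))))) (.g (nat_lit 0) .nil .nil))) 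
(.lf (nat_lit 53998) (.g (nat_lit 1024) (.e (nat_lit 1384) (nat_lit 105) (.e (nat_lit 311358) (nat_lit 29) (.e (nat_lit 352264) (nat_lit 0) (.e (nat_lit 3711) (nat_lit 227) (.e (nat_lit 778322) (nat_lit 5) (.e (nat_lit 73789) (nat_lit 45) .nil)))))) (.g (nat_lit 0) .nil .nil)))) (.nd (nat_lit 5) 
(.lf (nat_lit 53982) (.g (nat_lit 472) (.e (nat_lit 1384) (nat_lit 105) (.e (nat_lit 311357) (nat_lit 28) (.e (nat_lit 344067) (nat_lit 0) (.e (nat_lit 2941) (nat_lit 184) (.e (nat_lit 426532) (nat_lit 28) (.e (nat_lit 344077) (nat_lit 13) .nil)))))) (.g (nat_lit 0) .nil .nil))) 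
(.lf (nat_lit 54014) (.g (nat_lit 991) (.e (nat_lit 1384) (nat_lit 105) (.e (nat_lit 311358) (nat_lit 29) (.e (nat_lit 352286) (nat_lit 20) (.e (nat_lit 1996) (nat_lit 137) (.e (nat_lit 663568) (nat_lit 5) (.e (nat_lit 73789) (nat_lit 45) .nil)))))) (.g (nat_lit 6) .nil .nil)))))))) (.nd (nat_lit 1) (.nd (nat_lit 2) (.nd (nat_lit 3) (.nd (nat_lit 4) (.nd (nat_lit 5) 
(.lf (nat_lit 53953) (.g (nat_lit 1184) (.e (nat_lit 1383) (nat_lit 105) (.e (nat_lit 311358) (nat_lit 29) (.e (nat_lit 352316) (nat_lit 24) (.e (nat_lit 123185) (nat_lit 264) (.e (nat_lit 1214) (nat_lit 89) (.e (nat_lit 73791) (nat_lit 45) .nil)))))) (.g (nat_lit 5) .nil .nil))) 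
(.lf (nat_lit 53985) (.g (nat_lit 1876) (.e (nat_lit 1384) (nat_lit 105) (.e (nat_lit 311357) (nat_lit 28) (.e (nat_lit 344069) (nat_lit 0) (.e (nat_lit 2856) (nat_lit 184) (.e (nat_lit 426533) (nat_lit 28) (.e (nat_lit 344077) (nat_lit 13) .nil)))))) (.g (nat_lit 0) .nil .nil)))) (.nd (nat_lit 5) 
(.lf (nat_lit 53969) (.g (nat_lit 4477) (.e (nat_lit 1384) (nat_lit 105) (.e (nat_lit 311348) (nat_lit 15) (.e (nat_lit 1858) (nat_lit 124) (.e (nat_lit 557100) (nat_lit 13) (.e (nat_lit 172106) (nat_lit 10) (.e (nat_lit 434231) (nat_lit 23) (.e (nat_lit 532490) (nat_lit 0) (.e (nat_lit 6136) (nat_lit 332) .nil)))))))) (.g (nat_lit 0) .nil .nil))) 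
(.lf (nat_lit 54001) (.g (nat_lit 698) (.e (nat_lit 1384) (nat_lit 105) (.e (nat_lit 311358) (nat_lit 29) (.e (nat_lit 352264) (nat_lit 0) (.e (nat_lit 3714) (nat_lit 227) (.e (nat_lit 786176) (nat_lit 5) (.e (nat_lit 73789) (nat_lit 45) .nil)))))) (.g (nat_lit 4) .nil .nil))))) (.nd (nat_lit 4) (.nd (nat_lit 5) 
(.lf (nat_lit 53961) (.g (nat_lit 2290) (.e (nat_lit 1384) (nat_lit 105) (.e (nat_lit 311348) (nat_lit 15) (.e (nat_lit 1848) (nat_lit 124) (.e (nat_lit 557107) (nat_lit 15) (.e (nat_lit 188447) (nat_lit 22) (.e (nat_lit 196661) (nat_lit 12) (.e (nat_lit 57714) (nat_lit 176) .nil))))))) (.g (nat_lit 0) .nil .nil))) 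
(.lf (nat_lit 53993) (.g (nat_lit 987) (.e (nat_lit 1384) (nat_lit 105) (.e (nat_lit 311357) (nat_lit 28) (.e (nat_lit 344077) (nat_lit 13) (.e (nat_lit 1386) (nat_lit 105) (.e (nat_lit 311357) (nat_lit 28) (.e (nat_lit 344077) (nat_lit 13) .nil)))))) (.g (nat_lit 0) .nil .nil)))) (.nd (nat_lit 5) 
(.lf (nat_lit 53977) (.g (nat_lit 1692) (.e (nat_lit 1384) (nat_lit 105) (.e (nat_lit 311353) (nat_lit 27) (.e (nat_lit 336228) (nat_lit 14) (.e (nat_lit 401437) (nat_lit 9) (.e (nat_lit 426533) (nat_lit 28) (.e (nat_lit 344077) (nat_lit 13) .nil)))))) (.g (nat_lit 6) .nil .nil))) 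
(.lf (nat_lit 54009) (.g (nat_lit 1236) (.e (nat_lit 1384) (nat_lit 105) (.e (nat_lit 311358) (nat_lit 29) (.e (nat_lit 352283) (nat_lit 20) (.e (nat_lit 1994) (nat_lit 137) (.e (nat_lit 663568) (nat_lit 5) (.e (nat_lit 73789) (nat_lit 45) .nil)))))) (.g (nat_lit 6) .nil .nil)))))) (.nd (nat_lit 3) (.nd (nat_lit 4) (.nd (nat_lit 5) 
(.lf (nat_lit 53957) (.g (nat_lit 657) (.e (nat_lit 1383) (nat_lit 105) (.e (nat_lit 311358) (nat_lit 29) (.e (nat_lit 352318) (nat_lit 24) (.e (nat_lit 123185) (nat_lit 264) (.e (nat_lit 7936) (nat_lit 89) .nil))))) .nil)) 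
(.lf (nat_lit 53989) (.g (nat_lit 898) (.e (nat_lit 1384) (nat_lit 105) (.e (nat_lit 311357) (nat_lit 28) (.e (nat_lit 344076) (nat_lit 13) (.e (nat_lit 1386) (nat_lit 105) (.e (nat_lit 311357) (nat_lit 28) (.e (nat_lit 344077) (nat_lit 13) .nil)))))) (.g (nat_lit 6) .nil .nil)))) (.nd (nat_lit 5) 
(.lf (nat_lit 53973) (.g (nat_lit 3963) (.e (nat_lit 1384) (nat_lit 105) (.e (nat_lit 311348) (nat_lit 15) (.e (nat_lit 1859) (nat_lit 124) (.e (nat_lit 557098) (nat_lit 13) (.e (nat_lit 172115) (nat_lit 10) (.e (nat_lit 434231) (nat_lit 23) (.e (nat_lit 532490) (nat_lit 0) (.e (nat_lit 6136) (nat_lit 332) .nil)))))))) (.g (nat_lit 0) .nil .nil))) 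
(.lf (nat_lit 54005) (.g (nat_lit 1444) (.e (nat_lit 1384) (nat_lit 105) (.e (nat_lit 311358) (nat_lit 29) (.e (nat_lit 352267) (nat_lit 0) (.e (nat_lit 3629) (nat_lit 227) (.e (nat_lit 778323) (nat_lit 5) (.e (nat_lit 73789) (nat_lit 45) .nil)))))) (.g (nat_lit 0) .nil .nil))))) (.nd (nat_lit 4) (.nd (nat_lit 5) 
(.lf (nat_lit 53965) (.g (nat_lit 2909) (.e (nat_lit 1384) (nat_lit 105) (.e (nat_lit 311348) (nat_lit 15) (.e (nat_lit 1849) (nat_lit 124) (.e (nat_lit 557097) (nat_lit 13) (.e (nat_lit 172097) (nat_lit 9) (.e (nat_lit 426125) (nat_lit 2) (.e (nat_lit 196661) (nat_lit 12) (.e (nat_lit 57714) (nat_lit 176) .nil)))))))) (.g (nat_lit 0) .nil .nil))) 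
(.lf (nat_lit 53997) (.g (nat_lit 897) (.e (nat_lit 1384) (nat_lit 105) (.e (nat_lit 311357) (nat_lit 28) (.e (nat_lit 344085) (nat_lit 15) (.e (nat_lit 123165) (nat_lit 256) (.e (nat_lit 301) (nat_lit 22) (.e (nat_lit 344077) (nat_lit 13) .nil)))))) (.g (nat_lit 0) .nil .nil)))) (.nd (nat_lit 5) 
(.lf (nat_lit 53981) (.g (nat_lit 527) (.e (nat_lit 1384) (nat_lit 105) (.e (nat_lit 311357) (nat_lit 28) (.e (nat_lit 344067) (nat_lit 0) (.e (nat_lit 2940) (nat_lit 184) (.e (nat_lit 426532) (nat_lit 28) (.e (nat_lit 344077) (nat_lit 13) .nil)))))) (.g (nat_lit 0) .nil .nil))) 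
(.lf (nat_lit 54013) (.g (nat_lit 229) (.e (nat_lit 1384) (nat_lit 105) (.e (nat_lit 311358) (nat_lit 29) (.e (nat_lit 352286) (nat_lit 20) .nil))) .nil)))))) (.nd (nat_lit 2) (.nd (nat_lit 3) (.nd (nat_lit 4) (.nd (nat_lit 5) 
(.lf (nat_lit 53955) (.g (nat_lit 1158) (.e (nat_lit 1383) (nat_lit 105) (.e (nat_lit 311358) (nat_lit 29) (.e (nat_lit 352317) (nat_lit 24) (.e (nat_lit 123182) (nat_lit 264) (.e (nat_lit 1212) (nat_lit 89) (.e (nat_lit 73789) (nat_lit 45) .nil)))))) (.g (nat_lit 4) .nil .nil))) 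
(.lf (nat_lit 53987) (.g (nat_lit 553) (.e (nat_lit 1384) (nat_lit 105) (.e (nat_lit 311357) (nat_lit 28) (.e (nat_lit 344075) (nat_lit 13) (.e (nat_lit 1378) (nat_lit 104) (.e (nat_lit 303154) (nat_lit 28) (.e (nat_lit 344077) (nat_lit 13) .nil)))))) (.g (nat_lit 0) .nil .nil)))) (.nd (nat_lit 5) 
(.lf (nat_lit 53971) (.g (nat_lit 3979) (.e (nat_lit 1384) (nat_lit 105) (.e (nat_lit 311348) (nat_lit 15) (.e (nat_lit 1858) (nat_lit 124) (.e (nat_lit 557101) (nat_lit 13) (.e (nat_lit 172115) (nat_lit 10) (.e (nat_lit 434231) (nat_lit 23) (.e (nat_lit 532490) (nat_lit 0) (.e (nat_lit 6136) (nat_lit 332) .nil)))))))) (.g (nat_lit 0) .nil .nil))) 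
(.lf (nat_lit 54003) (.g (nat_lit 751) (.e (nat_lit 1384) (nat_lit 105) (.e (nat_lit 311358) (nat_lit 29) (.e (nat_lit 352264) (nat_lit 0) (.e (nat_lit 3716) (nat_lit 227) (.e (nat_lit 778322) (nat_lit 5) (.e (nat_lit 73789) (nat_lit 45) .nil)))))) (.g (nat_lit 0) .nil .nil))))) (.nd (nat_lit 4) (.nd (nat_lit 5) 
(.lf (nat_lit 53963) (.g (nat_lit 2464) (.e (nat_lit 1384) (nat_lit 105) (.e (nat_lit 311348) (nat_lit 15) (.e (nat_lit 1848) (nat_lit 124) (.e (nat_lit 557108) (nat_lit 15) (.e (nat_lit 188449) (nat_lit 22) (.e (nat_lit 196661) (nat_lit 12) (.e (nat_lit 57714) (nat_lit 176) .nil))))))) (.g (nat_lit 0) .nil .nil))) 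
(.lf (nat_lit 53995) (.g (nat_lit 515) (.e (nat_lit 1384) (nat_lit 105) (.e (nat_lit 311357) (nat_lit 28) (.e (nat_lit 344084) (nat_lit 14) (.e (nat_lit 57865) (nat_lit 256) (.e (nat_lit 300) (nat_lit 22) (.e (nat_lit 344077) (nat_lit 13) .nil)))))) (.g (nat_lit 0) .nil .nil)))) (.nd (nat_lit 5) 
(.lf (nat_lit 53979) (.g (nat_lit 570) (.e (nat_lit 1384) (nat_lit 105) (.e (nat_lit 311357) (nat_lit 28) (.e (nat_lit 344067) (nat_lit 0) (.e (nat_lit 2936) (nat_lit 184) (.e (nat_lit 426532) (nat_lit 28) (.e (nat_lit 344077) (nat_lit 13) .nil)))))) (.g (nat_lit 0) .nil .nil))) 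
(.lf (nat_lit 54011) (.g (nat_lit 950) (.e (nat_lit 1384) (nat_lit 105) (.e (nat_lit 311358) (nat_lit 29) (.e (nat_lit 352285) (nat_lit 20) (.e (nat_lit 1998) (nat_lit 137) (.e (nat_lit 663568) (nat_lit 5) (.e (nat_lit 73789) (nat_lit 45) .nil)))))) (.g (nat_lit 6) .nil .nil)))))) (.nd (nat_lit 3) (.nd (nat_lit 4) (.nd (nat_lit 5) 
(.lf (nat_lit 53959) (.g (nat_lit 3196) (.e (nat_lit 1384) (nat_lit 105) (.e (nat_lit 311348) (nat_lit 15) (.e (nat_lit 1848) (nat_lit 124) (.e (nat_lit 557097) (nat_lit 13) (.e (nat_lit 172097) (nat_lit 9) (.e (nat_lit 426140) (nat_lit 3) (.e (nat_lit 204821) (nat_lit 17) (.e (nat_lit 6136) (nat_lit 332) .nil)))))))) (.g (nat_lit 0) .nil .nil))) 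
(.lf (nat_lit 53991) (.g (nat_lit 578) (.e (nat_lit 1384) (nat_lit 105) (.e (nat_lit 311357) (nat_lit 28) (.e (nat_lit 344077) (nat_lit 13) (.e (nat_lit 1384) (nat_lit 105) (.e (nat_lit 311357) (nat_lit 28) (.e (nat_lit 344077) (nat_lit 13) .nil)))))) (.g (nat_lit 0) .nil .nil)))) (.nd (nat_lit 5) 
(.lf (nat_lit 53975) (.g (nat_lit 2979) (.e (nat_lit 1384) (nat_lit 105) (.e (nat_lit 311348) (nat_lit 15) (.e (nat_lit 1859) (nat_lit 124) (.e (nat_lit 557109) (nat_lit 15) (.e (nat_lit 188449) (nat_lit 22) (.e (nat_lit 196661) (nat_lit 12) (.e (nat_lit 57714) (nat_lit 176) .nil))))))) (.g (nat_lit 0) .nil .nil))) 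
(.lf (nat_lit 54007) (.g (nat_lit 1874) (.e (nat_lit 1384) (nat_lit 105) (.e (nat_lit 311358) (nat_lit 29) (.e (nat_lit 352267) (nat_lit 0) (.e (nat_lit 3631) (nat_lit 227) (.e (nat_lit 778323) (nat_lit 5) (.e (nat_lit 73789) (nat_lit 45) .nil)))))) (.g (nat_lit 0) .nil .nil))))) (.nd (nat_lit 4) (.nd (nat_lit 5) 
(.lf (nat_lit 53967) (.g (nat_lit 2093) (.e (nat_lit 1384) (nat_lit 105) (.e (nat_lit 311348) (nat_lit 15) (.e (nat_lit 1849) (nat_lit 124) (.e (nat_lit 557107) (nat_lit 15) (.e (nat_lit 188447) (nat_lit 22) (.e (nat_lit 196661) (nat_lit 12) (.e (nat_lit 57714) (nat_lit 176) .nil))))))) (.g (nat_lit 0) .nil .nil))) 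
(.lf (nat_lit 53999) (.g (nat_lit 684) (.e (nat_lit 1384) (nat_lit 105) (.e (nat_lit 311358) (nat_lit 29) (.e (nat_lit 352264) (nat_lit 0) (.e (nat_lit 3711) (nat_lit 227) (.e (nat_lit 786176) (nat_lit 5) (.e (nat_lit 73789) (nat_lit 45) .nil)))))) (.g (nat_lit 4) .nil .nil)))) (.nd (nat_lit 5) 
(.lf (nat_lit 53983) (.g (nat_lit 1628) (.e (nat_lit 1384) (nat_lit 105) (.e (nat_lit 311357) (nat_lit 28) (.e (nat_lit 344068) (nat_lit 0) (.e (nat_lit 2857) (nat_lit 184) (.e (nat_lit 426533) (nat_lit 28) (.e (nat_lit 344077) (nat_lit 13) .nil)))))) (.g (nat_lit 0) .nil .nil))) 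
(.lf (nat_lit 54015) (.g (nat_lit 1148) (.e (nat_lit 1384) (nat_lit 105) (.e (nat_lit 311358) (nat_lit 29) (.e (nat_lit 352286) (nat_lit 20) (.e (nat_lit 1999) (nat_lit 137) (.e (nat_lit 663568) (nat_lit 5) (.e (nat_lit 73789) (nat_lit 45) .nil)))))) (.g (nat_lit 6) .nil .nil)))))))))

noncomputable def tv749 : DT := (.nd (nat_lit 0) (.nd (nat_lit 1) (.nd (nat_lit 2) (.nd (nat_lit 3) (.nd (nat_lit 4) (.nd (nat_lit 5) 
(.lf (nat_lit 54016) (.g (nat_lit 1229) (.e (nat_lit 1384) (nat_lit 105) (.e (nat_lit 311358) (nat_lit 29) (.e (nat_lit 352287) (nat_lit 20) (.e (nat_lit 1994) (nat_lit 137) (.e (nat_lit 663568) (nat_lit 5) (.e (nat_lit 73789) (nat_lit 45) .nil)))))) (.g (nat_lit 0) .nil .nil))) 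
(.lf (nat_lit 54048) (.g (nat_lit 2075) (.e (nat_lit 1385) (nat_lit 105) (.e (nat_lit 311315) (nat_lit 3) (.e (nat_lit 204846) (nat_lit 24) (.e (nat_lit 319534) (nat_lit 16) (.e (nat_lit 286728) (nat_lit 0) (.e (nat_lit 1842) (nat_lit 123) (.e (nat_lit 548886) (nat_lit 8) (.e (nat_lit 57717) (nat_lit 176) .nil)))))))) (.g (nat_lit 4) .nil .nil)))) (.nd (nat_lit 5) 
(.lf (nat_lit 54032) (.g (nat_lit 1110) (.e (nat_lit 1384) (nat_lit 105) (.e (nat_lit 311358) (nat_lit 29) (.e (nat_lit 352303) (nat_lit 20) (.e (nat_lit 2006) (nat_lit 138) (.e (nat_lit 671763) (nat_lit 5) (.e (nat_lit 73789) (nat_lit 45) .nil)))))) (.g (nat_lit 6) .nil .nil))) 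
(.lf (nat_lit 54064) (.g (nat_lit 776) (.e (nat_lit 1385) (nat_lit 105) (.e (nat_lit 311357) (nat_lit 28) (.e (nat_lit 344066) (nat_lit 0) (.e (nat_lit 2939) (nat_lit 184) (.e (nat_lit 426532) (nat_lit 28) (.e (nat_lit 344076) (nat_lit 13) .nil)))))) (.g (nat_lit 6) .nil .nil))))) (.nd (nat_lit 4) (.nd (nat_lit 5) 
(.lf (nat_lit 54024) (.g (nat_lit 969) (.e (nat_lit 1384) (nat_lit 105) (.e (nat_lit 311358) (nat_lit 29) (.e (nat_lit 352296) (nat_lit 20) (.e (nat_lit 2005) (nat_lit 138) (.e (nat_lit 671763) (nat_lit 5) (.e (nat_lit 73789) (nat_lit 45) .nil)))))) (.g (nat_lit 6) .nil .nil))) 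
(.lf (nat_lit 54056) (.g (nat_lit 1232) (.e (nat_lit 1385) (nat_lit 105) (.e (nat_lit 311344) (nat_lit 13) (.e (nat_lit 483350) (nat_lit 17) (.e (nat_lit 2381) (nat_lit 155) .nil)))) .nil))) (.nd (nat_lit 5) 
(.lf (nat_lit 54040) (.g (nat_lit 1663) (.e (nat_lit 1384) (nat_lit 105) (.e (nat_lit 311358) (nat_lit 29) (.e (nat_lit 352316) (nat_lit 24) (.e (nat_lit 123185) (nat_lit 264) (.e (nat_lit 1212) (nat_lit 89) (.e (nat_lit 73789) (nat_lit 45) .nil)))))) (.g (nat_lit 0) .nil .nil))) 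
(.lf (nat_lit 54072) (.g (nat_lit 1916) (.e (nat_lit 1385) (nat_lit 105) (.e (nat_lit 311357) (nat_lit 28) (.e (nat_lit 344069) (nat_lit 0) (.e (nat_lit 2857) (nat_lit 184) (.e (nat_lit 426533) (nat_lit 28) (.e (nat_lit 344074) (nat_lit 13) .nil)))))) (.g (nat_lit 0) .nil .nil)))))) (.nd (nat_lit 3) (.nd (nat_lit 4) (.nd (nat_lit 5) 
(.lf (nat_lit 54020) (.g (nat_lit 1075) (.e (nat_lit 1384) (nat_lit 105) (.e (nat_lit 311358) (nat_lit 29) (.e (nat_lit 352290) (nat_lit 20) (.e (nat_lit 2003) (nat_lit 138) (.e (nat_lit 671763) (nat_lit 5) (.e (nat_lit 73789) (nat_lit 45) .nil)))))) (.g (nat_lit 6) .nil .nil))) 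
(.lf (nat_lit 54052) (.g (nat_lit 1155) (.e (nat_lit 1385) (nat_lit 105) (.e (nat_lit 311343) (nat_lit 13) (.e (nat_lit 483350) (nat_lit 17) (.e (nat_lit 2381) (nat_lit 155) (.e (nat_lit 811023) (nat_lit 4) .nil))))) .nil))) (.nd (nat_lit 5) 
(.lf (nat_lit 54036) (.g (nat_lit 2268) (.e (nat_lit 1384) (nat_lit 105) (.e (nat_lit 311358) (nat_lit 29) (.e (nat_lit 352309) (nat_lit 21) (.e (nat_lit 57870) (nat_lit 264) (.e (nat_lit 1209) (nat_lit 89) (.e (nat_lit 73789) (nat_lit 45) .nil)))))) (.g (nat_lit 6) .nil .nil))) 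
(.lf (nat_lit 54068) (.g (nat_lit 1727) (.e (nat_lit 1385) (nat_lit 105) (.e (nat_lit 311357) (nat_lit 28) (.e (nat_lit 344068) (nat_lit 0) (.e (nat_lit 2857) (nat_lit 184) (.e (nat_lit 426533) (nat_lit 28) (.e (nat_lit 344074) (nat_lit 13) .nil)))))) (.g (nat_lit 0) .nil .nil))))) (.nd (nat_lit 4) (.nd (nat_lit 5) 
(.lf (nat_lit 54028) (.g (nat_lit 1114) (.e (nat_lit 1384) (nat_lit 105) (.e (nat_lit 311358) (nat_lit 29) (.e (nat_lit 352297) (nat_lit 20) (.e (nat_lit 2005) (nat_lit 138) (.e (nat_lit 671763) (nat_lit 5) (.e (nat_lit 73789) (nat_lit 45) .nil)))))) (.g (nat_lit 0) .nil .nil))) 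
(.lf (nat_lit 54060) (.g (nat_lit 2341) (.e (nat_lit 1385) (nat_lit 105) (.e (nat_lit 311353) (nat_lit 27) (.e (nat_lit 336200) (nat_lit 12) (.e (nat_lit 385094) (nat_lit 49) (.e (nat_lit 778323) (nat_lit 5) (.e (nat_lit 73788) (nat_lit 45) .nil)))))) (.g (nat_lit 6) .nil .nil)))) (.nd (nat_lit 5) 
(.lf (nat_lit 54044) (.g (nat_lit 1777) (.e (nat_lit 1384) (nat_lit 105) (.e (nat_lit 311358) (nat_lit 29) (.e (nat_lit 352318) (nat_lit 24) (.e (nat_lit 123185) (nat_lit 264) (.e (nat_lit 1212) (nat_lit 89) (.e (nat_lit 73789) (nat_lit 45) .nil)))))) (.g (nat_lit 6) .nil .nil))) 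
(.lf (nat_lit 54076) (.g (nat_lit 938) (.e (nat_lit 1385) (nat_lit 105) (.e (nat_lit 311357) (nat_lit 28) (.e (nat_lit 344076) (nat_lit 13) (.e (nat_lit 1386) (nat_lit 105) (.e (nat_lit 311357) (nat_lit 28) (.e (nat_lit 344076) (nat_lit 13) .nil)))))) (.g (nat_lit 5) .nil .nil))))))) (.nd (nat_lit 2) (.nd (nat_lit 3) (.nd (nat_lit 4) (.nd (nat_lit 5) 
(.lf (nat_lit 54018) (.g (nat_lit 1101) (.e (nat_lit 1384) (nat_lit 105) (.e (nat_lit 311358) (nat_lit 29) (.e (nat_lit 352287) (nat_lit 20) (.e (nat_lit 1998) (nat_lit 137) (.e (nat_lit 663568) (nat_lit 5) (.e (nat_lit 73789) (nat_lit 45) .nil)))))) (.g (nat_lit 0) .nil .nil))) 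
(.lf (nat_lit 54050) (.g (nat_lit 2683) (.e (nat_lit 1385) (nat_lit 105) (.e (nat_lit 311343) (nat_lit 13) (.e (nat_lit 483341) (nat_lit 9) (.e (nat_lit 426145) (nat_lit 4) (.e (nat_lit 229677) (nat_lit 244) (.e (nat_lit 163870) (nat_lit 2) (.e (nat_lit 196686) (nat_lit 18) .nil))))))) (.g (nat_lit 6) .nil .nil)))) (.nd (nat_lit 5) 
(.lf (nat_lit 54034) (.g (nat_lit 2793) (.e (nat_lit 1384) (nat_lit 105) (.e (nat_lit 311358) (nat_lit 29) (.e (nat_lit 352307) (nat_lit 21) (.e (nat_lit 57873) (nat_lit 264) (.e (nat_lit 1209) (nat_lit 89) (.e (nat_lit 73789) (nat_lit 45) .nil)))))) (.g (nat_lit 0) .nil .nil))) 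
(.lf (nat_lit 54066) (.g (nat_lit 758) (.e (nat_lit 1385) (nat_lit 105) (.e (nat_lit 311357) (nat_lit 28) (.e (nat_lit 344066) (nat_lit 0) (.e (nat_lit 2941) (nat_lit 184) (.e (nat_lit 426532) (nat_lit 28) (.e (nat_lit 344076) (nat_lit 13) .nil)))))) (.g (nat_lit 6) .nil .nil))))) (.nd (nat_lit 4) (.nd (nat_lit 5) 
(.lf (nat_lit 54026) (.g (nat_lit 1099) (.e (nat_lit 1384) (nat_lit 105) (.e (nat_lit 311358) (nat_lit 29) (.e (nat_lit 352297) (nat_lit 20) (.e (nat_lit 2003) (nat_lit 138) (.e (nat_lit 671763) (nat_lit 5) (.e (nat_lit 73789) (nat_lit 45) .nil)))))) (.g (nat_lit 0) .nil .nil))) 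
(.lf (nat_lit 54058) (.g (nat_lit 3466) (.e (nat_lit 1385) (nat_lit 105) (.e (nat_lit 311348) (nat_lit 15) (.e (nat_lit 1849) (nat_lit 124) (.e (nat_lit 557109) (nat_lit 15) (.e (nat_lit 188452) (nat_lit 23) (.e (nat_lit 204821) (nat_lit 17) (.e (nat_lit 6136) (nat_lit 332) .nil))))))) (.g (nat_lit 6) .nil .nil)))) (.nd (nat_lit 5) 
(.lf (nat_lit 54042) (.g (nat_lit 257) (.e (nat_lit 1384) (nat_lit 105) (.e (nat_lit 311358) (nat_lit 29) (.e (nat_lit 352318) (nat_lit 24) .nil))) .nil)) 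
(.lf (nat_lit 54074) (.g (nat_lit 2011) (.e (nat_lit 1385) (nat_lit 105) (.e (nat_lit 311357) (nat_lit 28) (.e (nat_lit 344069) (nat_lit 0) (.e (nat_lit 2857) (nat_lit 184) (.e (nat_lit 426533) (nat_lit 28) (.e (nat_lit 344077) (nat_lit 13) .nil)))))) (.g (nat_lit 0) .nil .nil)))))) (.nd (nat_lit 3) (.nd (nat_lit 4) (.nd (nat_lit 5) 
(.lf (nat_lit 54022) (.g (nat_lit 1109) (.e (nat_lit 1384) (nat_lit 105) (.e (nat_lit 311358) (nat_lit 29) (.e (nat_lit 352290) (nat_lit 20) (.e (nat_lit 2006) (nat_lit 138) (.e (nat_lit 671763) (nat_lit 5) (.e (nat_lit 73789) (nat_lit 45) .nil)))))) (.g (nat_lit 6) .nil .nil))) 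
(.lf (nat_lit 54054) (.g (nat_lit 1997) (.e (nat_lit 1385) (nat_lit 105) (.e (nat_lit 311344) (nat_lit 13) (.e (nat_lit 483337) (nat_lit 9) (.e (nat_lit 426107) (nat_lit 1) (.e (nat_lit 164347) (nat_lit 240) .nil))))) .nil))) (.nd (nat_lit 5) 
(.lf (nat_lit 54038) (.g (nat_lit 2757) (.e (nat_lit 1384) (nat_lit 105) (.e (nat_lit 311358) (nat_lit 29) (.e (nat_lit 352309) (nat_lit 21) (.e (nat_lit 57872) (nat_lit 264) (.e (nat_lit 1209) (nat_lit 89) (.e (nat_lit 73789) (nat_lit 45) .nil)))))) (.g (nat_lit 6) .nil .nil))) 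
(.lf (nat_lit 54070) (.g (nat_lit 1798) (.e (nat_lit 1385) (nat_lit 105) (.e (nat_lit 311357) (nat_lit 28) (.e (nat_lit 344069) (nat_lit 0) (.e (nat_lit 2856) (nat_lit 184) (.e (nat_lit 426533) (nat_lit 28) (.e (nat_lit 344074) (nat_lit 13) .nil)))))) (.g (nat_lit 5) .nil .nil))))) (.nd (nat_lit 4) (.nd (nat_lit 5) 
(.lf (nat_lit 54030) (.g (nat_lit 1003) (.e (nat_lit 1384) (nat_lit 105) (.e (nat_lit 311358) (nat_lit 29) (.e (nat_lit 352303) (nat_lit 20) (.e (nat_lit 2003) (nat_lit 138) (.e (nat_lit 671763) (nat_lit 5) (.e (nat_lit 73789) (nat_lit 45) .nil)))))) (.g (nat_lit 5) .nil .nil))) 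
(.lf (nat_lit 54062) (.g (nat_lit 1537) (.e (nat_lit 1385) (nat_lit 105) (.e (nat_lit 311353) (nat_lit 27) (.e (nat_lit 336228) (nat_lit 14) (.e (nat_lit 401459) (nat_lit 13) (.e (nat_lit 483354) (nat_lit 17) (.e (nat_lit 6149) (nat_lit 332) .nil)))))) (.g (nat_lit 5) .nil .nil)))) (.nd (nat_lit 5) 
(.lf (nat_lit 54046) (.g (nat_lit 2356) (.e (nat_lit 1385) (nat_lit 105) (.e (nat_lit 311315) (nat_lit 3) (.e (nat_lit 204846) (nat_lit 24) (.e (nat_lit 319533) (nat_lit 16) (.e (nat_lit 286724) (nat_lit 0) .nil))))) .nil)) 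
(.lf (nat_lit 54078) (.g (nat_lit 1032) (.e (nat_lit 1385) (nat_lit 105) (.e (nat_lit 311357) (nat_lit 28) (.e (nat_lit 344081) (nat_lit 13) (.e (nat_lit 1386) (nat_lit 105) (.e (nat_lit 311357) (nat_lit 28) (.e (nat_lit 344076) (nat_lit 13) .nil)))))) (.g (nat_lit 6) .nil .nil)))))))) (.nd (nat_lit 1) (.nd (nat_lit 2) (.nd (nat_lit 3) (.nd (nat_lit 4) (.nd (nat_lit 5) 
(.lf (nat_lit 54017) (.g (nat_lit 1080) (.e (nat_lit 1384) (nat_lit 105) (.e (nat_lit 311358) (nat_lit 29) (.e (nat_lit 352287) (nat_lit 20) (.e (nat_lit 1996) (nat_lit 137) (.e (nat_lit 663568) (nat_lit 5) (.e (nat_lit 73789) (nat_lit 45) .nil)))))) (.g (nat_lit 0) .nil .nil))) 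
(.lf (nat_lit 54049) (.g (nat_lit 2324) (.e (nat_lit 1385) (nat_lit 105) (.e (nat_lit 311315) (nat_lit 3) (.e (nat_lit 204846) (nat_lit 24) (.e (nat_lit 319534) (nat_lit 16) (.e (nat_lit 286728) (nat_lit 0) (.e (nat_lit 1842) (nat_lit 123) (.e (nat_lit 548886) (nat_lit 8) (.e (nat_lit 57718) (nat_lit 176) .nil)))))))) (.g (nat_lit 4) .nil .nil)))) (.nd (nat_lit 5) 
(.lf (nat_lit 54033) (.g (nat_lit 2551) (.e (nat_lit 1384) (nat_lit 105) (.e (nat_lit 311358) (nat_lit 29) (.e (nat_lit 352307) (nat_lit 21) (.e (nat_lit 57872) (nat_lit 264) (.e (nat_lit 1209) (nat_lit 89) (.e (nat_lit 73789) (nat_lit 45) .nil)))))) (.g (nat_lit 0) .nil .nil))) 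
(.lf (nat_lit 54065) (.g (nat_lit 804) (.e (nat_lit 1385) (nat_lit 105) (.e (nat_lit 311357) (nat_lit 28) (.e (nat_lit 344066) (nat_lit 0) (.e (nat_lit 2940) (nat_lit 184) (.e (nat_lit 426532) (nat_lit 28) (.e (nat_lit 344076) (nat_lit 13) .nil)))))) (.g (nat_lit 6) .nil .nil))))) (.nd (nat_lit 4) (.nd (nat_lit 5) 
(.lf (nat_lit 54025) (.g (nat_lit 1044) (.e (nat_lit 1384) (nat_lit 105) (.e (nat_lit 311358) (nat_lit 29) (.e (nat_lit 352296) (nat_lit 20) (.e (nat_lit 2006) (nat_lit 138) (.e (nat_lit 671763) (nat_lit 5) (.e (nat_lit 73789) (nat_lit 45) .nil)))))) (.g (nat_lit 6) .nil .nil))) 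
(.lf (nat_lit 54057) (.g (nat_lit 1473) (.e (nat_lit 1385) (nat_lit 105) (.e (nat_lit 311344) (nat_lit 13) (.e (nat_lit 483350) (nat_lit 17) (.e (nat_lit 2383) (nat_lit 155) (.e (nat_lit 811023) (nat_lit 4) .nil))))) .nil))) (.nd (nat_lit 5) 
(.lf (nat_lit 54041) (.g (nat_lit 1158) (.e (nat_lit 1384) (nat_lit 105) (.e (nat_lit 311358) (nat_lit 29) (.e (nat_lit 352317) (nat_lit 24) (.e (nat_lit 123182) (nat_lit 264) (.e (nat_lit 1212) (nat_lit 89) (.e (nat_lit 73789) (nat_lit 45) .nil)))))) (.g (nat_lit 4) .nil .nil))) 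
(.lf (nat_lit 54073) (.g (nat_lit 1884) (.e (nat_lit 1385) (nat_lit 105) (.e (nat_lit 311357) (nat_lit 28) (.e (nat_lit 344069) (nat_lit 0) (.e (nat_lit 2857) (nat_lit 184) (.e (nat_lit 426533) (nat_lit 28) (.e (nat_lit 344076) (nat_lit 13) .nil)))))) (.g (nat_lit 6) .nil .nil)))))) (.nd (nat_lit 3) (.nd (nat_lit 4) (.nd (nat_lit 5) 
(.lf (nat_lit 54021) (.g (nat_lit 1060) (.e (nat_lit 1384) (nat_lit 105) (.e (nat_lit 311358) (nat_lit 29) (.e (nat_lit 352290) (nat_lit 20) (.e (nat_lit 2005) (nat_lit 138) (.e (nat_lit 671763) (nat_lit 5) (.e (nat_lit 73789) (nat_lit 45) .nil)))))) (.g (nat_lit 6) .nil .nil))) 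
(.lf (nat_lit 54053) (.g (nat_lit 1380) (.e (nat_lit 1385) (nat_lit 105) (.e (nat_lit 311343) (nat_lit 13) (.e (nat_lit 483372) (nat_lit 21) (.e (nat_lit 319533) (nat_lit 16) (.e (nat_lit 286720) (nat_lit 0) .nil))))) .nil))) (.nd (nat_lit 5) 
(.lf (nat_lit 54037) (.g (nat_lit 2547) (.e (nat_lit 1384) (nat_lit 105) (.e (nat_lit 311358) (nat_lit 29) (.e (nat_lit 352309) (nat_lit 21) (.e (nat_lit 57871) (nat_lit 264) (.e (nat_lit 1209) (nat_lit 89) (.e (nat_lit 73789) (nat_lit 45) .nil)))))) (.g (nat_lit 6) .nil .nil))) 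
(.lf (nat_lit 54069) (.g (nat_lit 823) (.e (nat_lit 1385) (nat_lit 105) (.e (nat_lit 311357) (nat_lit 28) (.e (nat_lit 344069) (nat_lit 0) (.e (nat_lit 2854) (nat_lit 184) (.e (nat_lit 426533) (nat_lit 28) (.e (nat_lit 344074) (nat_lit 13) .nil)))))) (.g (nat_lit 5) .nil .nil))))) (.nd (nat_lit 4) (.nd (nat_lit 5) 
(.lf (nat_lit 54029) (.g (nat_lit 1213) (.e (nat_lit 1384) (nat_lit 105) (.e (nat_lit 311358) (nat_lit 29) (.e (nat_lit 352297) (nat_lit 20) (.e (nat_lit 2006) (nat_lit 138) (.e (nat_lit 671763) (nat_lit 5) (.e (nat_lit 73789) (nat_lit 45) .nil)))))) (.g (nat_lit 0) .nil .nil))) 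
(.lf (nat_lit 54061) (.g (nat_lit 1965) (.e (nat_lit 1385) (nat_lit 105) (.e (nat_lit 311353) (nat_lit 27) (.e (nat_lit 336200) (nat_lit 12) (.e (nat_lit 385094) (nat_lit 49) (.e (nat_lit 778324) (nat_lit 5) (.e (nat_lit 73791) (nat_lit 45) .nil)))))) (.g (nat_lit 6) .nil .nil)))) (.nd (nat_lit 5) 
(.lf (nat_lit 54045) (.g (nat_lit 922) (.e (nat_lit 1384) (nat_lit 105) (.e (nat_lit 319232) (nat_lit 30) (.e (nat_lit 360451) (nat_lit 0) (.e (nat_lit 5896) (nat_lit 320) (.e (nat_lit 7936) (nat_lit 89) (.e (nat_lit 73789) (nat_lit 45) .nil)))))) (.g (nat_lit 4) .nil .nil))) 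
(.lf (nat_lit 54077) (.g (nat_lit 1033) (.e (nat_lit 1385) (nat_lit 105) (.e (nat_lit 311357) (nat_lit 28) (.e (nat_lit 344077) (nat_lit 13) (.e (nat_lit 1386) (nat_lit 105) (.e (nat_lit 311357) (nat_lit 28) (.e (nat_lit 344076) (nat_lit 13) .nil)))))) (.g (nat_lit 6) .nil .nil))))))) (.nd (nat_lit 2) (.nd (nat_lit 3) (.nd (nat_lit 4) (.nd (nat_lit 5) 
(.lf (nat_lit 54019) (.g (nat_lit 1475) (.e (nat_lit 1384) (nat_lit 105) (.e (nat_lit 311358) (nat_lit 29) (.e (nat_lit 352287) (nat_lit 20) (.e (nat_lit 1999) (nat_lit 137) (.e (nat_lit 663568) (nat_lit 5) (.e (nat_lit 73789) (nat_lit 45) .nil)))))) (.g (nat_lit 0) .nil .nil))) 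
(.lf (nat_lit 54051) (.g (nat_lit 702) (.e (nat_lit 1385) (nat_lit 105) (.e (nat_lit 311343) (nat_lit 13) (.e (nat_lit 491264) (nat_lit 16) (.e (nat_lit 491549) (nat_lit 9) (.e (nat_lit 336315) (nat_lit 17) (.e (nat_lit 196686) (nat_lit 18) .nil)))))) (.g (nat_lit 4) .nil .nil)))) (.nd (nat_lit 5) 
(.lf (nat_lit 54035) (.g (nat_lit 1418) (.e (nat_lit 1384) (nat_lit 105) (.e (nat_lit 311358) (nat_lit 29) (.e (nat_lit 352308) (nat_lit 21) (.e (nat_lit 57870) (nat_lit 264) (.e (nat_lit 1209) (nat_lit 89) (.e (nat_lit 73789) (nat_lit 45) .nil)))))) (.g (nat_lit 6) .nil .nil))) 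
(.lf (nat_lit 54067) (.g (nat_lit 2122) (.e (nat_lit 1385) (nat_lit 105) (.e (nat_lit 311357) (nat_lit 28) (.e (nat_lit 344068) (nat_lit 0) (.e (nat_lit 2856) (nat_lit 184) (.e (nat_lit 426533) (nat_lit 28) (.e (nat_lit 344074) (nat_lit 13) .nil)))))) (.g (nat_lit 5) .nil .nil))))) (.nd (nat_lit 4) (.nd (nat_lit 5) 
(.lf (nat_lit 54027) (.g (nat_lit 996) (.e (nat_lit 1384) (nat_lit 105) (.e (nat_lit 311358) (nat_lit 29) (.e (nat_lit 352297) (nat_lit 20) (.e (nat_lit 2004) (nat_lit 138) (.e (nat_lit 671763) (nat_lit 5) (.e (nat_lit 73789) (nat_lit 45) .nil)))))) (.g (nat_lit 0) .nil .nil))) 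
(.lf (nat_lit 54059) (.g (nat_lit 4141) (.e (nat_lit 1385) (nat_lit 105) (.e (nat_lit 311348) (nat_lit 15) (.e (nat_lit 1858) (nat_lit 124) (.e (nat_lit 557109) (nat_lit 15) (.e (nat_lit 188449) (nat_lit 22) (.e (nat_lit 196661) (nat_lit 12) (.e (nat_lit 57714) (nat_lit 176) .nil))))))) (.g (nat_lit 5) .nil .nil)))) (.nd (nat_lit 5) 
(.lf (nat_lit 54043) (.g (nat_lit 2235) (.e (nat_lit 1384) (nat_lit 105) (.e (nat_lit 311358) (nat_lit 29) (.e (nat_lit 352318) (nat_lit 24) (.e (nat_lit 123182) (nat_lit 264) (.e (nat_lit 1212) (nat_lit 89) (.e (nat_lit 73789) (nat_lit 45) .nil)))))) (.g (nat_lit 6) .nil .nil))) 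
(.lf (nat_lit 54075) (.g (nat_lit 694) (.e (nat_lit 1385) (nat_lit 105) (.e (nat_lit 311357) (nat_lit 28) (.e (nat_lit 344076) (nat_lit 13) (.e (nat_lit 1385) (nat_lit 105) (.e (nat_lit 311357) (nat_lit 28) (.e (nat_lit 344076) (nat_lit 13) .nil)))))) (.g (nat_lit 5) .nil .nil)))))) (.nd (nat_lit 3) (.nd (nat_lit 4) (.nd (nat_lit 5) 
(.lf (nat_lit 54023) (.g (nat_lit 1010) (.e (nat_lit 1384) (nat_lit 105) (.e (nat_lit 311358) (nat_lit 29) (.e (nat_lit 352296) (nat_lit 20) (.e (nat_lit 2004) (nat_lit 138) (.e (nat_lit 671763) (nat_lit 5) (.e (nat_lit 73789) (nat_lit 45) .nil)))))) (.g (nat_lit 6) .nil .nil))) 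
(.lf (nat_lit 54055) (.g (nat_lit 355) (.e (nat_lit 1385) (nat_lit 105) (.e (nat_lit 311344) (nat_lit 13) (.e (nat_lit 483350) (nat_lit 17) .nil))) .nil))) (.nd (nat_lit 5) 
(.lf (nat_lit 54039) (.g (nat_lit 2815) (.e (nat_lit 1384) (nat_lit 105) (.e (nat_lit 311358) (nat_lit 29) (.e (nat_lit 352309) (nat_lit 21) (.e (nat_lit 57873) (nat_lit 264) (.e (nat_lit 1209) (nat_lit 89) (.e (nat_lit 73789) (nat_lit 45) .nil)))))) (.g (nat_lit 6) .nil .nil))) 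
(.lf (nat_lit 54071) (.g (nat_lit 2051) (.e (nat_lit 1385) (nat_lit 105) (.e (nat_lit 311357) (nat_lit 28) (.e (nat_lit 344069) (nat_lit 0) (.e (nat_lit 2856) (nat_lit 184) (.e (nat_lit 426533) (nat_lit 28) (.e (nat_lit 344081) (nat_lit 13) .nil)))))) (.g (nat_lit 5) .nil .nil))))) (.nd (nat_lit 4) (.nd (nat_lit 5) 
(.lf (nat_lit 54031) (.g (nat_lit 1065) (.e (nat_lit 1384) (nat_lit 105) (.e (nat_lit 311358) (nat_lit 29) (.e (nat_lit 352303) (nat_lit 20) (.e (nat_lit 2005) (nat_lit 138) (.e (nat_lit 671763) (nat_lit 5) (.e (nat_lit 73789) (nat_lit 45) .nil)))))) (.g (nat_lit 6) .nil .nil))) 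
(.lf (nat_lit 54063) (.g (nat_lit 819) (.e (nat_lit 1385) (nat_lit 105) (.e (nat_lit 311357) (nat_lit 28) (.e (nat_lit 344066) (nat_lit 0) (.e (nat_lit 2936) (nat_lit 184) (.e (nat_lit 426532) (nat_lit 28) (.e (nat_lit 344076) (nat_lit 13) .nil)))))) (.g (nat_lit 6) .nil .nil)))) (.nd (nat_lit 5) 
(.lf (nat_lit 54047) (.g (nat_lit 2507) (.e (nat_lit 1385) (nat_lit 105) (.e (nat_lit 311315) (nat_lit 3) (.e (nat_lit 204846) (nat_lit 24) (.e (nat_lit 319533) (nat_lit 16) (.e (nat_lit 286724) (nat_lit 0) (.e (nat_lit 1842) (nat_lit 123) (.e (nat_lit 548886) (nat_lit 8) (.e (nat_lit 57718) (nat_lit 176) .nil)))))))) (.g (nat_lit 4) .nil .nil))) 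
(.lf (nat_lit 54079) (.g (nat_lit 1011) (.e (nat_lit 1385) (nat_lit 105) (.e (nat_lit 311358) (nat_lit 29) (.e (nat_lit 352264) (nat_lit 0) (.e (nat_lit 3711) (nat_lit 227) (.e (nat_lit 778322) (nat_lit 5) (.e (nat_lit 73788) (nat_lit 45) .nil)))))) (.g (nat_lit 6) .nil .nil)))))))))

noncomputable def tv750 : DT := (.nd (nat_lit 0) (.nd (nat_lit 1) (.nd (nat_lit 2) (.nd (nat_lit 3) (.nd (nat_lit 4) (.nd (nat_lit 5) 
(.lf (nat_lit 54080) (.g (nat_lit 963) (.e (nat_lit 1385) (nat_lit 105) (.e (nat_lit 311358) (nat_lit 29) (.e (nat_lit 352264) (nat_lit 0) (.e (nat_lit 3711) (nat_lit 227) (.e (nat_lit 778322) (nat_lit 5) (.e (nat_lit 73791) (nat_lit 45) .nil)))))) (.g (nat_lit 5) .nil .nil))) 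
(.lf (nat_lit 54112) (.g (nat_lit 1188) (.e (nat_lit 1385) (nat_lit 105) (.e (nat_lit 311358) (nat_lit 29) (.e (nat_lit 352287) (nat_lit 20) (.e (nat_lit 1994) (nat_lit 137) (.e (nat_lit 663568) (nat_lit 5) (.e (nat_lit 73791) (nat_lit 45) .nil)))))) (.g (nat_lit 6) .nil .nil)))) (.nd (nat_lit 5) 
(.lf (nat_lit 54096) (.g (nat_lit 727) (.e (nat_lit 1385) (nat_lit 105) (.e (nat_lit 311358) (nat_lit 29) (.e (nat_lit 352280) (nat_lit 20) (.e (nat_lit 2003) (nat_lit 138) (.e (nat_lit 671763) (nat_lit 5) .nil))))) .nil)) 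
(.lf (nat_lit 54128) (.g (nat_lit 370) (.e (nat_lit 1385) (nat_lit 105) (.e (nat_lit 311358) (nat_lit 29) (.e (nat_lit 352302) (nat_lit 20) .nil))) .nil)))) (.nd (nat_lit 4) (.nd (nat_lit 5) 
(.lf (nat_lit 54088) (.g (nat_lit 970) (.e (nat_lit 1385) (nat_lit 105) (.e (nat_lit 311358) (nat_lit 29) (.e (nat_lit 352264) (nat_lit 0) (.e (nat_lit 3715) (nat_lit 227) (.e (nat_lit 778322) (nat_lit 5) (.e (nat_lit 73791) (nat_lit 45) .nil)))))) (.g (nat_lit 5) .nil .nil))) 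
(.lf (nat_lit 54120) (.g (nat_lit 1002) (.e (nat_lit 1385) (nat_lit 105) (.e (nat_lit 311358) (nat_lit 29) (.e (nat_lit 352296) (nat_lit 20) (.e (nat_lit 2004) (nat_lit 138) (.e (nat_lit 671763) (nat_lit 5) (.e (nat_lit 73788) (nat_lit 45) .nil)))))) (.g (nat_lit 6) .nil .nil)))) (.nd (nat_lit 5) 
(.lf (nat_lit 54104) (.g (nat_lit 982) (.e (nat_lit 1385) (nat_lit 105) (.e (nat_lit 311358) (nat_lit 29) (.e (nat_lit 352286) (nat_lit 20) (.e (nat_lit 1994) (nat_lit 137) (.e (nat_lit 663568) (nat_lit 5) (.e (nat_lit 73788) (nat_lit 45) .nil)))))) (.g (nat_lit 5) .nil .nil))) 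
(.lf (nat_lit 54136) (.g (nat_lit 2902) (.e (nat_lit 1385) (nat_lit 105) (.e (nat_lit 311358) (nat_lit 29) (.e (nat_lit 352307) (nat_lit 21) (.e (nat_lit 57873) (nat_lit 264) (.e (nat_lit 1209) (nat_lit 89) (.e (nat_lit 73792) (nat_lit 45) .nil)))))) (.g (nat_lit 0) .nil .nil)))))) (.nd (nat_lit 3) (.nd (nat_lit 4) (.nd (nat_lit 5) 
(.lf (nat_lit 54084) (.g (nat_lit 854) (.e (nat_lit 1385) (nat_lit 105) (.e (nat_lit 311358) (nat_lit 29) (.e (nat_lit 352264) (nat_lit 0) (.e (nat_lit 3714) (nat_lit 227) (.e (nat_lit 778322) (nat_lit 5) (.e (nat_lit 73791) (nat_lit 45) .nil)))))) (.g (nat_lit 5) .nil .nil))) 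
(.lf (nat_lit 54116) (.g (nat_lit 1445) (.e (nat_lit 1385) (nat_lit 105) (.e (nat_lit 311358) (nat_lit 29) (.e (nat_lit 352287) (nat_lit 20) (.e (nat_lit 1996) (nat_lit 137) (.e (nat_lit 663568) (nat_lit 5) (.e (nat_lit 73792) (nat_lit 45) .nil)))))) (.g (nat_lit 0) .nil .nil)))) (.nd (nat_lit 5) 
(.lf (nat_lit 54100) (.g (nat_lit 1050) (.e (nat_lit 1385) (nat_lit 105) (.e (nat_lit 311358) (nat_lit 29) (.e (nat_lit 352283) (nat_lit 20) (.e (nat_lit 1998) (nat_lit 137) (.e (nat_lit 663568) (nat_lit 5) (.e (nat_lit 73788) (nat_lit 45) .nil)))))) (.g (nat_lit 6) .nil .nil))) 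
(.lf (nat_lit 54132) (.g (nat_lit 1025) (.e (nat_lit 1385) (nat_lit 105) (.e (nat_lit 311358) (nat_lit 29) (.e (nat_lit 352303) (nat_lit 20) (.e (nat_lit 2003) (nat_lit 138) (.e (nat_lit 671763) (nat_lit 5) (.e (nat_lit 73791) (nat_lit 45) .nil)))))) (.g (nat_lit 5) .nil .nil))))) (.nd (nat_lit 4) (.nd (nat_lit 5) 
(.lf (nat_lit 54092) (.g (nat_lit 1460) (.e (nat_lit 1385) (nat_lit 105) (.e (nat_lit 311358) (nat_lit 29) (.e (nat_lit 352266) (nat_lit 0) (.e (nat_lit 3631) (nat_lit 227) (.e (nat_lit 778323) (nat_lit 5) (.e (nat_lit 73789) (nat_lit 45) .nil)))))) (.g (nat_lit 4) .nil .nil))) 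
(.lf (nat_lit 54124) (.g (nat_lit 988) (.e (nat_lit 1385) (nat_lit 105) (.e (nat_lit 311358) (nat_lit 29) (.e (nat_lit 352297) (nat_lit 20) (.e (nat_lit 2004) (nat_lit 138) (.e (nat_lit 671763) (nat_lit 5) (.e (nat_lit 73788) (nat_lit 45) .nil)))))) (.g (nat_lit 6) .nil .nil)))) (.nd (nat_lit 5) 
(.lf (nat_lit 54108) (.g (nat_lit 1368) (.e (nat_lit 1385) (nat_lit 105) (.e (nat_lit 311358) (nat_lit 29) (.e (nat_lit 352286) (nat_lit 20) (.e (nat_lit 1996) (nat_lit 137) (.e (nat_lit 663568) (nat_lit 5) (.e (nat_lit 73792) (nat_lit 45) .nil)))))) (.g (nat_lit 0) .nil .nil))) 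
(.lf (nat_lit 54140) (.g (nat_lit 772) (.e (nat_lit 1385) (nat_lit 105) (.e (nat_lit 311358) (nat_lit 29) (.e (nat_lit 352308) (nat_lit 21) (.e (nat_lit 57871) (nat_lit 264) (.e (nat_lit 1209) (nat_lit 89) .nil))))) .nil)))))) (.nd (nat_lit 2) (.nd (nat_lit 3) (.nd (nat_lit 4) (.nd (nat_lit 5) 
(.lf (nat_lit 54082) (.g (nat_lit 713) (.e (nat_lit 1385) (nat_lit 105) (.e (nat_lit 311358) (nat_lit 29) (.e (nat_lit 352264) (nat_lit 0) (.e (nat_lit 3711) (nat_lit 227) (.e (nat_lit 786176) (nat_lit 5) (.e (nat_lit 73791) (nat_lit 45) .nil)))))) (.g (nat_lit 4) .nil .nil))) 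
(.lf (nat_lit 54114) (.g (nat_lit 1061) (.e (nat_lit 1385) (nat_lit 105) (.e (nat_lit 311358) (nat_lit 29) (.e (nat_lit 352287) (nat_lit 20) (.e (nat_lit 1996) (nat_lit 137) (.e (nat_lit 663568) (nat_lit 5) (.e (nat_lit 73788) (nat_lit 45) .nil)))))) (.g (nat_lit 6) .nil .nil)))) (.nd (nat_lit 5) 
(.lf (nat_lit 54098) (.g (nat_lit 1196) (.e (nat_lit 1385) (nat_lit 105) (.e (nat_lit 311358) (nat_lit 29) (.e (nat_lit 352283) (nat_lit 20) (.e (nat_lit 1994) (nat_lit 137) (.e (nat_lit 663568) (nat_lit 5) (.e (nat_lit 73791) (nat_lit 45) .nil)))))) (.g (nat_lit 6) .nil .nil))) 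
(.lf (nat_lit 54130) (.g (nat_lit 1272) (.e (nat_lit 1385) (nat_lit 105) (.e (nat_lit 311358) (nat_lit 29) (.e (nat_lit 352302) (nat_lit 20) (.e (nat_lit 2006) (nat_lit 138) (.e (nat_lit 671763) (nat_lit 5) (.e (nat_lit 73792) (nat_lit 45) .nil)))))) (.g (nat_lit 4) .nil .nil))))) (.nd (nat_lit 4) (.nd (nat_lit 5) 
(.lf (nat_lit 54090) (.g (nat_lit 1963) (.e (nat_lit 1385) (nat_lit 105) (.e (nat_lit 311358) (nat_lit 29) (.e (nat_lit 352265) (nat_lit 0) (.e (nat_lit 3632) (nat_lit 227) (.e (nat_lit 778323) (nat_lit 5) (.e (nat_lit 73788) (nat_lit 45) .nil)))))) (.g (nat_lit 5) .nil .nil))) 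
(.lf (nat_lit 54122) (.g (nat_lit 924) (.e (nat_lit 1385) (nat_lit 105) (.e (nat_lit 311358) (nat_lit 29) (.e (nat_lit 352296) (nat_lit 20) (.e (nat_lit 2005) (nat_lit 138) (.e (nat_lit 671763) (nat_lit 5) (.e (nat_lit 73788) (nat_lit 45) .nil)))))) (.g (nat_lit 6) .nil .nil)))) (.nd (nat_lit 5) 
(.lf (nat_lit 54106) (.g (nat_lit 993) (.e (nat_lit 1385) (nat_lit 105) (.e (nat_lit 311358) (nat_lit 29) (.e (nat_lit 352286) (nat_lit 20) (.e (nat_lit 1996) (nat_lit 137) (.e (nat_lit 663568) (nat_lit 5) (.e (nat_lit 73788) (nat_lit 45) .nil)))))) (.g (nat_lit 6) .nil .nil))) 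
(.lf (nat_lit 54138) (.g (nat_lit 1175) (.e (nat_lit 1385) (nat_lit 105) (.e (nat_lit 311358) (nat_lit 29) (.e (nat_lit 352307) (nat_lit 21) (.e (nat_lit 57873) (nat_lit 264) (.e (nat_lit 7936) (nat_lit 89) .nil))))) .nil))))) (.nd (nat_lit 3) (.nd (nat_lit 4) (.nd (nat_lit 5) 
(.lf (nat_lit 54086) (.g (nat_lit 730) (.e (nat_lit 1385) (nat_lit 105) (.e (nat_lit 311358) (nat_lit 29) (.e (nat_lit 352264) (nat_lit 0) (.e (nat_lit 3714) (nat_lit 227) (.e (nat_lit 786176) (nat_lit 5) (.e (nat_lit 73791) (nat_lit 45) .nil)))))) (.g (nat_lit 4) .nil .nil))) 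
(.lf (nat_lit 54118) (.g (nat_lit 981) (.e (nat_lit 1385) (nat_lit 105) (.e (nat_lit 311358) (nat_lit 29) (.e (nat_lit 352290) (nat_lit 20) (.e (nat_lit 2005) (nat_lit 138) (.e (nat_lit 671763) (nat_lit 5) (.e (nat_lit 73791) (nat_lit 45) .nil)))))) (.g (nat_lit 6) .nil .nil)))) (.nd (nat_lit 5) 
(.lf (nat_lit 54102) (.g (nat_lit 922) (.e (nat_lit 1385) (nat_lit 105) (.e (nat_lit 311358) (nat_lit 29) (.e (nat_lit 352285) (nat_lit 20) (.e (nat_lit 1998) (nat_lit 137) (.e (nat_lit 663568) (nat_lit 5) (.e (nat_lit 73788) (nat_lit 45) .nil)))))) (.g (nat_lit 6) .nil .nil))) 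
(.lf (nat_lit 54134) (.g (nat_lit 1083) (.e (nat_lit 1385) (nat_lit 105) (.e (nat_lit 311358) (nat_lit 29) (.e (nat_lit 352303) (nat_lit 20) (.e (nat_lit 2005) (nat_lit 138) (.e (nat_lit 671763) (nat_lit 5) (.e (nat_lit 73791) (nat_lit 45) .nil)))))) (.g (nat_lit 6) .nil .nil))))) (.nd (nat_lit 4) (.nd (nat_lit 5) 
(.lf (nat_lit 54094) (.g (nat_lit 1679) (.e (nat_lit 1385) (nat_lit 105) (.e (nat_lit 311358) (nat_lit 29) (.e (nat_lit 352267) (nat_lit 0) (.e (nat_lit 3631) (nat_lit 227) (.e (nat_lit 778324) (nat_lit 5) (.e (nat_lit 73791) (nat_lit 45) .nil)))))) (.g (nat_lit 5) .nil .nil))) 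
(.lf (nat_lit 54126) (.g (nat_lit 1050) (.e (nat_lit 1385) (nat_lit 105) (.e (nat_lit 311358) (nat_lit 29) (.e (nat_lit 352297) (nat_lit 20) (.e (nat_lit 2005) (nat_lit 138) (.e (nat_lit 671763) (nat_lit 5) (.e (nat_lit 73791) (nat_lit 45) .nil)))))) (.g (nat_lit 6) .nil .nil)))) (.nd (nat_lit 5) 
(.lf (nat_lit 54110) (.g (nat_lit 1540) (.e (nat_lit 1385) (nat_lit 105) (.e (nat_lit 311358) (nat_lit 29) (.e (nat_lit 352286) (nat_lit 20) (.e (nat_lit 1999) (nat_lit 137) (.e (nat_lit 663568) (nat_lit 5) (.e (nat_lit 73789) (nat_lit 45) .nil)))))) (.g (nat_lit 0) .nil .nil))) 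
(.lf (nat_lit 54142) (.g (nat_lit 1610) (.e (nat_lit 1385) (nat_lit 105) (.e (nat_lit 311358) (nat_lit 29) (.e (nat_lit 352309) (nat_lit 21) (.e (nat_lit 57873) (nat_lit 264) (.e (nat_lit 1210) (nat_lit 89) (.e (nat_lit 73788) (nat_lit 45) .nil)))))) (.g (nat_lit 4) .nil .nil)))))))) (.nd (nat_lit 1) (.nd (nat_lit 2) (.nd (nat_lit 3) (.nd (nat_lit 4) (.nd (nat_lit 5) 
(.lf (nat_lit 54081) (.g (nat_lit 654) (.e (nat_lit 1385) (nat_lit 105) (.e (nat_lit 311358) (nat_lit 29) (.e (nat_lit 352264) (nat_lit 0) (.e (nat_lit 3711) (nat_lit 227) (.e (nat_lit 786176) (nat_lit 5) (.e (nat_lit 73788) (nat_lit 45) .nil)))))) (.g (nat_lit 4) .nil .nil))) 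
(.lf (nat_lit 54113) (.g (nat_lit 1577) (.e (nat_lit 1385) (nat_lit 105) (.e (nat_lit 311358) (nat_lit 29) (.e (nat_lit 352287) (nat_lit 20) (.e (nat_lit 1994) (nat_lit 137) (.e (nat_lit 663568) (nat_lit 5) (.e (nat_lit 73792) (nat_lit 45) .nil)))))) (.g (nat_lit 0) .nil .nil)))) (.nd (nat_lit 5) 
(.lf (nat_lit 54097) (.g (nat_lit 1192) (.e (nat_lit 1385) (nat_lit 105) (.e (nat_lit 311358) (nat_lit 29) (.e (nat_lit 352283) (nat_lit 20) (.e (nat_lit 1994) (nat_lit 137) (.e (nat_lit 663568) (nat_lit 5) (.e (nat_lit 73788) (nat_lit 45) .nil)))))) (.g (nat_lit 6) .nil .nil))) 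
(.lf (nat_lit 54129) (.g (nat_lit 1233) (.e (nat_lit 1385) (nat_lit 105) (.e (nat_lit 311358) (nat_lit 29) (.e (nat_lit 352302) (nat_lit 20) (.e (nat_lit 2006) (nat_lit 138) (.e (nat_lit 671763) (nat_lit 5) (.e (nat_lit 73789) (nat_lit 45) .nil)))))) (.g (nat_lit 4) .nil .nil))))) (.nd (nat_lit 4) (.nd (nat_lit 5) 
(.lf (nat_lit 54089) (.g (nat_lit 1793) (.e (nat_lit 1385) (nat_lit 105) (.e (nat_lit 311358) (nat_lit 29) (.e (nat_lit 352265) (nat_lit 0) (.e (nat_lit 3631) (nat_lit 227) (.e (nat_lit 778323) (nat_lit 5) (.e (nat_lit 73788) (nat_lit 45) .nil)))))) (.g (nat_lit 5) .nil .nil))) 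
(.lf (nat_lit 54121) (.g (nat_lit 1027) (.e (nat_lit 1385) (nat_lit 105) (.e (nat_lit 311358) (nat_lit 29) (.e (nat_lit 352296) (nat_lit 20) (.e (nat_lit 2004) (nat_lit 138) (.e (nat_lit 671763) (nat_lit 5) (.e (nat_lit 73791) (nat_lit 45) .nil)))))) (.g (nat_lit 6) .nil .nil)))) (.nd (nat_lit 5) 
(.lf (nat_lit 54105) (.g (nat_lit 986) (.e (nat_lit 1385) (nat_lit 105) (.e (nat_lit 311358) (nat_lit 29) (.e (nat_lit 352286) (nat_lit 20) (.e (nat_lit 1994) (nat_lit 137) (.e (nat_lit 663568) (nat_lit 5) (.e (nat_lit 73791) (nat_lit 45) .nil)))))) (.g (nat_lit 5) .nil .nil))) 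
(.lf (nat_lit 54137) (.g (nat_lit 1521) (.e (nat_lit 1385) (nat_lit 105) (.e (nat_lit 311358) (nat_lit 29) (.e (nat_lit 352307) (nat_lit 21) (.e (nat_lit 57873) (nat_lit 264) (.e (nat_lit 1210) (nat_lit 89) (.e (nat_lit 73788) (nat_lit 45) .nil)))))) (.g (nat_lit 4) .nil .nil)))))) (.nd (nat_lit 3) (.nd (nat_lit 4) (.nd (nat_lit 5) 
(.lf (nat_lit 54085) (.g (nat_lit 674) (.e (nat_lit 1385) (nat_lit 105) (.e (nat_lit 311358) (nat_lit 29) (.e (nat_lit 352264) (nat_lit 0) (.e (nat_lit 3714) (nat_lit 227) (.e (nat_lit 786176) (nat_lit 5) (.e (nat_lit 73788) (nat_lit 45) .nil)))))) (.g (nat_lit 4) .nil .nil))) 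
(.lf (nat_lit 54117) (.g (nat_lit 966) (.e (nat_lit 1385) (nat_lit 105) (.e (nat_lit 311358) (nat_lit 29) (.e (nat_lit 352290) (nat_lit 20) (.e (nat_lit 2005) (nat_lit 138) (.e (nat_lit 671763) (nat_lit 5) (.e (nat_lit 73788) (nat_lit 45) .nil)))))) (.g (nat_lit 6) .nil .nil)))) (.nd (nat_lit 5) 
(.lf (nat_lit 54101) (.g (nat_lit 1079) (.e (nat_lit 1385) (nat_lit 105) (.e (nat_lit 311358) (nat_lit 29) (.e (nat_lit 352283) (nat_lit 20) (.e (nat_lit 1998) (nat_lit 137) (.e (nat_lit 663568) (nat_lit 5) (.e (nat_lit 73791) (nat_lit 45) .nil)))))) (.g (nat_lit 6) .nil .nil))) 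
(.lf (nat_lit 54133) (.g (nat_lit 1063) (.e (nat_lit 1385) (nat_lit 105) (.e (nat_lit 311358) (nat_lit 29) (.e (nat_lit 352303) (nat_lit 20) (.e (nat_lit 2005) (nat_lit 138) (.e (nat_lit 671763) (nat_lit 5) (.e (nat_lit 73788) (nat_lit 45) .nil)))))) (.g (nat_lit 6) .nil .nil))))) (.nd (nat_lit 4) (.nd (nat_lit 5) 
(.lf (nat_lit 54093) (.g (nat_lit 1211) (.e (nat_lit 1385) (nat_lit 105) (.e (nat_lit 311358) (nat_lit 29) (.e (nat_lit 352267) (nat_lit 0) (.e (nat_lit 3629) (nat_lit 227) (.e (nat_lit 778324) (nat_lit 5) (.e (nat_lit 73791) (nat_lit 45) .nil)))))) (.g (nat_lit 5) .nil .nil))) 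
(.lf (nat_lit 54125) (.g (nat_lit 1020) (.e (nat_lit 1385) (nat_lit 105) (.e (nat_lit 311358) (nat_lit 29) (.e (nat_lit 352297) (nat_lit 20) (.e (nat_lit 2005) (nat_lit 138) (.e (nat_lit 671763) (nat_lit 5) (.e (nat_lit 73788) (nat_lit 45) .nil)))))) (.g (nat_lit 6) .nil .nil)))) (.nd (nat_lit 5) 
(.lf (nat_lit 54109) (.g (nat_lit 423) (.e (nat_lit 1385) (nat_lit 105) (.e (nat_lit 311358) (nat_lit 29) (.e (nat_lit 352286) (nat_lit 20) (.e (nat_lit 1998) (nat_lit 137) (.e (nat_lit 663568) (nat_lit 5) .nil))))) .nil)) 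
(.lf (nat_lit 54141) (.g (nat_lit 2938) (.e (nat_lit 1385) (nat_lit 105) (.e (nat_lit 311358) (nat_lit 29) (.e (nat_lit 352309) (nat_lit 21) (.e (nat_lit 57873) (nat_lit 264) (.e (nat_lit 1209) (nat_lit 89) (.e (nat_lit 73792) (nat_lit 45) .nil)))))) (.g (nat_lit 0) .nil .nil))))))) (.nd (nat_lit 2) (.nd (nat_lit 3) (.nd (nat_lit 4) (.nd (nat_lit 5) 
(.lf (nat_lit 54083) (.g (nat_lit 915) (.e (nat_lit 1385) (nat_lit 105) (.e (nat_lit 311358) (nat_lit 29) (.e (nat_lit 352264) (nat_lit 0) (.e (nat_lit 3714) (nat_lit 227) (.e (nat_lit 778322) (nat_lit 5) (.e (nat_lit 73788) (nat_lit 45) .nil)))))) (.g (nat_lit 6) .nil .nil))) 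
(.lf (nat_lit 54115) (.g (nat_lit 1048) (.e (nat_lit 1385) (nat_lit 105) (.e (nat_lit 311358) (nat_lit 29) (.e (nat_lit 352287) (nat_lit 20) (.e (nat_lit 1996) (nat_lit 137) (.e (nat_lit 663568) (nat_lit 5) (.e (nat_lit 73791) (nat_lit 45) .nil)))))) (.g (nat_lit 6) .nil .nil)))) (.nd (nat_lit 5) 
(.lf (nat_lit 54099) (.g (nat_lit 1592) (.e (nat_lit 1385) (nat_lit 105) (.e (nat_lit 311358) (nat_lit 29) (.e (nat_lit 352283) (nat_lit 20) (.e (nat_lit 1994) (nat_lit 137) (.e (nat_lit 663568) (nat_lit 5) (.e (nat_lit 73792) (nat_lit 45) .nil)))))) (.g (nat_lit 0) .nil .nil))) 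
(.lf (nat_lit 54131) (.g (nat_lit 1001) (.e (nat_lit 1385) (nat_lit 105) (.e (nat_lit 311358) (nat_lit 29) (.e (nat_lit 352303) (nat_lit 20) (.e (nat_lit 2003) (nat_lit 138) (.e (nat_lit 671763) (nat_lit 5) (.e (nat_lit 73788) (nat_lit 45) .nil)))))) (.g (nat_lit 5) .nil .nil))))) (.nd (nat_lit 4) (.nd (nat_lit 5) 
(.lf (nat_lit 54091) (.g (nat_lit 1900) (.e (nat_lit 1385) (nat_lit 105) (.e (nat_lit 311358) (nat_lit 29) (.e (nat_lit 352265) (nat_lit 0) (.e (nat_lit 3632) (nat_lit 227) (.e (nat_lit 778324) (nat_lit 5) (.e (nat_lit 73791) (nat_lit 45) .nil)))))) (.g (nat_lit 5) .nil .nil))) 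
(.lf (nat_lit 54123) (.g (nat_lit 1439) (.e (nat_lit 1385) (nat_lit 105) (.e (nat_lit 311358) (nat_lit 29) (.e (nat_lit 352296) (nat_lit 20) (.e (nat_lit 2006) (nat_lit 138) (.e (nat_lit 671763) (nat_lit 5) (.e (nat_lit 73789) (nat_lit 45) .nil)))))) (.g (nat_lit 0) .nil .nil)))) (.nd (nat_lit 5) 
(.lf (nat_lit 54107) (.g (nat_lit 980) (.e (nat_lit 1385) (nat_lit 105) (.e (nat_lit 311358) (nat_lit 29) (.e (nat_lit 352286) (nat_lit 20) (.e (nat_lit 1996) (nat_lit 137) (.e (nat_lit 663568) (nat_lit 5) (.e (nat_lit 73791) (nat_lit 45) .nil)))))) (.g (nat_lit 6) .nil .nil))) 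
(.lf (nat_lit 54139) (.g (nat_lit 1349) (.e (nat_lit 1385) (nat_lit 105) (.e (nat_lit 311358) (nat_lit 29) (.e (nat_lit 352307) (nat_lit 21) (.e (nat_lit 57873) (nat_lit 264) (.e (nat_lit 7936) (nat_lit 89) (.e (nat_lit 73792) (nat_lit 45) .nil)))))) (.g (nat_lit 4) .nil .nil)))))) (.nd (nat_lit 3) (.nd (nat_lit 4) (.nd (nat_lit 5) 
(.lf (nat_lit 54087) (.g (nat_lit 1025) (.e (nat_lit 1385) (nat_lit 105) (.e (nat_lit 311358) (nat_lit 29) (.e (nat_lit 352264) (nat_lit 0) (.e (nat_lit 3715) (nat_lit 227) (.e (nat_lit 778322) (nat_lit 5) (.e (nat_lit 73788) (nat_lit 45) .nil)))))) (.g (nat_lit 6) .nil .nil))) 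
(.lf (nat_lit 54119) (.g (nat_lit 407) (.e (nat_lit 1385) (nat_lit 105) (.e (nat_lit 311358) (nat_lit 29) (.e (nat_lit 352291) (nat_lit 20) (.e (nat_lit 2005) (nat_lit 138) .nil)))) .nil))) (.nd (nat_lit 5) 
(.lf (nat_lit 54103) (.g (nat_lit 949) (.e (nat_lit 1385) (nat_lit 105) (.e (nat_lit 311358) (nat_lit 29) (.e (nat_lit 352285) (nat_lit 20) (.e (nat_lit 1998) (nat_lit 137) (.e (nat_lit 663568) (nat_lit 5) (.e (nat_lit 73791) (nat_lit 45) .nil)))))) (.g (nat_lit 6) .nil .nil))) 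
(.lf (nat_lit 54135) (.g (nat_lit 1149) (.e (nat_lit 1385) (nat_lit 105) (.e (nat_lit 311358) (nat_lit 29) (.e (nat_lit 352303) (nat_lit 20) (.e (nat_lit 2006) (nat_lit 138) (.e (nat_lit 671763) (nat_lit 5) (.e (nat_lit 73788) (nat_lit 45) .nil)))))) (.g (nat_lit 0) .nil .nil))))) (.nd (nat_lit 4) (.nd (nat_lit 5) 
(.lf (nat_lit 54095) (.g (nat_lit 2457) (.e (nat_lit 1385) (nat_lit 105) (.e (nat_lit 311358) (nat_lit 29) (.e (nat_lit 352267) (nat_lit 0) (.e (nat_lit 3632) (nat_lit 227) (.e (nat_lit 778323) (nat_lit 5) (.e (nat_lit 73788) (nat_lit 45) .nil)))))) (.g (nat_lit 0) .nil .nil))) 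
(.lf (nat_lit 54127) (.g (nat_lit 1206) (.e (nat_lit 1385) (nat_lit 105) (.e (nat_lit 311358) (nat_lit 29) (.e (nat_lit 352297) (nat_lit 20) (.e (nat_lit 2006) (nat_lit 138) (.e (nat_lit 671763) (nat_lit 5) (.e (nat_lit 73788) (nat_lit 45) .nil)))))) (.g (nat_lit 0) .nil .nil)))) (.nd (nat_lit 5) 
(.lf (nat_lit 54111) (.g (nat_lit 1189) (.e (nat_lit 1385) (nat_lit 105) (.e (nat_lit 311358) (nat_lit 29) (.e (nat_lit 352287) (nat_lit 20) (.e (nat_lit 1994) (nat_lit 137) (.e (nat_lit 663568) (nat_lit 5) (.e (nat_lit 73788) (nat_lit 45) .nil)))))) (.g (nat_lit 6) .nil .nil))) 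
(.lf (nat_lit 54143) (.g (nat_lit 1213) (.e (nat_lit 1385) (nat_lit 105) (.e (nat_lit 311358) (nat_lit 29) (.e (nat_lit 352309) (nat_lit 21) (.e (nat_lit 57873) (nat_lit 264) (.e (nat_lit 7936) (nat_lit 89) .nil))))) .nil))))))))

noncomputable def tv751 : DT := (.nd (nat_lit 0) (.nd (nat_lit 1) (.nd (nat_lit 2) (.nd (nat_lit 3) (.nd (nat_lit 4) (.nd (nat_lit 5) 
(.lf (nat_lit 54144) (.g (nat_lit 1902) (.e (nat_lit 1385) (nat_lit 105) (.e (nat_lit 311358) (nat_lit 29) (.e (nat_lit 352316) (nat_lit 24) (.e (nat_lit 123185) (nat_lit 264) (.e (nat_lit 1214) (nat_lit 89) (.e (nat_lit 73792) (nat_lit 45) .nil)))))) (.g (nat_lit 0) .nil .nil))) 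
(.lf (nat_lit 54176) (.g (nat_lit 2211) (.e (nat_lit 1386) (nat_lit 105) (.e (nat_lit 311357) (nat_lit 28) (.e (nat_lit 344068) (nat_lit 0) (.e (nat_lit 2856) (nat_lit 184) (.e (nat_lit 426533) (nat_lit 28) (.e (nat_lit 344081) (nat_lit 13) .nil)))))) (.g (nat_lit 5) .nil .nil)))) (.nd (nat_lit 5) 
(.lf (nat_lit 54160) (.g (nat_lit 3643) (.e (nat_lit 1386) (nat_lit 105) (.e (nat_lit 311348) (nat_lit 15) (.e (nat_lit 1859) (nat_lit 124) (.e (nat_lit 557098) (nat_lit 13) (.e (nat_lit 172097) (nat_lit 9) (.e (nat_lit 426125) (nat_lit 2) (.e (nat_lit 196661) (nat_lit 12) (.e (nat_lit 57711) (nat_lit 176) .nil)))))))) (.g (nat_lit 7) .nil .nil))) 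
(.lf (nat_lit 54192) (.g (nat_lit 1160) (.e (nat_lit 1386) (nat_lit 105) (.e (nat_lit 311358) (nat_lit 29) (.e (nat_lit 352264) (nat_lit 0) (.e (nat_lit 3715) (nat_lit 227) (.e (nat_lit 778322) (nat_lit 5) (.e (nat_lit 73788) (nat_lit 45) .nil)))))) (.g (nat_lit 6) .nil .nil))))) (.nd (nat_lit 4) (.nd (nat_lit 5) 
(.lf (nat_lit 54152) (.g (nat_lit 3338) (.e (nat_lit 1386) (nat_lit 105) (.e (nat_lit 311348) (nat_lit 15) (.e (nat_lit 1848) (nat_lit 124) (.e (nat_lit 557097) (nat_lit 13) (.e (nat_lit 172097) (nat_lit 9) (.e (nat_lit 426125) (nat_lit 2) (.e (nat_lit 196661) (nat_lit 12) (.e (nat_lit 57711) (nat_lit 176) .nil)))))))) (.g (nat_lit 7) .nil .nil))) 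
(.lf (nat_lit 54184) (.g (nat_lit 1180) (.e (nat_lit 1386) (nat_lit 105) (.e (nat_lit 311357) (nat_lit 28) (.e (nat_lit 344076) (nat_lit 13) (.e (nat_lit 1386) (nat_lit 105) (.e (nat_lit 311357) (nat_lit 28) (.e (nat_lit 344076) (nat_lit 13) .nil)))))) (.g (nat_lit 5) .nil .nil)))) (.nd (nat_lit 5) 
(.lf (nat_lit 54168) (.g (nat_lit 1960) (.e (nat_lit 1386) (nat_lit 105) (.e (nat_lit 311353) (nat_lit 27) (.e (nat_lit 336205) (nat_lit 12) (.e (nat_lit 385094) (nat_lit 49) (.e (nat_lit 778323) (nat_lit 5) (.e (nat_lit 73788) (nat_lit 45) .nil)))))) (.g (nat_lit 5) .nil .nil))) 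
(.lf (nat_lit 54200) (.g (nat_lit 2600) (.e (nat_lit 1386) (nat_lit 105) (.e (nat_lit 311358) (nat_lit 29) (.e (nat_lit 352267) (nat_lit 0) (.e (nat_lit 3632) (nat_lit 227) (.e (nat_lit 778323) (nat_lit 5) (.e (nat_lit 73788) (nat_lit 45) .nil)))))) (.g (nat_lit 0) .nil .nil)))))) (.nd (nat_lit 3) (.nd (nat_lit 4) (.nd (nat_lit 5) 
(.lf (nat_lit 54148) (.g (nat_lit 881) (.e (nat_lit 1385) (nat_lit 105) (.e (nat_lit 319232) (nat_lit 30) (.e (nat_lit 360449) (nat_lit 0) (.e (nat_lit 5898) (nat_lit 320) (.e (nat_lit 7936) (nat_lit 89) (.e (nat_lit 73792) (nat_lit 45) .nil)))))) (.g (nat_lit 4) .nil .nil))) 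
(.lf (nat_lit 54180) (.g (nat_lit 1754) (.e (nat_lit 1386) (nat_lit 105) (.e (nat_lit 311357) (nat_lit 28) (.e (nat_lit 344069) (nat_lit 0) (.e (nat_lit 2856) (nat_lit 184) (.e (nat_lit 426533) (nat_lit 28) (.e (nat_lit 344076) (nat_lit 13) .nil)))))) (.g (nat_lit 5) .nil .nil)))) (.nd (nat_lit 5) 
(.lf (nat_lit 54164) (.g (nat_lit 2395) (.e (nat_lit 1386) (nat_lit 105) (.e (nat_lit 311353) (nat_lit 27) (.e (nat_lit 336200) (nat_lit 12) (.e (nat_lit 385094) (nat_lit 49) (.e (nat_lit 778323) (nat_lit 5) (.e (nat_lit 73789) (nat_lit 45) .nil)))))) (.g (nat_lit 6) .nil .nil))) 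
(.lf (nat_lit 54196) (.g (nat_lit 2055) (.e (nat_lit 1386) (nat_lit 105) (.e (nat_lit 311358) (nat_lit 29) (.e (nat_lit 352265) (nat_lit 0) (.e (nat_lit 3632) (nat_lit 227) (.e (nat_lit 778324) (nat_lit 5) (.e (nat_lit 73791) (nat_lit 45) .nil)))))) (.g (nat_lit 5) .nil .nil))))) (.nd (nat_lit 4) (.nd (nat_lit 5) 
(.lf (nat_lit 54156) (.g (nat_lit 3078) (.e (nat_lit 1386) (nat_lit 105) (.e (nat_lit 311348) (nat_lit 15) (.e (nat_lit 1849) (nat_lit 124) (.e (nat_lit 557109) (nat_lit 15) (.e (nat_lit 188449) (nat_lit 22) (.e (nat_lit 196661) (nat_lit 12) (.e (nat_lit 57714) (nat_lit 176) .nil))))))) (.g (nat_lit 6) .nil .nil))) 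
(.lf (nat_lit 54188) (.g (nat_lit 1051) (.e (nat_lit 1386) (nat_lit 105) (.e (nat_lit 311358) (nat_lit 29) (.e (nat_lit 352264) (nat_lit 0) (.e (nat_lit 3714) (nat_lit 227) (.e (nat_lit 778322) (nat_lit 5) (.e (nat_lit 73788) (nat_lit 45) .nil)))))) (.g (nat_lit 6) .nil .nil)))) (.nd (nat_lit 5) 
(.lf (nat_lit 54172) (.g (nat_lit 1067) (.e (nat_lit 1386) (nat_lit 105) (.e (nat_lit 311357) (nat_lit 28) (.e (nat_lit 344066) (nat_lit 0) (.e (nat_lit 2940) (nat_lit 184) (.e (nat_lit 426532) (nat_lit 28) (.e (nat_lit 344076) (nat_lit 13) .nil)))))) (.g (nat_lit 6) .nil .nil))) 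
(.lf (nat_lit 54204) (.g (nat_lit 1431) (.e (nat_lit 1386) (nat_lit 105) (.e (nat_lit 311358) (nat_lit 29) (.e (nat_lit 352283) (nat_lit 20) (.e (nat_lit 1999) (nat_lit 137) (.e (nat_lit 663568) (nat_lit 5) (.e (nat_lit 73788) (nat_lit 45) .nil)))))) (.g (nat_lit 0) .nil .nil))))))) (.nd (nat_lit 2) (.nd (nat_lit 3) (.nd (nat_lit 4) (.nd (nat_lit 5) 
(.lf (nat_lit 54146) (.g (nat_lit 915) (.e (nat_lit 1385) (nat_lit 105) (.e (nat_lit 319232) (nat_lit 30) (.e (nat_lit 360449) (nat_lit 0) (.e (nat_lit 5896) (nat_lit 320) (.e (nat_lit 7936) (nat_lit 89) (.e (nat_lit 73791) (nat_lit 45) .nil)))))) (.g (nat_lit 4) .nil .nil))) 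
(.lf (nat_lit 54178) (.g (nat_lit 1225) (.e (nat_lit 1386) (nat_lit 105) (.e (nat_lit 311357) (nat_lit 28) (.e (nat_lit 344069) (nat_lit 0) (.e (nat_lit 2854) (nat_lit 184) (.e (nat_lit 426533) (nat_lit 28) (.e (nat_lit 344074) (nat_lit 13) .nil)))))) (.g (nat_lit 5) .nil .nil)))) (.nd (nat_lit 5) 
(.lf (nat_lit 54162) (.g (nat_lit 3133) (.e (nat_lit 1386) (nat_lit 105) (.e (nat_lit 319232) (nat_lit 15) (.e (nat_lit 2031) (nat_lit 140) (.e (nat_lit 688177) (nat_lit 16) (.e (nat_lit 65586) (nat_lit 7) (.e (nat_lit 319531) (nat_lit 16) (.e (nat_lit 286727) (nat_lit 0) (.e (nat_lit 6150) (nat_lit 332) .nil)))))))) (.g (nat_lit 7) .nil .nil))) 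
(.lf (nat_lit 54194) (.g (nat_lit 2117) (.e (nat_lit 1386) (nat_lit 105) (.e (nat_lit 311358) (nat_lit 29) (.e (nat_lit 352265) (nat_lit 0) (.e (nat_lit 3632) (nat_lit 227) (.e (nat_lit 778323) (nat_lit 5) (.e (nat_lit 73788) (nat_lit 45) .nil)))))) (.g (nat_lit 5) .nil .nil))))) (.nd (nat_lit 4) (.nd (nat_lit 5) 
(.lf (nat_lit 54154) (.g (nat_lit 2531) (.e (nat_lit 1386) (nat_lit 105) (.e (nat_lit 311348) (nat_lit 15) (.e (nat_lit 1849) (nat_lit 124) (.e (nat_lit 557108) (nat_lit 15) (.e (nat_lit 188449) (nat_lit 22) (.e (nat_lit 196661) (nat_lit 12) (.e (nat_lit 57711) (nat_lit 176) .nil))))))) (.g (nat_lit 6) .nil .nil))) 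
(.lf (nat_lit 54186) (.g (nat_lit 790) (.e (nat_lit 1386) (nat_lit 105) (.e (nat_lit 311358) (nat_lit 29) (.e (nat_lit 352264) (nat_lit 0) (.e (nat_lit 3711) (nat_lit 227) (.e (nat_lit 786176) (nat_lit 5) (.e (nat_lit 73788) (nat_lit 45) .nil)))))) (.g (nat_lit 4) .nil .nil)))) (.nd (nat_lit 5) 
(.lf (nat_lit 54170) (.g (nat_lit 1003) (.e (nat_lit 1386) (nat_lit 105) (.e (nat_lit 311353) (nat_lit 27) (.e (nat_lit 336228) (nat_lit 14) (.e (nat_lit 401459) (nat_lit 13) (.e (nat_lit 483350) (nat_lit 17) .nil))))) .nil)) 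
(.lf (nat_lit 54202) (.g (nat_lit 1328) (.e (nat_lit 1386) (nat_lit 105) (.e (nat_lit 311358) (nat_lit 29) (.e (nat_lit 352283) (nat_lit 20) (.e (nat_lit 1994) (nat_lit 137) (.e (nat_lit 663568) (nat_lit 5) (.e (nat_lit 73788) (nat_lit 45) .nil)))))) (.g (nat_lit 6) .nil .nil)))))) (.nd (nat_lit 3) (.nd (nat_lit 4) (.nd (nat_lit 5) 
(.lf (nat_lit 54150) (.g (nat_lit 1138) (.e (nat_lit 1385) (nat_lit 105) (.e (nat_lit 319232) (nat_lit 30) (.e (nat_lit 360453) (nat_lit 0) (.e (nat_lit 5907) (nat_lit 320) (.e (nat_lit 7936) (nat_lit 89) (.e (nat_lit 73792) (nat_lit 45) .nil)))))) (.g (nat_lit 4) .nil .nil))) 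
(.lf (nat_lit 54182) (.g (nat_lit 2082) (.e (nat_lit 1386) (nat_lit 105) (.e (nat_lit 311357) (nat_lit 28) (.e (nat_lit 344069) (nat_lit 0) (.e (nat_lit 2857) (nat_lit 184) (.e (nat_lit 426533) (nat_lit 28) (.e (nat_lit 344076) (nat_lit 13) .nil)))))) (.g (nat_lit 6) .nil .nil)))) (.nd (nat_lit 5) 
(.lf (nat_lit 54166) (.g (nat_lit 1750) (.e (nat_lit 1386) (nat_lit 105) (.e (nat_lit 311353) (nat_lit 27) (.e (nat_lit 336205) (nat_lit 12) (.e (nat_lit 385093) (nat_lit 49) (.e (nat_lit 778323) (nat_lit 5) (.e (nat_lit 73788) (nat_lit 45) .nil)))))) (.g (nat_lit 5) .nil .nil))) 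
(.lf (nat_lit 54198) (.g (nat_lit 1352) (.e (nat_lit 1386) (nat_lit 105) (.e (nat_lit 311358) (nat_lit 29) (.e (nat_lit 352267) (nat_lit 0) (.e (nat_lit 3629) (nat_lit 227) (.e (nat_lit 778324) (nat_lit 5) (.e (nat_lit 73791) (nat_lit 45) .nil)))))) (.g (nat_lit 5) .nil .nil))))) (.nd (nat_lit 4) (.nd (nat_lit 5) 
(.lf (nat_lit 54158) (.g (nat_lit 3688) (.e (nat_lit 1386) (nat_lit 105) (.e (nat_lit 311348) (nat_lit 15) (.e (nat_lit 1858) (nat_lit 124) (.e (nat_lit 557101) (nat_lit 13) (.e (nat_lit 172097) (nat_lit 9) (.e (nat_lit 426125) (nat_lit 2) (.e (nat_lit 196661) (nat_lit 12) (.e (nat_lit 57711) (nat_lit 176) .nil)))))))) (.g (nat_lit 7) .nil .nil))) 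
(.lf (nat_lit 54190) (.g (nat_lit 810) (.e (nat_lit 1386) (nat_lit 105) (.e (nat_lit 311358) (nat_lit 29) (.e (nat_lit 352264) (nat_lit 0) (.e (nat_lit 3714) (nat_lit 227) (.e (nat_lit 786176) (nat_lit 5) (.e (nat_lit 73788) (nat_lit 45) .nil)))))) (.g (nat_lit 4) .nil .nil)))) (.nd (nat_lit 5) 
(.lf (nat_lit 54174) (.g (nat_lit 2519) (.e (nat_lit 1386) (nat_lit 105) (.e (nat_lit 311357) (nat_lit 28) (.e (nat_lit 344068) (nat_lit 0) (.e (nat_lit 2856) (nat_lit 184) (.e (nat_lit 426533) (nat_lit 28) (.e (nat_lit 344074) (nat_lit 13) .nil)))))) (.g (nat_lit 5) .nil .nil))) 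
(.lf (nat_lit 54206) (.g (nat_lit 1323) (.e (nat_lit 1386) (nat_lit 105) (.e (nat_lit 311358) (nat_lit 29) (.e (nat_lit 352286) (nat_lit 20) (.e (nat_lit 1994) (nat_lit 137) (.e (nat_lit 663568) (nat_lit 5) (.e (nat_lit 73789) (nat_lit 45) .nil)))))) (.g (nat_lit 6) .nil .nil)))))))) (.nd (nat_lit 1) (.nd (nat_lit 2) (.nd (nat_lit 3) (.nd (nat_lit 4) (.nd (nat_lit 5) 
(.lf (nat_lit 54145) (.g (nat_lit 1515) (.e (nat_lit 1385) (nat_lit 105) (.e (nat_lit 311358) (nat_lit 29) (.e (nat_lit 352318) (nat_lit 24) (.e (nat_lit 123198) (nat_lit 266) (.e (nat_lit 57421) (nat_lit 13) (.e (nat_lit 344081) (nat_lit 13) .nil)))))) (.g (nat_lit 0) .nil .nil))) 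
(.lf (nat_lit 54177) (.g (nat_lit 2096) (.e (nat_lit 1386) (nat_lit 105) (.e (nat_lit 311357) (nat_lit 28) (.e (nat_lit 344068) (nat_lit 0) (.e (nat_lit 2857) (nat_lit 184) (.e (nat_lit 426533) (nat_lit 28) (.e (nat_lit 344074) (nat_lit 13) .nil)))))) (.g (nat_lit 0) .nil .nil)))) (.nd (nat_lit 5) 
(.lf (nat_lit 54161) (.g (nat_lit 2928) (.e (nat_lit 1386) (nat_lit 105) (.e (nat_lit 311348) (nat_lit 15) (.e (nat_lit 1859) (nat_lit 124) (.e (nat_lit 557109) (nat_lit 15) (.e (nat_lit 188449) (nat_lit 22) (.e (nat_lit 196661) (nat_lit 12) (.e (nat_lit 57711) (nat_lit 176) .nil))))))) (.g (nat_lit 6) .nil .nil))) 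
(.lf (nat_lit 54193) (.g (nat_lit 1946) (.e (nat_lit 1386) (nat_lit 105) (.e (nat_lit 311358) (nat_lit 29) (.e (nat_lit 352265) (nat_lit 0) (.e (nat_lit 3631) (nat_lit 227) (.e (nat_lit 778323) (nat_lit 5) (.e (nat_lit 73788) (nat_lit 45) .nil)))))) (.g (nat_lit 5) .nil .nil))))) (.nd (nat_lit 4) (.nd (nat_lit 5) 
(.lf (nat_lit 54153) (.g (nat_lit 2720) (.e (nat_lit 1386) (nat_lit 105) (.e (nat_lit 311348) (nat_lit 15) (.e (nat_lit 1848) (nat_lit 124) (.e (nat_lit 557108) (nat_lit 15) (.e (nat_lit 188449) (nat_lit 22) (.e (nat_lit 196661) (nat_lit 12) (.e (nat_lit 57711) (nat_lit 176) .nil))))))) (.g (nat_lit 6) .nil .nil))) 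
(.lf (nat_lit 54185) (.g (nat_lit 1146) (.e (nat_lit 1386) (nat_lit 105) (.e (nat_lit 311358) (nat_lit 29) (.e (nat_lit 352264) (nat_lit 0) (.e (nat_lit 3711) (nat_lit 227) (.e (nat_lit 778322) (nat_lit 5) (.e (nat_lit 73788) (nat_lit 45) .nil)))))) (.g (nat_lit 6) .nil .nil)))) (.nd (nat_lit 5) 
(.lf (nat_lit 54169) (.g (nat_lit 1842) (.e (nat_lit 1386) (nat_lit 105) (.e (nat_lit 311353) (nat_lit 27) (.e (nat_lit 336228) (nat_lit 14) (.e (nat_lit 401438) (nat_lit 9) (.e (nat_lit 426533) (nat_lit 28) (.e (nat_lit 344074) (nat_lit 13) .nil)))))) (.g (nat_lit 5) .nil .nil))) 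
(.lf (nat_lit 54201) (.g (nat_lit 2401) (.e (nat_lit 1386) (nat_lit 105) (.e (nat_lit 311358) (nat_lit 29) (.e (nat_lit 352267) (nat_lit 0) (.e (nat_lit 3632) (nat_lit 227) (.e (nat_lit 778323) (nat_lit 5) (.e (nat_lit 73792) (nat_lit 45) .nil)))))) (.g (nat_lit 5) .nil .nil)))))) (.nd (nat_lit 3) (.nd (nat_lit 4) (.nd (nat_lit 5) 
(.lf (nat_lit 54149) (.g (nat_lit 964) (.e (nat_lit 1385) (nat_lit 105) (.e (nat_lit 319232) (nat_lit 30) (.e (nat_lit 360450) (nat_lit 0) (.e (nat_lit 5898) (nat_lit 320) (.e (nat_lit 7936) (nat_lit 89) (.e (nat_lit 73788) (nat_lit 45) .nil)))))) (.g (nat_lit 4) .nil .nil))) 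
(.lf (nat_lit 54181) (.g (nat_lit 2230) (.e (nat_lit 1386) (nat_lit 105) (.e (nat_lit 311357) (nat_lit 28) (.e (nat_lit 344069) (nat_lit 0) (.e (nat_lit 2856) (nat_lit 184) (.e (nat_lit 426533) (nat_lit 28) (.e (nat_lit 344081) (nat_lit 13) .nil)))))) (.g (nat_lit 5) .nil .nil)))) (.nd (nat_lit 5) 
(.lf (nat_lit 54165) (.g (nat_lit 2062) (.e (nat_lit 1386) (nat_lit 105) (.e (nat_lit 311353) (nat_lit 27) (.e (nat_lit 336200) (nat_lit 12) (.e (nat_lit 385094) (nat_lit 49) (.e (nat_lit 778324) (nat_lit 5) (.e (nat_lit 73791) (nat_lit 45) .nil)))))) (.g (nat_lit 5) .nil .nil))) 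
(.lf (nat_lit 54197) (.g (nat_lit 1402) (.e (nat_lit 1386) (nat_lit 105) (.e (nat_lit 311358) (nat_lit 29) (.e (nat_lit 352266) (nat_lit 0) (.e (nat_lit 3631) (nat_lit 227) (.e (nat_lit 778323) (nat_lit 5) (.e (nat_lit 73789) (nat_lit 45) .nil)))))) (.g (nat_lit 4) .nil .nil))))) (.nd (nat_lit 4) (.nd (nat_lit 5) 
(.lf (nat_lit 54157) (.g (nat_lit 3633) (.e (nat_lit 1386) (nat_lit 105) (.e (nat_lit 311348) (nat_lit 15) (.e (nat_lit 1849) (nat_lit 124) (.e (nat_lit 557109) (nat_lit 15) (.e (nat_lit 188452) (nat_lit 23) (.e (nat_lit 204821) (nat_lit 17) (.e (nat_lit 6136) (nat_lit 332) .nil))))))) (.g (nat_lit 6) .nil .nil))) 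
(.lf (nat_lit 54189) (.g (nat_lit 1000) (.e (nat_lit 1386) (nat_lit 105) (.e (nat_lit 311358) (nat_lit 29) (.e (nat_lit 352264) (nat_lit 0) (.e (nat_lit 3714) (nat_lit 227) (.e (nat_lit 778322) (nat_lit 5) (.e (nat_lit 73791) (nat_lit 45) .nil)))))) (.g (nat_lit 5) .nil .nil)))) (.nd (nat_lit 5) 
(.lf (nat_lit 54173) (.g (nat_lit 1217) (.e (nat_lit 1386) (nat_lit 105) (.e (nat_lit 311357) (nat_lit 28) (.e (nat_lit 344068) (nat_lit 0) (.e (nat_lit 2854) (nat_lit 184) (.e (nat_lit 426533) (nat_lit 28) (.e (nat_lit 344074) (nat_lit 13) .nil)))))) (.g (nat_lit 5) .nil .nil))) 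
(.lf (nat_lit 54205) (.g (nat_lit 1119) (.e (nat_lit 1386) (nat_lit 105) (.e (nat_lit 311358) (nat_lit 29) (.e (nat_lit 352286) (nat_lit 20) (.e (nat_lit 1994) (nat_lit 137) (.e (nat_lit 663568) (nat_lit 5) (.e (nat_lit 73788) (nat_lit 45) .nil)))))) (.g (nat_lit 5) .nil .nil))))))) (.nd (nat_lit 2) (.nd (nat_lit 3) (.nd (nat_lit 4) (.nd (nat_lit 5) 
(.lf (nat_lit 54147) (.g (nat_lit 1080) (.e (nat_lit 1385) (nat_lit 105) (.e (nat_lit 319232) (nat_lit 30) (.e (nat_lit 360449) (nat_lit 0) (.e (nat_lit 5896) (nat_lit 320) (.e (nat_lit 7936) (nat_lit 89) (.e (nat_lit 73792) (nat_lit 45) .nil)))))) (.g (nat_lit 4) .nil .nil))) 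
(.lf (nat_lit 54179) (.g (nat_lit 2198) (.e (nat_lit 1386) (nat_lit 105) (.e (nat_lit 311357) (nat_lit 28) (.e (nat_lit 344069) (nat_lit 0) (.e (nat_lit 2856) (nat_lit 184) (.e (nat_lit 426533) (nat_lit 28) (.e (nat_lit 344074) (nat_lit 13) .nil)))))) (.g (nat_lit 5) .nil .nil)))) (.nd (nat_lit 5) 
(.lf (nat_lit 54163) (.g (nat_lit 2548) (.e (nat_lit 1386) (nat_lit 105) (.e (nat_lit 311353) (nat_lit 27) (.e (nat_lit 336200) (nat_lit 12) (.e (nat_lit 385094) (nat_lit 49) (.e (nat_lit 778323) (nat_lit 5) (.e (nat_lit 73788) (nat_lit 45) .nil)))))) (.g (nat_lit 0) .nil .nil))) 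
(.lf (nat_lit 54195) (.g (nat_lit 2308) (.e (nat_lit 1386) (nat_lit 105) (.e (nat_lit 311358) (nat_lit 29) (.e (nat_lit 352265) (nat_lit 0) (.e (nat_lit 3632) (nat_lit 227) (.e (nat_lit 778323) (nat_lit 5) (.e (nat_lit 73789) (nat_lit 45) .nil)))))) (.g (nat_lit 6) .nil .nil))))) (.nd (nat_lit 4) (.nd (nat_lit 5) 
(.lf (nat_lit 54155) (.g (nat_lit 2727) (.e (nat_lit 1386) (nat_lit 105) (.e (nat_lit 311348) (nat_lit 15) (.e (nat_lit 1849) (nat_lit 124) (.e (nat_lit 557109) (nat_lit 15) (.e (nat_lit 188449) (nat_lit 22) (.e (nat_lit 196661) (nat_lit 12) (.e (nat_lit 57711) (nat_lit 176) .nil))))))) (.g (nat_lit 5) .nil .nil))) 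
(.lf (nat_lit 54187) (.g (nat_lit 863) (.e (nat_lit 1386) (nat_lit 105) (.e (nat_lit 311358) (nat_lit 29) (.e (nat_lit 352264) (nat_lit 0) (.e (nat_lit 3711) (nat_lit 227) (.e (nat_lit 786176) (nat_lit 5) (.e (nat_lit 73791) (nat_lit 45) .nil)))))) (.g (nat_lit 4) .nil .nil)))) (.nd (nat_lit 5) 
(.lf (nat_lit 54171) (.g (nat_lit 1753) (.e (nat_lit 1386) (nat_lit 105) (.e (nat_lit 311353) (nat_lit 27) (.e (nat_lit 336228) (nat_lit 14) (.e (nat_lit 401459) (nat_lit 13) (.e (nat_lit 483354) (nat_lit 17) (.e (nat_lit 6149) (nat_lit 332) .nil)))))) (.g (nat_lit 5) .nil .nil))) 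
(.lf (nat_lit 54203) (.g (nat_lit 1906) (.e (nat_lit 1386) (nat_lit 105) (.e (nat_lit 311358) (nat_lit 29) (.e (nat_lit 352283) (nat_lit 20) (.e (nat_lit 1994) (nat_lit 137) (.e (nat_lit 663568) (nat_lit 5) (.e (nat_lit 73792) (nat_lit 45) .nil)))))) (.g (nat_lit 0) .nil .nil)))))) (.nd (nat_lit 3) (.nd (nat_lit 4) (.nd (nat_lit 5) 
(.lf (nat_lit 54151) (.g (nat_lit 788) (.e (nat_lit 1385) (nat_lit 105) (.e (nat_lit 319232) (nat_lit 30) (.e (nat_lit 360457) (nat_lit 0) (.e (nat_lit 5818) (nat_lit 320) (.e (nat_lit 1213) (nat_lit 89) (.e (nat_lit 73788) (nat_lit 45) .nil)))))) (.g (nat_lit 4) .nil .nil))) 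
(.lf (nat_lit 54183) (.g (nat_lit 1205) (.e (nat_lit 1386) (nat_lit 105) (.e (nat_lit 311357) (nat_lit 28) (.e (nat_lit 344069) (nat_lit 0) (.e (nat_lit 2857) (nat_lit 184) (.e (nat_lit 426537) (nat_lit 28) .nil))))) .nil))) (.nd (nat_lit 5) 
(.lf (nat_lit 54167) (.g (nat_lit 1889) (.e (nat_lit 1386) (nat_lit 105) (.e (nat_lit 311353) (nat_lit 27) (.e (nat_lit 336205) (nat_lit 12) (.e (nat_lit 385093) (nat_lit 49) (.e (nat_lit 778323) (nat_lit 5) (.e (nat_lit 73789) (nat_lit 45) .nil)))))) (.g (nat_lit 5) .nil .nil))) 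
(.lf (nat_lit 54199) (.g (nat_lit 1820) (.e (nat_lit 1386) (nat_lit 105) (.e (nat_lit 311358) (nat_lit 29) (.e (nat_lit 352267) (nat_lit 0) (.e (nat_lit 3631) (nat_lit 227) (.e (nat_lit 778324) (nat_lit 5) (.e (nat_lit 73791) (nat_lit 45) .nil)))))) (.g (nat_lit 5) .nil .nil))))) (.nd (nat_lit 4) (.nd (nat_lit 5) 
(.lf (nat_lit 54159) (.g (nat_lit 4311) (.e (nat_lit 1386) (nat_lit 105) (.e (nat_lit 311348) (nat_lit 15) (.e (nat_lit 1858) (nat_lit 124) (.e (nat_lit 557109) (nat_lit 15) (.e (nat_lit 188449) (nat_lit 22) (.e (nat_lit 196661) (nat_lit 12) (.e (nat_lit 57714) (nat_lit 176) .nil))))))) (.g (nat_lit 5) .nil .nil))) 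
(.lf (nat_lit 54191) (.g (nat_lit 880) (.e (nat_lit 1386) (nat_lit 105) (.e (nat_lit 311358) (nat_lit 29) (.e (nat_lit 352264) (nat_lit 0) (.e (nat_lit 3714) (nat_lit 227) (.e (nat_lit 786176) (nat_lit 5) (.e (nat_lit 73791) (nat_lit 45) .nil)))))) (.g (nat_lit 4) .nil .nil)))) (.nd (nat_lit 5) 
(.lf (nat_lit 54175) (.g (nat_lit 2020) (.e (nat_lit 1386) (nat_lit 105) (.e (nat_lit 311357) (nat_lit 28) (.e (nat_lit 344068) (nat_lit 0) (.e (nat_lit 2856) (nat_lit 184) (.e (nat_lit 426533) (nat_lit 28) (.e (nat_lit 344076) (nat_lit 13) .nil)))))) (.g (nat_lit 5) .nil .nil))) 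
(.lf (nat_lit 54207) (.g (nat_lit 1140) (.e (nat_lit 1386) (nat_lit 105) (.e (nat_lit 311358) (nat_lit 29) (.e (nat_lit 352286) (nat_lit 20) (.e (nat_lit 1994) (nat_lit 137) (.e (nat_lit 663568) (nat_lit 5) (.e (nat_lit 73791) (nat_lit 45) .nil)))))) (.g (nat_lit 5) .nil .nil)))))))))

noncomputable def tv752 : DT := (.nd (nat_lit 0) (.nd (nat_lit 1) (.nd (nat_lit 2) (.nd (nat_lit 3) (.nd (nat_lit 4) (.nd (nat_lit 5) 
(.lf (nat_lit 54208) (.g (nat_lit 1130) (.e (nat_lit 1386) (nat_lit 105) (.e (nat_lit 311358) (nat_lit 29) (.e (nat_lit 352286) (nat_lit 20) (.e (nat_lit 1996) (nat_lit 137) (.e (nat_lit 663568) (nat_lit 5) (.e (nat_lit 73788) (nat_lit 45) .nil)))))) (.g (nat_lit 6) .nil .nil))) 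
(.lf (nat_lit 54240) (.g (nat_lit 1016) (.e (nat_lit 1386) (nat_lit 105) (.e (nat_lit 311358) (nat_lit 29) (.e (nat_lit 352316) (nat_lit 24) (.e (nat_lit 123198) (nat_lit 266) (.e (nat_lit 57421) (nat_lit 13) (.e (nat_lit 344080) (nat_lit 13) .nil)))))) (.g (nat_lit 4) .nil .nil)))) (.nd (nat_lit 5) 
(.lf (nat_lit 54224) (.g (nat_lit 1195) (.e (nat_lit 1386) (nat_lit 105) (.e (nat_lit 311358) (nat_lit 29) (.e (nat_lit 352297) (nat_lit 20) (.e (nat_lit 2005) (nat_lit 138) (.e (nat_lit 671763) (nat_lit 5) (.e (nat_lit 73791) (nat_lit 45) .nil)))))) (.g (nat_lit 6) .nil .nil))) 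
(.lf (nat_lit 54256) (.g (nat_lit 2297) (.e (nat_lit 1392) (nat_lit 106) (.e (nat_lit 319530) (nat_lit 16) (.e (nat_lit 286727) (nat_lit 0) (.e (nat_lit 1799) (nat_lit 119) (.e (nat_lit 516177) (nat_lit 14) .nil))))) .nil)))) (.nd (nat_lit 4) (.nd (nat_lit 5) 
(.lf (nat_lit 54216) (.g (nat_lit 1108) (.e (nat_lit 1386) (nat_lit 105) (.e (nat_lit 311358) (nat_lit 29) (.e (nat_lit 352290) (nat_lit 20) (.e (nat_lit 2005) (nat_lit 138) (.e (nat_lit 671763) (nat_lit 5) (.e (nat_lit 73788) (nat_lit 45) .nil)))))) (.g (nat_lit 6) .nil .nil))) 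
(.lf (nat_lit 54248) (.g (nat_lit 803) (.e (nat_lit 1386) (nat_lit 105) (.e (nat_lit 319232) (nat_lit 30) (.e (nat_lit 360449) (nat_lit 0) (.e (nat_lit 5898) (nat_lit 320) (.e (nat_lit 7936) (nat_lit 89) (.e (nat_lit 73788) (nat_lit 45) .nil)))))) (.g (nat_lit 4) .nil .nil)))) (.nd (nat_lit 5) 
(.lf (nat_lit 54232) (.g (nat_lit 1273) (.e (nat_lit 1386) (nat_lit 105) (.e (nat_lit 311358) (nat_lit 29) (.e (nat_lit 352303) (nat_lit 20) (.e (nat_lit 2006) (nat_lit 138) (.e (nat_lit 671763) (nat_lit 5) (.e (nat_lit 73788) (nat_lit 45) .nil)))))) (.g (nat_lit 0) .nil .nil))) 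
(.lf (nat_lit 54264) (.g (nat_lit 2497) (.e (nat_lit 1392) (nat_lit 106) (.e (nat_lit 319531) (nat_lit 16) (.e (nat_lit 286735) (nat_lit 3) (.e (nat_lit 98382) (nat_lit 31) (.e (nat_lit 466977) (nat_lit 22) .nil))))) .nil))))) (.nd (nat_lit 3) (.nd (nat_lit 4) (.nd (nat_lit 5) 
(.lf (nat_lit 54212) (.g (nat_lit 1891) (.e (nat_lit 1386) (nat_lit 105) (.e (nat_lit 311358) (nat_lit 29) (.e (nat_lit 352287) (nat_lit 20) (.e (nat_lit 1994) (nat_lit 137) (.e (nat_lit 663568) (nat_lit 5) (.e (nat_lit 73792) (nat_lit 45) .nil)))))) (.g (nat_lit 0) .nil .nil))) 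
(.lf (nat_lit 54244) (.g (nat_lit 1672) (.e (nat_lit 1386) (nat_lit 105) (.e (nat_lit 311358) (nat_lit 29) (.e (nat_lit 352318) (nat_lit 24) (.e (nat_lit 123198) (nat_lit 266) (.e (nat_lit 57421) (nat_lit 13) (.e (nat_lit 344081) (nat_lit 13) .nil)))))) (.g (nat_lit 0) .nil .nil)))) (.nd (nat_lit 5) 
(.lf (nat_lit 54228) (.g (nat_lit 1591) (.e (nat_lit 1386) (nat_lit 105) (.e (nat_lit 311358) (nat_lit 29) (.e (nat_lit 352302) (nat_lit 20) (.e (nat_lit 2006) (nat_lit 138) (.e (nat_lit 671763) (nat_lit 5) (.e (nat_lit 73792) (nat_lit 45) .nil)))))) (.g (nat_lit 5) .nil .nil))) 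
(.lf (nat_lit 54260) (.g (nat_lit 2261) (.e (nat_lit 1392) (nat_lit 106) (.e (nat_lit 319530) (nat_lit 16) (.e (nat_lit 286735) (nat_lit 3) (.e (nat_lit 98382) (nat_lit 31) (.e (nat_lit 466977) (nat_lit 22) (.e (nat_lit 196619) (nat_lit 9) .nil)))))) (.g (nat_lit 4) .nil .nil))))) (.nd (nat_lit 4) (.nd (nat_lit 5) 
(.lf (nat_lit 54220) (.g (nat_lit 1131) (.e (nat_lit 1386) (nat_lit 105) (.e (nat_lit 311358) (nat_lit 29) (.e (nat_lit 352296) (nat_lit 20) (.e (nat_lit 2004) (nat_lit 138) (.e (nat_lit 671763) (nat_lit 5) (.e (nat_lit 73788) (nat_lit 45) .nil)))))) (.g (nat_lit 6) .nil .nil))) 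
(.lf (nat_lit 54252) (.g (nat_lit 690) (.e (nat_lit 1386) (nat_lit 105) (.e (nat_lit 319232) (nat_lit 30) (.e (nat_lit 360456) (nat_lit 0) (.e (nat_lit 5818) (nat_lit 320) (.e (nat_lit 1213) (nat_lit 89) (.e (nat_lit 73788) (nat_lit 45) .nil)))))) (.g (nat_lit 4) .nil .nil)))) (.nd (nat_lit 5) 
(.lf (nat_lit 54236) (.g (nat_lit 1179) (.e (nat_lit 1386) (nat_lit 105) (.e (nat_lit 311358) (nat_lit 29) (.e (nat_lit 352307) (nat_lit 21) (.e (nat_lit 57873) (nat_lit 264) (.e (nat_lit 7936) (nat_lit 89) (.e (nat_lit 73788) (nat_lit 45) .nil)))))) (.g (nat_lit 4) .nil .nil))) 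
(.lf (nat_lit 54268) (.g (nat_lit 2202) (.e (nat_lit 1392) (nat_lit 106) (.e (nat_lit 319534) (nat_lit 16) (.e (nat_lit 286756) (nat_lit 10) (.e (nat_lit 344157) (nat_lit 36) (.e (nat_lit 639000) (nat_lit 9) .nil))))) .nil)))))) (.nd (nat_lit 2) (.nd (nat_lit 3) (.nd (nat_lit 4) (.nd (nat_lit 5) 
(.lf (nat_lit 54210) (.g (nat_lit 1288) (.e (nat_lit 1386) (nat_lit 105) (.e (nat_lit 311358) (nat_lit 29) (.e (nat_lit 352286) (nat_lit 20) (.e (nat_lit 1999) (nat_lit 137) (.e (nat_lit 663568) (nat_lit 5) (.e (nat_lit 73788) (nat_lit 45) .nil)))))) (.g (nat_lit 0) .nil .nil))) 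
(.lf (nat_lit 54242) (.g (nat_lit 2108) (.e (nat_lit 1386) (nat_lit 105) (.e (nat_lit 311358) (nat_lit 29) (.e (nat_lit 352318) (nat_lit 24) (.e (nat_lit 123185) (nat_lit 264) (.e (nat_lit 1212) (nat_lit 89) (.e (nat_lit 73789) (nat_lit 45) .nil)))))) (.g (nat_lit 0) .nil .nil)))) (.nd (nat_lit 5) 
(.lf (nat_lit 54226) (.g (nat_lit 1092) (.e (nat_lit 1386) (nat_lit 105) (.e (nat_lit 311358) (nat_lit 29) (.e (nat_lit 352302) (nat_lit 20) (.e (nat_lit 2006) (nat_lit 138) (.e (nat_lit 671763) (nat_lit 5) .nil))))) .nil)) 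
(.lf (nat_lit 54258) (.g (nat_lit 2160) (.e (nat_lit 1392) (nat_lit 106) (.e (nat_lit 319530) (nat_lit 16) (.e (nat_lit 286735) (nat_lit 3) (.e (nat_lit 98382) (nat_lit 31) (.e (nat_lit 466974) (nat_lit 22) (.e (nat_lit 196619) (nat_lit 9) .nil)))))) (.g (nat_lit 4) .nil .nil))))) (.nd (nat_lit 4) (.nd (nat_lit 5) 
(.lf (nat_lit 54218) (.g (nat_lit 1280) (.e (nat_lit 1386) (nat_lit 105) (.e (nat_lit 311358) (nat_lit 29) (.e (nat_lit 352290) (nat_lit 20) (.e (nat_lit 2006) (nat_lit 138) (.e (nat_lit 671763) (nat_lit 5) (.e (nat_lit 73788) (nat_lit 45) .nil)))))) (.g (nat_lit 0) .nil .nil))) 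
(.lf (nat_lit 54250) (.g (nat_lit 863) (.e (nat_lit 1386) (nat_lit 105) (.e (nat_lit 319232) (nat_lit 30) (.e (nat_lit 360449) (nat_lit 0) (.e (nat_lit 5898) (nat_lit 320) (.e (nat_lit 7936) (nat_lit 89) (.e (nat_lit 73791) (nat_lit 45) .nil)))))) (.g (nat_lit 4) .nil .nil)))) (.nd (nat_lit 5) 
(.lf (nat_lit 54234) (.g (nat_lit 3189) (.e (nat_lit 1386) (nat_lit 105) (.e (nat_lit 311358) (nat_lit 29) (.e (nat_lit 352307) (nat_lit 21) (.e (nat_lit 57873) (nat_lit 264) (.e (nat_lit 1209) (nat_lit 89) (.e (nat_lit 73792) (nat_lit 45) .nil)))))) (.g (nat_lit 0) .nil .nil))) 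
(.lf (nat_lit 54266) (.g (nat_lit 2058) (.e (nat_lit 1392) (nat_lit 106) (.e (nat_lit 319534) (nat_lit 16) (.e (nat_lit 286756) (nat_lit 10) (.e (nat_lit 344153) (nat_lit 35) .nil)))) .nil))))) (.nd (nat_lit 3) (.nd (nat_lit 4) (.nd (nat_lit 5) 
(.lf (nat_lit 54214) (.g (nat_lit 1196) (.e (nat_lit 1386) (nat_lit 105) (.e (nat_lit 311358) (nat_lit 29) (.e (nat_lit 352287) (nat_lit 20) (.e (nat_lit 1996) (nat_lit 137) (.e (nat_lit 663568) (nat_lit 5) (.e (nat_lit 73791) (nat_lit 45) .nil)))))) (.g (nat_lit 6) .nil .nil))) 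
(.lf (nat_lit 54246) (.g (nat_lit 1065) (.e (nat_lit 1386) (nat_lit 105) (.e (nat_lit 319232) (nat_lit 30) (.e (nat_lit 360449) (nat_lit 0) (.e (nat_lit 5896) (nat_lit 320) (.e (nat_lit 7936) (nat_lit 89) (.e (nat_lit 73789) (nat_lit 45) .nil)))))) (.g (nat_lit 4) .nil .nil)))) (.nd (nat_lit 5) 
(.lf (nat_lit 54230) (.g (nat_lit 1163) (.e (nat_lit 1386) (nat_lit 105) (.e (nat_lit 311358) (nat_lit 29) (.e (nat_lit 352303) (nat_lit 20) (.e (nat_lit 2003) (nat_lit 138) (.e (nat_lit 671763) (nat_lit 5) (.e (nat_lit 73791) (nat_lit 45) .nil)))))) (.g (nat_lit 5) .nil .nil))) 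
(.lf (nat_lit 54262) (.g (nat_lit 2447) (.e (nat_lit 1392) (nat_lit 106) (.e (nat_lit 319531) (nat_lit 16) (.e (nat_lit 286735) (nat_lit 3) (.e (nat_lit 98381) (nat_lit 31) .nil)))) .nil)))) (.nd (nat_lit 4) (.nd (nat_lit 5) 
(.lf (nat_lit 54222) (.g (nat_lit 1203) (.e (nat_lit 1386) (nat_lit 105) (.e (nat_lit 311358) (nat_lit 29) (.e (nat_lit 352296) (nat_lit 20) (.e (nat_lit 2006) (nat_lit 138) (.e (nat_lit 671763) (nat_lit 5) (.e (nat_lit 73788) (nat_lit 45) .nil)))))) (.g (nat_lit 0) .nil .nil))) 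
(.lf (nat_lit 54254) (.g (nat_lit 992) (.e (nat_lit 1386) (nat_lit 105) (.e (nat_lit 319232) (nat_lit 30) (.e (nat_lit 360457) (nat_lit 0) (.e (nat_lit 5818) (nat_lit 320) (.e (nat_lit 1213) (nat_lit 89) (.e (nat_lit 73788) (nat_lit 45) .nil)))))) (.g (nat_lit 4) .nil .nil)))) (.nd (nat_lit 5) 
(.lf (nat_lit 54238) (.g (nat_lit 1274) (.e (nat_lit 1386) (nat_lit 105) (.e (nat_lit 311358) (nat_lit 29) (.e (nat_lit 352309) (nat_lit 21) (.e (nat_lit 57873) (nat_lit 264) (.e (nat_lit 7936) (nat_lit 89) (.e (nat_lit 73788) (nat_lit 45) .nil)))))) (.g (nat_lit 4) .nil .nil))) 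
(.lf (nat_lit 54270) (.g (nat_lit 3881) (.e (nat_lit 1393) (nat_lit 106) (.e (nat_lit 319505) (nat_lit 10) (.e (nat_lit 618) (nat_lit 48) (.e (nat_lit 557105) (nat_lit 14) (.e (nat_lit 180252) (nat_lit 10) (.e (nat_lit 573489) (nat_lit 14) (.e (nat_lit 73755) (nat_lit 8) (.e (nat_lit 557057) (nat_lit 0) .nil)))))))) (.g (nat_lit 6) .nil .nil)))))))) 
(.nd (nat_lit 1) (.nd (nat_lit 2) (.nd (nat_lit 3) (.nd (nat_lit 4) (.nd (nat_lit 5) 
(.lf (nat_lit 54209) (.g (nat_lit 1686) (.e (nat_lit 1386) (nat_lit 105) (.e (nat_lit 311358) (nat_lit 29) (.e (nat_lit 352286) (nat_lit 20) (.e (nat_lit 1996) (nat_lit 137) (.e (nat_lit 663568) (nat_lit 5) (.e (nat_lit 73792) (nat_lit 45) .nil)))))) (.g (nat_lit 0) .nil .nil))) 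
(.lf (nat_lit 54241) (.g (nat_lit 1456) (.e (nat_lit 1386) (nat_lit 105) (.e (nat_lit 311358) (nat_lit 29) (.e (nat_lit 352317) (nat_lit 24) (.e (nat_lit 123182) (nat_lit 264) (.e (nat_lit 1212) (nat_lit 89) (.e (nat_lit 73789) (nat_lit 45) .nil)))))) (.g (nat_lit 4) .nil .nil)))) (.nd (nat_lit 5) 
(.lf (nat_lit 54225) (.g (nat_lit 1342) (.e (nat_lit 1386) (nat_lit 105) (.e (nat_lit 311358) (nat_lit 29) (.e (nat_lit 352297) (nat_lit 20) (.e (nat_lit 2006) (nat_lit 138) (.e (nat_lit 671763) (nat_lit 5) (.e (nat_lit 73788) (nat_lit 45) .nil)))))) (.g (nat_lit 0) .nil .nil))) 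
(.lf (nat_lit 54257) (.g (nat_lit 2584) (.e (nat_lit 1392) (nat_lit 106) (.e (nat_lit 319530) (nat_lit 16) (.e (nat_lit 286735) (nat_lit 3) (.e (nat_lit 98381) (nat_lit 31) (.e (nat_lit 466977) (nat_lit 22) .nil))))) .nil)))) (.nd (nat_lit 4) (.nd (nat_lit 5) 
(.lf (nat_lit 54217) (.g (nat_lit 1133) (.e (nat_lit 1386) (nat_lit 105) (.e (nat_lit 311358) (nat_lit 29) (.e (nat_lit 352290) (nat_lit 20) (.e (nat_lit 2005) (nat_lit 138) (.e (nat_lit 671763) (nat_lit 5) (.e (nat_lit 73791) (nat_lit 45) .nil)))))) (.g (nat_lit 6) .nil .nil))) 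
(.lf (nat_lit 54249) (.g (nat_lit 1011) (.e (nat_lit 1386) (nat_lit 105) (.e (nat_lit 319232) (nat_lit 30) (.e (nat_lit 360449) (nat_lit 0) (.e (nat_lit 5898) (nat_lit 320) (.e (nat_lit 7936) (nat_lit 89) (.e (nat_lit 73789) (nat_lit 45) .nil)))))) (.g (nat_lit 4) .nil .nil)))) (.nd (nat_lit 5) 
(.lf (nat_lit 54233) (.g (nat_lit 2553) (.e (nat_lit 1386) (nat_lit 105) (.e (nat_lit 311358) (nat_lit 29) (.e (nat_lit 352307) (nat_lit 21) (.e (nat_lit 57871) (nat_lit 264) (.e (nat_lit 1209) (nat_lit 89) (.e (nat_lit 73792) (nat_lit 45) .nil)))))) (.g (nat_lit 5) .nil .nil))) 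
(.lf (nat_lit 54265) (.g (nat_lit 937) (.e (nat_lit 1392) (nat_lit 106) (.e (nat_lit 319534) (nat_lit 16) (.e (nat_lit 286734) (nat_lit 3) .nil))) .nil))))) (.nd (nat_lit 3) (.nd (nat_lit 4) (.nd (nat_lit 5) 
(.lf (nat_lit 54213) (.g (nat_lit 1199) (.e (nat_lit 1386) (nat_lit 105) (.e (nat_lit 311358) (nat_lit 29) (.e (nat_lit 352287) (nat_lit 20) (.e (nat_lit 1996) (nat_lit 137) (.e (nat_lit 663568) (nat_lit 5) (.e (nat_lit 73788) (nat_lit 45) .nil)))))) (.g (nat_lit 6) .nil .nil))) 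
(.lf (nat_lit 54245) (.g (nat_lit 991) (.e (nat_lit 1386) (nat_lit 105) (.e (nat_lit 319232) (nat_lit 30) (.e (nat_lit 360449) (nat_lit 0) (.e (nat_lit 5896) (nat_lit 320) (.e (nat_lit 7936) (nat_lit 89) (.e (nat_lit 73788) (nat_lit 45) .nil)))))) (.g (nat_lit 4) .nil .nil)))) (.nd (nat_lit 5) 
(.lf (nat_lit 54229) (.g (nat_lit 1125) (.e (nat_lit 1386) (nat_lit 105) (.e (nat_lit 311358) (nat_lit 29) (.e (nat_lit 352303) (nat_lit 20) (.e (nat_lit 2003) (nat_lit 138) (.e (nat_lit 671763) (nat_lit 5) (.e (nat_lit 73788) (nat_lit 45) .nil)))))) (.g (nat_lit 5) .nil .nil))) 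
(.lf (nat_lit 54261) (.g (nat_lit 2266) (.e (nat_lit 1392) (nat_lit 106) (.e (nat_lit 319531) (nat_lit 16) (.e (nat_lit 286727) (nat_lit 0) (.e (nat_lit 1799) (nat_lit 119) .nil)))) .nil)))) (.nd (nat_lit 4) (.nd (nat_lit 5) 
(.lf (nat_lit 54221) (.g (nat_lit 1169) (.e (nat_lit 1386) (nat_lit 105) (.e (nat_lit 311358) (nat_lit 29) (.e (nat_lit 352296) (nat_lit 20) (.e (nat_lit 2004) (nat_lit 138) (.e (nat_lit 671763) (nat_lit 5) (.e (nat_lit 73791) (nat_lit 45) .nil)))))) (.g (nat_lit 6) .nil .nil))) 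
(.lf (nat_lit 54253) (.g (nat_lit 613) (.e (nat_lit 1386) (nat_lit 105) (.e (nat_lit 319232) (nat_lit 30) (.e (nat_lit 360456) (nat_lit 0) (.e (nat_lit 5818) (nat_lit 320) (.e (nat_lit 7936) (nat_lit 89) (.e (nat_lit 73788) (nat_lit 45) .nil)))))) (.g (nat_lit 4) .nil .nil)))) (.nd (nat_lit 5) 
(.lf (nat_lit 54237) (.g (nat_lit 3249) (.e (nat_lit 1386) (nat_lit 105) (.e (nat_lit 311358) (nat_lit 29) (.e (nat_lit 352309) (nat_lit 21) (.e (nat_lit 57873) (nat_lit 264) (.e (nat_lit 1209) (nat_lit 89) (.e (nat_lit 73792) (nat_lit 45) .nil)))))) (.g (nat_lit 0) .nil .nil))) 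
(.lf (nat_lit 54269) (.g (nat_lit 2980) (.e (nat_lit 1393) (nat_lit 106) (.e (nat_lit 319490) (nat_lit 0) (.e (nat_lit 5664) (nat_lit 312) (.e (nat_lit 3085) (nat_lit 191) .nil)))) .nil)))))) (.nd (nat_lit 2) (.nd (nat_lit 3) (.nd (nat_lit 4) (.nd (nat_lit 5) 
(.lf (nat_lit 54211) (.g (nat_lit 1483) (.e (nat_lit 1386) (nat_lit 105) (.e (nat_lit 311358) (nat_lit 29) (.e (nat_lit 352286) (nat_lit 20) (.e (nat_lit 1999) (nat_lit 137) (.e (nat_lit 663568) (nat_lit 5) (.e (nat_lit 73789) (nat_lit 45) .nil)))))) (.g (nat_lit 0) .nil .nil))) 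
(.lf (nat_lit 54243) (.g (nat_lit 1273) (.e (nat_lit 1386) (nat_lit 105) (.e (nat_lit 311358) (nat_lit 29) (.e (nat_lit 352318) (nat_lit 24) (.e (nat_lit 123198) (nat_lit 266) (.e (nat_lit 57421) (nat_lit 13) (.e (nat_lit 344079) (nat_lit 13) .nil)))))) (.g (nat_lit 5) .nil .nil)))) (.nd (nat_lit 5) 
(.lf (nat_lit 54227) (.g (nat_lit 1177) (.e (nat_lit 1386) (nat_lit 105) (.e (nat_lit 311358) (nat_lit 29) (.e (nat_lit 352302) (nat_lit 20) (.e (nat_lit 2006) (nat_lit 138) (.e (nat_lit 671763) (nat_lit 5) (.e (nat_lit 73789) (nat_lit 45) .nil)))))) (.g (nat_lit 4) .nil .nil))) 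
(.lf (nat_lit 54259) (.g (nat_lit 2191) (.e (nat_lit 1392) (nat_lit 106) (.e (nat_lit 319530) (nat_lit 16) (.e (nat_lit 286735) (nat_lit 3) (.e (nat_lit 98382) (nat_lit 31) (.e (nat_lit 466977) (nat_lit 22) .nil))))) .nil)))) (.nd (nat_lit 4) (.nd (nat_lit 5) 
(.lf (nat_lit 54219) (.g (nat_lit 393) (.e (nat_lit 1386) (nat_lit 105) (.e (nat_lit 311358) (nat_lit 29) (.e (nat_lit 352291) (nat_lit 20) .nil))) .nil)) 
(.lf (nat_lit 54251) (.g (nat_lit 1483) (.e (nat_lit 1386) (nat_lit 105) (.e (nat_lit 319232) (nat_lit 30) (.e (nat_lit 360452) (nat_lit 0) (.e (nat_lit 5907) (nat_lit 320) (.e (nat_lit 7936) (nat_lit 89) (.e (nat_lit 73792) (nat_lit 45) .nil)))))) (.g (nat_lit 4) .nil .nil)))) (.nd (nat_lit 5) 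
(.lf (nat_lit 54235) (.g (nat_lit 1668) (.e (nat_lit 1386) (nat_lit 105) (.e (nat_lit 311358) (nat_lit 29) (.e (nat_lit 352307) (nat_lit 21) (.e (nat_lit 57873) (nat_lit 264) (.e (nat_lit 1210) (nat_lit 89) (.e (nat_lit 73788) (nat_lit 45) .nil)))))) (.g (nat_lit 4) .nil .nil))) 
(.lf (nat_lit 54267) (.g (nat_lit 1976) (.e (nat_lit 1392) (nat_lit 106) (.e (nat_lit 319534) (nat_lit 16) (.e (nat_lit 286756) (nat_lit 10) (.e (nat_lit 344154) (nat_lit 35) .nil)))) .nil))))) (.nd (nat_lit 3) (.nd (nat_lit 4) (.nd (nat_lit 5) 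
(.lf (nat_lit 54215) (.g (nat_lit 1765) (.e (nat_lit 1386) (nat_lit 105) (.e (nat_lit 311358) (nat_lit 29) (.e (nat_lit 352287) (nat_lit 20) (.e (nat_lit 1996) (nat_lit 137) (.e (nat_lit 663568) (nat_lit 5) (.e (nat_lit 73792) (nat_lit 45) .nil)))))) (.g (nat_lit 0) .nil .nil))) 
(.lf (nat_lit 54247) (.g (nat_lit 1066) (.e (nat_lit 1386) (nat_lit 105) (.e (nat_lit 319232) (nat_lit 30) (.e (nat_lit 360449) (nat_lit 0) (.e (nat_lit 5896) (nat_lit 320) (.e (nat_lit 7936) (nat_lit 89) (.e (nat_lit 73791) (nat_lit 45) .nil)))))) (.g (nat_lit 4) .nil .nil)))) (.nd (nat_lit 5) 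
(.lf (nat_lit 54231) (.g (nat_lit 1190) (.e (nat_lit 1386) (nat_lit 105) (.e (nat_lit 311358) (nat_lit 29) (.e (nat_lit 352303) (nat_lit 20) (.e (nat_lit 2005) (nat_lit 138) (.e (nat_lit 671763) (nat_lit 5) (.e (nat_lit 73788) (nat_lit 45) .nil)))))) (.g (nat_lit 6) .nil .nil))) 
(.lf (nat_lit 54263) (.g (nat_lit 2098) (.e (nat_lit 1392) (nat_lit 106) (.e (nat_lit 319531) (nat_lit 16) (.e (nat_lit 286735) (nat_lit 3) (.e (nat_lit 98382) (nat_lit 31) .nil)))) .nil)))) (.nd (nat_lit 4) (.nd (nat_lit 5) 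
(.lf (nat_lit 54223) (.g (nat_lit 1155) (.e (nat_lit 1386) (nat_lit 105) (.e (nat_lit 311358) (nat_lit 29) (.e (nat_lit 352297) (nat_lit 20) (.e (nat_lit 2005) (nat_lit 138) (.e (nat_lit 671763) (nat_lit 5) (.e (nat_lit 73788) (nat_lit 45) .nil)))))) (.g (nat_lit 6) .nil .nil))) 
(.lf (nat_lit 54255) (.g (nat_lit 932) (.e (nat_lit 1386) (nat_lit 105) (.e (nat_lit 319232) (nat_lit 30) (.e (nat_lit 360457) (nat_lit 0) (.e (nat_lit 5818) (nat_lit 320) (.e (nat_lit 7936) (nat_lit 89) (.e (nat_lit 73788) (nat_lit 45) .nil)))))) (.g (nat_lit 4) .nil .nil)))) (.nd (nat_lit 5) 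
(.lf (nat_lit 54239) (.g (nat_lit 2207) (.e (nat_lit 1386) (nat_lit 105) (.e (nat_lit 311358) (nat_lit 29) (.e (nat_lit 352316) (nat_lit 24) (.e (nat_lit 123185) (nat_lit 264) (.e (nat_lit 1214) (nat_lit 89) (.e (nat_lit 73792) (nat_lit 45) .nil)))))) (.g (nat_lit 0) .nil .nil))) 
(.lf (nat_lit 54271) (.g (nat_lit 664) (.e (nat_lit 1393) (nat_lit 106) (.e (nat_lit 319530) (nat_lit 16) (.e (nat_lit 286722) (nat_lit 0) .nil))) .nil))))))))

noncomputable def tv753 : DT := (.nd (nat_lit 0) (.nd (nat_lit 1) (.nd (nat_lit 2) (.nd (nat_lit 3) (.nd (nat_lit 4) (.nd (nat_lit 5) (.nd (nat_lit 6) 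
(.lf (nat_lit 54272) (.g (nat_lit 1912) (.e (nat_lit 1393) (nat_lit 106) (.e (nat_lit 319530) (nat_lit 16) (.e (nat_lit 286727) (nat_lit 0) (.e (nat_lit 1799) (nat_lit 119) .nil)))) .nil)) 
(.lf (nat_lit 54336) (.g (nat_lit 2603) (.e (nat_lit 1393) (nat_lit 106) (.e (nat_lit 319530) (nat_lit 16) (.e (nat_lit 286761) (nat_lit 13) (.e (nat_lit 393284) (nat_lit 24) (.e (nat_lit 434279) (nat_lit 39) (.e (nat_lit 663555) (nat_lit 0) .nil)))))) (.g (nat_lit 6) .nil .nil)))) (.nd (nat_lit 6) 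
(.lf (nat_lit 54304) (.g (nat_lit 1639) (.e (nat_lit 1393) (nat_lit 106) (.e (nat_lit 319530) (nat_lit 16) (.e (nat_lit 286743) (nat_lit 9) (.e (nat_lit 336433) (nat_lit 30) (.e (nat_lit 450596) (nat_lit 17) (.e (nat_lit 663557) (nat_lit 0) .nil)))))) (.g (nat_lit 6) .nil .nil))) 
(.lf (nat_lit 54368) (.g (nat_lit 2520) (.e (nat_lit 1393) (nat_lit 106) (.e (nat_lit 319531) (nat_lit 16) (.e (nat_lit 286735) (nat_lit 3) (.e (nat_lit 98369) (nat_lit 28) (.e (nat_lit 442422) (nat_lit 22) .nil))))) .nil)))) (.nd (nat_lit 5) (.nd (nat_lit 6) 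
(.lf (nat_lit 54288) (.g (nat_lit 2113) (.e (nat_lit 1393) (nat_lit 106) (.e (nat_lit 319530) (nat_lit 16) (.e (nat_lit 286733) (nat_lit 2) (.e (nat_lit 90178) (nat_lit 15) (.e (nat_lit 188448) (nat_lit 22) .nil))))) .nil)) 
(.lf (nat_lit 54352) (.g (nat_lit 2161) (.e (nat_lit 1393) (nat_lit 106) (.e (nat_lit 319531) (nat_lit 16) (.e (nat_lit 286727) (nat_lit 0) (.e (nat_lit 1799) (nat_lit 119) (.e (nat_lit 516177) (nat_lit 14) .nil))))) .nil))) (.nd (nat_lit 6) 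
(.lf (nat_lit 54320) (.g (nat_lit 3095) (.e (nat_lit 1393) (nat_lit 106) (.e (nat_lit 319530) (nat_lit 16) (.e (nat_lit 286761) (nat_lit 13) (.e (nat_lit 393282) (nat_lit 24) (.e (nat_lit 434275) (nat_lit 39) (.e (nat_lit 663554) (nat_lit 0) .nil)))))) (.g (nat_lit 6) .nil .nil))) 
(.lf (nat_lit 54384) (.g (nat_lit 2047) (.e (nat_lit 1393) (nat_lit 106) (.e (nat_lit 319531) (nat_lit 16) (.e (nat_lit 286761) (nat_lit 13) (.e (nat_lit 393283) (nat_lit 24) .nil)))) .nil))))) (.nd (nat_lit 4) (.nd (nat_lit 5) (.nd (nat_lit 6) 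
(.lf (nat_lit 54280) (.g (nat_lit 3364) (.e (nat_lit 1393) (nat_lit 106) (.e (nat_lit 319530) (nat_lit 16) (.e (nat_lit 286727) (nat_lit 0) (.e (nat_lit 1799) (nat_lit 119) (.e (nat_lit 516176) (nat_lit 14) (.e (nat_lit 466977) (nat_lit 22) (.e (nat_lit 196630) (nat_lit 9) .nil))))))) (.g (nat_lit 5) .nil .nil))) 
(.lf (nat_lit 54344) (.g (nat_lit 1840) (.e (nat_lit 1393) (nat_lit 106) (.e (nat_lit 319530) (nat_lit 16) (.e (nat_lit 286761) (nat_lit 13) (.e (nat_lit 393293) (nat_lit 26) (.e (nat_lit 475160) (nat_lit 21) .nil))))) .nil))) (.nd (nat_lit 6) 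
(.lf (nat_lit 54312) (.g (nat_lit 2111) (.e (nat_lit 1393) (nat_lit 106) (.e (nat_lit 319530) (nat_lit 16) (.e (nat_lit 286761) (nat_lit 13) (.e (nat_lit 393265) (nat_lit 22) (.e (nat_lit 417792) (nat_lit 0) .nil))))) .nil)) 
(.lf (nat_lit 54376) (.g (nat_lit 1471) (.e (nat_lit 1393) (nat_lit 106) (.e (nat_lit 319531) (nat_lit 16) (.e (nat_lit 286748) (nat_lit 9) (.e (nat_lit 336389) (nat_lit 27) .nil)))) .nil)))) (.nd (nat_lit 5) (.nd (nat_lit 6) 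
(.lf (nat_lit 54296) (.g (nat_lit 2488) (.e (nat_lit 1393) (nat_lit 106) (.e (nat_lit 319530) (nat_lit 16) (.e (nat_lit 286735) (nat_lit 3) (.e (nat_lit 98369) (nat_lit 28) (.e (nat_lit 442424) (nat_lit 22) .nil))))) .nil)) 
(.lf (nat_lit 54360) (.g (nat_lit 2257) (.e (nat_lit 1393) (nat_lit 106) (.e (nat_lit 319531) (nat_lit 16) (.e (nat_lit 286733) (nat_lit 2) (.e (nat_lit 90178) (nat_lit 15) (.e (nat_lit 188448) (nat_lit 22) .nil))))) .nil))) (.nd (nat_lit 6) 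
(.lf (nat_lit 54328) (.g (nat_lit 1931) (.e (nat_lit 1393) (nat_lit 106) (.e (nat_lit 319530) (nat_lit 16) (.e (nat_lit 286761) (nat_lit 13) (.e (nat_lit 393283) (nat_lit 24) (.e (nat_lit 434278) (nat_lit 39) .nil))))) .nil)) 
(.lf (nat_lit 54392) (.g (nat_lit 1186) (.e (nat_lit 1393) (nat_lit 106) (.e (nat_lit 319533) (nat_lit 16) (.e (nat_lit 286753) (nat_lit 10) (.e (nat_lit 344157) (nat_lit 36) (.e (nat_lit 639000) (nat_lit 9) .nil))))) .nil)))))) (.nd (nat_lit 3) (.nd (nat_lit 4) (.nd (nat_lit 5) (.nd (nat_lit 6) 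
(.lf (nat_lit 54276) (.g (nat_lit 2352) (.e (nat_lit 1393) (nat_lit 106) (.e (nat_lit 319530) (nat_lit 16) (.e (nat_lit 286727) (nat_lit 0) (.e (nat_lit 1799) (nat_lit 119) (.e (nat_lit 516174) (nat_lit 14) (.e (nat_lit 466975) (nat_lit 22) (.e (nat_lit 196630) (nat_lit 9) .nil))))))) (.g (nat_lit 4) .nil .nil))) 
(.lf (nat_lit 54340) (.g (nat_lit 1601) (.e (nat_lit 1393) (nat_lit 106) (.e (nat_lit 319530) (nat_lit 16) (.e (nat_lit 286761) (nat_lit 13) (.e (nat_lit 393289) (nat_lit 25) (.e (nat_lit 458774) (nat_lit 18) .nil))))) .nil))) (.nd (nat_lit 6) 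
(.lf (nat_lit 54308) (.g (nat_lit 1744) (.e (nat_lit 1393) (nat_lit 106) (.e (nat_lit 319530) (nat_lit 16) (.e (nat_lit 286759) (nat_lit 12) (.e (nat_lit 385088) (nat_lit 47) (.e (nat_lit 761909) (nat_lit 17) .nil))))) .nil)) 
(.lf (nat_lit 54372) (.g (nat_lit 1516) (.e (nat_lit 1393) (nat_lit 106) (.e (nat_lit 319531) (nat_lit 16) (.e (nat_lit 286735) (nat_lit 3) (.e (nat_lit 98380) (nat_lit 31) .nil)))) .nil)))) (.nd (nat_lit 5) (.nd (nat_lit 6) 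
(.lf (nat_lit 54292) (.g (nat_lit 3979) (.e (nat_lit 1393) (nat_lit 106) (.e (nat_lit 319530) (nat_lit 16) (.e (nat_lit 286734) (nat_lit 3) (.e (nat_lit 98370) (nat_lit 28) (.e (nat_lit 442424) (nat_lit 22) (.e (nat_lit 196630) (nat_lit 9) .nil)))))) (.g (nat_lit 6) .nil .nil))) 
(.lf (nat_lit 54356) (.g (nat_lit 3053) (.e (nat_lit 1393) (nat_lit 106) (.e (nat_lit 319531) (nat_lit 16) (.e (nat_lit 286732) (nat_lit 2) (.e (nat_lit 90178) (nat_lit 15) .nil)))) .nil))) (.nd (nat_lit 6) 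
(.lf (nat_lit 54324) (.g (nat_lit 1325) (.e (nat_lit 1393) (nat_lit 106) (.e (nat_lit 319530) (nat_lit 16) (.e (nat_lit 286761) (nat_lit 13) (.e (nat_lit 393283) (nat_lit 24) .nil)))) .nil)) 
(.lf (nat_lit 54388) (.g (nat_lit 3251) (.e (nat_lit 1393) (nat_lit 106) (.e (nat_lit 319533) (nat_lit 16) (.e (nat_lit 286734) (nat_lit 3) (.e (nat_lit 98370) (nat_lit 28) (.e (nat_lit 442424) (nat_lit 22) (.e (nat_lit 196630) (nat_lit 9) .nil)))))) (.g (nat_lit 4) .nil .nil)))))) (.nd (nat_lit 4) (.nd (nat_lit 5) (.nd (nat_lit 6) 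
(.lf (nat_lit 54284) (.g (nat_lit 2989) (.e (nat_lit 1393) (nat_lit 106) (.e (nat_lit 319530) (nat_lit 16) (.e (nat_lit 286732) (nat_lit 2) (.e (nat_lit 90176) (nat_lit 15) (.e (nat_lit 188447) (nat_lit 22) (.e (nat_lit 196630) (nat_lit 9) .nil)))))) (.g (nat_lit 4) .nil .nil))) 
(.lf (nat_lit 54348) (.g (nat_lit 1898) (.e (nat_lit 1393) (nat_lit 106) (.e (nat_lit 319531) (nat_lit 16) (.e (nat_lit 286727) (nat_lit 0) (.e (nat_lit 1799) (nat_lit 119) .nil)))) .nil))) (.nd (nat_lit 6) 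
(.lf (nat_lit 54316) (.g (nat_lit 2137) (.e (nat_lit 1393) (nat_lit 106) (.e (nat_lit 319530) (nat_lit 16) (.e (nat_lit 286761) (nat_lit 13) (.e (nat_lit 393270) (nat_lit 23) (.e (nat_lit 426112) (nat_lit 1) (.e (nat_lit 164386) (nat_lit 254) (.e (nat_lit 1021) (nat_lit 81) .nil))))))) (.g (nat_lit 5) .nil .nil))) 
(.lf (nat_lit 54380) (.g (nat_lit 2218) (.e (nat_lit 1393) (nat_lit 106) (.e (nat_lit 319531) (nat_lit 16) (.e (nat_lit 286756) (nat_lit 10) (.e (nat_lit 344160) (nat_lit 37) .nil)))) .nil)))) (.nd (nat_lit 5) (.nd (nat_lit 6) 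
(.lf (nat_lit 54300) (.g (nat_lit 2458) (.e (nat_lit 1393) (nat_lit 106) (.e (nat_lit 319530) (nat_lit 16) (.e (nat_lit 286735) (nat_lit 3) (.e (nat_lit 98382) (nat_lit 31) (.e (nat_lit 466974) (nat_lit 22) (.e (nat_lit 196630) (nat_lit 9) .nil)))))) (.g (nat_lit 5) .nil .nil))) 
(.lf (nat_lit 54364) (.g (nat_lit 1955) (.e (nat_lit 1393) (nat_lit 106) (.e (nat_lit 319531) (nat_lit 16) (.e (nat_lit 286734) (nat_lit 3) (.e (nat_lit 98381) (nat_lit 31) (.e (nat_lit 466977) (nat_lit 22) (.e (nat_lit 196630) (nat_lit 9) .nil)))))) (.g (nat_lit 4) .nil .nil)))) (.nd (nat_lit 6) 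
(.lf (nat_lit 54332) (.g (nat_lit 2229) (.e (nat_lit 1393) (nat_lit 106) (.e (nat_lit 319530) (nat_lit 16) (.e (nat_lit 286761) (nat_lit 13) (.e (nat_lit 393284) (nat_lit 24) (.e (nat_lit 434276) (nat_lit 39) (.e (nat_lit 663555) (nat_lit 0) .nil)))))) (.g (nat_lit 5) .nil .nil))) 
(.lf (nat_lit 54396) (.g (nat_lit 3078) (.e (nat_lit 1393) (nat_lit 106) (.e (nat_lit 319534) (nat_lit 16) (.e (nat_lit 286735) (nat_lit 3) (.e (nat_lit 98370) (nat_lit 28) (.e (nat_lit 442424) (nat_lit 22) .nil))))) .nil))))))) (.nd (nat_lit 2) (.nd (nat_lit 3) (.nd (nat_lit 4) (.nd (nat_lit 5) (.nd (nat_lit 6) 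
(.lf (nat_lit 54274) (.g (nat_lit 5342) (.e (nat_lit 1393) (nat_lit 106) (.e (nat_lit 319530) (nat_lit 16) (.e (nat_lit 286727) (nat_lit 0) (.e (nat_lit 1799) (nat_lit 119) (.e (nat_lit 516163) (nat_lit 11) (.e (nat_lit 442424) (nat_lit 22) (.e (nat_lit 196630) (nat_lit 9) .nil))))))) (.g (nat_lit 7) .nil .nil))) 
(.lf (nat_lit 54338) (.g (nat_lit 1550) (.e (nat_lit 1393) (nat_lit 106) (.e (nat_lit 319530) (nat_lit 16) (.e (nat_lit 286761) (nat_lit 13) (.e (nat_lit 393288) (nat_lit 25) .nil)))) .nil))) (.nd (nat_lit 6) 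
(.lf (nat_lit 54306) (.g (nat_lit 778) (.e (nat_lit 1393) (nat_lit 106) (.e (nat_lit 319530) (nat_lit 16) (.e (nat_lit 286748) (nat_lit 9) .nil))) .nil)) 
(.lf (nat_lit 54370) (.g (nat_lit 1936) (.e (nat_lit 1393) (nat_lit 106) (.e (nat_lit 319531) (nat_lit 16) (.e (nat_lit 286735) (nat_lit 3) (.e (nat_lit 98371) (nat_lit 28) (.e (nat_lit 442422) (nat_lit 22) .nil))))) .nil)))) (.nd (nat_lit 5) (.nd (nat_lit 6) 
(.lf (nat_lit 54290) (.g (nat_lit 838) (.e (nat_lit 1393) (nat_lit 106) (.e (nat_lit 319530) (nat_lit 16) (.e (nat_lit 286734) (nat_lit 3) .nil))) .nil)) 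
(.lf (nat_lit 54354) (.g (nat_lit 3990) (.e (nat_lit 1393) (nat_lit 106) (.e (nat_lit 319531) (nat_lit 16) (.e (nat_lit 286727) (nat_lit 0) (.e (nat_lit 1799) (nat_lit 119) (.e (nat_lit 516177) (nat_lit 14) (.e (nat_lit 466977) (nat_lit 22) (.e (nat_lit 196630) (nat_lit 9) .nil))))))) (.g (nat_lit 7) .nil .nil)))) (.nd (nat_lit 6) 
(.lf (nat_lit 54322) (.g (nat_lit 2459) (.e (nat_lit 1393) (nat_lit 106) (.e (nat_lit 319530) (nat_lit 16) (.e (nat_lit 286761) (nat_lit 13) (.e (nat_lit 393282) (nat_lit 24) (.e (nat_lit 434276) (nat_lit 39) (.e (nat_lit 663554) (nat_lit 0) .nil)))))) (.g (nat_lit 5) .nil .nil))) 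
(.lf (nat_lit 54386) (.g (nat_lit 1771) (.e (nat_lit 1393) (nat_lit 106) (.e (nat_lit 319533) (nat_lit 16) (.e (nat_lit 286732) (nat_lit 2) (.e (nat_lit 90176) (nat_lit 15) .nil)))) .nil))))) (.nd (nat_lit 4) (.nd (nat_lit 5) (.nd (nat_lit 6) 
(.lf (nat_lit 54282) (.g (nat_lit 4050) (.e (nat_lit 1393) (nat_lit 106) (.e (nat_lit 319530) (nat_lit 16) (.e (nat_lit 286727) (nat_lit 0) (.e (nat_lit 1799) (nat_lit 119) (.e (nat_lit 516177) (nat_lit 14) (.e (nat_lit 466974) (nat_lit 22) (.e (nat_lit 196630) (nat_lit 9) .nil))))))) (.g (nat_lit 7) .nil .nil))) 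
(.lf (nat_lit 54346) (.g (nat_lit 1880) (.e (nat_lit 1393) (nat_lit 106) (.e (nat_lit 319530) (nat_lit 16) (.e (nat_lit 286761) (nat_lit 13) (.e (nat_lit 393293) (nat_lit 26) (.e (nat_lit 475162) (nat_lit 21) .nil))))) .nil))) (.nd (nat_lit 6) 
(.lf (nat_lit 54314) (.g (nat_lit 1238) (.e (nat_lit 1393) (nat_lit 106) (.e (nat_lit 319530) (nat_lit 16) (.e (nat_lit 286761) (nat_lit 13) (.e (nat_lit 393270) (nat_lit 23) .nil)))) .nil)) 
(.lf (nat_lit 54378) (.g (nat_lit 2036) (.e (nat_lit 1393) (nat_lit 106) (.e (nat_lit 319531) (nat_lit 16) (.e (nat_lit 286756) (nat_lit 10) (.e (nat_lit 344154) (nat_lit 35) .nil)))) .nil)))) (.nd (nat_lit 5) (.nd (nat_lit 6) 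
(.lf (nat_lit 54298) (.g (nat_lit 2200) (.e (nat_lit 1393) (nat_lit 106) (.e (nat_lit 319530) (nat_lit 16) (.e (nat_lit 286735) (nat_lit 3) (.e (nat_lit 98374) (nat_lit 29) (.e (nat_lit 450575) (nat_lit 1) (.e (nat_lit 499991) (nat_lit 14) .nil)))))) (.g (nat_lit 0) .nil .nil))) 
(.lf (nat_lit 54362) (.g (nat_lit 836) (.e (nat_lit 1393) (nat_lit 106) (.e (nat_lit 319531) (nat_lit 16) (.e (nat_lit 286734) (nat_lit 3) .nil))) .nil))) (.nd (nat_lit 6) 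
(.lf (nat_lit 54330) (.g (nat_lit 2560) (.e (nat_lit 1393) (nat_lit 106) (.e (nat_lit 319530) (nat_lit 16) (.e (nat_lit 286761) (nat_lit 13) (.e (nat_lit 393284) (nat_lit 24) (.e (nat_lit 434274) (nat_lit 39) (.e (nat_lit 663554) (nat_lit 0) .nil)))))) (.g (nat_lit 6) .nil .nil))) 
(.lf (nat_lit 54394) (.g (nat_lit 900) (.e (nat_lit 1393) (nat_lit 106) (.e (nat_lit 319534) (nat_lit 16) (.e (nat_lit 286734) (nat_lit 3) .nil))) .nil)))))) (.nd (nat_lit 3) (.nd (nat_lit 4) (.nd (nat_lit 5) (.nd (nat_lit 6) 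
(.lf (nat_lit 54278) (.g (nat_lit 2401) (.e (nat_lit 1393) (nat_lit 106) (.e (nat_lit 319530) (nat_lit 16) (.e (nat_lit 286727) (nat_lit 0) (.e (nat_lit 1799) (nat_lit 119) (.e (nat_lit 516176) (nat_lit 14) (.e (nat_lit 466975) (nat_lit 22) (.e (nat_lit 196630) (nat_lit 9) .nil))))))) (.g (nat_lit 4) .nil .nil))) 
(.lf (nat_lit 54342) (.g (nat_lit 1738) (.e (nat_lit 1393) (nat_lit 106) (.e (nat_lit 319530) (nat_lit 16) (.e (nat_lit 286761) (nat_lit 13) (.e (nat_lit 393289) (nat_lit 25) (.e (nat_lit 458805) (nat_lit 39) .nil))))) .nil))) (.nd (nat_lit 6) 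
(.lf (nat_lit 54310) (.g (nat_lit 1760) (.e (nat_lit 1393) (nat_lit 106) (.e (nat_lit 319530) (nat_lit 16) (.e (nat_lit 286761) (nat_lit 13) (.e (nat_lit 393234) (nat_lit 17) (.e (nat_lit 7065) (nat_lit 377) (.e (nat_lit 1115) (nat_lit 82) (.e (nat_lit 8431) (nat_lit 138) (.e (nat_lit 1016) (nat_lit 81) .nil)))))))) (.g (nat_lit 4) .nil .nil))) 
(.lf (nat_lit 54374) (.g (nat_lit 627) (.e (nat_lit 1393) (nat_lit 106) (.e (nat_lit 319531) (nat_lit 16) (.e (nat_lit 286743) (nat_lit 9) .nil))) .nil)))) (.nd (nat_lit 5) (.nd (nat_lit 6) 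
(.lf (nat_lit 54294) (.g (nat_lit 445) (.e (nat_lit 1393) (nat_lit 106) (.e (nat_lit 319530) (nat_lit 16) (.e (nat_lit 286735) (nat_lit 3) .nil))) .nil)) 
(.lf (nat_lit 54358) (.g (nat_lit 2312) (.e (nat_lit 1393) (nat_lit 106) (.e (nat_lit 319531) (nat_lit 16) (.e (nat_lit 286733) (nat_lit 2) (.e (nat_lit 90177) (nat_lit 15) (.e (nat_lit 188447) (nat_lit 22) .nil))))) .nil))) (.nd (nat_lit 6) 
(.lf (nat_lit 54326) (.g (nat_lit 1879) (.e (nat_lit 1393) (nat_lit 106) (.e (nat_lit 319530) (nat_lit 16) (.e (nat_lit 286761) (nat_lit 13) (.e (nat_lit 393283) (nat_lit 24) (.e (nat_lit 434276) (nat_lit 39) .nil))))) .nil)) 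
(.lf (nat_lit 54390) (.g (nat_lit 389) (.e (nat_lit 1393) (nat_lit 106) (.e (nat_lit 319533) (nat_lit 16) (.e (nat_lit 286753) (nat_lit 10) .nil))) .nil))))) (.nd (nat_lit 4) (.nd (nat_lit 5) (.nd (nat_lit 6) 
(.lf (nat_lit 54286) (.g (nat_lit 2028) (.e (nat_lit 1393) (nat_lit 106) (.e (nat_lit 319530) (nat_lit 16) (.e (nat_lit 286733) (nat_lit 2) (.e (nat_lit 90177) (nat_lit 15) (.e (nat_lit 188447) (nat_lit 22) (.e (nat_lit 196630) (nat_lit 9) .nil)))))) (.g (nat_lit 4) .nil .nil))) 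
(.lf (nat_lit 54350) (.g (nat_lit 2104) (.e (nat_lit 1393) (nat_lit 106) (.e (nat_lit 319531) (nat_lit 16) (.e (nat_lit 286727) (nat_lit 0) (.e (nat_lit 1799) (nat_lit 119) (.e (nat_lit 516175) (nat_lit 14) .nil))))) .nil))) (.nd (nat_lit 6) 
(.lf (nat_lit 54318) (.g (nat_lit 1797) (.e (nat_lit 1393) (nat_lit 106) (.e (nat_lit 319530) (nat_lit 16) (.e (nat_lit 286761) (nat_lit 13) (.e (nat_lit 393282) (nat_lit 24) (.e (nat_lit 434274) (nat_lit 39) .nil))))) .nil)) 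
(.lf (nat_lit 54382) (.g (nat_lit 1392) (.e (nat_lit 1393) (nat_lit 106) (.e (nat_lit 319531) (nat_lit 16) (.e (nat_lit 286761) (nat_lit 13) (.e (nat_lit 393234) (nat_lit 17) .nil)))) .nil)))) (.nd (nat_lit 5) (.nd (nat_lit 6) 
(.lf (nat_lit 54302) (.g (nat_lit 2511) (.e (nat_lit 1393) (nat_lit 106) (.e (nat_lit 319530) (nat_lit 16) (.e (nat_lit 286735) (nat_lit 3) (.e (nat_lit 98382) (nat_lit 31) (.e (nat_lit 466977) (nat_lit 22) (.e (nat_lit 196630) (nat_lit 9) .nil)))))) (.g (nat_lit 5) .nil .nil))) 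
(.lf (nat_lit 54366) (.g (nat_lit 1580) (.e (nat_lit 1393) (nat_lit 106) (.e (nat_lit 319531) (nat_lit 16) (.e (nat_lit 286735) (nat_lit 3) (.e (nat_lit 98356) (nat_lit 26) .nil)))) .nil))) (.nd (nat_lit 6) 
(.lf (nat_lit 54334) (.g (nat_lit 2193) (.e (nat_lit 1393) (nat_lit 106) (.e (nat_lit 319530) (nat_lit 16) (.e (nat_lit 286761) (nat_lit 13) (.e (nat_lit 393284) (nat_lit 24) (.e (nat_lit 434276) (nat_lit 39) (.e (nat_lit 671488) (nat_lit 0) .nil)))))) (.g (nat_lit 5) .nil .nil))) 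
(.lf (nat_lit 54398) (.g (nat_lit 1888) (.e (nat_lit 1393) (nat_lit 106) (.e (nat_lit 319534) (nat_lit 16) (.e (nat_lit 286735) (nat_lit 3) (.e (nat_lit 98381) (nat_lit 31) .nil)))) .nil)))))))) (.nd (nat_lit 1) (.nd (nat_lit 2) (.nd (nat_lit 3) (.nd (nat_lit 4) (.nd (nat_lit 5) (.nd (nat_lit 6) 
(.lf (nat_lit 54273) (.g (nat_lit 3916) (.e (nat_lit 1393) (nat_lit 106) (.e (nat_lit 319530) (nat_lit 16) (.e (nat_lit 286727) (nat_lit 0) (.e (nat_lit 1799) (nat_lit 119) (.e (nat_lit 516151) (nat_lit 9) (.e (nat_lit 426211) (nat_lit 9) (.e (nat_lit 426125) (nat_lit 2) (.e (nat_lit 204544) (nat_lit 9) .nil)))))))) (.g (nat_lit 5) .nil .nil))) 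
(.lf (nat_lit 54337) (.g (nat_lit 1621) (.e (nat_lit 1393) (nat_lit 106) (.e (nat_lit 319530) (nat_lit 16) (.e (nat_lit 286761) (nat_lit 13) (.e (nat_lit 393286) (nat_lit 25) .nil)))) .nil))) (.nd (nat_lit 6) 
(.lf (nat_lit 54305) (.g (nat_lit 1822) (.e (nat_lit 1393) (nat_lit 106) (.e (nat_lit 319530) (nat_lit 16) (.e (nat_lit 286743) (nat_lit 9) (.e (nat_lit 336433) (nat_lit 30) (.e (nat_lit 450597) (nat_lit 17) (.e (nat_lit 663555) (nat_lit 0) .nil)))))) (.g (nat_lit 0) .nil .nil))) 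
(.lf (nat_lit 54369) (.g (nat_lit 2428) (.e (nat_lit 1393) (nat_lit 106) (.e (nat_lit 319531) (nat_lit 16) (.e (nat_lit 286735) (nat_lit 3) (.e (nat_lit 98369) (nat_lit 28) (.e (nat_lit 442424) (nat_lit 22) .nil))))) .nil)))) (.nd (nat_lit 5) (.nd (nat_lit 6) 
(.lf (nat_lit 54289) (.g (nat_lit 2972) (.e (nat_lit 1393) (nat_lit 106) (.e (nat_lit 319530) (nat_lit 16) (.e (nat_lit 286733) (nat_lit 2) (.e (nat_lit 90178) (nat_lit 15) (.e (nat_lit 188458) (nat_lit 25) (.e (nat_lit 245784) (nat_lit 9) .nil)))))) (.g (nat_lit 6) .nil .nil))) 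
(.lf (nat_lit 54353) (.g (nat_lit 4006) (.e (nat_lit 1393) (nat_lit 106) (.e (nat_lit 319531) (nat_lit 16) (.e (nat_lit 286727) (nat_lit 0) (.e (nat_lit 1799) (nat_lit 119) (.e (nat_lit 516177) (nat_lit 14) (.e (nat_lit 466974) (nat_lit 22) (.e (nat_lit 196630) (nat_lit 9) .nil))))))) (.g (nat_lit 7) .nil .nil)))) (.nd (nat_lit 6) 
(.lf (nat_lit 54321) (.g (nat_lit 1756) (.e (nat_lit 1393) (nat_lit 106) (.e (nat_lit 319530) (nat_lit 16) (.e (nat_lit 286761) (nat_lit 13) (.e (nat_lit 393282) (nat_lit 24) (.e (nat_lit 434276) (nat_lit 39) .nil))))) .nil)) 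
(.lf (nat_lit 54385) (.g (nat_lit 1794) (.e (nat_lit 1393) (nat_lit 106) (.e (nat_lit 319531) (nat_lit 16) (.e (nat_lit 286761) (nat_lit 13) (.e (nat_lit 393284) (nat_lit 24) .nil)))) .nil))))) (.nd (nat_lit 4) (.nd (nat_lit 5) (.nd (nat_lit 6) 
(.lf (nat_lit 54281) (.g (nat_lit 2180) (.e (nat_lit 1393) (nat_lit 106) (.e (nat_lit 319530) (nat_lit 16) (.e (nat_lit 286727) (nat_lit 0) (.e (nat_lit 1799) (nat_lit 119) (.e (nat_lit 516177) (nat_lit 14) .nil))))) .nil)) 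
(.lf (nat_lit 54345) (.g (nat_lit 1705) (.e (nat_lit 1393) (nat_lit 106) (.e (nat_lit 319530) (nat_lit 16) (.e (nat_lit 286761) (nat_lit 13) (.e (nat_lit 393293) (nat_lit 26) (.e (nat_lit 475161) (nat_lit 21) .nil))))) .nil))) (.nd (nat_lit 6) 
(.lf (nat_lit 54313) (.g (nat_lit 1620) (.e (nat_lit 1393) (nat_lit 106) (.e (nat_lit 319530) (nat_lit 16) (.e (nat_lit 286761) (nat_lit 13) (.e (nat_lit 393267) (nat_lit 23) .nil)))) .nil)) 
(.lf (nat_lit 54377) (.g (nat_lit 618) (.e (nat_lit 1393) (nat_lit 106) (.e (nat_lit 319531) (nat_lit 16) (.e (nat_lit 286756) (nat_lit 10) .nil))) .nil)))) (.nd (nat_lit 5) (.nd (nat_lit 6) 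
(.lf (nat_lit 54297) (.g (nat_lit 2007) (.e (nat_lit 1393) (nat_lit 106) (.e (nat_lit 319530) (nat_lit 16) (.e (nat_lit 286735) (nat_lit 3) (.e (nat_lit 98371) (nat_lit 28) (.e (nat_lit 442422) (nat_lit 22) (.e (nat_lit 196630) (nat_lit 9) .nil)))))) (.g (nat_lit 4) .nil .nil))) 
(.lf (nat_lit 54361) (.g (nat_lit 3363) (.e (nat_lit 1393) (nat_lit 106) (.e (nat_lit 319531) (nat_lit 16) (.e (nat_lit 286733) (nat_lit 2) (.e (nat_lit 90178) (nat_lit 15) (.e (nat_lit 188449) (nat_lit 22) (.e (nat_lit 196630) (nat_lit 9) .nil)))))) (.g (nat_lit 5) .nil .nil)))) (.nd (nat_lit 6) 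
(.lf (nat_lit 54329) (.g (nat_lit 1123) (.e (nat_lit 1393) (nat_lit 106) (.e (nat_lit 319530) (nat_lit 16) (.e (nat_lit 286761) (nat_lit 13) (.e (nat_lit 393284) (nat_lit 24) .nil)))) .nil)) 
(.lf (nat_lit 54393) (.g (nat_lit 1978) (.e (nat_lit 1393) (nat_lit 106) (.e (nat_lit 319534) (nat_lit 16) (.e (nat_lit 286732) (nat_lit 2) (.e (nat_lit 90170) (nat_lit 13) .nil)))) .nil)))))) (.nd (nat_lit 3) (.nd (nat_lit 4) (.nd (nat_lit 5) (.nd (nat_lit 6) 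
(.lf (nat_lit 54277) (.g (nat_lit 2101) (.e (nat_lit 1393) (nat_lit 106) (.e (nat_lit 319530) (nat_lit 16) (.e (nat_lit 286727) (nat_lit 0) (.e (nat_lit 1799) (nat_lit 119) (.e (nat_lit 516175) (nat_lit 14) .nil))))) .nil)) 
(.lf (nat_lit 54341) (.g (nat_lit 1759) (.e (nat_lit 1393) (nat_lit 106) (.e (nat_lit 319530) (nat_lit 16) (.e (nat_lit 286761) (nat_lit 13) (.e (nat_lit 393289) (nat_lit 25) (.e (nat_lit 458774) (nat_lit 18) (.e (nat_lit 5831) (nat_lit 320) (.e (nat_lit 1017) (nat_lit 81) .nil))))))) (.g (nat_lit 4) .nil .nil)))) (.nd (nat_lit 6) 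
(.lf (nat_lit 54309) (.g (nat_lit 326) (.e (nat_lit 1393) (nat_lit 106) (.e (nat_lit 319530) (nat_lit 16) (.e (nat_lit 286761) (nat_lit 13) .nil))) .nil)) 
(.lf (nat_lit 54373) (.g (nat_lit 2487) (.e (nat_lit 1393) (nat_lit 106) (.e (nat_lit 319531) (nat_lit 16) (.e (nat_lit 286735) (nat_lit 3) (.e (nat_lit 98381) (nat_lit 31) (.e (nat_lit 466976) (nat_lit 22) .nil))))) .nil)))) (.nd (nat_lit 5) (.nd (nat_lit 6) 
(.lf (nat_lit 54293) (.g (nat_lit 1673) (.e (nat_lit 1393) (nat_lit 106) (.e (nat_lit 319530) (nat_lit 16) (.e (nat_lit 286734) (nat_lit 3) (.e (nat_lit 98381) (nat_lit 31) .nil)))) .nil)) 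
(.lf (nat_lit 54357) (.g (nat_lit 3059) (.e (nat_lit 1393) (nat_lit 106) (.e (nat_lit 319531) (nat_lit 16) (.e (nat_lit 286733) (nat_lit 2) (.e (nat_lit 90176) (nat_lit 15) (.e (nat_lit 188449) (nat_lit 22) .nil))))) .nil))) (.nd (nat_lit 6) 
(.lf (nat_lit 54325) (.g (nat_lit 3073) (.e (nat_lit 1393) (nat_lit 106) (.e (nat_lit 319530) (nat_lit 16) (.e (nat_lit 286761) (nat_lit 13) (.e (nat_lit 393283) (nat_lit 24) (.e (nat_lit 434275) (nat_lit 39) (.e (nat_lit 663554) (nat_lit 0) .nil)))))) (.g (nat_lit 6) .nil .nil))) 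
(.lf (nat_lit 54389) (.g (nat_lit 2140) (.e (nat_lit 1393) (nat_lit 106) (.e (nat_lit 319533) (nat_lit 16) (.e (nat_lit 286734) (nat_lit 3) (.e (nat_lit 98381) (nat_lit 31) .nil)))) .nil))))) (.nd (nat_lit 4) (.nd (nat_lit 5) (.nd (nat_lit 6) 
(.lf (nat_lit 54285) (.g (nat_lit 441) (.e (nat_lit 1393) (nat_lit 106) (.e (nat_lit 319530) (nat_lit 16) (.e (nat_lit 286733) (nat_lit 2) .nil))) .nil)) 
(.lf (nat_lit 54349) (.g (nat_lit 5305) (.e (nat_lit 1393) (nat_lit 106) (.e (nat_lit 319531) (nat_lit 16) (.e (nat_lit 286727) (nat_lit 0) (.e (nat_lit 1799) (nat_lit 119) (.e (nat_lit 516163) (nat_lit 11) (.e (nat_lit 442424) (nat_lit 22) (.e (nat_lit 196630) (nat_lit 9) .nil))))))) (.g (nat_lit 0) .nil .nil)))) (.nd (nat_lit 6) 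
(.lf (nat_lit 54317) (.g (nat_lit 2902) (.e (nat_lit 1393) (nat_lit 106) (.e (nat_lit 319530) (nat_lit 16) (.e (nat_lit 286761) (nat_lit 13) (.e (nat_lit 393271) (nat_lit 23) (.e (nat_lit 425986) (nat_lit 0) (.e (nat_lit 3421) (nat_lit 213) (.e (nat_lit 663554) (nat_lit 0) .nil))))))) (.g (nat_lit 4) .nil .nil))) 
(.lf (nat_lit 54381) (.g (nat_lit 801) (.e (nat_lit 1393) (nat_lit 106) (.e (nat_lit 319531) (nat_lit 16) (.e (nat_lit 286761) (nat_lit 13) .nil))) .nil)))) (.nd (nat_lit 5) (.nd (nat_lit 6) 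
(.lf (nat_lit 54301) (.g (nat_lit 2104) (.e (nat_lit 1393) (nat_lit 106) (.e (nat_lit 319530) (nat_lit 16) (.e (nat_lit 286735) (nat_lit 3) (.e (nat_lit 98382) (nat_lit 31) (.e (nat_lit 466976) (nat_lit 22) (.e (nat_lit 196630) (nat_lit 9) .nil)))))) (.g (nat_lit 4) .nil .nil))) 
(.lf (nat_lit 54365) (.g (nat_lit 404) (.e (nat_lit 1393) (nat_lit 106) (.e (nat_lit 319531) (nat_lit 16) (.e (nat_lit 286735) (nat_lit 3) .nil))) .nil))) (.nd (nat_lit 6) 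
(.lf (nat_lit 54333) (.g (nat_lit 2399) (.e (nat_lit 1393) (nat_lit 106) (.e (nat_lit 319530) (nat_lit 16) (.e (nat_lit 286761) (nat_lit 13) (.e (nat_lit 393284) (nat_lit 24) (.e (nat_lit 434276) (nat_lit 39) (.e (nat_lit 663560) (nat_lit 0) .nil)))))) (.g (nat_lit 0) .nil .nil))) 
(.lf (nat_lit 54397) (.g (nat_lit 2158) (.e (nat_lit 1393) (nat_lit 106) (.e (nat_lit 319534) (nat_lit 16) (.e (nat_lit 286735) (nat_lit 3) (.e (nat_lit 98371) (nat_lit 28) .nil)))) .nil))))))) (.nd (nat_lit 2) (.nd (nat_lit 3) (.nd (nat_lit 4) (.nd (nat_lit 5) (.nd (nat_lit 6) 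
(.lf (nat_lit 54275) (.g (nat_lit 2338) (.e (nat_lit 1393) (nat_lit 106) (.e (nat_lit 319530) (nat_lit 16) (.e (nat_lit 286727) (nat_lit 0) (.e (nat_lit 1799) (nat_lit 119) (.e (nat_lit 516164) (nat_lit 11) (.e (nat_lit 442424) (nat_lit 22) (.e (nat_lit 196630) (nat_lit 9) .nil))))))) (.g (nat_lit 4) .nil .nil))) 
(.lf (nat_lit 54339) (.g (nat_lit 1195) (.e (nat_lit 1393) (nat_lit 106) (.e (nat_lit 319530) (nat_lit 16) (.e (nat_lit 286761) (nat_lit 13) (.e (nat_lit 393289) (nat_lit 25) .nil)))) .nil))) (.nd (nat_lit 6) 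
(.lf (nat_lit 54307) (.g (nat_lit 1748) (.e (nat_lit 1393) (nat_lit 106) (.e (nat_lit 319530) (nat_lit 16) (.e (nat_lit 286759) (nat_lit 12) (.e (nat_lit 385088) (nat_lit 47) (.e (nat_lit 761908) (nat_lit 17) .nil))))) .nil)) 
(.lf (nat_lit 54371) (.g (nat_lit 3131) (.e (nat_lit 1393) (nat_lit 106) (.e (nat_lit 319531) (nat_lit 16) (.e (nat_lit 286735) (nat_lit 3) (.e (nat_lit 98373) (nat_lit 29) (.e (nat_lit 450575) (nat_lit 1) .nil))))) .nil)))) (.nd (nat_lit 5) (.nd (nat_lit 6) 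
(.lf (nat_lit 54291) (.g (nat_lit 6676) (.e (nat_lit 1393) (nat_lit 106) (.e (nat_lit 319530) (nat_lit 16) (.e (nat_lit 286734) (nat_lit 3) (.e (nat_lit 98359) (nat_lit 26) (.e (nat_lit 426211) (nat_lit 9) (.e (nat_lit 426125) (nat_lit 2) (.e (nat_lit 196630) (nat_lit 9) .nil))))))) (.g (nat_lit 0) .nil .nil))) 
(.lf (nat_lit 54355) (.g (nat_lit 1102) (.e (nat_lit 1393) (nat_lit 106) (.e (nat_lit 319531) (nat_lit 16) (.e (nat_lit 286732) (nat_lit 2) .nil))) .nil))) (.nd (nat_lit 6) 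
(.lf (nat_lit 54323) (.g (nat_lit 1839) (.e (nat_lit 1393) (nat_lit 106) (.e (nat_lit 319530) (nat_lit 16) (.e (nat_lit 286761) (nat_lit 13) (.e (nat_lit 393282) (nat_lit 24) (.e (nat_lit 434276) (nat_lit 39) (.e (nat_lit 663560) (nat_lit 0) .nil)))))) (.g (nat_lit 4) .nil .nil))) 
(.lf (nat_lit 54387) (.g (nat_lit 2235) (.e (nat_lit 1393) (nat_lit 106) (.e (nat_lit 319533) (nat_lit 16) (.e (nat_lit 286734) (nat_lit 3) (.e (nat_lit 98359) (nat_lit 26) .nil)))) .nil))))) (.nd (nat_lit 4) (.nd (nat_lit 5) (.nd (nat_lit 6) 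
(.lf (nat_lit 54283) (.g (nat_lit 4047) (.e (nat_lit 1393) (nat_lit 106) (.e (nat_lit 319530) (nat_lit 16) (.e (nat_lit 286727) (nat_lit 0) (.e (nat_lit 1799) (nat_lit 119) (.e (nat_lit 516177) (nat_lit 14) (.e (nat_lit 466977) (nat_lit 22) (.e (nat_lit 196630) (nat_lit 9) .nil))))))) (.g (nat_lit 7) .nil .nil))) 
(.lf (nat_lit 54347) (.g (nat_lit 1888) (.e (nat_lit 1393) (nat_lit 106) (.e (nat_lit 319530) (nat_lit 16) (.e (nat_lit 286761) (nat_lit 13) (.e (nat_lit 393293) (nat_lit 26) (.e (nat_lit 475163) (nat_lit 21) .nil))))) .nil))) (.nd (nat_lit 6) 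
(.lf (nat_lit 54315) (.g (nat_lit 1795) (.e (nat_lit 1393) (nat_lit 106) (.e (nat_lit 319530) (nat_lit 16) (.e (nat_lit 286761) (nat_lit 13) (.e (nat_lit 393270) (nat_lit 23) (.e (nat_lit 433920) (nat_lit 0) .nil))))) .nil)) 
(.lf (nat_lit 54379) (.g (nat_lit 2034) (.e (nat_lit 1393) (nat_lit 106) (.e (nat_lit 319531) (nat_lit 16) (.e (nat_lit 286756) (nat_lit 10) (.e (nat_lit 344157) (nat_lit 36) .nil)))) .nil)))) (.nd (nat_lit 5) (.nd (nat_lit 6) 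
(.lf (nat_lit 54299) (.g (nat_lit 2432) (.e (nat_lit 1393) (nat_lit 106) (.e (nat_lit 319530) (nat_lit 16) (.e (nat_lit 286735) (nat_lit 3) (.e (nat_lit 98381) (nat_lit 31) (.e (nat_lit 466976) (nat_lit 22) .nil))))) .nil)) 
(.lf (nat_lit 54363) (.g (nat_lit 1902) (.e (nat_lit 1393) (nat_lit 106) (.e (nat_lit 319531) (nat_lit 16) (.e (nat_lit 286734) (nat_lit 3) (.e (nat_lit 98359) (nat_lit 26) .nil)))) .nil))) (.nd (nat_lit 6) 
(.lf (nat_lit 54331) (.g (nat_lit 2896) (.e (nat_lit 1393) (nat_lit 106) (.e (nat_lit 319530) (nat_lit 16) (.e (nat_lit 286761) (nat_lit 13) (.e (nat_lit 393284) (nat_lit 24) (.e (nat_lit 434276) (nat_lit 39) (.e (nat_lit 663554) (nat_lit 0) .nil)))))) (.g (nat_lit 0) .nil .nil))) 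
(.lf (nat_lit 54395) (.g (nat_lit 951) (.e (nat_lit 1393) (nat_lit 106) (.e (nat_lit 319534) (nat_lit 16) (.e (nat_lit 286735) (nat_lit 3) .nil))) .nil)))))) (.nd (nat_lit 3) (.nd (nat_lit 4) (.nd (nat_lit 5) (.nd (nat_lit 6) 
(.lf (nat_lit 54279) (.g (nat_lit 3122) (.e (nat_lit 1393) (nat_lit 106) (.e (nat_lit 319530) (nat_lit 16) (.e (nat_lit 286727) (nat_lit 0) (.e (nat_lit 1799) (nat_lit 119) (.e (nat_lit 516176) (nat_lit 14) (.e (nat_lit 466976) (nat_lit 22) (.e (nat_lit 196630) (nat_lit 9) .nil))))))) (.g (nat_lit 5) .nil .nil))) 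
(.lf (nat_lit 54343) (.g (nat_lit 973) (.e (nat_lit 1393) (nat_lit 106) (.e (nat_lit 319530) (nat_lit 16) (.e (nat_lit 286761) (nat_lit 13) (.e (nat_lit 393293) (nat_lit 26) .nil)))) .nil))) (.nd (nat_lit 6) 
(.lf (nat_lit 54311) (.g (nat_lit 1213) (.e (nat_lit 1393) (nat_lit 106) (.e (nat_lit 319530) (nat_lit 16) (.e (nat_lit 286761) (nat_lit 13) (.e (nat_lit 393264) (nat_lit 22) .nil)))) .nil)) 
(.lf (nat_lit 54375) (.g (nat_lit 1589) (.e (nat_lit 1393) (nat_lit 106) (.e (nat_lit 319531) (nat_lit 16) (.e (nat_lit 286748) (nat_lit 9) (.e (nat_lit 336295) (nat_lit 15) .nil)))) .nil)))) (.nd (nat_lit 5) (.nd (nat_lit 6) 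
(.lf (nat_lit 54295) (.g (nat_lit 2538) (.e (nat_lit 1393) (nat_lit 106) (.e (nat_lit 319530) (nat_lit 16) (.e (nat_lit 286735) (nat_lit 3) (.e (nat_lit 98369) (nat_lit 28) (.e (nat_lit 442422) (nat_lit 22) .nil))))) .nil)) 
(.lf (nat_lit 54359) (.g (nat_lit 3058) (.e (nat_lit 1393) (nat_lit 106) (.e (nat_lit 319531) (nat_lit 16) (.e (nat_lit 286733) (nat_lit 2) (.e (nat_lit 90178) (nat_lit 15) (.e (nat_lit 188447) (nat_lit 22) (.e (nat_lit 196630) (nat_lit 9) .nil)))))) (.g (nat_lit 5) .nil .nil)))) (.nd (nat_lit 6) 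
(.lf (nat_lit 54327) (.g (nat_lit 2503) (.e (nat_lit 1393) (nat_lit 106) (.e (nat_lit 319530) (nat_lit 16) (.e (nat_lit 286761) (nat_lit 13) (.e (nat_lit 393283) (nat_lit 24) (.e (nat_lit 434276) (nat_lit 39) (.e (nat_lit 663554) (nat_lit 0) .nil)))))) (.g (nat_lit 5) .nil .nil))) 
(.lf (nat_lit 54391) (.g (nat_lit 868) (.e (nat_lit 1393) (nat_lit 106) (.e (nat_lit 319533) (nat_lit 16) (.e (nat_lit 286753) (nat_lit 10) (.e (nat_lit 344154) (nat_lit 35) .nil)))) .nil))))) (.nd (nat_lit 4) (.nd (nat_lit 5) (.nd (nat_lit 6) 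
(.lf (nat_lit 54287) (.g (nat_lit 3040) (.e (nat_lit 1393) (nat_lit 106) (.e (nat_lit 319530) (nat_lit 16) (.e (nat_lit 286733) (nat_lit 2) (.e (nat_lit 90178) (nat_lit 15) (.e (nat_lit 188447) (nat_lit 22) (.e (nat_lit 196630) (nat_lit 9) .nil)))))) (.g (nat_lit 5) .nil .nil))) 
(.lf (nat_lit 54351) (.g (nat_lit 3088) (.e (nat_lit 1393) (nat_lit 106) (.e (nat_lit 319531) (nat_lit 16) (.e (nat_lit 286727) (nat_lit 0) (.e (nat_lit 1799) (nat_lit 119) (.e (nat_lit 516176) (nat_lit 14) (.e (nat_lit 466976) (nat_lit 22) (.e (nat_lit 196630) (nat_lit 9) .nil))))))) (.g (nat_lit 5) .nil .nil)))) (.nd (nat_lit 6) 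
(.lf (nat_lit 54319) (.g (nat_lit 1665) (.e (nat_lit 1393) (nat_lit 106) (.e (nat_lit 319530) (nat_lit 16) (.e (nat_lit 286761) (nat_lit 13) (.e (nat_lit 393282) (nat_lit 24) (.e (nat_lit 434275) (nat_lit 39) .nil))))) .nil)) 
(.lf (nat_lit 54383) (.g (nat_lit 2023) (.e (nat_lit 1393) (nat_lit 106) (.e (nat_lit 319531) (nat_lit 16) (.e (nat_lit 286761) (nat_lit 13) (.e (nat_lit 393282) (nat_lit 24) .nil)))) .nil)))) (.nd (nat_lit 5) (.nd (nat_lit 6) 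
(.lf (nat_lit 54303) (.g (nat_lit 936) (.e (nat_lit 1393) (nat_lit 106) (.e (nat_lit 319530) (nat_lit 16) (.e (nat_lit 286743) (nat_lit 9) (.e (nat_lit 336433) (nat_lit 30) .nil)))) .nil)) 
(.lf (nat_lit 54367) (.g (nat_lit 1413) (.e (nat_lit 1393) (nat_lit 106) (.e (nat_lit 319531) (nat_lit 16) (.e (nat_lit 286735) (nat_lit 3) (.e (nat_lit 98359) (nat_lit 26) .nil)))) .nil))) (.nd (nat_lit 6) 
(.lf (nat_lit 54335) (.g (nat_lit 1968) (.e (nat_lit 1393) (nat_lit 106) (.e (nat_lit 319530) (nat_lit 16) (.e (nat_lit 286761) (nat_lit 13) (.e (nat_lit 393284) (nat_lit 24) (.e (nat_lit 434278) (nat_lit 39) .nil))))) .nil)) 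
(.lf (nat_lit 54399) (.g (nat_lit 868) (.e (nat_lit 1393) (nat_lit 106) (.e (nat_lit 319534) (nat_lit 16) (.e (nat_lit 286749) (nat_lit 9) .nil))) .nil)))))))))

noncomputable def tv754 : DT := (.nd (nat_lit 0) (.nd (nat_lit 1) (.nd (nat_lit 2) (.nd (nat_lit 3) (.nd (nat_lit 4) (.nd (nat_lit 5) (.nd (nat_lit 6) 
(.lf (nat_lit 54400) (.g (nat_lit 1576) (.e (nat_lit 1393) (nat_lit 106) (.e (nat_lit 319534) (nat_lit 16) (.e (nat_lit 286756) (nat_lit 10) (.e (nat_lit 344153) (nat_lit 35) .nil)))) .nil)) 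
(.lf (nat_lit 54464) (.g (nat_lit 2134) (.e (nat_lit 1394) (nat_lit 106) (.e (nat_lit 319531) (nat_lit 16) (.e (nat_lit 286748) (nat_lit 9) (.e (nat_lit 336389) (nat_lit 27) (.e (nat_lit 426199) (nat_lit 9) .nil))))) .nil))) (.nd (nat_lit 6) 
(.lf (nat_lit 54432) (.g (nat_lit 1880) (.e (nat_lit 1394) (nat_lit 106) (.e (nat_lit 319530) (nat_lit 16) (.e (nat_lit 286761) (nat_lit 13) (.e (nat_lit 393282) (nat_lit 24) (.e (nat_lit 434274) (nat_lit 39) .nil))))) .nil)) 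
(.lf (nat_lit 54496) (.g (nat_lit 3779) (.e (nat_lit 1395) (nat_lit 106) (.e (nat_lit 319505) (nat_lit 10) (.e (nat_lit 618) (nat_lit 48) (.e (nat_lit 557105) (nat_lit 14) (.e (nat_lit 180252) (nat_lit 10) (.e (nat_lit 573488) (nat_lit 14) (.e (nat_lit 81664) (nat_lit 9) (.e (nat_lit 565252) (nat_lit 0) .nil)))))))) (.g (nat_lit 5) .nil .nil))))) (.nd (nat_lit 5) (.nd (nat_lit 6) 
(.lf (nat_lit 54416) (.g (nat_lit 1306) (.e (nat_lit 1394) (nat_lit 106) (.e (nat_lit 319530) (nat_lit 16) (.e (nat_lit 286735) (nat_lit 3) (.e (nat_lit 98363) (nat_lit 26) .nil)))) .nil)) 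
(.lf (nat_lit 54480) (.g (nat_lit 1720) (.e (nat_lit 1394) (nat_lit 106) (.e (nat_lit 319531) (nat_lit 16) (.e (nat_lit 286761) (nat_lit 13) (.e (nat_lit 393270) (nat_lit 23) .nil)))) .nil))) (.nd (nat_lit 6) 
(.lf (nat_lit 54448) (.g (nat_lit 1915) (.e (nat_lit 1394) (nat_lit 106) (.e (nat_lit 319531) (nat_lit 16) (.e (nat_lit 286735) (nat_lit 3) (.e (nat_lit 98365) (nat_lit 26) .nil)))) .nil)) 
(.lf (nat_lit 54512) (.g (nat_lit 1367) (.e (nat_lit 1395) (nat_lit 106) (.e (nat_lit 319530) (nat_lit 16) (.e (nat_lit 286733) (nat_lit 2) (.e (nat_lit 90169) (nat_lit 13) .nil)))) .nil))))) (.nd (nat_lit 4) (.nd (nat_lit 5) (.nd (nat_lit 6) 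
(.lf (nat_lit 54408) (.g (nat_lit 1767) (.e (nat_lit 1394) (nat_lit 106) (.e (nat_lit 319530) (nat_lit 16) (.e (nat_lit 286727) (nat_lit 0) (.e (nat_lit 1799) (nat_lit 119) .nil)))) .nil)) 
(.lf (nat_lit 54472) (.g (nat_lit 548) (.e (nat_lit 1394) (nat_lit 106) (.e (nat_lit 319531) (nat_lit 16) (.e (nat_lit 286756) (nat_lit 10) .nil))) .nil))) (.nd (nat_lit 6) 
(.lf (nat_lit 54440) (.g (nat_lit 3415) (.e (nat_lit 1394) (nat_lit 106) (.e (nat_lit 319531) (nat_lit 16) (.e (nat_lit 286733) (nat_lit 2) (.e (nat_lit 90176) (nat_lit 15) (.e (nat_lit 188447) (nat_lit 22) .nil))))) .nil)) 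
(.lf (nat_lit 54504) (.g (nat_lit 1941) (.e (nat_lit 1395) (nat_lit 106) (.e (nat_lit 319530) (nat_lit 16) (.e (nat_lit 286733) (nat_lit 2) (.e (nat_lit 90128) (nat_lit 9) (.e (nat_lit 3044) (nat_lit 189) (.e (nat_lit 466977) (nat_lit 22) (.e (nat_lit 196626) (nat_lit 9) .nil))))))) (.g (nat_lit 4) .nil .nil))))) (.nd (nat_lit 5) (.nd (nat_lit 6) 
(.lf (nat_lit 54424) (.g (nat_lit 2500) (.e (nat_lit 1394) (nat_lit 106) (.e (nat_lit 319530) (nat_lit 16) (.e (nat_lit 286761) (nat_lit 13) (.e (nat_lit 393234) (nat_lit 17) (.e (nat_lit 7383) (nat_lit 391) .nil))))) .nil)) 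
(.lf (nat_lit 54488) (.g (nat_lit 1752) (.e (nat_lit 1394) (nat_lit 106) (.e (nat_lit 319531) (nat_lit 16) (.e (nat_lit 286761) (nat_lit 13) (.e (nat_lit 393289) (nat_lit 25) .nil)))) .nil))) (.nd (nat_lit 6) 
(.lf (nat_lit 54456) (.g (nat_lit 3366) (.e (nat_lit 1394) (nat_lit 106) (.e (nat_lit 319531) (nat_lit 16) (.e (nat_lit 286735) (nat_lit 3) (.e (nat_lit 98373) (nat_lit 29) (.e (nat_lit 458496) (nat_lit 1) .nil))))) .nil)) 
(.lf (nat_lit 54520) (.g (nat_lit 4416) (.e (nat_lit 1395) (nat_lit 106) (.e (nat_lit 319530) (nat_lit 16) (.e (nat_lit 286733) (nat_lit 2) (.e (nat_lit 90176) (nat_lit 15) (.e (nat_lit 188447) (nat_lit 22) (.e (nat_lit 196630) (nat_lit 9) .nil)))))) (.g (nat_lit 0) .nil .nil))))))) (.nd (nat_lit 3) (.nd (nat_lit 4) (.nd (nat_lit 5) (.nd (nat_lit 6) 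
(.lf (nat_lit 54404) (.g (nat_lit 1995) (.e (nat_lit 1393) (nat_lit 106) (.e (nat_lit 319534) (nat_lit 16) (.e (nat_lit 286756) (nat_lit 10) (.e (nat_lit 344157) (nat_lit 36) (.e (nat_lit 639000) (nat_lit 9) (.e (nat_lit 188160) (nat_lit 32) .nil)))))) (.g (nat_lit 5) .nil .nil))) 
(.lf (nat_lit 54468) (.g (nat_lit 2098) (.e (nat_lit 1394) (nat_lit 106) (.e (nat_lit 319531) (nat_lit 16) (.e (nat_lit 286748) (nat_lit 9) (.e (nat_lit 336389) (nat_lit 27) (.e (nat_lit 426287) (nat_lit 10) .nil))))) .nil))) (.nd (nat_lit 6) 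
(.lf (nat_lit 54436) (.g (nat_lit 1733) (.e (nat_lit 1394) (nat_lit 106) (.e (nat_lit 319531) (nat_lit 16) (.e (nat_lit 286727) (nat_lit 0) (.e (nat_lit 1799) (nat_lit 119) .nil)))) .nil)) 
(.lf (nat_lit 54500) (.g (nat_lit 1914) (.e (nat_lit 1395) (nat_lit 106) (.e (nat_lit 319530) (nat_lit 16) (.e (nat_lit 286733) (nat_lit 2) (.e (nat_lit 90128) (nat_lit 9) (.e (nat_lit 3044) (nat_lit 189) .nil))))) .nil)))) (.nd (nat_lit 5) (.nd (nat_lit 6) 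
(.lf (nat_lit 54420) (.g (nat_lit 988) (.e (nat_lit 1394) (nat_lit 106) (.e (nat_lit 319530) (nat_lit 16) (.e (nat_lit 286748) (nat_lit 9) (.e (nat_lit 336389) (nat_lit 27) .nil)))) .nil)) 
(.lf (nat_lit 54484) (.g (nat_lit 2726) (.e (nat_lit 1394) (nat_lit 106) (.e (nat_lit 319531) (nat_lit 16) (.e (nat_lit 286761) (nat_lit 13) (.e (nat_lit 393283) (nat_lit 24) (.e (nat_lit 434274) (nat_lit 39) (.e (nat_lit 663554) (nat_lit 0) .nil)))))) (.g (nat_lit 5) .nil .nil)))) (.nd (nat_lit 6) 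
(.lf (nat_lit 54452) (.g (nat_lit 2408) (.e (nat_lit 1394) (nat_lit 106) (.e (nat_lit 319531) (nat_lit 16) (.e (nat_lit 286735) (nat_lit 3) (.e (nat_lit 98372) (nat_lit 29) .nil)))) .nil)) 
(.lf (nat_lit 54516) (.g (nat_lit 2082) (.e (nat_lit 1395) (nat_lit 106) (.e (nat_lit 319530) (nat_lit 16) (.e (nat_lit 286733) (nat_lit 2) (.e (nat_lit 90172) (nat_lit 14) (.e (nat_lit 188160) (nat_lit 45) .nil))))) .nil))))) (.nd (nat_lit 4) (.nd (nat_lit 5) (.nd (nat_lit 6) 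
(.lf (nat_lit 54412) (.g (nat_lit 2172) (.e (nat_lit 1394) (nat_lit 106) (.e (nat_lit 319530) (nat_lit 16) (.e (nat_lit 286733) (nat_lit 2) (.e (nat_lit 90177) (nat_lit 15) (.e (nat_lit 188449) (nat_lit 22) (.e (nat_lit 196630) (nat_lit 9) .nil)))))) (.g (nat_lit 4) .nil .nil))) 
(.lf (nat_lit 54476) (.g (nat_lit 3065) (.e (nat_lit 1394) (nat_lit 106) (.e (nat_lit 319531) (nat_lit 16) (.e (nat_lit 286761) (nat_lit 13) (.e (nat_lit 393234) (nat_lit 17) (.e (nat_lit 7383) (nat_lit 391) .nil))))) .nil))) (.nd (nat_lit 6) 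
(.lf (nat_lit 54444) (.g (nat_lit 3256) (.e (nat_lit 1394) (nat_lit 106) (.e (nat_lit 319531) (nat_lit 16) (.e (nat_lit 286733) (nat_lit 2) (.e (nat_lit 90178) (nat_lit 15) (.e (nat_lit 188449) (nat_lit 22) .nil))))) .nil)) 
(.lf (nat_lit 54508) (.g (nat_lit 2023) (.e (nat_lit 1395) (nat_lit 106) (.e (nat_lit 319530) (nat_lit 16) (.e (nat_lit 286733) (nat_lit 2) (.e (nat_lit 90134) (nat_lit 9) (.e (nat_lit 3002) (nat_lit 186) (.e (nat_lit 442422) (nat_lit 22) (.e (nat_lit 196630) (nat_lit 9) .nil))))))) (.g (nat_lit 4) .nil .nil))))) (.nd (nat_lit 5) (.nd (nat_lit 6) 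
(.lf (nat_lit 54428) (.g (nat_lit 1922) (.e (nat_lit 1394) (nat_lit 106) (.e (nat_lit 319530) (nat_lit 16) (.e (nat_lit 286761) (nat_lit 13) (.e (nat_lit 393270) (nat_lit 23) (.e (nat_lit 425986) (nat_lit 0) .nil))))) .nil)) 
(.lf (nat_lit 54492) (.g (nat_lit 1998) (.e (nat_lit 1394) (nat_lit 106) (.e (nat_lit 319534) (nat_lit 16) (.e (nat_lit 286756) (nat_lit 10) (.e (nat_lit 344157) (nat_lit 36) .nil)))) .nil))) (.nd (nat_lit 6) 
(.lf (nat_lit 54460) (.g (nat_lit 870) (.e (nat_lit 1394) (nat_lit 106) (.e (nat_lit 319531) (nat_lit 16) (.e (nat_lit 286743) (nat_lit 9) .nil))) .nil)) 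
(.lf (nat_lit 54524) (.g (nat_lit 2233) (.e (nat_lit 1395) (nat_lit 106) (.e (nat_lit 319530) (nat_lit 16) (.e (nat_lit 286733) (nat_lit 2) (.e (nat_lit 90178) (nat_lit 15) (.e (nat_lit 188432) (nat_lit 20) .nil))))) .nil))))))) (.nd (nat_lit 2) (.nd (nat_lit 3) (.nd (nat_lit 4) (.nd (nat_lit 5) (.nd (nat_lit 6) 
(.lf (nat_lit 54402) (.g (nat_lit 1506) (.e (nat_lit 1393) (nat_lit 106) (.e (nat_lit 319534) (nat_lit 16) (.e (nat_lit 286756) (nat_lit 10) (.e (nat_lit 344157) (nat_lit 36) .nil)))) .nil)) 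
(.lf (nat_lit 54466) (.g (nat_lit 2115) (.e (nat_lit 1394) (nat_lit 106) (.e (nat_lit 319531) (nat_lit 16) (.e (nat_lit 286748) (nat_lit 9) (.e (nat_lit 336389) (nat_lit 27) (.e (nat_lit 426275) (nat_lit 10) .nil))))) .nil))) (.nd (nat_lit 6) 
(.lf (nat_lit 54434) (.g (nat_lit 1704) (.e (nat_lit 1394) (nat_lit 106) (.e (nat_lit 319530) (nat_lit 16) (.e (nat_lit 286761) (nat_lit 13) (.e (nat_lit 393286) (nat_lit 25) .nil)))) .nil)) 
(.lf (nat_lit 54498) (.g (nat_lit 1468) (.e (nat_lit 1395) (nat_lit 106) (.e (nat_lit 319530) (nat_lit 16) (.e (nat_lit 286727) (nat_lit 0) (.e (nat_lit 1799) (nat_lit 119) (.e (nat_lit 516177) (nat_lit 14) .nil))))) .nil)))) (.nd (nat_lit 5) (.nd (nat_lit 6) 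
(.lf (nat_lit 54418) (.g (nat_lit 1367) (.e (nat_lit 1394) (nat_lit 106) (.e (nat_lit 319530) (nat_lit 16) (.e (nat_lit 286735) (nat_lit 3) (.e (nat_lit 98382) (nat_lit 31) .nil)))) .nil)) 
(.lf (nat_lit 54482) (.g (nat_lit 3293) (.e (nat_lit 1394) (nat_lit 106) (.e (nat_lit 319531) (nat_lit 16) (.e (nat_lit 286761) (nat_lit 13) (.e (nat_lit 393271) (nat_lit 23) (.e (nat_lit 425986) (nat_lit 0) .nil))))) .nil))) (.nd (nat_lit 6) 
(.lf (nat_lit 54450) (.g (nat_lit 2517) (.e (nat_lit 1394) (nat_lit 106) (.e (nat_lit 319531) (nat_lit 16) (.e (nat_lit 286735) (nat_lit 3) (.e (nat_lit 98370) (nat_lit 28) (.e (nat_lit 442424) (nat_lit 22) .nil))))) .nil)) 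
(.lf (nat_lit 54514) (.g (nat_lit 1901) (.e (nat_lit 1395) (nat_lit 106) (.e (nat_lit 319530) (nat_lit 16) (.e (nat_lit 286733) (nat_lit 2) (.e (nat_lit 90169) (nat_lit 13) (.e (nat_lit 172103) (nat_lit 9) .nil))))) .nil))))) (.nd (nat_lit 4) (.nd (nat_lit 5) (.nd (nat_lit 6) 
(.lf (nat_lit 54410) (.g (nat_lit 1487) (.e (nat_lit 1394) (nat_lit 106) (.e (nat_lit 319530) (nat_lit 16) (.e (nat_lit 286733) (nat_lit 2) (.e (nat_lit 90128) (nat_lit 9) .nil)))) .nil)) 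
(.lf (nat_lit 54474) (.g (nat_lit 684) (.e (nat_lit 1394) (nat_lit 106) (.e (nat_lit 319531) (nat_lit 16) (.e (nat_lit 286761) (nat_lit 13) .nil))) .nil))) (.nd (nat_lit 6) 
(.lf (nat_lit 54442) (.g (nat_lit 3003) (.e (nat_lit 1394) (nat_lit 106) (.e (nat_lit 319531) (nat_lit 16) (.e (nat_lit 286733) (nat_lit 2) (.e (nat_lit 90177) (nat_lit 15) (.e (nat_lit 188449) (nat_lit 22) .nil))))) .nil)) 
(.lf (nat_lit 54506) (.g (nat_lit 1069) (.e (nat_lit 1395) (nat_lit 106) (.e (nat_lit 319530) (nat_lit 16) (.e (nat_lit 286733) (nat_lit 2) (.e (nat_lit 90134) (nat_lit 9) .nil)))) .nil)))) (.nd (nat_lit 5) (.nd (nat_lit 6) 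
(.lf (nat_lit 54426) (.g (nat_lit 1703) (.e (nat_lit 1394) (nat_lit 106) (.e (nat_lit 319530) (nat_lit 16) (.e (nat_lit 286761) (nat_lit 13) (.e (nat_lit 393267) (nat_lit 23) .nil)))) .nil)) 
(.lf (nat_lit 54490) (.g (nat_lit 982) (.e (nat_lit 1394) (nat_lit 106) (.e (nat_lit 319534) (nat_lit 16) (.e (nat_lit 286756) (nat_lit 10) .nil))) .nil))) (.nd (nat_lit 6) 
(.lf (nat_lit 54458) (.g (nat_lit 2001) (.e (nat_lit 1394) (nat_lit 106) (.e (nat_lit 319531) (nat_lit 16) (.e (nat_lit 286735) (nat_lit 3) (.e (nat_lit 98381) (nat_lit 31) .nil)))) .nil)) 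
(.lf (nat_lit 54522) (.g (nat_lit 2418) (.e (nat_lit 1395) (nat_lit 106) (.e (nat_lit 319530) (nat_lit 16) (.e (nat_lit 286733) (nat_lit 2) (.e (nat_lit 90177) (nat_lit 15) (.e (nat_lit 188458) (nat_lit 25) (.e (nat_lit 245781) (nat_lit 9) .nil)))))) (.g (nat_lit 5) .nil .nil))))))) (.nd (nat_lit 3) (.nd (nat_lit 4) (.nd (nat_lit 5) (.nd (nat_lit 6) 
(.lf (nat_lit 54406) (.g (nat_lit 2413) (.e (nat_lit 1393) (nat_lit 106) (.e (nat_lit 319534) (nat_lit 16) (.e (nat_lit 286756) (nat_lit 10) (.e (nat_lit 344160) (nat_lit 37) (.e (nat_lit 647199) (nat_lit 11) (.e (nat_lit 16388) (nat_lit 0) (.e (nat_lit 7495) (nat_lit 402) .nil))))))) (.g (nat_lit 5) .nil .nil))) 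
(.lf (nat_lit 54470) (.g (nat_lit 2207) (.e (nat_lit 1394) (nat_lit 106) (.e (nat_lit 319531) (nat_lit 16) (.e (nat_lit 286748) (nat_lit 9) (.e (nat_lit 336389) (nat_lit 27) (.e (nat_lit 426298) (nat_lit 11) .nil))))) .nil))) (.nd (nat_lit 6) 
(.lf (nat_lit 54438) (.g (nat_lit 2923) (.e (nat_lit 1394) (nat_lit 106) (.e (nat_lit 319531) (nat_lit 16) (.e (nat_lit 286733) (nat_lit 2) (.e (nat_lit 90134) (nat_lit 9) (.e (nat_lit 2842) (nat_lit 184) .nil))))) .nil)) 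
(.lf (nat_lit 54502) (.g (nat_lit 1965) (.e (nat_lit 1395) (nat_lit 106) (.e (nat_lit 319530) (nat_lit 16) (.e (nat_lit 286733) (nat_lit 2) (.e (nat_lit 90128) (nat_lit 9) (.e (nat_lit 3044) (nat_lit 189) (.e (nat_lit 466976) (nat_lit 22) (.e (nat_lit 196630) (nat_lit 9) .nil))))))) (.g (nat_lit 4) .nil .nil))))) (.nd (nat_lit 5) (.nd (nat_lit 6) 
(.lf (nat_lit 54422) (.g (nat_lit 2120) (.e (nat_lit 1394) (nat_lit 106) (.e (nat_lit 319530) (nat_lit 16) (.e (nat_lit 286759) (nat_lit 12) (.e (nat_lit 385088) (nat_lit 47) (.e (nat_lit 761910) (nat_lit 17) .nil))))) .nil)) 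
(.lf (nat_lit 54486) (.g (nat_lit 2596) (.e (nat_lit 1394) (nat_lit 106) (.e (nat_lit 319531) (nat_lit 16) (.e (nat_lit 286761) (nat_lit 13) (.e (nat_lit 393284) (nat_lit 24) (.e (nat_lit 434275) (nat_lit 39) .nil))))) .nil))) (.nd (nat_lit 6) 
(.lf (nat_lit 54454) (.g (nat_lit 3152) (.e (nat_lit 1394) (nat_lit 106) (.e (nat_lit 319531) (nat_lit 16) (.e (nat_lit 286735) (nat_lit 3) (.e (nat_lit 98373) (nat_lit 29) (.e (nat_lit 450573) (nat_lit 1) .nil))))) .nil)) 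
(.lf (nat_lit 54518) (.g (nat_lit 2089) (.e (nat_lit 1395) (nat_lit 106) (.e (nat_lit 319530) (nat_lit 16) (.e (nat_lit 286733) (nat_lit 2) (.e (nat_lit 90174) (nat_lit 14) (.e (nat_lit 188160) (nat_lit 45) .nil))))) .nil))))) (.nd (nat_lit 4) (.nd (nat_lit 5) (.nd (nat_lit 6) 
(.lf (nat_lit 54414) (.g (nat_lit 2293) (.e (nat_lit 1394) (nat_lit 106) (.e (nat_lit 319530) (nat_lit 16) (.e (nat_lit 286733) (nat_lit 2) (.e (nat_lit 90178) (nat_lit 15) (.e (nat_lit 188447) (nat_lit 22) (.e (nat_lit 196630) (nat_lit 9) .nil)))))) (.g (nat_lit 4) .nil .nil))) 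
(.lf (nat_lit 54478) (.g (nat_lit 2678) (.e (nat_lit 1394) (nat_lit 106) (.e (nat_lit 319531) (nat_lit 16) (.e (nat_lit 286761) (nat_lit 13) (.e (nat_lit 393265) (nat_lit 22) (.e (nat_lit 417792) (nat_lit 0) .nil))))) .nil))) (.nd (nat_lit 6) 
(.lf (nat_lit 54446) (.g (nat_lit 1778) (.e (nat_lit 1394) (nat_lit 106) (.e (nat_lit 319531) (nat_lit 16) (.e (nat_lit 286735) (nat_lit 3) (.e (nat_lit 98359) (nat_lit 26) .nil)))) .nil)) 
(.lf (nat_lit 54510) (.g (nat_lit 2121) (.e (nat_lit 1395) (nat_lit 106) (.e (nat_lit 319530) (nat_lit 16) (.e (nat_lit 286733) (nat_lit 2) (.e (nat_lit 90134) (nat_lit 9) (.e (nat_lit 3045) (nat_lit 189) .nil))))) .nil)))) (.nd (nat_lit 5) (.nd (nat_lit 6) 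
(.lf (nat_lit 54430) (.g (nat_lit 1856) (.e (nat_lit 1394) (nat_lit 106) (.e (nat_lit 319530) (nat_lit 16) (.e (nat_lit 286761) (nat_lit 13) (.e (nat_lit 393270) (nat_lit 23) (.e (nat_lit 433920) (nat_lit 0) .nil))))) .nil)) 
(.lf (nat_lit 54494) (.g (nat_lit 894) (.e (nat_lit 1394) (nat_lit 106) (.e (nat_lit 319534) (nat_lit 16) (.e (nat_lit 286761) (nat_lit 13) .nil))) .nil))) (.nd (nat_lit 6) 
(.lf (nat_lit 54462) (.g (nat_lit 1297) (.e (nat_lit 1394) (nat_lit 106) (.e (nat_lit 319531) (nat_lit 16) (.e (nat_lit 286748) (nat_lit 9) (.e (nat_lit 336389) (nat_lit 27) .nil)))) .nil)) 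
(.lf (nat_lit 54526) (.g (nat_lit 2351) (.e (nat_lit 1395) (nat_lit 106) (.e (nat_lit 319530) (nat_lit 16) (.e (nat_lit 286733) (nat_lit 2) (.e (nat_lit 90178) (nat_lit 15) (.e (nat_lit 188441) (nat_lit 20) .nil))))) .nil)))))))) (.nd (nat_lit 1) (.nd (nat_lit 2) (.nd (nat_lit 3) (.nd (nat_lit 4) (.nd (nat_lit 5) (.nd (nat_lit 6) 
(.lf (nat_lit 54401) (.g (nat_lit 1746) (.e (nat_lit 1393) (nat_lit 106) (.e (nat_lit 319534) (nat_lit 16) (.e (nat_lit 286756) (nat_lit 10) (.e (nat_lit 344154) (nat_lit 35) (.e (nat_lit 630803) (nat_lit 9) (.e (nat_lit 188160) (nat_lit 32) .nil)))))) (.g (nat_lit 4) .nil .nil))) 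
(.lf (nat_lit 54465) (.g (nat_lit 2165) (.e (nat_lit 1394) (nat_lit 106) (.e (nat_lit 319531) (nat_lit 16) (.e (nat_lit 286748) (nat_lit 9) (.e (nat_lit 336389) (nat_lit 27) (.e (nat_lit 426200) (nat_lit 9) .nil))))) .nil))) (.nd (nat_lit 6) 
(.lf (nat_lit 54433) (.g (nat_lit 2602) (.e (nat_lit 1394) (nat_lit 106) (.e (nat_lit 319530) (nat_lit 16) (.e (nat_lit 286761) (nat_lit 13) (.e (nat_lit 393284) (nat_lit 24) (.e (nat_lit 434274) (nat_lit 39) (.e (nat_lit 663554) (nat_lit 0) .nil)))))) (.g (nat_lit 0) .nil .nil))) 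
(.lf (nat_lit 54497) (.g (nat_lit 1199) (.e (nat_lit 1395) (nat_lit 106) (.e (nat_lit 319530) (nat_lit 16) (.e (nat_lit 286727) (nat_lit 0) (.e (nat_lit 1799) (nat_lit 119) .nil)))) .nil)))) (.nd (nat_lit 5) (.nd (nat_lit 6) 
(.lf (nat_lit 54417) (.g (nat_lit 1277) (.e (nat_lit 1394) (nat_lit 106) (.e (nat_lit 319530) (nat_lit 16) (.e (nat_lit 286735) (nat_lit 3) (.e (nat_lit 98374) (nat_lit 29) .nil)))) .nil)) 
(.lf (nat_lit 54481) (.g (nat_lit 2337) (.e (nat_lit 1394) (nat_lit 106) (.e (nat_lit 319531) (nat_lit 16) (.e (nat_lit 286761) (nat_lit 13) (.e (nat_lit 393270) (nat_lit 23) (.e (nat_lit 433920) (nat_lit 0) .nil))))) .nil))) (.nd (nat_lit 6) 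
(.lf (nat_lit 54449) (.g (nat_lit 2020) (.e (nat_lit 1394) (nat_lit 106) (.e (nat_lit 319531) (nat_lit 16) (.e (nat_lit 286735) (nat_lit 3) (.e (nat_lit 98369) (nat_lit 28) .nil)))) .nil)) 
(.lf (nat_lit 54513) (.g (nat_lit 5928) (.e (nat_lit 1395) (nat_lit 106) (.e (nat_lit 319530) (nat_lit 16) (.e (nat_lit 286733) (nat_lit 2) (.e (nat_lit 90169) (nat_lit 13) (.e (nat_lit 172094) (nat_lit 9) (.e (nat_lit 426125) (nat_lit 2) (.e (nat_lit 196630) (nat_lit 9) .nil))))))) (.g (nat_lit 7) .nil .nil)))))) (.nd (nat_lit 4) (.nd (nat_lit 5) (.nd (nat_lit 6) 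
(.lf (nat_lit 54409) (.g (nat_lit 640) (.e (nat_lit 1394) (nat_lit 106) (.e (nat_lit 319530) (nat_lit 16) (.e (nat_lit 286733) (nat_lit 2) .nil))) .nil)) 
(.lf (nat_lit 54473) (.g (nat_lit 821) (.e (nat_lit 1394) (nat_lit 106) (.e (nat_lit 319531) (nat_lit 16) (.e (nat_lit 286759) (nat_lit 12) .nil))) .nil))) (.nd (nat_lit 6) 
(.lf (nat_lit 54441) (.g (nat_lit 2325) (.e (nat_lit 1394) (nat_lit 106) (.e (nat_lit 319531) (nat_lit 16) (.e (nat_lit 286733) (nat_lit 2) (.e (nat_lit 90177) (nat_lit 15) .nil)))) .nil)) 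
(.lf (nat_lit 54505) (.g (nat_lit 2997) (.e (nat_lit 1395) (nat_lit 106) (.e (nat_lit 319530) (nat_lit 16) (.e (nat_lit 286733) (nat_lit 2) (.e (nat_lit 90128) (nat_lit 9) (.e (nat_lit 3044) (nat_lit 189) (.e (nat_lit 466977) (nat_lit 22) (.e (nat_lit 196630) (nat_lit 9) .nil))))))) (.g (nat_lit 6) .nil .nil))))) (.nd (nat_lit 5) (.nd (nat_lit 6) 
(.lf (nat_lit 54425) (.g (nat_lit 1303) (.e (nat_lit 1394) (nat_lit 106) (.e (nat_lit 319530) (nat_lit 16) (.e (nat_lit 286761) (nat_lit 13) (.e (nat_lit 393264) (nat_lit 22) .nil)))) .nil)) 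
(.lf (nat_lit 54489) (.g (nat_lit 2248) (.e (nat_lit 1394) (nat_lit 106) (.e (nat_lit 319531) (nat_lit 16) (.e (nat_lit 286761) (nat_lit 13) (.e (nat_lit 393289) (nat_lit 25) (.e (nat_lit 466688) (nat_lit 39) .nil))))) .nil))) (.nd (nat_lit 6) 
(.lf (nat_lit 54457) (.g (nat_lit 1869) (.e (nat_lit 1394) (nat_lit 106) (.e (nat_lit 319531) (nat_lit 16) (.e (nat_lit 286735) (nat_lit 3) (.e (nat_lit 98374) (nat_lit 29) .nil)))) .nil)) 
(.lf (nat_lit 54521) (.g (nat_lit 1428) (.e (nat_lit 1395) (nat_lit 106) (.e (nat_lit 319530) (nat_lit 16) (.e (nat_lit 286733) (nat_lit 2) (.e (nat_lit 90177) (nat_lit 15) .nil)))) .nil)))))) (.nd (nat_lit 3) (.nd (nat_lit 4) (.nd (nat_lit 5) (.nd (nat_lit 6) 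
(.lf (nat_lit 54405) (.g (nat_lit 1586) (.e (nat_lit 1393) (nat_lit 106) (.e (nat_lit 319534) (nat_lit 16) (.e (nat_lit 286756) (nat_lit 10) (.e (nat_lit 344160) (nat_lit 37) .nil)))) .nil)) 
(.lf (nat_lit 54469) (.g (nat_lit 2229) (.e (nat_lit 1394) (nat_lit 106) (.e (nat_lit 319531) (nat_lit 16) (.e (nat_lit 286748) (nat_lit 9) (.e (nat_lit 336389) (nat_lit 27) (.e (nat_lit 426296) (nat_lit 11) .nil))))) .nil))) (.nd (nat_lit 6) 
(.lf (nat_lit 54437) (.g (nat_lit 859) (.e (nat_lit 1394) (nat_lit 106) (.e (nat_lit 319531) (nat_lit 16) (.e (nat_lit 286733) (nat_lit 2) .nil))) .nil)) 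
(.lf (nat_lit 54501) (.g (nat_lit 2584) (.e (nat_lit 1395) (nat_lit 106) (.e (nat_lit 319530) (nat_lit 16) (.e (nat_lit 286733) (nat_lit 2) (.e (nat_lit 90128) (nat_lit 9) (.e (nat_lit 3044) (nat_lit 189) (.e (nat_lit 466975) (nat_lit 22) (.e (nat_lit 196626) (nat_lit 9) .nil))))))) (.g (nat_lit 7) .nil .nil))))) (.nd (nat_lit 5) (.nd (nat_lit 6) 
(.lf (nat_lit 54421) (.g (nat_lit 1629) (.e (nat_lit 1394) (nat_lit 106) (.e (nat_lit 319530) (nat_lit 16) (.e (nat_lit 286759) (nat_lit 12) (.e (nat_lit 385088) (nat_lit 47) .nil)))) .nil)) 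
(.lf (nat_lit 54485) (.g (nat_lit 2530) (.e (nat_lit 1394) (nat_lit 106) (.e (nat_lit 319531) (nat_lit 16) (.e (nat_lit 286761) (nat_lit 13) (.e (nat_lit 393283) (nat_lit 24) (.e (nat_lit 434276) (nat_lit 39) .nil))))) .nil))) (.nd (nat_lit 6) 
(.lf (nat_lit 54453) (.g (nat_lit 3102) (.e (nat_lit 1394) (nat_lit 106) (.e (nat_lit 319531) (nat_lit 16) (.e (nat_lit 286735) (nat_lit 3) (.e (nat_lit 98373) (nat_lit 29) (.e (nat_lit 450570) (nat_lit 1) .nil))))) .nil)) 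
(.lf (nat_lit 54517) (.g (nat_lit 1309) (.e (nat_lit 1395) (nat_lit 106) (.e (nat_lit 319530) (nat_lit 16) (.e (nat_lit 286733) (nat_lit 2) (.e (nat_lit 90174) (nat_lit 14) .nil)))) .nil))))) (.nd (nat_lit 4) (.nd (nat_lit 5) (.nd (nat_lit 6) 
(.lf (nat_lit 54413) (.g (nat_lit 1320) (.e (nat_lit 1394) (nat_lit 106) (.e (nat_lit 319530) (nat_lit 16) (.e (nat_lit 286733) (nat_lit 2) (.e (nat_lit 90178) (nat_lit 15) .nil)))) .nil)) 
(.lf (nat_lit 54477) (.g (nat_lit 1785) (.e (nat_lit 1394) (nat_lit 106) (.e (nat_lit 319531) (nat_lit 16) (.e (nat_lit 286761) (nat_lit 13) (.e (nat_lit 393264) (nat_lit 22) .nil)))) .nil))) (.nd (nat_lit 6) 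
(.lf (nat_lit 54445) (.g (nat_lit 748) (.e (nat_lit 1394) (nat_lit 106) (.e (nat_lit 319531) (nat_lit 16) (.e (nat_lit 286735) (nat_lit 3) .nil))) .nil)) 
(.lf (nat_lit 54509) (.g (nat_lit 2357) (.e (nat_lit 1395) (nat_lit 106) (.e (nat_lit 319530) (nat_lit 16) (.e (nat_lit 286733) (nat_lit 2) (.e (nat_lit 90134) (nat_lit 9) (.e (nat_lit 3025) (nat_lit 187) (.e (nat_lit 450571) (nat_lit 1) (.e (nat_lit 507648) (nat_lit 14) .nil))))))) (.g (nat_lit 5) .nil .nil))))) (.nd (nat_lit 5) (.nd (nat_lit 6) 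
(.lf (nat_lit 54429) (.g (nat_lit 2022) (.e (nat_lit 1394) (nat_lit 106) (.e (nat_lit 319530) (nat_lit 16) (.e (nat_lit 286761) (nat_lit 13) (.e (nat_lit 393270) (nat_lit 23) (.e (nat_lit 425998) (nat_lit 0) .nil))))) .nil)) 
(.lf (nat_lit 54493) (.g (nat_lit 2022) (.e (nat_lit 1394) (nat_lit 106) (.e (nat_lit 319534) (nat_lit 16) (.e (nat_lit 286756) (nat_lit 10) (.e (nat_lit 344160) (nat_lit 37) .nil)))) .nil))) (.nd (nat_lit 6) 
(.lf (nat_lit 54461) (.g (nat_lit 819) (.e (nat_lit 1394) (nat_lit 106) (.e (nat_lit 319531) (nat_lit 16) (.e (nat_lit 286748) (nat_lit 9) .nil))) .nil)) 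
(.lf (nat_lit 54525) (.g (nat_lit 2348) (.e (nat_lit 1395) (nat_lit 106) (.e (nat_lit 319530) (nat_lit 16) (.e (nat_lit 286733) (nat_lit 2) (.e (nat_lit 90178) (nat_lit 15) (.e (nat_lit 188440) (nat_lit 20) .nil))))) .nil))))))) (.nd (nat_lit 2) (.nd (nat_lit 3) (.nd (nat_lit 4) (.nd (nat_lit 5) (.nd (nat_lit 6) 
(.lf (nat_lit 54403) (.g (nat_lit 1816) (.e (nat_lit 1393) (nat_lit 106) (.e (nat_lit 319534) (nat_lit 16) (.e (nat_lit 286756) (nat_lit 10) (.e (nat_lit 344157) (nat_lit 36) (.e (nat_lit 639000) (nat_lit 9) (.e (nat_lit 180277) (nat_lit 32) .nil)))))) (.g (nat_lit 4) .nil .nil))) 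
(.lf (nat_lit 54467) (.g (nat_lit 2142) (.e (nat_lit 1394) (nat_lit 106) (.e (nat_lit 319531) (nat_lit 16) (.e (nat_lit 286748) (nat_lit 9) (.e (nat_lit 336389) (nat_lit 27) (.e (nat_lit 426278) (nat_lit 10) .nil))))) .nil))) (.nd (nat_lit 6) 
(.lf (nat_lit 54435) (.g (nat_lit 1644) (.e (nat_lit 1394) (nat_lit 106) (.e (nat_lit 319530) (nat_lit 16) (.e (nat_lit 286761) (nat_lit 13) (.e (nat_lit 393289) (nat_lit 25) (.e (nat_lit 458805) (nat_lit 39) .nil))))) .nil)) 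
(.lf (nat_lit 54499) (.g (nat_lit 313) (.e (nat_lit 1395) (nat_lit 106) (.e (nat_lit 319530) (nat_lit 16) (.e (nat_lit 286733) (nat_lit 2) .nil))) .nil)))) (.nd (nat_lit 5) (.nd (nat_lit 6) 
(.lf (nat_lit 54419) (.g (nat_lit 1170) (.e (nat_lit 1394) (nat_lit 106) (.e (nat_lit 319530) (nat_lit 16) (.e (nat_lit 286743) (nat_lit 9) (.e (nat_lit 336433) (nat_lit 30) .nil)))) .nil)) 
(.lf (nat_lit 54483) (.g (nat_lit 2465) (.e (nat_lit 1394) (nat_lit 106) (.e (nat_lit 319531) (nat_lit 16) (.e (nat_lit 286761) (nat_lit 13) (.e (nat_lit 393282) (nat_lit 24) (.e (nat_lit 434274) (nat_lit 39) .nil))))) .nil))) (.nd (nat_lit 6) 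
(.lf (nat_lit 54451) (.g (nat_lit 1999) (.e (nat_lit 1394) (nat_lit 106) (.e (nat_lit 319531) (nat_lit 16) (.e (nat_lit 286735) (nat_lit 3) (.e (nat_lit 98371) (nat_lit 28) .nil)))) .nil)) 
(.lf (nat_lit 54515) (.g (nat_lit 3180) (.e (nat_lit 1395) (nat_lit 106) (.e (nat_lit 319530) (nat_lit 16) (.e (nat_lit 286733) (nat_lit 2) (.e (nat_lit 90170) (nat_lit 13) (.e (nat_lit 172097) (nat_lit 9) .nil))))) .nil))))) (.nd (nat_lit 4) (.nd (nat_lit 5) (.nd (nat_lit 6) 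
(.lf (nat_lit 54411) (.g (nat_lit 1729) (.e (nat_lit 1394) (nat_lit 106) (.e (nat_lit 319530) (nat_lit 16) (.e (nat_lit 286733) (nat_lit 2) (.e (nat_lit 90174) (nat_lit 14) (.e (nat_lit 188160) (nat_lit 45) .nil))))) .nil)) 
(.lf (nat_lit 54475) (.g (nat_lit 2274) (.e (nat_lit 1394) (nat_lit 106) (.e (nat_lit 319531) (nat_lit 16) (.e (nat_lit 286761) (nat_lit 13) (.e (nat_lit 393234) (nat_lit 17) (.e (nat_lit 7065) (nat_lit 377) (.e (nat_lit 988) (nat_lit 81) (.e (nat_lit 705) (nat_lit 61) (.e (nat_lit 663554) (nat_lit 0) .nil)))))))) (.g (nat_lit 4) .nil .nil)))) (.nd (nat_lit 6) 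
(.lf (nat_lit 54443) (.g (nat_lit 3046) (.e (nat_lit 1394) (nat_lit 106) (.e (nat_lit 319531) (nat_lit 16) (.e (nat_lit 286733) (nat_lit 2) (.e (nat_lit 90178) (nat_lit 15) (.e (nat_lit 188447) (nat_lit 22) .nil))))) .nil)) 
(.lf (nat_lit 54507) (.g (nat_lit 2021) (.e (nat_lit 1395) (nat_lit 106) (.e (nat_lit 319530) (nat_lit 16) (.e (nat_lit 286733) (nat_lit 2) (.e (nat_lit 90134) (nat_lit 9) (.e (nat_lit 3002) (nat_lit 186) .nil))))) .nil)))) (.nd (nat_lit 5) (.nd (nat_lit 6) 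
(.lf (nat_lit 54427) (.g (nat_lit 1709) (.e (nat_lit 1394) (nat_lit 106) (.e (nat_lit 319530) (nat_lit 16) (.e (nat_lit 286761) (nat_lit 13) (.e (nat_lit 393269) (nat_lit 23) .nil)))) .nil)) 
(.lf (nat_lit 54491) (.g (nat_lit 1976) (.e (nat_lit 1394) (nat_lit 106) (.e (nat_lit 319534) (nat_lit 16) (.e (nat_lit 286756) (nat_lit 10) (.e (nat_lit 344154) (nat_lit 35) .nil)))) .nil))) (.nd (nat_lit 6) 
(.lf (nat_lit 54459) (.g (nat_lit 1954) (.e (nat_lit 1394) (nat_lit 106) (.e (nat_lit 319531) (nat_lit 16) (.e (nat_lit 286735) (nat_lit 3) (.e (nat_lit 98382) (nat_lit 31) .nil)))) .nil)) 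
(.lf (nat_lit 54523) (.g (nat_lit 1267) (.e (nat_lit 1395) (nat_lit 106) (.e (nat_lit 319530) (nat_lit 16) (.e (nat_lit 286733) (nat_lit 2) (.e (nat_lit 90178) (nat_lit 15) .nil)))) .nil)))))) (.nd (nat_lit 3) (.nd (nat_lit 4) (.nd (nat_lit 5) (.nd (nat_lit 6) 
(.lf (nat_lit 54407) (.g (nat_lit 748) (.e (nat_lit 1393) (nat_lit 106) (.e (nat_lit 319536) (nat_lit 17) (.e (nat_lit 294928) (nat_lit 2) .nil))) .nil)) 
(.lf (nat_lit 54471) (.g (nat_lit 2162) (.e (nat_lit 1394) (nat_lit 106) (.e (nat_lit 319531) (nat_lit 16) (.e (nat_lit 286748) (nat_lit 9) (.e (nat_lit 336389) (nat_lit 27) (.e (nat_lit 426300) (nat_lit 11) .nil))))) .nil))) (.nd (nat_lit 6) 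
(.lf (nat_lit 54439) (.g (nat_lit 2242) (.e (nat_lit 1394) (nat_lit 106) (.e (nat_lit 319531) (nat_lit 16) (.e (nat_lit 286733) (nat_lit 2) (.e (nat_lit 90170) (nat_lit 13) .nil)))) .nil)) 
(.lf (nat_lit 54503) (.g (nat_lit 2046) (.e (nat_lit 1395) (nat_lit 106) (.e (nat_lit 319530) (nat_lit 16) (.e (nat_lit 286733) (nat_lit 2) (.e (nat_lit 90128) (nat_lit 9) (.e (nat_lit 3044) (nat_lit 189) (.e (nat_lit 466977) (nat_lit 22) (.e (nat_lit 196623) (nat_lit 9) .nil))))))) (.g (nat_lit 4) .nil .nil))))) (.nd (nat_lit 5) (.nd (nat_lit 6) 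
(.lf (nat_lit 54423) (.g (nat_lit 377) (.e (nat_lit 1394) (nat_lit 106) (.e (nat_lit 319530) (nat_lit 16) (.e (nat_lit 286761) (nat_lit 13) .nil))) .nil)) 
(.lf (nat_lit 54487) (.g (nat_lit 2159) (.e (nat_lit 1394) (nat_lit 106) (.e (nat_lit 319531) (nat_lit 16) (.e (nat_lit 286761) (nat_lit 13) (.e (nat_lit 393286) (nat_lit 25) .nil)))) .nil))) (.nd (nat_lit 6) 
(.lf (nat_lit 54455) (.g (nat_lit 3574) (.e (nat_lit 1394) (nat_lit 106) (.e (nat_lit 319531) (nat_lit 16) (.e (nat_lit 286735) (nat_lit 3) (.e (nat_lit 98373) (nat_lit 29) (.e (nat_lit 450575) (nat_lit 1) .nil))))) .nil)) 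
(.lf (nat_lit 54519) (.g (nat_lit 1984) (.e (nat_lit 1395) (nat_lit 106) (.e (nat_lit 319530) (nat_lit 16) (.e (nat_lit 286733) (nat_lit 2) (.e (nat_lit 90176) (nat_lit 15) (.e (nat_lit 188447) (nat_lit 22) .nil))))) .nil))))) (.nd (nat_lit 4) (.nd (nat_lit 5) (.nd (nat_lit 6) 
(.lf (nat_lit 54415) (.g (nat_lit 410) (.e (nat_lit 1394) (nat_lit 106) (.e (nat_lit 319530) (nat_lit 16) (.e (nat_lit 286735) (nat_lit 3) .nil))) .nil)) 
(.lf (nat_lit 54479) (.g (nat_lit 2193) (.e (nat_lit 1394) (nat_lit 106) (.e (nat_lit 319531) (nat_lit 16) (.e (nat_lit 286761) (nat_lit 13) (.e (nat_lit 393267) (nat_lit 23) .nil)))) .nil))) (.nd (nat_lit 6) 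
(.lf (nat_lit 54447) (.g (nat_lit 1854) (.e (nat_lit 1394) (nat_lit 106) (.e (nat_lit 319531) (nat_lit 16) (.e (nat_lit 286735) (nat_lit 3) (.e (nat_lit 98363) (nat_lit 26) .nil)))) .nil)) 
(.lf (nat_lit 54511) (.g (nat_lit 1282) (.e (nat_lit 1395) (nat_lit 106) (.e (nat_lit 319530) (nat_lit 16) (.e (nat_lit 286733) (nat_lit 2) (.e (nat_lit 90166) (nat_lit 13) .nil)))) .nil)))) (.nd (nat_lit 5) (.nd (nat_lit 6) 
(.lf (nat_lit 54431) (.g (nat_lit 1619) (.e (nat_lit 1394) (nat_lit 106) (.e (nat_lit 319530) (nat_lit 16) (.e (nat_lit 286761) (nat_lit 13) (.e (nat_lit 393275) (nat_lit 23) .nil)))) .nil)) 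
(.lf (nat_lit 54495) (.g (nat_lit 2628) (.e (nat_lit 1395) (nat_lit 106) (.e (nat_lit 319505) (nat_lit 10) (.e (nat_lit 618) (nat_lit 48) (.e (nat_lit 557105) (nat_lit 14) (.e (nat_lit 180252) (nat_lit 10) .nil))))) .nil))) (.nd (nat_lit 6) 
(.lf (nat_lit 54463) (.g (nat_lit 2287) (.e (nat_lit 1394) (nat_lit 106) (.e (nat_lit 319531) (nat_lit 16) (.e (nat_lit 286748) (nat_lit 9) (.e (nat_lit 336389) (nat_lit 27) (.e (nat_lit 426182) (nat_lit 8) .nil))))) .nil)) 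
(.lf (nat_lit 54527) (.g (nat_lit 2411) (.e (nat_lit 1395) (nat_lit 106) (.e (nat_lit 319530) (nat_lit 16) (.e (nat_lit 286733) (nat_lit 2) (.e (nat_lit 90178) (nat_lit 15) (.e (nat_lit 188441) (nat_lit 20) (.e (nat_lit 3124) (nat_lit 193) (.e (nat_lit 499961) (nat_lit 14) .nil))))))) (.g (nat_lit 4) .nil .nil))))))))))

noncomputable def tv755 : DT := (.nd (nat_lit 0) (.nd (nat_lit 1) (.nd (nat_lit 2) (.nd (nat_lit 3) (.nd (nat_lit 4) (.nd (nat_lit 5) (.nd (nat_lit 6) 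
(.lf (nat_lit 54528) (.g (nat_lit 3179) (.e (nat_lit 1395) (nat_lit 106) (.e (nat_lit 319530) (nat_lit 16) (.e (nat_lit 286733) (nat_lit 2) (.e (nat_lit 90178) (nat_lit 15) (.e (nat_lit 188448) (nat_lit 22) (.e (nat_lit 196626) (nat_lit 9) .nil)))))) (.g (nat_lit 0) .nil .nil))) 
(.lf (nat_lit 54592) (.g (nat_lit 2814) (.e (nat_lit 1395) (nat_lit 106) (.e (nat_lit 319530) (nat_lit 16) (.e (nat_lit 286735) (nat_lit 3) (.e (nat_lit 98373) (nat_lit 29) (.e (nat_lit 458496) (nat_lit 1) .nil))))) .nil))) (.nd (nat_lit 6) 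
(.lf (nat_lit 54560) (.g (nat_lit 1450) (.e (nat_lit 1395) (nat_lit 106) (.e (nat_lit 319530) (nat_lit 16) (.e (nat_lit 286735) (nat_lit 3) (.e (nat_lit 98363) (nat_lit 26) .nil)))) .nil)) 
(.lf (nat_lit 54624) (.g (nat_lit 2101) (.e (nat_lit 1395) (nat_lit 106) (.e (nat_lit 319530) (nat_lit 16) (.e (nat_lit 286748) (nat_lit 9) (.e (nat_lit 336389) (nat_lit 27) (.e (nat_lit 426258) (nat_lit 9) .nil))))) .nil)))) (.nd (nat_lit 5) (.nd (nat_lit 6) 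
(.lf (nat_lit 54544) (.g (nat_lit 2531) (.e (nat_lit 1395) (nat_lit 106) (.e (nat_lit 319530) (nat_lit 16) (.e (nat_lit 286735) (nat_lit 3) (.e (nat_lit 98353) (nat_lit 25) (.e (nat_lit 417793) (nat_lit 0) (.e (nat_lit 5395) (nat_lit 301) (.e (nat_lit 57473) (nat_lit 27) (.e (nat_lit 548874) (nat_lit 5) .nil)))))))) (.g (nat_lit 5) .nil .nil))) 
(.lf (nat_lit 54608) (.g (nat_lit 3423) (.e (nat_lit 1395) (nat_lit 106) (.e (nat_lit 319530) (nat_lit 16) (.e (nat_lit 286735) (nat_lit 3) (.e (nat_lit 98381) (nat_lit 31) (.e (nat_lit 466977) (nat_lit 22) (.e (nat_lit 196627) (nat_lit 9) .nil)))))) (.g (nat_lit 5) .nil .nil)))) (.nd (nat_lit 6) 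
(.lf (nat_lit 54576) (.g (nat_lit 2002) (.e (nat_lit 1395) (nat_lit 106) (.e (nat_lit 319530) (nat_lit 16) (.e (nat_lit 286735) (nat_lit 3) (.e (nat_lit 98372) (nat_lit 29) .nil)))) .nil)) 
(.lf (nat_lit 54640) (.g (nat_lit 2653) (.e (nat_lit 1395) (nat_lit 106) (.e (nat_lit 319530) (nat_lit 16) (.e (nat_lit 286761) (nat_lit 13) (.e (nat_lit 393265) (nat_lit 22) (.e (nat_lit 417792) (nat_lit 0) .nil))))) .nil))))) (.nd (nat_lit 4) (.nd (nat_lit 5) (.nd (nat_lit 6) 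
(.lf (nat_lit 54536) (.g (nat_lit 2064) (.e (nat_lit 1395) (nat_lit 106) (.e (nat_lit 319530) (nat_lit 16) (.e (nat_lit 286735) (nat_lit 3) (.e (nat_lit 98320) (nat_lit 17) (.e (nat_lit 7065) (nat_lit 377) .nil))))) .nil)) 
(.lf (nat_lit 54600) (.g (nat_lit 1529) (.e (nat_lit 1395) (nat_lit 106) (.e (nat_lit 319530) (nat_lit 16) (.e (nat_lit 286735) (nat_lit 3) (.e (nat_lit 98380) (nat_lit 31) .nil)))) .nil))) (.nd (nat_lit 6) 
(.lf (nat_lit 54568) (.g (nat_lit 1483) (.e (nat_lit 1395) (nat_lit 106) (.e (nat_lit 319530) (nat_lit 16) (.e (nat_lit 286735) (nat_lit 3) (.e (nat_lit 106240) (nat_lit 26) .nil)))) .nil)) 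
(.lf (nat_lit 54632) (.g (nat_lit 565) (.e (nat_lit 1395) (nat_lit 106) (.e (nat_lit 319530) (nat_lit 16) (.e (nat_lit 286760) (nat_lit 13) .nil))) .nil)))) (.nd (nat_lit 5) (.nd (nat_lit 6) 
(.lf (nat_lit 54552) (.g (nat_lit 2573) (.e (nat_lit 1395) (nat_lit 106) (.e (nat_lit 319530) (nat_lit 16) (.e (nat_lit 286735) (nat_lit 3) (.e (nat_lit 98353) (nat_lit 25) (.e (nat_lit 417811) (nat_lit 6) (.e (nat_lit 286728) (nat_lit 0) (.e (nat_lit 1842) (nat_lit 123) (.e (nat_lit 548873) (nat_lit 5) .nil)))))))) (.g (nat_lit 4) .nil .nil))) 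
(.lf (nat_lit 54616) (.g (nat_lit 1145) (.e (nat_lit 1395) (nat_lit 106) (.e (nat_lit 319530) (nat_lit 16) (.e (nat_lit 286739) (nat_lit 7) (.e (nat_lit 319533) (nat_lit 16) (.e (nat_lit 286753) (nat_lit 10) (.e (nat_lit 344152) (nat_lit 34) (.e (nat_lit 622601) (nat_lit 5) .nil))))))) (.g (nat_lit 4) .nil .nil)))) (.nd (nat_lit 6) 
(.lf (nat_lit 54584) (.g (nat_lit 2637) (.e (nat_lit 1395) (nat_lit 106) (.e (nat_lit 319530) (nat_lit 16) (.e (nat_lit 286735) (nat_lit 3) (.e (nat_lit 98373) (nat_lit 29) (.e (nat_lit 450563) (nat_lit 0) (.e (nat_lit 3847) (nat_lit 233) (.e (nat_lit 1011) (nat_lit 81) .nil))))))) (.g (nat_lit 5) .nil .nil))) 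
(.lf (nat_lit 54648) (.g (nat_lit 1822) (.e (nat_lit 1395) (nat_lit 106) (.e (nat_lit 319530) (nat_lit 16) (.e (nat_lit 286761) (nat_lit 13) (.e (nat_lit 393283) (nat_lit 24) .nil)))) .nil)))))) (.nd (nat_lit 3) (.nd (nat_lit 4) (.nd (nat_lit 5) (.nd (nat_lit 6) 
(.lf (nat_lit 54532) (.g (nat_lit 2820) (.e (nat_lit 1395) (nat_lit 106) (.e (nat_lit 319530) (nat_lit 16) (.e (nat_lit 286733) (nat_lit 2) (.e (nat_lit 90178) (nat_lit 15) (.e (nat_lit 188456) (nat_lit 25) (.e (nat_lit 245781) (nat_lit 9) .nil)))))) (.g (nat_lit 5) .nil .nil))) 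
(.lf (nat_lit 54596) (.g (nat_lit 2018) (.e (nat_lit 1395) (nat_lit 106) (.e (nat_lit 319530) (nat_lit 16) (.e (nat_lit 286735) (nat_lit 3) (.e (nat_lit 98374) (nat_lit 29) (.e (nat_lit 450575) (nat_lit 1) .nil))))) .nil))) (.nd (nat_lit 6) 
(.lf (nat_lit 54564) (.g (nat_lit 2096) (.e (nat_lit 1395) (nat_lit 106) (.e (nat_lit 319530) (nat_lit 16) (.e (nat_lit 286735) (nat_lit 3) (.e (nat_lit 98365) (nat_lit 26) (.e (nat_lit 426296) (nat_lit 11) .nil))))) .nil)) 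
(.lf (nat_lit 54628) (.g (nat_lit 3924) (.e (nat_lit 1395) (nat_lit 106) (.e (nat_lit 319530) (nat_lit 16) (.e (nat_lit 286748) (nat_lit 9) (.e (nat_lit 336389) (nat_lit 27) (.e (nat_lit 426308) (nat_lit 12) (.e (nat_lit 475221) (nat_lit 45) (.e (nat_lit 745476) (nat_lit 0) .nil))))))) (.g (nat_lit 7) .nil .nil))))) (.nd (nat_lit 5) (.nd (nat_lit 6) 
(.lf (nat_lit 54548) (.g (nat_lit 5133) (.e (nat_lit 1395) (nat_lit 106) (.e (nat_lit 319530) (nat_lit 16) (.e (nat_lit 286735) (nat_lit 3) (.e (nat_lit 98353) (nat_lit 25) (.e (nat_lit 417809) (nat_lit 6) (.e (nat_lit 286728) (nat_lit 0) (.e (nat_lit 1842) (nat_lit 123) (.e (nat_lit 548874) (nat_lit 5) .nil)))))))) (.g (nat_lit 0) .nil .nil))) 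
(.lf (nat_lit 54612) (.g (nat_lit 2765) (.e (nat_lit 1395) (nat_lit 106) (.e (nat_lit 319530) (nat_lit 16) (.e (nat_lit 286735) (nat_lit 3) (.e (nat_lit 98382) (nat_lit 31) (.e (nat_lit 466977) (nat_lit 22) (.e (nat_lit 196627) (nat_lit 9) .nil)))))) (.g (nat_lit 6) .nil .nil)))) (.nd (nat_lit 6) 
(.lf (nat_lit 54580) (.g (nat_lit 2817) (.e (nat_lit 1395) (nat_lit 106) (.e (nat_lit 319530) (nat_lit 16) (.e (nat_lit 286735) (nat_lit 3) (.e (nat_lit 98373) (nat_lit 29) (.e (nat_lit 450562) (nat_lit 0) (.e (nat_lit 3847) (nat_lit 233) (.e (nat_lit 1011) (nat_lit 81) .nil))))))) (.g (nat_lit 5) .nil .nil))) 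
(.lf (nat_lit 54644) (.g (nat_lit 1921) (.e (nat_lit 1395) (nat_lit 106) (.e (nat_lit 319530) (nat_lit 16) (.e (nat_lit 286761) (nat_lit 13) (.e (nat_lit 393275) (nat_lit 23) .nil)))) .nil))))) (.nd (nat_lit 4) (.nd (nat_lit 5) (.nd (nat_lit 6) 
(.lf (nat_lit 54540) (.g (nat_lit 2621) (.e (nat_lit 1395) (nat_lit 106) (.e (nat_lit 319530) (nat_lit 16) (.e (nat_lit 286735) (nat_lit 3) (.e (nat_lit 98350) (nat_lit 24) (.e (nat_lit 409604) (nat_lit 0) .nil))))) .nil)) 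
(.lf (nat_lit 54604) (.g (nat_lit 2547) (.e (nat_lit 1395) (nat_lit 106) (.e (nat_lit 319530) (nat_lit 16) (.e (nat_lit 286735) (nat_lit 3) (.e (nat_lit 98381) (nat_lit 31) (.e (nat_lit 466976) (nat_lit 22) .nil))))) .nil))) (.nd (nat_lit 6) 
(.lf (nat_lit 54572) (.g (nat_lit 4230) (.e (nat_lit 1395) (nat_lit 106) (.e (nat_lit 319530) (nat_lit 16) (.e (nat_lit 286735) (nat_lit 3) (.e (nat_lit 98370) (nat_lit 28) (.e (nat_lit 442424) (nat_lit 22) (.e (nat_lit 196630) (nat_lit 9) .nil)))))) (.g (nat_lit 6) .nil .nil))) 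
(.lf (nat_lit 54636) (.g (nat_lit 2185) (.e (nat_lit 1395) (nat_lit 106) (.e (nat_lit 319530) (nat_lit 16) (.e (nat_lit 286761) (nat_lit 13) (.e (nat_lit 393234) (nat_lit 17) (.e (nat_lit 7065) (nat_lit 377) (.e (nat_lit 1015) (nat_lit 81) (.e (nat_lit 706) (nat_lit 62) (.e (nat_lit 671748) (nat_lit 0) .nil)))))))) (.g (nat_lit 4) .nil .nil))))) (.nd (nat_lit 5) (.nd (nat_lit 6) 
(.lf (nat_lit 54556) (.g (nat_lit 3302) (.e (nat_lit 1395) (nat_lit 106) (.e (nat_lit 319530) (nat_lit 16) (.e (nat_lit 286735) (nat_lit 3) (.e (nat_lit 98359) (nat_lit 26) (.e (nat_lit 426177) (nat_lit 8) .nil))))) .nil)) 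
(.lf (nat_lit 54620) (.g (nat_lit 422) (.e (nat_lit 1395) (nat_lit 106) (.e (nat_lit 319530) (nat_lit 16) (.e (nat_lit 286748) (nat_lit 9) .nil))) .nil))) (.nd (nat_lit 6) 
(.lf (nat_lit 54588) (.g (nat_lit 2574) (.e (nat_lit 1395) (nat_lit 106) (.e (nat_lit 319530) (nat_lit 16) (.e (nat_lit 286735) (nat_lit 3) (.e (nat_lit 98373) (nat_lit 29) (.e (nat_lit 450570) (nat_lit 1) .nil))))) .nil)) 
(.lf (nat_lit 54652) (.g (nat_lit 1239) (.e (nat_lit 1395) (nat_lit 106) (.e (nat_lit 319530) (nat_lit 16) (.e (nat_lit 286761) (nat_lit 13) (.e (nat_lit 393284) (nat_lit 24) .nil)))) .nil))))))) (.nd (nat_lit 2) (.nd (nat_lit 3) (.nd (nat_lit 4) (.nd (nat_lit 5) (.nd (nat_lit 6) 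
(.lf (nat_lit 54530) (.g (nat_lit 4338) (.e (nat_lit 1395) (nat_lit 106) (.e (nat_lit 319530) (nat_lit 16) (.e (nat_lit 286733) (nat_lit 2) (.e (nat_lit 90178) (nat_lit 15) (.e (nat_lit 188449) (nat_lit 22) (.e (nat_lit 196630) (nat_lit 9) .nil)))))) (.g (nat_lit 6) .nil .nil))) 
(.lf (nat_lit 54594) (.g (nat_lit 1477) (.e (nat_lit 1395) (nat_lit 106) (.e (nat_lit 319530) (nat_lit 16) (.e (nat_lit 286735) (nat_lit 3) (.e (nat_lit 98374) (nat_lit 29) .nil)))) .nil))) (.nd (nat_lit 6) 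
(.lf (nat_lit 54562) (.g (nat_lit 1397) (.e (nat_lit 1395) (nat_lit 106) (.e (nat_lit 319530) (nat_lit 16) (.e (nat_lit 286735) (nat_lit 3) (.e (nat_lit 98365) (nat_lit 26) .nil)))) .nil)) 
(.lf (nat_lit 54626) (.g (nat_lit 1671) (.e (nat_lit 1395) (nat_lit 106) (.e (nat_lit 319530) (nat_lit 16) (.e (nat_lit 286748) (nat_lit 9) (.e (nat_lit 336389) (nat_lit 27) (.e (nat_lit 426300) (nat_lit 11) .nil))))) .nil)))) (.nd (nat_lit 5) (.nd (nat_lit 6) 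
(.lf (nat_lit 54546) (.g (nat_lit 2387) (.e (nat_lit 1395) (nat_lit 106) (.e (nat_lit 319530) (nat_lit 16) (.e (nat_lit 286735) (nat_lit 3) (.e (nat_lit 98353) (nat_lit 25) (.e (nat_lit 417809) (nat_lit 6) .nil))))) .nil)) 
(.lf (nat_lit 54610) (.g (nat_lit 2617) (.e (nat_lit 1395) (nat_lit 106) (.e (nat_lit 319530) (nat_lit 16) (.e (nat_lit 286735) (nat_lit 3) (.e (nat_lit 98382) (nat_lit 31) (.e (nat_lit 466974) (nat_lit 22) (.e (nat_lit 196627) (nat_lit 9) .nil)))))) (.g (nat_lit 5) .nil .nil)))) (.nd (nat_lit 6) 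
(.lf (nat_lit 54578) (.g (nat_lit 4046) (.e (nat_lit 1395) (nat_lit 106) (.e (nat_lit 319530) (nat_lit 16) (.e (nat_lit 286735) (nat_lit 3) (.e (nat_lit 98372) (nat_lit 29) (.e (nat_lit 450571) (nat_lit 1) (.e (nat_lit 507648) (nat_lit 14) .nil)))))) (.g (nat_lit 5) .nil .nil))) 
(.lf (nat_lit 54642) (.g (nat_lit 2492) (.e (nat_lit 1395) (nat_lit 106) (.e (nat_lit 319530) (nat_lit 16) (.e (nat_lit 286761) (nat_lit 13) (.e (nat_lit 393270) (nat_lit 23) (.e (nat_lit 425998) (nat_lit 0) (.e (nat_lit 3439) (nat_lit 214) (.e (nat_lit 671748) (nat_lit 0) .nil))))))) (.g (nat_lit 4) .nil .nil)))))) (.nd (nat_lit 4) (.nd (nat_lit 5) (.nd (nat_lit 6) 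
(.lf (nat_lit 54538) (.g (nat_lit 1187) (.e (nat_lit 1395) (nat_lit 106) (.e (nat_lit 319530) (nat_lit 16) (.e (nat_lit 286735) (nat_lit 3) (.e (nat_lit 98325) (nat_lit 17) .nil)))) .nil)) 
(.lf (nat_lit 54602) (.g (nat_lit 1576) (.e (nat_lit 1395) (nat_lit 106) (.e (nat_lit 319530) (nat_lit 16) (.e (nat_lit 286735) (nat_lit 3) (.e (nat_lit 98381) (nat_lit 31) .nil)))) .nil))) (.nd (nat_lit 6) 
(.lf (nat_lit 54570) (.g (nat_lit 2686) (.e (nat_lit 1395) (nat_lit 106) (.e (nat_lit 319530) (nat_lit 16) (.e (nat_lit 286735) (nat_lit 3) (.e (nat_lit 98369) (nat_lit 28) (.e (nat_lit 442422) (nat_lit 22) (.e (nat_lit 196630) (nat_lit 9) .nil)))))) (.g (nat_lit 4) .nil .nil))) 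
(.lf (nat_lit 54634) (.g (nat_lit 1082) (.e (nat_lit 1395) (nat_lit 106) (.e (nat_lit 319530) (nat_lit 16) (.e (nat_lit 286761) (nat_lit 13) (.e (nat_lit 393234) (nat_lit 17) .nil)))) .nil)))) (.nd (nat_lit 5) (.nd (nat_lit 6) 
(.lf (nat_lit 54554) (.g (nat_lit 1540) (.e (nat_lit 1395) (nat_lit 106) (.e (nat_lit 319530) (nat_lit 16) (.e (nat_lit 286735) (nat_lit 3) (.e (nat_lit 98356) (nat_lit 26) .nil)))) .nil)) 
(.lf (nat_lit 54618) (.g (nat_lit 1056) (.e (nat_lit 1395) (nat_lit 106) (.e (nat_lit 319530) (nat_lit 16) (.e (nat_lit 286743) (nat_lit 9) (.e (nat_lit 336432) (nat_lit 30) .nil)))) .nil))) (.nd (nat_lit 6) 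
(.lf (nat_lit 54586) (.g (nat_lit 4052) (.e (nat_lit 1395) (nat_lit 106) (.e (nat_lit 319530) (nat_lit 16) (.e (nat_lit 286735) (nat_lit 3) (.e (nat_lit 98373) (nat_lit 29) (.e (nat_lit 450563) (nat_lit 0) (.e (nat_lit 3868) (nat_lit 233) (.e (nat_lit 1009) (nat_lit 81) .nil))))))) (.g (nat_lit 7) .nil .nil))) 
(.lf (nat_lit 54650) (.g (nat_lit 2543) (.e (nat_lit 1395) (nat_lit 106) (.e (nat_lit 319530) (nat_lit 16) (.e (nat_lit 286761) (nat_lit 13) (.e (nat_lit 393283) (nat_lit 24) (.e (nat_lit 434276) (nat_lit 39) .nil))))) .nil)))))) (.nd (nat_lit 3) (.nd (nat_lit 4) (.nd (nat_lit 5) (.nd (nat_lit 6) 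
(.lf (nat_lit 54534) (.g (nat_lit 1248) (.e (nat_lit 1395) (nat_lit 106) (.e (nat_lit 319530) (nat_lit 16) (.e (nat_lit 286733) (nat_lit 2) (.e (nat_lit 98048) (nat_lit 15) .nil)))) .nil)) 
(.lf (nat_lit 54598) (.g (nat_lit 2287) (.e (nat_lit 1395) (nat_lit 106) (.e (nat_lit 319530) (nat_lit 16) (.e (nat_lit 286735) (nat_lit 3) (.e (nat_lit 98374) (nat_lit 29) (.e (nat_lit 458496) (nat_lit 1) .nil))))) .nil))) (.nd (nat_lit 6) 
(.lf (nat_lit 54566) (.g (nat_lit 2266) (.e (nat_lit 1395) (nat_lit 106) (.e (nat_lit 319530) (nat_lit 16) (.e (nat_lit 286735) (nat_lit 3) (.e (nat_lit 98365) (nat_lit 26) (.e (nat_lit 426298) (nat_lit 11) (.e (nat_lit 458781) (nat_lit 19) (.e (nat_lit 499952) (nat_lit 14) .nil))))))) (.g (nat_lit 4) .nil .nil))) 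
(.lf (nat_lit 54630) (.g (nat_lit 2682) (.e (nat_lit 1395) (nat_lit 106) (.e (nat_lit 319530) (nat_lit 16) (.e (nat_lit 286759) (nat_lit 12) (.e (nat_lit 385088) (nat_lit 47) (.e (nat_lit 761909) (nat_lit 17) (.e (nat_lit 188160) (nat_lit 32) .nil)))))) (.g (nat_lit 4) .nil .nil))))) (.nd (nat_lit 5) (.nd (nat_lit 6) 
(.lf (nat_lit 54550) (.g (nat_lit 2408) (.e (nat_lit 1395) (nat_lit 106) (.e (nat_lit 319530) (nat_lit 16) (.e (nat_lit 286735) (nat_lit 3) (.e (nat_lit 98353) (nat_lit 25) (.e (nat_lit 417811) (nat_lit 6) .nil))))) .nil)) 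
(.lf (nat_lit 54614) (.g (nat_lit 1222) (.e (nat_lit 1395) (nat_lit 106) (.e (nat_lit 319530) (nat_lit 16) (.e (nat_lit 286739) (nat_lit 7) (.e (nat_lit 319533) (nat_lit 16) (.e (nat_lit 286753) (nat_lit 10) (.e (nat_lit 344150) (nat_lit 34) (.e (nat_lit 622602) (nat_lit 5) .nil))))))) (.g (nat_lit 4) .nil .nil)))) (.nd (nat_lit 6) 
(.lf (nat_lit 54582) (.g (nat_lit 4336) (.e (nat_lit 1395) (nat_lit 106) (.e (nat_lit 319530) (nat_lit 16) (.e (nat_lit 286735) (nat_lit 3) (.e (nat_lit 98373) (nat_lit 29) (.e (nat_lit 450562) (nat_lit 0) (.e (nat_lit 3868) (nat_lit 233) (.e (nat_lit 1009) (nat_lit 81) .nil))))))) (.g (nat_lit 7) .nil .nil))) 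
(.lf (nat_lit 54646) (.g (nat_lit 1642) (.e (nat_lit 1395) (nat_lit 106) (.e (nat_lit 319530) (nat_lit 16) (.e (nat_lit 286761) (nat_lit 13) (.e (nat_lit 393282) (nat_lit 24) .nil)))) .nil))))) (.nd (nat_lit 4) (.nd (nat_lit 5) (.nd (nat_lit 6) 
(.lf (nat_lit 54542) (.g (nat_lit 1979) (.e (nat_lit 1395) (nat_lit 106) (.e (nat_lit 319530) (nat_lit 16) (.e (nat_lit 286735) (nat_lit 3) (.e (nat_lit 98350) (nat_lit 24) (.e (nat_lit 417536) (nat_lit 6) (.e (nat_lit 286728) (nat_lit 0) (.e (nat_lit 1842) (nat_lit 123) (.e (nat_lit 548874) (nat_lit 5) .nil)))))))) (.g (nat_lit 4) .nil .nil))) 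
(.lf (nat_lit 54606) (.g (nat_lit 2373) (.e (nat_lit 1395) (nat_lit 106) (.e (nat_lit 319530) (nat_lit 16) (.e (nat_lit 286735) (nat_lit 3) (.e (nat_lit 98381) (nat_lit 31) (.e (nat_lit 466977) (nat_lit 22) (.e (nat_lit 196617) (nat_lit 9) .nil)))))) (.g (nat_lit 4) .nil .nil)))) (.nd (nat_lit 6) 
(.lf (nat_lit 54574) (.g (nat_lit 1544) (.e (nat_lit 1395) (nat_lit 106) (.e (nat_lit 319530) (nat_lit 16) (.e (nat_lit 286735) (nat_lit 3) (.e (nat_lit 98371) (nat_lit 28) .nil)))) .nil)) 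
(.lf (nat_lit 54638) (.g (nat_lit 1629) (.e (nat_lit 1395) (nat_lit 106) (.e (nat_lit 319530) (nat_lit 16) (.e (nat_lit 286761) (nat_lit 13) (.e (nat_lit 393264) (nat_lit 22) (.e (nat_lit 417794) (nat_lit 0) .nil))))) .nil)))) (.nd (nat_lit 5) (.nd (nat_lit 6) 
(.lf (nat_lit 54558) (.g (nat_lit 2214) (.e (nat_lit 1395) (nat_lit 106) (.e (nat_lit 319530) (nat_lit 16) (.e (nat_lit 286735) (nat_lit 3) (.e (nat_lit 98359) (nat_lit 26) (.e (nat_lit 426282) (nat_lit 10) .nil))))) .nil)) 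
(.lf (nat_lit 54622) (.g (nat_lit 2586) (.e (nat_lit 1395) (nat_lit 106) (.e (nat_lit 319530) (nat_lit 16) (.e (nat_lit 286748) (nat_lit 9) (.e (nat_lit 336295) (nat_lit 15) (.e (nat_lit 3597) (nat_lit 225) (.e (nat_lit 761910) (nat_lit 17) (.e (nat_lit 188160) (nat_lit 32) .nil))))))) (.g (nat_lit 6) .nil .nil)))) (.nd (nat_lit 6) 
(.lf (nat_lit 54590) (.g (nat_lit 2975) (.e (nat_lit 1395) (nat_lit 106) (.e (nat_lit 319530) (nat_lit 16) (.e (nat_lit 286735) (nat_lit 3) (.e (nat_lit 98373) (nat_lit 29) (.e (nat_lit 450572) (nat_lit 1) .nil))))) .nil)) 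
(.lf (nat_lit 54654) (.g (nat_lit 2260) (.e (nat_lit 1395) (nat_lit 106) (.e (nat_lit 319530) (nat_lit 16) (.e (nat_lit 286761) (nat_lit 13) (.e (nat_lit 393284) (nat_lit 24) (.e (nat_lit 434276) (nat_lit 39) (.e (nat_lit 663554) (nat_lit 0) .nil)))))) (.g (nat_lit 5) .nil .nil))))))))) (.nd (nat_lit 1) (.nd (nat_lit 2) (.nd (nat_lit 3) (.nd (nat_lit 4) (.nd (nat_lit 5) (.nd (nat_lit 6) 
(.lf (nat_lit 54529) (.g (nat_lit 2569) (.e (nat_lit 1395) (nat_lit 106) (.e (nat_lit 319530) (nat_lit 16) (.e (nat_lit 286733) (nat_lit 2) (.e (nat_lit 90178) (nat_lit 15) (.e (nat_lit 188448) (nat_lit 22) (.e (nat_lit 196627) (nat_lit 9) .nil)))))) (.g (nat_lit 4) .nil .nil))) 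
(.lf (nat_lit 54593) (.g (nat_lit 2945) (.e (nat_lit 1395) (nat_lit 106) (.e (nat_lit 319530) (nat_lit 16) (.e (nat_lit 286735) (nat_lit 3) (.e (nat_lit 98373) (nat_lit 29) (.e (nat_lit 458496) (nat_lit 1) (.e (nat_lit 499969) (nat_lit 14) .nil)))))) (.g (nat_lit 4) .nil .nil)))) (.nd (nat_lit 6) 
(.lf (nat_lit 54561) (.g (nat_lit 2238) (.e (nat_lit 1395) (nat_lit 106) (.e (nat_lit 319530) (nat_lit 16) (.e (nat_lit 286735) (nat_lit 3) (.e (nat_lit 98363) (nat_lit 26) (.e (nat_lit 425989) (nat_lit 0) (.e (nat_lit 7064) (nat_lit 377) (.e (nat_lit 1139) (nat_lit 84) (.e (nat_lit 32774) (nat_lit 5) .nil)))))))) (.g (nat_lit 4) .nil .nil))) 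
(.lf (nat_lit 54625) (.g (nat_lit 2227) (.e (nat_lit 1395) (nat_lit 106) (.e (nat_lit 319530) (nat_lit 16) (.e (nat_lit 286748) (nat_lit 9) (.e (nat_lit 336389) (nat_lit 27) (.e (nat_lit 426258) (nat_lit 9) (.e (nat_lit 425984) (nat_lit 0) (.e (nat_lit 7936) (nat_lit 214) (.e (nat_lit 671748) (nat_lit 0) .nil)))))))) (.g (nat_lit 4) .nil .nil))))) (.nd (nat_lit 5) (.nd (nat_lit 6) 
(.lf (nat_lit 54545) (.g (nat_lit 2356) (.e (nat_lit 1395) (nat_lit 106) (.e (nat_lit 319530) (nat_lit 16) (.e (nat_lit 286735) (nat_lit 3) (.e (nat_lit 98353) (nat_lit 25) (.e (nat_lit 417795) (nat_lit 0) .nil))))) .nil)) 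
(.lf (nat_lit 54609) (.g (nat_lit 1436) (.e (nat_lit 1395) (nat_lit 106) (.e (nat_lit 319530) (nat_lit 16) (.e (nat_lit 286735) (nat_lit 3) (.e (nat_lit 98382) (nat_lit 31) .nil)))) .nil))) (.nd (nat_lit 6) 
(.lf (nat_lit 54577) (.g (nat_lit 3570) (.e (nat_lit 1395) (nat_lit 106) (.e (nat_lit 319530) (nat_lit 16) (.e (nat_lit 286735) (nat_lit 3) (.e (nat_lit 98372) (nat_lit 29) (.e (nat_lit 450571) (nat_lit 1) .nil))))) .nil)) 
(.lf (nat_lit 54641) (.g (nat_lit 1592) (.e (nat_lit 1395) (nat_lit 106) (.e (nat_lit 319530) (nat_lit 16) (.e (nat_lit 286761) (nat_lit 13) (.e (nat_lit 393270) (nat_lit 23) .nil)))) .nil))))) (.nd (nat_lit 4) (.nd (nat_lit 5) (.nd (nat_lit 6) 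
(.lf (nat_lit 54537) (.g (nat_lit 1663) (.e (nat_lit 1395) (nat_lit 106) (.e (nat_lit 319530) (nat_lit 16) (.e (nat_lit 286735) (nat_lit 3) (.e (nat_lit 98323) (nat_lit 17) .nil)))) .nil)) 
(.lf (nat_lit 54601) (.g (nat_lit 2392) (.e (nat_lit 1395) (nat_lit 106) (.e (nat_lit 319530) (nat_lit 16) (.e (nat_lit 286735) (nat_lit 3) (.e (nat_lit 98380) (nat_lit 31) (.e (nat_lit 466947) (nat_lit 0) .nil))))) .nil))) (.nd (nat_lit 6) 
(.lf (nat_lit 54569) (.g (nat_lit 2511) (.e (nat_lit 1395) (nat_lit 106) (.e (nat_lit 319530) (nat_lit 16) (.e (nat_lit 286735) (nat_lit 3) (.e (nat_lit 98367) (nat_lit 27) (.e (nat_lit 442112) (nat_lit 3) .nil))))) .nil)) 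
(.lf (nat_lit 54633) (.g (nat_lit 424) (.e (nat_lit 1395) (nat_lit 106) (.e (nat_lit 319530) (nat_lit 16) (.e (nat_lit 286761) (nat_lit 13) .nil))) .nil)))) (.nd (nat_lit 5) (.nd (nat_lit 6) 
(.lf (nat_lit 54553) (.g (nat_lit 2243) (.e (nat_lit 1395) (nat_lit 106) (.e (nat_lit 319530) (nat_lit 16) (.e (nat_lit 286735) (nat_lit 3) (.e (nat_lit 98353) (nat_lit 25) (.e (nat_lit 417813) (nat_lit 9) .nil))))) .nil)) 
(.lf (nat_lit 54617) (.g (nat_lit 422) (.e (nat_lit 1395) (nat_lit 106) (.e (nat_lit 319530) (nat_lit 16) (.e (nat_lit 286743) (nat_lit 9) .nil))) .nil))) (.nd (nat_lit 6) 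
(.lf (nat_lit 54585) (.g (nat_lit 2900) (.e (nat_lit 1395) (nat_lit 106) (.e (nat_lit 319530) (nat_lit 16) (.e (nat_lit 286735) (nat_lit 3) (.e (nat_lit 98373) (nat_lit 29) (.e (nat_lit 450563) (nat_lit 0) (.e (nat_lit 3858) (nat_lit 233) (.e (nat_lit 1008) (nat_lit 81) .nil))))))) (.g (nat_lit 5) .nil .nil))) 
(.lf (nat_lit 54649) (.g (nat_lit 2567) (.e (nat_lit 1395) (nat_lit 106) (.e (nat_lit 319530) (nat_lit 16) (.e (nat_lit 286761) (nat_lit 13) (.e (nat_lit 393283) (nat_lit 24) (.e (nat_lit 434275) (nat_lit 39) (.e (nat_lit 663554) (nat_lit 0) .nil)))))) (.g (nat_lit 4) .nil .nil))))))) (.nd (nat_lit 3) (.nd (nat_lit 4) (.nd (nat_lit 5) (.nd (nat_lit 6) 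
(.lf (nat_lit 54533) (.g (nat_lit 2482) (.e (nat_lit 1395) (nat_lit 106) (.e (nat_lit 319530) (nat_lit 16) (.e (nat_lit 286733) (nat_lit 2) (.e (nat_lit 90178) (nat_lit 15) (.e (nat_lit 188458) (nat_lit 25) .nil))))) .nil)) 
(.lf (nat_lit 54597) (.g (nat_lit 2355) (.e (nat_lit 1395) (nat_lit 106) (.e (nat_lit 319530) (nat_lit 16) (.e (nat_lit 286735) (nat_lit 3) (.e (nat_lit 98374) (nat_lit 29) (.e (nat_lit 450575) (nat_lit 1) (.e (nat_lit 499952) (nat_lit 14) .nil)))))) (.g (nat_lit 6) .nil .nil)))) (.nd (nat_lit 6) 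
(.lf (nat_lit 54565) (.g (nat_lit 2173) (.e (nat_lit 1395) (nat_lit 106) (.e (nat_lit 319530) (nat_lit 16) (.e (nat_lit 286735) (nat_lit 3) (.e (nat_lit 98365) (nat_lit 26) (.e (nat_lit 426298) (nat_lit 11) .nil))))) .nil)) 
(.lf (nat_lit 54629) (.g (nat_lit 2802) (.e (nat_lit 1395) (nat_lit 106) (.e (nat_lit 319530) (nat_lit 16) (.e (nat_lit 286759) (nat_lit 12) (.e (nat_lit 385088) (nat_lit 47) (.e (nat_lit 761908) (nat_lit 17) (.e (nat_lit 188160) (nat_lit 32) .nil)))))) (.g (nat_lit 5) .nil .nil))))) (.nd (nat_lit 5) (.nd (nat_lit 6) 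
(.lf (nat_lit 54549) (.g (nat_lit 2418) (.e (nat_lit 1395) (nat_lit 106) (.e (nat_lit 319530) (nat_lit 16) (.e (nat_lit 286735) (nat_lit 3) (.e (nat_lit 98353) (nat_lit 25) (.e (nat_lit 417810) (nat_lit 6) .nil))))) .nil)) 
(.lf (nat_lit 54613) (.g (nat_lit 1080) (.e (nat_lit 1395) (nat_lit 106) (.e (nat_lit 319530) (nat_lit 16) (.e (nat_lit 286739) (nat_lit 7) (.e (nat_lit 319533) (nat_lit 16) (.e (nat_lit 286753) (nat_lit 10) .nil))))) .nil))) (.nd (nat_lit 6) 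
(.lf (nat_lit 54581) (.g (nat_lit 2890) (.e (nat_lit 1395) (nat_lit 106) (.e (nat_lit 319530) (nat_lit 16) (.e (nat_lit 286735) (nat_lit 3) (.e (nat_lit 98373) (nat_lit 29) (.e (nat_lit 450562) (nat_lit 0) (.e (nat_lit 3858) (nat_lit 233) (.e (nat_lit 1008) (nat_lit 81) .nil))))))) (.g (nat_lit 5) .nil .nil))) 
(.lf (nat_lit 54645) (.g (nat_lit 2011) (.e (nat_lit 1395) (nat_lit 106) (.e (nat_lit 319530) (nat_lit 16) (.e (nat_lit 286761) (nat_lit 13) (.e (nat_lit 393279) (nat_lit 23) .nil)))) .nil))))) (.nd (nat_lit 4) (.nd (nat_lit 5) (.nd (nat_lit 6) 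
(.lf (nat_lit 54541) (.g (nat_lit 1967) (.e (nat_lit 1395) (nat_lit 106) (.e (nat_lit 319530) (nat_lit 16) (.e (nat_lit 286735) (nat_lit 3) (.e (nat_lit 98350) (nat_lit 24) (.e (nat_lit 417536) (nat_lit 6) .nil))))) .nil)) 
(.lf (nat_lit 54605) (.g (nat_lit 2622) (.e (nat_lit 1395) (nat_lit 106) (.e (nat_lit 319530) (nat_lit 16) (.e (nat_lit 286735) (nat_lit 3) (.e (nat_lit 98381) (nat_lit 31) (.e (nat_lit 466976) (nat_lit 22) (.e (nat_lit 196630) (nat_lit 9) .nil)))))) (.g (nat_lit 4) .nil .nil)))) (.nd (nat_lit 6) 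
(.lf (nat_lit 54573) (.g (nat_lit 2954) (.e (nat_lit 1395) (nat_lit 106) (.e (nat_lit 319530) (nat_lit 16) (.e (nat_lit 286735) (nat_lit 3) (.e (nat_lit 98370) (nat_lit 28) (.e (nat_lit 442424) (nat_lit 22) (.e (nat_lit 204544) (nat_lit 9) .nil)))))) (.g (nat_lit 5) .nil .nil))) 
(.lf (nat_lit 54637) (.g (nat_lit 1304) (.e (nat_lit 1395) (nat_lit 106) (.e (nat_lit 319530) (nat_lit 16) (.e (nat_lit 286761) (nat_lit 13) (.e (nat_lit 393264) (nat_lit 22) .nil)))) .nil)))) (.nd (nat_lit 5) (.nd (nat_lit 6) 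
(.lf (nat_lit 54557) (.g (nat_lit 2483) (.e (nat_lit 1395) (nat_lit 106) (.e (nat_lit 319530) (nat_lit 16) (.e (nat_lit 286735) (nat_lit 3) (.e (nat_lit 98359) (nat_lit 26) (.e (nat_lit 426211) (nat_lit 9) (.e (nat_lit 426125) (nat_lit 2) (.e (nat_lit 204544) (nat_lit 9) .nil))))))) (.g (nat_lit 4) .nil .nil))) 
(.lf (nat_lit 54621) (.g (nat_lit 1976) (.e (nat_lit 1395) (nat_lit 106) (.e (nat_lit 319530) (nat_lit 16) (.e (nat_lit 286748) (nat_lit 9) (.e (nat_lit 336295) (nat_lit 15) (.e (nat_lit 3597) (nat_lit 225) .nil))))) .nil))) (.nd (nat_lit 6) 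
(.lf (nat_lit 54589) (.g (nat_lit 2666) (.e (nat_lit 1395) (nat_lit 106) (.e (nat_lit 319530) (nat_lit 16) (.e (nat_lit 286735) (nat_lit 3) (.e (nat_lit 98373) (nat_lit 29) (.e (nat_lit 450571) (nat_lit 1) .nil))))) .nil)) 
(.lf (nat_lit 54653) (.g (nat_lit 1868) (.e (nat_lit 1395) (nat_lit 106) (.e (nat_lit 319530) (nat_lit 16) (.e (nat_lit 286761) (nat_lit 13) (.e (nat_lit 393284) (nat_lit 24) (.e (nat_lit 434274) (nat_lit 39) .nil))))) .nil))))))) (.nd (nat_lit 2) (.nd (nat_lit 3) (.nd (nat_lit 4) (.nd (nat_lit 5) (.nd (nat_lit 6) 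
(.lf (nat_lit 54531) (.g (nat_lit 2581) (.e (nat_lit 1395) (nat_lit 106) (.e (nat_lit 319530) (nat_lit 16) (.e (nat_lit 286733) (nat_lit 2) (.e (nat_lit 90178) (nat_lit 15) (.e (nat_lit 188449) (nat_lit 22) (.e (nat_lit 204544) (nat_lit 9) .nil)))))) (.g (nat_lit 4) .nil .nil))) 
(.lf (nat_lit 54595) (.g (nat_lit 2426) (.e (nat_lit 1395) (nat_lit 106) (.e (nat_lit 319530) (nat_lit 16) (.e (nat_lit 286735) (nat_lit 3) (.e (nat_lit 98374) (nat_lit 29) (.e (nat_lit 450571) (nat_lit 1) (.e (nat_lit 507648) (nat_lit 14) .nil)))))) (.g (nat_lit 4) .nil .nil)))) (.nd (nat_lit 6) 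
(.lf (nat_lit 54563) (.g (nat_lit 2262) (.e (nat_lit 1395) (nat_lit 106) (.e (nat_lit 319530) (nat_lit 16) (.e (nat_lit 286735) (nat_lit 3) (.e (nat_lit 98365) (nat_lit 26) (.e (nat_lit 426182) (nat_lit 8) .nil))))) .nil)) 
(.lf (nat_lit 54627) (.g (nat_lit 1439) (.e (nat_lit 1395) (nat_lit 106) (.e (nat_lit 319530) (nat_lit 16) (.e (nat_lit 286748) (nat_lit 9) (.e (nat_lit 336389) (nat_lit 27) (.e (nat_lit 426308) (nat_lit 12) .nil))))) .nil)))) (.nd (nat_lit 5) (.nd (nat_lit 6) 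
(.lf (nat_lit 54547) (.g (nat_lit 4875) (.e (nat_lit 1395) (nat_lit 106) (.e (nat_lit 319530) (nat_lit 16) (.e (nat_lit 286735) (nat_lit 3) (.e (nat_lit 98353) (nat_lit 25) (.e (nat_lit 417809) (nat_lit 6) (.e (nat_lit 286728) (nat_lit 0) (.e (nat_lit 1841) (nat_lit 123) (.e (nat_lit 548874) (nat_lit 5) .nil)))))))) (.g (nat_lit 0) .nil .nil))) 
(.lf (nat_lit 54611) (.g (nat_lit 2487) (.e (nat_lit 1395) (nat_lit 106) (.e (nat_lit 319530) (nat_lit 16) (.e (nat_lit 286735) (nat_lit 3) (.e (nat_lit 98382) (nat_lit 31) (.e (nat_lit 466977) (nat_lit 22) (.e (nat_lit 196626) (nat_lit 9) .nil)))))) (.g (nat_lit 5) .nil .nil)))) (.nd (nat_lit 6) 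
(.lf (nat_lit 54579) (.g (nat_lit 3081) (.e (nat_lit 1395) (nat_lit 106) (.e (nat_lit 319530) (nat_lit 16) (.e (nat_lit 286735) (nat_lit 3) (.e (nat_lit 98372) (nat_lit 29) (.e (nat_lit 458496) (nat_lit 1) .nil))))) .nil)) 
(.lf (nat_lit 54643) (.g (nat_lit 3075) (.e (nat_lit 1395) (nat_lit 106) (.e (nat_lit 319530) (nat_lit 16) (.e (nat_lit 286761) (nat_lit 13) (.e (nat_lit 393273) (nat_lit 23) (.e (nat_lit 426364) (nat_lit 15) (.e (nat_lit 2242) (nat_lit 147) (.e (nat_lit 745476) (nat_lit 0) .nil))))))) (.g (nat_lit 4) .nil .nil)))))) (.nd (nat_lit 4) (.nd (nat_lit 5) (.nd (nat_lit 6) 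
(.lf (nat_lit 54539) (.g (nat_lit 1980) (.e (nat_lit 1395) (nat_lit 106) (.e (nat_lit 319530) (nat_lit 16) (.e (nat_lit 286735) (nat_lit 3) (.e (nat_lit 98350) (nat_lit 24) (.e (nat_lit 409602) (nat_lit 0) .nil))))) .nil)) 
(.lf (nat_lit 54603) (.g (nat_lit 2408) (.e (nat_lit 1395) (nat_lit 106) (.e (nat_lit 319530) (nat_lit 16) (.e (nat_lit 286735) (nat_lit 3) (.e (nat_lit 98381) (nat_lit 31) (.e (nat_lit 466947) (nat_lit 0) .nil))))) .nil))) (.nd (nat_lit 6) 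
(.lf (nat_lit 54571) (.g (nat_lit 2474) (.e (nat_lit 1395) (nat_lit 106) (.e (nat_lit 319530) (nat_lit 16) (.e (nat_lit 286735) (nat_lit 3) (.e (nat_lit 98370) (nat_lit 28) (.e (nat_lit 442422) (nat_lit 22) .nil))))) .nil)) 
(.lf (nat_lit 54635) (.g (nat_lit 2037) (.e (nat_lit 1395) (nat_lit 106) (.e (nat_lit 319530) (nat_lit 16) (.e (nat_lit 286761) (nat_lit 13) (.e (nat_lit 393234) (nat_lit 17) (.e (nat_lit 7065) (nat_lit 377) .nil))))) .nil)))) (.nd (nat_lit 5) (.nd (nat_lit 6) 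
(.lf (nat_lit 54555) (.g (nat_lit 1229) (.e (nat_lit 1395) (nat_lit 106) (.e (nat_lit 319530) (nat_lit 16) (.e (nat_lit 286735) (nat_lit 3) (.e (nat_lit 98359) (nat_lit 26) .nil)))) .nil)) 
(.lf (nat_lit 54619) (.g (nat_lit 1203) (.e (nat_lit 1395) (nat_lit 106) (.e (nat_lit 319530) (nat_lit 16) (.e (nat_lit 286743) (nat_lit 9) (.e (nat_lit 336434) (nat_lit 30) .nil)))) .nil))) (.nd (nat_lit 6) 
(.lf (nat_lit 54587) (.g (nat_lit 2737) (.e (nat_lit 1395) (nat_lit 106) (.e (nat_lit 319530) (nat_lit 16) (.e (nat_lit 286735) (nat_lit 3) (.e (nat_lit 98373) (nat_lit 29) (.e (nat_lit 450563) (nat_lit 0) (.e (nat_lit 3868) (nat_lit 233) (.e (nat_lit 1010) (nat_lit 81) .nil))))))) (.g (nat_lit 5) .nil .nil))) 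
(.lf (nat_lit 54651) (.g (nat_lit 2517) (.e (nat_lit 1395) (nat_lit 106) (.e (nat_lit 319530) (nat_lit 16) (.e (nat_lit 286761) (nat_lit 13) (.e (nat_lit 393283) (nat_lit 24) (.e (nat_lit 434281) (nat_lit 40) .nil))))) .nil)))))) (.nd (nat_lit 3) (.nd (nat_lit 4) (.nd (nat_lit 5) (.nd (nat_lit 6) 
(.lf (nat_lit 54535) (.g (nat_lit 497) (.e (nat_lit 1395) (nat_lit 106) (.e (nat_lit 319530) (nat_lit 16) (.e (nat_lit 286735) (nat_lit 3) .nil))) .nil)) 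
(.lf (nat_lit 54599) (.g (nat_lit 1638) (.e (nat_lit 1395) (nat_lit 106) (.e (nat_lit 319530) (nat_lit 16) (.e (nat_lit 286735) (nat_lit 3) (.e (nat_lit 98379) (nat_lit 31) .nil)))) .nil))) (.nd (nat_lit 6) 
(.lf (nat_lit 54567) (.g (nat_lit 2286) (.e (nat_lit 1395) (nat_lit 106) (.e (nat_lit 319530) (nat_lit 16) (.e (nat_lit 286735) (nat_lit 3) (.e (nat_lit 98365) (nat_lit 26) (.e (nat_lit 426298) (nat_lit 11) (.e (nat_lit 458781) (nat_lit 19) (.e (nat_lit 499968) (nat_lit 14) .nil))))))) (.g (nat_lit 4) .nil .nil))) 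
(.lf (nat_lit 54631) (.g (nat_lit 2685) (.e (nat_lit 1395) (nat_lit 106) (.e (nat_lit 319530) (nat_lit 16) (.e (nat_lit 286759) (nat_lit 12) (.e (nat_lit 385088) (nat_lit 47) (.e (nat_lit 761910) (nat_lit 17) (.e (nat_lit 188160) (nat_lit 32) .nil)))))) (.g (nat_lit 4) .nil .nil))))) (.nd (nat_lit 5) (.nd (nat_lit 6) 
(.lf (nat_lit 54551) (.g (nat_lit 4765) (.e (nat_lit 1395) (nat_lit 106) (.e (nat_lit 319530) (nat_lit 16) (.e (nat_lit 286735) (nat_lit 3) (.e (nat_lit 98353) (nat_lit 25) (.e (nat_lit 417811) (nat_lit 6) (.e (nat_lit 286728) (nat_lit 0) (.e (nat_lit 1841) (nat_lit 123) (.e (nat_lit 548874) (nat_lit 5) .nil)))))))) (.g (nat_lit 8) .nil .nil))) 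
(.lf (nat_lit 54615) (.g (nat_lit 1639) (.e (nat_lit 1395) (nat_lit 106) (.e (nat_lit 319530) (nat_lit 16) (.e (nat_lit 286739) (nat_lit 7) (.e (nat_lit 319533) (nat_lit 16) (.e (nat_lit 286753) (nat_lit 10) (.e (nat_lit 344152) (nat_lit 34) (.e (nat_lit 622600) (nat_lit 5) .nil))))))) (.g (nat_lit 5) .nil .nil)))) (.nd (nat_lit 6) 
(.lf (nat_lit 54583) (.g (nat_lit 2952) (.e (nat_lit 1395) (nat_lit 106) (.e (nat_lit 319530) (nat_lit 16) (.e (nat_lit 286735) (nat_lit 3) (.e (nat_lit 98373) (nat_lit 29) (.e (nat_lit 450562) (nat_lit 0) (.e (nat_lit 3868) (nat_lit 233) (.e (nat_lit 1010) (nat_lit 81) .nil))))))) (.g (nat_lit 5) .nil .nil))) 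
(.lf (nat_lit 54647) (.g (nat_lit 2406) (.e (nat_lit 1395) (nat_lit 106) (.e (nat_lit 319530) (nat_lit 16) (.e (nat_lit 286761) (nat_lit 13) (.e (nat_lit 393282) (nat_lit 24) (.e (nat_lit 434276) (nat_lit 39) .nil))))) .nil))))) (.nd (nat_lit 4) (.nd (nat_lit 5) (.nd (nat_lit 6) 
(.lf (nat_lit 54543) (.g (nat_lit 1568) (.e (nat_lit 1395) (nat_lit 106) (.e (nat_lit 319530) (nat_lit 16) (.e (nat_lit 286735) (nat_lit 3) (.e (nat_lit 98353) (nat_lit 25) .nil)))) .nil)) 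
(.lf (nat_lit 54607) (.g (nat_lit 2392) (.e (nat_lit 1395) (nat_lit 106) (.e (nat_lit 319530) (nat_lit 16) (.e (nat_lit 286735) (nat_lit 3) (.e (nat_lit 98381) (nat_lit 31) (.e (nat_lit 466977) (nat_lit 22) (.e (nat_lit 196623) (nat_lit 9) .nil)))))) (.g (nat_lit 4) .nil .nil)))) (.nd (nat_lit 6) 
(.lf (nat_lit 54575) (.g (nat_lit 3479) (.e (nat_lit 1395) (nat_lit 106) (.e (nat_lit 319530) (nat_lit 16) (.e (nat_lit 286735) (nat_lit 3) (.e (nat_lit 98371) (nat_lit 28) (.e (nat_lit 442424) (nat_lit 22) (.e (nat_lit 196630) (nat_lit 9) .nil)))))) (.g (nat_lit 6) .nil .nil))) 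
(.lf (nat_lit 54639) (.g (nat_lit 1484) (.e (nat_lit 1395) (nat_lit 106) (.e (nat_lit 319530) (nat_lit 16) (.e (nat_lit 286761) (nat_lit 13) (.e (nat_lit 393265) (nat_lit 22) .nil)))) .nil)))) (.nd (nat_lit 5) (.nd (nat_lit 6) 
(.lf (nat_lit 54559) (.g (nat_lit 1762) (.e (nat_lit 1395) (nat_lit 106) (.e (nat_lit 319530) (nat_lit 16) (.e (nat_lit 286735) (nat_lit 3) (.e (nat_lit 98362) (nat_lit 26) .nil)))) .nil)) 
(.lf (nat_lit 54623) (.g (nat_lit 1999) (.e (nat_lit 1395) (nat_lit 106) (.e (nat_lit 319530) (nat_lit 16) (.e (nat_lit 286748) (nat_lit 9) (.e (nat_lit 336389) (nat_lit 27) (.e (nat_lit 426204) (nat_lit 9) .nil))))) .nil))) (.nd (nat_lit 6) 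
(.lf (nat_lit 54591) (.g (nat_lit 2582) (.e (nat_lit 1395) (nat_lit 106) (.e (nat_lit 319530) (nat_lit 16) (.e (nat_lit 286735) (nat_lit 3) (.e (nat_lit 98373) (nat_lit 29) (.e (nat_lit 450574) (nat_lit 1) .nil))))) .nil)) 
(.lf (nat_lit 54655) (.g (nat_lit 2011) (.e (nat_lit 1395) (nat_lit 106) (.e (nat_lit 319530) (nat_lit 16) (.e (nat_lit 286761) (nat_lit 13) (.e (nat_lit 393286) (nat_lit 25) .nil)))) .nil)))))))))

noncomputable def tv756 : DT := (.nd (nat_lit 0) (.nd (nat_lit 1) (.nd (nat_lit 2) (.nd (nat_lit 3) (.nd (nat_lit 4) (.nd (nat_lit 5) (.nd (nat_lit 6) 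
(.lf (nat_lit 54656) (.g (nat_lit 1153) (.e (nat_lit 1395) (nat_lit 106) (.e (nat_lit 319530) (nat_lit 16) (.e (nat_lit 286761) (nat_lit 13) (.e (nat_lit 393289) (nat_lit 25) .nil)))) .nil)) 
(.lf (nat_lit 54720) (.g (nat_lit 1934) (.e (nat_lit 1396) (nat_lit 106) (.e (nat_lit 319530) (nat_lit 16) (.e (nat_lit 286735) (nat_lit 3) (.e (nat_lit 98382) (nat_lit 31) (.e (nat_lit 466977) (nat_lit 22) .nil))))) .nil))) (.nd (nat_lit 6) 
(.lf (nat_lit 54688) (.g (nat_lit 2346) (.e (nat_lit 1396) (nat_lit 106) (.e (nat_lit 319530) (nat_lit 16) (.e (nat_lit 286727) (nat_lit 0) (.e (nat_lit 1799) (nat_lit 119) (.e (nat_lit 516177) (nat_lit 14) (.e (nat_lit 466977) (nat_lit 22) (.e (nat_lit 196623) (nat_lit 9) .nil))))))) (.g (nat_lit 5) .nil .nil))) 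
(.lf (nat_lit 54752) (.g (nat_lit 2404) (.e (nat_lit 1397) (nat_lit 106) (.e (nat_lit 319530) (nat_lit 16) (.e (nat_lit 286735) (nat_lit 3) (.e (nat_lit 98359) (nat_lit 26) .nil)))) .nil)))) (.nd (nat_lit 5) (.nd (nat_lit 6) 
(.lf (nat_lit 54672) (.g (nat_lit 1116) (.e (nat_lit 1395) (nat_lit 106) (.e (nat_lit 319534) (nat_lit 16) (.e (nat_lit 286739) (nat_lit 7) .nil))) .nil)) 
(.lf (nat_lit 54736) (.g (nat_lit 1614) (.e (nat_lit 1396) (nat_lit 106) (.e (nat_lit 319530) (nat_lit 16) (.e (nat_lit 286761) (nat_lit 13) (.e (nat_lit 393265) (nat_lit 22) .nil)))) .nil))) (.nd (nat_lit 6) 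
(.lf (nat_lit 54704) (.g (nat_lit 1499) (.e (nat_lit 1396) (nat_lit 106) (.e (nat_lit 319530) (nat_lit 16) (.e (nat_lit 286734) (nat_lit 3) (.e (nat_lit 98381) (nat_lit 31) .nil)))) .nil)) 
(.lf (nat_lit 54768) (.g (nat_lit 2009) (.e (nat_lit 1397) (nat_lit 106) (.e (nat_lit 319531) (nat_lit 16) (.e (nat_lit 286735) (nat_lit 3) (.e (nat_lit 98374) (nat_lit 29) .nil)))) .nil))))) (.nd (nat_lit 4) (.nd (nat_lit 5) (.nd (nat_lit 6) 
(.lf (nat_lit 54664) (.g (nat_lit 1093) (.e (nat_lit 1395) (nat_lit 106) (.e (nat_lit 319531) (nat_lit 16) (.e (nat_lit 286735) (nat_lit 3) .nil))) .nil)) 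
(.lf (nat_lit 54728) (.g (nat_lit 2356) (.e (nat_lit 1396) (nat_lit 106) (.e (nat_lit 319530) (nat_lit 16) (.e (nat_lit 286759) (nat_lit 12) (.e (nat_lit 385088) (nat_lit 47) (.e (nat_lit 761910) (nat_lit 17) (.e (nat_lit 188160) (nat_lit 32) .nil)))))) (.g (nat_lit 4) .nil .nil)))) (.nd (nat_lit 6) 
(.lf (nat_lit 54696) (.g (nat_lit 3021) (.e (nat_lit 1396) (nat_lit 106) (.e (nat_lit 319530) (nat_lit 16) (.e (nat_lit 286733) (nat_lit 2) (.e (nat_lit 90176) (nat_lit 15) (.e (nat_lit 188447) (nat_lit 22) (.e (nat_lit 196630) (nat_lit 9) .nil)))))) (.g (nat_lit 4) .nil .nil))) 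
(.lf (nat_lit 54760) (.g (nat_lit 1131) (.e (nat_lit 1397) (nat_lit 106) (.e (nat_lit 319531) (nat_lit 16) (.e (nat_lit 286727) (nat_lit 0) .nil))) .nil)))) (.nd (nat_lit 5) (.nd (nat_lit 6) 
(.lf (nat_lit 54680) (.g (nat_lit 382) (.e (nat_lit 1396) (nat_lit 106) (.e (nat_lit 319529) (nat_lit 16) (.e (nat_lit 286761) (nat_lit 13) .nil))) .nil)) 
(.lf (nat_lit 54744) (.g (nat_lit 1660) (.e (nat_lit 1396) (nat_lit 106) (.e (nat_lit 319538) (nat_lit 19) (.e (nat_lit 311315) (nat_lit 3) (.e (nat_lit 204846) (nat_lit 24) (.e (nat_lit 319534) (nat_lit 16) .nil))))) .nil))) (.nd (nat_lit 6) 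
(.lf (nat_lit 54712) (.g (nat_lit 2020) (.e (nat_lit 1396) (nat_lit 106) (.e (nat_lit 319530) (nat_lit 16) (.e (nat_lit 286735) (nat_lit 3) (.e (nat_lit 98371) (nat_lit 28) (.e (nat_lit 442424) (nat_lit 22) (.e (nat_lit 196630) (nat_lit 9) .nil)))))) (.g (nat_lit 4) .nil .nil))) 
(.lf (nat_lit 54776) (.g (nat_lit 1979) (.e (nat_lit 1397) (nat_lit 106) (.e (nat_lit 319531) (nat_lit 16) (.e (nat_lit 286761) (nat_lit 13) (.e (nat_lit 393284) (nat_lit 24) .nil)))) .nil)))))) (.nd (nat_lit 3) (.nd (nat_lit 4) (.nd (nat_lit 5) (.nd (nat_lit 6) 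
(.lf (nat_lit 54660) (.g (nat_lit 1068) (.e (nat_lit 1395) (nat_lit 106) (.e (nat_lit 319530) (nat_lit 16) (.e (nat_lit 286761) (nat_lit 13) (.e (nat_lit 393293) (nat_lit 26) .nil)))) .nil)) 
(.lf (nat_lit 54724) (.g (nat_lit 560) (.e (nat_lit 1396) (nat_lit 106) (.e (nat_lit 319530) (nat_lit 16) (.e (nat_lit 286743) (nat_lit 9) .nil))) .nil))) (.nd (nat_lit 6) 
(.lf (nat_lit 54692) (.g (nat_lit 2526) (.e (nat_lit 1396) (nat_lit 106) (.e (nat_lit 319530) (nat_lit 16) (.e (nat_lit 286733) (nat_lit 2) (.e (nat_lit 90134) (nat_lit 9) (.e (nat_lit 3002) (nat_lit 186) .nil))))) .nil)) 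
(.lf (nat_lit 54756) (.g (nat_lit 2505) (.e (nat_lit 1397) (nat_lit 106) (.e (nat_lit 319530) (nat_lit 16) (.e (nat_lit 286759) (nat_lit 12) (.e (nat_lit 385088) (nat_lit 47) (.e (nat_lit 761910) (nat_lit 17) .nil))))) .nil)))) (.nd (nat_lit 5) (.nd (nat_lit 6) 
(.lf (nat_lit 54676) (.g (nat_lit 2032) (.e (nat_lit 1395) (nat_lit 106) (.e (nat_lit 319534) (nat_lit 16) (.e (nat_lit 286756) (nat_lit 10) (.e (nat_lit 344156) (nat_lit 36) .nil)))) .nil)) 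
(.lf (nat_lit 54740) (.g (nat_lit 1613) (.e (nat_lit 1396) (nat_lit 106) (.e (nat_lit 319530) (nat_lit 16) (.e (nat_lit 286761) (nat_lit 13) (.e (nat_lit 393284) (nat_lit 24) .nil)))) .nil))) (.nd (nat_lit 6) 
(.lf (nat_lit 54708) (.g (nat_lit 1684) (.e (nat_lit 1396) (nat_lit 106) (.e (nat_lit 319530) (nat_lit 16) (.e (nat_lit 286735) (nat_lit 3) (.e (nat_lit 98356) (nat_lit 26) .nil)))) .nil)) 
(.lf (nat_lit 54772) (.g (nat_lit 2231) (.e (nat_lit 1397) (nat_lit 106) (.e (nat_lit 319531) (nat_lit 16) (.e (nat_lit 286756) (nat_lit 10) (.e (nat_lit 344157) (nat_lit 36) (.e (nat_lit 638985) (nat_lit 5) .nil))))) .nil))))) (.nd (nat_lit 4) (.nd (nat_lit 5) (.nd (nat_lit 6) 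
(.lf (nat_lit 54668) (.g (nat_lit 3019) (.e (nat_lit 1395) (nat_lit 106) (.e (nat_lit 319531) (nat_lit 16) (.e (nat_lit 286761) (nat_lit 13) (.e (nat_lit 393293) (nat_lit 26) (.e (nat_lit 475221) (nat_lit 45) (.e (nat_lit 745476) (nat_lit 0) .nil)))))) (.g (nat_lit 5) .nil .nil))) 
(.lf (nat_lit 54732) (.g (nat_lit 2091) (.e (nat_lit 1396) (nat_lit 106) (.e (nat_lit 319530) (nat_lit 16) (.e (nat_lit 286761) (nat_lit 13) (.e (nat_lit 393234) (nat_lit 17) (.e (nat_lit 7065) (nat_lit 377) (.e (nat_lit 992) (nat_lit 81) (.e (nat_lit 706) (nat_lit 62) (.e (nat_lit 671748) (nat_lit 0) .nil)))))))) (.g (nat_lit 4) .nil .nil)))) (.nd (nat_lit 6) 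
(.lf (nat_lit 54700) (.g (nat_lit 4720) (.e (nat_lit 1396) (nat_lit 106) (.e (nat_lit 319530) (nat_lit 16) (.e (nat_lit 286733) (nat_lit 2) (.e (nat_lit 90178) (nat_lit 15) (.e (nat_lit 188449) (nat_lit 22) (.e (nat_lit 196626) (nat_lit 9) .nil)))))) (.g (nat_lit 6) .nil .nil))) 
(.lf (nat_lit 54764) (.g (nat_lit 2107) (.e (nat_lit 1397) (nat_lit 106) (.e (nat_lit 319531) (nat_lit 16) (.e (nat_lit 286735) (nat_lit 3) (.e (nat_lit 98370) (nat_lit 28) .nil)))) .nil)))) (.nd (nat_lit 5) (.nd (nat_lit 6) 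
(.lf (nat_lit 54684) (.g (nat_lit 3335) (.e (nat_lit 1396) (nat_lit 106) (.e (nat_lit 319530) (nat_lit 16) (.e (nat_lit 286727) (nat_lit 0) (.e (nat_lit 1799) (nat_lit 119) (.e (nat_lit 516176) (nat_lit 14) (.e (nat_lit 466975) (nat_lit 22) (.e (nat_lit 196626) (nat_lit 9) .nil))))))) (.g (nat_lit 7) .nil .nil))) 
(.lf (nat_lit 54748) (.g (nat_lit 1286) (.e (nat_lit 1397) (nat_lit 106) (.e (nat_lit 319530) (nat_lit 16) (.e (nat_lit 286733) (nat_lit 2) .nil))) .nil))) (.nd (nat_lit 6) 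
(.lf (nat_lit 54716) (.g (nat_lit 1763) (.e (nat_lit 1396) (nat_lit 106) (.e (nat_lit 319530) (nat_lit 16) (.e (nat_lit 286735) (nat_lit 3) (.e (nat_lit 98381) (nat_lit 31) .nil)))) .nil)) 
(.lf (nat_lit 54780) (.g (nat_lit 890) (.e (nat_lit 1397) (nat_lit 106) (.e (nat_lit 319534) (nat_lit 16) (.e (nat_lit 286756) (nat_lit 10) .nil))) .nil))))))) (.nd (nat_lit 2) (.nd (nat_lit 3) (.nd (nat_lit 4) (.nd (nat_lit 5) (.nd (nat_lit 6) 
(.lf (nat_lit 54658) (.g (nat_lit 2884) (.e (nat_lit 1395) (nat_lit 106) (.e (nat_lit 319530) (nat_lit 16) (.e (nat_lit 286761) (nat_lit 13) (.e (nat_lit 393291) (nat_lit 26) (.e (nat_lit 475221) (nat_lit 45) .nil))))) .nil)) 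
(.lf (nat_lit 54722) (.g (nat_lit 620) (.e (nat_lit 1396) (nat_lit 106) (.e (nat_lit 319530) (nat_lit 16) (.e (nat_lit 286739) (nat_lit 7) .nil))) .nil))) (.nd (nat_lit 6) 
(.lf (nat_lit 54690) (.g (nat_lit 990) (.e (nat_lit 1396) (nat_lit 106) (.e (nat_lit 319530) (nat_lit 16) (.e (nat_lit 286732) (nat_lit 2) .nil))) .nil)) 
(.lf (nat_lit 54754) (.g (nat_lit 2336) (.e (nat_lit 1397) (nat_lit 106) (.e (nat_lit 319530) (nat_lit 16) (.e (nat_lit 286735) (nat_lit 3) (.e (nat_lit 98374) (nat_lit 29) .nil)))) .nil)))) (.nd (nat_lit 5) (.nd (nat_lit 6) 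
(.lf (nat_lit 54674) (.g (nat_lit 2038) (.e (nat_lit 1395) (nat_lit 106) (.e (nat_lit 319534) (nat_lit 16) (.e (nat_lit 286756) (nat_lit 10) (.e (nat_lit 344153) (nat_lit 35) .nil)))) .nil)) 
(.lf (nat_lit 54738) (.g (nat_lit 1786) (.e (nat_lit 1396) (nat_lit 106) (.e (nat_lit 319530) (nat_lit 16) (.e (nat_lit 286761) (nat_lit 13) (.e (nat_lit 393282) (nat_lit 24) .nil)))) .nil))) (.nd (nat_lit 6) 
(.lf (nat_lit 54706) (.g (nat_lit 1663) (.e (nat_lit 1396) (nat_lit 106) (.e (nat_lit 319530) (nat_lit 16) (.e (nat_lit 286735) (nat_lit 3) (.e (nat_lit 98323) (nat_lit 17) .nil)))) .nil)) 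
(.lf (nat_lit 54770) (.g (nat_lit 800) (.e (nat_lit 1397) (nat_lit 106) (.e (nat_lit 319531) (nat_lit 16) (.e (nat_lit 286756) (nat_lit 10) .nil))) .nil))))) (.nd (nat_lit 4) (.nd (nat_lit 5) (.nd (nat_lit 6) 
(.lf (nat_lit 54666) (.g (nat_lit 2379) (.e (nat_lit 1395) (nat_lit 106) (.e (nat_lit 319531) (nat_lit 16) (.e (nat_lit 286761) (nat_lit 13) (.e (nat_lit 393234) (nat_lit 17) (.e (nat_lit 7065) (nat_lit 377) .nil))))) .nil)) 
(.lf (nat_lit 54730) (.g (nat_lit 1963) (.e (nat_lit 1396) (nat_lit 106) (.e (nat_lit 319530) (nat_lit 16) (.e (nat_lit 286761) (nat_lit 13) (.e (nat_lit 393234) (nat_lit 17) (.e (nat_lit 7065) (nat_lit 377) .nil))))) .nil))) (.nd (nat_lit 6) 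
(.lf (nat_lit 54698) (.g (nat_lit 2303) (.e (nat_lit 1396) (nat_lit 106) (.e (nat_lit 319530) (nat_lit 16) (.e (nat_lit 286733) (nat_lit 2) (.e (nat_lit 90178) (nat_lit 15) (.e (nat_lit 188447) (nat_lit 22) .nil))))) .nil)) 
(.lf (nat_lit 54762) (.g (nat_lit 2485) (.e (nat_lit 1397) (nat_lit 106) (.e (nat_lit 319531) (nat_lit 16) (.e (nat_lit 286733) (nat_lit 2) (.e (nat_lit 90134) (nat_lit 9) .nil)))) .nil)))) (.nd (nat_lit 5) (.nd (nat_lit 6) 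
(.lf (nat_lit 54682) (.g (nat_lit 1755) (.e (nat_lit 1396) (nat_lit 106) (.e (nat_lit 319530) (nat_lit 16) (.e (nat_lit 286727) (nat_lit 0) (.e (nat_lit 1799) (nat_lit 119) .nil)))) .nil)) 
(.lf (nat_lit 54746) (.g (nat_lit 634) (.e (nat_lit 1397) (nat_lit 106) (.e (nat_lit 319505) (nat_lit 10) (.e (nat_lit 618) (nat_lit 48) .nil))) .nil))) (.nd (nat_lit 6) 
(.lf (nat_lit 54714) (.g (nat_lit 1429) (.e (nat_lit 1396) (nat_lit 106) (.e (nat_lit 319530) (nat_lit 16) (.e (nat_lit 286735) (nat_lit 3) (.e (nat_lit 98374) (nat_lit 29) .nil)))) .nil)) 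
(.lf (nat_lit 54778) (.g (nat_lit 934) (.e (nat_lit 1397) (nat_lit 106) (.e (nat_lit 319534) (nat_lit 16) (.e (nat_lit 286740) (nat_lit 7) .nil))) .nil)))))) (.nd (nat_lit 3) (.nd (nat_lit 4) (.nd (nat_lit 5) (.nd (nat_lit 6) 
(.lf (nat_lit 54662) (.g (nat_lit 2350) (.e (nat_lit 1395) (nat_lit 106) (.e (nat_lit 319530) (nat_lit 16) (.e (nat_lit 286761) (nat_lit 13) (.e (nat_lit 393300) (nat_lit 27) (.e (nat_lit 491577) (nat_lit 15) .nil))))) .nil)) 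
(.lf (nat_lit 54726) (.g (nat_lit 2514) (.e (nat_lit 1396) (nat_lit 106) (.e (nat_lit 319530) (nat_lit 16) (.e (nat_lit 286759) (nat_lit 12) (.e (nat_lit 385088) (nat_lit 47) (.e (nat_lit 761908) (nat_lit 17) (.e (nat_lit 188160) (nat_lit 32) .nil)))))) (.g (nat_lit 5) .nil .nil)))) (.nd (nat_lit 6) 
(.lf (nat_lit 54694) (.g (nat_lit 1589) (.e (nat_lit 1396) (nat_lit 106) (.e (nat_lit 319530) (nat_lit 16) (.e (nat_lit 286733) (nat_lit 2) (.e (nat_lit 90169) (nat_lit 13) .nil)))) .nil)) 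
(.lf (nat_lit 54758) (.g (nat_lit 2133) (.e (nat_lit 1397) (nat_lit 106) (.e (nat_lit 319530) (nat_lit 16) (.e (nat_lit 286761) (nat_lit 13) (.e (nat_lit 393282) (nat_lit 24) .nil)))) .nil)))) (.nd (nat_lit 5) (.nd (nat_lit 6) 
(.lf (nat_lit 54678) (.g (nat_lit 2002) (.e (nat_lit 1395) (nat_lit 106) (.e (nat_lit 319534) (nat_lit 16) (.e (nat_lit 286756) (nat_lit 10) (.e (nat_lit 344160) (nat_lit 37) .nil)))) .nil)) 
(.lf (nat_lit 54742) (.g (nat_lit 1268) (.e (nat_lit 1396) (nat_lit 106) (.e (nat_lit 319530) (nat_lit 16) (.e (nat_lit 286761) (nat_lit 13) (.e (nat_lit 393293) (nat_lit 26) .nil)))) .nil))) (.nd (nat_lit 6) 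
(.lf (nat_lit 54710) (.g (nat_lit 1866) (.e (nat_lit 1396) (nat_lit 106) (.e (nat_lit 319530) (nat_lit 16) (.e (nat_lit 286735) (nat_lit 3) (.e (nat_lit 98369) (nat_lit 28) .nil)))) .nil)) 
(.lf (nat_lit 54774) (.g (nat_lit 2355) (.e (nat_lit 1397) (nat_lit 106) (.e (nat_lit 319531) (nat_lit 16) (.e (nat_lit 286759) (nat_lit 12) (.e (nat_lit 385088) (nat_lit 47) (.e (nat_lit 761910) (nat_lit 17) .nil))))) .nil))))) (.nd (nat_lit 4) (.nd (nat_lit 5) (.nd (nat_lit 6) 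
(.lf (nat_lit 54670) (.g (nat_lit 1650) (.e (nat_lit 1395) (nat_lit 106) (.e (nat_lit 319533) (nat_lit 16) (.e (nat_lit 286753) (nat_lit 10) (.e (nat_lit 344154) (nat_lit 35) .nil)))) .nil)) 
(.lf (nat_lit 54734) (.g (nat_lit 2877) (.e (nat_lit 1396) (nat_lit 106) (.e (nat_lit 319530) (nat_lit 16) (.e (nat_lit 286761) (nat_lit 13) (.e (nat_lit 393234) (nat_lit 17) (.e (nat_lit 7065) (nat_lit 377) (.e (nat_lit 1115) (nat_lit 82) (.e (nat_lit 8433) (nat_lit 138) (.e (nat_lit 999) (nat_lit 81) .nil)))))))) (.g (nat_lit 5) .nil .nil)))) (.nd (nat_lit 6) 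
(.lf (nat_lit 54702) (.g (nat_lit 2362) (.e (nat_lit 1396) (nat_lit 106) (.e (nat_lit 319530) (nat_lit 16) (.e (nat_lit 286734) (nat_lit 3) (.e (nat_lit 98359) (nat_lit 26) (.e (nat_lit 426211) (nat_lit 9) (.e (nat_lit 426125) (nat_lit 2) (.e (nat_lit 204544) (nat_lit 9) .nil))))))) (.g (nat_lit 5) .nil .nil))) 
(.lf (nat_lit 54766) (.g (nat_lit 3798) (.e (nat_lit 1397) (nat_lit 106) (.e (nat_lit 319531) (nat_lit 16) (.e (nat_lit 286735) (nat_lit 3) (.e (nat_lit 98373) (nat_lit 29) (.e (nat_lit 450571) (nat_lit 1) .nil))))) .nil)))) (.nd (nat_lit 5) (.nd (nat_lit 6) 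
(.lf (nat_lit 54686) (.g (nat_lit 2024) (.e (nat_lit 1396) (nat_lit 106) (.e (nat_lit 319530) (nat_lit 16) (.e (nat_lit 286727) (nat_lit 0) (.e (nat_lit 1799) (nat_lit 119) (.e (nat_lit 516177) (nat_lit 14) .nil))))) .nil)) 
(.lf (nat_lit 54750) (.g (nat_lit 2241) (.e (nat_lit 1397) (nat_lit 106) (.e (nat_lit 319530) (nat_lit 16) (.e (nat_lit 286733) (nat_lit 2) (.e (nat_lit 90178) (nat_lit 15) .nil)))) .nil))) (.nd (nat_lit 6) 
(.lf (nat_lit 54718) (.g (nat_lit 2983) (.e (nat_lit 1396) (nat_lit 106) (.e (nat_lit 319530) (nat_lit 16) (.e (nat_lit 286735) (nat_lit 3) (.e (nat_lit 98382) (nat_lit 31) (.e (nat_lit 466974) (nat_lit 22) (.e (nat_lit 196626) (nat_lit 9) .nil)))))) (.g (nat_lit 6) .nil .nil))) 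
(.lf (nat_lit 54782) (.g (nat_lit 2468) (.e (nat_lit 1397) (nat_lit 106) (.e (nat_lit 319534) (nat_lit 16) (.e (nat_lit 286756) (nat_lit 10) (.e (nat_lit 344156) (nat_lit 36) (.e (nat_lit 638985) (nat_lit 5) .nil))))) .nil)))))))) (.nd (nat_lit 1) (.nd (nat_lit 2) (.nd (nat_lit 3) (.nd (nat_lit 4) (.nd (nat_lit 5) (.nd (nat_lit 6) 
(.lf (nat_lit 54657) (.g (nat_lit 1802) (.e (nat_lit 1395) (nat_lit 106) (.e (nat_lit 319530) (nat_lit 16) (.e (nat_lit 286761) (nat_lit 13) (.e (nat_lit 393289) (nat_lit 25) (.e (nat_lit 466688) (nat_lit 18) .nil))))) .nil)) 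
(.lf (nat_lit 54721) (.g (nat_lit 3044) (.e (nat_lit 1396) (nat_lit 106) (.e (nat_lit 319530) (nat_lit 16) (.e (nat_lit 286735) (nat_lit 3) (.e (nat_lit 98382) (nat_lit 31) (.e (nat_lit 466977) (nat_lit 22) (.e (nat_lit 196626) (nat_lit 9) .nil)))))) (.g (nat_lit 0) .nil .nil)))) (.nd (nat_lit 6) 
(.lf (nat_lit 54689) (.g (nat_lit 3441) (.e (nat_lit 1396) (nat_lit 106) (.e (nat_lit 319530) (nat_lit 16) (.e (nat_lit 286727) (nat_lit 0) (.e (nat_lit 1799) (nat_lit 119) (.e (nat_lit 516177) (nat_lit 14) (.e (nat_lit 466977) (nat_lit 22) (.e (nat_lit 196626) (nat_lit 9) .nil))))))) (.g (nat_lit 7) .nil .nil))) 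
(.lf (nat_lit 54753) (.g (nat_lit 4407) (.e (nat_lit 1397) (nat_lit 106) (.e (nat_lit 319530) (nat_lit 16) (.e (nat_lit 286735) (nat_lit 3) (.e (nat_lit 98372) (nat_lit 29) (.e (nat_lit 450571) (nat_lit 1) .nil))))) .nil)))) (.nd (nat_lit 5) (.nd (nat_lit 6) 
(.lf (nat_lit 54673) (.g (nat_lit 962) (.e (nat_lit 1395) (nat_lit 106) (.e (nat_lit 319534) (nat_lit 16) (.e (nat_lit 286756) (nat_lit 10) .nil))) .nil)) 
(.lf (nat_lit 54737) (.g (nat_lit 1611) (.e (nat_lit 1396) (nat_lit 106) (.e (nat_lit 319530) (nat_lit 16) (.e (nat_lit 286761) (nat_lit 13) (.e (nat_lit 393270) (nat_lit 23) .nil)))) .nil))) (.nd (nat_lit 6) 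
(.lf (nat_lit 54705) (.g (nat_lit 507) (.e (nat_lit 1396) (nat_lit 106) (.e (nat_lit 319530) (nat_lit 16) (.e (nat_lit 286735) (nat_lit 3) .nil))) .nil)) 
(.lf (nat_lit 54769) (.g (nat_lit 2702) (.e (nat_lit 1397) (nat_lit 106) (.e (nat_lit 319531) (nat_lit 16) (.e (nat_lit 286748) (nat_lit 9) (.e (nat_lit 336295) (nat_lit 15) (.e (nat_lit 3597) (nat_lit 225) .nil))))) .nil))))) (.nd (nat_lit 4) (.nd (nat_lit 5) (.nd (nat_lit 6) 
(.lf (nat_lit 54665) (.g (nat_lit 867) (.e (nat_lit 1395) (nat_lit 106) (.e (nat_lit 319531) (nat_lit 16) (.e (nat_lit 286761) (nat_lit 13) .nil))) .nil)) 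
(.lf (nat_lit 54729) (.g (nat_lit 500) (.e (nat_lit 1396) (nat_lit 106) (.e (nat_lit 319530) (nat_lit 16) (.e (nat_lit 286761) (nat_lit 13) .nil))) .nil))) (.nd (nat_lit 6) 
(.lf (nat_lit 54697) (.g (nat_lit 1449) (.e (nat_lit 1396) (nat_lit 106) (.e (nat_lit 319530) (nat_lit 16) (.e (nat_lit 286733) (nat_lit 2) (.e (nat_lit 90178) (nat_lit 15) .nil)))) .nil)) 
(.lf (nat_lit 54761) (.g (nat_lit 1207) (.e (nat_lit 1397) (nat_lit 106) (.e (nat_lit 319531) (nat_lit 16) (.e (nat_lit 286733) (nat_lit 2) .nil))) .nil)))) (.nd (nat_lit 5) (.nd (nat_lit 6) 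
(.lf (nat_lit 54681) (.g (nat_lit 2153) (.e (nat_lit 1396) (nat_lit 106) (.e (nat_lit 319529) (nat_lit 16) (.e (nat_lit 286761) (nat_lit 13) (.e (nat_lit 393293) (nat_lit 26) (.e (nat_lit 475221) (nat_lit 45) .nil))))) .nil)) 
(.lf (nat_lit 54745) (.g (nat_lit 2019) (.e (nat_lit 1397) (nat_lit 106) (.e (nat_lit 319500) (nat_lit 10) (.e (nat_lit 618) (nat_lit 48) (.e (nat_lit 557109) (nat_lit 15) (.e (nat_lit 188461) (nat_lit 26) .nil))))) .nil))) (.nd (nat_lit 6) 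
(.lf (nat_lit 54713) (.g (nat_lit 3564) (.e (nat_lit 1396) (nat_lit 106) (.e (nat_lit 319530) (nat_lit 16) (.e (nat_lit 286735) (nat_lit 3) (.e (nat_lit 98372) (nat_lit 29) (.e (nat_lit 450571) (nat_lit 1) .nil))))) .nil)) 
(.lf (nat_lit 54777) (.g (nat_lit 609) (.e (nat_lit 1397) (nat_lit 106) (.e (nat_lit 319533) (nat_lit 16) (.e (nat_lit 286753) (nat_lit 10) .nil))) .nil)))))) (.nd (nat_lit 3) (.nd (nat_lit 4) (.nd (nat_lit 5) (.nd (nat_lit 6) 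
(.lf (nat_lit 54661) (.g (nat_lit 3047) (.e (nat_lit 1395) (nat_lit 106) (.e (nat_lit 319530) (nat_lit 16) (.e (nat_lit 286761) (nat_lit 13) (.e (nat_lit 393296) (nat_lit 26) (.e (nat_lit 475221) (nat_lit 45) .nil))))) .nil)) 
(.lf (nat_lit 54725) (.g (nat_lit 2218) (.e (nat_lit 1396) (nat_lit 106) (.e (nat_lit 319530) (nat_lit 16) (.e (nat_lit 286748) (nat_lit 9) (.e (nat_lit 336295) (nat_lit 15) (.e (nat_lit 3597) (nat_lit 225) .nil))))) .nil))) (.nd (nat_lit 6) 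
(.lf (nat_lit 54693) (.g (nat_lit 2626) (.e (nat_lit 1396) (nat_lit 106) (.e (nat_lit 319530) (nat_lit 16) (.e (nat_lit 286733) (nat_lit 2) (.e (nat_lit 90134) (nat_lit 9) (.e (nat_lit 3045) (nat_lit 189) .nil))))) .nil)) 
(.lf (nat_lit 54757) (.g (nat_lit 789) (.e (nat_lit 1397) (nat_lit 106) (.e (nat_lit 319530) (nat_lit 16) (.e (nat_lit 286761) (nat_lit 13) .nil))) .nil)))) (.nd (nat_lit 5) (.nd (nat_lit 6) 
(.lf (nat_lit 54677) (.g (nat_lit 2489) (.e (nat_lit 1395) (nat_lit 106) (.e (nat_lit 319534) (nat_lit 16) (.e (nat_lit 286756) (nat_lit 10) (.e (nat_lit 344157) (nat_lit 36) (.e (nat_lit 639000) (nat_lit 9) (.e (nat_lit 188160) (nat_lit 32) .nil)))))) (.g (nat_lit 5) .nil .nil))) 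
(.lf (nat_lit 54741) (.g (nat_lit 1479) (.e (nat_lit 1396) (nat_lit 106) (.e (nat_lit 319530) (nat_lit 16) (.e (nat_lit 286761) (nat_lit 13) (.e (nat_lit 393289) (nat_lit 25) .nil)))) .nil))) (.nd (nat_lit 6) 
(.lf (nat_lit 54709) (.g (nat_lit 1734) (.e (nat_lit 1396) (nat_lit 106) (.e (nat_lit 319530) (nat_lit 16) (.e (nat_lit 286735) (nat_lit 3) (.e (nat_lit 98359) (nat_lit 26) .nil)))) .nil)) 
(.lf (nat_lit 54773) (.g (nat_lit 1857) (.e (nat_lit 1397) (nat_lit 106) (.e (nat_lit 319531) (nat_lit 16) (.e (nat_lit 286759) (nat_lit 12) (.e (nat_lit 385088) (nat_lit 47) .nil)))) .nil))))) (.nd (nat_lit 4) (.nd (nat_lit 5) (.nd (nat_lit 6) 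
(.lf (nat_lit 54669) (.g (nat_lit 2055) (.e (nat_lit 1395) (nat_lit 106) (.e (nat_lit 319531) (nat_lit 16) (.e (nat_lit 286761) (nat_lit 13) (.e (nat_lit 393301) (nat_lit 27) .nil)))) .nil)) 
(.lf (nat_lit 54733) (.g (nat_lit 2744) (.e (nat_lit 1396) (nat_lit 106) (.e (nat_lit 319530) (nat_lit 16) (.e (nat_lit 286761) (nat_lit 13) (.e (nat_lit 393234) (nat_lit 17) (.e (nat_lit 7065) (nat_lit 377) (.e (nat_lit 1112) (nat_lit 82) (.e (nat_lit 8433) (nat_lit 138) (.e (nat_lit 999) (nat_lit 81) .nil)))))))) (.g (nat_lit 5) .nil .nil)))) (.nd (nat_lit 6) 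
(.lf (nat_lit 54701) (.g (nat_lit 623) (.e (nat_lit 1396) (nat_lit 106) (.e (nat_lit 319530) (nat_lit 16) (.e (nat_lit 286734) (nat_lit 3) .nil))) .nil)) 
(.lf (nat_lit 54765) (.g (nat_lit 4167) (.e (nat_lit 1397) (nat_lit 106) (.e (nat_lit 319531) (nat_lit 16) (.e (nat_lit 286735) (nat_lit 3) (.e (nat_lit 98372) (nat_lit 29) (.e (nat_lit 450571) (nat_lit 1) .nil))))) .nil)))) (.nd (nat_lit 5) (.nd (nat_lit 6) 
(.lf (nat_lit 54685) (.g (nat_lit 2101) (.e (nat_lit 1396) (nat_lit 106) (.e (nat_lit 319530) (nat_lit 16) (.e (nat_lit 286727) (nat_lit 0) (.e (nat_lit 1799) (nat_lit 119) (.e (nat_lit 516176) (nat_lit 14) (.e (nat_lit 466977) (nat_lit 22) (.e (nat_lit 196626) (nat_lit 9) .nil))))))) (.g (nat_lit 4) .nil .nil))) 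
(.lf (nat_lit 54749) (.g (nat_lit 2451) (.e (nat_lit 1397) (nat_lit 106) (.e (nat_lit 319530) (nat_lit 16) (.e (nat_lit 286733) (nat_lit 2) (.e (nat_lit 90134) (nat_lit 9) .nil)))) .nil))) (.nd (nat_lit 6) 
(.lf (nat_lit 54717) (.g (nat_lit 1537) (.e (nat_lit 1396) (nat_lit 106) (.e (nat_lit 319530) (nat_lit 16) (.e (nat_lit 286735) (nat_lit 3) (.e (nat_lit 98382) (nat_lit 31) .nil)))) .nil)) 
(.lf (nat_lit 54781) (.g (nat_lit 1873) (.e (nat_lit 1397) (nat_lit 106) (.e (nat_lit 319534) (nat_lit 16) (.e (nat_lit 286756) (nat_lit 10) (.e (nat_lit 344154) (nat_lit 35) .nil)))) .nil))))))) (.nd (nat_lit 2) (.nd (nat_lit 3) (.nd (nat_lit 4) (.nd (nat_lit 5) (.nd (nat_lit 6) 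
(.lf (nat_lit 54659) (.g (nat_lit 2011) (.e (nat_lit 1395) (nat_lit 106) (.e (nat_lit 319530) (nat_lit 16) (.e (nat_lit 286761) (nat_lit 13) (.e (nat_lit 393292) (nat_lit 26) .nil)))) .nil)) 
(.lf (nat_lit 54723) (.g (nat_lit 1316) (.e (nat_lit 1396) (nat_lit 106) (.e (nat_lit 319530) (nat_lit 16) (.e (nat_lit 286739) (nat_lit 7) (.e (nat_lit 319534) (nat_lit 16) (.e (nat_lit 286756) (nat_lit 10) (.e (nat_lit 344151) (nat_lit 34) (.e (nat_lit 622601) (nat_lit 5) .nil))))))) (.g (nat_lit 4) .nil .nil)))) (.nd (nat_lit 6) 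
(.lf (nat_lit 54691) (.g (nat_lit 504) (.e (nat_lit 1396) (nat_lit 106) (.e (nat_lit 319530) (nat_lit 16) (.e (nat_lit 286733) (nat_lit 2) .nil))) .nil)) 
(.lf (nat_lit 54755) (.g (nat_lit 2014) (.e (nat_lit 1397) (nat_lit 106) (.e (nat_lit 319530) (nat_lit 16) (.e (nat_lit 286759) (nat_lit 12) (.e (nat_lit 385088) (nat_lit 47) .nil)))) .nil)))) (.nd (nat_lit 5) (.nd (nat_lit 6) 
(.lf (nat_lit 54675) (.g (nat_lit 2290) (.e (nat_lit 1395) (nat_lit 106) (.e (nat_lit 319534) (nat_lit 16) (.e (nat_lit 286756) (nat_lit 10) (.e (nat_lit 344154) (nat_lit 35) (.e (nat_lit 630803) (nat_lit 9) (.e (nat_lit 188160) (nat_lit 32) .nil)))))) (.g (nat_lit 4) .nil .nil))) 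
(.lf (nat_lit 54739) (.g (nat_lit 1821) (.e (nat_lit 1396) (nat_lit 106) (.e (nat_lit 319530) (nat_lit 16) (.e (nat_lit 286761) (nat_lit 13) (.e (nat_lit 393283) (nat_lit 24) .nil)))) .nil))) (.nd (nat_lit 6) 
(.lf (nat_lit 54707) (.g (nat_lit 1722) (.e (nat_lit 1396) (nat_lit 106) (.e (nat_lit 319530) (nat_lit 16) (.e (nat_lit 286735) (nat_lit 3) (.e (nat_lit 98325) (nat_lit 17) .nil)))) .nil)) 
(.lf (nat_lit 54771) (.g (nat_lit 1931) (.e (nat_lit 1397) (nat_lit 106) (.e (nat_lit 319531) (nat_lit 16) (.e (nat_lit 286756) (nat_lit 10) (.e (nat_lit 344157) (nat_lit 36) .nil)))) .nil))))) (.nd (nat_lit 4) (.nd (nat_lit 5) (.nd (nat_lit 6) 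
(.lf (nat_lit 54667) (.g (nat_lit 1909) (.e (nat_lit 1395) (nat_lit 106) (.e (nat_lit 319531) (nat_lit 16) (.e (nat_lit 286761) (nat_lit 13) (.e (nat_lit 393289) (nat_lit 25) .nil)))) .nil)) 
(.lf (nat_lit 54731) (.g (nat_lit 2119) (.e (nat_lit 1396) (nat_lit 106) (.e (nat_lit 319530) (nat_lit 16) (.e (nat_lit 286761) (nat_lit 13) (.e (nat_lit 393234) (nat_lit 17) (.e (nat_lit 7065) (nat_lit 377) (.e (nat_lit 988) (nat_lit 81) (.e (nat_lit 706) (nat_lit 62) (.e (nat_lit 671748) (nat_lit 0) .nil)))))))) (.g (nat_lit 4) .nil .nil)))) (.nd (nat_lit 6) 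
(.lf (nat_lit 54699) (.g (nat_lit 3185) (.e (nat_lit 1396) (nat_lit 106) (.e (nat_lit 319530) (nat_lit 16) (.e (nat_lit 286733) (nat_lit 2) (.e (nat_lit 90178) (nat_lit 15) (.e (nat_lit 188448) (nat_lit 22) (.e (nat_lit 196626) (nat_lit 9) .nil)))))) (.g (nat_lit 0) .nil .nil))) 
(.lf (nat_lit 54763) (.g (nat_lit 2265) (.e (nat_lit 1397) (nat_lit 106) (.e (nat_lit 319531) (nat_lit 16) (.e (nat_lit 286735) (nat_lit 3) (.e (nat_lit 98359) (nat_lit 26) .nil)))) .nil)))) (.nd (nat_lit 5) (.nd (nat_lit 6) 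
(.lf (nat_lit 54683) (.g (nat_lit 3295) (.e (nat_lit 1396) (nat_lit 106) (.e (nat_lit 319530) (nat_lit 16) (.e (nat_lit 286727) (nat_lit 0) (.e (nat_lit 1799) (nat_lit 119) (.e (nat_lit 516174) (nat_lit 14) (.e (nat_lit 466975) (nat_lit 22) (.e (nat_lit 196626) (nat_lit 9) .nil))))))) (.g (nat_lit 7) .nil .nil))) 
(.lf (nat_lit 54747) (.g (nat_lit 3959) (.e (nat_lit 1397) (nat_lit 106) (.e (nat_lit 319505) (nat_lit 10) (.e (nat_lit 618) (nat_lit 48) (.e (nat_lit 557105) (nat_lit 14) (.e (nat_lit 180252) (nat_lit 10) (.e (nat_lit 573489) (nat_lit 14) (.e (nat_lit 73755) (nat_lit 8) (.e (nat_lit 564992) (nat_lit 0) .nil)))))))) (.g (nat_lit 6) .nil .nil)))) (.nd (nat_lit 6) 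
(.lf (nat_lit 54715) (.g (nat_lit 1680) (.e (nat_lit 1396) (nat_lit 106) (.e (nat_lit 319530) (nat_lit 16) (.e (nat_lit 286735) (nat_lit 3) (.e (nat_lit 98380) (nat_lit 31) .nil)))) .nil)) 
(.lf (nat_lit 54779) (.g (nat_lit 1803) (.e (nat_lit 1397) (nat_lit 106) (.e (nat_lit 319534) (nat_lit 16) (.e (nat_lit 286749) (nat_lit 9) (.e (nat_lit 335997) (nat_lit 1) .nil)))) .nil)))))) (.nd (nat_lit 3) (.nd (nat_lit 4) (.nd (nat_lit 5) (.nd (nat_lit 6) 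
(.lf (nat_lit 54663) (.g (nat_lit 4905) (.e (nat_lit 1395) (nat_lit 106) (.e (nat_lit 319530) (nat_lit 16) (.e (nat_lit 286761) (nat_lit 13) (.e (nat_lit 393301) (nat_lit 27) (.e (nat_lit 491532) (nat_lit 1) .nil))))) .nil)) 
(.lf (nat_lit 54727) (.g (nat_lit 2504) (.e (nat_lit 1396) (nat_lit 106) (.e (nat_lit 319530) (nat_lit 16) (.e (nat_lit 286759) (nat_lit 12) (.e (nat_lit 385088) (nat_lit 47) (.e (nat_lit 761909) (nat_lit 17) (.e (nat_lit 188160) (nat_lit 32) .nil)))))) (.g (nat_lit 5) .nil .nil)))) (.nd (nat_lit 6) 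
(.lf (nat_lit 54695) (.g (nat_lit 1912) (.e (nat_lit 1396) (nat_lit 106) (.e (nat_lit 319530) (nat_lit 16) (.e (nat_lit 286733) (nat_lit 2) (.e (nat_lit 90176) (nat_lit 15) .nil)))) .nil)) 
(.lf (nat_lit 54759) (.g (nat_lit 2040) (.e (nat_lit 1397) (nat_lit 106) (.e (nat_lit 319530) (nat_lit 16) (.e (nat_lit 286761) (nat_lit 13) (.e (nat_lit 393284) (nat_lit 24) .nil)))) .nil)))) (.nd (nat_lit 5) (.nd (nat_lit 6) 
(.lf (nat_lit 54679) (.g (nat_lit 3128) (.e (nat_lit 1396) (nat_lit 106) (.e (nat_lit 319499) (nat_lit 10) (.e (nat_lit 618) (nat_lit 48) (.e (nat_lit 557105) (nat_lit 14) (.e (nat_lit 180252) (nat_lit 10) (.e (nat_lit 573489) (nat_lit 14) (.e (nat_lit 73755) (nat_lit 8) (.e (nat_lit 564992) (nat_lit 0) .nil)))))))) (.g (nat_lit 7) .nil .nil))) 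
(.lf (nat_lit 54743) (.g (nat_lit 1868) (.e (nat_lit 1396) (nat_lit 106) (.e (nat_lit 319530) (nat_lit 16) (.e (nat_lit 286761) (nat_lit 13) (.e (nat_lit 393296) (nat_lit 26) .nil)))) .nil))) (.nd (nat_lit 6) 
(.lf (nat_lit 54711) (.g (nat_lit 2643) (.e (nat_lit 1396) (nat_lit 106) (.e (nat_lit 319530) (nat_lit 16) (.e (nat_lit 286735) (nat_lit 3) (.e (nat_lit 98370) (nat_lit 28) (.e (nat_lit 442424) (nat_lit 22) .nil))))) .nil)) 
(.lf (nat_lit 54775) (.g (nat_lit 768) (.e (nat_lit 1397) (nat_lit 106) (.e (nat_lit 319531) (nat_lit 16) (.e (nat_lit 286761) (nat_lit 13) .nil))) .nil))))) (.nd (nat_lit 4) (.nd (nat_lit 5) (.nd (nat_lit 6) 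
(.lf (nat_lit 54671) (.g (nat_lit 1671) (.e (nat_lit 1395) (nat_lit 106) (.e (nat_lit 319533) (nat_lit 16) (.e (nat_lit 286753) (nat_lit 10) (.e (nat_lit 344157) (nat_lit 36) .nil)))) .nil)) 
(.lf (nat_lit 54735) (.g (nat_lit 1594) (.e (nat_lit 1396) (nat_lit 106) (.e (nat_lit 319530) (nat_lit 16) (.e (nat_lit 286761) (nat_lit 13) (.e (nat_lit 393264) (nat_lit 22) .nil)))) .nil))) (.nd (nat_lit 6) 
(.lf (nat_lit 54703) (.g (nat_lit 2113) (.e (nat_lit 1396) (nat_lit 106) (.e (nat_lit 319530) (nat_lit 16) (.e (nat_lit 286734) (nat_lit 3) (.e (nat_lit 98370) (nat_lit 28) (.e (nat_lit 442424) (nat_lit 22) .nil))))) .nil)) 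
(.lf (nat_lit 54767) (.g (nat_lit 3704) (.e (nat_lit 1397) (nat_lit 106) (.e (nat_lit 319531) (nat_lit 16) (.e (nat_lit 286735) (nat_lit 3) (.e (nat_lit 98373) (nat_lit 29) (.e (nat_lit 450573) (nat_lit 1) .nil))))) .nil)))) (.nd (nat_lit 5) (.nd (nat_lit 6) 
(.lf (nat_lit 54687) (.g (nat_lit 3315) (.e (nat_lit 1396) (nat_lit 106) (.e (nat_lit 319530) (nat_lit 16) (.e (nat_lit 286727) (nat_lit 0) (.e (nat_lit 1799) (nat_lit 119) (.e (nat_lit 516177) (nat_lit 14) (.e (nat_lit 466974) (nat_lit 22) (.e (nat_lit 196626) (nat_lit 9) .nil))))))) (.g (nat_lit 7) .nil .nil))) 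
(.lf (nat_lit 54751) (.g (nat_lit 1280) (.e (nat_lit 1397) (nat_lit 106) (.e (nat_lit 319530) (nat_lit 16) (.e (nat_lit 286735) (nat_lit 3) .nil))) .nil))) (.nd (nat_lit 6) 
(.lf (nat_lit 54719) (.g (nat_lit 2005) (.e (nat_lit 1396) (nat_lit 106) (.e (nat_lit 319530) (nat_lit 16) (.e (nat_lit 286735) (nat_lit 3) (.e (nat_lit 98382) (nat_lit 31) (.e (nat_lit 466976) (nat_lit 22) .nil))))) .nil)) 
(.lf (nat_lit 54783) (.g (nat_lit 1898) (.e (nat_lit 1397) (nat_lit 106) (.e (nat_lit 319534) (nat_lit 16) (.e (nat_lit 286756) (nat_lit 10) (.e (nat_lit 344157) (nat_lit 36) .nil)))) .nil)))))))))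

noncomputable def tv757 : DT := (.nd (nat_lit 0) (.nd (nat_lit 1) (.nd (nat_lit 2) (.nd (nat_lit 3) (.nd (nat_lit 4) (.nd (nat_lit 5) (.nd (nat_lit 6) 
(.lf (nat_lit 54784) (.g (nat_lit 4268) (.e (nat_lit 1397) (nat_lit 106) (.e (nat_lit 319534) (nat_lit 16) (.e (nat_lit 286756) (nat_lit 10) (.e (nat_lit 344157) (nat_lit 36) (.e (nat_lit 638985) (nat_lit 5) (.e (nat_lit 2828) (nat_lit 182) (.e (nat_lit 409603) (nat_lit 0) (.e (nat_lit 5293) (nat_lit 298) .nil)))))))) (.g (nat_lit 8) .nil .nil))) 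
(.lf (nat_lit 54848) (.g (nat_lit 1811) (.e (nat_lit 1399) (nat_lit 106) (.e (nat_lit 319530) (nat_lit 16) (.e (nat_lit 286748) (nat_lit 9) (.e (nat_lit 336295) (nat_lit 15) (.e (nat_lit 7936) (nat_lit 393) .nil))))) .nil))) (.nd (nat_lit 6) 
(.lf (nat_lit 54816) (.g (nat_lit 2258) (.e (nat_lit 1399) (nat_lit 106) (.e (nat_lit 319490) (nat_lit 0) (.e (nat_lit 5664) (nat_lit 312) (.e (nat_lit 2661) (nat_lit 167) .nil)))) .nil)) 
(.lf (nat_lit 54880) (.g (nat_lit 2326) (.e (nat_lit 1399) (nat_lit 106) (.e (nat_lit 319531) (nat_lit 16) (.e (nat_lit 286761) (nat_lit 13) (.e (nat_lit 393283) (nat_lit 24) (.e (nat_lit 434279) (nat_lit 39) (.e (nat_lit 663555) (nat_lit 0) .nil)))))) (.g (nat_lit 5) .nil .nil))))) (.nd (nat_lit 5) (.nd (nat_lit 6) 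
(.lf (nat_lit 54800) (.g (nat_lit 1190) (.e (nat_lit 1398) (nat_lit 106) (.e (nat_lit 319531) (nat_lit 16) (.e (nat_lit 286733) (nat_lit 2) .nil))) .nil)) 
(.lf (nat_lit 54864) (.g (nat_lit 4450) (.e (nat_lit 1399) (nat_lit 106) (.e (nat_lit 319531) (nat_lit 16) (.e (nat_lit 286727) (nat_lit 0) (.e (nat_lit 1799) (nat_lit 119) (.e (nat_lit 516166) (nat_lit 12) (.e (nat_lit 450574) (nat_lit 1) (.e (nat_lit 499991) (nat_lit 14) .nil))))))) (.g (nat_lit 6) .nil .nil)))) (.nd (nat_lit 6) 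
(.lf (nat_lit 54832) (.g (nat_lit 1792) (.e (nat_lit 1399) (nat_lit 106) (.e (nat_lit 319528) (nat_lit 16) (.e (nat_lit 286761) (nat_lit 13) (.e (nat_lit 393284) (nat_lit 24) (.e (nat_lit 434276) (nat_lit 39) (.e (nat_lit 663555) (nat_lit 0) .nil)))))) (.g (nat_lit 5) .nil .nil))) 
(.lf (nat_lit 54896) (.g (nat_lit 1921) (.e (nat_lit 1399) (nat_lit 106) (.e (nat_lit 319532) (nat_lit 16) (.e (nat_lit 286761) (nat_lit 13) (.e (nat_lit 393283) (nat_lit 24) (.e (nat_lit 434276) (nat_lit 39) .nil))))) .nil))))) (.nd (nat_lit 4) (.nd (nat_lit 5) (.nd (nat_lit 6) 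
(.lf (nat_lit 54792) (.g (nat_lit 2120) (.e (nat_lit 1398) (nat_lit 106) (.e (nat_lit 319530) (nat_lit 16) (.e (nat_lit 286733) (nat_lit 2) (.e (nat_lit 90178) (nat_lit 15) .nil)))) .nil)) 
(.lf (nat_lit 54856) (.g (nat_lit 1959) (.e (nat_lit 1399) (nat_lit 106) (.e (nat_lit 319530) (nat_lit 16) (.e (nat_lit 286761) (nat_lit 13) (.e (nat_lit 393283) (nat_lit 24) (.e (nat_lit 434278) (nat_lit 39) .nil))))) .nil))) (.nd (nat_lit 6) 
(.lf (nat_lit 54824) (.g (nat_lit 1495) (.e (nat_lit 1399) (nat_lit 106) (.e (nat_lit 319511) (nat_lit 10) (.e (nat_lit 5293) (nat_lit 298) (.e (nat_lit 1423) (nat_lit 108) (.e (nat_lit 336433) (nat_lit 30) (.e (nat_lit 450597) (nat_lit 17) (.e (nat_lit 663555) (nat_lit 0) .nil))))))) (.g (nat_lit 0) .nil .nil))) 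
(.lf (nat_lit 54888) (.g (nat_lit 2114) (.e (nat_lit 1399) (nat_lit 106) (.e (nat_lit 319532) (nat_lit 16) (.e (nat_lit 286734) (nat_lit 3) (.e (nat_lit 98359) (nat_lit 26) (.e (nat_lit 426211) (nat_lit 9) (.e (nat_lit 426125) (nat_lit 2) (.e (nat_lit 204544) (nat_lit 9) .nil))))))) (.g (nat_lit 4) .nil .nil))))) (.nd (nat_lit 5) (.nd (nat_lit 6) 
(.lf (nat_lit 54808) (.g (nat_lit 1167) (.e (nat_lit 1398) (nat_lit 106) (.e (nat_lit 319534) (nat_lit 16) (.e (nat_lit 286732) (nat_lit 2) .nil))) .nil)) 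
(.lf (nat_lit 54872) (.g (nat_lit 2660) (.e (nat_lit 1399) (nat_lit 106) (.e (nat_lit 319531) (nat_lit 16) (.e (nat_lit 286748) (nat_lit 9) (.e (nat_lit 336389) (nat_lit 27) (.e (nat_lit 426278) (nat_lit 10) (.e (nat_lit 434279) (nat_lit 39) (.e (nat_lit 663555) (nat_lit 0) .nil))))))) (.g (nat_lit 4) .nil .nil)))) (.nd (nat_lit 6) 
(.lf (nat_lit 54840) (.g (nat_lit 1704) (.e (nat_lit 1399) (nat_lit 106) (.e (nat_lit 319530) (nat_lit 16) (.e (nat_lit 286727) (nat_lit 0) (.e (nat_lit 1799) (nat_lit 119) .nil)))) .nil)) 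
(.lf (nat_lit 54904) (.g (nat_lit 3002) (.e (nat_lit 1399) (nat_lit 106) (.e (nat_lit 319533) (nat_lit 16) (.e (nat_lit 286733) (nat_lit 2) (.e (nat_lit 90178) (nat_lit 15) (.e (nat_lit 188458) (nat_lit 25) .nil))))) .nil)))))) (.nd (nat_lit 3) (.nd (nat_lit 4) (.nd (nat_lit 5) (.nd (nat_lit 6) 
(.lf (nat_lit 54788) (.g (nat_lit 2182) (.e (nat_lit 1398) (nat_lit 106) (.e (nat_lit 319505) (nat_lit 10) (.e (nat_lit 618) (nat_lit 48) (.e (nat_lit 557109) (nat_lit 15) (.e (nat_lit 188461) (nat_lit 26) .nil))))) .nil)) 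
(.lf (nat_lit 54852) (.g (nat_lit 2425) (.e (nat_lit 1399) (nat_lit 106) (.e (nat_lit 319530) (nat_lit 16) (.e (nat_lit 286761) (nat_lit 13) (.e (nat_lit 393282) (nat_lit 24) (.e (nat_lit 434279) (nat_lit 39) (.e (nat_lit 663555) (nat_lit 0) .nil)))))) (.g (nat_lit 5) .nil .nil)))) (.nd (nat_lit 6) 
(.lf (nat_lit 54820) (.g (nat_lit 4082) (.e (nat_lit 1399) (nat_lit 106) (.e (nat_lit 319504) (nat_lit 10) (.e (nat_lit 618) (nat_lit 48) (.e (nat_lit 557105) (nat_lit 14) (.e (nat_lit 180252) (nat_lit 10) (.e (nat_lit 573489) (nat_lit 14) (.e (nat_lit 73755) (nat_lit 8) (.e (nat_lit 564992) (nat_lit 0) .nil)))))))) (.g (nat_lit 7) .nil .nil))) 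
(.lf (nat_lit 54884) (.g (nat_lit 2820) (.e (nat_lit 1399) (nat_lit 106) (.e (nat_lit 319531) (nat_lit 16) (.e (nat_lit 286761) (nat_lit 13) (.e (nat_lit 393284) (nat_lit 24) (.e (nat_lit 434279) (nat_lit 39) (.e (nat_lit 663555) (nat_lit 0) .nil)))))) (.g (nat_lit 6) .nil .nil))))) (.nd (nat_lit 5) (.nd (nat_lit 6) 
(.lf (nat_lit 54804) (.g (nat_lit 2229) (.e (nat_lit 1398) (nat_lit 106) (.e (nat_lit 319531) (nat_lit 16) (.e (nat_lit 286735) (nat_lit 3) (.e (nat_lit 98359) (nat_lit 26) .nil)))) .nil)) 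
(.lf (nat_lit 54868) (.g (nat_lit 2945) (.e (nat_lit 1399) (nat_lit 106) (.e (nat_lit 319531) (nat_lit 16) (.e (nat_lit 286733) (nat_lit 2) (.e (nat_lit 90178) (nat_lit 15) (.e (nat_lit 188458) (nat_lit 25) (.e (nat_lit 245784) (nat_lit 9) .nil)))))) (.g (nat_lit 5) .nil .nil)))) (.nd (nat_lit 6) 
(.lf (nat_lit 54836) (.g (nat_lit 1415) (.e (nat_lit 1399) (nat_lit 106) (.e (nat_lit 319529) (nat_lit 16) (.e (nat_lit 286761) (nat_lit 13) (.e (nat_lit 393283) (nat_lit 24) .nil)))) .nil)) 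
(.lf (nat_lit 54900) (.g (nat_lit 2349) (.e (nat_lit 1399) (nat_lit 106) (.e (nat_lit 319533) (nat_lit 16) (.e (nat_lit 286732) (nat_lit 2) (.e (nat_lit 90176) (nat_lit 15) (.e (nat_lit 188456) (nat_lit 25) (.e (nat_lit 245784) (nat_lit 9) .nil)))))) (.g (nat_lit 5) .nil .nil)))))) (.nd (nat_lit 4) (.nd (nat_lit 5) (.nd (nat_lit 6) 
(.lf (nat_lit 54796) (.g (nat_lit 664) (.e (nat_lit 1398) (nat_lit 106) (.e (nat_lit 319530) (nat_lit 16) (.e (nat_lit 286761) (nat_lit 13) .nil))) .nil)) 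
(.lf (nat_lit 54860) (.g (nat_lit 1983) (.e (nat_lit 1399) (nat_lit 106) (.e (nat_lit 319530) (nat_lit 16) (.e (nat_lit 286761) (nat_lit 13) (.e (nat_lit 393284) (nat_lit 24) (.e (nat_lit 434278) (nat_lit 39) .nil))))) .nil))) (.nd (nat_lit 6) 
(.lf (nat_lit 54828) (.g (nat_lit 2117) (.e (nat_lit 1399) (nat_lit 106) (.e (nat_lit 319528) (nat_lit 16) (.e (nat_lit 286733) (nat_lit 2) (.e (nat_lit 90178) (nat_lit 15) (.e (nat_lit 188458) (nat_lit 25) (.e (nat_lit 245784) (nat_lit 9) .nil)))))) (.g (nat_lit 4) .nil .nil))) 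
(.lf (nat_lit 54892) (.g (nat_lit 1669) (.e (nat_lit 1399) (nat_lit 106) (.e (nat_lit 319532) (nat_lit 16) (.e (nat_lit 286734) (nat_lit 3) (.e (nat_lit 98374) (nat_lit 29) (.e (nat_lit 450575) (nat_lit 1) .nil))))) .nil)))) (.nd (nat_lit 5) (.nd (nat_lit 6) 
(.lf (nat_lit 54812) (.g (nat_lit 2203) (.e (nat_lit 1398) (nat_lit 106) (.e (nat_lit 319534) (nat_lit 16) (.e (nat_lit 286756) (nat_lit 10) (.e (nat_lit 344157) (nat_lit 36) (.e (nat_lit 639000) (nat_lit 9) (.e (nat_lit 188160) (nat_lit 32) .nil)))))) (.g (nat_lit 4) .nil .nil))) 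
(.lf (nat_lit 54876) (.g (nat_lit 1143) (.e (nat_lit 1399) (nat_lit 106) (.e (nat_lit 319531) (nat_lit 16) (.e (nat_lit 286761) (nat_lit 13) (.e (nat_lit 393283) (nat_lit 24) .nil)))) .nil))) (.nd (nat_lit 6) 
(.lf (nat_lit 54844) (.g (nat_lit 3077) (.e (nat_lit 1399) (nat_lit 106) (.e (nat_lit 319530) (nat_lit 16) (.e (nat_lit 286733) (nat_lit 2) (.e (nat_lit 90178) (nat_lit 15) (.e (nat_lit 188458) (nat_lit 25) (.e (nat_lit 245784) (nat_lit 9) .nil)))))) (.g (nat_lit 6) .nil .nil))) 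
(.lf (nat_lit 54908) (.g (nat_lit 2712) (.e (nat_lit 1399) (nat_lit 106) (.e (nat_lit 319533) (nat_lit 16) (.e (nat_lit 286734) (nat_lit 3) (.e (nat_lit 98370) (nat_lit 28) (.e (nat_lit 442432) (nat_lit 25) .nil))))) .nil))))))) (.nd (nat_lit 2) (.nd (nat_lit 3) (.nd (nat_lit 4) (.nd (nat_lit 5) (.nd (nat_lit 6) 
(.lf (nat_lit 54786) (.g (nat_lit 1873) (.e (nat_lit 1397) (nat_lit 106) (.e (nat_lit 319534) (nat_lit 16) (.e (nat_lit 286756) (nat_lit 10) (.e (nat_lit 344160) (nat_lit 37) .nil)))) .nil)) 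
(.lf (nat_lit 54850) (.g (nat_lit 1824) (.e (nat_lit 1399) (nat_lit 106) (.e (nat_lit 319530) (nat_lit 16) (.e (nat_lit 286761) (nat_lit 13) (.e (nat_lit 393282) (nat_lit 24) (.e (nat_lit 434276) (nat_lit 39) (.e (nat_lit 663555) (nat_lit 0) .nil)))))) (.g (nat_lit 4) .nil .nil)))) (.nd (nat_lit 6) 
(.lf (nat_lit 54818) (.g (nat_lit 2844) (.e (nat_lit 1399) (nat_lit 106) (.e (nat_lit 319490) (nat_lit 0) (.e (nat_lit 5664) (nat_lit 312) (.e (nat_lit 2826) (nat_lit 182) .nil)))) .nil)) 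
(.lf (nat_lit 54882) (.g (nat_lit 2468) (.e (nat_lit 1399) (nat_lit 106) (.e (nat_lit 319531) (nat_lit 16) (.e (nat_lit 286761) (nat_lit 13) (.e (nat_lit 393284) (nat_lit 24) (.e (nat_lit 434276) (nat_lit 39) (.e (nat_lit 663555) (nat_lit 0) .nil)))))) (.g (nat_lit 6) .nil .nil))))) (.nd (nat_lit 5) (.nd (nat_lit 6) 
(.lf (nat_lit 54802) (.g (nat_lit 2319) (.e (nat_lit 1398) (nat_lit 106) (.e (nat_lit 319531) (nat_lit 16) (.e (nat_lit 286733) (nat_lit 2) (.e (nat_lit 90178) (nat_lit 15) .nil)))) .nil)) 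
(.lf (nat_lit 54866) (.g (nat_lit 2631) (.e (nat_lit 1399) (nat_lit 106) (.e (nat_lit 319531) (nat_lit 16) (.e (nat_lit 286727) (nat_lit 0) (.e (nat_lit 1799) (nat_lit 119) (.e (nat_lit 516167) (nat_lit 12) (.e (nat_lit 450575) (nat_lit 1) (.e (nat_lit 499991) (nat_lit 14) .nil))))))) (.g (nat_lit 4) .nil .nil)))) (.nd (nat_lit 6) 
(.lf (nat_lit 54834) (.g (nat_lit 1424) (.e (nat_lit 1399) (nat_lit 106) (.e (nat_lit 319529) (nat_lit 16) (.e (nat_lit 286761) (nat_lit 13) (.e (nat_lit 393282) (nat_lit 24) .nil)))) .nil)) 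
(.lf (nat_lit 54898) (.g (nat_lit 2348) (.e (nat_lit 1399) (nat_lit 106) (.e (nat_lit 319532) (nat_lit 16) (.e (nat_lit 286761) (nat_lit 13) (.e (nat_lit 393284) (nat_lit 24) (.e (nat_lit 434279) (nat_lit 39) (.e (nat_lit 663555) (nat_lit 0) .nil)))))) (.g (nat_lit 6) .nil .nil)))))) (.nd (nat_lit 4) (.nd (nat_lit 5) (.nd (nat_lit 6) 
(.lf (nat_lit 54794) (.g (nat_lit 2272) (.e (nat_lit 1398) (nat_lit 106) (.e (nat_lit 319530) (nat_lit 16) (.e (nat_lit 286735) (nat_lit 3) (.e (nat_lit 98359) (nat_lit 26) .nil)))) .nil)) 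
(.lf (nat_lit 54858) (.g (nat_lit 1100) (.e (nat_lit 1399) (nat_lit 106) (.e (nat_lit 319530) (nat_lit 16) (.e (nat_lit 286761) (nat_lit 13) (.e (nat_lit 393284) (nat_lit 24) .nil)))) .nil))) (.nd (nat_lit 6) 
(.lf (nat_lit 54826) (.g (nat_lit 1208) (.e (nat_lit 1399) (nat_lit 106) (.e (nat_lit 319511) (nat_lit 10) (.e (nat_lit 5394) (nat_lit 301) (.e (nat_lit 57464) (nat_lit 23) (.e (nat_lit 516165) (nat_lit 12) (.e (nat_lit 450575) (nat_lit 1) (.e (nat_lit 499991) (nat_lit 14) .nil))))))) (.g (nat_lit 5) .nil .nil))) 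
(.lf (nat_lit 54890) (.g (nat_lit 2267) (.e (nat_lit 1399) (nat_lit 106) (.e (nat_lit 319532) (nat_lit 16) (.e (nat_lit 286734) (nat_lit 3) (.e (nat_lit 98372) (nat_lit 29) (.e (nat_lit 450574) (nat_lit 1) (.e (nat_lit 499991) (nat_lit 14) .nil)))))) (.g (nat_lit 5) .nil .nil))))) (.nd (nat_lit 5) (.nd (nat_lit 6) 
(.lf (nat_lit 54810) (.g (nat_lit 1966) (.e (nat_lit 1398) (nat_lit 106) (.e (nat_lit 319534) (nat_lit 16) (.e (nat_lit 286756) (nat_lit 10) (.e (nat_lit 344154) (nat_lit 35) .nil)))) .nil)) 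
(.lf (nat_lit 54874) (.g (nat_lit 1870) (.e (nat_lit 1399) (nat_lit 106) (.e (nat_lit 319531) (nat_lit 16) (.e (nat_lit 286761) (nat_lit 13) (.e (nat_lit 393282) (nat_lit 24) (.e (nat_lit 434276) (nat_lit 39) (.e (nat_lit 663555) (nat_lit 0) .nil)))))) (.g (nat_lit 4) .nil .nil)))) (.nd (nat_lit 6) 
(.lf (nat_lit 54842) (.g (nat_lit 2255) (.e (nat_lit 1399) (nat_lit 106) (.e (nat_lit 319530) (nat_lit 16) (.e (nat_lit 286727) (nat_lit 0) (.e (nat_lit 1799) (nat_lit 119) (.e (nat_lit 516167) (nat_lit 12) (.e (nat_lit 450575) (nat_lit 1) (.e (nat_lit 499991) (nat_lit 14) .nil))))))) (.g (nat_lit 4) .nil .nil))) 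
(.lf (nat_lit 54906) (.g (nat_lit 1419) (.e (nat_lit 1399) (nat_lit 106) (.e (nat_lit 319533) (nat_lit 16) (.e (nat_lit 286734) (nat_lit 3) (.e (nat_lit 98370) (nat_lit 28) .nil)))) .nil)))))) (.nd (nat_lit 3) (.nd (nat_lit 4) (.nd (nat_lit 5) (.nd (nat_lit 6) 
(.lf (nat_lit 54790) (.g (nat_lit 1005) (.e (nat_lit 1398) (nat_lit 106) (.e (nat_lit 319530) (nat_lit 16) (.e (nat_lit 286733) (nat_lit 2) .nil))) .nil)) 
(.lf (nat_lit 54854) (.g (nat_lit 1907) (.e (nat_lit 1399) (nat_lit 106) (.e (nat_lit 319530) (nat_lit 16) (.e (nat_lit 286761) (nat_lit 13) (.e (nat_lit 393283) (nat_lit 24) (.e (nat_lit 434276) (nat_lit 39) .nil))))) .nil))) (.nd (nat_lit 6) 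
(.lf (nat_lit 54822) (.g (nat_lit 4473) (.e (nat_lit 1399) (nat_lit 106) (.e (nat_lit 319505) (nat_lit 10) (.e (nat_lit 618) (nat_lit 48) (.e (nat_lit 557105) (nat_lit 14) (.e (nat_lit 180252) (nat_lit 10) (.e (nat_lit 573489) (nat_lit 14) (.e (nat_lit 73755) (nat_lit 8) (.e (nat_lit 564992) (nat_lit 0) .nil)))))))) (.g (nat_lit 7) .nil .nil))) 
(.lf (nat_lit 54886) (.g (nat_lit 2701) (.e (nat_lit 1399) (nat_lit 106) (.e (nat_lit 319532) (nat_lit 16) (.e (nat_lit 286733) (nat_lit 2) (.e (nat_lit 90178) (nat_lit 15) (.e (nat_lit 188458) (nat_lit 25) .nil))))) .nil)))) (.nd (nat_lit 5) (.nd (nat_lit 6) 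
(.lf (nat_lit 54806) (.g (nat_lit 954) (.e (nat_lit 1398) (nat_lit 106) (.e (nat_lit 319531) (nat_lit 16) (.e (nat_lit 286761) (nat_lit 13) .nil))) .nil)) 
(.lf (nat_lit 54870) (.g (nat_lit 753) (.e (nat_lit 1399) (nat_lit 106) (.e (nat_lit 319531) (nat_lit 16) (.e (nat_lit 286743) (nat_lit 9) (.e (nat_lit 336433) (nat_lit 30) .nil)))) .nil))) (.nd (nat_lit 6) 
(.lf (nat_lit 54838) (.g (nat_lit 2128) (.e (nat_lit 1399) (nat_lit 106) (.e (nat_lit 319529) (nat_lit 16) (.e (nat_lit 286761) (nat_lit 13) (.e (nat_lit 393284) (nat_lit 24) (.e (nat_lit 434276) (nat_lit 39) (.e (nat_lit 663555) (nat_lit 0) .nil)))))) (.g (nat_lit 6) .nil .nil))) 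
(.lf (nat_lit 54902) (.g (nat_lit 2394) (.e (nat_lit 1399) (nat_lit 106) (.e (nat_lit 319533) (nat_lit 16) (.e (nat_lit 286732) (nat_lit 2) (.e (nat_lit 90177) (nat_lit 15) (.e (nat_lit 188458) (nat_lit 25) (.e (nat_lit 245784) (nat_lit 9) .nil)))))) (.g (nat_lit 0) .nil .nil)))))) (.nd (nat_lit 4) (.nd (nat_lit 5) (.nd (nat_lit 6) 
(.lf (nat_lit 54798) (.g (nat_lit 1803) (.e (nat_lit 1398) (nat_lit 106) (.e (nat_lit 319530) (nat_lit 16) (.e (nat_lit 286761) (nat_lit 13) (.e (nat_lit 393289) (nat_lit 25) .nil)))) .nil)) 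
(.lf (nat_lit 54862) (.g (nat_lit 567) (.e (nat_lit 1399) (nat_lit 106) (.e (nat_lit 319531) (nat_lit 16) (.e (nat_lit 286722) (nat_lit 0) .nil))) .nil))) (.nd (nat_lit 6) 
(.lf (nat_lit 54830) (.g (nat_lit 2226) (.e (nat_lit 1399) (nat_lit 106) (.e (nat_lit 319528) (nat_lit 16) (.e (nat_lit 286761) (nat_lit 13) (.e (nat_lit 393282) (nat_lit 24) (.e (nat_lit 434279) (nat_lit 39) (.e (nat_lit 663555) (nat_lit 0) .nil)))))) (.g (nat_lit 5) .nil .nil))) 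
(.lf (nat_lit 54894) (.g (nat_lit 1858) (.e (nat_lit 1399) (nat_lit 106) (.e (nat_lit 319532) (nat_lit 16) (.e (nat_lit 286761) (nat_lit 13) (.e (nat_lit 393282) (nat_lit 24) (.e (nat_lit 434276) (nat_lit 39) .nil))))) .nil)))) (.nd (nat_lit 5) (.nd (nat_lit 6) 
(.lf (nat_lit 54814) (.g (nat_lit 2864) (.e (nat_lit 1398) (nat_lit 106) (.e (nat_lit 319538) (nat_lit 19) (.e (nat_lit 311315) (nat_lit 3) (.e (nat_lit 204846) (nat_lit 24) (.e (nat_lit 319534) (nat_lit 16) (.e (nat_lit 286728) (nat_lit 0) (.e (nat_lit 1842) (nat_lit 123) (.e (nat_lit 548874) (nat_lit 5) .nil)))))))) (.g (nat_lit 5) .nil .nil))) 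
(.lf (nat_lit 54878) (.g (nat_lit 1838) (.e (nat_lit 1399) (nat_lit 106) (.e (nat_lit 319531) (nat_lit 16) (.e (nat_lit 286761) (nat_lit 13) (.e (nat_lit 393283) (nat_lit 24) (.e (nat_lit 434276) (nat_lit 39) (.e (nat_lit 663560) (nat_lit 0) .nil)))))) (.g (nat_lit 4) .nil .nil)))) (.nd (nat_lit 6) 
(.lf (nat_lit 54846) (.g (nat_lit 391) (.e (nat_lit 1399) (nat_lit 106) (.e (nat_lit 319530) (nat_lit 16) (.e (nat_lit 286743) (nat_lit 9) .nil))) .nil)) 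
(.lf (nat_lit 54910) (.g (nat_lit 3423) (.e (nat_lit 1399) (nat_lit 106) (.e (nat_lit 319533) (nat_lit 16) (.e (nat_lit 286734) (nat_lit 3) (.e (nat_lit 98370) (nat_lit 28) (.e (nat_lit 442433) (nat_lit 25) (.e (nat_lit 245784) (nat_lit 9) .nil)))))) (.g (nat_lit 0) .nil .nil))))))))) (.nd (nat_lit 1) (.nd (nat_lit 2) (.nd (nat_lit 3) (.nd (nat_lit 4) (.nd (nat_lit 5) (.nd (nat_lit 6) 
(.lf (nat_lit 54785) (.g (nat_lit 2276) (.e (nat_lit 1397) (nat_lit 106) (.e (nat_lit 319534) (nat_lit 16) (.e (nat_lit 286756) (nat_lit 10) (.e (nat_lit 344157) (nat_lit 36) (.e (nat_lit 638985) (nat_lit 5) (.e (nat_lit 2828) (nat_lit 182) (.e (nat_lit 417536) (nat_lit 0) (.e (nat_lit 5277) (nat_lit 298) .nil)))))))) (.g (nat_lit 4) .nil .nil))) 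
(.lf (nat_lit 54849) (.g (nat_lit 1985) (.e (nat_lit 1399) (nat_lit 106) (.e (nat_lit 319530) (nat_lit 16) (.e (nat_lit 286748) (nat_lit 9) (.e (nat_lit 336389) (nat_lit 27) (.e (nat_lit 426278) (nat_lit 10) .nil))))) .nil))) (.nd (nat_lit 6) 
(.lf (nat_lit 54817) (.g (nat_lit 2823) (.e (nat_lit 1399) (nat_lit 106) (.e (nat_lit 319490) (nat_lit 0) (.e (nat_lit 5664) (nat_lit 312) (.e (nat_lit 2661) (nat_lit 167) (.e (nat_lit 196670) (nat_lit 14) (.e (nat_lit 73792) (nat_lit 45) (.e (nat_lit 1141) (nat_lit 84) (.e (nat_lit 32778) (nat_lit 5) .nil)))))))) (.g (nat_lit 4) .nil .nil))) 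
(.lf (nat_lit 54881) (.g (nat_lit 975) (.e (nat_lit 1399) (nat_lit 106) (.e (nat_lit 319531) (nat_lit 16) (.e (nat_lit 286761) (nat_lit 13) (.e (nat_lit 393284) (nat_lit 24) .nil)))) .nil)))) (.nd (nat_lit 5) (.nd (nat_lit 6) 
(.lf (nat_lit 54801) (.g (nat_lit 2725) (.e (nat_lit 1398) (nat_lit 106) (.e (nat_lit 319531) (nat_lit 16) (.e (nat_lit 286733) (nat_lit 2) (.e (nat_lit 90176) (nat_lit 15) .nil)))) .nil)) 
(.lf (nat_lit 54865) (.g (nat_lit 4051) (.e (nat_lit 1399) (nat_lit 106) (.e (nat_lit 319531) (nat_lit 16) (.e (nat_lit 286727) (nat_lit 0) (.e (nat_lit 1799) (nat_lit 119) (.e (nat_lit 516166) (nat_lit 12) (.e (nat_lit 450575) (nat_lit 1) (.e (nat_lit 499991) (nat_lit 14) .nil))))))) (.g (nat_lit 6) .nil .nil)))) (.nd (nat_lit 6) 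
(.lf (nat_lit 54833) (.g (nat_lit 1341) (.e (nat_lit 1399) (nat_lit 106) (.e (nat_lit 319529) (nat_lit 16) (.e (nat_lit 286735) (nat_lit 3) (.e (nat_lit 98372) (nat_lit 29) .nil)))) .nil)) 
(.lf (nat_lit 54897) (.g (nat_lit 2115) (.e (nat_lit 1399) (nat_lit 106) (.e (nat_lit 319532) (nat_lit 16) (.e (nat_lit 286761) (nat_lit 13) (.e (nat_lit 393284) (nat_lit 24) (.e (nat_lit 434276) (nat_lit 39) (.e (nat_lit 663555) (nat_lit 0) .nil)))))) (.g (nat_lit 6) .nil .nil)))))) (.nd (nat_lit 4) (.nd (nat_lit 5) (.nd (nat_lit 6) 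
(.lf (nat_lit 54793) (.g (nat_lit 991) (.e (nat_lit 1398) (nat_lit 106) (.e (nat_lit 319530) (nat_lit 16) (.e (nat_lit 286735) (nat_lit 3) .nil))) .nil)) 
(.lf (nat_lit 54857) (.g (nat_lit 2251) (.e (nat_lit 1399) (nat_lit 106) (.e (nat_lit 319530) (nat_lit 16) (.e (nat_lit 286761) (nat_lit 13) (.e (nat_lit 393283) (nat_lit 24) (.e (nat_lit 434279) (nat_lit 39) (.e (nat_lit 663555) (nat_lit 0) .nil)))))) (.g (nat_lit 5) .nil .nil)))) (.nd (nat_lit 6) 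
(.lf (nat_lit 54825) (.g (nat_lit 2240) (.e (nat_lit 1399) (nat_lit 106) (.e (nat_lit 319511) (nat_lit 10) (.e (nat_lit 5293) (nat_lit 298) (.e (nat_lit 1656) (nat_lit 115) (.e (nat_lit 393284) (nat_lit 24) (.e (nat_lit 434276) (nat_lit 39) (.e (nat_lit 663560) (nat_lit 0) .nil))))))) (.g (nat_lit 0) .nil .nil))) 
(.lf (nat_lit 54889) (.g (nat_lit 2516) (.e (nat_lit 1399) (nat_lit 106) (.e (nat_lit 319532) (nat_lit 16) (.e (nat_lit 286734) (nat_lit 3) (.e (nat_lit 98370) (nat_lit 28) (.e (nat_lit 442433) (nat_lit 25) (.e (nat_lit 245784) (nat_lit 9) .nil)))))) (.g (nat_lit 5) .nil .nil))))) (.nd (nat_lit 5) (.nd (nat_lit 6) 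
(.lf (nat_lit 54809) (.g (nat_lit 2048) (.e (nat_lit 1398) (nat_lit 106) (.e (nat_lit 319534) (nat_lit 16) (.e (nat_lit 286756) (nat_lit 10) (.e (nat_lit 344153) (nat_lit 35) .nil)))) .nil)) 
(.lf (nat_lit 54873) (.g (nat_lit 283) (.e (nat_lit 1399) (nat_lit 106) (.e (nat_lit 319531) (nat_lit 16) (.e (nat_lit 286761) (nat_lit 13) .nil))) .nil))) (.nd (nat_lit 6) 
(.lf (nat_lit 54841) (.g (nat_lit 4074) (.e (nat_lit 1399) (nat_lit 106) (.e (nat_lit 319530) (nat_lit 16) (.e (nat_lit 286727) (nat_lit 0) (.e (nat_lit 1799) (nat_lit 119) (.e (nat_lit 516166) (nat_lit 12) (.e (nat_lit 450574) (nat_lit 1) (.e (nat_lit 499991) (nat_lit 14) .nil))))))) (.g (nat_lit 6) .nil .nil))) 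
(.lf (nat_lit 54905) (.g (nat_lit 3303) (.e (nat_lit 1399) (nat_lit 106) (.e (nat_lit 319533) (nat_lit 16) (.e (nat_lit 286734) (nat_lit 3) (.e (nat_lit 98359) (nat_lit 26) (.e (nat_lit 426211) (nat_lit 9) (.e (nat_lit 426125) (nat_lit 2) (.e (nat_lit 204544) (nat_lit 9) .nil))))))) (.g (nat_lit 6) .nil .nil))))))) (.nd (nat_lit 3) (.nd (nat_lit 4) (.nd (nat_lit 5) (.nd (nat_lit 6) 
(.lf (nat_lit 54789) (.g (nat_lit 705) (.e (nat_lit 1398) (nat_lit 106) (.e (nat_lit 319530) (nat_lit 16) (.e (nat_lit 286727) (nat_lit 0) .nil))) .nil)) 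
(.lf (nat_lit 54853) (.g (nat_lit 1354) (.e (nat_lit 1399) (nat_lit 106) (.e (nat_lit 319530) (nat_lit 16) (.e (nat_lit 286761) (nat_lit 13) (.e (nat_lit 393283) (nat_lit 24) .nil)))) .nil))) (.nd (nat_lit 6) 
(.lf (nat_lit 54821) (.g (nat_lit 4415) (.e (nat_lit 1399) (nat_lit 106) (.e (nat_lit 319504) (nat_lit 10) (.e (nat_lit 7936) (nat_lit 313) (.e (nat_lit 8326) (nat_lit 69) (.e (nat_lit 557109) (nat_lit 15) (.e (nat_lit 188458) (nat_lit 25) (.e (nat_lit 245784) (nat_lit 9) .nil))))))) (.g (nat_lit 6) .nil .nil))) 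
(.lf (nat_lit 54885) (.g (nat_lit 2203) (.e (nat_lit 1399) (nat_lit 106) (.e (nat_lit 319532) (nat_lit 16) (.e (nat_lit 286732) (nat_lit 2) (.e (nat_lit 90178) (nat_lit 15) (.e (nat_lit 188458) (nat_lit 25) .nil))))) .nil)))) (.nd (nat_lit 5) (.nd (nat_lit 6) 
(.lf (nat_lit 54805) (.g (nat_lit 2135) (.e (nat_lit 1398) (nat_lit 106) (.e (nat_lit 319531) (nat_lit 16) (.e (nat_lit 286735) (nat_lit 3) (.e (nat_lit 98382) (nat_lit 31) .nil)))) .nil)) 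
(.lf (nat_lit 54869) (.g (nat_lit 809) (.e (nat_lit 1399) (nat_lit 106) (.e (nat_lit 319531) (nat_lit 16) (.e (nat_lit 286734) (nat_lit 3) .nil))) .nil))) (.nd (nat_lit 6) 
(.lf (nat_lit 54837) (.g (nat_lit 880) (.e (nat_lit 1399) (nat_lit 106) (.e (nat_lit 319529) (nat_lit 16) (.e (nat_lit 286761) (nat_lit 13) (.e (nat_lit 393284) (nat_lit 24) .nil)))) .nil)) 
(.lf (nat_lit 54901) (.g (nat_lit 2525) (.e (nat_lit 1399) (nat_lit 106) (.e (nat_lit 319533) (nat_lit 16) (.e (nat_lit 286732) (nat_lit 2) (.e (nat_lit 90176) (nat_lit 15) (.e (nat_lit 188458) (nat_lit 25) (.e (nat_lit 245784) (nat_lit 9) .nil)))))) (.g (nat_lit 4) .nil .nil)))))) (.nd (nat_lit 4) (.nd (nat_lit 5) (.nd (nat_lit 6) 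
(.lf (nat_lit 54797) (.g (nat_lit 2167) (.e (nat_lit 1398) (nat_lit 106) (.e (nat_lit 319530) (nat_lit 16) (.e (nat_lit 286761) (nat_lit 13) (.e (nat_lit 393234) (nat_lit 17) (.e (nat_lit 7065) (nat_lit 377) .nil))))) .nil)) 
(.lf (nat_lit 54861) (.g (nat_lit 2806) (.e (nat_lit 1399) (nat_lit 106) (.e (nat_lit 319530) (nat_lit 16) (.e (nat_lit 286761) (nat_lit 13) (.e (nat_lit 393284) (nat_lit 24) (.e (nat_lit 434279) (nat_lit 39) (.e (nat_lit 663555) (nat_lit 0) .nil)))))) (.g (nat_lit 0) .nil .nil)))) (.nd (nat_lit 6) 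
(.lf (nat_lit 54829) (.g (nat_lit 1633) (.e (nat_lit 1399) (nat_lit 106) (.e (nat_lit 319528) (nat_lit 16) (.e (nat_lit 286761) (nat_lit 13) (.e (nat_lit 393282) (nat_lit 24) (.e (nat_lit 434276) (nat_lit 39) .nil))))) .nil)) 
(.lf (nat_lit 54893) (.g (nat_lit 784) (.e (nat_lit 1399) (nat_lit 106) (.e (nat_lit 319532) (nat_lit 16) (.e (nat_lit 286743) (nat_lit 9) (.e (nat_lit 336433) (nat_lit 30) .nil)))) .nil)))) (.nd (nat_lit 5) (.nd (nat_lit 6) 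
(.lf (nat_lit 54813) (.g (nat_lit 2011) (.e (nat_lit 1398) (nat_lit 106) (.e (nat_lit 319534) (nat_lit 16) (.e (nat_lit 286756) (nat_lit 10) (.e (nat_lit 344160) (nat_lit 37) .nil)))) .nil)) 
(.lf (nat_lit 54877) (.g (nat_lit 1725) (.e (nat_lit 1399) (nat_lit 106) (.e (nat_lit 319531) (nat_lit 16) (.e (nat_lit 286761) (nat_lit 13) (.e (nat_lit 393283) (nat_lit 24) (.e (nat_lit 434276) (nat_lit 39) .nil))))) .nil))) (.nd (nat_lit 6) 
(.lf (nat_lit 54845) (.g (nat_lit 1187) (.e (nat_lit 1399) (nat_lit 106) (.e (nat_lit 319530) (nat_lit 16) (.e (nat_lit 286735) (nat_lit 3) (.e (nat_lit 98374) (nat_lit 29) .nil)))) .nil)) 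
(.lf (nat_lit 54909) (.g (nat_lit 2402) (.e (nat_lit 1399) (nat_lit 106) (.e (nat_lit 319533) (nat_lit 16) (.e (nat_lit 286734) (nat_lit 3) (.e (nat_lit 98370) (nat_lit 28) (.e (nat_lit 442433) (nat_lit 25) .nil))))) .nil))))))) (.nd (nat_lit 2) (.nd (nat_lit 3) (.nd (nat_lit 4) (.nd (nat_lit 5) (.nd (nat_lit 6) 
(.lf (nat_lit 54787) (.g (nat_lit 2593) (.e (nat_lit 1397) (nat_lit 106) (.e (nat_lit 319534) (nat_lit 16) (.e (nat_lit 286756) (nat_lit 10) (.e (nat_lit 344160) (nat_lit 37) (.e (nat_lit 647188) (nat_lit 9) .nil))))) .nil)) 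
(.lf (nat_lit 54851) (.g (nat_lit 2129) (.e (nat_lit 1399) (nat_lit 106) (.e (nat_lit 319530) (nat_lit 16) (.e (nat_lit 286761) (nat_lit 13) (.e (nat_lit 393282) (nat_lit 24) (.e (nat_lit 434276) (nat_lit 39) (.e (nat_lit 663560) (nat_lit 0) .nil)))))) (.g (nat_lit 4) .nil .nil)))) (.nd (nat_lit 6) 
(.lf (nat_lit 54819) (.g (nat_lit 2192) (.e (nat_lit 1399) (nat_lit 106) (.e (nat_lit 319490) (nat_lit 0) (.e (nat_lit 5664) (nat_lit 312) (.e (nat_lit 3085) (nat_lit 191) .nil)))) .nil)) 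
(.lf (nat_lit 54883) (.g (nat_lit 1827) (.e (nat_lit 1399) (nat_lit 106) (.e (nat_lit 319531) (nat_lit 16) (.e (nat_lit 286761) (nat_lit 13) (.e (nat_lit 393284) (nat_lit 24) (.e (nat_lit 434278) (nat_lit 39) .nil))))) .nil)))) (.nd (nat_lit 5) (.nd (nat_lit 6) 
(.lf (nat_lit 54803) (.g (nat_lit 1097) (.e (nat_lit 1398) (nat_lit 106) (.e (nat_lit 319531) (nat_lit 16) (.e (nat_lit 286735) (nat_lit 3) .nil))) .nil)) 
(.lf (nat_lit 54867) (.g (nat_lit 928) (.e (nat_lit 1399) (nat_lit 106) (.e (nat_lit 319531) (nat_lit 16) (.e (nat_lit 286732) (nat_lit 2) .nil))) .nil))) (.nd (nat_lit 6) 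
(.lf (nat_lit 54835) (.g (nat_lit 1892) (.e (nat_lit 1399) (nat_lit 106) (.e (nat_lit 319529) (nat_lit 16) (.e (nat_lit 286761) (nat_lit 13) (.e (nat_lit 393282) (nat_lit 24) (.e (nat_lit 434279) (nat_lit 39) .nil))))) .nil)) 
(.lf (nat_lit 54899) (.g (nat_lit 664) (.e (nat_lit 1399) (nat_lit 106) (.e (nat_lit 319533) (nat_lit 16) (.e (nat_lit 286720) (nat_lit 0) .nil))) .nil))))) (.nd (nat_lit 4) (.nd (nat_lit 5) (.nd (nat_lit 6) 
(.lf (nat_lit 54795) (.g (nat_lit 2161) (.e (nat_lit 1398) (nat_lit 106) (.e (nat_lit 319530) (nat_lit 16) (.e (nat_lit 286735) (nat_lit 3) (.e (nat_lit 98382) (nat_lit 31) .nil)))) .nil)) 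
(.lf (nat_lit 54859) (.g (nat_lit 2512) (.e (nat_lit 1399) (nat_lit 106) (.e (nat_lit 319530) (nat_lit 16) (.e (nat_lit 286761) (nat_lit 13) (.e (nat_lit 393284) (nat_lit 24) (.e (nat_lit 434276) (nat_lit 39) (.e (nat_lit 663555) (nat_lit 0) .nil)))))) (.g (nat_lit 6) .nil .nil)))) (.nd (nat_lit 6) 
(.lf (nat_lit 54827) (.g (nat_lit 1440) (.e (nat_lit 1399) (nat_lit 106) (.e (nat_lit 319511) (nat_lit 10) (.e (nat_lit 5394) (nat_lit 301) (.e (nat_lit 57464) (nat_lit 23) (.e (nat_lit 516166) (nat_lit 12) (.e (nat_lit 450575) (nat_lit 1) (.e (nat_lit 499991) (nat_lit 14) .nil))))))) (.g (nat_lit 5) .nil .nil))) 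
(.lf (nat_lit 54891) (.g (nat_lit 2000) (.e (nat_lit 1399) (nat_lit 106) (.e (nat_lit 319532) (nat_lit 16) (.e (nat_lit 286734) (nat_lit 3) (.e (nat_lit 98372) (nat_lit 29) (.e (nat_lit 450575) (nat_lit 1) (.e (nat_lit 499991) (nat_lit 14) .nil)))))) (.g (nat_lit 4) .nil .nil))))) (.nd (nat_lit 5) (.nd (nat_lit 6) 
(.lf (nat_lit 54811) (.g (nat_lit 1961) (.e (nat_lit 1398) (nat_lit 106) (.e (nat_lit 319534) (nat_lit 16) (.e (nat_lit 286756) (nat_lit 10) (.e (nat_lit 344157) (nat_lit 36) .nil)))) .nil)) 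
(.lf (nat_lit 54875) (.g (nat_lit 2650) (.e (nat_lit 1399) (nat_lit 106) (.e (nat_lit 319531) (nat_lit 16) (.e (nat_lit 286761) (nat_lit 13) (.e (nat_lit 393282) (nat_lit 24) (.e (nat_lit 434279) (nat_lit 39) (.e (nat_lit 663555) (nat_lit 0) .nil)))))) (.g (nat_lit 6) .nil .nil)))) (.nd (nat_lit 6) 
(.lf (nat_lit 54843) (.g (nat_lit 1170) (.e (nat_lit 1399) (nat_lit 106) (.e (nat_lit 319530) (nat_lit 16) (.e (nat_lit 286732) (nat_lit 2) .nil))) .nil)) 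
(.lf (nat_lit 54907) (.g (nat_lit 2368) (.e (nat_lit 1399) (nat_lit 106) (.e (nat_lit 319533) (nat_lit 16) (.e (nat_lit 286734) (nat_lit 3) (.e (nat_lit 98370) (nat_lit 28) (.e (nat_lit 442424) (nat_lit 22) .nil))))) .nil)))))) (.nd (nat_lit 3) (.nd (nat_lit 4) (.nd (nat_lit 5) (.nd (nat_lit 6) 
(.lf (nat_lit 54791) (.g (nat_lit 2085) (.e (nat_lit 1398) (nat_lit 106) (.e (nat_lit 319530) (nat_lit 16) (.e (nat_lit 286733) (nat_lit 2) (.e (nat_lit 90169) (nat_lit 13) .nil)))) .nil)) 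
(.lf (nat_lit 54855) (.g (nat_lit 2084) (.e (nat_lit 1399) (nat_lit 106) (.e (nat_lit 319530) (nat_lit 16) (.e (nat_lit 286761) (nat_lit 13) (.e (nat_lit 393283) (nat_lit 24) (.e (nat_lit 434276) (nat_lit 39) (.e (nat_lit 663560) (nat_lit 0) .nil)))))) (.g (nat_lit 4) .nil .nil)))) (.nd (nat_lit 6) 
(.lf (nat_lit 54823) (.g (nat_lit 576) (.e (nat_lit 1399) (nat_lit 106) (.e (nat_lit 319505) (nat_lit 10) (.e (nat_lit 720) (nat_lit 64) .nil))) .nil)) 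
(.lf (nat_lit 54887) (.g (nat_lit 361) (.e (nat_lit 1399) (nat_lit 106) (.e (nat_lit 319532) (nat_lit 16) (.e (nat_lit 286734) (nat_lit 3) .nil))) .nil)))) (.nd (nat_lit 5) (.nd (nat_lit 6) 
(.lf (nat_lit 54807) (.g (nat_lit 967) (.e (nat_lit 1398) (nat_lit 106) (.e (nat_lit 319533) (nat_lit 16) (.e (nat_lit 286753) (nat_lit 10) .nil))) .nil)) 
(.lf (nat_lit 54871) (.g (nat_lit 2234) (.e (nat_lit 1399) (nat_lit 106) (.e (nat_lit 319531) (nat_lit 16) (.e (nat_lit 286748) (nat_lit 9) (.e (nat_lit 336389) (nat_lit 27) (.e (nat_lit 426275) (nat_lit 10) (.e (nat_lit 434279) (nat_lit 39) (.e (nat_lit 663555) (nat_lit 0) .nil))))))) (.g (nat_lit 4) .nil .nil)))) (.nd (nat_lit 6) 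
(.lf (nat_lit 54839) (.g (nat_lit 1968) (.e (nat_lit 1399) (nat_lit 106) (.e (nat_lit 319529) (nat_lit 16) (.e (nat_lit 286761) (nat_lit 13) (.e (nat_lit 393284) (nat_lit 24) (.e (nat_lit 434279) (nat_lit 39) (.e (nat_lit 663555) (nat_lit 0) .nil)))))) (.g (nat_lit 5) .nil .nil))) 
(.lf (nat_lit 54903) (.g (nat_lit 2685) (.e (nat_lit 1399) (nat_lit 106) (.e (nat_lit 319533) (nat_lit 16) (.e (nat_lit 286732) (nat_lit 2) (.e (nat_lit 90178) (nat_lit 15) (.e (nat_lit 188458) (nat_lit 25) .nil))))) .nil))))) (.nd (nat_lit 4) (.nd (nat_lit 5) (.nd (nat_lit 6) 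
(.lf (nat_lit 54799) (.g (nat_lit 1113) (.e (nat_lit 1398) (nat_lit 106) (.e (nat_lit 319531) (nat_lit 16) (.e (nat_lit 286727) (nat_lit 0) .nil))) .nil)) 
(.lf (nat_lit 54863) (.g (nat_lit 939) (.e (nat_lit 1399) (nat_lit 106) (.e (nat_lit 319531) (nat_lit 16) (.e (nat_lit 286727) (nat_lit 0) .nil))) .nil))) (.nd (nat_lit 6) 
(.lf (nat_lit 54831) (.g (nat_lit 1618) (.e (nat_lit 1399) (nat_lit 106) (.e (nat_lit 319528) (nat_lit 16) (.e (nat_lit 286761) (nat_lit 13) (.e (nat_lit 393283) (nat_lit 24) (.e (nat_lit 434276) (nat_lit 39) (.e (nat_lit 663560) (nat_lit 0) .nil)))))) (.g (nat_lit 4) .nil .nil))) 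
(.lf (nat_lit 54895) (.g (nat_lit 2467) (.e (nat_lit 1399) (nat_lit 106) (.e (nat_lit 319532) (nat_lit 16) (.e (nat_lit 286761) (nat_lit 13) (.e (nat_lit 393282) (nat_lit 24) (.e (nat_lit 434279) (nat_lit 39) (.e (nat_lit 663555) (nat_lit 0) .nil)))))) (.g (nat_lit 5) .nil .nil))))) (.nd (nat_lit 5) (.nd (nat_lit 6) 
(.lf (nat_lit 54815) (.g (nat_lit 1879) (.e (nat_lit 1399) (nat_lit 106) (.e (nat_lit 319490) (nat_lit 0) (.e (nat_lit 5626) (nat_lit 312) (.e (nat_lit 2685) (nat_lit 168) .nil)))) .nil)) 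
(.lf (nat_lit 54879) (.g (nat_lit 1784) (.e (nat_lit 1399) (nat_lit 106) (.e (nat_lit 319531) (nat_lit 16) (.e (nat_lit 286761) (nat_lit 13) (.e (nat_lit 393283) (nat_lit 24) (.e (nat_lit 434278) (nat_lit 39) .nil))))) .nil))) (.nd (nat_lit 6) 
(.lf (nat_lit 54847) (.g (nat_lit 969) (.e (nat_lit 1399) (nat_lit 106) (.e (nat_lit 319530) (nat_lit 16) (.e (nat_lit 286743) (nat_lit 9) (.e (nat_lit 336433) (nat_lit 30) .nil)))) .nil)) 
(.lf (nat_lit 54911) (.g (nat_lit 1420) (.e (nat_lit 1399) (nat_lit 106) (.e (nat_lit 319533) (nat_lit 16) (.e (nat_lit 286734) (nat_lit 3) (.e (nat_lit 98371) (nat_lit 28) .nil)))) .nil)))))))))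

noncomputable def tv758 : DT := (.nd (nat_lit 0) (.nd (nat_lit 1) (.nd (nat_lit 2) (.nd (nat_lit 3) (.nd (nat_lit 4) (.nd (nat_lit 5) (.nd (nat_lit 6) 
(.lf (nat_lit 54912) (.g (nat_lit 2521) (.e (nat_lit 1399) (nat_lit 106) (.e (nat_lit 319533) (nat_lit 16) (.e (nat_lit 286734) (nat_lit 3) (.e (nat_lit 98372) (nat_lit 29) (.e (nat_lit 450575) (nat_lit 1) (.e (nat_lit 499991) (nat_lit 14) .nil)))))) (.g (nat_lit 5) .nil .nil))) 
(.lf (nat_lit 54976) (.g (nat_lit 1350) (.e (nat_lit 1399) (nat_lit 106) (.e (nat_lit 319534) (nat_lit 16) (.e (nat_lit 286756) (nat_lit 10) (.e (nat_lit 344153) (nat_lit 35) .nil)))) .nil))) (.nd (nat_lit 6) 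
(.lf (nat_lit 54944) (.g (nat_lit 803) (.e (nat_lit 1399) (nat_lit 106) (.e (nat_lit 319534) (nat_lit 16) (.e (nat_lit 286727) (nat_lit 0) .nil))) .nil)) 
(.lf (nat_lit 55008) (.g (nat_lit 4698) (.e (nat_lit 1400) (nat_lit 106) (.e (nat_lit 319505) (nat_lit 10) (.e (nat_lit 618) (nat_lit 48) (.e (nat_lit 557105) (nat_lit 14) (.e (nat_lit 180252) (nat_lit 10) (.e (nat_lit 573489) (nat_lit 14) (.e (nat_lit 73755) (nat_lit 8) (.e (nat_lit 564992) (nat_lit 0) .nil)))))))) (.g (nat_lit 7) .nil .nil))))) (.nd (nat_lit 5) (.nd (nat_lit 6) 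
(.lf (nat_lit 54928) (.g (nat_lit 2505) (.e (nat_lit 1399) (nat_lit 106) (.e (nat_lit 319533) (nat_lit 16) (.e (nat_lit 286760) (nat_lit 13) (.e (nat_lit 393282) (nat_lit 24) (.e (nat_lit 434279) (nat_lit 39) (.e (nat_lit 663555) (nat_lit 0) .nil)))))) (.g (nat_lit 0) .nil .nil))) 
(.lf (nat_lit 54992) (.g (nat_lit 960) (.e (nat_lit 1399) (nat_lit 106) (.e (nat_lit 319534) (nat_lit 16) (.e (nat_lit 286761) (nat_lit 13) (.e (nat_lit 393283) (nat_lit 24) .nil)))) .nil))) (.nd (nat_lit 6) 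
(.lf (nat_lit 54960) (.g (nat_lit 1489) (.e (nat_lit 1399) (nat_lit 106) (.e (nat_lit 319534) (nat_lit 16) (.e (nat_lit 286734) (nat_lit 3) (.e (nat_lit 98381) (nat_lit 31) (.e (nat_lit 466977) (nat_lit 22) .nil))))) .nil)) 
(.lf (nat_lit 55024) (.g (nat_lit 2476) (.e (nat_lit 1400) (nat_lit 106) (.e (nat_lit 319528) (nat_lit 16) (.e (nat_lit 286727) (nat_lit 0) (.e (nat_lit 1799) (nat_lit 119) (.e (nat_lit 516176) (nat_lit 14) (.e (nat_lit 466975) (nat_lit 22) (.e (nat_lit 196626) (nat_lit 9) .nil))))))) (.g (nat_lit 6) .nil .nil)))))) (.nd (nat_lit 4) (.nd (nat_lit 5) (.nd (nat_lit 6) 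
(.lf (nat_lit 54920) (.g (nat_lit 810) (.e (nat_lit 1399) (nat_lit 106) (.e (nat_lit 319533) (nat_lit 16) (.e (nat_lit 286748) (nat_lit 9) .nil))) .nil)) 
(.lf (nat_lit 54984) (.g (nat_lit 1777) (.e (nat_lit 1399) (nat_lit 106) (.e (nat_lit 319534) (nat_lit 16) (.e (nat_lit 286756) (nat_lit 10) (.e (nat_lit 344160) (nat_lit 37) (.e (nat_lit 647195) (nat_lit 9) .nil))))) .nil))) (.nd (nat_lit 6) 
(.lf (nat_lit 54952) (.g (nat_lit 3094) (.e (nat_lit 1399) (nat_lit 106) (.e (nat_lit 319534) (nat_lit 16) (.e (nat_lit 286734) (nat_lit 3) (.e (nat_lit 98359) (nat_lit 26) (.e (nat_lit 426211) (nat_lit 9) (.e (nat_lit 426125) (nat_lit 2) (.e (nat_lit 204544) (nat_lit 9) .nil))))))) (.g (nat_lit 6) .nil .nil))) 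
(.lf (nat_lit 55016) (.g (nat_lit 1537) (.e (nat_lit 1400) (nat_lit 106) (.e (nat_lit 319505) (nat_lit 10) (.e (nat_lit 5395) (nat_lit 301) (.e (nat_lit 57464) (nat_lit 23) (.e (nat_lit 516175) (nat_lit 14) (.e (nat_lit 466975) (nat_lit 22) (.e (nat_lit 196626) (nat_lit 9) .nil))))))) (.g (nat_lit 5) .nil .nil))))) (.nd (nat_lit 5) (.nd (nat_lit 6) 
(.lf (nat_lit 54936) (.g (nat_lit 1557) (.e (nat_lit 1399) (nat_lit 106) (.e (nat_lit 319533) (nat_lit 16) (.e (nat_lit 286761) (nat_lit 13) (.e (nat_lit 393283) (nat_lit 24) .nil)))) .nil)) 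
(.lf (nat_lit 55000) (.g (nat_lit 2875) (.e (nat_lit 1399) (nat_lit 106) (.e (nat_lit 319535) (nat_lit 17) (.e (nat_lit 294931) (nat_lit 3) (.e (nat_lit 98373) (nat_lit 29) (.e (nat_lit 450575) (nat_lit 1) .nil))))) .nil))) (.nd (nat_lit 6) 
(.lf (nat_lit 54968) (.g (nat_lit 2552) (.e (nat_lit 1399) (nat_lit 106) (.e (nat_lit 319534) (nat_lit 16) (.e (nat_lit 286735) (nat_lit 3) (.e (nat_lit 98373) (nat_lit 29) (.e (nat_lit 450575) (nat_lit 1) .nil))))) .nil)) 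
(.lf (nat_lit 55032) (.g (nat_lit 2854) (.e (nat_lit 1400) (nat_lit 106) (.e (nat_lit 319528) (nat_lit 16) (.e (nat_lit 286761) (nat_lit 13) (.e (nat_lit 393234) (nat_lit 17) (.e (nat_lit 7065) (nat_lit 377) (.e (nat_lit 1112) (nat_lit 82) (.e (nat_lit 8433) (nat_lit 138) (.e (nat_lit 999) (nat_lit 81) .nil)))))))) (.g (nat_lit 5) .nil .nil))))))) 
(.nd (nat_lit 3) (.nd (nat_lit 4) (.nd (nat_lit 5) (.nd (nat_lit 6) 
(.lf (nat_lit 54916) (.g (nat_lit 2648) (.e (nat_lit 1399) (nat_lit 106) (.e (nat_lit 319533) (nat_lit 16) (.e (nat_lit 286735) (nat_lit 3) (.e (nat_lit 98370) (nat_lit 28) (.e (nat_lit 442433) (nat_lit 25) .nil))))) .nil)) 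
(.lf (nat_lit 54980) (.g (nat_lit 2098) (.e (nat_lit 1399) (nat_lit 106) (.e (nat_lit 319534) (nat_lit 16) (.e (nat_lit 286756) (nat_lit 10) (.e (nat_lit 344156) (nat_lit 36) (.e (nat_lit 638998) (nat_lit 8) (.e (nat_lit 172041) (nat_lit 0) (.e (nat_lit 7540) (nat_lit 402) .nil))))))) (.g (nat_lit 4) .nil .nil)))) (.nd (nat_lit 6) 
(.lf (nat_lit 54948) (.g (nat_lit 289) (.e (nat_lit 1399) (nat_lit 106) (.e (nat_lit 319534) (nat_lit 16) (.e (nat_lit 286733) (nat_lit 2) .nil))) .nil)) 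
(.lf (nat_lit 55012) (.g (nat_lit 3805) (.e (nat_lit 1400) (nat_lit 106) (.e (nat_lit 319505) (nat_lit 10) (.e (nat_lit 618) (nat_lit 48) (.e (nat_lit 557109) (nat_lit 15) (.e (nat_lit 188427) (nat_lit 20) (.e (nat_lit 3572) (nat_lit 222) (.e (nat_lit 737284) (nat_lit 0) (.e (nat_lit 5271) (nat_lit 298) .nil)))))))) (.g (nat_lit 8) .nil .nil))))) (.nd (nat_lit 5) (.nd (nat_lit 6) 
(.lf (nat_lit 54932) (.g (nat_lit 2249) (.e (nat_lit 1399) (nat_lit 106) (.e (nat_lit 319533) (nat_lit 16) (.e (nat_lit 286760) (nat_lit 13) (.e (nat_lit 393284) (nat_lit 24) (.e (nat_lit 434276) (nat_lit 39) (.e (nat_lit 663555) (nat_lit 0) .nil)))))) (.g (nat_lit 0) .nil .nil))) 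
(.lf (nat_lit 54996) (.g (nat_lit 2161) (.e (nat_lit 1399) (nat_lit 106) (.e (nat_lit 319534) (nat_lit 16) (.e (nat_lit 286761) (nat_lit 13) (.e (nat_lit 393284) (nat_lit 24) (.e (nat_lit 434276) (nat_lit 39) (.e (nat_lit 663555) (nat_lit 0) .nil)))))) (.g (nat_lit 5) .nil .nil)))) (.nd (nat_lit 6) 
(.lf (nat_lit 54964) (.g (nat_lit 1573) (.e (nat_lit 1399) (nat_lit 106) (.e (nat_lit 319534) (nat_lit 16) (.e (nat_lit 286735) (nat_lit 3) (.e (nat_lit 98371) (nat_lit 28) (.e (nat_lit 442433) (nat_lit 25) .nil))))) .nil)) 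
(.lf (nat_lit 55028) (.g (nat_lit 1662) (.e (nat_lit 1400) (nat_lit 106) (.e (nat_lit 319528) (nat_lit 16) (.e (nat_lit 286735) (nat_lit 3) (.e (nat_lit 98353) (nat_lit 25) (.e (nat_lit 417813) (nat_lit 9) (.e (nat_lit 311312) (nat_lit 2) (.e (nat_lit 196626) (nat_lit 9) .nil))))))) (.g (nat_lit 4) .nil .nil)))))) (.nd (nat_lit 4) (.nd (nat_lit 5) (.nd (nat_lit 6) 
(.lf (nat_lit 54924) (.g (nat_lit 867) (.e (nat_lit 1399) (nat_lit 106) (.e (nat_lit 319533) (nat_lit 16) (.e (nat_lit 286753) (nat_lit 10) (.e (nat_lit 344154) (nat_lit 35) .nil)))) .nil)) 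
(.lf (nat_lit 54988) (.g (nat_lit 2077) (.e (nat_lit 1399) (nat_lit 106) (.e (nat_lit 319534) (nat_lit 16) (.e (nat_lit 286760) (nat_lit 13) (.e (nat_lit 393284) (nat_lit 24) (.e (nat_lit 434276) (nat_lit 39) (.e (nat_lit 663560) (nat_lit 0) .nil)))))) (.g (nat_lit 4) .nil .nil)))) (.nd (nat_lit 6) 
(.lf (nat_lit 54956) (.g (nat_lit 1978) (.e (nat_lit 1399) (nat_lit 106) (.e (nat_lit 319534) (nat_lit 16) (.e (nat_lit 286734) (nat_lit 3) (.e (nat_lit 98370) (nat_lit 28) (.e (nat_lit 442433) (nat_lit 25) .nil))))) .nil)) 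
(.lf (nat_lit 55020) (.g (nat_lit 2675) (.e (nat_lit 1400) (nat_lit 106) (.e (nat_lit 319511) (nat_lit 10) (.e (nat_lit 5394) (nat_lit 301) (.e (nat_lit 57464) (nat_lit 23) (.e (nat_lit 516174) (nat_lit 14) (.e (nat_lit 466975) (nat_lit 22) (.e (nat_lit 196626) (nat_lit 9) .nil))))))) (.g (nat_lit 7) .nil .nil))))) (.nd (nat_lit 5) (.nd (nat_lit 6) 
(.lf (nat_lit 54940) (.g (nat_lit 2679) (.e (nat_lit 1399) (nat_lit 106) (.e (nat_lit 319533) (nat_lit 16) (.e (nat_lit 286761) (nat_lit 13) (.e (nat_lit 393283) (nat_lit 24) (.e (nat_lit 434279) (nat_lit 39) (.e (nat_lit 663555) (nat_lit 0) .nil)))))) (.g (nat_lit 5) .nil .nil))) 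
(.lf (nat_lit 55004) (.g (nat_lit 2730) (.e (nat_lit 1399) (nat_lit 106) (.e (nat_lit 319536) (nat_lit 17) (.e (nat_lit 294931) (nat_lit 3) (.e (nat_lit 98373) (nat_lit 29) (.e (nat_lit 450574) (nat_lit 1) (.e (nat_lit 499991) (nat_lit 14) .nil)))))) (.g (nat_lit 4) .nil .nil)))) (.nd (nat_lit 6) 
(.lf (nat_lit 54972) (.g (nat_lit 1448) (.e (nat_lit 1399) (nat_lit 106) (.e (nat_lit 319534) (nat_lit 16) (.e (nat_lit 286749) (nat_lit 9) (.e (nat_lit 343808) (nat_lit 30) .nil)))) .nil)) 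
(.lf (nat_lit 55036) (.g (nat_lit 1187) (.e (nat_lit 1400) (nat_lit 106) (.e (nat_lit 319529) (nat_lit 16) (.e (nat_lit 286735) (nat_lit 3) (.e (nat_lit 98353) (nat_lit 25) .nil)))) .nil))))))) (.nd (nat_lit 2) (.nd (nat_lit 3) (.nd (nat_lit 4) (.nd (nat_lit 5) (.nd (nat_lit 6) 
(.lf (nat_lit 54914) (.g (nat_lit 1517) (.e (nat_lit 1399) (nat_lit 106) (.e (nat_lit 319533) (nat_lit 16) (.e (nat_lit 286734) (nat_lit 3) (.e (nat_lit 98381) (nat_lit 31) .nil)))) .nil)) 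
(.lf (nat_lit 54978) (.g (nat_lit 1655) (.e (nat_lit 1399) (nat_lit 106) (.e (nat_lit 319534) (nat_lit 16) (.e (nat_lit 286756) (nat_lit 10) (.e (nat_lit 344154) (nat_lit 35) (.e (nat_lit 630803) (nat_lit 9) (.e (nat_lit 188160) (nat_lit 32) .nil)))))) (.g (nat_lit 4) .nil .nil)))) (.nd (nat_lit 6) 
(.lf (nat_lit 54946) (.g (nat_lit 2534) (.e (nat_lit 1399) (nat_lit 106) (.e (nat_lit 319534) (nat_lit 16) (.e (nat_lit 286732) (nat_lit 2) (.e (nat_lit 90176) (nat_lit 15) (.e (nat_lit 188458) (nat_lit 25) (.e (nat_lit 245784) (nat_lit 9) .nil)))))) (.g (nat_lit 5) .nil .nil))) 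
(.lf (nat_lit 55010) (.g (nat_lit 2586) (.e (nat_lit 1400) (nat_lit 106) (.e (nat_lit 319505) (nat_lit 10) (.e (nat_lit 618) (nat_lit 48) (.e (nat_lit 557109) (nat_lit 15) (.e (nat_lit 188425) (nat_lit 20) (.e (nat_lit 3572) (nat_lit 222) (.e (nat_lit 737284) (nat_lit 0) (.e (nat_lit 5271) (nat_lit 298) .nil)))))))) (.g (nat_lit 4) .nil .nil))))) (.nd (nat_lit 5) (.nd (nat_lit 6) 
(.lf (nat_lit 54930) (.g (nat_lit 2009) (.e (nat_lit 1399) (nat_lit 106) (.e (nat_lit 319533) (nat_lit 16) (.e (nat_lit 286760) (nat_lit 13) (.e (nat_lit 393283) (nat_lit 24) (.e (nat_lit 434279) (nat_lit 39) (.e (nat_lit 663555) (nat_lit 0) .nil)))))) (.g (nat_lit 5) .nil .nil))) 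
(.lf (nat_lit 54994) (.g (nat_lit 1782) (.e (nat_lit 1399) (nat_lit 106) (.e (nat_lit 319534) (nat_lit 16) (.e (nat_lit 286761) (nat_lit 13) (.e (nat_lit 393283) (nat_lit 24) (.e (nat_lit 434278) (nat_lit 39) (.e (nat_lit 663555) (nat_lit 0) .nil)))))) (.g (nat_lit 4) .nil .nil)))) (.nd (nat_lit 6) 
(.lf (nat_lit 54962) (.g (nat_lit 1036) (.e (nat_lit 1399) (nat_lit 106) (.e (nat_lit 319534) (nat_lit 16) (.e (nat_lit 286735) (nat_lit 3) (.e (nat_lit 98370) (nat_lit 28) .nil)))) .nil)) 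
(.lf (nat_lit 55026) (.g (nat_lit 2476) (.e (nat_lit 1400) (nat_lit 106) (.e (nat_lit 319528) (nat_lit 16) (.e (nat_lit 286727) (nat_lit 0) (.e (nat_lit 1799) (nat_lit 119) (.e (nat_lit 516177) (nat_lit 14) (.e (nat_lit 466977) (nat_lit 22) (.e (nat_lit 196626) (nat_lit 9) .nil))))))) (.g (nat_lit 6) .nil .nil)))))) (.nd (nat_lit 4) (.nd (nat_lit 5) (.nd (nat_lit 6) 
(.lf (nat_lit 54922) (.g (nat_lit 1128) (.e (nat_lit 1399) (nat_lit 106) (.e (nat_lit 319533) (nat_lit 16) (.e (nat_lit 286753) (nat_lit 10) (.e (nat_lit 344089) (nat_lit 18) (.e (nat_lit 5166) (nat_lit 292) .nil))))) .nil)) 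
(.lf (nat_lit 54986) (.g (nat_lit 2022) (.e (nat_lit 1399) (nat_lit 106) (.e (nat_lit 319534) (nat_lit 16) (.e (nat_lit 286760) (nat_lit 13) (.e (nat_lit 393282) (nat_lit 24) (.e (nat_lit 434276) (nat_lit 39) .nil))))) .nil))) (.nd (nat_lit 6) 
(.lf (nat_lit 54954) (.g (nat_lit 2195) (.e (nat_lit 1399) (nat_lit 106) (.e (nat_lit 319534) (nat_lit 16) (.e (nat_lit 286734) (nat_lit 3) (.e (nat_lit 98370) (nat_lit 28) (.e (nat_lit 442424) (nat_lit 22) .nil))))) .nil)) 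
(.lf (nat_lit 55018) (.g (nat_lit 1522) (.e (nat_lit 1400) (nat_lit 106) (.e (nat_lit 319505) (nat_lit 10) (.e (nat_lit 7936) (nat_lit 304) (.e (nat_lit 122936) (nat_lit 23) (.e (nat_lit 516174) (nat_lit 14) (.e (nat_lit 466975) (nat_lit 22) (.e (nat_lit 196626) (nat_lit 9) .nil))))))) (.g (nat_lit 5) .nil .nil))))) (.nd (nat_lit 5) (.nd (nat_lit 6) 
(.lf (nat_lit 54938) (.g (nat_lit 2231) (.e (nat_lit 1399) (nat_lit 106) (.e (nat_lit 319533) (nat_lit 16) (.e (nat_lit 286761) (nat_lit 13) (.e (nat_lit 393283) (nat_lit 24) (.e (nat_lit 434276) (nat_lit 39) (.e (nat_lit 663560) (nat_lit 0) .nil)))))) (.g (nat_lit 4) .nil .nil))) 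
(.lf (nat_lit 55002) (.g (nat_lit 231) (.e (nat_lit 1399) (nat_lit 106) (.e (nat_lit 319536) (nat_lit 17) (.e (nat_lit 294928) (nat_lit 2) .nil))) .nil))) (.nd (nat_lit 6) 
(.lf (nat_lit 54970) (.g (nat_lit 952) (.e (nat_lit 1399) (nat_lit 106) (.e (nat_lit 319534) (nat_lit 16) (.e (nat_lit 286743) (nat_lit 9) (.e (nat_lit 336433) (nat_lit 30) .nil)))) .nil)) 
(.lf (nat_lit 55034) (.g (nat_lit 1156) (.e (nat_lit 1400) (nat_lit 106) (.e (nat_lit 319528) (nat_lit 16) (.e (nat_lit 286761) (nat_lit 13) (.e (nat_lit 393284) (nat_lit 24) .nil)))) .nil)))))) (.nd (nat_lit 3) (.nd (nat_lit 4) (.nd (nat_lit 5) (.nd (nat_lit 6) 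
(.lf (nat_lit 54918) (.g (nat_lit 1452) (.e (nat_lit 1399) (nat_lit 106) (.e (nat_lit 319533) (nat_lit 16) (.e (nat_lit 286742) (nat_lit 9) (.e (nat_lit 336433) (nat_lit 30) (.e (nat_lit 450597) (nat_lit 17) (.e (nat_lit 663555) (nat_lit 0) .nil)))))) (.g (nat_lit 0) .nil .nil))) 
(.lf (nat_lit 54982) (.g (nat_lit 1444) (.e (nat_lit 1399) (nat_lit 106) (.e (nat_lit 319534) (nat_lit 16) (.e (nat_lit 286756) (nat_lit 10) (.e (nat_lit 344157) (nat_lit 36) (.e (nat_lit 638999) (nat_lit 8) .nil))))) .nil))) (.nd (nat_lit 6) 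
(.lf (nat_lit 54950) (.g (nat_lit 2680) (.e (nat_lit 1399) (nat_lit 106) (.e (nat_lit 319534) (nat_lit 16) (.e (nat_lit 286733) (nat_lit 2) (.e (nat_lit 90178) (nat_lit 15) (.e (nat_lit 188458) (nat_lit 25) (.e (nat_lit 245784) (nat_lit 9) .nil)))))) (.g (nat_lit 5) .nil .nil))) 
(.lf (nat_lit 55014) (.g (nat_lit 436) (.e (nat_lit 1400) (nat_lit 106) (.e (nat_lit 319505) (nat_lit 10) (.e (nat_lit 5395) (nat_lit 301) .nil))) .nil)))) (.nd (nat_lit 5) (.nd (nat_lit 6) 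
(.lf (nat_lit 54934) (.g (nat_lit 1574) (.e (nat_lit 1399) (nat_lit 106) (.e (nat_lit 319533) (nat_lit 16) (.e (nat_lit 286761) (nat_lit 13) (.e (nat_lit 393282) (nat_lit 24) .nil)))) .nil)) 
(.lf (nat_lit 54998) (.g (nat_lit 361) (.e (nat_lit 1399) (nat_lit 106) (.e (nat_lit 319535) (nat_lit 17) (.e (nat_lit 294928) (nat_lit 2) .nil))) .nil))) (.nd (nat_lit 6) 
(.lf (nat_lit 54966) (.g (nat_lit 588) (.e (nat_lit 1399) (nat_lit 106) (.e (nat_lit 319534) (nat_lit 16) (.e (nat_lit 286735) (nat_lit 3) (.e (nat_lit 98373) (nat_lit 29) .nil)))) .nil)) 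
(.lf (nat_lit 55030) (.g (nat_lit 2522) (.e (nat_lit 1400) (nat_lit 106) (.e (nat_lit 319528) (nat_lit 16) (.e (nat_lit 286735) (nat_lit 3) (.e (nat_lit 98382) (nat_lit 31) (.e (nat_lit 466974) (nat_lit 22) (.e (nat_lit 196626) (nat_lit 9) .nil)))))) (.g (nat_lit 5) .nil .nil)))))) (.nd (nat_lit 4) (.nd (nat_lit 5) (.nd (nat_lit 6) 
(.lf (nat_lit 54926) (.g (nat_lit 897) (.e (nat_lit 1399) (nat_lit 106) (.e (nat_lit 319533) (nat_lit 16) (.e (nat_lit 286753) (nat_lit 10) (.e (nat_lit 344157) (nat_lit 36) .nil)))) .nil)) 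
(.lf (nat_lit 54990) (.g (nat_lit 1784) (.e (nat_lit 1399) (nat_lit 106) (.e (nat_lit 319534) (nat_lit 16) (.e (nat_lit 286761) (nat_lit 13) (.e (nat_lit 393282) (nat_lit 24) (.e (nat_lit 434276) (nat_lit 39) (.e (nat_lit 663555) (nat_lit 0) .nil)))))) (.g (nat_lit 4) .nil .nil)))) (.nd (nat_lit 6) 
(.lf (nat_lit 54958) (.g (nat_lit 2763) (.e (nat_lit 1399) (nat_lit 106) (.e (nat_lit 319534) (nat_lit 16) (.e (nat_lit 286734) (nat_lit 3) (.e (nat_lit 98372) (nat_lit 29) (.e (nat_lit 450575) (nat_lit 1) .nil))))) .nil)) 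
(.lf (nat_lit 55022) (.g (nat_lit 2585) (.e (nat_lit 1400) (nat_lit 106) (.e (nat_lit 319511) (nat_lit 10) (.e (nat_lit 5394) (nat_lit 301) (.e (nat_lit 57464) (nat_lit 23) (.e (nat_lit 516176) (nat_lit 14) (.e (nat_lit 466975) (nat_lit 22) (.e (nat_lit 196626) (nat_lit 9) .nil))))))) (.g (nat_lit 6) .nil .nil))))) (.nd (nat_lit 5) (.nd (nat_lit 6) 
(.lf (nat_lit 54942) (.g (nat_lit 2681) (.e (nat_lit 1399) (nat_lit 106) (.e (nat_lit 319533) (nat_lit 16) (.e (nat_lit 286761) (nat_lit 13) (.e (nat_lit 393284) (nat_lit 24) (.e (nat_lit 434279) (nat_lit 39) (.e (nat_lit 663555) (nat_lit 0) .nil)))))) (.g (nat_lit 6) .nil .nil))) 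
(.lf (nat_lit 55006) (.g (nat_lit 2064) (.e (nat_lit 1400) (nat_lit 106) (.e (nat_lit 319504) (nat_lit 10) (.e (nat_lit 5395) (nat_lit 301) (.e (nat_lit 57464) (nat_lit 23) (.e (nat_lit 516174) (nat_lit 14) (.e (nat_lit 466975) (nat_lit 22) (.e (nat_lit 196626) (nat_lit 9) .nil))))))) (.g (nat_lit 5) .nil .nil)))) (.nd (nat_lit 6) 
(.lf (nat_lit 54974) (.g (nat_lit 1883) (.e (nat_lit 1399) (nat_lit 106) (.e (nat_lit 319534) (nat_lit 16) (.e (nat_lit 286756) (nat_lit 10) (.e (nat_lit 344090) (nat_lit 18) (.e (nat_lit 6923) (nat_lit 371) .nil))))) .nil)) 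
(.lf (nat_lit 55038) (.g (nat_lit 4016) (.e (nat_lit 1400) (nat_lit 106) (.e (nat_lit 319530) (nat_lit 16) (.e (nat_lit 286727) (nat_lit 0) (.e (nat_lit 1799) (nat_lit 119) (.e (nat_lit 516174) (nat_lit 14) (.e (nat_lit 466975) (nat_lit 22) (.e (nat_lit 196626) (nat_lit 9) .nil))))))) (.g (nat_lit 6) .nil .nil))))))))) 
(.nd (nat_lit 1) (.nd (nat_lit 2) (.nd (nat_lit 3) (.nd (nat_lit 4) (.nd (nat_lit 5) 
(.nd (nat_lit 6) 
(.lf (nat_lit 54913) (.g (nat_lit 2812) (.e (nat_lit 1399) (nat_lit 106) (.e (nat_lit 319533) (nat_lit 16) (.e (nat_lit 286734) (nat_lit 3) (.e (nat_lit 98373) (nat_lit 29) (.e (nat_lit 450575) (nat_lit 1) .nil))))) .nil)) 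
(.lf (nat_lit 54977) (.g (nat_lit 1248) (.e (nat_lit 1399) (nat_lit 106) (.e (nat_lit 319534) (nat_lit 16) (.e (nat_lit 286756) (nat_lit 10) (.e (nat_lit 344154) (nat_lit 35) .nil)))) .nil))) (.nd (nat_lit 6) 
(.lf (nat_lit 54945) (.g (nat_lit 2405) (.e (nat_lit 1399) (nat_lit 106) (.e (nat_lit 319534) (nat_lit 16) (.e (nat_lit 286732) (nat_lit 2) (.e (nat_lit 90176) (nat_lit 15) (.e (nat_lit 188456) (nat_lit 25) (.e (nat_lit 245784) (nat_lit 9) .nil)))))) (.g (nat_lit 6) .nil .nil))) 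
(.lf (nat_lit 55009) (.g (nat_lit 1935) (.e (nat_lit 1400) (nat_lit 106) (.e (nat_lit 319505) (nat_lit 10) (.e (nat_lit 618) (nat_lit 48) (.e (nat_lit 557107) (nat_lit 15) (.e (nat_lit 188431) (nat_lit 20) .nil))))) .nil)))) (.nd (nat_lit 5) (.nd (nat_lit 6) 
(.lf (nat_lit 54929) (.g (nat_lit 1523) (.e (nat_lit 1399) (nat_lit 106) (.e (nat_lit 319533) (nat_lit 16) (.e (nat_lit 286760) (nat_lit 13) (.e (nat_lit 393283) (nat_lit 24) (.e (nat_lit 434276) (nat_lit 39) .nil))))) .nil)) 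
(.lf (nat_lit 54993) (.g (nat_lit 2147) (.e (nat_lit 1399) (nat_lit 106) (.e (nat_lit 319534) (nat_lit 16) (.e (nat_lit 286761) (nat_lit 13) (.e (nat_lit 393283) (nat_lit 24) (.e (nat_lit 434276) (nat_lit 39) (.e (nat_lit 663560) (nat_lit 0) .nil)))))) (.g (nat_lit 5) .nil .nil)))) (.nd (nat_lit 6) 
(.lf (nat_lit 54961) (.g (nat_lit 296) (.e (nat_lit 1399) (nat_lit 106) (.e (nat_lit 319534) (nat_lit 16) (.e (nat_lit 286735) (nat_lit 3) .nil))) .nil)) 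
(.lf (nat_lit 55025) (.g (nat_lit 2425) (.e (nat_lit 1400) (nat_lit 106) (.e (nat_lit 319528) (nat_lit 16) (.e (nat_lit 286727) (nat_lit 0) (.e (nat_lit 1799) (nat_lit 119) (.e (nat_lit 516177) (nat_lit 14) (.e (nat_lit 466974) (nat_lit 22) (.e (nat_lit 196626) (nat_lit 9) .nil))))))) (.g (nat_lit 6) .nil .nil)))))) (.nd (nat_lit 4) (.nd (nat_lit 5) (.nd (nat_lit 6) 
(.lf (nat_lit 54921) (.g (nat_lit 1367) (.e (nat_lit 1399) (nat_lit 106) (.e (nat_lit 319533) (nat_lit 16) (.e (nat_lit 286753) (nat_lit 10) (.e (nat_lit 344088) (nat_lit 18) (.e (nat_lit 6923) (nat_lit 371) .nil))))) .nil)) 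
(.lf (nat_lit 54985) (.g (nat_lit 697) (.e (nat_lit 1399) (nat_lit 106) (.e (nat_lit 319534) (nat_lit 16) (.e (nat_lit 286760) (nat_lit 13) .nil))) .nil))) (.nd (nat_lit 6) 
(.lf (nat_lit 54953) (.g (nat_lit 1306) (.e (nat_lit 1399) (nat_lit 106) (.e (nat_lit 319534) (nat_lit 16) (.e (nat_lit 286734) (nat_lit 3) (.e (nat_lit 98370) (nat_lit 28) .nil)))) .nil)) 
(.lf (nat_lit 55017) (.g (nat_lit 362) (.e (nat_lit 1400) (nat_lit 106) (.e (nat_lit 319505) (nat_lit 10) (.e (nat_lit 7936) (nat_lit 301) .nil))) .nil)))) (.nd (nat_lit 5) (.nd (nat_lit 6) 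
(.lf (nat_lit 54937) (.g (nat_lit 2089) (.e (nat_lit 1399) (nat_lit 106) (.e (nat_lit 319533) (nat_lit 16) (.e (nat_lit 286761) (nat_lit 13) (.e (nat_lit 393283) (nat_lit 24) (.e (nat_lit 434276) (nat_lit 39) .nil))))) .nil)) 
(.lf (nat_lit 55001) (.g (nat_lit 1886) (.e (nat_lit 1399) (nat_lit 106) (.e (nat_lit 319535) (nat_lit 17) (.e (nat_lit 294931) (nat_lit 3) (.e (nat_lit 98374) (nat_lit 29) (.e (nat_lit 450575) (nat_lit 1) .nil))))) .nil))) (.nd (nat_lit 6) 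
(.lf (nat_lit 54969) (.g (nat_lit 743) (.e (nat_lit 1399) (nat_lit 106) (.e (nat_lit 319534) (nat_lit 16) (.e (nat_lit 286742) (nat_lit 9) .nil))) .nil)) 
(.lf (nat_lit 55033) (.g (nat_lit 1187) (.e (nat_lit 1400) (nat_lit 106) (.e (nat_lit 319528) (nat_lit 16) (.e (nat_lit 286761) (nat_lit 13) (.e (nat_lit 393264) (nat_lit 22) .nil)))) .nil)))))) (.nd (nat_lit 3) (.nd (nat_lit 4) (.nd (nat_lit 5) (.nd (nat_lit 6) 
(.lf (nat_lit 54917) (.g (nat_lit 2501) (.e (nat_lit 1399) (nat_lit 106) (.e (nat_lit 319533) (nat_lit 16) (.e (nat_lit 286735) (nat_lit 3) (.e (nat_lit 98372) (nat_lit 29) (.e (nat_lit 450575) (nat_lit 1) (.e (nat_lit 499991) (nat_lit 14) .nil)))))) (.g (nat_lit 5) .nil .nil))) 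
(.lf (nat_lit 54981) (.g (nat_lit 1270) (.e (nat_lit 1399) (nat_lit 106) (.e (nat_lit 319534) (nat_lit 16) (.e (nat_lit 286756) (nat_lit 10) (.e (nat_lit 344157) (nat_lit 36) .nil)))) .nil))) (.nd (nat_lit 6) 
(.lf (nat_lit 54949) (.g (nat_lit 2240) (.e (nat_lit 1399) (nat_lit 106) (.e (nat_lit 319534) (nat_lit 16) (.e (nat_lit 286733) (nat_lit 2) (.e (nat_lit 90176) (nat_lit 15) (.e (nat_lit 188458) (nat_lit 25) (.e (nat_lit 245784) (nat_lit 9) .nil)))))) (.g (nat_lit 4) .nil .nil))) 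
(.lf (nat_lit 55013) (.g (nat_lit 2047) (.e (nat_lit 1400) (nat_lit 106) (.e (nat_lit 319505) (nat_lit 10) (.e (nat_lit 618) (nat_lit 48) (.e (nat_lit 557109) (nat_lit 15) (.e (nat_lit 188461) (nat_lit 26) (.e (nat_lit 261888) (nat_lit 15) (.e (nat_lit 57876) (nat_lit 270) .nil))))))) (.g (nat_lit 4) .nil .nil))))) (.nd (nat_lit 5) (.nd (nat_lit 6) 
(.lf (nat_lit 54933) (.g (nat_lit 2075) (.e (nat_lit 1399) (nat_lit 106) (.e (nat_lit 319533) (nat_lit 16) (.e (nat_lit 286760) (nat_lit 13) (.e (nat_lit 393284) (nat_lit 24) (.e (nat_lit 434279) (nat_lit 39) (.e (nat_lit 663555) (nat_lit 0) .nil)))))) (.g (nat_lit 6) .nil .nil))) 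
(.lf (nat_lit 54997) (.g (nat_lit 2251) (.e (nat_lit 1399) (nat_lit 106) (.e (nat_lit 319534) (nat_lit 16) (.e (nat_lit 286761) (nat_lit 13) (.e (nat_lit 393284) (nat_lit 24) (.e (nat_lit 434279) (nat_lit 39) (.e (nat_lit 663555) (nat_lit 0) .nil)))))) (.g (nat_lit 5) .nil .nil)))) (.nd (nat_lit 6) 
(.lf (nat_lit 54965) (.g (nat_lit 2645) (.e (nat_lit 1399) (nat_lit 106) (.e (nat_lit 319534) (nat_lit 16) (.e (nat_lit 286735) (nat_lit 3) (.e (nat_lit 98372) (nat_lit 29) (.e (nat_lit 450575) (nat_lit 1) (.e (nat_lit 499991) (nat_lit 14) .nil)))))) (.g (nat_lit 6) .nil .nil))) 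
(.lf (nat_lit 55029) (.g (nat_lit 1078) (.e (nat_lit 1400) (nat_lit 106) (.e (nat_lit 319528) (nat_lit 16) (.e (nat_lit 286735) (nat_lit 3) (.e (nat_lit 98380) (nat_lit 31) .nil)))) .nil))))) (.nd (nat_lit 4) (.nd (nat_lit 5) (.nd (nat_lit 6) 
(.lf (nat_lit 54925) (.g (nat_lit 1391) (.e (nat_lit 1399) (nat_lit 106) (.e (nat_lit 319533) (nat_lit 16) (.e (nat_lit 286753) (nat_lit 10) (.e (nat_lit 344154) (nat_lit 35) (.e (nat_lit 630803) (nat_lit 9) (.e (nat_lit 188160) (nat_lit 32) .nil)))))) (.g (nat_lit 5) .nil .nil))) 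
(.lf (nat_lit 54989) (.g (nat_lit 417) (.e (nat_lit 1399) (nat_lit 106) (.e (nat_lit 319534) (nat_lit 16) (.e (nat_lit 286761) (nat_lit 13) .nil))) .nil))) (.nd (nat_lit 6) 
(.lf (nat_lit 54957) (.g (nat_lit 2670) (.e (nat_lit 1399) (nat_lit 106) (.e (nat_lit 319534) (nat_lit 16) (.e (nat_lit 286734) (nat_lit 3) (.e (nat_lit 98372) (nat_lit 29) (.e (nat_lit 450574) (nat_lit 1) .nil))))) .nil)) 
(.lf (nat_lit 55021) (.g (nat_lit 1656) (.e (nat_lit 1400) (nat_lit 106) (.e (nat_lit 319511) (nat_lit 10) (.e (nat_lit 5394) (nat_lit 301) (.e (nat_lit 57464) (nat_lit 23) (.e (nat_lit 516175) (nat_lit 14) (.e (nat_lit 466975) (nat_lit 22) (.e (nat_lit 196626) (nat_lit 9) .nil))))))) (.g (nat_lit 5) .nil .nil))))) (.nd (nat_lit 5) (.nd (nat_lit 6) 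
(.lf (nat_lit 54941) (.g (nat_lit 2439) (.e (nat_lit 1399) (nat_lit 106) (.e (nat_lit 319533) (nat_lit 16) (.e (nat_lit 286761) (nat_lit 13) (.e (nat_lit 393284) (nat_lit 24) (.e (nat_lit 434276) (nat_lit 39) (.e (nat_lit 663555) (nat_lit 0) .nil)))))) (.g (nat_lit 6) .nil .nil))) 
(.lf (nat_lit 55005) (.g (nat_lit 4419) (.e (nat_lit 1400) (nat_lit 106) (.e (nat_lit 319504) (nat_lit 10) (.e (nat_lit 618) (nat_lit 48) (.e (nat_lit 557105) (nat_lit 14) (.e (nat_lit 180252) (nat_lit 10) (.e (nat_lit 573489) (nat_lit 14) (.e (nat_lit 73755) (nat_lit 8) (.e (nat_lit 564992) (nat_lit 0) .nil)))))))) (.g (nat_lit 7) .nil .nil)))) (.nd (nat_lit 6) 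
(.lf (nat_lit 54973) (.g (nat_lit 384) (.e (nat_lit 1399) (nat_lit 106) (.e (nat_lit 319534) (nat_lit 16) (.e (nat_lit 286756) (nat_lit 10) .nil))) .nil)) 
(.lf (nat_lit 55037) (.g (nat_lit 888) (.e (nat_lit 1400) (nat_lit 106) (.e (nat_lit 319530) (nat_lit 16) (.e (nat_lit 286727) (nat_lit 0) .nil))) .nil))))))) (.nd (nat_lit 2) (.nd (nat_lit 3) (.nd (nat_lit 4) (.nd (nat_lit 5) (.nd (nat_lit 6) 
(.lf (nat_lit 54915) (.g (nat_lit 396) (.e (nat_lit 1399) (nat_lit 106) (.e (nat_lit 319533) (nat_lit 16) (.e (nat_lit 286735) (nat_lit 3) .nil))) .nil)) 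
(.lf (nat_lit 54979) (.g (nat_lit 2150) (.e (nat_lit 1399) (nat_lit 106) (.e (nat_lit 319534) (nat_lit 16) (.e (nat_lit 286756) (nat_lit 10) (.e (nat_lit 344156) (nat_lit 36) (.e (nat_lit 638998) (nat_lit 8) (.e (nat_lit 172034) (nat_lit 0) (.e (nat_lit 7496) (nat_lit 402) .nil))))))) (.g (nat_lit 4) .nil .nil)))) (.nd (nat_lit 6) 
(.lf (nat_lit 54947) (.g (nat_lit 2762) (.e (nat_lit 1399) (nat_lit 106) (.e (nat_lit 319534) (nat_lit 16) (.e (nat_lit 286732) (nat_lit 2) (.e (nat_lit 90178) (nat_lit 15) (.e (nat_lit 188458) (nat_lit 25) .nil))))) .nil)) 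
(.lf (nat_lit 55011) (.g (nat_lit 2451) (.e (nat_lit 1400) (nat_lit 106) (.e (nat_lit 319505) (nat_lit 10) (.e (nat_lit 618) (nat_lit 48) (.e (nat_lit 557109) (nat_lit 15) (.e (nat_lit 188427) (nat_lit 20) (.e (nat_lit 3572) (nat_lit 222) (.e (nat_lit 737283) (nat_lit 0) (.e (nat_lit 5271) (nat_lit 298) .nil)))))))) (.g (nat_lit 4) .nil .nil))))) (.nd (nat_lit 5) (.nd (nat_lit 6) 
(.lf (nat_lit 54931) (.g (nat_lit 929) (.e (nat_lit 1399) (nat_lit 106) (.e (nat_lit 319533) (nat_lit 16) (.e (nat_lit 286760) (nat_lit 13) (.e (nat_lit 393284) (nat_lit 24) .nil)))) .nil)) 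
(.lf (nat_lit 54995) (.g (nat_lit 2490) (.e (nat_lit 1399) (nat_lit 106) (.e (nat_lit 319534) (nat_lit 16) (.e (nat_lit 286761) (nat_lit 13) (.e (nat_lit 393283) (nat_lit 24) (.e (nat_lit 434279) (nat_lit 39) (.e (nat_lit 663555) (nat_lit 0) .nil)))))) (.g (nat_lit 0) .nil .nil)))) (.nd (nat_lit 6) 
(.lf (nat_lit 54963) (.g (nat_lit 2278) (.e (nat_lit 1399) (nat_lit 106) (.e (nat_lit 319534) (nat_lit 16) (.e (nat_lit 286735) (nat_lit 3) (.e (nat_lit 98370) (nat_lit 28) (.e (nat_lit 442432) (nat_lit 25) .nil))))) .nil)) 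
(.lf (nat_lit 55027) (.g (nat_lit 2242) (.e (nat_lit 1400) (nat_lit 106) (.e (nat_lit 319528) (nat_lit 16) (.e (nat_lit 286733) (nat_lit 2) (.e (nat_lit 90178) (nat_lit 15) (.e (nat_lit 188448) (nat_lit 22) (.e (nat_lit 196626) (nat_lit 9) .nil)))))) (.g (nat_lit 4) .nil .nil)))))) (.nd (nat_lit 4) (.nd (nat_lit 5) (.nd (nat_lit 6) 
(.lf (nat_lit 54923) (.g (nat_lit 987) (.e (nat_lit 1399) (nat_lit 106) (.e (nat_lit 319533) (nat_lit 16) (.e (nat_lit 286753) (nat_lit 10) (.e (nat_lit 344091) (nat_lit 18) .nil)))) .nil)) 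
(.lf (nat_lit 54987) (.g (nat_lit 1450) (.e (nat_lit 1399) (nat_lit 106) (.e (nat_lit 319534) (nat_lit 16) (.e (nat_lit 286760) (nat_lit 13) (.e (nat_lit 393283) (nat_lit 24) .nil)))) .nil))) (.nd (nat_lit 6) 
(.lf (nat_lit 54955) (.g (nat_lit 2681) (.e (nat_lit 1399) (nat_lit 106) (.e (nat_lit 319534) (nat_lit 16) (.e (nat_lit 286734) (nat_lit 3) (.e (nat_lit 98370) (nat_lit 28) (.e (nat_lit 442432) (nat_lit 25) .nil))))) .nil)) 
(.lf (nat_lit 55019) (.g (nat_lit 987) (.e (nat_lit 1400) (nat_lit 106) (.e (nat_lit 319511) (nat_lit 10) (.e (nat_lit 5293) (nat_lit 298) (.e (nat_lit 1250) (nat_lit 92) .nil)))) .nil)))) (.nd (nat_lit 5) (.nd (nat_lit 6) 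
(.lf (nat_lit 54939) (.g (nat_lit 2128) (.e (nat_lit 1399) (nat_lit 106) (.e (nat_lit 319533) (nat_lit 16) (.e (nat_lit 286761) (nat_lit 13) (.e (nat_lit 393283) (nat_lit 24) (.e (nat_lit 434278) (nat_lit 39) .nil))))) .nil)) 
(.lf (nat_lit 55003) (.g (nat_lit 2386) (.e (nat_lit 1399) (nat_lit 106) (.e (nat_lit 319536) (nat_lit 17) (.e (nat_lit 294928) (nat_lit 2) (.e (nat_lit 90178) (nat_lit 15) (.e (nat_lit 188458) (nat_lit 25) (.e (nat_lit 245784) (nat_lit 9) .nil)))))) (.g (nat_lit 4) .nil .nil)))) (.nd (nat_lit 6) 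
(.lf (nat_lit 54971) (.g (nat_lit 1967) (.e (nat_lit 1399) (nat_lit 106) (.e (nat_lit 319534) (nat_lit 16) (.e (nat_lit 286748) (nat_lit 9) (.e (nat_lit 336389) (nat_lit 27) .nil)))) .nil)) 
(.lf (nat_lit 55035) (.g (nat_lit 1110) (.e (nat_lit 1400) (nat_lit 106) (.e (nat_lit 319528) (nat_lit 16) (.e (nat_lit 286761) (nat_lit 13) (.e (nat_lit 393289) (nat_lit 25) .nil)))) .nil)))))) (.nd (nat_lit 3) (.nd (nat_lit 4) (.nd (nat_lit 5) (.nd (nat_lit 6) 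
(.lf (nat_lit 54919) (.g (nat_lit 983) (.e (nat_lit 1399) (nat_lit 106) (.e (nat_lit 319533) (nat_lit 16) (.e (nat_lit 286743) (nat_lit 9) (.e (nat_lit 336433) (nat_lit 30) .nil)))) .nil)) 
(.lf (nat_lit 54983) (.g (nat_lit 1757) (.e (nat_lit 1399) (nat_lit 106) (.e (nat_lit 319534) (nat_lit 16) (.e (nat_lit 286756) (nat_lit 10) (.e (nat_lit 344157) (nat_lit 36) (.e (nat_lit 639000) (nat_lit 9) (.e (nat_lit 188160) (nat_lit 32) .nil)))))) (.g (nat_lit 4) .nil .nil)))) (.nd (nat_lit 6) 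
(.lf (nat_lit 54951) (.g (nat_lit 445) (.e (nat_lit 1399) (nat_lit 106) (.e (nat_lit 319534) (nat_lit 16) (.e (nat_lit 286734) (nat_lit 3) .nil))) .nil)) 
(.lf (nat_lit 55015) (.g (nat_lit 2562) (.e (nat_lit 1400) (nat_lit 106) (.e (nat_lit 319505) (nat_lit 10) (.e (nat_lit 5395) (nat_lit 301) (.e (nat_lit 57464) (nat_lit 23) (.e (nat_lit 516174) (nat_lit 14) (.e (nat_lit 466975) (nat_lit 22) (.e (nat_lit 196626) (nat_lit 9) .nil))))))) (.g (nat_lit 7) .nil .nil))))) (.nd (nat_lit 5) (.nd (nat_lit 6) 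
(.lf (nat_lit 54935) (.g (nat_lit 3081) (.e (nat_lit 1399) (nat_lit 106) (.e (nat_lit 319533) (nat_lit 16) (.e (nat_lit 286761) (nat_lit 13) (.e (nat_lit 393282) (nat_lit 24) (.e (nat_lit 434279) (nat_lit 39) (.e (nat_lit 663555) (nat_lit 0) .nil)))))) (.g (nat_lit 6) .nil .nil))) 
(.lf (nat_lit 54999) (.g (nat_lit 2475) (.e (nat_lit 1399) (nat_lit 106) (.e (nat_lit 319535) (nat_lit 17) (.e (nat_lit 294928) (nat_lit 2) (.e (nat_lit 90178) (nat_lit 15) (.e (nat_lit 188458) (nat_lit 25) .nil))))) .nil))) (.nd (nat_lit 6) 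
(.lf (nat_lit 54967) (.g (nat_lit 3194) (.e (nat_lit 1399) (nat_lit 106) (.e (nat_lit 319534) (nat_lit 16) (.e (nat_lit 286735) (nat_lit 3) (.e (nat_lit 98373) (nat_lit 29) (.e (nat_lit 450574) (nat_lit 1) (.e (nat_lit 499991) (nat_lit 14) .nil)))))) (.g (nat_lit 0) .nil .nil))) 
(.lf (nat_lit 55031) (.g (nat_lit 2409) (.e (nat_lit 1400) (nat_lit 106) (.e (nat_lit 319528) (nat_lit 16) (.e (nat_lit 286735) (nat_lit 3) (.e (nat_lit 98382) (nat_lit 31) (.e (nat_lit 466977) (nat_lit 22) (.e (nat_lit 196626) (nat_lit 9) .nil)))))) (.g (nat_lit 5) .nil .nil)))))) (.nd (nat_lit 4) (.nd (nat_lit 5) (.nd (nat_lit 6) 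
(.lf (nat_lit 54927) (.g (nat_lit 1574) (.e (nat_lit 1399) (nat_lit 106) (.e (nat_lit 319533) (nat_lit 16) (.e (nat_lit 286753) (nat_lit 10) (.e (nat_lit 344157) (nat_lit 36) (.e (nat_lit 639000) (nat_lit 9) (.e (nat_lit 188160) (nat_lit 32) .nil)))))) (.g (nat_lit 5) .nil .nil))) 
(.lf (nat_lit 54991) (.g (nat_lit 2451) (.e (nat_lit 1399) (nat_lit 106) (.e (nat_lit 319534) (nat_lit 16) (.e (nat_lit 286761) (nat_lit 13) (.e (nat_lit 393282) (nat_lit 24) (.e (nat_lit 434279) (nat_lit 39) (.e (nat_lit 663555) (nat_lit 0) .nil)))))) (.g (nat_lit 6) .nil .nil)))) (.nd (nat_lit 6) 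
(.lf (nat_lit 54959) (.g (nat_lit 3010) (.e (nat_lit 1399) (nat_lit 106) (.e (nat_lit 319534) (nat_lit 16) (.e (nat_lit 286734) (nat_lit 3) (.e (nat_lit 98373) (nat_lit 29) (.e (nat_lit 450574) (nat_lit 1) (.e (nat_lit 499991) (nat_lit 14) .nil)))))) (.g (nat_lit 4) .nil .nil))) 
(.lf (nat_lit 55023) (.g (nat_lit 2425) (.e (nat_lit 1400) (nat_lit 106) (.e (nat_lit 319528) (nat_lit 16) (.e (nat_lit 286727) (nat_lit 0) (.e (nat_lit 1799) (nat_lit 119) (.e (nat_lit 516174) (nat_lit 14) (.e (nat_lit 466975) (nat_lit 22) (.e (nat_lit 196626) (nat_lit 9) .nil))))))) (.g (nat_lit 6) .nil .nil))))) (.nd (nat_lit 5) (.nd (nat_lit 6) 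
(.lf (nat_lit 54943) (.g (nat_lit 567) (.e (nat_lit 1399) (nat_lit 106) (.e (nat_lit 319534) (nat_lit 16) (.e (nat_lit 286722) (nat_lit 0) .nil))) .nil)) 
(.lf (nat_lit 55007) (.g (nat_lit 534) (.e (nat_lit 1400) (nat_lit 106) (.e (nat_lit 319504) (nat_lit 10) (.e (nat_lit 5714) (nat_lit 312) .nil))) .nil))) (.nd (nat_lit 6) 
(.lf (nat_lit 54975) (.g (nat_lit 2775) (.e (nat_lit 1399) (nat_lit 106) (.e (nat_lit 319534) (nat_lit 16) (.e (nat_lit 286756) (nat_lit 10) (.e (nat_lit 344090) (nat_lit 18) (.e (nat_lit 6923) (nat_lit 371) (.e (nat_lit 2640) (nat_lit 165) (.e (nat_lit 180265) (nat_lit 21) (.e (nat_lit 663555) (nat_lit 0) .nil)))))))) (.g (nat_lit 6) .nil .nil))) 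
(.lf (nat_lit 55039) (.g (nat_lit 4056) (.e (nat_lit 1400) (nat_lit 106) (.e (nat_lit 319530) (nat_lit 16) (.e (nat_lit 286727) (nat_lit 0) (.e (nat_lit 1799) (nat_lit 119) (.e (nat_lit 516176) (nat_lit 14) (.e (nat_lit 466975) (nat_lit 22) (.e (nat_lit 196626) (nat_lit 9) .nil))))))) (.g (nat_lit 6) .nil .nil))))))))))

noncomputable def tv759 : DT := (.nd (nat_lit 0) (.nd (nat_lit 1) (.nd (nat_lit 2) (.nd (nat_lit 3) (.nd (nat_lit 4) (.nd (nat_lit 5) 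
(.lf (nat_lit 55040) (.g (nat_lit 4000) (.e (nat_lit 1400) (nat_lit 106) (.e (nat_lit 319530) (nat_lit 16) (.e (nat_lit 286727) (nat_lit 0) (.e (nat_lit 1799) (nat_lit 119) (.e (nat_lit 516177) (nat_lit 14) (.e (nat_lit 466974) (nat_lit 22) (.e (nat_lit 196626) (nat_lit 9) .nil))))))) (.g (nat_lit 6) .nil .nil))) 
(.lf (nat_lit 55072) (.g (nat_lit 857) (.e (nat_lit 1400) (nat_lit 106) (.e (nat_lit 319531) (nat_lit 16) (.e (nat_lit 286734) (nat_lit 3) .nil))) .nil))) (.nd (nat_lit 5) 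
(.lf (nat_lit 55056) (.g (nat_lit 803) (.e (nat_lit 1400) (nat_lit 106) (.e (nat_lit 319531) (nat_lit 16) (.e (nat_lit 286722) (nat_lit 0) .nil))) .nil)) 
(.lf (nat_lit 55088) (.g (nat_lit 1561) (.e (nat_lit 1400) (nat_lit 106) (.e (nat_lit 319531) (nat_lit 16) (.e (nat_lit 286761) (nat_lit 13) (.e (nat_lit 393284) (nat_lit 24) .nil)))) .nil)))) (.nd (nat_lit 4) (.nd (nat_lit 5) 
(.lf (nat_lit 55048) (.g (nat_lit 851) (.e (nat_lit 1400) (nat_lit 106) (.e (nat_lit 319530) (nat_lit 16) (.e (nat_lit 286735) (nat_lit 3) .nil))) .nil)) 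
(.lf (nat_lit 55080) (.g (nat_lit 1819) (.e (nat_lit 1400) (nat_lit 106) (.e (nat_lit 319531) (nat_lit 16) (.e (nat_lit 286735) (nat_lit 3) (.e (nat_lit 98380) (nat_lit 31) .nil)))) .nil))) (.nd (nat_lit 5) 
(.lf (nat_lit 55064) (.g (nat_lit 3066) (.e (nat_lit 1400) (nat_lit 106) (.e (nat_lit 319531) (nat_lit 16) (.e (nat_lit 286733) (nat_lit 2) (.e (nat_lit 90134) (nat_lit 9) (.e (nat_lit 3045) (nat_lit 189) (.e (nat_lit 466975) (nat_lit 22) (.e (nat_lit 196626) (nat_lit 9) .nil))))))) (.g (nat_lit 4) .nil .nil))) 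
(.lf (nat_lit 55096) (.g (nat_lit 2260) (.e (nat_lit 1400) (nat_lit 106) (.e (nat_lit 319532) (nat_lit 16) (.e (nat_lit 286734) (nat_lit 3) (.e (nat_lit 98370) (nat_lit 28) (.e (nat_lit 442423) (nat_lit 22) (.e (nat_lit 196626) (nat_lit 9) .nil)))))) (.g (nat_lit 4) .nil .nil)))))) (.nd (nat_lit 3) (.nd (nat_lit 4) (.nd (nat_lit 5) 
(.lf (nat_lit 55044) (.g (nat_lit 2073) (.e (nat_lit 1400) (nat_lit 106) (.e (nat_lit 319530) (nat_lit 16) (.e (nat_lit 286733) (nat_lit 2) (.e (nat_lit 90176) (nat_lit 15) .nil)))) .nil)) 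
(.lf (nat_lit 55076) (.g (nat_lit 3424) (.e (nat_lit 1400) (nat_lit 106) (.e (nat_lit 319531) (nat_lit 16) (.e (nat_lit 286735) (nat_lit 3) (.e (nat_lit 98353) (nat_lit 25) (.e (nat_lit 417813) (nat_lit 9) (.e (nat_lit 311312) (nat_lit 2) (.e (nat_lit 196626) (nat_lit 9) .nil))))))) (.g (nat_lit 6) .nil .nil)))) (.nd (nat_lit 5) 
(.lf (nat_lit 55060) (.g (nat_lit 2487) (.e (nat_lit 1400) (nat_lit 106) (.e (nat_lit 319531) (nat_lit 16) (.e (nat_lit 286727) (nat_lit 0) (.e (nat_lit 1799) (nat_lit 119) (.e (nat_lit 516176) (nat_lit 14) (.e (nat_lit 466977) (nat_lit 22) (.e (nat_lit 196626) (nat_lit 9) .nil))))))) (.g (nat_lit 4) .nil .nil))) 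
(.lf (nat_lit 55092) (.g (nat_lit 1527) (.e (nat_lit 1400) (nat_lit 106) (.e (nat_lit 319532) (nat_lit 16) (.e (nat_lit 286733) (nat_lit 2) (.e (nat_lit 90169) (nat_lit 13) .nil)))) .nil)))) (.nd (nat_lit 4) (.nd (nat_lit 5) 
(.lf (nat_lit 55052) (.g (nat_lit 2266) (.e (nat_lit 1400) (nat_lit 106) (.e (nat_lit 319530) (nat_lit 16) (.e (nat_lit 286735) (nat_lit 3) (.e (nat_lit 98382) (nat_lit 31) (.e (nat_lit 466976) (nat_lit 22) .nil))))) .nil)) 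
(.lf (nat_lit 55084) (.g (nat_lit 1041) (.e (nat_lit 1400) (nat_lit 106) (.e (nat_lit 319531) (nat_lit 16) (.e (nat_lit 286748) (nat_lit 9) .nil))) .nil))) (.nd (nat_lit 5) 
(.lf (nat_lit 55068) (.g (nat_lit 3865) (.e (nat_lit 1400) (nat_lit 106) (.e (nat_lit 319531) (nat_lit 16) (.e (nat_lit 286733) (nat_lit 2) (.e (nat_lit 90178) (nat_lit 15) (.e (nat_lit 188448) (nat_lit 22) (.e (nat_lit 196626) (nat_lit 9) .nil)))))) (.g (nat_lit 5) .nil .nil))) 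
(.lf (nat_lit 55100) (.g (nat_lit 1769) (.e (nat_lit 1400) (nat_lit 106) (.e (nat_lit 319532) (nat_lit 16) (.e (nat_lit 286734) (nat_lit 3) (.e (nat_lit 98380) (nat_lit 31) (.e (nat_lit 466974) (nat_lit 22) (.e (nat_lit 196626) (nat_lit 9) .nil)))))) (.g (nat_lit 4) .nil .nil))))))) (.nd (nat_lit 2) (.nd (nat_lit 3) (.nd (nat_lit 4) (.nd (nat_lit 5) 
(.lf (nat_lit 55042) (.g (nat_lit 853) (.e (nat_lit 1400) (nat_lit 106) (.e (nat_lit 319530) (nat_lit 16) (.e (nat_lit 286733) (nat_lit 2) .nil))) .nil)) 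
(.lf (nat_lit 55074) (.g (nat_lit 1834) (.e (nat_lit 1400) (nat_lit 106) (.e (nat_lit 319531) (nat_lit 16) (.e (nat_lit 286735) (nat_lit 3) (.e (nat_lit 98325) (nat_lit 17) .nil)))) .nil))) (.nd (nat_lit 5) 
(.lf (nat_lit 55058) (.g (nat_lit 3750) (.e (nat_lit 1400) (nat_lit 106) (.e (nat_lit 319531) (nat_lit 16) (.e (nat_lit 286727) (nat_lit 0) (.e (nat_lit 1799) (nat_lit 119) (.e (nat_lit 516174) (nat_lit 14) (.e (nat_lit 466975) (nat_lit 22) (.e (nat_lit 196626) (nat_lit 9) .nil))))))) (.g (nat_lit 7) .nil .nil))) 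
(.lf (nat_lit 55090) (.g (nat_lit 1602) (.e (nat_lit 1400) (nat_lit 106) (.e (nat_lit 319532) (nat_lit 16) (.e (nat_lit 286732) (nat_lit 2) (.e (nat_lit 90175) (nat_lit 15) .nil)))) .nil)))) (.nd (nat_lit 4) (.nd (nat_lit 5) 
(.lf (nat_lit 55050) (.g (nat_lit 1755) (.e (nat_lit 1400) (nat_lit 106) (.e (nat_lit 319530) (nat_lit 16) (.e (nat_lit 286735) (nat_lit 3) (.e (nat_lit 98370) (nat_lit 28) .nil)))) .nil)) 
(.lf (nat_lit 55082) (.g (nat_lit 2462) (.e (nat_lit 1400) (nat_lit 106) (.e (nat_lit 319531) (nat_lit 16) (.e (nat_lit 286735) (nat_lit 3) (.e (nat_lit 98382) (nat_lit 31) (.e (nat_lit 466976) (nat_lit 22) (.e (nat_lit 196626) (nat_lit 9) .nil)))))) (.g (nat_lit 4) .nil .nil)))) (.nd (nat_lit 5) 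
(.lf (nat_lit 55066) (.g (nat_lit 2224) (.e (nat_lit 1400) (nat_lit 106) (.e (nat_lit 319531) (nat_lit 16) (.e (nat_lit 286733) (nat_lit 2) (.e (nat_lit 90176) (nat_lit 15) .nil)))) .nil)) 
(.lf (nat_lit 55098) (.g (nat_lit 2816) (.e (nat_lit 1400) (nat_lit 106) (.e (nat_lit 319532) (nat_lit 16) (.e (nat_lit 286734) (nat_lit 3) (.e (nat_lit 98370) (nat_lit 28) (.e (nat_lit 442433) (nat_lit 25) (.e (nat_lit 245781) (nat_lit 9) .nil)))))) (.g (nat_lit 5) .nil .nil)))))) (.nd (nat_lit 3) (.nd (nat_lit 4) (.nd (nat_lit 5) 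
(.lf (nat_lit 55046) (.g (nat_lit 3835) (.e (nat_lit 1400) (nat_lit 106) (.e (nat_lit 319530) (nat_lit 16) (.e (nat_lit 286733) (nat_lit 2) (.e (nat_lit 90178) (nat_lit 15) (.e (nat_lit 188448) (nat_lit 22) (.e (nat_lit 196626) (nat_lit 9) .nil)))))) (.g (nat_lit 6) .nil .nil))) 
(.lf (nat_lit 55078) (.g (nat_lit 1695) (.e (nat_lit 1400) (nat_lit 106) (.e (nat_lit 319531) (nat_lit 16) (.e (nat_lit 286735) (nat_lit 3) (.e (nat_lit 98370) (nat_lit 28) .nil)))) .nil))) (.nd (nat_lit 5) 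
(.lf (nat_lit 55062) (.g (nat_lit 3817) (.e (nat_lit 1400) (nat_lit 106) (.e (nat_lit 319531) (nat_lit 16) (.e (nat_lit 286727) (nat_lit 0) (.e (nat_lit 1799) (nat_lit 119) (.e (nat_lit 516177) (nat_lit 14) (.e (nat_lit 466977) (nat_lit 22) (.e (nat_lit 196626) (nat_lit 9) .nil))))))) (.g (nat_lit 7) .nil .nil))) 
(.lf (nat_lit 55094) (.g (nat_lit 5466) (.e (nat_lit 1400) (nat_lit 106) (.e (nat_lit 319532) (nat_lit 16) (.e (nat_lit 286734) (nat_lit 3) (.e (nat_lit 98359) (nat_lit 26) (.e (nat_lit 426211) (nat_lit 9) (.e (nat_lit 426125) (nat_lit 2) (.e (nat_lit 196626) (nat_lit 9) .nil))))))) (.g (nat_lit 6) .nil .nil))))) (.nd (nat_lit 4) (.nd (nat_lit 5) 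
(.lf (nat_lit 55054) (.g (nat_lit 2884) (.e (nat_lit 1400) (nat_lit 106) (.e (nat_lit 319530) (nat_lit 16) (.e (nat_lit 286761) (nat_lit 13) (.e (nat_lit 393234) (nat_lit 17) (.e (nat_lit 7065) (nat_lit 377) (.e (nat_lit 1112) (nat_lit 82) (.e (nat_lit 8433) (nat_lit 138) (.e (nat_lit 999) (nat_lit 81) .nil)))))))) (.g (nat_lit 5) .nil .nil))) 
(.lf (nat_lit 55086) (.g (nat_lit 3545) (.e (nat_lit 1400) (nat_lit 106) (.e (nat_lit 319531) (nat_lit 16) (.e (nat_lit 286761) (nat_lit 13) (.e (nat_lit 393234) (nat_lit 17) (.e (nat_lit 7065) (nat_lit 377) (.e (nat_lit 1112) (nat_lit 82) (.e (nat_lit 8433) (nat_lit 138) (.e (nat_lit 999) (nat_lit 81) .nil)))))))) (.g (nat_lit 6) .nil .nil)))) (.nd (nat_lit 5) 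
(.lf (nat_lit 55070) (.g (nat_lit 3008) (.e (nat_lit 1400) (nat_lit 106) (.e (nat_lit 319531) (nat_lit 16) (.e (nat_lit 286733) (nat_lit 2) (.e (nat_lit 90178) (nat_lit 15) (.e (nat_lit 188456) (nat_lit 25) .nil))))) .nil)) 
(.lf (nat_lit 55102) (.g (nat_lit 1799) (.e (nat_lit 1400) (nat_lit 106) (.e (nat_lit 319532) (nat_lit 16) (.e (nat_lit 286734) (nat_lit 3) (.e (nat_lit 98381) (nat_lit 31) (.e (nat_lit 466974) (nat_lit 22) (.e (nat_lit 196626) (nat_lit 9) .nil)))))) (.g (nat_lit 4) .nil .nil)))))))) (.nd (nat_lit 1) (.nd (nat_lit 2) (.nd (nat_lit 3) (.nd (nat_lit 4) (.nd (nat_lit 5) 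
(.lf (nat_lit 55041) (.g (nat_lit 4066) (.e (nat_lit 1400) (nat_lit 106) (.e (nat_lit 319530) (nat_lit 16) (.e (nat_lit 286727) (nat_lit 0) (.e (nat_lit 1799) (nat_lit 119) (.e (nat_lit 516177) (nat_lit 14) (.e (nat_lit 466977) (nat_lit 22) (.e (nat_lit 196626) (nat_lit 9) .nil))))))) (.g (nat_lit 6) .nil .nil))) 
(.lf (nat_lit 55073) (.g (nat_lit 724) (.e (nat_lit 1400) (nat_lit 106) (.e (nat_lit 319531) (nat_lit 16) (.e (nat_lit 286735) (nat_lit 3) .nil))) .nil))) (.nd (nat_lit 5) 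
(.lf (nat_lit 55057) (.g (nat_lit 977) (.e (nat_lit 1400) (nat_lit 106) (.e (nat_lit 319531) (nat_lit 16) (.e (nat_lit 286727) (nat_lit 0) .nil))) .nil)) 
(.lf (nat_lit 55089) (.g (nat_lit 1344) (.e (nat_lit 1400) (nat_lit 106) (.e (nat_lit 319531) (nat_lit 16) (.e (nat_lit 286761) (nat_lit 13) (.e (nat_lit 393289) (nat_lit 25) .nil)))) .nil)))) (.nd (nat_lit 4) (.nd (nat_lit 5) 
(.lf (nat_lit 55049) (.g (nat_lit 2918) (.e (nat_lit 1400) (nat_lit 106) (.e (nat_lit 319530) (nat_lit 16) (.e (nat_lit 286735) (nat_lit 3) (.e (nat_lit 98353) (nat_lit 25) (.e (nat_lit 417813) (nat_lit 9) (.e (nat_lit 311312) (nat_lit 2) (.e (nat_lit 196626) (nat_lit 9) .nil))))))) (.g (nat_lit 4) .nil .nil))) 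
(.lf (nat_lit 55081) (.g (nat_lit 3597) (.e (nat_lit 1400) (nat_lit 106) (.e (nat_lit 319531) (nat_lit 16) (.e (nat_lit 286735) (nat_lit 3) (.e (nat_lit 98382) (nat_lit 31) (.e (nat_lit 466974) (nat_lit 22) (.e (nat_lit 196626) (nat_lit 9) .nil)))))) (.g (nat_lit 6) .nil .nil)))) (.nd (nat_lit 5) 
(.lf (nat_lit 55065) (.g (nat_lit 2836) (.e (nat_lit 1400) (nat_lit 106) (.e (nat_lit 319531) (nat_lit 16) (.e (nat_lit 286733) (nat_lit 2) (.e (nat_lit 90175) (nat_lit 15) (.e (nat_lit 188449) (nat_lit 22) (.e (nat_lit 196626) (nat_lit 9) .nil)))))) (.g (nat_lit 4) .nil .nil))) 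
(.lf (nat_lit 55097) (.g (nat_lit 3520) (.e (nat_lit 1400) (nat_lit 106) (.e (nat_lit 319532) (nat_lit 16) (.e (nat_lit 286734) (nat_lit 3) (.e (nat_lit 98370) (nat_lit 28) (.e (nat_lit 442424) (nat_lit 22) (.e (nat_lit 196626) (nat_lit 9) .nil)))))) (.g (nat_lit 6) .nil .nil)))))) (.nd (nat_lit 3) (.nd (nat_lit 4) (.nd (nat_lit 5) 
(.lf (nat_lit 55045) (.g (nat_lit 3162) (.e (nat_lit 1400) (nat_lit 106) (.e (nat_lit 319530) (nat_lit 16) (.e (nat_lit 286733) (nat_lit 2) (.e (nat_lit 90176) (nat_lit 15) (.e (nat_lit 188449) (nat_lit 22) (.e (nat_lit 196626) (nat_lit 9) .nil)))))) (.g (nat_lit 4) .nil .nil))) 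
(.lf (nat_lit 55077) (.g (nat_lit 1853) (.e (nat_lit 1400) (nat_lit 106) (.e (nat_lit 319531) (nat_lit 16) (.e (nat_lit 286735) (nat_lit 3) (.e (nat_lit 98359) (nat_lit 26) .nil)))) .nil))) (.nd (nat_lit 5) 
(.lf (nat_lit 55061) (.g (nat_lit 3753) (.e (nat_lit 1400) (nat_lit 106) (.e (nat_lit 319531) (nat_lit 16) (.e (nat_lit 286727) (nat_lit 0) (.e (nat_lit 1799) (nat_lit 119) (.e (nat_lit 516177) (nat_lit 14) (.e (nat_lit 466974) (nat_lit 22) (.e (nat_lit 196626) (nat_lit 9) .nil))))))) (.g (nat_lit 7) .nil .nil))) 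
(.lf (nat_lit 55093) (.g (nat_lit 2831) (.e (nat_lit 1400) (nat_lit 106) (.e (nat_lit 319532) (nat_lit 16) (.e (nat_lit 286733) (nat_lit 2) (.e (nat_lit 90178) (nat_lit 15) (.e (nat_lit 188448) (nat_lit 22) .nil))))) .nil)))) (.nd (nat_lit 4) (.nd (nat_lit 5) 
(.lf (nat_lit 55053) (.g (nat_lit 3224) (.e (nat_lit 1400) (nat_lit 106) (.e (nat_lit 319530) (nat_lit 16) (.e (nat_lit 286735) (nat_lit 3) (.e (nat_lit 98382) (nat_lit 31) (.e (nat_lit 466977) (nat_lit 22) (.e (nat_lit 196626) (nat_lit 9) .nil)))))) (.g (nat_lit 5) .nil .nil))) 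
(.lf (nat_lit 55085) (.g (nat_lit 422) (.e (nat_lit 1400) (nat_lit 106) (.e (nat_lit 319531) (nat_lit 16) (.e (nat_lit 286761) (nat_lit 13) .nil))) .nil))) (.nd (nat_lit 5) 
(.lf (nat_lit 55069) (.g (nat_lit 5360) (.e (nat_lit 1400) (nat_lit 106) (.e (nat_lit 319531) (nat_lit 16) (.e (nat_lit 286733) (nat_lit 2) (.e (nat_lit 90178) (nat_lit 15) (.e (nat_lit 188449) (nat_lit 22) (.e (nat_lit 196626) (nat_lit 9) .nil)))))) (.g (nat_lit 5) .nil .nil))) 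
(.lf (nat_lit 55101) (.g (nat_lit 1806) (.e (nat_lit 1400) (nat_lit 106) (.e (nat_lit 319532) (nat_lit 16) (.e (nat_lit 286734) (nat_lit 3) (.e (nat_lit 98380) (nat_lit 31) (.e (nat_lit 466975) (nat_lit 22) (.e (nat_lit 196626) (nat_lit 9) .nil)))))) (.g (nat_lit 4) .nil .nil))))))) (.nd (nat_lit 2) (.nd (nat_lit 3) (.nd (nat_lit 4) (.nd (nat_lit 5) 
(.lf (nat_lit 55043) (.g (nat_lit 1773) (.e (nat_lit 1400) (nat_lit 106) (.e (nat_lit 319530) (nat_lit 16) (.e (nat_lit 286733) (nat_lit 2) (.e (nat_lit 90169) (nat_lit 13) .nil)))) .nil)) 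
(.lf (nat_lit 55075) (.g (nat_lit 1727) (.e (nat_lit 1400) (nat_lit 106) (.e (nat_lit 319531) (nat_lit 16) (.e (nat_lit 286735) (nat_lit 3) (.e (nat_lit 98353) (nat_lit 25) .nil)))) .nil))) (.nd (nat_lit 5) 
(.lf (nat_lit 55059) (.g (nat_lit 3792) (.e (nat_lit 1400) (nat_lit 106) (.e (nat_lit 319531) (nat_lit 16) (.e (nat_lit 286727) (nat_lit 0) (.e (nat_lit 1799) (nat_lit 119) (.e (nat_lit 516176) (nat_lit 14) (.e (nat_lit 466975) (nat_lit 22) (.e (nat_lit 196626) (nat_lit 9) .nil))))))) (.g (nat_lit 7) .nil .nil))) 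
(.lf (nat_lit 55091) (.g (nat_lit 2556) (.e (nat_lit 1400) (nat_lit 106) (.e (nat_lit 319532) (nat_lit 16) (.e (nat_lit 286733) (nat_lit 2) (.e (nat_lit 90134) (nat_lit 9) (.e (nat_lit 3045) (nat_lit 189) .nil))))) .nil)))) (.nd (nat_lit 4) (.nd (nat_lit 5) 
(.lf (nat_lit 55051) (.g (nat_lit 3254) (.e (nat_lit 1400) (nat_lit 106) (.e (nat_lit 319530) (nat_lit 16) (.e (nat_lit 286735) (nat_lit 3) (.e (nat_lit 98382) (nat_lit 31) (.e (nat_lit 466974) (nat_lit 22) (.e (nat_lit 196626) (nat_lit 9) .nil)))))) (.g (nat_lit 5) .nil .nil))) 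
(.lf (nat_lit 55083) (.g (nat_lit 3550) (.e (nat_lit 1400) (nat_lit 106) (.e (nat_lit 319531) (nat_lit 16) (.e (nat_lit 286735) (nat_lit 3) (.e (nat_lit 98382) (nat_lit 31) (.e (nat_lit 466977) (nat_lit 22) (.e (nat_lit 196626) (nat_lit 9) .nil)))))) (.g (nat_lit 6) .nil .nil)))) (.nd (nat_lit 5) 
(.lf (nat_lit 55067) (.g (nat_lit 1851) (.e (nat_lit 1400) (nat_lit 106) (.e (nat_lit 319531) (nat_lit 16) (.e (nat_lit 286733) (nat_lit 2) (.e (nat_lit 90178) (nat_lit 15) .nil)))) .nil)) 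
(.lf (nat_lit 55099) (.g (nat_lit 1669) (.e (nat_lit 1400) (nat_lit 106) (.e (nat_lit 319532) (nat_lit 16) (.e (nat_lit 286734) (nat_lit 3) (.e (nat_lit 98372) (nat_lit 29) (.e (nat_lit 450571) (nat_lit 1) .nil))))) .nil))))) (.nd (nat_lit 3) (.nd (nat_lit 4) (.nd (nat_lit 5) 
(.lf (nat_lit 55047) (.g (nat_lit 5358) (.e (nat_lit 1400) (nat_lit 106) (.e (nat_lit 319530) (nat_lit 16) (.e (nat_lit 286733) (nat_lit 2) (.e (nat_lit 90178) (nat_lit 15) (.e (nat_lit 188449) (nat_lit 22) (.e (nat_lit 196626) (nat_lit 9) .nil)))))) (.g (nat_lit 6) .nil .nil))) 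
(.lf (nat_lit 55079) (.g (nat_lit 3295) (.e (nat_lit 1400) (nat_lit 106) (.e (nat_lit 319531) (nat_lit 16) (.e (nat_lit 286735) (nat_lit 3) (.e (nat_lit 98373) (nat_lit 29) (.e (nat_lit 450573) (nat_lit 1) .nil))))) .nil))) (.nd (nat_lit 5) 
(.lf (nat_lit 55063) (.g (nat_lit 1356) (.e (nat_lit 1400) (nat_lit 106) (.e (nat_lit 319531) (nat_lit 16) (.e (nat_lit 286732) (nat_lit 2) .nil))) .nil)) 
(.lf (nat_lit 55095) (.g (nat_lit 1047) (.e (nat_lit 1400) (nat_lit 106) (.e (nat_lit 319532) (nat_lit 16) (.e (nat_lit 286734) (nat_lit 3) (.e (nat_lit 98369) (nat_lit 28) .nil)))) .nil)))) (.nd (nat_lit 4) (.nd (nat_lit 5) 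
(.lf (nat_lit 55055) (.g (nat_lit 3017) (.e (nat_lit 1400) (nat_lit 106) (.e (nat_lit 319530) (nat_lit 16) (.e (nat_lit 286761) (nat_lit 13) (.e (nat_lit 393234) (nat_lit 17) (.e (nat_lit 7065) (nat_lit 377) (.e (nat_lit 1115) (nat_lit 82) (.e (nat_lit 8433) (nat_lit 138) (.e (nat_lit 999) (nat_lit 81) .nil)))))))) (.g (nat_lit 5) .nil .nil))) 
(.lf (nat_lit 55087) (.g (nat_lit 2122) (.e (nat_lit 1400) (nat_lit 106) (.e (nat_lit 319531) (nat_lit 16) (.e (nat_lit 286761) (nat_lit 13) (.e (nat_lit 393234) (nat_lit 17) (.e (nat_lit 7065) (nat_lit 377) (.e (nat_lit 1115) (nat_lit 82) (.e (nat_lit 8431) (nat_lit 138) (.e (nat_lit 999) (nat_lit 81) .nil)))))))) (.g (nat_lit 4) .nil .nil)))) (.nd (nat_lit 5) 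
(.lf (nat_lit 55071) (.g (nat_lit 2947) (.e (nat_lit 1400) (nat_lit 106) (.e (nat_lit 319531) (nat_lit 16) (.e (nat_lit 286733) (nat_lit 2) (.e (nat_lit 90178) (nat_lit 15) (.e (nat_lit 188458) (nat_lit 25) .nil))))) .nil)) 
(.lf (nat_lit 55103) (.g (nat_lit 2691) (.e (nat_lit 1400) (nat_lit 106) (.e (nat_lit 319532) (nat_lit 16) (.e (nat_lit 286734) (nat_lit 3) (.e (nat_lit 98381) (nat_lit 31) (.e (nat_lit 466976) (nat_lit 22) (.e (nat_lit 196626) (nat_lit 9) .nil)))))) (.g (nat_lit 0) .nil .nil)))))))))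

noncomputable def tv760 : DT := (.nd (nat_lit 0) (.nd (nat_lit 1) (.nd (nat_lit 2) (.nd (nat_lit 3) (.nd (nat_lit 4) (.nd (nat_lit 5) 
(.lf (nat_lit 55104) (.g (nat_lit 3332) (.e (nat_lit 1400) (nat_lit 106) (.e (nat_lit 319532) (nat_lit 16) (.e (nat_lit 286734) (nat_lit 3) (.e (nat_lit 98381) (nat_lit 31) (.e (nat_lit 466977) (nat_lit 22) (.e (nat_lit 196626) (nat_lit 9) .nil)))))) (.g (nat_lit 0) .nil .nil))) 
(.lf (nat_lit 55136) (.g (nat_lit 4016) (.e (nat_lit 1400) (nat_lit 106) (.e (nat_lit 319533) (nat_lit 16) (.e (nat_lit 286727) (nat_lit 0) (.e (nat_lit 1799) (nat_lit 119) (.e (nat_lit 516177) (nat_lit 14) (.e (nat_lit 466974) (nat_lit 22) (.e (nat_lit 196626) (nat_lit 9) .nil))))))) (.g (nat_lit 6) .nil .nil)))) (.nd (nat_lit 5) 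
(.lf (nat_lit 55120) (.g (nat_lit 3364) (.e (nat_lit 1400) (nat_lit 106) (.e (nat_lit 319533) (nat_lit 16) (.e (nat_lit 286720) (nat_lit 0) (.e (nat_lit 1788) (nat_lit 119) (.e (nat_lit 516176) (nat_lit 14) (.e (nat_lit 466977) (nat_lit 22) (.e (nat_lit 196626) (nat_lit 9) .nil))))))) (.g (nat_lit 5) .nil .nil))) 
(.lf (nat_lit 55152) (.g (nat_lit 3214) (.e (nat_lit 1400) (nat_lit 106) (.e (nat_lit 319533) (nat_lit 16) (.e (nat_lit 286733) (nat_lit 2) (.e (nat_lit 90169) (nat_lit 13) (.e (nat_lit 172103) (nat_lit 9) (.e (nat_lit 426123) (nat_lit 2) (.e (nat_lit 196626) (nat_lit 9) .nil))))))) (.g (nat_lit 4) .nil .nil))))) (.nd (nat_lit 4) (.nd (nat_lit 5) 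
(.lf (nat_lit 55112) (.g (nat_lit 1597) (.e (nat_lit 1400) (nat_lit 106) (.e (nat_lit 319533) (nat_lit 16) (.e (nat_lit 286720) (nat_lit 0) (.e (nat_lit 1788) (nat_lit 119) (.e (nat_lit 516163) (nat_lit 11) .nil))))) .nil)) 
(.lf (nat_lit 55144) (.g (nat_lit 5158) (.e (nat_lit 1400) (nat_lit 106) (.e (nat_lit 319533) (nat_lit 16) (.e (nat_lit 286732) (nat_lit 2) (.e (nat_lit 90176) (nat_lit 15) (.e (nat_lit 188447) (nat_lit 22) (.e (nat_lit 196626) (nat_lit 9) .nil)))))) (.g (nat_lit 0) .nil .nil)))) (.nd (nat_lit 5) 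
(.lf (nat_lit 55128) (.g (nat_lit 3441) (.e (nat_lit 1400) (nat_lit 106) (.e (nat_lit 319533) (nat_lit 16) (.e (nat_lit 286725) (nat_lit 0) (.e (nat_lit 1799) (nat_lit 119) (.e (nat_lit 516176) (nat_lit 14) (.e (nat_lit 466975) (nat_lit 22) (.e (nat_lit 196626) (nat_lit 9) .nil))))))) (.g (nat_lit 7) .nil .nil))) 
(.lf (nat_lit 55160) (.g (nat_lit 2903) (.e (nat_lit 1400) (nat_lit 106) (.e (nat_lit 319533) (nat_lit 16) (.e (nat_lit 286733) (nat_lit 2) (.e (nat_lit 90170) (nat_lit 13) (.e (nat_lit 172095) (nat_lit 9) (.e (nat_lit 426118) (nat_lit 2) (.e (nat_lit 196626) (nat_lit 9) .nil))))))) (.g (nat_lit 4) .nil .nil)))))) (.nd (nat_lit 3) (.nd (nat_lit 4) (.nd (nat_lit 5) 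
(.lf (nat_lit 55108) (.g (nat_lit 2213) (.e (nat_lit 1400) (nat_lit 106) (.e (nat_lit 319532) (nat_lit 16) (.e (nat_lit 286735) (nat_lit 3) (.e (nat_lit 98382) (nat_lit 31) (.e (nat_lit 466974) (nat_lit 22) (.e (nat_lit 196626) (nat_lit 9) .nil)))))) (.g (nat_lit 5) .nil .nil))) 
(.lf (nat_lit 55140) (.g (nat_lit 3147) (.e (nat_lit 1400) (nat_lit 106) (.e (nat_lit 319533) (nat_lit 16) (.e (nat_lit 286732) (nat_lit 2) (.e (nat_lit 90170) (nat_lit 13) (.e (nat_lit 172092) (nat_lit 9) (.e (nat_lit 426120) (nat_lit 2) (.e (nat_lit 196626) (nat_lit 9) .nil))))))) (.g (nat_lit 4) .nil .nil)))) (.nd (nat_lit 5) 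
(.lf (nat_lit 55124) (.g (nat_lit 2255) (.e (nat_lit 1400) (nat_lit 106) (.e (nat_lit 319533) (nat_lit 16) (.e (nat_lit 286722) (nat_lit 0) (.e (nat_lit 1691) (nat_lit 117) (.e (nat_lit 499929) (nat_lit 11) (.e (nat_lit 188448) (nat_lit 22) (.e (nat_lit 196626) (nat_lit 9) .nil))))))) (.g (nat_lit 4) .nil .nil))) 
(.lf (nat_lit 55156) (.g (nat_lit 3260) (.e (nat_lit 1400) (nat_lit 106) (.e (nat_lit 319533) (nat_lit 16) (.e (nat_lit 286733) (nat_lit 2) (.e (nat_lit 90170) (nat_lit 13) (.e (nat_lit 172088) (nat_lit 9) .nil))))) .nil)))) (.nd (nat_lit 4) (.nd (nat_lit 5) 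
(.lf (nat_lit 55116) (.g (nat_lit 3160) (.e (nat_lit 1400) (nat_lit 106) (.e (nat_lit 319533) (nat_lit 16) (.e (nat_lit 286720) (nat_lit 0) (.e (nat_lit 1788) (nat_lit 119) (.e (nat_lit 516175) (nat_lit 14) (.e (nat_lit 466975) (nat_lit 22) (.e (nat_lit 196626) (nat_lit 9) .nil))))))) (.g (nat_lit 5) .nil .nil))) 
(.lf (nat_lit 55148) (.g (nat_lit 3520) (.e (nat_lit 1400) (nat_lit 106) (.e (nat_lit 319533) (nat_lit 16) (.e (nat_lit 286732) (nat_lit 2) (.e (nat_lit 90178) (nat_lit 15) (.e (nat_lit 188448) (nat_lit 22) (.e (nat_lit 196626) (nat_lit 9) .nil)))))) (.g (nat_lit 4) .nil .nil)))) (.nd (nat_lit 5) 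
(.lf (nat_lit 55132) (.g (nat_lit 705) (.e (nat_lit 1400) (nat_lit 106) (.e (nat_lit 319533) (nat_lit 16) (.e (nat_lit 286726) (nat_lit 0) .nil))) .nil)) 
(.lf (nat_lit 55164) (.g (nat_lit 5577) (.e (nat_lit 1400) (nat_lit 106) (.e (nat_lit 319533) (nat_lit 16) (.e (nat_lit 286733) (nat_lit 2) (.e (nat_lit 90170) (nat_lit 13) (.e (nat_lit 172106) (nat_lit 10) (.e (nat_lit 434219) (nat_lit 19) (.e (nat_lit 499961) (nat_lit 14) .nil))))))) (.g (nat_lit 6) .nil .nil))))))) (.nd (nat_lit 2) (.nd (nat_lit 3) (.nd (nat_lit 4) (.nd (nat_lit 5) 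
(.lf (nat_lit 55106) (.g (nat_lit 2686) (.e (nat_lit 1400) (nat_lit 106) (.e (nat_lit 319532) (nat_lit 16) (.e (nat_lit 286735) (nat_lit 3) (.e (nat_lit 98356) (nat_lit 26) (.e (nat_lit 426270) (nat_lit 9) .nil))))) .nil)) 
(.lf (nat_lit 55138) (.g (nat_lit 802) (.e (nat_lit 1400) (nat_lit 106) (.e (nat_lit 319533) (nat_lit 16) (.e (nat_lit 286732) (nat_lit 2) .nil))) .nil))) (.nd (nat_lit 5) 
(.lf (nat_lit 55122) (.g (nat_lit 2401) (.e (nat_lit 1400) (nat_lit 106) (.e (nat_lit 319533) (nat_lit 16) (.e (nat_lit 286720) (nat_lit 0) (.e (nat_lit 1788) (nat_lit 119) (.e (nat_lit 516177) (nat_lit 14) (.e (nat_lit 466977) (nat_lit 22) (.e (nat_lit 196626) (nat_lit 9) .nil))))))) (.g (nat_lit 4) .nil .nil))) 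
(.lf (nat_lit 55154) (.g (nat_lit 1411) (.e (nat_lit 1400) (nat_lit 106) (.e (nat_lit 319533) (nat_lit 16) (.e (nat_lit 286733) (nat_lit 2) (.e (nat_lit 90170) (nat_lit 13) .nil)))) .nil)))) (.nd (nat_lit 4) (.nd (nat_lit 5) 
(.lf (nat_lit 55114) (.g (nat_lit 5342) (.e (nat_lit 1400) (nat_lit 106) (.e (nat_lit 319533) (nat_lit 16) (.e (nat_lit 286720) (nat_lit 0) (.e (nat_lit 1788) (nat_lit 119) (.e (nat_lit 516163) (nat_lit 11) (.e (nat_lit 442424) (nat_lit 22) (.e (nat_lit 196626) (nat_lit 9) .nil))))))) (.g (nat_lit 7) .nil .nil))) 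
(.lf (nat_lit 55146) (.g (nat_lit 5745) (.e (nat_lit 1400) (nat_lit 106) (.e (nat_lit 319533) (nat_lit 16) (.e (nat_lit 286732) (nat_lit 2) (.e (nat_lit 90176) (nat_lit 15) (.e (nat_lit 188449) (nat_lit 22) (.e (nat_lit 196626) (nat_lit 9) .nil)))))) (.g (nat_lit 5) .nil .nil)))) (.nd (nat_lit 5) 
(.lf (nat_lit 55130) (.g (nat_lit 3295) (.e (nat_lit 1400) (nat_lit 106) (.e (nat_lit 319533) (nat_lit 16) (.e (nat_lit 286725) (nat_lit 0) (.e (nat_lit 1799) (nat_lit 119) (.e (nat_lit 516177) (nat_lit 14) (.e (nat_lit 466974) (nat_lit 22) (.e (nat_lit 196626) (nat_lit 9) .nil))))))) (.g (nat_lit 7) .nil .nil))) 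
(.lf (nat_lit 55162) (.g (nat_lit 3233) (.e (nat_lit 1400) (nat_lit 106) (.e (nat_lit 319533) (nat_lit 16) (.e (nat_lit 286733) (nat_lit 2) (.e (nat_lit 90170) (nat_lit 13) (.e (nat_lit 172095) (nat_lit 9) (.e (nat_lit 426125) (nat_lit 2) (.e (nat_lit 196626) (nat_lit 9) .nil))))))) (.g (nat_lit 4) .nil .nil)))))) (.nd (nat_lit 3) (.nd (nat_lit 4) (.nd (nat_lit 5) 
(.lf (nat_lit 55110) (.g (nat_lit 1210) (.e (nat_lit 1400) (nat_lit 106) (.e (nat_lit 319532) (nat_lit 16) (.e (nat_lit 286761) (nat_lit 13) (.e (nat_lit 393284) (nat_lit 24) .nil)))) .nil)) 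
(.lf (nat_lit 55142) (.g (nat_lit 4494) (.e (nat_lit 1400) (nat_lit 106) (.e (nat_lit 319533) (nat_lit 16) (.e (nat_lit 286732) (nat_lit 2) (.e (nat_lit 90170) (nat_lit 13) (.e (nat_lit 172106) (nat_lit 10) (.e (nat_lit 434219) (nat_lit 19) (.e (nat_lit 499961) (nat_lit 14) .nil))))))) (.g (nat_lit 5) .nil .nil)))) (.nd (nat_lit 5) 
(.lf (nat_lit 55126) (.g (nat_lit 2346) (.e (nat_lit 1400) (nat_lit 106) (.e (nat_lit 319533) (nat_lit 16) (.e (nat_lit 286725) (nat_lit 0) (.e (nat_lit 1798) (nat_lit 119) (.e (nat_lit 516176) (nat_lit 14) (.e (nat_lit 466975) (nat_lit 22) (.e (nat_lit 196626) (nat_lit 9) .nil))))))) (.g (nat_lit 5) .nil .nil))) 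
(.lf (nat_lit 55158) (.g (nat_lit 3833) (.e (nat_lit 1400) (nat_lit 106) (.e (nat_lit 319533) (nat_lit 16) (.e (nat_lit 286733) (nat_lit 2) (.e (nat_lit 90170) (nat_lit 13) (.e (nat_lit 172088) (nat_lit 9) (.e (nat_lit 426120) (nat_lit 2) (.e (nat_lit 196626) (nat_lit 9) .nil))))))) (.g (nat_lit 4) .nil .nil))))) (.nd (nat_lit 4) (.nd (nat_lit 5) 
(.lf (nat_lit 55118) (.g (nat_lit 4047) (.e (nat_lit 1400) (nat_lit 106) (.e (nat_lit 319533) (nat_lit 16) (.e (nat_lit 286720) (nat_lit 0) (.e (nat_lit 1788) (nat_lit 119) (.e (nat_lit 516176) (nat_lit 14) (.e (nat_lit 466975) (nat_lit 22) (.e (nat_lit 196626) (nat_lit 9) .nil))))))) (.g (nat_lit 7) .nil .nil))) 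
(.lf (nat_lit 55150) (.g (nat_lit 3109) (.e (nat_lit 1400) (nat_lit 106) (.e (nat_lit 319533) (nat_lit 16) (.e (nat_lit 286733) (nat_lit 2) (.e (nat_lit 90134) (nat_lit 9) (.e (nat_lit 3045) (nat_lit 189) (.e (nat_lit 466974) (nat_lit 22) (.e (nat_lit 196626) (nat_lit 9) .nil))))))) (.g (nat_lit 4) .nil .nil)))) (.nd (nat_lit 5) 
(.lf (nat_lit 55134) (.g (nat_lit 4000) (.e (nat_lit 1400) (nat_lit 106) (.e (nat_lit 319533) (nat_lit 16) (.e (nat_lit 286727) (nat_lit 0) (.e (nat_lit 1799) (nat_lit 119) (.e (nat_lit 516174) (nat_lit 14) (.e (nat_lit 466975) (nat_lit 22) (.e (nat_lit 196626) (nat_lit 9) .nil))))))) (.g (nat_lit 6) .nil .nil))) 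
(.lf (nat_lit 55166) (.g (nat_lit 4048) (.e (nat_lit 1400) (nat_lit 106) (.e (nat_lit 319533) (nat_lit 16) (.e (nat_lit 286733) (nat_lit 2) (.e (nat_lit 90170) (nat_lit 13) (.e (nat_lit 172106) (nat_lit 10) (.e (nat_lit 434223) (nat_lit 19) (.e (nat_lit 499961) (nat_lit 14) .nil))))))) (.g (nat_lit 5) .nil .nil)))))))) 
(.nd (nat_lit 1) (.nd (nat_lit 2) (.nd (nat_lit 3) (.nd (nat_lit 4) (.nd (nat_lit 5) 
(.lf (nat_lit 55105) (.g (nat_lit 1383) (.e (nat_lit 1400) (nat_lit 106) (.e (nat_lit 319532) (nat_lit 16) (.e (nat_lit 286735) (nat_lit 3) (.e (nat_lit 98356) (nat_lit 26) .nil)))) .nil)) 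
(.lf (nat_lit 55137) (.g (nat_lit 4056) (.e (nat_lit 1400) (nat_lit 106) (.e (nat_lit 319533) (nat_lit 16) (.e (nat_lit 286727) (nat_lit 0) (.e (nat_lit 1799) (nat_lit 119) (.e (nat_lit 516177) (nat_lit 14) (.e (nat_lit 466977) (nat_lit 22) (.e (nat_lit 196626) (nat_lit 9) .nil))))))) (.g (nat_lit 6) .nil .nil)))) (.nd (nat_lit 5) 
(.lf (nat_lit 55121) (.g (nat_lit 2352) (.e (nat_lit 1400) (nat_lit 106) (.e (nat_lit 319533) (nat_lit 16) (.e (nat_lit 286720) (nat_lit 0) (.e (nat_lit 1788) (nat_lit 119) (.e (nat_lit 516177) (nat_lit 14) (.e (nat_lit 466974) (nat_lit 22) (.e (nat_lit 196626) (nat_lit 9) .nil))))))) (.g (nat_lit 4) .nil .nil))) 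
(.lf (nat_lit 55153) (.g (nat_lit 2787) (.e (nat_lit 1400) (nat_lit 106) (.e (nat_lit 319533) (nat_lit 16) (.e (nat_lit 286733) (nat_lit 2) (.e (nat_lit 90169) (nat_lit 13) (.e (nat_lit 172103) (nat_lit 9) (.e (nat_lit 426124) (nat_lit 2) (.e (nat_lit 196626) (nat_lit 9) .nil))))))) (.g (nat_lit 4) .nil .nil))))) (.nd (nat_lit 4) (.nd (nat_lit 5) 
(.lf (nat_lit 55113) (.g (nat_lit 2338) (.e (nat_lit 1400) (nat_lit 106) (.e (nat_lit 319533) (nat_lit 16) (.e (nat_lit 286720) (nat_lit 0) (.e (nat_lit 1788) (nat_lit 119) (.e (nat_lit 516163) (nat_lit 11) (.e (nat_lit 442423) (nat_lit 22) (.e (nat_lit 196626) (nat_lit 9) .nil))))))) (.g (nat_lit 4) .nil .nil))) 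
(.lf (nat_lit 55145) (.g (nat_lit 3975) (.e (nat_lit 1400) (nat_lit 106) (.e (nat_lit 319533) (nat_lit 16) (.e (nat_lit 286732) (nat_lit 2) (.e (nat_lit 90176) (nat_lit 15) (.e (nat_lit 188448) (nat_lit 22) (.e (nat_lit 196626) (nat_lit 9) .nil)))))) (.g (nat_lit 4) .nil .nil)))) (.nd (nat_lit 5) 
(.lf (nat_lit 55129) (.g (nat_lit 2101) (.e (nat_lit 1400) (nat_lit 106) (.e (nat_lit 319533) (nat_lit 16) (.e (nat_lit 286725) (nat_lit 0) (.e (nat_lit 1799) (nat_lit 119) (.e (nat_lit 516176) (nat_lit 14) (.e (nat_lit 466977) (nat_lit 22) (.e (nat_lit 196626) (nat_lit 9) .nil))))))) (.g (nat_lit 4) .nil .nil))) 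
(.lf (nat_lit 55161) (.g (nat_lit 3255) (.e (nat_lit 1400) (nat_lit 106) (.e (nat_lit 319533) (nat_lit 16) (.e (nat_lit 286733) (nat_lit 2) (.e (nat_lit 90170) (nat_lit 13) (.e (nat_lit 172095) (nat_lit 9) (.e (nat_lit 426120) (nat_lit 2) (.e (nat_lit 196626) (nat_lit 9) .nil))))))) (.g (nat_lit 4) .nil .nil)))))) (.nd (nat_lit 3) (.nd (nat_lit 4) (.nd (nat_lit 5) 
(.lf (nat_lit 55109) (.g (nat_lit 2101) (.e (nat_lit 1400) (nat_lit 106) (.e (nat_lit 319532) (nat_lit 16) (.e (nat_lit 286735) (nat_lit 3) (.e (nat_lit 98382) (nat_lit 31) (.e (nat_lit 466977) (nat_lit 22) (.e (nat_lit 196626) (nat_lit 9) .nil)))))) (.g (nat_lit 4) .nil .nil))) 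
(.lf (nat_lit 55141) (.g (nat_lit 3926) (.e (nat_lit 1400) (nat_lit 106) (.e (nat_lit 319533) (nat_lit 16) (.e (nat_lit 286732) (nat_lit 2) (.e (nat_lit 90170) (nat_lit 13) (.e (nat_lit 172094) (nat_lit 9) (.e (nat_lit 426125) (nat_lit 2) (.e (nat_lit 196626) (nat_lit 9) .nil))))))) (.g (nat_lit 4) .nil .nil)))) (.nd (nat_lit 5) 
(.lf (nat_lit 55125) (.g (nat_lit 2058) (.e (nat_lit 1400) (nat_lit 106) (.e (nat_lit 319533) (nat_lit 16) (.e (nat_lit 286724) (nat_lit 0) (.e (nat_lit 1801) (nat_lit 119) (.e (nat_lit 516176) (nat_lit 14) (.e (nat_lit 466975) (nat_lit 22) (.e (nat_lit 196626) (nat_lit 9) .nil))))))) (.g (nat_lit 5) .nil .nil))) 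
(.lf (nat_lit 55157) (.g (nat_lit 3280) (.e (nat_lit 1400) (nat_lit 106) (.e (nat_lit 319533) (nat_lit 16) (.e (nat_lit 286733) (nat_lit 2) (.e (nat_lit 90170) (nat_lit 13) (.e (nat_lit 172088) (nat_lit 9) (.e (nat_lit 426118) (nat_lit 2) (.e (nat_lit 196626) (nat_lit 9) .nil))))))) (.g (nat_lit 4) .nil .nil))))) (.nd (nat_lit 4) (.nd (nat_lit 5) 
(.lf (nat_lit 55117) (.g (nat_lit 3122) (.e (nat_lit 1400) (nat_lit 106) (.e (nat_lit 319533) (nat_lit 16) (.e (nat_lit 286720) (nat_lit 0) (.e (nat_lit 1788) (nat_lit 119) (.e (nat_lit 516175) (nat_lit 14) (.e (nat_lit 466977) (nat_lit 22) (.e (nat_lit 196626) (nat_lit 9) .nil))))))) (.g (nat_lit 5) .nil .nil))) 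
(.lf (nat_lit 55149) (.g (nat_lit 3585) (.e (nat_lit 1400) (nat_lit 106) (.e (nat_lit 319533) (nat_lit 16) (.e (nat_lit 286733) (nat_lit 2) (.e (nat_lit 90134) (nat_lit 9) (.e (nat_lit 2992) (nat_lit 186) (.e (nat_lit 442423) (nat_lit 22) (.e (nat_lit 196626) (nat_lit 9) .nil))))))) (.g (nat_lit 4) .nil .nil)))) (.nd (nat_lit 5) 
(.lf (nat_lit 55133) (.g (nat_lit 888) (.e (nat_lit 1400) (nat_lit 106) (.e (nat_lit 319533) (nat_lit 16) (.e (nat_lit 286727) (nat_lit 0) .nil))) .nil)) 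
(.lf (nat_lit 55165) (.g (nat_lit 4166) (.e (nat_lit 1400) (nat_lit 106) (.e (nat_lit 319533) (nat_lit 16) (.e (nat_lit 286733) (nat_lit 2) (.e (nat_lit 90170) (nat_lit 13) (.e (nat_lit 172106) (nat_lit 10) (.e (nat_lit 434220) (nat_lit 19) (.e (nat_lit 499961) (nat_lit 14) .nil))))))) (.g (nat_lit 5) .nil .nil))))))) (.nd (nat_lit 2) (.nd (nat_lit 3) (.nd (nat_lit 4) (.nd (nat_lit 5) 
(.lf (nat_lit 55107) (.g (nat_lit 1109) (.e (nat_lit 1400) (nat_lit 106) (.e (nat_lit 319532) (nat_lit 16) (.e (nat_lit 286735) (nat_lit 3) (.e (nat_lit 98373) (nat_lit 29) .nil)))) .nil)) 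
(.lf (nat_lit 55139) (.g (nat_lit 1691) (.e (nat_lit 1400) (nat_lit 106) (.e (nat_lit 319533) (nat_lit 16) (.e (nat_lit 286732) (nat_lit 2) (.e (nat_lit 90170) (nat_lit 13) .nil)))) .nil))) (.nd (nat_lit 5) 
(.lf (nat_lit 55123) (.g (nat_lit 4074) (.e (nat_lit 1400) (nat_lit 106) (.e (nat_lit 319533) (nat_lit 16) (.e (nat_lit 286722) (nat_lit 0) (.e (nat_lit 1691) (nat_lit 117) (.e (nat_lit 499928) (nat_lit 11) (.e (nat_lit 188449) (nat_lit 22) (.e (nat_lit 196626) (nat_lit 9) .nil))))))) (.g (nat_lit 6) .nil .nil))) 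
(.lf (nat_lit 55155) (.g (nat_lit 3272) (.e (nat_lit 1400) (nat_lit 106) (.e (nat_lit 319533) (nat_lit 16) (.e (nat_lit 286733) (nat_lit 2) (.e (nat_lit 90170) (nat_lit 13) (.e (nat_lit 172085) (nat_lit 9) (.e (nat_lit 426120) (nat_lit 2) (.e (nat_lit 196626) (nat_lit 9) .nil))))))) (.g (nat_lit 4) .nil .nil))))) (.nd (nat_lit 4) (.nd (nat_lit 5) 
(.lf (nat_lit 55115) (.g (nat_lit 4050) (.e (nat_lit 1400) (nat_lit 106) (.e (nat_lit 319533) (nat_lit 16) (.e (nat_lit 286720) (nat_lit 0) (.e (nat_lit 1788) (nat_lit 119) (.e (nat_lit 516174) (nat_lit 14) (.e (nat_lit 466975) (nat_lit 22) (.e (nat_lit 196626) (nat_lit 9) .nil))))))) (.g (nat_lit 7) .nil .nil))) 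
(.lf (nat_lit 55147) (.g (nat_lit 4114) (.e (nat_lit 1400) (nat_lit 106) (.e (nat_lit 319533) (nat_lit 16) (.e (nat_lit 286732) (nat_lit 2) (.e (nat_lit 90176) (nat_lit 15) (.e (nat_lit 188456) (nat_lit 25) (.e (nat_lit 245781) (nat_lit 9) .nil)))))) (.g (nat_lit 5) .nil .nil)))) (.nd (nat_lit 5) 
(.lf (nat_lit 55131) (.g (nat_lit 3335) (.e (nat_lit 1400) (nat_lit 106) (.e (nat_lit 319533) (nat_lit 16) (.e (nat_lit 286725) (nat_lit 0) (.e (nat_lit 1799) (nat_lit 119) (.e (nat_lit 516177) (nat_lit 14) (.e (nat_lit 466977) (nat_lit 22) (.e (nat_lit 196626) (nat_lit 9) .nil))))))) (.g (nat_lit 7) .nil .nil))) 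
(.lf (nat_lit 55163) (.g (nat_lit 4802) (.e (nat_lit 1400) (nat_lit 106) (.e (nat_lit 319533) (nat_lit 16) (.e (nat_lit 286733) (nat_lit 2) (.e (nat_lit 90170) (nat_lit 13) (.e (nat_lit 172106) (nat_lit 10) (.e (nat_lit 434219) (nat_lit 19) (.e (nat_lit 499952) (nat_lit 14) .nil))))))) (.g (nat_lit 5) .nil .nil)))))) (.nd (nat_lit 3) (.nd (nat_lit 4) (.nd (nat_lit 5) 
(.lf (nat_lit 55111) (.g (nat_lit 8053) (.e (nat_lit 1400) (nat_lit 106) (.e (nat_lit 319533) (nat_lit 16) (.e (nat_lit 286720) (nat_lit 0) (.e (nat_lit 1788) (nat_lit 119) (.e (nat_lit 516151) (nat_lit 9) (.e (nat_lit 426211) (nat_lit 9) (.e (nat_lit 426125) (nat_lit 2) (.e (nat_lit 196626) (nat_lit 9) .nil)))))))) (.g (nat_lit 7) .nil .nil))) 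
(.lf (nat_lit 55143) (.g (nat_lit 4462) (.e (nat_lit 1400) (nat_lit 106) (.e (nat_lit 319533) (nat_lit 16) (.e (nat_lit 286732) (nat_lit 2) (.e (nat_lit 90175) (nat_lit 15) (.e (nat_lit 188449) (nat_lit 22) (.e (nat_lit 196626) (nat_lit 9) .nil)))))) (.g (nat_lit 5) .nil .nil)))) (.nd (nat_lit 5) 
(.lf (nat_lit 55127) (.g (nat_lit 3315) (.e (nat_lit 1400) (nat_lit 106) (.e (nat_lit 319533) (nat_lit 16) (.e (nat_lit 286725) (nat_lit 0) (.e (nat_lit 1799) (nat_lit 119) (.e (nat_lit 516174) (nat_lit 14) (.e (nat_lit 466975) (nat_lit 22) (.e (nat_lit 196626) (nat_lit 9) .nil))))))) (.g (nat_lit 7) .nil .nil))) 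
(.lf (nat_lit 55159) (.g (nat_lit 2881) (.e (nat_lit 1400) (nat_lit 106) (.e (nat_lit 319533) (nat_lit 16) (.e (nat_lit 286733) (nat_lit 2) (.e (nat_lit 90170) (nat_lit 13) (.e (nat_lit 172092) (nat_lit 9) (.e (nat_lit 426113) (nat_lit 2) (.e (nat_lit 196626) (nat_lit 9) .nil))))))) (.g (nat_lit 4) .nil .nil))))) (.nd (nat_lit 4) (.nd (nat_lit 5) 
(.lf (nat_lit 55119) (.g (nat_lit 2796) (.e (nat_lit 1400) (nat_lit 106) (.e (nat_lit 319533) (nat_lit 16) (.e (nat_lit 286720) (nat_lit 0) (.e (nat_lit 1788) (nat_lit 119) (.e (nat_lit 516176) (nat_lit 14) (.e (nat_lit 466976) (nat_lit 22) (.e (nat_lit 196626) (nat_lit 9) .nil))))))) (.g (nat_lit 4) .nil .nil))) 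
(.lf (nat_lit 55151) (.g (nat_lit 3093) (.e (nat_lit 1400) (nat_lit 106) (.e (nat_lit 319533) (nat_lit 16) (.e (nat_lit 286733) (nat_lit 2) (.e (nat_lit 90169) (nat_lit 13) (.e (nat_lit 172103) (nat_lit 9) (.e (nat_lit 426114) (nat_lit 2) (.e (nat_lit 196626) (nat_lit 9) .nil))))))) (.g (nat_lit 4) .nil .nil)))) (.nd (nat_lit 5) 
(.lf (nat_lit 55135) (.g (nat_lit 4066) (.e (nat_lit 1400) (nat_lit 106) (.e (nat_lit 319533) (nat_lit 16) (.e (nat_lit 286727) (nat_lit 0) (.e (nat_lit 1799) (nat_lit 119) (.e (nat_lit 516176) (nat_lit 14) (.e (nat_lit 466975) (nat_lit 22) (.e (nat_lit 196626) (nat_lit 9) .nil))))))) (.g (nat_lit 6) .nil .nil))) 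
(.lf (nat_lit 55167) (.g (nat_lit 3011) (.e (nat_lit 1400) (nat_lit 106) (.e (nat_lit 319533) (nat_lit 16) (.e (nat_lit 286733) (nat_lit 2) (.e (nat_lit 90170) (nat_lit 13) (.e (nat_lit 172110) (nat_lit 10) .nil))))) .nil))))))))

noncomputable def tv761 : DT := (.nd (nat_lit 0) (.nd (nat_lit 1) (.nd (nat_lit 2) (.nd (nat_lit 3) (.nd (nat_lit 4) (.nd (nat_lit 5) 
(.lf (nat_lit 55168) (.g (nat_lit 3472) (.e (nat_lit 1400) (nat_lit 106) (.e (nat_lit 319533) (nat_lit 16) (.e (nat_lit 286733) (nat_lit 2) (.e (nat_lit 90170) (nat_lit 13) (.e (nat_lit 172110) (nat_lit 10) (.e (nat_lit 434221) (nat_lit 19) (.e (nat_lit 499961) (nat_lit 14) .nil))))))) (.g (nat_lit 4) .nil .nil))) 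
(.lf (nat_lit 55200) (.g (nat_lit 3189) (.e (nat_lit 1400) (nat_lit 106) (.e (nat_lit 319533) (nat_lit 16) (.e (nat_lit 286735) (nat_lit 3) (.e (nat_lit 98356) (nat_lit 26) (.e (nat_lit 426241) (nat_lit 9) (.e (nat_lit 426123) (nat_lit 2) (.e (nat_lit 196626) (nat_lit 9) .nil))))))) (.g (nat_lit 4) .nil .nil)))) (.nd (nat_lit 5) 
(.lf (nat_lit 55184) (.g (nat_lit 6538) (.e (nat_lit 1400) (nat_lit 106) (.e (nat_lit 319533) (nat_lit 16) (.e (nat_lit 286734) (nat_lit 3) (.e (nat_lit 98359) (nat_lit 26) (.e (nat_lit 426211) (nat_lit 9) (.e (nat_lit 426125) (nat_lit 2) (.e (nat_lit 196626) (nat_lit 9) .nil))))))) (.g (nat_lit 6) .nil .nil))) 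
(.lf (nat_lit 55216) (.g (nat_lit 3093) (.e (nat_lit 1400) (nat_lit 106) (.e (nat_lit 319533) (nat_lit 16) (.e (nat_lit 286735) (nat_lit 3) (.e (nat_lit 98370) (nat_lit 28) (.e (nat_lit 442422) (nat_lit 22) (.e (nat_lit 196626) (nat_lit 9) .nil)))))) (.g (nat_lit 4) .nil .nil))))) (.nd (nat_lit 4) (.nd (nat_lit 5) 
(.lf (nat_lit 55176) (.g (nat_lit 4149) (.e (nat_lit 1400) (nat_lit 106) (.e (nat_lit 319533) (nat_lit 16) (.e (nat_lit 286733) (nat_lit 2) (.e (nat_lit 90176) (nat_lit 15) (.e (nat_lit 188456) (nat_lit 25) (.e (nat_lit 245781) (nat_lit 9) .nil)))))) (.g (nat_lit 4) .nil .nil))) 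
(.lf (nat_lit 55208) (.g (nat_lit 3953) (.e (nat_lit 1400) (nat_lit 106) (.e (nat_lit 319533) (nat_lit 16) (.e (nat_lit 286735) (nat_lit 3) (.e (nat_lit 98356) (nat_lit 26) (.e (nat_lit 426270) (nat_lit 9) (.e (nat_lit 426124) (nat_lit 2) (.e (nat_lit 196626) (nat_lit 9) .nil))))))) (.g (nat_lit 4) .nil .nil)))) (.nd (nat_lit 5) 
(.lf (nat_lit 55192) (.g (nat_lit 1526) (.e (nat_lit 1400) (nat_lit 106) (.e (nat_lit 319533) (nat_lit 16) (.e (nat_lit 286734) (nat_lit 3) (.e (nat_lit 98381) (nat_lit 31) .nil)))) .nil)) 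
(.lf (nat_lit 55224) (.g (nat_lit 3038) (.e (nat_lit 1400) (nat_lit 106) (.e (nat_lit 319533) (nat_lit 16) (.e (nat_lit 286735) (nat_lit 3) (.e (nat_lit 98372) (nat_lit 29) (.e (nat_lit 450570) (nat_lit 1) (.e (nat_lit 499961) (nat_lit 14) .nil)))))) (.g (nat_lit 4) .nil .nil)))))) (.nd (nat_lit 3) (.nd (nat_lit 4) (.nd (nat_lit 5) 
(.lf (nat_lit 55172) (.g (nat_lit 5088) (.e (nat_lit 1400) (nat_lit 106) (.e (nat_lit 319533) (nat_lit 16) (.e (nat_lit 286733) (nat_lit 2) (.e (nat_lit 90175) (nat_lit 15) (.e (nat_lit 188449) (nat_lit 22) (.e (nat_lit 196626) (nat_lit 9) .nil)))))) (.g (nat_lit 5) .nil .nil))) 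
(.lf (nat_lit 55204) (.g (nat_lit 3146) (.e (nat_lit 1400) (nat_lit 106) (.e (nat_lit 319533) (nat_lit 16) (.e (nat_lit 286735) (nat_lit 3) (.e (nat_lit 98356) (nat_lit 26) (.e (nat_lit 426244) (nat_lit 9) (.e (nat_lit 426123) (nat_lit 2) (.e (nat_lit 196626) (nat_lit 9) .nil))))))) (.g (nat_lit 4) .nil .nil)))) (.nd (nat_lit 5) 
(.lf (nat_lit 55188) (.g (nat_lit 2509) (.e (nat_lit 1400) (nat_lit 106) (.e (nat_lit 319533) (nat_lit 16) (.e (nat_lit 286734) (nat_lit 3) (.e (nat_lit 98370) (nat_lit 28) (.e (nat_lit 442424) (nat_lit 22) .nil))))) .nil)) 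
(.lf (nat_lit 55220) (.g (nat_lit 3045) (.e (nat_lit 1400) (nat_lit 106) (.e (nat_lit 319533) (nat_lit 16) (.e (nat_lit 286735) (nat_lit 3) (.e (nat_lit 98370) (nat_lit 28) (.e (nat_lit 442432) (nat_lit 25) (.e (nat_lit 245781) (nat_lit 9) .nil)))))) (.g (nat_lit 4) .nil .nil))))) (.nd (nat_lit 4) (.nd (nat_lit 5) 
(.lf (nat_lit 55180) (.g (nat_lit 5777) (.e (nat_lit 1400) (nat_lit 106) (.e (nat_lit 319533) (nat_lit 16) (.e (nat_lit 286733) (nat_lit 2) (.e (nat_lit 90178) (nat_lit 15) (.e (nat_lit 188449) (nat_lit 22) (.e (nat_lit 196626) (nat_lit 9) .nil)))))) (.g (nat_lit 5) .nil .nil))) 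
(.lf (nat_lit 55212) (.g (nat_lit 3058) (.e (nat_lit 1400) (nat_lit 106) (.e (nat_lit 319533) (nat_lit 16) (.e (nat_lit 286735) (nat_lit 3) (.e (nat_lit 98365) (nat_lit 26) (.e (nat_lit 426298) (nat_lit 11) (.e (nat_lit 458781) (nat_lit 19) (.e (nat_lit 499961) (nat_lit 14) .nil))))))) (.g (nat_lit 4) .nil .nil)))) (.nd (nat_lit 5) 
(.lf (nat_lit 55196) (.g (nat_lit 4259) (.e (nat_lit 1400) (nat_lit 106) (.e (nat_lit 319533) (nat_lit 16) (.e (nat_lit 286734) (nat_lit 3) (.e (nat_lit 98381) (nat_lit 31) (.e (nat_lit 466977) (nat_lit 22) (.e (nat_lit 196626) (nat_lit 9) .nil)))))) (.g (nat_lit 0) .nil .nil))) 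
(.lf (nat_lit 55228) (.g (nat_lit 2628) (.e (nat_lit 1400) (nat_lit 106) (.e (nat_lit 319533) (nat_lit 16) (.e (nat_lit 286735) (nat_lit 3) (.e (nat_lit 98372) (nat_lit 29) (.e (nat_lit 450572) (nat_lit 1) .nil))))) .nil)))))) (.nd (nat_lit 2) (.nd (nat_lit 3) (.nd (nat_lit 4) (.nd (nat_lit 5) 
(.lf (nat_lit 55170) (.g (nat_lit 3376) (.e (nat_lit 1400) (nat_lit 106) (.e (nat_lit 319533) (nat_lit 16) (.e (nat_lit 286733) (nat_lit 2) (.e (nat_lit 90170) (nat_lit 13) (.e (nat_lit 172110) (nat_lit 10) (.e (nat_lit 434223) (nat_lit 19) (.e (nat_lit 499961) (nat_lit 14) .nil))))))) (.g (nat_lit 4) .nil .nil))) 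
(.lf (nat_lit 55202) (.g (nat_lit 3296) (.e (nat_lit 1400) (nat_lit 106) (.e (nat_lit 319533) (nat_lit 16) (.e (nat_lit 286735) (nat_lit 3) (.e (nat_lit 98356) (nat_lit 26) (.e (nat_lit 426244) (nat_lit 9) (.e (nat_lit 426121) (nat_lit 2) (.e (nat_lit 196626) (nat_lit 9) .nil))))))) (.g (nat_lit 4) .nil .nil)))) (.nd (nat_lit 5) 
(.lf (nat_lit 55186) (.g (nat_lit 1636) (.e (nat_lit 1400) (nat_lit 106) (.e (nat_lit 319533) (nat_lit 16) (.e (nat_lit 286734) (nat_lit 3) (.e (nat_lit 98365) (nat_lit 26) .nil)))) .nil)) 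
(.lf (nat_lit 55218) (.g (nat_lit 4655) (.e (nat_lit 1400) (nat_lit 106) (.e (nat_lit 319533) (nat_lit 16) (.e (nat_lit 286735) (nat_lit 3) (.e (nat_lit 98370) (nat_lit 28) (.e (nat_lit 442424) (nat_lit 22) (.e (nat_lit 196626) (nat_lit 9) .nil)))))) (.g (nat_lit 5) .nil .nil))))) (.nd (nat_lit 4) (.nd (nat_lit 5) 
(.lf (nat_lit 55178) (.g (nat_lit 2696) (.e (nat_lit 1400) (nat_lit 106) (.e (nat_lit 319533) (nat_lit 16) (.e (nat_lit 286733) (nat_lit 2) (.e (nat_lit 90177) (nat_lit 15) (.e (nat_lit 188458) (nat_lit 25) (.e (nat_lit 245781) (nat_lit 9) .nil)))))) (.g (nat_lit 5) .nil .nil))) 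
(.lf (nat_lit 55210) (.g (nat_lit 3708) (.e (nat_lit 1400) (nat_lit 106) (.e (nat_lit 319533) (nat_lit 16) (.e (nat_lit 286735) (nat_lit 3) (.e (nat_lit 98359) (nat_lit 26) (.e (nat_lit 426211) (nat_lit 9) (.e (nat_lit 426125) (nat_lit 2) (.e (nat_lit 196617) (nat_lit 9) .nil))))))) (.g (nat_lit 4) .nil .nil)))) (.nd (nat_lit 5) 
(.lf (nat_lit 55194) (.g (nat_lit 3230) (.e (nat_lit 1400) (nat_lit 106) (.e (nat_lit 319533) (nat_lit 16) (.e (nat_lit 286734) (nat_lit 3) (.e (nat_lit 98381) (nat_lit 31) (.e (nat_lit 466975) (nat_lit 22) (.e (nat_lit 196626) (nat_lit 9) .nil)))))) (.g (nat_lit 5) .nil .nil))) 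
(.lf (nat_lit 55226) (.g (nat_lit 3705) (.e (nat_lit 1400) (nat_lit 106) (.e (nat_lit 319533) (nat_lit 16) (.e (nat_lit 286735) (nat_lit 3) (.e (nat_lit 98372) (nat_lit 29) (.e (nat_lit 450571) (nat_lit 1) (.e (nat_lit 499952) (nat_lit 14) .nil)))))) (.g (nat_lit 6) .nil .nil)))))) (.nd (nat_lit 3) (.nd (nat_lit 4) (.nd (nat_lit 5) 
(.lf (nat_lit 55174) (.g (nat_lit 3498) (.e (nat_lit 1400) (nat_lit 106) (.e (nat_lit 319533) (nat_lit 16) (.e (nat_lit 286733) (nat_lit 2) (.e (nat_lit 90176) (nat_lit 15) (.e (nat_lit 188448) (nat_lit 22) .nil))))) .nil)) 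
(.lf (nat_lit 55206) (.g (nat_lit 3133) (.e (nat_lit 1400) (nat_lit 106) (.e (nat_lit 319533) (nat_lit 16) (.e (nat_lit 286735) (nat_lit 3) (.e (nat_lit 98356) (nat_lit 26) (.e (nat_lit 426255) (nat_lit 9) .nil))))) .nil))) (.nd (nat_lit 5) 
(.lf (nat_lit 55190) (.g (nat_lit 3867) (.e (nat_lit 1400) (nat_lit 106) (.e (nat_lit 319533) (nat_lit 16) (.e (nat_lit 286734) (nat_lit 3) (.e (nat_lit 98370) (nat_lit 28) (.e (nat_lit 442433) (nat_lit 25) (.e (nat_lit 245781) (nat_lit 9) .nil)))))) (.g (nat_lit 5) .nil .nil))) 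
(.lf (nat_lit 55222) (.g (nat_lit 2954) (.e (nat_lit 1400) (nat_lit 106) (.e (nat_lit 319533) (nat_lit 16) (.e (nat_lit 286735) (nat_lit 3) (.e (nat_lit 98371) (nat_lit 28) (.e (nat_lit 442422) (nat_lit 22) (.e (nat_lit 196626) (nat_lit 9) .nil)))))) (.g (nat_lit 4) .nil .nil))))) (.nd (nat_lit 4) (.nd (nat_lit 5) 
(.lf (nat_lit 55182) (.g (nat_lit 2929) (.e (nat_lit 1400) (nat_lit 106) (.e (nat_lit 319533) (nat_lit 16) (.e (nat_lit 286733) (nat_lit 2) (.e (nat_lit 90178) (nat_lit 15) (.e (nat_lit 188458) (nat_lit 25) .nil))))) .nil)) 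
(.lf (nat_lit 55214) (.g (nat_lit 2911) (.e (nat_lit 1400) (nat_lit 106) (.e (nat_lit 319533) (nat_lit 16) (.e (nat_lit 286735) (nat_lit 3) (.e (nat_lit 98369) (nat_lit 28) (.e (nat_lit 442424) (nat_lit 22) (.e (nat_lit 196626) (nat_lit 9) .nil)))))) (.g (nat_lit 4) .nil .nil)))) (.nd (nat_lit 5) 
(.lf (nat_lit 55198) (.g (nat_lit 2579) (.e (nat_lit 1400) (nat_lit 106) (.e (nat_lit 319533) (nat_lit 16) (.e (nat_lit 286735) (nat_lit 3) (.e (nat_lit 98323) (nat_lit 17) (.e (nat_lit 7936) (nat_lit 392) (.e (nat_lit 172063) (nat_lit 2) (.e (nat_lit 196626) (nat_lit 9) .nil))))))) (.g (nat_lit 4) .nil .nil))) 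
(.lf (nat_lit 55230) (.g (nat_lit 2839) (.e (nat_lit 1400) (nat_lit 106) (.e (nat_lit 319533) (nat_lit 16) (.e (nat_lit 286735) (nat_lit 3) (.e (nat_lit 98372) (nat_lit 29) (.e (nat_lit 458496) (nat_lit 1) (.e (nat_lit 499961) (nat_lit 14) .nil)))))) (.g (nat_lit 4) .nil .nil)))))))) (.nd (nat_lit 1) (.nd (nat_lit 2) (.nd (nat_lit 3) (.nd (nat_lit 4) (.nd (nat_lit 5) 
(.lf (nat_lit 55169) (.g (nat_lit 3615) (.e (nat_lit 1400) (nat_lit 106) (.e (nat_lit 319533) (nat_lit 16) (.e (nat_lit 286733) (nat_lit 2) (.e (nat_lit 90170) (nat_lit 13) (.e (nat_lit 172110) (nat_lit 10) (.e (nat_lit 434222) (nat_lit 19) (.e (nat_lit 499961) (nat_lit 14) .nil))))))) (.g (nat_lit 4) .nil .nil))) 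
(.lf (nat_lit 55201) (.g (nat_lit 4037) (.e (nat_lit 1400) (nat_lit 106) (.e (nat_lit 319533) (nat_lit 16) (.e (nat_lit 286735) (nat_lit 3) (.e (nat_lit 98356) (nat_lit 26) (.e (nat_lit 426241) (nat_lit 9) (.e (nat_lit 426124) (nat_lit 2) (.e (nat_lit 196626) (nat_lit 9) .nil))))))) (.g (nat_lit 4) .nil .nil)))) (.nd (nat_lit 5) 
(.lf (nat_lit 55185) (.g (nat_lit 2540) (.e (nat_lit 1400) (nat_lit 106) (.e (nat_lit 319533) (nat_lit 16) (.e (nat_lit 286734) (nat_lit 3) (.e (nat_lit 98359) (nat_lit 26) (.e (nat_lit 426286) (nat_lit 10) .nil))))) .nil)) 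
(.lf (nat_lit 55217) (.g (nat_lit 4537) (.e (nat_lit 1400) (nat_lit 106) (.e (nat_lit 319533) (nat_lit 16) (.e (nat_lit 286735) (nat_lit 3) (.e (nat_lit 98370) (nat_lit 28) (.e (nat_lit 442423) (nat_lit 22) (.e (nat_lit 196626) (nat_lit 9) .nil)))))) (.g (nat_lit 6) .nil .nil))))) (.nd (nat_lit 4) (.nd (nat_lit 5) 
(.lf (nat_lit 55177) (.g (nat_lit 5107) (.e (nat_lit 1400) (nat_lit 106) (.e (nat_lit 319533) (nat_lit 16) (.e (nat_lit 286733) (nat_lit 2) (.e (nat_lit 90177) (nat_lit 15) (.e (nat_lit 188449) (nat_lit 22) (.e (nat_lit 196626) (nat_lit 9) .nil)))))) (.g (nat_lit 6) .nil .nil))) 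
(.lf (nat_lit 55209) (.g (nat_lit 4178) (.e (nat_lit 1400) (nat_lit 106) (.e (nat_lit 319533) (nat_lit 16) (.e (nat_lit 286735) (nat_lit 3) (.e (nat_lit 98359) (nat_lit 26) (.e (nat_lit 426208) (nat_lit 9) (.e (nat_lit 426120) (nat_lit 2) (.e (nat_lit 196626) (nat_lit 9) .nil))))))) (.g (nat_lit 4) .nil .nil)))) (.nd (nat_lit 5) 
(.lf (nat_lit 55193) (.g (nat_lit 2745) (.e (nat_lit 1400) (nat_lit 106) (.e (nat_lit 319533) (nat_lit 16) (.e (nat_lit 286734) (nat_lit 3) (.e (nat_lit 98381) (nat_lit 31) (.e (nat_lit 466974) (nat_lit 22) (.e (nat_lit 196626) (nat_lit 9) .nil)))))) (.g (nat_lit 4) .nil .nil))) 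
(.lf (nat_lit 55225) (.g (nat_lit 2141) (.e (nat_lit 1400) (nat_lit 106) (.e (nat_lit 319533) (nat_lit 16) (.e (nat_lit 286735) (nat_lit 3) (.e (nat_lit 98372) (nat_lit 29) (.e (nat_lit 450571) (nat_lit 1) .nil))))) .nil))))) (.nd (nat_lit 3) (.nd (nat_lit 4) (.nd (nat_lit 5) 
(.lf (nat_lit 55173) (.g (nat_lit 3910) (.e (nat_lit 1400) (nat_lit 106) (.e (nat_lit 319533) (nat_lit 16) (.e (nat_lit 286733) (nat_lit 2) (.e (nat_lit 90176) (nat_lit 15) (.e (nat_lit 188447) (nat_lit 22) (.e (nat_lit 196626) (nat_lit 9) .nil)))))) (.g (nat_lit 4) .nil .nil))) 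
(.lf (nat_lit 55205) (.g (nat_lit 3614) (.e (nat_lit 1400) (nat_lit 106) (.e (nat_lit 319533) (nat_lit 16) (.e (nat_lit 286735) (nat_lit 3) (.e (nat_lit 98356) (nat_lit 26) (.e (nat_lit 426244) (nat_lit 9) (.e (nat_lit 426124) (nat_lit 2) (.e (nat_lit 196626) (nat_lit 9) .nil))))))) (.g (nat_lit 4) .nil .nil)))) (.nd (nat_lit 5) 
(.lf (nat_lit 55189) (.g (nat_lit 4718) (.e (nat_lit 1400) (nat_lit 106) (.e (nat_lit 319533) (nat_lit 16) (.e (nat_lit 286734) (nat_lit 3) (.e (nat_lit 98370) (nat_lit 28) (.e (nat_lit 442424) (nat_lit 22) (.e (nat_lit 196626) (nat_lit 9) .nil)))))) (.g (nat_lit 6) .nil .nil))) 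
(.lf (nat_lit 55221) (.g (nat_lit 4380) (.e (nat_lit 1400) (nat_lit 106) (.e (nat_lit 319533) (nat_lit 16) (.e (nat_lit 286735) (nat_lit 3) (.e (nat_lit 98370) (nat_lit 28) (.e (nat_lit 442433) (nat_lit 25) (.e (nat_lit 245781) (nat_lit 9) .nil)))))) (.g (nat_lit 5) .nil .nil))))) (.nd (nat_lit 4) (.nd (nat_lit 5) 
(.lf (nat_lit 55181) (.g (nat_lit 3138) (.e (nat_lit 1400) (nat_lit 106) (.e (nat_lit 319533) (nat_lit 16) (.e (nat_lit 286733) (nat_lit 2) (.e (nat_lit 90178) (nat_lit 15) (.e (nat_lit 188456) (nat_lit 25) (.e (nat_lit 245781) (nat_lit 9) .nil)))))) (.g (nat_lit 4) .nil .nil))) 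
(.lf (nat_lit 55213) (.g (nat_lit 2601) (.e (nat_lit 1400) (nat_lit 106) (.e (nat_lit 319533) (nat_lit 16) (.e (nat_lit 286735) (nat_lit 3) (.e (nat_lit 98369) (nat_lit 28) (.e (nat_lit 442423) (nat_lit 22) (.e (nat_lit 196626) (nat_lit 9) .nil)))))) (.g (nat_lit 4) .nil .nil)))) (.nd (nat_lit 5) 
(.lf (nat_lit 55197) (.g (nat_lit 275) (.e (nat_lit 1400) (nat_lit 106) (.e (nat_lit 319533) (nat_lit 16) (.e (nat_lit 286735) (nat_lit 3) .nil))) .nil)) 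
(.lf (nat_lit 55229) (.g (nat_lit 2966) (.e (nat_lit 1400) (nat_lit 106) (.e (nat_lit 319533) (nat_lit 16) (.e (nat_lit 286735) (nat_lit 3) (.e (nat_lit 98372) (nat_lit 29) (.e (nat_lit 450573) (nat_lit 1) (.e (nat_lit 499961) (nat_lit 14) .nil)))))) (.g (nat_lit 4) .nil .nil))))))) (.nd (nat_lit 2) (.nd (nat_lit 3) (.nd (nat_lit 4) (.nd (nat_lit 5) 
(.lf (nat_lit 55171) (.g (nat_lit 2937) (.e (nat_lit 1400) (nat_lit 106) (.e (nat_lit 319533) (nat_lit 16) (.e (nat_lit 286733) (nat_lit 2) (.e (nat_lit 90170) (nat_lit 13) (.e (nat_lit 172113) (nat_lit 10) .nil))))) .nil)) 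
(.lf (nat_lit 55203) (.g (nat_lit 3309) (.e (nat_lit 1400) (nat_lit 106) (.e (nat_lit 319533) (nat_lit 16) (.e (nat_lit 286735) (nat_lit 3) (.e (nat_lit 98356) (nat_lit 26) (.e (nat_lit 426244) (nat_lit 9) (.e (nat_lit 426122) (nat_lit 2) (.e (nat_lit 196626) (nat_lit 9) .nil))))))) (.g (nat_lit 4) .nil .nil)))) (.nd (nat_lit 5) 
(.lf (nat_lit 55187) (.g (nat_lit 3458) (.e (nat_lit 1400) (nat_lit 106) (.e (nat_lit 319533) (nat_lit 16) (.e (nat_lit 286734) (nat_lit 3) (.e (nat_lit 98370) (nat_lit 28) (.e (nat_lit 442423) (nat_lit 22) (.e (nat_lit 196626) (nat_lit 9) .nil)))))) (.g (nat_lit 4) .nil .nil))) 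
(.lf (nat_lit 55219) (.g (nat_lit 3156) (.e (nat_lit 1400) (nat_lit 106) (.e (nat_lit 319533) (nat_lit 16) (.e (nat_lit 286735) (nat_lit 3) (.e (nat_lit 98370) (nat_lit 28) (.e (nat_lit 442431) (nat_lit 25) (.e (nat_lit 245781) (nat_lit 9) .nil)))))) (.g (nat_lit 4) .nil .nil))))) (.nd (nat_lit 4) (.nd (nat_lit 5) 
(.lf (nat_lit 55179) (.g (nat_lit 3950) (.e (nat_lit 1400) (nat_lit 106) (.e (nat_lit 319533) (nat_lit 16) (.e (nat_lit 286733) (nat_lit 2) (.e (nat_lit 90178) (nat_lit 15) (.e (nat_lit 188448) (nat_lit 22) (.e (nat_lit 196626) (nat_lit 9) .nil)))))) (.g (nat_lit 5) .nil .nil))) 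
(.lf (nat_lit 55211) (.g (nat_lit 2876) (.e (nat_lit 1400) (nat_lit 106) (.e (nat_lit 319533) (nat_lit 16) (.e (nat_lit 286735) (nat_lit 3) (.e (nat_lit 98365) (nat_lit 26) (.e (nat_lit 426298) (nat_lit 11) .nil))))) .nil))) (.nd (nat_lit 5) 
(.lf (nat_lit 55195) (.g (nat_lit 3585) (.e (nat_lit 1400) (nat_lit 106) (.e (nat_lit 319533) (nat_lit 16) (.e (nat_lit 286734) (nat_lit 3) (.e (nat_lit 98381) (nat_lit 31) (.e (nat_lit 466976) (nat_lit 22) (.e (nat_lit 196626) (nat_lit 9) .nil)))))) (.g (nat_lit 0) .nil .nil))) 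
(.lf (nat_lit 55227) (.g (nat_lit 3743) (.e (nat_lit 1400) (nat_lit 106) (.e (nat_lit 319533) (nat_lit 16) (.e (nat_lit 286735) (nat_lit 3) (.e (nat_lit 98372) (nat_lit 29) (.e (nat_lit 450571) (nat_lit 1) (.e (nat_lit 499961) (nat_lit 14) .nil)))))) (.g (nat_lit 0) .nil .nil)))))) (.nd (nat_lit 3) (.nd (nat_lit 4) (.nd (nat_lit 5) 
(.lf (nat_lit 55175) (.g (nat_lit 5251) (.e (nat_lit 1400) (nat_lit 106) (.e (nat_lit 319533) (nat_lit 16) (.e (nat_lit 286733) (nat_lit 2) (.e (nat_lit 90176) (nat_lit 15) (.e (nat_lit 188449) (nat_lit 22) (.e (nat_lit 196626) (nat_lit 9) .nil)))))) (.g (nat_lit 5) .nil .nil))) 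
(.lf (nat_lit 55207) (.g (nat_lit 4525) (.e (nat_lit 1400) (nat_lit 106) (.e (nat_lit 319533) (nat_lit 16) (.e (nat_lit 286735) (nat_lit 3) (.e (nat_lit 98356) (nat_lit 26) (.e (nat_lit 426270) (nat_lit 9) (.e (nat_lit 426123) (nat_lit 2) (.e (nat_lit 196626) (nat_lit 9) .nil))))))) (.g (nat_lit 5) .nil .nil)))) (.nd (nat_lit 5) 
(.lf (nat_lit 55191) (.g (nat_lit 1544) (.e (nat_lit 1400) (nat_lit 106) (.e (nat_lit 319533) (nat_lit 16) (.e (nat_lit 286734) (nat_lit 3) (.e (nat_lit 98371) (nat_lit 28) .nil)))) .nil)) 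
(.lf (nat_lit 55223) (.g (nat_lit 2978) (.e (nat_lit 1400) (nat_lit 106) (.e (nat_lit 319533) (nat_lit 16) (.e (nat_lit 286735) (nat_lit 3) (.e (nat_lit 98371) (nat_lit 28) (.e (nat_lit 442424) (nat_lit 22) (.e (nat_lit 196626) (nat_lit 9) .nil)))))) (.g (nat_lit 4) .nil .nil))))) (.nd (nat_lit 4) (.nd (nat_lit 5) 
(.lf (nat_lit 55183) (.g (nat_lit 5752) (.e (nat_lit 1400) (nat_lit 106) (.e (nat_lit 319533) (nat_lit 16) (.e (nat_lit 286734) (nat_lit 3) (.e (nat_lit 98359) (nat_lit 26) (.e (nat_lit 426211) (nat_lit 9) (.e (nat_lit 426125) (nat_lit 2) (.e (nat_lit 196617) (nat_lit 9) .nil))))))) (.g (nat_lit 6) .nil .nil))) 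
(.lf (nat_lit 55215) (.g (nat_lit 2089) (.e (nat_lit 1400) (nat_lit 106) (.e (nat_lit 319533) (nat_lit 16) (.e (nat_lit 286735) (nat_lit 3) (.e (nat_lit 98369) (nat_lit 28) (.e (nat_lit 442433) (nat_lit 25) .nil))))) .nil))) (.nd (nat_lit 5) 
(.lf (nat_lit 55199) (.g (nat_lit 2355) (.e (nat_lit 1400) (nat_lit 106) (.e (nat_lit 319533) (nat_lit 16) (.e (nat_lit 286735) (nat_lit 3) (.e (nat_lit 98354) (nat_lit 26) (.e (nat_lit 426270) (nat_lit 9) .nil))))) .nil)) 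
(.lf (nat_lit 55231) (.g (nat_lit 3365) (.e (nat_lit 1400) (nat_lit 106) (.e (nat_lit 319533) (nat_lit 16) (.e (nat_lit 286735) (nat_lit 3) (.e (nat_lit 98380) (nat_lit 31) (.e (nat_lit 466974) (nat_lit 22) (.e (nat_lit 196626) (nat_lit 9) .nil)))))) (.g (nat_lit 4) .nil .nil)))))))))

noncomputable def tv762 : DT := (.nd (nat_lit 0) (.nd (nat_lit 1) (.nd (nat_lit 2) (.nd (nat_lit 3) (.nd (nat_lit 4) (.nd (nat_lit 5) 
(.lf (nat_lit 55232) (.g (nat_lit 3283) (.e (nat_lit 1400) (nat_lit 106) (.e (nat_lit 319533) (nat_lit 16) (.e (nat_lit 286735) (nat_lit 3) (.e (nat_lit 98380) (nat_lit 31) (.e (nat_lit 466975) (nat_lit 22) (.e (nat_lit 196626) (nat_lit 9) .nil)))))) (.g (nat_lit 4) .nil .nil))) 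
(.lf (nat_lit 55264) (.g (nat_lit 2733) (.e (nat_lit 1400) (nat_lit 106) (.e (nat_lit 319533) (nat_lit 16) (.e (nat_lit 286753) (nat_lit 10) (.e (nat_lit 344157) (nat_lit 36) (.e (nat_lit 638986) (nat_lit 5) (.e (nat_lit 2828) (nat_lit 182) (.e (nat_lit 417536) (nat_lit 0) (.e (nat_lit 5305) (nat_lit 298) .nil)))))))) (.g (nat_lit 6) .nil .nil)))) (.nd (nat_lit 5) 
(.lf (nat_lit 55248) (.g (nat_lit 2458) (.e (nat_lit 1400) (nat_lit 106) (.e (nat_lit 319533) (nat_lit 16) (.e (nat_lit 286753) (nat_lit 10) (.e (nat_lit 344154) (nat_lit 35) (.e (nat_lit 630789) (nat_lit 5) (.e (nat_lit 2936) (nat_lit 184) (.e (nat_lit 425984) (nat_lit 0) (.e (nat_lit 7485) (nat_lit 402) .nil)))))))) (.g (nat_lit 4) .nil .nil))) 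
(.lf (nat_lit 55280) (.g (nat_lit 3670) (.e (nat_lit 1400) (nat_lit 106) (.e (nat_lit 319533) (nat_lit 16) (.e (nat_lit 286753) (nat_lit 10) (.e (nat_lit 344160) (nat_lit 37) (.e (nat_lit 647190) (nat_lit 9) (.e (nat_lit 359) (nat_lit 30) (.e (nat_lit 409602) (nat_lit 0) (.e (nat_lit 5245) (nat_lit 298) .nil)))))))) (.g (nat_lit 6) .nil .nil))))) (.nd (nat_lit 4) (.nd (nat_lit 5) 
(.lf (nat_lit 55240) (.g (nat_lit 3696) (.e (nat_lit 1400) (nat_lit 106) (.e (nat_lit 319533) (nat_lit 16) (.e (nat_lit 286735) (nat_lit 3) (.e (nat_lit 98382) (nat_lit 31) (.e (nat_lit 466977) (nat_lit 22) (.e (nat_lit 196626) (nat_lit 9) .nil)))))) (.g (nat_lit 0) .nil .nil))) 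
(.lf (nat_lit 55272) (.g (nat_lit 2252) (.e (nat_lit 1400) (nat_lit 106) (.e (nat_lit 319533) (nat_lit 16) (.e (nat_lit 286753) (nat_lit 10) (.e (nat_lit 344157) (nat_lit 36) (.e (nat_lit 638999) (nat_lit 8) (.e (nat_lit 172032) (nat_lit 0) (.e (nat_lit 7490) (nat_lit 402) .nil))))))) (.g (nat_lit 5) .nil .nil)))) (.nd (nat_lit 5) 
(.lf (nat_lit 55256) (.g (nat_lit 3223) (.e (nat_lit 1400) (nat_lit 106) (.e (nat_lit 319533) (nat_lit 16) (.e (nat_lit 286753) (nat_lit 10) (.e (nat_lit 344156) (nat_lit 36) (.e (nat_lit 638998) (nat_lit 8) (.e (nat_lit 172034) (nat_lit 0) (.e (nat_lit 7496) (nat_lit 402) .nil))))))) (.g (nat_lit 7) .nil .nil))) 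
(.lf (nat_lit 55288) (.g (nat_lit 2677) (.e (nat_lit 1400) (nat_lit 106) (.e (nat_lit 319533) (nat_lit 16) (.e (nat_lit 286753) (nat_lit 10) (.e (nat_lit 344160) (nat_lit 37) (.e (nat_lit 647195) (nat_lit 9) (.e (nat_lit 7936) (nat_lit 31) (.e (nat_lit 417796) (nat_lit 0) (.e (nat_lit 5256) (nat_lit 298) .nil)))))))) (.g (nat_lit 5) .nil .nil)))))) 
(.nd (nat_lit 3) (.nd (nat_lit 4) (.nd (nat_lit 5) 
(.lf (nat_lit 55236) (.g (nat_lit 3673) (.e (nat_lit 1400) (nat_lit 106) (.e (nat_lit 319533) (nat_lit 16) (.e (nat_lit 286735) (nat_lit 3) (.e (nat_lit 98381) (nat_lit 31) (.e (nat_lit 466976) (nat_lit 22) (.e (nat_lit 196626) (nat_lit 9) .nil)))))) (.g (nat_lit 5) .nil .nil))) 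
(.lf (nat_lit 55268) (.g (nat_lit 2748) (.e (nat_lit 1400) (nat_lit 106) (.e (nat_lit 319533) (nat_lit 16) (.e (nat_lit 286753) (nat_lit 10) (.e (nat_lit 344157) (nat_lit 36) (.e (nat_lit 646912) (nat_lit 5) (.e (nat_lit 2936) (nat_lit 184) (.e (nat_lit 425984) (nat_lit 0) (.e (nat_lit 7489) (nat_lit 402) .nil)))))))) (.g (nat_lit 4) .nil .nil)))) (.nd (nat_lit 5) 
(.lf (nat_lit 55252) (.g (nat_lit 1966) (.e (nat_lit 1400) (nat_lit 106) (.e (nat_lit 319533) (nat_lit 16) (.e (nat_lit 286753) (nat_lit 10) (.e (nat_lit 344154) (nat_lit 35) (.e (nat_lit 630803) (nat_lit 9) (.e (nat_lit 188160) (nat_lit 32) .nil)))))) (.g (nat_lit 5) .nil .nil))) 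
(.lf (nat_lit 55284) (.g (nat_lit 1894) (.e (nat_lit 1400) (nat_lit 106) (.e (nat_lit 319533) (nat_lit 16) (.e (nat_lit 286753) (nat_lit 10) (.e (nat_lit 344160) (nat_lit 37) (.e (nat_lit 647190) (nat_lit 9) (.e (nat_lit 365) (nat_lit 31) (.e (nat_lit 417795) (nat_lit 0) (.e (nat_lit 5256) (nat_lit 298) .nil)))))))) (.g (nat_lit 4) .nil .nil))))) (.nd (nat_lit 4) (.nd (nat_lit 5) 
(.lf (nat_lit 55244) (.g (nat_lit 2378) (.e (nat_lit 1400) (nat_lit 106) (.e (nat_lit 319533) (nat_lit 16) (.e (nat_lit 286753) (nat_lit 10) (.e (nat_lit 344089) (nat_lit 18) (.e (nat_lit 5166) (nat_lit 292) (.e (nat_lit 2638) (nat_lit 165) (.e (nat_lit 188160) (nat_lit 32) .nil))))))) (.g (nat_lit 5) .nil .nil))) 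
(.lf (nat_lit 55276) (.g (nat_lit 2236) (.e (nat_lit 1400) (nat_lit 106) (.e (nat_lit 319533) (nat_lit 16) (.e (nat_lit 286753) (nat_lit 10) (.e (nat_lit 344157) (nat_lit 36) (.e (nat_lit 646912) (nat_lit 9) (.e (nat_lit 188160) (nat_lit 32) .nil)))))) (.g (nat_lit 4) .nil .nil)))) (.nd (nat_lit 5) 
(.lf (nat_lit 55260) (.g (nat_lit 3237) (.e (nat_lit 1400) (nat_lit 106) (.e (nat_lit 319533) (nat_lit 16) (.e (nat_lit 286753) (nat_lit 10) (.e (nat_lit 344157) (nat_lit 36) (.e (nat_lit 638985) (nat_lit 5) (.e (nat_lit 2828) (nat_lit 182) (.e (nat_lit 417536) (nat_lit 0) (.e (nat_lit 5272) (nat_lit 298) .nil)))))))) (.g (nat_lit 6) .nil .nil))) 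
(.lf (nat_lit 55292) (.g (nat_lit 2289) (.e (nat_lit 1400) (nat_lit 106) (.e (nat_lit 319533) (nat_lit 16) (.e (nat_lit 286753) (nat_lit 10) (.e (nat_lit 344160) (nat_lit 37) (.e (nat_lit 647195) (nat_lit 9) (.e (nat_lit 420) (nat_lit 32) (.e (nat_lit 425984) (nat_lit 0) (.e (nat_lit 7489) (nat_lit 402) .nil)))))))) (.g (nat_lit 4) .nil .nil))))))) 
(.nd (nat_lit 2) (.nd (nat_lit 3) (.nd (nat_lit 4) (.nd (nat_lit 5) 
(.lf (nat_lit 55234) (.g (nat_lit 3096) (.e (nat_lit 1400) (nat_lit 106) (.e (nat_lit 319533) (nat_lit 16) (.e (nat_lit 286735) (nat_lit 3) (.e (nat_lit 98381) (nat_lit 31) (.e (nat_lit 466974) (nat_lit 22) (.e (nat_lit 196626) (nat_lit 9) .nil)))))) (.g (nat_lit 4) .nil .nil))) 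
(.lf (nat_lit 55266) (.g (nat_lit 2758) (.e (nat_lit 1400) (nat_lit 106) (.e (nat_lit 319533) (nat_lit 16) (.e (nat_lit 286753) (nat_lit 10) (.e (nat_lit 344157) (nat_lit 36) (.e (nat_lit 638987) (nat_lit 5) (.e (nat_lit 2936) (nat_lit 184) (.e (nat_lit 425987) (nat_lit 0) (.e (nat_lit 7485) (nat_lit 402) .nil)))))))) (.g (nat_lit 4) .nil .nil)))) (.nd (nat_lit 5) 
(.lf (nat_lit 55250) (.g (nat_lit 2539) (.e (nat_lit 1400) (nat_lit 106) (.e (nat_lit 319533) (nat_lit 16) (.e (nat_lit 286753) (nat_lit 10) (.e (nat_lit 344154) (nat_lit 35) (.e (nat_lit 630793) (nat_lit 5) (.e (nat_lit 2936) (nat_lit 184) (.e (nat_lit 425984) (nat_lit 0) (.e (nat_lit 7489) (nat_lit 402) .nil)))))))) (.g (nat_lit 4) .nil .nil))) 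
(.lf (nat_lit 55282) (.g (nat_lit 4030) (.e (nat_lit 1400) (nat_lit 106) (.e (nat_lit 319533) (nat_lit 16) (.e (nat_lit 286753) (nat_lit 10) (.e (nat_lit 344160) (nat_lit 37) (.e (nat_lit 647190) (nat_lit 9) (.e (nat_lit 359) (nat_lit 30) (.e (nat_lit 409603) (nat_lit 0) (.e (nat_lit 5270) (nat_lit 298) .nil)))))))) (.g (nat_lit 6) .nil .nil))))) (.nd (nat_lit 4) (.nd (nat_lit 5) 
(.lf (nat_lit 55242) (.g (nat_lit 379) (.e (nat_lit 1400) (nat_lit 106) (.e (nat_lit 319533) (nat_lit 16) (.e (nat_lit 286743) (nat_lit 9) .nil))) .nil)) 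
(.lf (nat_lit 55274) (.g (nat_lit 2460) (.e (nat_lit 1400) (nat_lit 106) (.e (nat_lit 319533) (nat_lit 16) (.e (nat_lit 286753) (nat_lit 10) (.e (nat_lit 344157) (nat_lit 36) (.e (nat_lit 638999) (nat_lit 8) (.e (nat_lit 172034) (nat_lit 0) (.e (nat_lit 7496) (nat_lit 402) .nil))))))) (.g (nat_lit 7) .nil .nil)))) (.nd (nat_lit 5) 
(.lf (nat_lit 55258) (.g (nat_lit 2240) (.e (nat_lit 1400) (nat_lit 106) (.e (nat_lit 319533) (nat_lit 16) (.e (nat_lit 286753) (nat_lit 10) (.e (nat_lit 344157) (nat_lit 36) (.e (nat_lit 638982) (nat_lit 5) (.e (nat_lit 3031) (nat_lit 188) (.e (nat_lit 466688) (nat_lit 0) .nil))))))) (.g (nat_lit 6) .nil .nil))) 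
(.lf (nat_lit 55290) (.g (nat_lit 2727) (.e (nat_lit 1400) (nat_lit 106) (.e (nat_lit 319533) (nat_lit 16) (.e (nat_lit 286753) (nat_lit 10) (.e (nat_lit 344160) (nat_lit 37) (.e (nat_lit 647195) (nat_lit 9) (.e (nat_lit 417) (nat_lit 32) (.e (nat_lit 425987) (nat_lit 0) (.e (nat_lit 7485) (nat_lit 402) .nil)))))))) (.g (nat_lit 4) .nil .nil)))))) 
(.nd (nat_lit 3) (.nd (nat_lit 4) (.nd (nat_lit 5) 
(.lf (nat_lit 55238) (.g (nat_lit 3737) (.e (nat_lit 1400) (nat_lit 106) (.e (nat_lit 319533) (nat_lit 16) (.e (nat_lit 286735) (nat_lit 3) (.e (nat_lit 98382) (nat_lit 31) (.e (nat_lit 466974) (nat_lit 22) (.e (nat_lit 196626) (nat_lit 9) .nil)))))) (.g (nat_lit 0) .nil .nil))) 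
(.lf (nat_lit 55270) (.g (nat_lit 2017) (.e (nat_lit 1400) (nat_lit 106) (.e (nat_lit 319533) (nat_lit 16) (.e (nat_lit 286753) (nat_lit 10) (.e (nat_lit 344157) (nat_lit 36) (.e (nat_lit 638998) (nat_lit 8) (.e (nat_lit 172034) (nat_lit 0) (.e (nat_lit 7490) (nat_lit 402) .nil))))))) (.g (nat_lit 4) .nil .nil)))) (.nd (nat_lit 5) 
(.lf (nat_lit 55254) (.g (nat_lit 2404) (.e (nat_lit 1400) (nat_lit 106) (.e (nat_lit 319533) (nat_lit 16) (.e (nat_lit 286753) (nat_lit 10) (.e (nat_lit 344156) (nat_lit 36) (.e (nat_lit 638998) (nat_lit 8) (.e (nat_lit 172032) (nat_lit 0) (.e (nat_lit 7490) (nat_lit 402) .nil))))))) (.g (nat_lit 5) .nil .nil))) 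
(.lf (nat_lit 55286) (.g (nat_lit 2484) (.e (nat_lit 1400) (nat_lit 106) (.e (nat_lit 319533) (nat_lit 16) (.e (nat_lit 286753) (nat_lit 10) (.e (nat_lit 344160) (nat_lit 37) (.e (nat_lit 647190) (nat_lit 9) (.e (nat_lit 7936) (nat_lit 33) (.e (nat_lit 442112) (nat_lit 0) .nil))))))) (.g (nat_lit 5) .nil .nil))))) (.nd (nat_lit 4) (.nd (nat_lit 5) 
(.lf (nat_lit 55246) (.g (nat_lit 1833) (.e (nat_lit 1400) (nat_lit 106) (.e (nat_lit 319533) (nat_lit 16) (.e (nat_lit 286753) (nat_lit 10) (.e (nat_lit 344097) (nat_lit 18) (.e (nat_lit 5055) (nat_lit 292) (.e (nat_lit 2635) (nat_lit 165) (.e (nat_lit 188160) (nat_lit 32) .nil))))))) (.g (nat_lit 4) .nil .nil))) 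
(.lf (nat_lit 55278) (.g (nat_lit 2618) (.e (nat_lit 1400) (nat_lit 106) (.e (nat_lit 319533) (nat_lit 16) (.e (nat_lit 286753) (nat_lit 10) (.e (nat_lit 344160) (nat_lit 37) (.e (nat_lit 647190) (nat_lit 9) (.e (nat_lit 62) (nat_lit 0) (.e (nat_lit 7087) (nat_lit 379) (.e (nat_lit 123202) (nat_lit 270) .nil)))))))) (.g (nat_lit 4) .nil .nil)))) (.nd (nat_lit 5) 
(.lf (nat_lit 55262) (.g (nat_lit 2461) (.e (nat_lit 1400) (nat_lit 106) (.e (nat_lit 319533) (nat_lit 16) (.e (nat_lit 286753) (nat_lit 10) (.e (nat_lit 344157) (nat_lit 36) (.e (nat_lit 638986) (nat_lit 5) (.e (nat_lit 2828) (nat_lit 182) (.e (nat_lit 417536) (nat_lit 0) (.e (nat_lit 5256) (nat_lit 298) .nil)))))))) (.g (nat_lit 6) .nil .nil))) 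
(.lf (nat_lit 55294) (.g (nat_lit 2313) (.e (nat_lit 1400) (nat_lit 106) (.e (nat_lit 319533) (nat_lit 16) (.e (nat_lit 286753) (nat_lit 10) (.e (nat_lit 344160) (nat_lit 37) (.e (nat_lit 647195) (nat_lit 9) (.e (nat_lit 420) (nat_lit 32) (.e (nat_lit 425987) (nat_lit 0) (.e (nat_lit 7489) (nat_lit 402) .nil)))))))) (.g (nat_lit 4) .nil .nil)))))))) 
(.nd (nat_lit 1) (.nd (nat_lit 2) (.nd (nat_lit 3) (.nd (nat_lit 4) (.nd (nat_lit 5) 
(.lf (nat_lit 55233) (.g (nat_lit 2788) (.e (nat_lit 1400) (nat_lit 106) (.e (nat_lit 319533) (nat_lit 16) (.e (nat_lit 286735) (nat_lit 3) (.e (nat_lit 98380) (nat_lit 31) (.e (nat_lit 466977) (nat_lit 22) (.e (nat_lit 196626) (nat_lit 9) .nil)))))) (.g (nat_lit 4) .nil .nil))) 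
(.lf (nat_lit 55265) (.g (nat_lit 1870) (.e (nat_lit 1400) (nat_lit 106) (.e (nat_lit 319533) (nat_lit 16) (.e (nat_lit 286753) (nat_lit 10) (.e (nat_lit 344157) (nat_lit 36) (.e (nat_lit 638986) (nat_lit 5) (.e (nat_lit 2965) (nat_lit 185) (.e (nat_lit 442112) (nat_lit 0) .nil))))))) (.g (nat_lit 5) .nil .nil)))) (.nd (nat_lit 5) 
(.lf (nat_lit 55249) (.g (nat_lit 2630) (.e (nat_lit 1400) (nat_lit 106) (.e (nat_lit 319533) (nat_lit 16) (.e (nat_lit 286753) (nat_lit 10) (.e (nat_lit 344154) (nat_lit 35) (.e (nat_lit 630793) (nat_lit 5) (.e (nat_lit 2936) (nat_lit 184) (.e (nat_lit 425984) (nat_lit 0) (.e (nat_lit 7485) (nat_lit 402) .nil)))))))) (.g (nat_lit 4) .nil .nil))) 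
(.lf (nat_lit 55281) (.g (nat_lit 3730) (.e (nat_lit 1400) (nat_lit 106) (.e (nat_lit 319533) (nat_lit 16) (.e (nat_lit 286753) (nat_lit 10) (.e (nat_lit 344160) (nat_lit 37) (.e (nat_lit 647190) (nat_lit 9) (.e (nat_lit 359) (nat_lit 30) (.e (nat_lit 409603) (nat_lit 0) (.e (nat_lit 5245) (nat_lit 298) .nil)))))))) (.g (nat_lit 6) .nil .nil))))) (.nd (nat_lit 4) (.nd (nat_lit 5) 
(.lf (nat_lit 55241) (.g (nat_lit 788) (.e (nat_lit 1400) (nat_lit 106) (.e (nat_lit 319533) (nat_lit 16) (.e (nat_lit 286742) (nat_lit 9) .nil))) .nil)) 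
(.lf (nat_lit 55273) (.g (nat_lit 2639) (.e (nat_lit 1400) (nat_lit 106) (.e (nat_lit 319533) (nat_lit 16) (.e (nat_lit 286753) (nat_lit 10) (.e (nat_lit 344157) (nat_lit 36) (.e (nat_lit 638999) (nat_lit 8) (.e (nat_lit 172034) (nat_lit 0) (.e (nat_lit 7490) (nat_lit 402) .nil))))))) (.g (nat_lit 7) .nil .nil)))) (.nd (nat_lit 5) 
(.lf (nat_lit 55257) (.g (nat_lit 2236) (.e (nat_lit 1400) (nat_lit 106) (.e (nat_lit 319533) (nat_lit 16) (.e (nat_lit 286753) (nat_lit 10) (.e (nat_lit 344157) (nat_lit 36) (.e (nat_lit 646912) (nat_lit 1) (.e (nat_lit 57814) (nat_lit 246) (.e (nat_lit 57876) (nat_lit 270) .nil))))))) (.g (nat_lit 4) .nil .nil))) 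
(.lf (nat_lit 55289) (.g (nat_lit 2398) (.e (nat_lit 1400) (nat_lit 106) (.e (nat_lit 319533) (nat_lit 16) (.e (nat_lit 286753) (nat_lit 10) (.e (nat_lit 344160) (nat_lit 37) (.e (nat_lit 647195) (nat_lit 9) (.e (nat_lit 417) (nat_lit 32) (.e (nat_lit 425984) (nat_lit 0) (.e (nat_lit 7489) (nat_lit 402) .nil)))))))) (.g (nat_lit 4) .nil .nil)))))) 
(.nd (nat_lit 3) (.nd (nat_lit 4) (.nd (nat_lit 5) 
(.lf (nat_lit 55237) (.g (nat_lit 4214) (.e (nat_lit 1400) (nat_lit 106) (.e (nat_lit 319533) (nat_lit 16) (.e (nat_lit 286735) (nat_lit 3) (.e (nat_lit 98381) (nat_lit 31) (.e (nat_lit 466977) (nat_lit 22) (.e (nat_lit 196626) (nat_lit 9) .nil)))))) (.g (nat_lit 5) .nil .nil))) 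
(.lf (nat_lit 55269) (.g (nat_lit 2771) (.e (nat_lit 1400) (nat_lit 106) (.e (nat_lit 319533) (nat_lit 16) (.e (nat_lit 286753) (nat_lit 10) (.e (nat_lit 344157) (nat_lit 36) (.e (nat_lit 646912) (nat_lit 5) (.e (nat_lit 2936) (nat_lit 184) (.e (nat_lit 425987) (nat_lit 0) (.e (nat_lit 7489) (nat_lit 402) .nil)))))))) (.g (nat_lit 4) .nil .nil)))) (.nd (nat_lit 5) 
(.lf (nat_lit 55253) (.g (nat_lit 1414) (.e (nat_lit 1400) (nat_lit 106) (.e (nat_lit 319533) (nat_lit 16) (.e (nat_lit 286753) (nat_lit 10) (.e (nat_lit 344156) (nat_lit 36) (.e (nat_lit 638985) (nat_lit 5) .nil))))) .nil)) 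
(.lf (nat_lit 55285) (.g (nat_lit 2566) (.e (nat_lit 1400) (nat_lit 106) (.e (nat_lit 319533) (nat_lit 16) (.e (nat_lit 286753) (nat_lit 10) (.e (nat_lit 344160) (nat_lit 37) (.e (nat_lit 647190) (nat_lit 9) (.e (nat_lit 428) (nat_lit 32) (.e (nat_lit 425989) (nat_lit 0) (.e (nat_lit 7485) (nat_lit 402) .nil)))))))) (.g (nat_lit 4) .nil .nil))))) (.nd (nat_lit 4) (.nd (nat_lit 5) 
(.lf (nat_lit 55245) (.g (nat_lit 2362) (.e (nat_lit 1400) (nat_lit 106) (.e (nat_lit 319533) (nat_lit 16) (.e (nat_lit 286753) (nat_lit 10) (.e (nat_lit 344089) (nat_lit 18) (.e (nat_lit 5166) (nat_lit 292) (.e (nat_lit 2639) (nat_lit 165) (.e (nat_lit 188160) (nat_lit 32) .nil))))))) (.g (nat_lit 5) .nil .nil))) 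
(.lf (nat_lit 55277) (.g (nat_lit 2377) (.e (nat_lit 1400) (nat_lit 106) (.e (nat_lit 319533) (nat_lit 16) (.e (nat_lit 286753) (nat_lit 10) (.e (nat_lit 344160) (nat_lit 37) (.e (nat_lit 647190) (nat_lit 9) (.e (nat_lit 62) (nat_lit 0) (.e (nat_lit 7086) (nat_lit 379) (.e (nat_lit 123202) (nat_lit 270) .nil)))))))) (.g (nat_lit 4) .nil .nil)))) (.nd (nat_lit 5) 
(.lf (nat_lit 55261) (.g (nat_lit 3155) (.e (nat_lit 1400) (nat_lit 106) (.e (nat_lit 319533) (nat_lit 16) (.e (nat_lit 286753) (nat_lit 10) (.e (nat_lit 344157) (nat_lit 36) (.e (nat_lit 638985) (nat_lit 5) (.e (nat_lit 2828) (nat_lit 182) (.e (nat_lit 417536) (nat_lit 0) (.e (nat_lit 5305) (nat_lit 298) .nil)))))))) (.g (nat_lit 6) .nil .nil))) 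
(.lf (nat_lit 55293) (.g (nat_lit 2829) (.e (nat_lit 1400) (nat_lit 106) (.e (nat_lit 319533) (nat_lit 16) (.e (nat_lit 286753) (nat_lit 10) (.e (nat_lit 344160) (nat_lit 37) (.e (nat_lit 647195) (nat_lit 9) (.e (nat_lit 420) (nat_lit 32) (.e (nat_lit 425987) (nat_lit 0) (.e (nat_lit 7485) (nat_lit 402) .nil)))))))) (.g (nat_lit 4) .nil .nil))))))) 
(.nd (nat_lit 2) (.nd (nat_lit 3) (.nd (nat_lit 4) (.nd (nat_lit 5) 
(.lf (nat_lit 55235) (.g (nat_lit 3674) (.e (nat_lit 1400) (nat_lit 106) (.e (nat_lit 319533) (nat_lit 16) (.e (nat_lit 286735) (nat_lit 3) (.e (nat_lit 98381) (nat_lit 31) (.e (nat_lit 466975) (nat_lit 22) (.e (nat_lit 196626) (nat_lit 9) .nil)))))) (.g (nat_lit 5) .nil .nil))) 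
(.lf (nat_lit 55267) (.g (nat_lit 2839) (.e (nat_lit 1400) (nat_lit 106) (.e (nat_lit 319533) (nat_lit 16) (.e (nat_lit 286753) (nat_lit 10) (.e (nat_lit 344157) (nat_lit 36) (.e (nat_lit 646912) (nat_lit 5) (.e (nat_lit 2936) (nat_lit 184) (.e (nat_lit 425984) (nat_lit 0) (.e (nat_lit 7485) (nat_lit 402) .nil)))))))) (.g (nat_lit 4) .nil .nil)))) (.nd (nat_lit 5) 
(.lf (nat_lit 55251) (.g (nat_lit 2486) (.e (nat_lit 1400) (nat_lit 106) (.e (nat_lit 319533) (nat_lit 16) (.e (nat_lit 286753) (nat_lit 10) (.e (nat_lit 344154) (nat_lit 35) (.e (nat_lit 630793) (nat_lit 5) (.e (nat_lit 2936) (nat_lit 184) (.e (nat_lit 425987) (nat_lit 0) (.e (nat_lit 7489) (nat_lit 402) .nil)))))))) (.g (nat_lit 4) .nil .nil))) 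
(.lf (nat_lit 55283) (.g (nat_lit 3738) (.e (nat_lit 1400) (nat_lit 106) (.e (nat_lit 319533) (nat_lit 16) (.e (nat_lit 286753) (nat_lit 10) (.e (nat_lit 344160) (nat_lit 37) (.e (nat_lit 647190) (nat_lit 9) (.e (nat_lit 359) (nat_lit 30) (.e (nat_lit 409604) (nat_lit 0) (.e (nat_lit 5245) (nat_lit 298) .nil)))))))) (.g (nat_lit 6) .nil .nil))))) (.nd (nat_lit 4) (.nd (nat_lit 5) 
(.lf (nat_lit 55243) (.g (nat_lit 400) (.e (nat_lit 1400) (nat_lit 106) (.e (nat_lit 319533) (nat_lit 16) (.e (nat_lit 286753) (nat_lit 10) .nil))) .nil)) 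
(.lf (nat_lit 55275) (.g (nat_lit 2222) (.e (nat_lit 1400) (nat_lit 106) (.e (nat_lit 319533) (nat_lit 16) (.e (nat_lit 286753) (nat_lit 10) (.e (nat_lit 344157) (nat_lit 36) (.e (nat_lit 639000) (nat_lit 9) (.e (nat_lit 188160) (nat_lit 32) .nil)))))) (.g (nat_lit 5) .nil .nil)))) (.nd (nat_lit 5) 
(.lf (nat_lit 55259) (.g (nat_lit 2914) (.e (nat_lit 1400) (nat_lit 106) (.e (nat_lit 319533) (nat_lit 16) (.e (nat_lit 286753) (nat_lit 10) (.e (nat_lit 344157) (nat_lit 36) (.e (nat_lit 638985) (nat_lit 5) (.e (nat_lit 2828) (nat_lit 182) (.e (nat_lit 417536) (nat_lit 0) (.e (nat_lit 5258) (nat_lit 298) .nil)))))))) (.g (nat_lit 5) .nil .nil))) 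
(.lf (nat_lit 55291) (.g (nat_lit 2211) (.e (nat_lit 1400) (nat_lit 106) (.e (nat_lit 319533) (nat_lit 16) (.e (nat_lit 286753) (nat_lit 10) (.e (nat_lit 344160) (nat_lit 37) (.e (nat_lit 647195) (nat_lit 9) (.e (nat_lit 417) (nat_lit 32) (.e (nat_lit 425987) (nat_lit 0) (.e (nat_lit 7489) (nat_lit 402) .nil)))))))) (.g (nat_lit 4) .nil .nil)))))) 
(.nd (nat_lit 3) (.nd (nat_lit 4) (.nd (nat_lit 5) 
(.lf (nat_lit 55239) (.g (nat_lit 2952) (.e (nat_lit 1400) (nat_lit 106) (.e (nat_lit 319533) (nat_lit 16) (.e (nat_lit 286735) (nat_lit 3) (.e (nat_lit 98382) (nat_lit 31) (.e (nat_lit 466976) (nat_lit 22) (.e (nat_lit 196626) (nat_lit 9) .nil)))))) (.g (nat_lit 4) .nil .nil))) 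
(.lf (nat_lit 55271) (.g (nat_lit 1955) (.e (nat_lit 1400) (nat_lit 106) (.e (nat_lit 319533) (nat_lit 16) (.e (nat_lit 286753) (nat_lit 10) (.e (nat_lit 344157) (nat_lit 36) (.e (nat_lit 638998) (nat_lit 8) (.e (nat_lit 172034) (nat_lit 0) (.e (nat_lit 7496) (nat_lit 402) .nil))))))) (.g (nat_lit 4) .nil .nil)))) (.nd (nat_lit 5) 
(.lf (nat_lit 55255) (.g (nat_lit 2597) (.e (nat_lit 1400) (nat_lit 106) (.e (nat_lit 319533) (nat_lit 16) (.e (nat_lit 286753) (nat_lit 10) (.e (nat_lit 344156) (nat_lit 36) (.e (nat_lit 638998) (nat_lit 8) (.e (nat_lit 172033) (nat_lit 0) (.e (nat_lit 7490) (nat_lit 402) .nil))))))) (.g (nat_lit 5) .nil .nil))) 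
(.lf (nat_lit 55287) (.g (nat_lit 3219) (.e (nat_lit 1400) (nat_lit 106) (.e (nat_lit 319533) (nat_lit 16) (.e (nat_lit 286753) (nat_lit 10) (.e (nat_lit 344160) (nat_lit 37) (.e (nat_lit 647195) (nat_lit 9) (.e (nat_lit 59) (nat_lit 0) (.e (nat_lit 7089) (nat_lit 379) (.e (nat_lit 123202) (nat_lit 270) .nil)))))))) (.g (nat_lit 5) .nil .nil))))) (.nd (nat_lit 4) (.nd (nat_lit 5) 
(.lf (nat_lit 55247) (.g (nat_lit 1825) (.e (nat_lit 1400) (nat_lit 106) (.e (nat_lit 319533) (nat_lit 16) (.e (nat_lit 286753) (nat_lit 10) (.e (nat_lit 344097) (nat_lit 18) (.e (nat_lit 5055) (nat_lit 292) (.e (nat_lit 2636) (nat_lit 165) (.e (nat_lit 188160) (nat_lit 32) .nil))))))) (.g (nat_lit 4) .nil .nil))) 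
(.lf (nat_lit 55279) (.g (nat_lit 2493) (.e (nat_lit 1400) (nat_lit 106) (.e (nat_lit 319533) (nat_lit 16) (.e (nat_lit 286753) (nat_lit 10) (.e (nat_lit 344160) (nat_lit 37) (.e (nat_lit 647190) (nat_lit 9) (.e (nat_lit 62) (nat_lit 0) (.e (nat_lit 7088) (nat_lit 379) (.e (nat_lit 123202) (nat_lit 270) .nil)))))))) (.g (nat_lit 4) .nil .nil)))) (.nd (nat_lit 5) 
(.lf (nat_lit 55263) (.g (nat_lit 2815) (.e (nat_lit 1400) (nat_lit 106) (.e (nat_lit 319533) (nat_lit 16) (.e (nat_lit 286753) (nat_lit 10) (.e (nat_lit 344157) (nat_lit 36) (.e (nat_lit 638986) (nat_lit 5) (.e (nat_lit 2828) (nat_lit 182) (.e (nat_lit 417536) (nat_lit 0) (.e (nat_lit 5272) (nat_lit 298) .nil)))))))) (.g (nat_lit 6) .nil .nil))) 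
(.lf (nat_lit 55295) (.g (nat_lit 2857) (.e (nat_lit 1400) (nat_lit 106) (.e (nat_lit 319533) (nat_lit 16) (.e (nat_lit 286753) (nat_lit 10) (.e (nat_lit 344160) (nat_lit 37) (.e (nat_lit 647195) (nat_lit 9) (.e (nat_lit 420) (nat_lit 32) (.e (nat_lit 425989) (nat_lit 0) (.e (nat_lit 7485) (nat_lit 402) .nil)))))))) (.g (nat_lit 4) .nil .nil)))))))))

noncomputable def tv763 : DT := (.nd (nat_lit 0) (.nd (nat_lit 1) (.nd (nat_lit 2) (.nd (nat_lit 3) (.nd (nat_lit 4) (.nd (nat_lit 5) 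
(.lf (nat_lit 55296) (.g (nat_lit 1920) (.e (nat_lit 1400) (nat_lit 106) (.e (nat_lit 319533) (nat_lit 16) (.e (nat_lit 286753) (nat_lit 10) (.e (nat_lit 344160) (nat_lit 37) (.e (nat_lit 647195) (nat_lit 9) (.e (nat_lit 426) (nat_lit 32) (.e (nat_lit 426003) (nat_lit 0) (.e (nat_lit 7486) (nat_lit 402) .nil)))))))) (.g (nat_lit 4) .nil .nil))) 
(.lf (nat_lit 55328) (.g (nat_lit 4051) (.e (nat_lit 1400) (nat_lit 106) (.e (nat_lit 319534) (nat_lit 16) (.e (nat_lit 286722) (nat_lit 0) (.e (nat_lit 1691) (nat_lit 117) (.e (nat_lit 499929) (nat_lit 11) (.e (nat_lit 188449) (nat_lit 22) (.e (nat_lit 196626) (nat_lit 9) .nil))))))) (.g (nat_lit 6) .nil .nil)))) (.nd (nat_lit 5) 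
(.lf (nat_lit 55312) (.g (nat_lit 2187) (.e (nat_lit 1400) (nat_lit 106) (.e (nat_lit 319533) (nat_lit 16) (.e (nat_lit 286761) (nat_lit 13) (.e (nat_lit 393289) (nat_lit 25) (.e (nat_lit 466688) (nat_lit 18) (.e (nat_lit 5906) (nat_lit 320) (.e (nat_lit 993) (nat_lit 81) .nil))))))) (.g (nat_lit 4) .nil .nil))) 
(.lf (nat_lit 55344) (.g (nat_lit 2083) (.e (nat_lit 1400) (nat_lit 106) (.e (nat_lit 319534) (nat_lit 16) (.e (nat_lit 286728) (nat_lit 0) (.e (nat_lit 1788) (nat_lit 119) (.e (nat_lit 516177) (nat_lit 14) (.e (nat_lit 466974) (nat_lit 22) (.e (nat_lit 196626) (nat_lit 9) .nil))))))) (.g (nat_lit 4) .nil .nil))))) (.nd (nat_lit 4) (.nd (nat_lit 5) 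
(.lf (nat_lit 55304) (.g (nat_lit 3913) (.e (nat_lit 1400) (nat_lit 106) (.e (nat_lit 319533) (nat_lit 16) (.e (nat_lit 286761) (nat_lit 13) (.e (nat_lit 393234) (nat_lit 17) (.e (nat_lit 7065) (nat_lit 377) (.e (nat_lit 1112) (nat_lit 82) (.e (nat_lit 8433) (nat_lit 138) (.e (nat_lit 999) (nat_lit 81) .nil)))))))) (.g (nat_lit 5) .nil .nil))) 
(.lf (nat_lit 55336) (.g (nat_lit 3792) (.e (nat_lit 1400) (nat_lit 106) (.e (nat_lit 319534) (nat_lit 16) (.e (nat_lit 286727) (nat_lit 0) (.e (nat_lit 1799) (nat_lit 119) (.e (nat_lit 516177) (nat_lit 14) (.e (nat_lit 466977) (nat_lit 22) (.e (nat_lit 196626) (nat_lit 9) .nil))))))) (.g (nat_lit 7) .nil .nil)))) (.nd (nat_lit 5) 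
(.lf (nat_lit 55320) (.g (nat_lit 2751) (.e (nat_lit 1400) (nat_lit 106) (.e (nat_lit 319534) (nat_lit 16) (.e (nat_lit 286720) (nat_lit 0) (.e (nat_lit 1788) (nat_lit 119) (.e (nat_lit 516176) (nat_lit 14) (.e (nat_lit 466976) (nat_lit 22) (.e (nat_lit 196626) (nat_lit 9) .nil))))))) (.g (nat_lit 5) .nil .nil))) 
(.lf (nat_lit 55352) (.g (nat_lit 3320) (.e (nat_lit 1400) (nat_lit 106) (.e (nat_lit 319534) (nat_lit 16) (.e (nat_lit 286732) (nat_lit 2) (.e (nat_lit 90170) (nat_lit 13) (.e (nat_lit 172094) (nat_lit 9) (.e (nat_lit 426125) (nat_lit 2) (.e (nat_lit 196626) (nat_lit 9) .nil))))))) (.g (nat_lit 4) .nil .nil)))))) (.nd (nat_lit 3) (.nd (nat_lit 4) (.nd (nat_lit 5) 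
(.lf (nat_lit 55300) (.g (nat_lit 2789) (.e (nat_lit 1400) (nat_lit 106) (.e (nat_lit 319533) (nat_lit 16) (.e (nat_lit 286753) (nat_lit 10) (.e (nat_lit 344160) (nat_lit 37) (.e (nat_lit 647199) (nat_lit 11) (.e (nat_lit 16387) (nat_lit 0) (.e (nat_lit 7486) (nat_lit 402) .nil))))))) (.g (nat_lit 5) .nil .nil))) 
(.lf (nat_lit 55332) (.g (nat_lit 3753) (.e (nat_lit 1400) (nat_lit 106) (.e (nat_lit 319534) (nat_lit 16) (.e (nat_lit 286727) (nat_lit 0) (.e (nat_lit 1799) (nat_lit 119) (.e (nat_lit 516174) (nat_lit 14) (.e (nat_lit 466975) (nat_lit 22) (.e (nat_lit 196626) (nat_lit 9) .nil))))))) (.g (nat_lit 7) .nil .nil)))) (.nd (nat_lit 5) 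
(.lf (nat_lit 55316) (.g (nat_lit 5305) (.e (nat_lit 1400) (nat_lit 106) (.e (nat_lit 319534) (nat_lit 16) (.e (nat_lit 286720) (nat_lit 0) (.e (nat_lit 1788) (nat_lit 119) (.e (nat_lit 516163) (nat_lit 11) (.e (nat_lit 442424) (nat_lit 22) (.e (nat_lit 196626) (nat_lit 9) .nil))))))) (.g (nat_lit 0) .nil .nil))) 
(.lf (nat_lit 55348) (.g (nat_lit 3384) (.e (nat_lit 1400) (nat_lit 106) (.e (nat_lit 319534) (nat_lit 16) (.e (nat_lit 286728) (nat_lit 0) (.e (nat_lit 1802) (nat_lit 119) (.e (nat_lit 516174) (nat_lit 14) (.e (nat_lit 466975) (nat_lit 22) (.e (nat_lit 196626) (nat_lit 9) .nil))))))) (.g (nat_lit 7) .nil .nil))))) (.nd (nat_lit 4) (.nd (nat_lit 5) 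
(.lf (nat_lit 55308) (.g (nat_lit 2793) (.e (nat_lit 1400) (nat_lit 106) (.e (nat_lit 319533) (nat_lit 16) (.e (nat_lit 286761) (nat_lit 13) (.e (nat_lit 393283) (nat_lit 24) (.e (nat_lit 434276) (nat_lit 39) (.e (nat_lit 663552) (nat_lit 0) .nil)))))) (.g (nat_lit 4) .nil .nil))) 
(.lf (nat_lit 55340) (.g (nat_lit 2661) (.e (nat_lit 1400) (nat_lit 106) (.e (nat_lit 319534) (nat_lit 16) (.e (nat_lit 286728) (nat_lit 0) (.e (nat_lit 1788) (nat_lit 119) (.e (nat_lit 516175) (nat_lit 14) (.e (nat_lit 466975) (nat_lit 22) (.e (nat_lit 196626) (nat_lit 9) .nil))))))) (.g (nat_lit 5) .nil .nil)))) (.nd (nat_lit 5) 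
(.lf (nat_lit 55324) (.g (nat_lit 1131) (.e (nat_lit 1400) (nat_lit 106) (.e (nat_lit 319534) (nat_lit 16) (.e (nat_lit 286721) (nat_lit 0) .nil))) .nil)) 
(.lf (nat_lit 55356) (.g (nat_lit 3352) (.e (nat_lit 1400) (nat_lit 106) (.e (nat_lit 319534) (nat_lit 16) (.e (nat_lit 286732) (nat_lit 2) (.e (nat_lit 90176) (nat_lit 15) (.e (nat_lit 188448) (nat_lit 22) (.e (nat_lit 196626) (nat_lit 9) .nil)))))) (.g (nat_lit 4) .nil .nil))))))) (.nd (nat_lit 2) (.nd (nat_lit 3) (.nd (nat_lit 4) (.nd (nat_lit 5) 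
(.lf (nat_lit 55298) (.g (nat_lit 2540) (.e (nat_lit 1400) (nat_lit 106) (.e (nat_lit 319533) (nat_lit 16) (.e (nat_lit 286753) (nat_lit 10) (.e (nat_lit 344160) (nat_lit 37) (.e (nat_lit 647195) (nat_lit 9) (.e (nat_lit 7936) (nat_lit 33) (.e (nat_lit 442112) (nat_lit 0) .nil))))))) (.g (nat_lit 5) .nil .nil))) 
(.lf (nat_lit 55330) (.g (nat_lit 1113) (.e (nat_lit 1400) (nat_lit 106) (.e (nat_lit 319534) (nat_lit 16) (.e (nat_lit 286726) (nat_lit 0) .nil))) .nil))) (.nd (nat_lit 5) 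
(.lf (nat_lit 55314) (.g (nat_lit 8012) (.e (nat_lit 1400) (nat_lit 106) (.e (nat_lit 319534) (nat_lit 16) (.e (nat_lit 286720) (nat_lit 0) (.e (nat_lit 1788) (nat_lit 119) (.e (nat_lit 516151) (nat_lit 9) (.e (nat_lit 426211) (nat_lit 9) (.e (nat_lit 426125) (nat_lit 2) (.e (nat_lit 196626) (nat_lit 9) .nil)))))))) (.g (nat_lit 7) .nil .nil))) 
(.lf (nat_lit 55346) (.g (nat_lit 2299) (.e (nat_lit 1400) (nat_lit 106) (.e (nat_lit 319534) (nat_lit 16) (.e (nat_lit 286728) (nat_lit 0) (.e (nat_lit 1798) (nat_lit 119) (.e (nat_lit 516176) (nat_lit 14) (.e (nat_lit 466975) (nat_lit 22) (.e (nat_lit 196626) (nat_lit 9) .nil))))))) (.g (nat_lit 5) .nil .nil))))) (.nd (nat_lit 4) (.nd (nat_lit 5) 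
(.lf (nat_lit 55306) (.g (nat_lit 4046) (.e (nat_lit 1400) (nat_lit 106) (.e (nat_lit 319533) (nat_lit 16) (.e (nat_lit 286761) (nat_lit 13) (.e (nat_lit 393234) (nat_lit 17) (.e (nat_lit 7065) (nat_lit 377) (.e (nat_lit 1115) (nat_lit 82) (.e (nat_lit 8433) (nat_lit 138) (.e (nat_lit 999) (nat_lit 81) .nil)))))))) (.g (nat_lit 5) .nil .nil))) 
(.lf (nat_lit 55338) (.g (nat_lit 4438) (.e (nat_lit 1400) (nat_lit 106) (.e (nat_lit 319534) (nat_lit 16) (.e (nat_lit 286728) (nat_lit 0) (.e (nat_lit 1788) (nat_lit 119) (.e (nat_lit 516163) (nat_lit 11) (.e (nat_lit 442424) (nat_lit 22) (.e (nat_lit 196626) (nat_lit 9) .nil))))))) (.g (nat_lit 7) .nil .nil)))) (.nd (nat_lit 5) 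
(.lf (nat_lit 55322) (.g (nat_lit 2316) (.e (nat_lit 1400) (nat_lit 106) (.e (nat_lit 319534) (nat_lit 16) (.e (nat_lit 286720) (nat_lit 0) (.e (nat_lit 1788) (nat_lit 119) (.e (nat_lit 516177) (nat_lit 14) (.e (nat_lit 466974) (nat_lit 22) (.e (nat_lit 196626) (nat_lit 9) .nil))))))) (.g (nat_lit 4) .nil .nil))) 
(.lf (nat_lit 55354) (.g (nat_lit 3820) (.e (nat_lit 1400) (nat_lit 106) (.e (nat_lit 319534) (nat_lit 16) (.e (nat_lit 286732) (nat_lit 2) (.e (nat_lit 90170) (nat_lit 13) (.e (nat_lit 172106) (nat_lit 10) (.e (nat_lit 434219) (nat_lit 19) (.e (nat_lit 499961) (nat_lit 14) .nil))))))) (.g (nat_lit 5) .nil .nil)))))) (.nd (nat_lit 3) (.nd (nat_lit 4) (.nd (nat_lit 5) 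
(.lf (nat_lit 55302) (.g (nat_lit 3917) (.e (nat_lit 1400) (nat_lit 106) (.e (nat_lit 319533) (nat_lit 16) (.e (nat_lit 286753) (nat_lit 10) (.e (nat_lit 344160) (nat_lit 37) (.e (nat_lit 647199) (nat_lit 11) (.e (nat_lit 16388) (nat_lit 0) (.e (nat_lit 7486) (nat_lit 402) .nil))))))) (.g (nat_lit 7) .nil .nil))) 
(.lf (nat_lit 55334) (.g (nat_lit 2487) (.e (nat_lit 1400) (nat_lit 106) (.e (nat_lit 319534) (nat_lit 16) (.e (nat_lit 286727) (nat_lit 0) (.e (nat_lit 1799) (nat_lit 119) (.e (nat_lit 516176) (nat_lit 14) (.e (nat_lit 466977) (nat_lit 22) (.e (nat_lit 196626) (nat_lit 9) .nil))))))) (.g (nat_lit 4) .nil .nil)))) (.nd (nat_lit 5) 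
(.lf (nat_lit 55318) (.g (nat_lit 3116) (.e (nat_lit 1400) (nat_lit 106) (.e (nat_lit 319534) (nat_lit 16) (.e (nat_lit 286720) (nat_lit 0) (.e (nat_lit 1788) (nat_lit 119) (.e (nat_lit 516175) (nat_lit 14) (.e (nat_lit 466975) (nat_lit 22) (.e (nat_lit 196626) (nat_lit 9) .nil))))))) (.g (nat_lit 6) .nil .nil))) 
(.lf (nat_lit 55350) (.g (nat_lit 2689) (.e (nat_lit 1400) (nat_lit 106) (.e (nat_lit 319534) (nat_lit 16) (.e (nat_lit 286728) (nat_lit 0) (.e (nat_lit 1802) (nat_lit 119) (.e (nat_lit 516176) (nat_lit 14) (.e (nat_lit 466977) (nat_lit 22) (.e (nat_lit 196626) (nat_lit 9) .nil))))))) (.g (nat_lit 5) .nil .nil))))) (.nd (nat_lit 4) (.nd (nat_lit 5) 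
(.lf (nat_lit 55310) (.g (nat_lit 3119) (.e (nat_lit 1400) (nat_lit 106) (.e (nat_lit 319533) (nat_lit 16) (.e (nat_lit 286761) (nat_lit 13) (.e (nat_lit 393284) (nat_lit 24) (.e (nat_lit 434276) (nat_lit 39) (.e (nat_lit 663552) (nat_lit 0) .nil)))))) (.g (nat_lit 0) .nil .nil))) 
(.lf (nat_lit 55342) (.g (nat_lit 3749) (.e (nat_lit 1400) (nat_lit 106) (.e (nat_lit 319534) (nat_lit 16) (.e (nat_lit 286728) (nat_lit 0) (.e (nat_lit 1788) (nat_lit 119) (.e (nat_lit 516176) (nat_lit 14) (.e (nat_lit 466975) (nat_lit 22) (.e (nat_lit 196626) (nat_lit 9) .nil))))))) (.g (nat_lit 7) .nil .nil)))) (.nd (nat_lit 5) 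
(.lf (nat_lit 55326) (.g (nat_lit 4450) (.e (nat_lit 1400) (nat_lit 106) (.e (nat_lit 319534) (nat_lit 16) (.e (nat_lit 286722) (nat_lit 0) (.e (nat_lit 1691) (nat_lit 117) (.e (nat_lit 499928) (nat_lit 11) (.e (nat_lit 188449) (nat_lit 22) (.e (nat_lit 196626) (nat_lit 9) .nil))))))) (.g (nat_lit 6) .nil .nil))) 
(.lf (nat_lit 55358) (.g (nat_lit 3285) (.e (nat_lit 1400) (nat_lit 106) (.e (nat_lit 319534) (nat_lit 16) (.e (nat_lit 286732) (nat_lit 2) (.e (nat_lit 90176) (nat_lit 15) (.e (nat_lit 188456) (nat_lit 25) (.e (nat_lit 245781) (nat_lit 9) .nil)))))) (.g (nat_lit 5) .nil .nil)))))))) (.nd (nat_lit 1) (.nd (nat_lit 2) (.nd (nat_lit 3) (.nd (nat_lit 4) (.nd (nat_lit 5) 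
(.lf (nat_lit 55297) (.g (nat_lit 2744) (.e (nat_lit 1400) (nat_lit 106) (.e (nat_lit 319533) (nat_lit 16) (.e (nat_lit 286753) (nat_lit 10) (.e (nat_lit 344160) (nat_lit 37) (.e (nat_lit 647195) (nat_lit 9) (.e (nat_lit 426) (nat_lit 32) (.e (nat_lit 426010) (nat_lit 0) (.e (nat_lit 7490) (nat_lit 402) .nil)))))))) (.g (nat_lit 5) .nil .nil))) 
(.lf (nat_lit 55329) (.g (nat_lit 1738) (.e (nat_lit 1400) (nat_lit 106) (.e (nat_lit 319534) (nat_lit 16) (.e (nat_lit 286722) (nat_lit 0) (.e (nat_lit 1790) (nat_lit 119) .nil)))) .nil))) (.nd (nat_lit 5) 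
(.lf (nat_lit 55313) (.g (nat_lit 946) (.e (nat_lit 1400) (nat_lit 106) (.e (nat_lit 319534) (nat_lit 16) (.e (nat_lit 286720) (nat_lit 0) .nil))) .nil)) 
(.lf (nat_lit 55345) (.g (nat_lit 2134) (.e (nat_lit 1400) (nat_lit 106) (.e (nat_lit 319534) (nat_lit 16) (.e (nat_lit 286728) (nat_lit 0) (.e (nat_lit 1788) (nat_lit 119) (.e (nat_lit 516177) (nat_lit 14) (.e (nat_lit 466977) (nat_lit 22) (.e (nat_lit 196626) (nat_lit 9) .nil))))))) (.g (nat_lit 4) .nil .nil))))) (.nd (nat_lit 4) (.nd (nat_lit 5) 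
(.lf (nat_lit 55305) (.g (nat_lit 2495) (.e (nat_lit 1400) (nat_lit 106) (.e (nat_lit 319533) (nat_lit 16) (.e (nat_lit 286761) (nat_lit 13) (.e (nat_lit 393234) (nat_lit 17) (.e (nat_lit 7065) (nat_lit 377) (.e (nat_lit 1115) (nat_lit 82) (.e (nat_lit 8431) (nat_lit 138) (.e (nat_lit 999) (nat_lit 81) .nil)))))))) (.g (nat_lit 4) .nil .nil))) 
(.lf (nat_lit 55337) (.g (nat_lit 7601) (.e (nat_lit 1400) (nat_lit 106) (.e (nat_lit 319534) (nat_lit 16) (.e (nat_lit 286728) (nat_lit 0) (.e (nat_lit 1788) (nat_lit 119) (.e (nat_lit 516151) (nat_lit 9) (.e (nat_lit 426211) (nat_lit 9) (.e (nat_lit 426125) (nat_lit 2) (.e (nat_lit 196626) (nat_lit 9) .nil)))))))) (.g (nat_lit 7) .nil .nil)))) (.nd (nat_lit 5) 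
(.lf (nat_lit 55321) (.g (nat_lit 3317) (.e (nat_lit 1400) (nat_lit 106) (.e (nat_lit 319534) (nat_lit 16) (.e (nat_lit 286720) (nat_lit 0) (.e (nat_lit 1788) (nat_lit 119) (.e (nat_lit 516176) (nat_lit 14) (.e (nat_lit 466977) (nat_lit 22) (.e (nat_lit 196626) (nat_lit 9) .nil))))))) (.g (nat_lit 5) .nil .nil))) 
(.lf (nat_lit 55353) (.g (nat_lit 2253) (.e (nat_lit 1400) (nat_lit 106) (.e (nat_lit 319534) (nat_lit 16) (.e (nat_lit 286732) (nat_lit 2) (.e (nat_lit 90170) (nat_lit 13) (.e (nat_lit 172095) (nat_lit 9) .nil))))) .nil))))) (.nd (nat_lit 3) (.nd (nat_lit 4) (.nd (nat_lit 5) 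
(.lf (nat_lit 55301) (.g (nat_lit 2393) (.e (nat_lit 1400) (nat_lit 106) (.e (nat_lit 319533) (nat_lit 16) (.e (nat_lit 286753) (nat_lit 10) (.e (nat_lit 344160) (nat_lit 37) (.e (nat_lit 647199) (nat_lit 11) (.e (nat_lit 16387) (nat_lit 0) (.e (nat_lit 7490) (nat_lit 402) .nil))))))) (.g (nat_lit 5) .nil .nil))) 
(.lf (nat_lit 55333) (.g (nat_lit 3817) (.e (nat_lit 1400) (nat_lit 106) (.e (nat_lit 319534) (nat_lit 16) (.e (nat_lit 286727) (nat_lit 0) (.e (nat_lit 1799) (nat_lit 119) (.e (nat_lit 516176) (nat_lit 14) (.e (nat_lit 466975) (nat_lit 22) (.e (nat_lit 196626) (nat_lit 9) .nil))))))) (.g (nat_lit 7) .nil .nil)))) (.nd (nat_lit 5) 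
(.lf (nat_lit 55317) (.g (nat_lit 4006) (.e (nat_lit 1400) (nat_lit 106) (.e (nat_lit 319534) (nat_lit 16) (.e (nat_lit 286720) (nat_lit 0) (.e (nat_lit 1788) (nat_lit 119) (.e (nat_lit 516174) (nat_lit 14) (.e (nat_lit 466975) (nat_lit 22) (.e (nat_lit 196626) (nat_lit 9) .nil))))))) (.g (nat_lit 7) .nil .nil))) 
(.lf (nat_lit 55349) (.g (nat_lit 3466) (.e (nat_lit 1400) (nat_lit 106) (.e (nat_lit 319534) (nat_lit 16) (.e (nat_lit 286728) (nat_lit 0) (.e (nat_lit 1802) (nat_lit 119) (.e (nat_lit 516176) (nat_lit 14) (.e (nat_lit 466975) (nat_lit 22) (.e (nat_lit 196626) (nat_lit 9) .nil))))))) (.g (nat_lit 0) .nil .nil))))) (.nd (nat_lit 4) (.nd (nat_lit 5) 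
(.lf (nat_lit 55309) (.g (nat_lit 2898) (.e (nat_lit 1400) (nat_lit 106) (.e (nat_lit 319533) (nat_lit 16) (.e (nat_lit 286761) (nat_lit 13) (.e (nat_lit 393283) (nat_lit 24) (.e (nat_lit 434278) (nat_lit 39) (.e (nat_lit 663552) (nat_lit 0) .nil)))))) (.g (nat_lit 4) .nil .nil))) 
(.lf (nat_lit 55341) (.g (nat_lit 2633) (.e (nat_lit 1400) (nat_lit 106) (.e (nat_lit 319534) (nat_lit 16) (.e (nat_lit 286728) (nat_lit 0) (.e (nat_lit 1788) (nat_lit 119) (.e (nat_lit 516175) (nat_lit 14) (.e (nat_lit 466977) (nat_lit 22) (.e (nat_lit 196626) (nat_lit 9) .nil))))))) (.g (nat_lit 5) .nil .nil)))) (.nd (nat_lit 5) 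
(.lf (nat_lit 55325) (.g (nat_lit 939) (.e (nat_lit 1400) (nat_lit 106) (.e (nat_lit 319534) (nat_lit 16) (.e (nat_lit 286722) (nat_lit 0) .nil))) .nil)) 
(.lf (nat_lit 55357) (.g (nat_lit 5121) (.e (nat_lit 1400) (nat_lit 106) (.e (nat_lit 319534) (nat_lit 16) (.e (nat_lit 286732) (nat_lit 2) (.e (nat_lit 90176) (nat_lit 15) (.e (nat_lit 188449) (nat_lit 22) (.e (nat_lit 196626) (nat_lit 9) .nil)))))) (.g (nat_lit 6) .nil .nil))))))) (.nd (nat_lit 2) (.nd (nat_lit 3) (.nd (nat_lit 4) (.nd (nat_lit 5) 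
(.lf (nat_lit 55299) (.g (nat_lit 2742) (.e (nat_lit 1400) (nat_lit 106) (.e (nat_lit 319533) (nat_lit 16) (.e (nat_lit 286753) (nat_lit 10) (.e (nat_lit 344160) (nat_lit 37) (.e (nat_lit 647195) (nat_lit 9) (.e (nat_lit 7936) (nat_lit 36) (.e (nat_lit 466688) (nat_lit 0) .nil))))))) (.g (nat_lit 5) .nil .nil))) 
(.lf (nat_lit 55331) (.g (nat_lit 977) (.e (nat_lit 1400) (nat_lit 106) (.e (nat_lit 319534) (nat_lit 16) (.e (nat_lit 286727) (nat_lit 0) .nil))) .nil))) (.nd (nat_lit 5) 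
(.lf (nat_lit 55315) (.g (nat_lit 2298) (.e (nat_lit 1400) (nat_lit 106) (.e (nat_lit 319534) (nat_lit 16) (.e (nat_lit 286720) (nat_lit 0) (.e (nat_lit 1788) (nat_lit 119) (.e (nat_lit 516163) (nat_lit 11) (.e (nat_lit 442423) (nat_lit 22) (.e (nat_lit 196626) (nat_lit 9) .nil))))))) (.g (nat_lit 4) .nil .nil))) 
(.lf (nat_lit 55347) (.g (nat_lit 2189) (.e (nat_lit 1400) (nat_lit 106) (.e (nat_lit 319534) (nat_lit 16) (.e (nat_lit 286728) (nat_lit 0) (.e (nat_lit 1801) (nat_lit 119) (.e (nat_lit 516176) (nat_lit 14) (.e (nat_lit 466975) (nat_lit 22) (.e (nat_lit 196626) (nat_lit 9) .nil))))))) (.g (nat_lit 5) .nil .nil))))) (.nd (nat_lit 4) (.nd (nat_lit 5) 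
(.lf (nat_lit 55307) (.g (nat_lit 3101) (.e (nat_lit 1400) (nat_lit 106) (.e (nat_lit 319533) (nat_lit 16) (.e (nat_lit 286761) (nat_lit 13) (.e (nat_lit 393282) (nat_lit 24) (.e (nat_lit 434276) (nat_lit 39) (.e (nat_lit 663552) (nat_lit 0) .nil)))))) (.g (nat_lit 5) .nil .nil))) 
(.lf (nat_lit 55339) (.g (nat_lit 3711) (.e (nat_lit 1400) (nat_lit 106) (.e (nat_lit 319534) (nat_lit 16) (.e (nat_lit 286728) (nat_lit 0) (.e (nat_lit 1788) (nat_lit 119) (.e (nat_lit 516174) (nat_lit 14) (.e (nat_lit 466975) (nat_lit 22) (.e (nat_lit 196626) (nat_lit 9) .nil))))))) (.g (nat_lit 7) .nil .nil)))) (.nd (nat_lit 5) 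
(.lf (nat_lit 55323) (.g (nat_lit 2367) (.e (nat_lit 1400) (nat_lit 106) (.e (nat_lit 319534) (nat_lit 16) (.e (nat_lit 286720) (nat_lit 0) (.e (nat_lit 1788) (nat_lit 119) (.e (nat_lit 516177) (nat_lit 14) (.e (nat_lit 466977) (nat_lit 22) (.e (nat_lit 196626) (nat_lit 9) .nil))))))) (.g (nat_lit 4) .nil .nil))) 
(.lf (nat_lit 55355) (.g (nat_lit 4578) (.e (nat_lit 1400) (nat_lit 106) (.e (nat_lit 319534) (nat_lit 16) (.e (nat_lit 286732) (nat_lit 2) (.e (nat_lit 90176) (nat_lit 15) (.e (nat_lit 188447) (nat_lit 22) (.e (nat_lit 196626) (nat_lit 9) .nil)))))) (.g (nat_lit 0) .nil .nil)))))) (.nd (nat_lit 3) (.nd (nat_lit 4) (.nd (nat_lit 5) 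
(.lf (nat_lit 55303) (.g (nat_lit 559) (.e (nat_lit 1400) (nat_lit 106) (.e (nat_lit 319533) (nat_lit 16) (.e (nat_lit 286760) (nat_lit 13) .nil))) .nil)) 
(.lf (nat_lit 55335) (.g (nat_lit 3750) (.e (nat_lit 1400) (nat_lit 106) (.e (nat_lit 319534) (nat_lit 16) (.e (nat_lit 286727) (nat_lit 0) (.e (nat_lit 1799) (nat_lit 119) (.e (nat_lit 516177) (nat_lit 14) (.e (nat_lit 466974) (nat_lit 22) (.e (nat_lit 196626) (nat_lit 9) .nil))))))) (.g (nat_lit 7) .nil .nil)))) (.nd (nat_lit 5) 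
(.lf (nat_lit 55319) (.g (nat_lit 3990) (.e (nat_lit 1400) (nat_lit 106) (.e (nat_lit 319534) (nat_lit 16) (.e (nat_lit 286720) (nat_lit 0) (.e (nat_lit 1788) (nat_lit 119) (.e (nat_lit 516176) (nat_lit 14) (.e (nat_lit 466975) (nat_lit 22) (.e (nat_lit 196626) (nat_lit 9) .nil))))))) (.g (nat_lit 7) .nil .nil))) 
(.lf (nat_lit 55351) (.g (nat_lit 2560) (.e (nat_lit 1400) (nat_lit 106) (.e (nat_lit 319534) (nat_lit 16) (.e (nat_lit 286732) (nat_lit 2) (.e (nat_lit 90170) (nat_lit 13) (.e (nat_lit 172092) (nat_lit 9) (.e (nat_lit 426120) (nat_lit 2) (.e (nat_lit 196626) (nat_lit 9) .nil))))))) (.g (nat_lit 4) .nil .nil))))) (.nd (nat_lit 4) (.nd (nat_lit 5) 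
(.lf (nat_lit 55311) (.g (nat_lit 2284) (.e (nat_lit 1400) (nat_lit 106) (.e (nat_lit 319533) (nat_lit 16) (.e (nat_lit 286761) (nat_lit 13) (.e (nat_lit 393284) (nat_lit 24) (.e (nat_lit 434278) (nat_lit 39) (.e (nat_lit 663552) (nat_lit 0) .nil)))))) (.g (nat_lit 4) .nil .nil))) 
(.lf (nat_lit 55343) (.g (nat_lit 2962) (.e (nat_lit 1400) (nat_lit 106) (.e (nat_lit 319534) (nat_lit 16) (.e (nat_lit 286728) (nat_lit 0) (.e (nat_lit 1788) (nat_lit 119) (.e (nat_lit 516176) (nat_lit 14) (.e (nat_lit 466977) (nat_lit 22) (.e (nat_lit 196626) (nat_lit 9) .nil))))))) (.g (nat_lit 5) .nil .nil)))) (.nd (nat_lit 5) 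
(.lf (nat_lit 55327) (.g (nat_lit 2631) (.e (nat_lit 1400) (nat_lit 106) (.e (nat_lit 319534) (nat_lit 16) (.e (nat_lit 286722) (nat_lit 0) (.e (nat_lit 1691) (nat_lit 117) (.e (nat_lit 499929) (nat_lit 11) (.e (nat_lit 188448) (nat_lit 22) (.e (nat_lit 196626) (nat_lit 9) .nil))))))) (.g (nat_lit 4) .nil .nil))) 
(.lf (nat_lit 55359) (.g (nat_lit 2821) (.e (nat_lit 1400) (nat_lit 106) (.e (nat_lit 319534) (nat_lit 16) (.e (nat_lit 286732) (nat_lit 2) (.e (nat_lit 90177) (nat_lit 15) (.e (nat_lit 188449) (nat_lit 22) (.e (nat_lit 196626) (nat_lit 9) .nil)))))) (.g (nat_lit 4) .nil .nil)))))))))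

noncomputable def tv764 : DT := (.nd (nat_lit 0) (.nd (nat_lit 1) (.nd (nat_lit 2) (.nd (nat_lit 3) (.nd (nat_lit 4) (.nd (nat_lit 5) 
(.lf (nat_lit 55360) (.g (nat_lit 2966) (.e (nat_lit 1400) (nat_lit 106) (.e (nat_lit 319534) (nat_lit 16) (.e (nat_lit 286732) (nat_lit 2) (.e (nat_lit 90178) (nat_lit 15) (.e (nat_lit 188448) (nat_lit 22) (.e (nat_lit 196626) (nat_lit 9) .nil)))))) (.g (nat_lit 4) .nil .nil))) 
(.lf (nat_lit 55392) (.g (nat_lit 2200) (.e (nat_lit 1400) (nat_lit 106) (.e (nat_lit 319534) (nat_lit 16) (.e (nat_lit 286735) (nat_lit 3) (.e (nat_lit 98356) (nat_lit 26) (.e (nat_lit 426244) (nat_lit 9) (.e (nat_lit 426121) (nat_lit 2) (.e (nat_lit 196626) (nat_lit 9) .nil))))))) (.g (nat_lit 4) .nil .nil)))) (.nd (nat_lit 5) 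
(.lf (nat_lit 55376) (.g (nat_lit 2696) (.e (nat_lit 1400) (nat_lit 106) (.e (nat_lit 319534) (nat_lit 16) (.e (nat_lit 286734) (nat_lit 3) (.e (nat_lit 98359) (nat_lit 26) (.e (nat_lit 426208) (nat_lit 9) .nil))))) .nil)) 
(.lf (nat_lit 55408) (.g (nat_lit 2314) (.e (nat_lit 1400) (nat_lit 106) (.e (nat_lit 319534) (nat_lit 16) (.e (nat_lit 286735) (nat_lit 3) (.e (nat_lit 98380) (nat_lit 31) (.e (nat_lit 466975) (nat_lit 22) (.e (nat_lit 196626) (nat_lit 9) .nil)))))) (.g (nat_lit 5) .nil .nil))))) (.nd (nat_lit 4) (.nd (nat_lit 5) 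
(.lf (nat_lit 55368) (.g (nat_lit 5126) (.e (nat_lit 1400) (nat_lit 106) (.e (nat_lit 319534) (nat_lit 16) (.e (nat_lit 286733) (nat_lit 2) (.e (nat_lit 90176) (nat_lit 15) (.e (nat_lit 188449) (nat_lit 22) (.e (nat_lit 196626) (nat_lit 9) .nil)))))) (.g (nat_lit 6) .nil .nil))) 
(.lf (nat_lit 55400) (.g (nat_lit 3556) (.e (nat_lit 1400) (nat_lit 106) (.e (nat_lit 319534) (nat_lit 16) (.e (nat_lit 286735) (nat_lit 3) (.e (nat_lit 98370) (nat_lit 28) (.e (nat_lit 442423) (nat_lit 22) (.e (nat_lit 196626) (nat_lit 9) .nil)))))) (.g (nat_lit 0) .nil .nil)))) (.nd (nat_lit 5) 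
(.lf (nat_lit 55384) (.g (nat_lit 2305) (.e (nat_lit 1400) (nat_lit 106) (.e (nat_lit 319534) (nat_lit 16) (.e (nat_lit 286734) (nat_lit 3) (.e (nat_lit 98381) (nat_lit 31) (.e (nat_lit 466974) (nat_lit 22) (.e (nat_lit 196626) (nat_lit 9) .nil)))))) (.g (nat_lit 4) .nil .nil))) 
(.lf (nat_lit 55416) (.g (nat_lit 2562) (.e (nat_lit 1400) (nat_lit 106) (.e (nat_lit 319534) (nat_lit 16) (.e (nat_lit 286735) (nat_lit 3) (.e (nat_lit 98382) (nat_lit 31) (.e (nat_lit 466977) (nat_lit 22) (.e (nat_lit 196626) (nat_lit 9) .nil)))))) (.g (nat_lit 6) .nil .nil)))))) (.nd (nat_lit 3) (.nd (nat_lit 4) (.nd (nat_lit 5) 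
(.lf (nat_lit 55364) (.g (nat_lit 3003) (.e (nat_lit 1400) (nat_lit 106) (.e (nat_lit 319534) (nat_lit 16) (.e (nat_lit 286733) (nat_lit 2) (.e (nat_lit 90170) (nat_lit 13) (.e (nat_lit 172092) (nat_lit 9) (.e (nat_lit 426120) (nat_lit 2) (.e (nat_lit 196626) (nat_lit 9) .nil))))))) (.g (nat_lit 5) .nil .nil))) 
(.lf (nat_lit 55396) (.g (nat_lit 1758) (.e (nat_lit 1400) (nat_lit 106) (.e (nat_lit 319534) (nat_lit 16) (.e (nat_lit 286735) (nat_lit 3) (.e (nat_lit 98357) (nat_lit 26) .nil)))) .nil))) (.nd (nat_lit 5) 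
(.lf (nat_lit 55380) (.g (nat_lit 2235) (.e (nat_lit 1400) (nat_lit 106) (.e (nat_lit 319534) (nat_lit 16) (.e (nat_lit 286734) (nat_lit 3) (.e (nat_lit 98370) (nat_lit 28) (.e (nat_lit 442424) (nat_lit 22) .nil))))) .nil)) 
(.lf (nat_lit 55412) (.g (nat_lit 2804) (.e (nat_lit 1400) (nat_lit 106) (.e (nat_lit 319534) (nat_lit 16) (.e (nat_lit 286735) (nat_lit 3) (.e (nat_lit 98381) (nat_lit 31) (.e (nat_lit 466976) (nat_lit 22) (.e (nat_lit 196626) (nat_lit 9) .nil)))))) (.g (nat_lit 0) .nil .nil))))) (.nd (nat_lit 4) (.nd (nat_lit 5) 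
(.lf (nat_lit 55372) (.g (nat_lit 2766) (.e (nat_lit 1400) (nat_lit 106) (.e (nat_lit 319534) (nat_lit 16) (.e (nat_lit 286733) (nat_lit 2) (.e (nat_lit 90178) (nat_lit 15) (.e (nat_lit 188448) (nat_lit 22) (.e (nat_lit 196626) (nat_lit 9) .nil)))))) (.g (nat_lit 4) .nil .nil))) 
(.lf (nat_lit 55404) (.g (nat_lit 2126) (.e (nat_lit 1400) (nat_lit 106) (.e (nat_lit 319534) (nat_lit 16) (.e (nat_lit 286735) (nat_lit 3) (.e (nat_lit 98371) (nat_lit 28) (.e (nat_lit 442424) (nat_lit 22) (.e (nat_lit 196626) (nat_lit 9) .nil)))))) (.g (nat_lit 4) .nil .nil)))) (.nd (nat_lit 5) 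
(.lf (nat_lit 55388) (.g (nat_lit 1837) (.e (nat_lit 1400) (nat_lit 106) (.e (nat_lit 319534) (nat_lit 16) (.e (nat_lit 286735) (nat_lit 3) (.e (nat_lit 98354) (nat_lit 26) .nil)))) .nil)) 
(.lf (nat_lit 55420) (.g (nat_lit 1084) (.e (nat_lit 1400) (nat_lit 106) (.e (nat_lit 319534) (nat_lit 16) (.e (nat_lit 286748) (nat_lit 9) .nil))) .nil)))))) (.nd (nat_lit 2) (.nd (nat_lit 3) (.nd (nat_lit 4) (.nd (nat_lit 5) 
(.lf (nat_lit 55362) (.g (nat_lit 2930) (.e (nat_lit 1400) (nat_lit 106) (.e (nat_lit 319534) (nat_lit 16) (.e (nat_lit 286733) (nat_lit 2) (.e (nat_lit 90134) (nat_lit 9) (.e (nat_lit 2992) (nat_lit 186) (.e (nat_lit 442423) (nat_lit 22) (.e (nat_lit 196626) (nat_lit 9) .nil))))))) (.g (nat_lit 4) .nil .nil))) 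
(.lf (nat_lit 55394) (.g (nat_lit 2517) (.e (nat_lit 1400) (nat_lit 106) (.e (nat_lit 319534) (nat_lit 16) (.e (nat_lit 286735) (nat_lit 3) (.e (nat_lit 98356) (nat_lit 26) (.e (nat_lit 426244) (nat_lit 9) (.e (nat_lit 426124) (nat_lit 2) (.e (nat_lit 196626) (nat_lit 9) .nil))))))) (.g (nat_lit 4) .nil .nil)))) (.nd (nat_lit 5) 
(.lf (nat_lit 55378) (.g (nat_lit 2314) (.e (nat_lit 1400) (nat_lit 106) (.e (nat_lit 319534) (nat_lit 16) (.e (nat_lit 286734) (nat_lit 3) (.e (nat_lit 98359) (nat_lit 26) (.e (nat_lit 426286) (nat_lit 10) .nil))))) .nil)) 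
(.lf (nat_lit 55410) (.g (nat_lit 2286) (.e (nat_lit 1400) (nat_lit 106) (.e (nat_lit 319534) (nat_lit 16) (.e (nat_lit 286735) (nat_lit 3) (.e (nat_lit 98381) (nat_lit 31) (.e (nat_lit 466974) (nat_lit 22) (.e (nat_lit 196626) (nat_lit 9) .nil)))))) (.g (nat_lit 4) .nil .nil))))) (.nd (nat_lit 4) (.nd (nat_lit 5) 
(.lf (nat_lit 55370) (.g (nat_lit 1589) (.e (nat_lit 1400) (nat_lit 106) (.e (nat_lit 319534) (nat_lit 16) (.e (nat_lit 286733) (nat_lit 2) (.e (nat_lit 90177) (nat_lit 15) .nil)))) .nil)) 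
(.lf (nat_lit 55402) (.g (nat_lit 3279) (.e (nat_lit 1400) (nat_lit 106) (.e (nat_lit 319534) (nat_lit 16) (.e (nat_lit 286735) (nat_lit 3) (.e (nat_lit 98370) (nat_lit 28) (.e (nat_lit 442433) (nat_lit 25) (.e (nat_lit 245781) (nat_lit 9) .nil)))))) (.g (nat_lit 5) .nil .nil)))) (.nd (nat_lit 5) 
(.lf (nat_lit 55386) (.g (nat_lit 3191) (.e (nat_lit 1400) (nat_lit 106) (.e (nat_lit 319534) (nat_lit 16) (.e (nat_lit 286734) (nat_lit 3) (.e (nat_lit 98381) (nat_lit 31) (.e (nat_lit 466976) (nat_lit 22) (.e (nat_lit 196626) (nat_lit 9) .nil)))))) (.g (nat_lit 0) .nil .nil))) 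
(.lf (nat_lit 55418) (.g (nat_lit 853) (.e (nat_lit 1400) (nat_lit 106) (.e (nat_lit 319534) (nat_lit 16) (.e (nat_lit 286743) (nat_lit 9) .nil))) .nil))))) (.nd (nat_lit 3) (.nd (nat_lit 4) (.nd (nat_lit 5) 
(.lf (nat_lit 55366) (.g (nat_lit 3887) (.e (nat_lit 1400) (nat_lit 106) (.e (nat_lit 319534) (nat_lit 16) (.e (nat_lit 286733) (nat_lit 2) (.e (nat_lit 90176) (nat_lit 15) (.e (nat_lit 188447) (nat_lit 22) (.e (nat_lit 196626) (nat_lit 9) .nil)))))) (.g (nat_lit 5) .nil .nil))) 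
(.lf (nat_lit 55398) (.g (nat_lit 2355) (.e (nat_lit 1400) (nat_lit 106) (.e (nat_lit 319534) (nat_lit 16) (.e (nat_lit 286735) (nat_lit 3) (.e (nat_lit 98369) (nat_lit 28) (.e (nat_lit 442422) (nat_lit 22) (.e (nat_lit 196626) (nat_lit 9) .nil)))))) (.g (nat_lit 4) .nil .nil)))) (.nd (nat_lit 5) 
(.lf (nat_lit 55382) (.g (nat_lit 3595) (.e (nat_lit 1400) (nat_lit 106) (.e (nat_lit 319534) (nat_lit 16) (.e (nat_lit 286734) (nat_lit 3) (.e (nat_lit 98370) (nat_lit 28) (.e (nat_lit 442433) (nat_lit 25) (.e (nat_lit 245781) (nat_lit 9) .nil)))))) (.g (nat_lit 0) .nil .nil))) 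
(.lf (nat_lit 55414) (.g (nat_lit 2604) (.e (nat_lit 1400) (nat_lit 106) (.e (nat_lit 319534) (nat_lit 16) (.e (nat_lit 286735) (nat_lit 3) (.e (nat_lit 98382) (nat_lit 31) (.e (nat_lit 466974) (nat_lit 22) (.e (nat_lit 196626) (nat_lit 9) .nil)))))) (.g (nat_lit 5) .nil .nil))))) (.nd (nat_lit 4) (.nd (nat_lit 5) 
(.lf (nat_lit 55374) (.g (nat_lit 1640) (.e (nat_lit 1400) (nat_lit 106) (.e (nat_lit 319534) (nat_lit 16) (.e (nat_lit 286733) (nat_lit 2) (.e (nat_lit 90186) (nat_lit 17) .nil)))) .nil)) 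
(.lf (nat_lit 55406) (.g (nat_lit 2612) (.e (nat_lit 1400) (nat_lit 106) (.e (nat_lit 319534) (nat_lit 16) (.e (nat_lit 286735) (nat_lit 3) (.e (nat_lit 98372) (nat_lit 29) (.e (nat_lit 450571) (nat_lit 1) (.e (nat_lit 499961) (nat_lit 14) .nil)))))) (.g (nat_lit 4) .nil .nil)))) (.nd (nat_lit 5) 
(.lf (nat_lit 55390) (.g (nat_lit 2866) (.e (nat_lit 1400) (nat_lit 106) (.e (nat_lit 319534) (nat_lit 16) (.e (nat_lit 286735) (nat_lit 3) (.e (nat_lit 98356) (nat_lit 26) (.e (nat_lit 426241) (nat_lit 9) (.e (nat_lit 426124) (nat_lit 2) (.e (nat_lit 196626) (nat_lit 9) .nil))))))) (.g (nat_lit 5) .nil .nil))) 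
(.lf (nat_lit 55422) (.g (nat_lit 1998) (.e (nat_lit 1400) (nat_lit 106) (.e (nat_lit 319534) (nat_lit 16) (.e (nat_lit 286749) (nat_lit 9) (.e (nat_lit 335997) (nat_lit 1) (.e (nat_lit 57822) (nat_lit 250) (.e (nat_lit 2636) (nat_lit 165) (.e (nat_lit 188160) (nat_lit 32) .nil))))))) (.g (nat_lit 4) .nil .nil)))))))) 
(.nd (nat_lit 1) (.nd (nat_lit 2) (.nd (nat_lit 3) (.nd (nat_lit 4) (.nd (nat_lit 5) 
(.lf (nat_lit 55361) (.g (nat_lit 2022) (.e (nat_lit 1400) (nat_lit 106) (.e (nat_lit 319534) (nat_lit 16) (.e (nat_lit 286733) (nat_lit 2) (.e (nat_lit 90133) (nat_lit 9) (.e (nat_lit 3042) (nat_lit 189) .nil))))) .nil)) 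
(.lf (nat_lit 55393) (.g (nat_lit 2213) (.e (nat_lit 1400) (nat_lit 106) (.e (nat_lit 319534) (nat_lit 16) (.e (nat_lit 286735) (nat_lit 3) (.e (nat_lit 98356) (nat_lit 26) (.e (nat_lit 426244) (nat_lit 9) (.e (nat_lit 426122) (nat_lit 2) (.e (nat_lit 196626) (nat_lit 9) .nil))))))) (.g (nat_lit 4) .nil .nil)))) (.nd (nat_lit 5) 
(.lf (nat_lit 55377) (.g (nat_lit 5542) (.e (nat_lit 1400) (nat_lit 106) (.e (nat_lit 319534) (nat_lit 16) (.e (nat_lit 286734) (nat_lit 3) (.e (nat_lit 98359) (nat_lit 26) (.e (nat_lit 426211) (nat_lit 9) (.e (nat_lit 426125) (nat_lit 2) (.e (nat_lit 196617) (nat_lit 9) .nil))))))) (.g (nat_lit 6) .nil .nil))) 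
(.lf (nat_lit 55409) (.g (nat_lit 1899) (.e (nat_lit 1400) (nat_lit 106) (.e (nat_lit 319534) (nat_lit 16) (.e (nat_lit 286735) (nat_lit 3) (.e (nat_lit 98380) (nat_lit 31) (.e (nat_lit 466977) (nat_lit 22) (.e (nat_lit 196626) (nat_lit 9) .nil)))))) (.g (nat_lit 4) .nil .nil))))) (.nd (nat_lit 4) (.nd (nat_lit 5) 
(.lf (nat_lit 55369) (.g (nat_lit 3552) (.e (nat_lit 1400) (nat_lit 106) (.e (nat_lit 319534) (nat_lit 16) (.e (nat_lit 286733) (nat_lit 2) (.e (nat_lit 90176) (nat_lit 15) (.e (nat_lit 188456) (nat_lit 25) (.e (nat_lit 245781) (nat_lit 9) .nil)))))) (.g (nat_lit 6) .nil .nil))) 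
(.lf (nat_lit 55401) (.g (nat_lit 3743) (.e (nat_lit 1400) (nat_lit 106) (.e (nat_lit 319534) (nat_lit 16) (.e (nat_lit 286735) (nat_lit 3) (.e (nat_lit 98370) (nat_lit 28) (.e (nat_lit 442424) (nat_lit 22) (.e (nat_lit 196626) (nat_lit 9) .nil)))))) (.g (nat_lit 5) .nil .nil)))) (.nd (nat_lit 5) 
(.lf (nat_lit 55385) (.g (nat_lit 2856) (.e (nat_lit 1400) (nat_lit 106) (.e (nat_lit 319534) (nat_lit 16) (.e (nat_lit 286734) (nat_lit 3) (.e (nat_lit 98381) (nat_lit 31) (.e (nat_lit 466975) (nat_lit 22) (.e (nat_lit 196626) (nat_lit 9) .nil)))))) (.g (nat_lit 5) .nil .nil))) 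
(.lf (nat_lit 55417) (.g (nat_lit 1093) (.e (nat_lit 1400) (nat_lit 106) (.e (nat_lit 319534) (nat_lit 16) (.e (nat_lit 286742) (nat_lit 9) .nil))) .nil))))) (.nd (nat_lit 3) (.nd (nat_lit 4) (.nd (nat_lit 5) 
(.lf (nat_lit 55365) (.g (nat_lit 4207) (.e (nat_lit 1400) (nat_lit 106) (.e (nat_lit 319534) (nat_lit 16) (.e (nat_lit 286733) (nat_lit 2) (.e (nat_lit 90175) (nat_lit 15) (.e (nat_lit 188449) (nat_lit 22) (.e (nat_lit 196626) (nat_lit 9) .nil)))))) (.g (nat_lit 5) .nil .nil))) 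
(.lf (nat_lit 55397) (.g (nat_lit 1632) (.e (nat_lit 1400) (nat_lit 106) (.e (nat_lit 319534) (nat_lit 16) (.e (nat_lit 286735) (nat_lit 3) (.e (nat_lit 98365) (nat_lit 26) .nil)))) .nil))) (.nd (nat_lit 5) 
(.lf (nat_lit 55381) (.g (nat_lit 4301) (.e (nat_lit 1400) (nat_lit 106) (.e (nat_lit 319534) (nat_lit 16) (.e (nat_lit 286734) (nat_lit 3) (.e (nat_lit 98370) (nat_lit 28) (.e (nat_lit 442424) (nat_lit 22) (.e (nat_lit 196626) (nat_lit 9) .nil)))))) (.g (nat_lit 0) .nil .nil))) 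
(.lf (nat_lit 55413) (.g (nat_lit 3366) (.e (nat_lit 1400) (nat_lit 106) (.e (nat_lit 319534) (nat_lit 16) (.e (nat_lit 286735) (nat_lit 3) (.e (nat_lit 98381) (nat_lit 31) (.e (nat_lit 466977) (nat_lit 22) (.e (nat_lit 196626) (nat_lit 9) .nil)))))) (.g (nat_lit 6) .nil .nil))))) (.nd (nat_lit 4) (.nd (nat_lit 5) 
(.lf (nat_lit 55373) (.g (nat_lit 4757) (.e (nat_lit 1400) (nat_lit 106) (.e (nat_lit 319534) (nat_lit 16) (.e (nat_lit 286733) (nat_lit 2) (.e (nat_lit 90178) (nat_lit 15) (.e (nat_lit 188449) (nat_lit 22) (.e (nat_lit 196626) (nat_lit 9) .nil)))))) (.g (nat_lit 5) .nil .nil))) 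
(.lf (nat_lit 55405) (.g (nat_lit 2329) (.e (nat_lit 1400) (nat_lit 106) (.e (nat_lit 319534) (nat_lit 16) (.e (nat_lit 286735) (nat_lit 3) (.e (nat_lit 98372) (nat_lit 29) (.e (nat_lit 450571) (nat_lit 1) .nil))))) .nil))) (.nd (nat_lit 5) 
(.lf (nat_lit 55389) (.g (nat_lit 2135) (.e (nat_lit 1400) (nat_lit 106) (.e (nat_lit 319534) (nat_lit 16) (.e (nat_lit 286735) (nat_lit 3) (.e (nat_lit 98356) (nat_lit 26) (.e (nat_lit 426241) (nat_lit 9) .nil))))) .nil)) 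
(.lf (nat_lit 55421) (.g (nat_lit 2274) (.e (nat_lit 1400) (nat_lit 106) (.e (nat_lit 319534) (nat_lit 16) (.e (nat_lit 286749) (nat_lit 9) (.e (nat_lit 335997) (nat_lit 1) (.e (nat_lit 57822) (nat_lit 250) (.e (nat_lit 2635) (nat_lit 165) (.e (nat_lit 188160) (nat_lit 32) .nil))))))) (.g (nat_lit 6) .nil .nil))))))) (.nd (nat_lit 2) (.nd (nat_lit 3) (.nd (nat_lit 4) (.nd (nat_lit 5) 
(.lf (nat_lit 55363) (.g (nat_lit 2479) (.e (nat_lit 1400) (nat_lit 106) (.e (nat_lit 319534) (nat_lit 16) (.e (nat_lit 286733) (nat_lit 2) (.e (nat_lit 90169) (nat_lit 13) (.e (nat_lit 172103) (nat_lit 9) (.e (nat_lit 426123) (nat_lit 2) (.e (nat_lit 196626) (nat_lit 9) .nil))))))) (.g (nat_lit 4) .nil .nil))) 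
(.lf (nat_lit 55395) (.g (nat_lit 2857) (.e (nat_lit 1400) (nat_lit 106) (.e (nat_lit 319534) (nat_lit 16) (.e (nat_lit 286735) (nat_lit 3) (.e (nat_lit 98356) (nat_lit 26) (.e (nat_lit 426270) (nat_lit 9) (.e (nat_lit 426124) (nat_lit 2) (.e (nat_lit 196626) (nat_lit 9) .nil))))))) (.g (nat_lit 4) .nil .nil)))) (.nd (nat_lit 5) 
(.lf (nat_lit 55379) (.g (nat_lit 3105) (.e (nat_lit 1400) (nat_lit 106) (.e (nat_lit 319534) (nat_lit 16) (.e (nat_lit 286734) (nat_lit 3) (.e (nat_lit 98370) (nat_lit 28) (.e (nat_lit 442423) (nat_lit 22) (.e (nat_lit 196626) (nat_lit 9) .nil)))))) (.g (nat_lit 4) .nil .nil))) 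
(.lf (nat_lit 55411) (.g (nat_lit 2767) (.e (nat_lit 1400) (nat_lit 106) (.e (nat_lit 319534) (nat_lit 16) (.e (nat_lit 286735) (nat_lit 3) (.e (nat_lit 98381) (nat_lit 31) (.e (nat_lit 466975) (nat_lit 22) (.e (nat_lit 196626) (nat_lit 9) .nil)))))) (.g (nat_lit 0) .nil .nil))))) (.nd (nat_lit 4) (.nd (nat_lit 5) 
(.lf (nat_lit 55371) (.g (nat_lit 1361) (.e (nat_lit 1400) (nat_lit 106) (.e (nat_lit 319534) (nat_lit 16) (.e (nat_lit 286733) (nat_lit 2) (.e (nat_lit 90178) (nat_lit 15) .nil)))) .nil)) 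
(.lf (nat_lit 55403) (.g (nat_lit 1435) (.e (nat_lit 1400) (nat_lit 106) (.e (nat_lit 319534) (nat_lit 16) (.e (nat_lit 286735) (nat_lit 3) (.e (nat_lit 98371) (nat_lit 28) .nil)))) .nil))) (.nd (nat_lit 5) 
(.lf (nat_lit 55387) (.g (nat_lit 2355) (.e (nat_lit 1400) (nat_lit 106) (.e (nat_lit 319534) (nat_lit 16) (.e (nat_lit 286735) (nat_lit 3) (.e (nat_lit 98353) (nat_lit 25) (.e (nat_lit 417813) (nat_lit 9) (.e (nat_lit 311312) (nat_lit 2) (.e (nat_lit 196626) (nat_lit 9) .nil))))))) (.g (nat_lit 4) .nil .nil))) 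
(.lf (nat_lit 55419) (.g (nat_lit 2692) (.e (nat_lit 1400) (nat_lit 106) (.e (nat_lit 319534) (nat_lit 16) (.e (nat_lit 286743) (nat_lit 9) (.e (nat_lit 336432) (nat_lit 30) (.e (nat_lit 450569) (nat_lit 0) (.e (nat_lit 5818) (nat_lit 320) (.e (nat_lit 999) (nat_lit 81) .nil))))))) (.g (nat_lit 4) .nil .nil)))))) (.nd (nat_lit 3) (.nd (nat_lit 4) (.nd (nat_lit 5) 
(.lf (nat_lit 55367) (.g (nat_lit 2853) (.e (nat_lit 1400) (nat_lit 106) (.e (nat_lit 319534) (nat_lit 16) (.e (nat_lit 286733) (nat_lit 2) (.e (nat_lit 90176) (nat_lit 15) (.e (nat_lit 188448) (nat_lit 22) (.e (nat_lit 196626) (nat_lit 9) .nil)))))) (.g (nat_lit 4) .nil .nil))) 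
(.lf (nat_lit 55399) (.g (nat_lit 2423) (.e (nat_lit 1400) (nat_lit 106) (.e (nat_lit 319534) (nat_lit 16) (.e (nat_lit 286735) (nat_lit 3) (.e (nat_lit 98370) (nat_lit 28) (.e (nat_lit 442422) (nat_lit 22) .nil))))) .nil))) (.nd (nat_lit 5) 
(.lf (nat_lit 55383) (.g (nat_lit 1997) (.e (nat_lit 1400) (nat_lit 106) (.e (nat_lit 319534) (nat_lit 16) (.e (nat_lit 286734) (nat_lit 3) (.e (nat_lit 98372) (nat_lit 29) (.e (nat_lit 450571) (nat_lit 1) .nil))))) .nil)) 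
(.lf (nat_lit 55415) (.g (nat_lit 1583) (.e (nat_lit 1400) (nat_lit 106) (.e (nat_lit 319534) (nat_lit 16) (.e (nat_lit 286735) (nat_lit 3) (.e (nat_lit 98382) (nat_lit 31) (.e (nat_lit 466976) (nat_lit 22) .nil))))) .nil)))) (.nd (nat_lit 4) (.nd (nat_lit 5) 
(.lf (nat_lit 55375) (.g (nat_lit 466) (.e (nat_lit 1400) (nat_lit 106) (.e (nat_lit 319534) (nat_lit 16) (.e (nat_lit 286734) (nat_lit 3) .nil))) .nil)) 
(.lf (nat_lit 55407) (.g (nat_lit 2483) (.e (nat_lit 1400) (nat_lit 106) (.e (nat_lit 319534) (nat_lit 16) (.e (nat_lit 286735) (nat_lit 3) (.e (nat_lit 98380) (nat_lit 31) (.e (nat_lit 466974) (nat_lit 22) (.e (nat_lit 196626) (nat_lit 9) .nil)))))) (.g (nat_lit 4) .nil .nil)))) (.nd (nat_lit 5) 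
(.lf (nat_lit 55391) (.g (nat_lit 2178) (.e (nat_lit 1400) (nat_lit 106) (.e (nat_lit 319534) (nat_lit 16) (.e (nat_lit 286735) (nat_lit 3) (.e (nat_lit 98356) (nat_lit 26) (.e (nat_lit 426244) (nat_lit 9) .nil))))) .nil)) 
(.lf (nat_lit 55423) (.g (nat_lit 2192) (.e (nat_lit 1400) (nat_lit 106) (.e (nat_lit 319534) (nat_lit 16) (.e (nat_lit 286749) (nat_lit 9) (.e (nat_lit 343808) (nat_lit 30) (.e (nat_lit 450595) (nat_lit 17) (.e (nat_lit 663552) (nat_lit 0) .nil)))))) (.g (nat_lit 5) .nil .nil)))))))))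

noncomputable def tv765 : DT := (.nd (nat_lit 0) (.nd (nat_lit 1) (.nd (nat_lit 2) (.nd (nat_lit 3) (.nd (nat_lit 4) (.nd (nat_lit 5) 
(.lf (nat_lit 55424) (.g (nat_lit 330) (.e (nat_lit 1400) (nat_lit 106) (.e (nat_lit 319534) (nat_lit 16) (.e (nat_lit 286756) (nat_lit 10) .nil))) .nil)) 
(.lf (nat_lit 55456) (.g (nat_lit 3263) (.e (nat_lit 1400) (nat_lit 106) (.e (nat_lit 319534) (nat_lit 16) (.e (nat_lit 286756) (nat_lit 10) (.e (nat_lit 344157) (nat_lit 36) (.e (nat_lit 638986) (nat_lit 5) (.e (nat_lit 2828) (nat_lit 182) (.e (nat_lit 417536) (nat_lit 0) (.e (nat_lit 5305) (nat_lit 298) .nil)))))))) (.g (nat_lit 6) .nil .nil)))) (.nd (nat_lit 5) 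
(.lf (nat_lit 55440) (.g (nat_lit 2050) (.e (nat_lit 1400) (nat_lit 106) (.e (nat_lit 319534) (nat_lit 16) (.e (nat_lit 286756) (nat_lit 10) (.e (nat_lit 344154) (nat_lit 35) (.e (nat_lit 630803) (nat_lit 9) (.e (nat_lit 188160) (nat_lit 32) .nil)))))) (.g (nat_lit 5) .nil .nil))) 
(.lf (nat_lit 55472) (.g (nat_lit 3629) (.e (nat_lit 1400) (nat_lit 106) (.e (nat_lit 319534) (nat_lit 16) (.e (nat_lit 286756) (nat_lit 10) (.e (nat_lit 344160) (nat_lit 37) (.e (nat_lit 647195) (nat_lit 9) (.e (nat_lit 59) (nat_lit 0) (.e (nat_lit 7089) (nat_lit 379) (.e (nat_lit 123202) (nat_lit 270) .nil)))))))) (.g (nat_lit 5) .nil .nil))))) (.nd (nat_lit 4) (.nd (nat_lit 5) 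
(.lf (nat_lit 55432) (.g (nat_lit 2646) (.e (nat_lit 1400) (nat_lit 106) (.e (nat_lit 319534) (nat_lit 16) (.e (nat_lit 286756) (nat_lit 10) (.e (nat_lit 344154) (nat_lit 35) (.e (nat_lit 630789) (nat_lit 5) (.e (nat_lit 2936) (nat_lit 184) (.e (nat_lit 425984) (nat_lit 0) (.e (nat_lit 7485) (nat_lit 402) .nil)))))))) (.g (nat_lit 4) .nil .nil))) 
(.lf (nat_lit 55464) (.g (nat_lit 2125) (.e (nat_lit 1400) (nat_lit 106) (.e (nat_lit 319534) (nat_lit 16) (.e (nat_lit 286756) (nat_lit 10) (.e (nat_lit 344157) (nat_lit 36) (.e (nat_lit 638998) (nat_lit 8) (.e (nat_lit 172034) (nat_lit 0) (.e (nat_lit 7490) (nat_lit 402) .nil))))))) (.g (nat_lit 4) .nil .nil)))) (.nd (nat_lit 5) 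
(.lf (nat_lit 55448) (.g (nat_lit 3302) (.e (nat_lit 1400) (nat_lit 106) (.e (nat_lit 319534) (nat_lit 16) (.e (nat_lit 286756) (nat_lit 10) (.e (nat_lit 344157) (nat_lit 36) (.e (nat_lit 638985) (nat_lit 5) (.e (nat_lit 2828) (nat_lit 182) (.e (nat_lit 417536) (nat_lit 0) (.e (nat_lit 5258) (nat_lit 298) .nil)))))))) (.g (nat_lit 6) .nil .nil))) 
(.lf (nat_lit 55480) (.g (nat_lit 3216) (.e (nat_lit 1400) (nat_lit 106) (.e (nat_lit 319534) (nat_lit 16) (.e (nat_lit 286756) (nat_lit 10) (.e (nat_lit 344160) (nat_lit 37) (.e (nat_lit 647199) (nat_lit 11) (.e (nat_lit 16388) (nat_lit 0) (.e (nat_lit 7486) (nat_lit 402) .nil))))))) (.g (nat_lit 6) .nil .nil)))))) (.nd (nat_lit 3) (.nd (nat_lit 4) (.nd (nat_lit 5) 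
(.lf (nat_lit 55428) (.g (nat_lit 2805) (.e (nat_lit 1400) (nat_lit 106) (.e (nat_lit 319534) (nat_lit 16) (.e (nat_lit 286756) (nat_lit 10) (.e (nat_lit 344153) (nat_lit 35) (.e (nat_lit 630796) (nat_lit 5) (.e (nat_lit 2936) (nat_lit 184) (.e (nat_lit 425987) (nat_lit 0) (.e (nat_lit 7485) (nat_lit 402) .nil)))))))) (.g (nat_lit 4) .nil .nil))) 
(.lf (nat_lit 55460) (.g (nat_lit 2877) (.e (nat_lit 1400) (nat_lit 106) (.e (nat_lit 319534) (nat_lit 16) (.e (nat_lit 286756) (nat_lit 10) (.e (nat_lit 344157) (nat_lit 36) (.e (nat_lit 646912) (nat_lit 5) (.e (nat_lit 2936) (nat_lit 184) (.e (nat_lit 425984) (nat_lit 0) (.e (nat_lit 7485) (nat_lit 402) .nil)))))))) (.g (nat_lit 4) .nil .nil)))) (.nd (nat_lit 5) 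
(.lf (nat_lit 55444) (.g (nat_lit 2732) (.e (nat_lit 1400) (nat_lit 106) (.e (nat_lit 319534) (nat_lit 16) (.e (nat_lit 286756) (nat_lit 10) (.e (nat_lit 344156) (nat_lit 36) (.e (nat_lit 638998) (nat_lit 8) (.e (nat_lit 172033) (nat_lit 0) (.e (nat_lit 7490) (nat_lit 402) .nil))))))) (.g (nat_lit 5) .nil .nil))) 
(.lf (nat_lit 55476) (.g (nat_lit 2364) (.e (nat_lit 1400) (nat_lit 106) (.e (nat_lit 319534) (nat_lit 16) (.e (nat_lit 286756) (nat_lit 10) (.e (nat_lit 344160) (nat_lit 37) (.e (nat_lit 647195) (nat_lit 9) (.e (nat_lit 7936) (nat_lit 33) (.e (nat_lit 442112) (nat_lit 0) .nil))))))) (.g (nat_lit 5) .nil .nil))))) (.nd (nat_lit 4) (.nd (nat_lit 5) 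
(.lf (nat_lit 55436) (.g (nat_lit 3027) (.e (nat_lit 1400) (nat_lit 106) (.e (nat_lit 319534) (nat_lit 16) (.e (nat_lit 286756) (nat_lit 10) (.e (nat_lit 344154) (nat_lit 35) (.e (nat_lit 630792) (nat_lit 5) (.e (nat_lit 2936) (nat_lit 184) (.e (nat_lit 425984) (nat_lit 0) (.e (nat_lit 7489) (nat_lit 402) .nil)))))))) (.g (nat_lit 6) .nil .nil))) 
(.lf (nat_lit 55468) (.g (nat_lit 2201) (.e (nat_lit 1400) (nat_lit 106) (.e (nat_lit 319534) (nat_lit 16) (.e (nat_lit 286756) (nat_lit 10) (.e (nat_lit 344157) (nat_lit 36) (.e (nat_lit 639000) (nat_lit 9) (.e (nat_lit 188160) (nat_lit 32) .nil)))))) (.g (nat_lit 5) .nil .nil)))) (.nd (nat_lit 5) 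
(.lf (nat_lit 55452) (.g (nat_lit 2239) (.e (nat_lit 1400) (nat_lit 106) (.e (nat_lit 319534) (nat_lit 16) (.e (nat_lit 286756) (nat_lit 10) (.e (nat_lit 344157) (nat_lit 36) (.e (nat_lit 638986) (nat_lit 5) (.e (nat_lit 2828) (nat_lit 182) (.e (nat_lit 409603) (nat_lit 0) (.e (nat_lit 5245) (nat_lit 298) .nil)))))))) (.g (nat_lit 4) .nil .nil))) 
(.lf (nat_lit 55484) (.g (nat_lit 482) (.e (nat_lit 1400) (nat_lit 106) (.e (nat_lit 319534) (nat_lit 16) (.e (nat_lit 286761) (nat_lit 13) .nil))) .nil)))))) (.nd (nat_lit 2) (.nd (nat_lit 3) (.nd (nat_lit 4) (.nd (nat_lit 5) 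
(.lf (nat_lit 55426) (.g (nat_lit 1798) (.e (nat_lit 1400) (nat_lit 106) (.e (nat_lit 319534) (nat_lit 16) (.e (nat_lit 286756) (nat_lit 10) (.e (nat_lit 344097) (nat_lit 18) (.e (nat_lit 5055) (nat_lit 292) .nil))))) .nil)) 
(.lf (nat_lit 55458) (.g (nat_lit 2769) (.e (nat_lit 1400) (nat_lit 106) (.e (nat_lit 319534) (nat_lit 16) (.e (nat_lit 286756) (nat_lit 10) (.e (nat_lit 344157) (nat_lit 36) (.e (nat_lit 638987) (nat_lit 5) (.e (nat_lit 2936) (nat_lit 184) (.e (nat_lit 425987) (nat_lit 0) (.e (nat_lit 7485) (nat_lit 402) .nil)))))))) (.g (nat_lit 4) .nil .nil)))) (.nd (nat_lit 5) 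
(.lf (nat_lit 55442) (.g (nat_lit 1697) (.e (nat_lit 1400) (nat_lit 106) (.e (nat_lit 319534) (nat_lit 16) (.e (nat_lit 286756) (nat_lit 10) (.e (nat_lit 344156) (nat_lit 36) (.e (nat_lit 638985) (nat_lit 5) .nil))))) .nil)) 
(.lf (nat_lit 55474) (.g (nat_lit 2746) (.e (nat_lit 1400) (nat_lit 106) (.e (nat_lit 319534) (nat_lit 16) (.e (nat_lit 286756) (nat_lit 10) (.e (nat_lit 344160) (nat_lit 37) (.e (nat_lit 647195) (nat_lit 9) (.e (nat_lit 7936) (nat_lit 31) (.e (nat_lit 417796) (nat_lit 0) (.e (nat_lit 5258) (nat_lit 298) .nil)))))))) (.g (nat_lit 4) .nil .nil))))) (.nd (nat_lit 4) (.nd (nat_lit 5) 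
(.lf (nat_lit 55434) (.g (nat_lit 3000) (.e (nat_lit 1400) (nat_lit 106) (.e (nat_lit 319534) (nat_lit 16) (.e (nat_lit 286756) (nat_lit 10) (.e (nat_lit 344154) (nat_lit 35) (.e (nat_lit 630789) (nat_lit 5) (.e (nat_lit 2936) (nat_lit 184) (.e (nat_lit 425987) (nat_lit 0) (.e (nat_lit 7489) (nat_lit 402) .nil)))))))) (.g (nat_lit 6) .nil .nil))) 
(.lf (nat_lit 55466) (.g (nat_lit 2007) (.e (nat_lit 1400) (nat_lit 106) (.e (nat_lit 319534) (nat_lit 16) (.e (nat_lit 286756) (nat_lit 10) (.e (nat_lit 344157) (nat_lit 36) (.e (nat_lit 638999) (nat_lit 8) (.e (nat_lit 172033) (nat_lit 0) (.e (nat_lit 7490) (nat_lit 402) .nil))))))) (.g (nat_lit 4) .nil .nil)))) (.nd (nat_lit 5) 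
(.lf (nat_lit 55450) (.g (nat_lit 3625) (.e (nat_lit 1400) (nat_lit 106) (.e (nat_lit 319534) (nat_lit 16) (.e (nat_lit 286756) (nat_lit 10) (.e (nat_lit 344157) (nat_lit 36) (.e (nat_lit 638985) (nat_lit 5) (.e (nat_lit 2828) (nat_lit 182) (.e (nat_lit 417536) (nat_lit 0) (.e (nat_lit 5272) (nat_lit 298) .nil)))))))) (.g (nat_lit 6) .nil .nil))) 
(.lf (nat_lit 55482) (.g (nat_lit 929) (.e (nat_lit 1400) (nat_lit 106) (.e (nat_lit 319534) (nat_lit 16) (.e (nat_lit 286759) (nat_lit 12) .nil))) .nil))))) (.nd (nat_lit 3) (.nd (nat_lit 4) (.nd (nat_lit 5) 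
(.lf (nat_lit 55430) (.g (nat_lit 1294) (.e (nat_lit 1400) (nat_lit 106) (.e (nat_lit 319534) (nat_lit 16) (.e (nat_lit 286756) (nat_lit 10) (.e (nat_lit 344153) (nat_lit 35) (.e (nat_lit 630801) (nat_lit 8) .nil))))) .nil)) 
(.lf (nat_lit 55462) (.g (nat_lit 1941) (.e (nat_lit 1400) (nat_lit 106) (.e (nat_lit 319534) (nat_lit 16) (.e (nat_lit 286756) (nat_lit 10) (.e (nat_lit 344157) (nat_lit 36) (.e (nat_lit 638997) (nat_lit 8) (.e (nat_lit 172034) (nat_lit 0) (.e (nat_lit 7490) (nat_lit 402) .nil))))))) (.g (nat_lit 4) .nil .nil)))) (.nd (nat_lit 5) 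
(.lf (nat_lit 55446) (.g (nat_lit 1152) (.e (nat_lit 1400) (nat_lit 106) (.e (nat_lit 319534) (nat_lit 16) (.e (nat_lit 286756) (nat_lit 10) (.e (nat_lit 344157) (nat_lit 36) .nil)))) .nil)) 
(.lf (nat_lit 55478) (.g (nat_lit 2459) (.e (nat_lit 1400) (nat_lit 106) (.e (nat_lit 319534) (nat_lit 16) (.e (nat_lit 286756) (nat_lit 10) (.e (nat_lit 344160) (nat_lit 37) (.e (nat_lit 647199) (nat_lit 11) (.e (nat_lit 16387) (nat_lit 0) (.e (nat_lit 7486) (nat_lit 402) .nil))))))) (.g (nat_lit 5) .nil .nil))))) (.nd (nat_lit 4) (.nd (nat_lit 5) 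
(.lf (nat_lit 55438) (.g (nat_lit 3179) (.e (nat_lit 1400) (nat_lit 106) (.e (nat_lit 319534) (nat_lit 16) (.e (nat_lit 286756) (nat_lit 10) (.e (nat_lit 344154) (nat_lit 35) (.e (nat_lit 630793) (nat_lit 5) (.e (nat_lit 2936) (nat_lit 184) (.e (nat_lit 425984) (nat_lit 0) (.e (nat_lit 7489) (nat_lit 402) .nil)))))))) (.g (nat_lit 7) .nil .nil))) 
(.lf (nat_lit 55470) (.g (nat_lit 1112) (.e (nat_lit 1400) (nat_lit 106) (.e (nat_lit 319534) (nat_lit 16) (.e (nat_lit 286756) (nat_lit 10) (.e (nat_lit 344160) (nat_lit 37) .nil)))) .nil))) (.nd (nat_lit 5) 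
(.lf (nat_lit 55454) (.g (nat_lit 2361) (.e (nat_lit 1400) (nat_lit 106) (.e (nat_lit 319534) (nat_lit 16) (.e (nat_lit 286756) (nat_lit 10) (.e (nat_lit 344157) (nat_lit 36) (.e (nat_lit 638986) (nat_lit 5) (.e (nat_lit 2828) (nat_lit 182) (.e (nat_lit 417536) (nat_lit 0) (.e (nat_lit 5271) (nat_lit 298) .nil)))))))) (.g (nat_lit 6) .nil .nil))) 
(.lf (nat_lit 55486) (.g (nat_lit 3154) (.e (nat_lit 1400) (nat_lit 106) (.e (nat_lit 319534) (nat_lit 16) (.e (nat_lit 286761) (nat_lit 13) (.e (nat_lit 393234) (nat_lit 17) (.e (nat_lit 7065) (nat_lit 377) (.e (nat_lit 1115) (nat_lit 82) (.e (nat_lit 8433) (nat_lit 138) (.e (nat_lit 999) (nat_lit 81) .nil)))))))) (.g (nat_lit 4) .nil .nil)))))))) 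
(.nd (nat_lit 1) (.nd (nat_lit 2) (.nd (nat_lit 3) (.nd (nat_lit 4) (.nd (nat_lit 5) 
(.lf (nat_lit 55425) (.g (nat_lit 1412) (.e (nat_lit 1400) (nat_lit 106) (.e (nat_lit 319534) (nat_lit 16) (.e (nat_lit 286756) (nat_lit 10) (.e (nat_lit 344089) (nat_lit 18) (.e (nat_lit 5166) (nat_lit 292) .nil))))) .nil)) 
(.lf (nat_lit 55457) (.g (nat_lit 2673) (.e (nat_lit 1400) (nat_lit 106) (.e (nat_lit 319534) (nat_lit 16) (.e (nat_lit 286756) (nat_lit 10) (.e (nat_lit 344157) (nat_lit 36) (.e (nat_lit 638987) (nat_lit 5) (.e (nat_lit 2936) (nat_lit 184) (.e (nat_lit 425984) (nat_lit 0) (.e (nat_lit 7489) (nat_lit 402) .nil)))))))) (.g (nat_lit 4) .nil .nil)))) (.nd (nat_lit 5) 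
(.lf (nat_lit 55441) (.g (nat_lit 1222) (.e (nat_lit 1400) (nat_lit 106) (.e (nat_lit 319534) (nat_lit 16) (.e (nat_lit 286756) (nat_lit 10) (.e (nat_lit 344156) (nat_lit 36) .nil)))) .nil)) 
(.lf (nat_lit 55473) (.g (nat_lit 2712) (.e (nat_lit 1400) (nat_lit 106) (.e (nat_lit 319534) (nat_lit 16) (.e (nat_lit 286756) (nat_lit 10) (.e (nat_lit 344160) (nat_lit 37) (.e (nat_lit 647195) (nat_lit 9) (.e (nat_lit 7936) (nat_lit 31) (.e (nat_lit 417795) (nat_lit 0) (.e (nat_lit 5256) (nat_lit 298) .nil)))))))) (.g (nat_lit 5) .nil .nil))))) (.nd (nat_lit 4) (.nd (nat_lit 5) 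
(.lf (nat_lit 55433) (.g (nat_lit 2977) (.e (nat_lit 1400) (nat_lit 106) (.e (nat_lit 319534) (nat_lit 16) (.e (nat_lit 286756) (nat_lit 10) (.e (nat_lit 344154) (nat_lit 35) (.e (nat_lit 630789) (nat_lit 5) (.e (nat_lit 2936) (nat_lit 184) (.e (nat_lit 425984) (nat_lit 0) (.e (nat_lit 7489) (nat_lit 402) .nil)))))))) (.g (nat_lit 6) .nil .nil))) 
(.lf (nat_lit 55465) (.g (nat_lit 2066) (.e (nat_lit 1400) (nat_lit 106) (.e (nat_lit 319534) (nat_lit 16) (.e (nat_lit 286756) (nat_lit 10) (.e (nat_lit 344157) (nat_lit 36) (.e (nat_lit 638998) (nat_lit 8) (.e (nat_lit 172034) (nat_lit 0) (.e (nat_lit 7496) (nat_lit 402) .nil))))))) (.g (nat_lit 4) .nil .nil)))) (.nd (nat_lit 5) 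
(.lf (nat_lit 55449) (.g (nat_lit 2641) (.e (nat_lit 1400) (nat_lit 106) (.e (nat_lit 319534) (nat_lit 16) (.e (nat_lit 286756) (nat_lit 10) (.e (nat_lit 344157) (nat_lit 36) (.e (nat_lit 638985) (nat_lit 5) (.e (nat_lit 2828) (nat_lit 182) (.e (nat_lit 417536) (nat_lit 0) (.e (nat_lit 5271) (nat_lit 298) .nil)))))))) (.g (nat_lit 6) .nil .nil))) 
(.lf (nat_lit 55481) (.g (nat_lit 3347) (.e (nat_lit 1400) (nat_lit 106) (.e (nat_lit 319534) (nat_lit 16) (.e (nat_lit 286756) (nat_lit 10) (.e (nat_lit 344160) (nat_lit 37) (.e (nat_lit 647199) (nat_lit 11) (.e (nat_lit 16388) (nat_lit 0) (.e (nat_lit 7490) (nat_lit 402) .nil))))))) (.g (nat_lit 7) .nil .nil)))))) (.nd (nat_lit 3) (.nd (nat_lit 4) (.nd (nat_lit 5) 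
(.lf (nat_lit 55429) (.g (nat_lit 2732) (.e (nat_lit 1400) (nat_lit 106) (.e (nat_lit 319534) (nat_lit 16) (.e (nat_lit 286756) (nat_lit 10) (.e (nat_lit 344153) (nat_lit 35) (.e (nat_lit 630796) (nat_lit 5) (.e (nat_lit 2936) (nat_lit 184) (.e (nat_lit 425987) (nat_lit 0) (.e (nat_lit 7489) (nat_lit 402) .nil)))))))) (.g (nat_lit 4) .nil .nil))) 
(.lf (nat_lit 55461) (.g (nat_lit 2791) (.e (nat_lit 1400) (nat_lit 106) (.e (nat_lit 319534) (nat_lit 16) (.e (nat_lit 286756) (nat_lit 10) (.e (nat_lit 344157) (nat_lit 36) (.e (nat_lit 646912) (nat_lit 5) (.e (nat_lit 2939) (nat_lit 184) (.e (nat_lit 425984) (nat_lit 0) (.e (nat_lit 7489) (nat_lit 402) .nil)))))))) (.g (nat_lit 4) .nil .nil)))) (.nd (nat_lit 5) 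
(.lf (nat_lit 55445) (.g (nat_lit 3361) (.e (nat_lit 1400) (nat_lit 106) (.e (nat_lit 319534) (nat_lit 16) (.e (nat_lit 286756) (nat_lit 10) (.e (nat_lit 344156) (nat_lit 36) (.e (nat_lit 638998) (nat_lit 8) (.e (nat_lit 172034) (nat_lit 0) (.e (nat_lit 7496) (nat_lit 402) .nil))))))) (.g (nat_lit 6) .nil .nil))) 
(.lf (nat_lit 55477) (.g (nat_lit 2566) (.e (nat_lit 1400) (nat_lit 106) (.e (nat_lit 319534) (nat_lit 16) (.e (nat_lit 286756) (nat_lit 10) (.e (nat_lit 344160) (nat_lit 37) (.e (nat_lit 647195) (nat_lit 9) (.e (nat_lit 7936) (nat_lit 36) (.e (nat_lit 466688) (nat_lit 0) .nil))))))) (.g (nat_lit 5) .nil .nil))))) (.nd (nat_lit 4) (.nd (nat_lit 5) 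
(.lf (nat_lit 55437) (.g (nat_lit 3032) (.e (nat_lit 1400) (nat_lit 106) (.e (nat_lit 319534) (nat_lit 16) (.e (nat_lit 286756) (nat_lit 10) (.e (nat_lit 344154) (nat_lit 35) (.e (nat_lit 630792) (nat_lit 5) (.e (nat_lit 2936) (nat_lit 184) (.e (nat_lit 425987) (nat_lit 0) (.e (nat_lit 7489) (nat_lit 402) .nil)))))))) (.g (nat_lit 6) .nil .nil))) 
(.lf (nat_lit 55469) (.g (nat_lit 2111) (.e (nat_lit 1400) (nat_lit 106) (.e (nat_lit 319534) (nat_lit 16) (.e (nat_lit 286756) (nat_lit 10) (.e (nat_lit 344157) (nat_lit 36) (.e (nat_lit 646912) (nat_lit 9) (.e (nat_lit 188160) (nat_lit 32) .nil)))))) (.g (nat_lit 4) .nil .nil)))) (.nd (nat_lit 5) 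
(.lf (nat_lit 55453) (.g (nat_lit 3022) (.e (nat_lit 1400) (nat_lit 106) (.e (nat_lit 319534) (nat_lit 16) (.e (nat_lit 286756) (nat_lit 10) (.e (nat_lit 344157) (nat_lit 36) (.e (nat_lit 638986) (nat_lit 5) (.e (nat_lit 2828) (nat_lit 182) (.e (nat_lit 417536) (nat_lit 0) (.e (nat_lit 5258) (nat_lit 298) .nil)))))))) (.g (nat_lit 6) .nil .nil))) 
(.lf (nat_lit 55485) (.g (nat_lit 3021) (.e (nat_lit 1400) (nat_lit 106) (.e (nat_lit 319534) (nat_lit 16) (.e (nat_lit 286761) (nat_lit 13) (.e (nat_lit 393234) (nat_lit 17) (.e (nat_lit 7065) (nat_lit 377) (.e (nat_lit 1112) (nat_lit 82) (.e (nat_lit 8433) (nat_lit 138) (.e (nat_lit 999) (nat_lit 81) .nil)))))))) (.g (nat_lit 4) .nil .nil))))))) 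
(.nd (nat_lit 2) (.nd (nat_lit 3) (.nd (nat_lit 4) (.nd (nat_lit 5) 
(.lf (nat_lit 55427) (.g (nat_lit 2709) (.e (nat_lit 1400) (nat_lit 106) (.e (nat_lit 319534) (nat_lit 16) (.e (nat_lit 286756) (nat_lit 10) (.e (nat_lit 344153) (nat_lit 35) (.e (nat_lit 630796) (nat_lit 5) (.e (nat_lit 2936) (nat_lit 184) (.e (nat_lit 425984) (nat_lit 0) (.e (nat_lit 7489) (nat_lit 402) .nil)))))))) (.g (nat_lit 4) .nil .nil))) 
(.lf (nat_lit 55459) (.g (nat_lit 2696) (.e (nat_lit 1400) (nat_lit 106) (.e (nat_lit 319534) (nat_lit 16) (.e (nat_lit 286756) (nat_lit 10) (.e (nat_lit 344157) (nat_lit 36) (.e (nat_lit 638987) (nat_lit 5) (.e (nat_lit 2936) (nat_lit 184) (.e (nat_lit 425987) (nat_lit 0) (.e (nat_lit 7489) (nat_lit 402) .nil)))))))) (.g (nat_lit 4) .nil .nil)))) (.nd (nat_lit 5) 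
(.lf (nat_lit 55443) (.g (nat_lit 2539) (.e (nat_lit 1400) (nat_lit 106) (.e (nat_lit 319534) (nat_lit 16) (.e (nat_lit 286756) (nat_lit 10) (.e (nat_lit 344156) (nat_lit 36) (.e (nat_lit 638998) (nat_lit 8) (.e (nat_lit 172032) (nat_lit 0) (.e (nat_lit 7490) (nat_lit 402) .nil))))))) (.g (nat_lit 5) .nil .nil))) 
(.lf (nat_lit 55475) (.g (nat_lit 2761) (.e (nat_lit 1400) (nat_lit 106) (.e (nat_lit 319534) (nat_lit 16) (.e (nat_lit 286756) (nat_lit 10) (.e (nat_lit 344160) (nat_lit 37) (.e (nat_lit 647195) (nat_lit 9) (.e (nat_lit 417) (nat_lit 32) (.e (nat_lit 425984) (nat_lit 0) (.e (nat_lit 7489) (nat_lit 402) .nil)))))))) (.g (nat_lit 4) .nil .nil))))) (.nd (nat_lit 4) (.nd (nat_lit 5) 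
(.lf (nat_lit 55435) (.g (nat_lit 2696) (.e (nat_lit 1400) (nat_lit 106) (.e (nat_lit 319534) (nat_lit 16) (.e (nat_lit 286756) (nat_lit 10) (.e (nat_lit 344154) (nat_lit 35) (.e (nat_lit 630792) (nat_lit 5) (.e (nat_lit 2936) (nat_lit 184) (.e (nat_lit 425984) (nat_lit 0) (.e (nat_lit 7485) (nat_lit 402) .nil)))))))) (.g (nat_lit 4) .nil .nil))) 
(.lf (nat_lit 55467) (.g (nat_lit 2618) (.e (nat_lit 1400) (nat_lit 106) (.e (nat_lit 319534) (nat_lit 16) (.e (nat_lit 286756) (nat_lit 10) (.e (nat_lit 344157) (nat_lit 36) (.e (nat_lit 638999) (nat_lit 8) (.e (nat_lit 172034) (nat_lit 0) (.e (nat_lit 7496) (nat_lit 402) .nil))))))) (.g (nat_lit 7) .nil .nil)))) (.nd (nat_lit 5) 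
(.lf (nat_lit 55451) (.g (nat_lit 3543) (.e (nat_lit 1400) (nat_lit 106) (.e (nat_lit 319534) (nat_lit 16) (.e (nat_lit 286756) (nat_lit 10) (.e (nat_lit 344157) (nat_lit 36) (.e (nat_lit 638985) (nat_lit 5) (.e (nat_lit 2828) (nat_lit 182) (.e (nat_lit 417536) (nat_lit 0) (.e (nat_lit 5305) (nat_lit 298) .nil)))))))) (.g (nat_lit 6) .nil .nil))) 
(.lf (nat_lit 55483) (.g (nat_lit 944) (.e (nat_lit 1400) (nat_lit 106) (.e (nat_lit 319534) (nat_lit 16) (.e (nat_lit 286760) (nat_lit 13) .nil))) .nil))))) (.nd (nat_lit 3) (.nd (nat_lit 4) (.nd (nat_lit 5) 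
(.lf (nat_lit 55431) (.g (nat_lit 1103) (.e (nat_lit 1400) (nat_lit 106) (.e (nat_lit 319534) (nat_lit 16) (.e (nat_lit 286756) (nat_lit 10) (.e (nat_lit 344154) (nat_lit 35) .nil)))) .nil)) 
(.lf (nat_lit 55463) (.g (nat_lit 1427) (.e (nat_lit 1400) (nat_lit 106) (.e (nat_lit 319534) (nat_lit 16) (.e (nat_lit 286756) (nat_lit 10) (.e (nat_lit 344157) (nat_lit 36) (.e (nat_lit 638998) (nat_lit 8) .nil))))) .nil))) (.nd (nat_lit 5) 
(.lf (nat_lit 55447) (.g (nat_lit 2165) (.e (nat_lit 1400) (nat_lit 106) (.e (nat_lit 319534) (nat_lit 16) (.e (nat_lit 286756) (nat_lit 10) (.e (nat_lit 344157) (nat_lit 36) (.e (nat_lit 638982) (nat_lit 5) (.e (nat_lit 3031) (nat_lit 188) (.e (nat_lit 466688) (nat_lit 0) .nil))))))) (.g (nat_lit 5) .nil .nil))) 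
(.lf (nat_lit 55479) (.g (nat_lit 2135) (.e (nat_lit 1400) (nat_lit 106) (.e (nat_lit 319534) (nat_lit 16) (.e (nat_lit 286756) (nat_lit 10) (.e (nat_lit 344160) (nat_lit 37) (.e (nat_lit 647199) (nat_lit 11) (.e (nat_lit 16387) (nat_lit 0) (.e (nat_lit 7490) (nat_lit 402) .nil))))))) (.g (nat_lit 4) .nil .nil))))) (.nd (nat_lit 4) (.nd (nat_lit 5) 
(.lf (nat_lit 55439) (.g (nat_lit 2027) (.e (nat_lit 1400) (nat_lit 106) (.e (nat_lit 319534) (nat_lit 16) (.e (nat_lit 286756) (nat_lit 10) (.e (nat_lit 344154) (nat_lit 35) (.e (nat_lit 630802) (nat_lit 8) (.e (nat_lit 172034) (nat_lit 0) (.e (nat_lit 7496) (nat_lit 402) .nil))))))) (.g (nat_lit 4) .nil .nil))) 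
(.lf (nat_lit 55471) (.g (nat_lit 1489) (.e (nat_lit 1400) (nat_lit 106) (.e (nat_lit 319534) (nat_lit 16) (.e (nat_lit 286756) (nat_lit 10) (.e (nat_lit 344160) (nat_lit 37) (.e (nat_lit 647195) (nat_lit 9) .nil))))) .nil))) (.nd (nat_lit 5) 
(.lf (nat_lit 55455) (.g (nat_lit 3345) (.e (nat_lit 1400) (nat_lit 106) (.e (nat_lit 319534) (nat_lit 16) (.e (nat_lit 286756) (nat_lit 10) (.e (nat_lit 344157) (nat_lit 36) (.e (nat_lit 638986) (nat_lit 5) (.e (nat_lit 2828) (nat_lit 182) (.e (nat_lit 417536) (nat_lit 0) (.e (nat_lit 5272) (nat_lit 298) .nil)))))))) (.g (nat_lit 6) .nil .nil))) 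
(.lf (nat_lit 55487) (.g (nat_lit 2831) (.e (nat_lit 1400) (nat_lit 106) (.e (nat_lit 319534) (nat_lit 16) (.e (nat_lit 286761) (nat_lit 13) (.e (nat_lit 393265) (nat_lit 22) (.e (nat_lit 417792) (nat_lit 0) (.e (nat_lit 67) (nat_lit 0) (.e (nat_lit 5818) (nat_lit 320) (.e (nat_lit 999) (nat_lit 81) .nil)))))))) (.g (nat_lit 4) .nil .nil)))))))))

noncomputable def tv766 : DT := (.nd (nat_lit 0) (.nd (nat_lit 1) (.nd (nat_lit 2) (.nd (nat_lit 3) (.nd (nat_lit 4) (.nd (nat_lit 5) 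
(.lf (nat_lit 55488) (.g (nat_lit 1821) (.e (nat_lit 1400) (nat_lit 106) (.e (nat_lit 319534) (nat_lit 16) (.e (nat_lit 286761) (nat_lit 13) (.e (nat_lit 393282) (nat_lit 24) (.e (nat_lit 434276) (nat_lit 39) .nil))))) .nil)) 
(.lf (nat_lit 55520) (.g (nat_lit 2020) (.e (nat_lit 1401) (nat_lit 106) (.e (nat_lit 319530) (nat_lit 16) (.e (nat_lit 286761) (nat_lit 13) (.e (nat_lit 393283) (nat_lit 24) .nil)))) .nil))) (.nd (nat_lit 5) 
(.lf (nat_lit 55504) (.g (nat_lit 382) (.e (nat_lit 1401) (nat_lit 106) (.e (nat_lit 319529) (nat_lit 16) (.e (nat_lit 286761) (nat_lit 13) .nil))) .nil)) 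
(.lf (nat_lit 55536) (.g (nat_lit 2493) (.e (nat_lit 1401) (nat_lit 106) (.e (nat_lit 319531) (nat_lit 16) (.e (nat_lit 286733) (nat_lit 2) (.e (nat_lit 90134) (nat_lit 9) (.e (nat_lit 2982) (nat_lit 186) (.e (nat_lit 442424) (nat_lit 22) (.e (nat_lit 196630) (nat_lit 9) .nil))))))) (.g (nat_lit 4) .nil .nil))))) (.nd (nat_lit 4) (.nd (nat_lit 5) 
(.lf (nat_lit 55496) (.g (nat_lit 2774) (.e (nat_lit 1400) (nat_lit 106) (.e (nat_lit 319535) (nat_lit 17) (.e (nat_lit 294928) (nat_lit 2) (.e (nat_lit 90176) (nat_lit 15) (.e (nat_lit 188447) (nat_lit 22) (.e (nat_lit 196626) (nat_lit 9) .nil)))))) (.g (nat_lit 4) .nil .nil))) 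
(.lf (nat_lit 55528) (.g (nat_lit 2189) (.e (nat_lit 1401) (nat_lit 106) (.e (nat_lit 319531) (nat_lit 16) (.e (nat_lit 286727) (nat_lit 0) (.e (nat_lit 1799) (nat_lit 119) (.e (nat_lit 516177) (nat_lit 14) (.e (nat_lit 466977) (nat_lit 22) (.e (nat_lit 196627) (nat_lit 9) .nil))))))) (.g (nat_lit 5) .nil .nil)))) (.nd (nat_lit 5) 
(.lf (nat_lit 55512) (.g (nat_lit 1286) (.e (nat_lit 1401) (nat_lit 106) (.e (nat_lit 319530) (nat_lit 16) (.e (nat_lit 286733) (nat_lit 2) .nil))) .nil)) 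
(.lf (nat_lit 55544) (.g (nat_lit 2269) (.e (nat_lit 1401) (nat_lit 106) (.e (nat_lit 319531) (nat_lit 16) (.e (nat_lit 286733) (nat_lit 2) (.e (nat_lit 90134) (nat_lit 9) (.e (nat_lit 3025) (nat_lit 187) .nil))))) .nil))))) (.nd (nat_lit 3) (.nd (nat_lit 4) (.nd (nat_lit 5) 
(.lf (nat_lit 55492) (.g (nat_lit 2424) (.e (nat_lit 1400) (nat_lit 106) (.e (nat_lit 319534) (nat_lit 16) (.e (nat_lit 286761) (nat_lit 13) (.e (nat_lit 393289) (nat_lit 25) (.e (nat_lit 458776) (nat_lit 18) (.e (nat_lit 5818) (nat_lit 320) (.e (nat_lit 999) (nat_lit 81) .nil))))))) (.g (nat_lit 4) .nil .nil))) 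
(.lf (nat_lit 55524) (.g (nat_lit 1816) (.e (nat_lit 1401) (nat_lit 106) (.e (nat_lit 319531) (nat_lit 16) (.e (nat_lit 286727) (nat_lit 0) (.e (nat_lit 1799) (nat_lit 119) (.e (nat_lit 516163) (nat_lit 11) (.e (nat_lit 442424) (nat_lit 22) (.e (nat_lit 204544) (nat_lit 9) .nil))))))) (.g (nat_lit 4) .nil .nil)))) (.nd (nat_lit 5) 
(.lf (nat_lit 55508) (.g (nat_lit 938) (.e (nat_lit 1401) (nat_lit 106) (.e (nat_lit 319529) (nat_lit 16) (.e (nat_lit 286761) (nat_lit 13) (.e (nat_lit 393284) (nat_lit 24) .nil)))) .nil)) 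
(.lf (nat_lit 55540) (.g (nat_lit 2541) (.e (nat_lit 1401) (nat_lit 106) (.e (nat_lit 319531) (nat_lit 16) (.e (nat_lit 286733) (nat_lit 2) (.e (nat_lit 90134) (nat_lit 9) (.e (nat_lit 2992) (nat_lit 186) (.e (nat_lit 442424) (nat_lit 22) (.e (nat_lit 196630) (nat_lit 9) .nil))))))) (.g (nat_lit 4) .nil .nil))))) (.nd (nat_lit 4) (.nd (nat_lit 5) 
(.lf (nat_lit 55500) (.g (nat_lit 3425) (.e (nat_lit 1401) (nat_lit 106) (.e (nat_lit 319500) (nat_lit 10) (.e (nat_lit 618) (nat_lit 48) (.e (nat_lit 557105) (nat_lit 14) (.e (nat_lit 180252) (nat_lit 10) (.e (nat_lit 573489) (nat_lit 14) (.e (nat_lit 73755) (nat_lit 8) (.e (nat_lit 564992) (nat_lit 0) .nil)))))))) (.g (nat_lit 7) .nil .nil))) 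
(.lf (nat_lit 55532) (.g (nat_lit 2494) (.e (nat_lit 1401) (nat_lit 106) (.e (nat_lit 319531) (nat_lit 16) (.e (nat_lit 286733) (nat_lit 2) (.e (nat_lit 90128) (nat_lit 9) (.e (nat_lit 3044) (nat_lit 189) (.e (nat_lit 466975) (nat_lit 22) (.e (nat_lit 196630) (nat_lit 9) .nil))))))) (.g (nat_lit 4) .nil .nil)))) (.nd (nat_lit 5) 
(.lf (nat_lit 55516) (.g (nat_lit 2162) (.e (nat_lit 1401) (nat_lit 106) (.e (nat_lit 319530) (nat_lit 16) (.e (nat_lit 286761) (nat_lit 13) (.e (nat_lit 393234) (nat_lit 17) (.e (nat_lit 7065) (nat_lit 377) .nil))))) .nil)) 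
(.lf (nat_lit 55548) (.g (nat_lit 2524) (.e (nat_lit 1401) (nat_lit 106) (.e (nat_lit 319531) (nat_lit 16) (.e (nat_lit 286733) (nat_lit 2) (.e (nat_lit 90134) (nat_lit 9) (.e (nat_lit 3045) (nat_lit 189) (.e (nat_lit 466977) (nat_lit 22) (.e (nat_lit 196630) (nat_lit 9) .nil))))))) (.g (nat_lit 4) .nil .nil))))))) (.nd (nat_lit 2) (.nd (nat_lit 3) (.nd (nat_lit 4) (.nd (nat_lit 5) 
(.lf (nat_lit 55490) (.g (nat_lit 2180) (.e (nat_lit 1400) (nat_lit 106) (.e (nat_lit 319534) (nat_lit 16) (.e (nat_lit 286761) (nat_lit 13) (.e (nat_lit 393284) (nat_lit 24) (.e (nat_lit 434278) (nat_lit 39) .nil))))) .nil)) 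
(.lf (nat_lit 55522) (.g (nat_lit 941) (.e (nat_lit 1401) (nat_lit 106) (.e (nat_lit 319531) (nat_lit 16) (.e (nat_lit 286727) (nat_lit 0) (.e (nat_lit 1799) (nat_lit 119) .nil)))) .nil))) (.nd (nat_lit 5) 
(.lf (nat_lit 55506) (.g (nat_lit 1448) (.e (nat_lit 1401) (nat_lit 106) (.e (nat_lit 319529) (nat_lit 16) (.e (nat_lit 286761) (nat_lit 13) (.e (nat_lit 393283) (nat_lit 24) .nil)))) .nil)) 
(.lf (nat_lit 55538) (.g (nat_lit 2308) (.e (nat_lit 1401) (nat_lit 106) (.e (nat_lit 319531) (nat_lit 16) (.e (nat_lit 286733) (nat_lit 2) (.e (nat_lit 90134) (nat_lit 9) (.e (nat_lit 2992) (nat_lit 186) (.e (nat_lit 442422) (nat_lit 22) (.e (nat_lit 196630) (nat_lit 9) .nil))))))) (.g (nat_lit 4) .nil .nil))))) (.nd (nat_lit 4) (.nd (nat_lit 5) 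
(.lf (nat_lit 55498) (.g (nat_lit 1565) (.e (nat_lit 1400) (nat_lit 106) (.e (nat_lit 319536) (nat_lit 17) (.e (nat_lit 294928) (nat_lit 2) (.e (nat_lit 90176) (nat_lit 15) .nil)))) .nil)) 
(.lf (nat_lit 55530) (.g (nat_lit 2903) (.e (nat_lit 1401) (nat_lit 106) (.e (nat_lit 319531) (nat_lit 16) (.e (nat_lit 286732) (nat_lit 2) (.e (nat_lit 90176) (nat_lit 15) (.e (nat_lit 188447) (nat_lit 22) (.e (nat_lit 196630) (nat_lit 9) .nil)))))) (.g (nat_lit 4) .nil .nil)))) (.nd (nat_lit 5) 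
(.lf (nat_lit 55514) (.g (nat_lit 1259) (.e (nat_lit 1401) (nat_lit 106) (.e (nat_lit 319530) (nat_lit 16) (.e (nat_lit 286735) (nat_lit 3) .nil))) .nil)) 
(.lf (nat_lit 55546) (.g (nat_lit 2482) (.e (nat_lit 1401) (nat_lit 106) (.e (nat_lit 319531) (nat_lit 16) (.e (nat_lit 286733) (nat_lit 2) (.e (nat_lit 90134) (nat_lit 9) (.e (nat_lit 3025) (nat_lit 187) (.e (nat_lit 458496) (nat_lit 1) (.e (nat_lit 499969) (nat_lit 14) .nil))))))) (.g (nat_lit 4) .nil .nil)))))) (.nd (nat_lit 3) (.nd (nat_lit 4) (.nd (nat_lit 5) 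
(.lf (nat_lit 55494) (.g (nat_lit 2422) (.e (nat_lit 1400) (nat_lit 106) (.e (nat_lit 327424) (nat_lit 16) (.e (nat_lit 286733) (nat_lit 2) (.e (nat_lit 90178) (nat_lit 15) (.e (nat_lit 188448) (nat_lit 22) (.e (nat_lit 196626) (nat_lit 9) .nil)))))) (.g (nat_lit 5) .nil .nil))) 
(.lf (nat_lit 55526) (.g (nat_lit 2633) (.e (nat_lit 1401) (nat_lit 106) (.e (nat_lit 319531) (nat_lit 16) (.e (nat_lit 286727) (nat_lit 0) (.e (nat_lit 1799) (nat_lit 119) (.e (nat_lit 516176) (nat_lit 14) (.e (nat_lit 466976) (nat_lit 22) (.e (nat_lit 196630) (nat_lit 9) .nil))))))) (.g (nat_lit 5) .nil .nil)))) (.nd (nat_lit 5) 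
(.lf (nat_lit 55510) (.g (nat_lit 980) (.e (nat_lit 1401) (nat_lit 106) (.e (nat_lit 319529) (nat_lit 16) (.e (nat_lit 286761) (nat_lit 13) (.e (nat_lit 393289) (nat_lit 25) .nil)))) .nil)) 
(.lf (nat_lit 55542) (.g (nat_lit 2232) (.e (nat_lit 1401) (nat_lit 106) (.e (nat_lit 319531) (nat_lit 16) (.e (nat_lit 286733) (nat_lit 2) (.e (nat_lit 90134) (nat_lit 9) (.e (nat_lit 3002) (nat_lit 186) .nil))))) .nil)))) (.nd (nat_lit 4) (.nd (nat_lit 5) 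
(.lf (nat_lit 55502) (.g (nat_lit 2404) (.e (nat_lit 1401) (nat_lit 106) (.e (nat_lit 319505) (nat_lit 10) (.e (nat_lit 618) (nat_lit 48) (.e (nat_lit 557105) (nat_lit 14) (.e (nat_lit 180252) (nat_lit 10) .nil))))) .nil)) 
(.lf (nat_lit 55534) (.g (nat_lit 3556) (.e (nat_lit 1401) (nat_lit 106) (.e (nat_lit 319531) (nat_lit 16) (.e (nat_lit 286733) (nat_lit 2) (.e (nat_lit 90128) (nat_lit 9) (.e (nat_lit 3044) (nat_lit 189) (.e (nat_lit 466977) (nat_lit 22) (.e (nat_lit 196625) (nat_lit 9) .nil))))))) (.g (nat_lit 6) .nil .nil)))) (.nd (nat_lit 5) 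
(.lf (nat_lit 55518) (.g (nat_lit 1810) (.e (nat_lit 1401) (nat_lit 106) (.e (nat_lit 319530) (nat_lit 16) (.e (nat_lit 286761) (nat_lit 13) (.e (nat_lit 393270) (nat_lit 23) .nil)))) .nil)) 
(.lf (nat_lit 55550) (.g (nat_lit 2928) (.e (nat_lit 1401) (nat_lit 106) (.e (nat_lit 319531) (nat_lit 16) (.e (nat_lit 286733) (nat_lit 2) (.e (nat_lit 90168) (nat_lit 13) (.e (nat_lit 172097) (nat_lit 9) (.e (nat_lit 426125) (nat_lit 2) (.e (nat_lit 196630) (nat_lit 9) .nil))))))) (.g (nat_lit 5) .nil .nil)))))))) 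
(.nd (nat_lit 1) (.nd (nat_lit 2) (.nd (nat_lit 3) (.nd (nat_lit 4) (.nd (nat_lit 5) 
(.lf (nat_lit 55489) (.g (nat_lit 2515) (.e (nat_lit 1400) (nat_lit 106) (.e (nat_lit 319534) (nat_lit 16) (.e (nat_lit 286761) (nat_lit 13) (.e (nat_lit 393284) (nat_lit 24) (.e (nat_lit 434276) (nat_lit 39) (.e (nat_lit 663552) (nat_lit 0) .nil)))))) (.g (nat_lit 4) .nil .nil))) 
(.lf (nat_lit 55521) (.g (nat_lit 1579) (.e (nat_lit 1401) (nat_lit 106) (.e (nat_lit 319530) (nat_lit 16) (.e (nat_lit 286761) (nat_lit 13) (.e (nat_lit 393293) (nat_lit 26) .nil)))) .nil))) (.nd (nat_lit 5) 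
(.lf (nat_lit 55505) (.g (nat_lit 1696) (.e (nat_lit 1401) (nat_lit 106) (.e (nat_lit 319529) (nat_lit 16) (.e (nat_lit 286761) (nat_lit 13) (.e (nat_lit 393265) (nat_lit 22) (.e (nat_lit 417792) (nat_lit 0) .nil))))) .nil)) 
(.lf (nat_lit 55537) (.g (nat_lit 2274) (.e (nat_lit 1401) (nat_lit 106) (.e (nat_lit 319531) (nat_lit 16) (.e (nat_lit 286733) (nat_lit 2) (.e (nat_lit 90134) (nat_lit 9) (.e (nat_lit 2992) (nat_lit 186) .nil))))) .nil)))) (.nd (nat_lit 4) (.nd (nat_lit 5) 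
(.lf (nat_lit 55497) (.g (nat_lit 2642) (.e (nat_lit 1400) (nat_lit 106) (.e (nat_lit 319535) (nat_lit 17) (.e (nat_lit 294928) (nat_lit 2) (.e (nat_lit 90178) (nat_lit 15) (.e (nat_lit 188448) (nat_lit 22) (.e (nat_lit 196626) (nat_lit 9) .nil)))))) (.g (nat_lit 4) .nil .nil))) 
(.lf (nat_lit 55529) (.g (nat_lit 702) (.e (nat_lit 1401) (nat_lit 106) (.e (nat_lit 319531) (nat_lit 16) (.e (nat_lit 286732) (nat_lit 2) .nil))) .nil))) (.nd (nat_lit 5) 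
(.lf (nat_lit 55513) (.g (nat_lit 2241) (.e (nat_lit 1401) (nat_lit 106) (.e (nat_lit 319530) (nat_lit 16) (.e (nat_lit 286733) (nat_lit 2) (.e (nat_lit 90178) (nat_lit 15) .nil)))) .nil)) 
(.lf (nat_lit 55545) (.g (nat_lit 3266) (.e (nat_lit 1401) (nat_lit 106) (.e (nat_lit 319531) (nat_lit 16) (.e (nat_lit 286733) (nat_lit 2) (.e (nat_lit 90134) (nat_lit 9) (.e (nat_lit 3025) (nat_lit 187) (.e (nat_lit 450571) (nat_lit 1) (.e (nat_lit 507648) (nat_lit 14) .nil))))))) (.g (nat_lit 5) .nil .nil)))))) (.nd (nat_lit 3) (.nd (nat_lit 4) (.nd (nat_lit 5) 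
(.lf (nat_lit 55493) (.g (nat_lit 2040) (.e (nat_lit 1400) (nat_lit 106) (.e (nat_lit 327424) (nat_lit 16) (.e (nat_lit 286733) (nat_lit 2) (.e (nat_lit 90134) (nat_lit 9) (.e (nat_lit 3045) (nat_lit 189) (.e (nat_lit 466975) (nat_lit 22) (.e (nat_lit 196626) (nat_lit 9) .nil))))))) (.g (nat_lit 5) .nil .nil))) 
(.lf (nat_lit 55525) (.g (nat_lit 2593) (.e (nat_lit 1401) (nat_lit 106) (.e (nat_lit 319531) (nat_lit 16) (.e (nat_lit 286727) (nat_lit 0) (.e (nat_lit 1799) (nat_lit 119) (.e (nat_lit 516166) (nat_lit 12) (.e (nat_lit 458496) (nat_lit 1) (.e (nat_lit 499969) (nat_lit 14) .nil))))))) (.g (nat_lit 5) .nil .nil)))) (.nd (nat_lit 5) 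
(.lf (nat_lit 55509) (.g (nat_lit 2516) (.e (nat_lit 1401) (nat_lit 106) (.e (nat_lit 319529) (nat_lit 16) (.e (nat_lit 286761) (nat_lit 13) (.e (nat_lit 393284) (nat_lit 24) (.e (nat_lit 434276) (nat_lit 39) (.e (nat_lit 663554) (nat_lit 0) .nil)))))) (.g (nat_lit 6) .nil .nil))) 
(.lf (nat_lit 55541) (.g (nat_lit 2261) (.e (nat_lit 1401) (nat_lit 106) (.e (nat_lit 319531) (nat_lit 16) (.e (nat_lit 286733) (nat_lit 2) (.e (nat_lit 90134) (nat_lit 9) (.e (nat_lit 2993) (nat_lit 186) .nil))))) .nil)))) (.nd (nat_lit 4) (.nd (nat_lit 5) 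
(.lf (nat_lit 55501) (.g (nat_lit 3924) (.e (nat_lit 1401) (nat_lit 106) (.e (nat_lit 319504) (nat_lit 10) (.e (nat_lit 618) (nat_lit 48) (.e (nat_lit 557105) (nat_lit 14) (.e (nat_lit 180252) (nat_lit 10) (.e (nat_lit 573489) (nat_lit 14) (.e (nat_lit 73755) (nat_lit 8) (.e (nat_lit 564992) (nat_lit 0) .nil)))))))) (.g (nat_lit 7) .nil .nil))) 
(.lf (nat_lit 55533) (.g (nat_lit 2763) (.e (nat_lit 1401) (nat_lit 106) (.e (nat_lit 319531) (nat_lit 16) (.e (nat_lit 286733) (nat_lit 2) (.e (nat_lit 90128) (nat_lit 9) (.e (nat_lit 3044) (nat_lit 189) (.e (nat_lit 466976) (nat_lit 22) (.e (nat_lit 196630) (nat_lit 9) .nil))))))) (.g (nat_lit 4) .nil .nil)))) (.nd (nat_lit 5) 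
(.lf (nat_lit 55517) (.g (nat_lit 1835) (.e (nat_lit 1401) (nat_lit 106) (.e (nat_lit 319530) (nat_lit 16) (.e (nat_lit 286761) (nat_lit 13) (.e (nat_lit 393265) (nat_lit 22) .nil)))) .nil)) 
(.lf (nat_lit 55549) (.g (nat_lit 1992) (.e (nat_lit 1401) (nat_lit 106) (.e (nat_lit 319531) (nat_lit 16) (.e (nat_lit 286733) (nat_lit 2) (.e (nat_lit 90165) (nat_lit 12) (.e (nat_lit 164217) (nat_lit 178) .nil))))) .nil)))))) (.nd (nat_lit 2) (.nd (nat_lit 3) (.nd (nat_lit 4) (.nd (nat_lit 5) 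
(.lf (nat_lit 55491) (.g (nat_lit 1819) (.e (nat_lit 1400) (nat_lit 106) (.e (nat_lit 319534) (nat_lit 16) (.e (nat_lit 286761) (nat_lit 13) (.e (nat_lit 393289) (nat_lit 25) (.e (nat_lit 458774) (nat_lit 18) .nil))))) .nil)) 
(.lf (nat_lit 55523) (.g (nat_lit 4438) (.e (nat_lit 1401) (nat_lit 106) (.e (nat_lit 319531) (nat_lit 16) (.e (nat_lit 286727) (nat_lit 0) (.e (nat_lit 1799) (nat_lit 119) (.e (nat_lit 516163) (nat_lit 11) (.e (nat_lit 442424) (nat_lit 22) (.e (nat_lit 196630) (nat_lit 9) .nil))))))) (.g (nat_lit 7) .nil .nil)))) (.nd (nat_lit 5) 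
(.lf (nat_lit 55507) (.g (nat_lit 2126) (.e (nat_lit 1401) (nat_lit 106) (.e (nat_lit 319529) (nat_lit 16) (.e (nat_lit 286761) (nat_lit 13) (.e (nat_lit 393283) (nat_lit 24) (.e (nat_lit 434275) (nat_lit 39) (.e (nat_lit 663554) (nat_lit 0) .nil)))))) (.g (nat_lit 4) .nil .nil))) 
(.lf (nat_lit 55539) (.g (nat_lit 2744) (.e (nat_lit 1401) (nat_lit 106) (.e (nat_lit 319531) (nat_lit 16) (.e (nat_lit 286733) (nat_lit 2) (.e (nat_lit 90134) (nat_lit 9) (.e (nat_lit 2992) (nat_lit 186) (.e (nat_lit 442423) (nat_lit 22) (.e (nat_lit 196625) (nat_lit 9) .nil))))))) (.g (nat_lit 4) .nil .nil))))) (.nd (nat_lit 4) (.nd (nat_lit 5) 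
(.lf (nat_lit 55499) (.g (nat_lit 2482) (.e (nat_lit 1400) (nat_lit 106) (.e (nat_lit 319536) (nat_lit 17) (.e (nat_lit 294928) (nat_lit 2) (.e (nat_lit 90176) (nat_lit 15) (.e (nat_lit 188447) (nat_lit 22) (.e (nat_lit 196626) (nat_lit 9) .nil)))))) (.g (nat_lit 4) .nil .nil))) 
(.lf (nat_lit 55531) (.g (nat_lit 417) (.e (nat_lit 1401) (nat_lit 106) (.e (nat_lit 319531) (nat_lit 16) (.e (nat_lit 286733) (nat_lit 2) .nil))) .nil))) (.nd (nat_lit 5) 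
(.lf (nat_lit 55515) (.g (nat_lit 641) (.e (nat_lit 1401) (nat_lit 106) (.e (nat_lit 319530) (nat_lit 16) (.e (nat_lit 286761) (nat_lit 13) .nil))) .nil)) 
(.lf (nat_lit 55547) (.g (nat_lit 2315) (.e (nat_lit 1401) (nat_lit 106) (.e (nat_lit 319531) (nat_lit 16) (.e (nat_lit 286733) (nat_lit 2) (.e (nat_lit 90134) (nat_lit 9) (.e (nat_lit 3045) (nat_lit 189) .nil))))) .nil))))) (.nd (nat_lit 3) (.nd (nat_lit 4) (.nd (nat_lit 5) 
(.lf (nat_lit 55495) (.g (nat_lit 1464) (.e (nat_lit 1400) (nat_lit 106) (.e (nat_lit 327424) (nat_lit 16) (.e (nat_lit 286734) (nat_lit 3) (.e (nat_lit 98381) (nat_lit 31) (.e (nat_lit 466975) (nat_lit 22) (.e (nat_lit 196626) (nat_lit 9) .nil)))))) (.g (nat_lit 5) .nil .nil))) 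
(.lf (nat_lit 55527) (.g (nat_lit 2689) (.e (nat_lit 1401) (nat_lit 106) (.e (nat_lit 319531) (nat_lit 16) (.e (nat_lit 286727) (nat_lit 0) (.e (nat_lit 1799) (nat_lit 119) (.e (nat_lit 516176) (nat_lit 14) (.e (nat_lit 466977) (nat_lit 22) (.e (nat_lit 196625) (nat_lit 9) .nil))))))) (.g (nat_lit 5) .nil .nil)))) (.nd (nat_lit 5) 
(.lf (nat_lit 55511) (.g (nat_lit 1351) (.e (nat_lit 1401) (nat_lit 106) (.e (nat_lit 319529) (nat_lit 16) (.e (nat_lit 286761) (nat_lit 13) (.e (nat_lit 393301) (nat_lit 27) .nil)))) .nil)) 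
(.lf (nat_lit 55543) (.g (nat_lit 3019) (.e (nat_lit 1401) (nat_lit 106) (.e (nat_lit 319531) (nat_lit 16) (.e (nat_lit 286733) (nat_lit 2) (.e (nat_lit 90134) (nat_lit 9) (.e (nat_lit 3002) (nat_lit 186) (.e (nat_lit 442423) (nat_lit 22) (.e (nat_lit 196630) (nat_lit 9) .nil))))))) (.g (nat_lit 5) .nil .nil))))) (.nd (nat_lit 4) (.nd (nat_lit 5) 
(.lf (nat_lit 55503) (.g (nat_lit 4700) (.e (nat_lit 1401) (nat_lit 106) (.e (nat_lit 319505) (nat_lit 10) (.e (nat_lit 618) (nat_lit 48) (.e (nat_lit 557105) (nat_lit 14) (.e (nat_lit 180252) (nat_lit 10) (.e (nat_lit 573489) (nat_lit 14) (.e (nat_lit 73755) (nat_lit 8) (.e (nat_lit 564992) (nat_lit 0) .nil)))))))) (.g (nat_lit 7) .nil .nil))) 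
(.lf (nat_lit 55535) (.g (nat_lit 1366) (.e (nat_lit 1401) (nat_lit 106) (.e (nat_lit 319531) (nat_lit 16) (.e (nat_lit 286733) (nat_lit 2) (.e (nat_lit 90134) (nat_lit 9) .nil)))) .nil))) (.nd (nat_lit 5) 
(.lf (nat_lit 55519) (.g (nat_lit 1985) (.e (nat_lit 1401) (nat_lit 106) (.e (nat_lit 319530) (nat_lit 16) (.e (nat_lit 286761) (nat_lit 13) (.e (nat_lit 393282) (nat_lit 24) .nil)))) .nil)) 
(.lf (nat_lit 55551) (.g (nat_lit 1666) (.e (nat_lit 1401) (nat_lit 106) (.e (nat_lit 319531) (nat_lit 16) (.e (nat_lit 286733) (nat_lit 2) (.e (nat_lit 90169) (nat_lit 13) .nil)))) .nil))))))))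

noncomputable def tv767 : DT := (.nd (nat_lit 0) (.nd (nat_lit 1) (.nd (nat_lit 2) (.nd (nat_lit 3) (.nd (nat_lit 4) (.nd (nat_lit 5) 
(.lf (nat_lit 55552) (.g (nat_lit 3292) (.e (nat_lit 1401) (nat_lit 106) (.e (nat_lit 319531) (nat_lit 16) (.e (nat_lit 286733) (nat_lit 2) (.e (nat_lit 90169) (nat_lit 13) (.e (nat_lit 172094) (nat_lit 9) (.e (nat_lit 426125) (nat_lit 2) (.e (nat_lit 196617) (nat_lit 9) .nil))))))) (.g (nat_lit 5) .nil .nil))) 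
(.lf (nat_lit 55584) (.g (nat_lit 2925) (.e (nat_lit 1401) (nat_lit 106) (.e (nat_lit 319531) (nat_lit 16) (.e (nat_lit 286733) (nat_lit 2) (.e (nat_lit 90178) (nat_lit 15) (.e (nat_lit 188432) (nat_lit 20) (.e (nat_lit 3126) (nat_lit 193) (.e (nat_lit 499960) (nat_lit 14) .nil))))))) (.g (nat_lit 4) .nil .nil)))) (.nd (nat_lit 5) 
(.lf (nat_lit 55568) (.g (nat_lit 3143) (.e (nat_lit 1401) (nat_lit 106) (.e (nat_lit 319531) (nat_lit 16) (.e (nat_lit 286733) (nat_lit 2) (.e (nat_lit 90176) (nat_lit 15) (.e (nat_lit 188447) (nat_lit 22) (.e (nat_lit 196625) (nat_lit 9) .nil)))))) (.g (nat_lit 4) .nil .nil))) 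
(.lf (nat_lit 55600) (.g (nat_lit 2484) (.e (nat_lit 1401) (nat_lit 106) (.e (nat_lit 319531) (nat_lit 16) (.e (nat_lit 286733) (nat_lit 2) (.e (nat_lit 90178) (nat_lit 15) (.e (nat_lit 188432) (nat_lit 20) (.e (nat_lit 3133) (nat_lit 193) (.e (nat_lit 499962) (nat_lit 14) .nil))))))) (.g (nat_lit 4) .nil .nil))))) (.nd (nat_lit 4) (.nd (nat_lit 5) 
(.lf (nat_lit 55560) (.g (nat_lit 6079) (.e (nat_lit 1401) (nat_lit 106) (.e (nat_lit 319531) (nat_lit 16) (.e (nat_lit 286733) (nat_lit 2) (.e (nat_lit 90170) (nat_lit 13) (.e (nat_lit 172094) (nat_lit 9) (.e (nat_lit 426125) (nat_lit 2) (.e (nat_lit 196630) (nat_lit 9) .nil))))))) (.g (nat_lit 6) .nil .nil))) 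
(.lf (nat_lit 55592) (.g (nat_lit 2626) (.e (nat_lit 1401) (nat_lit 106) (.e (nat_lit 319531) (nat_lit 16) (.e (nat_lit 286733) (nat_lit 2) (.e (nat_lit 90178) (nat_lit 15) (.e (nat_lit 188432) (nat_lit 20) (.e (nat_lit 3128) (nat_lit 193) (.e (nat_lit 499962) (nat_lit 14) .nil))))))) (.g (nat_lit 4) .nil .nil)))) (.nd (nat_lit 5) 
(.lf (nat_lit 55576) (.g (nat_lit 1032) (.e (nat_lit 1401) (nat_lit 106) (.e (nat_lit 319531) (nat_lit 16) (.e (nat_lit 286733) (nat_lit 2) (.e (nat_lit 90178) (nat_lit 15) .nil)))) .nil)) 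
(.lf (nat_lit 55608) (.g (nat_lit 2350) (.e (nat_lit 1401) (nat_lit 106) (.e (nat_lit 319531) (nat_lit 16) (.e (nat_lit 286733) (nat_lit 2) (.e (nat_lit 90178) (nat_lit 15) (.e (nat_lit 188432) (nat_lit 20) (.e (nat_lit 3148) (nat_lit 193) (.e (nat_lit 499961) (nat_lit 14) .nil))))))) (.g (nat_lit 4) .nil .nil)))))) (.nd (nat_lit 3) (.nd (nat_lit 4) (.nd (nat_lit 5) 
(.lf (nat_lit 55556) (.g (nat_lit 2597) (.e (nat_lit 1401) (nat_lit 106) (.e (nat_lit 319531) (nat_lit 16) (.e (nat_lit 286733) (nat_lit 2) (.e (nat_lit 90169) (nat_lit 13) (.e (nat_lit 172103) (nat_lit 9) (.e (nat_lit 426009) (nat_lit 0) (.e (nat_lit 3135) (nat_lit 193) (.e (nat_lit 499960) (nat_lit 14) .nil)))))))) (.g (nat_lit 4) .nil .nil))) 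
(.lf (nat_lit 55588) (.g (nat_lit 2344) (.e (nat_lit 1401) (nat_lit 106) (.e (nat_lit 319531) (nat_lit 16) (.e (nat_lit 286733) (nat_lit 2) (.e (nat_lit 90178) (nat_lit 15) (.e (nat_lit 188432) (nat_lit 20) (.e (nat_lit 3127) (nat_lit 193) (.e (nat_lit 499961) (nat_lit 14) .nil))))))) (.g (nat_lit 4) .nil .nil)))) (.nd (nat_lit 5) 
(.lf (nat_lit 55572) (.g (nat_lit 1491) (.e (nat_lit 1401) (nat_lit 106) (.e (nat_lit 319531) (nat_lit 16) (.e (nat_lit 286733) (nat_lit 2) (.e (nat_lit 90177) (nat_lit 15) .nil)))) .nil)) 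
(.lf (nat_lit 55604) (.g (nat_lit 2936) (.e (nat_lit 1401) (nat_lit 106) (.e (nat_lit 319531) (nat_lit 16) (.e (nat_lit 286733) (nat_lit 2) (.e (nat_lit 90178) (nat_lit 15) (.e (nat_lit 188432) (nat_lit 20) (.e (nat_lit 3142) (nat_lit 193) (.e (nat_lit 499960) (nat_lit 14) .nil))))))) (.g (nat_lit 4) .nil .nil))))) (.nd (nat_lit 4) (.nd (nat_lit 5) 
(.lf (nat_lit 55564) (.g (nat_lit 1588) (.e (nat_lit 1401) (nat_lit 106) (.e (nat_lit 319531) (nat_lit 16) (.e (nat_lit 286733) (nat_lit 2) (.e (nat_lit 90173) (nat_lit 14) .nil)))) .nil)) 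
(.lf (nat_lit 55596) (.g (nat_lit 2809) (.e (nat_lit 1401) (nat_lit 106) (.e (nat_lit 319531) (nat_lit 16) (.e (nat_lit 286733) (nat_lit 2) (.e (nat_lit 90178) (nat_lit 15) (.e (nat_lit 188432) (nat_lit 20) (.e (nat_lit 3132) (nat_lit 193) (.e (nat_lit 499960) (nat_lit 14) .nil))))))) (.g (nat_lit 4) .nil .nil)))) (.nd (nat_lit 5) 
(.lf (nat_lit 55580) (.g (nat_lit 2629) (.e (nat_lit 1401) (nat_lit 106) (.e (nat_lit 319531) (nat_lit 16) (.e (nat_lit 286733) (nat_lit 2) (.e (nat_lit 90178) (nat_lit 15) (.e (nat_lit 188432) (nat_lit 20) (.e (nat_lit 3122) (nat_lit 193) (.e (nat_lit 499962) (nat_lit 14) .nil))))))) (.g (nat_lit 4) .nil .nil))) 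
(.lf (nat_lit 55612) (.g (nat_lit 2609) (.e (nat_lit 1401) (nat_lit 106) (.e (nat_lit 319531) (nat_lit 16) (.e (nat_lit 286733) (nat_lit 2) (.e (nat_lit 90178) (nat_lit 15) (.e (nat_lit 188440) (nat_lit 20) (.e (nat_lit 3124) (nat_lit 193) (.e (nat_lit 499960) (nat_lit 14) .nil))))))) (.g (nat_lit 4) .nil .nil))))))) (.nd (nat_lit 2) (.nd (nat_lit 3) (.nd (nat_lit 4) (.nd (nat_lit 5) 
(.lf (nat_lit 55554) (.g (nat_lit 2718) (.e (nat_lit 1401) (nat_lit 106) (.e (nat_lit 319531) (nat_lit 16) (.e (nat_lit 286733) (nat_lit 2) (.e (nat_lit 90169) (nat_lit 13) (.e (nat_lit 172097) (nat_lit 9) (.e (nat_lit 426125) (nat_lit 2) (.e (nat_lit 196630) (nat_lit 9) .nil))))))) (.g (nat_lit 4) .nil .nil))) 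
(.lf (nat_lit 55586) (.g (nat_lit 2611) (.e (nat_lit 1401) (nat_lit 106) (.e (nat_lit 319531) (nat_lit 16) (.e (nat_lit 286733) (nat_lit 2) (.e (nat_lit 90178) (nat_lit 15) (.e (nat_lit 188432) (nat_lit 20) (.e (nat_lit 3126) (nat_lit 193) (.e (nat_lit 499962) (nat_lit 14) .nil))))))) (.g (nat_lit 4) .nil .nil)))) (.nd (nat_lit 5) 
(.lf (nat_lit 55570) (.g (nat_lit 4357) (.e (nat_lit 1401) (nat_lit 106) (.e (nat_lit 319531) (nat_lit 16) (.e (nat_lit 286733) (nat_lit 2) (.e (nat_lit 90176) (nat_lit 15) (.e (nat_lit 188449) (nat_lit 22) (.e (nat_lit 196630) (nat_lit 9) .nil)))))) (.g (nat_lit 5) .nil .nil))) 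
(.lf (nat_lit 55602) (.g (nat_lit 2334) (.e (nat_lit 1401) (nat_lit 106) (.e (nat_lit 319531) (nat_lit 16) (.e (nat_lit 286733) (nat_lit 2) (.e (nat_lit 90178) (nat_lit 15) (.e (nat_lit 188432) (nat_lit 20) (.e (nat_lit 3140) (nat_lit 193) (.e (nat_lit 499961) (nat_lit 14) .nil))))))) (.g (nat_lit 4) .nil .nil))))) (.nd (nat_lit 4) (.nd (nat_lit 5) 
(.lf (nat_lit 55562) (.g (nat_lit 1629) (.e (nat_lit 1401) (nat_lit 106) (.e (nat_lit 319531) (nat_lit 16) (.e (nat_lit 286733) (nat_lit 2) (.e (nat_lit 90172) (nat_lit 14) .nil)))) .nil)) 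
(.lf (nat_lit 55594) (.g (nat_lit 2382) (.e (nat_lit 1401) (nat_lit 106) (.e (nat_lit 319531) (nat_lit 16) (.e (nat_lit 286733) (nat_lit 2) (.e (nat_lit 90178) (nat_lit 15) (.e (nat_lit 188432) (nat_lit 20) (.e (nat_lit 3130) (nat_lit 193) (.e (nat_lit 499961) (nat_lit 14) .nil))))))) (.g (nat_lit 4) .nil .nil)))) (.nd (nat_lit 5) 
(.lf (nat_lit 55578) (.g (nat_lit 2958) (.e (nat_lit 1401) (nat_lit 106) (.e (nat_lit 319531) (nat_lit 16) (.e (nat_lit 286733) (nat_lit 2) (.e (nat_lit 90178) (nat_lit 15) (.e (nat_lit 188432) (nat_lit 20) (.e (nat_lit 3122) (nat_lit 193) (.e (nat_lit 499960) (nat_lit 14) .nil))))))) (.g (nat_lit 4) .nil .nil))) 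
(.lf (nat_lit 55610) (.g (nat_lit 2638) (.e (nat_lit 1401) (nat_lit 106) (.e (nat_lit 319531) (nat_lit 16) (.e (nat_lit 286733) (nat_lit 2) (.e (nat_lit 90178) (nat_lit 15) (.e (nat_lit 188432) (nat_lit 20) (.e (nat_lit 3173) (nat_lit 193) (.e (nat_lit 499967) (nat_lit 14) .nil))))))) (.g (nat_lit 4) .nil .nil)))))) (.nd (nat_lit 3) (.nd (nat_lit 4) (.nd (nat_lit 5) 
(.lf (nat_lit 55558) (.g (nat_lit 3548) (.e (nat_lit 1401) (nat_lit 106) (.e (nat_lit 319531) (nat_lit 16) (.e (nat_lit 286733) (nat_lit 2) (.e (nat_lit 90170) (nat_lit 13) (.e (nat_lit 172085) (nat_lit 9) (.e (nat_lit 426125) (nat_lit 2) (.e (nat_lit 196630) (nat_lit 9) .nil))))))) (.g (nat_lit 4) .nil .nil))) 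
(.lf (nat_lit 55590) (.g (nat_lit 2923) (.e (nat_lit 1401) (nat_lit 106) (.e (nat_lit 319531) (nat_lit 16) (.e (nat_lit 286733) (nat_lit 2) (.e (nat_lit 90178) (nat_lit 15) (.e (nat_lit 188432) (nat_lit 20) (.e (nat_lit 3128) (nat_lit 193) (.e (nat_lit 499960) (nat_lit 14) .nil))))))) (.g (nat_lit 4) .nil .nil)))) (.nd (nat_lit 5) 
(.lf (nat_lit 55574) (.g (nat_lit 4486) (.e (nat_lit 1401) (nat_lit 106) (.e (nat_lit 319531) (nat_lit 16) (.e (nat_lit 286733) (nat_lit 2) (.e (nat_lit 90177) (nat_lit 15) (.e (nat_lit 188449) (nat_lit 22) (.e (nat_lit 196630) (nat_lit 9) .nil)))))) (.g (nat_lit 6) .nil .nil))) 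
(.lf (nat_lit 55606) (.g (nat_lit 2628) (.e (nat_lit 1401) (nat_lit 106) (.e (nat_lit 319531) (nat_lit 16) (.e (nat_lit 286733) (nat_lit 2) (.e (nat_lit 90178) (nat_lit 15) (.e (nat_lit 188432) (nat_lit 20) (.e (nat_lit 3142) (nat_lit 193) (.e (nat_lit 499962) (nat_lit 14) .nil))))))) (.g (nat_lit 4) .nil .nil))))) (.nd (nat_lit 4) (.nd (nat_lit 5) 
(.lf (nat_lit 55566) (.g (nat_lit 3193) (.e (nat_lit 1401) (nat_lit 106) (.e (nat_lit 319531) (nat_lit 16) (.e (nat_lit 286733) (nat_lit 2) (.e (nat_lit 90175) (nat_lit 15) (.e (nat_lit 188449) (nat_lit 22) (.e (nat_lit 196630) (nat_lit 9) .nil)))))) (.g (nat_lit 5) .nil .nil))) 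
(.lf (nat_lit 55598) (.g (nat_lit 2895) (.e (nat_lit 1401) (nat_lit 106) (.e (nat_lit 319531) (nat_lit 16) (.e (nat_lit 286733) (nat_lit 2) (.e (nat_lit 90178) (nat_lit 15) (.e (nat_lit 188432) (nat_lit 20) (.e (nat_lit 3133) (nat_lit 193) (.e (nat_lit 499960) (nat_lit 14) .nil))))))) (.g (nat_lit 4) .nil .nil)))) (.nd (nat_lit 5) 
(.lf (nat_lit 55582) (.g (nat_lit 2336) (.e (nat_lit 1401) (nat_lit 106) (.e (nat_lit 319531) (nat_lit 16) (.e (nat_lit 286733) (nat_lit 2) (.e (nat_lit 90178) (nat_lit 15) (.e (nat_lit 188432) (nat_lit 20) (.e (nat_lit 3123) (nat_lit 193) (.e (nat_lit 499961) (nat_lit 14) .nil))))))) (.g (nat_lit 4) .nil .nil))) 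
(.lf (nat_lit 55614) (.g (nat_lit 2680) (.e (nat_lit 1401) (nat_lit 106) (.e (nat_lit 319531) (nat_lit 16) (.e (nat_lit 286733) (nat_lit 2) (.e (nat_lit 90178) (nat_lit 15) (.e (nat_lit 188440) (nat_lit 20) (.e (nat_lit 3147) (nat_lit 193) (.e (nat_lit 499961) (nat_lit 14) .nil))))))) (.g (nat_lit 4) .nil .nil)))))))) 
(.nd (nat_lit 1) (.nd (nat_lit 2) (.nd (nat_lit 3) (.nd (nat_lit 4) (.nd (nat_lit 5) 
(.lf (nat_lit 55553) (.g (nat_lit 6718) (.e (nat_lit 1401) (nat_lit 106) (.e (nat_lit 319531) (nat_lit 16) (.e (nat_lit 286733) (nat_lit 2) (.e (nat_lit 90169) (nat_lit 13) (.e (nat_lit 172094) (nat_lit 9) (.e (nat_lit 426125) (nat_lit 2) (.e (nat_lit 196630) (nat_lit 9) .nil))))))) (.g (nat_lit 0) .nil .nil))) 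
(.lf (nat_lit 55585) (.g (nat_lit 2314) (.e (nat_lit 1401) (nat_lit 106) (.e (nat_lit 319531) (nat_lit 16) (.e (nat_lit 286733) (nat_lit 2) (.e (nat_lit 90178) (nat_lit 15) (.e (nat_lit 188432) (nat_lit 20) (.e (nat_lit 3126) (nat_lit 193) (.e (nat_lit 499961) (nat_lit 14) .nil))))))) (.g (nat_lit 4) .nil .nil)))) (.nd (nat_lit 5) 
(.lf (nat_lit 55569) (.g (nat_lit 5467) (.e (nat_lit 1401) (nat_lit 106) (.e (nat_lit 319531) (nat_lit 16) (.e (nat_lit 286733) (nat_lit 2) (.e (nat_lit 90176) (nat_lit 15) (.e (nat_lit 188447) (nat_lit 22) (.e (nat_lit 196630) (nat_lit 9) .nil)))))) (.g (nat_lit 6) .nil .nil))) 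
(.lf (nat_lit 55601) (.g (nat_lit 2943) (.e (nat_lit 1401) (nat_lit 106) (.e (nat_lit 319531) (nat_lit 16) (.e (nat_lit 286733) (nat_lit 2) (.e (nat_lit 90178) (nat_lit 15) (.e (nat_lit 188432) (nat_lit 20) (.e (nat_lit 3140) (nat_lit 193) (.e (nat_lit 499960) (nat_lit 14) .nil))))))) (.g (nat_lit 4) .nil .nil))))) (.nd (nat_lit 4) (.nd (nat_lit 5) 
(.lf (nat_lit 55561) (.g (nat_lit 3401) (.e (nat_lit 1401) (nat_lit 106) (.e (nat_lit 319531) (nat_lit 16) (.e (nat_lit 286733) (nat_lit 2) (.e (nat_lit 90170) (nat_lit 13) (.e (nat_lit 172097) (nat_lit 9) (.e (nat_lit 426125) (nat_lit 2) (.e (nat_lit 196630) (nat_lit 9) .nil))))))) (.g (nat_lit 4) .nil .nil))) 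
(.lf (nat_lit 55593) (.g (nat_lit 2987) (.e (nat_lit 1401) (nat_lit 106) (.e (nat_lit 319531) (nat_lit 16) (.e (nat_lit 286733) (nat_lit 2) (.e (nat_lit 90178) (nat_lit 15) (.e (nat_lit 188432) (nat_lit 20) (.e (nat_lit 3130) (nat_lit 193) (.e (nat_lit 499960) (nat_lit 14) .nil))))))) (.g (nat_lit 4) .nil .nil)))) (.nd (nat_lit 5) 
(.lf (nat_lit 55577) (.g (nat_lit 2255) (.e (nat_lit 1401) (nat_lit 106) (.e (nat_lit 319531) (nat_lit 16) (.e (nat_lit 286733) (nat_lit 2) (.e (nat_lit 90178) (nat_lit 15) (.e (nat_lit 188432) (nat_lit 20) .nil))))) .nil)) 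
(.lf (nat_lit 55609) (.g (nat_lit 2631) (.e (nat_lit 1401) (nat_lit 106) (.e (nat_lit 319531) (nat_lit 16) (.e (nat_lit 286733) (nat_lit 2) (.e (nat_lit 90178) (nat_lit 15) (.e (nat_lit 188432) (nat_lit 20) (.e (nat_lit 3148) (nat_lit 193) (.e (nat_lit 499962) (nat_lit 14) .nil))))))) (.g (nat_lit 4) .nil .nil)))))) (.nd (nat_lit 3) (.nd (nat_lit 4) (.nd (nat_lit 5) 
(.lf (nat_lit 55557) (.g (nat_lit 1625) (.e (nat_lit 1401) (nat_lit 106) (.e (nat_lit 319531) (nat_lit 16) (.e (nat_lit 286733) (nat_lit 2) (.e (nat_lit 90170) (nat_lit 13) .nil)))) .nil)) 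
(.lf (nat_lit 55589) (.g (nat_lit 2594) (.e (nat_lit 1401) (nat_lit 106) (.e (nat_lit 319531) (nat_lit 16) (.e (nat_lit 286733) (nat_lit 2) (.e (nat_lit 90178) (nat_lit 15) (.e (nat_lit 188432) (nat_lit 20) (.e (nat_lit 3127) (nat_lit 193) (.e (nat_lit 499962) (nat_lit 14) .nil))))))) (.g (nat_lit 4) .nil .nil)))) (.nd (nat_lit 5) 
(.lf (nat_lit 55573) (.g (nat_lit 3740) (.e (nat_lit 1401) (nat_lit 106) (.e (nat_lit 319531) (nat_lit 16) (.e (nat_lit 286733) (nat_lit 2) (.e (nat_lit 90177) (nat_lit 15) (.e (nat_lit 188447) (nat_lit 22) (.e (nat_lit 196630) (nat_lit 9) .nil)))))) (.g (nat_lit 6) .nil .nil))) 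
(.lf (nat_lit 55605) (.g (nat_lit 2328) (.e (nat_lit 1401) (nat_lit 106) (.e (nat_lit 319531) (nat_lit 16) (.e (nat_lit 286733) (nat_lit 2) (.e (nat_lit 90178) (nat_lit 15) (.e (nat_lit 188432) (nat_lit 20) (.e (nat_lit 3142) (nat_lit 193) (.e (nat_lit 499961) (nat_lit 14) .nil))))))) (.g (nat_lit 4) .nil .nil))))) (.nd (nat_lit 4) (.nd (nat_lit 5) 
(.lf (nat_lit 55565) (.g (nat_lit 1593) (.e (nat_lit 1401) (nat_lit 106) (.e (nat_lit 319531) (nat_lit 16) (.e (nat_lit 286733) (nat_lit 2) (.e (nat_lit 90174) (nat_lit 14) .nil)))) .nil)) 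
(.lf (nat_lit 55597) (.g (nat_lit 2399) (.e (nat_lit 1401) (nat_lit 106) (.e (nat_lit 319531) (nat_lit 16) (.e (nat_lit 286733) (nat_lit 2) (.e (nat_lit 90178) (nat_lit 15) (.e (nat_lit 188432) (nat_lit 20) (.e (nat_lit 3132) (nat_lit 193) (.e (nat_lit 499962) (nat_lit 14) .nil))))))) (.g (nat_lit 4) .nil .nil)))) (.nd (nat_lit 5) 
(.lf (nat_lit 55581) (.g (nat_lit 2937) (.e (nat_lit 1401) (nat_lit 106) (.e (nat_lit 319531) (nat_lit 16) (.e (nat_lit 286733) (nat_lit 2) (.e (nat_lit 90178) (nat_lit 15) (.e (nat_lit 188432) (nat_lit 20) (.e (nat_lit 3123) (nat_lit 193) (.e (nat_lit 499960) (nat_lit 14) .nil))))))) (.g (nat_lit 4) .nil .nil))) 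
(.lf (nat_lit 55613) (.g (nat_lit 3729) (.e (nat_lit 1401) (nat_lit 106) (.e (nat_lit 319531) (nat_lit 16) (.e (nat_lit 286733) (nat_lit 2) (.e (nat_lit 90178) (nat_lit 15) (.e (nat_lit 188440) (nat_lit 20) (.e (nat_lit 3147) (nat_lit 193) (.e (nat_lit 499960) (nat_lit 14) .nil))))))) (.g (nat_lit 5) .nil .nil))))))) (.nd (nat_lit 2) (.nd (nat_lit 3) (.nd (nat_lit 4) (.nd (nat_lit 5) 
(.lf (nat_lit 55555) (.g (nat_lit 2223) (.e (nat_lit 1401) (nat_lit 106) (.e (nat_lit 319531) (nat_lit 16) (.e (nat_lit 286733) (nat_lit 2) (.e (nat_lit 90169) (nat_lit 13) (.e (nat_lit 172103) (nat_lit 9) .nil))))) .nil)) 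
(.lf (nat_lit 55587) (.g (nat_lit 2954) (.e (nat_lit 1401) (nat_lit 106) (.e (nat_lit 319531) (nat_lit 16) (.e (nat_lit 286733) (nat_lit 2) (.e (nat_lit 90178) (nat_lit 15) (.e (nat_lit 188432) (nat_lit 20) (.e (nat_lit 3127) (nat_lit 193) (.e (nat_lit 499960) (nat_lit 14) .nil))))))) (.g (nat_lit 4) .nil .nil)))) (.nd (nat_lit 5) 
(.lf (nat_lit 55571) (.g (nat_lit 2908) (.e (nat_lit 1401) (nat_lit 106) (.e (nat_lit 319531) (nat_lit 16) (.e (nat_lit 286733) (nat_lit 2) (.e (nat_lit 90176) (nat_lit 15) (.e (nat_lit 188456) (nat_lit 25) (.e (nat_lit 245781) (nat_lit 9) .nil)))))) (.g (nat_lit 4) .nil .nil))) 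
(.lf (nat_lit 55603) (.g (nat_lit 2634) (.e (nat_lit 1401) (nat_lit 106) (.e (nat_lit 319531) (nat_lit 16) (.e (nat_lit 286733) (nat_lit 2) (.e (nat_lit 90178) (nat_lit 15) (.e (nat_lit 188432) (nat_lit 20) (.e (nat_lit 3140) (nat_lit 193) (.e (nat_lit 499962) (nat_lit 14) .nil))))))) (.g (nat_lit 4) .nil .nil))))) (.nd (nat_lit 4) (.nd (nat_lit 5) 
(.lf (nat_lit 55563) (.g (nat_lit 2831) (.e (nat_lit 1401) (nat_lit 106) (.e (nat_lit 319531) (nat_lit 16) (.e (nat_lit 286733) (nat_lit 2) (.e (nat_lit 90172) (nat_lit 14) (.e (nat_lit 188160) (nat_lit 45) (.e (nat_lit 1139) (nat_lit 84) (.e (nat_lit 32774) (nat_lit 5) .nil))))))) (.g (nat_lit 4) .nil .nil))) 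
(.lf (nat_lit 55595) (.g (nat_lit 2640) (.e (nat_lit 1401) (nat_lit 106) (.e (nat_lit 319531) (nat_lit 16) (.e (nat_lit 286733) (nat_lit 2) (.e (nat_lit 90178) (nat_lit 15) (.e (nat_lit 188432) (nat_lit 20) (.e (nat_lit 3130) (nat_lit 193) (.e (nat_lit 499962) (nat_lit 14) .nil))))))) (.g (nat_lit 4) .nil .nil)))) (.nd (nat_lit 5) 
(.lf (nat_lit 55579) (.g (nat_lit 2361) (.e (nat_lit 1401) (nat_lit 106) (.e (nat_lit 319531) (nat_lit 16) (.e (nat_lit 286733) (nat_lit 2) (.e (nat_lit 90178) (nat_lit 15) (.e (nat_lit 188432) (nat_lit 20) (.e (nat_lit 3122) (nat_lit 193) (.e (nat_lit 499961) (nat_lit 14) .nil))))))) (.g (nat_lit 4) .nil .nil))) 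
(.lf (nat_lit 55611) (.g (nat_lit 2164) (.e (nat_lit 1401) (nat_lit 106) (.e (nat_lit 319531) (nat_lit 16) (.e (nat_lit 286733) (nat_lit 2) (.e (nat_lit 90178) (nat_lit 15) (.e (nat_lit 188440) (nat_lit 20) .nil))))) .nil))))) (.nd (nat_lit 3) (.nd (nat_lit 4) (.nd (nat_lit 5) 
(.lf (nat_lit 55559) (.g (nat_lit 3212) (.e (nat_lit 1401) (nat_lit 106) (.e (nat_lit 319531) (nat_lit 16) (.e (nat_lit 286733) (nat_lit 2) (.e (nat_lit 90170) (nat_lit 13) (.e (nat_lit 172092) (nat_lit 9) (.e (nat_lit 426125) (nat_lit 2) (.e (nat_lit 196630) (nat_lit 9) .nil))))))) (.g (nat_lit 4) .nil .nil))) 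
(.lf (nat_lit 55591) (.g (nat_lit 2318) (.e (nat_lit 1401) (nat_lit 106) (.e (nat_lit 319531) (nat_lit 16) (.e (nat_lit 286733) (nat_lit 2) (.e (nat_lit 90178) (nat_lit 15) (.e (nat_lit 188432) (nat_lit 20) (.e (nat_lit 3128) (nat_lit 193) (.e (nat_lit 499961) (nat_lit 14) .nil))))))) (.g (nat_lit 4) .nil .nil)))) (.nd (nat_lit 5) 
(.lf (nat_lit 55575) (.g (nat_lit 3049) (.e (nat_lit 1401) (nat_lit 106) (.e (nat_lit 319531) (nat_lit 16) (.e (nat_lit 286733) (nat_lit 2) (.e (nat_lit 90177) (nat_lit 15) (.e (nat_lit 188458) (nat_lit 25) (.e (nat_lit 245781) (nat_lit 9) .nil)))))) (.g (nat_lit 6) .nil .nil))) 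
(.lf (nat_lit 55607) (.g (nat_lit 2955) (.e (nat_lit 1401) (nat_lit 106) (.e (nat_lit 319531) (nat_lit 16) (.e (nat_lit 286733) (nat_lit 2) (.e (nat_lit 90178) (nat_lit 15) (.e (nat_lit 188432) (nat_lit 20) (.e (nat_lit 3148) (nat_lit 193) (.e (nat_lit 499960) (nat_lit 14) .nil))))))) (.g (nat_lit 4) .nil .nil))))) (.nd (nat_lit 4) (.nd (nat_lit 5) 
(.lf (nat_lit 55567) (.g (nat_lit 1705) (.e (nat_lit 1401) (nat_lit 106) (.e (nat_lit 319531) (nat_lit 16) (.e (nat_lit 286733) (nat_lit 2) (.e (nat_lit 90176) (nat_lit 15) .nil)))) .nil)) 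
(.lf (nat_lit 55599) (.g (nat_lit 2257) (.e (nat_lit 1401) (nat_lit 106) (.e (nat_lit 319531) (nat_lit 16) (.e (nat_lit 286733) (nat_lit 2) (.e (nat_lit 90178) (nat_lit 15) (.e (nat_lit 188432) (nat_lit 20) (.e (nat_lit 3133) (nat_lit 193) (.e (nat_lit 499961) (nat_lit 14) .nil))))))) (.g (nat_lit 4) .nil .nil)))) (.nd (nat_lit 5) 
(.lf (nat_lit 55583) (.g (nat_lit 2597) (.e (nat_lit 1401) (nat_lit 106) (.e (nat_lit 319531) (nat_lit 16) (.e (nat_lit 286733) (nat_lit 2) (.e (nat_lit 90178) (nat_lit 15) (.e (nat_lit 188432) (nat_lit 20) (.e (nat_lit 3123) (nat_lit 193) (.e (nat_lit 499962) (nat_lit 14) .nil))))))) (.g (nat_lit 4) .nil .nil))) 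
(.lf (nat_lit 55615) (.g (nat_lit 2760) (.e (nat_lit 1401) (nat_lit 106) (.e (nat_lit 319531) (nat_lit 16) (.e (nat_lit 286733) (nat_lit 2) (.e (nat_lit 90178) (nat_lit 15) (.e (nat_lit 188440) (nat_lit 20) (.e (nat_lit 3147) (nat_lit 193) (.e (nat_lit 499962) (nat_lit 14) .nil))))))) (.g (nat_lit 4) .nil .nil)))))))))

noncomputable def tv768 : DT := (.nd (nat_lit 0) (.nd (nat_lit 1) (.nd (nat_lit 2) (.nd (nat_lit 3) (.nd (nat_lit 4) (.nd (nat_lit 5) 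
(.lf (nat_lit 55616) (.g (nat_lit 2665) (.e (nat_lit 1401) (nat_lit 106) (.e (nat_lit 319531) (nat_lit 16) (.e (nat_lit 286733) (nat_lit 2) (.e (nat_lit 90178) (nat_lit 15) (.e (nat_lit 188440) (nat_lit 20) (.e (nat_lit 3147) (nat_lit 193) (.e (nat_lit 499968) (nat_lit 14) .nil))))))) (.g (nat_lit 4) .nil .nil))) 
(.lf (nat_lit 55648) (.g (nat_lit 1918) (.e (nat_lit 1401) (nat_lit 106) (.e (nat_lit 319531) (nat_lit 16) (.e (nat_lit 286735) (nat_lit 3) (.e (nat_lit 98353) (nat_lit 25) (.e (nat_lit 417795) (nat_lit 0) .nil))))) .nil))) (.nd (nat_lit 5) 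
(.lf (nat_lit 55632) (.g (nat_lit 3903) (.e (nat_lit 1401) (nat_lit 106) (.e (nat_lit 319531) (nat_lit 16) (.e (nat_lit 286733) (nat_lit 2) (.e (nat_lit 90178) (nat_lit 15) (.e (nat_lit 188448) (nat_lit 22) (.e (nat_lit 196630) (nat_lit 9) .nil)))))) (.g (nat_lit 0) .nil .nil))) 
(.lf (nat_lit 55664) (.g (nat_lit 4222) (.e (nat_lit 1401) (nat_lit 106) (.e (nat_lit 319531) (nat_lit 16) (.e (nat_lit 286735) (nat_lit 3) (.e (nat_lit 98353) (nat_lit 25) (.e (nat_lit 417810) (nat_lit 6) (.e (nat_lit 286728) (nat_lit 0) (.e (nat_lit 1841) (nat_lit 123) (.e (nat_lit 548874) (nat_lit 5) .nil)))))))) (.g (nat_lit 7) .nil .nil))))) (.nd (nat_lit 4) (.nd (nat_lit 5) 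
(.lf (nat_lit 55624) (.g (nat_lit 2780) (.e (nat_lit 1401) (nat_lit 106) (.e (nat_lit 319531) (nat_lit 16) (.e (nat_lit 286733) (nat_lit 2) (.e (nat_lit 90178) (nat_lit 15) (.e (nat_lit 188441) (nat_lit 20) (.e (nat_lit 3143) (nat_lit 193) (.e (nat_lit 499960) (nat_lit 14) .nil))))))) (.g (nat_lit 4) .nil .nil))) 
(.lf (nat_lit 55656) (.g (nat_lit 4520) (.e (nat_lit 1401) (nat_lit 106) (.e (nat_lit 319531) (nat_lit 16) (.e (nat_lit 286735) (nat_lit 3) (.e (nat_lit 98353) (nat_lit 25) (.e (nat_lit 417809) (nat_lit 6) (.e (nat_lit 286728) (nat_lit 0) (.e (nat_lit 1841) (nat_lit 123) (.e (nat_lit 548874) (nat_lit 5) .nil)))))))) (.g (nat_lit 8) .nil .nil)))) (.nd (nat_lit 5) 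
(.lf (nat_lit 55640) (.g (nat_lit 249) (.e (nat_lit 1401) (nat_lit 106) (.e (nat_lit 319531) (nat_lit 16) (.e (nat_lit 286735) (nat_lit 3) .nil))) .nil)) 
(.lf (nat_lit 55672) (.g (nat_lit 1611) (.e (nat_lit 1401) (nat_lit 106) (.e (nat_lit 319531) (nat_lit 16) (.e (nat_lit 286735) (nat_lit 3) (.e (nat_lit 98355) (nat_lit 26) .nil)))) .nil))))) (.nd (nat_lit 3) (.nd (nat_lit 4) (.nd (nat_lit 5) 
(.lf (nat_lit 55620) (.g (nat_lit 2796) (.e (nat_lit 1401) (nat_lit 106) (.e (nat_lit 319531) (nat_lit 16) (.e (nat_lit 286733) (nat_lit 2) (.e (nat_lit 90178) (nat_lit 15) (.e (nat_lit 188441) (nat_lit 20) (.e (nat_lit 3124) (nat_lit 193) (.e (nat_lit 499961) (nat_lit 14) .nil))))))) (.g (nat_lit 4) .nil .nil))) 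
(.lf (nat_lit 55652) (.g (nat_lit 2108) (.e (nat_lit 1401) (nat_lit 106) (.e (nat_lit 319531) (nat_lit 16) (.e (nat_lit 286735) (nat_lit 3) (.e (nat_lit 98353) (nat_lit 25) (.e (nat_lit 417809) (nat_lit 6) (.e (nat_lit 286723) (nat_lit 0) (.e (nat_lit 1842) (nat_lit 123) (.e (nat_lit 548874) (nat_lit 5) .nil)))))))) (.g (nat_lit 4) .nil .nil)))) (.nd (nat_lit 5) 
(.lf (nat_lit 55636) (.g (nat_lit 2652) (.e (nat_lit 1401) (nat_lit 106) (.e (nat_lit 319531) (nat_lit 16) (.e (nat_lit 286733) (nat_lit 2) (.e (nat_lit 90178) (nat_lit 15) (.e (nat_lit 188458) (nat_lit 25) (.e (nat_lit 245781) (nat_lit 9) .nil)))))) (.g (nat_lit 4) .nil .nil))) 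
(.lf (nat_lit 55668) (.g (nat_lit 4510) (.e (nat_lit 1401) (nat_lit 106) (.e (nat_lit 319531) (nat_lit 16) (.e (nat_lit 286735) (nat_lit 3) (.e (nat_lit 98353) (nat_lit 25) (.e (nat_lit 417811) (nat_lit 6) (.e (nat_lit 286728) (nat_lit 0) (.e (nat_lit 1841) (nat_lit 123) (.e (nat_lit 548874) (nat_lit 5) .nil)))))))) (.g (nat_lit 8) .nil .nil))))) (.nd (nat_lit 4) (.nd (nat_lit 5) 
(.lf (nat_lit 55628) (.g (nat_lit 2632) (.e (nat_lit 1401) (nat_lit 106) (.e (nat_lit 319531) (nat_lit 16) (.e (nat_lit 286733) (nat_lit 2) (.e (nat_lit 90178) (nat_lit 15) (.e (nat_lit 188441) (nat_lit 20) (.e (nat_lit 3146) (nat_lit 193) (.e (nat_lit 499962) (nat_lit 14) .nil))))))) (.g (nat_lit 4) .nil .nil))) 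
(.lf (nat_lit 55660) (.g (nat_lit 4944) (.e (nat_lit 1401) (nat_lit 106) (.e (nat_lit 319531) (nat_lit 16) (.e (nat_lit 286735) (nat_lit 3) (.e (nat_lit 98353) (nat_lit 25) (.e (nat_lit 417810) (nat_lit 6) (.e (nat_lit 286724) (nat_lit 0) (.e (nat_lit 1842) (nat_lit 123) (.e (nat_lit 548874) (nat_lit 5) .nil)))))))) (.g (nat_lit 8) .nil .nil)))) (.nd (nat_lit 5) 
(.lf (nat_lit 55644) (.g (nat_lit 2174) (.e (nat_lit 1401) (nat_lit 106) (.e (nat_lit 319531) (nat_lit 16) (.e (nat_lit 286735) (nat_lit 3) (.e (nat_lit 98350) (nat_lit 24) (.e (nat_lit 409602) (nat_lit 0) (.e (nat_lit 5373) (nat_lit 299) (.e (nat_lit 8234) (nat_lit 20) (.e (nat_lit 573452) (nat_lit 9) .nil)))))))) (.g (nat_lit 4) .nil .nil))) 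
(.lf (nat_lit 55676) (.g (nat_lit 2405) (.e (nat_lit 1401) (nat_lit 106) (.e (nat_lit 319531) (nat_lit 16) (.e (nat_lit 286735) (nat_lit 3) (.e (nat_lit 98356) (nat_lit 26) (.e (nat_lit 426244) (nat_lit 9) (.e (nat_lit 426121) (nat_lit 2) (.e (nat_lit 196625) (nat_lit 9) .nil))))))) (.g (nat_lit 4) .nil .nil))))))) (.nd (nat_lit 2) (.nd (nat_lit 3) (.nd (nat_lit 4) (.nd (nat_lit 5) 
(.lf (nat_lit 55618) (.g (nat_lit 2560) (.e (nat_lit 1401) (nat_lit 106) (.e (nat_lit 319531) (nat_lit 16) (.e (nat_lit 286733) (nat_lit 2) (.e (nat_lit 90178) (nat_lit 15) (.e (nat_lit 188441) (nat_lit 20) .nil))))) .nil)) 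
(.lf (nat_lit 55650) (.g (nat_lit 2075) (.e (nat_lit 1401) (nat_lit 106) (.e (nat_lit 319531) (nat_lit 16) (.e (nat_lit 286735) (nat_lit 3) (.e (nat_lit 98353) (nat_lit 25) (.e (nat_lit 417795) (nat_lit 0) (.e (nat_lit 5393) (nat_lit 301) (.e (nat_lit 57473) (nat_lit 27) (.e (nat_lit 548874) (nat_lit 5) .nil)))))))) (.g (nat_lit 4) .nil .nil)))) (.nd (nat_lit 5) 
(.lf (nat_lit 55634) (.g (nat_lit 2800) (.e (nat_lit 1401) (nat_lit 106) (.e (nat_lit 319531) (nat_lit 16) (.e (nat_lit 286733) (nat_lit 2) (.e (nat_lit 90178) (nat_lit 15) (.e (nat_lit 188449) (nat_lit 22) (.e (nat_lit 204544) (nat_lit 9) .nil)))))) (.g (nat_lit 4) .nil .nil))) 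
(.lf (nat_lit 55666) (.g (nat_lit 2110) (.e (nat_lit 1401) (nat_lit 106) (.e (nat_lit 319531) (nat_lit 16) (.e (nat_lit 286735) (nat_lit 3) (.e (nat_lit 98353) (nat_lit 25) (.e (nat_lit 417811) (nat_lit 6) (.e (nat_lit 286724) (nat_lit 0) (.e (nat_lit 1841) (nat_lit 123) (.e (nat_lit 548874) (nat_lit 5) .nil)))))))) (.g (nat_lit 4) .nil .nil))))) (.nd (nat_lit 4) (.nd (nat_lit 5) 
(.lf (nat_lit 55626) (.g (nat_lit 2732) (.e (nat_lit 1401) (nat_lit 106) (.e (nat_lit 319531) (nat_lit 16) (.e (nat_lit 286733) (nat_lit 2) (.e (nat_lit 90178) (nat_lit 15) (.e (nat_lit 188441) (nat_lit 20) (.e (nat_lit 3143) (nat_lit 193) (.e (nat_lit 499962) (nat_lit 14) .nil))))))) (.g (nat_lit 4) .nil .nil))) 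
(.lf (nat_lit 55658) (.g (nat_lit 5031) (.e (nat_lit 1401) (nat_lit 106) (.e (nat_lit 319531) (nat_lit 16) (.e (nat_lit 286735) (nat_lit 3) (.e (nat_lit 98353) (nat_lit 25) (.e (nat_lit 417809) (nat_lit 6) (.e (nat_lit 286728) (nat_lit 0) (.e (nat_lit 1842) (nat_lit 123) (.e (nat_lit 548874) (nat_lit 5) .nil)))))))) (.g (nat_lit 8) .nil .nil)))) (.nd (nat_lit 5) 
(.lf (nat_lit 55642) (.g (nat_lit 1360) (.e (nat_lit 1401) (nat_lit 106) (.e (nat_lit 319531) (nat_lit 16) (.e (nat_lit 286735) (nat_lit 3) (.e (nat_lit 98323) (nat_lit 17) .nil)))) .nil)) 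
(.lf (nat_lit 55674) (.g (nat_lit 2380) (.e (nat_lit 1401) (nat_lit 106) (.e (nat_lit 319531) (nat_lit 16) (.e (nat_lit 286735) (nat_lit 3) (.e (nat_lit 98356) (nat_lit 26) (.e (nat_lit 426241) (nat_lit 9) .nil))))) .nil))))) (.nd (nat_lit 3) (.nd (nat_lit 4) (.nd (nat_lit 5) 
(.lf (nat_lit 55622) (.g (nat_lit 2852) (.e (nat_lit 1401) (nat_lit 106) (.e (nat_lit 319531) (nat_lit 16) (.e (nat_lit 286733) (nat_lit 2) (.e (nat_lit 90178) (nat_lit 15) (.e (nat_lit 188441) (nat_lit 20) (.e (nat_lit 3124) (nat_lit 193) (.e (nat_lit 499968) (nat_lit 14) .nil))))))) (.g (nat_lit 4) .nil .nil))) 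
(.lf (nat_lit 55654) (.g (nat_lit 2194) (.e (nat_lit 1401) (nat_lit 106) (.e (nat_lit 319531) (nat_lit 16) (.e (nat_lit 286735) (nat_lit 3) (.e (nat_lit 98353) (nat_lit 25) (.e (nat_lit 417809) (nat_lit 6) (.e (nat_lit 286726) (nat_lit 0) (.e (nat_lit 1842) (nat_lit 123) (.e (nat_lit 548873) (nat_lit 5) .nil)))))))) (.g (nat_lit 4) .nil .nil)))) (.nd (nat_lit 5) 
(.lf (nat_lit 55638) (.g (nat_lit 895) (.e (nat_lit 1401) (nat_lit 106) (.e (nat_lit 319531) (nat_lit 16) (.e (nat_lit 286734) (nat_lit 3) (.e (nat_lit 98370) (nat_lit 28) .nil)))) .nil)) 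
(.lf (nat_lit 55670) (.g (nat_lit 4927) (.e (nat_lit 1401) (nat_lit 106) (.e (nat_lit 319531) (nat_lit 16) (.e (nat_lit 286735) (nat_lit 3) (.e (nat_lit 98353) (nat_lit 25) (.e (nat_lit 417811) (nat_lit 6) (.e (nat_lit 286728) (nat_lit 0) (.e (nat_lit 1842) (nat_lit 123) (.e (nat_lit 548874) (nat_lit 5) .nil)))))))) (.g (nat_lit 8) .nil .nil))))) (.nd (nat_lit 4) (.nd (nat_lit 5) 
(.lf (nat_lit 55630) (.g (nat_lit 4568) (.e (nat_lit 1401) (nat_lit 106) (.e (nat_lit 319531) (nat_lit 16) (.e (nat_lit 286733) (nat_lit 2) (.e (nat_lit 90178) (nat_lit 15) (.e (nat_lit 188447) (nat_lit 22) (.e (nat_lit 196630) (nat_lit 9) .nil)))))) (.g (nat_lit 0) .nil .nil))) 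
(.lf (nat_lit 55662) (.g (nat_lit 2377) (.e (nat_lit 1401) (nat_lit 106) (.e (nat_lit 319531) (nat_lit 16) (.e (nat_lit 286735) (nat_lit 3) (.e (nat_lit 98353) (nat_lit 25) (.e (nat_lit 417810) (nat_lit 6) (.e (nat_lit 286726) (nat_lit 0) (.e (nat_lit 1842) (nat_lit 123) (.e (nat_lit 548873) (nat_lit 5) .nil)))))))) (.g (nat_lit 4) .nil .nil)))) (.nd (nat_lit 5) 
(.lf (nat_lit 55646) (.g (nat_lit 1304) (.e (nat_lit 1401) (nat_lit 106) (.e (nat_lit 319531) (nat_lit 16) (.e (nat_lit 286735) (nat_lit 3) (.e (nat_lit 98353) (nat_lit 25) .nil)))) .nil)) 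
(.lf (nat_lit 55678) (.g (nat_lit 993) (.e (nat_lit 1401) (nat_lit 106) (.e (nat_lit 319531) (nat_lit 16) (.e (nat_lit 286735) (nat_lit 3) (.e (nat_lit 98359) (nat_lit 26) .nil)))) .nil))))))) (.nd (nat_lit 1) (.nd (nat_lit 2) (.nd (nat_lit 3) (.nd (nat_lit 4) (.nd (nat_lit 5) 
(.lf (nat_lit 55617) (.g (nat_lit 2810) (.e (nat_lit 1401) (nat_lit 106) (.e (nat_lit 319531) (nat_lit 16) (.e (nat_lit 286733) (nat_lit 2) (.e (nat_lit 90178) (nat_lit 15) (.e (nat_lit 188440) (nat_lit 20) (.e (nat_lit 3147) (nat_lit 193) (.e (nat_lit 499969) (nat_lit 14) .nil))))))) (.g (nat_lit 4) .nil .nil))) 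
(.lf (nat_lit 55649) (.g (nat_lit 2324) (.e (nat_lit 1401) (nat_lit 106) (.e (nat_lit 319531) (nat_lit 16) (.e (nat_lit 286735) (nat_lit 3) (.e (nat_lit 98353) (nat_lit 25) (.e (nat_lit 417795) (nat_lit 0) (.e (nat_lit 5391) (nat_lit 301) (.e (nat_lit 57473) (nat_lit 27) (.e (nat_lit 548874) (nat_lit 5) .nil)))))))) (.g (nat_lit 4) .nil .nil)))) (.nd (nat_lit 5) 
(.lf (nat_lit 55633) (.g (nat_lit 4995) (.e (nat_lit 1401) (nat_lit 106) (.e (nat_lit 319531) (nat_lit 16) (.e (nat_lit 286733) (nat_lit 2) (.e (nat_lit 90178) (nat_lit 15) (.e (nat_lit 188449) (nat_lit 22) (.e (nat_lit 196630) (nat_lit 9) .nil)))))) (.g (nat_lit 0) .nil .nil))) 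
(.lf (nat_lit 55665) (.g (nat_lit 4208) (.e (nat_lit 1401) (nat_lit 106) (.e (nat_lit 319531) (nat_lit 16) (.e (nat_lit 286735) (nat_lit 3) (.e (nat_lit 98353) (nat_lit 25) (.e (nat_lit 417810) (nat_lit 6) (.e (nat_lit 286728) (nat_lit 0) (.e (nat_lit 1842) (nat_lit 123) (.e (nat_lit 548873) (nat_lit 5) .nil)))))))) (.g (nat_lit 7) .nil .nil))))) (.nd (nat_lit 4) (.nd (nat_lit 5) 
(.lf (nat_lit 55625) (.g (nat_lit 2589) (.e (nat_lit 1401) (nat_lit 106) (.e (nat_lit 319531) (nat_lit 16) (.e (nat_lit 286733) (nat_lit 2) (.e (nat_lit 90178) (nat_lit 15) (.e (nat_lit 188441) (nat_lit 20) (.e (nat_lit 3143) (nat_lit 193) (.e (nat_lit 499961) (nat_lit 14) .nil))))))) (.g (nat_lit 4) .nil .nil))) 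
(.lf (nat_lit 55657) (.g (nat_lit 4548) (.e (nat_lit 1401) (nat_lit 106) (.e (nat_lit 319531) (nat_lit 16) (.e (nat_lit 286735) (nat_lit 3) (.e (nat_lit 98353) (nat_lit 25) (.e (nat_lit 417809) (nat_lit 6) (.e (nat_lit 286728) (nat_lit 0) (.e (nat_lit 1842) (nat_lit 123) (.e (nat_lit 548873) (nat_lit 5) .nil)))))))) (.g (nat_lit 8) .nil .nil)))) (.nd (nat_lit 5) 
(.lf (nat_lit 55641) (.g (nat_lit 1270) (.e (nat_lit 1401) (nat_lit 106) (.e (nat_lit 319531) (nat_lit 16) (.e (nat_lit 286735) (nat_lit 3) (.e (nat_lit 98320) (nat_lit 17) .nil)))) .nil)) 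
(.lf (nat_lit 55673) (.g (nat_lit 1272) (.e (nat_lit 1401) (nat_lit 106) (.e (nat_lit 319531) (nat_lit 16) (.e (nat_lit 286735) (nat_lit 3) (.e (nat_lit 98356) (nat_lit 26) .nil)))) .nil))))) (.nd (nat_lit 3) (.nd (nat_lit 4) (.nd (nat_lit 5) 
(.lf (nat_lit 55621) (.g (nat_lit 2984) (.e (nat_lit 1401) (nat_lit 106) (.e (nat_lit 319531) (nat_lit 16) (.e (nat_lit 286733) (nat_lit 2) (.e (nat_lit 90178) (nat_lit 15) (.e (nat_lit 188441) (nat_lit 20) (.e (nat_lit 3124) (nat_lit 193) (.e (nat_lit 499962) (nat_lit 14) .nil))))))) (.g (nat_lit 4) .nil .nil))) 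
(.lf (nat_lit 55653) (.g (nat_lit 4016) (.e (nat_lit 1401) (nat_lit 106) (.e (nat_lit 319531) (nat_lit 16) (.e (nat_lit 286735) (nat_lit 3) (.e (nat_lit 98353) (nat_lit 25) (.e (nat_lit 417809) (nat_lit 6) (.e (nat_lit 286724) (nat_lit 0) (.e (nat_lit 1842) (nat_lit 123) (.e (nat_lit 548873) (nat_lit 5) .nil)))))))) (.g (nat_lit 8) .nil .nil)))) (.nd (nat_lit 5) 
(.lf (nat_lit 55637) (.g (nat_lit 1548) (.e (nat_lit 1401) (nat_lit 106) (.e (nat_lit 319531) (nat_lit 16) (.e (nat_lit 286733) (nat_lit 2) (.e (nat_lit 90186) (nat_lit 17) .nil)))) .nil)) 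
(.lf (nat_lit 55669) (.g (nat_lit 4444) (.e (nat_lit 1401) (nat_lit 106) (.e (nat_lit 319531) (nat_lit 16) (.e (nat_lit 286735) (nat_lit 3) (.e (nat_lit 98353) (nat_lit 25) (.e (nat_lit 417811) (nat_lit 6) (.e (nat_lit 286728) (nat_lit 0) (.e (nat_lit 1842) (nat_lit 123) (.e (nat_lit 548873) (nat_lit 5) .nil)))))))) (.g (nat_lit 8) .nil .nil))))) (.nd (nat_lit 4) (.nd (nat_lit 5) 
(.lf (nat_lit 55629) (.g (nat_lit 3087) (.e (nat_lit 1401) (nat_lit 106) (.e (nat_lit 319531) (nat_lit 16) (.e (nat_lit 286733) (nat_lit 2) (.e (nat_lit 90178) (nat_lit 15) (.e (nat_lit 188441) (nat_lit 20) (.e (nat_lit 3147) (nat_lit 193) (.e (nat_lit 499960) (nat_lit 14) .nil))))))) (.g (nat_lit 4) .nil .nil))) 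
(.lf (nat_lit 55661) (.g (nat_lit 2062) (.e (nat_lit 1401) (nat_lit 106) (.e (nat_lit 319531) (nat_lit 16) (.e (nat_lit 286735) (nat_lit 3) (.e (nat_lit 98353) (nat_lit 25) (.e (nat_lit 417810) (nat_lit 6) (.e (nat_lit 286725) (nat_lit 0) (.e (nat_lit 1842) (nat_lit 123) (.e (nat_lit 548874) (nat_lit 5) .nil)))))))) (.g (nat_lit 4) .nil .nil)))) (.nd (nat_lit 5) 
(.lf (nat_lit 55645) (.g (nat_lit 1700) (.e (nat_lit 1401) (nat_lit 106) (.e (nat_lit 319531) (nat_lit 16) (.e (nat_lit 286735) (nat_lit 3) (.e (nat_lit 98350) (nat_lit 24) (.e (nat_lit 409602) (nat_lit 0) (.e (nat_lit 5389) (nat_lit 301) (.e (nat_lit 57473) (nat_lit 27) (.e (nat_lit 548874) (nat_lit 5) .nil)))))))) (.g (nat_lit 4) .nil .nil))) 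
(.lf (nat_lit 55677) (.g (nat_lit 2786) (.e (nat_lit 1401) (nat_lit 106) (.e (nat_lit 319531) (nat_lit 16) (.e (nat_lit 286735) (nat_lit 3) (.e (nat_lit 98356) (nat_lit 26) (.e (nat_lit 426270) (nat_lit 9) .nil))))) .nil)))))) (.nd (nat_lit 2) (.nd (nat_lit 3) (.nd (nat_lit 4) (.nd (nat_lit 5) 
(.lf (nat_lit 55619) (.g (nat_lit 3333) (.e (nat_lit 1401) (nat_lit 106) (.e (nat_lit 319531) (nat_lit 16) (.e (nat_lit 286733) (nat_lit 2) (.e (nat_lit 90178) (nat_lit 15) (.e (nat_lit 188441) (nat_lit 20) (.e (nat_lit 3124) (nat_lit 193) (.e (nat_lit 499960) (nat_lit 14) .nil))))))) (.g (nat_lit 5) .nil .nil))) 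
(.lf (nat_lit 55651) (.g (nat_lit 1864) (.e (nat_lit 1401) (nat_lit 106) (.e (nat_lit 319531) (nat_lit 16) (.e (nat_lit 286735) (nat_lit 3) (.e (nat_lit 98353) (nat_lit 25) (.e (nat_lit 417809) (nat_lit 6) .nil))))) .nil))) (.nd (nat_lit 5) 
(.lf (nat_lit 55635) (.g (nat_lit 3416) (.e (nat_lit 1401) (nat_lit 106) (.e (nat_lit 319531) (nat_lit 16) (.e (nat_lit 286733) (nat_lit 2) (.e (nat_lit 90178) (nat_lit 15) (.e (nat_lit 188456) (nat_lit 25) (.e (nat_lit 245781) (nat_lit 9) .nil)))))) (.g (nat_lit 6) .nil .nil))) 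
(.lf (nat_lit 55667) (.g (nat_lit 4500) (.e (nat_lit 1401) (nat_lit 106) (.e (nat_lit 319531) (nat_lit 16) (.e (nat_lit 286735) (nat_lit 3) (.e (nat_lit 98353) (nat_lit 25) (.e (nat_lit 417811) (nat_lit 6) (.e (nat_lit 286724) (nat_lit 0) (.e (nat_lit 1842) (nat_lit 123) (.e (nat_lit 548874) (nat_lit 5) .nil)))))))) (.g (nat_lit 8) .nil .nil))))) (.nd (nat_lit 4) (.nd (nat_lit 5) 
(.lf (nat_lit 55627) (.g (nat_lit 2620) (.e (nat_lit 1401) (nat_lit 106) (.e (nat_lit 319531) (nat_lit 16) (.e (nat_lit 286733) (nat_lit 2) (.e (nat_lit 90178) (nat_lit 15) (.e (nat_lit 188441) (nat_lit 20) (.e (nat_lit 3143) (nat_lit 193) (.e (nat_lit 499968) (nat_lit 14) .nil))))))) (.g (nat_lit 4) .nil .nil))) 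
(.lf (nat_lit 55659) (.g (nat_lit 2544) (.e (nat_lit 1401) (nat_lit 106) (.e (nat_lit 319531) (nat_lit 16) (.e (nat_lit 286735) (nat_lit 3) (.e (nat_lit 98353) (nat_lit 25) (.e (nat_lit 417810) (nat_lit 6) (.e (nat_lit 286724) (nat_lit 0) (.e (nat_lit 1841) (nat_lit 123) (.e (nat_lit 548874) (nat_lit 5) .nil)))))))) (.g (nat_lit 4) .nil .nil)))) (.nd (nat_lit 5) 
(.lf (nat_lit 55643) (.g (nat_lit 1112) (.e (nat_lit 1401) (nat_lit 106) (.e (nat_lit 319531) (nat_lit 16) (.e (nat_lit 286735) (nat_lit 3) (.e (nat_lit 98350) (nat_lit 24) .nil)))) .nil)) 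
(.lf (nat_lit 55675) (.g (nat_lit 2385) (.e (nat_lit 1401) (nat_lit 106) (.e (nat_lit 319531) (nat_lit 16) (.e (nat_lit 286735) (nat_lit 3) (.e (nat_lit 98356) (nat_lit 26) (.e (nat_lit 426244) (nat_lit 9) .nil))))) .nil))))) (.nd (nat_lit 3) (.nd (nat_lit 4) (.nd (nat_lit 5) 
(.lf (nat_lit 55623) (.g (nat_lit 2577) (.e (nat_lit 1401) (nat_lit 106) (.e (nat_lit 319531) (nat_lit 16) (.e (nat_lit 286733) (nat_lit 2) (.e (nat_lit 90178) (nat_lit 15) (.e (nat_lit 188441) (nat_lit 20) (.e (nat_lit 3134) (nat_lit 193) (.e (nat_lit 499968) (nat_lit 14) .nil))))))) (.g (nat_lit 4) .nil .nil))) 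
(.lf (nat_lit 55655) (.g (nat_lit 2681) (.e (nat_lit 1401) (nat_lit 106) (.e (nat_lit 319531) (nat_lit 16) (.e (nat_lit 286735) (nat_lit 3) (.e (nat_lit 98353) (nat_lit 25) (.e (nat_lit 417809) (nat_lit 6) (.e (nat_lit 286726) (nat_lit 0) (.e (nat_lit 1842) (nat_lit 123) (.e (nat_lit 548874) (nat_lit 5) .nil)))))))) (.g (nat_lit 5) .nil .nil)))) (.nd (nat_lit 5) 
(.lf (nat_lit 55639) (.g (nat_lit 2384) (.e (nat_lit 1401) (nat_lit 106) (.e (nat_lit 319531) (nat_lit 16) (.e (nat_lit 286734) (nat_lit 3) (.e (nat_lit 98370) (nat_lit 28) (.e (nat_lit 442424) (nat_lit 22) (.e (nat_lit 196630) (nat_lit 9) .nil)))))) (.g (nat_lit 4) .nil .nil))) 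
(.lf (nat_lit 55671) (.g (nat_lit 2157) (.e (nat_lit 1401) (nat_lit 106) (.e (nat_lit 319531) (nat_lit 16) (.e (nat_lit 286735) (nat_lit 3) (.e (nat_lit 98353) (nat_lit 25) (.e (nat_lit 417813) (nat_lit 9) (.e (nat_lit 311312) (nat_lit 2) (.e (nat_lit 196630) (nat_lit 9) .nil))))))) (.g (nat_lit 4) .nil .nil))))) (.nd (nat_lit 4) (.nd (nat_lit 5) 
(.lf (nat_lit 55631) (.g (nat_lit 2778) (.e (nat_lit 1401) (nat_lit 106) (.e (nat_lit 319531) (nat_lit 16) (.e (nat_lit 286733) (nat_lit 2) (.e (nat_lit 90178) (nat_lit 15) (.e (nat_lit 188448) (nat_lit 22) (.e (nat_lit 196626) (nat_lit 9) .nil)))))) (.g (nat_lit 4) .nil .nil))) 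
(.lf (nat_lit 55663) (.g (nat_lit 2864) (.e (nat_lit 1401) (nat_lit 106) (.e (nat_lit 319531) (nat_lit 16) (.e (nat_lit 286735) (nat_lit 3) (.e (nat_lit 98353) (nat_lit 25) (.e (nat_lit 417810) (nat_lit 6) (.e (nat_lit 286726) (nat_lit 0) (.e (nat_lit 1842) (nat_lit 123) (.e (nat_lit 548874) (nat_lit 5) .nil)))))))) (.g (nat_lit 5) .nil .nil)))) (.nd (nat_lit 5) 
(.lf (nat_lit 55647) (.g (nat_lit 2156) (.e (nat_lit 1401) (nat_lit 106) (.e (nat_lit 319531) (nat_lit 16) (.e (nat_lit 286735) (nat_lit 3) (.e (nat_lit 98353) (nat_lit 25) (.e (nat_lit 417793) (nat_lit 0) (.e (nat_lit 5395) (nat_lit 301) (.e (nat_lit 57473) (nat_lit 27) (.e (nat_lit 548874) (nat_lit 5) .nil)))))))) (.g (nat_lit 4) .nil .nil))) 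
(.lf (nat_lit 55679) (.g (nat_lit 2286) (.e (nat_lit 1401) (nat_lit 106) (.e (nat_lit 319531) (nat_lit 16) (.e (nat_lit 286735) (nat_lit 3) (.e (nat_lit 98359) (nat_lit 26) (.e (nat_lit 426171) (nat_lit 7) (.e (nat_lit 417536) (nat_lit 2) (.e (nat_lit 32774) (nat_lit 5) .nil))))))) (.g (nat_lit 4) .nil .nil)))))))))

noncomputable def tv769 : DT := (.nd (nat_lit 0) (.nd (nat_lit 1) (.nd (nat_lit 2) (.nd (nat_lit 3) (.nd (nat_lit 4) (.nd (nat_lit 5) 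
(.lf (nat_lit 55680) (.g (nat_lit 3775) (.e (nat_lit 1401) (nat_lit 106) (.e (nat_lit 319531) (nat_lit 16) (.e (nat_lit 286735) (nat_lit 3) (.e (nat_lit 98359) (nat_lit 26) (.e (nat_lit 426177) (nat_lit 8) (.e (nat_lit 417805) (nat_lit 2) (.e (nat_lit 32774) (nat_lit 5) .nil))))))) (.g (nat_lit 6) .nil .nil))) 
(.lf (nat_lit 55712) (.g (nat_lit 3258) (.e (nat_lit 1401) (nat_lit 106) (.e (nat_lit 319531) (nat_lit 16) (.e (nat_lit 286735) (nat_lit 3) (.e (nat_lit 98365) (nat_lit 26) (.e (nat_lit 426298) (nat_lit 11) (.e (nat_lit 458781) (nat_lit 19) (.e (nat_lit 499960) (nat_lit 14) .nil))))))) (.g (nat_lit 6) .nil .nil)))) (.nd (nat_lit 5) 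
(.lf (nat_lit 55696) (.g (nat_lit 2022) (.e (nat_lit 1401) (nat_lit 106) (.e (nat_lit 319531) (nat_lit 16) (.e (nat_lit 286735) (nat_lit 3) (.e (nat_lit 98363) (nat_lit 26) (.e (nat_lit 425989) (nat_lit 0) (.e (nat_lit 7064) (nat_lit 377) (.e (nat_lit 1135) (nat_lit 84) (.e (nat_lit 32774) (nat_lit 5) .nil)))))))) (.g (nat_lit 4) .nil .nil))) 
(.lf (nat_lit 55728) (.g (nat_lit 1266) (.e (nat_lit 1401) (nat_lit 106) (.e (nat_lit 319531) (nat_lit 16) (.e (nat_lit 286735) (nat_lit 3) (.e (nat_lit 98371) (nat_lit 28) .nil)))) .nil)))) (.nd (nat_lit 4) (.nd (nat_lit 5) 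
(.lf (nat_lit 55688) (.g (nat_lit 2199) (.e (nat_lit 1401) (nat_lit 106) (.e (nat_lit 319531) (nat_lit 16) (.e (nat_lit 286735) (nat_lit 3) (.e (nat_lit 98359) (nat_lit 26) (.e (nat_lit 426282) (nat_lit 10) (.e (nat_lit 434217) (nat_lit 19) (.e (nat_lit 499969) (nat_lit 14) .nil))))))) (.g (nat_lit 4) .nil .nil))) 
(.lf (nat_lit 55720) (.g (nat_lit 3165) (.e (nat_lit 1401) (nat_lit 106) (.e (nat_lit 319531) (nat_lit 16) (.e (nat_lit 286735) (nat_lit 3) (.e (nat_lit 98369) (nat_lit 28) (.e (nat_lit 442424) (nat_lit 22) (.e (nat_lit 196630) (nat_lit 9) .nil)))))) (.g (nat_lit 5) .nil .nil)))) (.nd (nat_lit 5) 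
(.lf (nat_lit 55704) (.g (nat_lit 2200) (.e (nat_lit 1401) (nat_lit 106) (.e (nat_lit 319531) (nat_lit 16) (.e (nat_lit 286735) (nat_lit 3) (.e (nat_lit 98365) (nat_lit 26) (.e (nat_lit 426296) (nat_lit 11) (.e (nat_lit 458781) (nat_lit 19) (.e (nat_lit 499960) (nat_lit 14) .nil))))))) (.g (nat_lit 4) .nil .nil))) 
(.lf (nat_lit 55736) (.g (nat_lit 3265) (.e (nat_lit 1401) (nat_lit 106) (.e (nat_lit 319531) (nat_lit 16) (.e (nat_lit 286735) (nat_lit 3) (.e (nat_lit 98373) (nat_lit 29) (.e (nat_lit 450560) (nat_lit 0) (.e (nat_lit 3865) (nat_lit 233) (.e (nat_lit 1010) (nat_lit 81) .nil))))))) (.g (nat_lit 5) .nil .nil)))))) (.nd (nat_lit 3) (.nd (nat_lit 4) (.nd (nat_lit 5) 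
(.lf (nat_lit 55684) (.g (nat_lit 5242) (.e (nat_lit 1401) (nat_lit 106) (.e (nat_lit 319531) (nat_lit 16) (.e (nat_lit 286735) (nat_lit 3) (.e (nat_lit 98359) (nat_lit 26) (.e (nat_lit 426211) (nat_lit 9) (.e (nat_lit 426125) (nat_lit 2) (.e (nat_lit 196625) (nat_lit 9) .nil))))))) (.g (nat_lit 6) .nil .nil))) 
(.lf (nat_lit 55716) (.g (nat_lit 2551) (.e (nat_lit 1401) (nat_lit 106) (.e (nat_lit 319531) (nat_lit 16) (.e (nat_lit 286735) (nat_lit 3) (.e (nat_lit 98365) (nat_lit 26) (.e (nat_lit 426342) (nat_lit 14) (.e (nat_lit 491526) (nat_lit 0) (.e (nat_lit 1842) (nat_lit 123) (.e (nat_lit 548873) (nat_lit 5) .nil)))))))) (.g (nat_lit 5) .nil .nil)))) (.nd (nat_lit 5) 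
(.lf (nat_lit 55700) (.g (nat_lit 2550) (.e (nat_lit 1401) (nat_lit 106) (.e (nat_lit 319531) (nat_lit 16) (.e (nat_lit 286735) (nat_lit 3) (.e (nat_lit 98365) (nat_lit 26) (.e (nat_lit 426179) (nat_lit 8) (.e (nat_lit 417805) (nat_lit 2) (.e (nat_lit 32774) (nat_lit 5) .nil))))))) (.g (nat_lit 4) .nil .nil))) 
(.lf (nat_lit 55732) (.g (nat_lit 2760) (.e (nat_lit 1401) (nat_lit 106) (.e (nat_lit 319531) (nat_lit 16) (.e (nat_lit 286735) (nat_lit 3) (.e (nat_lit 98372) (nat_lit 29) (.e (nat_lit 458496) (nat_lit 1) (.e (nat_lit 499969) (nat_lit 14) .nil)))))) (.g (nat_lit 4) .nil .nil))))) (.nd (nat_lit 4) (.nd (nat_lit 5) 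
(.lf (nat_lit 55692) (.g (nat_lit 4606) (.e (nat_lit 1401) (nat_lit 106) (.e (nat_lit 319531) (nat_lit 16) (.e (nat_lit 286735) (nat_lit 3) (.e (nat_lit 98359) (nat_lit 26) (.e (nat_lit 426338) (nat_lit 14) (.e (nat_lit 491526) (nat_lit 0) (.e (nat_lit 1842) (nat_lit 123) (.e (nat_lit 548873) (nat_lit 5) .nil)))))))) (.g (nat_lit 8) .nil .nil))) 
(.lf (nat_lit 55724) (.g (nat_lit 3427) (.e (nat_lit 1401) (nat_lit 106) (.e (nat_lit 319531) (nat_lit 16) (.e (nat_lit 286735) (nat_lit 3) (.e (nat_lit 98370) (nat_lit 28) (.e (nat_lit 442424) (nat_lit 22) (.e (nat_lit 196625) (nat_lit 9) .nil)))))) (.g (nat_lit 5) .nil .nil)))) (.nd (nat_lit 5) 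
(.lf (nat_lit 55708) (.g (nat_lit 2440) (.e (nat_lit 1401) (nat_lit 106) (.e (nat_lit 319531) (nat_lit 16) (.e (nat_lit 286735) (nat_lit 3) (.e (nat_lit 98365) (nat_lit 26) (.e (nat_lit 426298) (nat_lit 11) (.e (nat_lit 458779) (nat_lit 19) (.e (nat_lit 499960) (nat_lit 14) .nil))))))) (.g (nat_lit 4) .nil .nil))) 
(.lf (nat_lit 55740) (.g (nat_lit 3112) (.e (nat_lit 1401) (nat_lit 106) (.e (nat_lit 319531) (nat_lit 16) (.e (nat_lit 286735) (nat_lit 3) (.e (nat_lit 98373) (nat_lit 29) (.e (nat_lit 450562) (nat_lit 0) (.e (nat_lit 3868) (nat_lit 233) (.e (nat_lit 1008) (nat_lit 81) .nil))))))) (.g (nat_lit 5) .nil .nil))))))) (.nd (nat_lit 2) (.nd (nat_lit 3) (.nd (nat_lit 4) (.nd (nat_lit 5) 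
(.lf (nat_lit 55682) (.g (nat_lit 1568) (.e (nat_lit 1401) (nat_lit 106) (.e (nat_lit 319531) (nat_lit 16) (.e (nat_lit 286735) (nat_lit 3) (.e (nat_lit 98359) (nat_lit 26) (.e (nat_lit 426208) (nat_lit 9) .nil))))) .nil)) 
(.lf (nat_lit 55714) (.g (nat_lit 3188) (.e (nat_lit 1401) (nat_lit 106) (.e (nat_lit 319531) (nat_lit 16) (.e (nat_lit 286735) (nat_lit 3) (.e (nat_lit 98365) (nat_lit 26) (.e (nat_lit 426298) (nat_lit 11) (.e (nat_lit 458781) (nat_lit 19) (.e (nat_lit 499962) (nat_lit 14) .nil))))))) (.g (nat_lit 5) .nil .nil)))) (.nd (nat_lit 5) 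
(.lf (nat_lit 55698) (.g (nat_lit 1233) (.e (nat_lit 1401) (nat_lit 106) (.e (nat_lit 319531) (nat_lit 16) (.e (nat_lit 286735) (nat_lit 3) (.e (nat_lit 98364) (nat_lit 26) .nil)))) .nil)) 
(.lf (nat_lit 55730) (.g (nat_lit 3090) (.e (nat_lit 1401) (nat_lit 106) (.e (nat_lit 319531) (nat_lit 16) (.e (nat_lit 286735) (nat_lit 3) (.e (nat_lit 98372) (nat_lit 29) (.e (nat_lit 450571) (nat_lit 1) .nil))))) .nil)))) (.nd (nat_lit 4) (.nd (nat_lit 5) 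
(.lf (nat_lit 55690) (.g (nat_lit 1912) (.e (nat_lit 1401) (nat_lit 106) (.e (nat_lit 319531) (nat_lit 16) (.e (nat_lit 286735) (nat_lit 3) (.e (nat_lit 98359) (nat_lit 26) (.e (nat_lit 426282) (nat_lit 10) (.e (nat_lit 434223) (nat_lit 19) (.e (nat_lit 499960) (nat_lit 14) .nil))))))) (.g (nat_lit 4) .nil .nil))) 
(.lf (nat_lit 55722) (.g (nat_lit 2397) (.e (nat_lit 1401) (nat_lit 106) (.e (nat_lit 319531) (nat_lit 16) (.e (nat_lit 286735) (nat_lit 3) (.e (nat_lit 98370) (nat_lit 28) (.e (nat_lit 442368) (nat_lit 0) (.e (nat_lit 1873) (nat_lit 126) (.e (nat_lit 573451) (nat_lit 9) .nil))))))) (.g (nat_lit 4) .nil .nil)))) (.nd (nat_lit 5) 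
(.lf (nat_lit 55706) (.g (nat_lit 1835) (.e (nat_lit 1401) (nat_lit 106) (.e (nat_lit 319531) (nat_lit 16) (.e (nat_lit 286735) (nat_lit 3) (.e (nat_lit 98365) (nat_lit 26) (.e (nat_lit 426297) (nat_lit 11) .nil))))) .nil)) 
(.lf (nat_lit 55738) (.g (nat_lit 2887) (.e (nat_lit 1401) (nat_lit 106) (.e (nat_lit 319531) (nat_lit 16) (.e (nat_lit 286735) (nat_lit 3) (.e (nat_lit 98373) (nat_lit 29) (.e (nat_lit 450562) (nat_lit 0) (.e (nat_lit 3847) (nat_lit 233) (.e (nat_lit 1009) (nat_lit 81) .nil))))))) (.g (nat_lit 5) .nil .nil)))))) (.nd (nat_lit 3) (.nd (nat_lit 4) (.nd (nat_lit 5) 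
(.lf (nat_lit 55686) (.g (nat_lit 2895) (.e (nat_lit 1401) (nat_lit 106) (.e (nat_lit 319531) (nat_lit 16) (.e (nat_lit 286735) (nat_lit 3) (.e (nat_lit 98359) (nat_lit 26) (.e (nat_lit 426211) (nat_lit 9) (.e (nat_lit 426125) (nat_lit 2) (.e (nat_lit 204544) (nat_lit 9) .nil))))))) (.g (nat_lit 5) .nil .nil))) 
(.lf (nat_lit 55718) (.g (nat_lit 2400) (.e (nat_lit 1401) (nat_lit 106) (.e (nat_lit 319531) (nat_lit 16) (.e (nat_lit 286735) (nat_lit 3) (.e (nat_lit 98369) (nat_lit 28) (.e (nat_lit 442368) (nat_lit 0) .nil))))) .nil))) (.nd (nat_lit 5) 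
(.lf (nat_lit 55702) (.g (nat_lit 2788) (.e (nat_lit 1401) (nat_lit 106) (.e (nat_lit 319531) (nat_lit 16) (.e (nat_lit 286735) (nat_lit 3) (.e (nat_lit 98365) (nat_lit 26) (.e (nat_lit 426182) (nat_lit 8) (.e (nat_lit 417805) (nat_lit 2) (.e (nat_lit 32774) (nat_lit 5) .nil))))))) (.g (nat_lit 5) .nil .nil))) 
(.lf (nat_lit 55734) (.g (nat_lit 2704) (.e (nat_lit 1401) (nat_lit 106) (.e (nat_lit 319531) (nat_lit 16) (.e (nat_lit 286735) (nat_lit 3) (.e (nat_lit 98373) (nat_lit 29) (.e (nat_lit 450560) (nat_lit 0) (.e (nat_lit 3834) (nat_lit 233) (.e (nat_lit 1013) (nat_lit 81) .nil))))))) (.g (nat_lit 4) .nil .nil))))) (.nd (nat_lit 4) (.nd (nat_lit 5) 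
(.lf (nat_lit 55694) (.g (nat_lit 1571) (.e (nat_lit 1401) (nat_lit 106) (.e (nat_lit 319531) (nat_lit 16) (.e (nat_lit 286735) (nat_lit 3) (.e (nat_lit 98360) (nat_lit 26) .nil)))) .nil)) 
(.lf (nat_lit 55726) (.g (nat_lit 2865) (.e (nat_lit 1401) (nat_lit 106) (.e (nat_lit 319531) (nat_lit 16) (.e (nat_lit 286735) (nat_lit 3) (.e (nat_lit 98370) (nat_lit 28) (.e (nat_lit 442424) (nat_lit 22) (.e (nat_lit 204544) (nat_lit 9) .nil)))))) (.g (nat_lit 5) .nil .nil)))) (.nd (nat_lit 5) 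
(.lf (nat_lit 55710) (.g (nat_lit 2520) (.e (nat_lit 1401) (nat_lit 106) (.e (nat_lit 319531) (nat_lit 16) (.e (nat_lit 286735) (nat_lit 3) (.e (nat_lit 98365) (nat_lit 26) (.e (nat_lit 426298) (nat_lit 11) (.e (nat_lit 458781) (nat_lit 19) (.e (nat_lit 499952) (nat_lit 14) .nil))))))) (.g (nat_lit 4) .nil .nil))) 
(.lf (nat_lit 55742) (.g (nat_lit 2439) (.e (nat_lit 1401) (nat_lit 106) (.e (nat_lit 319531) (nat_lit 16) (.e (nat_lit 286735) (nat_lit 3) (.e (nat_lit 98373) (nat_lit 29) (.e (nat_lit 450562) (nat_lit 0) (.e (nat_lit 3883) (nat_lit 233) (.e (nat_lit 1010) (nat_lit 81) .nil))))))) (.g (nat_lit 5) .nil .nil)))))))) 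
(.nd (nat_lit 1) (.nd (nat_lit 2) (.nd (nat_lit 3) (.nd (nat_lit 4) (.nd (nat_lit 5) 
(.lf (nat_lit 55681) (.g (nat_lit 2996) (.e (nat_lit 1401) (nat_lit 106) (.e (nat_lit 319531) (nat_lit 16) (.e (nat_lit 286735) (nat_lit 3) (.e (nat_lit 98359) (nat_lit 26) (.e (nat_lit 426184) (nat_lit 8) (.e (nat_lit 417805) (nat_lit 2) (.e (nat_lit 32774) (nat_lit 5) .nil))))))) (.g (nat_lit 4) .nil .nil))) 
(.lf (nat_lit 55713) (.g (nat_lit 2344) (.e (nat_lit 1401) (nat_lit 106) (.e (nat_lit 319531) (nat_lit 16) (.e (nat_lit 286735) (nat_lit 3) (.e (nat_lit 98365) (nat_lit 26) (.e (nat_lit 426298) (nat_lit 11) (.e (nat_lit 458781) (nat_lit 19) (.e (nat_lit 499961) (nat_lit 14) .nil))))))) (.g (nat_lit 4) .nil .nil)))) (.nd (nat_lit 5) 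
(.lf (nat_lit 55697) (.g (nat_lit 3284) (.e (nat_lit 1401) (nat_lit 106) (.e (nat_lit 319531) (nat_lit 16) (.e (nat_lit 286735) (nat_lit 3) (.e (nat_lit 98363) (nat_lit 26) (.e (nat_lit 425989) (nat_lit 0) (.e (nat_lit 7064) (nat_lit 377) (.e (nat_lit 1139) (nat_lit 84) (.e (nat_lit 32774) (nat_lit 5) .nil)))))))) (.g (nat_lit 8) .nil .nil))) 
(.lf (nat_lit 55729) (.g (nat_lit 1698) (.e (nat_lit 1401) (nat_lit 106) (.e (nat_lit 319531) (nat_lit 16) (.e (nat_lit 286735) (nat_lit 3) (.e (nat_lit 98372) (nat_lit 29) .nil)))) .nil)))) (.nd (nat_lit 4) (.nd (nat_lit 5) 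
(.lf (nat_lit 55689) (.g (nat_lit 1931) (.e (nat_lit 1401) (nat_lit 106) (.e (nat_lit 319531) (nat_lit 16) (.e (nat_lit 286735) (nat_lit 3) (.e (nat_lit 98359) (nat_lit 26) (.e (nat_lit 426282) (nat_lit 10) (.e (nat_lit 434222) (nat_lit 19) (.e (nat_lit 499960) (nat_lit 14) .nil))))))) (.g (nat_lit 4) .nil .nil))) 
(.lf (nat_lit 55721) (.g (nat_lit 901) (.e (nat_lit 1401) (nat_lit 106) (.e (nat_lit 319531) (nat_lit 16) (.e (nat_lit 286735) (nat_lit 3) (.e (nat_lit 98370) (nat_lit 28) .nil)))) .nil))) (.nd (nat_lit 5) 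
(.lf (nat_lit 55705) (.g (nat_lit 2130) (.e (nat_lit 1401) (nat_lit 106) (.e (nat_lit 319531) (nat_lit 16) (.e (nat_lit 286735) (nat_lit 3) (.e (nat_lit 98365) (nat_lit 26) (.e (nat_lit 426296) (nat_lit 11) (.e (nat_lit 458781) (nat_lit 19) (.e (nat_lit 499962) (nat_lit 14) .nil))))))) (.g (nat_lit 4) .nil .nil))) 
(.lf (nat_lit 55737) (.g (nat_lit 1292) (.e (nat_lit 1401) (nat_lit 106) (.e (nat_lit 319531) (nat_lit 16) (.e (nat_lit 286735) (nat_lit 3) (.e (nat_lit 98373) (nat_lit 29) (.e (nat_lit 450562) (nat_lit 0) .nil))))) .nil))))) (.nd (nat_lit 3) (.nd (nat_lit 4) (.nd (nat_lit 5) 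
(.lf (nat_lit 55685) (.g (nat_lit 6227) (.e (nat_lit 1401) (nat_lit 106) (.e (nat_lit 319531) (nat_lit 16) (.e (nat_lit 286735) (nat_lit 3) (.e (nat_lit 98359) (nat_lit 26) (.e (nat_lit 426211) (nat_lit 9) (.e (nat_lit 426125) (nat_lit 2) (.e (nat_lit 196630) (nat_lit 9) .nil))))))) (.g (nat_lit 7) .nil .nil))) 
(.lf (nat_lit 55717) (.g (nat_lit 1114) (.e (nat_lit 1401) (nat_lit 106) (.e (nat_lit 319531) (nat_lit 16) (.e (nat_lit 286735) (nat_lit 3) (.e (nat_lit 106240) (nat_lit 26) .nil)))) .nil))) (.nd (nat_lit 5) 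
(.lf (nat_lit 55701) (.g (nat_lit 2434) (.e (nat_lit 1401) (nat_lit 106) (.e (nat_lit 319531) (nat_lit 16) (.e (nat_lit 286735) (nat_lit 3) (.e (nat_lit 98365) (nat_lit 26) (.e (nat_lit 426180) (nat_lit 8) (.e (nat_lit 417805) (nat_lit 2) (.e (nat_lit 32774) (nat_lit 5) .nil))))))) (.g (nat_lit 4) .nil .nil))) 
(.lf (nat_lit 55733) (.g (nat_lit 1975) (.e (nat_lit 1401) (nat_lit 106) (.e (nat_lit 319531) (nat_lit 16) (.e (nat_lit 286735) (nat_lit 3) (.e (nat_lit 98373) (nat_lit 29) (.e (nat_lit 450560) (nat_lit 0) .nil))))) .nil)))) (.nd (nat_lit 4) (.nd (nat_lit 5) 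
(.lf (nat_lit 55693) (.g (nat_lit 5081) (.e (nat_lit 1401) (nat_lit 106) (.e (nat_lit 319531) (nat_lit 16) (.e (nat_lit 286735) (nat_lit 3) (.e (nat_lit 98359) (nat_lit 26) (.e (nat_lit 426338) (nat_lit 14) (.e (nat_lit 491526) (nat_lit 0) (.e (nat_lit 1842) (nat_lit 123) (.e (nat_lit 548874) (nat_lit 5) .nil)))))))) (.g (nat_lit 8) .nil .nil))) 
(.lf (nat_lit 55725) (.g (nat_lit 4393) (.e (nat_lit 1401) (nat_lit 106) (.e (nat_lit 319531) (nat_lit 16) (.e (nat_lit 286735) (nat_lit 3) (.e (nat_lit 98370) (nat_lit 28) (.e (nat_lit 442424) (nat_lit 22) (.e (nat_lit 196630) (nat_lit 9) .nil)))))) (.g (nat_lit 0) .nil .nil)))) (.nd (nat_lit 5) 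
(.lf (nat_lit 55709) (.g (nat_lit 2200) (.e (nat_lit 1401) (nat_lit 106) (.e (nat_lit 319531) (nat_lit 16) (.e (nat_lit 286735) (nat_lit 3) (.e (nat_lit 98365) (nat_lit 26) (.e (nat_lit 426298) (nat_lit 11) (.e (nat_lit 458779) (nat_lit 19) (.e (nat_lit 499962) (nat_lit 14) .nil))))))) (.g (nat_lit 4) .nil .nil))) 
(.lf (nat_lit 55741) (.g (nat_lit 4105) (.e (nat_lit 1401) (nat_lit 106) (.e (nat_lit 319531) (nat_lit 16) (.e (nat_lit 286735) (nat_lit 3) (.e (nat_lit 98373) (nat_lit 29) (.e (nat_lit 450562) (nat_lit 0) (.e (nat_lit 3868) (nat_lit 233) (.e (nat_lit 1009) (nat_lit 81) .nil))))))) (.g (nat_lit 7) .nil .nil))))))) (.nd (nat_lit 2) (.nd (nat_lit 3) (.nd (nat_lit 4) (.nd (nat_lit 5) 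
(.lf (nat_lit 55683) (.g (nat_lit 1672) (.e (nat_lit 1401) (nat_lit 106) (.e (nat_lit 319531) (nat_lit 16) (.e (nat_lit 286735) (nat_lit 3) (.e (nat_lit 98359) (nat_lit 26) (.e (nat_lit 426208) (nat_lit 9) (.e (nat_lit 426120) (nat_lit 2) (.e (nat_lit 196625) (nat_lit 9) .nil))))))) (.g (nat_lit 4) .nil .nil))) 
(.lf (nat_lit 55715) (.g (nat_lit 2877) (.e (nat_lit 1401) (nat_lit 106) (.e (nat_lit 319531) (nat_lit 16) (.e (nat_lit 286735) (nat_lit 3) (.e (nat_lit 98365) (nat_lit 26) (.e (nat_lit 426298) (nat_lit 11) (.e (nat_lit 458781) (nat_lit 19) (.e (nat_lit 499968) (nat_lit 14) .nil))))))) (.g (nat_lit 4) .nil .nil)))) (.nd (nat_lit 5) 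
(.lf (nat_lit 55699) (.g (nat_lit 1242) (.e (nat_lit 1401) (nat_lit 106) (.e (nat_lit 319531) (nat_lit 16) (.e (nat_lit 286735) (nat_lit 3) (.e (nat_lit 98365) (nat_lit 26) .nil)))) .nil)) 
(.lf (nat_lit 55731) (.g (nat_lit 4163) (.e (nat_lit 1401) (nat_lit 106) (.e (nat_lit 319531) (nat_lit 16) (.e (nat_lit 286735) (nat_lit 3) (.e (nat_lit 98372) (nat_lit 29) (.e (nat_lit 450571) (nat_lit 1) (.e (nat_lit 507648) (nat_lit 14) .nil)))))) (.g (nat_lit 5) .nil .nil))))) (.nd (nat_lit 4) (.nd (nat_lit 5) 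
(.lf (nat_lit 55691) (.g (nat_lit 2006) (.e (nat_lit 1401) (nat_lit 106) (.e (nat_lit 319531) (nat_lit 16) (.e (nat_lit 286735) (nat_lit 3) (.e (nat_lit 98359) (nat_lit 26) (.e (nat_lit 426285) (nat_lit 10) .nil))))) .nil)) 
(.lf (nat_lit 55723) (.g (nat_lit 2737) (.e (nat_lit 1401) (nat_lit 106) (.e (nat_lit 319531) (nat_lit 16) (.e (nat_lit 286735) (nat_lit 3) (.e (nat_lit 98370) (nat_lit 28) (.e (nat_lit 442422) (nat_lit 22) (.e (nat_lit 196630) (nat_lit 9) .nil)))))) (.g (nat_lit 5) .nil .nil)))) (.nd (nat_lit 5) 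
(.lf (nat_lit 55707) (.g (nat_lit 2072) (.e (nat_lit 1401) (nat_lit 106) (.e (nat_lit 319531) (nat_lit 16) (.e (nat_lit 286735) (nat_lit 3) (.e (nat_lit 98365) (nat_lit 26) (.e (nat_lit 426298) (nat_lit 11) .nil))))) .nil)) 
(.lf (nat_lit 55739) (.g (nat_lit 2920) (.e (nat_lit 1401) (nat_lit 106) (.e (nat_lit 319531) (nat_lit 16) (.e (nat_lit 286735) (nat_lit 3) (.e (nat_lit 98373) (nat_lit 29) (.e (nat_lit 450562) (nat_lit 0) (.e (nat_lit 3858) (nat_lit 233) (.e (nat_lit 1009) (nat_lit 81) .nil))))))) (.g (nat_lit 5) .nil .nil)))))) (.nd (nat_lit 3) (.nd (nat_lit 4) (.nd (nat_lit 5) 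
(.lf (nat_lit 55687) (.g (nat_lit 1676) (.e (nat_lit 1401) (nat_lit 106) (.e (nat_lit 319531) (nat_lit 16) (.e (nat_lit 286735) (nat_lit 3) (.e (nat_lit 98359) (nat_lit 26) (.e (nat_lit 426282) (nat_lit 10) .nil))))) .nil)) 
(.lf (nat_lit 55719) (.g (nat_lit 2863) (.e (nat_lit 1401) (nat_lit 106) (.e (nat_lit 319531) (nat_lit 16) (.e (nat_lit 286735) (nat_lit 3) (.e (nat_lit 98369) (nat_lit 28) (.e (nat_lit 442368) (nat_lit 0) (.e (nat_lit 1873) (nat_lit 126) (.e (nat_lit 573452) (nat_lit 9) .nil))))))) (.g (nat_lit 4) .nil .nil)))) (.nd (nat_lit 5) 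
(.lf (nat_lit 55703) (.g (nat_lit 1814) (.e (nat_lit 1401) (nat_lit 106) (.e (nat_lit 319531) (nat_lit 16) (.e (nat_lit 286735) (nat_lit 3) (.e (nat_lit 98365) (nat_lit 26) (.e (nat_lit 426296) (nat_lit 11) .nil))))) .nil)) 
(.lf (nat_lit 55735) (.g (nat_lit 3365) (.e (nat_lit 1401) (nat_lit 106) (.e (nat_lit 319531) (nat_lit 16) (.e (nat_lit 286735) (nat_lit 3) (.e (nat_lit 98373) (nat_lit 29) (.e (nat_lit 450560) (nat_lit 0) (.e (nat_lit 3861) (nat_lit 233) (.e (nat_lit 1011) (nat_lit 81) .nil))))))) (.g (nat_lit 5) .nil .nil))))) (.nd (nat_lit 4) (.nd (nat_lit 5) 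
(.lf (nat_lit 55695) (.g (nat_lit 1192) (.e (nat_lit 1401) (nat_lit 106) (.e (nat_lit 319531) (nat_lit 16) (.e (nat_lit 286735) (nat_lit 3) (.e (nat_lit 98363) (nat_lit 26) .nil)))) .nil)) 
(.lf (nat_lit 55727) (.g (nat_lit 2090) (.e (nat_lit 1401) (nat_lit 106) (.e (nat_lit 319531) (nat_lit 16) (.e (nat_lit 286735) (nat_lit 3) (.e (nat_lit 98370) (nat_lit 28) (.e (nat_lit 442433) (nat_lit 25) (.e (nat_lit 245781) (nat_lit 9) .nil)))))) (.g (nat_lit 4) .nil .nil)))) (.nd (nat_lit 5) 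
(.lf (nat_lit 55711) (.g (nat_lit 2865) (.e (nat_lit 1401) (nat_lit 106) (.e (nat_lit 319531) (nat_lit 16) (.e (nat_lit 286735) (nat_lit 3) (.e (nat_lit 98365) (nat_lit 26) (.e (nat_lit 426298) (nat_lit 11) (.e (nat_lit 458781) (nat_lit 19) (.e (nat_lit 499958) (nat_lit 14) .nil))))))) (.g (nat_lit 4) .nil .nil))) 
(.lf (nat_lit 55743) (.g (nat_lit 2503) (.e (nat_lit 1401) (nat_lit 106) (.e (nat_lit 319531) (nat_lit 16) (.e (nat_lit 286735) (nat_lit 3) (.e (nat_lit 98373) (nat_lit 29) (.e (nat_lit 450562) (nat_lit 0) (.e (nat_lit 3884) (nat_lit 233) (.e (nat_lit 1010) (nat_lit 81) .nil))))))) (.g (nat_lit 5) .nil .nil)))))))))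

noncomputable def tv770 : DT := (.nd (nat_lit 0) (.nd (nat_lit 1) (.nd (nat_lit 2) (.nd (nat_lit 3) (.nd (nat_lit 4) (.nd (nat_lit 5) 
(.lf (nat_lit 55744) (.g (nat_lit 2567) (.e (nat_lit 1401) (nat_lit 106) (.e (nat_lit 319531) (nat_lit 16) (.e (nat_lit 286735) (nat_lit 3) (.e (nat_lit 98373) (nat_lit 29) (.e (nat_lit 450562) (nat_lit 0) (.e (nat_lit 3884) (nat_lit 233) (.e (nat_lit 1011) (nat_lit 81) .nil))))))) (.g (nat_lit 5) .nil .nil))) 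
(.lf (nat_lit 55776) (.g (nat_lit 2074) (.e (nat_lit 1401) (nat_lit 106) (.e (nat_lit 319531) (nat_lit 16) (.e (nat_lit 286735) (nat_lit 3) (.e (nat_lit 98381) (nat_lit 31) (.e (nat_lit 466976) (nat_lit 22) .nil))))) .nil))) (.nd (nat_lit 5) 
(.lf (nat_lit 55760) (.g (nat_lit 4215) (.e (nat_lit 1401) (nat_lit 106) (.e (nat_lit 319531) (nat_lit 16) (.e (nat_lit 286735) (nat_lit 3) (.e (nat_lit 98373) (nat_lit 29) (.e (nat_lit 450573) (nat_lit 1) (.e (nat_lit 499960) (nat_lit 14) .nil)))))) (.g (nat_lit 5) .nil .nil))) 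
(.lf (nat_lit 55792) (.g (nat_lit 2238) (.e (nat_lit 1401) (nat_lit 106) (.e (nat_lit 319531) (nat_lit 16) (.e (nat_lit 286735) (nat_lit 3) (.e (nat_lit 98382) (nat_lit 31) (.e (nat_lit 466977) (nat_lit 22) (.e (nat_lit 196626) (nat_lit 9) .nil)))))) (.g (nat_lit 4) .nil .nil))))) (.nd (nat_lit 4) (.nd (nat_lit 5) 
(.lf (nat_lit 55752) (.g (nat_lit 3604) (.e (nat_lit 1401) (nat_lit 106) (.e (nat_lit 319531) (nat_lit 16) (.e (nat_lit 286735) (nat_lit 3) (.e (nat_lit 98373) (nat_lit 29) (.e (nat_lit 450570) (nat_lit 1) (.e (nat_lit 499958) (nat_lit 14) .nil)))))) (.g (nat_lit 5) .nil .nil))) 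
(.lf (nat_lit 55784) (.g (nat_lit 2190) (.e (nat_lit 1401) (nat_lit 106) (.e (nat_lit 319531) (nat_lit 16) (.e (nat_lit 286735) (nat_lit 3) (.e (nat_lit 98382) (nat_lit 31) (.e (nat_lit 466974) (nat_lit 22) (.e (nat_lit 196626) (nat_lit 9) .nil)))))) (.g (nat_lit 4) .nil .nil)))) (.nd (nat_lit 5) 
(.lf (nat_lit 55768) (.g (nat_lit 2475) (.e (nat_lit 1401) (nat_lit 106) (.e (nat_lit 319531) (nat_lit 16) (.e (nat_lit 286735) (nat_lit 3) (.e (nat_lit 98374) (nat_lit 29) (.e (nat_lit 450571) (nat_lit 1) (.e (nat_lit 507648) (nat_lit 14) .nil)))))) (.g (nat_lit 4) .nil .nil))) 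
(.lf (nat_lit 55800) (.g (nat_lit 1844) (.e (nat_lit 1401) (nat_lit 106) (.e (nat_lit 319531) (nat_lit 16) (.e (nat_lit 286739) (nat_lit 7) (.e (nat_lit 319534) (nat_lit 16) (.e (nat_lit 286756) (nat_lit 10) (.e (nat_lit 344152) (nat_lit 34) (.e (nat_lit 622600) (nat_lit 5) .nil))))))) (.g (nat_lit 4) .nil .nil)))))) (.nd (nat_lit 3) (.nd (nat_lit 4) (.nd (nat_lit 5) 
(.lf (nat_lit 55748) (.g (nat_lit 2971) (.e (nat_lit 1401) (nat_lit 106) (.e (nat_lit 319531) (nat_lit 16) (.e (nat_lit 286735) (nat_lit 3) (.e (nat_lit 98373) (nat_lit 29) (.e (nat_lit 450563) (nat_lit 0) (.e (nat_lit 3858) (nat_lit 233) (.e (nat_lit 1009) (nat_lit 81) .nil))))))) (.g (nat_lit 5) .nil .nil))) 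
(.lf (nat_lit 55780) (.g (nat_lit 3923) (.e (nat_lit 1401) (nat_lit 106) (.e (nat_lit 319531) (nat_lit 16) (.e (nat_lit 286735) (nat_lit 3) (.e (nat_lit 98381) (nat_lit 31) (.e (nat_lit 466977) (nat_lit 22) (.e (nat_lit 196630) (nat_lit 9) .nil)))))) (.g (nat_lit 6) .nil .nil)))) (.nd (nat_lit 5) 
(.lf (nat_lit 55764) (.g (nat_lit 3902) (.e (nat_lit 1401) (nat_lit 106) (.e (nat_lit 319531) (nat_lit 16) (.e (nat_lit 286735) (nat_lit 3) (.e (nat_lit 98373) (nat_lit 29) (.e (nat_lit 450574) (nat_lit 1) (.e (nat_lit 499967) (nat_lit 14) .nil)))))) (.g (nat_lit 5) .nil .nil))) 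
(.lf (nat_lit 55796) (.g (nat_lit 2223) (.e (nat_lit 1401) (nat_lit 106) (.e (nat_lit 319531) (nat_lit 16) (.e (nat_lit 286739) (nat_lit 7) (.e (nat_lit 319533) (nat_lit 16) (.e (nat_lit 286753) (nat_lit 10) (.e (nat_lit 344151) (nat_lit 34) (.e (nat_lit 622601) (nat_lit 5) .nil))))))) (.g (nat_lit 5) .nil .nil))))) (.nd (nat_lit 4) (.nd (nat_lit 5) 
(.lf (nat_lit 55756) (.g (nat_lit 3895) (.e (nat_lit 1401) (nat_lit 106) (.e (nat_lit 319531) (nat_lit 16) (.e (nat_lit 286735) (nat_lit 3) (.e (nat_lit 98373) (nat_lit 29) (.e (nat_lit 450570) (nat_lit 1) (.e (nat_lit 499969) (nat_lit 14) .nil)))))) (.g (nat_lit 5) .nil .nil))) 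
(.lf (nat_lit 55788) (.g (nat_lit 3466) (.e (nat_lit 1401) (nat_lit 106) (.e (nat_lit 319531) (nat_lit 16) (.e (nat_lit 286735) (nat_lit 3) (.e (nat_lit 98382) (nat_lit 31) (.e (nat_lit 466976) (nat_lit 22) (.e (nat_lit 196630) (nat_lit 9) .nil)))))) (.g (nat_lit 6) .nil .nil)))) (.nd (nat_lit 5) 
(.lf (nat_lit 55772) (.g (nat_lit 1893) (.e (nat_lit 1401) (nat_lit 106) (.e (nat_lit 319531) (nat_lit 16) (.e (nat_lit 286735) (nat_lit 3) (.e (nat_lit 98380) (nat_lit 31) (.e (nat_lit 466974) (nat_lit 22) .nil))))) .nil)) 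
(.lf (nat_lit 55804) (.g (nat_lit 1025) (.e (nat_lit 1401) (nat_lit 106) (.e (nat_lit 319531) (nat_lit 16) (.e (nat_lit 286743) (nat_lit 9) (.e (nat_lit 336433) (nat_lit 30) .nil)))) .nil)))))) (.nd (nat_lit 2) (.nd (nat_lit 3) (.nd (nat_lit 4) (.nd (nat_lit 5) 
(.lf (nat_lit 55746) (.g (nat_lit 2699) (.e (nat_lit 1401) (nat_lit 106) (.e (nat_lit 319531) (nat_lit 16) (.e (nat_lit 286735) (nat_lit 3) (.e (nat_lit 98373) (nat_lit 29) (.e (nat_lit 450562) (nat_lit 0) (.e (nat_lit 3885) (nat_lit 233) (.e (nat_lit 1011) (nat_lit 81) .nil))))))) (.g (nat_lit 5) .nil .nil))) 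
(.lf (nat_lit 55778) (.g (nat_lit 3915) (.e (nat_lit 1401) (nat_lit 106) (.e (nat_lit 319531) (nat_lit 16) (.e (nat_lit 286735) (nat_lit 3) (.e (nat_lit 98381) (nat_lit 31) (.e (nat_lit 466977) (nat_lit 22) (.e (nat_lit 196625) (nat_lit 9) .nil)))))) (.g (nat_lit 6) .nil .nil)))) (.nd (nat_lit 5) 
(.lf (nat_lit 55762) (.g (nat_lit 4017) (.e (nat_lit 1401) (nat_lit 106) (.e (nat_lit 319531) (nat_lit 16) (.e (nat_lit 286735) (nat_lit 3) (.e (nat_lit 98373) (nat_lit 29) (.e (nat_lit 450573) (nat_lit 1) (.e (nat_lit 499968) (nat_lit 14) .nil)))))) (.g (nat_lit 5) .nil .nil))) 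
(.lf (nat_lit 55794) (.g (nat_lit 901) (.e (nat_lit 1401) (nat_lit 106) (.e (nat_lit 319531) (nat_lit 16) (.e (nat_lit 286739) (nat_lit 7) (.e (nat_lit 319533) (nat_lit 16) .nil)))) .nil)))) (.nd (nat_lit 4) (.nd (nat_lit 5) 
(.lf (nat_lit 55754) (.g (nat_lit 3707) (.e (nat_lit 1401) (nat_lit 106) (.e (nat_lit 319531) (nat_lit 16) (.e (nat_lit 286735) (nat_lit 3) (.e (nat_lit 98373) (nat_lit 29) (.e (nat_lit 450570) (nat_lit 1) (.e (nat_lit 499962) (nat_lit 14) .nil)))))) (.g (nat_lit 5) .nil .nil))) 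
(.lf (nat_lit 55786) (.g (nat_lit 2312) (.e (nat_lit 1401) (nat_lit 106) (.e (nat_lit 319531) (nat_lit 16) (.e (nat_lit 286735) (nat_lit 3) (.e (nat_lit 98382) (nat_lit 31) (.e (nat_lit 466976) (nat_lit 22) (.e (nat_lit 196617) (nat_lit 9) .nil)))))) (.g (nat_lit 4) .nil .nil)))) (.nd (nat_lit 5) 
(.lf (nat_lit 55770) (.g (nat_lit 1875) (.e (nat_lit 1401) (nat_lit 106) (.e (nat_lit 319531) (nat_lit 16) (.e (nat_lit 286735) (nat_lit 3) (.e (nat_lit 98374) (nat_lit 29) (.e (nat_lit 458496) (nat_lit 1) .nil))))) .nil)) 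
(.lf (nat_lit 55802) (.g (nat_lit 533) (.e (nat_lit 1401) (nat_lit 106) (.e (nat_lit 319531) (nat_lit 16) (.e (nat_lit 286743) (nat_lit 9) .nil))) .nil))))) (.nd (nat_lit 3) (.nd (nat_lit 4) (.nd (nat_lit 5) 
(.lf (nat_lit 55750) (.g (nat_lit 3883) (.e (nat_lit 1401) (nat_lit 106) (.e (nat_lit 319531) (nat_lit 16) (.e (nat_lit 286735) (nat_lit 3) (.e (nat_lit 98373) (nat_lit 29) (.e (nat_lit 450563) (nat_lit 0) (.e (nat_lit 3868) (nat_lit 233) (.e (nat_lit 1009) (nat_lit 81) .nil))))))) (.g (nat_lit 7) .nil .nil))) 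
(.lf (nat_lit 55782) (.g (nat_lit 1591) (.e (nat_lit 1401) (nat_lit 106) (.e (nat_lit 319531) (nat_lit 16) (.e (nat_lit 286735) (nat_lit 3) (.e (nat_lit 98382) (nat_lit 31) (.e (nat_lit 466967) (nat_lit 20) .nil))))) .nil))) (.nd (nat_lit 5) 
(.lf (nat_lit 55766) (.g (nat_lit 1158) (.e (nat_lit 1401) (nat_lit 106) (.e (nat_lit 319531) (nat_lit 16) (.e (nat_lit 286735) (nat_lit 3) (.e (nat_lit 98374) (nat_lit 29) .nil)))) .nil)) 
(.lf (nat_lit 55798) (.g (nat_lit 2439) (.e (nat_lit 1401) (nat_lit 106) (.e (nat_lit 319531) (nat_lit 16) (.e (nat_lit 286739) (nat_lit 7) (.e (nat_lit 319533) (nat_lit 16) (.e (nat_lit 286753) (nat_lit 10) (.e (nat_lit 344152) (nat_lit 34) (.e (nat_lit 622601) (nat_lit 5) .nil))))))) (.g (nat_lit 6) .nil .nil))))) (.nd (nat_lit 4) (.nd (nat_lit 5) 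
(.lf (nat_lit 55758) (.g (nat_lit 2638) (.e (nat_lit 1401) (nat_lit 106) (.e (nat_lit 319531) (nat_lit 16) (.e (nat_lit 286735) (nat_lit 3) (.e (nat_lit 98373) (nat_lit 29) (.e (nat_lit 450572) (nat_lit 1) .nil))))) .nil)) 
(.lf (nat_lit 55790) (.g (nat_lit 2317) (.e (nat_lit 1401) (nat_lit 106) (.e (nat_lit 319531) (nat_lit 16) (.e (nat_lit 286735) (nat_lit 3) (.e (nat_lit 98382) (nat_lit 31) (.e (nat_lit 466977) (nat_lit 22) (.e (nat_lit 196623) (nat_lit 9) .nil)))))) (.g (nat_lit 4) .nil .nil)))) (.nd (nat_lit 5) 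
(.lf (nat_lit 55774) (.g (nat_lit 2435) (.e (nat_lit 1401) (nat_lit 106) (.e (nat_lit 319531) (nat_lit 16) (.e (nat_lit 286735) (nat_lit 3) (.e (nat_lit 98380) (nat_lit 31) (.e (nat_lit 466977) (nat_lit 22) (.e (nat_lit 196630) (nat_lit 9) .nil)))))) (.g (nat_lit 4) .nil .nil))) 
(.lf (nat_lit 55806) (.g (nat_lit 2713) (.e (nat_lit 1401) (nat_lit 106) (.e (nat_lit 319531) (nat_lit 16) (.e (nat_lit 286748) (nat_lit 9) (.e (nat_lit 336295) (nat_lit 15) (.e (nat_lit 3597) (nat_lit 225) (.e (nat_lit 761910) (nat_lit 17) (.e (nat_lit 188160) (nat_lit 32) .nil))))))) (.g (nat_lit 6) .nil .nil)))))))) 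
(.nd (nat_lit 1) (.nd (nat_lit 2) (.nd (nat_lit 3) (.nd (nat_lit 4) (.nd (nat_lit 5) 
(.lf (nat_lit 55745) (.g (nat_lit 2809) (.e (nat_lit 1401) (nat_lit 106) (.e (nat_lit 319531) (nat_lit 16) (.e (nat_lit 286735) (nat_lit 3) (.e (nat_lit 98373) (nat_lit 29) (.e (nat_lit 450562) (nat_lit 0) (.e (nat_lit 3885) (nat_lit 233) (.e (nat_lit 1010) (nat_lit 81) .nil))))))) (.g (nat_lit 5) .nil .nil))) 
(.lf (nat_lit 55777) (.g (nat_lit 3163) (.e (nat_lit 1401) (nat_lit 106) (.e (nat_lit 319531) (nat_lit 16) (.e (nat_lit 286735) (nat_lit 3) (.e (nat_lit 98381) (nat_lit 31) (.e (nat_lit 466976) (nat_lit 22) (.e (nat_lit 196630) (nat_lit 9) .nil)))))) (.g (nat_lit 5) .nil .nil)))) (.nd (nat_lit 5) 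
(.lf (nat_lit 55761) (.g (nat_lit 3644) (.e (nat_lit 1401) (nat_lit 106) (.e (nat_lit 319531) (nat_lit 16) (.e (nat_lit 286735) (nat_lit 3) (.e (nat_lit 98373) (nat_lit 29) (.e (nat_lit 450573) (nat_lit 1) (.e (nat_lit 499961) (nat_lit 14) .nil)))))) (.g (nat_lit 5) .nil .nil))) 
(.lf (nat_lit 55793) (.g (nat_lit 3697) (.e (nat_lit 1401) (nat_lit 106) (.e (nat_lit 319531) (nat_lit 16) (.e (nat_lit 286735) (nat_lit 3) (.e (nat_lit 98382) (nat_lit 31) (.e (nat_lit 466977) (nat_lit 22) (.e (nat_lit 196630) (nat_lit 9) .nil)))))) (.g (nat_lit 6) .nil .nil))))) (.nd (nat_lit 4) (.nd (nat_lit 5) 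
(.lf (nat_lit 55753) (.g (nat_lit 3949) (.e (nat_lit 1401) (nat_lit 106) (.e (nat_lit 319531) (nat_lit 16) (.e (nat_lit 286735) (nat_lit 3) (.e (nat_lit 98373) (nat_lit 29) (.e (nat_lit 450570) (nat_lit 1) (.e (nat_lit 499960) (nat_lit 14) .nil)))))) (.g (nat_lit 6) .nil .nil))) 
(.lf (nat_lit 55785) (.g (nat_lit 3832) (.e (nat_lit 1401) (nat_lit 106) (.e (nat_lit 319531) (nat_lit 16) (.e (nat_lit 286735) (nat_lit 3) (.e (nat_lit 98382) (nat_lit 31) (.e (nat_lit 466974) (nat_lit 22) (.e (nat_lit 196630) (nat_lit 9) .nil)))))) (.g (nat_lit 6) .nil .nil)))) (.nd (nat_lit 5) 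
(.lf (nat_lit 55769) (.g (nat_lit 2554) (.e (nat_lit 1401) (nat_lit 106) (.e (nat_lit 319531) (nat_lit 16) (.e (nat_lit 286735) (nat_lit 3) (.e (nat_lit 98374) (nat_lit 29) (.e (nat_lit 450575) (nat_lit 1) (.e (nat_lit 499952) (nat_lit 14) .nil)))))) (.g (nat_lit 6) .nil .nil))) 
(.lf (nat_lit 55801) (.g (nat_lit 765) (.e (nat_lit 1401) (nat_lit 106) (.e (nat_lit 319531) (nat_lit 16) (.e (nat_lit 286740) (nat_lit 7) .nil))) .nil))))) (.nd (nat_lit 3) (.nd (nat_lit 4) (.nd (nat_lit 5) 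
(.lf (nat_lit 55749) (.g (nat_lit 2986) (.e (nat_lit 1401) (nat_lit 106) (.e (nat_lit 319531) (nat_lit 16) (.e (nat_lit 286735) (nat_lit 3) (.e (nat_lit 98373) (nat_lit 29) (.e (nat_lit 450563) (nat_lit 0) (.e (nat_lit 3868) (nat_lit 233) (.e (nat_lit 1008) (nat_lit 81) .nil))))))) (.g (nat_lit 5) .nil .nil))) 
(.lf (nat_lit 55781) (.g (nat_lit 1197) (.e (nat_lit 1401) (nat_lit 106) (.e (nat_lit 319531) (nat_lit 16) (.e (nat_lit 286735) (nat_lit 3) (.e (nat_lit 98382) (nat_lit 31) .nil)))) .nil))) (.nd (nat_lit 5) 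
(.lf (nat_lit 55765) (.g (nat_lit 2437) (.e (nat_lit 1401) (nat_lit 106) (.e (nat_lit 319531) (nat_lit 16) (.e (nat_lit 286735) (nat_lit 3) (.e (nat_lit 98373) (nat_lit 29) (.e (nat_lit 458496) (nat_lit 1) .nil))))) .nil)) 
(.lf (nat_lit 55797) (.g (nat_lit 2110) (.e (nat_lit 1401) (nat_lit 106) (.e (nat_lit 319531) (nat_lit 16) (.e (nat_lit 286739) (nat_lit 7) (.e (nat_lit 319533) (nat_lit 16) (.e (nat_lit 286753) (nat_lit 10) (.e (nat_lit 344152) (nat_lit 34) (.e (nat_lit 622600) (nat_lit 5) .nil))))))) (.g (nat_lit 5) .nil .nil))))) (.nd (nat_lit 4) (.nd (nat_lit 5) 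
(.lf (nat_lit 55757) (.g (nat_lit 4634) (.e (nat_lit 1401) (nat_lit 106) (.e (nat_lit 319531) (nat_lit 16) (.e (nat_lit 286735) (nat_lit 3) (.e (nat_lit 98373) (nat_lit 29) (.e (nat_lit 450571) (nat_lit 1) (.e (nat_lit 507648) (nat_lit 14) .nil)))))) (.g (nat_lit 5) .nil .nil))) 
(.lf (nat_lit 55789) (.g (nat_lit 2159) (.e (nat_lit 1401) (nat_lit 106) (.e (nat_lit 319531) (nat_lit 16) (.e (nat_lit 286735) (nat_lit 3) (.e (nat_lit 98382) (nat_lit 31) (.e (nat_lit 466977) (nat_lit 22) (.e (nat_lit 196617) (nat_lit 9) .nil)))))) (.g (nat_lit 4) .nil .nil)))) (.nd (nat_lit 5) 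
(.lf (nat_lit 55773) (.g (nat_lit 2180) (.e (nat_lit 1401) (nat_lit 106) (.e (nat_lit 319531) (nat_lit 16) (.e (nat_lit 286735) (nat_lit 3) (.e (nat_lit 98380) (nat_lit 31) (.e (nat_lit 466977) (nat_lit 22) (.e (nat_lit 196625) (nat_lit 9) .nil)))))) (.g (nat_lit 4) .nil .nil))) 
(.lf (nat_lit 55805) (.g (nat_lit 2586) (.e (nat_lit 1401) (nat_lit 106) (.e (nat_lit 319531) (nat_lit 16) (.e (nat_lit 286743) (nat_lit 9) (.e (nat_lit 336434) (nat_lit 30) (.e (nat_lit 450598) (nat_lit 18) (.e (nat_lit 671747) (nat_lit 0) .nil)))))) (.g (nat_lit 6) .nil .nil))))))) (.nd (nat_lit 2) (.nd (nat_lit 3) (.nd (nat_lit 4) (.nd (nat_lit 5) 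
(.lf (nat_lit 55747) (.g (nat_lit 2678) (.e (nat_lit 1401) (nat_lit 106) (.e (nat_lit 319531) (nat_lit 16) (.e (nat_lit 286735) (nat_lit 3) (.e (nat_lit 98373) (nat_lit 29) (.e (nat_lit 450563) (nat_lit 0) (.e (nat_lit 3847) (nat_lit 233) (.e (nat_lit 1009) (nat_lit 81) .nil))))))) (.g (nat_lit 5) .nil .nil))) 
(.lf (nat_lit 55779) (.g (nat_lit 2373) (.e (nat_lit 1401) (nat_lit 106) (.e (nat_lit 319531) (nat_lit 16) (.e (nat_lit 286735) (nat_lit 3) (.e (nat_lit 98381) (nat_lit 31) (.e (nat_lit 466977) (nat_lit 22) (.e (nat_lit 196627) (nat_lit 9) .nil)))))) (.g (nat_lit 4) .nil .nil)))) (.nd (nat_lit 5) 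
(.lf (nat_lit 55763) (.g (nat_lit 4010) (.e (nat_lit 1401) (nat_lit 106) (.e (nat_lit 319531) (nat_lit 16) (.e (nat_lit 286735) (nat_lit 3) (.e (nat_lit 98373) (nat_lit 29) (.e (nat_lit 450573) (nat_lit 1) (.e (nat_lit 499969) (nat_lit 14) .nil)))))) (.g (nat_lit 5) .nil .nil))) 
(.lf (nat_lit 55795) (.g (nat_lit 2142) (.e (nat_lit 1401) (nat_lit 106) (.e (nat_lit 319531) (nat_lit 16) (.e (nat_lit 286739) (nat_lit 7) (.e (nat_lit 319533) (nat_lit 16) (.e (nat_lit 286753) (nat_lit 10) (.e (nat_lit 344150) (nat_lit 34) (.e (nat_lit 622601) (nat_lit 5) .nil))))))) (.g (nat_lit 5) .nil .nil))))) (.nd (nat_lit 4) (.nd (nat_lit 5) 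
(.lf (nat_lit 55755) (.g (nat_lit 3973) (.e (nat_lit 1401) (nat_lit 106) (.e (nat_lit 319531) (nat_lit 16) (.e (nat_lit 286735) (nat_lit 3) (.e (nat_lit 98373) (nat_lit 29) (.e (nat_lit 450570) (nat_lit 1) (.e (nat_lit 499968) (nat_lit 14) .nil)))))) (.g (nat_lit 5) .nil .nil))) 
(.lf (nat_lit 55787) (.g (nat_lit 1979) (.e (nat_lit 1401) (nat_lit 106) (.e (nat_lit 319531) (nat_lit 16) (.e (nat_lit 286735) (nat_lit 3) (.e (nat_lit 98382) (nat_lit 31) (.e (nat_lit 466976) (nat_lit 22) (.e (nat_lit 196625) (nat_lit 9) .nil)))))) (.g (nat_lit 4) .nil .nil)))) (.nd (nat_lit 5) 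
(.lf (nat_lit 55771) (.g (nat_lit 2251) (.e (nat_lit 1401) (nat_lit 106) (.e (nat_lit 319531) (nat_lit 16) (.e (nat_lit 286735) (nat_lit 3) (.e (nat_lit 98374) (nat_lit 29) (.e (nat_lit 458496) (nat_lit 1) (.e (nat_lit 499969) (nat_lit 14) .nil)))))) (.g (nat_lit 4) .nil .nil))) 
(.lf (nat_lit 55803) (.g (nat_lit 2298) (.e (nat_lit 1401) (nat_lit 106) (.e (nat_lit 319531) (nat_lit 16) (.e (nat_lit 286743) (nat_lit 9) (.e (nat_lit 336430) (nat_lit 29) (.e (nat_lit 442409) (nat_lit 20) (.e (nat_lit 3437) (nat_lit 214) (.e (nat_lit 671747) (nat_lit 0) .nil))))))) (.g (nat_lit 4) .nil .nil)))))) (.nd (nat_lit 3) (.nd (nat_lit 4) (.nd (nat_lit 5) 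
(.lf (nat_lit 55751) (.g (nat_lit 4191) (.e (nat_lit 1401) (nat_lit 106) (.e (nat_lit 319531) (nat_lit 16) (.e (nat_lit 286735) (nat_lit 3) (.e (nat_lit 98373) (nat_lit 29) (.e (nat_lit 450570) (nat_lit 1) (.e (nat_lit 499948) (nat_lit 14) .nil)))))) (.g (nat_lit 6) .nil .nil))) 
(.lf (nat_lit 55783) (.g (nat_lit 3336) (.e (nat_lit 1401) (nat_lit 106) (.e (nat_lit 319531) (nat_lit 16) (.e (nat_lit 286735) (nat_lit 3) (.e (nat_lit 98382) (nat_lit 31) (.e (nat_lit 466974) (nat_lit 22) (.e (nat_lit 196625) (nat_lit 9) .nil)))))) (.g (nat_lit 6) .nil .nil)))) (.nd (nat_lit 5) 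
(.lf (nat_lit 55767) (.g (nat_lit 1887) (.e (nat_lit 1401) (nat_lit 106) (.e (nat_lit 319531) (nat_lit 16) (.e (nat_lit 286735) (nat_lit 3) (.e (nat_lit 98374) (nat_lit 29) (.e (nat_lit 450571) (nat_lit 1) .nil))))) .nil)) 
(.lf (nat_lit 55799) (.g (nat_lit 2869) (.e (nat_lit 1401) (nat_lit 106) (.e (nat_lit 319531) (nat_lit 16) (.e (nat_lit 286739) (nat_lit 7) (.e (nat_lit 319534) (nat_lit 16) (.e (nat_lit 286756) (nat_lit 10) (.e (nat_lit 344151) (nat_lit 34) (.e (nat_lit 622601) (nat_lit 5) .nil))))))) (.g (nat_lit 7) .nil .nil))))) (.nd (nat_lit 4) (.nd (nat_lit 5) 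
(.lf (nat_lit 55759) (.g (nat_lit 4184) (.e (nat_lit 1401) (nat_lit 106) (.e (nat_lit 319531) (nat_lit 16) (.e (nat_lit 286735) (nat_lit 3) (.e (nat_lit 98373) (nat_lit 29) (.e (nat_lit 450572) (nat_lit 1) (.e (nat_lit 499960) (nat_lit 14) .nil)))))) (.g (nat_lit 5) .nil .nil))) 
(.lf (nat_lit 55791) (.g (nat_lit 3505) (.e (nat_lit 1401) (nat_lit 106) (.e (nat_lit 319531) (nat_lit 16) (.e (nat_lit 286735) (nat_lit 3) (.e (nat_lit 98382) (nat_lit 31) (.e (nat_lit 466977) (nat_lit 22) (.e (nat_lit 196625) (nat_lit 9) .nil)))))) (.g (nat_lit 0) .nil .nil)))) (.nd (nat_lit 5) 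
(.lf (nat_lit 55775) (.g (nat_lit 1224) (.e (nat_lit 1401) (nat_lit 106) (.e (nat_lit 319531) (nat_lit 16) (.e (nat_lit 286735) (nat_lit 3) (.e (nat_lit 98381) (nat_lit 31) .nil)))) .nil)) 
(.lf (nat_lit 55807) (.g (nat_lit 648) (.e (nat_lit 1401) (nat_lit 106) (.e (nat_lit 319531) (nat_lit 16) (.e (nat_lit 286748) (nat_lit 9) (.e (nat_lit 336389) (nat_lit 27) .nil)))) .nil))))))))

noncomputable def tv771 : DT := (.nd (nat_lit 0) (.nd (nat_lit 1) (.nd (nat_lit 2) (.nd (nat_lit 3) (.nd (nat_lit 4) (.nd (nat_lit 5) 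
(.lf (nat_lit 55808) (.g (nat_lit 1453) (.e (nat_lit 1401) (nat_lit 106) (.e (nat_lit 319531) (nat_lit 16) (.e (nat_lit 286748) (nat_lit 9) (.e (nat_lit 336389) (nat_lit 27) (.e (nat_lit 426181) (nat_lit 8) .nil))))) .nil)) 
(.lf (nat_lit 55840) (.g (nat_lit 2397) (.e (nat_lit 1401) (nat_lit 106) (.e (nat_lit 319531) (nat_lit 16) (.e (nat_lit 286748) (nat_lit 9) (.e (nat_lit 336389) (nat_lit 27) (.e (nat_lit 426213) (nat_lit 9) (.e (nat_lit 426018) (nat_lit 0) (.e (nat_lit 3432) (nat_lit 213) (.e (nat_lit 663554) (nat_lit 0) .nil)))))))) (.g (nat_lit 4) .nil .nil)))) (.nd (nat_lit 5) 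
(.lf (nat_lit 55824) (.g (nat_lit 1949) (.e (nat_lit 1401) (nat_lit 106) (.e (nat_lit 319531) (nat_lit 16) (.e (nat_lit 286748) (nat_lit 9) (.e (nat_lit 336389) (nat_lit 27) (.e (nat_lit 426196) (nat_lit 9) .nil))))) .nil)) 
(.lf (nat_lit 55856) (.g (nat_lit 2019) (.e (nat_lit 1401) (nat_lit 106) (.e (nat_lit 319531) (nat_lit 16) (.e (nat_lit 286748) (nat_lit 9) (.e (nat_lit 336389) (nat_lit 27) (.e (nat_lit 426213) (nat_lit 9) (.e (nat_lit 426047) (nat_lit 0) (.e (nat_lit 3434) (nat_lit 214) (.e (nat_lit 671747) (nat_lit 0) .nil)))))))) (.g (nat_lit 4) .nil .nil))))) (.nd (nat_lit 4) (.nd (nat_lit 5) 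
(.lf (nat_lit 55816) (.g (nat_lit 2857) (.e (nat_lit 1401) (nat_lit 106) (.e (nat_lit 319531) (nat_lit 16) (.e (nat_lit 286748) (nat_lit 9) (.e (nat_lit 336389) (nat_lit 27) (.e (nat_lit 426186) (nat_lit 9) (.e (nat_lit 425986) (nat_lit 0) (.e (nat_lit 3421) (nat_lit 213) (.e (nat_lit 663554) (nat_lit 0) .nil)))))))) (.g (nat_lit 5) .nil .nil))) 
(.lf (nat_lit 55848) (.g (nat_lit 2330) (.e (nat_lit 1401) (nat_lit 106) (.e (nat_lit 319531) (nat_lit 16) (.e (nat_lit 286748) (nat_lit 9) (.e (nat_lit 336389) (nat_lit 27) (.e (nat_lit 426213) (nat_lit 9) (.e (nat_lit 426038) (nat_lit 0) (.e (nat_lit 3437) (nat_lit 214) (.e (nat_lit 671747) (nat_lit 0) .nil)))))))) (.g (nat_lit 4) .nil .nil)))) (.nd (nat_lit 5) 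
(.lf (nat_lit 55832) (.g (nat_lit 1863) (.e (nat_lit 1401) (nat_lit 106) (.e (nat_lit 319531) (nat_lit 16) (.e (nat_lit 286748) (nat_lit 9) (.e (nat_lit 336389) (nat_lit 27) (.e (nat_lit 426204) (nat_lit 9) (.e (nat_lit 426003) (nat_lit 0) (.e (nat_lit 3439) (nat_lit 214) (.e (nat_lit 671748) (nat_lit 0) .nil)))))))) (.g (nat_lit 4) .nil .nil))) 
(.lf (nat_lit 55864) (.g (nat_lit 1963) (.e (nat_lit 1401) (nat_lit 106) (.e (nat_lit 319531) (nat_lit 16) (.e (nat_lit 286748) (nat_lit 9) (.e (nat_lit 336389) (nat_lit 27) (.e (nat_lit 426221) (nat_lit 9) (.e (nat_lit 426022) (nat_lit 0) (.e (nat_lit 3439) (nat_lit 214) (.e (nat_lit 671748) (nat_lit 0) .nil)))))))) (.g (nat_lit 4) .nil .nil)))))) 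
(.nd (nat_lit 3) (.nd (nat_lit 4) (.nd (nat_lit 5) 
(.lf (nat_lit 55812) (.g (nat_lit 2115) (.e (nat_lit 1401) (nat_lit 106) (.e (nat_lit 319531) (nat_lit 16) (.e (nat_lit 286748) (nat_lit 9) (.e (nat_lit 336389) (nat_lit 27) (.e (nat_lit 426182) (nat_lit 8) (.e (nat_lit 417804) (nat_lit 1) (.e (nat_lit 8435) (nat_lit 138) (.e (nat_lit 1006) (nat_lit 81) .nil)))))))) (.g (nat_lit 4) .nil .nil))) 
(.lf (nat_lit 55844) (.g (nat_lit 2224) (.e (nat_lit 1401) (nat_lit 106) (.e (nat_lit 319531) (nat_lit 16) (.e (nat_lit 286748) (nat_lit 9) (.e (nat_lit 336389) (nat_lit 27) (.e (nat_lit 426213) (nat_lit 9) (.e (nat_lit 426033) (nat_lit 0) (.e (nat_lit 3437) (nat_lit 214) (.e (nat_lit 671747) (nat_lit 0) .nil)))))))) (.g (nat_lit 4) .nil .nil)))) (.nd (nat_lit 5) 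
(.lf (nat_lit 55828) (.g (nat_lit 3179) (.e (nat_lit 1401) (nat_lit 106) (.e (nat_lit 319531) (nat_lit 16) (.e (nat_lit 286748) (nat_lit 9) (.e (nat_lit 336389) (nat_lit 27) (.e (nat_lit 426198) (nat_lit 9) (.e (nat_lit 425986) (nat_lit 0) (.e (nat_lit 3421) (nat_lit 213) (.e (nat_lit 663554) (nat_lit 0) .nil)))))))) (.g (nat_lit 5) .nil .nil))) 
(.lf (nat_lit 55860) (.g (nat_lit 1958) (.e (nat_lit 1401) (nat_lit 106) (.e (nat_lit 319531) (nat_lit 16) (.e (nat_lit 286748) (nat_lit 9) (.e (nat_lit 336389) (nat_lit 27) (.e (nat_lit 426213) (nat_lit 9) (.e (nat_lit 426050) (nat_lit 0) (.e (nat_lit 3434) (nat_lit 214) (.e (nat_lit 671747) (nat_lit 0) .nil)))))))) (.g (nat_lit 4) .nil .nil))))) (.nd (nat_lit 4) (.nd (nat_lit 5) 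
(.lf (nat_lit 55820) (.g (nat_lit 1466) (.e (nat_lit 1401) (nat_lit 106) (.e (nat_lit 319531) (nat_lit 16) (.e (nat_lit 286748) (nat_lit 9) (.e (nat_lit 336389) (nat_lit 27) (.e (nat_lit 426190) (nat_lit 9) .nil))))) .nil)) 
(.lf (nat_lit 55852) (.g (nat_lit 2154) (.e (nat_lit 1401) (nat_lit 106) (.e (nat_lit 319531) (nat_lit 16) (.e (nat_lit 286748) (nat_lit 9) (.e (nat_lit 336389) (nat_lit 27) (.e (nat_lit 426213) (nat_lit 9) (.e (nat_lit 426042) (nat_lit 0) (.e (nat_lit 3434) (nat_lit 214) (.e (nat_lit 671747) (nat_lit 0) .nil)))))))) (.g (nat_lit 4) .nil .nil)))) (.nd (nat_lit 5) 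
(.lf (nat_lit 55836) (.g (nat_lit 1888) (.e (nat_lit 1401) (nat_lit 106) (.e (nat_lit 319531) (nat_lit 16) (.e (nat_lit 286748) (nat_lit 9) (.e (nat_lit 336389) (nat_lit 27) (.e (nat_lit 426213) (nat_lit 9) .nil))))) .nil)) 
(.lf (nat_lit 55868) (.g (nat_lit 2101) (.e (nat_lit 1401) (nat_lit 106) (.e (nat_lit 319531) (nat_lit 16) (.e (nat_lit 286748) (nat_lit 9) (.e (nat_lit 336389) (nat_lit 27) (.e (nat_lit 426223) (nat_lit 9) (.e (nat_lit 426025) (nat_lit 0) (.e (nat_lit 3430) (nat_lit 213) (.e (nat_lit 663554) (nat_lit 0) .nil)))))))) (.g (nat_lit 4) .nil .nil))))))) 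
(.nd (nat_lit 2) (.nd (nat_lit 3) (.nd (nat_lit 4) (.nd (nat_lit 5) 
(.lf (nat_lit 55810) (.g (nat_lit 1925) (.e (nat_lit 1401) (nat_lit 106) (.e (nat_lit 319531) (nat_lit 16) (.e (nat_lit 286748) (nat_lit 9) (.e (nat_lit 336389) (nat_lit 27) (.e (nat_lit 426182) (nat_lit 8) (.e (nat_lit 417792) (nat_lit 0) (.e (nat_lit 706) (nat_lit 62) (.e (nat_lit 671748) (nat_lit 0) .nil)))))))) (.g (nat_lit 4) .nil .nil))) 
(.lf (nat_lit 55842) (.g (nat_lit 2450) (.e (nat_lit 1401) (nat_lit 106) (.e (nat_lit 319531) (nat_lit 16) (.e (nat_lit 286748) (nat_lit 9) (.e (nat_lit 336389) (nat_lit 27) (.e (nat_lit 426213) (nat_lit 9) (.e (nat_lit 426025) (nat_lit 0) (.e (nat_lit 3439) (nat_lit 214) (.e (nat_lit 671748) (nat_lit 0) .nil)))))))) (.g (nat_lit 5) .nil .nil)))) (.nd (nat_lit 5) 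
(.lf (nat_lit 55826) (.g (nat_lit 2595) (.e (nat_lit 1401) (nat_lit 106) (.e (nat_lit 319531) (nat_lit 16) (.e (nat_lit 286748) (nat_lit 9) (.e (nat_lit 336389) (nat_lit 27) (.e (nat_lit 426197) (nat_lit 9) (.e (nat_lit 425986) (nat_lit 0) (.e (nat_lit 3421) (nat_lit 213) (.e (nat_lit 663554) (nat_lit 0) .nil)))))))) (.g (nat_lit 4) .nil .nil))) 
(.lf (nat_lit 55858) (.g (nat_lit 2112) (.e (nat_lit 1401) (nat_lit 106) (.e (nat_lit 319531) (nat_lit 16) (.e (nat_lit 286748) (nat_lit 9) (.e (nat_lit 336389) (nat_lit 27) (.e (nat_lit 426213) (nat_lit 9) (.e (nat_lit 426048) (nat_lit 0) (.e (nat_lit 3437) (nat_lit 214) (.e (nat_lit 671747) (nat_lit 0) .nil)))))))) (.g (nat_lit 4) .nil .nil))))) (.nd (nat_lit 4) (.nd (nat_lit 5) 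
(.lf (nat_lit 55818) (.g (nat_lit 1966) (.e (nat_lit 1401) (nat_lit 106) (.e (nat_lit 319531) (nat_lit 16) (.e (nat_lit 286748) (nat_lit 9) (.e (nat_lit 336389) (nat_lit 27) (.e (nat_lit 426187) (nat_lit 9) .nil))))) .nil)) 
(.lf (nat_lit 55850) (.g (nat_lit 2230) (.e (nat_lit 1401) (nat_lit 106) (.e (nat_lit 319531) (nat_lit 16) (.e (nat_lit 286748) (nat_lit 9) (.e (nat_lit 336389) (nat_lit 27) (.e (nat_lit 426213) (nat_lit 9) (.e (nat_lit 426040) (nat_lit 0) (.e (nat_lit 3437) (nat_lit 214) (.e (nat_lit 671747) (nat_lit 0) .nil)))))))) (.g (nat_lit 4) .nil .nil)))) (.nd (nat_lit 5) 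
(.lf (nat_lit 55834) (.g (nat_lit 2777) (.e (nat_lit 1401) (nat_lit 106) (.e (nat_lit 319531) (nat_lit 16) (.e (nat_lit 286748) (nat_lit 9) (.e (nat_lit 336389) (nat_lit 27) (.e (nat_lit 426204) (nat_lit 9) (.e (nat_lit 426025) (nat_lit 0) (.e (nat_lit 3439) (nat_lit 214) (.e (nat_lit 671748) (nat_lit 0) .nil)))))))) (.g (nat_lit 6) .nil .nil))) 
(.lf (nat_lit 55866) (.g (nat_lit 2092) (.e (nat_lit 1401) (nat_lit 106) (.e (nat_lit 319531) (nat_lit 16) (.e (nat_lit 286748) (nat_lit 9) (.e (nat_lit 336389) (nat_lit 27) (.e (nat_lit 426222) (nat_lit 9) (.e (nat_lit 426043) (nat_lit 0) (.e (nat_lit 3437) (nat_lit 214) (.e (nat_lit 671747) (nat_lit 0) .nil)))))))) (.g (nat_lit 4) .nil .nil)))))) 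
(.nd (nat_lit 3) (.nd (nat_lit 4) (.nd (nat_lit 5) 
(.lf (nat_lit 55814) (.g (nat_lit 1953) (.e (nat_lit 1401) (nat_lit 106) (.e (nat_lit 319531) (nat_lit 16) (.e (nat_lit 286748) (nat_lit 9) (.e (nat_lit 336389) (nat_lit 27) (.e (nat_lit 426185) (nat_lit 9) .nil))))) .nil)) 
(.lf (nat_lit 55846) (.g (nat_lit 2204) (.e (nat_lit 1401) (nat_lit 106) (.e (nat_lit 319531) (nat_lit 16) (.e (nat_lit 286748) (nat_lit 9) (.e (nat_lit 336389) (nat_lit 27) (.e (nat_lit 426213) (nat_lit 9) (.e (nat_lit 426037) (nat_lit 0) (.e (nat_lit 3437) (nat_lit 214) (.e (nat_lit 671747) (nat_lit 0) .nil)))))))) (.g (nat_lit 4) .nil .nil)))) (.nd (nat_lit 5) 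
(.lf (nat_lit 55830) (.g (nat_lit 3089) (.e (nat_lit 1401) (nat_lit 106) (.e (nat_lit 319531) (nat_lit 16) (.e (nat_lit 286748) (nat_lit 9) (.e (nat_lit 336389) (nat_lit 27) (.e (nat_lit 426200) (nat_lit 9) (.e (nat_lit 425986) (nat_lit 0) (.e (nat_lit 3419) (nat_lit 213) (.e (nat_lit 663554) (nat_lit 0) .nil)))))))) (.g (nat_lit 6) .nil .nil))) 
(.lf (nat_lit 55862) (.g (nat_lit 2185) (.e (nat_lit 1401) (nat_lit 106) (.e (nat_lit 319531) (nat_lit 16) (.e (nat_lit 286748) (nat_lit 9) (.e (nat_lit 336389) (nat_lit 27) (.e (nat_lit 426220) (nat_lit 9) (.e (nat_lit 426006) (nat_lit 0) (.e (nat_lit 3439) (nat_lit 214) (.e (nat_lit 671748) (nat_lit 0) .nil)))))))) (.g (nat_lit 4) .nil .nil))))) (.nd (nat_lit 4) (.nd (nat_lit 5) 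
(.lf (nat_lit 55822) (.g (nat_lit 2584) (.e (nat_lit 1401) (nat_lit 106) (.e (nat_lit 319531) (nat_lit 16) (.e (nat_lit 286748) (nat_lit 9) (.e (nat_lit 336389) (nat_lit 27) (.e (nat_lit 426190) (nat_lit 9) (.e (nat_lit 425998) (nat_lit 0) (.e (nat_lit 3430) (nat_lit 213) (.e (nat_lit 663554) (nat_lit 0) .nil)))))))) (.g (nat_lit 5) .nil .nil))) 
(.lf (nat_lit 55854) (.g (nat_lit 2235) (.e (nat_lit 1401) (nat_lit 106) (.e (nat_lit 319531) (nat_lit 16) (.e (nat_lit 286748) (nat_lit 9) (.e (nat_lit 336389) (nat_lit 27) (.e (nat_lit 426213) (nat_lit 9) (.e (nat_lit 426045) (nat_lit 0) (.e (nat_lit 3437) (nat_lit 214) (.e (nat_lit 671747) (nat_lit 0) .nil)))))))) (.g (nat_lit 4) .nil .nil)))) (.nd (nat_lit 5) 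
(.lf (nat_lit 55838) (.g (nat_lit 2213) (.e (nat_lit 1401) (nat_lit 106) (.e (nat_lit 319531) (nat_lit 16) (.e (nat_lit 286748) (nat_lit 9) (.e (nat_lit 336389) (nat_lit 27) (.e (nat_lit 426213) (nat_lit 9) (.e (nat_lit 426006) (nat_lit 0) (.e (nat_lit 3439) (nat_lit 214) (.e (nat_lit 671748) (nat_lit 0) .nil)))))))) (.g (nat_lit 4) .nil .nil))) 
(.lf (nat_lit 55870) (.g (nat_lit 2544) (.e (nat_lit 1401) (nat_lit 106) (.e (nat_lit 319531) (nat_lit 16) (.e (nat_lit 286748) (nat_lit 9) (.e (nat_lit 336389) (nat_lit 27) (.e (nat_lit 426223) (nat_lit 9) (.e (nat_lit 426043) (nat_lit 0) (.e (nat_lit 3437) (nat_lit 214) (.e (nat_lit 671747) (nat_lit 0) .nil)))))))) (.g (nat_lit 5) .nil .nil)))))))) 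
(.nd (nat_lit 1) (.nd (nat_lit 2) (.nd (nat_lit 3) (.nd (nat_lit 4) (.nd (nat_lit 5) 
(.lf (nat_lit 55809) (.g (nat_lit 1638) (.e (nat_lit 1401) (nat_lit 106) (.e (nat_lit 319531) (nat_lit 16) (.e (nat_lit 286748) (nat_lit 9) (.e (nat_lit 336389) (nat_lit 27) (.e (nat_lit 426182) (nat_lit 8) .nil))))) .nil)) 
(.lf (nat_lit 55841) (.g (nat_lit 2478) (.e (nat_lit 1401) (nat_lit 106) (.e (nat_lit 319531) (nat_lit 16) (.e (nat_lit 286748) (nat_lit 9) (.e (nat_lit 336389) (nat_lit 27) (.e (nat_lit 426213) (nat_lit 9) (.e (nat_lit 426025) (nat_lit 0) (.e (nat_lit 3430) (nat_lit 213) (.e (nat_lit 663554) (nat_lit 0) .nil)))))))) (.g (nat_lit 4) .nil .nil)))) (.nd (nat_lit 5) 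
(.lf (nat_lit 55825) (.g (nat_lit 2880) (.e (nat_lit 1401) (nat_lit 106) (.e (nat_lit 319531) (nat_lit 16) (.e (nat_lit 286748) (nat_lit 9) (.e (nat_lit 336389) (nat_lit 27) (.e (nat_lit 426196) (nat_lit 9) (.e (nat_lit 425986) (nat_lit 0) (.e (nat_lit 3421) (nat_lit 213) (.e (nat_lit 663554) (nat_lit 0) .nil)))))))) (.g (nat_lit 5) .nil .nil))) 
(.lf (nat_lit 55857) (.g (nat_lit 2373) (.e (nat_lit 1401) (nat_lit 106) (.e (nat_lit 319531) (nat_lit 16) (.e (nat_lit 286748) (nat_lit 9) (.e (nat_lit 336389) (nat_lit 27) (.e (nat_lit 426213) (nat_lit 9) (.e (nat_lit 426047) (nat_lit 0) (.e (nat_lit 3437) (nat_lit 214) (.e (nat_lit 671747) (nat_lit 0) .nil)))))))) (.g (nat_lit 5) .nil .nil))))) (.nd (nat_lit 4) (.nd (nat_lit 5) 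
(.lf (nat_lit 55817) (.g (nat_lit 1979) (.e (nat_lit 1401) (nat_lit 106) (.e (nat_lit 319531) (nat_lit 16) (.e (nat_lit 286748) (nat_lit 9) (.e (nat_lit 336389) (nat_lit 27) (.e (nat_lit 426186) (nat_lit 9) (.e (nat_lit 426366) (nat_lit 15) (.e (nat_lit 2251) (nat_lit 147) (.e (nat_lit 745475) (nat_lit 0) .nil)))))))) (.g (nat_lit 4) .nil .nil))) 
(.lf (nat_lit 55849) (.g (nat_lit 1893) (.e (nat_lit 1401) (nat_lit 106) (.e (nat_lit 319531) (nat_lit 16) (.e (nat_lit 286748) (nat_lit 9) (.e (nat_lit 336389) (nat_lit 27) (.e (nat_lit 426213) (nat_lit 9) (.e (nat_lit 426040) (nat_lit 0) (.e (nat_lit 3434) (nat_lit 214) (.e (nat_lit 671747) (nat_lit 0) .nil)))))))) (.g (nat_lit 4) .nil .nil)))) (.nd (nat_lit 5) 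
(.lf (nat_lit 55833) (.g (nat_lit 2344) (.e (nat_lit 1401) (nat_lit 106) (.e (nat_lit 319531) (nat_lit 16) (.e (nat_lit 286748) (nat_lit 9) (.e (nat_lit 336389) (nat_lit 27) (.e (nat_lit 426204) (nat_lit 9) (.e (nat_lit 426023) (nat_lit 0) (.e (nat_lit 3439) (nat_lit 214) (.e (nat_lit 671748) (nat_lit 0) .nil)))))))) (.g (nat_lit 5) .nil .nil))) 
(.lf (nat_lit 55865) (.g (nat_lit 1966) (.e (nat_lit 1401) (nat_lit 106) (.e (nat_lit 319531) (nat_lit 16) (.e (nat_lit 286748) (nat_lit 9) (.e (nat_lit 336389) (nat_lit 27) (.e (nat_lit 426222) (nat_lit 9) .nil))))) .nil))))) (.nd (nat_lit 3) (.nd (nat_lit 4) (.nd (nat_lit 5) 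
(.lf (nat_lit 55813) (.g (nat_lit 2214) (.e (nat_lit 1401) (nat_lit 106) (.e (nat_lit 319531) (nat_lit 16) (.e (nat_lit 286748) (nat_lit 9) (.e (nat_lit 336389) (nat_lit 27) (.e (nat_lit 426182) (nat_lit 8) (.e (nat_lit 417804) (nat_lit 1) (.e (nat_lit 8439) (nat_lit 138) (.e (nat_lit 993) (nat_lit 81) .nil)))))))) (.g (nat_lit 4) .nil .nil))) 
(.lf (nat_lit 55845) (.g (nat_lit 2219) (.e (nat_lit 1401) (nat_lit 106) (.e (nat_lit 319531) (nat_lit 16) (.e (nat_lit 286748) (nat_lit 9) (.e (nat_lit 336389) (nat_lit 27) (.e (nat_lit 426213) (nat_lit 9) (.e (nat_lit 426036) (nat_lit 0) (.e (nat_lit 3437) (nat_lit 214) (.e (nat_lit 671747) (nat_lit 0) .nil)))))))) (.g (nat_lit 4) .nil .nil)))) (.nd (nat_lit 5) 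
(.lf (nat_lit 55829) (.g (nat_lit 2241) (.e (nat_lit 1401) (nat_lit 106) (.e (nat_lit 319531) (nat_lit 16) (.e (nat_lit 286748) (nat_lit 9) (.e (nat_lit 336389) (nat_lit 27) (.e (nat_lit 426199) (nat_lit 9) (.e (nat_lit 425986) (nat_lit 0) (.e (nat_lit 3419) (nat_lit 213) (.e (nat_lit 663554) (nat_lit 0) .nil)))))))) (.g (nat_lit 5) .nil .nil))) 
(.lf (nat_lit 55861) (.g (nat_lit 1966) (.e (nat_lit 1401) (nat_lit 106) (.e (nat_lit 319531) (nat_lit 16) (.e (nat_lit 286748) (nat_lit 9) (.e (nat_lit 336389) (nat_lit 27) (.e (nat_lit 426220) (nat_lit 9) .nil))))) .nil)))) (.nd (nat_lit 4) (.nd (nat_lit 5) 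
(.lf (nat_lit 55821) (.g (nat_lit 2591) (.e (nat_lit 1401) (nat_lit 106) (.e (nat_lit 319531) (nat_lit 16) (.e (nat_lit 286748) (nat_lit 9) (.e (nat_lit 336389) (nat_lit 27) (.e (nat_lit 426190) (nat_lit 9) (.e (nat_lit 425986) (nat_lit 0) (.e (nat_lit 3419) (nat_lit 213) (.e (nat_lit 663554) (nat_lit 0) .nil)))))))) (.g (nat_lit 5) .nil .nil))) 
(.lf (nat_lit 55853) (.g (nat_lit 2486) (.e (nat_lit 1401) (nat_lit 106) (.e (nat_lit 319531) (nat_lit 16) (.e (nat_lit 286748) (nat_lit 9) (.e (nat_lit 336389) (nat_lit 27) (.e (nat_lit 426213) (nat_lit 9) (.e (nat_lit 426042) (nat_lit 0) (.e (nat_lit 3437) (nat_lit 214) (.e (nat_lit 671747) (nat_lit 0) .nil)))))))) (.g (nat_lit 5) .nil .nil)))) (.nd (nat_lit 5) 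
(.lf (nat_lit 55837) (.g (nat_lit 2144) (.e (nat_lit 1401) (nat_lit 106) (.e (nat_lit 319531) (nat_lit 16) (.e (nat_lit 286748) (nat_lit 9) (.e (nat_lit 336389) (nat_lit 27) (.e (nat_lit 426213) (nat_lit 9) (.e (nat_lit 426003) (nat_lit 0) (.e (nat_lit 3434) (nat_lit 214) (.e (nat_lit 671747) (nat_lit 0) .nil)))))))) (.g (nat_lit 4) .nil .nil))) 
(.lf (nat_lit 55869) (.g (nat_lit 2073) (.e (nat_lit 1401) (nat_lit 106) (.e (nat_lit 319531) (nat_lit 16) (.e (nat_lit 286748) (nat_lit 9) (.e (nat_lit 336389) (nat_lit 27) (.e (nat_lit 426223) (nat_lit 9) (.e (nat_lit 426025) (nat_lit 0) (.e (nat_lit 3439) (nat_lit 214) (.e (nat_lit 671748) (nat_lit 0) .nil)))))))) (.g (nat_lit 4) .nil .nil))))))) 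
(.nd (nat_lit 2) (.nd (nat_lit 3) (.nd (nat_lit 4) (.nd (nat_lit 5) 
(.lf (nat_lit 55811) (.g (nat_lit 2061) (.e (nat_lit 1401) (nat_lit 106) (.e (nat_lit 319531) (nat_lit 16) (.e (nat_lit 286748) (nat_lit 9) (.e (nat_lit 336389) (nat_lit 27) (.e (nat_lit 426182) (nat_lit 8) (.e (nat_lit 417792) (nat_lit 0) (.e (nat_lit 709) (nat_lit 62) (.e (nat_lit 671747) (nat_lit 0) .nil)))))))) (.g (nat_lit 4) .nil .nil))) 
(.lf (nat_lit 55843) (.g (nat_lit 1944) (.e (nat_lit 1401) (nat_lit 106) (.e (nat_lit 319531) (nat_lit 16) (.e (nat_lit 286748) (nat_lit 9) (.e (nat_lit 336389) (nat_lit 27) (.e (nat_lit 426213) (nat_lit 9) (.e (nat_lit 426032) (nat_lit 0) (.e (nat_lit 3434) (nat_lit 214) (.e (nat_lit 671747) (nat_lit 0) .nil)))))))) (.g (nat_lit 4) .nil .nil)))) (.nd (nat_lit 5) 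
(.lf (nat_lit 55827) (.g (nat_lit 1966) (.e (nat_lit 1401) (nat_lit 106) (.e (nat_lit 319531) (nat_lit 16) (.e (nat_lit 286748) (nat_lit 9) (.e (nat_lit 336389) (nat_lit 27) (.e (nat_lit 426198) (nat_lit 9) .nil))))) .nil)) 
(.lf (nat_lit 55859) (.g (nat_lit 1993) (.e (nat_lit 1401) (nat_lit 106) (.e (nat_lit 319531) (nat_lit 16) (.e (nat_lit 286748) (nat_lit 9) (.e (nat_lit 336389) (nat_lit 27) (.e (nat_lit 426213) (nat_lit 9) (.e (nat_lit 426049) (nat_lit 0) (.e (nat_lit 3434) (nat_lit 214) (.e (nat_lit 671747) (nat_lit 0) .nil)))))))) (.g (nat_lit 4) .nil .nil))))) (.nd (nat_lit 4) (.nd (nat_lit 5) 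
(.lf (nat_lit 55819) (.g (nat_lit 2642) (.e (nat_lit 1401) (nat_lit 106) (.e (nat_lit 319531) (nat_lit 16) (.e (nat_lit 286748) (nat_lit 9) (.e (nat_lit 336389) (nat_lit 27) (.e (nat_lit 426189) (nat_lit 9) (.e (nat_lit 425986) (nat_lit 0) (.e (nat_lit 3421) (nat_lit 213) (.e (nat_lit 663554) (nat_lit 0) .nil)))))))) (.g (nat_lit 4) .nil .nil))) 
(.lf (nat_lit 55851) (.g (nat_lit 2371) (.e (nat_lit 1401) (nat_lit 106) (.e (nat_lit 319531) (nat_lit 16) (.e (nat_lit 286748) (nat_lit 9) (.e (nat_lit 336389) (nat_lit 27) (.e (nat_lit 426213) (nat_lit 9) (.e (nat_lit 426041) (nat_lit 0) (.e (nat_lit 3437) (nat_lit 214) (.e (nat_lit 671747) (nat_lit 0) .nil)))))))) (.g (nat_lit 5) .nil .nil)))) (.nd (nat_lit 5) 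
(.lf (nat_lit 55835) (.g (nat_lit 2833) (.e (nat_lit 1401) (nat_lit 106) (.e (nat_lit 319531) (nat_lit 16) (.e (nat_lit 286748) (nat_lit 9) (.e (nat_lit 336389) (nat_lit 27) (.e (nat_lit 426204) (nat_lit 9) (.e (nat_lit 426043) (nat_lit 0) (.e (nat_lit 3437) (nat_lit 214) (.e (nat_lit 671747) (nat_lit 0) .nil)))))))) (.g (nat_lit 6) .nil .nil))) 
(.lf (nat_lit 55867) (.g (nat_lit 1966) (.e (nat_lit 1401) (nat_lit 106) (.e (nat_lit 319531) (nat_lit 16) (.e (nat_lit 286748) (nat_lit 9) (.e (nat_lit 336389) (nat_lit 27) (.e (nat_lit 426223) (nat_lit 9) .nil))))) .nil))))) (.nd (nat_lit 3) (.nd (nat_lit 4) (.nd (nat_lit 5) 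
(.lf (nat_lit 55815) (.g (nat_lit 1948) (.e (nat_lit 1401) (nat_lit 106) (.e (nat_lit 319531) (nat_lit 16) (.e (nat_lit 286748) (nat_lit 9) (.e (nat_lit 336389) (nat_lit 27) (.e (nat_lit 426186) (nat_lit 9) .nil))))) .nil)) 
(.lf (nat_lit 55847) (.g (nat_lit 1990) (.e (nat_lit 1401) (nat_lit 106) (.e (nat_lit 319531) (nat_lit 16) (.e (nat_lit 286748) (nat_lit 9) (.e (nat_lit 336389) (nat_lit 27) (.e (nat_lit 426213) (nat_lit 9) (.e (nat_lit 426038) (nat_lit 0) (.e (nat_lit 3434) (nat_lit 214) (.e (nat_lit 671747) (nat_lit 0) .nil)))))))) (.g (nat_lit 4) .nil .nil)))) (.nd (nat_lit 5) 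
(.lf (nat_lit 55831) (.g (nat_lit 1686) (.e (nat_lit 1401) (nat_lit 106) (.e (nat_lit 319531) (nat_lit 16) (.e (nat_lit 286748) (nat_lit 9) (.e (nat_lit 336389) (nat_lit 27) (.e (nat_lit 426204) (nat_lit 9) .nil))))) .nil)) 
(.lf (nat_lit 55863) (.g (nat_lit 1957) (.e (nat_lit 1401) (nat_lit 106) (.e (nat_lit 319531) (nat_lit 16) (.e (nat_lit 286748) (nat_lit 9) (.e (nat_lit 336389) (nat_lit 27) (.e (nat_lit 426221) (nat_lit 9) .nil))))) .nil)))) (.nd (nat_lit 4) (.nd (nat_lit 5) 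
(.lf (nat_lit 55823) (.g (nat_lit 1905) (.e (nat_lit 1401) (nat_lit 106) (.e (nat_lit 319531) (nat_lit 16) (.e (nat_lit 286748) (nat_lit 9) (.e (nat_lit 336389) (nat_lit 27) (.e (nat_lit 426190) (nat_lit 9) (.e (nat_lit 425998) (nat_lit 0) (.e (nat_lit 3439) (nat_lit 214) (.e (nat_lit 671747) (nat_lit 0) .nil)))))))) (.g (nat_lit 4) .nil .nil))) 
(.lf (nat_lit 55855) (.g (nat_lit 2207) (.e (nat_lit 1401) (nat_lit 106) (.e (nat_lit 319531) (nat_lit 16) (.e (nat_lit 286748) (nat_lit 9) (.e (nat_lit 336389) (nat_lit 27) (.e (nat_lit 426213) (nat_lit 9) (.e (nat_lit 426046) (nat_lit 0) (.e (nat_lit 3437) (nat_lit 214) (.e (nat_lit 671747) (nat_lit 0) .nil)))))))) (.g (nat_lit 4) .nil .nil)))) (.nd (nat_lit 5) 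
(.lf (nat_lit 55839) (.g (nat_lit 1984) (.e (nat_lit 1401) (nat_lit 106) (.e (nat_lit 319531) (nat_lit 16) (.e (nat_lit 286748) (nat_lit 9) (.e (nat_lit 336389) (nat_lit 27) (.e (nat_lit 426213) (nat_lit 9) (.e (nat_lit 426017) (nat_lit 0) (.e (nat_lit 3434) (nat_lit 214) (.e (nat_lit 671747) (nat_lit 0) .nil)))))))) (.g (nat_lit 4) .nil .nil))) 
(.lf (nat_lit 55871) (.g (nat_lit 1921) (.e (nat_lit 1401) (nat_lit 106) (.e (nat_lit 319531) (nat_lit 16) (.e (nat_lit 286748) (nat_lit 9) (.e (nat_lit 336389) (nat_lit 27) (.e (nat_lit 426258) (nat_lit 9) .nil))))) .nil))))))))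

noncomputable def tv772 : DT := (.nd (nat_lit 0) (.nd (nat_lit 1) (.nd (nat_lit 2) (.nd (nat_lit 3) (.nd (nat_lit 4) (.nd (nat_lit 5) 
(.lf (nat_lit 55872) (.g (nat_lit 2667) (.e (nat_lit 1401) (nat_lit 106) (.e (nat_lit 319531) (nat_lit 16) (.e (nat_lit 286748) (nat_lit 9) (.e (nat_lit 336389) (nat_lit 27) (.e (nat_lit 426258) (nat_lit 9) (.e (nat_lit 425984) (nat_lit 0) (.e (nat_lit 7936) (nat_lit 214) (.e (nat_lit 671747) (nat_lit 0) .nil)))))))) (.g (nat_lit 5) .nil .nil))) 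
(.lf (nat_lit 55904) (.g (nat_lit 1722) (.e (nat_lit 1401) (nat_lit 106) (.e (nat_lit 319531) (nat_lit 16) (.e (nat_lit 286748) (nat_lit 9) (.e (nat_lit 336389) (nat_lit 27) (.e (nat_lit 426300) (nat_lit 11) (.e (nat_lit 458771) (nat_lit 18) (.e (nat_lit 5861) (nat_lit 320) (.e (nat_lit 1013) (nat_lit 81) .nil)))))))) (.g (nat_lit 4) .nil .nil)))) (.nd (nat_lit 5) 
(.lf (nat_lit 55888) (.g (nat_lit 3558) (.e (nat_lit 1401) (nat_lit 106) (.e (nat_lit 319531) (nat_lit 16) (.e (nat_lit 286748) (nat_lit 9) (.e (nat_lit 336389) (nat_lit 27) (.e (nat_lit 426278) (nat_lit 10) (.e (nat_lit 434275) (nat_lit 39) (.e (nat_lit 663554) (nat_lit 0) .nil))))))) (.g (nat_lit 7) .nil .nil))) 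
(.lf (nat_lit 55920) (.g (nat_lit 1775) (.e (nat_lit 1401) (nat_lit 106) (.e (nat_lit 319531) (nat_lit 16) (.e (nat_lit 286748) (nat_lit 9) (.e (nat_lit 336389) (nat_lit 27) (.e (nat_lit 426308) (nat_lit 12) (.e (nat_lit 475155) (nat_lit 21) (.e (nat_lit 6748) (nat_lit 365) (.e (nat_lit 1013) (nat_lit 81) .nil)))))))) (.g (nat_lit 4) .nil .nil))))) (.nd (nat_lit 4) (.nd (nat_lit 5) 
(.lf (nat_lit 55880) (.g (nat_lit 2127) (.e (nat_lit 1401) (nat_lit 106) (.e (nat_lit 319531) (nat_lit 16) (.e (nat_lit 286748) (nat_lit 9) (.e (nat_lit 336389) (nat_lit 27) (.e (nat_lit 426265) (nat_lit 9) (.e (nat_lit 426100) (nat_lit 1) (.e (nat_lit 164380) (nat_lit 254) (.e (nat_lit 1007) (nat_lit 81) .nil)))))))) (.g (nat_lit 4) .nil .nil))) 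
(.lf (nat_lit 55912) (.g (nat_lit 2023) (.e (nat_lit 1401) (nat_lit 106) (.e (nat_lit 319531) (nat_lit 16) (.e (nat_lit 286748) (nat_lit 9) (.e (nat_lit 336389) (nat_lit 27) (.e (nat_lit 426300) (nat_lit 11) (.e (nat_lit 458774) (nat_lit 18) (.e (nat_lit 5902) (nat_lit 320) (.e (nat_lit 992) (nat_lit 81) .nil)))))))) (.g (nat_lit 4) .nil .nil)))) (.nd (nat_lit 5) 
(.lf (nat_lit 55896) (.g (nat_lit 2096) (.e (nat_lit 1401) (nat_lit 106) (.e (nat_lit 319531) (nat_lit 16) (.e (nat_lit 286748) (nat_lit 9) (.e (nat_lit 336389) (nat_lit 27) (.e (nat_lit 426295) (nat_lit 11) (.e (nat_lit 458807) (nat_lit 40) (.e (nat_lit 671747) (nat_lit 0) .nil))))))) (.g (nat_lit 4) .nil .nil))) 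
(.lf (nat_lit 55928) (.g (nat_lit 2389) (.e (nat_lit 1401) (nat_lit 106) (.e (nat_lit 319531) (nat_lit 16) (.e (nat_lit 286759) (nat_lit 12) (.e (nat_lit 385088) (nat_lit 47) (.e (nat_lit 761910) (nat_lit 17) (.e (nat_lit 188160) (nat_lit 32) .nil)))))) (.g (nat_lit 4) .nil .nil)))))) (.nd (nat_lit 3) (.nd (nat_lit 4) (.nd (nat_lit 5) 
(.lf (nat_lit 55876) (.g (nat_lit 2822) (.e (nat_lit 1401) (nat_lit 106) (.e (nat_lit 319531) (nat_lit 16) (.e (nat_lit 286748) (nat_lit 9) (.e (nat_lit 336389) (nat_lit 27) (.e (nat_lit 426263) (nat_lit 9) (.e (nat_lit 426011) (nat_lit 0) (.e (nat_lit 3432) (nat_lit 213) (.e (nat_lit 663554) (nat_lit 0) .nil)))))))) (.g (nat_lit 5) .nil .nil))) 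
(.lf (nat_lit 55908) (.g (nat_lit 2147) (.e (nat_lit 1401) (nat_lit 106) (.e (nat_lit 319531) (nat_lit 16) (.e (nat_lit 286748) (nat_lit 9) (.e (nat_lit 336389) (nat_lit 27) (.e (nat_lit 426300) (nat_lit 11) (.e (nat_lit 458771) (nat_lit 18) (.e (nat_lit 5916) (nat_lit 320) (.e (nat_lit 1010) (nat_lit 81) .nil)))))))) (.g (nat_lit 4) .nil .nil)))) (.nd (nat_lit 5) 
(.lf (nat_lit 55892) (.g (nat_lit 3449) (.e (nat_lit 1401) (nat_lit 106) (.e (nat_lit 319531) (nat_lit 16) (.e (nat_lit 286748) (nat_lit 9) (.e (nat_lit 336389) (nat_lit 27) (.e (nat_lit 426287) (nat_lit 10) (.e (nat_lit 434276) (nat_lit 39) (.e (nat_lit 663554) (nat_lit 0) .nil))))))) (.g (nat_lit 0) .nil .nil))) 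
(.lf (nat_lit 55924) (.g (nat_lit 4038) (.e (nat_lit 1401) (nat_lit 106) (.e (nat_lit 319531) (nat_lit 16) (.e (nat_lit 286748) (nat_lit 9) (.e (nat_lit 336389) (nat_lit 27) (.e (nat_lit 426308) (nat_lit 12) (.e (nat_lit 475221) (nat_lit 45) (.e (nat_lit 745475) (nat_lit 0) .nil))))))) (.g (nat_lit 0) .nil .nil))))) (.nd (nat_lit 4) (.nd (nat_lit 5) 
(.lf (nat_lit 55884) (.g (nat_lit 3530) (.e (nat_lit 1401) (nat_lit 106) (.e (nat_lit 319531) (nat_lit 16) (.e (nat_lit 286748) (nat_lit 9) (.e (nat_lit 336389) (nat_lit 27) (.e (nat_lit 426275) (nat_lit 10) (.e (nat_lit 434276) (nat_lit 39) (.e (nat_lit 663554) (nat_lit 0) .nil))))))) (.g (nat_lit 7) .nil .nil))) 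
(.lf (nat_lit 55916) (.g (nat_lit 1970) (.e (nat_lit 1401) (nat_lit 106) (.e (nat_lit 319531) (nat_lit 16) (.e (nat_lit 286748) (nat_lit 9) (.e (nat_lit 336389) (nat_lit 27) (.e (nat_lit 426300) (nat_lit 11) (.e (nat_lit 466688) (nat_lit 18) (.e (nat_lit 5906) (nat_lit 320) (.e (nat_lit 993) (nat_lit 81) .nil)))))))) (.g (nat_lit 4) .nil .nil)))) (.nd (nat_lit 5) 
(.lf (nat_lit 55900) (.g (nat_lit 2616) (.e (nat_lit 1401) (nat_lit 106) (.e (nat_lit 319531) (nat_lit 16) (.e (nat_lit 286748) (nat_lit 9) (.e (nat_lit 336389) (nat_lit 27) (.e (nat_lit 426299) (nat_lit 11) (.e (nat_lit 458807) (nat_lit 40) (.e (nat_lit 671747) (nat_lit 0) .nil))))))) (.g (nat_lit 5) .nil .nil))) 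
(.lf (nat_lit 55932) (.g (nat_lit 1845) (.e (nat_lit 1401) (nat_lit 106) (.e (nat_lit 319531) (nat_lit 16) (.e (nat_lit 286761) (nat_lit 13) (.e (nat_lit 393234) (nat_lit 17) (.e (nat_lit 7065) (nat_lit 377) .nil))))) .nil)))))) (.nd (nat_lit 2) (.nd (nat_lit 3) (.nd (nat_lit 4) (.nd (nat_lit 5) 
(.lf (nat_lit 55874) (.g (nat_lit 1999) (.e (nat_lit 1401) (nat_lit 106) (.e (nat_lit 319531) (nat_lit 16) (.e (nat_lit 286748) (nat_lit 9) (.e (nat_lit 336389) (nat_lit 27) (.e (nat_lit 426258) (nat_lit 9) (.e (nat_lit 426110) (nat_lit 1) (.e (nat_lit 164386) (nat_lit 254) (.e (nat_lit 1006) (nat_lit 81) .nil)))))))) (.g (nat_lit 4) .nil .nil))) 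
(.lf (nat_lit 55906) (.g (nat_lit 2015) (.e (nat_lit 1401) (nat_lit 106) (.e (nat_lit 319531) (nat_lit 16) (.e (nat_lit 286748) (nat_lit 9) (.e (nat_lit 336389) (nat_lit 27) (.e (nat_lit 426300) (nat_lit 11) (.e (nat_lit 458771) (nat_lit 18) (.e (nat_lit 5880) (nat_lit 320) (.e (nat_lit 1010) (nat_lit 81) .nil)))))))) (.g (nat_lit 4) .nil .nil)))) (.nd (nat_lit 5) 
(.lf (nat_lit 55890) (.g (nat_lit 1997) (.e (nat_lit 1401) (nat_lit 106) (.e (nat_lit 319531) (nat_lit 16) (.e (nat_lit 286748) (nat_lit 9) (.e (nat_lit 336389) (nat_lit 27) (.e (nat_lit 426278) (nat_lit 10) (.e (nat_lit 434280) (nat_lit 40) (.e (nat_lit 671747) (nat_lit 0) .nil))))))) (.g (nat_lit 5) .nil .nil))) 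
(.lf (nat_lit 55922) (.g (nat_lit 1772) (.e (nat_lit 1401) (nat_lit 106) (.e (nat_lit 319531) (nat_lit 16) (.e (nat_lit 286748) (nat_lit 9) (.e (nat_lit 336389) (nat_lit 27) (.e (nat_lit 426308) (nat_lit 12) (.e (nat_lit 475161) (nat_lit 21) (.e (nat_lit 6791) (nat_lit 365) (.e (nat_lit 1014) (nat_lit 81) .nil)))))))) (.g (nat_lit 4) .nil .nil))))) (.nd (nat_lit 4) (.nd (nat_lit 5) 
(.lf (nat_lit 55882) (.g (nat_lit 1589) (.e (nat_lit 1401) (nat_lit 106) (.e (nat_lit 319531) (nat_lit 16) (.e (nat_lit 286748) (nat_lit 9) (.e (nat_lit 336389) (nat_lit 27) (.e (nat_lit 426265) (nat_lit 9) (.e (nat_lit 426100) (nat_lit 1) (.e (nat_lit 164381) (nat_lit 254) (.e (nat_lit 1007) (nat_lit 81) .nil)))))))) (.g (nat_lit 4) .nil .nil))) 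
(.lf (nat_lit 55914) (.g (nat_lit 1822) (.e (nat_lit 1401) (nat_lit 106) (.e (nat_lit 319531) (nat_lit 16) (.e (nat_lit 286748) (nat_lit 9) (.e (nat_lit 336389) (nat_lit 27) (.e (nat_lit 426300) (nat_lit 11) (.e (nat_lit 458774) (nat_lit 18) (.e (nat_lit 5902) (nat_lit 320) (.e (nat_lit 1008) (nat_lit 81) .nil)))))))) (.g (nat_lit 4) .nil .nil)))) (.nd (nat_lit 5) 
(.lf (nat_lit 55898) (.g (nat_lit 3146) (.e (nat_lit 1401) (nat_lit 106) (.e (nat_lit 319531) (nat_lit 16) (.e (nat_lit 286748) (nat_lit 9) (.e (nat_lit 336389) (nat_lit 27) (.e (nat_lit 426298) (nat_lit 11) (.e (nat_lit 458807) (nat_lit 40) (.e (nat_lit 671747) (nat_lit 0) .nil))))))) (.g (nat_lit 7) .nil .nil))) 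
(.lf (nat_lit 55930) (.g (nat_lit 371) (.e (nat_lit 1401) (nat_lit 106) (.e (nat_lit 319531) (nat_lit 16) (.e (nat_lit 286761) (nat_lit 13) .nil))) .nil))))) (.nd (nat_lit 3) (.nd (nat_lit 4) (.nd (nat_lit 5) 
(.lf (nat_lit 55878) (.g (nat_lit 1477) (.e (nat_lit 1401) (nat_lit 106) (.e (nat_lit 319531) (nat_lit 16) (.e (nat_lit 286748) (nat_lit 9) (.e (nat_lit 336389) (nat_lit 27) (.e (nat_lit 426265) (nat_lit 9) .nil))))) .nil)) 
(.lf (nat_lit 55910) (.g (nat_lit 1936) (.e (nat_lit 1401) (nat_lit 106) (.e (nat_lit 319531) (nat_lit 16) (.e (nat_lit 286748) (nat_lit 9) (.e (nat_lit 336389) (nat_lit 27) (.e (nat_lit 426300) (nat_lit 11) (.e (nat_lit 458774) (nat_lit 18) (.e (nat_lit 5831) (nat_lit 320) (.e (nat_lit 982) (nat_lit 81) .nil)))))))) (.g (nat_lit 4) .nil .nil)))) (.nd (nat_lit 5) 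
(.lf (nat_lit 55894) (.g (nat_lit 2010) (.e (nat_lit 1401) (nat_lit 106) (.e (nat_lit 319531) (nat_lit 16) (.e (nat_lit 286748) (nat_lit 9) (.e (nat_lit 336389) (nat_lit 27) (.e (nat_lit 426287) (nat_lit 10) (.e (nat_lit 434281) (nat_lit 40) (.e (nat_lit 671747) (nat_lit 0) .nil))))))) (.g (nat_lit 5) .nil .nil))) 
(.lf (nat_lit 55926) (.g (nat_lit 273) (.e (nat_lit 1401) (nat_lit 106) (.e (nat_lit 319531) (nat_lit 16) (.e (nat_lit 286756) (nat_lit 10) .nil))) .nil)))) (.nd (nat_lit 4) (.nd (nat_lit 5) 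
(.lf (nat_lit 55886) (.g (nat_lit 1682) (.e (nat_lit 1401) (nat_lit 106) (.e (nat_lit 319531) (nat_lit 16) (.e (nat_lit 286748) (nat_lit 9) (.e (nat_lit 336389) (nat_lit 27) (.e (nat_lit 426275) (nat_lit 10) (.e (nat_lit 434281) (nat_lit 40) (.e (nat_lit 671747) (nat_lit 0) .nil))))))) (.g (nat_lit 4) .nil .nil))) 
(.lf (nat_lit 55918) (.g (nat_lit 2331) (.e (nat_lit 1401) (nat_lit 106) (.e (nat_lit 319531) (nat_lit 16) (.e (nat_lit 286748) (nat_lit 9) (.e (nat_lit 336389) (nat_lit 27) (.e (nat_lit 426307) (nat_lit 12) (.e (nat_lit 475221) (nat_lit 45) (.e (nat_lit 745476) (nat_lit 0) .nil))))))) (.g (nat_lit 4) .nil .nil)))) (.nd (nat_lit 5) 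
(.lf (nat_lit 55902) (.g (nat_lit 1514) (.e (nat_lit 1401) (nat_lit 106) (.e (nat_lit 319531) (nat_lit 16) (.e (nat_lit 286748) (nat_lit 9) (.e (nat_lit 336389) (nat_lit 27) (.e (nat_lit 426300) (nat_lit 11) .nil))))) .nil)) 
(.lf (nat_lit 55934) (.g (nat_lit 2834) (.e (nat_lit 1401) (nat_lit 106) (.e (nat_lit 319531) (nat_lit 16) (.e (nat_lit 286761) (nat_lit 13) (.e (nat_lit 393234) (nat_lit 17) (.e (nat_lit 7065) (nat_lit 377) (.e (nat_lit 982) (nat_lit 81) (.e (nat_lit 710) (nat_lit 62) (.e (nat_lit 671747) (nat_lit 0) .nil)))))))) (.g (nat_lit 5) .nil .nil)))))))) 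
(.nd (nat_lit 1) (.nd (nat_lit 2) (.nd (nat_lit 3) (.nd (nat_lit 4) (.nd (nat_lit 5) 
(.lf (nat_lit 55873) (.g (nat_lit 2422) (.e (nat_lit 1401) (nat_lit 106) (.e (nat_lit 319531) (nat_lit 16) (.e (nat_lit 286748) (nat_lit 9) (.e (nat_lit 336389) (nat_lit 27) (.e (nat_lit 426258) (nat_lit 9) (.e (nat_lit 425987) (nat_lit 0) (.e (nat_lit 7936) (nat_lit 214) (.e (nat_lit 671747) (nat_lit 0) .nil)))))))) (.g (nat_lit 5) .nil .nil))) 
(.lf (nat_lit 55905) (.g (nat_lit 1621) (.e (nat_lit 1401) (nat_lit 106) (.e (nat_lit 319531) (nat_lit 16) (.e (nat_lit 286748) (nat_lit 9) (.e (nat_lit 336389) (nat_lit 27) (.e (nat_lit 426300) (nat_lit 11) (.e (nat_lit 458771) (nat_lit 18) (.e (nat_lit 5865) (nat_lit 320) (.e (nat_lit 1013) (nat_lit 81) .nil)))))))) (.g (nat_lit 4) .nil .nil)))) (.nd (nat_lit 5) 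
(.lf (nat_lit 55889) (.g (nat_lit 2431) (.e (nat_lit 1401) (nat_lit 106) (.e (nat_lit 319531) (nat_lit 16) (.e (nat_lit 286748) (nat_lit 9) (.e (nat_lit 336389) (nat_lit 27) (.e (nat_lit 426278) (nat_lit 10) (.e (nat_lit 434276) (nat_lit 39) (.e (nat_lit 663554) (nat_lit 0) .nil))))))) (.g (nat_lit 5) .nil .nil))) 
(.lf (nat_lit 55921) (.g (nat_lit 1765) (.e (nat_lit 1401) (nat_lit 106) (.e (nat_lit 319531) (nat_lit 16) (.e (nat_lit 286748) (nat_lit 9) (.e (nat_lit 336389) (nat_lit 27) (.e (nat_lit 426308) (nat_lit 12) (.e (nat_lit 475161) (nat_lit 21) (.e (nat_lit 6766) (nat_lit 365) (.e (nat_lit 1010) (nat_lit 81) .nil)))))))) (.g (nat_lit 4) .nil .nil))))) (.nd (nat_lit 4) (.nd (nat_lit 5) 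
(.lf (nat_lit 55881) (.g (nat_lit 1825) (.e (nat_lit 1401) (nat_lit 106) (.e (nat_lit 319531) (nat_lit 16) (.e (nat_lit 286748) (nat_lit 9) (.e (nat_lit 336389) (nat_lit 27) (.e (nat_lit 426265) (nat_lit 9) (.e (nat_lit 426100) (nat_lit 1) (.e (nat_lit 164381) (nat_lit 254) (.e (nat_lit 998) (nat_lit 81) .nil)))))))) (.g (nat_lit 4) .nil .nil))) 
(.lf (nat_lit 55913) (.g (nat_lit 2870) (.e (nat_lit 1401) (nat_lit 106) (.e (nat_lit 319531) (nat_lit 16) (.e (nat_lit 286748) (nat_lit 9) (.e (nat_lit 336389) (nat_lit 27) (.e (nat_lit 426300) (nat_lit 11) (.e (nat_lit 458774) (nat_lit 18) (.e (nat_lit 5902) (nat_lit 320) (.e (nat_lit 993) (nat_lit 81) .nil)))))))) (.g (nat_lit 6) .nil .nil)))) (.nd (nat_lit 5) 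
(.lf (nat_lit 55897) (.g (nat_lit 1966) (.e (nat_lit 1401) (nat_lit 106) (.e (nat_lit 319531) (nat_lit 16) (.e (nat_lit 286748) (nat_lit 9) (.e (nat_lit 336389) (nat_lit 27) (.e (nat_lit 426297) (nat_lit 11) .nil))))) .nil)) 
(.lf (nat_lit 55929) (.g (nat_lit 776) (.e (nat_lit 1401) (nat_lit 106) (.e (nat_lit 319531) (nat_lit 16) (.e (nat_lit 286760) (nat_lit 13) .nil))) .nil))))) (.nd (nat_lit 3) (.nd (nat_lit 4) (.nd (nat_lit 5) 
(.lf (nat_lit 55877) (.g (nat_lit 1994) (.e (nat_lit 1401) (nat_lit 106) (.e (nat_lit 319531) (nat_lit 16) (.e (nat_lit 286748) (nat_lit 9) (.e (nat_lit 336389) (nat_lit 27) (.e (nat_lit 426263) (nat_lit 9) (.e (nat_lit 426012) (nat_lit 0) (.e (nat_lit 3433) (nat_lit 214) (.e (nat_lit 671748) (nat_lit 0) .nil)))))))) (.g (nat_lit 4) .nil .nil))) 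
(.lf (nat_lit 55909) (.g (nat_lit 2139) (.e (nat_lit 1401) (nat_lit 106) (.e (nat_lit 319531) (nat_lit 16) (.e (nat_lit 286748) (nat_lit 9) (.e (nat_lit 336389) (nat_lit 27) (.e (nat_lit 426300) (nat_lit 11) (.e (nat_lit 458774) (nat_lit 18) (.e (nat_lit 5820) (nat_lit 320) (.e (nat_lit 1016) (nat_lit 81) .nil)))))))) (.g (nat_lit 4) .nil .nil)))) (.nd (nat_lit 5) 
(.lf (nat_lit 55893) (.g (nat_lit 2101) (.e (nat_lit 1401) (nat_lit 106) (.e (nat_lit 319531) (nat_lit 16) (.e (nat_lit 286748) (nat_lit 9) (.e (nat_lit 336389) (nat_lit 27) (.e (nat_lit 426287) (nat_lit 10) (.e (nat_lit 434280) (nat_lit 40) (.e (nat_lit 671747) (nat_lit 0) .nil))))))) (.g (nat_lit 5) .nil .nil))) 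
(.lf (nat_lit 55925) (.g (nat_lit 2147) (.e (nat_lit 1401) (nat_lit 106) (.e (nat_lit 319531) (nat_lit 16) (.e (nat_lit 286748) (nat_lit 9) (.e (nat_lit 336389) (nat_lit 27) (.e (nat_lit 426314) (nat_lit 12) (.e (nat_lit 475221) (nat_lit 45) (.e (nat_lit 745476) (nat_lit 0) .nil))))))) (.g (nat_lit 4) .nil .nil))))) (.nd (nat_lit 4) (.nd (nat_lit 5) 
(.lf (nat_lit 55885) (.g (nat_lit 2234) (.e (nat_lit 1401) (nat_lit 106) (.e (nat_lit 319531) (nat_lit 16) (.e (nat_lit 286748) (nat_lit 9) (.e (nat_lit 336389) (nat_lit 27) (.e (nat_lit 426275) (nat_lit 10) (.e (nat_lit 434280) (nat_lit 40) (.e (nat_lit 671747) (nat_lit 0) .nil))))))) (.g (nat_lit 5) .nil .nil))) 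
(.lf (nat_lit 55917) (.g (nat_lit 1994) (.e (nat_lit 1401) (nat_lit 106) (.e (nat_lit 319531) (nat_lit 16) (.e (nat_lit 286748) (nat_lit 9) (.e (nat_lit 336389) (nat_lit 27) (.e (nat_lit 426300) (nat_lit 11) (.e (nat_lit 466688) (nat_lit 40) (.e (nat_lit 671747) (nat_lit 0) .nil))))))) (.g (nat_lit 4) .nil .nil)))) (.nd (nat_lit 5) 
(.lf (nat_lit 55901) (.g (nat_lit 2176) (.e (nat_lit 1401) (nat_lit 106) (.e (nat_lit 319531) (nat_lit 16) (.e (nat_lit 286748) (nat_lit 9) (.e (nat_lit 336389) (nat_lit 27) (.e (nat_lit 426299) (nat_lit 11) (.e (nat_lit 458807) (nat_lit 40) (.e (nat_lit 671748) (nat_lit 0) .nil))))))) (.g (nat_lit 4) .nil .nil))) 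
(.lf (nat_lit 55933) (.g (nat_lit 1958) (.e (nat_lit 1401) (nat_lit 106) (.e (nat_lit 319531) (nat_lit 16) (.e (nat_lit 286761) (nat_lit 13) (.e (nat_lit 393234) (nat_lit 17) (.e (nat_lit 7065) (nat_lit 377) (.e (nat_lit 982) (nat_lit 81) (.e (nat_lit 706) (nat_lit 62) (.e (nat_lit 671747) (nat_lit 0) .nil)))))))) (.g (nat_lit 4) .nil .nil))))))) 
(.nd (nat_lit 2) (.nd (nat_lit 3) (.nd (nat_lit 4) (.nd (nat_lit 5) 
(.lf (nat_lit 55875) (.g (nat_lit 1928) (.e (nat_lit 1401) (nat_lit 106) (.e (nat_lit 319531) (nat_lit 16) (.e (nat_lit 286748) (nat_lit 9) (.e (nat_lit 336389) (nat_lit 27) (.e (nat_lit 426263) (nat_lit 9) .nil))))) .nil)) 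
(.lf (nat_lit 55907) (.g (nat_lit 1863) (.e (nat_lit 1401) (nat_lit 106) (.e (nat_lit 319531) (nat_lit 16) (.e (nat_lit 286748) (nat_lit 9) (.e (nat_lit 336389) (nat_lit 27) (.e (nat_lit 426300) (nat_lit 11) (.e (nat_lit 458771) (nat_lit 18) (.e (nat_lit 5902) (nat_lit 320) (.e (nat_lit 993) (nat_lit 81) .nil)))))))) (.g (nat_lit 4) .nil .nil)))) (.nd (nat_lit 5) 
(.lf (nat_lit 55891) (.g (nat_lit 2178) (.e (nat_lit 1401) (nat_lit 106) (.e (nat_lit 319531) (nat_lit 16) (.e (nat_lit 286748) (nat_lit 9) (.e (nat_lit 336389) (nat_lit 27) (.e (nat_lit 426278) (nat_lit 10) (.e (nat_lit 434281) (nat_lit 40) (.e (nat_lit 671747) (nat_lit 0) .nil))))))) (.g (nat_lit 5) .nil .nil))) 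
(.lf (nat_lit 55923) (.g (nat_lit 1930) (.e (nat_lit 1401) (nat_lit 106) (.e (nat_lit 319531) (nat_lit 16) (.e (nat_lit 286748) (nat_lit 9) (.e (nat_lit 336389) (nat_lit 27) (.e (nat_lit 426308) (nat_lit 12) (.e (nat_lit 475161) (nat_lit 21) (.e (nat_lit 6791) (nat_lit 365) (.e (nat_lit 1015) (nat_lit 81) .nil)))))))) (.g (nat_lit 4) .nil .nil))))) (.nd (nat_lit 4) (.nd (nat_lit 5) 
(.lf (nat_lit 55883) (.g (nat_lit 1932) (.e (nat_lit 1401) (nat_lit 106) (.e (nat_lit 319531) (nat_lit 16) (.e (nat_lit 286748) (nat_lit 9) (.e (nat_lit 336389) (nat_lit 27) (.e (nat_lit 426265) (nat_lit 9) (.e (nat_lit 426100) (nat_lit 1) (.e (nat_lit 164386) (nat_lit 254) (.e (nat_lit 1006) (nat_lit 81) .nil)))))))) (.g (nat_lit 4) .nil .nil))) 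
(.lf (nat_lit 55915) (.g (nat_lit 1740) (.e (nat_lit 1401) (nat_lit 106) (.e (nat_lit 319531) (nat_lit 16) (.e (nat_lit 286748) (nat_lit 9) (.e (nat_lit 336389) (nat_lit 27) (.e (nat_lit 426300) (nat_lit 11) (.e (nat_lit 466688) (nat_lit 18) (.e (nat_lit 5905) (nat_lit 320) (.e (nat_lit 1008) (nat_lit 81) .nil)))))))) (.g (nat_lit 4) .nil .nil)))) (.nd (nat_lit 5) 
(.lf (nat_lit 55899) (.g (nat_lit 2181) (.e (nat_lit 1401) (nat_lit 106) (.e (nat_lit 319531) (nat_lit 16) (.e (nat_lit 286748) (nat_lit 9) (.e (nat_lit 336389) (nat_lit 27) (.e (nat_lit 426299) (nat_lit 11) (.e (nat_lit 458805) (nat_lit 39) (.e (nat_lit 663554) (nat_lit 0) .nil))))))) (.g (nat_lit 4) .nil .nil))) 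
(.lf (nat_lit 55931) (.g (nat_lit 911) (.e (nat_lit 1401) (nat_lit 106) (.e (nat_lit 319531) (nat_lit 16) (.e (nat_lit 286761) (nat_lit 13) (.e (nat_lit 393234) (nat_lit 17) .nil)))) .nil))))) (.nd (nat_lit 3) (.nd (nat_lit 4) (.nd (nat_lit 5) 
(.lf (nat_lit 55879) (.g (nat_lit 2282) (.e (nat_lit 1401) (nat_lit 106) (.e (nat_lit 319531) (nat_lit 16) (.e (nat_lit 286748) (nat_lit 9) (.e (nat_lit 336389) (nat_lit 27) (.e (nat_lit 426265) (nat_lit 9) (.e (nat_lit 426100) (nat_lit 1) (.e (nat_lit 164380) (nat_lit 254) (.e (nat_lit 998) (nat_lit 81) .nil)))))))) (.g (nat_lit 4) .nil .nil))) 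
(.lf (nat_lit 55911) (.g (nat_lit 2200) (.e (nat_lit 1401) (nat_lit 106) (.e (nat_lit 319531) (nat_lit 16) (.e (nat_lit 286748) (nat_lit 9) (.e (nat_lit 336389) (nat_lit 27) (.e (nat_lit 426300) (nat_lit 11) (.e (nat_lit 458774) (nat_lit 18) (.e (nat_lit 5831) (nat_lit 320) (.e (nat_lit 1006) (nat_lit 81) .nil)))))))) (.g (nat_lit 4) .nil .nil)))) (.nd (nat_lit 5) 
(.lf (nat_lit 55895) (.g (nat_lit 1966) (.e (nat_lit 1401) (nat_lit 106) (.e (nat_lit 319531) (nat_lit 16) (.e (nat_lit 286748) (nat_lit 9) (.e (nat_lit 336389) (nat_lit 27) (.e (nat_lit 426295) (nat_lit 11) .nil))))) .nil)) 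
(.lf (nat_lit 55927) (.g (nat_lit 1770) (.e (nat_lit 1401) (nat_lit 106) (.e (nat_lit 319531) (nat_lit 16) (.e (nat_lit 286756) (nat_lit 10) (.e (nat_lit 344160) (nat_lit 37) .nil)))) .nil)))) (.nd (nat_lit 4) (.nd (nat_lit 5) 
(.lf (nat_lit 55887) (.g (nat_lit 1494) (.e (nat_lit 1401) (nat_lit 106) (.e (nat_lit 319531) (nat_lit 16) (.e (nat_lit 286748) (nat_lit 9) (.e (nat_lit 336389) (nat_lit 27) (.e (nat_lit 426278) (nat_lit 10) .nil))))) .nil)) 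
(.lf (nat_lit 55919) (.g (nat_lit 1236) (.e (nat_lit 1401) (nat_lit 106) (.e (nat_lit 319531) (nat_lit 16) (.e (nat_lit 286748) (nat_lit 9) (.e (nat_lit 336389) (nat_lit 27) (.e (nat_lit 426308) (nat_lit 12) .nil))))) .nil))) (.nd (nat_lit 5) 
(.lf (nat_lit 55903) (.g (nat_lit 1581) (.e (nat_lit 1401) (nat_lit 106) (.e (nat_lit 319531) (nat_lit 16) (.e (nat_lit 286748) (nat_lit 9) (.e (nat_lit 336389) (nat_lit 27) (.e (nat_lit 426300) (nat_lit 11) (.e (nat_lit 458771) (nat_lit 18) (.e (nat_lit 5856) (nat_lit 320) (.e (nat_lit 1013) (nat_lit 81) .nil)))))))) (.g (nat_lit 4) .nil .nil))) 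
(.lf (nat_lit 55935) (.g (nat_lit 2206) (.e (nat_lit 1401) (nat_lit 106) (.e (nat_lit 319531) (nat_lit 16) (.e (nat_lit 286761) (nat_lit 13) (.e (nat_lit 393234) (nat_lit 17) (.e (nat_lit 7065) (nat_lit 377) (.e (nat_lit 988) (nat_lit 81) (.e (nat_lit 706) (nat_lit 62) (.e (nat_lit 671747) (nat_lit 0) .nil)))))))) (.g (nat_lit 4) .nil .nil)))))))))

noncomputable def tv773 : DT := (.nd (nat_lit 0) (.nd (nat_lit 1) (.nd (nat_lit 2) (.nd (nat_lit 3) (.nd (nat_lit 4) (.nd (nat_lit 5) (.nd (nat_lit 6) 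
(.lf (nat_lit 55936) (.g (nat_lit 2024) (.e (nat_lit 1401) (nat_lit 106) (.e (nat_lit 319531) (nat_lit 16) (.e (nat_lit 286761) (nat_lit 13) (.e (nat_lit 393234) (nat_lit 17) (.e (nat_lit 7065) (nat_lit 377) (.e (nat_lit 988) (nat_lit 81) (.e (nat_lit 711) (nat_lit 62) (.e (nat_lit 671748) (nat_lit 0) .nil)))))))) (.g (nat_lit 4) .nil .nil))) 
(.lf (nat_lit 56000) (.g (nat_lit 2604) (.e (nat_lit 1401) (nat_lit 106) (.e (nat_lit 319531) (nat_lit 16) (.e (nat_lit 286761) (nat_lit 13) (.e (nat_lit 393286) (nat_lit 25) (.e (nat_lit 458807) (nat_lit 40) (.e (nat_lit 671747) (nat_lit 0) .nil)))))) (.g (nat_lit 4) .nil .nil)))) (.nd (nat_lit 6) 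
(.lf (nat_lit 55968) (.g (nat_lit 2610) (.e (nat_lit 1401) (nat_lit 106) (.e (nat_lit 319531) (nat_lit 16) (.e (nat_lit 286761) (nat_lit 13) (.e (nat_lit 393270) (nat_lit 23) (.e (nat_lit 426068) (nat_lit 0) (.e (nat_lit 3434) (nat_lit 214) (.e (nat_lit 671747) (nat_lit 0) .nil))))))) (.g (nat_lit 4) .nil .nil))) 
(.lf (nat_lit 56032) (.g (nat_lit 1748) (.e (nat_lit 1401) (nat_lit 106) (.e (nat_lit 319533) (nat_lit 16) (.e (nat_lit 286739) (nat_lit 7) (.e (nat_lit 319534) (nat_lit 16) (.e (nat_lit 286756) (nat_lit 10) (.e (nat_lit 344152) (nat_lit 34) (.e (nat_lit 622602) (nat_lit 5) .nil))))))) (.g (nat_lit 4) .nil .nil))))) (.nd (nat_lit 5) (.nd (nat_lit 6) 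
(.lf (nat_lit 55952) (.g (nat_lit 2896) (.e (nat_lit 1401) (nat_lit 106) (.e (nat_lit 319531) (nat_lit 16) (.e (nat_lit 286761) (nat_lit 13) (.e (nat_lit 393234) (nat_lit 17) (.e (nat_lit 7936) (nat_lit 391) .nil))))) .nil)) 
(.lf (nat_lit 56016) (.g (nat_lit 4419) (.e (nat_lit 1401) (nat_lit 106) (.e (nat_lit 319531) (nat_lit 16) (.e (nat_lit 286761) (nat_lit 13) (.e (nat_lit 393301) (nat_lit 27) (.e (nat_lit 491526) (nat_lit 0) .nil))))) .nil))) (.nd (nat_lit 6) 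
(.lf (nat_lit 55984) (.g (nat_lit 3985) (.e (nat_lit 1401) (nat_lit 106) (.e (nat_lit 319531) (nat_lit 16) (.e (nat_lit 286761) (nat_lit 13) (.e (nat_lit 393273) (nat_lit 23) (.e (nat_lit 426364) (nat_lit 15) (.e (nat_lit 2248) (nat_lit 147) (.e (nat_lit 745475) (nat_lit 0) .nil))))))) (.g (nat_lit 5) .nil .nil))) 
(.lf (nat_lit 56048) (.g (nat_lit 1702) (.e (nat_lit 1401) (nat_lit 106) (.e (nat_lit 319533) (nat_lit 16) (.e (nat_lit 286761) (nat_lit 13) (.e (nat_lit 393283) (nat_lit 24) .nil)))) .nil))))) (.nd (nat_lit 4) (.nd (nat_lit 5) (.nd (nat_lit 6) 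
(.lf (nat_lit 55944) (.g (nat_lit 2027) (.e (nat_lit 1401) (nat_lit 106) (.e (nat_lit 319531) (nat_lit 16) (.e (nat_lit 286761) (nat_lit 13) (.e (nat_lit 393234) (nat_lit 17) (.e (nat_lit 7065) (nat_lit 377) (.e (nat_lit 1115) (nat_lit 82) (.e (nat_lit 8431) (nat_lit 138) (.e (nat_lit 998) (nat_lit 81) .nil)))))))) (.g (nat_lit 4) .nil .nil))) 
(.lf (nat_lit 56008) (.g (nat_lit 3499) (.e (nat_lit 1401) (nat_lit 106) (.e (nat_lit 319531) (nat_lit 16) (.e (nat_lit 286761) (nat_lit 13) (.e (nat_lit 393291) (nat_lit 26) (.e (nat_lit 475221) (nat_lit 45) (.e (nat_lit 745476) (nat_lit 0) .nil)))))) (.g (nat_lit 5) .nil .nil)))) (.nd (nat_lit 6) 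
(.lf (nat_lit 55976) (.g (nat_lit 2943) (.e (nat_lit 1401) (nat_lit 106) (.e (nat_lit 319531) (nat_lit 16) (.e (nat_lit 286761) (nat_lit 13) (.e (nat_lit 393270) (nat_lit 23) (.e (nat_lit 426402) (nat_lit 15) (.e (nat_lit 2246) (nat_lit 147) (.e (nat_lit 745475) (nat_lit 0) .nil))))))) (.g (nat_lit 5) .nil .nil))) 
(.lf (nat_lit 56040) (.g (nat_lit 1603) (.e (nat_lit 1401) (nat_lit 106) (.e (nat_lit 319533) (nat_lit 16) (.e (nat_lit 286753) (nat_lit 10) (.e (nat_lit 344160) (nat_lit 37) (.e (nat_lit 647190) (nat_lit 9) .nil))))) .nil)))) (.nd (nat_lit 5) (.nd (nat_lit 6) 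
(.lf (nat_lit 55960) (.g (nat_lit 2998) (.e (nat_lit 1401) (nat_lit 106) (.e (nat_lit 319531) (nat_lit 16) (.e (nat_lit 286761) (nat_lit 13) (.e (nat_lit 393265) (nat_lit 22) (.e (nat_lit 417792) (nat_lit 0) (.e (nat_lit 704) (nat_lit 61) (.e (nat_lit 663554) (nat_lit 0) .nil))))))) (.g (nat_lit 4) .nil .nil))) 
(.lf (nat_lit 56024) (.g (nat_lit 1863) (.e (nat_lit 1401) (nat_lit 106) (.e (nat_lit 319533) (nat_lit 16) (.e (nat_lit 286739) (nat_lit 7) (.e (nat_lit 319533) (nat_lit 16) (.e (nat_lit 286753) (nat_lit 10) (.e (nat_lit 344150) (nat_lit 34) (.e (nat_lit 622602) (nat_lit 5) .nil))))))) (.g (nat_lit 4) .nil .nil)))) (.nd (nat_lit 6) 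
(.lf (nat_lit 55992) (.g (nat_lit 1398) (.e (nat_lit 1401) (nat_lit 106) (.e (nat_lit 319531) (nat_lit 16) (.e (nat_lit 286761) (nat_lit 13) (.e (nat_lit 393283) (nat_lit 24) .nil)))) .nil)) 
(.lf (nat_lit 56056) (.g (nat_lit 2337) (.e (nat_lit 1401) (nat_lit 106) (.e (nat_lit 319534) (nat_lit 16) (.e (nat_lit 286734) (nat_lit 3) (.e (nat_lit 98370) (nat_lit 28) (.e (nat_lit 442424) (nat_lit 22) (.e (nat_lit 196630) (nat_lit 9) .nil)))))) (.g (nat_lit 4) .nil .nil))))))) (.nd (nat_lit 3) (.nd (nat_lit 4) (.nd (nat_lit 5) (.nd (nat_lit 6) 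
(.lf (nat_lit 55940) (.g (nat_lit 3003) (.e (nat_lit 1401) (nat_lit 106) (.e (nat_lit 319531) (nat_lit 16) (.e (nat_lit 286761) (nat_lit 13) (.e (nat_lit 393234) (nat_lit 17) (.e (nat_lit 7065) (nat_lit 377) (.e (nat_lit 1008) (nat_lit 81) (.e (nat_lit 706) (nat_lit 62) (.e (nat_lit 671748) (nat_lit 0) .nil)))))))) (.g (nat_lit 5) .nil .nil))) 
(.lf (nat_lit 56004) (.g (nat_lit 1873) (.e (nat_lit 1401) (nat_lit 106) (.e (nat_lit 319531) (nat_lit 16) (.e (nat_lit 286761) (nat_lit 13) (.e (nat_lit 393289) (nat_lit 25) (.e (nat_lit 458776) (nat_lit 18) .nil))))) .nil))) (.nd (nat_lit 6) 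
(.lf (nat_lit 55972) (.g (nat_lit 3225) (.e (nat_lit 1401) (nat_lit 106) (.e (nat_lit 319531) (nat_lit 16) (.e (nat_lit 286761) (nat_lit 13) (.e (nat_lit 393270) (nat_lit 23) (.e (nat_lit 426354) (nat_lit 15) (.e (nat_lit 2250) (nat_lit 147) (.e (nat_lit 745475) (nat_lit 0) .nil))))))) (.g (nat_lit 5) .nil .nil))) 
(.lf (nat_lit 56036) (.g (nat_lit 1896) (.e (nat_lit 1401) (nat_lit 106) (.e (nat_lit 319533) (nat_lit 16) (.e (nat_lit 286753) (nat_lit 10) (.e (nat_lit 344156) (nat_lit 36) (.e (nat_lit 638998) (nat_lit 8) (.e (nat_lit 172034) (nat_lit 0) (.e (nat_lit 7496) (nat_lit 402) .nil))))))) (.g (nat_lit 4) .nil .nil))))) (.nd (nat_lit 5) (.nd (nat_lit 6) 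
(.lf (nat_lit 55956) (.g (nat_lit 1977) (.e (nat_lit 1401) (nat_lit 106) (.e (nat_lit 319531) (nat_lit 16) (.e (nat_lit 286761) (nat_lit 13) (.e (nat_lit 393234) (nat_lit 17) (.e (nat_lit 7583) (nat_lit 405) .nil))))) .nil)) 
(.lf (nat_lit 56020) (.g (nat_lit 4598) (.e (nat_lit 1401) (nat_lit 106) (.e (nat_lit 319531) (nat_lit 16) (.e (nat_lit 286761) (nat_lit 13) (.e (nat_lit 393301) (nat_lit 27) (.e (nat_lit 491577) (nat_lit 15) .nil))))) .nil))) (.nd (nat_lit 6) 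
(.lf (nat_lit 55988) (.g (nat_lit 2170) (.e (nat_lit 1401) (nat_lit 106) (.e (nat_lit 319531) (nat_lit 16) (.e (nat_lit 286761) (nat_lit 13) (.e (nat_lit 393279) (nat_lit 23) (.e (nat_lit 426110) (nat_lit 1) .nil))))) .nil)) 
(.lf (nat_lit 56052) (.g (nat_lit 1553) (.e (nat_lit 1401) (nat_lit 106) (.e (nat_lit 319533) (nat_lit 16) (.e (nat_lit 286761) (nat_lit 13) (.e (nat_lit 393301) (nat_lit 27) .nil)))) .nil))))) (.nd (nat_lit 4) (.nd (nat_lit 5) (.nd (nat_lit 6) 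
(.lf (nat_lit 55948) (.g (nat_lit 2102) (.e (nat_lit 1401) (nat_lit 106) (.e (nat_lit 319531) (nat_lit 16) (.e (nat_lit 286761) (nat_lit 13) (.e (nat_lit 393234) (nat_lit 17) (.e (nat_lit 7065) (nat_lit 377) (.e (nat_lit 1116) (nat_lit 82) (.e (nat_lit 8435) (nat_lit 138) (.e (nat_lit 1006) (nat_lit 81) .nil)))))))) (.g (nat_lit 4) .nil .nil))) 
(.lf (nat_lit 56012) (.g (nat_lit 2919) (.e (nat_lit 1401) (nat_lit 106) (.e (nat_lit 319531) (nat_lit 16) (.e (nat_lit 286761) (nat_lit 13) (.e (nat_lit 393296) (nat_lit 26) (.e (nat_lit 475221) (nat_lit 45) .nil))))) .nil))) (.nd (nat_lit 6) 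
(.lf (nat_lit 55980) (.g (nat_lit 3790) (.e (nat_lit 1401) (nat_lit 106) (.e (nat_lit 319531) (nat_lit 16) (.e (nat_lit 286761) (nat_lit 13) (.e (nat_lit 393273) (nat_lit 23) (.e (nat_lit 426364) (nat_lit 15) (.e (nat_lit 2242) (nat_lit 147) (.e (nat_lit 745475) (nat_lit 0) .nil))))))) (.g (nat_lit 5) .nil .nil))) 
(.lf (nat_lit 56044) (.g (nat_lit 2624) (.e (nat_lit 1401) (nat_lit 106) (.e (nat_lit 319533) (nat_lit 16) (.e (nat_lit 286760) (nat_lit 13) (.e (nat_lit 393271) (nat_lit 23) (.e (nat_lit 425986) (nat_lit 0) .nil))))) .nil)))) (.nd (nat_lit 5) (.nd (nat_lit 6) 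
(.lf (nat_lit 55964) (.g (nat_lit 1348) (.e (nat_lit 1401) (nat_lit 106) (.e (nat_lit 319531) (nat_lit 16) (.e (nat_lit 286761) (nat_lit 13) (.e (nat_lit 393270) (nat_lit 23) .nil)))) .nil)) 
(.lf (nat_lit 56028) (.g (nat_lit 2695) (.e (nat_lit 1401) (nat_lit 106) (.e (nat_lit 319533) (nat_lit 16) (.e (nat_lit 286739) (nat_lit 7) (.e (nat_lit 319534) (nat_lit 16) (.e (nat_lit 286756) (nat_lit 10) (.e (nat_lit 344150) (nat_lit 34) (.e (nat_lit 622601) (nat_lit 5) .nil))))))) (.g (nat_lit 5) .nil .nil)))) (.nd (nat_lit 6) 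
(.lf (nat_lit 55996) (.g (nat_lit 3340) (.e (nat_lit 1401) (nat_lit 106) (.e (nat_lit 319531) (nat_lit 16) (.e (nat_lit 286761) (nat_lit 13) (.e (nat_lit 393283) (nat_lit 24) (.e (nat_lit 434281) (nat_lit 40) (.e (nat_lit 671747) (nat_lit 0) .nil)))))) (.g (nat_lit 0) .nil .nil))) 
(.lf (nat_lit 56060) (.g (nat_lit 620) (.e (nat_lit 1401) (nat_lit 106) (.e (nat_lit 319534) (nat_lit 16) (.e (nat_lit 286739) (nat_lit 7) .nil))) .nil))))))) (.nd (nat_lit 2) (.nd (nat_lit 3) (.nd (nat_lit 4) (.nd (nat_lit 5) (.nd (nat_lit 6) 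
(.lf (nat_lit 55938) (.g (nat_lit 2352) (.e (nat_lit 1401) (nat_lit 106) (.e (nat_lit 319531) (nat_lit 16) (.e (nat_lit 286761) (nat_lit 13) (.e (nat_lit 393234) (nat_lit 17) (.e (nat_lit 7065) (nat_lit 377) (.e (nat_lit 993) (nat_lit 81) (.e (nat_lit 706) (nat_lit 62) (.e (nat_lit 671747) (nat_lit 0) .nil)))))))) (.g (nat_lit 4) .nil .nil))) 
(.lf (nat_lit 56002) (.g (nat_lit 1864) (.e (nat_lit 1401) (nat_lit 106) (.e (nat_lit 319531) (nat_lit 16) (.e (nat_lit 286761) (nat_lit 13) (.e (nat_lit 393288) (nat_lit 25) .nil)))) .nil))) (.nd (nat_lit 6) 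
(.lf (nat_lit 55970) (.g (nat_lit 2445) (.e (nat_lit 1401) (nat_lit 106) (.e (nat_lit 319531) (nat_lit 16) (.e (nat_lit 286761) (nat_lit 13) (.e (nat_lit 393270) (nat_lit 23) (.e (nat_lit 433920) (nat_lit 0) (.e (nat_lit 3432) (nat_lit 213) (.e (nat_lit 663554) (nat_lit 0) .nil))))))) (.g (nat_lit 4) .nil .nil))) 
(.lf (nat_lit 56034) (.g (nat_lit 460) (.e (nat_lit 1401) (nat_lit 106) (.e (nat_lit 319533) (nat_lit 16) (.e (nat_lit 286753) (nat_lit 10) .nil))) .nil)))) (.nd (nat_lit 5) (.nd (nat_lit 6) 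
(.lf (nat_lit 55954) (.g (nat_lit 2656) (.e (nat_lit 1401) (nat_lit 106) (.e (nat_lit 319531) (nat_lit 16) (.e (nat_lit 286761) (nat_lit 13) (.e (nat_lit 393234) (nat_lit 17) (.e (nat_lit 7569) (nat_lit 403) .nil))))) .nil)) 
(.lf (nat_lit 56018) (.g (nat_lit 4807) (.e (nat_lit 1401) (nat_lit 106) (.e (nat_lit 319531) (nat_lit 16) (.e (nat_lit 286761) (nat_lit 13) (.e (nat_lit 393301) (nat_lit 27) (.e (nat_lit 491573) (nat_lit 15) .nil))))) .nil))) (.nd (nat_lit 6) 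
(.lf (nat_lit 55986) (.g (nat_lit 1808) (.e (nat_lit 1401) (nat_lit 106) (.e (nat_lit 319531) (nat_lit 16) (.e (nat_lit 286761) (nat_lit 13) (.e (nat_lit 393275) (nat_lit 23) .nil)))) .nil)) 
(.lf (nat_lit 56050) (.g (nat_lit 2122) (.e (nat_lit 1401) (nat_lit 106) (.e (nat_lit 319533) (nat_lit 16) (.e (nat_lit 286761) (nat_lit 13) (.e (nat_lit 393284) (nat_lit 24) (.e (nat_lit 434274) (nat_lit 39) .nil))))) .nil))))) (.nd (nat_lit 4) (.nd (nat_lit 5) (.nd (nat_lit 6) 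
(.lf (nat_lit 55946) (.g (nat_lit 2514) (.e (nat_lit 1401) (nat_lit 106) (.e (nat_lit 319531) (nat_lit 16) (.e (nat_lit 286761) (nat_lit 13) (.e (nat_lit 393234) (nat_lit 17) (.e (nat_lit 7065) (nat_lit 377) (.e (nat_lit 1115) (nat_lit 82) (.e (nat_lit 8438) (nat_lit 138) (.e (nat_lit 1011) (nat_lit 81) .nil)))))))) (.g (nat_lit 4) .nil .nil))) 
(.lf (nat_lit 56010) (.g (nat_lit 2039) (.e (nat_lit 1401) (nat_lit 106) (.e (nat_lit 319531) (nat_lit 16) (.e (nat_lit 286761) (nat_lit 13) (.e (nat_lit 393293) (nat_lit 26) (.e (nat_lit 475155) (nat_lit 21) .nil))))) .nil))) (.nd (nat_lit 6) 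
(.lf (nat_lit 55978) (.g (nat_lit 4046) (.e (nat_lit 1401) (nat_lit 106) (.e (nat_lit 319531) (nat_lit 16) (.e (nat_lit 286761) (nat_lit 13) (.e (nat_lit 393271) (nat_lit 23) (.e (nat_lit 425986) (nat_lit 0) (.e (nat_lit 3421) (nat_lit 213) (.e (nat_lit 663554) (nat_lit 0) .nil))))))) (.g (nat_lit 5) .nil .nil))) 
(.lf (nat_lit 56042) (.g (nat_lit 1863) (.e (nat_lit 1401) (nat_lit 106) (.e (nat_lit 319533) (nat_lit 16) (.e (nat_lit 286753) (nat_lit 10) (.e (nat_lit 344160) (nat_lit 37) (.e (nat_lit 647199) (nat_lit 11) (.e (nat_lit 16388) (nat_lit 0) (.e (nat_lit 7486) (nat_lit 402) .nil))))))) (.g (nat_lit 4) .nil .nil))))) (.nd (nat_lit 5) (.nd (nat_lit 6) 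
(.lf (nat_lit 55962) (.g (nat_lit 1912) (.e (nat_lit 1401) (nat_lit 106) (.e (nat_lit 319531) (nat_lit 16) (.e (nat_lit 286761) (nat_lit 13) (.e (nat_lit 393267) (nat_lit 23) .nil)))) .nil)) 
(.lf (nat_lit 56026) (.g (nat_lit 2726) (.e (nat_lit 1401) (nat_lit 106) (.e (nat_lit 319533) (nat_lit 16) (.e (nat_lit 286739) (nat_lit 7) (.e (nat_lit 319533) (nat_lit 16) (.e (nat_lit 286753) (nat_lit 10) (.e (nat_lit 344152) (nat_lit 34) (.e (nat_lit 622601) (nat_lit 5) .nil))))))) (.g (nat_lit 0) .nil .nil)))) (.nd (nat_lit 6) 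
(.lf (nat_lit 55994) (.g (nat_lit 3019) (.e (nat_lit 1401) (nat_lit 106) (.e (nat_lit 319531) (nat_lit 16) (.e (nat_lit 286761) (nat_lit 13) (.e (nat_lit 393283) (nat_lit 24) (.e (nat_lit 434276) (nat_lit 39) (.e (nat_lit 663554) (nat_lit 0) .nil)))))) (.g (nat_lit 5) .nil .nil))) 
(.lf (nat_lit 56058) (.g (nat_lit 420) (.e (nat_lit 1401) (nat_lit 106) (.e (nat_lit 319534) (nat_lit 16) (.e (nat_lit 286735) (nat_lit 3) .nil))) .nil)))))) (.nd (nat_lit 3) (.nd (nat_lit 4) (.nd (nat_lit 5) (.nd (nat_lit 6) 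
(.lf (nat_lit 55942) (.g (nat_lit 2182) (.e (nat_lit 1401) (nat_lit 106) (.e (nat_lit 319531) (nat_lit 16) (.e (nat_lit 286761) (nat_lit 13) (.e (nat_lit 393234) (nat_lit 17) (.e (nat_lit 7065) (nat_lit 377) (.e (nat_lit 1112) (nat_lit 82) (.e (nat_lit 8438) (nat_lit 138) (.e (nat_lit 1011) (nat_lit 81) .nil)))))))) (.g (nat_lit 4) .nil .nil))) 
(.lf (nat_lit 56006) (.g (nat_lit 2367) (.e (nat_lit 1401) (nat_lit 106) (.e (nat_lit 319531) (nat_lit 16) (.e (nat_lit 286761) (nat_lit 13) (.e (nat_lit 393289) (nat_lit 25) (.e (nat_lit 458805) (nat_lit 39) (.e (nat_lit 663554) (nat_lit 0) .nil)))))) (.g (nat_lit 4) .nil .nil)))) (.nd (nat_lit 6) 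
(.lf (nat_lit 55974) (.g (nat_lit 2092) (.e (nat_lit 1401) (nat_lit 106) (.e (nat_lit 319531) (nat_lit 16) (.e (nat_lit 286761) (nat_lit 13) (.e (nat_lit 393270) (nat_lit 23) (.e (nat_lit 426360) (nat_lit 15) (.e (nat_lit 2248) (nat_lit 147) (.e (nat_lit 745475) (nat_lit 0) .nil))))))) (.g (nat_lit 4) .nil .nil))) 
(.lf (nat_lit 56038) (.g (nat_lit 1288) (.e (nat_lit 1401) (nat_lit 106) (.e (nat_lit 319533) (nat_lit 16) (.e (nat_lit 286753) (nat_lit 10) (.e (nat_lit 344157) (nat_lit 36) (.e (nat_lit 638985) (nat_lit 5) .nil))))) .nil)))) (.nd (nat_lit 5) (.nd (nat_lit 6) 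
(.lf (nat_lit 55958) (.g (nat_lit 1560) (.e (nat_lit 1401) (nat_lit 106) (.e (nat_lit 319531) (nat_lit 16) (.e (nat_lit 286761) (nat_lit 13) (.e (nat_lit 393265) (nat_lit 22) .nil)))) .nil)) 
(.lf (nat_lit 56022) (.g (nat_lit 1983) (.e (nat_lit 1401) (nat_lit 106) (.e (nat_lit 319533) (nat_lit 16) (.e (nat_lit 286734) (nat_lit 3) (.e (nat_lit 98370) (nat_lit 28) .nil)))) .nil))) (.nd (nat_lit 6) 
(.lf (nat_lit 55990) (.g (nat_lit 2148) (.e (nat_lit 1401) (nat_lit 106) (.e (nat_lit 319531) (nat_lit 16) (.e (nat_lit 286761) (nat_lit 13) (.e (nat_lit 393282) (nat_lit 24) (.e (nat_lit 434280) (nat_lit 40) (.e (nat_lit 671747) (nat_lit 0) .nil)))))) (.g (nat_lit 4) .nil .nil))) 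
(.lf (nat_lit 56054) (.g (nat_lit 1526) (.e (nat_lit 1401) (nat_lit 106) (.e (nat_lit 319534) (nat_lit 16) (.e (nat_lit 286732) (nat_lit 2) (.e (nat_lit 90176) (nat_lit 15) .nil)))) .nil))))) (.nd (nat_lit 4) (.nd (nat_lit 5) (.nd (nat_lit 6) 
(.lf (nat_lit 55950) (.g (nat_lit 2919) (.e (nat_lit 1401) (nat_lit 106) (.e (nat_lit 319531) (nat_lit 16) (.e (nat_lit 286761) (nat_lit 13) (.e (nat_lit 393234) (nat_lit 17) (.e (nat_lit 7076) (nat_lit 378) .nil))))) .nil)) 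
(.lf (nat_lit 56014) (.g (nat_lit 2822) (.e (nat_lit 1401) (nat_lit 106) (.e (nat_lit 319531) (nat_lit 16) (.e (nat_lit 286761) (nat_lit 13) (.e (nat_lit 393300) (nat_lit 27) (.e (nat_lit 491577) (nat_lit 15) (.e (nat_lit 3573) (nat_lit 223) (.e (nat_lit 745476) (nat_lit 0) .nil))))))) (.g (nat_lit 4) .nil .nil)))) (.nd (nat_lit 6) 
(.lf (nat_lit 55982) (.g (nat_lit 2964) (.e (nat_lit 1401) (nat_lit 106) (.e (nat_lit 319531) (nat_lit 16) (.e (nat_lit 286761) (nat_lit 13) (.e (nat_lit 393273) (nat_lit 23) (.e (nat_lit 426364) (nat_lit 15) (.e (nat_lit 2246) (nat_lit 147) (.e (nat_lit 745475) (nat_lit 0) .nil))))))) (.g (nat_lit 4) .nil .nil))) 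
(.lf (nat_lit 56046) (.g (nat_lit 1758) (.e (nat_lit 1401) (nat_lit 106) (.e (nat_lit 319533) (nat_lit 16) (.e (nat_lit 286761) (nat_lit 13) (.e (nat_lit 393282) (nat_lit 24) .nil)))) .nil)))) (.nd (nat_lit 5) (.nd (nat_lit 6) 
(.lf (nat_lit 55966) (.g (nat_lit 2122) (.e (nat_lit 1401) (nat_lit 106) (.e (nat_lit 319531) (nat_lit 16) (.e (nat_lit 286761) (nat_lit 13) (.e (nat_lit 393270) (nat_lit 23) (.e (nat_lit 425998) (nat_lit 0) .nil))))) .nil)) 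
(.lf (nat_lit 56030) (.g (nat_lit 2406) (.e (nat_lit 1401) (nat_lit 106) (.e (nat_lit 319533) (nat_lit 16) (.e (nat_lit 286739) (nat_lit 7) (.e (nat_lit 319534) (nat_lit 16) (.e (nat_lit 286756) (nat_lit 10) (.e (nat_lit 344152) (nat_lit 34) (.e (nat_lit 622600) (nat_lit 5) .nil))))))) (.g (nat_lit 5) .nil .nil)))) (.nd (nat_lit 6) 
(.lf (nat_lit 55998) (.g (nat_lit 2528) (.e (nat_lit 1401) (nat_lit 106) (.e (nat_lit 319531) (nat_lit 16) (.e (nat_lit 286761) (nat_lit 13) (.e (nat_lit 393284) (nat_lit 24) (.e (nat_lit 434275) (nat_lit 39) (.e (nat_lit 663554) (nat_lit 0) .nil)))))) (.g (nat_lit 4) .nil .nil))) 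
(.lf (nat_lit 56062) (.g (nat_lit 2081) (.e (nat_lit 1401) (nat_lit 106) (.e (nat_lit 319534) (nat_lit 16) (.e (nat_lit 286739) (nat_lit 7) (.e (nat_lit 319533) (nat_lit 16) (.e (nat_lit 286753) (nat_lit 10) (.e (nat_lit 344150) (nat_lit 34) (.e (nat_lit 622602) (nat_lit 5) .nil))))))) (.g (nat_lit 4) .nil .nil))))))))) 
(.nd (nat_lit 1) (.nd (nat_lit 2) (.nd (nat_lit 3) (.nd (nat_lit 4) (.nd (nat_lit 5) 
(.nd (nat_lit 6) 
(.lf (nat_lit 55937) (.g (nat_lit 2178) (.e (nat_lit 1401) (nat_lit 106) (.e (nat_lit 319531) (nat_lit 16) (.e (nat_lit 286761) (nat_lit 13) (.e (nat_lit 393234) (nat_lit 17) (.e (nat_lit 7065) (nat_lit 377) (.e (nat_lit 992) (nat_lit 81) (.e (nat_lit 706) (nat_lit 62) (.e (nat_lit 671747) (nat_lit 0) .nil)))))))) (.g (nat_lit 4) .nil .nil))) 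
(.lf (nat_lit 56001) (.g (nat_lit 2443) (.e (nat_lit 1401) (nat_lit 106) (.e (nat_lit 319531) (nat_lit 16) (.e (nat_lit 286761) (nat_lit 13) (.e (nat_lit 393287) (nat_lit 25) (.e (nat_lit 458807) (nat_lit 40) .nil))))) .nil))) (.nd (nat_lit 6) 
(.lf (nat_lit 55969) (.g (nat_lit 2298) (.e (nat_lit 1401) (nat_lit 106) (.e (nat_lit 319531) (nat_lit 16) (.e (nat_lit 286761) (nat_lit 13) (.e (nat_lit 393270) (nat_lit 23) (.e (nat_lit 433920) (nat_lit 0) (.e (nat_lit 3421) (nat_lit 213) (.e (nat_lit 663554) (nat_lit 0) .nil))))))) (.g (nat_lit 4) .nil .nil))) 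
(.lf (nat_lit 56033) (.g (nat_lit 637) (.e (nat_lit 1401) (nat_lit 106) (.e (nat_lit 319533) (nat_lit 16) (.e (nat_lit 286740) (nat_lit 7) .nil))) .nil)))) (.nd (nat_lit 5) (.nd (nat_lit 6) 
(.lf (nat_lit 55953) (.g (nat_lit 2893) (.e (nat_lit 1401) (nat_lit 106) (.e (nat_lit 319531) (nat_lit 16) (.e (nat_lit 286761) (nat_lit 13) (.e (nat_lit 393234) (nat_lit 17) (.e (nat_lit 7391) (nat_lit 394) .nil))))) .nil)) 
(.lf (nat_lit 56017) (.g (nat_lit 5350) (.e (nat_lit 1401) (nat_lit 106) (.e (nat_lit 319531) (nat_lit 16) (.e (nat_lit 286761) (nat_lit 13) (.e (nat_lit 393301) (nat_lit 27) (.e (nat_lit 491532) (nat_lit 1) .nil))))) .nil))) (.nd (nat_lit 6) 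
(.lf (nat_lit 55985) (.g (nat_lit 2564) (.e (nat_lit 1401) (nat_lit 106) (.e (nat_lit 319531) (nat_lit 16) (.e (nat_lit 286761) (nat_lit 13) (.e (nat_lit 393274) (nat_lit 23) (.e (nat_lit 426043) (nat_lit 0) .nil))))) .nil)) 
(.lf (nat_lit 56049) (.g (nat_lit 2175) (.e (nat_lit 1401) (nat_lit 106) (.e (nat_lit 319533) (nat_lit 16) (.e (nat_lit 286761) (nat_lit 13) (.e (nat_lit 393283) (nat_lit 24) (.e (nat_lit 434275) (nat_lit 39) .nil))))) .nil))))) (.nd (nat_lit 4) (.nd (nat_lit 5) (.nd (nat_lit 6) 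
(.lf (nat_lit 55945) (.g (nat_lit 3331) (.e (nat_lit 1401) (nat_lit 106) (.e (nat_lit 319531) (nat_lit 16) (.e (nat_lit 286761) (nat_lit 13) (.e (nat_lit 393234) (nat_lit 17) (.e (nat_lit 7065) (nat_lit 377) (.e (nat_lit 1115) (nat_lit 82) (.e (nat_lit 8435) (nat_lit 138) (.e (nat_lit 1006) (nat_lit 81) .nil)))))))) (.g (nat_lit 5) .nil .nil))) 
(.lf (nat_lit 56009) (.g (nat_lit 1363) (.e (nat_lit 1401) (nat_lit 106) (.e (nat_lit 319531) (nat_lit 16) (.e (nat_lit 286761) (nat_lit 13) (.e (nat_lit 393293) (nat_lit 26) .nil)))) .nil))) (.nd (nat_lit 6) 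
(.lf (nat_lit 55977) (.g (nat_lit 3036) (.e (nat_lit 1401) (nat_lit 106) (.e (nat_lit 319531) (nat_lit 16) (.e (nat_lit 286761) (nat_lit 13) (.e (nat_lit 393271) (nat_lit 23) (.e (nat_lit 425986) (nat_lit 0) .nil))))) .nil)) 
(.lf (nat_lit 56041) (.g (nat_lit 1700) (.e (nat_lit 1401) (nat_lit 106) (.e (nat_lit 319533) (nat_lit 16) (.e (nat_lit 286753) (nat_lit 10) (.e (nat_lit 344160) (nat_lit 37) (.e (nat_lit 647195) (nat_lit 9) .nil))))) .nil)))) (.nd (nat_lit 5) (.nd (nat_lit 6) 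
(.lf (nat_lit 55961) (.g (nat_lit 2554) (.e (nat_lit 1401) (nat_lit 106) (.e (nat_lit 319531) (nat_lit 16) (.e (nat_lit 286761) (nat_lit 13) (.e (nat_lit 393265) (nat_lit 22) (.e (nat_lit 417792) (nat_lit 0) (.e (nat_lit 710) (nat_lit 62) (.e (nat_lit 671747) (nat_lit 0) .nil))))))) (.g (nat_lit 4) .nil .nil))) 
(.lf (nat_lit 56025) (.g (nat_lit 2616) (.e (nat_lit 1401) (nat_lit 106) (.e (nat_lit 319533) (nat_lit 16) (.e (nat_lit 286739) (nat_lit 7) (.e (nat_lit 319533) (nat_lit 16) (.e (nat_lit 286753) (nat_lit 10) (.e (nat_lit 344152) (nat_lit 34) (.e (nat_lit 622600) (nat_lit 5) .nil))))))) (.g (nat_lit 0) .nil .nil)))) (.nd (nat_lit 6) 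
(.lf (nat_lit 55993) (.g (nat_lit 3662) (.e (nat_lit 1401) (nat_lit 106) (.e (nat_lit 319531) (nat_lit 16) (.e (nat_lit 286761) (nat_lit 13) (.e (nat_lit 393283) (nat_lit 24) (.e (nat_lit 434275) (nat_lit 39) (.e (nat_lit 663554) (nat_lit 0) .nil)))))) (.g (nat_lit 6) .nil .nil))) 
(.lf (nat_lit 56057) (.g (nat_lit 1382) (.e (nat_lit 1401) (nat_lit 106) (.e (nat_lit 319534) (nat_lit 16) (.e (nat_lit 286734) (nat_lit 3) (.e (nat_lit 98381) (nat_lit 31) (.e (nat_lit 466977) (nat_lit 22) .nil))))) .nil)))))) (.nd (nat_lit 3) (.nd (nat_lit 4) (.nd (nat_lit 5) (.nd (nat_lit 6) 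
(.lf (nat_lit 55941) (.g (nat_lit 2285) (.e (nat_lit 1401) (nat_lit 106) (.e (nat_lit 319531) (nat_lit 16) (.e (nat_lit 286761) (nat_lit 13) (.e (nat_lit 393234) (nat_lit 17) (.e (nat_lit 7065) (nat_lit 377) (.e (nat_lit 1112) (nat_lit 82) (.e (nat_lit 8435) (nat_lit 138) (.e (nat_lit 1006) (nat_lit 81) .nil)))))))) (.g (nat_lit 4) .nil .nil))) 
(.lf (nat_lit 56005) (.g (nat_lit 1926) (.e (nat_lit 1401) (nat_lit 106) (.e (nat_lit 319531) (nat_lit 16) (.e (nat_lit 286761) (nat_lit 13) (.e (nat_lit 393289) (nat_lit 25) (.e (nat_lit 466688) (nat_lit 18) .nil))))) .nil))) (.nd (nat_lit 6) 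
(.lf (nat_lit 55973) (.g (nat_lit 2115) (.e (nat_lit 1401) (nat_lit 106) (.e (nat_lit 319531) (nat_lit 16) (.e (nat_lit 286761) (nat_lit 13) (.e (nat_lit 393270) (nat_lit 23) (.e (nat_lit 426360) (nat_lit 15) (.e (nat_lit 2247) (nat_lit 147) (.e (nat_lit 745475) (nat_lit 0) .nil))))))) (.g (nat_lit 4) .nil .nil))) 
(.lf (nat_lit 56037) (.g (nat_lit 980) (.e (nat_lit 1401) (nat_lit 106) (.e (nat_lit 319533) (nat_lit 16) (.e (nat_lit 286753) (nat_lit 10) (.e (nat_lit 344157) (nat_lit 36) .nil)))) .nil)))) (.nd (nat_lit 5) (.nd (nat_lit 6) 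
(.lf (nat_lit 55957) (.g (nat_lit 1377) (.e (nat_lit 1401) (nat_lit 106) (.e (nat_lit 319531) (nat_lit 16) (.e (nat_lit 286761) (nat_lit 13) (.e (nat_lit 393264) (nat_lit 22) .nil)))) .nil)) 
(.lf (nat_lit 56021) (.g (nat_lit 654) (.e (nat_lit 1401) (nat_lit 106) (.e (nat_lit 319531) (nat_lit 16) (.e (nat_lit 294656) (nat_lit 34) .nil))) .nil))) (.nd (nat_lit 6) 
(.lf (nat_lit 55989) (.g (nat_lit 2604) (.e (nat_lit 1401) (nat_lit 106) (.e (nat_lit 319531) (nat_lit 16) (.e (nat_lit 286761) (nat_lit 13) (.e (nat_lit 393282) (nat_lit 24) (.e (nat_lit 434274) (nat_lit 39) (.e (nat_lit 663554) (nat_lit 0) .nil)))))) (.g (nat_lit 4) .nil .nil))) 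
(.lf (nat_lit 56053) (.g (nat_lit 1714) (.e (nat_lit 1401) (nat_lit 106) (.e (nat_lit 319534) (nat_lit 16) (.e (nat_lit 286732) (nat_lit 2) (.e (nat_lit 90170) (nat_lit 13) .nil)))) .nil))))) (.nd (nat_lit 4) (.nd (nat_lit 5) (.nd (nat_lit 6) 
(.lf (nat_lit 55949) (.g (nat_lit 2442) (.e (nat_lit 1401) (nat_lit 106) (.e (nat_lit 319531) (nat_lit 16) (.e (nat_lit 286761) (nat_lit 13) (.e (nat_lit 393234) (nat_lit 17) (.e (nat_lit 7065) (nat_lit 377) (.e (nat_lit 1116) (nat_lit 82) (.e (nat_lit 8439) (nat_lit 138) (.e (nat_lit 993) (nat_lit 81) .nil)))))))) (.g (nat_lit 4) .nil .nil))) 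
(.lf (nat_lit 56013) (.g (nat_lit 1506) (.e (nat_lit 1401) (nat_lit 106) (.e (nat_lit 319531) (nat_lit 16) (.e (nat_lit 286761) (nat_lit 13) (.e (nat_lit 393300) (nat_lit 27) .nil)))) .nil))) (.nd (nat_lit 6) 
(.lf (nat_lit 55981) (.g (nat_lit 3765) (.e (nat_lit 1401) (nat_lit 106) (.e (nat_lit 319531) (nat_lit 16) (.e (nat_lit 286761) (nat_lit 13) (.e (nat_lit 393273) (nat_lit 23) (.e (nat_lit 426364) (nat_lit 15) (.e (nat_lit 2242) (nat_lit 147) (.e (nat_lit 745476) (nat_lit 0) .nil))))))) (.g (nat_lit 5) .nil .nil))) 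
(.lf (nat_lit 56045) (.g (nat_lit 522) (.e (nat_lit 1401) (nat_lit 106) (.e (nat_lit 319533) (nat_lit 16) (.e (nat_lit 286761) (nat_lit 13) .nil))) .nil)))) (.nd (nat_lit 5) (.nd (nat_lit 6) 
(.lf (nat_lit 55965) (.g (nat_lit 2184) (.e (nat_lit 1401) (nat_lit 106) (.e (nat_lit 319531) (nat_lit 16) (.e (nat_lit 286761) (nat_lit 13) (.e (nat_lit 393270) (nat_lit 23) (.e (nat_lit 425986) (nat_lit 0) (.e (nat_lit 3419) (nat_lit 213) (.e (nat_lit 663554) (nat_lit 0) .nil))))))) (.g (nat_lit 4) .nil .nil))) 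
(.lf (nat_lit 56029) (.g (nat_lit 1863) (.e (nat_lit 1401) (nat_lit 106) (.e (nat_lit 319533) (nat_lit 16) (.e (nat_lit 286739) (nat_lit 7) (.e (nat_lit 319534) (nat_lit 16) (.e (nat_lit 286756) (nat_lit 10) (.e (nat_lit 344151) (nat_lit 34) (.e (nat_lit 622602) (nat_lit 5) .nil))))))) (.g (nat_lit 4) .nil .nil)))) (.nd (nat_lit 6) 
(.lf (nat_lit 55997) (.g (nat_lit 1183) (.e (nat_lit 1401) (nat_lit 106) (.e (nat_lit 319531) (nat_lit 16) (.e (nat_lit 286761) (nat_lit 13) (.e (nat_lit 393284) (nat_lit 24) .nil)))) .nil)) 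
(.lf (nat_lit 56061) (.g (nat_lit 2657) (.e (nat_lit 1401) (nat_lit 106) (.e (nat_lit 319534) (nat_lit 16) (.e (nat_lit 286739) (nat_lit 7) (.e (nat_lit 319533) (nat_lit 16) (.e (nat_lit 286753) (nat_lit 10) (.e (nat_lit 344150) (nat_lit 34) (.e (nat_lit 622601) (nat_lit 5) .nil))))))) (.g (nat_lit 6) .nil .nil)))))))) 
(.nd (nat_lit 2) (.nd (nat_lit 3) (.nd (nat_lit 4) (.nd (nat_lit 5) (.nd (nat_lit 6) 
(.lf (nat_lit 55939) (.g (nat_lit 3011) (.e (nat_lit 1401) (nat_lit 106) (.e (nat_lit 319531) (nat_lit 16) (.e (nat_lit 286761) (nat_lit 13) (.e (nat_lit 393234) (nat_lit 17) (.e (nat_lit 7065) (nat_lit 377) (.e (nat_lit 1003) (nat_lit 81) (.e (nat_lit 710) (nat_lit 62) (.e (nat_lit 671747) (nat_lit 0) .nil)))))))) (.g (nat_lit 5) .nil .nil))) 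
(.lf (nat_lit 56003) (.g (nat_lit 1361) (.e (nat_lit 1401) (nat_lit 106) (.e (nat_lit 319531) (nat_lit 16) (.e (nat_lit 286761) (nat_lit 13) (.e (nat_lit 393289) (nat_lit 25) .nil)))) .nil))) (.nd (nat_lit 6) 
(.lf (nat_lit 55971) (.g (nat_lit 2042) (.e (nat_lit 1401) (nat_lit 106) (.e (nat_lit 319531) (nat_lit 16) (.e (nat_lit 286761) (nat_lit 13) (.e (nat_lit 393270) (nat_lit 23) (.e (nat_lit 426112) (nat_lit 1) .nil))))) .nil)) 
(.lf (nat_lit 56035) (.g (nat_lit 1812) (.e (nat_lit 1401) (nat_lit 106) (.e (nat_lit 319533) (nat_lit 16) (.e (nat_lit 286753) (nat_lit 10) (.e (nat_lit 344154) (nat_lit 35) (.e (nat_lit 630803) (nat_lit 9) (.e (nat_lit 188160) (nat_lit 32) .nil)))))) (.g (nat_lit 5) .nil .nil))))) (.nd (nat_lit 5) (.nd (nat_lit 6) 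
(.lf (nat_lit 55955) (.g (nat_lit 2896) (.e (nat_lit 1401) (nat_lit 106) (.e (nat_lit 319531) (nat_lit 16) (.e (nat_lit 286761) (nat_lit 13) (.e (nat_lit 393234) (nat_lit 17) (.e (nat_lit 7936) (nat_lit 403) .nil))))) .nil)) 
(.lf (nat_lit 56019) (.g (nat_lit 4959) (.e (nat_lit 1401) (nat_lit 106) (.e (nat_lit 319531) (nat_lit 16) (.e (nat_lit 286761) (nat_lit 13) (.e (nat_lit 393301) (nat_lit 27) (.e (nat_lit 491576) (nat_lit 15) .nil))))) .nil))) (.nd (nat_lit 6) 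
(.lf (nat_lit 55987) (.g (nat_lit 1916) (.e (nat_lit 1401) (nat_lit 106) (.e (nat_lit 319531) (nat_lit 16) (.e (nat_lit 286761) (nat_lit 13) (.e (nat_lit 393279) (nat_lit 23) .nil)))) .nil)) 
(.lf (nat_lit 56051) (.g (nat_lit 1764) (.e (nat_lit 1401) (nat_lit 106) (.e (nat_lit 319533) (nat_lit 16) (.e (nat_lit 286761) (nat_lit 13) (.e (nat_lit 393284) (nat_lit 24) (.e (nat_lit 434276) (nat_lit 39) .nil))))) .nil))))) (.nd (nat_lit 4) (.nd (nat_lit 5) (.nd (nat_lit 6) 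
(.lf (nat_lit 55947) (.g (nat_lit 3212) (.e (nat_lit 1401) (nat_lit 106) (.e (nat_lit 319531) (nat_lit 16) (.e (nat_lit 286761) (nat_lit 13) (.e (nat_lit 393234) (nat_lit 17) (.e (nat_lit 7065) (nat_lit 377) (.e (nat_lit 1115) (nat_lit 82) (.e (nat_lit 8439) (nat_lit 138) (.e (nat_lit 993) (nat_lit 81) .nil)))))))) (.g (nat_lit 5) .nil .nil))) 
(.lf (nat_lit 56011) (.g (nat_lit 3300) (.e (nat_lit 1401) (nat_lit 106) (.e (nat_lit 319531) (nat_lit 16) (.e (nat_lit 286761) (nat_lit 13) (.e (nat_lit 393293) (nat_lit 26) (.e (nat_lit 475221) (nat_lit 45) (.e (nat_lit 745475) (nat_lit 0) .nil)))))) (.g (nat_lit 5) .nil .nil)))) (.nd (nat_lit 6) 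
(.lf (nat_lit 55979) (.g (nat_lit 1936) (.e (nat_lit 1401) (nat_lit 106) (.e (nat_lit 319531) (nat_lit 16) (.e (nat_lit 286761) (nat_lit 13) (.e (nat_lit 393273) (nat_lit 23) .nil)))) .nil)) 
(.lf (nat_lit 56043) (.g (nat_lit 559) (.e (nat_lit 1401) (nat_lit 106) (.e (nat_lit 319533) (nat_lit 16) (.e (nat_lit 286760) (nat_lit 13) .nil))) .nil)))) (.nd (nat_lit 5) (.nd (nat_lit 6) 
(.lf (nat_lit 55963) (.g (nat_lit 1936) (.e (nat_lit 1401) (nat_lit 106) (.e (nat_lit 319531) (nat_lit 16) (.e (nat_lit 286761) (nat_lit 13) (.e (nat_lit 393269) (nat_lit 23) .nil)))) .nil)) 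
(.lf (nat_lit 56027) (.g (nat_lit 1997) (.e (nat_lit 1401) (nat_lit 106) (.e (nat_lit 319533) (nat_lit 16) (.e (nat_lit 286739) (nat_lit 7) (.e (nat_lit 319533) (nat_lit 16) (.e (nat_lit 286753) (nat_lit 10) (.e (nat_lit 344152) (nat_lit 34) (.e (nat_lit 622602) (nat_lit 5) .nil))))))) (.g (nat_lit 5) .nil .nil)))) (.nd (nat_lit 6) 
(.lf (nat_lit 55995) (.g (nat_lit 2071) (.e (nat_lit 1401) (nat_lit 106) (.e (nat_lit 319531) (nat_lit 16) (.e (nat_lit 286761) (nat_lit 13) (.e (nat_lit 393283) (nat_lit 24) (.e (nat_lit 434281) (nat_lit 40) .nil))))) .nil)) 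
(.lf (nat_lit 56059) (.g (nat_lit 1127) (.e (nat_lit 1401) (nat_lit 106) (.e (nat_lit 319534) (nat_lit 16) (.e (nat_lit 286735) (nat_lit 3) (.e (nat_lit 98359) (nat_lit 26) .nil)))) .nil)))))) (.nd (nat_lit 3) (.nd (nat_lit 4) (.nd (nat_lit 5) (.nd (nat_lit 6) 
(.lf (nat_lit 55943) (.g (nat_lit 2805) (.e (nat_lit 1401) (nat_lit 106) (.e (nat_lit 319531) (nat_lit 16) (.e (nat_lit 286761) (nat_lit 13) (.e (nat_lit 393234) (nat_lit 17) (.e (nat_lit 7065) (nat_lit 377) (.e (nat_lit 1112) (nat_lit 82) (.e (nat_lit 8439) (nat_lit 138) (.e (nat_lit 993) (nat_lit 81) .nil)))))))) (.g (nat_lit 5) .nil .nil))) 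
(.lf (nat_lit 56007) (.g (nat_lit 2095) (.e (nat_lit 1401) (nat_lit 106) (.e (nat_lit 319531) (nat_lit 16) (.e (nat_lit 286761) (nat_lit 13) (.e (nat_lit 393289) (nat_lit 25) (.e (nat_lit 466688) (nat_lit 40) (.e (nat_lit 671747) (nat_lit 0) .nil)))))) (.g (nat_lit 4) .nil .nil)))) (.nd (nat_lit 6) 
(.lf (nat_lit 55975) (.g (nat_lit 2925) (.e (nat_lit 1401) (nat_lit 106) (.e (nat_lit 319531) (nat_lit 16) (.e (nat_lit 286761) (nat_lit 13) (.e (nat_lit 393270) (nat_lit 23) (.e (nat_lit 426402) (nat_lit 15) (.e (nat_lit 2245) (nat_lit 147) (.e (nat_lit 745475) (nat_lit 0) .nil))))))) (.g (nat_lit 5) .nil .nil))) 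
(.lf (nat_lit 56039) (.g (nat_lit 1965) (.e (nat_lit 1401) (nat_lit 106) (.e (nat_lit 319533) (nat_lit 16) (.e (nat_lit 286753) (nat_lit 10) (.e (nat_lit 344157) (nat_lit 36) (.e (nat_lit 639000) (nat_lit 9) (.e (nat_lit 188160) (nat_lit 32) .nil)))))) (.g (nat_lit 5) .nil .nil))))) (.nd (nat_lit 5) (.nd (nat_lit 6) 
(.lf (nat_lit 55959) (.g (nat_lit 2460) (.e (nat_lit 1401) (nat_lit 106) (.e (nat_lit 319531) (nat_lit 16) (.e (nat_lit 286761) (nat_lit 13) (.e (nat_lit 393265) (nat_lit 22) (.e (nat_lit 417792) (nat_lit 0) .nil))))) .nil)) 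
(.lf (nat_lit 56023) (.g (nat_lit 2436) (.e (nat_lit 1401) (nat_lit 106) (.e (nat_lit 319533) (nat_lit 16) (.e (nat_lit 286739) (nat_lit 7) (.e (nat_lit 319533) (nat_lit 16) (.e (nat_lit 286753) (nat_lit 10) (.e (nat_lit 344150) (nat_lit 34) (.e (nat_lit 622601) (nat_lit 5) .nil))))))) (.g (nat_lit 6) .nil .nil)))) (.nd (nat_lit 6) 
(.lf (nat_lit 55991) (.g (nat_lit 2244) (.e (nat_lit 1401) (nat_lit 106) (.e (nat_lit 319531) (nat_lit 16) (.e (nat_lit 286761) (nat_lit 13) (.e (nat_lit 393282) (nat_lit 24) (.e (nat_lit 434281) (nat_lit 40) (.e (nat_lit 671747) (nat_lit 0) .nil)))))) (.g (nat_lit 4) .nil .nil))) 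
(.lf (nat_lit 56055) (.g (nat_lit 3954) (.e (nat_lit 1401) (nat_lit 106) (.e (nat_lit 319534) (nat_lit 16) (.e (nat_lit 286732) (nat_lit 2) (.e (nat_lit 90176) (nat_lit 15) (.e (nat_lit 188447) (nat_lit 22) (.e (nat_lit 196630) (nat_lit 9) .nil)))))) (.g (nat_lit 6) .nil .nil)))))) (.nd (nat_lit 4) (.nd (nat_lit 5) (.nd (nat_lit 6) 
(.lf (nat_lit 55951) (.g (nat_lit 2733) (.e (nat_lit 1401) (nat_lit 106) (.e (nat_lit 319531) (nat_lit 16) (.e (nat_lit 286761) (nat_lit 13) (.e (nat_lit 393234) (nat_lit 17) (.e (nat_lit 7383) (nat_lit 391) (.e (nat_lit 164006) (nat_lit 41) (.e (nat_lit 663554) (nat_lit 0) .nil))))))) (.g (nat_lit 4) .nil .nil))) 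
(.lf (nat_lit 56015) (.g (nat_lit 3105) (.e (nat_lit 1401) (nat_lit 106) (.e (nat_lit 319531) (nat_lit 16) (.e (nat_lit 286761) (nat_lit 13) (.e (nat_lit 393300) (nat_lit 27) (.e (nat_lit 491577) (nat_lit 15) (.e (nat_lit 3576) (nat_lit 223) (.e (nat_lit 745476) (nat_lit 0) .nil))))))) (.g (nat_lit 4) .nil .nil)))) (.nd (nat_lit 6) 
(.lf (nat_lit 55983) (.g (nat_lit 4052) (.e (nat_lit 1401) (nat_lit 106) (.e (nat_lit 319531) (nat_lit 16) (.e (nat_lit 286761) (nat_lit 13) (.e (nat_lit 393273) (nat_lit 23) (.e (nat_lit 426364) (nat_lit 15) (.e (nat_lit 2247) (nat_lit 147) (.e (nat_lit 745475) (nat_lit 0) .nil))))))) (.g (nat_lit 5) .nil .nil))) 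
(.lf (nat_lit 56047) (.g (nat_lit 2285) (.e (nat_lit 1401) (nat_lit 106) (.e (nat_lit 319533) (nat_lit 16) (.e (nat_lit 286761) (nat_lit 13) (.e (nat_lit 393282) (nat_lit 24) (.e (nat_lit 434275) (nat_lit 39) (.e (nat_lit 663554) (nat_lit 0) .nil)))))) (.g (nat_lit 4) .nil .nil))))) (.nd (nat_lit 5) (.nd (nat_lit 6) 
(.lf (nat_lit 55967) (.g (nat_lit 2334) (.e (nat_lit 1401) (nat_lit 106) (.e (nat_lit 319531) (nat_lit 16) (.e (nat_lit 286761) (nat_lit 13) (.e (nat_lit 393270) (nat_lit 23) (.e (nat_lit 425998) (nat_lit 0) (.e (nat_lit 3430) (nat_lit 213) (.e (nat_lit 663554) (nat_lit 0) .nil))))))) (.g (nat_lit 4) .nil .nil))) 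
(.lf (nat_lit 56031) (.g (nat_lit 2530) (.e (nat_lit 1401) (nat_lit 106) (.e (nat_lit 319533) (nat_lit 16) (.e (nat_lit 286739) (nat_lit 7) (.e (nat_lit 319534) (nat_lit 16) (.e (nat_lit 286756) (nat_lit 10) (.e (nat_lit 344152) (nat_lit 34) (.e (nat_lit 622601) (nat_lit 5) .nil))))))) (.g (nat_lit 5) .nil .nil)))) (.nd (nat_lit 6) 
(.lf (nat_lit 55999) (.g (nat_lit 2484) (.e (nat_lit 1401) (nat_lit 106) (.e (nat_lit 319531) (nat_lit 16) (.e (nat_lit 286761) (nat_lit 13) (.e (nat_lit 393284) (nat_lit 24) (.e (nat_lit 434281) (nat_lit 40) (.e (nat_lit 671747) (nat_lit 0) .nil)))))) (.g (nat_lit 5) .nil .nil))) 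
(.lf (nat_lit 56063) (.g (nat_lit 2215) (.e (nat_lit 1401) (nat_lit 106) (.e (nat_lit 319534) (nat_lit 16) (.e (nat_lit 286739) (nat_lit 7) (.e (nat_lit 319533) (nat_lit 16) (.e (nat_lit 286753) (nat_lit 10) (.e (nat_lit 344152) (nat_lit 34) (.e (nat_lit 622602) (nat_lit 5) .nil))))))) (.g (nat_lit 5) .nil .nil))))))))))

noncomputable def tv774 : DT := (.nd (nat_lit 0) (.nd (nat_lit 1) (.nd (nat_lit 2) (.nd (nat_lit 3) (.nd (nat_lit 4) (.nd (nat_lit 5) (.nd (nat_lit 6) 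
(.lf (nat_lit 56064) (.g (nat_lit 2949) (.e (nat_lit 1401) (nat_lit 106) (.e (nat_lit 319534) (nat_lit 16) (.e (nat_lit 286739) (nat_lit 7) (.e (nat_lit 319534) (nat_lit 16) (.e (nat_lit 286756) (nat_lit 10) (.e (nat_lit 344150) (nat_lit 34) (.e (nat_lit 622601) (nat_lit 5) .nil))))))) (.g (nat_lit 5) .nil .nil))) 
(.lf (nat_lit 56128) (.g (nat_lit 2886) (.e (nat_lit 1413) (nat_lit 108) (.e (nat_lit 335915) (nat_lit 0) (.e (nat_lit 1812) (nat_lit 120) (.e (nat_lit 524322) (nat_lit 12) (.e (nat_lit 450588) (nat_lit 10) (.e (nat_lit 573474) (nat_lit 12) (.e (nat_lit 57572) (nat_lit 54) (.e (nat_lit 770057) (nat_lit 5) .nil)))))))) (.g (nat_lit 8) .nil .nil)))) (.nd (nat_lit 6) 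
(.lf (nat_lit 56096) (.g (nat_lit 2744) (.e (nat_lit 1401) (nat_lit 106) (.e (nat_lit 319534) (nat_lit 16) (.e (nat_lit 286761) (nat_lit 13) (.e (nat_lit 393284) (nat_lit 24) (.e (nat_lit 434276) (nat_lit 39) (.e (nat_lit 663554) (nat_lit 0) .nil)))))) (.g (nat_lit 0) .nil .nil))) 
(.lf (nat_lit 56160) (.g (nat_lit 3105) (.e (nat_lit 1413) (nat_lit 108) (.e (nat_lit 336099) (nat_lit 9) (.e (nat_lit 336013) (nat_lit 2) (.e (nat_lit 90131) (nat_lit 9) .nil)))) .nil)))) (.nd (nat_lit 5) (.nd (nat_lit 6) 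
(.lf (nat_lit 56080) (.g (nat_lit 1615) (.e (nat_lit 1401) (nat_lit 106) (.e (nat_lit 319534) (nat_lit 16) (.e (nat_lit 286756) (nat_lit 10) (.e (nat_lit 344157) (nat_lit 36) (.e (nat_lit 638985) (nat_lit 5) .nil))))) .nil)) 
(.lf (nat_lit 56144) (.g (nat_lit 4463) (.e (nat_lit 1413) (nat_lit 108) (.e (nat_lit 336013) (nat_lit 2) (.e (nat_lit 90170) (nat_lit 13) (.e (nat_lit 172113) (nat_lit 10) (.e (nat_lit 434248) (nat_lit 28) (.e (nat_lit 573473) (nat_lit 12) (.e (nat_lit 57569) (nat_lit 53) (.e (nat_lit 761867) (nat_lit 5) .nil)))))))) (.g (nat_lit 8) .nil .nil)))) (.nd (nat_lit 6) 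
(.lf (nat_lit 56112) (.g (nat_lit 2827) (.e (nat_lit 1407) (nat_lit 107) (.e (nat_lit 327708) (nat_lit 10) (.e (nat_lit 5270) (nat_lit 298) (.e (nat_lit 1256) (nat_lit 92) .nil)))) .nil)) 
(.lf (nat_lit 56176) (.g (nat_lit 2671) (.e (nat_lit 1413) (nat_lit 108) (.e (nat_lit 336211) (nat_lit 13) (.e (nat_lit 393301) (nat_lit 27) (.e (nat_lit 491559) (nat_lit 10) (.e (nat_lit 344177) (nat_lit 43) .nil))))) .nil))))) (.nd (nat_lit 4) (.nd (nat_lit 5) (.nd (nat_lit 6) 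
(.lf (nat_lit 56072) (.g (nat_lit 480) (.e (nat_lit 1401) (nat_lit 106) (.e (nat_lit 319534) (nat_lit 16) (.e (nat_lit 286743) (nat_lit 9) .nil))) .nil)) 
(.lf (nat_lit 56136) (.g (nat_lit 4630) (.e (nat_lit 1413) (nat_lit 108) (.e (nat_lit 336013) (nat_lit 2) (.e (nat_lit 90170) (nat_lit 13) (.e (nat_lit 172113) (nat_lit 10) (.e (nat_lit 434245) (nat_lit 28) (.e (nat_lit 573473) (nat_lit 12) (.e (nat_lit 57569) (nat_lit 53) (.e (nat_lit 761866) (nat_lit 5) .nil)))))))) (.g (nat_lit 8) .nil .nil)))) (.nd (nat_lit 6) 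
(.lf (nat_lit 56104) (.g (nat_lit 936) (.e (nat_lit 7936) (nat_lit 106) (.e (nat_lit 319531) (nat_lit 16) (.e (nat_lit 286735) (nat_lit 3) (.e (nat_lit 98371) (nat_lit 28) .nil)))) .nil)) 
(.lf (nat_lit 56168) (.g (nat_lit 2170) (.e (nat_lit 1413) (nat_lit 108) (.e (nat_lit 336176) (nat_lit 10) (.e (nat_lit 344130) (nat_lit 26) (.e (nat_lit 557087) (nat_lit 11) (.e (nat_lit 24617) (nat_lit 7) (.e (nat_lit 319504) (nat_lit 10) (.e (nat_lit 531) (nat_lit 41) (.e (nat_lit 499991) (nat_lit 14) .nil)))))))) (.g (nat_lit 4) .nil .nil))))) (.nd (nat_lit 5) (.nd (nat_lit 6) 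
(.lf (nat_lit 56088) (.g (nat_lit 362) (.e (nat_lit 1401) (nat_lit 106) (.e (nat_lit 319534) (nat_lit 16) (.e (nat_lit 286761) (nat_lit 13) .nil))) .nil)) 
(.lf (nat_lit 56152) (.g (nat_lit 1809) (.e (nat_lit 1413) (nat_lit 108) (.e (nat_lit 336028) (nat_lit 3) (.e (nat_lit 98372) (nat_lit 29) (.e (nat_lit 450586) (nat_lit 10) (.e (nat_lit 573475) (nat_lit 12) .nil))))) .nil))) (.nd (nat_lit 6) 
(.lf (nat_lit 56120) (.g (nat_lit 3424) (.e (nat_lit 1410) (nat_lit 107) (.e (nat_lit 327699) (nat_lit 8) (.e (nat_lit 303117) (nat_lit 2) (.e (nat_lit 196670) (nat_lit 14) (.e (nat_lit 73792) (nat_lit 45) .nil))))) .nil)) 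
(.lf (nat_lit 56184) (.g (nat_lit 4043) (.e (nat_lit 1413) (nat_lit 108) (.e (nat_lit 336324) (nat_lit 18) (.e (nat_lit 204831) (nat_lit 18) (.e (nat_lit 57830) (nat_lit 250) .nil)))) .nil)))))) (.nd (nat_lit 3) (.nd (nat_lit 4) (.nd (nat_lit 5) (.nd (nat_lit 6) 
(.lf (nat_lit 56068) (.g (nat_lit 2777) (.e (nat_lit 1401) (nat_lit 106) (.e (nat_lit 319534) (nat_lit 16) (.e (nat_lit 286739) (nat_lit 7) (.e (nat_lit 319534) (nat_lit 16) (.e (nat_lit 286756) (nat_lit 10) (.e (nat_lit 344152) (nat_lit 34) (.e (nat_lit 622601) (nat_lit 5) .nil))))))) (.g (nat_lit 5) .nil .nil))) 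
(.lf (nat_lit 56132) (.g (nat_lit 3736) (.e (nat_lit 1413) (nat_lit 108) (.e (nat_lit 336013) (nat_lit 2) (.e (nat_lit 90170) (nat_lit 13) (.e (nat_lit 172106) (nat_lit 10) (.e (nat_lit 434231) (nat_lit 23) (.e (nat_lit 532500) (nat_lit 1) (.e (nat_lit 57765) (nat_lit 221) (.e (nat_lit 1077) (nat_lit 81) .nil)))))))) (.g (nat_lit 5) .nil .nil)))) (.nd (nat_lit 6) 
(.lf (nat_lit 56100) (.g (nat_lit 1796) (.e (nat_lit 7936) (nat_lit 106) (.e (nat_lit 319530) (nat_lit 16) (.e (nat_lit 286733) (nat_lit 2) (.e (nat_lit 90178) (nat_lit 15) (.e (nat_lit 188448) (nat_lit 22) .nil))))) .nil)) 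
(.lf (nat_lit 56164) (.g (nat_lit 875) (.e (nat_lit 1413) (nat_lit 108) (.e (nat_lit 336099) (nat_lit 9) (.e (nat_lit 336013) (nat_lit 2) (.e (nat_lit 98048) (nat_lit 16) .nil)))) .nil)))) (.nd (nat_lit 5) (.nd (nat_lit 6) 
(.lf (nat_lit 56084) (.g (nat_lit 739) (.e (nat_lit 1401) (nat_lit 106) (.e (nat_lit 319534) (nat_lit 16) (.e (nat_lit 286760) (nat_lit 13) .nil))) .nil)) 
(.lf (nat_lit 56148) (.g (nat_lit 2457) (.e (nat_lit 1413) (nat_lit 108) (.e (nat_lit 336020) (nat_lit 3) (.e (nat_lit 98373) (nat_lit 29) (.e (nat_lit 450587) (nat_lit 10) (.e (nat_lit 573475) (nat_lit 12) .nil))))) .nil))) (.nd (nat_lit 6) 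
(.lf (nat_lit 56116) (.g (nat_lit 364) (.e (nat_lit 1408) (nat_lit 107) (.e (nat_lit 327715) (nat_lit 16) (.e (nat_lit 286733) (nat_lit 2) .nil))) .nil)) 
(.lf (nat_lit 56180) (.g (nat_lit 1969) (.e (nat_lit 1413) (nat_lit 108) (.e (nat_lit 336228) (nat_lit 14) (.e (nat_lit 401425) (nat_lit 2) (.e (nat_lit 196668) (nat_lit 14) (.e (nat_lit 73782) (nat_lit 32) .nil))))) .nil))))) (.nd (nat_lit 4) (.nd (nat_lit 5) (.nd (nat_lit 6) 
(.lf (nat_lit 56076) (.g (nat_lit 2003) (.e (nat_lit 1401) (nat_lit 106) (.e (nat_lit 319534) (nat_lit 16) (.e (nat_lit 286749) (nat_lit 9) (.e (nat_lit 343808) (nat_lit 29) .nil)))) .nil)) 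
(.lf (nat_lit 56140) (.g (nat_lit 4612) (.e (nat_lit 1413) (nat_lit 108) (.e (nat_lit 336013) (nat_lit 2) (.e (nat_lit 90170) (nat_lit 13) (.e (nat_lit 172113) (nat_lit 10) (.e (nat_lit 434245) (nat_lit 28) (.e (nat_lit 573474) (nat_lit 12) (.e (nat_lit 57569) (nat_lit 53) (.e (nat_lit 761866) (nat_lit 5) .nil)))))))) (.g (nat_lit 7) .nil .nil)))) (.nd (nat_lit 6) 
(.lf (nat_lit 56108) (.g (nat_lit 397) (.e (nat_lit 1402) (nat_lit 107) (.e (nat_lit 327708) (nat_lit 10) (.e (nat_lit 5394) (nat_lit 301) .nil))) .nil)) 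
(.lf (nat_lit 56172) (.g (nat_lit 2309) (.e (nat_lit 1413) (nat_lit 108) (.e (nat_lit 336205) (nat_lit 12) (.e (nat_lit 385074) (nat_lit 31) (.e (nat_lit 573491) (nat_lit 15) (.e (nat_lit 81947) (nat_lit 20) .nil))))) .nil)))) (.nd (nat_lit 5) (.nd (nat_lit 6) 
(.lf (nat_lit 56092) (.g (nat_lit 2432) (.e (nat_lit 1401) (nat_lit 106) (.e (nat_lit 319534) (nat_lit 16) (.e (nat_lit 286761) (nat_lit 13) (.e (nat_lit 393271) (nat_lit 23) (.e (nat_lit 425986) (nat_lit 0) (.e (nat_lit 3421) (nat_lit 213) (.e (nat_lit 663554) (nat_lit 0) .nil))))))) (.g (nat_lit 4) .nil .nil))) 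
(.lf (nat_lit 56156) (.g (nat_lit 2348) (.e (nat_lit 1413) (nat_lit 108) (.e (nat_lit 336028) (nat_lit 3) (.e (nat_lit 98373) (nat_lit 29) (.e (nat_lit 450588) (nat_lit 10) (.e (nat_lit 573473) (nat_lit 12) .nil))))) .nil))) (.nd (nat_lit 6) 
(.lf (nat_lit 56124) (.g (nat_lit 1253) (.e (nat_lit 1410) (nat_lit 107) (.e (nat_lit 327708) (nat_lit 10) (.e (nat_lit 5394) (nat_lit 301) (.e (nat_lit 57464) (nat_lit 23) .nil)))) .nil)) 
(.lf (nat_lit 56188) (.g (nat_lit 1847) (.e (nat_lit 1413) (nat_lit 108) (.e (nat_lit 336324) (nat_lit 18) (.e (nat_lit 204854) (nat_lit 26) (.e (nat_lit 336325) (nat_lit 18) .nil)))) .nil))))))) (.nd (nat_lit 2) (.nd (nat_lit 3) (.nd (nat_lit 4) (.nd (nat_lit 5) (.nd (nat_lit 6) 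
(.lf (nat_lit 56066) (.g (nat_lit 2114) (.e (nat_lit 1401) (nat_lit 106) (.e (nat_lit 319534) (nat_lit 16) (.e (nat_lit 286739) (nat_lit 7) (.e (nat_lit 319534) (nat_lit 16) (.e (nat_lit 286756) (nat_lit 10) (.e (nat_lit 344151) (nat_lit 34) (.e (nat_lit 622602) (nat_lit 5) .nil))))))) (.g (nat_lit 4) .nil .nil))) 
(.lf (nat_lit 56130) (.g (nat_lit 3234) (.e (nat_lit 1413) (nat_lit 108) (.e (nat_lit 336013) (nat_lit 2) (.e (nat_lit 90170) (nat_lit 13) (.e (nat_lit 172106) (nat_lit 10) (.e (nat_lit 434231) (nat_lit 23) (.e (nat_lit 532483) (nat_lit 0) (.e (nat_lit 1912) (nat_lit 129) (.e (nat_lit 598022) (nat_lit 5) .nil)))))))) (.g (nat_lit 5) .nil .nil)))) (.nd (nat_lit 6) 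
(.lf (nat_lit 56098) (.g (nat_lit 2192) (.e (nat_lit 1401) (nat_lit 106) (.e (nat_lit 319534) (nat_lit 16) (.e (nat_lit 286761) (nat_lit 13) (.e (nat_lit 393293) (nat_lit 26) (.e (nat_lit 483072) (nat_lit 45) .nil))))) .nil)) 
(.lf (nat_lit 56162) (.g (nat_lit 4160) (.e (nat_lit 1413) (nat_lit 108) (.e (nat_lit 336099) (nat_lit 9) (.e (nat_lit 336013) (nat_lit 2) (.e (nat_lit 90134) (nat_lit 9) (.e (nat_lit 2824) (nat_lit 182) .nil))))) .nil)))) (.nd (nat_lit 5) (.nd (nat_lit 6) 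
(.lf (nat_lit 56082) (.g (nat_lit 1329) (.e (nat_lit 1401) (nat_lit 106) (.e (nat_lit 319534) (nat_lit 16) (.e (nat_lit 286756) (nat_lit 10) (.e (nat_lit 344160) (nat_lit 37) .nil)))) .nil)) 
(.lf (nat_lit 56146) (.g (nat_lit 3033) (.e (nat_lit 1413) (nat_lit 108) (.e (nat_lit 336013) (nat_lit 2) (.e (nat_lit 90170) (nat_lit 13) (.e (nat_lit 172113) (nat_lit 10) (.e (nat_lit 434248) (nat_lit 28) (.e (nat_lit 573475) (nat_lit 12) (.e (nat_lit 57568) (nat_lit 53) (.e (nat_lit 761868) (nat_lit 5) .nil)))))))) (.g (nat_lit 5) .nil .nil)))) (.nd (nat_lit 6) 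
(.lf (nat_lit 56114) (.g (nat_lit 2711) (.e (nat_lit 1408) (nat_lit 107) (.e (nat_lit 327708) (nat_lit 10) (.e (nat_lit 5270) (nat_lit 298) (.e (nat_lit 1256) (nat_lit 92) .nil)))) .nil)) 
(.lf (nat_lit 56178) (.g (nat_lit 1704) (.e (nat_lit 1413) (nat_lit 108) (.e (nat_lit 336224) (nat_lit 13) (.e (nat_lit 393301) (nat_lit 27) (.e (nat_lit 491560) (nat_lit 10) (.e (nat_lit 344173) (nat_lit 42) .nil))))) .nil))))) (.nd (nat_lit 4) (.nd (nat_lit 5) (.nd (nat_lit 6) 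
(.lf (nat_lit 56074) (.g (nat_lit 895) (.e (nat_lit 1401) (nat_lit 106) (.e (nat_lit 319534) (nat_lit 16) (.e (nat_lit 286749) (nat_lit 9) .nil))) .nil)) 
(.lf (nat_lit 56138) (.g (nat_lit 3418) (.e (nat_lit 1413) (nat_lit 108) (.e (nat_lit 336013) (nat_lit 2) (.e (nat_lit 90170) (nat_lit 13) (.e (nat_lit 172113) (nat_lit 10) (.e (nat_lit 434245) (nat_lit 28) (.e (nat_lit 573473) (nat_lit 12) (.e (nat_lit 57569) (nat_lit 53) (.e (nat_lit 761868) (nat_lit 5) .nil)))))))) (.g (nat_lit 6) .nil .nil)))) (.nd (nat_lit 6) 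
(.lf (nat_lit 56106) (.g (nat_lit 1388) (.e (nat_lit 7936) (nat_lit 106) (.e (nat_lit 319534) (nat_lit 16) (.e (nat_lit 286734) (nat_lit 3) (.e (nat_lit 98370) (nat_lit 28) .nil)))) .nil)) 
(.lf (nat_lit 56170) (.g (nat_lit 539) (.e (nat_lit 1413) (nat_lit 108) (.e (nat_lit 336193) (nat_lit 12) (.e (nat_lit 385106) (nat_lit 50) .nil))) .nil)))) (.nd (nat_lit 5) (.nd (nat_lit 6) 
(.lf (nat_lit 56090) (.g (nat_lit 1128) (.e (nat_lit 1401) (nat_lit 106) (.e (nat_lit 319534) (nat_lit 16) (.e (nat_lit 286761) (nat_lit 13) (.e (nat_lit 393270) (nat_lit 23) .nil)))) .nil)) 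
(.lf (nat_lit 56154) (.g (nat_lit 2111) (.e (nat_lit 1413) (nat_lit 108) (.e (nat_lit 336028) (nat_lit 3) (.e (nat_lit 98373) (nat_lit 29) (.e (nat_lit 450587) (nat_lit 10) (.e (nat_lit 573478) (nat_lit 12) .nil))))) .nil))) (.nd (nat_lit 6) 
(.lf (nat_lit 56122) (.g (nat_lit 1862) (.e (nat_lit 1410) (nat_lit 107) (.e (nat_lit 327708) (nat_lit 10) (.e (nat_lit 5270) (nat_lit 298) (.e (nat_lit 1256) (nat_lit 92) .nil)))) .nil)) 
(.lf (nat_lit 56186) (.g (nat_lit 4114) (.e (nat_lit 1413) (nat_lit 108) (.e (nat_lit 336324) (nat_lit 18) (.e (nat_lit 204831) (nat_lit 18) (.e (nat_lit 57852) (nat_lit 252) .nil)))) .nil)))))) (.nd (nat_lit 3) (.nd (nat_lit 4) (.nd (nat_lit 5) (.nd (nat_lit 6) 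
(.lf (nat_lit 56070) (.g (nat_lit 570) (.e (nat_lit 1401) (nat_lit 106) (.e (nat_lit 319534) (nat_lit 16) (.e (nat_lit 286740) (nat_lit 7) .nil))) .nil)) 
(.lf (nat_lit 56134) (.g (nat_lit 2104) (.e (nat_lit 1413) (nat_lit 108) (.e (nat_lit 336013) (nat_lit 2) (.e (nat_lit 90170) (nat_lit 13) (.e (nat_lit 172113) (nat_lit 10) (.e (nat_lit 434242) (nat_lit 28) (.e (nat_lit 573473) (nat_lit 12) (.e (nat_lit 57569) (nat_lit 53) (.e (nat_lit 761867) (nat_lit 5) .nil)))))))) (.g (nat_lit 4) .nil .nil)))) (.nd (nat_lit 6) 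
(.lf (nat_lit 56102) (.g (nat_lit 1586) (.e (nat_lit 7936) (nat_lit 106) (.e (nat_lit 319530) (nat_lit 16) (.e (nat_lit 286735) (nat_lit 3) (.e (nat_lit 98382) (nat_lit 31) (.e (nat_lit 466974) (nat_lit 22) .nil))))) .nil)) 
(.lf (nat_lit 56166) (.g (nat_lit 1450) (.e (nat_lit 1413) (nat_lit 108) (.e (nat_lit 336173) (nat_lit 10) (.e (nat_lit 344169) (nat_lit 40) (.e (nat_lit 671764) (nat_lit 6) (.e (nat_lit 81933) (nat_lit 20) .nil))))) .nil)))) (.nd (nat_lit 5) (.nd (nat_lit 6) 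
(.lf (nat_lit 56086) (.g (nat_lit 2010) (.e (nat_lit 1401) (nat_lit 106) (.e (nat_lit 319534) (nat_lit 16) (.e (nat_lit 286760) (nat_lit 13) (.e (nat_lit 393282) (nat_lit 24) (.e (nat_lit 434275) (nat_lit 39) (.e (nat_lit 663554) (nat_lit 0) .nil)))))) (.g (nat_lit 4) .nil .nil))) 
(.lf (nat_lit 56150) (.g (nat_lit 1197) (.e (nat_lit 1413) (nat_lit 108) (.e (nat_lit 336028) (nat_lit 3) (.e (nat_lit 98372) (nat_lit 29) (.e (nat_lit 450586) (nat_lit 10) .nil)))) .nil))) (.nd (nat_lit 6) 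
(.lf (nat_lit 56118) (.g (nat_lit 2209) (.e (nat_lit 1409) (nat_lit 107) (.e (nat_lit 327708) (nat_lit 10) (.e (nat_lit 5394) (nat_lit 301) (.e (nat_lit 57464) (nat_lit 23) .nil)))) .nil)) 
(.lf (nat_lit 56182) (.g (nat_lit 1801) (.e (nat_lit 1413) (nat_lit 108) (.e (nat_lit 336295) (nat_lit 15) (.e (nat_lit 3305) (nat_lit 202) (.e (nat_lit 573484) (nat_lit 13) .nil)))) .nil))))) (.nd (nat_lit 4) (.nd (nat_lit 5) (.nd (nat_lit 6) 
(.lf (nat_lit 56078) (.g (nat_lit 2411) (.e (nat_lit 1401) (nat_lit 106) (.e (nat_lit 319534) (nat_lit 16) (.e (nat_lit 286756) (nat_lit 10) (.e (nat_lit 344156) (nat_lit 36) (.e (nat_lit 638998) (nat_lit 8) (.e (nat_lit 172034) (nat_lit 0) (.e (nat_lit 7496) (nat_lit 402) .nil))))))) (.g (nat_lit 4) .nil .nil))) 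
(.lf (nat_lit 56142) (.g (nat_lit 2162) (.e (nat_lit 1413) (nat_lit 108) (.e (nat_lit 336013) (nat_lit 2) (.e (nat_lit 90170) (nat_lit 13) (.e (nat_lit 172113) (nat_lit 10) (.e (nat_lit 434248) (nat_lit 28) .nil))))) .nil))) (.nd (nat_lit 6) 
(.lf (nat_lit 56110) (.g (nat_lit 2827) (.e (nat_lit 1405) (nat_lit 107) (.e (nat_lit 327708) (nat_lit 10) (.e (nat_lit 5270) (nat_lit 298) (.e (nat_lit 1256) (nat_lit 92) .nil)))) .nil)) 
(.lf (nat_lit 56174) (.g (nat_lit 2098) (.e (nat_lit 1413) (nat_lit 108) (.e (nat_lit 336205) (nat_lit 12) (.e (nat_lit 385106) (nat_lit 50) (.e (nat_lit 786481) (nat_lit 30) (.e (nat_lit 368384) (nat_lit 17) .nil))))) .nil)))) (.nd (nat_lit 5) (.nd (nat_lit 6) 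
(.lf (nat_lit 56094) (.g (nat_lit 1629) (.e (nat_lit 1401) (nat_lit 106) (.e (nat_lit 319534) (nat_lit 16) (.e (nat_lit 286761) (nat_lit 13) (.e (nat_lit 393282) (nat_lit 24) (.e (nat_lit 434274) (nat_lit 39) (.e (nat_lit 663554) (nat_lit 0) .nil)))))) (.g (nat_lit 4) .nil .nil))) 
(.lf (nat_lit 56158) (.g (nat_lit 2192) (.e (nat_lit 1413) (nat_lit 108) (.e (nat_lit 336060) (nat_lit 7) (.e (nat_lit 319534) (nat_lit 16) (.e (nat_lit 286756) (nat_lit 10) (.e (nat_lit 344160) (nat_lit 37) .nil))))) .nil))) (.nd (nat_lit 6) 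
(.lf (nat_lit 56126) (.g (nat_lit 3132) (.e (nat_lit 7936) (nat_lit 107) (.e (nat_lit 327708) (nat_lit 10) (.e (nat_lit 5270) (nat_lit 298) (.e (nat_lit 1256) (nat_lit 92) (.e (nat_lit 98370) (nat_lit 28) .nil))))) .nil)) 
(.lf (nat_lit 56190) (.g (nat_lit 3095) (.e (nat_lit 1413) (nat_lit 108) (.e (nat_lit 336326) (nat_lit 18) (.e (nat_lit 204863) (nat_lit 27) (.e (nat_lit 344133) (nat_lit 26) (.e (nat_lit 557098) (nat_lit 13) (.e (nat_lit 172140) (nat_lit 22) (.e (nat_lit 139266) (nat_lit 0) .nil))))))) (.g (nat_lit 5) .nil .nil))))))))) 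
(.nd (nat_lit 1) (.nd (nat_lit 2) (.nd (nat_lit 3) (.nd (nat_lit 4) (.nd (nat_lit 5) 
(.nd (nat_lit 6) 
(.lf (nat_lit 56065) (.g (nat_lit 2509) (.e (nat_lit 1401) (nat_lit 106) (.e (nat_lit 319534) (nat_lit 16) (.e (nat_lit 286739) (nat_lit 7) (.e (nat_lit 319534) (nat_lit 16) (.e (nat_lit 286756) (nat_lit 10) (.e (nat_lit 344150) (nat_lit 34) (.e (nat_lit 622602) (nat_lit 5) .nil))))))) (.g (nat_lit 5) .nil .nil))) 
(.lf (nat_lit 56129) (.g (nat_lit 2945) (.e (nat_lit 1413) (nat_lit 108) (.e (nat_lit 336013) (nat_lit 2) (.e (nat_lit 90165) (nat_lit 12) (.e (nat_lit 171776) (nat_lit 192) (.e (nat_lit 73746) (nat_lit 3) (.e (nat_lit 516105) (nat_lit 0) (.e (nat_lit 7562) (nat_lit 402) .nil))))))) (.g (nat_lit 6) .nil .nil)))) (.nd (nat_lit 6) 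
(.lf (nat_lit 56097) (.g (nat_lit 1431) (.e (nat_lit 1401) (nat_lit 106) (.e (nat_lit 319534) (nat_lit 16) (.e (nat_lit 286761) (nat_lit 13) (.e (nat_lit 393289) (nat_lit 25) (.e (nat_lit 458807) (nat_lit 40) (.e (nat_lit 671747) (nat_lit 0) .nil)))))) (.g (nat_lit 4) .nil .nil))) 
(.lf (nat_lit 56161) (.g (nat_lit 4292) (.e (nat_lit 1413) (nat_lit 108) (.e (nat_lit 336099) (nat_lit 9) (.e (nat_lit 336013) (nat_lit 2) (.e (nat_lit 90134) (nat_lit 9) (.e (nat_lit 2822) (nat_lit 182) .nil))))) .nil)))) (.nd (nat_lit 5) (.nd (nat_lit 6) 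
(.lf (nat_lit 56081) (.g (nat_lit 2583) (.e (nat_lit 1401) (nat_lit 106) (.e (nat_lit 319534) (nat_lit 16) (.e (nat_lit 286756) (nat_lit 10) (.e (nat_lit 344157) (nat_lit 36) (.e (nat_lit 639000) (nat_lit 9) (.e (nat_lit 188160) (nat_lit 32) .nil)))))) (.g (nat_lit 5) .nil .nil))) 
(.lf (nat_lit 56145) (.g (nat_lit 3521) (.e (nat_lit 1413) (nat_lit 108) (.e (nat_lit 336013) (nat_lit 2) (.e (nat_lit 90170) (nat_lit 13) (.e (nat_lit 172113) (nat_lit 10) (.e (nat_lit 434248) (nat_lit 28) (.e (nat_lit 573473) (nat_lit 12) (.e (nat_lit 57569) (nat_lit 53) (.e (nat_lit 761868) (nat_lit 5) .nil)))))))) (.g (nat_lit 6) .nil .nil)))) (.nd (nat_lit 6) 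
(.lf (nat_lit 56113) (.g (nat_lit 2224) (.e (nat_lit 1407) (nat_lit 107) (.e (nat_lit 327708) (nat_lit 10) (.e (nat_lit 5394) (nat_lit 301) (.e (nat_lit 57464) (nat_lit 23) .nil)))) .nil)) 
(.lf (nat_lit 56177) (.g (nat_lit 1269) (.e (nat_lit 1413) (nat_lit 108) (.e (nat_lit 336224) (nat_lit 13) (.e (nat_lit 393234) (nat_lit 17) (.e (nat_lit 7593) (nat_lit 407) (.e (nat_lit 73772) (nat_lit 24) .nil))))) .nil))))) (.nd (nat_lit 4) (.nd (nat_lit 5) (.nd (nat_lit 6) 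
(.lf (nat_lit 56073) (.g (nat_lit 980) (.e (nat_lit 1401) (nat_lit 106) (.e (nat_lit 319534) (nat_lit 16) (.e (nat_lit 286743) (nat_lit 9) (.e (nat_lit 336434) (nat_lit 30) .nil)))) .nil)) 
(.lf (nat_lit 56137) (.g (nat_lit 4375) (.e (nat_lit 1413) (nat_lit 108) (.e (nat_lit 336013) (nat_lit 2) (.e (nat_lit 90170) (nat_lit 13) (.e (nat_lit 172113) (nat_lit 10) (.e (nat_lit 434245) (nat_lit 28) (.e (nat_lit 573473) (nat_lit 12) (.e (nat_lit 57569) (nat_lit 53) (.e (nat_lit 761867) (nat_lit 5) .nil)))))))) (.g (nat_lit 8) .nil .nil)))) (.nd (nat_lit 6) 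
(.lf (nat_lit 56105) (.g (nat_lit 627) (.e (nat_lit 7936) (nat_lit 106) (.e (nat_lit 319534) (nat_lit 16) (.e (nat_lit 286734) (nat_lit 3) .nil))) .nil)) 
(.lf (nat_lit 56169) (.g (nat_lit 2109) (.e (nat_lit 1413) (nat_lit 108) (.e (nat_lit 336176) (nat_lit 10) (.e (nat_lit 344130) (nat_lit 26) (.e (nat_lit 557087) (nat_lit 11) (.e (nat_lit 24617) (nat_lit 7) (.e (nat_lit 319505) (nat_lit 10) (.e (nat_lit 531) (nat_lit 41) (.e (nat_lit 499991) (nat_lit 14) .nil)))))))) (.g (nat_lit 4) .nil .nil))))) (.nd (nat_lit 5) (.nd (nat_lit 6) 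
(.lf (nat_lit 56089) (.g (nat_lit 1869) (.e (nat_lit 1401) (nat_lit 106) (.e (nat_lit 319534) (nat_lit 16) (.e (nat_lit 286761) (nat_lit 13) (.e (nat_lit 393265) (nat_lit 22) (.e (nat_lit 417792) (nat_lit 0) (.e (nat_lit 704) (nat_lit 61) (.e (nat_lit 663554) (nat_lit 0) .nil))))))) (.g (nat_lit 4) .nil .nil))) 
(.lf (nat_lit 56153) (.g (nat_lit 1786) (.e (nat_lit 1413) (nat_lit 108) (.e (nat_lit 336028) (nat_lit 3) (.e (nat_lit 98372) (nat_lit 29) (.e (nat_lit 450586) (nat_lit 10) (.e (nat_lit 573478) (nat_lit 12) .nil))))) .nil))) (.nd (nat_lit 6) 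
(.lf (nat_lit 56121) (.g (nat_lit 1873) (.e (nat_lit 1410) (nat_lit 107) (.e (nat_lit 327708) (nat_lit 10) (.e (nat_lit 5270) (nat_lit 298) (.e (nat_lit 1239) (nat_lit 91) .nil)))) .nil)) 
(.lf (nat_lit 56185) (.g (nat_lit 4810) (.e (nat_lit 1413) (nat_lit 108) (.e (nat_lit 336324) (nat_lit 18) (.e (nat_lit 204831) (nat_lit 18) (.e (nat_lit 57849) (nat_lit 252) .nil)))) .nil)))))) (.nd (nat_lit 3) (.nd (nat_lit 4) (.nd (nat_lit 5) (.nd (nat_lit 6) 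
(.lf (nat_lit 56069) (.g (nat_lit 1999) (.e (nat_lit 1401) (nat_lit 106) (.e (nat_lit 319534) (nat_lit 16) (.e (nat_lit 286739) (nat_lit 7) (.e (nat_lit 319534) (nat_lit 16) (.e (nat_lit 286756) (nat_lit 10) (.e (nat_lit 344152) (nat_lit 34) (.e (nat_lit 622602) (nat_lit 5) .nil))))))) (.g (nat_lit 4) .nil .nil))) 
(.lf (nat_lit 56133) (.g (nat_lit 1362) (.e (nat_lit 1413) (nat_lit 108) (.e (nat_lit 336013) (nat_lit 2) (.e (nat_lit 90170) (nat_lit 13) (.e (nat_lit 172113) (nat_lit 10) .nil)))) .nil))) (.nd (nat_lit 6) 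
(.lf (nat_lit 56101) (.g (nat_lit 2074) (.e (nat_lit 7936) (nat_lit 106) (.e (nat_lit 319530) (nat_lit 16) (.e (nat_lit 286735) (nat_lit 3) (.e (nat_lit 98381) (nat_lit 31) (.e (nat_lit 466976) (nat_lit 22) .nil))))) .nil)) 
(.lf (nat_lit 56165) (.g (nat_lit 1836) (.e (nat_lit 1413) (nat_lit 108) (.e (nat_lit 336173) (nat_lit 10) (.e (nat_lit 344169) (nat_lit 40) (.e (nat_lit 671764) (nat_lit 6) (.e (nat_lit 81931) (nat_lit 20) (.e (nat_lit 1998) (nat_lit 137) (.e (nat_lit 663554) (nat_lit 0) .nil))))))) (.g (nat_lit 5) .nil .nil))))) (.nd (nat_lit 5) (.nd (nat_lit 6) 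
(.lf (nat_lit 56085) (.g (nat_lit 2765) (.e (nat_lit 1401) (nat_lit 106) (.e (nat_lit 319534) (nat_lit 16) (.e (nat_lit 286760) (nat_lit 13) (.e (nat_lit 393271) (nat_lit 23) (.e (nat_lit 425986) (nat_lit 0) .nil))))) .nil)) 
(.lf (nat_lit 56149) (.g (nat_lit 4726) (.e (nat_lit 1413) (nat_lit 108) (.e (nat_lit 336024) (nat_lit 3) (.e (nat_lit 98373) (nat_lit 29) (.e (nat_lit 450587) (nat_lit 10) (.e (nat_lit 573475) (nat_lit 12) (.e (nat_lit 57572) (nat_lit 54) (.e (nat_lit 770058) (nat_lit 5) .nil))))))) (.g (nat_lit 7) .nil .nil)))) (.nd (nat_lit 6) 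
(.lf (nat_lit 56117) (.g (nat_lit 2827) (.e (nat_lit 1409) (nat_lit 107) (.e (nat_lit 327708) (nat_lit 10) (.e (nat_lit 5270) (nat_lit 298) (.e (nat_lit 1256) (nat_lit 92) .nil)))) .nil)) 
(.lf (nat_lit 56181) (.g (nat_lit 1810) (.e (nat_lit 1413) (nat_lit 108) (.e (nat_lit 336228) (nat_lit 14) (.e (nat_lit 401425) (nat_lit 2) (.e (nat_lit 196672) (nat_lit 15) (.e (nat_lit 81943) (nat_lit 20) .nil))))) .nil))))) (.nd (nat_lit 4) (.nd (nat_lit 5) (.nd (nat_lit 6) 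
(.lf (nat_lit 56077) (.g (nat_lit 2498) (.e (nat_lit 1401) (nat_lit 106) (.e (nat_lit 319534) (nat_lit 16) (.e (nat_lit 286756) (nat_lit 10) (.e (nat_lit 344154) (nat_lit 35) (.e (nat_lit 630803) (nat_lit 9) (.e (nat_lit 188160) (nat_lit 32) .nil)))))) (.g (nat_lit 5) .nil .nil))) 
(.lf (nat_lit 56141) (.g (nat_lit 2229) (.e (nat_lit 1413) (nat_lit 108) (.e (nat_lit 336013) (nat_lit 2) (.e (nat_lit 90170) (nat_lit 13) (.e (nat_lit 172113) (nat_lit 10) (.e (nat_lit 434247) (nat_lit 28) .nil))))) .nil))) (.nd (nat_lit 6) 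
(.lf (nat_lit 56109) (.g (nat_lit 2827) (.e (nat_lit 1404) (nat_lit 107) (.e (nat_lit 327708) (nat_lit 10) (.e (nat_lit 5270) (nat_lit 298) (.e (nat_lit 1256) (nat_lit 92) .nil)))) .nil)) 
(.lf (nat_lit 56173) (.g (nat_lit 2942) (.e (nat_lit 1413) (nat_lit 108) (.e (nat_lit 336205) (nat_lit 12) (.e (nat_lit 385074) (nat_lit 31) (.e (nat_lit 573493) (nat_lit 15) (.e (nat_lit 81947) (nat_lit 20) (.e (nat_lit 1842) (nat_lit 123) (.e (nat_lit 548874) (nat_lit 5) .nil))))))) (.g (nat_lit 4) .nil .nil))))) (.nd (nat_lit 5) (.nd (nat_lit 6) 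
(.lf (nat_lit 56093) (.g (nat_lit 2056) (.e (nat_lit 1401) (nat_lit 106) (.e (nat_lit 319534) (nat_lit 16) (.e (nat_lit 286761) (nat_lit 13) (.e (nat_lit 393273) (nat_lit 23) (.e (nat_lit 426364) (nat_lit 15) .nil))))) .nil)) 
(.lf (nat_lit 56157) (.g (nat_lit 3302) (.e (nat_lit 1413) (nat_lit 108) (.e (nat_lit 336028) (nat_lit 3) (.e (nat_lit 98373) (nat_lit 29) (.e (nat_lit 450588) (nat_lit 10) (.e (nat_lit 573475) (nat_lit 12) (.e (nat_lit 57568) (nat_lit 53) (.e (nat_lit 761867) (nat_lit 5) .nil))))))) (.g (nat_lit 6) .nil .nil)))) (.nd (nat_lit 6) 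
(.lf (nat_lit 56125) (.g (nat_lit 2264) (.e (nat_lit 1410) (nat_lit 107) (.e (nat_lit 327708) (nat_lit 10) (.e (nat_lit 5394) (nat_lit 301) (.e (nat_lit 57464) (nat_lit 23) (.e (nat_lit 516163) (nat_lit 11) (.e (nat_lit 442433) (nat_lit 25) (.e (nat_lit 245784) (nat_lit 9) .nil))))))) (.g (nat_lit 5) .nil .nil))) 
(.lf (nat_lit 56189) (.g (nat_lit 2042) (.e (nat_lit 1413) (nat_lit 108) (.e (nat_lit 336324) (nat_lit 18) (.e (nat_lit 204880) (nat_lit 32) (.e (nat_lit 385066) (nat_lit 26) (.e (nat_lit 532530) (nat_lit 9) (.e (nat_lit 336316) (nat_lit 17) (.e (nat_lit 196630) (nat_lit 9) .nil))))))) (.g (nat_lit 5) .nil .nil)))))))) 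
(.nd (nat_lit 2) (.nd (nat_lit 3) (.nd (nat_lit 4) (.nd (nat_lit 5) (.nd (nat_lit 6) 
(.lf (nat_lit 56067) (.g (nat_lit 2647) (.e (nat_lit 1401) (nat_lit 106) (.e (nat_lit 319534) (nat_lit 16) (.e (nat_lit 286739) (nat_lit 7) (.e (nat_lit 319534) (nat_lit 16) (.e (nat_lit 286756) (nat_lit 10) (.e (nat_lit 344152) (nat_lit 34) (.e (nat_lit 622600) (nat_lit 5) .nil))))))) (.g (nat_lit 5) .nil .nil))) 
(.lf (nat_lit 56131) (.g (nat_lit 3172) (.e (nat_lit 1413) (nat_lit 108) (.e (nat_lit 336013) (nat_lit 2) (.e (nat_lit 90170) (nat_lit 13) (.e (nat_lit 172106) (nat_lit 10) (.e (nat_lit 434231) (nat_lit 23) (.e (nat_lit 532483) (nat_lit 0) (.e (nat_lit 7936) (nat_lit 129) (.e (nat_lit 598031) (nat_lit 5) .nil)))))))) (.g (nat_lit 5) .nil .nil)))) (.nd (nat_lit 6) 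
(.lf (nat_lit 56099) (.g (nat_lit 695) (.e (nat_lit 1401) (nat_lit 106) (.e (nat_lit 319534) (nat_lit 16) (.e (nat_lit 294656) (nat_lit 34) .nil))) .nil)) 
(.lf (nat_lit 56163) (.g (nat_lit 2801) (.e (nat_lit 1413) (nat_lit 108) (.e (nat_lit 336099) (nat_lit 9) (.e (nat_lit 336013) (nat_lit 2) (.e (nat_lit 90161) (nat_lit 12) .nil)))) .nil)))) (.nd (nat_lit 5) (.nd (nat_lit 6) 
(.lf (nat_lit 56083) (.g (nat_lit 1812) (.e (nat_lit 1401) (nat_lit 106) (.e (nat_lit 319534) (nat_lit 16) (.e (nat_lit 286756) (nat_lit 10) (.e (nat_lit 344160) (nat_lit 37) (.e (nat_lit 647195) (nat_lit 9) .nil))))) .nil)) 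
(.lf (nat_lit 56147) (.g (nat_lit 5343) (.e (nat_lit 1413) (nat_lit 108) (.e (nat_lit 336019) (nat_lit 3) (.e (nat_lit 98373) (nat_lit 29) (.e (nat_lit 450587) (nat_lit 10) (.e (nat_lit 573475) (nat_lit 12) .nil))))) .nil))) (.nd (nat_lit 6) 
(.lf (nat_lit 56115) (.g (nat_lit 1989) (.e (nat_lit 1408) (nat_lit 107) (.e (nat_lit 327708) (nat_lit 10) (.e (nat_lit 5394) (nat_lit 301) (.e (nat_lit 57464) (nat_lit 23) .nil)))) .nil)) 
(.lf (nat_lit 56179) (.g (nat_lit 2218) (.e (nat_lit 1413) (nat_lit 108) (.e (nat_lit 336224) (nat_lit 13) (.e (nat_lit 393301) (nat_lit 27) (.e (nat_lit 491560) (nat_lit 10) (.e (nat_lit 344174) (nat_lit 42) .nil))))) .nil))))) (.nd (nat_lit 4) (.nd (nat_lit 5) (.nd (nat_lit 6) 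
(.lf (nat_lit 56075) (.g (nat_lit 1813) (.e (nat_lit 1401) (nat_lit 106) (.e (nat_lit 319534) (nat_lit 16) (.e (nat_lit 286749) (nat_lit 9) (.e (nat_lit 335997) (nat_lit 1) .nil)))) .nil)) 
(.lf (nat_lit 56139) (.g (nat_lit 4002) (.e (nat_lit 1413) (nat_lit 108) (.e (nat_lit 336013) (nat_lit 2) (.e (nat_lit 90170) (nat_lit 13) (.e (nat_lit 172113) (nat_lit 10) (.e (nat_lit 434245) (nat_lit 28) (.e (nat_lit 573474) (nat_lit 12) (.e (nat_lit 57568) (nat_lit 53) (.e (nat_lit 761867) (nat_lit 5) .nil)))))))) (.g (nat_lit 8) .nil .nil)))) (.nd (nat_lit 6) 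
(.lf (nat_lit 56107) (.g (nat_lit 3193) (.e (nat_lit 1402) (nat_lit 107) (.e (nat_lit 327708) (nat_lit 10) (.e (nat_lit 5270) (nat_lit 298) (.e (nat_lit 1256) (nat_lit 92) (.e (nat_lit 98370) (nat_lit 28) .nil))))) .nil)) 
(.lf (nat_lit 56171) (.g (nat_lit 2100) (.e (nat_lit 1413) (nat_lit 108) (.e (nat_lit 336205) (nat_lit 12) (.e (nat_lit 385074) (nat_lit 31) (.e (nat_lit 573491) (nat_lit 15) (.e (nat_lit 81943) (nat_lit 20) .nil))))) .nil)))) (.nd (nat_lit 5) (.nd (nat_lit 6) 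
(.lf (nat_lit 56091) (.g (nat_lit 2290) (.e (nat_lit 1401) (nat_lit 106) (.e (nat_lit 319534) (nat_lit 16) (.e (nat_lit 286761) (nat_lit 13) (.e (nat_lit 393270) (nat_lit 23) (.e (nat_lit 425986) (nat_lit 0) (.e (nat_lit 3421) (nat_lit 213) (.e (nat_lit 663554) (nat_lit 0) .nil))))))) (.g (nat_lit 5) .nil .nil))) 
(.lf (nat_lit 56155) (.g (nat_lit 2526) (.e (nat_lit 1413) (nat_lit 108) (.e (nat_lit 336028) (nat_lit 3) (.e (nat_lit 98373) (nat_lit 29) (.e (nat_lit 450587) (nat_lit 10) (.e (nat_lit 573478) (nat_lit 12) (.e (nat_lit 57568) (nat_lit 53) (.e (nat_lit 761867) (nat_lit 5) .nil))))))) (.g (nat_lit 6) .nil .nil)))) (.nd (nat_lit 6) 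
(.lf (nat_lit 56123) (.g (nat_lit 2227) (.e (nat_lit 1410) (nat_lit 107) (.e (nat_lit 327708) (nat_lit 10) (.e (nat_lit 5270) (nat_lit 298) (.e (nat_lit 1256) (nat_lit 92) (.e (nat_lit 98370) (nat_lit 28) .nil))))) .nil)) 
(.lf (nat_lit 56187) (.g (nat_lit 4146) (.e (nat_lit 1413) (nat_lit 108) (.e (nat_lit 336324) (nat_lit 18) (.e (nat_lit 204831) (nat_lit 18) (.e (nat_lit 57854) (nat_lit 252) .nil)))) .nil)))))) (.nd (nat_lit 3) (.nd (nat_lit 4) (.nd (nat_lit 5) (.nd (nat_lit 6) 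
(.lf (nat_lit 56071) (.g (nat_lit 1917) (.e (nat_lit 1401) (nat_lit 106) (.e (nat_lit 319534) (nat_lit 16) (.e (nat_lit 286740) (nat_lit 7) (.e (nat_lit 319534) (nat_lit 16) (.e (nat_lit 286756) (nat_lit 10) (.e (nat_lit 344150) (nat_lit 34) (.e (nat_lit 622601) (nat_lit 5) .nil))))))) (.g (nat_lit 4) .nil .nil))) 
(.lf (nat_lit 56135) (.g (nat_lit 2152) (.e (nat_lit 1413) (nat_lit 108) (.e (nat_lit 336013) (nat_lit 2) (.e (nat_lit 90170) (nat_lit 13) (.e (nat_lit 172113) (nat_lit 10) (.e (nat_lit 434245) (nat_lit 28) .nil))))) .nil))) (.nd (nat_lit 6) 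
(.lf (nat_lit 56103) (.g (nat_lit 1650) (.e (nat_lit 7936) (nat_lit 106) (.e (nat_lit 319530) (nat_lit 16) (.e (nat_lit 286735) (nat_lit 3) (.e (nat_lit 98382) (nat_lit 31) (.e (nat_lit 466977) (nat_lit 22) .nil))))) .nil)) 
(.lf (nat_lit 56167) (.g (nat_lit 1943) (.e (nat_lit 1413) (nat_lit 108) (.e (nat_lit 336173) (nat_lit 10) (.e (nat_lit 344169) (nat_lit 40) (.e (nat_lit 671764) (nat_lit 6) (.e (nat_lit 81935) (nat_lit 20) (.e (nat_lit 1998) (nat_lit 137) (.e (nat_lit 663554) (nat_lit 0) .nil))))))) (.g (nat_lit 5) .nil .nil))))) (.nd (nat_lit 5) (.nd (nat_lit 6) 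
(.lf (nat_lit 56087) (.g (nat_lit 1858) (.e (nat_lit 1401) (nat_lit 106) (.e (nat_lit 319534) (nat_lit 16) (.e (nat_lit 286760) (nat_lit 13) (.e (nat_lit 393284) (nat_lit 24) (.e (nat_lit 434276) (nat_lit 39) .nil))))) .nil)) 
(.lf (nat_lit 56151) (.g (nat_lit 3144) (.e (nat_lit 1413) (nat_lit 108) (.e (nat_lit 336028) (nat_lit 3) (.e (nat_lit 98372) (nat_lit 29) (.e (nat_lit 450586) (nat_lit 10) (.e (nat_lit 573473) (nat_lit 12) (.e (nat_lit 57569) (nat_lit 53) (.e (nat_lit 761866) (nat_lit 5) .nil))))))) (.g (nat_lit 6) .nil .nil)))) (.nd (nat_lit 6) 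
(.lf (nat_lit 56119) (.g (nat_lit 1133) (.e (nat_lit 1410) (nat_lit 107) (.e (nat_lit 327698) (nat_lit 8) (.e (nat_lit 303145) (nat_lit 13) (.e (nat_lit 483405) (nat_lit 26) .nil)))) .nil)) 
(.lf (nat_lit 56183) (.g (nat_lit 588) (.e (nat_lit 1413) (nat_lit 108) (.e (nat_lit 336324) (nat_lit 18) (.e (nat_lit 204831) (nat_lit 18) .nil))) .nil))))) (.nd (nat_lit 4) (.nd (nat_lit 5) (.nd (nat_lit 6) 
(.lf (nat_lit 56079) (.g (nat_lit 1305) (.e (nat_lit 1401) (nat_lit 106) (.e (nat_lit 319534) (nat_lit 16) (.e (nat_lit 286756) (nat_lit 10) (.e (nat_lit 344157) (nat_lit 36) .nil)))) .nil)) 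
(.lf (nat_lit 56143) (.g (nat_lit 4720) (.e (nat_lit 1413) (nat_lit 108) (.e (nat_lit 336013) (nat_lit 2) (.e (nat_lit 90170) (nat_lit 13) (.e (nat_lit 172113) (nat_lit 10) (.e (nat_lit 434248) (nat_lit 28) (.e (nat_lit 573473) (nat_lit 12) (.e (nat_lit 57569) (nat_lit 53) (.e (nat_lit 761866) (nat_lit 5) .nil)))))))) (.g (nat_lit 8) .nil .nil)))) (.nd (nat_lit 6) 
(.lf (nat_lit 56111) (.g (nat_lit 2098) (.e (nat_lit 1405) (nat_lit 107) (.e (nat_lit 327708) (nat_lit 10) (.e (nat_lit 5394) (nat_lit 301) (.e (nat_lit 57464) (nat_lit 23) .nil)))) .nil)) 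
(.lf (nat_lit 56175) (.g (nat_lit 2185) (.e (nat_lit 1413) (nat_lit 108) (.e (nat_lit 336205) (nat_lit 12) (.e (nat_lit 385106) (nat_lit 50) (.e (nat_lit 786483) (nat_lit 30) (.e (nat_lit 368384) (nat_lit 17) .nil))))) .nil)))) (.nd (nat_lit 5) (.nd (nat_lit 6) 
(.lf (nat_lit 56095) (.g (nat_lit 1731) (.e (nat_lit 1401) (nat_lit 106) (.e (nat_lit 319534) (nat_lit 16) (.e (nat_lit 286761) (nat_lit 13) (.e (nat_lit 393283) (nat_lit 24) (.e (nat_lit 434280) (nat_lit 40) (.e (nat_lit 671747) (nat_lit 0) .nil)))))) (.g (nat_lit 4) .nil .nil))) 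
(.lf (nat_lit 56159) (.g (nat_lit 3272) (.e (nat_lit 1413) (nat_lit 108) (.e (nat_lit 336099) (nat_lit 9) (.e (nat_lit 336013) (nat_lit 2) (.e (nat_lit 90121) (nat_lit 9) (.e (nat_lit 2824) (nat_lit 182) .nil))))) .nil))) (.nd (nat_lit 6) 
(.lf (nat_lit 56127) (.g (nat_lit 364) (.e (nat_lit 7936) (nat_lit 107) (.e (nat_lit 327708) (nat_lit 10) (.e (nat_lit 5394) (nat_lit 301) .nil))) .nil)) 
(.lf (nat_lit 56191) (.g (nat_lit 648) (.e (nat_lit 1413) (nat_lit 108) (.e (nat_lit 336369) (nat_lit 27) (.e (nat_lit 426173) (nat_lit 7) .nil))) .nil)))))))))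

noncomputable def tv775 : DT := (.nd (nat_lit 0) (.nd (nat_lit 1) (.nd (nat_lit 2) (.nd (nat_lit 3) (.nd (nat_lit 4) (.nd (nat_lit 5) (.nd (nat_lit 6) 
(.lf (nat_lit 56192) (.g (nat_lit 1878) (.e (nat_lit 1413) (nat_lit 108) (.e (nat_lit 336369) (nat_lit 27) (.e (nat_lit 426173) (nat_lit 7) (.e (nat_lit 409616) (nat_lit 10) (.e (nat_lit 7936) (nat_lit 300) .nil))))) .nil)) 
(.lf (nat_lit 56256) (.g (nat_lit 2174) (.e (nat_lit 1415) (nat_lit 108) (.e (nat_lit 336456) (nat_lit 34) (.e (nat_lit 483383) (nat_lit 23) (.e (nat_lit 336019) (nat_lit 3) (.e (nat_lit 98334) (nat_lit 18) (.e (nat_lit 164159) (nat_lit 152) (.e (nat_lit 982) (nat_lit 81) .nil))))))) (.g (nat_lit 4) .nil .nil)))) (.nd (nat_lit 6) 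
(.lf (nat_lit 56224) (.g (nat_lit 4114) (.e (nat_lit 1414) (nat_lit 108) (.e (nat_lit 336324) (nat_lit 18) (.e (nat_lit 204831) (nat_lit 18) (.e (nat_lit 57852) (nat_lit 252) .nil)))) .nil)) 
(.lf (nat_lit 56288) (.g (nat_lit 1202) (.e (nat_lit 1416) (nat_lit 108) (.e (nat_lit 336434) (nat_lit 30) (.e (nat_lit 450579) (nat_lit 5) (.e (nat_lit 532484) (nat_lit 0) (.e (nat_lit 7936) (nat_lit 153) (.e (nat_lit 794677) (nat_lit 24) (.e (nat_lit 220928) (nat_lit 0) .nil))))))) (.g (nat_lit 6) .nil .nil))))) (.nd (nat_lit 5) (.nd (nat_lit 6) 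
(.lf (nat_lit 56208) (.g (nat_lit 1603) (.e (nat_lit 1413) (nat_lit 108) (.e (nat_lit 336443) (nat_lit 32) (.e (nat_lit 466972) (nat_lit 21) (.e (nat_lit 164345) (nat_lit 240) .nil)))) .nil)) 
(.lf (nat_lit 56272) (.g (nat_lit 4084) (.e (nat_lit 1416) (nat_lit 108) (.e (nat_lit 336324) (nat_lit 18) (.e (nat_lit 204831) (nat_lit 18) (.e (nat_lit 57851) (nat_lit 252) .nil)))) .nil))) (.nd (nat_lit 6) 
(.lf (nat_lit 56240) (.g (nat_lit 4146) (.e (nat_lit 1415) (nat_lit 108) (.e (nat_lit 336324) (nat_lit 18) (.e (nat_lit 204831) (nat_lit 18) (.e (nat_lit 57854) (nat_lit 252) .nil)))) .nil)) 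
(.lf (nat_lit 56304) (.g (nat_lit 3053) (.e (nat_lit 1416) (nat_lit 108) (.e (nat_lit 336454) (nat_lit 34) (.e (nat_lit 483383) (nat_lit 23) (.e (nat_lit 336019) (nat_lit 3) (.e (nat_lit 98334) (nat_lit 18) (.e (nat_lit 164159) (nat_lit 152) (.e (nat_lit 1032) (nat_lit 81) .nil))))))) (.g (nat_lit 5) .nil .nil)))))) (.nd (nat_lit 4) (.nd (nat_lit 5) (.nd (nat_lit 6) 
(.lf (nat_lit 56200) (.g (nat_lit 1879) (.e (nat_lit 1413) (nat_lit 108) (.e (nat_lit 336443) (nat_lit 32) (.e (nat_lit 466969) (nat_lit 21) (.e (nat_lit 164348) (nat_lit 240) (.e (nat_lit 2638) (nat_lit 165) .nil))))) .nil)) 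
(.lf (nat_lit 56264) (.g (nat_lit 4006) (.e (nat_lit 1416) (nat_lit 108) (.e (nat_lit 336211) (nat_lit 13) (.e (nat_lit 393301) (nat_lit 27) (.e (nat_lit 491559) (nat_lit 10) (.e (nat_lit 344177) (nat_lit 43) (.e (nat_lit 770054) (nat_lit 5) .nil)))))) (.g (nat_lit 6) .nil .nil)))) (.nd (nat_lit 6) 
(.lf (nat_lit 56232) (.g (nat_lit 806) (.e (nat_lit 1414) (nat_lit 108) (.e (nat_lit 336443) (nat_lit 32) (.e (nat_lit 466971) (nat_lit 21) .nil))) .nil)) 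
(.lf (nat_lit 56296) (.g (nat_lit 2432) (.e (nat_lit 1416) (nat_lit 108) (.e (nat_lit 336443) (nat_lit 32) (.e (nat_lit 466971) (nat_lit 21) (.e (nat_lit 164348) (nat_lit 240) (.e (nat_lit 2640) (nat_lit 165) (.e (nat_lit 188160) (nat_lit 32) .nil)))))) (.g (nat_lit 5) .nil .nil))))) (.nd (nat_lit 5) (.nd (nat_lit 6) 
(.lf (nat_lit 56216) (.g (nat_lit 3115) (.e (nat_lit 1413) (nat_lit 108) (.e (nat_lit 336454) (nat_lit 34) (.e (nat_lit 483383) (nat_lit 23) (.e (nat_lit 336324) (nat_lit 18) (.e (nat_lit 204831) (nat_lit 18) (.e (nat_lit 57830) (nat_lit 250) (.e (nat_lit 1016) (nat_lit 81) .nil))))))) (.g (nat_lit 5) .nil .nil))) 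
(.lf (nat_lit 56280) (.g (nat_lit 1899) (.e (nat_lit 1416) (nat_lit 108) (.e (nat_lit 336324) (nat_lit 18) (.e (nat_lit 204877) (nat_lit 31) (.e (nat_lit 376842) (nat_lit 11) (.e (nat_lit 426100) (nat_lit 1) (.e (nat_lit 164161) (nat_lit 152) (.e (nat_lit 1032) (nat_lit 81) .nil))))))) (.g (nat_lit 4) .nil .nil)))) (.nd (nat_lit 6) 
(.lf (nat_lit 56248) (.g (nat_lit 814) (.e (nat_lit 1415) (nat_lit 108) (.e (nat_lit 336443) (nat_lit 32) (.e (nat_lit 466972) (nat_lit 21) .nil))) .nil)) 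
(.lf (nat_lit 56312) (.g (nat_lit 3850) (.e (nat_lit 1416) (nat_lit 108) (.e (nat_lit 336456) (nat_lit 34) (.e (nat_lit 483383) (nat_lit 23) (.e (nat_lit 336019) (nat_lit 3) (.e (nat_lit 98333) (nat_lit 18) (.e (nat_lit 164161) (nat_lit 152) (.e (nat_lit 1032) (nat_lit 81) .nil))))))) (.g (nat_lit 6) .nil .nil))))))) (.nd (nat_lit 3) (.nd (nat_lit 4) (.nd (nat_lit 5) (.nd (nat_lit 6) 
(.lf (nat_lit 56196) (.g (nat_lit 1297) (.e (nat_lit 1413) (nat_lit 108) (.e (nat_lit 336430) (nat_lit 29) (.e (nat_lit 442379) (nat_lit 0) (.e (nat_lit 2059) (nat_lit 142) .nil)))) .nil)) 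
(.lf (nat_lit 56260) (.g (nat_lit 1950) (.e (nat_lit 1415) (nat_lit 108) (.e (nat_lit 336456) (nat_lit 34) (.e (nat_lit 483410) (nat_lit 27) (.e (nat_lit 401425) (nat_lit 2) .nil)))) .nil))) (.nd (nat_lit 6) 
(.lf (nat_lit 56228) (.g (nat_lit 1992) (.e (nat_lit 1414) (nat_lit 108) (.e (nat_lit 336428) (nat_lit 29) (.e (nat_lit 442374) (nat_lit 0) (.e (nat_lit 2059) (nat_lit 142) (.e (nat_lit 704595) (nat_lit 5) (.e (nat_lit 188160) (nat_lit 32) .nil)))))) (.g (nat_lit 5) .nil .nil))) 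
(.lf (nat_lit 56292) (.g (nat_lit 719) (.e (nat_lit 1416) (nat_lit 108) (.e (nat_lit 336443) (nat_lit 32) (.e (nat_lit 466969) (nat_lit 21) .nil))) .nil)))) (.nd (nat_lit 5) (.nd (nat_lit 6) 
(.lf (nat_lit 56212) (.g (nat_lit 1052) (.e (nat_lit 1413) (nat_lit 108) (.e (nat_lit 336454) (nat_lit 34) (.e (nat_lit 483382) (nat_lit 23) (.e (nat_lit 336324) (nat_lit 18) .nil)))) .nil)) 
(.lf (nat_lit 56276) (.g (nat_lit 1561) (.e (nat_lit 1416) (nat_lit 108) (.e (nat_lit 336324) (nat_lit 18) (.e (nat_lit 204854) (nat_lit 26) (.e (nat_lit 336324) (nat_lit 18) .nil)))) .nil))) (.nd (nat_lit 6) 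
(.lf (nat_lit 56244) (.g (nat_lit 2090) (.e (nat_lit 1415) (nat_lit 108) (.e (nat_lit 336428) (nat_lit 29) (.e (nat_lit 442374) (nat_lit 0) (.e (nat_lit 2059) (nat_lit 142) (.e (nat_lit 704595) (nat_lit 5) (.e (nat_lit 188160) (nat_lit 32) .nil)))))) (.g (nat_lit 5) .nil .nil))) 
(.lf (nat_lit 56308) (.g (nat_lit 2092) (.e (nat_lit 1416) (nat_lit 108) (.e (nat_lit 336454) (nat_lit 34) (.e (nat_lit 483399) (nat_lit 25) (.e (nat_lit 368676) (nat_lit 21) (.e (nat_lit 516117) (nat_lit 1) (.e (nat_lit 164159) (nat_lit 152) (.e (nat_lit 1032) (nat_lit 81) .nil))))))) (.g (nat_lit 5) .nil .nil)))))) (.nd (nat_lit 4) (.nd (nat_lit 5) (.nd (nat_lit 6) 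
(.lf (nat_lit 56204) (.g (nat_lit 1591) (.e (nat_lit 1413) (nat_lit 108) (.e (nat_lit 336443) (nat_lit 32) (.e (nat_lit 466971) (nat_lit 21) (.e (nat_lit 164347) (nat_lit 240) .nil)))) .nil)) 
(.lf (nat_lit 56268) (.g (nat_lit 4007) (.e (nat_lit 1416) (nat_lit 108) (.e (nat_lit 336324) (nat_lit 18) (.e (nat_lit 204831) (nat_lit 18) (.e (nat_lit 57846) (nat_lit 252) .nil)))) .nil))) (.nd (nat_lit 6) 
(.lf (nat_lit 56236) (.g (nat_lit 4043) (.e (nat_lit 1415) (nat_lit 108) (.e (nat_lit 336324) (nat_lit 18) (.e (nat_lit 204831) (nat_lit 18) (.e (nat_lit 57830) (nat_lit 250) .nil)))) .nil)) 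
(.lf (nat_lit 56300) (.g (nat_lit 3328) (.e (nat_lit 1416) (nat_lit 108) (.e (nat_lit 336454) (nat_lit 34) (.e (nat_lit 483365) (nat_lit 18) (.e (nat_lit 57848) (nat_lit 252) .nil)))) .nil)))) (.nd (nat_lit 5) (.nd (nat_lit 6) 
(.lf (nat_lit 56220) (.g (nat_lit 3148) (.e (nat_lit 1413) (nat_lit 108) (.e (nat_lit 336454) (nat_lit 34) (.e (nat_lit 483406) (nat_lit 26) (.e (nat_lit 385066) (nat_lit 26) (.e (nat_lit 532501) (nat_lit 1) (.e (nat_lit 57830) (nat_lit 250) (.e (nat_lit 1016) (nat_lit 81) .nil))))))) (.g (nat_lit 5) .nil .nil))) 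
(.lf (nat_lit 56284) (.g (nat_lit 2208) (.e (nat_lit 1416) (nat_lit 108) (.e (nat_lit 336326) (nat_lit 18) (.e (nat_lit 204877) (nat_lit 31) (.e (nat_lit 376842) (nat_lit 11) (.e (nat_lit 426100) (nat_lit 1) (.e (nat_lit 164161) (nat_lit 152) (.e (nat_lit 1032) (nat_lit 81) .nil))))))) (.g (nat_lit 5) .nil .nil)))) (.nd (nat_lit 6) 
(.lf (nat_lit 56252) (.g (nat_lit 2202) (.e (nat_lit 1415) (nat_lit 108) (.e (nat_lit 336456) (nat_lit 34) (.e (nat_lit 483383) (nat_lit 23) (.e (nat_lit 336019) (nat_lit 3) (.e (nat_lit 98333) (nat_lit 18) .nil))))) .nil)) 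
(.lf (nat_lit 56316) (.g (nat_lit 1500) (.e (nat_lit 1416) (nat_lit 108) (.e (nat_lit 336456) (nat_lit 34) (.e (nat_lit 483391) (nat_lit 23) (.e (nat_lit 336017) (nat_lit 3) (.e (nat_lit 98334) (nat_lit 18) (.e (nat_lit 164161) (nat_lit 152) (.e (nat_lit 1032) (nat_lit 81) .nil))))))) (.g (nat_lit 4) .nil .nil)))))))) 
(.nd (nat_lit 2) (.nd (nat_lit 3) (.nd (nat_lit 4) (.nd (nat_lit 5) (.nd (nat_lit 6) 
(.lf (nat_lit 56194) (.g (nat_lit 1965) (.e (nat_lit 1413) (nat_lit 108) (.e (nat_lit 336369) (nat_lit 27) (.e (nat_lit 426173) (nat_lit 7) (.e (nat_lit 409649) (nat_lit 18) (.e (nat_lit 303149) (nat_lit 15) .nil))))) .nil)) 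
(.lf (nat_lit 56258) (.g (nat_lit 1392) (.e (nat_lit 1415) (nat_lit 108) (.e (nat_lit 336456) (nat_lit 34) (.e (nat_lit 483398) (nat_lit 25) (.e (nat_lit 368676) (nat_lit 21) (.e (nat_lit 516117) (nat_lit 1) .nil))))) .nil))) (.nd (nat_lit 6) 
(.lf (nat_lit 56226) (.g (nat_lit 1464) (.e (nat_lit 1414) (nat_lit 108) (.e (nat_lit 336369) (nat_lit 27) (.e (nat_lit 426173) (nat_lit 7) (.e (nat_lit 409617) (nat_lit 10) .nil)))) .nil)) 
(.lf (nat_lit 56290) (.g (nat_lit 1113) (.e (nat_lit 1416) (nat_lit 108) (.e (nat_lit 336438) (nat_lit 31) (.e (nat_lit 458769) (nat_lit 16) (.e (nat_lit 164339) (nat_lit 232) (.e (nat_lit 446) (nat_lit 33) (.e (nat_lit 442112) (nat_lit 0) .nil)))))) (.g (nat_lit 5) .nil .nil))))) (.nd (nat_lit 5) (.nd (nat_lit 6) 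
(.lf (nat_lit 56210) (.g (nat_lit 799) (.e (nat_lit 1413) (nat_lit 108) (.e (nat_lit 336443) (nat_lit 32) (.e (nat_lit 466977) (nat_lit 22) .nil))) .nil)) 
(.lf (nat_lit 56274) (.g (nat_lit 4020) (.e (nat_lit 1416) (nat_lit 108) (.e (nat_lit 336324) (nat_lit 18) (.e (nat_lit 204831) (nat_lit 18) (.e (nat_lit 57854) (nat_lit 252) .nil)))) .nil))) (.nd (nat_lit 6) 
(.lf (nat_lit 56242) (.g (nat_lit 732) (.e (nat_lit 1415) (nat_lit 108) (.e (nat_lit 336367) (nat_lit 27) (.e (nat_lit 426542) (nat_lit 29) (.e (nat_lit 352313) (nat_lit 23) .nil)))) .nil)) 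
(.lf (nat_lit 56306) (.g (nat_lit 745) (.e (nat_lit 1416) (nat_lit 108) (.e (nat_lit 336454) (nat_lit 34) (.e (nat_lit 483398) (nat_lit 25) .nil))) .nil))))) (.nd (nat_lit 4) (.nd (nat_lit 5) (.nd (nat_lit 6) 
(.lf (nat_lit 56202) (.g (nat_lit 1518) (.e (nat_lit 1413) (nat_lit 108) (.e (nat_lit 336443) (nat_lit 32) (.e (nat_lit 466971) (nat_lit 21) (.e (nat_lit 164345) (nat_lit 240) .nil)))) .nil)) 
(.lf (nat_lit 56266) (.g (nat_lit 588) (.e (nat_lit 1416) (nat_lit 108) (.e (nat_lit 336324) (nat_lit 18) (.e (nat_lit 204831) (nat_lit 18) .nil))) .nil))) (.nd (nat_lit 6) 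
(.lf (nat_lit 56234) (.g (nat_lit 814) (.e (nat_lit 1414) (nat_lit 108) (.e (nat_lit 336443) (nat_lit 32) (.e (nat_lit 466972) (nat_lit 21) .nil))) .nil)) 
(.lf (nat_lit 56298) (.g (nat_lit 1794) (.e (nat_lit 1416) (nat_lit 108) (.e (nat_lit 336443) (nat_lit 32) (.e (nat_lit 466977) (nat_lit 22) (.e (nat_lit 196624) (nat_lit 9) .nil)))) .nil)))) (.nd (nat_lit 5) (.nd (nat_lit 6) 
(.lf (nat_lit 56218) (.g (nat_lit 784) (.e (nat_lit 1413) (nat_lit 108) (.e (nat_lit 336454) (nat_lit 34) (.e (nat_lit 483385) (nat_lit 23) .nil))) .nil)) 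
(.lf (nat_lit 56282) (.g (nat_lit 2185) (.e (nat_lit 1416) (nat_lit 108) (.e (nat_lit 336326) (nat_lit 18) (.e (nat_lit 204854) (nat_lit 26) (.e (nat_lit 336211) (nat_lit 13) (.e (nat_lit 393252) (nat_lit 18) (.e (nat_lit 164161) (nat_lit 152) (.e (nat_lit 1032) (nat_lit 81) .nil))))))) (.g (nat_lit 5) .nil .nil)))) (.nd (nat_lit 6) 
(.lf (nat_lit 56250) (.g (nat_lit 1225) (.e (nat_lit 1415) (nat_lit 108) (.e (nat_lit 336443) (nat_lit 32) (.e (nat_lit 466979) (nat_lit 23) (.e (nat_lit 212736) (nat_lit 10) .nil)))) .nil)) 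
(.lf (nat_lit 56314) (.g (nat_lit 2126) (.e (nat_lit 1416) (nat_lit 108) (.e (nat_lit 336456) (nat_lit 34) (.e (nat_lit 483383) (nat_lit 23) (.e (nat_lit 336019) (nat_lit 3) (.e (nat_lit 98334) (nat_lit 18) (.e (nat_lit 164157) (nat_lit 152) (.e (nat_lit 1032) (nat_lit 81) .nil))))))) (.g (nat_lit 4) .nil .nil))))))) (.nd (nat_lit 3) (.nd (nat_lit 4) (.nd (nat_lit 5) (.nd (nat_lit 6) 
(.lf (nat_lit 56198) (.g (nat_lit 1663) (.e (nat_lit 1413) (nat_lit 108) (.e (nat_lit 336443) (nat_lit 32) (.e (nat_lit 466969) (nat_lit 21) (.e (nat_lit 164347) (nat_lit 240) .nil)))) .nil)) 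
(.lf (nat_lit 56262) (.g (nat_lit 5115) (.e (nat_lit 1416) (nat_lit 108) (.e (nat_lit 336019) (nat_lit 3) (.e (nat_lit 98373) (nat_lit 29) (.e (nat_lit 450587) (nat_lit 10) (.e (nat_lit 573475) (nat_lit 12) .nil))))) .nil))) (.nd (nat_lit 6) 
(.lf (nat_lit 56230) (.g (nat_lit 1608) (.e (nat_lit 1414) (nat_lit 108) (.e (nat_lit 336443) (nat_lit 32) (.e (nat_lit 466969) (nat_lit 21) (.e (nat_lit 164345) (nat_lit 240) .nil)))) .nil)) 
(.lf (nat_lit 56294) (.g (nat_lit 2498) (.e (nat_lit 1416) (nat_lit 108) (.e (nat_lit 336443) (nat_lit 32) (.e (nat_lit 466969) (nat_lit 21) (.e (nat_lit 164348) (nat_lit 240) (.e (nat_lit 2640) (nat_lit 165) (.e (nat_lit 188160) (nat_lit 32) .nil)))))) (.g (nat_lit 5) .nil .nil))))) (.nd (nat_lit 5) (.nd (nat_lit 6) 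
(.lf (nat_lit 56214) (.g (nat_lit 3187) (.e (nat_lit 1413) (nat_lit 108) (.e (nat_lit 336454) (nat_lit 34) (.e (nat_lit 483383) (nat_lit 23) (.e (nat_lit 336324) (nat_lit 18) (.e (nat_lit 204830) (nat_lit 18) (.e (nat_lit 57830) (nat_lit 250) (.e (nat_lit 1016) (nat_lit 81) .nil))))))) (.g (nat_lit 5) .nil .nil))) 
(.lf (nat_lit 56278) (.g (nat_lit 1806) (.e (nat_lit 1416) (nat_lit 108) (.e (nat_lit 336324) (nat_lit 18) (.e (nat_lit 204876) (nat_lit 31) (.e (nat_lit 376842) (nat_lit 11) (.e (nat_lit 426100) (nat_lit 1) (.e (nat_lit 164161) (nat_lit 152) (.e (nat_lit 1032) (nat_lit 81) .nil))))))) (.g (nat_lit 4) .nil .nil)))) (.nd (nat_lit 6) 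
(.lf (nat_lit 56246) (.g (nat_lit 807) (.e (nat_lit 1415) (nat_lit 108) (.e (nat_lit 336443) (nat_lit 32) (.e (nat_lit 466971) (nat_lit 21) .nil))) .nil)) 
(.lf (nat_lit 56310) (.g (nat_lit 1475) (.e (nat_lit 1416) (nat_lit 108) (.e (nat_lit 336456) (nat_lit 34) (.e (nat_lit 483383) (nat_lit 23) (.e (nat_lit 336019) (nat_lit 3) .nil)))) .nil))))) (.nd (nat_lit 4) (.nd (nat_lit 5) (.nd (nat_lit 6) 
(.lf (nat_lit 56206) (.g (nat_lit 1785) (.e (nat_lit 1413) (nat_lit 108) (.e (nat_lit 336443) (nat_lit 32) (.e (nat_lit 466971) (nat_lit 21) (.e (nat_lit 164348) (nat_lit 240) (.e (nat_lit 2638) (nat_lit 165) .nil))))) .nil)) 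
(.lf (nat_lit 56270) (.g (nat_lit 4655) (.e (nat_lit 1416) (nat_lit 108) (.e (nat_lit 336324) (nat_lit 18) (.e (nat_lit 204831) (nat_lit 18) (.e (nat_lit 57848) (nat_lit 252) .nil)))) .nil))) (.nd (nat_lit 6) 
(.lf (nat_lit 56238) (.g (nat_lit 4084) (.e (nat_lit 1415) (nat_lit 108) (.e (nat_lit 336324) (nat_lit 18) (.e (nat_lit 204831) (nat_lit 18) (.e (nat_lit 57851) (nat_lit 252) .nil)))) .nil)) 
(.lf (nat_lit 56302) (.g (nat_lit 1758) (.e (nat_lit 1416) (nat_lit 108) (.e (nat_lit 336454) (nat_lit 34) (.e (nat_lit 483383) (nat_lit 23) (.e (nat_lit 336019) (nat_lit 3) .nil)))) .nil)))) (.nd (nat_lit 5) (.nd (nat_lit 6) 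
(.lf (nat_lit 56222) (.g (nat_lit 2205) (.e (nat_lit 1413) (nat_lit 108) (.e (nat_lit 336456) (nat_lit 34) (.e (nat_lit 483383) (nat_lit 23) (.e (nat_lit 336019) (nat_lit 3) (.e (nat_lit 98334) (nat_lit 18) .nil))))) .nil)) 
(.lf (nat_lit 56286) (.g (nat_lit 1736) (.e (nat_lit 1416) (nat_lit 108) (.e (nat_lit 336367) (nat_lit 27) (.e (nat_lit 426542) (nat_lit 29) (.e (nat_lit 352313) (nat_lit 23) (.e (nat_lit 98334) (nat_lit 18) (.e (nat_lit 164159) (nat_lit 152) (.e (nat_lit 1032) (nat_lit 81) .nil))))))) (.g (nat_lit 5) .nil .nil)))) (.nd (nat_lit 6) 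
(.lf (nat_lit 56254) (.g (nat_lit 2158) (.e (nat_lit 1415) (nat_lit 108) (.e (nat_lit 336456) (nat_lit 34) (.e (nat_lit 483383) (nat_lit 23) (.e (nat_lit 336019) (nat_lit 3) (.e (nat_lit 98334) (nat_lit 18) (.e (nat_lit 164157) (nat_lit 152) (.e (nat_lit 1027) (nat_lit 81) .nil))))))) (.g (nat_lit 4) .nil .nil))) 
(.lf (nat_lit 56318) (.g (nat_lit 1999) (.e (nat_lit 1416) (nat_lit 108) (.e (nat_lit 336456) (nat_lit 34) (.e (nat_lit 483398) (nat_lit 25) (.e (nat_lit 368676) (nat_lit 21) (.e (nat_lit 516117) (nat_lit 1) (.e (nat_lit 164159) (nat_lit 152) (.e (nat_lit 1032) (nat_lit 81) .nil))))))) (.g (nat_lit 5) .nil .nil))))))))) 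
(.nd (nat_lit 1) (.nd (nat_lit 2) (.nd (nat_lit 3) (.nd (nat_lit 4) (.nd (nat_lit 5) 
(.nd (nat_lit 6) 
(.lf (nat_lit 56193) (.g (nat_lit 1386) (.e (nat_lit 1413) (nat_lit 108) (.e (nat_lit 336369) (nat_lit 27) (.e (nat_lit 426173) (nat_lit 7) (.e (nat_lit 409617) (nat_lit 10) .nil)))) .nil)) 
(.lf (nat_lit 56257) (.g (nat_lit 2882) (.e (nat_lit 1415) (nat_lit 108) (.e (nat_lit 336456) (nat_lit 34) (.e (nat_lit 483383) (nat_lit 23) (.e (nat_lit 336019) (nat_lit 3) (.e (nat_lit 98334) (nat_lit 18) (.e (nat_lit 164159) (nat_lit 152) (.e (nat_lit 1029) (nat_lit 81) .nil))))))) (.g (nat_lit 5) .nil .nil)))) (.nd (nat_lit 6) 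
(.lf (nat_lit 56225) (.g (nat_lit 4146) (.e (nat_lit 1414) (nat_lit 108) (.e (nat_lit 336324) (nat_lit 18) (.e (nat_lit 204831) (nat_lit 18) (.e (nat_lit 57854) (nat_lit 252) .nil)))) .nil)) 
(.lf (nat_lit 56289) (.g (nat_lit 1145) (.e (nat_lit 1416) (nat_lit 108) (.e (nat_lit 336438) (nat_lit 31) (.e (nat_lit 458769) (nat_lit 16) (.e (nat_lit 164337) (nat_lit 232) (.e (nat_lit 446) (nat_lit 33) (.e (nat_lit 442112) (nat_lit 0) .nil)))))) (.g (nat_lit 5) .nil .nil))))) (.nd (nat_lit 5) (.nd (nat_lit 6) 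
(.lf (nat_lit 56209) (.g (nat_lit 2171) (.e (nat_lit 1413) (nat_lit 108) (.e (nat_lit 336443) (nat_lit 32) (.e (nat_lit 466972) (nat_lit 21) (.e (nat_lit 164402) (nat_lit 256) (.e (nat_lit 57400) (nat_lit 10) .nil))))) .nil)) 
(.lf (nat_lit 56273) (.g (nat_lit 3916) (.e (nat_lit 1416) (nat_lit 108) (.e (nat_lit 336324) (nat_lit 18) (.e (nat_lit 204831) (nat_lit 18) (.e (nat_lit 57852) (nat_lit 252) .nil)))) .nil))) (.nd (nat_lit 6) 
(.lf (nat_lit 56241) (.g (nat_lit 3127) (.e (nat_lit 1415) (nat_lit 108) (.e (nat_lit 336326) (nat_lit 18) (.e (nat_lit 204863) (nat_lit 27) (.e (nat_lit 344133) (nat_lit 26) (.e (nat_lit 557098) (nat_lit 13) (.e (nat_lit 172140) (nat_lit 22) (.e (nat_lit 139269) (nat_lit 0) .nil))))))) (.g (nat_lit 5) .nil .nil))) 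
(.lf (nat_lit 56305) (.g (nat_lit 3384) (.e (nat_lit 1416) (nat_lit 108) (.e (nat_lit 336454) (nat_lit 34) (.e (nat_lit 483383) (nat_lit 23) (.e (nat_lit 336019) (nat_lit 3) (.e (nat_lit 98334) (nat_lit 18) (.e (nat_lit 164161) (nat_lit 152) (.e (nat_lit 1032) (nat_lit 81) .nil))))))) (.g (nat_lit 5) .nil .nil)))))) (.nd (nat_lit 4) (.nd (nat_lit 5) (.nd (nat_lit 6) 
(.lf (nat_lit 56201) (.g (nat_lit 1956) (.e (nat_lit 1413) (nat_lit 108) (.e (nat_lit 336443) (nat_lit 32) (.e (nat_lit 466969) (nat_lit 21) (.e (nat_lit 164348) (nat_lit 240) (.e (nat_lit 2640) (nat_lit 165) (.e (nat_lit 188160) (nat_lit 32) .nil)))))) (.g (nat_lit 4) .nil .nil))) 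
(.lf (nat_lit 56265) (.g (nat_lit 3847) (.e (nat_lit 1416) (nat_lit 108) (.e (nat_lit 336240) (nat_lit 15) (.e (nat_lit 3309) (nat_lit 202) (.e (nat_lit 573485) (nat_lit 13) (.e (nat_lit 65619) (nat_lit 10) (.e (nat_lit 344117) (nat_lit 21) (.e (nat_lit 516098) (nat_lit 0) (.e (nat_lit 7545) (nat_lit 402) .nil)))))))) (.g (nat_lit 8) .nil .nil)))) (.nd (nat_lit 6) 
(.lf (nat_lit 56233) (.g (nat_lit 2396) (.e (nat_lit 1414) (nat_lit 108) (.e (nat_lit 336443) (nat_lit 32) (.e (nat_lit 466971) (nat_lit 21) (.e (nat_lit 164348) (nat_lit 240) (.e (nat_lit 2640) (nat_lit 165) (.e (nat_lit 188160) (nat_lit 32) .nil)))))) (.g (nat_lit 5) .nil .nil))) 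
(.lf (nat_lit 56297) (.g (nat_lit 808) (.e (nat_lit 1416) (nat_lit 108) (.e (nat_lit 336443) (nat_lit 32) (.e (nat_lit 466972) (nat_lit 21) .nil))) .nil)))) (.nd (nat_lit 5) (.nd (nat_lit 6) 
(.lf (nat_lit 56217) (.g (nat_lit 1876) (.e (nat_lit 1413) (nat_lit 108) (.e (nat_lit 336454) (nat_lit 34) (.e (nat_lit 483383) (nat_lit 23) (.e (nat_lit 336326) (nat_lit 18) .nil)))) .nil)) 
(.lf (nat_lit 56281) (.g (nat_lit 638) (.e (nat_lit 1416) (nat_lit 108) (.e (nat_lit 336324) (nat_lit 18) (.e (nat_lit 204882) (nat_lit 32) .nil))) .nil))) (.nd (nat_lit 6) 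
(.lf (nat_lit 56249) (.g (nat_lit 2532) (.e (nat_lit 1415) (nat_lit 108) (.e (nat_lit 336443) (nat_lit 32) (.e (nat_lit 466977) (nat_lit 22) (.e (nat_lit 196624) (nat_lit 9) (.e (nat_lit 442) (nat_lit 33) .nil))))) .nil)) 
(.lf (nat_lit 56313) (.g (nat_lit 1956) (.e (nat_lit 1416) (nat_lit 108) (.e (nat_lit 336456) (nat_lit 34) (.e (nat_lit 483383) (nat_lit 23) (.e (nat_lit 336019) (nat_lit 3) (.e (nat_lit 98334) (nat_lit 18) .nil))))) .nil)))))) (.nd (nat_lit 3) (.nd (nat_lit 4) (.nd (nat_lit 5) (.nd (nat_lit 6) 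
(.lf (nat_lit 56197) (.g (nat_lit 1608) (.e (nat_lit 1413) (nat_lit 108) (.e (nat_lit 336443) (nat_lit 32) (.e (nat_lit 466969) (nat_lit 21) (.e (nat_lit 164345) (nat_lit 240) .nil)))) .nil)) 
(.lf (nat_lit 56261) (.g (nat_lit 2803) (.e (nat_lit 1416) (nat_lit 108) (.e (nat_lit 336019) (nat_lit 3) (.e (nat_lit 98372) (nat_lit 29) (.e (nat_lit 450579) (nat_lit 5) (.e (nat_lit 532484) (nat_lit 0) .nil))))) .nil))) (.nd (nat_lit 6) 
(.lf (nat_lit 56229) (.g (nat_lit 795) (.e (nat_lit 1414) (nat_lit 108) (.e (nat_lit 336443) (nat_lit 32) (.e (nat_lit 466969) (nat_lit 21) .nil))) .nil)) 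
(.lf (nat_lit 56293) (.g (nat_lit 1531) (.e (nat_lit 1416) (nat_lit 108) (.e (nat_lit 336443) (nat_lit 32) (.e (nat_lit 466969) (nat_lit 21) (.e (nat_lit 164345) (nat_lit 240) .nil)))) .nil)))) (.nd (nat_lit 5) (.nd (nat_lit 6) 
(.lf (nat_lit 56213) (.g (nat_lit 2686) (.e (nat_lit 1413) (nat_lit 108) (.e (nat_lit 336454) (nat_lit 34) (.e (nat_lit 483383) (nat_lit 23) (.e (nat_lit 336324) (nat_lit 18) (.e (nat_lit 204830) (nat_lit 18) .nil))))) .nil)) 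
(.lf (nat_lit 56277) (.g (nat_lit 2028) (.e (nat_lit 1416) (nat_lit 108) (.e (nat_lit 336324) (nat_lit 18) (.e (nat_lit 204854) (nat_lit 26) (.e (nat_lit 336326) (nat_lit 18) (.e (nat_lit 204880) (nat_lit 32) .nil))))) .nil))) (.nd (nat_lit 6) 
(.lf (nat_lit 56245) (.g (nat_lit 795) (.e (nat_lit 1415) (nat_lit 108) (.e (nat_lit 336443) (nat_lit 32) (.e (nat_lit 466969) (nat_lit 21) .nil))) .nil)) 
(.lf (nat_lit 56309) (.g (nat_lit 892) (.e (nat_lit 1416) (nat_lit 108) (.e (nat_lit 336456) (nat_lit 34) (.e (nat_lit 483372) (nat_lit 21) .nil))) .nil))))) (.nd (nat_lit 4) (.nd (nat_lit 5) (.nd (nat_lit 6) 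
(.lf (nat_lit 56205) (.g (nat_lit 1348) (.e (nat_lit 1413) (nat_lit 108) (.e (nat_lit 336443) (nat_lit 32) (.e (nat_lit 466971) (nat_lit 21) (.e (nat_lit 164348) (nat_lit 240) .nil)))) .nil)) 
(.lf (nat_lit 56269) (.g (nat_lit 4057) (.e (nat_lit 1416) (nat_lit 108) (.e (nat_lit 336324) (nat_lit 18) (.e (nat_lit 204831) (nat_lit 18) (.e (nat_lit 57847) (nat_lit 252) .nil)))) .nil))) (.nd (nat_lit 6) 
(.lf (nat_lit 56237) (.g (nat_lit 4810) (.e (nat_lit 1415) (nat_lit 108) (.e (nat_lit 336324) (nat_lit 18) (.e (nat_lit 204831) (nat_lit 18) (.e (nat_lit 57849) (nat_lit 252) .nil)))) .nil)) 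
(.lf (nat_lit 56301) (.g (nat_lit 3978) (.e (nat_lit 1416) (nat_lit 108) (.e (nat_lit 336454) (nat_lit 34) (.e (nat_lit 483365) (nat_lit 18) (.e (nat_lit 57849) (nat_lit 252) .nil)))) .nil)))) (.nd (nat_lit 5) (.nd (nat_lit 6) 
(.lf (nat_lit 56221) (.g (nat_lit 2178) (.e (nat_lit 1413) (nat_lit 108) (.e (nat_lit 336454) (nat_lit 34) (.e (nat_lit 483406) (nat_lit 26) (.e (nat_lit 385068) (nat_lit 26) .nil)))) .nil)) 
(.lf (nat_lit 56285) (.g (nat_lit 1490) (.e (nat_lit 1416) (nat_lit 108) (.e (nat_lit 336336) (nat_lit 20) (.e (nat_lit 229120) (nat_lit 5) (.e (nat_lit 114698) (nat_lit 11) (.e (nat_lit 426315) (nat_lit 12) (.e (nat_lit 483072) (nat_lit 8) .nil)))))) (.g (nat_lit 4) .nil .nil)))) (.nd (nat_lit 6) 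
(.lf (nat_lit 56253) (.g (nat_lit 2139) (.e (nat_lit 1415) (nat_lit 108) (.e (nat_lit 336456) (nat_lit 34) (.e (nat_lit 483383) (nat_lit 23) (.e (nat_lit 336019) (nat_lit 3) (.e (nat_lit 98334) (nat_lit 18) .nil))))) .nil)) 
(.lf (nat_lit 56317) (.g (nat_lit 584) (.e (nat_lit 1416) (nat_lit 108) (.e (nat_lit 336456) (nat_lit 34) (.e (nat_lit 483398) (nat_lit 25) .nil))) .nil))))))) (.nd (nat_lit 2) (.nd (nat_lit 3) (.nd (nat_lit 4) (.nd (nat_lit 5) (.nd (nat_lit 6) 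
(.lf (nat_lit 56195) (.g (nat_lit 1323) (.e (nat_lit 1413) (nat_lit 108) (.e (nat_lit 336428) (nat_lit 29) (.e (nat_lit 442374) (nat_lit 0) (.e (nat_lit 2059) (nat_lit 142) (.e (nat_lit 704595) (nat_lit 5) (.e (nat_lit 188160) (nat_lit 32) .nil)))))) (.g (nat_lit 4) .nil .nil))) 
(.lf (nat_lit 56259) (.g (nat_lit 1325) (.e (nat_lit 1415) (nat_lit 108) (.e (nat_lit 336456) (nat_lit 34) (.e (nat_lit 483399) (nat_lit 25) (.e (nat_lit 368676) (nat_lit 21) (.e (nat_lit 516117) (nat_lit 1) .nil))))) .nil))) (.nd (nat_lit 6) 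
(.lf (nat_lit 56227) (.g (nat_lit 226) (.e (nat_lit 1414) (nat_lit 108) (.e (nat_lit 336426) (nat_lit 29) (.e (nat_lit 442382) (nat_lit 8) .nil))) .nil)) 
(.lf (nat_lit 56291) (.g (nat_lit 1082) (.e (nat_lit 1416) (nat_lit 108) (.e (nat_lit 336438) (nat_lit 31) (.e (nat_lit 458769) (nat_lit 16) (.e (nat_lit 164340) (nat_lit 232) (.e (nat_lit 446) (nat_lit 33) (.e (nat_lit 442112) (nat_lit 0) .nil)))))) (.g (nat_lit 5) .nil .nil))))) (.nd (nat_lit 5) (.nd (nat_lit 6) 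
(.lf (nat_lit 56211) (.g (nat_lit 1850) (.e (nat_lit 1413) (nat_lit 108) (.e (nat_lit 336443) (nat_lit 32) (.e (nat_lit 466977) (nat_lit 22) (.e (nat_lit 196656) (nat_lit 11) .nil)))) .nil)) 
(.lf (nat_lit 56275) (.g (nat_lit 637) (.e (nat_lit 1416) (nat_lit 108) (.e (nat_lit 336324) (nat_lit 18) (.e (nat_lit 204854) (nat_lit 26) .nil))) .nil))) (.nd (nat_lit 6) 
(.lf (nat_lit 56243) (.g (nat_lit 2059) (.e (nat_lit 1415) (nat_lit 108) (.e (nat_lit 336367) (nat_lit 27) (.e (nat_lit 426542) (nat_lit 29) (.e (nat_lit 352313) (nat_lit 23) (.e (nat_lit 98334) (nat_lit 18) (.e (nat_lit 164159) (nat_lit 152) (.e (nat_lit 1025) (nat_lit 81) .nil))))))) (.g (nat_lit 7) .nil .nil))) 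
(.lf (nat_lit 56307) (.g (nat_lit 748) (.e (nat_lit 1416) (nat_lit 108) (.e (nat_lit 336454) (nat_lit 34) (.e (nat_lit 483399) (nat_lit 25) .nil))) .nil))))) (.nd (nat_lit 4) (.nd (nat_lit 5) (.nd (nat_lit 6) 
(.lf (nat_lit 56203) (.g (nat_lit 1758) (.e (nat_lit 1413) (nat_lit 108) (.e (nat_lit 336443) (nat_lit 32) (.e (nat_lit 466971) (nat_lit 21) (.e (nat_lit 164346) (nat_lit 240) .nil)))) .nil)) 
(.lf (nat_lit 56267) (.g (nat_lit 3845) (.e (nat_lit 1416) (nat_lit 108) (.e (nat_lit 336324) (nat_lit 18) (.e (nat_lit 204831) (nat_lit 18) (.e (nat_lit 57830) (nat_lit 250) .nil)))) .nil))) (.nd (nat_lit 6) 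
(.lf (nat_lit 56235) (.g (nat_lit 799) (.e (nat_lit 1414) (nat_lit 108) (.e (nat_lit 336443) (nat_lit 32) (.e (nat_lit 466979) (nat_lit 23) .nil))) .nil)) 
(.lf (nat_lit 56299) (.g (nat_lit 3961) (.e (nat_lit 1416) (nat_lit 108) (.e (nat_lit 336454) (nat_lit 34) (.e (nat_lit 483365) (nat_lit 18) (.e (nat_lit 57847) (nat_lit 252) .nil)))) .nil)))) (.nd (nat_lit 5) (.nd (nat_lit 6) 
(.lf (nat_lit 56219) (.g (nat_lit 2198) (.e (nat_lit 1413) (nat_lit 108) (.e (nat_lit 336454) (nat_lit 34) (.e (nat_lit 483406) (nat_lit 26) (.e (nat_lit 385066) (nat_lit 26) .nil)))) .nil)) 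
(.lf (nat_lit 56283) (.g (nat_lit 875) (.e (nat_lit 1416) (nat_lit 108) (.e (nat_lit 336326) (nat_lit 18) (.e (nat_lit 204877) (nat_lit 31) (.e (nat_lit 376842) (nat_lit 11) .nil)))) .nil))) (.nd (nat_lit 6) 
(.lf (nat_lit 56251) (.g (nat_lit 805) (.e (nat_lit 1415) (nat_lit 108) (.e (nat_lit 336443) (nat_lit 32) (.e (nat_lit 466981) (nat_lit 23) .nil))) .nil)) 
(.lf (nat_lit 56315) (.g (nat_lit 2972) (.e (nat_lit 1416) (nat_lit 108) (.e (nat_lit 336456) (nat_lit 34) (.e (nat_lit 483383) (nat_lit 23) (.e (nat_lit 336019) (nat_lit 3) (.e (nat_lit 98335) (nat_lit 18) (.e (nat_lit 164161) (nat_lit 152) (.e (nat_lit 1032) (nat_lit 81) .nil))))))) (.g (nat_lit 5) .nil .nil))))))) (.nd (nat_lit 3) (.nd (nat_lit 4) (.nd (nat_lit 5) (.nd (nat_lit 6) 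
(.lf (nat_lit 56199) (.g (nat_lit 1441) (.e (nat_lit 1413) (nat_lit 108) (.e (nat_lit 336443) (nat_lit 32) (.e (nat_lit 466969) (nat_lit 21) (.e (nat_lit 164348) (nat_lit 240) .nil)))) .nil)) 
(.lf (nat_lit 56263) (.g (nat_lit 1521) (.e (nat_lit 1416) (nat_lit 108) (.e (nat_lit 336211) (nat_lit 13) (.e (nat_lit 401152) (nat_lit 16) (.e (nat_lit 401454) (nat_lit 12) (.e (nat_lit 475173) (nat_lit 22) .nil))))) .nil))) (.nd (nat_lit 6) 
(.lf (nat_lit 56231) (.g (nat_lit 2448) (.e (nat_lit 1414) (nat_lit 108) (.e (nat_lit 336443) (nat_lit 32) (.e (nat_lit 466969) (nat_lit 21) (.e (nat_lit 164348) (nat_lit 240) (.e (nat_lit 2640) (nat_lit 165) (.e (nat_lit 188160) (nat_lit 32) .nil)))))) (.g (nat_lit 5) .nil .nil))) 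
(.lf (nat_lit 56295) (.g (nat_lit 813) (.e (nat_lit 1416) (nat_lit 108) (.e (nat_lit 336443) (nat_lit 32) (.e (nat_lit 466971) (nat_lit 21) .nil))) .nil)))) (.nd (nat_lit 5) (.nd (nat_lit 6) 
(.lf (nat_lit 56215) (.g (nat_lit 2721) (.e (nat_lit 1413) (nat_lit 108) (.e (nat_lit 336454) (nat_lit 34) (.e (nat_lit 483383) (nat_lit 23) (.e (nat_lit 336324) (nat_lit 18) (.e (nat_lit 204831) (nat_lit 18) .nil))))) .nil)) 
(.lf (nat_lit 56279) (.g (nat_lit 828) (.e (nat_lit 1416) (nat_lit 108) (.e (nat_lit 336324) (nat_lit 18) (.e (nat_lit 204877) (nat_lit 31) .nil))) .nil))) (.nd (nat_lit 6) 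
(.lf (nat_lit 56247) (.g (nat_lit 2151) (.e (nat_lit 1415) (nat_lit 108) (.e (nat_lit 336443) (nat_lit 32) (.e (nat_lit 466971) (nat_lit 21) (.e (nat_lit 164348) (nat_lit 240) (.e (nat_lit 2640) (nat_lit 165) (.e (nat_lit 188160) (nat_lit 32) .nil)))))) (.g (nat_lit 5) .nil .nil))) 
(.lf (nat_lit 56311) (.g (nat_lit 2019) (.e (nat_lit 1416) (nat_lit 108) (.e (nat_lit 336456) (nat_lit 34) (.e (nat_lit 483383) (nat_lit 23) (.e (nat_lit 336019) (nat_lit 3) (.e (nat_lit 98333) (nat_lit 18) .nil))))) .nil))))) (.nd (nat_lit 4) (.nd (nat_lit 5) (.nd (nat_lit 6) 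
(.lf (nat_lit 56207) (.g (nat_lit 1904) (.e (nat_lit 1413) (nat_lit 108) (.e (nat_lit 336443) (nat_lit 32) (.e (nat_lit 466971) (nat_lit 21) (.e (nat_lit 164348) (nat_lit 240) (.e (nat_lit 2640) (nat_lit 165) (.e (nat_lit 188160) (nat_lit 32) .nil)))))) (.g (nat_lit 4) .nil .nil))) 
(.lf (nat_lit 56271) (.g (nat_lit 4677) (.e (nat_lit 1416) (nat_lit 108) (.e (nat_lit 336324) (nat_lit 18) (.e (nat_lit 204831) (nat_lit 18) (.e (nat_lit 57849) (nat_lit 252) .nil)))) .nil))) (.nd (nat_lit 6) 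
(.lf (nat_lit 56239) (.g (nat_lit 4114) (.e (nat_lit 1415) (nat_lit 108) (.e (nat_lit 336324) (nat_lit 18) (.e (nat_lit 204831) (nat_lit 18) (.e (nat_lit 57852) (nat_lit 252) .nil)))) .nil)) 
(.lf (nat_lit 56303) (.g (nat_lit 2274) (.e (nat_lit 1416) (nat_lit 108) (.e (nat_lit 336454) (nat_lit 34) (.e (nat_lit 483383) (nat_lit 23) (.e (nat_lit 336019) (nat_lit 3) (.e (nat_lit 98334) (nat_lit 18) .nil))))) .nil)))) (.nd (nat_lit 5) (.nd (nat_lit 6) 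
(.lf (nat_lit 56223) (.g (nat_lit 4043) (.e (nat_lit 1414) (nat_lit 108) (.e (nat_lit 336324) (nat_lit 18) (.e (nat_lit 204831) (nat_lit 18) (.e (nat_lit 57830) (nat_lit 250) .nil)))) .nil)) 
(.lf (nat_lit 56287) (.g (nat_lit 1770) (.e (nat_lit 1416) (nat_lit 108) (.e (nat_lit 336367) (nat_lit 27) (.e (nat_lit 426542) (nat_lit 29) (.e (nat_lit 352313) (nat_lit 23) (.e (nat_lit 98334) (nat_lit 18) (.e (nat_lit 164161) (nat_lit 152) (.e (nat_lit 1032) (nat_lit 81) .nil))))))) (.g (nat_lit 5) .nil .nil)))) (.nd (nat_lit 6) 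
(.lf (nat_lit 56255) (.g (nat_lit 2194) (.e (nat_lit 1415) (nat_lit 108) (.e (nat_lit 336456) (nat_lit 34) (.e (nat_lit 483383) (nat_lit 23) (.e (nat_lit 336019) (nat_lit 3) (.e (nat_lit 98334) (nat_lit 18) (.e (nat_lit 164157) (nat_lit 152) (.e (nat_lit 1029) (nat_lit 81) .nil))))))) (.g (nat_lit 4) .nil .nil))) 
(.lf (nat_lit 56319) (.g (nat_lit 583) (.e (nat_lit 1416) (nat_lit 108) (.e (nat_lit 336456) (nat_lit 34) (.e (nat_lit 483399) (nat_lit 25) .nil))) .nil)))))))))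

noncomputable def tv776 : DT := (.nd (nat_lit 0) (.nd (nat_lit 1) (.nd (nat_lit 2) (.nd (nat_lit 3) (.nd (nat_lit 4) (.nd (nat_lit 5) (.nd (nat_lit 6) 
(.lf (nat_lit 56320) (.g (nat_lit 1899) (.e (nat_lit 1416) (nat_lit 108) (.e (nat_lit 336456) (nat_lit 34) (.e (nat_lit 483399) (nat_lit 25) (.e (nat_lit 368676) (nat_lit 21) (.e (nat_lit 516117) (nat_lit 1) (.e (nat_lit 164159) (nat_lit 152) (.e (nat_lit 1032) (nat_lit 81) .nil))))))) (.g (nat_lit 5) .nil .nil))) 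
(.lf (nat_lit 56384) (.g (nat_lit 4083) (.e (nat_lit 1420) (nat_lit 108) (.e (nat_lit 336324) (nat_lit 18) (.e (nat_lit 204831) (nat_lit 18) (.e (nat_lit 57851) (nat_lit 252) .nil)))) .nil))) (.nd (nat_lit 6) 
(.lf (nat_lit 56352) (.g (nat_lit 806) (.e (nat_lit 1418) (nat_lit 108) (.e (nat_lit 336443) (nat_lit 32) (.e (nat_lit 466981) (nat_lit 23) .nil))) .nil)) 
(.lf (nat_lit 56416) (.g (nat_lit 4114) (.e (nat_lit 1422) (nat_lit 108) (.e (nat_lit 336324) (nat_lit 18) (.e (nat_lit 204831) (nat_lit 18) (.e (nat_lit 57852) (nat_lit 252) .nil)))) .nil)))) (.nd (nat_lit 5) (.nd (nat_lit 6) 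
(.lf (nat_lit 56336) (.g (nat_lit 3690) (.e (nat_lit 1417) (nat_lit 108) (.e (nat_lit 336454) (nat_lit 34) (.e (nat_lit 483410) (nat_lit 27) (.e (nat_lit 401425) (nat_lit 2) (.e (nat_lit 196660) (nat_lit 12) .nil))))) .nil)) 
(.lf (nat_lit 56400) (.g (nat_lit 744) (.e (nat_lit 1420) (nat_lit 108) (.e (nat_lit 336454) (nat_lit 34) (.e (nat_lit 483380) (nat_lit 23) .nil))) .nil))) (.nd (nat_lit 6) 
(.lf (nat_lit 56368) (.g (nat_lit 1633) (.e (nat_lit 1419) (nat_lit 108) (.e (nat_lit 336369) (nat_lit 27) (.e (nat_lit 426173) (nat_lit 7) (.e (nat_lit 409616) (nat_lit 10) .nil)))) .nil)) 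
(.lf (nat_lit 56432) (.g (nat_lit 2234) (.e (nat_lit 1422) (nat_lit 108) (.e (nat_lit 336454) (nat_lit 34) (.e (nat_lit 483383) (nat_lit 23) (.e (nat_lit 336326) (nat_lit 18) (.e (nat_lit 204830) (nat_lit 18) .nil))))) .nil))))) (.nd (nat_lit 4) (.nd (nat_lit 5) (.nd (nat_lit 6) 
(.lf (nat_lit 56328) (.g (nat_lit 695) (.e (nat_lit 1417) (nat_lit 108) (.e (nat_lit 336443) (nat_lit 32) (.e (nat_lit 466971) (nat_lit 21) .nil))) .nil)) 
(.lf (nat_lit 56392) (.g (nat_lit 1480) (.e (nat_lit 1420) (nat_lit 108) (.e (nat_lit 336369) (nat_lit 27) (.e (nat_lit 426173) (nat_lit 7) (.e (nat_lit 409617) (nat_lit 10) .nil)))) .nil))) (.nd (nat_lit 6) 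
(.lf (nat_lit 56360) (.g (nat_lit 2309) (.e (nat_lit 1418) (nat_lit 108) (.e (nat_lit 336454) (nat_lit 34) (.e (nat_lit 483406) (nat_lit 26) (.e (nat_lit 385066) (nat_lit 26) (.e (nat_lit 532501) (nat_lit 1) .nil))))) .nil)) 
(.lf (nat_lit 56424) (.g (nat_lit 807) (.e (nat_lit 1422) (nat_lit 108) (.e (nat_lit 336443) (nat_lit 32) (.e (nat_lit 466971) (nat_lit 21) .nil))) .nil)))) (.nd (nat_lit 5) (.nd (nat_lit 6) 
(.lf (nat_lit 56344) (.g (nat_lit 2258) (.e (nat_lit 1418) (nat_lit 108) (.e (nat_lit 336443) (nat_lit 32) (.e (nat_lit 466969) (nat_lit 21) (.e (nat_lit 164348) (nat_lit 240) (.e (nat_lit 2640) (nat_lit 165) (.e (nat_lit 188160) (nat_lit 32) .nil)))))) (.g (nat_lit 5) .nil .nil))) 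
(.lf (nat_lit 56408) (.g (nat_lit 1988) (.e (nat_lit 1421) (nat_lit 108) (.e (nat_lit 336428) (nat_lit 29) (.e (nat_lit 442374) (nat_lit 0) (.e (nat_lit 2059) (nat_lit 142) (.e (nat_lit 704595) (nat_lit 5) (.e (nat_lit 188160) (nat_lit 32) .nil)))))) (.g (nat_lit 5) .nil .nil)))) (.nd (nat_lit 6) 
(.lf (nat_lit 56376) (.g (nat_lit 2648) (.e (nat_lit 1419) (nat_lit 108) (.e (nat_lit 336454) (nat_lit 34) (.e (nat_lit 483383) (nat_lit 23) (.e (nat_lit 336324) (nat_lit 18) (.e (nat_lit 204830) (nat_lit 18) .nil))))) .nil)) 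
(.lf (nat_lit 56440) (.g (nat_lit 1649) (.e (nat_lit 1423) (nat_lit 108) (.e (nat_lit 336326) (nat_lit 18) (.e (nat_lit 204862) (nat_lit 27) (.e (nat_lit 344132) (nat_lit 26) (.e (nat_lit 557100) (nat_lit 13) .nil))))) .nil)))))) (.nd (nat_lit 3) (.nd (nat_lit 4) (.nd (nat_lit 5) (.nd (nat_lit 6) 
(.lf (nat_lit 56324) (.g (nat_lit 4145) (.e (nat_lit 1417) (nat_lit 108) (.e (nat_lit 336324) (nat_lit 18) (.e (nat_lit 204831) (nat_lit 18) (.e (nat_lit 57854) (nat_lit 252) .nil)))) .nil)) 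
(.lf (nat_lit 56388) (.g (nat_lit 637) (.e (nat_lit 1420) (nat_lit 108) (.e (nat_lit 336324) (nat_lit 18) (.e (nat_lit 204854) (nat_lit 26) .nil))) .nil))) (.nd (nat_lit 6) 
(.lf (nat_lit 56356) (.g (nat_lit 2026) (.e (nat_lit 1418) (nat_lit 108) (.e (nat_lit 336454) (nat_lit 34) (.e (nat_lit 483383) (nat_lit 23) (.e (nat_lit 336324) (nat_lit 18) (.e (nat_lit 204831) (nat_lit 18) .nil))))) .nil)) 
(.lf (nat_lit 56420) (.g (nat_lit 638) (.e (nat_lit 1422) (nat_lit 108) (.e (nat_lit 336324) (nat_lit 18) (.e (nat_lit 204882) (nat_lit 32) .nil))) .nil)))) (.nd (nat_lit 5) (.nd (nat_lit 6) 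
(.lf (nat_lit 56340) (.g (nat_lit 4114) (.e (nat_lit 1418) (nat_lit 108) (.e (nat_lit 336324) (nat_lit 18) (.e (nat_lit 204831) (nat_lit 18) (.e (nat_lit 57852) (nat_lit 252) .nil)))) .nil)) 
(.lf (nat_lit 56404) (.g (nat_lit 1876) (.e (nat_lit 1420) (nat_lit 108) (.e (nat_lit 336454) (nat_lit 34) (.e (nat_lit 483383) (nat_lit 23) (.e (nat_lit 336326) (nat_lit 18) .nil)))) .nil))) (.nd (nat_lit 6) 
(.lf (nat_lit 56372) (.g (nat_lit 2268) (.e (nat_lit 1419) (nat_lit 108) (.e (nat_lit 336443) (nat_lit 32) (.e (nat_lit 466969) (nat_lit 21) (.e (nat_lit 164348) (nat_lit 240) (.e (nat_lit 2640) (nat_lit 165) (.e (nat_lit 188160) (nat_lit 32) .nil)))))) (.g (nat_lit 5) .nil .nil))) 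
(.lf (nat_lit 56436) (.g (nat_lit 473) (.e (nat_lit 1423) (nat_lit 108) (.e (nat_lit 336208) (nat_lit 12) (.e (nat_lit 385094) (nat_lit 49) .nil))) .nil))))) (.nd (nat_lit 4) (.nd (nat_lit 5) (.nd (nat_lit 6) 
(.lf (nat_lit 56332) (.g (nat_lit 1419) (.e (nat_lit 1417) (nat_lit 108) (.e (nat_lit 336454) (nat_lit 34) (.e (nat_lit 483383) (nat_lit 23) (.e (nat_lit 336324) (nat_lit 18) .nil)))) .nil)) 
(.lf (nat_lit 56396) (.g (nat_lit 2030) (.e (nat_lit 1420) (nat_lit 108) (.e (nat_lit 336443) (nat_lit 32) (.e (nat_lit 466969) (nat_lit 21) (.e (nat_lit 164348) (nat_lit 240) (.e (nat_lit 2638) (nat_lit 165) (.e (nat_lit 188160) (nat_lit 32) .nil)))))) (.g (nat_lit 4) .nil .nil)))) (.nd (nat_lit 6) 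
(.lf (nat_lit 56364) (.g (nat_lit 4810) (.e (nat_lit 1419) (nat_lit 108) (.e (nat_lit 336324) (nat_lit 18) (.e (nat_lit 204831) (nat_lit 18) (.e (nat_lit 57849) (nat_lit 252) .nil)))) .nil)) 
(.lf (nat_lit 56428) (.g (nat_lit 1996) (.e (nat_lit 1422) (nat_lit 108) (.e (nat_lit 336454) (nat_lit 34) (.e (nat_lit 483380) (nat_lit 23) (.e (nat_lit 336326) (nat_lit 18) (.e (nat_lit 204831) (nat_lit 18) .nil))))) .nil)))) (.nd (nat_lit 5) (.nd (nat_lit 6) 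
(.lf (nat_lit 56348) (.g (nat_lit 2540) (.e (nat_lit 1418) (nat_lit 108) (.e (nat_lit 336443) (nat_lit 32) (.e (nat_lit 466974) (nat_lit 22) (.e (nat_lit 196624) (nat_lit 9) (.e (nat_lit 442) (nat_lit 33) (.e (nat_lit 434279) (nat_lit 39) (.e (nat_lit 663555) (nat_lit 0) .nil))))))) (.g (nat_lit 4) .nil .nil))) 
(.lf (nat_lit 56412) (.g (nat_lit 4040) (.e (nat_lit 1422) (nat_lit 108) (.e (nat_lit 336324) (nat_lit 18) (.e (nat_lit 204831) (nat_lit 18) (.e (nat_lit 57830) (nat_lit 250) .nil)))) .nil))) (.nd (nat_lit 6) 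
(.lf (nat_lit 56380) (.g (nat_lit 587) (.e (nat_lit 1420) (nat_lit 108) (.e (nat_lit 336324) (nat_lit 18) (.e (nat_lit 204831) (nat_lit 18) .nil))) .nil)) 
(.lf (nat_lit 56444) (.g (nat_lit 1404) (.e (nat_lit 1423) (nat_lit 108) (.e (nat_lit 336326) (nat_lit 18) (.e (nat_lit 204864) (nat_lit 27) (.e (nat_lit 344132) (nat_lit 26) (.e (nat_lit 557100) (nat_lit 13) .nil))))) .nil))))))) (.nd (nat_lit 2) (.nd (nat_lit 3) (.nd (nat_lit 4) (.nd (nat_lit 5) (.nd (nat_lit 6) 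
(.lf (nat_lit 56322) (.g (nat_lit 4809) (.e (nat_lit 1417) (nat_lit 108) (.e (nat_lit 336324) (nat_lit 18) (.e (nat_lit 204831) (nat_lit 18) (.e (nat_lit 57849) (nat_lit 252) .nil)))) .nil)) 
(.lf (nat_lit 56386) (.g (nat_lit 5369) (.e (nat_lit 1420) (nat_lit 108) (.e (nat_lit 336324) (nat_lit 18) (.e (nat_lit 204831) (nat_lit 18) (.e (nat_lit 57852) (nat_lit 252) (.e (nat_lit 57354) (nat_lit 0) .nil))))) .nil))) (.nd (nat_lit 6) 
(.lf (nat_lit 56354) (.g (nat_lit 2021) (.e (nat_lit 1418) (nat_lit 108) (.e (nat_lit 336454) (nat_lit 34) (.e (nat_lit 483383) (nat_lit 23) (.e (nat_lit 336019) (nat_lit 3) (.e (nat_lit 98334) (nat_lit 18) .nil))))) .nil)) 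
(.lf (nat_lit 56418) (.g (nat_lit 4146) (.e (nat_lit 1422) (nat_lit 108) (.e (nat_lit 336324) (nat_lit 18) (.e (nat_lit 204831) (nat_lit 18) (.e (nat_lit 57854) (nat_lit 252) .nil)))) .nil)))) (.nd (nat_lit 5) (.nd (nat_lit 6) 
(.lf (nat_lit 56338) (.g (nat_lit 4810) (.e (nat_lit 1418) (nat_lit 108) (.e (nat_lit 336324) (nat_lit 18) (.e (nat_lit 204831) (nat_lit 18) (.e (nat_lit 57849) (nat_lit 252) .nil)))) .nil)) 
(.lf (nat_lit 56402) (.g (nat_lit 2579) (.e (nat_lit 1420) (nat_lit 108) (.e (nat_lit 336454) (nat_lit 34) (.e (nat_lit 483383) (nat_lit 23) (.e (nat_lit 336324) (nat_lit 18) (.e (nat_lit 204830) (nat_lit 18) .nil))))) .nil))) (.nd (nat_lit 6) 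
(.lf (nat_lit 56370) (.g (nat_lit 2102) (.e (nat_lit 1419) (nat_lit 108) (.e (nat_lit 336428) (nat_lit 29) (.e (nat_lit 442374) (nat_lit 0) (.e (nat_lit 2059) (nat_lit 142) (.e (nat_lit 704595) (nat_lit 5) (.e (nat_lit 188160) (nat_lit 32) .nil)))))) (.g (nat_lit 5) .nil .nil))) 
(.lf (nat_lit 56434) (.g (nat_lit 2148) (.e (nat_lit 1422) (nat_lit 108) (.e (nat_lit 336454) (nat_lit 34) (.e (nat_lit 483406) (nat_lit 26) (.e (nat_lit 385066) (nat_lit 26) .nil)))) .nil))))) (.nd (nat_lit 4) (.nd (nat_lit 5) (.nd (nat_lit 6) 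
(.lf (nat_lit 56330) (.g (nat_lit 764) (.e (nat_lit 1417) (nat_lit 108) (.e (nat_lit 336443) (nat_lit 32) (.e (nat_lit 466972) (nat_lit 21) .nil))) .nil)) 
(.lf (nat_lit 56394) (.g (nat_lit 1409) (.e (nat_lit 1420) (nat_lit 108) (.e (nat_lit 336434) (nat_lit 30) (.e (nat_lit 450564) (nat_lit 0) (.e (nat_lit 5548) (nat_lit 306) (.e (nat_lit 2640) (nat_lit 165) .nil))))) .nil))) (.nd (nat_lit 6) 
(.lf (nat_lit 56362) (.g (nat_lit 3691) (.e (nat_lit 1418) (nat_lit 108) (.e (nat_lit 336454) (nat_lit 34) (.e (nat_lit 483410) (nat_lit 27) (.e (nat_lit 401425) (nat_lit 2) (.e (nat_lit 196660) (nat_lit 12) .nil))))) .nil)) 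
(.lf (nat_lit 56426) (.g (nat_lit 814) (.e (nat_lit 1422) (nat_lit 108) (.e (nat_lit 336443) (nat_lit 32) (.e (nat_lit 466972) (nat_lit 21) .nil))) .nil)))) (.nd (nat_lit 5) (.nd (nat_lit 6) 
(.lf (nat_lit 56346) (.g (nat_lit 2206) (.e (nat_lit 1418) (nat_lit 108) (.e (nat_lit 336443) (nat_lit 32) (.e (nat_lit 466971) (nat_lit 21) (.e (nat_lit 164348) (nat_lit 240) (.e (nat_lit 2640) (nat_lit 165) (.e (nat_lit 188160) (nat_lit 32) .nil)))))) (.g (nat_lit 5) .nil .nil))) 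
(.lf (nat_lit 56410) (.g (nat_lit 1406) (.e (nat_lit 1421) (nat_lit 108) (.e (nat_lit 336434) (nat_lit 30) (.e (nat_lit 450564) (nat_lit 0) (.e (nat_lit 5548) (nat_lit 306) (.e (nat_lit 2640) (nat_lit 165) .nil))))) .nil))) (.nd (nat_lit 6) 
(.lf (nat_lit 56378) (.g (nat_lit 2211) (.e (nat_lit 1419) (nat_lit 108) (.e (nat_lit 336454) (nat_lit 34) (.e (nat_lit 483406) (nat_lit 26) (.e (nat_lit 385066) (nat_lit 26) .nil)))) .nil)) 
(.lf (nat_lit 56442) (.g (nat_lit 1659) (.e (nat_lit 1423) (nat_lit 108) (.e (nat_lit 336326) (nat_lit 18) (.e (nat_lit 204863) (nat_lit 27) (.e (nat_lit 344131) (nat_lit 26) .nil)))) .nil)))))) (.nd (nat_lit 3) (.nd (nat_lit 4) (.nd (nat_lit 5) (.nd (nat_lit 6) 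
(.lf (nat_lit 56326) (.g (nat_lit 700) (.e (nat_lit 1417) (nat_lit 108) (.e (nat_lit 336443) (nat_lit 32) (.e (nat_lit 466969) (nat_lit 21) .nil))) .nil)) 
(.lf (nat_lit 56390) (.g (nat_lit 638) (.e (nat_lit 1420) (nat_lit 108) (.e (nat_lit 336324) (nat_lit 18) (.e (nat_lit 204882) (nat_lit 32) .nil))) .nil))) (.nd (nat_lit 6) 
(.lf (nat_lit 56358) (.g (nat_lit 1611) (.e (nat_lit 1418) (nat_lit 108) (.e (nat_lit 336454) (nat_lit 34) (.e (nat_lit 483398) (nat_lit 25) (.e (nat_lit 368676) (nat_lit 21) (.e (nat_lit 516117) (nat_lit 1) (.e (nat_lit 164159) (nat_lit 152) (.e (nat_lit 1022) (nat_lit 81) .nil))))))) (.g (nat_lit 4) .nil .nil))) 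
(.lf (nat_lit 56422) (.g (nat_lit 1406) (.e (nat_lit 1422) (nat_lit 108) (.e (nat_lit 336434) (nat_lit 30) (.e (nat_lit 450564) (nat_lit 0) (.e (nat_lit 5548) (nat_lit 306) (.e (nat_lit 2640) (nat_lit 165) .nil))))) .nil)))) (.nd (nat_lit 5) (.nd (nat_lit 6) 
(.lf (nat_lit 56342) (.g (nat_lit 1748) (.e (nat_lit 1418) (nat_lit 108) (.e (nat_lit 336324) (nat_lit 18) (.e (nat_lit 204854) (nat_lit 26) (.e (nat_lit 336316) (nat_lit 17) .nil)))) .nil)) 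
(.lf (nat_lit 56406) (.g (nat_lit 1424) (.e (nat_lit 1421) (nat_lit 108) (.e (nat_lit 336369) (nat_lit 27) (.e (nat_lit 426173) (nat_lit 7) (.e (nat_lit 409617) (nat_lit 10) .nil)))) .nil))) (.nd (nat_lit 6) 
(.lf (nat_lit 56374) (.g (nat_lit 2216) (.e (nat_lit 1419) (nat_lit 108) (.e (nat_lit 336443) (nat_lit 32) (.e (nat_lit 466971) (nat_lit 21) (.e (nat_lit 164348) (nat_lit 240) (.e (nat_lit 2640) (nat_lit 165) (.e (nat_lit 188160) (nat_lit 32) .nil)))))) (.g (nat_lit 5) .nil .nil))) 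
(.lf (nat_lit 56438) (.g (nat_lit 3058) (.e (nat_lit 1423) (nat_lit 108) (.e (nat_lit 336211) (nat_lit 13) (.e (nat_lit 393301) (nat_lit 27) (.e (nat_lit 491560) (nat_lit 10) (.e (nat_lit 344174) (nat_lit 42) .nil))))) .nil))))) (.nd (nat_lit 4) (.nd (nat_lit 5) (.nd (nat_lit 6) 
(.lf (nat_lit 56334) (.g (nat_lit 1359) (.e (nat_lit 1417) (nat_lit 108) (.e (nat_lit 336454) (nat_lit 34) (.e (nat_lit 483399) (nat_lit 25) (.e (nat_lit 368676) (nat_lit 21) (.e (nat_lit 516117) (nat_lit 1) .nil))))) .nil)) 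
(.lf (nat_lit 56398) (.g (nat_lit 2135) (.e (nat_lit 1420) (nat_lit 108) (.e (nat_lit 336443) (nat_lit 32) (.e (nat_lit 466971) (nat_lit 21) (.e (nat_lit 164348) (nat_lit 240) (.e (nat_lit 2640) (nat_lit 165) (.e (nat_lit 188160) (nat_lit 32) .nil)))))) (.g (nat_lit 5) .nil .nil)))) (.nd (nat_lit 6) 
(.lf (nat_lit 56366) (.g (nat_lit 4114) (.e (nat_lit 1419) (nat_lit 108) (.e (nat_lit 336324) (nat_lit 18) (.e (nat_lit 204831) (nat_lit 18) (.e (nat_lit 57852) (nat_lit 252) .nil)))) .nil)) 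
(.lf (nat_lit 56430) (.g (nat_lit 1562) (.e (nat_lit 1422) (nat_lit 108) (.e (nat_lit 336454) (nat_lit 34) (.e (nat_lit 483382) (nat_lit 23) (.e (nat_lit 336324) (nat_lit 18) (.e (nat_lit 204831) (nat_lit 18) .nil))))) .nil)))) (.nd (nat_lit 5) (.nd (nat_lit 6) 
(.lf (nat_lit 56350) (.g (nat_lit 2523) (.e (nat_lit 1418) (nat_lit 108) (.e (nat_lit 336443) (nat_lit 32) (.e (nat_lit 466977) (nat_lit 22) (.e (nat_lit 196624) (nat_lit 9) (.e (nat_lit 442) (nat_lit 33) .nil))))) .nil)) 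
(.lf (nat_lit 56414) (.g (nat_lit 4810) (.e (nat_lit 1422) (nat_lit 108) (.e (nat_lit 336324) (nat_lit 18) (.e (nat_lit 204831) (nat_lit 18) (.e (nat_lit 57849) (nat_lit 252) .nil)))) .nil))) (.nd (nat_lit 6) 
(.lf (nat_lit 56382) (.g (nat_lit 4154) (.e (nat_lit 1420) (nat_lit 108) (.e (nat_lit 336324) (nat_lit 18) (.e (nat_lit 204831) (nat_lit 18) (.e (nat_lit 57847) (nat_lit 252) .nil)))) .nil)) 
(.lf (nat_lit 56446) (.g (nat_lit 1466) (.e (nat_lit 1423) (nat_lit 108) (.e (nat_lit 336326) (nat_lit 18) (.e (nat_lit 204865) (nat_lit 28) (.e (nat_lit 352279) (nat_lit 19) (.e (nat_lit 491525) (nat_lit 0) (.e (nat_lit 2270) (nat_lit 149) (.e (nat_lit 761868) (nat_lit 5) .nil))))))) (.g (nat_lit 6) .nil .nil))))))))) 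
(.nd (nat_lit 1) (.nd (nat_lit 2) (.nd (nat_lit 3) (.nd (nat_lit 4) (.nd (nat_lit 5) 
(.nd (nat_lit 6) 
(.lf (nat_lit 56321) (.g (nat_lit 4033) (.e (nat_lit 1417) (nat_lit 108) (.e (nat_lit 336324) (nat_lit 18) (.e (nat_lit 204831) (nat_lit 18) (.e (nat_lit 57830) (nat_lit 250) .nil)))) .nil)) 
(.lf (nat_lit 56385) (.g (nat_lit 4113) (.e (nat_lit 1420) (nat_lit 108) (.e (nat_lit 336324) (nat_lit 18) (.e (nat_lit 204831) (nat_lit 18) (.e (nat_lit 57852) (nat_lit 252) .nil)))) .nil))) (.nd (nat_lit 6) 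
(.lf (nat_lit 56353) (.g (nat_lit 1504) (.e (nat_lit 1418) (nat_lit 108) (.e (nat_lit 336454) (nat_lit 34) (.e (nat_lit 483383) (nat_lit 23) (.e (nat_lit 336019) (nat_lit 3) .nil)))) .nil)) 
(.lf (nat_lit 56417) (.g (nat_lit 5370) (.e (nat_lit 1422) (nat_lit 108) (.e (nat_lit 336324) (nat_lit 18) (.e (nat_lit 204831) (nat_lit 18) (.e (nat_lit 57852) (nat_lit 252) (.e (nat_lit 57354) (nat_lit 0) .nil))))) .nil)))) (.nd (nat_lit 5) (.nd (nat_lit 6) 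
(.lf (nat_lit 56337) (.g (nat_lit 4043) (.e (nat_lit 1418) (nat_lit 108) (.e (nat_lit 336324) (nat_lit 18) (.e (nat_lit 204831) (nat_lit 18) (.e (nat_lit 57830) (nat_lit 250) .nil)))) .nil)) 
(.lf (nat_lit 56401) (.g (nat_lit 1908) (.e (nat_lit 1420) (nat_lit 108) (.e (nat_lit 336454) (nat_lit 34) (.e (nat_lit 483380) (nat_lit 23) (.e (nat_lit 336324) (nat_lit 18) (.e (nat_lit 204830) (nat_lit 18) .nil))))) .nil))) (.nd (nat_lit 6) 
(.lf (nat_lit 56369) (.g (nat_lit 1508) (.e (nat_lit 1419) (nat_lit 108) (.e (nat_lit 336369) (nat_lit 27) (.e (nat_lit 426173) (nat_lit 7) (.e (nat_lit 409617) (nat_lit 10) .nil)))) .nil)) 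
(.lf (nat_lit 56433) (.g (nat_lit 2299) (.e (nat_lit 1422) (nat_lit 108) (.e (nat_lit 336454) (nat_lit 34) (.e (nat_lit 483383) (nat_lit 23) (.e (nat_lit 336326) (nat_lit 18) (.e (nat_lit 204831) (nat_lit 18) .nil))))) .nil))))) (.nd (nat_lit 4) (.nd (nat_lit 5) (.nd (nat_lit 6) 
(.lf (nat_lit 56329) (.g (nat_lit 2148) (.e (nat_lit 1417) (nat_lit 108) (.e (nat_lit 336443) (nat_lit 32) (.e (nat_lit 466971) (nat_lit 21) (.e (nat_lit 164348) (nat_lit 240) (.e (nat_lit 2640) (nat_lit 165) (.e (nat_lit 188160) (nat_lit 32) .nil)))))) (.g (nat_lit 5) .nil .nil))) 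
(.lf (nat_lit 56393) (.g (nat_lit 1210) (.e (nat_lit 1420) (nat_lit 108) (.e (nat_lit 336434) (nat_lit 30) (.e (nat_lit 450564) (nat_lit 0) (.e (nat_lit 5548) (nat_lit 306) (.e (nat_lit 2638) (nat_lit 165) (.e (nat_lit 188160) (nat_lit 32) .nil)))))) (.g (nat_lit 5) .nil .nil)))) (.nd (nat_lit 6) 
(.lf (nat_lit 56361) (.g (nat_lit 2235) (.e (nat_lit 1418) (nat_lit 108) (.e (nat_lit 336454) (nat_lit 34) (.e (nat_lit 483406) (nat_lit 26) (.e (nat_lit 385066) (nat_lit 26) (.e (nat_lit 532504) (nat_lit 1) .nil))))) .nil)) 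
(.lf (nat_lit 56425) (.g (nat_lit 2162) (.e (nat_lit 1422) (nat_lit 108) (.e (nat_lit 336443) (nat_lit 32) (.e (nat_lit 466971) (nat_lit 21) (.e (nat_lit 164348) (nat_lit 240) (.e (nat_lit 2640) (nat_lit 165) (.e (nat_lit 188160) (nat_lit 32) .nil)))))) (.g (nat_lit 5) .nil .nil))))) (.nd (nat_lit 5) (.nd (nat_lit 6) 
(.lf (nat_lit 56345) (.g (nat_lit 815) (.e (nat_lit 1418) (nat_lit 108) (.e (nat_lit 336443) (nat_lit 32) (.e (nat_lit 466971) (nat_lit 21) .nil))) .nil)) 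
(.lf (nat_lit 56409) (.g (nat_lit 1962) (.e (nat_lit 1421) (nat_lit 108) (.e (nat_lit 336432) (nat_lit 30) (.e (nat_lit 450565) (nat_lit 0) (.e (nat_lit 5548) (nat_lit 306) (.e (nat_lit 2640) (nat_lit 165) (.e (nat_lit 188160) (nat_lit 32) .nil)))))) (.g (nat_lit 5) .nil .nil)))) (.nd (nat_lit 6) 
(.lf (nat_lit 56377) (.g (nat_lit 2683) (.e (nat_lit 1419) (nat_lit 108) (.e (nat_lit 336454) (nat_lit 34) (.e (nat_lit 483383) (nat_lit 23) (.e (nat_lit 336324) (nat_lit 18) (.e (nat_lit 204831) (nat_lit 18) .nil))))) .nil)) 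
(.lf (nat_lit 56441) (.g (nat_lit 1634) (.e (nat_lit 1423) (nat_lit 108) (.e (nat_lit 336326) (nat_lit 18) (.e (nat_lit 204863) (nat_lit 27) (.e (nat_lit 344130) (nat_lit 26) .nil)))) .nil)))))) (.nd (nat_lit 3) (.nd (nat_lit 4) (.nd (nat_lit 5) (.nd (nat_lit 6) 
(.lf (nat_lit 56325) (.g (nat_lit 1572) (.e (nat_lit 1417) (nat_lit 108) (.e (nat_lit 336369) (nat_lit 27) (.e (nat_lit 426173) (nat_lit 7) (.e (nat_lit 409616) (nat_lit 10) .nil)))) .nil)) 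
(.lf (nat_lit 56389) (.g (nat_lit 1755) (.e (nat_lit 1420) (nat_lit 108) (.e (nat_lit 336324) (nat_lit 18) (.e (nat_lit 204854) (nat_lit 26) (.e (nat_lit 336324) (nat_lit 18) .nil)))) .nil))) (.nd (nat_lit 6) 
(.lf (nat_lit 56357) (.g (nat_lit 1581) (.e (nat_lit 1418) (nat_lit 108) (.e (nat_lit 336454) (nat_lit 34) (.e (nat_lit 483398) (nat_lit 25) (.e (nat_lit 368676) (nat_lit 21) (.e (nat_lit 516117) (nat_lit 1) .nil))))) .nil)) 
(.lf (nat_lit 56421) (.g (nat_lit 1242) (.e (nat_lit 1422) (nat_lit 108) (.e (nat_lit 336434) (nat_lit 30) (.e (nat_lit 450564) (nat_lit 0) (.e (nat_lit 5548) (nat_lit 306) (.e (nat_lit 2638) (nat_lit 165) (.e (nat_lit 188160) (nat_lit 32) .nil)))))) (.g (nat_lit 5) .nil .nil))))) (.nd (nat_lit 5) (.nd (nat_lit 6) 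
(.lf (nat_lit 56341) (.g (nat_lit 4146) (.e (nat_lit 1418) (nat_lit 108) (.e (nat_lit 336324) (nat_lit 18) (.e (nat_lit 204831) (nat_lit 18) (.e (nat_lit 57854) (nat_lit 252) .nil)))) .nil)) 
(.lf (nat_lit 56405) (.g (nat_lit 2041) (.e (nat_lit 1420) (nat_lit 108) (.e (nat_lit 336454) (nat_lit 34) (.e (nat_lit 483403) (nat_lit 26) (.e (nat_lit 385066) (nat_lit 26) (.e (nat_lit 532501) (nat_lit 1) .nil))))) .nil))) (.nd (nat_lit 6) 
(.lf (nat_lit 56373) (.g (nat_lit 813) (.e (nat_lit 1419) (nat_lit 108) (.e (nat_lit 336443) (nat_lit 32) (.e (nat_lit 466971) (nat_lit 21) .nil))) .nil)) 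
(.lf (nat_lit 56437) (.g (nat_lit 1263) (.e (nat_lit 1423) (nat_lit 108) (.e (nat_lit 336210) (nat_lit 13) (.e (nat_lit 393299) (nat_lit 27) (.e (nat_lit 491560) (nat_lit 10) .nil)))) .nil))))) (.nd (nat_lit 4) (.nd (nat_lit 5) (.nd (nat_lit 6) 
(.lf (nat_lit 56333) (.g (nat_lit 1393) (.e (nat_lit 1417) (nat_lit 108) (.e (nat_lit 336454) (nat_lit 34) (.e (nat_lit 483398) (nat_lit 25) (.e (nat_lit 368676) (nat_lit 21) (.e (nat_lit 516117) (nat_lit 1) .nil))))) .nil)) 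
(.lf (nat_lit 56397) (.g (nat_lit 807) (.e (nat_lit 1420) (nat_lit 108) (.e (nat_lit 336443) (nat_lit 32) (.e (nat_lit 466971) (nat_lit 21) .nil))) .nil))) (.nd (nat_lit 6) 
(.lf (nat_lit 56365) (.g (nat_lit 4084) (.e (nat_lit 1419) (nat_lit 108) (.e (nat_lit 336324) (nat_lit 18) (.e (nat_lit 204831) (nat_lit 18) (.e (nat_lit 57851) (nat_lit 252) .nil)))) .nil)) 
(.lf (nat_lit 56429) (.g (nat_lit 1620) (.e (nat_lit 1422) (nat_lit 108) (.e (nat_lit 336454) (nat_lit 34) (.e (nat_lit 483382) (nat_lit 23) (.e (nat_lit 336324) (nat_lit 18) (.e (nat_lit 204830) (nat_lit 18) .nil))))) .nil)))) (.nd (nat_lit 5) (.nd (nat_lit 6) 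
(.lf (nat_lit 56349) (.g (nat_lit 808) (.e (nat_lit 1418) (nat_lit 108) (.e (nat_lit 336443) (nat_lit 32) (.e (nat_lit 466977) (nat_lit 22) .nil))) .nil)) 
(.lf (nat_lit 56413) (.g (nat_lit 4155) (.e (nat_lit 1422) (nat_lit 108) (.e (nat_lit 336324) (nat_lit 18) (.e (nat_lit 204831) (nat_lit 18) (.e (nat_lit 57847) (nat_lit 252) .nil)))) .nil))) (.nd (nat_lit 6) 
(.lf (nat_lit 56381) (.g (nat_lit 4040) (.e (nat_lit 1420) (nat_lit 108) (.e (nat_lit 336324) (nat_lit 18) (.e (nat_lit 204831) (nat_lit 18) (.e (nat_lit 57830) (nat_lit 250) .nil)))) .nil)) 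
(.lf (nat_lit 56445) (.g (nat_lit 1910) (.e (nat_lit 1423) (nat_lit 108) (.e (nat_lit 336326) (nat_lit 18) (.e (nat_lit 204865) (nat_lit 28) (.e (nat_lit 352279) (nat_lit 19) (.e (nat_lit 491525) (nat_lit 0) (.e (nat_lit 2270) (nat_lit 149) (.e (nat_lit 761867) (nat_lit 5) .nil))))))) (.g (nat_lit 6) .nil .nil)))))))) 
(.nd (nat_lit 2) (.nd (nat_lit 3) (.nd (nat_lit 4) (.nd (nat_lit 5) (.nd (nat_lit 6) 
(.lf (nat_lit 56323) (.g (nat_lit 4113) (.e (nat_lit 1417) (nat_lit 108) (.e (nat_lit 336324) (nat_lit 18) (.e (nat_lit 204831) (nat_lit 18) (.e (nat_lit 57852) (nat_lit 252) .nil)))) .nil)) 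
(.lf (nat_lit 56387) (.g (nat_lit 4145) (.e (nat_lit 1420) (nat_lit 108) (.e (nat_lit 336324) (nat_lit 18) (.e (nat_lit 204831) (nat_lit 18) (.e (nat_lit 57854) (nat_lit 252) .nil)))) .nil))) (.nd (nat_lit 6) 
(.lf (nat_lit 56355) (.g (nat_lit 1991) (.e (nat_lit 1418) (nat_lit 108) (.e (nat_lit 336454) (nat_lit 34) (.e (nat_lit 483383) (nat_lit 23) (.e (nat_lit 336324) (nat_lit 18) (.e (nat_lit 204830) (nat_lit 18) .nil))))) .nil)) 
(.lf (nat_lit 56419) (.g (nat_lit 637) (.e (nat_lit 1422) (nat_lit 108) (.e (nat_lit 336324) (nat_lit 18) (.e (nat_lit 204854) (nat_lit 26) .nil))) .nil)))) (.nd (nat_lit 5) (.nd (nat_lit 6) 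
(.lf (nat_lit 56339) (.g (nat_lit 4084) (.e (nat_lit 1418) (nat_lit 108) (.e (nat_lit 336324) (nat_lit 18) (.e (nat_lit 204831) (nat_lit 18) (.e (nat_lit 57851) (nat_lit 252) .nil)))) .nil)) 
(.lf (nat_lit 56403) (.g (nat_lit 2614) (.e (nat_lit 1420) (nat_lit 108) (.e (nat_lit 336454) (nat_lit 34) (.e (nat_lit 483383) (nat_lit 23) (.e (nat_lit 336324) (nat_lit 18) (.e (nat_lit 204831) (nat_lit 18) .nil))))) .nil))) (.nd (nat_lit 6) 
(.lf (nat_lit 56371) (.g (nat_lit 796) (.e (nat_lit 1419) (nat_lit 108) (.e (nat_lit 336443) (nat_lit 32) (.e (nat_lit 466969) (nat_lit 21) .nil))) .nil)) 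
(.lf (nat_lit 56435) (.g (nat_lit 2822) (.e (nat_lit 1422) (nat_lit 108) (.e (nat_lit 336454) (nat_lit 34) (.e (nat_lit 483406) (nat_lit 26) (.e (nat_lit 385068) (nat_lit 26) (.e (nat_lit 532501) (nat_lit 1) .nil))))) .nil))))) (.nd (nat_lit 4) (.nd (nat_lit 5) (.nd (nat_lit 6) 
(.lf (nat_lit 56331) (.g (nat_lit 2252) (.e (nat_lit 1417) (nat_lit 108) (.e (nat_lit 336454) (nat_lit 34) (.e (nat_lit 483383) (nat_lit 23) (.e (nat_lit 336019) (nat_lit 3) (.e (nat_lit 98334) (nat_lit 18) (.e (nat_lit 164159) (nat_lit 152) (.e (nat_lit 1025) (nat_lit 81) .nil))))))) (.g (nat_lit 4) .nil .nil))) 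
(.lf (nat_lit 56395) (.g (nat_lit 795) (.e (nat_lit 1420) (nat_lit 108) (.e (nat_lit 336443) (nat_lit 32) (.e (nat_lit 466969) (nat_lit 21) .nil))) .nil))) (.nd (nat_lit 6) 
(.lf (nat_lit 56363) (.g (nat_lit 4043) (.e (nat_lit 1419) (nat_lit 108) (.e (nat_lit 336324) (nat_lit 18) (.e (nat_lit 204831) (nat_lit 18) (.e (nat_lit 57830) (nat_lit 250) .nil)))) .nil)) 
(.lf (nat_lit 56427) (.g (nat_lit 1943) (.e (nat_lit 1422) (nat_lit 108) (.e (nat_lit 336454) (nat_lit 34) (.e (nat_lit 483380) (nat_lit 23) (.e (nat_lit 336326) (nat_lit 18) (.e (nat_lit 204830) (nat_lit 18) .nil))))) .nil)))) (.nd (nat_lit 5) (.nd (nat_lit 6) 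
(.lf (nat_lit 56347) (.g (nat_lit 815) (.e (nat_lit 1418) (nat_lit 108) (.e (nat_lit 336443) (nat_lit 32) (.e (nat_lit 466972) (nat_lit 21) .nil))) .nil)) 
(.lf (nat_lit 56411) (.g (nat_lit 588) (.e (nat_lit 1422) (nat_lit 108) (.e (nat_lit 336324) (nat_lit 18) (.e (nat_lit 204831) (nat_lit 18) .nil))) .nil))) (.nd (nat_lit 6) 
(.lf (nat_lit 56379) (.g (nat_lit 853) (.e (nat_lit 1419) (nat_lit 108) (.e (nat_lit 336456) (nat_lit 34) (.e (nat_lit 483383) (nat_lit 23) .nil))) .nil)) 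
(.lf (nat_lit 56443) (.g (nat_lit 2376) (.e (nat_lit 1423) (nat_lit 108) (.e (nat_lit 336326) (nat_lit 18) (.e (nat_lit 204863) (nat_lit 27) (.e (nat_lit 344132) (nat_lit 26) (.e (nat_lit 557101) (nat_lit 13) (.e (nat_lit 172036) (nat_lit 0) (.e (nat_lit 3282) (nat_lit 200) (.e (nat_lit 557059) (nat_lit 0) .nil)))))))) (.g (nat_lit 4) .nil .nil))))))) 
(.nd (nat_lit 3) (.nd (nat_lit 4) (.nd (nat_lit 5) (.nd (nat_lit 6) 
(.lf (nat_lit 56327) (.g (nat_lit 2252) (.e (nat_lit 1417) (nat_lit 108) (.e (nat_lit 336443) (nat_lit 32) (.e (nat_lit 466969) (nat_lit 21) (.e (nat_lit 164348) (nat_lit 240) (.e (nat_lit 2640) (nat_lit 165) (.e (nat_lit 188160) (nat_lit 32) .nil)))))) (.g (nat_lit 5) .nil .nil))) 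
(.lf (nat_lit 56391) (.g (nat_lit 740) (.e (nat_lit 1420) (nat_lit 108) (.e (nat_lit 336369) (nat_lit 27) (.e (nat_lit 426173) (nat_lit 7) .nil))) .nil))) (.nd (nat_lit 6) 
(.lf (nat_lit 56359) (.g (nat_lit 1547) (.e (nat_lit 1418) (nat_lit 108) (.e (nat_lit 336454) (nat_lit 34) (.e (nat_lit 483399) (nat_lit 25) (.e (nat_lit 368676) (nat_lit 21) (.e (nat_lit 516117) (nat_lit 1) .nil))))) .nil)) 
(.lf (nat_lit 56423) (.g (nat_lit 795) (.e (nat_lit 1422) (nat_lit 108) (.e (nat_lit 336443) (nat_lit 32) (.e (nat_lit 466969) (nat_lit 21) .nil))) .nil)))) (.nd (nat_lit 5) (.nd (nat_lit 6) 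
(.lf (nat_lit 56343) (.g (nat_lit 796) (.e (nat_lit 1418) (nat_lit 108) (.e (nat_lit 336443) (nat_lit 32) (.e (nat_lit 466969) (nat_lit 21) .nil))) .nil)) 
(.lf (nat_lit 56407) (.g (nat_lit 2555) (.e (nat_lit 1421) (nat_lit 108) (.e (nat_lit 336426) (nat_lit 29) (.e (nat_lit 442374) (nat_lit 0) (.e (nat_lit 2059) (nat_lit 142) (.e (nat_lit 704595) (nat_lit 5) (.e (nat_lit 188160) (nat_lit 32) .nil)))))) (.g (nat_lit 5) .nil .nil)))) (.nd (nat_lit 6) 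
(.lf (nat_lit 56375) (.g (nat_lit 815) (.e (nat_lit 1419) (nat_lit 108) (.e (nat_lit 336443) (nat_lit 32) (.e (nat_lit 466972) (nat_lit 21) .nil))) .nil)) 
(.lf (nat_lit 56439) (.g (nat_lit 1255) (.e (nat_lit 1423) (nat_lit 108) (.e (nat_lit 336326) (nat_lit 18) (.e (nat_lit 204862) (nat_lit 27) (.e (nat_lit 344130) (nat_lit 26) .nil)))) .nil))))) (.nd (nat_lit 4) (.nd (nat_lit 5) (.nd (nat_lit 6) 
(.lf (nat_lit 56335) (.g (nat_lit 1863) (.e (nat_lit 1417) (nat_lit 108) (.e (nat_lit 336454) (nat_lit 34) (.e (nat_lit 483406) (nat_lit 26) (.e (nat_lit 385066) (nat_lit 26) .nil)))) .nil)) 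
(.lf (nat_lit 56399) (.g (nat_lit 814) (.e (nat_lit 1420) (nat_lit 108) (.e (nat_lit 336443) (nat_lit 32) (.e (nat_lit 466972) (nat_lit 21) .nil))) .nil))) (.nd (nat_lit 6) 
(.lf (nat_lit 56367) (.g (nat_lit 4146) (.e (nat_lit 1419) (nat_lit 108) (.e (nat_lit 336324) (nat_lit 18) (.e (nat_lit 204831) (nat_lit 18) (.e (nat_lit 57854) (nat_lit 252) .nil)))) .nil)) 
(.lf (nat_lit 56431) (.g (nat_lit 3037) (.e (nat_lit 1422) (nat_lit 108) (.e (nat_lit 336454) (nat_lit 34) (.e (nat_lit 483383) (nat_lit 23) (.e (nat_lit 336324) (nat_lit 18) (.e (nat_lit 204831) (nat_lit 18) (.e (nat_lit 57830) (nat_lit 250) (.e (nat_lit 999) (nat_lit 81) .nil))))))) (.g (nat_lit 5) .nil .nil))))) (.nd (nat_lit 5) (.nd (nat_lit 6) 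
(.lf (nat_lit 56351) (.g (nat_lit 1219) (.e (nat_lit 1418) (nat_lit 108) (.e (nat_lit 336443) (nat_lit 32) (.e (nat_lit 466979) (nat_lit 23) (.e (nat_lit 212736) (nat_lit 10) .nil)))) .nil)) 
(.lf (nat_lit 56415) (.g (nat_lit 4084) (.e (nat_lit 1422) (nat_lit 108) (.e (nat_lit 336324) (nat_lit 18) (.e (nat_lit 204831) (nat_lit 18) (.e (nat_lit 57851) (nat_lit 252) .nil)))) .nil))) (.nd (nat_lit 6) 
(.lf (nat_lit 56383) (.g (nat_lit 4809) (.e (nat_lit 1420) (nat_lit 108) (.e (nat_lit 336324) (nat_lit 18) (.e (nat_lit 204831) (nat_lit 18) (.e (nat_lit 57849) (nat_lit 252) .nil)))) .nil)) 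
(.lf (nat_lit 56447) (.g (nat_lit 2343) (.e (nat_lit 1423) (nat_lit 108) (.e (nat_lit 336326) (nat_lit 18) (.e (nat_lit 204865) (nat_lit 28) (.e (nat_lit 352279) (nat_lit 19) (.e (nat_lit 491526) (nat_lit 0) (.e (nat_lit 2270) (nat_lit 149) (.e (nat_lit 761867) (nat_lit 5) .nil))))))) (.g (nat_lit 0) .nil .nil))))))))))

noncomputable def tv777 : DT := (.nd (nat_lit 0) (.nd (nat_lit 1) (.nd (nat_lit 2) (.nd (nat_lit 3) (.nd (nat_lit 4) (.nd (nat_lit 5) (.nd (nat_lit 6) 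
(.lf (nat_lit 56448) (.g (nat_lit 2257) (.e (nat_lit 1423) (nat_lit 108) (.e (nat_lit 336326) (nat_lit 18) (.e (nat_lit 204866) (nat_lit 28) (.e (nat_lit 352279) (nat_lit 19) (.e (nat_lit 491525) (nat_lit 0) (.e (nat_lit 2270) (nat_lit 149) (.e (nat_lit 761867) (nat_lit 5) .nil))))))) (.g (nat_lit 6) .nil .nil))) 
(.lf (nat_lit 56512) (.g (nat_lit 5499) (.e (nat_lit 1425) (nat_lit 108) (.e (nat_lit 336019) (nat_lit 3) (.e (nat_lit 98373) (nat_lit 29) (.e (nat_lit 450588) (nat_lit 10) (.e (nat_lit 573474) (nat_lit 12) (.e (nat_lit 57572) (nat_lit 54) (.e (nat_lit 770065) (nat_lit 5) .nil))))))) (.g (nat_lit 4) .nil .nil)))) (.nd (nat_lit 6) 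
(.lf (nat_lit 56480) (.g (nat_lit 2174) (.e (nat_lit 1424) (nat_lit 108) (.e (nat_lit 336324) (nat_lit 18) (.e (nat_lit 204854) (nat_lit 26) (.e (nat_lit 336306) (nat_lit 15) (.e (nat_lit 3238) (nat_lit 197) .nil))))) .nil)) 
(.lf (nat_lit 56544) (.g (nat_lit 1298) (.e (nat_lit 1425) (nat_lit 108) (.e (nat_lit 336208) (nat_lit 12) (.e (nat_lit 385102) (nat_lit 50) (.e (nat_lit 786483) (nat_lit 30) (.e (nat_lit 360486) (nat_lit 18) .nil))))) .nil)))) (.nd (nat_lit 5) (.nd (nat_lit 6) 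
(.lf (nat_lit 56464) (.g (nat_lit 1440) (.e (nat_lit 1423) (nat_lit 108) (.e (nat_lit 336456) (nat_lit 34) (.e (nat_lit 483372) (nat_lit 21) .nil))) .nil)) 
(.lf (nat_lit 56528) (.g (nat_lit 3474) (.e (nat_lit 1425) (nat_lit 108) (.e (nat_lit 336160) (nat_lit 10) (.e (nat_lit 344119) (nat_lit 21) (.e (nat_lit 516139) (nat_lit 7) (.e (nat_lit 409648) (nat_lit 18) (.e (nat_lit 303116) (nat_lit 2) (.e (nat_lit 196637) (nat_lit 9) .nil))))))) (.g (nat_lit 6) .nil .nil)))) (.nd (nat_lit 6) 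
(.lf (nat_lit 56496) (.g (nat_lit 1626) (.e (nat_lit 1425) (nat_lit 108) (.e (nat_lit 336000) (nat_lit 1) (.e (nat_lit 57849) (nat_lit 252) (.e (nat_lit 57377) (nat_lit 3) (.e (nat_lit 106240) (nat_lit 11) .nil))))) .nil)) 
(.lf (nat_lit 56560) (.g (nat_lit 1416) (.e (nat_lit 1425) (nat_lit 108) (.e (nat_lit 336208) (nat_lit 12) (.e (nat_lit 385105) (nat_lit 50) (.e (nat_lit 786478) (nat_lit 29) (.e (nat_lit 360192) (nat_lit 4) .nil))))) .nil))))) (.nd (nat_lit 4) (.nd (nat_lit 5) (.nd (nat_lit 6) 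
(.lf (nat_lit 56456) (.g (nat_lit 1990) (.e (nat_lit 1423) (nat_lit 108) (.e (nat_lit 336432) (nat_lit 30) (.e (nat_lit 450569) (nat_lit 0) (.e (nat_lit 5948) (nat_lit 322) (.e (nat_lit 57400) (nat_lit 10) (.e (nat_lit 319511) (nat_lit 10) (.e (nat_lit 5293) (nat_lit 298) .nil))))))) (.g (nat_lit 7) .nil .nil))) 
(.lf (nat_lit 56520) (.g (nat_lit 1167) (.e (nat_lit 1425) (nat_lit 108) (.e (nat_lit 336019) (nat_lit 3) (.e (nat_lit 98381) (nat_lit 31) (.e (nat_lit 466947) (nat_lit 0) .nil)))) .nil))) (.nd (nat_lit 6) 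
(.lf (nat_lit 56488) (.g (nat_lit 1162) (.e (nat_lit 1424) (nat_lit 108) (.e (nat_lit 336434) (nat_lit 30) (.e (nat_lit 450564) (nat_lit 0) (.e (nat_lit 5548) (nat_lit 306) (.e (nat_lit 2638) (nat_lit 165) (.e (nat_lit 188160) (nat_lit 32) .nil)))))) (.g (nat_lit 5) .nil .nil))) 
(.lf (nat_lit 56552) (.g (nat_lit 887) (.e (nat_lit 1425) (nat_lit 108) (.e (nat_lit 336208) (nat_lit 12) (.e (nat_lit 385104) (nat_lit 50) (.e (nat_lit 786483) (nat_lit 30) .nil)))) .nil)))) (.nd (nat_lit 5) (.nd (nat_lit 6) 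
(.lf (nat_lit 56472) (.g (nat_lit 588) (.e (nat_lit 1424) (nat_lit 108) (.e (nat_lit 336324) (nat_lit 18) (.e (nat_lit 204831) (nat_lit 18) .nil))) .nil)) 
(.lf (nat_lit 56536) (.g (nat_lit 1137) (.e (nat_lit 1425) (nat_lit 108) (.e (nat_lit 336208) (nat_lit 12) (.e (nat_lit 385093) (nat_lit 49) (.e (nat_lit 778326) (nat_lit 6) .nil)))) .nil))) (.nd (nat_lit 6) 
(.lf (nat_lit 56504) (.g (nat_lit 3031) (.e (nat_lit 1425) (nat_lit 108) (.e (nat_lit 336019) (nat_lit 3) (.e (nat_lit 98372) (nat_lit 29) (.e (nat_lit 450579) (nat_lit 5) (.e (nat_lit 532484) (nat_lit 0) (.e (nat_lit 7936) (nat_lit 129) (.e (nat_lit 598028) (nat_lit 5) .nil))))))) (.g (nat_lit 5) .nil .nil))) 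
(.lf (nat_lit 56568) (.g (nat_lit 1833) (.e (nat_lit 1425) (nat_lit 108) (.e (nat_lit 336211) (nat_lit 13) (.e (nat_lit 393300) (nat_lit 27) (.e (nat_lit 491558) (nat_lit 10) (.e (nat_lit 344174) (nat_lit 42) (.e (nat_lit 761871) (nat_lit 5) .nil)))))) (.g (nat_lit 4) .nil .nil))))))) (.nd (nat_lit 3) (.nd (nat_lit 4) (.nd (nat_lit 5) (.nd (nat_lit 6) 
(.lf (nat_lit 56452) (.g (nat_lit 4164) (.e (nat_lit 1423) (nat_lit 108) (.e (nat_lit 336426) (nat_lit 29) (.e (nat_lit 442430) (nat_lit 24) (.e (nat_lit 229678) (nat_lit 244) (.e (nat_lit 163896) (nat_lit 10) (.e (nat_lit 409602) (nat_lit 0) (.e (nat_lit 5293) (nat_lit 298) .nil))))))) (.g (nat_lit 0) .nil .nil))) 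
(.lf (nat_lit 56516) (.g (nat_lit 3295) (.e (nat_lit 1425) (nat_lit 108) (.e (nat_lit 336019) (nat_lit 3) (.e (nat_lit 98380) (nat_lit 31) (.e (nat_lit 466947) (nat_lit 0) (.e (nat_lit 1800) (nat_lit 119) (.e (nat_lit 516117) (nat_lit 1) (.e (nat_lit 164226) (nat_lit 181) (.e (nat_lit 1060) (nat_lit 81) .nil)))))))) (.g (nat_lit 7) .nil .nil)))) (.nd (nat_lit 6) 
(.lf (nat_lit 56484) (.g (nat_lit 2372) (.e (nat_lit 1424) (nat_lit 108) (.e (nat_lit 336369) (nat_lit 27) (.e (nat_lit 426173) (nat_lit 7) (.e (nat_lit 409649) (nat_lit 18) (.e (nat_lit 303151) (nat_lit 27) .nil))))) .nil)) 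
(.lf (nat_lit 56548) (.g (nat_lit 1642) (.e (nat_lit 1425) (nat_lit 108) (.e (nat_lit 336208) (nat_lit 12) (.e (nat_lit 385104) (nat_lit 50) (.e (nat_lit 786478) (nat_lit 29) (.e (nat_lit 360192) (nat_lit 4) (.e (nat_lit 212997) (nat_lit 0) .nil)))))) (.g (nat_lit 4) .nil .nil))))) (.nd (nat_lit 5) (.nd (nat_lit 6) 
(.lf (nat_lit 56468) (.g (nat_lit 627) (.e (nat_lit 1423) (nat_lit 108) (.e (nat_lit 336456) (nat_lit 34) (.e (nat_lit 483395) (nat_lit 24) .nil))) .nil)) 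
(.lf (nat_lit 56532) (.g (nat_lit 453) (.e (nat_lit 1425) (nat_lit 108) (.e (nat_lit 336208) (nat_lit 12) (.e (nat_lit 392960) (nat_lit 24) .nil))) .nil))) (.nd (nat_lit 6) 
(.lf (nat_lit 56500) (.g (nat_lit 781) (.e (nat_lit 1425) (nat_lit 108) (.e (nat_lit 336019) (nat_lit 3) (.e (nat_lit 98369) (nat_lit 28) .nil))) .nil)) 
(.lf (nat_lit 56564) (.g (nat_lit 1112) (.e (nat_lit 1425) (nat_lit 108) (.e (nat_lit 336208) (nat_lit 12) (.e (nat_lit 385106) (nat_lit 50) (.e (nat_lit 786483) (nat_lit 30) .nil)))) .nil))))) (.nd (nat_lit 4) (.nd (nat_lit 5) (.nd (nat_lit 6) 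
(.lf (nat_lit 56460) (.g (nat_lit 2361) (.e (nat_lit 1423) (nat_lit 108) (.e (nat_lit 336443) (nat_lit 32) (.e (nat_lit 466971) (nat_lit 21) (.e (nat_lit 164403) (nat_lit 256) (.e (nat_lit 57400) (nat_lit 10) .nil))))) .nil)) 
(.lf (nat_lit 56524) (.g (nat_lit 1253) (.e (nat_lit 1425) (nat_lit 108) (.e (nat_lit 336019) (nat_lit 3) (.e (nat_lit 98381) (nat_lit 31) (.e (nat_lit 466976) (nat_lit 22) .nil)))) .nil))) (.nd (nat_lit 6) 
(.lf (nat_lit 56492) (.g (nat_lit 809) (.e (nat_lit 1424) (nat_lit 108) (.e (nat_lit 336443) (nat_lit 32) (.e (nat_lit 466977) (nat_lit 22) .nil))) .nil)) 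
(.lf (nat_lit 56556) (.g (nat_lit 1657) (.e (nat_lit 1425) (nat_lit 108) (.e (nat_lit 336208) (nat_lit 12) (.e (nat_lit 385104) (nat_lit 50) (.e (nat_lit 786483) (nat_lit 30) (.e (nat_lit 368384) (nat_lit 17) .nil))))) .nil)))) (.nd (nat_lit 5) (.nd (nat_lit 6) 
(.lf (nat_lit 56476) (.g (nat_lit 4084) (.e (nat_lit 1424) (nat_lit 108) (.e (nat_lit 336324) (nat_lit 18) (.e (nat_lit 204831) (nat_lit 18) (.e (nat_lit 57851) (nat_lit 252) .nil)))) .nil)) 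
(.lf (nat_lit 56540) (.g (nat_lit 1508) (.e (nat_lit 1425) (nat_lit 108) (.e (nat_lit 336208) (nat_lit 12) (.e (nat_lit 385094) (nat_lit 49) (.e (nat_lit 778326) (nat_lit 6) (.e (nat_lit 89856) (nat_lit 8) .nil))))) .nil))) (.nd (nat_lit 6) 
(.lf (nat_lit 56508) (.g (nat_lit 5248) (.e (nat_lit 1425) (nat_lit 108) (.e (nat_lit 336019) (nat_lit 3) (.e (nat_lit 98373) (nat_lit 29) (.e (nat_lit 450587) (nat_lit 10) (.e (nat_lit 573475) (nat_lit 12) (.e (nat_lit 57572) (nat_lit 54) (.e (nat_lit 770054) (nat_lit 5) .nil))))))) (.g (nat_lit 4) .nil .nil))) 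
(.lf (nat_lit 56572) (.g (nat_lit 3120) (.e (nat_lit 1425) (nat_lit 108) (.e (nat_lit 336211) (nat_lit 13) (.e (nat_lit 393301) (nat_lit 27) (.e (nat_lit 491560) (nat_lit 10) (.e (nat_lit 344174) (nat_lit 42) (.e (nat_lit 761871) (nat_lit 5) .nil)))))) (.g (nat_lit 4) .nil .nil)))))))) (.nd (nat_lit 2) (.nd (nat_lit 3) (.nd (nat_lit 4) (.nd (nat_lit 5) (.nd (nat_lit 6) 
(.lf (nat_lit 56450) (.g (nat_lit 1399) (.e (nat_lit 1423) (nat_lit 108) (.e (nat_lit 336368) (nat_lit 27) (.e (nat_lit 426312) (nat_lit 12) (.e (nat_lit 475199) (nat_lit 40) (.e (nat_lit 704595) (nat_lit 5) .nil))))) .nil)) 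
(.lf (nat_lit 56514) (.g (nat_lit 636) (.e (nat_lit 1425) (nat_lit 108) (.e (nat_lit 336019) (nat_lit 3) (.e (nat_lit 98380) (nat_lit 31) .nil))) .nil))) (.nd (nat_lit 6) 
(.lf (nat_lit 56482) (.g (nat_lit 1985) (.e (nat_lit 1424) (nat_lit 108) (.e (nat_lit 336324) (nat_lit 18) (.e (nat_lit 204882) (nat_lit 32) (.e (nat_lit 385066) (nat_lit 26) (.e (nat_lit 532530) (nat_lit 9) .nil))))) .nil)) 
(.lf (nat_lit 56546) (.g (nat_lit 455) (.e (nat_lit 1425) (nat_lit 108) (.e (nat_lit 336208) (nat_lit 12) (.e (nat_lit 385104) (nat_lit 50) .nil))) .nil)))) (.nd (nat_lit 5) (.nd (nat_lit 6) 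
(.lf (nat_lit 56466) (.g (nat_lit 684) (.e (nat_lit 1423) (nat_lit 108) (.e (nat_lit 336456) (nat_lit 34) (.e (nat_lit 483393) (nat_lit 23) .nil))) .nil)) 
(.lf (nat_lit 56530) (.g (nat_lit 2985) (.e (nat_lit 1425) (nat_lit 108) (.e (nat_lit 336160) (nat_lit 10) (.e (nat_lit 344119) (nat_lit 21) (.e (nat_lit 516139) (nat_lit 7) (.e (nat_lit 409649) (nat_lit 18) (.e (nat_lit 303121) (nat_lit 5) (.e (nat_lit 245783) (nat_lit 9) .nil))))))) (.g (nat_lit 6) .nil .nil)))) (.nd (nat_lit 6) 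
(.lf (nat_lit 56498) (.g (nat_lit 670) (.e (nat_lit 1425) (nat_lit 108) (.e (nat_lit 336019) (nat_lit 3) (.e (nat_lit 98349) (nat_lit 24) .nil))) .nil)) 
(.lf (nat_lit 56562) (.g (nat_lit 1174) (.e (nat_lit 1425) (nat_lit 108) (.e (nat_lit 336208) (nat_lit 12) (.e (nat_lit 385106) (nat_lit 50) (.e (nat_lit 786481) (nat_lit 30) .nil)))) .nil))))) (.nd (nat_lit 4) (.nd (nat_lit 5) (.nd (nat_lit 6) 
(.lf (nat_lit 56458) (.g (nat_lit 884) (.e (nat_lit 1423) (nat_lit 108) (.e (nat_lit 336433) (nat_lit 30) (.e (nat_lit 458496) (nat_lit 0) (.e (nat_lit 5547) (nat_lit 306) (.e (nat_lit 2640) (nat_lit 165) (.e (nat_lit 188160) (nat_lit 32) .nil)))))) (.g (nat_lit 5) .nil .nil))) 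
(.lf (nat_lit 56522) (.g (nat_lit 3562) (.e (nat_lit 1425) (nat_lit 108) (.e (nat_lit 336019) (nat_lit 3) (.e (nat_lit 98381) (nat_lit 31) (.e (nat_lit 466947) (nat_lit 0) (.e (nat_lit 1800) (nat_lit 119) (.e (nat_lit 516120) (nat_lit 1) (.e (nat_lit 164226) (nat_lit 181) (.e (nat_lit 1084) (nat_lit 81) .nil)))))))) (.g (nat_lit 6) .nil .nil)))) (.nd (nat_lit 6) 
(.lf (nat_lit 56490) (.g (nat_lit 1348) (.e (nat_lit 1424) (nat_lit 108) (.e (nat_lit 336443) (nat_lit 32) (.e (nat_lit 466971) (nat_lit 21) (.e (nat_lit 164348) (nat_lit 240) .nil)))) .nil)) 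
(.lf (nat_lit 56554) (.g (nat_lit 2166) (.e (nat_lit 1425) (nat_lit 108) (.e (nat_lit 336208) (nat_lit 12) (.e (nat_lit 385104) (nat_lit 50) (.e (nat_lit 786483) (nat_lit 30) (.e (nat_lit 360451) (nat_lit 0) (.e (nat_lit 5896) (nat_lit 320) (.e (nat_lit 1040) (nat_lit 81) .nil))))))) (.g (nat_lit 4) .nil .nil))))) (.nd (nat_lit 5) (.nd (nat_lit 6) 
(.lf (nat_lit 56474) (.g (nat_lit 4155) (.e (nat_lit 1424) (nat_lit 108) (.e (nat_lit 336324) (nat_lit 18) (.e (nat_lit 204831) (nat_lit 18) (.e (nat_lit 57847) (nat_lit 252) .nil)))) .nil)) 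
(.lf (nat_lit 56538) (.g (nat_lit 1541) (.e (nat_lit 1425) (nat_lit 108) (.e (nat_lit 336208) (nat_lit 12) (.e (nat_lit 385093) (nat_lit 49) (.e (nat_lit 778327) (nat_lit 6) (.e (nat_lit 89856) (nat_lit 8) (.e (nat_lit 262150) (nat_lit 0) .nil)))))) (.g (nat_lit 4) .nil .nil)))) (.nd (nat_lit 6) 
(.lf (nat_lit 56506) (.g (nat_lit 3715) (.e (nat_lit 1425) (nat_lit 108) (.e (nat_lit 336019) (nat_lit 3) (.e (nat_lit 98372) (nat_lit 29) (.e (nat_lit 450579) (nat_lit 5) (.e (nat_lit 532504) (nat_lit 1) (.e (nat_lit 57765) (nat_lit 221) (.e (nat_lit 1082) (nat_lit 81) .nil))))))) (.g (nat_lit 5) .nil .nil))) 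
(.lf (nat_lit 56570) (.g (nat_lit 2681) (.e (nat_lit 1425) (nat_lit 108) (.e (nat_lit 336211) (nat_lit 13) (.e (nat_lit 393301) (nat_lit 27) (.e (nat_lit 491558) (nat_lit 10) (.e (nat_lit 344174) (nat_lit 42) (.e (nat_lit 761871) (nat_lit 5) .nil)))))) (.g (nat_lit 4) .nil .nil))))))) (.nd (nat_lit 3) (.nd (nat_lit 4) (.nd (nat_lit 5) (.nd (nat_lit 6) 
(.lf (nat_lit 56454) (.g (nat_lit 1368) (.e (nat_lit 1423) (nat_lit 108) (.e (nat_lit 336432) (nat_lit 30) (.e (nat_lit 450569) (nat_lit 0) (.e (nat_lit 5946) (nat_lit 322) (.e (nat_lit 57400) (nat_lit 10) (.e (nat_lit 319511) (nat_lit 10) (.e (nat_lit 5293) (nat_lit 298) .nil))))))) (.g (nat_lit 5) .nil .nil))) 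
(.lf (nat_lit 56518) (.g (nat_lit 3419) (.e (nat_lit 1425) (nat_lit 108) (.e (nat_lit 336019) (nat_lit 3) (.e (nat_lit 98380) (nat_lit 31) (.e (nat_lit 466947) (nat_lit 0) (.e (nat_lit 1800) (nat_lit 119) (.e (nat_lit 516120) (nat_lit 1) (.e (nat_lit 164226) (nat_lit 181) (.e (nat_lit 1084) (nat_lit 81) .nil)))))))) (.g (nat_lit 6) .nil .nil)))) (.nd (nat_lit 6) 
(.lf (nat_lit 56486) (.g (nat_lit 1297) (.e (nat_lit 1424) (nat_lit 108) (.e (nat_lit 336430) (nat_lit 29) (.e (nat_lit 442379) (nat_lit 0) (.e (nat_lit 2059) (nat_lit 142) .nil)))) .nil)) 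
(.lf (nat_lit 56550) (.g (nat_lit 2305) (.e (nat_lit 1425) (nat_lit 108) (.e (nat_lit 336208) (nat_lit 12) (.e (nat_lit 385104) (nat_lit 50) (.e (nat_lit 786480) (nat_lit 29) (.e (nat_lit 352309) (nat_lit 21) (.e (nat_lit 57871) (nat_lit 264) (.e (nat_lit 1039) (nat_lit 81) .nil))))))) (.g (nat_lit 5) .nil .nil))))) (.nd (nat_lit 5) (.nd (nat_lit 6) 
(.lf (nat_lit 56470) (.g (nat_lit 989) (.e (nat_lit 1423) (nat_lit 108) (.e (nat_lit 336456) (nat_lit 34) (.e (nat_lit 483399) (nat_lit 25) (.e (nat_lit 368679) (nat_lit 24) .nil)))) .nil)) 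
(.lf (nat_lit 56534) (.g (nat_lit 2410) (.e (nat_lit 1425) (nat_lit 108) (.e (nat_lit 336208) (nat_lit 12) (.e (nat_lit 385074) (nat_lit 31) (.e (nat_lit 573484) (nat_lit 13) (.e (nat_lit 65617) (nat_lit 10) .nil))))) .nil))) (.nd (nat_lit 6) 
(.lf (nat_lit 56502) (.g (nat_lit 782) (.e (nat_lit 1425) (nat_lit 108) (.e (nat_lit 336019) (nat_lit 3) (.e (nat_lit 98372) (nat_lit 29) .nil))) .nil)) 
(.lf (nat_lit 56566) (.g (nat_lit 1936) (.e (nat_lit 1425) (nat_lit 108) (.e (nat_lit 336208) (nat_lit 12) (.e (nat_lit 385106) (nat_lit 50) (.e (nat_lit 786483) (nat_lit 30) (.e (nat_lit 368384) (nat_lit 17) (.e (nat_lit 663559) (nat_lit 0) .nil)))))) (.g (nat_lit 4) .nil .nil)))))) (.nd (nat_lit 4) (.nd (nat_lit 5) (.nd (nat_lit 6) 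
(.lf (nat_lit 56462) (.g (nat_lit 2647) (.e (nat_lit 1423) (nat_lit 108) (.e (nat_lit 336444) (nat_lit 32) (.e (nat_lit 466971) (nat_lit 21) (.e (nat_lit 164403) (nat_lit 256) (.e (nat_lit 57400) (nat_lit 10) (.e (nat_lit 319511) (nat_lit 10) (.e (nat_lit 5293) (nat_lit 298) .nil))))))) (.g (nat_lit 7) .nil .nil))) 
(.lf (nat_lit 56526) (.g (nat_lit 1840) (.e (nat_lit 1425) (nat_lit 108) (.e (nat_lit 336019) (nat_lit 3) (.e (nat_lit 98381) (nat_lit 31) (.e (nat_lit 466977) (nat_lit 22) (.e (nat_lit 196677) (nat_lit 16) .nil))))) .nil))) (.nd (nat_lit 6) 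
(.lf (nat_lit 56494) (.g (nat_lit 2722) (.e (nat_lit 1424) (nat_lit 108) (.e (nat_lit 336454) (nat_lit 34) (.e (nat_lit 483383) (nat_lit 23) (.e (nat_lit 336324) (nat_lit 18) (.e (nat_lit 204831) (nat_lit 18) .nil))))) .nil)) 
(.lf (nat_lit 56558) (.g (nat_lit 2691) (.e (nat_lit 1425) (nat_lit 108) (.e (nat_lit 336208) (nat_lit 12) (.e (nat_lit 385104) (nat_lit 50) (.e (nat_lit 786483) (nat_lit 30) (.e (nat_lit 360486) (nat_lit 18) (.e (nat_lit 671751) (nat_lit 0) .nil)))))) (.g (nat_lit 6) .nil .nil))))) (.nd (nat_lit 5) (.nd (nat_lit 6) 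
(.lf (nat_lit 56478) (.g (nat_lit 5370) (.e (nat_lit 1424) (nat_lit 108) (.e (nat_lit 336324) (nat_lit 18) (.e (nat_lit 204831) (nat_lit 18) (.e (nat_lit 57852) (nat_lit 252) (.e (nat_lit 57354) (nat_lit 0) .nil))))) .nil)) 
(.lf (nat_lit 56542) (.g (nat_lit 467) (.e (nat_lit 1425) (nat_lit 108) (.e (nat_lit 336208) (nat_lit 12) (.e (nat_lit 385102) (nat_lit 50) .nil))) .nil))) (.nd (nat_lit 6) 
(.lf (nat_lit 56510) (.g (nat_lit 5264) (.e (nat_lit 1425) (nat_lit 108) (.e (nat_lit 336019) (nat_lit 3) (.e (nat_lit 98373) (nat_lit 29) (.e (nat_lit 450587) (nat_lit 10) (.e (nat_lit 573475) (nat_lit 12) (.e (nat_lit 57572) (nat_lit 54) (.e (nat_lit 770063) (nat_lit 5) .nil))))))) (.g (nat_lit 4) .nil .nil))) 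
(.lf (nat_lit 56574) (.g (nat_lit 500) (.e (nat_lit 1425) (nat_lit 108) (.e (nat_lit 336324) (nat_lit 18) (.e (nat_lit 204831) (nat_lit 18) .nil))) .nil)))))))) (.nd (nat_lit 1) (.nd (nat_lit 2) (.nd (nat_lit 3) (.nd (nat_lit 4) (.nd (nat_lit 5) (.nd (nat_lit 6) 
(.lf (nat_lit 56449) (.g (nat_lit 1813) (.e (nat_lit 1423) (nat_lit 108) (.e (nat_lit 336326) (nat_lit 18) (.e (nat_lit 204866) (nat_lit 28) (.e (nat_lit 352279) (nat_lit 19) (.e (nat_lit 491525) (nat_lit 0) (.e (nat_lit 2270) (nat_lit 149) (.e (nat_lit 761868) (nat_lit 5) .nil))))))) (.g (nat_lit 6) .nil .nil))) 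
(.lf (nat_lit 56513) (.g (nat_lit 4950) (.e (nat_lit 1425) (nat_lit 108) (.e (nat_lit 336019) (nat_lit 3) (.e (nat_lit 98373) (nat_lit 29) (.e (nat_lit 450588) (nat_lit 10) (.e (nat_lit 573475) (nat_lit 12) .nil))))) .nil))) (.nd (nat_lit 6) 
(.lf (nat_lit 56481) (.g (nat_lit 1821) (.e (nat_lit 1424) (nat_lit 108) (.e (nat_lit 336324) (nat_lit 18) (.e (nat_lit 204880) (nat_lit 32) (.e (nat_lit 385066) (nat_lit 26) (.e (nat_lit 532530) (nat_lit 9) .nil))))) .nil)) 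
(.lf (nat_lit 56545) (.g (nat_lit 1183) (.e (nat_lit 1425) (nat_lit 108) (.e (nat_lit 336208) (nat_lit 12) (.e (nat_lit 385103) (nat_lit 50) (.e (nat_lit 786483) (nat_lit 30) (.e (nat_lit 360486) (nat_lit 18) .nil))))) .nil)))) (.nd (nat_lit 5) (.nd (nat_lit 6) 
(.lf (nat_lit 56465) (.g (nat_lit 1809) (.e (nat_lit 1423) (nat_lit 108) (.e (nat_lit 336456) (nat_lit 34) (.e (nat_lit 483387) (nat_lit 23) (.e (nat_lit 336013) (nat_lit 2) (.e (nat_lit 98048) (nat_lit 3) .nil))))) .nil)) 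
(.lf (nat_lit 56529) (.g (nat_lit 3352) (.e (nat_lit 1425) (nat_lit 108) (.e (nat_lit 336160) (nat_lit 10) (.e (nat_lit 344119) (nat_lit 21) (.e (nat_lit 516139) (nat_lit 7) (.e (nat_lit 409648) (nat_lit 18) (.e (nat_lit 303116) (nat_lit 2) (.e (nat_lit 196638) (nat_lit 9) .nil))))))) (.g (nat_lit 6) .nil .nil)))) (.nd (nat_lit 6) 
(.lf (nat_lit 56497) (.g (nat_lit 1766) (.e (nat_lit 1425) (nat_lit 108) (.e (nat_lit 336000) (nat_lit 1) (.e (nat_lit 57849) (nat_lit 252) (.e (nat_lit 57377) (nat_lit 3) (.e (nat_lit 106240) (nat_lit 11) (.e (nat_lit 352322) (nat_lit 26) (.e (nat_lit 147456) (nat_lit 0) .nil))))))) (.g (nat_lit 4) .nil .nil))) 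
(.lf (nat_lit 56561) (.g (nat_lit 1115) (.e (nat_lit 1425) (nat_lit 108) (.e (nat_lit 336208) (nat_lit 12) (.e (nat_lit 385106) (nat_lit 50) (.e (nat_lit 786478) (nat_lit 29) .nil)))) .nil))))) (.nd (nat_lit 4) (.nd (nat_lit 5) (.nd (nat_lit 6) 
(.lf (nat_lit 56457) (.g (nat_lit 2039) (.e (nat_lit 1423) (nat_lit 108) (.e (nat_lit 336432) (nat_lit 30) (.e (nat_lit 450569) (nat_lit 0) (.e (nat_lit 5949) (nat_lit 322) (.e (nat_lit 57400) (nat_lit 10) (.e (nat_lit 319511) (nat_lit 10) (.e (nat_lit 5293) (nat_lit 298) .nil))))))) (.g (nat_lit 0) .nil .nil))) 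
(.lf (nat_lit 56521) (.g (nat_lit 3464) (.e (nat_lit 1425) (nat_lit 108) (.e (nat_lit 336019) (nat_lit 3) (.e (nat_lit 98381) (nat_lit 31) (.e (nat_lit 466947) (nat_lit 0) (.e (nat_lit 1800) (nat_lit 119) (.e (nat_lit 516117) (nat_lit 1) (.e (nat_lit 164226) (nat_lit 181) (.e (nat_lit 1060) (nat_lit 81) .nil)))))))) (.g (nat_lit 7) .nil .nil)))) (.nd (nat_lit 6) 
(.lf (nat_lit 56489) (.g (nat_lit 1411) (.e (nat_lit 1424) (nat_lit 108) (.e (nat_lit 336434) (nat_lit 30) (.e (nat_lit 450564) (nat_lit 0) (.e (nat_lit 5548) (nat_lit 306) (.e (nat_lit 2640) (nat_lit 165) .nil))))) .nil)) 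
(.lf (nat_lit 56553) (.g (nat_lit 1665) (.e (nat_lit 1425) (nat_lit 108) (.e (nat_lit 336208) (nat_lit 12) (.e (nat_lit 385104) (nat_lit 50) (.e (nat_lit 786483) (nat_lit 30) (.e (nat_lit 360450) (nat_lit 0) .nil))))) .nil)))) (.nd (nat_lit 5) (.nd (nat_lit 6) 
(.lf (nat_lit 56473) (.g (nat_lit 4039) (.e (nat_lit 1424) (nat_lit 108) (.e (nat_lit 336324) (nat_lit 18) (.e (nat_lit 204831) (nat_lit 18) (.e (nat_lit 57830) (nat_lit 250) .nil)))) .nil)) 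
(.lf (nat_lit 56537) (.g (nat_lit 917) (.e (nat_lit 1425) (nat_lit 108) (.e (nat_lit 336208) (nat_lit 12) (.e (nat_lit 385093) (nat_lit 49) (.e (nat_lit 778327) (nat_lit 6) .nil)))) .nil))) (.nd (nat_lit 6) 
(.lf (nat_lit 56505) (.g (nat_lit 3492) (.e (nat_lit 1425) (nat_lit 108) (.e (nat_lit 336019) (nat_lit 3) (.e (nat_lit 98372) (nat_lit 29) (.e (nat_lit 450579) (nat_lit 5) (.e (nat_lit 532501) (nat_lit 1) (.e (nat_lit 57765) (nat_lit 221) (.e (nat_lit 1082) (nat_lit 81) .nil))))))) (.g (nat_lit 5) .nil .nil))) 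
(.lf (nat_lit 56569) (.g (nat_lit 1787) (.e (nat_lit 1425) (nat_lit 108) (.e (nat_lit 336211) (nat_lit 13) (.e (nat_lit 393300) (nat_lit 27) (.e (nat_lit 491560) (nat_lit 10) (.e (nat_lit 344174) (nat_lit 42) (.e (nat_lit 761871) (nat_lit 5) .nil)))))) (.g (nat_lit 4) .nil .nil))))))) (.nd (nat_lit 3) (.nd (nat_lit 4) (.nd (nat_lit 5) (.nd (nat_lit 6) 
(.lf (nat_lit 56453) (.g (nat_lit 3781) (.e (nat_lit 1423) (nat_lit 108) (.e (nat_lit 336430) (nat_lit 29) (.e (nat_lit 442428) (nat_lit 24) (.e (nat_lit 229678) (nat_lit 244) (.e (nat_lit 163896) (nat_lit 10) (.e (nat_lit 409602) (nat_lit 0) (.e (nat_lit 5293) (nat_lit 298) .nil))))))) (.g (nat_lit 7) .nil .nil))) 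
(.lf (nat_lit 56517) (.g (nat_lit 3447) (.e (nat_lit 1425) (nat_lit 108) (.e (nat_lit 336019) (nat_lit 3) (.e (nat_lit 98380) (nat_lit 31) (.e (nat_lit 466947) (nat_lit 0) (.e (nat_lit 1800) (nat_lit 119) (.e (nat_lit 516120) (nat_lit 1) (.e (nat_lit 164226) (nat_lit 181) (.e (nat_lit 1060) (nat_lit 81) .nil)))))))) (.g (nat_lit 6) .nil .nil)))) (.nd (nat_lit 6) 
(.lf (nat_lit 56485) (.g (nat_lit 2056) (.e (nat_lit 1424) (nat_lit 108) (.e (nat_lit 336428) (nat_lit 29) (.e (nat_lit 442374) (nat_lit 0) (.e (nat_lit 2059) (nat_lit 142) (.e (nat_lit 704595) (nat_lit 5) (.e (nat_lit 188160) (nat_lit 32) .nil)))))) (.g (nat_lit 5) .nil .nil))) 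
(.lf (nat_lit 56549) (.g (nat_lit 704) (.e (nat_lit 1425) (nat_lit 108) (.e (nat_lit 336208) (nat_lit 12) (.e (nat_lit 385104) (nat_lit 50) (.e (nat_lit 786480) (nat_lit 29) .nil)))) .nil)))) (.nd (nat_lit 5) (.nd (nat_lit 6) 
(.lf (nat_lit 56469) (.g (nat_lit 1755) (.e (nat_lit 1423) (nat_lit 108) (.e (nat_lit 336456) (nat_lit 34) (.e (nat_lit 483396) (nat_lit 24) (.e (nat_lit 344123) (nat_lit 24) (.e (nat_lit 540675) (nat_lit 0) .nil))))) .nil)) 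
(.lf (nat_lit 56533) (.g (nat_lit 1510) (.e (nat_lit 1425) (nat_lit 108) (.e (nat_lit 336208) (nat_lit 12) (.e (nat_lit 392960) (nat_lit 24) (.e (nat_lit 516151) (nat_lit 9) (.e (nat_lit 426170) (nat_lit 7) (.e (nat_lit 409633) (nat_lit 13) (.e (nat_lit 40960) (nat_lit 0) .nil))))))) (.g (nat_lit 6) .nil .nil)))) (.nd (nat_lit 6) 
(.lf (nat_lit 56501) (.g (nat_lit 1210) (.e (nat_lit 1425) (nat_lit 108) (.e (nat_lit 336019) (nat_lit 3) (.e (nat_lit 98369) (nat_lit 28) (.e (nat_lit 450304) (nat_lit 3) .nil)))) .nil)) 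
(.lf (nat_lit 56565) (.g (nat_lit 2074) (.e (nat_lit 1425) (nat_lit 108) (.e (nat_lit 336208) (nat_lit 12) (.e (nat_lit 385106) (nat_lit 50) (.e (nat_lit 786483) (nat_lit 30) (.e (nat_lit 360451) (nat_lit 0) (.e (nat_lit 5896) (nat_lit 320) (.e (nat_lit 1040) (nat_lit 81) .nil))))))) (.g (nat_lit 4) .nil .nil)))))) (.nd (nat_lit 4) (.nd (nat_lit 5) (.nd (nat_lit 6) 
(.lf (nat_lit 56461) (.g (nat_lit 2917) (.e (nat_lit 1423) (nat_lit 108) (.e (nat_lit 336443) (nat_lit 32) (.e (nat_lit 466972) (nat_lit 21) (.e (nat_lit 164403) (nat_lit 256) (.e (nat_lit 57400) (nat_lit 10) (.e (nat_lit 319511) (nat_lit 10) (.e (nat_lit 5293) (nat_lit 298) .nil))))))) (.g (nat_lit 6) .nil .nil))) 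
(.lf (nat_lit 56525) (.g (nat_lit 2258) (.e (nat_lit 1425) (nat_lit 108) (.e (nat_lit 336019) (nat_lit 3) (.e (nat_lit 98381) (nat_lit 31) (.e (nat_lit 466977) (nat_lit 22) (.e (nat_lit 196658) (nat_lit 12) .nil))))) .nil))) (.nd (nat_lit 6) 
(.lf (nat_lit 56493) (.g (nat_lit 2687) (.e (nat_lit 1424) (nat_lit 108) (.e (nat_lit 336454) (nat_lit 34) (.e (nat_lit 483383) (nat_lit 23) (.e (nat_lit 336324) (nat_lit 18) (.e (nat_lit 204830) (nat_lit 18) .nil))))) .nil)) 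
(.lf (nat_lit 56557) (.g (nat_lit 1827) (.e (nat_lit 1425) (nat_lit 108) (.e (nat_lit 336208) (nat_lit 12) (.e (nat_lit 385104) (nat_lit 50) (.e (nat_lit 786483) (nat_lit 30) (.e (nat_lit 360486) (nat_lit 18) (.e (nat_lit 671750) (nat_lit 0) .nil)))))) (.g (nat_lit 5) .nil .nil))))) (.nd (nat_lit 5) (.nd (nat_lit 6) 
(.lf (nat_lit 56477) (.g (nat_lit 4114) (.e (nat_lit 1424) (nat_lit 108) (.e (nat_lit 336324) (nat_lit 18) (.e (nat_lit 204831) (nat_lit 18) (.e (nat_lit 57852) (nat_lit 252) .nil)))) .nil)) 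
(.lf (nat_lit 56541) (.g (nat_lit 943) (.e (nat_lit 1425) (nat_lit 108) (.e (nat_lit 336208) (nat_lit 12) (.e (nat_lit 385094) (nat_lit 49) (.e (nat_lit 778327) (nat_lit 6) .nil)))) .nil))) (.nd (nat_lit 6) 
(.lf (nat_lit 56509) (.g (nat_lit 5247) (.e (nat_lit 1425) (nat_lit 108) (.e (nat_lit 336019) (nat_lit 3) (.e (nat_lit 98373) (nat_lit 29) (.e (nat_lit 450587) (nat_lit 10) (.e (nat_lit 573475) (nat_lit 12) (.e (nat_lit 57572) (nat_lit 54) (.e (nat_lit 770062) (nat_lit 5) .nil))))))) (.g (nat_lit 4) .nil .nil))) 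
(.lf (nat_lit 56573) (.g (nat_lit 3061) (.e (nat_lit 1425) (nat_lit 108) (.e (nat_lit 336306) (nat_lit 15) (.e (nat_lit 3298) (nat_lit 202) (.e (nat_lit 573493) (nat_lit 15) (.e (nat_lit 81953) (nat_lit 22) (.e (nat_lit 90165) (nat_lit 12) (.e (nat_lit 164239) (nat_lit 187) .nil))))))) (.g (nat_lit 6) .nil .nil)))))))) 
(.nd (nat_lit 2) (.nd (nat_lit 3) (.nd (nat_lit 4) (.nd (nat_lit 5) (.nd (nat_lit 6) 
(.lf (nat_lit 56451) (.g (nat_lit 1222) (.e (nat_lit 1423) (nat_lit 108) (.e (nat_lit 336369) (nat_lit 27) (.e (nat_lit 426173) (nat_lit 7) (.e (nat_lit 409648) (nat_lit 18) .nil)))) .nil)) 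
(.lf (nat_lit 56515) (.g (nat_lit 1105) (.e (nat_lit 1425) (nat_lit 108) (.e (nat_lit 336019) (nat_lit 3) (.e (nat_lit 98380) (nat_lit 31) (.e (nat_lit 466947) (nat_lit 0) .nil)))) .nil))) (.nd (nat_lit 6) 
(.lf (nat_lit 56483) (.g (nat_lit 1572) (.e (nat_lit 1424) (nat_lit 108) (.e (nat_lit 336369) (nat_lit 27) (.e (nat_lit 426173) (nat_lit 7) (.e (nat_lit 409616) (nat_lit 10) .nil)))) .nil)) 
(.lf (nat_lit 56547) (.g (nat_lit 951) (.e (nat_lit 1425) (nat_lit 108) (.e (nat_lit 336208) (nat_lit 12) (.e (nat_lit 385104) (nat_lit 50) (.e (nat_lit 786478) (nat_lit 29) .nil)))) .nil)))) (.nd (nat_lit 5) (.nd (nat_lit 6) 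
(.lf (nat_lit 56467) (.g (nat_lit 2087) (.e (nat_lit 1423) (nat_lit 108) (.e (nat_lit 336456) (nat_lit 34) (.e (nat_lit 483393) (nat_lit 23) (.e (nat_lit 336012) (nat_lit 2) (.e (nat_lit 90164) (nat_lit 12) .nil))))) .nil)) 
(.lf (nat_lit 56531) (.g (nat_lit 3088) (.e (nat_lit 1425) (nat_lit 108) (.e (nat_lit 336160) (nat_lit 10) (.e (nat_lit 344119) (nat_lit 21) (.e (nat_lit 516139) (nat_lit 7) (.e (nat_lit 409649) (nat_lit 18) (.e (nat_lit 303121) (nat_lit 5) (.e (nat_lit 245785) (nat_lit 9) .nil))))))) (.g (nat_lit 6) .nil .nil)))) (.nd (nat_lit 6) 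
(.lf (nat_lit 56499) (.g (nat_lit 2618) (.e (nat_lit 1425) (nat_lit 108) (.e (nat_lit 336019) (nat_lit 3) (.e (nat_lit 98358) (nat_lit 26) (.e (nat_lit 426320) (nat_lit 12) (.e (nat_lit 475179) (nat_lit 24) .nil))))) .nil)) 
(.lf (nat_lit 56563) (.g (nat_lit 2191) (.e (nat_lit 1425) (nat_lit 108) (.e (nat_lit 336208) (nat_lit 12) (.e (nat_lit 385106) (nat_lit 50) (.e (nat_lit 786481) (nat_lit 30) (.e (nat_lit 360449) (nat_lit 0) .nil))))) .nil))))) (.nd (nat_lit 4) (.nd (nat_lit 5) (.nd (nat_lit 6) 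
(.lf (nat_lit 56459) (.g (nat_lit 2512) (.e (nat_lit 1423) (nat_lit 108) (.e (nat_lit 336443) (nat_lit 32) (.e (nat_lit 466969) (nat_lit 21) (.e (nat_lit 164403) (nat_lit 256) (.e (nat_lit 57400) (nat_lit 10) .nil))))) .nil)) 
(.lf (nat_lit 56523) (.g (nat_lit 1122) (.e (nat_lit 1425) (nat_lit 108) (.e (nat_lit 336019) (nat_lit 3) (.e (nat_lit 98381) (nat_lit 31) (.e (nat_lit 474880) (nat_lit 3) .nil)))) .nil))) (.nd (nat_lit 6) 
(.lf (nat_lit 56491) (.g (nat_lit 1830) (.e (nat_lit 1424) (nat_lit 108) (.e (nat_lit 336443) (nat_lit 32) (.e (nat_lit 466971) (nat_lit 21) (.e (nat_lit 164348) (nat_lit 240) (.e (nat_lit 2640) (nat_lit 165) .nil))))) .nil)) 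
(.lf (nat_lit 56555) (.g (nat_lit 2520) (.e (nat_lit 1425) (nat_lit 108) (.e (nat_lit 336208) (nat_lit 12) (.e (nat_lit 385104) (nat_lit 50) (.e (nat_lit 786483) (nat_lit 30) (.e (nat_lit 360451) (nat_lit 0) (.e (nat_lit 5896) (nat_lit 320) (.e (nat_lit 1086) (nat_lit 81) .nil))))))) (.g (nat_lit 5) .nil .nil))))) (.nd (nat_lit 5) (.nd (nat_lit 6) 
(.lf (nat_lit 56475) (.g (nat_lit 4810) (.e (nat_lit 1424) (nat_lit 108) (.e (nat_lit 336324) (nat_lit 18) (.e (nat_lit 204831) (nat_lit 18) (.e (nat_lit 57849) (nat_lit 252) .nil)))) .nil)) 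
(.lf (nat_lit 56539) (.g (nat_lit 1603) (.e (nat_lit 1425) (nat_lit 108) (.e (nat_lit 336208) (nat_lit 12) (.e (nat_lit 385094) (nat_lit 49) (.e (nat_lit 778326) (nat_lit 6) (.e (nat_lit 81921) (nat_lit 0) .nil))))) .nil))) (.nd (nat_lit 6) 
(.lf (nat_lit 56507) (.g (nat_lit 5348) (.e (nat_lit 1425) (nat_lit 108) (.e (nat_lit 336019) (nat_lit 3) (.e (nat_lit 98373) (nat_lit 29) (.e (nat_lit 450587) (nat_lit 10) (.e (nat_lit 573475) (nat_lit 12) (.e (nat_lit 57571) (nat_lit 54) (.e (nat_lit 770061) (nat_lit 5) .nil))))))) (.g (nat_lit 4) .nil .nil))) 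
(.lf (nat_lit 56571) (.g (nat_lit 3975) (.e (nat_lit 1425) (nat_lit 108) (.e (nat_lit 336211) (nat_lit 13) (.e (nat_lit 393301) (nat_lit 27) (.e (nat_lit 491559) (nat_lit 10) (.e (nat_lit 344177) (nat_lit 43) (.e (nat_lit 770061) (nat_lit 5) .nil)))))) (.g (nat_lit 0) .nil .nil))))))) (.nd (nat_lit 3) (.nd (nat_lit 4) (.nd (nat_lit 5) (.nd (nat_lit 6) 
(.lf (nat_lit 56455) (.g (nat_lit 1708) (.e (nat_lit 1423) (nat_lit 108) (.e (nat_lit 336432) (nat_lit 30) (.e (nat_lit 450569) (nat_lit 0) (.e (nat_lit 5947) (nat_lit 322) (.e (nat_lit 57400) (nat_lit 10) (.e (nat_lit 319511) (nat_lit 10) (.e (nat_lit 5293) (nat_lit 298) .nil))))))) (.g (nat_lit 6) .nil .nil))) 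
(.lf (nat_lit 56519) (.g (nat_lit 659) (.e (nat_lit 1425) (nat_lit 108) (.e (nat_lit 336019) (nat_lit 3) (.e (nat_lit 98381) (nat_lit 31) .nil))) .nil))) (.nd (nat_lit 6) 
(.lf (nat_lit 56487) (.g (nat_lit 1497) (.e (nat_lit 1424) (nat_lit 108) (.e (nat_lit 336432) (nat_lit 30) (.e (nat_lit 450565) (nat_lit 0) (.e (nat_lit 5548) (nat_lit 306) (.e (nat_lit 2640) (nat_lit 165) .nil))))) .nil)) 
(.lf (nat_lit 56551) (.g (nat_lit 2392) (.e (nat_lit 1425) (nat_lit 108) (.e (nat_lit 336208) (nat_lit 12) (.e (nat_lit 385104) (nat_lit 50) (.e (nat_lit 786480) (nat_lit 29) (.e (nat_lit 352318) (nat_lit 24) (.e (nat_lit 123182) (nat_lit 264) (.e (nat_lit 1068) (nat_lit 81) .nil))))))) (.g (nat_lit 5) .nil .nil))))) (.nd (nat_lit 5) (.nd (nat_lit 6) 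
(.lf (nat_lit 56471) (.g (nat_lit 3419) (.e (nat_lit 1424) (nat_lit 108) (.e (nat_lit 336210) (nat_lit 13) (.e (nat_lit 393301) (nat_lit 27) (.e (nat_lit 491559) (nat_lit 10) (.e (nat_lit 344177) (nat_lit 43) .nil))))) .nil)) 
(.lf (nat_lit 56535) (.g (nat_lit 1838) (.e (nat_lit 1425) (nat_lit 108) (.e (nat_lit 336208) (nat_lit 12) (.e (nat_lit 385074) (nat_lit 31) (.e (nat_lit 573493) (nat_lit 15) .nil)))) .nil))) (.nd (nat_lit 6) 
(.lf (nat_lit 56503) (.g (nat_lit 2761) (.e (nat_lit 1425) (nat_lit 108) (.e (nat_lit 336019) (nat_lit 3) (.e (nat_lit 98372) (nat_lit 29) (.e (nat_lit 450579) (nat_lit 5) (.e (nat_lit 532484) (nat_lit 0) .nil))))) .nil)) 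
(.lf (nat_lit 56567) (.g (nat_lit 568) (.e (nat_lit 1425) (nat_lit 108) (.e (nat_lit 336211) (nat_lit 13) (.e (nat_lit 393234) (nat_lit 17) .nil))) .nil))))) (.nd (nat_lit 4) (.nd (nat_lit 5) (.nd (nat_lit 6) 
(.lf (nat_lit 56463) (.g (nat_lit 2418) (.e (nat_lit 1423) (nat_lit 108) (.e (nat_lit 336444) (nat_lit 32) (.e (nat_lit 466972) (nat_lit 21) (.e (nat_lit 164402) (nat_lit 256) (.e (nat_lit 57400) (nat_lit 10) (.e (nat_lit 319511) (nat_lit 10) (.e (nat_lit 5293) (nat_lit 298) .nil))))))) (.g (nat_lit 7) .nil .nil))) 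
(.lf (nat_lit 56527) (.g (nat_lit 2122) (.e (nat_lit 1425) (nat_lit 108) (.e (nat_lit 336160) (nat_lit 10) (.e (nat_lit 344119) (nat_lit 21) (.e (nat_lit 516139) (nat_lit 7) (.e (nat_lit 409636) (nat_lit 14) (.e (nat_lit 270367) (nat_lit 12) (.e (nat_lit 32776) (nat_lit 5) .nil))))))) (.g (nat_lit 5) .nil .nil)))) (.nd (nat_lit 6) 
(.lf (nat_lit 56495) (.g (nat_lit 2041) (.e (nat_lit 1424) (nat_lit 108) (.e (nat_lit 336454) (nat_lit 34) (.e (nat_lit 483403) (nat_lit 26) (.e (nat_lit 385066) (nat_lit 26) (.e (nat_lit 532501) (nat_lit 1) .nil))))) .nil)) 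
(.lf (nat_lit 56559) (.g (nat_lit 2188) (.e (nat_lit 1425) (nat_lit 108) (.e (nat_lit 336208) (nat_lit 12) (.e (nat_lit 385104) (nat_lit 50) (.e (nat_lit 786483) (nat_lit 30) (.e (nat_lit 360486) (nat_lit 18) (.e (nat_lit 671752) (nat_lit 0) .nil)))))) (.g (nat_lit 5) .nil .nil))))) (.nd (nat_lit 5) (.nd (nat_lit 6) 
(.lf (nat_lit 56479) (.g (nat_lit 4146) (.e (nat_lit 1424) (nat_lit 108) (.e (nat_lit 336324) (nat_lit 18) (.e (nat_lit 204831) (nat_lit 18) (.e (nat_lit 57854) (nat_lit 252) .nil)))) .nil)) 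
(.lf (nat_lit 56543) (.g (nat_lit 2687) (.e (nat_lit 1425) (nat_lit 108) (.e (nat_lit 336208) (nat_lit 12) (.e (nat_lit 385102) (nat_lit 50) (.e (nat_lit 786483) (nat_lit 30) (.e (nat_lit 360451) (nat_lit 0) (.e (nat_lit 5896) (nat_lit 320) (.e (nat_lit 1040) (nat_lit 81) .nil))))))) (.g (nat_lit 6) .nil .nil)))) (.nd (nat_lit 6) 
(.lf (nat_lit 56511) (.g (nat_lit 5424) (.e (nat_lit 1425) (nat_lit 108) (.e (nat_lit 336019) (nat_lit 3) (.e (nat_lit 98373) (nat_lit 29) (.e (nat_lit 450588) (nat_lit 10) (.e (nat_lit 573474) (nat_lit 12) (.e (nat_lit 57572) (nat_lit 54) (.e (nat_lit 770059) (nat_lit 5) .nil))))))) (.g (nat_lit 4) .nil .nil))) 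
(.lf (nat_lit 56575) (.g (nat_lit 3966) (.e (nat_lit 1425) (nat_lit 108) (.e (nat_lit 336324) (nat_lit 18) (.e (nat_lit 204831) (nat_lit 18) (.e (nat_lit 57830) (nat_lit 250) .nil)))) .nil)))))))))

noncomputable def tv778 : DT := (.nd (nat_lit 0) (.nd (nat_lit 1) (.nd (nat_lit 2) (.nd (nat_lit 3) (.nd (nat_lit 4) (.nd (nat_lit 5) 
(.lf (nat_lit 56576) (.g (nat_lit 4099) (.e (nat_lit 1425) (nat_lit 108) (.e (nat_lit 336324) (nat_lit 18) (.e (nat_lit 204831) (nat_lit 18) (.e (nat_lit 57830) (nat_lit 250) (.e (nat_lit 1183) (nat_lit 87) .nil))))) .nil)) 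
(.lf (nat_lit 56608) (.g (nat_lit 3188) (.e (nat_lit 1425) (nat_lit 108) (.e (nat_lit 336326) (nat_lit 18) (.e (nat_lit 204863) (nat_lit 27) (.e (nat_lit 344133) (nat_lit 26) (.e (nat_lit 557098) (nat_lit 13) (.e (nat_lit 172140) (nat_lit 22) (.e (nat_lit 139269) (nat_lit 0) .nil))))))) (.g (nat_lit 5) .nil .nil)))) (.nd (nat_lit 5) 
(.lf (nat_lit 56592) (.g (nat_lit 1737) (.e (nat_lit 1425) (nat_lit 108) (.e (nat_lit 336324) (nat_lit 18) (.e (nat_lit 204854) (nat_lit 26) (.e (nat_lit 336326) (nat_lit 18) .nil)))) .nil)) 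
(.lf (nat_lit 56624) (.g (nat_lit 2150) (.e (nat_lit 1425) (nat_lit 108) (.e (nat_lit 336421) (nat_lit 28) (.e (nat_lit 434180) (nat_lit 0) (.e (nat_lit 1661) (nat_lit 115) (.e (nat_lit 393238) (nat_lit 17) (.e (nat_lit 7555) (nat_lit 402) .nil)))))) (.g (nat_lit 6) .nil .nil))))) (.nd (nat_lit 4) (.nd (nat_lit 5) 
(.lf (nat_lit 56584) (.g (nat_lit 5354) (.e (nat_lit 1425) (nat_lit 108) (.e (nat_lit 336324) (nat_lit 18) (.e (nat_lit 204831) (nat_lit 18) (.e (nat_lit 57852) (nat_lit 252) (.e (nat_lit 57354) (nat_lit 0) .nil))))) .nil)) 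
(.lf (nat_lit 56616) (.g (nat_lit 1941) (.e (nat_lit 1425) (nat_lit 108) (.e (nat_lit 336395) (nat_lit 27) (.e (nat_lit 426340) (nat_lit 14) (.e (nat_lit 491549) (nat_lit 9) (.e (nat_lit 336421) (nat_lit 28) (.e (nat_lit 434181) (nat_lit 0) .nil)))))) (.g (nat_lit 6) .nil .nil)))) (.nd (nat_lit 5) 
(.lf (nat_lit 56600) (.g (nat_lit 2803) (.e (nat_lit 1425) (nat_lit 108) (.e (nat_lit 336324) (nat_lit 18) (.e (nat_lit 204863) (nat_lit 27) (.e (nat_lit 344133) (nat_lit 26) (.e (nat_lit 557098) (nat_lit 13) (.e (nat_lit 179968) (nat_lit 22) (.e (nat_lit 139272) (nat_lit 0) .nil))))))) (.g (nat_lit 4) .nil .nil))) 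
(.lf (nat_lit 56632) (.g (nat_lit 478) (.e (nat_lit 1425) (nat_lit 108) (.e (nat_lit 336421) (nat_lit 28) (.e (nat_lit 434198) (nat_lit 17) (.e (nat_lit 229647) (nat_lit 232) .nil)))) .nil))))) (.nd (nat_lit 3) (.nd (nat_lit 4) (.nd (nat_lit 5) 
(.lf (nat_lit 56580) (.g (nat_lit 4677) (.e (nat_lit 1425) (nat_lit 108) (.e (nat_lit 336324) (nat_lit 18) (.e (nat_lit 204831) (nat_lit 18) (.e (nat_lit 57848) (nat_lit 252) .nil)))) .nil)) 
(.lf (nat_lit 56612) (.g (nat_lit 603) (.e (nat_lit 1425) (nat_lit 108) (.e (nat_lit 336369) (nat_lit 27) (.e (nat_lit 426310) (nat_lit 12) .nil))) .nil))) (.nd (nat_lit 5) 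
(.lf (nat_lit 56596) (.g (nat_lit 3387) (.e (nat_lit 1425) (nat_lit 108) (.e (nat_lit 336324) (nat_lit 18) (.e (nat_lit 204862) (nat_lit 27) (.e (nat_lit 344133) (nat_lit 26) (.e (nat_lit 557098) (nat_lit 13) (.e (nat_lit 172140) (nat_lit 22) (.e (nat_lit 139269) (nat_lit 0) .nil))))))) (.g (nat_lit 5) .nil .nil))) 
(.lf (nat_lit 56628) (.g (nat_lit 2270) (.e (nat_lit 1425) (nat_lit 108) (.e (nat_lit 336421) (nat_lit 28) (.e (nat_lit 434181) (nat_lit 0) (.e (nat_lit 1428) (nat_lit 108) (.e (nat_lit 336421) (nat_lit 28) (.e (nat_lit 434180) (nat_lit 0) .nil)))))) (.g (nat_lit 0) .nil .nil))))) (.nd (nat_lit 4) (.nd (nat_lit 5) 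
(.lf (nat_lit 56588) (.g (nat_lit 637) (.e (nat_lit 1425) (nat_lit 108) (.e (nat_lit 336324) (nat_lit 18) (.e (nat_lit 204854) (nat_lit 26) .nil))) .nil)) 
(.lf (nat_lit 56620) (.g (nat_lit 230) (.e (nat_lit 1425) (nat_lit 108) (.e (nat_lit 336421) (nat_lit 28) (.e (nat_lit 434178) (nat_lit 0) .nil))) .nil))) (.nd (nat_lit 5) 
(.lf (nat_lit 56604) (.g (nat_lit 843) (.e (nat_lit 1425) (nat_lit 108) (.e (nat_lit 336324) (nat_lit 18) (.e (nat_lit 204876) (nat_lit 31) .nil))) .nil)) 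
(.lf (nat_lit 56636) (.g (nat_lit 3067) (.e (nat_lit 1425) (nat_lit 108) (.e (nat_lit 336428) (nat_lit 29) (.e (nat_lit 442374) (nat_lit 0) (.e (nat_lit 2059) (nat_lit 142) (.e (nat_lit 704595) (nat_lit 5) (.e (nat_lit 180278) (nat_lit 32) .nil)))))) (.g (nat_lit 0) .nil .nil))))))) (.nd (nat_lit 2) (.nd (nat_lit 3) (.nd (nat_lit 4) (.nd (nat_lit 5) 
(.lf (nat_lit 56578) (.g (nat_lit 4161) (.e (nat_lit 1425) (nat_lit 108) (.e (nat_lit 336324) (nat_lit 18) (.e (nat_lit 204831) (nat_lit 18) (.e (nat_lit 57846) (nat_lit 252) .nil)))) .nil)) 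
(.lf (nat_lit 56610) (.g (nat_lit 2193) (.e (nat_lit 1425) (nat_lit 108) (.e (nat_lit 336369) (nat_lit 27) (.e (nat_lit 426173) (nat_lit 7) (.e (nat_lit 409649) (nat_lit 18) (.e (nat_lit 303151) (nat_lit 27) .nil))))) .nil))) (.nd (nat_lit 5) 
(.lf (nat_lit 56594) (.g (nat_lit 2671) (.e (nat_lit 1425) (nat_lit 108) (.e (nat_lit 336324) (nat_lit 18) (.e (nat_lit 204862) (nat_lit 27) (.e (nat_lit 344129) (nat_lit 26) (.e (nat_lit 557096) (nat_lit 13) .nil))))) .nil)) 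
(.lf (nat_lit 56626) (.g (nat_lit 1270) (.e (nat_lit 1425) (nat_lit 108) (.e (nat_lit 336421) (nat_lit 28) (.e (nat_lit 434181) (nat_lit 0) (.e (nat_lit 1425) (nat_lit 108) (.e (nat_lit 336421) (nat_lit 28) (.e (nat_lit 434181) (nat_lit 0) .nil)))))) (.g (nat_lit 0) .nil .nil))))) (.nd (nat_lit 4) (.nd (nat_lit 5) 
(.lf (nat_lit 56586) (.g (nat_lit 4130) (.e (nat_lit 1425) (nat_lit 108) (.e (nat_lit 336324) (nat_lit 18) (.e (nat_lit 204831) (nat_lit 18) (.e (nat_lit 57854) (nat_lit 252) .nil)))) .nil)) 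
(.lf (nat_lit 56618) (.g (nat_lit 398) (.e (nat_lit 1425) (nat_lit 108) (.e (nat_lit 336414) (nat_lit 27) (.e (nat_lit 425987) (nat_lit 0) .nil))) .nil))) (.nd (nat_lit 5) 
(.lf (nat_lit 56602) (.g (nat_lit 1967) (.e (nat_lit 1425) (nat_lit 108) (.e (nat_lit 336324) (nat_lit 18) (.e (nat_lit 204864) (nat_lit 27) (.e (nat_lit 344132) (nat_lit 26) (.e (nat_lit 557101) (nat_lit 13) (.e (nat_lit 179968) (nat_lit 22) (.e (nat_lit 139272) (nat_lit 0) .nil))))))) (.g (nat_lit 4) .nil .nil))) 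
(.lf (nat_lit 56634) (.g (nat_lit 2308) (.e (nat_lit 1425) (nat_lit 108) (.e (nat_lit 336428) (nat_lit 29) (.e (nat_lit 442374) (nat_lit 0) (.e (nat_lit 2058) (nat_lit 142) (.e (nat_lit 704595) (nat_lit 5) (.e (nat_lit 180277) (nat_lit 32) .nil)))))) (.g (nat_lit 5) .nil .nil)))))) (.nd (nat_lit 3) (.nd (nat_lit 4) (.nd (nat_lit 5) 
(.lf (nat_lit 56582) (.g (nat_lit 3890) (.e (nat_lit 1425) (nat_lit 108) (.e (nat_lit 336324) (nat_lit 18) (.e (nat_lit 204831) (nat_lit 18) (.e (nat_lit 57851) (nat_lit 252) .nil)))) .nil)) 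
(.lf (nat_lit 56614) (.g (nat_lit 2694) (.e (nat_lit 1425) (nat_lit 108) (.e (nat_lit 336369) (nat_lit 27) (.e (nat_lit 426317) (nat_lit 12) (.e (nat_lit 475198) (nat_lit 40) (.e (nat_lit 704595) (nat_lit 5) (.e (nat_lit 180277) (nat_lit 32) .nil)))))) (.g (nat_lit 5) .nil .nil)))) (.nd (nat_lit 5) 
(.lf (nat_lit 56598) (.g (nat_lit 2165) (.e (nat_lit 1425) (nat_lit 108) (.e (nat_lit 336324) (nat_lit 18) (.e (nat_lit 204863) (nat_lit 27) (.e (nat_lit 344131) (nat_lit 26) .nil)))) .nil)) 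
(.lf (nat_lit 56630) (.g (nat_lit 1989) (.e (nat_lit 1425) (nat_lit 108) (.e (nat_lit 336421) (nat_lit 28) (.e (nat_lit 434181) (nat_lit 0) (.e (nat_lit 1661) (nat_lit 115) (.e (nat_lit 393238) (nat_lit 17) (.e (nat_lit 7555) (nat_lit 402) .nil)))))) (.g (nat_lit 6) .nil .nil))))) (.nd (nat_lit 4) (.nd (nat_lit 5) 
(.lf (nat_lit 56590) (.g (nat_lit 1950) (.e (nat_lit 1425) (nat_lit 108) (.e (nat_lit 336324) (nat_lit 18) (.e (nat_lit 204854) (nat_lit 26) (.e (nat_lit 336322) (nat_lit 18) .nil)))) .nil)) 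
(.lf (nat_lit 56622) (.g (nat_lit 1079) (.e (nat_lit 1425) (nat_lit 108) (.e (nat_lit 336421) (nat_lit 28) (.e (nat_lit 434178) (nat_lit 0) (.e (nat_lit 1515) (nat_lit 108) (.e (nat_lit 336420) (nat_lit 28) (.e (nat_lit 434181) (nat_lit 0) .nil)))))) (.g (nat_lit 0) .nil .nil)))) (.nd (nat_lit 5) 
(.lf (nat_lit 56606) (.g (nat_lit 638) (.e (nat_lit 1425) (nat_lit 108) (.e (nat_lit 336324) (nat_lit 18) (.e (nat_lit 204882) (nat_lit 32) .nil))) .nil)) 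
(.lf (nat_lit 56638) (.g (nat_lit 2071) (.e (nat_lit 1425) (nat_lit 108) (.e (nat_lit 336430) (nat_lit 29) (.e (nat_lit 442377) (nat_lit 0) (.e (nat_lit 2059) (nat_lit 142) (.e (nat_lit 704595) (nat_lit 5) (.e (nat_lit 180277) (nat_lit 32) .nil)))))) (.g (nat_lit 5) .nil .nil)))))))) (.nd (nat_lit 1) (.nd (nat_lit 2) (.nd (nat_lit 3) (.nd (nat_lit 4) (.nd (nat_lit 5) 
(.lf (nat_lit 56577) (.g (nat_lit 4986) (.e (nat_lit 1425) (nat_lit 108) (.e (nat_lit 336324) (nat_lit 18) (.e (nat_lit 204831) (nat_lit 18) (.e (nat_lit 57830) (nat_lit 250) (.e (nat_lit 1183) (nat_lit 87) (.e (nat_lit 57466) (nat_lit 23) (.e (nat_lit 516131) (nat_lit 3) (.e (nat_lit 221212) (nat_lit 22) (.e (nat_lit 196632) (nat_lit 9) .nil))))))))) (.g (nat_lit 5) .nil .nil))) 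
(.lf (nat_lit 56609) (.g (nat_lit 3140) (.e (nat_lit 1425) (nat_lit 108) (.e (nat_lit 336326) (nat_lit 18) (.e (nat_lit 204863) (nat_lit 27) (.e (nat_lit 344133) (nat_lit 26) (.e (nat_lit 557098) (nat_lit 13) (.e (nat_lit 172140) (nat_lit 22) (.e (nat_lit 139272) (nat_lit 0) .nil))))))) (.g (nat_lit 5) .nil .nil)))) (.nd (nat_lit 5) 
(.lf (nat_lit 56593) (.g (nat_lit 935) (.e (nat_lit 1425) (nat_lit 108) (.e (nat_lit 336324) (nat_lit 18) (.e (nat_lit 204862) (nat_lit 27) .nil))) .nil)) 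
(.lf (nat_lit 56625) (.g (nat_lit 1238) (.e (nat_lit 1425) (nat_lit 108) (.e (nat_lit 336421) (nat_lit 28) (.e (nat_lit 434180) (nat_lit 0) (.e (nat_lit 1661) (nat_lit 115) (.e (nat_lit 393242) (nat_lit 17) .nil))))) .nil)))) (.nd (nat_lit 4) (.nd (nat_lit 5) 
(.lf (nat_lit 56585) (.g (nat_lit 5279) (.e (nat_lit 1425) (nat_lit 108) (.e (nat_lit 336324) (nat_lit 18) (.e (nat_lit 204831) (nat_lit 18) (.e (nat_lit 57852) (nat_lit 252) (.e (nat_lit 57376) (nat_lit 3) .nil))))) .nil)) 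
(.lf (nat_lit 56617) (.g (nat_lit 389) (.e (nat_lit 1425) (nat_lit 108) (.e (nat_lit 336414) (nat_lit 27) (.e (nat_lit 425984) (nat_lit 0) .nil))) .nil))) (.nd (nat_lit 5) 
(.lf (nat_lit 56601) (.g (nat_lit 959) (.e (nat_lit 1425) (nat_lit 108) (.e (nat_lit 336324) (nat_lit 18) (.e (nat_lit 204864) (nat_lit 27) .nil))) .nil)) 
(.lf (nat_lit 56633) (.g (nat_lit 1344) (.e (nat_lit 1425) (nat_lit 108) (.e (nat_lit 336428) (nat_lit 29) (.e (nat_lit 442374) (nat_lit 0) (.e (nat_lit 2057) (nat_lit 142) (.e (nat_lit 704595) (nat_lit 5) (.e (nat_lit 180278) (nat_lit 32) .nil)))))) (.g (nat_lit 4) .nil .nil)))))) (.nd (nat_lit 3) (.nd (nat_lit 4) (.nd (nat_lit 5) 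
(.lf (nat_lit 56581) (.g (nat_lit 4793) (.e (nat_lit 1425) (nat_lit 108) (.e (nat_lit 336324) (nat_lit 18) (.e (nat_lit 204831) (nat_lit 18) (.e (nat_lit 57849) (nat_lit 252) .nil)))) .nil)) 
(.lf (nat_lit 56613) (.g (nat_lit 1382) (.e (nat_lit 1425) (nat_lit 108) (.e (nat_lit 336369) (nat_lit 27) (.e (nat_lit 426317) (nat_lit 12) (.e (nat_lit 475197) (nat_lit 40) .nil)))) .nil))) (.nd (nat_lit 5) 
(.lf (nat_lit 56597) (.g (nat_lit 3378) (.e (nat_lit 1425) (nat_lit 108) (.e (nat_lit 336324) (nat_lit 18) (.e (nat_lit 204862) (nat_lit 27) (.e (nat_lit 344133) (nat_lit 26) (.e (nat_lit 557098) (nat_lit 13) (.e (nat_lit 172140) (nat_lit 22) (.e (nat_lit 139272) (nat_lit 0) .nil))))))) (.g (nat_lit 5) .nil .nil))) 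
(.lf (nat_lit 56629) (.g (nat_lit 2182) (.e (nat_lit 1425) (nat_lit 108) (.e (nat_lit 336421) (nat_lit 28) (.e (nat_lit 434181) (nat_lit 0) (.e (nat_lit 1428) (nat_lit 108) (.e (nat_lit 336421) (nat_lit 28) (.e (nat_lit 434181) (nat_lit 0) .nil)))))) (.g (nat_lit 0) .nil .nil))))) (.nd (nat_lit 4) (.nd (nat_lit 5) 
(.lf (nat_lit 56589) (.g (nat_lit 3616) (.e (nat_lit 1425) (nat_lit 108) (.e (nat_lit 336324) (nat_lit 18) (.e (nat_lit 204854) (nat_lit 26) (.e (nat_lit 336316) (nat_lit 17) (.e (nat_lit 196670) (nat_lit 14) (.e (nat_lit 73757) (nat_lit 11) (.e (nat_lit 581659) (nat_lit 9) .nil))))))) (.g (nat_lit 7) .nil .nil))) 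
(.lf (nat_lit 56621) (.g (nat_lit 1150) (.e (nat_lit 1425) (nat_lit 108) (.e (nat_lit 336421) (nat_lit 28) (.e (nat_lit 434178) (nat_lit 0) (.e (nat_lit 1512) (nat_lit 108) (.e (nat_lit 336420) (nat_lit 28) (.e (nat_lit 434181) (nat_lit 0) .nil)))))) (.g (nat_lit 0) .nil .nil)))) (.nd (nat_lit 5) 
(.lf (nat_lit 56605) (.g (nat_lit 836) (.e (nat_lit 1425) (nat_lit 108) (.e (nat_lit 336324) (nat_lit 18) (.e (nat_lit 204877) (nat_lit 31) .nil))) .nil)) 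
(.lf (nat_lit 56637) (.g (nat_lit 2364) (.e (nat_lit 1425) (nat_lit 108) (.e (nat_lit 336428) (nat_lit 29) (.e (nat_lit 442374) (nat_lit 0) (.e (nat_lit 2059) (nat_lit 142) (.e (nat_lit 704596) (nat_lit 5) (.e (nat_lit 180277) (nat_lit 32) .nil)))))) (.g (nat_lit 5) .nil .nil))))))) (.nd (nat_lit 2) (.nd (nat_lit 3) (.nd (nat_lit 4) (.nd (nat_lit 5) 
(.lf (nat_lit 56579) (.g (nat_lit 4138) (.e (nat_lit 1425) (nat_lit 108) (.e (nat_lit 336324) (nat_lit 18) (.e (nat_lit 204831) (nat_lit 18) (.e (nat_lit 57847) (nat_lit 252) .nil)))) .nil)) 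
(.lf (nat_lit 56611) (.g (nat_lit 1539) (.e (nat_lit 1425) (nat_lit 108) (.e (nat_lit 336369) (nat_lit 27) (.e (nat_lit 426305) (nat_lit 12) (.e (nat_lit 475198) (nat_lit 40) .nil)))) .nil))) (.nd (nat_lit 5) 
(.lf (nat_lit 56595) (.g (nat_lit 2114) (.e (nat_lit 1425) (nat_lit 108) (.e (nat_lit 336324) (nat_lit 18) (.e (nat_lit 204862) (nat_lit 27) (.e (nat_lit 344132) (nat_lit 26) (.e (nat_lit 557101) (nat_lit 13) .nil))))) .nil)) 
(.lf (nat_lit 56627) (.g (nat_lit 2171) (.e (nat_lit 1425) (nat_lit 108) (.e (nat_lit 336421) (nat_lit 28) (.e (nat_lit 434181) (nat_lit 0) (.e (nat_lit 1427) (nat_lit 108) (.e (nat_lit 336421) (nat_lit 28) (.e (nat_lit 434181) (nat_lit 0) .nil)))))) (.g (nat_lit 0) .nil .nil))))) (.nd (nat_lit 4) (.nd (nat_lit 5) 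
(.lf (nat_lit 56587) (.g (nat_lit 3037) (.e (nat_lit 1425) (nat_lit 108) (.e (nat_lit 336324) (nat_lit 18) (.e (nat_lit 204852) (nat_lit 26) (.e (nat_lit 336316) (nat_lit 17) (.e (nat_lit 196670) (nat_lit 14) (.e (nat_lit 73757) (nat_lit 11) (.e (nat_lit 581659) (nat_lit 9) .nil))))))) (.g (nat_lit 7) .nil .nil))) 
(.lf (nat_lit 56619) (.g (nat_lit 1815) (.e (nat_lit 1425) (nat_lit 108) (.e (nat_lit 336414) (nat_lit 27) (.e (nat_lit 426347) (nat_lit 14) (.e (nat_lit 491549) (nat_lit 9) (.e (nat_lit 336421) (nat_lit 28) .nil))))) .nil))) (.nd (nat_lit 5) 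
(.lf (nat_lit 56603) (.g (nat_lit 941) (.e (nat_lit 1425) (nat_lit 108) (.e (nat_lit 336324) (nat_lit 18) (.e (nat_lit 204873) (nat_lit 30) .nil))) .nil)) 
(.lf (nat_lit 56635) (.g (nat_lit 2902) (.e (nat_lit 1425) (nat_lit 108) (.e (nat_lit 336428) (nat_lit 29) (.e (nat_lit 442374) (nat_lit 0) (.e (nat_lit 2059) (nat_lit 142) (.e (nat_lit 704595) (nat_lit 5) (.e (nat_lit 180277) (nat_lit 32) .nil)))))) (.g (nat_lit 6) .nil .nil)))))) (.nd (nat_lit 3) (.nd (nat_lit 4) (.nd (nat_lit 5) 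
(.lf (nat_lit 56583) (.g (nat_lit 4097) (.e (nat_lit 1425) (nat_lit 108) (.e (nat_lit 336324) (nat_lit 18) (.e (nat_lit 204831) (nat_lit 18) (.e (nat_lit 57852) (nat_lit 252) .nil)))) .nil)) 
(.lf (nat_lit 56615) (.g (nat_lit 2746) (.e (nat_lit 1425) (nat_lit 108) (.e (nat_lit 336369) (nat_lit 27) (.e (nat_lit 426317) (nat_lit 12) (.e (nat_lit 475199) (nat_lit 40) (.e (nat_lit 704595) (nat_lit 5) (.e (nat_lit 180278) (nat_lit 32) .nil)))))) (.g (nat_lit 6) .nil .nil)))) (.nd (nat_lit 5) 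
(.lf (nat_lit 56599) (.g (nat_lit 1837) (.e (nat_lit 1425) (nat_lit 108) (.e (nat_lit 336324) (nat_lit 18) (.e (nat_lit 204863) (nat_lit 27) (.e (nat_lit 344133) (nat_lit 26) .nil)))) .nil)) 
(.lf (nat_lit 56631) (.g (nat_lit 1262) (.e (nat_lit 1425) (nat_lit 108) (.e (nat_lit 336421) (nat_lit 28) (.e (nat_lit 434181) (nat_lit 0) (.e (nat_lit 1661) (nat_lit 115) (.e (nat_lit 393242) (nat_lit 17) .nil))))) .nil)))) (.nd (nat_lit 4) (.nd (nat_lit 5) 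
(.lf (nat_lit 56591) (.g (nat_lit 1755) (.e (nat_lit 1425) (nat_lit 108) (.e (nat_lit 336324) (nat_lit 18) (.e (nat_lit 204854) (nat_lit 26) (.e (nat_lit 336324) (nat_lit 18) .nil)))) .nil)) 
(.lf (nat_lit 56623) (.g (nat_lit 1132) (.e (nat_lit 1425) (nat_lit 108) (.e (nat_lit 336421) (nat_lit 28) (.e (nat_lit 434178) (nat_lit 0) (.e (nat_lit 1516) (nat_lit 108) (.e (nat_lit 336420) (nat_lit 28) (.e (nat_lit 434181) (nat_lit 0) .nil)))))) (.g (nat_lit 0) .nil .nil)))) (.nd (nat_lit 5) 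
(.lf (nat_lit 56607) (.g (nat_lit 2019) (.e (nat_lit 1425) (nat_lit 108) (.e (nat_lit 336326) (nat_lit 18) (.e (nat_lit 204862) (nat_lit 27) (.e (nat_lit 344133) (nat_lit 26) (.e (nat_lit 557098) (nat_lit 13) .nil))))) .nil)) 
(.lf (nat_lit 56639) (.g (nat_lit 1944) (.e (nat_lit 1425) (nat_lit 108) (.e (nat_lit 336430) (nat_lit 29) (.e (nat_lit 442379) (nat_lit 0) (.e (nat_lit 2056) (nat_lit 142) (.e (nat_lit 704595) (nat_lit 5) (.e (nat_lit 180277) (nat_lit 32) .nil)))))) (.g (nat_lit 6) .nil .nil)))))))))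

noncomputable def tv779 : DT := (.nd (nat_lit 0) (.nd (nat_lit 1) (.nd (nat_lit 2) (.nd (nat_lit 3) (.nd (nat_lit 4) (.nd (nat_lit 5) 
(.lf (nat_lit 56640) (.g (nat_lit 1545) (.e (nat_lit 1425) (nat_lit 108) (.e (nat_lit 336430) (nat_lit 29) (.e (nat_lit 442379) (nat_lit 0) (.e (nat_lit 2058) (nat_lit 142) (.e (nat_lit 704596) (nat_lit 5) .nil))))) .nil)) 
(.lf (nat_lit 56672) (.g (nat_lit 1815) (.e (nat_lit 1425) (nat_lit 108) (.e (nat_lit 336454) (nat_lit 34) (.e (nat_lit 483398) (nat_lit 25) (.e (nat_lit 368676) (nat_lit 21) (.e (nat_lit 516117) (nat_lit 1) (.e (nat_lit 164166) (nat_lit 152) (.e (nat_lit 1039) (nat_lit 81) .nil))))))) (.g (nat_lit 4) .nil .nil)))) (.nd (nat_lit 5) 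
(.lf (nat_lit 56656) (.g (nat_lit 2521) (.e (nat_lit 1425) (nat_lit 108) (.e (nat_lit 336454) (nat_lit 34) (.e (nat_lit 483383) (nat_lit 23) (.e (nat_lit 336019) (nat_lit 3) (.e (nat_lit 98333) (nat_lit 18) (.e (nat_lit 164153) (nat_lit 152) (.e (nat_lit 1038) (nat_lit 81) .nil))))))) (.g (nat_lit 4) .nil .nil))) 
(.lf (nat_lit 56688) (.g (nat_lit 2028) (.e (nat_lit 1425) (nat_lit 108) (.e (nat_lit 336454) (nat_lit 34) (.e (nat_lit 483411) (nat_lit 27) (.e (nat_lit 401426) (nat_lit 3) .nil)))) .nil)))) (.nd (nat_lit 4) (.nd (nat_lit 5) 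
(.lf (nat_lit 56648) (.g (nat_lit 1160) (.e (nat_lit 1425) (nat_lit 108) (.e (nat_lit 336443) (nat_lit 32) (.e (nat_lit 466968) (nat_lit 21) .nil))) .nil)) 
(.lf (nat_lit 56680) (.g (nat_lit 2128) (.e (nat_lit 1425) (nat_lit 108) (.e (nat_lit 336454) (nat_lit 34) (.e (nat_lit 483406) (nat_lit 26) (.e (nat_lit 385074) (nat_lit 31) .nil)))) .nil))) (.nd (nat_lit 5) 
(.lf (nat_lit 56664) (.g (nat_lit 2435) (.e (nat_lit 1425) (nat_lit 108) (.e (nat_lit 336454) (nat_lit 34) (.e (nat_lit 483383) (nat_lit 23) (.e (nat_lit 336324) (nat_lit 18) (.e (nat_lit 204830) (nat_lit 18) .nil))))) .nil)) 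
(.lf (nat_lit 56696) (.g (nat_lit 462) (.e (nat_lit 1426) (nat_lit 108) (.e (nat_lit 336208) (nat_lit 12) (.e (nat_lit 392960) (nat_lit 24) .nil))) .nil))))) (.nd (nat_lit 3) (.nd (nat_lit 4) (.nd (nat_lit 5) 
(.lf (nat_lit 56644) (.g (nat_lit 1533) (.e (nat_lit 1425) (nat_lit 108) (.e (nat_lit 336430) (nat_lit 29) (.e (nat_lit 442419) (nat_lit 21) (.e (nat_lit 164346) (nat_lit 240) (.e (nat_lit 2640) (nat_lit 165) .nil))))) .nil)) 
(.lf (nat_lit 56676) (.g (nat_lit 1931) (.e (nat_lit 1425) (nat_lit 108) (.e (nat_lit 336454) (nat_lit 34) (.e (nat_lit 483399) (nat_lit 25) (.e (nat_lit 368676) (nat_lit 21) (.e (nat_lit 516117) (nat_lit 1) (.e (nat_lit 164165) (nat_lit 152) (.e (nat_lit 1039) (nat_lit 81) .nil))))))) (.g (nat_lit 4) .nil .nil)))) (.nd (nat_lit 5) 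
(.lf (nat_lit 56660) (.g (nat_lit 2594) (.e (nat_lit 1425) (nat_lit 108) (.e (nat_lit 336454) (nat_lit 34) (.e (nat_lit 483383) (nat_lit 23) (.e (nat_lit 336019) (nat_lit 3) (.e (nat_lit 98334) (nat_lit 18) (.e (nat_lit 164159) (nat_lit 152) (.e (nat_lit 1025) (nat_lit 81) .nil))))))) (.g (nat_lit 4) .nil .nil))) 
(.lf (nat_lit 56692) (.g (nat_lit 2205) (.e (nat_lit 1425) (nat_lit 108) (.e (nat_lit 336456) (nat_lit 34) (.e (nat_lit 483383) (nat_lit 23) (.e (nat_lit 336019) (nat_lit 3) (.e (nat_lit 98334) (nat_lit 18) .nil))))) .nil)))) (.nd (nat_lit 4) (.nd (nat_lit 5) 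
(.lf (nat_lit 56652) (.g (nat_lit 2053) (.e (nat_lit 1425) (nat_lit 108) (.e (nat_lit 336444) (nat_lit 32) (.e (nat_lit 466947) (nat_lit 0) (.e (nat_lit 2059) (nat_lit 142) (.e (nat_lit 704595) (nat_lit 5) (.e (nat_lit 180278) (nat_lit 32) .nil)))))) (.g (nat_lit 6) .nil .nil))) 
(.lf (nat_lit 56684) (.g (nat_lit 3415) (.e (nat_lit 1425) (nat_lit 108) (.e (nat_lit 336454) (nat_lit 34) (.e (nat_lit 483410) (nat_lit 27) (.e (nat_lit 401425) (nat_lit 2) (.e (nat_lit 196660) (nat_lit 12) .nil))))) .nil))) (.nd (nat_lit 5) 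
(.lf (nat_lit 56668) (.g (nat_lit 1653) (.e (nat_lit 1425) (nat_lit 108) (.e (nat_lit 336454) (nat_lit 34) (.e (nat_lit 483398) (nat_lit 25) (.e (nat_lit 368676) (nat_lit 21) (.e (nat_lit 516117) (nat_lit 1) .nil))))) .nil)) 
(.lf (nat_lit 56700) (.g (nat_lit 1974) (.e (nat_lit 1426) (nat_lit 108) (.e (nat_lit 336208) (nat_lit 12) (.e (nat_lit 385106) (nat_lit 50) (.e (nat_lit 786483) (nat_lit 30) (.e (nat_lit 360451) (nat_lit 0) .nil))))) .nil)))))) (.nd (nat_lit 2) (.nd (nat_lit 3) (.nd (nat_lit 4) (.nd (nat_lit 5) 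
(.lf (nat_lit 56642) (.g (nat_lit 2446) (.e (nat_lit 1425) (nat_lit 108) (.e (nat_lit 336430) (nat_lit 29) (.e (nat_lit 442379) (nat_lit 0) (.e (nat_lit 2059) (nat_lit 142) (.e (nat_lit 704596) (nat_lit 5) (.e (nat_lit 180277) (nat_lit 32) .nil)))))) (.g (nat_lit 5) .nil .nil))) 
(.lf (nat_lit 56674) (.g (nat_lit 1850) (.e (nat_lit 1425) (nat_lit 108) (.e (nat_lit 336454) (nat_lit 34) (.e (nat_lit 483399) (nat_lit 25) (.e (nat_lit 368676) (nat_lit 21) (.e (nat_lit 516117) (nat_lit 1) (.e (nat_lit 164159) (nat_lit 152) (.e (nat_lit 1038) (nat_lit 81) .nil))))))) (.g (nat_lit 4) .nil .nil)))) (.nd (nat_lit 5) 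
(.lf (nat_lit 56658) (.g (nat_lit 2347) (.e (nat_lit 1425) (nat_lit 108) (.e (nat_lit 336454) (nat_lit 34) (.e (nat_lit 483383) (nat_lit 23) (.e (nat_lit 336019) (nat_lit 3) (.e (nat_lit 98334) (nat_lit 18) .nil))))) .nil)) 
(.lf (nat_lit 56690) (.g (nat_lit 1724) (.e (nat_lit 1425) (nat_lit 108) (.e (nat_lit 336456) (nat_lit 34) (.e (nat_lit 483383) (nat_lit 23) (.e (nat_lit 336019) (nat_lit 3) .nil)))) .nil)))) (.nd (nat_lit 4) (.nd (nat_lit 5) 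
(.lf (nat_lit 56650) (.g (nat_lit 1887) (.e (nat_lit 1425) (nat_lit 108) (.e (nat_lit 336443) (nat_lit 32) (.e (nat_lit 466971) (nat_lit 21) (.e (nat_lit 164346) (nat_lit 240) (.e (nat_lit 2638) (nat_lit 165) .nil))))) .nil)) 
(.lf (nat_lit 56682) (.g (nat_lit 795) (.e (nat_lit 1425) (nat_lit 108) (.e (nat_lit 336454) (nat_lit 34) (.e (nat_lit 483409) (nat_lit 27) .nil))) .nil))) (.nd (nat_lit 5) 
(.lf (nat_lit 56666) (.g (nat_lit 810) (.e (nat_lit 1425) (nat_lit 108) (.e (nat_lit 336454) (nat_lit 34) (.e (nat_lit 483384) (nat_lit 23) .nil))) .nil)) 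
(.lf (nat_lit 56698) (.g (nat_lit 1695) (.e (nat_lit 1426) (nat_lit 108) (.e (nat_lit 336208) (nat_lit 12) (.e (nat_lit 385094) (nat_lit 49) (.e (nat_lit 778326) (nat_lit 6) (.e (nat_lit 89856) (nat_lit 8) (.e (nat_lit 262150) (nat_lit 0) .nil)))))) (.g (nat_lit 4) .nil .nil)))))) (.nd (nat_lit 3) (.nd (nat_lit 4) (.nd (nat_lit 5) 
(.lf (nat_lit 56646) (.g (nat_lit 1744) (.e (nat_lit 1425) (nat_lit 108) (.e (nat_lit 336443) (nat_lit 32) (.e (nat_lit 466949) (nat_lit 0) (.e (nat_lit 2059) (nat_lit 142) (.e (nat_lit 704595) (nat_lit 5) .nil))))) .nil)) 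
(.lf (nat_lit 56678) (.g (nat_lit 1998) (.e (nat_lit 1425) (nat_lit 108) (.e (nat_lit 336454) (nat_lit 34) (.e (nat_lit 483406) (nat_lit 26) (.e (nat_lit 385066) (nat_lit 26) .nil)))) .nil))) (.nd (nat_lit 5) 
(.lf (nat_lit 56662) (.g (nat_lit 2455) (.e (nat_lit 1425) (nat_lit 108) (.e (nat_lit 336454) (nat_lit 34) (.e (nat_lit 483383) (nat_lit 23) (.e (nat_lit 336019) (nat_lit 3) (.e (nat_lit 98334) (nat_lit 18) (.e (nat_lit 164159) (nat_lit 152) (.e (nat_lit 1044) (nat_lit 81) .nil))))))) (.g (nat_lit 4) .nil .nil))) 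
(.lf (nat_lit 56694) (.g (nat_lit 903) (.e (nat_lit 1425) (nat_lit 108) (.e (nat_lit 336456) (nat_lit 34) (.e (nat_lit 483396) (nat_lit 24) .nil))) .nil)))) (.nd (nat_lit 4) (.nd (nat_lit 5) 
(.lf (nat_lit 56654) (.g (nat_lit 1830) (.e (nat_lit 1425) (nat_lit 108) (.e (nat_lit 336454) (nat_lit 34) (.e (nat_lit 483383) (nat_lit 23) (.e (nat_lit 336019) (nat_lit 3) .nil)))) .nil)) 
(.lf (nat_lit 56686) (.g (nat_lit 1835) (.e (nat_lit 1425) (nat_lit 108) (.e (nat_lit 336454) (nat_lit 34) (.e (nat_lit 483410) (nat_lit 27) (.e (nat_lit 401428) (nat_lit 3) .nil)))) .nil))) (.nd (nat_lit 5) 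
(.lf (nat_lit 56670) (.g (nat_lit 1995) (.e (nat_lit 1425) (nat_lit 108) (.e (nat_lit 336454) (nat_lit 34) (.e (nat_lit 483398) (nat_lit 25) (.e (nat_lit 368676) (nat_lit 21) (.e (nat_lit 516117) (nat_lit 1) (.e (nat_lit 164164) (nat_lit 152) (.e (nat_lit 1039) (nat_lit 81) .nil))))))) (.g (nat_lit 4) .nil .nil))) 
(.lf (nat_lit 56702) (.g (nat_lit 2122) (.e (nat_lit 1426) (nat_lit 108) (.e (nat_lit 336211) (nat_lit 13) (.e (nat_lit 393299) (nat_lit 27) (.e (nat_lit 491560) (nat_lit 10) (.e (nat_lit 344097) (nat_lit 18) .nil))))) .nil))))))) (.nd (nat_lit 1) (.nd (nat_lit 2) (.nd (nat_lit 3) (.nd (nat_lit 4) (.nd (nat_lit 5) 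
(.lf (nat_lit 56641) (.g (nat_lit 3005) (.e (nat_lit 1425) (nat_lit 108) (.e (nat_lit 336430) (nat_lit 29) (.e (nat_lit 442379) (nat_lit 0) (.e (nat_lit 2059) (nat_lit 142) (.e (nat_lit 704595) (nat_lit 5) (.e (nat_lit 180277) (nat_lit 32) .nil)))))) (.g (nat_lit 6) .nil .nil))) 
(.lf (nat_lit 56673) (.g (nat_lit 1620) (.e (nat_lit 1425) (nat_lit 108) (.e (nat_lit 336454) (nat_lit 34) (.e (nat_lit 483399) (nat_lit 25) (.e (nat_lit 368676) (nat_lit 21) (.e (nat_lit 516117) (nat_lit 1) .nil))))) .nil))) (.nd (nat_lit 5) 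
(.lf (nat_lit 56657) (.g (nat_lit 2588) (.e (nat_lit 1425) (nat_lit 108) (.e (nat_lit 336454) (nat_lit 34) (.e (nat_lit 483383) (nat_lit 23) (.e (nat_lit 336019) (nat_lit 3) (.e (nat_lit 98333) (nat_lit 18) (.e (nat_lit 164155) (nat_lit 152) (.e (nat_lit 1038) (nat_lit 81) .nil))))))) (.g (nat_lit 4) .nil .nil))) 
(.lf (nat_lit 56689) (.g (nat_lit 748) (.e (nat_lit 1425) (nat_lit 108) (.e (nat_lit 336454) (nat_lit 34) (.e (nat_lit 483412) (nat_lit 27) .nil))) .nil)))) (.nd (nat_lit 4) (.nd (nat_lit 5) 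
(.lf (nat_lit 56649) (.g (nat_lit 2041) (.e (nat_lit 1425) (nat_lit 108) (.e (nat_lit 336443) (nat_lit 32) (.e (nat_lit 466969) (nat_lit 21) (.e (nat_lit 164348) (nat_lit 240) (.e (nat_lit 2639) (nat_lit 165) .nil))))) .nil)) 
(.lf (nat_lit 56681) (.g (nat_lit 787) (.e (nat_lit 1425) (nat_lit 108) (.e (nat_lit 336454) (nat_lit 34) (.e (nat_lit 483408) (nat_lit 26) .nil))) .nil))) (.nd (nat_lit 5) 
(.lf (nat_lit 56665) (.g (nat_lit 2470) (.e (nat_lit 1425) (nat_lit 108) (.e (nat_lit 336454) (nat_lit 34) (.e (nat_lit 483383) (nat_lit 23) (.e (nat_lit 336324) (nat_lit 18) (.e (nat_lit 204831) (nat_lit 18) .nil))))) .nil)) 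
(.lf (nat_lit 56697) (.g (nat_lit 1222) (.e (nat_lit 1426) (nat_lit 108) (.e (nat_lit 336208) (nat_lit 12) (.e (nat_lit 385093) (nat_lit 49) (.e (nat_lit 778326) (nat_lit 6) .nil)))) .nil))))) (.nd (nat_lit 3) (.nd (nat_lit 4) (.nd (nat_lit 5) 
(.lf (nat_lit 56645) (.g (nat_lit 1915) (.e (nat_lit 1425) (nat_lit 108) (.e (nat_lit 336430) (nat_lit 29) (.e (nat_lit 442421) (nat_lit 21) (.e (nat_lit 164348) (nat_lit 240) (.e (nat_lit 2639) (nat_lit 165) .nil))))) .nil)) 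
(.lf (nat_lit 56677) (.g (nat_lit 1795) (.e (nat_lit 1425) (nat_lit 108) (.e (nat_lit 336454) (nat_lit 34) (.e (nat_lit 483399) (nat_lit 25) (.e (nat_lit 368676) (nat_lit 21) (.e (nat_lit 516117) (nat_lit 1) (.e (nat_lit 164166) (nat_lit 152) (.e (nat_lit 1039) (nat_lit 81) .nil))))))) (.g (nat_lit 4) .nil .nil)))) (.nd (nat_lit 5) 
(.lf (nat_lit 56661) (.g (nat_lit 3139) (.e (nat_lit 1425) (nat_lit 108) (.e (nat_lit 336454) (nat_lit 34) (.e (nat_lit 483383) (nat_lit 23) (.e (nat_lit 336019) (nat_lit 3) (.e (nat_lit 98334) (nat_lit 18) (.e (nat_lit 164159) (nat_lit 152) (.e (nat_lit 1038) (nat_lit 81) .nil))))))) (.g (nat_lit 5) .nil .nil))) 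
(.lf (nat_lit 56693) (.g (nat_lit 1649) (.e (nat_lit 1425) (nat_lit 108) (.e (nat_lit 336456) (nat_lit 34) (.e (nat_lit 483395) (nat_lit 24) (.e (nat_lit 344117) (nat_lit 21) (.e (nat_lit 516116) (nat_lit 1) .nil))))) .nil)))) (.nd (nat_lit 4) (.nd (nat_lit 5) 
(.lf (nat_lit 56653) (.g (nat_lit 1062) (.e (nat_lit 1425) (nat_lit 108) (.e (nat_lit 336454) (nat_lit 34) (.e (nat_lit 483382) (nat_lit 23) (.e (nat_lit 336324) (nat_lit 18) .nil)))) .nil)) 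
(.lf (nat_lit 56685) (.g (nat_lit 3849) (.e (nat_lit 1425) (nat_lit 108) (.e (nat_lit 336454) (nat_lit 34) (.e (nat_lit 483410) (nat_lit 27) (.e (nat_lit 401425) (nat_lit 2) (.e (nat_lit 196660) (nat_lit 12) (.e (nat_lit 57521) (nat_lit 44) (.e (nat_lit 688154) (nat_lit 13) .nil))))))) (.g (nat_lit 5) .nil .nil)))) (.nd (nat_lit 5) 
(.lf (nat_lit 56669) (.g (nat_lit 1923) (.e (nat_lit 1425) (nat_lit 108) (.e (nat_lit 336454) (nat_lit 34) (.e (nat_lit 483398) (nat_lit 25) (.e (nat_lit 368676) (nat_lit 21) (.e (nat_lit 516117) (nat_lit 1) (.e (nat_lit 164159) (nat_lit 152) (.e (nat_lit 1038) (nat_lit 81) .nil))))))) (.g (nat_lit 4) .nil .nil))) 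
(.lf (nat_lit 56701) (.g (nat_lit 1156) (.e (nat_lit 1426) (nat_lit 108) (.e (nat_lit 336211) (nat_lit 13) (.e (nat_lit 393298) (nat_lit 27) (.e (nat_lit 491566) (nat_lit 12) .nil)))) .nil)))))) (.nd (nat_lit 2) (.nd (nat_lit 3) (.nd (nat_lit 4) (.nd (nat_lit 5) 
(.lf (nat_lit 56643) (.g (nat_lit 1612) (.e (nat_lit 1425) (nat_lit 108) (.e (nat_lit 336430) (nat_lit 29) (.e (nat_lit 442409) (nat_lit 20) (.e (nat_lit 3408) (nat_lit 212) (.e (nat_lit 655379) (nat_lit 5) (.e (nat_lit 180278) (nat_lit 32) .nil)))))) (.g (nat_lit 0) .nil .nil))) 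
(.lf (nat_lit 56675) (.g (nat_lit 1975) (.e (nat_lit 1425) (nat_lit 108) (.e (nat_lit 336454) (nat_lit 34) (.e (nat_lit 483399) (nat_lit 25) (.e (nat_lit 368676) (nat_lit 21) (.e (nat_lit 516117) (nat_lit 1) (.e (nat_lit 164164) (nat_lit 152) (.e (nat_lit 1039) (nat_lit 81) .nil))))))) (.g (nat_lit 4) .nil .nil)))) (.nd (nat_lit 5) 
(.lf (nat_lit 56659) (.g (nat_lit 2518) (.e (nat_lit 1425) (nat_lit 108) (.e (nat_lit 336454) (nat_lit 34) (.e (nat_lit 483383) (nat_lit 23) (.e (nat_lit 336019) (nat_lit 3) (.e (nat_lit 98334) (nat_lit 18) (.e (nat_lit 164157) (nat_lit 152) (.e (nat_lit 1038) (nat_lit 81) .nil))))))) (.g (nat_lit 4) .nil .nil))) 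
(.lf (nat_lit 56691) (.g (nat_lit 2268) (.e (nat_lit 1425) (nat_lit 108) (.e (nat_lit 336456) (nat_lit 34) (.e (nat_lit 483383) (nat_lit 23) (.e (nat_lit 336019) (nat_lit 3) (.e (nat_lit 98333) (nat_lit 18) .nil))))) .nil)))) (.nd (nat_lit 4) (.nd (nat_lit 5) 
(.lf (nat_lit 56651) (.g (nat_lit 1818) (.e (nat_lit 1425) (nat_lit 108) (.e (nat_lit 336443) (nat_lit 32) (.e (nat_lit 466971) (nat_lit 21) (.e (nat_lit 164346) (nat_lit 240) (.e (nat_lit 2639) (nat_lit 165) .nil))))) .nil)) 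
(.lf (nat_lit 56683) (.g (nat_lit 3415) (.e (nat_lit 1425) (nat_lit 108) (.e (nat_lit 336454) (nat_lit 34) (.e (nat_lit 483410) (nat_lit 27) (.e (nat_lit 401425) (nat_lit 2) (.e (nat_lit 196658) (nat_lit 12) .nil))))) .nil))) (.nd (nat_lit 5) 
(.lf (nat_lit 56667) (.g (nat_lit 1579) (.e (nat_lit 1425) (nat_lit 108) (.e (nat_lit 336454) (nat_lit 34) (.e (nat_lit 483385) (nat_lit 23) (.e (nat_lit 336324) (nat_lit 18) .nil)))) .nil)) 
(.lf (nat_lit 56699) (.g (nat_lit 1620) (.e (nat_lit 1426) (nat_lit 108) (.e (nat_lit 336208) (nat_lit 12) (.e (nat_lit 385094) (nat_lit 49) (.e (nat_lit 778327) (nat_lit 6) (.e (nat_lit 89856) (nat_lit 8) (.e (nat_lit 262150) (nat_lit 0) .nil)))))) (.g (nat_lit 4) .nil .nil)))))) (.nd (nat_lit 3) (.nd (nat_lit 4) (.nd (nat_lit 5) 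
(.lf (nat_lit 56647) (.g (nat_lit 1917) (.e (nat_lit 1425) (nat_lit 108) (.e (nat_lit 336443) (nat_lit 32) (.e (nat_lit 466949) (nat_lit 0) (.e (nat_lit 2059) (nat_lit 142) (.e (nat_lit 704595) (nat_lit 5) (.e (nat_lit 180278) (nat_lit 32) .nil)))))) (.g (nat_lit 4) .nil .nil))) 
(.lf (nat_lit 56679) (.g (nat_lit 1978) (.e (nat_lit 1425) (nat_lit 108) (.e (nat_lit 336454) (nat_lit 34) (.e (nat_lit 483406) (nat_lit 26) (.e (nat_lit 385068) (nat_lit 26) .nil)))) .nil))) (.nd (nat_lit 5) 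
(.lf (nat_lit 56663) (.g (nat_lit 2479) (.e (nat_lit 1425) (nat_lit 108) (.e (nat_lit 336454) (nat_lit 34) (.e (nat_lit 483383) (nat_lit 23) (.e (nat_lit 336019) (nat_lit 3) (.e (nat_lit 98334) (nat_lit 18) (.e (nat_lit 164161) (nat_lit 152) (.e (nat_lit 1032) (nat_lit 81) .nil))))))) (.g (nat_lit 4) .nil .nil))) 
(.lf (nat_lit 56695) (.g (nat_lit 1408) (.e (nat_lit 1426) (nat_lit 108) (.e (nat_lit 336019) (nat_lit 3) (.e (nat_lit 98380) (nat_lit 31) (.e (nat_lit 466947) (nat_lit 0) (.e (nat_lit 1800) (nat_lit 119) .nil))))) .nil)))) (.nd (nat_lit 4) (.nd (nat_lit 5) 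
(.lf (nat_lit 56655) (.g (nat_lit 2408) (.e (nat_lit 1425) (nat_lit 108) (.e (nat_lit 336454) (nat_lit 34) (.e (nat_lit 483383) (nat_lit 23) (.e (nat_lit 336019) (nat_lit 3) (.e (nat_lit 98333) (nat_lit 18) .nil))))) .nil)) 
(.lf (nat_lit 56687) (.g (nat_lit 795) (.e (nat_lit 1425) (nat_lit 108) (.e (nat_lit 336454) (nat_lit 34) (.e (nat_lit 483411) (nat_lit 27) .nil))) .nil))) (.nd (nat_lit 5) 
(.lf (nat_lit 56671) (.g (nat_lit 1951) (.e (nat_lit 1425) (nat_lit 108) (.e (nat_lit 336454) (nat_lit 34) (.e (nat_lit 483398) (nat_lit 25) (.e (nat_lit 368676) (nat_lit 21) (.e (nat_lit 516117) (nat_lit 1) (.e (nat_lit 164165) (nat_lit 152) (.e (nat_lit 1039) (nat_lit 81) .nil))))))) (.g (nat_lit 4) .nil .nil))) 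
(.lf (nat_lit 56703) (.g (nat_lit 3228) (.e (nat_lit 1426) (nat_lit 108) (.e (nat_lit 336211) (nat_lit 13) (.e (nat_lit 393301) (nat_lit 27) (.e (nat_lit 491560) (nat_lit 10) (.e (nat_lit 344097) (nat_lit 18) .nil))))) .nil))))))))

noncomputable def tv780 : DT := (.nd (nat_lit 0) (.nd (nat_lit 1) (.nd (nat_lit 2) (.nd (nat_lit 3) (.nd (nat_lit 4) (.nd (nat_lit 5) 
(.lf (nat_lit 56704) (.g (nat_lit 3065) (.e (nat_lit 1426) (nat_lit 108) (.e (nat_lit 336211) (nat_lit 13) (.e (nat_lit 393301) (nat_lit 27) (.e (nat_lit 491560) (nat_lit 10) (.e (nat_lit 344174) (nat_lit 42) .nil))))) .nil)) 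
(.lf (nat_lit 56736) (.g (nat_lit 1667) (.e (nat_lit 1426) (nat_lit 108) (.e (nat_lit 336395) (nat_lit 27) (.e (nat_lit 426340) (nat_lit 14) (.e (nat_lit 491571) (nat_lit 13) (.e (nat_lit 393242) (nat_lit 17) (.e (nat_lit 7554) (nat_lit 402) .nil)))))) (.g (nat_lit 5) .nil .nil)))) (.nd (nat_lit 5) 
(.lf (nat_lit 56720) (.g (nat_lit 3991) (.e (nat_lit 1426) (nat_lit 108) (.e (nat_lit 336306) (nat_lit 15) (.e (nat_lit 3308) (nat_lit 202) (.e (nat_lit 573482) (nat_lit 13) (.e (nat_lit 65604) (nat_lit 9) (.e (nat_lit 336013) (nat_lit 2) (.e (nat_lit 90165) (nat_lit 12) (.e (nat_lit 164238) (nat_lit 187) .nil)))))))) (.g (nat_lit 0) .nil .nil))) 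
(.lf (nat_lit 56752) (.g (nat_lit 2389) (.e (nat_lit 1426) (nat_lit 108) (.e (nat_lit 336421) (nat_lit 28) (.e (nat_lit 434181) (nat_lit 0) (.e (nat_lit 1427) (nat_lit 108) (.e (nat_lit 336421) (nat_lit 28) (.e (nat_lit 434180) (nat_lit 0) .nil)))))) (.g (nat_lit 0) .nil .nil))))) (.nd (nat_lit 4) (.nd (nat_lit 5) 
(.lf (nat_lit 56712) (.g (nat_lit 2682) (.e (nat_lit 1426) (nat_lit 108) (.e (nat_lit 336306) (nat_lit 15) (.e (nat_lit 3298) (nat_lit 202) (.e (nat_lit 573491) (nat_lit 15) (.e (nat_lit 81951) (nat_lit 22) (.e (nat_lit 90165) (nat_lit 12) (.e (nat_lit 164238) (nat_lit 187) .nil))))))) (.g (nat_lit 0) .nil .nil))) 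
(.lf (nat_lit 56744) (.g (nat_lit 2666) (.e (nat_lit 1426) (nat_lit 108) (.e (nat_lit 336421) (nat_lit 28) (.e (nat_lit 434180) (nat_lit 0) (.e (nat_lit 1427) (nat_lit 108) (.e (nat_lit 336421) (nat_lit 28) (.e (nat_lit 434180) (nat_lit 0) .nil)))))) (.g (nat_lit 0) .nil .nil)))) (.nd (nat_lit 5) 
(.lf (nat_lit 56728) (.g (nat_lit 4114) (.e (nat_lit 1426) (nat_lit 108) (.e (nat_lit 336324) (nat_lit 18) (.e (nat_lit 204831) (nat_lit 18) (.e (nat_lit 57852) (nat_lit 252) .nil)))) .nil)) 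
(.lf (nat_lit 56760) (.g (nat_lit 1054) (.e (nat_lit 1426) (nat_lit 108) (.e (nat_lit 336421) (nat_lit 28) (.e (nat_lit 434188) (nat_lit 13) (.e (nat_lit 2789) (nat_lit 179) (.e (nat_lit 294973) (nat_lit 28) (.e (nat_lit 434181) (nat_lit 0) .nil)))))) (.g (nat_lit 4) .nil .nil)))))) (.nd (nat_lit 3) (.nd (nat_lit 4) (.nd (nat_lit 5) 
(.lf (nat_lit 56708) (.g (nat_lit 2842) (.e (nat_lit 1426) (nat_lit 108) (.e (nat_lit 336306) (nat_lit 15) (.e (nat_lit 3297) (nat_lit 202) (.e (nat_lit 573491) (nat_lit 15) (.e (nat_lit 81951) (nat_lit 22) (.e (nat_lit 90165) (nat_lit 12) (.e (nat_lit 164238) (nat_lit 187) .nil))))))) (.g (nat_lit 0) .nil .nil))) 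
(.lf (nat_lit 56740) (.g (nat_lit 1011) (.e (nat_lit 1426) (nat_lit 108) (.e (nat_lit 336421) (nat_lit 28) (.e (nat_lit 434179) (nat_lit 0) (.e (nat_lit 1517) (nat_lit 108) (.e (nat_lit 336420) (nat_lit 28) (.e (nat_lit 434181) (nat_lit 0) .nil)))))) (.g (nat_lit 0) .nil .nil)))) (.nd (nat_lit 5) 
(.lf (nat_lit 56724) (.g (nat_lit 3497) (.e (nat_lit 1426) (nat_lit 108) (.e (nat_lit 336306) (nat_lit 15) (.e (nat_lit 3308) (nat_lit 202) (.e (nat_lit 573493) (nat_lit 15) (.e (nat_lit 81953) (nat_lit 22) (.e (nat_lit 90165) (nat_lit 12) (.e (nat_lit 164238) (nat_lit 187) .nil))))))) (.g (nat_lit 0) .nil .nil))) 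
(.lf (nat_lit 56756) (.g (nat_lit 2212) (.e (nat_lit 1426) (nat_lit 108) (.e (nat_lit 336421) (nat_lit 28) (.e (nat_lit 434181) (nat_lit 0) (.e (nat_lit 1661) (nat_lit 115) (.e (nat_lit 393238) (nat_lit 17) (.e (nat_lit 7555) (nat_lit 402) .nil)))))) (.g (nat_lit 6) .nil .nil))))) (.nd (nat_lit 4) (.nd (nat_lit 5) 
(.lf (nat_lit 56716) (.g (nat_lit 4281) (.e (nat_lit 1426) (nat_lit 108) (.e (nat_lit 336306) (nat_lit 15) (.e (nat_lit 3307) (nat_lit 202) (.e (nat_lit 573484) (nat_lit 13) (.e (nat_lit 65610) (nat_lit 10) (.e (nat_lit 344117) (nat_lit 21) (.e (nat_lit 516106) (nat_lit 0) (.e (nat_lit 7556) (nat_lit 402) .nil)))))))) (.g (nat_lit 0) .nil .nil))) 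
(.lf (nat_lit 56748) (.g (nat_lit 2361) (.e (nat_lit 1426) (nat_lit 108) (.e (nat_lit 336421) (nat_lit 28) (.e (nat_lit 434180) (nat_lit 0) (.e (nat_lit 1661) (nat_lit 115) (.e (nat_lit 393238) (nat_lit 17) (.e (nat_lit 7555) (nat_lit 402) .nil)))))) (.g (nat_lit 6) .nil .nil)))) (.nd (nat_lit 5) 
(.lf (nat_lit 56732) (.g (nat_lit 1698) (.e (nat_lit 1426) (nat_lit 108) (.e (nat_lit 336369) (nat_lit 27) (.e (nat_lit 426317) (nat_lit 12) (.e (nat_lit 475199) (nat_lit 40) (.e (nat_lit 704595) (nat_lit 5) .nil))))) .nil)) 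
(.lf (nat_lit 56764) (.g (nat_lit 1501) (.e (nat_lit 1426) (nat_lit 108) (.e (nat_lit 336421) (nat_lit 28) (.e (nat_lit 434189) (nat_lit 13) (.e (nat_lit 2789) (nat_lit 179) (.e (nat_lit 294973) (nat_lit 28) (.e (nat_lit 434181) (nat_lit 0) .nil)))))) (.g (nat_lit 0) .nil .nil))))))) (.nd (nat_lit 2) (.nd (nat_lit 3) (.nd (nat_lit 4) (.nd (nat_lit 5) 
(.lf (nat_lit 56706) (.g (nat_lit 3807) (.e (nat_lit 1426) (nat_lit 108) (.e (nat_lit 336306) (nat_lit 15) (.e (nat_lit 3297) (nat_lit 202) (.e (nat_lit 573481) (nat_lit 13) (.e (nat_lit 65604) (nat_lit 9) (.e (nat_lit 336013) (nat_lit 2) (.e (nat_lit 90165) (nat_lit 12) (.e (nat_lit 164238) (nat_lit 187) .nil)))))))) (.g (nat_lit 0) .nil .nil))) 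
(.lf (nat_lit 56738) (.g (nat_lit 1061) (.e (nat_lit 1426) (nat_lit 108) (.e (nat_lit 336421) (nat_lit 28) (.e (nat_lit 434179) (nat_lit 0) (.e (nat_lit 1515) (nat_lit 108) (.e (nat_lit 336420) (nat_lit 28) (.e (nat_lit 434181) (nat_lit 0) .nil)))))) (.g (nat_lit 0) .nil .nil)))) (.nd (nat_lit 5) 
(.lf (nat_lit 56722) (.g (nat_lit 4273) (.e (nat_lit 1426) (nat_lit 108) (.e (nat_lit 336306) (nat_lit 15) (.e (nat_lit 3308) (nat_lit 202) (.e (nat_lit 573482) (nat_lit 13) (.e (nat_lit 65619) (nat_lit 10) (.e (nat_lit 344117) (nat_lit 21) (.e (nat_lit 516106) (nat_lit 0) (.e (nat_lit 7556) (nat_lit 402) .nil)))))))) (.g (nat_lit 0) .nil .nil))) 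
(.lf (nat_lit 56754) (.g (nat_lit 2374) (.e (nat_lit 1426) (nat_lit 108) (.e (nat_lit 336421) (nat_lit 28) (.e (nat_lit 434181) (nat_lit 0) (.e (nat_lit 1428) (nat_lit 108) (.e (nat_lit 336421) (nat_lit 28) (.e (nat_lit 434180) (nat_lit 0) .nil)))))) (.g (nat_lit 0) .nil .nil))))) (.nd (nat_lit 4) (.nd (nat_lit 5) 
(.lf (nat_lit 56714) (.g (nat_lit 3459) (.e (nat_lit 1426) (nat_lit 108) (.e (nat_lit 336306) (nat_lit 15) (.e (nat_lit 3298) (nat_lit 202) (.e (nat_lit 573493) (nat_lit 15) (.e (nat_lit 81953) (nat_lit 22) (.e (nat_lit 90165) (nat_lit 12) (.e (nat_lit 164238) (nat_lit 187) .nil))))))) (.g (nat_lit 7) .nil .nil))) 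
(.lf (nat_lit 56746) (.g (nat_lit 2267) (.e (nat_lit 1426) (nat_lit 108) (.e (nat_lit 336421) (nat_lit 28) (.e (nat_lit 434180) (nat_lit 0) (.e (nat_lit 1428) (nat_lit 108) (.e (nat_lit 336421) (nat_lit 28) (.e (nat_lit 434180) (nat_lit 0) .nil)))))) (.g (nat_lit 0) .nil .nil)))) (.nd (nat_lit 5) 
(.lf (nat_lit 56730) (.g (nat_lit 612) (.e (nat_lit 1426) (nat_lit 108) (.e (nat_lit 336369) (nat_lit 27) (.e (nat_lit 426305) (nat_lit 12) .nil))) .nil)) 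
(.lf (nat_lit 56762) (.g (nat_lit 1063) (.e (nat_lit 1426) (nat_lit 108) (.e (nat_lit 336421) (nat_lit 28) (.e (nat_lit 434189) (nat_lit 13) (.e (nat_lit 2786) (nat_lit 179) (.e (nat_lit 294973) (nat_lit 28) (.e (nat_lit 434181) (nat_lit 0) .nil)))))) (.g (nat_lit 0) .nil .nil)))))) (.nd (nat_lit 3) (.nd (nat_lit 4) (.nd (nat_lit 5) 
(.lf (nat_lit 56710) (.g (nat_lit 3479) (.e (nat_lit 1426) (nat_lit 108) (.e (nat_lit 336306) (nat_lit 15) (.e (nat_lit 3298) (nat_lit 202) (.e (nat_lit 573481) (nat_lit 13) (.e (nat_lit 65604) (nat_lit 9) (.e (nat_lit 336013) (nat_lit 2) (.e (nat_lit 90165) (nat_lit 12) (.e (nat_lit 164238) (nat_lit 187) .nil)))))))) (.g (nat_lit 0) .nil .nil))) 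
(.lf (nat_lit 56742) (.g (nat_lit 1720) (.e (nat_lit 1426) (nat_lit 108) (.e (nat_lit 336421) (nat_lit 28) (.e (nat_lit 434180) (nat_lit 0) (.e (nat_lit 1426) (nat_lit 108) (.e (nat_lit 336421) (nat_lit 28) (.e (nat_lit 434180) (nat_lit 0) .nil)))))) (.g (nat_lit 0) .nil .nil)))) (.nd (nat_lit 5) 
(.lf (nat_lit 56726) (.g (nat_lit 4693) (.e (nat_lit 1426) (nat_lit 108) (.e (nat_lit 336324) (nat_lit 18) (.e (nat_lit 204831) (nat_lit 18) (.e (nat_lit 57848) (nat_lit 252) .nil)))) .nil)) 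
(.lf (nat_lit 56758) (.g (nat_lit 215) (.e (nat_lit 1426) (nat_lit 108) (.e (nat_lit 336421) (nat_lit 28) (.e (nat_lit 434187) (nat_lit 13) .nil))) .nil)))) (.nd (nat_lit 4) (.nd (nat_lit 5) 
(.lf (nat_lit 56718) (.g (nat_lit 3069) (.e (nat_lit 1426) (nat_lit 108) (.e (nat_lit 336306) (nat_lit 15) (.e (nat_lit 3307) (nat_lit 202) (.e (nat_lit 573485) (nat_lit 13) (.e (nat_lit 65604) (nat_lit 9) (.e (nat_lit 336028) (nat_lit 3) (.e (nat_lit 98325) (nat_lit 17) (.e (nat_lit 7554) (nat_lit 402) .nil)))))))) (.g (nat_lit 7) .nil .nil))) 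
(.lf (nat_lit 56750) (.g (nat_lit 1419) (.e (nat_lit 1426) (nat_lit 108) (.e (nat_lit 336421) (nat_lit 28) (.e (nat_lit 434181) (nat_lit 0) (.e (nat_lit 1425) (nat_lit 108) (.e (nat_lit 336421) (nat_lit 28) (.e (nat_lit 434181) (nat_lit 0) .nil)))))) (.g (nat_lit 0) .nil .nil)))) (.nd (nat_lit 5) 
(.lf (nat_lit 56734) (.g (nat_lit 2079) (.e (nat_lit 1426) (nat_lit 108) (.e (nat_lit 336395) (nat_lit 27) (.e (nat_lit 426340) (nat_lit 14) (.e (nat_lit 491550) (nat_lit 9) (.e (nat_lit 336421) (nat_lit 28) (.e (nat_lit 434180) (nat_lit 0) .nil)))))) (.g (nat_lit 0) .nil .nil))) 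
(.lf (nat_lit 56766) (.g (nat_lit 1015) (.e (nat_lit 1426) (nat_lit 108) (.e (nat_lit 336421) (nat_lit 28) (.e (nat_lit 434193) (nat_lit 13) (.e (nat_lit 2789) (nat_lit 179) (.e (nat_lit 294973) (nat_lit 28) (.e (nat_lit 434181) (nat_lit 0) .nil)))))) (.g (nat_lit 4) .nil .nil)))))))) (.nd (nat_lit 1) (.nd (nat_lit 2) (.nd (nat_lit 3) (.nd (nat_lit 4) (.nd (nat_lit 5) 
(.lf (nat_lit 56705) (.g (nat_lit 2501) (.e (nat_lit 1426) (nat_lit 108) (.e (nat_lit 336240) (nat_lit 15) (.e (nat_lit 3309) (nat_lit 202) (.e (nat_lit 573485) (nat_lit 13) (.e (nat_lit 65604) (nat_lit 9) (.e (nat_lit 336013) (nat_lit 2) (.e (nat_lit 90165) (nat_lit 12) (.e (nat_lit 164238) (nat_lit 187) .nil)))))))) (.g (nat_lit 5) .nil .nil))) 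
(.lf (nat_lit 56737) (.g (nat_lit 1095) (.e (nat_lit 1426) (nat_lit 108) (.e (nat_lit 336421) (nat_lit 28) (.e (nat_lit 434179) (nat_lit 0) (.e (nat_lit 1512) (nat_lit 108) (.e (nat_lit 336420) (nat_lit 28) (.e (nat_lit 434181) (nat_lit 0) .nil)))))) (.g (nat_lit 0) .nil .nil)))) (.nd (nat_lit 5) 
(.lf (nat_lit 56721) (.g (nat_lit 2990) (.e (nat_lit 1426) (nat_lit 108) (.e (nat_lit 336306) (nat_lit 15) (.e (nat_lit 3308) (nat_lit 202) (.e (nat_lit 573482) (nat_lit 13) (.e (nat_lit 65604) (nat_lit 9) (.e (nat_lit 336028) (nat_lit 3) (.e (nat_lit 98325) (nat_lit 17) (.e (nat_lit 7554) (nat_lit 402) .nil)))))))) (.g (nat_lit 7) .nil .nil))) 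
(.lf (nat_lit 56753) (.g (nat_lit 2321) (.e (nat_lit 1426) (nat_lit 108) (.e (nat_lit 336421) (nat_lit 28) (.e (nat_lit 434181) (nat_lit 0) (.e (nat_lit 1427) (nat_lit 108) (.e (nat_lit 336421) (nat_lit 28) (.e (nat_lit 434181) (nat_lit 0) .nil)))))) (.g (nat_lit 0) .nil .nil))))) (.nd (nat_lit 4) (.nd (nat_lit 5) 
(.lf (nat_lit 56713) (.g (nat_lit 2838) (.e (nat_lit 1426) (nat_lit 108) (.e (nat_lit 336306) (nat_lit 15) (.e (nat_lit 3298) (nat_lit 202) (.e (nat_lit 573492) (nat_lit 15) (.e (nat_lit 81953) (nat_lit 22) (.e (nat_lit 90165) (nat_lit 12) (.e (nat_lit 164238) (nat_lit 187) .nil))))))) (.g (nat_lit 0) .nil .nil))) 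
(.lf (nat_lit 56745) (.g (nat_lit 2601) (.e (nat_lit 1426) (nat_lit 108) (.e (nat_lit 336421) (nat_lit 28) (.e (nat_lit 434180) (nat_lit 0) (.e (nat_lit 1427) (nat_lit 108) (.e (nat_lit 336421) (nat_lit 28) (.e (nat_lit 434181) (nat_lit 0) .nil)))))) (.g (nat_lit 0) .nil .nil)))) (.nd (nat_lit 5) 
(.lf (nat_lit 56729) (.g (nat_lit 4146) (.e (nat_lit 1426) (nat_lit 108) (.e (nat_lit 336324) (nat_lit 18) (.e (nat_lit 204831) (nat_lit 18) (.e (nat_lit 57854) (nat_lit 252) .nil)))) .nil)) 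
(.lf (nat_lit 56761) (.g (nat_lit 1030) (.e (nat_lit 1426) (nat_lit 108) (.e (nat_lit 336421) (nat_lit 28) (.e (nat_lit 434189) (nat_lit 13) (.e (nat_lit 2786) (nat_lit 179) (.e (nat_lit 294973) (nat_lit 28) (.e (nat_lit 434180) (nat_lit 0) .nil)))))) (.g (nat_lit 6) .nil .nil)))))) (.nd (nat_lit 3) (.nd (nat_lit 4) (.nd (nat_lit 5) 
(.lf (nat_lit 56709) (.g (nat_lit 3081) (.e (nat_lit 1426) (nat_lit 108) (.e (nat_lit 336306) (nat_lit 15) (.e (nat_lit 3297) (nat_lit 202) (.e (nat_lit 573492) (nat_lit 15) (.e (nat_lit 81953) (nat_lit 22) (.e (nat_lit 90165) (nat_lit 12) (.e (nat_lit 164238) (nat_lit 187) .nil))))))) (.g (nat_lit 0) .nil .nil))) 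
(.lf (nat_lit 56741) (.g (nat_lit 1535) (.e (nat_lit 1426) (nat_lit 108) (.e (nat_lit 336421) (nat_lit 28) (.e (nat_lit 434180) (nat_lit 0) (.e (nat_lit 1425) (nat_lit 108) (.e (nat_lit 336421) (nat_lit 28) (.e (nat_lit 434181) (nat_lit 0) .nil)))))) (.g (nat_lit 0) .nil .nil)))) (.nd (nat_lit 5) 
(.lf (nat_lit 56725) (.g (nat_lit 588) (.e (nat_lit 1426) (nat_lit 108) (.e (nat_lit 336324) (nat_lit 18) (.e (nat_lit 204831) (nat_lit 18) .nil))) .nil)) 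
(.lf (nat_lit 56757) (.g (nat_lit 1522) (.e (nat_lit 1426) (nat_lit 108) (.e (nat_lit 336421) (nat_lit 28) (.e (nat_lit 434181) (nat_lit 0) (.e (nat_lit 1661) (nat_lit 115) (.e (nat_lit 393242) (nat_lit 17) (.e (nat_lit 7554) (nat_lit 402) .nil)))))) (.g (nat_lit 4) .nil .nil))))) (.nd (nat_lit 4) (.nd (nat_lit 5) 
(.lf (nat_lit 56717) (.g (nat_lit 4064) (.e (nat_lit 1426) (nat_lit 108) (.e (nat_lit 336306) (nat_lit 15) (.e (nat_lit 3307) (nat_lit 202) (.e (nat_lit 573485) (nat_lit 13) (.e (nat_lit 65604) (nat_lit 9) (.e (nat_lit 336013) (nat_lit 2) (.e (nat_lit 90165) (nat_lit 12) (.e (nat_lit 164238) (nat_lit 187) .nil)))))))) (.g (nat_lit 0) .nil .nil))) 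
(.lf (nat_lit 56749) (.g (nat_lit 1375) (.e (nat_lit 1426) (nat_lit 108) (.e (nat_lit 336421) (nat_lit 28) (.e (nat_lit 434180) (nat_lit 0) (.e (nat_lit 1661) (nat_lit 115) (.e (nat_lit 393242) (nat_lit 17) (.e (nat_lit 7554) (nat_lit 402) .nil)))))) (.g (nat_lit 4) .nil .nil)))) (.nd (nat_lit 5) 
(.lf (nat_lit 56733) (.g (nat_lit 2127) (.e (nat_lit 1426) (nat_lit 108) (.e (nat_lit 336395) (nat_lit 27) (.e (nat_lit 426340) (nat_lit 14) (.e (nat_lit 491549) (nat_lit 9) (.e (nat_lit 336421) (nat_lit 28) (.e (nat_lit 434180) (nat_lit 0) .nil)))))) (.g (nat_lit 5) .nil .nil))) 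
(.lf (nat_lit 56765) (.g (nat_lit 959) (.e (nat_lit 1426) (nat_lit 108) (.e (nat_lit 336421) (nat_lit 28) (.e (nat_lit 434193) (nat_lit 13) (.e (nat_lit 2789) (nat_lit 179) (.e (nat_lit 294973) (nat_lit 28) (.e (nat_lit 434180) (nat_lit 0) .nil)))))) (.g (nat_lit 4) .nil .nil))))))) (.nd (nat_lit 2) (.nd (nat_lit 3) (.nd (nat_lit 4) (.nd (nat_lit 5) 
(.lf (nat_lit 56707) (.g (nat_lit 4292) (.e (nat_lit 1426) (nat_lit 108) (.e (nat_lit 336306) (nat_lit 15) (.e (nat_lit 3297) (nat_lit 202) (.e (nat_lit 573481) (nat_lit 13) (.e (nat_lit 65619) (nat_lit 10) (.e (nat_lit 344117) (nat_lit 21) (.e (nat_lit 516106) (nat_lit 0) (.e (nat_lit 7556) (nat_lit 402) .nil)))))))) (.g (nat_lit 0) .nil .nil))) 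
(.lf (nat_lit 56739) (.g (nat_lit 1050) (.e (nat_lit 1426) (nat_lit 108) (.e (nat_lit 336421) (nat_lit 28) (.e (nat_lit 434179) (nat_lit 0) (.e (nat_lit 1516) (nat_lit 108) (.e (nat_lit 336420) (nat_lit 28) (.e (nat_lit 434181) (nat_lit 0) .nil)))))) (.g (nat_lit 0) .nil .nil)))) (.nd (nat_lit 5) 
(.lf (nat_lit 56723) (.g (nat_lit 2759) (.e (nat_lit 1426) (nat_lit 108) (.e (nat_lit 336306) (nat_lit 15) (.e (nat_lit 3308) (nat_lit 202) (.e (nat_lit 573491) (nat_lit 15) (.e (nat_lit 81951) (nat_lit 22) (.e (nat_lit 90165) (nat_lit 12) (.e (nat_lit 164238) (nat_lit 187) .nil))))))) (.g (nat_lit 0) .nil .nil))) 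
(.lf (nat_lit 56755) (.g (nat_lit 2329) (.e (nat_lit 1426) (nat_lit 108) (.e (nat_lit 336421) (nat_lit 28) (.e (nat_lit 434181) (nat_lit 0) (.e (nat_lit 1428) (nat_lit 108) (.e (nat_lit 336421) (nat_lit 28) (.e (nat_lit 434181) (nat_lit 0) .nil)))))) (.g (nat_lit 0) .nil .nil))))) (.nd (nat_lit 4) (.nd (nat_lit 5) 
(.lf (nat_lit 56715) (.g (nat_lit 3288) (.e (nat_lit 1426) (nat_lit 108) (.e (nat_lit 336306) (nat_lit 15) (.e (nat_lit 3298) (nat_lit 202) (.e (nat_lit 573493) (nat_lit 15) (.e (nat_lit 81953) (nat_lit 22) (.e (nat_lit 90165) (nat_lit 12) (.e (nat_lit 164239) (nat_lit 187) .nil))))))) (.g (nat_lit 7) .nil .nil))) 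
(.lf (nat_lit 56747) (.g (nat_lit 2222) (.e (nat_lit 1426) (nat_lit 108) (.e (nat_lit 336421) (nat_lit 28) (.e (nat_lit 434180) (nat_lit 0) (.e (nat_lit 1428) (nat_lit 108) (.e (nat_lit 336421) (nat_lit 28) (.e (nat_lit 434181) (nat_lit 0) .nil)))))) (.g (nat_lit 0) .nil .nil)))) (.nd (nat_lit 5) 
(.lf (nat_lit 56731) (.g (nat_lit 1953) (.e (nat_lit 1426) (nat_lit 108) (.e (nat_lit 336369) (nat_lit 27) (.e (nat_lit 426317) (nat_lit 12) (.e (nat_lit 475198) (nat_lit 40) (.e (nat_lit 704595) (nat_lit 5) .nil))))) .nil)) 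
(.lf (nat_lit 56763) (.g (nat_lit 1217) (.e (nat_lit 1426) (nat_lit 108) (.e (nat_lit 336421) (nat_lit 28) (.e (nat_lit 434189) (nat_lit 13) (.e (nat_lit 2788) (nat_lit 179) (.e (nat_lit 294973) (nat_lit 28) (.e (nat_lit 434181) (nat_lit 0) .nil)))))) (.g (nat_lit 0) .nil .nil)))))) (.nd (nat_lit 3) (.nd (nat_lit 4) (.nd (nat_lit 5) 
(.lf (nat_lit 56711) (.g (nat_lit 3962) (.e (nat_lit 1426) (nat_lit 108) (.e (nat_lit 336306) (nat_lit 15) (.e (nat_lit 3298) (nat_lit 202) (.e (nat_lit 573481) (nat_lit 13) (.e (nat_lit 65619) (nat_lit 10) (.e (nat_lit 344117) (nat_lit 21) (.e (nat_lit 516106) (nat_lit 0) (.e (nat_lit 7556) (nat_lit 402) .nil)))))))) (.g (nat_lit 0) .nil .nil))) 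
(.lf (nat_lit 56743) (.g (nat_lit 1641) (.e (nat_lit 1426) (nat_lit 108) (.e (nat_lit 336421) (nat_lit 28) (.e (nat_lit 434180) (nat_lit 0) (.e (nat_lit 1426) (nat_lit 108) (.e (nat_lit 336421) (nat_lit 28) (.e (nat_lit 434181) (nat_lit 0) .nil)))))) (.g (nat_lit 0) .nil .nil)))) (.nd (nat_lit 5) 
(.lf (nat_lit 56727) (.g (nat_lit 4810) (.e (nat_lit 1426) (nat_lit 108) (.e (nat_lit 336324) (nat_lit 18) (.e (nat_lit 204831) (nat_lit 18) (.e (nat_lit 57849) (nat_lit 252) .nil)))) .nil)) 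
(.lf (nat_lit 56759) (.g (nat_lit 998) (.e (nat_lit 1426) (nat_lit 108) (.e (nat_lit 336421) (nat_lit 28) (.e (nat_lit 434188) (nat_lit 13) (.e (nat_lit 2789) (nat_lit 179) (.e (nat_lit 294973) (nat_lit 28) (.e (nat_lit 434180) (nat_lit 0) .nil)))))) (.g (nat_lit 4) .nil .nil))))) (.nd (nat_lit 4) (.nd (nat_lit 5) 
(.lf (nat_lit 56719) (.g (nat_lit 4314) (.e (nat_lit 1426) (nat_lit 108) (.e (nat_lit 336306) (nat_lit 15) (.e (nat_lit 3307) (nat_lit 202) (.e (nat_lit 573485) (nat_lit 13) (.e (nat_lit 65619) (nat_lit 10) (.e (nat_lit 344117) (nat_lit 21) (.e (nat_lit 516106) (nat_lit 0) (.e (nat_lit 7556) (nat_lit 402) .nil)))))))) (.g (nat_lit 0) .nil .nil))) 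
(.lf (nat_lit 56751) (.g (nat_lit 1566) (.e (nat_lit 1426) (nat_lit 108) (.e (nat_lit 336421) (nat_lit 28) (.e (nat_lit 434181) (nat_lit 0) (.e (nat_lit 1426) (nat_lit 108) (.e (nat_lit 336421) (nat_lit 28) (.e (nat_lit 434181) (nat_lit 0) .nil)))))) (.g (nat_lit 0) .nil .nil)))) (.nd (nat_lit 5) 
(.lf (nat_lit 56735) (.g (nat_lit 2031) (.e (nat_lit 1426) (nat_lit 108) (.e (nat_lit 336395) (nat_lit 27) (.e (nat_lit 426340) (nat_lit 14) (.e (nat_lit 491550) (nat_lit 9) (.e (nat_lit 336421) (nat_lit 28) (.e (nat_lit 434181) (nat_lit 0) .nil)))))) (.g (nat_lit 0) .nil .nil))) 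
(.lf (nat_lit 56767) (.g (nat_lit 1400) (.e (nat_lit 1426) (nat_lit 108) (.e (nat_lit 336421) (nat_lit 28) (.e (nat_lit 434198) (nat_lit 17) (.e (nat_lit 229644) (nat_lit 232) (.e (nat_lit 447) (nat_lit 33) (.e (nat_lit 434181) (nat_lit 0) .nil)))))) (.g (nat_lit 0) .nil .nil)))))))))

noncomputable def tv781 : DT := (.nd (nat_lit 0) (.nd (nat_lit 1) (.nd (nat_lit 2) (.nd (nat_lit 3) (.nd (nat_lit 4) (.nd (nat_lit 5) 
(.lf (nat_lit 56768) (.g (nat_lit 1514) (.e (nat_lit 1426) (nat_lit 108) (.e (nat_lit 336421) (nat_lit 28) (.e (nat_lit 434198) (nat_lit 17) (.e (nat_lit 229646) (nat_lit 232) (.e (nat_lit 447) (nat_lit 33) (.e (nat_lit 434181) (nat_lit 0) .nil)))))) (.g (nat_lit 0) .nil .nil))) 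
(.lf (nat_lit 56800) (.g (nat_lit 1182) (.e (nat_lit 1426) (nat_lit 108) (.e (nat_lit 336434) (nat_lit 30) (.e (nat_lit 450564) (nat_lit 0) (.e (nat_lit 5547) (nat_lit 306) (.e (nat_lit 2640) (nat_lit 165) .nil))))) .nil))) (.nd (nat_lit 5) 
(.lf (nat_lit 56784) (.g (nat_lit 2272) (.e (nat_lit 1426) (nat_lit 108) (.e (nat_lit 336430) (nat_lit 29) (.e (nat_lit 442379) (nat_lit 0) (.e (nat_lit 2056) (nat_lit 142) (.e (nat_lit 704595) (nat_lit 5) (.e (nat_lit 180278) (nat_lit 32) .nil)))))) (.g (nat_lit 0) .nil .nil))) 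
(.lf (nat_lit 56816) (.g (nat_lit 3670) (.e (nat_lit 1427) (nat_lit 108) (.e (nat_lit 336240) (nat_lit 15) (.e (nat_lit 3309) (nat_lit 202) (.e (nat_lit 573485) (nat_lit 13) (.e (nat_lit 65604) (nat_lit 9) (.e (nat_lit 336013) (nat_lit 2) (.e (nat_lit 90165) (nat_lit 12) (.e (nat_lit 164239) (nat_lit 187) .nil)))))))) (.g (nat_lit 6) .nil .nil))))) (.nd (nat_lit 4) (.nd (nat_lit 5) 
(.lf (nat_lit 56776) (.g (nat_lit 1622) (.e (nat_lit 1426) (nat_lit 108) (.e (nat_lit 336430) (nat_lit 29) (.e (nat_lit 442376) (nat_lit 0) (.e (nat_lit 2143) (nat_lit 142) (.e (nat_lit 704594) (nat_lit 5) (.e (nat_lit 180278) (nat_lit 32) .nil)))))) (.g (nat_lit 0) .nil .nil))) 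
(.lf (nat_lit 56808) (.g (nat_lit 4091) (.e (nat_lit 1426) (nat_lit 108) (.e (nat_lit 336454) (nat_lit 34) (.e (nat_lit 483365) (nat_lit 18) (.e (nat_lit 57854) (nat_lit 252) .nil)))) .nil))) (.nd (nat_lit 5) 
(.lf (nat_lit 56792) (.g (nat_lit 1851) (.e (nat_lit 1426) (nat_lit 108) (.e (nat_lit 336430) (nat_lit 29) (.e (nat_lit 442402) (nat_lit 20) (.e (nat_lit 3409) (nat_lit 212) (.e (nat_lit 655379) (nat_lit 5) (.e (nat_lit 180277) (nat_lit 32) .nil)))))) (.g (nat_lit 0) .nil .nil))) 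
(.lf (nat_lit 56824) (.g (nat_lit 2545) (.e (nat_lit 1427) (nat_lit 108) (.e (nat_lit 336306) (nat_lit 15) (.e (nat_lit 3297) (nat_lit 202) (.e (nat_lit 573481) (nat_lit 13) (.e (nat_lit 65619) (nat_lit 10) (.e (nat_lit 344117) (nat_lit 21) (.e (nat_lit 516098) (nat_lit 0) (.e (nat_lit 7513) (nat_lit 402) .nil)))))))) (.g (nat_lit 5) .nil .nil)))))) 
(.nd (nat_lit 3) (.nd (nat_lit 4) (.nd (nat_lit 5) 
(.lf (nat_lit 56772) (.g (nat_lit 2634) (.e (nat_lit 1426) (nat_lit 108) (.e (nat_lit 336428) (nat_lit 29) (.e (nat_lit 442374) (nat_lit 0) (.e (nat_lit 2058) (nat_lit 142) (.e (nat_lit 704595) (nat_lit 5) (.e (nat_lit 180278) (nat_lit 32) .nil)))))) (.g (nat_lit 6) .nil .nil))) 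
(.lf (nat_lit 56804) (.g (nat_lit 1634) (.e (nat_lit 1426) (nat_lit 108) (.e (nat_lit 336443) (nat_lit 32) (.e (nat_lit 466969) (nat_lit 21) (.e (nat_lit 164346) (nat_lit 240) .nil)))) .nil))) (.nd (nat_lit 5) 
(.lf (nat_lit 56788) (.g (nat_lit 3284) (.e (nat_lit 1426) (nat_lit 108) (.e (nat_lit 336430) (nat_lit 29) (.e (nat_lit 442379) (nat_lit 0) (.e (nat_lit 2059) (nat_lit 142) (.e (nat_lit 704595) (nat_lit 5) (.e (nat_lit 180278) (nat_lit 32) .nil)))))) (.g (nat_lit 0) .nil .nil))) 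
(.lf (nat_lit 56820) (.g (nat_lit 1929) (.e (nat_lit 1427) (nat_lit 108) (.e (nat_lit 336260) (nat_lit 15) (.e (nat_lit 3308) (nat_lit 202) (.e (nat_lit 573482) (nat_lit 13) (.e (nat_lit 65604) (nat_lit 9) (.e (nat_lit 336013) (nat_lit 2) (.e (nat_lit 90165) (nat_lit 12) (.e (nat_lit 164239) (nat_lit 187) .nil)))))))) (.g (nat_lit 4) .nil .nil))))) (.nd (nat_lit 4) (.nd (nat_lit 5) 
(.lf (nat_lit 56780) (.g (nat_lit 1378) (.e (nat_lit 1426) (nat_lit 108) (.e (nat_lit 336430) (nat_lit 29) (.e (nat_lit 442376) (nat_lit 0) (.e (nat_lit 2148) (nat_lit 142) (.e (nat_lit 704594) (nat_lit 5) (.e (nat_lit 180278) (nat_lit 32) .nil)))))) (.g (nat_lit 0) .nil .nil))) 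
(.lf (nat_lit 56812) (.g (nat_lit 2083) (.e (nat_lit 1427) (nat_lit 108) (.e (nat_lit 336211) (nat_lit 13) (.e (nat_lit 393300) (nat_lit 27) (.e (nat_lit 491560) (nat_lit 10) (.e (nat_lit 344174) (nat_lit 42) (.e (nat_lit 761871) (nat_lit 5) .nil)))))) (.g (nat_lit 4) .nil .nil)))) (.nd (nat_lit 5) 
(.lf (nat_lit 56796) (.g (nat_lit 1853) (.e (nat_lit 1426) (nat_lit 108) (.e (nat_lit 336430) (nat_lit 29) (.e (nat_lit 442409) (nat_lit 20) (.e (nat_lit 3409) (nat_lit 212) (.e (nat_lit 655379) (nat_lit 5) (.e (nat_lit 180277) (nat_lit 32) .nil)))))) (.g (nat_lit 0) .nil .nil))) 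
(.lf (nat_lit 56828) (.g (nat_lit 2133) (.e (nat_lit 1427) (nat_lit 108) (.e (nat_lit 336306) (nat_lit 15) (.e (nat_lit 3307) (nat_lit 202) (.e (nat_lit 573485) (nat_lit 13) (.e (nat_lit 65619) (nat_lit 10) (.e (nat_lit 344117) (nat_lit 21) (.e (nat_lit 516097) (nat_lit 0) (.e (nat_lit 7523) (nat_lit 402) .nil)))))))) (.g (nat_lit 4) .nil .nil))))))) 
(.nd (nat_lit 2) (.nd (nat_lit 3) (.nd (nat_lit 4) (.nd (nat_lit 5) 
(.lf (nat_lit 56770) (.g (nat_lit 1511) (.e (nat_lit 1426) (nat_lit 108) (.e (nat_lit 336428) (nat_lit 29) (.e (nat_lit 442374) (nat_lit 0) (.e (nat_lit 2057) (nat_lit 142) (.e (nat_lit 704595) (nat_lit 5) (.e (nat_lit 180278) (nat_lit 32) .nil)))))) (.g (nat_lit 4) .nil .nil))) 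
(.lf (nat_lit 56802) (.g (nat_lit 378) (.e (nat_lit 1426) (nat_lit 108) (.e (nat_lit 336438) (nat_lit 31) (.e (nat_lit 458769) (nat_lit 16) .nil))) .nil))) (.nd (nat_lit 5) 
(.lf (nat_lit 56786) (.g (nat_lit 1889) (.e (nat_lit 1426) (nat_lit 108) (.e (nat_lit 336430) (nat_lit 29) (.e (nat_lit 442379) (nat_lit 0) (.e (nat_lit 2058) (nat_lit 142) (.e (nat_lit 704596) (nat_lit 5) (.e (nat_lit 180277) (nat_lit 32) .nil)))))) (.g (nat_lit 4) .nil .nil))) 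
(.lf (nat_lit 56818) (.g (nat_lit 4211) (.e (nat_lit 1427) (nat_lit 108) (.e (nat_lit 336260) (nat_lit 15) (.e (nat_lit 3307) (nat_lit 202) (.e (nat_lit 573484) (nat_lit 13) (.e (nat_lit 65610) (nat_lit 10) (.e (nat_lit 344117) (nat_lit 21) (.e (nat_lit 516106) (nat_lit 0) (.e (nat_lit 7556) (nat_lit 402) .nil)))))))) (.g (nat_lit 6) .nil .nil))))) (.nd (nat_lit 4) (.nd (nat_lit 5) 
(.lf (nat_lit 56778) (.g (nat_lit 1276) (.e (nat_lit 1426) (nat_lit 108) (.e (nat_lit 336430) (nat_lit 29) (.e (nat_lit 442376) (nat_lit 0) (.e (nat_lit 2146) (nat_lit 142) (.e (nat_lit 712448) (nat_lit 5) (.e (nat_lit 180277) (nat_lit 32) .nil)))))) (.g (nat_lit 4) .nil .nil))) 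
(.lf (nat_lit 56810) (.g (nat_lit 2822) (.e (nat_lit 1427) (nat_lit 108) (.e (nat_lit 336114) (nat_lit 9) (.e (nat_lit 336369) (nat_lit 27) (.e (nat_lit 426173) (nat_lit 7) (.e (nat_lit 409649) (nat_lit 18) (.e (nat_lit 303111) (nat_lit 0) (.e (nat_lit 3459) (nat_lit 216) (.e (nat_lit 688161) (nat_lit 13) .nil)))))))) (.g (nat_lit 5) .nil .nil)))) (.nd (nat_lit 5) 
(.lf (nat_lit 56794) (.g (nat_lit 1581) (.e (nat_lit 1426) (nat_lit 108) (.e (nat_lit 336430) (nat_lit 29) (.e (nat_lit 442409) (nat_lit 20) (.e (nat_lit 3407) (nat_lit 212) (.e (nat_lit 655379) (nat_lit 5) (.e (nat_lit 180277) (nat_lit 32) .nil)))))) (.g (nat_lit 0) .nil .nil))) 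
(.lf (nat_lit 56826) (.g (nat_lit 4204) (.e (nat_lit 1427) (nat_lit 108) (.e (nat_lit 336306) (nat_lit 15) (.e (nat_lit 3298) (nat_lit 202) (.e (nat_lit 573492) (nat_lit 15) (.e (nat_lit 81953) (nat_lit 22) (.e (nat_lit 90161) (nat_lit 12) (.e (nat_lit 164238) (nat_lit 187) .nil))))))) (.g (nat_lit 5) .nil .nil)))))) (.nd (nat_lit 3) (.nd (nat_lit 4) (.nd (nat_lit 5) 
(.lf (nat_lit 56774) (.g (nat_lit 3236) (.e (nat_lit 1426) (nat_lit 108) (.e (nat_lit 336428) (nat_lit 29) (.e (nat_lit 442374) (nat_lit 0) (.e (nat_lit 2059) (nat_lit 142) (.e (nat_lit 704595) (nat_lit 5) (.e (nat_lit 180278) (nat_lit 32) .nil)))))) (.g (nat_lit 0) .nil .nil))) 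
(.lf (nat_lit 56806) (.g (nat_lit 1969) (.e (nat_lit 1426) (nat_lit 108) (.e (nat_lit 336443) (nat_lit 32) (.e (nat_lit 466971) (nat_lit 21) (.e (nat_lit 164346) (nat_lit 240) (.e (nat_lit 2638) (nat_lit 165) .nil))))) .nil))) (.nd (nat_lit 5) 
(.lf (nat_lit 56790) (.g (nat_lit 1704) (.e (nat_lit 1426) (nat_lit 108) (.e (nat_lit 336430) (nat_lit 29) (.e (nat_lit 442402) (nat_lit 20) (.e (nat_lit 3406) (nat_lit 212) (.e (nat_lit 655379) (nat_lit 5) (.e (nat_lit 180277) (nat_lit 32) .nil)))))) (.g (nat_lit 0) .nil .nil))) 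
(.lf (nat_lit 56822) (.g (nat_lit 2943) (.e (nat_lit 1427) (nat_lit 108) (.e (nat_lit 336306) (nat_lit 15) (.e (nat_lit 3297) (nat_lit 202) (.e (nat_lit 573451) (nat_lit 9) (.e (nat_lit 1595) (nat_lit 111) (.e (nat_lit 360467) (nat_lit 3) (.e (nat_lit 516100) (nat_lit 0) (.e (nat_lit 7562) (nat_lit 402) .nil)))))))) (.g (nat_lit 6) .nil .nil))))) (.nd (nat_lit 4) (.nd (nat_lit 5) 
(.lf (nat_lit 56782) (.g (nat_lit 1941) (.e (nat_lit 1426) (nat_lit 108) (.e (nat_lit 336430) (nat_lit 29) (.e (nat_lit 442377) (nat_lit 0) (.e (nat_lit 2059) (nat_lit 142) (.e (nat_lit 704596) (nat_lit 5) (.e (nat_lit 180277) (nat_lit 32) .nil)))))) (.g (nat_lit 5) .nil .nil))) 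
(.lf (nat_lit 56814) (.g (nat_lit 2526) (.e (nat_lit 1427) (nat_lit 108) (.e (nat_lit 336211) (nat_lit 13) (.e (nat_lit 393301) (nat_lit 27) (.e (nat_lit 491560) (nat_lit 10) (.e (nat_lit 344173) (nat_lit 42) .nil))))) .nil))) (.nd (nat_lit 5) 
(.lf (nat_lit 56798) (.g (nat_lit 1368) (.e (nat_lit 1426) (nat_lit 108) (.e (nat_lit 336430) (nat_lit 29) (.e (nat_lit 442421) (nat_lit 21) (.e (nat_lit 164346) (nat_lit 240) (.e (nat_lit 2640) (nat_lit 165) .nil))))) .nil)) 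
(.lf (nat_lit 56830) (.g (nat_lit 2595) (.e (nat_lit 1427) (nat_lit 108) (.e (nat_lit 336306) (nat_lit 15) (.e (nat_lit 3307) (nat_lit 202) (.e (nat_lit 573485) (nat_lit 13) (.e (nat_lit 65619) (nat_lit 10) (.e (nat_lit 344117) (nat_lit 21) (.e (nat_lit 516098) (nat_lit 0) (.e (nat_lit 7513) (nat_lit 402) .nil)))))))) (.g (nat_lit 5) .nil .nil)))))))) 
(.nd (nat_lit 1) (.nd (nat_lit 2) (.nd (nat_lit 3) (.nd (nat_lit 4) (.nd (nat_lit 5) 
(.lf (nat_lit 56769) (.g (nat_lit 500) (.e (nat_lit 1426) (nat_lit 108) (.e (nat_lit 336421) (nat_lit 28) (.e (nat_lit 434198) (nat_lit 17) (.e (nat_lit 229647) (nat_lit 232) .nil)))) .nil)) 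
(.lf (nat_lit 56801) (.g (nat_lit 1551) (.e (nat_lit 1426) (nat_lit 108) (.e (nat_lit 336434) (nat_lit 30) (.e (nat_lit 450593) (nat_lit 16) (.e (nat_lit 655379) (nat_lit 5) (.e (nat_lit 180277) (nat_lit 32) .nil))))) (.g (nat_lit 5) .nil .nil)))) (.nd (nat_lit 5) 
(.lf (nat_lit 56785) (.g (nat_lit 1336) (.e (nat_lit 1426) (nat_lit 108) (.e (nat_lit 336430) (nat_lit 29) (.e (nat_lit 442379) (nat_lit 0) (.e (nat_lit 2056) (nat_lit 142) (.e (nat_lit 704596) (nat_lit 5) (.e (nat_lit 180277) (nat_lit 32) .nil)))))) (.g (nat_lit 4) .nil .nil))) 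
(.lf (nat_lit 56817) (.g (nat_lit 2375) (.e (nat_lit 1427) (nat_lit 108) (.e (nat_lit 336260) (nat_lit 15) (.e (nat_lit 3307) (nat_lit 202) (.e (nat_lit 573484) (nat_lit 13) (.e (nat_lit 65610) (nat_lit 10) (.e (nat_lit 344117) (nat_lit 21) (.e (nat_lit 516099) (nat_lit 0) (.e (nat_lit 7562) (nat_lit 402) .nil)))))))) (.g (nat_lit 4) .nil .nil))))) (.nd (nat_lit 4) (.nd (nat_lit 5) 
(.lf (nat_lit 56777) (.g (nat_lit 1540) (.e (nat_lit 1426) (nat_lit 108) (.e (nat_lit 336430) (nat_lit 29) (.e (nat_lit 442376) (nat_lit 0) (.e (nat_lit 2146) (nat_lit 142) (.e (nat_lit 704594) (nat_lit 5) (.e (nat_lit 180278) (nat_lit 32) .nil)))))) (.g (nat_lit 0) .nil .nil))) 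
(.lf (nat_lit 56809) (.g (nat_lit 1725) (.e (nat_lit 1426) (nat_lit 108) (.e (nat_lit 336456) (nat_lit 34) (.e (nat_lit 483383) (nat_lit 23) (.e (nat_lit 336019) (nat_lit 3) .nil)))) .nil))) (.nd (nat_lit 5) 
(.lf (nat_lit 56793) (.g (nat_lit 1681) (.e (nat_lit 1426) (nat_lit 108) (.e (nat_lit 336430) (nat_lit 29) (.e (nat_lit 442409) (nat_lit 20) (.e (nat_lit 3406) (nat_lit 212) (.e (nat_lit 655379) (nat_lit 5) (.e (nat_lit 180277) (nat_lit 32) .nil)))))) (.g (nat_lit 0) .nil .nil))) 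
(.lf (nat_lit 56825) (.g (nat_lit 4457) (.e (nat_lit 1427) (nat_lit 108) (.e (nat_lit 336306) (nat_lit 15) (.e (nat_lit 3297) (nat_lit 202) (.e (nat_lit 573492) (nat_lit 15) (.e (nat_lit 81953) (nat_lit 22) (.e (nat_lit 90161) (nat_lit 12) (.e (nat_lit 164238) (nat_lit 187) .nil))))))) (.g (nat_lit 5) .nil .nil)))))) (.nd (nat_lit 3) (.nd (nat_lit 4) (.nd (nat_lit 5) 
(.lf (nat_lit 56773) (.g (nat_lit 3084) (.e (nat_lit 1426) (nat_lit 108) (.e (nat_lit 336428) (nat_lit 29) (.e (nat_lit 442374) (nat_lit 0) (.e (nat_lit 2059) (nat_lit 142) (.e (nat_lit 704595) (nat_lit 5) (.e (nat_lit 180277) (nat_lit 32) .nil)))))) (.g (nat_lit 6) .nil .nil))) 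
(.lf (nat_lit 56805) (.g (nat_lit 2151) (.e (nat_lit 1426) (nat_lit 108) (.e (nat_lit 336443) (nat_lit 32) (.e (nat_lit 466969) (nat_lit 21) (.e (nat_lit 164348) (nat_lit 240) (.e (nat_lit 2639) (nat_lit 165) .nil))))) .nil))) (.nd (nat_lit 5) 
(.lf (nat_lit 56789) (.g (nat_lit 2888) (.e (nat_lit 1426) (nat_lit 108) (.e (nat_lit 336430) (nat_lit 29) (.e (nat_lit 442379) (nat_lit 0) (.e (nat_lit 2059) (nat_lit 142) (.e (nat_lit 704596) (nat_lit 5) (.e (nat_lit 180277) (nat_lit 32) .nil)))))) (.g (nat_lit 6) .nil .nil))) 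
(.lf (nat_lit 56821) (.g (nat_lit 4057) (.e (nat_lit 1427) (nat_lit 108) (.e (nat_lit 336284) (nat_lit 15) (.e (nat_lit 3302) (nat_lit 202) (.e (nat_lit 573493) (nat_lit 15) (.e (nat_lit 81953) (nat_lit 22) (.e (nat_lit 90165) (nat_lit 12) (.e (nat_lit 164238) (nat_lit 187) .nil))))))) (.g (nat_lit 5) .nil .nil))))) (.nd (nat_lit 4) (.nd (nat_lit 5) 
(.lf (nat_lit 56781) (.g (nat_lit 2166) (.e (nat_lit 1426) (nat_lit 108) (.e (nat_lit 336430) (nat_lit 29) (.e (nat_lit 442377) (nat_lit 0) (.e (nat_lit 2059) (nat_lit 142) (.e (nat_lit 704595) (nat_lit 5) (.e (nat_lit 180277) (nat_lit 32) .nil)))))) (.g (nat_lit 5) .nil .nil))) 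
(.lf (nat_lit 56813) (.g (nat_lit 2985) (.e (nat_lit 1427) (nat_lit 108) (.e (nat_lit 336211) (nat_lit 13) (.e (nat_lit 393301) (nat_lit 27) (.e (nat_lit 491558) (nat_lit 10) (.e (nat_lit 344174) (nat_lit 42) (.e (nat_lit 761871) (nat_lit 5) .nil)))))) (.g (nat_lit 4) .nil .nil)))) (.nd (nat_lit 5) 
(.lf (nat_lit 56797) (.g (nat_lit 1527) (.e (nat_lit 1426) (nat_lit 108) (.e (nat_lit 336430) (nat_lit 29) (.e (nat_lit 442419) (nat_lit 21) (.e (nat_lit 164346) (nat_lit 240) (.e (nat_lit 2640) (nat_lit 165) .nil))))) .nil)) 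
(.lf (nat_lit 56829) (.g (nat_lit 2074) (.e (nat_lit 1427) (nat_lit 108) (.e (nat_lit 336306) (nat_lit 15) (.e (nat_lit 3307) (nat_lit 202) (.e (nat_lit 573485) (nat_lit 13) (.e (nat_lit 65619) (nat_lit 10) (.e (nat_lit 344117) (nat_lit 21) (.e (nat_lit 516098) (nat_lit 0) (.e (nat_lit 7511) (nat_lit 402) .nil)))))))) (.g (nat_lit 4) .nil .nil))))))) 
(.nd (nat_lit 2) (.nd (nat_lit 3) (.nd (nat_lit 4) (.nd (nat_lit 5) 
(.lf (nat_lit 56771) (.g (nat_lit 2478) (.e (nat_lit 1426) (nat_lit 108) (.e (nat_lit 336428) (nat_lit 29) (.e (nat_lit 442374) (nat_lit 0) (.e (nat_lit 2058) (nat_lit 142) (.e (nat_lit 704595) (nat_lit 5) (.e (nat_lit 180277) (nat_lit 32) .nil)))))) (.g (nat_lit 5) .nil .nil))) 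
(.lf (nat_lit 56803) (.g (nat_lit 1182) (.e (nat_lit 1426) (nat_lit 108) (.e (nat_lit 336443) (nat_lit 32) (.e (nat_lit 466968) (nat_lit 21) .nil))) .nil))) (.nd (nat_lit 5) 
(.lf (nat_lit 56787) (.g (nat_lit 3207) (.e (nat_lit 1426) (nat_lit 108) (.e (nat_lit 336430) (nat_lit 29) (.e (nat_lit 442379) (nat_lit 0) (.e (nat_lit 2059) (nat_lit 142) (.e (nat_lit 704595) (nat_lit 5) (.e (nat_lit 180277) (nat_lit 32) .nil)))))) (.g (nat_lit 6) .nil .nil))) 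
(.lf (nat_lit 56819) (.g (nat_lit 2277) (.e (nat_lit 1427) (nat_lit 108) (.e (nat_lit 336260) (nat_lit 15) (.e (nat_lit 3307) (nat_lit 202) (.e (nat_lit 573485) (nat_lit 13) (.e (nat_lit 65604) (nat_lit 9) (.e (nat_lit 336013) (nat_lit 2) (.e (nat_lit 90165) (nat_lit 12) (.e (nat_lit 164239) (nat_lit 187) .nil)))))))) (.g (nat_lit 4) .nil .nil))))) (.nd (nat_lit 4) (.nd (nat_lit 5) 
(.lf (nat_lit 56779) (.g (nat_lit 1636) (.e (nat_lit 1426) (nat_lit 108) (.e (nat_lit 336430) (nat_lit 29) (.e (nat_lit 442376) (nat_lit 0) (.e (nat_lit 2147) (nat_lit 142) (.e (nat_lit 704594) (nat_lit 5) (.e (nat_lit 180278) (nat_lit 32) .nil)))))) (.g (nat_lit 0) .nil .nil))) 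
(.lf (nat_lit 56811) (.g (nat_lit 2129) (.e (nat_lit 1427) (nat_lit 108) (.e (nat_lit 336211) (nat_lit 13) (.e (nat_lit 393300) (nat_lit 27) (.e (nat_lit 491558) (nat_lit 10) (.e (nat_lit 344174) (nat_lit 42) (.e (nat_lit 761871) (nat_lit 5) .nil)))))) (.g (nat_lit 4) .nil .nil)))) (.nd (nat_lit 5) 
(.lf (nat_lit 56795) (.g (nat_lit 1692) (.e (nat_lit 1426) (nat_lit 108) (.e (nat_lit 336430) (nat_lit 29) (.e (nat_lit 442409) (nat_lit 20) (.e (nat_lit 3408) (nat_lit 212) (.e (nat_lit 655379) (nat_lit 5) (.e (nat_lit 180277) (nat_lit 32) .nil)))))) (.g (nat_lit 0) .nil .nil))) 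
(.lf (nat_lit 56827) (.g (nat_lit 3805) (.e (nat_lit 1427) (nat_lit 108) (.e (nat_lit 336306) (nat_lit 15) (.e (nat_lit 3307) (nat_lit 202) (.e (nat_lit 573484) (nat_lit 13) (.e (nat_lit 65610) (nat_lit 10) (.e (nat_lit 344117) (nat_lit 21) (.e (nat_lit 516099) (nat_lit 0) (.e (nat_lit 7562) (nat_lit 402) .nil)))))))) (.g (nat_lit 6) .nil .nil)))))) 
(.nd (nat_lit 3) (.nd (nat_lit 4) (.nd (nat_lit 5) 
(.lf (nat_lit 56775) (.g (nat_lit 2782) (.e (nat_lit 1426) (nat_lit 108) (.e (nat_lit 336428) (nat_lit 29) (.e (nat_lit 442374) (nat_lit 0) (.e (nat_lit 2059) (nat_lit 142) (.e (nat_lit 704596) (nat_lit 5) (.e (nat_lit 180277) (nat_lit 32) .nil)))))) (.g (nat_lit 6) .nil .nil))) 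
(.lf (nat_lit 56807) (.g (nat_lit 1900) (.e (nat_lit 1426) (nat_lit 108) (.e (nat_lit 336443) (nat_lit 32) (.e (nat_lit 466971) (nat_lit 21) (.e (nat_lit 164346) (nat_lit 240) (.e (nat_lit 2639) (nat_lit 165) .nil))))) .nil))) (.nd (nat_lit 5) 
(.lf (nat_lit 56791) (.g (nat_lit 1651) (.e (nat_lit 1426) (nat_lit 108) (.e (nat_lit 336430) (nat_lit 29) (.e (nat_lit 442402) (nat_lit 20) (.e (nat_lit 3408) (nat_lit 212) (.e (nat_lit 655379) (nat_lit 5) (.e (nat_lit 180277) (nat_lit 32) .nil)))))) (.g (nat_lit 0) .nil .nil))) 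
(.lf (nat_lit 56823) (.g (nat_lit 2024) (.e (nat_lit 1427) (nat_lit 108) (.e (nat_lit 336306) (nat_lit 15) (.e (nat_lit 3297) (nat_lit 202) (.e (nat_lit 573481) (nat_lit 13) (.e (nat_lit 65619) (nat_lit 10) (.e (nat_lit 344117) (nat_lit 21) (.e (nat_lit 516098) (nat_lit 0) (.e (nat_lit 7511) (nat_lit 402) .nil)))))))) (.g (nat_lit 4) .nil .nil))))) (.nd (nat_lit 4) (.nd (nat_lit 5) 
(.lf (nat_lit 56783) (.g (nat_lit 2123) (.e (nat_lit 1426) (nat_lit 108) (.e (nat_lit 336430) (nat_lit 29) (.e (nat_lit 442379) (nat_lit 0) (.e (nat_lit 2056) (nat_lit 142) (.e (nat_lit 704595) (nat_lit 5) (.e (nat_lit 180277) (nat_lit 32) .nil)))))) (.g (nat_lit 6) .nil .nil))) 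
(.lf (nat_lit 56815) (.g (nat_lit 3424) (.e (nat_lit 1427) (nat_lit 108) (.e (nat_lit 336211) (nat_lit 13) (.e (nat_lit 393301) (nat_lit 27) (.e (nat_lit 491560) (nat_lit 10) (.e (nat_lit 344174) (nat_lit 42) (.e (nat_lit 761871) (nat_lit 5) .nil)))))) (.g (nat_lit 4) .nil .nil)))) (.nd (nat_lit 5) 
(.lf (nat_lit 56799) (.g (nat_lit 541) (.e (nat_lit 1426) (nat_lit 108) (.e (nat_lit 336430) (nat_lit 29) (.e (nat_lit 442429) (nat_lit 24) .nil))) .nil)) 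
(.lf (nat_lit 56831) (.g (nat_lit 2147) (.e (nat_lit 1427) (nat_lit 108) (.e (nat_lit 336306) (nat_lit 15) (.e (nat_lit 3308) (nat_lit 202) (.e (nat_lit 573482) (nat_lit 13) (.e (nat_lit 65619) (nat_lit 10) (.e (nat_lit 344117) (nat_lit 21) (.e (nat_lit 516097) (nat_lit 0) (.e (nat_lit 7523) (nat_lit 402) .nil)))))))) (.g (nat_lit 4) .nil .nil)))))))))

noncomputable def tv782 : DT := (.nd (nat_lit 0) (.nd (nat_lit 1) (.nd (nat_lit 2) (.nd (nat_lit 3) (.nd (nat_lit 4) (.nd (nat_lit 5) 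
(.lf (nat_lit 56832) (.g (nat_lit 2128) (.e (nat_lit 1427) (nat_lit 108) (.e (nat_lit 336306) (nat_lit 15) (.e (nat_lit 3308) (nat_lit 202) (.e (nat_lit 573482) (nat_lit 13) (.e (nat_lit 65619) (nat_lit 10) (.e (nat_lit 344117) (nat_lit 21) (.e (nat_lit 516098) (nat_lit 0) (.e (nat_lit 7511) (nat_lit 402) .nil)))))))) (.g (nat_lit 4) .nil .nil))) 
(.lf (nat_lit 56864) (.g (nat_lit 2866) (.e (nat_lit 1427) (nat_lit 108) (.e (nat_lit 336395) (nat_lit 27) (.e (nat_lit 426317) (nat_lit 12) (.e (nat_lit 475198) (nat_lit 40) (.e (nat_lit 704596) (nat_lit 5) (.e (nat_lit 180277) (nat_lit 32) .nil)))))) (.g (nat_lit 5) .nil .nil)))) (.nd (nat_lit 5) 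
(.lf (nat_lit 56848) (.g (nat_lit 1507) (.e (nat_lit 1427) (nat_lit 108) (.e (nat_lit 336369) (nat_lit 27) (.e (nat_lit 426173) (nat_lit 7) (.e (nat_lit 417536) (nat_lit 16) .nil)))) .nil)) 
(.lf (nat_lit 56880) (.g (nat_lit 2178) (.e (nat_lit 1427) (nat_lit 108) (.e (nat_lit 336421) (nat_lit 28) (.e (nat_lit 434180) (nat_lit 0) (.e (nat_lit 1661) (nat_lit 115) (.e (nat_lit 393235) (nat_lit 17) (.e (nat_lit 7519) (nat_lit 402) .nil)))))) (.g (nat_lit 4) .nil .nil))))) (.nd (nat_lit 4) (.nd (nat_lit 5) 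
(.lf (nat_lit 56840) (.g (nat_lit 4146) (.e (nat_lit 1427) (nat_lit 108) (.e (nat_lit 336324) (nat_lit 18) (.e (nat_lit 204831) (nat_lit 18) (.e (nat_lit 57854) (nat_lit 252) .nil)))) .nil)) 
(.lf (nat_lit 56872) (.g (nat_lit 3406) (.e (nat_lit 1427) (nat_lit 108) (.e (nat_lit 336414) (nat_lit 27) (.e (nat_lit 426347) (nat_lit 14) (.e (nat_lit 491549) (nat_lit 9) (.e (nat_lit 336421) (nat_lit 28) (.e (nat_lit 434181) (nat_lit 0) .nil)))))) (.g (nat_lit 6) .nil .nil)))) (.nd (nat_lit 5) 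
(.lf (nat_lit 56856) (.g (nat_lit 2080) (.e (nat_lit 1427) (nat_lit 108) (.e (nat_lit 336369) (nat_lit 27) (.e (nat_lit 426317) (nat_lit 12) (.e (nat_lit 475211) (nat_lit 41) (.e (nat_lit 712749) (nat_lit 28) (.e (nat_lit 434180) (nat_lit 0) .nil)))))) (.g (nat_lit 4) .nil .nil))) 
(.lf (nat_lit 56888) (.g (nat_lit 1072) (.e (nat_lit 1427) (nat_lit 108) (.e (nat_lit 336428) (nat_lit 29) (.e (nat_lit 442419) (nat_lit 21) (.e (nat_lit 164348) (nat_lit 240) .nil)))) .nil))))) (.nd (nat_lit 3) (.nd (nat_lit 4) (.nd (nat_lit 5) 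
(.lf (nat_lit 56836) (.g (nat_lit 4155) (.e (nat_lit 1427) (nat_lit 108) (.e (nat_lit 336324) (nat_lit 18) (.e (nat_lit 204831) (nat_lit 18) (.e (nat_lit 57847) (nat_lit 252) .nil)))) .nil)) 
(.lf (nat_lit 56868) (.g (nat_lit 393) (.e (nat_lit 1427) (nat_lit 108) (.e (nat_lit 336414) (nat_lit 27) (.e (nat_lit 426318) (nat_lit 12) .nil))) .nil))) (.nd (nat_lit 5) 
(.lf (nat_lit 56852) (.g (nat_lit 3051) (.e (nat_lit 1427) (nat_lit 108) (.e (nat_lit 336369) (nat_lit 27) (.e (nat_lit 426305) (nat_lit 12) (.e (nat_lit 475198) (nat_lit 40) (.e (nat_lit 704595) (nat_lit 5) (.e (nat_lit 180277) (nat_lit 32) .nil)))))) (.g (nat_lit 4) .nil .nil))) 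
(.lf (nat_lit 56884) (.g (nat_lit 2272) (.e (nat_lit 1427) (nat_lit 108) (.e (nat_lit 336421) (nat_lit 28) (.e (nat_lit 434181) (nat_lit 0) (.e (nat_lit 1661) (nat_lit 115) (.e (nat_lit 393235) (nat_lit 17) (.e (nat_lit 7562) (nat_lit 402) .nil)))))) (.g (nat_lit 4) .nil .nil))))) (.nd (nat_lit 4) (.nd (nat_lit 5) 
(.lf (nat_lit 56844) (.g (nat_lit 1339) (.e (nat_lit 1427) (nat_lit 108) (.e (nat_lit 336369) (nat_lit 27) (.e (nat_lit 426025) (nat_lit 0) (.e (nat_lit 7107) (nat_lit 380) .nil)))) .nil)) 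
(.lf (nat_lit 56876) (.g (nat_lit 2287) (.e (nat_lit 1427) (nat_lit 108) (.e (nat_lit 336421) (nat_lit 28) (.e (nat_lit 434180) (nat_lit 0) (.e (nat_lit 1425) (nat_lit 108) (.e (nat_lit 336421) (nat_lit 28) (.e (nat_lit 434181) (nat_lit 0) .nil)))))) (.g (nat_lit 0) .nil .nil)))) (.nd (nat_lit 5) 
(.lf (nat_lit 56860) (.g (nat_lit 2563) (.e (nat_lit 1427) (nat_lit 108) (.e (nat_lit 336395) (nat_lit 27) (.e (nat_lit 426305) (nat_lit 12) (.e (nat_lit 475198) (nat_lit 40) (.e (nat_lit 704596) (nat_lit 5) .nil))))) .nil)) 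
(.lf (nat_lit 56892) (.g (nat_lit 2038) (.e (nat_lit 1427) (nat_lit 108) (.e (nat_lit 336430) (nat_lit 29) (.e (nat_lit 442378) (nat_lit 0) (.e (nat_lit 2059) (nat_lit 142) (.e (nat_lit 704596) (nat_lit 5) (.e (nat_lit 180277) (nat_lit 32) .nil)))))) (.g (nat_lit 4) .nil .nil))))))) (.nd (nat_lit 2) (.nd (nat_lit 3) (.nd (nat_lit 4) (.nd (nat_lit 5) 
(.lf (nat_lit 56834) (.g (nat_lit 3447) (.e (nat_lit 1427) (nat_lit 108) (.e (nat_lit 336306) (nat_lit 15) (.e (nat_lit 3308) (nat_lit 202) (.e (nat_lit 573493) (nat_lit 15) (.e (nat_lit 81951) (nat_lit 22) (.e (nat_lit 90165) (nat_lit 12) (.e (nat_lit 164239) (nat_lit 187) .nil))))))) (.g (nat_lit 6) .nil .nil))) 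
(.lf (nat_lit 56866) (.g (nat_lit 2599) (.e (nat_lit 1427) (nat_lit 108) (.e (nat_lit 336395) (nat_lit 27) (.e (nat_lit 426338) (nat_lit 14) (.e (nat_lit 491549) (nat_lit 9) (.e (nat_lit 336421) (nat_lit 28) (.e (nat_lit 434181) (nat_lit 0) .nil)))))) (.g (nat_lit 5) .nil .nil)))) (.nd (nat_lit 5) 
(.lf (nat_lit 56850) (.g (nat_lit 2614) (.e (nat_lit 1427) (nat_lit 108) (.e (nat_lit 336369) (nat_lit 27) (.e (nat_lit 426173) (nat_lit 7) (.e (nat_lit 409641) (nat_lit 17) (.e (nat_lit 294973) (nat_lit 28) .nil))))) .nil)) 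
(.lf (nat_lit 56882) (.g (nat_lit 1652) (.e (nat_lit 1427) (nat_lit 108) (.e (nat_lit 336421) (nat_lit 28) (.e (nat_lit 434180) (nat_lit 0) (.e (nat_lit 1661) (nat_lit 115) (.e (nat_lit 393238) (nat_lit 17) (.e (nat_lit 7936) (nat_lit 402) .nil)))))) (.g (nat_lit 4) .nil .nil))))) (.nd (nat_lit 4) (.nd (nat_lit 5) 
(.lf (nat_lit 56842) (.g (nat_lit 968) (.e (nat_lit 1427) (nat_lit 108) (.e (nat_lit 336324) (nat_lit 18) (.e (nat_lit 204864) (nat_lit 27) .nil))) .nil)) 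
(.lf (nat_lit 56874) (.g (nat_lit 3931) (.e (nat_lit 1427) (nat_lit 108) (.e (nat_lit 336414) (nat_lit 27) (.e (nat_lit 426347) (nat_lit 14) (.e (nat_lit 491571) (nat_lit 13) (.e (nat_lit 393242) (nat_lit 17) (.e (nat_lit 7554) (nat_lit 402) .nil)))))) (.g (nat_lit 6) .nil .nil)))) (.nd (nat_lit 5) 
(.lf (nat_lit 56858) (.g (nat_lit 1920) (.e (nat_lit 1427) (nat_lit 108) (.e (nat_lit 336395) (nat_lit 27) (.e (nat_lit 426305) (nat_lit 12) (.e (nat_lit 475197) (nat_lit 40) (.e (nat_lit 704595) (nat_lit 5) (.e (nat_lit 180277) (nat_lit 32) .nil)))))) (.g (nat_lit 4) .nil .nil))) 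
(.lf (nat_lit 56890) (.g (nat_lit 2668) (.e (nat_lit 1427) (nat_lit 108) (.e (nat_lit 336430) (nat_lit 29) (.e (nat_lit 442377) (nat_lit 0) (.e (nat_lit 2059) (nat_lit 142) (.e (nat_lit 704596) (nat_lit 5) (.e (nat_lit 180277) (nat_lit 32) .nil)))))) (.g (nat_lit 5) .nil .nil)))))) (.nd (nat_lit 3) (.nd (nat_lit 4) (.nd (nat_lit 5) 
(.lf (nat_lit 56838) (.g (nat_lit 4810) (.e (nat_lit 1427) (nat_lit 108) (.e (nat_lit 336324) (nat_lit 18) (.e (nat_lit 204831) (nat_lit 18) (.e (nat_lit 57849) (nat_lit 252) .nil)))) .nil)) 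
(.lf (nat_lit 56870) (.g (nat_lit 3339) (.e (nat_lit 1427) (nat_lit 108) (.e (nat_lit 336414) (nat_lit 27) (.e (nat_lit 426318) (nat_lit 12) (.e (nat_lit 475199) (nat_lit 40) (.e (nat_lit 704595) (nat_lit 5) (.e (nat_lit 180278) (nat_lit 32) .nil)))))) (.g (nat_lit 0) .nil .nil)))) (.nd (nat_lit 5) 
(.lf (nat_lit 56854) (.g (nat_lit 2309) (.e (nat_lit 1427) (nat_lit 108) (.e (nat_lit 336369) (nat_lit 27) (.e (nat_lit 426305) (nat_lit 12) (.e (nat_lit 475199) (nat_lit 40) (.e (nat_lit 704595) (nat_lit 5) .nil))))) .nil)) 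
(.lf (nat_lit 56886) (.g (nat_lit 2147) (.e (nat_lit 1427) (nat_lit 108) (.e (nat_lit 336426) (nat_lit 29) (.e (nat_lit 442374) (nat_lit 0) (.e (nat_lit 2058) (nat_lit 142) (.e (nat_lit 704595) (nat_lit 5) (.e (nat_lit 180277) (nat_lit 32) .nil)))))) (.g (nat_lit 4) .nil .nil))))) (.nd (nat_lit 4) (.nd (nat_lit 5) 
(.lf (nat_lit 56846) (.g (nat_lit 1864) (.e (nat_lit 1427) (nat_lit 108) (.e (nat_lit 336369) (nat_lit 27) (.e (nat_lit 426173) (nat_lit 7) (.e (nat_lit 409618) (nat_lit 10) .nil)))) .nil)) 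
(.lf (nat_lit 56878) (.g (nat_lit 3350) (.e (nat_lit 1427) (nat_lit 108) (.e (nat_lit 336421) (nat_lit 28) (.e (nat_lit 434180) (nat_lit 0) (.e (nat_lit 1427) (nat_lit 108) (.e (nat_lit 336421) (nat_lit 28) (.e (nat_lit 434181) (nat_lit 0) .nil)))))) (.g (nat_lit 0) .nil .nil)))) (.nd (nat_lit 5) 
(.lf (nat_lit 56862) (.g (nat_lit 3604) (.e (nat_lit 1427) (nat_lit 108) (.e (nat_lit 336395) (nat_lit 27) (.e (nat_lit 426305) (nat_lit 12) (.e (nat_lit 475199) (nat_lit 40) (.e (nat_lit 704596) (nat_lit 5) (.e (nat_lit 180277) (nat_lit 32) .nil)))))) (.g (nat_lit 0) .nil .nil))) 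
(.lf (nat_lit 56894) (.g (nat_lit 1281) (.e (nat_lit 1427) (nat_lit 108) (.e (nat_lit 336432) (nat_lit 30) (.e (nat_lit 450565) (nat_lit 0) (.e (nat_lit 5546) (nat_lit 306) (.e (nat_lit 2640) (nat_lit 165) .nil))))) .nil))))))) (.nd (nat_lit 1) (.nd (nat_lit 2) (.nd (nat_lit 3) (.nd (nat_lit 4) (.nd (nat_lit 5) 
(.lf (nat_lit 56833) (.g (nat_lit 2649) (.e (nat_lit 1427) (nat_lit 108) (.e (nat_lit 336306) (nat_lit 15) (.e (nat_lit 3308) (nat_lit 202) (.e (nat_lit 573482) (nat_lit 13) (.e (nat_lit 65619) (nat_lit 10) (.e (nat_lit 344117) (nat_lit 21) (.e (nat_lit 516098) (nat_lit 0) (.e (nat_lit 7513) (nat_lit 402) .nil)))))))) (.g (nat_lit 5) .nil .nil))) 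
(.lf (nat_lit 56865) (.g (nat_lit 2721) (.e (nat_lit 1427) (nat_lit 108) (.e (nat_lit 336395) (nat_lit 27) (.e (nat_lit 426338) (nat_lit 14) (.e (nat_lit 491549) (nat_lit 9) (.e (nat_lit 336421) (nat_lit 28) (.e (nat_lit 434180) (nat_lit 0) .nil)))))) (.g (nat_lit 5) .nil .nil)))) (.nd (nat_lit 5) 
(.lf (nat_lit 56849) (.g (nat_lit 1864) (.e (nat_lit 1427) (nat_lit 108) (.e (nat_lit 336369) (nat_lit 27) (.e (nat_lit 426173) (nat_lit 7) (.e (nat_lit 409640) (nat_lit 17) .nil)))) .nil)) 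
(.lf (nat_lit 56881) (.g (nat_lit 2021) (.e (nat_lit 1427) (nat_lit 108) (.e (nat_lit 336421) (nat_lit 28) (.e (nat_lit 434180) (nat_lit 0) (.e (nat_lit 1661) (nat_lit 115) (.e (nat_lit 393238) (nat_lit 17) (.e (nat_lit 7559) (nat_lit 402) .nil)))))) (.g (nat_lit 4) .nil .nil))))) (.nd (nat_lit 4) (.nd (nat_lit 5) 
(.lf (nat_lit 56841) (.g (nat_lit 935) (.e (nat_lit 1427) (nat_lit 108) (.e (nat_lit 336324) (nat_lit 18) (.e (nat_lit 204862) (nat_lit 27) .nil))) .nil)) 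
(.lf (nat_lit 56873) (.g (nat_lit 3308) (.e (nat_lit 1427) (nat_lit 108) (.e (nat_lit 336414) (nat_lit 27) (.e (nat_lit 426347) (nat_lit 14) (.e (nat_lit 491571) (nat_lit 13) (.e (nat_lit 393238) (nat_lit 17) (.e (nat_lit 7555) (nat_lit 402) .nil)))))) (.g (nat_lit 4) .nil .nil)))) (.nd (nat_lit 5) 
(.lf (nat_lit 56857) (.g (nat_lit 577) (.e (nat_lit 1427) (nat_lit 108) (.e (nat_lit 336369) (nat_lit 27) (.e (nat_lit 426340) (nat_lit 14) .nil))) .nil)) 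
(.lf (nat_lit 56889) (.g (nat_lit 2516) (.e (nat_lit 1427) (nat_lit 108) (.e (nat_lit 336430) (nat_lit 29) (.e (nat_lit 442377) (nat_lit 0) (.e (nat_lit 2059) (nat_lit 142) (.e (nat_lit 704595) (nat_lit 5) (.e (nat_lit 180277) (nat_lit 32) .nil)))))) (.g (nat_lit 5) .nil .nil)))))) (.nd (nat_lit 3) (.nd (nat_lit 4) (.nd (nat_lit 5) 
(.lf (nat_lit 56837) (.g (nat_lit 4693) (.e (nat_lit 1427) (nat_lit 108) (.e (nat_lit 336324) (nat_lit 18) (.e (nat_lit 204831) (nat_lit 18) (.e (nat_lit 57848) (nat_lit 252) .nil)))) .nil)) 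
(.lf (nat_lit 56869) (.g (nat_lit 2476) (.e (nat_lit 1427) (nat_lit 108) (.e (nat_lit 336414) (nat_lit 27) (.e (nat_lit 426318) (nat_lit 12) (.e (nat_lit 475198) (nat_lit 40) (.e (nat_lit 704596) (nat_lit 5) (.e (nat_lit 180277) (nat_lit 32) .nil)))))) (.g (nat_lit 5) .nil .nil)))) (.nd (nat_lit 5) 
(.lf (nat_lit 56853) (.g (nat_lit 3497) (.e (nat_lit 1427) (nat_lit 108) (.e (nat_lit 336369) (nat_lit 27) (.e (nat_lit 426305) (nat_lit 12) (.e (nat_lit 475198) (nat_lit 40) (.e (nat_lit 704595) (nat_lit 5) (.e (nat_lit 180278) (nat_lit 32) .nil)))))) (.g (nat_lit 5) .nil .nil))) 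
(.lf (nat_lit 56885) (.g (nat_lit 1222) (.e (nat_lit 1427) (nat_lit 108) (.e (nat_lit 336421) (nat_lit 28) (.e (nat_lit 434181) (nat_lit 0) (.e (nat_lit 1661) (nat_lit 115) (.e (nat_lit 393235) (nat_lit 17) (.e (nat_lit 7936) (nat_lit 402) .nil)))))) (.g (nat_lit 4) .nil .nil))))) (.nd (nat_lit 4) (.nd (nat_lit 5) 
(.lf (nat_lit 56845) (.g (nat_lit 1879) (.e (nat_lit 1427) (nat_lit 108) (.e (nat_lit 336369) (nat_lit 27) (.e (nat_lit 426109) (nat_lit 1) (.e (nat_lit 164147) (nat_lit 152) (.e (nat_lit 1211) (nat_lit 89) .nil))))) .nil)) 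
(.lf (nat_lit 56877) (.g (nat_lit 3614) (.e (nat_lit 1427) (nat_lit 108) (.e (nat_lit 336421) (nat_lit 28) (.e (nat_lit 434180) (nat_lit 0) (.e (nat_lit 1427) (nat_lit 108) (.e (nat_lit 336421) (nat_lit 28) (.e (nat_lit 434180) (nat_lit 0) .nil)))))) (.g (nat_lit 0) .nil .nil)))) (.nd (nat_lit 5) 
(.lf (nat_lit 56861) (.g (nat_lit 4100) (.e (nat_lit 1427) (nat_lit 108) (.e (nat_lit 336395) (nat_lit 27) (.e (nat_lit 426305) (nat_lit 12) (.e (nat_lit 475199) (nat_lit 40) (.e (nat_lit 704595) (nat_lit 5) (.e (nat_lit 180278) (nat_lit 32) .nil)))))) (.g (nat_lit 0) .nil .nil))) 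
(.lf (nat_lit 56893) (.g (nat_lit 2462) (.e (nat_lit 1427) (nat_lit 108) (.e (nat_lit 336430) (nat_lit 29) (.e (nat_lit 442430) (nat_lit 24) (.e (nat_lit 229680) (nat_lit 244) (.e (nat_lit 163917) (nat_lit 13) (.e (nat_lit 434180) (nat_lit 0) .nil)))))) (.g (nat_lit 4) .nil .nil))))))) (.nd (nat_lit 2) (.nd (nat_lit 3) (.nd (nat_lit 4) (.nd (nat_lit 5) 
(.lf (nat_lit 56835) (.g (nat_lit 4177) (.e (nat_lit 1427) (nat_lit 108) (.e (nat_lit 336324) (nat_lit 18) (.e (nat_lit 204831) (nat_lit 18) (.e (nat_lit 57846) (nat_lit 252) .nil)))) .nil)) 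
(.lf (nat_lit 56867) (.g (nat_lit 2224) (.e (nat_lit 1427) (nat_lit 108) (.e (nat_lit 336395) (nat_lit 27) (.e (nat_lit 426340) (nat_lit 14) (.e (nat_lit 491571) (nat_lit 13) (.e (nat_lit 393235) (nat_lit 17) (.e (nat_lit 7562) (nat_lit 402) .nil)))))) (.g (nat_lit 4) .nil .nil)))) (.nd (nat_lit 5) 
(.lf (nat_lit 56851) (.g (nat_lit 2455) (.e (nat_lit 1427) (nat_lit 108) (.e (nat_lit 336369) (nat_lit 27) (.e (nat_lit 426173) (nat_lit 7) (.e (nat_lit 409642) (nat_lit 17) (.e (nat_lit 294973) (nat_lit 28) .nil))))) .nil)) 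
(.lf (nat_lit 56883) (.g (nat_lit 2314) (.e (nat_lit 1427) (nat_lit 108) (.e (nat_lit 336421) (nat_lit 28) (.e (nat_lit 434181) (nat_lit 0) (.e (nat_lit 1661) (nat_lit 115) (.e (nat_lit 393235) (nat_lit 17) (.e (nat_lit 7519) (nat_lit 402) .nil)))))) (.g (nat_lit 4) .nil .nil))))) (.nd (nat_lit 4) (.nd (nat_lit 5) 
(.lf (nat_lit 56843) (.g (nat_lit 968) (.e (nat_lit 1427) (nat_lit 108) (.e (nat_lit 336324) (nat_lit 18) (.e (nat_lit 204868) (nat_lit 29) .nil))) .nil)) 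
(.lf (nat_lit 56875) (.g (nat_lit 2567) (.e (nat_lit 1427) (nat_lit 108) (.e (nat_lit 336421) (nat_lit 28) (.e (nat_lit 434180) (nat_lit 0) (.e (nat_lit 1425) (nat_lit 108) (.e (nat_lit 336421) (nat_lit 28) (.e (nat_lit 434180) (nat_lit 0) .nil)))))) (.g (nat_lit 0) .nil .nil)))) (.nd (nat_lit 5) 
(.lf (nat_lit 56859) (.g (nat_lit 4203) (.e (nat_lit 1427) (nat_lit 108) (.e (nat_lit 336395) (nat_lit 27) (.e (nat_lit 426305) (nat_lit 12) (.e (nat_lit 475198) (nat_lit 40) (.e (nat_lit 704595) (nat_lit 5) (.e (nat_lit 180278) (nat_lit 32) .nil)))))) (.g (nat_lit 0) .nil .nil))) 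
(.lf (nat_lit 56891) (.g (nat_lit 2934) (.e (nat_lit 1427) (nat_lit 108) (.e (nat_lit 336430) (nat_lit 29) (.e (nat_lit 442378) (nat_lit 0) (.e (nat_lit 2058) (nat_lit 142) (.e (nat_lit 704595) (nat_lit 5) (.e (nat_lit 180278) (nat_lit 32) .nil)))))) (.g (nat_lit 5) .nil .nil)))))) (.nd (nat_lit 3) (.nd (nat_lit 4) (.nd (nat_lit 5) 
(.lf (nat_lit 56839) (.g (nat_lit 4114) (.e (nat_lit 1427) (nat_lit 108) (.e (nat_lit 336324) (nat_lit 18) (.e (nat_lit 204831) (nat_lit 18) (.e (nat_lit 57852) (nat_lit 252) .nil)))) .nil)) 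
(.lf (nat_lit 56871) (.g (nat_lit 3775) (.e (nat_lit 1427) (nat_lit 108) (.e (nat_lit 336414) (nat_lit 27) (.e (nat_lit 426347) (nat_lit 14) (.e (nat_lit 491549) (nat_lit 9) (.e (nat_lit 336421) (nat_lit 28) (.e (nat_lit 434180) (nat_lit 0) .nil)))))) (.g (nat_lit 6) .nil .nil)))) (.nd (nat_lit 5) 
(.lf (nat_lit 56855) (.g (nat_lit 3105) (.e (nat_lit 1427) (nat_lit 108) (.e (nat_lit 336369) (nat_lit 27) (.e (nat_lit 426317) (nat_lit 12) (.e (nat_lit 475198) (nat_lit 40) (.e (nat_lit 704596) (nat_lit 5) (.e (nat_lit 180277) (nat_lit 32) .nil)))))) (.g (nat_lit 5) .nil .nil))) 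
(.lf (nat_lit 56887) (.g (nat_lit 1981) (.e (nat_lit 1427) (nat_lit 108) (.e (nat_lit 336428) (nat_lit 29) (.e (nat_lit 442374) (nat_lit 0) (.e (nat_lit 2058) (nat_lit 142) (.e (nat_lit 704596) (nat_lit 5) (.e (nat_lit 180277) (nat_lit 32) .nil)))))) (.g (nat_lit 4) .nil .nil))))) (.nd (nat_lit 4) (.nd (nat_lit 5) 
(.lf (nat_lit 56847) (.g (nat_lit 1507) (.e (nat_lit 1427) (nat_lit 108) (.e (nat_lit 336369) (nat_lit 27) (.e (nat_lit 426173) (nat_lit 7) (.e (nat_lit 417536) (nat_lit 10) .nil)))) .nil)) 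
(.lf (nat_lit 56879) (.g (nat_lit 2971) (.e (nat_lit 1427) (nat_lit 108) (.e (nat_lit 336421) (nat_lit 28) (.e (nat_lit 434180) (nat_lit 0) (.e (nat_lit 1428) (nat_lit 108) (.e (nat_lit 336421) (nat_lit 28) (.e (nat_lit 434181) (nat_lit 0) .nil)))))) (.g (nat_lit 0) .nil .nil)))) (.nd (nat_lit 5) 
(.lf (nat_lit 56863) (.g (nat_lit 3913) (.e (nat_lit 1427) (nat_lit 108) (.e (nat_lit 336395) (nat_lit 27) (.e (nat_lit 426317) (nat_lit 12) (.e (nat_lit 475198) (nat_lit 40) (.e (nat_lit 704595) (nat_lit 5) (.e (nat_lit 180278) (nat_lit 32) .nil)))))) (.g (nat_lit 0) .nil .nil))) 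
(.lf (nat_lit 56895) (.g (nat_lit 952) (.e (nat_lit 1427) (nat_lit 108) (.e (nat_lit 336434) (nat_lit 30) (.e (nat_lit 450579) (nat_lit 5) (.e (nat_lit 532484) (nat_lit 0) (.e (nat_lit 7936) (nat_lit 153) .nil))))) .nil))))))))

noncomputable def tv783 : DT := (.nd (nat_lit 0) (.nd (nat_lit 1) (.nd (nat_lit 2) (.nd (nat_lit 3) (.nd (nat_lit 4) (.nd (nat_lit 5) 
(.lf (nat_lit 56896) (.g (nat_lit 227) (.e (nat_lit 1427) (nat_lit 108) (.e (nat_lit 336438) (nat_lit 31) (.e (nat_lit 458769) (nat_lit 16) .nil))) .nil)) 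
(.lf (nat_lit 56928) (.g (nat_lit 1632) (.e (nat_lit 1428) (nat_lit 108) (.e (nat_lit 336369) (nat_lit 27) (.e (nat_lit 426173) (nat_lit 7) (.e (nat_lit 409617) (nat_lit 10) (.e (nat_lit 5353) (nat_lit 298) (.e (nat_lit 418) (nat_lit 32) (.e (nat_lit 425984) (nat_lit 0) (.e (nat_lit 7528) (nat_lit 402) .nil)))))))) (.g (nat_lit 4) .nil .nil)))) (.nd (nat_lit 5) 
(.lf (nat_lit 56912) (.g (nat_lit 1199) (.e (nat_lit 1428) (nat_lit 108) (.e (nat_lit 336225) (nat_lit 14) (.e (nat_lit 401459) (nat_lit 13) (.e (nat_lit 483380) (nat_lit 23) .nil)))) .nil)) 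
(.lf (nat_lit 56944) (.g (nat_lit 885) (.e (nat_lit 1428) (nat_lit 108) (.e (nat_lit 336369) (nat_lit 27) (.e (nat_lit 426173) (nat_lit 7) (.e (nat_lit 409648) (nat_lit 18) (.e (nat_lit 311040) (nat_lit 25) .nil))))) .nil)))) (.nd (nat_lit 4) (.nd (nat_lit 5) 
(.lf (nat_lit 56904) (.g (nat_lit 2419) (.e (nat_lit 1427) (nat_lit 108) (.e (nat_lit 336454) (nat_lit 34) (.e (nat_lit 483383) (nat_lit 23) (.e (nat_lit 336019) (nat_lit 3) (.e (nat_lit 98333) (nat_lit 18) .nil))))) .nil)) 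
(.lf (nat_lit 56936) (.g (nat_lit 2171) (.e (nat_lit 1428) (nat_lit 108) (.e (nat_lit 336369) (nat_lit 27) (.e (nat_lit 426173) (nat_lit 7) (.e (nat_lit 409618) (nat_lit 10) (.e (nat_lit 5363) (nat_lit 298) .nil))))) .nil))) (.nd (nat_lit 5) 
(.lf (nat_lit 56920) (.g (nat_lit 1390) (.e (nat_lit 1428) (nat_lit 108) (.e (nat_lit 336325) (nat_lit 18) (.e (nat_lit 204863) (nat_lit 27) (.e (nat_lit 344130) (nat_lit 26) .nil)))) .nil)) 
(.lf (nat_lit 56952) (.g (nat_lit 2400) (.e (nat_lit 1428) (nat_lit 108) (.e (nat_lit 336369) (nat_lit 27) (.e (nat_lit 426173) (nat_lit 7) (.e (nat_lit 409649) (nat_lit 18) (.e (nat_lit 303151) (nat_lit 27) (.e (nat_lit 335894) (nat_lit 0) (.e (nat_lit 974) (nat_lit 81) (.e (nat_lit 4825) (nat_lit 281) (.e (nat_lit 1060) (nat_lit 81) .nil))))))))) (.g (nat_lit 6) .nil .nil)))))) 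
(.nd (nat_lit 3) (.nd (nat_lit 4) (.nd (nat_lit 5) 
(.lf (nat_lit 56900) (.g (nat_lit 1724) (.e (nat_lit 1427) (nat_lit 108) (.e (nat_lit 336443) (nat_lit 32) (.e (nat_lit 466969) (nat_lit 21) (.e (nat_lit 164347) (nat_lit 240) (.e (nat_lit 2639) (nat_lit 165) .nil))))) .nil)) 
(.lf (nat_lit 56932) (.g (nat_lit 1776) (.e (nat_lit 1428) (nat_lit 108) (.e (nat_lit 336369) (nat_lit 27) (.e (nat_lit 426173) (nat_lit 7) (.e (nat_lit 409617) (nat_lit 10) (.e (nat_lit 5353) (nat_lit 298) (.e (nat_lit 418) (nat_lit 32) (.e (nat_lit 425987) (nat_lit 0) (.e (nat_lit 7531) (nat_lit 402) .nil)))))))) (.g (nat_lit 5) .nil .nil)))) (.nd (nat_lit 5) 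
(.lf (nat_lit 56916) (.g (nat_lit 3706) (.e (nat_lit 1428) (nat_lit 108) (.e (nat_lit 336306) (nat_lit 15) (.e (nat_lit 3298) (nat_lit 202) (.e (nat_lit 573493) (nat_lit 15) (.e (nat_lit 81953) (nat_lit 22) (.e (nat_lit 90165) (nat_lit 12) (.e (nat_lit 164238) (nat_lit 187) .nil))))))) (.g (nat_lit 7) .nil .nil))) 
(.lf (nat_lit 56948) (.g (nat_lit 1076) (.e (nat_lit 1428) (nat_lit 108) (.e (nat_lit 336369) (nat_lit 27) (.e (nat_lit 426173) (nat_lit 7) (.e (nat_lit 409649) (nat_lit 18) (.e (nat_lit 311040) (nat_lit 25) (.e (nat_lit 319502) (nat_lit 10) (.e (nat_lit 5327) (nat_lit 298) .nil))))))) (.g (nat_lit 4) .nil .nil))))) (.nd (nat_lit 4) (.nd (nat_lit 5) 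
(.lf (nat_lit 56908) (.g (nat_lit 1994) (.e (nat_lit 1428) (nat_lit 108) (.e (nat_lit 336114) (nat_lit 9) (.e (nat_lit 336369) (nat_lit 27) (.e (nat_lit 426173) (nat_lit 7) (.e (nat_lit 409649) (nat_lit 18) (.e (nat_lit 303111) (nat_lit 0) (.e (nat_lit 3469) (nat_lit 217) (.e (nat_lit 696354) (nat_lit 13) .nil)))))))) (.g (nat_lit 4) .nil .nil))) 
(.lf (nat_lit 56940) (.g (nat_lit 2561) (.e (nat_lit 1428) (nat_lit 108) (.e (nat_lit 336369) (nat_lit 27) (.e (nat_lit 426173) (nat_lit 7) (.e (nat_lit 409645) (nat_lit 18) (.e (nat_lit 303149) (nat_lit 15) .nil))))) .nil))) (.nd (nat_lit 5) 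
(.lf (nat_lit 56924) (.g (nat_lit 2004) (.e (nat_lit 1428) (nat_lit 108) (.e (nat_lit 336367) (nat_lit 27) (.e (nat_lit 426320) (nat_lit 12) (.e (nat_lit 475198) (nat_lit 40) (.e (nat_lit 704596) (nat_lit 5) (.e (nat_lit 180277) (nat_lit 32) .nil)))))) (.g (nat_lit 4) .nil .nil))) 
(.lf (nat_lit 56956) (.g (nat_lit 2589) (.e (nat_lit 1428) (nat_lit 108) (.e (nat_lit 336369) (nat_lit 27) (.e (nat_lit 426305) (nat_lit 12) (.e (nat_lit 475199) (nat_lit 40) (.e (nat_lit 704595) (nat_lit 5) (.e (nat_lit 180277) (nat_lit 32) .nil)))))) (.g (nat_lit 4) .nil .nil))))))) (.nd (nat_lit 2) (.nd (nat_lit 3) (.nd (nat_lit 4) (.nd (nat_lit 5) 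
(.lf (nat_lit 56898) (.g (nat_lit 1372) (.e (nat_lit 1427) (nat_lit 108) (.e (nat_lit 336443) (nat_lit 32) (.e (nat_lit 466969) (nat_lit 21) (.e (nat_lit 164346) (nat_lit 240) .nil)))) .nil)) 
(.lf (nat_lit 56930) (.g (nat_lit 1246) (.e (nat_lit 1428) (nat_lit 108) (.e (nat_lit 336369) (nat_lit 27) (.e (nat_lit 426173) (nat_lit 7) (.e (nat_lit 409617) (nat_lit 10) (.e (nat_lit 5353) (nat_lit 298) (.e (nat_lit 418) (nat_lit 32) (.e (nat_lit 425984) (nat_lit 0) (.e (nat_lit 7566) (nat_lit 402) .nil)))))))) (.g (nat_lit 4) .nil .nil)))) (.nd (nat_lit 5) 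
(.lf (nat_lit 56914) (.g (nat_lit 2057) (.e (nat_lit 1428) (nat_lit 108) (.e (nat_lit 336240) (nat_lit 15) (.e (nat_lit 3309) (nat_lit 202) (.e (nat_lit 573485) (nat_lit 13) (.e (nat_lit 65604) (nat_lit 9) (.e (nat_lit 336013) (nat_lit 2) (.e (nat_lit 90165) (nat_lit 12) (.e (nat_lit 164238) (nat_lit 187) .nil)))))))) (.g (nat_lit 4) .nil .nil))) 
(.lf (nat_lit 56946) (.g (nat_lit 1366) (.e (nat_lit 1428) (nat_lit 108) (.e (nat_lit 336369) (nat_lit 27) (.e (nat_lit 426173) (nat_lit 7) (.e (nat_lit 409649) (nat_lit 18) (.e (nat_lit 303149) (nat_lit 15) (.e (nat_lit 6223) (nat_lit 334) (.e (nat_lit 123207) (nat_lit 270) .nil))))))) (.g (nat_lit 4) .nil .nil))))) (.nd (nat_lit 4) (.nd (nat_lit 5) 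
(.lf (nat_lit 56906) (.g (nat_lit 2028) (.e (nat_lit 1427) (nat_lit 108) (.e (nat_lit 336454) (nat_lit 34) (.e (nat_lit 483406) (nat_lit 26) (.e (nat_lit 385066) (nat_lit 26) .nil)))) .nil)) 
(.lf (nat_lit 56938) (.g (nat_lit 980) (.e (nat_lit 1428) (nat_lit 108) (.e (nat_lit 336369) (nat_lit 27) (.e (nat_lit 426173) (nat_lit 7) (.e (nat_lit 417536) (nat_lit 10) .nil)))) .nil))) (.nd (nat_lit 5) 
(.lf (nat_lit 56922) (.g (nat_lit 2446) (.e (nat_lit 1428) (nat_lit 108) (.e (nat_lit 336326) (nat_lit 18) (.e (nat_lit 204863) (nat_lit 27) (.e (nat_lit 344133) (nat_lit 26) (.e (nat_lit 557098) (nat_lit 13) (.e (nat_lit 179968) (nat_lit 17) (.e (nat_lit 90118) (nat_lit 0) .nil))))))) (.g (nat_lit 4) .nil .nil))) 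
(.lf (nat_lit 56954) (.g (nat_lit 591) (.e (nat_lit 1428) (nat_lit 108) (.e (nat_lit 336369) (nat_lit 27) (.e (nat_lit 426305) (nat_lit 12) .nil))) .nil))))) (.nd (nat_lit 3) (.nd (nat_lit 4) (.nd (nat_lit 5) 
(.lf (nat_lit 56902) (.g (nat_lit 1715) (.e (nat_lit 1427) (nat_lit 108) (.e (nat_lit 336443) (nat_lit 32) (.e (nat_lit 466971) (nat_lit 21) (.e (nat_lit 164347) (nat_lit 240) (.e (nat_lit 2639) (nat_lit 165) .nil))))) .nil)) 
(.lf (nat_lit 56934) (.g (nat_lit 2148) (.e (nat_lit 1428) (nat_lit 108) (.e (nat_lit 336369) (nat_lit 27) (.e (nat_lit 426173) (nat_lit 7) (.e (nat_lit 409618) (nat_lit 10) (.e (nat_lit 5362) (nat_lit 298) .nil))))) .nil))) (.nd (nat_lit 5) 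
(.lf (nat_lit 56918) (.g (nat_lit 4041) (.e (nat_lit 1428) (nat_lit 108) (.e (nat_lit 336306) (nat_lit 15) (.e (nat_lit 3307) (nat_lit 202) (.e (nat_lit 573484) (nat_lit 13) (.e (nat_lit 65610) (nat_lit 10) (.e (nat_lit 344117) (nat_lit 21) (.e (nat_lit 516099) (nat_lit 0) (.e (nat_lit 7562) (nat_lit 402) .nil)))))))) (.g (nat_lit 6) .nil .nil))) 
(.lf (nat_lit 56950) (.g (nat_lit 1173) (.e (nat_lit 1428) (nat_lit 108) (.e (nat_lit 336369) (nat_lit 27) (.e (nat_lit 426173) (nat_lit 7) (.e (nat_lit 409649) (nat_lit 18) (.e (nat_lit 311040) (nat_lit 25) (.e (nat_lit 327424) (nat_lit 10) (.e (nat_lit 5323) (nat_lit 298) .nil))))))) (.g (nat_lit 4) .nil .nil))))) (.nd (nat_lit 4) (.nd (nat_lit 5) 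
(.lf (nat_lit 56910) (.g (nat_lit 1057) (.e (nat_lit 1428) (nat_lit 108) (.e (nat_lit 336225) (nat_lit 14) (.e (nat_lit 401458) (nat_lit 13) (.e (nat_lit 483383) (nat_lit 23) .nil)))) .nil)) 
(.lf (nat_lit 56942) (.g (nat_lit 2151) (.e (nat_lit 1428) (nat_lit 108) (.e (nat_lit 336369) (nat_lit 27) (.e (nat_lit 426173) (nat_lit 7) (.e (nat_lit 409648) (nat_lit 18) (.e (nat_lit 303149) (nat_lit 15) (.e (nat_lit 6216) (nat_lit 333) (.e (nat_lit 57891) (nat_lit 270) .nil))))))) (.g (nat_lit 5) .nil .nil)))) (.nd (nat_lit 5) 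
(.lf (nat_lit 56926) (.g (nat_lit 759) (.e (nat_lit 1428) (nat_lit 108) (.e (nat_lit 336369) (nat_lit 27) (.e (nat_lit 426025) (nat_lit 0) (.e (nat_lit 7114) (nat_lit 381) .nil)))) .nil)) 
(.lf (nat_lit 56958) (.g (nat_lit 2216) (.e (nat_lit 1428) (nat_lit 108) (.e (nat_lit 336369) (nat_lit 27) (.e (nat_lit 426305) (nat_lit 12) (.e (nat_lit 475199) (nat_lit 40) (.e (nat_lit 704596) (nat_lit 5) (.e (nat_lit 180277) (nat_lit 32) .nil)))))) (.g (nat_lit 4) .nil .nil)))))))) (.nd (nat_lit 1) (.nd (nat_lit 2) (.nd (nat_lit 3) (.nd (nat_lit 4) (.nd (nat_lit 5) 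
(.lf (nat_lit 56897) (.g (nat_lit 765) (.e (nat_lit 1427) (nat_lit 108) (.e (nat_lit 336443) (nat_lit 32) (.e (nat_lit 466946) (nat_lit 0) .nil))) .nil)) 
(.lf (nat_lit 56929) (.g (nat_lit 1321) (.e (nat_lit 1428) (nat_lit 108) (.e (nat_lit 336369) (nat_lit 27) (.e (nat_lit 426173) (nat_lit 7) (.e (nat_lit 409617) (nat_lit 10) (.e (nat_lit 5353) (nat_lit 298) (.e (nat_lit 418) (nat_lit 32) (.e (nat_lit 425984) (nat_lit 0) (.e (nat_lit 7532) (nat_lit 402) .nil)))))))) (.g (nat_lit 4) .nil .nil)))) (.nd (nat_lit 5) 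
(.lf (nat_lit 56913) (.g (nat_lit 2150) (.e (nat_lit 1428) (nat_lit 108) (.e (nat_lit 336225) (nat_lit 14) (.e (nat_lit 401459) (nat_lit 13) (.e (nat_lit 483380) (nat_lit 23) (.e (nat_lit 336327) (nat_lit 19) .nil))))) .nil)) 
(.lf (nat_lit 56945) (.g (nat_lit 2488) (.e (nat_lit 1428) (nat_lit 108) (.e (nat_lit 336369) (nat_lit 27) (.e (nat_lit 426173) (nat_lit 7) (.e (nat_lit 409649) (nat_lit 18) (.e (nat_lit 303149) (nat_lit 15) (.e (nat_lit 6216) (nat_lit 333) (.e (nat_lit 57890) (nat_lit 270) .nil))))))) (.g (nat_lit 6) .nil .nil))))) (.nd (nat_lit 4) (.nd (nat_lit 5) 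
(.lf (nat_lit 56905) (.g (nat_lit 2358) (.e (nat_lit 1427) (nat_lit 108) (.e (nat_lit 336454) (nat_lit 34) (.e (nat_lit 483383) (nat_lit 23) (.e (nat_lit 336019) (nat_lit 3) (.e (nat_lit 98334) (nat_lit 18) .nil))))) .nil)) 
(.lf (nat_lit 56937) (.g (nat_lit 2100) (.e (nat_lit 1428) (nat_lit 108) (.e (nat_lit 336369) (nat_lit 27) (.e (nat_lit 426173) (nat_lit 7) (.e (nat_lit 409618) (nat_lit 10) (.e (nat_lit 5364) (nat_lit 298) .nil))))) .nil))) (.nd (nat_lit 5) 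
(.lf (nat_lit 56921) (.g (nat_lit 2733) (.e (nat_lit 1428) (nat_lit 108) (.e (nat_lit 336325) (nat_lit 18) (.e (nat_lit 204863) (nat_lit 27) (.e (nat_lit 344133) (nat_lit 26) (.e (nat_lit 557098) (nat_lit 13) (.e (nat_lit 179968) (nat_lit 17) (.e (nat_lit 90118) (nat_lit 0) .nil))))))) (.g (nat_lit 5) .nil .nil))) 
(.lf (nat_lit 56953) (.g (nat_lit 2447) (.e (nat_lit 1428) (nat_lit 108) (.e (nat_lit 336369) (nat_lit 27) (.e (nat_lit 426173) (nat_lit 7) (.e (nat_lit 409649) (nat_lit 18) (.e (nat_lit 303151) (nat_lit 27) (.e (nat_lit 335894) (nat_lit 0) (.e (nat_lit 1944) (nat_lit 132) (.e (nat_lit 622606) (nat_lit 5) .nil)))))))) (.g (nat_lit 6) .nil .nil)))))) 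
(.nd (nat_lit 3) (.nd (nat_lit 4) (.nd (nat_lit 5) 
(.lf (nat_lit 56901) (.g (nat_lit 1320) (.e (nat_lit 1427) (nat_lit 108) (.e (nat_lit 336443) (nat_lit 32) (.e (nat_lit 466971) (nat_lit 21) (.e (nat_lit 164346) (nat_lit 240) .nil)))) .nil)) 
(.lf (nat_lit 56933) (.g (nat_lit 1309) (.e (nat_lit 1428) (nat_lit 108) (.e (nat_lit 336369) (nat_lit 27) (.e (nat_lit 426173) (nat_lit 7) (.e (nat_lit 409617) (nat_lit 10) (.e (nat_lit 5353) (nat_lit 298) (.e (nat_lit 418) (nat_lit 32) (.e (nat_lit 425987) (nat_lit 0) (.e (nat_lit 7532) (nat_lit 402) .nil)))))))) (.g (nat_lit 4) .nil .nil)))) (.nd (nat_lit 5) 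
(.lf (nat_lit 56917) (.g (nat_lit 3357) (.e (nat_lit 1428) (nat_lit 108) (.e (nat_lit 336306) (nat_lit 15) (.e (nat_lit 3298) (nat_lit 202) (.e (nat_lit 573493) (nat_lit 15) (.e (nat_lit 81953) (nat_lit 22) (.e (nat_lit 90165) (nat_lit 12) (.e (nat_lit 164239) (nat_lit 187) .nil))))))) (.g (nat_lit 6) .nil .nil))) 
(.lf (nat_lit 56949) (.g (nat_lit 2038) (.e (nat_lit 1428) (nat_lit 108) (.e (nat_lit 336369) (nat_lit 27) (.e (nat_lit 426173) (nat_lit 7) (.e (nat_lit 409649) (nat_lit 18) (.e (nat_lit 311040) (nat_lit 25) (.e (nat_lit 319506) (nat_lit 10) (.e (nat_lit 5371) (nat_lit 298) .nil))))))) (.g (nat_lit 6) .nil .nil))))) (.nd (nat_lit 4) (.nd (nat_lit 5) 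
(.lf (nat_lit 56909) (.g (nat_lit 3110) (.e (nat_lit 1428) (nat_lit 108) (.e (nat_lit 336211) (nat_lit 13) (.e (nat_lit 393301) (nat_lit 27) (.e (nat_lit 491560) (nat_lit 10) (.e (nat_lit 344174) (nat_lit 42) .nil))))) .nil)) 
(.lf (nat_lit 56941) (.g (nat_lit 1774) (.e (nat_lit 1428) (nat_lit 108) (.e (nat_lit 336369) (nat_lit 27) (.e (nat_lit 426173) (nat_lit 7) (.e (nat_lit 409648) (nat_lit 18) (.e (nat_lit 303149) (nat_lit 15) (.e (nat_lit 6209) (nat_lit 333) (.e (nat_lit 57890) (nat_lit 270) .nil))))))) (.g (nat_lit 4) .nil .nil)))) (.nd (nat_lit 5) 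
(.lf (nat_lit 56925) (.g (nat_lit 3286) (.e (nat_lit 1428) (nat_lit 108) (.e (nat_lit 336369) (nat_lit 27) (.e (nat_lit 426025) (nat_lit 0) (.e (nat_lit 6989) (nat_lit 377) (.e (nat_lit 2777) (nat_lit 178) (.e (nat_lit 286770) (nat_lit 28) (.e (nat_lit 434180) (nat_lit 0) .nil))))))) (.g (nat_lit 5) .nil .nil))) 
(.lf (nat_lit 56957) (.g (nat_lit 2727) (.e (nat_lit 1428) (nat_lit 108) (.e (nat_lit 336369) (nat_lit 27) (.e (nat_lit 426305) (nat_lit 12) (.e (nat_lit 475199) (nat_lit 40) (.e (nat_lit 704595) (nat_lit 5) (.e (nat_lit 180278) (nat_lit 32) .nil)))))) (.g (nat_lit 4) .nil .nil))))))) (.nd (nat_lit 2) (.nd (nat_lit 3) (.nd (nat_lit 4) (.nd (nat_lit 5) 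
(.lf (nat_lit 56899) (.g (nat_lit 1827) (.e (nat_lit 1427) (nat_lit 108) (.e (nat_lit 336443) (nat_lit 32) (.e (nat_lit 466969) (nat_lit 21) (.e (nat_lit 164346) (nat_lit 240) (.e (nat_lit 2638) (nat_lit 165) .nil))))) .nil)) 
(.lf (nat_lit 56931) (.g (nat_lit 1931) (.e (nat_lit 1428) (nat_lit 108) (.e (nat_lit 336369) (nat_lit 27) (.e (nat_lit 426173) (nat_lit 7) (.e (nat_lit 409617) (nat_lit 10) (.e (nat_lit 5353) (nat_lit 298) (.e (nat_lit 418) (nat_lit 32) (.e (nat_lit 425987) (nat_lit 0) (.e (nat_lit 7528) (nat_lit 402) .nil)))))))) (.g (nat_lit 5) .nil .nil)))) (.nd (nat_lit 5) 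
(.lf (nat_lit 56915) (.g (nat_lit 3739) (.e (nat_lit 1428) (nat_lit 108) (.e (nat_lit 336260) (nat_lit 15) (.e (nat_lit 3307) (nat_lit 202) (.e (nat_lit 573484) (nat_lit 13) (.e (nat_lit 65610) (nat_lit 10) (.e (nat_lit 344117) (nat_lit 21) (.e (nat_lit 516106) (nat_lit 0) (.e (nat_lit 7556) (nat_lit 402) .nil)))))))) (.g (nat_lit 6) .nil .nil))) 
(.lf (nat_lit 56947) (.g (nat_lit 1753) (.e (nat_lit 1428) (nat_lit 108) (.e (nat_lit 336369) (nat_lit 27) (.e (nat_lit 426173) (nat_lit 7) (.e (nat_lit 409649) (nat_lit 18) (.e (nat_lit 303149) (nat_lit 15) (.e (nat_lit 6226) (nat_lit 334) (.e (nat_lit 123207) (nat_lit 270) .nil))))))) (.g (nat_lit 5) .nil .nil))))) (.nd (nat_lit 4) (.nd (nat_lit 5) 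
(.lf (nat_lit 56907) (.g (nat_lit 1724) (.e (nat_lit 1427) (nat_lit 108) (.e (nat_lit 336456) (nat_lit 34) (.e (nat_lit 483383) (nat_lit 23) (.e (nat_lit 336019) (nat_lit 3) .nil)))) .nil)) 
(.lf (nat_lit 56939) (.g (nat_lit 980) (.e (nat_lit 1428) (nat_lit 108) (.e (nat_lit 336369) (nat_lit 27) (.e (nat_lit 426173) (nat_lit 7) (.e (nat_lit 417536) (nat_lit 16) .nil)))) .nil))) (.nd (nat_lit 5) 
(.lf (nat_lit 56923) (.g (nat_lit 1662) (.e (nat_lit 1428) (nat_lit 108) (.e (nat_lit 336336) (nat_lit 20) (.e (nat_lit 229120) (nat_lit 4) (.e (nat_lit 106536) (nat_lit 11) (.e (nat_lit 16459) (nat_lit 12) (.e (nat_lit 475142) (nat_lit 8) .nil)))))) (.g (nat_lit 4) .nil .nil))) 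
(.lf (nat_lit 56955) (.g (nat_lit 2968) (.e (nat_lit 1428) (nat_lit 108) (.e (nat_lit 336369) (nat_lit 27) (.e (nat_lit 426305) (nat_lit 12) (.e (nat_lit 475198) (nat_lit 40) (.e (nat_lit 704596) (nat_lit 5) .nil))))) .nil))))) (.nd (nat_lit 3) (.nd (nat_lit 4) (.nd (nat_lit 5) 
(.lf (nat_lit 56903) (.g (nat_lit 656) (.e (nat_lit 1427) (nat_lit 108) (.e (nat_lit 336454) (nat_lit 34) (.e (nat_lit 483365) (nat_lit 18) .nil))) .nil)) 
(.lf (nat_lit 56935) (.g (nat_lit 2498) (.e (nat_lit 1428) (nat_lit 108) (.e (nat_lit 336369) (nat_lit 27) (.e (nat_lit 426173) (nat_lit 7) (.e (nat_lit 409618) (nat_lit 10) (.e (nat_lit 5362) (nat_lit 298) (.e (nat_lit 446) (nat_lit 33) (.e (nat_lit 434181) (nat_lit 0) .nil))))))) (.g (nat_lit 4) .nil .nil)))) (.nd (nat_lit 5) 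
(.lf (nat_lit 56919) (.g (nat_lit 971) (.e (nat_lit 1428) (nat_lit 108) (.e (nat_lit 336322) (nat_lit 18) (.e (nat_lit 204863) (nat_lit 27) (.e (nat_lit 344132) (nat_lit 26) .nil)))) .nil)) 
(.lf (nat_lit 56951) (.g (nat_lit 1154) (.e (nat_lit 1428) (nat_lit 108) (.e (nat_lit 336369) (nat_lit 27) (.e (nat_lit 426173) (nat_lit 7) (.e (nat_lit 409649) (nat_lit 18) (.e (nat_lit 303151) (nat_lit 27) .nil))))) .nil)))) (.nd (nat_lit 4) (.nd (nat_lit 5) 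
(.lf (nat_lit 56911) (.g (nat_lit 1087) (.e (nat_lit 1428) (nat_lit 108) (.e (nat_lit 336225) (nat_lit 14) (.e (nat_lit 401458) (nat_lit 13) (.e (nat_lit 483406) (nat_lit 26) .nil)))) .nil)) 
(.lf (nat_lit 56943) (.g (nat_lit 1678) (.e (nat_lit 1428) (nat_lit 108) (.e (nat_lit 336369) (nat_lit 27) (.e (nat_lit 426173) (nat_lit 7) (.e (nat_lit 409648) (nat_lit 18) (.e (nat_lit 303149) (nat_lit 15) (.e (nat_lit 6217) (nat_lit 333) (.e (nat_lit 57890) (nat_lit 270) .nil))))))) (.g (nat_lit 4) .nil .nil)))) (.nd (nat_lit 5) 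
(.lf (nat_lit 56927) (.g (nat_lit 584) (.e (nat_lit 1428) (nat_lit 108) (.e (nat_lit 336369) (nat_lit 27) (.e (nat_lit 426168) (nat_lit 7) .nil))) .nil)) 
(.lf (nat_lit 56959) (.g (nat_lit 2192) (.e (nat_lit 1428) (nat_lit 108) (.e (nat_lit 336369) (nat_lit 27) (.e (nat_lit 426310) (nat_lit 12) (.e (nat_lit 475198) (nat_lit 40) (.e (nat_lit 704595) (nat_lit 5) (.e (nat_lit 180277) (nat_lit 32) .nil)))))) (.g (nat_lit 4) .nil .nil)))))))))

noncomputable def tv784 : DT := (.nd (nat_lit 0) (.nd (nat_lit 1) (.nd (nat_lit 2) (.nd (nat_lit 3) (.nd (nat_lit 4) (.nd (nat_lit 5) (.nd (nat_lit 6) 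
(.lf (nat_lit 56960) (.g (nat_lit 2343) (.e (nat_lit 1428) (nat_lit 108) (.e (nat_lit 336369) (nat_lit 27) (.e (nat_lit 426310) (nat_lit 12) (.e (nat_lit 475198) (nat_lit 40) (.e (nat_lit 704595) (nat_lit 5) (.e (nat_lit 180278) (nat_lit 32) .nil)))))) (.g (nat_lit 4) .nil .nil))) 
(.lf (nat_lit 57024) (.g (nat_lit 4082) (.e (nat_lit 1429) (nat_lit 108) (.e (nat_lit 336324) (nat_lit 18) (.e (nat_lit 204831) (nat_lit 18) (.e (nat_lit 57851) (nat_lit 252) .nil)))) .nil))) (.nd (nat_lit 6) 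
(.lf (nat_lit 56992) (.g (nat_lit 1799) (.e (nat_lit 1428) (nat_lit 108) (.e (nat_lit 336426) (nat_lit 29) (.e (nat_lit 442374) (nat_lit 0) (.e (nat_lit 2058) (nat_lit 142) (.e (nat_lit 704595) (nat_lit 5) .nil))))) .nil)) 
(.lf (nat_lit 57056) (.g (nat_lit 2309) (.e (nat_lit 1430) (nat_lit 108) (.e (nat_lit 336443) (nat_lit 32) (.e (nat_lit 466969) (nat_lit 21) (.e (nat_lit 164348) (nat_lit 240) (.e (nat_lit 2640) (nat_lit 165) (.e (nat_lit 188160) (nat_lit 32) .nil)))))) (.g (nat_lit 5) .nil .nil))))) (.nd (nat_lit 5) (.nd (nat_lit 6) 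
(.lf (nat_lit 56976) (.g (nat_lit 1785) (.e (nat_lit 1428) (nat_lit 108) (.e (nat_lit 336395) (nat_lit 27) (.e (nat_lit 426305) (nat_lit 12) (.e (nat_lit 475199) (nat_lit 40) (.e (nat_lit 704595) (nat_lit 5) (.e (nat_lit 180278) (nat_lit 32) .nil)))))) (.g (nat_lit 4) .nil .nil))) 
(.lf (nat_lit 57040) (.g (nat_lit 4102) (.e (nat_lit 1430) (nat_lit 108) (.e (nat_lit 336324) (nat_lit 18) (.e (nat_lit 204831) (nat_lit 18) (.e (nat_lit 57854) (nat_lit 252) .nil)))) .nil))) (.nd (nat_lit 6) 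
(.lf (nat_lit 57008) (.g (nat_lit 1091) (.e (nat_lit 1428) (nat_lit 108) (.e (nat_lit 336434) (nat_lit 30) (.e (nat_lit 450579) (nat_lit 5) (.e (nat_lit 532484) (nat_lit 0) (.e (nat_lit 7936) (nat_lit 153) (.e (nat_lit 794676) (nat_lit 24) (.e (nat_lit 212993) (nat_lit 0) .nil))))))) (.g (nat_lit 4) .nil .nil))) 
(.lf (nat_lit 57072) (.g (nat_lit 809) (.e (nat_lit 1431) (nat_lit 108) (.e (nat_lit 336443) (nat_lit 32) (.e (nat_lit 466971) (nat_lit 21) .nil))) .nil))))) (.nd (nat_lit 4) (.nd (nat_lit 5) (.nd (nat_lit 6) 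
(.lf (nat_lit 56968) (.g (nat_lit 1836) (.e (nat_lit 1428) (nat_lit 108) (.e (nat_lit 336369) (nat_lit 27) (.e (nat_lit 426340) (nat_lit 14) (.e (nat_lit 491549) (nat_lit 9) (.e (nat_lit 336421) (nat_lit 28) (.e (nat_lit 434181) (nat_lit 0) .nil)))))) (.g (nat_lit 4) .nil .nil))) 
(.lf (nat_lit 57032) (.g (nat_lit 4799) (.e (nat_lit 1430) (nat_lit 108) (.e (nat_lit 336324) (nat_lit 18) (.e (nat_lit 204831) (nat_lit 18) (.e (nat_lit 57830) (nat_lit 250) (.e (nat_lit 1183) (nat_lit 87) (.e (nat_lit 57466) (nat_lit 23) (.e (nat_lit 516131) (nat_lit 3) (.e (nat_lit 221212) (nat_lit 22) (.e (nat_lit 196632) (nat_lit 9) .nil))))))))) (.g (nat_lit 5) .nil .nil)))) 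
(.nd (nat_lit 6) 
(.lf (nat_lit 57000) (.g (nat_lit 1281) (.e (nat_lit 1428) (nat_lit 108) (.e (nat_lit 336430) (nat_lit 29) (.e (nat_lit 442409) (nat_lit 20) (.e (nat_lit 3407) (nat_lit 212) (.e (nat_lit 655376) (nat_lit 4) (.e (nat_lit 172037) (nat_lit 0) (.e (nat_lit 7557) (nat_lit 402) .nil))))))) (.g (nat_lit 4) .nil .nil))) 
(.lf (nat_lit 57064) (.g (nat_lit 745) (.e (nat_lit 1430) (nat_lit 108) (.e (nat_lit 336454) (nat_lit 34) (.e (nat_lit 483398) (nat_lit 25) .nil))) .nil)))) (.nd (nat_lit 5) (.nd (nat_lit 6) 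
(.lf (nat_lit 56984) (.g (nat_lit 1037) (.e (nat_lit 1428) (nat_lit 108) (.e (nat_lit 336414) (nat_lit 27) (.e (nat_lit 426347) (nat_lit 14) (.e (nat_lit 491548) (nat_lit 9) .nil)))) .nil)) 
(.lf (nat_lit 57048) (.g (nat_lit 1340) (.e (nat_lit 1430) (nat_lit 108) (.e (nat_lit 336430) (nat_lit 29) (.e (nat_lit 442379) (nat_lit 0) (.e (nat_lit 2058) (nat_lit 142) .nil)))) .nil))) (.nd (nat_lit 6) 
(.lf (nat_lit 57016) (.g (nat_lit 1597) (.e (nat_lit 1428) (nat_lit 108) (.e (nat_lit 336456) (nat_lit 34) (.e (nat_lit 483383) (nat_lit 23) (.e (nat_lit 336019) (nat_lit 3) .nil)))) .nil)) 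
(.lf (nat_lit 57080) (.g (nat_lit 2047) (.e (nat_lit 1432) (nat_lit 108) (.e (nat_lit 336208) (nat_lit 12) (.e (nat_lit 392960) (nat_lit 24) (.e (nat_lit 516151) (nat_lit 9) (.e (nat_lit 426285) (nat_lit 10) (.e (nat_lit 434295) (nat_lit 49) (.e (nat_lit 745480) (nat_lit 0) .nil))))))) (.g (nat_lit 6) .nil .nil))))))) (.nd (nat_lit 3) (.nd (nat_lit 4) (.nd (nat_lit 5) (.nd (nat_lit 6) 
(.lf (nat_lit 56964) (.g (nat_lit 3186) (.e (nat_lit 1428) (nat_lit 108) (.e (nat_lit 336369) (nat_lit 27) (.e (nat_lit 426317) (nat_lit 12) (.e (nat_lit 475199) (nat_lit 40) (.e (nat_lit 704595) (nat_lit 5) (.e (nat_lit 180277) (nat_lit 32) .nil)))))) (.g (nat_lit 0) .nil .nil))) 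
(.lf (nat_lit 57028) (.g (nat_lit 1471) (.e (nat_lit 1429) (nat_lit 108) (.e (nat_lit 336443) (nat_lit 32) (.e (nat_lit 466969) (nat_lit 21) (.e (nat_lit 164348) (nat_lit 240) .nil)))) .nil))) (.nd (nat_lit 6) 
(.lf (nat_lit 56996) (.g (nat_lit 1379) (.e (nat_lit 1428) (nat_lit 108) (.e (nat_lit 336430) (nat_lit 29) (.e (nat_lit 442402) (nat_lit 20) (.e (nat_lit 3406) (nat_lit 212) (.e (nat_lit 655376) (nat_lit 4) (.e (nat_lit 172037) (nat_lit 0) (.e (nat_lit 7557) (nat_lit 402) .nil))))))) (.g (nat_lit 4) .nil .nil))) 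
(.lf (nat_lit 57060) (.g (nat_lit 809) (.e (nat_lit 1430) (nat_lit 108) (.e (nat_lit 336443) (nat_lit 32) (.e (nat_lit 466977) (nat_lit 22) .nil))) .nil)))) (.nd (nat_lit 5) (.nd (nat_lit 6) 
(.lf (nat_lit 56980) (.g (nat_lit 2303) (.e (nat_lit 1428) (nat_lit 108) (.e (nat_lit 336395) (nat_lit 27) (.e (nat_lit 426338) (nat_lit 14) (.e (nat_lit 491549) (nat_lit 9) (.e (nat_lit 336421) (nat_lit 28) (.e (nat_lit 434181) (nat_lit 0) .nil)))))) (.g (nat_lit 5) .nil .nil))) 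
(.lf (nat_lit 57044) (.g (nat_lit 2265) (.e (nat_lit 1430) (nat_lit 108) (.e (nat_lit 336369) (nat_lit 27) (.e (nat_lit 426173) (nat_lit 7) (.e (nat_lit 409649) (nat_lit 18) (.e (nat_lit 303151) (nat_lit 27) (.e (nat_lit 335894) (nat_lit 0) (.e (nat_lit 1935) (nat_lit 132) (.e (nat_lit 622604) (nat_lit 5) .nil)))))))) (.g (nat_lit 4) .nil .nil)))) (.nd (nat_lit 6) 
(.lf (nat_lit 57012) (.g (nat_lit 2109) (.e (nat_lit 1428) (nat_lit 108) (.e (nat_lit 336443) (nat_lit 32) (.e (nat_lit 466971) (nat_lit 21) (.e (nat_lit 164346) (nat_lit 240) (.e (nat_lit 2638) (nat_lit 165) .nil))))) .nil)) 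
(.lf (nat_lit 57076) (.g (nat_lit 2750) (.e (nat_lit 1432) (nat_lit 108) (.e (nat_lit 336019) (nat_lit 3) (.e (nat_lit 98372) (nat_lit 29) (.e (nat_lit 450579) (nat_lit 5) (.e (nat_lit 532484) (nat_lit 0) .nil))))) .nil))))) (.nd (nat_lit 4) (.nd (nat_lit 5) (.nd (nat_lit 6) 
(.lf (nat_lit 56972) (.g (nat_lit 1519) (.e (nat_lit 1428) (nat_lit 108) (.e (nat_lit 336372) (nat_lit 27) (.e (nat_lit 426320) (nat_lit 12) (.e (nat_lit 475199) (nat_lit 40) (.e (nat_lit 704595) (nat_lit 5) (.e (nat_lit 180278) (nat_lit 32) .nil)))))) (.g (nat_lit 4) .nil .nil))) 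
(.lf (nat_lit 57036) (.g (nat_lit 3716) (.e (nat_lit 1430) (nat_lit 108) (.e (nat_lit 336324) (nat_lit 18) (.e (nat_lit 204831) (nat_lit 18) (.e (nat_lit 57851) (nat_lit 252) (.e (nat_lit 57354) (nat_lit 0) .nil))))) .nil))) (.nd (nat_lit 6) 
(.lf (nat_lit 57004) (.g (nat_lit 1811) (.e (nat_lit 1428) (nat_lit 108) (.e (nat_lit 336430) (nat_lit 29) (.e (nat_lit 442419) (nat_lit 21) (.e (nat_lit 164347) (nat_lit 240) (.e (nat_lit 2639) (nat_lit 165) .nil))))) .nil)) 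
(.lf (nat_lit 57068) (.g (nat_lit 2656) (.e (nat_lit 1431) (nat_lit 108) (.e (nat_lit 336211) (nat_lit 13) (.e (nat_lit 393301) (nat_lit 27) (.e (nat_lit 491559) (nat_lit 10) (.e (nat_lit 344177) (nat_lit 43) .nil))))) .nil)))) (.nd (nat_lit 5) (.nd (nat_lit 6) 
(.lf (nat_lit 56988) (.g (nat_lit 3078) (.e (nat_lit 1428) (nat_lit 108) (.e (nat_lit 336421) (nat_lit 28) (.e (nat_lit 434180) (nat_lit 0) (.e (nat_lit 1661) (nat_lit 115) (.e (nat_lit 393238) (nat_lit 17) (.e (nat_lit 7537) (nat_lit 402) .nil)))))) (.g (nat_lit 0) .nil .nil))) 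
(.lf (nat_lit 57052) (.g (nat_lit 533) (.e (nat_lit 1430) (nat_lit 108) (.e (nat_lit 336430) (nat_lit 29) (.e (nat_lit 442425) (nat_lit 23) .nil))) .nil))) (.nd (nat_lit 6) 
(.lf (nat_lit 57020) (.g (nat_lit 583) (.e (nat_lit 1428) (nat_lit 108) (.e (nat_lit 336456) (nat_lit 34) (.e (nat_lit 483399) (nat_lit 25) .nil))) .nil)) 
(.lf (nat_lit 57084) (.g (nat_lit 1005) (.e (nat_lit 1432) (nat_lit 108) (.e (nat_lit 336208) (nat_lit 12) (.e (nat_lit 385106) (nat_lit 50) (.e (nat_lit 786483) (nat_lit 30) .nil)))) .nil))))))) (.nd (nat_lit 2) (.nd (nat_lit 3) (.nd (nat_lit 4) (.nd (nat_lit 5) (.nd (nat_lit 6) 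
(.lf (nat_lit 56962) (.g (nat_lit 1903) (.e (nat_lit 1428) (nat_lit 108) (.e (nat_lit 336369) (nat_lit 27) (.e (nat_lit 426311) (nat_lit 12) (.e (nat_lit 475198) (nat_lit 40) (.e (nat_lit 704595) (nat_lit 5) .nil))))) .nil)) 
(.lf (nat_lit 57026) (.g (nat_lit 4144) (.e (nat_lit 1429) (nat_lit 108) (.e (nat_lit 336324) (nat_lit 18) (.e (nat_lit 204831) (nat_lit 18) (.e (nat_lit 57854) (nat_lit 252) .nil)))) .nil))) (.nd (nat_lit 6) 
(.lf (nat_lit 56994) (.g (nat_lit 2099) (.e (nat_lit 1428) (nat_lit 108) (.e (nat_lit 336427) (nat_lit 29) (.e (nat_lit 442374) (nat_lit 0) (.e (nat_lit 2059) (nat_lit 142) (.e (nat_lit 704596) (nat_lit 5) (.e (nat_lit 180277) (nat_lit 32) .nil)))))) (.g (nat_lit 4) .nil .nil))) 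
(.lf (nat_lit 57058) (.g (nat_lit 2257) (.e (nat_lit 1430) (nat_lit 108) (.e (nat_lit 336443) (nat_lit 32) (.e (nat_lit 466971) (nat_lit 21) (.e (nat_lit 164348) (nat_lit 240) (.e (nat_lit 2640) (nat_lit 165) (.e (nat_lit 188160) (nat_lit 32) .nil)))))) (.g (nat_lit 5) .nil .nil))))) (.nd (nat_lit 5) (.nd (nat_lit 6) 
(.lf (nat_lit 56978) (.g (nat_lit 1335) (.e (nat_lit 1428) (nat_lit 108) (.e (nat_lit 336395) (nat_lit 27) (.e (nat_lit 426317) (nat_lit 12) (.e (nat_lit 475198) (nat_lit 40) (.e (nat_lit 704595) (nat_lit 5) .nil))))) .nil)) 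
(.lf (nat_lit 57042) (.g (nat_lit 2010) (.e (nat_lit 1430) (nat_lit 108) (.e (nat_lit 336369) (nat_lit 27) (.e (nat_lit 426173) (nat_lit 7) (.e (nat_lit 409649) (nat_lit 18) (.e (nat_lit 303151) (nat_lit 27) .nil))))) .nil))) (.nd (nat_lit 6) 
(.lf (nat_lit 57010) (.g (nat_lit 2360) (.e (nat_lit 1428) (nat_lit 108) (.e (nat_lit 336443) (nat_lit 32) (.e (nat_lit 466969) (nat_lit 21) (.e (nat_lit 164348) (nat_lit 240) (.e (nat_lit 2639) (nat_lit 165) .nil))))) .nil)) 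
(.lf (nat_lit 57074) (.g (nat_lit 814) (.e (nat_lit 1431) (nat_lit 108) (.e (nat_lit 336443) (nat_lit 32) (.e (nat_lit 466972) (nat_lit 21) .nil))) .nil))))) (.nd (nat_lit 4) (.nd (nat_lit 5) (.nd (nat_lit 6) 
(.lf (nat_lit 56970) (.g (nat_lit 2083) (.e (nat_lit 1428) (nat_lit 108) (.e (nat_lit 336369) (nat_lit 27) (.e (nat_lit 426340) (nat_lit 14) (.e (nat_lit 491550) (nat_lit 9) (.e (nat_lit 336421) (nat_lit 28) (.e (nat_lit 434181) (nat_lit 0) .nil)))))) (.g (nat_lit 4) .nil .nil))) 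
(.lf (nat_lit 57034) (.g (nat_lit 4584) (.e (nat_lit 1430) (nat_lit 108) (.e (nat_lit 336324) (nat_lit 18) (.e (nat_lit 204831) (nat_lit 18) (.e (nat_lit 57849) (nat_lit 252) .nil)))) .nil))) (.nd (nat_lit 6) 
(.lf (nat_lit 57002) (.g (nat_lit 1392) (.e (nat_lit 1428) (nat_lit 108) (.e (nat_lit 336430) (nat_lit 29) (.e (nat_lit 442409) (nat_lit 20) (.e (nat_lit 3409) (nat_lit 212) (.e (nat_lit 655376) (nat_lit 4) (.e (nat_lit 172037) (nat_lit 0) (.e (nat_lit 7557) (nat_lit 402) .nil))))))) (.g (nat_lit 4) .nil .nil))) 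
(.lf (nat_lit 57066) (.g (nat_lit 1127) (.e (nat_lit 1430) (nat_lit 108) (.e (nat_lit 336456) (nat_lit 34) (.e (nat_lit 483393) (nat_lit 23) (.e (nat_lit 336004) (nat_lit 2) .nil)))) .nil)))) (.nd (nat_lit 5) (.nd (nat_lit 6) 
(.lf (nat_lit 56986) (.g (nat_lit 2420) (.e (nat_lit 1428) (nat_lit 108) (.e (nat_lit 336414) (nat_lit 27) (.e (nat_lit 426347) (nat_lit 14) (.e (nat_lit 491571) (nat_lit 13) (.e (nat_lit 393242) (nat_lit 17) (.e (nat_lit 7554) (nat_lit 402) .nil)))))) (.g (nat_lit 4) .nil .nil))) 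
(.lf (nat_lit 57050) (.g (nat_lit 1473) (.e (nat_lit 1430) (nat_lit 108) (.e (nat_lit 336430) (nat_lit 29) (.e (nat_lit 442419) (nat_lit 21) (.e (nat_lit 164348) (nat_lit 240) (.e (nat_lit 2638) (nat_lit 165) .nil))))) .nil))) (.nd (nat_lit 6) 
(.lf (nat_lit 57018) (.g (nat_lit 2762) (.e (nat_lit 1428) (nat_lit 108) (.e (nat_lit 336456) (nat_lit 34) (.e (nat_lit 483383) (nat_lit 23) (.e (nat_lit 336019) (nat_lit 3) (.e (nat_lit 98333) (nat_lit 18) (.e (nat_lit 164151) (nat_lit 152) (.e (nat_lit 1089) (nat_lit 81) .nil))))))) (.g (nat_lit 4) .nil .nil))) 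
(.lf (nat_lit 57082) (.g (nat_lit 2420) (.e (nat_lit 1432) (nat_lit 108) (.e (nat_lit 336208) (nat_lit 12) (.e (nat_lit 385104) (nat_lit 50) (.e (nat_lit 786483) (nat_lit 30) (.e (nat_lit 360486) (nat_lit 18) (.e (nat_lit 671751) (nat_lit 0) .nil)))))) (.g (nat_lit 6) .nil .nil))))))) (.nd (nat_lit 3) (.nd (nat_lit 4) (.nd (nat_lit 5) (.nd (nat_lit 6) 
(.lf (nat_lit 56966) (.g (nat_lit 2245) (.e (nat_lit 1428) (nat_lit 108) (.e (nat_lit 336369) (nat_lit 27) (.e (nat_lit 426338) (nat_lit 14) (.e (nat_lit 491549) (nat_lit 9) (.e (nat_lit 336421) (nat_lit 28) (.e (nat_lit 434181) (nat_lit 0) .nil)))))) (.g (nat_lit 4) .nil .nil))) 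
(.lf (nat_lit 57030) (.g (nat_lit 494) (.e (nat_lit 1430) (nat_lit 108) (.e (nat_lit 336324) (nat_lit 18) (.e (nat_lit 204831) (nat_lit 18) .nil))) .nil))) (.nd (nat_lit 6) 
(.lf (nat_lit 56998) (.g (nat_lit 1433) (.e (nat_lit 1428) (nat_lit 108) (.e (nat_lit 336430) (nat_lit 29) (.e (nat_lit 442402) (nat_lit 20) (.e (nat_lit 3409) (nat_lit 212) (.e (nat_lit 655376) (nat_lit 4) (.e (nat_lit 172037) (nat_lit 0) (.e (nat_lit 7557) (nat_lit 402) .nil))))))) (.g (nat_lit 4) .nil .nil))) 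
(.lf (nat_lit 57062) (.g (nat_lit 1225) (.e (nat_lit 1430) (nat_lit 108) (.e (nat_lit 336443) (nat_lit 32) (.e (nat_lit 466979) (nat_lit 23) (.e (nat_lit 212736) (nat_lit 10) .nil)))) .nil)))) (.nd (nat_lit 5) (.nd (nat_lit 6) 
(.lf (nat_lit 56982) (.g (nat_lit 2336) (.e (nat_lit 1428) (nat_lit 108) (.e (nat_lit 336414) (nat_lit 27) (.e (nat_lit 426318) (nat_lit 12) (.e (nat_lit 475199) (nat_lit 40) (.e (nat_lit 704595) (nat_lit 5) (.e (nat_lit 180277) (nat_lit 32) .nil)))))) (.g (nat_lit 6) .nil .nil))) 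
(.lf (nat_lit 57046) (.g (nat_lit 2087) (.e (nat_lit 1430) (nat_lit 108) (.e (nat_lit 336428) (nat_lit 29) (.e (nat_lit 442374) (nat_lit 0) (.e (nat_lit 2059) (nat_lit 142) (.e (nat_lit 704595) (nat_lit 5) (.e (nat_lit 188160) (nat_lit 32) .nil)))))) (.g (nat_lit 5) .nil .nil)))) (.nd (nat_lit 6) 
(.lf (nat_lit 57014) (.g (nat_lit 4090) (.e (nat_lit 1428) (nat_lit 108) (.e (nat_lit 336454) (nat_lit 34) (.e (nat_lit 483365) (nat_lit 18) (.e (nat_lit 57848) (nat_lit 252) .nil)))) .nil)) 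
(.lf (nat_lit 57078) (.g (nat_lit 2115) (.e (nat_lit 1432) (nat_lit 108) (.e (nat_lit 336019) (nat_lit 3) (.e (nat_lit 98381) (nat_lit 31) (.e (nat_lit 466977) (nat_lit 22) (.e (nat_lit 196658) (nat_lit 12) .nil))))) .nil))))) (.nd (nat_lit 4) (.nd (nat_lit 5) (.nd (nat_lit 6) 
(.lf (nat_lit 56974) (.g (nat_lit 1863) (.e (nat_lit 1428) (nat_lit 108) (.e (nat_lit 336395) (nat_lit 27) (.e (nat_lit 426305) (nat_lit 12) (.e (nat_lit 475198) (nat_lit 40) (.e (nat_lit 704595) (nat_lit 5) .nil))))) .nil)) 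
(.lf (nat_lit 57038) (.g (nat_lit 5332) (.e (nat_lit 1430) (nat_lit 108) (.e (nat_lit 336324) (nat_lit 18) (.e (nat_lit 204831) (nat_lit 18) (.e (nat_lit 57852) (nat_lit 252) (.e (nat_lit 57354) (nat_lit 0) .nil))))) .nil))) (.nd (nat_lit 6) 
(.lf (nat_lit 57006) (.g (nat_lit 1397) (.e (nat_lit 1428) (nat_lit 108) (.e (nat_lit 336432) (nat_lit 30) (.e (nat_lit 450565) (nat_lit 0) (.e (nat_lit 5546) (nat_lit 306) (.e (nat_lit 2639) (nat_lit 165) .nil))))) .nil)) 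
(.lf (nat_lit 57070) (.g (nat_lit 964) (.e (nat_lit 1431) (nat_lit 108) (.e (nat_lit 336434) (nat_lit 30) (.e (nat_lit 450564) (nat_lit 0) (.e (nat_lit 5548) (nat_lit 306) (.e (nat_lit 2638) (nat_lit 165) (.e (nat_lit 188160) (nat_lit 32) .nil)))))) (.g (nat_lit 4) .nil .nil))))) (.nd (nat_lit 5) (.nd (nat_lit 6) 
(.lf (nat_lit 56990) (.g (nat_lit 2803) (.e (nat_lit 1428) (nat_lit 108) (.e (nat_lit 336421) (nat_lit 28) (.e (nat_lit 434181) (nat_lit 0) (.e (nat_lit 1661) (nat_lit 115) (.e (nat_lit 393238) (nat_lit 17) (.e (nat_lit 7537) (nat_lit 402) .nil)))))) (.g (nat_lit 0) .nil .nil))) 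
(.lf (nat_lit 57054) (.g (nat_lit 1566) (.e (nat_lit 1430) (nat_lit 108) (.e (nat_lit 336430) (nat_lit 29) (.e (nat_lit 442427) (nat_lit 23) (.e (nat_lit 212736) (nat_lit 10) (.e (nat_lit 434279) (nat_lit 39) (.e (nat_lit 663556) (nat_lit 0) .nil)))))) (.g (nat_lit 5) .nil .nil)))) (.nd (nat_lit 6) 
(.lf (nat_lit 57022) (.g (nat_lit 3996) (.e (nat_lit 1429) (nat_lit 108) (.e (nat_lit 336324) (nat_lit 18) (.e (nat_lit 204831) (nat_lit 18) (.e (nat_lit 57830) (nat_lit 250) .nil)))) .nil)) 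
(.lf (nat_lit 57086) (.g (nat_lit 2791) (.e (nat_lit 1432) (nat_lit 108) (.e (nat_lit 336211) (nat_lit 13) (.e (nat_lit 393301) (nat_lit 27) (.e (nat_lit 491560) (nat_lit 10) (.e (nat_lit 344175) (nat_lit 43) .nil))))) .nil)))))))) (.nd (nat_lit 1) (.nd (nat_lit 2) (.nd (nat_lit 3) (.nd (nat_lit 4) (.nd (nat_lit 5) (.nd (nat_lit 6) 
(.lf (nat_lit 56961) (.g (nat_lit 3399) (.e (nat_lit 1428) (nat_lit 108) (.e (nat_lit 336369) (nat_lit 27) (.e (nat_lit 426310) (nat_lit 12) (.e (nat_lit 475199) (nat_lit 40) (.e (nat_lit 704596) (nat_lit 5) (.e (nat_lit 180277) (nat_lit 32) .nil)))))) (.g (nat_lit 0) .nil .nil))) 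
(.lf (nat_lit 57025) (.g (nat_lit 4112) (.e (nat_lit 1429) (nat_lit 108) (.e (nat_lit 336324) (nat_lit 18) (.e (nat_lit 204831) (nat_lit 18) (.e (nat_lit 57852) (nat_lit 252) .nil)))) .nil))) (.nd (nat_lit 6) 
(.lf (nat_lit 56993) (.g (nat_lit 2048) (.e (nat_lit 1428) (nat_lit 108) (.e (nat_lit 336427) (nat_lit 29) (.e (nat_lit 442374) (nat_lit 0) (.e (nat_lit 2059) (nat_lit 142) (.e (nat_lit 704595) (nat_lit 5) (.e (nat_lit 180278) (nat_lit 32) .nil)))))) (.g (nat_lit 4) .nil .nil))) 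
(.lf (nat_lit 57057) (.g (nat_lit 819) (.e (nat_lit 1430) (nat_lit 108) (.e (nat_lit 336443) (nat_lit 32) (.e (nat_lit 466971) (nat_lit 21) .nil))) .nil)))) (.nd (nat_lit 5) (.nd (nat_lit 6) 
(.lf (nat_lit 56977) (.g (nat_lit 1582) (.e (nat_lit 1428) (nat_lit 108) (.e (nat_lit 336395) (nat_lit 27) (.e (nat_lit 426305) (nat_lit 12) (.e (nat_lit 475199) (nat_lit 40) (.e (nat_lit 704596) (nat_lit 5) .nil))))) .nil)) 
(.lf (nat_lit 57041) (.g (nat_lit 1748) (.e (nat_lit 1430) (nat_lit 108) (.e (nat_lit 336324) (nat_lit 18) (.e (nat_lit 204854) (nat_lit 26) (.e (nat_lit 336316) (nat_lit 17) .nil)))) .nil))) (.nd (nat_lit 6) 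
(.lf (nat_lit 57009) (.g (nat_lit 1431) (.e (nat_lit 1428) (nat_lit 108) (.e (nat_lit 336434) (nat_lit 30) (.e (nat_lit 450593) (nat_lit 16) (.e (nat_lit 655376) (nat_lit 4) (.e (nat_lit 172037) (nat_lit 0) (.e (nat_lit 7557) (nat_lit 402) .nil)))))) (.g (nat_lit 4) .nil .nil))) 
(.lf (nat_lit 57073) (.g (nat_lit 2156) (.e (nat_lit 1431) (nat_lit 108) (.e (nat_lit 336443) (nat_lit 32) (.e (nat_lit 466971) (nat_lit 21) (.e (nat_lit 164348) (nat_lit 240) (.e (nat_lit 2640) (nat_lit 165) (.e (nat_lit 188160) (nat_lit 32) .nil)))))) (.g (nat_lit 5) .nil .nil)))))) (.nd (nat_lit 4) (.nd (nat_lit 5) (.nd (nat_lit 6) 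
(.lf (nat_lit 56969) (.g (nat_lit 1995) (.e (nat_lit 1428) (nat_lit 108) (.e (nat_lit 336369) (nat_lit 27) (.e (nat_lit 426340) (nat_lit 14) (.e (nat_lit 491550) (nat_lit 9) (.e (nat_lit 336421) (nat_lit 28) (.e (nat_lit 434180) (nat_lit 0) .nil)))))) (.g (nat_lit 4) .nil .nil))) 
(.lf (nat_lit 57033) (.g (nat_lit 4125) (.e (nat_lit 1430) (nat_lit 108) (.e (nat_lit 336324) (nat_lit 18) (.e (nat_lit 204831) (nat_lit 18) (.e (nat_lit 57847) (nat_lit 252) .nil)))) .nil))) (.nd (nat_lit 6) 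
(.lf (nat_lit 57001) (.g (nat_lit 1298) (.e (nat_lit 1428) (nat_lit 108) (.e (nat_lit 336430) (nat_lit 29) (.e (nat_lit 442409) (nat_lit 20) (.e (nat_lit 3408) (nat_lit 212) (.e (nat_lit 655376) (nat_lit 4) (.e (nat_lit 172037) (nat_lit 0) (.e (nat_lit 7557) (nat_lit 402) .nil))))))) (.g (nat_lit 4) .nil .nil))) 
(.lf (nat_lit 57065) (.g (nat_lit 2134) (.e (nat_lit 1430) (nat_lit 108) (.e (nat_lit 336456) (nat_lit 34) (.e (nat_lit 483383) (nat_lit 23) (.e (nat_lit 336019) (nat_lit 3) (.e (nat_lit 98334) (nat_lit 18) .nil))))) .nil)))) (.nd (nat_lit 5) (.nd (nat_lit 6) 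
(.lf (nat_lit 56985) (.g (nat_lit 3097) (.e (nat_lit 1428) (nat_lit 108) (.e (nat_lit 336414) (nat_lit 27) (.e (nat_lit 426347) (nat_lit 14) (.e (nat_lit 491549) (nat_lit 9) (.e (nat_lit 336421) (nat_lit 28) (.e (nat_lit 434180) (nat_lit 0) .nil)))))) (.g (nat_lit 5) .nil .nil))) 
(.lf (nat_lit 57049) (.g (nat_lit 1974) (.e (nat_lit 1430) (nat_lit 108) (.e (nat_lit 336430) (nat_lit 29) (.e (nat_lit 442379) (nat_lit 0) (.e (nat_lit 2059) (nat_lit 142) (.e (nat_lit 704595) (nat_lit 5) (.e (nat_lit 188160) (nat_lit 32) .nil)))))) (.g (nat_lit 4) .nil .nil)))) (.nd (nat_lit 6) 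
(.lf (nat_lit 57017) (.g (nat_lit 3191) (.e (nat_lit 1428) (nat_lit 108) (.e (nat_lit 336456) (nat_lit 34) (.e (nat_lit 483383) (nat_lit 23) (.e (nat_lit 336019) (nat_lit 3) (.e (nat_lit 98333) (nat_lit 18) (.e (nat_lit 164151) (nat_lit 152) (.e (nat_lit 1056) (nat_lit 81) .nil))))))) (.g (nat_lit 5) .nil .nil))) 
(.lf (nat_lit 57081) (.g (nat_lit 453) (.e (nat_lit 1432) (nat_lit 108) (.e (nat_lit 336208) (nat_lit 12) (.e (nat_lit 385103) (nat_lit 50) .nil))) .nil)))))) (.nd (nat_lit 3) (.nd (nat_lit 4) (.nd (nat_lit 5) (.nd (nat_lit 6) 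
(.lf (nat_lit 56965) (.g (nat_lit 1955) (.e (nat_lit 1428) (nat_lit 108) (.e (nat_lit 336369) (nat_lit 27) (.e (nat_lit 426317) (nat_lit 12) (.e (nat_lit 475211) (nat_lit 41) (.e (nat_lit 712749) (nat_lit 28) .nil))))) .nil)) 
(.lf (nat_lit 57029) (.g (nat_lit 674) (.e (nat_lit 1430) (nat_lit 108) (.e (nat_lit 336324) (nat_lit 18) (.e (nat_lit 204830) (nat_lit 18) .nil))) .nil))) (.nd (nat_lit 6) 
(.lf (nat_lit 56997) (.g (nat_lit 1313) (.e (nat_lit 1428) (nat_lit 108) (.e (nat_lit 336430) (nat_lit 29) (.e (nat_lit 442402) (nat_lit 20) (.e (nat_lit 3408) (nat_lit 212) (.e (nat_lit 655376) (nat_lit 4) (.e (nat_lit 172037) (nat_lit 0) (.e (nat_lit 7557) (nat_lit 402) .nil))))))) (.g (nat_lit 4) .nil .nil))) 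
(.lf (nat_lit 57061) (.g (nat_lit 2532) (.e (nat_lit 1430) (nat_lit 108) (.e (nat_lit 336443) (nat_lit 32) (.e (nat_lit 466977) (nat_lit 22) (.e (nat_lit 196624) (nat_lit 9) (.e (nat_lit 442) (nat_lit 33) .nil))))) .nil)))) (.nd (nat_lit 5) (.nd (nat_lit 6) 
(.lf (nat_lit 56981) (.g (nat_lit 755) (.e (nat_lit 1428) (nat_lit 108) (.e (nat_lit 336395) (nat_lit 27) (.e (nat_lit 426340) (nat_lit 14) (.e (nat_lit 491548) (nat_lit 9) (.e (nat_lit 336421) (nat_lit 28) .nil))))) .nil)) 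
(.lf (nat_lit 57045) (.g (nat_lit 1325) (.e (nat_lit 1430) (nat_lit 108) (.e (nat_lit 336369) (nat_lit 27) (.e (nat_lit 426317) (nat_lit 12) (.e (nat_lit 475198) (nat_lit 40) .nil)))) .nil))) (.nd (nat_lit 6) 
(.lf (nat_lit 57013) (.g (nat_lit 2224) (.e (nat_lit 1428) (nat_lit 108) (.e (nat_lit 336443) (nat_lit 32) (.e (nat_lit 466971) (nat_lit 21) (.e (nat_lit 164348) (nat_lit 240) (.e (nat_lit 2639) (nat_lit 165) .nil))))) .nil)) 
(.lf (nat_lit 57077) (.g (nat_lit 1164) (.e (nat_lit 1432) (nat_lit 108) (.e (nat_lit 336019) (nat_lit 3) (.e (nat_lit 98381) (nat_lit 31) (.e (nat_lit 466977) (nat_lit 22) .nil)))) .nil))))) (.nd (nat_lit 4) (.nd (nat_lit 5) (.nd (nat_lit 6) 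
(.lf (nat_lit 56973) (.g (nat_lit 1406) (.e (nat_lit 1428) (nat_lit 108) (.e (nat_lit 336372) (nat_lit 27) (.e (nat_lit 426320) (nat_lit 12) (.e (nat_lit 475199) (nat_lit 40) (.e (nat_lit 704596) (nat_lit 5) (.e (nat_lit 180277) (nat_lit 32) .nil)))))) (.g (nat_lit 4) .nil .nil))) 
(.lf (nat_lit 57037) (.g (nat_lit 4075) (.e (nat_lit 1430) (nat_lit 108) (.e (nat_lit 336324) (nat_lit 18) (.e (nat_lit 204831) (nat_lit 18) (.e (nat_lit 57852) (nat_lit 252) .nil)))) .nil))) (.nd (nat_lit 6) 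
(.lf (nat_lit 57005) (.g (nat_lit 1757) (.e (nat_lit 1428) (nat_lit 108) (.e (nat_lit 336432) (nat_lit 30) (.e (nat_lit 450564) (nat_lit 0) (.e (nat_lit 5548) (nat_lit 306) (.e (nat_lit 2638) (nat_lit 165) .nil))))) .nil)) 
(.lf (nat_lit 57069) (.g (nat_lit 2029) (.e (nat_lit 1431) (nat_lit 108) (.e (nat_lit 336428) (nat_lit 29) (.e (nat_lit 442374) (nat_lit 0) (.e (nat_lit 2059) (nat_lit 142) (.e (nat_lit 704595) (nat_lit 5) (.e (nat_lit 188160) (nat_lit 32) .nil)))))) (.g (nat_lit 5) .nil .nil))))) (.nd (nat_lit 5) (.nd (nat_lit 6) 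
(.lf (nat_lit 56989) (.g (nat_lit 2792) (.e (nat_lit 1428) (nat_lit 108) (.e (nat_lit 336421) (nat_lit 28) (.e (nat_lit 434180) (nat_lit 0) (.e (nat_lit 1661) (nat_lit 115) (.e (nat_lit 393238) (nat_lit 17) (.e (nat_lit 7555) (nat_lit 402) .nil)))))) (.g (nat_lit 5) .nil .nil))) 
(.lf (nat_lit 57053) (.g (nat_lit 520) (.e (nat_lit 1430) (nat_lit 108) (.e (nat_lit 336430) (nat_lit 29) (.e (nat_lit 442427) (nat_lit 23) .nil))) .nil))) (.nd (nat_lit 6) 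
(.lf (nat_lit 57021) (.g (nat_lit 586) (.e (nat_lit 1429) (nat_lit 108) (.e (nat_lit 336324) (nat_lit 18) (.e (nat_lit 204831) (nat_lit 18) .nil))) .nil)) 
(.lf (nat_lit 57085) (.g (nat_lit 3758) (.e (nat_lit 1432) (nat_lit 108) (.e (nat_lit 336211) (nat_lit 13) (.e (nat_lit 393301) (nat_lit 27) (.e (nat_lit 491559) (nat_lit 10) (.e (nat_lit 344177) (nat_lit 43) (.e (nat_lit 770062) (nat_lit 5) .nil)))))) (.g (nat_lit 0) .nil .nil)))))))) (.nd (nat_lit 2) (.nd (nat_lit 3) (.nd (nat_lit 4) (.nd (nat_lit 5) (.nd (nat_lit 6) 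
(.lf (nat_lit 56963) (.g (nat_lit 2994) (.e (nat_lit 1428) (nat_lit 108) (.e (nat_lit 336369) (nat_lit 27) (.e (nat_lit 426317) (nat_lit 12) (.e (nat_lit 475198) (nat_lit 40) (.e (nat_lit 704596) (nat_lit 5) (.e (nat_lit 180277) (nat_lit 32) .nil)))))) (.g (nat_lit 5) .nil .nil))) 
(.lf (nat_lit 57027) (.g (nat_lit 2086) (.e (nat_lit 1429) (nat_lit 108) (.e (nat_lit 336428) (nat_lit 29) (.e (nat_lit 442374) (nat_lit 0) (.e (nat_lit 2059) (nat_lit 142) (.e (nat_lit 704595) (nat_lit 5) (.e (nat_lit 188160) (nat_lit 32) .nil)))))) (.g (nat_lit 5) .nil .nil)))) (.nd (nat_lit 6) 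
(.lf (nat_lit 56995) (.g (nat_lit 515) (.e (nat_lit 1428) (nat_lit 108) (.e (nat_lit 336430) (nat_lit 29) (.e (nat_lit 442376) (nat_lit 0) (.e (nat_lit 2147) (nat_lit 142) .nil)))) .nil)) 
(.lf (nat_lit 57059) (.g (nat_lit 814) (.e (nat_lit 1430) (nat_lit 108) (.e (nat_lit 336443) (nat_lit 32) (.e (nat_lit 466972) (nat_lit 21) .nil))) .nil)))) (.nd (nat_lit 5) (.nd (nat_lit 6) 
(.lf (nat_lit 56979) (.g (nat_lit 1275) (.e (nat_lit 1428) (nat_lit 108) (.e (nat_lit 336395) (nat_lit 27) (.e (nat_lit 426317) (nat_lit 12) (.e (nat_lit 475199) (nat_lit 40) (.e (nat_lit 704595) (nat_lit 5) .nil))))) .nil)) 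
(.lf (nat_lit 57043) (.g (nat_lit 2367) (.e (nat_lit 1430) (nat_lit 108) (.e (nat_lit 336369) (nat_lit 27) (.e (nat_lit 426173) (nat_lit 7) (.e (nat_lit 409649) (nat_lit 18) (.e (nat_lit 303151) (nat_lit 27) (.e (nat_lit 335894) (nat_lit 0) (.e (nat_lit 1935) (nat_lit 132) (.e (nat_lit 622603) (nat_lit 5) .nil)))))))) (.g (nat_lit 5) .nil .nil)))) (.nd (nat_lit 6) 
(.lf (nat_lit 57011) (.g (nat_lit 1723) (.e (nat_lit 1428) (nat_lit 108) (.e (nat_lit 336443) (nat_lit 32) (.e (nat_lit 466971) (nat_lit 21) (.e (nat_lit 164346) (nat_lit 240) .nil)))) .nil)) 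
(.lf (nat_lit 57075) (.g (nat_lit 1459) (.e (nat_lit 1432) (nat_lit 108) (.e (nat_lit 336019) (nat_lit 3) (.e (nat_lit 98342) (nat_lit 20) (.e (nat_lit 221198) (nat_lit 20) .nil)))) .nil))))) (.nd (nat_lit 4) (.nd (nat_lit 5) (.nd (nat_lit 6) 
(.lf (nat_lit 56971) (.g (nat_lit 1917) (.e (nat_lit 1428) (nat_lit 108) (.e (nat_lit 336369) (nat_lit 27) (.e (nat_lit 426340) (nat_lit 14) (.e (nat_lit 491571) (nat_lit 13) (.e (nat_lit 393242) (nat_lit 17) .nil))))) .nil)) 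
(.lf (nat_lit 57035) (.g (nat_lit 3256) (.e (nat_lit 1430) (nat_lit 108) (.e (nat_lit 336324) (nat_lit 18) (.e (nat_lit 204831) (nat_lit 18) (.e (nat_lit 57851) (nat_lit 252) .nil)))) .nil))) (.nd (nat_lit 6) 
(.lf (nat_lit 57003) (.g (nat_lit 535) (.e (nat_lit 1428) (nat_lit 108) (.e (nat_lit 336430) (nat_lit 29) (.e (nat_lit 442412) (nat_lit 20) .nil))) .nil)) 
(.lf (nat_lit 57067) (.g (nat_lit 958) (.e (nat_lit 1431) (nat_lit 108) (.e (nat_lit 336208) (nat_lit 12) (.e (nat_lit 385104) (nat_lit 50) (.e (nat_lit 786483) (nat_lit 30) .nil)))) .nil)))) (.nd (nat_lit 5) (.nd (nat_lit 6) 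
(.lf (nat_lit 56987) (.g (nat_lit 2761) (.e (nat_lit 1428) (nat_lit 108) (.e (nat_lit 336414) (nat_lit 27) (.e (nat_lit 426347) (nat_lit 14) (.e (nat_lit 491571) (nat_lit 13) (.e (nat_lit 393242) (nat_lit 17) (.e (nat_lit 7556) (nat_lit 402) .nil)))))) (.g (nat_lit 5) .nil .nil))) 
(.lf (nat_lit 57051) (.g (nat_lit 1906) (.e (nat_lit 1430) (nat_lit 108) (.e (nat_lit 336430) (nat_lit 29) (.e (nat_lit 442419) (nat_lit 21) (.e (nat_lit 164348) (nat_lit 240) (.e (nat_lit 2640) (nat_lit 165) .nil))))) .nil))) (.nd (nat_lit 6) 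
(.lf (nat_lit 57019) (.g (nat_lit 584) (.e (nat_lit 1428) (nat_lit 108) (.e (nat_lit 336456) (nat_lit 34) (.e (nat_lit 483398) (nat_lit 25) .nil))) .nil)) 
(.lf (nat_lit 57083) (.g (nat_lit 1741) (.e (nat_lit 1432) (nat_lit 108) (.e (nat_lit 336208) (nat_lit 12) (.e (nat_lit 385105) (nat_lit 50) (.e (nat_lit 786483) (nat_lit 30) (.e (nat_lit 368384) (nat_lit 17) .nil))))) .nil)))))) (.nd (nat_lit 3) (.nd (nat_lit 4) (.nd (nat_lit 5) (.nd (nat_lit 6) 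
(.lf (nat_lit 56967) (.g (nat_lit 586) (.e (nat_lit 1428) (nat_lit 108) (.e (nat_lit 336369) (nat_lit 27) (.e (nat_lit 426340) (nat_lit 14) .nil))) .nil)) 
(.lf (nat_lit 57031) (.g (nat_lit 3816) (.e (nat_lit 1430) (nat_lit 108) (.e (nat_lit 336324) (nat_lit 18) (.e (nat_lit 204831) (nat_lit 18) (.e (nat_lit 57830) (nat_lit 250) .nil)))) .nil))) (.nd (nat_lit 6) 
(.lf (nat_lit 56999) (.g (nat_lit 1417) (.e (nat_lit 1428) (nat_lit 108) (.e (nat_lit 336430) (nat_lit 29) (.e (nat_lit 442409) (nat_lit 20) (.e (nat_lit 3406) (nat_lit 212) (.e (nat_lit 655376) (nat_lit 4) (.e (nat_lit 172037) (nat_lit 0) (.e (nat_lit 7557) (nat_lit 402) .nil))))))) (.g (nat_lit 4) .nil .nil))) 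
(.lf (nat_lit 57063) (.g (nat_lit 805) (.e (nat_lit 1430) (nat_lit 108) (.e (nat_lit 336443) (nat_lit 32) (.e (nat_lit 466981) (nat_lit 23) .nil))) .nil)))) (.nd (nat_lit 5) (.nd (nat_lit 6) 
(.lf (nat_lit 56983) (.g (nat_lit 2547) (.e (nat_lit 1428) (nat_lit 108) (.e (nat_lit 336414) (nat_lit 27) (.e (nat_lit 426318) (nat_lit 12) (.e (nat_lit 475199) (nat_lit 40) (.e (nat_lit 704595) (nat_lit 5) (.e (nat_lit 180278) (nat_lit 32) .nil)))))) (.g (nat_lit 0) .nil .nil))) 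
(.lf (nat_lit 57047) (.g (nat_lit 882) (.e (nat_lit 1430) (nat_lit 108) (.e (nat_lit 336430) (nat_lit 29) (.e (nat_lit 442379) (nat_lit 0) .nil))) .nil))) (.nd (nat_lit 6) 
(.lf (nat_lit 57015) (.g (nat_lit 4091) (.e (nat_lit 1428) (nat_lit 108) (.e (nat_lit 336454) (nat_lit 34) (.e (nat_lit 483365) (nat_lit 18) (.e (nat_lit 57854) (nat_lit 252) .nil)))) .nil)) 
(.lf (nat_lit 57079) (.g (nat_lit 1696) (.e (nat_lit 1432) (nat_lit 108) (.e (nat_lit 336019) (nat_lit 3) (.e (nat_lit 98381) (nat_lit 31) (.e (nat_lit 466977) (nat_lit 22) (.e (nat_lit 196677) (nat_lit 16) .nil))))) .nil))))) (.nd (nat_lit 4) (.nd (nat_lit 5) (.nd (nat_lit 6) 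
(.lf (nat_lit 56975) (.g (nat_lit 1593) (.e (nat_lit 1428) (nat_lit 108) (.e (nat_lit 336395) (nat_lit 27) (.e (nat_lit 426305) (nat_lit 12) (.e (nat_lit 475199) (nat_lit 40) (.e (nat_lit 704595) (nat_lit 5) .nil))))) .nil)) 
(.lf (nat_lit 57039) (.g (nat_lit 5257) (.e (nat_lit 1430) (nat_lit 108) (.e (nat_lit 336324) (nat_lit 18) (.e (nat_lit 204831) (nat_lit 18) (.e (nat_lit 57852) (nat_lit 252) (.e (nat_lit 57376) (nat_lit 3) .nil))))) .nil))) (.nd (nat_lit 6) 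
(.lf (nat_lit 57007) (.g (nat_lit 1296) (.e (nat_lit 1428) (nat_lit 108) (.e (nat_lit 336432) (nat_lit 30) (.e (nat_lit 450565) (nat_lit 0) (.e (nat_lit 5546) (nat_lit 306) (.e (nat_lit 2640) (nat_lit 165) .nil))))) .nil)) 
(.lf (nat_lit 57071) (.g (nat_lit 795) (.e (nat_lit 1431) (nat_lit 108) (.e (nat_lit 336443) (nat_lit 32) (.e (nat_lit 466969) (nat_lit 21) .nil))) .nil)))) (.nd (nat_lit 5) (.nd (nat_lit 6) 
(.lf (nat_lit 56991) (.g (nat_lit 2642) (.e (nat_lit 1428) (nat_lit 108) (.e (nat_lit 336421) (nat_lit 28) (.e (nat_lit 434181) (nat_lit 0) (.e (nat_lit 1661) (nat_lit 115) (.e (nat_lit 393238) (nat_lit 17) (.e (nat_lit 7555) (nat_lit 402) .nil)))))) (.g (nat_lit 5) .nil .nil))) 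
(.lf (nat_lit 57055) (.g (nat_lit 795) (.e (nat_lit 1430) (nat_lit 108) (.e (nat_lit 336443) (nat_lit 32) (.e (nat_lit 466969) (nat_lit 21) .nil))) .nil))) (.nd (nat_lit 6) 
(.lf (nat_lit 57023) (.g (nat_lit 4808) (.e (nat_lit 1429) (nat_lit 108) (.e (nat_lit 336324) (nat_lit 18) (.e (nat_lit 204831) (nat_lit 18) (.e (nat_lit 57849) (nat_lit 252) .nil)))) .nil)) 
(.lf (nat_lit 57087) (.g (nat_lit 935) (.e (nat_lit 1432) (nat_lit 108) (.e (nat_lit 336324) (nat_lit 18) (.e (nat_lit 204862) (nat_lit 27) .nil))) .nil)))))))))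

noncomputable def tv785 : DT := (.nd (nat_lit 0) (.nd (nat_lit 1) (.nd (nat_lit 2) (.nd (nat_lit 3) (.nd (nat_lit 4) (.nd (nat_lit 5) (.nd (nat_lit 6) 
(.lf (nat_lit 57088) (.g (nat_lit 968) (.e (nat_lit 1432) (nat_lit 108) (.e (nat_lit 336324) (nat_lit 18) (.e (nat_lit 204864) (nat_lit 27) .nil))) .nil)) 
(.lf (nat_lit 57152) (.g (nat_lit 1916) (.e (nat_lit 1433) (nat_lit 108) (.e (nat_lit 336454) (nat_lit 34) (.e (nat_lit 483380) (nat_lit 23) (.e (nat_lit 336324) (nat_lit 18) (.e (nat_lit 204831) (nat_lit 18) .nil))))) .nil))) (.nd (nat_lit 6) 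
(.lf (nat_lit 57120) (.g (nat_lit 1439) (.e (nat_lit 1433) (nat_lit 108) (.e (nat_lit 336324) (nat_lit 18) (.e (nat_lit 204881) (nat_lit 32) (.e (nat_lit 385066) (nat_lit 26) (.e (nat_lit 532530) (nat_lit 9) .nil))))) .nil)) 
(.lf (nat_lit 57184) (.g (nat_lit 3140) (.e (nat_lit 1438) (nat_lit 108) (.e (nat_lit 336024) (nat_lit 3) (.e (nat_lit 98373) (nat_lit 29) (.e (nat_lit 450588) (nat_lit 10) (.e (nat_lit 573473) (nat_lit 12) (.e (nat_lit 57569) (nat_lit 53) (.e (nat_lit 761866) (nat_lit 5) .nil))))))) (.g (nat_lit 4) .nil .nil))))) (.nd (nat_lit 5) (.nd (nat_lit 6) 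
(.lf (nat_lit 57104) (.g (nat_lit 2172) (.e (nat_lit 1432) (nat_lit 108) (.e (nat_lit 336443) (nat_lit 32) (.e (nat_lit 466977) (nat_lit 22) (.e (nat_lit 196654) (nat_lit 11) (.e (nat_lit 16388) (nat_lit 0) .nil))))) .nil)) 
(.lf (nat_lit 57168) (.g (nat_lit 1863) (.e (nat_lit 1435) (nat_lit 108) (.e (nat_lit 336060) (nat_lit 7) (.e (nat_lit 319505) (nat_lit 10) (.e (nat_lit 618) (nat_lit 48) (.e (nat_lit 557103) (nat_lit 14) .nil))))) .nil))) (.nd (nat_lit 6) 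
(.lf (nat_lit 57136) (.g (nat_lit 1934) (.e (nat_lit 1433) (nat_lit 108) (.e (nat_lit 336430) (nat_lit 29) (.e (nat_lit 442419) (nat_lit 21) (.e (nat_lit 164348) (nat_lit 240) (.e (nat_lit 2640) (nat_lit 165) .nil))))) .nil)) 
(.lf (nat_lit 57200) (.g (nat_lit 2326) (.e (nat_lit 1438) (nat_lit 108) (.e (nat_lit 336173) (nat_lit 10) (.e (nat_lit 344169) (nat_lit 40) (.e (nat_lit 671751) (nat_lit 0) (.e (nat_lit 1524) (nat_lit 108) (.e (nat_lit 336076) (nat_lit 9) (.e (nat_lit 336332) (nat_lit 19) (.e (nat_lit 212996) (nat_lit 0) .nil)))))))) (.g (nat_lit 5) .nil .nil)))))) 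
(.nd (nat_lit 4) (.nd (nat_lit 5) (.nd (nat_lit 6) 
(.lf (nat_lit 57096) (.g (nat_lit 650) (.e (nat_lit 1432) (nat_lit 108) (.e (nat_lit 336443) (nat_lit 32) (.e (nat_lit 466972) (nat_lit 21) .nil))) .nil)) 
(.lf (nat_lit 57160) (.g (nat_lit 2682) (.e (nat_lit 1433) (nat_lit 108) (.e (nat_lit 336454) (nat_lit 34) (.e (nat_lit 483406) (nat_lit 26) (.e (nat_lit 385066) (nat_lit 26) (.e (nat_lit 532501) (nat_lit 1) .nil))))) .nil))) (.nd (nat_lit 6) 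
(.lf (nat_lit 57128) (.g (nat_lit 1451) (.e (nat_lit 1433) (nat_lit 108) (.e (nat_lit 336369) (nat_lit 27) (.e (nat_lit 426173) (nat_lit 7) (.e (nat_lit 409617) (nat_lit 10) .nil)))) .nil)) 
(.lf (nat_lit 57192) (.g (nat_lit 1808) (.e (nat_lit 1438) (nat_lit 108) (.e (nat_lit 336060) (nat_lit 7) (.e (nat_lit 319534) (nat_lit 16) (.e (nat_lit 286756) (nat_lit 10) (.e (nat_lit 344160) (nat_lit 37) .nil))))) .nil)))) (.nd (nat_lit 5) (.nd (nat_lit 6) 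
(.lf (nat_lit 57112) (.g (nat_lit 4043) (.e (nat_lit 1433) (nat_lit 108) (.e (nat_lit 336324) (nat_lit 18) (.e (nat_lit 204831) (nat_lit 18) (.e (nat_lit 57830) (nat_lit 250) .nil)))) .nil)) 
(.lf (nat_lit 57176) (.g (nat_lit 2689) (.e (nat_lit 1435) (nat_lit 108) (.e (nat_lit 336060) (nat_lit 7) (.e (nat_lit 319534) (nat_lit 16) (.e (nat_lit 286756) (nat_lit 10) (.e (nat_lit 344160) (nat_lit 37) (.e (nat_lit 647195) (nat_lit 9) (.e (nat_lit 1181) (nat_lit 87) (.e (nat_lit 57657) (nat_lit 152) (.e (nat_lit 1070) (nat_lit 81) .nil))))))))) (.g (nat_lit 4) .nil .nil)))) (.nd (nat_lit 6) 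
(.lf (nat_lit 57144) (.g (nat_lit 777) (.e (nat_lit 1433) (nat_lit 108) (.e (nat_lit 336432) (nat_lit 30) (.e (nat_lit 450593) (nat_lit 16) (.e (nat_lit 655379) (nat_lit 5) .nil)))) .nil)) 
(.lf (nat_lit 57208) (.g (nat_lit 1846) (.e (nat_lit 1438) (nat_lit 108) (.e (nat_lit 336193) (nat_lit 12) (.e (nat_lit 385106) (nat_lit 50) (.e (nat_lit 786480) (nat_lit 29) (.e (nat_lit 352270) (nat_lit 8) .nil))))) .nil)))))) (.nd (nat_lit 3) (.nd (nat_lit 4) (.nd (nat_lit 5) (.nd (nat_lit 6) 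
(.lf (nat_lit 57092) (.g (nat_lit 607) (.e (nat_lit 1432) (nat_lit 108) (.e (nat_lit 336443) (nat_lit 32) (.e (nat_lit 466969) (nat_lit 21) .nil))) .nil)) 
(.lf (nat_lit 57156) (.g (nat_lit 2544) (.e (nat_lit 1433) (nat_lit 108) (.e (nat_lit 336454) (nat_lit 34) (.e (nat_lit 483383) (nat_lit 23) (.e (nat_lit 336324) (nat_lit 18) (.e (nat_lit 204831) (nat_lit 18) .nil))))) .nil))) (.nd (nat_lit 6) 
(.lf (nat_lit 57124) (.g (nat_lit 2266) (.e (nat_lit 1433) (nat_lit 108) (.e (nat_lit 336326) (nat_lit 18) (.e (nat_lit 204863) (nat_lit 27) (.e (nat_lit 344132) (nat_lit 26) (.e (nat_lit 557101) (nat_lit 13) .nil))))) .nil)) 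
(.lf (nat_lit 57188) (.g (nat_lit 2785) (.e (nat_lit 1438) (nat_lit 108) (.e (nat_lit 336060) (nat_lit 7) (.e (nat_lit 319505) (nat_lit 10) (.e (nat_lit 618) (nat_lit 48) (.e (nat_lit 557103) (nat_lit 14) (.e (nat_lit 180285) (nat_lit 45) (.e (nat_lit 2579) (nat_lit 161) (.e (nat_lit 40963) (nat_lit 0) .nil)))))))) (.g (nat_lit 6) .nil .nil))))) (.nd (nat_lit 5) (.nd (nat_lit 6) 
(.lf (nat_lit 57108) (.g (nat_lit 1017) (.e (nat_lit 1432) (nat_lit 108) (.e (nat_lit 336443) (nat_lit 32) (.e (nat_lit 466979) (nat_lit 23) (.e (nat_lit 212736) (nat_lit 10) .nil)))) .nil)) 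
(.lf (nat_lit 57172) (.g (nat_lit 3128) (.e (nat_lit 1435) (nat_lit 108) (.e (nat_lit 336060) (nat_lit 7) (.e (nat_lit 319534) (nat_lit 16) (.e (nat_lit 286756) (nat_lit 10) (.e (nat_lit 344160) (nat_lit 37) (.e (nat_lit 647190) (nat_lit 9) (.e (nat_lit 1177) (nat_lit 87) (.e (nat_lit 57666) (nat_lit 152) (.e (nat_lit 1077) (nat_lit 81) .nil))))))))) (.g (nat_lit 5) .nil .nil)))) (.nd (nat_lit 6) 
(.lf (nat_lit 57140) (.g (nat_lit 921) (.e (nat_lit 1433) (nat_lit 108) (.e (nat_lit 336431) (nat_lit 29) (.e (nat_lit 442378) (nat_lit 0) (.e (nat_lit 2057) (nat_lit 142) (.e (nat_lit 704595) (nat_lit 5) (.e (nat_lit 188160) (nat_lit 32) .nil)))))) (.g (nat_lit 5) .nil .nil))) 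
(.lf (nat_lit 57204) (.g (nat_lit 465) (.e (nat_lit 1438) (nat_lit 108) (.e (nat_lit 336193) (nat_lit 12) (.e (nat_lit 385094) (nat_lit 49) .nil))) .nil))))) (.nd (nat_lit 4) (.nd (nat_lit 5) (.nd (nat_lit 6) 
(.lf (nat_lit 57100) (.g (nat_lit 2632) (.e (nat_lit 1432) (nat_lit 108) (.e (nat_lit 336443) (nat_lit 32) (.e (nat_lit 466974) (nat_lit 22) (.e (nat_lit 196656) (nat_lit 11) (.e (nat_lit 16388) (nat_lit 0) .nil))))) .nil)) 
(.lf (nat_lit 57164) (.g (nat_lit 2079) (.e (nat_lit 1433) (nat_lit 108) (.e (nat_lit 336456) (nat_lit 34) (.e (nat_lit 483395) (nat_lit 24) (.e (nat_lit 344132) (nat_lit 26) (.e (nat_lit 557091) (nat_lit 12) (.e (nat_lit 163999) (nat_lit 38) (.e (nat_lit 639007) (nat_lit 13) .nil))))))) (.g (nat_lit 4) .nil .nil)))) (.nd (nat_lit 6) 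
(.lf (nat_lit 57132) (.g (nat_lit 1788) (.e (nat_lit 1433) (nat_lit 108) (.e (nat_lit 336398) (nat_lit 27) (.e (nat_lit 426312) (nat_lit 12) (.e (nat_lit 475199) (nat_lit 40) (.e (nat_lit 704596) (nat_lit 5) (.e (nat_lit 188160) (nat_lit 32) .nil)))))) (.g (nat_lit 5) .nil .nil))) 
(.lf (nat_lit 57196) (.g (nat_lit 1811) (.e (nat_lit 1438) (nat_lit 108) (.e (nat_lit 336060) (nat_lit 7) (.e (nat_lit 319534) (nat_lit 16) (.e (nat_lit 286756) (nat_lit 10) (.e (nat_lit 344160) (nat_lit 37) (.e (nat_lit 647200) (nat_lit 12) (.e (nat_lit 57569) (nat_lit 53) (.e (nat_lit 761869) (nat_lit 5) .nil)))))))) (.g (nat_lit 4) .nil .nil))))) (.nd (nat_lit 5) (.nd (nat_lit 6) 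
(.lf (nat_lit 57116) (.g (nat_lit 2681) (.e (nat_lit 1433) (nat_lit 108) (.e (nat_lit 336324) (nat_lit 18) (.e (nat_lit 204854) (nat_lit 26) (.e (nat_lit 336324) (nat_lit 18) (.e (nat_lit 204852) (nat_lit 26) (.e (nat_lit 336316) (nat_lit 17) (.e (nat_lit 196626) (nat_lit 9) .nil))))))) (.g (nat_lit 5) .nil .nil))) 
(.lf (nat_lit 57180) (.g (nat_lit 2192) (.e (nat_lit 1436) (nat_lit 108) (.e (nat_lit 336060) (nat_lit 7) (.e (nat_lit 319534) (nat_lit 16) (.e (nat_lit 286756) (nat_lit 10) (.e (nat_lit 344160) (nat_lit 37) .nil))))) .nil))) (.nd (nat_lit 6) 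
(.lf (nat_lit 57148) (.g (nat_lit 807) (.e (nat_lit 1433) (nat_lit 108) (.e (nat_lit 336443) (nat_lit 32) (.e (nat_lit 466971) (nat_lit 21) .nil))) .nil)) 
(.lf (nat_lit 57212) (.g (nat_lit 1349) (.e (nat_lit 1438) (nat_lit 108) (.e (nat_lit 336219) (nat_lit 13) (.e (nat_lit 393234) (nat_lit 17) (.e (nat_lit 7591) (nat_lit 407) (.e (nat_lit 73772) (nat_lit 24) .nil))))) .nil))))))) (.nd (nat_lit 2) (.nd (nat_lit 3) (.nd (nat_lit 4) (.nd (nat_lit 5) (.nd (nat_lit 6) 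
(.lf (nat_lit 57090) (.g (nat_lit 795) (.e (nat_lit 1432) (nat_lit 108) (.e (nat_lit 336438) (nat_lit 31) (.e (nat_lit 458769) (nat_lit 16) (.e (nat_lit 164339) (nat_lit 232) (.e (nat_lit 446) (nat_lit 33) .nil))))) .nil)) 
(.lf (nat_lit 57154) (.g (nat_lit 601) (.e (nat_lit 1433) (nat_lit 108) (.e (nat_lit 336454) (nat_lit 34) (.e (nat_lit 483382) (nat_lit 23) .nil))) .nil))) (.nd (nat_lit 6) 
(.lf (nat_lit 57122) (.g (nat_lit 2036) (.e (nat_lit 1433) (nat_lit 108) (.e (nat_lit 336324) (nat_lit 18) (.e (nat_lit 204882) (nat_lit 32) (.e (nat_lit 385065) (nat_lit 26) (.e (nat_lit 532530) (nat_lit 9) (.e (nat_lit 336316) (nat_lit 17) (.e (nat_lit 196626) (nat_lit 9) .nil))))))) (.g (nat_lit 4) .nil .nil))) 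
(.lf (nat_lit 57186) (.g (nat_lit 3092) (.e (nat_lit 1438) (nat_lit 108) (.e (nat_lit 336024) (nat_lit 3) (.e (nat_lit 98373) (nat_lit 29) (.e (nat_lit 450588) (nat_lit 10) (.e (nat_lit 573473) (nat_lit 12) (.e (nat_lit 57569) (nat_lit 53) (.e (nat_lit 761868) (nat_lit 5) .nil))))))) (.g (nat_lit 4) .nil .nil))))) (.nd (nat_lit 5) (.nd (nat_lit 6) 
(.lf (nat_lit 57106) (.g (nat_lit 2160) (.e (nat_lit 1432) (nat_lit 108) (.e (nat_lit 336443) (nat_lit 32) (.e (nat_lit 466977) (nat_lit 22) (.e (nat_lit 196656) (nat_lit 11) (.e (nat_lit 16392) (nat_lit 0) .nil))))) .nil)) 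
(.lf (nat_lit 57170) (.g (nat_lit 4297) (.e (nat_lit 1435) (nat_lit 108) (.e (nat_lit 336060) (nat_lit 7) (.e (nat_lit 319533) (nat_lit 16) (.e (nat_lit 286753) (nat_lit 10) (.e (nat_lit 344160) (nat_lit 37) (.e (nat_lit 647195) (nat_lit 9) (.e (nat_lit 1181) (nat_lit 87) (.e (nat_lit 57666) (nat_lit 152) (.e (nat_lit 1077) (nat_lit 81) .nil))))))))) (.g (nat_lit 7) .nil .nil)))) (.nd (nat_lit 6) 
(.lf (nat_lit 57138) (.g (nat_lit 1242) (.e (nat_lit 1433) (nat_lit 108) (.e (nat_lit 336431) (nat_lit 29) (.e (nat_lit 442377) (nat_lit 0) (.e (nat_lit 2058) (nat_lit 142) (.e (nat_lit 704595) (nat_lit 5) (.e (nat_lit 188160) (nat_lit 32) .nil)))))) (.g (nat_lit 5) .nil .nil))) 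
(.lf (nat_lit 57202) (.g (nat_lit 290) (.e (nat_lit 1438) (nat_lit 108) (.e (nat_lit 336193) (nat_lit 12) (.e (nat_lit 385093) (nat_lit 49) .nil))) .nil))))) (.nd (nat_lit 4) (.nd (nat_lit 5) (.nd (nat_lit 6) 
(.lf (nat_lit 57098) (.g (nat_lit 2021) (.e (nat_lit 1432) (nat_lit 108) (.e (nat_lit 336443) (nat_lit 32) (.e (nat_lit 466974) (nat_lit 22) (.e (nat_lit 196654) (nat_lit 11) (.e (nat_lit 16386) (nat_lit 0) .nil))))) .nil)) 
(.lf (nat_lit 57162) (.g (nat_lit 1672) (.e (nat_lit 1433) (nat_lit 108) (.e (nat_lit 336456) (nat_lit 34) (.e (nat_lit 483383) (nat_lit 23) (.e (nat_lit 336019) (nat_lit 3) .nil)))) .nil))) (.nd (nat_lit 6) 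
(.lf (nat_lit 57130) (.g (nat_lit 1835) (.e (nat_lit 1433) (nat_lit 108) (.e (nat_lit 336398) (nat_lit 27) (.e (nat_lit 426290) (nat_lit 10) (.e (nat_lit 434272) (nat_lit 38) (.e (nat_lit 655379) (nat_lit 5) (.e (nat_lit 188160) (nat_lit 32) .nil)))))) (.g (nat_lit 5) .nil .nil))) 
(.lf (nat_lit 57194) (.g (nat_lit 5034) (.e (nat_lit 1438) (nat_lit 108) (.e (nat_lit 336060) (nat_lit 7) (.e (nat_lit 319534) (nat_lit 16) (.e (nat_lit 286756) (nat_lit 10) (.e (nat_lit 344160) (nat_lit 37) (.e (nat_lit 647195) (nat_lit 9) (.e (nat_lit 1181) (nat_lit 87) (.e (nat_lit 57666) (nat_lit 152) (.e (nat_lit 1077) (nat_lit 81) .nil))))))))) (.g (nat_lit 9) .nil .nil))))) 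
(.nd (nat_lit 5) (.nd (nat_lit 6) 
(.lf (nat_lit 57114) (.g (nat_lit 4146) (.e (nat_lit 1433) (nat_lit 108) (.e (nat_lit 336324) (nat_lit 18) (.e (nat_lit 204831) (nat_lit 18) (.e (nat_lit 57854) (nat_lit 252) .nil)))) .nil)) 
(.lf (nat_lit 57178) (.g (nat_lit 2582) (.e (nat_lit 1435) (nat_lit 108) (.e (nat_lit 336060) (nat_lit 7) (.e (nat_lit 319534) (nat_lit 16) (.e (nat_lit 286756) (nat_lit 10) (.e (nat_lit 344160) (nat_lit 37) (.e (nat_lit 647195) (nat_lit 9) (.e (nat_lit 1182) (nat_lit 87) (.e (nat_lit 57664) (nat_lit 152) (.e (nat_lit 1070) (nat_lit 81) .nil))))))))) (.g (nat_lit 4) .nil .nil)))) (.nd (nat_lit 6) 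
(.lf (nat_lit 57146) (.g (nat_lit 795) (.e (nat_lit 1433) (nat_lit 108) (.e (nat_lit 336443) (nat_lit 32) (.e (nat_lit 466969) (nat_lit 21) .nil))) .nil)) 
(.lf (nat_lit 57210) (.g (nat_lit 1128) (.e (nat_lit 1438) (nat_lit 108) (.e (nat_lit 336200) (nat_lit 12) (.e (nat_lit 385106) (nat_lit 50) (.e (nat_lit 786478) (nat_lit 29) .nil)))) .nil)))))) (.nd (nat_lit 3) (.nd (nat_lit 4) (.nd (nat_lit 5) (.nd (nat_lit 6) 
(.lf (nat_lit 57094) (.g (nat_lit 648) (.e (nat_lit 1432) (nat_lit 108) (.e (nat_lit 336443) (nat_lit 32) (.e (nat_lit 466971) (nat_lit 21) .nil))) .nil)) 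
(.lf (nat_lit 57158) (.g (nat_lit 2041) (.e (nat_lit 1433) (nat_lit 108) (.e (nat_lit 336454) (nat_lit 34) (.e (nat_lit 483403) (nat_lit 26) (.e (nat_lit 385066) (nat_lit 26) (.e (nat_lit 532501) (nat_lit 1) .nil))))) .nil))) (.nd (nat_lit 6) 
(.lf (nat_lit 57126) (.g (nat_lit 3146) (.e (nat_lit 1433) (nat_lit 108) (.e (nat_lit 336326) (nat_lit 18) (.e (nat_lit 204863) (nat_lit 27) (.e (nat_lit 344133) (nat_lit 26) (.e (nat_lit 557098) (nat_lit 13) (.e (nat_lit 172140) (nat_lit 22) (.e (nat_lit 139266) (nat_lit 0) .nil))))))) (.g (nat_lit 5) .nil .nil))) 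
(.lf (nat_lit 57190) (.g (nat_lit 4021) (.e (nat_lit 1438) (nat_lit 108) (.e (nat_lit 336060) (nat_lit 7) (.e (nat_lit 319533) (nat_lit 16) (.e (nat_lit 286753) (nat_lit 10) (.e (nat_lit 344160) (nat_lit 37) (.e (nat_lit 647195) (nat_lit 9) (.e (nat_lit 1181) (nat_lit 87) (.e (nat_lit 57653) (nat_lit 152) (.e (nat_lit 1088) (nat_lit 81) .nil))))))))) (.g (nat_lit 8) .nil .nil))))) 
(.nd (nat_lit 5) (.nd (nat_lit 6) 
(.lf (nat_lit 57110) (.g (nat_lit 2205) (.e (nat_lit 1432) (nat_lit 108) (.e (nat_lit 336456) (nat_lit 34) (.e (nat_lit 483383) (nat_lit 23) (.e (nat_lit 336019) (nat_lit 3) (.e (nat_lit 98334) (nat_lit 18) .nil))))) .nil)) 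
(.lf (nat_lit 57174) (.g (nat_lit 2295) (.e (nat_lit 1435) (nat_lit 108) (.e (nat_lit 336060) (nat_lit 7) (.e (nat_lit 319534) (nat_lit 16) (.e (nat_lit 286756) (nat_lit 10) (.e (nat_lit 344160) (nat_lit 37) (.e (nat_lit 647195) (nat_lit 9) (.e (nat_lit 1178) (nat_lit 87) (.e (nat_lit 57665) (nat_lit 152) (.e (nat_lit 1070) (nat_lit 81) .nil))))))))) (.g (nat_lit 4) .nil .nil)))) (.nd (nat_lit 6) 
(.lf (nat_lit 57142) (.g (nat_lit 2186) (.e (nat_lit 1433) (nat_lit 108) (.e (nat_lit 336431) (nat_lit 29) (.e (nat_lit 442421) (nat_lit 21) (.e (nat_lit 164347) (nat_lit 240) (.e (nat_lit 2640) (nat_lit 165) (.e (nat_lit 188160) (nat_lit 32) .nil)))))) (.g (nat_lit 5) .nil .nil))) 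
(.lf (nat_lit 57206) (.g (nat_lit 2340) (.e (nat_lit 1438) (nat_lit 108) (.e (nat_lit 336193) (nat_lit 12) (.e (nat_lit 385105) (nat_lit 50) (.e (nat_lit 786480) (nat_lit 29) (.e (nat_lit 352270) (nat_lit 8) (.e (nat_lit 262148) (nat_lit 0) .nil)))))) (.g (nat_lit 4) .nil .nil)))))) (.nd (nat_lit 4) (.nd (nat_lit 5) (.nd (nat_lit 6) 
(.lf (nat_lit 57102) (.g (nat_lit 1583) (.e (nat_lit 1432) (nat_lit 108) (.e (nat_lit 336443) (nat_lit 32) (.e (nat_lit 466977) (nat_lit 22) (.e (nat_lit 196624) (nat_lit 9) .nil)))) .nil)) 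
(.lf (nat_lit 57166) (.g (nat_lit 1378) (.e (nat_lit 1433) (nat_lit 108) (.e (nat_lit 336456) (nat_lit 34) (.e (nat_lit 483399) (nat_lit 25) (.e (nat_lit 368676) (nat_lit 21) (.e (nat_lit 516117) (nat_lit 1) .nil))))) .nil))) (.nd (nat_lit 6) 
(.lf (nat_lit 57134) (.g (nat_lit 1973) (.e (nat_lit 1433) (nat_lit 108) (.e (nat_lit 336398) (nat_lit 27) (.e (nat_lit 426317) (nat_lit 12) (.e (nat_lit 475198) (nat_lit 40) (.e (nat_lit 704596) (nat_lit 5) (.e (nat_lit 188160) (nat_lit 32) .nil)))))) (.g (nat_lit 5) .nil .nil))) 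
(.lf (nat_lit 57198) (.g (nat_lit 430) (.e (nat_lit 1438) (nat_lit 108) (.e (nat_lit 336061) (nat_lit 7) (.e (nat_lit 327424) (nat_lit 18) .nil))) .nil)))) (.nd (nat_lit 5) (.nd (nat_lit 6) 
(.lf (nat_lit 57118) (.g (nat_lit 2089) (.e (nat_lit 1433) (nat_lit 108) (.e (nat_lit 336324) (nat_lit 18) (.e (nat_lit 204880) (nat_lit 32) (.e (nat_lit 385066) (nat_lit 26) (.e (nat_lit 532530) (nat_lit 9) (.e (nat_lit 336316) (nat_lit 17) (.e (nat_lit 196630) (nat_lit 9) .nil))))))) (.g (nat_lit 5) .nil .nil))) 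
(.lf (nat_lit 57182) (.g (nat_lit 2214) (.e (nat_lit 1436) (nat_lit 108) (.e (nat_lit 336060) (nat_lit 7) (.e (nat_lit 319534) (nat_lit 16) (.e (nat_lit 286756) (nat_lit 10) (.e (nat_lit 344160) (nat_lit 37) (.e (nat_lit 647195) (nat_lit 9) (.e (nat_lit 1182) (nat_lit 87) (.e (nat_lit 57664) (nat_lit 152) (.e (nat_lit 1065) (nat_lit 81) .nil))))))))) (.g (nat_lit 4) .nil .nil)))) (.nd (nat_lit 6) 
(.lf (nat_lit 57150) (.g (nat_lit 1244) (.e (nat_lit 1433) (nat_lit 108) (.e (nat_lit 336444) (nat_lit 32) (.e (nat_lit 466971) (nat_lit 21) (.e (nat_lit 164348) (nat_lit 240) (.e (nat_lit 2640) (nat_lit 165) .nil))))) .nil)) 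
(.lf (nat_lit 57214) (.g (nat_lit 1359) (.e (nat_lit 1438) (nat_lit 108) (.e (nat_lit 336219) (nat_lit 13) (.e (nat_lit 393300) (nat_lit 27) (.e (nat_lit 491558) (nat_lit 10) (.e (nat_lit 344174) (nat_lit 42) .nil))))) .nil)))))))) (.nd (nat_lit 1) (.nd (nat_lit 2) (.nd (nat_lit 3) (.nd (nat_lit 4) (.nd (nat_lit 5) (.nd (nat_lit 6) 
(.lf (nat_lit 57089) (.g (nat_lit 877) (.e (nat_lit 1432) (nat_lit 108) (.e (nat_lit 336438) (nat_lit 31) (.e (nat_lit 458769) (nat_lit 16) (.e (nat_lit 164337) (nat_lit 232) (.e (nat_lit 446) (nat_lit 33) .nil))))) .nil)) 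
(.lf (nat_lit 57153) (.g (nat_lit 1539) (.e (nat_lit 1433) (nat_lit 108) (.e (nat_lit 336454) (nat_lit 34) (.e (nat_lit 483380) (nat_lit 23) (.e (nat_lit 336326) (nat_lit 18) .nil)))) .nil))) (.nd (nat_lit 6) 
(.lf (nat_lit 57121) (.g (nat_lit 638) (.e (nat_lit 1433) (nat_lit 108) (.e (nat_lit 336324) (nat_lit 18) (.e (nat_lit 204882) (nat_lit 32) .nil))) .nil)) 
(.lf (nat_lit 57185) (.g (nat_lit 3055) (.e (nat_lit 1438) (nat_lit 108) (.e (nat_lit 336024) (nat_lit 3) (.e (nat_lit 98373) (nat_lit 29) (.e (nat_lit 450588) (nat_lit 10) (.e (nat_lit 573473) (nat_lit 12) (.e (nat_lit 57569) (nat_lit 53) (.e (nat_lit 761867) (nat_lit 5) .nil))))))) (.g (nat_lit 4) .nil .nil))))) (.nd (nat_lit 5) (.nd (nat_lit 6) 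
(.lf (nat_lit 57105) (.g (nat_lit 2379) (.e (nat_lit 1432) (nat_lit 108) (.e (nat_lit 336443) (nat_lit 32) (.e (nat_lit 466977) (nat_lit 22) (.e (nat_lit 196656) (nat_lit 11) (.e (nat_lit 16388) (nat_lit 0) .nil))))) .nil)) 
(.lf (nat_lit 57169) (.g (nat_lit 3580) (.e (nat_lit 1435) (nat_lit 108) (.e (nat_lit 336060) (nat_lit 7) (.e (nat_lit 319533) (nat_lit 16) (.e (nat_lit 286753) (nat_lit 10) (.e (nat_lit 344160) (nat_lit 37) (.e (nat_lit 647195) (nat_lit 9) (.e (nat_lit 1178) (nat_lit 87) (.e (nat_lit 57666) (nat_lit 152) (.e (nat_lit 1077) (nat_lit 81) .nil))))))))) (.g (nat_lit 6) .nil .nil)))) (.nd (nat_lit 6) 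
(.lf (nat_lit 57137) (.g (nat_lit 1684) (.e (nat_lit 1433) (nat_lit 108) (.e (nat_lit 336430) (nat_lit 29) (.e (nat_lit 442421) (nat_lit 21) (.e (nat_lit 164348) (nat_lit 240) (.e (nat_lit 2640) (nat_lit 165) .nil))))) .nil)) 
(.lf (nat_lit 57201) (.g (nat_lit 1767) (.e (nat_lit 1438) (nat_lit 108) (.e (nat_lit 336173) (nat_lit 10) (.e (nat_lit 344169) (nat_lit 40) (.e (nat_lit 671751) (nat_lit 0) (.e (nat_lit 1524) (nat_lit 108) (.e (nat_lit 336194) (nat_lit 12) (.e (nat_lit 385096) (nat_lit 49) (.e (nat_lit 778273) (nat_lit 0) .nil)))))))) (.g (nat_lit 4) .nil .nil)))))) 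
(.nd (nat_lit 4) (.nd (nat_lit 5) (.nd (nat_lit 6) 
(.lf (nat_lit 57097) (.g (nat_lit 590) (.e (nat_lit 1432) (nat_lit 108) (.e (nat_lit 336443) (nat_lit 32) (.e (nat_lit 466974) (nat_lit 22) .nil))) .nil)) 
(.lf (nat_lit 57161) (.g (nat_lit 2608) (.e (nat_lit 1433) (nat_lit 108) (.e (nat_lit 336454) (nat_lit 34) (.e (nat_lit 483406) (nat_lit 26) (.e (nat_lit 385066) (nat_lit 26) (.e (nat_lit 532504) (nat_lit 1) .nil))))) .nil))) (.nd (nat_lit 6) 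
(.lf (nat_lit 57129) (.g (nat_lit 2100) (.e (nat_lit 1433) (nat_lit 108) (.e (nat_lit 336369) (nat_lit 27) (.e (nat_lit 426173) (nat_lit 7) (.e (nat_lit 409617) (nat_lit 10) (.e (nat_lit 5353) (nat_lit 298) .nil))))) .nil)) 
(.lf (nat_lit 57193) (.g (nat_lit 4292) (.e (nat_lit 1438) (nat_lit 108) (.e (nat_lit 336060) (nat_lit 7) (.e (nat_lit 319534) (nat_lit 16) (.e (nat_lit 286756) (nat_lit 10) (.e (nat_lit 344160) (nat_lit 37) (.e (nat_lit 647195) (nat_lit 9) (.e (nat_lit 1178) (nat_lit 87) (.e (nat_lit 57666) (nat_lit 152) (.e (nat_lit 1077) (nat_lit 81) .nil))))))))) (.g (nat_lit 9) .nil .nil))))) 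
(.nd (nat_lit 5) (.nd (nat_lit 6) 
(.lf (nat_lit 57113) (.g (nat_lit 4114) (.e (nat_lit 1433) (nat_lit 108) (.e (nat_lit 336324) (nat_lit 18) (.e (nat_lit 204831) (nat_lit 18) (.e (nat_lit 57852) (nat_lit 252) .nil)))) .nil)) 
(.lf (nat_lit 57177) (.g (nat_lit 2605) (.e (nat_lit 1435) (nat_lit 108) (.e (nat_lit 336060) (nat_lit 7) (.e (nat_lit 319534) (nat_lit 16) (.e (nat_lit 286756) (nat_lit 10) (.e (nat_lit 344160) (nat_lit 37) (.e (nat_lit 647195) (nat_lit 9) (.e (nat_lit 1182) (nat_lit 87) (.e (nat_lit 57662) (nat_lit 152) (.e (nat_lit 1070) (nat_lit 81) .nil))))))))) (.g (nat_lit 4) .nil .nil)))) (.nd (nat_lit 6) 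
(.lf (nat_lit 57145) (.g (nat_lit 670) (.e (nat_lit 1433) (nat_lit 108) (.e (nat_lit 336438) (nat_lit 31) (.e (nat_lit 458769) (nat_lit 16) (.e (nat_lit 164337) (nat_lit 232) .nil)))) .nil)) 
(.lf (nat_lit 57209) (.g (nat_lit 1398) (.e (nat_lit 1438) (nat_lit 108) (.e (nat_lit 336200) (nat_lit 12) (.e (nat_lit 385094) (nat_lit 49) (.e (nat_lit 778326) (nat_lit 6) (.e (nat_lit 89856) (nat_lit 8) (.e (nat_lit 262148) (nat_lit 0) .nil)))))) (.g (nat_lit 4) .nil .nil))))))) (.nd (nat_lit 3) (.nd (nat_lit 4) (.nd (nat_lit 5) (.nd (nat_lit 6) 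
(.lf (nat_lit 57093) (.g (nat_lit 2069) (.e (nat_lit 1432) (nat_lit 108) (.e (nat_lit 336443) (nat_lit 32) (.e (nat_lit 466969) (nat_lit 21) (.e (nat_lit 164348) (nat_lit 240) (.e (nat_lit 2640) (nat_lit 165) (.e (nat_lit 188160) (nat_lit 32) .nil)))))) (.g (nat_lit 5) .nil .nil))) 
(.lf (nat_lit 57157) (.g (nat_lit 1876) (.e (nat_lit 1433) (nat_lit 108) (.e (nat_lit 336454) (nat_lit 34) (.e (nat_lit 483383) (nat_lit 23) (.e (nat_lit 336326) (nat_lit 18) .nil)))) .nil))) (.nd (nat_lit 6) 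
(.lf (nat_lit 57125) (.g (nat_lit 2103) (.e (nat_lit 1433) (nat_lit 108) (.e (nat_lit 336326) (nat_lit 18) (.e (nat_lit 204863) (nat_lit 27) (.e (nat_lit 344133) (nat_lit 26) (.e (nat_lit 557098) (nat_lit 13) .nil))))) .nil)) 
(.lf (nat_lit 57189) (.g (nat_lit 919) (.e (nat_lit 1438) (nat_lit 108) (.e (nat_lit 336060) (nat_lit 7) (.e (nat_lit 319505) (nat_lit 10) (.e (nat_lit 7936) (nat_lit 314) .nil)))) .nil)))) (.nd (nat_lit 5) (.nd (nat_lit 6) 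
(.lf (nat_lit 57109) (.g (nat_lit 635) (.e (nat_lit 1432) (nat_lit 108) (.e (nat_lit 336443) (nat_lit 32) (.e (nat_lit 466981) (nat_lit 23) .nil))) .nil)) 
(.lf (nat_lit 57173) (.g (nat_lit 2511) (.e (nat_lit 1435) (nat_lit 108) (.e (nat_lit 336060) (nat_lit 7) (.e (nat_lit 319534) (nat_lit 16) (.e (nat_lit 286756) (nat_lit 10) (.e (nat_lit 344160) (nat_lit 37) (.e (nat_lit 647190) (nat_lit 9) (.e (nat_lit 1183) (nat_lit 87) (.e (nat_lit 57666) (nat_lit 152) (.e (nat_lit 1077) (nat_lit 81) .nil))))))))) (.g (nat_lit 4) .nil .nil)))) (.nd (nat_lit 6) 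
(.lf (nat_lit 57141) (.g (nat_lit 1410) (.e (nat_lit 1433) (nat_lit 108) (.e (nat_lit 336431) (nat_lit 29) (.e (nat_lit 442378) (nat_lit 0) (.e (nat_lit 2058) (nat_lit 142) (.e (nat_lit 704595) (nat_lit 5) (.e (nat_lit 188160) (nat_lit 32) .nil)))))) (.g (nat_lit 5) .nil .nil))) 
(.lf (nat_lit 57205) (.g (nat_lit 2581) (.e (nat_lit 1438) (nat_lit 108) (.e (nat_lit 336193) (nat_lit 12) (.e (nat_lit 385105) (nat_lit 50) (.e (nat_lit 786478) (nat_lit 29) (.e (nat_lit 352270) (nat_lit 8) (.e (nat_lit 262148) (nat_lit 0) .nil)))))) (.g (nat_lit 4) .nil .nil)))))) (.nd (nat_lit 4) (.nd (nat_lit 5) (.nd (nat_lit 6) 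
(.lf (nat_lit 57101) (.g (nat_lit 2134) (.e (nat_lit 1432) (nat_lit 108) (.e (nat_lit 336443) (nat_lit 32) (.e (nat_lit 466974) (nat_lit 22) (.e (nat_lit 196656) (nat_lit 11) (.e (nat_lit 16392) (nat_lit 0) .nil))))) .nil)) 
(.lf (nat_lit 57165) (.g (nat_lit 1445) (.e (nat_lit 1433) (nat_lit 108) (.e (nat_lit 336456) (nat_lit 34) (.e (nat_lit 483398) (nat_lit 25) (.e (nat_lit 368676) (nat_lit 21) (.e (nat_lit 516117) (nat_lit 1) .nil))))) .nil))) (.nd (nat_lit 6) 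
(.lf (nat_lit 57133) (.g (nat_lit 1854) (.e (nat_lit 1433) (nat_lit 108) (.e (nat_lit 336398) (nat_lit 27) (.e (nat_lit 426317) (nat_lit 12) (.e (nat_lit 475198) (nat_lit 40) (.e (nat_lit 704595) (nat_lit 5) (.e (nat_lit 188160) (nat_lit 32) .nil)))))) (.g (nat_lit 5) .nil .nil))) 
(.lf (nat_lit 57197) (.g (nat_lit 1700) (.e (nat_lit 1438) (nat_lit 108) (.e (nat_lit 336061) (nat_lit 7) (.e (nat_lit 319531) (nat_lit 16) (.e (nat_lit 294656) (nat_lit 35) .nil)))) .nil)))) (.nd (nat_lit 5) (.nd (nat_lit 6) 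
(.lf (nat_lit 57117) (.g (nat_lit 2804) (.e (nat_lit 1433) (nat_lit 108) (.e (nat_lit 336324) (nat_lit 18) (.e (nat_lit 204854) (nat_lit 26) (.e (nat_lit 336326) (nat_lit 18) (.e (nat_lit 204854) (nat_lit 26) (.e (nat_lit 336316) (nat_lit 17) (.e (nat_lit 196626) (nat_lit 9) .nil))))))) (.g (nat_lit 5) .nil .nil))) 
(.lf (nat_lit 57181) (.g (nat_lit 2208) (.e (nat_lit 1436) (nat_lit 108) (.e (nat_lit 336060) (nat_lit 7) (.e (nat_lit 319534) (nat_lit 16) (.e (nat_lit 286756) (nat_lit 10) (.e (nat_lit 344160) (nat_lit 37) (.e (nat_lit 647195) (nat_lit 9) (.e (nat_lit 1181) (nat_lit 87) (.e (nat_lit 57658) (nat_lit 152) (.e (nat_lit 1059) (nat_lit 81) .nil))))))))) (.g (nat_lit 4) .nil .nil)))) (.nd (nat_lit 6) 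
(.lf (nat_lit 57149) (.g (nat_lit 814) (.e (nat_lit 1433) (nat_lit 108) (.e (nat_lit 336443) (nat_lit 32) (.e (nat_lit 466972) (nat_lit 21) .nil))) .nil)) 
(.lf (nat_lit 57213) (.g (nat_lit 1309) (.e (nat_lit 1438) (nat_lit 108) (.e (nat_lit 336219) (nat_lit 13) (.e (nat_lit 393234) (nat_lit 17) (.e (nat_lit 7593) (nat_lit 407) (.e (nat_lit 73772) (nat_lit 24) .nil))))) .nil))))))) (.nd (nat_lit 2) (.nd (nat_lit 3) (.nd (nat_lit 4) (.nd (nat_lit 5) (.nd (nat_lit 6) 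
(.lf (nat_lit 57091) (.g (nat_lit 769) (.e (nat_lit 1432) (nat_lit 108) (.e (nat_lit 336438) (nat_lit 31) (.e (nat_lit 458769) (nat_lit 16) (.e (nat_lit 164340) (nat_lit 232) (.e (nat_lit 446) (nat_lit 33) .nil))))) .nil)) 
(.lf (nat_lit 57155) (.g (nat_lit 2509) (.e (nat_lit 1433) (nat_lit 108) (.e (nat_lit 336454) (nat_lit 34) (.e (nat_lit 483383) (nat_lit 23) (.e (nat_lit 336324) (nat_lit 18) (.e (nat_lit 204830) (nat_lit 18) .nil))))) .nil))) (.nd (nat_lit 6) 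
(.lf (nat_lit 57123) (.g (nat_lit 2326) (.e (nat_lit 1433) (nat_lit 108) (.e (nat_lit 336324) (nat_lit 18) (.e (nat_lit 204882) (nat_lit 32) (.e (nat_lit 385066) (nat_lit 26) (.e (nat_lit 532530) (nat_lit 9) (.e (nat_lit 336316) (nat_lit 17) (.e (nat_lit 196630) (nat_lit 9) .nil))))))) (.g (nat_lit 5) .nil .nil))) 
(.lf (nat_lit 57187) (.g (nat_lit 1600) (.e (nat_lit 1438) (nat_lit 108) (.e (nat_lit 336060) (nat_lit 7) (.e (nat_lit 319505) (nat_lit 10) (.e (nat_lit 618) (nat_lit 48) (.e (nat_lit 557103) (nat_lit 14) .nil))))) .nil)))) (.nd (nat_lit 5) (.nd (nat_lit 6) 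
(.lf (nat_lit 57107) (.g (nat_lit 598) (.e (nat_lit 1432) (nat_lit 108) (.e (nat_lit 336443) (nat_lit 32) (.e (nat_lit 466979) (nat_lit 23) .nil))) .nil)) 
(.lf (nat_lit 57171) (.g (nat_lit 2192) (.e (nat_lit 1435) (nat_lit 108) (.e (nat_lit 336060) (nat_lit 7) (.e (nat_lit 319534) (nat_lit 16) (.e (nat_lit 286756) (nat_lit 10) (.e (nat_lit 344160) (nat_lit 37) .nil))))) .nil))) (.nd (nat_lit 6) 
(.lf (nat_lit 57139) (.g (nat_lit 1638) (.e (nat_lit 1433) (nat_lit 108) (.e (nat_lit 336431) (nat_lit 29) (.e (nat_lit 442377) (nat_lit 0) (.e (nat_lit 2059) (nat_lit 142) (.e (nat_lit 704595) (nat_lit 5) (.e (nat_lit 188160) (nat_lit 32) .nil)))))) (.g (nat_lit 5) .nil .nil))) 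
(.lf (nat_lit 57203) (.g (nat_lit 1687) (.e (nat_lit 1438) (nat_lit 108) (.e (nat_lit 336193) (nat_lit 12) (.e (nat_lit 385093) (nat_lit 49) (.e (nat_lit 778327) (nat_lit 6) .nil)))) .nil))))) (.nd (nat_lit 4) (.nd (nat_lit 5) (.nd (nat_lit 6) 
(.lf (nat_lit 57099) (.g (nat_lit 2027) (.e (nat_lit 1432) (nat_lit 108) (.e (nat_lit 336443) (nat_lit 32) (.e (nat_lit 466974) (nat_lit 22) (.e (nat_lit 196654) (nat_lit 11) (.e (nat_lit 16388) (nat_lit 0) .nil))))) .nil)) 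
(.lf (nat_lit 57163) (.g (nat_lit 1991) (.e (nat_lit 1433) (nat_lit 108) (.e (nat_lit 336456) (nat_lit 34) (.e (nat_lit 483395) (nat_lit 24) (.e (nat_lit 344129) (nat_lit 26) (.e (nat_lit 557090) (nat_lit 12) .nil))))) .nil))) (.nd (nat_lit 6) 
(.lf (nat_lit 57131) (.g (nat_lit 2115) (.e (nat_lit 1433) (nat_lit 108) (.e (nat_lit 336398) (nat_lit 27) (.e (nat_lit 426312) (nat_lit 12) (.e (nat_lit 475199) (nat_lit 40) (.e (nat_lit 704595) (nat_lit 5) (.e (nat_lit 188160) (nat_lit 32) .nil)))))) (.g (nat_lit 5) .nil .nil))) 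
(.lf (nat_lit 57195) (.g (nat_lit 3015) (.e (nat_lit 1438) (nat_lit 108) (.e (nat_lit 336060) (nat_lit 7) (.e (nat_lit 319534) (nat_lit 16) (.e (nat_lit 286756) (nat_lit 10) (.e (nat_lit 344160) (nat_lit 37) (.e (nat_lit 647195) (nat_lit 9) (.e (nat_lit 1182) (nat_lit 87) (.e (nat_lit 57662) (nat_lit 152) (.e (nat_lit 1070) (nat_lit 81) .nil))))))))) (.g (nat_lit 6) .nil .nil))))) 
(.nd (nat_lit 5) (.nd (nat_lit 6) 
(.lf (nat_lit 57115) (.g (nat_lit 2051) (.e (nat_lit 1433) (nat_lit 108) (.e (nat_lit 336324) (nat_lit 18) (.e (nat_lit 204852) (nat_lit 26) (.e (nat_lit 336324) (nat_lit 18) (.e (nat_lit 204852) (nat_lit 26) (.e (nat_lit 336316) (nat_lit 17) (.e (nat_lit 196626) (nat_lit 9) .nil))))))) (.g (nat_lit 5) .nil .nil))) 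
(.lf (nat_lit 57179) (.g (nat_lit 2213) (.e (nat_lit 1435) (nat_lit 108) (.e (nat_lit 336083) (nat_lit 9) (.e (nat_lit 336369) (nat_lit 27) (.e (nat_lit 426173) (nat_lit 7) (.e (nat_lit 409649) (nat_lit 18) (.e (nat_lit 303111) (nat_lit 0) (.e (nat_lit 3469) (nat_lit 217) (.e (nat_lit 696355) (nat_lit 13) .nil)))))))) (.g (nat_lit 4) .nil .nil)))) (.nd (nat_lit 6) 
(.lf (nat_lit 57147) (.g (nat_lit 1608) (.e (nat_lit 1433) (nat_lit 108) (.e (nat_lit 336443) (nat_lit 32) (.e (nat_lit 466969) (nat_lit 21) (.e (nat_lit 164345) (nat_lit 240) .nil)))) .nil)) 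
(.lf (nat_lit 57211) (.g (nat_lit 2410) (.e (nat_lit 1438) (nat_lit 108) (.e (nat_lit 336212) (nat_lit 13) (.e (nat_lit 393301) (nat_lit 27) (.e (nat_lit 491559) (nat_lit 10) (.e (nat_lit 344177) (nat_lit 43) .nil))))) .nil)))))) (.nd (nat_lit 3) (.nd (nat_lit 4) (.nd (nat_lit 5) (.nd (nat_lit 6) 
(.lf (nat_lit 57095) (.g (nat_lit 2019) (.e (nat_lit 1432) (nat_lit 108) (.e (nat_lit 336443) (nat_lit 32) (.e (nat_lit 466971) (nat_lit 21) (.e (nat_lit 164348) (nat_lit 240) (.e (nat_lit 2640) (nat_lit 165) (.e (nat_lit 188160) (nat_lit 32) .nil)))))) (.g (nat_lit 5) .nil .nil))) 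
(.lf (nat_lit 57159) (.g (nat_lit 2025) (.e (nat_lit 1433) (nat_lit 108) (.e (nat_lit 336454) (nat_lit 34) (.e (nat_lit 483403) (nat_lit 26) (.e (nat_lit 385066) (nat_lit 26) (.e (nat_lit 532504) (nat_lit 1) .nil))))) .nil))) (.nd (nat_lit 6) 
(.lf (nat_lit 57127) (.g (nat_lit 572) (.e (nat_lit 1433) (nat_lit 108) (.e (nat_lit 336326) (nat_lit 18) (.e (nat_lit 204864) (nat_lit 27) .nil))) .nil)) 
(.lf (nat_lit 57191) (.g (nat_lit 1473) (.e (nat_lit 1438) (nat_lit 108) (.e (nat_lit 336060) (nat_lit 7) (.e (nat_lit 319533) (nat_lit 16) (.e (nat_lit 286753) (nat_lit 10) (.e (nat_lit 344160) (nat_lit 37) (.e (nat_lit 647201) (nat_lit 12) (.e (nat_lit 57568) (nat_lit 53) (.e (nat_lit 761868) (nat_lit 5) .nil)))))))) (.g (nat_lit 4) .nil .nil))))) (.nd (nat_lit 5) (.nd (nat_lit 6) 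
(.lf (nat_lit 57111) (.g (nat_lit 5352) (.e (nat_lit 1433) (nat_lit 108) (.e (nat_lit 336019) (nat_lit 3) (.e (nat_lit 98373) (nat_lit 29) (.e (nat_lit 450587) (nat_lit 10) (.e (nat_lit 573475) (nat_lit 12) (.e (nat_lit 57572) (nat_lit 54) (.e (nat_lit 770058) (nat_lit 5) .nil))))))) (.g (nat_lit 4) .nil .nil))) 
(.lf (nat_lit 57175) (.g (nat_lit 3753) (.e (nat_lit 1435) (nat_lit 108) (.e (nat_lit 336060) (nat_lit 7) (.e (nat_lit 319534) (nat_lit 16) (.e (nat_lit 286756) (nat_lit 10) (.e (nat_lit 344160) (nat_lit 37) (.e (nat_lit 647195) (nat_lit 9) (.e (nat_lit 1181) (nat_lit 87) (.e (nat_lit 57653) (nat_lit 152) (.e (nat_lit 1088) (nat_lit 81) .nil))))))))) (.g (nat_lit 6) .nil .nil)))) (.nd (nat_lit 6) 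
(.lf (nat_lit 57143) (.g (nat_lit 1948) (.e (nat_lit 1433) (nat_lit 108) (.e (nat_lit 336432) (nat_lit 30) (.e (nat_lit 450565) (nat_lit 0) (.e (nat_lit 5548) (nat_lit 306) (.e (nat_lit 2640) (nat_lit 165) (.e (nat_lit 188160) (nat_lit 32) .nil)))))) (.g (nat_lit 5) .nil .nil))) 
(.lf (nat_lit 57207) (.g (nat_lit 2014) (.e (nat_lit 1438) (nat_lit 108) (.e (nat_lit 336193) (nat_lit 12) (.e (nat_lit 385106) (nat_lit 50) (.e (nat_lit 786480) (nat_lit 29) (.e (nat_lit 360192) (nat_lit 4) .nil))))) .nil))))) (.nd (nat_lit 4) (.nd (nat_lit 5) (.nd (nat_lit 6) 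
(.lf (nat_lit 57103) (.g (nat_lit 1464) (.e (nat_lit 1432) (nat_lit 108) (.e (nat_lit 336443) (nat_lit 32) (.e (nat_lit 466977) (nat_lit 22) (.e (nat_lit 196654) (nat_lit 11) .nil)))) .nil)) 
(.lf (nat_lit 57167) (.g (nat_lit 1229) (.e (nat_lit 1434) (nat_lit 108) (.e (nat_lit 336200) (nat_lit 12) (.e (nat_lit 385094) (nat_lit 49) (.e (nat_lit 778326) (nat_lit 6) .nil)))) .nil))) (.nd (nat_lit 6) 
(.lf (nat_lit 57135) (.g (nat_lit 478) (.e (nat_lit 1433) (nat_lit 108) (.e (nat_lit 336428) (nat_lit 29) (.e (nat_lit 450304) (nat_lit 4) .nil))) .nil)) 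
(.lf (nat_lit 57199) (.g (nat_lit 458) (.e (nat_lit 1438) (nat_lit 108) (.e (nat_lit 336173) (nat_lit 10) (.e (nat_lit 344168) (nat_lit 40) .nil))) .nil)))) (.nd (nat_lit 5) (.nd (nat_lit 6) 
(.lf (nat_lit 57119) (.g (nat_lit 2510) (.e (nat_lit 1433) (nat_lit 108) (.e (nat_lit 336324) (nat_lit 18) (.e (nat_lit 204880) (nat_lit 32) (.e (nat_lit 385066) (nat_lit 26) (.e (nat_lit 532534) (nat_lit 9) (.e (nat_lit 336316) (nat_lit 17) (.e (nat_lit 196630) (nat_lit 9) .nil))))))) (.g (nat_lit 5) .nil .nil))) 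
(.lf (nat_lit 57183) (.g (nat_lit 3161) (.e (nat_lit 1436) (nat_lit 108) (.e (nat_lit 336295) (nat_lit 15) (.e (nat_lit 3305) (nat_lit 202) (.e (nat_lit 573485) (nat_lit 13) (.e (nat_lit 65619) (nat_lit 10) (.e (nat_lit 344117) (nat_lit 21) (.e (nat_lit 516097) (nat_lit 0) (.e (nat_lit 7542) (nat_lit 402) .nil)))))))) (.g (nat_lit 5) .nil .nil)))) (.nd (nat_lit 6) 
(.lf (nat_lit 57151) (.g (nat_lit 1908) (.e (nat_lit 1433) (nat_lit 108) (.e (nat_lit 336454) (nat_lit 34) (.e (nat_lit 483380) (nat_lit 23) (.e (nat_lit 336324) (nat_lit 18) (.e (nat_lit 204830) (nat_lit 18) .nil))))) .nil)) 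
(.lf (nat_lit 57215) (.g (nat_lit 1448) (.e (nat_lit 1438) (nat_lit 108) (.e (nat_lit 336219) (nat_lit 13) (.e (nat_lit 393300) (nat_lit 27) (.e (nat_lit 491560) (nat_lit 10) (.e (nat_lit 344174) (nat_lit 42) .nil))))) .nil)))))))))

noncomputable def tv786 : DT := (.nd (nat_lit 0) (.nd (nat_lit 1) (.nd (nat_lit 2) (.nd (nat_lit 3) (.nd (nat_lit 4) (.nd (nat_lit 5) 
(.lf (nat_lit 57216) (.g (nat_lit 2117) (.e (nat_lit 1438) (nat_lit 108) (.e (nat_lit 336219) (nat_lit 13) (.e (nat_lit 393301) (nat_lit 27) (.e (nat_lit 491558) (nat_lit 10) (.e (nat_lit 344174) (nat_lit 42) .nil))))) .nil)) 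
(.lf (nat_lit 57248) (.g (nat_lit 2959) (.e (nat_lit 1440) (nat_lit 108) (.e (nat_lit 336389) (nat_lit 27) (.e (nat_lit 426343) (nat_lit 14) (.e (nat_lit 491570) (nat_lit 13) (.e (nat_lit 393238) (nat_lit 17) (.e (nat_lit 7936) (nat_lit 402) .nil)))))) (.g (nat_lit 5) .nil .nil)))) (.nd (nat_lit 5) 
(.lf (nat_lit 57232) (.g (nat_lit 1981) (.e (nat_lit 1440) (nat_lit 108) (.e (nat_lit 336060) (nat_lit 7) (.e (nat_lit 319534) (nat_lit 16) (.e (nat_lit 286756) (nat_lit 10) (.e (nat_lit 344097) (nat_lit 18) .nil))))) .nil)) 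
(.lf (nat_lit 57264) (.g (nat_lit 2704) (.e (nat_lit 1442) (nat_lit 108) (.e (nat_lit 336060) (nat_lit 7) (.e (nat_lit 319534) (nat_lit 16) (.e (nat_lit 286756) (nat_lit 10) (.e (nat_lit 344160) (nat_lit 37) (.e (nat_lit 647201) (nat_lit 12) (.e (nat_lit 57351) (nat_lit 0) (.e (nat_lit 7124) (nat_lit 382) (.e (nat_lit 1016) (nat_lit 81) .nil))))))))) (.g (nat_lit 5) .nil .nil))))) 
(.nd (nat_lit 4) (.nd (nat_lit 5) 
(.lf (nat_lit 57224) (.g (nat_lit 3105) (.e (nat_lit 1439) (nat_lit 108) (.e (nat_lit 336099) (nat_lit 9) (.e (nat_lit 336013) (nat_lit 2) (.e (nat_lit 90129) (nat_lit 9) .nil)))) .nil)) 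
(.lf (nat_lit 57256) (.g (nat_lit 1739) (.e (nat_lit 1442) (nat_lit 108) (.e (nat_lit 336060) (nat_lit 7) (.e (nat_lit 319533) (nat_lit 16) (.e (nat_lit 286753) (nat_lit 10) (.e (nat_lit 344160) (nat_lit 37) .nil))))) .nil))) (.nd (nat_lit 5) 
(.lf (nat_lit 57240) (.g (nat_lit 384) (.e (nat_lit 1440) (nat_lit 108) (.e (nat_lit 336176) (nat_lit 10) (.e (nat_lit 344130) (nat_lit 26) .nil))) .nil)) 
(.lf (nat_lit 57272) (.g (nat_lit 2256) (.e (nat_lit 1442) (nat_lit 108) (.e (nat_lit 336219) (nat_lit 13) (.e (nat_lit 393301) (nat_lit 27) (.e (nat_lit 491559) (nat_lit 10) (.e (nat_lit 344177) (nat_lit 43) .nil))))) .nil))))) (.nd (nat_lit 3) (.nd (nat_lit 4) (.nd (nat_lit 5) 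
(.lf (nat_lit 57220) (.g (nat_lit 1739) (.e (nat_lit 1439) (nat_lit 108) (.e (nat_lit 336060) (nat_lit 7) (.e (nat_lit 319533) (nat_lit 16) (.e (nat_lit 286753) (nat_lit 10) (.e (nat_lit 344160) (nat_lit 37) .nil))))) .nil)) 
(.lf (nat_lit 57252) (.g (nat_lit 433) (.e (nat_lit 1442) (nat_lit 108) (.e (nat_lit 336060) (nat_lit 7) (.e (nat_lit 319505) (nat_lit 10) .nil))) .nil))) (.nd (nat_lit 5) 
(.lf (nat_lit 57236) (.g (nat_lit 2210) (.e (nat_lit 1440) (nat_lit 108) (.e (nat_lit 336060) (nat_lit 7) (.e (nat_lit 319534) (nat_lit 16) (.e (nat_lit 286756) (nat_lit 10) (.e (nat_lit 344160) (nat_lit 37) (.e (nat_lit 647195) (nat_lit 9) (.e (nat_lit 1181) (nat_lit 87) (.e (nat_lit 57652) (nat_lit 152) (.e (nat_lit 1091) (nat_lit 81) .nil))))))))) (.g (nat_lit 4) .nil .nil))) 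
(.lf (nat_lit 57268) (.g (nat_lit 962) (.e (nat_lit 1442) (nat_lit 108) (.e (nat_lit 336173) (nat_lit 10) (.e (nat_lit 344168) (nat_lit 40) (.e (nat_lit 671764) (nat_lit 6) .nil)))) .nil)))) (.nd (nat_lit 4) (.nd (nat_lit 5) 
(.lf (nat_lit 57228) (.g (nat_lit 1758) (.e (nat_lit 1440) (nat_lit 108) (.e (nat_lit 336060) (nat_lit 7) (.e (nat_lit 319533) (nat_lit 16) (.e (nat_lit 286753) (nat_lit 10) (.e (nat_lit 344097) (nat_lit 18) .nil))))) .nil)) 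
(.lf (nat_lit 57260) (.g (nat_lit 2444) (.e (nat_lit 1442) (nat_lit 108) (.e (nat_lit 336060) (nat_lit 7) (.e (nat_lit 319534) (nat_lit 16) (.e (nat_lit 286749) (nat_lit 9) (.e (nat_lit 335997) (nat_lit 1) (.e (nat_lit 57848) (nat_lit 252) (.e (nat_lit 57368) (nat_lit 1) (.e (nat_lit 57830) (nat_lit 250) (.e (nat_lit 1016) (nat_lit 81) .nil))))))))) (.g (nat_lit 6) .nil .nil)))) (.nd (nat_lit 5) 
(.lf (nat_lit 57244) (.g (nat_lit 4883) (.e (nat_lit 1440) (nat_lit 108) (.e (nat_lit 336295) (nat_lit 15) (.e (nat_lit 3632) (nat_lit 227) (.e (nat_lit 778317) (nat_lit 3) (.e (nat_lit 57476) (nat_lit 28) (.e (nat_lit 557108) (nat_lit 15) (.e (nat_lit 188458) (nat_lit 25) (.e (nat_lit 245784) (nat_lit 9) .nil)))))))) (.g (nat_lit 8) .nil .nil))) 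
(.lf (nat_lit 57276) (.g (nat_lit 3542) (.e (nat_lit 1443) (nat_lit 108) (.e (nat_lit 336013) (nat_lit 2) (.e (nat_lit 90170) (nat_lit 13) (.e (nat_lit 172106) (nat_lit 10) (.e (nat_lit 434231) (nat_lit 23) (.e (nat_lit 532481) (nat_lit 0) (.e (nat_lit 996) (nat_lit 81) (.e (nat_lit 4452) (nat_lit 263) (.e (nat_lit 974) (nat_lit 81) .nil))))))))) (.g (nat_lit 4) .nil .nil))))))) 
(.nd (nat_lit 2) (.nd (nat_lit 3) (.nd (nat_lit 4) (.nd (nat_lit 5) 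
(.lf (nat_lit 57218) (.g (nat_lit 1690) (.e (nat_lit 1439) (nat_lit 108) (.e (nat_lit 336060) (nat_lit 7) (.e (nat_lit 319505) (nat_lit 10) (.e (nat_lit 618) (nat_lit 48) (.e (nat_lit 557101) (nat_lit 13) .nil))))) .nil)) 
(.lf (nat_lit 57250) (.g (nat_lit 3256) (.e (nat_lit 1442) (nat_lit 108) (.e (nat_lit 336024) (nat_lit 3) (.e (nat_lit 98373) (nat_lit 29) (.e (nat_lit 450587) (nat_lit 10) (.e (nat_lit 573475) (nat_lit 12) (.e (nat_lit 57572) (nat_lit 54) (.e (nat_lit 770056) (nat_lit 5) .nil))))))) (.g (nat_lit 4) .nil .nil)))) (.nd (nat_lit 5) 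
(.lf (nat_lit 57234) (.g (nat_lit 2453) (.e (nat_lit 1440) (nat_lit 108) (.e (nat_lit 336060) (nat_lit 7) (.e (nat_lit 319534) (nat_lit 16) (.e (nat_lit 286756) (nat_lit 10) (.e (nat_lit 344097) (nat_lit 18) (.e (nat_lit 5195) (nat_lit 294) (.e (nat_lit 57363) (nat_lit 1) (.e (nat_lit 57825) (nat_lit 250) (.e (nat_lit 1035) (nat_lit 81) .nil))))))))) (.g (nat_lit 5) .nil .nil))) 
(.lf (nat_lit 57266) (.g (nat_lit 3105) (.e (nat_lit 1442) (nat_lit 108) (.e (nat_lit 336099) (nat_lit 9) (.e (nat_lit 336013) (nat_lit 2) (.e (nat_lit 90129) (nat_lit 9) .nil)))) .nil)))) (.nd (nat_lit 4) (.nd (nat_lit 5) 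
(.lf (nat_lit 57226) (.g (nat_lit 2886) (.e (nat_lit 1440) (nat_lit 108) (.e (nat_lit 335886) (nat_lit 0) (.e (nat_lit 2005) (nat_lit 138) (.e (nat_lit 671759) (nat_lit 3) (.e (nat_lit 57479) (nat_lit 28) (.e (nat_lit 557109) (nat_lit 15) (.e (nat_lit 188458) (nat_lit 25) (.e (nat_lit 245784) (nat_lit 9) .nil)))))))) (.g (nat_lit 8) .nil .nil))) 
(.lf (nat_lit 57258) (.g (nat_lit 2811) (.e (nat_lit 1442) (nat_lit 108) (.e (nat_lit 336060) (nat_lit 7) (.e (nat_lit 319533) (nat_lit 16) (.e (nat_lit 286753) (nat_lit 10) (.e (nat_lit 344160) (nat_lit 37) (.e (nat_lit 647201) (nat_lit 12) (.e (nat_lit 57351) (nat_lit 0) (.e (nat_lit 7122) (nat_lit 382) (.e (nat_lit 1016) (nat_lit 81) .nil))))))))) (.g (nat_lit 6) .nil .nil)))) (.nd (nat_lit 5) 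
(.lf (nat_lit 57242) (.g (nat_lit 3982) (.e (nat_lit 1440) (nat_lit 108) (.e (nat_lit 336282) (nat_lit 15) (.e (nat_lit 3632) (nat_lit 227) (.e (nat_lit 778317) (nat_lit 3) (.e (nat_lit 57480) (nat_lit 28) (.e (nat_lit 557109) (nat_lit 15) (.e (nat_lit 188458) (nat_lit 25) (.e (nat_lit 245784) (nat_lit 9) .nil)))))))) (.g (nat_lit 6) .nil .nil))) 
(.lf (nat_lit 57274) (.g (nat_lit 3407) (.e (nat_lit 1443) (nat_lit 108) (.e (nat_lit 336013) (nat_lit 2) (.e (nat_lit 90170) (nat_lit 13) (.e (nat_lit 172106) (nat_lit 10) (.e (nat_lit 434231) (nat_lit 23) (.e (nat_lit 532481) (nat_lit 0) (.e (nat_lit 984) (nat_lit 81) (.e (nat_lit 4500) (nat_lit 263) (.e (nat_lit 1008) (nat_lit 81) .nil))))))))) (.g (nat_lit 4) .nil .nil)))))) 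
(.nd (nat_lit 3) (.nd (nat_lit 4) (.nd (nat_lit 5) 
(.lf (nat_lit 57222) (.g (nat_lit 1981) (.e (nat_lit 1439) (nat_lit 108) (.e (nat_lit 336060) (nat_lit 7) (.e (nat_lit 319534) (nat_lit 16) (.e (nat_lit 286756) (nat_lit 10) (.e (nat_lit 344097) (nat_lit 18) .nil))))) .nil)) 
(.lf (nat_lit 57254) (.g (nat_lit 1758) (.e (nat_lit 1442) (nat_lit 108) (.e (nat_lit 336060) (nat_lit 7) (.e (nat_lit 319533) (nat_lit 16) (.e (nat_lit 286753) (nat_lit 10) (.e (nat_lit 344097) (nat_lit 18) .nil))))) .nil))) (.nd (nat_lit 5) 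
(.lf (nat_lit 57238) (.g (nat_lit 2267) (.e (nat_lit 1440) (nat_lit 108) (.e (nat_lit 336060) (nat_lit 7) (.e (nat_lit 319534) (nat_lit 16) (.e (nat_lit 286756) (nat_lit 10) (.e (nat_lit 344168) (nat_lit 40) .nil))))) .nil)) 
(.lf (nat_lit 57270) (.g (nat_lit 1499) (.e (nat_lit 1442) (nat_lit 108) (.e (nat_lit 336173) (nat_lit 10) (.e (nat_lit 344169) (nat_lit 40) (.e (nat_lit 671764) (nat_lit 6) (.e (nat_lit 81931) (nat_lit 20) (.e (nat_lit 1998) (nat_lit 137) (.e (nat_lit 663554) (nat_lit 0) .nil))))))) (.g (nat_lit 4) .nil .nil))))) (.nd (nat_lit 4) (.nd (nat_lit 5) 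
(.lf (nat_lit 57230) (.g (nat_lit 1983) (.e (nat_lit 1440) (nat_lit 108) (.e (nat_lit 336060) (nat_lit 7) (.e (nat_lit 319533) (nat_lit 16) (.e (nat_lit 286753) (nat_lit 10) (.e (nat_lit 344169) (nat_lit 40) (.e (nat_lit 671751) (nat_lit 0) (.e (nat_lit 1182) (nat_lit 87) (.e (nat_lit 57731) (nat_lit 181) (.e (nat_lit 1023) (nat_lit 81) .nil))))))))) (.g (nat_lit 4) .nil .nil))) 
(.lf (nat_lit 57262) (.g (nat_lit 2683) (.e (nat_lit 1442) (nat_lit 108) (.e (nat_lit 336060) (nat_lit 7) (.e (nat_lit 319534) (nat_lit 16) (.e (nat_lit 286756) (nat_lit 10) (.e (nat_lit 344097) (nat_lit 18) (.e (nat_lit 5194) (nat_lit 294) (.e (nat_lit 57368) (nat_lit 1) (.e (nat_lit 57830) (nat_lit 250) (.e (nat_lit 1016) (nat_lit 81) .nil))))))))) (.g (nat_lit 6) .nil .nil)))) (.nd (nat_lit 5) 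
(.lf (nat_lit 57246) (.g (nat_lit 5448) (.e (nat_lit 1440) (nat_lit 108) (.e (nat_lit 336295) (nat_lit 15) (.e (nat_lit 3632) (nat_lit 227) (.e (nat_lit 778317) (nat_lit 3) (.e (nat_lit 57480) (nat_lit 28) (.e (nat_lit 557109) (nat_lit 15) (.e (nat_lit 188458) (nat_lit 25) (.e (nat_lit 245784) (nat_lit 9) .nil)))))))) (.g (nat_lit 8) .nil .nil))) 
(.lf (nat_lit 57278) (.g (nat_lit 3548) (.e (nat_lit 1443) (nat_lit 108) (.e (nat_lit 336013) (nat_lit 2) (.e (nat_lit 90170) (nat_lit 13) (.e (nat_lit 172106) (nat_lit 10) (.e (nat_lit 434231) (nat_lit 23) (.e (nat_lit 532481) (nat_lit 0) (.e (nat_lit 996) (nat_lit 81) (.e (nat_lit 4500) (nat_lit 263) (.e (nat_lit 1008) (nat_lit 81) .nil))))))))) (.g (nat_lit 4) .nil .nil)))))))) 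
(.nd (nat_lit 1) (.nd (nat_lit 2) (.nd (nat_lit 3) (.nd (nat_lit 4) (.nd (nat_lit 5) 
(.lf (nat_lit 57217) (.g (nat_lit 2400) (.e (nat_lit 1438) (nat_lit 108) (.e (nat_lit 336219) (nat_lit 13) (.e (nat_lit 393301) (nat_lit 27) (.e (nat_lit 491560) (nat_lit 10) (.e (nat_lit 344174) (nat_lit 42) .nil))))) .nil)) 
(.lf (nat_lit 57249) (.g (nat_lit 3256) (.e (nat_lit 1442) (nat_lit 108) (.e (nat_lit 336024) (nat_lit 3) (.e (nat_lit 98373) (nat_lit 29) (.e (nat_lit 450587) (nat_lit 10) (.e (nat_lit 573475) (nat_lit 12) (.e (nat_lit 57572) (nat_lit 54) (.e (nat_lit 770055) (nat_lit 5) .nil))))))) (.g (nat_lit 4) .nil .nil)))) (.nd (nat_lit 5) 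
(.lf (nat_lit 57233) (.g (nat_lit 1983) (.e (nat_lit 1440) (nat_lit 108) (.e (nat_lit 336060) (nat_lit 7) (.e (nat_lit 319534) (nat_lit 16) (.e (nat_lit 286756) (nat_lit 10) (.e (nat_lit 344097) (nat_lit 18) (.e (nat_lit 5195) (nat_lit 294) (.e (nat_lit 57363) (nat_lit 1) (.e (nat_lit 57825) (nat_lit 250) (.e (nat_lit 1034) (nat_lit 81) .nil))))))))) (.g (nat_lit 4) .nil .nil))) 
(.lf (nat_lit 57265) (.g (nat_lit 2267) (.e (nat_lit 1442) (nat_lit 108) (.e (nat_lit 336060) (nat_lit 7) (.e (nat_lit 319534) (nat_lit 16) (.e (nat_lit 286756) (nat_lit 10) (.e (nat_lit 344168) (nat_lit 40) .nil))))) .nil)))) (.nd (nat_lit 4) (.nd (nat_lit 5) 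
(.lf (nat_lit 57225) (.g (nat_lit 4099) (.e (nat_lit 1439) (nat_lit 108) (.e (nat_lit 336099) (nat_lit 9) (.e (nat_lit 336013) (nat_lit 2) (.e (nat_lit 90134) (nat_lit 9) (.e (nat_lit 2828) (nat_lit 182) .nil))))) .nil)) 
(.lf (nat_lit 57257) (.g (nat_lit 2594) (.e (nat_lit 1442) (nat_lit 108) (.e (nat_lit 336060) (nat_lit 7) (.e (nat_lit 319533) (nat_lit 16) (.e (nat_lit 286753) (nat_lit 10) (.e (nat_lit 344160) (nat_lit 37) (.e (nat_lit 647195) (nat_lit 9) (.e (nat_lit 1181) (nat_lit 87) (.e (nat_lit 57653) (nat_lit 152) (.e (nat_lit 974) (nat_lit 81) .nil))))))))) (.g (nat_lit 5) .nil .nil)))) (.nd (nat_lit 5) 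
(.lf (nat_lit 57241) (.g (nat_lit 1051) (.e (nat_lit 1440) (nat_lit 108) (.e (nat_lit 336176) (nat_lit 10) (.e (nat_lit 344130) (nat_lit 26) (.e (nat_lit 557087) (nat_lit 11) .nil)))) .nil)) 
(.lf (nat_lit 57273) (.g (nat_lit 3167) (.e (nat_lit 1443) (nat_lit 108) (.e (nat_lit 336013) (nat_lit 2) (.e (nat_lit 90170) (nat_lit 13) (.e (nat_lit 172106) (nat_lit 10) (.e (nat_lit 434231) (nat_lit 23) .nil))))) .nil))))) (.nd (nat_lit 3) (.nd (nat_lit 4) (.nd (nat_lit 5) 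
(.lf (nat_lit 57221) (.g (nat_lit 1657) (.e (nat_lit 1439) (nat_lit 108) (.e (nat_lit 336060) (nat_lit 7) (.e (nat_lit 319534) (nat_lit 16) (.e (nat_lit 286749) (nat_lit 9) (.e (nat_lit 335997) (nat_lit 1) .nil))))) .nil)) 
(.lf (nat_lit 57253) (.g (nat_lit 2009) (.e (nat_lit 1442) (nat_lit 108) (.e (nat_lit 336060) (nat_lit 7) (.e (nat_lit 319505) (nat_lit 10) (.e (nat_lit 5714) (nat_lit 312) (.e (nat_lit 316) (nat_lit 23) .nil))))) .nil))) (.nd (nat_lit 5) 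
(.lf (nat_lit 57237) (.g (nat_lit 2229) (.e (nat_lit 1440) (nat_lit 108) (.e (nat_lit 336060) (nat_lit 7) (.e (nat_lit 319534) (nat_lit 16) (.e (nat_lit 286756) (nat_lit 10) (.e (nat_lit 344160) (nat_lit 37) (.e (nat_lit 647195) (nat_lit 9) (.e (nat_lit 1181) (nat_lit 87) (.e (nat_lit 57654) (nat_lit 152) (.e (nat_lit 1095) (nat_lit 81) .nil))))))))) (.g (nat_lit 4) .nil .nil))) 
(.lf (nat_lit 57269) (.g (nat_lit 1063) (.e (nat_lit 1442) (nat_lit 108) (.e (nat_lit 336173) (nat_lit 10) (.e (nat_lit 344169) (nat_lit 40) (.e (nat_lit 671764) (nat_lit 6) .nil)))) .nil)))) (.nd (nat_lit 4) (.nd (nat_lit 5) 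
(.lf (nat_lit 57229) (.g (nat_lit 1862) (.e (nat_lit 1440) (nat_lit 108) (.e (nat_lit 336060) (nat_lit 7) (.e (nat_lit 319533) (nat_lit 16) (.e (nat_lit 286753) (nat_lit 10) (.e (nat_lit 344168) (nat_lit 40) .nil))))) .nil)) 
(.lf (nat_lit 57261) (.g (nat_lit 1981) (.e (nat_lit 1442) (nat_lit 108) (.e (nat_lit 336060) (nat_lit 7) (.e (nat_lit 319534) (nat_lit 16) (.e (nat_lit 286756) (nat_lit 10) (.e (nat_lit 344097) (nat_lit 18) .nil))))) .nil))) (.nd (nat_lit 5) 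
(.lf (nat_lit 57245) (.g (nat_lit 4464) (.e (nat_lit 1440) (nat_lit 108) (.e (nat_lit 336295) (nat_lit 15) (.e (nat_lit 3632) (nat_lit 227) (.e (nat_lit 778317) (nat_lit 3) (.e (nat_lit 57477) (nat_lit 28) (.e (nat_lit 557108) (nat_lit 15) (.e (nat_lit 188458) (nat_lit 25) (.e (nat_lit 245784) (nat_lit 9) .nil)))))))) (.g (nat_lit 8) .nil .nil))) 
(.lf (nat_lit 57277) (.g (nat_lit 3453) (.e (nat_lit 1443) (nat_lit 108) (.e (nat_lit 336013) (nat_lit 2) (.e (nat_lit 90170) (nat_lit 13) (.e (nat_lit 172106) (nat_lit 10) (.e (nat_lit 434231) (nat_lit 23) (.e (nat_lit 532481) (nat_lit 0) (.e (nat_lit 996) (nat_lit 81) (.e (nat_lit 4484) (nat_lit 263) (.e (nat_lit 1009) (nat_lit 81) .nil))))))))) (.g (nat_lit 4) .nil .nil))))))) 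
(.nd (nat_lit 2) (.nd (nat_lit 3) (.nd (nat_lit 4) (.nd (nat_lit 5) 
(.lf (nat_lit 57219) (.g (nat_lit 1841) (.e (nat_lit 1439) (nat_lit 108) (.e (nat_lit 336060) (nat_lit 7) (.e (nat_lit 319505) (nat_lit 10) (.e (nat_lit 618) (nat_lit 48) (.e (nat_lit 557107) (nat_lit 15) .nil))))) .nil)) 
(.lf (nat_lit 57251) (.g (nat_lit 4742) (.e (nat_lit 1442) (nat_lit 108) (.e (nat_lit 336024) (nat_lit 3) (.e (nat_lit 98373) (nat_lit 29) (.e (nat_lit 450587) (nat_lit 10) (.e (nat_lit 573475) (nat_lit 12) (.e (nat_lit 57572) (nat_lit 54) (.e (nat_lit 770058) (nat_lit 5) .nil))))))) (.g (nat_lit 7) .nil .nil)))) (.nd (nat_lit 5) 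
(.lf (nat_lit 57235) (.g (nat_lit 2192) (.e (nat_lit 1440) (nat_lit 108) (.e (nat_lit 336060) (nat_lit 7) (.e (nat_lit 319534) (nat_lit 16) (.e (nat_lit 286756) (nat_lit 10) (.e (nat_lit 344160) (nat_lit 37) .nil))))) .nil)) 
(.lf (nat_lit 57267) (.g (nat_lit 4099) (.e (nat_lit 1442) (nat_lit 108) (.e (nat_lit 336099) (nat_lit 9) (.e (nat_lit 336013) (nat_lit 2) (.e (nat_lit 90134) (nat_lit 9) (.e (nat_lit 2828) (nat_lit 182) .nil))))) .nil)))) (.nd (nat_lit 4) (.nd (nat_lit 5) 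
(.lf (nat_lit 57227) (.g (nat_lit 3036) (.e (nat_lit 1440) (nat_lit 108) (.e (nat_lit 335928) (nat_lit 0) (.e (nat_lit 2005) (nat_lit 138) (.e (nat_lit 671759) (nat_lit 3) (.e (nat_lit 57479) (nat_lit 28) (.e (nat_lit 557109) (nat_lit 15) (.e (nat_lit 188458) (nat_lit 25) (.e (nat_lit 245784) (nat_lit 9) .nil)))))))) (.g (nat_lit 0) .nil .nil))) 
(.lf (nat_lit 57259) (.g (nat_lit 1377) (.e (nat_lit 1442) (nat_lit 108) (.e (nat_lit 336060) (nat_lit 7) (.e (nat_lit 319534) (nat_lit 16) (.e (nat_lit 286749) (nat_lit 9) .nil)))) .nil))) (.nd (nat_lit 5) 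
(.lf (nat_lit 57243) (.g (nat_lit 1982) (.e (nat_lit 1440) (nat_lit 108) (.e (nat_lit 336295) (nat_lit 15) (.e (nat_lit 3305) (nat_lit 202) (.e (nat_lit 573484) (nat_lit 13) (.e (nat_lit 65610) (nat_lit 10) .nil))))) .nil)) 
(.lf (nat_lit 57275) (.g (nat_lit 3710) (.e (nat_lit 1443) (nat_lit 108) (.e (nat_lit 336013) (nat_lit 2) (.e (nat_lit 90170) (nat_lit 13) (.e (nat_lit 172106) (nat_lit 10) (.e (nat_lit 434231) (nat_lit 23) (.e (nat_lit 532481) (nat_lit 0) (.e (nat_lit 984) (nat_lit 81) (.e (nat_lit 4500) (nat_lit 263) (.e (nat_lit 1014) (nat_lit 81) .nil))))))))) (.g (nat_lit 4) .nil .nil)))))) 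
(.nd (nat_lit 3) (.nd (nat_lit 4) (.nd (nat_lit 5) 
(.lf (nat_lit 57223) (.g (nat_lit 2192) (.e (nat_lit 1439) (nat_lit 108) (.e (nat_lit 336060) (nat_lit 7) (.e (nat_lit 319534) (nat_lit 16) (.e (nat_lit 286756) (nat_lit 10) (.e (nat_lit 344160) (nat_lit 37) .nil))))) .nil)) 
(.lf (nat_lit 57255) (.g (nat_lit 2159) (.e (nat_lit 1442) (nat_lit 108) (.e (nat_lit 336060) (nat_lit 7) (.e (nat_lit 319533) (nat_lit 16) (.e (nat_lit 286753) (nat_lit 10) (.e (nat_lit 344097) (nat_lit 18) (.e (nat_lit 5195) (nat_lit 294) (.e (nat_lit 57368) (nat_lit 1) (.e (nat_lit 57830) (nat_lit 250) (.e (nat_lit 1016) (nat_lit 81) .nil))))))))) (.g (nat_lit 5) .nil .nil)))) (.nd (nat_lit 5) 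
(.lf (nat_lit 57239) (.g (nat_lit 2129) (.e (nat_lit 1440) (nat_lit 108) (.e (nat_lit 336060) (nat_lit 7) (.e (nat_lit 319534) (nat_lit 16) (.e (nat_lit 286756) (nat_lit 10) (.e (nat_lit 344169) (nat_lit 40) .nil))))) .nil)) 
(.lf (nat_lit 57271) (.g (nat_lit 1606) (.e (nat_lit 1442) (nat_lit 108) (.e (nat_lit 336173) (nat_lit 10) (.e (nat_lit 344169) (nat_lit 40) (.e (nat_lit 671764) (nat_lit 6) (.e (nat_lit 81935) (nat_lit 20) (.e (nat_lit 1998) (nat_lit 137) (.e (nat_lit 663554) (nat_lit 0) .nil))))))) (.g (nat_lit 4) .nil .nil))))) (.nd (nat_lit 4) (.nd (nat_lit 5) 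
(.lf (nat_lit 57231) (.g (nat_lit 1941) (.e (nat_lit 1440) (nat_lit 108) (.e (nat_lit 336060) (nat_lit 7) (.e (nat_lit 319533) (nat_lit 16) (.e (nat_lit 286753) (nat_lit 10) (.e (nat_lit 344169) (nat_lit 40) (.e (nat_lit 671751) (nat_lit 0) (.e (nat_lit 1182) (nat_lit 87) (.e (nat_lit 57731) (nat_lit 181) (.e (nat_lit 1033) (nat_lit 81) .nil))))))))) (.g (nat_lit 4) .nil .nil))) 
(.lf (nat_lit 57263) (.g (nat_lit 2192) (.e (nat_lit 1442) (nat_lit 108) (.e (nat_lit 336060) (nat_lit 7) (.e (nat_lit 319534) (nat_lit 16) (.e (nat_lit 286756) (nat_lit 10) (.e (nat_lit 344160) (nat_lit 37) .nil))))) .nil))) (.nd (nat_lit 5) 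
(.lf (nat_lit 57247) (.g (nat_lit 2764) (.e (nat_lit 1440) (nat_lit 108) (.e (nat_lit 336295) (nat_lit 15) (.e (nat_lit 3632) (nat_lit 227) (.e (nat_lit 778318) (nat_lit 3) (.e (nat_lit 57476) (nat_lit 28) .nil))))) .nil)) 
(.lf (nat_lit 57279) (.g (nat_lit 3523) (.e (nat_lit 1443) (nat_lit 108) (.e (nat_lit 336013) (nat_lit 2) (.e (nat_lit 90170) (nat_lit 13) (.e (nat_lit 172106) (nat_lit 10) (.e (nat_lit 434231) (nat_lit 23) (.e (nat_lit 532481) (nat_lit 0) (.e (nat_lit 997) (nat_lit 81) (.e (nat_lit 4500) (nat_lit 263) (.e (nat_lit 1014) (nat_lit 81) .nil))))))))) (.g (nat_lit 4) .nil .nil)))))))))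

noncomputable def tv787 : DT := (.nd (nat_lit 0) (.nd (nat_lit 1) (.nd (nat_lit 2) (.nd (nat_lit 3) (.nd (nat_lit 4) (.nd (nat_lit 5) 
(.lf (nat_lit 57280) (.g (nat_lit 5370) (.e (nat_lit 1443) (nat_lit 108) (.e (nat_lit 336013) (nat_lit 2) (.e (nat_lit 90170) (nat_lit 13) (.e (nat_lit 172106) (nat_lit 10) (.e (nat_lit 434231) (nat_lit 23) (.e (nat_lit 532481) (nat_lit 0) (.e (nat_lit 1906) (nat_lit 129) (.e (nat_lit 598024) (nat_lit 5) .nil)))))))) (.g (nat_lit 5) .nil .nil))) 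
(.lf (nat_lit 57312) (.g (nat_lit 3311) (.e (nat_lit 1443) (nat_lit 108) (.e (nat_lit 336013) (nat_lit 2) (.e (nat_lit 90170) (nat_lit 13) (.e (nat_lit 172106) (nat_lit 10) (.e (nat_lit 434231) (nat_lit 23) (.e (nat_lit 532500) (nat_lit 1) (.e (nat_lit 65280) (nat_lit 221) (.e (nat_lit 1008) (nat_lit 81) .nil)))))))) (.g (nat_lit 4) .nil .nil)))) (.nd (nat_lit 5) 
(.lf (nat_lit 57296) (.g (nat_lit 3240) (.e (nat_lit 1443) (nat_lit 108) (.e (nat_lit 336013) (nat_lit 2) (.e (nat_lit 90170) (nat_lit 13) (.e (nat_lit 172106) (nat_lit 10) (.e (nat_lit 434231) (nat_lit 23) (.e (nat_lit 532490) (nat_lit 0) (.e (nat_lit 1907) (nat_lit 129) (.e (nat_lit 598022) (nat_lit 5) .nil)))))))) (.g (nat_lit 4) .nil .nil))) 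
(.lf (nat_lit 57328) (.g (nat_lit 3969) (.e (nat_lit 1443) (nat_lit 108) (.e (nat_lit 336013) (nat_lit 2) (.e (nat_lit 90170) (nat_lit 13) (.e (nat_lit 172113) (nat_lit 10) (.e (nat_lit 434242) (nat_lit 28) (.e (nat_lit 573474) (nat_lit 12) (.e (nat_lit 57347) (nat_lit 0) (.e (nat_lit 7124) (nat_lit 382) (.e (nat_lit 1016) (nat_lit 81) .nil))))))))) (.g (nat_lit 4) .nil .nil))))) 
(.nd (nat_lit 4) (.nd (nat_lit 5) 
(.lf (nat_lit 57288) (.g (nat_lit 3177) (.e (nat_lit 1443) (nat_lit 108) (.e (nat_lit 336013) (nat_lit 2) (.e (nat_lit 90170) (nat_lit 13) (.e (nat_lit 172106) (nat_lit 10) (.e (nat_lit 434231) (nat_lit 23) (.e (nat_lit 532483) (nat_lit 0) (.e (nat_lit 7936) (nat_lit 129) (.e (nat_lit 598022) (nat_lit 5) .nil)))))))) (.g (nat_lit 4) .nil .nil))) 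
(.lf (nat_lit 57320) (.g (nat_lit 3392) (.e (nat_lit 1443) (nat_lit 108) (.e (nat_lit 336013) (nat_lit 2) (.e (nat_lit 90170) (nat_lit 13) (.e (nat_lit 172106) (nat_lit 10) (.e (nat_lit 434244) (nat_lit 28) (.e (nat_lit 573474) (nat_lit 12) (.e (nat_lit 57344) (nat_lit 0) (.e (nat_lit 7122) (nat_lit 382) (.e (nat_lit 1016) (nat_lit 81) .nil))))))))) (.g (nat_lit 4) .nil .nil)))) (.nd (nat_lit 5) 
(.lf (nat_lit 57304) (.g (nat_lit 4157) (.e (nat_lit 1443) (nat_lit 108) (.e (nat_lit 336013) (nat_lit 2) (.e (nat_lit 90170) (nat_lit 13) (.e (nat_lit 172106) (nat_lit 10) (.e (nat_lit 434231) (nat_lit 23) (.e (nat_lit 532490) (nat_lit 0) (.e (nat_lit 1910) (nat_lit 129) (.e (nat_lit 598022) (nat_lit 5) .nil)))))))) (.g (nat_lit 5) .nil .nil))) 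
(.lf (nat_lit 57336) (.g (nat_lit 4111) (.e (nat_lit 1443) (nat_lit 108) (.e (nat_lit 336013) (nat_lit 2) (.e (nat_lit 90170) (nat_lit 13) (.e (nat_lit 172113) (nat_lit 10) (.e (nat_lit 434248) (nat_lit 28) (.e (nat_lit 573475) (nat_lit 12) (.e (nat_lit 57347) (nat_lit 0) (.e (nat_lit 7125) (nat_lit 382) (.e (nat_lit 1016) (nat_lit 81) .nil))))))))) (.g (nat_lit 4) .nil .nil)))))) 
(.nd (nat_lit 3) (.nd (nat_lit 4) (.nd (nat_lit 5) 
(.lf (nat_lit 57284) (.g (nat_lit 3376) (.e (nat_lit 1443) (nat_lit 108) (.e (nat_lit 336013) (nat_lit 2) (.e (nat_lit 90170) (nat_lit 13) (.e (nat_lit 172106) (nat_lit 10) (.e (nat_lit 434231) (nat_lit 23) (.e (nat_lit 532483) (nat_lit 0) (.e (nat_lit 1905) (nat_lit 129) (.e (nat_lit 598024) (nat_lit 5) .nil)))))))) (.g (nat_lit 4) .nil .nil))) 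
(.lf (nat_lit 57316) (.g (nat_lit 3693) (.e (nat_lit 1443) (nat_lit 108) (.e (nat_lit 336013) (nat_lit 2) (.e (nat_lit 90170) (nat_lit 13) (.e (nat_lit 172106) (nat_lit 10) (.e (nat_lit 434231) (nat_lit 23) (.e (nat_lit 532517) (nat_lit 4) (.e (nat_lit 123116) (nat_lit 221) (.e (nat_lit 1014) (nat_lit 81) .nil)))))))) (.g (nat_lit 4) .nil .nil)))) (.nd (nat_lit 5) 
(.lf (nat_lit 57300) (.g (nat_lit 3613) (.e (nat_lit 1443) (nat_lit 108) (.e (nat_lit 336013) (nat_lit 2) (.e (nat_lit 90170) (nat_lit 13) (.e (nat_lit 172106) (nat_lit 10) (.e (nat_lit 434231) (nat_lit 23) (.e (nat_lit 532490) (nat_lit 0) (.e (nat_lit 1908) (nat_lit 129) (.e (nat_lit 598024) (nat_lit 5) .nil)))))))) (.g (nat_lit 4) .nil .nil))) 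
(.lf (nat_lit 57332) (.g (nat_lit 4011) (.e (nat_lit 1443) (nat_lit 108) (.e (nat_lit 336013) (nat_lit 2) (.e (nat_lit 90170) (nat_lit 13) (.e (nat_lit 172113) (nat_lit 10) (.e (nat_lit 434245) (nat_lit 28) (.e (nat_lit 573474) (nat_lit 12) (.e (nat_lit 57348) (nat_lit 0) (.e (nat_lit 7124) (nat_lit 382) (.e (nat_lit 1016) (nat_lit 81) .nil))))))))) (.g (nat_lit 4) .nil .nil))))) 
(.nd (nat_lit 4) (.nd (nat_lit 5) 
(.lf (nat_lit 57292) (.g (nat_lit 3968) (.e (nat_lit 1443) (nat_lit 108) (.e (nat_lit 336013) (nat_lit 2) (.e (nat_lit 90170) (nat_lit 13) (.e (nat_lit 172106) (nat_lit 10) (.e (nat_lit 434231) (nat_lit 23) (.e (nat_lit 532490) (nat_lit 0) (.e (nat_lit 991) (nat_lit 81) (.e (nat_lit 4500) (nat_lit 263) (.e (nat_lit 1008) (nat_lit 81) .nil))))))))) (.g (nat_lit 5) .nil .nil))) 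
(.lf (nat_lit 57324) (.g (nat_lit 3319) (.e (nat_lit 1443) (nat_lit 108) (.e (nat_lit 336013) (nat_lit 2) (.e (nat_lit 90170) (nat_lit 13) (.e (nat_lit 172106) (nat_lit 10) (.e (nat_lit 434244) (nat_lit 28) (.e (nat_lit 573474) (nat_lit 12) (.e (nat_lit 57351) (nat_lit 0) (.e (nat_lit 7125) (nat_lit 382) (.e (nat_lit 1016) (nat_lit 81) .nil))))))))) (.g (nat_lit 4) .nil .nil)))) (.nd (nat_lit 5) 
(.lf (nat_lit 57308) (.g (nat_lit 3237) (.e (nat_lit 1443) (nat_lit 108) (.e (nat_lit 336013) (nat_lit 2) (.e (nat_lit 90170) (nat_lit 13) (.e (nat_lit 172106) (nat_lit 10) (.e (nat_lit 434231) (nat_lit 23) (.e (nat_lit 532491) (nat_lit 0) (.e (nat_lit 1908) (nat_lit 129) (.e (nat_lit 598024) (nat_lit 5) .nil)))))))) (.g (nat_lit 4) .nil .nil))) 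
(.lf (nat_lit 57340) (.g (nat_lit 1960) (.e (nat_lit 1443) (nat_lit 108) (.e (nat_lit 336028) (nat_lit 3) (.e (nat_lit 98359) (nat_lit 26) (.e (nat_lit 426286) (nat_lit 10) (.e (nat_lit 434248) (nat_lit 28) .nil))))) .nil)))))) (.nd (nat_lit 2) (.nd (nat_lit 3) (.nd (nat_lit 4) (.nd (nat_lit 5) 
(.lf (nat_lit 57282) (.g (nat_lit 3380) (.e (nat_lit 1443) (nat_lit 108) (.e (nat_lit 336013) (nat_lit 2) (.e (nat_lit 90170) (nat_lit 13) (.e (nat_lit 172106) (nat_lit 10) (.e (nat_lit 434231) (nat_lit 23) (.e (nat_lit 532482) (nat_lit 0) (.e (nat_lit 971) (nat_lit 81) (.e (nat_lit 4493) (nat_lit 263) (.e (nat_lit 1014) (nat_lit 81) .nil))))))))) (.g (nat_lit 4) .nil .nil))) 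
(.lf (nat_lit 57314) (.g (nat_lit 3525) (.e (nat_lit 1443) (nat_lit 108) (.e (nat_lit 336013) (nat_lit 2) (.e (nat_lit 90170) (nat_lit 13) (.e (nat_lit 172106) (nat_lit 10) (.e (nat_lit 434231) (nat_lit 23) (.e (nat_lit 532516) (nat_lit 4) (.e (nat_lit 123116) (nat_lit 221) (.e (nat_lit 1014) (nat_lit 81) .nil)))))))) (.g (nat_lit 4) .nil .nil)))) (.nd (nat_lit 5) 
(.lf (nat_lit 57298) (.g (nat_lit 4388) (.e (nat_lit 1443) (nat_lit 108) (.e (nat_lit 336013) (nat_lit 2) (.e (nat_lit 90170) (nat_lit 13) (.e (nat_lit 172106) (nat_lit 10) (.e (nat_lit 434231) (nat_lit 23) (.e (nat_lit 532490) (nat_lit 0) (.e (nat_lit 1907) (nat_lit 129) (.e (nat_lit 598024) (nat_lit 5) .nil)))))))) (.g (nat_lit 5) .nil .nil))) 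
(.lf (nat_lit 57330) (.g (nat_lit 4305) (.e (nat_lit 1443) (nat_lit 108) (.e (nat_lit 336013) (nat_lit 2) (.e (nat_lit 90170) (nat_lit 13) (.e (nat_lit 172113) (nat_lit 10) (.e (nat_lit 434245) (nat_lit 28) (.e (nat_lit 573474) (nat_lit 12) (.e (nat_lit 57347) (nat_lit 0) (.e (nat_lit 7124) (nat_lit 382) (.e (nat_lit 1016) (nat_lit 81) .nil))))))))) (.g (nat_lit 4) .nil .nil))))) 
(.nd (nat_lit 4) (.nd (nat_lit 5) 
(.lf (nat_lit 57290) (.g (nat_lit 3385) (.e (nat_lit 1443) (nat_lit 108) (.e (nat_lit 336013) (nat_lit 2) (.e (nat_lit 90170) (nat_lit 13) (.e (nat_lit 172106) (nat_lit 10) (.e (nat_lit 434231) (nat_lit 23) (.e (nat_lit 532490) (nat_lit 0) (.e (nat_lit 990) (nat_lit 81) (.e (nat_lit 4500) (nat_lit 263) (.e (nat_lit 1008) (nat_lit 81) .nil))))))))) (.g (nat_lit 4) .nil .nil))) 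
(.lf (nat_lit 57322) (.g (nat_lit 3380) (.e (nat_lit 1443) (nat_lit 108) (.e (nat_lit 336013) (nat_lit 2) (.e (nat_lit 90170) (nat_lit 13) (.e (nat_lit 172106) (nat_lit 10) (.e (nat_lit 434244) (nat_lit 28) (.e (nat_lit 573474) (nat_lit 12) (.e (nat_lit 57348) (nat_lit 0) (.e (nat_lit 7125) (nat_lit 382) (.e (nat_lit 1016) (nat_lit 81) .nil))))))))) (.g (nat_lit 4) .nil .nil)))) (.nd (nat_lit 5) 
(.lf (nat_lit 57306) (.g (nat_lit 3674) (.e (nat_lit 1443) (nat_lit 108) (.e (nat_lit 336013) (nat_lit 2) (.e (nat_lit 90170) (nat_lit 13) (.e (nat_lit 172106) (nat_lit 10) (.e (nat_lit 434231) (nat_lit 23) (.e (nat_lit 532490) (nat_lit 0) (.e (nat_lit 1910) (nat_lit 129) (.e (nat_lit 598024) (nat_lit 5) .nil)))))))) (.g (nat_lit 4) .nil .nil))) 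
(.lf (nat_lit 57338) (.g (nat_lit 3441) (.e (nat_lit 1443) (nat_lit 108) (.e (nat_lit 336024) (nat_lit 3) (.e (nat_lit 98373) (nat_lit 29) (.e (nat_lit 450587) (nat_lit 10) (.e (nat_lit 573475) (nat_lit 12) (.e (nat_lit 57572) (nat_lit 54) (.e (nat_lit 770055) (nat_lit 5) .nil))))))) (.g (nat_lit 4) .nil .nil)))))) (.nd (nat_lit 3) (.nd (nat_lit 4) (.nd (nat_lit 5) 
(.lf (nat_lit 57286) (.g (nat_lit 5135) (.e (nat_lit 1443) (nat_lit 108) (.e (nat_lit 336013) (nat_lit 2) (.e (nat_lit 90170) (nat_lit 13) (.e (nat_lit 172106) (nat_lit 10) (.e (nat_lit 434231) (nat_lit 23) (.e (nat_lit 532483) (nat_lit 0) (.e (nat_lit 1912) (nat_lit 129) (.e (nat_lit 598022) (nat_lit 5) .nil)))))))) (.g (nat_lit 5) .nil .nil))) 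
(.lf (nat_lit 57318) (.g (nat_lit 3291) (.e (nat_lit 1443) (nat_lit 108) (.e (nat_lit 336013) (nat_lit 2) (.e (nat_lit 90170) (nat_lit 13) (.e (nat_lit 172106) (nat_lit 10) (.e (nat_lit 434244) (nat_lit 28) (.e (nat_lit 573473) (nat_lit 12) (.e (nat_lit 57347) (nat_lit 0) (.e (nat_lit 7124) (nat_lit 382) (.e (nat_lit 1016) (nat_lit 81) .nil))))))))) (.g (nat_lit 4) .nil .nil)))) (.nd (nat_lit 5) 
(.lf (nat_lit 57302) (.g (nat_lit 3495) (.e (nat_lit 1443) (nat_lit 108) (.e (nat_lit 336013) (nat_lit 2) (.e (nat_lit 90170) (nat_lit 13) (.e (nat_lit 172106) (nat_lit 10) (.e (nat_lit 434231) (nat_lit 23) (.e (nat_lit 532490) (nat_lit 0) (.e (nat_lit 1909) (nat_lit 129) (.e (nat_lit 598023) (nat_lit 5) .nil)))))))) (.g (nat_lit 4) .nil .nil))) 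
(.lf (nat_lit 57334) (.g (nat_lit 3934) (.e (nat_lit 1443) (nat_lit 108) (.e (nat_lit 336013) (nat_lit 2) (.e (nat_lit 90170) (nat_lit 13) (.e (nat_lit 172113) (nat_lit 10) (.e (nat_lit 434248) (nat_lit 28) .nil))))) .nil)))) (.nd (nat_lit 4) (.nd (nat_lit 5) 
(.lf (nat_lit 57294) (.g (nat_lit 4284) (.e (nat_lit 1443) (nat_lit 108) (.e (nat_lit 336013) (nat_lit 2) (.e (nat_lit 90170) (nat_lit 13) (.e (nat_lit 172106) (nat_lit 10) (.e (nat_lit 434231) (nat_lit 23) (.e (nat_lit 532490) (nat_lit 0) (.e (nat_lit 1905) (nat_lit 129) (.e (nat_lit 598022) (nat_lit 5) .nil)))))))) (.g (nat_lit 5) .nil .nil))) 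
(.lf (nat_lit 57326) (.g (nat_lit 3332) (.e (nat_lit 1443) (nat_lit 108) (.e (nat_lit 336013) (nat_lit 2) (.e (nat_lit 90170) (nat_lit 13) (.e (nat_lit 172106) (nat_lit 10) (.e (nat_lit 434244) (nat_lit 28) (.e (nat_lit 573474) (nat_lit 12) (.e (nat_lit 57571) (nat_lit 54) (.e (nat_lit 770054) (nat_lit 5) .nil)))))))) (.g (nat_lit 4) .nil .nil)))) (.nd (nat_lit 5) 
(.lf (nat_lit 57310) (.g (nat_lit 3658) (.e (nat_lit 1443) (nat_lit 108) (.e (nat_lit 336013) (nat_lit 2) (.e (nat_lit 90170) (nat_lit 13) (.e (nat_lit 172106) (nat_lit 10) (.e (nat_lit 434231) (nat_lit 23) (.e (nat_lit 532500) (nat_lit 1) (.e (nat_lit 57766) (nat_lit 221) (.e (nat_lit 982) (nat_lit 81) .nil)))))))) (.g (nat_lit 4) .nil .nil))) 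
(.lf (nat_lit 57342) (.g (nat_lit 2827) (.e (nat_lit 1443) (nat_lit 108) (.e (nat_lit 336028) (nat_lit 3) (.e (nat_lit 98373) (nat_lit 29) (.e (nat_lit 450588) (nat_lit 10) (.e (nat_lit 573475) (nat_lit 12) .nil))))) .nil))))))) (.nd (nat_lit 1) (.nd (nat_lit 2) (.nd (nat_lit 3) (.nd (nat_lit 4) (.nd (nat_lit 5) 
(.lf (nat_lit 57281) (.g (nat_lit 5434) (.e (nat_lit 1443) (nat_lit 108) (.e (nat_lit 336013) (nat_lit 2) (.e (nat_lit 90170) (nat_lit 13) (.e (nat_lit 172106) (nat_lit 10) (.e (nat_lit 434231) (nat_lit 23) (.e (nat_lit 532481) (nat_lit 0) (.e (nat_lit 1911) (nat_lit 129) (.e (nat_lit 598024) (nat_lit 5) .nil)))))))) (.g (nat_lit 5) .nil .nil))) 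
(.lf (nat_lit 57313) (.g (nat_lit 3523) (.e (nat_lit 1443) (nat_lit 108) (.e (nat_lit 336013) (nat_lit 2) (.e (nat_lit 90170) (nat_lit 13) (.e (nat_lit 172106) (nat_lit 10) (.e (nat_lit 434231) (nat_lit 23) (.e (nat_lit 532500) (nat_lit 1) (.e (nat_lit 65280) (nat_lit 221) (.e (nat_lit 1016) (nat_lit 81) .nil)))))))) (.g (nat_lit 4) .nil .nil)))) (.nd (nat_lit 5) 
(.lf (nat_lit 57297) (.g (nat_lit 3353) (.e (nat_lit 1443) (nat_lit 108) (.e (nat_lit 336013) (nat_lit 2) (.e (nat_lit 90170) (nat_lit 13) (.e (nat_lit 172106) (nat_lit 10) (.e (nat_lit 434231) (nat_lit 23) (.e (nat_lit 532490) (nat_lit 0) (.e (nat_lit 1907) (nat_lit 129) (.e (nat_lit 598023) (nat_lit 5) .nil)))))))) (.g (nat_lit 4) .nil .nil))) 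
(.lf (nat_lit 57329) (.g (nat_lit 3833) (.e (nat_lit 1443) (nat_lit 108) (.e (nat_lit 336013) (nat_lit 2) (.e (nat_lit 90170) (nat_lit 13) (.e (nat_lit 172113) (nat_lit 10) (.e (nat_lit 434242) (nat_lit 28) (.e (nat_lit 573474) (nat_lit 12) (.e (nat_lit 57348) (nat_lit 0) (.e (nat_lit 7124) (nat_lit 382) (.e (nat_lit 1016) (nat_lit 81) .nil))))))))) (.g (nat_lit 4) .nil .nil))))) 
(.nd (nat_lit 4) (.nd (nat_lit 5) 
(.lf (nat_lit 57289) (.g (nat_lit 3177) (.e (nat_lit 1443) (nat_lit 108) (.e (nat_lit 336013) (nat_lit 2) (.e (nat_lit 90170) (nat_lit 13) (.e (nat_lit 172106) (nat_lit 10) (.e (nat_lit 434231) (nat_lit 23) (.e (nat_lit 532483) (nat_lit 0) (.e (nat_lit 7936) (nat_lit 129) (.e (nat_lit 598024) (nat_lit 5) .nil)))))))) (.g (nat_lit 4) .nil .nil))) 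
(.lf (nat_lit 57321) (.g (nat_lit 4517) (.e (nat_lit 1443) (nat_lit 108) (.e (nat_lit 336013) (nat_lit 2) (.e (nat_lit 90170) (nat_lit 13) (.e (nat_lit 172106) (nat_lit 10) (.e (nat_lit 434244) (nat_lit 28) (.e (nat_lit 573474) (nat_lit 12) (.e (nat_lit 57347) (nat_lit 0) (.e (nat_lit 7125) (nat_lit 382) (.e (nat_lit 1016) (nat_lit 81) .nil))))))))) (.g (nat_lit 5) .nil .nil)))) (.nd (nat_lit 5) 
(.lf (nat_lit 57305) (.g (nat_lit 3416) (.e (nat_lit 1443) (nat_lit 108) (.e (nat_lit 336013) (nat_lit 2) (.e (nat_lit 90170) (nat_lit 13) (.e (nat_lit 172106) (nat_lit 10) (.e (nat_lit 434231) (nat_lit 23) (.e (nat_lit 532490) (nat_lit 0) (.e (nat_lit 1910) (nat_lit 129) (.e (nat_lit 598023) (nat_lit 5) .nil)))))))) (.g (nat_lit 4) .nil .nil))) 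
(.lf (nat_lit 57337) (.g (nat_lit 4043) (.e (nat_lit 1443) (nat_lit 108) (.e (nat_lit 336013) (nat_lit 2) (.e (nat_lit 90170) (nat_lit 13) (.e (nat_lit 172113) (nat_lit 10) (.e (nat_lit 434248) (nat_lit 28) (.e (nat_lit 573475) (nat_lit 12) (.e (nat_lit 57351) (nat_lit 0) (.e (nat_lit 7122) (nat_lit 382) (.e (nat_lit 1016) (nat_lit 81) .nil))))))))) (.g (nat_lit 4) .nil .nil)))))) 
(.nd (nat_lit 3) (.nd (nat_lit 4) (.nd (nat_lit 5) 
(.lf (nat_lit 57285) (.g (nat_lit 3348) (.e (nat_lit 1443) (nat_lit 108) (.e (nat_lit 336013) (nat_lit 2) (.e (nat_lit 90170) (nat_lit 13) (.e (nat_lit 172106) (nat_lit 10) (.e (nat_lit 434231) (nat_lit 23) (.e (nat_lit 532483) (nat_lit 0) (.e (nat_lit 1911) (nat_lit 129) (.e (nat_lit 598024) (nat_lit 5) .nil)))))))) (.g (nat_lit 4) .nil .nil))) 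
(.lf (nat_lit 57317) (.g (nat_lit 2921) (.e (nat_lit 1443) (nat_lit 108) (.e (nat_lit 336013) (nat_lit 2) (.e (nat_lit 90170) (nat_lit 13) (.e (nat_lit 172106) (nat_lit 10) (.e (nat_lit 434244) (nat_lit 28) .nil))))) .nil))) (.nd (nat_lit 5) 
(.lf (nat_lit 57301) (.g (nat_lit 3901) (.e (nat_lit 1443) (nat_lit 108) (.e (nat_lit 336013) (nat_lit 2) (.e (nat_lit 90170) (nat_lit 13) (.e (nat_lit 172106) (nat_lit 10) (.e (nat_lit 434231) (nat_lit 23) (.e (nat_lit 532490) (nat_lit 0) (.e (nat_lit 1909) (nat_lit 129) (.e (nat_lit 598022) (nat_lit 5) .nil)))))))) (.g (nat_lit 5) .nil .nil))) 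
(.lf (nat_lit 57333) (.g (nat_lit 3969) (.e (nat_lit 1443) (nat_lit 108) (.e (nat_lit 336013) (nat_lit 2) (.e (nat_lit 90170) (nat_lit 13) (.e (nat_lit 172113) (nat_lit 10) (.e (nat_lit 434245) (nat_lit 28) (.e (nat_lit 573474) (nat_lit 12) (.e (nat_lit 57351) (nat_lit 0) (.e (nat_lit 7122) (nat_lit 382) (.e (nat_lit 1016) (nat_lit 81) .nil))))))))) (.g (nat_lit 4) .nil .nil))))) 
(.nd (nat_lit 4) (.nd (nat_lit 5) 
(.lf (nat_lit 57293) (.g (nat_lit 4287) (.e (nat_lit 1443) (nat_lit 108) (.e (nat_lit 336013) (nat_lit 2) (.e (nat_lit 90170) (nat_lit 13) (.e (nat_lit 172106) (nat_lit 10) (.e (nat_lit 434231) (nat_lit 23) (.e (nat_lit 532490) (nat_lit 0) (.e (nat_lit 991) (nat_lit 81) (.e (nat_lit 4500) (nat_lit 263) (.e (nat_lit 1014) (nat_lit 81) .nil))))))))) (.g (nat_lit 5) .nil .nil))) 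
(.lf (nat_lit 57325) (.g (nat_lit 3342) (.e (nat_lit 1443) (nat_lit 108) (.e (nat_lit 336013) (nat_lit 2) (.e (nat_lit 90170) (nat_lit 13) (.e (nat_lit 172106) (nat_lit 10) (.e (nat_lit 434244) (nat_lit 28) (.e (nat_lit 573474) (nat_lit 12) (.e (nat_lit 57353) (nat_lit 0) (.e (nat_lit 7124) (nat_lit 382) (.e (nat_lit 1016) (nat_lit 81) .nil))))))))) (.g (nat_lit 4) .nil .nil)))) (.nd (nat_lit 5) 
(.lf (nat_lit 57309) (.g (nat_lit 3264) (.e (nat_lit 1443) (nat_lit 108) (.e (nat_lit 336013) (nat_lit 2) (.e (nat_lit 90170) (nat_lit 13) (.e (nat_lit 172106) (nat_lit 10) (.e (nat_lit 434231) (nat_lit 23) (.e (nat_lit 532499) (nat_lit 1) (.e (nat_lit 57766) (nat_lit 221) (.e (nat_lit 982) (nat_lit 81) .nil)))))))) (.g (nat_lit 4) .nil .nil))) 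
(.lf (nat_lit 57341) (.g (nat_lit 2826) (.e (nat_lit 1443) (nat_lit 108) (.e (nat_lit 336028) (nat_lit 3) (.e (nat_lit 98373) (nat_lit 29) (.e (nat_lit 450588) (nat_lit 10) (.e (nat_lit 573473) (nat_lit 12) .nil))))) .nil)))))) (.nd (nat_lit 2) (.nd (nat_lit 3) (.nd (nat_lit 4) (.nd (nat_lit 5) 
(.lf (nat_lit 57283) (.g (nat_lit 3446) (.e (nat_lit 1443) (nat_lit 108) (.e (nat_lit 336013) (nat_lit 2) (.e (nat_lit 90170) (nat_lit 13) (.e (nat_lit 172106) (nat_lit 10) (.e (nat_lit 434231) (nat_lit 23) (.e (nat_lit 532483) (nat_lit 0) (.e (nat_lit 1905) (nat_lit 129) (.e (nat_lit 598022) (nat_lit 5) .nil)))))))) (.g (nat_lit 4) .nil .nil))) 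
(.lf (nat_lit 57315) (.g (nat_lit 3362) (.e (nat_lit 1443) (nat_lit 108) (.e (nat_lit 336013) (nat_lit 2) (.e (nat_lit 90170) (nat_lit 13) (.e (nat_lit 172106) (nat_lit 10) (.e (nat_lit 434231) (nat_lit 23) (.e (nat_lit 532517) (nat_lit 4) (.e (nat_lit 123116) (nat_lit 221) (.e (nat_lit 1008) (nat_lit 81) .nil)))))))) (.g (nat_lit 4) .nil .nil)))) (.nd (nat_lit 5) 
(.lf (nat_lit 57299) (.g (nat_lit 3177) (.e (nat_lit 1443) (nat_lit 108) (.e (nat_lit 336013) (nat_lit 2) (.e (nat_lit 90170) (nat_lit 13) (.e (nat_lit 172106) (nat_lit 10) (.e (nat_lit 434231) (nat_lit 23) (.e (nat_lit 532490) (nat_lit 0) (.e (nat_lit 1908) (nat_lit 129) (.e (nat_lit 598023) (nat_lit 5) .nil)))))))) (.g (nat_lit 4) .nil .nil))) 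
(.lf (nat_lit 57331) (.g (nat_lit 3990) (.e (nat_lit 1443) (nat_lit 108) (.e (nat_lit 336013) (nat_lit 2) (.e (nat_lit 90170) (nat_lit 13) (.e (nat_lit 172113) (nat_lit 10) (.e (nat_lit 434245) (nat_lit 28) (.e (nat_lit 573474) (nat_lit 12) (.e (nat_lit 57347) (nat_lit 0) (.e (nat_lit 7125) (nat_lit 382) (.e (nat_lit 1016) (nat_lit 81) .nil))))))))) (.g (nat_lit 4) .nil .nil))))) 
(.nd (nat_lit 4) (.nd (nat_lit 5) 
(.lf (nat_lit 57291) (.g (nat_lit 3688) (.e (nat_lit 1443) (nat_lit 108) (.e (nat_lit 336013) (nat_lit 2) (.e (nat_lit 90170) (nat_lit 13) (.e (nat_lit 172106) (nat_lit 10) (.e (nat_lit 434231) (nat_lit 23) (.e (nat_lit 532490) (nat_lit 0) (.e (nat_lit 990) (nat_lit 81) (.e (nat_lit 4500) (nat_lit 263) (.e (nat_lit 1014) (nat_lit 81) .nil))))))))) (.g (nat_lit 4) .nil .nil))) 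
(.lf (nat_lit 57323) (.g (nat_lit 4440) (.e (nat_lit 1443) (nat_lit 108) (.e (nat_lit 336013) (nat_lit 2) (.e (nat_lit 90170) (nat_lit 13) (.e (nat_lit 172106) (nat_lit 10) (.e (nat_lit 434244) (nat_lit 28) (.e (nat_lit 573474) (nat_lit 12) (.e (nat_lit 57351) (nat_lit 0) (.e (nat_lit 7122) (nat_lit 382) (.e (nat_lit 1016) (nat_lit 81) .nil))))))))) (.g (nat_lit 5) .nil .nil)))) (.nd (nat_lit 5) 
(.lf (nat_lit 57307) (.g (nat_lit 3460) (.e (nat_lit 1443) (nat_lit 108) (.e (nat_lit 336013) (nat_lit 2) (.e (nat_lit 90170) (nat_lit 13) (.e (nat_lit 172106) (nat_lit 10) (.e (nat_lit 434231) (nat_lit 23) (.e (nat_lit 532491) (nat_lit 0) (.e (nat_lit 1908) (nat_lit 129) (.e (nat_lit 598022) (nat_lit 5) .nil)))))))) (.g (nat_lit 4) .nil .nil))) 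
(.lf (nat_lit 57339) (.g (nat_lit 1913) (.e (nat_lit 1443) (nat_lit 108) (.e (nat_lit 336028) (nat_lit 3) (.e (nat_lit 98359) (nat_lit 26) (.e (nat_lit 426286) (nat_lit 10) (.e (nat_lit 434245) (nat_lit 28) (.e (nat_lit 573474) (nat_lit 12) (.e (nat_lit 57347) (nat_lit 0) (.e (nat_lit 7124) (nat_lit 382) (.e (nat_lit 1016) (nat_lit 81) .nil))))))))) (.g (nat_lit 4) .nil .nil)))))) 
(.nd (nat_lit 3) (.nd (nat_lit 4) (.nd (nat_lit 5) 
(.lf (nat_lit 57287) (.g (nat_lit 3657) (.e (nat_lit 1443) (nat_lit 108) (.e (nat_lit 336013) (nat_lit 2) (.e (nat_lit 90170) (nat_lit 13) (.e (nat_lit 172106) (nat_lit 10) (.e (nat_lit 434231) (nat_lit 23) (.e (nat_lit 532483) (nat_lit 0) (.e (nat_lit 1912) (nat_lit 129) (.e (nat_lit 598024) (nat_lit 5) .nil)))))))) (.g (nat_lit 4) .nil .nil))) 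
(.lf (nat_lit 57319) (.g (nat_lit 3367) (.e (nat_lit 1443) (nat_lit 108) (.e (nat_lit 336013) (nat_lit 2) (.e (nat_lit 90170) (nat_lit 13) (.e (nat_lit 172106) (nat_lit 10) (.e (nat_lit 434244) (nat_lit 28) (.e (nat_lit 573473) (nat_lit 12) (.e (nat_lit 57353) (nat_lit 0) (.e (nat_lit 7125) (nat_lit 382) (.e (nat_lit 1016) (nat_lit 81) .nil))))))))) (.g (nat_lit 4) .nil .nil)))) (.nd (nat_lit 5) 
(.lf (nat_lit 57303) (.g (nat_lit 3960) (.e (nat_lit 1443) (nat_lit 108) (.e (nat_lit 336013) (nat_lit 2) (.e (nat_lit 90170) (nat_lit 13) (.e (nat_lit 172106) (nat_lit 10) (.e (nat_lit 434231) (nat_lit 23) (.e (nat_lit 532490) (nat_lit 0) (.e (nat_lit 1909) (nat_lit 129) (.e (nat_lit 598024) (nat_lit 5) .nil)))))))) (.g (nat_lit 5) .nil .nil))) 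
(.lf (nat_lit 57335) (.g (nat_lit 4448) (.e (nat_lit 1443) (nat_lit 108) (.e (nat_lit 336013) (nat_lit 2) (.e (nat_lit 90170) (nat_lit 13) (.e (nat_lit 172113) (nat_lit 10) (.e (nat_lit 434248) (nat_lit 28) (.e (nat_lit 573475) (nat_lit 12) (.e (nat_lit 57347) (nat_lit 0) (.e (nat_lit 7124) (nat_lit 382) (.e (nat_lit 1016) (nat_lit 81) .nil))))))))) (.g (nat_lit 4) .nil .nil))))) 
(.nd (nat_lit 4) (.nd (nat_lit 5) 
(.lf (nat_lit 57295) (.g (nat_lit 4214) (.e (nat_lit 1443) (nat_lit 108) (.e (nat_lit 336013) (nat_lit 2) (.e (nat_lit 90170) (nat_lit 13) (.e (nat_lit 172106) (nat_lit 10) (.e (nat_lit 434231) (nat_lit 23) (.e (nat_lit 532490) (nat_lit 0) (.e (nat_lit 1905) (nat_lit 129) (.e (nat_lit 598024) (nat_lit 5) .nil)))))))) (.g (nat_lit 5) .nil .nil))) 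
(.lf (nat_lit 57327) (.g (nat_lit 3135) (.e (nat_lit 1443) (nat_lit 108) (.e (nat_lit 336013) (nat_lit 2) (.e (nat_lit 90170) (nat_lit 13) (.e (nat_lit 172113) (nat_lit 10) .nil)))) .nil))) (.nd (nat_lit 5) 
(.lf (nat_lit 57311) (.g (nat_lit 3310) (.e (nat_lit 1443) (nat_lit 108) (.e (nat_lit 336013) (nat_lit 2) (.e (nat_lit 90170) (nat_lit 13) (.e (nat_lit 172106) (nat_lit 10) (.e (nat_lit 434231) (nat_lit 23) (.e (nat_lit 532500) (nat_lit 1) (.e (nat_lit 65280) (nat_lit 221) (.e (nat_lit 1006) (nat_lit 81) .nil)))))))) (.g (nat_lit 4) .nil .nil))) 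
(.lf (nat_lit 57343) (.g (nat_lit 3293) (.e (nat_lit 1443) (nat_lit 108) (.e (nat_lit 336028) (nat_lit 3) (.e (nat_lit 98373) (nat_lit 29) (.e (nat_lit 450588) (nat_lit 10) (.e (nat_lit 573475) (nat_lit 12) (.e (nat_lit 57347) (nat_lit 0) (.e (nat_lit 7124) (nat_lit 382) (.e (nat_lit 1016) (nat_lit 81) .nil)))))))) (.g (nat_lit 4) .nil .nil)))))))))

noncomputable def tv788 : DT := (.nd (nat_lit 0) (.nd (nat_lit 1) (.nd (nat_lit 2) (.nd (nat_lit 3) (.nd (nat_lit 4) (.nd (nat_lit 5) 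
(.lf (nat_lit 57344) (.g (nat_lit 2964) (.e (nat_lit 1443) (nat_lit 108) (.e (nat_lit 336028) (nat_lit 3) (.e (nat_lit 98373) (nat_lit 29) (.e (nat_lit 450588) (nat_lit 10) (.e (nat_lit 573475) (nat_lit 12) (.e (nat_lit 57347) (nat_lit 0) (.e (nat_lit 7125) (nat_lit 382) (.e (nat_lit 1016) (nat_lit 81) .nil)))))))) (.g (nat_lit 4) .nil .nil))) 
(.lf (nat_lit 57376) (.g (nat_lit 2341) (.e (nat_lit 1444) (nat_lit 108) (.e (nat_lit 336228) (nat_lit 14) (.e (nat_lit 401425) (nat_lit 2) (.e (nat_lit 196674) (nat_lit 15) (.e (nat_lit 81947) (nat_lit 20) .nil))))) .nil))) (.nd (nat_lit 5) 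
(.lf (nat_lit 57360) (.g (nat_lit 3922) (.e (nat_lit 1444) (nat_lit 108) (.e (nat_lit 336028) (nat_lit 3) (.e (nat_lit 98373) (nat_lit 29) (.e (nat_lit 450587) (nat_lit 10) (.e (nat_lit 573472) (nat_lit 12) .nil))))) .nil)) 
(.lf (nat_lit 57392) (.g (nat_lit 3135) (.e (nat_lit 1445) (nat_lit 108) (.e (nat_lit 336013) (nat_lit 2) (.e (nat_lit 90170) (nat_lit 13) (.e (nat_lit 172113) (nat_lit 10) .nil)))) .nil)))) (.nd (nat_lit 4) (.nd (nat_lit 5) 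
(.lf (nat_lit 57352) (.g (nat_lit 2658) (.e (nat_lit 1444) (nat_lit 108) (.e (nat_lit 336013) (nat_lit 2) (.e (nat_lit 90170) (nat_lit 13) (.e (nat_lit 172106) (nat_lit 10) (.e (nat_lit 434244) (nat_lit 28) (.e (nat_lit 573474) (nat_lit 12) (.e (nat_lit 57347) (nat_lit 0) (.e (nat_lit 7124) (nat_lit 382) (.e (nat_lit 1016) (nat_lit 81) .nil))))))))) (.g (nat_lit 4) .nil .nil))) 
(.lf (nat_lit 57384) (.g (nat_lit 4149) (.e (nat_lit 1445) (nat_lit 108) (.e (nat_lit 336013) (nat_lit 2) (.e (nat_lit 90170) (nat_lit 13) (.e (nat_lit 172106) (nat_lit 10) (.e (nat_lit 434231) (nat_lit 23) (.e (nat_lit 532490) (nat_lit 0) (.e (nat_lit 1905) (nat_lit 129) (.e (nat_lit 598022) (nat_lit 5) .nil)))))))) (.g (nat_lit 5) .nil .nil)))) (.nd (nat_lit 5) 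
(.lf (nat_lit 57368) (.g (nat_lit 916) (.e (nat_lit 1444) (nat_lit 108) (.e (nat_lit 336219) (nat_lit 13) (.e (nat_lit 393299) (nat_lit 27) (.e (nat_lit 491560) (nat_lit 10) .nil)))) .nil)) 
(.lf (nat_lit 57400) (.g (nat_lit 2663) (.e (nat_lit 1446) (nat_lit 108) (.e (nat_lit 336028) (nat_lit 3) (.e (nat_lit 98373) (nat_lit 29) (.e (nat_lit 450587) (nat_lit 10) (.e (nat_lit 573477) (nat_lit 12) .nil))))) .nil))))) (.nd (nat_lit 3) (.nd (nat_lit 4) (.nd (nat_lit 5) 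
(.lf (nat_lit 57348) (.g (nat_lit 1794) (.e (nat_lit 1443) (nat_lit 108) (.e (nat_lit 336177) (nat_lit 10) (.e (nat_lit 344117) (nat_lit 21) (.e (nat_lit 516106) (nat_lit 0) (.e (nat_lit 7936) (nat_lit 377) .nil))))) .nil)) 
(.lf (nat_lit 57380) (.g (nat_lit 3309) (.e (nat_lit 1445) (nat_lit 108) (.e (nat_lit 336013) (nat_lit 2) (.e (nat_lit 90170) (nat_lit 13) (.e (nat_lit 172106) (nat_lit 10) (.e (nat_lit 434231) (nat_lit 23) (.e (nat_lit 532481) (nat_lit 0) (.e (nat_lit 1905) (nat_lit 129) (.e (nat_lit 605952) (nat_lit 5) .nil)))))))) (.g (nat_lit 4) .nil .nil)))) (.nd (nat_lit 5) 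
(.lf (nat_lit 57364) (.g (nat_lit 2371) (.e (nat_lit 1444) (nat_lit 108) (.e (nat_lit 336083) (nat_lit 9) (.e (nat_lit 336369) (nat_lit 27) (.e (nat_lit 426173) (nat_lit 7) (.e (nat_lit 409649) (nat_lit 18) (.e (nat_lit 303111) (nat_lit 0) (.e (nat_lit 3468) (nat_lit 217) (.e (nat_lit 696350) (nat_lit 13) .nil)))))))) (.g (nat_lit 5) .nil .nil))) 
(.lf (nat_lit 57396) (.g (nat_lit 3630) (.e (nat_lit 1446) (nat_lit 108) (.e (nat_lit 336013) (nat_lit 2) (.e (nat_lit 90170) (nat_lit 13) (.e (nat_lit 172113) (nat_lit 10) (.e (nat_lit 434245) (nat_lit 28) .nil))))) .nil)))) (.nd (nat_lit 4) (.nd (nat_lit 5) 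
(.lf (nat_lit 57356) (.g (nat_lit 3484) (.e (nat_lit 1444) (nat_lit 108) (.e (nat_lit 336013) (nat_lit 2) (.e (nat_lit 90170) (nat_lit 13) (.e (nat_lit 172113) (nat_lit 10) (.e (nat_lit 434248) (nat_lit 28) .nil))))) .nil)) 
(.lf (nat_lit 57388) (.g (nat_lit 2922) (.e (nat_lit 1445) (nat_lit 108) (.e (nat_lit 336013) (nat_lit 2) (.e (nat_lit 90170) (nat_lit 13) (.e (nat_lit 172106) (nat_lit 10) (.e (nat_lit 434244) (nat_lit 28) .nil))))) .nil))) (.nd (nat_lit 5) 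
(.lf (nat_lit 57372) (.g (nat_lit 960) (.e (nat_lit 1444) (nat_lit 108) (.e (nat_lit 336224) (nat_lit 13) (.e (nat_lit 393301) (nat_lit 27) (.e (nat_lit 491560) (nat_lit 10) .nil)))) .nil)) 
(.lf (nat_lit 57404) (.g (nat_lit 3105) (.e (nat_lit 1446) (nat_lit 108) (.e (nat_lit 336099) (nat_lit 9) (.e (nat_lit 336013) (nat_lit 2) (.e (nat_lit 90129) (nat_lit 9) .nil)))) .nil)))))) (.nd (nat_lit 2) (.nd (nat_lit 3) (.nd (nat_lit 4) (.nd (nat_lit 5) 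
(.lf (nat_lit 57346) (.g (nat_lit 3311) (.e (nat_lit 1443) (nat_lit 108) (.e (nat_lit 336099) (nat_lit 9) (.e (nat_lit 336013) (nat_lit 2) (.e (nat_lit 90129) (nat_lit 9) (.e (nat_lit 2828) (nat_lit 182) .nil))))) .nil)) 
(.lf (nat_lit 57378) (.g (nat_lit 2414) (.e (nat_lit 1444) (nat_lit 108) (.e (nat_lit 336228) (nat_lit 14) (.e (nat_lit 401459) (nat_lit 13) (.e (nat_lit 483395) (nat_lit 24) (.e (nat_lit 344168) (nat_lit 40) .nil))))) .nil))) (.nd (nat_lit 5) 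
(.lf (nat_lit 57362) (.g (nat_lit 2592) (.e (nat_lit 1444) (nat_lit 108) (.e (nat_lit 336028) (nat_lit 3) (.e (nat_lit 98373) (nat_lit 29) (.e (nat_lit 450587) (nat_lit 10) (.e (nat_lit 573478) (nat_lit 12) .nil))))) .nil)) 
(.lf (nat_lit 57394) (.g (nat_lit 1859) (.e (nat_lit 1446) (nat_lit 108) (.e (nat_lit 336013) (nat_lit 2) (.e (nat_lit 90170) (nat_lit 13) (.e (nat_lit 172106) (nat_lit 10) (.e (nat_lit 434244) (nat_lit 28) .nil))))) .nil)))) (.nd (nat_lit 4) (.nd (nat_lit 5) 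
(.lf (nat_lit 57354) (.g (nat_lit 3475) (.e (nat_lit 1444) (nat_lit 108) (.e (nat_lit 336013) (nat_lit 2) (.e (nat_lit 90170) (nat_lit 13) (.e (nat_lit 172113) (nat_lit 10) (.e (nat_lit 434245) (nat_lit 28) .nil))))) .nil)) 
(.lf (nat_lit 57386) (.g (nat_lit 3325) (.e (nat_lit 1445) (nat_lit 108) (.e (nat_lit 336013) (nat_lit 2) (.e (nat_lit 90170) (nat_lit 13) (.e (nat_lit 172106) (nat_lit 10) (.e (nat_lit 434231) (nat_lit 23) (.e (nat_lit 532491) (nat_lit 0) (.e (nat_lit 1908) (nat_lit 129) (.e (nat_lit 598022) (nat_lit 5) .nil)))))))) (.g (nat_lit 4) .nil .nil)))) (.nd (nat_lit 5) 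
(.lf (nat_lit 57370) (.g (nat_lit 3590) (.e (nat_lit 1444) (nat_lit 108) (.e (nat_lit 336219) (nat_lit 13) (.e (nat_lit 393301) (nat_lit 27) (.e (nat_lit 491559) (nat_lit 10) (.e (nat_lit 344177) (nat_lit 43) (.e (nat_lit 770055) (nat_lit 5) .nil)))))) (.g (nat_lit 0) .nil .nil))) 
(.lf (nat_lit 57402) (.g (nat_lit 2826) (.e (nat_lit 1446) (nat_lit 108) (.e (nat_lit 336028) (nat_lit 3) (.e (nat_lit 98373) (nat_lit 29) (.e (nat_lit 450588) (nat_lit 10) (.e (nat_lit 573473) (nat_lit 12) .nil))))) .nil))))) (.nd (nat_lit 3) (.nd (nat_lit 4) (.nd (nat_lit 5) 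
(.lf (nat_lit 57350) (.g (nat_lit 4119) (.e (nat_lit 1444) (nat_lit 108) (.e (nat_lit 336013) (nat_lit 2) (.e (nat_lit 90170) (nat_lit 13) (.e (nat_lit 172106) (nat_lit 10) (.e (nat_lit 434243) (nat_lit 28) .nil))))) .nil)) 
(.lf (nat_lit 57382) (.g (nat_lit 3311) (.e (nat_lit 1445) (nat_lit 108) (.e (nat_lit 336013) (nat_lit 2) (.e (nat_lit 90170) (nat_lit 13) (.e (nat_lit 172106) (nat_lit 10) (.e (nat_lit 434231) (nat_lit 23) (.e (nat_lit 532483) (nat_lit 0) (.e (nat_lit 1905) (nat_lit 129) (.e (nat_lit 598022) (nat_lit 5) .nil)))))))) (.g (nat_lit 4) .nil .nil)))) (.nd (nat_lit 5) 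
(.lf (nat_lit 57366) (.g (nat_lit 4099) (.e (nat_lit 1444) (nat_lit 108) (.e (nat_lit 336099) (nat_lit 9) (.e (nat_lit 336013) (nat_lit 2) (.e (nat_lit 90134) (nat_lit 9) (.e (nat_lit 2828) (nat_lit 182) .nil))))) .nil)) 
(.lf (nat_lit 57398) (.g (nat_lit 3315) (.e (nat_lit 1446) (nat_lit 108) (.e (nat_lit 336024) (nat_lit 3) (.e (nat_lit 98373) (nat_lit 29) (.e (nat_lit 450587) (nat_lit 10) (.e (nat_lit 573475) (nat_lit 12) (.e (nat_lit 57572) (nat_lit 54) (.e (nat_lit 770056) (nat_lit 5) .nil))))))) (.g (nat_lit 4) .nil .nil))))) (.nd (nat_lit 4) (.nd (nat_lit 5) 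
(.lf (nat_lit 57358) (.g (nat_lit 1550) (.e (nat_lit 1444) (nat_lit 108) (.e (nat_lit 336028) (nat_lit 3) (.e (nat_lit 98372) (nat_lit 29) (.e (nat_lit 450586) (nat_lit 10) .nil)))) .nil)) 
(.lf (nat_lit 57390) (.g (nat_lit 3059) (.e (nat_lit 1445) (nat_lit 108) (.e (nat_lit 336013) (nat_lit 2) (.e (nat_lit 90170) (nat_lit 13) (.e (nat_lit 172106) (nat_lit 10) (.e (nat_lit 434244) (nat_lit 28) (.e (nat_lit 573474) (nat_lit 12) (.e (nat_lit 57356) (nat_lit 0) (.e (nat_lit 7147) (nat_lit 382) (.e (nat_lit 974) (nat_lit 81) .nil))))))))) (.g (nat_lit 4) .nil .nil)))) (.nd (nat_lit 5) 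
(.lf (nat_lit 57374) (.g (nat_lit 1087) (.e (nat_lit 1444) (nat_lit 108) (.e (nat_lit 336228) (nat_lit 14) (.e (nat_lit 401425) (nat_lit 2) (.e (nat_lit 196666) (nat_lit 13) .nil)))) .nil)) 
(.lf (nat_lit 57406) (.g (nat_lit 3130) (.e (nat_lit 1447) (nat_lit 108) (.e (nat_lit 336013) (nat_lit 2) (.e (nat_lit 90170) (nat_lit 13) (.e (nat_lit 172106) (nat_lit 10) (.e (nat_lit 434231) (nat_lit 23) .nil))))) .nil))))))) (.nd (nat_lit 1) (.nd (nat_lit 2) (.nd (nat_lit 3) (.nd (nat_lit 4) (.nd (nat_lit 5) 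
(.lf (nat_lit 57345) (.g (nat_lit 2204) (.e (nat_lit 1443) (nat_lit 108) (.e (nat_lit 336083) (nat_lit 9) (.e (nat_lit 336369) (nat_lit 27) (.e (nat_lit 426173) (nat_lit 7) (.e (nat_lit 409649) (nat_lit 18) (.e (nat_lit 303111) (nat_lit 0) (.e (nat_lit 3468) (nat_lit 217) (.e (nat_lit 696350) (nat_lit 13) .nil)))))))) (.g (nat_lit 4) .nil .nil))) 
(.lf (nat_lit 57377) (.g (nat_lit 1744) (.e (nat_lit 1444) (nat_lit 108) (.e (nat_lit 336228) (nat_lit 14) (.e (nat_lit 401456) (nat_lit 13) (.e (nat_lit 483395) (nat_lit 24) (.e (nat_lit 344168) (nat_lit 40) .nil))))) .nil))) (.nd (nat_lit 5) 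
(.lf (nat_lit 57361) (.g (nat_lit 2633) (.e (nat_lit 1444) (nat_lit 108) (.e (nat_lit 336028) (nat_lit 3) (.e (nat_lit 98373) (nat_lit 29) (.e (nat_lit 450587) (nat_lit 10) (.e (nat_lit 573477) (nat_lit 12) .nil))))) .nil)) 
(.lf (nat_lit 57393) (.g (nat_lit 1993) (.e (nat_lit 1445) (nat_lit 108) (.e (nat_lit 336083) (nat_lit 9) (.e (nat_lit 336369) (nat_lit 27) (.e (nat_lit 426173) (nat_lit 7) (.e (nat_lit 409649) (nat_lit 18) (.e (nat_lit 303111) (nat_lit 0) (.e (nat_lit 3468) (nat_lit 217) (.e (nat_lit 696349) (nat_lit 13) .nil)))))))) (.g (nat_lit 4) .nil .nil))))) (.nd (nat_lit 4) (.nd (nat_lit 5) 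
(.lf (nat_lit 57353) (.g (nat_lit 2685) (.e (nat_lit 1444) (nat_lit 108) (.e (nat_lit 336013) (nat_lit 2) (.e (nat_lit 90170) (nat_lit 13) (.e (nat_lit 172113) (nat_lit 10) .nil)))) .nil)) 
(.lf (nat_lit 57385) (.g (nat_lit 4022) (.e (nat_lit 1445) (nat_lit 108) (.e (nat_lit 336013) (nat_lit 2) (.e (nat_lit 90170) (nat_lit 13) (.e (nat_lit 172106) (nat_lit 10) (.e (nat_lit 434231) (nat_lit 23) (.e (nat_lit 532490) (nat_lit 0) (.e (nat_lit 1910) (nat_lit 129) (.e (nat_lit 598022) (nat_lit 5) .nil)))))))) (.g (nat_lit 5) .nil .nil)))) (.nd (nat_lit 5) 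
(.lf (nat_lit 57369) (.g (nat_lit 2242) (.e (nat_lit 1444) (nat_lit 108) (.e (nat_lit 336219) (nat_lit 13) (.e (nat_lit 393301) (nat_lit 27) (.e (nat_lit 491559) (nat_lit 10) (.e (nat_lit 344177) (nat_lit 43) .nil))))) .nil)) 
(.lf (nat_lit 57401) (.g (nat_lit 2623) (.e (nat_lit 1446) (nat_lit 108) (.e (nat_lit 336028) (nat_lit 3) (.e (nat_lit 98373) (nat_lit 29) (.e (nat_lit 450587) (nat_lit 10) (.e (nat_lit 573478) (nat_lit 12) .nil))))) .nil))))) (.nd (nat_lit 3) (.nd (nat_lit 4) (.nd (nat_lit 5) 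
(.lf (nat_lit 57349) (.g (nat_lit 2885) (.e (nat_lit 1444) (nat_lit 108) (.e (nat_lit 336013) (nat_lit 2) (.e (nat_lit 90170) (nat_lit 13) (.e (nat_lit 172106) (nat_lit 10) (.e (nat_lit 434231) (nat_lit 23) .nil))))) .nil)) 
(.lf (nat_lit 57381) (.g (nat_lit 3289) (.e (nat_lit 1445) (nat_lit 108) (.e (nat_lit 336013) (nat_lit 2) (.e (nat_lit 90170) (nat_lit 13) (.e (nat_lit 172106) (nat_lit 10) (.e (nat_lit 434231) (nat_lit 23) (.e (nat_lit 532481) (nat_lit 0) (.e (nat_lit 1912) (nat_lit 129) (.e (nat_lit 605952) (nat_lit 5) .nil)))))))) (.g (nat_lit 4) .nil .nil)))) (.nd (nat_lit 5) 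
(.lf (nat_lit 57365) (.g (nat_lit 3105) (.e (nat_lit 1444) (nat_lit 108) (.e (nat_lit 336099) (nat_lit 9) (.e (nat_lit 336013) (nat_lit 2) (.e (nat_lit 90129) (nat_lit 9) .nil)))) .nil)) 
(.lf (nat_lit 57397) (.g (nat_lit 3639) (.e (nat_lit 1446) (nat_lit 108) (.e (nat_lit 336013) (nat_lit 2) (.e (nat_lit 90170) (nat_lit 13) (.e (nat_lit 172113) (nat_lit 10) (.e (nat_lit 434248) (nat_lit 28) .nil))))) .nil)))) (.nd (nat_lit 4) (.nd (nat_lit 5) 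
(.lf (nat_lit 57357) (.g (nat_lit 3249) (.e (nat_lit 1444) (nat_lit 108) (.e (nat_lit 336024) (nat_lit 3) (.e (nat_lit 98373) (nat_lit 29) (.e (nat_lit 450587) (nat_lit 10) (.e (nat_lit 573475) (nat_lit 12) (.e (nat_lit 57572) (nat_lit 54) (.e (nat_lit 770056) (nat_lit 5) .nil))))))) (.g (nat_lit 4) .nil .nil))) 
(.lf (nat_lit 57389) (.g (nat_lit 4357) (.e (nat_lit 1445) (nat_lit 108) (.e (nat_lit 336013) (nat_lit 2) (.e (nat_lit 90170) (nat_lit 13) (.e (nat_lit 172106) (nat_lit 10) (.e (nat_lit 434244) (nat_lit 28) (.e (nat_lit 573474) (nat_lit 12) (.e (nat_lit 57354) (nat_lit 0) (.e (nat_lit 7147) (nat_lit 382) (.e (nat_lit 974) (nat_lit 81) .nil))))))))) (.g (nat_lit 5) .nil .nil)))) (.nd (nat_lit 5) 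
(.lf (nat_lit 57373) (.g (nat_lit 2019) (.e (nat_lit 1444) (nat_lit 108) (.e (nat_lit 336224) (nat_lit 13) (.e (nat_lit 393301) (nat_lit 27) (.e (nat_lit 491560) (nat_lit 10) (.e (nat_lit 344177) (nat_lit 43) .nil))))) .nil)) 
(.lf (nat_lit 57405) (.g (nat_lit 4099) (.e (nat_lit 1446) (nat_lit 108) (.e (nat_lit 336099) (nat_lit 9) (.e (nat_lit 336013) (nat_lit 2) (.e (nat_lit 90134) (nat_lit 9) (.e (nat_lit 2828) (nat_lit 182) .nil))))) .nil)))))) (.nd (nat_lit 2) (.nd (nat_lit 3) (.nd (nat_lit 4) (.nd (nat_lit 5) 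
(.lf (nat_lit 57347) (.g (nat_lit 4292) (.e (nat_lit 1443) (nat_lit 108) (.e (nat_lit 336099) (nat_lit 9) (.e (nat_lit 336013) (nat_lit 2) (.e (nat_lit 90134) (nat_lit 9) (.e (nat_lit 2822) (nat_lit 182) .nil))))) .nil)) 
(.lf (nat_lit 57379) (.g (nat_lit 3167) (.e (nat_lit 1445) (nat_lit 108) (.e (nat_lit 336013) (nat_lit 2) (.e (nat_lit 90170) (nat_lit 13) (.e (nat_lit 172106) (nat_lit 10) (.e (nat_lit 434231) (nat_lit 23) .nil))))) .nil))) (.nd (nat_lit 5) 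
(.lf (nat_lit 57363) (.g (nat_lit 2775) (.e (nat_lit 1444) (nat_lit 108) (.e (nat_lit 336028) (nat_lit 3) (.e (nat_lit 98373) (nat_lit 29) (.e (nat_lit 450588) (nat_lit 10) (.e (nat_lit 573475) (nat_lit 12) .nil))))) .nil)) 
(.lf (nat_lit 57395) (.g (nat_lit 2840) (.e (nat_lit 1446) (nat_lit 108) (.e (nat_lit 336013) (nat_lit 2) (.e (nat_lit 90170) (nat_lit 13) (.e (nat_lit 172113) (nat_lit 10) .nil)))) .nil)))) (.nd (nat_lit 4) (.nd (nat_lit 5) 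
(.lf (nat_lit 57355) (.g (nat_lit 3552) (.e (nat_lit 1444) (nat_lit 108) (.e (nat_lit 336013) (nat_lit 2) (.e (nat_lit 90170) (nat_lit 13) (.e (nat_lit 172113) (nat_lit 10) (.e (nat_lit 434247) (nat_lit 28) .nil))))) .nil)) 
(.lf (nat_lit 57387) (.g (nat_lit 3204) (.e (nat_lit 1445) (nat_lit 108) (.e (nat_lit 336013) (nat_lit 2) (.e (nat_lit 90170) (nat_lit 13) (.e (nat_lit 172106) (nat_lit 10) (.e (nat_lit 434231) (nat_lit 23) (.e (nat_lit 532499) (nat_lit 1) (.e (nat_lit 57766) (nat_lit 221) (.e (nat_lit 982) (nat_lit 81) .nil)))))))) (.g (nat_lit 4) .nil .nil)))) (.nd (nat_lit 5) 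
(.lf (nat_lit 57371) (.g (nat_lit 2671) (.e (nat_lit 1444) (nat_lit 108) (.e (nat_lit 336219) (nat_lit 13) (.e (nat_lit 393301) (nat_lit 27) (.e (nat_lit 491560) (nat_lit 10) (.e (nat_lit 344177) (nat_lit 43) .nil))))) .nil)) 
(.lf (nat_lit 57403) (.g (nat_lit 2827) (.e (nat_lit 1446) (nat_lit 108) (.e (nat_lit 336028) (nat_lit 3) (.e (nat_lit 98373) (nat_lit 29) (.e (nat_lit 450588) (nat_lit 10) (.e (nat_lit 573475) (nat_lit 12) .nil))))) .nil))))) (.nd (nat_lit 3) (.nd (nat_lit 4) (.nd (nat_lit 5) 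
(.lf (nat_lit 57351) (.g (nat_lit 2640) (.e (nat_lit 1444) (nat_lit 108) (.e (nat_lit 336013) (nat_lit 2) (.e (nat_lit 90170) (nat_lit 13) (.e (nat_lit 172106) (nat_lit 10) (.e (nat_lit 434244) (nat_lit 28) .nil))))) .nil)) 
(.lf (nat_lit 57383) (.g (nat_lit 5001) (.e (nat_lit 1445) (nat_lit 108) (.e (nat_lit 336013) (nat_lit 2) (.e (nat_lit 90170) (nat_lit 13) (.e (nat_lit 172106) (nat_lit 10) (.e (nat_lit 434231) (nat_lit 23) (.e (nat_lit 532483) (nat_lit 0) (.e (nat_lit 1912) (nat_lit 129) (.e (nat_lit 598022) (nat_lit 5) .nil)))))))) (.g (nat_lit 5) .nil .nil)))) (.nd (nat_lit 5) 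
(.lf (nat_lit 57367) (.g (nat_lit 2410) (.e (nat_lit 1444) (nat_lit 108) (.e (nat_lit 336212) (nat_lit 13) (.e (nat_lit 393301) (nat_lit 27) (.e (nat_lit 491559) (nat_lit 10) (.e (nat_lit 344177) (nat_lit 43) .nil))))) .nil)) 
(.lf (nat_lit 57399) (.g (nat_lit 3655) (.e (nat_lit 1446) (nat_lit 108) (.e (nat_lit 336024) (nat_lit 3) (.e (nat_lit 98373) (nat_lit 29) (.e (nat_lit 450587) (nat_lit 10) (.e (nat_lit 573475) (nat_lit 12) (.e (nat_lit 57572) (nat_lit 54) (.e (nat_lit 770057) (nat_lit 5) .nil))))))) (.g (nat_lit 6) .nil .nil))))) (.nd (nat_lit 4) (.nd (nat_lit 5) 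
(.lf (nat_lit 57359) (.g (nat_lit 3085) (.e (nat_lit 1444) (nat_lit 108) (.e (nat_lit 336028) (nat_lit 3) (.e (nat_lit 98373) (nat_lit 29) (.e (nat_lit 450585) (nat_lit 10) (.e (nat_lit 573474) (nat_lit 12) .nil))))) .nil)) 
(.lf (nat_lit 57391) (.g (nat_lit 3158) (.e (nat_lit 1445) (nat_lit 108) (.e (nat_lit 336013) (nat_lit 2) (.e (nat_lit 90170) (nat_lit 13) (.e (nat_lit 172106) (nat_lit 10) (.e (nat_lit 434244) (nat_lit 28) (.e (nat_lit 573474) (nat_lit 12) (.e (nat_lit 57570) (nat_lit 54) (.e (nat_lit 770054) (nat_lit 5) .nil)))))))) (.g (nat_lit 4) .nil .nil)))) (.nd (nat_lit 5) 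
(.lf (nat_lit 57375) (.g (nat_lit 1319) (.e (nat_lit 1444) (nat_lit 108) (.e (nat_lit 336228) (nat_lit 14) (.e (nat_lit 401425) (nat_lit 2) (.e (nat_lit 196670) (nat_lit 14) .nil)))) .nil)) 
(.lf (nat_lit 57407) (.g (nat_lit 6350) (.e (nat_lit 1447) (nat_lit 108) (.e (nat_lit 336013) (nat_lit 2) (.e (nat_lit 90170) (nat_lit 13) (.e (nat_lit 172106) (nat_lit 10) (.e (nat_lit 434231) (nat_lit 23) (.e (nat_lit 532481) (nat_lit 0) (.e (nat_lit 1912) (nat_lit 129) (.e (nat_lit 598022) (nat_lit 5) .nil)))))))) (.g (nat_lit 7) .nil .nil)))))))))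

noncomputable def tv789 : DT := (.nd (nat_lit 0) (.nd (nat_lit 1) (.nd (nat_lit 2) (.nd (nat_lit 3) (.nd (nat_lit 4) (.nd (nat_lit 5) 
(.lf (nat_lit 57408) (.g (nat_lit 3829) (.e (nat_lit 1447) (nat_lit 108) (.e (nat_lit 336013) (nat_lit 2) (.e (nat_lit 90170) (nat_lit 13) (.e (nat_lit 172106) (nat_lit 10) (.e (nat_lit 434231) (nat_lit 23) (.e (nat_lit 532490) (nat_lit 0) (.e (nat_lit 1909) (nat_lit 129) (.e (nat_lit 598023) (nat_lit 5) .nil)))))))) (.g (nat_lit 5) .nil .nil))) 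
(.lf (nat_lit 57440) (.g (nat_lit 4869) (.e (nat_lit 1448) (nat_lit 108) (.e (nat_lit 336013) (nat_lit 2) (.e (nat_lit 90170) (nat_lit 13) (.e (nat_lit 172106) (nat_lit 10) (.e (nat_lit 434231) (nat_lit 23) (.e (nat_lit 532481) (nat_lit 0) (.e (nat_lit 996) (nat_lit 81) (.e (nat_lit 4464) (nat_lit 263) (.e (nat_lit 1078) (nat_lit 81) .nil))))))))) (.g (nat_lit 6) .nil .nil)))) (.nd (nat_lit 5) 
(.lf (nat_lit 57424) (.g (nat_lit 2623) (.e (nat_lit 1447) (nat_lit 108) (.e (nat_lit 336028) (nat_lit 3) (.e (nat_lit 98373) (nat_lit 29) (.e (nat_lit 450587) (nat_lit 10) (.e (nat_lit 573478) (nat_lit 12) .nil))))) .nil)) 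
(.lf (nat_lit 57456) (.g (nat_lit 3499) (.e (nat_lit 1448) (nat_lit 108) (.e (nat_lit 336013) (nat_lit 2) (.e (nat_lit 90170) (nat_lit 13) (.e (nat_lit 172106) (nat_lit 10) (.e (nat_lit 434231) (nat_lit 23) (.e (nat_lit 532485) (nat_lit 0) (.e (nat_lit 1912) (nat_lit 129) (.e (nat_lit 605952) (nat_lit 5) .nil)))))))) (.g (nat_lit 5) .nil .nil))))) (.nd (nat_lit 4) (.nd (nat_lit 5) 
(.lf (nat_lit 57416) (.g (nat_lit 3986) (.e (nat_lit 1447) (nat_lit 108) (.e (nat_lit 336013) (nat_lit 2) (.e (nat_lit 90170) (nat_lit 13) (.e (nat_lit 172113) (nat_lit 10) (.e (nat_lit 434247) (nat_lit 28) .nil))))) .nil)) 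
(.lf (nat_lit 57448) (.g (nat_lit 3895) (.e (nat_lit 1448) (nat_lit 108) (.e (nat_lit 336013) (nat_lit 2) (.e (nat_lit 90170) (nat_lit 13) (.e (nat_lit 172106) (nat_lit 10) (.e (nat_lit 434231) (nat_lit 23) (.e (nat_lit 532483) (nat_lit 0) (.e (nat_lit 982) (nat_lit 81) (.e (nat_lit 4464) (nat_lit 263) (.e (nat_lit 1078) (nat_lit 81) .nil))))))))) (.g (nat_lit 5) .nil .nil)))) (.nd (nat_lit 5) 
(.lf (nat_lit 57432) (.g (nat_lit 2136) (.e (nat_lit 1447) (nat_lit 108) (.e (nat_lit 336193) (nat_lit 12) (.e (nat_lit 385105) (nat_lit 50) (.e (nat_lit 786481) (nat_lit 30) (.e (nat_lit 368384) (nat_lit 17) .nil))))) .nil)) 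
(.lf (nat_lit 57464) (.g (nat_lit 2598) (.e (nat_lit 1448) (nat_lit 108) (.e (nat_lit 336013) (nat_lit 2) (.e (nat_lit 90170) (nat_lit 13) (.e (nat_lit 172106) (nat_lit 10) (.e (nat_lit 434231) (nat_lit 23) (.e (nat_lit 532490) (nat_lit 0) (.e (nat_lit 1910) (nat_lit 129) (.e (nat_lit 605952) (nat_lit 5) .nil)))))))) (.g (nat_lit 5) .nil .nil)))))) 
(.nd (nat_lit 3) (.nd (nat_lit 4) (.nd (nat_lit 5) 
(.lf (nat_lit 57412) (.g (nat_lit 4732) (.e (nat_lit 1447) (nat_lit 108) (.e (nat_lit 336013) (nat_lit 2) (.e (nat_lit 90170) (nat_lit 13) (.e (nat_lit 172106) (nat_lit 10) (.e (nat_lit 434244) (nat_lit 28) (.e (nat_lit 573473) (nat_lit 12) (.e (nat_lit 57352) (nat_lit 0) (.e (nat_lit 7122) (nat_lit 382) (.e (nat_lit 1016) (nat_lit 81) .nil))))))))) (.g (nat_lit 5) .nil .nil))) 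
(.lf (nat_lit 57444) (.g (nat_lit 4366) (.e (nat_lit 1448) (nat_lit 108) (.e (nat_lit 336013) (nat_lit 2) (.e (nat_lit 90170) (nat_lit 13) (.e (nat_lit 172106) (nat_lit 10) (.e (nat_lit 434231) (nat_lit 23) (.e (nat_lit 532481) (nat_lit 0) (.e (nat_lit 1906) (nat_lit 129) (.e (nat_lit 598031) (nat_lit 5) .nil)))))))) (.g (nat_lit 5) .nil .nil)))) (.nd (nat_lit 5) 
(.lf (nat_lit 57428) (.g (nat_lit 3105) (.e (nat_lit 1447) (nat_lit 108) (.e (nat_lit 336099) (nat_lit 9) (.e (nat_lit 336013) (nat_lit 2) (.e (nat_lit 90129) (nat_lit 9) .nil)))) .nil)) 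
(.lf (nat_lit 57460) (.g (nat_lit 3082) (.e (nat_lit 1448) (nat_lit 108) (.e (nat_lit 336013) (nat_lit 2) (.e (nat_lit 90170) (nat_lit 13) (.e (nat_lit 172106) (nat_lit 10) (.e (nat_lit 434231) (nat_lit 23) (.e (nat_lit 532490) (nat_lit 0) (.e (nat_lit 1905) (nat_lit 129) (.e (nat_lit 598031) (nat_lit 5) .nil)))))))) (.g (nat_lit 5) .nil .nil))))) (.nd (nat_lit 4) (.nd (nat_lit 5) 
(.lf (nat_lit 57420) (.g (nat_lit 1550) (.e (nat_lit 1447) (nat_lit 108) (.e (nat_lit 336028) (nat_lit 3) (.e (nat_lit 98372) (nat_lit 29) (.e (nat_lit 450586) (nat_lit 10) .nil)))) .nil)) 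
(.lf (nat_lit 57452) (.g (nat_lit 4359) (.e (nat_lit 1448) (nat_lit 108) (.e (nat_lit 336013) (nat_lit 2) (.e (nat_lit 90170) (nat_lit 13) (.e (nat_lit 172106) (nat_lit 10) (.e (nat_lit 434231) (nat_lit 23) (.e (nat_lit 532483) (nat_lit 0) (.e (nat_lit 1030) (nat_lit 81) (.e (nat_lit 4506) (nat_lit 263) (.e (nat_lit 1079) (nat_lit 81) .nil))))))))) (.g (nat_lit 6) .nil .nil)))) (.nd (nat_lit 5) 
(.lf (nat_lit 57436) (.g (nat_lit 1907) (.e (nat_lit 1447) (nat_lit 108) (.e (nat_lit 336224) (nat_lit 13) (.e (nat_lit 393301) (nat_lit 27) (.e (nat_lit 491560) (nat_lit 10) (.e (nat_lit 344094) (nat_lit 18) .nil))))) .nil)) 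
(.lf (nat_lit 57468) (.g (nat_lit 4612) (.e (nat_lit 1448) (nat_lit 108) (.e (nat_lit 336013) (nat_lit 2) (.e (nat_lit 90170) (nat_lit 13) (.e (nat_lit 172106) (nat_lit 10) (.e (nat_lit 434231) (nat_lit 23) (.e (nat_lit 532500) (nat_lit 1) (.e (nat_lit 57766) (nat_lit 221) (.e (nat_lit 1074) (nat_lit 81) .nil)))))))) (.g (nat_lit 5) .nil .nil))))))) 
(.nd (nat_lit 2) (.nd (nat_lit 3) (.nd (nat_lit 4) (.nd (nat_lit 5) 
(.lf (nat_lit 57410) (.g (nat_lit 3135) (.e (nat_lit 1447) (nat_lit 108) (.e (nat_lit 336013) (nat_lit 2) (.e (nat_lit 90170) (nat_lit 13) (.e (nat_lit 172106) (nat_lit 10) (.e (nat_lit 434231) (nat_lit 23) (.e (nat_lit 532491) (nat_lit 0) (.e (nat_lit 1908) (nat_lit 129) (.e (nat_lit 598023) (nat_lit 5) .nil)))))))) (.g (nat_lit 4) .nil .nil))) 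
(.lf (nat_lit 57442) (.g (nat_lit 4035) (.e (nat_lit 1448) (nat_lit 108) (.e (nat_lit 336013) (nat_lit 2) (.e (nat_lit 90170) (nat_lit 13) (.e (nat_lit 172106) (nat_lit 10) (.e (nat_lit 434231) (nat_lit 23) (.e (nat_lit 532481) (nat_lit 0) (.e (nat_lit 1905) (nat_lit 129) (.e (nat_lit 598031) (nat_lit 5) .nil)))))))) (.g (nat_lit 5) .nil .nil)))) (.nd (nat_lit 5) 
(.lf (nat_lit 57426) (.g (nat_lit 2834) (.e (nat_lit 1447) (nat_lit 108) (.e (nat_lit 336028) (nat_lit 3) (.e (nat_lit 98373) (nat_lit 29) (.e (nat_lit 450588) (nat_lit 10) (.e (nat_lit 573473) (nat_lit 12) (.e (nat_lit 57348) (nat_lit 0) (.e (nat_lit 7122) (nat_lit 382) (.e (nat_lit 1016) (nat_lit 81) .nil)))))))) (.g (nat_lit 4) .nil .nil))) 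
(.lf (nat_lit 57458) (.g (nat_lit 3022) (.e (nat_lit 1448) (nat_lit 108) (.e (nat_lit 336013) (nat_lit 2) (.e (nat_lit 90170) (nat_lit 13) (.e (nat_lit 172106) (nat_lit 10) (.e (nat_lit 434231) (nat_lit 23) (.e (nat_lit 532490) (nat_lit 0) (.e (nat_lit 1040) (nat_lit 81) (.e (nat_lit 4506) (nat_lit 263) (.e (nat_lit 1079) (nat_lit 81) .nil))))))))) (.g (nat_lit 5) .nil .nil))))) 
(.nd (nat_lit 4) (.nd (nat_lit 5) 
(.lf (nat_lit 57418) (.g (nat_lit 3920) (.e (nat_lit 1447) (nat_lit 108) (.e (nat_lit 336013) (nat_lit 2) (.e (nat_lit 90170) (nat_lit 13) (.e (nat_lit 172113) (nat_lit 10) (.e (nat_lit 434248) (nat_lit 28) (.e (nat_lit 573473) (nat_lit 12) (.e (nat_lit 57353) (nat_lit 0) (.e (nat_lit 7124) (nat_lit 382) (.e (nat_lit 1016) (nat_lit 81) .nil))))))))) (.g (nat_lit 4) .nil .nil))) 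
(.lf (nat_lit 57450) (.g (nat_lit 3916) (.e (nat_lit 1448) (nat_lit 108) (.e (nat_lit 336013) (nat_lit 2) (.e (nat_lit 90170) (nat_lit 13) (.e (nat_lit 172106) (nat_lit 10) (.e (nat_lit 434231) (nat_lit 23) (.e (nat_lit 532483) (nat_lit 0) (.e (nat_lit 1030) (nat_lit 81) (.e (nat_lit 4506) (nat_lit 263) (.e (nat_lit 1074) (nat_lit 81) .nil))))))))) (.g (nat_lit 5) .nil .nil)))) (.nd (nat_lit 5) 
(.lf (nat_lit 57434) (.g (nat_lit 1978) (.e (nat_lit 1447) (nat_lit 108) (.e (nat_lit 336224) (nat_lit 13) (.e (nat_lit 393301) (nat_lit 27) (.e (nat_lit 491558) (nat_lit 10) (.e (nat_lit 344095) (nat_lit 18) .nil))))) .nil)) 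
(.lf (nat_lit 57466) (.g (nat_lit 4117) (.e (nat_lit 1448) (nat_lit 108) (.e (nat_lit 336013) (nat_lit 2) (.e (nat_lit 90170) (nat_lit 13) (.e (nat_lit 172106) (nat_lit 10) (.e (nat_lit 434231) (nat_lit 23) (.e (nat_lit 532499) (nat_lit 1) (.e (nat_lit 57765) (nat_lit 221) (.e (nat_lit 1078) (nat_lit 81) .nil)))))))) (.g (nat_lit 5) .nil .nil)))))) 
(.nd (nat_lit 3) (.nd (nat_lit 4) (.nd (nat_lit 5) 
(.lf (nat_lit 57414) (.g (nat_lit 3909) (.e (nat_lit 1447) (nat_lit 108) (.e (nat_lit 336013) (nat_lit 2) (.e (nat_lit 90170) (nat_lit 13) (.e (nat_lit 172113) (nat_lit 10) (.e (nat_lit 434245) (nat_lit 28) .nil))))) .nil)) 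
(.lf (nat_lit 57446) (.g (nat_lit 4077) (.e (nat_lit 1448) (nat_lit 108) (.e (nat_lit 336013) (nat_lit 2) (.e (nat_lit 90170) (nat_lit 13) (.e (nat_lit 172106) (nat_lit 10) (.e (nat_lit 434231) (nat_lit 23) (.e (nat_lit 532481) (nat_lit 0) (.e (nat_lit 1912) (nat_lit 129) (.e (nat_lit 598031) (nat_lit 5) .nil)))))))) (.g (nat_lit 5) .nil .nil)))) (.nd (nat_lit 5) 
(.lf (nat_lit 57430) (.g (nat_lit 1313) (.e (nat_lit 1447) (nat_lit 108) (.e (nat_lit 336173) (nat_lit 10) (.e (nat_lit 344168) (nat_lit 40) (.e (nat_lit 671764) (nat_lit 6) (.e (nat_lit 81931) (nat_lit 20) (.e (nat_lit 1998) (nat_lit 137) (.e (nat_lit 663554) (nat_lit 0) .nil))))))) (.g (nat_lit 4) .nil .nil))) 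
(.lf (nat_lit 57462) (.g (nat_lit 4024) (.e (nat_lit 1448) (nat_lit 108) (.e (nat_lit 336013) (nat_lit 2) (.e (nat_lit 90170) (nat_lit 13) (.e (nat_lit 172106) (nat_lit 10) (.e (nat_lit 434231) (nat_lit 23) (.e (nat_lit 532490) (nat_lit 0) (.e (nat_lit 1908) (nat_lit 129) (.e (nat_lit 605952) (nat_lit 5) .nil)))))))) (.g (nat_lit 6) .nil .nil))))) (.nd (nat_lit 4) (.nd (nat_lit 5) 
(.lf (nat_lit 57422) (.g (nat_lit 2136) (.e (nat_lit 1447) (nat_lit 108) (.e (nat_lit 336028) (nat_lit 3) (.e (nat_lit 98372) (nat_lit 29) (.e (nat_lit 450586) (nat_lit 10) (.e (nat_lit 573475) (nat_lit 12) .nil))))) .nil)) 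
(.lf (nat_lit 57454) (.g (nat_lit 3584) (.e (nat_lit 1448) (nat_lit 108) (.e (nat_lit 336013) (nat_lit 2) (.e (nat_lit 90170) (nat_lit 13) (.e (nat_lit 172106) (nat_lit 10) (.e (nat_lit 434231) (nat_lit 23) (.e (nat_lit 532483) (nat_lit 0) (.e (nat_lit 1905) (nat_lit 129) (.e (nat_lit 605952) (nat_lit 5) .nil)))))))) (.g (nat_lit 5) .nil .nil)))) (.nd (nat_lit 5) 
(.lf (nat_lit 57438) (.g (nat_lit 2433) (.e (nat_lit 1448) (nat_lit 108) (.e (nat_lit 336013) (nat_lit 2) (.e (nat_lit 90165) (nat_lit 12) (.e (nat_lit 164210) (nat_lit 176) .nil)))) .nil)) 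
(.lf (nat_lit 57470) (.g (nat_lit 1961) (.e (nat_lit 1448) (nat_lit 108) (.e (nat_lit 336013) (nat_lit 2) (.e (nat_lit 90170) (nat_lit 13) (.e (nat_lit 172106) (nat_lit 10) (.e (nat_lit 434244) (nat_lit 28) (.e (nat_lit 573451) (nat_lit 9) (.e (nat_lit 1030) (nat_lit 81) (.e (nat_lit 2270) (nat_lit 149) (.e (nat_lit 761867) (nat_lit 5) .nil))))))))) (.g (nat_lit 4) .nil .nil)))))))) 
(.nd (nat_lit 1) (.nd (nat_lit 2) (.nd (nat_lit 3) (.nd (nat_lit 4) (.nd (nat_lit 5) 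
(.lf (nat_lit 57409) (.g (nat_lit 3143) (.e (nat_lit 1447) (nat_lit 108) (.e (nat_lit 336013) (nat_lit 2) (.e (nat_lit 90170) (nat_lit 13) (.e (nat_lit 172106) (nat_lit 10) (.e (nat_lit 434231) (nat_lit 23) (.e (nat_lit 532491) (nat_lit 0) (.e (nat_lit 1907) (nat_lit 129) (.e (nat_lit 598024) (nat_lit 5) .nil)))))))) (.g (nat_lit 4) .nil .nil))) 
(.lf (nat_lit 57441) (.g (nat_lit 3948) (.e (nat_lit 1448) (nat_lit 108) (.e (nat_lit 336013) (nat_lit 2) (.e (nat_lit 90170) (nat_lit 13) (.e (nat_lit 172106) (nat_lit 10) (.e (nat_lit 434231) (nat_lit 23) (.e (nat_lit 532481) (nat_lit 0) (.e (nat_lit 996) (nat_lit 81) (.e (nat_lit 4464) (nat_lit 263) (.e (nat_lit 1079) (nat_lit 81) .nil))))))))) (.g (nat_lit 5) .nil .nil)))) (.nd (nat_lit 5) 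
(.lf (nat_lit 57425) (.g (nat_lit 2826) (.e (nat_lit 1447) (nat_lit 108) (.e (nat_lit 336028) (nat_lit 3) (.e (nat_lit 98373) (nat_lit 29) (.e (nat_lit 450588) (nat_lit 10) (.e (nat_lit 573473) (nat_lit 12) .nil))))) .nil)) 
(.lf (nat_lit 57457) (.g (nat_lit 2579) (.e (nat_lit 1448) (nat_lit 108) (.e (nat_lit 336013) (nat_lit 2) (.e (nat_lit 90170) (nat_lit 13) (.e (nat_lit 172106) (nat_lit 10) (.e (nat_lit 434231) (nat_lit 23) (.e (nat_lit 532490) (nat_lit 0) (.e (nat_lit 1040) (nat_lit 81) (.e (nat_lit 4506) (nat_lit 263) (.e (nat_lit 1074) (nat_lit 81) .nil))))))))) (.g (nat_lit 5) .nil .nil))))) 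
(.nd (nat_lit 4) (.nd (nat_lit 5) 
(.lf (nat_lit 57417) (.g (nat_lit 3918) (.e (nat_lit 1447) (nat_lit 108) (.e (nat_lit 336013) (nat_lit 2) (.e (nat_lit 90170) (nat_lit 13) (.e (nat_lit 172113) (nat_lit 10) (.e (nat_lit 434248) (nat_lit 28) .nil))))) .nil)) 
(.lf (nat_lit 57449) (.g (nat_lit 3574) (.e (nat_lit 1448) (nat_lit 108) (.e (nat_lit 336013) (nat_lit 2) (.e (nat_lit 90170) (nat_lit 13) (.e (nat_lit 172106) (nat_lit 10) (.e (nat_lit 434231) (nat_lit 23) (.e (nat_lit 532483) (nat_lit 0) (.e (nat_lit 996) (nat_lit 81) (.e (nat_lit 4460) (nat_lit 263) (.e (nat_lit 1079) (nat_lit 81) .nil))))))))) (.g (nat_lit 5) .nil .nil)))) (.nd (nat_lit 5) 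
(.lf (nat_lit 57433) (.g (nat_lit 1466) (.e (nat_lit 1447) (nat_lit 108) (.e (nat_lit 336224) (nat_lit 13) (.e (nat_lit 393234) (nat_lit 17) (.e (nat_lit 7593) (nat_lit 407) (.e (nat_lit 73729) (nat_lit 0) .nil))))) .nil)) 
(.lf (nat_lit 57465) (.g (nat_lit 4955) (.e (nat_lit 1448) (nat_lit 108) (.e (nat_lit 336013) (nat_lit 2) (.e (nat_lit 90170) (nat_lit 13) (.e (nat_lit 172106) (nat_lit 10) (.e (nat_lit 434231) (nat_lit 23) (.e (nat_lit 532499) (nat_lit 1) (.e (nat_lit 57765) (nat_lit 221) (.e (nat_lit 1074) (nat_lit 81) .nil)))))))) (.g (nat_lit 6) .nil .nil)))))) 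
(.nd (nat_lit 3) (.nd (nat_lit 4) (.nd (nat_lit 5) 
(.lf (nat_lit 57413) (.g (nat_lit 3769) (.e (nat_lit 1447) (nat_lit 108) (.e (nat_lit 336013) (nat_lit 2) (.e (nat_lit 90170) (nat_lit 13) (.e (nat_lit 172113) (nat_lit 10) (.e (nat_lit 434242) (nat_lit 28) .nil))))) .nil)) 
(.lf (nat_lit 57445) (.g (nat_lit 5028) (.e (nat_lit 1448) (nat_lit 108) (.e (nat_lit 336013) (nat_lit 2) (.e (nat_lit 90170) (nat_lit 13) (.e (nat_lit 172106) (nat_lit 10) (.e (nat_lit 434231) (nat_lit 23) (.e (nat_lit 532481) (nat_lit 0) (.e (nat_lit 1911) (nat_lit 129) (.e (nat_lit 598031) (nat_lit 5) .nil)))))))) (.g (nat_lit 6) .nil .nil)))) (.nd (nat_lit 5) 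
(.lf (nat_lit 57429) (.g (nat_lit 4099) (.e (nat_lit 1447) (nat_lit 108) (.e (nat_lit 336099) (nat_lit 9) (.e (nat_lit 336013) (nat_lit 2) (.e (nat_lit 90134) (nat_lit 9) (.e (nat_lit 2828) (nat_lit 182) .nil))))) .nil)) 
(.lf (nat_lit 57461) (.g (nat_lit 4422) (.e (nat_lit 1448) (nat_lit 108) (.e (nat_lit 336013) (nat_lit 2) (.e (nat_lit 90170) (nat_lit 13) (.e (nat_lit 172106) (nat_lit 10) (.e (nat_lit 434231) (nat_lit 23) (.e (nat_lit 532490) (nat_lit 0) (.e (nat_lit 1905) (nat_lit 129) (.e (nat_lit 605952) (nat_lit 5) .nil)))))))) (.g (nat_lit 6) .nil .nil))))) (.nd (nat_lit 4) (.nd (nat_lit 5) 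
(.lf (nat_lit 57421) (.g (nat_lit 2004) (.e (nat_lit 1447) (nat_lit 108) (.e (nat_lit 336028) (nat_lit 3) (.e (nat_lit 98372) (nat_lit 29) (.e (nat_lit 450586) (nat_lit 10) (.e (nat_lit 573473) (nat_lit 12) .nil))))) .nil)) 
(.lf (nat_lit 57453) (.g (nat_lit 3659) (.e (nat_lit 1448) (nat_lit 108) (.e (nat_lit 336013) (nat_lit 2) (.e (nat_lit 90170) (nat_lit 13) (.e (nat_lit 172106) (nat_lit 10) (.e (nat_lit 434231) (nat_lit 23) (.e (nat_lit 532483) (nat_lit 0) (.e (nat_lit 1036) (nat_lit 81) (.e (nat_lit 4506) (nat_lit 263) (.e (nat_lit 1079) (nat_lit 81) .nil))))))))) (.g (nat_lit 5) .nil .nil)))) (.nd (nat_lit 5) 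
(.lf (nat_lit 57437) (.g (nat_lit 847) (.e (nat_lit 1448) (nat_lit 108) (.e (nat_lit 336013) (nat_lit 2) (.e (nat_lit 90165) (nat_lit 12) .nil))) .nil)) 
(.lf (nat_lit 57469) (.g (nat_lit 3440) (.e (nat_lit 1448) (nat_lit 108) (.e (nat_lit 336013) (nat_lit 2) (.e (nat_lit 90170) (nat_lit 13) (.e (nat_lit 172106) (nat_lit 10) (.e (nat_lit 434244) (nat_lit 28) (.e (nat_lit 573451) (nat_lit 9) (.e (nat_lit 982) (nat_lit 81) (.e (nat_lit 2270) (nat_lit 149) (.e (nat_lit 761868) (nat_lit 5) .nil))))))))) (.g (nat_lit 6) .nil .nil))))))) 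
(.nd (nat_lit 2) (.nd (nat_lit 3) (.nd (nat_lit 4) (.nd (nat_lit 5) 
(.lf (nat_lit 57411) (.g (nat_lit 2885) (.e (nat_lit 1447) (nat_lit 108) (.e (nat_lit 336013) (nat_lit 2) (.e (nat_lit 90170) (nat_lit 13) (.e (nat_lit 172106) (nat_lit 10) (.e (nat_lit 434244) (nat_lit 28) .nil))))) .nil)) 
(.lf (nat_lit 57443) (.g (nat_lit 5363) (.e (nat_lit 1448) (nat_lit 108) (.e (nat_lit 336013) (nat_lit 2) (.e (nat_lit 90170) (nat_lit 13) (.e (nat_lit 172106) (nat_lit 10) (.e (nat_lit 434231) (nat_lit 23) (.e (nat_lit 532481) (nat_lit 0) (.e (nat_lit 1905) (nat_lit 129) (.e (nat_lit 605952) (nat_lit 5) .nil)))))))) (.g (nat_lit 7) .nil .nil)))) (.nd (nat_lit 5) 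
(.lf (nat_lit 57427) (.g (nat_lit 2827) (.e (nat_lit 1447) (nat_lit 108) (.e (nat_lit 336028) (nat_lit 3) (.e (nat_lit 98373) (nat_lit 29) (.e (nat_lit 450588) (nat_lit 10) (.e (nat_lit 573475) (nat_lit 12) .nil))))) .nil)) 
(.lf (nat_lit 57459) (.g (nat_lit 2083) (.e (nat_lit 1448) (nat_lit 108) (.e (nat_lit 336013) (nat_lit 2) (.e (nat_lit 90170) (nat_lit 13) (.e (nat_lit 172106) (nat_lit 10) (.e (nat_lit 434231) (nat_lit 23) (.e (nat_lit 532490) (nat_lit 0) (.e (nat_lit 1040) (nat_lit 81) (.e (nat_lit 4511) (nat_lit 263) (.e (nat_lit 1074) (nat_lit 81) .nil))))))))) (.g (nat_lit 4) .nil .nil))))) 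
(.nd (nat_lit 4) (.nd (nat_lit 5) 
(.lf (nat_lit 57419) (.g (nat_lit 4323) (.e (nat_lit 1447) (nat_lit 108) (.e (nat_lit 336023) (nat_lit 3) (.e (nat_lit 98373) (nat_lit 29) (.e (nat_lit 450587) (nat_lit 10) (.e (nat_lit 573475) (nat_lit 12) .nil))))) .nil)) 
(.lf (nat_lit 57451) (.g (nat_lit 3788) (.e (nat_lit 1448) (nat_lit 108) (.e (nat_lit 336013) (nat_lit 2) (.e (nat_lit 90170) (nat_lit 13) (.e (nat_lit 172106) (nat_lit 10) (.e (nat_lit 434231) (nat_lit 23) (.e (nat_lit 532483) (nat_lit 0) (.e (nat_lit 1030) (nat_lit 81) (.e (nat_lit 4506) (nat_lit 263) (.e (nat_lit 1078) (nat_lit 81) .nil))))))))) (.g (nat_lit 5) .nil .nil)))) (.nd (nat_lit 5) 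
(.lf (nat_lit 57435) (.g (nat_lit 957) (.e (nat_lit 1447) (nat_lit 108) (.e (nat_lit 336224) (nat_lit 13) (.e (nat_lit 393301) (nat_lit 27) (.e (nat_lit 491560) (nat_lit 10) .nil)))) .nil)) 
(.lf (nat_lit 57467) (.g (nat_lit 5041) (.e (nat_lit 1448) (nat_lit 108) (.e (nat_lit 336013) (nat_lit 2) (.e (nat_lit 90170) (nat_lit 13) (.e (nat_lit 172106) (nat_lit 10) (.e (nat_lit 434231) (nat_lit 23) (.e (nat_lit 532500) (nat_lit 1) (.e (nat_lit 57765) (nat_lit 221) (.e (nat_lit 1079) (nat_lit 81) .nil)))))))) (.g (nat_lit 6) .nil .nil)))))) 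
(.nd (nat_lit 3) (.nd (nat_lit 4) (.nd (nat_lit 5) 
(.lf (nat_lit 57415) (.g (nat_lit 3914) (.e (nat_lit 1447) (nat_lit 108) (.e (nat_lit 336013) (nat_lit 2) (.e (nat_lit 90170) (nat_lit 13) (.e (nat_lit 172113) (nat_lit 10) (.e (nat_lit 434245) (nat_lit 28) (.e (nat_lit 573473) (nat_lit 12) (.e (nat_lit 57352) (nat_lit 0) (.e (nat_lit 7122) (nat_lit 382) (.e (nat_lit 1016) (nat_lit 81) .nil))))))))) (.g (nat_lit 4) .nil .nil))) 
(.lf (nat_lit 57447) (.g (nat_lit 5348) (.e (nat_lit 1448) (nat_lit 108) (.e (nat_lit 336013) (nat_lit 2) (.e (nat_lit 90170) (nat_lit 13) (.e (nat_lit 172106) (nat_lit 10) (.e (nat_lit 434231) (nat_lit 23) (.e (nat_lit 532481) (nat_lit 0) (.e (nat_lit 1912) (nat_lit 129) (.e (nat_lit 605952) (nat_lit 5) .nil)))))))) (.g (nat_lit 6) .nil .nil)))) (.nd (nat_lit 5) 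
(.lf (nat_lit 57431) (.g (nat_lit 1430) (.e (nat_lit 1447) (nat_lit 108) (.e (nat_lit 336173) (nat_lit 10) (.e (nat_lit 344168) (nat_lit 40) (.e (nat_lit 671764) (nat_lit 6) (.e (nat_lit 81935) (nat_lit 20) (.e (nat_lit 1998) (nat_lit 137) (.e (nat_lit 663554) (nat_lit 0) .nil))))))) (.g (nat_lit 4) .nil .nil))) 
(.lf (nat_lit 57463) (.g (nat_lit 2648) (.e (nat_lit 1448) (nat_lit 108) (.e (nat_lit 336013) (nat_lit 2) (.e (nat_lit 90170) (nat_lit 13) (.e (nat_lit 172106) (nat_lit 10) (.e (nat_lit 434231) (nat_lit 23) (.e (nat_lit 532490) (nat_lit 0) (.e (nat_lit 1910) (nat_lit 129) (.e (nat_lit 598031) (nat_lit 5) .nil)))))))) (.g (nat_lit 5) .nil .nil))))) (.nd (nat_lit 4) (.nd (nat_lit 5) 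
(.lf (nat_lit 57423) (.g (nat_lit 2663) (.e (nat_lit 1447) (nat_lit 108) (.e (nat_lit 336028) (nat_lit 3) (.e (nat_lit 98373) (nat_lit 29) (.e (nat_lit 450587) (nat_lit 10) (.e (nat_lit 573477) (nat_lit 12) .nil))))) .nil)) 
(.lf (nat_lit 57455) (.g (nat_lit 4383) (.e (nat_lit 1448) (nat_lit 108) (.e (nat_lit 336013) (nat_lit 2) (.e (nat_lit 90170) (nat_lit 13) (.e (nat_lit 172106) (nat_lit 10) (.e (nat_lit 434231) (nat_lit 23) (.e (nat_lit 532483) (nat_lit 0) (.e (nat_lit 1912) (nat_lit 129) (.e (nat_lit 605952) (nat_lit 5) .nil)))))))) (.g (nat_lit 7) .nil .nil)))) (.nd (nat_lit 5) 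
(.lf (nat_lit 57439) (.g (nat_lit 2318) (.e (nat_lit 1448) (nat_lit 108) (.e (nat_lit 336013) (nat_lit 2) (.e (nat_lit 90165) (nat_lit 12) (.e (nat_lit 171776) (nat_lit 192) .nil)))) .nil)) 
(.lf (nat_lit 57471) (.g (nat_lit 2856) (.e (nat_lit 1448) (nat_lit 108) (.e (nat_lit 336013) (nat_lit 2) (.e (nat_lit 90170) (nat_lit 13) (.e (nat_lit 172106) (nat_lit 10) (.e (nat_lit 434244) (nat_lit 28) (.e (nat_lit 573458) (nat_lit 9) (.e (nat_lit 1180) (nat_lit 87) (.e (nat_lit 57666) (nat_lit 152) (.e (nat_lit 1077) (nat_lit 81) .nil))))))))) (.g (nat_lit 6) .nil .nil)))))))))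

noncomputable def tv790 : DT := (.nd (nat_lit 0) (.nd (nat_lit 1) (.nd (nat_lit 2) (.nd (nat_lit 3) (.nd (nat_lit 4) (.nd (nat_lit 5) 
(.lf (nat_lit 57472) (.g (nat_lit 5584) (.e (nat_lit 1448) (nat_lit 108) (.e (nat_lit 336013) (nat_lit 2) (.e (nat_lit 90170) (nat_lit 13) (.e (nat_lit 172106) (nat_lit 10) (.e (nat_lit 434244) (nat_lit 28) (.e (nat_lit 573473) (nat_lit 12) (.e (nat_lit 57569) (nat_lit 53) (.e (nat_lit 761866) (nat_lit 5) .nil)))))))) (.g (nat_lit 8) .nil .nil))) 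
(.lf (nat_lit 57504) (.g (nat_lit 4684) (.e (nat_lit 1448) (nat_lit 108) (.e (nat_lit 336013) (nat_lit 2) (.e (nat_lit 90170) (nat_lit 13) (.e (nat_lit 172113) (nat_lit 10) (.e (nat_lit 434245) (nat_lit 28) (.e (nat_lit 573474) (nat_lit 12) (.e (nat_lit 57569) (nat_lit 53) (.e (nat_lit 761868) (nat_lit 5) .nil)))))))) (.g (nat_lit 6) .nil .nil)))) (.nd (nat_lit 5) 
(.lf (nat_lit 57488) (.g (nat_lit 4985) (.e (nat_lit 1448) (nat_lit 108) (.e (nat_lit 336013) (nat_lit 2) (.e (nat_lit 90170) (nat_lit 13) (.e (nat_lit 172113) (nat_lit 10) (.e (nat_lit 434242) (nat_lit 28) (.e (nat_lit 573474) (nat_lit 12) (.e (nat_lit 57569) (nat_lit 53) (.e (nat_lit 761866) (nat_lit 5) .nil)))))))) (.g (nat_lit 7) .nil .nil))) 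
(.lf (nat_lit 57520) (.g (nat_lit 5181) (.e (nat_lit 1448) (nat_lit 108) (.e (nat_lit 336013) (nat_lit 2) (.e (nat_lit 90170) (nat_lit 13) (.e (nat_lit 172113) (nat_lit 10) (.e (nat_lit 434248) (nat_lit 28) (.e (nat_lit 573473) (nat_lit 12) (.e (nat_lit 57569) (nat_lit 53) (.e (nat_lit 761869) (nat_lit 5) .nil)))))))) (.g (nat_lit 8) .nil .nil))))) (.nd (nat_lit 4) (.nd (nat_lit 5) 
(.lf (nat_lit 57480) (.g (nat_lit 5043) (.e (nat_lit 1448) (nat_lit 108) (.e (nat_lit 336013) (nat_lit 2) (.e (nat_lit 90170) (nat_lit 13) (.e (nat_lit 172106) (nat_lit 10) (.e (nat_lit 434244) (nat_lit 28) (.e (nat_lit 573474) (nat_lit 12) (.e (nat_lit 57569) (nat_lit 53) (.e (nat_lit 761867) (nat_lit 5) .nil)))))))) (.g (nat_lit 6) .nil .nil))) 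
(.lf (nat_lit 57512) (.g (nat_lit 4126) (.e (nat_lit 1448) (nat_lit 108) (.e (nat_lit 336013) (nat_lit 2) (.e (nat_lit 90170) (nat_lit 13) (.e (nat_lit 172113) (nat_lit 10) (.e (nat_lit 434247) (nat_lit 28) (.e (nat_lit 573478) (nat_lit 12) (.e (nat_lit 57568) (nat_lit 53) (.e (nat_lit 761866) (nat_lit 5) .nil)))))))) (.g (nat_lit 7) .nil .nil)))) (.nd (nat_lit 5) 
(.lf (nat_lit 57496) (.g (nat_lit 5094) (.e (nat_lit 1448) (nat_lit 108) (.e (nat_lit 336013) (nat_lit 2) (.e (nat_lit 90170) (nat_lit 13) (.e (nat_lit 172113) (nat_lit 10) (.e (nat_lit 434245) (nat_lit 28) (.e (nat_lit 573473) (nat_lit 12) (.e (nat_lit 57569) (nat_lit 53) (.e (nat_lit 761869) (nat_lit 5) .nil)))))))) (.g (nat_lit 8) .nil .nil))) 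
(.lf (nat_lit 57528) (.g (nat_lit 4949) (.e (nat_lit 1448) (nat_lit 108) (.e (nat_lit 336013) (nat_lit 2) (.e (nat_lit 90170) (nat_lit 13) (.e (nat_lit 172113) (nat_lit 10) (.e (nat_lit 434248) (nat_lit 28) (.e (nat_lit 573475) (nat_lit 12) (.e (nat_lit 57569) (nat_lit 53) (.e (nat_lit 761867) (nat_lit 5) .nil)))))))) (.g (nat_lit 7) .nil .nil)))))) 
(.nd (nat_lit 3) (.nd (nat_lit 4) (.nd (nat_lit 5) 
(.lf (nat_lit 57476) (.g (nat_lit 4899) (.e (nat_lit 1448) (nat_lit 108) (.e (nat_lit 336013) (nat_lit 2) (.e (nat_lit 90170) (nat_lit 13) (.e (nat_lit 172106) (nat_lit 10) (.e (nat_lit 434244) (nat_lit 28) (.e (nat_lit 573474) (nat_lit 12) (.e (nat_lit 57568) (nat_lit 53) (.e (nat_lit 761867) (nat_lit 5) .nil)))))))) (.g (nat_lit 0) .nil .nil))) 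
(.lf (nat_lit 57508) (.g (nat_lit 3028) (.e (nat_lit 1448) (nat_lit 108) (.e (nat_lit 336013) (nat_lit 2) (.e (nat_lit 90170) (nat_lit 13) (.e (nat_lit 172113) (nat_lit 10) (.e (nat_lit 434247) (nat_lit 28) (.e (nat_lit 573473) (nat_lit 12) (.e (nat_lit 57569) (nat_lit 53) (.e (nat_lit 761869) (nat_lit 5) .nil)))))))) (.g (nat_lit 4) .nil .nil)))) (.nd (nat_lit 5) 
(.lf (nat_lit 57492) (.g (nat_lit 2408) (.e (nat_lit 1448) (nat_lit 108) (.e (nat_lit 336013) (nat_lit 2) (.e (nat_lit 90170) (nat_lit 13) (.e (nat_lit 172113) (nat_lit 10) (.e (nat_lit 434245) (nat_lit 28) .nil))))) .nil)) 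
(.lf (nat_lit 57524) (.g (nat_lit 3832) (.e (nat_lit 1448) (nat_lit 108) (.e (nat_lit 336013) (nat_lit 2) (.e (nat_lit 90170) (nat_lit 13) (.e (nat_lit 172113) (nat_lit 10) (.e (nat_lit 434248) (nat_lit 28) (.e (nat_lit 573475) (nat_lit 12) (.e (nat_lit 57568) (nat_lit 53) (.e (nat_lit 761868) (nat_lit 5) .nil)))))))) (.g (nat_lit 5) .nil .nil))))) (.nd (nat_lit 4) (.nd (nat_lit 5) 
(.lf (nat_lit 57484) (.g (nat_lit 3002) (.e (nat_lit 1448) (nat_lit 108) (.e (nat_lit 336013) (nat_lit 2) (.e (nat_lit 90170) (nat_lit 13) (.e (nat_lit 172113) (nat_lit 10) (.e (nat_lit 434242) (nat_lit 28) (.e (nat_lit 573473) (nat_lit 12) (.e (nat_lit 57569) (nat_lit 53) (.e (nat_lit 761866) (nat_lit 5) .nil)))))))) (.g (nat_lit 5) .nil .nil))) 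
(.lf (nat_lit 57516) (.g (nat_lit 2413) (.e (nat_lit 1448) (nat_lit 108) (.e (nat_lit 336013) (nat_lit 2) (.e (nat_lit 90170) (nat_lit 13) (.e (nat_lit 172113) (nat_lit 10) (.e (nat_lit 434248) (nat_lit 28) .nil))))) .nil))) (.nd (nat_lit 5) 
(.lf (nat_lit 57500) (.g (nat_lit 4891) (.e (nat_lit 1448) (nat_lit 108) (.e (nat_lit 336013) (nat_lit 2) (.e (nat_lit 90170) (nat_lit 13) (.e (nat_lit 172113) (nat_lit 10) (.e (nat_lit 434245) (nat_lit 28) (.e (nat_lit 573474) (nat_lit 12) (.e (nat_lit 57568) (nat_lit 53) (.e (nat_lit 761869) (nat_lit 5) .nil)))))))) (.g (nat_lit 0) .nil .nil))) 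
(.lf (nat_lit 57532) (.g (nat_lit 1373) (.e (nat_lit 1448) (nat_lit 108) (.e (nat_lit 336013) (nat_lit 2) (.e (nat_lit 90176) (nat_lit 15) .nil))) .nil)))))) (.nd (nat_lit 2) (.nd (nat_lit 3) (.nd (nat_lit 4) (.nd (nat_lit 5) 
(.lf (nat_lit 57474) (.g (nat_lit 4582) (.e (nat_lit 1448) (nat_lit 108) (.e (nat_lit 336013) (nat_lit 2) (.e (nat_lit 90170) (nat_lit 13) (.e (nat_lit 172106) (nat_lit 10) (.e (nat_lit 434244) (nat_lit 28) (.e (nat_lit 573473) (nat_lit 12) (.e (nat_lit 57569) (nat_lit 53) (.e (nat_lit 761868) (nat_lit 5) .nil)))))))) (.g (nat_lit 6) .nil .nil))) 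
(.lf (nat_lit 57506) (.g (nat_lit 2489) (.e (nat_lit 1448) (nat_lit 108) (.e (nat_lit 336013) (nat_lit 2) (.e (nat_lit 90170) (nat_lit 13) (.e (nat_lit 172113) (nat_lit 10) (.e (nat_lit 434247) (nat_lit 28) .nil))))) .nil))) (.nd (nat_lit 5) 
(.lf (nat_lit 57490) (.g (nat_lit 4422) (.e (nat_lit 1448) (nat_lit 108) (.e (nat_lit 336013) (nat_lit 2) (.e (nat_lit 90170) (nat_lit 13) (.e (nat_lit 172113) (nat_lit 10) (.e (nat_lit 434242) (nat_lit 28) (.e (nat_lit 573474) (nat_lit 12) (.e (nat_lit 57569) (nat_lit 53) (.e (nat_lit 761868) (nat_lit 5) .nil)))))))) (.g (nat_lit 6) .nil .nil))) 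
(.lf (nat_lit 57522) (.g (nat_lit 4731) (.e (nat_lit 1448) (nat_lit 108) (.e (nat_lit 336013) (nat_lit 2) (.e (nat_lit 90170) (nat_lit 13) (.e (nat_lit 172113) (nat_lit 10) (.e (nat_lit 434248) (nat_lit 28) (.e (nat_lit 573475) (nat_lit 12) (.e (nat_lit 57568) (nat_lit 53) (.e (nat_lit 761866) (nat_lit 5) .nil)))))))) (.g (nat_lit 7) .nil .nil))))) (.nd (nat_lit 4) (.nd (nat_lit 5) 
(.lf (nat_lit 57482) (.g (nat_lit 4785) (.e (nat_lit 1448) (nat_lit 108) (.e (nat_lit 336013) (nat_lit 2) (.e (nat_lit 90170) (nat_lit 13) (.e (nat_lit 172106) (nat_lit 10) (.e (nat_lit 434244) (nat_lit 28) (.e (nat_lit 573474) (nat_lit 12) (.e (nat_lit 57569) (nat_lit 53) (.e (nat_lit 761869) (nat_lit 5) .nil)))))))) (.g (nat_lit 6) .nil .nil))) 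
(.lf (nat_lit 57514) (.g (nat_lit 3227) (.e (nat_lit 1448) (nat_lit 108) (.e (nat_lit 336013) (nat_lit 2) (.e (nat_lit 90170) (nat_lit 13) (.e (nat_lit 172113) (nat_lit 10) (.e (nat_lit 434247) (nat_lit 28) (.e (nat_lit 573478) (nat_lit 12) (.e (nat_lit 57568) (nat_lit 53) (.e (nat_lit 761868) (nat_lit 5) .nil)))))))) (.g (nat_lit 5) .nil .nil)))) (.nd (nat_lit 5) 
(.lf (nat_lit 57498) (.g (nat_lit 4677) (.e (nat_lit 1448) (nat_lit 108) (.e (nat_lit 336013) (nat_lit 2) (.e (nat_lit 90170) (nat_lit 13) (.e (nat_lit 172113) (nat_lit 10) (.e (nat_lit 434245) (nat_lit 28) (.e (nat_lit 573474) (nat_lit 12) (.e (nat_lit 57568) (nat_lit 53) (.e (nat_lit 761866) (nat_lit 5) .nil)))))))) (.g (nat_lit 7) .nil .nil))) 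
(.lf (nat_lit 57530) (.g (nat_lit 4691) (.e (nat_lit 1448) (nat_lit 108) (.e (nat_lit 336013) (nat_lit 2) (.e (nat_lit 90170) (nat_lit 13) (.e (nat_lit 172113) (nat_lit 10) (.e (nat_lit 434248) (nat_lit 28) (.e (nat_lit 573475) (nat_lit 12) (.e (nat_lit 57569) (nat_lit 53) (.e (nat_lit 761869) (nat_lit 5) .nil)))))))) (.g (nat_lit 6) .nil .nil)))))) 
(.nd (nat_lit 3) (.nd (nat_lit 4) (.nd (nat_lit 5) 
(.lf (nat_lit 57478) (.g (nat_lit 3238) (.e (nat_lit 1448) (nat_lit 108) (.e (nat_lit 336013) (nat_lit 2) (.e (nat_lit 90170) (nat_lit 13) (.e (nat_lit 172106) (nat_lit 10) (.e (nat_lit 434244) (nat_lit 28) (.e (nat_lit 573474) (nat_lit 12) (.e (nat_lit 57568) (nat_lit 53) (.e (nat_lit 769792) (nat_lit 5) .nil)))))))) (.g (nat_lit 5) .nil .nil))) 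
(.lf (nat_lit 57510) (.g (nat_lit 2504) (.e (nat_lit 1448) (nat_lit 108) (.e (nat_lit 336013) (nat_lit 2) (.e (nat_lit 90170) (nat_lit 13) (.e (nat_lit 172113) (nat_lit 10) (.e (nat_lit 434247) (nat_lit 28) (.e (nat_lit 573477) (nat_lit 12) (.e (nat_lit 57568) (nat_lit 53) (.e (nat_lit 761867) (nat_lit 5) .nil)))))))) (.g (nat_lit 4) .nil .nil)))) (.nd (nat_lit 5) 
(.lf (nat_lit 57494) (.g (nat_lit 5035) (.e (nat_lit 1448) (nat_lit 108) (.e (nat_lit 336013) (nat_lit 2) (.e (nat_lit 90170) (nat_lit 13) (.e (nat_lit 172113) (nat_lit 10) (.e (nat_lit 434245) (nat_lit 28) (.e (nat_lit 573473) (nat_lit 12) (.e (nat_lit 57569) (nat_lit 53) (.e (nat_lit 761867) (nat_lit 5) .nil)))))))) (.g (nat_lit 8) .nil .nil))) 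
(.lf (nat_lit 57526) (.g (nat_lit 3018) (.e (nat_lit 1448) (nat_lit 108) (.e (nat_lit 336013) (nat_lit 2) (.e (nat_lit 90170) (nat_lit 13) (.e (nat_lit 172113) (nat_lit 10) (.e (nat_lit 434248) (nat_lit 28) (.e (nat_lit 573475) (nat_lit 12) (.e (nat_lit 57568) (nat_lit 53) (.e (nat_lit 769792) (nat_lit 5) .nil)))))))) (.g (nat_lit 4) .nil .nil))))) (.nd (nat_lit 4) (.nd (nat_lit 5) 
(.lf (nat_lit 57486) (.g (nat_lit 2821) (.e (nat_lit 1448) (nat_lit 108) (.e (nat_lit 336013) (nat_lit 2) (.e (nat_lit 90170) (nat_lit 13) (.e (nat_lit 172113) (nat_lit 10) (.e (nat_lit 434242) (nat_lit 28) (.e (nat_lit 573473) (nat_lit 12) (.e (nat_lit 57569) (nat_lit 53) (.e (nat_lit 761869) (nat_lit 5) .nil)))))))) (.g (nat_lit 4) .nil .nil))) 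
(.lf (nat_lit 57518) (.g (nat_lit 5123) (.e (nat_lit 1448) (nat_lit 108) (.e (nat_lit 336013) (nat_lit 2) (.e (nat_lit 90170) (nat_lit 13) (.e (nat_lit 172113) (nat_lit 10) (.e (nat_lit 434248) (nat_lit 28) (.e (nat_lit 573473) (nat_lit 12) (.e (nat_lit 57569) (nat_lit 53) (.e (nat_lit 761867) (nat_lit 5) .nil)))))))) (.g (nat_lit 8) .nil .nil)))) (.nd (nat_lit 5) 
(.lf (nat_lit 57502) (.g (nat_lit 5267) (.e (nat_lit 1448) (nat_lit 108) (.e (nat_lit 336013) (nat_lit 2) (.e (nat_lit 90170) (nat_lit 13) (.e (nat_lit 172113) (nat_lit 10) (.e (nat_lit 434245) (nat_lit 28) (.e (nat_lit 573474) (nat_lit 12) (.e (nat_lit 57569) (nat_lit 53) (.e (nat_lit 761866) (nat_lit 5) .nil)))))))) (.g (nat_lit 7) .nil .nil))) 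
(.lf (nat_lit 57534) (.g (nat_lit 3925) (.e (nat_lit 1448) (nat_lit 108) (.e (nat_lit 336028) (nat_lit 3) (.e (nat_lit 98359) (nat_lit 26) (.e (nat_lit 426286) (nat_lit 10) (.e (nat_lit 434245) (nat_lit 28) (.e (nat_lit 573473) (nat_lit 12) (.e (nat_lit 57569) (nat_lit 53) (.e (nat_lit 761867) (nat_lit 5) .nil)))))))) (.g (nat_lit 8) .nil .nil)))))))) 
(.nd (nat_lit 1) (.nd (nat_lit 2) (.nd (nat_lit 3) (.nd (nat_lit 4) (.nd (nat_lit 5) 
(.lf (nat_lit 57473) (.g (nat_lit 5354) (.e (nat_lit 1448) (nat_lit 108) (.e (nat_lit 336013) (nat_lit 2) (.e (nat_lit 90170) (nat_lit 13) (.e (nat_lit 172106) (nat_lit 10) (.e (nat_lit 434244) (nat_lit 28) (.e (nat_lit 573473) (nat_lit 12) (.e (nat_lit 57569) (nat_lit 53) (.e (nat_lit 761867) (nat_lit 5) .nil)))))))) (.g (nat_lit 8) .nil .nil))) 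
(.lf (nat_lit 57505) (.g (nat_lit 4657) (.e (nat_lit 1448) (nat_lit 108) (.e (nat_lit 336013) (nat_lit 2) (.e (nat_lit 90170) (nat_lit 13) (.e (nat_lit 172113) (nat_lit 10) (.e (nat_lit 434245) (nat_lit 28) (.e (nat_lit 573474) (nat_lit 12) (.e (nat_lit 57569) (nat_lit 53) (.e (nat_lit 761869) (nat_lit 5) .nil)))))))) (.g (nat_lit 6) .nil .nil)))) (.nd (nat_lit 5) 
(.lf (nat_lit 57489) (.g (nat_lit 4633) (.e (nat_lit 1448) (nat_lit 108) (.e (nat_lit 336013) (nat_lit 2) (.e (nat_lit 90170) (nat_lit 13) (.e (nat_lit 172113) (nat_lit 10) (.e (nat_lit 434242) (nat_lit 28) (.e (nat_lit 573474) (nat_lit 12) (.e (nat_lit 57569) (nat_lit 53) (.e (nat_lit 761867) (nat_lit 5) .nil)))))))) (.g (nat_lit 6) .nil .nil))) 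
(.lf (nat_lit 57521) (.g (nat_lit 2625) (.e (nat_lit 1448) (nat_lit 108) (.e (nat_lit 336013) (nat_lit 2) (.e (nat_lit 90170) (nat_lit 13) (.e (nat_lit 172113) (nat_lit 10) (.e (nat_lit 434248) (nat_lit 28) (.e (nat_lit 573473) (nat_lit 12) (.e (nat_lit 57569) (nat_lit 53) (.e (nat_lit 769792) (nat_lit 5) .nil)))))))) (.g (nat_lit 4) .nil .nil))))) (.nd (nat_lit 4) (.nd (nat_lit 5) 
(.lf (nat_lit 57481) (.g (nat_lit 4827) (.e (nat_lit 1448) (nat_lit 108) (.e (nat_lit 336013) (nat_lit 2) (.e (nat_lit 90170) (nat_lit 13) (.e (nat_lit 172106) (nat_lit 10) (.e (nat_lit 434244) (nat_lit 28) (.e (nat_lit 573474) (nat_lit 12) (.e (nat_lit 57569) (nat_lit 53) (.e (nat_lit 761868) (nat_lit 5) .nil)))))))) (.g (nat_lit 6) .nil .nil))) 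
(.lf (nat_lit 57513) (.g (nat_lit 4090) (.e (nat_lit 1448) (nat_lit 108) (.e (nat_lit 336013) (nat_lit 2) (.e (nat_lit 90170) (nat_lit 13) (.e (nat_lit 172113) (nat_lit 10) (.e (nat_lit 434247) (nat_lit 28) (.e (nat_lit 573478) (nat_lit 12) (.e (nat_lit 57568) (nat_lit 53) (.e (nat_lit 761867) (nat_lit 5) .nil)))))))) (.g (nat_lit 7) .nil .nil)))) (.nd (nat_lit 5) 
(.lf (nat_lit 57497) (.g (nat_lit 2538) (.e (nat_lit 1448) (nat_lit 108) (.e (nat_lit 336013) (nat_lit 2) (.e (nat_lit 90170) (nat_lit 13) (.e (nat_lit 172113) (nat_lit 10) (.e (nat_lit 434245) (nat_lit 28) (.e (nat_lit 573473) (nat_lit 12) (.e (nat_lit 57569) (nat_lit 53) (.e (nat_lit 769792) (nat_lit 5) .nil)))))))) (.g (nat_lit 4) .nil .nil))) 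
(.lf (nat_lit 57529) (.g (nat_lit 4670) (.e (nat_lit 1448) (nat_lit 108) (.e (nat_lit 336013) (nat_lit 2) (.e (nat_lit 90170) (nat_lit 13) (.e (nat_lit 172113) (nat_lit 10) (.e (nat_lit 434248) (nat_lit 28) (.e (nat_lit 573475) (nat_lit 12) (.e (nat_lit 57569) (nat_lit 53) (.e (nat_lit 761868) (nat_lit 5) .nil)))))))) (.g (nat_lit 6) .nil .nil)))))) 
(.nd (nat_lit 3) (.nd (nat_lit 4) (.nd (nat_lit 5) 
(.lf (nat_lit 57477) (.g (nat_lit 5138) (.e (nat_lit 1448) (nat_lit 108) (.e (nat_lit 336013) (nat_lit 2) (.e (nat_lit 90170) (nat_lit 13) (.e (nat_lit 172106) (nat_lit 10) (.e (nat_lit 434244) (nat_lit 28) (.e (nat_lit 573474) (nat_lit 12) (.e (nat_lit 57568) (nat_lit 53) (.e (nat_lit 761869) (nat_lit 5) .nil)))))))) (.g (nat_lit 0) .nil .nil))) 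
(.lf (nat_lit 57509) (.g (nat_lit 2541) (.e (nat_lit 1448) (nat_lit 108) (.e (nat_lit 336013) (nat_lit 2) (.e (nat_lit 90170) (nat_lit 13) (.e (nat_lit 172113) (nat_lit 10) (.e (nat_lit 434247) (nat_lit 28) (.e (nat_lit 573477) (nat_lit 12) (.e (nat_lit 57568) (nat_lit 53) (.e (nat_lit 761866) (nat_lit 5) .nil)))))))) (.g (nat_lit 4) .nil .nil)))) (.nd (nat_lit 5) 
(.lf (nat_lit 57493) (.g (nat_lit 5270) (.e (nat_lit 1448) (nat_lit 108) (.e (nat_lit 336013) (nat_lit 2) (.e (nat_lit 90170) (nat_lit 13) (.e (nat_lit 172113) (nat_lit 10) (.e (nat_lit 434245) (nat_lit 28) (.e (nat_lit 573473) (nat_lit 12) (.e (nat_lit 57569) (nat_lit 53) (.e (nat_lit 761866) (nat_lit 5) .nil)))))))) (.g (nat_lit 8) .nil .nil))) 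
(.lf (nat_lit 57525) (.g (nat_lit 4949) (.e (nat_lit 1448) (nat_lit 108) (.e (nat_lit 336013) (nat_lit 2) (.e (nat_lit 90170) (nat_lit 13) (.e (nat_lit 172113) (nat_lit 10) (.e (nat_lit 434248) (nat_lit 28) (.e (nat_lit 573475) (nat_lit 12) (.e (nat_lit 57568) (nat_lit 53) (.e (nat_lit 761869) (nat_lit 5) .nil)))))))) (.g (nat_lit 8) .nil .nil))))) (.nd (nat_lit 4) (.nd (nat_lit 5) 
(.lf (nat_lit 57485) (.g (nat_lit 2764) (.e (nat_lit 1448) (nat_lit 108) (.e (nat_lit 336013) (nat_lit 2) (.e (nat_lit 90170) (nat_lit 13) (.e (nat_lit 172113) (nat_lit 10) (.e (nat_lit 434242) (nat_lit 28) (.e (nat_lit 573473) (nat_lit 12) (.e (nat_lit 57569) (nat_lit 53) (.e (nat_lit 761867) (nat_lit 5) .nil)))))))) (.g (nat_lit 4) .nil .nil))) 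
(.lf (nat_lit 57517) (.g (nat_lit 5360) (.e (nat_lit 1448) (nat_lit 108) (.e (nat_lit 336013) (nat_lit 2) (.e (nat_lit 90170) (nat_lit 13) (.e (nat_lit 172113) (nat_lit 10) (.e (nat_lit 434248) (nat_lit 28) (.e (nat_lit 573473) (nat_lit 12) (.e (nat_lit 57569) (nat_lit 53) (.e (nat_lit 761866) (nat_lit 5) .nil)))))))) (.g (nat_lit 8) .nil .nil)))) (.nd (nat_lit 5) 
(.lf (nat_lit 57501) (.g (nat_lit 2991) (.e (nat_lit 1448) (nat_lit 108) (.e (nat_lit 336013) (nat_lit 2) (.e (nat_lit 90170) (nat_lit 13) (.e (nat_lit 172113) (nat_lit 10) (.e (nat_lit 434245) (nat_lit 28) (.e (nat_lit 573474) (nat_lit 12) (.e (nat_lit 57568) (nat_lit 53) (.e (nat_lit 769792) (nat_lit 5) .nil)))))))) (.g (nat_lit 4) .nil .nil))) 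
(.lf (nat_lit 57533) (.g (nat_lit 4172) (.e (nat_lit 1448) (nat_lit 108) (.e (nat_lit 336028) (nat_lit 3) (.e (nat_lit 98359) (nat_lit 26) (.e (nat_lit 426286) (nat_lit 10) (.e (nat_lit 434245) (nat_lit 28) (.e (nat_lit 573473) (nat_lit 12) (.e (nat_lit 57569) (nat_lit 53) (.e (nat_lit 761866) (nat_lit 5) .nil)))))))) (.g (nat_lit 8) .nil .nil))))))) 
(.nd (nat_lit 2) (.nd (nat_lit 3) (.nd (nat_lit 4) (.nd (nat_lit 5) 
(.lf (nat_lit 57475) (.g (nat_lit 5430) (.e (nat_lit 1448) (nat_lit 108) (.e (nat_lit 336013) (nat_lit 2) (.e (nat_lit 90170) (nat_lit 13) (.e (nat_lit 172106) (nat_lit 10) (.e (nat_lit 434244) (nat_lit 28) (.e (nat_lit 573473) (nat_lit 12) (.e (nat_lit 57569) (nat_lit 53) (.e (nat_lit 761869) (nat_lit 5) .nil)))))))) (.g (nat_lit 7) .nil .nil))) 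
(.lf (nat_lit 57507) (.g (nat_lit 2971) (.e (nat_lit 1448) (nat_lit 108) (.e (nat_lit 336013) (nat_lit 2) (.e (nat_lit 90170) (nat_lit 13) (.e (nat_lit 172113) (nat_lit 10) (.e (nat_lit 434247) (nat_lit 28) (.e (nat_lit 573473) (nat_lit 12) (.e (nat_lit 57569) (nat_lit 53) (.e (nat_lit 761867) (nat_lit 5) .nil)))))))) (.g (nat_lit 4) .nil .nil)))) (.nd (nat_lit 5) 
(.lf (nat_lit 57491) (.g (nat_lit 4375) (.e (nat_lit 1448) (nat_lit 108) (.e (nat_lit 336013) (nat_lit 2) (.e (nat_lit 90170) (nat_lit 13) (.e (nat_lit 172113) (nat_lit 10) (.e (nat_lit 434242) (nat_lit 28) (.e (nat_lit 573474) (nat_lit 12) (.e (nat_lit 57569) (nat_lit 53) (.e (nat_lit 761869) (nat_lit 5) .nil)))))))) (.g (nat_lit 6) .nil .nil))) 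
(.lf (nat_lit 57523) (.g (nat_lit 4700) (.e (nat_lit 1448) (nat_lit 108) (.e (nat_lit 336013) (nat_lit 2) (.e (nat_lit 90170) (nat_lit 13) (.e (nat_lit 172113) (nat_lit 10) (.e (nat_lit 434248) (nat_lit 28) (.e (nat_lit 573475) (nat_lit 12) (.e (nat_lit 57568) (nat_lit 53) (.e (nat_lit 761867) (nat_lit 5) .nil)))))))) (.g (nat_lit 7) .nil .nil))))) (.nd (nat_lit 4) (.nd (nat_lit 5) 
(.lf (nat_lit 57483) (.g (nat_lit 2264) (.e (nat_lit 1448) (nat_lit 108) (.e (nat_lit 336013) (nat_lit 2) (.e (nat_lit 90170) (nat_lit 13) (.e (nat_lit 172113) (nat_lit 10) (.e (nat_lit 434242) (nat_lit 28) .nil))))) .nil)) 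
(.lf (nat_lit 57515) (.g (nat_lit 4353) (.e (nat_lit 1448) (nat_lit 108) (.e (nat_lit 336013) (nat_lit 2) (.e (nat_lit 90170) (nat_lit 13) (.e (nat_lit 172113) (nat_lit 10) (.e (nat_lit 434247) (nat_lit 28) (.e (nat_lit 573478) (nat_lit 12) (.e (nat_lit 57568) (nat_lit 53) (.e (nat_lit 761869) (nat_lit 5) .nil)))))))) (.g (nat_lit 8) .nil .nil)))) (.nd (nat_lit 5) 
(.lf (nat_lit 57499) (.g (nat_lit 4653) (.e (nat_lit 1448) (nat_lit 108) (.e (nat_lit 336013) (nat_lit 2) (.e (nat_lit 90170) (nat_lit 13) (.e (nat_lit 172113) (nat_lit 10) (.e (nat_lit 434245) (nat_lit 28) (.e (nat_lit 573474) (nat_lit 12) (.e (nat_lit 57568) (nat_lit 53) (.e (nat_lit 761867) (nat_lit 5) .nil)))))))) (.g (nat_lit 7) .nil .nil))) 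
(.lf (nat_lit 57531) (.g (nat_lit 4077) (.e (nat_lit 1448) (nat_lit 108) (.e (nat_lit 336013) (nat_lit 2) (.e (nat_lit 90170) (nat_lit 13) (.e (nat_lit 172115) (nat_lit 10) .nil)))) .nil))))) (.nd (nat_lit 3) (.nd (nat_lit 4) (.nd (nat_lit 5) 
(.lf (nat_lit 57479) (.g (nat_lit 5395) (.e (nat_lit 1448) (nat_lit 108) (.e (nat_lit 336013) (nat_lit 2) (.e (nat_lit 90170) (nat_lit 13) (.e (nat_lit 172106) (nat_lit 10) (.e (nat_lit 434244) (nat_lit 28) (.e (nat_lit 573474) (nat_lit 12) (.e (nat_lit 57569) (nat_lit 53) (.e (nat_lit 761866) (nat_lit 5) .nil)))))))) (.g (nat_lit 7) .nil .nil))) 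
(.lf (nat_lit 57511) (.g (nat_lit 2765) (.e (nat_lit 1448) (nat_lit 108) (.e (nat_lit 336013) (nat_lit 2) (.e (nat_lit 90170) (nat_lit 13) (.e (nat_lit 172113) (nat_lit 10) (.e (nat_lit 434247) (nat_lit 28) (.e (nat_lit 573477) (nat_lit 12) (.e (nat_lit 57568) (nat_lit 53) (.e (nat_lit 761869) (nat_lit 5) .nil)))))))) (.g (nat_lit 4) .nil .nil)))) (.nd (nat_lit 5) 
(.lf (nat_lit 57495) (.g (nat_lit 4211) (.e (nat_lit 1448) (nat_lit 108) (.e (nat_lit 336013) (nat_lit 2) (.e (nat_lit 90170) (nat_lit 13) (.e (nat_lit 172113) (nat_lit 10) (.e (nat_lit 434245) (nat_lit 28) (.e (nat_lit 573473) (nat_lit 12) (.e (nat_lit 57569) (nat_lit 53) (.e (nat_lit 761868) (nat_lit 5) .nil)))))))) (.g (nat_lit 6) .nil .nil))) 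
(.lf (nat_lit 57527) (.g (nat_lit 5262) (.e (nat_lit 1448) (nat_lit 108) (.e (nat_lit 336013) (nat_lit 2) (.e (nat_lit 90170) (nat_lit 13) (.e (nat_lit 172113) (nat_lit 10) (.e (nat_lit 434248) (nat_lit 28) (.e (nat_lit 573475) (nat_lit 12) (.e (nat_lit 57569) (nat_lit 53) (.e (nat_lit 761866) (nat_lit 5) .nil)))))))) (.g (nat_lit 7) .nil .nil))))) (.nd (nat_lit 4) (.nd (nat_lit 5) 
(.lf (nat_lit 57487) (.g (nat_lit 2341) (.e (nat_lit 1448) (nat_lit 108) (.e (nat_lit 336013) (nat_lit 2) (.e (nat_lit 90170) (nat_lit 13) (.e (nat_lit 172113) (nat_lit 10) (.e (nat_lit 434242) (nat_lit 28) (.e (nat_lit 573474) (nat_lit 12) (.e (nat_lit 57568) (nat_lit 53) (.e (nat_lit 761868) (nat_lit 5) .nil)))))))) (.g (nat_lit 4) .nil .nil))) 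
(.lf (nat_lit 57519) (.g (nat_lit 4314) (.e (nat_lit 1448) (nat_lit 108) (.e (nat_lit 336013) (nat_lit 2) (.e (nat_lit 90170) (nat_lit 13) (.e (nat_lit 172113) (nat_lit 10) (.e (nat_lit 434248) (nat_lit 28) (.e (nat_lit 573473) (nat_lit 12) (.e (nat_lit 57569) (nat_lit 53) (.e (nat_lit 761868) (nat_lit 5) .nil)))))))) (.g (nat_lit 6) .nil .nil)))) (.nd (nat_lit 5) 
(.lf (nat_lit 57503) (.g (nat_lit 4915) (.e (nat_lit 1448) (nat_lit 108) (.e (nat_lit 336013) (nat_lit 2) (.e (nat_lit 90170) (nat_lit 13) (.e (nat_lit 172113) (nat_lit 10) (.e (nat_lit 434245) (nat_lit 28) (.e (nat_lit 573474) (nat_lit 12) (.e (nat_lit 57569) (nat_lit 53) (.e (nat_lit 761867) (nat_lit 5) .nil)))))))) (.g (nat_lit 7) .nil .nil))) 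
(.lf (nat_lit 57535) (.g (nat_lit 3071) (.e (nat_lit 1448) (nat_lit 108) (.e (nat_lit 336028) (nat_lit 3) (.e (nat_lit 98359) (nat_lit 26) (.e (nat_lit 426286) (nat_lit 10) (.e (nat_lit 434245) (nat_lit 28) (.e (nat_lit 573473) (nat_lit 12) (.e (nat_lit 57569) (nat_lit 53) (.e (nat_lit 761868) (nat_lit 5) .nil)))))))) (.g (nat_lit 6) .nil .nil)))))))))

noncomputable def tv791 : DT := (.nd (nat_lit 0) (.nd (nat_lit 1) (.nd (nat_lit 2) (.nd (nat_lit 3) (.nd (nat_lit 4) (.nd (nat_lit 5) 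
(.lf (nat_lit 57536) (.g (nat_lit 3579) (.e (nat_lit 1448) (nat_lit 108) (.e (nat_lit 336028) (nat_lit 3) (.e (nat_lit 98359) (nat_lit 26) (.e (nat_lit 426286) (nat_lit 10) (.e (nat_lit 434245) (nat_lit 28) (.e (nat_lit 573474) (nat_lit 12) (.e (nat_lit 57568) (nat_lit 53) (.e (nat_lit 761866) (nat_lit 5) .nil)))))))) (.g (nat_lit 6) .nil .nil))) 
(.lf (nat_lit 57568) (.g (nat_lit 3530) (.e (nat_lit 1448) (nat_lit 108) (.e (nat_lit 336028) (nat_lit 3) (.e (nat_lit 98373) (nat_lit 29) (.e (nat_lit 450588) (nat_lit 10) (.e (nat_lit 573475) (nat_lit 12) (.e (nat_lit 57569) (nat_lit 53) (.e (nat_lit 761868) (nat_lit 5) .nil))))))) (.g (nat_lit 5) .nil .nil)))) (.nd (nat_lit 5) 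
(.lf (nat_lit 57552) (.g (nat_lit 2558) (.e (nat_lit 1448) (nat_lit 108) (.e (nat_lit 336028) (nat_lit 3) (.e (nat_lit 98372) (nat_lit 29) (.e (nat_lit 450586) (nat_lit 10) (.e (nat_lit 573473) (nat_lit 12) (.e (nat_lit 57569) (nat_lit 53) (.e (nat_lit 761868) (nat_lit 5) .nil))))))) (.g (nat_lit 5) .nil .nil))) 
(.lf (nat_lit 57584) (.g (nat_lit 2300) (.e (nat_lit 1448) (nat_lit 108) (.e (nat_lit 336060) (nat_lit 7) (.e (nat_lit 319534) (nat_lit 16) (.e (nat_lit 286756) (nat_lit 10) (.e (nat_lit 344160) (nat_lit 37) (.e (nat_lit 647195) (nat_lit 9) (.e (nat_lit 1181) (nat_lit 87) (.e (nat_lit 57666) (nat_lit 152) (.e (nat_lit 1078) (nat_lit 81) .nil))))))))) (.g (nat_lit 4) .nil .nil))))) 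
(.nd (nat_lit 4) (.nd (nat_lit 5) 
(.lf (nat_lit 57544) (.g (nat_lit 3968) (.e (nat_lit 1448) (nat_lit 108) (.e (nat_lit 336028) (nat_lit 3) (.e (nat_lit 98359) (nat_lit 26) (.e (nat_lit 426286) (nat_lit 10) (.e (nat_lit 434248) (nat_lit 28) (.e (nat_lit 573473) (nat_lit 12) (.e (nat_lit 57569) (nat_lit 53) (.e (nat_lit 761867) (nat_lit 5) .nil)))))))) (.g (nat_lit 8) .nil .nil))) 
(.lf (nat_lit 57576) (.g (nat_lit 2190) (.e (nat_lit 1448) (nat_lit 108) (.e (nat_lit 336060) (nat_lit 7) (.e (nat_lit 319534) (nat_lit 16) (.e (nat_lit 286756) (nat_lit 10) (.e (nat_lit 344160) (nat_lit 37) .nil))))) .nil))) (.nd (nat_lit 5) 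
(.lf (nat_lit 57560) (.g (nat_lit 2166) (.e (nat_lit 1448) (nat_lit 108) (.e (nat_lit 336028) (nat_lit 3) (.e (nat_lit 98372) (nat_lit 29) (.e (nat_lit 450586) (nat_lit 10) (.e (nat_lit 573478) (nat_lit 12) (.e (nat_lit 57568) (nat_lit 53) (.e (nat_lit 761867) (nat_lit 5) .nil))))))) (.g (nat_lit 5) .nil .nil))) 
(.lf (nat_lit 57592) (.g (nat_lit 1809) (.e (nat_lit 1448) (nat_lit 108) (.e (nat_lit 336205) (nat_lit 12) (.e (nat_lit 385105) (nat_lit 50) (.e (nat_lit 786480) (nat_lit 29) (.e (nat_lit 352270) (nat_lit 8) (.e (nat_lit 262148) (nat_lit 0) .nil)))))) (.g (nat_lit 4) .nil .nil)))))) (.nd (nat_lit 3) (.nd (nat_lit 4) (.nd (nat_lit 5) 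
(.lf (nat_lit 57540) (.g (nat_lit 2766) (.e (nat_lit 1448) (nat_lit 108) (.e (nat_lit 336028) (nat_lit 3) (.e (nat_lit 98359) (nat_lit 26) (.e (nat_lit 426286) (nat_lit 10) (.e (nat_lit 434247) (nat_lit 28) (.e (nat_lit 573478) (nat_lit 12) (.e (nat_lit 57568) (nat_lit 53) (.e (nat_lit 761866) (nat_lit 5) .nil)))))))) (.g (nat_lit 6) .nil .nil))) 
(.lf (nat_lit 57572) (.g (nat_lit 1675) (.e (nat_lit 1448) (nat_lit 108) (.e (nat_lit 336060) (nat_lit 7) (.e (nat_lit 319533) (nat_lit 16) (.e (nat_lit 286753) (nat_lit 10) (.e (nat_lit 344160) (nat_lit 37) .nil))))) .nil))) (.nd (nat_lit 5) 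
(.lf (nat_lit 57556) (.g (nat_lit 1824) (.e (nat_lit 1448) (nat_lit 108) (.e (nat_lit 336028) (nat_lit 3) (.e (nat_lit 98372) (nat_lit 29) (.e (nat_lit 450586) (nat_lit 10) (.e (nat_lit 573475) (nat_lit 12) (.e (nat_lit 57568) (nat_lit 53) (.e (nat_lit 761868) (nat_lit 5) .nil))))))) (.g (nat_lit 4) .nil .nil))) 
(.lf (nat_lit 57588) (.g (nat_lit 1317) (.e (nat_lit 1448) (nat_lit 108) (.e (nat_lit 336200) (nat_lit 12) (.e (nat_lit 385094) (nat_lit 49) (.e (nat_lit 778327) (nat_lit 6) (.e (nat_lit 89856) (nat_lit 8) .nil))))) .nil)))) (.nd (nat_lit 4) (.nd (nat_lit 5) 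
(.lf (nat_lit 57548) (.g (nat_lit 4080) (.e (nat_lit 1448) (nat_lit 108) (.e (nat_lit 336028) (nat_lit 3) (.e (nat_lit 98359) (nat_lit 26) (.e (nat_lit 426286) (nat_lit 10) (.e (nat_lit 434248) (nat_lit 28) (.e (nat_lit 573475) (nat_lit 12) (.e (nat_lit 57569) (nat_lit 53) (.e (nat_lit 761866) (nat_lit 5) .nil)))))))) (.g (nat_lit 7) .nil .nil))) 
(.lf (nat_lit 57580) (.g (nat_lit 4213) (.e (nat_lit 1448) (nat_lit 108) (.e (nat_lit 336060) (nat_lit 7) (.e (nat_lit 319534) (nat_lit 16) (.e (nat_lit 286756) (nat_lit 10) (.e (nat_lit 344160) (nat_lit 37) (.e (nat_lit 647195) (nat_lit 9) (.e (nat_lit 1180) (nat_lit 87) (.e (nat_lit 57666) (nat_lit 152) (.e (nat_lit 1077) (nat_lit 81) .nil))))))))) (.g (nat_lit 8) .nil .nil)))) (.nd (nat_lit 5) 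
(.lf (nat_lit 57564) (.g (nat_lit 4531) (.e (nat_lit 1448) (nat_lit 108) (.e (nat_lit 336028) (nat_lit 3) (.e (nat_lit 98373) (nat_lit 29) (.e (nat_lit 450588) (nat_lit 10) (.e (nat_lit 573473) (nat_lit 12) (.e (nat_lit 57569) (nat_lit 53) (.e (nat_lit 761866) (nat_lit 5) .nil))))))) (.g (nat_lit 0) .nil .nil))) 
(.lf (nat_lit 57596) (.g (nat_lit 1628) (.e (nat_lit 1448) (nat_lit 108) (.e (nat_lit 336224) (nat_lit 13) (.e (nat_lit 393234) (nat_lit 17) (.e (nat_lit 7591) (nat_lit 407) (.e (nat_lit 73772) (nat_lit 24) .nil))))) .nil)))))) (.nd (nat_lit 2) (.nd (nat_lit 3) (.nd (nat_lit 4) (.nd (nat_lit 5) 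
(.lf (nat_lit 57538) (.g (nat_lit 4184) (.e (nat_lit 1448) (nat_lit 108) (.e (nat_lit 336028) (nat_lit 3) (.e (nat_lit 98359) (nat_lit 26) (.e (nat_lit 426286) (nat_lit 10) (.e (nat_lit 434245) (nat_lit 28) (.e (nat_lit 573474) (nat_lit 12) (.e (nat_lit 57569) (nat_lit 53) (.e (nat_lit 761866) (nat_lit 5) .nil)))))))) (.g (nat_lit 7) .nil .nil))) 
(.lf (nat_lit 57570) (.g (nat_lit 1842) (.e (nat_lit 1448) (nat_lit 108) (.e (nat_lit 336060) (nat_lit 7) (.e (nat_lit 319505) (nat_lit 10) (.e (nat_lit 618) (nat_lit 48) (.e (nat_lit 557103) (nat_lit 14) .nil))))) .nil))) (.nd (nat_lit 5) 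
(.lf (nat_lit 57554) (.g (nat_lit 2752) (.e (nat_lit 1448) (nat_lit 108) (.e (nat_lit 336028) (nat_lit 3) (.e (nat_lit 98372) (nat_lit 29) (.e (nat_lit 450586) (nat_lit 10) (.e (nat_lit 573475) (nat_lit 12) (.e (nat_lit 57568) (nat_lit 53) (.e (nat_lit 761866) (nat_lit 5) .nil))))))) (.g (nat_lit 5) .nil .nil))) 
(.lf (nat_lit 57586) (.g (nat_lit 2340) (.e (nat_lit 1448) (nat_lit 108) (.e (nat_lit 336060) (nat_lit 7) (.e (nat_lit 319534) (nat_lit 16) (.e (nat_lit 286756) (nat_lit 10) (.e (nat_lit 344160) (nat_lit 37) (.e (nat_lit 647195) (nat_lit 9) (.e (nat_lit 1182) (nat_lit 87) (.e (nat_lit 57665) (nat_lit 152) (.e (nat_lit 1070) (nat_lit 81) .nil))))))))) (.g (nat_lit 4) .nil .nil))))) 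
(.nd (nat_lit 4) (.nd (nat_lit 5) 
(.lf (nat_lit 57546) (.g (nat_lit 3544) (.e (nat_lit 1448) (nat_lit 108) (.e (nat_lit 336028) (nat_lit 3) (.e (nat_lit 98359) (nat_lit 26) (.e (nat_lit 426286) (nat_lit 10) (.e (nat_lit 434248) (nat_lit 28) (.e (nat_lit 573475) (nat_lit 12) (.e (nat_lit 57568) (nat_lit 53) (.e (nat_lit 761866) (nat_lit 5) .nil)))))))) (.g (nat_lit 6) .nil .nil))) 
(.lf (nat_lit 57578) (.g (nat_lit 2612) (.e (nat_lit 1448) (nat_lit 108) (.e (nat_lit 336060) (nat_lit 7) (.e (nat_lit 319534) (nat_lit 16) (.e (nat_lit 286756) (nat_lit 10) (.e (nat_lit 344160) (nat_lit 37) (.e (nat_lit 647195) (nat_lit 9) (.e (nat_lit 1178) (nat_lit 87) (.e (nat_lit 57660) (nat_lit 152) (.e (nat_lit 1076) (nat_lit 81) .nil))))))))) (.g (nat_lit 5) .nil .nil)))) (.nd (nat_lit 5) 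
(.lf (nat_lit 57562) (.g (nat_lit 3307) (.e (nat_lit 1448) (nat_lit 108) (.e (nat_lit 336028) (nat_lit 3) (.e (nat_lit 98372) (nat_lit 29) (.e (nat_lit 450588) (nat_lit 10) (.e (nat_lit 573475) (nat_lit 12) (.e (nat_lit 57568) (nat_lit 53) (.e (nat_lit 761867) (nat_lit 5) .nil))))))) (.g (nat_lit 4) .nil .nil))) 
(.lf (nat_lit 57594) (.g (nat_lit 2224) (.e (nat_lit 1448) (nat_lit 108) (.e (nat_lit 336205) (nat_lit 12) (.e (nat_lit 385106) (nat_lit 50) (.e (nat_lit 786480) (nat_lit 29) (.e (nat_lit 352270) (nat_lit 8) (.e (nat_lit 262148) (nat_lit 0) .nil)))))) (.g (nat_lit 6) .nil .nil)))))) (.nd (nat_lit 3) (.nd (nat_lit 4) (.nd (nat_lit 5) 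
(.lf (nat_lit 57542) (.g (nat_lit 1837) (.e (nat_lit 1448) (nat_lit 108) (.e (nat_lit 336028) (nat_lit 3) (.e (nat_lit 98359) (nat_lit 26) (.e (nat_lit 426286) (nat_lit 10) (.e (nat_lit 434247) (nat_lit 28) (.e (nat_lit 573478) (nat_lit 12) (.e (nat_lit 57568) (nat_lit 53) (.e (nat_lit 761868) (nat_lit 5) .nil)))))))) (.g (nat_lit 4) .nil .nil))) 
(.lf (nat_lit 57574) (.g (nat_lit 4470) (.e (nat_lit 1448) (nat_lit 108) (.e (nat_lit 336060) (nat_lit 7) (.e (nat_lit 319533) (nat_lit 16) (.e (nat_lit 286753) (nat_lit 10) (.e (nat_lit 344160) (nat_lit 37) (.e (nat_lit 647195) (nat_lit 9) (.e (nat_lit 1181) (nat_lit 87) (.e (nat_lit 57666) (nat_lit 152) (.e (nat_lit 1077) (nat_lit 81) .nil))))))))) (.g (nat_lit 8) .nil .nil)))) (.nd (nat_lit 5) 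
(.lf (nat_lit 57558) (.g (nat_lit 1713) (.e (nat_lit 1448) (nat_lit 108) (.e (nat_lit 336028) (nat_lit 3) (.e (nat_lit 98372) (nat_lit 29) (.e (nat_lit 450586) (nat_lit 10) (.e (nat_lit 573478) (nat_lit 12) .nil))))) .nil)) 
(.lf (nat_lit 57590) (.g (nat_lit 1152) (.e (nat_lit 1448) (nat_lit 108) (.e (nat_lit 336205) (nat_lit 12) (.e (nat_lit 385094) (nat_lit 49) (.e (nat_lit 778326) (nat_lit 6) .nil)))) .nil)))) (.nd (nat_lit 4) (.nd (nat_lit 5) 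
(.lf (nat_lit 57550) (.g (nat_lit 3633) (.e (nat_lit 1448) (nat_lit 108) (.e (nat_lit 336028) (nat_lit 3) (.e (nat_lit 98372) (nat_lit 29) (.e (nat_lit 450586) (nat_lit 10) (.e (nat_lit 573473) (nat_lit 12) (.e (nat_lit 57569) (nat_lit 53) (.e (nat_lit 761866) (nat_lit 5) .nil))))))) (.g (nat_lit 7) .nil .nil))) 
(.lf (nat_lit 57582) (.g (nat_lit 2648) (.e (nat_lit 1448) (nat_lit 108) (.e (nat_lit 336060) (nat_lit 7) (.e (nat_lit 319534) (nat_lit 16) (.e (nat_lit 286756) (nat_lit 10) (.e (nat_lit 344160) (nat_lit 37) (.e (nat_lit 647195) (nat_lit 9) (.e (nat_lit 1181) (nat_lit 87) (.e (nat_lit 57653) (nat_lit 152) (.e (nat_lit 1088) (nat_lit 81) .nil))))))))) (.g (nat_lit 5) .nil .nil)))) (.nd (nat_lit 5) 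
(.lf (nat_lit 57566) (.g (nat_lit 4368) (.e (nat_lit 1448) (nat_lit 108) (.e (nat_lit 336028) (nat_lit 3) (.e (nat_lit 98373) (nat_lit 29) (.e (nat_lit 450588) (nat_lit 10) (.e (nat_lit 573473) (nat_lit 12) (.e (nat_lit 57569) (nat_lit 53) (.e (nat_lit 761869) (nat_lit 5) .nil))))))) (.g (nat_lit 7) .nil .nil))) 
(.lf (nat_lit 57598) (.g (nat_lit 1764) (.e (nat_lit 1448) (nat_lit 108) (.e (nat_lit 336224) (nat_lit 13) (.e (nat_lit 393234) (nat_lit 17) (.e (nat_lit 7593) (nat_lit 407) (.e (nat_lit 73772) (nat_lit 24) (.e (nat_lit 761866) (nat_lit 5) .nil)))))) (.g (nat_lit 5) .nil .nil)))))))) (.nd (nat_lit 1) (.nd (nat_lit 2) (.nd (nat_lit 3) (.nd (nat_lit 4) (.nd (nat_lit 5) 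
(.lf (nat_lit 57537) (.g (nat_lit 3561) (.e (nat_lit 1448) (nat_lit 108) (.e (nat_lit 336028) (nat_lit 3) (.e (nat_lit 98359) (nat_lit 26) (.e (nat_lit 426286) (nat_lit 10) (.e (nat_lit 434245) (nat_lit 28) (.e (nat_lit 573474) (nat_lit 12) (.e (nat_lit 57568) (nat_lit 53) (.e (nat_lit 761867) (nat_lit 5) .nil)))))))) (.g (nat_lit 6) .nil .nil))) 
(.lf (nat_lit 57569) (.g (nat_lit 3584) (.e (nat_lit 1448) (nat_lit 108) (.e (nat_lit 336028) (nat_lit 3) (.e (nat_lit 98373) (nat_lit 29) (.e (nat_lit 450588) (nat_lit 10) (.e (nat_lit 573475) (nat_lit 12) (.e (nat_lit 57569) (nat_lit 53) (.e (nat_lit 761869) (nat_lit 5) .nil))))))) (.g (nat_lit 5) .nil .nil)))) (.nd (nat_lit 5) 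
(.lf (nat_lit 57553) (.g (nat_lit 3475) (.e (nat_lit 1448) (nat_lit 108) (.e (nat_lit 336028) (nat_lit 3) (.e (nat_lit 98372) (nat_lit 29) (.e (nat_lit 450586) (nat_lit 10) (.e (nat_lit 573473) (nat_lit 12) (.e (nat_lit 57569) (nat_lit 53) (.e (nat_lit 761869) (nat_lit 5) .nil))))))) (.g (nat_lit 7) .nil .nil))) 
(.lf (nat_lit 57585) (.g (nat_lit 2250) (.e (nat_lit 1448) (nat_lit 108) (.e (nat_lit 336060) (nat_lit 7) (.e (nat_lit 319534) (nat_lit 16) (.e (nat_lit 286756) (nat_lit 10) (.e (nat_lit 344160) (nat_lit 37) (.e (nat_lit 647195) (nat_lit 9) (.e (nat_lit 1181) (nat_lit 87) (.e (nat_lit 57666) (nat_lit 152) (.e (nat_lit 1079) (nat_lit 81) .nil))))))))) (.g (nat_lit 4) .nil .nil))))) 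
(.nd (nat_lit 4) (.nd (nat_lit 5) 
(.lf (nat_lit 57545) (.g (nat_lit 3129) (.e (nat_lit 1448) (nat_lit 108) (.e (nat_lit 336028) (nat_lit 3) (.e (nat_lit 98359) (nat_lit 26) (.e (nat_lit 426286) (nat_lit 10) (.e (nat_lit 434248) (nat_lit 28) (.e (nat_lit 573473) (nat_lit 12) (.e (nat_lit 57569) (nat_lit 53) (.e (nat_lit 761868) (nat_lit 5) .nil)))))))) (.g (nat_lit 6) .nil .nil))) 
(.lf (nat_lit 57577) (.g (nat_lit 2372) (.e (nat_lit 1448) (nat_lit 108) (.e (nat_lit 336060) (nat_lit 7) (.e (nat_lit 319534) (nat_lit 16) (.e (nat_lit 286756) (nat_lit 10) (.e (nat_lit 344160) (nat_lit 37) (.e (nat_lit 647195) (nat_lit 9) (.e (nat_lit 982) (nat_lit 81) (.e (nat_lit 2270) (nat_lit 149) (.e (nat_lit 761867) (nat_lit 5) .nil))))))))) (.g (nat_lit 4) .nil .nil)))) (.nd (nat_lit 5) 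
(.lf (nat_lit 57561) (.g (nat_lit 3331) (.e (nat_lit 1448) (nat_lit 108) (.e (nat_lit 336028) (nat_lit 3) (.e (nat_lit 98372) (nat_lit 29) (.e (nat_lit 450588) (nat_lit 10) (.e (nat_lit 573475) (nat_lit 12) (.e (nat_lit 57568) (nat_lit 53) (.e (nat_lit 761866) (nat_lit 5) .nil))))))) (.g (nat_lit 4) .nil .nil))) 
(.lf (nat_lit 57593) (.g (nat_lit 2089) (.e (nat_lit 1448) (nat_lit 108) (.e (nat_lit 336205) (nat_lit 12) (.e (nat_lit 385106) (nat_lit 50) (.e (nat_lit 786478) (nat_lit 29) (.e (nat_lit 352270) (nat_lit 8) (.e (nat_lit 262148) (nat_lit 0) .nil)))))) (.g (nat_lit 4) .nil .nil)))))) (.nd (nat_lit 3) (.nd (nat_lit 4) (.nd (nat_lit 5) 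
(.lf (nat_lit 57541) (.g (nat_lit 2736) (.e (nat_lit 1448) (nat_lit 108) (.e (nat_lit 336028) (nat_lit 3) (.e (nat_lit 98359) (nat_lit 26) (.e (nat_lit 426286) (nat_lit 10) (.e (nat_lit 434247) (nat_lit 28) (.e (nat_lit 573478) (nat_lit 12) (.e (nat_lit 57568) (nat_lit 53) (.e (nat_lit 761867) (nat_lit 5) .nil)))))))) (.g (nat_lit 6) .nil .nil))) 
(.lf (nat_lit 57573) (.g (nat_lit 1975) (.e (nat_lit 1448) (nat_lit 108) (.e (nat_lit 336060) (nat_lit 7) (.e (nat_lit 319533) (nat_lit 16) (.e (nat_lit 286753) (nat_lit 10) (.e (nat_lit 344160) (nat_lit 37) (.e (nat_lit 647195) (nat_lit 9) (.e (nat_lit 982) (nat_lit 81) (.e (nat_lit 2270) (nat_lit 149) (.e (nat_lit 761868) (nat_lit 5) .nil))))))))) (.g (nat_lit 4) .nil .nil)))) (.nd (nat_lit 5) 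
(.lf (nat_lit 57557) (.g (nat_lit 3014) (.e (nat_lit 1448) (nat_lit 108) (.e (nat_lit 336028) (nat_lit 3) (.e (nat_lit 98372) (nat_lit 29) (.e (nat_lit 450586) (nat_lit 10) (.e (nat_lit 573475) (nat_lit 12) (.e (nat_lit 57569) (nat_lit 53) (.e (nat_lit 761867) (nat_lit 5) .nil))))))) (.g (nat_lit 5) .nil .nil))) 
(.lf (nat_lit 57589) (.g (nat_lit 1310) (.e (nat_lit 1448) (nat_lit 108) (.e (nat_lit 336205) (nat_lit 12) (.e (nat_lit 385093) (nat_lit 49) (.e (nat_lit 778327) (nat_lit 6) .nil)))) .nil)))) (.nd (nat_lit 4) (.nd (nat_lit 5) 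
(.lf (nat_lit 57549) (.g (nat_lit 3755) (.e (nat_lit 1448) (nat_lit 108) (.e (nat_lit 336028) (nat_lit 3) (.e (nat_lit 98359) (nat_lit 26) (.e (nat_lit 426286) (nat_lit 10) (.e (nat_lit 434248) (nat_lit 28) (.e (nat_lit 573475) (nat_lit 12) (.e (nat_lit 57569) (nat_lit 53) (.e (nat_lit 761867) (nat_lit 5) .nil)))))))) (.g (nat_lit 6) .nil .nil))) 
(.lf (nat_lit 57581) (.g (nat_lit 2372) (.e (nat_lit 1448) (nat_lit 108) (.e (nat_lit 336060) (nat_lit 7) (.e (nat_lit 319534) (nat_lit 16) (.e (nat_lit 286756) (nat_lit 10) (.e (nat_lit 344160) (nat_lit 37) (.e (nat_lit 647195) (nat_lit 9) (.e (nat_lit 1181) (nat_lit 87) (.e (nat_lit 57653) (nat_lit 152) (.e (nat_lit 976) (nat_lit 81) .nil))))))))) (.g (nat_lit 4) .nil .nil)))) (.nd (nat_lit 5) 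
(.lf (nat_lit 57565) (.g (nat_lit 4284) (.e (nat_lit 1448) (nat_lit 108) (.e (nat_lit 336028) (nat_lit 3) (.e (nat_lit 98373) (nat_lit 29) (.e (nat_lit 450588) (nat_lit 10) (.e (nat_lit 573473) (nat_lit 12) (.e (nat_lit 57569) (nat_lit 53) (.e (nat_lit 761867) (nat_lit 5) .nil))))))) (.g (nat_lit 0) .nil .nil))) 
(.lf (nat_lit 57597) (.g (nat_lit 1704) (.e (nat_lit 1448) (nat_lit 108) (.e (nat_lit 336224) (nat_lit 13) (.e (nat_lit 393234) (nat_lit 17) (.e (nat_lit 7591) (nat_lit 407) (.e (nat_lit 73772) (nat_lit 24) (.e (nat_lit 761867) (nat_lit 5) .nil)))))) (.g (nat_lit 4) .nil .nil))))))) (.nd (nat_lit 2) (.nd (nat_lit 3) (.nd (nat_lit 4) (.nd (nat_lit 5) 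
(.lf (nat_lit 57539) (.g (nat_lit 3820) (.e (nat_lit 1448) (nat_lit 108) (.e (nat_lit 336028) (nat_lit 3) (.e (nat_lit 98359) (nat_lit 26) (.e (nat_lit 426286) (nat_lit 10) (.e (nat_lit 434245) (nat_lit 28) (.e (nat_lit 573474) (nat_lit 12) (.e (nat_lit 57569) (nat_lit 53) (.e (nat_lit 761867) (nat_lit 5) .nil)))))))) (.g (nat_lit 6) .nil .nil))) 
(.lf (nat_lit 57571) (.g (nat_lit 2009) (.e (nat_lit 1448) (nat_lit 108) (.e (nat_lit 336060) (nat_lit 7) (.e (nat_lit 319505) (nat_lit 10) (.e (nat_lit 618) (nat_lit 48) (.e (nat_lit 557103) (nat_lit 14) (.e (nat_lit 180288) (nat_lit 45) (.e (nat_lit 2580) (nat_lit 161) (.e (nat_lit 40965) (nat_lit 0) .nil)))))))) (.g (nat_lit 4) .nil .nil)))) (.nd (nat_lit 5) 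
(.lf (nat_lit 57555) (.g (nat_lit 2727) (.e (nat_lit 1448) (nat_lit 108) (.e (nat_lit 336028) (nat_lit 3) (.e (nat_lit 98372) (nat_lit 29) (.e (nat_lit 450586) (nat_lit 10) (.e (nat_lit 573475) (nat_lit 12) (.e (nat_lit 57568) (nat_lit 53) (.e (nat_lit 761867) (nat_lit 5) .nil))))))) (.g (nat_lit 5) .nil .nil))) 
(.lf (nat_lit 57587) (.g (nat_lit 2399) (.e (nat_lit 1448) (nat_lit 108) (.e (nat_lit 336193) (nat_lit 12) (.e (nat_lit 385105) (nat_lit 50) (.e (nat_lit 786478) (nat_lit 29) (.e (nat_lit 352270) (nat_lit 8) .nil))))) .nil)))) (.nd (nat_lit 4) (.nd (nat_lit 5) 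
(.lf (nat_lit 57547) (.g (nat_lit 3519) (.e (nat_lit 1448) (nat_lit 108) (.e (nat_lit 336028) (nat_lit 3) (.e (nat_lit 98359) (nat_lit 26) (.e (nat_lit 426286) (nat_lit 10) (.e (nat_lit 434248) (nat_lit 28) (.e (nat_lit 573475) (nat_lit 12) (.e (nat_lit 57568) (nat_lit 53) (.e (nat_lit 761867) (nat_lit 5) .nil)))))))) (.g (nat_lit 6) .nil .nil))) 
(.lf (nat_lit 57579) (.g (nat_lit 4746) (.e (nat_lit 1448) (nat_lit 108) (.e (nat_lit 336060) (nat_lit 7) (.e (nat_lit 319534) (nat_lit 16) (.e (nat_lit 286756) (nat_lit 10) (.e (nat_lit 344160) (nat_lit 37) (.e (nat_lit 647195) (nat_lit 9) (.e (nat_lit 1178) (nat_lit 87) (.e (nat_lit 57666) (nat_lit 152) (.e (nat_lit 1077) (nat_lit 81) .nil))))))))) (.g (nat_lit 9) .nil .nil)))) (.nd (nat_lit 5) 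
(.lf (nat_lit 57563) (.g (nat_lit 2110) (.e (nat_lit 1448) (nat_lit 108) (.e (nat_lit 336028) (nat_lit 3) (.e (nat_lit 98373) (nat_lit 29) (.e (nat_lit 450587) (nat_lit 10) (.e (nat_lit 573478) (nat_lit 12) .nil))))) .nil)) 
(.lf (nat_lit 57595) (.g (nat_lit 478) (.e (nat_lit 1448) (nat_lit 108) (.e (nat_lit 336224) (nat_lit 13) (.e (nat_lit 393233) (nat_lit 17) .nil))) .nil))))) (.nd (nat_lit 3) (.nd (nat_lit 4) (.nd (nat_lit 5) 
(.lf (nat_lit 57543) (.g (nat_lit 4217) (.e (nat_lit 1448) (nat_lit 108) (.e (nat_lit 336028) (nat_lit 3) (.e (nat_lit 98359) (nat_lit 26) (.e (nat_lit 426286) (nat_lit 10) (.e (nat_lit 434248) (nat_lit 28) (.e (nat_lit 573473) (nat_lit 12) (.e (nat_lit 57569) (nat_lit 53) (.e (nat_lit 761866) (nat_lit 5) .nil)))))))) (.g (nat_lit 8) .nil .nil))) 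
(.lf (nat_lit 57575) (.g (nat_lit 1754) (.e (nat_lit 1448) (nat_lit 108) (.e (nat_lit 336060) (nat_lit 7) (.e (nat_lit 319533) (nat_lit 16) (.e (nat_lit 286753) (nat_lit 10) (.e (nat_lit 344160) (nat_lit 37) (.e (nat_lit 647200) (nat_lit 12) (.e (nat_lit 57569) (nat_lit 53) (.e (nat_lit 761866) (nat_lit 5) .nil)))))))) (.g (nat_lit 4) .nil .nil)))) (.nd (nat_lit 5) 
(.lf (nat_lit 57559) (.g (nat_lit 2191) (.e (nat_lit 1448) (nat_lit 108) (.e (nat_lit 336028) (nat_lit 3) (.e (nat_lit 98372) (nat_lit 29) (.e (nat_lit 450586) (nat_lit 10) (.e (nat_lit 573478) (nat_lit 12) (.e (nat_lit 57568) (nat_lit 53) (.e (nat_lit 761866) (nat_lit 5) .nil))))))) (.g (nat_lit 5) .nil .nil))) 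
(.lf (nat_lit 57591) (.g (nat_lit 2231) (.e (nat_lit 1448) (nat_lit 108) (.e (nat_lit 336205) (nat_lit 12) (.e (nat_lit 385105) (nat_lit 50) (.e (nat_lit 786478) (nat_lit 29) (.e (nat_lit 352270) (nat_lit 8) (.e (nat_lit 262148) (nat_lit 0) .nil)))))) (.g (nat_lit 4) .nil .nil))))) (.nd (nat_lit 4) (.nd (nat_lit 5) 
(.lf (nat_lit 57551) (.g (nat_lit 3386) (.e (nat_lit 1448) (nat_lit 108) (.e (nat_lit 336028) (nat_lit 3) (.e (nat_lit 98372) (nat_lit 29) (.e (nat_lit 450586) (nat_lit 10) (.e (nat_lit 573473) (nat_lit 12) (.e (nat_lit 57569) (nat_lit 53) (.e (nat_lit 761867) (nat_lit 5) .nil))))))) (.g (nat_lit 7) .nil .nil))) 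
(.lf (nat_lit 57583) (.g (nat_lit 5491) (.e (nat_lit 1448) (nat_lit 108) (.e (nat_lit 336060) (nat_lit 7) (.e (nat_lit 319534) (nat_lit 16) (.e (nat_lit 286756) (nat_lit 10) (.e (nat_lit 344160) (nat_lit 37) (.e (nat_lit 647195) (nat_lit 9) (.e (nat_lit 1181) (nat_lit 87) (.e (nat_lit 57666) (nat_lit 152) (.e (nat_lit 1077) (nat_lit 81) .nil))))))))) (.g (nat_lit 9) .nil .nil)))) (.nd (nat_lit 5) 
(.lf (nat_lit 57567) (.g (nat_lit 4151) (.e (nat_lit 1448) (nat_lit 108) (.e (nat_lit 336028) (nat_lit 3) (.e (nat_lit 98373) (nat_lit 29) (.e (nat_lit 450588) (nat_lit 10) (.e (nat_lit 573475) (nat_lit 12) (.e (nat_lit 57569) (nat_lit 53) (.e (nat_lit 761866) (nat_lit 5) .nil))))))) (.g (nat_lit 6) .nil .nil))) 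
(.lf (nat_lit 57599) (.g (nat_lit 1830) (.e (nat_lit 1448) (nat_lit 108) (.e (nat_lit 336224) (nat_lit 13) (.e (nat_lit 393234) (nat_lit 17) (.e (nat_lit 7593) (nat_lit 407) (.e (nat_lit 73772) (nat_lit 24) (.e (nat_lit 761867) (nat_lit 5) .nil)))))) (.g (nat_lit 6) .nil .nil)))))))))

noncomputable def tv792 : DT := (.nd (nat_lit 0) (.nd (nat_lit 1) (.nd (nat_lit 2) (.nd (nat_lit 3) (.nd (nat_lit 4) (.nd (nat_lit 5) 
(.lf (nat_lit 57600) (.g (nat_lit 2096) (.e (nat_lit 1448) (nat_lit 108) (.e (nat_lit 336224) (nat_lit 13) (.e (nat_lit 393234) (nat_lit 17) (.e (nat_lit 7593) (nat_lit 407) (.e (nat_lit 73772) (nat_lit 24) (.e (nat_lit 761869) (nat_lit 5) .nil)))))) (.g (nat_lit 0) .nil .nil))) 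
(.lf (nat_lit 57632) (.g (nat_lit 2328) (.e (nat_lit 1449) (nat_lit 108) (.e (nat_lit 336013) (nat_lit 2) (.e (nat_lit 90170) (nat_lit 13) (.e (nat_lit 172106) (nat_lit 10) (.e (nat_lit 434231) (nat_lit 23) (.e (nat_lit 532490) (nat_lit 0) (.e (nat_lit 1040) (nat_lit 81) (.e (nat_lit 4511) (nat_lit 263) (.e (nat_lit 1010) (nat_lit 81) .nil))))))))) (.g (nat_lit 5) .nil .nil)))) (.nd (nat_lit 5) 
(.lf (nat_lit 57616) (.g (nat_lit 2643) (.e (nat_lit 1449) (nat_lit 108) (.e (nat_lit 336013) (nat_lit 2) (.e (nat_lit 90170) (nat_lit 13) (.e (nat_lit 172079) (nat_lit 7) .nil)))) .nil)) 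
(.lf (nat_lit 57648) (.g (nat_lit 3200) (.e (nat_lit 1449) (nat_lit 108) (.e (nat_lit 336013) (nat_lit 2) (.e (nat_lit 90170) (nat_lit 13) (.e (nat_lit 172106) (nat_lit 10) (.e (nat_lit 434244) (nat_lit 28) (.e (nat_lit 573451) (nat_lit 9) (.e (nat_lit 1032) (nat_lit 81) (.e (nat_lit 2281) (nat_lit 150) (.e (nat_lit 770058) (nat_lit 5) .nil))))))))) (.g (nat_lit 6) .nil .nil))))) 
(.nd (nat_lit 4) (.nd (nat_lit 5) 
(.lf (nat_lit 57608) (.g (nat_lit 2626) (.e (nat_lit 1449) (nat_lit 108) (.e (nat_lit 336013) (nat_lit 2) (.e (nat_lit 90134) (nat_lit 9) (.e (nat_lit 220) (nat_lit 20) .nil)))) .nil)) 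
(.lf (nat_lit 57640) (.g (nat_lit 3813) (.e (nat_lit 1449) (nat_lit 108) (.e (nat_lit 336013) (nat_lit 2) (.e (nat_lit 90170) (nat_lit 13) (.e (nat_lit 172106) (nat_lit 10) (.e (nat_lit 434231) (nat_lit 23) (.e (nat_lit 532490) (nat_lit 0) (.e (nat_lit 1909) (nat_lit 129) (.e (nat_lit 598025) (nat_lit 5) .nil)))))))) (.g (nat_lit 6) .nil .nil)))) (.nd (nat_lit 5) 
(.lf (nat_lit 57624) (.g (nat_lit 5291) (.e (nat_lit 1449) (nat_lit 108) (.e (nat_lit 336013) (nat_lit 2) (.e (nat_lit 90170) (nat_lit 13) (.e (nat_lit 172106) (nat_lit 10) (.e (nat_lit 434231) (nat_lit 23) (.e (nat_lit 532481) (nat_lit 0) (.e (nat_lit 1911) (nat_lit 129) (.e (nat_lit 598025) (nat_lit 5) .nil)))))))) (.g (nat_lit 7) .nil .nil))) 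
(.lf (nat_lit 57656) (.g (nat_lit 2812) (.e (nat_lit 1449) (nat_lit 108) (.e (nat_lit 336013) (nat_lit 2) (.e (nat_lit 90170) (nat_lit 13) (.e (nat_lit 172113) (nat_lit 10) (.e (nat_lit 434242) (nat_lit 28) .nil))))) .nil))))) (.nd (nat_lit 3) (.nd (nat_lit 4) (.nd (nat_lit 5) 
(.lf (nat_lit 57604) (.g (nat_lit 2765) (.e (nat_lit 1448) (nat_lit 108) (.e (nat_lit 336224) (nat_lit 13) (.e (nat_lit 393301) (nat_lit 27) (.e (nat_lit 491558) (nat_lit 10) (.e (nat_lit 344174) (nat_lit 42) (.e (nat_lit 761869) (nat_lit 5) .nil)))))) (.g (nat_lit 6) .nil .nil))) 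
(.lf (nat_lit 57636) (.g (nat_lit 4198) (.e (nat_lit 1449) (nat_lit 108) (.e (nat_lit 336013) (nat_lit 2) (.e (nat_lit 90170) (nat_lit 13) (.e (nat_lit 172106) (nat_lit 10) (.e (nat_lit 434231) (nat_lit 23) (.e (nat_lit 532490) (nat_lit 0) (.e (nat_lit 1907) (nat_lit 129) (.e (nat_lit 598024) (nat_lit 5) .nil)))))))) (.g (nat_lit 8) .nil .nil)))) (.nd (nat_lit 5) 
(.lf (nat_lit 57620) (.g (nat_lit 5189) (.e (nat_lit 1449) (nat_lit 108) (.e (nat_lit 336013) (nat_lit 2) (.e (nat_lit 90170) (nat_lit 13) (.e (nat_lit 172106) (nat_lit 10) (.e (nat_lit 434231) (nat_lit 23) (.e (nat_lit 532481) (nat_lit 0) (.e (nat_lit 1905) (nat_lit 129) (.e (nat_lit 598025) (nat_lit 5) .nil)))))))) (.g (nat_lit 8) .nil .nil))) 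
(.lf (nat_lit 57652) (.g (nat_lit 3437) (.e (nat_lit 1449) (nat_lit 108) (.e (nat_lit 336013) (nat_lit 2) (.e (nat_lit 90170) (nat_lit 13) (.e (nat_lit 172106) (nat_lit 10) (.e (nat_lit 434244) (nat_lit 28) (.e (nat_lit 573473) (nat_lit 12) (.e (nat_lit 57348) (nat_lit 0) (.e (nat_lit 7124) (nat_lit 382) (.e (nat_lit 1016) (nat_lit 81) .nil))))))))) (.g (nat_lit 5) .nil .nil))))) 
(.nd (nat_lit 4) (.nd (nat_lit 5) 
(.lf (nat_lit 57612) (.g (nat_lit 813) (.e (nat_lit 1449) (nat_lit 108) (.e (nat_lit 336013) (nat_lit 2) (.e (nat_lit 90165) (nat_lit 12) .nil))) .nil)) 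
(.lf (nat_lit 57644) (.g (nat_lit 4754) (.e (nat_lit 1449) (nat_lit 108) (.e (nat_lit 336013) (nat_lit 2) (.e (nat_lit 90170) (nat_lit 13) (.e (nat_lit 172106) (nat_lit 10) (.e (nat_lit 434231) (nat_lit 23) (.e (nat_lit 532500) (nat_lit 1) (.e (nat_lit 57766) (nat_lit 221) (.e (nat_lit 1011) (nat_lit 81) .nil)))))))) (.g (nat_lit 6) .nil .nil)))) (.nd (nat_lit 5) 
(.lf (nat_lit 57628) (.g (nat_lit 4103) (.e (nat_lit 1449) (nat_lit 108) (.e (nat_lit 336013) (nat_lit 2) (.e (nat_lit 90170) (nat_lit 13) (.e (nat_lit 172106) (nat_lit 10) (.e (nat_lit 434231) (nat_lit 23) (.e (nat_lit 532483) (nat_lit 0) (.e (nat_lit 1912) (nat_lit 129) (.e (nat_lit 598022) (nat_lit 5) .nil)))))))) (.g (nat_lit 8) .nil .nil))) 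
(.lf (nat_lit 57660) (.g (nat_lit 2819) (.e (nat_lit 1449) (nat_lit 108) (.e (nat_lit 336013) (nat_lit 2) (.e (nat_lit 90170) (nat_lit 13) (.e (nat_lit 172113) (nat_lit 10) (.e (nat_lit 434242) (nat_lit 28) (.e (nat_lit 573474) (nat_lit 12) (.e (nat_lit 57570) (nat_lit 54) (.e (nat_lit 770055) (nat_lit 5) .nil)))))))) (.g (nat_lit 4) .nil .nil))))))) 
(.nd (nat_lit 2) (.nd (nat_lit 3) (.nd (nat_lit 4) (.nd (nat_lit 5) 
(.lf (nat_lit 57602) (.g (nat_lit 2744) (.e (nat_lit 1448) (nat_lit 108) (.e (nat_lit 336224) (nat_lit 13) (.e (nat_lit 393301) (nat_lit 27) (.e (nat_lit 491558) (nat_lit 10) (.e (nat_lit 344174) (nat_lit 42) (.e (nat_lit 761866) (nat_lit 5) .nil)))))) (.g (nat_lit 6) .nil .nil))) 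
(.lf (nat_lit 57634) (.g (nat_lit 4030) (.e (nat_lit 1449) (nat_lit 108) (.e (nat_lit 336013) (nat_lit 2) (.e (nat_lit 90170) (nat_lit 13) (.e (nat_lit 172106) (nat_lit 10) (.e (nat_lit 434231) (nat_lit 23) (.e (nat_lit 532490) (nat_lit 0) (.e (nat_lit 1905) (nat_lit 129) (.e (nat_lit 598024) (nat_lit 5) .nil)))))))) (.g (nat_lit 6) .nil .nil)))) (.nd (nat_lit 5) 
(.lf (nat_lit 57618) (.g (nat_lit 3681) (.e (nat_lit 1449) (nat_lit 108) (.e (nat_lit 336013) (nat_lit 2) (.e (nat_lit 90170) (nat_lit 13) (.e (nat_lit 172106) (nat_lit 10) (.e (nat_lit 434231) (nat_lit 23) (.e (nat_lit 532481) (nat_lit 0) (.e (nat_lit 996) (nat_lit 81) (.e (nat_lit 4484) (nat_lit 263) (.e (nat_lit 1009) (nat_lit 81) .nil))))))))) (.g (nat_lit 5) .nil .nil))) 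
(.lf (nat_lit 57650) (.g (nat_lit 2046) (.e (nat_lit 1449) (nat_lit 108) (.e (nat_lit 336013) (nat_lit 2) (.e (nat_lit 90170) (nat_lit 13) (.e (nat_lit 172106) (nat_lit 10) (.e (nat_lit 434244) (nat_lit 28) (.e (nat_lit 573468) (nat_lit 10) (.e (nat_lit 8193) (nat_lit 0) (.e (nat_lit 4445) (nat_lit 263) (.e (nat_lit 994) (nat_lit 81) .nil))))))))) (.g (nat_lit 5) .nil .nil))))) 
(.nd (nat_lit 4) (.nd (nat_lit 5) 
(.lf (nat_lit 57610) (.g (nat_lit 3564) (.e (nat_lit 1449) (nat_lit 108) (.e (nat_lit 336013) (nat_lit 2) (.e (nat_lit 90160) (nat_lit 11) (.e (nat_lit 24671) (nat_lit 15) (.e (nat_lit 7936) (nat_lit 195) (.e (nat_lit 516160) (nat_lit 10) (.e (nat_lit 434244) (nat_lit 28) (.e (nat_lit 573451) (nat_lit 9) .nil)))))))) (.g (nat_lit 4) .nil .nil))) 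
(.lf (nat_lit 57642) (.g (nat_lit 4742) (.e (nat_lit 1449) (nat_lit 108) (.e (nat_lit 336013) (nat_lit 2) (.e (nat_lit 90170) (nat_lit 13) (.e (nat_lit 172106) (nat_lit 10) (.e (nat_lit 434231) (nat_lit 23) (.e (nat_lit 532499) (nat_lit 1) (.e (nat_lit 57766) (nat_lit 221) (.e (nat_lit 1009) (nat_lit 81) .nil)))))))) (.g (nat_lit 6) .nil .nil)))) (.nd (nat_lit 5) 
(.lf (nat_lit 57626) (.g (nat_lit 3749) (.e (nat_lit 1449) (nat_lit 108) (.e (nat_lit 336013) (nat_lit 2) (.e (nat_lit 90170) (nat_lit 13) (.e (nat_lit 172106) (nat_lit 10) (.e (nat_lit 434231) (nat_lit 23) (.e (nat_lit 532481) (nat_lit 0) (.e (nat_lit 1912) (nat_lit 129) (.e (nat_lit 598025) (nat_lit 5) .nil)))))))) (.g (nat_lit 5) .nil .nil))) 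
(.lf (nat_lit 57658) (.g (nat_lit 3002) (.e (nat_lit 1449) (nat_lit 108) (.e (nat_lit 336013) (nat_lit 2) (.e (nat_lit 90170) (nat_lit 13) (.e (nat_lit 172113) (nat_lit 10) (.e (nat_lit 434242) (nat_lit 28) (.e (nat_lit 573474) (nat_lit 12) (.e (nat_lit 57348) (nat_lit 0) (.e (nat_lit 7236) (nat_lit 382) (.e (nat_lit 1015) (nat_lit 81) .nil))))))))) (.g (nat_lit 4) .nil .nil)))))) 
(.nd (nat_lit 3) (.nd (nat_lit 4) (.nd (nat_lit 5) 
(.lf (nat_lit 57606) (.g (nat_lit 2101) (.e (nat_lit 1448) (nat_lit 108) (.e (nat_lit 336224) (nat_lit 13) (.e (nat_lit 393301) (nat_lit 27) (.e (nat_lit 491560) (nat_lit 10) (.e (nat_lit 344173) (nat_lit 42) (.e (nat_lit 761867) (nat_lit 5) .nil)))))) (.g (nat_lit 6) .nil .nil))) 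
(.lf (nat_lit 57638) (.g (nat_lit 3608) (.e (nat_lit 1449) (nat_lit 108) (.e (nat_lit 336013) (nat_lit 2) (.e (nat_lit 90170) (nat_lit 13) (.e (nat_lit 172106) (nat_lit 10) (.e (nat_lit 434231) (nat_lit 23) (.e (nat_lit 532490) (nat_lit 0) (.e (nat_lit 1908) (nat_lit 129) (.e (nat_lit 598025) (nat_lit 5) .nil)))))))) (.g (nat_lit 6) .nil .nil)))) (.nd (nat_lit 5) 
(.lf (nat_lit 57622) (.g (nat_lit 5371) (.e (nat_lit 1449) (nat_lit 108) (.e (nat_lit 336013) (nat_lit 2) (.e (nat_lit 90170) (nat_lit 13) (.e (nat_lit 172106) (nat_lit 10) (.e (nat_lit 434231) (nat_lit 23) (.e (nat_lit 532481) (nat_lit 0) (.e (nat_lit 1906) (nat_lit 129) (.e (nat_lit 598025) (nat_lit 5) .nil)))))))) (.g (nat_lit 8) .nil .nil))) 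
(.lf (nat_lit 57654) (.g (nat_lit 4334) (.e (nat_lit 1449) (nat_lit 108) (.e (nat_lit 336013) (nat_lit 2) (.e (nat_lit 90170) (nat_lit 13) (.e (nat_lit 172106) (nat_lit 10) (.e (nat_lit 434244) (nat_lit 28) (.e (nat_lit 573474) (nat_lit 12) (.e (nat_lit 57570) (nat_lit 54) (.e (nat_lit 770058) (nat_lit 5) .nil)))))))) (.g (nat_lit 6) .nil .nil))))) (.nd (nat_lit 4) (.nd (nat_lit 5) 
(.lf (nat_lit 57614) (.g (nat_lit 2340) (.e (nat_lit 1449) (nat_lit 108) (.e (nat_lit 336013) (nat_lit 2) (.e (nat_lit 90165) (nat_lit 12) (.e (nat_lit 164016) (nat_lit 44) .nil)))) .nil)) 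
(.lf (nat_lit 57646) (.g (nat_lit 3858) (.e (nat_lit 1449) (nat_lit 108) (.e (nat_lit 336013) (nat_lit 2) (.e (nat_lit 90170) (nat_lit 13) (.e (nat_lit 172106) (nat_lit 10) (.e (nat_lit 434231) (nat_lit 23) (.e (nat_lit 532500) (nat_lit 1) (.e (nat_lit 65280) (nat_lit 221) (.e (nat_lit 1010) (nat_lit 81) .nil)))))))) (.g (nat_lit 5) .nil .nil)))) (.nd (nat_lit 5) 
(.lf (nat_lit 57630) (.g (nat_lit 1609) (.e (nat_lit 1449) (nat_lit 108) (.e (nat_lit 336013) (nat_lit 2) (.e (nat_lit 90170) (nat_lit 13) (.e (nat_lit 172106) (nat_lit 10) (.e (nat_lit 434231) (nat_lit 23) (.e (nat_lit 532486) (nat_lit 0) (.e (nat_lit 973) (nat_lit 81) (.e (nat_lit 4491) (nat_lit 263) (.e (nat_lit 1015) (nat_lit 81) .nil))))))))) (.g (nat_lit 4) .nil .nil))) 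
(.lf (nat_lit 57662) (.g (nat_lit 2952) (.e (nat_lit 1449) (nat_lit 108) (.e (nat_lit 336013) (nat_lit 2) (.e (nat_lit 90170) (nat_lit 13) (.e (nat_lit 172113) (nat_lit 10) (.e (nat_lit 434245) (nat_lit 28) .nil))))) .nil))))))) (.nd (nat_lit 1) (.nd (nat_lit 2) (.nd (nat_lit 3) (.nd (nat_lit 4) (.nd (nat_lit 5) 
(.lf (nat_lit 57601) (.g (nat_lit 1775) (.e (nat_lit 1448) (nat_lit 108) (.e (nat_lit 336224) (nat_lit 13) (.e (nat_lit 393301) (nat_lit 27) (.e (nat_lit 491558) (nat_lit 10) (.e (nat_lit 344174) (nat_lit 42) .nil))))) .nil)) 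
(.lf (nat_lit 57633) (.g (nat_lit 3424) (.e (nat_lit 1449) (nat_lit 108) (.e (nat_lit 336013) (nat_lit 2) (.e (nat_lit 90170) (nat_lit 13) (.e (nat_lit 172106) (nat_lit 10) (.e (nat_lit 434231) (nat_lit 23) (.e (nat_lit 532490) (nat_lit 0) (.e (nat_lit 1040) (nat_lit 81) (.e (nat_lit 4511) (nat_lit 263) (.e (nat_lit 1011) (nat_lit 81) .nil))))))))) (.g (nat_lit 6) .nil .nil)))) (.nd (nat_lit 5) 
(.lf (nat_lit 57617) (.g (nat_lit 3838) (.e (nat_lit 1449) (nat_lit 108) (.e (nat_lit 336013) (nat_lit 2) (.e (nat_lit 90170) (nat_lit 13) (.e (nat_lit 172106) (nat_lit 10) (.e (nat_lit 434231) (nat_lit 23) (.e (nat_lit 532481) (nat_lit 0) (.e (nat_lit 996) (nat_lit 81) (.e (nat_lit 4482) (nat_lit 263) (.e (nat_lit 1006) (nat_lit 81) .nil))))))))) (.g (nat_lit 5) .nil .nil))) 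
(.lf (nat_lit 57649) (.g (nat_lit 2037) (.e (nat_lit 1449) (nat_lit 108) (.e (nat_lit 336013) (nat_lit 2) (.e (nat_lit 90170) (nat_lit 13) (.e (nat_lit 172106) (nat_lit 10) (.e (nat_lit 434244) (nat_lit 28) (.e (nat_lit 573468) (nat_lit 10) (.e (nat_lit 8193) (nat_lit 0) (.e (nat_lit 4445) (nat_lit 263) (.e (nat_lit 988) (nat_lit 81) .nil))))))))) (.g (nat_lit 5) .nil .nil))))) 
(.nd (nat_lit 4) (.nd (nat_lit 5) 
(.lf (nat_lit 57609) (.g (nat_lit 2577) (.e (nat_lit 1449) (nat_lit 108) (.e (nat_lit 336013) (nat_lit 2) (.e (nat_lit 90134) (nat_lit 9) (.e (nat_lit 3009) (nat_lit 187) .nil)))) .nil)) 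
(.lf (nat_lit 57641) (.g (nat_lit 4223) (.e (nat_lit 1449) (nat_lit 108) (.e (nat_lit 336013) (nat_lit 2) (.e (nat_lit 90170) (nat_lit 13) (.e (nat_lit 172106) (nat_lit 10) (.e (nat_lit 434231) (nat_lit 23) (.e (nat_lit 532490) (nat_lit 0) (.e (nat_lit 1910) (nat_lit 129) (.e (nat_lit 598025) (nat_lit 5) .nil)))))))) (.g (nat_lit 0) .nil .nil)))) (.nd (nat_lit 5) 
(.lf (nat_lit 57625) (.g (nat_lit 5112) (.e (nat_lit 1449) (nat_lit 108) (.e (nat_lit 336013) (nat_lit 2) (.e (nat_lit 90170) (nat_lit 13) (.e (nat_lit 172106) (nat_lit 10) (.e (nat_lit 434231) (nat_lit 23) (.e (nat_lit 532481) (nat_lit 0) (.e (nat_lit 1912) (nat_lit 129) (.e (nat_lit 598022) (nat_lit 5) .nil)))))))) (.g (nat_lit 8) .nil .nil))) 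
(.lf (nat_lit 57657) (.g (nat_lit 4624) (.e (nat_lit 1449) (nat_lit 108) (.e (nat_lit 336013) (nat_lit 2) (.e (nat_lit 90170) (nat_lit 13) (.e (nat_lit 172113) (nat_lit 10) (.e (nat_lit 434242) (nat_lit 28) (.e (nat_lit 573474) (nat_lit 12) (.e (nat_lit 57347) (nat_lit 0) (.e (nat_lit 7124) (nat_lit 382) (.e (nat_lit 1016) (nat_lit 81) .nil))))))))) (.g (nat_lit 6) .nil .nil)))))) 
(.nd (nat_lit 3) (.nd (nat_lit 4) (.nd (nat_lit 5) 
(.lf (nat_lit 57605) (.g (nat_lit 2044) (.e (nat_lit 1448) (nat_lit 108) (.e (nat_lit 336224) (nat_lit 13) (.e (nat_lit 393301) (nat_lit 27) (.e (nat_lit 491560) (nat_lit 10) (.e (nat_lit 344173) (nat_lit 42) (.e (nat_lit 761866) (nat_lit 5) .nil)))))) (.g (nat_lit 5) .nil .nil))) 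
(.lf (nat_lit 57637) (.g (nat_lit 3947) (.e (nat_lit 1449) (nat_lit 108) (.e (nat_lit 336013) (nat_lit 2) (.e (nat_lit 90170) (nat_lit 13) (.e (nat_lit 172106) (nat_lit 10) (.e (nat_lit 434231) (nat_lit 23) (.e (nat_lit 532490) (nat_lit 0) (.e (nat_lit 1907) (nat_lit 129) (.e (nat_lit 598025) (nat_lit 5) .nil)))))))) (.g (nat_lit 6) .nil .nil)))) (.nd (nat_lit 5) 
(.lf (nat_lit 57621) (.g (nat_lit 5186) (.e (nat_lit 1449) (nat_lit 108) (.e (nat_lit 336013) (nat_lit 2) (.e (nat_lit 90170) (nat_lit 13) (.e (nat_lit 172106) (nat_lit 10) (.e (nat_lit 434231) (nat_lit 23) (.e (nat_lit 532481) (nat_lit 0) (.e (nat_lit 1906) (nat_lit 129) (.e (nat_lit 598024) (nat_lit 5) .nil)))))))) (.g (nat_lit 7) .nil .nil))) 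
(.lf (nat_lit 57653) (.g (nat_lit 3326) (.e (nat_lit 1449) (nat_lit 108) (.e (nat_lit 336013) (nat_lit 2) (.e (nat_lit 90170) (nat_lit 13) (.e (nat_lit 172106) (nat_lit 10) (.e (nat_lit 434244) (nat_lit 28) (.e (nat_lit 573473) (nat_lit 12) (.e (nat_lit 57353) (nat_lit 0) (.e (nat_lit 7124) (nat_lit 382) (.e (nat_lit 1016) (nat_lit 81) .nil))))))))) (.g (nat_lit 5) .nil .nil))))) 
(.nd (nat_lit 4) (.nd (nat_lit 5) 
(.lf (nat_lit 57613) (.g (nat_lit 2443) (.e (nat_lit 1449) (nat_lit 108) (.e (nat_lit 336013) (nat_lit 2) (.e (nat_lit 90165) (nat_lit 12) (.e (nat_lit 163848) (nat_lit 0) .nil)))) .nil)) 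
(.lf (nat_lit 57645) (.g (nat_lit 5186) (.e (nat_lit 1449) (nat_lit 108) (.e (nat_lit 336013) (nat_lit 2) (.e (nat_lit 90170) (nat_lit 13) (.e (nat_lit 172106) (nat_lit 10) (.e (nat_lit 434231) (nat_lit 23) (.e (nat_lit 532500) (nat_lit 1) (.e (nat_lit 57767) (nat_lit 221) (.e (nat_lit 1009) (nat_lit 81) .nil)))))))) (.g (nat_lit 8) .nil .nil)))) (.nd (nat_lit 5) 
(.lf (nat_lit 57629) (.g (nat_lit 3473) (.e (nat_lit 1449) (nat_lit 108) (.e (nat_lit 336013) (nat_lit 2) (.e (nat_lit 90170) (nat_lit 13) (.e (nat_lit 172106) (nat_lit 10) (.e (nat_lit 434231) (nat_lit 23) (.e (nat_lit 532483) (nat_lit 0) (.e (nat_lit 1912) (nat_lit 129) (.e (nat_lit 598024) (nat_lit 5) .nil)))))))) (.g (nat_lit 5) .nil .nil))) 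
(.lf (nat_lit 57661) (.g (nat_lit 3258) (.e (nat_lit 1449) (nat_lit 108) (.e (nat_lit 336013) (nat_lit 2) (.e (nat_lit 90170) (nat_lit 13) (.e (nat_lit 172113) (nat_lit 10) (.e (nat_lit 434243) (nat_lit 28) .nil))))) .nil)))))) (.nd (nat_lit 2) (.nd (nat_lit 3) (.nd (nat_lit 4) (.nd (nat_lit 5) 
(.lf (nat_lit 57603) (.g (nat_lit 2636) (.e (nat_lit 1448) (nat_lit 108) (.e (nat_lit 336224) (nat_lit 13) (.e (nat_lit 393301) (nat_lit 27) (.e (nat_lit 491558) (nat_lit 10) (.e (nat_lit 344174) (nat_lit 42) (.e (nat_lit 761867) (nat_lit 5) .nil)))))) (.g (nat_lit 6) .nil .nil))) 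
(.lf (nat_lit 57635) (.g (nat_lit 4248) (.e (nat_lit 1449) (nat_lit 108) (.e (nat_lit 336013) (nat_lit 2) (.e (nat_lit 90170) (nat_lit 13) (.e (nat_lit 172106) (nat_lit 10) (.e (nat_lit 434231) (nat_lit 23) (.e (nat_lit 532490) (nat_lit 0) (.e (nat_lit 1905) (nat_lit 129) (.e (nat_lit 598025) (nat_lit 5) .nil)))))))) (.g (nat_lit 8) .nil .nil)))) (.nd (nat_lit 5) 
(.lf (nat_lit 57619) (.g (nat_lit 4981) (.e (nat_lit 1449) (nat_lit 108) (.e (nat_lit 336013) (nat_lit 2) (.e (nat_lit 90170) (nat_lit 13) (.e (nat_lit 172106) (nat_lit 10) (.e (nat_lit 434231) (nat_lit 23) (.e (nat_lit 532481) (nat_lit 0) (.e (nat_lit 1905) (nat_lit 129) (.e (nat_lit 598024) (nat_lit 5) .nil)))))))) (.g (nat_lit 7) .nil .nil))) 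
(.lf (nat_lit 57651) (.g (nat_lit 2106) (.e (nat_lit 1449) (nat_lit 108) (.e (nat_lit 336013) (nat_lit 2) (.e (nat_lit 90170) (nat_lit 13) (.e (nat_lit 172106) (nat_lit 10) (.e (nat_lit 434244) (nat_lit 28) (.e (nat_lit 573468) (nat_lit 10) (.e (nat_lit 8193) (nat_lit 0) (.e (nat_lit 4445) (nat_lit 263) (.e (nat_lit 995) (nat_lit 81) .nil))))))))) (.g (nat_lit 5) .nil .nil))))) 
(.nd (nat_lit 4) (.nd (nat_lit 5) 
(.lf (nat_lit 57611) (.g (nat_lit 2829) (.e (nat_lit 1449) (nat_lit 108) (.e (nat_lit 336013) (nat_lit 2) (.e (nat_lit 90164) (nat_lit 12) (.e (nat_lit 164017) (nat_lit 44) (.e (nat_lit 688171) (nat_lit 15) (.e (nat_lit 57478) (nat_lit 28) (.e (nat_lit 557105) (nat_lit 14) (.e (nat_lit 180252) (nat_lit 10) (.e (nat_lit 573451) (nat_lit 9) .nil))))))))) (.g (nat_lit 4) .nil .nil))) 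
(.lf (nat_lit 57643) (.g (nat_lit 4845) (.e (nat_lit 1449) (nat_lit 108) (.e (nat_lit 336013) (nat_lit 2) (.e (nat_lit 90170) (nat_lit 13) (.e (nat_lit 172106) (nat_lit 10) (.e (nat_lit 434231) (nat_lit 23) (.e (nat_lit 532499) (nat_lit 1) (.e (nat_lit 65280) (nat_lit 221) (.e (nat_lit 1011) (nat_lit 81) .nil)))))))) (.g (nat_lit 6) .nil .nil)))) (.nd (nat_lit 5) 
(.lf (nat_lit 57627) (.g (nat_lit 3410) (.e (nat_lit 1449) (nat_lit 108) (.e (nat_lit 336013) (nat_lit 2) (.e (nat_lit 90170) (nat_lit 13) (.e (nat_lit 172106) (nat_lit 10) (.e (nat_lit 434231) (nat_lit 23) (.e (nat_lit 532483) (nat_lit 0) (.e (nat_lit 1905) (nat_lit 129) (.e (nat_lit 598025) (nat_lit 5) .nil)))))))) (.g (nat_lit 5) .nil .nil))) 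
(.lf (nat_lit 57659) (.g (nat_lit 2976) (.e (nat_lit 1449) (nat_lit 108) (.e (nat_lit 336013) (nat_lit 2) (.e (nat_lit 90170) (nat_lit 13) (.e (nat_lit 172113) (nat_lit 10) (.e (nat_lit 434242) (nat_lit 28) (.e (nat_lit 573474) (nat_lit 12) (.e (nat_lit 57351) (nat_lit 0) (.e (nat_lit 7122) (nat_lit 382) (.e (nat_lit 1016) (nat_lit 81) .nil))))))))) (.g (nat_lit 4) .nil .nil)))))) 
(.nd (nat_lit 3) (.nd (nat_lit 4) (.nd (nat_lit 5) 
(.lf (nat_lit 57607) (.g (nat_lit 1118) (.e (nat_lit 1449) (nat_lit 108) (.e (nat_lit 336013) (nat_lit 2) (.e (nat_lit 90119) (nat_lit 0) .nil))) .nil)) 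
(.lf (nat_lit 57639) (.g (nat_lit 3776) (.e (nat_lit 1449) (nat_lit 108) (.e (nat_lit 336013) (nat_lit 2) (.e (nat_lit 90170) (nat_lit 13) (.e (nat_lit 172106) (nat_lit 10) (.e (nat_lit 434231) (nat_lit 23) (.e (nat_lit 532490) (nat_lit 0) (.e (nat_lit 1909) (nat_lit 129) (.e (nat_lit 598024) (nat_lit 5) .nil)))))))) (.g (nat_lit 6) .nil .nil)))) (.nd (nat_lit 5) 
(.lf (nat_lit 57623) (.g (nat_lit 5250) (.e (nat_lit 1449) (nat_lit 108) (.e (nat_lit 336013) (nat_lit 2) (.e (nat_lit 90170) (nat_lit 13) (.e (nat_lit 172106) (nat_lit 10) (.e (nat_lit 434231) (nat_lit 23) (.e (nat_lit 532481) (nat_lit 0) (.e (nat_lit 1911) (nat_lit 129) (.e (nat_lit 598024) (nat_lit 5) .nil)))))))) (.g (nat_lit 7) .nil .nil))) 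
(.lf (nat_lit 57655) (.g (nat_lit 3170) (.e (nat_lit 1449) (nat_lit 108) (.e (nat_lit 336013) (nat_lit 2) (.e (nat_lit 90170) (nat_lit 13) (.e (nat_lit 172110) (nat_lit 10) .nil)))) .nil)))) (.nd (nat_lit 4) (.nd (nat_lit 5) 
(.lf (nat_lit 57615) (.g (nat_lit 2307) (.e (nat_lit 1449) (nat_lit 108) (.e (nat_lit 336013) (nat_lit 2) (.e (nat_lit 90165) (nat_lit 12) (.e (nat_lit 164208) (nat_lit 176) .nil)))) .nil)) 
(.lf (nat_lit 57647) (.g (nat_lit 2825) (.e (nat_lit 1449) (nat_lit 108) (.e (nat_lit 336013) (nat_lit 2) (.e (nat_lit 90170) (nat_lit 13) (.e (nat_lit 172106) (nat_lit 10) (.e (nat_lit 434243) (nat_lit 28) .nil))))) .nil))) (.nd (nat_lit 5) 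
(.lf (nat_lit 57631) (.g (nat_lit 4208) (.e (nat_lit 1449) (nat_lit 108) (.e (nat_lit 336013) (nat_lit 2) (.e (nat_lit 90170) (nat_lit 13) (.e (nat_lit 172106) (nat_lit 10) (.e (nat_lit 434231) (nat_lit 23) (.e (nat_lit 532490) (nat_lit 0) (.e (nat_lit 990) (nat_lit 81) (.e (nat_lit 4500) (nat_lit 263) (.e (nat_lit 1015) (nat_lit 81) .nil))))))))) (.g (nat_lit 6) .nil .nil))) 
(.lf (nat_lit 57663) (.g (nat_lit 3704) (.e (nat_lit 1449) (nat_lit 108) (.e (nat_lit 336013) (nat_lit 2) (.e (nat_lit 90170) (nat_lit 13) (.e (nat_lit 172113) (nat_lit 10) (.e (nat_lit 434245) (nat_lit 28) (.e (nat_lit 573473) (nat_lit 12) (.e (nat_lit 57348) (nat_lit 0) (.e (nat_lit 7122) (nat_lit 382) (.e (nat_lit 1016) (nat_lit 81) .nil))))))))) (.g (nat_lit 5) .nil .nil)))))))))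

noncomputable def tv793 : DT := (.nd (nat_lit 0) (.nd (nat_lit 1) (.nd (nat_lit 2) (.nd (nat_lit 3) (.nd (nat_lit 4) (.nd (nat_lit 5) 
(.lf (nat_lit 57664) (.g (nat_lit 3187) (.e (nat_lit 1449) (nat_lit 108) (.e (nat_lit 336013) (nat_lit 2) (.e (nat_lit 90170) (nat_lit 13) (.e (nat_lit 172113) (nat_lit 10) (.e (nat_lit 434245) (nat_lit 28) (.e (nat_lit 573473) (nat_lit 12) (.e (nat_lit 57353) (nat_lit 0) (.e (nat_lit 7125) (nat_lit 382) (.e (nat_lit 1016) (nat_lit 81) .nil))))))))) (.g (nat_lit 4) .nil .nil))) 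
(.lf (nat_lit 57696) (.g (nat_lit 3061) (.e (nat_lit 1449) (nat_lit 108) (.e (nat_lit 336013) (nat_lit 2) (.e (nat_lit 90170) (nat_lit 13) (.e (nat_lit 172113) (nat_lit 10) (.e (nat_lit 434248) (nat_lit 28) (.e (nat_lit 573475) (nat_lit 12) (.e (nat_lit 57346) (nat_lit 0) (.e (nat_lit 7233) (nat_lit 382) (.e (nat_lit 1015) (nat_lit 81) .nil))))))))) (.g (nat_lit 4) .nil .nil)))) (.nd (nat_lit 5) 
(.lf (nat_lit 57680) (.g (nat_lit 3209) (.e (nat_lit 1449) (nat_lit 108) (.e (nat_lit 336013) (nat_lit 2) (.e (nat_lit 90170) (nat_lit 13) (.e (nat_lit 172113) (nat_lit 10) (.e (nat_lit 434245) (nat_lit 28) (.e (nat_lit 573475) (nat_lit 12) (.e (nat_lit 57572) (nat_lit 54) (.e (nat_lit 770057) (nat_lit 5) .nil)))))))) (.g (nat_lit 4) .nil .nil))) 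
(.lf (nat_lit 57712) (.g (nat_lit 1871) (.e (nat_lit 1449) (nat_lit 108) (.e (nat_lit 336028) (nat_lit 3) (.e (nat_lit 98359) (nat_lit 26) (.e (nat_lit 426286) (nat_lit 10) (.e (nat_lit 434245) (nat_lit 28) (.e (nat_lit 573473) (nat_lit 12) (.e (nat_lit 57348) (nat_lit 0) (.e (nat_lit 7124) (nat_lit 382) (.e (nat_lit 1016) (nat_lit 81) .nil))))))))) (.g (nat_lit 4) .nil .nil))))) 
(.nd (nat_lit 4) (.nd (nat_lit 5) 
(.lf (nat_lit 57672) (.g (nat_lit 3698) (.e (nat_lit 1449) (nat_lit 108) (.e (nat_lit 336013) (nat_lit 2) (.e (nat_lit 90170) (nat_lit 13) (.e (nat_lit 172113) (nat_lit 10) (.e (nat_lit 434245) (nat_lit 28) (.e (nat_lit 573474) (nat_lit 12) (.e (nat_lit 57570) (nat_lit 54) (.e (nat_lit 770054) (nat_lit 5) .nil)))))))) (.g (nat_lit 5) .nil .nil))) 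
(.lf (nat_lit 57704) (.g (nat_lit 3883) (.e (nat_lit 1449) (nat_lit 108) (.e (nat_lit 336013) (nat_lit 2) (.e (nat_lit 90170) (nat_lit 13) (.e (nat_lit 172113) (nat_lit 10) (.e (nat_lit 434248) (nat_lit 28) (.e (nat_lit 573475) (nat_lit 12) (.e (nat_lit 57570) (nat_lit 54) (.e (nat_lit 770055) (nat_lit 5) .nil)))))))) (.g (nat_lit 5) .nil .nil)))) (.nd (nat_lit 5) 
(.lf (nat_lit 57688) (.g (nat_lit 3243) (.e (nat_lit 1449) (nat_lit 108) (.e (nat_lit 336013) (nat_lit 2) (.e (nat_lit 90170) (nat_lit 13) (.e (nat_lit 172113) (nat_lit 10) (.e (nat_lit 434247) (nat_lit 28) (.e (nat_lit 573478) (nat_lit 12) (.e (nat_lit 57570) (nat_lit 54) (.e (nat_lit 770055) (nat_lit 5) .nil)))))))) (.g (nat_lit 4) .nil .nil))) 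
(.lf (nat_lit 57720) (.g (nat_lit 2641) (.e (nat_lit 1449) (nat_lit 108) (.e (nat_lit 336028) (nat_lit 3) (.e (nat_lit 98372) (nat_lit 29) (.e (nat_lit 450588) (nat_lit 10) (.e (nat_lit 573474) (nat_lit 12) .nil))))) .nil))))) (.nd (nat_lit 3) (.nd (nat_lit 4) (.nd (nat_lit 5) 
(.lf (nat_lit 57668) (.g (nat_lit 3009) (.e (nat_lit 1449) (nat_lit 108) (.e (nat_lit 336013) (nat_lit 2) (.e (nat_lit 90170) (nat_lit 13) (.e (nat_lit 172113) (nat_lit 10) (.e (nat_lit 434245) (nat_lit 28) (.e (nat_lit 573474) (nat_lit 12) (.e (nat_lit 57349) (nat_lit 0) (.e (nat_lit 7220) (nat_lit 382) (.e (nat_lit 1006) (nat_lit 81) .nil))))))))) (.g (nat_lit 4) .nil .nil))) 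
(.lf (nat_lit 57700) (.g (nat_lit 3887) (.e (nat_lit 1449) (nat_lit 108) (.e (nat_lit 336013) (nat_lit 2) (.e (nat_lit 90170) (nat_lit 13) (.e (nat_lit 172113) (nat_lit 10) (.e (nat_lit 434248) (nat_lit 28) (.e (nat_lit 573475) (nat_lit 12) (.e (nat_lit 57353) (nat_lit 0) (.e (nat_lit 7124) (nat_lit 382) (.e (nat_lit 1016) (nat_lit 81) .nil))))))))) (.g (nat_lit 5) .nil .nil)))) (.nd (nat_lit 5) 
(.lf (nat_lit 57684) (.g (nat_lit 5236) (.e (nat_lit 1449) (nat_lit 108) (.e (nat_lit 336013) (nat_lit 2) (.e (nat_lit 90170) (nat_lit 13) (.e (nat_lit 172113) (nat_lit 10) (.e (nat_lit 434247) (nat_lit 28) (.e (nat_lit 573477) (nat_lit 12) (.e (nat_lit 57570) (nat_lit 54) (.e (nat_lit 770058) (nat_lit 5) .nil)))))))) (.g (nat_lit 8) .nil .nil))) 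
(.lf (nat_lit 57716) (.g (nat_lit 1342) (.e (nat_lit 1449) (nat_lit 108) (.e (nat_lit 336028) (nat_lit 3) (.e (nat_lit 98372) (nat_lit 29) (.e (nat_lit 450586) (nat_lit 10) .nil)))) .nil)))) (.nd (nat_lit 4) (.nd (nat_lit 5) 
(.lf (nat_lit 57676) (.g (nat_lit 3027) (.e (nat_lit 1449) (nat_lit 108) (.e (nat_lit 336013) (nat_lit 2) (.e (nat_lit 90170) (nat_lit 13) (.e (nat_lit 172113) (nat_lit 10) (.e (nat_lit 434245) (nat_lit 28) (.e (nat_lit 573474) (nat_lit 12) (.e (nat_lit 57571) (nat_lit 54) (.e (nat_lit 770058) (nat_lit 5) .nil)))))))) (.g (nat_lit 4) .nil .nil))) 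
(.lf (nat_lit 57708) (.g (nat_lit 2459) (.e (nat_lit 1449) (nat_lit 108) (.e (nat_lit 336013) (nat_lit 2) (.e (nat_lit 90170) (nat_lit 13) (.e (nat_lit 172126) (nat_lit 14) .nil)))) .nil))) (.nd (nat_lit 5) 
(.lf (nat_lit 57692) (.g (nat_lit 3874) (.e (nat_lit 1449) (nat_lit 108) (.e (nat_lit 336013) (nat_lit 2) (.e (nat_lit 90170) (nat_lit 13) (.e (nat_lit 172113) (nat_lit 10) (.e (nat_lit 434248) (nat_lit 28) (.e (nat_lit 573473) (nat_lit 12) (.e (nat_lit 57348) (nat_lit 0) (.e (nat_lit 7122) (nat_lit 382) (.e (nat_lit 1016) (nat_lit 81) .nil))))))))) (.g (nat_lit 5) .nil .nil))) 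
(.lf (nat_lit 57724) (.g (nat_lit 3856) (.e (nat_lit 1449) (nat_lit 108) (.e (nat_lit 336028) (nat_lit 3) (.e (nat_lit 98373) (nat_lit 29) (.e (nat_lit 450587) (nat_lit 10) (.e (nat_lit 573472) (nat_lit 12) (.e (nat_lit 57570) (nat_lit 54) (.e (nat_lit 770058) (nat_lit 5) .nil))))))) (.g (nat_lit 5) .nil .nil))))))) (.nd (nat_lit 2) (.nd (nat_lit 3) (.nd (nat_lit 4) (.nd (nat_lit 5) 
(.lf (nat_lit 57666) (.g (nat_lit 4645) (.e (nat_lit 1449) (nat_lit 108) (.e (nat_lit 336013) (nat_lit 2) (.e (nat_lit 90170) (nat_lit 13) (.e (nat_lit 172113) (nat_lit 10) (.e (nat_lit 434245) (nat_lit 28) (.e (nat_lit 573474) (nat_lit 12) (.e (nat_lit 57347) (nat_lit 0) (.e (nat_lit 7125) (nat_lit 382) (.e (nat_lit 1016) (nat_lit 81) .nil))))))))) (.g (nat_lit 6) .nil .nil))) 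
(.lf (nat_lit 57698) (.g (nat_lit 3970) (.e (nat_lit 1449) (nat_lit 108) (.e (nat_lit 336013) (nat_lit 2) (.e (nat_lit 90170) (nat_lit 13) (.e (nat_lit 172113) (nat_lit 10) (.e (nat_lit 434248) (nat_lit 28) (.e (nat_lit 573475) (nat_lit 12) (.e (nat_lit 57348) (nat_lit 0) (.e (nat_lit 7122) (nat_lit 382) (.e (nat_lit 1016) (nat_lit 81) .nil))))))))) (.g (nat_lit 5) .nil .nil)))) (.nd (nat_lit 5) 
(.lf (nat_lit 57682) (.g (nat_lit 3058) (.e (nat_lit 1449) (nat_lit 108) (.e (nat_lit 336013) (nat_lit 2) (.e (nat_lit 90170) (nat_lit 13) (.e (nat_lit 172113) (nat_lit 10) (.e (nat_lit 434247) (nat_lit 28) (.e (nat_lit 573477) (nat_lit 12) (.e (nat_lit 57351) (nat_lit 0) (.e (nat_lit 7124) (nat_lit 382) (.e (nat_lit 1016) (nat_lit 81) .nil))))))))) (.g (nat_lit 4) .nil .nil))) 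
(.lf (nat_lit 57714) (.g (nat_lit 579) (.e (nat_lit 1449) (nat_lit 108) (.e (nat_lit 336028) (nat_lit 3) (.e (nat_lit 98372) (nat_lit 29) .nil))) .nil)))) (.nd (nat_lit 4) (.nd (nat_lit 5) 
(.lf (nat_lit 57674) (.g (nat_lit 5369) (.e (nat_lit 1449) (nat_lit 108) (.e (nat_lit 336013) (nat_lit 2) (.e (nat_lit 90170) (nat_lit 13) (.e (nat_lit 172113) (nat_lit 10) (.e (nat_lit 434245) (nat_lit 28) (.e (nat_lit 573474) (nat_lit 12) (.e (nat_lit 57570) (nat_lit 54) (.e (nat_lit 770058) (nat_lit 5) .nil)))))))) (.g (nat_lit 0) .nil .nil))) 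
(.lf (nat_lit 57706) (.g (nat_lit 3797) (.e (nat_lit 1449) (nat_lit 108) (.e (nat_lit 336013) (nat_lit 2) (.e (nat_lit 90170) (nat_lit 13) (.e (nat_lit 172113) (nat_lit 10) (.e (nat_lit 434248) (nat_lit 28) (.e (nat_lit 573475) (nat_lit 12) (.e (nat_lit 57571) (nat_lit 54) (.e (nat_lit 770054) (nat_lit 5) .nil)))))))) (.g (nat_lit 5) .nil .nil)))) (.nd (nat_lit 5) 
(.lf (nat_lit 57690) (.g (nat_lit 3103) (.e (nat_lit 1449) (nat_lit 108) (.e (nat_lit 336013) (nat_lit 2) (.e (nat_lit 90170) (nat_lit 13) (.e (nat_lit 172113) (nat_lit 10) (.e (nat_lit 434247) (nat_lit 28) (.e (nat_lit 573478) (nat_lit 12) (.e (nat_lit 57570) (nat_lit 54) (.e (nat_lit 770057) (nat_lit 5) .nil)))))))) (.g (nat_lit 4) .nil .nil))) 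
(.lf (nat_lit 57722) (.g (nat_lit 3007) (.e (nat_lit 1449) (nat_lit 108) (.e (nat_lit 336028) (nat_lit 3) (.e (nat_lit 98373) (nat_lit 29) (.e (nat_lit 450586) (nat_lit 10) (.e (nat_lit 573474) (nat_lit 12) (.e (nat_lit 57572) (nat_lit 54) (.e (nat_lit 770058) (nat_lit 5) .nil))))))) (.g (nat_lit 4) .nil .nil)))))) (.nd (nat_lit 3) (.nd (nat_lit 4) (.nd (nat_lit 5) 
(.lf (nat_lit 57670) (.g (nat_lit 3660) (.e (nat_lit 1449) (nat_lit 108) (.e (nat_lit 336013) (nat_lit 2) (.e (nat_lit 90170) (nat_lit 13) (.e (nat_lit 172113) (nat_lit 10) (.e (nat_lit 434245) (nat_lit 28) (.e (nat_lit 573474) (nat_lit 12) (.e (nat_lit 57352) (nat_lit 0) (.e (nat_lit 7122) (nat_lit 382) (.e (nat_lit 1016) (nat_lit 81) .nil))))))))) (.g (nat_lit 5) .nil .nil))) 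
(.lf (nat_lit 57702) (.g (nat_lit 3003) (.e (nat_lit 1449) (nat_lit 108) (.e (nat_lit 336013) (nat_lit 2) (.e (nat_lit 90170) (nat_lit 13) (.e (nat_lit 172113) (nat_lit 10) (.e (nat_lit 434248) (nat_lit 28) (.e (nat_lit 573475) (nat_lit 12) (.e (nat_lit 57568) (nat_lit 53) (.e (nat_lit 769792) (nat_lit 5) .nil)))))))) (.g (nat_lit 4) .nil .nil)))) (.nd (nat_lit 5) 
(.lf (nat_lit 57686) (.g (nat_lit 3186) (.e (nat_lit 1449) (nat_lit 108) (.e (nat_lit 336013) (nat_lit 2) (.e (nat_lit 90170) (nat_lit 13) (.e (nat_lit 172113) (nat_lit 10) (.e (nat_lit 434247) (nat_lit 28) (.e (nat_lit 573478) (nat_lit 12) (.e (nat_lit 57353) (nat_lit 0) (.e (nat_lit 7122) (nat_lit 382) (.e (nat_lit 1016) (nat_lit 81) .nil))))))))) (.g (nat_lit 4) .nil .nil))) 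
(.lf (nat_lit 57718) (.g (nat_lit 1926) (.e (nat_lit 1449) (nat_lit 108) (.e (nat_lit 336028) (nat_lit 3) (.e (nat_lit 98372) (nat_lit 29) (.e (nat_lit 450586) (nat_lit 10) (.e (nat_lit 573475) (nat_lit 12) .nil))))) .nil)))) (.nd (nat_lit 4) (.nd (nat_lit 5) 
(.lf (nat_lit 57678) (.g (nat_lit 5962) (.e (nat_lit 1449) (nat_lit 108) (.e (nat_lit 336013) (nat_lit 2) (.e (nat_lit 90170) (nat_lit 13) (.e (nat_lit 172113) (nat_lit 10) (.e (nat_lit 434245) (nat_lit 28) (.e (nat_lit 573474) (nat_lit 12) (.e (nat_lit 57572) (nat_lit 54) (.e (nat_lit 770058) (nat_lit 5) .nil)))))))) (.g (nat_lit 0) .nil .nil))) 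
(.lf (nat_lit 57710) (.g (nat_lit 2457) (.e (nat_lit 1449) (nat_lit 108) (.e (nat_lit 336020) (nat_lit 3) (.e (nat_lit 98373) (nat_lit 29) (.e (nat_lit 450587) (nat_lit 10) (.e (nat_lit 573475) (nat_lit 12) .nil))))) .nil))) (.nd (nat_lit 5) 
(.lf (nat_lit 57694) (.g (nat_lit 4046) (.e (nat_lit 1449) (nat_lit 108) (.e (nat_lit 336013) (nat_lit 2) (.e (nat_lit 90170) (nat_lit 13) (.e (nat_lit 172113) (nat_lit 10) (.e (nat_lit 434248) (nat_lit 28) (.e (nat_lit 573474) (nat_lit 12) (.e (nat_lit 57572) (nat_lit 54) (.e (nat_lit 770056) (nat_lit 5) .nil)))))))) (.g (nat_lit 5) .nil .nil))) 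
(.lf (nat_lit 57726) (.g (nat_lit 2281) (.e (nat_lit 1449) (nat_lit 108) (.e (nat_lit 336028) (nat_lit 3) (.e (nat_lit 98373) (nat_lit 29) (.e (nat_lit 450587) (nat_lit 10) (.e (nat_lit 573477) (nat_lit 12) .nil))))) .nil))))))) (.nd (nat_lit 1) (.nd (nat_lit 2) (.nd (nat_lit 3) (.nd (nat_lit 4) (.nd (nat_lit 5) 
(.lf (nat_lit 57665) (.g (nat_lit 5366) (.e (nat_lit 1449) (nat_lit 108) (.e (nat_lit 336013) (nat_lit 2) (.e (nat_lit 90170) (nat_lit 13) (.e (nat_lit 172113) (nat_lit 10) (.e (nat_lit 434245) (nat_lit 28) (.e (nat_lit 573473) (nat_lit 12) (.e (nat_lit 57572) (nat_lit 54) (.e (nat_lit 770058) (nat_lit 5) .nil)))))))) (.g (nat_lit 8) .nil .nil))) 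
(.lf (nat_lit 57697) (.g (nat_lit 3024) (.e (nat_lit 1449) (nat_lit 108) (.e (nat_lit 336013) (nat_lit 2) (.e (nat_lit 90170) (nat_lit 13) (.e (nat_lit 172113) (nat_lit 10) (.e (nat_lit 434248) (nat_lit 28) (.e (nat_lit 573475) (nat_lit 12) (.e (nat_lit 57347) (nat_lit 0) (.e (nat_lit 7236) (nat_lit 382) (.e (nat_lit 1015) (nat_lit 81) .nil))))))))) (.g (nat_lit 4) .nil .nil)))) (.nd (nat_lit 5) 
(.lf (nat_lit 57681) (.g (nat_lit 3029) (.e (nat_lit 1449) (nat_lit 108) (.e (nat_lit 336013) (nat_lit 2) (.e (nat_lit 90170) (nat_lit 13) (.e (nat_lit 172113) (nat_lit 10) (.e (nat_lit 434247) (nat_lit 28) .nil))))) .nil)) 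
(.lf (nat_lit 57713) (.g (nat_lit 1878) (.e (nat_lit 1449) (nat_lit 108) (.e (nat_lit 336028) (nat_lit 3) (.e (nat_lit 98359) (nat_lit 26) (.e (nat_lit 426286) (nat_lit 10) (.e (nat_lit 434247) (nat_lit 28) (.e (nat_lit 573477) (nat_lit 12) (.e (nat_lit 57352) (nat_lit 0) (.e (nat_lit 7122) (nat_lit 382) (.e (nat_lit 1016) (nat_lit 81) .nil))))))))) (.g (nat_lit 4) .nil .nil))))) 
(.nd (nat_lit 4) (.nd (nat_lit 5) 
(.lf (nat_lit 57673) (.g (nat_lit 3743) (.e (nat_lit 1449) (nat_lit 108) (.e (nat_lit 336013) (nat_lit 2) (.e (nat_lit 90170) (nat_lit 13) (.e (nat_lit 172113) (nat_lit 10) (.e (nat_lit 434245) (nat_lit 28) (.e (nat_lit 573474) (nat_lit 12) (.e (nat_lit 57570) (nat_lit 54) (.e (nat_lit 770055) (nat_lit 5) .nil)))))))) (.g (nat_lit 5) .nil .nil))) 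
(.lf (nat_lit 57705) (.g (nat_lit 5503) (.e (nat_lit 1449) (nat_lit 108) (.e (nat_lit 336013) (nat_lit 2) (.e (nat_lit 90170) (nat_lit 13) (.e (nat_lit 172113) (nat_lit 10) (.e (nat_lit 434248) (nat_lit 28) (.e (nat_lit 573475) (nat_lit 12) (.e (nat_lit 57570) (nat_lit 54) (.e (nat_lit 770058) (nat_lit 5) .nil)))))))) (.g (nat_lit 0) .nil .nil)))) (.nd (nat_lit 5) 
(.lf (nat_lit 57689) (.g (nat_lit 3061) (.e (nat_lit 1449) (nat_lit 108) (.e (nat_lit 336013) (nat_lit 2) (.e (nat_lit 90170) (nat_lit 13) (.e (nat_lit 172113) (nat_lit 10) (.e (nat_lit 434247) (nat_lit 28) (.e (nat_lit 573478) (nat_lit 12) (.e (nat_lit 57570) (nat_lit 54) (.e (nat_lit 770056) (nat_lit 5) .nil)))))))) (.g (nat_lit 4) .nil .nil))) 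
(.lf (nat_lit 57721) (.g (nat_lit 3263) (.e (nat_lit 1449) (nat_lit 108) (.e (nat_lit 336028) (nat_lit 3) (.e (nat_lit 98372) (nat_lit 29) (.e (nat_lit 450588) (nat_lit 10) (.e (nat_lit 573475) (nat_lit 12) (.e (nat_lit 57570) (nat_lit 54) (.e (nat_lit 770058) (nat_lit 5) .nil))))))) (.g (nat_lit 4) .nil .nil)))))) (.nd (nat_lit 3) (.nd (nat_lit 4) (.nd (nat_lit 5) 
(.lf (nat_lit 57669) (.g (nat_lit 4624) (.e (nat_lit 1449) (nat_lit 108) (.e (nat_lit 336013) (nat_lit 2) (.e (nat_lit 90170) (nat_lit 13) (.e (nat_lit 172113) (nat_lit 10) (.e (nat_lit 434245) (nat_lit 28) (.e (nat_lit 573474) (nat_lit 12) (.e (nat_lit 57351) (nat_lit 0) (.e (nat_lit 7122) (nat_lit 382) (.e (nat_lit 1016) (nat_lit 81) .nil))))))))) (.g (nat_lit 6) .nil .nil))) 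
(.lf (nat_lit 57701) (.g (nat_lit 3144) (.e (nat_lit 1449) (nat_lit 108) (.e (nat_lit 336013) (nat_lit 2) (.e (nat_lit 90170) (nat_lit 13) (.e (nat_lit 172113) (nat_lit 10) (.e (nat_lit 434248) (nat_lit 28) (.e (nat_lit 573475) (nat_lit 12) (.e (nat_lit 57353) (nat_lit 0) (.e (nat_lit 7125) (nat_lit 382) (.e (nat_lit 1016) (nat_lit 81) .nil))))))))) (.g (nat_lit 4) .nil .nil)))) (.nd (nat_lit 5) 
(.lf (nat_lit 57685) (.g (nat_lit 3778) (.e (nat_lit 1449) (nat_lit 108) (.e (nat_lit 336013) (nat_lit 2) (.e (nat_lit 90170) (nat_lit 13) (.e (nat_lit 172113) (nat_lit 10) (.e (nat_lit 434247) (nat_lit 28) (.e (nat_lit 573478) (nat_lit 12) (.e (nat_lit 57351) (nat_lit 0) (.e (nat_lit 7124) (nat_lit 382) (.e (nat_lit 1016) (nat_lit 81) .nil))))))))) (.g (nat_lit 5) .nil .nil))) 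
(.lf (nat_lit 57717) (.g (nat_lit 1795) (.e (nat_lit 1449) (nat_lit 108) (.e (nat_lit 336028) (nat_lit 3) (.e (nat_lit 98372) (nat_lit 29) (.e (nat_lit 450586) (nat_lit 10) (.e (nat_lit 573473) (nat_lit 12) .nil))))) .nil)))) (.nd (nat_lit 4) (.nd (nat_lit 5) 
(.lf (nat_lit 57677) (.g (nat_lit 2976) (.e (nat_lit 1449) (nat_lit 108) (.e (nat_lit 336013) (nat_lit 2) (.e (nat_lit 90170) (nat_lit 13) (.e (nat_lit 172113) (nat_lit 10) (.e (nat_lit 434245) (nat_lit 28) (.e (nat_lit 573474) (nat_lit 12) (.e (nat_lit 57572) (nat_lit 54) (.e (nat_lit 770054) (nat_lit 5) .nil)))))))) (.g (nat_lit 4) .nil .nil))) 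
(.lf (nat_lit 57709) (.g (nat_lit 1365) (.e (nat_lit 1449) (nat_lit 108) (.e (nat_lit 336013) (nat_lit 2) (.e (nat_lit 90178) (nat_lit 15) .nil))) .nil))) (.nd (nat_lit 5) 
(.lf (nat_lit 57693) (.g (nat_lit 5513) (.e (nat_lit 1449) (nat_lit 108) (.e (nat_lit 336013) (nat_lit 2) (.e (nat_lit 90170) (nat_lit 13) (.e (nat_lit 172113) (nat_lit 10) (.e (nat_lit 434248) (nat_lit 28) (.e (nat_lit 573473) (nat_lit 12) (.e (nat_lit 57572) (nat_lit 54) (.e (nat_lit 770058) (nat_lit 5) .nil)))))))) (.g (nat_lit 8) .nil .nil))) 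
(.lf (nat_lit 57725) (.g (nat_lit 4160) (.e (nat_lit 1449) (nat_lit 108) (.e (nat_lit 336028) (nat_lit 3) (.e (nat_lit 98373) (nat_lit 29) (.e (nat_lit 450587) (nat_lit 10) (.e (nat_lit 573475) (nat_lit 12) (.e (nat_lit 57572) (nat_lit 54) (.e (nat_lit 770058) (nat_lit 5) .nil))))))) (.g (nat_lit 4) .nil .nil))))))) (.nd (nat_lit 2) (.nd (nat_lit 3) (.nd (nat_lit 4) (.nd (nat_lit 5) 
(.lf (nat_lit 57667) (.g (nat_lit 3180) (.e (nat_lit 1449) (nat_lit 108) (.e (nat_lit 336013) (nat_lit 2) (.e (nat_lit 90170) (nat_lit 13) (.e (nat_lit 172113) (nat_lit 10) (.e (nat_lit 434245) (nat_lit 28) (.e (nat_lit 573474) (nat_lit 12) (.e (nat_lit 57348) (nat_lit 0) (.e (nat_lit 7236) (nat_lit 382) (.e (nat_lit 1015) (nat_lit 81) .nil))))))))) (.g (nat_lit 4) .nil .nil))) 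
(.lf (nat_lit 57699) (.g (nat_lit 4698) (.e (nat_lit 1449) (nat_lit 108) (.e (nat_lit 336013) (nat_lit 2) (.e (nat_lit 90170) (nat_lit 13) (.e (nat_lit 172113) (nat_lit 10) (.e (nat_lit 434248) (nat_lit 28) (.e (nat_lit 573475) (nat_lit 12) (.e (nat_lit 57351) (nat_lit 0) (.e (nat_lit 7122) (nat_lit 382) (.e (nat_lit 1016) (nat_lit 81) .nil))))))))) (.g (nat_lit 6) .nil .nil)))) (.nd (nat_lit 5) 
(.lf (nat_lit 57683) (.g (nat_lit 4132) (.e (nat_lit 1449) (nat_lit 108) (.e (nat_lit 336013) (nat_lit 2) (.e (nat_lit 90170) (nat_lit 13) (.e (nat_lit 172113) (nat_lit 10) (.e (nat_lit 434247) (nat_lit 28) (.e (nat_lit 573477) (nat_lit 12) (.e (nat_lit 57353) (nat_lit 0) (.e (nat_lit 7124) (nat_lit 382) (.e (nat_lit 1016) (nat_lit 81) .nil))))))))) (.g (nat_lit 5) .nil .nil))) 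
(.lf (nat_lit 57715) (.g (nat_lit 2199) (.e (nat_lit 1449) (nat_lit 108) (.e (nat_lit 336028) (nat_lit 3) (.e (nat_lit 98372) (nat_lit 29) (.e (nat_lit 450579) (nat_lit 5) (.e (nat_lit 532501) (nat_lit 1) .nil))))) .nil)))) (.nd (nat_lit 4) (.nd (nat_lit 5) 
(.lf (nat_lit 57675) (.g (nat_lit 3872) (.e (nat_lit 1449) (nat_lit 108) (.e (nat_lit 336013) (nat_lit 2) (.e (nat_lit 90170) (nat_lit 13) (.e (nat_lit 172113) (nat_lit 10) (.e (nat_lit 434245) (nat_lit 28) (.e (nat_lit 573474) (nat_lit 12) (.e (nat_lit 57571) (nat_lit 54) (.e (nat_lit 770054) (nat_lit 5) .nil)))))))) (.g (nat_lit 5) .nil .nil))) 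
(.lf (nat_lit 57707) (.g (nat_lit 6074) (.e (nat_lit 1449) (nat_lit 108) (.e (nat_lit 336013) (nat_lit 2) (.e (nat_lit 90170) (nat_lit 13) (.e (nat_lit 172113) (nat_lit 10) (.e (nat_lit 434248) (nat_lit 28) (.e (nat_lit 573475) (nat_lit 12) (.e (nat_lit 57572) (nat_lit 54) (.e (nat_lit 770058) (nat_lit 5) .nil)))))))) (.g (nat_lit 0) .nil .nil)))) (.nd (nat_lit 5) 
(.lf (nat_lit 57691) (.g (nat_lit 2961) (.e (nat_lit 1449) (nat_lit 108) (.e (nat_lit 336013) (nat_lit 2) (.e (nat_lit 90170) (nat_lit 13) (.e (nat_lit 172113) (nat_lit 10) (.e (nat_lit 434248) (nat_lit 28) .nil))))) .nil)) 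
(.lf (nat_lit 57723) (.g (nat_lit 3559) (.e (nat_lit 1449) (nat_lit 108) (.e (nat_lit 336028) (nat_lit 3) (.e (nat_lit 98373) (nat_lit 29) (.e (nat_lit 450587) (nat_lit 10) (.e (nat_lit 573472) (nat_lit 12) .nil))))) .nil))))) (.nd (nat_lit 3) (.nd (nat_lit 4) (.nd (nat_lit 5) 
(.lf (nat_lit 57671) (.g (nat_lit 2976) (.e (nat_lit 1449) (nat_lit 108) (.e (nat_lit 336013) (nat_lit 2) (.e (nat_lit 90170) (nat_lit 13) (.e (nat_lit 172113) (nat_lit 10) (.e (nat_lit 434245) (nat_lit 28) (.e (nat_lit 573474) (nat_lit 12) (.e (nat_lit 57568) (nat_lit 53) (.e (nat_lit 769792) (nat_lit 5) .nil)))))))) (.g (nat_lit 4) .nil .nil))) 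
(.lf (nat_lit 57703) (.g (nat_lit 3825) (.e (nat_lit 1449) (nat_lit 108) (.e (nat_lit 336013) (nat_lit 2) (.e (nat_lit 90170) (nat_lit 13) (.e (nat_lit 172113) (nat_lit 10) (.e (nat_lit 434248) (nat_lit 28) (.e (nat_lit 573475) (nat_lit 12) (.e (nat_lit 57570) (nat_lit 54) (.e (nat_lit 770054) (nat_lit 5) .nil)))))))) (.g (nat_lit 5) .nil .nil)))) (.nd (nat_lit 5) 
(.lf (nat_lit 57687) (.g (nat_lit 3181) (.e (nat_lit 1449) (nat_lit 108) (.e (nat_lit 336013) (nat_lit 2) (.e (nat_lit 90170) (nat_lit 13) (.e (nat_lit 172113) (nat_lit 10) (.e (nat_lit 434247) (nat_lit 28) (.e (nat_lit 573478) (nat_lit 12) (.e (nat_lit 57570) (nat_lit 54) (.e (nat_lit 770054) (nat_lit 5) .nil)))))))) (.g (nat_lit 4) .nil .nil))) 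
(.lf (nat_lit 57719) (.g (nat_lit 3466) (.e (nat_lit 1449) (nat_lit 108) (.e (nat_lit 336028) (nat_lit 3) (.e (nat_lit 98372) (nat_lit 29) (.e (nat_lit 450587) (nat_lit 10) (.e (nat_lit 573475) (nat_lit 12) .nil))))) .nil)))) (.nd (nat_lit 4) (.nd (nat_lit 5) 
(.lf (nat_lit 57679) (.g (nat_lit 3131) (.e (nat_lit 1449) (nat_lit 108) (.e (nat_lit 336013) (nat_lit 2) (.e (nat_lit 90170) (nat_lit 13) (.e (nat_lit 172113) (nat_lit 10) (.e (nat_lit 434245) (nat_lit 28) (.e (nat_lit 573475) (nat_lit 12) (.e (nat_lit 57572) (nat_lit 54) (.e (nat_lit 770056) (nat_lit 5) .nil)))))))) (.g (nat_lit 4) .nil .nil))) 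
(.lf (nat_lit 57711) (.g (nat_lit 3335) (.e (nat_lit 1449) (nat_lit 108) (.e (nat_lit 336024) (nat_lit 3) (.e (nat_lit 98373) (nat_lit 29) (.e (nat_lit 450587) (nat_lit 10) (.e (nat_lit 573475) (nat_lit 12) (.e (nat_lit 57572) (nat_lit 54) (.e (nat_lit 770056) (nat_lit 5) .nil))))))) (.g (nat_lit 4) .nil .nil)))) (.nd (nat_lit 5) 
(.lf (nat_lit 57695) (.g (nat_lit 4044) (.e (nat_lit 1449) (nat_lit 108) (.e (nat_lit 336013) (nat_lit 2) (.e (nat_lit 90170) (nat_lit 13) (.e (nat_lit 172113) (nat_lit 10) (.e (nat_lit 434248) (nat_lit 28) (.e (nat_lit 573474) (nat_lit 12) (.e (nat_lit 57572) (nat_lit 54) (.e (nat_lit 770057) (nat_lit 5) .nil)))))))) (.g (nat_lit 5) .nil .nil))) 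
(.lf (nat_lit 57727) (.g (nat_lit 2241) (.e (nat_lit 1449) (nat_lit 108) (.e (nat_lit 336028) (nat_lit 3) (.e (nat_lit 98373) (nat_lit 29) (.e (nat_lit 450587) (nat_lit 10) (.e (nat_lit 573478) (nat_lit 12) .nil))))) .nil))))))))

noncomputable def tv794 : DT := (.nd (nat_lit 0) (.nd (nat_lit 1) (.nd (nat_lit 2) (.nd (nat_lit 3) (.nd (nat_lit 4) (.nd (nat_lit 5) 
(.lf (nat_lit 57728) (.g (nat_lit 2446) (.e (nat_lit 1449) (nat_lit 108) (.e (nat_lit 336028) (nat_lit 3) (.e (nat_lit 98373) (nat_lit 29) (.e (nat_lit 450588) (nat_lit 10) (.e (nat_lit 573473) (nat_lit 12) .nil))))) .nil)) 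
(.lf (nat_lit 57760) (.g (nat_lit 2062) (.e (nat_lit 1449) (nat_lit 108) (.e (nat_lit 336060) (nat_lit 7) (.e (nat_lit 319533) (nat_lit 16) (.e (nat_lit 286753) (nat_lit 10) (.e (nat_lit 344169) (nat_lit 40) (.e (nat_lit 671751) (nat_lit 0) (.e (nat_lit 1182) (nat_lit 87) (.e (nat_lit 57731) (nat_lit 181) (.e (nat_lit 1013) (nat_lit 81) .nil))))))))) (.g (nat_lit 4) .nil .nil)))) (.nd (nat_lit 5) 
(.lf (nat_lit 57744) (.g (nat_lit 2154) (.e (nat_lit 1449) (nat_lit 108) (.e (nat_lit 336060) (nat_lit 7) (.e (nat_lit 319533) (nat_lit 16) (.e (nat_lit 286753) (nat_lit 10) (.e (nat_lit 344097) (nat_lit 18) (.e (nat_lit 5195) (nat_lit 294) (.e (nat_lit 57363) (nat_lit 1) (.e (nat_lit 57825) (nat_lit 250) (.e (nat_lit 1007) (nat_lit 81) .nil))))))))) (.g (nat_lit 5) .nil .nil))) 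
(.lf (nat_lit 57776) (.g (nat_lit 2333) (.e (nat_lit 1449) (nat_lit 108) (.e (nat_lit 336060) (nat_lit 7) (.e (nat_lit 319534) (nat_lit 16) (.e (nat_lit 286756) (nat_lit 10) (.e (nat_lit 344168) (nat_lit 40) (.e (nat_lit 671751) (nat_lit 0) (.e (nat_lit 1182) (nat_lit 87) (.e (nat_lit 57724) (nat_lit 181) (.e (nat_lit 993) (nat_lit 81) .nil))))))))) (.g (nat_lit 4) .nil .nil))))) 
(.nd (nat_lit 4) (.nd (nat_lit 5) 
(.lf (nat_lit 57736) (.g (nat_lit 3309) (.e (nat_lit 1449) (nat_lit 108) (.e (nat_lit 336060) (nat_lit 7) (.e (nat_lit 319505) (nat_lit 10) (.e (nat_lit 618) (nat_lit 48) (.e (nat_lit 557107) (nat_lit 15) (.e (nat_lit 188440) (nat_lit 20) (.e (nat_lit 3579) (nat_lit 223) (.e (nat_lit 745476) (nat_lit 0) .nil)))))))) (.g (nat_lit 6) .nil .nil))) 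
(.lf (nat_lit 57768) (.g (nat_lit 2056) (.e (nat_lit 1449) (nat_lit 108) (.e (nat_lit 336060) (nat_lit 7) (.e (nat_lit 319534) (nat_lit 16) (.e (nat_lit 286756) (nat_lit 10) (.e (nat_lit 344097) (nat_lit 18) (.e (nat_lit 5195) (nat_lit 294) (.e (nat_lit 57365) (nat_lit 1) (.e (nat_lit 57832) (nat_lit 250) (.e (nat_lit 998) (nat_lit 81) .nil))))))))) (.g (nat_lit 4) .nil .nil)))) (.nd (nat_lit 5) 
(.lf (nat_lit 57752) (.g (nat_lit 1907) (.e (nat_lit 1449) (nat_lit 108) (.e (nat_lit 336060) (nat_lit 7) (.e (nat_lit 319533) (nat_lit 16) (.e (nat_lit 286753) (nat_lit 10) (.e (nat_lit 344168) (nat_lit 40) (.e (nat_lit 671751) (nat_lit 0) (.e (nat_lit 1182) (nat_lit 87) (.e (nat_lit 57731) (nat_lit 181) (.e (nat_lit 992) (nat_lit 81) .nil))))))))) (.g (nat_lit 4) .nil .nil))) 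
(.lf (nat_lit 57784) (.g (nat_lit 3323) (.e (nat_lit 1449) (nat_lit 108) (.e (nat_lit 336060) (nat_lit 7) (.e (nat_lit 319534) (nat_lit 16) (.e (nat_lit 286756) (nat_lit 10) (.e (nat_lit 344168) (nat_lit 40) (.e (nat_lit 671751) (nat_lit 0) (.e (nat_lit 1182) (nat_lit 87) (.e (nat_lit 57728) (nat_lit 181) (.e (nat_lit 1015) (nat_lit 81) .nil))))))))) (.g (nat_lit 6) .nil .nil)))))) 
(.nd (nat_lit 3) (.nd (nat_lit 4) (.nd (nat_lit 5) 
(.lf (nat_lit 57732) (.g (nat_lit 2524) (.e (nat_lit 1449) (nat_lit 108) (.e (nat_lit 336028) (nat_lit 3) (.e (nat_lit 98373) (nat_lit 29) (.e (nat_lit 450588) (nat_lit 10) (.e (nat_lit 573475) (nat_lit 12) (.e (nat_lit 57347) (nat_lit 0) (.e (nat_lit 7122) (nat_lit 382) (.e (nat_lit 1016) (nat_lit 81) .nil)))))))) (.g (nat_lit 4) .nil .nil))) 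
(.lf (nat_lit 57764) (.g (nat_lit 2780) (.e (nat_lit 1449) (nat_lit 108) (.e (nat_lit 336060) (nat_lit 7) (.e (nat_lit 319534) (nat_lit 16) (.e (nat_lit 286749) (nat_lit 9) (.e (nat_lit 335997) (nat_lit 1) (.e (nat_lit 57848) (nat_lit 252) (.e (nat_lit 57368) (nat_lit 1) (.e (nat_lit 57830) (nat_lit 250) (.e (nat_lit 1016) (nat_lit 81) .nil))))))))) (.g (nat_lit 7) .nil .nil)))) (.nd (nat_lit 5) 
(.lf (nat_lit 57748) (.g (nat_lit 1901) (.e (nat_lit 1449) (nat_lit 108) (.e (nat_lit 336060) (nat_lit 7) (.e (nat_lit 319533) (nat_lit 16) (.e (nat_lit 286753) (nat_lit 10) (.e (nat_lit 344168) (nat_lit 40) (.e (nat_lit 671751) (nat_lit 0) (.e (nat_lit 1182) (nat_lit 87) (.e (nat_lit 57728) (nat_lit 181) (.e (nat_lit 988) (nat_lit 81) .nil))))))))) (.g (nat_lit 4) .nil .nil))) 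
(.lf (nat_lit 57780) (.g (nat_lit 2929) (.e (nat_lit 1449) (nat_lit 108) (.e (nat_lit 336060) (nat_lit 7) (.e (nat_lit 319534) (nat_lit 16) (.e (nat_lit 286756) (nat_lit 10) (.e (nat_lit 344168) (nat_lit 40) (.e (nat_lit 671751) (nat_lit 0) (.e (nat_lit 1182) (nat_lit 87) (.e (nat_lit 57728) (nat_lit 181) (.e (nat_lit 993) (nat_lit 81) .nil))))))))) (.g (nat_lit 5) .nil .nil))))) 
(.nd (nat_lit 4) (.nd (nat_lit 5) 
(.lf (nat_lit 57740) (.g (nat_lit 2333) (.e (nat_lit 1449) (nat_lit 108) (.e (nat_lit 336060) (nat_lit 7) (.e (nat_lit 319533) (nat_lit 16) (.e (nat_lit 286753) (nat_lit 10) (.e (nat_lit 344097) (nat_lit 18) (.e (nat_lit 5194) (nat_lit 294) (.e (nat_lit 57368) (nat_lit 1) (.e (nat_lit 57830) (nat_lit 250) (.e (nat_lit 1016) (nat_lit 81) .nil))))))))) (.g (nat_lit 5) .nil .nil))) 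
(.lf (nat_lit 57772) (.g (nat_lit 3040) (.e (nat_lit 1449) (nat_lit 108) (.e (nat_lit 336060) (nat_lit 7) (.e (nat_lit 319534) (nat_lit 16) (.e (nat_lit 286756) (nat_lit 10) (.e (nat_lit 344160) (nat_lit 37) (.e (nat_lit 647201) (nat_lit 12) (.e (nat_lit 57351) (nat_lit 0) (.e (nat_lit 7124) (nat_lit 382) (.e (nat_lit 1016) (nat_lit 81) .nil))))))))) (.g (nat_lit 7) .nil .nil)))) (.nd (nat_lit 5) 
(.lf (nat_lit 57756) (.g (nat_lit 2833) (.e (nat_lit 1449) (nat_lit 108) (.e (nat_lit 336060) (nat_lit 7) (.e (nat_lit 319533) (nat_lit 16) (.e (nat_lit 286753) (nat_lit 10) (.e (nat_lit 344169) (nat_lit 40) (.e (nat_lit 671751) (nat_lit 0) (.e (nat_lit 1182) (nat_lit 87) (.e (nat_lit 57728) (nat_lit 181) (.e (nat_lit 1012) (nat_lit 81) .nil))))))))) (.g (nat_lit 5) .nil .nil))) 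
(.lf (nat_lit 57788) (.g (nat_lit 2185) (.e (nat_lit 1449) (nat_lit 108) (.e (nat_lit 336060) (nat_lit 7) (.e (nat_lit 319534) (nat_lit 16) (.e (nat_lit 286756) (nat_lit 10) (.e (nat_lit 344169) (nat_lit 40) (.e (nat_lit 671751) (nat_lit 0) (.e (nat_lit 1182) (nat_lit 87) (.e (nat_lit 57724) (nat_lit 181) (.e (nat_lit 993) (nat_lit 81) .nil))))))))) (.g (nat_lit 4) .nil .nil))))))) 
(.nd (nat_lit 2) (.nd (nat_lit 3) (.nd (nat_lit 4) (.nd (nat_lit 5) 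
(.lf (nat_lit 57730) (.g (nat_lit 2572) (.e (nat_lit 1449) (nat_lit 108) (.e (nat_lit 336028) (nat_lit 3) (.e (nat_lit 98373) (nat_lit 29) (.e (nat_lit 450588) (nat_lit 10) (.e (nat_lit 573473) (nat_lit 12) (.e (nat_lit 57352) (nat_lit 0) (.e (nat_lit 7122) (nat_lit 382) (.e (nat_lit 1016) (nat_lit 81) .nil)))))))) (.g (nat_lit 4) .nil .nil))) 
(.lf (nat_lit 57762) (.g (nat_lit 1658) (.e (nat_lit 1449) (nat_lit 108) (.e (nat_lit 336060) (nat_lit 7) (.e (nat_lit 319534) (nat_lit 16) (.e (nat_lit 286749) (nat_lit 9) (.e (nat_lit 335997) (nat_lit 1) .nil))))) .nil))) (.nd (nat_lit 5) 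
(.lf (nat_lit 57746) (.g (nat_lit 1863) (.e (nat_lit 1449) (nat_lit 108) (.e (nat_lit 336060) (nat_lit 7) (.e (nat_lit 319533) (nat_lit 16) (.e (nat_lit 286753) (nat_lit 10) (.e (nat_lit 344168) (nat_lit 40) .nil))))) .nil)) 
(.lf (nat_lit 57778) (.g (nat_lit 2294) (.e (nat_lit 1449) (nat_lit 108) (.e (nat_lit 336060) (nat_lit 7) (.e (nat_lit 319534) (nat_lit 16) (.e (nat_lit 286756) (nat_lit 10) (.e (nat_lit 344168) (nat_lit 40) (.e (nat_lit 671751) (nat_lit 0) (.e (nat_lit 1182) (nat_lit 87) (.e (nat_lit 57724) (nat_lit 181) (.e (nat_lit 1000) (nat_lit 81) .nil))))))))) (.g (nat_lit 4) .nil .nil))))) 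
(.nd (nat_lit 4) (.nd (nat_lit 5) 
(.lf (nat_lit 57738) (.g (nat_lit 4644) (.e (nat_lit 1449) (nat_lit 108) (.e (nat_lit 336060) (nat_lit 7) (.e (nat_lit 319505) (nat_lit 10) (.e (nat_lit 618) (nat_lit 48) (.e (nat_lit 557109) (nat_lit 15) (.e (nat_lit 188434) (nat_lit 20) (.e (nat_lit 3578) (nat_lit 223) (.e (nat_lit 745476) (nat_lit 0) .nil)))))))) (.g (nat_lit 8) .nil .nil))) 
(.lf (nat_lit 57770) (.g (nat_lit 2193) (.e (nat_lit 1449) (nat_lit 108) (.e (nat_lit 336060) (nat_lit 7) (.e (nat_lit 319534) (nat_lit 16) (.e (nat_lit 286756) (nat_lit 10) (.e (nat_lit 344160) (nat_lit 37) .nil))))) .nil))) (.nd (nat_lit 5) 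
(.lf (nat_lit 57754) (.g (nat_lit 2836) (.e (nat_lit 1449) (nat_lit 108) (.e (nat_lit 336060) (nat_lit 7) (.e (nat_lit 319533) (nat_lit 16) (.e (nat_lit 286753) (nat_lit 10) (.e (nat_lit 344169) (nat_lit 40) (.e (nat_lit 671751) (nat_lit 0) (.e (nat_lit 1182) (nat_lit 87) (.e (nat_lit 57728) (nat_lit 181) (.e (nat_lit 993) (nat_lit 81) .nil))))))))) (.g (nat_lit 5) .nil .nil))) 
(.lf (nat_lit 57786) (.g (nat_lit 2130) (.e (nat_lit 1449) (nat_lit 108) (.e (nat_lit 336060) (nat_lit 7) (.e (nat_lit 319534) (nat_lit 16) (.e (nat_lit 286756) (nat_lit 10) (.e (nat_lit 344169) (nat_lit 40) .nil))))) .nil))))) (.nd (nat_lit 3) (.nd (nat_lit 4) (.nd (nat_lit 5) 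
(.lf (nat_lit 57734) (.g (nat_lit 2350) (.e (nat_lit 1449) (nat_lit 108) (.e (nat_lit 336060) (nat_lit 7) (.e (nat_lit 319505) (nat_lit 10) (.e (nat_lit 618) (nat_lit 48) (.e (nat_lit 557107) (nat_lit 15) (.e (nat_lit 188439) (nat_lit 20) (.e (nat_lit 3579) (nat_lit 223) (.e (nat_lit 745475) (nat_lit 0) .nil)))))))) (.g (nat_lit 5) .nil .nil))) 
(.lf (nat_lit 57766) (.g (nat_lit 3019) (.e (nat_lit 1449) (nat_lit 108) (.e (nat_lit 336060) (nat_lit 7) (.e (nat_lit 319534) (nat_lit 16) (.e (nat_lit 286756) (nat_lit 10) (.e (nat_lit 344097) (nat_lit 18) (.e (nat_lit 5194) (nat_lit 294) (.e (nat_lit 57368) (nat_lit 1) (.e (nat_lit 57830) (nat_lit 250) (.e (nat_lit 1016) (nat_lit 81) .nil))))))))) (.g (nat_lit 7) .nil .nil)))) (.nd (nat_lit 5) 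
(.lf (nat_lit 57750) (.g (nat_lit 2563) (.e (nat_lit 1449) (nat_lit 108) (.e (nat_lit 336060) (nat_lit 7) (.e (nat_lit 319533) (nat_lit 16) (.e (nat_lit 286753) (nat_lit 10) (.e (nat_lit 344168) (nat_lit 40) (.e (nat_lit 671751) (nat_lit 0) (.e (nat_lit 1182) (nat_lit 87) (.e (nat_lit 57728) (nat_lit 181) (.e (nat_lit 1015) (nat_lit 81) .nil))))))))) (.g (nat_lit 5) .nil .nil))) 
(.lf (nat_lit 57782) (.g (nat_lit 3316) (.e (nat_lit 1449) (nat_lit 108) (.e (nat_lit 336060) (nat_lit 7) (.e (nat_lit 319534) (nat_lit 16) (.e (nat_lit 286756) (nat_lit 10) (.e (nat_lit 344168) (nat_lit 40) (.e (nat_lit 671751) (nat_lit 0) (.e (nat_lit 1182) (nat_lit 87) (.e (nat_lit 57728) (nat_lit 181) (.e (nat_lit 995) (nat_lit 81) .nil))))))))) (.g (nat_lit 6) .nil .nil))))) 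
(.nd (nat_lit 4) (.nd (nat_lit 5) 
(.lf (nat_lit 57742) (.g (nat_lit 2269) (.e (nat_lit 1449) (nat_lit 108) (.e (nat_lit 336060) (nat_lit 7) (.e (nat_lit 319533) (nat_lit 16) (.e (nat_lit 286753) (nat_lit 10) (.e (nat_lit 344097) (nat_lit 18) (.e (nat_lit 5195) (nat_lit 294) (.e (nat_lit 57363) (nat_lit 1) (.e (nat_lit 57825) (nat_lit 250) (.e (nat_lit 998) (nat_lit 81) .nil))))))))) (.g (nat_lit 5) .nil .nil))) 
(.lf (nat_lit 57774) (.g (nat_lit 2268) (.e (nat_lit 1449) (nat_lit 108) (.e (nat_lit 336060) (nat_lit 7) (.e (nat_lit 319534) (nat_lit 16) (.e (nat_lit 286756) (nat_lit 10) (.e (nat_lit 344168) (nat_lit 40) .nil))))) .nil))) (.nd (nat_lit 5) 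
(.lf (nat_lit 57758) (.g (nat_lit 2007) (.e (nat_lit 1449) (nat_lit 108) (.e (nat_lit 336060) (nat_lit 7) (.e (nat_lit 319533) (nat_lit 16) (.e (nat_lit 286753) (nat_lit 10) (.e (nat_lit 344169) (nat_lit 40) (.e (nat_lit 671751) (nat_lit 0) (.e (nat_lit 1182) (nat_lit 87) (.e (nat_lit 57731) (nat_lit 181) (.e (nat_lit 988) (nat_lit 81) .nil))))))))) (.g (nat_lit 4) .nil .nil))) 
(.lf (nat_lit 57790) (.g (nat_lit 2146) (.e (nat_lit 1449) (nat_lit 108) (.e (nat_lit 336060) (nat_lit 7) (.e (nat_lit 319534) (nat_lit 16) (.e (nat_lit 286756) (nat_lit 10) (.e (nat_lit 344169) (nat_lit 40) (.e (nat_lit 671751) (nat_lit 0) (.e (nat_lit 1182) (nat_lit 87) (.e (nat_lit 57724) (nat_lit 181) (.e (nat_lit 1000) (nat_lit 81) .nil))))))))) (.g (nat_lit 4) .nil .nil)))))))) 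
(.nd (nat_lit 1) (.nd (nat_lit 2) (.nd (nat_lit 3) (.nd (nat_lit 4) (.nd (nat_lit 5) 
(.lf (nat_lit 57729) (.g (nat_lit 2549) (.e (nat_lit 1449) (nat_lit 108) (.e (nat_lit 336028) (nat_lit 3) (.e (nat_lit 98373) (nat_lit 29) (.e (nat_lit 450588) (nat_lit 10) (.e (nat_lit 573473) (nat_lit 12) (.e (nat_lit 57348) (nat_lit 0) (.e (nat_lit 7124) (nat_lit 382) (.e (nat_lit 1016) (nat_lit 81) .nil)))))))) (.g (nat_lit 4) .nil .nil))) 
(.lf (nat_lit 57761) (.g (nat_lit 2930) (.e (nat_lit 1449) (nat_lit 108) (.e (nat_lit 336060) (nat_lit 7) (.e (nat_lit 319533) (nat_lit 16) (.e (nat_lit 286753) (nat_lit 10) (.e (nat_lit 344169) (nat_lit 40) (.e (nat_lit 671751) (nat_lit 0) (.e (nat_lit 1182) (nat_lit 87) (.e (nat_lit 57731) (nat_lit 181) (.e (nat_lit 1015) (nat_lit 81) .nil))))))))) (.g (nat_lit 5) .nil .nil)))) (.nd (nat_lit 5) 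
(.lf (nat_lit 57745) (.g (nat_lit 2495) (.e (nat_lit 1449) (nat_lit 108) (.e (nat_lit 336060) (nat_lit 7) (.e (nat_lit 319533) (nat_lit 16) (.e (nat_lit 286753) (nat_lit 10) (.e (nat_lit 344097) (nat_lit 18) (.e (nat_lit 5195) (nat_lit 294) (.e (nat_lit 57368) (nat_lit 1) (.e (nat_lit 57830) (nat_lit 250) (.e (nat_lit 1016) (nat_lit 81) .nil))))))))) (.g (nat_lit 6) .nil .nil))) 
(.lf (nat_lit 57777) (.g (nat_lit 2326) (.e (nat_lit 1449) (nat_lit 108) (.e (nat_lit 336060) (nat_lit 7) (.e (nat_lit 319534) (nat_lit 16) (.e (nat_lit 286756) (nat_lit 10) (.e (nat_lit 344168) (nat_lit 40) (.e (nat_lit 671751) (nat_lit 0) (.e (nat_lit 1182) (nat_lit 87) (.e (nat_lit 57724) (nat_lit 181) (.e (nat_lit 994) (nat_lit 81) .nil))))))))) (.g (nat_lit 4) .nil .nil))))) 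
(.nd (nat_lit 4) (.nd (nat_lit 5) 
(.lf (nat_lit 57737) (.g (nat_lit 1795) (.e (nat_lit 1449) (nat_lit 108) (.e (nat_lit 336060) (nat_lit 7) (.e (nat_lit 319505) (nat_lit 10) (.e (nat_lit 618) (nat_lit 48) (.e (nat_lit 557107) (nat_lit 15) (.e (nat_lit 188441) (nat_lit 20) (.e (nat_lit 3578) (nat_lit 223) (.e (nat_lit 745475) (nat_lit 0) .nil)))))))) (.g (nat_lit 4) .nil .nil))) 
(.lf (nat_lit 57769) (.g (nat_lit 1996) (.e (nat_lit 1449) (nat_lit 108) (.e (nat_lit 336060) (nat_lit 7) (.e (nat_lit 319534) (nat_lit 16) (.e (nat_lit 286756) (nat_lit 10) (.e (nat_lit 344097) (nat_lit 18) (.e (nat_lit 5195) (nat_lit 294) (.e (nat_lit 57368) (nat_lit 1) (.e (nat_lit 57829) (nat_lit 250) (.e (nat_lit 1016) (nat_lit 81) .nil))))))))) (.g (nat_lit 4) .nil .nil)))) (.nd (nat_lit 5) 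
(.lf (nat_lit 57753) (.g (nat_lit 2918) (.e (nat_lit 1449) (nat_lit 108) (.e (nat_lit 336060) (nat_lit 7) (.e (nat_lit 319533) (nat_lit 16) (.e (nat_lit 286753) (nat_lit 10) (.e (nat_lit 344169) (nat_lit 40) (.e (nat_lit 671751) (nat_lit 0) (.e (nat_lit 1182) (nat_lit 87) (.e (nat_lit 57728) (nat_lit 181) (.e (nat_lit 992) (nat_lit 81) .nil))))))))) (.g (nat_lit 5) .nil .nil))) 
(.lf (nat_lit 57785) (.g (nat_lit 2317) (.e (nat_lit 1449) (nat_lit 108) (.e (nat_lit 336060) (nat_lit 7) (.e (nat_lit 319534) (nat_lit 16) (.e (nat_lit 286756) (nat_lit 10) (.e (nat_lit 344168) (nat_lit 40) (.e (nat_lit 671751) (nat_lit 0) (.e (nat_lit 1182) (nat_lit 87) (.e (nat_lit 57730) (nat_lit 181) (.e (nat_lit 992) (nat_lit 81) .nil))))))))) (.g (nat_lit 4) .nil .nil)))))) 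
(.nd (nat_lit 3) (.nd (nat_lit 4) (.nd (nat_lit 5) 
(.lf (nat_lit 57733) (.g (nat_lit 2116) (.e (nat_lit 1449) (nat_lit 108) (.e (nat_lit 336060) (nat_lit 7) (.e (nat_lit 319504) (nat_lit 10) (.e (nat_lit 618) (nat_lit 48) (.e (nat_lit 557107) (nat_lit 15) .nil))))) .nil)) 
(.lf (nat_lit 57765) (.g (nat_lit 1982) (.e (nat_lit 1449) (nat_lit 108) (.e (nat_lit 336060) (nat_lit 7) (.e (nat_lit 319534) (nat_lit 16) (.e (nat_lit 286756) (nat_lit 10) (.e (nat_lit 344097) (nat_lit 18) .nil))))) .nil))) (.nd (nat_lit 5) 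
(.lf (nat_lit 57749) (.g (nat_lit 2556) (.e (nat_lit 1449) (nat_lit 108) (.e (nat_lit 336060) (nat_lit 7) (.e (nat_lit 319533) (nat_lit 16) (.e (nat_lit 286753) (nat_lit 10) (.e (nat_lit 344168) (nat_lit 40) (.e (nat_lit 671751) (nat_lit 0) (.e (nat_lit 1182) (nat_lit 87) (.e (nat_lit 57728) (nat_lit 181) (.e (nat_lit 995) (nat_lit 81) .nil))))))))) (.g (nat_lit 5) .nil .nil))) 
(.lf (nat_lit 57781) (.g (nat_lit 2894) (.e (nat_lit 1449) (nat_lit 108) (.e (nat_lit 336060) (nat_lit 7) (.e (nat_lit 319534) (nat_lit 16) (.e (nat_lit 286756) (nat_lit 10) (.e (nat_lit 344168) (nat_lit 40) (.e (nat_lit 671751) (nat_lit 0) (.e (nat_lit 1182) (nat_lit 87) (.e (nat_lit 57728) (nat_lit 181) (.e (nat_lit 994) (nat_lit 81) .nil))))))))) (.g (nat_lit 5) .nil .nil))))) 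
(.nd (nat_lit 4) (.nd (nat_lit 5) 
(.lf (nat_lit 57741) (.g (nat_lit 2259) (.e (nat_lit 1449) (nat_lit 108) (.e (nat_lit 336060) (nat_lit 7) (.e (nat_lit 319533) (nat_lit 16) (.e (nat_lit 286753) (nat_lit 10) (.e (nat_lit 344097) (nat_lit 18) (.e (nat_lit 5195) (nat_lit 294) (.e (nat_lit 57363) (nat_lit 1) (.e (nat_lit 57825) (nat_lit 250) (.e (nat_lit 996) (nat_lit 81) .nil))))))))) (.g (nat_lit 5) .nil .nil))) 
(.lf (nat_lit 57773) (.g (nat_lit 2317) (.e (nat_lit 1449) (nat_lit 108) (.e (nat_lit 336060) (nat_lit 7) (.e (nat_lit 319534) (nat_lit 16) (.e (nat_lit 286756) (nat_lit 10) (.e (nat_lit 344160) (nat_lit 37) (.e (nat_lit 647201) (nat_lit 12) (.e (nat_lit 57351) (nat_lit 0) (.e (nat_lit 7125) (nat_lit 382) (.e (nat_lit 1016) (nat_lit 81) .nil))))))))) (.g (nat_lit 4) .nil .nil)))) (.nd (nat_lit 5) 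
(.lf (nat_lit 57757) (.g (nat_lit 2057) (.e (nat_lit 1449) (nat_lit 108) (.e (nat_lit 336060) (nat_lit 7) (.e (nat_lit 319533) (nat_lit 16) (.e (nat_lit 286753) (nat_lit 10) (.e (nat_lit 344169) (nat_lit 40) (.e (nat_lit 671751) (nat_lit 0) (.e (nat_lit 1182) (nat_lit 87) (.e (nat_lit 57730) (nat_lit 181) (.e (nat_lit 988) (nat_lit 81) .nil))))))))) (.g (nat_lit 4) .nil .nil))) 
(.lf (nat_lit 57789) (.g (nat_lit 2178) (.e (nat_lit 1449) (nat_lit 108) (.e (nat_lit 336060) (nat_lit 7) (.e (nat_lit 319534) (nat_lit 16) (.e (nat_lit 286756) (nat_lit 10) (.e (nat_lit 344169) (nat_lit 40) (.e (nat_lit 671751) (nat_lit 0) (.e (nat_lit 1182) (nat_lit 87) (.e (nat_lit 57724) (nat_lit 181) (.e (nat_lit 994) (nat_lit 81) .nil))))))))) (.g (nat_lit 4) .nil .nil))))))) 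
(.nd (nat_lit 2) (.nd (nat_lit 3) (.nd (nat_lit 4) (.nd (nat_lit 5) 
(.lf (nat_lit 57731) (.g (nat_lit 2447) (.e (nat_lit 1449) (nat_lit 108) (.e (nat_lit 336028) (nat_lit 3) (.e (nat_lit 98373) (nat_lit 29) (.e (nat_lit 450588) (nat_lit 10) (.e (nat_lit 573475) (nat_lit 12) .nil))))) .nil)) 
(.lf (nat_lit 57763) (.g (nat_lit 2068) (.e (nat_lit 1449) (nat_lit 108) (.e (nat_lit 336060) (nat_lit 7) (.e (nat_lit 319534) (nat_lit 16) (.e (nat_lit 286749) (nat_lit 9) (.e (nat_lit 335997) (nat_lit 1) (.e (nat_lit 57844) (nat_lit 252) (.e (nat_lit 57364) (nat_lit 1) (.e (nat_lit 57830) (nat_lit 250) (.e (nat_lit 1016) (nat_lit 81) .nil))))))))) (.g (nat_lit 5) .nil .nil)))) (.nd (nat_lit 5) 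
(.lf (nat_lit 57747) (.g (nat_lit 2008) (.e (nat_lit 1449) (nat_lit 108) (.e (nat_lit 336060) (nat_lit 7) (.e (nat_lit 319533) (nat_lit 16) (.e (nat_lit 286753) (nat_lit 10) (.e (nat_lit 344168) (nat_lit 40) (.e (nat_lit 671751) (nat_lit 0) (.e (nat_lit 1182) (nat_lit 87) (.e (nat_lit 57724) (nat_lit 181) (.e (nat_lit 995) (nat_lit 81) .nil))))))))) (.g (nat_lit 4) .nil .nil))) 
(.lf (nat_lit 57779) (.g (nat_lit 2286) (.e (nat_lit 1449) (nat_lit 108) (.e (nat_lit 336060) (nat_lit 7) (.e (nat_lit 319534) (nat_lit 16) (.e (nat_lit 286756) (nat_lit 10) (.e (nat_lit 344168) (nat_lit 40) (.e (nat_lit 671751) (nat_lit 0) (.e (nat_lit 1182) (nat_lit 87) (.e (nat_lit 57724) (nat_lit 181) (.e (nat_lit 1012) (nat_lit 81) .nil))))))))) (.g (nat_lit 4) .nil .nil))))) 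
(.nd (nat_lit 4) (.nd (nat_lit 5) 
(.lf (nat_lit 57739) (.g (nat_lit 1983) (.e (nat_lit 1449) (nat_lit 108) (.e (nat_lit 336060) (nat_lit 7) (.e (nat_lit 319533) (nat_lit 16) (.e (nat_lit 286753) (nat_lit 10) (.e (nat_lit 344097) (nat_lit 18) (.e (nat_lit 5194) (nat_lit 294) (.e (nat_lit 57365) (nat_lit 1) (.e (nat_lit 57830) (nat_lit 250) (.e (nat_lit 1016) (nat_lit 81) .nil))))))))) (.g (nat_lit 4) .nil .nil))) 
(.lf (nat_lit 57771) (.g (nat_lit 2651) (.e (nat_lit 1449) (nat_lit 108) (.e (nat_lit 336060) (nat_lit 7) (.e (nat_lit 319534) (nat_lit 16) (.e (nat_lit 286756) (nat_lit 10) (.e (nat_lit 344160) (nat_lit 37) (.e (nat_lit 647195) (nat_lit 9) (.e (nat_lit 1181) (nat_lit 87) (.e (nat_lit 57653) (nat_lit 152) (.e (nat_lit 969) (nat_lit 81) .nil))))))))) (.g (nat_lit 5) .nil .nil)))) (.nd (nat_lit 5) 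
(.lf (nat_lit 57755) (.g (nat_lit 2801) (.e (nat_lit 1449) (nat_lit 108) (.e (nat_lit 336060) (nat_lit 7) (.e (nat_lit 319533) (nat_lit 16) (.e (nat_lit 286753) (nat_lit 10) (.e (nat_lit 344169) (nat_lit 40) (.e (nat_lit 671751) (nat_lit 0) (.e (nat_lit 1182) (nat_lit 87) (.e (nat_lit 57728) (nat_lit 181) (.e (nat_lit 994) (nat_lit 81) .nil))))))))) (.g (nat_lit 5) .nil .nil))) 
(.lf (nat_lit 57787) (.g (nat_lit 2220) (.e (nat_lit 1449) (nat_lit 108) (.e (nat_lit 336060) (nat_lit 7) (.e (nat_lit 319534) (nat_lit 16) (.e (nat_lit 286756) (nat_lit 10) (.e (nat_lit 344169) (nat_lit 40) (.e (nat_lit 671751) (nat_lit 0) (.e (nat_lit 1182) (nat_lit 87) (.e (nat_lit 57724) (nat_lit 181) (.e (nat_lit 992) (nat_lit 81) .nil))))))))) (.g (nat_lit 4) .nil .nil)))))) 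
(.nd (nat_lit 3) (.nd (nat_lit 4) (.nd (nat_lit 5) 
(.lf (nat_lit 57735) (.g (nat_lit 3276) (.e (nat_lit 1449) (nat_lit 108) (.e (nat_lit 336060) (nat_lit 7) (.e (nat_lit 319505) (nat_lit 10) (.e (nat_lit 618) (nat_lit 48) (.e (nat_lit 557107) (nat_lit 15) (.e (nat_lit 188440) (nat_lit 20) (.e (nat_lit 3578) (nat_lit 223) (.e (nat_lit 745476) (nat_lit 0) .nil)))))))) (.g (nat_lit 6) .nil .nil))) 
(.lf (nat_lit 57767) (.g (nat_lit 2955) (.e (nat_lit 1449) (nat_lit 108) (.e (nat_lit 336060) (nat_lit 7) (.e (nat_lit 319534) (nat_lit 16) (.e (nat_lit 286756) (nat_lit 10) (.e (nat_lit 344097) (nat_lit 18) (.e (nat_lit 5195) (nat_lit 294) (.e (nat_lit 57363) (nat_lit 1) (.e (nat_lit 57825) (nat_lit 250) (.e (nat_lit 1007) (nat_lit 81) .nil))))))))) (.g (nat_lit 6) .nil .nil)))) (.nd (nat_lit 5) 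
(.lf (nat_lit 57751) (.g (nat_lit 1904) (.e (nat_lit 1449) (nat_lit 108) (.e (nat_lit 336060) (nat_lit 7) (.e (nat_lit 319533) (nat_lit 16) (.e (nat_lit 286753) (nat_lit 10) (.e (nat_lit 344168) (nat_lit 40) (.e (nat_lit 671751) (nat_lit 0) (.e (nat_lit 1182) (nat_lit 87) (.e (nat_lit 57730) (nat_lit 181) (.e (nat_lit 995) (nat_lit 81) .nil))))))))) (.g (nat_lit 4) .nil .nil))) 
(.lf (nat_lit 57783) (.g (nat_lit 2926) (.e (nat_lit 1449) (nat_lit 108) (.e (nat_lit 336060) (nat_lit 7) (.e (nat_lit 319534) (nat_lit 16) (.e (nat_lit 286756) (nat_lit 10) (.e (nat_lit 344168) (nat_lit 40) (.e (nat_lit 671751) (nat_lit 0) (.e (nat_lit 1182) (nat_lit 87) (.e (nat_lit 57728) (nat_lit 181) (.e (nat_lit 1012) (nat_lit 81) .nil))))))))) (.g (nat_lit 5) .nil .nil))))) 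
(.nd (nat_lit 4) (.nd (nat_lit 5) 
(.lf (nat_lit 57743) (.g (nat_lit 2228) (.e (nat_lit 1449) (nat_lit 108) (.e (nat_lit 336060) (nat_lit 7) (.e (nat_lit 319533) (nat_lit 16) (.e (nat_lit 286753) (nat_lit 10) (.e (nat_lit 344097) (nat_lit 18) (.e (nat_lit 5195) (nat_lit 294) (.e (nat_lit 57363) (nat_lit 1) (.e (nat_lit 57825) (nat_lit 250) (.e (nat_lit 1000) (nat_lit 81) .nil))))))))) (.g (nat_lit 5) .nil .nil))) 
(.lf (nat_lit 57775) (.g (nat_lit 2368) (.e (nat_lit 1449) (nat_lit 108) (.e (nat_lit 336060) (nat_lit 7) (.e (nat_lit 319534) (nat_lit 16) (.e (nat_lit 286756) (nat_lit 10) (.e (nat_lit 344168) (nat_lit 40) (.e (nat_lit 671751) (nat_lit 0) (.e (nat_lit 1182) (nat_lit 87) (.e (nat_lit 57724) (nat_lit 181) (.e (nat_lit 992) (nat_lit 81) .nil))))))))) (.g (nat_lit 4) .nil .nil)))) (.nd (nat_lit 5) 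
(.lf (nat_lit 57759) (.g (nat_lit 2917) (.e (nat_lit 1449) (nat_lit 108) (.e (nat_lit 336060) (nat_lit 7) (.e (nat_lit 319533) (nat_lit 16) (.e (nat_lit 286753) (nat_lit 10) (.e (nat_lit 344169) (nat_lit 40) (.e (nat_lit 671751) (nat_lit 0) (.e (nat_lit 1182) (nat_lit 87) (.e (nat_lit 57731) (nat_lit 181) (.e (nat_lit 995) (nat_lit 81) .nil))))))))) (.g (nat_lit 5) .nil .nil))) 
(.lf (nat_lit 57791) (.g (nat_lit 2138) (.e (nat_lit 1449) (nat_lit 108) (.e (nat_lit 336060) (nat_lit 7) (.e (nat_lit 319534) (nat_lit 16) (.e (nat_lit 286756) (nat_lit 10) (.e (nat_lit 344169) (nat_lit 40) (.e (nat_lit 671751) (nat_lit 0) (.e (nat_lit 1182) (nat_lit 87) (.e (nat_lit 57724) (nat_lit 181) (.e (nat_lit 1012) (nat_lit 81) .nil))))))))) (.g (nat_lit 4) .nil .nil)))))))))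

noncomputable def tv795 : DT := (.nd (nat_lit 0) (.nd (nat_lit 1) (.nd (nat_lit 2) (.nd (nat_lit 3) (.nd (nat_lit 4) (.nd (nat_lit 5) 
(.lf (nat_lit 57792) (.g (nat_lit 2863) (.e (nat_lit 1449) (nat_lit 108) (.e (nat_lit 336060) (nat_lit 7) (.e (nat_lit 319534) (nat_lit 16) (.e (nat_lit 286756) (nat_lit 10) (.e (nat_lit 344169) (nat_lit 40) (.e (nat_lit 671751) (nat_lit 0) (.e (nat_lit 1182) (nat_lit 87) (.e (nat_lit 57728) (nat_lit 181) (.e (nat_lit 992) (nat_lit 81) .nil))))))))) (.g (nat_lit 5) .nil .nil))) 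
(.lf (nat_lit 57824) (.g (nat_lit 3144) (.e (nat_lit 1452) (nat_lit 108) (.e (nat_lit 336013) (nat_lit 2) (.e (nat_lit 90170) (nat_lit 13) (.e (nat_lit 172106) (nat_lit 10) (.e (nat_lit 434231) (nat_lit 23) .nil))))) .nil))) (.nd (nat_lit 5) 
(.lf (nat_lit 57808) (.g (nat_lit 2283) (.e (nat_lit 1449) (nat_lit 108) (.e (nat_lit 336205) (nat_lit 12) (.e (nat_lit 385074) (nat_lit 31) (.e (nat_lit 573491) (nat_lit 15) (.e (nat_lit 81943) (nat_lit 20) (.e (nat_lit 1841) (nat_lit 123) (.e (nat_lit 548874) (nat_lit 5) .nil))))))) (.g (nat_lit 5) .nil .nil))) 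
(.lf (nat_lit 57840) (.g (nat_lit 2663) (.e (nat_lit 1452) (nat_lit 108) (.e (nat_lit 336028) (nat_lit 3) (.e (nat_lit 98373) (nat_lit 29) (.e (nat_lit 450587) (nat_lit 10) (.e (nat_lit 573477) (nat_lit 12) .nil))))) .nil)))) (.nd (nat_lit 4) (.nd (nat_lit 5) 
(.lf (nat_lit 57800) (.g (nat_lit 4081) (.e (nat_lit 1449) (nat_lit 108) (.e (nat_lit 336099) (nat_lit 9) (.e (nat_lit 336013) (nat_lit 2) (.e (nat_lit 90134) (nat_lit 9) (.e (nat_lit 2828) (nat_lit 182) .nil))))) .nil)) 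
(.lf (nat_lit 57832) (.g (nat_lit 3777) (.e (nat_lit 1452) (nat_lit 108) (.e (nat_lit 336013) (nat_lit 2) (.e (nat_lit 90170) (nat_lit 13) (.e (nat_lit 172113) (nat_lit 10) (.e (nat_lit 434242) (nat_lit 28) .nil))))) .nil))) (.nd (nat_lit 5) 
(.lf (nat_lit 57816) (.g (nat_lit 1982) (.e (nat_lit 1450) (nat_lit 108) (.e (nat_lit 336060) (nat_lit 7) (.e (nat_lit 319534) (nat_lit 16) (.e (nat_lit 286756) (nat_lit 10) (.e (nat_lit 344097) (nat_lit 18) .nil))))) .nil)) 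
(.lf (nat_lit 57848) (.g (nat_lit 1063) (.e (nat_lit 1452) (nat_lit 108) (.e (nat_lit 336173) (nat_lit 10) (.e (nat_lit 344169) (nat_lit 40) (.e (nat_lit 671764) (nat_lit 6) .nil)))) .nil))))) (.nd (nat_lit 3) (.nd (nat_lit 4) (.nd (nat_lit 5) 
(.lf (nat_lit 57796) (.g (nat_lit 2862) (.e (nat_lit 1449) (nat_lit 108) (.e (nat_lit 336060) (nat_lit 7) (.e (nat_lit 319534) (nat_lit 16) (.e (nat_lit 286756) (nat_lit 10) (.e (nat_lit 344169) (nat_lit 40) (.e (nat_lit 671751) (nat_lit 0) (.e (nat_lit 1182) (nat_lit 87) (.e (nat_lit 57731) (nat_lit 181) (.e (nat_lit 995) (nat_lit 81) .nil))))))))) (.g (nat_lit 5) .nil .nil))) 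
(.lf (nat_lit 57828) (.g (nat_lit 3160) (.e (nat_lit 1452) (nat_lit 108) (.e (nat_lit 336013) (nat_lit 2) (.e (nat_lit 90170) (nat_lit 13) (.e (nat_lit 172106) (nat_lit 10) (.e (nat_lit 434231) (nat_lit 23) (.e (nat_lit 532500) (nat_lit 1) (.e (nat_lit 65280) (nat_lit 221) (.e (nat_lit 1006) (nat_lit 81) .nil)))))))) (.g (nat_lit 4) .nil .nil)))) (.nd (nat_lit 5) 
(.lf (nat_lit 57812) (.g (nat_lit 3172) (.e (nat_lit 1449) (nat_lit 108) (.e (nat_lit 336205) (nat_lit 12) (.e (nat_lit 385074) (nat_lit 31) (.e (nat_lit 573493) (nat_lit 15) (.e (nat_lit 81938) (nat_lit 20) (.e (nat_lit 1841) (nat_lit 123) (.e (nat_lit 548874) (nat_lit 5) .nil))))))) (.g (nat_lit 5) .nil .nil))) 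
(.lf (nat_lit 57844) (.g (nat_lit 2373) (.e (nat_lit 1452) (nat_lit 108) (.e (nat_lit 336083) (nat_lit 9) (.e (nat_lit 336369) (nat_lit 27) (.e (nat_lit 426173) (nat_lit 7) (.e (nat_lit 409649) (nat_lit 18) (.e (nat_lit 303111) (nat_lit 0) (.e (nat_lit 3468) (nat_lit 217) (.e (nat_lit 696350) (nat_lit 13) .nil)))))))) (.g (nat_lit 5) .nil .nil))))) (.nd (nat_lit 4) (.nd (nat_lit 5) 
(.lf (nat_lit 57804) (.g (nat_lit 2861) (.e (nat_lit 1449) (nat_lit 108) (.e (nat_lit 336198) (nat_lit 12) (.e (nat_lit 385074) (nat_lit 31) (.e (nat_lit 573493) (nat_lit 15) (.e (nat_lit 81947) (nat_lit 20) .nil))))) .nil)) 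
(.lf (nat_lit 57836) (.g (nat_lit 3994) (.e (nat_lit 1452) (nat_lit 108) (.e (nat_lit 336013) (nat_lit 2) (.e (nat_lit 90170) (nat_lit 13) (.e (nat_lit 172113) (nat_lit 10) (.e (nat_lit 434247) (nat_lit 28) .nil))))) .nil))) (.nd (nat_lit 5) 
(.lf (nat_lit 57820) (.g (nat_lit 3170) (.e (nat_lit 1451) (nat_lit 108) (.e (nat_lit 336013) (nat_lit 2) (.e (nat_lit 90170) (nat_lit 13) (.e (nat_lit 172106) (nat_lit 10) (.e (nat_lit 434231) (nat_lit 23) .nil))))) .nil)) 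
(.lf (nat_lit 57852) (.g (nat_lit 3784) (.e (nat_lit 1453) (nat_lit 108) (.e (nat_lit 336013) (nat_lit 2) (.e (nat_lit 90170) (nat_lit 13) (.e (nat_lit 172113) (nat_lit 10) (.e (nat_lit 434242) (nat_lit 28) .nil))))) .nil)))))) (.nd (nat_lit 2) (.nd (nat_lit 3) (.nd (nat_lit 4) (.nd (nat_lit 5) 
(.lf (nat_lit 57794) (.g (nat_lit 2778) (.e (nat_lit 1449) (nat_lit 108) (.e (nat_lit 336060) (nat_lit 7) (.e (nat_lit 319534) (nat_lit 16) (.e (nat_lit 286756) (nat_lit 10) (.e (nat_lit 344169) (nat_lit 40) (.e (nat_lit 671751) (nat_lit 0) (.e (nat_lit 1182) (nat_lit 87) (.e (nat_lit 57728) (nat_lit 181) (.e (nat_lit 1012) (nat_lit 81) .nil))))))))) (.g (nat_lit 5) .nil .nil))) 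
(.lf (nat_lit 57826) (.g (nat_lit 3164) (.e (nat_lit 1452) (nat_lit 108) (.e (nat_lit 336013) (nat_lit 2) (.e (nat_lit 90170) (nat_lit 13) (.e (nat_lit 172106) (nat_lit 10) (.e (nat_lit 434231) (nat_lit 23) (.e (nat_lit 532483) (nat_lit 0) (.e (nat_lit 1911) (nat_lit 129) (.e (nat_lit 598022) (nat_lit 5) .nil)))))))) (.g (nat_lit 4) .nil .nil)))) (.nd (nat_lit 5) 
(.lf (nat_lit 57810) (.g (nat_lit 2700) (.e (nat_lit 1449) (nat_lit 108) (.e (nat_lit 336205) (nat_lit 12) (.e (nat_lit 385074) (nat_lit 31) (.e (nat_lit 573491) (nat_lit 15) (.e (nat_lit 81946) (nat_lit 20) (.e (nat_lit 1841) (nat_lit 123) (.e (nat_lit 548874) (nat_lit 5) .nil))))))) (.g (nat_lit 5) .nil .nil))) 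
(.lf (nat_lit 57842) (.g (nat_lit 2826) (.e (nat_lit 1452) (nat_lit 108) (.e (nat_lit 336028) (nat_lit 3) (.e (nat_lit 98373) (nat_lit 29) (.e (nat_lit 450588) (nat_lit 10) (.e (nat_lit 573473) (nat_lit 12) .nil))))) .nil)))) (.nd (nat_lit 4) (.nd (nat_lit 5) 
(.lf (nat_lit 57802) (.g (nat_lit 2864) (.e (nat_lit 1449) (nat_lit 108) (.e (nat_lit 336198) (nat_lit 12) (.e (nat_lit 385074) (nat_lit 31) (.e (nat_lit 573491) (nat_lit 15) (.e (nat_lit 81943) (nat_lit 20) (.e (nat_lit 1842) (nat_lit 123) (.e (nat_lit 548874) (nat_lit 5) .nil))))))) (.g (nat_lit 5) .nil .nil))) 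
(.lf (nat_lit 57834) (.g (nat_lit 3917) (.e (nat_lit 1452) (nat_lit 108) (.e (nat_lit 336013) (nat_lit 2) (.e (nat_lit 90170) (nat_lit 13) (.e (nat_lit 172113) (nat_lit 10) (.e (nat_lit 434245) (nat_lit 28) .nil))))) .nil))) (.nd (nat_lit 5) 
(.lf (nat_lit 57818) (.g (nat_lit 2268) (.e (nat_lit 1450) (nat_lit 108) (.e (nat_lit 336060) (nat_lit 7) (.e (nat_lit 319534) (nat_lit 16) (.e (nat_lit 286756) (nat_lit 10) (.e (nat_lit 344168) (nat_lit 40) .nil))))) .nil)) 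
(.lf (nat_lit 57850) (.g (nat_lit 3164) (.e (nat_lit 1453) (nat_lit 108) (.e (nat_lit 336013) (nat_lit 2) (.e (nat_lit 90170) (nat_lit 13) (.e (nat_lit 172106) (nat_lit 10) (.e (nat_lit 434231) (nat_lit 23) .nil))))) .nil))))) (.nd (nat_lit 3) (.nd (nat_lit 4) (.nd (nat_lit 5) 
(.lf (nat_lit 57798) (.g (nat_lit 2486) (.e (nat_lit 1449) (nat_lit 108) (.e (nat_lit 336083) (nat_lit 9) (.e (nat_lit 336369) (nat_lit 27) (.e (nat_lit 426173) (nat_lit 7) (.e (nat_lit 409649) (nat_lit 18) (.e (nat_lit 303111) (nat_lit 0) (.e (nat_lit 3468) (nat_lit 217) (.e (nat_lit 696350) (nat_lit 13) .nil)))))))) (.g (nat_lit 5) .nil .nil))) 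
(.lf (nat_lit 57830) (.g (nat_lit 2899) (.e (nat_lit 1452) (nat_lit 108) (.e (nat_lit 336013) (nat_lit 2) (.e (nat_lit 90170) (nat_lit 13) (.e (nat_lit 172106) (nat_lit 10) (.e (nat_lit 434244) (nat_lit 28) .nil))))) .nil))) (.nd (nat_lit 5) 
(.lf (nat_lit 57814) (.g (nat_lit 1827) (.e (nat_lit 1449) (nat_lit 108) (.e (nat_lit 336224) (nat_lit 13) (.e (nat_lit 393301) (nat_lit 27) (.e (nat_lit 491560) (nat_lit 10) (.e (nat_lit 344175) (nat_lit 43) .nil))))) .nil)) 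
(.lf (nat_lit 57846) (.g (nat_lit 4099) (.e (nat_lit 1452) (nat_lit 108) (.e (nat_lit 336099) (nat_lit 9) (.e (nat_lit 336013) (nat_lit 2) (.e (nat_lit 90134) (nat_lit 9) (.e (nat_lit 2828) (nat_lit 182) .nil))))) .nil)))) (.nd (nat_lit 4) (.nd (nat_lit 5) 
(.lf (nat_lit 57806) (.g (nat_lit 2598) (.e (nat_lit 1449) (nat_lit 108) (.e (nat_lit 336205) (nat_lit 12) (.e (nat_lit 385074) (nat_lit 31) (.e (nat_lit 573484) (nat_lit 13) (.e (nat_lit 65617) (nat_lit 10) (.e (nat_lit 344126) (nat_lit 25) (.e (nat_lit 548874) (nat_lit 5) .nil))))))) (.g (nat_lit 5) .nil .nil))) 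
(.lf (nat_lit 57838) (.g (nat_lit 1991) (.e (nat_lit 1452) (nat_lit 108) (.e (nat_lit 336028) (nat_lit 3) (.e (nat_lit 98359) (nat_lit 26) (.e (nat_lit 426286) (nat_lit 10) (.e (nat_lit 434248) (nat_lit 28) (.e (nat_lit 573475) (nat_lit 12) (.e (nat_lit 57347) (nat_lit 0) (.e (nat_lit 7124) (nat_lit 382) (.e (nat_lit 1016) (nat_lit 81) .nil))))))))) (.g (nat_lit 4) .nil .nil)))) (.nd (nat_lit 5) 
(.lf (nat_lit 57822) (.g (nat_lit 3137) (.e (nat_lit 1451) (nat_lit 108) (.e (nat_lit 336013) (nat_lit 2) (.e (nat_lit 90170) (nat_lit 13) (.e (nat_lit 172113) (nat_lit 10) .nil)))) .nil)) 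
(.lf (nat_lit 57854) (.g (nat_lit 4001) (.e (nat_lit 1453) (nat_lit 108) (.e (nat_lit 336013) (nat_lit 2) (.e (nat_lit 90170) (nat_lit 13) (.e (nat_lit 172113) (nat_lit 10) (.e (nat_lit 434247) (nat_lit 28) .nil))))) .nil))))))) (.nd (nat_lit 1) (.nd (nat_lit 2) (.nd (nat_lit 3) (.nd (nat_lit 4) (.nd (nat_lit 5) 
(.lf (nat_lit 57793) (.g (nat_lit 2781) (.e (nat_lit 1449) (nat_lit 108) (.e (nat_lit 336060) (nat_lit 7) (.e (nat_lit 319534) (nat_lit 16) (.e (nat_lit 286756) (nat_lit 10) (.e (nat_lit 344169) (nat_lit 40) (.e (nat_lit 671751) (nat_lit 0) (.e (nat_lit 1182) (nat_lit 87) (.e (nat_lit 57728) (nat_lit 181) (.e (nat_lit 993) (nat_lit 81) .nil))))))))) (.g (nat_lit 5) .nil .nil))) 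
(.lf (nat_lit 57825) (.g (nat_lit 3173) (.e (nat_lit 1452) (nat_lit 108) (.e (nat_lit 336013) (nat_lit 2) (.e (nat_lit 90170) (nat_lit 13) (.e (nat_lit 172106) (nat_lit 10) (.e (nat_lit 434231) (nat_lit 23) (.e (nat_lit 532482) (nat_lit 0) (.e (nat_lit 971) (nat_lit 81) (.e (nat_lit 4493) (nat_lit 263) (.e (nat_lit 1014) (nat_lit 81) .nil))))))))) (.g (nat_lit 4) .nil .nil)))) (.nd (nat_lit 5) 
(.lf (nat_lit 57809) (.g (nat_lit 2861) (.e (nat_lit 1449) (nat_lit 108) (.e (nat_lit 336205) (nat_lit 12) (.e (nat_lit 385074) (nat_lit 31) (.e (nat_lit 573491) (nat_lit 15) (.e (nat_lit 81943) (nat_lit 20) (.e (nat_lit 1842) (nat_lit 123) (.e (nat_lit 548874) (nat_lit 5) .nil))))))) (.g (nat_lit 6) .nil .nil))) 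
(.lf (nat_lit 57841) (.g (nat_lit 2623) (.e (nat_lit 1452) (nat_lit 108) (.e (nat_lit 336028) (nat_lit 3) (.e (nat_lit 98373) (nat_lit 29) (.e (nat_lit 450587) (nat_lit 10) (.e (nat_lit 573478) (nat_lit 12) .nil))))) .nil)))) (.nd (nat_lit 4) (.nd (nat_lit 5) 
(.lf (nat_lit 57801) (.g (nat_lit 2599) (.e (nat_lit 1449) (nat_lit 108) (.e (nat_lit 336198) (nat_lit 12) (.e (nat_lit 385074) (nat_lit 31) (.e (nat_lit 573491) (nat_lit 15) (.e (nat_lit 81943) (nat_lit 20) .nil))))) .nil)) 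
(.lf (nat_lit 57833) (.g (nat_lit 3802) (.e (nat_lit 1452) (nat_lit 108) (.e (nat_lit 336013) (nat_lit 2) (.e (nat_lit 90170) (nat_lit 13) (.e (nat_lit 172113) (nat_lit 10) (.e (nat_lit 434242) (nat_lit 28) (.e (nat_lit 573474) (nat_lit 12) (.e (nat_lit 57348) (nat_lit 0) (.e (nat_lit 7124) (nat_lit 382) (.e (nat_lit 1016) (nat_lit 81) .nil))))))))) (.g (nat_lit 4) .nil .nil)))) (.nd (nat_lit 5) 
(.lf (nat_lit 57817) (.g (nat_lit 2193) (.e (nat_lit 1450) (nat_lit 108) (.e (nat_lit 336060) (nat_lit 7) (.e (nat_lit 319534) (nat_lit 16) (.e (nat_lit 286756) (nat_lit 10) (.e (nat_lit 344160) (nat_lit 37) .nil))))) .nil)) 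
(.lf (nat_lit 57849) (.g (nat_lit 2325) (.e (nat_lit 1452) (nat_lit 108) (.e (nat_lit 336219) (nat_lit 13) (.e (nat_lit 393301) (nat_lit 27) (.e (nat_lit 491559) (nat_lit 10) (.e (nat_lit 344177) (nat_lit 43) (.e (nat_lit 770057) (nat_lit 5) .nil)))))) (.g (nat_lit 4) .nil .nil)))))) (.nd (nat_lit 3) (.nd (nat_lit 4) (.nd (nat_lit 5) 
(.lf (nat_lit 57797) (.g (nat_lit 2875) (.e (nat_lit 1449) (nat_lit 108) (.e (nat_lit 336060) (nat_lit 7) (.e (nat_lit 319534) (nat_lit 16) (.e (nat_lit 286756) (nat_lit 10) (.e (nat_lit 344169) (nat_lit 40) (.e (nat_lit 671751) (nat_lit 0) (.e (nat_lit 1182) (nat_lit 87) (.e (nat_lit 57731) (nat_lit 181) (.e (nat_lit 1015) (nat_lit 81) .nil))))))))) (.g (nat_lit 5) .nil .nil))) 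
(.lf (nat_lit 57829) (.g (nat_lit 3168) (.e (nat_lit 1452) (nat_lit 108) (.e (nat_lit 336013) (nat_lit 2) (.e (nat_lit 90170) (nat_lit 13) (.e (nat_lit 172106) (nat_lit 10) (.e (nat_lit 434231) (nat_lit 23) (.e (nat_lit 532517) (nat_lit 4) (.e (nat_lit 123116) (nat_lit 221) (.e (nat_lit 1008) (nat_lit 81) .nil)))))))) (.g (nat_lit 4) .nil .nil)))) (.nd (nat_lit 5) 
(.lf (nat_lit 57813) (.g (nat_lit 2928) (.e (nat_lit 1449) (nat_lit 108) (.e (nat_lit 336205) (nat_lit 12) (.e (nat_lit 385074) (nat_lit 31) (.e (nat_lit 573493) (nat_lit 15) (.e (nat_lit 81947) (nat_lit 20) .nil))))) .nil)) 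
(.lf (nat_lit 57845) (.g (nat_lit 3105) (.e (nat_lit 1452) (nat_lit 108) (.e (nat_lit 336099) (nat_lit 9) (.e (nat_lit 336013) (nat_lit 2) (.e (nat_lit 90129) (nat_lit 9) .nil)))) .nil)))) (.nd (nat_lit 4) (.nd (nat_lit 5) 
(.lf (nat_lit 57805) (.g (nat_lit 2053) (.e (nat_lit 1449) (nat_lit 108) (.e (nat_lit 336200) (nat_lit 12) (.e (nat_lit 385074) (nat_lit 31) (.e (nat_lit 573484) (nat_lit 13) (.e (nat_lit 65617) (nat_lit 10) (.e (nat_lit 344126) (nat_lit 25) (.e (nat_lit 548874) (nat_lit 5) .nil))))))) (.g (nat_lit 4) .nil .nil))) 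
(.lf (nat_lit 57837) (.g (nat_lit 3926) (.e (nat_lit 1452) (nat_lit 108) (.e (nat_lit 336013) (nat_lit 2) (.e (nat_lit 90170) (nat_lit 13) (.e (nat_lit 172113) (nat_lit 10) (.e (nat_lit 434248) (nat_lit 28) .nil))))) .nil))) (.nd (nat_lit 5) 
(.lf (nat_lit 57821) (.g (nat_lit 2925) (.e (nat_lit 1451) (nat_lit 108) (.e (nat_lit 336013) (nat_lit 2) (.e (nat_lit 90170) (nat_lit 13) (.e (nat_lit 172106) (nat_lit 10) (.e (nat_lit 434244) (nat_lit 28) .nil))))) .nil)) 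
(.lf (nat_lit 57853) (.g (nat_lit 3924) (.e (nat_lit 1453) (nat_lit 108) (.e (nat_lit 336013) (nat_lit 2) (.e (nat_lit 90170) (nat_lit 13) (.e (nat_lit 172113) (nat_lit 10) (.e (nat_lit 434245) (nat_lit 28) .nil))))) .nil)))))) (.nd (nat_lit 2) (.nd (nat_lit 3) (.nd (nat_lit 4) (.nd (nat_lit 5) 
(.lf (nat_lit 57795) (.g (nat_lit 2169) (.e (nat_lit 1449) (nat_lit 108) (.e (nat_lit 336060) (nat_lit 7) (.e (nat_lit 319534) (nat_lit 16) (.e (nat_lit 286756) (nat_lit 10) (.e (nat_lit 344169) (nat_lit 40) (.e (nat_lit 671751) (nat_lit 0) (.e (nat_lit 1182) (nat_lit 87) (.e (nat_lit 57730) (nat_lit 181) (.e (nat_lit 992) (nat_lit 81) .nil))))))))) (.g (nat_lit 4) .nil .nil))) 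
(.lf (nat_lit 57827) (.g (nat_lit 3165) (.e (nat_lit 1452) (nat_lit 108) (.e (nat_lit 336013) (nat_lit 2) (.e (nat_lit 90170) (nat_lit 13) (.e (nat_lit 172106) (nat_lit 10) (.e (nat_lit 434231) (nat_lit 23) (.e (nat_lit 532491) (nat_lit 0) (.e (nat_lit 1908) (nat_lit 129) (.e (nat_lit 598024) (nat_lit 5) .nil)))))))) (.g (nat_lit 4) .nil .nil)))) (.nd (nat_lit 5) 
(.lf (nat_lit 57811) (.g (nat_lit 3263) (.e (nat_lit 1449) (nat_lit 108) (.e (nat_lit 336205) (nat_lit 12) (.e (nat_lit 385074) (nat_lit 31) (.e (nat_lit 573491) (nat_lit 15) (.e (nat_lit 81946) (nat_lit 20) (.e (nat_lit 1842) (nat_lit 123) (.e (nat_lit 548874) (nat_lit 5) .nil))))))) (.g (nat_lit 6) .nil .nil))) 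
(.lf (nat_lit 57843) (.g (nat_lit 2827) (.e (nat_lit 1452) (nat_lit 108) (.e (nat_lit 336028) (nat_lit 3) (.e (nat_lit 98373) (nat_lit 29) (.e (nat_lit 450588) (nat_lit 10) (.e (nat_lit 573475) (nat_lit 12) .nil))))) .nil)))) (.nd (nat_lit 4) (.nd (nat_lit 5) 
(.lf (nat_lit 57803) (.g (nat_lit 2485) (.e (nat_lit 1449) (nat_lit 108) (.e (nat_lit 336198) (nat_lit 12) (.e (nat_lit 385074) (nat_lit 31) (.e (nat_lit 573491) (nat_lit 15) (.e (nat_lit 81947) (nat_lit 20) .nil))))) .nil)) 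
(.lf (nat_lit 57835) (.g (nat_lit 3938) (.e (nat_lit 1452) (nat_lit 108) (.e (nat_lit 336013) (nat_lit 2) (.e (nat_lit 90170) (nat_lit 13) (.e (nat_lit 172113) (nat_lit 10) (.e (nat_lit 434245) (nat_lit 28) (.e (nat_lit 573474) (nat_lit 12) (.e (nat_lit 57351) (nat_lit 0) (.e (nat_lit 7122) (nat_lit 382) (.e (nat_lit 1016) (nat_lit 81) .nil))))))))) (.g (nat_lit 4) .nil .nil)))) (.nd (nat_lit 5) 
(.lf (nat_lit 57819) (.g (nat_lit 2130) (.e (nat_lit 1450) (nat_lit 108) (.e (nat_lit 336060) (nat_lit 7) (.e (nat_lit 319534) (nat_lit 16) (.e (nat_lit 286756) (nat_lit 10) (.e (nat_lit 344169) (nat_lit 40) .nil))))) .nil)) 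
(.lf (nat_lit 57851) (.g (nat_lit 2919) (.e (nat_lit 1453) (nat_lit 108) (.e (nat_lit 336013) (nat_lit 2) (.e (nat_lit 90170) (nat_lit 13) (.e (nat_lit 172106) (nat_lit 10) (.e (nat_lit 434244) (nat_lit 28) .nil))))) .nil))))) (.nd (nat_lit 3) (.nd (nat_lit 4) (.nd (nat_lit 5) 
(.lf (nat_lit 57799) (.g (nat_lit 3088) (.e (nat_lit 1449) (nat_lit 108) (.e (nat_lit 336099) (nat_lit 9) (.e (nat_lit 336013) (nat_lit 2) (.e (nat_lit 90129) (nat_lit 9) .nil)))) .nil)) 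
(.lf (nat_lit 57831) (.g (nat_lit 3127) (.e (nat_lit 1452) (nat_lit 108) (.e (nat_lit 336013) (nat_lit 2) (.e (nat_lit 90170) (nat_lit 13) (.e (nat_lit 172113) (nat_lit 10) .nil)))) .nil))) (.nd (nat_lit 5) 
(.lf (nat_lit 57815) (.g (nat_lit 1810) (.e (nat_lit 1449) (nat_lit 108) (.e (nat_lit 336228) (nat_lit 14) (.e (nat_lit 401425) (nat_lit 2) (.e (nat_lit 196672) (nat_lit 15) (.e (nat_lit 81943) (nat_lit 20) .nil))))) .nil)) 
(.lf (nat_lit 57847) (.g (nat_lit 2618) (.e (nat_lit 1452) (nat_lit 108) (.e (nat_lit 336173) (nat_lit 10) (.e (nat_lit 344126) (nat_lit 25) (.e (nat_lit 548889) (nat_lit 9) (.e (nat_lit 65586) (nat_lit 7) .nil))))) .nil)))) (.nd (nat_lit 4) (.nd (nat_lit 5) 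
(.lf (nat_lit 57807) (.g (nat_lit 2185) (.e (nat_lit 1449) (nat_lit 108) (.e (nat_lit 336205) (nat_lit 12) (.e (nat_lit 385074) (nat_lit 31) (.e (nat_lit 573491) (nat_lit 15) (.e (nat_lit 81943) (nat_lit 20) (.e (nat_lit 1840) (nat_lit 123) (.e (nat_lit 548874) (nat_lit 5) .nil))))))) (.g (nat_lit 4) .nil .nil))) 
(.lf (nat_lit 57839) (.g (nat_lit 1550) (.e (nat_lit 1452) (nat_lit 108) (.e (nat_lit 336028) (nat_lit 3) (.e (nat_lit 98372) (nat_lit 29) (.e (nat_lit 450586) (nat_lit 10) .nil)))) .nil))) (.nd (nat_lit 5) 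
(.lf (nat_lit 57823) (.g (nat_lit 2575) (.e (nat_lit 1452) (nat_lit 108) (.e (nat_lit 336013) (nat_lit 2) (.e (nat_lit 90170) (nat_lit 13) (.e (nat_lit 172106) (nat_lit 10) .nil)))) .nil)) 
(.lf (nat_lit 57855) (.g (nat_lit 3933) (.e (nat_lit 1453) (nat_lit 108) (.e (nat_lit 336013) (nat_lit 2) (.e (nat_lit 90170) (nat_lit 13) (.e (nat_lit 172113) (nat_lit 10) (.e (nat_lit 434248) (nat_lit 28) .nil))))) .nil))))))))

noncomputable def tv796 : DT := (.nd (nat_lit 0) (.nd (nat_lit 1) (.nd (nat_lit 2) (.nd (nat_lit 3) (.nd (nat_lit 4) (.nd (nat_lit 5) 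
(.lf (nat_lit 57856) (.g (nat_lit 3942) (.e (nat_lit 1453) (nat_lit 108) (.e (nat_lit 336013) (nat_lit 2) (.e (nat_lit 90170) (nat_lit 13) (.e (nat_lit 172113) (nat_lit 10) (.e (nat_lit 434248) (nat_lit 28) (.e (nat_lit 573475) (nat_lit 12) (.e (nat_lit 57347) (nat_lit 0) (.e (nat_lit 7125) (nat_lit 382) (.e (nat_lit 1016) (nat_lit 81) .nil))))))))) (.g (nat_lit 4) .nil .nil))) 
(.lf (nat_lit 57888) (.g (nat_lit 4143) (.e (nat_lit 1454) (nat_lit 108) (.e (nat_lit 336001) (nat_lit 2) (.e (nat_lit 90170) (nat_lit 13) (.e (nat_lit 172113) (nat_lit 10) (.e (nat_lit 434248) (nat_lit 28) (.e (nat_lit 573475) (nat_lit 12) (.e (nat_lit 57569) (nat_lit 53) (.e (nat_lit 761866) (nat_lit 5) .nil)))))))) (.g (nat_lit 6) .nil .nil)))) (.nd (nat_lit 5) 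
(.lf (nat_lit 57872) (.g (nat_lit 2056) (.e (nat_lit 1454) (nat_lit 108) (.e (nat_lit 335928) (nat_lit 0) (.e (nat_lit 1788) (nat_lit 119) (.e (nat_lit 516165) (nat_lit 12) (.e (nat_lit 450586) (nat_lit 10) (.e (nat_lit 573473) (nat_lit 12) (.e (nat_lit 57569) (nat_lit 53) (.e (nat_lit 761866) (nat_lit 5) .nil)))))))) (.g (nat_lit 4) .nil .nil))) 
(.lf (nat_lit 57904) (.g (nat_lit 3550) (.e (nat_lit 1454) (nat_lit 108) (.e (nat_lit 336013) (nat_lit 2) (.e (nat_lit 90170) (nat_lit 13) (.e (nat_lit 172113) (nat_lit 10) (.e (nat_lit 434247) (nat_lit 28) (.e (nat_lit 573478) (nat_lit 12) (.e (nat_lit 57568) (nat_lit 53) (.e (nat_lit 761867) (nat_lit 5) .nil)))))))) (.g (nat_lit 6) .nil .nil))))) (.nd (nat_lit 4) (.nd (nat_lit 5) 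
(.lf (nat_lit 57864) (.g (nat_lit 3272) (.e (nat_lit 1453) (nat_lit 108) (.e (nat_lit 336099) (nat_lit 9) (.e (nat_lit 336013) (nat_lit 2) (.e (nat_lit 90121) (nat_lit 9) (.e (nat_lit 2828) (nat_lit 182) .nil))))) .nil)) 
(.lf (nat_lit 57896) (.g (nat_lit 2857) (.e (nat_lit 1454) (nat_lit 108) (.e (nat_lit 336006) (nat_lit 2) (.e (nat_lit 90170) (nat_lit 13) (.e (nat_lit 172113) (nat_lit 10) (.e (nat_lit 434248) (nat_lit 28) (.e (nat_lit 573473) (nat_lit 12) (.e (nat_lit 57569) (nat_lit 53) (.e (nat_lit 761866) (nat_lit 5) .nil)))))))) (.g (nat_lit 4) .nil .nil)))) (.nd (nat_lit 5) 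
(.lf (nat_lit 57880) (.g (nat_lit 3999) (.e (nat_lit 1454) (nat_lit 108) (.e (nat_lit 336001) (nat_lit 2) (.e (nat_lit 90170) (nat_lit 13) (.e (nat_lit 172113) (nat_lit 10) (.e (nat_lit 434242) (nat_lit 28) (.e (nat_lit 573474) (nat_lit 12) (.e (nat_lit 57569) (nat_lit 53) (.e (nat_lit 761866) (nat_lit 5) .nil)))))))) (.g (nat_lit 6) .nil .nil))) 
(.lf (nat_lit 57912) (.g (nat_lit 1492) (.e (nat_lit 1454) (nat_lit 108) (.e (nat_lit 336020) (nat_lit 3) (.e (nat_lit 98372) (nat_lit 29) (.e (nat_lit 450586) (nat_lit 10) (.e (nat_lit 573478) (nat_lit 12) (.e (nat_lit 57568) (nat_lit 53) (.e (nat_lit 761866) (nat_lit 5) .nil))))))) (.g (nat_lit 4) .nil .nil)))))) (.nd (nat_lit 3) (.nd (nat_lit 4) (.nd (nat_lit 5) 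
(.lf (nat_lit 57860) (.g (nat_lit 2826) (.e (nat_lit 1453) (nat_lit 108) (.e (nat_lit 336028) (nat_lit 3) (.e (nat_lit 98373) (nat_lit 29) (.e (nat_lit 450588) (nat_lit 10) (.e (nat_lit 573473) (nat_lit 12) .nil))))) .nil)) 
(.lf (nat_lit 57892) (.g (nat_lit 3243) (.e (nat_lit 1454) (nat_lit 108) (.e (nat_lit 336005) (nat_lit 2) (.e (nat_lit 90170) (nat_lit 13) (.e (nat_lit 172113) (nat_lit 10) (.e (nat_lit 434248) (nat_lit 28) (.e (nat_lit 573473) (nat_lit 12) (.e (nat_lit 57569) (nat_lit 53) (.e (nat_lit 761866) (nat_lit 5) .nil)))))))) (.g (nat_lit 5) .nil .nil)))) (.nd (nat_lit 5) 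
(.lf (nat_lit 57876) (.g (nat_lit 3524) (.e (nat_lit 1454) (nat_lit 108) (.e (nat_lit 336001) (nat_lit 2) (.e (nat_lit 90170) (nat_lit 13) (.e (nat_lit 172106) (nat_lit 10) (.e (nat_lit 434244) (nat_lit 28) (.e (nat_lit 573474) (nat_lit 12) (.e (nat_lit 57568) (nat_lit 53) (.e (nat_lit 761866) (nat_lit 5) .nil)))))))) (.g (nat_lit 6) .nil .nil))) 
(.lf (nat_lit 57908) (.g (nat_lit 1929) (.e (nat_lit 1454) (nat_lit 108) (.e (nat_lit 336020) (nat_lit 3) (.e (nat_lit 98359) (nat_lit 26) (.e (nat_lit 426286) (nat_lit 10) (.e (nat_lit 434247) (nat_lit 28) (.e (nat_lit 573478) (nat_lit 12) (.e (nat_lit 57568) (nat_lit 53) (.e (nat_lit 761867) (nat_lit 5) .nil)))))))) (.g (nat_lit 4) .nil .nil))))) (.nd (nat_lit 4) (.nd (nat_lit 5) 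
(.lf (nat_lit 57868) (.g (nat_lit 2801) (.e (nat_lit 1453) (nat_lit 108) (.e (nat_lit 336099) (nat_lit 9) (.e (nat_lit 336013) (nat_lit 2) (.e (nat_lit 90161) (nat_lit 12) .nil)))) .nil)) 
(.lf (nat_lit 57900) (.g (nat_lit 3706) (.e (nat_lit 1454) (nat_lit 108) (.e (nat_lit 336008) (nat_lit 2) (.e (nat_lit 90170) (nat_lit 13) (.e (nat_lit 172113) (nat_lit 10) (.e (nat_lit 434248) (nat_lit 28) (.e (nat_lit 573473) (nat_lit 12) (.e (nat_lit 57569) (nat_lit 53) (.e (nat_lit 761866) (nat_lit 5) .nil)))))))) (.g (nat_lit 6) .nil .nil)))) (.nd (nat_lit 5) 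
(.lf (nat_lit 57884) (.g (nat_lit 3012) (.e (nat_lit 1454) (nat_lit 108) (.e (nat_lit 336001) (nat_lit 2) (.e (nat_lit 90170) (nat_lit 13) (.e (nat_lit 172113) (nat_lit 10) (.e (nat_lit 434247) (nat_lit 28) (.e (nat_lit 573478) (nat_lit 12) (.e (nat_lit 57568) (nat_lit 53) (.e (nat_lit 761866) (nat_lit 5) .nil)))))))) (.g (nat_lit 5) .nil .nil))) 
(.lf (nat_lit 57916) (.g (nat_lit 3727) (.e (nat_lit 1454) (nat_lit 108) (.e (nat_lit 336020) (nat_lit 3) (.e (nat_lit 98373) (nat_lit 29) (.e (nat_lit 450588) (nat_lit 10) (.e (nat_lit 573473) (nat_lit 12) (.e (nat_lit 57569) (nat_lit 53) (.e (nat_lit 761866) (nat_lit 5) .nil))))))) (.g (nat_lit 6) .nil .nil))))))) (.nd (nat_lit 2) (.nd (nat_lit 3) (.nd (nat_lit 4) (.nd (nat_lit 5) 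
(.lf (nat_lit 57858) (.g (nat_lit 2663) (.e (nat_lit 1453) (nat_lit 108) (.e (nat_lit 336028) (nat_lit 3) (.e (nat_lit 98373) (nat_lit 29) (.e (nat_lit 450587) (nat_lit 10) (.e (nat_lit 573477) (nat_lit 12) .nil))))) .nil)) 
(.lf (nat_lit 57890) (.g (nat_lit 2532) (.e (nat_lit 1454) (nat_lit 108) (.e (nat_lit 336005) (nat_lit 2) (.e (nat_lit 90170) (nat_lit 13) (.e (nat_lit 172113) (nat_lit 10) (.e (nat_lit 434245) (nat_lit 28) (.e (nat_lit 573474) (nat_lit 12) (.e (nat_lit 57568) (nat_lit 53) (.e (nat_lit 761866) (nat_lit 5) .nil)))))))) (.g (nat_lit 4) .nil .nil)))) (.nd (nat_lit 5) 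
(.lf (nat_lit 57874) (.g (nat_lit 5148) (.e (nat_lit 1454) (nat_lit 108) (.e (nat_lit 335928) (nat_lit 0) (.e (nat_lit 1788) (nat_lit 119) (.e (nat_lit 516166) (nat_lit 12) (.e (nat_lit 450588) (nat_lit 10) (.e (nat_lit 573473) (nat_lit 12) (.e (nat_lit 57569) (nat_lit 53) (.e (nat_lit 761867) (nat_lit 5) .nil)))))))) (.g (nat_lit 6) .nil .nil))) 
(.lf (nat_lit 57906) (.g (nat_lit 4159) (.e (nat_lit 1454) (nat_lit 108) (.e (nat_lit 336013) (nat_lit 2) (.e (nat_lit 90170) (nat_lit 13) (.e (nat_lit 172113) (nat_lit 10) (.e (nat_lit 434248) (nat_lit 28) (.e (nat_lit 573475) (nat_lit 12) (.e (nat_lit 57568) (nat_lit 53) (.e (nat_lit 761867) (nat_lit 5) .nil)))))))) (.g (nat_lit 6) .nil .nil))))) (.nd (nat_lit 4) (.nd (nat_lit 5) 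
(.lf (nat_lit 57866) (.g (nat_lit 4292) (.e (nat_lit 1453) (nat_lit 108) (.e (nat_lit 336099) (nat_lit 9) (.e (nat_lit 336013) (nat_lit 2) (.e (nat_lit 90134) (nat_lit 9) (.e (nat_lit 2822) (nat_lit 182) .nil))))) .nil)) 
(.lf (nat_lit 57898) (.g (nat_lit 2614) (.e (nat_lit 1454) (nat_lit 108) (.e (nat_lit 336008) (nat_lit 2) (.e (nat_lit 90170) (nat_lit 13) (.e (nat_lit 172106) (nat_lit 10) (.e (nat_lit 434244) (nat_lit 28) (.e (nat_lit 573474) (nat_lit 12) (.e (nat_lit 57569) (nat_lit 53) (.e (nat_lit 761866) (nat_lit 5) .nil)))))))) (.g (nat_lit 4) .nil .nil)))) (.nd (nat_lit 5) 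
(.lf (nat_lit 57882) (.g (nat_lit 3757) (.e (nat_lit 1454) (nat_lit 108) (.e (nat_lit 336001) (nat_lit 2) (.e (nat_lit 90170) (nat_lit 13) (.e (nat_lit 172113) (nat_lit 10) (.e (nat_lit 434245) (nat_lit 28) (.e (nat_lit 573473) (nat_lit 12) (.e (nat_lit 57569) (nat_lit 53) (.e (nat_lit 761867) (nat_lit 5) .nil)))))))) (.g (nat_lit 6) .nil .nil))) 
(.lf (nat_lit 57914) (.g (nat_lit 1989) (.e (nat_lit 1454) (nat_lit 108) (.e (nat_lit 336020) (nat_lit 3) (.e (nat_lit 98373) (nat_lit 29) (.e (nat_lit 450587) (nat_lit 10) (.e (nat_lit 573478) (nat_lit 12) (.e (nat_lit 57568) (nat_lit 53) (.e (nat_lit 761866) (nat_lit 5) .nil))))))) (.g (nat_lit 4) .nil .nil)))))) (.nd (nat_lit 3) (.nd (nat_lit 4) (.nd (nat_lit 5) 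
(.lf (nat_lit 57862) (.g (nat_lit 2192) (.e (nat_lit 1453) (nat_lit 108) (.e (nat_lit 336060) (nat_lit 7) (.e (nat_lit 319534) (nat_lit 16) (.e (nat_lit 286756) (nat_lit 10) (.e (nat_lit 344160) (nat_lit 37) .nil))))) .nil)) 
(.lf (nat_lit 57894) (.g (nat_lit 2810) (.e (nat_lit 1454) (nat_lit 108) (.e (nat_lit 336006) (nat_lit 2) (.e (nat_lit 90170) (nat_lit 13) (.e (nat_lit 172113) (nat_lit 10) (.e (nat_lit 434245) (nat_lit 28) (.e (nat_lit 573473) (nat_lit 12) (.e (nat_lit 57569) (nat_lit 53) (.e (nat_lit 761866) (nat_lit 5) .nil)))))))) (.g (nat_lit 4) .nil .nil)))) (.nd (nat_lit 5) 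
(.lf (nat_lit 57878) (.g (nat_lit 3995) (.e (nat_lit 1454) (nat_lit 108) (.e (nat_lit 336001) (nat_lit 2) (.e (nat_lit 90170) (nat_lit 13) (.e (nat_lit 172106) (nat_lit 10) (.e (nat_lit 434244) (nat_lit 28) (.e (nat_lit 573474) (nat_lit 12) (.e (nat_lit 57569) (nat_lit 53) (.e (nat_lit 761866) (nat_lit 5) .nil)))))))) (.g (nat_lit 6) .nil .nil))) 
(.lf (nat_lit 57910) (.g (nat_lit 2924) (.e (nat_lit 1454) (nat_lit 108) (.e (nat_lit 336020) (nat_lit 3) (.e (nat_lit 98372) (nat_lit 29) (.e (nat_lit 450586) (nat_lit 10) (.e (nat_lit 573473) (nat_lit 12) (.e (nat_lit 57569) (nat_lit 53) (.e (nat_lit 761866) (nat_lit 5) .nil))))))) (.g (nat_lit 6) .nil .nil))))) (.nd (nat_lit 4) (.nd (nat_lit 5) 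
(.lf (nat_lit 57870) (.g (nat_lit 2106) (.e (nat_lit 1454) (nat_lit 108) (.e (nat_lit 335928) (nat_lit 0) (.e (nat_lit 1788) (nat_lit 119) (.e (nat_lit 516151) (nat_lit 9) (.e (nat_lit 426286) (nat_lit 10) (.e (nat_lit 434245) (nat_lit 28) (.e (nat_lit 573474) (nat_lit 12) (.e (nat_lit 57568) (nat_lit 53) (.e (nat_lit 761866) (nat_lit 5) .nil))))))))) (.g (nat_lit 4) .nil .nil))) 
(.lf (nat_lit 57902) (.g (nat_lit 4108) (.e (nat_lit 1454) (nat_lit 108) (.e (nat_lit 336013) (nat_lit 2) (.e (nat_lit 90170) (nat_lit 13) (.e (nat_lit 172113) (nat_lit 10) (.e (nat_lit 434245) (nat_lit 28) (.e (nat_lit 573474) (nat_lit 12) (.e (nat_lit 57568) (nat_lit 53) (.e (nat_lit 761867) (nat_lit 5) .nil)))))))) (.g (nat_lit 6) .nil .nil)))) (.nd (nat_lit 5) 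
(.lf (nat_lit 57886) (.g (nat_lit 4236) (.e (nat_lit 1454) (nat_lit 108) (.e (nat_lit 336001) (nat_lit 2) (.e (nat_lit 90170) (nat_lit 13) (.e (nat_lit 172113) (nat_lit 10) (.e (nat_lit 434248) (nat_lit 28) (.e (nat_lit 573473) (nat_lit 12) (.e (nat_lit 57569) (nat_lit 53) (.e (nat_lit 761866) (nat_lit 5) .nil)))))))) (.g (nat_lit 7) .nil .nil))) 
(.lf (nat_lit 57918) (.g (nat_lit 2278) (.e (nat_lit 1454) (nat_lit 108) (.e (nat_lit 336022) (nat_lit 3) (.e (nat_lit 98359) (nat_lit 26) (.e (nat_lit 426286) (nat_lit 10) (.e (nat_lit 434247) (nat_lit 28) (.e (nat_lit 573478) (nat_lit 12) (.e (nat_lit 57568) (nat_lit 53) (.e (nat_lit 761866) (nat_lit 5) .nil)))))))) (.g (nat_lit 4) .nil .nil)))))))) 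
(.nd (nat_lit 1) (.nd (nat_lit 2) (.nd (nat_lit 3) (.nd (nat_lit 4) (.nd (nat_lit 5) 
(.lf (nat_lit 57857) (.g (nat_lit 1906) (.e (nat_lit 1453) (nat_lit 108) (.e (nat_lit 336028) (nat_lit 3) (.e (nat_lit 98359) (nat_lit 26) (.e (nat_lit 426286) (nat_lit 10) (.e (nat_lit 434245) (nat_lit 28) .nil))))) .nil)) 
(.lf (nat_lit 57889) (.g (nat_lit 3127) (.e (nat_lit 1454) (nat_lit 108) (.e (nat_lit 336005) (nat_lit 2) (.e (nat_lit 90170) (nat_lit 13) (.e (nat_lit 172113) (nat_lit 10) (.e (nat_lit 434245) (nat_lit 28) (.e (nat_lit 573473) (nat_lit 12) (.e (nat_lit 57569) (nat_lit 53) (.e (nat_lit 761866) (nat_lit 5) .nil)))))))) (.g (nat_lit 5) .nil .nil)))) (.nd (nat_lit 5) 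
(.lf (nat_lit 57873) (.g (nat_lit 5564) (.e (nat_lit 1454) (nat_lit 108) (.e (nat_lit 335928) (nat_lit 0) (.e (nat_lit 1788) (nat_lit 119) (.e (nat_lit 516166) (nat_lit 12) (.e (nat_lit 450588) (nat_lit 10) (.e (nat_lit 573473) (nat_lit 12) (.e (nat_lit 57569) (nat_lit 53) (.e (nat_lit 761866) (nat_lit 5) .nil)))))))) (.g (nat_lit 7) .nil .nil))) 
(.lf (nat_lit 57905) (.g (nat_lit 4326) (.e (nat_lit 1454) (nat_lit 108) (.e (nat_lit 336013) (nat_lit 2) (.e (nat_lit 90170) (nat_lit 13) (.e (nat_lit 172113) (nat_lit 10) (.e (nat_lit 434248) (nat_lit 28) (.e (nat_lit 573475) (nat_lit 12) (.e (nat_lit 57568) (nat_lit 53) (.e (nat_lit 761866) (nat_lit 5) .nil)))))))) (.g (nat_lit 6) .nil .nil))))) (.nd (nat_lit 4) (.nd (nat_lit 5) 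
(.lf (nat_lit 57865) (.g (nat_lit 3105) (.e (nat_lit 1453) (nat_lit 108) (.e (nat_lit 336099) (nat_lit 9) (.e (nat_lit 336013) (nat_lit 2) (.e (nat_lit 90131) (nat_lit 9) .nil)))) .nil)) 
(.lf (nat_lit 57897) (.g (nat_lit 2764) (.e (nat_lit 1454) (nat_lit 108) (.e (nat_lit 336006) (nat_lit 2) (.e (nat_lit 90170) (nat_lit 13) (.e (nat_lit 172113) (nat_lit 10) (.e (nat_lit 434248) (nat_lit 28) (.e (nat_lit 573475) (nat_lit 12) (.e (nat_lit 57569) (nat_lit 53) (.e (nat_lit 761866) (nat_lit 5) .nil)))))))) (.g (nat_lit 4) .nil .nil)))) (.nd (nat_lit 5) 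
(.lf (nat_lit 57881) (.g (nat_lit 4178) (.e (nat_lit 1454) (nat_lit 108) (.e (nat_lit 336001) (nat_lit 2) (.e (nat_lit 90170) (nat_lit 13) (.e (nat_lit 172113) (nat_lit 10) (.e (nat_lit 434245) (nat_lit 28) (.e (nat_lit 573473) (nat_lit 12) (.e (nat_lit 57569) (nat_lit 53) (.e (nat_lit 761866) (nat_lit 5) .nil)))))))) (.g (nat_lit 7) .nil .nil))) 
(.lf (nat_lit 57913) (.g (nat_lit 3920) (.e (nat_lit 1454) (nat_lit 108) (.e (nat_lit 336020) (nat_lit 3) (.e (nat_lit 98373) (nat_lit 29) (.e (nat_lit 450587) (nat_lit 10) (.e (nat_lit 573475) (nat_lit 12) (.e (nat_lit 57569) (nat_lit 53) (.e (nat_lit 761867) (nat_lit 5) .nil))))))) (.g (nat_lit 6) .nil .nil)))))) (.nd (nat_lit 3) (.nd (nat_lit 4) (.nd (nat_lit 5) 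
(.lf (nat_lit 57861) (.g (nat_lit 2827) (.e (nat_lit 1453) (nat_lit 108) (.e (nat_lit 336028) (nat_lit 3) (.e (nat_lit 98373) (nat_lit 29) (.e (nat_lit 450588) (nat_lit 10) (.e (nat_lit 573475) (nat_lit 12) .nil))))) .nil)) 
(.lf (nat_lit 57893) (.g (nat_lit 3224) (.e (nat_lit 1454) (nat_lit 108) (.e (nat_lit 336006) (nat_lit 2) (.e (nat_lit 90170) (nat_lit 13) (.e (nat_lit 172106) (nat_lit 10) (.e (nat_lit 434244) (nat_lit 28) (.e (nat_lit 573474) (nat_lit 12) (.e (nat_lit 57569) (nat_lit 53) (.e (nat_lit 761866) (nat_lit 5) .nil)))))))) (.g (nat_lit 4) .nil .nil)))) (.nd (nat_lit 5) 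
(.lf (nat_lit 57877) (.g (nat_lit 3378) (.e (nat_lit 1454) (nat_lit 108) (.e (nat_lit 336001) (nat_lit 2) (.e (nat_lit 90170) (nat_lit 13) (.e (nat_lit 172106) (nat_lit 10) (.e (nat_lit 434244) (nat_lit 28) (.e (nat_lit 573474) (nat_lit 12) (.e (nat_lit 57568) (nat_lit 53) (.e (nat_lit 761867) (nat_lit 5) .nil)))))))) (.g (nat_lit 6) .nil .nil))) 
(.lf (nat_lit 57909) (.g (nat_lit 3093) (.e (nat_lit 1454) (nat_lit 108) (.e (nat_lit 336020) (nat_lit 3) (.e (nat_lit 98359) (nat_lit 26) (.e (nat_lit 426286) (nat_lit 10) (.e (nat_lit 434248) (nat_lit 28) (.e (nat_lit 573473) (nat_lit 12) (.e (nat_lit 57569) (nat_lit 53) (.e (nat_lit 761867) (nat_lit 5) .nil)))))))) (.g (nat_lit 6) .nil .nil))))) (.nd (nat_lit 4) (.nd (nat_lit 5) 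
(.lf (nat_lit 57869) (.g (nat_lit 2272) (.e (nat_lit 1454) (nat_lit 108) (.e (nat_lit 335928) (nat_lit 0) (.e (nat_lit 1788) (nat_lit 119) (.e (nat_lit 516151) (nat_lit 9) (.e (nat_lit 426286) (nat_lit 10) (.e (nat_lit 434245) (nat_lit 28) (.e (nat_lit 573473) (nat_lit 12) (.e (nat_lit 57569) (nat_lit 53) (.e (nat_lit 761867) (nat_lit 5) .nil))))))))) (.g (nat_lit 4) .nil .nil))) 
(.lf (nat_lit 57901) (.g (nat_lit 4271) (.e (nat_lit 1454) (nat_lit 108) (.e (nat_lit 336013) (nat_lit 2) (.e (nat_lit 90170) (nat_lit 13) (.e (nat_lit 172113) (nat_lit 10) (.e (nat_lit 434245) (nat_lit 28) (.e (nat_lit 573474) (nat_lit 12) (.e (nat_lit 57568) (nat_lit 53) (.e (nat_lit 761866) (nat_lit 5) .nil)))))))) (.g (nat_lit 7) .nil .nil)))) (.nd (nat_lit 5) 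
(.lf (nat_lit 57885) (.g (nat_lit 2857) (.e (nat_lit 1454) (nat_lit 108) (.e (nat_lit 336001) (nat_lit 2) (.e (nat_lit 90170) (nat_lit 13) (.e (nat_lit 172113) (nat_lit 10) (.e (nat_lit 434247) (nat_lit 28) (.e (nat_lit 573478) (nat_lit 12) (.e (nat_lit 57568) (nat_lit 53) (.e (nat_lit 761867) (nat_lit 5) .nil)))))))) (.g (nat_lit 5) .nil .nil))) 
(.lf (nat_lit 57917) (.g (nat_lit 3351) (.e (nat_lit 1454) (nat_lit 108) (.e (nat_lit 336020) (nat_lit 3) (.e (nat_lit 98373) (nat_lit 29) (.e (nat_lit 450588) (nat_lit 10) (.e (nat_lit 573475) (nat_lit 12) (.e (nat_lit 57569) (nat_lit 53) (.e (nat_lit 761866) (nat_lit 5) .nil))))))) (.g (nat_lit 5) .nil .nil))))))) (.nd (nat_lit 2) (.nd (nat_lit 3) (.nd (nat_lit 4) (.nd (nat_lit 5) 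
(.lf (nat_lit 57859) (.g (nat_lit 2623) (.e (nat_lit 1453) (nat_lit 108) (.e (nat_lit 336028) (nat_lit 3) (.e (nat_lit 98373) (nat_lit 29) (.e (nat_lit 450587) (nat_lit 10) (.e (nat_lit 573478) (nat_lit 12) .nil))))) .nil)) 
(.lf (nat_lit 57891) (.g (nat_lit 2497) (.e (nat_lit 1454) (nat_lit 108) (.e (nat_lit 336005) (nat_lit 2) (.e (nat_lit 90170) (nat_lit 13) (.e (nat_lit 172113) (nat_lit 10) (.e (nat_lit 434245) (nat_lit 28) (.e (nat_lit 573474) (nat_lit 12) (.e (nat_lit 57568) (nat_lit 53) (.e (nat_lit 761867) (nat_lit 5) .nil)))))))) (.g (nat_lit 4) .nil .nil)))) (.nd (nat_lit 5) 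
(.lf (nat_lit 57875) (.g (nat_lit 4179) (.e (nat_lit 1454) (nat_lit 108) (.e (nat_lit 336001) (nat_lit 2) (.e (nat_lit 90170) (nat_lit 13) (.e (nat_lit 172106) (nat_lit 10) (.e (nat_lit 434244) (nat_lit 28) (.e (nat_lit 573473) (nat_lit 12) (.e (nat_lit 57569) (nat_lit 53) (.e (nat_lit 761866) (nat_lit 5) .nil)))))))) (.g (nat_lit 7) .nil .nil))) 
(.lf (nat_lit 57907) (.g (nat_lit 3056) (.e (nat_lit 1454) (nat_lit 108) (.e (nat_lit 336020) (nat_lit 3) (.e (nat_lit 98359) (nat_lit 26) (.e (nat_lit 426286) (nat_lit 10) (.e (nat_lit 434245) (nat_lit 28) (.e (nat_lit 573473) (nat_lit 12) (.e (nat_lit 57569) (nat_lit 53) (.e (nat_lit 761867) (nat_lit 5) .nil)))))))) (.g (nat_lit 6) .nil .nil))))) (.nd (nat_lit 4) (.nd (nat_lit 5) 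
(.lf (nat_lit 57867) (.g (nat_lit 4160) (.e (nat_lit 1453) (nat_lit 108) (.e (nat_lit 336099) (nat_lit 9) (.e (nat_lit 336013) (nat_lit 2) (.e (nat_lit 90134) (nat_lit 9) (.e (nat_lit 2824) (nat_lit 182) .nil))))) .nil)) 
(.lf (nat_lit 57899) (.g (nat_lit 3591) (.e (nat_lit 1454) (nat_lit 108) (.e (nat_lit 336008) (nat_lit 2) (.e (nat_lit 90170) (nat_lit 13) (.e (nat_lit 172113) (nat_lit 10) (.e (nat_lit 434245) (nat_lit 28) (.e (nat_lit 573473) (nat_lit 12) (.e (nat_lit 57569) (nat_lit 53) (.e (nat_lit 761866) (nat_lit 5) .nil)))))))) (.g (nat_lit 6) .nil .nil)))) (.nd (nat_lit 5) 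
(.lf (nat_lit 57883) (.g (nat_lit 4180) (.e (nat_lit 1454) (nat_lit 108) (.e (nat_lit 336001) (nat_lit 2) (.e (nat_lit 90170) (nat_lit 13) (.e (nat_lit 172113) (nat_lit 10) (.e (nat_lit 434245) (nat_lit 28) (.e (nat_lit 573474) (nat_lit 12) (.e (nat_lit 57569) (nat_lit 53) (.e (nat_lit 761866) (nat_lit 5) .nil)))))))) (.g (nat_lit 6) .nil .nil))) 
(.lf (nat_lit 57915) (.g (nat_lit 1889) (.e (nat_lit 1454) (nat_lit 108) (.e (nat_lit 336020) (nat_lit 3) (.e (nat_lit 98373) (nat_lit 29) (.e (nat_lit 450587) (nat_lit 10) (.e (nat_lit 573478) (nat_lit 12) (.e (nat_lit 57568) (nat_lit 53) (.e (nat_lit 761867) (nat_lit 5) .nil))))))) (.g (nat_lit 4) .nil .nil)))))) (.nd (nat_lit 3) (.nd (nat_lit 4) (.nd (nat_lit 5) 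
(.lf (nat_lit 57863) (.g (nat_lit 2712) (.e (nat_lit 1453) (nat_lit 108) (.e (nat_lit 336099) (nat_lit 9) (.e (nat_lit 336013) (nat_lit 2) (.e (nat_lit 90121) (nat_lit 9) .nil)))) .nil)) 
(.lf (nat_lit 57895) (.g (nat_lit 2812) (.e (nat_lit 1454) (nat_lit 108) (.e (nat_lit 336006) (nat_lit 2) (.e (nat_lit 90170) (nat_lit 13) (.e (nat_lit 172113) (nat_lit 10) (.e (nat_lit 434245) (nat_lit 28) (.e (nat_lit 573474) (nat_lit 12) (.e (nat_lit 57569) (nat_lit 53) (.e (nat_lit 761866) (nat_lit 5) .nil)))))))) (.g (nat_lit 4) .nil .nil)))) (.nd (nat_lit 5) 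
(.lf (nat_lit 57879) (.g (nat_lit 2011) (.e (nat_lit 1454) (nat_lit 108) (.e (nat_lit 336001) (nat_lit 2) (.e (nat_lit 90170) (nat_lit 13) (.e (nat_lit 172113) (nat_lit 10) (.e (nat_lit 434242) (nat_lit 28) (.e (nat_lit 573473) (nat_lit 12) (.e (nat_lit 57569) (nat_lit 53) (.e (nat_lit 761866) (nat_lit 5) .nil)))))))) (.g (nat_lit 4) .nil .nil))) 
(.lf (nat_lit 57911) (.g (nat_lit 1419) (.e (nat_lit 1454) (nat_lit 108) (.e (nat_lit 336020) (nat_lit 3) (.e (nat_lit 98372) (nat_lit 29) (.e (nat_lit 450586) (nat_lit 10) (.e (nat_lit 573478) (nat_lit 12) .nil))))) .nil)))) (.nd (nat_lit 4) (.nd (nat_lit 5) 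
(.lf (nat_lit 57871) (.g (nat_lit 2300) (.e (nat_lit 1454) (nat_lit 108) (.e (nat_lit 335928) (nat_lit 0) (.e (nat_lit 1788) (nat_lit 119) (.e (nat_lit 516151) (nat_lit 9) (.e (nat_lit 426286) (nat_lit 10) (.e (nat_lit 434248) (nat_lit 28) (.e (nat_lit 573473) (nat_lit 12) (.e (nat_lit 57569) (nat_lit 53) (.e (nat_lit 761867) (nat_lit 5) .nil))))))))) (.g (nat_lit 4) .nil .nil))) 
(.lf (nat_lit 57903) (.g (nat_lit 3721) (.e (nat_lit 1454) (nat_lit 108) (.e (nat_lit 336013) (nat_lit 2) (.e (nat_lit 90170) (nat_lit 13) (.e (nat_lit 172113) (nat_lit 10) (.e (nat_lit 434247) (nat_lit 28) (.e (nat_lit 573478) (nat_lit 12) (.e (nat_lit 57568) (nat_lit 53) (.e (nat_lit 761866) (nat_lit 5) .nil)))))))) (.g (nat_lit 6) .nil .nil)))) (.nd (nat_lit 5) 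
(.lf (nat_lit 57887) (.g (nat_lit 3813) (.e (nat_lit 1454) (nat_lit 108) (.e (nat_lit 336001) (nat_lit 2) (.e (nat_lit 90170) (nat_lit 13) (.e (nat_lit 172113) (nat_lit 10) (.e (nat_lit 434248) (nat_lit 28) (.e (nat_lit 573473) (nat_lit 12) (.e (nat_lit 57569) (nat_lit 53) (.e (nat_lit 761867) (nat_lit 5) .nil)))))))) (.g (nat_lit 6) .nil .nil))) 
(.lf (nat_lit 57919) (.g (nat_lit 3408) (.e (nat_lit 1454) (nat_lit 108) (.e (nat_lit 336022) (nat_lit 3) (.e (nat_lit 98372) (nat_lit 29) (.e (nat_lit 450586) (nat_lit 10) (.e (nat_lit 573473) (nat_lit 12) (.e (nat_lit 57569) (nat_lit 53) (.e (nat_lit 761866) (nat_lit 5) .nil))))))) (.g (nat_lit 6) .nil .nil)))))))))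

noncomputable def tv797 : DT := (.nd (nat_lit 0) (.nd (nat_lit 1) (.nd (nat_lit 2) (.nd (nat_lit 3) (.nd (nat_lit 4) (.nd (nat_lit 5) 
(.lf (nat_lit 57920) (.g (nat_lit 2992) (.e (nat_lit 1454) (nat_lit 108) (.e (nat_lit 336022) (nat_lit 3) (.e (nat_lit 98372) (nat_lit 29) (.e (nat_lit 450586) (nat_lit 10) (.e (nat_lit 573473) (nat_lit 12) (.e (nat_lit 57569) (nat_lit 53) (.e (nat_lit 761867) (nat_lit 5) .nil))))))) (.g (nat_lit 6) .nil .nil))) 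
(.lf (nat_lit 57952) (.g (nat_lit 4732) (.e (nat_lit 1454) (nat_lit 108) (.e (nat_lit 336028) (nat_lit 3) (.e (nat_lit 98359) (nat_lit 26) (.e (nat_lit 426286) (nat_lit 10) (.e (nat_lit 434245) (nat_lit 28) (.e (nat_lit 573473) (nat_lit 12) (.e (nat_lit 57569) (nat_lit 53) (.e (nat_lit 761866) (nat_lit 5) .nil)))))))) (.g (nat_lit 0) .nil .nil)))) (.nd (nat_lit 5) 
(.lf (nat_lit 57936) (.g (nat_lit 3429) (.e (nat_lit 1454) (nat_lit 108) (.e (nat_lit 336023) (nat_lit 3) (.e (nat_lit 98373) (nat_lit 29) (.e (nat_lit 450587) (nat_lit 10) (.e (nat_lit 573478) (nat_lit 12) (.e (nat_lit 57568) (nat_lit 53) (.e (nat_lit 761866) (nat_lit 5) .nil))))))) (.g (nat_lit 4) .nil .nil))) 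
(.lf (nat_lit 57968) (.g (nat_lit 3538) (.e (nat_lit 1454) (nat_lit 108) (.e (nat_lit 336056) (nat_lit 7) (.e (nat_lit 319533) (nat_lit 16) (.e (nat_lit 286753) (nat_lit 10) (.e (nat_lit 344160) (nat_lit 37) (.e (nat_lit 647195) (nat_lit 9) (.e (nat_lit 982) (nat_lit 81) (.e (nat_lit 2270) (nat_lit 149) (.e (nat_lit 761867) (nat_lit 5) .nil))))))))) (.g (nat_lit 6) .nil .nil))))) 
(.nd (nat_lit 4) (.nd (nat_lit 5) 
(.lf (nat_lit 57928) (.g (nat_lit 4759) (.e (nat_lit 1454) (nat_lit 108) (.e (nat_lit 336022) (nat_lit 3) (.e (nat_lit 98373) (nat_lit 29) (.e (nat_lit 450588) (nat_lit 10) (.e (nat_lit 573475) (nat_lit 12) (.e (nat_lit 57569) (nat_lit 53) (.e (nat_lit 761867) (nat_lit 5) .nil))))))) (.g (nat_lit 5) .nil .nil))) 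
(.lf (nat_lit 57960) (.g (nat_lit 4818) (.e (nat_lit 1454) (nat_lit 108) (.e (nat_lit 336028) (nat_lit 3) (.e (nat_lit 98372) (nat_lit 29) (.e (nat_lit 450588) (nat_lit 10) (.e (nat_lit 573473) (nat_lit 12) (.e (nat_lit 57569) (nat_lit 53) (.e (nat_lit 761866) (nat_lit 5) .nil))))))) (.g (nat_lit 5) .nil .nil)))) (.nd (nat_lit 5) 
(.lf (nat_lit 57944) (.g (nat_lit 2521) (.e (nat_lit 1454) (nat_lit 108) (.e (nat_lit 336024) (nat_lit 3) (.e (nat_lit 98372) (nat_lit 29) (.e (nat_lit 450588) (nat_lit 10) (.e (nat_lit 573475) (nat_lit 12) .nil))))) .nil)) 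
(.lf (nat_lit 57976) (.g (nat_lit 3877) (.e (nat_lit 1454) (nat_lit 108) (.e (nat_lit 336056) (nat_lit 7) (.e (nat_lit 319534) (nat_lit 16) (.e (nat_lit 286756) (nat_lit 10) (.e (nat_lit 344160) (nat_lit 37) (.e (nat_lit 647201) (nat_lit 12) (.e (nat_lit 57568) (nat_lit 53) (.e (nat_lit 761867) (nat_lit 5) .nil)))))))) (.g (nat_lit 6) .nil .nil)))))) 
(.nd (nat_lit 3) (.nd (nat_lit 4) (.nd (nat_lit 5) 
(.lf (nat_lit 57924) (.g (nat_lit 3009) (.e (nat_lit 1454) (nat_lit 108) (.e (nat_lit 336022) (nat_lit 3) (.e (nat_lit 98373) (nat_lit 29) (.e (nat_lit 450587) (nat_lit 10) (.e (nat_lit 573478) (nat_lit 12) (.e (nat_lit 57568) (nat_lit 53) (.e (nat_lit 761867) (nat_lit 5) .nil))))))) (.g (nat_lit 4) .nil .nil))) 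
(.lf (nat_lit 57956) (.g (nat_lit 4396) (.e (nat_lit 1454) (nat_lit 108) (.e (nat_lit 336028) (nat_lit 3) (.e (nat_lit 98359) (nat_lit 26) (.e (nat_lit 426286) (nat_lit 10) (.e (nat_lit 434248) (nat_lit 28) (.e (nat_lit 573473) (nat_lit 12) (.e (nat_lit 57569) (nat_lit 53) (.e (nat_lit 761867) (nat_lit 5) .nil)))))))) (.g (nat_lit 0) .nil .nil)))) (.nd (nat_lit 5) 
(.lf (nat_lit 57940) (.g (nat_lit 5903) (.e (nat_lit 1454) (nat_lit 108) (.e (nat_lit 336023) (nat_lit 3) (.e (nat_lit 98373) (nat_lit 29) (.e (nat_lit 450588) (nat_lit 10) (.e (nat_lit 573475) (nat_lit 12) (.e (nat_lit 57569) (nat_lit 53) (.e (nat_lit 761866) (nat_lit 5) .nil))))))) (.g (nat_lit 6) .nil .nil))) 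
(.lf (nat_lit 57972) (.g (nat_lit 4337) (.e (nat_lit 1454) (nat_lit 108) (.e (nat_lit 336056) (nat_lit 7) (.e (nat_lit 319534) (nat_lit 16) (.e (nat_lit 286756) (nat_lit 10) (.e (nat_lit 344160) (nat_lit 37) (.e (nat_lit 647195) (nat_lit 9) (.e (nat_lit 1181) (nat_lit 87) (.e (nat_lit 57666) (nat_lit 152) (.e (nat_lit 1077) (nat_lit 81) .nil))))))))) (.g (nat_lit 6) .nil .nil))))) 
(.nd (nat_lit 4) (.nd (nat_lit 5) 
(.lf (nat_lit 57932) (.g (nat_lit 2584) (.e (nat_lit 1454) (nat_lit 108) (.e (nat_lit 336023) (nat_lit 3) (.e (nat_lit 98372) (nat_lit 29) (.e (nat_lit 450586) (nat_lit 10) (.e (nat_lit 573475) (nat_lit 12) (.e (nat_lit 57568) (nat_lit 53) (.e (nat_lit 761867) (nat_lit 5) .nil))))))) (.g (nat_lit 5) .nil .nil))) 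
(.lf (nat_lit 57964) (.g (nat_lit 4169) (.e (nat_lit 1454) (nat_lit 108) (.e (nat_lit 336028) (nat_lit 3) (.e (nat_lit 98373) (nat_lit 29) (.e (nat_lit 450588) (nat_lit 10) (.e (nat_lit 573475) (nat_lit 12) (.e (nat_lit 57569) (nat_lit 53) (.e (nat_lit 761867) (nat_lit 5) .nil))))))) (.g (nat_lit 6) .nil .nil)))) (.nd (nat_lit 5) 
(.lf (nat_lit 57948) (.g (nat_lit 5503) (.e (nat_lit 1454) (nat_lit 108) (.e (nat_lit 336024) (nat_lit 3) (.e (nat_lit 98373) (nat_lit 29) (.e (nat_lit 450588) (nat_lit 10) (.e (nat_lit 573473) (nat_lit 12) (.e (nat_lit 57569) (nat_lit 53) (.e (nat_lit 761866) (nat_lit 5) .nil))))))) (.g (nat_lit 0) .nil .nil))) 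
(.lf (nat_lit 57980) (.g (nat_lit 2120) (.e (nat_lit 1454) (nat_lit 108) (.e (nat_lit 336058) (nat_lit 7) (.e (nat_lit 319533) (nat_lit 16) (.e (nat_lit 286753) (nat_lit 10) (.e (nat_lit 344160) (nat_lit 37) (.e (nat_lit 647201) (nat_lit 12) (.e (nat_lit 57568) (nat_lit 53) (.e (nat_lit 761867) (nat_lit 5) .nil)))))))) (.g (nat_lit 4) .nil .nil))))))) 
(.nd (nat_lit 2) (.nd (nat_lit 3) (.nd (nat_lit 4) (.nd (nat_lit 5) 
(.lf (nat_lit 57922) (.g (nat_lit 1832) (.e (nat_lit 1454) (nat_lit 108) (.e (nat_lit 336022) (nat_lit 3) (.e (nat_lit 98372) (nat_lit 29) (.e (nat_lit 450586) (nat_lit 10) (.e (nat_lit 573478) (nat_lit 12) (.e (nat_lit 57568) (nat_lit 53) (.e (nat_lit 761867) (nat_lit 5) .nil))))))) (.g (nat_lit 4) .nil .nil))) 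
(.lf (nat_lit 57954) (.g (nat_lit 4261) (.e (nat_lit 1454) (nat_lit 108) (.e (nat_lit 336028) (nat_lit 3) (.e (nat_lit 98359) (nat_lit 26) (.e (nat_lit 426286) (nat_lit 10) (.e (nat_lit 434245) (nat_lit 28) (.e (nat_lit 573474) (nat_lit 12) (.e (nat_lit 57569) (nat_lit 53) (.e (nat_lit 761867) (nat_lit 5) .nil)))))))) (.g (nat_lit 7) .nil .nil)))) (.nd (nat_lit 5) 
(.lf (nat_lit 57938) (.g (nat_lit 5971) (.e (nat_lit 1454) (nat_lit 108) (.e (nat_lit 336023) (nat_lit 3) (.e (nat_lit 98373) (nat_lit 29) (.e (nat_lit 450588) (nat_lit 10) (.e (nat_lit 573473) (nat_lit 12) (.e (nat_lit 57569) (nat_lit 53) (.e (nat_lit 761867) (nat_lit 5) .nil))))))) (.g (nat_lit 7) .nil .nil))) 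
(.lf (nat_lit 57970) (.g (nat_lit 3537) (.e (nat_lit 1454) (nat_lit 108) (.e (nat_lit 336056) (nat_lit 7) (.e (nat_lit 319533) (nat_lit 16) (.e (nat_lit 286753) (nat_lit 10) (.e (nat_lit 344160) (nat_lit 37) (.e (nat_lit 647201) (nat_lit 12) (.e (nat_lit 57568) (nat_lit 53) (.e (nat_lit 761866) (nat_lit 5) .nil)))))))) (.g (nat_lit 7) .nil .nil))))) (.nd (nat_lit 4) (.nd (nat_lit 5) 
(.lf (nat_lit 57930) (.g (nat_lit 3197) (.e (nat_lit 1454) (nat_lit 108) (.e (nat_lit 336023) (nat_lit 3) (.e (nat_lit 98372) (nat_lit 29) (.e (nat_lit 450586) (nat_lit 10) (.e (nat_lit 573473) (nat_lit 12) (.e (nat_lit 57569) (nat_lit 53) (.e (nat_lit 761867) (nat_lit 5) .nil))))))) (.g (nat_lit 6) .nil .nil))) 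
(.lf (nat_lit 57962) (.g (nat_lit 2311) (.e (nat_lit 1454) (nat_lit 108) (.e (nat_lit 336028) (nat_lit 3) (.e (nat_lit 98373) (nat_lit 29) (.e (nat_lit 450588) (nat_lit 10) (.e (nat_lit 573473) (nat_lit 12) .nil))))) .nil))) (.nd (nat_lit 5) 
(.lf (nat_lit 57946) (.g (nat_lit 2706) (.e (nat_lit 1454) (nat_lit 108) (.e (nat_lit 336024) (nat_lit 3) (.e (nat_lit 98373) (nat_lit 29) (.e (nat_lit 450587) (nat_lit 10) (.e (nat_lit 573478) (nat_lit 12) (.e (nat_lit 57568) (nat_lit 53) (.e (nat_lit 761866) (nat_lit 5) .nil))))))) (.g (nat_lit 5) .nil .nil))) 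
(.lf (nat_lit 57978) (.g (nat_lit 2183) (.e (nat_lit 1454) (nat_lit 108) (.e (nat_lit 336058) (nat_lit 7) (.e (nat_lit 319533) (nat_lit 16) (.e (nat_lit 286753) (nat_lit 10) (.e (nat_lit 344160) (nat_lit 37) (.e (nat_lit 647195) (nat_lit 9) (.e (nat_lit 1181) (nat_lit 87) (.e (nat_lit 57666) (nat_lit 152) (.e (nat_lit 1077) (nat_lit 81) .nil))))))))) (.g (nat_lit 4) .nil .nil)))))) 
(.nd (nat_lit 3) (.nd (nat_lit 4) (.nd (nat_lit 5) 
(.lf (nat_lit 57926) (.g (nat_lit 5461) (.e (nat_lit 1454) (nat_lit 108) (.e (nat_lit 336022) (nat_lit 3) (.e (nat_lit 98373) (nat_lit 29) (.e (nat_lit 450588) (nat_lit 10) (.e (nat_lit 573473) (nat_lit 12) (.e (nat_lit 57569) (nat_lit 53) (.e (nat_lit 761867) (nat_lit 5) .nil))))))) (.g (nat_lit 7) .nil .nil))) 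
(.lf (nat_lit 57958) (.g (nat_lit 4196) (.e (nat_lit 1454) (nat_lit 108) (.e (nat_lit 336028) (nat_lit 3) (.e (nat_lit 98359) (nat_lit 26) (.e (nat_lit 426286) (nat_lit 10) (.e (nat_lit 434248) (nat_lit 28) (.e (nat_lit 573475) (nat_lit 12) (.e (nat_lit 57569) (nat_lit 53) (.e (nat_lit 761867) (nat_lit 5) .nil)))))))) (.g (nat_lit 7) .nil .nil)))) (.nd (nat_lit 5) 
(.lf (nat_lit 57942) (.g (nat_lit 2589) (.e (nat_lit 1454) (nat_lit 108) (.e (nat_lit 336024) (nat_lit 3) (.e (nat_lit 98372) (nat_lit 29) (.e (nat_lit 450586) (nat_lit 10) (.e (nat_lit 573473) (nat_lit 12) (.e (nat_lit 57569) (nat_lit 53) (.e (nat_lit 761867) (nat_lit 5) .nil))))))) (.g (nat_lit 5) .nil .nil))) 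
(.lf (nat_lit 57974) (.g (nat_lit 3729) (.e (nat_lit 1454) (nat_lit 108) (.e (nat_lit 336056) (nat_lit 7) (.e (nat_lit 319534) (nat_lit 16) (.e (nat_lit 286756) (nat_lit 10) (.e (nat_lit 344160) (nat_lit 37) (.e (nat_lit 647200) (nat_lit 12) (.e (nat_lit 57569) (nat_lit 53) (.e (nat_lit 761867) (nat_lit 5) .nil)))))))) (.g (nat_lit 6) .nil .nil))))) (.nd (nat_lit 4) (.nd (nat_lit 5) 
(.lf (nat_lit 57934) (.g (nat_lit 2025) (.e (nat_lit 1454) (nat_lit 108) (.e (nat_lit 336023) (nat_lit 3) (.e (nat_lit 98372) (nat_lit 29) (.e (nat_lit 450586) (nat_lit 10) (.e (nat_lit 573478) (nat_lit 12) (.e (nat_lit 57568) (nat_lit 53) (.e (nat_lit 761867) (nat_lit 5) .nil))))))) (.g (nat_lit 5) .nil .nil))) 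
(.lf (nat_lit 57966) (.g (nat_lit 3697) (.e (nat_lit 1454) (nat_lit 108) (.e (nat_lit 343808) (nat_lit 3) (.e (nat_lit 98373) (nat_lit 29) (.e (nat_lit 450587) (nat_lit 10) (.e (nat_lit 573473) (nat_lit 12) (.e (nat_lit 57569) (nat_lit 53) (.e (nat_lit 761867) (nat_lit 5) .nil))))))) (.g (nat_lit 6) .nil .nil)))) (.nd (nat_lit 5) 
(.lf (nat_lit 57950) (.g (nat_lit 5143) (.e (nat_lit 1454) (nat_lit 108) (.e (nat_lit 336024) (nat_lit 3) (.e (nat_lit 98373) (nat_lit 29) (.e (nat_lit 450588) (nat_lit 10) (.e (nat_lit 573475) (nat_lit 12) (.e (nat_lit 57569) (nat_lit 53) (.e (nat_lit 761866) (nat_lit 5) .nil))))))) (.g (nat_lit 7) .nil .nil))) 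
(.lf (nat_lit 57982) (.g (nat_lit 3183) (.e (nat_lit 1454) (nat_lit 108) (.e (nat_lit 336058) (nat_lit 7) (.e (nat_lit 319534) (nat_lit 16) (.e (nat_lit 286756) (nat_lit 10) (.e (nat_lit 344160) (nat_lit 37) (.e (nat_lit 647195) (nat_lit 9) (.e (nat_lit 982) (nat_lit 81) (.e (nat_lit 2270) (nat_lit 149) (.e (nat_lit 761867) (nat_lit 5) .nil))))))))) (.g (nat_lit 5) .nil .nil)))))))) 
(.nd (nat_lit 1) (.nd (nat_lit 2) (.nd (nat_lit 3) (.nd (nat_lit 4) (.nd (nat_lit 5) 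
(.lf (nat_lit 57921) (.g (nat_lit 1972) (.e (nat_lit 1454) (nat_lit 108) (.e (nat_lit 336022) (nat_lit 3) (.e (nat_lit 98372) (nat_lit 29) (.e (nat_lit 450586) (nat_lit 10) (.e (nat_lit 573478) (nat_lit 12) (.e (nat_lit 57568) (nat_lit 53) (.e (nat_lit 761866) (nat_lit 5) .nil))))))) (.g (nat_lit 4) .nil .nil))) 
(.lf (nat_lit 57953) (.g (nat_lit 4353) (.e (nat_lit 1454) (nat_lit 108) (.e (nat_lit 336028) (nat_lit 3) (.e (nat_lit 98359) (nat_lit 26) (.e (nat_lit 426286) (nat_lit 10) (.e (nat_lit 434245) (nat_lit 28) (.e (nat_lit 573473) (nat_lit 12) (.e (nat_lit 57569) (nat_lit 53) (.e (nat_lit 761867) (nat_lit 5) .nil)))))))) (.g (nat_lit 0) .nil .nil)))) (.nd (nat_lit 5) 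
(.lf (nat_lit 57937) (.g (nat_lit 6382) (.e (nat_lit 1454) (nat_lit 108) (.e (nat_lit 336023) (nat_lit 3) (.e (nat_lit 98373) (nat_lit 29) (.e (nat_lit 450588) (nat_lit 10) (.e (nat_lit 573473) (nat_lit 12) (.e (nat_lit 57569) (nat_lit 53) (.e (nat_lit 761866) (nat_lit 5) .nil))))))) (.g (nat_lit 7) .nil .nil))) 
(.lf (nat_lit 57969) (.g (nat_lit 3659) (.e (nat_lit 1454) (nat_lit 108) (.e (nat_lit 336056) (nat_lit 7) (.e (nat_lit 319533) (nat_lit 16) (.e (nat_lit 286753) (nat_lit 10) (.e (nat_lit 344160) (nat_lit 37) (.e (nat_lit 647200) (nat_lit 12) (.e (nat_lit 57569) (nat_lit 53) (.e (nat_lit 761867) (nat_lit 5) .nil)))))))) (.g (nat_lit 7) .nil .nil))))) (.nd (nat_lit 4) (.nd (nat_lit 5) 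
(.lf (nat_lit 57929) (.g (nat_lit 2996) (.e (nat_lit 1454) (nat_lit 108) (.e (nat_lit 336023) (nat_lit 3) (.e (nat_lit 98359) (nat_lit 26) (.e (nat_lit 426286) (nat_lit 10) (.e (nat_lit 434248) (nat_lit 28) (.e (nat_lit 573473) (nat_lit 12) (.e (nat_lit 57569) (nat_lit 53) (.e (nat_lit 761866) (nat_lit 5) .nil)))))))) (.g (nat_lit 5) .nil .nil))) 
(.lf (nat_lit 57961) (.g (nat_lit 1549) (.e (nat_lit 1454) (nat_lit 108) (.e (nat_lit 336028) (nat_lit 3) (.e (nat_lit 98373) (nat_lit 29) (.e (nat_lit 450586) (nat_lit 10) .nil)))) .nil))) (.nd (nat_lit 5) 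
(.lf (nat_lit 57945) (.g (nat_lit 4882) (.e (nat_lit 1454) (nat_lit 108) (.e (nat_lit 336024) (nat_lit 3) (.e (nat_lit 98373) (nat_lit 29) (.e (nat_lit 450587) (nat_lit 10) (.e (nat_lit 573475) (nat_lit 12) (.e (nat_lit 57569) (nat_lit 53) (.e (nat_lit 761867) (nat_lit 5) .nil))))))) (.g (nat_lit 6) .nil .nil))) 
(.lf (nat_lit 57977) (.g (nat_lit 2267) (.e (nat_lit 1454) (nat_lit 108) (.e (nat_lit 336058) (nat_lit 7) (.e (nat_lit 319533) (nat_lit 16) (.e (nat_lit 286753) (nat_lit 10) (.e (nat_lit 344160) (nat_lit 37) (.e (nat_lit 647195) (nat_lit 9) (.e (nat_lit 982) (nat_lit 81) (.e (nat_lit 2270) (nat_lit 149) (.e (nat_lit 761867) (nat_lit 5) .nil))))))))) (.g (nat_lit 4) .nil .nil)))))) 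
(.nd (nat_lit 3) (.nd (nat_lit 4) (.nd (nat_lit 5) 
(.lf (nat_lit 57925) (.g (nat_lit 5879) (.e (nat_lit 1454) (nat_lit 108) (.e (nat_lit 336022) (nat_lit 3) (.e (nat_lit 98373) (nat_lit 29) (.e (nat_lit 450588) (nat_lit 10) (.e (nat_lit 573473) (nat_lit 12) (.e (nat_lit 57569) (nat_lit 53) (.e (nat_lit 761866) (nat_lit 5) .nil))))))) (.g (nat_lit 7) .nil .nil))) 
(.lf (nat_lit 57957) (.g (nat_lit 4645) (.e (nat_lit 1454) (nat_lit 108) (.e (nat_lit 336028) (nat_lit 3) (.e (nat_lit 98359) (nat_lit 26) (.e (nat_lit 426286) (nat_lit 10) (.e (nat_lit 434248) (nat_lit 28) (.e (nat_lit 573475) (nat_lit 12) (.e (nat_lit 57569) (nat_lit 53) (.e (nat_lit 761866) (nat_lit 5) .nil)))))))) (.g (nat_lit 8) .nil .nil)))) (.nd (nat_lit 5) 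
(.lf (nat_lit 57941) (.g (nat_lit 5422) (.e (nat_lit 1454) (nat_lit 108) (.e (nat_lit 336023) (nat_lit 3) (.e (nat_lit 98373) (nat_lit 29) (.e (nat_lit 450588) (nat_lit 10) (.e (nat_lit 573475) (nat_lit 12) (.e (nat_lit 57569) (nat_lit 53) (.e (nat_lit 761867) (nat_lit 5) .nil))))))) (.g (nat_lit 5) .nil .nil))) 
(.lf (nat_lit 57973) (.g (nat_lit 4284) (.e (nat_lit 1454) (nat_lit 108) (.e (nat_lit 336056) (nat_lit 7) (.e (nat_lit 319534) (nat_lit 16) (.e (nat_lit 286756) (nat_lit 10) (.e (nat_lit 344160) (nat_lit 37) (.e (nat_lit 647200) (nat_lit 12) (.e (nat_lit 57569) (nat_lit 53) (.e (nat_lit 761866) (nat_lit 5) .nil)))))))) (.g (nat_lit 7) .nil .nil))))) (.nd (nat_lit 4) (.nd (nat_lit 5) 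
(.lf (nat_lit 57933) (.g (nat_lit 2181) (.e (nat_lit 1454) (nat_lit 108) (.e (nat_lit 336023) (nat_lit 3) (.e (nat_lit 98372) (nat_lit 29) (.e (nat_lit 450586) (nat_lit 10) (.e (nat_lit 573478) (nat_lit 12) (.e (nat_lit 57568) (nat_lit 53) (.e (nat_lit 761866) (nat_lit 5) .nil))))))) (.g (nat_lit 5) .nil .nil))) 
(.lf (nat_lit 57965) (.g (nat_lit 993) (.e (nat_lit 1454) (nat_lit 108) (.e (nat_lit 336028) (nat_lit 3) (.e (nat_lit 98374) (nat_lit 29) .nil))) .nil))) (.nd (nat_lit 5) 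
(.lf (nat_lit 57949) (.g (nat_lit 5094) (.e (nat_lit 1454) (nat_lit 108) (.e (nat_lit 336024) (nat_lit 3) (.e (nat_lit 98373) (nat_lit 29) (.e (nat_lit 450588) (nat_lit 10) (.e (nat_lit 573473) (nat_lit 12) (.e (nat_lit 57569) (nat_lit 53) (.e (nat_lit 761867) (nat_lit 5) .nil))))))) (.g (nat_lit 0) .nil .nil))) 
(.lf (nat_lit 57981) (.g (nat_lit 2423) (.e (nat_lit 1454) (nat_lit 108) (.e (nat_lit 336058) (nat_lit 7) (.e (nat_lit 319534) (nat_lit 16) (.e (nat_lit 286756) (nat_lit 10) (.e (nat_lit 344160) (nat_lit 37) (.e (nat_lit 647195) (nat_lit 9) (.e (nat_lit 982) (nat_lit 81) (.e (nat_lit 2270) (nat_lit 149) (.e (nat_lit 761866) (nat_lit 5) .nil))))))))) (.g (nat_lit 4) .nil .nil))))))) 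
(.nd (nat_lit 2) (.nd (nat_lit 3) (.nd (nat_lit 4) (.nd (nat_lit 5) 
(.lf (nat_lit 57923) (.g (nat_lit 3150) (.e (nat_lit 1454) (nat_lit 108) (.e (nat_lit 336022) (nat_lit 3) (.e (nat_lit 98373) (nat_lit 29) (.e (nat_lit 450587) (nat_lit 10) (.e (nat_lit 573478) (nat_lit 12) (.e (nat_lit 57568) (nat_lit 53) (.e (nat_lit 761866) (nat_lit 5) .nil))))))) (.g (nat_lit 5) .nil .nil))) 
(.lf (nat_lit 57955) (.g (nat_lit 4777) (.e (nat_lit 1454) (nat_lit 108) (.e (nat_lit 336028) (nat_lit 3) (.e (nat_lit 98359) (nat_lit 26) (.e (nat_lit 426286) (nat_lit 10) (.e (nat_lit 434248) (nat_lit 28) (.e (nat_lit 573473) (nat_lit 12) (.e (nat_lit 57569) (nat_lit 53) (.e (nat_lit 761866) (nat_lit 5) .nil)))))))) (.g (nat_lit 0) .nil .nil)))) (.nd (nat_lit 5) 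
(.lf (nat_lit 57939) (.g (nat_lit 5166) (.e (nat_lit 1454) (nat_lit 108) (.e (nat_lit 336023) (nat_lit 3) (.e (nat_lit 98373) (nat_lit 29) (.e (nat_lit 450588) (nat_lit 10) (.e (nat_lit 573475) (nat_lit 12) (.e (nat_lit 57568) (nat_lit 53) (.e (nat_lit 761867) (nat_lit 5) .nil))))))) (.g (nat_lit 5) .nil .nil))) 
(.lf (nat_lit 57971) (.g (nat_lit 3391) (.e (nat_lit 1454) (nat_lit 108) (.e (nat_lit 336056) (nat_lit 7) (.e (nat_lit 319533) (nat_lit 16) (.e (nat_lit 286753) (nat_lit 10) (.e (nat_lit 344160) (nat_lit 37) (.e (nat_lit 647201) (nat_lit 12) (.e (nat_lit 57568) (nat_lit 53) (.e (nat_lit 761867) (nat_lit 5) .nil)))))))) (.g (nat_lit 6) .nil .nil))))) (.nd (nat_lit 4) (.nd (nat_lit 5) 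
(.lf (nat_lit 57931) (.g (nat_lit 2741) (.e (nat_lit 1454) (nat_lit 108) (.e (nat_lit 336023) (nat_lit 3) (.e (nat_lit 98372) (nat_lit 29) (.e (nat_lit 450586) (nat_lit 10) (.e (nat_lit 573475) (nat_lit 12) (.e (nat_lit 57568) (nat_lit 53) (.e (nat_lit 761866) (nat_lit 5) .nil))))))) (.g (nat_lit 5) .nil .nil))) 
(.lf (nat_lit 57963) (.g (nat_lit 4612) (.e (nat_lit 1454) (nat_lit 108) (.e (nat_lit 336028) (nat_lit 3) (.e (nat_lit 98373) (nat_lit 29) (.e (nat_lit 450588) (nat_lit 10) (.e (nat_lit 573475) (nat_lit 12) (.e (nat_lit 57569) (nat_lit 53) (.e (nat_lit 761866) (nat_lit 5) .nil))))))) (.g (nat_lit 7) .nil .nil)))) (.nd (nat_lit 5) 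
(.lf (nat_lit 57947) (.g (nat_lit 2552) (.e (nat_lit 1454) (nat_lit 108) (.e (nat_lit 336024) (nat_lit 3) (.e (nat_lit 98373) (nat_lit 29) (.e (nat_lit 450587) (nat_lit 10) (.e (nat_lit 573478) (nat_lit 12) (.e (nat_lit 57568) (nat_lit 53) (.e (nat_lit 761867) (nat_lit 5) .nil))))))) (.g (nat_lit 5) .nil .nil))) 
(.lf (nat_lit 57979) (.g (nat_lit 2268) (.e (nat_lit 1454) (nat_lit 108) (.e (nat_lit 336058) (nat_lit 7) (.e (nat_lit 319533) (nat_lit 16) (.e (nat_lit 286753) (nat_lit 10) (.e (nat_lit 344160) (nat_lit 37) (.e (nat_lit 647201) (nat_lit 12) (.e (nat_lit 57568) (nat_lit 53) (.e (nat_lit 761866) (nat_lit 5) .nil)))))))) (.g (nat_lit 4) .nil .nil)))))) 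
(.nd (nat_lit 3) (.nd (nat_lit 4) (.nd (nat_lit 5) 
(.lf (nat_lit 57927) (.g (nat_lit 4511) (.e (nat_lit 1454) (nat_lit 108) (.e (nat_lit 336022) (nat_lit 3) (.e (nat_lit 98373) (nat_lit 29) (.e (nat_lit 450588) (nat_lit 10) (.e (nat_lit 573475) (nat_lit 12) (.e (nat_lit 57568) (nat_lit 53) (.e (nat_lit 761867) (nat_lit 5) .nil))))))) (.g (nat_lit 5) .nil .nil))) 
(.lf (nat_lit 57959) (.g (nat_lit 3448) (.e (nat_lit 1454) (nat_lit 108) (.e (nat_lit 336028) (nat_lit 3) (.e (nat_lit 98372) (nat_lit 29) (.e (nat_lit 450586) (nat_lit 10) (.e (nat_lit 573475) (nat_lit 12) (.e (nat_lit 57569) (nat_lit 53) (.e (nat_lit 761867) (nat_lit 5) .nil))))))) (.g (nat_lit 6) .nil .nil)))) (.nd (nat_lit 5) 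
(.lf (nat_lit 57943) (.g (nat_lit 1573) (.e (nat_lit 1454) (nat_lit 108) (.e (nat_lit 336024) (nat_lit 3) (.e (nat_lit 98372) (nat_lit 29) (.e (nat_lit 450586) (nat_lit 10) (.e (nat_lit 573478) (nat_lit 12) (.e (nat_lit 57568) (nat_lit 53) (.e (nat_lit 761866) (nat_lit 5) .nil))))))) (.g (nat_lit 4) .nil .nil))) 
(.lf (nat_lit 57975) (.g (nat_lit 4023) (.e (nat_lit 1454) (nat_lit 108) (.e (nat_lit 336056) (nat_lit 7) (.e (nat_lit 319534) (nat_lit 16) (.e (nat_lit 286756) (nat_lit 10) (.e (nat_lit 344160) (nat_lit 37) (.e (nat_lit 647201) (nat_lit 12) (.e (nat_lit 57568) (nat_lit 53) (.e (nat_lit 761866) (nat_lit 5) .nil)))))))) (.g (nat_lit 6) .nil .nil))))) (.nd (nat_lit 4) (.nd (nat_lit 5) 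
(.lf (nat_lit 57935) (.g (nat_lit 3325) (.e (nat_lit 1454) (nat_lit 108) (.e (nat_lit 336023) (nat_lit 3) (.e (nat_lit 98373) (nat_lit 29) (.e (nat_lit 450587) (nat_lit 10) (.e (nat_lit 573478) (nat_lit 12) .nil))))) .nil)) 
(.lf (nat_lit 57967) (.g (nat_lit 4064) (.e (nat_lit 1454) (nat_lit 108) (.e (nat_lit 343808) (nat_lit 3) (.e (nat_lit 98373) (nat_lit 29) (.e (nat_lit 450587) (nat_lit 10) (.e (nat_lit 573475) (nat_lit 12) (.e (nat_lit 57568) (nat_lit 53) (.e (nat_lit 761866) (nat_lit 5) .nil))))))) (.g (nat_lit 5) .nil .nil)))) (.nd (nat_lit 5) 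
(.lf (nat_lit 57951) (.g (nat_lit 4664) (.e (nat_lit 1454) (nat_lit 108) (.e (nat_lit 336024) (nat_lit 3) (.e (nat_lit 98373) (nat_lit 29) (.e (nat_lit 450588) (nat_lit 10) (.e (nat_lit 573475) (nat_lit 12) (.e (nat_lit 57569) (nat_lit 53) (.e (nat_lit 761867) (nat_lit 5) .nil))))))) (.g (nat_lit 6) .nil .nil))) 
(.lf (nat_lit 57983) (.g (nat_lit 2309) (.e (nat_lit 1454) (nat_lit 108) (.e (nat_lit 336058) (nat_lit 7) (.e (nat_lit 319534) (nat_lit 16) (.e (nat_lit 286756) (nat_lit 10) (.e (nat_lit 344160) (nat_lit 37) (.e (nat_lit 647195) (nat_lit 9) (.e (nat_lit 1178) (nat_lit 87) (.e (nat_lit 57666) (nat_lit 152) (.e (nat_lit 1077) (nat_lit 81) .nil))))))))) (.g (nat_lit 4) .nil .nil)))))))))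

noncomputable def tv798 : DT := (.nd (nat_lit 0) (.nd (nat_lit 1) (.nd (nat_lit 2) (.nd (nat_lit 3) (.nd (nat_lit 4) (.nd (nat_lit 5) 
(.lf (nat_lit 57984) (.g (nat_lit 2988) (.e (nat_lit 1454) (nat_lit 108) (.e (nat_lit 336058) (nat_lit 7) (.e (nat_lit 319534) (nat_lit 16) (.e (nat_lit 286756) (nat_lit 10) (.e (nat_lit 344160) (nat_lit 37) (.e (nat_lit 647200) (nat_lit 12) (.e (nat_lit 57569) (nat_lit 53) (.e (nat_lit 761866) (nat_lit 5) .nil)))))))) (.g (nat_lit 5) .nil .nil))) 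
(.lf (nat_lit 58016) (.g (nat_lit 1729) (.e (nat_lit 1454) (nat_lit 108) (.e (nat_lit 336061) (nat_lit 7) (.e (nat_lit 319531) (nat_lit 16) (.e (nat_lit 286759) (nat_lit 12) .nil)))) .nil))) (.nd (nat_lit 5) 
(.lf (nat_lit 58000) (.g (nat_lit 2567) (.e (nat_lit 1454) (nat_lit 108) (.e (nat_lit 336060) (nat_lit 7) (.e (nat_lit 319534) (nat_lit 16) (.e (nat_lit 286756) (nat_lit 10) (.e (nat_lit 344160) (nat_lit 37) (.e (nat_lit 647190) (nat_lit 9) (.e (nat_lit 1183) (nat_lit 87) (.e (nat_lit 57666) (nat_lit 152) (.e (nat_lit 1077) (nat_lit 81) .nil))))))))) (.g (nat_lit 4) .nil .nil))) 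
(.lf (nat_lit 58032) (.g (nat_lit 3292) (.e (nat_lit 1454) (nat_lit 108) (.e (nat_lit 336061) (nat_lit 7) (.e (nat_lit 319534) (nat_lit 16) (.e (nat_lit 286756) (nat_lit 10) (.e (nat_lit 344160) (nat_lit 37) (.e (nat_lit 647195) (nat_lit 9) (.e (nat_lit 1178) (nat_lit 87) (.e (nat_lit 57666) (nat_lit 152) (.e (nat_lit 1077) (nat_lit 81) .nil))))))))) (.g (nat_lit 4) .nil .nil))))) 
(.nd (nat_lit 4) (.nd (nat_lit 5) 
(.lf (nat_lit 57992) (.g (nat_lit 2961) (.e (nat_lit 1454) (nat_lit 108) (.e (nat_lit 336060) (nat_lit 7) (.e (nat_lit 319533) (nat_lit 16) (.e (nat_lit 286753) (nat_lit 10) (.e (nat_lit 344160) (nat_lit 37) (.e (nat_lit 647195) (nat_lit 9) (.e (nat_lit 1180) (nat_lit 87) (.e (nat_lit 57666) (nat_lit 152) (.e (nat_lit 1077) (nat_lit 81) .nil))))))))) (.g (nat_lit 5) .nil .nil))) 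
(.lf (nat_lit 58024) (.g (nat_lit 1546) (.e (nat_lit 1454) (nat_lit 108) (.e (nat_lit 336061) (nat_lit 7) (.e (nat_lit 319531) (nat_lit 16) (.e (nat_lit 294656) (nat_lit 35) .nil)))) .nil))) (.nd (nat_lit 5) 
(.lf (nat_lit 58008) (.g (nat_lit 2058) (.e (nat_lit 1454) (nat_lit 108) (.e (nat_lit 336061) (nat_lit 7) (.e (nat_lit 319531) (nat_lit 16) (.e (nat_lit 286743) (nat_lit 9) .nil)))) .nil)) 
(.lf (nat_lit 58040) (.g (nat_lit 1964) (.e (nat_lit 1454) (nat_lit 108) (.e (nat_lit 336089) (nat_lit 9) (.e (nat_lit 336369) (nat_lit 27) (.e (nat_lit 426173) (nat_lit 7) (.e (nat_lit 409616) (nat_lit 10) (.e (nat_lit 7936) (nat_lit 301) (.e (nat_lit 57569) (nat_lit 53) (.e (nat_lit 761866) (nat_lit 5) .nil)))))))) (.g (nat_lit 4) .nil .nil)))))) 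
(.nd (nat_lit 3) (.nd (nat_lit 4) (.nd (nat_lit 5) 
(.lf (nat_lit 57988) (.g (nat_lit 437) (.e (nat_lit 1454) (nat_lit 108) (.e (nat_lit 336060) (nat_lit 7) (.e (nat_lit 319505) (nat_lit 10) .nil))) .nil)) 
(.lf (nat_lit 58020) (.g (nat_lit 4345) (.e (nat_lit 1454) (nat_lit 108) (.e (nat_lit 336061) (nat_lit 7) (.e (nat_lit 319531) (nat_lit 16) (.e (nat_lit 286759) (nat_lit 12) (.e (nat_lit 385094) (nat_lit 49) (.e (nat_lit 778486) (nat_lit 12) (.e (nat_lit 164031) (nat_lit 53) (.e (nat_lit 761866) (nat_lit 5) .nil)))))))) (.g (nat_lit 6) .nil .nil)))) (.nd (nat_lit 5) 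
(.lf (nat_lit 58004) (.g (nat_lit 2150) (.e (nat_lit 1454) (nat_lit 108) (.e (nat_lit 336060) (nat_lit 7) (.e (nat_lit 319534) (nat_lit 16) (.e (nat_lit 286756) (nat_lit 10) (.e (nat_lit 344160) (nat_lit 37) (.e (nat_lit 647200) (nat_lit 12) (.e (nat_lit 57568) (nat_lit 53) (.e (nat_lit 761867) (nat_lit 5) .nil)))))))) (.g (nat_lit 4) .nil .nil))) 
(.lf (nat_lit 58036) (.g (nat_lit 2101) (.e (nat_lit 1454) (nat_lit 108) (.e (nat_lit 336080) (nat_lit 9) (.e (nat_lit 336369) (nat_lit 27) (.e (nat_lit 426173) (nat_lit 7) (.e (nat_lit 409649) (nat_lit 18) (.e (nat_lit 303111) (nat_lit 0) (.e (nat_lit 3459) (nat_lit 216) (.e (nat_lit 688159) (nat_lit 13) .nil)))))))) (.g (nat_lit 4) .nil .nil))))) (.nd (nat_lit 4) (.nd (nat_lit 5) 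
(.lf (nat_lit 57996) (.g (nat_lit 3484) (.e (nat_lit 1454) (nat_lit 108) (.e (nat_lit 336060) (nat_lit 7) (.e (nat_lit 319533) (nat_lit 16) (.e (nat_lit 286753) (nat_lit 10) (.e (nat_lit 344160) (nat_lit 37) (.e (nat_lit 647201) (nat_lit 12) (.e (nat_lit 57568) (nat_lit 53) (.e (nat_lit 761867) (nat_lit 5) .nil)))))))) (.g (nat_lit 7) .nil .nil))) 
(.lf (nat_lit 58028) (.g (nat_lit 3007) (.e (nat_lit 1454) (nat_lit 108) (.e (nat_lit 336061) (nat_lit 7) (.e (nat_lit 319533) (nat_lit 16) (.e (nat_lit 286753) (nat_lit 10) (.e (nat_lit 344160) (nat_lit 37) (.e (nat_lit 647201) (nat_lit 12) (.e (nat_lit 57568) (nat_lit 53) (.e (nat_lit 761866) (nat_lit 5) .nil)))))))) (.g (nat_lit 5) .nil .nil)))) (.nd (nat_lit 5) 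
(.lf (nat_lit 58012) (.g (nat_lit 2583) (.e (nat_lit 1454) (nat_lit 108) (.e (nat_lit 336061) (nat_lit 7) (.e (nat_lit 319531) (nat_lit 16) (.e (nat_lit 286756) (nat_lit 10) (.e (nat_lit 344160) (nat_lit 37) .nil))))) .nil)) 
(.lf (nat_lit 58044) (.g (nat_lit 1532) (.e (nat_lit 1454) (nat_lit 108) (.e (nat_lit 336097) (nat_lit 9) (.e (nat_lit 336412) (nat_lit 27) (.e (nat_lit 426011) (nat_lit 0) (.e (nat_lit 7591) (nat_lit 407) (.e (nat_lit 73772) (nat_lit 24) (.e (nat_lit 761867) (nat_lit 5) .nil))))))) (.g (nat_lit 4) .nil .nil))))))) (.nd (nat_lit 2) (.nd (nat_lit 3) (.nd (nat_lit 4) (.nd (nat_lit 5) 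
(.lf (nat_lit 57986) (.g (nat_lit 2727) (.e (nat_lit 1454) (nat_lit 108) (.e (nat_lit 336058) (nat_lit 7) (.e (nat_lit 319534) (nat_lit 16) (.e (nat_lit 286756) (nat_lit 10) (.e (nat_lit 344160) (nat_lit 37) (.e (nat_lit 647201) (nat_lit 12) (.e (nat_lit 57568) (nat_lit 53) (.e (nat_lit 761866) (nat_lit 5) .nil)))))))) (.g (nat_lit 4) .nil .nil))) 
(.lf (nat_lit 58018) (.g (nat_lit 3988) (.e (nat_lit 1454) (nat_lit 108) (.e (nat_lit 336061) (nat_lit 7) (.e (nat_lit 319531) (nat_lit 16) (.e (nat_lit 286759) (nat_lit 12) (.e (nat_lit 385092) (nat_lit 49) (.e (nat_lit 778486) (nat_lit 12) (.e (nat_lit 164031) (nat_lit 53) (.e (nat_lit 761866) (nat_lit 5) .nil)))))))) (.g (nat_lit 7) .nil .nil)))) (.nd (nat_lit 5) 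
(.lf (nat_lit 58002) (.g (nat_lit 2592) (.e (nat_lit 1454) (nat_lit 108) (.e (nat_lit 336060) (nat_lit 7) (.e (nat_lit 319534) (nat_lit 16) (.e (nat_lit 286756) (nat_lit 10) (.e (nat_lit 344160) (nat_lit 37) (.e (nat_lit 647195) (nat_lit 9) (.e (nat_lit 982) (nat_lit 81) (.e (nat_lit 2270) (nat_lit 149) (.e (nat_lit 761868) (nat_lit 5) .nil))))))))) (.g (nat_lit 4) .nil .nil))) 
(.lf (nat_lit 58034) (.g (nat_lit 3709) (.e (nat_lit 1454) (nat_lit 108) (.e (nat_lit 336061) (nat_lit 7) (.e (nat_lit 319534) (nat_lit 16) (.e (nat_lit 286756) (nat_lit 10) (.e (nat_lit 344160) (nat_lit 37) (.e (nat_lit 647201) (nat_lit 12) (.e (nat_lit 57568) (nat_lit 53) (.e (nat_lit 761866) (nat_lit 5) .nil)))))))) (.g (nat_lit 5) .nil .nil))))) (.nd (nat_lit 4) (.nd (nat_lit 5) 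
(.lf (nat_lit 57994) (.g (nat_lit 1879) (.e (nat_lit 1454) (nat_lit 108) (.e (nat_lit 336060) (nat_lit 7) (.e (nat_lit 319533) (nat_lit 16) (.e (nat_lit 286753) (nat_lit 10) (.e (nat_lit 344160) (nat_lit 37) (.e (nat_lit 647200) (nat_lit 12) (.e (nat_lit 57568) (nat_lit 53) (.e (nat_lit 761867) (nat_lit 5) .nil)))))))) (.g (nat_lit 4) .nil .nil))) 
(.lf (nat_lit 58026) (.g (nat_lit 2922) (.e (nat_lit 1454) (nat_lit 108) (.e (nat_lit 336061) (nat_lit 7) (.e (nat_lit 319533) (nat_lit 16) (.e (nat_lit 286753) (nat_lit 10) (.e (nat_lit 344160) (nat_lit 37) (.e (nat_lit 647195) (nat_lit 9) (.e (nat_lit 1181) (nat_lit 87) (.e (nat_lit 57666) (nat_lit 152) (.e (nat_lit 1077) (nat_lit 81) .nil))))))))) (.g (nat_lit 4) .nil .nil)))) (.nd (nat_lit 5) 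
(.lf (nat_lit 58010) (.g (nat_lit 1911) (.e (nat_lit 1454) (nat_lit 108) (.e (nat_lit 336061) (nat_lit 7) (.e (nat_lit 319531) (nat_lit 16) (.e (nat_lit 286748) (nat_lit 9) (.e (nat_lit 336295) (nat_lit 15) (.e (nat_lit 3629) (nat_lit 227) (.e (nat_lit 778486) (nat_lit 12) (.e (nat_lit 164031) (nat_lit 53) (.e (nat_lit 761866) (nat_lit 5) .nil))))))))) (.g (nat_lit 4) .nil .nil))) 
(.lf (nat_lit 58042) (.g (nat_lit 2777) (.e (nat_lit 1454) (nat_lit 108) (.e (nat_lit 336089) (nat_lit 9) (.e (nat_lit 336369) (nat_lit 27) (.e (nat_lit 426173) (nat_lit 7) (.e (nat_lit 409649) (nat_lit 18) (.e (nat_lit 303111) (nat_lit 0) (.e (nat_lit 3469) (nat_lit 217) (.e (nat_lit 696355) (nat_lit 13) .nil)))))))) (.g (nat_lit 6) .nil .nil)))))) 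
(.nd (nat_lit 3) (.nd (nat_lit 4) (.nd (nat_lit 5) 
(.lf (nat_lit 57990) (.g (nat_lit 3631) (.e (nat_lit 1454) (nat_lit 108) (.e (nat_lit 336060) (nat_lit 7) (.e (nat_lit 319533) (nat_lit 16) (.e (nat_lit 286753) (nat_lit 10) (.e (nat_lit 344160) (nat_lit 37) (.e (nat_lit 647195) (nat_lit 9) (.e (nat_lit 982) (nat_lit 81) (.e (nat_lit 2270) (nat_lit 149) (.e (nat_lit 761867) (nat_lit 5) .nil))))))))) (.g (nat_lit 6) .nil .nil))) 
(.lf (nat_lit 58022) (.g (nat_lit 2988) (.e (nat_lit 1454) (nat_lit 108) (.e (nat_lit 336061) (nat_lit 7) (.e (nat_lit 319531) (nat_lit 16) (.e (nat_lit 286759) (nat_lit 12) (.e (nat_lit 385110) (nat_lit 52) (.e (nat_lit 802832) (nat_lit 20) (.e (nat_lit 3604) (nat_lit 225) (.e (nat_lit 761866) (nat_lit 5) .nil)))))))) (.g (nat_lit 4) .nil .nil)))) (.nd (nat_lit 5) 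
(.lf (nat_lit 58006) (.g (nat_lit 4144) (.e (nat_lit 1454) (nat_lit 108) (.e (nat_lit 336060) (nat_lit 7) (.e (nat_lit 319534) (nat_lit 16) (.e (nat_lit 286756) (nat_lit 10) (.e (nat_lit 344160) (nat_lit 37) (.e (nat_lit 647201) (nat_lit 12) (.e (nat_lit 57568) (nat_lit 53) (.e (nat_lit 761867) (nat_lit 5) .nil)))))))) (.g (nat_lit 7) .nil .nil))) 
(.lf (nat_lit 58038) (.g (nat_lit 2006) (.e (nat_lit 1454) (nat_lit 108) (.e (nat_lit 336083) (nat_lit 9) (.e (nat_lit 336369) (nat_lit 27) (.e (nat_lit 426173) (nat_lit 7) (.e (nat_lit 409616) (nat_lit 10) (.e (nat_lit 7936) (nat_lit 301) (.e (nat_lit 57569) (nat_lit 53) (.e (nat_lit 761866) (nat_lit 5) .nil)))))))) (.g (nat_lit 4) .nil .nil))))) (.nd (nat_lit 4) (.nd (nat_lit 5) 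
(.lf (nat_lit 57998) (.g (nat_lit 2137) (.e (nat_lit 1454) (nat_lit 108) (.e (nat_lit 336060) (nat_lit 7) (.e (nat_lit 319534) (nat_lit 16) (.e (nat_lit 286756) (nat_lit 10) (.e (nat_lit 344160) (nat_lit 37) .nil))))) .nil)) 
(.lf (nat_lit 58030) (.g (nat_lit 1833) (.e (nat_lit 1454) (nat_lit 108) (.e (nat_lit 336061) (nat_lit 7) (.e (nat_lit 319534) (nat_lit 16) (.e (nat_lit 286756) (nat_lit 10) .nil)))) .nil))) (.nd (nat_lit 5) 
(.lf (nat_lit 58014) (.g (nat_lit 2763) (.e (nat_lit 1454) (nat_lit 108) (.e (nat_lit 336061) (nat_lit 7) (.e (nat_lit 319531) (nat_lit 16) (.e (nat_lit 286756) (nat_lit 10) (.e (nat_lit 344160) (nat_lit 37) (.e (nat_lit 647195) (nat_lit 9) (.e (nat_lit 1181) (nat_lit 87) (.e (nat_lit 57666) (nat_lit 152) (.e (nat_lit 1077) (nat_lit 81) .nil))))))))) (.g (nat_lit 4) .nil .nil))) 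
(.lf (nat_lit 58046) (.g (nat_lit 1768) (.e (nat_lit 1454) (nat_lit 108) (.e (nat_lit 336097) (nat_lit 9) (.e (nat_lit 336412) (nat_lit 27) (.e (nat_lit 426011) (nat_lit 0) (.e (nat_lit 7593) (nat_lit 407) (.e (nat_lit 73772) (nat_lit 24) (.e (nat_lit 761867) (nat_lit 5) .nil))))))) (.g (nat_lit 5) .nil .nil)))))))) 
(.nd (nat_lit 1) (.nd (nat_lit 2) (.nd (nat_lit 3) (.nd (nat_lit 4) (.nd (nat_lit 5) 
(.lf (nat_lit 57985) (.g (nat_lit 2431) (.e (nat_lit 1454) (nat_lit 108) (.e (nat_lit 336058) (nat_lit 7) (.e (nat_lit 319534) (nat_lit 16) (.e (nat_lit 286756) (nat_lit 10) (.e (nat_lit 344160) (nat_lit 37) (.e (nat_lit 647200) (nat_lit 12) (.e (nat_lit 57569) (nat_lit 53) (.e (nat_lit 761867) (nat_lit 5) .nil)))))))) (.g (nat_lit 4) .nil .nil))) 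
(.lf (nat_lit 58017) (.g (nat_lit 2770) (.e (nat_lit 1454) (nat_lit 108) (.e (nat_lit 336061) (nat_lit 7) (.e (nat_lit 319531) (nat_lit 16) (.e (nat_lit 286759) (nat_lit 12) (.e (nat_lit 385092) (nat_lit 49) .nil))))) .nil))) (.nd (nat_lit 5) 
(.lf (nat_lit 58001) (.g (nat_lit 3973) (.e (nat_lit 1454) (nat_lit 108) (.e (nat_lit 336060) (nat_lit 7) (.e (nat_lit 319534) (nat_lit 16) (.e (nat_lit 286756) (nat_lit 10) (.e (nat_lit 344160) (nat_lit 37) (.e (nat_lit 647195) (nat_lit 9) (.e (nat_lit 982) (nat_lit 81) (.e (nat_lit 2270) (nat_lit 149) (.e (nat_lit 761866) (nat_lit 5) .nil))))))))) (.g (nat_lit 6) .nil .nil))) 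
(.lf (nat_lit 58033) (.g (nat_lit 3969) (.e (nat_lit 1454) (nat_lit 108) (.e (nat_lit 336061) (nat_lit 7) (.e (nat_lit 319534) (nat_lit 16) (.e (nat_lit 286756) (nat_lit 10) (.e (nat_lit 344160) (nat_lit 37) (.e (nat_lit 647200) (nat_lit 12) (.e (nat_lit 57569) (nat_lit 53) (.e (nat_lit 761866) (nat_lit 5) .nil)))))))) (.g (nat_lit 6) .nil .nil))))) (.nd (nat_lit 4) (.nd (nat_lit 5) 
(.lf (nat_lit 57993) (.g (nat_lit 2009) (.e (nat_lit 1454) (nat_lit 108) (.e (nat_lit 336060) (nat_lit 7) (.e (nat_lit 319533) (nat_lit 16) (.e (nat_lit 286753) (nat_lit 10) (.e (nat_lit 344160) (nat_lit 37) (.e (nat_lit 647200) (nat_lit 12) (.e (nat_lit 57568) (nat_lit 53) (.e (nat_lit 761866) (nat_lit 5) .nil)))))))) (.g (nat_lit 4) .nil .nil))) 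
(.lf (nat_lit 58025) (.g (nat_lit 2448) (.e (nat_lit 1454) (nat_lit 108) (.e (nat_lit 336061) (nat_lit 7) (.e (nat_lit 319533) (nat_lit 16) (.e (nat_lit 286753) (nat_lit 10) (.e (nat_lit 344160) (nat_lit 37) .nil))))) .nil))) (.nd (nat_lit 5) 
(.lf (nat_lit 58009) (.g (nat_lit 1813) (.e (nat_lit 1454) (nat_lit 108) (.e (nat_lit 336061) (nat_lit 7) (.e (nat_lit 319531) (nat_lit 16) (.e (nat_lit 286748) (nat_lit 9) (.e (nat_lit 336295) (nat_lit 15) .nil))))) .nil)) 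
(.lf (nat_lit 58041) (.g (nat_lit 1724) (.e (nat_lit 1454) (nat_lit 108) (.e (nat_lit 336089) (nat_lit 9) (.e (nat_lit 336369) (nat_lit 27) (.e (nat_lit 426173) (nat_lit 7) (.e (nat_lit 409617) (nat_lit 10) .nil))))) .nil))))) (.nd (nat_lit 3) (.nd (nat_lit 4) (.nd (nat_lit 5) 
(.lf (nat_lit 57989) (.g (nat_lit 2853) (.e (nat_lit 1454) (nat_lit 108) (.e (nat_lit 336060) (nat_lit 7) (.e (nat_lit 319533) (nat_lit 16) (.e (nat_lit 286753) (nat_lit 10) (.e (nat_lit 344160) (nat_lit 37) (.e (nat_lit 647195) (nat_lit 9) (.e (nat_lit 982) (nat_lit 81) (.e (nat_lit 2270) (nat_lit 149) (.e (nat_lit 761866) (nat_lit 5) .nil))))))))) (.g (nat_lit 5) .nil .nil))) 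
(.lf (nat_lit 58021) (.g (nat_lit 2902) (.e (nat_lit 1454) (nat_lit 108) (.e (nat_lit 336061) (nat_lit 7) (.e (nat_lit 319531) (nat_lit 16) (.e (nat_lit 286759) (nat_lit 12) (.e (nat_lit 392960) (nat_lit 49) (.e (nat_lit 778472) (nat_lit 12) (.e (nat_lit 164031) (nat_lit 53) (.e (nat_lit 761866) (nat_lit 5) .nil)))))))) (.g (nat_lit 4) .nil .nil)))) (.nd (nat_lit 5) 
(.lf (nat_lit 58005) (.g (nat_lit 3947) (.e (nat_lit 1454) (nat_lit 108) (.e (nat_lit 336060) (nat_lit 7) (.e (nat_lit 319534) (nat_lit 16) (.e (nat_lit 286756) (nat_lit 10) (.e (nat_lit 344160) (nat_lit 37) (.e (nat_lit 647200) (nat_lit 12) (.e (nat_lit 57569) (nat_lit 53) (.e (nat_lit 761867) (nat_lit 5) .nil)))))))) (.g (nat_lit 7) .nil .nil))) 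
(.lf (nat_lit 58037) (.g (nat_lit 2073) (.e (nat_lit 1454) (nat_lit 108) (.e (nat_lit 336080) (nat_lit 9) (.e (nat_lit 336369) (nat_lit 27) (.e (nat_lit 426173) (nat_lit 7) (.e (nat_lit 409649) (nat_lit 18) (.e (nat_lit 303111) (nat_lit 0) (.e (nat_lit 3469) (nat_lit 217) (.e (nat_lit 696355) (nat_lit 13) .nil)))))))) (.g (nat_lit 4) .nil .nil))))) (.nd (nat_lit 4) (.nd (nat_lit 5) 
(.lf (nat_lit 57997) (.g (nat_lit 2117) (.e (nat_lit 1454) (nat_lit 108) (.e (nat_lit 336060) (nat_lit 7) (.e (nat_lit 319534) (nat_lit 16) (.e (nat_lit 286756) (nat_lit 10) (.e (nat_lit 344090) (nat_lit 18) .nil))))) .nil)) 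
(.lf (nat_lit 58029) (.g (nat_lit 2859) (.e (nat_lit 1454) (nat_lit 108) (.e (nat_lit 336061) (nat_lit 7) (.e (nat_lit 319533) (nat_lit 16) (.e (nat_lit 286753) (nat_lit 10) (.e (nat_lit 344160) (nat_lit 37) (.e (nat_lit 647201) (nat_lit 12) (.e (nat_lit 57568) (nat_lit 53) (.e (nat_lit 761867) (nat_lit 5) .nil)))))))) (.g (nat_lit 4) .nil .nil)))) (.nd (nat_lit 5) 
(.lf (nat_lit 58013) (.g (nat_lit 2907) (.e (nat_lit 1454) (nat_lit 108) (.e (nat_lit 336061) (nat_lit 7) (.e (nat_lit 319531) (nat_lit 16) (.e (nat_lit 286756) (nat_lit 10) (.e (nat_lit 344160) (nat_lit 37) (.e (nat_lit 647195) (nat_lit 9) (.e (nat_lit 982) (nat_lit 81) (.e (nat_lit 2270) (nat_lit 149) (.e (nat_lit 761867) (nat_lit 5) .nil))))))))) (.g (nat_lit 4) .nil .nil))) 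
(.lf (nat_lit 58045) (.g (nat_lit 1919) (.e (nat_lit 1454) (nat_lit 108) (.e (nat_lit 336097) (nat_lit 9) (.e (nat_lit 336412) (nat_lit 27) (.e (nat_lit 426011) (nat_lit 0) (.e (nat_lit 7593) (nat_lit 407) (.e (nat_lit 73772) (nat_lit 24) (.e (nat_lit 761866) (nat_lit 5) .nil))))))) (.g (nat_lit 5) .nil .nil))))))) (.nd (nat_lit 2) (.nd (nat_lit 3) (.nd (nat_lit 4) (.nd (nat_lit 5) 
(.lf (nat_lit 57987) (.g (nat_lit 2579) (.e (nat_lit 1454) (nat_lit 108) (.e (nat_lit 336058) (nat_lit 7) (.e (nat_lit 319534) (nat_lit 16) (.e (nat_lit 286756) (nat_lit 10) (.e (nat_lit 344160) (nat_lit 37) (.e (nat_lit 647201) (nat_lit 12) (.e (nat_lit 57568) (nat_lit 53) (.e (nat_lit 761867) (nat_lit 5) .nil)))))))) (.g (nat_lit 4) .nil .nil))) 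
(.lf (nat_lit 58019) (.g (nat_lit 2796) (.e (nat_lit 1454) (nat_lit 108) (.e (nat_lit 336061) (nat_lit 7) (.e (nat_lit 319531) (nat_lit 16) (.e (nat_lit 286759) (nat_lit 12) (.e (nat_lit 385093) (nat_lit 49) .nil))))) .nil))) (.nd (nat_lit 5) 
(.lf (nat_lit 58003) (.g (nat_lit 2283) (.e (nat_lit 1454) (nat_lit 108) (.e (nat_lit 336060) (nat_lit 7) (.e (nat_lit 319534) (nat_lit 16) (.e (nat_lit 286756) (nat_lit 10) (.e (nat_lit 344160) (nat_lit 37) (.e (nat_lit 647200) (nat_lit 12) (.e (nat_lit 57568) (nat_lit 53) (.e (nat_lit 761866) (nat_lit 5) .nil)))))))) (.g (nat_lit 4) .nil .nil))) 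
(.lf (nat_lit 58035) (.g (nat_lit 3562) (.e (nat_lit 1454) (nat_lit 108) (.e (nat_lit 336061) (nat_lit 7) (.e (nat_lit 319534) (nat_lit 16) (.e (nat_lit 286756) (nat_lit 10) (.e (nat_lit 344160) (nat_lit 37) (.e (nat_lit 647201) (nat_lit 12) (.e (nat_lit 57568) (nat_lit 53) (.e (nat_lit 761867) (nat_lit 5) .nil)))))))) (.g (nat_lit 5) .nil .nil))))) (.nd (nat_lit 4) (.nd (nat_lit 5) 
(.lf (nat_lit 57995) (.g (nat_lit 3703) (.e (nat_lit 1454) (nat_lit 108) (.e (nat_lit 336060) (nat_lit 7) (.e (nat_lit 319533) (nat_lit 16) (.e (nat_lit 286753) (nat_lit 10) (.e (nat_lit 344160) (nat_lit 37) (.e (nat_lit 647200) (nat_lit 12) (.e (nat_lit 57569) (nat_lit 53) (.e (nat_lit 761867) (nat_lit 5) .nil)))))))) (.g (nat_lit 7) .nil .nil))) 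
(.lf (nat_lit 58027) (.g (nat_lit 3127) (.e (nat_lit 1454) (nat_lit 108) (.e (nat_lit 336061) (nat_lit 7) (.e (nat_lit 319533) (nat_lit 16) (.e (nat_lit 286753) (nat_lit 10) (.e (nat_lit 344160) (nat_lit 37) (.e (nat_lit 647200) (nat_lit 12) (.e (nat_lit 57569) (nat_lit 53) (.e (nat_lit 761867) (nat_lit 5) .nil)))))))) (.g (nat_lit 5) .nil .nil)))) (.nd (nat_lit 5) 
(.lf (nat_lit 58011) (.g (nat_lit 2025) (.e (nat_lit 1454) (nat_lit 108) (.e (nat_lit 336061) (nat_lit 7) (.e (nat_lit 319531) (nat_lit 16) (.e (nat_lit 286748) (nat_lit 9) (.e (nat_lit 336295) (nat_lit 15) (.e (nat_lit 3666) (nat_lit 227) (.e (nat_lit 778477) (nat_lit 12) (.e (nat_lit 164031) (nat_lit 53) (.e (nat_lit 761866) (nat_lit 5) .nil))))))))) (.g (nat_lit 4) .nil .nil))) 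
(.lf (nat_lit 58043) (.g (nat_lit 1669) (.e (nat_lit 1454) (nat_lit 108) (.e (nat_lit 336097) (nat_lit 9) (.e (nat_lit 336412) (nat_lit 27) (.e (nat_lit 426011) (nat_lit 0) (.e (nat_lit 7591) (nat_lit 407) (.e (nat_lit 73772) (nat_lit 24) (.e (nat_lit 761866) (nat_lit 5) .nil))))))) (.g (nat_lit 5) .nil .nil)))))) (.nd (nat_lit 3) (.nd (nat_lit 4) (.nd (nat_lit 5) 
(.lf (nat_lit 57991) (.g (nat_lit 3712) (.e (nat_lit 1454) (nat_lit 108) (.e (nat_lit 336060) (nat_lit 7) (.e (nat_lit 319533) (nat_lit 16) (.e (nat_lit 286753) (nat_lit 10) (.e (nat_lit 344160) (nat_lit 37) (.e (nat_lit 647195) (nat_lit 9) (.e (nat_lit 1178) (nat_lit 87) (.e (nat_lit 57666) (nat_lit 152) (.e (nat_lit 1077) (nat_lit 81) .nil))))))))) (.g (nat_lit 6) .nil .nil))) 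
(.lf (nat_lit 58023) (.g (nat_lit 3509) (.e (nat_lit 1454) (nat_lit 108) (.e (nat_lit 336061) (nat_lit 7) (.e (nat_lit 319531) (nat_lit 16) (.e (nat_lit 286759) (nat_lit 12) (.e (nat_lit 385115) (nat_lit 53) (.e (nat_lit 811033) (nat_lit 11) (.e (nat_lit 846) (nat_lit 73) (.e (nat_lit 761867) (nat_lit 5) .nil)))))))) (.g (nat_lit 5) .nil .nil)))) (.nd (nat_lit 5) 
(.lf (nat_lit 58007) (.g (nat_lit 1896) (.e (nat_lit 1454) (nat_lit 108) (.e (nat_lit 336061) (nat_lit 7) (.e (nat_lit 319505) (nat_lit 10) (.e (nat_lit 720) (nat_lit 64) (.e (nat_lit 688177) (nat_lit 16) .nil))))) .nil)) 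
(.lf (nat_lit 58039) (.g (nat_lit 2450) (.e (nat_lit 1454) (nat_lit 108) (.e (nat_lit 336083) (nat_lit 9) (.e (nat_lit 336369) (nat_lit 27) (.e (nat_lit 426173) (nat_lit 7) (.e (nat_lit 409649) (nat_lit 18) (.e (nat_lit 303111) (nat_lit 0) (.e (nat_lit 3469) (nat_lit 217) (.e (nat_lit 696355) (nat_lit 13) .nil)))))))) (.g (nat_lit 5) .nil .nil))))) (.nd (nat_lit 4) (.nd (nat_lit 5) 
(.lf (nat_lit 57999) (.g (nat_lit 3184) (.e (nat_lit 1454) (nat_lit 108) (.e (nat_lit 336060) (nat_lit 7) (.e (nat_lit 319534) (nat_lit 16) (.e (nat_lit 286756) (nat_lit 10) (.e (nat_lit 344160) (nat_lit 37) (.e (nat_lit 647190) (nat_lit 9) (.e (nat_lit 1177) (nat_lit 87) (.e (nat_lit 57666) (nat_lit 152) (.e (nat_lit 1077) (nat_lit 81) .nil))))))))) (.g (nat_lit 5) .nil .nil))) 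
(.lf (nat_lit 58031) (.g (nat_lit 2865) (.e (nat_lit 1454) (nat_lit 108) (.e (nat_lit 336061) (nat_lit 7) (.e (nat_lit 319534) (nat_lit 16) (.e (nat_lit 286756) (nat_lit 10) (.e (nat_lit 344160) (nat_lit 37) .nil))))) .nil))) (.nd (nat_lit 5) 
(.lf (nat_lit 58015) (.g (nat_lit 2736) (.e (nat_lit 1454) (nat_lit 108) (.e (nat_lit 336061) (nat_lit 7) (.e (nat_lit 319531) (nat_lit 16) (.e (nat_lit 286756) (nat_lit 10) (.e (nat_lit 344160) (nat_lit 37) (.e (nat_lit 647200) (nat_lit 12) (.e (nat_lit 57569) (nat_lit 53) (.e (nat_lit 761866) (nat_lit 5) .nil)))))))) (.g (nat_lit 4) .nil .nil))) 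
(.lf (nat_lit 58047) (.g (nat_lit 2161) (.e (nat_lit 1454) (nat_lit 108) (.e (nat_lit 336097) (nat_lit 9) (.e (nat_lit 336412) (nat_lit 27) (.e (nat_lit 426343) (nat_lit 14) (.e (nat_lit 491558) (nat_lit 10) (.e (nat_lit 344174) (nat_lit 42) (.e (nat_lit 761867) (nat_lit 5) .nil))))))) (.g (nat_lit 5) .nil .nil)))))))))

noncomputable def tv799 : DT := (.nd (nat_lit 0) (.nd (nat_lit 1) (.nd (nat_lit 2) (.nd (nat_lit 3) (.nd (nat_lit 4) (.nd (nat_lit 5) 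
(.lf (nat_lit 58048) (.g (nat_lit 1108) (.e (nat_lit 1454) (nat_lit 108) (.e (nat_lit 336099) (nat_lit 9) (.e (nat_lit 335907) (nat_lit 0) (.e (nat_lit 2370) (nat_lit 154) .nil)))) .nil)) 
(.lf (nat_lit 58080) (.g (nat_lit 2988) (.e (nat_lit 1454) (nat_lit 108) (.e (nat_lit 336111) (nat_lit 9) (.e (nat_lit 336412) (nat_lit 27) (.e (nat_lit 426343) (nat_lit 14) (.e (nat_lit 491560) (nat_lit 10) (.e (nat_lit 344174) (nat_lit 42) (.e (nat_lit 761866) (nat_lit 5) .nil))))))) (.g (nat_lit 6) .nil .nil)))) (.nd (nat_lit 5) 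
(.lf (nat_lit 58064) (.g (nat_lit 2699) (.e (nat_lit 1454) (nat_lit 108) (.e (nat_lit 336099) (nat_lit 9) (.e (nat_lit 336412) (nat_lit 27) (.e (nat_lit 426343) (nat_lit 14) (.e (nat_lit 491560) (nat_lit 10) (.e (nat_lit 344173) (nat_lit 42) (.e (nat_lit 761866) (nat_lit 5) .nil))))))) (.g (nat_lit 5) .nil .nil))) 
(.lf (nat_lit 58096) (.g (nat_lit 1952) (.e (nat_lit 1454) (nat_lit 108) (.e (nat_lit 336173) (nat_lit 10) (.e (nat_lit 344174) (nat_lit 42) (.e (nat_lit 761866) (nat_lit 5) (.e (nat_lit 1454) (nat_lit 108) (.e (nat_lit 336179) (nat_lit 10) (.e (nat_lit 344174) (nat_lit 42) (.e (nat_lit 761866) (nat_lit 5) .nil)))))))) (.g (nat_lit 4) .nil .nil))))) (.nd (nat_lit 4) (.nd (nat_lit 5) 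
(.lf (nat_lit 58056) (.g (nat_lit 2220) (.e (nat_lit 1454) (nat_lit 108) (.e (nat_lit 336099) (nat_lit 9) (.e (nat_lit 336013) (nat_lit 2) (.e (nat_lit 98048) (nat_lit 2) (.e (nat_lit 16425) (nat_lit 7) (.e (nat_lit 409633) (nat_lit 13) (.e (nat_lit 40963) (nat_lit 0) .nil))))))) (.g (nat_lit 6) .nil .nil))) 
(.lf (nat_lit 58088) (.g (nat_lit 2091) (.e (nat_lit 1454) (nat_lit 108) (.e (nat_lit 336164) (nat_lit 10) (.e (nat_lit 344177) (nat_lit 43) (.e (nat_lit 770072) (nat_lit 8) (.e (nat_lit 65610) (nat_lit 10) (.e (nat_lit 344174) (nat_lit 42) (.e (nat_lit 761866) (nat_lit 5) .nil))))))) (.g (nat_lit 4) .nil .nil)))) (.nd (nat_lit 5) 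
(.lf (nat_lit 58072) (.g (nat_lit 1987) (.e (nat_lit 1454) (nat_lit 108) (.e (nat_lit 336102) (nat_lit 9) (.e (nat_lit 336412) (nat_lit 27) (.e (nat_lit 426343) (nat_lit 14) (.e (nat_lit 491558) (nat_lit 10) (.e (nat_lit 344174) (nat_lit 42) (.e (nat_lit 761867) (nat_lit 5) .nil))))))) (.g (nat_lit 5) .nil .nil))) 
(.lf (nat_lit 58104) (.g (nat_lit 1930) (.e (nat_lit 1454) (nat_lit 108) (.e (nat_lit 336173) (nat_lit 10) (.e (nat_lit 344174) (nat_lit 42) (.e (nat_lit 761868) (nat_lit 5) (.e (nat_lit 1585) (nat_lit 111) (.e (nat_lit 360488) (nat_lit 20) (.e (nat_lit 761867) (nat_lit 5) .nil))))))) (.g (nat_lit 5) .nil .nil)))))) (.nd (nat_lit 3) (.nd (nat_lit 4) (.nd (nat_lit 5) 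
(.lf (nat_lit 58052) (.g (nat_lit 1931) (.e (nat_lit 1454) (nat_lit 108) (.e (nat_lit 336099) (nat_lit 9) (.e (nat_lit 336013) (nat_lit 2) (.e (nat_lit 98048) (nat_lit 2) (.e (nat_lit 16384) (nat_lit 0) (.e (nat_lit 7107) (nat_lit 380) (.e (nat_lit 164108) (nat_lit 116) (.e (nat_lit 778278) (nat_lit 0) .nil)))))))) (.g (nat_lit 6) .nil .nil))) 
(.lf (nat_lit 58084) (.g (nat_lit 2066) (.e (nat_lit 1454) (nat_lit 108) (.e (nat_lit 336112) (nat_lit 9) (.e (nat_lit 336412) (nat_lit 27) (.e (nat_lit 426011) (nat_lit 0) (.e (nat_lit 7593) (nat_lit 407) (.e (nat_lit 73772) (nat_lit 24) (.e (nat_lit 761866) (nat_lit 5) .nil))))))) (.g (nat_lit 5) .nil .nil)))) (.nd (nat_lit 5) 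
(.lf (nat_lit 58068) (.g (nat_lit 1447) (.e (nat_lit 1454) (nat_lit 108) (.e (nat_lit 336102) (nat_lit 9) (.e (nat_lit 336412) (nat_lit 27) (.e (nat_lit 426011) (nat_lit 0) (.e (nat_lit 7591) (nat_lit 407) (.e (nat_lit 73772) (nat_lit 24) (.e (nat_lit 761866) (nat_lit 5) .nil))))))) (.g (nat_lit 4) .nil .nil))) 
(.lf (nat_lit 58100) (.g (nat_lit 2604) (.e (nat_lit 1454) (nat_lit 108) (.e (nat_lit 336173) (nat_lit 10) (.e (nat_lit 344174) (nat_lit 42) (.e (nat_lit 761867) (nat_lit 5) (.e (nat_lit 1454) (nat_lit 108) (.e (nat_lit 336173) (nat_lit 10) (.e (nat_lit 344174) (nat_lit 42) (.e (nat_lit 761867) (nat_lit 5) .nil)))))))) (.g (nat_lit 6) .nil .nil))))) (.nd (nat_lit 4) (.nd (nat_lit 5) 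
(.lf (nat_lit 58060) (.g (nat_lit 1958) (.e (nat_lit 1454) (nat_lit 108) (.e (nat_lit 336099) (nat_lit 9) (.e (nat_lit 336013) (nat_lit 2) (.e (nat_lit 98048) (nat_lit 2) (.e (nat_lit 16473) (nat_lit 14) (.e (nat_lit 491543) (nat_lit 6) (.e (nat_lit 147458) (nat_lit 0) .nil))))))) (.g (nat_lit 5) .nil .nil))) 
(.lf (nat_lit 58092) (.g (nat_lit 2860) (.e (nat_lit 1454) (nat_lit 108) (.e (nat_lit 336173) (nat_lit 10) (.e (nat_lit 344174) (nat_lit 42) (.e (nat_lit 761866) (nat_lit 5) (.e (nat_lit 1454) (nat_lit 108) (.e (nat_lit 336173) (nat_lit 10) (.e (nat_lit 344174) (nat_lit 42) (.e (nat_lit 761866) (nat_lit 5) .nil)))))))) (.g (nat_lit 6) .nil .nil)))) (.nd (nat_lit 5) 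
(.lf (nat_lit 58076) (.g (nat_lit 2271) (.e (nat_lit 1454) (nat_lit 108) (.e (nat_lit 336111) (nat_lit 9) (.e (nat_lit 336412) (nat_lit 27) (.e (nat_lit 426011) (nat_lit 0) (.e (nat_lit 7593) (nat_lit 407) (.e (nat_lit 73772) (nat_lit 24) (.e (nat_lit 761866) (nat_lit 5) .nil))))))) (.g (nat_lit 5) .nil .nil))) 
(.lf (nat_lit 58108) (.g (nat_lit 1941) (.e (nat_lit 1454) (nat_lit 108) (.e (nat_lit 336173) (nat_lit 10) (.e (nat_lit 344174) (nat_lit 42) (.e (nat_lit 761869) (nat_lit 5) (.e (nat_lit 1585) (nat_lit 111) (.e (nat_lit 360488) (nat_lit 20) (.e (nat_lit 761867) (nat_lit 5) .nil))))))) (.g (nat_lit 4) .nil .nil))))))) (.nd (nat_lit 2) (.nd (nat_lit 3) (.nd (nat_lit 4) (.nd (nat_lit 5) 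
(.lf (nat_lit 58050) (.g (nat_lit 840) (.e (nat_lit 1454) (nat_lit 108) (.e (nat_lit 336099) (nat_lit 9) (.e (nat_lit 336013) (nat_lit 2) (.e (nat_lit 98048) (nat_lit 0) .nil)))) .nil)) 
(.lf (nat_lit 58082) (.g (nat_lit 1816) (.e (nat_lit 1454) (nat_lit 108) (.e (nat_lit 336112) (nat_lit 9) (.e (nat_lit 336412) (nat_lit 27) (.e (nat_lit 426011) (nat_lit 0) (.e (nat_lit 7591) (nat_lit 407) (.e (nat_lit 73772) (nat_lit 24) (.e (nat_lit 761866) (nat_lit 5) .nil))))))) (.g (nat_lit 5) .nil .nil)))) (.nd (nat_lit 5) 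
(.lf (nat_lit 58066) (.g (nat_lit 4175) (.e (nat_lit 1454) (nat_lit 108) (.e (nat_lit 336099) (nat_lit 9) (.e (nat_lit 336412) (nat_lit 27) (.e (nat_lit 426343) (nat_lit 14) (.e (nat_lit 491560) (nat_lit 10) (.e (nat_lit 344174) (nat_lit 42) (.e (nat_lit 761866) (nat_lit 5) .nil))))))) (.g (nat_lit 0) .nil .nil))) 
(.lf (nat_lit 58098) (.g (nat_lit 2514) (.e (nat_lit 1454) (nat_lit 108) (.e (nat_lit 336173) (nat_lit 10) (.e (nat_lit 344174) (nat_lit 42) (.e (nat_lit 761866) (nat_lit 5) (.e (nat_lit 1597) (nat_lit 111) (.e (nat_lit 360488) (nat_lit 20) (.e (nat_lit 761866) (nat_lit 5) .nil))))))) (.g (nat_lit 5) .nil .nil))))) (.nd (nat_lit 4) (.nd (nat_lit 5) 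
(.lf (nat_lit 58058) (.g (nat_lit 1924) (.e (nat_lit 1454) (nat_lit 108) (.e (nat_lit 336099) (nat_lit 9) (.e (nat_lit 336013) (nat_lit 2) (.e (nat_lit 98048) (nat_lit 2) (.e (nat_lit 16425) (nat_lit 7) (.e (nat_lit 409634) (nat_lit 13) (.e (nat_lit 40963) (nat_lit 0) .nil))))))) (.g (nat_lit 5) .nil .nil))) 
(.lf (nat_lit 58090) (.g (nat_lit 2138) (.e (nat_lit 1454) (nat_lit 108) (.e (nat_lit 336164) (nat_lit 10) (.e (nat_lit 344177) (nat_lit 43) (.e (nat_lit 770072) (nat_lit 8) (.e (nat_lit 65619) (nat_lit 10) (.e (nat_lit 344174) (nat_lit 42) (.e (nat_lit 761867) (nat_lit 5) .nil))))))) (.g (nat_lit 4) .nil .nil)))) (.nd (nat_lit 5) 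
(.lf (nat_lit 58074) (.g (nat_lit 2021) (.e (nat_lit 1454) (nat_lit 108) (.e (nat_lit 336111) (nat_lit 9) (.e (nat_lit 336412) (nat_lit 27) (.e (nat_lit 426011) (nat_lit 0) (.e (nat_lit 7591) (nat_lit 407) (.e (nat_lit 73772) (nat_lit 24) (.e (nat_lit 761866) (nat_lit 5) .nil))))))) (.g (nat_lit 5) .nil .nil))) 
(.lf (nat_lit 58106) (.g (nat_lit 2394) (.e (nat_lit 1454) (nat_lit 108) (.e (nat_lit 336173) (nat_lit 10) (.e (nat_lit 344174) (nat_lit 42) (.e (nat_lit 761868) (nat_lit 5) (.e (nat_lit 1597) (nat_lit 111) (.e (nat_lit 360488) (nat_lit 20) (.e (nat_lit 761867) (nat_lit 5) .nil))))))) (.g (nat_lit 6) .nil .nil)))))) (.nd (nat_lit 3) (.nd (nat_lit 4) (.nd (nat_lit 5) 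
(.lf (nat_lit 58054) (.g (nat_lit 2997) (.e (nat_lit 1454) (nat_lit 108) (.e (nat_lit 336099) (nat_lit 9) (.e (nat_lit 336013) (nat_lit 2) (.e (nat_lit 98048) (nat_lit 2) (.e (nat_lit 16425) (nat_lit 7) (.e (nat_lit 409616) (nat_lit 10) (.e (nat_lit 926) (nat_lit 75) (.e (nat_lit 778280) (nat_lit 0) .nil)))))))) (.g (nat_lit 6) .nil .nil))) 
(.lf (nat_lit 58086) (.g (nat_lit 2403) (.e (nat_lit 1454) (nat_lit 108) (.e (nat_lit 336112) (nat_lit 9) (.e (nat_lit 336412) (nat_lit 27) (.e (nat_lit 426343) (nat_lit 14) (.e (nat_lit 491558) (nat_lit 10) (.e (nat_lit 344174) (nat_lit 42) (.e (nat_lit 761866) (nat_lit 5) .nil))))))) (.g (nat_lit 6) .nil .nil)))) (.nd (nat_lit 5) 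
(.lf (nat_lit 58070) (.g (nat_lit 1595) (.e (nat_lit 1454) (nat_lit 108) (.e (nat_lit 336102) (nat_lit 9) (.e (nat_lit 336412) (nat_lit 27) (.e (nat_lit 426011) (nat_lit 0) (.e (nat_lit 7593) (nat_lit 407) (.e (nat_lit 73772) (nat_lit 24) (.e (nat_lit 761867) (nat_lit 5) .nil))))))) (.g (nat_lit 4) .nil .nil))) 
(.lf (nat_lit 58102) (.g (nat_lit 2269) (.e (nat_lit 1454) (nat_lit 108) (.e (nat_lit 336173) (nat_lit 10) (.e (nat_lit 344174) (nat_lit 42) (.e (nat_lit 761867) (nat_lit 5) (.e (nat_lit 1597) (nat_lit 111) (.e (nat_lit 360488) (nat_lit 20) (.e (nat_lit 761866) (nat_lit 5) .nil))))))) (.g (nat_lit 5) .nil .nil))))) (.nd (nat_lit 4) (.nd (nat_lit 5) 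
(.lf (nat_lit 58062) (.g (nat_lit 3861) (.e (nat_lit 1454) (nat_lit 108) (.e (nat_lit 336099) (nat_lit 9) (.e (nat_lit 336412) (nat_lit 27) (.e (nat_lit 426343) (nat_lit 14) (.e (nat_lit 491558) (nat_lit 10) (.e (nat_lit 344174) (nat_lit 42) (.e (nat_lit 761866) (nat_lit 5) .nil))))))) (.g (nat_lit 0) .nil .nil))) 
(.lf (nat_lit 58094) (.g (nat_lit 2358) (.e (nat_lit 1454) (nat_lit 108) (.e (nat_lit 336173) (nat_lit 10) (.e (nat_lit 344174) (nat_lit 42) (.e (nat_lit 761866) (nat_lit 5) (.e (nat_lit 1454) (nat_lit 108) (.e (nat_lit 336176) (nat_lit 10) (.e (nat_lit 344174) (nat_lit 42) (.e (nat_lit 761866) (nat_lit 5) .nil)))))))) (.g (nat_lit 5) .nil .nil)))) (.nd (nat_lit 5) 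
(.lf (nat_lit 58078) (.g (nat_lit 2777) (.e (nat_lit 1454) (nat_lit 108) (.e (nat_lit 336111) (nat_lit 9) (.e (nat_lit 336412) (nat_lit 27) (.e (nat_lit 426343) (nat_lit 14) (.e (nat_lit 491558) (nat_lit 10) (.e (nat_lit 344174) (nat_lit 42) (.e (nat_lit 761866) (nat_lit 5) .nil))))))) (.g (nat_lit 6) .nil .nil))) 
(.lf (nat_lit 58110) (.g (nat_lit 2342) (.e (nat_lit 1454) (nat_lit 108) (.e (nat_lit 336173) (nat_lit 10) (.e (nat_lit 344174) (nat_lit 42) (.e (nat_lit 761869) (nat_lit 5) (.e (nat_lit 1597) (nat_lit 111) (.e (nat_lit 360488) (nat_lit 20) (.e (nat_lit 761867) (nat_lit 5) .nil))))))) (.g (nat_lit 5) .nil .nil)))))))) 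
(.nd (nat_lit 1) (.nd (nat_lit 2) (.nd (nat_lit 3) (.nd (nat_lit 4) (.nd (nat_lit 5) 
(.lf (nat_lit 58049) (.g (nat_lit 2621) (.e (nat_lit 1454) (nat_lit 108) (.e (nat_lit 336099) (nat_lit 9) (.e (nat_lit 336013) (nat_lit 2) (.e (nat_lit 90119) (nat_lit 0) .nil)))) .nil)) 
(.lf (nat_lit 58081) (.g (nat_lit 2751) (.e (nat_lit 1454) (nat_lit 108) (.e (nat_lit 336111) (nat_lit 9) (.e (nat_lit 336412) (nat_lit 27) (.e (nat_lit 426343) (nat_lit 14) (.e (nat_lit 491560) (nat_lit 10) (.e (nat_lit 344174) (nat_lit 42) (.e (nat_lit 761867) (nat_lit 5) .nil))))))) (.g (nat_lit 6) .nil .nil)))) (.nd (nat_lit 5) 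
(.lf (nat_lit 58065) (.g (nat_lit 2578) (.e (nat_lit 1454) (nat_lit 108) (.e (nat_lit 336099) (nat_lit 9) (.e (nat_lit 336412) (nat_lit 27) (.e (nat_lit 426343) (nat_lit 14) (.e (nat_lit 491560) (nat_lit 10) (.e (nat_lit 344173) (nat_lit 42) (.e (nat_lit 761867) (nat_lit 5) .nil))))))) (.g (nat_lit 5) .nil .nil))) 
(.lf (nat_lit 58097) (.g (nat_lit 1824) (.e (nat_lit 1454) (nat_lit 108) (.e (nat_lit 336173) (nat_lit 10) (.e (nat_lit 344174) (nat_lit 42) (.e (nat_lit 761866) (nat_lit 5) (.e (nat_lit 1454) (nat_lit 108) (.e (nat_lit 336179) (nat_lit 10) (.e (nat_lit 344174) (nat_lit 42) (.e (nat_lit 761867) (nat_lit 5) .nil)))))))) (.g (nat_lit 4) .nil .nil))))) (.nd (nat_lit 4) (.nd (nat_lit 5) 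
(.lf (nat_lit 58057) (.g (nat_lit 1895) (.e (nat_lit 1454) (nat_lit 108) (.e (nat_lit 336099) (nat_lit 9) (.e (nat_lit 336013) (nat_lit 2) (.e (nat_lit 98048) (nat_lit 2) (.e (nat_lit 16425) (nat_lit 7) (.e (nat_lit 409633) (nat_lit 13) (.e (nat_lit 40964) (nat_lit 0) .nil))))))) (.g (nat_lit 5) .nil .nil))) 
(.lf (nat_lit 58089) (.g (nat_lit 2283) (.e (nat_lit 1454) (nat_lit 108) (.e (nat_lit 336164) (nat_lit 10) (.e (nat_lit 344177) (nat_lit 43) (.e (nat_lit 770072) (nat_lit 8) (.e (nat_lit 65619) (nat_lit 10) (.e (nat_lit 344174) (nat_lit 42) (.e (nat_lit 761866) (nat_lit 5) .nil))))))) (.g (nat_lit 4) .nil .nil)))) (.nd (nat_lit 5) 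
(.lf (nat_lit 58073) (.g (nat_lit 2225) (.e (nat_lit 1454) (nat_lit 108) (.e (nat_lit 336102) (nat_lit 9) (.e (nat_lit 336412) (nat_lit 27) (.e (nat_lit 426343) (nat_lit 14) (.e (nat_lit 491560) (nat_lit 10) (.e (nat_lit 344174) (nat_lit 42) (.e (nat_lit 761867) (nat_lit 5) .nil))))))) (.g (nat_lit 5) .nil .nil))) 
(.lf (nat_lit 58105) (.g (nat_lit 2420) (.e (nat_lit 1454) (nat_lit 108) (.e (nat_lit 336173) (nat_lit 10) (.e (nat_lit 344174) (nat_lit 42) (.e (nat_lit 761868) (nat_lit 5) (.e (nat_lit 1597) (nat_lit 111) (.e (nat_lit 360488) (nat_lit 20) (.e (nat_lit 761866) (nat_lit 5) .nil))))))) (.g (nat_lit 6) .nil .nil)))))) (.nd (nat_lit 3) (.nd (nat_lit 4) (.nd (nat_lit 5) 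
(.lf (nat_lit 58053) (.g (nat_lit 2775) (.e (nat_lit 1454) (nat_lit 108) (.e (nat_lit 336099) (nat_lit 9) (.e (nat_lit 336013) (nat_lit 2) (.e (nat_lit 98048) (nat_lit 2) (.e (nat_lit 16392) (nat_lit 0) (.e (nat_lit 7107) (nat_lit 380) (.e (nat_lit 164108) (nat_lit 116) (.e (nat_lit 778278) (nat_lit 0) .nil)))))))) (.g (nat_lit 6) .nil .nil))) 
(.lf (nat_lit 58085) (.g (nat_lit 1917) (.e (nat_lit 1454) (nat_lit 108) (.e (nat_lit 336112) (nat_lit 9) (.e (nat_lit 336412) (nat_lit 27) (.e (nat_lit 426011) (nat_lit 0) (.e (nat_lit 7593) (nat_lit 407) (.e (nat_lit 73772) (nat_lit 24) (.e (nat_lit 761867) (nat_lit 5) .nil))))))) (.g (nat_lit 5) .nil .nil)))) (.nd (nat_lit 5) 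
(.lf (nat_lit 58069) (.g (nat_lit 1359) (.e (nat_lit 1454) (nat_lit 108) (.e (nat_lit 336102) (nat_lit 9) (.e (nat_lit 336412) (nat_lit 27) (.e (nat_lit 426011) (nat_lit 0) (.e (nat_lit 7591) (nat_lit 407) (.e (nat_lit 73772) (nat_lit 24) (.e (nat_lit 761867) (nat_lit 5) .nil))))))) (.g (nat_lit 4) .nil .nil))) 
(.lf (nat_lit 58101) (.g (nat_lit 2138) (.e (nat_lit 1454) (nat_lit 108) (.e (nat_lit 336173) (nat_lit 10) (.e (nat_lit 344174) (nat_lit 42) (.e (nat_lit 761867) (nat_lit 5) (.e (nat_lit 1454) (nat_lit 108) (.e (nat_lit 336176) (nat_lit 10) (.e (nat_lit 344174) (nat_lit 42) (.e (nat_lit 761866) (nat_lit 5) .nil)))))))) (.g (nat_lit 5) .nil .nil))))) (.nd (nat_lit 4) (.nd (nat_lit 5) 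
(.lf (nat_lit 58061) (.g (nat_lit 2344) (.e (nat_lit 1454) (nat_lit 108) (.e (nat_lit 336099) (nat_lit 9) (.e (nat_lit 336013) (nat_lit 2) (.e (nat_lit 90187) (nat_lit 18) .nil)))) .nil)) 
(.lf (nat_lit 58093) (.g (nat_lit 2732) (.e (nat_lit 1454) (nat_lit 108) (.e (nat_lit 336173) (nat_lit 10) (.e (nat_lit 344174) (nat_lit 42) (.e (nat_lit 761866) (nat_lit 5) (.e (nat_lit 1454) (nat_lit 108) (.e (nat_lit 336173) (nat_lit 10) (.e (nat_lit 344174) (nat_lit 42) (.e (nat_lit 761867) (nat_lit 5) .nil)))))))) (.g (nat_lit 5) .nil .nil)))) (.nd (nat_lit 5) 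
(.lf (nat_lit 58077) (.g (nat_lit 2120) (.e (nat_lit 1454) (nat_lit 108) (.e (nat_lit 336111) (nat_lit 9) (.e (nat_lit 336412) (nat_lit 27) (.e (nat_lit 426011) (nat_lit 0) (.e (nat_lit 7593) (nat_lit 407) (.e (nat_lit 73772) (nat_lit 24) (.e (nat_lit 761867) (nat_lit 5) .nil))))))) (.g (nat_lit 5) .nil .nil))) 
(.lf (nat_lit 58109) (.g (nat_lit 2364) (.e (nat_lit 1454) (nat_lit 108) (.e (nat_lit 336173) (nat_lit 10) (.e (nat_lit 344174) (nat_lit 42) (.e (nat_lit 761869) (nat_lit 5) (.e (nat_lit 1597) (nat_lit 111) (.e (nat_lit 360488) (nat_lit 20) (.e (nat_lit 761866) (nat_lit 5) .nil))))))) (.g (nat_lit 5) .nil .nil))))))) (.nd (nat_lit 2) (.nd (nat_lit 3) (.nd (nat_lit 4) (.nd (nat_lit 5) 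
(.lf (nat_lit 58051) (.g (nat_lit 840) (.e (nat_lit 1454) (nat_lit 108) (.e (nat_lit 336099) (nat_lit 9) (.e (nat_lit 336013) (nat_lit 2) (.e (nat_lit 98048) (nat_lit 2) .nil)))) .nil)) 
(.lf (nat_lit 58083) (.g (nat_lit 1681) (.e (nat_lit 1454) (nat_lit 108) (.e (nat_lit 336112) (nat_lit 9) (.e (nat_lit 336412) (nat_lit 27) (.e (nat_lit 426011) (nat_lit 0) (.e (nat_lit 7591) (nat_lit 407) (.e (nat_lit 73772) (nat_lit 24) (.e (nat_lit 761867) (nat_lit 5) .nil))))))) (.g (nat_lit 5) .nil .nil)))) (.nd (nat_lit 5) 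
(.lf (nat_lit 58067) (.g (nat_lit 3924) (.e (nat_lit 1454) (nat_lit 108) (.e (nat_lit 336099) (nat_lit 9) (.e (nat_lit 336412) (nat_lit 27) (.e (nat_lit 426343) (nat_lit 14) (.e (nat_lit 491560) (nat_lit 10) (.e (nat_lit 344174) (nat_lit 42) (.e (nat_lit 761867) (nat_lit 5) .nil))))))) (.g (nat_lit 0) .nil .nil))) 
(.lf (nat_lit 58099) (.g (nat_lit 2492) (.e (nat_lit 1454) (nat_lit 108) (.e (nat_lit 336173) (nat_lit 10) (.e (nat_lit 344174) (nat_lit 42) (.e (nat_lit 761866) (nat_lit 5) (.e (nat_lit 1597) (nat_lit 111) (.e (nat_lit 360488) (nat_lit 20) (.e (nat_lit 761867) (nat_lit 5) .nil))))))) (.g (nat_lit 5) .nil .nil))))) (.nd (nat_lit 4) (.nd (nat_lit 5) 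
(.lf (nat_lit 58059) (.g (nat_lit 2712) (.e (nat_lit 1454) (nat_lit 108) (.e (nat_lit 336099) (nat_lit 9) (.e (nat_lit 336013) (nat_lit 2) (.e (nat_lit 98048) (nat_lit 2) (.e (nat_lit 16473) (nat_lit 14) (.e (nat_lit 491526) (nat_lit 0) (.e (nat_lit 2346) (nat_lit 151) (.e (nat_lit 778277) (nat_lit 0) .nil)))))))) (.g (nat_lit 6) .nil .nil))) 
(.lf (nat_lit 58091) (.g (nat_lit 769) (.e (nat_lit 1454) (nat_lit 108) (.e (nat_lit 336173) (nat_lit 10) (.e (nat_lit 344123) (nat_lit 24) (.e (nat_lit 540723) (nat_lit 27) .nil)))) .nil))) (.nd (nat_lit 5) 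
(.lf (nat_lit 58075) (.g (nat_lit 1884) (.e (nat_lit 1454) (nat_lit 108) (.e (nat_lit 336111) (nat_lit 9) (.e (nat_lit 336412) (nat_lit 27) (.e (nat_lit 426011) (nat_lit 0) (.e (nat_lit 7591) (nat_lit 407) (.e (nat_lit 73772) (nat_lit 24) (.e (nat_lit 761867) (nat_lit 5) .nil))))))) (.g (nat_lit 5) .nil .nil))) 
(.lf (nat_lit 58107) (.g (nat_lit 1960) (.e (nat_lit 1454) (nat_lit 108) (.e (nat_lit 336173) (nat_lit 10) (.e (nat_lit 344174) (nat_lit 42) (.e (nat_lit 761869) (nat_lit 5) (.e (nat_lit 1585) (nat_lit 111) (.e (nat_lit 360488) (nat_lit 20) (.e (nat_lit 761866) (nat_lit 5) .nil))))))) (.g (nat_lit 4) .nil .nil)))))) (.nd (nat_lit 3) (.nd (nat_lit 4) (.nd (nat_lit 5) 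
(.lf (nat_lit 58055) (.g (nat_lit 1836) (.e (nat_lit 1454) (nat_lit 108) (.e (nat_lit 336099) (nat_lit 9) (.e (nat_lit 336013) (nat_lit 2) (.e (nat_lit 98048) (nat_lit 2) (.e (nat_lit 16425) (nat_lit 7) (.e (nat_lit 409633) (nat_lit 13) (.e (nat_lit 40962) (nat_lit 0) .nil))))))) (.g (nat_lit 5) .nil .nil))) 
(.lf (nat_lit 58087) (.g (nat_lit 2614) (.e (nat_lit 1454) (nat_lit 108) (.e (nat_lit 336112) (nat_lit 9) (.e (nat_lit 336412) (nat_lit 27) (.e (nat_lit 426343) (nat_lit 14) (.e (nat_lit 491560) (nat_lit 10) (.e (nat_lit 344174) (nat_lit 42) (.e (nat_lit 761866) (nat_lit 5) .nil))))))) (.g (nat_lit 6) .nil .nil)))) (.nd (nat_lit 5) 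
(.lf (nat_lit 58071) (.g (nat_lit 2200) (.e (nat_lit 1454) (nat_lit 108) (.e (nat_lit 336102) (nat_lit 9) (.e (nat_lit 336412) (nat_lit 27) (.e (nat_lit 426343) (nat_lit 14) (.e (nat_lit 491558) (nat_lit 10) (.e (nat_lit 344174) (nat_lit 42) (.e (nat_lit 761866) (nat_lit 5) .nil))))))) (.g (nat_lit 5) .nil .nil))) 
(.lf (nat_lit 58103) (.g (nat_lit 2247) (.e (nat_lit 1454) (nat_lit 108) (.e (nat_lit 336173) (nat_lit 10) (.e (nat_lit 344174) (nat_lit 42) (.e (nat_lit 761867) (nat_lit 5) (.e (nat_lit 1597) (nat_lit 111) (.e (nat_lit 360488) (nat_lit 20) (.e (nat_lit 761867) (nat_lit 5) .nil))))))) (.g (nat_lit 5) .nil .nil))))) (.nd (nat_lit 4) (.nd (nat_lit 5) 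
(.lf (nat_lit 58063) (.g (nat_lit 3583) (.e (nat_lit 1454) (nat_lit 108) (.e (nat_lit 336099) (nat_lit 9) (.e (nat_lit 336412) (nat_lit 27) (.e (nat_lit 426343) (nat_lit 14) (.e (nat_lit 491558) (nat_lit 10) (.e (nat_lit 344174) (nat_lit 42) (.e (nat_lit 761867) (nat_lit 5) .nil))))))) (.g (nat_lit 0) .nil .nil))) 
(.lf (nat_lit 58095) (.g (nat_lit 2238) (.e (nat_lit 1454) (nat_lit 108) (.e (nat_lit 336173) (nat_lit 10) (.e (nat_lit 344174) (nat_lit 42) (.e (nat_lit 761866) (nat_lit 5) (.e (nat_lit 1454) (nat_lit 108) (.e (nat_lit 336176) (nat_lit 10) (.e (nat_lit 344174) (nat_lit 42) (.e (nat_lit 761867) (nat_lit 5) .nil)))))))) (.g (nat_lit 5) .nil .nil)))) (.nd (nat_lit 5) 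
(.lf (nat_lit 58079) (.g (nat_lit 2513) (.e (nat_lit 1454) (nat_lit 108) (.e (nat_lit 336111) (nat_lit 9) (.e (nat_lit 336412) (nat_lit 27) (.e (nat_lit 426343) (nat_lit 14) (.e (nat_lit 491558) (nat_lit 10) (.e (nat_lit 344174) (nat_lit 42) (.e (nat_lit 761867) (nat_lit 5) .nil))))))) (.g (nat_lit 6) .nil .nil))) 
(.lf (nat_lit 58111) (.g (nat_lit 1151) (.e (nat_lit 1454) (nat_lit 108) (.e (nat_lit 336173) (nat_lit 10) (.e (nat_lit 344177) (nat_lit 43) (.e (nat_lit 770055) (nat_lit 5) .nil)))) .nil))))))))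

noncomputable def tv800 : DT := (.nd (nat_lit 0) (.nd (nat_lit 1) (.nd (nat_lit 2) (.nd (nat_lit 3) (.nd (nat_lit 4) (.nd (nat_lit 5) 
(.lf (nat_lit 58112) (.g (nat_lit 1932) (.e (nat_lit 1454) (nat_lit 108) (.e (nat_lit 336173) (nat_lit 10) (.e (nat_lit 344177) (nat_lit 43) (.e (nat_lit 770055) (nat_lit 5) (.e (nat_lit 1589) (nat_lit 111) (.e (nat_lit 360488) (nat_lit 20) (.e (nat_lit 761866) (nat_lit 5) .nil))))))) (.g (nat_lit 4) .nil .nil))) 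
(.lf (nat_lit 58144) (.g (nat_lit 3252) (.e (nat_lit 1454) (nat_lit 108) (.e (nat_lit 336173) (nat_lit 10) (.e (nat_lit 344177) (nat_lit 43) (.e (nat_lit 770072) (nat_lit 8) (.e (nat_lit 65610) (nat_lit 10) (.e (nat_lit 344174) (nat_lit 42) (.e (nat_lit 761866) (nat_lit 5) .nil))))))) (.g (nat_lit 6) .nil .nil)))) (.nd (nat_lit 5) 
(.lf (nat_lit 58128) (.g (nat_lit 2019) (.e (nat_lit 1454) (nat_lit 108) (.e (nat_lit 336173) (nat_lit 10) (.e (nat_lit 344177) (nat_lit 43) (.e (nat_lit 770058) (nat_lit 5) (.e (nat_lit 1598) (nat_lit 111) (.e (nat_lit 360488) (nat_lit 20) (.e (nat_lit 761867) (nat_lit 5) .nil))))))) (.g (nat_lit 4) .nil .nil))) 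
(.lf (nat_lit 58160) (.g (nat_lit 2405) (.e (nat_lit 1454) (nat_lit 108) (.e (nat_lit 336176) (nat_lit 10) (.e (nat_lit 344091) (nat_lit 18) (.e (nat_lit 7261) (nat_lit 384) (.e (nat_lit 57412) (nat_lit 12) (.e (nat_lit 336173) (nat_lit 10) (.e (nat_lit 344174) (nat_lit 42) (.e (nat_lit 761867) (nat_lit 5) .nil)))))))) (.g (nat_lit 5) .nil .nil))))) (.nd (nat_lit 4) (.nd (nat_lit 5) 
(.lf (nat_lit 58120) (.g (nat_lit 1994) (.e (nat_lit 1454) (nat_lit 108) (.e (nat_lit 336173) (nat_lit 10) (.e (nat_lit 344177) (nat_lit 43) (.e (nat_lit 770057) (nat_lit 5) (.e (nat_lit 1598) (nat_lit 111) (.e (nat_lit 360488) (nat_lit 20) (.e (nat_lit 761866) (nat_lit 5) .nil))))))) (.g (nat_lit 4) .nil .nil))) 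
(.lf (nat_lit 58152) (.g (nat_lit 3531) (.e (nat_lit 1454) (nat_lit 108) (.e (nat_lit 336173) (nat_lit 10) (.e (nat_lit 344177) (nat_lit 43) (.e (nat_lit 770072) (nat_lit 8) (.e (nat_lit 65619) (nat_lit 10) (.e (nat_lit 344174) (nat_lit 42) (.e (nat_lit 761866) (nat_lit 5) .nil))))))) (.g (nat_lit 6) .nil .nil)))) (.nd (nat_lit 5) 
(.lf (nat_lit 58136) (.g (nat_lit 2331) (.e (nat_lit 1454) (nat_lit 108) (.e (nat_lit 336173) (nat_lit 10) (.e (nat_lit 344177) (nat_lit 43) (.e (nat_lit 770071) (nat_lit 8) (.e (nat_lit 65616) (nat_lit 10) (.e (nat_lit 344174) (nat_lit 42) (.e (nat_lit 761867) (nat_lit 5) .nil))))))) (.g (nat_lit 4) .nil .nil))) 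
(.lf (nat_lit 58168) (.g (nat_lit 1696) (.e (nat_lit 1454) (nat_lit 108) (.e (nat_lit 336176) (nat_lit 10) (.e (nat_lit 344091) (nat_lit 18) (.e (nat_lit 7263) (nat_lit 384) (.e (nat_lit 57426) (nat_lit 15) (.e (nat_lit 360488) (nat_lit 20) (.e (nat_lit 761867) (nat_lit 5) .nil))))))) (.g (nat_lit 4) .nil .nil)))))) (.nd (nat_lit 3) (.nd (nat_lit 4) (.nd (nat_lit 5) 
(.lf (nat_lit 58116) (.g (nat_lit 2281) (.e (nat_lit 1454) (nat_lit 108) (.e (nat_lit 336173) (nat_lit 10) (.e (nat_lit 344177) (nat_lit 43) (.e (nat_lit 770057) (nat_lit 5) (.e (nat_lit 1589) (nat_lit 111) (.e (nat_lit 360488) (nat_lit 20) (.e (nat_lit 761866) (nat_lit 5) .nil))))))) (.g (nat_lit 5) .nil .nil))) 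
(.lf (nat_lit 58148) (.g (nat_lit 2582) (.e (nat_lit 1454) (nat_lit 108) (.e (nat_lit 336173) (nat_lit 10) (.e (nat_lit 344177) (nat_lit 43) (.e (nat_lit 770072) (nat_lit 8) (.e (nat_lit 65616) (nat_lit 10) (.e (nat_lit 344174) (nat_lit 42) (.e (nat_lit 761866) (nat_lit 5) .nil))))))) (.g (nat_lit 4) .nil .nil)))) (.nd (nat_lit 5) 
(.lf (nat_lit 58132) (.g (nat_lit 2801) (.e (nat_lit 1454) (nat_lit 108) (.e (nat_lit 336173) (nat_lit 10) (.e (nat_lit 344177) (nat_lit 43) (.e (nat_lit 770071) (nat_lit 8) (.e (nat_lit 65610) (nat_lit 10) (.e (nat_lit 344174) (nat_lit 42) (.e (nat_lit 761867) (nat_lit 5) .nil))))))) (.g (nat_lit 5) .nil .nil))) 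
(.lf (nat_lit 58164) (.g (nat_lit 1812) (.e (nat_lit 1454) (nat_lit 108) (.e (nat_lit 336176) (nat_lit 10) (.e (nat_lit 344091) (nat_lit 18) (.e (nat_lit 7261) (nat_lit 384) (.e (nat_lit 57426) (nat_lit 15) (.e (nat_lit 360488) (nat_lit 20) (.e (nat_lit 761867) (nat_lit 5) .nil))))))) (.g (nat_lit 4) .nil .nil))))) (.nd (nat_lit 4) (.nd (nat_lit 5) 
(.lf (nat_lit 58124) (.g (nat_lit 2492) (.e (nat_lit 1454) (nat_lit 108) (.e (nat_lit 336173) (nat_lit 10) (.e (nat_lit 344177) (nat_lit 43) (.e (nat_lit 770058) (nat_lit 5) (.e (nat_lit 1589) (nat_lit 111) (.e (nat_lit 360488) (nat_lit 20) (.e (nat_lit 761867) (nat_lit 5) .nil))))))) (.g (nat_lit 5) .nil .nil))) 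
(.lf (nat_lit 58156) (.g (nat_lit 2127) (.e (nat_lit 1454) (nat_lit 108) (.e (nat_lit 336173) (nat_lit 10) (.e (nat_lit 344180) (nat_lit 44) (.e (nat_lit 778465) (nat_lit 11) (.e (nat_lit 24639) (nat_lit 10) (.e (nat_lit 344174) (nat_lit 42) (.e (nat_lit 761866) (nat_lit 5) .nil))))))) (.g (nat_lit 4) .nil .nil)))) (.nd (nat_lit 5) 
(.lf (nat_lit 58140) (.g (nat_lit 2807) (.e (nat_lit 1454) (nat_lit 108) (.e (nat_lit 336173) (nat_lit 10) (.e (nat_lit 344177) (nat_lit 43) (.e (nat_lit 770071) (nat_lit 8) (.e (nat_lit 65619) (nat_lit 10) (.e (nat_lit 344174) (nat_lit 42) (.e (nat_lit 761867) (nat_lit 5) .nil))))))) (.g (nat_lit 5) .nil .nil))) 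
(.lf (nat_lit 58172) (.g (nat_lit 2368) (.e (nat_lit 1454) (nat_lit 108) (.e (nat_lit 336176) (nat_lit 10) (.e (nat_lit 344091) (nat_lit 18) (.e (nat_lit 7265) (nat_lit 384) (.e (nat_lit 57426) (nat_lit 15) (.e (nat_lit 360488) (nat_lit 20) (.e (nat_lit 761866) (nat_lit 5) .nil))))))) (.g (nat_lit 5) .nil .nil))))))) (.nd (nat_lit 2) (.nd (nat_lit 3) (.nd (nat_lit 4) (.nd (nat_lit 5) 
(.lf (nat_lit 58114) (.g (nat_lit 1830) (.e (nat_lit 1454) (nat_lit 108) (.e (nat_lit 336173) (nat_lit 10) (.e (nat_lit 344177) (nat_lit 43) (.e (nat_lit 770055) (nat_lit 5) (.e (nat_lit 1598) (nat_lit 111) (.e (nat_lit 360488) (nat_lit 20) (.e (nat_lit 761866) (nat_lit 5) .nil))))))) (.g (nat_lit 4) .nil .nil))) 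
(.lf (nat_lit 58146) (.g (nat_lit 2883) (.e (nat_lit 1454) (nat_lit 108) (.e (nat_lit 336173) (nat_lit 10) (.e (nat_lit 344177) (nat_lit 43) (.e (nat_lit 770072) (nat_lit 8) (.e (nat_lit 65611) (nat_lit 10) (.e (nat_lit 344174) (nat_lit 42) (.e (nat_lit 761866) (nat_lit 5) .nil))))))) (.g (nat_lit 5) .nil .nil)))) (.nd (nat_lit 5) 
(.lf (nat_lit 58130) (.g (nat_lit 1747) (.e (nat_lit 1454) (nat_lit 108) (.e (nat_lit 336173) (nat_lit 10) (.e (nat_lit 344177) (nat_lit 43) (.e (nat_lit 770071) (nat_lit 8) (.e (nat_lit 65610) (nat_lit 10) (.e (nat_lit 344173) (nat_lit 42) (.e (nat_lit 761867) (nat_lit 5) .nil))))))) (.g (nat_lit 4) .nil .nil))) 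
(.lf (nat_lit 58162) (.g (nat_lit 2414) (.e (nat_lit 1454) (nat_lit 108) (.e (nat_lit 336176) (nat_lit 10) (.e (nat_lit 344091) (nat_lit 18) (.e (nat_lit 7261) (nat_lit 384) (.e (nat_lit 57412) (nat_lit 12) (.e (nat_lit 336176) (nat_lit 10) (.e (nat_lit 344174) (nat_lit 42) (.e (nat_lit 761867) (nat_lit 5) .nil)))))))) (.g (nat_lit 6) .nil .nil))))) (.nd (nat_lit 4) (.nd (nat_lit 5) 
(.lf (nat_lit 58122) (.g (nat_lit 1616) (.e (nat_lit 1454) (nat_lit 108) (.e (nat_lit 336173) (nat_lit 10) (.e (nat_lit 344177) (nat_lit 43) (.e (nat_lit 770057) (nat_lit 5) (.e (nat_lit 1599) (nat_lit 111) .nil))))) .nil)) 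
(.lf (nat_lit 58154) (.g (nat_lit 3012) (.e (nat_lit 1454) (nat_lit 108) (.e (nat_lit 336173) (nat_lit 10) (.e (nat_lit 344177) (nat_lit 43) (.e (nat_lit 770072) (nat_lit 8) (.e (nat_lit 65620) (nat_lit 10) (.e (nat_lit 344174) (nat_lit 42) (.e (nat_lit 761866) (nat_lit 5) .nil))))))) (.g (nat_lit 6) .nil .nil)))) (.nd (nat_lit 5) 
(.lf (nat_lit 58138) (.g (nat_lit 2904) (.e (nat_lit 1454) (nat_lit 108) (.e (nat_lit 336173) (nat_lit 10) (.e (nat_lit 344177) (nat_lit 43) (.e (nat_lit 770071) (nat_lit 8) (.e (nat_lit 65617) (nat_lit 10) (.e (nat_lit 344174) (nat_lit 42) (.e (nat_lit 761867) (nat_lit 5) .nil))))))) (.g (nat_lit 5) .nil .nil))) 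
(.lf (nat_lit 58170) (.g (nat_lit 2693) (.e (nat_lit 1454) (nat_lit 108) (.e (nat_lit 336176) (nat_lit 10) (.e (nat_lit 344091) (nat_lit 18) (.e (nat_lit 7265) (nat_lit 384) (.e (nat_lit 57412) (nat_lit 12) (.e (nat_lit 336176) (nat_lit 10) (.e (nat_lit 344174) (nat_lit 42) (.e (nat_lit 761866) (nat_lit 5) .nil)))))))) (.g (nat_lit 6) .nil .nil)))))) 
(.nd (nat_lit 3) (.nd (nat_lit 4) (.nd (nat_lit 5) 
(.lf (nat_lit 58118) (.g (nat_lit 2222) (.e (nat_lit 1454) (nat_lit 108) (.e (nat_lit 336173) (nat_lit 10) (.e (nat_lit 344177) (nat_lit 43) (.e (nat_lit 770057) (nat_lit 5) (.e (nat_lit 1595) (nat_lit 111) (.e (nat_lit 360488) (nat_lit 20) (.e (nat_lit 761866) (nat_lit 5) .nil))))))) (.g (nat_lit 4) .nil .nil))) 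
(.lf (nat_lit 58150) (.g (nat_lit 3093) (.e (nat_lit 1454) (nat_lit 108) (.e (nat_lit 336173) (nat_lit 10) (.e (nat_lit 344177) (nat_lit 43) (.e (nat_lit 770072) (nat_lit 8) (.e (nat_lit 65617) (nat_lit 10) (.e (nat_lit 344174) (nat_lit 42) (.e (nat_lit 761866) (nat_lit 5) .nil))))))) (.g (nat_lit 5) .nil .nil)))) (.nd (nat_lit 5) 
(.lf (nat_lit 58134) (.g (nat_lit 2306) (.e (nat_lit 1454) (nat_lit 108) (.e (nat_lit 336173) (nat_lit 10) (.e (nat_lit 344177) (nat_lit 43) (.e (nat_lit 770071) (nat_lit 8) (.e (nat_lit 65611) (nat_lit 10) (.e (nat_lit 344174) (nat_lit 42) (.e (nat_lit 761867) (nat_lit 5) .nil))))))) (.g (nat_lit 4) .nil .nil))) 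
(.lf (nat_lit 58166) (.g (nat_lit 2350) (.e (nat_lit 1454) (nat_lit 108) (.e (nat_lit 336176) (nat_lit 10) (.e (nat_lit 344091) (nat_lit 18) (.e (nat_lit 7263) (nat_lit 384) (.e (nat_lit 57412) (nat_lit 12) (.e (nat_lit 336176) (nat_lit 10) (.e (nat_lit 344174) (nat_lit 42) (.e (nat_lit 761867) (nat_lit 5) .nil)))))))) (.g (nat_lit 5) .nil .nil))))) (.nd (nat_lit 4) (.nd (nat_lit 5) 
(.lf (nat_lit 58126) (.g (nat_lit 2224) (.e (nat_lit 1454) (nat_lit 108) (.e (nat_lit 336173) (nat_lit 10) (.e (nat_lit 344177) (nat_lit 43) (.e (nat_lit 770058) (nat_lit 5) (.e (nat_lit 1595) (nat_lit 111) (.e (nat_lit 360488) (nat_lit 20) (.e (nat_lit 761867) (nat_lit 5) .nil))))))) (.g (nat_lit 4) .nil .nil))) 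
(.lf (nat_lit 58158) (.g (nat_lit 2781) (.e (nat_lit 1454) (nat_lit 108) (.e (nat_lit 336173) (nat_lit 10) (.e (nat_lit 344180) (nat_lit 44) (.e (nat_lit 778465) (nat_lit 11) (.e (nat_lit 24640) (nat_lit 10) (.e (nat_lit 344174) (nat_lit 42) (.e (nat_lit 761867) (nat_lit 5) .nil))))))) (.g (nat_lit 5) .nil .nil)))) (.nd (nat_lit 5) 
(.lf (nat_lit 58142) (.g (nat_lit 2596) (.e (nat_lit 1454) (nat_lit 108) (.e (nat_lit 336173) (nat_lit 10) (.e (nat_lit 344177) (nat_lit 43) (.e (nat_lit 770071) (nat_lit 8) (.e (nat_lit 65620) (nat_lit 10) (.e (nat_lit 344174) (nat_lit 42) (.e (nat_lit 761867) (nat_lit 5) .nil))))))) (.g (nat_lit 5) .nil .nil))) 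
(.lf (nat_lit 58174) (.g (nat_lit 1954) (.e (nat_lit 1454) (nat_lit 108) (.e (nat_lit 336176) (nat_lit 10) (.e (nat_lit 344091) (nat_lit 18) (.e (nat_lit 7266) (nat_lit 384) (.e (nat_lit 57426) (nat_lit 15) (.e (nat_lit 360488) (nat_lit 20) (.e (nat_lit 761866) (nat_lit 5) .nil))))))) (.g (nat_lit 4) .nil .nil)))))))) 
(.nd (nat_lit 1) (.nd (nat_lit 2) (.nd (nat_lit 3) (.nd (nat_lit 4) (.nd (nat_lit 5) 
(.lf (nat_lit 58113) (.g (nat_lit 1916) (.e (nat_lit 1454) (nat_lit 108) (.e (nat_lit 336173) (nat_lit 10) (.e (nat_lit 344177) (nat_lit 43) (.e (nat_lit 770055) (nat_lit 5) (.e (nat_lit 1589) (nat_lit 111) (.e (nat_lit 360488) (nat_lit 20) (.e (nat_lit 761867) (nat_lit 5) .nil))))))) (.g (nat_lit 4) .nil .nil))) 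
(.lf (nat_lit 58145) (.g (nat_lit 3140) (.e (nat_lit 1454) (nat_lit 108) (.e (nat_lit 336173) (nat_lit 10) (.e (nat_lit 344177) (nat_lit 43) (.e (nat_lit 770072) (nat_lit 8) (.e (nat_lit 65610) (nat_lit 10) (.e (nat_lit 344174) (nat_lit 42) (.e (nat_lit 761867) (nat_lit 5) .nil))))))) (.g (nat_lit 6) .nil .nil)))) (.nd (nat_lit 5) 
(.lf (nat_lit 58129) (.g (nat_lit 1807) (.e (nat_lit 1454) (nat_lit 108) (.e (nat_lit 336173) (nat_lit 10) (.e (nat_lit 344177) (nat_lit 43) (.e (nat_lit 770071) (nat_lit 8) (.e (nat_lit 65610) (nat_lit 10) (.e (nat_lit 344173) (nat_lit 42) (.e (nat_lit 761866) (nat_lit 5) .nil))))))) (.g (nat_lit 4) .nil .nil))) 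
(.lf (nat_lit 58161) (.g (nat_lit 2609) (.e (nat_lit 1454) (nat_lit 108) (.e (nat_lit 336176) (nat_lit 10) (.e (nat_lit 344091) (nat_lit 18) (.e (nat_lit 7261) (nat_lit 384) (.e (nat_lit 57412) (nat_lit 12) (.e (nat_lit 336176) (nat_lit 10) (.e (nat_lit 344174) (nat_lit 42) (.e (nat_lit 761866) (nat_lit 5) .nil)))))))) (.g (nat_lit 6) .nil .nil))))) (.nd (nat_lit 4) (.nd (nat_lit 5) 
(.lf (nat_lit 58121) (.g (nat_lit 1974) (.e (nat_lit 1454) (nat_lit 108) (.e (nat_lit 336173) (nat_lit 10) (.e (nat_lit 344177) (nat_lit 43) (.e (nat_lit 770057) (nat_lit 5) (.e (nat_lit 1598) (nat_lit 111) (.e (nat_lit 360488) (nat_lit 20) (.e (nat_lit 761867) (nat_lit 5) .nil))))))) (.g (nat_lit 4) .nil .nil))) 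
(.lf (nat_lit 58153) (.g (nat_lit 3475) (.e (nat_lit 1454) (nat_lit 108) (.e (nat_lit 336173) (nat_lit 10) (.e (nat_lit 344177) (nat_lit 43) (.e (nat_lit 770072) (nat_lit 8) (.e (nat_lit 65619) (nat_lit 10) (.e (nat_lit 344174) (nat_lit 42) (.e (nat_lit 761867) (nat_lit 5) .nil))))))) (.g (nat_lit 6) .nil .nil)))) (.nd (nat_lit 5) 
(.lf (nat_lit 58137) (.g (nat_lit 3002) (.e (nat_lit 1454) (nat_lit 108) (.e (nat_lit 336173) (nat_lit 10) (.e (nat_lit 344177) (nat_lit 43) (.e (nat_lit 770071) (nat_lit 8) (.e (nat_lit 65617) (nat_lit 10) (.e (nat_lit 344174) (nat_lit 42) (.e (nat_lit 761866) (nat_lit 5) .nil))))))) (.g (nat_lit 6) .nil .nil))) 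
(.lf (nat_lit 58169) (.g (nat_lit 2728) (.e (nat_lit 1454) (nat_lit 108) (.e (nat_lit 336176) (nat_lit 10) (.e (nat_lit 344091) (nat_lit 18) (.e (nat_lit 7265) (nat_lit 384) (.e (nat_lit 57412) (nat_lit 12) (.e (nat_lit 336173) (nat_lit 10) (.e (nat_lit 344174) (nat_lit 42) (.e (nat_lit 761866) (nat_lit 5) .nil)))))))) (.g (nat_lit 6) .nil .nil)))))) 
(.nd (nat_lit 3) (.nd (nat_lit 4) (.nd (nat_lit 5) 
(.lf (nat_lit 58117) (.g (nat_lit 2263) (.e (nat_lit 1454) (nat_lit 108) (.e (nat_lit 336173) (nat_lit 10) (.e (nat_lit 344177) (nat_lit 43) (.e (nat_lit 770057) (nat_lit 5) (.e (nat_lit 1589) (nat_lit 111) (.e (nat_lit 360488) (nat_lit 20) (.e (nat_lit 761867) (nat_lit 5) .nil))))))) (.g (nat_lit 4) .nil .nil))) 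
(.lf (nat_lit 58149) (.g (nat_lit 2522) (.e (nat_lit 1454) (nat_lit 108) (.e (nat_lit 336173) (nat_lit 10) (.e (nat_lit 344177) (nat_lit 43) (.e (nat_lit 770072) (nat_lit 8) (.e (nat_lit 65616) (nat_lit 10) (.e (nat_lit 344174) (nat_lit 42) (.e (nat_lit 761867) (nat_lit 5) .nil))))))) (.g (nat_lit 4) .nil .nil)))) (.nd (nat_lit 5) 
(.lf (nat_lit 58133) (.g (nat_lit 2416) (.e (nat_lit 1454) (nat_lit 108) (.e (nat_lit 336173) (nat_lit 10) (.e (nat_lit 344177) (nat_lit 43) (.e (nat_lit 770071) (nat_lit 8) (.e (nat_lit 65611) (nat_lit 10) (.e (nat_lit 344174) (nat_lit 42) (.e (nat_lit 761866) (nat_lit 5) .nil))))))) (.g (nat_lit 5) .nil .nil))) 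
(.lf (nat_lit 58165) (.g (nat_lit 2318) (.e (nat_lit 1454) (nat_lit 108) (.e (nat_lit 336176) (nat_lit 10) (.e (nat_lit 344091) (nat_lit 18) (.e (nat_lit 7263) (nat_lit 384) (.e (nat_lit 57412) (nat_lit 12) (.e (nat_lit 336173) (nat_lit 10) (.e (nat_lit 344174) (nat_lit 42) (.e (nat_lit 761867) (nat_lit 5) .nil)))))))) (.g (nat_lit 5) .nil .nil))))) (.nd (nat_lit 4) (.nd (nat_lit 5) 
(.lf (nat_lit 58125) (.g (nat_lit 2248) (.e (nat_lit 1454) (nat_lit 108) (.e (nat_lit 336173) (nat_lit 10) (.e (nat_lit 344177) (nat_lit 43) (.e (nat_lit 770058) (nat_lit 5) (.e (nat_lit 1595) (nat_lit 111) (.e (nat_lit 360488) (nat_lit 20) (.e (nat_lit 761866) (nat_lit 5) .nil))))))) (.g (nat_lit 4) .nil .nil))) 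
(.lf (nat_lit 58157) (.g (nat_lit 2859) (.e (nat_lit 1454) (nat_lit 108) (.e (nat_lit 336173) (nat_lit 10) (.e (nat_lit 344180) (nat_lit 44) (.e (nat_lit 778465) (nat_lit 11) (.e (nat_lit 24640) (nat_lit 10) (.e (nat_lit 344174) (nat_lit 42) (.e (nat_lit 761866) (nat_lit 5) .nil))))))) (.g (nat_lit 5) .nil .nil)))) (.nd (nat_lit 5) 
(.lf (nat_lit 58141) (.g (nat_lit 2734) (.e (nat_lit 1454) (nat_lit 108) (.e (nat_lit 336173) (nat_lit 10) (.e (nat_lit 344177) (nat_lit 43) (.e (nat_lit 770071) (nat_lit 8) (.e (nat_lit 65620) (nat_lit 10) (.e (nat_lit 344174) (nat_lit 42) (.e (nat_lit 761866) (nat_lit 5) .nil))))))) (.g (nat_lit 6) .nil .nil))) 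
(.lf (nat_lit 58173) (.g (nat_lit 2250) (.e (nat_lit 1454) (nat_lit 108) (.e (nat_lit 336176) (nat_lit 10) (.e (nat_lit 344091) (nat_lit 18) (.e (nat_lit 7265) (nat_lit 384) (.e (nat_lit 57426) (nat_lit 15) (.e (nat_lit 360488) (nat_lit 20) (.e (nat_lit 761867) (nat_lit 5) .nil))))))) (.g (nat_lit 5) .nil .nil))))))) (.nd (nat_lit 2) (.nd (nat_lit 3) (.nd (nat_lit 4) (.nd (nat_lit 5) 
(.lf (nat_lit 58115) (.g (nat_lit 1883) (.e (nat_lit 1454) (nat_lit 108) (.e (nat_lit 336173) (nat_lit 10) (.e (nat_lit 344177) (nat_lit 43) (.e (nat_lit 770056) (nat_lit 5) (.e (nat_lit 1598) (nat_lit 111) (.e (nat_lit 360488) (nat_lit 20) (.e (nat_lit 761866) (nat_lit 5) .nil))))))) (.g (nat_lit 4) .nil .nil))) 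
(.lf (nat_lit 58147) (.g (nat_lit 2785) (.e (nat_lit 1454) (nat_lit 108) (.e (nat_lit 336173) (nat_lit 10) (.e (nat_lit 344177) (nat_lit 43) (.e (nat_lit 770072) (nat_lit 8) (.e (nat_lit 65611) (nat_lit 10) (.e (nat_lit 344174) (nat_lit 42) (.e (nat_lit 761867) (nat_lit 5) .nil))))))) (.g (nat_lit 5) .nil .nil)))) (.nd (nat_lit 5) 
(.lf (nat_lit 58131) (.g (nat_lit 2905) (.e (nat_lit 1454) (nat_lit 108) (.e (nat_lit 336173) (nat_lit 10) (.e (nat_lit 344177) (nat_lit 43) (.e (nat_lit 770071) (nat_lit 8) (.e (nat_lit 65610) (nat_lit 10) (.e (nat_lit 344174) (nat_lit 42) (.e (nat_lit 761866) (nat_lit 5) .nil))))))) (.g (nat_lit 6) .nil .nil))) 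
(.lf (nat_lit 58163) (.g (nat_lit 1928) (.e (nat_lit 1454) (nat_lit 108) (.e (nat_lit 336176) (nat_lit 10) (.e (nat_lit 344091) (nat_lit 18) (.e (nat_lit 7261) (nat_lit 384) (.e (nat_lit 57426) (nat_lit 15) (.e (nat_lit 360488) (nat_lit 20) (.e (nat_lit 761866) (nat_lit 5) .nil))))))) (.g (nat_lit 5) .nil .nil))))) (.nd (nat_lit 4) (.nd (nat_lit 5) 
(.lf (nat_lit 58123) (.g (nat_lit 2498) (.e (nat_lit 1454) (nat_lit 108) (.e (nat_lit 336173) (nat_lit 10) (.e (nat_lit 344177) (nat_lit 43) (.e (nat_lit 770058) (nat_lit 5) (.e (nat_lit 1589) (nat_lit 111) (.e (nat_lit 360488) (nat_lit 20) (.e (nat_lit 761866) (nat_lit 5) .nil))))))) (.g (nat_lit 5) .nil .nil))) 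
(.lf (nat_lit 58155) (.g (nat_lit 2892) (.e (nat_lit 1454) (nat_lit 108) (.e (nat_lit 336173) (nat_lit 10) (.e (nat_lit 344177) (nat_lit 43) (.e (nat_lit 770072) (nat_lit 8) (.e (nat_lit 65620) (nat_lit 10) (.e (nat_lit 344174) (nat_lit 42) (.e (nat_lit 761867) (nat_lit 5) .nil))))))) (.g (nat_lit 5) .nil .nil)))) (.nd (nat_lit 5) 
(.lf (nat_lit 58139) (.g (nat_lit 2882) (.e (nat_lit 1454) (nat_lit 108) (.e (nat_lit 336173) (nat_lit 10) (.e (nat_lit 344177) (nat_lit 43) (.e (nat_lit 770071) (nat_lit 8) (.e (nat_lit 65619) (nat_lit 10) (.e (nat_lit 344174) (nat_lit 42) (.e (nat_lit 761866) (nat_lit 5) .nil))))))) (.g (nat_lit 5) .nil .nil))) 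
(.lf (nat_lit 58171) (.g (nat_lit 2498) (.e (nat_lit 1454) (nat_lit 108) (.e (nat_lit 336176) (nat_lit 10) (.e (nat_lit 344091) (nat_lit 18) (.e (nat_lit 7265) (nat_lit 384) (.e (nat_lit 57412) (nat_lit 12) (.e (nat_lit 336176) (nat_lit 10) (.e (nat_lit 344174) (nat_lit 42) (.e (nat_lit 761867) (nat_lit 5) .nil)))))))) (.g (nat_lit 6) .nil .nil)))))) 
(.nd (nat_lit 3) (.nd (nat_lit 4) (.nd (nat_lit 5) 
(.lf (nat_lit 58119) (.g (nat_lit 2190) (.e (nat_lit 1454) (nat_lit 108) (.e (nat_lit 336173) (nat_lit 10) (.e (nat_lit 344177) (nat_lit 43) (.e (nat_lit 770057) (nat_lit 5) (.e (nat_lit 1595) (nat_lit 111) (.e (nat_lit 360488) (nat_lit 20) (.e (nat_lit 761867) (nat_lit 5) .nil))))))) (.g (nat_lit 4) .nil .nil))) 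
(.lf (nat_lit 58151) (.g (nat_lit 3023) (.e (nat_lit 1454) (nat_lit 108) (.e (nat_lit 336173) (nat_lit 10) (.e (nat_lit 344177) (nat_lit 43) (.e (nat_lit 770072) (nat_lit 8) (.e (nat_lit 65617) (nat_lit 10) (.e (nat_lit 344174) (nat_lit 42) (.e (nat_lit 761867) (nat_lit 5) .nil))))))) (.g (nat_lit 5) .nil .nil)))) (.nd (nat_lit 5) 
(.lf (nat_lit 58135) (.g (nat_lit 2399) (.e (nat_lit 1454) (nat_lit 108) (.e (nat_lit 336173) (nat_lit 10) (.e (nat_lit 344177) (nat_lit 43) (.e (nat_lit 770071) (nat_lit 8) (.e (nat_lit 65616) (nat_lit 10) (.e (nat_lit 344174) (nat_lit 42) (.e (nat_lit 761866) (nat_lit 5) .nil))))))) (.g (nat_lit 5) .nil .nil))) 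
(.lf (nat_lit 58167) (.g (nat_lit 1817) (.e (nat_lit 1454) (nat_lit 108) (.e (nat_lit 336176) (nat_lit 10) (.e (nat_lit 344091) (nat_lit 18) (.e (nat_lit 7263) (nat_lit 384) (.e (nat_lit 57426) (nat_lit 15) (.e (nat_lit 360488) (nat_lit 20) (.e (nat_lit 761866) (nat_lit 5) .nil))))))) (.g (nat_lit 4) .nil .nil))))) (.nd (nat_lit 4) (.nd (nat_lit 5) 
(.lf (nat_lit 58127) (.g (nat_lit 2032) (.e (nat_lit 1454) (nat_lit 108) (.e (nat_lit 336173) (nat_lit 10) (.e (nat_lit 344177) (nat_lit 43) (.e (nat_lit 770058) (nat_lit 5) (.e (nat_lit 1598) (nat_lit 111) (.e (nat_lit 360488) (nat_lit 20) (.e (nat_lit 761866) (nat_lit 5) .nil))))))) (.g (nat_lit 4) .nil .nil))) 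
(.lf (nat_lit 58159) (.g (nat_lit 2625) (.e (nat_lit 1454) (nat_lit 108) (.e (nat_lit 336176) (nat_lit 10) (.e (nat_lit 344091) (nat_lit 18) (.e (nat_lit 7261) (nat_lit 384) (.e (nat_lit 57412) (nat_lit 12) (.e (nat_lit 336173) (nat_lit 10) (.e (nat_lit 344174) (nat_lit 42) (.e (nat_lit 761866) (nat_lit 5) .nil)))))))) (.g (nat_lit 6) .nil .nil)))) (.nd (nat_lit 5) 
(.lf (nat_lit 58143) (.g (nat_lit 2505) (.e (nat_lit 1454) (nat_lit 108) (.e (nat_lit 336173) (nat_lit 10) (.e (nat_lit 344177) (nat_lit 43) (.e (nat_lit 770072) (nat_lit 8) (.e (nat_lit 65610) (nat_lit 10) (.e (nat_lit 344173) (nat_lit 42) (.e (nat_lit 761867) (nat_lit 5) .nil))))))) (.g (nat_lit 4) .nil .nil))) 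
(.lf (nat_lit 58175) (.g (nat_lit 1837) (.e (nat_lit 1454) (nat_lit 108) (.e (nat_lit 336176) (nat_lit 10) (.e (nat_lit 344091) (nat_lit 18) (.e (nat_lit 7266) (nat_lit 384) (.e (nat_lit 57426) (nat_lit 15) (.e (nat_lit 360488) (nat_lit 20) (.e (nat_lit 761867) (nat_lit 5) .nil))))))) (.g (nat_lit 4) .nil .nil)))))))))

noncomputable def tv801 : DT := (.nd (nat_lit 0) (.nd (nat_lit 1) (.nd (nat_lit 2) (.nd (nat_lit 3) (.nd (nat_lit 4) (.nd (nat_lit 5) 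
(.lf (nat_lit 58176) (.g (nat_lit 1831) (.e (nat_lit 1454) (nat_lit 108) (.e (nat_lit 336176) (nat_lit 10) (.e (nat_lit 344091) (nat_lit 18) (.e (nat_lit 7266) (nat_lit 384) (.e (nat_lit 57427) (nat_lit 15) (.e (nat_lit 360488) (nat_lit 20) (.e (nat_lit 761866) (nat_lit 5) .nil))))))) (.g (nat_lit 4) .nil .nil))) 
(.lf (nat_lit 58208) (.g (nat_lit 1644) (.e (nat_lit 1454) (nat_lit 108) (.e (nat_lit 336176) (nat_lit 10) (.e (nat_lit 344174) (nat_lit 42) (.e (nat_lit 761866) (nat_lit 5) (.e (nat_lit 1454) (nat_lit 108) (.e (nat_lit 336176) (nat_lit 10) (.e (nat_lit 344174) (nat_lit 42) (.e (nat_lit 761867) (nat_lit 5) .nil)))))))) (.g (nat_lit 4) .nil .nil)))) (.nd (nat_lit 5) 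
(.lf (nat_lit 58192) (.g (nat_lit 2179) (.e (nat_lit 1454) (nat_lit 108) (.e (nat_lit 336176) (nat_lit 10) (.e (nat_lit 344096) (nat_lit 18) (.e (nat_lit 7263) (nat_lit 384) (.e (nat_lit 57412) (nat_lit 12) (.e (nat_lit 336173) (nat_lit 10) (.e (nat_lit 344174) (nat_lit 42) (.e (nat_lit 761867) (nat_lit 5) .nil)))))))) (.g (nat_lit 5) .nil .nil))) 
(.lf (nat_lit 58224) (.g (nat_lit 2243) (.e (nat_lit 1454) (nat_lit 108) (.e (nat_lit 336176) (nat_lit 10) (.e (nat_lit 344177) (nat_lit 43) (.e (nat_lit 770071) (nat_lit 8) (.e (nat_lit 65619) (nat_lit 10) (.e (nat_lit 344174) (nat_lit 42) (.e (nat_lit 761866) (nat_lit 5) .nil))))))) (.g (nat_lit 4) .nil .nil))))) (.nd (nat_lit 4) (.nd (nat_lit 5) 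
(.lf (nat_lit 58184) (.g (nat_lit 2713) (.e (nat_lit 1454) (nat_lit 108) (.e (nat_lit 336176) (nat_lit 10) (.e (nat_lit 344096) (nat_lit 18) (.e (nat_lit 7122) (nat_lit 382) (.e (nat_lit 1201) (nat_lit 88) (.e (nat_lit 65617) (nat_lit 10) (.e (nat_lit 344174) (nat_lit 42) (.e (nat_lit 761867) (nat_lit 5) .nil)))))))) (.g (nat_lit 5) .nil .nil))) 
(.lf (nat_lit 58216) (.g (nat_lit 1712) (.e (nat_lit 1454) (nat_lit 108) (.e (nat_lit 336176) (nat_lit 10) (.e (nat_lit 344177) (nat_lit 43) (.e (nat_lit 770057) (nat_lit 5) (.e (nat_lit 1589) (nat_lit 111) (.e (nat_lit 360488) (nat_lit 20) (.e (nat_lit 761867) (nat_lit 5) .nil))))))) (.g (nat_lit 4) .nil .nil)))) (.nd (nat_lit 5) 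
(.lf (nat_lit 58200) (.g (nat_lit 2394) (.e (nat_lit 1454) (nat_lit 108) (.e (nat_lit 336176) (nat_lit 10) (.e (nat_lit 344096) (nat_lit 18) (.e (nat_lit 7265) (nat_lit 384) (.e (nat_lit 57426) (nat_lit 15) (.e (nat_lit 360488) (nat_lit 20) (.e (nat_lit 761866) (nat_lit 5) .nil))))))) (.g (nat_lit 5) .nil .nil))) 
(.lf (nat_lit 58232) (.g (nat_lit 2018) (.e (nat_lit 1454) (nat_lit 108) (.e (nat_lit 336176) (nat_lit 10) (.e (nat_lit 344177) (nat_lit 43) (.e (nat_lit 770072) (nat_lit 8) (.e (nat_lit 65616) (nat_lit 10) .nil))))) .nil))))) (.nd (nat_lit 3) (.nd (nat_lit 4) (.nd (nat_lit 5) 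
(.lf (nat_lit 58180) (.g (nat_lit 1603) (.e (nat_lit 1454) (nat_lit 108) (.e (nat_lit 336176) (nat_lit 10) (.e (nat_lit 344095) (nat_lit 18) (.e (nat_lit 7261) (nat_lit 384) (.e (nat_lit 57426) (nat_lit 15) (.e (nat_lit 360488) (nat_lit 20) (.e (nat_lit 761867) (nat_lit 5) .nil))))))) (.g (nat_lit 5) .nil .nil))) 
(.lf (nat_lit 58212) (.g (nat_lit 1856) (.e (nat_lit 1454) (nat_lit 108) (.e (nat_lit 336176) (nat_lit 10) (.e (nat_lit 344174) (nat_lit 42) (.e (nat_lit 761868) (nat_lit 5) (.e (nat_lit 1597) (nat_lit 111) (.e (nat_lit 360488) (nat_lit 20) (.e (nat_lit 761866) (nat_lit 5) .nil))))))) (.g (nat_lit 5) .nil .nil)))) (.nd (nat_lit 5) 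
(.lf (nat_lit 58196) (.g (nat_lit 1558) (.e (nat_lit 1454) (nat_lit 108) (.e (nat_lit 336176) (nat_lit 10) (.e (nat_lit 344096) (nat_lit 18) (.e (nat_lit 7263) (nat_lit 384) (.e (nat_lit 57426) (nat_lit 15) (.e (nat_lit 360488) (nat_lit 20) (.e (nat_lit 761867) (nat_lit 5) .nil))))))) (.g (nat_lit 4) .nil .nil))) 
(.lf (nat_lit 58228) (.g (nat_lit 2526) (.e (nat_lit 1454) (nat_lit 108) (.e (nat_lit 336176) (nat_lit 10) (.e (nat_lit 344177) (nat_lit 43) (.e (nat_lit 770072) (nat_lit 8) (.e (nat_lit 65610) (nat_lit 10) (.e (nat_lit 344174) (nat_lit 42) (.e (nat_lit 761866) (nat_lit 5) .nil))))))) (.g (nat_lit 5) .nil .nil))))) (.nd (nat_lit 4) (.nd (nat_lit 5) 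
(.lf (nat_lit 58188) (.g (nat_lit 2640) (.e (nat_lit 1454) (nat_lit 108) (.e (nat_lit 336176) (nat_lit 10) (.e (nat_lit 344096) (nat_lit 18) (.e (nat_lit 7261) (nat_lit 384) (.e (nat_lit 57412) (nat_lit 12) (.e (nat_lit 336176) (nat_lit 10) (.e (nat_lit 344174) (nat_lit 42) (.e (nat_lit 761866) (nat_lit 5) .nil)))))))) (.g (nat_lit 6) .nil .nil))) 
(.lf (nat_lit 58220) (.g (nat_lit 2120) (.e (nat_lit 1454) (nat_lit 108) (.e (nat_lit 336176) (nat_lit 10) (.e (nat_lit 344177) (nat_lit 43) (.e (nat_lit 770071) (nat_lit 8) (.e (nat_lit 65610) (nat_lit 10) (.e (nat_lit 344174) (nat_lit 42) (.e (nat_lit 761867) (nat_lit 5) .nil))))))) (.g (nat_lit 4) .nil .nil)))) (.nd (nat_lit 5) 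
(.lf (nat_lit 58204) (.g (nat_lit 1882) (.e (nat_lit 1454) (nat_lit 108) (.e (nat_lit 336176) (nat_lit 10) (.e (nat_lit 344096) (nat_lit 18) (.e (nat_lit 7266) (nat_lit 384) (.e (nat_lit 57427) (nat_lit 15) (.e (nat_lit 360488) (nat_lit 20) (.e (nat_lit 761867) (nat_lit 5) .nil))))))) (.g (nat_lit 4) .nil .nil))) 
(.lf (nat_lit 58236) (.g (nat_lit 2734) (.e (nat_lit 1454) (nat_lit 108) (.e (nat_lit 336176) (nat_lit 10) (.e (nat_lit 344177) (nat_lit 43) (.e (nat_lit 770072) (nat_lit 8) (.e (nat_lit 65619) (nat_lit 10) (.e (nat_lit 344174) (nat_lit 42) (.e (nat_lit 761867) (nat_lit 5) .nil))))))) (.g (nat_lit 5) .nil .nil))))))) (.nd (nat_lit 2) (.nd (nat_lit 3) (.nd (nat_lit 4) (.nd (nat_lit 5) 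
(.lf (nat_lit 58178) (.g (nat_lit 2216) (.e (nat_lit 1454) (nat_lit 108) (.e (nat_lit 336176) (nat_lit 10) (.e (nat_lit 344095) (nat_lit 18) (.e (nat_lit 7261) (nat_lit 384) (.e (nat_lit 57412) (nat_lit 12) (.e (nat_lit 336176) (nat_lit 10) (.e (nat_lit 344174) (nat_lit 42) (.e (nat_lit 761867) (nat_lit 5) .nil)))))))) (.g (nat_lit 6) .nil .nil))) 
(.lf (nat_lit 58210) (.g (nat_lit 1896) (.e (nat_lit 1454) (nat_lit 108) (.e (nat_lit 336176) (nat_lit 10) (.e (nat_lit 344174) (nat_lit 42) (.e (nat_lit 761866) (nat_lit 5) (.e (nat_lit 1597) (nat_lit 111) (.e (nat_lit 360488) (nat_lit 20) (.e (nat_lit 761867) (nat_lit 5) .nil))))))) (.g (nat_lit 5) .nil .nil)))) (.nd (nat_lit 5) 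
(.lf (nat_lit 58194) (.g (nat_lit 2211) (.e (nat_lit 1454) (nat_lit 108) (.e (nat_lit 336176) (nat_lit 10) (.e (nat_lit 344096) (nat_lit 18) (.e (nat_lit 7263) (nat_lit 384) (.e (nat_lit 57412) (nat_lit 12) (.e (nat_lit 336176) (nat_lit 10) (.e (nat_lit 344174) (nat_lit 42) (.e (nat_lit 761867) (nat_lit 5) .nil)))))))) (.g (nat_lit 5) .nil .nil))) 
(.lf (nat_lit 58226) (.g (nat_lit 2144) (.e (nat_lit 1454) (nat_lit 108) (.e (nat_lit 336176) (nat_lit 10) (.e (nat_lit 344177) (nat_lit 43) (.e (nat_lit 770071) (nat_lit 8) (.e (nat_lit 65620) (nat_lit 10) (.e (nat_lit 344174) (nat_lit 42) (.e (nat_lit 761866) (nat_lit 5) .nil))))))) (.g (nat_lit 4) .nil .nil))))) (.nd (nat_lit 4) (.nd (nat_lit 5) 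
(.lf (nat_lit 58186) (.g (nat_lit 1890) (.e (nat_lit 1454) (nat_lit 108) (.e (nat_lit 336176) (nat_lit 10) (.e (nat_lit 344096) (nat_lit 18) (.e (nat_lit 7125) (nat_lit 382) (.e (nat_lit 1224) (nat_lit 90) (.e (nat_lit 81946) (nat_lit 20) (.e (nat_lit 2270) (nat_lit 149) (.e (nat_lit 761867) (nat_lit 5) .nil)))))))) (.g (nat_lit 4) .nil .nil))) 
(.lf (nat_lit 58218) (.g (nat_lit 1970) (.e (nat_lit 1454) (nat_lit 108) (.e (nat_lit 336176) (nat_lit 10) (.e (nat_lit 344177) (nat_lit 43) (.e (nat_lit 770058) (nat_lit 5) (.e (nat_lit 1589) (nat_lit 111) (.e (nat_lit 360488) (nat_lit 20) (.e (nat_lit 761867) (nat_lit 5) .nil))))))) (.g (nat_lit 4) .nil .nil)))) (.nd (nat_lit 5) 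
(.lf (nat_lit 58202) (.g (nat_lit 2028) (.e (nat_lit 1454) (nat_lit 108) (.e (nat_lit 336176) (nat_lit 10) (.e (nat_lit 344096) (nat_lit 18) (.e (nat_lit 7266) (nat_lit 384) (.e (nat_lit 57426) (nat_lit 15) (.e (nat_lit 360488) (nat_lit 20) (.e (nat_lit 761867) (nat_lit 5) .nil))))))) (.g (nat_lit 4) .nil .nil))) 
(.lf (nat_lit 58234) (.g (nat_lit 2255) (.e (nat_lit 1454) (nat_lit 108) (.e (nat_lit 336176) (nat_lit 10) (.e (nat_lit 344177) (nat_lit 43) (.e (nat_lit 770072) (nat_lit 8) (.e (nat_lit 65617) (nat_lit 10) (.e (nat_lit 344174) (nat_lit 42) (.e (nat_lit 761867) (nat_lit 5) .nil))))))) (.g (nat_lit 4) .nil .nil)))))) (.nd (nat_lit 3) (.nd (nat_lit 4) (.nd (nat_lit 5) 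
(.lf (nat_lit 58182) (.g (nat_lit 1203) (.e (nat_lit 1454) (nat_lit 108) (.e (nat_lit 336176) (nat_lit 10) (.e (nat_lit 344095) (nat_lit 18) (.e (nat_lit 7261) (nat_lit 384) (.e (nat_lit 57427) (nat_lit 15) (.e (nat_lit 360488) (nat_lit 20) (.e (nat_lit 761867) (nat_lit 5) .nil))))))) (.g (nat_lit 4) .nil .nil))) 
(.lf (nat_lit 58214) (.g (nat_lit 1723) (.e (nat_lit 1454) (nat_lit 108) (.e (nat_lit 336176) (nat_lit 10) (.e (nat_lit 344174) (nat_lit 42) (.e (nat_lit 761869) (nat_lit 5) (.e (nat_lit 1597) (nat_lit 111) (.e (nat_lit 360488) (nat_lit 20) (.e (nat_lit 761867) (nat_lit 5) .nil))))))) (.g (nat_lit 4) .nil .nil)))) (.nd (nat_lit 5) 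
(.lf (nat_lit 58198) (.g (nat_lit 2720) (.e (nat_lit 1454) (nat_lit 108) (.e (nat_lit 336176) (nat_lit 10) (.e (nat_lit 344096) (nat_lit 18) (.e (nat_lit 7265) (nat_lit 384) (.e (nat_lit 57412) (nat_lit 12) (.e (nat_lit 336176) (nat_lit 10) (.e (nat_lit 344174) (nat_lit 42) (.e (nat_lit 761866) (nat_lit 5) .nil)))))))) (.g (nat_lit 6) .nil .nil))) 
(.lf (nat_lit 58230) (.g (nat_lit 2256) (.e (nat_lit 1454) (nat_lit 108) (.e (nat_lit 336176) (nat_lit 10) (.e (nat_lit 344177) (nat_lit 43) (.e (nat_lit 770072) (nat_lit 8) (.e (nat_lit 65611) (nat_lit 10) (.e (nat_lit 344174) (nat_lit 42) (.e (nat_lit 761866) (nat_lit 5) .nil))))))) (.g (nat_lit 4) .nil .nil))))) (.nd (nat_lit 4) (.nd (nat_lit 5) 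
(.lf (nat_lit 58190) (.g (nat_lit 1965) (.e (nat_lit 1454) (nat_lit 108) (.e (nat_lit 336176) (nat_lit 10) (.e (nat_lit 344096) (nat_lit 18) (.e (nat_lit 7261) (nat_lit 384) (.e (nat_lit 57426) (nat_lit 15) (.e (nat_lit 360488) (nat_lit 20) (.e (nat_lit 761866) (nat_lit 5) .nil))))))) (.g (nat_lit 5) .nil .nil))) 
(.lf (nat_lit 58222) (.g (nat_lit 1830) (.e (nat_lit 1454) (nat_lit 108) (.e (nat_lit 336176) (nat_lit 10) (.e (nat_lit 344177) (nat_lit 43) (.e (nat_lit 770071) (nat_lit 8) (.e (nat_lit 65616) (nat_lit 10) .nil))))) .nil))) (.nd (nat_lit 5) 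
(.lf (nat_lit 58206) (.g (nat_lit 884) (.e (nat_lit 1454) (nat_lit 108) (.e (nat_lit 336176) (nat_lit 10) (.e (nat_lit 344174) (nat_lit 42) (.e (nat_lit 761866) (nat_lit 5) .nil)))) .nil)) 
(.lf (nat_lit 58238) (.g (nat_lit 2176) (.e (nat_lit 1454) (nat_lit 108) (.e (nat_lit 336176) (nat_lit 10) (.e (nat_lit 344177) (nat_lit 43) (.e (nat_lit 770072) (nat_lit 8) (.e (nat_lit 65620) (nat_lit 10) (.e (nat_lit 344174) (nat_lit 42) (.e (nat_lit 761867) (nat_lit 5) .nil))))))) (.g (nat_lit 4) .nil .nil)))))))) 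
(.nd (nat_lit 1) (.nd (nat_lit 2) (.nd (nat_lit 3) (.nd (nat_lit 4) (.nd (nat_lit 5) 
(.lf (nat_lit 58177) (.g (nat_lit 2411) (.e (nat_lit 1454) (nat_lit 108) (.e (nat_lit 336176) (nat_lit 10) (.e (nat_lit 344095) (nat_lit 18) (.e (nat_lit 7261) (nat_lit 384) (.e (nat_lit 57412) (nat_lit 12) (.e (nat_lit 336176) (nat_lit 10) (.e (nat_lit 344174) (nat_lit 42) (.e (nat_lit 761866) (nat_lit 5) .nil)))))))) (.g (nat_lit 6) .nil .nil))) 
(.lf (nat_lit 58209) (.g (nat_lit 2010) (.e (nat_lit 1454) (nat_lit 108) (.e (nat_lit 336176) (nat_lit 10) (.e (nat_lit 344174) (nat_lit 42) (.e (nat_lit 761866) (nat_lit 5) (.e (nat_lit 1597) (nat_lit 111) (.e (nat_lit 360488) (nat_lit 20) (.e (nat_lit 761866) (nat_lit 5) .nil))))))) (.g (nat_lit 5) .nil .nil)))) (.nd (nat_lit 5) 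
(.lf (nat_lit 58193) (.g (nat_lit 2406) (.e (nat_lit 1454) (nat_lit 108) (.e (nat_lit 336176) (nat_lit 10) (.e (nat_lit 344096) (nat_lit 18) (.e (nat_lit 7263) (nat_lit 384) (.e (nat_lit 57412) (nat_lit 12) (.e (nat_lit 336176) (nat_lit 10) (.e (nat_lit 344174) (nat_lit 42) (.e (nat_lit 761866) (nat_lit 5) .nil)))))))) (.g (nat_lit 6) .nil .nil))) 
(.lf (nat_lit 58225) (.g (nat_lit 2079) (.e (nat_lit 1454) (nat_lit 108) (.e (nat_lit 336176) (nat_lit 10) (.e (nat_lit 344177) (nat_lit 43) (.e (nat_lit 770071) (nat_lit 8) (.e (nat_lit 65619) (nat_lit 10) (.e (nat_lit 344174) (nat_lit 42) (.e (nat_lit 761867) (nat_lit 5) .nil))))))) (.g (nat_lit 4) .nil .nil))))) (.nd (nat_lit 4) (.nd (nat_lit 5) 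
(.lf (nat_lit 58185) (.g (nat_lit 1939) (.e (nat_lit 1454) (nat_lit 108) (.e (nat_lit 336176) (nat_lit 10) (.e (nat_lit 344096) (nat_lit 18) (.e (nat_lit 7125) (nat_lit 382) (.e (nat_lit 1201) (nat_lit 88) (.e (nat_lit 65610) (nat_lit 10) (.e (nat_lit 344173) (nat_lit 42) (.e (nat_lit 761866) (nat_lit 5) .nil)))))))) (.g (nat_lit 4) .nil .nil))) 
(.lf (nat_lit 58217) (.g (nat_lit 1709) (.e (nat_lit 1454) (nat_lit 108) (.e (nat_lit 336176) (nat_lit 10) (.e (nat_lit 344177) (nat_lit 43) (.e (nat_lit 770057) (nat_lit 5) (.e (nat_lit 1595) (nat_lit 111) (.e (nat_lit 360488) (nat_lit 20) (.e (nat_lit 761866) (nat_lit 5) .nil))))))) (.g (nat_lit 4) .nil .nil)))) (.nd (nat_lit 5) 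
(.lf (nat_lit 58201) (.g (nat_lit 2276) (.e (nat_lit 1454) (nat_lit 108) (.e (nat_lit 336176) (nat_lit 10) (.e (nat_lit 344096) (nat_lit 18) (.e (nat_lit 7265) (nat_lit 384) (.e (nat_lit 57426) (nat_lit 15) (.e (nat_lit 360488) (nat_lit 20) (.e (nat_lit 761867) (nat_lit 5) .nil))))))) (.g (nat_lit 5) .nil .nil))) 
(.lf (nat_lit 58233) (.g (nat_lit 2414) (.e (nat_lit 1454) (nat_lit 108) (.e (nat_lit 336176) (nat_lit 10) (.e (nat_lit 344177) (nat_lit 43) (.e (nat_lit 770072) (nat_lit 8) (.e (nat_lit 65617) (nat_lit 10) (.e (nat_lit 344174) (nat_lit 42) (.e (nat_lit 761866) (nat_lit 5) .nil))))))) (.g (nat_lit 4) .nil .nil)))))) (.nd (nat_lit 3) (.nd (nat_lit 4) (.nd (nat_lit 5) 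
(.lf (nat_lit 58181) (.g (nat_lit 1287) (.e (nat_lit 1454) (nat_lit 108) (.e (nat_lit 336176) (nat_lit 10) (.e (nat_lit 344095) (nat_lit 18) (.e (nat_lit 7261) (nat_lit 384) (.e (nat_lit 57427) (nat_lit 15) (.e (nat_lit 360488) (nat_lit 20) (.e (nat_lit 761866) (nat_lit 5) .nil))))))) (.g (nat_lit 4) .nil .nil))) 
(.lf (nat_lit 58213) (.g (nat_lit 1738) (.e (nat_lit 1454) (nat_lit 108) (.e (nat_lit 336176) (nat_lit 10) (.e (nat_lit 344174) (nat_lit 42) (.e (nat_lit 761868) (nat_lit 5) (.e (nat_lit 1597) (nat_lit 111) (.e (nat_lit 360488) (nat_lit 20) (.e (nat_lit 761867) (nat_lit 5) .nil))))))) (.g (nat_lit 5) .nil .nil)))) (.nd (nat_lit 5) 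
(.lf (nat_lit 58197) (.g (nat_lit 2755) (.e (nat_lit 1454) (nat_lit 108) (.e (nat_lit 336176) (nat_lit 10) (.e (nat_lit 344096) (nat_lit 18) (.e (nat_lit 7265) (nat_lit 384) (.e (nat_lit 57412) (nat_lit 12) (.e (nat_lit 336173) (nat_lit 10) (.e (nat_lit 344174) (nat_lit 42) (.e (nat_lit 761866) (nat_lit 5) .nil)))))))) (.g (nat_lit 6) .nil .nil))) 
(.lf (nat_lit 58229) (.g (nat_lit 2325) (.e (nat_lit 1454) (nat_lit 108) (.e (nat_lit 336176) (nat_lit 10) (.e (nat_lit 344177) (nat_lit 43) (.e (nat_lit 770072) (nat_lit 8) (.e (nat_lit 65610) (nat_lit 10) (.e (nat_lit 344174) (nat_lit 42) (.e (nat_lit 761867) (nat_lit 5) .nil))))))) (.g (nat_lit 4) .nil .nil))))) (.nd (nat_lit 4) (.nd (nat_lit 5) 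
(.lf (nat_lit 58189) (.g (nat_lit 2445) (.e (nat_lit 1454) (nat_lit 108) (.e (nat_lit 336176) (nat_lit 10) (.e (nat_lit 344096) (nat_lit 18) (.e (nat_lit 7261) (nat_lit 384) (.e (nat_lit 57412) (nat_lit 12) (.e (nat_lit 336176) (nat_lit 10) (.e (nat_lit 344174) (nat_lit 42) (.e (nat_lit 761867) (nat_lit 5) .nil)))))))) (.g (nat_lit 6) .nil .nil))) 
(.lf (nat_lit 58221) (.g (nat_lit 1858) (.e (nat_lit 1454) (nat_lit 108) (.e (nat_lit 336176) (nat_lit 10) (.e (nat_lit 344177) (nat_lit 43) (.e (nat_lit 770071) (nat_lit 8) (.e (nat_lit 65611) (nat_lit 10) .nil))))) .nil))) (.nd (nat_lit 5) 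
(.lf (nat_lit 58205) (.g (nat_lit 2284) (.e (nat_lit 1454) (nat_lit 108) (.e (nat_lit 336176) (nat_lit 10) (.e (nat_lit 344160) (nat_lit 37) (.e (nat_lit 647203) (nat_lit 14) (.e (nat_lit 1349) (nat_lit 102) (.e (nat_lit 286759) (nat_lit 12) (.e (nat_lit 385092) (nat_lit 49) (.e (nat_lit 778248) (nat_lit 0) .nil)))))))) (.g (nat_lit 4) .nil .nil))) 
(.lf (nat_lit 58237) (.g (nat_lit 2385) (.e (nat_lit 1454) (nat_lit 108) (.e (nat_lit 336176) (nat_lit 10) (.e (nat_lit 344177) (nat_lit 43) (.e (nat_lit 770072) (nat_lit 8) (.e (nat_lit 65620) (nat_lit 10) (.e (nat_lit 344174) (nat_lit 42) (.e (nat_lit 761866) (nat_lit 5) .nil))))))) (.g (nat_lit 4) .nil .nil))))))) (.nd (nat_lit 2) (.nd (nat_lit 3) (.nd (nat_lit 4) (.nd (nat_lit 5) 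
(.lf (nat_lit 58179) (.g (nat_lit 1719) (.e (nat_lit 1454) (nat_lit 108) (.e (nat_lit 336176) (nat_lit 10) (.e (nat_lit 344095) (nat_lit 18) (.e (nat_lit 7261) (nat_lit 384) (.e (nat_lit 57426) (nat_lit 15) (.e (nat_lit 360488) (nat_lit 20) (.e (nat_lit 761866) (nat_lit 5) .nil))))))) (.g (nat_lit 5) .nil .nil))) 
(.lf (nat_lit 58211) (.g (nat_lit 1654) (.e (nat_lit 1454) (nat_lit 108) (.e (nat_lit 336176) (nat_lit 10) (.e (nat_lit 344174) (nat_lit 42) (.e (nat_lit 761867) (nat_lit 5) (.e (nat_lit 1597) (nat_lit 111) (.e (nat_lit 360488) (nat_lit 20) (.e (nat_lit 761867) (nat_lit 5) .nil))))))) (.g (nat_lit 4) .nil .nil)))) (.nd (nat_lit 5) 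
(.lf (nat_lit 58195) (.g (nat_lit 1679) (.e (nat_lit 1454) (nat_lit 108) (.e (nat_lit 336176) (nat_lit 10) (.e (nat_lit 344096) (nat_lit 18) (.e (nat_lit 7263) (nat_lit 384) (.e (nat_lit 57426) (nat_lit 15) (.e (nat_lit 360488) (nat_lit 20) (.e (nat_lit 761866) (nat_lit 5) .nil))))))) (.g (nat_lit 4) .nil .nil))) 
(.lf (nat_lit 58227) (.g (nat_lit 1917) (.e (nat_lit 1454) (nat_lit 108) (.e (nat_lit 336176) (nat_lit 10) (.e (nat_lit 344177) (nat_lit 43) (.e (nat_lit 770071) (nat_lit 8) (.e (nat_lit 65620) (nat_lit 10) (.e (nat_lit 344174) (nat_lit 42) (.e (nat_lit 761867) (nat_lit 5) .nil))))))) (.g (nat_lit 4) .nil .nil))))) (.nd (nat_lit 4) (.nd (nat_lit 5) 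
(.lf (nat_lit 58187) (.g (nat_lit 2674) (.e (nat_lit 1454) (nat_lit 108) (.e (nat_lit 336176) (nat_lit 10) (.e (nat_lit 344096) (nat_lit 18) (.e (nat_lit 7261) (nat_lit 384) (.e (nat_lit 57412) (nat_lit 12) (.e (nat_lit 336173) (nat_lit 10) (.e (nat_lit 344174) (nat_lit 42) (.e (nat_lit 761866) (nat_lit 5) .nil)))))))) (.g (nat_lit 6) .nil .nil))) 
(.lf (nat_lit 58219) (.g (nat_lit 2313) (.e (nat_lit 1454) (nat_lit 108) (.e (nat_lit 336176) (nat_lit 10) (.e (nat_lit 344177) (nat_lit 43) (.e (nat_lit 770071) (nat_lit 8) (.e (nat_lit 65610) (nat_lit 10) (.e (nat_lit 344174) (nat_lit 42) (.e (nat_lit 761866) (nat_lit 5) .nil))))))) (.g (nat_lit 4) .nil .nil)))) (.nd (nat_lit 5) 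
(.lf (nat_lit 58203) (.g (nat_lit 1966) (.e (nat_lit 1454) (nat_lit 108) (.e (nat_lit 336176) (nat_lit 10) (.e (nat_lit 344096) (nat_lit 18) (.e (nat_lit 7266) (nat_lit 384) (.e (nat_lit 57427) (nat_lit 15) (.e (nat_lit 360488) (nat_lit 20) (.e (nat_lit 761866) (nat_lit 5) .nil))))))) (.g (nat_lit 4) .nil .nil))) 
(.lf (nat_lit 58235) (.g (nat_lit 2879) (.e (nat_lit 1454) (nat_lit 108) (.e (nat_lit 336176) (nat_lit 10) (.e (nat_lit 344177) (nat_lit 43) (.e (nat_lit 770072) (nat_lit 8) (.e (nat_lit 65619) (nat_lit 10) (.e (nat_lit 344174) (nat_lit 42) (.e (nat_lit 761866) (nat_lit 5) .nil))))))) (.g (nat_lit 5) .nil .nil)))))) (.nd (nat_lit 3) (.nd (nat_lit 4) (.nd (nat_lit 5) 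
(.lf (nat_lit 58183) (.g (nat_lit 2881) (.e (nat_lit 1454) (nat_lit 108) (.e (nat_lit 336176) (nat_lit 10) (.e (nat_lit 344096) (nat_lit 18) (.e (nat_lit 7122) (nat_lit 382) (.e (nat_lit 1201) (nat_lit 88) (.e (nat_lit 65617) (nat_lit 10) (.e (nat_lit 344174) (nat_lit 42) (.e (nat_lit 761866) (nat_lit 5) .nil)))))))) (.g (nat_lit 5) .nil .nil))) 
(.lf (nat_lit 58215) (.g (nat_lit 1819) (.e (nat_lit 1454) (nat_lit 108) (.e (nat_lit 336176) (nat_lit 10) (.e (nat_lit 344177) (nat_lit 43) (.e (nat_lit 770057) (nat_lit 5) (.e (nat_lit 1589) (nat_lit 111) (.e (nat_lit 360488) (nat_lit 20) (.e (nat_lit 761866) (nat_lit 5) .nil))))))) (.g (nat_lit 4) .nil .nil)))) (.nd (nat_lit 5) 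
(.lf (nat_lit 58199) (.g (nat_lit 2525) (.e (nat_lit 1454) (nat_lit 108) (.e (nat_lit 336176) (nat_lit 10) (.e (nat_lit 344096) (nat_lit 18) (.e (nat_lit 7265) (nat_lit 384) (.e (nat_lit 57412) (nat_lit 12) (.e (nat_lit 336176) (nat_lit 10) (.e (nat_lit 344174) (nat_lit 42) (.e (nat_lit 761867) (nat_lit 5) .nil)))))))) (.g (nat_lit 6) .nil .nil))) 
(.lf (nat_lit 58231) (.g (nat_lit 2069) (.e (nat_lit 1454) (nat_lit 108) (.e (nat_lit 336176) (nat_lit 10) (.e (nat_lit 344177) (nat_lit 43) (.e (nat_lit 770072) (nat_lit 8) (.e (nat_lit 65611) (nat_lit 10) (.e (nat_lit 344174) (nat_lit 42) (.e (nat_lit 761867) (nat_lit 5) .nil))))))) (.g (nat_lit 4) .nil .nil))))) (.nd (nat_lit 4) (.nd (nat_lit 5) 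
(.lf (nat_lit 58191) (.g (nat_lit 1849) (.e (nat_lit 1454) (nat_lit 108) (.e (nat_lit 336176) (nat_lit 10) (.e (nat_lit 344096) (nat_lit 18) (.e (nat_lit 7261) (nat_lit 384) (.e (nat_lit 57426) (nat_lit 15) (.e (nat_lit 360488) (nat_lit 20) (.e (nat_lit 761867) (nat_lit 5) .nil))))))) (.g (nat_lit 4) .nil .nil))) 
(.lf (nat_lit 58223) (.g (nat_lit 2215) (.e (nat_lit 1454) (nat_lit 108) (.e (nat_lit 336176) (nat_lit 10) (.e (nat_lit 344177) (nat_lit 43) (.e (nat_lit 770071) (nat_lit 8) (.e (nat_lit 65617) (nat_lit 10) (.e (nat_lit 344174) (nat_lit 42) (.e (nat_lit 761867) (nat_lit 5) .nil))))))) (.g (nat_lit 4) .nil .nil)))) (.nd (nat_lit 5) 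
(.lf (nat_lit 58207) (.g (nat_lit 1856) (.e (nat_lit 1454) (nat_lit 108) (.e (nat_lit 336176) (nat_lit 10) (.e (nat_lit 344174) (nat_lit 42) (.e (nat_lit 761866) (nat_lit 5) (.e (nat_lit 1454) (nat_lit 108) (.e (nat_lit 336176) (nat_lit 10) (.e (nat_lit 344174) (nat_lit 42) (.e (nat_lit 761866) (nat_lit 5) .nil)))))))) (.g (nat_lit 4) .nil .nil))) 
(.lf (nat_lit 58239) (.g (nat_lit 1078) (.e (nat_lit 1454) (nat_lit 108) (.e (nat_lit 336178) (nat_lit 10) (.e (nat_lit 344177) (nat_lit 43) (.e (nat_lit 770071) (nat_lit 8) .nil)))) .nil))))))))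

noncomputable def tv802 : DT := (.nd (nat_lit 0) (.nd (nat_lit 1) (.nd (nat_lit 2) (.nd (nat_lit 3) (.nd (nat_lit 4) (.nd (nat_lit 5) 
(.lf (nat_lit 58240) (.g (nat_lit 1607) (.e (nat_lit 1454) (nat_lit 108) (.e (nat_lit 336179) (nat_lit 10) (.e (nat_lit 344174) (nat_lit 42) (.e (nat_lit 761866) (nat_lit 5) (.e (nat_lit 1597) (nat_lit 111) (.e (nat_lit 360488) (nat_lit 20) (.e (nat_lit 761866) (nat_lit 5) .nil))))))) (.g (nat_lit 4) .nil .nil))) 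
(.lf (nat_lit 58272) (.g (nat_lit 2394) (.e (nat_lit 1454) (nat_lit 108) (.e (nat_lit 336205) (nat_lit 12) (.e (nat_lit 385105) (nat_lit 50) (.e (nat_lit 786478) (nat_lit 29) (.e (nat_lit 352270) (nat_lit 8) (.e (nat_lit 262145) (nat_lit 0) .nil)))))) (.g (nat_lit 4) .nil .nil)))) (.nd (nat_lit 5) 
(.lf (nat_lit 58256) (.g (nat_lit 1890) (.e (nat_lit 1454) (nat_lit 108) (.e (nat_lit 336179) (nat_lit 10) (.e (nat_lit 344177) (nat_lit 43) (.e (nat_lit 770072) (nat_lit 8) (.e (nat_lit 65620) (nat_lit 10) (.e (nat_lit 344174) (nat_lit 42) (.e (nat_lit 761867) (nat_lit 5) .nil))))))) (.g (nat_lit 4) .nil .nil))) 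
(.lf (nat_lit 58288) (.g (nat_lit 1545) (.e (nat_lit 1454) (nat_lit 108) (.e (nat_lit 336212) (nat_lit 13) (.e (nat_lit 393232) (nat_lit 17) (.e (nat_lit 7593) (nat_lit 407) (.e (nat_lit 73772) (nat_lit 24) (.e (nat_lit 761867) (nat_lit 5) .nil)))))) (.g (nat_lit 4) .nil .nil))))) (.nd (nat_lit 4) (.nd (nat_lit 5) 
(.lf (nat_lit 58248) (.g (nat_lit 1558) (.e (nat_lit 1454) (nat_lit 108) (.e (nat_lit 336179) (nat_lit 10) (.e (nat_lit 344177) (nat_lit 43) (.e (nat_lit 770071) (nat_lit 8) (.e (nat_lit 65620) (nat_lit 10) (.e (nat_lit 344174) (nat_lit 42) (.e (nat_lit 761867) (nat_lit 5) .nil))))))) (.g (nat_lit 4) .nil .nil))) 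
(.lf (nat_lit 58280) (.g (nat_lit 1959) (.e (nat_lit 1454) (nat_lit 108) (.e (nat_lit 336205) (nat_lit 12) (.e (nat_lit 385106) (nat_lit 50) (.e (nat_lit 786480) (nat_lit 29) (.e (nat_lit 352270) (nat_lit 8) (.e (nat_lit 262148) (nat_lit 0) .nil)))))) (.g (nat_lit 4) .nil .nil)))) (.nd (nat_lit 5) 
(.lf (nat_lit 58264) (.g (nat_lit 1257) (.e (nat_lit 1454) (nat_lit 108) (.e (nat_lit 336193) (nat_lit 12) (.e (nat_lit 385106) (nat_lit 50) (.e (nat_lit 786480) (nat_lit 29) .nil)))) .nil)) 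
(.lf (nat_lit 58296) (.g (nat_lit 1740) (.e (nat_lit 1454) (nat_lit 108) (.e (nat_lit 336212) (nat_lit 13) (.e (nat_lit 393234) (nat_lit 17) (.e (nat_lit 7593) (nat_lit 407) (.e (nat_lit 73772) (nat_lit 24) (.e (nat_lit 761867) (nat_lit 5) .nil)))))) (.g (nat_lit 4) .nil .nil)))))) (.nd (nat_lit 3) (.nd (nat_lit 4) (.nd (nat_lit 5) 
(.lf (nat_lit 58244) (.g (nat_lit 1827) (.e (nat_lit 1454) (nat_lit 108) (.e (nat_lit 336179) (nat_lit 10) (.e (nat_lit 344177) (nat_lit 43) (.e (nat_lit 770071) (nat_lit 8) (.e (nat_lit 65610) (nat_lit 10) (.e (nat_lit 344174) (nat_lit 42) (.e (nat_lit 761867) (nat_lit 5) .nil))))))) (.g (nat_lit 4) .nil .nil))) 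
(.lf (nat_lit 58276) (.g (nat_lit 2019) (.e (nat_lit 1454) (nat_lit 108) (.e (nat_lit 336205) (nat_lit 12) (.e (nat_lit 385105) (nat_lit 50) (.e (nat_lit 786483) (nat_lit 30) (.e (nat_lit 360451) (nat_lit 0) .nil))))) .nil))) (.nd (nat_lit 5) 
(.lf (nat_lit 58260) (.g (nat_lit 1209) (.e (nat_lit 1454) (nat_lit 108) (.e (nat_lit 336193) (nat_lit 12) (.e (nat_lit 385094) (nat_lit 49) (.e (nat_lit 778327) (nat_lit 6) .nil)))) .nil)) 
(.lf (nat_lit 58292) (.g (nat_lit 1535) (.e (nat_lit 1454) (nat_lit 108) (.e (nat_lit 336212) (nat_lit 13) (.e (nat_lit 393233) (nat_lit 17) (.e (nat_lit 7593) (nat_lit 407) (.e (nat_lit 73772) (nat_lit 24) (.e (nat_lit 761867) (nat_lit 5) .nil)))))) (.g (nat_lit 4) .nil .nil))))) (.nd (nat_lit 4) (.nd (nat_lit 5) 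
(.lf (nat_lit 58252) (.g (nat_lit 2360) (.e (nat_lit 1454) (nat_lit 108) (.e (nat_lit 336179) (nat_lit 10) (.e (nat_lit 344177) (nat_lit 43) (.e (nat_lit 770072) (nat_lit 8) (.e (nat_lit 65617) (nat_lit 10) (.e (nat_lit 344174) (nat_lit 42) (.e (nat_lit 761866) (nat_lit 5) .nil))))))) (.g (nat_lit 4) .nil .nil))) 
(.lf (nat_lit 58284) (.g (nat_lit 2686) (.e (nat_lit 1454) (nat_lit 108) (.e (nat_lit 336205) (nat_lit 12) (.e (nat_lit 385106) (nat_lit 50) (.e (nat_lit 786483) (nat_lit 30) (.e (nat_lit 360451) (nat_lit 0) (.e (nat_lit 5918) (nat_lit 320) (.e (nat_lit 1077) (nat_lit 81) .nil))))))) (.g (nat_lit 4) .nil .nil)))) (.nd (nat_lit 5) 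
(.lf (nat_lit 58268) (.g (nat_lit 2235) (.e (nat_lit 1454) (nat_lit 108) (.e (nat_lit 336205) (nat_lit 12) (.e (nat_lit 385093) (nat_lit 49) (.e (nat_lit 778327) (nat_lit 6) (.e (nat_lit 89856) (nat_lit 8) (.e (nat_lit 262145) (nat_lit 0) .nil)))))) (.g (nat_lit 4) .nil .nil))) 
(.lf (nat_lit 58300) (.g (nat_lit 2255) (.e (nat_lit 1454) (nat_lit 108) (.e (nat_lit 336212) (nat_lit 13) (.e (nat_lit 393300) (nat_lit 27) (.e (nat_lit 491558) (nat_lit 10) (.e (nat_lit 344174) (nat_lit 42) (.e (nat_lit 761866) (nat_lit 5) .nil)))))) (.g (nat_lit 5) .nil .nil))))))) (.nd (nat_lit 2) (.nd (nat_lit 3) (.nd (nat_lit 4) (.nd (nat_lit 5) 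
(.lf (nat_lit 58242) (.g (nat_lit 1362) (.e (nat_lit 1454) (nat_lit 108) (.e (nat_lit 336179) (nat_lit 10) (.e (nat_lit 344174) (nat_lit 42) (.e (nat_lit 761867) (nat_lit 5) (.e (nat_lit 1597) (nat_lit 111) (.e (nat_lit 360488) (nat_lit 20) (.e (nat_lit 761866) (nat_lit 5) .nil))))))) (.g (nat_lit 4) .nil .nil))) 
(.lf (nat_lit 58274) (.g (nat_lit 1940) (.e (nat_lit 1454) (nat_lit 108) (.e (nat_lit 336205) (nat_lit 12) (.e (nat_lit 385105) (nat_lit 50) (.e (nat_lit 786480) (nat_lit 29) (.e (nat_lit 352270) (nat_lit 8) (.e (nat_lit 262145) (nat_lit 0) .nil)))))) (.g (nat_lit 4) .nil .nil)))) (.nd (nat_lit 5) 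
(.lf (nat_lit 58258) (.g (nat_lit 1809) (.e (nat_lit 1454) (nat_lit 108) (.e (nat_lit 336193) (nat_lit 12) (.e (nat_lit 385093) (nat_lit 49) (.e (nat_lit 778327) (nat_lit 6) .nil)))) .nil)) 
(.lf (nat_lit 58290) (.g (nat_lit 1355) (.e (nat_lit 1454) (nat_lit 108) (.e (nat_lit 336212) (nat_lit 13) (.e (nat_lit 393233) (nat_lit 17) (.e (nat_lit 7591) (nat_lit 407) (.e (nat_lit 73772) (nat_lit 24) (.e (nat_lit 761867) (nat_lit 5) .nil)))))) (.g (nat_lit 4) .nil .nil))))) (.nd (nat_lit 4) (.nd (nat_lit 5) 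
(.lf (nat_lit 58250) (.g (nat_lit 1963) (.e (nat_lit 1454) (nat_lit 108) (.e (nat_lit 336179) (nat_lit 10) (.e (nat_lit 344177) (nat_lit 43) (.e (nat_lit 770072) (nat_lit 8) (.e (nat_lit 65611) (nat_lit 10) (.e (nat_lit 344174) (nat_lit 42) (.e (nat_lit 761866) (nat_lit 5) .nil))))))) (.g (nat_lit 4) .nil .nil))) 
(.lf (nat_lit 58282) (.g (nat_lit 2438) (.e (nat_lit 1454) (nat_lit 108) (.e (nat_lit 336205) (nat_lit 12) (.e (nat_lit 385106) (nat_lit 50) (.e (nat_lit 786483) (nat_lit 30) (.e (nat_lit 360450) (nat_lit 0) (.e (nat_lit 5898) (nat_lit 320) (.e (nat_lit 1074) (nat_lit 81) .nil))))))) (.g (nat_lit 4) .nil .nil)))) (.nd (nat_lit 5) 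
(.lf (nat_lit 58266) (.g (nat_lit 1649) (.e (nat_lit 1454) (nat_lit 108) (.e (nat_lit 336200) (nat_lit 12) (.e (nat_lit 385094) (nat_lit 49) (.e (nat_lit 778326) (nat_lit 6) (.e (nat_lit 89856) (nat_lit 8) (.e (nat_lit 262146) (nat_lit 0) .nil)))))) (.g (nat_lit 4) .nil .nil))) 
(.lf (nat_lit 58298) (.g (nat_lit 2277) (.e (nat_lit 1454) (nat_lit 108) (.e (nat_lit 336212) (nat_lit 13) (.e (nat_lit 393299) (nat_lit 27) (.e (nat_lit 491558) (nat_lit 10) (.e (nat_lit 344174) (nat_lit 42) (.e (nat_lit 761867) (nat_lit 5) .nil)))))) (.g (nat_lit 4) .nil .nil)))))) (.nd (nat_lit 3) (.nd (nat_lit 4) (.nd (nat_lit 5) 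
(.lf (nat_lit 58246) (.g (nat_lit 1926) (.e (nat_lit 1454) (nat_lit 108) (.e (nat_lit 336179) (nat_lit 10) (.e (nat_lit 344177) (nat_lit 43) (.e (nat_lit 770071) (nat_lit 8) (.e (nat_lit 65619) (nat_lit 10) (.e (nat_lit 344174) (nat_lit 42) (.e (nat_lit 761866) (nat_lit 5) .nil))))))) (.g (nat_lit 4) .nil .nil))) 
(.lf (nat_lit 58278) (.g (nat_lit 2254) (.e (nat_lit 1454) (nat_lit 108) (.e (nat_lit 336205) (nat_lit 12) (.e (nat_lit 385106) (nat_lit 50) (.e (nat_lit 786478) (nat_lit 29) (.e (nat_lit 352270) (nat_lit 8) (.e (nat_lit 262145) (nat_lit 0) .nil)))))) (.g (nat_lit 4) .nil .nil)))) (.nd (nat_lit 5) 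
(.lf (nat_lit 58262) (.g (nat_lit 1541) (.e (nat_lit 1454) (nat_lit 108) (.e (nat_lit 336193) (nat_lit 12) (.e (nat_lit 385105) (nat_lit 50) (.e (nat_lit 786480) (nat_lit 29) .nil)))) .nil)) 
(.lf (nat_lit 58294) (.g (nat_lit 1747) (.e (nat_lit 1454) (nat_lit 108) (.e (nat_lit 336212) (nat_lit 13) (.e (nat_lit 393234) (nat_lit 17) (.e (nat_lit 7591) (nat_lit 407) (.e (nat_lit 73772) (nat_lit 24) (.e (nat_lit 761867) (nat_lit 5) .nil)))))) (.g (nat_lit 4) .nil .nil))))) (.nd (nat_lit 4) (.nd (nat_lit 5) 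
(.lf (nat_lit 58254) (.g (nat_lit 2614) (.e (nat_lit 1454) (nat_lit 108) (.e (nat_lit 336179) (nat_lit 10) (.e (nat_lit 344177) (nat_lit 43) (.e (nat_lit 770072) (nat_lit 8) (.e (nat_lit 65619) (nat_lit 10) (.e (nat_lit 344174) (nat_lit 42) (.e (nat_lit 761866) (nat_lit 5) .nil))))))) (.g (nat_lit 5) .nil .nil))) 
(.lf (nat_lit 58286) (.g (nat_lit 1335) (.e (nat_lit 1454) (nat_lit 108) (.e (nat_lit 336212) (nat_lit 13) (.e (nat_lit 393231) (nat_lit 17) (.e (nat_lit 7593) (nat_lit 407) (.e (nat_lit 73772) (nat_lit 24) (.e (nat_lit 761867) (nat_lit 5) .nil)))))) (.g (nat_lit 4) .nil .nil)))) (.nd (nat_lit 5) 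
(.lf (nat_lit 58270) (.g (nat_lit 2038) (.e (nat_lit 1454) (nat_lit 108) (.e (nat_lit 336205) (nat_lit 12) (.e (nat_lit 385094) (nat_lit 49) (.e (nat_lit 778327) (nat_lit 6) (.e (nat_lit 89856) (nat_lit 8) (.e (nat_lit 262145) (nat_lit 0) .nil)))))) (.g (nat_lit 4) .nil .nil))) 
(.lf (nat_lit 58302) (.g (nat_lit 2231) (.e (nat_lit 1454) (nat_lit 108) (.e (nat_lit 336212) (nat_lit 13) (.e (nat_lit 393300) (nat_lit 27) (.e (nat_lit 491560) (nat_lit 10) (.e (nat_lit 344174) (nat_lit 42) (.e (nat_lit 761866) (nat_lit 5) .nil)))))) (.g (nat_lit 5) .nil .nil)))))))) (.nd (nat_lit 1) (.nd (nat_lit 2) (.nd (nat_lit 3) (.nd (nat_lit 4) (.nd (nat_lit 5) 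
(.lf (nat_lit 58241) (.g (nat_lit 1500) (.e (nat_lit 1454) (nat_lit 108) (.e (nat_lit 336179) (nat_lit 10) (.e (nat_lit 344174) (nat_lit 42) (.e (nat_lit 761866) (nat_lit 5) (.e (nat_lit 1597) (nat_lit 111) (.e (nat_lit 360488) (nat_lit 20) (.e (nat_lit 761867) (nat_lit 5) .nil))))))) (.g (nat_lit 4) .nil .nil))) 
(.lf (nat_lit 58273) (.g (nat_lit 1658) (.e (nat_lit 1454) (nat_lit 108) (.e (nat_lit 336205) (nat_lit 12) (.e (nat_lit 385105) (nat_lit 50) (.e (nat_lit 786480) (nat_lit 29) (.e (nat_lit 352270) (nat_lit 8) .nil))))) .nil))) (.nd (nat_lit 5) 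
(.lf (nat_lit 58257) (.g (nat_lit 1848) (.e (nat_lit 1454) (nat_lit 108) (.e (nat_lit 336193) (nat_lit 12) (.e (nat_lit 385093) (nat_lit 49) (.e (nat_lit 778326) (nat_lit 6) .nil)))) .nil)) 
(.lf (nat_lit 58289) (.g (nat_lit 1522) (.e (nat_lit 1454) (nat_lit 108) (.e (nat_lit 336212) (nat_lit 13) (.e (nat_lit 393233) (nat_lit 17) (.e (nat_lit 7591) (nat_lit 407) (.e (nat_lit 73772) (nat_lit 24) (.e (nat_lit 761866) (nat_lit 5) .nil)))))) (.g (nat_lit 4) .nil .nil))))) (.nd (nat_lit 4) (.nd (nat_lit 5) 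
(.lf (nat_lit 58249) (.g (nat_lit 2228) (.e (nat_lit 1454) (nat_lit 108) (.e (nat_lit 336179) (nat_lit 10) (.e (nat_lit 344177) (nat_lit 43) (.e (nat_lit 770072) (nat_lit 8) (.e (nat_lit 65610) (nat_lit 10) (.e (nat_lit 344174) (nat_lit 42) (.e (nat_lit 761867) (nat_lit 5) .nil))))))) (.g (nat_lit 4) .nil .nil))) 
(.lf (nat_lit 58281) (.g (nat_lit 2313) (.e (nat_lit 1454) (nat_lit 108) (.e (nat_lit 336205) (nat_lit 12) (.e (nat_lit 385106) (nat_lit 50) (.e (nat_lit 786481) (nat_lit 30) (.e (nat_lit 360449) (nat_lit 0) (.e (nat_lit 5918) (nat_lit 320) (.e (nat_lit 1077) (nat_lit 81) .nil))))))) (.g (nat_lit 4) .nil .nil)))) (.nd (nat_lit 5) 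
(.lf (nat_lit 58265) (.g (nat_lit 1285) (.e (nat_lit 1454) (nat_lit 108) (.e (nat_lit 336193) (nat_lit 12) (.e (nat_lit 385106) (nat_lit 50) (.e (nat_lit 786483) (nat_lit 30) .nil)))) .nil)) 
(.lf (nat_lit 58297) (.g (nat_lit 2577) (.e (nat_lit 1454) (nat_lit 108) (.e (nat_lit 336212) (nat_lit 13) (.e (nat_lit 393299) (nat_lit 27) (.e (nat_lit 491558) (nat_lit 10) (.e (nat_lit 344174) (nat_lit 42) (.e (nat_lit 761866) (nat_lit 5) .nil)))))) (.g (nat_lit 5) .nil .nil)))))) (.nd (nat_lit 3) (.nd (nat_lit 4) (.nd (nat_lit 5) 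
(.lf (nat_lit 58245) (.g (nat_lit 1918) (.e (nat_lit 1454) (nat_lit 108) (.e (nat_lit 336179) (nat_lit 10) (.e (nat_lit 344177) (nat_lit 43) (.e (nat_lit 770071) (nat_lit 8) (.e (nat_lit 65617) (nat_lit 10) (.e (nat_lit 344174) (nat_lit 42) (.e (nat_lit 761867) (nat_lit 5) .nil))))))) (.g (nat_lit 4) .nil .nil))) 
(.lf (nat_lit 58277) (.g (nat_lit 1921) (.e (nat_lit 1454) (nat_lit 108) (.e (nat_lit 336205) (nat_lit 12) (.e (nat_lit 385106) (nat_lit 50) (.e (nat_lit 786478) (nat_lit 29) (.e (nat_lit 352270) (nat_lit 8) .nil))))) .nil))) (.nd (nat_lit 5) 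
(.lf (nat_lit 58261) (.g (nat_lit 2399) (.e (nat_lit 1454) (nat_lit 108) (.e (nat_lit 336193) (nat_lit 12) (.e (nat_lit 385105) (nat_lit 50) (.e (nat_lit 786478) (nat_lit 29) (.e (nat_lit 352270) (nat_lit 8) .nil))))) .nil)) 
(.lf (nat_lit 58293) (.g (nat_lit 1909) (.e (nat_lit 1454) (nat_lit 108) (.e (nat_lit 336212) (nat_lit 13) (.e (nat_lit 393234) (nat_lit 17) (.e (nat_lit 7591) (nat_lit 407) (.e (nat_lit 73772) (nat_lit 24) (.e (nat_lit 761866) (nat_lit 5) .nil)))))) (.g (nat_lit 4) .nil .nil))))) (.nd (nat_lit 4) (.nd (nat_lit 5) 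
(.lf (nat_lit 58253) (.g (nat_lit 2208) (.e (nat_lit 1454) (nat_lit 108) (.e (nat_lit 336179) (nat_lit 10) (.e (nat_lit 344177) (nat_lit 43) (.e (nat_lit 770072) (nat_lit 8) (.e (nat_lit 65617) (nat_lit 10) (.e (nat_lit 344174) (nat_lit 42) (.e (nat_lit 761867) (nat_lit 5) .nil))))))) (.g (nat_lit 4) .nil .nil))) 
(.lf (nat_lit 58285) (.g (nat_lit 1519) (.e (nat_lit 1454) (nat_lit 108) (.e (nat_lit 336212) (nat_lit 13) (.e (nat_lit 393231) (nat_lit 17) (.e (nat_lit 7593) (nat_lit 407) (.e (nat_lit 73772) (nat_lit 24) (.e (nat_lit 761866) (nat_lit 5) .nil)))))) (.g (nat_lit 4) .nil .nil)))) (.nd (nat_lit 5) 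
(.lf (nat_lit 58269) (.g (nat_lit 1915) (.e (nat_lit 1454) (nat_lit 108) (.e (nat_lit 336205) (nat_lit 12) (.e (nat_lit 385094) (nat_lit 49) (.e (nat_lit 778326) (nat_lit 6) (.e (nat_lit 89856) (nat_lit 8) (.e (nat_lit 262146) (nat_lit 0) .nil)))))) (.g (nat_lit 4) .nil .nil))) 
(.lf (nat_lit 58301) (.g (nat_lit 1955) (.e (nat_lit 1454) (nat_lit 108) (.e (nat_lit 336212) (nat_lit 13) (.e (nat_lit 393300) (nat_lit 27) (.e (nat_lit 491558) (nat_lit 10) (.e (nat_lit 344174) (nat_lit 42) (.e (nat_lit 761867) (nat_lit 5) .nil)))))) (.g (nat_lit 4) .nil .nil))))))) (.nd (nat_lit 2) (.nd (nat_lit 3) (.nd (nat_lit 4) (.nd (nat_lit 5) 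
(.lf (nat_lit 58243) (.g (nat_lit 1426) (.e (nat_lit 1454) (nat_lit 108) (.e (nat_lit 336179) (nat_lit 10) (.e (nat_lit 344174) (nat_lit 42) (.e (nat_lit 761869) (nat_lit 5) (.e (nat_lit 1597) (nat_lit 111) (.e (nat_lit 360488) (nat_lit 20) (.e (nat_lit 761867) (nat_lit 5) .nil))))))) (.g (nat_lit 4) .nil .nil))) 
(.lf (nat_lit 58275) (.g (nat_lit 1876) (.e (nat_lit 1454) (nat_lit 108) (.e (nat_lit 336205) (nat_lit 12) (.e (nat_lit 385105) (nat_lit 50) (.e (nat_lit 786481) (nat_lit 30) (.e (nat_lit 360449) (nat_lit 0) .nil))))) .nil))) (.nd (nat_lit 5) 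
(.lf (nat_lit 58259) (.g (nat_lit 1684) (.e (nat_lit 1454) (nat_lit 108) (.e (nat_lit 336193) (nat_lit 12) (.e (nat_lit 385094) (nat_lit 49) (.e (nat_lit 778326) (nat_lit 6) (.e (nat_lit 89856) (nat_lit 8) .nil))))) .nil)) 
(.lf (nat_lit 58291) (.g (nat_lit 1715) (.e (nat_lit 1454) (nat_lit 108) (.e (nat_lit 336212) (nat_lit 13) (.e (nat_lit 393233) (nat_lit 17) (.e (nat_lit 7593) (nat_lit 407) (.e (nat_lit 73772) (nat_lit 24) (.e (nat_lit 761866) (nat_lit 5) .nil)))))) (.g (nat_lit 4) .nil .nil))))) (.nd (nat_lit 4) (.nd (nat_lit 5) 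
(.lf (nat_lit 58251) (.g (nat_lit 1783) (.e (nat_lit 1454) (nat_lit 108) (.e (nat_lit 336179) (nat_lit 10) (.e (nat_lit 344177) (nat_lit 43) (.e (nat_lit 770072) (nat_lit 8) (.e (nat_lit 65611) (nat_lit 10) (.e (nat_lit 344174) (nat_lit 42) (.e (nat_lit 761867) (nat_lit 5) .nil))))))) (.g (nat_lit 4) .nil .nil))) 
(.lf (nat_lit 58283) (.g (nat_lit 2580) (.e (nat_lit 1454) (nat_lit 108) (.e (nat_lit 336205) (nat_lit 12) (.e (nat_lit 385106) (nat_lit 50) (.e (nat_lit 786483) (nat_lit 30) (.e (nat_lit 360451) (nat_lit 0) (.e (nat_lit 5898) (nat_lit 320) (.e (nat_lit 1074) (nat_lit 81) .nil))))))) (.g (nat_lit 4) .nil .nil)))) (.nd (nat_lit 5) 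
(.lf (nat_lit 58267) (.g (nat_lit 1675) (.e (nat_lit 1454) (nat_lit 108) (.e (nat_lit 336200) (nat_lit 12) (.e (nat_lit 385094) (nat_lit 49) (.e (nat_lit 778327) (nat_lit 6) (.e (nat_lit 89856) (nat_lit 8) (.e (nat_lit 262145) (nat_lit 0) .nil)))))) (.g (nat_lit 4) .nil .nil))) 
(.lf (nat_lit 58299) (.g (nat_lit 2415) (.e (nat_lit 1454) (nat_lit 108) (.e (nat_lit 336212) (nat_lit 13) (.e (nat_lit 393299) (nat_lit 27) (.e (nat_lit 491560) (nat_lit 10) (.e (nat_lit 344174) (nat_lit 42) (.e (nat_lit 761866) (nat_lit 5) .nil)))))) (.g (nat_lit 4) .nil .nil)))))) (.nd (nat_lit 3) (.nd (nat_lit 4) (.nd (nat_lit 5) 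
(.lf (nat_lit 58247) (.g (nat_lit 1778) (.e (nat_lit 1454) (nat_lit 108) (.e (nat_lit 336179) (nat_lit 10) (.e (nat_lit 344177) (nat_lit 43) (.e (nat_lit 770071) (nat_lit 8) (.e (nat_lit 65620) (nat_lit 10) (.e (nat_lit 344174) (nat_lit 42) (.e (nat_lit 761866) (nat_lit 5) .nil))))))) (.g (nat_lit 4) .nil .nil))) 
(.lf (nat_lit 58279) (.g (nat_lit 2348) (.e (nat_lit 1454) (nat_lit 108) (.e (nat_lit 336205) (nat_lit 12) (.e (nat_lit 385106) (nat_lit 50) (.e (nat_lit 786480) (nat_lit 29) (.e (nat_lit 352270) (nat_lit 8) (.e (nat_lit 262145) (nat_lit 0) .nil)))))) (.g (nat_lit 4) .nil .nil)))) (.nd (nat_lit 5) 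
(.lf (nat_lit 58263) (.g (nat_lit 2372) (.e (nat_lit 1454) (nat_lit 108) (.e (nat_lit 336193) (nat_lit 12) (.e (nat_lit 385105) (nat_lit 50) (.e (nat_lit 786483) (nat_lit 30) (.e (nat_lit 360451) (nat_lit 0) .nil))))) .nil)) 
(.lf (nat_lit 58295) (.g (nat_lit 1924) (.e (nat_lit 1454) (nat_lit 108) (.e (nat_lit 336212) (nat_lit 13) (.e (nat_lit 393234) (nat_lit 17) (.e (nat_lit 7593) (nat_lit 407) (.e (nat_lit 73772) (nat_lit 24) (.e (nat_lit 761866) (nat_lit 5) .nil)))))) (.g (nat_lit 4) .nil .nil))))) (.nd (nat_lit 4) (.nd (nat_lit 5) 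
(.lf (nat_lit 58255) (.g (nat_lit 2092) (.e (nat_lit 1454) (nat_lit 108) (.e (nat_lit 336179) (nat_lit 10) (.e (nat_lit 344177) (nat_lit 43) (.e (nat_lit 770072) (nat_lit 8) (.e (nat_lit 65620) (nat_lit 10) (.e (nat_lit 344174) (nat_lit 42) (.e (nat_lit 761866) (nat_lit 5) .nil))))))) (.g (nat_lit 4) .nil .nil))) 
(.lf (nat_lit 58287) (.g (nat_lit 1726) (.e (nat_lit 1454) (nat_lit 108) (.e (nat_lit 336212) (nat_lit 13) (.e (nat_lit 393232) (nat_lit 17) (.e (nat_lit 7593) (nat_lit 407) (.e (nat_lit 73772) (nat_lit 24) (.e (nat_lit 761866) (nat_lit 5) .nil)))))) (.g (nat_lit 4) .nil .nil)))) (.nd (nat_lit 5) 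
(.lf (nat_lit 58271) (.g (nat_lit 1986) (.e (nat_lit 1454) (nat_lit 108) (.e (nat_lit 336205) (nat_lit 12) (.e (nat_lit 385105) (nat_lit 50) (.e (nat_lit 786478) (nat_lit 29) (.e (nat_lit 352270) (nat_lit 8) .nil))))) .nil)) 
(.lf (nat_lit 58303) (.g (nat_lit 1950) (.e (nat_lit 1454) (nat_lit 108) (.e (nat_lit 336212) (nat_lit 13) (.e (nat_lit 393300) (nat_lit 27) (.e (nat_lit 491560) (nat_lit 10) (.e (nat_lit 344174) (nat_lit 42) (.e (nat_lit 761867) (nat_lit 5) .nil)))))) (.g (nat_lit 4) .nil .nil)))))))))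

noncomputable def tv803 : DT := (.nd (nat_lit 0) (.nd (nat_lit 1) (.nd (nat_lit 2) (.nd (nat_lit 3) (.nd (nat_lit 4) (.nd (nat_lit 5) 
(.lf (nat_lit 58304) (.g (nat_lit 2701) (.e (nat_lit 1454) (nat_lit 108) (.e (nat_lit 336212) (nat_lit 13) (.e (nat_lit 393301) (nat_lit 27) (.e (nat_lit 491558) (nat_lit 10) (.e (nat_lit 344174) (nat_lit 42) (.e (nat_lit 761866) (nat_lit 5) .nil)))))) (.g (nat_lit 5) .nil .nil))) 
(.lf (nat_lit 58336) (.g (nat_lit 1566) (.e (nat_lit 1454) (nat_lit 108) (.e (nat_lit 336218) (nat_lit 13) (.e (nat_lit 393232) (nat_lit 17) (.e (nat_lit 7591) (nat_lit 407) (.e (nat_lit 73772) (nat_lit 24) (.e (nat_lit 761866) (nat_lit 5) .nil)))))) (.g (nat_lit 4) .nil .nil)))) (.nd (nat_lit 5) 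
(.lf (nat_lit 58320) (.g (nat_lit 2022) (.e (nat_lit 1454) (nat_lit 108) (.e (nat_lit 336216) (nat_lit 13) (.e (nat_lit 393300) (nat_lit 27) (.e (nat_lit 491558) (nat_lit 10) (.e (nat_lit 344174) (nat_lit 42) (.e (nat_lit 761867) (nat_lit 5) .nil)))))) (.g (nat_lit 4) .nil .nil))) 
(.lf (nat_lit 58352) (.g (nat_lit 3190) (.e (nat_lit 1454) (nat_lit 108) (.e (nat_lit 336219) (nat_lit 13) (.e (nat_lit 393301) (nat_lit 27) (.e (nat_lit 491558) (nat_lit 10) (.e (nat_lit 344174) (nat_lit 42) (.e (nat_lit 761867) (nat_lit 5) .nil)))))) (.g (nat_lit 5) .nil .nil))))) (.nd (nat_lit 4) (.nd (nat_lit 5) 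
(.lf (nat_lit 58312) (.g (nat_lit 1412) (.e (nat_lit 1454) (nat_lit 108) (.e (nat_lit 336216) (nat_lit 13) (.e (nat_lit 393233) (nat_lit 17) (.e (nat_lit 7591) (nat_lit 407) (.e (nat_lit 73772) (nat_lit 24) .nil))))) .nil)) 
(.lf (nat_lit 58344) (.g (nat_lit 2078) (.e (nat_lit 1454) (nat_lit 108) (.e (nat_lit 336219) (nat_lit 13) (.e (nat_lit 393234) (nat_lit 17) (.e (nat_lit 7591) (nat_lit 407) (.e (nat_lit 73772) (nat_lit 24) (.e (nat_lit 761867) (nat_lit 5) .nil)))))) (.g (nat_lit 5) .nil .nil)))) (.nd (nat_lit 5) 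
(.lf (nat_lit 58328) (.g (nat_lit 1849) (.e (nat_lit 1454) (nat_lit 108) (.e (nat_lit 336217) (nat_lit 13) (.e (nat_lit 393234) (nat_lit 17) (.e (nat_lit 7591) (nat_lit 407) (.e (nat_lit 73772) (nat_lit 24) (.e (nat_lit 761867) (nat_lit 5) .nil)))))) (.g (nat_lit 4) .nil .nil))) 
(.lf (nat_lit 58360) (.g (nat_lit 1389) (.e (nat_lit 1454) (nat_lit 108) (.e (nat_lit 336224) (nat_lit 13) (.e (nat_lit 393233) (nat_lit 17) (.e (nat_lit 7593) (nat_lit 407) (.e (nat_lit 73772) (nat_lit 24) .nil))))) .nil))))) (.nd (nat_lit 3) (.nd (nat_lit 4) (.nd (nat_lit 5) 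
(.lf (nat_lit 58308) (.g (nat_lit 2282) (.e (nat_lit 1454) (nat_lit 108) (.e (nat_lit 336212) (nat_lit 13) (.e (nat_lit 393301) (nat_lit 27) (.e (nat_lit 491560) (nat_lit 10) (.e (nat_lit 344173) (nat_lit 42) (.e (nat_lit 761867) (nat_lit 5) .nil)))))) (.g (nat_lit 4) .nil .nil))) 
(.lf (nat_lit 58340) (.g (nat_lit 1704) (.e (nat_lit 1454) (nat_lit 108) (.e (nat_lit 336219) (nat_lit 13) (.e (nat_lit 393233) (nat_lit 17) (.e (nat_lit 7591) (nat_lit 407) (.e (nat_lit 73772) (nat_lit 24) (.e (nat_lit 761866) (nat_lit 5) .nil)))))) (.g (nat_lit 4) .nil .nil)))) (.nd (nat_lit 5) 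
(.lf (nat_lit 58324) (.g (nat_lit 1871) (.e (nat_lit 1454) (nat_lit 108) (.e (nat_lit 336217) (nat_lit 13) (.e (nat_lit 393232) (nat_lit 17) (.e (nat_lit 7591) (nat_lit 407) (.e (nat_lit 73772) (nat_lit 24) (.e (nat_lit 761866) (nat_lit 5) .nil)))))) (.g (nat_lit 5) .nil .nil))) 
(.lf (nat_lit 58356) (.g (nat_lit 3392) (.e (nat_lit 1454) (nat_lit 108) (.e (nat_lit 336219) (nat_lit 13) (.e (nat_lit 393301) (nat_lit 27) (.e (nat_lit 491560) (nat_lit 10) (.e (nat_lit 344174) (nat_lit 42) (.e (nat_lit 761867) (nat_lit 5) .nil)))))) (.g (nat_lit 5) .nil .nil))))) (.nd (nat_lit 4) (.nd (nat_lit 5) 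
(.lf (nat_lit 58316) (.g (nat_lit 2129) (.e (nat_lit 1454) (nat_lit 108) (.e (nat_lit 336216) (nat_lit 13) (.e (nat_lit 393234) (nat_lit 17) (.e (nat_lit 7591) (nat_lit 407) (.e (nat_lit 73772) (nat_lit 24) (.e (nat_lit 761866) (nat_lit 5) .nil)))))) (.g (nat_lit 5) .nil .nil))) 
(.lf (nat_lit 58348) (.g (nat_lit 2430) (.e (nat_lit 1454) (nat_lit 108) (.e (nat_lit 336219) (nat_lit 13) (.e (nat_lit 393300) (nat_lit 27) (.e (nat_lit 491558) (nat_lit 10) (.e (nat_lit 344174) (nat_lit 42) (.e (nat_lit 761867) (nat_lit 5) .nil)))))) (.g (nat_lit 6) .nil .nil)))) (.nd (nat_lit 5) 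
(.lf (nat_lit 58332) (.g (nat_lit 2597) (.e (nat_lit 1454) (nat_lit 108) (.e (nat_lit 336217) (nat_lit 13) (.e (nat_lit 393299) (nat_lit 27) (.e (nat_lit 491558) (nat_lit 10) (.e (nat_lit 344174) (nat_lit 42) (.e (nat_lit 761867) (nat_lit 5) .nil)))))) (.g (nat_lit 6) .nil .nil))) 
(.lf (nat_lit 58364) (.g (nat_lit 2200) (.e (nat_lit 1454) (nat_lit 108) (.e (nat_lit 336224) (nat_lit 13) (.e (nat_lit 393234) (nat_lit 17) (.e (nat_lit 7593) (nat_lit 407) (.e (nat_lit 73772) (nat_lit 24) (.e (nat_lit 761867) (nat_lit 5) .nil)))))) (.g (nat_lit 0) .nil .nil))))))) (.nd (nat_lit 2) (.nd (nat_lit 3) (.nd (nat_lit 4) (.nd (nat_lit 5) 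
(.lf (nat_lit 58306) (.g (nat_lit 2596) (.e (nat_lit 1454) (nat_lit 108) (.e (nat_lit 336212) (nat_lit 13) (.e (nat_lit 393301) (nat_lit 27) (.e (nat_lit 491559) (nat_lit 10) (.e (nat_lit 344174) (nat_lit 42) .nil))))) .nil)) 
(.lf (nat_lit 58338) (.g (nat_lit 1884) (.e (nat_lit 1454) (nat_lit 108) (.e (nat_lit 336218) (nat_lit 13) (.e (nat_lit 393232) (nat_lit 17) (.e (nat_lit 7593) (nat_lit 407) (.e (nat_lit 73772) (nat_lit 24) (.e (nat_lit 761866) (nat_lit 5) .nil)))))) (.g (nat_lit 4) .nil .nil)))) (.nd (nat_lit 5) 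
(.lf (nat_lit 58322) (.g (nat_lit 1600) (.e (nat_lit 1454) (nat_lit 108) (.e (nat_lit 336217) (nat_lit 13) (.e (nat_lit 393231) (nat_lit 17) (.e (nat_lit 7593) (nat_lit 407) (.e (nat_lit 73772) (nat_lit 24) (.e (nat_lit 761866) (nat_lit 5) .nil)))))) (.g (nat_lit 5) .nil .nil))) 
(.lf (nat_lit 58354) (.g (nat_lit 2611) (.e (nat_lit 1454) (nat_lit 108) (.e (nat_lit 336219) (nat_lit 13) (.e (nat_lit 393301) (nat_lit 27) (.e (nat_lit 491560) (nat_lit 10) (.e (nat_lit 344173) (nat_lit 42) (.e (nat_lit 761867) (nat_lit 5) .nil)))))) (.g (nat_lit 5) .nil .nil))))) (.nd (nat_lit 4) (.nd (nat_lit 5) 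
(.lf (nat_lit 58314) (.g (nat_lit 1648) (.e (nat_lit 1454) (nat_lit 108) (.e (nat_lit 336216) (nat_lit 13) (.e (nat_lit 393233) (nat_lit 17) (.e (nat_lit 7593) (nat_lit 407) (.e (nat_lit 73772) (nat_lit 24) (.e (nat_lit 761866) (nat_lit 5) .nil)))))) (.g (nat_lit 4) .nil .nil))) 
(.lf (nat_lit 58346) (.g (nat_lit 2112) (.e (nat_lit 1454) (nat_lit 108) (.e (nat_lit 336219) (nat_lit 13) (.e (nat_lit 393234) (nat_lit 17) (.e (nat_lit 7593) (nat_lit 407) (.e (nat_lit 73772) (nat_lit 24) (.e (nat_lit 761867) (nat_lit 5) .nil)))))) (.g (nat_lit 6) .nil .nil)))) (.nd (nat_lit 5) 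
(.lf (nat_lit 58330) (.g (nat_lit 1822) (.e (nat_lit 1454) (nat_lit 108) (.e (nat_lit 336217) (nat_lit 13) (.e (nat_lit 393234) (nat_lit 17) (.e (nat_lit 7593) (nat_lit 407) (.e (nat_lit 73772) (nat_lit 24) (.e (nat_lit 761867) (nat_lit 5) .nil)))))) (.g (nat_lit 4) .nil .nil))) 
(.lf (nat_lit 58362) (.g (nat_lit 2085) (.e (nat_lit 1454) (nat_lit 108) (.e (nat_lit 336224) (nat_lit 13) (.e (nat_lit 393234) (nat_lit 17) (.e (nat_lit 7591) (nat_lit 407) (.e (nat_lit 73772) (nat_lit 24) (.e (nat_lit 761867) (nat_lit 5) .nil)))))) (.g (nat_lit 5) .nil .nil)))))) (.nd (nat_lit 3) (.nd (nat_lit 4) (.nd (nat_lit 5) 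
(.lf (nat_lit 58310) (.g (nat_lit 2764) (.e (nat_lit 1454) (nat_lit 108) (.e (nat_lit 336212) (nat_lit 13) (.e (nat_lit 393301) (nat_lit 27) (.e (nat_lit 491560) (nat_lit 10) (.e (nat_lit 344174) (nat_lit 42) (.e (nat_lit 761867) (nat_lit 5) .nil)))))) (.g (nat_lit 5) .nil .nil))) 
(.lf (nat_lit 58342) (.g (nat_lit 1855) (.e (nat_lit 1454) (nat_lit 108) (.e (nat_lit 336219) (nat_lit 13) (.e (nat_lit 393233) (nat_lit 17) (.e (nat_lit 7593) (nat_lit 407) (.e (nat_lit 73772) (nat_lit 24) (.e (nat_lit 761866) (nat_lit 5) .nil)))))) (.g (nat_lit 5) .nil .nil)))) (.nd (nat_lit 5) 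
(.lf (nat_lit 58326) (.g (nat_lit 2085) (.e (nat_lit 1454) (nat_lit 108) (.e (nat_lit 336217) (nat_lit 13) (.e (nat_lit 393232) (nat_lit 17) (.e (nat_lit 7593) (nat_lit 407) (.e (nat_lit 73772) (nat_lit 24) (.e (nat_lit 761867) (nat_lit 5) .nil)))))) (.g (nat_lit 6) .nil .nil))) 
(.lf (nat_lit 58358) (.g (nat_lit 1190) (.e (nat_lit 1454) (nat_lit 108) (.e (nat_lit 336224) (nat_lit 13) (.e (nat_lit 393231) (nat_lit 17) (.e (nat_lit 7593) (nat_lit 407) (.e (nat_lit 73772) (nat_lit 24) (.e (nat_lit 761867) (nat_lit 5) .nil)))))) (.g (nat_lit 4) .nil .nil))))) (.nd (nat_lit 4) (.nd (nat_lit 5) 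
(.lf (nat_lit 58318) (.g (nat_lit 2329) (.e (nat_lit 1454) (nat_lit 108) (.e (nat_lit 336216) (nat_lit 13) (.e (nat_lit 393234) (nat_lit 17) (.e (nat_lit 7593) (nat_lit 407) (.e (nat_lit 73772) (nat_lit 24) (.e (nat_lit 761867) (nat_lit 5) .nil)))))) (.g (nat_lit 5) .nil .nil))) 
(.lf (nat_lit 58350) (.g (nat_lit 2463) (.e (nat_lit 1454) (nat_lit 108) (.e (nat_lit 336219) (nat_lit 13) (.e (nat_lit 393300) (nat_lit 27) (.e (nat_lit 491560) (nat_lit 10) (.e (nat_lit 344174) (nat_lit 42) (.e (nat_lit 761867) (nat_lit 5) .nil)))))) (.g (nat_lit 5) .nil .nil)))) (.nd (nat_lit 5) 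
(.lf (nat_lit 58334) (.g (nat_lit 1311) (.e (nat_lit 1454) (nat_lit 108) (.e (nat_lit 336218) (nat_lit 13) (.e (nat_lit 393231) (nat_lit 17) (.e (nat_lit 7593) (nat_lit 407) (.e (nat_lit 73772) (nat_lit 24) (.e (nat_lit 761866) (nat_lit 5) .nil)))))) (.g (nat_lit 4) .nil .nil))) 
(.lf (nat_lit 58366) (.g (nat_lit 2035) (.e (nat_lit 1454) (nat_lit 108) (.e (nat_lit 336224) (nat_lit 13) (.e (nat_lit 393299) (nat_lit 27) (.e (nat_lit 491558) (nat_lit 10) (.e (nat_lit 344174) (nat_lit 42) .nil))))) .nil))))))) (.nd (nat_lit 1) (.nd (nat_lit 2) (.nd (nat_lit 3) (.nd (nat_lit 4) (.nd (nat_lit 5) 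
(.lf (nat_lit 58305) (.g (nat_lit 2397) (.e (nat_lit 1454) (nat_lit 108) (.e (nat_lit 336212) (nat_lit 13) (.e (nat_lit 393301) (nat_lit 27) (.e (nat_lit 491558) (nat_lit 10) (.e (nat_lit 344174) (nat_lit 42) (.e (nat_lit 761867) (nat_lit 5) .nil)))))) (.g (nat_lit 4) .nil .nil))) 
(.lf (nat_lit 58337) (.g (nat_lit 1431) (.e (nat_lit 1454) (nat_lit 108) (.e (nat_lit 336218) (nat_lit 13) (.e (nat_lit 393232) (nat_lit 17) (.e (nat_lit 7591) (nat_lit 407) (.e (nat_lit 73772) (nat_lit 24) (.e (nat_lit 761867) (nat_lit 5) .nil)))))) (.g (nat_lit 4) .nil .nil)))) (.nd (nat_lit 5) 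
(.lf (nat_lit 58321) (.g (nat_lit 2004) (.e (nat_lit 1454) (nat_lit 108) (.e (nat_lit 336216) (nat_lit 13) (.e (nat_lit 393300) (nat_lit 27) (.e (nat_lit 491560) (nat_lit 10) (.e (nat_lit 344174) (nat_lit 42) (.e (nat_lit 761867) (nat_lit 5) .nil)))))) (.g (nat_lit 4) .nil .nil))) 
(.lf (nat_lit 58353) (.g (nat_lit 2780) (.e (nat_lit 1454) (nat_lit 108) (.e (nat_lit 336219) (nat_lit 13) (.e (nat_lit 393301) (nat_lit 27) (.e (nat_lit 491559) (nat_lit 10) (.e (nat_lit 344174) (nat_lit 42) .nil))))) .nil)))) (.nd (nat_lit 4) (.nd (nat_lit 5) 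
(.lf (nat_lit 58313) (.g (nat_lit 1560) (.e (nat_lit 1454) (nat_lit 108) (.e (nat_lit 336216) (nat_lit 13) (.e (nat_lit 393233) (nat_lit 17) (.e (nat_lit 7591) (nat_lit 407) (.e (nat_lit 73772) (nat_lit 24) (.e (nat_lit 761866) (nat_lit 5) .nil)))))) (.g (nat_lit 4) .nil .nil))) 
(.lf (nat_lit 58345) (.g (nat_lit 2263) (.e (nat_lit 1454) (nat_lit 108) (.e (nat_lit 336219) (nat_lit 13) (.e (nat_lit 393234) (nat_lit 17) (.e (nat_lit 7593) (nat_lit 407) (.e (nat_lit 73772) (nat_lit 24) (.e (nat_lit 761866) (nat_lit 5) .nil)))))) (.g (nat_lit 6) .nil .nil)))) (.nd (nat_lit 5) 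
(.lf (nat_lit 58329) (.g (nat_lit 1978) (.e (nat_lit 1454) (nat_lit 108) (.e (nat_lit 336217) (nat_lit 13) (.e (nat_lit 393234) (nat_lit 17) (.e (nat_lit 7593) (nat_lit 407) (.e (nat_lit 73772) (nat_lit 24) (.e (nat_lit 761866) (nat_lit 5) .nil)))))) (.g (nat_lit 5) .nil .nil))) 
(.lf (nat_lit 58361) (.g (nat_lit 2213) (.e (nat_lit 1454) (nat_lit 108) (.e (nat_lit 336224) (nat_lit 13) (.e (nat_lit 393234) (nat_lit 17) (.e (nat_lit 7591) (nat_lit 407) (.e (nat_lit 73772) (nat_lit 24) (.e (nat_lit 761866) (nat_lit 5) .nil)))))) (.g (nat_lit 5) .nil .nil)))))) (.nd (nat_lit 3) (.nd (nat_lit 4) (.nd (nat_lit 5) 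
(.lf (nat_lit 58309) (.g (nat_lit 3055) (.e (nat_lit 1454) (nat_lit 108) (.e (nat_lit 336212) (nat_lit 13) (.e (nat_lit 393301) (nat_lit 27) (.e (nat_lit 491560) (nat_lit 10) (.e (nat_lit 344174) (nat_lit 42) (.e (nat_lit 761866) (nat_lit 5) .nil)))))) (.g (nat_lit 5) .nil .nil))) 
(.lf (nat_lit 58341) (.g (nat_lit 1572) (.e (nat_lit 1454) (nat_lit 108) (.e (nat_lit 336219) (nat_lit 13) (.e (nat_lit 393233) (nat_lit 17) (.e (nat_lit 7591) (nat_lit 407) (.e (nat_lit 73772) (nat_lit 24) (.e (nat_lit 761867) (nat_lit 5) .nil)))))) (.g (nat_lit 4) .nil .nil)))) (.nd (nat_lit 5) 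
(.lf (nat_lit 58325) (.g (nat_lit 1732) (.e (nat_lit 1454) (nat_lit 108) (.e (nat_lit 336217) (nat_lit 13) (.e (nat_lit 393232) (nat_lit 17) (.e (nat_lit 7591) (nat_lit 407) (.e (nat_lit 73772) (nat_lit 24) (.e (nat_lit 761867) (nat_lit 5) .nil)))))) (.g (nat_lit 5) .nil .nil))) 
(.lf (nat_lit 58357) (.g (nat_lit 1339) (.e (nat_lit 1454) (nat_lit 108) (.e (nat_lit 336224) (nat_lit 13) (.e (nat_lit 393231) (nat_lit 17) (.e (nat_lit 7593) (nat_lit 407) (.e (nat_lit 73772) (nat_lit 24) (.e (nat_lit 761866) (nat_lit 5) .nil)))))) (.g (nat_lit 4) .nil .nil))))) (.nd (nat_lit 4) (.nd (nat_lit 5) 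
(.lf (nat_lit 58317) (.g (nat_lit 1993) (.e (nat_lit 1454) (nat_lit 108) (.e (nat_lit 336216) (nat_lit 13) (.e (nat_lit 393234) (nat_lit 17) (.e (nat_lit 7591) (nat_lit 407) (.e (nat_lit 73772) (nat_lit 24) (.e (nat_lit 761867) (nat_lit 5) .nil)))))) (.g (nat_lit 4) .nil .nil))) 
(.lf (nat_lit 58349) (.g (nat_lit 2715) (.e (nat_lit 1454) (nat_lit 108) (.e (nat_lit 336219) (nat_lit 13) (.e (nat_lit 393300) (nat_lit 27) (.e (nat_lit 491560) (nat_lit 10) (.e (nat_lit 344174) (nat_lit 42) (.e (nat_lit 761866) (nat_lit 5) .nil)))))) (.g (nat_lit 6) .nil .nil)))) (.nd (nat_lit 5) 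
(.lf (nat_lit 58333) (.g (nat_lit 3408) (.e (nat_lit 1454) (nat_lit 108) (.e (nat_lit 336217) (nat_lit 13) (.e (nat_lit 393301) (nat_lit 27) (.e (nat_lit 491558) (nat_lit 10) (.e (nat_lit 344174) (nat_lit 42) (.e (nat_lit 761866) (nat_lit 5) .nil)))))) (.g (nat_lit 6) .nil .nil))) 
(.lf (nat_lit 58365) (.g (nat_lit 1416) (.e (nat_lit 1454) (nat_lit 108) (.e (nat_lit 336224) (nat_lit 13) (.e (nat_lit 393298) (nat_lit 27) (.e (nat_lit 491560) (nat_lit 10) .nil)))) .nil)))))) (.nd (nat_lit 2) (.nd (nat_lit 3) (.nd (nat_lit 4) (.nd (nat_lit 5) 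
(.lf (nat_lit 58307) (.g (nat_lit 2452) (.e (nat_lit 1454) (nat_lit 108) (.e (nat_lit 336212) (nat_lit 13) (.e (nat_lit 393301) (nat_lit 27) (.e (nat_lit 491560) (nat_lit 10) (.e (nat_lit 344173) (nat_lit 42) (.e (nat_lit 761866) (nat_lit 5) .nil)))))) (.g (nat_lit 4) .nil .nil))) 
(.lf (nat_lit 58339) (.g (nat_lit 1734) (.e (nat_lit 1454) (nat_lit 108) (.e (nat_lit 336218) (nat_lit 13) (.e (nat_lit 393232) (nat_lit 17) (.e (nat_lit 7593) (nat_lit 407) (.e (nat_lit 73772) (nat_lit 24) (.e (nat_lit 761867) (nat_lit 5) .nil)))))) (.g (nat_lit 4) .nil .nil)))) (.nd (nat_lit 5) 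
(.lf (nat_lit 58323) (.g (nat_lit 1446) (.e (nat_lit 1454) (nat_lit 108) (.e (nat_lit 336217) (nat_lit 13) (.e (nat_lit 393231) (nat_lit 17) (.e (nat_lit 7593) (nat_lit 407) (.e (nat_lit 73772) (nat_lit 24) (.e (nat_lit 761867) (nat_lit 5) .nil)))))) (.g (nat_lit 5) .nil .nil))) 
(.lf (nat_lit 58355) (.g (nat_lit 3657) (.e (nat_lit 1454) (nat_lit 108) (.e (nat_lit 336219) (nat_lit 13) (.e (nat_lit 393301) (nat_lit 27) (.e (nat_lit 491560) (nat_lit 10) (.e (nat_lit 344174) (nat_lit 42) (.e (nat_lit 761866) (nat_lit 5) .nil)))))) (.g (nat_lit 6) .nil .nil))))) (.nd (nat_lit 4) (.nd (nat_lit 5) 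
(.lf (nat_lit 58315) (.g (nat_lit 1487) (.e (nat_lit 1454) (nat_lit 108) (.e (nat_lit 336216) (nat_lit 13) (.e (nat_lit 393233) (nat_lit 17) (.e (nat_lit 7593) (nat_lit 407) (.e (nat_lit 73772) (nat_lit 24) (.e (nat_lit 761867) (nat_lit 5) .nil)))))) (.g (nat_lit 4) .nil .nil))) 
(.lf (nat_lit 58347) (.g (nat_lit 2701) (.e (nat_lit 1454) (nat_lit 108) (.e (nat_lit 336219) (nat_lit 13) (.e (nat_lit 393300) (nat_lit 27) (.e (nat_lit 491558) (nat_lit 10) (.e (nat_lit 344174) (nat_lit 42) (.e (nat_lit 761866) (nat_lit 5) .nil)))))) (.g (nat_lit 6) .nil .nil)))) (.nd (nat_lit 5) 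
(.lf (nat_lit 58331) (.g (nat_lit 2876) (.e (nat_lit 1454) (nat_lit 108) (.e (nat_lit 336217) (nat_lit 13) (.e (nat_lit 393299) (nat_lit 27) (.e (nat_lit 491558) (nat_lit 10) (.e (nat_lit 344174) (nat_lit 42) (.e (nat_lit 761866) (nat_lit 5) .nil)))))) (.g (nat_lit 6) .nil .nil))) 
(.lf (nat_lit 58363) (.g (nat_lit 2350) (.e (nat_lit 1454) (nat_lit 108) (.e (nat_lit 336224) (nat_lit 13) (.e (nat_lit 393234) (nat_lit 17) (.e (nat_lit 7593) (nat_lit 407) (.e (nat_lit 73772) (nat_lit 24) (.e (nat_lit 761866) (nat_lit 5) .nil)))))) (.g (nat_lit 0) .nil .nil)))))) (.nd (nat_lit 3) (.nd (nat_lit 4) (.nd (nat_lit 5) 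
(.lf (nat_lit 58311) (.g (nat_lit 1303) (.e (nat_lit 1454) (nat_lit 108) (.e (nat_lit 336216) (nat_lit 13) (.e (nat_lit 393232) (nat_lit 17) (.e (nat_lit 7593) (nat_lit 407) (.e (nat_lit 73772) (nat_lit 24) .nil))))) .nil)) 
(.lf (nat_lit 58343) (.g (nat_lit 1710) (.e (nat_lit 1454) (nat_lit 108) (.e (nat_lit 336219) (nat_lit 13) (.e (nat_lit 393233) (nat_lit 17) (.e (nat_lit 7593) (nat_lit 407) (.e (nat_lit 73772) (nat_lit 24) (.e (nat_lit 761867) (nat_lit 5) .nil)))))) (.g (nat_lit 4) .nil .nil)))) (.nd (nat_lit 5) 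
(.lf (nat_lit 58327) (.g (nat_lit 1983) (.e (nat_lit 1454) (nat_lit 108) (.e (nat_lit 336217) (nat_lit 13) (.e (nat_lit 393234) (nat_lit 17) (.e (nat_lit 7591) (nat_lit 407) (.e (nat_lit 73772) (nat_lit 24) (.e (nat_lit 761866) (nat_lit 5) .nil)))))) (.g (nat_lit 5) .nil .nil))) 
(.lf (nat_lit 58359) (.g (nat_lit 1421) (.e (nat_lit 1454) (nat_lit 108) (.e (nat_lit 336224) (nat_lit 13) (.e (nat_lit 393233) (nat_lit 17) (.e (nat_lit 7591) (nat_lit 407) (.e (nat_lit 73772) (nat_lit 24) .nil))))) .nil)))) (.nd (nat_lit 4) (.nd (nat_lit 5) 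
(.lf (nat_lit 58319) (.g (nat_lit 2383) (.e (nat_lit 1454) (nat_lit 108) (.e (nat_lit 336216) (nat_lit 13) (.e (nat_lit 393300) (nat_lit 27) (.e (nat_lit 491558) (nat_lit 10) (.e (nat_lit 344174) (nat_lit 42) (.e (nat_lit 761866) (nat_lit 5) .nil)))))) (.g (nat_lit 5) .nil .nil))) 
(.lf (nat_lit 58351) (.g (nat_lit 3468) (.e (nat_lit 1454) (nat_lit 108) (.e (nat_lit 336219) (nat_lit 13) (.e (nat_lit 393301) (nat_lit 27) (.e (nat_lit 491558) (nat_lit 10) (.e (nat_lit 344174) (nat_lit 42) (.e (nat_lit 761866) (nat_lit 5) .nil)))))) (.g (nat_lit 6) .nil .nil)))) (.nd (nat_lit 5) 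
(.lf (nat_lit 58335) (.g (nat_lit 1161) (.e (nat_lit 1454) (nat_lit 108) (.e (nat_lit 336218) (nat_lit 13) (.e (nat_lit 393231) (nat_lit 17) (.e (nat_lit 7593) (nat_lit 407) (.e (nat_lit 73772) (nat_lit 24) (.e (nat_lit 761867) (nat_lit 5) .nil)))))) (.g (nat_lit 4) .nil .nil))) 
(.lf (nat_lit 58367) (.g (nat_lit 2107) (.e (nat_lit 1454) (nat_lit 108) (.e (nat_lit 336224) (nat_lit 13) (.e (nat_lit 393300) (nat_lit 27) (.e (nat_lit 491558) (nat_lit 10) (.e (nat_lit 344174) (nat_lit 42) (.e (nat_lit 761866) (nat_lit 5) .nil)))))) (.g (nat_lit 4) .nil .nil)))))))))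

noncomputable def tv804 : DT := (.nd (nat_lit 0) (.nd (nat_lit 1) (.nd (nat_lit 2) (.nd (nat_lit 3) (.nd (nat_lit 4) (.nd (nat_lit 5) 
(.lf (nat_lit 58368) (.g (nat_lit 1842) (.e (nat_lit 1454) (nat_lit 108) (.e (nat_lit 336224) (nat_lit 13) (.e (nat_lit 393300) (nat_lit 27) (.e (nat_lit 491558) (nat_lit 10) (.e (nat_lit 344174) (nat_lit 42) (.e (nat_lit 761867) (nat_lit 5) .nil)))))) (.g (nat_lit 4) .nil .nil))) 
(.lf (nat_lit 58400) (.g (nat_lit 4647) (.e (nat_lit 1454) (nat_lit 108) (.e (nat_lit 336295) (nat_lit 15) (.e (nat_lit 3305) (nat_lit 202) (.e (nat_lit 573491) (nat_lit 15) (.e (nat_lit 81954) (nat_lit 23) (.e (nat_lit 98321) (nat_lit 17) (.e (nat_lit 7936) (nat_lit 402) .nil))))))) (.g (nat_lit 6) .nil .nil)))) (.nd (nat_lit 5) 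
(.lf (nat_lit 58384) (.g (nat_lit 4071) (.e (nat_lit 1454) (nat_lit 108) (.e (nat_lit 336295) (nat_lit 15) (.e (nat_lit 3305) (nat_lit 202) (.e (nat_lit 573484) (nat_lit 13) (.e (nat_lit 65610) (nat_lit 10) (.e (nat_lit 344117) (nat_lit 21) (.e (nat_lit 516098) (nat_lit 0) (.e (nat_lit 7936) (nat_lit 402) .nil)))))))) (.g (nat_lit 7) .nil .nil))) 
(.lf (nat_lit 58416) (.g (nat_lit 1950) (.e (nat_lit 1454) (nat_lit 108) (.e (nat_lit 336389) (nat_lit 27) (.e (nat_lit 426012) (nat_lit 0) (.e (nat_lit 7587) (nat_lit 406) (.e (nat_lit 65632) (nat_lit 15) (.e (nat_lit 7081) (nat_lit 378) (.e (nat_lit 57884) (nat_lit 270) .nil))))))) (.g (nat_lit 4) .nil .nil))))) (.nd (nat_lit 4) (.nd (nat_lit 5) 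
(.lf (nat_lit 58376) (.g (nat_lit 2078) (.e (nat_lit 1454) (nat_lit 108) (.e (nat_lit 336228) (nat_lit 14) (.e (nat_lit 401459) (nat_lit 13) (.e (nat_lit 483380) (nat_lit 23) (.e (nat_lit 336355) (nat_lit 24) (.e (nat_lit 262147) (nat_lit 0) .nil)))))) (.g (nat_lit 4) .nil .nil))) 
(.lf (nat_lit 58408) (.g (nat_lit 4165) (.e (nat_lit 1454) (nat_lit 108) (.e (nat_lit 336295) (nat_lit 15) (.e (nat_lit 3632) (nat_lit 227) (.e (nat_lit 778317) (nat_lit 3) (.e (nat_lit 57477) (nat_lit 28) (.e (nat_lit 557108) (nat_lit 15) (.e (nat_lit 188449) (nat_lit 22) (.e (nat_lit 204544) (nat_lit 9) .nil)))))))) (.g (nat_lit 7) .nil .nil)))) (.nd (nat_lit 5) 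
(.lf (nat_lit 58392) (.g (nat_lit 4429) (.e (nat_lit 1454) (nat_lit 108) (.e (nat_lit 336295) (nat_lit 15) (.e (nat_lit 3305) (nat_lit 202) (.e (nat_lit 573485) (nat_lit 13) (.e (nat_lit 65619) (nat_lit 10) (.e (nat_lit 344117) (nat_lit 21) (.e (nat_lit 516097) (nat_lit 0) (.e (nat_lit 7493) (nat_lit 402) .nil)))))))) (.g (nat_lit 6) .nil .nil))) 
(.lf (nat_lit 58424) (.g (nat_lit 453) (.e (nat_lit 1454) (nat_lit 108) (.e (nat_lit 336389) (nat_lit 27) (.e (nat_lit 426308) (nat_lit 12) .nil))) .nil))))) (.nd (nat_lit 3) (.nd (nat_lit 4) (.nd (nat_lit 5) 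
(.lf (nat_lit 58372) (.g (nat_lit 3206) (.e (nat_lit 1454) (nat_lit 108) (.e (nat_lit 336224) (nat_lit 13) (.e (nat_lit 393301) (nat_lit 27) (.e (nat_lit 491560) (nat_lit 10) (.e (nat_lit 344174) (nat_lit 42) (.e (nat_lit 761866) (nat_lit 5) .nil)))))) (.g (nat_lit 5) .nil .nil))) 
(.lf (nat_lit 58404) (.g (nat_lit 3647) (.e (nat_lit 1454) (nat_lit 108) (.e (nat_lit 336295) (nat_lit 15) (.e (nat_lit 3305) (nat_lit 202) (.e (nat_lit 573493) (nat_lit 15) (.e (nat_lit 81956) (nat_lit 23) (.e (nat_lit 98320) (nat_lit 17) (.e (nat_lit 7491) (nat_lit 402) .nil))))))) (.g (nat_lit 4) .nil .nil)))) (.nd (nat_lit 5) 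
(.lf (nat_lit 58388) (.g (nat_lit 4061) (.e (nat_lit 1454) (nat_lit 108) (.e (nat_lit 336295) (nat_lit 15) (.e (nat_lit 3305) (nat_lit 202) (.e (nat_lit 573485) (nat_lit 13) (.e (nat_lit 65604) (nat_lit 9) (.e (nat_lit 336013) (nat_lit 2) (.e (nat_lit 90165) (nat_lit 12) (.e (nat_lit 171776) (nat_lit 187) .nil)))))))) (.g (nat_lit 6) .nil .nil))) 
(.lf (nat_lit 58420) (.g (nat_lit 2894) (.e (nat_lit 1454) (nat_lit 108) (.e (nat_lit 336389) (nat_lit 27) (.e (nat_lit 426306) (nat_lit 12) (.e (nat_lit 475201) (nat_lit 40) (.e (nat_lit 704839) (nat_lit 15) (.e (nat_lit 57813) (nat_lit 246) (.e (nat_lit 57884) (nat_lit 270) .nil))))))) (.g (nat_lit 4) .nil .nil))))) (.nd (nat_lit 4) (.nd (nat_lit 5) 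
(.lf (nat_lit 58380) (.g (nat_lit 2059) (.e (nat_lit 1454) (nat_lit 108) (.e (nat_lit 336295) (nat_lit 15) (.e (nat_lit 3305) (nat_lit 202) (.e (nat_lit 573482) (nat_lit 13) .nil)))) .nil)) 
(.lf (nat_lit 58412) (.g (nat_lit 637) (.e (nat_lit 1454) (nat_lit 108) (.e (nat_lit 336295) (nat_lit 15) (.e (nat_lit 7021) (nat_lit 377) .nil))) .nil))) (.nd (nat_lit 5) 
(.lf (nat_lit 58396) (.g (nat_lit 3147) (.e (nat_lit 1454) (nat_lit 108) (.e (nat_lit 336295) (nat_lit 15) (.e (nat_lit 3305) (nat_lit 202) (.e (nat_lit 573485) (nat_lit 13) (.e (nat_lit 65619) (nat_lit 10) (.e (nat_lit 344117) (nat_lit 21) (.e (nat_lit 516098) (nat_lit 0) (.e (nat_lit 7493) (nat_lit 402) .nil)))))))) (.g (nat_lit 5) .nil .nil))) 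
(.lf (nat_lit 58428) (.g (nat_lit 1248) (.e (nat_lit 1454) (nat_lit 108) (.e (nat_lit 336389) (nat_lit 27) (.e (nat_lit 426308) (nat_lit 12) (.e (nat_lit 475210) (nat_lit 41) .nil)))) .nil)))))) (.nd (nat_lit 2) (.nd (nat_lit 3) (.nd (nat_lit 4) (.nd (nat_lit 5) 
(.lf (nat_lit 58370) (.g (nat_lit 3203) (.e (nat_lit 1454) (nat_lit 108) (.e (nat_lit 336224) (nat_lit 13) (.e (nat_lit 393301) (nat_lit 27) (.e (nat_lit 491558) (nat_lit 10) (.e (nat_lit 344174) (nat_lit 42) (.e (nat_lit 761866) (nat_lit 5) .nil)))))) (.g (nat_lit 0) .nil .nil))) 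
(.lf (nat_lit 58402) (.g (nat_lit 3183) (.e (nat_lit 1454) (nat_lit 108) (.e (nat_lit 336295) (nat_lit 15) (.e (nat_lit 3305) (nat_lit 202) (.e (nat_lit 573492) (nat_lit 15) (.e (nat_lit 81956) (nat_lit 23) (.e (nat_lit 98321) (nat_lit 17) (.e (nat_lit 7936) (nat_lit 402) .nil))))))) (.g (nat_lit 4) .nil .nil)))) (.nd (nat_lit 5) 
(.lf (nat_lit 58386) (.g (nat_lit 3466) (.e (nat_lit 1454) (nat_lit 108) (.e (nat_lit 336295) (nat_lit 15) (.e (nat_lit 3305) (nat_lit 202) (.e (nat_lit 573484) (nat_lit 13) (.e (nat_lit 65610) (nat_lit 10) (.e (nat_lit 344117) (nat_lit 21) (.e (nat_lit 516102) (nat_lit 0) (.e (nat_lit 7936) (nat_lit 402) .nil)))))))) (.g (nat_lit 7) .nil .nil))) 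
(.lf (nat_lit 58418) (.g (nat_lit 2616) (.e (nat_lit 1454) (nat_lit 108) (.e (nat_lit 336389) (nat_lit 27) (.e (nat_lit 426012) (nat_lit 0) (.e (nat_lit 7589) (nat_lit 406) (.e (nat_lit 65632) (nat_lit 15) (.e (nat_lit 7081) (nat_lit 378) (.e (nat_lit 57884) (nat_lit 270) .nil))))))) (.g (nat_lit 7) .nil .nil))))) (.nd (nat_lit 4) (.nd (nat_lit 5) 
(.lf (nat_lit 58378) (.g (nat_lit 3589) (.e (nat_lit 1454) (nat_lit 108) (.e (nat_lit 336295) (nat_lit 15) (.e (nat_lit 7936) (nat_lit 195) (.e (nat_lit 516160) (nat_lit 10) (.e (nat_lit 434248) (nat_lit 28) (.e (nat_lit 573489) (nat_lit 14) (.e (nat_lit 73755) (nat_lit 8) (.e (nat_lit 564992) (nat_lit 0) .nil)))))))) (.g (nat_lit 6) .nil .nil))) 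
(.lf (nat_lit 58410) (.g (nat_lit 3926) (.e (nat_lit 1454) (nat_lit 108) (.e (nat_lit 336295) (nat_lit 15) (.e (nat_lit 3632) (nat_lit 227) (.e (nat_lit 778320) (nat_lit 4) (.e (nat_lit 65630) (nat_lit 14) (.e (nat_lit 401454) (nat_lit 12) (.e (nat_lit 483072) (nat_lit 8) .nil))))))) (.g (nat_lit 6) .nil .nil)))) (.nd (nat_lit 5) 
(.lf (nat_lit 58394) (.g (nat_lit 3177) (.e (nat_lit 1454) (nat_lit 108) (.e (nat_lit 336295) (nat_lit 15) (.e (nat_lit 3305) (nat_lit 202) (.e (nat_lit 573485) (nat_lit 13) (.e (nat_lit 65619) (nat_lit 10) (.e (nat_lit 344117) (nat_lit 21) (.e (nat_lit 516098) (nat_lit 0) (.e (nat_lit 7486) (nat_lit 402) .nil)))))))) (.g (nat_lit 5) .nil .nil))) 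
(.lf (nat_lit 58426) (.g (nat_lit 2538) (.e (nat_lit 1454) (nat_lit 108) (.e (nat_lit 336389) (nat_lit 27) (.e (nat_lit 426308) (nat_lit 12) (.e (nat_lit 475201) (nat_lit 40) (.e (nat_lit 704839) (nat_lit 15) (.e (nat_lit 57813) (nat_lit 246) (.e (nat_lit 57884) (nat_lit 270) .nil))))))) (.g (nat_lit 4) .nil .nil)))))) (.nd (nat_lit 3) (.nd (nat_lit 4) (.nd (nat_lit 5) 
(.lf (nat_lit 58374) (.g (nat_lit 1793) (.e (nat_lit 1454) (nat_lit 108) (.e (nat_lit 343808) (nat_lit 13) (.e (nat_lit 393301) (nat_lit 27) (.e (nat_lit 491560) (nat_lit 10) (.e (nat_lit 344173) (nat_lit 42) (.e (nat_lit 761866) (nat_lit 5) .nil)))))) (.g (nat_lit 4) .nil .nil))) 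
(.lf (nat_lit 58406) (.g (nat_lit 3106) (.e (nat_lit 1454) (nat_lit 108) (.e (nat_lit 336295) (nat_lit 15) (.e (nat_lit 3305) (nat_lit 202) (.e (nat_lit 573493) (nat_lit 15) (.e (nat_lit 81956) (nat_lit 23) (.e (nat_lit 98325) (nat_lit 17) (.e (nat_lit 7936) (nat_lit 402) .nil))))))) (.g (nat_lit 4) .nil .nil)))) (.nd (nat_lit 5) 
(.lf (nat_lit 58390) (.g (nat_lit 3543) (.e (nat_lit 1454) (nat_lit 108) (.e (nat_lit 336295) (nat_lit 15) (.e (nat_lit 3305) (nat_lit 202) (.e (nat_lit 573485) (nat_lit 13) (.e (nat_lit 65619) (nat_lit 10) (.e (nat_lit 344117) (nat_lit 21) (.e (nat_lit 516097) (nat_lit 0) (.e (nat_lit 7486) (nat_lit 402) .nil)))))))) (.g (nat_lit 5) .nil .nil))) 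
(.lf (nat_lit 58422) (.g (nat_lit 3095) (.e (nat_lit 1454) (nat_lit 108) (.e (nat_lit 336389) (nat_lit 27) (.e (nat_lit 426306) (nat_lit 12) (.e (nat_lit 475201) (nat_lit 40) (.e (nat_lit 704841) (nat_lit 15) (.e (nat_lit 57813) (nat_lit 246) (.e (nat_lit 57884) (nat_lit 270) .nil))))))) (.g (nat_lit 4) .nil .nil))))) (.nd (nat_lit 4) (.nd (nat_lit 5) 
(.lf (nat_lit 58382) (.g (nat_lit 4491) (.e (nat_lit 1454) (nat_lit 108) (.e (nat_lit 336295) (nat_lit 15) (.e (nat_lit 3305) (nat_lit 202) (.e (nat_lit 573484) (nat_lit 13) (.e (nat_lit 65610) (nat_lit 10) (.e (nat_lit 344117) (nat_lit 21) (.e (nat_lit 516097) (nat_lit 0) (.e (nat_lit 7936) (nat_lit 402) .nil)))))))) (.g (nat_lit 7) .nil .nil))) 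
(.lf (nat_lit 58414) (.g (nat_lit 1891) (.e (nat_lit 1454) (nat_lit 108) (.e (nat_lit 336389) (nat_lit 27) (.e (nat_lit 426012) (nat_lit 0) (.e (nat_lit 7587) (nat_lit 406) (.e (nat_lit 65632) (nat_lit 15) (.e (nat_lit 7077) (nat_lit 378) (.e (nat_lit 57884) (nat_lit 270) .nil))))))) (.g (nat_lit 4) .nil .nil)))) (.nd (nat_lit 5) 
(.lf (nat_lit 58398) (.g (nat_lit 3151) (.e (nat_lit 1454) (nat_lit 108) (.e (nat_lit 336295) (nat_lit 15) (.e (nat_lit 3305) (nat_lit 202) (.e (nat_lit 573485) (nat_lit 13) (.e (nat_lit 65619) (nat_lit 10) (.e (nat_lit 344117) (nat_lit 21) (.e (nat_lit 516106) (nat_lit 0) (.e (nat_lit 7936) (nat_lit 402) .nil)))))))) (.g (nat_lit 5) .nil .nil))) 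
(.lf (nat_lit 58430) (.g (nat_lit 593) (.e (nat_lit 1454) (nat_lit 108) (.e (nat_lit 336389) (nat_lit 27) (.e (nat_lit 426338) (nat_lit 14) .nil))) .nil))))))) (.nd (nat_lit 1) (.nd (nat_lit 2) (.nd (nat_lit 3) (.nd (nat_lit 4) (.nd (nat_lit 5) 
(.lf (nat_lit 58369) (.g (nat_lit 2016) (.e (nat_lit 1454) (nat_lit 108) (.e (nat_lit 336224) (nat_lit 13) (.e (nat_lit 393300) (nat_lit 27) (.e (nat_lit 491560) (nat_lit 10) (.e (nat_lit 344174) (nat_lit 42) (.e (nat_lit 761866) (nat_lit 5) .nil)))))) (.g (nat_lit 4) .nil .nil))) 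
(.lf (nat_lit 58401) (.g (nat_lit 3473) (.e (nat_lit 1454) (nat_lit 108) (.e (nat_lit 336295) (nat_lit 15) (.e (nat_lit 3305) (nat_lit 202) (.e (nat_lit 573491) (nat_lit 15) (.e (nat_lit 81956) (nat_lit 23) (.e (nat_lit 98320) (nat_lit 17) (.e (nat_lit 7491) (nat_lit 402) .nil))))))) (.g (nat_lit 4) .nil .nil)))) (.nd (nat_lit 5) 
(.lf (nat_lit 58385) (.g (nat_lit 3620) (.e (nat_lit 1454) (nat_lit 108) (.e (nat_lit 336295) (nat_lit 15) (.e (nat_lit 3305) (nat_lit 202) (.e (nat_lit 573484) (nat_lit 13) (.e (nat_lit 65610) (nat_lit 10) (.e (nat_lit 344117) (nat_lit 21) (.e (nat_lit 516099) (nat_lit 0) (.e (nat_lit 7936) (nat_lit 402) .nil)))))))) (.g (nat_lit 7) .nil .nil))) 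
(.lf (nat_lit 58417) (.g (nat_lit 2527) (.e (nat_lit 1454) (nat_lit 108) (.e (nat_lit 336389) (nat_lit 27) (.e (nat_lit 426012) (nat_lit 0) (.e (nat_lit 7589) (nat_lit 406) (.e (nat_lit 65632) (nat_lit 15) (.e (nat_lit 7077) (nat_lit 378) (.e (nat_lit 57884) (nat_lit 270) .nil))))))) (.g (nat_lit 7) .nil .nil))))) (.nd (nat_lit 4) (.nd (nat_lit 5) 
(.lf (nat_lit 58377) (.g (nat_lit 2409) (.e (nat_lit 1454) (nat_lit 108) (.e (nat_lit 336295) (nat_lit 15) (.e (nat_lit 7936) (nat_lit 195) (.e (nat_lit 516160) (nat_lit 10) (.e (nat_lit 434246) (nat_lit 28) (.e (nat_lit 573489) (nat_lit 14) (.e (nat_lit 73755) (nat_lit 8) (.e (nat_lit 564992) (nat_lit 0) .nil)))))))) (.g (nat_lit 5) .nil .nil))) 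
(.lf (nat_lit 58409) (.g (nat_lit 4274) (.e (nat_lit 1454) (nat_lit 108) (.e (nat_lit 336295) (nat_lit 15) (.e (nat_lit 3632) (nat_lit 227) (.e (nat_lit 778317) (nat_lit 3) (.e (nat_lit 57480) (nat_lit 28) (.e (nat_lit 557109) (nat_lit 15) (.e (nat_lit 188449) (nat_lit 22) (.e (nat_lit 204544) (nat_lit 9) .nil)))))))) (.g (nat_lit 7) .nil .nil)))) (.nd (nat_lit 5) 
(.lf (nat_lit 58393) (.g (nat_lit 4031) (.e (nat_lit 1454) (nat_lit 108) (.e (nat_lit 336295) (nat_lit 15) (.e (nat_lit 3305) (nat_lit 202) (.e (nat_lit 573485) (nat_lit 13) (.e (nat_lit 65619) (nat_lit 10) (.e (nat_lit 344117) (nat_lit 21) (.e (nat_lit 516097) (nat_lit 0) (.e (nat_lit 7936) (nat_lit 402) .nil)))))))) (.g (nat_lit 6) .nil .nil))) 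
(.lf (nat_lit 58425) (.g (nat_lit 1586) (.e (nat_lit 1454) (nat_lit 108) (.e (nat_lit 336389) (nat_lit 27) (.e (nat_lit 426308) (nat_lit 12) (.e (nat_lit 475200) (nat_lit 40) .nil)))) .nil))))) (.nd (nat_lit 3) (.nd (nat_lit 4) (.nd (nat_lit 5) 
(.lf (nat_lit 58373) (.g (nat_lit 2955) (.e (nat_lit 1454) (nat_lit 108) (.e (nat_lit 336224) (nat_lit 13) (.e (nat_lit 393301) (nat_lit 27) (.e (nat_lit 491560) (nat_lit 10) (.e (nat_lit 344174) (nat_lit 42) (.e (nat_lit 761867) (nat_lit 5) .nil)))))) (.g (nat_lit 5) .nil .nil))) 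
(.lf (nat_lit 58405) (.g (nat_lit 5520) (.e (nat_lit 1454) (nat_lit 108) (.e (nat_lit 336295) (nat_lit 15) (.e (nat_lit 3305) (nat_lit 202) (.e (nat_lit 573493) (nat_lit 15) (.e (nat_lit 81956) (nat_lit 23) (.e (nat_lit 98321) (nat_lit 17) (.e (nat_lit 7936) (nat_lit 402) .nil))))))) (.g (nat_lit 5) .nil .nil)))) (.nd (nat_lit 5) 
(.lf (nat_lit 58389) (.g (nat_lit 4839) (.e (nat_lit 1454) (nat_lit 108) (.e (nat_lit 336295) (nat_lit 15) (.e (nat_lit 3305) (nat_lit 202) (.e (nat_lit 573485) (nat_lit 13) (.e (nat_lit 65604) (nat_lit 9) (.e (nat_lit 336028) (nat_lit 3) (.e (nat_lit 98325) (nat_lit 17) (.e (nat_lit 7936) (nat_lit 402) .nil)))))))) (.g (nat_lit 7) .nil .nil))) 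
(.lf (nat_lit 58421) (.g (nat_lit 2311) (.e (nat_lit 1454) (nat_lit 108) (.e (nat_lit 336389) (nat_lit 27) (.e (nat_lit 426306) (nat_lit 12) (.e (nat_lit 475201) (nat_lit 40) (.e (nat_lit 704841) (nat_lit 15) .nil))))) .nil)))) (.nd (nat_lit 4) (.nd (nat_lit 5) 
(.lf (nat_lit 58381) (.g (nat_lit 2952) (.e (nat_lit 1454) (nat_lit 108) (.e (nat_lit 336295) (nat_lit 15) (.e (nat_lit 3305) (nat_lit 202) (.e (nat_lit 573482) (nat_lit 13) (.e (nat_lit 65604) (nat_lit 9) (.e (nat_lit 336028) (nat_lit 3) (.e (nat_lit 98325) (nat_lit 17) (.e (nat_lit 7936) (nat_lit 402) .nil)))))))) (.g (nat_lit 4) .nil .nil))) 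
(.lf (nat_lit 58413) (.g (nat_lit 2553) (.e (nat_lit 1454) (nat_lit 108) (.e (nat_lit 336389) (nat_lit 27) (.e (nat_lit 426011) (nat_lit 0) (.e (nat_lit 7589) (nat_lit 406) (.e (nat_lit 65647) (nat_lit 25) (.e (nat_lit 409603) (nat_lit 0) (.e (nat_lit 5293) (nat_lit 298) .nil))))))) (.g (nat_lit 4) .nil .nil)))) (.nd (nat_lit 5) 
(.lf (nat_lit 58397) (.g (nat_lit 3065) (.e (nat_lit 1454) (nat_lit 108) (.e (nat_lit 336295) (nat_lit 15) (.e (nat_lit 3305) (nat_lit 202) (.e (nat_lit 573485) (nat_lit 13) (.e (nat_lit 65619) (nat_lit 10) (.e (nat_lit 344117) (nat_lit 21) (.e (nat_lit 516098) (nat_lit 0) (.e (nat_lit 7936) (nat_lit 402) .nil)))))))) (.g (nat_lit 5) .nil .nil))) 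
(.lf (nat_lit 58429) (.g (nat_lit 599) (.e (nat_lit 1454) (nat_lit 108) (.e (nat_lit 336389) (nat_lit 27) (.e (nat_lit 426316) (nat_lit 12) .nil))) .nil)))))) (.nd (nat_lit 2) (.nd (nat_lit 3) (.nd (nat_lit 4) (.nd (nat_lit 5) 
(.lf (nat_lit 58371) (.g (nat_lit 2939) (.e (nat_lit 1454) (nat_lit 108) (.e (nat_lit 336224) (nat_lit 13) (.e (nat_lit 393301) (nat_lit 27) (.e (nat_lit 491558) (nat_lit 10) (.e (nat_lit 344174) (nat_lit 42) (.e (nat_lit 761867) (nat_lit 5) .nil)))))) (.g (nat_lit 0) .nil .nil))) 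
(.lf (nat_lit 58403) (.g (nat_lit 2844) (.e (nat_lit 1454) (nat_lit 108) (.e (nat_lit 336295) (nat_lit 15) (.e (nat_lit 3305) (nat_lit 202) (.e (nat_lit 573493) (nat_lit 15) (.e (nat_lit 81956) (nat_lit 23) .nil))))) .nil))) (.nd (nat_lit 5) 
(.lf (nat_lit 58387) (.g (nat_lit 4364) (.e (nat_lit 1454) (nat_lit 108) (.e (nat_lit 336295) (nat_lit 15) (.e (nat_lit 3305) (nat_lit 202) (.e (nat_lit 573484) (nat_lit 13) (.e (nat_lit 65610) (nat_lit 10) (.e (nat_lit 344117) (nat_lit 21) (.e (nat_lit 516106) (nat_lit 0) (.e (nat_lit 7936) (nat_lit 402) .nil)))))))) (.g (nat_lit 7) .nil .nil))) 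
(.lf (nat_lit 58419) (.g (nat_lit 3390) (.e (nat_lit 1454) (nat_lit 108) (.e (nat_lit 336389) (nat_lit 27) (.e (nat_lit 426305) (nat_lit 12) (.e (nat_lit 475198) (nat_lit 40) (.e (nat_lit 704595) (nat_lit 5) (.e (nat_lit 188160) (nat_lit 32) .nil)))))) (.g (nat_lit 5) .nil .nil))))) (.nd (nat_lit 4) (.nd (nat_lit 5) 
(.lf (nat_lit 58379) (.g (nat_lit 2225) (.e (nat_lit 1454) (nat_lit 108) (.e (nat_lit 336295) (nat_lit 15) (.e (nat_lit 3305) (nat_lit 202) (.e (nat_lit 573479) (nat_lit 13) .nil)))) .nil)) 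
(.lf (nat_lit 58411) (.g (nat_lit 3359) (.e (nat_lit 1454) (nat_lit 108) (.e (nat_lit 336295) (nat_lit 15) (.e (nat_lit 3632) (nat_lit 227) (.e (nat_lit 778324) (nat_lit 5) (.e (nat_lit 73781) (nat_lit 32) (.e (nat_lit 3067) (nat_lit 190) (.e (nat_lit 483072) (nat_lit 8) .nil))))))) (.g (nat_lit 5) .nil .nil)))) (.nd (nat_lit 5) 
(.lf (nat_lit 58395) (.g (nat_lit 3595) (.e (nat_lit 1454) (nat_lit 108) (.e (nat_lit 336295) (nat_lit 15) (.e (nat_lit 3305) (nat_lit 202) (.e (nat_lit 573485) (nat_lit 13) (.e (nat_lit 65619) (nat_lit 10) (.e (nat_lit 344117) (nat_lit 21) (.e (nat_lit 516098) (nat_lit 0) (.e (nat_lit 7491) (nat_lit 402) .nil)))))))) (.g (nat_lit 5) .nil .nil))) 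
(.lf (nat_lit 58427) (.g (nat_lit 1978) (.e (nat_lit 1454) (nat_lit 108) (.e (nat_lit 336389) (nat_lit 27) (.e (nat_lit 426308) (nat_lit 12) (.e (nat_lit 475201) (nat_lit 40) (.e (nat_lit 704841) (nat_lit 15) .nil))))) .nil))))) (.nd (nat_lit 3) (.nd (nat_lit 4) (.nd (nat_lit 5) 
(.lf (nat_lit 58375) (.g (nat_lit 2990) (.e (nat_lit 1454) (nat_lit 108) (.e (nat_lit 336228) (nat_lit 14) (.e (nat_lit 401459) (nat_lit 13) (.e (nat_lit 483380) (nat_lit 23) (.e (nat_lit 336355) (nat_lit 24) (.e (nat_lit 262145) (nat_lit 0) .nil)))))) (.g (nat_lit 6) .nil .nil))) 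
(.lf (nat_lit 58407) (.g (nat_lit 4621) (.e (nat_lit 1454) (nat_lit 108) (.e (nat_lit 336295) (nat_lit 15) (.e (nat_lit 3632) (nat_lit 227) (.e (nat_lit 778317) (nat_lit 3) (.e (nat_lit 57476) (nat_lit 28) (.e (nat_lit 557108) (nat_lit 15) (.e (nat_lit 188449) (nat_lit 22) (.e (nat_lit 204544) (nat_lit 9) .nil)))))))) (.g (nat_lit 7) .nil .nil)))) (.nd (nat_lit 5) 
(.lf (nat_lit 58391) (.g (nat_lit 4038) (.e (nat_lit 1454) (nat_lit 108) (.e (nat_lit 336295) (nat_lit 15) (.e (nat_lit 3305) (nat_lit 202) (.e (nat_lit 573485) (nat_lit 13) (.e (nat_lit 65619) (nat_lit 10) (.e (nat_lit 344117) (nat_lit 21) (.e (nat_lit 516097) (nat_lit 0) (.e (nat_lit 7491) (nat_lit 402) .nil)))))))) (.g (nat_lit 6) .nil .nil))) 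
(.lf (nat_lit 58423) (.g (nat_lit 1843) (.e (nat_lit 1454) (nat_lit 108) (.e (nat_lit 336389) (nat_lit 27) (.e (nat_lit 426306) (nat_lit 12) (.e (nat_lit 475211) (nat_lit 41) .nil)))) .nil)))) (.nd (nat_lit 4) (.nd (nat_lit 5) 
(.lf (nat_lit 58383) (.g (nat_lit 3848) (.e (nat_lit 1454) (nat_lit 108) (.e (nat_lit 336295) (nat_lit 15) (.e (nat_lit 3305) (nat_lit 202) (.e (nat_lit 573484) (nat_lit 13) (.e (nat_lit 65610) (nat_lit 10) (.e (nat_lit 344117) (nat_lit 21) (.e (nat_lit 516098) (nat_lit 0) (.e (nat_lit 7493) (nat_lit 402) .nil)))))))) (.g (nat_lit 7) .nil .nil))) 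
(.lf (nat_lit 58415) (.g (nat_lit 1853) (.e (nat_lit 1454) (nat_lit 108) (.e (nat_lit 336389) (nat_lit 27) (.e (nat_lit 426012) (nat_lit 0) (.e (nat_lit 7587) (nat_lit 406) (.e (nat_lit 65632) (nat_lit 15) (.e (nat_lit 7079) (nat_lit 378) (.e (nat_lit 57884) (nat_lit 270) .nil))))))) (.g (nat_lit 4) .nil .nil)))) (.nd (nat_lit 5) 
(.lf (nat_lit 58399) (.g (nat_lit 2525) (.e (nat_lit 1454) (nat_lit 108) (.e (nat_lit 336295) (nat_lit 15) (.e (nat_lit 3305) (nat_lit 202) (.e (nat_lit 573485) (nat_lit 13) (.e (nat_lit 65619) (nat_lit 10) (.e (nat_lit 344129) (nat_lit 26) (.e (nat_lit 557084) (nat_lit 10) (.e (nat_lit 16128) (nat_lit 250) .nil)))))))) (.g (nat_lit 4) .nil .nil))) 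
(.lf (nat_lit 58431) (.g (nat_lit 600) (.e (nat_lit 1454) (nat_lit 108) (.e (nat_lit 336389) (nat_lit 27) (.e (nat_lit 426341) (nat_lit 14) .nil))) .nil))))))))

noncomputable def tv805 : DT := (.nd (nat_lit 0) (.nd (nat_lit 1) (.nd (nat_lit 2) (.nd (nat_lit 3) (.nd (nat_lit 4) (.nd (nat_lit 5) 
(.lf (nat_lit 58432) (.g (nat_lit 1452) (.e (nat_lit 1454) (nat_lit 108) (.e (nat_lit 336389) (nat_lit 27) (.e (nat_lit 426341) (nat_lit 14) (.e (nat_lit 491571) (nat_lit 13) .nil)))) .nil)) 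
(.lf (nat_lit 58464) (.g (nat_lit 2827) (.e (nat_lit 1455) (nat_lit 108) (.e (nat_lit 336028) (nat_lit 3) (.e (nat_lit 98373) (nat_lit 29) (.e (nat_lit 450588) (nat_lit 10) (.e (nat_lit 573475) (nat_lit 12) .nil))))) .nil))) (.nd (nat_lit 5) 
(.lf (nat_lit 58448) (.g (nat_lit 2431) (.e (nat_lit 1454) (nat_lit 108) (.e (nat_lit 336389) (nat_lit 27) (.e (nat_lit 426344) (nat_lit 14) (.e (nat_lit 491568) (nat_lit 13) (.e (nat_lit 393234) (nat_lit 17) .nil))))) .nil)) 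
(.lf (nat_lit 58480) (.g (nat_lit 3000) (.e (nat_lit 1456) (nat_lit 108) (.e (nat_lit 336228) (nat_lit 14) (.e (nat_lit 401456) (nat_lit 13) (.e (nat_lit 483395) (nat_lit 24) (.e (nat_lit 344168) (nat_lit 40) (.e (nat_lit 671751) (nat_lit 0) .nil)))))) (.g (nat_lit 0) .nil .nil))))) (.nd (nat_lit 4) (.nd (nat_lit 5) 
(.lf (nat_lit 58440) (.g (nat_lit 2938) (.e (nat_lit 1454) (nat_lit 108) (.e (nat_lit 336389) (nat_lit 27) (.e (nat_lit 426343) (nat_lit 14) (.e (nat_lit 491568) (nat_lit 13) (.e (nat_lit 393234) (nat_lit 17) (.e (nat_lit 7536) (nat_lit 402) .nil)))))) (.g (nat_lit 4) .nil .nil))) 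
(.lf (nat_lit 58472) (.g (nat_lit 6235) (.e (nat_lit 1456) (nat_lit 108) (.e (nat_lit 336013) (nat_lit 2) (.e (nat_lit 90170) (nat_lit 13) (.e (nat_lit 172106) (nat_lit 10) (.e (nat_lit 434231) (nat_lit 23) (.e (nat_lit 532481) (nat_lit 0) (.e (nat_lit 1912) (nat_lit 129) (.e (nat_lit 605952) (nat_lit 5) .nil)))))))) (.g (nat_lit 6) .nil .nil)))) (.nd (nat_lit 5) 
(.lf (nat_lit 58456) (.g (nat_lit 2903) (.e (nat_lit 1455) (nat_lit 108) (.e (nat_lit 336013) (nat_lit 2) (.e (nat_lit 90170) (nat_lit 13) (.e (nat_lit 172106) (nat_lit 10) (.e (nat_lit 434244) (nat_lit 28) .nil))))) .nil)) 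
(.lf (nat_lit 58488) (.g (nat_lit 1063) (.e (nat_lit 1457) (nat_lit 108) (.e (nat_lit 336173) (nat_lit 10) (.e (nat_lit 344169) (nat_lit 40) (.e (nat_lit 671764) (nat_lit 6) .nil)))) .nil))))) (.nd (nat_lit 3) (.nd (nat_lit 4) (.nd (nat_lit 5) 
(.lf (nat_lit 58436) (.g (nat_lit 3177) (.e (nat_lit 1454) (nat_lit 108) (.e (nat_lit 336389) (nat_lit 27) (.e (nat_lit 426343) (nat_lit 14) (.e (nat_lit 491546) (nat_lit 9) (.e (nat_lit 336358) (nat_lit 25) (.e (nat_lit 409603) (nat_lit 0) (.e (nat_lit 5293) (nat_lit 298) .nil))))))) (.g (nat_lit 4) .nil .nil))) 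
(.lf (nat_lit 58468) (.g (nat_lit 439) (.e (nat_lit 1455) (nat_lit 108) (.e (nat_lit 336226) (nat_lit 14) (.e (nat_lit 401459) (nat_lit 13) .nil))) .nil))) (.nd (nat_lit 5) 
(.lf (nat_lit 58452) (.g (nat_lit 3194) (.e (nat_lit 1455) (nat_lit 108) (.e (nat_lit 336013) (nat_lit 2) (.e (nat_lit 90170) (nat_lit 13) (.e (nat_lit 172106) (nat_lit 10) (.e (nat_lit 434231) (nat_lit 23) (.e (nat_lit 532483) (nat_lit 0) (.e (nat_lit 1912) (nat_lit 129) (.e (nat_lit 598023) (nat_lit 5) .nil)))))))) (.g (nat_lit 4) .nil .nil))) 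
(.lf (nat_lit 58484) (.g (nat_lit 3203) (.e (nat_lit 1457) (nat_lit 108) (.e (nat_lit 336013) (nat_lit 2) (.e (nat_lit 90170) (nat_lit 13) (.e (nat_lit 172106) (nat_lit 10) (.e (nat_lit 434231) (nat_lit 23) .nil))))) .nil)))) (.nd (nat_lit 4) (.nd (nat_lit 5) 
(.lf (nat_lit 58444) (.g (nat_lit 3418) (.e (nat_lit 1454) (nat_lit 108) (.e (nat_lit 336389) (nat_lit 27) (.e (nat_lit 426343) (nat_lit 14) (.e (nat_lit 491570) (nat_lit 13) (.e (nat_lit 393238) (nat_lit 17) (.e (nat_lit 7936) (nat_lit 402) .nil)))))) (.g (nat_lit 5) .nil .nil))) 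
(.lf (nat_lit 58476) (.g (nat_lit 3129) (.e (nat_lit 1456) (nat_lit 108) (.e (nat_lit 336013) (nat_lit 2) (.e (nat_lit 90170) (nat_lit 13) (.e (nat_lit 172113) (nat_lit 10) .nil)))) .nil))) (.nd (nat_lit 5) 
(.lf (nat_lit 58460) (.g (nat_lit 3927) (.e (nat_lit 1455) (nat_lit 108) (.e (nat_lit 336013) (nat_lit 2) (.e (nat_lit 90170) (nat_lit 13) (.e (nat_lit 172113) (nat_lit 10) (.e (nat_lit 434248) (nat_lit 28) .nil))))) .nil)) 
(.lf (nat_lit 58492) (.g (nat_lit 1495) (.e (nat_lit 1457) (nat_lit 108) (.e (nat_lit 336193) (nat_lit 12) (.e (nat_lit 385105) (nat_lit 50) (.e (nat_lit 786483) (nat_lit 30) .nil)))) .nil)))))) (.nd (nat_lit 2) (.nd (nat_lit 3) (.nd (nat_lit 4) (.nd (nat_lit 5) 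
(.lf (nat_lit 58434) (.g (nat_lit 569) (.e (nat_lit 1454) (nat_lit 108) (.e (nat_lit 336389) (nat_lit 27) (.e (nat_lit 426343) (nat_lit 14) .nil))) .nil)) 
(.lf (nat_lit 58466) (.g (nat_lit 1548) (.e (nat_lit 1455) (nat_lit 108) (.e (nat_lit 336198) (nat_lit 12) (.e (nat_lit 385074) (nat_lit 31) (.e (nat_lit 573485) (nat_lit 13) (.e (nat_lit 65619) (nat_lit 10) .nil))))) .nil))) (.nd (nat_lit 5) 
(.lf (nat_lit 58450) (.g (nat_lit 3148) (.e (nat_lit 1455) (nat_lit 108) (.e (nat_lit 336013) (nat_lit 2) (.e (nat_lit 90170) (nat_lit 13) (.e (nat_lit 172106) (nat_lit 10) (.e (nat_lit 434231) (nat_lit 23) .nil))))) .nil)) 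
(.lf (nat_lit 58482) (.g (nat_lit 1438) (.e (nat_lit 1456) (nat_lit 108) (.e (nat_lit 336228) (nat_lit 14) (.e (nat_lit 401459) (nat_lit 13) (.e (nat_lit 483394) (nat_lit 24) .nil)))) .nil)))) (.nd (nat_lit 4) (.nd (nat_lit 5) 
(.lf (nat_lit 58442) (.g (nat_lit 2641) (.e (nat_lit 1454) (nat_lit 108) (.e (nat_lit 336389) (nat_lit 27) (.e (nat_lit 426343) (nat_lit 14) (.e (nat_lit 491570) (nat_lit 13) (.e (nat_lit 393232) (nat_lit 17) (.e (nat_lit 7536) (nat_lit 402) .nil)))))) (.g (nat_lit 4) .nil .nil))) 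
(.lf (nat_lit 58474) (.g (nat_lit 3235) (.e (nat_lit 1456) (nat_lit 108) (.e (nat_lit 336013) (nat_lit 2) (.e (nat_lit 90170) (nat_lit 13) (.e (nat_lit 172106) (nat_lit 10) (.e (nat_lit 434231) (nat_lit 23) (.e (nat_lit 532499) (nat_lit 1) (.e (nat_lit 57766) (nat_lit 221) (.e (nat_lit 1017) (nat_lit 81) .nil)))))))) (.g (nat_lit 4) .nil .nil)))) (.nd (nat_lit 5) 
(.lf (nat_lit 58458) (.g (nat_lit 3778) (.e (nat_lit 1455) (nat_lit 108) (.e (nat_lit 336013) (nat_lit 2) (.e (nat_lit 90170) (nat_lit 13) (.e (nat_lit 172113) (nat_lit 10) (.e (nat_lit 434242) (nat_lit 28) .nil))))) .nil)) 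
(.lf (nat_lit 58490) (.g (nat_lit 2857) (.e (nat_lit 1457) (nat_lit 108) (.e (nat_lit 336176) (nat_lit 10) (.e (nat_lit 344130) (nat_lit 26) (.e (nat_lit 557087) (nat_lit 11) (.e (nat_lit 24617) (nat_lit 7) (.e (nat_lit 319504) (nat_lit 10) (.e (nat_lit 531) (nat_lit 41) (.e (nat_lit 499991) (nat_lit 14) .nil)))))))) (.g (nat_lit 5) .nil .nil)))))) 
(.nd (nat_lit 3) (.nd (nat_lit 4) (.nd (nat_lit 5) 
(.lf (nat_lit 58438) (.g (nat_lit 1786) (.e (nat_lit 1454) (nat_lit 108) (.e (nat_lit 336389) (nat_lit 27) (.e (nat_lit 426343) (nat_lit 14) (.e (nat_lit 491567) (nat_lit 13) .nil)))) .nil)) 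
(.lf (nat_lit 58470) (.g (nat_lit 2746) (.e (nat_lit 1455) (nat_lit 108) (.e (nat_lit 336228) (nat_lit 14) (.e (nat_lit 401425) (nat_lit 2) (.e (nat_lit 196674) (nat_lit 15) (.e (nat_lit 81946) (nat_lit 20) (.e (nat_lit 1842) (nat_lit 123) (.e (nat_lit 548874) (nat_lit 5) .nil))))))) (.g (nat_lit 5) .nil .nil)))) (.nd (nat_lit 5) 
(.lf (nat_lit 58454) (.g (nat_lit 3868) (.e (nat_lit 1455) (nat_lit 108) (.e (nat_lit 336013) (nat_lit 2) (.e (nat_lit 90170) (nat_lit 13) (.e (nat_lit 172106) (nat_lit 10) (.e (nat_lit 434231) (nat_lit 23) (.e (nat_lit 532490) (nat_lit 0) (.e (nat_lit 1907) (nat_lit 129) (.e (nat_lit 598024) (nat_lit 5) .nil)))))))) (.g (nat_lit 5) .nil .nil))) 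
(.lf (nat_lit 58486) (.g (nat_lit 3150) (.e (nat_lit 1457) (nat_lit 108) (.e (nat_lit 336013) (nat_lit 2) (.e (nat_lit 90170) (nat_lit 13) (.e (nat_lit 172113) (nat_lit 10) .nil)))) .nil)))) (.nd (nat_lit 4) (.nd (nat_lit 5) 
(.lf (nat_lit 58446) (.g (nat_lit 2584) (.e (nat_lit 1454) (nat_lit 108) (.e (nat_lit 336389) (nat_lit 27) (.e (nat_lit 426344) (nat_lit 14) (.e (nat_lit 491552) (nat_lit 9) (.e (nat_lit 336358) (nat_lit 25) (.e (nat_lit 409603) (nat_lit 0) (.e (nat_lit 5293) (nat_lit 298) .nil))))))) (.g (nat_lit 4) .nil .nil))) 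
(.lf (nat_lit 58478) (.g (nat_lit 2810) (.e (nat_lit 1456) (nat_lit 108) (.e (nat_lit 336176) (nat_lit 10) (.e (nat_lit 344130) (nat_lit 26) (.e (nat_lit 557087) (nat_lit 11) (.e (nat_lit 24617) (nat_lit 7) (.e (nat_lit 319505) (nat_lit 10) (.e (nat_lit 531) (nat_lit 41) (.e (nat_lit 499991) (nat_lit 14) .nil)))))))) (.g (nat_lit 5) .nil .nil)))) (.nd (nat_lit 5) 
(.lf (nat_lit 58462) (.g (nat_lit 1684) (.e (nat_lit 1455) (nat_lit 108) (.e (nat_lit 336028) (nat_lit 3) (.e (nat_lit 98373) (nat_lit 29) (.e (nat_lit 450587) (nat_lit 10) .nil)))) .nil)) 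
(.lf (nat_lit 58494) (.g (nat_lit 2439) (.e (nat_lit 1457) (nat_lit 108) (.e (nat_lit 336226) (nat_lit 14) (.e (nat_lit 401437) (nat_lit 9) (.e (nat_lit 426546) (nat_lit 30) (.e (nat_lit 368384) (nat_lit 17) .nil))))) .nil))))))) (.nd (nat_lit 1) (.nd (nat_lit 2) (.nd (nat_lit 3) (.nd (nat_lit 4) (.nd (nat_lit 5) 
(.lf (nat_lit 58433) (.g (nat_lit 3181) (.e (nat_lit 1454) (nat_lit 108) (.e (nat_lit 336389) (nat_lit 27) (.e (nat_lit 426341) (nat_lit 14) (.e (nat_lit 491571) (nat_lit 13) (.e (nat_lit 393235) (nat_lit 17) (.e (nat_lit 7936) (nat_lit 402) .nil)))))) (.g (nat_lit 4) .nil .nil))) 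
(.lf (nat_lit 58465) (.g (nat_lit 4168) (.e (nat_lit 1455) (nat_lit 108) (.e (nat_lit 336099) (nat_lit 9) (.e (nat_lit 336013) (nat_lit 2) (.e (nat_lit 90134) (nat_lit 9) (.e (nat_lit 2828) (nat_lit 182) .nil))))) .nil))) (.nd (nat_lit 5) 
(.lf (nat_lit 58449) (.g (nat_lit 2579) (.e (nat_lit 1455) (nat_lit 108) (.e (nat_lit 336013) (nat_lit 2) (.e (nat_lit 90170) (nat_lit 13) (.e (nat_lit 172106) (nat_lit 10) .nil)))) .nil)) 
(.lf (nat_lit 58481) (.g (nat_lit 1667) (.e (nat_lit 1456) (nat_lit 108) (.e (nat_lit 336228) (nat_lit 14) (.e (nat_lit 401457) (nat_lit 13) (.e (nat_lit 483395) (nat_lit 24) (.e (nat_lit 344168) (nat_lit 40) .nil))))) .nil)))) (.nd (nat_lit 4) (.nd (nat_lit 5) 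
(.lf (nat_lit 58441) (.g (nat_lit 2820) (.e (nat_lit 1454) (nat_lit 108) (.e (nat_lit 336389) (nat_lit 27) (.e (nat_lit 426343) (nat_lit 14) (.e (nat_lit 491569) (nat_lit 13) (.e (nat_lit 393234) (nat_lit 17) (.e (nat_lit 7536) (nat_lit 402) .nil)))))) (.g (nat_lit 4) .nil .nil))) 
(.lf (nat_lit 58473) (.g (nat_lit 3216) (.e (nat_lit 1456) (nat_lit 108) (.e (nat_lit 336013) (nat_lit 2) (.e (nat_lit 90170) (nat_lit 13) (.e (nat_lit 172106) (nat_lit 10) (.e (nat_lit 434231) (nat_lit 23) (.e (nat_lit 532490) (nat_lit 0) (.e (nat_lit 1040) (nat_lit 81) (.e (nat_lit 4506) (nat_lit 263) (.e (nat_lit 1057) (nat_lit 81) .nil))))))))) (.g (nat_lit 4) .nil .nil)))) (.nd (nat_lit 5) 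
(.lf (nat_lit 58457) (.g (nat_lit 3128) (.e (nat_lit 1455) (nat_lit 108) (.e (nat_lit 336013) (nat_lit 2) (.e (nat_lit 90170) (nat_lit 13) (.e (nat_lit 172113) (nat_lit 10) .nil)))) .nil)) 
(.lf (nat_lit 58489) (.g (nat_lit 1357) (.e (nat_lit 1457) (nat_lit 108) (.e (nat_lit 336173) (nat_lit 10) (.e (nat_lit 344169) (nat_lit 40) (.e (nat_lit 671764) (nat_lit 6) (.e (nat_lit 81935) (nat_lit 20) .nil))))) .nil))))) (.nd (nat_lit 3) (.nd (nat_lit 4) (.nd (nat_lit 5) 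
(.lf (nat_lit 58437) (.g (nat_lit 2974) (.e (nat_lit 1454) (nat_lit 108) (.e (nat_lit 336389) (nat_lit 27) (.e (nat_lit 426343) (nat_lit 14) (.e (nat_lit 491546) (nat_lit 9) (.e (nat_lit 343808) (nat_lit 25) .nil))))) .nil)) 
(.lf (nat_lit 58469) (.g (nat_lit 1814) (.e (nat_lit 1455) (nat_lit 108) (.e (nat_lit 336228) (nat_lit 14) (.e (nat_lit 401425) (nat_lit 2) (.e (nat_lit 196672) (nat_lit 15) (.e (nat_lit 81943) (nat_lit 20) .nil))))) .nil))) (.nd (nat_lit 5) 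
(.lf (nat_lit 58453) (.g (nat_lit 3173) (.e (nat_lit 1455) (nat_lit 108) (.e (nat_lit 336013) (nat_lit 2) (.e (nat_lit 90170) (nat_lit 13) (.e (nat_lit 172106) (nat_lit 10) (.e (nat_lit 434231) (nat_lit 23) (.e (nat_lit 532490) (nat_lit 0) (.e (nat_lit 1905) (nat_lit 129) (.e (nat_lit 598023) (nat_lit 5) .nil)))))))) (.g (nat_lit 4) .nil .nil))) 
(.lf (nat_lit 58485) (.g (nat_lit 2957) (.e (nat_lit 1457) (nat_lit 108) (.e (nat_lit 336013) (nat_lit 2) (.e (nat_lit 90170) (nat_lit 13) (.e (nat_lit 172106) (nat_lit 10) (.e (nat_lit 434244) (nat_lit 28) .nil))))) .nil)))) (.nd (nat_lit 4) (.nd (nat_lit 5) 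
(.lf (nat_lit 58445) (.g (nat_lit 1433) (.e (nat_lit 1454) (nat_lit 108) (.e (nat_lit 336389) (nat_lit 27) (.e (nat_lit 426344) (nat_lit 14) (.e (nat_lit 491552) (nat_lit 9) .nil)))) .nil)) 
(.lf (nat_lit 58477) (.g (nat_lit 2871) (.e (nat_lit 1456) (nat_lit 108) (.e (nat_lit 336176) (nat_lit 10) (.e (nat_lit 344130) (nat_lit 26) (.e (nat_lit 557087) (nat_lit 11) (.e (nat_lit 24617) (nat_lit 7) (.e (nat_lit 319504) (nat_lit 10) (.e (nat_lit 531) (nat_lit 41) (.e (nat_lit 499991) (nat_lit 14) .nil)))))))) (.g (nat_lit 5) .nil .nil)))) (.nd (nat_lit 5) 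
(.lf (nat_lit 58461) (.g (nat_lit 4323) (.e (nat_lit 1455) (nat_lit 108) (.e (nat_lit 336023) (nat_lit 3) (.e (nat_lit 98373) (nat_lit 29) (.e (nat_lit 450587) (nat_lit 10) (.e (nat_lit 573475) (nat_lit 12) .nil))))) .nil)) 
(.lf (nat_lit 58493) (.g (nat_lit 1296) (.e (nat_lit 1457) (nat_lit 108) (.e (nat_lit 336198) (nat_lit 12) (.e (nat_lit 385106) (nat_lit 50) (.e (nat_lit 786483) (nat_lit 30) (.e (nat_lit 368384) (nat_lit 17) .nil))))) .nil)))))) (.nd (nat_lit 2) (.nd (nat_lit 3) (.nd (nat_lit 4) (.nd (nat_lit 5) 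
(.lf (nat_lit 58435) (.g (nat_lit 3651) (.e (nat_lit 1454) (nat_lit 108) (.e (nat_lit 336389) (nat_lit 27) (.e (nat_lit 426343) (nat_lit 14) (.e (nat_lit 491546) (nat_lit 9) (.e (nat_lit 336358) (nat_lit 25) (.e (nat_lit 409602) (nat_lit 0) (.e (nat_lit 5293) (nat_lit 298) .nil))))))) (.g (nat_lit 4) .nil .nil))) 
(.lf (nat_lit 58467) (.g (nat_lit 1396) (.e (nat_lit 1455) (nat_lit 108) (.e (nat_lit 336200) (nat_lit 12) (.e (nat_lit 385074) (nat_lit 31) (.e (nat_lit 573485) (nat_lit 13) (.e (nat_lit 65619) (nat_lit 10) .nil))))) .nil))) (.nd (nat_lit 5) 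
(.lf (nat_lit 58451) (.g (nat_lit 4937) (.e (nat_lit 1455) (nat_lit 108) (.e (nat_lit 336013) (nat_lit 2) (.e (nat_lit 90170) (nat_lit 13) (.e (nat_lit 172106) (nat_lit 10) (.e (nat_lit 434231) (nat_lit 23) (.e (nat_lit 532483) (nat_lit 0) (.e (nat_lit 1912) (nat_lit 129) (.e (nat_lit 598022) (nat_lit 5) .nil)))))))) (.g (nat_lit 5) .nil .nil))) 
(.lf (nat_lit 58483) (.g (nat_lit 2408) (.e (nat_lit 1456) (nat_lit 108) (.e (nat_lit 336228) (nat_lit 14) (.e (nat_lit 401459) (nat_lit 13) (.e (nat_lit 483395) (nat_lit 24) (.e (nat_lit 344169) (nat_lit 40) .nil))))) .nil)))) (.nd (nat_lit 4) (.nd (nat_lit 5) 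
(.lf (nat_lit 58443) (.g (nat_lit 2616) (.e (nat_lit 1454) (nat_lit 108) (.e (nat_lit 336389) (nat_lit 27) (.e (nat_lit 426343) (nat_lit 14) (.e (nat_lit 491570) (nat_lit 13) (.e (nat_lit 393235) (nat_lit 17) (.e (nat_lit 7936) (nat_lit 402) .nil)))))) (.g (nat_lit 4) .nil .nil))) 
(.lf (nat_lit 58475) (.g (nat_lit 2961) (.e (nat_lit 1456) (nat_lit 108) (.e (nat_lit 336013) (nat_lit 2) (.e (nat_lit 90170) (nat_lit 13) (.e (nat_lit 172106) (nat_lit 10) (.e (nat_lit 434244) (nat_lit 28) .nil))))) .nil))) (.nd (nat_lit 5) 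
(.lf (nat_lit 58459) (.g (nat_lit 3918) (.e (nat_lit 1455) (nat_lit 108) (.e (nat_lit 336013) (nat_lit 2) (.e (nat_lit 90170) (nat_lit 13) (.e (nat_lit 172113) (nat_lit 10) (.e (nat_lit 434245) (nat_lit 28) .nil))))) .nil)) 
(.lf (nat_lit 58491) (.g (nat_lit 2796) (.e (nat_lit 1457) (nat_lit 108) (.e (nat_lit 336176) (nat_lit 10) (.e (nat_lit 344130) (nat_lit 26) (.e (nat_lit 557087) (nat_lit 11) (.e (nat_lit 24617) (nat_lit 7) (.e (nat_lit 319505) (nat_lit 10) (.e (nat_lit 531) (nat_lit 41) (.e (nat_lit 499991) (nat_lit 14) .nil)))))))) (.g (nat_lit 5) .nil .nil)))))) 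
(.nd (nat_lit 3) (.nd (nat_lit 4) (.nd (nat_lit 5) 
(.lf (nat_lit 58439) (.g (nat_lit 1378) (.e (nat_lit 1454) (nat_lit 108) (.e (nat_lit 336389) (nat_lit 27) (.e (nat_lit 426343) (nat_lit 14) (.e (nat_lit 491568) (nat_lit 13) .nil)))) .nil)) 
(.lf (nat_lit 58471) (.g (nat_lit 3207) (.e (nat_lit 1456) (nat_lit 108) (.e (nat_lit 336013) (nat_lit 2) (.e (nat_lit 90170) (nat_lit 13) (.e (nat_lit 172106) (nat_lit 10) (.e (nat_lit 434231) (nat_lit 23) .nil))))) .nil))) (.nd (nat_lit 5) 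
(.lf (nat_lit 58455) (.g (nat_lit 3154) (.e (nat_lit 1455) (nat_lit 108) (.e (nat_lit 336013) (nat_lit 2) (.e (nat_lit 90170) (nat_lit 13) (.e (nat_lit 172106) (nat_lit 10) (.e (nat_lit 434231) (nat_lit 23) (.e (nat_lit 532490) (nat_lit 0) (.e (nat_lit 1910) (nat_lit 129) (.e (nat_lit 598024) (nat_lit 5) .nil)))))))) (.g (nat_lit 4) .nil .nil))) 
(.lf (nat_lit 58487) (.g (nat_lit 1189) (.e (nat_lit 1457) (nat_lit 108) (.e (nat_lit 336173) (nat_lit 10) (.e (nat_lit 344169) (nat_lit 40) (.e (nat_lit 671747) (nat_lit 0) .nil)))) .nil)))) (.nd (nat_lit 4) (.nd (nat_lit 5) 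
(.lf (nat_lit 58447) (.g (nat_lit 2679) (.e (nat_lit 1454) (nat_lit 108) (.e (nat_lit 336389) (nat_lit 27) (.e (nat_lit 426344) (nat_lit 14) (.e (nat_lit 491556) (nat_lit 9) (.e (nat_lit 343808) (nat_lit 25) (.e (nat_lit 409603) (nat_lit 0) (.e (nat_lit 5293) (nat_lit 298) .nil))))))) (.g (nat_lit 4) .nil .nil))) 
(.lf (nat_lit 58479) (.g (nat_lit 1564) (.e (nat_lit 1456) (nat_lit 108) (.e (nat_lit 336228) (nat_lit 14) (.e (nat_lit 401456) (nat_lit 13) (.e (nat_lit 483394) (nat_lit 24) .nil)))) .nil))) (.nd (nat_lit 5) 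
(.lf (nat_lit 58463) (.g (nat_lit 2826) (.e (nat_lit 1455) (nat_lit 108) (.e (nat_lit 336028) (nat_lit 3) (.e (nat_lit 98373) (nat_lit 29) (.e (nat_lit 450588) (nat_lit 10) (.e (nat_lit 573473) (nat_lit 12) .nil))))) .nil)) 
(.lf (nat_lit 58495) (.g (nat_lit 3423) (.e (nat_lit 1458) (nat_lit 108) (.e (nat_lit 336013) (nat_lit 2) (.e (nat_lit 90170) (nat_lit 13) (.e (nat_lit 172113) (nat_lit 10) (.e (nat_lit 434242) (nat_lit 28) .nil))))) .nil))))))))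

noncomputable def tv806 : DT := (.nd (nat_lit 0) (.nd (nat_lit 1) (.nd (nat_lit 2) (.nd (nat_lit 3) (.nd (nat_lit 4) (.nd (nat_lit 5) 
(.lf (nat_lit 58496) (.g (nat_lit 3563) (.e (nat_lit 1458) (nat_lit 108) (.e (nat_lit 336013) (nat_lit 2) (.e (nat_lit 90170) (nat_lit 13) (.e (nat_lit 172113) (nat_lit 10) (.e (nat_lit 434245) (nat_lit 28) .nil))))) .nil)) 
(.lf (nat_lit 58528) (.g (nat_lit 5342) (.e (nat_lit 1460) (nat_lit 108) (.e (nat_lit 336013) (nat_lit 2) (.e (nat_lit 90170) (nat_lit 13) (.e (nat_lit 172106) (nat_lit 10) (.e (nat_lit 434231) (nat_lit 23) (.e (nat_lit 532481) (nat_lit 0) (.e (nat_lit 1912) (nat_lit 129) (.e (nat_lit 598022) (nat_lit 5) .nil)))))))) (.g (nat_lit 5) .nil .nil)))) (.nd (nat_lit 5) 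
(.lf (nat_lit 58512) (.g (nat_lit 2192) (.e (nat_lit 1458) (nat_lit 108) (.e (nat_lit 336060) (nat_lit 7) (.e (nat_lit 319534) (nat_lit 16) (.e (nat_lit 286756) (nat_lit 10) (.e (nat_lit 344160) (nat_lit 37) .nil))))) .nil)) 
(.lf (nat_lit 58544) (.g (nat_lit 2623) (.e (nat_lit 1461) (nat_lit 108) (.e (nat_lit 336028) (nat_lit 3) (.e (nat_lit 98373) (nat_lit 29) (.e (nat_lit 450587) (nat_lit 10) (.e (nat_lit 573478) (nat_lit 12) .nil))))) .nil)))) (.nd (nat_lit 4) (.nd (nat_lit 5) 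
(.lf (nat_lit 58504) (.g (nat_lit 2004) (.e (nat_lit 1458) (nat_lit 108) (.e (nat_lit 336028) (nat_lit 3) (.e (nat_lit 98372) (nat_lit 29) (.e (nat_lit 450586) (nat_lit 10) (.e (nat_lit 573473) (nat_lit 12) .nil))))) .nil)) 
(.lf (nat_lit 58536) (.g (nat_lit 3146) (.e (nat_lit 1460) (nat_lit 108) (.e (nat_lit 336013) (nat_lit 2) (.e (nat_lit 90170) (nat_lit 13) (.e (nat_lit 172113) (nat_lit 10) .nil)))) .nil))) (.nd (nat_lit 5) 
(.lf (nat_lit 58520) (.g (nat_lit 3157) (.e (nat_lit 1459) (nat_lit 108) (.e (nat_lit 336013) (nat_lit 2) (.e (nat_lit 90170) (nat_lit 13) (.e (nat_lit 172113) (nat_lit 10) .nil)))) .nil)) 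
(.lf (nat_lit 58552) (.g (nat_lit 3611) (.e (nat_lit 1462) (nat_lit 108) (.e (nat_lit 336013) (nat_lit 2) (.e (nat_lit 90170) (nat_lit 13) (.e (nat_lit 172113) (nat_lit 10) (.e (nat_lit 434248) (nat_lit 28) .nil))))) .nil))))) (.nd (nat_lit 3) (.nd (nat_lit 4) (.nd (nat_lit 5) 
(.lf (nat_lit 58500) (.g (nat_lit 3707) (.e (nat_lit 1458) (nat_lit 108) (.e (nat_lit 336013) (nat_lit 2) (.e (nat_lit 90170) (nat_lit 13) (.e (nat_lit 172113) (nat_lit 10) (.e (nat_lit 434248) (nat_lit 28) (.e (nat_lit 573473) (nat_lit 12) (.e (nat_lit 57348) (nat_lit 0) (.e (nat_lit 7119) (nat_lit 382) (.e (nat_lit 1068) (nat_lit 81) .nil))))))))) (.g (nat_lit 4) .nil .nil))) 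
(.lf (nat_lit 58532) (.g (nat_lit 3354) (.e (nat_lit 1460) (nat_lit 108) (.e (nat_lit 336013) (nat_lit 2) (.e (nat_lit 90170) (nat_lit 13) (.e (nat_lit 172106) (nat_lit 10) (.e (nat_lit 434231) (nat_lit 23) (.e (nat_lit 532490) (nat_lit 0) (.e (nat_lit 1907) (nat_lit 129) (.e (nat_lit 598028) (nat_lit 5) .nil)))))))) (.g (nat_lit 4) .nil .nil)))) (.nd (nat_lit 5) 
(.lf (nat_lit 58516) (.g (nat_lit 2201) (.e (nat_lit 1458) (nat_lit 108) (.e (nat_lit 336228) (nat_lit 14) (.e (nat_lit 401459) (nat_lit 13) (.e (nat_lit 483380) (nat_lit 23) (.e (nat_lit 336327) (nat_lit 19) .nil))))) .nil)) 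
(.lf (nat_lit 58548) (.g (nat_lit 4099) (.e (nat_lit 1461) (nat_lit 108) (.e (nat_lit 336099) (nat_lit 9) (.e (nat_lit 336013) (nat_lit 2) (.e (nat_lit 90134) (nat_lit 9) (.e (nat_lit 2828) (nat_lit 182) .nil))))) .nil)))) (.nd (nat_lit 4) (.nd (nat_lit 5) 
(.lf (nat_lit 58508) (.g (nat_lit 2826) (.e (nat_lit 1458) (nat_lit 108) (.e (nat_lit 336028) (nat_lit 3) (.e (nat_lit 98373) (nat_lit 29) (.e (nat_lit 450588) (nat_lit 10) (.e (nat_lit 573473) (nat_lit 12) .nil))))) .nil)) 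
(.lf (nat_lit 58540) (.g (nat_lit 2845) (.e (nat_lit 1461) (nat_lit 108) (.e (nat_lit 336013) (nat_lit 2) (.e (nat_lit 90170) (nat_lit 13) (.e (nat_lit 172113) (nat_lit 10) .nil)))) .nil))) (.nd (nat_lit 5) 
(.lf (nat_lit 58524) (.g (nat_lit 1327) (.e (nat_lit 1459) (nat_lit 108) (.e (nat_lit 336226) (nat_lit 14) (.e (nat_lit 401457) (nat_lit 13) (.e (nat_lit 483395) (nat_lit 24) .nil)))) .nil)) 
(.lf (nat_lit 58556) (.g (nat_lit 1962) (.e (nat_lit 1462) (nat_lit 108) (.e (nat_lit 336028) (nat_lit 3) (.e (nat_lit 98359) (nat_lit 26) (.e (nat_lit 426286) (nat_lit 10) (.e (nat_lit 434248) (nat_lit 28) .nil))))) .nil)))))) (.nd (nat_lit 2) (.nd (nat_lit 3) (.nd (nat_lit 4) (.nd (nat_lit 5) 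
(.lf (nat_lit 58498) (.g (nat_lit 3641) (.e (nat_lit 1458) (nat_lit 108) (.e (nat_lit 336013) (nat_lit 2) (.e (nat_lit 90170) (nat_lit 13) (.e (nat_lit 172113) (nat_lit 10) (.e (nat_lit 434247) (nat_lit 28) .nil))))) .nil)) 
(.lf (nat_lit 58530) (.g (nat_lit 4015) (.e (nat_lit 1460) (nat_lit 108) (.e (nat_lit 336013) (nat_lit 2) (.e (nat_lit 90170) (nat_lit 13) (.e (nat_lit 172106) (nat_lit 10) (.e (nat_lit 434231) (nat_lit 23) (.e (nat_lit 532490) (nat_lit 0) (.e (nat_lit 1905) (nat_lit 129) (.e (nat_lit 598028) (nat_lit 5) .nil)))))))) (.g (nat_lit 5) .nil .nil)))) (.nd (nat_lit 5) 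
(.lf (nat_lit 58514) (.g (nat_lit 941) (.e (nat_lit 1458) (nat_lit 108) (.e (nat_lit 336219) (nat_lit 13) (.e (nat_lit 393260) (nat_lit 21) (.e (nat_lit 409648) (nat_lit 18) .nil)))) .nil)) 
(.lf (nat_lit 58546) (.g (nat_lit 2827) (.e (nat_lit 1461) (nat_lit 108) (.e (nat_lit 336028) (nat_lit 3) (.e (nat_lit 98373) (nat_lit 29) (.e (nat_lit 450588) (nat_lit 10) (.e (nat_lit 573475) (nat_lit 12) .nil))))) .nil)))) (.nd (nat_lit 4) (.nd (nat_lit 5) 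
(.lf (nat_lit 58506) (.g (nat_lit 2663) (.e (nat_lit 1458) (nat_lit 108) (.e (nat_lit 336028) (nat_lit 3) (.e (nat_lit 98373) (nat_lit 29) (.e (nat_lit 450587) (nat_lit 10) (.e (nat_lit 573477) (nat_lit 12) .nil))))) .nil)) 
(.lf (nat_lit 58538) (.g (nat_lit 2040) (.e (nat_lit 1460) (nat_lit 108) (.e (nat_lit 336176) (nat_lit 10) (.e (nat_lit 344130) (nat_lit 26) (.e (nat_lit 557087) (nat_lit 11) (.e (nat_lit 24617) (nat_lit 7) (.e (nat_lit 319505) (nat_lit 10) (.e (nat_lit 531) (nat_lit 41) (.e (nat_lit 499991) (nat_lit 14) .nil)))))))) (.g (nat_lit 4) .nil .nil)))) (.nd (nat_lit 5) 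
(.lf (nat_lit 58522) (.g (nat_lit 2725) (.e (nat_lit 1459) (nat_lit 108) (.e (nat_lit 336176) (nat_lit 10) (.e (nat_lit 344130) (nat_lit 26) (.e (nat_lit 557087) (nat_lit 11) (.e (nat_lit 24617) (nat_lit 7) (.e (nat_lit 319504) (nat_lit 10) (.e (nat_lit 531) (nat_lit 41) (.e (nat_lit 499991) (nat_lit 14) .nil)))))))) (.g (nat_lit 5) .nil .nil))) 
(.lf (nat_lit 58554) (.g (nat_lit 1908) (.e (nat_lit 1462) (nat_lit 108) (.e (nat_lit 336028) (nat_lit 3) (.e (nat_lit 98359) (nat_lit 26) (.e (nat_lit 426286) (nat_lit 10) (.e (nat_lit 434245) (nat_lit 28) .nil))))) .nil))))) (.nd (nat_lit 3) (.nd (nat_lit 4) (.nd (nat_lit 5) 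
(.lf (nat_lit 58502) (.g (nat_lit 1557) (.e (nat_lit 1458) (nat_lit 108) (.e (nat_lit 336028) (nat_lit 3) (.e (nat_lit 98372) (nat_lit 29) (.e (nat_lit 450579) (nat_lit 5) .nil)))) .nil)) 
(.lf (nat_lit 58534) (.g (nat_lit 3351) (.e (nat_lit 1460) (nat_lit 108) (.e (nat_lit 336013) (nat_lit 2) (.e (nat_lit 90170) (nat_lit 13) (.e (nat_lit 172106) (nat_lit 10) (.e (nat_lit 434231) (nat_lit 23) (.e (nat_lit 532490) (nat_lit 0) (.e (nat_lit 1910) (nat_lit 129) (.e (nat_lit 598022) (nat_lit 5) .nil)))))))) (.g (nat_lit 4) .nil .nil)))) (.nd (nat_lit 5) 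
(.lf (nat_lit 58518) (.g (nat_lit 3221) (.e (nat_lit 1459) (nat_lit 108) (.e (nat_lit 336013) (nat_lit 2) (.e (nat_lit 90170) (nat_lit 13) (.e (nat_lit 172106) (nat_lit 10) (.e (nat_lit 434231) (nat_lit 23) .nil))))) .nil)) 
(.lf (nat_lit 58550) (.g (nat_lit 3601) (.e (nat_lit 1462) (nat_lit 108) (.e (nat_lit 336013) (nat_lit 2) (.e (nat_lit 90170) (nat_lit 13) (.e (nat_lit 172113) (nat_lit 10) (.e (nat_lit 434245) (nat_lit 28) .nil))))) .nil)))) (.nd (nat_lit 4) (.nd (nat_lit 5) 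
(.lf (nat_lit 58510) (.g (nat_lit 2857) (.e (nat_lit 1458) (nat_lit 108) (.e (nat_lit 336028) (nat_lit 3) (.e (nat_lit 98373) (nat_lit 29) (.e (nat_lit 450588) (nat_lit 10) (.e (nat_lit 573475) (nat_lit 12) (.e (nat_lit 57351) (nat_lit 0) (.e (nat_lit 7124) (nat_lit 382) (.e (nat_lit 1068) (nat_lit 81) .nil)))))))) (.g (nat_lit 4) .nil .nil))) 
(.lf (nat_lit 58542) (.g (nat_lit 3644) (.e (nat_lit 1461) (nat_lit 108) (.e (nat_lit 336013) (nat_lit 2) (.e (nat_lit 90170) (nat_lit 13) (.e (nat_lit 172113) (nat_lit 10) (.e (nat_lit 434248) (nat_lit 28) .nil))))) .nil))) (.nd (nat_lit 5) 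
(.lf (nat_lit 58526) (.g (nat_lit 3193) (.e (nat_lit 1460) (nat_lit 108) (.e (nat_lit 336013) (nat_lit 2) (.e (nat_lit 90170) (nat_lit 13) (.e (nat_lit 172106) (nat_lit 10) (.e (nat_lit 434231) (nat_lit 23) .nil))))) .nil)) 
(.lf (nat_lit 58558) (.g (nat_lit 2319) (.e (nat_lit 1462) (nat_lit 108) (.e (nat_lit 336028) (nat_lit 3) (.e (nat_lit 98372) (nat_lit 29) (.e (nat_lit 450579) (nat_lit 5) (.e (nat_lit 532501) (nat_lit 1) .nil))))) .nil))))))) (.nd (nat_lit 1) (.nd (nat_lit 2) (.nd (nat_lit 3) (.nd (nat_lit 4) (.nd (nat_lit 5) 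
(.lf (nat_lit 58497) (.g (nat_lit 3601) (.e (nat_lit 1458) (nat_lit 108) (.e (nat_lit 336013) (nat_lit 2) (.e (nat_lit 90170) (nat_lit 13) (.e (nat_lit 172113) (nat_lit 10) (.e (nat_lit 434245) (nat_lit 28) (.e (nat_lit 573474) (nat_lit 12) (.e (nat_lit 57347) (nat_lit 0) (.e (nat_lit 7124) (nat_lit 382) (.e (nat_lit 1068) (nat_lit 81) .nil))))))))) (.g (nat_lit 4) .nil .nil))) 
(.lf (nat_lit 58529) (.g (nat_lit 3288) (.e (nat_lit 1460) (nat_lit 108) (.e (nat_lit 336013) (nat_lit 2) (.e (nat_lit 90170) (nat_lit 13) (.e (nat_lit 172106) (nat_lit 10) (.e (nat_lit 434231) (nat_lit 23) (.e (nat_lit 532483) (nat_lit 0) (.e (nat_lit 1905) (nat_lit 129) (.e (nat_lit 605952) (nat_lit 5) .nil)))))))) (.g (nat_lit 4) .nil .nil)))) (.nd (nat_lit 5) 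
(.lf (nat_lit 58513) (.g (nat_lit 1174) (.e (nat_lit 1458) (nat_lit 108) (.e (nat_lit 336178) (nat_lit 10) (.e (nat_lit 344117) (nat_lit 21) (.e (nat_lit 516138) (nat_lit 7) .nil)))) .nil)) 
(.lf (nat_lit 58545) (.g (nat_lit 2826) (.e (nat_lit 1461) (nat_lit 108) (.e (nat_lit 336028) (nat_lit 3) (.e (nat_lit 98373) (nat_lit 29) (.e (nat_lit 450588) (nat_lit 10) (.e (nat_lit 573473) (nat_lit 12) .nil))))) .nil)))) (.nd (nat_lit 4) (.nd (nat_lit 5) 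
(.lf (nat_lit 58505) (.g (nat_lit 2136) (.e (nat_lit 1458) (nat_lit 108) (.e (nat_lit 336028) (nat_lit 3) (.e (nat_lit 98372) (nat_lit 29) (.e (nat_lit 450586) (nat_lit 10) (.e (nat_lit 573475) (nat_lit 12) .nil))))) .nil)) 
(.lf (nat_lit 58537) (.g (nat_lit 2101) (.e (nat_lit 1460) (nat_lit 108) (.e (nat_lit 336176) (nat_lit 10) (.e (nat_lit 344130) (nat_lit 26) (.e (nat_lit 557087) (nat_lit 11) (.e (nat_lit 24617) (nat_lit 7) (.e (nat_lit 319504) (nat_lit 10) (.e (nat_lit 531) (nat_lit 41) (.e (nat_lit 499991) (nat_lit 14) .nil)))))))) (.g (nat_lit 4) .nil .nil)))) (.nd (nat_lit 5) 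
(.lf (nat_lit 58521) (.g (nat_lit 1684) (.e (nat_lit 1459) (nat_lit 108) (.e (nat_lit 336028) (nat_lit 3) (.e (nat_lit 98373) (nat_lit 29) (.e (nat_lit 450587) (nat_lit 10) .nil)))) .nil)) 
(.lf (nat_lit 58553) (.g (nat_lit 3622) (.e (nat_lit 1462) (nat_lit 108) (.e (nat_lit 336013) (nat_lit 2) (.e (nat_lit 90170) (nat_lit 13) (.e (nat_lit 172113) (nat_lit 10) (.e (nat_lit 434248) (nat_lit 28) (.e (nat_lit 573473) (nat_lit 12) (.e (nat_lit 57348) (nat_lit 0) (.e (nat_lit 7124) (nat_lit 382) (.e (nat_lit 1016) (nat_lit 81) .nil))))))))) (.g (nat_lit 4) .nil .nil)))))) 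
(.nd (nat_lit 3) (.nd (nat_lit 4) (.nd (nat_lit 5) 
(.lf (nat_lit 58501) (.g (nat_lit 1972) (.e (nat_lit 1458) (nat_lit 108) (.e (nat_lit 336028) (nat_lit 3) (.e (nat_lit 98359) (nat_lit 26) (.e (nat_lit 426286) (nat_lit 10) (.e (nat_lit 434248) (nat_lit 28) (.e (nat_lit 573475) (nat_lit 12) (.e (nat_lit 57351) (nat_lit 0) (.e (nat_lit 7119) (nat_lit 382) (.e (nat_lit 1068) (nat_lit 81) .nil))))))))) (.g (nat_lit 4) .nil .nil))) 
(.lf (nat_lit 58533) (.g (nat_lit 4033) (.e (nat_lit 1460) (nat_lit 108) (.e (nat_lit 336013) (nat_lit 2) (.e (nat_lit 90170) (nat_lit 13) (.e (nat_lit 172106) (nat_lit 10) (.e (nat_lit 434231) (nat_lit 23) (.e (nat_lit 532490) (nat_lit 0) (.e (nat_lit 1909) (nat_lit 129) (.e (nat_lit 598028) (nat_lit 5) .nil)))))))) (.g (nat_lit 5) .nil .nil)))) (.nd (nat_lit 5) 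
(.lf (nat_lit 58517) (.g (nat_lit 2068) (.e (nat_lit 1458) (nat_lit 108) (.e (nat_lit 336228) (nat_lit 14) (.e (nat_lit 401459) (nat_lit 13) (.e (nat_lit 483380) (nat_lit 23) (.e (nat_lit 336328) (nat_lit 19) .nil))))) .nil)) 
(.lf (nat_lit 58549) (.g (nat_lit 3461) (.e (nat_lit 1462) (nat_lit 108) (.e (nat_lit 336013) (nat_lit 2) (.e (nat_lit 90170) (nat_lit 13) (.e (nat_lit 172113) (nat_lit 10) (.e (nat_lit 434242) (nat_lit 28) .nil))))) .nil)))) (.nd (nat_lit 4) (.nd (nat_lit 5) 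
(.lf (nat_lit 58509) (.g (nat_lit 2827) (.e (nat_lit 1458) (nat_lit 108) (.e (nat_lit 336028) (nat_lit 3) (.e (nat_lit 98373) (nat_lit 29) (.e (nat_lit 450588) (nat_lit 10) (.e (nat_lit 573475) (nat_lit 12) .nil))))) .nil)) 
(.lf (nat_lit 58541) (.g (nat_lit 3635) (.e (nat_lit 1461) (nat_lit 108) (.e (nat_lit 336013) (nat_lit 2) (.e (nat_lit 90170) (nat_lit 13) (.e (nat_lit 172113) (nat_lit 10) (.e (nat_lit 434245) (nat_lit 28) .nil))))) .nil))) (.nd (nat_lit 5) 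
(.lf (nat_lit 58525) (.g (nat_lit 2624) (.e (nat_lit 1460) (nat_lit 108) (.e (nat_lit 336013) (nat_lit 2) (.e (nat_lit 90170) (nat_lit 13) (.e (nat_lit 172106) (nat_lit 10) .nil)))) .nil)) 
(.lf (nat_lit 58557) (.g (nat_lit 2508) (.e (nat_lit 1462) (nat_lit 108) (.e (nat_lit 336028) (nat_lit 3) (.e (nat_lit 98372) (nat_lit 29) (.e (nat_lit 450579) (nat_lit 5) (.e (nat_lit 532484) (nat_lit 0) .nil))))) .nil)))))) (.nd (nat_lit 2) (.nd (nat_lit 3) (.nd (nat_lit 4) (.nd (nat_lit 5) 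
(.lf (nat_lit 58499) (.g (nat_lit 3572) (.e (nat_lit 1458) (nat_lit 108) (.e (nat_lit 336013) (nat_lit 2) (.e (nat_lit 90170) (nat_lit 13) (.e (nat_lit 172113) (nat_lit 10) (.e (nat_lit 434248) (nat_lit 28) .nil))))) .nil)) 
(.lf (nat_lit 58531) (.g (nat_lit 4126) (.e (nat_lit 1460) (nat_lit 108) (.e (nat_lit 336013) (nat_lit 2) (.e (nat_lit 90170) (nat_lit 13) (.e (nat_lit 172106) (nat_lit 10) (.e (nat_lit 434231) (nat_lit 23) (.e (nat_lit 532490) (nat_lit 0) (.e (nat_lit 1905) (nat_lit 129) (.e (nat_lit 605952) (nat_lit 5) .nil)))))))) (.g (nat_lit 5) .nil .nil)))) (.nd (nat_lit 5) 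
(.lf (nat_lit 58515) (.g (nat_lit 259) (.e (nat_lit 1458) (nat_lit 108) (.e (nat_lit 336228) (nat_lit 14) (.e (nat_lit 401437) (nat_lit 9) .nil))) .nil)) 
(.lf (nat_lit 58547) (.g (nat_lit 3105) (.e (nat_lit 1461) (nat_lit 108) (.e (nat_lit 336099) (nat_lit 9) (.e (nat_lit 336013) (nat_lit 2) (.e (nat_lit 90129) (nat_lit 9) .nil)))) .nil)))) (.nd (nat_lit 4) (.nd (nat_lit 5) 
(.lf (nat_lit 58507) (.g (nat_lit 2623) (.e (nat_lit 1458) (nat_lit 108) (.e (nat_lit 336028) (nat_lit 3) (.e (nat_lit 98373) (nat_lit 29) (.e (nat_lit 450587) (nat_lit 10) (.e (nat_lit 573478) (nat_lit 12) .nil))))) .nil)) 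
(.lf (nat_lit 58539) (.g (nat_lit 1818) (.e (nat_lit 1461) (nat_lit 108) (.e (nat_lit 336013) (nat_lit 2) (.e (nat_lit 90170) (nat_lit 13) (.e (nat_lit 172106) (nat_lit 10) (.e (nat_lit 434244) (nat_lit 28) .nil))))) .nil))) (.nd (nat_lit 5) 
(.lf (nat_lit 58523) (.g (nat_lit 2664) (.e (nat_lit 1459) (nat_lit 108) (.e (nat_lit 336176) (nat_lit 10) (.e (nat_lit 344130) (nat_lit 26) (.e (nat_lit 557087) (nat_lit 11) (.e (nat_lit 24617) (nat_lit 7) (.e (nat_lit 319505) (nat_lit 10) (.e (nat_lit 531) (nat_lit 41) (.e (nat_lit 499991) (nat_lit 14) .nil)))))))) (.g (nat_lit 5) .nil .nil))) 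
(.lf (nat_lit 58555) (.g (nat_lit 1995) (.e (nat_lit 1462) (nat_lit 108) (.e (nat_lit 336028) (nat_lit 3) (.e (nat_lit 98359) (nat_lit 26) (.e (nat_lit 426286) (nat_lit 10) (.e (nat_lit 434247) (nat_lit 28) .nil))))) .nil))))) (.nd (nat_lit 3) (.nd (nat_lit 4) (.nd (nat_lit 5) 
(.lf (nat_lit 58503) (.g (nat_lit 1550) (.e (nat_lit 1458) (nat_lit 108) (.e (nat_lit 336028) (nat_lit 3) (.e (nat_lit 98372) (nat_lit 29) (.e (nat_lit 450586) (nat_lit 10) .nil)))) .nil)) 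
(.lf (nat_lit 58535) (.g (nat_lit 3370) (.e (nat_lit 1460) (nat_lit 108) (.e (nat_lit 336013) (nat_lit 2) (.e (nat_lit 90170) (nat_lit 13) (.e (nat_lit 172106) (nat_lit 10) (.e (nat_lit 434231) (nat_lit 23) (.e (nat_lit 532491) (nat_lit 0) (.e (nat_lit 1908) (nat_lit 129) (.e (nat_lit 605952) (nat_lit 5) .nil)))))))) (.g (nat_lit 4) .nil .nil)))) (.nd (nat_lit 5) 
(.lf (nat_lit 58519) (.g (nat_lit 2976) (.e (nat_lit 1459) (nat_lit 108) (.e (nat_lit 336013) (nat_lit 2) (.e (nat_lit 90170) (nat_lit 13) (.e (nat_lit 172106) (nat_lit 10) (.e (nat_lit 434244) (nat_lit 28) .nil))))) .nil)) 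
(.lf (nat_lit 58551) (.g (nat_lit 3679) (.e (nat_lit 1462) (nat_lit 108) (.e (nat_lit 336013) (nat_lit 2) (.e (nat_lit 90170) (nat_lit 13) (.e (nat_lit 172113) (nat_lit 10) (.e (nat_lit 434247) (nat_lit 28) .nil))))) .nil)))) (.nd (nat_lit 4) (.nd (nat_lit 5) 
(.lf (nat_lit 58511) (.g (nat_lit 1758) (.e (nat_lit 1458) (nat_lit 108) (.e (nat_lit 336060) (nat_lit 7) (.e (nat_lit 319533) (nat_lit 16) (.e (nat_lit 286753) (nat_lit 10) (.e (nat_lit 344097) (nat_lit 18) .nil))))) .nil)) 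
(.lf (nat_lit 58543) (.g (nat_lit 2663) (.e (nat_lit 1461) (nat_lit 108) (.e (nat_lit 336028) (nat_lit 3) (.e (nat_lit 98373) (nat_lit 29) (.e (nat_lit 450587) (nat_lit 10) (.e (nat_lit 573477) (nat_lit 12) .nil))))) .nil))) (.nd (nat_lit 5) 
(.lf (nat_lit 58527) (.g (nat_lit 3389) (.e (nat_lit 1460) (nat_lit 108) (.e (nat_lit 336013) (nat_lit 2) (.e (nat_lit 90170) (nat_lit 13) (.e (nat_lit 172106) (nat_lit 10) (.e (nat_lit 434231) (nat_lit 23) (.e (nat_lit 532481) (nat_lit 0) (.e (nat_lit 1906) (nat_lit 129) (.e (nat_lit 598022) (nat_lit 5) .nil)))))))) (.g (nat_lit 4) .nil .nil))) 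
(.lf (nat_lit 58559) (.g (nat_lit 1537) (.e (nat_lit 1462) (nat_lit 108) (.e (nat_lit 336028) (nat_lit 3) (.e (nat_lit 98372) (nat_lit 29) (.e (nat_lit 450586) (nat_lit 10) .nil)))) .nil))))))))

noncomputable def tv807 : DT := (.nd (nat_lit 0) (.nd (nat_lit 1) (.nd (nat_lit 2) (.nd (nat_lit 3) (.nd (nat_lit 4) (.nd (nat_lit 5) 
(.lf (nat_lit 58560) (.g (nat_lit 2765) (.e (nat_lit 1462) (nat_lit 108) (.e (nat_lit 336028) (nat_lit 3) (.e (nat_lit 98372) (nat_lit 29) (.e (nat_lit 450586) (nat_lit 10) (.e (nat_lit 573473) (nat_lit 12) (.e (nat_lit 57348) (nat_lit 0) (.e (nat_lit 7122) (nat_lit 382) (.e (nat_lit 1016) (nat_lit 81) .nil)))))))) (.g (nat_lit 5) .nil .nil))) 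
(.lf (nat_lit 58592) (.g (nat_lit 3844) (.e (nat_lit 1463) (nat_lit 108) (.e (nat_lit 336013) (nat_lit 2) (.e (nat_lit 90170) (nat_lit 13) (.e (nat_lit 172106) (nat_lit 10) (.e (nat_lit 434244) (nat_lit 28) (.e (nat_lit 573451) (nat_lit 9) (.e (nat_lit 1177) (nat_lit 87) (.e (nat_lit 57666) (nat_lit 152) (.e (nat_lit 1077) (nat_lit 81) .nil))))))))) (.g (nat_lit 9) .nil .nil)))) (.nd (nat_lit 5) 
(.lf (nat_lit 58576) (.g (nat_lit 1536) (.e (nat_lit 1462) (nat_lit 108) (.e (nat_lit 336177) (nat_lit 10) (.e (nat_lit 344117) (nat_lit 21) (.e (nat_lit 516139) (nat_lit 7) (.e (nat_lit 409649) (nat_lit 18) .nil))))) .nil)) 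
(.lf (nat_lit 58608) (.g (nat_lit 2689) (.e (nat_lit 1463) (nat_lit 108) (.e (nat_lit 336028) (nat_lit 3) (.e (nat_lit 98359) (nat_lit 26) (.e (nat_lit 426286) (nat_lit 10) (.e (nat_lit 434247) (nat_lit 28) (.e (nat_lit 573478) (nat_lit 12) (.e (nat_lit 57568) (nat_lit 53) (.e (nat_lit 761867) (nat_lit 5) .nil)))))))) (.g (nat_lit 0) .nil .nil))))) (.nd (nat_lit 4) (.nd (nat_lit 5) 
(.lf (nat_lit 58568) (.g (nat_lit 2534) (.e (nat_lit 1462) (nat_lit 108) (.e (nat_lit 336028) (nat_lit 3) (.e (nat_lit 98373) (nat_lit 29) (.e (nat_lit 450587) (nat_lit 10) (.e (nat_lit 573477) (nat_lit 12) .nil))))) .nil)) 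
(.lf (nat_lit 58600) (.g (nat_lit 3277) (.e (nat_lit 1463) (nat_lit 108) (.e (nat_lit 336013) (nat_lit 2) (.e (nat_lit 90170) (nat_lit 13) (.e (nat_lit 172113) (nat_lit 10) (.e (nat_lit 434247) (nat_lit 28) (.e (nat_lit 573478) (nat_lit 12) (.e (nat_lit 57568) (nat_lit 53) (.e (nat_lit 761867) (nat_lit 5) .nil)))))))) (.g (nat_lit 0) .nil .nil)))) (.nd (nat_lit 5) 
(.lf (nat_lit 58584) (.g (nat_lit 1909) (.e (nat_lit 1462) (nat_lit 108) (.e (nat_lit 336224) (nat_lit 13) (.e (nat_lit 393301) (nat_lit 27) (.e (nat_lit 491560) (nat_lit 10) (.e (nat_lit 344094) (nat_lit 18) .nil))))) .nil)) 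
(.lf (nat_lit 58616) (.g (nat_lit 3299) (.e (nat_lit 1463) (nat_lit 108) (.e (nat_lit 336028) (nat_lit 3) (.e (nat_lit 98372) (nat_lit 29) (.e (nat_lit 450586) (nat_lit 10) (.e (nat_lit 573475) (nat_lit 12) (.e (nat_lit 57569) (nat_lit 53) (.e (nat_lit 761866) (nat_lit 5) .nil))))))) (.g (nat_lit 6) .nil .nil)))))) (.nd (nat_lit 3) (.nd (nat_lit 4) (.nd (nat_lit 5) 
(.lf (nat_lit 58564) (.g (nat_lit 2100) (.e (nat_lit 1462) (nat_lit 108) (.e (nat_lit 336028) (nat_lit 3) (.e (nat_lit 98372) (nat_lit 29) (.e (nat_lit 450586) (nat_lit 10) (.e (nat_lit 573478) (nat_lit 12) .nil))))) .nil)) 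
(.lf (nat_lit 58596) (.g (nat_lit 4151) (.e (nat_lit 1463) (nat_lit 108) (.e (nat_lit 336013) (nat_lit 2) (.e (nat_lit 90170) (nat_lit 13) (.e (nat_lit 172113) (nat_lit 10) (.e (nat_lit 434245) (nat_lit 28) (.e (nat_lit 573473) (nat_lit 12) (.e (nat_lit 57569) (nat_lit 53) (.e (nat_lit 761867) (nat_lit 5) .nil)))))))) (.g (nat_lit 0) .nil .nil)))) (.nd (nat_lit 5) 
(.lf (nat_lit 58580) (.g (nat_lit 1824) (.e (nat_lit 1462) (nat_lit 108) (.e (nat_lit 336205) (nat_lit 12) (.e (nat_lit 385074) (nat_lit 31) (.e (nat_lit 573489) (nat_lit 14) (.e (nat_lit 73782) (nat_lit 32) .nil))))) .nil)) 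
(.lf (nat_lit 58612) (.g (nat_lit 3539) (.e (nat_lit 1463) (nat_lit 108) (.e (nat_lit 336028) (nat_lit 3) (.e (nat_lit 98372) (nat_lit 29) (.e (nat_lit 450586) (nat_lit 10) (.e (nat_lit 573473) (nat_lit 12) (.e (nat_lit 57569) (nat_lit 53) (.e (nat_lit 761866) (nat_lit 5) .nil))))))) (.g (nat_lit 0) .nil .nil))))) (.nd (nat_lit 4) (.nd (nat_lit 5) 
(.lf (nat_lit 58572) (.g (nat_lit 2722) (.e (nat_lit 1462) (nat_lit 108) (.e (nat_lit 336028) (nat_lit 3) (.e (nat_lit 98373) (nat_lit 29) (.e (nat_lit 450588) (nat_lit 10) (.e (nat_lit 573475) (nat_lit 12) .nil))))) .nil)) 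
(.lf (nat_lit 58604) (.g (nat_lit 4140) (.e (nat_lit 1463) (nat_lit 108) (.e (nat_lit 336028) (nat_lit 3) (.e (nat_lit 98359) (nat_lit 26) (.e (nat_lit 426286) (nat_lit 10) (.e (nat_lit 434245) (nat_lit 28) (.e (nat_lit 573473) (nat_lit 12) (.e (nat_lit 57569) (nat_lit 53) (.e (nat_lit 761866) (nat_lit 5) .nil)))))))) (.g (nat_lit 8) .nil .nil)))) (.nd (nat_lit 5) 
(.lf (nat_lit 58588) (.g (nat_lit 3506) (.e (nat_lit 1463) (nat_lit 108) (.e (nat_lit 336013) (nat_lit 2) (.e (nat_lit 90170) (nat_lit 13) (.e (nat_lit 172106) (nat_lit 10) (.e (nat_lit 434231) (nat_lit 23) (.e (nat_lit 532483) (nat_lit 0) (.e (nat_lit 7936) (nat_lit 129) (.e (nat_lit 598031) (nat_lit 5) .nil)))))))) (.g (nat_lit 6) .nil .nil))) 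
(.lf (nat_lit 58620) (.g (nat_lit 4379) (.e (nat_lit 1463) (nat_lit 108) (.e (nat_lit 336028) (nat_lit 3) (.e (nat_lit 98373) (nat_lit 29) (.e (nat_lit 450588) (nat_lit 10) (.e (nat_lit 573473) (nat_lit 12) (.e (nat_lit 57569) (nat_lit 53) (.e (nat_lit 761866) (nat_lit 5) .nil))))))) (.g (nat_lit 0) .nil .nil))))))) (.nd (nat_lit 2) (.nd (nat_lit 3) (.nd (nat_lit 4) (.nd (nat_lit 5) 
(.lf (nat_lit 58562) (.g (nat_lit 2123) (.e (nat_lit 1462) (nat_lit 108) (.e (nat_lit 336028) (nat_lit 3) (.e (nat_lit 98372) (nat_lit 29) (.e (nat_lit 450586) (nat_lit 10) (.e (nat_lit 573475) (nat_lit 12) .nil))))) .nil)) 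
(.lf (nat_lit 58594) (.g (nat_lit 4606) (.e (nat_lit 1463) (nat_lit 108) (.e (nat_lit 336013) (nat_lit 2) (.e (nat_lit 90170) (nat_lit 13) (.e (nat_lit 172106) (nat_lit 10) (.e (nat_lit 434244) (nat_lit 28) (.e (nat_lit 573473) (nat_lit 12) (.e (nat_lit 57569) (nat_lit 53) (.e (nat_lit 761868) (nat_lit 5) .nil)))))))) (.g (nat_lit 7) .nil .nil)))) (.nd (nat_lit 5) 
(.lf (nat_lit 58578) (.g (nat_lit 1901) (.e (nat_lit 1462) (nat_lit 108) (.e (nat_lit 336205) (nat_lit 12) (.e (nat_lit 385074) (nat_lit 31) (.e (nat_lit 573487) (nat_lit 14) (.e (nat_lit 73782) (nat_lit 32) .nil))))) .nil)) 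
(.lf (nat_lit 58610) (.g (nat_lit 3850) (.e (nat_lit 1463) (nat_lit 108) (.e (nat_lit 336028) (nat_lit 3) (.e (nat_lit 98359) (nat_lit 26) (.e (nat_lit 426286) (nat_lit 10) (.e (nat_lit 434248) (nat_lit 28) (.e (nat_lit 573473) (nat_lit 12) (.e (nat_lit 57569) (nat_lit 53) (.e (nat_lit 761867) (nat_lit 5) .nil)))))))) (.g (nat_lit 8) .nil .nil))))) (.nd (nat_lit 4) (.nd (nat_lit 5) 
(.lf (nat_lit 58570) (.g (nat_lit 2494) (.e (nat_lit 1462) (nat_lit 108) (.e (nat_lit 336028) (nat_lit 3) (.e (nat_lit 98373) (nat_lit 29) (.e (nat_lit 450587) (nat_lit 10) (.e (nat_lit 573478) (nat_lit 12) .nil))))) .nil)) 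
(.lf (nat_lit 58602) (.g (nat_lit 3886) (.e (nat_lit 1463) (nat_lit 108) (.e (nat_lit 336013) (nat_lit 2) (.e (nat_lit 90170) (nat_lit 13) (.e (nat_lit 172113) (nat_lit 10) (.e (nat_lit 434248) (nat_lit 28) (.e (nat_lit 573475) (nat_lit 12) (.e (nat_lit 57568) (nat_lit 53) (.e (nat_lit 761867) (nat_lit 5) .nil)))))))) (.g (nat_lit 0) .nil .nil)))) (.nd (nat_lit 5) 
(.lf (nat_lit 58586) (.g (nat_lit 3104) (.e (nat_lit 1463) (nat_lit 108) (.e (nat_lit 336013) (nat_lit 2) (.e (nat_lit 90170) (nat_lit 13) (.e (nat_lit 172106) (nat_lit 10) (.e (nat_lit 434231) (nat_lit 23) (.e (nat_lit 532483) (nat_lit 0) (.e (nat_lit 1030) (nat_lit 81) (.e (nat_lit 4506) (nat_lit 263) (.e (nat_lit 1074) (nat_lit 81) .nil))))))))) (.g (nat_lit 5) .nil .nil))) 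
(.lf (nat_lit 58618) (.g (nat_lit 3384) (.e (nat_lit 1463) (nat_lit 108) (.e (nat_lit 336028) (nat_lit 3) (.e (nat_lit 98373) (nat_lit 29) (.e (nat_lit 450587) (nat_lit 10) (.e (nat_lit 573472) (nat_lit 12) .nil))))) .nil))))) (.nd (nat_lit 3) (.nd (nat_lit 4) (.nd (nat_lit 5) 
(.lf (nat_lit 58566) (.g (nat_lit 3266) (.e (nat_lit 1462) (nat_lit 108) (.e (nat_lit 336028) (nat_lit 3) (.e (nat_lit 98372) (nat_lit 29) (.e (nat_lit 450588) (nat_lit 10) (.e (nat_lit 573475) (nat_lit 12) .nil))))) .nil)) 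
(.lf (nat_lit 58598) (.g (nat_lit 3833) (.e (nat_lit 1463) (nat_lit 108) (.e (nat_lit 336013) (nat_lit 2) (.e (nat_lit 90170) (nat_lit 13) (.e (nat_lit 172113) (nat_lit 10) (.e (nat_lit 434245) (nat_lit 28) (.e (nat_lit 573474) (nat_lit 12) (.e (nat_lit 57568) (nat_lit 53) (.e (nat_lit 761867) (nat_lit 5) .nil)))))))) (.g (nat_lit 0) .nil .nil)))) (.nd (nat_lit 5) 
(.lf (nat_lit 58582) (.g (nat_lit 1979) (.e (nat_lit 1462) (nat_lit 108) (.e (nat_lit 336224) (nat_lit 13) (.e (nat_lit 393301) (nat_lit 27) (.e (nat_lit 491558) (nat_lit 10) (.e (nat_lit 344095) (nat_lit 18) .nil))))) .nil)) 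
(.lf (nat_lit 58614) (.g (nat_lit 3276) (.e (nat_lit 1463) (nat_lit 108) (.e (nat_lit 336028) (nat_lit 3) (.e (nat_lit 98372) (nat_lit 29) (.e (nat_lit 450586) (nat_lit 10) (.e (nat_lit 573473) (nat_lit 12) (.e (nat_lit 57569) (nat_lit 53) (.e (nat_lit 761869) (nat_lit 5) .nil))))))) (.g (nat_lit 7) .nil .nil))))) (.nd (nat_lit 4) (.nd (nat_lit 5) 
(.lf (nat_lit 58574) (.g (nat_lit 2500) (.e (nat_lit 1462) (nat_lit 108) (.e (nat_lit 336164) (nat_lit 10) (.e (nat_lit 344117) (nat_lit 21) (.e (nat_lit 516099) (nat_lit 0) (.e (nat_lit 7936) (nat_lit 377) .nil))))) .nil)) 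
(.lf (nat_lit 58606) (.g (nat_lit 3926) (.e (nat_lit 1463) (nat_lit 108) (.e (nat_lit 336028) (nat_lit 3) (.e (nat_lit 98359) (nat_lit 26) (.e (nat_lit 426286) (nat_lit 10) (.e (nat_lit 434245) (nat_lit 28) (.e (nat_lit 573473) (nat_lit 12) (.e (nat_lit 57569) (nat_lit 53) (.e (nat_lit 761868) (nat_lit 5) .nil)))))))) (.g (nat_lit 8) .nil .nil)))) (.nd (nat_lit 5) 
(.lf (nat_lit 58590) (.g (nat_lit 3590) (.e (nat_lit 1463) (nat_lit 108) (.e (nat_lit 336013) (nat_lit 2) (.e (nat_lit 90170) (nat_lit 13) (.e (nat_lit 172106) (nat_lit 10) (.e (nat_lit 434244) (nat_lit 28) (.e (nat_lit 573451) (nat_lit 9) (.e (nat_lit 982) (nat_lit 81) (.e (nat_lit 2270) (nat_lit 149) (.e (nat_lit 761868) (nat_lit 5) .nil))))))))) (.g (nat_lit 9) .nil .nil))) 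
(.lf (nat_lit 58622) (.g (nat_lit 4112) (.e (nat_lit 1463) (nat_lit 108) (.e (nat_lit 336028) (nat_lit 3) (.e (nat_lit 98373) (nat_lit 29) (.e (nat_lit 450588) (nat_lit 10) (.e (nat_lit 573473) (nat_lit 12) (.e (nat_lit 57569) (nat_lit 53) (.e (nat_lit 761869) (nat_lit 5) .nil))))))) (.g (nat_lit 7) .nil .nil)))))))) 
(.nd (nat_lit 1) (.nd (nat_lit 2) (.nd (nat_lit 3) (.nd (nat_lit 4) (.nd (nat_lit 5) 
(.lf (nat_lit 58561) (.g (nat_lit 3121) (.e (nat_lit 1462) (nat_lit 108) (.e (nat_lit 336028) (nat_lit 3) (.e (nat_lit 98372) (nat_lit 29) (.e (nat_lit 450586) (nat_lit 10) (.e (nat_lit 573473) (nat_lit 12) (.e (nat_lit 57348) (nat_lit 0) (.e (nat_lit 7124) (nat_lit 382) (.e (nat_lit 1016) (nat_lit 81) .nil)))))))) (.g (nat_lit 6) .nil .nil))) 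
(.lf (nat_lit 58593) (.g (nat_lit 4445) (.e (nat_lit 1463) (nat_lit 108) (.e (nat_lit 336013) (nat_lit 2) (.e (nat_lit 90170) (nat_lit 13) (.e (nat_lit 172106) (nat_lit 10) (.e (nat_lit 434244) (nat_lit 28) (.e (nat_lit 573473) (nat_lit 12) (.e (nat_lit 57569) (nat_lit 53) (.e (nat_lit 761867) (nat_lit 5) .nil)))))))) (.g (nat_lit 7) .nil .nil)))) (.nd (nat_lit 5) 
(.lf (nat_lit 58577) (.g (nat_lit 1963) (.e (nat_lit 1462) (nat_lit 108) (.e (nat_lit 336205) (nat_lit 12) (.e (nat_lit 385074) (nat_lit 31) (.e (nat_lit 573487) (nat_lit 14) (.e (nat_lit 73781) (nat_lit 32) .nil))))) .nil)) 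
(.lf (nat_lit 58609) (.g (nat_lit 4185) (.e (nat_lit 1463) (nat_lit 108) (.e (nat_lit 336028) (nat_lit 3) (.e (nat_lit 98359) (nat_lit 26) (.e (nat_lit 426286) (nat_lit 10) (.e (nat_lit 434248) (nat_lit 28) (.e (nat_lit 573473) (nat_lit 12) (.e (nat_lit 57569) (nat_lit 53) (.e (nat_lit 761866) (nat_lit 5) .nil)))))))) (.g (nat_lit 8) .nil .nil))))) (.nd (nat_lit 4) (.nd (nat_lit 5) 
(.lf (nat_lit 58569) (.g (nat_lit 2940) (.e (nat_lit 1462) (nat_lit 108) (.e (nat_lit 336028) (nat_lit 3) (.e (nat_lit 98373) (nat_lit 29) (.e (nat_lit 450587) (nat_lit 10) (.e (nat_lit 573477) (nat_lit 12) (.e (nat_lit 57353) (nat_lit 0) (.e (nat_lit 7122) (nat_lit 382) (.e (nat_lit 1016) (nat_lit 81) .nil)))))))) (.g (nat_lit 5) .nil .nil))) 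
(.lf (nat_lit 58601) (.g (nat_lit 4239) (.e (nat_lit 1463) (nat_lit 108) (.e (nat_lit 336013) (nat_lit 2) (.e (nat_lit 90170) (nat_lit 13) (.e (nat_lit 172113) (nat_lit 10) (.e (nat_lit 434248) (nat_lit 28) (.e (nat_lit 573473) (nat_lit 12) (.e (nat_lit 57569) (nat_lit 53) (.e (nat_lit 761867) (nat_lit 5) .nil)))))))) (.g (nat_lit 0) .nil .nil)))) (.nd (nat_lit 5) 
(.lf (nat_lit 58585) (.g (nat_lit 2643) (.e (nat_lit 1462) (nat_lit 108) (.e (nat_lit 336224) (nat_lit 13) (.e (nat_lit 393301) (nat_lit 27) (.e (nat_lit 491560) (nat_lit 10) (.e (nat_lit 344096) (nat_lit 18) .nil))))) .nil)) 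
(.lf (nat_lit 58617) (.g (nat_lit 2065) (.e (nat_lit 1463) (nat_lit 108) (.e (nat_lit 336028) (nat_lit 3) (.e (nat_lit 98372) (nat_lit 29) (.e (nat_lit 450586) (nat_lit 10) (.e (nat_lit 573478) (nat_lit 12) (.e (nat_lit 57568) (nat_lit 53) (.e (nat_lit 761867) (nat_lit 5) .nil))))))) (.g (nat_lit 0) .nil .nil)))))) (.nd (nat_lit 3) (.nd (nat_lit 4) (.nd (nat_lit 5) 
(.lf (nat_lit 58565) (.g (nat_lit 3304) (.e (nat_lit 1462) (nat_lit 108) (.e (nat_lit 336028) (nat_lit 3) (.e (nat_lit 98372) (nat_lit 29) (.e (nat_lit 450588) (nat_lit 10) (.e (nat_lit 573473) (nat_lit 12) .nil))))) .nil)) 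
(.lf (nat_lit 58597) (.g (nat_lit 4260) (.e (nat_lit 1463) (nat_lit 108) (.e (nat_lit 336013) (nat_lit 2) (.e (nat_lit 90170) (nat_lit 13) (.e (nat_lit 172113) (nat_lit 10) (.e (nat_lit 434245) (nat_lit 28) (.e (nat_lit 573473) (nat_lit 12) (.e (nat_lit 57569) (nat_lit 53) (.e (nat_lit 761868) (nat_lit 5) .nil)))))))) (.g (nat_lit 0) .nil .nil)))) (.nd (nat_lit 5) 
(.lf (nat_lit 58581) (.g (nat_lit 1466) (.e (nat_lit 1462) (nat_lit 108) (.e (nat_lit 336224) (nat_lit 13) (.e (nat_lit 393234) (nat_lit 17) (.e (nat_lit 7593) (nat_lit 407) (.e (nat_lit 73729) (nat_lit 0) .nil))))) .nil)) 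
(.lf (nat_lit 58613) (.g (nat_lit 3214) (.e (nat_lit 1463) (nat_lit 108) (.e (nat_lit 336028) (nat_lit 3) (.e (nat_lit 98372) (nat_lit 29) (.e (nat_lit 450586) (nat_lit 10) (.e (nat_lit 573473) (nat_lit 12) (.e (nat_lit 57569) (nat_lit 53) (.e (nat_lit 761867) (nat_lit 5) .nil))))))) (.g (nat_lit 0) .nil .nil))))) (.nd (nat_lit 4) (.nd (nat_lit 5) 
(.lf (nat_lit 58573) (.g (nat_lit 2192) (.e (nat_lit 1462) (nat_lit 108) (.e (nat_lit 336060) (nat_lit 7) (.e (nat_lit 319534) (nat_lit 16) (.e (nat_lit 286756) (nat_lit 10) (.e (nat_lit 344160) (nat_lit 37) .nil))))) .nil)) 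
(.lf (nat_lit 58605) (.g (nat_lit 3807) (.e (nat_lit 1463) (nat_lit 108) (.e (nat_lit 336028) (nat_lit 3) (.e (nat_lit 98359) (nat_lit 26) (.e (nat_lit 426286) (nat_lit 10) (.e (nat_lit 434245) (nat_lit 28) (.e (nat_lit 573473) (nat_lit 12) (.e (nat_lit 57569) (nat_lit 53) (.e (nat_lit 761867) (nat_lit 5) .nil)))))))) (.g (nat_lit 8) .nil .nil)))) (.nd (nat_lit 5) 
(.lf (nat_lit 58589) (.g (nat_lit 4557) (.e (nat_lit 1463) (nat_lit 108) (.e (nat_lit 336013) (nat_lit 2) (.e (nat_lit 90170) (nat_lit 13) (.e (nat_lit 172106) (nat_lit 10) (.e (nat_lit 434231) (nat_lit 23) (.e (nat_lit 532500) (nat_lit 1) (.e (nat_lit 57765) (nat_lit 221) (.e (nat_lit 1077) (nat_lit 81) .nil)))))))) (.g (nat_lit 6) .nil .nil))) 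
(.lf (nat_lit 58621) (.g (nat_lit 4055) (.e (nat_lit 1463) (nat_lit 108) (.e (nat_lit 336028) (nat_lit 3) (.e (nat_lit 98373) (nat_lit 29) (.e (nat_lit 450588) (nat_lit 10) (.e (nat_lit 573473) (nat_lit 12) (.e (nat_lit 57569) (nat_lit 53) (.e (nat_lit 761867) (nat_lit 5) .nil))))))) (.g (nat_lit 0) .nil .nil))))))) (.nd (nat_lit 2) (.nd (nat_lit 3) (.nd (nat_lit 4) (.nd (nat_lit 5) 
(.lf (nat_lit 58563) (.g (nat_lit 2154) (.e (nat_lit 1462) (nat_lit 108) (.e (nat_lit 336028) (nat_lit 3) (.e (nat_lit 98372) (nat_lit 29) (.e (nat_lit 450586) (nat_lit 10) (.e (nat_lit 573477) (nat_lit 12) .nil))))) .nil)) 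
(.lf (nat_lit 58595) (.g (nat_lit 1776) (.e (nat_lit 1463) (nat_lit 108) (.e (nat_lit 336013) (nat_lit 2) (.e (nat_lit 90170) (nat_lit 13) (.e (nat_lit 172113) (nat_lit 10) (.e (nat_lit 434242) (nat_lit 28) .nil))))) .nil))) (.nd (nat_lit 5) 
(.lf (nat_lit 58579) (.g (nat_lit 1761) (.e (nat_lit 1462) (nat_lit 108) (.e (nat_lit 336205) (nat_lit 12) (.e (nat_lit 385074) (nat_lit 31) (.e (nat_lit 573489) (nat_lit 14) (.e (nat_lit 73781) (nat_lit 32) .nil))))) .nil)) 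
(.lf (nat_lit 58611) (.g (nat_lit 3471) (.e (nat_lit 1463) (nat_lit 108) (.e (nat_lit 336028) (nat_lit 3) (.e (nat_lit 98359) (nat_lit 26) (.e (nat_lit 426286) (nat_lit 10) (.e (nat_lit 434248) (nat_lit 28) (.e (nat_lit 573475) (nat_lit 12) (.e (nat_lit 57568) (nat_lit 53) (.e (nat_lit 761867) (nat_lit 5) .nil)))))))) (.g (nat_lit 0) .nil .nil))))) (.nd (nat_lit 4) (.nd (nat_lit 5) 
(.lf (nat_lit 58571) (.g (nat_lit 2721) (.e (nat_lit 1462) (nat_lit 108) (.e (nat_lit 336028) (nat_lit 3) (.e (nat_lit 98373) (nat_lit 29) (.e (nat_lit 450588) (nat_lit 10) (.e (nat_lit 573473) (nat_lit 12) .nil))))) .nil)) 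
(.lf (nat_lit 58603) (.g (nat_lit 4770) (.e (nat_lit 1463) (nat_lit 108) (.e (nat_lit 336013) (nat_lit 2) (.e (nat_lit 90170) (nat_lit 13) (.e (nat_lit 172113) (nat_lit 10) (.e (nat_lit 434248) (nat_lit 28) (.e (nat_lit 573475) (nat_lit 12) (.e (nat_lit 57569) (nat_lit 53) (.e (nat_lit 761868) (nat_lit 5) .nil)))))))) (.g (nat_lit 0) .nil .nil)))) (.nd (nat_lit 5) 
(.lf (nat_lit 58587) (.g (nat_lit 3379) (.e (nat_lit 1463) (nat_lit 108) (.e (nat_lit 336013) (nat_lit 2) (.e (nat_lit 90170) (nat_lit 13) (.e (nat_lit 172106) (nat_lit 10) (.e (nat_lit 434231) (nat_lit 23) (.e (nat_lit 532483) (nat_lit 0) (.e (nat_lit 1912) (nat_lit 129) (.e (nat_lit 605952) (nat_lit 5) .nil)))))))) (.g (nat_lit 7) .nil .nil))) 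
(.lf (nat_lit 58619) (.g (nat_lit 2623) (.e (nat_lit 1463) (nat_lit 108) (.e (nat_lit 336028) (nat_lit 3) (.e (nat_lit 98373) (nat_lit 29) (.e (nat_lit 450587) (nat_lit 10) (.e (nat_lit 573478) (nat_lit 12) (.e (nat_lit 57568) (nat_lit 53) (.e (nat_lit 761867) (nat_lit 5) .nil))))))) (.g (nat_lit 0) .nil .nil)))))) (.nd (nat_lit 3) (.nd (nat_lit 4) (.nd (nat_lit 5) 
(.lf (nat_lit 58567) (.g (nat_lit 3824) (.e (nat_lit 1462) (nat_lit 108) (.e (nat_lit 336028) (nat_lit 3) (.e (nat_lit 98373) (nat_lit 29) (.e (nat_lit 450587) (nat_lit 10) (.e (nat_lit 573472) (nat_lit 12) .nil))))) .nil)) 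
(.lf (nat_lit 58599) (.g (nat_lit 4787) (.e (nat_lit 1463) (nat_lit 108) (.e (nat_lit 336013) (nat_lit 2) (.e (nat_lit 90170) (nat_lit 13) (.e (nat_lit 172113) (nat_lit 10) (.e (nat_lit 434245) (nat_lit 28) (.e (nat_lit 573474) (nat_lit 12) (.e (nat_lit 57569) (nat_lit 53) (.e (nat_lit 761868) (nat_lit 5) .nil)))))))) (.g (nat_lit 0) .nil .nil)))) (.nd (nat_lit 5) 
(.lf (nat_lit 58583) (.g (nat_lit 959) (.e (nat_lit 1462) (nat_lit 108) (.e (nat_lit 336224) (nat_lit 13) (.e (nat_lit 393301) (nat_lit 27) (.e (nat_lit 491560) (nat_lit 10) .nil)))) .nil)) 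
(.lf (nat_lit 58615) (.g (nat_lit 2625) (.e (nat_lit 1463) (nat_lit 108) (.e (nat_lit 336028) (nat_lit 3) (.e (nat_lit 98372) (nat_lit 29) (.e (nat_lit 450586) (nat_lit 10) (.e (nat_lit 573475) (nat_lit 12) (.e (nat_lit 57568) (nat_lit 53) (.e (nat_lit 761867) (nat_lit 5) .nil))))))) (.g (nat_lit 0) .nil .nil))))) (.nd (nat_lit 4) (.nd (nat_lit 5) 
(.lf (nat_lit 58575) (.g (nat_lit 2383) (.e (nat_lit 1462) (nat_lit 108) (.e (nat_lit 336177) (nat_lit 10) (.e (nat_lit 344117) (nat_lit 21) (.e (nat_lit 516099) (nat_lit 0) .nil)))) .nil)) 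
(.lf (nat_lit 58607) (.g (nat_lit 3507) (.e (nat_lit 1463) (nat_lit 108) (.e (nat_lit 336028) (nat_lit 3) (.e (nat_lit 98359) (nat_lit 26) (.e (nat_lit 426286) (nat_lit 10) (.e (nat_lit 434245) (nat_lit 28) (.e (nat_lit 573474) (nat_lit 12) (.e (nat_lit 57568) (nat_lit 53) (.e (nat_lit 761867) (nat_lit 5) .nil)))))))) (.g (nat_lit 0) .nil .nil)))) (.nd (nat_lit 5) 
(.lf (nat_lit 58591) (.g (nat_lit 2862) (.e (nat_lit 1463) (nat_lit 108) (.e (nat_lit 336013) (nat_lit 2) (.e (nat_lit 90170) (nat_lit 13) (.e (nat_lit 172106) (nat_lit 10) (.e (nat_lit 434244) (nat_lit 28) (.e (nat_lit 573451) (nat_lit 9) (.e (nat_lit 1032) (nat_lit 81) (.e (nat_lit 2270) (nat_lit 149) (.e (nat_lit 761868) (nat_lit 5) .nil))))))))) (.g (nat_lit 7) .nil .nil))) 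
(.lf (nat_lit 58623) (.g (nat_lit 3498) (.e (nat_lit 1463) (nat_lit 108) (.e (nat_lit 336028) (nat_lit 3) (.e (nat_lit 98373) (nat_lit 29) (.e (nat_lit 450588) (nat_lit 10) (.e (nat_lit 573475) (nat_lit 12) (.e (nat_lit 57568) (nat_lit 53) (.e (nat_lit 761866) (nat_lit 5) .nil))))))) (.g (nat_lit 0) .nil .nil)))))))))

noncomputable def tv808 : DT := (.nd (nat_lit 0) (.nd (nat_lit 1) (.nd (nat_lit 2) (.nd (nat_lit 3) (.nd (nat_lit 4) (.nd (nat_lit 5) 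
(.lf (nat_lit 58624) (.g (nat_lit 3361) (.e (nat_lit 1463) (nat_lit 108) (.e (nat_lit 336028) (nat_lit 3) (.e (nat_lit 98373) (nat_lit 29) (.e (nat_lit 450588) (nat_lit 10) (.e (nat_lit 573475) (nat_lit 12) (.e (nat_lit 57568) (nat_lit 53) (.e (nat_lit 761867) (nat_lit 5) .nil))))))) (.g (nat_lit 0) .nil .nil))) 
(.lf (nat_lit 58656) (.g (nat_lit 3036) (.e (nat_lit 1464) (nat_lit 108) (.e (nat_lit 335915) (nat_lit 0) (.e (nat_lit 1812) (nat_lit 120) (.e (nat_lit 524322) (nat_lit 12) (.e (nat_lit 450588) (nat_lit 10) (.e (nat_lit 573474) (nat_lit 12) (.e (nat_lit 57572) (nat_lit 54) (.e (nat_lit 770057) (nat_lit 5) .nil)))))))) (.g (nat_lit 0) .nil .nil)))) (.nd (nat_lit 5) 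
(.lf (nat_lit 58640) (.g (nat_lit 1561) (.e (nat_lit 1463) (nat_lit 108) (.e (nat_lit 336224) (nat_lit 13) (.e (nat_lit 393234) (nat_lit 17) (.e (nat_lit 7591) (nat_lit 407) (.e (nat_lit 73772) (nat_lit 24) (.e (nat_lit 761867) (nat_lit 5) .nil)))))) (.g (nat_lit 4) .nil .nil))) 
(.lf (nat_lit 58672) (.g (nat_lit 3802) (.e (nat_lit 1464) (nat_lit 108) (.e (nat_lit 336013) (nat_lit 2) (.e (nat_lit 90170) (nat_lit 13) (.e (nat_lit 172106) (nat_lit 10) (.e (nat_lit 434231) (nat_lit 23) (.e (nat_lit 532499) (nat_lit 1) (.e (nat_lit 57766) (nat_lit 221) (.e (nat_lit 1008) (nat_lit 81) .nil)))))))) (.g (nat_lit 6) .nil .nil))))) (.nd (nat_lit 4) (.nd (nat_lit 5) 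
(.lf (nat_lit 58632) (.g (nat_lit 1541) (.e (nat_lit 1463) (nat_lit 108) (.e (nat_lit 336193) (nat_lit 12) (.e (nat_lit 385105) (nat_lit 50) (.e (nat_lit 786480) (nat_lit 29) .nil)))) .nil)) 
(.lf (nat_lit 58664) (.g (nat_lit 2697) (.e (nat_lit 1464) (nat_lit 108) (.e (nat_lit 336013) (nat_lit 2) (.e (nat_lit 90170) (nat_lit 13) (.e (nat_lit 172106) (nat_lit 10) (.e (nat_lit 434231) (nat_lit 23) (.e (nat_lit 532483) (nat_lit 0) (.e (nat_lit 1912) (nat_lit 129) (.e (nat_lit 605952) (nat_lit 5) .nil)))))))) (.g (nat_lit 6) .nil .nil)))) (.nd (nat_lit 5) 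
(.lf (nat_lit 58648) (.g (nat_lit 2141) (.e (nat_lit 1463) (nat_lit 108) (.e (nat_lit 336228) (nat_lit 14) (.e (nat_lit 401459) (nat_lit 13) (.e (nat_lit 483380) (nat_lit 23) (.e (nat_lit 336355) (nat_lit 24) (.e (nat_lit 262147) (nat_lit 0) .nil)))))) (.g (nat_lit 4) .nil .nil))) 
(.lf (nat_lit 58680) (.g (nat_lit 2825) (.e (nat_lit 1464) (nat_lit 108) (.e (nat_lit 336013) (nat_lit 2) (.e (nat_lit 90170) (nat_lit 13) (.e (nat_lit 172113) (nat_lit 10) (.e (nat_lit 434242) (nat_lit 28) (.e (nat_lit 573472) (nat_lit 12) (.e (nat_lit 57570) (nat_lit 54) (.e (nat_lit 770056) (nat_lit 5) .nil)))))))) (.g (nat_lit 7) .nil .nil)))))) 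
(.nd (nat_lit 3) (.nd (nat_lit 4) (.nd (nat_lit 5) 
(.lf (nat_lit 58628) (.g (nat_lit 3084) (.e (nat_lit 1463) (nat_lit 108) (.e (nat_lit 336060) (nat_lit 7) (.e (nat_lit 319505) (nat_lit 10) (.e (nat_lit 618) (nat_lit 48) (.e (nat_lit 557103) (nat_lit 14) (.e (nat_lit 180285) (nat_lit 45) (.e (nat_lit 2580) (nat_lit 161) (.e (nat_lit 40964) (nat_lit 0) .nil)))))))) (.g (nat_lit 6) .nil .nil))) 
(.lf (nat_lit 58660) (.g (nat_lit 4298) (.e (nat_lit 1464) (nat_lit 108) (.e (nat_lit 336013) (nat_lit 2) (.e (nat_lit 90170) (nat_lit 13) (.e (nat_lit 172106) (nat_lit 10) (.e (nat_lit 434231) (nat_lit 23) (.e (nat_lit 532481) (nat_lit 0) (.e (nat_lit 1911) (nat_lit 129) (.e (nat_lit 598025) (nat_lit 5) .nil)))))))) (.g (nat_lit 7) .nil .nil)))) (.nd (nat_lit 5) 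
(.lf (nat_lit 58644) (.g (nat_lit 2582) (.e (nat_lit 1463) (nat_lit 108) (.e (nat_lit 336224) (nat_lit 13) (.e (nat_lit 393301) (nat_lit 27) (.e (nat_lit 491558) (nat_lit 10) (.e (nat_lit 344174) (nat_lit 42) (.e (nat_lit 761869) (nat_lit 5) .nil)))))) (.g (nat_lit 0) .nil .nil))) 
(.lf (nat_lit 58676) (.g (nat_lit 4003) (.e (nat_lit 1464) (nat_lit 108) (.e (nat_lit 336013) (nat_lit 2) (.e (nat_lit 90170) (nat_lit 13) (.e (nat_lit 172106) (nat_lit 10) (.e (nat_lit 434231) (nat_lit 23) (.e (nat_lit 532500) (nat_lit 1) (.e (nat_lit 57766) (nat_lit 221) (.e (nat_lit 1011) (nat_lit 81) .nil)))))))) (.g (nat_lit 6) .nil .nil))))) (.nd (nat_lit 4) (.nd (nat_lit 5) 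
(.lf (nat_lit 58636) (.g (nat_lit 1679) (.e (nat_lit 1463) (nat_lit 108) (.e (nat_lit 336205) (nat_lit 12) (.e (nat_lit 385105) (nat_lit 50) (.e (nat_lit 786480) (nat_lit 29) (.e (nat_lit 352270) (nat_lit 8) .nil))))) .nil)) 
(.lf (nat_lit 58668) (.g (nat_lit 2954) (.e (nat_lit 1464) (nat_lit 108) (.e (nat_lit 336013) (nat_lit 2) (.e (nat_lit 90170) (nat_lit 13) (.e (nat_lit 172106) (nat_lit 10) (.e (nat_lit 434231) (nat_lit 23) (.e (nat_lit 532490) (nat_lit 0) (.e (nat_lit 1907) (nat_lit 129) (.e (nat_lit 598025) (nat_lit 5) .nil)))))))) (.g (nat_lit 6) .nil .nil)))) (.nd (nat_lit 5) 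
(.lf (nat_lit 58652) (.g (nat_lit 4676) (.e (nat_lit 1464) (nat_lit 108) (.e (nat_lit 335907) (nat_lit 0) (.e (nat_lit 2355) (nat_lit 152) (.e (nat_lit 786483) (nat_lit 30) (.e (nat_lit 360474) (nat_lit 8) (.e (nat_lit 557091) (nat_lit 12) (.e (nat_lit 163999) (nat_lit 38) (.e (nat_lit 639007) (nat_lit 13) .nil)))))))) (.g (nat_lit 7) .nil .nil))) 
(.lf (nat_lit 58684) (.g (nat_lit 5121) (.e (nat_lit 1464) (nat_lit 108) (.e (nat_lit 336013) (nat_lit 2) (.e (nat_lit 90170) (nat_lit 13) (.e (nat_lit 172113) (nat_lit 10) (.e (nat_lit 434242) (nat_lit 28) (.e (nat_lit 573474) (nat_lit 12) (.e (nat_lit 57572) (nat_lit 54) (.e (nat_lit 770055) (nat_lit 5) .nil)))))))) (.g (nat_lit 7) .nil .nil))))))) 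
(.nd (nat_lit 2) (.nd (nat_lit 3) (.nd (nat_lit 4) (.nd (nat_lit 5) 
(.lf (nat_lit 58626) (.g (nat_lit 2590) (.e (nat_lit 1463) (nat_lit 108) (.e (nat_lit 336060) (nat_lit 7) (.e (nat_lit 319505) (nat_lit 10) (.e (nat_lit 618) (nat_lit 48) (.e (nat_lit 557103) (nat_lit 14) (.e (nat_lit 180285) (nat_lit 45) (.e (nat_lit 2579) (nat_lit 161) (.e (nat_lit 40963) (nat_lit 0) .nil)))))))) (.g (nat_lit 5) .nil .nil))) 
(.lf (nat_lit 58658) (.g (nat_lit 4188) (.e (nat_lit 1464) (nat_lit 108) (.e (nat_lit 336013) (nat_lit 2) (.e (nat_lit 90170) (nat_lit 13) (.e (nat_lit 172106) (nat_lit 10) (.e (nat_lit 434231) (nat_lit 23) (.e (nat_lit 532481) (nat_lit 0) (.e (nat_lit 1905) (nat_lit 129) (.e (nat_lit 598025) (nat_lit 5) .nil)))))))) (.g (nat_lit 8) .nil .nil)))) (.nd (nat_lit 5) 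
(.lf (nat_lit 58642) (.g (nat_lit 2734) (.e (nat_lit 1463) (nat_lit 108) (.e (nat_lit 336224) (nat_lit 13) (.e (nat_lit 393301) (nat_lit 27) (.e (nat_lit 491558) (nat_lit 10) (.e (nat_lit 344174) (nat_lit 42) (.e (nat_lit 761866) (nat_lit 5) .nil)))))) (.g (nat_lit 0) .nil .nil))) 
(.lf (nat_lit 58674) (.g (nat_lit 3805) (.e (nat_lit 1464) (nat_lit 108) (.e (nat_lit 336013) (nat_lit 2) (.e (nat_lit 90170) (nat_lit 13) (.e (nat_lit 172106) (nat_lit 10) (.e (nat_lit 434231) (nat_lit 23) (.e (nat_lit 532499) (nat_lit 1) (.e (nat_lit 65280) (nat_lit 221) (.e (nat_lit 1010) (nat_lit 81) .nil)))))))) (.g (nat_lit 6) .nil .nil))))) (.nd (nat_lit 4) (.nd (nat_lit 5) 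
(.lf (nat_lit 58634) (.g (nat_lit 1151) (.e (nat_lit 1463) (nat_lit 108) (.e (nat_lit 336205) (nat_lit 12) (.e (nat_lit 385094) (nat_lit 49) (.e (nat_lit 778326) (nat_lit 6) .nil)))) .nil)) 
(.lf (nat_lit 58666) (.g (nat_lit 3249) (.e (nat_lit 1464) (nat_lit 108) (.e (nat_lit 336013) (nat_lit 2) (.e (nat_lit 90170) (nat_lit 13) (.e (nat_lit 172106) (nat_lit 10) (.e (nat_lit 434231) (nat_lit 23) (.e (nat_lit 532490) (nat_lit 0) (.e (nat_lit 1905) (nat_lit 129) (.e (nat_lit 598025) (nat_lit 5) .nil)))))))) (.g (nat_lit 8) .nil .nil)))) (.nd (nat_lit 5) 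
(.lf (nat_lit 58650) (.g (nat_lit 2056) (.e (nat_lit 1464) (nat_lit 108) (.e (nat_lit 335907) (nat_lit 0) (.e (nat_lit 1994) (nat_lit 137) (.e (nat_lit 663565) (nat_lit 3) (.e (nat_lit 57478) (nat_lit 28) (.e (nat_lit 557107) (nat_lit 15) (.e (nat_lit 188447) (nat_lit 22) (.e (nat_lit 196630) (nat_lit 9) .nil)))))))) (.g (nat_lit 4) .nil .nil))) 
(.lf (nat_lit 58682) (.g (nat_lit 2596) (.e (nat_lit 1464) (nat_lit 108) (.e (nat_lit 336013) (nat_lit 2) (.e (nat_lit 90170) (nat_lit 13) (.e (nat_lit 172113) (nat_lit 10) (.e (nat_lit 434242) (nat_lit 28) (.e (nat_lit 573472) (nat_lit 12) (.e (nat_lit 57572) (nat_lit 54) (.e (nat_lit 770058) (nat_lit 5) .nil)))))))) (.g (nat_lit 6) .nil .nil)))))) 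
(.nd (nat_lit 3) (.nd (nat_lit 4) (.nd (nat_lit 5) 
(.lf (nat_lit 58630) (.g (nat_lit 4149) (.e (nat_lit 1463) (nat_lit 108) (.e (nat_lit 336060) (nat_lit 7) (.e (nat_lit 319534) (nat_lit 16) (.e (nat_lit 286756) (nat_lit 10) (.e (nat_lit 344160) (nat_lit 37) (.e (nat_lit 647195) (nat_lit 9) (.e (nat_lit 1178) (nat_lit 87) (.e (nat_lit 57666) (nat_lit 152) (.e (nat_lit 1077) (nat_lit 81) .nil))))))))) (.g (nat_lit 8) .nil .nil))) 
(.lf (nat_lit 58662) (.g (nat_lit 2878) (.e (nat_lit 1464) (nat_lit 108) (.e (nat_lit 336013) (nat_lit 2) (.e (nat_lit 90170) (nat_lit 13) (.e (nat_lit 172106) (nat_lit 10) (.e (nat_lit 434231) (nat_lit 23) (.e (nat_lit 532483) (nat_lit 0) (.e (nat_lit 1912) (nat_lit 129) (.e (nat_lit 598022) (nat_lit 5) .nil)))))))) (.g (nat_lit 7) .nil .nil)))) (.nd (nat_lit 5) 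
(.lf (nat_lit 58646) (.g (nat_lit 2016) (.e (nat_lit 1463) (nat_lit 108) (.e (nat_lit 336224) (nat_lit 13) (.e (nat_lit 393301) (nat_lit 27) (.e (nat_lit 491560) (nat_lit 10) (.e (nat_lit 344173) (nat_lit 42) (.e (nat_lit 761867) (nat_lit 5) .nil)))))) (.g (nat_lit 0) .nil .nil))) 
(.lf (nat_lit 58678) (.g (nat_lit 2378) (.e (nat_lit 1464) (nat_lit 108) (.e (nat_lit 336013) (nat_lit 2) (.e (nat_lit 90170) (nat_lit 13) (.e (nat_lit 172110) (nat_lit 10) .nil)))) .nil)))) (.nd (nat_lit 4) (.nd (nat_lit 5) 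
(.lf (nat_lit 58638) (.g (nat_lit 1959) (.e (nat_lit 1463) (nat_lit 108) (.e (nat_lit 336205) (nat_lit 12) (.e (nat_lit 385106) (nat_lit 50) (.e (nat_lit 786480) (nat_lit 29) (.e (nat_lit 352270) (nat_lit 8) (.e (nat_lit 262148) (nat_lit 0) .nil)))))) (.g (nat_lit 5) .nil .nil))) 
(.lf (nat_lit 58670) (.g (nat_lit 2820) (.e (nat_lit 1464) (nat_lit 108) (.e (nat_lit 336013) (nat_lit 2) (.e (nat_lit 90170) (nat_lit 13) (.e (nat_lit 172106) (nat_lit 10) (.e (nat_lit 434231) (nat_lit 23) (.e (nat_lit 532490) (nat_lit 0) (.e (nat_lit 1909) (nat_lit 129) (.e (nat_lit 598025) (nat_lit 5) .nil)))))))) (.g (nat_lit 6) .nil .nil)))) (.nd (nat_lit 5) 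
(.lf (nat_lit 58654) (.g (nat_lit 1034) (.e (nat_lit 1464) (nat_lit 108) (.e (nat_lit 335907) (nat_lit 0) (.e (nat_lit 6218) (nat_lit 333) (.e (nat_lit 57819) (nat_lit 248) .nil)))) .nil)) 
(.lf (nat_lit 58686) (.g (nat_lit 1982) (.e (nat_lit 1464) (nat_lit 108) (.e (nat_lit 336013) (nat_lit 2) (.e (nat_lit 90170) (nat_lit 13) (.e (nat_lit 172113) (nat_lit 10) (.e (nat_lit 434245) (nat_lit 28) .nil))))) .nil))))))) (.nd (nat_lit 1) (.nd (nat_lit 2) (.nd (nat_lit 3) (.nd (nat_lit 4) (.nd (nat_lit 5) 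
(.lf (nat_lit 58625) (.g (nat_lit 1874) (.e (nat_lit 1463) (nat_lit 108) (.e (nat_lit 336060) (nat_lit 7) (.e (nat_lit 319505) (nat_lit 10) (.e (nat_lit 618) (nat_lit 48) (.e (nat_lit 557103) (nat_lit 14) .nil))))) .nil)) 
(.lf (nat_lit 58657) (.g (nat_lit 3842) (.e (nat_lit 1464) (nat_lit 108) (.e (nat_lit 336013) (nat_lit 2) (.e (nat_lit 90170) (nat_lit 13) (.e (nat_lit 172106) (nat_lit 10) (.e (nat_lit 434231) (nat_lit 23) (.e (nat_lit 532481) (nat_lit 0) (.e (nat_lit 1905) (nat_lit 129) (.e (nat_lit 598023) (nat_lit 5) .nil)))))))) (.g (nat_lit 6) .nil .nil)))) (.nd (nat_lit 5) 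
(.lf (nat_lit 58641) (.g (nat_lit 1658) (.e (nat_lit 1463) (nat_lit 108) (.e (nat_lit 336224) (nat_lit 13) (.e (nat_lit 393234) (nat_lit 17) (.e (nat_lit 7593) (nat_lit 407) (.e (nat_lit 73772) (nat_lit 24) (.e (nat_lit 761867) (nat_lit 5) .nil)))))) (.g (nat_lit 0) .nil .nil))) 
(.lf (nat_lit 58673) (.g (nat_lit 3609) (.e (nat_lit 1464) (nat_lit 108) (.e (nat_lit 336013) (nat_lit 2) (.e (nat_lit 90170) (nat_lit 13) (.e (nat_lit 172106) (nat_lit 10) (.e (nat_lit 434231) (nat_lit 23) (.e (nat_lit 532499) (nat_lit 1) (.e (nat_lit 57766) (nat_lit 221) (.e (nat_lit 1011) (nat_lit 81) .nil)))))))) (.g (nat_lit 6) .nil .nil))))) (.nd (nat_lit 4) (.nd (nat_lit 5) 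
(.lf (nat_lit 58633) (.g (nat_lit 1252) (.e (nat_lit 1463) (nat_lit 108) (.e (nat_lit 336205) (nat_lit 12) (.e (nat_lit 385093) (nat_lit 49) (.e (nat_lit 778326) (nat_lit 6) .nil)))) .nil)) 
(.lf (nat_lit 58665) (.g (nat_lit 2889) (.e (nat_lit 1464) (nat_lit 108) (.e (nat_lit 336013) (nat_lit 2) (.e (nat_lit 90170) (nat_lit 13) (.e (nat_lit 172106) (nat_lit 10) (.e (nat_lit 434231) (nat_lit 23) (.e (nat_lit 532490) (nat_lit 0) (.e (nat_lit 1905) (nat_lit 129) (.e (nat_lit 598023) (nat_lit 5) .nil)))))))) (.g (nat_lit 6) .nil .nil)))) (.nd (nat_lit 5) 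
(.lf (nat_lit 58649) (.g (nat_lit 1080) (.e (nat_lit 1464) (nat_lit 108) (.e (nat_lit 335907) (nat_lit 0) (.e (nat_lit 1994) (nat_lit 137) (.e (nat_lit 663565) (nat_lit 3) .nil)))) .nil)) 
(.lf (nat_lit 58681) (.g (nat_lit 2871) (.e (nat_lit 1464) (nat_lit 108) (.e (nat_lit 336013) (nat_lit 2) (.e (nat_lit 90170) (nat_lit 13) (.e (nat_lit 172113) (nat_lit 10) (.e (nat_lit 434242) (nat_lit 28) (.e (nat_lit 573472) (nat_lit 12) (.e (nat_lit 57570) (nat_lit 54) (.e (nat_lit 770057) (nat_lit 5) .nil)))))))) (.g (nat_lit 7) .nil .nil)))))) 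
(.nd (nat_lit 3) (.nd (nat_lit 4) (.nd (nat_lit 5) 
(.lf (nat_lit 58629) (.g (nat_lit 2624) (.e (nat_lit 1463) (nat_lit 108) (.e (nat_lit 336060) (nat_lit 7) (.e (nat_lit 319534) (nat_lit 16) (.e (nat_lit 286756) (nat_lit 10) (.e (nat_lit 344160) (nat_lit 37) (.e (nat_lit 647195) (nat_lit 9) (.e (nat_lit 982) (nat_lit 81) (.e (nat_lit 2270) (nat_lit 149) (.e (nat_lit 761868) (nat_lit 5) .nil))))))))) (.g (nat_lit 5) .nil .nil))) 
(.lf (nat_lit 58661) (.g (nat_lit 3862) (.e (nat_lit 1464) (nat_lit 108) (.e (nat_lit 336013) (nat_lit 2) (.e (nat_lit 90170) (nat_lit 13) (.e (nat_lit 172106) (nat_lit 10) (.e (nat_lit 434231) (nat_lit 23) (.e (nat_lit 532481) (nat_lit 0) (.e (nat_lit 1912) (nat_lit 129) (.e (nat_lit 598023) (nat_lit 5) .nil)))))))) (.g (nat_lit 6) .nil .nil)))) (.nd (nat_lit 5) 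
(.lf (nat_lit 58645) (.g (nat_lit 2158) (.e (nat_lit 1463) (nat_lit 108) (.e (nat_lit 336224) (nat_lit 13) (.e (nat_lit 393301) (nat_lit 27) (.e (nat_lit 491560) (nat_lit 10) (.e (nat_lit 344173) (nat_lit 42) (.e (nat_lit 761866) (nat_lit 5) .nil)))))) (.g (nat_lit 0) .nil .nil))) 
(.lf (nat_lit 58677) (.g (nat_lit 4136) (.e (nat_lit 1464) (nat_lit 108) (.e (nat_lit 336013) (nat_lit 2) (.e (nat_lit 90170) (nat_lit 13) (.e (nat_lit 172106) (nat_lit 10) (.e (nat_lit 434231) (nat_lit 23) (.e (nat_lit 532500) (nat_lit 1) (.e (nat_lit 65280) (nat_lit 221) (.e (nat_lit 1010) (nat_lit 81) .nil)))))))) (.g (nat_lit 6) .nil .nil))))) (.nd (nat_lit 4) (.nd (nat_lit 5) 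
(.lf (nat_lit 58637) (.g (nat_lit 1912) (.e (nat_lit 1463) (nat_lit 108) (.e (nat_lit 336205) (nat_lit 12) (.e (nat_lit 385106) (nat_lit 50) (.e (nat_lit 786478) (nat_lit 29) (.e (nat_lit 352270) (nat_lit 8) .nil))))) .nil)) 
(.lf (nat_lit 58669) (.g (nat_lit 2615) (.e (nat_lit 1464) (nat_lit 108) (.e (nat_lit 336013) (nat_lit 2) (.e (nat_lit 90170) (nat_lit 13) (.e (nat_lit 172106) (nat_lit 10) (.e (nat_lit 434231) (nat_lit 23) (.e (nat_lit 532490) (nat_lit 0) (.e (nat_lit 1908) (nat_lit 129) (.e (nat_lit 598025) (nat_lit 5) .nil)))))))) (.g (nat_lit 6) .nil .nil)))) (.nd (nat_lit 5) 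
(.lf (nat_lit 58653) (.g (nat_lit 1476) (.e (nat_lit 1464) (nat_lit 108) (.e (nat_lit 335907) (nat_lit 0) (.e (nat_lit 6218) (nat_lit 333) (.e (nat_lit 57786) (nat_lit 245) .nil)))) .nil)) 
(.lf (nat_lit 58685) (.g (nat_lit 5376) (.e (nat_lit 1464) (nat_lit 108) (.e (nat_lit 336013) (nat_lit 2) (.e (nat_lit 90170) (nat_lit 13) (.e (nat_lit 172113) (nat_lit 10) (.e (nat_lit 434242) (nat_lit 28) (.e (nat_lit 573474) (nat_lit 12) (.e (nat_lit 57572) (nat_lit 54) (.e (nat_lit 770056) (nat_lit 5) .nil)))))))) (.g (nat_lit 8) .nil .nil))))))) 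
(.nd (nat_lit 2) (.nd (nat_lit 3) (.nd (nat_lit 4) (.nd (nat_lit 5) 
(.lf (nat_lit 58627) (.g (nat_lit 3098) (.e (nat_lit 1463) (nat_lit 108) (.e (nat_lit 336060) (nat_lit 7) (.e (nat_lit 319505) (nat_lit 10) (.e (nat_lit 618) (nat_lit 48) (.e (nat_lit 557103) (nat_lit 14) (.e (nat_lit 180285) (nat_lit 45) (.e (nat_lit 2579) (nat_lit 161) (.e (nat_lit 40964) (nat_lit 0) .nil)))))))) (.g (nat_lit 6) .nil .nil))) 
(.lf (nat_lit 58659) (.g (nat_lit 4378) (.e (nat_lit 1464) (nat_lit 108) (.e (nat_lit 336013) (nat_lit 2) (.e (nat_lit 90170) (nat_lit 13) (.e (nat_lit 172106) (nat_lit 10) (.e (nat_lit 434231) (nat_lit 23) (.e (nat_lit 532481) (nat_lit 0) (.e (nat_lit 1906) (nat_lit 129) (.e (nat_lit 598025) (nat_lit 5) .nil)))))))) (.g (nat_lit 8) .nil .nil)))) (.nd (nat_lit 5) 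
(.lf (nat_lit 58643) (.g (nat_lit 2484) (.e (nat_lit 1463) (nat_lit 108) (.e (nat_lit 336224) (nat_lit 13) (.e (nat_lit 393301) (nat_lit 27) (.e (nat_lit 491558) (nat_lit 10) (.e (nat_lit 344174) (nat_lit 42) (.e (nat_lit 761867) (nat_lit 5) .nil)))))) (.g (nat_lit 0) .nil .nil))) 
(.lf (nat_lit 58675) (.g (nat_lit 4176) (.e (nat_lit 1464) (nat_lit 108) (.e (nat_lit 336013) (nat_lit 2) (.e (nat_lit 90170) (nat_lit 13) (.e (nat_lit 172106) (nat_lit 10) (.e (nat_lit 434231) (nat_lit 23) (.e (nat_lit 532500) (nat_lit 1) (.e (nat_lit 57766) (nat_lit 221) (.e (nat_lit 1009) (nat_lit 81) .nil)))))))) (.g (nat_lit 6) .nil .nil))))) (.nd (nat_lit 4) (.nd (nat_lit 5) 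
(.lf (nat_lit 58635) (.g (nat_lit 2007) (.e (nat_lit 1463) (nat_lit 108) (.e (nat_lit 336205) (nat_lit 12) (.e (nat_lit 385105) (nat_lit 50) (.e (nat_lit 786478) (nat_lit 29) (.e (nat_lit 352270) (nat_lit 8) .nil))))) .nil)) 
(.lf (nat_lit 58667) (.g (nat_lit 3111) (.e (nat_lit 1464) (nat_lit 108) (.e (nat_lit 336013) (nat_lit 2) (.e (nat_lit 90170) (nat_lit 13) (.e (nat_lit 172106) (nat_lit 10) (.e (nat_lit 434231) (nat_lit 23) (.e (nat_lit 532490) (nat_lit 0) (.e (nat_lit 1907) (nat_lit 129) (.e (nat_lit 598023) (nat_lit 5) .nil)))))))) (.g (nat_lit 7) .nil .nil)))) (.nd (nat_lit 5) 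
(.lf (nat_lit 58651) (.g (nat_lit 5564) (.e (nat_lit 1464) (nat_lit 108) (.e (nat_lit 335907) (nat_lit 0) (.e (nat_lit 1994) (nat_lit 137) (.e (nat_lit 663565) (nat_lit 3) (.e (nat_lit 57478) (nat_lit 28) (.e (nat_lit 557109) (nat_lit 15) (.e (nat_lit 188449) (nat_lit 22) (.e (nat_lit 196630) (nat_lit 9) .nil)))))))) (.g (nat_lit 7) .nil .nil))) 
(.lf (nat_lit 58683) (.g (nat_lit 2361) (.e (nat_lit 1464) (nat_lit 108) (.e (nat_lit 336013) (nat_lit 2) (.e (nat_lit 90170) (nat_lit 13) (.e (nat_lit 172113) (nat_lit 10) (.e (nat_lit 434242) (nat_lit 28) (.e (nat_lit 573473) (nat_lit 12) (.e (nat_lit 57572) (nat_lit 54) (.e (nat_lit 770055) (nat_lit 5) .nil)))))))) (.g (nat_lit 5) .nil .nil)))))) 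
(.nd (nat_lit 3) (.nd (nat_lit 4) (.nd (nat_lit 5) 
(.lf (nat_lit 58631) (.g (nat_lit 3601) (.e (nat_lit 1463) (nat_lit 108) (.e (nat_lit 336060) (nat_lit 7) (.e (nat_lit 319534) (nat_lit 16) (.e (nat_lit 286756) (nat_lit 10) (.e (nat_lit 344160) (nat_lit 37) (.e (nat_lit 647195) (nat_lit 9) (.e (nat_lit 1180) (nat_lit 87) (.e (nat_lit 57666) (nat_lit 152) (.e (nat_lit 1077) (nat_lit 81) .nil))))))))) (.g (nat_lit 6) .nil .nil))) 
(.lf (nat_lit 58663) (.g (nat_lit 2910) (.e (nat_lit 1464) (nat_lit 108) (.e (nat_lit 336013) (nat_lit 2) (.e (nat_lit 90170) (nat_lit 13) (.e (nat_lit 172106) (nat_lit 10) (.e (nat_lit 434231) (nat_lit 23) (.e (nat_lit 532483) (nat_lit 0) (.e (nat_lit 1912) (nat_lit 129) (.e (nat_lit 598023) (nat_lit 5) .nil)))))))) (.g (nat_lit 7) .nil .nil)))) (.nd (nat_lit 5) 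
(.lf (nat_lit 58647) (.g (nat_lit 2784) (.e (nat_lit 1463) (nat_lit 108) (.e (nat_lit 336224) (nat_lit 13) (.e (nat_lit 393301) (nat_lit 27) (.e (nat_lit 491560) (nat_lit 10) (.e (nat_lit 344174) (nat_lit 42) (.e (nat_lit 761866) (nat_lit 5) .nil)))))) (.g (nat_lit 5) .nil .nil))) 
(.lf (nat_lit 58679) (.g (nat_lit 1218) (.e (nat_lit 1464) (nat_lit 108) (.e (nat_lit 336013) (nat_lit 2) (.e (nat_lit 90170) (nat_lit 13) (.e (nat_lit 172113) (nat_lit 10) .nil)))) .nil)))) (.nd (nat_lit 4) (.nd (nat_lit 5) 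
(.lf (nat_lit 58639) (.g (nat_lit 465) (.e (nat_lit 1463) (nat_lit 108) (.e (nat_lit 336224) (nat_lit 13) (.e (nat_lit 393233) (nat_lit 17) .nil))) .nil)) 
(.lf (nat_lit 58671) (.g (nat_lit 2603) (.e (nat_lit 1464) (nat_lit 108) (.e (nat_lit 336013) (nat_lit 2) (.e (nat_lit 90170) (nat_lit 13) (.e (nat_lit 172106) (nat_lit 10) (.e (nat_lit 434231) (nat_lit 23) (.e (nat_lit 532498) (nat_lit 1) (.e (nat_lit 57766) (nat_lit 221) (.e (nat_lit 1010) (nat_lit 81) .nil)))))))) (.g (nat_lit 5) .nil .nil)))) (.nd (nat_lit 5) 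
(.lf (nat_lit 58655) (.g (nat_lit 2876) (.e (nat_lit 1464) (nat_lit 108) (.e (nat_lit 335915) (nat_lit 0) (.e (nat_lit 1812) (nat_lit 120) (.e (nat_lit 524322) (nat_lit 12) (.e (nat_lit 450588) (nat_lit 10) (.e (nat_lit 573474) (nat_lit 12) (.e (nat_lit 57572) (nat_lit 54) (.e (nat_lit 770056) (nat_lit 5) .nil)))))))) (.g (nat_lit 8) .nil .nil))) 
(.lf (nat_lit 58687) (.g (nat_lit 2091) (.e (nat_lit 1464) (nat_lit 108) (.e (nat_lit 336013) (nat_lit 2) (.e (nat_lit 90170) (nat_lit 13) (.e (nat_lit 172113) (nat_lit 10) (.e (nat_lit 434245) (nat_lit 28) (.e (nat_lit 573473) (nat_lit 12) (.e (nat_lit 57348) (nat_lit 0) (.e (nat_lit 7124) (nat_lit 382) (.e (nat_lit 1016) (nat_lit 81) .nil))))))))) (.g (nat_lit 4) .nil .nil)))))))))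

noncomputable def tv809 : DT := (.nd (nat_lit 0) (.nd (nat_lit 1) (.nd (nat_lit 2) (.nd (nat_lit 3) (.nd (nat_lit 4) 
(.lf (nat_lit 58688) (.g (nat_lit 2124) (.e (nat_lit 1464) (nat_lit 108) (.e (nat_lit 336013) (nat_lit 2) (.e (nat_lit 90170) (nat_lit 13) (.e (nat_lit 172113) (nat_lit 10) (.e (nat_lit 434245) (nat_lit 28) (.e (nat_lit 573473) (nat_lit 12) (.e (nat_lit 57352) (nat_lit 0) (.e (nat_lit 7122) (nat_lit 382) (.e (nat_lit 1016) (nat_lit 81) .nil))))))))) (.g (nat_lit 4) .nil .nil))) 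
(.lf (nat_lit 58704) (.g (nat_lit 4112) (.e (nat_lit 1464) (nat_lit 108) (.e (nat_lit 336028) (nat_lit 3) (.e (nat_lit 98359) (nat_lit 26) (.e (nat_lit 426286) (nat_lit 10) (.e (nat_lit 434248) (nat_lit 28) (.e (nat_lit 573473) (nat_lit 12) (.e (nat_lit 57572) (nat_lit 54) (.e (nat_lit 770058) (nat_lit 5) .nil)))))))) (.g (nat_lit 0) .nil .nil)))) (.nd (nat_lit 4) 
(.lf (nat_lit 58696) (.g (nat_lit 2090) (.e (nat_lit 1464) (nat_lit 108) (.e (nat_lit 336013) (nat_lit 2) (.e (nat_lit 90170) (nat_lit 13) (.e (nat_lit 172113) (nat_lit 10) (.e (nat_lit 434247) (nat_lit 28) (.e (nat_lit 573478) (nat_lit 12) (.e (nat_lit 57351) (nat_lit 0) (.e (nat_lit 7122) (nat_lit 382) (.e (nat_lit 1016) (nat_lit 81) .nil))))))))) (.g (nat_lit 4) .nil .nil))) 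
(.lf (nat_lit 58712) (.g (nat_lit 1403) (.e (nat_lit 1464) (nat_lit 108) (.e (nat_lit 336028) (nat_lit 3) (.e (nat_lit 98372) (nat_lit 29) (.e (nat_lit 450586) (nat_lit 10) (.e (nat_lit 573473) (nat_lit 12) .nil))))) .nil)))) (.nd (nat_lit 3) (.nd (nat_lit 4) 
(.lf (nat_lit 58692) (.g (nat_lit 4823) (.e (nat_lit 1464) (nat_lit 108) (.e (nat_lit 336013) (nat_lit 2) (.e (nat_lit 90170) (nat_lit 13) (.e (nat_lit 172113) (nat_lit 10) (.e (nat_lit 434245) (nat_lit 28) (.e (nat_lit 573474) (nat_lit 12) (.e (nat_lit 57572) (nat_lit 54) (.e (nat_lit 770056) (nat_lit 5) .nil)))))))) (.g (nat_lit 0) .nil .nil))) 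
(.lf (nat_lit 58708) (.g (nat_lit 1939) (.e (nat_lit 1464) (nat_lit 108) (.e (nat_lit 336028) (nat_lit 3) (.e (nat_lit 98372) (nat_lit 29) (.e (nat_lit 458496) (nat_lit 3) (.e (nat_lit 516106) (nat_lit 0) (.e (nat_lit 3391) (nat_lit 210) (.e (nat_lit 639008) (nat_lit 13) .nil))))))) (.g (nat_lit 5) .nil .nil)))) (.nd (nat_lit 4) 
(.lf (nat_lit 58700) (.g (nat_lit 4946) (.e (nat_lit 1464) (nat_lit 108) (.e (nat_lit 336013) (nat_lit 2) (.e (nat_lit 90170) (nat_lit 13) (.e (nat_lit 172113) (nat_lit 10) (.e (nat_lit 434248) (nat_lit 28) (.e (nat_lit 573474) (nat_lit 12) (.e (nat_lit 57572) (nat_lit 54) (.e (nat_lit 770057) (nat_lit 5) .nil)))))))) (.g (nat_lit 8) .nil .nil))) 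
(.lf (nat_lit 58716) (.g (nat_lit 1535) (.e (nat_lit 1464) (nat_lit 108) (.e (nat_lit 336028) (nat_lit 3) (.e (nat_lit 98372) (nat_lit 29) (.e (nat_lit 450586) (nat_lit 10) (.e (nat_lit 573475) (nat_lit 12) .nil))))) .nil))))) (.nd (nat_lit 2) (.nd (nat_lit 3) (.nd (nat_lit 4) 
(.lf (nat_lit 58690) (.g (nat_lit 2144) (.e (nat_lit 1464) (nat_lit 108) (.e (nat_lit 336013) (nat_lit 2) (.e (nat_lit 90170) (nat_lit 13) (.e (nat_lit 172113) (nat_lit 10) (.e (nat_lit 434245) (nat_lit 28) (.e (nat_lit 573473) (nat_lit 12) (.e (nat_lit 57569) (nat_lit 53) (.e (nat_lit 769792) (nat_lit 5) .nil)))))))) (.g (nat_lit 4) .nil .nil))) 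
(.lf (nat_lit 58706) (.g (nat_lit 4507) (.e (nat_lit 1464) (nat_lit 108) (.e (nat_lit 336028) (nat_lit 3) (.e (nat_lit 98359) (nat_lit 26) (.e (nat_lit 426286) (nat_lit 10) (.e (nat_lit 434248) (nat_lit 28) (.e (nat_lit 573474) (nat_lit 12) (.e (nat_lit 57572) (nat_lit 54) (.e (nat_lit 770057) (nat_lit 5) .nil)))))))) (.g (nat_lit 8) .nil .nil)))) (.nd (nat_lit 4) 
(.lf (nat_lit 58698) (.g (nat_lit 4530) (.e (nat_lit 1464) (nat_lit 108) (.e (nat_lit 336013) (nat_lit 2) (.e (nat_lit 90170) (nat_lit 13) (.e (nat_lit 172113) (nat_lit 10) (.e (nat_lit 434248) (nat_lit 28) (.e (nat_lit 573473) (nat_lit 12) (.e (nat_lit 57572) (nat_lit 54) (.e (nat_lit 770058) (nat_lit 5) .nil)))))))) (.g (nat_lit 0) .nil .nil))) 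
(.lf (nat_lit 58714) (.g (nat_lit 3775) (.e (nat_lit 1464) (nat_lit 108) (.e (nat_lit 336028) (nat_lit 3) (.e (nat_lit 98372) (nat_lit 29) (.e (nat_lit 450586) (nat_lit 10) (.e (nat_lit 573474) (nat_lit 12) (.e (nat_lit 57572) (nat_lit 54) (.e (nat_lit 770057) (nat_lit 5) .nil))))))) (.g (nat_lit 0) .nil .nil))))) (.nd (nat_lit 3) (.nd (nat_lit 4) 
(.lf (nat_lit 58694) (.g (nat_lit 2069) (.e (nat_lit 1464) (nat_lit 108) (.e (nat_lit 336013) (nat_lit 2) (.e (nat_lit 90170) (nat_lit 13) (.e (nat_lit 172113) (nat_lit 10) (.e (nat_lit 434247) (nat_lit 28) .nil))))) .nil)) 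
(.lf (nat_lit 58710) (.g (nat_lit 1930) (.e (nat_lit 1464) (nat_lit 108) (.e (nat_lit 336028) (nat_lit 3) (.e (nat_lit 98372) (nat_lit 29) (.e (nat_lit 450579) (nat_lit 5) (.e (nat_lit 532501) (nat_lit 1) (.e (nat_lit 57767) (nat_lit 221) (.e (nat_lit 1008) (nat_lit 81) .nil))))))) (.g (nat_lit 4) .nil .nil)))) (.nd (nat_lit 4) 
(.lf (nat_lit 58702) (.g (nat_lit 4444) (.e (nat_lit 1464) (nat_lit 108) (.e (nat_lit 336028) (nat_lit 3) (.e (nat_lit 98359) (nat_lit 26) (.e (nat_lit 426286) (nat_lit 10) (.e (nat_lit 434245) (nat_lit 28) (.e (nat_lit 573474) (nat_lit 12) (.e (nat_lit 57572) (nat_lit 54) (.e (nat_lit 770056) (nat_lit 5) .nil)))))))) (.g (nat_lit 0) .nil .nil))) 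
(.lf (nat_lit 58718) (.g (nat_lit 3331) (.e (nat_lit 1464) (nat_lit 108) (.e (nat_lit 336028) (nat_lit 3) (.e (nat_lit 98372) (nat_lit 29) (.e (nat_lit 450587) (nat_lit 10) (.e (nat_lit 573475) (nat_lit 12) (.e (nat_lit 57572) (nat_lit 54) (.e (nat_lit 770055) (nat_lit 5) .nil))))))) (.g (nat_lit 4) .nil .nil))))))) (.nd (nat_lit 1) (.nd (nat_lit 2) (.nd (nat_lit 3) (.nd (nat_lit 4) 
(.lf (nat_lit 58689) (.g (nat_lit 1985) (.e (nat_lit 1464) (nat_lit 108) (.e (nat_lit 336013) (nat_lit 2) (.e (nat_lit 90170) (nat_lit 13) (.e (nat_lit 172113) (nat_lit 10) (.e (nat_lit 434245) (nat_lit 28) (.e (nat_lit 573473) (nat_lit 12) (.e (nat_lit 57353) (nat_lit 0) (.e (nat_lit 7124) (nat_lit 382) (.e (nat_lit 1016) (nat_lit 81) .nil))))))))) (.g (nat_lit 4) .nil .nil))) 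
(.lf (nat_lit 58705) (.g (nat_lit 4338) (.e (nat_lit 1464) (nat_lit 108) (.e (nat_lit 336028) (nat_lit 3) (.e (nat_lit 98359) (nat_lit 26) (.e (nat_lit 426286) (nat_lit 10) (.e (nat_lit 434248) (nat_lit 28) (.e (nat_lit 573474) (nat_lit 12) (.e (nat_lit 57572) (nat_lit 54) (.e (nat_lit 770056) (nat_lit 5) .nil)))))))) (.g (nat_lit 7) .nil .nil)))) (.nd (nat_lit 4) 
(.lf (nat_lit 58697) (.g (nat_lit 2130) (.e (nat_lit 1464) (nat_lit 108) (.e (nat_lit 336013) (nat_lit 2) (.e (nat_lit 90170) (nat_lit 13) (.e (nat_lit 172113) (nat_lit 10) (.e (nat_lit 434248) (nat_lit 28) (.e (nat_lit 573473) (nat_lit 12) (.e (nat_lit 57353) (nat_lit 0) (.e (nat_lit 7124) (nat_lit 382) (.e (nat_lit 1016) (nat_lit 81) .nil))))))))) (.g (nat_lit 4) .nil .nil))) 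
(.lf (nat_lit 58713) (.g (nat_lit 3577) (.e (nat_lit 1464) (nat_lit 108) (.e (nat_lit 336028) (nat_lit 3) (.e (nat_lit 98372) (nat_lit 29) (.e (nat_lit 450586) (nat_lit 10) (.e (nat_lit 573474) (nat_lit 12) (.e (nat_lit 57572) (nat_lit 54) (.e (nat_lit 770056) (nat_lit 5) .nil))))))) (.g (nat_lit 6) .nil .nil))))) (.nd (nat_lit 3) (.nd (nat_lit 4) 
(.lf (nat_lit 58693) (.g (nat_lit 4953) (.e (nat_lit 1464) (nat_lit 108) (.e (nat_lit 336013) (nat_lit 2) (.e (nat_lit 90170) (nat_lit 13) (.e (nat_lit 172113) (nat_lit 10) (.e (nat_lit 434245) (nat_lit 28) (.e (nat_lit 573474) (nat_lit 12) (.e (nat_lit 57572) (nat_lit 54) (.e (nat_lit 770057) (nat_lit 5) .nil)))))))) (.g (nat_lit 0) .nil .nil))) 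
(.lf (nat_lit 58709) (.g (nat_lit 1923) (.e (nat_lit 1464) (nat_lit 108) (.e (nat_lit 336028) (nat_lit 3) (.e (nat_lit 98372) (nat_lit 29) (.e (nat_lit 450579) (nat_lit 5) (.e (nat_lit 532501) (nat_lit 1) .nil))))) .nil))) (.nd (nat_lit 4) 
(.lf (nat_lit 58701) (.g (nat_lit 4009) (.e (nat_lit 1464) (nat_lit 108) (.e (nat_lit 336028) (nat_lit 3) (.e (nat_lit 98359) (nat_lit 26) (.e (nat_lit 426286) (nat_lit 10) (.e (nat_lit 434245) (nat_lit 28) (.e (nat_lit 573473) (nat_lit 12) (.e (nat_lit 57572) (nat_lit 54) (.e (nat_lit 770058) (nat_lit 5) .nil)))))))) (.g (nat_lit 0) .nil .nil))) 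
(.lf (nat_lit 58717) (.g (nat_lit 3700) (.e (nat_lit 1464) (nat_lit 108) (.e (nat_lit 336028) (nat_lit 3) (.e (nat_lit 98372) (nat_lit 29) (.e (nat_lit 450586) (nat_lit 10) (.e (nat_lit 573475) (nat_lit 12) (.e (nat_lit 57572) (nat_lit 54) (.e (nat_lit 770058) (nat_lit 5) .nil))))))) (.g (nat_lit 7) .nil .nil)))))) (.nd (nat_lit 2) (.nd (nat_lit 3) (.nd (nat_lit 4) 
(.lf (nat_lit 58691) (.g (nat_lit 4383) (.e (nat_lit 1464) (nat_lit 108) (.e (nat_lit 336013) (nat_lit 2) (.e (nat_lit 90170) (nat_lit 13) (.e (nat_lit 172113) (nat_lit 10) (.e (nat_lit 434245) (nat_lit 28) (.e (nat_lit 573473) (nat_lit 12) (.e (nat_lit 57572) (nat_lit 54) (.e (nat_lit 770058) (nat_lit 5) .nil)))))))) (.g (nat_lit 0) .nil .nil))) 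
(.lf (nat_lit 58707) (.g (nat_lit 1409) (.e (nat_lit 1464) (nat_lit 108) (.e (nat_lit 336028) (nat_lit 3) (.e (nat_lit 98372) (nat_lit 29) (.e (nat_lit 458496) (nat_lit 3) .nil)))) .nil))) (.nd (nat_lit 4) 
(.lf (nat_lit 58699) (.g (nat_lit 4798) (.e (nat_lit 1464) (nat_lit 108) (.e (nat_lit 336013) (nat_lit 2) (.e (nat_lit 90170) (nat_lit 13) (.e (nat_lit 172113) (nat_lit 10) (.e (nat_lit 434248) (nat_lit 28) (.e (nat_lit 573474) (nat_lit 12) (.e (nat_lit 57572) (nat_lit 54) (.e (nat_lit 770056) (nat_lit 5) .nil)))))))) (.g (nat_lit 7) .nil .nil))) 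
(.lf (nat_lit 58715) (.g (nat_lit 2850) (.e (nat_lit 1464) (nat_lit 108) (.e (nat_lit 336028) (nat_lit 3) (.e (nat_lit 98372) (nat_lit 29) (.e (nat_lit 450586) (nat_lit 10) (.e (nat_lit 573474) (nat_lit 12) (.e (nat_lit 57572) (nat_lit 54) (.e (nat_lit 770058) (nat_lit 5) .nil))))))) (.g (nat_lit 5) .nil .nil))))) (.nd (nat_lit 3) (.nd (nat_lit 4) 
(.lf (nat_lit 58695) (.g (nat_lit 4621) (.e (nat_lit 1464) (nat_lit 108) (.e (nat_lit 336013) (nat_lit 2) (.e (nat_lit 90170) (nat_lit 13) (.e (nat_lit 172113) (nat_lit 10) (.e (nat_lit 434247) (nat_lit 28) (.e (nat_lit 573475) (nat_lit 12) (.e (nat_lit 57572) (nat_lit 54) (.e (nat_lit 770056) (nat_lit 5) .nil)))))))) (.g (nat_lit 7) .nil .nil))) 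
(.lf (nat_lit 58711) (.g (nat_lit 950) (.e (nat_lit 1464) (nat_lit 108) (.e (nat_lit 336028) (nat_lit 3) (.e (nat_lit 98372) (nat_lit 29) (.e (nat_lit 450586) (nat_lit 10) .nil)))) .nil))) (.nd (nat_lit 4) 
(.lf (nat_lit 58703) (.g (nat_lit 4077) (.e (nat_lit 1464) (nat_lit 108) (.e (nat_lit 336028) (nat_lit 3) (.e (nat_lit 98359) (nat_lit 26) (.e (nat_lit 426286) (nat_lit 10) (.e (nat_lit 434247) (nat_lit 28) (.e (nat_lit 573475) (nat_lit 12) (.e (nat_lit 57572) (nat_lit 54) (.e (nat_lit 770056) (nat_lit 5) .nil)))))))) (.g (nat_lit 7) .nil .nil))) 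
(.lf (nat_lit 58719) (.g (nat_lit 3440) (.e (nat_lit 1464) (nat_lit 108) (.e (nat_lit 336028) (nat_lit 3) (.e (nat_lit 98372) (nat_lit 29) (.e (nat_lit 450587) (nat_lit 10) (.e (nat_lit 573475) (nat_lit 12) (.e (nat_lit 57572) (nat_lit 54) (.e (nat_lit 770058) (nat_lit 5) .nil))))))) (.g (nat_lit 4) .nil .nil))))))))

noncomputable def tv810 : DT := (.nd (nat_lit 0) (.nd (nat_lit 1) (.nd (nat_lit 2) (.nd (nat_lit 3) (.nd (nat_lit 4) 
(.lf (nat_lit 58720) (.g (nat_lit 4109) (.e (nat_lit 1464) (nat_lit 108) (.e (nat_lit 336028) (nat_lit 3) (.e (nat_lit 98372) (nat_lit 29) (.e (nat_lit 450588) (nat_lit 10) (.e (nat_lit 573474) (nat_lit 12) (.e (nat_lit 57572) (nat_lit 54) (.e (nat_lit 770056) (nat_lit 5) .nil))))))) (.g (nat_lit 6) .nil .nil))) 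
(.lf (nat_lit 58736) (.g (nat_lit 1984) (.e (nat_lit 1464) (nat_lit 108) (.e (nat_lit 336028) (nat_lit 3) (.e (nat_lit 106240) (nat_lit 29) (.e (nat_lit 450588) (nat_lit 10) (.e (nat_lit 573474) (nat_lit 12) (.e (nat_lit 57572) (nat_lit 54) (.e (nat_lit 770056) (nat_lit 5) .nil))))))) (.g (nat_lit 6) .nil .nil)))) (.nd (nat_lit 4) 
(.lf (nat_lit 58728) (.g (nat_lit 4052) (.e (nat_lit 1464) (nat_lit 108) (.e (nat_lit 336028) (nat_lit 3) (.e (nat_lit 98373) (nat_lit 29) (.e (nat_lit 450587) (nat_lit 10) (.e (nat_lit 573472) (nat_lit 12) (.e (nat_lit 57570) (nat_lit 54) (.e (nat_lit 770056) (nat_lit 5) .nil))))))) (.g (nat_lit 7) .nil .nil))) 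
(.lf (nat_lit 58744) (.g (nat_lit 1752) (.e (nat_lit 1464) (nat_lit 108) (.e (nat_lit 336060) (nat_lit 7) (.e (nat_lit 319534) (nat_lit 16) (.e (nat_lit 286756) (nat_lit 10) (.e (nat_lit 344097) (nat_lit 18) (.e (nat_lit 5194) (nat_lit 294) (.e (nat_lit 57368) (nat_lit 1) (.e (nat_lit 57830) (nat_lit 250) (.e (nat_lit 1016) (nat_lit 81) .nil))))))))) (.g (nat_lit 4) .nil .nil))))) 
(.nd (nat_lit 3) (.nd (nat_lit 4) 
(.lf (nat_lit 58724) (.g (nat_lit 4659) (.e (nat_lit 1464) (nat_lit 108) (.e (nat_lit 336028) (nat_lit 3) (.e (nat_lit 98373) (nat_lit 29) (.e (nat_lit 450585) (nat_lit 10) (.e (nat_lit 573474) (nat_lit 12) (.e (nat_lit 57572) (nat_lit 54) (.e (nat_lit 770056) (nat_lit 5) .nil))))))) (.g (nat_lit 6) .nil .nil))) 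
(.lf (nat_lit 58740) (.g (nat_lit 987) (.e (nat_lit 1464) (nat_lit 108) (.e (nat_lit 336060) (nat_lit 7) (.e (nat_lit 319505) (nat_lit 10) (.e (nat_lit 5714) (nat_lit 312) .nil)))) .nil))) (.nd (nat_lit 4) 
(.lf (nat_lit 58732) (.g (nat_lit 1927) (.e (nat_lit 1464) (nat_lit 108) (.e (nat_lit 336028) (nat_lit 3) (.e (nat_lit 98373) (nat_lit 29) (.e (nat_lit 450587) (nat_lit 10) (.e (nat_lit 573478) (nat_lit 12) .nil))))) .nil)) 
(.lf (nat_lit 58748) (.g (nat_lit 1912) (.e (nat_lit 1464) (nat_lit 108) (.e (nat_lit 336060) (nat_lit 7) (.e (nat_lit 319534) (nat_lit 16) (.e (nat_lit 286756) (nat_lit 10) (.e (nat_lit 344168) (nat_lit 40) (.e (nat_lit 671751) (nat_lit 0) (.e (nat_lit 1182) (nat_lit 87) (.e (nat_lit 57728) (nat_lit 181) (.e (nat_lit 995) (nat_lit 81) .nil))))))))) (.g (nat_lit 4) .nil .nil)))))) 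
(.nd (nat_lit 2) (.nd (nat_lit 3) (.nd (nat_lit 4) 
(.lf (nat_lit 58722) (.g (nat_lit 4274) (.e (nat_lit 1464) (nat_lit 108) (.e (nat_lit 336028) (nat_lit 3) (.e (nat_lit 98372) (nat_lit 29) (.e (nat_lit 450588) (nat_lit 10) (.e (nat_lit 573475) (nat_lit 12) (.e (nat_lit 57572) (nat_lit 54) (.e (nat_lit 770058) (nat_lit 5) .nil))))))) (.g (nat_lit 5) .nil .nil))) 
(.lf (nat_lit 58738) (.g (nat_lit 2719) (.e (nat_lit 1464) (nat_lit 108) (.e (nat_lit 336060) (nat_lit 7) (.e (nat_lit 319505) (nat_lit 10) (.e (nat_lit 618) (nat_lit 48) (.e (nat_lit 557107) (nat_lit 15) (.e (nat_lit 188441) (nat_lit 20) (.e (nat_lit 3578) (nat_lit 223) (.e (nat_lit 745475) (nat_lit 0) .nil)))))))) (.g (nat_lit 6) .nil .nil)))) (.nd (nat_lit 4) 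
(.lf (nat_lit 58730) (.g (nat_lit 4278) (.e (nat_lit 1464) (nat_lit 108) (.e (nat_lit 336028) (nat_lit 3) (.e (nat_lit 98373) (nat_lit 29) (.e (nat_lit 450587) (nat_lit 10) (.e (nat_lit 573472) (nat_lit 12) (.e (nat_lit 57570) (nat_lit 54) (.e (nat_lit 770058) (nat_lit 5) .nil))))))) (.g (nat_lit 7) .nil .nil))) 
(.lf (nat_lit 58746) (.g (nat_lit 1982) (.e (nat_lit 1464) (nat_lit 108) (.e (nat_lit 336060) (nat_lit 7) (.e (nat_lit 319534) (nat_lit 16) (.e (nat_lit 286756) (nat_lit 10) (.e (nat_lit 344168) (nat_lit 40) (.e (nat_lit 671751) (nat_lit 0) (.e (nat_lit 1182) (nat_lit 87) (.e (nat_lit 57724) (nat_lit 181) (.e (nat_lit 988) (nat_lit 81) .nil))))))))) (.g (nat_lit 4) .nil .nil))))) 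
(.nd (nat_lit 3) (.nd (nat_lit 4) 
(.lf (nat_lit 58726) (.g (nat_lit 4439) (.e (nat_lit 1464) (nat_lit 108) (.e (nat_lit 336028) (nat_lit 3) (.e (nat_lit 98373) (nat_lit 29) (.e (nat_lit 450586) (nat_lit 10) (.e (nat_lit 573474) (nat_lit 12) (.e (nat_lit 57572) (nat_lit 54) (.e (nat_lit 770057) (nat_lit 5) .nil))))))) (.g (nat_lit 6) .nil .nil))) 
(.lf (nat_lit 58742) (.g (nat_lit 1613) (.e (nat_lit 1464) (nat_lit 108) (.e (nat_lit 336060) (nat_lit 7) (.e (nat_lit 319533) (nat_lit 16) (.e (nat_lit 286753) (nat_lit 10) (.e (nat_lit 344168) (nat_lit 40) (.e (nat_lit 671751) (nat_lit 0) (.e (nat_lit 1182) (nat_lit 87) (.e (nat_lit 57728) (nat_lit 181) (.e (nat_lit 1008) (nat_lit 81) .nil))))))))) (.g (nat_lit 4) .nil .nil)))) (.nd (nat_lit 4) 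
(.lf (nat_lit 58734) (.g (nat_lit 4080) (.e (nat_lit 1464) (nat_lit 108) (.e (nat_lit 336028) (nat_lit 3) (.e (nat_lit 98373) (nat_lit 29) (.e (nat_lit 450588) (nat_lit 10) (.e (nat_lit 573474) (nat_lit 12) (.e (nat_lit 57572) (nat_lit 54) (.e (nat_lit 770056) (nat_lit 5) .nil))))))) (.g (nat_lit 6) .nil .nil))) 
(.lf (nat_lit 58750) (.g (nat_lit 2085) (.e (nat_lit 1464) (nat_lit 108) (.e (nat_lit 336060) (nat_lit 7) (.e (nat_lit 319534) (nat_lit 16) (.e (nat_lit 286756) (nat_lit 10) (.e (nat_lit 344168) (nat_lit 40) (.e (nat_lit 671751) (nat_lit 0) (.e (nat_lit 1182) (nat_lit 87) (.e (nat_lit 57728) (nat_lit 181) (.e (nat_lit 1013) (nat_lit 81) .nil))))))))) (.g (nat_lit 4) .nil .nil))))))) 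
(.nd (nat_lit 1) (.nd (nat_lit 2) (.nd (nat_lit 3) (.nd (nat_lit 4) 
(.lf (nat_lit 58721) (.g (nat_lit 4291) (.e (nat_lit 1464) (nat_lit 108) (.e (nat_lit 336028) (nat_lit 3) (.e (nat_lit 98372) (nat_lit 29) (.e (nat_lit 450588) (nat_lit 10) (.e (nat_lit 573474) (nat_lit 12) (.e (nat_lit 57572) (nat_lit 54) (.e (nat_lit 770057) (nat_lit 5) .nil))))))) (.g (nat_lit 0) .nil .nil))) 
(.lf (nat_lit 58737) (.g (nat_lit 3285) (.e (nat_lit 1464) (nat_lit 108) (.e (nat_lit 336060) (nat_lit 7) (.e (nat_lit 319505) (nat_lit 10) (.e (nat_lit 618) (nat_lit 48) (.e (nat_lit 557107) (nat_lit 15) (.e (nat_lit 188440) (nat_lit 20) (.e (nat_lit 3578) (nat_lit 223) (.e (nat_lit 745476) (nat_lit 0) .nil)))))))) (.g (nat_lit 6) .nil .nil)))) (.nd (nat_lit 4) 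
(.lf (nat_lit 58729) (.g (nat_lit 4113) (.e (nat_lit 1464) (nat_lit 108) (.e (nat_lit 336028) (nat_lit 3) (.e (nat_lit 98373) (nat_lit 29) (.e (nat_lit 450587) (nat_lit 10) (.e (nat_lit 573472) (nat_lit 12) (.e (nat_lit 57570) (nat_lit 54) (.e (nat_lit 770057) (nat_lit 5) .nil))))))) (.g (nat_lit 7) .nil .nil))) 
(.lf (nat_lit 58745) (.g (nat_lit 1801) (.e (nat_lit 1464) (nat_lit 108) (.e (nat_lit 336060) (nat_lit 7) (.e (nat_lit 319534) (nat_lit 16) (.e (nat_lit 286756) (nat_lit 10) (.e (nat_lit 344160) (nat_lit 37) .nil))))) .nil)))) (.nd (nat_lit 3) (.nd (nat_lit 4) 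
(.lf (nat_lit 58725) (.g (nat_lit 4833) (.e (nat_lit 1464) (nat_lit 108) (.e (nat_lit 336028) (nat_lit 3) (.e (nat_lit 98373) (nat_lit 29) (.e (nat_lit 450585) (nat_lit 10) (.e (nat_lit 573474) (nat_lit 12) (.e (nat_lit 57572) (nat_lit 54) (.e (nat_lit 770057) (nat_lit 5) .nil))))))) (.g (nat_lit 6) .nil .nil))) 
(.lf (nat_lit 58741) (.g (nat_lit 1519) (.e (nat_lit 1464) (nat_lit 108) (.e (nat_lit 336060) (nat_lit 7) (.e (nat_lit 319533) (nat_lit 16) (.e (nat_lit 286753) (nat_lit 10) (.e (nat_lit 344160) (nat_lit 37) (.e (nat_lit 647201) (nat_lit 12) (.e (nat_lit 57351) (nat_lit 0) (.e (nat_lit 7124) (nat_lit 382) (.e (nat_lit 1016) (nat_lit 81) .nil))))))))) (.g (nat_lit 4) .nil .nil)))) (.nd (nat_lit 4) 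
(.lf (nat_lit 58733) (.g (nat_lit 4255) (.e (nat_lit 1464) (nat_lit 108) (.e (nat_lit 336028) (nat_lit 3) (.e (nat_lit 98373) (nat_lit 29) (.e (nat_lit 450588) (nat_lit 10) (.e (nat_lit 573473) (nat_lit 12) (.e (nat_lit 57572) (nat_lit 54) (.e (nat_lit 770058) (nat_lit 5) .nil))))))) (.g (nat_lit 0) .nil .nil))) 
(.lf (nat_lit 58749) (.g (nat_lit 1927) (.e (nat_lit 1464) (nat_lit 108) (.e (nat_lit 336060) (nat_lit 7) (.e (nat_lit 319534) (nat_lit 16) (.e (nat_lit 286756) (nat_lit 10) (.e (nat_lit 344168) (nat_lit 40) (.e (nat_lit 671751) (nat_lit 0) (.e (nat_lit 1182) (nat_lit 87) (.e (nat_lit 57728) (nat_lit 181) (.e (nat_lit 1012) (nat_lit 81) .nil))))))))) (.g (nat_lit 4) .nil .nil)))))) 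
(.nd (nat_lit 2) (.nd (nat_lit 3) (.nd (nat_lit 4) 
(.lf (nat_lit 58723) (.g (nat_lit 1083) (.e (nat_lit 1464) (nat_lit 108) (.e (nat_lit 336028) (nat_lit 3) (.e (nat_lit 98373) (nat_lit 29) (.e (nat_lit 458496) (nat_lit 3) .nil)))) .nil)) 
(.lf (nat_lit 58739) (.g (nat_lit 3520) (.e (nat_lit 1464) (nat_lit 108) (.e (nat_lit 336060) (nat_lit 7) (.e (nat_lit 319505) (nat_lit 10) (.e (nat_lit 618) (nat_lit 48) (.e (nat_lit 557109) (nat_lit 15) (.e (nat_lit 188441) (nat_lit 20) (.e (nat_lit 3578) (nat_lit 223) (.e (nat_lit 745475) (nat_lit 0) .nil)))))))) (.g (nat_lit 6) .nil .nil)))) (.nd (nat_lit 4) 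
(.lf (nat_lit 58731) (.g (nat_lit 3636) (.e (nat_lit 1464) (nat_lit 108) (.e (nat_lit 336028) (nat_lit 3) (.e (nat_lit 98373) (nat_lit 29) (.e (nat_lit 450587) (nat_lit 10) (.e (nat_lit 573472) (nat_lit 12) (.e (nat_lit 57572) (nat_lit 54) (.e (nat_lit 770055) (nat_lit 5) .nil))))))) (.g (nat_lit 5) .nil .nil))) 
(.lf (nat_lit 58747) (.g (nat_lit 1939) (.e (nat_lit 1464) (nat_lit 108) (.e (nat_lit 336060) (nat_lit 7) (.e (nat_lit 319534) (nat_lit 16) (.e (nat_lit 286756) (nat_lit 10) (.e (nat_lit 344168) (nat_lit 40) (.e (nat_lit 671751) (nat_lit 0) (.e (nat_lit 1182) (nat_lit 87) (.e (nat_lit 57728) (nat_lit 181) (.e (nat_lit 992) (nat_lit 81) .nil))))))))) (.g (nat_lit 4) .nil .nil))))) 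
(.nd (nat_lit 3) (.nd (nat_lit 4) 
(.lf (nat_lit 58727) (.g (nat_lit 4227) (.e (nat_lit 1464) (nat_lit 108) (.e (nat_lit 336028) (nat_lit 3) (.e (nat_lit 98373) (nat_lit 29) (.e (nat_lit 450587) (nat_lit 10) (.e (nat_lit 573472) (nat_lit 12) (.e (nat_lit 57570) (nat_lit 54) (.e (nat_lit 770055) (nat_lit 5) .nil))))))) (.g (nat_lit 7) .nil .nil))) 
(.lf (nat_lit 58743) (.g (nat_lit 1590) (.e (nat_lit 1464) (nat_lit 108) (.e (nat_lit 336060) (nat_lit 7) (.e (nat_lit 319534) (nat_lit 16) (.e (nat_lit 286756) (nat_lit 10) (.e (nat_lit 344097) (nat_lit 18) .nil))))) .nil))) (.nd (nat_lit 4) 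
(.lf (nat_lit 58735) (.g (nat_lit 3815) (.e (nat_lit 1464) (nat_lit 108) (.e (nat_lit 336028) (nat_lit 3) (.e (nat_lit 98373) (nat_lit 29) (.e (nat_lit 450588) (nat_lit 10) (.e (nat_lit 573475) (nat_lit 12) (.e (nat_lit 57570) (nat_lit 54) (.e (nat_lit 770057) (nat_lit 5) .nil))))))) (.g (nat_lit 0) .nil .nil))) 
(.lf (nat_lit 58751) (.g (nat_lit 2011) (.e (nat_lit 1464) (nat_lit 108) (.e (nat_lit 336060) (nat_lit 7) (.e (nat_lit 319534) (nat_lit 16) (.e (nat_lit 286756) (nat_lit 10) (.e (nat_lit 344168) (nat_lit 40) (.e (nat_lit 671751) (nat_lit 0) (.e (nat_lit 1182) (nat_lit 87) (.e (nat_lit 57731) (nat_lit 181) (.e (nat_lit 1008) (nat_lit 81) .nil))))))))) (.g (nat_lit 4) .nil .nil))))))))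

noncomputable def tv811 : DT := (.nd (nat_lit 0) (.nd (nat_lit 1) (.nd (nat_lit 2) (.nd (nat_lit 3) (.nd (nat_lit 4) (.nd (nat_lit 5) (.nd (nat_lit 6) 
(.lf (nat_lit 58752) (.g (nat_lit 1834) (.e (nat_lit 1464) (nat_lit 108) (.e (nat_lit 336060) (nat_lit 7) (.e (nat_lit 319534) (nat_lit 16) (.e (nat_lit 286756) (nat_lit 10) (.e (nat_lit 344169) (nat_lit 40) (.e (nat_lit 671751) (nat_lit 0) (.e (nat_lit 1182) (nat_lit 87) (.e (nat_lit 57724) (nat_lit 181) (.e (nat_lit 988) (nat_lit 81) .nil))))))))) (.g (nat_lit 4) .nil .nil))) 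
(.lf (nat_lit 58816) (.g (nat_lit 2826) (.e (nat_lit 1465) (nat_lit 108) (.e (nat_lit 336028) (nat_lit 3) (.e (nat_lit 98373) (nat_lit 29) (.e (nat_lit 450588) (nat_lit 10) (.e (nat_lit 573473) (nat_lit 12) .nil))))) .nil))) (.nd (nat_lit 6) 
(.lf (nat_lit 58784) (.g (nat_lit 2906) (.e (nat_lit 1464) (nat_lit 108) (.e (nat_lit 336216) (nat_lit 13) (.e (nat_lit 393301) (nat_lit 27) (.e (nat_lit 491559) (nat_lit 10) (.e (nat_lit 344177) (nat_lit 43) (.e (nat_lit 770056) (nat_lit 5) .nil)))))) (.g (nat_lit 4) .nil .nil))) 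
(.lf (nat_lit 58848) (.g (nat_lit 2497) (.e (nat_lit 1471) (nat_lit 108) (.e (nat_lit 336453) (nat_lit 34) (.e (nat_lit 483383) (nat_lit 23) (.e (nat_lit 336324) (nat_lit 18) (.e (nat_lit 204831) (nat_lit 18) (.e (nat_lit 57830) (nat_lit 250) (.e (nat_lit 1004) (nat_lit 81) .nil))))))) (.g (nat_lit 6) .nil .nil))))) (.nd (nat_lit 5) (.nd (nat_lit 6) 
(.lf (nat_lit 58768) (.g (nat_lit 2999) (.e (nat_lit 1464) (nat_lit 108) (.e (nat_lit 336205) (nat_lit 12) (.e (nat_lit 385074) (nat_lit 31) (.e (nat_lit 573491) (nat_lit 15) (.e (nat_lit 81946) (nat_lit 20) (.e (nat_lit 1842) (nat_lit 123) (.e (nat_lit 548872) (nat_lit 5) .nil))))))) (.g (nat_lit 6) .nil .nil))) 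
(.lf (nat_lit 58832) (.g (nat_lit 1785) (.e (nat_lit 1467) (nat_lit 108) (.e (nat_lit 336443) (nat_lit 32) (.e (nat_lit 466971) (nat_lit 21) (.e (nat_lit 164348) (nat_lit 240) (.e (nat_lit 2638) (nat_lit 165) .nil))))) .nil))) (.nd (nat_lit 6) 
(.lf (nat_lit 58800) (.g (nat_lit 1820) (.e (nat_lit 1464) (nat_lit 108) (.e (nat_lit 336227) (nat_lit 14) (.e (nat_lit 401457) (nat_lit 13) (.e (nat_lit 483395) (nat_lit 24) (.e (nat_lit 344168) (nat_lit 40) (.e (nat_lit 671747) (nat_lit 0) .nil)))))) (.g (nat_lit 4) .nil .nil))) 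
(.lf (nat_lit 58864) (.g (nat_lit 2584) (.e (nat_lit 1477) (nat_lit 108) (.e (nat_lit 336086) (nat_lit 9) (.e (nat_lit 336369) (nat_lit 27) (.e (nat_lit 426173) (nat_lit 7) (.e (nat_lit 409649) (nat_lit 18) (.e (nat_lit 303111) (nat_lit 0) (.e (nat_lit 3459) (nat_lit 216) (.e (nat_lit 688159) (nat_lit 13) .nil)))))))) (.g (nat_lit 5) .nil .nil)))))) 
(.nd (nat_lit 4) (.nd (nat_lit 5) (.nd (nat_lit 6) 
(.lf (nat_lit 58760) (.g (nat_lit 2544) (.e (nat_lit 1464) (nat_lit 108) (.e (nat_lit 336080) (nat_lit 9) (.e (nat_lit 336369) (nat_lit 27) (.e (nat_lit 426173) (nat_lit 7) (.e (nat_lit 409649) (nat_lit 18) (.e (nat_lit 303111) (nat_lit 0) (.e (nat_lit 3468) (nat_lit 217) (.e (nat_lit 696350) (nat_lit 13) .nil)))))))) (.g (nat_lit 5) .nil .nil))) 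
(.lf (nat_lit 58824) (.g (nat_lit 795) (.e (nat_lit 1466) (nat_lit 108) (.e (nat_lit 336443) (nat_lit 32) (.e (nat_lit 466969) (nat_lit 21) .nil))) .nil))) (.nd (nat_lit 6) 
(.lf (nat_lit 58792) (.g (nat_lit 2324) (.e (nat_lit 1464) (nat_lit 108) (.e (nat_lit 336224) (nat_lit 13) (.e (nat_lit 393301) (nat_lit 27) (.e (nat_lit 491558) (nat_lit 10) (.e (nat_lit 344175) (nat_lit 43) (.e (nat_lit 770058) (nat_lit 5) .nil)))))) (.g (nat_lit 4) .nil .nil))) 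
(.lf (nat_lit 58856) (.g (nat_lit 2999) (.e (nat_lit 1472) (nat_lit 108) (.e (nat_lit 336323) (nat_lit 18) (.e (nat_lit 204882) (nat_lit 32) (.e (nat_lit 385066) (nat_lit 26) (.e (nat_lit 532530) (nat_lit 9) (.e (nat_lit 336316) (nat_lit 17) (.e (nat_lit 196628) (nat_lit 9) .nil))))))) (.g (nat_lit 0) .nil .nil))))) (.nd (nat_lit 5) (.nd (nat_lit 6) 
(.lf (nat_lit 58776) (.g (nat_lit 1232) (.e (nat_lit 1464) (nat_lit 108) (.e (nat_lit 336205) (nat_lit 12) (.e (nat_lit 385094) (nat_lit 49) (.e (nat_lit 778326) (nat_lit 6) .nil)))) .nil)) 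
(.lf (nat_lit 58840) (.g (nat_lit 2741) (.e (nat_lit 1469) (nat_lit 108) (.e (nat_lit 336235) (nat_lit 14) (.e (nat_lit 401425) (nat_lit 2) (.e (nat_lit 196666) (nat_lit 13) (.e (nat_lit 65630) (nat_lit 14) .nil))))) .nil))) (.nd (nat_lit 6) 
(.lf (nat_lit 58808) (.g (nat_lit 3181) (.e (nat_lit 1465) (nat_lit 108) (.e (nat_lit 336013) (nat_lit 2) (.e (nat_lit 90170) (nat_lit 13) (.e (nat_lit 172106) (nat_lit 10) (.e (nat_lit 434231) (nat_lit 23) .nil))))) .nil)) 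
(.lf (nat_lit 58872) (.g (nat_lit 1041) (.e (nat_lit 1477) (nat_lit 108) (.e (nat_lit 336213) (nat_lit 13) (.e (nat_lit 393301) (nat_lit 27) .nil))) .nil)))))) (.nd (nat_lit 3) (.nd (nat_lit 4) (.nd (nat_lit 5) (.nd (nat_lit 6) 
(.lf (nat_lit 58756) (.g (nat_lit 1198) (.e (nat_lit 1464) (nat_lit 108) (.e (nat_lit 336060) (nat_lit 7) (.e (nat_lit 319534) (nat_lit 16) (.e (nat_lit 286762) (nat_lit 14) .nil)))) .nil)) 
(.lf (nat_lit 58820) (.g (nat_lit 1981) (.e (nat_lit 1465) (nat_lit 108) (.e (nat_lit 336060) (nat_lit 7) (.e (nat_lit 319534) (nat_lit 16) (.e (nat_lit 286756) (nat_lit 10) (.e (nat_lit 344097) (nat_lit 18) .nil))))) .nil))) (.nd (nat_lit 6) 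
(.lf (nat_lit 58788) (.g (nat_lit 2564) (.e (nat_lit 1464) (nat_lit 108) (.e (nat_lit 336224) (nat_lit 13) (.e (nat_lit 393260) (nat_lit 21) (.e (nat_lit 409649) (nat_lit 18) (.e (nat_lit 303111) (nat_lit 0) .nil))))) .nil)) 
(.lf (nat_lit 58852) (.g (nat_lit 2776) (.e (nat_lit 1472) (nat_lit 108) (.e (nat_lit 336235) (nat_lit 14) (.e (nat_lit 401425) (nat_lit 2) (.e (nat_lit 196666) (nat_lit 13) (.e (nat_lit 65628) (nat_lit 14) .nil))))) .nil)))) (.nd (nat_lit 5) (.nd (nat_lit 6) 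
(.lf (nat_lit 58772) (.g (nat_lit 2657) (.e (nat_lit 1464) (nat_lit 108) (.e (nat_lit 336205) (nat_lit 12) (.e (nat_lit 385074) (nat_lit 31) (.e (nat_lit 573493) (nat_lit 15) (.e (nat_lit 81947) (nat_lit 20) .nil))))) .nil)) 
(.lf (nat_lit 58836) (.g (nat_lit 2226) (.e (nat_lit 1468) (nat_lit 108) (.e (nat_lit 336428) (nat_lit 29) (.e (nat_lit 442374) (nat_lit 0) (.e (nat_lit 2059) (nat_lit 142) (.e (nat_lit 704595) (nat_lit 5) (.e (nat_lit 188160) (nat_lit 32) .nil)))))) (.g (nat_lit 5) .nil .nil)))) (.nd (nat_lit 6) 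
(.lf (nat_lit 58804) (.g (nat_lit 1953) (.e (nat_lit 1464) (nat_lit 108) (.e (nat_lit 336227) (nat_lit 14) (.e (nat_lit 401459) (nat_lit 13) (.e (nat_lit 483386) (nat_lit 23) (.e (nat_lit 335928) (nat_lit 0) .nil))))) .nil)) 
(.lf (nat_lit 58868) (.g (nat_lit 1613) (.e (nat_lit 1477) (nat_lit 108) (.e (nat_lit 336203) (nat_lit 12) (.e (nat_lit 385102) (nat_lit 50) (.e (nat_lit 786478) (nat_lit 29) (.e (nat_lit 352270) (nat_lit 8) .nil))))) .nil))))) (.nd (nat_lit 4) (.nd (nat_lit 5) (.nd (nat_lit 6) 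
(.lf (nat_lit 58764) (.g (nat_lit 2165) (.e (nat_lit 1464) (nat_lit 108) (.e (nat_lit 336205) (nat_lit 12) (.e (nat_lit 385074) (nat_lit 31) (.e (nat_lit 573479) (nat_lit 13) .nil)))) .nil)) 
(.lf (nat_lit 58828) (.g (nat_lit 814) (.e (nat_lit 1466) (nat_lit 108) (.e (nat_lit 336443) (nat_lit 32) (.e (nat_lit 466972) (nat_lit 21) .nil))) .nil))) (.nd (nat_lit 6) 
(.lf (nat_lit 58796) (.g (nat_lit 3976) (.e (nat_lit 1464) (nat_lit 108) (.e (nat_lit 336227) (nat_lit 14) (.e (nat_lit 401425) (nat_lit 2) (.e (nat_lit 196666) (nat_lit 13) (.e (nat_lit 65617) (nat_lit 10) (.e (nat_lit 344126) (nat_lit 25) (.e (nat_lit 548872) (nat_lit 5) .nil))))))) (.g (nat_lit 5) .nil .nil))) 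
(.lf (nat_lit 58860) (.g (nat_lit 1248) (.e (nat_lit 1472) (nat_lit 108) (.e (nat_lit 336453) (nat_lit 34) (.e (nat_lit 483403) (nat_lit 26) (.e (nat_lit 385066) (nat_lit 26) (.e (nat_lit 532501) (nat_lit 1) .nil))))) .nil)))) (.nd (nat_lit 5) (.nd (nat_lit 6) 
(.lf (nat_lit 58780) (.g (nat_lit 1205) (.e (nat_lit 1464) (nat_lit 108) (.e (nat_lit 336205) (nat_lit 12) (.e (nat_lit 385106) (nat_lit 50) (.e (nat_lit 786481) (nat_lit 30) .nil)))) .nil)) 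
(.lf (nat_lit 58844) (.g (nat_lit 581) (.e (nat_lit 1471) (nat_lit 108) (.e (nat_lit 336437) (nat_lit 31) (.e (nat_lit 458769) (nat_lit 16) (.e (nat_lit 164340) (nat_lit 232) (.e (nat_lit 446) (nat_lit 33) (.e (nat_lit 442112) (nat_lit 0) .nil)))))) (.g (nat_lit 5) .nil .nil)))) (.nd (nat_lit 6) 
(.lf (nat_lit 58812) (.g (nat_lit 3931) (.e (nat_lit 1465) (nat_lit 108) (.e (nat_lit 336013) (nat_lit 2) (.e (nat_lit 90170) (nat_lit 13) (.e (nat_lit 172113) (nat_lit 10) (.e (nat_lit 434245) (nat_lit 28) .nil))))) .nil)) 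
(.lf (nat_lit 58876) (.g (nat_lit 1664) (.e (nat_lit 1479) (nat_lit 108) (.e (nat_lit 336222) (nat_lit 13) (.e (nat_lit 393238) (nat_lit 17) (.e (nat_lit 6989) (nat_lit 377) (.e (nat_lit 2777) (nat_lit 178) .nil))))) .nil))))))) (.nd (nat_lit 2) (.nd (nat_lit 3) (.nd (nat_lit 4) (.nd (nat_lit 5) (.nd (nat_lit 6) 
(.lf (nat_lit 58754) (.g (nat_lit 1937) (.e (nat_lit 1464) (nat_lit 108) (.e (nat_lit 336060) (nat_lit 7) (.e (nat_lit 319534) (nat_lit 16) (.e (nat_lit 286756) (nat_lit 10) (.e (nat_lit 344169) (nat_lit 40) (.e (nat_lit 671751) (nat_lit 0) (.e (nat_lit 1182) (nat_lit 87) (.e (nat_lit 57728) (nat_lit 181) (.e (nat_lit 1013) (nat_lit 81) .nil))))))))) (.g (nat_lit 4) .nil .nil))) 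
(.lf (nat_lit 58818) (.g (nat_lit 1739) (.e (nat_lit 1465) (nat_lit 108) (.e (nat_lit 336060) (nat_lit 7) (.e (nat_lit 319533) (nat_lit 16) (.e (nat_lit 286753) (nat_lit 10) (.e (nat_lit 344160) (nat_lit 37) .nil))))) .nil))) (.nd (nat_lit 6) 
(.lf (nat_lit 58786) (.g (nat_lit 2964) (.e (nat_lit 1464) (nat_lit 108) (.e (nat_lit 336217) (nat_lit 13) (.e (nat_lit 393301) (nat_lit 27) (.e (nat_lit 491559) (nat_lit 10) (.e (nat_lit 344177) (nat_lit 43) (.e (nat_lit 770057) (nat_lit 5) .nil)))))) (.g (nat_lit 0) .nil .nil))) 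
(.lf (nat_lit 58850) (.g (nat_lit 2059) (.e (nat_lit 1471) (nat_lit 108) (.e (nat_lit 336453) (nat_lit 34) (.e (nat_lit 483403) (nat_lit 26) (.e (nat_lit 385066) (nat_lit 26) (.e (nat_lit 532504) (nat_lit 1) (.e (nat_lit 57830) (nat_lit 250) (.e (nat_lit 1004) (nat_lit 81) .nil))))))) (.g (nat_lit 6) .nil .nil))))) (.nd (nat_lit 5) (.nd (nat_lit 6) 
(.lf (nat_lit 58770) (.g (nat_lit 2050) (.e (nat_lit 1464) (nat_lit 108) (.e (nat_lit 336205) (nat_lit 12) (.e (nat_lit 385074) (nat_lit 31) (.e (nat_lit 573491) (nat_lit 15) (.e (nat_lit 81947) (nat_lit 20) .nil))))) .nil)) 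
(.lf (nat_lit 58834) (.g (nat_lit 1262) (.e (nat_lit 1468) (nat_lit 108) (.e (nat_lit 336398) (nat_lit 27) (.e (nat_lit 426312) (nat_lit 12) (.e (nat_lit 475199) (nat_lit 40) (.e (nat_lit 704595) (nat_lit 5) .nil))))) .nil))) (.nd (nat_lit 6) 
(.lf (nat_lit 58802) (.g (nat_lit 1273) (.e (nat_lit 1464) (nat_lit 108) (.e (nat_lit 336227) (nat_lit 14) (.e (nat_lit 401458) (nat_lit 13) (.e (nat_lit 483395) (nat_lit 24) .nil)))) .nil)) 
(.lf (nat_lit 58866) (.g (nat_lit 2063) (.e (nat_lit 1477) (nat_lit 108) (.e (nat_lit 336086) (nat_lit 9) (.e (nat_lit 336369) (nat_lit 27) (.e (nat_lit 426173) (nat_lit 7) (.e (nat_lit 409649) (nat_lit 18) (.e (nat_lit 303111) (nat_lit 0) (.e (nat_lit 3469) (nat_lit 217) (.e (nat_lit 704256) (nat_lit 13) .nil)))))))) (.g (nat_lit 4) .nil .nil)))))) 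
(.nd (nat_lit 4) (.nd (nat_lit 5) (.nd (nat_lit 6) 
(.lf (nat_lit 58762) (.g (nat_lit 513) (.e (nat_lit 1464) (nat_lit 108) (.e (nat_lit 336193) (nat_lit 12) (.e (nat_lit 385105) (nat_lit 50) .nil))) .nil)) 
(.lf (nat_lit 58826) (.g (nat_lit 810) (.e (nat_lit 1466) (nat_lit 108) (.e (nat_lit 336443) (nat_lit 32) (.e (nat_lit 466971) (nat_lit 21) .nil))) .nil))) (.nd (nat_lit 6) 
(.lf (nat_lit 58794) (.g (nat_lit 4284) (.e (nat_lit 1464) (nat_lit 108) (.e (nat_lit 336227) (nat_lit 14) (.e (nat_lit 401425) (nat_lit 2) (.e (nat_lit 196666) (nat_lit 13) (.e (nat_lit 65610) (nat_lit 10) (.e (nat_lit 344126) (nat_lit 25) (.e (nat_lit 548873) (nat_lit 5) .nil))))))) (.g (nat_lit 6) .nil .nil))) 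
(.lf (nat_lit 58858) (.g (nat_lit 3124) (.e (nat_lit 1472) (nat_lit 108) (.e (nat_lit 336323) (nat_lit 18) (.e (nat_lit 204882) (nat_lit 32) (.e (nat_lit 385066) (nat_lit 26) (.e (nat_lit 532534) (nat_lit 9) (.e (nat_lit 336316) (nat_lit 17) (.e (nat_lit 196628) (nat_lit 9) .nil))))))) (.g (nat_lit 7) .nil .nil))))) (.nd (nat_lit 5) (.nd (nat_lit 6) 
(.lf (nat_lit 58778) (.g (nat_lit 1783) (.e (nat_lit 1464) (nat_lit 108) (.e (nat_lit 336205) (nat_lit 12) (.e (nat_lit 385105) (nat_lit 50) (.e (nat_lit 786481) (nat_lit 30) (.e (nat_lit 360486) (nat_lit 18) (.e (nat_lit 671748) (nat_lit 0) .nil)))))) (.g (nat_lit 4) .nil .nil))) 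
(.lf (nat_lit 58842) (.g (nat_lit 665) (.e (nat_lit 1471) (nat_lit 108) (.e (nat_lit 336437) (nat_lit 31) (.e (nat_lit 458769) (nat_lit 16) (.e (nat_lit 164337) (nat_lit 232) (.e (nat_lit 446) (nat_lit 33) (.e (nat_lit 442112) (nat_lit 0) .nil)))))) (.g (nat_lit 5) .nil .nil)))) (.nd (nat_lit 6) 
(.lf (nat_lit 58810) (.g (nat_lit 3141) (.e (nat_lit 1465) (nat_lit 108) (.e (nat_lit 336013) (nat_lit 2) (.e (nat_lit 90170) (nat_lit 13) (.e (nat_lit 172113) (nat_lit 10) .nil)))) .nil)) 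
(.lf (nat_lit 58874) (.g (nat_lit 2022) (.e (nat_lit 1477) (nat_lit 108) (.e (nat_lit 336222) (nat_lit 13) (.e (nat_lit 393260) (nat_lit 21) (.e (nat_lit 409648) (nat_lit 18) (.e (nat_lit 303107) (nat_lit 0) .nil))))) .nil)))))) (.nd (nat_lit 3) (.nd (nat_lit 4) (.nd (nat_lit 5) (.nd (nat_lit 6) 
(.lf (nat_lit 58758) (.g (nat_lit 2019) (.e (nat_lit 1464) (nat_lit 108) (.e (nat_lit 336060) (nat_lit 7) (.e (nat_lit 319534) (nat_lit 16) (.e (nat_lit 286762) (nat_lit 14) (.e (nat_lit 401448) (nat_lit 10) .nil))))) .nil)) 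
(.lf (nat_lit 58822) (.g (nat_lit 917) (.e (nat_lit 1466) (nat_lit 108) (.e (nat_lit 336434) (nat_lit 30) (.e (nat_lit 450564) (nat_lit 0) (.e (nat_lit 5548) (nat_lit 306) (.e (nat_lit 2638) (nat_lit 165) .nil))))) .nil))) (.nd (nat_lit 6) 
(.lf (nat_lit 58790) (.g (nat_lit 2227) (.e (nat_lit 1464) (nat_lit 108) (.e (nat_lit 336224) (nat_lit 13) (.e (nat_lit 393301) (nat_lit 27) (.e (nat_lit 491558) (nat_lit 10) (.e (nat_lit 344175) (nat_lit 43) .nil))))) .nil)) 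
(.lf (nat_lit 58854) (.g (nat_lit 2635) (.e (nat_lit 1472) (nat_lit 108) (.e (nat_lit 336323) (nat_lit 18) (.e (nat_lit 204854) (nat_lit 26) (.e (nat_lit 336324) (nat_lit 18) (.e (nat_lit 204852) (nat_lit 26) (.e (nat_lit 336316) (nat_lit 17) (.e (nat_lit 196628) (nat_lit 9) .nil))))))) (.g (nat_lit 0) .nil .nil))))) (.nd (nat_lit 5) (.nd (nat_lit 6) 
(.lf (nat_lit 58774) (.g (nat_lit 1283) (.e (nat_lit 1464) (nat_lit 108) (.e (nat_lit 336205) (nat_lit 12) (.e (nat_lit 385093) (nat_lit 49) (.e (nat_lit 778326) (nat_lit 6) .nil)))) .nil)) 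
(.lf (nat_lit 58838) (.g (nat_lit 1304) (.e (nat_lit 1468) (nat_lit 108) (.e (nat_lit 336444) (nat_lit 32) (.e (nat_lit 466947) (nat_lit 0) (.e (nat_lit 2058) (nat_lit 142) (.e (nat_lit 704595) (nat_lit 5) .nil))))) .nil))) (.nd (nat_lit 6) 
(.lf (nat_lit 58806) (.g (nat_lit 3190) (.e (nat_lit 1464) (nat_lit 108) (.e (nat_lit 336227) (nat_lit 14) (.e (nat_lit 401459) (nat_lit 13) (.e (nat_lit 483395) (nat_lit 24) (.e (nat_lit 344168) (nat_lit 40) (.e (nat_lit 671747) (nat_lit 0) .nil)))))) (.g (nat_lit 0) .nil .nil))) 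
(.lf (nat_lit 58870) (.g (nat_lit 1112) (.e (nat_lit 1477) (nat_lit 108) (.e (nat_lit 336213) (nat_lit 13) (.e (nat_lit 393299) (nat_lit 27) .nil))) .nil))))) (.nd (nat_lit 4) (.nd (nat_lit 5) (.nd (nat_lit 6) 
(.lf (nat_lit 58766) (.g (nat_lit 3146) (.e (nat_lit 1464) (nat_lit 108) (.e (nat_lit 336205) (nat_lit 12) (.e (nat_lit 385074) (nat_lit 31) (.e (nat_lit 573484) (nat_lit 13) (.e (nat_lit 65617) (nat_lit 10) (.e (nat_lit 344126) (nat_lit 25) (.e (nat_lit 548873) (nat_lit 5) .nil))))))) (.g (nat_lit 6) .nil .nil))) 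
(.lf (nat_lit 58830) (.g (nat_lit 2205) (.e (nat_lit 1466) (nat_lit 108) (.e (nat_lit 336456) (nat_lit 34) (.e (nat_lit 483383) (nat_lit 23) (.e (nat_lit 336019) (nat_lit 3) (.e (nat_lit 98334) (nat_lit 18) .nil))))) .nil))) (.nd (nat_lit 6) 
(.lf (nat_lit 58798) (.g (nat_lit 1842) (.e (nat_lit 1464) (nat_lit 108) (.e (nat_lit 336227) (nat_lit 14) (.e (nat_lit 401428) (nat_lit 3) (.e (nat_lit 204868) (nat_lit 29) (.e (nat_lit 360471) (nat_lit 7) .nil))))) .nil)) 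
(.lf (nat_lit 58862) (.g (nat_lit 1390) (.e (nat_lit 1472) (nat_lit 108) (.e (nat_lit 336453) (nat_lit 34) (.e (nat_lit 483411) (nat_lit 27) (.e (nat_lit 401425) (nat_lit 2) .nil)))) .nil)))) (.nd (nat_lit 5) (.nd (nat_lit 6) 
(.lf (nat_lit 58782) (.g (nat_lit 2599) (.e (nat_lit 1464) (nat_lit 108) (.e (nat_lit 336212) (nat_lit 13) (.e (nat_lit 393301) (nat_lit 27) (.e (nat_lit 491559) (nat_lit 10) (.e (nat_lit 344177) (nat_lit 43) (.e (nat_lit 770056) (nat_lit 5) .nil)))))) (.g (nat_lit 4) .nil .nil))) 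
(.lf (nat_lit 58846) (.g (nat_lit 2219) (.e (nat_lit 1471) (nat_lit 108) (.e (nat_lit 336453) (nat_lit 34) (.e (nat_lit 483380) (nat_lit 23) (.e (nat_lit 336324) (nat_lit 18) (.e (nat_lit 204830) (nat_lit 18) (.e (nat_lit 57830) (nat_lit 250) (.e (nat_lit 1004) (nat_lit 81) .nil))))))) (.g (nat_lit 6) .nil .nil)))) (.nd (nat_lit 6) 
(.lf (nat_lit 58814) (.g (nat_lit 2663) (.e (nat_lit 1465) (nat_lit 108) (.e (nat_lit 336028) (nat_lit 3) (.e (nat_lit 98373) (nat_lit 29) (.e (nat_lit 450587) (nat_lit 10) (.e (nat_lit 573477) (nat_lit 12) .nil))))) .nil)) 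
(.lf (nat_lit 58878) (.g (nat_lit 1959) (.e (nat_lit 1483) (nat_lit 108) (.e (nat_lit 336222) (nat_lit 13) (.e (nat_lit 393260) (nat_lit 21) (.e (nat_lit 409646) (nat_lit 18) (.e (nat_lit 303115) (nat_lit 1) .nil))))) .nil)))))))) (.nd (nat_lit 1) (.nd (nat_lit 2) (.nd (nat_lit 3) (.nd (nat_lit 4) (.nd (nat_lit 5) (.nd (nat_lit 6) 
(.lf (nat_lit 58753) (.g (nat_lit 1791) (.e (nat_lit 1464) (nat_lit 108) (.e (nat_lit 336060) (nat_lit 7) (.e (nat_lit 319534) (nat_lit 16) (.e (nat_lit 286756) (nat_lit 10) (.e (nat_lit 344169) (nat_lit 40) (.e (nat_lit 671751) (nat_lit 0) (.e (nat_lit 1182) (nat_lit 87) (.e (nat_lit 57728) (nat_lit 181) (.e (nat_lit 992) (nat_lit 81) .nil))))))))) (.g (nat_lit 4) .nil .nil))) 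
(.lf (nat_lit 58817) (.g (nat_lit 2827) (.e (nat_lit 1465) (nat_lit 108) (.e (nat_lit 336028) (nat_lit 3) (.e (nat_lit 98373) (nat_lit 29) (.e (nat_lit 450588) (nat_lit 10) (.e (nat_lit 573475) (nat_lit 12) .nil))))) .nil))) (.nd (nat_lit 6) 
(.lf (nat_lit 58785) (.g (nat_lit 2959) (.e (nat_lit 1464) (nat_lit 108) (.e (nat_lit 336216) (nat_lit 13) (.e (nat_lit 393301) (nat_lit 27) (.e (nat_lit 491559) (nat_lit 10) (.e (nat_lit 344177) (nat_lit 43) (.e (nat_lit 770057) (nat_lit 5) .nil)))))) (.g (nat_lit 4) .nil .nil))) 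
(.lf (nat_lit 58849) (.g (nat_lit 2098) (.e (nat_lit 1471) (nat_lit 108) (.e (nat_lit 336453) (nat_lit 34) (.e (nat_lit 483403) (nat_lit 26) (.e (nat_lit 385066) (nat_lit 26) (.e (nat_lit 532501) (nat_lit 1) (.e (nat_lit 57830) (nat_lit 250) (.e (nat_lit 1004) (nat_lit 81) .nil))))))) (.g (nat_lit 6) .nil .nil))))) (.nd (nat_lit 5) (.nd (nat_lit 6) 
(.lf (nat_lit 58769) (.g (nat_lit 3543) (.e (nat_lit 1464) (nat_lit 108) (.e (nat_lit 336205) (nat_lit 12) (.e (nat_lit 385074) (nat_lit 31) (.e (nat_lit 573491) (nat_lit 15) (.e (nat_lit 81946) (nat_lit 20) (.e (nat_lit 1842) (nat_lit 123) (.e (nat_lit 548874) (nat_lit 5) .nil))))))) (.g (nat_lit 0) .nil .nil))) 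
(.lf (nat_lit 58833) (.g (nat_lit 1928) (.e (nat_lit 1468) (nat_lit 108) (.e (nat_lit 336370) (nat_lit 27) (.e (nat_lit 426312) (nat_lit 12) (.e (nat_lit 475199) (nat_lit 40) (.e (nat_lit 704595) (nat_lit 5) (.e (nat_lit 188160) (nat_lit 32) .nil)))))) (.g (nat_lit 5) .nil .nil)))) (.nd (nat_lit 6) 
(.lf (nat_lit 58801) (.g (nat_lit 1944) (.e (nat_lit 1464) (nat_lit 108) (.e (nat_lit 336227) (nat_lit 14) (.e (nat_lit 401458) (nat_lit 13) (.e (nat_lit 483383) (nat_lit 23) (.e (nat_lit 335878) (nat_lit 0) .nil))))) .nil)) 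
(.lf (nat_lit 58865) (.g (nat_lit 1905) (.e (nat_lit 1477) (nat_lit 108) (.e (nat_lit 336086) (nat_lit 9) (.e (nat_lit 336369) (nat_lit 27) (.e (nat_lit 426173) (nat_lit 7) (.e (nat_lit 409649) (nat_lit 18) (.e (nat_lit 303111) (nat_lit 0) (.e (nat_lit 3468) (nat_lit 217) (.e (nat_lit 696355) (nat_lit 13) .nil)))))))) (.g (nat_lit 4) .nil .nil)))))) 
(.nd (nat_lit 4) (.nd (nat_lit 5) (.nd (nat_lit 6) 
(.lf (nat_lit 58761) (.g (nat_lit 2833) (.e (nat_lit 1464) (nat_lit 108) (.e (nat_lit 336089) (nat_lit 9) (.e (nat_lit 336369) (nat_lit 27) (.e (nat_lit 426173) (nat_lit 7) (.e (nat_lit 409649) (nat_lit 18) (.e (nat_lit 303111) (nat_lit 0) (.e (nat_lit 3468) (nat_lit 217) (.e (nat_lit 696350) (nat_lit 13) .nil)))))))) (.g (nat_lit 6) .nil .nil))) 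
(.lf (nat_lit 58825) (.g (nat_lit 2282) (.e (nat_lit 1466) (nat_lit 108) (.e (nat_lit 336443) (nat_lit 32) (.e (nat_lit 466969) (nat_lit 21) (.e (nat_lit 164348) (nat_lit 240) (.e (nat_lit 2640) (nat_lit 165) (.e (nat_lit 188160) (nat_lit 32) .nil)))))) (.g (nat_lit 5) .nil .nil)))) (.nd (nat_lit 6) 
(.lf (nat_lit 58793) (.g (nat_lit 3335) (.e (nat_lit 1464) (nat_lit 108) (.e (nat_lit 336224) (nat_lit 13) (.e (nat_lit 393301) (nat_lit 27) (.e (nat_lit 491559) (nat_lit 10) (.e (nat_lit 344177) (nat_lit 43) (.e (nat_lit 770056) (nat_lit 5) .nil)))))) (.g (nat_lit 6) .nil .nil))) 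
(.lf (nat_lit 58857) (.g (nat_lit 1680) (.e (nat_lit 1472) (nat_lit 108) (.e (nat_lit 336323) (nat_lit 18) (.e (nat_lit 204882) (nat_lit 32) (.e (nat_lit 385066) (nat_lit 26) (.e (nat_lit 532532) (nat_lit 9) .nil))))) .nil)))) (.nd (nat_lit 5) (.nd (nat_lit 6) 
(.lf (nat_lit 58777) (.g (nat_lit 1170) (.e (nat_lit 1464) (nat_lit 108) (.e (nat_lit 336205) (nat_lit 12) (.e (nat_lit 385094) (nat_lit 49) (.e (nat_lit 778327) (nat_lit 6) .nil)))) .nil)) 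
(.lf (nat_lit 58841) (.g (nat_lit 522) (.e (nat_lit 1469) (nat_lit 108) (.e (nat_lit 336437) (nat_lit 31) (.e (nat_lit 458769) (nat_lit 16) (.e (nat_lit 164339) (nat_lit 232) (.e (nat_lit 446) (nat_lit 33) (.e (nat_lit 442112) (nat_lit 0) .nil)))))) (.g (nat_lit 5) .nil .nil)))) (.nd (nat_lit 6) 
(.lf (nat_lit 58809) (.g (nat_lit 2936) (.e (nat_lit 1465) (nat_lit 108) (.e (nat_lit 336013) (nat_lit 2) (.e (nat_lit 90170) (nat_lit 13) (.e (nat_lit 172106) (nat_lit 10) (.e (nat_lit 434244) (nat_lit 28) .nil))))) .nil)) 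
(.lf (nat_lit 58873) (.g (nat_lit 2528) (.e (nat_lit 1477) (nat_lit 108) (.e (nat_lit 336221) (nat_lit 13) (.e (nat_lit 393301) (nat_lit 27) (.e (nat_lit 491560) (nat_lit 10) (.e (nat_lit 344174) (nat_lit 42) .nil))))) .nil)))))) (.nd (nat_lit 3) (.nd (nat_lit 4) (.nd (nat_lit 5) (.nd (nat_lit 6) 
(.lf (nat_lit 58757) (.g (nat_lit 1985) (.e (nat_lit 1464) (nat_lit 108) (.e (nat_lit 336060) (nat_lit 7) (.e (nat_lit 319534) (nat_lit 16) (.e (nat_lit 286762) (nat_lit 14) (.e (nat_lit 401446) (nat_lit 10) .nil))))) .nil)) 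
(.lf (nat_lit 58821) (.g (nat_lit 2192) (.e (nat_lit 1465) (nat_lit 108) (.e (nat_lit 336060) (nat_lit 7) (.e (nat_lit 319534) (nat_lit 16) (.e (nat_lit 286756) (nat_lit 10) (.e (nat_lit 344160) (nat_lit 37) .nil))))) .nil))) (.nd (nat_lit 6) 
(.lf (nat_lit 58789) (.g (nat_lit 1953) (.e (nat_lit 1464) (nat_lit 108) (.e (nat_lit 336224) (nat_lit 13) (.e (nat_lit 393301) (nat_lit 27) (.e (nat_lit 491551) (nat_lit 9) (.e (nat_lit 335928) (nat_lit 0) .nil))))) .nil)) 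
(.lf (nat_lit 58853) (.g (nat_lit 2744) (.e (nat_lit 1472) (nat_lit 108) (.e (nat_lit 336323) (nat_lit 18) (.e (nat_lit 204852) (nat_lit 26) (.e (nat_lit 336324) (nat_lit 18) (.e (nat_lit 204852) (nat_lit 26) (.e (nat_lit 336316) (nat_lit 17) (.e (nat_lit 196628) (nat_lit 9) .nil))))))) (.g (nat_lit 0) .nil .nil))))) (.nd (nat_lit 5) (.nd (nat_lit 6) 
(.lf (nat_lit 58773) (.g (nat_lit 3405) (.e (nat_lit 1464) (nat_lit 108) (.e (nat_lit 336205) (nat_lit 12) (.e (nat_lit 385074) (nat_lit 31) (.e (nat_lit 573493) (nat_lit 15) (.e (nat_lit 81947) (nat_lit 20) (.e (nat_lit 1842) (nat_lit 123) (.e (nat_lit 548873) (nat_lit 5) .nil))))))) (.g (nat_lit 5) .nil .nil))) 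
(.lf (nat_lit 58837) (.g (nat_lit 1412) (.e (nat_lit 1468) (nat_lit 108) (.e (nat_lit 336434) (nat_lit 30) (.e (nat_lit 450564) (nat_lit 0) (.e (nat_lit 5548) (nat_lit 306) (.e (nat_lit 2640) (nat_lit 165) .nil))))) .nil))) (.nd (nat_lit 6) 
(.lf (nat_lit 58805) (.g (nat_lit 1424) (.e (nat_lit 1464) (nat_lit 108) (.e (nat_lit 336227) (nat_lit 14) (.e (nat_lit 401459) (nat_lit 13) (.e (nat_lit 483394) (nat_lit 24) .nil)))) .nil)) 
(.lf (nat_lit 58869) (.g (nat_lit 1311) (.e (nat_lit 1477) (nat_lit 108) (.e (nat_lit 336203) (nat_lit 12) (.e (nat_lit 385102) (nat_lit 50) (.e (nat_lit 786483) (nat_lit 30) (.e (nat_lit 360451) (nat_lit 0) .nil))))) .nil))))) (.nd (nat_lit 4) (.nd (nat_lit 5) (.nd (nat_lit 6) 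
(.lf (nat_lit 58765) (.g (nat_lit 3341) (.e (nat_lit 1464) (nat_lit 108) (.e (nat_lit 336205) (nat_lit 12) (.e (nat_lit 385074) (nat_lit 31) (.e (nat_lit 573484) (nat_lit 13) (.e (nat_lit 65617) (nat_lit 10) (.e (nat_lit 344126) (nat_lit 25) (.e (nat_lit 548872) (nat_lit 5) .nil))))))) (.g (nat_lit 6) .nil .nil))) 
(.lf (nat_lit 58829) (.g (nat_lit 2203) (.e (nat_lit 1466) (nat_lit 108) (.e (nat_lit 336454) (nat_lit 34) (.e (nat_lit 483406) (nat_lit 26) (.e (nat_lit 385066) (nat_lit 26) .nil)))) .nil))) (.nd (nat_lit 6) 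
(.lf (nat_lit 58797) (.g (nat_lit 3932) (.e (nat_lit 1464) (nat_lit 108) (.e (nat_lit 336227) (nat_lit 14) (.e (nat_lit 401425) (nat_lit 2) (.e (nat_lit 196666) (nat_lit 13) (.e (nat_lit 65617) (nat_lit 10) (.e (nat_lit 344126) (nat_lit 25) (.e (nat_lit 548873) (nat_lit 5) .nil))))))) (.g (nat_lit 5) .nil .nil))) 
(.lf (nat_lit 58861) (.g (nat_lit 1256) (.e (nat_lit 1472) (nat_lit 108) (.e (nat_lit 336453) (nat_lit 34) (.e (nat_lit 483403) (nat_lit 26) (.e (nat_lit 385066) (nat_lit 26) (.e (nat_lit 532504) (nat_lit 1) .nil))))) .nil)))) (.nd (nat_lit 5) (.nd (nat_lit 6) 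
(.lf (nat_lit 58781) (.g (nat_lit 2668) (.e (nat_lit 1464) (nat_lit 108) (.e (nat_lit 336205) (nat_lit 12) (.e (nat_lit 385106) (nat_lit 50) (.e (nat_lit 786483) (nat_lit 30) (.e (nat_lit 360486) (nat_lit 18) (.e (nat_lit 671748) (nat_lit 0) .nil)))))) (.g (nat_lit 5) .nil .nil))) 
(.lf (nat_lit 58845) (.g (nat_lit 67) (.e (nat_lit 1471) (nat_lit 108) (.e (nat_lit 336442) (nat_lit 32) (.e (nat_lit 474880) (nat_lit 4) .nil))) .nil))) (.nd (nat_lit 6) 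
(.lf (nat_lit 58813) (.g (nat_lit 3940) (.e (nat_lit 1465) (nat_lit 108) (.e (nat_lit 336013) (nat_lit 2) (.e (nat_lit 90170) (nat_lit 13) (.e (nat_lit 172113) (nat_lit 10) (.e (nat_lit 434248) (nat_lit 28) .nil))))) .nil)) 
(.lf (nat_lit 58877) (.g (nat_lit 692) (.e (nat_lit 1483) (nat_lit 108) (.e (nat_lit 336086) (nat_lit 9) (.e (nat_lit 336324) (nat_lit 18) .nil))) .nil))))))) (.nd (nat_lit 2) (.nd (nat_lit 3) (.nd (nat_lit 4) (.nd (nat_lit 5) (.nd (nat_lit 6) 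
(.lf (nat_lit 58755) (.g (nat_lit 1863) (.e (nat_lit 1464) (nat_lit 108) (.e (nat_lit 336060) (nat_lit 7) (.e (nat_lit 319534) (nat_lit 16) (.e (nat_lit 286756) (nat_lit 10) (.e (nat_lit 344169) (nat_lit 40) (.e (nat_lit 671751) (nat_lit 0) (.e (nat_lit 1182) (nat_lit 87) (.e (nat_lit 57731) (nat_lit 181) (.e (nat_lit 1008) (nat_lit 81) .nil))))))))) (.g (nat_lit 4) .nil .nil))) 
(.lf (nat_lit 58819) (.g (nat_lit 1377) (.e (nat_lit 1465) (nat_lit 108) (.e (nat_lit 336060) (nat_lit 7) (.e (nat_lit 319534) (nat_lit 16) (.e (nat_lit 286749) (nat_lit 9) .nil)))) .nil))) (.nd (nat_lit 6) 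
(.lf (nat_lit 58787) (.g (nat_lit 1218) (.e (nat_lit 1464) (nat_lit 108) (.e (nat_lit 336224) (nat_lit 13) (.e (nat_lit 393234) (nat_lit 17) (.e (nat_lit 7495) (nat_lit 402) (.e (nat_lit 1533) (nat_lit 109) (.e (nat_lit 344175) (nat_lit 43) (.e (nat_lit 770056) (nat_lit 5) .nil))))))) (.g (nat_lit 4) .nil .nil))) 
(.lf (nat_lit 58851) (.g (nat_lit 1981) (.e (nat_lit 1472) (nat_lit 108) (.e (nat_lit 336152) (nat_lit 9) (.e (nat_lit 336017) (nat_lit 3) (.e (nat_lit 98350) (nat_lit 24) (.e (nat_lit 409645) (nat_lit 18) .nil))))) .nil)))) (.nd (nat_lit 5) (.nd (nat_lit 6) 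
(.lf (nat_lit 58771) (.g (nat_lit 1962) (.e (nat_lit 1464) (nat_lit 108) (.e (nat_lit 336205) (nat_lit 12) (.e (nat_lit 385074) (nat_lit 31) (.e (nat_lit 573493) (nat_lit 15) (.e (nat_lit 81938) (nat_lit 20) .nil))))) .nil)) 
(.lf (nat_lit 58835) (.g (nat_lit 1188) (.e (nat_lit 1468) (nat_lit 108) (.e (nat_lit 336398) (nat_lit 27) (.e (nat_lit 426317) (nat_lit 12) (.e (nat_lit 475198) (nat_lit 40) (.e (nat_lit 704595) (nat_lit 5) .nil))))) .nil))) (.nd (nat_lit 6) 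
(.lf (nat_lit 58803) (.g (nat_lit 1776) (.e (nat_lit 1464) (nat_lit 108) (.e (nat_lit 336227) (nat_lit 14) (.e (nat_lit 401458) (nat_lit 13) (.e (nat_lit 483395) (nat_lit 24) (.e (nat_lit 344168) (nat_lit 40) (.e (nat_lit 671747) (nat_lit 0) .nil)))))) (.g (nat_lit 4) .nil .nil))) 
(.lf (nat_lit 58867) (.g (nat_lit 603) (.e (nat_lit 1477) (nat_lit 108) (.e (nat_lit 336203) (nat_lit 12) (.e (nat_lit 385102) (nat_lit 50) .nil))) .nil))))) (.nd (nat_lit 4) (.nd (nat_lit 5) (.nd (nat_lit 6) 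
(.lf (nat_lit 58763) (.g (nat_lit 1331) (.e (nat_lit 1464) (nat_lit 108) (.e (nat_lit 336205) (nat_lit 12) (.e (nat_lit 385072) (nat_lit 31) (.e (nat_lit 573481) (nat_lit 13) .nil)))) .nil)) 
(.lf (nat_lit 58827) (.g (nat_lit 2230) (.e (nat_lit 1466) (nat_lit 108) (.e (nat_lit 336443) (nat_lit 32) (.e (nat_lit 466971) (nat_lit 21) (.e (nat_lit 164348) (nat_lit 240) (.e (nat_lit 2640) (nat_lit 165) (.e (nat_lit 188160) (nat_lit 32) .nil)))))) (.g (nat_lit 5) .nil .nil)))) (.nd (nat_lit 6) 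
(.lf (nat_lit 58795) (.g (nat_lit 5250) (.e (nat_lit 1464) (nat_lit 108) (.e (nat_lit 336227) (nat_lit 14) (.e (nat_lit 401425) (nat_lit 2) (.e (nat_lit 196666) (nat_lit 13) (.e (nat_lit 65610) (nat_lit 10) (.e (nat_lit 344126) (nat_lit 25) (.e (nat_lit 548874) (nat_lit 5) .nil))))))) (.g (nat_lit 7) .nil .nil))) 
(.lf (nat_lit 58859) (.g (nat_lit 1569) (.e (nat_lit 1472) (nat_lit 108) (.e (nat_lit 336453) (nat_lit 34) (.e (nat_lit 483383) (nat_lit 23) (.e (nat_lit 336324) (nat_lit 18) (.e (nat_lit 204830) (nat_lit 18) .nil))))) .nil)))) (.nd (nat_lit 5) (.nd (nat_lit 6) 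
(.lf (nat_lit 58779) (.g (nat_lit 2126) (.e (nat_lit 1464) (nat_lit 108) (.e (nat_lit 336205) (nat_lit 12) (.e (nat_lit 385105) (nat_lit 50) (.e (nat_lit 786483) (nat_lit 30) (.e (nat_lit 360486) (nat_lit 18) (.e (nat_lit 671748) (nat_lit 0) .nil)))))) (.g (nat_lit 4) .nil .nil))) 
(.lf (nat_lit 58843) (.g (nat_lit 608) (.e (nat_lit 1471) (nat_lit 108) (.e (nat_lit 336437) (nat_lit 31) (.e (nat_lit 458769) (nat_lit 16) (.e (nat_lit 164339) (nat_lit 232) (.e (nat_lit 446) (nat_lit 33) (.e (nat_lit 442112) (nat_lit 0) .nil)))))) (.g (nat_lit 5) .nil .nil)))) (.nd (nat_lit 6) 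
(.lf (nat_lit 58811) (.g (nat_lit 3791) (.e (nat_lit 1465) (nat_lit 108) (.e (nat_lit 336013) (nat_lit 2) (.e (nat_lit 90170) (nat_lit 13) (.e (nat_lit 172113) (nat_lit 10) (.e (nat_lit 434242) (nat_lit 28) .nil))))) .nil)) 
(.lf (nat_lit 58875) (.g (nat_lit 2122) (.e (nat_lit 1477) (nat_lit 108) (.e (nat_lit 336222) (nat_lit 13) (.e (nat_lit 393260) (nat_lit 21) (.e (nat_lit 409649) (nat_lit 18) (.e (nat_lit 303111) (nat_lit 0) .nil))))) .nil)))))) (.nd (nat_lit 3) (.nd (nat_lit 4) (.nd (nat_lit 5) (.nd (nat_lit 6) 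
(.lf (nat_lit 58759) (.g (nat_lit 366) (.e (nat_lit 1464) (nat_lit 108) (.e (nat_lit 336060) (nat_lit 7) (.e (nat_lit 327424) (nat_lit 18) .nil))) .nil)) 
(.lf (nat_lit 58823) (.g (nat_lit 379) (.e (nat_lit 1466) (nat_lit 108) (.e (nat_lit 336438) (nat_lit 31) (.e (nat_lit 458769) (nat_lit 16) .nil))) .nil))) (.nd (nat_lit 6) 
(.lf (nat_lit 58791) (.g (nat_lit 2255) (.e (nat_lit 1464) (nat_lit 108) (.e (nat_lit 336224) (nat_lit 13) (.e (nat_lit 393301) (nat_lit 27) (.e (nat_lit 491558) (nat_lit 10) (.e (nat_lit 344175) (nat_lit 43) (.e (nat_lit 770055) (nat_lit 5) .nil)))))) (.g (nat_lit 4) .nil .nil))) 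
(.lf (nat_lit 58855) (.g (nat_lit 2658) (.e (nat_lit 1472) (nat_lit 108) (.e (nat_lit 336323) (nat_lit 18) (.e (nat_lit 204880) (nat_lit 32) (.e (nat_lit 385066) (nat_lit 26) (.e (nat_lit 532530) (nat_lit 9) (.e (nat_lit 336316) (nat_lit 17) (.e (nat_lit 196628) (nat_lit 9) .nil))))))) (.g (nat_lit 0) .nil .nil))))) (.nd (nat_lit 5) (.nd (nat_lit 6) 
(.lf (nat_lit 58775) (.g (nat_lit 1306) (.e (nat_lit 1464) (nat_lit 108) (.e (nat_lit 336205) (nat_lit 12) (.e (nat_lit 385093) (nat_lit 49) (.e (nat_lit 778327) (nat_lit 6) .nil)))) .nil)) 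
(.lf (nat_lit 58839) (.g (nat_lit 2775) (.e (nat_lit 1469) (nat_lit 108) (.e (nat_lit 336235) (nat_lit 14) (.e (nat_lit 401425) (nat_lit 2) (.e (nat_lit 196666) (nat_lit 13) (.e (nat_lit 65628) (nat_lit 14) .nil))))) .nil))) (.nd (nat_lit 6) 
(.lf (nat_lit 58807) (.g (nat_lit 2612) (.e (nat_lit 1465) (nat_lit 108) (.e (nat_lit 336013) (nat_lit 2) (.e (nat_lit 90170) (nat_lit 13) (.e (nat_lit 172106) (nat_lit 10) .nil)))) .nil)) 
(.lf (nat_lit 58871) (.g (nat_lit 870) (.e (nat_lit 1477) (nat_lit 108) (.e (nat_lit 336213) (nat_lit 13) (.e (nat_lit 393300) (nat_lit 27) .nil))) .nil))))) (.nd (nat_lit 4) (.nd (nat_lit 5) (.nd (nat_lit 6) 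
(.lf (nat_lit 58767) (.g (nat_lit 3261) (.e (nat_lit 1464) (nat_lit 108) (.e (nat_lit 336205) (nat_lit 12) (.e (nat_lit 385074) (nat_lit 31) (.e (nat_lit 573491) (nat_lit 15) (.e (nat_lit 81946) (nat_lit 20) (.e (nat_lit 1841) (nat_lit 123) (.e (nat_lit 548874) (nat_lit 5) .nil))))))) (.g (nat_lit 0) .nil .nil))) 
(.lf (nat_lit 58831) (.g (nat_lit 1909) (.e (nat_lit 1467) (nat_lit 108) (.e (nat_lit 336443) (nat_lit 32) (.e (nat_lit 466969) (nat_lit 21) (.e (nat_lit 164348) (nat_lit 240) (.e (nat_lit 2638) (nat_lit 165) .nil))))) .nil))) (.nd (nat_lit 6) 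
(.lf (nat_lit 58799) (.g (nat_lit 1393) (.e (nat_lit 1464) (nat_lit 108) (.e (nat_lit 336227) (nat_lit 14) (.e (nat_lit 401444) (nat_lit 9) (.e (nat_lit 426541) (nat_lit 29) .nil)))) .nil)) 
(.lf (nat_lit 58863) (.g (nat_lit 2126) (.e (nat_lit 1477) (nat_lit 108) (.e (nat_lit 336086) (nat_lit 9) (.e (nat_lit 336369) (nat_lit 27) (.e (nat_lit 426173) (nat_lit 7) (.e (nat_lit 409648) (nat_lit 18) .nil))))) .nil)))) (.nd (nat_lit 5) (.nd (nat_lit 6) 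
(.lf (nat_lit 58783) (.g (nat_lit 2685) (.e (nat_lit 1464) (nat_lit 108) (.e (nat_lit 336212) (nat_lit 13) (.e (nat_lit 393301) (nat_lit 27) (.e (nat_lit 491559) (nat_lit 10) (.e (nat_lit 344177) (nat_lit 43) (.e (nat_lit 770057) (nat_lit 5) .nil)))))) (.g (nat_lit 4) .nil .nil))) 
(.lf (nat_lit 58847) (.g (nat_lit 2529) (.e (nat_lit 1471) (nat_lit 108) (.e (nat_lit 336453) (nat_lit 34) (.e (nat_lit 483383) (nat_lit 23) (.e (nat_lit 336324) (nat_lit 18) (.e (nat_lit 204830) (nat_lit 18) (.e (nat_lit 57830) (nat_lit 250) (.e (nat_lit 1004) (nat_lit 81) .nil))))))) (.g (nat_lit 6) .nil .nil)))) (.nd (nat_lit 6) 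
(.lf (nat_lit 58815) (.g (nat_lit 2623) (.e (nat_lit 1465) (nat_lit 108) (.e (nat_lit 336028) (nat_lit 3) (.e (nat_lit 98373) (nat_lit 29) (.e (nat_lit 450587) (nat_lit 10) (.e (nat_lit 573478) (nat_lit 12) .nil))))) .nil)) 
(.lf (nat_lit 58879) (.g (nat_lit 2003) (.e (nat_lit 1483) (nat_lit 108) (.e (nat_lit 336222) (nat_lit 13) (.e (nat_lit 393260) (nat_lit 21) (.e (nat_lit 409649) (nat_lit 18) (.e (nat_lit 303115) (nat_lit 1) .nil))))) .nil)))))))))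

noncomputable def tv812 : DT := (.nd (nat_lit 0) (.nd (nat_lit 1) (.nd (nat_lit 2) (.nd (nat_lit 3) (.nd (nat_lit 4) (.nd (nat_lit 5) (.nd (nat_lit 6) 
(.lf (nat_lit 58880) (.g (nat_lit 2494) (.e (nat_lit 1485) (nat_lit 108) (.e (nat_lit 336011) (nat_lit 2) (.e (nat_lit 90170) (nat_lit 13) (.e (nat_lit 172106) (nat_lit 10) (.e (nat_lit 434244) (nat_lit 28) (.e (nat_lit 573473) (nat_lit 12) (.e (nat_lit 57353) (nat_lit 0) (.e (nat_lit 7124) (nat_lit 382) (.e (nat_lit 1016) (nat_lit 81) .nil))))))))) (.g (nat_lit 4) .nil .nil))) 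
(.lf (nat_lit 58944) (.g (nat_lit 2306) (.e (nat_lit 1499) (nat_lit 108) (.e (nat_lit 336223) (nat_lit 13) (.e (nat_lit 393301) (nat_lit 27) (.e (nat_lit 491558) (nat_lit 10) .nil)))) .nil))) (.nd (nat_lit 6) 
(.lf (nat_lit 58912) (.g (nat_lit 2258) (.e (nat_lit 1487) (nat_lit 108) (.e (nat_lit 335995) (nat_lit 1) (.e (nat_lit 57683) (nat_lit 155) (.e (nat_lit 122916) (nat_lit 14) (.e (nat_lit 352257) (nat_lit 0) .nil))))) .nil)) 
(.lf (nat_lit 58976) (.g (nat_lit 1041) (.e (nat_lit 1504) (nat_lit 108) (.e (nat_lit 336213) (nat_lit 13) (.e (nat_lit 393301) (nat_lit 27) .nil))) .nil)))) (.nd (nat_lit 5) (.nd (nat_lit 6) 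
(.lf (nat_lit 58896) (.g (nat_lit 2837) (.e (nat_lit 1485) (nat_lit 108) (.e (nat_lit 336204) (nat_lit 12) (.e (nat_lit 385074) (nat_lit 31) (.e (nat_lit 573491) (nat_lit 15) (.e (nat_lit 81924) (nat_lit 0) .nil))))) .nil)) 
(.lf (nat_lit 58960) (.g (nat_lit 4417) (.e (nat_lit 1502) (nat_lit 108) (.e (nat_lit 336027) (nat_lit 3) (.e (nat_lit 98373) (nat_lit 29) (.e (nat_lit 450587) (nat_lit 10) (.e (nat_lit 573475) (nat_lit 12) (.e (nat_lit 57572) (nat_lit 54) (.e (nat_lit 770054) (nat_lit 5) .nil))))))) (.g (nat_lit 7) .nil .nil)))) (.nd (nat_lit 6) 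
(.lf (nat_lit 58928) (.g (nat_lit 1579) (.e (nat_lit 1499) (nat_lit 108) (.e (nat_lit 335995) (nat_lit 1) (.e (nat_lit 57872) (nat_lit 264) (.e (nat_lit 1172) (nat_lit 87) .nil)))) .nil)) 
(.lf (nat_lit 58992) (.g (nat_lit 4008) (.e (nat_lit 1504) (nat_lit 108) (.e (nat_lit 336223) (nat_lit 13) (.e (nat_lit 393301) (nat_lit 27) (.e (nat_lit 491559) (nat_lit 10) (.e (nat_lit 344177) (nat_lit 43) (.e (nat_lit 770056) (nat_lit 5) .nil)))))) (.g (nat_lit 6) .nil .nil)))))) (.nd (nat_lit 4) (.nd (nat_lit 5) (.nd (nat_lit 6) 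
(.lf (nat_lit 58888) (.g (nat_lit 2274) (.e (nat_lit 1485) (nat_lit 108) (.e (nat_lit 336012) (nat_lit 2) (.e (nat_lit 90176) (nat_lit 15) (.e (nat_lit 188450) (nat_lit 23) (.e (nat_lit 204821) (nat_lit 17) .nil))))) .nil)) 
(.lf (nat_lit 58952) (.g (nat_lit 3682) (.e (nat_lit 1499) (nat_lit 108) (.e (nat_lit 336223) (nat_lit 13) (.e (nat_lit 393301) (nat_lit 27) (.e (nat_lit 491560) (nat_lit 10) (.e (nat_lit 344096) (nat_lit 18) .nil))))) .nil))) (.nd (nat_lit 6) 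
(.lf (nat_lit 58920) (.g (nat_lit 2244) (.e (nat_lit 1489) (nat_lit 108) (.e (nat_lit 336012) (nat_lit 2) (.e (nat_lit 90176) (nat_lit 15) (.e (nat_lit 188450) (nat_lit 23) (.e (nat_lit 204821) (nat_lit 17) (.e (nat_lit 1910) (nat_lit 129) (.e (nat_lit 598022) (nat_lit 5) .nil))))))) (.g (nat_lit 4) .nil .nil))) 
(.lf (nat_lit 58984) (.g (nat_lit 3209) (.e (nat_lit 1504) (nat_lit 108) (.e (nat_lit 336223) (nat_lit 13) (.e (nat_lit 393301) (nat_lit 27) (.e (nat_lit 491558) (nat_lit 10) (.e (nat_lit 344090) (nat_lit 18) .nil))))) .nil)))) (.nd (nat_lit 5) (.nd (nat_lit 6) 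
(.lf (nat_lit 58904) (.g (nat_lit 3517) (.e (nat_lit 1485) (nat_lit 108) (.e (nat_lit 336223) (nat_lit 13) (.e (nat_lit 393301) (nat_lit 27) (.e (nat_lit 491560) (nat_lit 10) (.e (nat_lit 344090) (nat_lit 18) .nil))))) .nil)) 
(.lf (nat_lit 58968) (.g (nat_lit 3554) (.e (nat_lit 1504) (nat_lit 108) (.e (nat_lit 336011) (nat_lit 2) (.e (nat_lit 90170) (nat_lit 13) (.e (nat_lit 172113) (nat_lit 10) (.e (nat_lit 434248) (nat_lit 28) .nil))))) .nil))) (.nd (nat_lit 6) 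
(.lf (nat_lit 58936) (.g (nat_lit 3444) (.e (nat_lit 1499) (nat_lit 108) (.e (nat_lit 336011) (nat_lit 2) (.e (nat_lit 90170) (nat_lit 13) (.e (nat_lit 172113) (nat_lit 10) (.e (nat_lit 434248) (nat_lit 28) .nil))))) .nil)) 
(.lf (nat_lit 59000) (.g (nat_lit 1011) (.e (nat_lit 1506) (nat_lit 108) (.e (nat_lit 336402) (nat_lit 27) (.e (nat_lit 425987) (nat_lit 0) (.e (nat_lit 7588) (nat_lit 406) (.e (nat_lit 65632) (nat_lit 15) (.e (nat_lit 7081) (nat_lit 378) (.e (nat_lit 57878) (nat_lit 270) .nil))))))) (.g (nat_lit 7) .nil .nil))))))) (.nd (nat_lit 3) (.nd (nat_lit 4) (.nd (nat_lit 5) (.nd (nat_lit 6) 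
(.lf (nat_lit 58884) (.g (nat_lit 3535) (.e (nat_lit 1485) (nat_lit 108) (.e (nat_lit 336011) (nat_lit 2) (.e (nat_lit 90170) (nat_lit 13) (.e (nat_lit 172113) (nat_lit 10) (.e (nat_lit 434245) (nat_lit 28) .nil))))) .nil)) 
(.lf (nat_lit 58948) (.g (nat_lit 3537) (.e (nat_lit 1499) (nat_lit 108) (.e (nat_lit 336223) (nat_lit 13) (.e (nat_lit 393301) (nat_lit 27) (.e (nat_lit 491559) (nat_lit 10) (.e (nat_lit 344177) (nat_lit 43) (.e (nat_lit 770056) (nat_lit 5) .nil)))))) (.g (nat_lit 5) .nil .nil)))) (.nd (nat_lit 6) 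
(.lf (nat_lit 58916) (.g (nat_lit 2495) (.e (nat_lit 1488) (nat_lit 108) (.e (nat_lit 336223) (nat_lit 13) (.e (nat_lit 393301) (nat_lit 27) (.e (nat_lit 491560) (nat_lit 10) (.e (nat_lit 344177) (nat_lit 43) .nil))))) .nil)) 
(.lf (nat_lit 58980) (.g (nat_lit 2746) (.e (nat_lit 1504) (nat_lit 108) (.e (nat_lit 336223) (nat_lit 13) (.e (nat_lit 393234) (nat_lit 17) (.e (nat_lit 7591) (nat_lit 407) (.e (nat_lit 73729) (nat_lit 0) .nil))))) .nil)))) (.nd (nat_lit 5) (.nd (nat_lit 6) 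
(.lf (nat_lit 58900) (.g (nat_lit 3344) (.e (nat_lit 1485) (nat_lit 108) (.e (nat_lit 336223) (nat_lit 13) (.e (nat_lit 393301) (nat_lit 27) (.e (nat_lit 491558) (nat_lit 10) (.e (nat_lit 344091) (nat_lit 18) .nil))))) .nil)) 
(.lf (nat_lit 58964) (.g (nat_lit 3234) (.e (nat_lit 1503) (nat_lit 108) (.e (nat_lit 336027) (nat_lit 3) (.e (nat_lit 98373) (nat_lit 29) (.e (nat_lit 450587) (nat_lit 10) (.e (nat_lit 573475) (nat_lit 12) .nil))))) .nil))) (.nd (nat_lit 6) 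
(.lf (nat_lit 58932) (.g (nat_lit 2201) (.e (nat_lit 1499) (nat_lit 108) (.e (nat_lit 336011) (nat_lit 2) (.e (nat_lit 90170) (nat_lit 13) (.e (nat_lit 172106) (nat_lit 10) (.e (nat_lit 434244) (nat_lit 28) .nil))))) .nil)) 
(.lf (nat_lit 58996) (.g (nat_lit 3318) (.e (nat_lit 1504) (nat_lit 108) (.e (nat_lit 336223) (nat_lit 13) (.e (nat_lit 393301) (nat_lit 27) (.e (nat_lit 491560) (nat_lit 10) (.e (nat_lit 344094) (nat_lit 18) .nil))))) .nil))))) (.nd (nat_lit 4) (.nd (nat_lit 5) (.nd (nat_lit 6) 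
(.lf (nat_lit 58892) (.g (nat_lit 699) (.e (nat_lit 1485) (nat_lit 108) (.e (nat_lit 336204) (nat_lit 12) (.e (nat_lit 385074) (nat_lit 31) .nil))) .nil)) 
(.lf (nat_lit 58956) (.g (nat_lit 2290) (.e (nat_lit 1502) (nat_lit 108) (.e (nat_lit 336012) (nat_lit 2) (.e (nat_lit 90176) (nat_lit 15) (.e (nat_lit 188450) (nat_lit 23) (.e (nat_lit 204817) (nat_lit 17) .nil))))) .nil))) (.nd (nat_lit 6) 
(.lf (nat_lit 58924) (.g (nat_lit 3234) (.e (nat_lit 1490) (nat_lit 108) (.e (nat_lit 336027) (nat_lit 3) (.e (nat_lit 98373) (nat_lit 29) (.e (nat_lit 450587) (nat_lit 10) (.e (nat_lit 573475) (nat_lit 12) .nil))))) .nil)) 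
(.lf (nat_lit 58988) (.g (nat_lit 3345) (.e (nat_lit 1504) (nat_lit 108) (.e (nat_lit 336223) (nat_lit 13) (.e (nat_lit 393301) (nat_lit 27) (.e (nat_lit 491558) (nat_lit 10) (.e (nat_lit 344096) (nat_lit 18) (.e (nat_lit 7122) (nat_lit 382) (.e (nat_lit 1016) (nat_lit 81) .nil))))))) (.g (nat_lit 4) .nil .nil))))) (.nd (nat_lit 5) (.nd (nat_lit 6) 
(.lf (nat_lit 58908) (.g (nat_lit 2495) (.e (nat_lit 1485) (nat_lit 108) (.e (nat_lit 336223) (nat_lit 13) (.e (nat_lit 393301) (nat_lit 27) (.e (nat_lit 491560) (nat_lit 10) (.e (nat_lit 344177) (nat_lit 43) .nil))))) .nil)) 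
(.lf (nat_lit 58972) (.g (nat_lit 2858) (.e (nat_lit 1504) (nat_lit 108) (.e (nat_lit 336204) (nat_lit 12) (.e (nat_lit 385074) (nat_lit 31) (.e (nat_lit 573482) (nat_lit 13) .nil)))) .nil))) (.nd (nat_lit 6) 
(.lf (nat_lit 58940) (.g (nat_lit 2023) (.e (nat_lit 1499) (nat_lit 108) (.e (nat_lit 336204) (nat_lit 12) (.e (nat_lit 385074) (nat_lit 31) (.e (nat_lit 573487) (nat_lit 14) (.e (nat_lit 81664) (nat_lit 32) .nil))))) .nil)) 
(.lf (nat_lit 59004) (.g (nat_lit 3244) (.e (nat_lit 1512) (nat_lit 108) (.e (nat_lit 335872) (nat_lit 0) (.e (nat_lit 1775) (nat_lit 118) (.e (nat_lit 507923) (nat_lit 6) (.e (nat_lit 286747) (nat_lit 9) (.e (nat_lit 336013) (nat_lit 2) (.e (nat_lit 90165) (nat_lit 12) (.e (nat_lit 164237) (nat_lit 187) .nil)))))))) (.g (nat_lit 7) .nil .nil)))))))) 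
(.nd (nat_lit 2) (.nd (nat_lit 3) (.nd (nat_lit 4) (.nd (nat_lit 5) (.nd (nat_lit 6) 
(.lf (nat_lit 58882) (.g (nat_lit 2305) (.e (nat_lit 1485) (nat_lit 108) (.e (nat_lit 336011) (nat_lit 2) (.e (nat_lit 90170) (nat_lit 13) (.e (nat_lit 172106) (nat_lit 10) (.e (nat_lit 434244) (nat_lit 28) (.e (nat_lit 573474) (nat_lit 12) (.e (nat_lit 57348) (nat_lit 0) (.e (nat_lit 7124) (nat_lit 382) (.e (nat_lit 1016) (nat_lit 81) .nil))))))))) (.g (nat_lit 4) .nil .nil))) 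
(.lf (nat_lit 58946) (.g (nat_lit 3280) (.e (nat_lit 1499) (nat_lit 108) (.e (nat_lit 336223) (nat_lit 13) (.e (nat_lit 393301) (nat_lit 27) (.e (nat_lit 491558) (nat_lit 10) (.e (nat_lit 344096) (nat_lit 18) .nil))))) .nil))) (.nd (nat_lit 6) 
(.lf (nat_lit 58914) (.g (nat_lit 3564) (.e (nat_lit 1487) (nat_lit 108) (.e (nat_lit 336223) (nat_lit 13) (.e (nat_lit 393301) (nat_lit 27) (.e (nat_lit 491560) (nat_lit 10) (.e (nat_lit 344097) (nat_lit 18) .nil))))) .nil)) 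
(.lf (nat_lit 58978) (.g (nat_lit 1221) (.e (nat_lit 1504) (nat_lit 108) (.e (nat_lit 336215) (nat_lit 13) (.e (nat_lit 393229) (nat_lit 9) (.e (nat_lit 335996) (nat_lit 1) .nil)))) .nil)))) (.nd (nat_lit 5) (.nd (nat_lit 6) 
(.lf (nat_lit 58898) (.g (nat_lit 1796) (.e (nat_lit 1485) (nat_lit 108) (.e (nat_lit 336223) (nat_lit 13) (.e (nat_lit 393234) (nat_lit 17) (.e (nat_lit 7593) (nat_lit 407) .nil)))) .nil)) 
(.lf (nat_lit 58962) (.g (nat_lit 1930) (.e (nat_lit 1502) (nat_lit 108) (.e (nat_lit 336223) (nat_lit 13) (.e (nat_lit 393301) (nat_lit 27) (.e (nat_lit 491560) (nat_lit 10) .nil)))) .nil))) (.nd (nat_lit 6) 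
(.lf (nat_lit 58930) (.g (nat_lit 2334) (.e (nat_lit 1499) (nat_lit 108) (.e (nat_lit 336011) (nat_lit 2) (.e (nat_lit 90170) (nat_lit 13) (.e (nat_lit 172106) (nat_lit 10) (.e (nat_lit 434231) (nat_lit 23) .nil))))) .nil)) 
(.lf (nat_lit 58994) (.g (nat_lit 3535) (.e (nat_lit 1504) (nat_lit 108) (.e (nat_lit 336223) (nat_lit 13) (.e (nat_lit 393301) (nat_lit 27) (.e (nat_lit 491560) (nat_lit 10) (.e (nat_lit 344090) (nat_lit 18) .nil))))) .nil))))) (.nd (nat_lit 4) (.nd (nat_lit 5) (.nd (nat_lit 6) 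
(.lf (nat_lit 58890) (.g (nat_lit 3273) (.e (nat_lit 1485) (nat_lit 108) (.e (nat_lit 336027) (nat_lit 3) (.e (nat_lit 98373) (nat_lit 29) (.e (nat_lit 450587) (nat_lit 10) (.e (nat_lit 573475) (nat_lit 12) .nil))))) .nil)) 
(.lf (nat_lit 58954) (.g (nat_lit 1936) (.e (nat_lit 1501) (nat_lit 108) (.e (nat_lit 335995) (nat_lit 1) (.e (nat_lit 57683) (nat_lit 155) (.e (nat_lit 122914) (nat_lit 14) (.e (nat_lit 352257) (nat_lit 0) .nil))))) .nil))) (.nd (nat_lit 6) 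
(.lf (nat_lit 58922) (.g (nat_lit 3234) (.e (nat_lit 1489) (nat_lit 108) (.e (nat_lit 336027) (nat_lit 3) (.e (nat_lit 98373) (nat_lit 29) (.e (nat_lit 450587) (nat_lit 10) (.e (nat_lit 573475) (nat_lit 12) .nil))))) .nil)) 
(.lf (nat_lit 58986) (.g (nat_lit 3166) (.e (nat_lit 1504) (nat_lit 108) (.e (nat_lit 336223) (nat_lit 13) (.e (nat_lit 393301) (nat_lit 27) (.e (nat_lit 491558) (nat_lit 10) (.e (nat_lit 344095) (nat_lit 18) .nil))))) .nil)))) (.nd (nat_lit 5) (.nd (nat_lit 6) 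
(.lf (nat_lit 58906) (.g (nat_lit 4131) (.e (nat_lit 1485) (nat_lit 108) (.e (nat_lit 336223) (nat_lit 13) (.e (nat_lit 393301) (nat_lit 27) (.e (nat_lit 491560) (nat_lit 10) (.e (nat_lit 344095) (nat_lit 18) .nil))))) .nil)) 
(.lf (nat_lit 58970) (.g (nat_lit 3428) (.e (nat_lit 1504) (nat_lit 108) (.e (nat_lit 336027) (nat_lit 3) (.e (nat_lit 98373) (nat_lit 29) (.e (nat_lit 450588) (nat_lit 10) (.e (nat_lit 573474) (nat_lit 12) .nil))))) .nil))) (.nd (nat_lit 6) 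
(.lf (nat_lit 58938) (.g (nat_lit 3035) (.e (nat_lit 1499) (nat_lit 108) (.e (nat_lit 336025) (nat_lit 3) (.e (nat_lit 98373) (nat_lit 29) (.e (nat_lit 450587) (nat_lit 10) (.e (nat_lit 573475) (nat_lit 12) (.e (nat_lit 57572) (nat_lit 54) (.e (nat_lit 770055) (nat_lit 5) .nil))))))) (.g (nat_lit 7) .nil .nil))) 
(.lf (nat_lit 59002) (.g (nat_lit 1936) (.e (nat_lit 1508) (nat_lit 108) (.e (nat_lit 335995) (nat_lit 1) (.e (nat_lit 57683) (nat_lit 155) (.e (nat_lit 122914) (nat_lit 14) (.e (nat_lit 352257) (nat_lit 0) .nil))))) .nil)))))) (.nd (nat_lit 3) (.nd (nat_lit 4) (.nd (nat_lit 5) (.nd (nat_lit 6) 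
(.lf (nat_lit 58886) (.g (nat_lit 1415) (.e (nat_lit 1485) (nat_lit 108) (.e (nat_lit 336012) (nat_lit 2) (.e (nat_lit 90176) (nat_lit 15) (.e (nat_lit 188450) (nat_lit 23) .nil)))) .nil)) 
(.lf (nat_lit 58950) (.g (nat_lit 3523) (.e (nat_lit 1499) (nat_lit 108) (.e (nat_lit 336223) (nat_lit 13) (.e (nat_lit 393301) (nat_lit 27) (.e (nat_lit 491560) (nat_lit 10) (.e (nat_lit 344090) (nat_lit 18) .nil))))) .nil))) (.nd (nat_lit 6) 
(.lf (nat_lit 58918) (.g (nat_lit 2240) (.e (nat_lit 1489) (nat_lit 108) (.e (nat_lit 336012) (nat_lit 2) (.e (nat_lit 90176) (nat_lit 15) (.e (nat_lit 188450) (nat_lit 23) (.e (nat_lit 204817) (nat_lit 17) .nil))))) .nil)) 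
(.lf (nat_lit 58982) (.g (nat_lit 1814) (.e (nat_lit 1504) (nat_lit 108) (.e (nat_lit 336223) (nat_lit 13) (.e (nat_lit 393234) (nat_lit 17) (.e (nat_lit 7593) (nat_lit 407) .nil)))) .nil)))) (.nd (nat_lit 5) (.nd (nat_lit 6) 
(.lf (nat_lit 58902) (.g (nat_lit 3274) (.e (nat_lit 1485) (nat_lit 108) (.e (nat_lit 336223) (nat_lit 13) (.e (nat_lit 393301) (nat_lit 27) (.e (nat_lit 491558) (nat_lit 10) (.e (nat_lit 344096) (nat_lit 18) .nil))))) .nil)) 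
(.lf (nat_lit 58966) (.g (nat_lit 2503) (.e (nat_lit 1504) (nat_lit 108) (.e (nat_lit 336011) (nat_lit 2) (.e (nat_lit 90170) (nat_lit 13) (.e (nat_lit 172106) (nat_lit 10) (.e (nat_lit 434244) (nat_lit 28) (.e (nat_lit 573474) (nat_lit 12) (.e (nat_lit 57351) (nat_lit 0) (.e (nat_lit 7122) (nat_lit 382) (.e (nat_lit 1016) (nat_lit 81) .nil))))))))) (.g (nat_lit 4) .nil .nil)))) (.nd (nat_lit 6) 
(.lf (nat_lit 58934) (.g (nat_lit 3309) (.e (nat_lit 1499) (nat_lit 108) (.e (nat_lit 336011) (nat_lit 2) (.e (nat_lit 90170) (nat_lit 13) (.e (nat_lit 172113) (nat_lit 10) (.e (nat_lit 434242) (nat_lit 28) .nil))))) .nil)) 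
(.lf (nat_lit 58998) (.g (nat_lit 3693) (.e (nat_lit 1504) (nat_lit 108) (.e (nat_lit 336223) (nat_lit 13) (.e (nat_lit 393301) (nat_lit 27) (.e (nat_lit 491560) (nat_lit 10) (.e (nat_lit 344096) (nat_lit 18) .nil))))) .nil))))) (.nd (nat_lit 4) (.nd (nat_lit 5) (.nd (nat_lit 6) 
(.lf (nat_lit 58894) (.g (nat_lit 2220) (.e (nat_lit 1485) (nat_lit 108) (.e (nat_lit 336204) (nat_lit 12) (.e (nat_lit 385074) (nat_lit 31) (.e (nat_lit 573487) (nat_lit 14) (.e (nat_lit 73782) (nat_lit 32) .nil))))) .nil)) 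
(.lf (nat_lit 58958) (.g (nat_lit 3127) (.e (nat_lit 1502) (nat_lit 108) (.e (nat_lit 336027) (nat_lit 3) (.e (nat_lit 98373) (nat_lit 29) (.e (nat_lit 450587) (nat_lit 10) (.e (nat_lit 573475) (nat_lit 12) .nil))))) .nil))) (.nd (nat_lit 6) 
(.lf (nat_lit 58926) (.g (nat_lit 3234) (.e (nat_lit 1491) (nat_lit 108) (.e (nat_lit 336027) (nat_lit 3) (.e (nat_lit 98373) (nat_lit 29) (.e (nat_lit 450587) (nat_lit 10) (.e (nat_lit 573475) (nat_lit 12) .nil))))) .nil)) 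
(.lf (nat_lit 58990) (.g (nat_lit 3514) (.e (nat_lit 1504) (nat_lit 108) (.e (nat_lit 336223) (nat_lit 13) (.e (nat_lit 393301) (nat_lit 27) (.e (nat_lit 491559) (nat_lit 10) (.e (nat_lit 344095) (nat_lit 18) .nil))))) .nil)))) (.nd (nat_lit 5) (.nd (nat_lit 6) 
(.lf (nat_lit 58910) (.g (nat_lit 1945) (.e (nat_lit 1487) (nat_lit 108) (.e (nat_lit 335995) (nat_lit 1) (.e (nat_lit 57683) (nat_lit 155) (.e (nat_lit 122914) (nat_lit 14) (.e (nat_lit 352257) (nat_lit 0) .nil))))) .nil)) 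
(.lf (nat_lit 58974) (.g (nat_lit 2781) (.e (nat_lit 1504) (nat_lit 108) (.e (nat_lit 336204) (nat_lit 12) (.e (nat_lit 385074) (nat_lit 31) (.e (nat_lit 573491) (nat_lit 15) (.e (nat_lit 81924) (nat_lit 0) (.e (nat_lit 3305) (nat_lit 202) (.e (nat_lit 573456) (nat_lit 9) .nil))))))) (.g (nat_lit 4) .nil .nil)))) (.nd (nat_lit 6) 
(.lf (nat_lit 58942) (.g (nat_lit 1829) (.e (nat_lit 1499) (nat_lit 108) (.e (nat_lit 336223) (nat_lit 13) (.e (nat_lit 393234) (nat_lit 17) (.e (nat_lit 7591) (nat_lit 407) .nil)))) .nil)) 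
(.lf (nat_lit 59006) (.g (nat_lit 4101) (.e (nat_lit 1512) (nat_lit 108) (.e (nat_lit 335872) (nat_lit 0) (.e (nat_lit 1796) (nat_lit 119) (.e (nat_lit 516185) (nat_lit 16) (.e (nat_lit 491546) (nat_lit 9) (.e (nat_lit 336013) (nat_lit 2) (.e (nat_lit 90165) (nat_lit 12) (.e (nat_lit 164237) (nat_lit 187) .nil)))))))) (.g (nat_lit 8) .nil .nil))))))))) 
(.nd (nat_lit 1) (.nd (nat_lit 2) (.nd (nat_lit 3) (.nd (nat_lit 4) (.nd (nat_lit 5) 
(.nd (nat_lit 6) 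
(.lf (nat_lit 58881) (.g (nat_lit 2497) (.e (nat_lit 1485) (nat_lit 108) (.e (nat_lit 336011) (nat_lit 2) (.e (nat_lit 90170) (nat_lit 13) (.e (nat_lit 172106) (nat_lit 10) (.e (nat_lit 434244) (nat_lit 28) (.e (nat_lit 573474) (nat_lit 12) (.e (nat_lit 57347) (nat_lit 0) (.e (nat_lit 7122) (nat_lit 382) (.e (nat_lit 1016) (nat_lit 81) .nil))))))))) (.g (nat_lit 4) .nil .nil))) 
(.lf (nat_lit 58945) (.g (nat_lit 3350) (.e (nat_lit 1499) (nat_lit 108) (.e (nat_lit 336223) (nat_lit 13) (.e (nat_lit 393301) (nat_lit 27) (.e (nat_lit 491558) (nat_lit 10) (.e (nat_lit 344091) (nat_lit 18) .nil))))) .nil))) (.nd (nat_lit 6) 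
(.lf (nat_lit 58913) (.g (nat_lit 941) (.e (nat_lit 1487) (nat_lit 108) (.e (nat_lit 336223) (nat_lit 13) (.e (nat_lit 393301) (nat_lit 27) .nil))) .nil)) 
(.lf (nat_lit 58977) (.g (nat_lit 1375) (.e (nat_lit 1504) (nat_lit 108) (.e (nat_lit 336215) (nat_lit 13) (.e (nat_lit 393229) (nat_lit 9) (.e (nat_lit 335995) (nat_lit 1) .nil)))) .nil)))) (.nd (nat_lit 5) (.nd (nat_lit 6) 
(.lf (nat_lit 58897) (.g (nat_lit 1814) (.e (nat_lit 1485) (nat_lit 108) (.e (nat_lit 336223) (nat_lit 13) (.e (nat_lit 393234) (nat_lit 17) (.e (nat_lit 7591) (nat_lit 407) .nil)))) .nil)) 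
(.lf (nat_lit 58961) (.g (nat_lit 940) (.e (nat_lit 1502) (nat_lit 108) (.e (nat_lit 336223) (nat_lit 13) (.e (nat_lit 393234) (nat_lit 17) .nil))) .nil))) (.nd (nat_lit 6) 
(.lf (nat_lit 58929) (.g (nat_lit 2196) (.e (nat_lit 1499) (nat_lit 108) (.e (nat_lit 335995) (nat_lit 1) (.e (nat_lit 57872) (nat_lit 264) (.e (nat_lit 1181) (nat_lit 87) (.e (nat_lit 57478) (nat_lit 28) .nil))))) .nil)) 
(.lf (nat_lit 58993) (.g (nat_lit 3812) (.e (nat_lit 1504) (nat_lit 108) (.e (nat_lit 336223) (nat_lit 13) (.e (nat_lit 393301) (nat_lit 27) (.e (nat_lit 491560) (nat_lit 10) (.e (nat_lit 344087) (nat_lit 18) .nil))))) .nil))))) (.nd (nat_lit 4) (.nd (nat_lit 5) (.nd (nat_lit 6) 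
(.lf (nat_lit 58889) (.g (nat_lit 1878) (.e (nat_lit 1485) (nat_lit 108) (.e (nat_lit 336027) (nat_lit 3) (.e (nat_lit 98372) (nat_lit 29) (.e (nat_lit 450586) (nat_lit 10) .nil)))) .nil)) 
(.lf (nat_lit 58953) (.g (nat_lit 2300) (.e (nat_lit 1500) (nat_lit 108) (.e (nat_lit 336223) (nat_lit 13) (.e (nat_lit 393301) (nat_lit 27) (.e (nat_lit 491558) (nat_lit 10) .nil)))) .nil))) (.nd (nat_lit 6) 
(.lf (nat_lit 58921) (.g (nat_lit 2627) (.e (nat_lit 1489) (nat_lit 108) (.e (nat_lit 336027) (nat_lit 3) (.e (nat_lit 98372) (nat_lit 29) (.e (nat_lit 450579) (nat_lit 5) (.e (nat_lit 532484) (nat_lit 0) .nil))))) .nil)) 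
(.lf (nat_lit 58985) (.g (nat_lit 3361) (.e (nat_lit 1504) (nat_lit 108) (.e (nat_lit 336223) (nat_lit 13) (.e (nat_lit 393301) (nat_lit 27) (.e (nat_lit 491558) (nat_lit 10) (.e (nat_lit 344091) (nat_lit 18) .nil))))) .nil)))) (.nd (nat_lit 5) (.nd (nat_lit 6) 
(.lf (nat_lit 58905) (.g (nat_lit 3300) (.e (nat_lit 1485) (nat_lit 108) (.e (nat_lit 336223) (nat_lit 13) (.e (nat_lit 393301) (nat_lit 27) (.e (nat_lit 491560) (nat_lit 10) (.e (nat_lit 344094) (nat_lit 18) .nil))))) .nil)) 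
(.lf (nat_lit 58969) (.g (nat_lit 4275) (.e (nat_lit 1504) (nat_lit 108) (.e (nat_lit 336027) (nat_lit 3) (.e (nat_lit 98373) (nat_lit 29) (.e (nat_lit 450587) (nat_lit 10) (.e (nat_lit 573475) (nat_lit 12) (.e (nat_lit 57572) (nat_lit 54) (.e (nat_lit 770056) (nat_lit 5) .nil))))))) (.g (nat_lit 7) .nil .nil)))) (.nd (nat_lit 6) 
(.lf (nat_lit 58937) (.g (nat_lit 704) (.e (nat_lit 1499) (nat_lit 108) (.e (nat_lit 336012) (nat_lit 2) (.e (nat_lit 90176) (nat_lit 15) .nil))) .nil)) 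
(.lf (nat_lit 59001) (.g (nat_lit 703) (.e (nat_lit 1508) (nat_lit 108) (.e (nat_lit 335986) (nat_lit 1) (.e (nat_lit 57684) (nat_lit 155) .nil))) .nil)))))) (.nd (nat_lit 3) (.nd (nat_lit 4) (.nd (nat_lit 5) (.nd (nat_lit 6) 
(.lf (nat_lit 58885) (.g (nat_lit 3485) (.e (nat_lit 1485) (nat_lit 108) (.e (nat_lit 336011) (nat_lit 2) (.e (nat_lit 90170) (nat_lit 13) (.e (nat_lit 172113) (nat_lit 10) (.e (nat_lit 434248) (nat_lit 28) .nil))))) .nil)) 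
(.lf (nat_lit 58949) (.g (nat_lit 1962) (.e (nat_lit 1499) (nat_lit 108) (.e (nat_lit 336223) (nat_lit 13) (.e (nat_lit 393301) (nat_lit 27) (.e (nat_lit 491560) (nat_lit 10) .nil)))) .nil))) (.nd (nat_lit 6) 
(.lf (nat_lit 58917) (.g (nat_lit 1364) (.e (nat_lit 1489) (nat_lit 108) (.e (nat_lit 336012) (nat_lit 2) (.e (nat_lit 90176) (nat_lit 15) (.e (nat_lit 188450) (nat_lit 23) .nil)))) .nil)) 
(.lf (nat_lit 58981) (.g (nat_lit 2517) (.e (nat_lit 1504) (nat_lit 108) (.e (nat_lit 336223) (nat_lit 13) (.e (nat_lit 393234) (nat_lit 17) (.e (nat_lit 7591) (nat_lit 407) (.e (nat_lit 73731) (nat_lit 0) .nil))))) .nil)))) (.nd (nat_lit 5) (.nd (nat_lit 6) 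
(.lf (nat_lit 58901) (.g (nat_lit 3149) (.e (nat_lit 1485) (nat_lit 108) (.e (nat_lit 336223) (nat_lit 13) (.e (nat_lit 393301) (nat_lit 27) (.e (nat_lit 491558) (nat_lit 10) (.e (nat_lit 344095) (nat_lit 18) .nil))))) .nil)) 
(.lf (nat_lit 58965) (.g (nat_lit 2310) (.e (nat_lit 1504) (nat_lit 108) (.e (nat_lit 336011) (nat_lit 2) (.e (nat_lit 90170) (nat_lit 13) (.e (nat_lit 172106) (nat_lit 10) (.e (nat_lit 434244) (nat_lit 28) .nil))))) .nil))) (.nd (nat_lit 6) 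
(.lf (nat_lit 58933) (.g (nat_lit 3422) (.e (nat_lit 1499) (nat_lit 108) (.e (nat_lit 336011) (nat_lit 2) (.e (nat_lit 90170) (nat_lit 13) (.e (nat_lit 172106) (nat_lit 10) (.e (nat_lit 434244) (nat_lit 28) (.e (nat_lit 573474) (nat_lit 12) (.e (nat_lit 57347) (nat_lit 0) (.e (nat_lit 7124) (nat_lit 382) (.e (nat_lit 1016) (nat_lit 81) .nil))))))))) (.g (nat_lit 5) .nil .nil))) 
(.lf (nat_lit 58997) (.g (nat_lit 4149) (.e (nat_lit 1504) (nat_lit 108) (.e (nat_lit 336223) (nat_lit 13) (.e (nat_lit 393301) (nat_lit 27) (.e (nat_lit 491560) (nat_lit 10) (.e (nat_lit 344095) (nat_lit 18) .nil))))) .nil))))) (.nd (nat_lit 4) (.nd (nat_lit 5) (.nd (nat_lit 6) 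
(.lf (nat_lit 58893) (.g (nat_lit 2264) (.e (nat_lit 1485) (nat_lit 108) (.e (nat_lit 336204) (nat_lit 12) (.e (nat_lit 385074) (nat_lit 31) (.e (nat_lit 573487) (nat_lit 14) (.e (nat_lit 73781) (nat_lit 32) .nil))))) .nil)) 
(.lf (nat_lit 58957) (.g (nat_lit 1495) (.e (nat_lit 1502) (nat_lit 108) (.e (nat_lit 336027) (nat_lit 3) (.e (nat_lit 98372) (nat_lit 29) (.e (nat_lit 450579) (nat_lit 5) .nil)))) .nil))) (.nd (nat_lit 6) 
(.lf (nat_lit 58925) (.g (nat_lit 3319) (.e (nat_lit 1490) (nat_lit 108) (.e (nat_lit 336027) (nat_lit 3) (.e (nat_lit 98373) (nat_lit 29) (.e (nat_lit 450588) (nat_lit 10) (.e (nat_lit 573475) (nat_lit 12) .nil))))) .nil)) 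
(.lf (nat_lit 58989) (.g (nat_lit 3416) (.e (nat_lit 1504) (nat_lit 108) (.e (nat_lit 336223) (nat_lit 13) (.e (nat_lit 393301) (nat_lit 27) (.e (nat_lit 491559) (nat_lit 10) (.e (nat_lit 344091) (nat_lit 18) .nil))))) .nil)))) (.nd (nat_lit 5) (.nd (nat_lit 6) 
(.lf (nat_lit 58909) (.g (nat_lit 1280) (.e (nat_lit 1487) (nat_lit 108) (.e (nat_lit 335995) (nat_lit 1) (.e (nat_lit 57683) (nat_lit 155) (.e (nat_lit 122914) (nat_lit 14) .nil)))) .nil)) 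
(.lf (nat_lit 58973) (.g (nat_lit 2765) (.e (nat_lit 1504) (nat_lit 108) (.e (nat_lit 336204) (nat_lit 12) (.e (nat_lit 385074) (nat_lit 31) (.e (nat_lit 573491) (nat_lit 15) (.e (nat_lit 81922) (nat_lit 0) (.e (nat_lit 3305) (nat_lit 202) (.e (nat_lit 573456) (nat_lit 9) .nil))))))) (.g (nat_lit 4) .nil .nil)))) (.nd (nat_lit 6) 
(.lf (nat_lit 58941) (.g (nat_lit 1897) (.e (nat_lit 1499) (nat_lit 108) (.e (nat_lit 336204) (nat_lit 12) (.e (nat_lit 385074) (nat_lit 31) (.e (nat_lit 573489) (nat_lit 14) (.e (nat_lit 81664) (nat_lit 32) .nil))))) .nil)) 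
(.lf (nat_lit 59005) (.g (nat_lit 4270) (.e (nat_lit 1512) (nat_lit 108) (.e (nat_lit 335872) (nat_lit 0) (.e (nat_lit 1796) (nat_lit 119) (.e (nat_lit 516185) (nat_lit 16) (.e (nat_lit 491546) (nat_lit 9) (.e (nat_lit 336013) (nat_lit 2) (.e (nat_lit 90165) (nat_lit 12) (.e (nat_lit 164236) (nat_lit 187) .nil)))))))) (.g (nat_lit 8) .nil .nil)))))))) 
(.nd (nat_lit 2) (.nd (nat_lit 3) (.nd (nat_lit 4) (.nd (nat_lit 5) (.nd (nat_lit 6) 
(.lf (nat_lit 58883) (.g (nat_lit 2461) (.e (nat_lit 1485) (nat_lit 108) (.e (nat_lit 336011) (nat_lit 2) (.e (nat_lit 90170) (nat_lit 13) (.e (nat_lit 172106) (nat_lit 10) (.e (nat_lit 434244) (nat_lit 28) (.e (nat_lit 573474) (nat_lit 12) (.e (nat_lit 57351) (nat_lit 0) (.e (nat_lit 7124) (nat_lit 382) (.e (nat_lit 1016) (nat_lit 81) .nil))))))))) (.g (nat_lit 4) .nil .nil))) 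
(.lf (nat_lit 58947) (.g (nat_lit 4565) (.e (nat_lit 1499) (nat_lit 108) (.e (nat_lit 336223) (nat_lit 13) (.e (nat_lit 393301) (nat_lit 27) (.e (nat_lit 491559) (nat_lit 10) (.e (nat_lit 344177) (nat_lit 43) (.e (nat_lit 770055) (nat_lit 5) .nil)))))) (.g (nat_lit 0) .nil .nil)))) (.nd (nat_lit 6) 
(.lf (nat_lit 58915) (.g (nat_lit 3245) (.e (nat_lit 1488) (nat_lit 108) (.e (nat_lit 336027) (nat_lit 3) (.e (nat_lit 98373) (nat_lit 29) (.e (nat_lit 450587) (nat_lit 10) (.e (nat_lit 573475) (nat_lit 12) .nil))))) .nil)) 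
(.lf (nat_lit 58979) (.g (nat_lit 1832) (.e (nat_lit 1504) (nat_lit 108) (.e (nat_lit 336223) (nat_lit 13) (.e (nat_lit 393234) (nat_lit 17) (.e (nat_lit 7591) (nat_lit 407) .nil)))) .nil)))) (.nd (nat_lit 5) (.nd (nat_lit 6) 
(.lf (nat_lit 58899) (.g (nat_lit 2437) (.e (nat_lit 1485) (nat_lit 108) (.e (nat_lit 336223) (nat_lit 13) (.e (nat_lit 393234) (nat_lit 17) (.e (nat_lit 7593) (nat_lit 407) (.e (nat_lit 73729) (nat_lit 0) .nil))))) .nil)) 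
(.lf (nat_lit 58963) (.g (nat_lit 2545) (.e (nat_lit 1502) (nat_lit 108) (.e (nat_lit 336223) (nat_lit 13) (.e (nat_lit 393301) (nat_lit 27) (.e (nat_lit 491560) (nat_lit 10) (.e (nat_lit 344177) (nat_lit 43) (.e (nat_lit 770054) (nat_lit 5) .nil)))))) (.g (nat_lit 4) .nil .nil)))) (.nd (nat_lit 6) 
(.lf (nat_lit 58931) (.g (nat_lit 2350) (.e (nat_lit 1499) (nat_lit 108) (.e (nat_lit 336011) (nat_lit 2) (.e (nat_lit 90170) (nat_lit 13) (.e (nat_lit 172106) (nat_lit 10) (.e (nat_lit 434231) (nat_lit 23) (.e (nat_lit 532499) (nat_lit 1) (.e (nat_lit 57767) (nat_lit 221) (.e (nat_lit 1008) (nat_lit 81) .nil)))))))) (.g (nat_lit 4) .nil .nil))) 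
(.lf (nat_lit 58995) (.g (nat_lit 3783) (.e (nat_lit 1504) (nat_lit 108) (.e (nat_lit 336223) (nat_lit 13) (.e (nat_lit 393301) (nat_lit 27) (.e (nat_lit 491560) (nat_lit 10) (.e (nat_lit 344091) (nat_lit 18) .nil))))) .nil))))) (.nd (nat_lit 4) (.nd (nat_lit 5) (.nd (nat_lit 6) 
(.lf (nat_lit 58891) (.g (nat_lit 4515) (.e (nat_lit 1485) (nat_lit 108) (.e (nat_lit 336027) (nat_lit 3) (.e (nat_lit 98373) (nat_lit 29) (.e (nat_lit 450587) (nat_lit 10) (.e (nat_lit 573475) (nat_lit 12) (.e (nat_lit 57572) (nat_lit 54) (.e (nat_lit 770055) (nat_lit 5) .nil))))))) (.g (nat_lit 7) .nil .nil))) 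
(.lf (nat_lit 58955) (.g (nat_lit 1339) (.e (nat_lit 1501) (nat_lit 108) (.e (nat_lit 335995) (nat_lit 1) (.e (nat_lit 57683) (nat_lit 155) (.e (nat_lit 122916) (nat_lit 14) .nil)))) .nil))) (.nd (nat_lit 6) 
(.lf (nat_lit 58923) (.g (nat_lit 1879) (.e (nat_lit 1490) (nat_lit 108) (.e (nat_lit 336027) (nat_lit 3) (.e (nat_lit 98372) (nat_lit 29) (.e (nat_lit 450586) (nat_lit 10) .nil)))) .nil)) 
(.lf (nat_lit 58987) (.g (nat_lit 3291) (.e (nat_lit 1504) (nat_lit 108) (.e (nat_lit 336223) (nat_lit 13) (.e (nat_lit 393301) (nat_lit 27) (.e (nat_lit 491558) (nat_lit 10) (.e (nat_lit 344096) (nat_lit 18) .nil))))) .nil)))) (.nd (nat_lit 5) (.nd (nat_lit 6) 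
(.lf (nat_lit 58907) (.g (nat_lit 3676) (.e (nat_lit 1485) (nat_lit 108) (.e (nat_lit 336223) (nat_lit 13) (.e (nat_lit 393301) (nat_lit 27) (.e (nat_lit 491560) (nat_lit 10) (.e (nat_lit 344096) (nat_lit 18) .nil))))) .nil)) 
(.lf (nat_lit 58971) (.g (nat_lit 1217) (.e (nat_lit 1504) (nat_lit 108) (.e (nat_lit 336088) (nat_lit 9) (.e (nat_lit 336438) (nat_lit 31) (.e (nat_lit 466688) (nat_lit 5) .nil)))) .nil))) (.nd (nat_lit 6) 
(.lf (nat_lit 58939) (.g (nat_lit 658) (.e (nat_lit 1499) (nat_lit 108) (.e (nat_lit 336204) (nat_lit 12) (.e (nat_lit 385074) (nat_lit 31) .nil))) .nil)) 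
(.lf (nat_lit 59003) (.g (nat_lit 1339) (.e (nat_lit 1508) (nat_lit 108) (.e (nat_lit 335995) (nat_lit 1) (.e (nat_lit 57683) (nat_lit 155) (.e (nat_lit 122916) (nat_lit 14) .nil)))) .nil)))))) (.nd (nat_lit 3) (.nd (nat_lit 4) (.nd (nat_lit 5) (.nd (nat_lit 6) 
(.lf (nat_lit 58887) (.g (nat_lit 2292) (.e (nat_lit 1485) (nat_lit 108) (.e (nat_lit 336012) (nat_lit 2) (.e (nat_lit 90176) (nat_lit 15) (.e (nat_lit 188450) (nat_lit 23) (.e (nat_lit 204817) (nat_lit 17) .nil))))) .nil)) 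
(.lf (nat_lit 58951) (.g (nat_lit 3306) (.e (nat_lit 1499) (nat_lit 108) (.e (nat_lit 336223) (nat_lit 13) (.e (nat_lit 393301) (nat_lit 27) (.e (nat_lit 491560) (nat_lit 10) (.e (nat_lit 344094) (nat_lit 18) .nil))))) .nil))) (.nd (nat_lit 6) 
(.lf (nat_lit 58919) (.g (nat_lit 2222) (.e (nat_lit 1489) (nat_lit 108) (.e (nat_lit 336012) (nat_lit 2) (.e (nat_lit 90176) (nat_lit 15) (.e (nat_lit 188450) (nat_lit 23) (.e (nat_lit 204821) (nat_lit 17) .nil))))) .nil)) 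
(.lf (nat_lit 58983) (.g (nat_lit 2455) (.e (nat_lit 1504) (nat_lit 108) (.e (nat_lit 336223) (nat_lit 13) (.e (nat_lit 393234) (nat_lit 17) (.e (nat_lit 7593) (nat_lit 407) (.e (nat_lit 73729) (nat_lit 0) .nil))))) .nil)))) (.nd (nat_lit 5) (.nd (nat_lit 6) 
(.lf (nat_lit 58903) (.g (nat_lit 3274) (.e (nat_lit 1485) (nat_lit 108) (.e (nat_lit 336223) (nat_lit 13) (.e (nat_lit 393301) (nat_lit 27) (.e (nat_lit 491559) (nat_lit 10) (.e (nat_lit 344177) (nat_lit 43) .nil))))) .nil)) 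
(.lf (nat_lit 58967) (.g (nat_lit 2668) (.e (nat_lit 1504) (nat_lit 108) (.e (nat_lit 336011) (nat_lit 2) (.e (nat_lit 90170) (nat_lit 13) (.e (nat_lit 172113) (nat_lit 10) .nil)))) .nil))) (.nd (nat_lit 6) 
(.lf (nat_lit 58935) (.g (nat_lit 3495) (.e (nat_lit 1499) (nat_lit 108) (.e (nat_lit 336011) (nat_lit 2) (.e (nat_lit 90170) (nat_lit 13) (.e (nat_lit 172113) (nat_lit 10) (.e (nat_lit 434245) (nat_lit 28) .nil))))) .nil)) 
(.lf (nat_lit 58999) (.g (nat_lit 2512) (.e (nat_lit 1504) (nat_lit 108) (.e (nat_lit 336223) (nat_lit 13) (.e (nat_lit 393301) (nat_lit 27) (.e (nat_lit 491560) (nat_lit 10) (.e (nat_lit 344177) (nat_lit 43) .nil))))) .nil))))) (.nd (nat_lit 4) (.nd (nat_lit 5) (.nd (nat_lit 6) 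
(.lf (nat_lit 58895) (.g (nat_lit 2769) (.e (nat_lit 1485) (nat_lit 108) (.e (nat_lit 336204) (nat_lit 12) (.e (nat_lit 385074) (nat_lit 31) (.e (nat_lit 573491) (nat_lit 15) (.e (nat_lit 81922) (nat_lit 0) .nil))))) .nil)) 
(.lf (nat_lit 58959) (.g (nat_lit 3130) (.e (nat_lit 1502) (nat_lit 108) (.e (nat_lit 336027) (nat_lit 3) (.e (nat_lit 98373) (nat_lit 29) (.e (nat_lit 450587) (nat_lit 10) (.e (nat_lit 573475) (nat_lit 12) (.e (nat_lit 57571) (nat_lit 54) (.e (nat_lit 770054) (nat_lit 5) .nil))))))) (.g (nat_lit 4) .nil .nil)))) (.nd (nat_lit 6) 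
(.lf (nat_lit 58927) (.g (nat_lit 1545) (.e (nat_lit 1499) (nat_lit 108) (.e (nat_lit 335995) (nat_lit 1) (.e (nat_lit 57872) (nat_lit 264) (.e (nat_lit 1170) (nat_lit 87) .nil)))) .nil)) 
(.lf (nat_lit 58991) (.g (nat_lit 4575) (.e (nat_lit 1504) (nat_lit 108) (.e (nat_lit 336223) (nat_lit 13) (.e (nat_lit 393301) (nat_lit 27) (.e (nat_lit 491559) (nat_lit 10) (.e (nat_lit 344177) (nat_lit 43) (.e (nat_lit 770055) (nat_lit 5) .nil)))))) (.g (nat_lit 0) .nil .nil))))) (.nd (nat_lit 5) (.nd (nat_lit 6) 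
(.lf (nat_lit 58911) (.g (nat_lit 2463) (.e (nat_lit 1487) (nat_lit 108) (.e (nat_lit 335995) (nat_lit 1) (.e (nat_lit 57683) (nat_lit 155) (.e (nat_lit 122914) (nat_lit 14) (.e (nat_lit 352257) (nat_lit 0) (.e (nat_lit 7081) (nat_lit 378) (.e (nat_lit 57878) (nat_lit 270) .nil))))))) (.g (nat_lit 7) .nil .nil))) 
(.lf (nat_lit 58975) (.g (nat_lit 2586) (.e (nat_lit 1504) (nat_lit 108) (.e (nat_lit 336204) (nat_lit 12) (.e (nat_lit 385074) (nat_lit 31) (.e (nat_lit 573493) (nat_lit 15) (.e (nat_lit 81938) (nat_lit 20) (.e (nat_lit 1842) (nat_lit 123) (.e (nat_lit 548872) (nat_lit 5) .nil))))))) (.g (nat_lit 4) .nil .nil)))) (.nd (nat_lit 6) 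
(.lf (nat_lit 58943) (.g (nat_lit 1811) (.e (nat_lit 1499) (nat_lit 108) (.e (nat_lit 336223) (nat_lit 13) (.e (nat_lit 393234) (nat_lit 17) (.e (nat_lit 7593) (nat_lit 407) .nil)))) .nil)) 
(.lf (nat_lit 59007) (.g (nat_lit 2650) (.e (nat_lit 1512) (nat_lit 108) (.e (nat_lit 335872) (nat_lit 0) (.e (nat_lit 1796) (nat_lit 119) (.e (nat_lit 516185) (nat_lit 16) (.e (nat_lit 491560) (nat_lit 10) (.e (nat_lit 344109) (nat_lit 19) (.e (nat_lit 499910) (nat_lit 8) (.e (nat_lit 164237) (nat_lit 187) .nil)))))))) (.g (nat_lit 5) .nil .nil))))))))))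

noncomputable def tv813 : DT := (.nd (nat_lit 0) (.nd (nat_lit 1) (.nd (nat_lit 2) (.nd (nat_lit 3) (.nd (nat_lit 4) (.nd (nat_lit 5) (.nd (nat_lit 6) 
(.lf (nat_lit 59008) (.g (nat_lit 3197) (.e (nat_lit 1512) (nat_lit 108) (.e (nat_lit 335872) (nat_lit 0) (.e (nat_lit 1796) (nat_lit 119) (.e (nat_lit 516185) (nat_lit 16) (.e (nat_lit 491560) (nat_lit 10) (.e (nat_lit 344118) (nat_lit 21) (.e (nat_lit 516105) (nat_lit 0) (.e (nat_lit 7562) (nat_lit 402) .nil)))))))) (.g (nat_lit 8) .nil .nil))) 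
(.lf (nat_lit 59072) (.g (nat_lit 2297) (.e (nat_lit 1512) (nat_lit 108) (.e (nat_lit 336051) (nat_lit 6) (.e (nat_lit 147495) (nat_lit 11) (.e (nat_lit 24624) (nat_lit 9) .nil)))) .nil))) (.nd (nat_lit 6) 
(.lf (nat_lit 59040) (.g (nat_lit 2009) (.e (nat_lit 1512) (nat_lit 108) (.e (nat_lit 336051) (nat_lit 6) (.e (nat_lit 147466) (nat_lit 9) (.e (nat_lit 307) (nat_lit 22) (.e (nat_lit 344118) (nat_lit 21) (.e (nat_lit 516131) (nat_lit 3) (.e (nat_lit 221219) (nat_lit 24) (.e (nat_lit 212992) (nat_lit 0) .nil)))))))) (.g (nat_lit 4) .nil .nil))) 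
(.lf (nat_lit 59104) (.g (nat_lit 1302) (.e (nat_lit 1512) (nat_lit 108) (.e (nat_lit 336051) (nat_lit 6) (.e (nat_lit 147496) (nat_lit 11) (.e (nat_lit 24625) (nat_lit 9) .nil)))) .nil)))) (.nd (nat_lit 5) (.nd (nat_lit 6) 
(.lf (nat_lit 59024) (.g (nat_lit 3718) (.e (nat_lit 1512) (nat_lit 108) (.e (nat_lit 336017) (nat_lit 3) (.e (nat_lit 98389) (nat_lit 33) (.e (nat_lit 491546) (nat_lit 9) (.e (nat_lit 336013) (nat_lit 2) (.e (nat_lit 90165) (nat_lit 12) (.e (nat_lit 164236) (nat_lit 187) .nil))))))) (.g (nat_lit 0) .nil .nil))) 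
(.lf (nat_lit 59088) (.g (nat_lit 2621) (.e (nat_lit 1512) (nat_lit 108) (.e (nat_lit 336051) (nat_lit 6) (.e (nat_lit 147495) (nat_lit 11) (.e (nat_lit 24636) (nat_lit 9) (.e (nat_lit 343808) (nat_lit 28) .nil))))) .nil))) (.nd (nat_lit 6) 
(.lf (nat_lit 59056) (.g (nat_lit 2756) (.e (nat_lit 1512) (nat_lit 108) (.e (nat_lit 336051) (nat_lit 6) (.e (nat_lit 147467) (nat_lit 9) (.e (nat_lit 297) (nat_lit 22) (.e (nat_lit 344132) (nat_lit 26) (.e (nat_lit 557105) (nat_lit 14) (.e (nat_lit 180265) (nat_lit 21) (.e (nat_lit 671488) (nat_lit 0) .nil)))))))) (.g (nat_lit 6) .nil .nil))) 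
(.lf (nat_lit 59120) (.g (nat_lit 556) (.e (nat_lit 1512) (nat_lit 108) (.e (nat_lit 336235) (nat_lit 14) (.e (nat_lit 401437) (nat_lit 9) .nil))) .nil))))) (.nd (nat_lit 4) (.nd (nat_lit 5) (.nd (nat_lit 6) 
(.lf (nat_lit 59016) (.g (nat_lit 2461) (.e (nat_lit 1512) (nat_lit 108) (.e (nat_lit 336017) (nat_lit 3) (.e (nat_lit 98350) (nat_lit 24) (.e (nat_lit 409616) (nat_lit 10) (.e (nat_lit 5355) (nat_lit 298) (.e (nat_lit 1234) (nat_lit 91) (.e (nat_lit 90165) (nat_lit 12) (.e (nat_lit 164236) (nat_lit 187) .nil)))))))) (.g (nat_lit 4) .nil .nil))) 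
(.lf (nat_lit 59080) (.g (nat_lit 2780) (.e (nat_lit 1512) (nat_lit 108) (.e (nat_lit 336051) (nat_lit 6) (.e (nat_lit 147495) (nat_lit 11) (.e (nat_lit 24627) (nat_lit 9) (.e (nat_lit 336421) (nat_lit 28) (.e (nat_lit 434179) (nat_lit 0) .nil)))))) (.g (nat_lit 6) .nil .nil)))) (.nd (nat_lit 6) 
(.lf (nat_lit 59048) (.g (nat_lit 830) (.e (nat_lit 1512) (nat_lit 108) (.e (nat_lit 336051) (nat_lit 6) (.e (nat_lit 147467) (nat_lit 9) (.e (nat_lit 245) (nat_lit 21) .nil)))) .nil)) 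
(.lf (nat_lit 59112) (.g (nat_lit 1353) (.e (nat_lit 1512) (nat_lit 108) (.e (nat_lit 336051) (nat_lit 6) (.e (nat_lit 147496) (nat_lit 11) (.e (nat_lit 24631) (nat_lit 9) .nil)))) .nil)))) (.nd (nat_lit 5) (.nd (nat_lit 6) 
(.lf (nat_lit 59032) (.g (nat_lit 1425) (.e (nat_lit 1512) (nat_lit 108) (.e (nat_lit 336051) (nat_lit 6) (.e (nat_lit 147466) (nat_lit 9) (.e (nat_lit 246) (nat_lit 21) .nil)))) .nil)) 
(.lf (nat_lit 59096) (.g (nat_lit 1679) (.e (nat_lit 1512) (nat_lit 108) (.e (nat_lit 336051) (nat_lit 6) (.e (nat_lit 147495) (nat_lit 11) (.e (nat_lit 24658) (nat_lit 13) .nil)))) .nil))) (.nd (nat_lit 6) 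
(.lf (nat_lit 59064) (.g (nat_lit 295) (.e (nat_lit 1512) (nat_lit 108) (.e (nat_lit 336051) (nat_lit 6) (.e (nat_lit 147495) (nat_lit 11) .nil))) .nil)) 
(.lf (nat_lit 59128) (.g (nat_lit 1334) (.e (nat_lit 1512) (nat_lit 108) (.e (nat_lit 336235) (nat_lit 14) (.e (nat_lit 401438) (nat_lit 9) (.e (nat_lit 426546) (nat_lit 30) .nil)))) .nil)))))) (.nd (nat_lit 3) (.nd (nat_lit 4) (.nd (nat_lit 5) (.nd (nat_lit 6) 
(.lf (nat_lit 59012) (.g (nat_lit 1834) (.e (nat_lit 1512) (nat_lit 108) (.e (nat_lit 335998) (nat_lit 1) (.e (nat_lit 57683) (nat_lit 155) (.e (nat_lit 122914) (nat_lit 14) (.e (nat_lit 360192) (nat_lit 12) .nil))))) .nil)) 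
(.lf (nat_lit 59076) (.g (nat_lit 3727) (.e (nat_lit 1512) (nat_lit 108) (.e (nat_lit 336051) (nat_lit 6) (.e (nat_lit 147495) (nat_lit 11) (.e (nat_lit 24625) (nat_lit 9) (.e (nat_lit 336421) (nat_lit 28) .nil))))) .nil))) (.nd (nat_lit 6) 
(.lf (nat_lit 59044) (.g (nat_lit 1430) (.e (nat_lit 1512) (nat_lit 108) (.e (nat_lit 336051) (nat_lit 6) (.e (nat_lit 147466) (nat_lit 9) (.e (nat_lit 332) (nat_lit 26) .nil)))) .nil)) 
(.lf (nat_lit 59108) (.g (nat_lit 2622) (.e (nat_lit 1512) (nat_lit 108) (.e (nat_lit 336051) (nat_lit 6) (.e (nat_lit 147496) (nat_lit 11) (.e (nat_lit 24625) (nat_lit 9) (.e (nat_lit 336425) (nat_lit 28) .nil))))) .nil)))) (.nd (nat_lit 5) (.nd (nat_lit 6) 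
(.lf (nat_lit 59028) (.g (nat_lit 1430) (.e (nat_lit 1512) (nat_lit 108) (.e (nat_lit 336051) (nat_lit 6) (.e (nat_lit 147466) (nat_lit 9) (.e (nat_lit 243) (nat_lit 21) .nil)))) .nil)) 
(.lf (nat_lit 59092) (.g (nat_lit 3258) (.e (nat_lit 1512) (nat_lit 108) (.e (nat_lit 336051) (nat_lit 6) (.e (nat_lit 147495) (nat_lit 11) (.e (nat_lit 24655) (nat_lit 13) (.e (nat_lit 393242) (nat_lit 17) .nil))))) .nil))) (.nd (nat_lit 6) 
(.lf (nat_lit 59060) (.g (nat_lit 1202) (.e (nat_lit 1512) (nat_lit 108) (.e (nat_lit 336051) (nat_lit 6) (.e (nat_lit 147467) (nat_lit 9) (.e (nat_lit 312) (nat_lit 23) (.e (nat_lit 360192) (nat_lit 12) .nil))))) .nil)) 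
(.lf (nat_lit 59124) (.g (nat_lit 2702) (.e (nat_lit 1512) (nat_lit 108) (.e (nat_lit 336235) (nat_lit 14) (.e (nat_lit 401437) (nat_lit 9) (.e (nat_lit 426546) (nat_lit 30) (.e (nat_lit 360452) (nat_lit 0) .nil))))) .nil))))) (.nd (nat_lit 4) (.nd (nat_lit 5) (.nd (nat_lit 6) 
(.lf (nat_lit 59020) (.g (nat_lit 3926) (.e (nat_lit 1512) (nat_lit 108) (.e (nat_lit 336017) (nat_lit 3) (.e (nat_lit 98350) (nat_lit 24) (.e (nat_lit 409617) (nat_lit 10) (.e (nat_lit 5355) (nat_lit 298) (.e (nat_lit 1235) (nat_lit 91) (.e (nat_lit 90165) (nat_lit 12) (.e (nat_lit 164236) (nat_lit 187) .nil)))))))) (.g (nat_lit 8) .nil .nil))) 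
(.lf (nat_lit 59084) (.g (nat_lit 2073) (.e (nat_lit 1512) (nat_lit 108) (.e (nat_lit 336051) (nat_lit 6) (.e (nat_lit 147495) (nat_lit 11) (.e (nat_lit 24629) (nat_lit 9) (.e (nat_lit 336421) (nat_lit 28) (.e (nat_lit 434178) (nat_lit 0) .nil)))))) (.g (nat_lit 5) .nil .nil)))) (.nd (nat_lit 6) 
(.lf (nat_lit 59052) (.g (nat_lit 1595) (.e (nat_lit 1512) (nat_lit 108) (.e (nat_lit 336051) (nat_lit 6) (.e (nat_lit 147467) (nat_lit 9) (.e (nat_lit 297) (nat_lit 22) (.e (nat_lit 344120) (nat_lit 21) .nil))))) .nil)) 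
(.lf (nat_lit 59116) (.g (nat_lit 3669) (.e (nat_lit 1512) (nat_lit 108) (.e (nat_lit 336113) (nat_lit 9) (.e (nat_lit 336369) (nat_lit 27) (.e (nat_lit 426173) (nat_lit 7) (.e (nat_lit 409649) (nat_lit 18) (.e (nat_lit 303111) (nat_lit 0) (.e (nat_lit 3469) (nat_lit 217) (.e (nat_lit 704256) (nat_lit 13) .nil)))))))) (.g (nat_lit 7) .nil .nil))))) (.nd (nat_lit 5) (.nd (nat_lit 6) 
(.lf (nat_lit 59036) (.g (nat_lit 1251) (.e (nat_lit 1512) (nat_lit 108) (.e (nat_lit 336051) (nat_lit 6) (.e (nat_lit 147466) (nat_lit 9) (.e (nat_lit 304) (nat_lit 22) .nil)))) .nil)) 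
(.lf (nat_lit 59100) (.g (nat_lit 2849) (.e (nat_lit 1512) (nat_lit 108) (.e (nat_lit 336051) (nat_lit 6) (.e (nat_lit 147495) (nat_lit 11) (.e (nat_lit 24660) (nat_lit 13) (.e (nat_lit 393242) (nat_lit 17) (.e (nat_lit 7550) (nat_lit 402) .nil)))))) (.g (nat_lit 0) .nil .nil)))) (.nd (nat_lit 6) 
(.lf (nat_lit 59068) (.g (nat_lit 2281) (.e (nat_lit 1512) (nat_lit 108) (.e (nat_lit 336051) (nat_lit 6) (.e (nat_lit 147495) (nat_lit 11) (.e (nat_lit 24592) (nat_lit 0) .nil)))) .nil)) 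
(.lf (nat_lit 59132) (.g (nat_lit 1584) (.e (nat_lit 1512) (nat_lit 108) (.e (nat_lit 336235) (nat_lit 14) (.e (nat_lit 401458) (nat_lit 13) (.e (nat_lit 483403) (nat_lit 26) .nil)))) .nil))))))) (.nd (nat_lit 2) (.nd (nat_lit 3) (.nd (nat_lit 4) (.nd (nat_lit 5) (.nd (nat_lit 6) 
(.lf (nat_lit 59010) (.g (nat_lit 2855) (.e (nat_lit 1512) (nat_lit 108) (.e (nat_lit 335998) (nat_lit 1) (.e (nat_lit 57681) (nat_lit 155) (.e (nat_lit 122919) (nat_lit 15) (.e (nat_lit 360451) (nat_lit 0) (.e (nat_lit 7247) (nat_lit 383) (.e (nat_lit 8193) (nat_lit 0) (.e (nat_lit 5353) (nat_lit 298) .nil)))))))) (.g (nat_lit 5) .nil .nil))) 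
(.lf (nat_lit 59074) (.g (nat_lit 2795) (.e (nat_lit 1512) (nat_lit 108) (.e (nat_lit 336051) (nat_lit 6) (.e (nat_lit 147495) (nat_lit 11) (.e (nat_lit 24624) (nat_lit 9) (.e (nat_lit 336421) (nat_lit 28) (.e (nat_lit 434179) (nat_lit 0) .nil)))))) (.g (nat_lit 4) .nil .nil)))) (.nd (nat_lit 6) 
(.lf (nat_lit 59042) (.g (nat_lit 1552) (.e (nat_lit 1512) (nat_lit 108) (.e (nat_lit 336051) (nat_lit 6) (.e (nat_lit 147466) (nat_lit 9) (.e (nat_lit 312) (nat_lit 23) (.e (nat_lit 360192) (nat_lit 12) .nil))))) .nil)) 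
(.lf (nat_lit 59106) (.g (nat_lit 3223) (.e (nat_lit 1512) (nat_lit 108) (.e (nat_lit 336051) (nat_lit 6) (.e (nat_lit 147496) (nat_lit 11) (.e (nat_lit 24625) (nat_lit 9) (.e (nat_lit 336421) (nat_lit 28) (.e (nat_lit 434179) (nat_lit 0) .nil)))))) (.g (nat_lit 6) .nil .nil))))) (.nd (nat_lit 5) (.nd (nat_lit 6) 
(.lf (nat_lit 59026) (.g (nat_lit 3186) (.e (nat_lit 1512) (nat_lit 108) (.e (nat_lit 336017) (nat_lit 3) (.e (nat_lit 98389) (nat_lit 33) (.e (nat_lit 491546) (nat_lit 9) (.e (nat_lit 336028) (nat_lit 3) (.e (nat_lit 98325) (nat_lit 17) (.e (nat_lit 7550) (nat_lit 402) .nil))))))) (.g (nat_lit 7) .nil .nil))) 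
(.lf (nat_lit 59090) (.g (nat_lit 1389) (.e (nat_lit 1512) (nat_lit 108) (.e (nat_lit 336051) (nat_lit 6) (.e (nat_lit 147495) (nat_lit 11) (.e (nat_lit 24640) (nat_lit 10) (.e (nat_lit 344097) (nat_lit 18) .nil))))) .nil))) (.nd (nat_lit 6) 
(.lf (nat_lit 59058) (.g (nat_lit 850) (.e (nat_lit 1512) (nat_lit 108) (.e (nat_lit 336051) (nat_lit 6) (.e (nat_lit 147467) (nat_lit 9) (.e (nat_lit 309) (nat_lit 23) .nil)))) .nil)) 
(.lf (nat_lit 59122) (.g (nat_lit 2819) (.e (nat_lit 1512) (nat_lit 108) (.e (nat_lit 336235) (nat_lit 14) (.e (nat_lit 401437) (nat_lit 9) (.e (nat_lit 426544) (nat_lit 30) (.e (nat_lit 360486) (nat_lit 18) (.e (nat_lit 679680) (nat_lit 0) .nil)))))) (.g (nat_lit 4) .nil .nil)))))) (.nd (nat_lit 4) (.nd (nat_lit 5) (.nd (nat_lit 6) 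
(.lf (nat_lit 59018) (.g (nat_lit 2109) (.e (nat_lit 1512) (nat_lit 108) (.e (nat_lit 336017) (nat_lit 3) (.e (nat_lit 98350) (nat_lit 24) (.e (nat_lit 409616) (nat_lit 10) (.e (nat_lit 7936) (nat_lit 298) .nil))))) .nil)) 
(.lf (nat_lit 59082) (.g (nat_lit 3087) (.e (nat_lit 1512) (nat_lit 108) (.e (nat_lit 336051) (nat_lit 6) (.e (nat_lit 147495) (nat_lit 11) (.e (nat_lit 24628) (nat_lit 9) (.e (nat_lit 336421) (nat_lit 28) (.e (nat_lit 434179) (nat_lit 0) .nil)))))) (.g (nat_lit 6) .nil .nil)))) (.nd (nat_lit 6) 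
(.lf (nat_lit 59050) (.g (nat_lit 830) (.e (nat_lit 1512) (nat_lit 108) (.e (nat_lit 336051) (nat_lit 6) (.e (nat_lit 147467) (nat_lit 9) (.e (nat_lit 276) (nat_lit 21) .nil)))) .nil)) 
(.lf (nat_lit 59114) (.g (nat_lit 1874) (.e (nat_lit 1512) (nat_lit 108) (.e (nat_lit 336051) (nat_lit 6) (.e (nat_lit 147496) (nat_lit 11) (.e (nat_lit 24654) (nat_lit 13) (.e (nat_lit 393242) (nat_lit 17) (.e (nat_lit 7550) (nat_lit 402) .nil)))))) (.g (nat_lit 4) .nil .nil))))) (.nd (nat_lit 5) (.nd (nat_lit 6) 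
(.lf (nat_lit 59034) (.g (nat_lit 1429) (.e (nat_lit 1512) (nat_lit 108) (.e (nat_lit 336051) (nat_lit 6) (.e (nat_lit 147466) (nat_lit 9) (.e (nat_lit 276) (nat_lit 21) .nil)))) .nil)) 
(.lf (nat_lit 59098) (.g (nat_lit 1309) (.e (nat_lit 1512) (nat_lit 108) (.e (nat_lit 336051) (nat_lit 6) (.e (nat_lit 147495) (nat_lit 11) (.e (nat_lit 24660) (nat_lit 13) .nil)))) .nil))) (.nd (nat_lit 6) 
(.lf (nat_lit 59066) (.g (nat_lit 2305) (.e (nat_lit 1512) (nat_lit 108) (.e (nat_lit 336051) (nat_lit 6) (.e (nat_lit 147495) (nat_lit 11) (.e (nat_lit 24589) (nat_lit 0) .nil)))) .nil)) 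
(.lf (nat_lit 59130) (.g (nat_lit 527) (.e (nat_lit 1512) (nat_lit 108) (.e (nat_lit 336235) (nat_lit 14) (.e (nat_lit 401458) (nat_lit 13) .nil))) .nil)))))) (.nd (nat_lit 3) (.nd (nat_lit 4) (.nd (nat_lit 5) (.nd (nat_lit 6) 
(.lf (nat_lit 59014) (.g (nat_lit 556) (.e (nat_lit 1512) (nat_lit 108) (.e (nat_lit 336017) (nat_lit 3) (.e (nat_lit 98319) (nat_lit 17) .nil))) .nil)) 
(.lf (nat_lit 59078) (.g (nat_lit 2282) (.e (nat_lit 1512) (nat_lit 108) (.e (nat_lit 336051) (nat_lit 6) (.e (nat_lit 147495) (nat_lit 11) (.e (nat_lit 24626) (nat_lit 9) .nil)))) .nil))) (.nd (nat_lit 6) 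
(.lf (nat_lit 59046) (.g (nat_lit 832) (.e (nat_lit 1512) (nat_lit 108) (.e (nat_lit 336051) (nat_lit 6) (.e (nat_lit 147467) (nat_lit 9) (.e (nat_lit 228) (nat_lit 21) .nil)))) .nil)) 
(.lf (nat_lit 59110) (.g (nat_lit 3283) (.e (nat_lit 1512) (nat_lit 108) (.e (nat_lit 336051) (nat_lit 6) (.e (nat_lit 147496) (nat_lit 11) (.e (nat_lit 24628) (nat_lit 9) (.e (nat_lit 336421) (nat_lit 28) (.e (nat_lit 434178) (nat_lit 0) .nil)))))) (.g (nat_lit 5) .nil .nil))))) (.nd (nat_lit 5) (.nd (nat_lit 6) 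
(.lf (nat_lit 59030) (.g (nat_lit 1586) (.e (nat_lit 1512) (nat_lit 108) (.e (nat_lit 336051) (nat_lit 6) (.e (nat_lit 147466) (nat_lit 9) (.e (nat_lit 244) (nat_lit 21) (.e (nat_lit 336086) (nat_lit 9) .nil))))) .nil)) 
(.lf (nat_lit 59094) (.g (nat_lit 2704) (.e (nat_lit 1512) (nat_lit 108) (.e (nat_lit 336051) (nat_lit 6) (.e (nat_lit 147495) (nat_lit 11) (.e (nat_lit 24657) (nat_lit 13) (.e (nat_lit 393242) (nat_lit 17) (.e (nat_lit 7550) (nat_lit 402) .nil)))))) (.g (nat_lit 0) .nil .nil)))) (.nd (nat_lit 6) 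
(.lf (nat_lit 59062) (.g (nat_lit 831) (.e (nat_lit 1512) (nat_lit 108) (.e (nat_lit 336051) (nat_lit 6) (.e (nat_lit 147467) (nat_lit 9) (.e (nat_lit 336) (nat_lit 26) .nil)))) .nil)) 
(.lf (nat_lit 59126) (.g (nat_lit 3839) (.e (nat_lit 1512) (nat_lit 108) (.e (nat_lit 336235) (nat_lit 14) (.e (nat_lit 401437) (nat_lit 9) (.e (nat_lit 426546) (nat_lit 30) (.e (nat_lit 360486) (nat_lit 18) (.e (nat_lit 679680) (nat_lit 0) .nil)))))) (.g (nat_lit 5) .nil .nil)))))) (.nd (nat_lit 4) (.nd (nat_lit 5) (.nd (nat_lit 6) 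
(.lf (nat_lit 59022) (.g (nat_lit 2308) (.e (nat_lit 1512) (nat_lit 108) (.e (nat_lit 336017) (nat_lit 3) (.e (nat_lit 98350) (nat_lit 24) (.e (nat_lit 409640) (nat_lit 17) (.e (nat_lit 294928) (nat_lit 2) (.e (nat_lit 90165) (nat_lit 12) (.e (nat_lit 164237) (nat_lit 187) .nil))))))) (.g (nat_lit 4) .nil .nil))) 
(.lf (nat_lit 59086) (.g (nat_lit 2982) (.e (nat_lit 1512) (nat_lit 108) (.e (nat_lit 336051) (nat_lit 6) (.e (nat_lit 147495) (nat_lit 11) (.e (nat_lit 24630) (nat_lit 9) (.e (nat_lit 336421) (nat_lit 28) (.e (nat_lit 434178) (nat_lit 0) .nil)))))) (.g (nat_lit 5) .nil .nil)))) (.nd (nat_lit 6) 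
(.lf (nat_lit 59054) (.g (nat_lit 1442) (.e (nat_lit 1512) (nat_lit 108) (.e (nat_lit 336051) (nat_lit 6) (.e (nat_lit 147467) (nat_lit 9) (.e (nat_lit 297) (nat_lit 22) (.e (nat_lit 344132) (nat_lit 26) .nil))))) .nil)) 
(.lf (nat_lit 59118) (.g (nat_lit 522) (.e (nat_lit 1512) (nat_lit 108) (.e (nat_lit 336235) (nat_lit 14) (.e (nat_lit 401423) (nat_lit 2) .nil))) .nil)))) (.nd (nat_lit 5) (.nd (nat_lit 6) 
(.lf (nat_lit 59038) (.g (nat_lit 1430) (.e (nat_lit 1512) (nat_lit 108) (.e (nat_lit 336051) (nat_lit 6) (.e (nat_lit 147466) (nat_lit 9) (.e (nat_lit 305) (nat_lit 22) .nil)))) .nil)) 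
(.lf (nat_lit 59102) (.g (nat_lit 1401) (.e (nat_lit 1512) (nat_lit 108) (.e (nat_lit 336051) (nat_lit 6) (.e (nat_lit 147496) (nat_lit 11) (.e (nat_lit 24623) (nat_lit 9) .nil)))) .nil))) (.nd (nat_lit 6) 
(.lf (nat_lit 59070) (.g (nat_lit 3120) (.e (nat_lit 1512) (nat_lit 108) (.e (nat_lit 336051) (nat_lit 6) (.e (nat_lit 147495) (nat_lit 11) (.e (nat_lit 24623) (nat_lit 9) (.e (nat_lit 336421) (nat_lit 28) (.e (nat_lit 434179) (nat_lit 0) .nil)))))) (.g (nat_lit 6) .nil .nil))) 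
(.lf (nat_lit 59134) (.g (nat_lit 2719) (.e (nat_lit 1512) (nat_lit 108) (.e (nat_lit 336235) (nat_lit 14) (.e (nat_lit 401458) (nat_lit 13) (.e (nat_lit 483406) (nat_lit 26) (.e (nat_lit 385095) (nat_lit 49) .nil))))) .nil)))))))) (.nd (nat_lit 1) (.nd (nat_lit 2) (.nd (nat_lit 3) (.nd (nat_lit 4) (.nd (nat_lit 5) (.nd (nat_lit 6) 
(.lf (nat_lit 59009) (.g (nat_lit 495) (.e (nat_lit 1512) (nat_lit 108) (.e (nat_lit 335872) (nat_lit 0) (.e (nat_lit 7936) (nat_lit 149) (.e (nat_lit 761868) (nat_lit 5) (.e (nat_lit 1555) (nat_lit 110) (.e (nat_lit 360192) (nat_lit 12) (.e (nat_lit 434179) (nat_lit 0) .nil))))))) (.g (nat_lit 5) .nil .nil))) 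
(.lf (nat_lit 59073) (.g (nat_lit 2714) (.e (nat_lit 1512) (nat_lit 108) (.e (nat_lit 336051) (nat_lit 6) (.e (nat_lit 147495) (nat_lit 11) (.e (nat_lit 24624) (nat_lit 9) (.e (nat_lit 336421) (nat_lit 28) .nil))))) .nil))) (.nd (nat_lit 6) 
(.lf (nat_lit 59041) (.g (nat_lit 1431) (.e (nat_lit 1512) (nat_lit 108) (.e (nat_lit 336051) (nat_lit 6) (.e (nat_lit 147466) (nat_lit 9) (.e (nat_lit 310) (nat_lit 23) .nil)))) .nil)) 
(.lf (nat_lit 59105) (.g (nat_lit 3138) (.e (nat_lit 1512) (nat_lit 108) (.e (nat_lit 336051) (nat_lit 6) (.e (nat_lit 147496) (nat_lit 11) (.e (nat_lit 24625) (nat_lit 9) (.e (nat_lit 336421) (nat_lit 28) (.e (nat_lit 434178) (nat_lit 0) .nil)))))) (.g (nat_lit 5) .nil .nil))))) (.nd (nat_lit 5) (.nd (nat_lit 6) 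
(.lf (nat_lit 59025) (.g (nat_lit 3507) (.e (nat_lit 1512) (nat_lit 108) (.e (nat_lit 336017) (nat_lit 3) (.e (nat_lit 98389) (nat_lit 33) (.e (nat_lit 491546) (nat_lit 9) (.e (nat_lit 336013) (nat_lit 2) (.e (nat_lit 90165) (nat_lit 12) (.e (nat_lit 164237) (nat_lit 187) .nil))))))) (.g (nat_lit 0) .nil .nil))) 
(.lf (nat_lit 59089) (.g (nat_lit 3026) (.e (nat_lit 1512) (nat_lit 108) (.e (nat_lit 336051) (nat_lit 6) (.e (nat_lit 147495) (nat_lit 11) (.e (nat_lit 24638) (nat_lit 9) (.e (nat_lit 343808) (nat_lit 28) .nil))))) .nil))) (.nd (nat_lit 6) 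
(.lf (nat_lit 59057) (.g (nat_lit 834) (.e (nat_lit 1512) (nat_lit 108) (.e (nat_lit 336051) (nat_lit 6) (.e (nat_lit 147467) (nat_lit 9) (.e (nat_lit 307) (nat_lit 22) .nil)))) .nil)) 
(.lf (nat_lit 59121) (.g (nat_lit 2635) (.e (nat_lit 1512) (nat_lit 108) (.e (nat_lit 336235) (nat_lit 14) (.e (nat_lit 401437) (nat_lit 9) (.e (nat_lit 426544) (nat_lit 30) (.e (nat_lit 368384) (nat_lit 17) .nil))))) .nil))))) (.nd (nat_lit 4) (.nd (nat_lit 5) (.nd (nat_lit 6) 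
(.lf (nat_lit 59017) (.g (nat_lit 3752) (.e (nat_lit 1512) (nat_lit 108) (.e (nat_lit 336017) (nat_lit 3) (.e (nat_lit 98350) (nat_lit 24) (.e (nat_lit 409616) (nat_lit 10) (.e (nat_lit 5355) (nat_lit 298) (.e (nat_lit 1235) (nat_lit 91) (.e (nat_lit 90165) (nat_lit 12) (.e (nat_lit 164236) (nat_lit 187) .nil)))))))) (.g (nat_lit 6) .nil .nil))) 
(.lf (nat_lit 59081) (.g (nat_lit 3004) (.e (nat_lit 1512) (nat_lit 108) (.e (nat_lit 336051) (nat_lit 6) (.e (nat_lit 147495) (nat_lit 11) (.e (nat_lit 24628) (nat_lit 9) (.e (nat_lit 336421) (nat_lit 28) (.e (nat_lit 434178) (nat_lit 0) .nil)))))) (.g (nat_lit 5) .nil .nil)))) (.nd (nat_lit 6) 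
(.lf (nat_lit 59049) (.g (nat_lit 1535) (.e (nat_lit 1512) (nat_lit 108) (.e (nat_lit 336051) (nat_lit 6) (.e (nat_lit 147467) (nat_lit 9) (.e (nat_lit 268) (nat_lit 21) (.e (nat_lit 336083) (nat_lit 9) .nil))))) .nil)) 
(.lf (nat_lit 59113) (.g (nat_lit 1735) (.e (nat_lit 1512) (nat_lit 108) (.e (nat_lit 336051) (nat_lit 6) (.e (nat_lit 147496) (nat_lit 11) (.e (nat_lit 24636) (nat_lit 9) (.e (nat_lit 343808) (nat_lit 28) .nil))))) .nil)))) (.nd (nat_lit 5) (.nd (nat_lit 6) 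
(.lf (nat_lit 59033) (.g (nat_lit 1430) (.e (nat_lit 1512) (nat_lit 108) (.e (nat_lit 336051) (nat_lit 6) (.e (nat_lit 147466) (nat_lit 9) (.e (nat_lit 255) (nat_lit 21) .nil)))) .nil)) 
(.lf (nat_lit 59097) (.g (nat_lit 3749) (.e (nat_lit 1512) (nat_lit 108) (.e (nat_lit 336051) (nat_lit 6) (.e (nat_lit 147495) (nat_lit 11) (.e (nat_lit 24658) (nat_lit 13) (.e (nat_lit 393242) (nat_lit 17) (.e (nat_lit 7550) (nat_lit 402) .nil)))))) (.g (nat_lit 5) .nil .nil)))) (.nd (nat_lit 6) 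
(.lf (nat_lit 59065) (.g (nat_lit 2305) (.e (nat_lit 1512) (nat_lit 108) (.e (nat_lit 336051) (nat_lit 6) (.e (nat_lit 147495) (nat_lit 11) (.e (nat_lit 24583) (nat_lit 0) .nil)))) .nil)) 
(.lf (nat_lit 59129) (.g (nat_lit 2358) (.e (nat_lit 1512) (nat_lit 108) (.e (nat_lit 336235) (nat_lit 14) (.e (nat_lit 401454) (nat_lit 12) (.e (nat_lit 475214) (nat_lit 42) .nil)))) .nil)))))) (.nd (nat_lit 3) (.nd (nat_lit 4) (.nd (nat_lit 5) (.nd (nat_lit 6) 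
(.lf (nat_lit 59013) (.g (nat_lit 1398) (.e (nat_lit 1512) (nat_lit 108) (.e (nat_lit 335998) (nat_lit 1) (.e (nat_lit 57684) (nat_lit 155) (.e (nat_lit 122916) (nat_lit 14) (.e (nat_lit 360192) (nat_lit 12) (.e (nat_lit 434179) (nat_lit 0) .nil)))))) (.g (nat_lit 4) .nil .nil))) 
(.lf (nat_lit 59077) (.g (nat_lit 3548) (.e (nat_lit 1512) (nat_lit 108) (.e (nat_lit 336051) (nat_lit 6) (.e (nat_lit 147495) (nat_lit 11) (.e (nat_lit 24625) (nat_lit 9) (.e (nat_lit 336423) (nat_lit 28) .nil))))) .nil))) (.nd (nat_lit 6) 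
(.lf (nat_lit 59045) (.g (nat_lit 1430) (.e (nat_lit 1512) (nat_lit 108) (.e (nat_lit 336051) (nat_lit 6) (.e (nat_lit 147466) (nat_lit 9) (.e (nat_lit 336) (nat_lit 26) .nil)))) .nil)) 
(.lf (nat_lit 59109) (.g (nat_lit 1420) (.e (nat_lit 1512) (nat_lit 108) (.e (nat_lit 336051) (nat_lit 6) (.e (nat_lit 147496) (nat_lit 11) (.e (nat_lit 24626) (nat_lit 9) .nil)))) .nil)))) (.nd (nat_lit 5) (.nd (nat_lit 6) 
(.lf (nat_lit 59029) (.g (nat_lit 1423) (.e (nat_lit 1512) (nat_lit 108) (.e (nat_lit 336051) (nat_lit 6) (.e (nat_lit 147466) (nat_lit 9) (.e (nat_lit 244) (nat_lit 21) .nil)))) .nil)) 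
(.lf (nat_lit 59093) (.g (nat_lit 1396) (.e (nat_lit 1512) (nat_lit 108) (.e (nat_lit 336051) (nat_lit 6) (.e (nat_lit 147495) (nat_lit 11) (.e (nat_lit 24657) (nat_lit 13) .nil)))) .nil))) (.nd (nat_lit 6) 
(.lf (nat_lit 59061) (.g (nat_lit 832) (.e (nat_lit 1512) (nat_lit 108) (.e (nat_lit 336051) (nat_lit 6) (.e (nat_lit 147467) (nat_lit 9) (.e (nat_lit 332) (nat_lit 26) .nil)))) .nil)) 
(.lf (nat_lit 59125) (.g (nat_lit 2959) (.e (nat_lit 1512) (nat_lit 108) (.e (nat_lit 336235) (nat_lit 14) (.e (nat_lit 401437) (nat_lit 9) (.e (nat_lit 426546) (nat_lit 30) (.e (nat_lit 368384) (nat_lit 17) (.e (nat_lit 671488) (nat_lit 0) .nil)))))) (.g (nat_lit 4) .nil .nil)))))) (.nd (nat_lit 4) (.nd (nat_lit 5) (.nd (nat_lit 6) 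
(.lf (nat_lit 59021) (.g (nat_lit 2326) (.e (nat_lit 1512) (nat_lit 108) (.e (nat_lit 336017) (nat_lit 3) (.e (nat_lit 98350) (nat_lit 24) (.e (nat_lit 409640) (nat_lit 17) (.e (nat_lit 294928) (nat_lit 2) (.e (nat_lit 90165) (nat_lit 12) (.e (nat_lit 164236) (nat_lit 187) .nil))))))) (.g (nat_lit 4) .nil .nil))) 
(.lf (nat_lit 59085) (.g (nat_lit 2264) (.e (nat_lit 1512) (nat_lit 108) (.e (nat_lit 336051) (nat_lit 6) (.e (nat_lit 147495) (nat_lit 11) (.e (nat_lit 24629) (nat_lit 9) (.e (nat_lit 336421) (nat_lit 28) (.e (nat_lit 434179) (nat_lit 0) .nil)))))) (.g (nat_lit 6) .nil .nil)))) (.nd (nat_lit 6) 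
(.lf (nat_lit 59053) (.g (nat_lit 3520) (.e (nat_lit 1512) (nat_lit 108) (.e (nat_lit 336051) (nat_lit 6) (.e (nat_lit 147467) (nat_lit 9) (.e (nat_lit 297) (nat_lit 22) (.e (nat_lit 344131) (nat_lit 26) (.e (nat_lit 557105) (nat_lit 14) (.e (nat_lit 180265) (nat_lit 21) (.e (nat_lit 663555) (nat_lit 0) .nil)))))))) (.g (nat_lit 7) .nil .nil))) 
(.lf (nat_lit 59117) (.g (nat_lit 1258) (.e (nat_lit 1512) (nat_lit 108) (.e (nat_lit 336119) (nat_lit 9) (.e (nat_lit 336323) (nat_lit 18) (.e (nat_lit 204838) (nat_lit 20) (.e (nat_lit 122624) (nat_lit 12) (.e (nat_lit 434219) (nat_lit 19) (.e (nat_lit 499965) (nat_lit 14) .nil))))))) (.g (nat_lit 4) .nil .nil))))) (.nd (nat_lit 5) (.nd (nat_lit 6) 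
(.lf (nat_lit 59037) (.g (nat_lit 4196) (.e (nat_lit 1512) (nat_lit 108) (.e (nat_lit 336051) (nat_lit 6) (.e (nat_lit 147466) (nat_lit 9) (.e (nat_lit 304) (nat_lit 22) (.e (nat_lit 344133) (nat_lit 26) (.e (nat_lit 557105) (nat_lit 14) (.e (nat_lit 180265) (nat_lit 21) (.e (nat_lit 663555) (nat_lit 0) .nil)))))))) (.g (nat_lit 8) .nil .nil))) 
(.lf (nat_lit 59101) (.g (nat_lit 3596) (.e (nat_lit 1512) (nat_lit 108) (.e (nat_lit 336051) (nat_lit 6) (.e (nat_lit 147495) (nat_lit 11) (.e (nat_lit 24665) (nat_lit 14) (.e (nat_lit 401465) (nat_lit 15) .nil))))) .nil))) (.nd (nat_lit 6) 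
(.lf (nat_lit 59069) (.g (nat_lit 3082) (.e (nat_lit 1512) (nat_lit 108) (.e (nat_lit 336051) (nat_lit 6) (.e (nat_lit 147495) (nat_lit 11) (.e (nat_lit 24623) (nat_lit 9) (.e (nat_lit 336421) (nat_lit 28) (.e (nat_lit 434178) (nat_lit 0) .nil)))))) (.g (nat_lit 5) .nil .nil))) 
(.lf (nat_lit 59133) (.g (nat_lit 1549) (.e (nat_lit 1512) (nat_lit 108) (.e (nat_lit 336235) (nat_lit 14) (.e (nat_lit 401458) (nat_lit 13) (.e (nat_lit 483406) (nat_lit 26) .nil)))) .nil))))))) (.nd (nat_lit 2) (.nd (nat_lit 3) (.nd (nat_lit 4) (.nd (nat_lit 5) (.nd (nat_lit 6) 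
(.lf (nat_lit 59011) (.g (nat_lit 625) (.e (nat_lit 1512) (nat_lit 108) (.e (nat_lit 335998) (nat_lit 1) (.e (nat_lit 57683) (nat_lit 155) .nil))) .nil)) 
(.lf (nat_lit 59075) (.g (nat_lit 2319) (.e (nat_lit 1512) (nat_lit 108) (.e (nat_lit 336051) (nat_lit 6) (.e (nat_lit 147495) (nat_lit 11) (.e (nat_lit 24625) (nat_lit 9) .nil)))) .nil))) (.nd (nat_lit 6) 
(.lf (nat_lit 59043) (.g (nat_lit 1810) (.e (nat_lit 1512) (nat_lit 108) (.e (nat_lit 336051) (nat_lit 6) (.e (nat_lit 147466) (nat_lit 9) (.e (nat_lit 314) (nat_lit 23) (.e (nat_lit 360192) (nat_lit 12) .nil))))) .nil)) 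
(.lf (nat_lit 59107) (.g (nat_lit 2237) (.e (nat_lit 1512) (nat_lit 108) (.e (nat_lit 336051) (nat_lit 6) (.e (nat_lit 147496) (nat_lit 11) (.e (nat_lit 24625) (nat_lit 9) (.e (nat_lit 336423) (nat_lit 28) (.e (nat_lit 434178) (nat_lit 0) .nil)))))) (.g (nat_lit 4) .nil .nil))))) (.nd (nat_lit 5) (.nd (nat_lit 6) 
(.lf (nat_lit 59027) (.g (nat_lit 97) (.e (nat_lit 1512) (nat_lit 108) (.e (nat_lit 336051) (nat_lit 6) (.e (nat_lit 147466) (nat_lit 9) .nil))) .nil)) 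
(.lf (nat_lit 59091) (.g (nat_lit 2296) (.e (nat_lit 1512) (nat_lit 108) (.e (nat_lit 336051) (nat_lit 6) (.e (nat_lit 147495) (nat_lit 11) (.e (nat_lit 24654) (nat_lit 13) (.e (nat_lit 393242) (nat_lit 17) (.e (nat_lit 7550) (nat_lit 402) .nil)))))) (.g (nat_lit 0) .nil .nil)))) (.nd (nat_lit 6) 
(.lf (nat_lit 59059) (.g (nat_lit 763) (.e (nat_lit 1512) (nat_lit 108) (.e (nat_lit 336051) (nat_lit 6) (.e (nat_lit 147467) (nat_lit 9) (.e (nat_lit 312) (nat_lit 23) .nil)))) .nil)) 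
(.lf (nat_lit 59123) (.g (nat_lit 1906) (.e (nat_lit 1512) (nat_lit 108) (.e (nat_lit 336235) (nat_lit 14) (.e (nat_lit 401437) (nat_lit 9) (.e (nat_lit 426546) (nat_lit 30) .nil)))) .nil))))) (.nd (nat_lit 4) (.nd (nat_lit 5) (.nd (nat_lit 6) 
(.lf (nat_lit 59019) (.g (nat_lit 2563) (.e (nat_lit 1512) (nat_lit 108) (.e (nat_lit 336017) (nat_lit 3) (.e (nat_lit 98350) (nat_lit 24) (.e (nat_lit 409617) (nat_lit 10) (.e (nat_lit 5355) (nat_lit 298) (.e (nat_lit 1234) (nat_lit 91) (.e (nat_lit 90165) (nat_lit 12) (.e (nat_lit 164237) (nat_lit 187) .nil)))))))) (.g (nat_lit 5) .nil .nil))) 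
(.lf (nat_lit 59083) (.g (nat_lit 3150) (.e (nat_lit 1512) (nat_lit 108) (.e (nat_lit 336051) (nat_lit 6) (.e (nat_lit 147495) (nat_lit 11) (.e (nat_lit 24628) (nat_lit 9) (.e (nat_lit 343808) (nat_lit 28) .nil))))) .nil))) (.nd (nat_lit 6) 
(.lf (nat_lit 59051) (.g (nat_lit 967) (.e (nat_lit 1512) (nat_lit 108) (.e (nat_lit 336051) (nat_lit 6) (.e (nat_lit 147467) (nat_lit 9) (.e (nat_lit 297) (nat_lit 22) .nil)))) .nil)) 
(.lf (nat_lit 59115) (.g (nat_lit 2462) (.e (nat_lit 1512) (nat_lit 108) (.e (nat_lit 336051) (nat_lit 6) (.e (nat_lit 147496) (nat_lit 11) (.e (nat_lit 24655) (nat_lit 13) (.e (nat_lit 393242) (nat_lit 17) (.e (nat_lit 7550) (nat_lit 402) .nil)))))) (.g (nat_lit 4) .nil .nil))))) (.nd (nat_lit 5) (.nd (nat_lit 6) 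
(.lf (nat_lit 59035) (.g (nat_lit 1376) (.e (nat_lit 1512) (nat_lit 108) (.e (nat_lit 336051) (nat_lit 6) (.e (nat_lit 147466) (nat_lit 9) (.e (nat_lit 297) (nat_lit 22) .nil)))) .nil)) 
(.lf (nat_lit 59099) (.g (nat_lit 1928) (.e (nat_lit 1512) (nat_lit 108) (.e (nat_lit 336051) (nat_lit 6) (.e (nat_lit 147495) (nat_lit 11) (.e (nat_lit 24660) (nat_lit 13) (.e (nat_lit 393238) (nat_lit 17) (.e (nat_lit 7555) (nat_lit 402) .nil)))))) (.g (nat_lit 4) .nil .nil)))) (.nd (nat_lit 6) 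
(.lf (nat_lit 59067) (.g (nat_lit 2281) (.e (nat_lit 1512) (nat_lit 108) (.e (nat_lit 336051) (nat_lit 6) (.e (nat_lit 147495) (nat_lit 11) (.e (nat_lit 24591) (nat_lit 0) .nil)))) .nil)) 
(.lf (nat_lit 59131) (.g (nat_lit 1606) (.e (nat_lit 1512) (nat_lit 108) (.e (nat_lit 336235) (nat_lit 14) (.e (nat_lit 401458) (nat_lit 13) (.e (nat_lit 483395) (nat_lit 24) .nil)))) .nil)))))) (.nd (nat_lit 3) (.nd (nat_lit 4) (.nd (nat_lit 5) (.nd (nat_lit 6) 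
(.lf (nat_lit 59015) (.g (nat_lit 2420) (.e (nat_lit 1512) (nat_lit 108) (.e (nat_lit 336017) (nat_lit 3) (.e (nat_lit 98350) (nat_lit 24) (.e (nat_lit 409616) (nat_lit 10) (.e (nat_lit 5355) (nat_lit 298) .nil))))) .nil)) 
(.lf (nat_lit 59079) (.g (nat_lit 2968) (.e (nat_lit 1512) (nat_lit 108) (.e (nat_lit 336051) (nat_lit 6) (.e (nat_lit 147495) (nat_lit 11) (.e (nat_lit 24626) (nat_lit 9) (.e (nat_lit 336421) (nat_lit 28) .nil))))) .nil))) (.nd (nat_lit 6) 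
(.lf (nat_lit 59047) (.g (nat_lit 1035) (.e (nat_lit 1512) (nat_lit 108) (.e (nat_lit 336051) (nat_lit 6) (.e (nat_lit 147467) (nat_lit 9) (.e (nat_lit 243) (nat_lit 21) (.e (nat_lit 336085) (nat_lit 9) .nil))))) .nil)) 
(.lf (nat_lit 59111) (.g (nat_lit 3360) (.e (nat_lit 1512) (nat_lit 108) (.e (nat_lit 336051) (nat_lit 6) (.e (nat_lit 147496) (nat_lit 11) (.e (nat_lit 24628) (nat_lit 9) (.e (nat_lit 336421) (nat_lit 28) (.e (nat_lit 434179) (nat_lit 0) .nil)))))) (.g (nat_lit 0) .nil .nil))))) (.nd (nat_lit 5) (.nd (nat_lit 6) 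
(.lf (nat_lit 59031) (.g (nat_lit 1427) (.e (nat_lit 1512) (nat_lit 108) (.e (nat_lit 336051) (nat_lit 6) (.e (nat_lit 147466) (nat_lit 9) (.e (nat_lit 245) (nat_lit 21) .nil)))) .nil)) 
(.lf (nat_lit 59095) (.g (nat_lit 2137) (.e (nat_lit 1512) (nat_lit 108) (.e (nat_lit 336051) (nat_lit 6) (.e (nat_lit 147495) (nat_lit 11) (.e (nat_lit 24657) (nat_lit 13) (.e (nat_lit 401152) (nat_lit 17) .nil))))) .nil))) (.nd (nat_lit 6) 
(.lf (nat_lit 59063) (.g (nat_lit 1469) (.e (nat_lit 1512) (nat_lit 108) (.e (nat_lit 336051) (nat_lit 6) (.e (nat_lit 147494) (nat_lit 11) (.e (nat_lit 24630) (nat_lit 9) (.e (nat_lit 336421) (nat_lit 28) .nil))))) .nil)) 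
(.lf (nat_lit 59127) (.g (nat_lit 1330) (.e (nat_lit 1512) (nat_lit 108) (.e (nat_lit 336235) (nat_lit 14) (.e (nat_lit 401438) (nat_lit 9) (.e (nat_lit 426544) (nat_lit 30) .nil)))) .nil))))) (.nd (nat_lit 4) (.nd (nat_lit 5) (.nd (nat_lit 6) 
(.lf (nat_lit 59023) (.g (nat_lit 1788) (.e (nat_lit 1512) (nat_lit 108) (.e (nat_lit 336017) (nat_lit 3) (.e (nat_lit 98350) (nat_lit 24) (.e (nat_lit 409645) (nat_lit 18) .nil)))) .nil)) 
(.lf (nat_lit 59087) (.g (nat_lit 2955) (.e (nat_lit 1512) (nat_lit 108) (.e (nat_lit 336051) (nat_lit 6) (.e (nat_lit 147495) (nat_lit 11) (.e (nat_lit 24630) (nat_lit 9) (.e (nat_lit 336421) (nat_lit 28) (.e (nat_lit 434179) (nat_lit 0) .nil)))))) (.g (nat_lit 6) .nil .nil)))) (.nd (nat_lit 6) 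
(.lf (nat_lit 59055) (.g (nat_lit 4020) (.e (nat_lit 1512) (nat_lit 108) (.e (nat_lit 336051) (nat_lit 6) (.e (nat_lit 147467) (nat_lit 9) (.e (nat_lit 297) (nat_lit 22) (.e (nat_lit 344132) (nat_lit 26) (.e (nat_lit 557105) (nat_lit 14) (.e (nat_lit 180265) (nat_lit 21) (.e (nat_lit 663555) (nat_lit 0) .nil)))))))) (.g (nat_lit 8) .nil .nil))) 
(.lf (nat_lit 59119) (.g (nat_lit 453) (.e (nat_lit 1512) (nat_lit 108) (.e (nat_lit 336235) (nat_lit 14) (.e (nat_lit 401425) (nat_lit 2) .nil))) .nil)))) (.nd (nat_lit 5) (.nd (nat_lit 6) 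
(.lf (nat_lit 59039) (.g (nat_lit 1430) (.e (nat_lit 1512) (nat_lit 108) (.e (nat_lit 336051) (nat_lit 6) (.e (nat_lit 147466) (nat_lit 9) (.e (nat_lit 307) (nat_lit 22) .nil)))) .nil)) 
(.lf (nat_lit 59103) (.g (nat_lit 1478) (.e (nat_lit 1512) (nat_lit 108) (.e (nat_lit 336051) (nat_lit 6) (.e (nat_lit 147496) (nat_lit 11) (.e (nat_lit 24624) (nat_lit 9) (.e (nat_lit 336421) (nat_lit 28) .nil))))) .nil))) (.nd (nat_lit 6) 
(.lf (nat_lit 59071) (.g (nat_lit 2756) (.e (nat_lit 1512) (nat_lit 108) (.e (nat_lit 336051) (nat_lit 6) (.e (nat_lit 147495) (nat_lit 11) (.e (nat_lit 24623) (nat_lit 9) (.e (nat_lit 336425) (nat_lit 28) (.e (nat_lit 434179) (nat_lit 0) .nil)))))) (.g (nat_lit 5) .nil .nil))) 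
(.lf (nat_lit 59135) (.g (nat_lit 366) (.e (nat_lit 1512) (nat_lit 108) (.e (nat_lit 336235) (nat_lit 14) (.e (nat_lit 401459) (nat_lit 13) .nil))) .nil)))))))))

noncomputable def tv814 : DT := (.nd (nat_lit 0) (.nd (nat_lit 1) (.nd (nat_lit 2) (.nd (nat_lit 3) (.nd (nat_lit 4) (.nd (nat_lit 5) 
(.lf (nat_lit 59136) (.g (nat_lit 1561) (.e (nat_lit 1512) (nat_lit 108) (.e (nat_lit 336235) (nat_lit 14) (.e (nat_lit 401459) (nat_lit 13) (.e (nat_lit 483380) (nat_lit 23) .nil)))) .nil)) 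
(.lf (nat_lit 59168) (.g (nat_lit 1960) (.e (nat_lit 1512) (nat_lit 108) (.e (nat_lit 336390) (nat_lit 27) (.e (nat_lit 426343) (nat_lit 14) (.e (nat_lit 491570) (nat_lit 13) (.e (nat_lit 393238) (nat_lit 17) .nil))))) .nil))) (.nd (nat_lit 5) 
(.lf (nat_lit 59152) (.g (nat_lit 2970) (.e (nat_lit 1512) (nat_lit 108) (.e (nat_lit 336305) (nat_lit 15) (.e (nat_lit 3298) (nat_lit 202) (.e (nat_lit 573493) (nat_lit 15) (.e (nat_lit 81953) (nat_lit 22) (.e (nat_lit 90165) (nat_lit 12) (.e (nat_lit 164237) (nat_lit 187) .nil))))))) (.g (nat_lit 6) .nil .nil))) 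
(.lf (nat_lit 59184) (.g (nat_lit 4056) (.e (nat_lit 1515) (nat_lit 108) (.e (nat_lit 335872) (nat_lit 0) (.e (nat_lit 1796) (nat_lit 119) (.e (nat_lit 516185) (nat_lit 16) (.e (nat_lit 491546) (nat_lit 9) (.e (nat_lit 336013) (nat_lit 2) (.e (nat_lit 90165) (nat_lit 12) (.e (nat_lit 164237) (nat_lit 187) .nil)))))))) (.g (nat_lit 8) .nil .nil))))) (.nd (nat_lit 4) (.nd (nat_lit 5) 
(.lf (nat_lit 59144) (.g (nat_lit 3784) (.e (nat_lit 1512) (nat_lit 108) (.e (nat_lit 336300) (nat_lit 15) (.e (nat_lit 3305) (nat_lit 202) (.e (nat_lit 573482) (nat_lit 13) (.e (nat_lit 65604) (nat_lit 9) (.e (nat_lit 336013) (nat_lit 2) (.e (nat_lit 90165) (nat_lit 12) (.e (nat_lit 164236) (nat_lit 187) .nil)))))))) (.g (nat_lit 7) .nil .nil))) 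
(.lf (nat_lit 59176) (.g (nat_lit 1291) (.e (nat_lit 1512) (nat_lit 108) (.e (nat_lit 336420) (nat_lit 28) (.e (nat_lit 434181) (nat_lit 0) (.e (nat_lit 1426) (nat_lit 108) (.e (nat_lit 336421) (nat_lit 28) (.e (nat_lit 434178) (nat_lit 0) .nil)))))) (.g (nat_lit 6) .nil .nil)))) (.nd (nat_lit 5) 
(.lf (nat_lit 59160) (.g (nat_lit 1788) (.e (nat_lit 1512) (nat_lit 108) (.e (nat_lit 336390) (nat_lit 27) (.e (nat_lit 426011) (nat_lit 0) (.e (nat_lit 3555) (nat_lit 220) .nil)))) .nil)) 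
(.lf (nat_lit 59192) (.g (nat_lit 1380) (.e (nat_lit 1515) (nat_lit 108) (.e (nat_lit 335998) (nat_lit 1) (.e (nat_lit 57684) (nat_lit 155) (.e (nat_lit 122916) (nat_lit 14) (.e (nat_lit 360192) (nat_lit 12) (.e (nat_lit 434179) (nat_lit 0) .nil)))))) (.g (nat_lit 4) .nil .nil)))))) (.nd (nat_lit 3) (.nd (nat_lit 4) (.nd (nat_lit 5) 
(.lf (nat_lit 59140) (.g (nat_lit 3281) (.e (nat_lit 1512) (nat_lit 108) (.e (nat_lit 336239) (nat_lit 15) (.e (nat_lit 3309) (nat_lit 202) (.e (nat_lit 573485) (nat_lit 13) (.e (nat_lit 65604) (nat_lit 9) (.e (nat_lit 336013) (nat_lit 2) (.e (nat_lit 90165) (nat_lit 12) (.e (nat_lit 164237) (nat_lit 187) .nil)))))))) (.g (nat_lit 7) .nil .nil))) 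
(.lf (nat_lit 59172) (.g (nat_lit 1031) (.e (nat_lit 1512) (nat_lit 108) (.e (nat_lit 336420) (nat_lit 28) (.e (nat_lit 434180) (nat_lit 0) (.e (nat_lit 1425) (nat_lit 108) (.e (nat_lit 336421) (nat_lit 28) (.e (nat_lit 434178) (nat_lit 0) .nil)))))) (.g (nat_lit 5) .nil .nil)))) (.nd (nat_lit 5) 
(.lf (nat_lit 59156) (.g (nat_lit 3073) (.e (nat_lit 1512) (nat_lit 108) (.e (nat_lit 336305) (nat_lit 15) (.e (nat_lit 3308) (nat_lit 202) (.e (nat_lit 573493) (nat_lit 15) (.e (nat_lit 81953) (nat_lit 22) (.e (nat_lit 90165) (nat_lit 12) (.e (nat_lit 164236) (nat_lit 187) .nil))))))) (.g (nat_lit 0) .nil .nil))) 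
(.lf (nat_lit 59188) (.g (nat_lit 624) (.e (nat_lit 1515) (nat_lit 108) (.e (nat_lit 335998) (nat_lit 1) (.e (nat_lit 57683) (nat_lit 155) .nil))) .nil)))) (.nd (nat_lit 4) (.nd (nat_lit 5) 
(.lf (nat_lit 59148) (.g (nat_lit 2116) (.e (nat_lit 1512) (nat_lit 108) (.e (nat_lit 336305) (nat_lit 15) (.e (nat_lit 3297) (nat_lit 202) (.e (nat_lit 573491) (nat_lit 15) (.e (nat_lit 81951) (nat_lit 22) (.e (nat_lit 90165) (nat_lit 12) (.e (nat_lit 164237) (nat_lit 187) .nil))))))) (.g (nat_lit 5) .nil .nil))) 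
(.lf (nat_lit 59180) (.g (nat_lit 1110) (.e (nat_lit 1514) (nat_lit 108) (.e (nat_lit 336206) (nat_lit 12) (.e (nat_lit 385068) (nat_lit 26) (.e (nat_lit 532515) (nat_lit 3) .nil)))) .nil))) (.nd (nat_lit 5) 
(.lf (nat_lit 59164) (.g (nat_lit 2779) (.e (nat_lit 1512) (nat_lit 108) (.e (nat_lit 336390) (nat_lit 27) (.e (nat_lit 426341) (nat_lit 14) (.e (nat_lit 491549) (nat_lit 9) (.e (nat_lit 336421) (nat_lit 28) (.e (nat_lit 434179) (nat_lit 0) .nil)))))) (.g (nat_lit 5) .nil .nil))) 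
(.lf (nat_lit 59196) (.g (nat_lit 2216) (.e (nat_lit 1515) (nat_lit 108) (.e (nat_lit 336017) (nat_lit 3) (.e (nat_lit 98350) (nat_lit 24) (.e (nat_lit 409640) (nat_lit 17) (.e (nat_lit 294928) (nat_lit 2) (.e (nat_lit 90165) (nat_lit 12) (.e (nat_lit 164236) (nat_lit 187) .nil))))))) (.g (nat_lit 4) .nil .nil))))))) (.nd (nat_lit 2) (.nd (nat_lit 3) (.nd (nat_lit 4) (.nd (nat_lit 5) 
(.lf (nat_lit 59138) (.g (nat_lit 2070) (.e (nat_lit 1512) (nat_lit 108) (.e (nat_lit 336235) (nat_lit 14) (.e (nat_lit 401459) (nat_lit 13) (.e (nat_lit 483395) (nat_lit 24) (.e (nat_lit 344168) (nat_lit 40) (.e (nat_lit 671751) (nat_lit 0) .nil)))))) (.g (nat_lit 5) .nil .nil))) 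
(.lf (nat_lit 59170) (.g (nat_lit 2335) (.e (nat_lit 1512) (nat_lit 108) (.e (nat_lit 336390) (nat_lit 27) (.e (nat_lit 426344) (nat_lit 14) (.e (nat_lit 491568) (nat_lit 13) (.e (nat_lit 393242) (nat_lit 17) (.e (nat_lit 7550) (nat_lit 402) .nil)))))) (.g (nat_lit 4) .nil .nil)))) (.nd (nat_lit 5) 
(.lf (nat_lit 59154) (.g (nat_lit 3638) (.e (nat_lit 1512) (nat_lit 108) (.e (nat_lit 336305) (nat_lit 15) (.e (nat_lit 3308) (nat_lit 202) (.e (nat_lit 573482) (nat_lit 13) (.e (nat_lit 65604) (nat_lit 9) (.e (nat_lit 336013) (nat_lit 2) (.e (nat_lit 90165) (nat_lit 12) (.e (nat_lit 164236) (nat_lit 187) .nil)))))))) (.g (nat_lit 0) .nil .nil))) 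
(.lf (nat_lit 59186) (.g (nat_lit 825) (.e (nat_lit 1515) (nat_lit 108) (.e (nat_lit 335874) (nat_lit 0) (.e (nat_lit 7936) (nat_lit 149) (.e (nat_lit 761868) (nat_lit 5) (.e (nat_lit 1555) (nat_lit 110) (.e (nat_lit 360192) (nat_lit 12) (.e (nat_lit 434179) (nat_lit 0) .nil))))))) (.g (nat_lit 5) .nil .nil))))) (.nd (nat_lit 4) (.nd (nat_lit 5) 
(.lf (nat_lit 59146) (.g (nat_lit 3240) (.e (nat_lit 1512) (nat_lit 108) (.e (nat_lit 336300) (nat_lit 15) (.e (nat_lit 3305) (nat_lit 202) (.e (nat_lit 573482) (nat_lit 13) (.e (nat_lit 65619) (nat_lit 10) (.e (nat_lit 344117) (nat_lit 21) (.e (nat_lit 516106) (nat_lit 0) (.e (nat_lit 7550) (nat_lit 402) .nil)))))))) (.g (nat_lit 7) .nil .nil))) 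
(.lf (nat_lit 59178) (.g (nat_lit 1133) (.e (nat_lit 1513) (nat_lit 108) (.e (nat_lit 336206) (nat_lit 12) (.e (nat_lit 385068) (nat_lit 26) (.e (nat_lit 532515) (nat_lit 3) .nil)))) .nil))) (.nd (nat_lit 5) 
(.lf (nat_lit 59162) (.g (nat_lit 2703) (.e (nat_lit 1512) (nat_lit 108) (.e (nat_lit 336390) (nat_lit 27) (.e (nat_lit 426338) (nat_lit 14) (.e (nat_lit 491549) (nat_lit 9) (.e (nat_lit 336421) (nat_lit 28) (.e (nat_lit 434179) (nat_lit 0) .nil)))))) (.g (nat_lit 5) .nil .nil))) 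
(.lf (nat_lit 59194) (.g (nat_lit 2375) (.e (nat_lit 1515) (nat_lit 108) (.e (nat_lit 336017) (nat_lit 3) (.e (nat_lit 98350) (nat_lit 24) (.e (nat_lit 409616) (nat_lit 10) (.e (nat_lit 5355) (nat_lit 298) .nil))))) .nil))))) (.nd (nat_lit 3) (.nd (nat_lit 4) (.nd (nat_lit 5) 
(.lf (nat_lit 59142) (.g (nat_lit 3301) (.e (nat_lit 1512) (nat_lit 108) (.e (nat_lit 336241) (nat_lit 15) (.e (nat_lit 7064) (nat_lit 377) (.e (nat_lit 1349) (nat_lit 102) (.e (nat_lit 286761) (nat_lit 13) (.e (nat_lit 393234) (nat_lit 17) (.e (nat_lit 7565) (nat_lit 402) .nil))))))) (.g (nat_lit 6) .nil .nil))) 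
(.lf (nat_lit 59174) (.g (nat_lit 1001) (.e (nat_lit 1512) (nat_lit 108) (.e (nat_lit 336420) (nat_lit 28) (.e (nat_lit 434180) (nat_lit 0) (.e (nat_lit 1426) (nat_lit 108) (.e (nat_lit 336421) (nat_lit 28) (.e (nat_lit 434179) (nat_lit 0) .nil)))))) (.g (nat_lit 5) .nil .nil)))) (.nd (nat_lit 5) 
(.lf (nat_lit 59158) (.g (nat_lit 2824) (.e (nat_lit 1512) (nat_lit 108) (.e (nat_lit 336378) (nat_lit 27) (.e (nat_lit 426347) (nat_lit 14) (.e (nat_lit 491550) (nat_lit 9) (.e (nat_lit 336421) (nat_lit 28) (.e (nat_lit 434178) (nat_lit 0) .nil)))))) (.g (nat_lit 5) .nil .nil))) 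
(.lf (nat_lit 59190) (.g (nat_lit 520) (.e (nat_lit 1515) (nat_lit 108) (.e (nat_lit 335998) (nat_lit 1) (.e (nat_lit 57684) (nat_lit 155) .nil))) .nil)))) (.nd (nat_lit 4) (.nd (nat_lit 5) 
(.lf (nat_lit 59150) (.g (nat_lit 2274) (.e (nat_lit 1512) (nat_lit 108) (.e (nat_lit 336305) (nat_lit 15) (.e (nat_lit 3298) (nat_lit 202) (.e (nat_lit 573491) (nat_lit 15) (.e (nat_lit 81951) (nat_lit 22) (.e (nat_lit 90165) (nat_lit 12) (.e (nat_lit 164236) (nat_lit 187) .nil))))))) (.g (nat_lit 0) .nil .nil))) 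
(.lf (nat_lit 59182) (.g (nat_lit 3220) (.e (nat_lit 1515) (nat_lit 108) (.e (nat_lit 335872) (nat_lit 0) (.e (nat_lit 1775) (nat_lit 118) (.e (nat_lit 507923) (nat_lit 6) (.e (nat_lit 286747) (nat_lit 9) (.e (nat_lit 336013) (nat_lit 2) (.e (nat_lit 90165) (nat_lit 12) (.e (nat_lit 164237) (nat_lit 187) .nil)))))))) (.g (nat_lit 7) .nil .nil)))) (.nd (nat_lit 5) 
(.lf (nat_lit 59166) (.g (nat_lit 3588) (.e (nat_lit 1512) (nat_lit 108) (.e (nat_lit 336390) (nat_lit 27) (.e (nat_lit 426343) (nat_lit 14) (.e (nat_lit 491549) (nat_lit 9) (.e (nat_lit 336421) (nat_lit 28) (.e (nat_lit 434178) (nat_lit 0) .nil)))))) (.g (nat_lit 6) .nil .nil))) 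
(.lf (nat_lit 59198) (.g (nat_lit 3347) (.e (nat_lit 1515) (nat_lit 108) (.e (nat_lit 336017) (nat_lit 3) (.e (nat_lit 98350) (nat_lit 24) (.e (nat_lit 409641) (nat_lit 17) (.e (nat_lit 294928) (nat_lit 2) (.e (nat_lit 90165) (nat_lit 12) (.e (nat_lit 164236) (nat_lit 187) .nil))))))) (.g (nat_lit 5) .nil .nil)))))))) 
(.nd (nat_lit 1) (.nd (nat_lit 2) (.nd (nat_lit 3) (.nd (nat_lit 4) (.nd (nat_lit 5) 
(.lf (nat_lit 59137) (.g (nat_lit 3016) (.e (nat_lit 1512) (nat_lit 108) (.e (nat_lit 336235) (nat_lit 14) (.e (nat_lit 401459) (nat_lit 13) (.e (nat_lit 483380) (nat_lit 23) (.e (nat_lit 336328) (nat_lit 19) .nil))))) .nil)) 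
(.lf (nat_lit 59169) (.g (nat_lit 3496) (.e (nat_lit 1512) (nat_lit 108) (.e (nat_lit 336390) (nat_lit 27) (.e (nat_lit 426343) (nat_lit 14) (.e (nat_lit 491570) (nat_lit 13) (.e (nat_lit 393242) (nat_lit 17) (.e (nat_lit 7550) (nat_lit 402) .nil)))))) (.g (nat_lit 0) .nil .nil)))) (.nd (nat_lit 5) 
(.lf (nat_lit 59153) (.g (nat_lit 3859) (.e (nat_lit 1512) (nat_lit 108) (.e (nat_lit 336305) (nat_lit 15) (.e (nat_lit 3307) (nat_lit 202) (.e (nat_lit 573485) (nat_lit 13) (.e (nat_lit 65604) (nat_lit 9) (.e (nat_lit 336013) (nat_lit 2) (.e (nat_lit 90165) (nat_lit 12) (.e (nat_lit 164236) (nat_lit 187) .nil)))))))) (.g (nat_lit 0) .nil .nil))) 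
(.lf (nat_lit 59185) (.g (nat_lit 548) (.e (nat_lit 1515) (nat_lit 108) (.e (nat_lit 335872) (nat_lit 0) (.e (nat_lit 7936) (nat_lit 149) (.e (nat_lit 761868) (nat_lit 5) (.e (nat_lit 1555) (nat_lit 110) (.e (nat_lit 360192) (nat_lit 12) (.e (nat_lit 434179) (nat_lit 0) .nil))))))) (.g (nat_lit 5) .nil .nil))))) (.nd (nat_lit 4) (.nd (nat_lit 5) 
(.lf (nat_lit 59145) (.g (nat_lit 3558) (.e (nat_lit 1512) (nat_lit 108) (.e (nat_lit 336300) (nat_lit 15) (.e (nat_lit 3305) (nat_lit 202) (.e (nat_lit 573482) (nat_lit 13) (.e (nat_lit 65604) (nat_lit 9) (.e (nat_lit 336013) (nat_lit 2) (.e (nat_lit 90165) (nat_lit 12) (.e (nat_lit 164237) (nat_lit 187) .nil)))))))) (.g (nat_lit 7) .nil .nil))) 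
(.lf (nat_lit 59177) (.g (nat_lit 554) (.e (nat_lit 1513) (nat_lit 108) (.e (nat_lit 336017) (nat_lit 3) (.e (nat_lit 98372) (nat_lit 29) .nil))) .nil))) (.nd (nat_lit 5) 
(.lf (nat_lit 59161) (.g (nat_lit 2840) (.e (nat_lit 1512) (nat_lit 108) (.e (nat_lit 336390) (nat_lit 27) (.e (nat_lit 426338) (nat_lit 14) (.e (nat_lit 491549) (nat_lit 9) (.e (nat_lit 336421) (nat_lit 28) (.e (nat_lit 434178) (nat_lit 0) .nil)))))) (.g (nat_lit 5) .nil .nil))) 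
(.lf (nat_lit 59193) (.g (nat_lit 1275) (.e (nat_lit 1515) (nat_lit 108) (.e (nat_lit 336017) (nat_lit 3) (.e (nat_lit 98350) (nat_lit 24) (.e (nat_lit 409616) (nat_lit 10) .nil)))) .nil))))) (.nd (nat_lit 3) (.nd (nat_lit 4) (.nd (nat_lit 5) 
(.lf (nat_lit 59141) (.g (nat_lit 3403) (.e (nat_lit 1512) (nat_lit 108) (.e (nat_lit 336241) (nat_lit 15) (.e (nat_lit 7064) (nat_lit 377) (.e (nat_lit 1349) (nat_lit 102) (.e (nat_lit 286761) (nat_lit 13) (.e (nat_lit 393234) (nat_lit 17) (.e (nat_lit 7507) (nat_lit 402) .nil))))))) (.g (nat_lit 7) .nil .nil))) 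
(.lf (nat_lit 59173) (.g (nat_lit 1185) (.e (nat_lit 1512) (nat_lit 108) (.e (nat_lit 336420) (nat_lit 28) (.e (nat_lit 434180) (nat_lit 0) (.e (nat_lit 1426) (nat_lit 108) (.e (nat_lit 336421) (nat_lit 28) (.e (nat_lit 434178) (nat_lit 0) .nil)))))) (.g (nat_lit 5) .nil .nil)))) (.nd (nat_lit 5) 
(.lf (nat_lit 59157) (.g (nat_lit 2787) (.e (nat_lit 1512) (nat_lit 108) (.e (nat_lit 336313) (nat_lit 16) (.e (nat_lit 164119) (nat_lit 128) (.e (nat_lit 1220) (nat_lit 90) (.e (nat_lit 81953) (nat_lit 22) (.e (nat_lit 90165) (nat_lit 12) (.e (nat_lit 164237) (nat_lit 187) .nil))))))) (.g (nat_lit 6) .nil .nil))) 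
(.lf (nat_lit 59189) (.g (nat_lit 1827) (.e (nat_lit 1515) (nat_lit 108) (.e (nat_lit 335998) (nat_lit 1) (.e (nat_lit 57683) (nat_lit 155) (.e (nat_lit 122914) (nat_lit 14) (.e (nat_lit 360192) (nat_lit 12) .nil))))) .nil)))) (.nd (nat_lit 4) (.nd (nat_lit 5) 
(.lf (nat_lit 59149) (.g (nat_lit 3122) (.e (nat_lit 1512) (nat_lit 108) (.e (nat_lit 336305) (nat_lit 15) (.e (nat_lit 3298) (nat_lit 202) (.e (nat_lit 573481) (nat_lit 13) (.e (nat_lit 65604) (nat_lit 9) (.e (nat_lit 336013) (nat_lit 2) (.e (nat_lit 90165) (nat_lit 12) (.e (nat_lit 164236) (nat_lit 187) .nil)))))))) (.g (nat_lit 0) .nil .nil))) 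
(.lf (nat_lit 59181) (.g (nat_lit 3191) (.e (nat_lit 1515) (nat_lit 108) (.e (nat_lit 335872) (nat_lit 0) (.e (nat_lit 1775) (nat_lit 118) (.e (nat_lit 507923) (nat_lit 6) (.e (nat_lit 286747) (nat_lit 9) (.e (nat_lit 336013) (nat_lit 2) (.e (nat_lit 90165) (nat_lit 12) (.e (nat_lit 164236) (nat_lit 187) .nil)))))))) (.g (nat_lit 7) .nil .nil)))) (.nd (nat_lit 5) 
(.lf (nat_lit 59165) (.g (nat_lit 3190) (.e (nat_lit 1512) (nat_lit 108) (.e (nat_lit 336390) (nat_lit 27) (.e (nat_lit 426341) (nat_lit 14) (.e (nat_lit 491550) (nat_lit 9) (.e (nat_lit 336421) (nat_lit 28) (.e (nat_lit 434178) (nat_lit 0) .nil)))))) (.g (nat_lit 0) .nil .nil))) 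
(.lf (nat_lit 59197) (.g (nat_lit 2176) (.e (nat_lit 1515) (nat_lit 108) (.e (nat_lit 336017) (nat_lit 3) (.e (nat_lit 98350) (nat_lit 24) (.e (nat_lit 409640) (nat_lit 17) (.e (nat_lit 294928) (nat_lit 2) (.e (nat_lit 90165) (nat_lit 12) (.e (nat_lit 164237) (nat_lit 187) .nil))))))) (.g (nat_lit 4) .nil .nil))))))) (.nd (nat_lit 2) (.nd (nat_lit 3) (.nd (nat_lit 4) (.nd (nat_lit 5) 
(.lf (nat_lit 59139) (.g (nat_lit 3457) (.e (nat_lit 1512) (nat_lit 108) (.e (nat_lit 336239) (nat_lit 15) (.e (nat_lit 3309) (nat_lit 202) (.e (nat_lit 573485) (nat_lit 13) (.e (nat_lit 65604) (nat_lit 9) (.e (nat_lit 336013) (nat_lit 2) (.e (nat_lit 90165) (nat_lit 12) (.e (nat_lit 164236) (nat_lit 187) .nil)))))))) (.g (nat_lit 7) .nil .nil))) 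
(.lf (nat_lit 59171) (.g (nat_lit 1836) (.e (nat_lit 1512) (nat_lit 108) (.e (nat_lit 336394) (nat_lit 27) (.e (nat_lit 426340) (nat_lit 14) (.e (nat_lit 491550) (nat_lit 9) (.e (nat_lit 336421) (nat_lit 28) (.e (nat_lit 434178) (nat_lit 0) .nil)))))) (.g (nat_lit 0) .nil .nil)))) (.nd (nat_lit 5) 
(.lf (nat_lit 59155) (.g (nat_lit 2381) (.e (nat_lit 1512) (nat_lit 108) (.e (nat_lit 336305) (nat_lit 15) (.e (nat_lit 3308) (nat_lit 202) (.e (nat_lit 573491) (nat_lit 15) (.e (nat_lit 81951) (nat_lit 22) (.e (nat_lit 90165) (nat_lit 12) (.e (nat_lit 164236) (nat_lit 187) .nil))))))) (.g (nat_lit 0) .nil .nil))) 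
(.lf (nat_lit 59187) (.g (nat_lit 3315) (.e (nat_lit 1515) (nat_lit 108) (.e (nat_lit 335998) (nat_lit 1) (.e (nat_lit 57681) (nat_lit 155) (.e (nat_lit 122919) (nat_lit 15) (.e (nat_lit 360451) (nat_lit 0) (.e (nat_lit 7247) (nat_lit 383) (.e (nat_lit 8192) (nat_lit 0) (.e (nat_lit 5353) (nat_lit 298) .nil)))))))) (.g (nat_lit 7) .nil .nil))))) (.nd (nat_lit 4) (.nd (nat_lit 5) 
(.lf (nat_lit 59147) (.g (nat_lit 4137) (.e (nat_lit 1512) (nat_lit 108) (.e (nat_lit 336300) (nat_lit 15) (.e (nat_lit 3305) (nat_lit 202) (.e (nat_lit 573485) (nat_lit 13) (.e (nat_lit 65604) (nat_lit 9) (.e (nat_lit 336013) (nat_lit 2) (.e (nat_lit 90165) (nat_lit 12) (.e (nat_lit 164236) (nat_lit 187) .nil)))))))) (.g (nat_lit 0) .nil .nil))) 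
(.lf (nat_lit 59179) (.g (nat_lit 2118) (.e (nat_lit 1513) (nat_lit 108) (.e (nat_lit 336206) (nat_lit 12) (.e (nat_lit 385074) (nat_lit 31) (.e (nat_lit 573480) (nat_lit 13) (.e (nat_lit 65630) (nat_lit 14) .nil))))) .nil))) (.nd (nat_lit 5) 
(.lf (nat_lit 59163) (.g (nat_lit 2927) (.e (nat_lit 1512) (nat_lit 108) (.e (nat_lit 336390) (nat_lit 27) (.e (nat_lit 426341) (nat_lit 14) (.e (nat_lit 491549) (nat_lit 9) (.e (nat_lit 336421) (nat_lit 28) (.e (nat_lit 434178) (nat_lit 0) .nil)))))) (.g (nat_lit 6) .nil .nil))) 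
(.lf (nat_lit 59195) (.g (nat_lit 3816) (.e (nat_lit 1515) (nat_lit 108) (.e (nat_lit 336017) (nat_lit 3) (.e (nat_lit 98350) (nat_lit 24) (.e (nat_lit 409617) (nat_lit 10) (.e (nat_lit 5355) (nat_lit 298) (.e (nat_lit 1235) (nat_lit 91) (.e (nat_lit 90165) (nat_lit 12) (.e (nat_lit 164236) (nat_lit 187) .nil)))))))) (.g (nat_lit 8) .nil .nil)))))) 
(.nd (nat_lit 3) (.nd (nat_lit 4) (.nd (nat_lit 5) 
(.lf (nat_lit 59143) (.g (nat_lit 1854) (.e (nat_lit 1512) (nat_lit 108) (.e (nat_lit 336300) (nat_lit 15) (.e (nat_lit 3305) (nat_lit 202) (.e (nat_lit 573479) (nat_lit 13) (.e (nat_lit 65604) (nat_lit 9) (.e (nat_lit 336013) (nat_lit 2) (.e (nat_lit 90165) (nat_lit 12) (.e (nat_lit 164236) (nat_lit 187) .nil)))))))) (.g (nat_lit 4) .nil .nil))) 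
(.lf (nat_lit 59175) (.g (nat_lit 1388) (.e (nat_lit 1512) (nat_lit 108) (.e (nat_lit 336420) (nat_lit 28) (.e (nat_lit 434180) (nat_lit 0) (.e (nat_lit 1661) (nat_lit 115) (.e (nat_lit 393242) (nat_lit 17) (.e (nat_lit 7550) (nat_lit 402) .nil)))))) (.g (nat_lit 5) .nil .nil)))) (.nd (nat_lit 5) 
(.lf (nat_lit 59159) (.g (nat_lit 2686) (.e (nat_lit 1512) (nat_lit 108) (.e (nat_lit 336378) (nat_lit 27) (.e (nat_lit 426347) (nat_lit 14) (.e (nat_lit 491550) (nat_lit 9) (.e (nat_lit 336421) (nat_lit 28) (.e (nat_lit 434179) (nat_lit 0) .nil)))))) (.g (nat_lit 5) .nil .nil))) 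
(.lf (nat_lit 59191) (.g (nat_lit 898) (.e (nat_lit 1515) (nat_lit 108) (.e (nat_lit 335998) (nat_lit 1) (.e (nat_lit 57684) (nat_lit 155) (.e (nat_lit 122914) (nat_lit 14) .nil)))) .nil)))) (.nd (nat_lit 4) (.nd (nat_lit 5) 
(.lf (nat_lit 59151) (.g (nat_lit 2423) (.e (nat_lit 1512) (nat_lit 108) (.e (nat_lit 336305) (nat_lit 15) (.e (nat_lit 3298) (nat_lit 202) (.e (nat_lit 573492) (nat_lit 15) (.e (nat_lit 81953) (nat_lit 22) (.e (nat_lit 90165) (nat_lit 12) (.e (nat_lit 164236) (nat_lit 187) .nil))))))) (.g (nat_lit 0) .nil .nil))) 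
(.lf (nat_lit 59183) (.g (nat_lit 4226) (.e (nat_lit 1515) (nat_lit 108) (.e (nat_lit 335872) (nat_lit 0) (.e (nat_lit 1796) (nat_lit 119) (.e (nat_lit 516185) (nat_lit 16) (.e (nat_lit 491546) (nat_lit 9) (.e (nat_lit 336013) (nat_lit 2) (.e (nat_lit 90165) (nat_lit 12) (.e (nat_lit 164236) (nat_lit 187) .nil)))))))) (.g (nat_lit 8) .nil .nil)))) (.nd (nat_lit 5) 
(.lf (nat_lit 59167) (.g (nat_lit 3360) (.e (nat_lit 1512) (nat_lit 108) (.e (nat_lit 336390) (nat_lit 27) (.e (nat_lit 426343) (nat_lit 14) (.e (nat_lit 491549) (nat_lit 9) (.e (nat_lit 336421) (nat_lit 28) (.e (nat_lit 434179) (nat_lit 0) .nil)))))) (.g (nat_lit 0) .nil .nil))) 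
(.lf (nat_lit 59199) (.g (nat_lit 3307) (.e (nat_lit 1515) (nat_lit 108) (.e (nat_lit 336017) (nat_lit 3) (.e (nat_lit 98350) (nat_lit 24) (.e (nat_lit 409641) (nat_lit 17) (.e (nat_lit 294928) (nat_lit 2) (.e (nat_lit 90165) (nat_lit 12) (.e (nat_lit 164237) (nat_lit 187) .nil))))))) (.g (nat_lit 5) .nil .nil)))))))))

noncomputable def tv815 : DT := (.nd (nat_lit 0) (.nd (nat_lit 1) (.nd (nat_lit 2) (.nd (nat_lit 3) (.nd (nat_lit 4) (.nd (nat_lit 5) 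
(.lf (nat_lit 59200) (.g (nat_lit 2265) (.e (nat_lit 1515) (nat_lit 108) (.e (nat_lit 336017) (nat_lit 3) (.e (nat_lit 98350) (nat_lit 24) (.e (nat_lit 409649) (nat_lit 18) (.e (nat_lit 303111) (nat_lit 0) (.e (nat_lit 3205) (nat_lit 194) (.e (nat_lit 507928) (nat_lit 10) (.e (nat_lit 5353) (nat_lit 298) .nil)))))))) (.g (nat_lit 5) .nil .nil))) 
(.lf (nat_lit 59232) (.g (nat_lit 2978) (.e (nat_lit 1515) (nat_lit 108) (.e (nat_lit 336305) (nat_lit 15) (.e (nat_lit 3308) (nat_lit 202) (.e (nat_lit 573493) (nat_lit 15) (.e (nat_lit 81953) (nat_lit 22) (.e (nat_lit 90165) (nat_lit 12) (.e (nat_lit 164236) (nat_lit 187) .nil))))))) (.g (nat_lit 7) .nil .nil)))) (.nd (nat_lit 5) 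
(.lf (nat_lit 59216) (.g (nat_lit 3262) (.e (nat_lit 1515) (nat_lit 108) (.e (nat_lit 336241) (nat_lit 15) (.e (nat_lit 7064) (nat_lit 377) (.e (nat_lit 1349) (nat_lit 102) (.e (nat_lit 286761) (nat_lit 13) (.e (nat_lit 393234) (nat_lit 17) (.e (nat_lit 7507) (nat_lit 402) .nil))))))) (.g (nat_lit 7) .nil .nil))) 
(.lf (nat_lit 59248) (.g (nat_lit 3324) (.e (nat_lit 1515) (nat_lit 108) (.e (nat_lit 336390) (nat_lit 27) (.e (nat_lit 426343) (nat_lit 14) (.e (nat_lit 491570) (nat_lit 13) (.e (nat_lit 393242) (nat_lit 17) (.e (nat_lit 7550) (nat_lit 402) .nil)))))) (.g (nat_lit 5) .nil .nil))))) (.nd (nat_lit 4) (.nd (nat_lit 5) 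
(.lf (nat_lit 59208) (.g (nat_lit 1733) (.e (nat_lit 1515) (nat_lit 108) (.e (nat_lit 336051) (nat_lit 6) (.e (nat_lit 147495) (nat_lit 11) (.e (nat_lit 24660) (nat_lit 13) .nil)))) .nil)) 
(.lf (nat_lit 59240) (.g (nat_lit 2657) (.e (nat_lit 1515) (nat_lit 108) (.e (nat_lit 336390) (nat_lit 27) (.e (nat_lit 426341) (nat_lit 14) (.e (nat_lit 491549) (nat_lit 9) (.e (nat_lit 336421) (nat_lit 28) (.e (nat_lit 434179) (nat_lit 0) .nil)))))) (.g (nat_lit 5) .nil .nil)))) (.nd (nat_lit 5) 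
(.lf (nat_lit 59224) (.g (nat_lit 3416) (.e (nat_lit 1515) (nat_lit 108) (.e (nat_lit 336300) (nat_lit 15) (.e (nat_lit 3305) (nat_lit 202) (.e (nat_lit 573493) (nat_lit 15) (.e (nat_lit 81956) (nat_lit 23) (.e (nat_lit 98325) (nat_lit 17) (.e (nat_lit 7550) (nat_lit 402) .nil))))))) (.g (nat_lit 0) .nil .nil))) 
(.lf (nat_lit 59256) (.g (nat_lit 2516) (.e (nat_lit 1516) (nat_lit 108) (.e (nat_lit 336017) (nat_lit 3) (.e (nat_lit 98350) (nat_lit 24) (.e (nat_lit 409616) (nat_lit 10) (.e (nat_lit 5355) (nat_lit 298) .nil))))) .nil))))) (.nd (nat_lit 3) (.nd (nat_lit 4) (.nd (nat_lit 5) 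
(.lf (nat_lit 59204) (.g (nat_lit 324) (.e (nat_lit 1515) (nat_lit 108) (.e (nat_lit 336051) (nat_lit 6) (.e (nat_lit 147495) (nat_lit 11) .nil))) .nil)) 
(.lf (nat_lit 59236) (.g (nat_lit 2846) (.e (nat_lit 1515) (nat_lit 108) (.e (nat_lit 336378) (nat_lit 27) (.e (nat_lit 426347) (nat_lit 14) (.e (nat_lit 491550) (nat_lit 9) (.e (nat_lit 336421) (nat_lit 28) (.e (nat_lit 434179) (nat_lit 0) .nil)))))) (.g (nat_lit 0) .nil .nil)))) (.nd (nat_lit 5) 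
(.lf (nat_lit 59220) (.g (nat_lit 3953) (.e (nat_lit 1515) (nat_lit 108) (.e (nat_lit 336300) (nat_lit 15) (.e (nat_lit 3305) (nat_lit 202) (.e (nat_lit 573485) (nat_lit 13) (.e (nat_lit 65604) (nat_lit 9) (.e (nat_lit 336013) (nat_lit 2) (.e (nat_lit 90165) (nat_lit 12) (.e (nat_lit 164236) (nat_lit 187) .nil)))))))) (.g (nat_lit 8) .nil .nil))) 
(.lf (nat_lit 59252) (.g (nat_lit 1226) (.e (nat_lit 1515) (nat_lit 108) (.e (nat_lit 336420) (nat_lit 28) (.e (nat_lit 434181) (nat_lit 0) (.e (nat_lit 1426) (nat_lit 108) (.e (nat_lit 336421) (nat_lit 28) (.e (nat_lit 434178) (nat_lit 0) .nil)))))) (.g (nat_lit 6) .nil .nil))))) (.nd (nat_lit 4) (.nd (nat_lit 5) 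
(.lf (nat_lit 59212) (.g (nat_lit 2920) (.e (nat_lit 1515) (nat_lit 108) (.e (nat_lit 336235) (nat_lit 14) (.e (nat_lit 401437) (nat_lit 9) (.e (nat_lit 426546) (nat_lit 30) (.e (nat_lit 360486) (nat_lit 18) .nil))))) .nil)) 
(.lf (nat_lit 59244) (.g (nat_lit 3260) (.e (nat_lit 1515) (nat_lit 108) (.e (nat_lit 336390) (nat_lit 27) (.e (nat_lit 426343) (nat_lit 14) (.e (nat_lit 491549) (nat_lit 9) (.e (nat_lit 336421) (nat_lit 28) (.e (nat_lit 434179) (nat_lit 0) .nil)))))) (.g (nat_lit 5) .nil .nil)))) (.nd (nat_lit 5) 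
(.lf (nat_lit 59228) (.g (nat_lit 2901) (.e (nat_lit 1515) (nat_lit 108) (.e (nat_lit 336305) (nat_lit 15) (.e (nat_lit 3298) (nat_lit 202) (.e (nat_lit 573493) (nat_lit 15) (.e (nat_lit 81953) (nat_lit 22) (.e (nat_lit 90165) (nat_lit 12) (.e (nat_lit 164237) (nat_lit 187) .nil))))))) (.g (nat_lit 6) .nil .nil))) 
(.lf (nat_lit 59260) (.g (nat_lit 2882) (.e (nat_lit 1516) (nat_lit 108) (.e (nat_lit 336305) (nat_lit 15) (.e (nat_lit 3298) (nat_lit 202) (.e (nat_lit 573493) (nat_lit 15) (.e (nat_lit 81953) (nat_lit 22) (.e (nat_lit 90165) (nat_lit 12) (.e (nat_lit 164237) (nat_lit 187) .nil))))))) (.g (nat_lit 6) .nil .nil))))))) (.nd (nat_lit 2) (.nd (nat_lit 3) (.nd (nat_lit 4) (.nd (nat_lit 5) 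
(.lf (nat_lit 59202) (.g (nat_lit 3374) (.e (nat_lit 1515) (nat_lit 108) (.e (nat_lit 336017) (nat_lit 3) (.e (nat_lit 98389) (nat_lit 33) (.e (nat_lit 491546) (nat_lit 9) (.e (nat_lit 336013) (nat_lit 2) (.e (nat_lit 90165) (nat_lit 12) (.e (nat_lit 164237) (nat_lit 187) .nil))))))) (.g (nat_lit 7) .nil .nil))) 
(.lf (nat_lit 59234) (.g (nat_lit 2013) (.e (nat_lit 1515) (nat_lit 108) (.e (nat_lit 336331) (nat_lit 19) (.e (nat_lit 220928) (nat_lit 4) (.e (nat_lit 65630) (nat_lit 14) (.e (nat_lit 401454) (nat_lit 12) (.e (nat_lit 483072) (nat_lit 8) .nil)))))) (.g (nat_lit 5) .nil .nil)))) (.nd (nat_lit 5) 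
(.lf (nat_lit 59218) (.g (nat_lit 3154) (.e (nat_lit 1515) (nat_lit 108) (.e (nat_lit 336241) (nat_lit 15) (.e (nat_lit 7064) (nat_lit 377) (.e (nat_lit 1349) (nat_lit 102) (.e (nat_lit 286761) (nat_lit 13) (.e (nat_lit 393234) (nat_lit 17) (.e (nat_lit 7936) (nat_lit 402) .nil))))))) (.g (nat_lit 6) .nil .nil))) 
(.lf (nat_lit 59250) (.g (nat_lit 950) (.e (nat_lit 1515) (nat_lit 108) (.e (nat_lit 336420) (nat_lit 28) (.e (nat_lit 434180) (nat_lit 0) (.e (nat_lit 1426) (nat_lit 108) (.e (nat_lit 336421) (nat_lit 28) (.e (nat_lit 434179) (nat_lit 0) .nil)))))) (.g (nat_lit 5) .nil .nil))))) (.nd (nat_lit 4) (.nd (nat_lit 5) 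
(.lf (nat_lit 59210) (.g (nat_lit 694) (.e (nat_lit 1515) (nat_lit 108) (.e (nat_lit 336119) (nat_lit 9) (.e (nat_lit 336449) (nat_lit 33) (.e (nat_lit 483072) (nat_lit 5) (.e (nat_lit 180248) (nat_lit 9) (.e (nat_lit 573184) (nat_lit 0) .nil)))))) (.g (nat_lit 5) .nil .nil))) 
(.lf (nat_lit 59242) (.g (nat_lit 2886) (.e (nat_lit 1515) (nat_lit 108) (.e (nat_lit 336390) (nat_lit 27) (.e (nat_lit 426341) (nat_lit 14) (.e (nat_lit 491550) (nat_lit 9) (.e (nat_lit 336421) (nat_lit 28) (.e (nat_lit 434179) (nat_lit 0) .nil)))))) (.g (nat_lit 0) .nil .nil)))) (.nd (nat_lit 5) 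
(.lf (nat_lit 59226) (.g (nat_lit 2185) (.e (nat_lit 1515) (nat_lit 108) (.e (nat_lit 336305) (nat_lit 15) (.e (nat_lit 3298) (nat_lit 202) (.e (nat_lit 573491) (nat_lit 15) (.e (nat_lit 81951) (nat_lit 22) (.e (nat_lit 90165) (nat_lit 12) (.e (nat_lit 164236) (nat_lit 187) .nil))))))) (.g (nat_lit 7) .nil .nil))) 
(.lf (nat_lit 59258) (.g (nat_lit 2186) (.e (nat_lit 1516) (nat_lit 108) (.e (nat_lit 336305) (nat_lit 15) (.e (nat_lit 3298) (nat_lit 202) (.e (nat_lit 573491) (nat_lit 15) (.e (nat_lit 81951) (nat_lit 22) (.e (nat_lit 90165) (nat_lit 12) (.e (nat_lit 164236) (nat_lit 187) .nil))))))) (.g (nat_lit 0) .nil .nil)))))) (.nd (nat_lit 3) (.nd (nat_lit 4) (.nd (nat_lit 5) 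
(.lf (nat_lit 59206) (.g (nat_lit 1441) (.e (nat_lit 1515) (nat_lit 108) (.e (nat_lit 336051) (nat_lit 6) (.e (nat_lit 147495) (nat_lit 11) (.e (nat_lit 24654) (nat_lit 13) .nil)))) .nil)) 
(.lf (nat_lit 59238) (.g (nat_lit 1110) (.e (nat_lit 1515) (nat_lit 108) (.e (nat_lit 336390) (nat_lit 27) (.e (nat_lit 426011) (nat_lit 0) (.e (nat_lit 7593) (nat_lit 407) (.e (nat_lit 73732) (nat_lit 0) .nil))))) .nil))) (.nd (nat_lit 5) 
(.lf (nat_lit 59222) (.g (nat_lit 3549) (.e (nat_lit 1515) (nat_lit 108) (.e (nat_lit 336300) (nat_lit 15) (.e (nat_lit 3305) (nat_lit 202) (.e (nat_lit 573485) (nat_lit 13) (.e (nat_lit 65604) (nat_lit 9) (.e (nat_lit 336028) (nat_lit 3) (.e (nat_lit 98325) (nat_lit 17) (.e (nat_lit 7550) (nat_lit 402) .nil)))))))) (.g (nat_lit 0) .nil .nil))) 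
(.lf (nat_lit 59254) (.g (nat_lit 2132) (.e (nat_lit 1515) (nat_lit 108) (.e (nat_lit 336429) (nat_lit 29) (.e (nat_lit 442379) (nat_lit 0) (.e (nat_lit 2059) (nat_lit 142) (.e (nat_lit 704595) (nat_lit 5) (.e (nat_lit 180275) (nat_lit 32) .nil)))))) (.g (nat_lit 6) .nil .nil))))) (.nd (nat_lit 4) (.nd (nat_lit 5) 
(.lf (nat_lit 59214) (.g (nat_lit 3239) (.e (nat_lit 1515) (nat_lit 108) (.e (nat_lit 336239) (nat_lit 15) (.e (nat_lit 3309) (nat_lit 202) (.e (nat_lit 573485) (nat_lit 13) (.e (nat_lit 65604) (nat_lit 9) (.e (nat_lit 336013) (nat_lit 2) (.e (nat_lit 90165) (nat_lit 12) (.e (nat_lit 164237) (nat_lit 187) .nil)))))))) (.g (nat_lit 7) .nil .nil))) 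
(.lf (nat_lit 59246) (.g (nat_lit 991) (.e (nat_lit 1515) (nat_lit 108) (.e (nat_lit 336390) (nat_lit 27) (.e (nat_lit 426343) (nat_lit 14) (.e (nat_lit 491570) (nat_lit 13) .nil)))) .nil))) (.nd (nat_lit 5) 
(.lf (nat_lit 59230) (.g (nat_lit 3536) (.e (nat_lit 1515) (nat_lit 108) (.e (nat_lit 336305) (nat_lit 15) (.e (nat_lit 3308) (nat_lit 202) (.e (nat_lit 573482) (nat_lit 13) (.e (nat_lit 65604) (nat_lit 9) (.e (nat_lit 336013) (nat_lit 2) (.e (nat_lit 90165) (nat_lit 12) (.e (nat_lit 164236) (nat_lit 187) .nil)))))))) (.g (nat_lit 8) .nil .nil))) 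
(.lf (nat_lit 59262) (.g (nat_lit 3544) (.e (nat_lit 1516) (nat_lit 108) (.e (nat_lit 336305) (nat_lit 15) (.e (nat_lit 3308) (nat_lit 202) (.e (nat_lit 573482) (nat_lit 13) (.e (nat_lit 65604) (nat_lit 9) (.e (nat_lit 336013) (nat_lit 2) (.e (nat_lit 90165) (nat_lit 12) (.e (nat_lit 164236) (nat_lit 187) .nil)))))))) (.g (nat_lit 0) .nil .nil)))))))) 
(.nd (nat_lit 1) (.nd (nat_lit 2) (.nd (nat_lit 3) (.nd (nat_lit 4) (.nd (nat_lit 5) 
(.lf (nat_lit 59201) (.g (nat_lit 3604) (.e (nat_lit 1515) (nat_lit 108) (.e (nat_lit 336017) (nat_lit 3) (.e (nat_lit 98389) (nat_lit 33) (.e (nat_lit 491546) (nat_lit 9) (.e (nat_lit 336013) (nat_lit 2) (.e (nat_lit 90165) (nat_lit 12) (.e (nat_lit 164236) (nat_lit 187) .nil))))))) (.g (nat_lit 7) .nil .nil))) 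
(.lf (nat_lit 59233) (.g (nat_lit 2748) (.e (nat_lit 1515) (nat_lit 108) (.e (nat_lit 336313) (nat_lit 16) (.e (nat_lit 164119) (nat_lit 128) (.e (nat_lit 1220) (nat_lit 90) (.e (nat_lit 81953) (nat_lit 22) (.e (nat_lit 90165) (nat_lit 12) (.e (nat_lit 164237) (nat_lit 187) .nil))))))) (.g (nat_lit 6) .nil .nil)))) (.nd (nat_lit 5) 
(.lf (nat_lit 59217) (.g (nat_lit 3130) (.e (nat_lit 1515) (nat_lit 108) (.e (nat_lit 336241) (nat_lit 15) (.e (nat_lit 7064) (nat_lit 377) (.e (nat_lit 1349) (nat_lit 102) (.e (nat_lit 286761) (nat_lit 13) (.e (nat_lit 393234) (nat_lit 17) (.e (nat_lit 7565) (nat_lit 402) .nil))))))) (.g (nat_lit 6) .nil .nil))) 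
(.lf (nat_lit 59249) (.g (nat_lit 2231) (.e (nat_lit 1515) (nat_lit 108) (.e (nat_lit 336390) (nat_lit 27) (.e (nat_lit 426344) (nat_lit 14) (.e (nat_lit 491568) (nat_lit 13) (.e (nat_lit 393242) (nat_lit 17) .nil))))) .nil)))) (.nd (nat_lit 4) (.nd (nat_lit 5) 
(.lf (nat_lit 59209) (.g (nat_lit 2422) (.e (nat_lit 1515) (nat_lit 108) (.e (nat_lit 336113) (nat_lit 9) (.e (nat_lit 336369) (nat_lit 27) (.e (nat_lit 426173) (nat_lit 7) (.e (nat_lit 409649) (nat_lit 18) (.e (nat_lit 303111) (nat_lit 0) (.e (nat_lit 3468) (nat_lit 217) (.e (nat_lit 704256) (nat_lit 13) .nil)))))))) (.g (nat_lit 5) .nil .nil))) 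
(.lf (nat_lit 59241) (.g (nat_lit 3070) (.e (nat_lit 1515) (nat_lit 108) (.e (nat_lit 336390) (nat_lit 27) (.e (nat_lit 426341) (nat_lit 14) (.e (nat_lit 491550) (nat_lit 9) (.e (nat_lit 336421) (nat_lit 28) (.e (nat_lit 434178) (nat_lit 0) .nil)))))) (.g (nat_lit 0) .nil .nil)))) (.nd (nat_lit 5) 
(.lf (nat_lit 59225) (.g (nat_lit 3032) (.e (nat_lit 1515) (nat_lit 108) (.e (nat_lit 336305) (nat_lit 15) (.e (nat_lit 3298) (nat_lit 202) (.e (nat_lit 573481) (nat_lit 13) (.e (nat_lit 65604) (nat_lit 9) (.e (nat_lit 336013) (nat_lit 2) (.e (nat_lit 90165) (nat_lit 12) (.e (nat_lit 164236) (nat_lit 187) .nil)))))))) (.g (nat_lit 8) .nil .nil))) 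
(.lf (nat_lit 59257) (.g (nat_lit 3047) (.e (nat_lit 1516) (nat_lit 108) (.e (nat_lit 336305) (nat_lit 15) (.e (nat_lit 3298) (nat_lit 202) (.e (nat_lit 573481) (nat_lit 13) (.e (nat_lit 65604) (nat_lit 9) (.e (nat_lit 336013) (nat_lit 2) (.e (nat_lit 90165) (nat_lit 12) (.e (nat_lit 164236) (nat_lit 187) .nil)))))))) (.g (nat_lit 0) .nil .nil)))))) 
(.nd (nat_lit 3) (.nd (nat_lit 4) (.nd (nat_lit 5) 
(.lf (nat_lit 59205) (.g (nat_lit 1385) (.e (nat_lit 1515) (nat_lit 108) (.e (nat_lit 336051) (nat_lit 6) (.e (nat_lit 147495) (nat_lit 11) (.e (nat_lit 24623) (nat_lit 9) .nil)))) .nil)) 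
(.lf (nat_lit 59237) (.g (nat_lit 1900) (.e (nat_lit 1515) (nat_lit 108) (.e (nat_lit 336390) (nat_lit 27) (.e (nat_lit 426011) (nat_lit 0) (.e (nat_lit 3555) (nat_lit 220) .nil)))) .nil))) (.nd (nat_lit 5) 
(.lf (nat_lit 59221) (.g (nat_lit 3756) (.e (nat_lit 1515) (nat_lit 108) (.e (nat_lit 336300) (nat_lit 15) (.e (nat_lit 3305) (nat_lit 202) (.e (nat_lit 573485) (nat_lit 13) (.e (nat_lit 65604) (nat_lit 9) (.e (nat_lit 336013) (nat_lit 2) (.e (nat_lit 90165) (nat_lit 12) (.e (nat_lit 164237) (nat_lit 187) .nil)))))))) (.g (nat_lit 0) .nil .nil))) 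
(.lf (nat_lit 59253) (.g (nat_lit 1934) (.e (nat_lit 1515) (nat_lit 108) (.e (nat_lit 336420) (nat_lit 28) (.e (nat_lit 434181) (nat_lit 0) (.e (nat_lit 1428) (nat_lit 108) (.e (nat_lit 336421) (nat_lit 28) (.e (nat_lit 434179) (nat_lit 0) .nil)))))) (.g (nat_lit 0) .nil .nil))))) (.nd (nat_lit 4) (.nd (nat_lit 5) 
(.lf (nat_lit 59213) (.g (nat_lit 3411) (.e (nat_lit 1515) (nat_lit 108) (.e (nat_lit 336239) (nat_lit 15) (.e (nat_lit 3309) (nat_lit 202) (.e (nat_lit 573485) (nat_lit 13) (.e (nat_lit 65604) (nat_lit 9) (.e (nat_lit 336013) (nat_lit 2) (.e (nat_lit 90165) (nat_lit 12) (.e (nat_lit 164236) (nat_lit 187) .nil)))))))) (.g (nat_lit 7) .nil .nil))) 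
(.lf (nat_lit 59245) (.g (nat_lit 1094) (.e (nat_lit 1515) (nat_lit 108) (.e (nat_lit 336390) (nat_lit 27) (.e (nat_lit 426343) (nat_lit 14) (.e (nat_lit 491560) (nat_lit 10) .nil)))) .nil))) (.nd (nat_lit 5) 
(.lf (nat_lit 59229) (.g (nat_lit 3751) (.e (nat_lit 1515) (nat_lit 108) (.e (nat_lit 336305) (nat_lit 15) (.e (nat_lit 3307) (nat_lit 202) (.e (nat_lit 573485) (nat_lit 13) (.e (nat_lit 65604) (nat_lit 9) (.e (nat_lit 336013) (nat_lit 2) (.e (nat_lit 90165) (nat_lit 12) (.e (nat_lit 164236) (nat_lit 187) .nil)))))))) (.g (nat_lit 8) .nil .nil))) 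
(.lf (nat_lit 59261) (.g (nat_lit 3763) (.e (nat_lit 1516) (nat_lit 108) (.e (nat_lit 336305) (nat_lit 15) (.e (nat_lit 3307) (nat_lit 202) (.e (nat_lit 573485) (nat_lit 13) (.e (nat_lit 65604) (nat_lit 9) (.e (nat_lit 336013) (nat_lit 2) (.e (nat_lit 90165) (nat_lit 12) (.e (nat_lit 164236) (nat_lit 187) .nil)))))))) (.g (nat_lit 0) .nil .nil))))))) 
(.nd (nat_lit 2) (.nd (nat_lit 3) (.nd (nat_lit 4) (.nd (nat_lit 5) 
(.lf (nat_lit 59203) (.g (nat_lit 3144) (.e (nat_lit 1515) (nat_lit 108) (.e (nat_lit 336017) (nat_lit 3) (.e (nat_lit 98389) (nat_lit 33) (.e (nat_lit 491546) (nat_lit 9) (.e (nat_lit 336028) (nat_lit 3) (.e (nat_lit 98325) (nat_lit 17) (.e (nat_lit 7550) (nat_lit 402) .nil))))))) (.g (nat_lit 7) .nil .nil))) 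
(.lf (nat_lit 59235) (.g (nat_lit 3049) (.e (nat_lit 1515) (nat_lit 108) (.e (nat_lit 336378) (nat_lit 27) (.e (nat_lit 426347) (nat_lit 14) (.e (nat_lit 491550) (nat_lit 9) (.e (nat_lit 336421) (nat_lit 28) (.e (nat_lit 434178) (nat_lit 0) .nil)))))) (.g (nat_lit 6) .nil .nil)))) (.nd (nat_lit 5) 
(.lf (nat_lit 59219) (.g (nat_lit 3600) (.e (nat_lit 1515) (nat_lit 108) (.e (nat_lit 336300) (nat_lit 15) (.e (nat_lit 3305) (nat_lit 202) (.e (nat_lit 573482) (nat_lit 13) (.e (nat_lit 65604) (nat_lit 9) (.e (nat_lit 336013) (nat_lit 2) (.e (nat_lit 90165) (nat_lit 12) (.e (nat_lit 164236) (nat_lit 187) .nil)))))))) (.g (nat_lit 7) .nil .nil))) 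
(.lf (nat_lit 59251) (.g (nat_lit 1326) (.e (nat_lit 1515) (nat_lit 108) (.e (nat_lit 336420) (nat_lit 28) (.e (nat_lit 434180) (nat_lit 0) (.e (nat_lit 1661) (nat_lit 115) (.e (nat_lit 393242) (nat_lit 17) (.e (nat_lit 7550) (nat_lit 402) .nil)))))) (.g (nat_lit 5) .nil .nil))))) (.nd (nat_lit 4) (.nd (nat_lit 5) 
(.lf (nat_lit 59211) (.g (nat_lit 1909) (.e (nat_lit 1515) (nat_lit 108) (.e (nat_lit 336235) (nat_lit 14) (.e (nat_lit 401437) (nat_lit 9) (.e (nat_lit 426546) (nat_lit 30) .nil)))) .nil)) 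
(.lf (nat_lit 59243) (.g (nat_lit 3518) (.e (nat_lit 1515) (nat_lit 108) (.e (nat_lit 336390) (nat_lit 27) (.e (nat_lit 426343) (nat_lit 14) (.e (nat_lit 491549) (nat_lit 9) (.e (nat_lit 336421) (nat_lit 28) (.e (nat_lit 434178) (nat_lit 0) .nil)))))) (.g (nat_lit 6) .nil .nil)))) (.nd (nat_lit 5) 
(.lf (nat_lit 59227) (.g (nat_lit 2342) (.e (nat_lit 1515) (nat_lit 108) (.e (nat_lit 336305) (nat_lit 15) (.e (nat_lit 3298) (nat_lit 202) (.e (nat_lit 573492) (nat_lit 15) (.e (nat_lit 81953) (nat_lit 22) (.e (nat_lit 90165) (nat_lit 12) (.e (nat_lit 164236) (nat_lit 187) .nil))))))) (.g (nat_lit 7) .nil .nil))) 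
(.lf (nat_lit 59259) (.g (nat_lit 2345) (.e (nat_lit 1516) (nat_lit 108) (.e (nat_lit 336305) (nat_lit 15) (.e (nat_lit 3298) (nat_lit 202) (.e (nat_lit 573492) (nat_lit 15) (.e (nat_lit 81953) (nat_lit 22) (.e (nat_lit 90165) (nat_lit 12) (.e (nat_lit 164236) (nat_lit 187) .nil))))))) (.g (nat_lit 0) .nil .nil)))))) (.nd (nat_lit 3) (.nd (nat_lit 4) (.nd (nat_lit 5) 
(.lf (nat_lit 59207) (.g (nat_lit 1758) (.e (nat_lit 1515) (nat_lit 108) (.e (nat_lit 336051) (nat_lit 6) (.e (nat_lit 147495) (nat_lit 11) (.e (nat_lit 24657) (nat_lit 13) .nil)))) .nil)) 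
(.lf (nat_lit 59239) (.g (nat_lit 2803) (.e (nat_lit 1515) (nat_lit 108) (.e (nat_lit 336390) (nat_lit 27) (.e (nat_lit 426341) (nat_lit 14) (.e (nat_lit 491549) (nat_lit 9) (.e (nat_lit 336421) (nat_lit 28) (.e (nat_lit 434178) (nat_lit 0) .nil)))))) (.g (nat_lit 6) .nil .nil)))) (.nd (nat_lit 5) 
(.lf (nat_lit 59223) (.g (nat_lit 2410) (.e (nat_lit 1515) (nat_lit 108) (.e (nat_lit 336300) (nat_lit 15) (.e (nat_lit 3305) (nat_lit 202) (.e (nat_lit 573491) (nat_lit 15) (.e (nat_lit 81954) (nat_lit 23) (.e (nat_lit 98325) (nat_lit 17) (.e (nat_lit 7550) (nat_lit 402) .nil))))))) (.g (nat_lit 0) .nil .nil))) 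
(.lf (nat_lit 59255) (.g (nat_lit 3155) (.e (nat_lit 1516) (nat_lit 108) (.e (nat_lit 335998) (nat_lit 1) (.e (nat_lit 57681) (nat_lit 155) (.e (nat_lit 122919) (nat_lit 15) (.e (nat_lit 360451) (nat_lit 0) (.e (nat_lit 7247) (nat_lit 383) (.e (nat_lit 8193) (nat_lit 0) (.e (nat_lit 5353) (nat_lit 298) .nil)))))))) (.g (nat_lit 6) .nil .nil))))) (.nd (nat_lit 4) (.nd (nat_lit 5) 
(.lf (nat_lit 59215) (.g (nat_lit 3530) (.e (nat_lit 1515) (nat_lit 108) (.e (nat_lit 336241) (nat_lit 15) (.e (nat_lit 7064) (nat_lit 377) (.e (nat_lit 1349) (nat_lit 102) (.e (nat_lit 286761) (nat_lit 13) (.e (nat_lit 393234) (nat_lit 17) (.e (nat_lit 7502) (nat_lit 402) .nil))))))) (.g (nat_lit 6) .nil .nil))) 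
(.lf (nat_lit 59247) (.g (nat_lit 1968) (.e (nat_lit 1515) (nat_lit 108) (.e (nat_lit 336390) (nat_lit 27) (.e (nat_lit 426343) (nat_lit 14) (.e (nat_lit 491570) (nat_lit 13) (.e (nat_lit 393238) (nat_lit 17) .nil))))) .nil))) (.nd (nat_lit 5) 
(.lf (nat_lit 59231) (.g (nat_lit 2277) (.e (nat_lit 1515) (nat_lit 108) (.e (nat_lit 336305) (nat_lit 15) (.e (nat_lit 3308) (nat_lit 202) (.e (nat_lit 573491) (nat_lit 15) (.e (nat_lit 81951) (nat_lit 22) (.e (nat_lit 90165) (nat_lit 12) (.e (nat_lit 164236) (nat_lit 187) .nil))))))) (.g (nat_lit 7) .nil .nil))) 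
(.lf (nat_lit 59263) (.g (nat_lit 2272) (.e (nat_lit 1516) (nat_lit 108) (.e (nat_lit 336305) (nat_lit 15) (.e (nat_lit 3308) (nat_lit 202) (.e (nat_lit 573491) (nat_lit 15) (.e (nat_lit 81951) (nat_lit 22) (.e (nat_lit 90165) (nat_lit 12) (.e (nat_lit 164236) (nat_lit 187) .nil))))))) (.g (nat_lit 0) .nil .nil)))))))))

noncomputable def tv816 : DT := (.nd (nat_lit 0) (.nd (nat_lit 1) (.nd (nat_lit 2) (.nd (nat_lit 3) (.nd (nat_lit 4) (.nd (nat_lit 5) (.nd (nat_lit 6) 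
(.lf (nat_lit 59264) (.g (nat_lit 2974) (.e (nat_lit 1516) (nat_lit 108) (.e (nat_lit 336305) (nat_lit 15) (.e (nat_lit 3308) (nat_lit 202) (.e (nat_lit 573493) (nat_lit 15) (.e (nat_lit 81953) (nat_lit 22) (.e (nat_lit 90165) (nat_lit 12) (.e (nat_lit 164236) (nat_lit 187) .nil))))))) (.g (nat_lit 0) .nil .nil))) 
(.lf (nat_lit 59328) (.g (nat_lit 1282) (.e (nat_lit 1521) (nat_lit 108) (.e (nat_lit 336204) (nat_lit 12) (.e (nat_lit 385074) (nat_lit 31) (.e (nat_lit 573489) (nat_lit 14) .nil)))) .nil))) (.nd (nat_lit 6) 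
(.lf (nat_lit 59296) (.g (nat_lit 3234) (.e (nat_lit 1520) (nat_lit 108) (.e (nat_lit 336027) (nat_lit 3) (.e (nat_lit 98373) (nat_lit 29) (.e (nat_lit 450587) (nat_lit 10) (.e (nat_lit 573475) (nat_lit 12) .nil))))) .nil)) 
(.lf (nat_lit 59360) (.g (nat_lit 699) (.e (nat_lit 1523) (nat_lit 108) (.e (nat_lit 336204) (nat_lit 12) (.e (nat_lit 385074) (nat_lit 31) .nil))) .nil)))) (.nd (nat_lit 5) (.nd (nat_lit 6) 
(.lf (nat_lit 59280) (.g (nat_lit 2230) (.e (nat_lit 1517) (nat_lit 108) (.e (nat_lit 336305) (nat_lit 15) (.e (nat_lit 3308) (nat_lit 202) (.e (nat_lit 573491) (nat_lit 15) (.e (nat_lit 81951) (nat_lit 22) (.e (nat_lit 90165) (nat_lit 12) (.e (nat_lit 164236) (nat_lit 187) .nil))))))) (.g (nat_lit 7) .nil .nil))) 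
(.lf (nat_lit 59344) (.g (nat_lit 3564) (.e (nat_lit 1522) (nat_lit 108) (.e (nat_lit 336223) (nat_lit 13) (.e (nat_lit 393301) (nat_lit 27) (.e (nat_lit 491560) (nat_lit 10) (.e (nat_lit 344097) (nat_lit 18) .nil))))) .nil))) (.nd (nat_lit 6) 
(.lf (nat_lit 59312) (.g (nat_lit 2408) (.e (nat_lit 1521) (nat_lit 108) (.e (nat_lit 336027) (nat_lit 3) (.e (nat_lit 98372) (nat_lit 29) (.e (nat_lit 450586) (nat_lit 10) (.e (nat_lit 573473) (nat_lit 12) .nil))))) .nil)) 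
(.lf (nat_lit 59376) (.g (nat_lit 2325) (.e (nat_lit 1524) (nat_lit 108) (.e (nat_lit 335986) (nat_lit 1) (.e (nat_lit 57655) (nat_lit 152) (.e (nat_lit 1207) (nat_lit 89) (.e (nat_lit 73755) (nat_lit 8) (.e (nat_lit 557105) (nat_lit 14) (.e (nat_lit 180265) (nat_lit 21) (.e (nat_lit 663555) (nat_lit 0) .nil)))))))) (.g (nat_lit 5) .nil .nil)))))) 
(.nd (nat_lit 4) (.nd (nat_lit 5) (.nd (nat_lit 6) 
(.lf (nat_lit 59272) (.g (nat_lit 1307) (.e (nat_lit 1516) (nat_lit 108) (.e (nat_lit 336420) (nat_lit 28) (.e (nat_lit 434180) (nat_lit 0) (.e (nat_lit 1661) (nat_lit 115) (.e (nat_lit 393242) (nat_lit 17) (.e (nat_lit 7550) (nat_lit 402) .nil)))))) (.g (nat_lit 5) .nil .nil))) 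
(.lf (nat_lit 59336) (.g (nat_lit 3477) (.e (nat_lit 1521) (nat_lit 108) (.e (nat_lit 336223) (nat_lit 13) (.e (nat_lit 393301) (nat_lit 27) (.e (nat_lit 491560) (nat_lit 10) (.e (nat_lit 344090) (nat_lit 18) .nil))))) .nil))) (.nd (nat_lit 6) 
(.lf (nat_lit 59304) (.g (nat_lit 3210) (.e (nat_lit 1520) (nat_lit 108) (.e (nat_lit 336223) (nat_lit 13) (.e (nat_lit 393301) (nat_lit 27) (.e (nat_lit 491558) (nat_lit 10) (.e (nat_lit 344096) (nat_lit 18) .nil))))) .nil)) 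
(.lf (nat_lit 59368) (.g (nat_lit 2437) (.e (nat_lit 1523) (nat_lit 108) (.e (nat_lit 336223) (nat_lit 13) (.e (nat_lit 393234) (nat_lit 17) (.e (nat_lit 7593) (nat_lit 407) (.e (nat_lit 73729) (nat_lit 0) .nil))))) .nil)))) (.nd (nat_lit 5) (.nd (nat_lit 6) 
(.lf (nat_lit 59288) (.g (nat_lit 1217) (.e (nat_lit 1517) (nat_lit 108) (.e (nat_lit 336420) (nat_lit 28) (.e (nat_lit 434181) (nat_lit 0) (.e (nat_lit 1426) (nat_lit 108) (.e (nat_lit 336421) (nat_lit 28) (.e (nat_lit 434178) (nat_lit 0) .nil)))))) (.g (nat_lit 6) .nil .nil))) 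
(.lf (nat_lit 59352) (.g (nat_lit 3955) (.e (nat_lit 1523) (nat_lit 108) (.e (nat_lit 336027) (nat_lit 3) (.e (nat_lit 98373) (nat_lit 29) (.e (nat_lit 450587) (nat_lit 10) (.e (nat_lit 573473) (nat_lit 12) .nil))))) .nil))) (.nd (nat_lit 6) 
(.lf (nat_lit 59320) (.g (nat_lit 1381) (.e (nat_lit 1521) (nat_lit 108) (.e (nat_lit 336088) (nat_lit 9) (.e (nat_lit 336324) (nat_lit 18) (.e (nat_lit 204837) (nat_lit 20) .nil)))) .nil)) 
(.lf (nat_lit 59384) (.g (nat_lit 1844) (.e (nat_lit 1524) (nat_lit 108) (.e (nat_lit 335988) (nat_lit 1) (.e (nat_lit 57931) (nat_lit 282) (.e (nat_lit 163902) (nat_lit 12) .nil)))) .nil)))))) (.nd (nat_lit 3) (.nd (nat_lit 4) (.nd (nat_lit 5) (.nd (nat_lit 6) 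
(.lf (nat_lit 59268) (.g (nat_lit 1819) (.e (nat_lit 1516) (nat_lit 108) (.e (nat_lit 336394) (nat_lit 27) (.e (nat_lit 426340) (nat_lit 14) (.e (nat_lit 491550) (nat_lit 9) (.e (nat_lit 336421) (nat_lit 28) (.e (nat_lit 434178) (nat_lit 0) .nil)))))) (.g (nat_lit 0) .nil .nil))) 
(.lf (nat_lit 59332) (.g (nat_lit 3316) (.e (nat_lit 1521) (nat_lit 108) (.e (nat_lit 336223) (nat_lit 13) (.e (nat_lit 393301) (nat_lit 27) (.e (nat_lit 491558) (nat_lit 10) (.e (nat_lit 344091) (nat_lit 18) .nil))))) .nil))) (.nd (nat_lit 6) 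
(.lf (nat_lit 59300) (.g (nat_lit 2936) (.e (nat_lit 1520) (nat_lit 108) (.e (nat_lit 336204) (nat_lit 12) (.e (nat_lit 385074) (nat_lit 31) (.e (nat_lit 573482) (nat_lit 13) .nil)))) .nil)) 
(.lf (nat_lit 59364) (.g (nat_lit 3394) (.e (nat_lit 1523) (nat_lit 108) (.e (nat_lit 336204) (nat_lit 12) (.e (nat_lit 385074) (nat_lit 31) (.e (nat_lit 573485) (nat_lit 13) .nil)))) .nil)))) (.nd (nat_lit 5) (.nd (nat_lit 6) 
(.lf (nat_lit 59284) (.g (nat_lit 1749) (.e (nat_lit 1517) (nat_lit 108) (.e (nat_lit 336394) (nat_lit 27) (.e (nat_lit 426340) (nat_lit 14) (.e (nat_lit 491550) (nat_lit 9) (.e (nat_lit 336421) (nat_lit 28) (.e (nat_lit 434178) (nat_lit 0) .nil)))))) (.g (nat_lit 6) .nil .nil))) 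
(.lf (nat_lit 59348) (.g (nat_lit 1758) (.e (nat_lit 1523) (nat_lit 108) (.e (nat_lit 336025) (nat_lit 3) (.e (nat_lit 98373) (nat_lit 29) (.e (nat_lit 450587) (nat_lit 10) (.e (nat_lit 573475) (nat_lit 12) .nil))))) .nil))) (.nd (nat_lit 6) 
(.lf (nat_lit 59316) (.g (nat_lit 3320) (.e (nat_lit 1521) (nat_lit 108) (.e (nat_lit 336027) (nat_lit 3) (.e (nat_lit 98373) (nat_lit 29) (.e (nat_lit 450587) (nat_lit 10) (.e (nat_lit 573477) (nat_lit 12) .nil))))) .nil)) 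
(.lf (nat_lit 59380) (.g (nat_lit 2305) (.e (nat_lit 1524) (nat_lit 108) (.e (nat_lit 335986) (nat_lit 1) (.e (nat_lit 57847) (nat_lit 252) (.e (nat_lit 57368) (nat_lit 1) (.e (nat_lit 57851) (nat_lit 252) (.e (nat_lit 57427) (nat_lit 15) (.e (nat_lit 360478) (nat_lit 12) (.e (nat_lit 622605) (nat_lit 5) .nil)))))))) (.g (nat_lit 4) .nil .nil)))))) 
(.nd (nat_lit 4) (.nd (nat_lit 5) (.nd (nat_lit 6) 
(.lf (nat_lit 59276) (.g (nat_lit 2283) (.e (nat_lit 1517) (nat_lit 108) (.e (nat_lit 336305) (nat_lit 15) (.e (nat_lit 3298) (nat_lit 202) (.e (nat_lit 573492) (nat_lit 15) (.e (nat_lit 81953) (nat_lit 22) (.e (nat_lit 90165) (nat_lit 12) (.e (nat_lit 164236) (nat_lit 187) .nil))))))) (.g (nat_lit 7) .nil .nil))) 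
(.lf (nat_lit 59340) (.g (nat_lit 1632) (.e (nat_lit 1522) (nat_lit 108) (.e (nat_lit 335995) (nat_lit 1) (.e (nat_lit 57872) (nat_lit 264) (.e (nat_lit 1221) (nat_lit 90) .nil)))) .nil))) (.nd (nat_lit 6) 
(.lf (nat_lit 59308) (.g (nat_lit 3489) (.e (nat_lit 1521) (nat_lit 108) (.e (nat_lit 336011) (nat_lit 2) (.e (nat_lit 90170) (nat_lit 13) (.e (nat_lit 172113) (nat_lit 10) (.e (nat_lit 434245) (nat_lit 28) .nil))))) .nil)) 
(.lf (nat_lit 59372) (.g (nat_lit 3220) (.e (nat_lit 1523) (nat_lit 108) (.e (nat_lit 336223) (nat_lit 13) (.e (nat_lit 393301) (nat_lit 27) (.e (nat_lit 491559) (nat_lit 10) (.e (nat_lit 344177) (nat_lit 43) .nil))))) .nil)))) (.nd (nat_lit 5) (.nd (nat_lit 6) 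
(.lf (nat_lit 59292) (.g (nat_lit 1269) (.e (nat_lit 1518) (nat_lit 108) (.e (nat_lit 336119) (nat_lit 9) (.e (nat_lit 336323) (nat_lit 18) (.e (nat_lit 204838) (nat_lit 20) (.e (nat_lit 122624) (nat_lit 12) (.e (nat_lit 434219) (nat_lit 19) (.e (nat_lit 499965) (nat_lit 14) .nil))))))) (.g (nat_lit 4) .nil .nil))) 
(.lf (nat_lit 59356) (.g (nat_lit 3400) (.e (nat_lit 1523) (nat_lit 108) (.e (nat_lit 336027) (nat_lit 3) (.e (nat_lit 98373) (nat_lit 29) (.e (nat_lit 450588) (nat_lit 10) (.e (nat_lit 573473) (nat_lit 12) .nil))))) .nil))) (.nd (nat_lit 6) 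
(.lf (nat_lit 59324) (.g (nat_lit 3497) (.e (nat_lit 1521) (nat_lit 108) (.e (nat_lit 336204) (nat_lit 12) (.e (nat_lit 385074) (nat_lit 31) (.e (nat_lit 573480) (nat_lit 13) (.e (nat_lit 65630) (nat_lit 14) (.e (nat_lit 401425) (nat_lit 2) (.e (nat_lit 196628) (nat_lit 9) .nil))))))) (.g (nat_lit 6) .nil .nil))) 
(.lf (nat_lit 59388) (.g (nat_lit 1164) (.e (nat_lit 1524) (nat_lit 108) (.e (nat_lit 336004) (nat_lit 2) (.e (nat_lit 90176) (nat_lit 15) (.e (nat_lit 188450) (nat_lit 23) .nil)))) .nil))))))) (.nd (nat_lit 2) (.nd (nat_lit 3) (.nd (nat_lit 4) (.nd (nat_lit 5) (.nd (nat_lit 6) 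
(.lf (nat_lit 59266) (.g (nat_lit 1333) (.e (nat_lit 1516) (nat_lit 108) (.e (nat_lit 336323) (nat_lit 18) (.e (nat_lit 204873) (nat_lit 30) (.e (nat_lit 368676) (nat_lit 21) (.e (nat_lit 516124) (nat_lit 2) .nil))))) .nil)) 
(.lf (nat_lit 59330) (.g (nat_lit 2437) (.e (nat_lit 1521) (nat_lit 108) (.e (nat_lit 336223) (nat_lit 13) (.e (nat_lit 393234) (nat_lit 17) (.e (nat_lit 7593) (nat_lit 407) (.e (nat_lit 73729) (nat_lit 0) .nil))))) .nil))) (.nd (nat_lit 6) 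
(.lf (nat_lit 59298) (.g (nat_lit 3319) (.e (nat_lit 1520) (nat_lit 108) (.e (nat_lit 336027) (nat_lit 3) (.e (nat_lit 98373) (nat_lit 29) (.e (nat_lit 450588) (nat_lit 10) (.e (nat_lit 573475) (nat_lit 12) .nil))))) .nil)) 
(.lf (nat_lit 59362) (.g (nat_lit 4005) (.e (nat_lit 1523) (nat_lit 108) (.e (nat_lit 336204) (nat_lit 12) (.e (nat_lit 385074) (nat_lit 31) (.e (nat_lit 573482) (nat_lit 13) (.e (nat_lit 65628) (nat_lit 14) .nil))))) .nil)))) (.nd (nat_lit 5) (.nd (nat_lit 6) 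
(.lf (nat_lit 59282) (.g (nat_lit 1885) (.e (nat_lit 1517) (nat_lit 108) (.e (nat_lit 336331) (nat_lit 19) (.e (nat_lit 220928) (nat_lit 4) (.e (nat_lit 65630) (nat_lit 14) (.e (nat_lit 401454) (nat_lit 12) (.e (nat_lit 483072) (nat_lit 8) .nil)))))) (.g (nat_lit 5) .nil .nil))) 
(.lf (nat_lit 59346) (.g (nat_lit 3469) (.e (nat_lit 1523) (nat_lit 108) (.e (nat_lit 336011) (nat_lit 2) (.e (nat_lit 90170) (nat_lit 13) (.e (nat_lit 172113) (nat_lit 10) (.e (nat_lit 434245) (nat_lit 28) .nil))))) .nil))) (.nd (nat_lit 6) 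
(.lf (nat_lit 59314) (.g (nat_lit 3941) (.e (nat_lit 1521) (nat_lit 108) (.e (nat_lit 336027) (nat_lit 3) (.e (nat_lit 98373) (nat_lit 29) (.e (nat_lit 450587) (nat_lit 10) (.e (nat_lit 573473) (nat_lit 12) .nil))))) .nil)) 
(.lf (nat_lit 59378) (.g (nat_lit 2485) (.e (nat_lit 1524) (nat_lit 108) (.e (nat_lit 335986) (nat_lit 1) (.e (nat_lit 57847) (nat_lit 252) (.e (nat_lit 57365) (nat_lit 1) (.e (nat_lit 57854) (nat_lit 252) .nil))))) .nil))))) (.nd (nat_lit 4) (.nd (nat_lit 5) (.nd (nat_lit 6) 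
(.lf (nat_lit 59274) (.g (nat_lit 2976) (.e (nat_lit 1517) (nat_lit 108) (.e (nat_lit 336305) (nat_lit 15) (.e (nat_lit 3298) (nat_lit 202) (.e (nat_lit 573481) (nat_lit 13) (.e (nat_lit 65604) (nat_lit 9) (.e (nat_lit 336013) (nat_lit 2) (.e (nat_lit 90165) (nat_lit 12) (.e (nat_lit 164236) (nat_lit 187) .nil)))))))) (.g (nat_lit 8) .nil .nil))) 
(.lf (nat_lit 59338) (.g (nat_lit 3637) (.e (nat_lit 1521) (nat_lit 108) (.e (nat_lit 336223) (nat_lit 13) (.e (nat_lit 393301) (nat_lit 27) (.e (nat_lit 491560) (nat_lit 10) (.e (nat_lit 344096) (nat_lit 18) .nil))))) .nil))) (.nd (nat_lit 6) 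
(.lf (nat_lit 59306) (.g (nat_lit 2196) (.e (nat_lit 1521) (nat_lit 108) (.e (nat_lit 336011) (nat_lit 2) (.e (nat_lit 90170) (nat_lit 13) (.e (nat_lit 172106) (nat_lit 10) (.e (nat_lit 434244) (nat_lit 28) .nil))))) .nil)) 
(.lf (nat_lit 59370) (.g (nat_lit 3291) (.e (nat_lit 1523) (nat_lit 108) (.e (nat_lit 336223) (nat_lit 13) (.e (nat_lit 393301) (nat_lit 27) (.e (nat_lit 491558) (nat_lit 10) (.e (nat_lit 344091) (nat_lit 18) .nil))))) .nil)))) (.nd (nat_lit 5) (.nd (nat_lit 6) 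
(.lf (nat_lit 59290) (.g (nat_lit 1609) (.e (nat_lit 1517) (nat_lit 108) (.e (nat_lit 336429) (nat_lit 29) (.e (nat_lit 442379) (nat_lit 0) (.e (nat_lit 2058) (nat_lit 142) (.e (nat_lit 704595) (nat_lit 5) (.e (nat_lit 180275) (nat_lit 32) .nil)))))) (.g (nat_lit 6) .nil .nil))) 
(.lf (nat_lit 59354) (.g (nat_lit 3334) (.e (nat_lit 1523) (nat_lit 108) (.e (nat_lit 336027) (nat_lit 3) (.e (nat_lit 98373) (nat_lit 29) (.e (nat_lit 450587) (nat_lit 10) (.e (nat_lit 573477) (nat_lit 12) .nil))))) .nil))) (.nd (nat_lit 6) 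
(.lf (nat_lit 59322) (.g (nat_lit 2874) (.e (nat_lit 1521) (nat_lit 108) (.e (nat_lit 336194) (nat_lit 12) (.e (nat_lit 385066) (nat_lit 26) (.e (nat_lit 532513) (nat_lit 3) (.e (nat_lit 122624) (nat_lit 12) (.e (nat_lit 434219) (nat_lit 19) (.e (nat_lit 499965) (nat_lit 14) .nil))))))) (.g (nat_lit 6) .nil .nil))) 
(.lf (nat_lit 59386) (.g (nat_lit 1818) (.e (nat_lit 1524) (nat_lit 108) (.e (nat_lit 336003) (nat_lit 2) (.e (nat_lit 90176) (nat_lit 15) (.e (nat_lit 188450) (nat_lit 23) (.e (nat_lit 212736) (nat_lit 0) .nil))))) .nil)))))) (.nd (nat_lit 3) (.nd (nat_lit 4) (.nd (nat_lit 5) (.nd (nat_lit 6) 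
(.lf (nat_lit 59270) (.g (nat_lit 949) (.e (nat_lit 1516) (nat_lit 108) (.e (nat_lit 336420) (nat_lit 28) (.e (nat_lit 434180) (nat_lit 0) (.e (nat_lit 1426) (nat_lit 108) (.e (nat_lit 336421) (nat_lit 28) (.e (nat_lit 434179) (nat_lit 0) .nil)))))) (.g (nat_lit 5) .nil .nil))) 
(.lf (nat_lit 59334) (.g (nat_lit 3371) (.e (nat_lit 1521) (nat_lit 108) (.e (nat_lit 336223) (nat_lit 13) (.e (nat_lit 393301) (nat_lit 27) (.e (nat_lit 491559) (nat_lit 10) (.e (nat_lit 344091) (nat_lit 18) .nil))))) .nil))) (.nd (nat_lit 6) 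
(.lf (nat_lit 59302) (.g (nat_lit 1796) (.e (nat_lit 1520) (nat_lit 108) (.e (nat_lit 336223) (nat_lit 13) (.e (nat_lit 393234) (nat_lit 17) (.e (nat_lit 7593) (nat_lit 407) .nil)))) .nil)) 
(.lf (nat_lit 59366) (.g (nat_lit 1429) (.e (nat_lit 1523) (nat_lit 108) (.e (nat_lit 336204) (nat_lit 12) (.e (nat_lit 385074) (nat_lit 31) (.e (nat_lit 573489) (nat_lit 14) .nil)))) .nil)))) (.nd (nat_lit 5) (.nd (nat_lit 6) 
(.lf (nat_lit 59286) (.g (nat_lit 1549) (.e (nat_lit 1517) (nat_lit 108) (.e (nat_lit 336420) (nat_lit 28) (.e (nat_lit 434180) (nat_lit 0) (.e (nat_lit 1428) (nat_lit 108) (.e (nat_lit 336421) (nat_lit 28) (.e (nat_lit 434179) (nat_lit 0) .nil)))))) (.g (nat_lit 6) .nil .nil))) 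
(.lf (nat_lit 59350) (.g (nat_lit 2414) (.e (nat_lit 1523) (nat_lit 108) (.e (nat_lit 336027) (nat_lit 3) (.e (nat_lit 98372) (nat_lit 29) (.e (nat_lit 450586) (nat_lit 10) (.e (nat_lit 573473) (nat_lit 12) .nil))))) .nil))) (.nd (nat_lit 6) 
(.lf (nat_lit 59318) (.g (nat_lit 3388) (.e (nat_lit 1521) (nat_lit 108) (.e (nat_lit 336027) (nat_lit 3) (.e (nat_lit 98373) (nat_lit 29) (.e (nat_lit 450588) (nat_lit 10) (.e (nat_lit 573473) (nat_lit 12) .nil))))) .nil)) 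
(.lf (nat_lit 59382) (.g (nat_lit 824) (.e (nat_lit 1524) (nat_lit 108) (.e (nat_lit 335988) (nat_lit 1) (.e (nat_lit 57665) (nat_lit 152) .nil))) .nil))))) (.nd (nat_lit 4) (.nd (nat_lit 5) (.nd (nat_lit 6) 
(.lf (nat_lit 59278) (.g (nat_lit 3691) (.e (nat_lit 1517) (nat_lit 108) (.e (nat_lit 336305) (nat_lit 15) (.e (nat_lit 3307) (nat_lit 202) (.e (nat_lit 573485) (nat_lit 13) (.e (nat_lit 65604) (nat_lit 9) (.e (nat_lit 336013) (nat_lit 2) (.e (nat_lit 90165) (nat_lit 12) (.e (nat_lit 164236) (nat_lit 187) .nil)))))))) (.g (nat_lit 8) .nil .nil))) 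
(.lf (nat_lit 59342) (.g (nat_lit 1879) (.e (nat_lit 1522) (nat_lit 108) (.e (nat_lit 336021) (nat_lit 3) (.e (nat_lit 98320) (nat_lit 17) (.e (nat_lit 7593) (nat_lit 407) (.e (nat_lit 73746) (nat_lit 3) .nil))))) .nil))) (.nd (nat_lit 6) 
(.lf (nat_lit 59310) (.g (nat_lit 1758) (.e (nat_lit 1521) (nat_lit 108) (.e (nat_lit 336025) (nat_lit 3) (.e (nat_lit 98373) (nat_lit 29) (.e (nat_lit 450587) (nat_lit 10) (.e (nat_lit 573475) (nat_lit 12) .nil))))) .nil)) 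
(.lf (nat_lit 59374) (.g (nat_lit 3232) (.e (nat_lit 1523) (nat_lit 108) (.e (nat_lit 336223) (nat_lit 13) (.e (nat_lit 393301) (nat_lit 27) (.e (nat_lit 491560) (nat_lit 10) (.e (nat_lit 344094) (nat_lit 18) .nil))))) .nil)))) (.nd (nat_lit 5) (.nd (nat_lit 6) 
(.lf (nat_lit 59294) (.g (nat_lit 3443) (.e (nat_lit 1520) (nat_lit 108) (.e (nat_lit 336011) (nat_lit 2) (.e (nat_lit 90170) (nat_lit 13) (.e (nat_lit 172113) (nat_lit 10) (.e (nat_lit 434248) (nat_lit 28) .nil))))) .nil)) 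
(.lf (nat_lit 59358) (.g (nat_lit 1403) (.e (nat_lit 1523) (nat_lit 108) (.e (nat_lit 336088) (nat_lit 9) (.e (nat_lit 336324) (nat_lit 18) (.e (nat_lit 204838) (nat_lit 20) .nil)))) .nil))) (.nd (nat_lit 6) 
(.lf (nat_lit 59326) (.g (nat_lit 3765) (.e (nat_lit 1521) (nat_lit 108) (.e (nat_lit 336204) (nat_lit 12) (.e (nat_lit 385074) (nat_lit 31) (.e (nat_lit 573482) (nat_lit 13) (.e (nat_lit 65630) (nat_lit 14) .nil))))) .nil)) 
(.lf (nat_lit 59390) (.g (nat_lit 2210) (.e (nat_lit 1524) (nat_lit 108) (.e (nat_lit 336004) (nat_lit 2) (.e (nat_lit 90176) (nat_lit 15) (.e (nat_lit 188450) (nat_lit 23) (.e (nat_lit 212736) (nat_lit 1) .nil))))) .nil)))))))) (.nd (nat_lit 1) (.nd (nat_lit 2) (.nd (nat_lit 3) (.nd (nat_lit 4) (.nd (nat_lit 5) (.nd (nat_lit 6) 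
(.lf (nat_lit 59265) (.g (nat_lit 1603) (.e (nat_lit 1516) (nat_lit 108) (.e (nat_lit 336323) (nat_lit 18) (.e (nat_lit 204872) (nat_lit 30) (.e (nat_lit 368676) (nat_lit 21) (.e (nat_lit 516124) (nat_lit 2) (.e (nat_lit 220928) (nat_lit 0) (.e (nat_lit 1239) (nat_lit 91) (.e (nat_lit 90119) (nat_lit 0) .nil)))))))) (.g (nat_lit 5) .nil .nil))) 
(.lf (nat_lit 59329) (.g (nat_lit 1814) (.e (nat_lit 1521) (nat_lit 108) (.e (nat_lit 336223) (nat_lit 13) (.e (nat_lit 393234) (nat_lit 17) (.e (nat_lit 7591) (nat_lit 407) .nil)))) .nil))) (.nd (nat_lit 6) 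
(.lf (nat_lit 59297) (.g (nat_lit 3336) (.e (nat_lit 1520) (nat_lit 108) (.e (nat_lit 336027) (nat_lit 3) (.e (nat_lit 98373) (nat_lit 29) (.e (nat_lit 450588) (nat_lit 10) (.e (nat_lit 573473) (nat_lit 12) .nil))))) .nil)) 
(.lf (nat_lit 59361) (.g (nat_lit 3690) (.e (nat_lit 1523) (nat_lit 108) (.e (nat_lit 336204) (nat_lit 12) (.e (nat_lit 385074) (nat_lit 31) (.e (nat_lit 573480) (nat_lit 13) (.e (nat_lit 65630) (nat_lit 14) (.e (nat_lit 401425) (nat_lit 2) (.e (nat_lit 196628) (nat_lit 9) .nil))))))) (.g (nat_lit 6) .nil .nil))))) (.nd (nat_lit 5) (.nd (nat_lit 6) 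
(.lf (nat_lit 59281) (.g (nat_lit 2920) (.e (nat_lit 1517) (nat_lit 108) (.e (nat_lit 336305) (nat_lit 15) (.e (nat_lit 3308) (nat_lit 202) (.e (nat_lit 573493) (nat_lit 15) (.e (nat_lit 81953) (nat_lit 22) (.e (nat_lit 90165) (nat_lit 12) (.e (nat_lit 164236) (nat_lit 187) .nil))))))) (.g (nat_lit 7) .nil .nil))) 
(.lf (nat_lit 59345) (.g (nat_lit 3283) (.e (nat_lit 1523) (nat_lit 108) (.e (nat_lit 336011) (nat_lit 2) (.e (nat_lit 90170) (nat_lit 13) (.e (nat_lit 172113) (nat_lit 10) (.e (nat_lit 434242) (nat_lit 28) .nil))))) .nil))) (.nd (nat_lit 6) 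
(.lf (nat_lit 59313) (.g (nat_lit 2540) (.e (nat_lit 1521) (nat_lit 108) (.e (nat_lit 336027) (nat_lit 3) (.e (nat_lit 98372) (nat_lit 29) (.e (nat_lit 450586) (nat_lit 10) (.e (nat_lit 573475) (nat_lit 12) .nil))))) .nil)) 
(.lf (nat_lit 59377) (.g (nat_lit 2592) (.e (nat_lit 1524) (nat_lit 108) (.e (nat_lit 335986) (nat_lit 1) (.e (nat_lit 57847) (nat_lit 252) (.e (nat_lit 57365) (nat_lit 1) (.e (nat_lit 57852) (nat_lit 252) .nil))))) .nil))))) (.nd (nat_lit 4) (.nd (nat_lit 5) (.nd (nat_lit 6) 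
(.lf (nat_lit 59273) (.g (nat_lit 1280) (.e (nat_lit 1516) (nat_lit 108) (.e (nat_lit 336420) (nat_lit 28) (.e (nat_lit 434181) (nat_lit 0) (.e (nat_lit 1426) (nat_lit 108) (.e (nat_lit 336421) (nat_lit 28) (.e (nat_lit 434178) (nat_lit 0) .nil)))))) (.g (nat_lit 6) .nil .nil))) 
(.lf (nat_lit 59337) (.g (nat_lit 3260) (.e (nat_lit 1521) (nat_lit 108) (.e (nat_lit 336223) (nat_lit 13) (.e (nat_lit 393301) (nat_lit 27) (.e (nat_lit 491560) (nat_lit 10) (.e (nat_lit 344094) (nat_lit 18) .nil))))) .nil))) (.nd (nat_lit 6) 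
(.lf (nat_lit 59305) (.g (nat_lit 3452) (.e (nat_lit 1520) (nat_lit 108) (.e (nat_lit 336223) (nat_lit 13) (.e (nat_lit 393301) (nat_lit 27) (.e (nat_lit 491560) (nat_lit 10) (.e (nat_lit 344090) (nat_lit 18) .nil))))) .nil)) 
(.lf (nat_lit 59369) (.g (nat_lit 2247) (.e (nat_lit 1523) (nat_lit 108) (.e (nat_lit 336223) (nat_lit 13) (.e (nat_lit 393301) (nat_lit 27) (.e (nat_lit 491558) (nat_lit 10) .nil)))) .nil)))) (.nd (nat_lit 5) (.nd (nat_lit 6) 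
(.lf (nat_lit 59289) (.g (nat_lit 2133) (.e (nat_lit 1517) (nat_lit 108) (.e (nat_lit 336420) (nat_lit 28) (.e (nat_lit 434181) (nat_lit 0) (.e (nat_lit 1428) (nat_lit 108) (.e (nat_lit 336421) (nat_lit 28) (.e (nat_lit 434178) (nat_lit 0) .nil)))))) (.g (nat_lit 6) .nil .nil))) 
(.lf (nat_lit 59353) (.g (nat_lit 3304) (.e (nat_lit 1523) (nat_lit 108) (.e (nat_lit 336027) (nat_lit 3) (.e (nat_lit 98373) (nat_lit 29) (.e (nat_lit 450587) (nat_lit 10) (.e (nat_lit 573475) (nat_lit 12) .nil))))) .nil))) (.nd (nat_lit 6) 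
(.lf (nat_lit 59321) (.g (nat_lit 2094) (.e (nat_lit 1521) (nat_lit 108) (.e (nat_lit 336088) (nat_lit 9) (.e (nat_lit 336324) (nat_lit 18) (.e (nat_lit 204838) (nat_lit 20) (.e (nat_lit 122624) (nat_lit 12) .nil))))) .nil)) 
(.lf (nat_lit 59385) (.g (nat_lit 1644) (.e (nat_lit 1524) (nat_lit 108) (.e (nat_lit 335995) (nat_lit 1) (.e (nat_lit 57872) (nat_lit 264) (.e (nat_lit 1172) (nat_lit 87) (.e (nat_lit 57477) (nat_lit 28) .nil))))) .nil)))))) (.nd (nat_lit 3) (.nd (nat_lit 4) (.nd (nat_lit 5) (.nd (nat_lit 6) 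
(.lf (nat_lit 59269) (.g (nat_lit 1160) (.e (nat_lit 1516) (nat_lit 108) (.e (nat_lit 336420) (nat_lit 28) (.e (nat_lit 434180) (nat_lit 0) (.e (nat_lit 1426) (nat_lit 108) (.e (nat_lit 336421) (nat_lit 28) (.e (nat_lit 434178) (nat_lit 0) .nil)))))) (.g (nat_lit 5) .nil .nil))) 
(.lf (nat_lit 59333) (.g (nat_lit 3246) (.e (nat_lit 1521) (nat_lit 108) (.e (nat_lit 336223) (nat_lit 13) (.e (nat_lit 393301) (nat_lit 27) (.e (nat_lit 491558) (nat_lit 10) (.e (nat_lit 344096) (nat_lit 18) .nil))))) .nil))) (.nd (nat_lit 6) 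
(.lf (nat_lit 59301) (.g (nat_lit 1814) (.e (nat_lit 1520) (nat_lit 108) (.e (nat_lit 336223) (nat_lit 13) (.e (nat_lit 393234) (nat_lit 17) (.e (nat_lit 7591) (nat_lit 407) .nil)))) .nil)) 
(.lf (nat_lit 59365) (.g (nat_lit 1525) (.e (nat_lit 1523) (nat_lit 108) (.e (nat_lit 336204) (nat_lit 12) (.e (nat_lit 385074) (nat_lit 31) (.e (nat_lit 573487) (nat_lit 14) .nil)))) .nil)))) (.nd (nat_lit 5) (.nd (nat_lit 6) 
(.lf (nat_lit 59285) (.g (nat_lit 1796) (.e (nat_lit 1517) (nat_lit 108) (.e (nat_lit 336420) (nat_lit 28) (.e (nat_lit 434180) (nat_lit 0) (.e (nat_lit 1428) (nat_lit 108) (.e (nat_lit 336421) (nat_lit 28) (.e (nat_lit 434178) (nat_lit 0) .nil)))))) (.g (nat_lit 6) .nil .nil))) 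
(.lf (nat_lit 59349) (.g (nat_lit 1924) (.e (nat_lit 1523) (nat_lit 108) (.e (nat_lit 336027) (nat_lit 3) (.e (nat_lit 98372) (nat_lit 29) (.e (nat_lit 450586) (nat_lit 10) .nil)))) .nil))) (.nd (nat_lit 6) 
(.lf (nat_lit 59317) (.g (nat_lit 3209) (.e (nat_lit 1521) (nat_lit 108) (.e (nat_lit 336027) (nat_lit 3) (.e (nat_lit 98373) (nat_lit 29) (.e (nat_lit 450587) (nat_lit 10) (.e (nat_lit 573478) (nat_lit 12) .nil))))) .nil)) 
(.lf (nat_lit 59381) (.g (nat_lit 2333) (.e (nat_lit 1524) (nat_lit 108) (.e (nat_lit 335986) (nat_lit 1) (.e (nat_lit 57847) (nat_lit 252) (.e (nat_lit 57368) (nat_lit 1) (.e (nat_lit 57852) (nat_lit 252) (.e (nat_lit 57427) (nat_lit 15) (.e (nat_lit 360478) (nat_lit 12) (.e (nat_lit 622605) (nat_lit 5) .nil)))))))) (.g (nat_lit 4) .nil .nil)))))) 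
(.nd (nat_lit 4) (.nd (nat_lit 5) (.nd (nat_lit 6) 
(.lf (nat_lit 59277) (.g (nat_lit 2866) (.e (nat_lit 1517) (nat_lit 108) (.e (nat_lit 336305) (nat_lit 15) (.e (nat_lit 3298) (nat_lit 202) (.e (nat_lit 573493) (nat_lit 15) (.e (nat_lit 81953) (nat_lit 22) (.e (nat_lit 90165) (nat_lit 12) (.e (nat_lit 164237) (nat_lit 187) .nil))))))) (.g (nat_lit 6) .nil .nil))) 
(.lf (nat_lit 59341) (.g (nat_lit 540) (.e (nat_lit 1522) (nat_lit 108) (.e (nat_lit 336012) (nat_lit 2) (.e (nat_lit 90181) (nat_lit 16) .nil))) .nil))) (.nd (nat_lit 6) 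
(.lf (nat_lit 59309) (.g (nat_lit 3439) (.e (nat_lit 1521) (nat_lit 108) (.e (nat_lit 336011) (nat_lit 2) (.e (nat_lit 90170) (nat_lit 13) (.e (nat_lit 172113) (nat_lit 10) (.e (nat_lit 434248) (nat_lit 28) .nil))))) .nil)) 
(.lf (nat_lit 59373) (.g (nat_lit 3449) (.e (nat_lit 1523) (nat_lit 108) (.e (nat_lit 336223) (nat_lit 13) (.e (nat_lit 393301) (nat_lit 27) (.e (nat_lit 491560) (nat_lit 10) (.e (nat_lit 344090) (nat_lit 18) .nil))))) .nil)))) (.nd (nat_lit 5) (.nd (nat_lit 6) 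
(.lf (nat_lit 59293) (.g (nat_lit 3493) (.e (nat_lit 1520) (nat_lit 108) (.e (nat_lit 336011) (nat_lit 2) (.e (nat_lit 90170) (nat_lit 13) (.e (nat_lit 172113) (nat_lit 10) (.e (nat_lit 434245) (nat_lit 28) .nil))))) .nil)) 
(.lf (nat_lit 59357) (.g (nat_lit 3383) (.e (nat_lit 1523) (nat_lit 108) (.e (nat_lit 336027) (nat_lit 3) (.e (nat_lit 98373) (nat_lit 29) (.e (nat_lit 450588) (nat_lit 10) (.e (nat_lit 573475) (nat_lit 12) .nil))))) .nil))) (.nd (nat_lit 6) 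
(.lf (nat_lit 59325) (.g (nat_lit 3858) (.e (nat_lit 1521) (nat_lit 108) (.e (nat_lit 336204) (nat_lit 12) (.e (nat_lit 385074) (nat_lit 31) (.e (nat_lit 573482) (nat_lit 13) (.e (nat_lit 65628) (nat_lit 14) .nil))))) .nil)) 
(.lf (nat_lit 59389) (.g (nat_lit 2210) (.e (nat_lit 1524) (nat_lit 108) (.e (nat_lit 336004) (nat_lit 2) (.e (nat_lit 90176) (nat_lit 15) (.e (nat_lit 188450) (nat_lit 23) (.e (nat_lit 212736) (nat_lit 0) .nil))))) .nil))))))) (.nd (nat_lit 2) (.nd (nat_lit 3) (.nd (nat_lit 4) (.nd (nat_lit 5) (.nd (nat_lit 6) 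
(.lf (nat_lit 59267) (.g (nat_lit 1423) (.e (nat_lit 1516) (nat_lit 108) (.e (nat_lit 336335) (nat_lit 20) (.e (nat_lit 229120) (nat_lit 5) (.e (nat_lit 114698) (nat_lit 11) (.e (nat_lit 426315) (nat_lit 12) (.e (nat_lit 483072) (nat_lit 8) .nil)))))) (.g (nat_lit 5) .nil .nil))) 
(.lf (nat_lit 59331) (.g (nat_lit 2272) (.e (nat_lit 1521) (nat_lit 108) (.e (nat_lit 336223) (nat_lit 13) (.e (nat_lit 393301) (nat_lit 27) (.e (nat_lit 491558) (nat_lit 10) .nil)))) .nil))) (.nd (nat_lit 6) 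
(.lf (nat_lit 59299) (.g (nat_lit 754) (.e (nat_lit 1520) (nat_lit 108) (.e (nat_lit 336194) (nat_lit 12) (.e (nat_lit 385066) (nat_lit 26) .nil))) .nil)) 
(.lf (nat_lit 59363) (.g (nat_lit 3912) (.e (nat_lit 1523) (nat_lit 108) (.e (nat_lit 336204) (nat_lit 12) (.e (nat_lit 385074) (nat_lit 31) (.e (nat_lit 573482) (nat_lit 13) (.e (nat_lit 65630) (nat_lit 14) .nil))))) .nil)))) (.nd (nat_lit 5) (.nd (nat_lit 6) 
(.lf (nat_lit 59283) (.g (nat_lit 1269) (.e (nat_lit 1517) (nat_lit 108) (.e (nat_lit 336394) (nat_lit 27) (.e (nat_lit 426340) (nat_lit 14) (.e (nat_lit 491549) (nat_lit 9) (.e (nat_lit 336421) (nat_lit 28) (.e (nat_lit 434179) (nat_lit 0) .nil)))))) (.g (nat_lit 6) .nil .nil))) 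
(.lf (nat_lit 59347) (.g (nat_lit 3418) (.e (nat_lit 1523) (nat_lit 108) (.e (nat_lit 336011) (nat_lit 2) (.e (nat_lit 90170) (nat_lit 13) (.e (nat_lit 172113) (nat_lit 10) (.e (nat_lit 434248) (nat_lit 28) .nil))))) .nil))) (.nd (nat_lit 6) 
(.lf (nat_lit 59315) (.g (nat_lit 3289) (.e (nat_lit 1521) (nat_lit 108) (.e (nat_lit 336027) (nat_lit 3) (.e (nat_lit 98373) (nat_lit 29) (.e (nat_lit 450587) (nat_lit 10) (.e (nat_lit 573475) (nat_lit 12) .nil))))) .nil)) 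
(.lf (nat_lit 59379) (.g (nat_lit 1833) (.e (nat_lit 1524) (nat_lit 108) (.e (nat_lit 335986) (nat_lit 1) (.e (nat_lit 57847) (nat_lit 252) (.e (nat_lit 57368) (nat_lit 1) .nil)))) .nil))))) (.nd (nat_lit 4) (.nd (nat_lit 5) (.nd (nat_lit 6) 
(.lf (nat_lit 59275) (.g (nat_lit 2138) (.e (nat_lit 1517) (nat_lit 108) (.e (nat_lit 336305) (nat_lit 15) (.e (nat_lit 3298) (nat_lit 202) (.e (nat_lit 573491) (nat_lit 15) (.e (nat_lit 81951) (nat_lit 22) (.e (nat_lit 90165) (nat_lit 12) (.e (nat_lit 164236) (nat_lit 187) .nil))))))) (.g (nat_lit 7) .nil .nil))) 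
(.lf (nat_lit 59339) (.g (nat_lit 934) (.e (nat_lit 1522) (nat_lit 108) (.e (nat_lit 335995) (nat_lit 1) (.e (nat_lit 57872) (nat_lit 264) .nil))) .nil))) (.nd (nat_lit 6) 
(.lf (nat_lit 59307) (.g (nat_lit 3304) (.e (nat_lit 1521) (nat_lit 108) (.e (nat_lit 336011) (nat_lit 2) (.e (nat_lit 90170) (nat_lit 13) (.e (nat_lit 172113) (nat_lit 10) (.e (nat_lit 434242) (nat_lit 28) .nil))))) .nil)) 
(.lf (nat_lit 59371) (.g (nat_lit 3220) (.e (nat_lit 1523) (nat_lit 108) (.e (nat_lit 336223) (nat_lit 13) (.e (nat_lit 393301) (nat_lit 27) (.e (nat_lit 491558) (nat_lit 10) (.e (nat_lit 344096) (nat_lit 18) .nil))))) .nil)))) (.nd (nat_lit 5) (.nd (nat_lit 6) 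
(.lf (nat_lit 59291) (.g (nat_lit 2095) (.e (nat_lit 1517) (nat_lit 108) (.e (nat_lit 336429) (nat_lit 29) (.e (nat_lit 442379) (nat_lit 0) (.e (nat_lit 2059) (nat_lit 142) (.e (nat_lit 704595) (nat_lit 5) (.e (nat_lit 180275) (nat_lit 32) .nil)))))) (.g (nat_lit 6) .nil .nil))) 
(.lf (nat_lit 59355) (.g (nat_lit 3223) (.e (nat_lit 1523) (nat_lit 108) (.e (nat_lit 336027) (nat_lit 3) (.e (nat_lit 98373) (nat_lit 29) (.e (nat_lit 450587) (nat_lit 10) (.e (nat_lit 573478) (nat_lit 12) .nil))))) .nil))) (.nd (nat_lit 6) 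
(.lf (nat_lit 59323) (.g (nat_lit 552) (.e (nat_lit 1521) (nat_lit 108) (.e (nat_lit 336204) (nat_lit 12) (.e (nat_lit 385074) (nat_lit 31) .nil))) .nil)) 
(.lf (nat_lit 59387) (.g (nat_lit 442) (.e (nat_lit 1524) (nat_lit 108) (.e (nat_lit 336004) (nat_lit 2) (.e (nat_lit 90176) (nat_lit 15) .nil))) .nil)))))) (.nd (nat_lit 3) (.nd (nat_lit 4) (.nd (nat_lit 5) (.nd (nat_lit 6) 
(.lf (nat_lit 59271) (.g (nat_lit 1865) (.e (nat_lit 1516) (nat_lit 108) (.e (nat_lit 336420) (nat_lit 28) (.e (nat_lit 434180) (nat_lit 0) (.e (nat_lit 1428) (nat_lit 108) (.e (nat_lit 336421) (nat_lit 28) (.e (nat_lit 434178) (nat_lit 0) .nil)))))) (.g (nat_lit 6) .nil .nil))) 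
(.lf (nat_lit 59335) (.g (nat_lit 3245) (.e (nat_lit 1521) (nat_lit 108) (.e (nat_lit 336223) (nat_lit 13) (.e (nat_lit 393301) (nat_lit 27) (.e (nat_lit 491559) (nat_lit 10) (.e (nat_lit 344177) (nat_lit 43) .nil))))) .nil))) (.nd (nat_lit 6) 
(.lf (nat_lit 59303) (.g (nat_lit 2236) (.e (nat_lit 1520) (nat_lit 108) (.e (nat_lit 336223) (nat_lit 13) (.e (nat_lit 393301) (nat_lit 27) (.e (nat_lit 491558) (nat_lit 10) .nil)))) .nil)) 
(.lf (nat_lit 59367) (.g (nat_lit 1814) (.e (nat_lit 1523) (nat_lit 108) (.e (nat_lit 336223) (nat_lit 13) (.e (nat_lit 393234) (nat_lit 17) (.e (nat_lit 7591) (nat_lit 407) .nil)))) .nil)))) (.nd (nat_lit 5) (.nd (nat_lit 6) 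
(.lf (nat_lit 59287) (.g (nat_lit 1072) (.e (nat_lit 1517) (nat_lit 108) (.e (nat_lit 336420) (nat_lit 28) (.e (nat_lit 434181) (nat_lit 0) (.e (nat_lit 1425) (nat_lit 108) (.e (nat_lit 336421) (nat_lit 28) (.e (nat_lit 434178) (nat_lit 0) .nil)))))) (.g (nat_lit 6) .nil .nil))) 
(.lf (nat_lit 59351) (.g (nat_lit 2546) (.e (nat_lit 1523) (nat_lit 108) (.e (nat_lit 336027) (nat_lit 3) (.e (nat_lit 98372) (nat_lit 29) (.e (nat_lit 450586) (nat_lit 10) (.e (nat_lit 573475) (nat_lit 12) .nil))))) .nil))) (.nd (nat_lit 6) 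
(.lf (nat_lit 59319) (.g (nat_lit 3371) (.e (nat_lit 1521) (nat_lit 108) (.e (nat_lit 336027) (nat_lit 3) (.e (nat_lit 98373) (nat_lit 29) (.e (nat_lit 450588) (nat_lit 10) (.e (nat_lit 573475) (nat_lit 12) .nil))))) .nil)) 
(.lf (nat_lit 59383) (.g (nat_lit 2289) (.e (nat_lit 1524) (nat_lit 108) (.e (nat_lit 335988) (nat_lit 1) (.e (nat_lit 57854) (nat_lit 252) (.e (nat_lit 57364) (nat_lit 1) (.e (nat_lit 57851) (nat_lit 252) (.e (nat_lit 57427) (nat_lit 15) (.e (nat_lit 360478) (nat_lit 12) (.e (nat_lit 622605) (nat_lit 5) .nil)))))))) (.g (nat_lit 5) .nil .nil)))))) 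
(.nd (nat_lit 4) (.nd (nat_lit 5) (.nd (nat_lit 6) 
(.lf (nat_lit 59279) (.g (nat_lit 3486) (.e (nat_lit 1517) (nat_lit 108) (.e (nat_lit 336305) (nat_lit 15) (.e (nat_lit 3308) (nat_lit 202) (.e (nat_lit 573482) (nat_lit 13) (.e (nat_lit 65604) (nat_lit 9) (.e (nat_lit 336013) (nat_lit 2) (.e (nat_lit 90165) (nat_lit 12) (.e (nat_lit 164236) (nat_lit 187) .nil)))))))) (.g (nat_lit 8) .nil .nil))) 
(.lf (nat_lit 59343) (.g (nat_lit 2657) (.e (nat_lit 1522) (nat_lit 108) (.e (nat_lit 336021) (nat_lit 3) (.e (nat_lit 98389) (nat_lit 33) (.e (nat_lit 491546) (nat_lit 9) (.e (nat_lit 336013) (nat_lit 2) (.e (nat_lit 90165) (nat_lit 12) (.e (nat_lit 164236) (nat_lit 187) .nil))))))) (.g (nat_lit 5) .nil .nil)))) (.nd (nat_lit 6) 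
(.lf (nat_lit 59311) (.g (nat_lit 1918) (.e (nat_lit 1521) (nat_lit 108) (.e (nat_lit 336027) (nat_lit 3) (.e (nat_lit 98372) (nat_lit 29) (.e (nat_lit 450586) (nat_lit 10) .nil)))) .nil)) 
(.lf (nat_lit 59375) (.g (nat_lit 3608) (.e (nat_lit 1523) (nat_lit 108) (.e (nat_lit 336223) (nat_lit 13) (.e (nat_lit 393301) (nat_lit 27) (.e (nat_lit 491560) (nat_lit 10) (.e (nat_lit 344096) (nat_lit 18) .nil))))) .nil)))) (.nd (nat_lit 5) (.nd (nat_lit 6) 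
(.lf (nat_lit 59295) (.g (nat_lit 1879) (.e (nat_lit 1520) (nat_lit 108) (.e (nat_lit 336027) (nat_lit 3) (.e (nat_lit 98372) (nat_lit 29) (.e (nat_lit 450586) (nat_lit 10) .nil)))) .nil)) 
(.lf (nat_lit 59359) (.g (nat_lit 2751) (.e (nat_lit 1523) (nat_lit 108) (.e (nat_lit 336194) (nat_lit 12) (.e (nat_lit 385066) (nat_lit 26) (.e (nat_lit 532515) (nat_lit 3) (.e (nat_lit 122624) (nat_lit 12) (.e (nat_lit 434219) (nat_lit 19) (.e (nat_lit 499965) (nat_lit 14) .nil))))))) (.g (nat_lit 6) .nil .nil)))) (.nd (nat_lit 6) 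
(.lf (nat_lit 59327) (.g (nat_lit 1378) (.e (nat_lit 1521) (nat_lit 108) (.e (nat_lit 336204) (nat_lit 12) (.e (nat_lit 385074) (nat_lit 31) (.e (nat_lit 573487) (nat_lit 14) .nil)))) .nil)) 
(.lf (nat_lit 59391) (.g (nat_lit 2010) (.e (nat_lit 1524) (nat_lit 108) (.e (nat_lit 336004) (nat_lit 2) (.e (nat_lit 90176) (nat_lit 15) (.e (nat_lit 188450) (nat_lit 23) (.e (nat_lit 204815) (nat_lit 17) .nil))))) .nil)))))))))

noncomputable def tv817 : DT := (.nd (nat_lit 0) (.nd (nat_lit 1) (.nd (nat_lit 2) (.nd (nat_lit 3) (.nd (nat_lit 4) (.nd (nat_lit 5) (.nd (nat_lit 6) 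
(.lf (nat_lit 59392) (.g (nat_lit 2011) (.e (nat_lit 1524) (nat_lit 108) (.e (nat_lit 336004) (nat_lit 2) (.e (nat_lit 90176) (nat_lit 15) (.e (nat_lit 188450) (nat_lit 23) (.e (nat_lit 204817) (nat_lit 17) .nil))))) .nil)) 
(.lf (nat_lit 59456) (.g (nat_lit 1251) (.e (nat_lit 1524) (nat_lit 108) (.e (nat_lit 336194) (nat_lit 12) (.e (nat_lit 385066) (nat_lit 26) (.e (nat_lit 532513) (nat_lit 3) .nil)))) .nil))) (.nd (nat_lit 6) 
(.lf (nat_lit 59424) (.g (nat_lit 1943) (.e (nat_lit 1524) (nat_lit 108) (.e (nat_lit 336026) (nat_lit 3) (.e (nat_lit 98373) (nat_lit 29) (.e (nat_lit 450587) (nat_lit 10) (.e (nat_lit 573475) (nat_lit 12) (.e (nat_lit 57572) (nat_lit 54) (.e (nat_lit 770062) (nat_lit 5) .nil))))))) (.g (nat_lit 4) .nil .nil))) 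
(.lf (nat_lit 59488) (.g (nat_lit 511) (.e (nat_lit 1524) (nat_lit 108) (.e (nat_lit 336194) (nat_lit 12) (.e (nat_lit 385105) (nat_lit 50) .nil))) .nil)))) (.nd (nat_lit 5) (.nd (nat_lit 6) 
(.lf (nat_lit 59408) (.g (nat_lit 2164) (.e (nat_lit 1524) (nat_lit 108) (.e (nat_lit 336012) (nat_lit 2) (.e (nat_lit 90176) (nat_lit 15) (.e (nat_lit 188450) (nat_lit 23) (.e (nat_lit 212736) (nat_lit 0) .nil))))) .nil)) 
(.lf (nat_lit 59472) (.g (nat_lit 2785) (.e (nat_lit 1524) (nat_lit 108) (.e (nat_lit 336194) (nat_lit 12) (.e (nat_lit 385074) (nat_lit 31) (.e (nat_lit 573491) (nat_lit 15) (.e (nat_lit 81947) (nat_lit 20) .nil))))) .nil))) (.nd (nat_lit 6) 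
(.lf (nat_lit 59440) (.g (nat_lit 3179) (.e (nat_lit 1524) (nat_lit 108) (.e (nat_lit 336078) (nat_lit 9) (.e (nat_lit 336369) (nat_lit 27) (.e (nat_lit 426173) (nat_lit 7) (.e (nat_lit 409649) (nat_lit 18) (.e (nat_lit 303111) (nat_lit 0) (.e (nat_lit 3459) (nat_lit 216) (.e (nat_lit 688157) (nat_lit 13) .nil)))))))) (.g (nat_lit 5) .nil .nil))) 
(.lf (nat_lit 59504) (.g (nat_lit 2053) (.e (nat_lit 1524) (nat_lit 108) (.e (nat_lit 336194) (nat_lit 12) (.e (nat_lit 385106) (nat_lit 50) (.e (nat_lit 786480) (nat_lit 29) (.e (nat_lit 352302) (nat_lit 20) (.e (nat_lit 2006) (nat_lit 138) (.e (nat_lit 671751) (nat_lit 0) .nil))))))) (.g (nat_lit 4) .nil .nil)))))) (.nd (nat_lit 4) (.nd (nat_lit 5) (.nd (nat_lit 6) 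
(.lf (nat_lit 59400) (.g (nat_lit 2086) (.e (nat_lit 1524) (nat_lit 108) (.e (nat_lit 336004) (nat_lit 2) (.e (nat_lit 90176) (nat_lit 15) (.e (nat_lit 188450) (nat_lit 23) (.e (nat_lit 204830) (nat_lit 18) .nil))))) .nil)) 
(.lf (nat_lit 59464) (.g (nat_lit 1768) (.e (nat_lit 1524) (nat_lit 108) (.e (nat_lit 336194) (nat_lit 12) (.e (nat_lit 385066) (nat_lit 26) (.e (nat_lit 532515) (nat_lit 3) (.e (nat_lit 114697) (nat_lit 11) (.e (nat_lit 426122) (nat_lit 2) (.e (nat_lit 196640) (nat_lit 9) .nil))))))) (.g (nat_lit 4) .nil .nil)))) (.nd (nat_lit 6) 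
(.lf (nat_lit 59432) (.g (nat_lit 1317) (.e (nat_lit 1524) (nat_lit 108) (.e (nat_lit 336076) (nat_lit 9) (.e (nat_lit 336316) (nat_lit 17) (.e (nat_lit 204544) (nat_lit 6) .nil)))) .nil)) 
(.lf (nat_lit 59496) (.g (nat_lit 2414) (.e (nat_lit 1524) (nat_lit 108) (.e (nat_lit 336194) (nat_lit 12) (.e (nat_lit 385105) (nat_lit 50) (.e (nat_lit 786483) (nat_lit 30) (.e (nat_lit 360451) (nat_lit 0) (.e (nat_lit 5896) (nat_lit 320) (.e (nat_lit 1040) (nat_lit 81) .nil))))))) (.g (nat_lit 4) .nil .nil))))) (.nd (nat_lit 5) (.nd (nat_lit 6) 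
(.lf (nat_lit 59416) (.g (nat_lit 2138) (.e (nat_lit 1524) (nat_lit 108) (.e (nat_lit 336012) (nat_lit 2) (.e (nat_lit 90176) (nat_lit 15) (.e (nat_lit 188450) (nat_lit 23) (.e (nat_lit 204821) (nat_lit 17) (.e (nat_lit 1074) (nat_lit 81) (.e (nat_lit 4490) (nat_lit 263) (.e (nat_lit 1039) (nat_lit 81) .nil)))))))) (.g (nat_lit 4) .nil .nil))) 
(.lf (nat_lit 59480) (.g (nat_lit 533) (.e (nat_lit 1524) (nat_lit 108) (.e (nat_lit 336194) (nat_lit 12) (.e (nat_lit 385096) (nat_lit 49) .nil))) .nil))) (.nd (nat_lit 6) 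
(.lf (nat_lit 59448) (.g (nat_lit 3650) (.e (nat_lit 1524) (nat_lit 108) (.e (nat_lit 336186) (nat_lit 11) (.e (nat_lit 368676) (nat_lit 21) (.e (nat_lit 516179) (nat_lit 15) (.e (nat_lit 475199) (nat_lit 40) (.e (nat_lit 704589) (nat_lit 3) (.e (nat_lit 163976) (nat_lit 30) (.e (nat_lit 573458) (nat_lit 9) .nil)))))))) (.g (nat_lit 0) .nil .nil))) 
(.lf (nat_lit 59512) (.g (nat_lit 1657) (.e (nat_lit 1524) (nat_lit 108) (.e (nat_lit 336213) (nat_lit 13) (.e (nat_lit 393229) (nat_lit 9) (.e (nat_lit 335988) (nat_lit 1) .nil)))) .nil)))))) (.nd (nat_lit 3) (.nd (nat_lit 4) (.nd (nat_lit 5) (.nd (nat_lit 6) 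
(.lf (nat_lit 59396) (.g (nat_lit 2129) (.e (nat_lit 1524) (nat_lit 108) (.e (nat_lit 336004) (nat_lit 2) (.e (nat_lit 90176) (nat_lit 15) (.e (nat_lit 188450) (nat_lit 23) (.e (nat_lit 204821) (nat_lit 17) .nil))))) .nil)) 
(.lf (nat_lit 59460) (.g (nat_lit 1887) (.e (nat_lit 1524) (nat_lit 108) (.e (nat_lit 336194) (nat_lit 12) (.e (nat_lit 385066) (nat_lit 26) (.e (nat_lit 532513) (nat_lit 3) (.e (nat_lit 122624) (nat_lit 12) .nil))))) .nil))) (.nd (nat_lit 6) 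
(.lf (nat_lit 59428) (.g (nat_lit 3705) (.e (nat_lit 1524) (nat_lit 108) (.e (nat_lit 336027) (nat_lit 3) (.e (nat_lit 98373) (nat_lit 29) (.e (nat_lit 450587) (nat_lit 10) (.e (nat_lit 573475) (nat_lit 12) (.e (nat_lit 57572) (nat_lit 54) (.e (nat_lit 770061) (nat_lit 5) .nil))))))) (.g (nat_lit 6) .nil .nil))) 
(.lf (nat_lit 59492) (.g (nat_lit 2552) (.e (nat_lit 1524) (nat_lit 108) (.e (nat_lit 336194) (nat_lit 12) (.e (nat_lit 385105) (nat_lit 50) (.e (nat_lit 786480) (nat_lit 29) (.e (nat_lit 352303) (nat_lit 20) .nil))))) .nil)))) (.nd (nat_lit 5) (.nd (nat_lit 6) 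
(.lf (nat_lit 59412) (.g (nat_lit 2076) (.e (nat_lit 1524) (nat_lit 108) (.e (nat_lit 336012) (nat_lit 2) (.e (nat_lit 90176) (nat_lit 15) (.e (nat_lit 188450) (nat_lit 23) (.e (nat_lit 204817) (nat_lit 17) (.e (nat_lit 1905) (nat_lit 129) (.e (nat_lit 598029) (nat_lit 5) .nil))))))) (.g (nat_lit 4) .nil .nil))) 
(.lf (nat_lit 59476) (.g (nat_lit 1543) (.e (nat_lit 1524) (nat_lit 108) (.e (nat_lit 336194) (nat_lit 12) (.e (nat_lit 385093) (nat_lit 49) (.e (nat_lit 778326) (nat_lit 6) .nil)))) .nil))) (.nd (nat_lit 6) 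
(.lf (nat_lit 59444) (.g (nat_lit 2875) (.e (nat_lit 1524) (nat_lit 108) (.e (nat_lit 336186) (nat_lit 11) (.e (nat_lit 368662) (nat_lit 18) (.e (nat_lit 5907) (nat_lit 320) (.e (nat_lit 1200) (nat_lit 88) (.e (nat_lit 65619) (nat_lit 10) (.e (nat_lit 344168) (nat_lit 40) (.e (nat_lit 671751) (nat_lit 0) .nil)))))))) (.g (nat_lit 7) .nil .nil))) 
(.lf (nat_lit 59508) (.g (nat_lit 3613) (.e (nat_lit 1524) (nat_lit 108) (.e (nat_lit 336194) (nat_lit 12) (.e (nat_lit 385106) (nat_lit 50) (.e (nat_lit 786483) (nat_lit 30) (.e (nat_lit 360486) (nat_lit 18) (.e (nat_lit 671751) (nat_lit 0) .nil)))))) (.g (nat_lit 0) .nil .nil)))))) (.nd (nat_lit 4) (.nd (nat_lit 5) (.nd (nat_lit 6) 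
(.lf (nat_lit 59404) (.g (nat_lit 2461) (.e (nat_lit 1524) (nat_lit 108) (.e (nat_lit 336011) (nat_lit 2) (.e (nat_lit 90170) (nat_lit 13) (.e (nat_lit 172106) (nat_lit 10) (.e (nat_lit 434231) (nat_lit 23) (.e (nat_lit 532499) (nat_lit 1) (.e (nat_lit 57766) (nat_lit 221) (.e (nat_lit 1041) (nat_lit 81) .nil)))))))) (.g (nat_lit 4) .nil .nil))) 
(.lf (nat_lit 59468) (.g (nat_lit 1674) (.e (nat_lit 1524) (nat_lit 108) (.e (nat_lit 336194) (nat_lit 12) (.e (nat_lit 385066) (nat_lit 26) (.e (nat_lit 532515) (nat_lit 3) (.e (nat_lit 122624) (nat_lit 12) .nil))))) .nil))) (.nd (nat_lit 6) 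
(.lf (nat_lit 59436) (.g (nat_lit 1989) (.e (nat_lit 1524) (nat_lit 108) (.e (nat_lit 336076) (nat_lit 9) (.e (nat_lit 336369) (nat_lit 27) (.e (nat_lit 426173) (nat_lit 7) (.e (nat_lit 409648) (nat_lit 18) .nil))))) .nil)) 
(.lf (nat_lit 59500) (.g (nat_lit 1377) (.e (nat_lit 1524) (nat_lit 108) (.e (nat_lit 336194) (nat_lit 12) (.e (nat_lit 385106) (nat_lit 50) (.e (nat_lit 786469) (nat_lit 27) .nil)))) .nil)))) (.nd (nat_lit 5) (.nd (nat_lit 6) 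
(.lf (nat_lit 59420) (.g (nat_lit 2386) (.e (nat_lit 1524) (nat_lit 108) (.e (nat_lit 336012) (nat_lit 2) (.e (nat_lit 90176) (nat_lit 15) (.e (nat_lit 188450) (nat_lit 23) (.e (nat_lit 204840) (nat_lit 21) .nil))))) .nil)) 
(.lf (nat_lit 59484) (.g (nat_lit 612) (.e (nat_lit 1524) (nat_lit 108) (.e (nat_lit 336194) (nat_lit 12) (.e (nat_lit 385103) (nat_lit 50) .nil))) .nil))) (.nd (nat_lit 6) 
(.lf (nat_lit 59452) (.g (nat_lit 1798) (.e (nat_lit 1524) (nat_lit 108) (.e (nat_lit 336194) (nat_lit 12) (.e (nat_lit 385063) (nat_lit 25) (.e (nat_lit 524322) (nat_lit 12) (.e (nat_lit 450563) (nat_lit 0) (.e (nat_lit 6736) (nat_lit 365) (.e (nat_lit 1036) (nat_lit 81) .nil))))))) (.g (nat_lit 5) .nil .nil))) 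
(.lf (nat_lit 59516) (.g (nat_lit 945) (.e (nat_lit 1524) (nat_lit 108) (.e (nat_lit 336213) (nat_lit 13) (.e (nat_lit 393231) (nat_lit 17) .nil))) .nil))))))) (.nd (nat_lit 2) (.nd (nat_lit 3) (.nd (nat_lit 4) (.nd (nat_lit 5) (.nd (nat_lit 6) 
(.lf (nat_lit 59394) (.g (nat_lit 2284) (.e (nat_lit 1524) (nat_lit 108) (.e (nat_lit 336004) (nat_lit 2) (.e (nat_lit 90176) (nat_lit 15) (.e (nat_lit 188450) (nat_lit 23) (.e (nat_lit 204817) (nat_lit 17) (.e (nat_lit 1911) (nat_lit 129) (.e (nat_lit 598029) (nat_lit 5) .nil))))))) (.g (nat_lit 5) .nil .nil))) 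
(.lf (nat_lit 59458) (.g (nat_lit 1706) (.e (nat_lit 1524) (nat_lit 108) (.e (nat_lit 336194) (nat_lit 12) (.e (nat_lit 385066) (nat_lit 26) (.e (nat_lit 532513) (nat_lit 3) (.e (nat_lit 114698) (nat_lit 11) .nil))))) .nil))) (.nd (nat_lit 6) 
(.lf (nat_lit 59426) (.g (nat_lit 1968) (.e (nat_lit 1524) (nat_lit 108) (.e (nat_lit 336027) (nat_lit 3) (.e (nat_lit 98372) (nat_lit 29) (.e (nat_lit 450586) (nat_lit 10) .nil)))) .nil)) 
(.lf (nat_lit 59490) (.g (nat_lit 1924) (.e (nat_lit 1524) (nat_lit 108) (.e (nat_lit 336194) (nat_lit 12) (.e (nat_lit 385105) (nat_lit 50) (.e (nat_lit 786470) (nat_lit 27) .nil)))) .nil)))) (.nd (nat_lit 5) (.nd (nat_lit 6) 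
(.lf (nat_lit 59410) (.g (nat_lit 2032) (.e (nat_lit 1524) (nat_lit 108) (.e (nat_lit 336012) (nat_lit 2) (.e (nat_lit 90176) (nat_lit 15) (.e (nat_lit 188450) (nat_lit 23) (.e (nat_lit 204815) (nat_lit 17) .nil))))) .nil)) 
(.lf (nat_lit 59474) (.g (nat_lit 3471) (.e (nat_lit 1524) (nat_lit 108) (.e (nat_lit 336194) (nat_lit 12) (.e (nat_lit 385074) (nat_lit 31) (.e (nat_lit 573493) (nat_lit 15) (.e (nat_lit 81938) (nat_lit 20) (.e (nat_lit 1842) (nat_lit 123) (.e (nat_lit 548878) (nat_lit 5) .nil))))))) (.g (nat_lit 5) .nil .nil)))) (.nd (nat_lit 6) 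
(.lf (nat_lit 59442) (.g (nat_lit 3927) (.e (nat_lit 1524) (nat_lit 108) (.e (nat_lit 336086) (nat_lit 9) (.e (nat_lit 336369) (nat_lit 27) (.e (nat_lit 426173) (nat_lit 7) (.e (nat_lit 409649) (nat_lit 18) (.e (nat_lit 303111) (nat_lit 0) (.e (nat_lit 3459) (nat_lit 216) (.e (nat_lit 688157) (nat_lit 13) .nil)))))))) (.g (nat_lit 7) .nil .nil))) 
(.lf (nat_lit 59506) (.g (nat_lit 1780) (.e (nat_lit 1524) (nat_lit 108) (.e (nat_lit 336194) (nat_lit 12) (.e (nat_lit 385106) (nat_lit 50) (.e (nat_lit 786481) (nat_lit 30) (.e (nat_lit 368384) (nat_lit 17) (.e (nat_lit 663559) (nat_lit 0) .nil)))))) (.g (nat_lit 4) .nil .nil)))))) (.nd (nat_lit 4) (.nd (nat_lit 5) (.nd (nat_lit 6) 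
(.lf (nat_lit 59402) (.g (nat_lit 2479) (.e (nat_lit 1524) (nat_lit 108) (.e (nat_lit 336004) (nat_lit 2) (.e (nat_lit 90176) (nat_lit 15) (.e (nat_lit 188450) (nat_lit 23) (.e (nat_lit 204840) (nat_lit 21) (.e (nat_lit 123116) (nat_lit 221) (.e (nat_lit 1039) (nat_lit 81) .nil))))))) (.g (nat_lit 4) .nil .nil))) 
(.lf (nat_lit 59466) (.g (nat_lit 2063) (.e (nat_lit 1524) (nat_lit 108) (.e (nat_lit 336194) (nat_lit 12) (.e (nat_lit 385066) (nat_lit 26) (.e (nat_lit 532515) (nat_lit 3) (.e (nat_lit 114698) (nat_lit 11) (.e (nat_lit 426122) (nat_lit 2) (.e (nat_lit 196640) (nat_lit 9) .nil))))))) (.g (nat_lit 5) .nil .nil)))) (.nd (nat_lit 6) 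
(.lf (nat_lit 59434) (.g (nat_lit 1180) (.e (nat_lit 1524) (nat_lit 108) (.e (nat_lit 336076) (nat_lit 9) (.e (nat_lit 336332) (nat_lit 19) (.e (nat_lit 212996) (nat_lit 0) .nil)))) .nil)) 
(.lf (nat_lit 59498) (.g (nat_lit 3744) (.e (nat_lit 1524) (nat_lit 108) (.e (nat_lit 336194) (nat_lit 12) (.e (nat_lit 385105) (nat_lit 50) (.e (nat_lit 786483) (nat_lit 30) (.e (nat_lit 360486) (nat_lit 18) (.e (nat_lit 671751) (nat_lit 0) .nil)))))) (.g (nat_lit 0) .nil .nil))))) (.nd (nat_lit 5) (.nd (nat_lit 6) 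
(.lf (nat_lit 59418) (.g (nat_lit 1992) (.e (nat_lit 1524) (nat_lit 108) (.e (nat_lit 336012) (nat_lit 2) (.e (nat_lit 90176) (nat_lit 15) (.e (nat_lit 188450) (nat_lit 23) (.e (nat_lit 204830) (nat_lit 18) .nil))))) .nil)) 
(.lf (nat_lit 59482) (.g (nat_lit 1145) (.e (nat_lit 1524) (nat_lit 108) (.e (nat_lit 336194) (nat_lit 12) (.e (nat_lit 385096) (nat_lit 49) (.e (nat_lit 786176) (nat_lit 6) .nil)))) .nil))) (.nd (nat_lit 6) 
(.lf (nat_lit 59450) (.g (nat_lit 588) (.e (nat_lit 1524) (nat_lit 108) (.e (nat_lit 336194) (nat_lit 12) (.e (nat_lit 385063) (nat_lit 25) .nil))) .nil)) 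
(.lf (nat_lit 59514) (.g (nat_lit 2334) (.e (nat_lit 1524) (nat_lit 108) (.e (nat_lit 336213) (nat_lit 13) (.e (nat_lit 393229) (nat_lit 9) (.e (nat_lit 335996) (nat_lit 1) (.e (nat_lit 57931) (nat_lit 282) .nil))))) .nil)))))) (.nd (nat_lit 3) (.nd (nat_lit 4) (.nd (nat_lit 5) (.nd (nat_lit 6) 
(.lf (nat_lit 59398) (.g (nat_lit 2315) (.e (nat_lit 1524) (nat_lit 108) (.e (nat_lit 336004) (nat_lit 2) (.e (nat_lit 90176) (nat_lit 15) (.e (nat_lit 188450) (nat_lit 23) (.e (nat_lit 204821) (nat_lit 17) (.e (nat_lit 1074) (nat_lit 81) (.e (nat_lit 4490) (nat_lit 263) (.e (nat_lit 1039) (nat_lit 81) .nil)))))))) (.g (nat_lit 4) .nil .nil))) 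
(.lf (nat_lit 59462) (.g (nat_lit 2112) (.e (nat_lit 1524) (nat_lit 108) (.e (nat_lit 336194) (nat_lit 12) (.e (nat_lit 385066) (nat_lit 26) (.e (nat_lit 532513) (nat_lit 3) (.e (nat_lit 122624) (nat_lit 12) (.e (nat_lit 434219) (nat_lit 19) (.e (nat_lit 499978) (nat_lit 14) .nil))))))) (.g (nat_lit 4) .nil .nil)))) (.nd (nat_lit 6) 
(.lf (nat_lit 59430) (.g (nat_lit 2241) (.e (nat_lit 1524) (nat_lit 108) (.e (nat_lit 336075) (nat_lit 9) (.e (nat_lit 336369) (nat_lit 27) (.e (nat_lit 426173) (nat_lit 7) (.e (nat_lit 409649) (nat_lit 18) (.e (nat_lit 303111) (nat_lit 0) (.e (nat_lit 3459) (nat_lit 216) (.e (nat_lit 688156) (nat_lit 13) .nil)))))))) (.g (nat_lit 5) .nil .nil))) 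
(.lf (nat_lit 59494) (.g (nat_lit 1985) (.e (nat_lit 1524) (nat_lit 108) (.e (nat_lit 336194) (nat_lit 12) (.e (nat_lit 385105) (nat_lit 50) (.e (nat_lit 786481) (nat_lit 30) (.e (nat_lit 368384) (nat_lit 17) (.e (nat_lit 663559) (nat_lit 0) .nil)))))) (.g (nat_lit 4) .nil .nil))))) (.nd (nat_lit 5) (.nd (nat_lit 6) 
(.lf (nat_lit 59414) (.g (nat_lit 2044) (.e (nat_lit 1524) (nat_lit 108) (.e (nat_lit 336012) (nat_lit 2) (.e (nat_lit 90176) (nat_lit 15) (.e (nat_lit 188450) (nat_lit 23) (.e (nat_lit 204821) (nat_lit 17) .nil))))) .nil)) 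
(.lf (nat_lit 59478) (.g (nat_lit 2324) (.e (nat_lit 1524) (nat_lit 108) (.e (nat_lit 336194) (nat_lit 12) (.e (nat_lit 385094) (nat_lit 49) (.e (nat_lit 778326) (nat_lit 6) (.e (nat_lit 81943) (nat_lit 20) (.e (nat_lit 2006) (nat_lit 138) (.e (nat_lit 671751) (nat_lit 0) .nil))))))) (.g (nat_lit 6) .nil .nil)))) (.nd (nat_lit 6) 
(.lf (nat_lit 59446) (.g (nat_lit 3584) (.e (nat_lit 1524) (nat_lit 108) (.e (nat_lit 336186) (nat_lit 11) (.e (nat_lit 368676) (nat_lit 21) (.e (nat_lit 516179) (nat_lit 15) (.e (nat_lit 475199) (nat_lit 40) (.e (nat_lit 704589) (nat_lit 3) (.e (nat_lit 163974) (nat_lit 30) (.e (nat_lit 573460) (nat_lit 9) .nil)))))))) (.g (nat_lit 6) .nil .nil))) 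
(.lf (nat_lit 59510) (.g (nat_lit 584) (.e (nat_lit 1524) (nat_lit 108) (.e (nat_lit 336213) (nat_lit 13) (.e (nat_lit 393229) (nat_lit 9) .nil))) .nil))))) (.nd (nat_lit 4) (.nd (nat_lit 5) (.nd (nat_lit 6) 
(.lf (nat_lit 59406) (.g (nat_lit 556) (.e (nat_lit 1524) (nat_lit 108) (.e (nat_lit 336012) (nat_lit 2) (.e (nat_lit 90176) (nat_lit 15) .nil))) .nil)) 
(.lf (nat_lit 59470) (.g (nat_lit 2774) (.e (nat_lit 1524) (nat_lit 108) (.e (nat_lit 336194) (nat_lit 12) (.e (nat_lit 385074) (nat_lit 31) (.e (nat_lit 573491) (nat_lit 15) (.e (nat_lit 81943) (nat_lit 20) .nil))))) .nil))) (.nd (nat_lit 6) 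
(.lf (nat_lit 59438) (.g (nat_lit 1265) (.e (nat_lit 1524) (nat_lit 108) (.e (nat_lit 336076) (nat_lit 9) (.e (nat_lit 336456) (nat_lit 34) (.e (nat_lit 483350) (nat_lit 17) .nil)))) .nil)) 
(.lf (nat_lit 59502) (.g (nat_lit 1377) (.e (nat_lit 1524) (nat_lit 108) (.e (nat_lit 336194) (nat_lit 12) (.e (nat_lit 385106) (nat_lit 50) (.e (nat_lit 786471) (nat_lit 27) .nil)))) .nil)))) (.nd (nat_lit 5) (.nd (nat_lit 6) 
(.lf (nat_lit 59422) (.g (nat_lit 2925) (.e (nat_lit 1524) (nat_lit 108) (.e (nat_lit 336025) (nat_lit 3) (.e (nat_lit 98373) (nat_lit 29) (.e (nat_lit 450587) (nat_lit 10) (.e (nat_lit 573475) (nat_lit 12) (.e (nat_lit 57572) (nat_lit 54) (.e (nat_lit 770061) (nat_lit 5) .nil))))))) (.g (nat_lit 7) .nil .nil))) 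
(.lf (nat_lit 59486) (.g (nat_lit 623) (.e (nat_lit 1524) (nat_lit 108) (.e (nat_lit 336194) (nat_lit 12) (.e (nat_lit 385104) (nat_lit 50) .nil))) .nil))) (.nd (nat_lit 6) 
(.lf (nat_lit 59454) (.g (nat_lit 1249) (.e (nat_lit 1524) (nat_lit 108) (.e (nat_lit 336194) (nat_lit 12) (.e (nat_lit 385066) (nat_lit 26) (.e (nat_lit 532510) (nat_lit 2) .nil)))) .nil)) 
(.lf (nat_lit 59518) (.g (nat_lit 1501) (.e (nat_lit 1524) (nat_lit 108) (.e (nat_lit 336213) (nat_lit 13) (.e (nat_lit 393233) (nat_lit 17) (.e (nat_lit 7591) (nat_lit 407) (.e (nat_lit 73729) (nat_lit 0) (.e (nat_lit 7119) (nat_lit 382) (.e (nat_lit 1036) (nat_lit 81) .nil))))))) (.g (nat_lit 4) .nil .nil))))))))) 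
(.nd (nat_lit 1) (.nd (nat_lit 2) (.nd (nat_lit 3) (.nd (nat_lit 4) (.nd (nat_lit 5) 
(.nd (nat_lit 6) 
(.lf (nat_lit 59393) (.g (nat_lit 2080) (.e (nat_lit 1524) (nat_lit 108) (.e (nat_lit 336004) (nat_lit 2) (.e (nat_lit 90176) (nat_lit 15) (.e (nat_lit 188450) (nat_lit 23) (.e (nat_lit 204817) (nat_lit 17) (.e (nat_lit 1905) (nat_lit 129) (.e (nat_lit 598029) (nat_lit 5) .nil))))))) (.g (nat_lit 4) .nil .nil))) 
(.lf (nat_lit 59457) (.g (nat_lit 1988) (.e (nat_lit 1524) (nat_lit 108) (.e (nat_lit 336194) (nat_lit 12) (.e (nat_lit 385066) (nat_lit 26) (.e (nat_lit 532513) (nat_lit 3) (.e (nat_lit 114697) (nat_lit 11) (.e (nat_lit 426122) (nat_lit 2) (.e (nat_lit 196640) (nat_lit 9) .nil))))))) (.g (nat_lit 4) .nil .nil)))) (.nd (nat_lit 6) 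
(.lf (nat_lit 59425) (.g (nat_lit 1780) (.e (nat_lit 1524) (nat_lit 108) (.e (nat_lit 336027) (nat_lit 3) (.e (nat_lit 98372) (nat_lit 29) (.e (nat_lit 450579) (nat_lit 5) .nil)))) .nil)) 
(.lf (nat_lit 59489) (.g (nat_lit 1903) (.e (nat_lit 1524) (nat_lit 108) (.e (nat_lit 336194) (nat_lit 12) (.e (nat_lit 385105) (nat_lit 50) (.e (nat_lit 786467) (nat_lit 27) .nil)))) .nil)))) (.nd (nat_lit 5) (.nd (nat_lit 6) 
(.lf (nat_lit 59409) (.g (nat_lit 2164) (.e (nat_lit 1524) (nat_lit 108) (.e (nat_lit 336012) (nat_lit 2) (.e (nat_lit 90176) (nat_lit 15) (.e (nat_lit 188450) (nat_lit 23) (.e (nat_lit 212736) (nat_lit 1) .nil))))) .nil)) 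
(.lf (nat_lit 59473) (.g (nat_lit 3613) (.e (nat_lit 1524) (nat_lit 108) (.e (nat_lit 336194) (nat_lit 12) (.e (nat_lit 385074) (nat_lit 31) (.e (nat_lit 573493) (nat_lit 15) (.e (nat_lit 81938) (nat_lit 20) (.e (nat_lit 1841) (nat_lit 123) (.e (nat_lit 548878) (nat_lit 5) .nil))))))) (.g (nat_lit 5) .nil .nil)))) (.nd (nat_lit 6) 
(.lf (nat_lit 59441) (.g (nat_lit 2591) (.e (nat_lit 1524) (nat_lit 108) (.e (nat_lit 336086) (nat_lit 9) (.e (nat_lit 336369) (nat_lit 27) (.e (nat_lit 426173) (nat_lit 7) (.e (nat_lit 409649) (nat_lit 18) (.e (nat_lit 303111) (nat_lit 0) (.e (nat_lit 3459) (nat_lit 216) (.e (nat_lit 688156) (nat_lit 13) .nil)))))))) (.g (nat_lit 5) .nil .nil))) 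
(.lf (nat_lit 59505) (.g (nat_lit 2127) (.e (nat_lit 1524) (nat_lit 108) (.e (nat_lit 336194) (nat_lit 12) (.e (nat_lit 385106) (nat_lit 50) (.e (nat_lit 786481) (nat_lit 30) (.e (nat_lit 360449) (nat_lit 0) .nil))))) .nil))))) (.nd (nat_lit 4) (.nd (nat_lit 5) (.nd (nat_lit 6) 
(.lf (nat_lit 59401) (.g (nat_lit 2193) (.e (nat_lit 1524) (nat_lit 108) (.e (nat_lit 336004) (nat_lit 2) (.e (nat_lit 90176) (nat_lit 15) (.e (nat_lit 188450) (nat_lit 23) (.e (nat_lit 204830) (nat_lit 18) (.e (nat_lit 57767) (nat_lit 221) (.e (nat_lit 1019) (nat_lit 81) .nil))))))) (.g (nat_lit 4) .nil .nil))) 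
(.lf (nat_lit 59465) (.g (nat_lit 1501) (.e (nat_lit 1524) (nat_lit 108) (.e (nat_lit 336194) (nat_lit 12) (.e (nat_lit 385066) (nat_lit 26) (.e (nat_lit 532515) (nat_lit 3) (.e (nat_lit 114698) (nat_lit 11) .nil))))) .nil))) (.nd (nat_lit 6) 
(.lf (nat_lit 59433) (.g (nat_lit 370) (.e (nat_lit 1524) (nat_lit 108) (.e (nat_lit 336076) (nat_lit 9) (.e (nat_lit 336332) (nat_lit 19) .nil))) .nil)) 
(.lf (nat_lit 59497) (.g (nat_lit 2269) (.e (nat_lit 1524) (nat_lit 108) (.e (nat_lit 336194) (nat_lit 12) (.e (nat_lit 385105) (nat_lit 50) (.e (nat_lit 786483) (nat_lit 30) (.e (nat_lit 368384) (nat_lit 17) (.e (nat_lit 663559) (nat_lit 0) .nil)))))) (.g (nat_lit 4) .nil .nil))))) (.nd (nat_lit 5) (.nd (nat_lit 6) 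
(.lf (nat_lit 59417) (.g (nat_lit 2069) (.e (nat_lit 1524) (nat_lit 108) (.e (nat_lit 336012) (nat_lit 2) (.e (nat_lit 90176) (nat_lit 15) (.e (nat_lit 188450) (nat_lit 23) (.e (nat_lit 204821) (nat_lit 17) (.e (nat_lit 1910) (nat_lit 129) (.e (nat_lit 598026) (nat_lit 5) .nil))))))) (.g (nat_lit 4) .nil .nil))) 
(.lf (nat_lit 59481) (.g (nat_lit 1332) (.e (nat_lit 1524) (nat_lit 108) (.e (nat_lit 336194) (nat_lit 12) (.e (nat_lit 385096) (nat_lit 49) (.e (nat_lit 778273) (nat_lit 0) .nil)))) .nil))) (.nd (nat_lit 6) 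
(.lf (nat_lit 59449) (.g (nat_lit 3818) (.e (nat_lit 1524) (nat_lit 108) (.e (nat_lit 336186) (nat_lit 11) (.e (nat_lit 368676) (nat_lit 21) (.e (nat_lit 516185) (nat_lit 16) (.e (nat_lit 491560) (nat_lit 10) (.e (nat_lit 344126) (nat_lit 25) (.e (nat_lit 548878) (nat_lit 5) .nil))))))) (.g (nat_lit 7) .nil .nil))) 
(.lf (nat_lit 59513) (.g (nat_lit 1506) (.e (nat_lit 1524) (nat_lit 108) (.e (nat_lit 336213) (nat_lit 13) (.e (nat_lit 393229) (nat_lit 9) (.e (nat_lit 335995) (nat_lit 1) .nil)))) .nil)))))) (.nd (nat_lit 3) (.nd (nat_lit 4) (.nd (nat_lit 5) (.nd (nat_lit 6) 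
(.lf (nat_lit 59397) (.g (nat_lit 2323) (.e (nat_lit 1524) (nat_lit 108) (.e (nat_lit 336004) (nat_lit 2) (.e (nat_lit 90176) (nat_lit 15) (.e (nat_lit 188450) (nat_lit 23) (.e (nat_lit 204821) (nat_lit 17) (.e (nat_lit 991) (nat_lit 81) (.e (nat_lit 4500) (nat_lit 263) (.e (nat_lit 1039) (nat_lit 81) .nil)))))))) (.g (nat_lit 4) .nil .nil))) 
(.lf (nat_lit 59461) (.g (nat_lit 2769) (.e (nat_lit 1524) (nat_lit 108) (.e (nat_lit 336194) (nat_lit 12) (.e (nat_lit 385066) (nat_lit 26) (.e (nat_lit 532513) (nat_lit 3) (.e (nat_lit 122624) (nat_lit 12) (.e (nat_lit 434219) (nat_lit 19) (.e (nat_lit 499952) (nat_lit 14) .nil))))))) (.g (nat_lit 6) .nil .nil)))) (.nd (nat_lit 6) 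
(.lf (nat_lit 59429) (.g (nat_lit 3773) (.e (nat_lit 1524) (nat_lit 108) (.e (nat_lit 336027) (nat_lit 3) (.e (nat_lit 98373) (nat_lit 29) (.e (nat_lit 450587) (nat_lit 10) (.e (nat_lit 573475) (nat_lit 12) (.e (nat_lit 57572) (nat_lit 54) (.e (nat_lit 770062) (nat_lit 5) .nil))))))) (.g (nat_lit 6) .nil .nil))) 
(.lf (nat_lit 59493) (.g (nat_lit 2019) (.e (nat_lit 1524) (nat_lit 108) (.e (nat_lit 336194) (nat_lit 12) (.e (nat_lit 385105) (nat_lit 50) (.e (nat_lit 786481) (nat_lit 30) (.e (nat_lit 360449) (nat_lit 0) .nil))))) .nil)))) (.nd (nat_lit 5) (.nd (nat_lit 6) 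
(.lf (nat_lit 59413) (.g (nat_lit 2043) (.e (nat_lit 1524) (nat_lit 108) (.e (nat_lit 336012) (nat_lit 2) (.e (nat_lit 90176) (nat_lit 15) (.e (nat_lit 188450) (nat_lit 23) (.e (nat_lit 204819) (nat_lit 17) .nil))))) .nil)) 
(.lf (nat_lit 59477) (.g (nat_lit 1028) (.e (nat_lit 1524) (nat_lit 108) (.e (nat_lit 336194) (nat_lit 12) (.e (nat_lit 385094) (nat_lit 49) (.e (nat_lit 778326) (nat_lit 6) .nil)))) .nil))) (.nd (nat_lit 6) 
(.lf (nat_lit 59445) (.g (nat_lit 839) (.e (nat_lit 1524) (nat_lit 108) (.e (nat_lit 336186) (nat_lit 11) (.e (nat_lit 368676) (nat_lit 21) (.e (nat_lit 516179) (nat_lit 15) .nil)))) .nil)) 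
(.lf (nat_lit 59509) (.g (nat_lit 2639) (.e (nat_lit 1524) (nat_lit 108) (.e (nat_lit 336204) (nat_lit 12) (.e (nat_lit 385074) (nat_lit 31) (.e (nat_lit 573493) (nat_lit 15) (.e (nat_lit 81938) (nat_lit 20) (.e (nat_lit 1842) (nat_lit 123) (.e (nat_lit 548878) (nat_lit 5) .nil))))))) (.g (nat_lit 4) .nil .nil)))))) (.nd (nat_lit 4) (.nd (nat_lit 5) (.nd (nat_lit 6) 
(.lf (nat_lit 59405) (.g (nat_lit 1617) (.e (nat_lit 1524) (nat_lit 108) (.e (nat_lit 336012) (nat_lit 2) (.e (nat_lit 90172) (nat_lit 14) (.e (nat_lit 188160) (nat_lit 33) .nil)))) .nil)) 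
(.lf (nat_lit 59469) (.g (nat_lit 1716) (.e (nat_lit 1524) (nat_lit 108) (.e (nat_lit 336194) (nat_lit 12) (.e (nat_lit 385066) (nat_lit 26) (.e (nat_lit 532515) (nat_lit 3) (.e (nat_lit 122624) (nat_lit 12) (.e (nat_lit 434219) (nat_lit 19) (.e (nat_lit 499990) (nat_lit 14) .nil))))))) (.g (nat_lit 4) .nil .nil)))) (.nd (nat_lit 6) 
(.lf (nat_lit 59437) (.g (nat_lit 3089) (.e (nat_lit 1524) (nat_lit 108) (.e (nat_lit 336076) (nat_lit 9) (.e (nat_lit 336369) (nat_lit 27) (.e (nat_lit 426173) (nat_lit 7) (.e (nat_lit 409649) (nat_lit 18) (.e (nat_lit 303111) (nat_lit 0) (.e (nat_lit 3459) (nat_lit 216) (.e (nat_lit 688156) (nat_lit 13) .nil)))))))) (.g (nat_lit 6) .nil .nil))) 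
(.lf (nat_lit 59501) (.g (nat_lit 1766) (.e (nat_lit 1524) (nat_lit 108) (.e (nat_lit 336194) (nat_lit 12) (.e (nat_lit 385106) (nat_lit 50) (.e (nat_lit 786470) (nat_lit 27) (.e (nat_lit 336173) (nat_lit 10) (.e (nat_lit 344169) (nat_lit 40) (.e (nat_lit 671751) (nat_lit 0) .nil))))))) (.g (nat_lit 4) .nil .nil))))) (.nd (nat_lit 5) (.nd (nat_lit 6) 
(.lf (nat_lit 59421) (.g (nat_lit 1946) (.e (nat_lit 1524) (nat_lit 108) (.e (nat_lit 336025) (nat_lit 3) (.e (nat_lit 98373) (nat_lit 29) (.e (nat_lit 450587) (nat_lit 10) (.e (nat_lit 573475) (nat_lit 12) (.e (nat_lit 57572) (nat_lit 54) (.e (nat_lit 770054) (nat_lit 5) .nil))))))) (.g (nat_lit 4) .nil .nil))) 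
(.lf (nat_lit 59485) (.g (nat_lit 2631) (.e (nat_lit 1524) (nat_lit 108) (.e (nat_lit 336194) (nat_lit 12) (.e (nat_lit 385103) (nat_lit 50) (.e (nat_lit 786483) (nat_lit 30) (.e (nat_lit 360486) (nat_lit 18) (.e (nat_lit 671751) (nat_lit 0) .nil)))))) (.g (nat_lit 5) .nil .nil)))) (.nd (nat_lit 6) 
(.lf (nat_lit 59453) (.g (nat_lit 1757) (.e (nat_lit 1524) (nat_lit 108) (.e (nat_lit 336194) (nat_lit 12) (.e (nat_lit 385063) (nat_lit 25) (.e (nat_lit 524322) (nat_lit 12) (.e (nat_lit 450563) (nat_lit 0) (.e (nat_lit 6740) (nat_lit 365) (.e (nat_lit 1036) (nat_lit 81) .nil))))))) (.g (nat_lit 5) .nil .nil))) 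
(.lf (nat_lit 59517) (.g (nat_lit 967) (.e (nat_lit 1524) (nat_lit 108) (.e (nat_lit 336213) (nat_lit 13) (.e (nat_lit 393232) (nat_lit 17) .nil))) .nil))))))) (.nd (nat_lit 2) (.nd (nat_lit 3) (.nd (nat_lit 4) (.nd (nat_lit 5) (.nd (nat_lit 6) 
(.lf (nat_lit 59395) (.g (nat_lit 2168) (.e (nat_lit 1524) (nat_lit 108) (.e (nat_lit 336004) (nat_lit 2) (.e (nat_lit 90176) (nat_lit 15) (.e (nat_lit 188450) (nat_lit 23) (.e (nat_lit 204819) (nat_lit 17) .nil))))) .nil)) 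
(.lf (nat_lit 59459) (.g (nat_lit 2388) (.e (nat_lit 1524) (nat_lit 108) (.e (nat_lit 336194) (nat_lit 12) (.e (nat_lit 385066) (nat_lit 26) (.e (nat_lit 532513) (nat_lit 3) (.e (nat_lit 114698) (nat_lit 11) (.e (nat_lit 426122) (nat_lit 2) (.e (nat_lit 196640) (nat_lit 9) .nil))))))) (.g (nat_lit 5) .nil .nil)))) (.nd (nat_lit 6) 
(.lf (nat_lit 59427) (.g (nat_lit 2743) (.e (nat_lit 1524) (nat_lit 108) (.e (nat_lit 336027) (nat_lit 3) (.e (nat_lit 98373) (nat_lit 29) (.e (nat_lit 450587) (nat_lit 10) (.e (nat_lit 573475) (nat_lit 12) .nil))))) .nil)) 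
(.lf (nat_lit 59491) (.g (nat_lit 2380) (.e (nat_lit 1524) (nat_lit 108) (.e (nat_lit 336194) (nat_lit 12) (.e (nat_lit 385105) (nat_lit 50) (.e (nat_lit 786480) (nat_lit 29) (.e (nat_lit 352302) (nat_lit 20) .nil))))) .nil)))) (.nd (nat_lit 5) (.nd (nat_lit 6) 
(.lf (nat_lit 59411) (.g (nat_lit 2051) (.e (nat_lit 1524) (nat_lit 108) (.e (nat_lit 336012) (nat_lit 2) (.e (nat_lit 90176) (nat_lit 15) (.e (nat_lit 188450) (nat_lit 23) (.e (nat_lit 204817) (nat_lit 17) .nil))))) .nil)) 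
(.lf (nat_lit 59475) (.g (nat_lit 3260) (.e (nat_lit 1524) (nat_lit 108) (.e (nat_lit 336194) (nat_lit 12) (.e (nat_lit 385074) (nat_lit 31) (.e (nat_lit 573493) (nat_lit 15) (.e (nat_lit 81947) (nat_lit 20) .nil))))) .nil))) (.nd (nat_lit 6) 
(.lf (nat_lit 59443) (.g (nat_lit 2030) (.e (nat_lit 1524) (nat_lit 108) (.e (nat_lit 336088) (nat_lit 9) (.e (nat_lit 336369) (nat_lit 27) (.e (nat_lit 426173) (nat_lit 7) .nil)))) .nil)) 
(.lf (nat_lit 59507) (.g (nat_lit 1165) (.e (nat_lit 1524) (nat_lit 108) (.e (nat_lit 336194) (nat_lit 12) (.e (nat_lit 385106) (nat_lit 50) (.e (nat_lit 786483) (nat_lit 30) .nil)))) .nil))))) (.nd (nat_lit 4) (.nd (nat_lit 5) (.nd (nat_lit 6) 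
(.lf (nat_lit 59403) (.g (nat_lit 2376) (.e (nat_lit 1524) (nat_lit 108) (.e (nat_lit 336011) (nat_lit 2) (.e (nat_lit 90170) (nat_lit 13) (.e (nat_lit 172106) (nat_lit 10) (.e (nat_lit 434231) (nat_lit 23) (.e (nat_lit 532499) (nat_lit 1) (.e (nat_lit 57766) (nat_lit 221) (.e (nat_lit 1039) (nat_lit 81) .nil)))))))) (.g (nat_lit 4) .nil .nil))) 
(.lf (nat_lit 59467) (.g (nat_lit 1707) (.e (nat_lit 1524) (nat_lit 108) (.e (nat_lit 336194) (nat_lit 12) (.e (nat_lit 385066) (nat_lit 26) (.e (nat_lit 532515) (nat_lit 3) (.e (nat_lit 122624) (nat_lit 11) (.e (nat_lit 426125) (nat_lit 2) (.e (nat_lit 196640) (nat_lit 9) .nil))))))) (.g (nat_lit 4) .nil .nil)))) (.nd (nat_lit 6) 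
(.lf (nat_lit 59435) (.g (nat_lit 945) (.e (nat_lit 1524) (nat_lit 108) (.e (nat_lit 336076) (nat_lit 9) (.e (nat_lit 336332) (nat_lit 19) (.e (nat_lit 220928) (nat_lit 6) .nil)))) .nil)) 
(.lf (nat_lit 59499) (.g (nat_lit 1620) (.e (nat_lit 1524) (nat_lit 108) (.e (nat_lit 336194) (nat_lit 12) (.e (nat_lit 385106) (nat_lit 50) (.e (nat_lit 786467) (nat_lit 27) (.e (nat_lit 336173) (nat_lit 10) (.e (nat_lit 344168) (nat_lit 40) (.e (nat_lit 671751) (nat_lit 0) .nil))))))) (.g (nat_lit 4) .nil .nil))))) (.nd (nat_lit 5) (.nd (nat_lit 6) 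
(.lf (nat_lit 59419) (.g (nat_lit 2572) (.e (nat_lit 1524) (nat_lit 108) (.e (nat_lit 336012) (nat_lit 2) (.e (nat_lit 90176) (nat_lit 15) (.e (nat_lit 188450) (nat_lit 23) (.e (nat_lit 204830) (nat_lit 18) (.e (nat_lit 65280) (nat_lit 221) (.e (nat_lit 1041) (nat_lit 81) .nil))))))) (.g (nat_lit 5) .nil .nil))) 
(.lf (nat_lit 59483) (.g (nat_lit 3325) (.e (nat_lit 1524) (nat_lit 108) (.e (nat_lit 336194) (nat_lit 12) (.e (nat_lit 385102) (nat_lit 50) (.e (nat_lit 786483) (nat_lit 30) (.e (nat_lit 360486) (nat_lit 18) (.e (nat_lit 671751) (nat_lit 0) .nil)))))) (.g (nat_lit 0) .nil .nil)))) (.nd (nat_lit 6) 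
(.lf (nat_lit 59451) (.g (nat_lit 894) (.e (nat_lit 1524) (nat_lit 108) (.e (nat_lit 336194) (nat_lit 12) (.e (nat_lit 385063) (nat_lit 25) (.e (nat_lit 524322) (nat_lit 12) .nil)))) .nil)) 
(.lf (nat_lit 59515) (.g (nat_lit 872) (.e (nat_lit 1524) (nat_lit 108) (.e (nat_lit 336213) (nat_lit 13) (.e (nat_lit 401152) (nat_lit 15) .nil))) .nil)))))) (.nd (nat_lit 3) (.nd (nat_lit 4) (.nd (nat_lit 5) (.nd (nat_lit 6) 
(.lf (nat_lit 59399) (.g (nat_lit 2238) (.e (nat_lit 1524) (nat_lit 108) (.e (nat_lit 336004) (nat_lit 2) (.e (nat_lit 90176) (nat_lit 15) (.e (nat_lit 188450) (nat_lit 23) (.e (nat_lit 204821) (nat_lit 17) (.e (nat_lit 1910) (nat_lit 129) (.e (nat_lit 598026) (nat_lit 5) .nil))))))) (.g (nat_lit 4) .nil .nil))) 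
(.lf (nat_lit 59463) (.g (nat_lit 1182) (.e (nat_lit 1524) (nat_lit 108) (.e (nat_lit 336194) (nat_lit 12) (.e (nat_lit 385066) (nat_lit 26) (.e (nat_lit 532515) (nat_lit 3) .nil)))) .nil))) (.nd (nat_lit 6) 
(.lf (nat_lit 59431) (.g (nat_lit 3533) (.e (nat_lit 1524) (nat_lit 108) (.e (nat_lit 336075) (nat_lit 9) (.e (nat_lit 336369) (nat_lit 27) (.e (nat_lit 426173) (nat_lit 7) (.e (nat_lit 409649) (nat_lit 18) (.e (nat_lit 303111) (nat_lit 0) (.e (nat_lit 3459) (nat_lit 216) (.e (nat_lit 688157) (nat_lit 13) .nil)))))))) (.g (nat_lit 7) .nil .nil))) 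
(.lf (nat_lit 59495) (.g (nat_lit 3269) (.e (nat_lit 1524) (nat_lit 108) (.e (nat_lit 336194) (nat_lit 12) (.e (nat_lit 385105) (nat_lit 50) (.e (nat_lit 786481) (nat_lit 30) (.e (nat_lit 360486) (nat_lit 18) (.e (nat_lit 671751) (nat_lit 0) .nil)))))) (.g (nat_lit 0) .nil .nil))))) (.nd (nat_lit 5) (.nd (nat_lit 6) 
(.lf (nat_lit 59415) (.g (nat_lit 2146) (.e (nat_lit 1524) (nat_lit 108) (.e (nat_lit 336012) (nat_lit 2) (.e (nat_lit 90176) (nat_lit 15) (.e (nat_lit 188450) (nat_lit 23) (.e (nat_lit 204821) (nat_lit 17) (.e (nat_lit 991) (nat_lit 81) (.e (nat_lit 4500) (nat_lit 263) (.e (nat_lit 1039) (nat_lit 81) .nil)))))))) (.g (nat_lit 4) .nil .nil))) 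
(.lf (nat_lit 59479) (.g (nat_lit 2734) (.e (nat_lit 1524) (nat_lit 108) (.e (nat_lit 336194) (nat_lit 12) (.e (nat_lit 385094) (nat_lit 49) (.e (nat_lit 778327) (nat_lit 6) (.e (nat_lit 81946) (nat_lit 20) (.e (nat_lit 2005) (nat_lit 138) (.e (nat_lit 671751) (nat_lit 0) .nil))))))) (.g (nat_lit 0) .nil .nil)))) (.nd (nat_lit 6) 
(.lf (nat_lit 59447) (.g (nat_lit 3656) (.e (nat_lit 1524) (nat_lit 108) (.e (nat_lit 336186) (nat_lit 11) (.e (nat_lit 368676) (nat_lit 21) (.e (nat_lit 516179) (nat_lit 15) (.e (nat_lit 475199) (nat_lit 40) (.e (nat_lit 704589) (nat_lit 3) (.e (nat_lit 163975) (nat_lit 30) (.e (nat_lit 573460) (nat_lit 9) .nil)))))))) (.g (nat_lit 0) .nil .nil))) 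
(.lf (nat_lit 59511) (.g (nat_lit 1718) (.e (nat_lit 1524) (nat_lit 108) (.e (nat_lit 336213) (nat_lit 13) (.e (nat_lit 393229) (nat_lit 9) (.e (nat_lit 335986) (nat_lit 1) .nil)))) .nil))))) (.nd (nat_lit 4) (.nd (nat_lit 5) (.nd (nat_lit 6) 
(.lf (nat_lit 59407) (.g (nat_lit 1172) (.e (nat_lit 1524) (nat_lit 108) (.e (nat_lit 336012) (nat_lit 2) (.e (nat_lit 90176) (nat_lit 15) (.e (nat_lit 188450) (nat_lit 23) .nil)))) .nil)) 
(.lf (nat_lit 59471) (.g (nat_lit 2748) (.e (nat_lit 1524) (nat_lit 108) (.e (nat_lit 336194) (nat_lit 12) (.e (nat_lit 385074) (nat_lit 31) (.e (nat_lit 573491) (nat_lit 15) (.e (nat_lit 81946) (nat_lit 20) (.e (nat_lit 1842) (nat_lit 123) (.e (nat_lit 548878) (nat_lit 5) .nil))))))) (.g (nat_lit 4) .nil .nil)))) (.nd (nat_lit 6) 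
(.lf (nat_lit 59439) (.g (nat_lit 1866) (.e (nat_lit 1524) (nat_lit 108) (.e (nat_lit 336078) (nat_lit 9) (.e (nat_lit 336369) (nat_lit 27) (.e (nat_lit 426173) (nat_lit 7) .nil)))) .nil)) 
(.lf (nat_lit 59503) (.g (nat_lit 1977) (.e (nat_lit 1524) (nat_lit 108) (.e (nat_lit 336194) (nat_lit 12) (.e (nat_lit 385106) (nat_lit 50) (.e (nat_lit 786480) (nat_lit 29) (.e (nat_lit 352302) (nat_lit 20) .nil))))) .nil)))) (.nd (nat_lit 5) (.nd (nat_lit 6) 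
(.lf (nat_lit 59423) (.g (nat_lit 1787) (.e (nat_lit 1524) (nat_lit 108) (.e (nat_lit 336026) (nat_lit 3) (.e (nat_lit 98373) (nat_lit 29) (.e (nat_lit 450587) (nat_lit 10) (.e (nat_lit 573475) (nat_lit 12) .nil))))) .nil)) 
(.lf (nat_lit 59487) (.g (nat_lit 2357) (.e (nat_lit 1524) (nat_lit 108) (.e (nat_lit 336194) (nat_lit 12) (.e (nat_lit 385104) (nat_lit 50) (.e (nat_lit 786483) (nat_lit 30) (.e (nat_lit 360486) (nat_lit 18) (.e (nat_lit 671751) (nat_lit 0) .nil)))))) (.g (nat_lit 5) .nil .nil)))) (.nd (nat_lit 6) 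
(.lf (nat_lit 59455) (.g (nat_lit 1279) (.e (nat_lit 1524) (nat_lit 108) (.e (nat_lit 336194) (nat_lit 12) (.e (nat_lit 385066) (nat_lit 26) (.e (nat_lit 532511) (nat_lit 2) .nil)))) .nil)) 
(.lf (nat_lit 59519) (.g (nat_lit 1420) (.e (nat_lit 1524) (nat_lit 108) (.e (nat_lit 336213) (nat_lit 13) (.e (nat_lit 393233) (nat_lit 17) (.e (nat_lit 7591) (nat_lit 407) (.e (nat_lit 73730) (nat_lit 0) .nil))))) .nil)))))))))


end

end Pool.Agent.Lib.MP_5854e1_co.Cz
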