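import Pool.Agent.Lib.MP_5854e1_co.DtD

/-!
# Windows and cells of the rings
-/

set_option autoImplicit false
set_option maxRecDepth 100000
set_option deprecated.oldSectionVars true

namespace Pool.Agent.Lib.MP_5854e1_co.Cz

open Pool.Agent.Lib.MP_5854e1_co

noncomputable section

noncomputable def tv1524 : DT := (.nd (nat_lit 0) (.nd (nat_lit 1) (.nd (nat_lit 2) (.nd (nat_lit 3) (.nd (nat_lit 4) (.nd (nat_lit 5) 
(.lf (nat_lit 112960) (.g (nat_lit 1710) (.e (nat_lit 5763) (nat_lit 315) (.e (nat_lit 164017) (nat_lit 44) (.e (nat_lit 688176) (nat_lit 16) (.e (nat_lit 65627) (nat_lit 13) (.e (nat_lit 393263) (nat_lit 22) (.e (nat_lit 417815) (nat_lit 10) .nil)))))) (.g (nat_lit 5) .nil .nil))) 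
(.lf (nat_lit 112992) (.g (nat_lit 506) (.e (nat_lit 5771) (nat_lit 316) (.e (nat_lit 172128) (nat_lit 15) (.e (nat_lit 6236) (nat_lit 335) (.e (nat_lit 164372) (nat_lit 250) (.e (nat_lit 172143) (nat_lit 25) (.e (nat_lit 319491) (nat_lit 0) .nil)))))) (.g (nat_lit 0) .nil .nil)))) (.nd (nat_lit 5) 
(.lf (nat_lit 112976) (.g (nat_lit 3123) (.e (nat_lit 5766) (nat_lit 316) (.e (nat_lit 172133) (nat_lit 15) (.e (nat_lit 2175) (nat_lit 143) (.e (nat_lit 712755) (nat_lit 30) (.e (nat_lit 450597) (nat_lit 17) (.e (nat_lit 663589) (nat_lit 14) (.e (nat_lit 2515) (nat_lit 157) .nil))))))) (.g (nat_lit 6) .nil .nil))) 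
(.lf (nat_lit 113008) (.g (nat_lit 1593) (.e (nat_lit 5771) (nat_lit 316) (.e (nat_lit 172150) (nat_lit 27) (.e (nat_lit 335894) (nat_lit 0) (.e (nat_lit 6735) (nat_lit 364) .nil)))) .nil)))) (.nd (nat_lit 4) (.nd (nat_lit 5) 
(.lf (nat_lit 112968) (.g (nat_lit 1807) (.e (nat_lit 5763) (nat_lit 315) (.e (nat_lit 164020) (nat_lit 45) (.e (nat_lit 696361) (nat_lit 16) (.e (nat_lit 65627) (nat_lit 13) (.e (nat_lit 393263) (nat_lit 22) (.e (nat_lit 417815) (nat_lit 10) .nil)))))) (.g (nat_lit 5) .nil .nil))) 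
(.lf (nat_lit 113000) (.g (nat_lit 448) (.e (nat_lit 5771) (nat_lit 316) (.e (nat_lit 172133) (nat_lit 15) (.e (nat_lit 2059) (nat_lit 142) .nil))) .nil))) (.nd (nat_lit 5) 
(.lf (nat_lit 112984) (.g (nat_lit 845) (.e (nat_lit 5768) (nat_lit 316) (.e (nat_lit 172140) (nat_lit 22) (.e (nat_lit 139282) (nat_lit 6) (.e (nat_lit 81935) (nat_lit 20) (.e (nat_lit 2383) (nat_lit 155) (.e (nat_lit 811012) (nat_lit 0) .nil)))))) (.g (nat_lit 0) .nil .nil))) 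
(.lf (nat_lit 113016) (.g (nat_lit 1074) (.e (nat_lit 5772) (nat_lit 316) (.e (nat_lit 172133) (nat_lit 15) (.e (nat_lit 1855) (nat_lit 124) (.e (nat_lit 557101) (nat_lit 13) .nil)))) .nil))))) (.nd (nat_lit 3) (.nd (nat_lit 4) (.nd (nat_lit 5) 
(.lf (nat_lit 112964) (.g (nat_lit 1735) (.e (nat_lit 5763) (nat_lit 315) (.e (nat_lit 164017) (nat_lit 44) (.e (nat_lit 688177) (nat_lit 16) (.e (nat_lit 65627) (nat_lit 13) (.e (nat_lit 393262) (nat_lit 22) .nil))))) .nil)) 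
(.lf (nat_lit 112996) (.g (nat_lit 715) (.e (nat_lit 5771) (nat_lit 316) (.e (nat_lit 172130) (nat_lit 15) (.e (nat_lit 6241) (nat_lit 336) (.e (nat_lit 229694) (nat_lit 250) (.e (nat_lit 172143) (nat_lit 25) (.e (nat_lit 319491) (nat_lit 0) .nil)))))) (.g (nat_lit 0) .nil .nil)))) (.nd (nat_lit 5) 
(.lf (nat_lit 112980) (.g (nat_lit 2061) (.e (nat_lit 5766) (nat_lit 316) (.e (nat_lit 172150) (nat_lit 27) (.e (nat_lit 336231) (nat_lit 14) (.e (nat_lit 401434) (nat_lit 9) (.e (nat_lit 433920) (nat_lit 25) .nil))))) .nil)) 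
(.lf (nat_lit 113012) (.g (nat_lit 722) (.e (nat_lit 5771) (nat_lit 316) (.e (nat_lit 172150) (nat_lit 27) (.e (nat_lit 336070) (nat_lit 8) (.e (nat_lit 327718) (nat_lit 19) .nil)))) .nil)))) (.nd (nat_lit 4) (.nd (nat_lit 5) 
(.lf (nat_lit 112972) (.g (nat_lit 2135) (.e (nat_lit 7936) (nat_lit 315) (.e (nat_lit 163962) (nat_lit 25) (.e (nat_lit 532535) (nat_lit 9) (.e (nat_lit 336163) (nat_lit 10) .nil)))) .nil)) 
(.lf (nat_lit 113004) (.g (nat_lit 947) (.e (nat_lit 5771) (nat_lit 316) (.e (nat_lit 172143) (nat_lit 25) (.e (nat_lit 319493) (nat_lit 0) (.e (nat_lit 5771) (nat_lit 316) (.e (nat_lit 172143) (nat_lit 25) (.e (nat_lit 319490) (nat_lit 0) .nil)))))) (.g (nat_lit 0) .nil .nil)))) (.nd (nat_lit 5) 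
(.lf (nat_lit 112988) (.g (nat_lit 477) (.e (nat_lit 5771) (nat_lit 316) (.e (nat_lit 172128) (nat_lit 15) (.e (nat_lit 6232) (nat_lit 335) (.e (nat_lit 164372) (nat_lit 250) (.e (nat_lit 172143) (nat_lit 25) (.e (nat_lit 319491) (nat_lit 0) .nil)))))) (.g (nat_lit 0) .nil .nil))) 
(.lf (nat_lit 113020) (.g (nat_lit 1198) (.e (nat_lit 5772) (nat_lit 316) (.e (nat_lit 172140) (nat_lit 22) (.e (nat_lit 139282) (nat_lit 6) (.e (nat_lit 81935) (nat_lit 20) (.e (nat_lit 2384) (nat_lit 155) (.e (nat_lit 811011) (nat_lit 0) .nil)))))) (.g (nat_lit 0) .nil .nil))))))) (.nd (nat_lit 2) (.nd (nat_lit 3) (.nd (nat_lit 4) (.nd (nat_lit 5) 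
(.lf (nat_lit 112962) (.g (nat_lit 2231) (.e (nat_lit 5763) (nat_lit 315) (.e (nat_lit 164017) (nat_lit 44) (.e (nat_lit 688177) (nat_lit 16) (.e (nat_lit 65625) (nat_lit 13) (.e (nat_lit 393263) (nat_lit 22) (.e (nat_lit 417815) (nat_lit 10) .nil)))))) (.g (nat_lit 5) .nil .nil))) 
(.lf (nat_lit 112994) (.g (nat_lit 420) (.e (nat_lit 5771) (nat_lit 316) (.e (nat_lit 172128) (nat_lit 15) (.e (nat_lit 6236) (nat_lit 335) (.e (nat_lit 164377) (nat_lit 253) (.e (nat_lit 245504) (nat_lit 25) (.e (nat_lit 319491) (nat_lit 0) .nil)))))) (.g (nat_lit 4) .nil .nil)))) (.nd (nat_lit 5) 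
(.lf (nat_lit 112978) (.g (nat_lit 1695) (.e (nat_lit 5766) (nat_lit 316) (.e (nat_lit 172150) (nat_lit 27) (.e (nat_lit 335894) (nat_lit 0) (.e (nat_lit 6732) (nat_lit 364) .nil)))) .nil)) 
(.lf (nat_lit 113010) (.g (nat_lit 1161) (.e (nat_lit 5771) (nat_lit 316) (.e (nat_lit 172150) (nat_lit 27) (.e (nat_lit 335906) (nat_lit 0) (.e (nat_lit 6113) (nat_lit 332) (.e (nat_lit 1376) (nat_lit 104) (.e (nat_lit 311040) (nat_lit 25) (.e (nat_lit 319492) (nat_lit 0) .nil))))))) (.g (nat_lit 4) .nil .nil))))) (.nd (nat_lit 4) (.nd (nat_lit 5) 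
(.lf (nat_lit 112970) (.g (nat_lit 4452) (.e (nat_lit 5763) (nat_lit 315) (.e (nat_lit 164238) (nat_lit 187) (.e (nat_lit 1234) (nat_lit 91) (.e (nat_lit 90170) (nat_lit 13) (.e (nat_lit 172106) (nat_lit 10) (.e (nat_lit 434227) (nat_lit 20) (.e (nat_lit 507930) (nat_lit 10) .nil))))))) (.g (nat_lit 5) .nil .nil))) 
(.lf (nat_lit 113002) (.g (nat_lit 758) (.e (nat_lit 5771) (nat_lit 316) (.e (nat_lit 172143) (nat_lit 25) (.e (nat_lit 319490) (nat_lit 0) (.e (nat_lit 5792) (nat_lit 319) (.e (nat_lit 245504) (nat_lit 25) .nil))))) .nil))) (.nd (nat_lit 5) 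
(.lf (nat_lit 112986) (.g (nat_lit 1086) (.e (nat_lit 5770) (nat_lit 316) (.e (nat_lit 172070) (nat_lit 4) (.e (nat_lit 229629) (nat_lit 226) (.e (nat_lit 1212) (nat_lit 89) (.e (nat_lit 73789) (nat_lit 45) .nil))))) .nil)) 
(.lf (nat_lit 113018) (.g (nat_lit 529) (.e (nat_lit 5772) (nat_lit 316) (.e (nat_lit 172140) (nat_lit 22) (.e (nat_lit 139282) (nat_lit 6) (.e (nat_lit 81933) (nat_lit 20) (.e (nat_lit 2384) (nat_lit 155) (.e (nat_lit 811012) (nat_lit 0) .nil)))))) (.g (nat_lit 0) .nil .nil)))))) (.nd (nat_lit 3) (.nd (nat_lit 4) (.nd (nat_lit 5) 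
(.lf (nat_lit 112966) (.g (nat_lit 2449) (.e (nat_lit 5763) (nat_lit 315) (.e (nat_lit 164017) (nat_lit 44) (.e (nat_lit 688178) (nat_lit 16) (.e (nat_lit 65626) (nat_lit 13) (.e (nat_lit 393260) (nat_lit 21) (.e (nat_lit 409615) (nat_lit 10) .nil)))))) (.g (nat_lit 0) .nil .nil))) 
(.lf (nat_lit 112998) (.g (nat_lit 843) (.e (nat_lit 5771) (nat_lit 316) (.e (nat_lit 172130) (nat_lit 15) (.e (nat_lit 6243) (nat_lit 336) (.e (nat_lit 229694) (nat_lit 250) (.e (nat_lit 172143) (nat_lit 25) (.e (nat_lit 319491) (nat_lit 0) .nil)))))) (.g (nat_lit 0) .nil .nil)))) (.nd (nat_lit 5) 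
(.lf (nat_lit 112982) (.g (nat_lit 491) (.e (nat_lit 5768) (nat_lit 316) (.e (nat_lit 172140) (nat_lit 22) (.e (nat_lit 139282) (nat_lit 6) (.e (nat_lit 81933) (nat_lit 20) (.e (nat_lit 2383) (nat_lit 155) (.e (nat_lit 811012) (nat_lit 0) .nil)))))) (.g (nat_lit 0) .nil .nil))) 
(.lf (nat_lit 113014) (.g (nat_lit 1571) (.e (nat_lit 5771) (nat_lit 316) (.e (nat_lit 179968) (nat_lit 29) (.e (nat_lit 352316) (nat_lit 24) (.e (nat_lit 123195) (nat_lit 266) (.e (nat_lit 57400) (nat_lit 10) (.e (nat_lit 327424) (nat_lit 0) .nil)))))) (.g (nat_lit 5) .nil .nil))))) (.nd (nat_lit 4) (.nd (nat_lit 5) 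
(.lf (nat_lit 112974) (.g (nat_lit 2000) (.e (nat_lit 7936) (nat_lit 315) (.e (nat_lit 163962) (nat_lit 25) (.e (nat_lit 532535) (nat_lit 9) (.e (nat_lit 336178) (nat_lit 10) .nil)))) .nil)) 
(.lf (nat_lit 113006) (.g (nat_lit 215) (.e (nat_lit 5771) (nat_lit 316) (.e (nat_lit 172150) (nat_lit 27) (.e (nat_lit 335893) (nat_lit 0) .nil))) .nil))) (.nd (nat_lit 5) 
(.lf (nat_lit 112990) (.g (nat_lit 485) (.e (nat_lit 5771) (nat_lit 316) (.e (nat_lit 172128) (nat_lit 15) (.e (nat_lit 6232) (nat_lit 335) (.e (nat_lit 164377) (nat_lit 253) (.e (nat_lit 245504) (nat_lit 25) .nil))))) .nil)) 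
(.lf (nat_lit 113022) (.g (nat_lit 2544) (.e (nat_lit 5773) (nat_lit 316) (.e (nat_lit 172133) (nat_lit 15) (.e (nat_lit 1856) (nat_lit 124) (.e (nat_lit 557098) (nat_lit 13) (.e (nat_lit 172115) (nat_lit 10) (.e (nat_lit 434227) (nat_lit 20) (.e (nat_lit 507930) (nat_lit 10) .nil))))))) (.g (nat_lit 5) .nil .nil)))))))) 
(.nd (nat_lit 1) (.nd (nat_lit 2) (.nd (nat_lit 3) (.nd (nat_lit 4) (.nd (nat_lit 5) 
(.lf (nat_lit 112961) (.g (nat_lit 1755) (.e (nat_lit 5763) (nat_lit 315) (.e (nat_lit 164017) (nat_lit 44) (.e (nat_lit 688177) (nat_lit 16) (.e (nat_lit 65625) (nat_lit 13) (.e (nat_lit 393262) (nat_lit 22) .nil))))) .nil)) 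
(.lf (nat_lit 112993) (.g (nat_lit 501) (.e (nat_lit 5771) (nat_lit 316) (.e (nat_lit 172128) (nat_lit 15) (.e (nat_lit 6236) (nat_lit 335) (.e (nat_lit 164372) (nat_lit 250) (.e (nat_lit 172143) (nat_lit 25) (.e (nat_lit 319493) (nat_lit 0) .nil)))))) (.g (nat_lit 0) .nil .nil)))) (.nd (nat_lit 5) 
(.lf (nat_lit 112977) (.g (nat_lit 2077) (.e (nat_lit 5766) (nat_lit 316) (.e (nat_lit 172150) (nat_lit 27) (.e (nat_lit 335894) (nat_lit 0) (.e (nat_lit 6718) (nat_lit 361) (.e (nat_lit 172143) (nat_lit 25) .nil))))) .nil)) 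
(.lf (nat_lit 113009) (.g (nat_lit 970) (.e (nat_lit 5771) (nat_lit 316) (.e (nat_lit 172150) (nat_lit 27) (.e (nat_lit 335895) (nat_lit 0) (.e (nat_lit 6732) (nat_lit 364) .nil)))) .nil)))) (.nd (nat_lit 4) (.nd (nat_lit 5) 
(.lf (nat_lit 112969) (.g (nat_lit 4412) (.e (nat_lit 5763) (nat_lit 315) (.e (nat_lit 164238) (nat_lit 187) (.e (nat_lit 1234) (nat_lit 91) (.e (nat_lit 90170) (nat_lit 13) (.e (nat_lit 172106) (nat_lit 10) (.e (nat_lit 434227) (nat_lit 20) (.e (nat_lit 507929) (nat_lit 10) .nil))))))) (.g (nat_lit 5) .nil .nil))) 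
(.lf (nat_lit 113001) (.g (nat_lit 829) (.e (nat_lit 5771) (nat_lit 316) (.e (nat_lit 172133) (nat_lit 15) (.e (nat_lit 2175) (nat_lit 143) (.e (nat_lit 712752) (nat_lit 29) .nil)))) .nil))) (.nd (nat_lit 5) 
(.lf (nat_lit 112985) (.g (nat_lit 1225) (.e (nat_lit 5768) (nat_lit 316) (.e (nat_lit 172140) (nat_lit 22) (.e (nat_lit 139282) (nat_lit 6) (.e (nat_lit 81935) (nat_lit 20) (.e (nat_lit 2384) (nat_lit 155) (.e (nat_lit 811011) (nat_lit 0) .nil)))))) (.g (nat_lit 0) .nil .nil))) 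
(.lf (nat_lit 113017) (.g (nat_lit 569) (.e (nat_lit 5772) (nat_lit 316) (.e (nat_lit 172140) (nat_lit 22) (.e (nat_lit 139282) (nat_lit 6) (.e (nat_lit 81933) (nat_lit 20) (.e (nat_lit 2384) (nat_lit 155) (.e (nat_lit 811011) (nat_lit 0) .nil)))))) (.g (nat_lit 0) .nil .nil)))))) (.nd (nat_lit 3) (.nd (nat_lit 4) (.nd (nat_lit 5) 
(.lf (nat_lit 112965) (.g (nat_lit 3079) (.e (nat_lit 5763) (nat_lit 315) (.e (nat_lit 164017) (nat_lit 44) (.e (nat_lit 688177) (nat_lit 16) (.e (nat_lit 65627) (nat_lit 13) (.e (nat_lit 393263) (nat_lit 22) (.e (nat_lit 417815) (nat_lit 10) .nil)))))) (.g (nat_lit 0) .nil .nil))) 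
(.lf (nat_lit 112997) (.g (nat_lit 741) (.e (nat_lit 5771) (nat_lit 316) (.e (nat_lit 172130) (nat_lit 15) (.e (nat_lit 6242) (nat_lit 336) (.e (nat_lit 229694) (nat_lit 250) (.e (nat_lit 172143) (nat_lit 25) (.e (nat_lit 319491) (nat_lit 0) .nil)))))) (.g (nat_lit 0) .nil .nil)))) (.nd (nat_lit 5) 
(.lf (nat_lit 112981) (.g (nat_lit 1955) (.e (nat_lit 5766) (nat_lit 316) (.e (nat_lit 172150) (nat_lit 27) (.e (nat_lit 336232) (nat_lit 14) (.e (nat_lit 401444) (nat_lit 9) (.e (nat_lit 433920) (nat_lit 25) .nil))))) .nil)) 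
(.lf (nat_lit 113013) (.g (nat_lit 1622) (.e (nat_lit 5771) (nat_lit 316) (.e (nat_lit 172150) (nat_lit 27) (.e (nat_lit 336231) (nat_lit 14) (.e (nat_lit 401440) (nat_lit 9) (.e (nat_lit 433920) (nat_lit 25) .nil))))) .nil)))) (.nd (nat_lit 4) (.nd (nat_lit 5) 
(.lf (nat_lit 112973) (.g (nat_lit 1969) (.e (nat_lit 7936) (nat_lit 315) (.e (nat_lit 163962) (nat_lit 25) (.e (nat_lit 532535) (nat_lit 9) (.e (nat_lit 336176) (nat_lit 10) (.e (nat_lit 344120) (nat_lit 21) .nil))))) .nil)) 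
(.lf (nat_lit 113005) (.g (nat_lit 621) (.e (nat_lit 5771) (nat_lit 316) (.e (nat_lit 172149) (nat_lit 27) (.e (nat_lit 335876) (nat_lit 0) (.e (nat_lit 6734) (nat_lit 364) (.e (nat_lit 245504) (nat_lit 25) .nil))))) .nil))) (.nd (nat_lit 5) 
(.lf (nat_lit 112989) (.g (nat_lit 480) (.e (nat_lit 5771) (nat_lit 316) (.e (nat_lit 172128) (nat_lit 15) (.e (nat_lit 6232) (nat_lit 335) (.e (nat_lit 164372) (nat_lit 250) (.e (nat_lit 172143) (nat_lit 25) (.e (nat_lit 319493) (nat_lit 0) .nil)))))) (.g (nat_lit 0) .nil .nil))) 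
(.lf (nat_lit 113021) (.g (nat_lit 1159) (.e (nat_lit 5772) (nat_lit 316) (.e (nat_lit 172140) (nat_lit 22) (.e (nat_lit 139282) (nat_lit 6) (.e (nat_lit 81935) (nat_lit 20) (.e (nat_lit 2384) (nat_lit 155) (.e (nat_lit 811012) (nat_lit 0) .nil)))))) (.g (nat_lit 0) .nil .nil))))))) (.nd (nat_lit 2) (.nd (nat_lit 3) (.nd (nat_lit 4) (.nd (nat_lit 5) 
(.lf (nat_lit 112963) (.g (nat_lit 1081) (.e (nat_lit 5763) (nat_lit 315) (.e (nat_lit 164017) (nat_lit 44) (.e (nat_lit 688177) (nat_lit 16) (.e (nat_lit 65627) (nat_lit 13) .nil)))) .nil)) 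
(.lf (nat_lit 112995) (.g (nat_lit 453) (.e (nat_lit 5771) (nat_lit 316) (.e (nat_lit 172128) (nat_lit 15) (.e (nat_lit 6237) (nat_lit 335) (.e (nat_lit 164372) (nat_lit 250) (.e (nat_lit 172143) (nat_lit 25) (.e (nat_lit 319493) (nat_lit 0) .nil)))))) (.g (nat_lit 0) .nil .nil)))) (.nd (nat_lit 5) 
(.lf (nat_lit 112979) (.g (nat_lit 254) (.e (nat_lit 5766) (nat_lit 316) (.e (nat_lit 172150) (nat_lit 27) (.e (nat_lit 336070) (nat_lit 8) .nil))) .nil)) 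
(.lf (nat_lit 113011) (.g (nat_lit 884) (.e (nat_lit 5771) (nat_lit 316) (.e (nat_lit 172150) (nat_lit 27) (.e (nat_lit 336054) (nat_lit 7) (.e (nat_lit 319539) (nat_lit 19) (.e (nat_lit 319232) (nat_lit 25) (.e (nat_lit 319492) (nat_lit 0) .nil)))))) (.g (nat_lit 4) .nil .nil))))) (.nd (nat_lit 4) (.nd (nat_lit 5) 
(.lf (nat_lit 112971) (.g (nat_lit 1754) (.e (nat_lit 7936) (nat_lit 315) (.e (nat_lit 163962) (nat_lit 25) (.e (nat_lit 532535) (nat_lit 9) (.e (nat_lit 336073) (nat_lit 9) .nil)))) .nil)) 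
(.lf (nat_lit 113003) (.g (nat_lit 360) (.e (nat_lit 5771) (nat_lit 316) (.e (nat_lit 172143) (nat_lit 25) (.e (nat_lit 319491) (nat_lit 0) (.e (nat_lit 5792) (nat_lit 319) (.e (nat_lit 245504) (nat_lit 25) .nil))))) .nil))) (.nd (nat_lit 5) 
(.lf (nat_lit 112987) (.g (nat_lit 1982) (.e (nat_lit 5770) (nat_lit 316) (.e (nat_lit 172138) (nat_lit 15) (.e (nat_lit 1856) (nat_lit 124) (.e (nat_lit 557100) (nat_lit 13) (.e (nat_lit 172113) (nat_lit 10) .nil))))) .nil)) 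
(.lf (nat_lit 113019) (.g (nat_lit 833) (.e (nat_lit 5772) (nat_lit 316) (.e (nat_lit 172140) (nat_lit 22) (.e (nat_lit 139282) (nat_lit 6) (.e (nat_lit 81935) (nat_lit 20) (.e (nat_lit 2383) (nat_lit 155) (.e (nat_lit 811012) (nat_lit 0) .nil)))))) (.g (nat_lit 0) .nil .nil)))))) (.nd (nat_lit 3) (.nd (nat_lit 4) (.nd (nat_lit 5) 
(.lf (nat_lit 112967) (.g (nat_lit 3435) (.e (nat_lit 5763) (nat_lit 315) (.e (nat_lit 164017) (nat_lit 44) (.e (nat_lit 688178) (nat_lit 16) (.e (nat_lit 65626) (nat_lit 13) (.e (nat_lit 393260) (nat_lit 21) (.e (nat_lit 409616) (nat_lit 10) .nil)))))) (.g (nat_lit 0) .nil .nil))) 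
(.lf (nat_lit 112999) (.g (nat_lit 835) (.e (nat_lit 5771) (nat_lit 316) (.e (nat_lit 172130) (nat_lit 15) (.e (nat_lit 6244) (nat_lit 336) (.e (nat_lit 229694) (nat_lit 250) (.e (nat_lit 172143) (nat_lit 25) (.e (nat_lit 319491) (nat_lit 0) .nil)))))) (.g (nat_lit 0) .nil .nil)))) (.nd (nat_lit 5) 
(.lf (nat_lit 112983) (.g (nat_lit 598) (.e (nat_lit 5768) (nat_lit 316) (.e (nat_lit 172140) (nat_lit 22) (.e (nat_lit 139282) (nat_lit 6) (.e (nat_lit 81933) (nat_lit 20) (.e (nat_lit 2384) (nat_lit 155) (.e (nat_lit 811011) (nat_lit 0) .nil)))))) (.g (nat_lit 0) .nil .nil))) 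
(.lf (nat_lit 113015) (.g (nat_lit 1445) (.e (nat_lit 5771) (nat_lit 316) (.e (nat_lit 179968) (nat_lit 29) (.e (nat_lit 352318) (nat_lit 24) (.e (nat_lit 123195) (nat_lit 266) (.e (nat_lit 57400) (nat_lit 10) (.e (nat_lit 327424) (nat_lit 0) .nil)))))) (.g (nat_lit 5) .nil .nil))))) (.nd (nat_lit 4) (.nd (nat_lit 5) 
(.lf (nat_lit 112975) (.g (nat_lit 998) (.e (nat_lit 7936) (nat_lit 315) (.e (nat_lit 164017) (nat_lit 44) (.e (nat_lit 688138) (nat_lit 5) (.e (nat_lit 2887) (nat_lit 184) .nil)))) .nil)) 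
(.lf (nat_lit 113007) (.g (nat_lit 2162) (.e (nat_lit 5771) (nat_lit 316) (.e (nat_lit 172150) (nat_lit 27) (.e (nat_lit 335894) (nat_lit 0) (.e (nat_lit 6732) (nat_lit 364) (.e (nat_lit 245504) (nat_lit 25) .nil))))) .nil))) (.nd (nat_lit 5) 
(.lf (nat_lit 112991) (.g (nat_lit 539) (.e (nat_lit 5771) (nat_lit 316) (.e (nat_lit 172128) (nat_lit 15) (.e (nat_lit 6232) (nat_lit 335) (.e (nat_lit 164377) (nat_lit 253) (.e (nat_lit 245504) (nat_lit 25) (.e (nat_lit 319492) (nat_lit 0) .nil)))))) (.g (nat_lit 4) .nil .nil))) 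
(.lf (nat_lit 113023) (.g (nat_lit 3468) (.e (nat_lit 5773) (nat_lit 316) (.e (nat_lit 172133) (nat_lit 15) (.e (nat_lit 1856) (nat_lit 124) (.e (nat_lit 557100) (nat_lit 13) (.e (nat_lit 172106) (nat_lit 10) (.e (nat_lit 434227) (nat_lit 20) (.e (nat_lit 507929) (nat_lit 10) .nil))))))) (.g (nat_lit 6) .nil .nil)))))))))

noncomputable def tv1525 : DT := (.nd (nat_lit 0) (.nd (nat_lit 1) (.nd (nat_lit 2) (.nd (nat_lit 3) (.nd (nat_lit 4) (.nd (nat_lit 5) 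
(.lf (nat_lit 113024) (.g (nat_lit 1701) (.e (nat_lit 5773) (nat_lit 316) (.e (nat_lit 172138) (nat_lit 15) (.e (nat_lit 1855) (nat_lit 124) (.e (nat_lit 557098) (nat_lit 13) (.e (nat_lit 172115) (nat_lit 10) .nil))))) .nil)) 
(.lf (nat_lit 113056) (.g (nat_lit 2574) (.e (nat_lit 5777) (nat_lit 317) (.e (nat_lit 180273) (nat_lit 31) (.e (nat_lit 745476) (nat_lit 0) (.e (nat_lit 1586) (nat_lit 111) (.e (nat_lit 360450) (nat_lit 0) (.e (nat_lit 4132) (nat_lit 246) (.e (nat_lit 8195) (nat_lit 0) .nil))))))) (.g (nat_lit 6) .nil .nil)))) (.nd (nat_lit 5) 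
(.lf (nat_lit 113040) (.g (nat_lit 836) (.e (nat_lit 5777) (nat_lit 317) (.e (nat_lit 180248) (nat_lit 9) (.e (nat_lit 565252) (nat_lit 0) (.e (nat_lit 1586) (nat_lit 111) (.e (nat_lit 368384) (nat_lit 26) (.e (nat_lit 811010) (nat_lit 0) .nil)))))) (.g (nat_lit 4) .nil .nil))) 
(.lf (nat_lit 113072) (.g (nat_lit 789) (.e (nat_lit 5779) (nat_lit 317) (.e (nat_lit 180241) (nat_lit 4) (.e (nat_lit 524340) (nat_lit 28) (.e (nat_lit 352285) (nat_lit 20) (.e (nat_lit 2383) (nat_lit 155) (.e (nat_lit 811012) (nat_lit 0) .nil)))))) (.g (nat_lit 0) .nil .nil))))) (.nd (nat_lit 4) (.nd (nat_lit 5) 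
(.lf (nat_lit 113032) (.g (nat_lit 737) (.e (nat_lit 5776) (nat_lit 317) (.e (nat_lit 180241) (nat_lit 4) (.e (nat_lit 524340) (nat_lit 28) (.e (nat_lit 352285) (nat_lit 20) (.e (nat_lit 2383) (nat_lit 155) (.e (nat_lit 811012) (nat_lit 0) .nil)))))) (.g (nat_lit 0) .nil .nil))) 
(.lf (nat_lit 113064) (.g (nat_lit 649) (.e (nat_lit 5779) (nat_lit 317) (.e (nat_lit 180228) (nat_lit 0) (.e (nat_lit 5048) (nat_lit 292) (.e (nat_lit 7936) (nat_lit 89) .nil)))) .nil))) (.nd (nat_lit 5) 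
(.lf (nat_lit 113048) (.g (nat_lit 664) (.e (nat_lit 5777) (nat_lit 317) (.e (nat_lit 180248) (nat_lit 9) (.e (nat_lit 573184) (nat_lit 6) (.e (nat_lit 81935) (nat_lit 20) (.e (nat_lit 2383) (nat_lit 155) (.e (nat_lit 811012) (nat_lit 0) .nil)))))) (.g (nat_lit 5) .nil .nil))) 
(.lf (nat_lit 113080) (.g (nat_lit 1687) (.e (nat_lit 5779) (nat_lit 317) (.e (nat_lit 180248) (nat_lit 9) (.e (nat_lit 565269) (nat_lit 6) (.e (nat_lit 81935) (nat_lit 20) (.e (nat_lit 2383) (nat_lit 155) (.e (nat_lit 811012) (nat_lit 0) .nil)))))) (.g (nat_lit 0) .nil .nil)))))) (.nd (nat_lit 3) (.nd (nat_lit 4) (.nd (nat_lit 5) 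
(.lf (nat_lit 113028) (.g (nat_lit 598) (.e (nat_lit 5776) (nat_lit 317) (.e (nat_lit 180233) (nat_lit 0) (.e (nat_lit 5045) (nat_lit 292) (.e (nat_lit 1207) (nat_lit 89) (.e (nat_lit 73792) (nat_lit 45) .nil))))) .nil)) 
(.lf (nat_lit 113060) (.g (nat_lit 933) (.e (nat_lit 5779) (nat_lit 317) (.e (nat_lit 180225) (nat_lit 0) (.e (nat_lit 5122) (nat_lit 292) (.e (nat_lit 7936) (nat_lit 89) .nil)))) .nil))) (.nd (nat_lit 5) 
(.lf (nat_lit 113044) (.g (nat_lit 322) (.e (nat_lit 5777) (nat_lit 317) (.e (nat_lit 180248) (nat_lit 9) (.e (nat_lit 565252) (nat_lit 0) (.e (nat_lit 1599) (nat_lit 111) (.e (nat_lit 368384) (nat_lit 26) .nil))))) .nil)) 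
(.lf (nat_lit 113076) (.g (nat_lit 795) (.e (nat_lit 5779) (nat_lit 317) (.e (nat_lit 180248) (nat_lit 9) (.e (nat_lit 565252) (nat_lit 0) (.e (nat_lit 1595) (nat_lit 111) (.e (nat_lit 368384) (nat_lit 26) (.e (nat_lit 811010) (nat_lit 0) .nil)))))) (.g (nat_lit 4) .nil .nil))))) (.nd (nat_lit 4) (.nd (nat_lit 5) 
(.lf (nat_lit 113036) (.g (nat_lit 915) (.e (nat_lit 5776) (nat_lit 317) (.e (nat_lit 180260) (nat_lit 18) (.e (nat_lit 639020) (nat_lit 16) (.e (nat_lit 65585) (nat_lit 7) (.e (nat_lit 319527) (nat_lit 15) (.e (nat_lit 278532) (nat_lit 0) .nil)))))) (.g (nat_lit 4) .nil .nil))) 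
(.lf (nat_lit 113068) (.g (nat_lit 594) (.e (nat_lit 5779) (nat_lit 317) (.e (nat_lit 180228) (nat_lit 0) (.e (nat_lit 5190) (nat_lit 294) .nil))) .nil))) (.nd (nat_lit 5) 
(.lf (nat_lit 113052) (.g (nat_lit 470) (.e (nat_lit 5777) (nat_lit 317) (.e (nat_lit 180259) (nat_lit 17) (.e (nat_lit 630820) (nat_lit 16) (.e (nat_lit 65585) (nat_lit 7) (.e (nat_lit 319527) (nat_lit 15) (.e (nat_lit 278531) (nat_lit 0) .nil)))))) (.g (nat_lit 6) .nil .nil))) 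
(.lf (nat_lit 113084) (.g (nat_lit 872) (.e (nat_lit 5779) (nat_lit 317) (.e (nat_lit 180259) (nat_lit 17) (.e (nat_lit 630820) (nat_lit 16) (.e (nat_lit 65584) (nat_lit 7) (.e (nat_lit 319527) (nat_lit 15) (.e (nat_lit 278531) (nat_lit 0) .nil)))))) (.g (nat_lit 0) .nil .nil))))))) (.nd (nat_lit 2) (.nd (nat_lit 3) (.nd (nat_lit 4) (.nd (nat_lit 5) 
(.lf (nat_lit 113026) (.g (nat_lit 1310) (.e (nat_lit 5774) (nat_lit 317) (.e (nat_lit 180271) (nat_lit 26) (.e (nat_lit 704738) (nat_lit 11) (.e (nat_lit 16440) (nat_lit 9) .nil)))) .nil)) 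
(.lf (nat_lit 113058) (.g (nat_lit 1775) (.e (nat_lit 5779) (nat_lit 317) (.e (nat_lit 180225) (nat_lit 0) (.e (nat_lit 5117) (nat_lit 292) (.e (nat_lit 1207) (nat_lit 89) (.e (nat_lit 73792) (nat_lit 45) (.e (nat_lit 1342) (nat_lit 101) (.e (nat_lit 278531) (nat_lit 0) .nil))))))) (.g (nat_lit 5) .nil .nil)))) (.nd (nat_lit 5) 
(.lf (nat_lit 113042) (.g (nat_lit 671) (.e (nat_lit 5777) (nat_lit 317) (.e (nat_lit 180248) (nat_lit 9) (.e (nat_lit 565252) (nat_lit 0) (.e (nat_lit 1595) (nat_lit 111) (.e (nat_lit 368384) (nat_lit 26) .nil))))) .nil)) 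
(.lf (nat_lit 113074) (.g (nat_lit 1078) (.e (nat_lit 5779) (nat_lit 317) (.e (nat_lit 180248) (nat_lit 9) (.e (nat_lit 565252) (nat_lit 0) (.e (nat_lit 1586) (nat_lit 111) (.e (nat_lit 368384) (nat_lit 26) (.e (nat_lit 811010) (nat_lit 0) .nil)))))) (.g (nat_lit 4) .nil .nil))))) (.nd (nat_lit 4) (.nd (nat_lit 5) 
(.lf (nat_lit 113034) (.g (nat_lit 651) (.e (nat_lit 5776) (nat_lit 317) (.e (nat_lit 180248) (nat_lit 9) (.e (nat_lit 573184) (nat_lit 6) (.e (nat_lit 81931) (nat_lit 20) (.e (nat_lit 2383) (nat_lit 155) (.e (nat_lit 811012) (nat_lit 0) .nil)))))) (.g (nat_lit 5) .nil .nil))) 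
(.lf (nat_lit 113066) (.g (nat_lit 959) (.e (nat_lit 5779) (nat_lit 317) (.e (nat_lit 180228) (nat_lit 0) (.e (nat_lit 5065) (nat_lit 292) (.e (nat_lit 7936) (nat_lit 89) .nil)))) .nil))) (.nd (nat_lit 5) 
(.lf (nat_lit 113050) (.g (nat_lit 685) (.e (nat_lit 5777) (nat_lit 317) (.e (nat_lit 180259) (nat_lit 17) (.e (nat_lit 630820) (nat_lit 16) (.e (nat_lit 65584) (nat_lit 7) (.e (nat_lit 319527) (nat_lit 15) (.e (nat_lit 278531) (nat_lit 0) .nil)))))) (.g (nat_lit 6) .nil .nil))) 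
(.lf (nat_lit 113082) (.g (nat_lit 707) (.e (nat_lit 5779) (nat_lit 317) (.e (nat_lit 180248) (nat_lit 9) (.e (nat_lit 573184) (nat_lit 6) (.e (nat_lit 81931) (nat_lit 20) (.e (nat_lit 2383) (nat_lit 155) (.e (nat_lit 811012) (nat_lit 0) .nil)))))) (.g (nat_lit 5) .nil .nil)))))) (.nd (nat_lit 3) (.nd (nat_lit 4) (.nd (nat_lit 5) 
(.lf (nat_lit 113030) (.g (nat_lit 1775) (.e (nat_lit 5776) (nat_lit 317) (.e (nat_lit 180233) (nat_lit 0) (.e (nat_lit 5152) (nat_lit 292) (.e (nat_lit 1209) (nat_lit 89) (.e (nat_lit 73789) (nat_lit 45) (.e (nat_lit 1342) (nat_lit 101) (.e (nat_lit 278531) (nat_lit 0) .nil))))))) (.g (nat_lit 5) .nil .nil))) 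
(.lf (nat_lit 113062) (.g (nat_lit 420) (.e (nat_lit 5779) (nat_lit 317) (.e (nat_lit 180228) (nat_lit 0) (.e (nat_lit 5046) (nat_lit 292) .nil))) .nil))) (.nd (nat_lit 5) 
(.lf (nat_lit 113046) (.g (nat_lit 660) (.e (nat_lit 5777) (nat_lit 317) (.e (nat_lit 180248) (nat_lit 9) (.e (nat_lit 565269) (nat_lit 6) (.e (nat_lit 81934) (nat_lit 20) (.e (nat_lit 2383) (nat_lit 155) .nil))))) .nil)) 
(.lf (nat_lit 113078) (.g (nat_lit 1042) (.e (nat_lit 5779) (nat_lit 317) (.e (nat_lit 180248) (nat_lit 9) (.e (nat_lit 565269) (nat_lit 6) (.e (nat_lit 81931) (nat_lit 20) (.e (nat_lit 2384) (nat_lit 155) (.e (nat_lit 811009) (nat_lit 0) .nil)))))) (.g (nat_lit 4) .nil .nil))))) (.nd (nat_lit 4) (.nd (nat_lit 5) 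
(.lf (nat_lit 113038) (.g (nat_lit 660) (.e (nat_lit 5777) (nat_lit 317) (.e (nat_lit 180241) (nat_lit 4) (.e (nat_lit 524340) (nat_lit 28) (.e (nat_lit 352285) (nat_lit 20) (.e (nat_lit 2384) (nat_lit 155) (.e (nat_lit 811009) (nat_lit 0) .nil)))))) (.g (nat_lit 5) .nil .nil))) 
(.lf (nat_lit 113070) (.g (nat_lit 1086) (.e (nat_lit 5779) (nat_lit 317) (.e (nat_lit 180228) (nat_lit 0) (.e (nat_lit 5212) (nat_lit 295) (.e (nat_lit 122913) (nat_lit 13) (.e (nat_lit 344080) (nat_lit 13) .nil))))) .nil))) (.nd (nat_lit 5) 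
(.lf (nat_lit 113054) (.g (nat_lit 1229) (.e (nat_lit 5777) (nat_lit 317) (.e (nat_lit 180260) (nat_lit 18) (.e (nat_lit 639020) (nat_lit 16) (.e (nat_lit 65583) (nat_lit 7) (.e (nat_lit 319527) (nat_lit 15) (.e (nat_lit 278532) (nat_lit 0) .nil)))))) (.g (nat_lit 4) .nil .nil))) 
(.lf (nat_lit 113086) (.g (nat_lit 1416) (.e (nat_lit 5779) (nat_lit 317) (.e (nat_lit 180260) (nat_lit 18) (.e (nat_lit 639020) (nat_lit 16) (.e (nat_lit 65583) (nat_lit 7) (.e (nat_lit 319527) (nat_lit 15) (.e (nat_lit 278532) (nat_lit 0) .nil)))))) (.g (nat_lit 5) .nil .nil)))))))) (.nd (nat_lit 1) (.nd (nat_lit 2) (.nd (nat_lit 3) (.nd (nat_lit 4) (.nd (nat_lit 5) 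
(.lf (nat_lit 113025) (.g (nat_lit 85) (.e (nat_lit 5773) (nat_lit 316) (.e (nat_lit 172140) (nat_lit 22) (.e (nat_lit 139282) (nat_lit 6) .nil))) .nil)) 
(.lf (nat_lit 113057) (.g (nat_lit 1996) (.e (nat_lit 5778) (nat_lit 317) (.e (nat_lit 180271) (nat_lit 26) (.e (nat_lit 704738) (nat_lit 11) (.e (nat_lit 16440) (nat_lit 9) (.e (nat_lit 426470) (nat_lit 25) .nil))))) .nil))) (.nd (nat_lit 5) 
(.lf (nat_lit 113041) (.g (nat_lit 658) (.e (nat_lit 5777) (nat_lit 317) (.e (nat_lit 180248) (nat_lit 9) (.e (nat_lit 565252) (nat_lit 0) (.e (nat_lit 1589) (nat_lit 111) (.e (nat_lit 368384) (nat_lit 26) .nil))))) .nil)) 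
(.lf (nat_lit 113073) (.g (nat_lit 1092) (.e (nat_lit 5779) (nat_lit 317) (.e (nat_lit 180241) (nat_lit 4) (.e (nat_lit 524340) (nat_lit 28) (.e (nat_lit 352287) (nat_lit 20) (.e (nat_lit 2383) (nat_lit 155) (.e (nat_lit 811012) (nat_lit 0) .nil)))))) (.g (nat_lit 0) .nil .nil))))) (.nd (nat_lit 4) (.nd (nat_lit 5) 
(.lf (nat_lit 113033) (.g (nat_lit 1040) (.e (nat_lit 5776) (nat_lit 317) (.e (nat_lit 180241) (nat_lit 4) (.e (nat_lit 524340) (nat_lit 28) (.e (nat_lit 352287) (nat_lit 20) (.e (nat_lit 2383) (nat_lit 155) (.e (nat_lit 811012) (nat_lit 0) .nil)))))) (.g (nat_lit 0) .nil .nil))) 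
(.lf (nat_lit 113065) (.g (nat_lit 594) (.e (nat_lit 5779) (nat_lit 317) (.e (nat_lit 180228) (nat_lit 0) (.e (nat_lit 5050) (nat_lit 292) .nil))) .nil))) (.nd (nat_lit 5) 
(.lf (nat_lit 113049) (.g (nat_lit 998) (.e (nat_lit 5777) (nat_lit 317) (.e (nat_lit 180248) (nat_lit 9) (.e (nat_lit 573184) (nat_lit 6) (.e (nat_lit 81935) (nat_lit 20) (.e (nat_lit 2384) (nat_lit 155) (.e (nat_lit 811012) (nat_lit 0) .nil)))))) (.g (nat_lit 5) .nil .nil))) 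
(.lf (nat_lit 113081) (.g (nat_lit 762) (.e (nat_lit 5779) (nat_lit 317) (.e (nat_lit 180248) (nat_lit 9) (.e (nat_lit 573184) (nat_lit 6) (.e (nat_lit 81931) (nat_lit 20) (.e (nat_lit 2383) (nat_lit 155) (.e (nat_lit 811011) (nat_lit 0) .nil)))))) (.g (nat_lit 5) .nil .nil)))))) (.nd (nat_lit 3) (.nd (nat_lit 4) (.nd (nat_lit 5) 
(.lf (nat_lit 113029) (.g (nat_lit 1768) (.e (nat_lit 5776) (nat_lit 317) (.e (nat_lit 180233) (nat_lit 0) (.e (nat_lit 5152) (nat_lit 292) (.e (nat_lit 1209) (nat_lit 89) (.e (nat_lit 73789) (nat_lit 45) (.e (nat_lit 1340) (nat_lit 101) (.e (nat_lit 278531) (nat_lit 0) .nil))))))) (.g (nat_lit 5) .nil .nil))) 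
(.lf (nat_lit 113061) (.g (nat_lit 448) (.e (nat_lit 5779) (nat_lit 317) (.e (nat_lit 180228) (nat_lit 0) (.e (nat_lit 5045) (nat_lit 292) .nil))) .nil))) (.nd (nat_lit 5) 
(.lf (nat_lit 113045) (.g (nat_lit 1129) (.e (nat_lit 5777) (nat_lit 317) (.e (nat_lit 180248) (nat_lit 9) (.e (nat_lit 565269) (nat_lit 6) (.e (nat_lit 81931) (nat_lit 20) (.e (nat_lit 2383) (nat_lit 155) (.e (nat_lit 811012) (nat_lit 0) .nil)))))) (.g (nat_lit 6) .nil .nil))) 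
(.lf (nat_lit 113077) (.g (nat_lit 602) (.e (nat_lit 5779) (nat_lit 317) (.e (nat_lit 180248) (nat_lit 9) (.e (nat_lit 565269) (nat_lit 6) (.e (nat_lit 81931) (nat_lit 20) .nil)))) .nil)))) (.nd (nat_lit 4) (.nd (nat_lit 5) 
(.lf (nat_lit 113037) (.g (nat_lit 732) (.e (nat_lit 5777) (nat_lit 317) (.e (nat_lit 180241) (nat_lit 4) (.e (nat_lit 524340) (nat_lit 28) (.e (nat_lit 352283) (nat_lit 20) (.e (nat_lit 2383) (nat_lit 155) (.e (nat_lit 811012) (nat_lit 0) .nil)))))) (.g (nat_lit 6) .nil .nil))) 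
(.lf (nat_lit 113069) (.g (nat_lit 594) (.e (nat_lit 5779) (nat_lit 317) (.e (nat_lit 180228) (nat_lit 0) (.e (nat_lit 5212) (nat_lit 295) .nil))) .nil))) (.nd (nat_lit 5) 
(.lf (nat_lit 113053) (.g (nat_lit 448) (.e (nat_lit 5777) (nat_lit 317) (.e (nat_lit 180259) (nat_lit 17) (.e (nat_lit 630820) (nat_lit 16) (.e (nat_lit 65585) (nat_lit 7) (.e (nat_lit 319527) (nat_lit 15) (.e (nat_lit 278532) (nat_lit 0) .nil)))))) (.g (nat_lit 6) .nil .nil))) 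
(.lf (nat_lit 113085) (.g (nat_lit 855) (.e (nat_lit 5779) (nat_lit 317) (.e (nat_lit 180259) (nat_lit 17) (.e (nat_lit 630820) (nat_lit 16) (.e (nat_lit 65584) (nat_lit 7) (.e (nat_lit 319527) (nat_lit 15) (.e (nat_lit 278532) (nat_lit 0) .nil)))))) (.g (nat_lit 0) .nil .nil))))))) (.nd (nat_lit 2) (.nd (nat_lit 3) (.nd (nat_lit 4) (.nd (nat_lit 5) 
(.lf (nat_lit 113027) (.g (nat_lit 680) (.e (nat_lit 5776) (nat_lit 317) (.e (nat_lit 180229) (nat_lit 0) (.e (nat_lit 5069) (nat_lit 292) .nil))) .nil)) 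
(.lf (nat_lit 113059) (.g (nat_lit 1702) (.e (nat_lit 5779) (nat_lit 317) (.e (nat_lit 180225) (nat_lit 0) (.e (nat_lit 5117) (nat_lit 292) (.e (nat_lit 1207) (nat_lit 89) (.e (nat_lit 73792) (nat_lit 45) (.e (nat_lit 1343) (nat_lit 101) (.e (nat_lit 278532) (nat_lit 0) .nil))))))) (.g (nat_lit 5) .nil .nil)))) (.nd (nat_lit 5) 
(.lf (nat_lit 113043) (.g (nat_lit 461) (.e (nat_lit 5777) (nat_lit 317) (.e (nat_lit 180248) (nat_lit 9) (.e (nat_lit 565252) (nat_lit 0) (.e (nat_lit 1598) (nat_lit 111) (.e (nat_lit 368384) (nat_lit 26) .nil))))) .nil)) 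
(.lf (nat_lit 113075) (.g (nat_lit 847) (.e (nat_lit 5779) (nat_lit 317) (.e (nat_lit 180248) (nat_lit 9) (.e (nat_lit 565252) (nat_lit 0) (.e (nat_lit 1589) (nat_lit 111) (.e (nat_lit 368384) (nat_lit 26) (.e (nat_lit 811010) (nat_lit 0) .nil)))))) (.g (nat_lit 4) .nil .nil))))) (.nd (nat_lit 4) (.nd (nat_lit 5) 
(.lf (nat_lit 113035) (.g (nat_lit 1390) (.e (nat_lit 5776) (nat_lit 317) (.e (nat_lit 180260) (nat_lit 18) (.e (nat_lit 639020) (nat_lit 16) (.e (nat_lit 65583) (nat_lit 7) (.e (nat_lit 319527) (nat_lit 15) (.e (nat_lit 278532) (nat_lit 0) .nil)))))) (.g (nat_lit 5) .nil .nil))) 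
(.lf (nat_lit 113067) (.g (nat_lit 594) (.e (nat_lit 5779) (nat_lit 317) (.e (nat_lit 180228) (nat_lit 0) (.e (nat_lit 5079) (nat_lit 292) .nil))) .nil))) (.nd (nat_lit 5) 
(.lf (nat_lit 113051) (.g (nat_lit 667) (.e (nat_lit 5777) (nat_lit 317) (.e (nat_lit 180259) (nat_lit 17) (.e (nat_lit 630820) (nat_lit 16) (.e (nat_lit 65584) (nat_lit 7) (.e (nat_lit 319527) (nat_lit 15) (.e (nat_lit 278532) (nat_lit 0) .nil)))))) (.g (nat_lit 6) .nil .nil))) 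
(.lf (nat_lit 113083) (.g (nat_lit 879) (.e (nat_lit 5779) (nat_lit 317) (.e (nat_lit 180248) (nat_lit 9) (.e (nat_lit 573184) (nat_lit 6) (.e (nat_lit 81935) (nat_lit 20) (.e (nat_lit 2383) (nat_lit 155) (.e (nat_lit 811012) (nat_lit 0) .nil)))))) (.g (nat_lit 5) .nil .nil)))))) (.nd (nat_lit 3) (.nd (nat_lit 4) (.nd (nat_lit 5) 
(.lf (nat_lit 113031) (.g (nat_lit 1702) (.e (nat_lit 5776) (nat_lit 317) (.e (nat_lit 180233) (nat_lit 0) (.e (nat_lit 5152) (nat_lit 292) (.e (nat_lit 1209) (nat_lit 89) (.e (nat_lit 73789) (nat_lit 45) (.e (nat_lit 1343) (nat_lit 101) (.e (nat_lit 278532) (nat_lit 0) .nil))))))) (.g (nat_lit 5) .nil .nil))) 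
(.lf (nat_lit 113063) (.g (nat_lit 777) (.e (nat_lit 5779) (nat_lit 317) (.e (nat_lit 180228) (nat_lit 0) (.e (nat_lit 5046) (nat_lit 292) (.e (nat_lit 1206) (nat_lit 89) .nil)))) .nil))) (.nd (nat_lit 5) 
(.lf (nat_lit 113047) (.g (nat_lit 542) (.e (nat_lit 5777) (nat_lit 317) (.e (nat_lit 180248) (nat_lit 9) (.e (nat_lit 573184) (nat_lit 6) (.e (nat_lit 81931) (nat_lit 20) (.e (nat_lit 2383) (nat_lit 155) (.e (nat_lit 811011) (nat_lit 0) .nil)))))) (.g (nat_lit 5) .nil .nil))) 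
(.lf (nat_lit 113079) (.g (nat_lit 1102) (.e (nat_lit 5779) (nat_lit 317) (.e (nat_lit 180248) (nat_lit 9) (.e (nat_lit 565269) (nat_lit 6) (.e (nat_lit 81933) (nat_lit 20) (.e (nat_lit 2383) (nat_lit 155) (.e (nat_lit 811012) (nat_lit 0) .nil)))))) (.g (nat_lit 0) .nil .nil))))) (.nd (nat_lit 4) (.nd (nat_lit 5) 
(.lf (nat_lit 113039) (.g (nat_lit 636) (.e (nat_lit 5777) (nat_lit 317) (.e (nat_lit 180241) (nat_lit 4) (.e (nat_lit 524340) (nat_lit 28) (.e (nat_lit 352286) (nat_lit 20) (.e (nat_lit 2384) (nat_lit 155) (.e (nat_lit 811009) (nat_lit 0) .nil)))))) (.g (nat_lit 5) .nil .nil))) 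
(.lf (nat_lit 113071) (.g (nat_lit 68) (.e (nat_lit 5779) (nat_lit 317) (.e (nat_lit 180232) (nat_lit 0) (.e (nat_lit 5190) (nat_lit 294) .nil))) .nil))) (.nd (nat_lit 5) 
(.lf (nat_lit 113055) (.g (nat_lit 841) (.e (nat_lit 5777) (nat_lit 317) (.e (nat_lit 180260) (nat_lit 18) (.e (nat_lit 639020) (nat_lit 16) (.e (nat_lit 65585) (nat_lit 7) (.e (nat_lit 319527) (nat_lit 15) .nil))))) .nil)) 
(.lf (nat_lit 113087) (.g (nat_lit 1026) (.e (nat_lit 5779) (nat_lit 317) (.e (nat_lit 180260) (nat_lit 18) (.e (nat_lit 639020) (nat_lit 16) (.e (nat_lit 65584) (nat_lit 7) (.e (nat_lit 319527) (nat_lit 15) .nil))))) .nil))))))))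

noncomputable def tv1526 : DT := (.nd (nat_lit 0) (.nd (nat_lit 1) (.nd (nat_lit 2) (.nd (nat_lit 3) (.nd (nat_lit 4) (.nd (nat_lit 5) 
(.lf (nat_lit 113088) (.g (nat_lit 1121) (.e (nat_lit 5779) (nat_lit 317) (.e (nat_lit 180260) (nat_lit 18) (.e (nat_lit 639022) (nat_lit 17) (.e (nat_lit 73789) (nat_lit 45) (.e (nat_lit 1340) (nat_lit 101) (.e (nat_lit 278529) (nat_lit 0) .nil)))))) (.g (nat_lit 0) .nil .nil))) 
(.lf (nat_lit 113120) (.g (nat_lit 1995) (.e (nat_lit 5808) (nat_lit 320) (.e (nat_lit 1201) (nat_lit 88) (.e (nat_lit 65610) (nat_lit 10) (.e (nat_lit 344169) (nat_lit 40) (.e (nat_lit 671764) (nat_lit 6) .nil))))) .nil))) (.nd (nat_lit 5) 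
(.lf (nat_lit 113104) (.g (nat_lit 2614) (.e (nat_lit 5796) (nat_lit 320) (.e (nat_lit 1016) (nat_lit 81) (.e (nat_lit 1669) (nat_lit 116) (.e (nat_lit 401454) (nat_lit 12) (.e (nat_lit 475208) (nat_lit 41) .nil))))) .nil)) 
(.lf (nat_lit 113136) (.g (nat_lit 2338) (.e (nat_lit 5813) (nat_lit 320) (.e (nat_lit 1201) (nat_lit 88) (.e (nat_lit 65610) (nat_lit 10) (.e (nat_lit 344168) (nat_lit 40) (.e (nat_lit 671747) (nat_lit 0) .nil))))) .nil)))) (.nd (nat_lit 4) (.nd (nat_lit 5) 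
(.lf (nat_lit 113096) (.g (nat_lit 667) (.e (nat_lit 5780) (nat_lit 317) (.e (nat_lit 180259) (nat_lit 17) (.e (nat_lit 630820) (nat_lit 16) (.e (nat_lit 65584) (nat_lit 7) (.e (nat_lit 319527) (nat_lit 15) (.e (nat_lit 278531) (nat_lit 0) .nil)))))) (.g (nat_lit 6) .nil .nil))) 
(.lf (nat_lit 113128) (.g (nat_lit 2419) (.e (nat_lit 5812) (nat_lit 320) (.e (nat_lit 2612) (nat_lit 163) (.e (nat_lit 164023) (nat_lit 46) (.e (nat_lit 704738) (nat_lit 11) (.e (nat_lit 16425) (nat_lit 7) .nil))))) .nil))) (.nd (nat_lit 5) 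
(.lf (nat_lit 113112) (.g (nat_lit 408) (.e (nat_lit 5803) (nat_lit 320) (.e (nat_lit 1222) (nat_lit 90) (.e (nat_lit 89856) (nat_lit 8) .nil))) .nil)) 
(.lf (nat_lit 113144) (.g (nat_lit 577) (.e (nat_lit 5813) (nat_lit 320) (.e (nat_lit 1201) (nat_lit 88) (.e (nat_lit 65628) (nat_lit 14) .nil))) .nil))))) (.nd (nat_lit 3) (.nd (nat_lit 4) (.nd (nat_lit 5) 
(.lf (nat_lit 113092) (.g (nat_lit 587) (.e (nat_lit 5780) (nat_lit 317) (.e (nat_lit 180248) (nat_lit 9) (.e (nat_lit 565269) (nat_lit 6) (.e (nat_lit 81934) (nat_lit 20) .nil)))) .nil)) 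
(.lf (nat_lit 113124) (.g (nat_lit 541) (.e (nat_lit 5809) (nat_lit 320) (.e (nat_lit 1201) (nat_lit 88) (.e (nat_lit 65610) (nat_lit 10) .nil))) .nil))) (.nd (nat_lit 5) 
(.lf (nat_lit 113108) (.g (nat_lit 2419) (.e (nat_lit 5799) (nat_lit 320) (.e (nat_lit 2612) (nat_lit 163) (.e (nat_lit 164023) (nat_lit 46) (.e (nat_lit 704738) (nat_lit 11) (.e (nat_lit 16425) (nat_lit 7) .nil))))) .nil)) 
(.lf (nat_lit 113140) (.g (nat_lit 2080) (.e (nat_lit 5813) (nat_lit 320) (.e (nat_lit 1201) (nat_lit 88) (.e (nat_lit 65610) (nat_lit 10) (.e (nat_lit 344169) (nat_lit 40) (.e (nat_lit 671748) (nat_lit 0) .nil))))) .nil)))) (.nd (nat_lit 4) (.nd (nat_lit 5) 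
(.lf (nat_lit 113100) (.g (nat_lit 1209) (.e (nat_lit 5780) (nat_lit 317) (.e (nat_lit 180260) (nat_lit 18) (.e (nat_lit 639020) (nat_lit 16) (.e (nat_lit 65583) (nat_lit 7) (.e (nat_lit 319527) (nat_lit 15) (.e (nat_lit 278532) (nat_lit 0) .nil)))))) (.g (nat_lit 4) .nil .nil))) 
(.lf (nat_lit 113132) (.g (nat_lit 1705) (.e (nat_lit 5813) (nat_lit 320) (.e (nat_lit 1201) (nat_lit 88) (.e (nat_lit 65583) (nat_lit 7) (.e (nat_lit 319539) (nat_lit 19) (.e (nat_lit 319232) (nat_lit 30) .nil))))) .nil))) (.nd (nat_lit 5) 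
(.lf (nat_lit 113116) (.g (nat_lit 1708) (.e (nat_lit 5808) (nat_lit 320) (.e (nat_lit 1201) (nat_lit 88) (.e (nat_lit 65610) (nat_lit 10) (.e (nat_lit 344097) (nat_lit 18) .nil)))) .nil)) 
(.lf (nat_lit 113148) (.g (nat_lit 1930) (.e (nat_lit 5813) (nat_lit 320) (.e (nat_lit 1201) (nat_lit 88) (.e (nat_lit 65630) (nat_lit 14) (.e (nat_lit 401458) (nat_lit 13) (.e (nat_lit 483395) (nat_lit 24) .nil))))) .nil)))))) (.nd (nat_lit 2) (.nd (nat_lit 3) (.nd (nat_lit 4) (.nd (nat_lit 5) 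
(.lf (nat_lit 113090) (.g (nat_lit 703) (.e (nat_lit 5780) (nat_lit 317) (.e (nat_lit 180241) (nat_lit 4) (.e (nat_lit 524340) (nat_lit 28) (.e (nat_lit 352283) (nat_lit 20) (.e (nat_lit 2383) (nat_lit 155) (.e (nat_lit 811012) (nat_lit 0) .nil)))))) (.g (nat_lit 6) .nil .nil))) 
(.lf (nat_lit 113122) (.g (nat_lit 1954) (.e (nat_lit 5808) (nat_lit 320) (.e (nat_lit 1201) (nat_lit 88) (.e (nat_lit 65624) (nat_lit 12) (.e (nat_lit 385106) (nat_lit 50) (.e (nat_lit 786481) (nat_lit 30) .nil))))) .nil))) (.nd (nat_lit 5) 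
(.lf (nat_lit 113106) (.g (nat_lit 2419) (.e (nat_lit 5796) (nat_lit 320) (.e (nat_lit 2612) (nat_lit 163) (.e (nat_lit 164023) (nat_lit 46) (.e (nat_lit 704738) (nat_lit 11) (.e (nat_lit 16425) (nat_lit 7) .nil))))) .nil)) 
(.lf (nat_lit 113138) (.g (nat_lit 2254) (.e (nat_lit 5813) (nat_lit 320) (.e (nat_lit 1201) (nat_lit 88) (.e (nat_lit 65610) (nat_lit 10) (.e (nat_lit 344169) (nat_lit 40) (.e (nat_lit 671746) (nat_lit 0) .nil))))) .nil)))) (.nd (nat_lit 4) (.nd (nat_lit 5) 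
(.lf (nat_lit 113098) (.g (nat_lit 449) (.e (nat_lit 5780) (nat_lit 317) (.e (nat_lit 180259) (nat_lit 17) (.e (nat_lit 630820) (nat_lit 16) (.e (nat_lit 65585) (nat_lit 7) (.e (nat_lit 319527) (nat_lit 15) (.e (nat_lit 278531) (nat_lit 0) .nil)))))) (.g (nat_lit 6) .nil .nil))) 
(.lf (nat_lit 113130) (.g (nat_lit 2740) (.e (nat_lit 5813) (nat_lit 320) (.e (nat_lit 11) (nat_lit 0) (.e (nat_lit 2507) (nat_lit 157) (.e (nat_lit 5293) (nat_lit 298) (.e (nat_lit 1633) (nat_lit 114) (.e (nat_lit 385106) (nat_lit 50) (.e (nat_lit 786483) (nat_lit 30) (.e (nat_lit 368384) (nat_lit 0) .nil)))))))) (.g (nat_lit 7) .nil .nil)))) (.nd (nat_lit 5) 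
(.lf (nat_lit 113114) (.g (nat_lit 1708) (.e (nat_lit 5806) (nat_lit 320) (.e (nat_lit 1201) (nat_lit 88) (.e (nat_lit 65610) (nat_lit 10) (.e (nat_lit 344097) (nat_lit 18) .nil)))) .nil)) 
(.lf (nat_lit 113146) (.g (nat_lit 1700) (.e (nat_lit 5813) (nat_lit 320) (.e (nat_lit 1201) (nat_lit 88) (.e (nat_lit 65628) (nat_lit 14) (.e (nat_lit 401459) (nat_lit 13) (.e (nat_lit 483395) (nat_lit 24) .nil))))) .nil))))) (.nd (nat_lit 3) (.nd (nat_lit 4) (.nd (nat_lit 5) 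
(.lf (nat_lit 113094) (.g (nat_lit 676) (.e (nat_lit 5780) (nat_lit 317) (.e (nat_lit 180248) (nat_lit 9) (.e (nat_lit 573184) (nat_lit 6) (.e (nat_lit 81935) (nat_lit 20) (.e (nat_lit 2383) (nat_lit 155) (.e (nat_lit 811012) (nat_lit 0) .nil)))))) (.g (nat_lit 5) .nil .nil))) 
(.lf (nat_lit 113126) (.g (nat_lit 2972) (.e (nat_lit 5810) (nat_lit 320) (.e (nat_lit 20) (nat_lit 0) (.e (nat_lit 2777) (nat_lit 178) (.e (nat_lit 286759) (nat_lit 12) (.e (nat_lit 385106) (nat_lit 50) (.e (nat_lit 786483) (nat_lit 30) (.e (nat_lit 368384) (nat_lit 0) .nil))))))) (.g (nat_lit 6) .nil .nil)))) (.nd (nat_lit 5) 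
(.lf (nat_lit 113110) (.g (nat_lit 431) (.e (nat_lit 5803) (nat_lit 320) (.e (nat_lit 1214) (nat_lit 89) (.e (nat_lit 73781) (nat_lit 32) .nil))) .nil)) 
(.lf (nat_lit 113142) (.g (nat_lit 1778) (.e (nat_lit 5813) (nat_lit 320) (.e (nat_lit 1201) (nat_lit 88) (.e (nat_lit 65617) (nat_lit 10) (.e (nat_lit 344169) (nat_lit 40) (.e (nat_lit 671748) (nat_lit 0) .nil))))) .nil)))) (.nd (nat_lit 4) (.nd (nat_lit 5) 
(.lf (nat_lit 113102) (.g (nat_lit 597) (.e (nat_lit 5780) (nat_lit 317) (.e (nat_lit 180260) (nat_lit 18) (.e (nat_lit 639021) (nat_lit 16) (.e (nat_lit 65585) (nat_lit 7) (.e (nat_lit 319527) (nat_lit 15) (.e (nat_lit 278531) (nat_lit 0) .nil)))))) (.g (nat_lit 0) .nil .nil))) 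
(.lf (nat_lit 113134) (.g (nat_lit 1750) (.e (nat_lit 5813) (nat_lit 320) (.e (nat_lit 1201) (nat_lit 88) (.e (nat_lit 65610) (nat_lit 10) (.e (nat_lit 344097) (nat_lit 18) .nil)))) .nil))) (.nd (nat_lit 5) 
(.lf (nat_lit 113118) (.g (nat_lit 1672) (.e (nat_lit 5808) (nat_lit 320) (.e (nat_lit 1201) (nat_lit 88) (.e (nat_lit 65610) (nat_lit 10) (.e (nat_lit 344168) (nat_lit 40) .nil)))) .nil)) 
(.lf (nat_lit 113150) (.g (nat_lit 813) (.e (nat_lit 5813) (nat_lit 320) (.e (nat_lit 1214) (nat_lit 89) (.e (nat_lit 73781) (nat_lit 32) (.e (nat_lit 2856) (nat_lit 184) .nil)))) .nil))))))) (.nd (nat_lit 1) (.nd (nat_lit 2) (.nd (nat_lit 3) (.nd (nat_lit 4) (.nd (nat_lit 5) 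
(.lf (nat_lit 113089) (.g (nat_lit 1798) (.e (nat_lit 5779) (nat_lit 317) (.e (nat_lit 180263) (nat_lit 21) (.e (nat_lit 663583) (nat_lit 11) (.e (nat_lit 24584) (nat_lit 0) (.e (nat_lit 6113) (nat_lit 332) (.e (nat_lit 7936) (nat_lit 101) (.e (nat_lit 278531) (nat_lit 0) .nil))))))) (.g (nat_lit 5) .nil .nil))) 
(.lf (nat_lit 113121) (.g (nat_lit 2062) (.e (nat_lit 5808) (nat_lit 320) (.e (nat_lit 1201) (nat_lit 88) (.e (nat_lit 65624) (nat_lit 12) (.e (nat_lit 385105) (nat_lit 50) (.e (nat_lit 786481) (nat_lit 30) .nil))))) .nil))) (.nd (nat_lit 5) 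
(.lf (nat_lit 113105) (.g (nat_lit 5170) (.e (nat_lit 5796) (nat_lit 320) (.e (nat_lit 2612) (nat_lit 163) (.e (nat_lit 164022) (nat_lit 46) (.e (nat_lit 704738) (nat_lit 11) (.e (nat_lit 16425) (nat_lit 7) (.e (nat_lit 409649) (nat_lit 18) (.e (nat_lit 303140) (nat_lit 10) (.e (nat_lit 434202) (nat_lit 18) .nil)))))))) (.g (nat_lit 8) .nil .nil))) 
(.lf (nat_lit 113137) (.g (nat_lit 1560) (.e (nat_lit 5813) (nat_lit 320) (.e (nat_lit 1201) (nat_lit 88) (.e (nat_lit 65610) (nat_lit 10) (.e (nat_lit 344169) (nat_lit 40) .nil)))) .nil)))) (.nd (nat_lit 4) (.nd (nat_lit 5) 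
(.lf (nat_lit 113097) (.g (nat_lit 640) (.e (nat_lit 5780) (nat_lit 317) (.e (nat_lit 180259) (nat_lit 17) (.e (nat_lit 630820) (nat_lit 16) (.e (nat_lit 65584) (nat_lit 7) (.e (nat_lit 319527) (nat_lit 15) (.e (nat_lit 278532) (nat_lit 0) .nil)))))) (.g (nat_lit 6) .nil .nil))) 
(.lf (nat_lit 113129) (.g (nat_lit 2593) (.e (nat_lit 5813) (nat_lit 320) (.e (nat_lit 11) (nat_lit 0) (.e (nat_lit 2507) (nat_lit 157) (.e (nat_lit 5293) (nat_lit 298) (.e (nat_lit 1633) (nat_lit 114) (.e (nat_lit 385106) (nat_lit 50) (.e (nat_lit 786481) (nat_lit 30) (.e (nat_lit 368384) (nat_lit 0) .nil)))))))) (.g (nat_lit 7) .nil .nil)))) (.nd (nat_lit 5) 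
(.lf (nat_lit 113113) (.g (nat_lit 316) (.e (nat_lit 5803) (nat_lit 320) (.e (nat_lit 1224) (nat_lit 90) (.e (nat_lit 89856) (nat_lit 8) .nil))) .nil)) 
(.lf (nat_lit 113145) (.g (nat_lit 1116) (.e (nat_lit 5813) (nat_lit 320) (.e (nat_lit 1201) (nat_lit 88) (.e (nat_lit 65628) (nat_lit 14) (.e (nat_lit 401458) (nat_lit 13) .nil)))) .nil))))) (.nd (nat_lit 3) (.nd (nat_lit 4) (.nd (nat_lit 5) 
(.lf (nat_lit 113093) (.g (nat_lit 569) (.e (nat_lit 5780) (nat_lit 317) (.e (nat_lit 180248) (nat_lit 9) (.e (nat_lit 573184) (nat_lit 6) (.e (nat_lit 81931) (nat_lit 20) (.e (nat_lit 2383) (nat_lit 155) (.e (nat_lit 811011) (nat_lit 0) .nil)))))) (.g (nat_lit 5) .nil .nil))) 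
(.lf (nat_lit 113125) (.g (nat_lit 1708) (.e (nat_lit 5809) (nat_lit 320) (.e (nat_lit 1201) (nat_lit 88) (.e (nat_lit 65610) (nat_lit 10) (.e (nat_lit 344097) (nat_lit 18) .nil)))) .nil))) (.nd (nat_lit 5) 
(.lf (nat_lit 113109) (.g (nat_lit 2419) (.e (nat_lit 5800) (nat_lit 320) (.e (nat_lit 2612) (nat_lit 163) (.e (nat_lit 164023) (nat_lit 46) (.e (nat_lit 704738) (nat_lit 11) (.e (nat_lit 16425) (nat_lit 7) .nil))))) .nil)) 
(.lf (nat_lit 113141) (.g (nat_lit 1304) (.e (nat_lit 5813) (nat_lit 320) (.e (nat_lit 1201) (nat_lit 88) (.e (nat_lit 65617) (nat_lit 10) (.e (nat_lit 344169) (nat_lit 40) .nil)))) .nil)))) (.nd (nat_lit 4) (.nd (nat_lit 5) 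
(.lf (nat_lit 113101) (.g (nat_lit 841) (.e (nat_lit 5780) (nat_lit 317) (.e (nat_lit 180260) (nat_lit 18) (.e (nat_lit 639020) (nat_lit 16) (.e (nat_lit 65585) (nat_lit 7) (.e (nat_lit 319527) (nat_lit 15) .nil))))) .nil)) 
(.lf (nat_lit 113133) (.g (nat_lit 695) (.e (nat_lit 5813) (nat_lit 320) (.e (nat_lit 1201) (nat_lit 88) (.e (nat_lit 65586) (nat_lit 7) .nil))) .nil))) (.nd (nat_lit 5) 
(.lf (nat_lit 113117) (.g (nat_lit 2418) (.e (nat_lit 5808) (nat_lit 320) (.e (nat_lit 1201) (nat_lit 88) (.e (nat_lit 65610) (nat_lit 10) (.e (nat_lit 344097) (nat_lit 18) (.e (nat_lit 5907) (nat_lit 320) (.e (nat_lit 1221) (nat_lit 90) (.e (nat_lit 81931) (nat_lit 20) (.e (nat_lit 973) (nat_lit 81) .nil)))))))) (.g (nat_lit 5) .nil .nil))) 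
(.lf (nat_lit 113149) (.g (nat_lit 2151) (.e (nat_lit 5813) (nat_lit 320) (.e (nat_lit 1201) (nat_lit 88) (.e (nat_lit 65630) (nat_lit 14) (.e (nat_lit 401459) (nat_lit 13) (.e (nat_lit 483394) (nat_lit 24) .nil))))) .nil)))))) (.nd (nat_lit 2) (.nd (nat_lit 3) (.nd (nat_lit 4) (.nd (nat_lit 5) 
(.lf (nat_lit 113091) (.g (nat_lit 1115) (.e (nat_lit 5780) (nat_lit 317) (.e (nat_lit 180248) (nat_lit 9) (.e (nat_lit 565269) (nat_lit 6) (.e (nat_lit 81931) (nat_lit 20) (.e (nat_lit 2383) (nat_lit 155) (.e (nat_lit 811012) (nat_lit 0) .nil)))))) (.g (nat_lit 6) .nil .nil))) 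
(.lf (nat_lit 113123) (.g (nat_lit 561) (.e (nat_lit 5808) (nat_lit 320) (.e (nat_lit 1201) (nat_lit 88) (.e (nat_lit 65630) (nat_lit 14) .nil))) .nil))) (.nd (nat_lit 5) 
(.lf (nat_lit 113107) (.g (nat_lit 5107) (.e (nat_lit 5796) (nat_lit 320) (.e (nat_lit 2612) (nat_lit 163) (.e (nat_lit 164023) (nat_lit 46) (.e (nat_lit 704738) (nat_lit 11) (.e (nat_lit 16425) (nat_lit 7) (.e (nat_lit 409649) (nat_lit 18) (.e (nat_lit 303140) (nat_lit 10) (.e (nat_lit 434202) (nat_lit 18) .nil)))))))) (.g (nat_lit 8) .nil .nil))) 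
(.lf (nat_lit 113139) (.g (nat_lit 2269) (.e (nat_lit 5813) (nat_lit 320) (.e (nat_lit 1201) (nat_lit 88) (.e (nat_lit 65610) (nat_lit 10) (.e (nat_lit 344169) (nat_lit 40) (.e (nat_lit 671747) (nat_lit 0) .nil))))) .nil)))) (.nd (nat_lit 4) (.nd (nat_lit 5) 
(.lf (nat_lit 113099) (.g (nat_lit 420) (.e (nat_lit 5780) (nat_lit 317) (.e (nat_lit 180259) (nat_lit 17) (.e (nat_lit 630820) (nat_lit 16) (.e (nat_lit 65585) (nat_lit 7) (.e (nat_lit 319527) (nat_lit 15) (.e (nat_lit 278532) (nat_lit 0) .nil)))))) (.g (nat_lit 6) .nil .nil))) 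
(.lf (nat_lit 113131) (.g (nat_lit 1698) (.e (nat_lit 5813) (nat_lit 320) (.e (nat_lit 1191) (nat_lit 88) (.e (nat_lit 65630) (nat_lit 14) (.e (nat_lit 401437) (nat_lit 9) (.e (nat_lit 426544) (nat_lit 30) .nil))))) .nil))) (.nd (nat_lit 5) 
(.lf (nat_lit 113115) (.g (nat_lit 1499) (.e (nat_lit 5806) (nat_lit 320) (.e (nat_lit 1201) (nat_lit 88) (.e (nat_lit 65610) (nat_lit 10) (.e (nat_lit 344169) (nat_lit 40) .nil)))) .nil)) 
(.lf (nat_lit 113147) (.g (nat_lit 3182) (.e (nat_lit 5813) (nat_lit 320) (.e (nat_lit 1201) (nat_lit 88) (.e (nat_lit 65630) (nat_lit 14) (.e (nat_lit 401437) (nat_lit 9) (.e (nat_lit 426544) (nat_lit 30) (.e (nat_lit 360455) (nat_lit 0) .nil)))))) (.g (nat_lit 5) .nil .nil)))))) (.nd (nat_lit 3) (.nd (nat_lit 4) (.nd (nat_lit 5) 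
(.lf (nat_lit 113095) (.g (nat_lit 1009) (.e (nat_lit 5780) (nat_lit 317) (.e (nat_lit 180248) (nat_lit 9) (.e (nat_lit 573184) (nat_lit 6) (.e (nat_lit 81935) (nat_lit 20) (.e (nat_lit 2384) (nat_lit 155) (.e (nat_lit 811012) (nat_lit 0) .nil)))))) (.g (nat_lit 5) .nil .nil))) 
(.lf (nat_lit 113127) (.g (nat_lit 2416) (.e (nat_lit 5811) (nat_lit 320) (.e (nat_lit 2612) (nat_lit 163) (.e (nat_lit 164023) (nat_lit 46) (.e (nat_lit 704738) (nat_lit 11) (.e (nat_lit 16425) (nat_lit 7) .nil))))) .nil))) (.nd (nat_lit 5) 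
(.lf (nat_lit 113111) (.g (nat_lit 813) (.e (nat_lit 5803) (nat_lit 320) (.e (nat_lit 1214) (nat_lit 89) (.e (nat_lit 73781) (nat_lit 32) (.e (nat_lit 2856) (nat_lit 184) .nil)))) .nil)) 
(.lf (nat_lit 113143) (.g (nat_lit 1803) (.e (nat_lit 5813) (nat_lit 320) (.e (nat_lit 1201) (nat_lit 88) (.e (nat_lit 65622) (nat_lit 12) (.e (nat_lit 385105) (nat_lit 50) (.e (nat_lit 786483) (nat_lit 30) .nil))))) .nil)))) (.nd (nat_lit 4) (.nd (nat_lit 5) 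
(.lf (nat_lit 113103) (.g (nat_lit 573) (.e (nat_lit 5780) (nat_lit 317) (.e (nat_lit 180260) (nat_lit 18) (.e (nat_lit 639021) (nat_lit 16) (.e (nat_lit 65585) (nat_lit 7) (.e (nat_lit 319527) (nat_lit 15) (.e (nat_lit 278532) (nat_lit 0) .nil)))))) (.g (nat_lit 0) .nil .nil))) 
(.lf (nat_lit 113135) (.g (nat_lit 1712) (.e (nat_lit 5813) (nat_lit 320) (.e (nat_lit 1201) (nat_lit 88) (.e (nat_lit 65610) (nat_lit 10) (.e (nat_lit 344168) (nat_lit 40) .nil)))) .nil))) (.nd (nat_lit 5) 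
(.lf (nat_lit 113119) (.g (nat_lit 1499) (.e (nat_lit 5808) (nat_lit 320) (.e (nat_lit 1201) (nat_lit 88) (.e (nat_lit 65610) (nat_lit 10) (.e (nat_lit 344169) (nat_lit 40) .nil)))) .nil)) 
(.lf (nat_lit 113151) (.g (nat_lit 778) (.e (nat_lit 5813) (nat_lit 320) (.e (nat_lit 1223) (nat_lit 90) (.e (nat_lit 81959) (nat_lit 24) (.e (nat_lit 123195) (nat_lit 266) .nil)))) .nil))))))))

noncomputable def tv1527 : DT := (.nd (nat_lit 0) (.nd (nat_lit 1) (.nd (nat_lit 2) (.nd (nat_lit 3) (.nd (nat_lit 4) (.nd (nat_lit 5) (.nd (nat_lit 6) 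
(.lf (nat_lit 113152) (.g (nat_lit 589) (.e (nat_lit 5813) (nat_lit 320) (.e (nat_lit 1296) (nat_lit 96) (.e (nat_lit 131120) (nat_lit 12) .nil))) .nil)) 
(.lf (nat_lit 113216) (.g (nat_lit 1315) (.e (nat_lit 5816) (nat_lit 320) (.e (nat_lit 1201) (nat_lit 88) (.e (nat_lit 65617) (nat_lit 10) (.e (nat_lit 344169) (nat_lit 40) .nil)))) .nil))) (.nd (nat_lit 6) 
(.lf (nat_lit 113184) (.g (nat_lit 1383) (.e (nat_lit 5815) (nat_lit 320) (.e (nat_lit 1201) (nat_lit 88) (.e (nat_lit 65630) (nat_lit 14) (.e (nat_lit 401437) (nat_lit 9) (.e (nat_lit 426533) (nat_lit 28) .nil))))) .nil)) 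
(.lf (nat_lit 113248) (.g (nat_lit 2087) (.e (nat_lit 5817) (nat_lit 320) (.e (nat_lit 1201) (nat_lit 88) (.e (nat_lit 65610) (nat_lit 10) (.e (nat_lit 344169) (nat_lit 40) (.e (nat_lit 671747) (nat_lit 0) .nil))))) .nil)))) (.nd (nat_lit 5) (.nd (nat_lit 6) 
(.lf (nat_lit 113168) (.g (nat_lit 1398) (.e (nat_lit 5815) (nat_lit 320) (.e (nat_lit 1201) (nat_lit 88) (.e (nat_lit 65610) (nat_lit 10) (.e (nat_lit 344097) (nat_lit 18) .nil)))) .nil)) 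
(.lf (nat_lit 113232) (.g (nat_lit 2904) (.e (nat_lit 5817) (nat_lit 320) (.e (nat_lit 1183) (nat_lit 87) (.e (nat_lit 57712) (nat_lit 176) (.e (nat_lit 1370) (nat_lit 103) (.e (nat_lit 294941) (nat_lit 9) (.e (nat_lit 336432) (nat_lit 30) (.e (nat_lit 450569) (nat_lit 0) .nil))))))) (.g (nat_lit 7) .nil .nil)))) (.nd (nat_lit 6) 
(.lf (nat_lit 113200) (.g (nat_lit 2265) (.e (nat_lit 5815) (nat_lit 320) (.e (nat_lit 1214) (nat_lit 89) (.e (nat_lit 73775) (nat_lit 26) (.e (nat_lit 778362) (nat_lit 9) (.e (nat_lit 304) (nat_lit 22) (.e (nat_lit 344130) (nat_lit 26) (.e (nat_lit 557104) (nat_lit 14) (.e (nat_lit 180233) (nat_lit 0) .nil)))))))) (.g (nat_lit 4) .nil .nil))) 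
(.lf (nat_lit 113264) (.g (nat_lit 1210) (.e (nat_lit 5817) (nat_lit 320) (.e (nat_lit 1201) (nat_lit 88) (.e (nat_lit 65628) (nat_lit 14) (.e (nat_lit 401438) (nat_lit 9) .nil)))) .nil))))) (.nd (nat_lit 4) (.nd (nat_lit 5) (.nd (nat_lit 6) 
(.lf (nat_lit 113160) (.g (nat_lit 876) (.e (nat_lit 5814) (nat_lit 320) (.e (nat_lit 1296) (nat_lit 96) (.e (nat_lit 131086) (nat_lit 1) .nil))) .nil)) 
(.lf (nat_lit 113224) (.g (nat_lit 1958) (.e (nat_lit 5816) (nat_lit 320) (.e (nat_lit 1201) (nat_lit 88) (.e (nat_lit 65630) (nat_lit 14) (.e (nat_lit 401436) (nat_lit 9) (.e (nat_lit 426546) (nat_lit 30) .nil))))) .nil))) (.nd (nat_lit 6) 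
(.lf (nat_lit 113192) (.g (nat_lit 3170) (.e (nat_lit 5815) (nat_lit 320) (.e (nat_lit 1201) (nat_lit 88) (.e (nat_lit 65630) (nat_lit 14) (.e (nat_lit 401459) (nat_lit 13) (.e (nat_lit 483398) (nat_lit 25) .nil))))) .nil)) 
(.lf (nat_lit 113256) (.g (nat_lit 1874) (.e (nat_lit 5817) (nat_lit 320) (.e (nat_lit 1201) (nat_lit 88) (.e (nat_lit 65622) (nat_lit 12) (.e (nat_lit 385105) (nat_lit 50) (.e (nat_lit 786483) (nat_lit 30) .nil))))) .nil)))) (.nd (nat_lit 5) (.nd (nat_lit 6) 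
(.lf (nat_lit 113176) (.g (nat_lit 1250) (.e (nat_lit 5815) (nat_lit 320) (.e (nat_lit 1201) (nat_lit 88) (.e (nat_lit 65628) (nat_lit 14) (.e (nat_lit 401437) (nat_lit 9) .nil)))) .nil)) 
(.lf (nat_lit 113240) (.g (nat_lit 1838) (.e (nat_lit 5817) (nat_lit 320) (.e (nat_lit 1201) (nat_lit 88) (.e (nat_lit 65610) (nat_lit 10) (.e (nat_lit 344097) (nat_lit 18) (.e (nat_lit 5907) (nat_lit 320) (.e (nat_lit 1219) (nat_lit 90) (.e (nat_lit 81936) (nat_lit 20) (.e (nat_lit 1068) (nat_lit 81) .nil)))))))) (.g (nat_lit 4) .nil .nil)))) (.nd (nat_lit 6) 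
(.lf (nat_lit 113208) (.g (nat_lit 1589) (.e (nat_lit 5816) (nat_lit 320) (.e (nat_lit 1201) (nat_lit 88) (.e (nat_lit 65610) (nat_lit 10) (.e (nat_lit 344168) (nat_lit 40) .nil)))) .nil)) 
(.lf (nat_lit 113272) (.g (nat_lit 1835) (.e (nat_lit 5817) (nat_lit 320) (.e (nat_lit 1201) (nat_lit 88) (.e (nat_lit 65630) (nat_lit 14) (.e (nat_lit 401438) (nat_lit 9) (.e (nat_lit 426542) (nat_lit 29) .nil))))) .nil)))))) (.nd (nat_lit 3) (.nd (nat_lit 4) (.nd (nat_lit 5) (.nd (nat_lit 6) 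
(.lf (nat_lit 113156) (.g (nat_lit 1026) (.e (nat_lit 5813) (nat_lit 320) (.e (nat_lit 1296) (nat_lit 96) (.e (nat_lit 131123) (nat_lit 12) (.e (nat_lit 385105) (nat_lit 50) .nil)))) .nil)) 
(.lf (nat_lit 113220) (.g (nat_lit 668) (.e (nat_lit 5816) (nat_lit 320) (.e (nat_lit 1201) (nat_lit 88) (.e (nat_lit 65628) (nat_lit 14) .nil))) .nil))) (.nd (nat_lit 6) 
(.lf (nat_lit 113188) (.g (nat_lit 3219) (.e (nat_lit 5815) (nat_lit 320) (.e (nat_lit 1201) (nat_lit 88) (.e (nat_lit 65630) (nat_lit 14) (.e (nat_lit 401459) (nat_lit 13) (.e (nat_lit 483374) (nat_lit 22) .nil))))) .nil)) 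
(.lf (nat_lit 113252) (.g (nat_lit 1322) (.e (nat_lit 5817) (nat_lit 320) (.e (nat_lit 1201) (nat_lit 88) (.e (nat_lit 65617) (nat_lit 10) (.e (nat_lit 344169) (nat_lit 40) .nil)))) .nil)))) (.nd (nat_lit 5) (.nd (nat_lit 6) 
(.lf (nat_lit 113172) (.g (nat_lit 1417) (.e (nat_lit 5815) (nat_lit 320) (.e (nat_lit 1201) (nat_lit 88) (.e (nat_lit 65610) (nat_lit 10) (.e (nat_lit 344169) (nat_lit 40) .nil)))) .nil)) 
(.lf (nat_lit 113236) (.g (nat_lit 1304) (.e (nat_lit 5817) (nat_lit 320) (.e (nat_lit 1201) (nat_lit 88) (.e (nat_lit 65583) (nat_lit 7) (.e (nat_lit 319530) (nat_lit 16) (.e (nat_lit 286763) (nat_lit 15) .nil))))) .nil))) (.nd (nat_lit 6) 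
(.lf (nat_lit 113204) (.g (nat_lit 1462) (.e (nat_lit 5816) (nat_lit 320) (.e (nat_lit 1201) (nat_lit 88) (.e (nat_lit 65578) (nat_lit 6) (.e (nat_lit 147467) (nat_lit 9) (.e (nat_lit 297) (nat_lit 22) .nil))))) .nil)) 
(.lf (nat_lit 113268) (.g (nat_lit 1329) (.e (nat_lit 5817) (nat_lit 320) (.e (nat_lit 1201) (nat_lit 88) (.e (nat_lit 65630) (nat_lit 14) (.e (nat_lit 401436) (nat_lit 9) .nil)))) .nil))))) (.nd (nat_lit 4) (.nd (nat_lit 5) (.nd (nat_lit 6) 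
(.lf (nat_lit 113164) (.g (nat_lit 637) (.e (nat_lit 5815) (nat_lit 320) (.e (nat_lit 1201) (nat_lit 88) (.e (nat_lit 65546) (nat_lit 0) .nil))) .nil)) 
(.lf (nat_lit 113228) (.g (nat_lit 861) (.e (nat_lit 5816) (nat_lit 320) (.e (nat_lit 1214) (nat_lit 89) (.e (nat_lit 73792) (nat_lit 45) (.e (nat_lit 1385) (nat_lit 105) .nil)))) .nil))) (.nd (nat_lit 6) 
(.lf (nat_lit 113196) (.g (nat_lit 481) (.e (nat_lit 5815) (nat_lit 320) (.e (nat_lit 1212) (nat_lit 89) (.e (nat_lit 73782) (nat_lit 32) .nil))) .nil)) 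
(.lf (nat_lit 113260) (.g (nat_lit 2625) (.e (nat_lit 5817) (nat_lit 320) (.e (nat_lit 1201) (nat_lit 88) (.e (nat_lit 65624) (nat_lit 12) (.e (nat_lit 385105) (nat_lit 50) (.e (nat_lit 786481) (nat_lit 30) (.e (nat_lit 368384) (nat_lit 0) .nil)))))) (.g (nat_lit 5) .nil .nil))))) (.nd (nat_lit 5) (.nd (nat_lit 6) 
(.lf (nat_lit 113180) (.g (nat_lit 2885) (.e (nat_lit 5815) (nat_lit 320) (.e (nat_lit 1201) (nat_lit 88) (.e (nat_lit 65628) (nat_lit 14) (.e (nat_lit 401459) (nat_lit 13) (.e (nat_lit 483374) (nat_lit 22) (.e (nat_lit 327684) (nat_lit 0) (.e (nat_lit 81) (nat_lit 0) .nil))))))) (.g (nat_lit 4) .nil .nil))) 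
(.lf (nat_lit 113244) (.g (nat_lit 2074) (.e (nat_lit 5817) (nat_lit 320) (.e (nat_lit 1201) (nat_lit 88) (.e (nat_lit 65610) (nat_lit 10) (.e (nat_lit 344168) (nat_lit 40) (.e (nat_lit 671746) (nat_lit 0) .nil))))) .nil))) (.nd (nat_lit 6) 
(.lf (nat_lit 113212) (.g (nat_lit 1516) (.e (nat_lit 5816) (nat_lit 320) (.e (nat_lit 1201) (nat_lit 88) (.e (nat_lit 65610) (nat_lit 10) (.e (nat_lit 344169) (nat_lit 40) .nil)))) .nil)) 
(.lf (nat_lit 113276) (.g (nat_lit 1864) (.e (nat_lit 5817) (nat_lit 320) (.e (nat_lit 1201) (nat_lit 88) (.e (nat_lit 65630) (nat_lit 14) (.e (nat_lit 401458) (nat_lit 13) (.e (nat_lit 483394) (nat_lit 24) .nil))))) .nil))))))) (.nd (nat_lit 2) (.nd (nat_lit 3) (.nd (nat_lit 4) (.nd (nat_lit 5) (.nd (nat_lit 6) 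
(.lf (nat_lit 113154) (.g (nat_lit 1245) (.e (nat_lit 5813) (nat_lit 320) (.e (nat_lit 1296) (nat_lit 96) (.e (nat_lit 131120) (nat_lit 12) (.e (nat_lit 385106) (nat_lit 50) (.e (nat_lit 786481) (nat_lit 30) .nil))))) .nil)) 
(.lf (nat_lit 113218) (.g (nat_lit 1996) (.e (nat_lit 5816) (nat_lit 320) (.e (nat_lit 1201) (nat_lit 88) (.e (nat_lit 65624) (nat_lit 12) (.e (nat_lit 385105) (nat_lit 50) (.e (nat_lit 786481) (nat_lit 30) .nil))))) .nil))) (.nd (nat_lit 6) 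
(.lf (nat_lit 113186) (.g (nat_lit 1912) (.e (nat_lit 5815) (nat_lit 320) (.e (nat_lit 1201) (nat_lit 88) (.e (nat_lit 65630) (nat_lit 14) (.e (nat_lit 401458) (nat_lit 13) (.e (nat_lit 483396) (nat_lit 24) .nil))))) .nil)) 
(.lf (nat_lit 113250) (.g (nat_lit 2127) (.e (nat_lit 5817) (nat_lit 320) (.e (nat_lit 1201) (nat_lit 88) (.e (nat_lit 65610) (nat_lit 10) (.e (nat_lit 344169) (nat_lit 40) (.e (nat_lit 671751) (nat_lit 0) .nil))))) .nil)))) (.nd (nat_lit 5) (.nd (nat_lit 6) 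
(.lf (nat_lit 113170) (.g (nat_lit 1490) (.e (nat_lit 5815) (nat_lit 320) (.e (nat_lit 1201) (nat_lit 88) (.e (nat_lit 65610) (nat_lit 10) (.e (nat_lit 344168) (nat_lit 40) .nil)))) .nil)) 
(.lf (nat_lit 113234) (.g (nat_lit 1752) (.e (nat_lit 5817) (nat_lit 320) (.e (nat_lit 1201) (nat_lit 88) (.e (nat_lit 65553) (nat_lit 0) (.e (nat_lit 2281) (nat_lit 150) (.e (nat_lit 770073) (nat_lit 9) .nil))))) .nil))) (.nd (nat_lit 6) 
(.lf (nat_lit 113202) (.g (nat_lit 1126) (.e (nat_lit 5815) (nat_lit 320) (.e (nat_lit 1214) (nat_lit 89) (.e (nat_lit 73792) (nat_lit 45) (.e (nat_lit 1385) (nat_lit 105) .nil)))) .nil)) 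
(.lf (nat_lit 113266) (.g (nat_lit 1180) (.e (nat_lit 5817) (nat_lit 320) (.e (nat_lit 1201) (nat_lit 88) (.e (nat_lit 65628) (nat_lit 14) (.e (nat_lit 401459) (nat_lit 13) .nil)))) .nil))))) (.nd (nat_lit 4) (.nd (nat_lit 5) (.nd (nat_lit 6) 
(.lf (nat_lit 113162) (.g (nat_lit 1002) (.e (nat_lit 5815) (nat_lit 320) (.e (nat_lit 1183) (nat_lit 87) (.e (nat_lit 57712) (nat_lit 176) (.e (nat_lit 1370) (nat_lit 103) (.e (nat_lit 294960) (nat_lit 13) .nil))))) .nil)) 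
(.lf (nat_lit 113226) (.g (nat_lit 1967) (.e (nat_lit 5816) (nat_lit 320) (.e (nat_lit 1201) (nat_lit 88) (.e (nat_lit 65630) (nat_lit 14) (.e (nat_lit 401438) (nat_lit 9) (.e (nat_lit 426546) (nat_lit 30) .nil))))) .nil))) (.nd (nat_lit 6) 
(.lf (nat_lit 113194) (.g (nat_lit 1976) (.e (nat_lit 5815) (nat_lit 320) (.e (nat_lit 1212) (nat_lit 89) (.e (nat_lit 73733) (nat_lit 0) (.e (nat_lit 7270) (nat_lit 385) (.e (nat_lit 122911) (nat_lit 13) .nil))))) .nil)) 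
(.lf (nat_lit 113258) (.g (nat_lit 1766) (.e (nat_lit 5817) (nat_lit 320) (.e (nat_lit 1201) (nat_lit 88) (.e (nat_lit 65622) (nat_lit 12) (.e (nat_lit 385106) (nat_lit 50) (.e (nat_lit 786483) (nat_lit 30) .nil))))) .nil)))) (.nd (nat_lit 5) (.nd (nat_lit 6) 
(.lf (nat_lit 113178) (.g (nat_lit 5018) (.e (nat_lit 5815) (nat_lit 320) (.e (nat_lit 1201) (nat_lit 88) (.e (nat_lit 65628) (nat_lit 14) (.e (nat_lit 401459) (nat_lit 13) (.e (nat_lit 483372) (nat_lit 21) (.e (nat_lit 319490) (nat_lit 0) (.e (nat_lit 75) (nat_lit 0) .nil))))))) (.g (nat_lit 5) .nil .nil))) 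
(.lf (nat_lit 113242) (.g (nat_lit 1315) (.e (nat_lit 5817) (nat_lit 320) (.e (nat_lit 1201) (nat_lit 88) (.e (nat_lit 65610) (nat_lit 10) (.e (nat_lit 344160) (nat_lit 37) .nil)))) .nil))) (.nd (nat_lit 6) 
(.lf (nat_lit 113210) (.g (nat_lit 2239) (.e (nat_lit 5816) (nat_lit 320) (.e (nat_lit 1201) (nat_lit 88) (.e (nat_lit 65610) (nat_lit 10) (.e (nat_lit 344168) (nat_lit 40) (.e (nat_lit 671747) (nat_lit 0) .nil))))) .nil)) 
(.lf (nat_lit 113274) (.g (nat_lit 2724) (.e (nat_lit 5817) (nat_lit 320) (.e (nat_lit 1201) (nat_lit 88) (.e (nat_lit 65630) (nat_lit 14) (.e (nat_lit 401454) (nat_lit 12) (.e (nat_lit 483072) (nat_lit 13) .nil))))) .nil)))))) (.nd (nat_lit 3) (.nd (nat_lit 4) (.nd (nat_lit 5) (.nd (nat_lit 6) 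
(.lf (nat_lit 113158) (.g (nat_lit 762) (.e (nat_lit 5814) (nat_lit 320) (.e (nat_lit 1201) (nat_lit 88) (.e (nat_lit 65539) (nat_lit 0) .nil))) .nil)) 
(.lf (nat_lit 113222) (.g (nat_lit 542) (.e (nat_lit 5816) (nat_lit 320) (.e (nat_lit 1201) (nat_lit 88) (.e (nat_lit 65630) (nat_lit 14) .nil))) .nil))) (.nd (nat_lit 6) 
(.lf (nat_lit 113190) (.g (nat_lit 2653) (.e (nat_lit 5815) (nat_lit 320) (.e (nat_lit 1201) (nat_lit 88) (.e (nat_lit 65630) (nat_lit 14) (.e (nat_lit 401459) (nat_lit 13) (.e (nat_lit 483375) (nat_lit 22) .nil))))) .nil)) 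
(.lf (nat_lit 113254) (.g (nat_lit 1797) (.e (nat_lit 5817) (nat_lit 320) (.e (nat_lit 1201) (nat_lit 88) (.e (nat_lit 65617) (nat_lit 10) (.e (nat_lit 344169) (nat_lit 40) (.e (nat_lit 671748) (nat_lit 0) .nil))))) .nil)))) (.nd (nat_lit 5) (.nd (nat_lit 6) 
(.lf (nat_lit 113174) (.g (nat_lit 583) (.e (nat_lit 5815) (nat_lit 320) (.e (nat_lit 1201) (nat_lit 88) (.e (nat_lit 65622) (nat_lit 12) .nil))) .nil)) 
(.lf (nat_lit 113238) (.g (nat_lit 711) (.e (nat_lit 5817) (nat_lit 320) (.e (nat_lit 1201) (nat_lit 88) (.e (nat_lit 65586) (nat_lit 7) .nil))) .nil))) (.nd (nat_lit 6) 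
(.lf (nat_lit 113206) (.g (nat_lit 1601) (.e (nat_lit 5816) (nat_lit 320) (.e (nat_lit 1201) (nat_lit 88) (.e (nat_lit 65583) (nat_lit 7) (.e (nat_lit 319539) (nat_lit 19) (.e (nat_lit 319232) (nat_lit 30) .nil))))) .nil)) 
(.lf (nat_lit 113270) (.g (nat_lit 1942) (.e (nat_lit 5817) (nat_lit 320) (.e (nat_lit 1201) (nat_lit 88) (.e (nat_lit 65630) (nat_lit 14) (.e (nat_lit 401436) (nat_lit 9) (.e (nat_lit 426546) (nat_lit 30) .nil))))) .nil))))) (.nd (nat_lit 4) (.nd (nat_lit 5) (.nd (nat_lit 6) 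
(.lf (nat_lit 113166) (.g (nat_lit 1087) (.e (nat_lit 5815) (nat_lit 320) (.e (nat_lit 1201) (nat_lit 88) (.e (nat_lit 65578) (nat_lit 6) (.e (nat_lit 147467) (nat_lit 9) .nil)))) .nil)) 
(.lf (nat_lit 113230) (.g (nat_lit 316) (.e (nat_lit 5816) (nat_lit 320) (.e (nat_lit 1224) (nat_lit 90) (.e (nat_lit 89856) (nat_lit 8) .nil))) .nil))) (.nd (nat_lit 6) 
(.lf (nat_lit 113198) (.g (nat_lit 1176) (.e (nat_lit 5815) (nat_lit 320) (.e (nat_lit 1212) (nat_lit 89) (.e (nat_lit 73789) (nat_lit 45) (.e (nat_lit 1385) (nat_lit 105) (.e (nat_lit 319232) (nat_lit 30) .nil))))) .nil)) 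
(.lf (nat_lit 113262) (.g (nat_lit 2720) (.e (nat_lit 5817) (nat_lit 320) (.e (nat_lit 1201) (nat_lit 88) (.e (nat_lit 65624) (nat_lit 12) (.e (nat_lit 385106) (nat_lit 50) (.e (nat_lit 786483) (nat_lit 30) (.e (nat_lit 368384) (nat_lit 0) .nil)))))) (.g (nat_lit 5) .nil .nil))))) (.nd (nat_lit 5) (.nd (nat_lit 6) 
(.lf (nat_lit 113182) (.g (nat_lit 487) (.e (nat_lit 5815) (nat_lit 320) (.e (nat_lit 1201) (nat_lit 88) (.e (nat_lit 65630) (nat_lit 14) .nil))) .nil)) 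
(.lf (nat_lit 113246) (.g (nat_lit 1378) (.e (nat_lit 5817) (nat_lit 320) (.e (nat_lit 1201) (nat_lit 88) (.e (nat_lit 65610) (nat_lit 10) (.e (nat_lit 344169) (nat_lit 40) .nil)))) .nil))) (.nd (nat_lit 6) 
(.lf (nat_lit 113214) (.g (nat_lit 2202) (.e (nat_lit 5816) (nat_lit 320) (.e (nat_lit 1201) (nat_lit 88) (.e (nat_lit 65610) (nat_lit 10) (.e (nat_lit 344169) (nat_lit 40) (.e (nat_lit 671747) (nat_lit 0) .nil))))) .nil)) 
(.lf (nat_lit 113278) (.g (nat_lit 3240) (.e (nat_lit 5817) (nat_lit 320) (.e (nat_lit 1201) (nat_lit 88) (.e (nat_lit 65630) (nat_lit 14) (.e (nat_lit 401459) (nat_lit 13) (.e (nat_lit 483354) (nat_lit 17) .nil))))) .nil)))))))) (.nd (nat_lit 1) (.nd (nat_lit 2) (.nd (nat_lit 3) (.nd (nat_lit 4) (.nd (nat_lit 5) (.nd (nat_lit 6) 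
(.lf (nat_lit 113153) (.g (nat_lit 786) (.e (nat_lit 5813) (nat_lit 320) (.e (nat_lit 1296) (nat_lit 96) (.e (nat_lit 131120) (nat_lit 12) (.e (nat_lit 385105) (nat_lit 50) .nil)))) .nil)) 
(.lf (nat_lit 113217) (.g (nat_lit 571) (.e (nat_lit 5816) (nat_lit 320) (.e (nat_lit 1201) (nat_lit 88) (.e (nat_lit 65622) (nat_lit 12) .nil))) .nil))) (.nd (nat_lit 6) 
(.lf (nat_lit 113185) (.g (nat_lit 1833) (.e (nat_lit 5815) (nat_lit 320) (.e (nat_lit 1201) (nat_lit 88) (.e (nat_lit 65630) (nat_lit 14) (.e (nat_lit 401458) (nat_lit 13) (.e (nat_lit 483394) (nat_lit 24) .nil))))) .nil)) 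
(.lf (nat_lit 113249) (.g (nat_lit 3369) (.e (nat_lit 5817) (nat_lit 320) (.e (nat_lit 1201) (nat_lit 88) (.e (nat_lit 65610) (nat_lit 10) (.e (nat_lit 344169) (nat_lit 40) (.e (nat_lit 671747) (nat_lit 0) (.e (nat_lit 1586) (nat_lit 111) (.e (nat_lit 360456) (nat_lit 0) .nil))))))) (.g (nat_lit 7) .nil .nil))))) (.nd (nat_lit 5) (.nd (nat_lit 6) 
(.lf (nat_lit 113169) (.g (nat_lit 1868) (.e (nat_lit 5815) (nat_lit 320) (.e (nat_lit 1201) (nat_lit 88) (.e (nat_lit 65610) (nat_lit 10) (.e (nat_lit 344097) (nat_lit 18) (.e (nat_lit 5906) (nat_lit 320) .nil))))) .nil)) 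
(.lf (nat_lit 113233) (.g (nat_lit 1322) (.e (nat_lit 5817) (nat_lit 320) (.e (nat_lit 1201) (nat_lit 88) (.e (nat_lit 65546) (nat_lit 0) (.e (nat_lit 2281) (nat_lit 150) .nil)))) .nil))) (.nd (nat_lit 6) 
(.lf (nat_lit 113201) (.g (nat_lit 1684) (.e (nat_lit 5815) (nat_lit 320) (.e (nat_lit 1214) (nat_lit 89) (.e (nat_lit 73781) (nat_lit 32) (.e (nat_lit 2856) (nat_lit 184) (.e (nat_lit 426533) (nat_lit 28) .nil))))) .nil)) 
(.lf (nat_lit 113265) (.g (nat_lit 2353) (.e (nat_lit 5817) (nat_lit 320) (.e (nat_lit 1201) (nat_lit 88) (.e (nat_lit 65628) (nat_lit 14) (.e (nat_lit 401454) (nat_lit 12) (.e (nat_lit 483072) (nat_lit 13) .nil))))) .nil))))) (.nd (nat_lit 4) (.nd (nat_lit 5) (.nd (nat_lit 6) 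
(.lf (nat_lit 113161) (.g (nat_lit 471) (.e (nat_lit 5815) (nat_lit 320) (.e (nat_lit 1183) (nat_lit 87) (.e (nat_lit 57712) (nat_lit 176) .nil))) .nil)) 
(.lf (nat_lit 113225) (.g (nat_lit 1980) (.e (nat_lit 5816) (nat_lit 320) (.e (nat_lit 1201) (nat_lit 88) (.e (nat_lit 65630) (nat_lit 14) (.e (nat_lit 401438) (nat_lit 9) (.e (nat_lit 426544) (nat_lit 30) .nil))))) .nil))) (.nd (nat_lit 6) 
(.lf (nat_lit 113193) (.g (nat_lit 2925) (.e (nat_lit 5815) (nat_lit 320) (.e (nat_lit 1201) (nat_lit 88) (.e (nat_lit 65630) (nat_lit 14) (.e (nat_lit 401459) (nat_lit 13) (.e (nat_lit 483400) (nat_lit 25) .nil))))) .nil)) 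
(.lf (nat_lit 113257) (.g (nat_lit 1639) (.e (nat_lit 5817) (nat_lit 320) (.e (nat_lit 1201) (nat_lit 88) (.e (nat_lit 65622) (nat_lit 12) (.e (nat_lit 385106) (nat_lit 50) (.e (nat_lit 786481) (nat_lit 30) .nil))))) .nil)))) (.nd (nat_lit 5) (.nd (nat_lit 6) 
(.lf (nat_lit 113177) (.g (nat_lit 1225) (.e (nat_lit 5815) (nat_lit 320) (.e (nat_lit 1201) (nat_lit 88) (.e (nat_lit 65628) (nat_lit 14) (.e (nat_lit 401459) (nat_lit 13) .nil)))) .nil)) 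
(.lf (nat_lit 113241) (.g (nat_lit 1866) (.e (nat_lit 5817) (nat_lit 320) (.e (nat_lit 1201) (nat_lit 88) (.e (nat_lit 65610) (nat_lit 10) (.e (nat_lit 344097) (nat_lit 18) (.e (nat_lit 5907) (nat_lit 320) (.e (nat_lit 1221) (nat_lit 90) (.e (nat_lit 81932) (nat_lit 20) (.e (nat_lit 1085) (nat_lit 81) .nil)))))))) (.g (nat_lit 4) .nil .nil)))) (.nd (nat_lit 6) 
(.lf (nat_lit 113209) (.g (nat_lit 2153) (.e (nat_lit 5816) (nat_lit 320) (.e (nat_lit 1201) (nat_lit 88) (.e (nat_lit 65610) (nat_lit 10) (.e (nat_lit 344168) (nat_lit 40) (.e (nat_lit 671746) (nat_lit 0) .nil))))) .nil)) 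
(.lf (nat_lit 113273) (.g (nat_lit 1964) (.e (nat_lit 5817) (nat_lit 320) (.e (nat_lit 1201) (nat_lit 88) (.e (nat_lit 65630) (nat_lit 14) (.e (nat_lit 401438) (nat_lit 9) (.e (nat_lit 426544) (nat_lit 30) .nil))))) .nil)))))) (.nd (nat_lit 3) (.nd (nat_lit 4) (.nd (nat_lit 5) (.nd (nat_lit 6) 
(.lf (nat_lit 113157) (.g (nat_lit 474) (.e (nat_lit 5814) (nat_lit 320) (.e (nat_lit 1183) (nat_lit 87) (.e (nat_lit 57712) (nat_lit 176) .nil))) .nil)) 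
(.lf (nat_lit 113221) (.g (nat_lit 1241) (.e (nat_lit 5816) (nat_lit 320) (.e (nat_lit 1201) (nat_lit 88) (.e (nat_lit 65628) (nat_lit 14) (.e (nat_lit 401438) (nat_lit 9) .nil)))) .nil))) (.nd (nat_lit 6) 
(.lf (nat_lit 113189) (.g (nat_lit 3310) (.e (nat_lit 5815) (nat_lit 320) (.e (nat_lit 1201) (nat_lit 88) (.e (nat_lit 65630) (nat_lit 14) (.e (nat_lit 401459) (nat_lit 13) (.e (nat_lit 483374) (nat_lit 22) (.e (nat_lit 327680) (nat_lit 0) (.e (nat_lit 81) (nat_lit 0) .nil))))))) (.g (nat_lit 4) .nil .nil))) 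
(.lf (nat_lit 113253) (.g (nat_lit 1865) (.e (nat_lit 5817) (nat_lit 320) (.e (nat_lit 1201) (nat_lit 88) (.e (nat_lit 65617) (nat_lit 10) (.e (nat_lit 344169) (nat_lit 40) (.e (nat_lit 671747) (nat_lit 0) .nil))))) .nil)))) (.nd (nat_lit 5) (.nd (nat_lit 6) 
(.lf (nat_lit 113173) (.g (nat_lit 2104) (.e (nat_lit 5815) (nat_lit 320) (.e (nat_lit 1201) (nat_lit 88) (.e (nat_lit 65610) (nat_lit 10) (.e (nat_lit 344169) (nat_lit 40) (.e (nat_lit 671747) (nat_lit 0) .nil))))) .nil)) 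
(.lf (nat_lit 113237) (.g (nat_lit 1758) (.e (nat_lit 5817) (nat_lit 320) (.e (nat_lit 1201) (nat_lit 88) (.e (nat_lit 65583) (nat_lit 7) (.e (nat_lit 319539) (nat_lit 19) (.e (nat_lit 319232) (nat_lit 30) (.e (nat_lit 360456) (nat_lit 0) .nil)))))) (.g (nat_lit 4) .nil .nil)))) (.nd (nat_lit 6) 
(.lf (nat_lit 113205) (.g (nat_lit 541) (.e (nat_lit 5816) (nat_lit 320) (.e (nat_lit 1201) (nat_lit 88) (.e (nat_lit 65583) (nat_lit 7) .nil))) .nil)) 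
(.lf (nat_lit 113269) (.g (nat_lit 1936) (.e (nat_lit 5817) (nat_lit 320) (.e (nat_lit 1201) (nat_lit 88) (.e (nat_lit 65630) (nat_lit 14) (.e (nat_lit 401436) (nat_lit 9) (.e (nat_lit 426544) (nat_lit 30) .nil))))) .nil))))) (.nd (nat_lit 4) (.nd (nat_lit 5) (.nd (nat_lit 6) 
(.lf (nat_lit 113165) (.g (nat_lit 1921) (.e (nat_lit 5815) (nat_lit 320) (.e (nat_lit 1201) (nat_lit 88) (.e (nat_lit 65546) (nat_lit 0) (.e (nat_lit 2281) (nat_lit 150) (.e (nat_lit 770073) (nat_lit 9) .nil))))) .nil)) 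
(.lf (nat_lit 113229) (.g (nat_lit 1696) (.e (nat_lit 5816) (nat_lit 320) (.e (nat_lit 1214) (nat_lit 89) (.e (nat_lit 73792) (nat_lit 45) (.e (nat_lit 1386) (nat_lit 105) (.e (nat_lit 319232) (nat_lit 30) .nil))))) .nil))) (.nd (nat_lit 6) 
(.lf (nat_lit 113197) (.g (nat_lit 1583) (.e (nat_lit 5815) (nat_lit 320) (.e (nat_lit 1212) (nat_lit 89) (.e (nat_lit 73782) (nat_lit 32) (.e (nat_lit 2856) (nat_lit 184) (.e (nat_lit 426533) (nat_lit 28) .nil))))) .nil)) 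
(.lf (nat_lit 113261) (.g (nat_lit 2609) (.e (nat_lit 5817) (nat_lit 320) (.e (nat_lit 1201) (nat_lit 88) (.e (nat_lit 65624) (nat_lit 12) (.e (nat_lit 385106) (nat_lit 50) (.e (nat_lit 786481) (nat_lit 30) (.e (nat_lit 368384) (nat_lit 0) .nil)))))) (.g (nat_lit 5) .nil .nil))))) (.nd (nat_lit 5) (.nd (nat_lit 6) 
(.lf (nat_lit 113181) (.g (nat_lit 2737) (.e (nat_lit 5815) (nat_lit 320) (.e (nat_lit 1201) (nat_lit 88) (.e (nat_lit 65628) (nat_lit 14) (.e (nat_lit 401459) (nat_lit 13) (.e (nat_lit 483375) (nat_lit 22) .nil))))) .nil)) 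
(.lf (nat_lit 113245) (.g (nat_lit 2160) (.e (nat_lit 5817) (nat_lit 320) (.e (nat_lit 1201) (nat_lit 88) (.e (nat_lit 65610) (nat_lit 10) (.e (nat_lit 344168) (nat_lit 40) (.e (nat_lit 671747) (nat_lit 0) .nil))))) .nil))) (.nd (nat_lit 6) 
(.lf (nat_lit 113213) (.g (nat_lit 2107) (.e (nat_lit 5816) (nat_lit 320) (.e (nat_lit 1201) (nat_lit 88) (.e (nat_lit 65610) (nat_lit 10) (.e (nat_lit 344169) (nat_lit 40) (.e (nat_lit 671746) (nat_lit 0) .nil))))) .nil)) 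
(.lf (nat_lit 113277) (.g (nat_lit 1944) (.e (nat_lit 5817) (nat_lit 320) (.e (nat_lit 1201) (nat_lit 88) (.e (nat_lit 65630) (nat_lit 14) (.e (nat_lit 401458) (nat_lit 13) (.e (nat_lit 483396) (nat_lit 24) .nil))))) .nil))))))) (.nd (nat_lit 2) (.nd (nat_lit 3) (.nd (nat_lit 4) (.nd (nat_lit 5) (.nd (nat_lit 6) 
(.lf (nat_lit 113155) (.g (nat_lit 594) (.e (nat_lit 5813) (nat_lit 320) (.e (nat_lit 1296) (nat_lit 96) (.e (nat_lit 131123) (nat_lit 12) .nil))) .nil)) 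
(.lf (nat_lit 113219) (.g (nat_lit 1888) (.e (nat_lit 5816) (nat_lit 320) (.e (nat_lit 1201) (nat_lit 88) (.e (nat_lit 65624) (nat_lit 12) (.e (nat_lit 385106) (nat_lit 50) (.e (nat_lit 786481) (nat_lit 30) .nil))))) .nil))) (.nd (nat_lit 6) 
(.lf (nat_lit 113187) (.g (nat_lit 3212) (.e (nat_lit 5815) (nat_lit 320) (.e (nat_lit 1201) (nat_lit 88) (.e (nat_lit 65630) (nat_lit 14) (.e (nat_lit 401459) (nat_lit 13) (.e (nat_lit 483354) (nat_lit 17) .nil))))) .nil)) 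
(.lf (nat_lit 113251) (.g (nat_lit 2036) (.e (nat_lit 5817) (nat_lit 320) (.e (nat_lit 1201) (nat_lit 88) (.e (nat_lit 65617) (nat_lit 10) (.e (nat_lit 344168) (nat_lit 40) (.e (nat_lit 671747) (nat_lit 0) .nil))))) .nil)))) (.nd (nat_lit 5) (.nd (nat_lit 6) 
(.lf (nat_lit 113171) (.g (nat_lit 2142) (.e (nat_lit 5815) (nat_lit 320) (.e (nat_lit 1201) (nat_lit 88) (.e (nat_lit 65610) (nat_lit 10) (.e (nat_lit 344168) (nat_lit 40) (.e (nat_lit 671751) (nat_lit 0) .nil))))) .nil)) 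
(.lf (nat_lit 113235) (.g (nat_lit 1098) (.e (nat_lit 5817) (nat_lit 320) (.e (nat_lit 1201) (nat_lit 88) (.e (nat_lit 65578) (nat_lit 6) (.e (nat_lit 147467) (nat_lit 9) .nil)))) .nil))) (.nd (nat_lit 6) 
(.lf (nat_lit 113203) (.g (nat_lit 1960) (.e (nat_lit 5815) (nat_lit 320) (.e (nat_lit 1214) (nat_lit 89) (.e (nat_lit 73792) (nat_lit 45) (.e (nat_lit 1386) (nat_lit 105) (.e (nat_lit 319232) (nat_lit 30) .nil))))) .nil)) 
(.lf (nat_lit 113267) (.g (nat_lit 2459) (.e (nat_lit 5817) (nat_lit 320) (.e (nat_lit 1201) (nat_lit 88) (.e (nat_lit 65628) (nat_lit 14) (.e (nat_lit 401459) (nat_lit 13) (.e (nat_lit 483380) (nat_lit 23) .nil))))) .nil))))) (.nd (nat_lit 4) (.nd (nat_lit 5) (.nd (nat_lit 6) 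
(.lf (nat_lit 113163) (.g (nat_lit 762) (.e (nat_lit 5815) (nat_lit 320) (.e (nat_lit 1201) (nat_lit 88) (.e (nat_lit 65539) (nat_lit 0) .nil))) .nil)) 
(.lf (nat_lit 113227) (.g (nat_lit 1851) (.e (nat_lit 5816) (nat_lit 320) (.e (nat_lit 1201) (nat_lit 88) (.e (nat_lit 65630) (nat_lit 14) (.e (nat_lit 401458) (nat_lit 13) (.e (nat_lit 483393) (nat_lit 23) .nil))))) .nil))) (.nd (nat_lit 6) 
(.lf (nat_lit 113195) (.g (nat_lit 3184) (.e (nat_lit 5815) (nat_lit 320) (.e (nat_lit 1212) (nat_lit 89) (.e (nat_lit 73776) (nat_lit 26) (.e (nat_lit 778362) (nat_lit 9) (.e (nat_lit 297) (nat_lit 22) (.e (nat_lit 344127) (nat_lit 26) (.e (nat_lit 557104) (nat_lit 14) (.e (nat_lit 180233) (nat_lit 0) .nil)))))))) (.g (nat_lit 5) .nil .nil))) 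
(.lf (nat_lit 113259) (.g (nat_lit 432) (.e (nat_lit 5817) (nat_lit 320) (.e (nat_lit 1201) (nat_lit 88) (.e (nat_lit 65624) (nat_lit 12) .nil))) .nil)))) (.nd (nat_lit 5) (.nd (nat_lit 6) 
(.lf (nat_lit 113179) (.g (nat_lit 2820) (.e (nat_lit 5815) (nat_lit 320) (.e (nat_lit 1201) (nat_lit 88) (.e (nat_lit 65628) (nat_lit 14) (.e (nat_lit 401459) (nat_lit 13) (.e (nat_lit 483374) (nat_lit 22) .nil))))) .nil)) 
(.lf (nat_lit 113243) (.g (nat_lit 1510) (.e (nat_lit 5817) (nat_lit 320) (.e (nat_lit 1201) (nat_lit 88) (.e (nat_lit 65610) (nat_lit 10) (.e (nat_lit 344168) (nat_lit 40) .nil)))) .nil))) (.nd (nat_lit 6) 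
(.lf (nat_lit 113211) (.g (nat_lit 2241) (.e (nat_lit 5816) (nat_lit 320) (.e (nat_lit 1201) (nat_lit 88) (.e (nat_lit 65610) (nat_lit 10) (.e (nat_lit 344168) (nat_lit 40) (.e (nat_lit 671751) (nat_lit 0) .nil))))) .nil)) 
(.lf (nat_lit 113275) (.g (nat_lit 1179) (.e (nat_lit 5817) (nat_lit 320) (.e (nat_lit 1201) (nat_lit 88) (.e (nat_lit 65630) (nat_lit 14) (.e (nat_lit 401458) (nat_lit 13) .nil)))) .nil)))))) (.nd (nat_lit 3) (.nd (nat_lit 4) (.nd (nat_lit 5) (.nd (nat_lit 6) 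
(.lf (nat_lit 113159) (.g (nat_lit 1904) (.e (nat_lit 5814) (nat_lit 320) (.e (nat_lit 1201) (nat_lit 88) (.e (nat_lit 65546) (nat_lit 0) (.e (nat_lit 2281) (nat_lit 150) (.e (nat_lit 770073) (nat_lit 9) .nil))))) .nil)) 
(.lf (nat_lit 113223) (.g (nat_lit 1952) (.e (nat_lit 5816) (nat_lit 320) (.e (nat_lit 1201) (nat_lit 88) (.e (nat_lit 65630) (nat_lit 14) (.e (nat_lit 401436) (nat_lit 9) (.e (nat_lit 426544) (nat_lit 30) .nil))))) .nil))) (.nd (nat_lit 6) 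
(.lf (nat_lit 113191) (.g (nat_lit 2091) (.e (nat_lit 5815) (nat_lit 320) (.e (nat_lit 1201) (nat_lit 88) (.e (nat_lit 65630) (nat_lit 14) (.e (nat_lit 401459) (nat_lit 13) (.e (nat_lit 483395) (nat_lit 24) .nil))))) .nil)) 
(.lf (nat_lit 113255) (.g (nat_lit 1815) (.e (nat_lit 5817) (nat_lit 320) (.e (nat_lit 1201) (nat_lit 88) (.e (nat_lit 65622) (nat_lit 12) (.e (nat_lit 385105) (nat_lit 50) (.e (nat_lit 786481) (nat_lit 30) .nil))))) .nil)))) (.nd (nat_lit 5) (.nd (nat_lit 6) 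
(.lf (nat_lit 113175) (.g (nat_lit 468) (.e (nat_lit 5815) (nat_lit 320) (.e (nat_lit 1201) (nat_lit 88) (.e (nat_lit 65624) (nat_lit 12) .nil))) .nil)) 
(.lf (nat_lit 113239) (.g (nat_lit 1400) (.e (nat_lit 5817) (nat_lit 320) (.e (nat_lit 1201) (nat_lit 88) (.e (nat_lit 65610) (nat_lit 10) (.e (nat_lit 344097) (nat_lit 18) .nil)))) .nil))) (.nd (nat_lit 6) 
(.lf (nat_lit 113207) (.g (nat_lit 506) (.e (nat_lit 5816) (nat_lit 320) (.e (nat_lit 1201) (nat_lit 88) (.e (nat_lit 65610) (nat_lit 10) .nil))) .nil)) 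
(.lf (nat_lit 113271) (.g (nat_lit 1285) (.e (nat_lit 5817) (nat_lit 320) (.e (nat_lit 1201) (nat_lit 88) (.e (nat_lit 65630) (nat_lit 14) (.e (nat_lit 401437) (nat_lit 9) .nil)))) .nil))))) (.nd (nat_lit 4) (.nd (nat_lit 5) (.nd (nat_lit 6) 
(.lf (nat_lit 113167) (.g (nat_lit 1483) (.e (nat_lit 5815) (nat_lit 320) (.e (nat_lit 1201) (nat_lit 88) (.e (nat_lit 65578) (nat_lit 6) (.e (nat_lit 147467) (nat_lit 9) (.e (nat_lit 297) (nat_lit 22) .nil))))) .nil)) 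
(.lf (nat_lit 113231) (.g (nat_lit 1484) (.e (nat_lit 5816) (nat_lit 320) (.e (nat_lit 1296) (nat_lit 96) (.e (nat_lit 131086) (nat_lit 1) (.e (nat_lit 57684) (nat_lit 155) (.e (nat_lit 122913) (nat_lit 13) .nil))))) .nil))) (.nd (nat_lit 6) 
(.lf (nat_lit 113199) (.g (nat_lit 1168) (.e (nat_lit 5815) (nat_lit 320) (.e (nat_lit 1212) (nat_lit 89) (.e (nat_lit 73789) (nat_lit 45) (.e (nat_lit 1386) (nat_lit 105) (.e (nat_lit 319232) (nat_lit 30) .nil))))) .nil)) 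
(.lf (nat_lit 113263) (.g (nat_lit 625) (.e (nat_lit 5817) (nat_lit 320) (.e (nat_lit 1201) (nat_lit 88) (.e (nat_lit 65628) (nat_lit 14) .nil))) .nil)))) (.nd (nat_lit 5) (.nd (nat_lit 6) 
(.lf (nat_lit 113183) (.g (nat_lit 1253) (.e (nat_lit 5815) (nat_lit 320) (.e (nat_lit 1201) (nat_lit 88) (.e (nat_lit 65630) (nat_lit 14) (.e (nat_lit 401437) (nat_lit 9) .nil)))) .nil)) 
(.lf (nat_lit 113247) (.g (nat_lit 2010) (.e (nat_lit 5817) (nat_lit 320) (.e (nat_lit 1201) (nat_lit 88) (.e (nat_lit 65610) (nat_lit 10) (.e (nat_lit 344169) (nat_lit 40) (.e (nat_lit 671746) (nat_lit 0) .nil))))) .nil))) (.nd (nat_lit 6) 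
(.lf (nat_lit 113215) (.g (nat_lit 2224) (.e (nat_lit 5816) (nat_lit 320) (.e (nat_lit 1201) (nat_lit 88) (.e (nat_lit 65610) (nat_lit 10) (.e (nat_lit 344169) (nat_lit 40) (.e (nat_lit 671751) (nat_lit 0) .nil))))) .nil)) 
(.lf (nat_lit 113279) (.g (nat_lit 2945) (.e (nat_lit 5817) (nat_lit 320) (.e (nat_lit 1201) (nat_lit 88) (.e (nat_lit 65630) (nat_lit 14) (.e (nat_lit 401459) (nat_lit 13) (.e (nat_lit 483380) (nat_lit 23) .nil))))) .nil)))))))))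

noncomputable def tv1528 : DT := (.nd (nat_lit 0) (.nd (nat_lit 1) (.nd (nat_lit 2) (.nd (nat_lit 3) (.nd (nat_lit 4) (.nd (nat_lit 5) (.nd (nat_lit 6) 
(.lf (nat_lit 113280) (.g (nat_lit 3198) (.e (nat_lit 5817) (nat_lit 320) (.e (nat_lit 1201) (nat_lit 88) (.e (nat_lit 65630) (nat_lit 14) (.e (nat_lit 401459) (nat_lit 13) (.e (nat_lit 483398) (nat_lit 25) .nil))))) .nil)) 
(.lf (nat_lit 113344) (.g (nat_lit 1609) (.e (nat_lit 5818) (nat_lit 320) (.e (nat_lit 1201) (nat_lit 88) (.e (nat_lit 65628) (nat_lit 14) (.e (nat_lit 401458) (nat_lit 13) (.e (nat_lit 483395) (nat_lit 24) .nil))))) .nil))) (.nd (nat_lit 6) 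
(.lf (nat_lit 113312) (.g (nat_lit 1923) (.e (nat_lit 5818) (nat_lit 320) (.e (nat_lit 1193) (nat_lit 88) (.e (nat_lit 65628) (nat_lit 14) (.e (nat_lit 401438) (nat_lit 9) (.e (nat_lit 426546) (nat_lit 30) (.e (nat_lit 360456) (nat_lit 0) .nil)))))) (.g (nat_lit 4) .nil .nil))) 
(.lf (nat_lit 113376) (.g (nat_lit 1755) (.e (nat_lit 5818) (nat_lit 320) (.e (nat_lit 1222) (nat_lit 90) (.e (nat_lit 81947) (nat_lit 20) (.e (nat_lit 2006) (nat_lit 138) (.e (nat_lit 671748) (nat_lit 0) .nil))))) .nil)))) (.nd (nat_lit 5) (.nd (nat_lit 6) 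
(.lf (nat_lit 113296) (.g (nat_lit 3979) (.e (nat_lit 5818) (nat_lit 320) (.e (nat_lit 1173) (nat_lit 87) (.e (nat_lit 57480) (nat_lit 28) (.e (nat_lit 557109) (nat_lit 15) (.e (nat_lit 188449) (nat_lit 22) (.e (nat_lit 196667) (nat_lit 14) (.e (nat_lit 73736) (nat_lit 0) .nil))))))) (.g (nat_lit 5) .nil .nil))) 
(.lf (nat_lit 113360) (.g (nat_lit 2060) (.e (nat_lit 5818) (nat_lit 320) (.e (nat_lit 1212) (nat_lit 89) (.e (nat_lit 73782) (nat_lit 32) (.e (nat_lit 3090) (nat_lit 191) (.e (nat_lit 483396) (nat_lit 24) (.e (nat_lit 344104) (nat_lit 18) .nil)))))) (.g (nat_lit 5) .nil .nil)))) (.nd (nat_lit 6) 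
(.lf (nat_lit 113328) (.g (nat_lit 1982) (.e (nat_lit 5818) (nat_lit 320) (.e (nat_lit 1201) (nat_lit 88) (.e (nat_lit 65610) (nat_lit 10) (.e (nat_lit 344168) (nat_lit 40) (.e (nat_lit 671751) (nat_lit 0) .nil))))) .nil)) 
(.lf (nat_lit 113392) (.g (nat_lit 921) (.e (nat_lit 5818) (nat_lit 320) (.e (nat_lit 1224) (nat_lit 90) (.e (nat_lit 81946) (nat_lit 20) (.e (nat_lit 2005) (nat_lit 138) .nil)))) .nil))))) (.nd (nat_lit 4) (.nd (nat_lit 5) (.nd (nat_lit 6) 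
(.lf (nat_lit 113288) (.g (nat_lit 876) (.e (nat_lit 5817) (nat_lit 320) (.e (nat_lit 1296) (nat_lit 96) (.e (nat_lit 131089) (nat_lit 1) .nil))) .nil)) 
(.lf (nat_lit 113352) (.g (nat_lit 2605) (.e (nat_lit 5818) (nat_lit 320) (.e (nat_lit 1201) (nat_lit 88) (.e (nat_lit 65630) (nat_lit 14) (.e (nat_lit 401458) (nat_lit 13) (.e (nat_lit 483396) (nat_lit 24) (.e (nat_lit 344104) (nat_lit 18) .nil)))))) (.g (nat_lit 5) .nil .nil)))) (.nd (nat_lit 6) 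
(.lf (nat_lit 113320) (.g (nat_lit 1865) (.e (nat_lit 5818) (nat_lit 320) (.e (nat_lit 1201) (nat_lit 88) (.e (nat_lit 65610) (nat_lit 10) (.e (nat_lit 344097) (nat_lit 18) (.e (nat_lit 5905) (nat_lit 320) .nil))))) .nil)) 
(.lf (nat_lit 113384) (.g (nat_lit 1529) (.e (nat_lit 5818) (nat_lit 320) (.e (nat_lit 1222) (nat_lit 90) (.e (nat_lit 81959) (nat_lit 24) (.e (nat_lit 123198) (nat_lit 266) (.e (nat_lit 57426) (nat_lit 15) .nil))))) .nil)))) (.nd (nat_lit 5) (.nd (nat_lit 6) 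
(.lf (nat_lit 113304) (.g (nat_lit 3365) (.e (nat_lit 5818) (nat_lit 320) (.e (nat_lit 1183) (nat_lit 87) (.e (nat_lit 57479) (nat_lit 28) (.e (nat_lit 557109) (nat_lit 15) (.e (nat_lit 188458) (nat_lit 25) .nil))))) .nil)) 
(.lf (nat_lit 113368) (.g (nat_lit 288) (.e (nat_lit 5818) (nat_lit 320) (.e (nat_lit 1222) (nat_lit 90) (.e (nat_lit 89856) (nat_lit 8) .nil))) .nil))) (.nd (nat_lit 6) 
(.lf (nat_lit 113336) (.g (nat_lit 911) (.e (nat_lit 5818) (nat_lit 320) (.e (nat_lit 1201) (nat_lit 88) (.e (nat_lit 65617) (nat_lit 10) (.e (nat_lit 344169) (nat_lit 40) .nil)))) .nil)) 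
(.lf (nat_lit 113400) (.g (nat_lit 1135) (.e (nat_lit 5820) (nat_lit 320) (.e (nat_lit 1201) (nat_lit 88) (.e (nat_lit 65563) (nat_lit 1) (.e (nat_lit 57655) (nat_lit 152) .nil)))) .nil)))))) (.nd (nat_lit 3) (.nd (nat_lit 4) (.nd (nat_lit 5) (.nd (nat_lit 6) 
(.lf (nat_lit 113284) (.g (nat_lit 1743) (.e (nat_lit 5817) (nat_lit 320) (.e (nat_lit 1214) (nat_lit 89) (.e (nat_lit 73732) (nat_lit 0) (.e (nat_lit 7270) (nat_lit 385) (.e (nat_lit 122913) (nat_lit 13) .nil))))) .nil)) 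
(.lf (nat_lit 113348) (.g (nat_lit 1550) (.e (nat_lit 5818) (nat_lit 320) (.e (nat_lit 1201) (nat_lit 88) (.e (nat_lit 65630) (nat_lit 14) (.e (nat_lit 401456) (nat_lit 13) .nil)))) .nil))) (.nd (nat_lit 6) 
(.lf (nat_lit 113316) (.g (nat_lit 1809) (.e (nat_lit 5818) (nat_lit 320) (.e (nat_lit 1201) (nat_lit 88) (.e (nat_lit 65583) (nat_lit 7) (.e (nat_lit 319538) (nat_lit 19) (.e (nat_lit 319232) (nat_lit 30) .nil))))) .nil)) 
(.lf (nat_lit 113380) (.g (nat_lit 1874) (.e (nat_lit 5818) (nat_lit 320) (.e (nat_lit 1222) (nat_lit 90) (.e (nat_lit 81957) (nat_lit 24) (.e (nat_lit 123195) (nat_lit 266) (.e (nat_lit 57426) (nat_lit 15) .nil))))) .nil)))) (.nd (nat_lit 5) (.nd (nat_lit 6) 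
(.lf (nat_lit 113300) (.g (nat_lit 2628) (.e (nat_lit 5818) (nat_lit 320) (.e (nat_lit 1183) (nat_lit 87) (.e (nat_lit 57479) (nat_lit 28) (.e (nat_lit 557095) (nat_lit 13) (.e (nat_lit 172115) (nat_lit 10) (.e (nat_lit 434231) (nat_lit 23) (.e (nat_lit 532543) (nat_lit 10) (.e (nat_lit 344104) (nat_lit 18) .nil)))))))) (.g (nat_lit 4) .nil .nil))) 
(.lf (nat_lit 113364) (.g (nat_lit 1744) (.e (nat_lit 5818) (nat_lit 320) (.e (nat_lit 1214) (nat_lit 89) (.e (nat_lit 73781) (nat_lit 32) (.e (nat_lit 3067) (nat_lit 190) (.e (nat_lit 483072) (nat_lit 13) (.e (nat_lit 73736) (nat_lit 0) .nil)))))) (.g (nat_lit 4) .nil .nil)))) (.nd (nat_lit 6) 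
(.lf (nat_lit 113332) (.g (nat_lit 2090) (.e (nat_lit 5818) (nat_lit 320) (.e (nat_lit 1201) (nat_lit 88) (.e (nat_lit 65610) (nat_lit 10) (.e (nat_lit 344169) (nat_lit 40) (.e (nat_lit 671751) (nat_lit 0) .nil))))) .nil)) 
(.lf (nat_lit 113396) (.g (nat_lit 2679) (.e (nat_lit 5818) (nat_lit 320) (.e (nat_lit 1224) (nat_lit 90) (.e (nat_lit 81959) (nat_lit 24) (.e (nat_lit 123195) (nat_lit 266) (.e (nat_lit 57428) (nat_lit 15) .nil))))) .nil))))) (.nd (nat_lit 4) (.nd (nat_lit 5) (.nd (nat_lit 6) 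
(.lf (nat_lit 113292) (.g (nat_lit 1827) (.e (nat_lit 5818) (nat_lit 320) (.e (nat_lit 999) (nat_lit 81) (.e (nat_lit 1400) (nat_lit 106) (.e (nat_lit 319533) (nat_lit 16) (.e (nat_lit 286743) (nat_lit 9) .nil))))) .nil)) 
(.lf (nat_lit 113356) (.g (nat_lit 511) (.e (nat_lit 5818) (nat_lit 320) (.e (nat_lit 1212) (nat_lit 89) (.e (nat_lit 73781) (nat_lit 32) .nil))) .nil))) (.nd (nat_lit 6) 
(.lf (nat_lit 113324) (.g (nat_lit 2156) (.e (nat_lit 5818) (nat_lit 320) (.e (nat_lit 1201) (nat_lit 88) (.e (nat_lit 65610) (nat_lit 10) (.e (nat_lit 344168) (nat_lit 40) (.e (nat_lit 671746) (nat_lit 0) (.e (nat_lit 1595) (nat_lit 111) (.e (nat_lit 360457) (nat_lit 0) .nil))))))) (.g (nat_lit 4) .nil .nil))) 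
(.lf (nat_lit 113388) (.g (nat_lit 1809) (.e (nat_lit 5818) (nat_lit 320) (.e (nat_lit 1223) (nat_lit 90) (.e (nat_lit 81959) (nat_lit 24) (.e (nat_lit 123198) (nat_lit 266) (.e (nat_lit 57426) (nat_lit 15) (.e (nat_lit 360456) (nat_lit 0) .nil)))))) (.g (nat_lit 5) .nil .nil))))) (.nd (nat_lit 5) (.nd (nat_lit 6) 
(.lf (nat_lit 113308) (.g (nat_lit 2227) (.e (nat_lit 5818) (nat_lit 320) (.e (nat_lit 1183) (nat_lit 87) (.e (nat_lit 57520) (nat_lit 44) (.e (nat_lit 688177) (nat_lit 16) (.e (nat_lit 65586) (nat_lit 7) .nil))))) .nil)) 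
(.lf (nat_lit 113372) (.g (nat_lit 1333) (.e (nat_lit 5818) (nat_lit 320) (.e (nat_lit 1222) (nat_lit 90) (.e (nat_lit 81943) (nat_lit 20) (.e (nat_lit 2005) (nat_lit 138) (.e (nat_lit 671747) (nat_lit 0) .nil))))) .nil))) (.nd (nat_lit 6) 
(.lf (nat_lit 113340) (.g (nat_lit 3564) (.e (nat_lit 5818) (nat_lit 320) (.e (nat_lit 1201) (nat_lit 88) (.e (nat_lit 65624) (nat_lit 12) (.e (nat_lit 385106) (nat_lit 50) (.e (nat_lit 786483) (nat_lit 30) (.e (nat_lit 360457) (nat_lit 0) .nil)))))) (.g (nat_lit 0) .nil .nil))) 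
(.lf (nat_lit 113404) (.g (nat_lit 1469) (.e (nat_lit 5820) (nat_lit 320) (.e (nat_lit 1201) (nat_lit 88) (.e (nat_lit 65610) (nat_lit 10) (.e (nat_lit 344169) (nat_lit 40) .nil)))) .nil))))))) (.nd (nat_lit 2) (.nd (nat_lit 3) (.nd (nat_lit 4) (.nd (nat_lit 5) (.nd (nat_lit 6) 
(.lf (nat_lit 113282) (.g (nat_lit 3513) (.e (nat_lit 5817) (nat_lit 320) (.e (nat_lit 1201) (nat_lit 88) (.e (nat_lit 65630) (nat_lit 14) (.e (nat_lit 401459) (nat_lit 13) (.e (nat_lit 483400) (nat_lit 25) (.e (nat_lit 368664) (nat_lit 18) .nil)))))) (.g (nat_lit 6) .nil .nil))) 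
(.lf (nat_lit 113346) (.g (nat_lit 666) (.e (nat_lit 5818) (nat_lit 320) (.e (nat_lit 1201) (nat_lit 88) (.e (nat_lit 65629) (nat_lit 14) .nil))) .nil))) (.nd (nat_lit 6) 
(.lf (nat_lit 113314) (.g (nat_lit 1738) (.e (nat_lit 5818) (nat_lit 320) (.e (nat_lit 1193) (nat_lit 88) (.e (nat_lit 65628) (nat_lit 14) (.e (nat_lit 401458) (nat_lit 13) (.e (nat_lit 483396) (nat_lit 24) .nil))))) .nil)) 
(.lf (nat_lit 113378) (.g (nat_lit 919) (.e (nat_lit 5818) (nat_lit 320) (.e (nat_lit 1222) (nat_lit 90) (.e (nat_lit 81948) (nat_lit 21) (.e (nat_lit 57871) (nat_lit 264) .nil)))) .nil)))) (.nd (nat_lit 5) (.nd (nat_lit 6) 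
(.lf (nat_lit 113298) (.g (nat_lit 4987) (.e (nat_lit 5818) (nat_lit 320) (.e (nat_lit 1183) (nat_lit 87) (.e (nat_lit 57478) (nat_lit 28) (.e (nat_lit 557109) (nat_lit 15) (.e (nat_lit 188449) (nat_lit 22) (.e (nat_lit 196670) (nat_lit 14) (.e (nat_lit 73736) (nat_lit 0) .nil))))))) (.g (nat_lit 6) .nil .nil))) 
(.lf (nat_lit 113362) (.g (nat_lit 412) (.e (nat_lit 5818) (nat_lit 320) (.e (nat_lit 1212) (nat_lit 89) (.e (nat_lit 73791) (nat_lit 45) .nil))) .nil))) (.nd (nat_lit 6) 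
(.lf (nat_lit 113330) (.g (nat_lit 2120) (.e (nat_lit 5818) (nat_lit 320) (.e (nat_lit 1201) (nat_lit 88) (.e (nat_lit 65610) (nat_lit 10) (.e (nat_lit 344169) (nat_lit 40) (.e (nat_lit 671746) (nat_lit 0) (.e (nat_lit 1595) (nat_lit 111) (.e (nat_lit 360457) (nat_lit 0) .nil))))))) (.g (nat_lit 4) .nil .nil))) 
(.lf (nat_lit 113394) (.g (nat_lit 1285) (.e (nat_lit 5818) (nat_lit 320) (.e (nat_lit 1224) (nat_lit 90) (.e (nat_lit 81947) (nat_lit 20) (.e (nat_lit 2005) (nat_lit 138) (.e (nat_lit 671746) (nat_lit 0) .nil))))) .nil))))) (.nd (nat_lit 4) (.nd (nat_lit 5) (.nd (nat_lit 6) 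
(.lf (nat_lit 113290) (.g (nat_lit 1452) (.e (nat_lit 5818) (nat_lit 320) (.e (nat_lit 999) (nat_lit 81) (.e (nat_lit 1256) (nat_lit 92) (.e (nat_lit 98370) (nat_lit 28) (.e (nat_lit 450304) (nat_lit 18) (.e (nat_lit 393232) (nat_lit 17) (.e (nat_lit 2485) (nat_lit 157) .nil))))))) (.g (nat_lit 4) .nil .nil))) 
(.lf (nat_lit 113354) (.g (nat_lit 3024) (.e (nat_lit 5818) (nat_lit 320) (.e (nat_lit 1201) (nat_lit 88) (.e (nat_lit 65630) (nat_lit 14) (.e (nat_lit 401459) (nat_lit 13) (.e (nat_lit 483396) (nat_lit 24) .nil))))) .nil))) (.nd (nat_lit 6) 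
(.lf (nat_lit 113322) (.g (nat_lit 1575) (.e (nat_lit 5818) (nat_lit 320) (.e (nat_lit 1201) (nat_lit 88) (.e (nat_lit 65610) (nat_lit 10) (.e (nat_lit 344160) (nat_lit 37) (.e (nat_lit 647203) (nat_lit 14) .nil))))) .nil)) 
(.lf (nat_lit 113386) (.g (nat_lit 2030) (.e (nat_lit 5818) (nat_lit 320) (.e (nat_lit 1223) (nat_lit 90) (.e (nat_lit 81959) (nat_lit 24) (.e (nat_lit 123195) (nat_lit 266) (.e (nat_lit 57426) (nat_lit 15) .nil))))) .nil)))) (.nd (nat_lit 5) (.nd (nat_lit 6) 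
(.lf (nat_lit 113306) (.g (nat_lit 4957) (.e (nat_lit 5818) (nat_lit 320) (.e (nat_lit 1183) (nat_lit 87) (.e (nat_lit 57480) (nat_lit 28) (.e (nat_lit 557109) (nat_lit 15) (.e (nat_lit 188447) (nat_lit 22) (.e (nat_lit 196668) (nat_lit 14) (.e (nat_lit 73737) (nat_lit 0) .nil))))))) (.g (nat_lit 6) .nil .nil))) 
(.lf (nat_lit 113370) (.g (nat_lit 635) (.e (nat_lit 5818) (nat_lit 320) (.e (nat_lit 1222) (nat_lit 90) (.e (nat_lit 81938) (nat_lit 20) .nil))) .nil))) (.nd (nat_lit 6) 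
(.lf (nat_lit 113338) (.g (nat_lit 1663) (.e (nat_lit 5818) (nat_lit 320) (.e (nat_lit 1201) (nat_lit 88) (.e (nat_lit 65617) (nat_lit 10) (.e (nat_lit 344169) (nat_lit 40) (.e (nat_lit 671746) (nat_lit 0) (.e (nat_lit 1598) (nat_lit 111) (.e (nat_lit 360456) (nat_lit 0) .nil))))))) (.g (nat_lit 4) .nil .nil))) 
(.lf (nat_lit 113402) (.g (nat_lit 1923) (.e (nat_lit 5820) (nat_lit 320) (.e (nat_lit 1201) (nat_lit 88) (.e (nat_lit 65610) (nat_lit 10) (.e (nat_lit 344097) (nat_lit 18) (.e (nat_lit 5906) (nat_lit 320) .nil))))) .nil)))))) (.nd (nat_lit 3) (.nd (nat_lit 4) (.nd (nat_lit 5) (.nd (nat_lit 6) 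
(.lf (nat_lit 113286) (.g (nat_lit 2263) (.e (nat_lit 5817) (nat_lit 320) (.e (nat_lit 1214) (nat_lit 89) (.e (nat_lit 73775) (nat_lit 26) (.e (nat_lit 778362) (nat_lit 9) (.e (nat_lit 304) (nat_lit 22) .nil))))) .nil)) 
(.lf (nat_lit 113350) (.g (nat_lit 1040) (.e (nat_lit 5818) (nat_lit 320) (.e (nat_lit 1201) (nat_lit 88) (.e (nat_lit 65630) (nat_lit 14) (.e (nat_lit 401458) (nat_lit 13) .nil)))) .nil))) (.nd (nat_lit 6) 
(.lf (nat_lit 113318) (.g (nat_lit 952) (.e (nat_lit 5818) (nat_lit 320) (.e (nat_lit 1201) (nat_lit 88) (.e (nat_lit 65586) (nat_lit 7) (.e (nat_lit 319538) (nat_lit 19) .nil)))) .nil)) 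
(.lf (nat_lit 113382) (.g (nat_lit 1195) (.e (nat_lit 5818) (nat_lit 320) (.e (nat_lit 1222) (nat_lit 90) (.e (nat_lit 81959) (nat_lit 24) (.e (nat_lit 123195) (nat_lit 266) .nil)))) .nil)))) (.nd (nat_lit 5) (.nd (nat_lit 6) 
(.lf (nat_lit 113302) (.g (nat_lit 2113) (.e (nat_lit 5818) (nat_lit 320) (.e (nat_lit 1183) (nat_lit 87) (.e (nat_lit 57479) (nat_lit 28) (.e (nat_lit 557100) (nat_lit 13) (.e (nat_lit 172106) (nat_lit 10) .nil))))) .nil)) 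
(.lf (nat_lit 113366) (.g (nat_lit 2257) (.e (nat_lit 5818) (nat_lit 320) (.e (nat_lit 1214) (nat_lit 89) (.e (nat_lit 73781) (nat_lit 32) (.e (nat_lit 3090) (nat_lit 191) (.e (nat_lit 483396) (nat_lit 24) (.e (nat_lit 344104) (nat_lit 18) .nil)))))) (.g (nat_lit 5) .nil .nil)))) (.nd (nat_lit 6) 
(.lf (nat_lit 113334) (.g (nat_lit 1107) (.e (nat_lit 5818) (nat_lit 320) (.e (nat_lit 1201) (nat_lit 88) (.e (nat_lit 65617) (nat_lit 10) (.e (nat_lit 344167) (nat_lit 40) .nil)))) .nil)) 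
(.lf (nat_lit 113398) (.g (nat_lit 501) (.e (nat_lit 5820) (nat_lit 320) (.e (nat_lit 1183) (nat_lit 87) (.e (nat_lit 57712) (nat_lit 176) .nil))) .nil))))) (.nd (nat_lit 4) (.nd (nat_lit 5) (.nd (nat_lit 6) 
(.lf (nat_lit 113294) (.g (nat_lit 684) (.e (nat_lit 5818) (nat_lit 320) (.e (nat_lit 999) (nat_lit 81) (.e (nat_lit 1400) (nat_lit 106) (.e (nat_lit 327424) (nat_lit 16) .nil)))) .nil)) 
(.lf (nat_lit 113358) (.g (nat_lit 963) (.e (nat_lit 5818) (nat_lit 320) (.e (nat_lit 1212) (nat_lit 89) (.e (nat_lit 73782) (nat_lit 32) (.e (nat_lit 2855) (nat_lit 184) (.e (nat_lit 426544) (nat_lit 30) .nil))))) .nil))) (.nd (nat_lit 6) 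
(.lf (nat_lit 113326) (.g (nat_lit 2083) (.e (nat_lit 5818) (nat_lit 320) (.e (nat_lit 1201) (nat_lit 88) (.e (nat_lit 65610) (nat_lit 10) (.e (nat_lit 344168) (nat_lit 40) (.e (nat_lit 671746) (nat_lit 0) (.e (nat_lit 1599) (nat_lit 111) (.e (nat_lit 360456) (nat_lit 0) .nil))))))) (.g (nat_lit 4) .nil .nil))) 
(.lf (nat_lit 113390) (.g (nat_lit 961) (.e (nat_lit 5818) (nat_lit 320) (.e (nat_lit 1224) (nat_lit 90) (.e (nat_lit 81946) (nat_lit 20) (.e (nat_lit 2003) (nat_lit 138) .nil)))) .nil)))) (.nd (nat_lit 5) (.nd (nat_lit 6) 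
(.lf (nat_lit 113310) (.g (nat_lit 2550) (.e (nat_lit 5818) (nat_lit 320) (.e (nat_lit 1183) (nat_lit 87) (.e (nat_lit 57712) (nat_lit 176) (.e (nat_lit 1370) (nat_lit 103) (.e (nat_lit 294941) (nat_lit 9) (.e (nat_lit 336434) (nat_lit 30) (.e (nat_lit 450568) (nat_lit 0) .nil))))))) (.g (nat_lit 6) .nil .nil))) 
(.lf (nat_lit 113374) (.g (nat_lit 1148) (.e (nat_lit 5818) (nat_lit 320) (.e (nat_lit 1222) (nat_lit 90) (.e (nat_lit 81946) (nat_lit 20) (.e (nat_lit 2005) (nat_lit 138) .nil)))) .nil))) (.nd (nat_lit 6) 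
(.lf (nat_lit 113342) (.g (nat_lit 1605) (.e (nat_lit 5818) (nat_lit 320) (.e (nat_lit 1201) (nat_lit 88) (.e (nat_lit 65628) (nat_lit 14) (.e (nat_lit 401436) (nat_lit 9) (.e (nat_lit 426546) (nat_lit 30) (.e (nat_lit 360456) (nat_lit 0) .nil)))))) (.g (nat_lit 4) .nil .nil))) 
(.lf (nat_lit 113406) (.g (nat_lit 1851) (.e (nat_lit 5820) (nat_lit 320) (.e (nat_lit 1201) (nat_lit 88) (.e (nat_lit 65624) (nat_lit 12) (.e (nat_lit 385106) (nat_lit 50) (.e (nat_lit 786481) (nat_lit 30) .nil))))) .nil)))))))) (.nd (nat_lit 1) (.nd (nat_lit 2) (.nd (nat_lit 3) (.nd (nat_lit 4) (.nd (nat_lit 5) (.nd (nat_lit 6) 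
(.lf (nat_lit 113281) (.g (nat_lit 3228) (.e (nat_lit 5817) (nat_lit 320) (.e (nat_lit 1201) (nat_lit 88) (.e (nat_lit 65630) (nat_lit 14) (.e (nat_lit 401459) (nat_lit 13) (.e (nat_lit 483399) (nat_lit 25) .nil))))) .nil)) 
(.lf (nat_lit 113345) (.g (nat_lit 1580) (.e (nat_lit 5818) (nat_lit 320) (.e (nat_lit 1201) (nat_lit 88) (.e (nat_lit 65628) (nat_lit 14) (.e (nat_lit 401458) (nat_lit 13) (.e (nat_lit 483396) (nat_lit 24) .nil))))) .nil))) (.nd (nat_lit 6) 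
(.lf (nat_lit 113313) (.g (nat_lit 1688) (.e (nat_lit 5818) (nat_lit 320) (.e (nat_lit 1193) (nat_lit 88) (.e (nat_lit 65628) (nat_lit 14) (.e (nat_lit 401454) (nat_lit 12) (.e (nat_lit 483072) (nat_lit 13) .nil))))) .nil)) 
(.lf (nat_lit 113377) (.g (nat_lit 913) (.e (nat_lit 5818) (nat_lit 320) (.e (nat_lit 1222) (nat_lit 90) (.e (nat_lit 81948) (nat_lit 21) (.e (nat_lit 57870) (nat_lit 264) .nil)))) .nil)))) (.nd (nat_lit 5) (.nd (nat_lit 6) 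
(.lf (nat_lit 113297) (.g (nat_lit 5866) (.e (nat_lit 5818) (nat_lit 320) (.e (nat_lit 1183) (nat_lit 87) (.e (nat_lit 57478) (nat_lit 28) (.e (nat_lit 557109) (nat_lit 15) (.e (nat_lit 188449) (nat_lit 22) (.e (nat_lit 196669) (nat_lit 14) (.e (nat_lit 73736) (nat_lit 0) .nil))))))) (.g (nat_lit 5) .nil .nil))) 
(.lf (nat_lit 113361) (.g (nat_lit 435) (.e (nat_lit 5818) (nat_lit 320) (.e (nat_lit 1212) (nat_lit 89) (.e (nat_lit 73786) (nat_lit 45) .nil))) .nil))) (.nd (nat_lit 6) 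
(.lf (nat_lit 113329) (.g (nat_lit 1337) (.e (nat_lit 5818) (nat_lit 320) (.e (nat_lit 1201) (nat_lit 88) (.e (nat_lit 65610) (nat_lit 10) (.e (nat_lit 344169) (nat_lit 40) .nil)))) .nil)) 
(.lf (nat_lit 113393) (.g (nat_lit 836) (.e (nat_lit 5818) (nat_lit 320) (.e (nat_lit 1224) (nat_lit 90) (.e (nat_lit 81946) (nat_lit 20) (.e (nat_lit 2006) (nat_lit 138) .nil)))) .nil))))) (.nd (nat_lit 4) (.nd (nat_lit 5) (.nd (nat_lit 6) 
(.lf (nat_lit 113289) (.g (nat_lit 882) (.e (nat_lit 5818) (nat_lit 320) (.e (nat_lit 999) (nat_lit 81) (.e (nat_lit 1239) (nat_lit 91) (.e (nat_lit 98048) (nat_lit 5) .nil)))) .nil)) 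
(.lf (nat_lit 113353) (.g (nat_lit 3421) (.e (nat_lit 5818) (nat_lit 320) (.e (nat_lit 1201) (nat_lit 88) (.e (nat_lit 65630) (nat_lit 14) (.e (nat_lit 401459) (nat_lit 13) (.e (nat_lit 483394) (nat_lit 24) (.e (nat_lit 344104) (nat_lit 18) .nil)))))) (.g (nat_lit 6) .nil .nil)))) (.nd (nat_lit 6) 
(.lf (nat_lit 113321) (.g (nat_lit 2124) (.e (nat_lit 5818) (nat_lit 320) (.e (nat_lit 1201) (nat_lit 88) (.e (nat_lit 65610) (nat_lit 10) (.e (nat_lit 344160) (nat_lit 37) (.e (nat_lit 647181) (nat_lit 3) .nil))))) .nil)) 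
(.lf (nat_lit 113385) (.g (nat_lit 1540) (.e (nat_lit 5818) (nat_lit 320) (.e (nat_lit 1222) (nat_lit 90) (.e (nat_lit 81959) (nat_lit 24) (.e (nat_lit 123198) (nat_lit 266) (.e (nat_lit 57428) (nat_lit 15) .nil))))) .nil)))) (.nd (nat_lit 5) (.nd (nat_lit 6) 
(.lf (nat_lit 113305) (.g (nat_lit 3111) (.e (nat_lit 5818) (nat_lit 320) (.e (nat_lit 1183) (nat_lit 87) (.e (nat_lit 57480) (nat_lit 28) (.e (nat_lit 557108) (nat_lit 15) (.e (nat_lit 188458) (nat_lit 25) .nil))))) .nil)) 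
(.lf (nat_lit 113369) (.g (nat_lit 821) (.e (nat_lit 5818) (nat_lit 320) (.e (nat_lit 1222) (nat_lit 90) (.e (nat_lit 81935) (nat_lit 20) (.e (nat_lit 1994) (nat_lit 137) .nil)))) .nil))) (.nd (nat_lit 6) 
(.lf (nat_lit 113337) (.g (nat_lit 1778) (.e (nat_lit 5818) (nat_lit 320) (.e (nat_lit 1201) (nat_lit 88) (.e (nat_lit 65617) (nat_lit 10) (.e (nat_lit 344169) (nat_lit 40) (.e (nat_lit 671746) (nat_lit 0) (.e (nat_lit 1595) (nat_lit 111) (.e (nat_lit 360457) (nat_lit 0) .nil))))))) (.g (nat_lit 4) .nil .nil))) 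
(.lf (nat_lit 113401) (.g (nat_lit 1085) (.e (nat_lit 5820) (nat_lit 320) (.e (nat_lit 1201) (nat_lit 88) (.e (nat_lit 65578) (nat_lit 6) (.e (nat_lit 147467) (nat_lit 9) .nil)))) .nil)))))) (.nd (nat_lit 3) (.nd (nat_lit 4) (.nd (nat_lit 5) (.nd (nat_lit 6) 
(.lf (nat_lit 113285) (.g (nat_lit 1901) (.e (nat_lit 5817) (nat_lit 320) (.e (nat_lit 1214) (nat_lit 89) (.e (nat_lit 73775) (nat_lit 26) (.e (nat_lit 778361) (nat_lit 9) (.e (nat_lit 304) (nat_lit 22) .nil))))) .nil)) 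
(.lf (nat_lit 113349) (.g (nat_lit 1485) (.e (nat_lit 5818) (nat_lit 320) (.e (nat_lit 1201) (nat_lit 88) (.e (nat_lit 65630) (nat_lit 14) (.e (nat_lit 401457) (nat_lit 13) .nil)))) .nil))) (.nd (nat_lit 6) 
(.lf (nat_lit 113317) (.g (nat_lit 645) (.e (nat_lit 5818) (nat_lit 320) (.e (nat_lit 1201) (nat_lit 88) (.e (nat_lit 65585) (nat_lit 7) .nil))) .nil)) 
(.lf (nat_lit 113381) (.g (nat_lit 2054) (.e (nat_lit 5818) (nat_lit 320) (.e (nat_lit 1222) (nat_lit 90) (.e (nat_lit 81957) (nat_lit 24) (.e (nat_lit 123195) (nat_lit 266) (.e (nat_lit 57428) (nat_lit 15) .nil))))) .nil)))) (.nd (nat_lit 5) (.nd (nat_lit 6) 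
(.lf (nat_lit 113301) (.g (nat_lit 2632) (.e (nat_lit 5818) (nat_lit 320) (.e (nat_lit 1183) (nat_lit 87) (.e (nat_lit 57479) (nat_lit 28) (.e (nat_lit 557095) (nat_lit 13) (.e (nat_lit 172115) (nat_lit 10) (.e (nat_lit 434231) (nat_lit 23) (.e (nat_lit 532544) (nat_lit 10) (.e (nat_lit 344103) (nat_lit 18) .nil)))))))) (.g (nat_lit 4) .nil .nil))) 
(.lf (nat_lit 113365) (.g (nat_lit 1525) (.e (nat_lit 5818) (nat_lit 320) (.e (nat_lit 1214) (nat_lit 89) (.e (nat_lit 73781) (nat_lit 32) (.e (nat_lit 3090) (nat_lit 191) (.e (nat_lit 483396) (nat_lit 24) .nil))))) .nil))) (.nd (nat_lit 6) 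
(.lf (nat_lit 113333) (.g (nat_lit 2318) (.e (nat_lit 5818) (nat_lit 320) (.e (nat_lit 1201) (nat_lit 88) (.e (nat_lit 65617) (nat_lit 10) (.e (nat_lit 344161) (nat_lit 37) (.e (nat_lit 647181) (nat_lit 3) (.e (nat_lit 171776) (nat_lit 192) (.e (nat_lit 73737) (nat_lit 0) .nil))))))) (.g (nat_lit 5) .nil .nil))) 
(.lf (nat_lit 113397) (.g (nat_lit 733) (.e (nat_lit 5819) (nat_lit 320) (.e (nat_lit 1201) (nat_lit 88) (.e (nat_lit 65578) (nat_lit 6) .nil))) .nil))))) (.nd (nat_lit 4) (.nd (nat_lit 5) (.nd (nat_lit 6) 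
(.lf (nat_lit 113293) (.g (nat_lit 2936) (.e (nat_lit 5818) (nat_lit 320) (.e (nat_lit 999) (nat_lit 81) (.e (nat_lit 1400) (nat_lit 106) (.e (nat_lit 319533) (nat_lit 16) (.e (nat_lit 286761) (nat_lit 13) (.e (nat_lit 393264) (nat_lit 22) (.e (nat_lit 417792) (nat_lit 0) (.e (nat_lit 67) (nat_lit 0) .nil)))))))) (.g (nat_lit 5) .nil .nil))) 
(.lf (nat_lit 113357) (.g (nat_lit 863) (.e (nat_lit 5818) (nat_lit 320) (.e (nat_lit 1212) (nat_lit 89) (.e (nat_lit 73782) (nat_lit 32) (.e (nat_lit 2854) (nat_lit 184) (.e (nat_lit 426544) (nat_lit 30) .nil))))) .nil))) (.nd (nat_lit 6) 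
(.lf (nat_lit 113325) (.g (nat_lit 2039) (.e (nat_lit 5818) (nat_lit 320) (.e (nat_lit 1201) (nat_lit 88) (.e (nat_lit 65610) (nat_lit 10) (.e (nat_lit 344168) (nat_lit 40) (.e (nat_lit 671746) (nat_lit 0) (.e (nat_lit 1598) (nat_lit 111) (.e (nat_lit 360456) (nat_lit 0) .nil))))))) (.g (nat_lit 4) .nil .nil))) 
(.lf (nat_lit 113389) (.g (nat_lit 249) (.e (nat_lit 5818) (nat_lit 320) (.e (nat_lit 1224) (nat_lit 90) (.e (nat_lit 89856) (nat_lit 8) .nil))) .nil)))) (.nd (nat_lit 5) (.nd (nat_lit 6) 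
(.lf (nat_lit 113309) (.g (nat_lit 465) (.e (nat_lit 5818) (nat_lit 320) (.e (nat_lit 1183) (nat_lit 87) (.e (nat_lit 57712) (nat_lit 176) .nil))) .nil)) 
(.lf (nat_lit 113373) (.g (nat_lit 909) (.e (nat_lit 5818) (nat_lit 320) (.e (nat_lit 1222) (nat_lit 90) (.e (nat_lit 81943) (nat_lit 20) (.e (nat_lit 2006) (nat_lit 138) .nil)))) .nil))) (.nd (nat_lit 6) 
(.lf (nat_lit 113341) (.g (nat_lit 1351) (.e (nat_lit 5818) (nat_lit 320) (.e (nat_lit 1201) (nat_lit 88) (.e (nat_lit 65628) (nat_lit 14) (.e (nat_lit 401436) (nat_lit 9) (.e (nat_lit 426544) (nat_lit 30) .nil))))) .nil)) 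
(.lf (nat_lit 113405) (.g (nat_lit 1959) (.e (nat_lit 5820) (nat_lit 320) (.e (nat_lit 1201) (nat_lit 88) (.e (nat_lit 65624) (nat_lit 12) (.e (nat_lit 385105) (nat_lit 50) (.e (nat_lit 786481) (nat_lit 30) .nil))))) .nil))))))) (.nd (nat_lit 2) (.nd (nat_lit 3) (.nd (nat_lit 4) (.nd (nat_lit 5) (.nd (nat_lit 6) 
(.lf (nat_lit 113283) (.g (nat_lit 1687) (.e (nat_lit 5817) (nat_lit 320) (.e (nat_lit 1212) (nat_lit 89) (.e (nat_lit 73733) (nat_lit 0) (.e (nat_lit 7272) (nat_lit 385) (.e (nat_lit 122913) (nat_lit 13) .nil))))) .nil)) 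
(.lf (nat_lit 113347) (.g (nat_lit 2803) (.e (nat_lit 5818) (nat_lit 320) (.e (nat_lit 1201) (nat_lit 88) (.e (nat_lit 65630) (nat_lit 14) (.e (nat_lit 401454) (nat_lit 12) (.e (nat_lit 483072) (nat_lit 13) (.e (nat_lit 73736) (nat_lit 0) .nil)))))) (.g (nat_lit 4) .nil .nil)))) (.nd (nat_lit 6) 
(.lf (nat_lit 113315) (.g (nat_lit 2032) (.e (nat_lit 5818) (nat_lit 320) (.e (nat_lit 1201) (nat_lit 88) (.e (nat_lit 65583) (nat_lit 7) (.e (nat_lit 319530) (nat_lit 16) (.e (nat_lit 286763) (nat_lit 15) (.e (nat_lit 7936) (nat_lit 407) (.e (nat_lit 73736) (nat_lit 0) .nil))))))) (.g (nat_lit 5) .nil .nil))) 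
(.lf (nat_lit 113379) (.g (nat_lit 1580) (.e (nat_lit 5818) (nat_lit 320) (.e (nat_lit 1222) (nat_lit 90) (.e (nat_lit 81948) (nat_lit 21) (.e (nat_lit 57873) (nat_lit 264) (.e (nat_lit 993) (nat_lit 81) .nil))))) .nil)))) (.nd (nat_lit 5) (.nd (nat_lit 6) 
(.lf (nat_lit 113299) (.g (nat_lit 2472) (.e (nat_lit 5818) (nat_lit 320) (.e (nat_lit 1183) (nat_lit 87) (.e (nat_lit 57479) (nat_lit 28) (.e (nat_lit 557095) (nat_lit 13) (.e (nat_lit 172115) (nat_lit 10) (.e (nat_lit 434231) (nat_lit 23) (.e (nat_lit 532543) (nat_lit 10) (.e (nat_lit 344103) (nat_lit 18) .nil)))))))) (.g (nat_lit 4) .nil .nil))) 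
(.lf (nat_lit 113363) (.g (nat_lit 374) (.e (nat_lit 5818) (nat_lit 320) (.e (nat_lit 1214) (nat_lit 89) (.e (nat_lit 73779) (nat_lit 32) .nil))) .nil))) (.nd (nat_lit 6) 
(.lf (nat_lit 113331) (.g (nat_lit 2056) (.e (nat_lit 5818) (nat_lit 320) (.e (nat_lit 1201) (nat_lit 88) (.e (nat_lit 65610) (nat_lit 10) (.e (nat_lit 344169) (nat_lit 40) (.e (nat_lit 671747) (nat_lit 0) .nil))))) .nil)) 
(.lf (nat_lit 113395) (.g (nat_lit 1880) (.e (nat_lit 5818) (nat_lit 320) (.e (nat_lit 1224) (nat_lit 90) (.e (nat_lit 81959) (nat_lit 24) (.e (nat_lit 123195) (nat_lit 266) (.e (nat_lit 57426) (nat_lit 15) .nil))))) .nil))))) (.nd (nat_lit 4) (.nd (nat_lit 5) (.nd (nat_lit 6) 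
(.lf (nat_lit 113291) (.g (nat_lit 185) (.e (nat_lit 5818) (nat_lit 320) (.e (nat_lit 999) (nat_lit 81) (.e (nat_lit 1400) (nat_lit 106) .nil))) .nil)) 
(.lf (nat_lit 113355) (.g (nat_lit 254) (.e (nat_lit 5818) (nat_lit 320) (.e (nat_lit 1212) (nat_lit 89) (.e (nat_lit 73780) (nat_lit 32) .nil))) .nil))) (.nd (nat_lit 6) 
(.lf (nat_lit 113323) (.g (nat_lit 1330) (.e (nat_lit 5818) (nat_lit 320) (.e (nat_lit 1201) (nat_lit 88) (.e (nat_lit 65610) (nat_lit 10) (.e (nat_lit 344168) (nat_lit 40) .nil)))) .nil)) 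
(.lf (nat_lit 113387) (.g (nat_lit 2514) (.e (nat_lit 5818) (nat_lit 320) (.e (nat_lit 1223) (nat_lit 90) (.e (nat_lit 81959) (nat_lit 24) (.e (nat_lit 123195) (nat_lit 266) (.e (nat_lit 57428) (nat_lit 15) .nil))))) .nil)))) (.nd (nat_lit 5) (.nd (nat_lit 6) 
(.lf (nat_lit 113307) (.g (nat_lit 4389) (.e (nat_lit 5818) (nat_lit 320) (.e (nat_lit 1183) (nat_lit 87) (.e (nat_lit 57480) (nat_lit 28) (.e (nat_lit 557109) (nat_lit 15) (.e (nat_lit 188452) (nat_lit 23) (.e (nat_lit 204863) (nat_lit 27) (.e (nat_lit 344103) (nat_lit 18) .nil))))))) (.g (nat_lit 6) .nil .nil))) 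
(.lf (nat_lit 113371) (.g (nat_lit 635) (.e (nat_lit 5818) (nat_lit 320) (.e (nat_lit 1222) (nat_lit 90) (.e (nat_lit 81939) (nat_lit 20) .nil))) .nil))) (.nd (nat_lit 6) 
(.lf (nat_lit 113339) (.g (nat_lit 1707) (.e (nat_lit 5818) (nat_lit 320) (.e (nat_lit 1201) (nat_lit 88) (.e (nat_lit 65617) (nat_lit 10) (.e (nat_lit 344169) (nat_lit 40) (.e (nat_lit 671746) (nat_lit 0) (.e (nat_lit 1599) (nat_lit 111) (.e (nat_lit 360456) (nat_lit 0) .nil))))))) (.g (nat_lit 4) .nil .nil))) 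
(.lf (nat_lit 113403) (.g (nat_lit 2526) (.e (nat_lit 5820) (nat_lit 320) (.e (nat_lit 1201) (nat_lit 88) (.e (nat_lit 65610) (nat_lit 10) (.e (nat_lit 344097) (nat_lit 18) (.e (nat_lit 5907) (nat_lit 320) (.e (nat_lit 1221) (nat_lit 90) (.e (nat_lit 81930) (nat_lit 20) (.e (nat_lit 1053) (nat_lit 81) .nil)))))))) (.g (nat_lit 5) .nil .nil))))))) 
(.nd (nat_lit 3) (.nd (nat_lit 4) (.nd (nat_lit 5) (.nd (nat_lit 6) 
(.lf (nat_lit 113287) (.g (nat_lit 876) (.e (nat_lit 5817) (nat_lit 320) (.e (nat_lit 1296) (nat_lit 96) (.e (nat_lit 131086) (nat_lit 1) .nil))) .nil)) 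
(.lf (nat_lit 113351) (.g (nat_lit 1753) (.e (nat_lit 5818) (nat_lit 320) (.e (nat_lit 1201) (nat_lit 88) (.e (nat_lit 65630) (nat_lit 14) (.e (nat_lit 401458) (nat_lit 13) (.e (nat_lit 483395) (nat_lit 24) .nil))))) .nil))) (.nd (nat_lit 6) 
(.lf (nat_lit 113319) (.g (nat_lit 1115) (.e (nat_lit 5818) (nat_lit 320) (.e (nat_lit 1201) (nat_lit 88) (.e (nat_lit 65610) (nat_lit 10) (.e (nat_lit 344097) (nat_lit 18) .nil)))) .nil)) 
(.lf (nat_lit 113383) (.g (nat_lit 996) (.e (nat_lit 5818) (nat_lit 320) (.e (nat_lit 1222) (nat_lit 90) (.e (nat_lit 81959) (nat_lit 24) (.e (nat_lit 123197) (nat_lit 266) .nil)))) .nil)))) (.nd (nat_lit 5) (.nd (nat_lit 6) 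
(.lf (nat_lit 113303) (.g (nat_lit 1860) (.e (nat_lit 5818) (nat_lit 320) (.e (nat_lit 1183) (nat_lit 87) (.e (nat_lit 57479) (nat_lit 28) (.e (nat_lit 557101) (nat_lit 13) (.e (nat_lit 172115) (nat_lit 10) .nil))))) .nil)) 
(.lf (nat_lit 113367) (.g (nat_lit 437) (.e (nat_lit 5818) (nat_lit 320) (.e (nat_lit 1214) (nat_lit 89) (.e (nat_lit 73791) (nat_lit 45) .nil))) .nil))) (.nd (nat_lit 6) 
(.lf (nat_lit 113335) (.g (nat_lit 1644) (.e (nat_lit 5818) (nat_lit 320) (.e (nat_lit 1201) (nat_lit 88) (.e (nat_lit 65617) (nat_lit 10) (.e (nat_lit 344168) (nat_lit 40) (.e (nat_lit 671746) (nat_lit 0) .nil))))) .nil)) 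
(.lf (nat_lit 113399) (.g (nat_lit 1202) (.e (nat_lit 5820) (nat_lit 320) (.e (nat_lit 1201) (nat_lit 88) (.e (nat_lit 65539) (nat_lit 0) (.e (nat_lit 2375) (nat_lit 154) .nil)))) .nil))))) (.nd (nat_lit 4) (.nd (nat_lit 5) (.nd (nat_lit 6) 
(.lf (nat_lit 113295) (.g (nat_lit 1340) (.e (nat_lit 5818) (nat_lit 320) (.e (nat_lit 999) (nat_lit 81) (.e (nat_lit 1400) (nat_lit 106) (.e (nat_lit 327424) (nat_lit 16) (.e (nat_lit 286761) (nat_lit 13) (.e (nat_lit 393265) (nat_lit 22) (.e (nat_lit 417792) (nat_lit 0) (.e (nat_lit 67) (nat_lit 0) .nil)))))))) (.g (nat_lit 5) .nil .nil))) 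
(.lf (nat_lit 113359) (.g (nat_lit 1001) (.e (nat_lit 5818) (nat_lit 320) (.e (nat_lit 1212) (nat_lit 89) (.e (nat_lit 73782) (nat_lit 32) (.e (nat_lit 3067) (nat_lit 190) .nil)))) .nil))) (.nd (nat_lit 6) 
(.lf (nat_lit 113327) (.g (nat_lit 1967) (.e (nat_lit 5818) (nat_lit 320) (.e (nat_lit 1201) (nat_lit 88) (.e (nat_lit 65610) (nat_lit 10) (.e (nat_lit 344168) (nat_lit 40) (.e (nat_lit 671748) (nat_lit 0) .nil))))) .nil)) 
(.lf (nat_lit 113391) (.g (nat_lit 965) (.e (nat_lit 5818) (nat_lit 320) (.e (nat_lit 1224) (nat_lit 90) (.e (nat_lit 81946) (nat_lit 20) (.e (nat_lit 2004) (nat_lit 138) .nil)))) .nil)))) (.nd (nat_lit 5) (.nd (nat_lit 6) 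
(.lf (nat_lit 113311) (.g (nat_lit 1124) (.e (nat_lit 5818) (nat_lit 320) (.e (nat_lit 1193) (nat_lit 88) (.e (nat_lit 65586) (nat_lit 7) (.e (nat_lit 319539) (nat_lit 19) (.e (nat_lit 319232) (nat_lit 30) .nil))))) .nil)) 
(.lf (nat_lit 113375) (.g (nat_lit 1159) (.e (nat_lit 5818) (nat_lit 320) (.e (nat_lit 1222) (nat_lit 90) (.e (nat_lit 81946) (nat_lit 20) (.e (nat_lit 2006) (nat_lit 138) .nil)))) .nil))) (.nd (nat_lit 6) 
(.lf (nat_lit 113343) (.g (nat_lit 2075) (.e (nat_lit 5818) (nat_lit 320) (.e (nat_lit 1201) (nat_lit 88) (.e (nat_lit 65628) (nat_lit 14) (.e (nat_lit 401454) (nat_lit 12) (.e (nat_lit 483072) (nat_lit 13) (.e (nat_lit 73736) (nat_lit 0) .nil)))))) (.g (nat_lit 4) .nil .nil))) 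
(.lf (nat_lit 113407) (.g (nat_lit 4124) (.e (nat_lit 5820) (nat_lit 320) (.e (nat_lit 1201) (nat_lit 88) (.e (nat_lit 65630) (nat_lit 14) (.e (nat_lit 401459) (nat_lit 13) (.e (nat_lit 483372) (nat_lit 21) (.e (nat_lit 327424) (nat_lit 0) (.e (nat_lit 26) (nat_lit 0) .nil))))))) (.g (nat_lit 5) .nil .nil))))))))))

noncomputable def tv1529 : DT := (.nd (nat_lit 0) (.nd (nat_lit 1) (.nd (nat_lit 2) (.nd (nat_lit 3) (.nd (nat_lit 4) (.nd (nat_lit 5) (.nd (nat_lit 6) 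
(.lf (nat_lit 113408) (.g (nat_lit 589) (.e (nat_lit 5820) (nat_lit 320) (.e (nat_lit 1214) (nat_lit 89) (.e (nat_lit 73773) (nat_lit 25) .nil))) .nil)) 
(.lf (nat_lit 113472) (.g (nat_lit 2040) (.e (nat_lit 5896) (nat_lit 320) (.e (nat_lit 1181) (nat_lit 87) (.e (nat_lit 57478) (nat_lit 28) (.e (nat_lit 557098) (nat_lit 13) (.e (nat_lit 172097) (nat_lit 9) .nil))))) .nil))) (.nd (nat_lit 6) 
(.lf (nat_lit 113440) (.g (nat_lit 1941) (.e (nat_lit 5861) (nat_lit 320) (.e (nat_lit 1196) (nat_lit 88) (.e (nat_lit 65628) (nat_lit 14) (.e (nat_lit 401458) (nat_lit 13) (.e (nat_lit 483396) (nat_lit 24) .nil))))) .nil)) 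
(.lf (nat_lit 113504) (.g (nat_lit 2333) (.e (nat_lit 5896) (nat_lit 320) (.e (nat_lit 1200) (nat_lit 88) (.e (nat_lit 65630) (nat_lit 14) (.e (nat_lit 401458) (nat_lit 13) (.e (nat_lit 483383) (nat_lit 23) (.e (nat_lit 335878) (nat_lit 0) (.e (nat_lit 996) (nat_lit 81) .nil))))))) (.g (nat_lit 5) .nil .nil))))) (.nd (nat_lit 5) (.nd (nat_lit 6) 
(.lf (nat_lit 113424) (.g (nat_lit 1956) (.e (nat_lit 5831) (nat_lit 320) (.e (nat_lit 1194) (nat_lit 88) (.e (nat_lit 65628) (nat_lit 14) (.e (nat_lit 401437) (nat_lit 9) (.e (nat_lit 426544) (nat_lit 30) .nil))))) .nil)) 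
(.lf (nat_lit 113488) (.g (nat_lit 1564) (.e (nat_lit 5896) (nat_lit 320) (.e (nat_lit 1199) (nat_lit 88) (.e (nat_lit 65630) (nat_lit 14) (.e (nat_lit 401457) (nat_lit 13) (.e (nat_lit 483383) (nat_lit 23) .nil))))) .nil))) (.nd (nat_lit 6) 
(.lf (nat_lit 113456) (.g (nat_lit 1206) (.e (nat_lit 5862) (nat_lit 320) (.e (nat_lit 1200) (nat_lit 88) (.e (nat_lit 65628) (nat_lit 14) (.e (nat_lit 401438) (nat_lit 9) .nil)))) .nil)) 
(.lf (nat_lit 113520) (.g (nat_lit 2767) (.e (nat_lit 5902) (nat_lit 320) (.e (nat_lit 1182) (nat_lit 87) (.e (nat_lit 57479) (nat_lit 28) (.e (nat_lit 557095) (nat_lit 13) (.e (nat_lit 172115) (nat_lit 10) .nil))))) .nil))))) (.nd (nat_lit 4) (.nd (nat_lit 5) (.nd (nat_lit 6) 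
(.lf (nat_lit 113416) (.g (nat_lit 1499) (.e (nat_lit 5823) (nat_lit 320) (.e (nat_lit 1201) (nat_lit 88) (.e (nat_lit 65610) (nat_lit 10) (.e (nat_lit 344169) (nat_lit 40) .nil)))) .nil)) 
(.lf (nat_lit 113480) (.g (nat_lit 1468) (.e (nat_lit 5896) (nat_lit 320) (.e (nat_lit 1188) (nat_lit 88) (.e (nat_lit 65630) (nat_lit 14) (.e (nat_lit 401459) (nat_lit 13) (.e (nat_lit 483395) (nat_lit 24) .nil))))) .nil))) (.nd (nat_lit 6) 
(.lf (nat_lit 113448) (.g (nat_lit 1493) (.e (nat_lit 5861) (nat_lit 320) (.e (nat_lit 1220) (nat_lit 90) (.e (nat_lit 81950) (nat_lit 21) (.e (nat_lit 57873) (nat_lit 264) .nil)))) .nil)) 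
(.lf (nat_lit 113512) (.g (nat_lit 1864) (.e (nat_lit 5900) (nat_lit 320) (.e (nat_lit 1196) (nat_lit 88) (.e (nat_lit 65628) (nat_lit 14) (.e (nat_lit 401459) (nat_lit 13) (.e (nat_lit 483395) (nat_lit 24) .nil))))) .nil)))) (.nd (nat_lit 5) (.nd (nat_lit 6) 
(.lf (nat_lit 113432) (.g (nat_lit 1708) (.e (nat_lit 5857) (nat_lit 320) (.e (nat_lit 1201) (nat_lit 88) (.e (nat_lit 65610) (nat_lit 10) (.e (nat_lit 344097) (nat_lit 18) .nil)))) .nil)) 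
(.lf (nat_lit 113496) (.g (nat_lit 1737) (.e (nat_lit 5896) (nat_lit 320) (.e (nat_lit 1200) (nat_lit 88) (.e (nat_lit 65628) (nat_lit 14) (.e (nat_lit 401457) (nat_lit 13) (.e (nat_lit 483395) (nat_lit 24) .nil))))) .nil))) (.nd (nat_lit 6) 
(.lf (nat_lit 113464) (.g (nat_lit 921) (.e (nat_lit 5872) (nat_lit 320) (.e (nat_lit 1179) (nat_lit 87) (.e (nat_lit 57478) (nat_lit 28) (.e (nat_lit 557107) (nat_lit 15) .nil)))) .nil)) 
(.lf (nat_lit 113528) (.g (nat_lit 2278) (.e (nat_lit 5902) (nat_lit 320) (.e (nat_lit 1189) (nat_lit 88) (.e (nat_lit 65622) (nat_lit 12) (.e (nat_lit 385105) (nat_lit 50) (.e (nat_lit 786483) (nat_lit 30) (.e (nat_lit 368384) (nat_lit 0) .nil)))))) (.g (nat_lit 5) .nil .nil))))))) (.nd (nat_lit 3) (.nd (nat_lit 4) (.nd (nat_lit 5) (.nd (nat_lit 6) 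
(.lf (nat_lit 113412) (.g (nat_lit 876) (.e (nat_lit 5821) (nat_lit 320) (.e (nat_lit 1296) (nat_lit 96) (.e (nat_lit 131086) (nat_lit 1) .nil))) .nil)) 
(.lf (nat_lit 113476) (.g (nat_lit 4560) (.e (nat_lit 5896) (nat_lit 320) (.e (nat_lit 1182) (nat_lit 87) (.e (nat_lit 57478) (nat_lit 28) (.e (nat_lit 557109) (nat_lit 15) (.e (nat_lit 188452) (nat_lit 23) (.e (nat_lit 204863) (nat_lit 27) (.e (nat_lit 344096) (nat_lit 18) .nil))))))) (.g (nat_lit 7) .nil .nil)))) (.nd (nat_lit 6) 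
(.lf (nat_lit 113444) (.g (nat_lit 1474) (.e (nat_lit 5861) (nat_lit 320) (.e (nat_lit 1220) (nat_lit 90) (.e (nat_lit 81938) (nat_lit 20) (.e (nat_lit 2005) (nat_lit 138) .nil)))) .nil)) 
(.lf (nat_lit 113508) (.g (nat_lit 1707) (.e (nat_lit 5897) (nat_lit 320) (.e (nat_lit 1221) (nat_lit 90) (.e (nat_lit 81959) (nat_lit 24) (.e (nat_lit 123195) (nat_lit 266) .nil)))) .nil)))) (.nd (nat_lit 5) (.nd (nat_lit 6) 
(.lf (nat_lit 113428) (.g (nat_lit 2384) (.e (nat_lit 5840) (nat_lit 320) (.e (nat_lit 2605) (nat_lit 163) (.e (nat_lit 164022) (nat_lit 46) (.e (nat_lit 704738) (nat_lit 11) (.e (nat_lit 16425) (nat_lit 7) .nil))))) .nil)) 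
(.lf (nat_lit 113492) (.g (nat_lit 1573) (.e (nat_lit 5896) (nat_lit 320) (.e (nat_lit 1199) (nat_lit 88) (.e (nat_lit 65630) (nat_lit 14) (.e (nat_lit 401459) (nat_lit 13) (.e (nat_lit 483395) (nat_lit 24) .nil))))) .nil))) (.nd (nat_lit 6) 
(.lf (nat_lit 113460) (.g (nat_lit 1685) (.e (nat_lit 5862) (nat_lit 320) (.e (nat_lit 1200) (nat_lit 88) (.e (nat_lit 65630) (nat_lit 14) (.e (nat_lit 401458) (nat_lit 13) (.e (nat_lit 483395) (nat_lit 24) .nil))))) .nil)) 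
(.lf (nat_lit 113524) (.g (nat_lit 2510) (.e (nat_lit 5902) (nat_lit 320) (.e (nat_lit 1188) (nat_lit 88) (.e (nat_lit 65630) (nat_lit 14) (.e (nat_lit 401459) (nat_lit 13) (.e (nat_lit 483374) (nat_lit 22) .nil))))) .nil))))) (.nd (nat_lit 4) (.nd (nat_lit 5) (.nd (nat_lit 6) 
(.lf (nat_lit 113420) (.g (nat_lit 1080) (.e (nat_lit 5831) (nat_lit 320) (.e (nat_lit 1194) (nat_lit 88) (.e (nat_lit 65622) (nat_lit 12) (.e (nat_lit 385106) (nat_lit 50) (.e (nat_lit 786481) (nat_lit 30) .nil))))) .nil)) 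
(.lf (nat_lit 113484) (.g (nat_lit 1457) (.e (nat_lit 5896) (nat_lit 320) (.e (nat_lit 1196) (nat_lit 88) (.e (nat_lit 65623) (nat_lit 12) (.e (nat_lit 385106) (nat_lit 50) (.e (nat_lit 786481) (nat_lit 30) .nil))))) .nil))) (.nd (nat_lit 6) 
(.lf (nat_lit 113452) (.g (nat_lit 1732) (.e (nat_lit 5861) (nat_lit 320) (.e (nat_lit 1220) (nat_lit 90) (.e (nat_lit 81959) (nat_lit 24) (.e (nat_lit 123198) (nat_lit 266) .nil)))) .nil)) 
(.lf (nat_lit 113516) (.g (nat_lit 1664) (.e (nat_lit 5900) (nat_lit 320) (.e (nat_lit 1220) (nat_lit 90) (.e (nat_lit 81950) (nat_lit 21) (.e (nat_lit 57873) (nat_lit 264) .nil)))) .nil)))) (.nd (nat_lit 5) (.nd (nat_lit 6) 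
(.lf (nat_lit 113436) (.g (nat_lit 2230) (.e (nat_lit 5859) (nat_lit 320) (.e (nat_lit 1196) (nat_lit 88) (.e (nat_lit 65628) (nat_lit 14) (.e (nat_lit 401437) (nat_lit 9) (.e (nat_lit 426546) (nat_lit 30) .nil))))) .nil)) 
(.lf (nat_lit 113500) (.g (nat_lit 1855) (.e (nat_lit 5896) (nat_lit 320) (.e (nat_lit 1200) (nat_lit 88) (.e (nat_lit 65628) (nat_lit 14) (.e (nat_lit 401458) (nat_lit 13) (.e (nat_lit 483395) (nat_lit 24) .nil))))) .nil))) (.nd (nat_lit 6) 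
(.lf (nat_lit 113468) (.g (nat_lit 3742) (.e (nat_lit 5873) (nat_lit 320) (.e (nat_lit 1179) (nat_lit 87) (.e (nat_lit 57480) (nat_lit 28) (.e (nat_lit 557108) (nat_lit 15) (.e (nat_lit 188452) (nat_lit 23) (.e (nat_lit 204873) (nat_lit 30) (.e (nat_lit 368660) (nat_lit 18) .nil))))))) (.g (nat_lit 6) .nil .nil))) 
(.lf (nat_lit 113532) (.g (nat_lit 2607) (.e (nat_lit 5902) (nat_lit 320) (.e (nat_lit 1189) (nat_lit 88) (.e (nat_lit 65628) (nat_lit 14) (.e (nat_lit 401437) (nat_lit 9) (.e (nat_lit 426544) (nat_lit 30) (.e (nat_lit 368384) (nat_lit 0) .nil)))))) (.g (nat_lit 5) .nil .nil)))))))) (.nd (nat_lit 2) (.nd (nat_lit 3) (.nd (nat_lit 4) (.nd (nat_lit 5) (.nd (nat_lit 6) 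
(.lf (nat_lit 113410) (.g (nat_lit 733) (.e (nat_lit 5821) (nat_lit 320) (.e (nat_lit 1201) (nat_lit 88) (.e (nat_lit 65578) (nat_lit 6) .nil))) .nil)) 
(.lf (nat_lit 113474) (.g (nat_lit 2500) (.e (nat_lit 5896) (nat_lit 320) (.e (nat_lit 1181) (nat_lit 87) (.e (nat_lit 57480) (nat_lit 28) (.e (nat_lit 557107) (nat_lit 15) (.e (nat_lit 188450) (nat_lit 23) .nil))))) .nil))) (.nd (nat_lit 6) 
(.lf (nat_lit 113442) (.g (nat_lit 2709) (.e (nat_lit 5861) (nat_lit 320) (.e (nat_lit 1196) (nat_lit 88) (.e (nat_lit 65630) (nat_lit 14) (.e (nat_lit 401459) (nat_lit 13) (.e (nat_lit 483396) (nat_lit 24) .nil))))) .nil)) 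
(.lf (nat_lit 113506) (.g (nat_lit 2111) (.e (nat_lit 5896) (nat_lit 320) (.e (nat_lit 1200) (nat_lit 88) (.e (nat_lit 65630) (nat_lit 14) (.e (nat_lit 401459) (nat_lit 13) (.e (nat_lit 483395) (nat_lit 24) .nil))))) .nil)))) (.nd (nat_lit 5) (.nd (nat_lit 6) 
(.lf (nat_lit 113426) (.g (nat_lit 538) (.e (nat_lit 5831) (nat_lit 320) (.e (nat_lit 1208) (nat_lit 89) (.e (nat_lit 73781) (nat_lit 32) (.e (nat_lit 2857) (nat_lit 184) .nil)))) .nil)) 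
(.lf (nat_lit 113490) (.g (nat_lit 2040) (.e (nat_lit 5896) (nat_lit 320) (.e (nat_lit 1199) (nat_lit 88) (.e (nat_lit 65630) (nat_lit 14) (.e (nat_lit 401458) (nat_lit 13) (.e (nat_lit 483383) (nat_lit 23) (.e (nat_lit 335878) (nat_lit 0) (.e (nat_lit 999) (nat_lit 81) .nil))))))) (.g (nat_lit 4) .nil .nil)))) (.nd (nat_lit 6) 
(.lf (nat_lit 113458) (.g (nat_lit 1963) (.e (nat_lit 5862) (nat_lit 320) (.e (nat_lit 1200) (nat_lit 88) (.e (nat_lit 65628) (nat_lit 14) (.e (nat_lit 401458) (nat_lit 13) (.e (nat_lit 483396) (nat_lit 24) .nil))))) .nil)) 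
(.lf (nat_lit 113522) (.g (nat_lit 2327) (.e (nat_lit 5902) (nat_lit 320) (.e (nat_lit 1188) (nat_lit 88) (.e (nat_lit 65630) (nat_lit 14) (.e (nat_lit 401437) (nat_lit 9) (.e (nat_lit 426546) (nat_lit 30) (.e (nat_lit 368384) (nat_lit 0) .nil)))))) (.g (nat_lit 5) .nil .nil)))))) (.nd (nat_lit 4) (.nd (nat_lit 5) (.nd (nat_lit 6) 
(.lf (nat_lit 113418) (.g (nat_lit 876) (.e (nat_lit 5823) (nat_lit 320) (.e (nat_lit 1296) (nat_lit 96) (.e (nat_lit 131088) (nat_lit 1) .nil))) .nil)) 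
(.lf (nat_lit 113482) (.g (nat_lit 1557) (.e (nat_lit 5896) (nat_lit 320) (.e (nat_lit 1190) (nat_lit 88) (.e (nat_lit 65628) (nat_lit 14) (.e (nat_lit 401459) (nat_lit 13) (.e (nat_lit 483395) (nat_lit 24) .nil))))) .nil))) (.nd (nat_lit 6) 
(.lf (nat_lit 113450) (.g (nat_lit 2866) (.e (nat_lit 5861) (nat_lit 320) (.e (nat_lit 1220) (nat_lit 90) (.e (nat_lit 81959) (nat_lit 24) (.e (nat_lit 123182) (nat_lit 264) (.e (nat_lit 1201) (nat_lit 88) .nil))))) .nil)) 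
(.lf (nat_lit 113514) (.g (nat_lit 2757) (.e (nat_lit 5900) (nat_lit 320) (.e (nat_lit 1200) (nat_lit 88) (.e (nat_lit 65628) (nat_lit 14) (.e (nat_lit 401459) (nat_lit 13) (.e (nat_lit 483396) (nat_lit 24) .nil))))) .nil)))) (.nd (nat_lit 5) (.nd (nat_lit 6) 
(.lf (nat_lit 113434) (.g (nat_lit 639) (.e (nat_lit 5858) (nat_lit 320) (.e (nat_lit 1201) (nat_lit 88) (.e (nat_lit 65628) (nat_lit 14) .nil))) .nil)) 
(.lf (nat_lit 113498) (.g (nat_lit 2750) (.e (nat_lit 5896) (nat_lit 320) (.e (nat_lit 1200) (nat_lit 88) (.e (nat_lit 65628) (nat_lit 14) (.e (nat_lit 401458) (nat_lit 13) (.e (nat_lit 483383) (nat_lit 23) (.e (nat_lit 335878) (nat_lit 0) (.e (nat_lit 996) (nat_lit 81) .nil))))))) (.g (nat_lit 5) .nil .nil)))) (.nd (nat_lit 6) 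
(.lf (nat_lit 113466) (.g (nat_lit 1203) (.e (nat_lit 5872) (nat_lit 320) (.e (nat_lit 1197) (nat_lit 88) (.e (nat_lit 65624) (nat_lit 12) (.e (nat_lit 385102) (nat_lit 50) .nil)))) .nil)) 
(.lf (nat_lit 113530) (.g (nat_lit 2300) (.e (nat_lit 5902) (nat_lit 320) (.e (nat_lit 1189) (nat_lit 88) (.e (nat_lit 65622) (nat_lit 12) (.e (nat_lit 385106) (nat_lit 50) (.e (nat_lit 786483) (nat_lit 30) (.e (nat_lit 368384) (nat_lit 0) .nil)))))) (.g (nat_lit 5) .nil .nil))))))) (.nd (nat_lit 3) (.nd (nat_lit 4) (.nd (nat_lit 5) (.nd (nat_lit 6) 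
(.lf (nat_lit 113414) (.g (nat_lit 541) (.e (nat_lit 5823) (nat_lit 320) (.e (nat_lit 1201) (nat_lit 88) (.e (nat_lit 65610) (nat_lit 10) .nil))) .nil)) 
(.lf (nat_lit 113478) (.g (nat_lit 3002) (.e (nat_lit 5896) (nat_lit 320) (.e (nat_lit 1182) (nat_lit 87) (.e (nat_lit 57479) (nat_lit 28) (.e (nat_lit 557095) (nat_lit 13) (.e (nat_lit 172115) (nat_lit 10) (.e (nat_lit 434231) (nat_lit 23) (.e (nat_lit 532535) (nat_lit 9) (.e (nat_lit 335925) (nat_lit 0) (.e (nat_lit 993) (nat_lit 81) .nil))))))))) (.g (nat_lit 4) .nil .nil)))) (.nd (nat_lit 6) 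
(.lf (nat_lit 113446) (.g (nat_lit 1834) (.e (nat_lit 5861) (nat_lit 320) (.e (nat_lit 1220) (nat_lit 90) (.e (nat_lit 81950) (nat_lit 21) (.e (nat_lit 57870) (nat_lit 264) .nil)))) .nil)) 
(.lf (nat_lit 113510) (.g (nat_lit 1251) (.e (nat_lit 5898) (nat_lit 320) (.e (nat_lit 1196) (nat_lit 88) (.e (nat_lit 65624) (nat_lit 12) (.e (nat_lit 385104) (nat_lit 50) .nil)))) .nil)))) (.nd (nat_lit 5) (.nd (nat_lit 6) 
(.lf (nat_lit 113430) (.g (nat_lit 3356) (.e (nat_lit 5856) (nat_lit 320) (.e (nat_lit 1201) (nat_lit 88) (.e (nat_lit 65630) (nat_lit 14) (.e (nat_lit 401459) (nat_lit 13) (.e (nat_lit 483396) (nat_lit 24) .nil))))) .nil)) 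
(.lf (nat_lit 113494) (.g (nat_lit 1666) (.e (nat_lit 5896) (nat_lit 320) (.e (nat_lit 1200) (nat_lit 88) (.e (nat_lit 65619) (nat_lit 10) (.e (nat_lit 344168) (nat_lit 40) (.e (nat_lit 671762) (nat_lit 4) .nil))))) .nil))) (.nd (nat_lit 6) 
(.lf (nat_lit 113462) (.g (nat_lit 1905) (.e (nat_lit 5864) (nat_lit 320) (.e (nat_lit 1221) (nat_lit 90) (.e (nat_lit 81959) (nat_lit 24) (.e (nat_lit 123182) (nat_lit 264) .nil)))) .nil)) 
(.lf (nat_lit 113526) (.g (nat_lit 1495) (.e (nat_lit 5902) (nat_lit 320) (.e (nat_lit 1189) (nat_lit 88) (.e (nat_lit 65619) (nat_lit 10) (.e (nat_lit 344169) (nat_lit 40) (.e (nat_lit 671747) (nat_lit 0) .nil))))) .nil))))) (.nd (nat_lit 4) (.nd (nat_lit 5) (.nd (nat_lit 6) 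
(.lf (nat_lit 113422) (.g (nat_lit 2324) (.e (nat_lit 5831) (nat_lit 320) (.e (nat_lit 1194) (nat_lit 88) (.e (nat_lit 65624) (nat_lit 12) (.e (nat_lit 385106) (nat_lit 50) (.e (nat_lit 786481) (nat_lit 30) (.e (nat_lit 368384) (nat_lit 0) .nil)))))) (.g (nat_lit 5) .nil .nil))) 
(.lf (nat_lit 113486) (.g (nat_lit 1794) (.e (nat_lit 5896) (nat_lit 320) (.e (nat_lit 1196) (nat_lit 88) (.e (nat_lit 65630) (nat_lit 14) (.e (nat_lit 401458) (nat_lit 13) (.e (nat_lit 483383) (nat_lit 23) .nil))))) .nil))) (.nd (nat_lit 6) 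
(.lf (nat_lit 113454) (.g (nat_lit 2041) (.e (nat_lit 5862) (nat_lit 320) (.e (nat_lit 1200) (nat_lit 88) (.e (nat_lit 65624) (nat_lit 12) (.e (nat_lit 385106) (nat_lit 50) (.e (nat_lit 786483) (nat_lit 30) .nil))))) .nil)) 
(.lf (nat_lit 113518) (.g (nat_lit 2227) (.e (nat_lit 5902) (nat_lit 320) (.e (nat_lit 1181) (nat_lit 87) (.e (nat_lit 57480) (nat_lit 28) (.e (nat_lit 557098) (nat_lit 13) (.e (nat_lit 172097) (nat_lit 9) (.e (nat_lit 426125) (nat_lit 2) (.e (nat_lit 196666) (nat_lit 13) (.e (nat_lit 65546) (nat_lit 0) (.e (nat_lit 1023) (nat_lit 81) .nil))))))))) (.g (nat_lit 4) .nil .nil))))) 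
(.nd (nat_lit 5) (.nd (nat_lit 6) 
(.lf (nat_lit 113438) (.g (nat_lit 654) (.e (nat_lit 5859) (nat_lit 320) (.e (nat_lit 1209) (nat_lit 89) (.e (nat_lit 73789) (nat_lit 45) .nil))) .nil)) 
(.lf (nat_lit 113502) (.g (nat_lit 2801) (.e (nat_lit 5896) (nat_lit 320) (.e (nat_lit 1200) (nat_lit 88) (.e (nat_lit 65628) (nat_lit 14) (.e (nat_lit 401459) (nat_lit 13) (.e (nat_lit 483383) (nat_lit 23) .nil))))) .nil))) (.nd (nat_lit 6) 
(.lf (nat_lit 113470) (.g (nat_lit 1695) (.e (nat_lit 5875) (nat_lit 320) (.e (nat_lit 1197) (nat_lit 88) (.e (nat_lit 65628) (nat_lit 14) (.e (nat_lit 401459) (nat_lit 13) (.e (nat_lit 483395) (nat_lit 24) .nil))))) .nil)) 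
(.lf (nat_lit 113534) (.g (nat_lit 1193) (.e (nat_lit 5902) (nat_lit 320) (.e (nat_lit 1190) (nat_lit 88) (.e (nat_lit 65619) (nat_lit 10) (.e (nat_lit 344168) (nat_lit 40) .nil)))) .nil)))))))) (.nd (nat_lit 1) (.nd (nat_lit 2) (.nd (nat_lit 3) (.nd (nat_lit 4) (.nd (nat_lit 5) (.nd (nat_lit 6) 
(.lf (nat_lit 113409) (.g (nat_lit 2239) (.e (nat_lit 5820) (nat_lit 320) (.e (nat_lit 1214) (nat_lit 89) (.e (nat_lit 73775) (nat_lit 26) (.e (nat_lit 778362) (nat_lit 9) (.e (nat_lit 304) (nat_lit 22) .nil))))) .nil)) 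
(.lf (nat_lit 113473) (.g (nat_lit 2901) (.e (nat_lit 5896) (nat_lit 320) (.e (nat_lit 1181) (nat_lit 87) (.e (nat_lit 57479) (nat_lit 28) (.e (nat_lit 557095) (nat_lit 13) (.e (nat_lit 172097) (nat_lit 9) .nil))))) .nil))) (.nd (nat_lit 6) 
(.lf (nat_lit 113441) (.g (nat_lit 1906) (.e (nat_lit 5861) (nat_lit 320) (.e (nat_lit 1196) (nat_lit 88) (.e (nat_lit 65630) (nat_lit 14) (.e (nat_lit 401458) (nat_lit 13) (.e (nat_lit 483396) (nat_lit 24) .nil))))) .nil)) 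
(.lf (nat_lit 113505) (.g (nat_lit 1643) (.e (nat_lit 5896) (nat_lit 320) (.e (nat_lit 1200) (nat_lit 88) (.e (nat_lit 65630) (nat_lit 14) (.e (nat_lit 401458) (nat_lit 13) (.e (nat_lit 483395) (nat_lit 24) .nil))))) .nil)))) (.nd (nat_lit 5) (.nd (nat_lit 6) 
(.lf (nat_lit 113425) (.g (nat_lit 2003) (.e (nat_lit 5831) (nat_lit 320) (.e (nat_lit 1194) (nat_lit 88) (.e (nat_lit 65628) (nat_lit 14) (.e (nat_lit 401437) (nat_lit 9) (.e (nat_lit 426546) (nat_lit 30) .nil))))) .nil)) 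
(.lf (nat_lit 113489) (.g (nat_lit 2695) (.e (nat_lit 5896) (nat_lit 320) (.e (nat_lit 1199) (nat_lit 88) (.e (nat_lit 65630) (nat_lit 14) (.e (nat_lit 401458) (nat_lit 13) (.e (nat_lit 483383) (nat_lit 23) (.e (nat_lit 335878) (nat_lit 0) (.e (nat_lit 996) (nat_lit 81) .nil))))))) (.g (nat_lit 5) .nil .nil)))) (.nd (nat_lit 6) 
(.lf (nat_lit 113457) (.g (nat_lit 1907) (.e (nat_lit 5862) (nat_lit 320) (.e (nat_lit 1200) (nat_lit 88) (.e (nat_lit 65628) (nat_lit 14) (.e (nat_lit 401458) (nat_lit 13) (.e (nat_lit 483395) (nat_lit 24) .nil))))) .nil)) 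
(.lf (nat_lit 113521) (.g (nat_lit 1841) (.e (nat_lit 5902) (nat_lit 320) (.e (nat_lit 1182) (nat_lit 87) (.e (nat_lit 57479) (nat_lit 28) (.e (nat_lit 557100) (nat_lit 13) (.e (nat_lit 172106) (nat_lit 10) .nil))))) .nil))))) (.nd (nat_lit 4) (.nd (nat_lit 5) (.nd (nat_lit 6) 
(.lf (nat_lit 113417) (.g (nat_lit 876) (.e (nat_lit 5823) (nat_lit 320) (.e (nat_lit 1296) (nat_lit 96) (.e (nat_lit 131086) (nat_lit 1) .nil))) .nil)) 
(.lf (nat_lit 113481) (.g (nat_lit 1918) (.e (nat_lit 5896) (nat_lit 320) (.e (nat_lit 1190) (nat_lit 88) (.e (nat_lit 65628) (nat_lit 14) (.e (nat_lit 401458) (nat_lit 13) (.e (nat_lit 483383) (nat_lit 23) (.e (nat_lit 335878) (nat_lit 0) (.e (nat_lit 996) (nat_lit 81) .nil))))))) (.g (nat_lit 4) .nil .nil)))) (.nd (nat_lit 6) 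
(.lf (nat_lit 113449) (.g (nat_lit 512) (.e (nat_lit 5861) (nat_lit 320) (.e (nat_lit 1220) (nat_lit 90) (.e (nat_lit 81959) (nat_lit 24) .nil))) .nil)) 
(.lf (nat_lit 113513) (.g (nat_lit 2625) (.e (nat_lit 5900) (nat_lit 320) (.e (nat_lit 1196) (nat_lit 88) (.e (nat_lit 65630) (nat_lit 14) (.e (nat_lit 401459) (nat_lit 13) (.e (nat_lit 483395) (nat_lit 24) .nil))))) .nil)))) (.nd (nat_lit 5) (.nd (nat_lit 6) 
(.lf (nat_lit 113433) (.g (nat_lit 2205) (.e (nat_lit 5857) (nat_lit 320) (.e (nat_lit 1201) (nat_lit 88) (.e (nat_lit 65630) (nat_lit 14) (.e (nat_lit 401459) (nat_lit 13) (.e (nat_lit 483395) (nat_lit 24) .nil))))) .nil)) 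
(.lf (nat_lit 113497) (.g (nat_lit 1171) (.e (nat_lit 5896) (nat_lit 320) (.e (nat_lit 1200) (nat_lit 88) (.e (nat_lit 65628) (nat_lit 14) (.e (nat_lit 401458) (nat_lit 13) .nil)))) .nil))) (.nd (nat_lit 6) 
(.lf (nat_lit 113465) (.g (nat_lit 2535) (.e (nat_lit 5872) (nat_lit 320) (.e (nat_lit 1197) (nat_lit 88) (.e (nat_lit 65623) (nat_lit 12) (.e (nat_lit 385106) (nat_lit 50) (.e (nat_lit 786483) (nat_lit 30) (.e (nat_lit 360451) (nat_lit 0) .nil)))))) (.g (nat_lit 6) .nil .nil))) 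
(.lf (nat_lit 113529) (.g (nat_lit 1901) (.e (nat_lit 5902) (nat_lit 320) (.e (nat_lit 1189) (nat_lit 88) (.e (nat_lit 65622) (nat_lit 12) (.e (nat_lit 385106) (nat_lit 50) (.e (nat_lit 786481) (nat_lit 30) (.e (nat_lit 368384) (nat_lit 0) .nil)))))) (.g (nat_lit 5) .nil .nil))))))) (.nd (nat_lit 3) (.nd (nat_lit 4) (.nd (nat_lit 5) (.nd (nat_lit 6) 
(.lf (nat_lit 113413) (.g (nat_lit 1536) (.e (nat_lit 5821) (nat_lit 320) (.e (nat_lit 1296) (nat_lit 96) (.e (nat_lit 131086) (nat_lit 1) (.e (nat_lit 57692) (nat_lit 156) (.e (nat_lit 171776) (nat_lit 66) .nil))))) .nil)) 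
(.lf (nat_lit 113477) (.g (nat_lit 2823) (.e (nat_lit 5896) (nat_lit 320) (.e (nat_lit 1182) (nat_lit 87) (.e (nat_lit 57479) (nat_lit 28) (.e (nat_lit 557095) (nat_lit 13) (.e (nat_lit 172097) (nat_lit 9) .nil))))) .nil))) (.nd (nat_lit 6) 
(.lf (nat_lit 113445) (.g (nat_lit 1434) (.e (nat_lit 5861) (nat_lit 320) (.e (nat_lit 1220) (nat_lit 90) (.e (nat_lit 81938) (nat_lit 20) (.e (nat_lit 2006) (nat_lit 138) .nil)))) .nil)) 
(.lf (nat_lit 113509) (.g (nat_lit 1746) (.e (nat_lit 5898) (nat_lit 320) (.e (nat_lit 1187) (nat_lit 88) (.e (nat_lit 65624) (nat_lit 12) (.e (nat_lit 385106) (nat_lit 50) (.e (nat_lit 786481) (nat_lit 30) .nil))))) .nil)))) (.nd (nat_lit 5) (.nd (nat_lit 6) 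
(.lf (nat_lit 113429) (.g (nat_lit 2038) (.e (nat_lit 5856) (nat_lit 320) (.e (nat_lit 1201) (nat_lit 88) (.e (nat_lit 65630) (nat_lit 14) (.e (nat_lit 401458) (nat_lit 13) (.e (nat_lit 483396) (nat_lit 24) .nil))))) .nil)) 
(.lf (nat_lit 113493) (.g (nat_lit 1763) (.e (nat_lit 5896) (nat_lit 320) (.e (nat_lit 1200) (nat_lit 88) (.e (nat_lit 65619) (nat_lit 10) (.e (nat_lit 344097) (nat_lit 18) (.e (nat_lit 5907) (nat_lit 320) .nil))))) .nil))) (.nd (nat_lit 6) 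
(.lf (nat_lit 113461) (.g (nat_lit 2172) (.e (nat_lit 5862) (nat_lit 320) (.e (nat_lit 1200) (nat_lit 88) (.e (nat_lit 65630) (nat_lit 14) (.e (nat_lit 401459) (nat_lit 13) (.e (nat_lit 483395) (nat_lit 24) .nil))))) .nil)) 
(.lf (nat_lit 113525) (.g (nat_lit 1413) (.e (nat_lit 5902) (nat_lit 320) (.e (nat_lit 1189) (nat_lit 88) (.e (nat_lit 65619) (nat_lit 10) (.e (nat_lit 344168) (nat_lit 40) (.e (nat_lit 671746) (nat_lit 0) .nil))))) .nil))))) (.nd (nat_lit 4) (.nd (nat_lit 5) (.nd (nat_lit 6) 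
(.lf (nat_lit 113421) (.g (nat_lit 2333) (.e (nat_lit 5831) (nat_lit 320) (.e (nat_lit 1194) (nat_lit 88) (.e (nat_lit 65624) (nat_lit 12) (.e (nat_lit 385105) (nat_lit 50) (.e (nat_lit 786481) (nat_lit 30) (.e (nat_lit 368384) (nat_lit 0) .nil)))))) (.g (nat_lit 5) .nil .nil))) 
(.lf (nat_lit 113485) (.g (nat_lit 2206) (.e (nat_lit 5896) (nat_lit 320) (.e (nat_lit 1196) (nat_lit 88) (.e (nat_lit 65630) (nat_lit 14) (.e (nat_lit 401437) (nat_lit 9) (.e (nat_lit 426544) (nat_lit 30) .nil))))) .nil))) (.nd (nat_lit 6) 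
(.lf (nat_lit 113453) (.g (nat_lit 2057) (.e (nat_lit 5862) (nat_lit 320) (.e (nat_lit 1200) (nat_lit 88) (.e (nat_lit 65624) (nat_lit 12) (.e (nat_lit 385105) (nat_lit 50) (.e (nat_lit 786483) (nat_lit 30) .nil))))) .nil)) 
(.lf (nat_lit 113517) (.g (nat_lit 476) (.e (nat_lit 5900) (nat_lit 320) (.e (nat_lit 1221) (nat_lit 90) (.e (nat_lit 81959) (nat_lit 24) .nil))) .nil)))) (.nd (nat_lit 5) (.nd (nat_lit 6) 
(.lf (nat_lit 113437) (.g (nat_lit 2235) (.e (nat_lit 5859) (nat_lit 320) (.e (nat_lit 1196) (nat_lit 88) (.e (nat_lit 65630) (nat_lit 14) (.e (nat_lit 401437) (nat_lit 9) (.e (nat_lit 426546) (nat_lit 30) .nil))))) .nil)) 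
(.lf (nat_lit 113501) (.g (nat_lit 1911) (.e (nat_lit 5896) (nat_lit 320) (.e (nat_lit 1200) (nat_lit 88) (.e (nat_lit 65628) (nat_lit 14) (.e (nat_lit 401458) (nat_lit 13) (.e (nat_lit 483396) (nat_lit 24) .nil))))) .nil))) (.nd (nat_lit 6) 
(.lf (nat_lit 113469) (.g (nat_lit 2433) (.e (nat_lit 5874) (nat_lit 320) (.e (nat_lit 1197) (nat_lit 88) (.e (nat_lit 65630) (nat_lit 14) (.e (nat_lit 401459) (nat_lit 13) (.e (nat_lit 483394) (nat_lit 24) .nil))))) .nil)) 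
(.lf (nat_lit 113533) (.g (nat_lit 2145) (.e (nat_lit 5902) (nat_lit 320) (.e (nat_lit 1189) (nat_lit 88) (.e (nat_lit 65628) (nat_lit 14) (.e (nat_lit 401437) (nat_lit 9) (.e (nat_lit 426546) (nat_lit 30) (.e (nat_lit 368384) (nat_lit 0) .nil)))))) (.g (nat_lit 5) .nil .nil)))))))) (.nd (nat_lit 2) (.nd (nat_lit 3) (.nd (nat_lit 4) (.nd (nat_lit 5) (.nd (nat_lit 6) 
(.lf (nat_lit 113411) (.g (nat_lit 1877) (.e (nat_lit 5821) (nat_lit 320) (.e (nat_lit 1214) (nat_lit 89) (.e (nat_lit 73775) (nat_lit 26) (.e (nat_lit 778361) (nat_lit 9) (.e (nat_lit 304) (nat_lit 22) .nil))))) .nil)) 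
(.lf (nat_lit 113475) (.g (nat_lit 1382) (.e (nat_lit 5896) (nat_lit 320) (.e (nat_lit 1182) (nat_lit 87) (.e (nat_lit 57478) (nat_lit 28) (.e (nat_lit 557107) (nat_lit 15) (.e (nat_lit 188450) (nat_lit 23) .nil))))) .nil))) (.nd (nat_lit 6) 
(.lf (nat_lit 113443) (.g (nat_lit 1380) (.e (nat_lit 5861) (nat_lit 320) (.e (nat_lit 1208) (nat_lit 89) (.e (nat_lit 73781) (nat_lit 32) (.e (nat_lit 3090) (nat_lit 191) (.e (nat_lit 483396) (nat_lit 24) .nil))))) .nil)) 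
(.lf (nat_lit 113507) (.g (nat_lit 526) (.e (nat_lit 5897) (nat_lit 320) (.e (nat_lit 1221) (nat_lit 90) (.e (nat_lit 81959) (nat_lit 24) .nil))) .nil)))) (.nd (nat_lit 5) (.nd (nat_lit 6) 
(.lf (nat_lit 113427) (.g (nat_lit 131) (.e (nat_lit 5831) (nat_lit 320) (.e (nat_lit 1218) (nat_lit 90) (.e (nat_lit 89856) (nat_lit 8) .nil))) .nil)) 
(.lf (nat_lit 113491) (.g (nat_lit 3211) (.e (nat_lit 5896) (nat_lit 320) (.e (nat_lit 1199) (nat_lit 88) (.e (nat_lit 65630) (nat_lit 14) (.e (nat_lit 401459) (nat_lit 13) (.e (nat_lit 483383) (nat_lit 23) .nil))))) .nil))) (.nd (nat_lit 6) 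
(.lf (nat_lit 113459) (.g (nat_lit 1716) (.e (nat_lit 5862) (nat_lit 320) (.e (nat_lit 1200) (nat_lit 88) (.e (nat_lit 65630) (nat_lit 14) (.e (nat_lit 401437) (nat_lit 9) (.e (nat_lit 426544) (nat_lit 30) .nil))))) .nil)) 
(.lf (nat_lit 113523) (.g (nat_lit 1940) (.e (nat_lit 5902) (nat_lit 320) (.e (nat_lit 1188) (nat_lit 88) (.e (nat_lit 65630) (nat_lit 14) (.e (nat_lit 401438) (nat_lit 9) (.e (nat_lit 426546) (nat_lit 30) (.e (nat_lit 368384) (nat_lit 0) .nil)))))) (.g (nat_lit 5) .nil .nil)))))) (.nd (nat_lit 4) (.nd (nat_lit 5) (.nd (nat_lit 6) 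
(.lf (nat_lit 113419) (.g (nat_lit 1264) (.e (nat_lit 5831) (nat_lit 320) (.e (nat_lit 1194) (nat_lit 88) (.e (nat_lit 65622) (nat_lit 12) (.e (nat_lit 385105) (nat_lit 50) (.e (nat_lit 786481) (nat_lit 30) .nil))))) .nil)) 
(.lf (nat_lit 113483) (.g (nat_lit 231) (.e (nat_lit 5896) (nat_lit 320) (.e (nat_lit 1196) (nat_lit 88) (.e (nat_lit 65610) (nat_lit 10) .nil))) .nil))) (.nd (nat_lit 6) 
(.lf (nat_lit 113451) (.g (nat_lit 2249) (.e (nat_lit 5861) (nat_lit 320) (.e (nat_lit 1220) (nat_lit 90) (.e (nat_lit 81959) (nat_lit 24) (.e (nat_lit 123195) (nat_lit 266) (.e (nat_lit 57412) (nat_lit 12) .nil))))) .nil)) 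
(.lf (nat_lit 113515) (.g (nat_lit 1155) (.e (nat_lit 5900) (nat_lit 320) (.e (nat_lit 1209) (nat_lit 89) (.e (nat_lit 73782) (nat_lit 32) (.e (nat_lit 3090) (nat_lit 191) .nil)))) .nil)))) (.nd (nat_lit 5) (.nd (nat_lit 6) 
(.lf (nat_lit 113435) (.g (nat_lit 2205) (.e (nat_lit 5858) (nat_lit 320) (.e (nat_lit 1201) (nat_lit 88) (.e (nat_lit 65630) (nat_lit 14) (.e (nat_lit 401459) (nat_lit 13) (.e (nat_lit 483395) (nat_lit 24) .nil))))) .nil)) 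
(.lf (nat_lit 113499) (.g (nat_lit 2095) (.e (nat_lit 5896) (nat_lit 320) (.e (nat_lit 1200) (nat_lit 88) (.e (nat_lit 65628) (nat_lit 14) (.e (nat_lit 401458) (nat_lit 13) (.e (nat_lit 483383) (nat_lit 23) (.e (nat_lit 335878) (nat_lit 0) (.e (nat_lit 999) (nat_lit 81) .nil))))))) (.g (nat_lit 4) .nil .nil)))) (.nd (nat_lit 6) 
(.lf (nat_lit 113467) (.g (nat_lit 1094) (.e (nat_lit 5872) (nat_lit 320) (.e (nat_lit 1197) (nat_lit 88) (.e (nat_lit 65630) (nat_lit 14) (.e (nat_lit 401435) (nat_lit 9) .nil)))) .nil)) 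
(.lf (nat_lit 113531) (.g (nat_lit 2633) (.e (nat_lit 5902) (nat_lit 320) (.e (nat_lit 1189) (nat_lit 88) (.e (nat_lit 65624) (nat_lit 12) (.e (nat_lit 385106) (nat_lit 50) (.e (nat_lit 786483) (nat_lit 30) (.e (nat_lit 368384) (nat_lit 0) .nil)))))) (.g (nat_lit 5) .nil .nil))))))) (.nd (nat_lit 3) (.nd (nat_lit 4) (.nd (nat_lit 5) (.nd (nat_lit 6) 
(.lf (nat_lit 113415) (.g (nat_lit 1708) (.e (nat_lit 5823) (nat_lit 320) (.e (nat_lit 1201) (nat_lit 88) (.e (nat_lit 65610) (nat_lit 10) (.e (nat_lit 344097) (nat_lit 18) .nil)))) .nil)) 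
(.lf (nat_lit 113479) (.g (nat_lit 1760) (.e (nat_lit 5896) (nat_lit 320) (.e (nat_lit 1188) (nat_lit 88) (.e (nat_lit 65624) (nat_lit 12) (.e (nat_lit 385106) (nat_lit 50) (.e (nat_lit 786481) (nat_lit 30) .nil))))) .nil))) (.nd (nat_lit 6) 
(.lf (nat_lit 113447) (.g (nat_lit 1831) (.e (nat_lit 5861) (nat_lit 320) (.e (nat_lit 1220) (nat_lit 90) (.e (nat_lit 81950) (nat_lit 21) (.e (nat_lit 57872) (nat_lit 264) .nil)))) .nil)) 
(.lf (nat_lit 113511) (.g (nat_lit 1468) (.e (nat_lit 5900) (nat_lit 320) (.e (nat_lit 1188) (nat_lit 88) (.e (nat_lit 65630) (nat_lit 14) (.e (nat_lit 401459) (nat_lit 13) (.e (nat_lit 483395) (nat_lit 24) .nil))))) .nil)))) (.nd (nat_lit 5) (.nd (nat_lit 6) 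
(.lf (nat_lit 113431) (.g (nat_lit 2286) (.e (nat_lit 5856) (nat_lit 320) (.e (nat_lit 1221) (nat_lit 90) (.e (nat_lit 81959) (nat_lit 24) (.e (nat_lit 123182) (nat_lit 264) (.e (nat_lit 1201) (nat_lit 88) .nil))))) .nil)) 
(.lf (nat_lit 113495) (.g (nat_lit 1173) (.e (nat_lit 5896) (nat_lit 320) (.e (nat_lit 1200) (nat_lit 88) (.e (nat_lit 65628) (nat_lit 14) (.e (nat_lit 401436) (nat_lit 9) .nil)))) .nil))) (.nd (nat_lit 6) 
(.lf (nat_lit 113463) (.g (nat_lit 1784) (.e (nat_lit 5865) (nat_lit 320) (.e (nat_lit 1221) (nat_lit 90) (.e (nat_lit 81959) (nat_lit 24) (.e (nat_lit 123185) (nat_lit 264) .nil)))) .nil)) 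
(.lf (nat_lit 113527) (.g (nat_lit 1889) (.e (nat_lit 5902) (nat_lit 320) (.e (nat_lit 1189) (nat_lit 88) (.e (nat_lit 65622) (nat_lit 12) (.e (nat_lit 385105) (nat_lit 50) (.e (nat_lit 786481) (nat_lit 30) (.e (nat_lit 368384) (nat_lit 0) .nil)))))) (.g (nat_lit 5) .nil .nil)))))) (.nd (nat_lit 4) (.nd (nat_lit 5) (.nd (nat_lit 6) 
(.lf (nat_lit 113423) (.g (nat_lit 2678) (.e (nat_lit 5831) (nat_lit 320) (.e (nat_lit 1194) (nat_lit 88) (.e (nat_lit 65624) (nat_lit 12) (.e (nat_lit 385106) (nat_lit 50) (.e (nat_lit 786483) (nat_lit 30) (.e (nat_lit 368384) (nat_lit 0) .nil)))))) (.g (nat_lit 5) .nil .nil))) 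
(.lf (nat_lit 113487) (.g (nat_lit 1392) (.e (nat_lit 5896) (nat_lit 320) (.e (nat_lit 1199) (nat_lit 88) (.e (nat_lit 65628) (nat_lit 14) (.e (nat_lit 401459) (nat_lit 13) (.e (nat_lit 483395) (nat_lit 24) .nil))))) .nil))) (.nd (nat_lit 6) 
(.lf (nat_lit 113455) (.g (nat_lit 1928) (.e (nat_lit 5862) (nat_lit 320) (.e (nat_lit 1200) (nat_lit 88) (.e (nat_lit 65628) (nat_lit 14) (.e (nat_lit 401437) (nat_lit 9) (.e (nat_lit 426544) (nat_lit 30) .nil))))) .nil)) 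
(.lf (nat_lit 113519) (.g (nat_lit 2414) (.e (nat_lit 5902) (nat_lit 320) (.e (nat_lit 1181) (nat_lit 87) (.e (nat_lit 57480) (nat_lit 28) (.e (nat_lit 557107) (nat_lit 15) (.e (nat_lit 188450) (nat_lit 23) .nil))))) .nil)))) (.nd (nat_lit 5) (.nd (nat_lit 6) 
(.lf (nat_lit 113439) (.g (nat_lit 1856) (.e (nat_lit 5861) (nat_lit 320) (.e (nat_lit 1187) (nat_lit 88) (.e (nat_lit 65630) (nat_lit 14) (.e (nat_lit 401458) (nat_lit 13) (.e (nat_lit 483396) (nat_lit 24) .nil))))) .nil)) 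
(.lf (nat_lit 113503) (.g (nat_lit 1800) (.e (nat_lit 5896) (nat_lit 320) (.e (nat_lit 1200) (nat_lit 88) (.e (nat_lit 65628) (nat_lit 14) (.e (nat_lit 401459) (nat_lit 13) (.e (nat_lit 483395) (nat_lit 24) .nil))))) .nil))) (.nd (nat_lit 6) 
(.lf (nat_lit 113471) (.g (nat_lit 2090) (.e (nat_lit 5882) (nat_lit 320) (.e (nat_lit 1218) (nat_lit 90) (.e (nat_lit 81959) (nat_lit 24) (.e (nat_lit 123195) (nat_lit 266) (.e (nat_lit 57427) (nat_lit 15) .nil))))) .nil)) 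
(.lf (nat_lit 113535) (.g (nat_lit 1844) (.e (nat_lit 5902) (nat_lit 320) (.e (nat_lit 1190) (nat_lit 88) (.e (nat_lit 65619) (nat_lit 10) (.e (nat_lit 344168) (nat_lit 40) (.e (nat_lit 671746) (nat_lit 0) .nil))))) .nil)))))))))

noncomputable def tv1530 : DT := (.nd (nat_lit 0) (.nd (nat_lit 1) (.nd (nat_lit 2) (.nd (nat_lit 3) (.nd (nat_lit 4) (.nd (nat_lit 5) 
(.lf (nat_lit 113536) (.g (nat_lit 1922) (.e (nat_lit 5902) (nat_lit 320) (.e (nat_lit 1190) (nat_lit 88) (.e (nat_lit 65619) (nat_lit 10) (.e (nat_lit 344168) (nat_lit 40) (.e (nat_lit 671747) (nat_lit 0) .nil))))) .nil)) 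
(.lf (nat_lit 113568) (.g (nat_lit 1789) (.e (nat_lit 5902) (nat_lit 320) (.e (nat_lit 1199) (nat_lit 88) (.e (nat_lit 65617) (nat_lit 10) (.e (nat_lit 344169) (nat_lit 40) (.e (nat_lit 671747) (nat_lit 0) .nil))))) .nil))) (.nd (nat_lit 5) 
(.lf (nat_lit 113552) (.g (nat_lit 3356) (.e (nat_lit 5902) (nat_lit 320) (.e (nat_lit 1190) (nat_lit 88) (.e (nat_lit 65630) (nat_lit 14) (.e (nat_lit 401459) (nat_lit 13) (.e (nat_lit 483374) (nat_lit 22) .nil))))) .nil)) 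
(.lf (nat_lit 113584) (.g (nat_lit 2629) (.e (nat_lit 5902) (nat_lit 320) (.e (nat_lit 1199) (nat_lit 88) (.e (nat_lit 65630) (nat_lit 14) (.e (nat_lit 401437) (nat_lit 9) (.e (nat_lit 426546) (nat_lit 30) (.e (nat_lit 368384) (nat_lit 0) .nil)))))) (.g (nat_lit 5) .nil .nil))))) (.nd (nat_lit 4) (.nd (nat_lit 5) 
(.lf (nat_lit 113544) (.g (nat_lit 1588) (.e (nat_lit 5902) (nat_lit 320) (.e (nat_lit 1190) (nat_lit 88) (.e (nat_lit 65623) (nat_lit 12) (.e (nat_lit 385106) (nat_lit 50) (.e (nat_lit 786481) (nat_lit 30) .nil))))) .nil)) 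
(.lf (nat_lit 113576) (.g (nat_lit 2681) (.e (nat_lit 5902) (nat_lit 320) (.e (nat_lit 1199) (nat_lit 88) (.e (nat_lit 65624) (nat_lit 12) (.e (nat_lit 385106) (nat_lit 50) (.e (nat_lit 786481) (nat_lit 30) (.e (nat_lit 368384) (nat_lit 0) .nil)))))) (.g (nat_lit 5) .nil .nil)))) (.nd (nat_lit 5) 
(.lf (nat_lit 113560) (.g (nat_lit 1653) (.e (nat_lit 5902) (nat_lit 320) (.e (nat_lit 1199) (nat_lit 88) (.e (nat_lit 65610) (nat_lit 10) (.e (nat_lit 344169) (nat_lit 40) (.e (nat_lit 671747) (nat_lit 0) .nil))))) .nil)) 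
(.lf (nat_lit 113592) (.g (nat_lit 3268) (.e (nat_lit 5902) (nat_lit 320) (.e (nat_lit 1200) (nat_lit 88) (.e (nat_lit 65619) (nat_lit 10) (.e (nat_lit 344169) (nat_lit 40) (.e (nat_lit 671748) (nat_lit 0) (.e (nat_lit 1586) (nat_lit 111) (.e (nat_lit 368384) (nat_lit 0) .nil))))))) (.g (nat_lit 6) .nil .nil)))))) (.nd (nat_lit 3) (.nd (nat_lit 4) (.nd (nat_lit 5) 
(.lf (nat_lit 113540) (.g (nat_lit 3345) (.e (nat_lit 5902) (nat_lit 320) (.e (nat_lit 1190) (nat_lit 88) (.e (nat_lit 65619) (nat_lit 10) (.e (nat_lit 344169) (nat_lit 40) (.e (nat_lit 671748) (nat_lit 0) (.e (nat_lit 1589) (nat_lit 111) (.e (nat_lit 368384) (nat_lit 0) .nil))))))) (.g (nat_lit 6) .nil .nil))) 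
(.lf (nat_lit 113572) (.g (nat_lit 2235) (.e (nat_lit 5902) (nat_lit 320) (.e (nat_lit 1199) (nat_lit 88) (.e (nat_lit 65622) (nat_lit 12) (.e (nat_lit 385106) (nat_lit 50) (.e (nat_lit 786481) (nat_lit 30) (.e (nat_lit 368384) (nat_lit 0) .nil)))))) (.g (nat_lit 5) .nil .nil)))) (.nd (nat_lit 5) 
(.lf (nat_lit 113556) (.g (nat_lit 1448) (.e (nat_lit 5902) (nat_lit 320) (.e (nat_lit 1199) (nat_lit 88) (.e (nat_lit 65610) (nat_lit 10) (.e (nat_lit 344168) (nat_lit 40) (.e (nat_lit 671746) (nat_lit 0) .nil))))) .nil)) 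
(.lf (nat_lit 113588) (.g (nat_lit 3172) (.e (nat_lit 5902) (nat_lit 320) (.e (nat_lit 1199) (nat_lit 88) (.e (nat_lit 65630) (nat_lit 14) (.e (nat_lit 401459) (nat_lit 13) (.e (nat_lit 483374) (nat_lit 22) .nil))))) .nil)))) (.nd (nat_lit 4) (.nd (nat_lit 5) 
(.lf (nat_lit 113548) (.g (nat_lit 2570) (.e (nat_lit 5902) (nat_lit 320) (.e (nat_lit 1190) (nat_lit 88) (.e (nat_lit 65628) (nat_lit 14) (.e (nat_lit 401437) (nat_lit 9) (.e (nat_lit 426546) (nat_lit 30) (.e (nat_lit 368384) (nat_lit 0) .nil)))))) (.g (nat_lit 5) .nil .nil))) 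
(.lf (nat_lit 113580) (.g (nat_lit 1006) (.e (nat_lit 5902) (nat_lit 320) (.e (nat_lit 1199) (nat_lit 88) (.e (nat_lit 65628) (nat_lit 14) (.e (nat_lit 401459) (nat_lit 13) .nil)))) .nil))) (.nd (nat_lit 5) 
(.lf (nat_lit 113564) (.g (nat_lit 2816) (.e (nat_lit 5902) (nat_lit 320) (.e (nat_lit 1199) (nat_lit 88) (.e (nat_lit 65610) (nat_lit 10) (.e (nat_lit 344169) (nat_lit 40) (.e (nat_lit 671748) (nat_lit 0) (.e (nat_lit 1598) (nat_lit 111) (.e (nat_lit 368384) (nat_lit 0) .nil))))))) (.g (nat_lit 6) .nil .nil))) 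
(.lf (nat_lit 113596) (.g (nat_lit 2808) (.e (nat_lit 5902) (nat_lit 320) (.e (nat_lit 1200) (nat_lit 88) (.e (nat_lit 65619) (nat_lit 10) (.e (nat_lit 344169) (nat_lit 40) (.e (nat_lit 671748) (nat_lit 0) (.e (nat_lit 1599) (nat_lit 111) (.e (nat_lit 368384) (nat_lit 0) .nil))))))) (.g (nat_lit 6) .nil .nil))))))) (.nd (nat_lit 2) (.nd (nat_lit 3) (.nd (nat_lit 4) (.nd (nat_lit 5) 
(.lf (nat_lit 113538) (.g (nat_lit 1905) (.e (nat_lit 5902) (nat_lit 320) (.e (nat_lit 1190) (nat_lit 88) (.e (nat_lit 65619) (nat_lit 10) (.e (nat_lit 344169) (nat_lit 40) (.e (nat_lit 671747) (nat_lit 0) .nil))))) .nil)) 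
(.lf (nat_lit 113570) (.g (nat_lit 1764) (.e (nat_lit 5902) (nat_lit 320) (.e (nat_lit 1199) (nat_lit 88) (.e (nat_lit 65622) (nat_lit 12) (.e (nat_lit 385105) (nat_lit 50) (.e (nat_lit 786483) (nat_lit 30) .nil))))) .nil))) (.nd (nat_lit 5) 
(.lf (nat_lit 113554) (.g (nat_lit 1159) (.e (nat_lit 5902) (nat_lit 320) (.e (nat_lit 1196) (nat_lit 88) (.e (nat_lit 65630) (nat_lit 14) (.e (nat_lit 401436) (nat_lit 9) .nil)))) .nil)) 
(.lf (nat_lit 113586) (.g (nat_lit 2187) (.e (nat_lit 5902) (nat_lit 320) (.e (nat_lit 1199) (nat_lit 88) (.e (nat_lit 65630) (nat_lit 14) (.e (nat_lit 401438) (nat_lit 9) (.e (nat_lit 426546) (nat_lit 30) (.e (nat_lit 368384) (nat_lit 0) .nil)))))) (.g (nat_lit 5) .nil .nil))))) (.nd (nat_lit 4) (.nd (nat_lit 5) 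
(.lf (nat_lit 113546) (.g (nat_lit 3142) (.e (nat_lit 5902) (nat_lit 320) (.e (nat_lit 1190) (nat_lit 88) (.e (nat_lit 65624) (nat_lit 12) (.e (nat_lit 385106) (nat_lit 50) (.e (nat_lit 786483) (nat_lit 30) (.e (nat_lit 368384) (nat_lit 0) .nil)))))) (.g (nat_lit 5) .nil .nil))) 
(.lf (nat_lit 113578) (.g (nat_lit 1550) (.e (nat_lit 5902) (nat_lit 320) (.e (nat_lit 1199) (nat_lit 88) (.e (nat_lit 65628) (nat_lit 14) (.e (nat_lit 401436) (nat_lit 9) (.e (nat_lit 426544) (nat_lit 30) .nil))))) .nil))) (.nd (nat_lit 5) 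
(.lf (nat_lit 113562) (.g (nat_lit 3169) (.e (nat_lit 5902) (nat_lit 320) (.e (nat_lit 1199) (nat_lit 88) (.e (nat_lit 65610) (nat_lit 10) (.e (nat_lit 344169) (nat_lit 40) (.e (nat_lit 671748) (nat_lit 0) (.e (nat_lit 1589) (nat_lit 111) (.e (nat_lit 368384) (nat_lit 0) .nil))))))) (.g (nat_lit 6) .nil .nil))) 
(.lf (nat_lit 113594) (.g (nat_lit 3117) (.e (nat_lit 5902) (nat_lit 320) (.e (nat_lit 1200) (nat_lit 88) (.e (nat_lit 65619) (nat_lit 10) (.e (nat_lit 344169) (nat_lit 40) (.e (nat_lit 671748) (nat_lit 0) (.e (nat_lit 1595) (nat_lit 111) (.e (nat_lit 368384) (nat_lit 0) .nil))))))) (.g (nat_lit 6) .nil .nil)))))) (.nd (nat_lit 3) (.nd (nat_lit 4) (.nd (nat_lit 5) 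
(.lf (nat_lit 113542) (.g (nat_lit 3037) (.e (nat_lit 5902) (nat_lit 320) (.e (nat_lit 1190) (nat_lit 88) (.e (nat_lit 65619) (nat_lit 10) (.e (nat_lit 344169) (nat_lit 40) (.e (nat_lit 671748) (nat_lit 0) (.e (nat_lit 1598) (nat_lit 111) (.e (nat_lit 368384) (nat_lit 0) .nil))))))) (.g (nat_lit 6) .nil .nil))) 
(.lf (nat_lit 113574) (.g (nat_lit 2675) (.e (nat_lit 5902) (nat_lit 320) (.e (nat_lit 1199) (nat_lit 88) (.e (nat_lit 65624) (nat_lit 12) (.e (nat_lit 385105) (nat_lit 50) (.e (nat_lit 786481) (nat_lit 30) (.e (nat_lit 368384) (nat_lit 0) .nil)))))) (.g (nat_lit 5) .nil .nil)))) (.nd (nat_lit 5) 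
(.lf (nat_lit 113558) (.g (nat_lit 1578) (.e (nat_lit 5902) (nat_lit 320) (.e (nat_lit 1199) (nat_lit 88) (.e (nat_lit 65610) (nat_lit 10) (.e (nat_lit 344169) (nat_lit 40) (.e (nat_lit 671746) (nat_lit 0) .nil))))) .nil)) 
(.lf (nat_lit 113590) (.g (nat_lit 1865) (.e (nat_lit 5902) (nat_lit 320) (.e (nat_lit 1200) (nat_lit 88) (.e (nat_lit 65619) (nat_lit 10) (.e (nat_lit 344168) (nat_lit 40) (.e (nat_lit 671747) (nat_lit 0) .nil))))) .nil)))) (.nd (nat_lit 4) (.nd (nat_lit 5) 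
(.lf (nat_lit 113550) (.g (nat_lit 1850) (.e (nat_lit 5902) (nat_lit 320) (.e (nat_lit 1190) (nat_lit 88) (.e (nat_lit 65630) (nat_lit 14) (.e (nat_lit 401436) (nat_lit 9) (.e (nat_lit 426544) (nat_lit 30) .nil))))) .nil)) 
(.lf (nat_lit 113582) (.g (nat_lit 1939) (.e (nat_lit 5902) (nat_lit 320) (.e (nat_lit 1199) (nat_lit 88) (.e (nat_lit 65630) (nat_lit 14) (.e (nat_lit 401436) (nat_lit 9) (.e (nat_lit 426546) (nat_lit 30) (.e (nat_lit 368384) (nat_lit 0) .nil)))))) (.g (nat_lit 4) .nil .nil)))) (.nd (nat_lit 5) 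
(.lf (nat_lit 113566) (.g (nat_lit 1282) (.e (nat_lit 5902) (nat_lit 320) (.e (nat_lit 1199) (nat_lit 88) (.e (nat_lit 65617) (nat_lit 10) (.e (nat_lit 344168) (nat_lit 40) .nil)))) .nil)) 
(.lf (nat_lit 113598) (.g (nat_lit 1977) (.e (nat_lit 5902) (nat_lit 320) (.e (nat_lit 1200) (nat_lit 88) (.e (nat_lit 65628) (nat_lit 14) (.e (nat_lit 401436) (nat_lit 9) (.e (nat_lit 426546) (nat_lit 30) (.e (nat_lit 368384) (nat_lit 0) .nil)))))) (.g (nat_lit 5) .nil .nil)))))))) (.nd (nat_lit 1) (.nd (nat_lit 2) (.nd (nat_lit 3) (.nd (nat_lit 4) (.nd (nat_lit 5) 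
(.lf (nat_lit 113537) (.g (nat_lit 1916) (.e (nat_lit 5902) (nat_lit 320) (.e (nat_lit 1190) (nat_lit 88) (.e (nat_lit 65619) (nat_lit 10) (.e (nat_lit 344169) (nat_lit 40) (.e (nat_lit 671746) (nat_lit 0) .nil))))) .nil)) 
(.lf (nat_lit 113569) (.g (nat_lit 2333) (.e (nat_lit 5902) (nat_lit 320) (.e (nat_lit 1199) (nat_lit 88) (.e (nat_lit 65622) (nat_lit 12) (.e (nat_lit 385105) (nat_lit 50) (.e (nat_lit 786481) (nat_lit 30) (.e (nat_lit 368384) (nat_lit 0) .nil)))))) (.g (nat_lit 5) .nil .nil)))) (.nd (nat_lit 5) 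
(.lf (nat_lit 113553) (.g (nat_lit 1232) (.e (nat_lit 5902) (nat_lit 320) (.e (nat_lit 1190) (nat_lit 88) (.e (nat_lit 65648) (nat_lit 26) (.e (nat_lit 417796) (nat_lit 0) (.e (nat_lit 5393) (nat_lit 301) .nil))))) .nil)) 
(.lf (nat_lit 113585) (.g (nat_lit 2257) (.e (nat_lit 5902) (nat_lit 320) (.e (nat_lit 1199) (nat_lit 88) (.e (nat_lit 65630) (nat_lit 14) (.e (nat_lit 401438) (nat_lit 9) (.e (nat_lit 426544) (nat_lit 30) (.e (nat_lit 368384) (nat_lit 0) .nil)))))) (.g (nat_lit 5) .nil .nil))))) (.nd (nat_lit 4) (.nd (nat_lit 5) 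
(.lf (nat_lit 113545) (.g (nat_lit 2772) (.e (nat_lit 5902) (nat_lit 320) (.e (nat_lit 1190) (nat_lit 88) (.e (nat_lit 65624) (nat_lit 12) (.e (nat_lit 385106) (nat_lit 50) (.e (nat_lit 786481) (nat_lit 30) (.e (nat_lit 368384) (nat_lit 0) .nil)))))) (.g (nat_lit 5) .nil .nil))) 
(.lf (nat_lit 113577) (.g (nat_lit 3012) (.e (nat_lit 5902) (nat_lit 320) (.e (nat_lit 1199) (nat_lit 88) (.e (nat_lit 65624) (nat_lit 12) (.e (nat_lit 385106) (nat_lit 50) (.e (nat_lit 786483) (nat_lit 30) (.e (nat_lit 368384) (nat_lit 0) .nil)))))) (.g (nat_lit 5) .nil .nil)))) (.nd (nat_lit 5) 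
(.lf (nat_lit 113561) (.g (nat_lit 3159) (.e (nat_lit 5902) (nat_lit 320) (.e (nat_lit 1199) (nat_lit 88) (.e (nat_lit 65610) (nat_lit 10) (.e (nat_lit 344169) (nat_lit 40) (.e (nat_lit 671748) (nat_lit 0) (.e (nat_lit 1586) (nat_lit 111) (.e (nat_lit 368384) (nat_lit 0) .nil))))))) (.g (nat_lit 6) .nil .nil))) 
(.lf (nat_lit 113593) (.g (nat_lit 3254) (.e (nat_lit 5902) (nat_lit 320) (.e (nat_lit 1200) (nat_lit 88) (.e (nat_lit 65619) (nat_lit 10) (.e (nat_lit 344169) (nat_lit 40) (.e (nat_lit 671748) (nat_lit 0) (.e (nat_lit 1589) (nat_lit 111) (.e (nat_lit 368384) (nat_lit 0) .nil))))))) (.g (nat_lit 6) .nil .nil)))))) (.nd (nat_lit 3) (.nd (nat_lit 4) (.nd (nat_lit 5) 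
(.lf (nat_lit 113541) (.g (nat_lit 3208) (.e (nat_lit 5902) (nat_lit 320) (.e (nat_lit 1190) (nat_lit 88) (.e (nat_lit 65619) (nat_lit 10) (.e (nat_lit 344169) (nat_lit 40) (.e (nat_lit 671748) (nat_lit 0) (.e (nat_lit 1595) (nat_lit 111) (.e (nat_lit 368384) (nat_lit 0) .nil))))))) (.g (nat_lit 6) .nil .nil))) 
(.lf (nat_lit 113573) (.g (nat_lit 2525) (.e (nat_lit 5902) (nat_lit 320) (.e (nat_lit 1199) (nat_lit 88) (.e (nat_lit 65622) (nat_lit 12) (.e (nat_lit 385106) (nat_lit 50) (.e (nat_lit 786483) (nat_lit 30) (.e (nat_lit 368384) (nat_lit 0) .nil)))))) (.g (nat_lit 5) .nil .nil)))) (.nd (nat_lit 5) 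
(.lf (nat_lit 113557) (.g (nat_lit 1562) (.e (nat_lit 5902) (nat_lit 320) (.e (nat_lit 1199) (nat_lit 88) (.e (nat_lit 65610) (nat_lit 10) (.e (nat_lit 344168) (nat_lit 40) (.e (nat_lit 671747) (nat_lit 0) .nil))))) .nil)) 
(.lf (nat_lit 113589) (.g (nat_lit 1812) (.e (nat_lit 5902) (nat_lit 320) (.e (nat_lit 1200) (nat_lit 88) (.e (nat_lit 65619) (nat_lit 10) (.e (nat_lit 344168) (nat_lit 40) (.e (nat_lit 671746) (nat_lit 0) .nil))))) .nil)))) (.nd (nat_lit 4) (.nd (nat_lit 5) 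
(.lf (nat_lit 113549) (.g (nat_lit 2538) (.e (nat_lit 5902) (nat_lit 320) (.e (nat_lit 1190) (nat_lit 88) (.e (nat_lit 65628) (nat_lit 14) (.e (nat_lit 401459) (nat_lit 13) (.e (nat_lit 483374) (nat_lit 22) .nil))))) .nil)) 
(.lf (nat_lit 113581) (.g (nat_lit 2023) (.e (nat_lit 5902) (nat_lit 320) (.e (nat_lit 1199) (nat_lit 88) (.e (nat_lit 65630) (nat_lit 14) (.e (nat_lit 401436) (nat_lit 9) (.e (nat_lit 426544) (nat_lit 30) (.e (nat_lit 368384) (nat_lit 0) .nil)))))) (.g (nat_lit 5) .nil .nil)))) (.nd (nat_lit 5) 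
(.lf (nat_lit 113565) (.g (nat_lit 2705) (.e (nat_lit 5902) (nat_lit 320) (.e (nat_lit 1199) (nat_lit 88) (.e (nat_lit 65610) (nat_lit 10) (.e (nat_lit 344169) (nat_lit 40) (.e (nat_lit 671748) (nat_lit 0) (.e (nat_lit 1599) (nat_lit 111) (.e (nat_lit 368384) (nat_lit 0) .nil))))))) (.g (nat_lit 6) .nil .nil))) 
(.lf (nat_lit 113597) (.g (nat_lit 2051) (.e (nat_lit 5902) (nat_lit 320) (.e (nat_lit 1200) (nat_lit 88) (.e (nat_lit 65628) (nat_lit 14) (.e (nat_lit 401436) (nat_lit 9) (.e (nat_lit 426544) (nat_lit 30) (.e (nat_lit 368384) (nat_lit 0) .nil)))))) (.g (nat_lit 5) .nil .nil))))))) (.nd (nat_lit 2) (.nd (nat_lit 3) (.nd (nat_lit 4) (.nd (nat_lit 5) 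
(.lf (nat_lit 113539) (.g (nat_lit 3359) (.e (nat_lit 5902) (nat_lit 320) (.e (nat_lit 1190) (nat_lit 88) (.e (nat_lit 65619) (nat_lit 10) (.e (nat_lit 344169) (nat_lit 40) (.e (nat_lit 671748) (nat_lit 0) (.e (nat_lit 1586) (nat_lit 111) (.e (nat_lit 368384) (nat_lit 0) .nil))))))) (.g (nat_lit 6) .nil .nil))) 
(.lf (nat_lit 113571) (.g (nat_lit 2594) (.e (nat_lit 5902) (nat_lit 320) (.e (nat_lit 1199) (nat_lit 88) (.e (nat_lit 65622) (nat_lit 12) (.e (nat_lit 385105) (nat_lit 50) (.e (nat_lit 786483) (nat_lit 30) (.e (nat_lit 368384) (nat_lit 0) .nil)))))) (.g (nat_lit 5) .nil .nil)))) (.nd (nat_lit 5) 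
(.lf (nat_lit 113555) (.g (nat_lit 317) (.e (nat_lit 5902) (nat_lit 320) (.e (nat_lit 1199) (nat_lit 88) (.e (nat_lit 65583) (nat_lit 7) .nil))) .nil)) 
(.lf (nat_lit 113587) (.g (nat_lit 1794) (.e (nat_lit 5902) (nat_lit 320) (.e (nat_lit 1199) (nat_lit 88) (.e (nat_lit 65630) (nat_lit 14) (.e (nat_lit 401458) (nat_lit 13) (.e (nat_lit 483396) (nat_lit 24) .nil))))) .nil)))) (.nd (nat_lit 4) (.nd (nat_lit 5) 
(.lf (nat_lit 113547) (.g (nat_lit 1632) (.e (nat_lit 5902) (nat_lit 320) (.e (nat_lit 1190) (nat_lit 88) (.e (nat_lit 65628) (nat_lit 14) (.e (nat_lit 401436) (nat_lit 9) (.e (nat_lit 426546) (nat_lit 30) (.e (nat_lit 368384) (nat_lit 0) .nil)))))) (.g (nat_lit 5) .nil .nil))) 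
(.lf (nat_lit 113579) (.g (nat_lit 1661) (.e (nat_lit 5902) (nat_lit 320) (.e (nat_lit 1199) (nat_lit 88) (.e (nat_lit 65628) (nat_lit 14) (.e (nat_lit 401458) (nat_lit 13) (.e (nat_lit 483383) (nat_lit 23) (.e (nat_lit 335878) (nat_lit 0) (.e (nat_lit 1028) (nat_lit 81) .nil))))))) (.g (nat_lit 4) .nil .nil)))) (.nd (nat_lit 5) 
(.lf (nat_lit 113563) (.g (nat_lit 2995) (.e (nat_lit 5902) (nat_lit 320) (.e (nat_lit 1199) (nat_lit 88) (.e (nat_lit 65610) (nat_lit 10) (.e (nat_lit 344169) (nat_lit 40) (.e (nat_lit 671748) (nat_lit 0) (.e (nat_lit 1595) (nat_lit 111) (.e (nat_lit 368384) (nat_lit 0) .nil))))))) (.g (nat_lit 6) .nil .nil))) 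
(.lf (nat_lit 113595) (.g (nat_lit 2946) (.e (nat_lit 5902) (nat_lit 320) (.e (nat_lit 1200) (nat_lit 88) (.e (nat_lit 65619) (nat_lit 10) (.e (nat_lit 344169) (nat_lit 40) (.e (nat_lit 671748) (nat_lit 0) (.e (nat_lit 1598) (nat_lit 111) (.e (nat_lit 368384) (nat_lit 0) .nil))))))) (.g (nat_lit 6) .nil .nil)))))) (.nd (nat_lit 3) (.nd (nat_lit 4) (.nd (nat_lit 5) 
(.lf (nat_lit 113543) (.g (nat_lit 2899) (.e (nat_lit 5902) (nat_lit 320) (.e (nat_lit 1190) (nat_lit 88) (.e (nat_lit 65619) (nat_lit 10) (.e (nat_lit 344169) (nat_lit 40) (.e (nat_lit 671748) (nat_lit 0) (.e (nat_lit 1599) (nat_lit 111) (.e (nat_lit 368384) (nat_lit 0) .nil))))))) (.g (nat_lit 6) .nil .nil))) 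
(.lf (nat_lit 113575) (.g (nat_lit 2783) (.e (nat_lit 5902) (nat_lit 320) (.e (nat_lit 1199) (nat_lit 88) (.e (nat_lit 65624) (nat_lit 12) (.e (nat_lit 385105) (nat_lit 50) (.e (nat_lit 786483) (nat_lit 30) (.e (nat_lit 368384) (nat_lit 0) .nil)))))) (.g (nat_lit 5) .nil .nil)))) (.nd (nat_lit 5) 
(.lf (nat_lit 113559) (.g (nat_lit 1713) (.e (nat_lit 5902) (nat_lit 320) (.e (nat_lit 1199) (nat_lit 88) (.e (nat_lit 65610) (nat_lit 10) (.e (nat_lit 344169) (nat_lit 40) (.e (nat_lit 671746) (nat_lit 0) (.e (nat_lit 1586) (nat_lit 111) (.e (nat_lit 368384) (nat_lit 0) .nil))))))) (.g (nat_lit 4) .nil .nil))) 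
(.lf (nat_lit 113591) (.g (nat_lit 1857) (.e (nat_lit 5902) (nat_lit 320) (.e (nat_lit 1200) (nat_lit 88) (.e (nat_lit 65619) (nat_lit 10) (.e (nat_lit 344169) (nat_lit 40) (.e (nat_lit 671746) (nat_lit 0) .nil))))) .nil)))) (.nd (nat_lit 4) (.nd (nat_lit 5) 
(.lf (nat_lit 113551) (.g (nat_lit 1854) (.e (nat_lit 5902) (nat_lit 320) (.e (nat_lit 1190) (nat_lit 88) (.e (nat_lit 65630) (nat_lit 14) (.e (nat_lit 401436) (nat_lit 9) (.e (nat_lit 426546) (nat_lit 30) .nil))))) .nil)) 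
(.lf (nat_lit 113583) (.g (nat_lit 2486) (.e (nat_lit 5902) (nat_lit 320) (.e (nat_lit 1199) (nat_lit 88) (.e (nat_lit 65630) (nat_lit 14) (.e (nat_lit 401437) (nat_lit 9) (.e (nat_lit 426544) (nat_lit 30) (.e (nat_lit 368384) (nat_lit 0) .nil)))))) (.g (nat_lit 5) .nil .nil)))) (.nd (nat_lit 5) 
(.lf (nat_lit 113567) (.g (nat_lit 1814) (.e (nat_lit 5902) (nat_lit 320) (.e (nat_lit 1199) (nat_lit 88) (.e (nat_lit 65617) (nat_lit 10) (.e (nat_lit 344169) (nat_lit 40) (.e (nat_lit 671746) (nat_lit 0) .nil))))) .nil)) 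
(.lf (nat_lit 113599) (.g (nat_lit 1235) (.e (nat_lit 5902) (nat_lit 320) (.e (nat_lit 1200) (nat_lit 88) (.e (nat_lit 65628) (nat_lit 14) (.e (nat_lit 401437) (nat_lit 9) .nil)))) .nil))))))))

noncomputable def tv1531 : DT := (.nd (nat_lit 0) (.nd (nat_lit 1) (.nd (nat_lit 2) (.nd (nat_lit 3) (.nd (nat_lit 4) (.nd (nat_lit 5) 
(.lf (nat_lit 113600) (.g (nat_lit 2733) (.e (nat_lit 5902) (nat_lit 320) (.e (nat_lit 1200) (nat_lit 88) (.e (nat_lit 65628) (nat_lit 14) (.e (nat_lit 401437) (nat_lit 9) (.e (nat_lit 426544) (nat_lit 30) (.e (nat_lit 368384) (nat_lit 0) .nil)))))) (.g (nat_lit 5) .nil .nil))) 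
(.lf (nat_lit 113632) (.g (nat_lit 2200) (.e (nat_lit 5902) (nat_lit 320) (.e (nat_lit 1219) (nat_lit 90) (.e (nat_lit 81924) (nat_lit 0) (.e (nat_lit 3747) (nat_lit 228) (.e (nat_lit 786483) (nat_lit 30) (.e (nat_lit 368384) (nat_lit 0) .nil)))))) (.g (nat_lit 5) .nil .nil)))) (.nd (nat_lit 5) 
(.lf (nat_lit 113616) (.g (nat_lit 1501) (.e (nat_lit 5902) (nat_lit 320) (.e (nat_lit 1209) (nat_lit 89) (.e (nat_lit 73781) (nat_lit 32) (.e (nat_lit 3089) (nat_lit 191) (.e (nat_lit 483383) (nat_lit 23) (.e (nat_lit 335878) (nat_lit 0) (.e (nat_lit 1028) (nat_lit 81) .nil))))))) (.g (nat_lit 4) .nil .nil))) 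
(.lf (nat_lit 113648) (.g (nat_lit 2821) (.e (nat_lit 5902) (nat_lit 320) (.e (nat_lit 1220) (nat_lit 90) (.e (nat_lit 81938) (nat_lit 20) (.e (nat_lit 2006) (nat_lit 138) (.e (nat_lit 671748) (nat_lit 0) (.e (nat_lit 1586) (nat_lit 111) (.e (nat_lit 368384) (nat_lit 0) .nil))))))) (.g (nat_lit 6) .nil .nil))))) (.nd (nat_lit 4) (.nd (nat_lit 5) 
(.lf (nat_lit 113608) (.g (nat_lit 2543) (.e (nat_lit 5902) (nat_lit 320) (.e (nat_lit 1200) (nat_lit 88) (.e (nat_lit 65628) (nat_lit 14) (.e (nat_lit 401459) (nat_lit 13) (.e (nat_lit 483400) (nat_lit 25) .nil))))) .nil)) 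
(.lf (nat_lit 113640) (.g (nat_lit 493) (.e (nat_lit 5902) (nat_lit 320) (.e (nat_lit 1220) (nat_lit 90) (.e (nat_lit 81938) (nat_lit 20) .nil))) .nil))) (.nd (nat_lit 5) 
(.lf (nat_lit 113624) (.g (nat_lit 1630) (.e (nat_lit 5902) (nat_lit 320) (.e (nat_lit 1209) (nat_lit 89) (.e (nat_lit 73782) (nat_lit 32) (.e (nat_lit 3090) (nat_lit 191) (.e (nat_lit 483396) (nat_lit 24) .nil))))) .nil)) 
(.lf (nat_lit 113656) (.g (nat_lit 1687) (.e (nat_lit 5902) (nat_lit 320) (.e (nat_lit 1220) (nat_lit 90) (.e (nat_lit 81950) (nat_lit 21) (.e (nat_lit 57872) (nat_lit 264) .nil)))) .nil))))) (.nd (nat_lit 3) (.nd (nat_lit 4) (.nd (nat_lit 5) 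
(.lf (nat_lit 113604) (.g (nat_lit 1225) (.e (nat_lit 5902) (nat_lit 320) (.e (nat_lit 1200) (nat_lit 88) (.e (nat_lit 65628) (nat_lit 14) (.e (nat_lit 401458) (nat_lit 13) .nil)))) .nil)) 
(.lf (nat_lit 113636) (.g (nat_lit 477) (.e (nat_lit 5902) (nat_lit 320) (.e (nat_lit 1219) (nat_lit 90) (.e (nat_lit 81947) (nat_lit 20) .nil))) .nil))) (.nd (nat_lit 5) 
(.lf (nat_lit 113620) (.g (nat_lit 1511) (.e (nat_lit 5902) (nat_lit 320) (.e (nat_lit 1209) (nat_lit 89) (.e (nat_lit 73782) (nat_lit 32) (.e (nat_lit 2856) (nat_lit 184) (.e (nat_lit 426533) (nat_lit 28) .nil))))) .nil)) 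
(.lf (nat_lit 113652) (.g (nat_lit 2177) (.e (nat_lit 5902) (nat_lit 320) (.e (nat_lit 1220) (nat_lit 90) (.e (nat_lit 81938) (nat_lit 20) (.e (nat_lit 2006) (nat_lit 138) (.e (nat_lit 671748) (nat_lit 0) (.e (nat_lit 1599) (nat_lit 111) (.e (nat_lit 368384) (nat_lit 0) .nil))))))) (.g (nat_lit 6) .nil .nil))))) (.nd (nat_lit 4) (.nd (nat_lit 5) 
(.lf (nat_lit 113612) (.g (nat_lit 2495) (.e (nat_lit 5902) (nat_lit 320) (.e (nat_lit 1200) (nat_lit 88) (.e (nat_lit 65630) (nat_lit 14) (.e (nat_lit 401437) (nat_lit 9) (.e (nat_lit 426546) (nat_lit 30) (.e (nat_lit 368384) (nat_lit 0) .nil)))))) (.g (nat_lit 5) .nil .nil))) 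
(.lf (nat_lit 113644) (.g (nat_lit 2578) (.e (nat_lit 5902) (nat_lit 320) (.e (nat_lit 1220) (nat_lit 90) (.e (nat_lit 81938) (nat_lit 20) (.e (nat_lit 2005) (nat_lit 138) (.e (nat_lit 671748) (nat_lit 0) (.e (nat_lit 1589) (nat_lit 111) (.e (nat_lit 368384) (nat_lit 0) .nil))))))) (.g (nat_lit 6) .nil .nil)))) (.nd (nat_lit 5) 
(.lf (nat_lit 113628) (.g (nat_lit 572) (.e (nat_lit 5902) (nat_lit 320) (.e (nat_lit 1210) (nat_lit 89) (.e (nat_lit 73781) (nat_lit 32) (.e (nat_lit 2854) (nat_lit 184) (.e (nat_lit 426546) (nat_lit 30) .nil))))) .nil)) 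
(.lf (nat_lit 113660) (.g (nat_lit 2257) (.e (nat_lit 5902) (nat_lit 320) (.e (nat_lit 1220) (nat_lit 90) (.e (nat_lit 81950) (nat_lit 21) (.e (nat_lit 57873) (nat_lit 264) (.e (nat_lit 1200) (nat_lit 88) .nil))))) .nil)))))) (.nd (nat_lit 2) (.nd (nat_lit 3) (.nd (nat_lit 4) (.nd (nat_lit 5) 
(.lf (nat_lit 113602) (.g (nat_lit 2389) (.e (nat_lit 5902) (nat_lit 320) (.e (nat_lit 1200) (nat_lit 88) (.e (nat_lit 65628) (nat_lit 14) (.e (nat_lit 401438) (nat_lit 9) (.e (nat_lit 426544) (nat_lit 30) (.e (nat_lit 368384) (nat_lit 0) .nil)))))) (.g (nat_lit 5) .nil .nil))) 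
(.lf (nat_lit 113634) (.g (nat_lit 2131) (.e (nat_lit 5902) (nat_lit 320) (.e (nat_lit 1219) (nat_lit 90) (.e (nat_lit 81924) (nat_lit 0) (.e (nat_lit 3748) (nat_lit 228) (.e (nat_lit 786483) (nat_lit 30) (.e (nat_lit 368384) (nat_lit 0) .nil)))))) (.g (nat_lit 5) .nil .nil)))) (.nd (nat_lit 5) 
(.lf (nat_lit 113618) (.g (nat_lit 1426) (.e (nat_lit 5902) (nat_lit 320) (.e (nat_lit 1209) (nat_lit 89) (.e (nat_lit 73782) (nat_lit 32) (.e (nat_lit 2854) (nat_lit 184) (.e (nat_lit 426546) (nat_lit 30) (.e (nat_lit 368384) (nat_lit 0) .nil)))))) (.g (nat_lit 4) .nil .nil))) 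
(.lf (nat_lit 113650) (.g (nat_lit 2452) (.e (nat_lit 5902) (nat_lit 320) (.e (nat_lit 1220) (nat_lit 90) (.e (nat_lit 81938) (nat_lit 20) (.e (nat_lit 2006) (nat_lit 138) (.e (nat_lit 671748) (nat_lit 0) (.e (nat_lit 1595) (nat_lit 111) (.e (nat_lit 368384) (nat_lit 0) .nil))))))) (.g (nat_lit 6) .nil .nil))))) (.nd (nat_lit 4) (.nd (nat_lit 5) 
(.lf (nat_lit 113610) (.g (nat_lit 3019) (.e (nat_lit 5902) (nat_lit 320) (.e (nat_lit 1200) (nat_lit 88) (.e (nat_lit 65629) (nat_lit 14) (.e (nat_lit 401459) (nat_lit 13) (.e (nat_lit 483374) (nat_lit 22) (.e (nat_lit 327684) (nat_lit 0) (.e (nat_lit 81) (nat_lit 0) .nil))))))) (.g (nat_lit 4) .nil .nil))) 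
(.lf (nat_lit 113642) (.g (nat_lit 1415) (.e (nat_lit 5902) (nat_lit 320) (.e (nat_lit 1220) (nat_lit 90) (.e (nat_lit 81938) (nat_lit 20) (.e (nat_lit 2005) (nat_lit 138) (.e (nat_lit 671747) (nat_lit 0) .nil))))) .nil))) (.nd (nat_lit 5) 
(.lf (nat_lit 113626) (.g (nat_lit 1053) (.e (nat_lit 5902) (nat_lit 320) (.e (nat_lit 1209) (nat_lit 89) (.e (nat_lit 73795) (nat_lit 47) (.e (nat_lit 123165) (nat_lit 256) (.e (nat_lit 323) (nat_lit 24) (.e (nat_lit 368384) (nat_lit 0) .nil)))))) (.g (nat_lit 5) .nil .nil))) 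
(.lf (nat_lit 113658) (.g (nat_lit 2356) (.e (nat_lit 5902) (nat_lit 320) (.e (nat_lit 1220) (nat_lit 90) (.e (nat_lit 81950) (nat_lit 21) (.e (nat_lit 57872) (nat_lit 264) (.e (nat_lit 1200) (nat_lit 88) .nil))))) .nil))))) (.nd (nat_lit 3) (.nd (nat_lit 4) (.nd (nat_lit 5) 
(.lf (nat_lit 113606) (.g (nat_lit 2589) (.e (nat_lit 5902) (nat_lit 320) (.e (nat_lit 1200) (nat_lit 88) (.e (nat_lit 65628) (nat_lit 14) (.e (nat_lit 401459) (nat_lit 13) (.e (nat_lit 483375) (nat_lit 22) .nil))))) .nil)) 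
(.lf (nat_lit 113638) (.g (nat_lit 1346) (.e (nat_lit 5902) (nat_lit 320) (.e (nat_lit 1219) (nat_lit 90) (.e (nat_lit 81947) (nat_lit 20) (.e (nat_lit 2005) (nat_lit 138) (.e (nat_lit 671747) (nat_lit 0) .nil))))) .nil))) (.nd (nat_lit 5) 
(.lf (nat_lit 113622) (.g (nat_lit 2022) (.e (nat_lit 5902) (nat_lit 320) (.e (nat_lit 1209) (nat_lit 89) (.e (nat_lit 73782) (nat_lit 32) (.e (nat_lit 2857) (nat_lit 184) (.e (nat_lit 426546) (nat_lit 30) (.e (nat_lit 368384) (nat_lit 0) .nil)))))) (.g (nat_lit 5) .nil .nil))) 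
(.lf (nat_lit 113654) (.g (nat_lit 2032) (.e (nat_lit 5902) (nat_lit 320) (.e (nat_lit 1220) (nat_lit 90) (.e (nat_lit 81950) (nat_lit 21) (.e (nat_lit 57870) (nat_lit 264) (.e (nat_lit 1190) (nat_lit 88) .nil))))) .nil)))) (.nd (nat_lit 4) (.nd (nat_lit 5) 
(.lf (nat_lit 113614) (.g (nat_lit 3270) (.e (nat_lit 5902) (nat_lit 320) (.e (nat_lit 1200) (nat_lit 88) (.e (nat_lit 65630) (nat_lit 14) (.e (nat_lit 401459) (nat_lit 13) (.e (nat_lit 483374) (nat_lit 22) .nil))))) .nil)) 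
(.lf (nat_lit 113646) (.g (nat_lit 2259) (.e (nat_lit 5902) (nat_lit 320) (.e (nat_lit 1220) (nat_lit 90) (.e (nat_lit 81938) (nat_lit 20) (.e (nat_lit 2005) (nat_lit 138) (.e (nat_lit 671748) (nat_lit 0) (.e (nat_lit 1598) (nat_lit 111) (.e (nat_lit 368384) (nat_lit 0) .nil))))))) (.g (nat_lit 6) .nil .nil)))) (.nd (nat_lit 5) 
(.lf (nat_lit 113630) (.g (nat_lit 1697) (.e (nat_lit 5902) (nat_lit 320) (.e (nat_lit 1210) (nat_lit 89) (.e (nat_lit 73782) (nat_lit 32) (.e (nat_lit 2856) (nat_lit 184) (.e (nat_lit 426546) (nat_lit 30) .nil))))) .nil)) 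
(.lf (nat_lit 113662) (.g (nat_lit 439) (.e (nat_lit 5902) (nat_lit 320) (.e (nat_lit 1220) (nat_lit 90) (.e (nat_lit 81959) (nat_lit 24) .nil))) .nil))))))) (.nd (nat_lit 1) (.nd (nat_lit 2) (.nd (nat_lit 3) (.nd (nat_lit 4) (.nd (nat_lit 5) 
(.lf (nat_lit 113601) (.g (nat_lit 2874) (.e (nat_lit 5902) (nat_lit 320) (.e (nat_lit 1200) (nat_lit 88) (.e (nat_lit 65628) (nat_lit 14) (.e (nat_lit 401437) (nat_lit 9) (.e (nat_lit 426546) (nat_lit 30) (.e (nat_lit 368384) (nat_lit 0) .nil)))))) (.g (nat_lit 5) .nil .nil))) 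
(.lf (nat_lit 113633) (.g (nat_lit 1591) (.e (nat_lit 5902) (nat_lit 320) (.e (nat_lit 1219) (nat_lit 90) (.e (nat_lit 81924) (nat_lit 0) (.e (nat_lit 3748) (nat_lit 228) (.e (nat_lit 786481) (nat_lit 30) (.e (nat_lit 368384) (nat_lit 0) .nil)))))) (.g (nat_lit 5) .nil .nil)))) (.nd (nat_lit 5) 
(.lf (nat_lit 113617) (.g (nat_lit 460) (.e (nat_lit 5902) (nat_lit 320) (.e (nat_lit 1209) (nat_lit 89) (.e (nat_lit 73782) (nat_lit 32) .nil))) .nil)) 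
(.lf (nat_lit 113649) (.g (nat_lit 2692) (.e (nat_lit 5902) (nat_lit 320) (.e (nat_lit 1220) (nat_lit 90) (.e (nat_lit 81938) (nat_lit 20) (.e (nat_lit 2006) (nat_lit 138) (.e (nat_lit 671748) (nat_lit 0) (.e (nat_lit 1589) (nat_lit 111) (.e (nat_lit 368384) (nat_lit 0) .nil))))))) (.g (nat_lit 6) .nil .nil))))) (.nd (nat_lit 4) (.nd (nat_lit 5) 
(.lf (nat_lit 113609) (.g (nat_lit 3548) (.e (nat_lit 5902) (nat_lit 320) (.e (nat_lit 1200) (nat_lit 88) (.e (nat_lit 65629) (nat_lit 14) (.e (nat_lit 401459) (nat_lit 13) (.e (nat_lit 483350) (nat_lit 17) .nil))))) .nil)) 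
(.lf (nat_lit 113641) (.g (nat_lit 1202) (.e (nat_lit 5902) (nat_lit 320) (.e (nat_lit 1220) (nat_lit 90) (.e (nat_lit 81938) (nat_lit 20) (.e (nat_lit 2005) (nat_lit 138) .nil)))) .nil))) (.nd (nat_lit 5) 
(.lf (nat_lit 113625) (.g (nat_lit 1188) (.e (nat_lit 5902) (nat_lit 320) (.e (nat_lit 1209) (nat_lit 89) (.e (nat_lit 73789) (nat_lit 45) (.e (nat_lit 1386) (nat_lit 105) (.e (nat_lit 319232) (nat_lit 30) (.e (nat_lit 360454) (nat_lit 0) .nil)))))) (.g (nat_lit 4) .nil .nil))) 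
(.lf (nat_lit 113657) (.g (nat_lit 2357) (.e (nat_lit 5902) (nat_lit 320) (.e (nat_lit 1220) (nat_lit 90) (.e (nat_lit 81950) (nat_lit 21) (.e (nat_lit 57872) (nat_lit 264) (.e (nat_lit 1190) (nat_lit 88) .nil))))) .nil))))) (.nd (nat_lit 3) (.nd (nat_lit 4) (.nd (nat_lit 5) 
(.lf (nat_lit 113605) (.g (nat_lit 2801) (.e (nat_lit 5902) (nat_lit 320) (.e (nat_lit 1200) (nat_lit 88) (.e (nat_lit 65628) (nat_lit 14) (.e (nat_lit 401459) (nat_lit 13) (.e (nat_lit 483374) (nat_lit 22) (.e (nat_lit 327684) (nat_lit 0) (.e (nat_lit 81) (nat_lit 0) .nil))))))) (.g (nat_lit 4) .nil .nil))) 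
(.lf (nat_lit 113637) (.g (nat_lit 953) (.e (nat_lit 5902) (nat_lit 320) (.e (nat_lit 1219) (nat_lit 90) (.e (nat_lit 81947) (nat_lit 20) (.e (nat_lit 2005) (nat_lit 138) .nil)))) .nil))) (.nd (nat_lit 5) 
(.lf (nat_lit 113621) (.g (nat_lit 2062) (.e (nat_lit 5902) (nat_lit 320) (.e (nat_lit 1209) (nat_lit 89) (.e (nat_lit 73782) (nat_lit 32) (.e (nat_lit 2857) (nat_lit 184) (.e (nat_lit 426544) (nat_lit 30) (.e (nat_lit 368384) (nat_lit 0) .nil)))))) (.g (nat_lit 5) .nil .nil))) 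
(.lf (nat_lit 113653) (.g (nat_lit 1730) (.e (nat_lit 5902) (nat_lit 320) (.e (nat_lit 1220) (nat_lit 90) (.e (nat_lit 81950) (nat_lit 21) (.e (nat_lit 57870) (nat_lit 264) .nil)))) .nil)))) (.nd (nat_lit 4) (.nd (nat_lit 5) 
(.lf (nat_lit 113613) (.g (nat_lit 1749) (.e (nat_lit 5902) (nat_lit 320) (.e (nat_lit 1200) (nat_lit 88) (.e (nat_lit 65630) (nat_lit 14) (.e (nat_lit 401458) (nat_lit 13) (.e (nat_lit 483396) (nat_lit 24) .nil))))) .nil)) 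
(.lf (nat_lit 113645) (.g (nat_lit 2429) (.e (nat_lit 5902) (nat_lit 320) (.e (nat_lit 1220) (nat_lit 90) (.e (nat_lit 81938) (nat_lit 20) (.e (nat_lit 2005) (nat_lit 138) (.e (nat_lit 671748) (nat_lit 0) (.e (nat_lit 1595) (nat_lit 111) (.e (nat_lit 368384) (nat_lit 0) .nil))))))) (.g (nat_lit 6) .nil .nil)))) (.nd (nat_lit 5) 
(.lf (nat_lit 113629) (.g (nat_lit 1641) (.e (nat_lit 5902) (nat_lit 320) (.e (nat_lit 1210) (nat_lit 89) (.e (nat_lit 73782) (nat_lit 32) (.e (nat_lit 2856) (nat_lit 184) (.e (nat_lit 426544) (nat_lit 30) .nil))))) .nil)) 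
(.lf (nat_lit 113661) (.g (nat_lit 2015) (.e (nat_lit 5902) (nat_lit 320) (.e (nat_lit 1220) (nat_lit 90) (.e (nat_lit 81950) (nat_lit 21) (.e (nat_lit 65280) (nat_lit 267) .nil)))) .nil)))))) (.nd (nat_lit 2) (.nd (nat_lit 3) (.nd (nat_lit 4) (.nd (nat_lit 5) 
(.lf (nat_lit 113603) (.g (nat_lit 2319) (.e (nat_lit 5902) (nat_lit 320) (.e (nat_lit 1200) (nat_lit 88) (.e (nat_lit 65628) (nat_lit 14) (.e (nat_lit 401438) (nat_lit 9) (.e (nat_lit 426546) (nat_lit 30) (.e (nat_lit 368384) (nat_lit 0) .nil)))))) (.g (nat_lit 5) .nil .nil))) 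
(.lf (nat_lit 113635) (.g (nat_lit 1288) (.e (nat_lit 5902) (nat_lit 320) (.e (nat_lit 1219) (nat_lit 90) (.e (nat_lit 81946) (nat_lit 20) (.e (nat_lit 2005) (nat_lit 138) (.e (nat_lit 671747) (nat_lit 0) .nil))))) .nil))) (.nd (nat_lit 5) 
(.lf (nat_lit 113619) (.g (nat_lit 1528) (.e (nat_lit 5902) (nat_lit 320) (.e (nat_lit 1209) (nat_lit 89) (.e (nat_lit 73782) (nat_lit 32) (.e (nat_lit 2855) (nat_lit 184) (.e (nat_lit 426546) (nat_lit 30) (.e (nat_lit 368384) (nat_lit 0) .nil)))))) (.g (nat_lit 4) .nil .nil))) 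
(.lf (nat_lit 113651) (.g (nat_lit 2365) (.e (nat_lit 5902) (nat_lit 320) (.e (nat_lit 1220) (nat_lit 90) (.e (nat_lit 81938) (nat_lit 20) (.e (nat_lit 2006) (nat_lit 138) (.e (nat_lit 671748) (nat_lit 0) (.e (nat_lit 1598) (nat_lit 111) (.e (nat_lit 368384) (nat_lit 0) .nil))))))) (.g (nat_lit 6) .nil .nil))))) (.nd (nat_lit 4) (.nd (nat_lit 5) 
(.lf (nat_lit 113611) (.g (nat_lit 1615) (.e (nat_lit 5902) (nat_lit 320) (.e (nat_lit 1200) (nat_lit 88) (.e (nat_lit 65630) (nat_lit 14) (.e (nat_lit 401437) (nat_lit 9) (.e (nat_lit 426533) (nat_lit 28) .nil))))) .nil)) 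
(.lf (nat_lit 113643) (.g (nat_lit 2627) (.e (nat_lit 5902) (nat_lit 320) (.e (nat_lit 1220) (nat_lit 90) (.e (nat_lit 81938) (nat_lit 20) (.e (nat_lit 2005) (nat_lit 138) (.e (nat_lit 671748) (nat_lit 0) (.e (nat_lit 1586) (nat_lit 111) (.e (nat_lit 368384) (nat_lit 0) .nil))))))) (.g (nat_lit 6) .nil .nil)))) (.nd (nat_lit 5) 
(.lf (nat_lit 113627) (.g (nat_lit 1062) (.e (nat_lit 5902) (nat_lit 320) (.e (nat_lit 1209) (nat_lit 89) (.e (nat_lit 73795) (nat_lit 47) (.e (nat_lit 123166) (nat_lit 256) (.e (nat_lit 323) (nat_lit 24) (.e (nat_lit 368384) (nat_lit 0) .nil)))))) (.g (nat_lit 5) .nil .nil))) 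
(.lf (nat_lit 113659) (.g (nat_lit 1655) (.e (nat_lit 5902) (nat_lit 320) (.e (nat_lit 1220) (nat_lit 90) (.e (nat_lit 81950) (nat_lit 21) (.e (nat_lit 57873) (nat_lit 264) .nil)))) .nil))))) (.nd (nat_lit 3) (.nd (nat_lit 4) (.nd (nat_lit 5) 
(.lf (nat_lit 113607) (.g (nat_lit 2306) (.e (nat_lit 5902) (nat_lit 320) (.e (nat_lit 1200) (nat_lit 88) (.e (nat_lit 65628) (nat_lit 14) (.e (nat_lit 401459) (nat_lit 13) (.e (nat_lit 483399) (nat_lit 25) .nil))))) .nil)) 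
(.lf (nat_lit 113639) (.g (nat_lit 1112) (.e (nat_lit 5902) (nat_lit 320) (.e (nat_lit 1219) (nat_lit 90) (.e (nat_lit 81957) (nat_lit 24) (.e (nat_lit 123197) (nat_lit 266) .nil)))) .nil))) (.nd (nat_lit 5) 
(.lf (nat_lit 113623) (.g (nat_lit 1759) (.e (nat_lit 5902) (nat_lit 320) (.e (nat_lit 1209) (nat_lit 89) (.e (nat_lit 73782) (nat_lit 32) (.e (nat_lit 3089) (nat_lit 191) (.e (nat_lit 483383) (nat_lit 23) (.e (nat_lit 335878) (nat_lit 0) (.e (nat_lit 1028) (nat_lit 81) .nil))))))) (.g (nat_lit 4) .nil .nil))) 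
(.lf (nat_lit 113655) (.g (nat_lit 1706) (.e (nat_lit 5902) (nat_lit 320) (.e (nat_lit 1220) (nat_lit 90) (.e (nat_lit 81950) (nat_lit 21) (.e (nat_lit 57871) (nat_lit 264) .nil)))) .nil)))) (.nd (nat_lit 4) (.nd (nat_lit 5) 
(.lf (nat_lit 113615) (.g (nat_lit 1748) (.e (nat_lit 5902) (nat_lit 320) (.e (nat_lit 1209) (nat_lit 89) (.e (nat_lit 73781) (nat_lit 32) (.e (nat_lit 2856) (nat_lit 184) (.e (nat_lit 426533) (nat_lit 28) .nil))))) .nil)) 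
(.lf (nat_lit 113647) (.g (nat_lit 2123) (.e (nat_lit 5902) (nat_lit 320) (.e (nat_lit 1220) (nat_lit 90) (.e (nat_lit 81938) (nat_lit 20) (.e (nat_lit 2005) (nat_lit 138) (.e (nat_lit 671748) (nat_lit 0) (.e (nat_lit 1599) (nat_lit 111) (.e (nat_lit 368384) (nat_lit 0) .nil))))))) (.g (nat_lit 6) .nil .nil)))) (.nd (nat_lit 5) 
(.lf (nat_lit 113631) (.g (nat_lit 1839) (.e (nat_lit 5902) (nat_lit 320) (.e (nat_lit 1219) (nat_lit 90) (.e (nat_lit 81924) (nat_lit 0) (.e (nat_lit 3747) (nat_lit 228) (.e (nat_lit 786481) (nat_lit 30) (.e (nat_lit 368384) (nat_lit 0) .nil)))))) (.g (nat_lit 5) .nil .nil))) 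
(.lf (nat_lit 113663) (.g (nat_lit 2552) (.e (nat_lit 5902) (nat_lit 320) (.e (nat_lit 1220) (nat_lit 90) (.e (nat_lit 81959) (nat_lit 24) (.e (nat_lit 123182) (nat_lit 264) (.e (nat_lit 1201) (nat_lit 88) .nil))))) .nil))))))))

noncomputable def tv1532 : DT := (.nd (nat_lit 0) (.nd (nat_lit 1) (.nd (nat_lit 2) (.nd (nat_lit 3) (.nd (nat_lit 4) (.nd (nat_lit 5) 
(.lf (nat_lit 113664) (.g (nat_lit 1477) (.e (nat_lit 5902) (nat_lit 320) (.e (nat_lit 1220) (nat_lit 90) (.e (nat_lit 81959) (nat_lit 24) (.e (nat_lit 123194) (nat_lit 266) .nil)))) .nil)) 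
(.lf (nat_lit 113696) (.g (nat_lit 2014) (.e (nat_lit 5902) (nat_lit 320) (.e (nat_lit 1221) (nat_lit 90) (.e (nat_lit 81959) (nat_lit 24) (.e (nat_lit 123198) (nat_lit 266) (.e (nat_lit 57409) (nat_lit 12) .nil))))) .nil))) (.nd (nat_lit 5) 
(.lf (nat_lit 113680) (.g (nat_lit 3001) (.e (nat_lit 5902) (nat_lit 320) (.e (nat_lit 1221) (nat_lit 90) (.e (nat_lit 81959) (nat_lit 24) (.e (nat_lit 123182) (nat_lit 264) (.e (nat_lit 1028) (nat_lit 81) .nil))))) .nil)) 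
(.lf (nat_lit 113712) (.g (nat_lit 1895) (.e (nat_lit 5904) (nat_lit 320) (.e (nat_lit 1220) (nat_lit 90) (.e (nat_lit 81950) (nat_lit 21) (.e (nat_lit 57873) (nat_lit 264) (.e (nat_lit 1199) (nat_lit 88) .nil))))) .nil)))) (.nd (nat_lit 4) (.nd (nat_lit 5) 
(.lf (nat_lit 113672) (.g (nat_lit 1262) (.e (nat_lit 5902) (nat_lit 320) (.e (nat_lit 1221) (nat_lit 90) (.e (nat_lit 81947) (nat_lit 20) (.e (nat_lit 2005) (nat_lit 138) .nil)))) .nil)) 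
(.lf (nat_lit 113704) (.g (nat_lit 2316) (.e (nat_lit 5903) (nat_lit 320) (.e (nat_lit 1221) (nat_lit 90) (.e (nat_lit 81959) (nat_lit 24) (.e (nat_lit 123182) (nat_lit 264) (.e (nat_lit 1224) (nat_lit 90) (.e (nat_lit 81947) (nat_lit 20) (.e (nat_lit 1003) (nat_lit 81) .nil))))))) (.g (nat_lit 4) .nil .nil)))) (.nd (nat_lit 5) 
(.lf (nat_lit 113688) (.g (nat_lit 1924) (.e (nat_lit 5902) (nat_lit 320) (.e (nat_lit 1221) (nat_lit 90) (.e (nat_lit 81959) (nat_lit 24) (.e (nat_lit 123195) (nat_lit 266) (.e (nat_lit 57412) (nat_lit 12) .nil))))) .nil)) 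
(.lf (nat_lit 113720) (.g (nat_lit 2411) (.e (nat_lit 5905) (nat_lit 320) (.e (nat_lit 1170) (nat_lit 87) (.e (nat_lit 57476) (nat_lit 28) (.e (nat_lit 557107) (nat_lit 15) (.e (nat_lit 188447) (nat_lit 22) (.e (nat_lit 196666) (nat_lit 13) (.e (nat_lit 65546) (nat_lit 0) (.e (nat_lit 1023) (nat_lit 81) .nil)))))))) (.g (nat_lit 5) .nil .nil)))))) 
(.nd (nat_lit 3) (.nd (nat_lit 4) (.nd (nat_lit 5) 
(.lf (nat_lit 113668) (.g (nat_lit 1479) (.e (nat_lit 5902) (nat_lit 320) (.e (nat_lit 1220) (nat_lit 90) (.e (nat_lit 81959) (nat_lit 24) (.e (nat_lit 123198) (nat_lit 266) .nil)))) .nil)) 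
(.lf (nat_lit 113700) (.g (nat_lit 2882) (.e (nat_lit 5903) (nat_lit 320) (.e (nat_lit 1220) (nat_lit 90) (.e (nat_lit 81959) (nat_lit 24) (.e (nat_lit 123182) (nat_lit 264) (.e (nat_lit 1201) (nat_lit 88) .nil))))) .nil))) (.nd (nat_lit 5) 
(.lf (nat_lit 113684) (.g (nat_lit 1674) (.e (nat_lit 5902) (nat_lit 320) (.e (nat_lit 1221) (nat_lit 90) (.e (nat_lit 81959) (nat_lit 24) (.e (nat_lit 123185) (nat_lit 264) .nil)))) .nil)) 
(.lf (nat_lit 113716) (.g (nat_lit 2386) (.e (nat_lit 5904) (nat_lit 320) (.e (nat_lit 1220) (nat_lit 90) (.e (nat_lit 81959) (nat_lit 24) (.e (nat_lit 123195) (nat_lit 266) (.e (nat_lit 57412) (nat_lit 12) .nil))))) .nil)))) (.nd (nat_lit 4) (.nd (nat_lit 5) 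
(.lf (nat_lit 113676) (.g (nat_lit 1580) (.e (nat_lit 5902) (nat_lit 320) (.e (nat_lit 1221) (nat_lit 90) (.e (nat_lit 81950) (nat_lit 21) (.e (nat_lit 57871) (nat_lit 264) .nil)))) .nil)) 
(.lf (nat_lit 113708) (.g (nat_lit 654) (.e (nat_lit 5904) (nat_lit 320) (.e (nat_lit 1209) (nat_lit 89) (.e (nat_lit 73789) (nat_lit 45) .nil))) .nil))) (.nd (nat_lit 5) 
(.lf (nat_lit 113692) (.g (nat_lit 2554) (.e (nat_lit 5902) (nat_lit 320) (.e (nat_lit 1221) (nat_lit 90) (.e (nat_lit 81959) (nat_lit 24) (.e (nat_lit 123195) (nat_lit 266) (.e (nat_lit 57428) (nat_lit 15) (.e (nat_lit 368384) (nat_lit 0) .nil)))))) (.g (nat_lit 5) .nil .nil))) 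
(.lf (nat_lit 113724) (.g (nat_lit 2750) (.e (nat_lit 5905) (nat_lit 320) (.e (nat_lit 1170) (nat_lit 87) (.e (nat_lit 57477) (nat_lit 28) (.e (nat_lit 557107) (nat_lit 15) (.e (nat_lit 188450) (nat_lit 23) (.e (nat_lit 204855) (nat_lit 26) (.e (nat_lit 335923) (nat_lit 0) (.e (nat_lit 1023) (nat_lit 81) .nil)))))))) (.g (nat_lit 6) .nil .nil))))))) 
(.nd (nat_lit 2) (.nd (nat_lit 3) (.nd (nat_lit 4) (.nd (nat_lit 5) 
(.lf (nat_lit 113666) (.g (nat_lit 2445) (.e (nat_lit 5902) (nat_lit 320) (.e (nat_lit 1220) (nat_lit 90) (.e (nat_lit 81959) (nat_lit 24) (.e (nat_lit 123195) (nat_lit 266) (.e (nat_lit 57426) (nat_lit 15) .nil))))) .nil)) 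
(.lf (nat_lit 113698) (.g (nat_lit 1870) (.e (nat_lit 5902) (nat_lit 320) (.e (nat_lit 1221) (nat_lit 90) (.e (nat_lit 81959) (nat_lit 24) (.e (nat_lit 123198) (nat_lit 266) (.e (nat_lit 57427) (nat_lit 15) .nil))))) .nil))) (.nd (nat_lit 5) 
(.lf (nat_lit 113682) (.g (nat_lit 2837) (.e (nat_lit 5902) (nat_lit 320) (.e (nat_lit 1221) (nat_lit 90) (.e (nat_lit 81959) (nat_lit 24) (.e (nat_lit 123182) (nat_lit 264) (.e (nat_lit 1224) (nat_lit 90) (.e (nat_lit 81946) (nat_lit 20) (.e (nat_lit 982) (nat_lit 81) .nil))))))) (.g (nat_lit 5) .nil .nil))) 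
(.lf (nat_lit 113714) (.g (nat_lit 2917) (.e (nat_lit 5904) (nat_lit 320) (.e (nat_lit 1220) (nat_lit 90) (.e (nat_lit 81959) (nat_lit 24) (.e (nat_lit 123182) (nat_lit 264) (.e (nat_lit 1201) (nat_lit 88) .nil))))) .nil)))) (.nd (nat_lit 4) (.nd (nat_lit 5) 
(.lf (nat_lit 113674) (.g (nat_lit 653) (.e (nat_lit 5902) (nat_lit 320) (.e (nat_lit 1221) (nat_lit 90) (.e (nat_lit 81950) (nat_lit 21) .nil))) .nil)) 
(.lf (nat_lit 113706) (.g (nat_lit 585) (.e (nat_lit 5904) (nat_lit 320) (.e (nat_lit 1209) (nat_lit 89) (.e (nat_lit 73782) (nat_lit 32) .nil))) .nil))) (.nd (nat_lit 5) 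
(.lf (nat_lit 113690) (.g (nat_lit 3536) (.e (nat_lit 5902) (nat_lit 320) (.e (nat_lit 1221) (nat_lit 90) (.e (nat_lit 81959) (nat_lit 24) (.e (nat_lit 123195) (nat_lit 266) (.e (nat_lit 57427) (nat_lit 15) (.e (nat_lit 360454) (nat_lit 0) .nil)))))) (.g (nat_lit 6) .nil .nil))) 
(.lf (nat_lit 113722) (.g (nat_lit 2949) (.e (nat_lit 5905) (nat_lit 320) (.e (nat_lit 1170) (nat_lit 87) (.e (nat_lit 57477) (nat_lit 28) (.e (nat_lit 557097) (nat_lit 13) (.e (nat_lit 172097) (nat_lit 9) (.e (nat_lit 426140) (nat_lit 3) (.e (nat_lit 204855) (nat_lit 26) (.e (nat_lit 335923) (nat_lit 0) (.e (nat_lit 1023) (nat_lit 81) .nil))))))))) (.g (nat_lit 7) .nil .nil)))))) 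
(.nd (nat_lit 3) (.nd (nat_lit 4) (.nd (nat_lit 5) 
(.lf (nat_lit 113670) (.g (nat_lit 1117) (.e (nat_lit 5902) (nat_lit 320) (.e (nat_lit 1221) (nat_lit 90) (.e (nat_lit 81938) (nat_lit 20) (.e (nat_lit 2003) (nat_lit 138) .nil)))) .nil)) 
(.lf (nat_lit 113702) (.g (nat_lit 2365) (.e (nat_lit 5903) (nat_lit 320) (.e (nat_lit 1221) (nat_lit 90) (.e (nat_lit 81959) (nat_lit 24) (.e (nat_lit 123182) (nat_lit 264) (.e (nat_lit 1201) (nat_lit 88) (.e (nat_lit 65617) (nat_lit 10) (.e (nat_lit 344087) (nat_lit 18) .nil))))))) (.g (nat_lit 4) .nil .nil)))) (.nd (nat_lit 5) 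
(.lf (nat_lit 113686) (.g (nat_lit 1206) (.e (nat_lit 5902) (nat_lit 320) (.e (nat_lit 1221) (nat_lit 90) (.e (nat_lit 81959) (nat_lit 24) (.e (nat_lit 123195) (nat_lit 266) .nil)))) .nil)) 
(.lf (nat_lit 113718) (.g (nat_lit 2099) (.e (nat_lit 5905) (nat_lit 320) (.e (nat_lit 1008) (nat_lit 81) (.e (nat_lit 1395) (nat_lit 106) (.e (nat_lit 319530) (nat_lit 16) (.e (nat_lit 286761) (nat_lit 13) (.e (nat_lit 393264) (nat_lit 22) (.e (nat_lit 417795) (nat_lit 0) (.e (nat_lit 62) (nat_lit 0) .nil)))))))) (.g (nat_lit 5) .nil .nil))))) (.nd (nat_lit 4) (.nd (nat_lit 5) 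
(.lf (nat_lit 113678) (.g (nat_lit 1828) (.e (nat_lit 5902) (nat_lit 320) (.e (nat_lit 1221) (nat_lit 90) (.e (nat_lit 81959) (nat_lit 24) (.e (nat_lit 123182) (nat_lit 264) .nil)))) .nil)) 
(.lf (nat_lit 113710) (.g (nat_lit 1802) (.e (nat_lit 5904) (nat_lit 320) (.e (nat_lit 1220) (nat_lit 90) (.e (nat_lit 81950) (nat_lit 21) (.e (nat_lit 57872) (nat_lit 264) .nil)))) .nil))) (.nd (nat_lit 5) 
(.lf (nat_lit 113694) (.g (nat_lit 2227) (.e (nat_lit 5902) (nat_lit 320) (.e (nat_lit 1221) (nat_lit 90) (.e (nat_lit 81959) (nat_lit 24) (.e (nat_lit 123196) (nat_lit 266) (.e (nat_lit 57426) (nat_lit 15) (.e (nat_lit 368384) (nat_lit 0) .nil)))))) (.g (nat_lit 5) .nil .nil))) 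
(.lf (nat_lit 113726) (.g (nat_lit 3578) (.e (nat_lit 5905) (nat_lit 320) (.e (nat_lit 1170) (nat_lit 87) (.e (nat_lit 57477) (nat_lit 28) (.e (nat_lit 557108) (nat_lit 15) (.e (nat_lit 188452) (nat_lit 23) (.e (nat_lit 204855) (nat_lit 26) (.e (nat_lit 335923) (nat_lit 0) (.e (nat_lit 1023) (nat_lit 81) .nil)))))))) (.g (nat_lit 6) .nil .nil)))))))) 
(.nd (nat_lit 1) (.nd (nat_lit 2) (.nd (nat_lit 3) (.nd (nat_lit 4) (.nd (nat_lit 5) 
(.lf (nat_lit 113665) (.g (nat_lit 1142) (.e (nat_lit 5902) (nat_lit 320) (.e (nat_lit 1220) (nat_lit 90) (.e (nat_lit 81959) (nat_lit 24) (.e (nat_lit 123195) (nat_lit 266) .nil)))) .nil)) 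
(.lf (nat_lit 113697) (.g (nat_lit 2371) (.e (nat_lit 5902) (nat_lit 320) (.e (nat_lit 1221) (nat_lit 90) (.e (nat_lit 81959) (nat_lit 24) (.e (nat_lit 123198) (nat_lit 266) (.e (nat_lit 57426) (nat_lit 15) (.e (nat_lit 368384) (nat_lit 0) .nil)))))) (.g (nat_lit 5) .nil .nil)))) (.nd (nat_lit 5) 
(.lf (nat_lit 113681) (.g (nat_lit 2226) (.e (nat_lit 5902) (nat_lit 320) (.e (nat_lit 1221) (nat_lit 90) (.e (nat_lit 81959) (nat_lit 24) (.e (nat_lit 123182) (nat_lit 264) (.e (nat_lit 1224) (nat_lit 90) .nil))))) .nil)) 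
(.lf (nat_lit 113713) (.g (nat_lit 1932) (.e (nat_lit 5904) (nat_lit 320) (.e (nat_lit 1220) (nat_lit 90) (.e (nat_lit 81950) (nat_lit 21) (.e (nat_lit 57873) (nat_lit 264) (.e (nat_lit 1221) (nat_lit 90) .nil))))) .nil)))) (.nd (nat_lit 4) (.nd (nat_lit 5) 
(.lf (nat_lit 113673) (.g (nat_lit 1879) (.e (nat_lit 5902) (nat_lit 320) (.e (nat_lit 1221) (nat_lit 90) (.e (nat_lit 81947) (nat_lit 20) (.e (nat_lit 2006) (nat_lit 138) (.e (nat_lit 671748) (nat_lit 0) .nil))))) .nil)) 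
(.lf (nat_lit 113705) (.g (nat_lit 2313) (.e (nat_lit 5903) (nat_lit 320) (.e (nat_lit 1221) (nat_lit 90) (.e (nat_lit 81959) (nat_lit 24) (.e (nat_lit 123195) (nat_lit 266) (.e (nat_lit 57412) (nat_lit 12) .nil))))) .nil))) (.nd (nat_lit 5) 
(.lf (nat_lit 113689) (.g (nat_lit 3499) (.e (nat_lit 5902) (nat_lit 320) (.e (nat_lit 1221) (nat_lit 90) (.e (nat_lit 81959) (nat_lit 24) (.e (nat_lit 123195) (nat_lit 266) (.e (nat_lit 57426) (nat_lit 15) (.e (nat_lit 368384) (nat_lit 0) .nil)))))) (.g (nat_lit 5) .nil .nil))) 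
(.lf (nat_lit 113721) (.g (nat_lit 2962) (.e (nat_lit 5905) (nat_lit 320) (.e (nat_lit 1170) (nat_lit 87) (.e (nat_lit 57477) (nat_lit 28) (.e (nat_lit 557097) (nat_lit 13) (.e (nat_lit 172097) (nat_lit 9) (.e (nat_lit 426125) (nat_lit 2) (.e (nat_lit 196666) (nat_lit 13) (.e (nat_lit 65553) (nat_lit 0) (.e (nat_lit 1023) (nat_lit 81) .nil))))))))) (.g (nat_lit 7) .nil .nil)))))) 
(.nd (nat_lit 3) (.nd (nat_lit 4) (.nd (nat_lit 5) 
(.lf (nat_lit 113669) (.g (nat_lit 1588) (.e (nat_lit 5902) (nat_lit 320) (.e (nat_lit 1220) (nat_lit 90) (.e (nat_lit 81959) (nat_lit 24) (.e (nat_lit 123199) (nat_lit 267) .nil)))) .nil)) 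
(.lf (nat_lit 113701) (.g (nat_lit 1898) (.e (nat_lit 5903) (nat_lit 320) (.e (nat_lit 1221) (nat_lit 90) (.e (nat_lit 81959) (nat_lit 24) (.e (nat_lit 123182) (nat_lit 264) .nil)))) .nil))) (.nd (nat_lit 5) 
(.lf (nat_lit 113685) (.g (nat_lit 2601) (.e (nat_lit 5902) (nat_lit 320) (.e (nat_lit 1221) (nat_lit 90) (.e (nat_lit 81959) (nat_lit 24) (.e (nat_lit 123194) (nat_lit 266) (.e (nat_lit 57426) (nat_lit 15) (.e (nat_lit 368384) (nat_lit 0) .nil)))))) (.g (nat_lit 5) .nil .nil))) 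
(.lf (nat_lit 113717) (.g (nat_lit 1762) (.e (nat_lit 5904) (nat_lit 320) (.e (nat_lit 1220) (nat_lit 90) (.e (nat_lit 81959) (nat_lit 24) (.e (nat_lit 123198) (nat_lit 266) .nil)))) .nil)))) (.nd (nat_lit 4) (.nd (nat_lit 5) 
(.lf (nat_lit 113677) (.g (nat_lit 364) (.e (nat_lit 5902) (nat_lit 320) (.e (nat_lit 1221) (nat_lit 90) (.e (nat_lit 81959) (nat_lit 24) .nil))) .nil)) 
(.lf (nat_lit 113709) (.g (nat_lit 1805) (.e (nat_lit 5904) (nat_lit 320) (.e (nat_lit 1220) (nat_lit 90) (.e (nat_lit 81950) (nat_lit 21) (.e (nat_lit 57870) (nat_lit 264) .nil)))) .nil))) (.nd (nat_lit 5) 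
(.lf (nat_lit 113693) (.g (nat_lit 1321) (.e (nat_lit 5902) (nat_lit 320) (.e (nat_lit 1221) (nat_lit 90) (.e (nat_lit 81959) (nat_lit 24) (.e (nat_lit 123196) (nat_lit 266) .nil)))) .nil)) 
(.lf (nat_lit 113725) (.g (nat_lit 2328) (.e (nat_lit 5905) (nat_lit 320) (.e (nat_lit 1170) (nat_lit 87) (.e (nat_lit 57477) (nat_lit 28) (.e (nat_lit 557108) (nat_lit 15) (.e (nat_lit 188449) (nat_lit 22) (.e (nat_lit 196666) (nat_lit 13) (.e (nat_lit 65553) (nat_lit 0) (.e (nat_lit 1023) (nat_lit 81) .nil)))))))) (.g (nat_lit 6) .nil .nil))))))) 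
(.nd (nat_lit 2) (.nd (nat_lit 3) (.nd (nat_lit 4) (.nd (nat_lit 5) 
(.lf (nat_lit 113667) (.g (nat_lit 2137) (.e (nat_lit 5902) (nat_lit 320) (.e (nat_lit 1220) (nat_lit 90) (.e (nat_lit 81959) (nat_lit 24) (.e (nat_lit 123197) (nat_lit 266) (.e (nat_lit 57427) (nat_lit 15) .nil))))) .nil)) 
(.lf (nat_lit 113699) (.g (nat_lit 1501) (.e (nat_lit 5902) (nat_lit 320) (.e (nat_lit 1221) (nat_lit 90) (.e (nat_lit 81959) (nat_lit 24) (.e (nat_lit 123199) (nat_lit 267) .nil)))) .nil))) (.nd (nat_lit 5) 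
(.lf (nat_lit 113683) (.g (nat_lit 1735) (.e (nat_lit 5902) (nat_lit 320) (.e (nat_lit 1221) (nat_lit 90) (.e (nat_lit 81959) (nat_lit 24) (.e (nat_lit 123184) (nat_lit 264) .nil)))) .nil)) 
(.lf (nat_lit 113715) (.g (nat_lit 2790) (.e (nat_lit 5904) (nat_lit 320) (.e (nat_lit 1220) (nat_lit 90) (.e (nat_lit 81959) (nat_lit 24) (.e (nat_lit 123182) (nat_lit 264) (.e (nat_lit 1224) (nat_lit 90) .nil))))) .nil)))) (.nd (nat_lit 4) (.nd (nat_lit 5) 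
(.lf (nat_lit 113675) (.g (nat_lit 1581) (.e (nat_lit 5902) (nat_lit 320) (.e (nat_lit 1221) (nat_lit 90) (.e (nat_lit 81950) (nat_lit 21) (.e (nat_lit 57870) (nat_lit 264) .nil)))) .nil)) 
(.lf (nat_lit 113707) (.g (nat_lit 462) (.e (nat_lit 5904) (nat_lit 320) (.e (nat_lit 1209) (nat_lit 89) (.e (nat_lit 81664) (nat_lit 39) .nil))) .nil))) (.nd (nat_lit 5) 
(.lf (nat_lit 113691) (.g (nat_lit 2947) (.e (nat_lit 5902) (nat_lit 320) (.e (nat_lit 1221) (nat_lit 90) (.e (nat_lit 81959) (nat_lit 24) (.e (nat_lit 123195) (nat_lit 266) (.e (nat_lit 57427) (nat_lit 15) (.e (nat_lit 368384) (nat_lit 0) .nil)))))) (.g (nat_lit 5) .nil .nil))) 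
(.lf (nat_lit 113723) (.g (nat_lit 2347) (.e (nat_lit 5905) (nat_lit 320) (.e (nat_lit 1170) (nat_lit 87) (.e (nat_lit 57477) (nat_lit 28) (.e (nat_lit 557107) (nat_lit 15) (.e (nat_lit 188447) (nat_lit 22) (.e (nat_lit 196666) (nat_lit 13) (.e (nat_lit 65553) (nat_lit 0) (.e (nat_lit 1023) (nat_lit 81) .nil)))))))) (.g (nat_lit 6) .nil .nil)))))) 
(.nd (nat_lit 3) (.nd (nat_lit 4) (.nd (nat_lit 5) 
(.lf (nat_lit 113671) (.g (nat_lit 1107) (.e (nat_lit 5902) (nat_lit 320) (.e (nat_lit 1221) (nat_lit 90) (.e (nat_lit 81938) (nat_lit 20) (.e (nat_lit 2005) (nat_lit 138) .nil)))) .nil)) 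
(.lf (nat_lit 113703) (.g (nat_lit 2296) (.e (nat_lit 5903) (nat_lit 320) (.e (nat_lit 1221) (nat_lit 90) (.e (nat_lit 81959) (nat_lit 24) (.e (nat_lit 123182) (nat_lit 264) (.e (nat_lit 1224) (nat_lit 90) .nil))))) .nil))) (.nd (nat_lit 5) 
(.lf (nat_lit 113687) (.g (nat_lit 1726) (.e (nat_lit 5902) (nat_lit 320) (.e (nat_lit 1221) (nat_lit 90) (.e (nat_lit 81959) (nat_lit 24) (.e (nat_lit 123195) (nat_lit 266) (.e (nat_lit 57354) (nat_lit 0) .nil))))) .nil)) 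
(.lf (nat_lit 113719) (.g (nat_lit 3084) (.e (nat_lit 5905) (nat_lit 320) (.e (nat_lit 1170) (nat_lit 87) (.e (nat_lit 57476) (nat_lit 28) (.e (nat_lit 557097) (nat_lit 13) (.e (nat_lit 172097) (nat_lit 9) (.e (nat_lit 426125) (nat_lit 2) (.e (nat_lit 196666) (nat_lit 13) (.e (nat_lit 65546) (nat_lit 0) (.e (nat_lit 1023) (nat_lit 81) .nil))))))))) (.g (nat_lit 6) .nil .nil))))) 
(.nd (nat_lit 4) (.nd (nat_lit 5) 
(.lf (nat_lit 113679) (.g (nat_lit 3070) (.e (nat_lit 5902) (nat_lit 320) (.e (nat_lit 1221) (nat_lit 90) (.e (nat_lit 81959) (nat_lit 24) (.e (nat_lit 123182) (nat_lit 264) (.e (nat_lit 1016) (nat_lit 81) .nil))))) .nil)) 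
(.lf (nat_lit 113711) (.g (nat_lit 1372) (.e (nat_lit 5904) (nat_lit 320) (.e (nat_lit 1220) (nat_lit 90) (.e (nat_lit 81950) (nat_lit 21) (.e (nat_lit 57873) (nat_lit 264) .nil)))) .nil))) (.nd (nat_lit 5) 
(.lf (nat_lit 113695) (.g (nat_lit 2306) (.e (nat_lit 5902) (nat_lit 320) (.e (nat_lit 1221) (nat_lit 90) (.e (nat_lit 81959) (nat_lit 24) (.e (nat_lit 123197) (nat_lit 266) (.e (nat_lit 57427) (nat_lit 15) .nil))))) .nil)) 
(.lf (nat_lit 113727) (.g (nat_lit 2475) (.e (nat_lit 5905) (nat_lit 320) (.e (nat_lit 1170) (nat_lit 87) (.e (nat_lit 57479) (nat_lit 28) (.e (nat_lit 557095) (nat_lit 13) (.e (nat_lit 172115) (nat_lit 10) .nil))))) .nil))))))))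

noncomputable def tv1533 : DT := (.nd (nat_lit 0) (.nd (nat_lit 1) (.nd (nat_lit 2) (.nd (nat_lit 3) (.nd (nat_lit 4) (.nd (nat_lit 5) 
(.lf (nat_lit 113728) (.g (nat_lit 2976) (.e (nat_lit 5905) (nat_lit 320) (.e (nat_lit 1170) (nat_lit 87) (.e (nat_lit 57479) (nat_lit 28) (.e (nat_lit 557095) (nat_lit 13) (.e (nat_lit 172115) (nat_lit 10) (.e (nat_lit 434231) (nat_lit 23) (.e (nat_lit 532535) (nat_lit 9) (.e (nat_lit 335925) (nat_lit 0) (.e (nat_lit 1023) (nat_lit 81) .nil))))))))) (.g (nat_lit 4) .nil .nil))) 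
(.lf (nat_lit 113760) (.g (nat_lit 2369) (.e (nat_lit 5905) (nat_lit 320) (.e (nat_lit 1172) (nat_lit 87) (.e (nat_lit 57477) (nat_lit 28) (.e (nat_lit 557107) (nat_lit 15) (.e (nat_lit 188447) (nat_lit 22) (.e (nat_lit 196666) (nat_lit 13) (.e (nat_lit 65546) (nat_lit 0) (.e (nat_lit 1023) (nat_lit 81) .nil)))))))) (.g (nat_lit 5) .nil .nil)))) (.nd (nat_lit 5) 
(.lf (nat_lit 113744) (.g (nat_lit 3923) (.e (nat_lit 5905) (nat_lit 320) (.e (nat_lit 1171) (nat_lit 87) (.e (nat_lit 57477) (nat_lit 28) (.e (nat_lit 557097) (nat_lit 13) (.e (nat_lit 172097) (nat_lit 9) (.e (nat_lit 426125) (nat_lit 2) (.e (nat_lit 196666) (nat_lit 13) (.e (nat_lit 65550) (nat_lit 0) (.e (nat_lit 1023) (nat_lit 81) .nil))))))))) (.g (nat_lit 7) .nil .nil))) 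
(.lf (nat_lit 113776) (.g (nat_lit 2890) (.e (nat_lit 5905) (nat_lit 320) (.e (nat_lit 1181) (nat_lit 87) (.e (nat_lit 57479) (nat_lit 28) (.e (nat_lit 557095) (nat_lit 13) (.e (nat_lit 172097) (nat_lit 9) .nil))))) .nil)))) (.nd (nat_lit 4) (.nd (nat_lit 5) 
(.lf (nat_lit 113736) (.g (nat_lit 4344) (.e (nat_lit 5905) (nat_lit 320) (.e (nat_lit 1170) (nat_lit 87) (.e (nat_lit 57480) (nat_lit 28) (.e (nat_lit 557109) (nat_lit 15) (.e (nat_lit 188452) (nat_lit 23) (.e (nat_lit 204855) (nat_lit 26) (.e (nat_lit 335923) (nat_lit 0) (.e (nat_lit 1023) (nat_lit 81) .nil)))))))) (.g (nat_lit 6) .nil .nil))) 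
(.lf (nat_lit 113768) (.g (nat_lit 3935) (.e (nat_lit 5905) (nat_lit 320) (.e (nat_lit 1172) (nat_lit 87) (.e (nat_lit 57478) (nat_lit 28) (.e (nat_lit 557109) (nat_lit 15) (.e (nat_lit 188449) (nat_lit 22) (.e (nat_lit 196666) (nat_lit 13) (.e (nat_lit 65550) (nat_lit 0) (.e (nat_lit 1023) (nat_lit 81) .nil)))))))) (.g (nat_lit 6) .nil .nil)))) (.nd (nat_lit 5) 
(.lf (nat_lit 113752) (.g (nat_lit 4512) (.e (nat_lit 5905) (nat_lit 320) (.e (nat_lit 1171) (nat_lit 87) (.e (nat_lit 57478) (nat_lit 28) (.e (nat_lit 557098) (nat_lit 13) (.e (nat_lit 172115) (nat_lit 10) (.e (nat_lit 434231) (nat_lit 23) (.e (nat_lit 532544) (nat_lit 10) (.e (nat_lit 344097) (nat_lit 18) .nil)))))))) (.g (nat_lit 0) .nil .nil))) 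
(.lf (nat_lit 113784) (.g (nat_lit 2018) (.e (nat_lit 5905) (nat_lit 320) (.e (nat_lit 1181) (nat_lit 87) (.e (nat_lit 57479) (nat_lit 28) (.e (nat_lit 557101) (nat_lit 13) (.e (nat_lit 172097) (nat_lit 9) .nil))))) .nil))))) (.nd (nat_lit 3) (.nd (nat_lit 4) (.nd (nat_lit 5) 
(.lf (nat_lit 113732) (.g (nat_lit 3747) (.e (nat_lit 5905) (nat_lit 320) (.e (nat_lit 1170) (nat_lit 87) (.e (nat_lit 57480) (nat_lit 28) (.e (nat_lit 557098) (nat_lit 13) (.e (nat_lit 172097) (nat_lit 9) (.e (nat_lit 426140) (nat_lit 3) (.e (nat_lit 204855) (nat_lit 26) (.e (nat_lit 335923) (nat_lit 0) (.e (nat_lit 1023) (nat_lit 81) .nil))))))))) (.g (nat_lit 7) .nil .nil))) 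
(.lf (nat_lit 113764) (.g (nat_lit 4018) (.e (nat_lit 5905) (nat_lit 320) (.e (nat_lit 1172) (nat_lit 87) (.e (nat_lit 57478) (nat_lit 28) (.e (nat_lit 557101) (nat_lit 13) (.e (nat_lit 172097) (nat_lit 9) (.e (nat_lit 426125) (nat_lit 2) (.e (nat_lit 196666) (nat_lit 13) (.e (nat_lit 65550) (nat_lit 0) (.e (nat_lit 1023) (nat_lit 81) .nil))))))))) (.g (nat_lit 7) .nil .nil)))) (.nd (nat_lit 5) 
(.lf (nat_lit 113748) (.g (nat_lit 3302) (.e (nat_lit 5905) (nat_lit 320) (.e (nat_lit 1171) (nat_lit 87) (.e (nat_lit 57477) (nat_lit 28) (.e (nat_lit 557108) (nat_lit 15) (.e (nat_lit 188449) (nat_lit 22) (.e (nat_lit 196666) (nat_lit 13) (.e (nat_lit 65550) (nat_lit 0) (.e (nat_lit 1023) (nat_lit 81) .nil)))))))) (.g (nat_lit 6) .nil .nil))) 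
(.lf (nat_lit 113780) (.g (nat_lit 3308) (.e (nat_lit 5905) (nat_lit 320) (.e (nat_lit 1181) (nat_lit 87) (.e (nat_lit 57479) (nat_lit 28) (.e (nat_lit 557095) (nat_lit 13) (.e (nat_lit 172115) (nat_lit 10) (.e (nat_lit 434231) (nat_lit 23) (.e (nat_lit 532554) (nat_lit 13) (.e (nat_lit 368662) (nat_lit 18) .nil)))))))) (.g (nat_lit 4) .nil .nil))))) (.nd (nat_lit 4) (.nd (nat_lit 5) 
(.lf (nat_lit 113740) (.g (nat_lit 3065) (.e (nat_lit 5905) (nat_lit 320) (.e (nat_lit 1170) (nat_lit 87) (.e (nat_lit 57521) (nat_lit 44) (.e (nat_lit 688177) (nat_lit 16) (.e (nat_lit 65586) (nat_lit 7) (.e (nat_lit 319531) (nat_lit 16) (.e (nat_lit 286748) (nat_lit 9) (.e (nat_lit 335938) (nat_lit 0) (.e (nat_lit 1023) (nat_lit 81) .nil))))))))) (.g (nat_lit 7) .nil .nil))) 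
(.lf (nat_lit 113772) (.g (nat_lit 2045) (.e (nat_lit 5905) (nat_lit 320) (.e (nat_lit 1181) (nat_lit 87) (.e (nat_lit 57478) (nat_lit 28) (.e (nat_lit 557098) (nat_lit 13) (.e (nat_lit 172097) (nat_lit 9) .nil))))) .nil))) (.nd (nat_lit 5) 
(.lf (nat_lit 113756) (.g (nat_lit 4517) (.e (nat_lit 5905) (nat_lit 320) (.e (nat_lit 1171) (nat_lit 87) (.e (nat_lit 57478) (nat_lit 28) (.e (nat_lit 557109) (nat_lit 15) (.e (nat_lit 188452) (nat_lit 23) (.e (nat_lit 204862) (nat_lit 27) (.e (nat_lit 344097) (nat_lit 18) .nil))))))) (.g (nat_lit 0) .nil .nil))) 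
(.lf (nat_lit 113788) (.g (nat_lit 3555) (.e (nat_lit 5905) (nat_lit 320) (.e (nat_lit 1181) (nat_lit 87) (.e (nat_lit 57479) (nat_lit 28) (.e (nat_lit 557109) (nat_lit 15) (.e (nat_lit 188452) (nat_lit 23) .nil))))) .nil)))))) (.nd (nat_lit 2) (.nd (nat_lit 3) (.nd (nat_lit 4) (.nd (nat_lit 5) 
(.lf (nat_lit 113730) (.g (nat_lit 3774) (.e (nat_lit 5905) (nat_lit 320) (.e (nat_lit 1170) (nat_lit 87) (.e (nat_lit 57479) (nat_lit 28) (.e (nat_lit 557101) (nat_lit 13) (.e (nat_lit 172097) (nat_lit 9) (.e (nat_lit 426140) (nat_lit 3) (.e (nat_lit 204855) (nat_lit 26) (.e (nat_lit 335923) (nat_lit 0) (.e (nat_lit 1023) (nat_lit 81) .nil))))))))) (.g (nat_lit 7) .nil .nil))) 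
(.lf (nat_lit 113762) (.g (nat_lit 4136) (.e (nat_lit 5905) (nat_lit 320) (.e (nat_lit 1172) (nat_lit 87) (.e (nat_lit 57478) (nat_lit 28) (.e (nat_lit 557098) (nat_lit 13) (.e (nat_lit 172097) (nat_lit 9) (.e (nat_lit 426125) (nat_lit 2) (.e (nat_lit 196666) (nat_lit 13) (.e (nat_lit 65550) (nat_lit 0) (.e (nat_lit 1023) (nat_lit 81) .nil))))))))) (.g (nat_lit 7) .nil .nil)))) (.nd (nat_lit 5) 
(.lf (nat_lit 113746) (.g (nat_lit 3262) (.e (nat_lit 5905) (nat_lit 320) (.e (nat_lit 1171) (nat_lit 87) (.e (nat_lit 57477) (nat_lit 28) (.e (nat_lit 557107) (nat_lit 15) (.e (nat_lit 188447) (nat_lit 22) (.e (nat_lit 196666) (nat_lit 13) (.e (nat_lit 65550) (nat_lit 0) (.e (nat_lit 1023) (nat_lit 81) .nil)))))))) (.g (nat_lit 6) .nil .nil))) 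
(.lf (nat_lit 113778) (.g (nat_lit 3440) (.e (nat_lit 5905) (nat_lit 320) (.e (nat_lit 1181) (nat_lit 87) (.e (nat_lit 57479) (nat_lit 28) (.e (nat_lit 557095) (nat_lit 13) (.e (nat_lit 172097) (nat_lit 9) (.e (nat_lit 426125) (nat_lit 2) (.e (nat_lit 196666) (nat_lit 13) (.e (nat_lit 65550) (nat_lit 0) (.e (nat_lit 1023) (nat_lit 81) .nil))))))))) (.g (nat_lit 4) .nil .nil))))) 
(.nd (nat_lit 4) (.nd (nat_lit 5) 
(.lf (nat_lit 113738) (.g (nat_lit 2811) (.e (nat_lit 5905) (nat_lit 320) (.e (nat_lit 1170) (nat_lit 87) (.e (nat_lit 57521) (nat_lit 44) (.e (nat_lit 688177) (nat_lit 16) (.e (nat_lit 65583) (nat_lit 7) (.e (nat_lit 319530) (nat_lit 16) (.e (nat_lit 286748) (nat_lit 9) (.e (nat_lit 335938) (nat_lit 0) (.e (nat_lit 1023) (nat_lit 81) .nil))))))))) (.g (nat_lit 6) .nil .nil))) 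
(.lf (nat_lit 113770) (.g (nat_lit 2287) (.e (nat_lit 5905) (nat_lit 320) (.e (nat_lit 1172) (nat_lit 87) (.e (nat_lit 57480) (nat_lit 28) (.e (nat_lit 557107) (nat_lit 15) (.e (nat_lit 188447) (nat_lit 22) (.e (nat_lit 196666) (nat_lit 13) (.e (nat_lit 65546) (nat_lit 0) (.e (nat_lit 1023) (nat_lit 81) .nil)))))))) (.g (nat_lit 4) .nil .nil)))) (.nd (nat_lit 5) 
(.lf (nat_lit 113754) (.g (nat_lit 3132) (.e (nat_lit 5905) (nat_lit 320) (.e (nat_lit 1171) (nat_lit 87) (.e (nat_lit 57478) (nat_lit 28) (.e (nat_lit 557107) (nat_lit 15) (.e (nat_lit 188450) (nat_lit 23) (.e (nat_lit 204855) (nat_lit 26) (.e (nat_lit 335923) (nat_lit 0) (.e (nat_lit 1023) (nat_lit 81) .nil)))))))) (.g (nat_lit 6) .nil .nil))) 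
(.lf (nat_lit 113786) (.g (nat_lit 3454) (.e (nat_lit 5905) (nat_lit 320) (.e (nat_lit 1181) (nat_lit 87) (.e (nat_lit 57479) (nat_lit 28) (.e (nat_lit 557101) (nat_lit 13) (.e (nat_lit 172097) (nat_lit 9) (.e (nat_lit 426140) (nat_lit 3) (.e (nat_lit 204855) (nat_lit 26) (.e (nat_lit 335923) (nat_lit 0) (.e (nat_lit 1023) (nat_lit 81) .nil))))))))) (.g (nat_lit 5) .nil .nil)))))) 
(.nd (nat_lit 3) (.nd (nat_lit 4) (.nd (nat_lit 5) 
(.lf (nat_lit 113734) (.g (nat_lit 3337) (.e (nat_lit 5905) (nat_lit 320) (.e (nat_lit 1170) (nat_lit 87) (.e (nat_lit 57480) (nat_lit 28) (.e (nat_lit 557107) (nat_lit 15) (.e (nat_lit 188450) (nat_lit 23) (.e (nat_lit 204855) (nat_lit 26) (.e (nat_lit 335923) (nat_lit 0) (.e (nat_lit 1023) (nat_lit 81) .nil)))))))) (.g (nat_lit 6) .nil .nil))) 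
(.lf (nat_lit 113766) (.g (nat_lit 3446) (.e (nat_lit 5905) (nat_lit 320) (.e (nat_lit 1172) (nat_lit 87) (.e (nat_lit 57478) (nat_lit 28) (.e (nat_lit 557107) (nat_lit 15) (.e (nat_lit 188447) (nat_lit 22) (.e (nat_lit 196666) (nat_lit 13) (.e (nat_lit 65550) (nat_lit 0) (.e (nat_lit 1023) (nat_lit 81) .nil)))))))) (.g (nat_lit 6) .nil .nil)))) (.nd (nat_lit 5) 
(.lf (nat_lit 113750) (.g (nat_lit 4310) (.e (nat_lit 5905) (nat_lit 320) (.e (nat_lit 1171) (nat_lit 87) (.e (nat_lit 57478) (nat_lit 28) (.e (nat_lit 557098) (nat_lit 13) (.e (nat_lit 172097) (nat_lit 9) (.e (nat_lit 426140) (nat_lit 3) (.e (nat_lit 204862) (nat_lit 27) (.e (nat_lit 344097) (nat_lit 18) .nil)))))))) (.g (nat_lit 0) .nil .nil))) 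
(.lf (nat_lit 113782) (.g (nat_lit 2750) (.e (nat_lit 5905) (nat_lit 320) (.e (nat_lit 1181) (nat_lit 87) (.e (nat_lit 57479) (nat_lit 28) (.e (nat_lit 557100) (nat_lit 13) (.e (nat_lit 172106) (nat_lit 10) (.e (nat_lit 434231) (nat_lit 23) (.e (nat_lit 532529) (nat_lit 9) (.e (nat_lit 335971) (nat_lit 0) (.e (nat_lit 1023) (nat_lit 81) .nil))))))))) (.g (nat_lit 4) .nil .nil))))) 
(.nd (nat_lit 4) (.nd (nat_lit 5) 
(.lf (nat_lit 113742) (.g (nat_lit 3646) (.e (nat_lit 5905) (nat_lit 320) (.e (nat_lit 1171) (nat_lit 87) (.e (nat_lit 57476) (nat_lit 28) (.e (nat_lit 557108) (nat_lit 15) (.e (nat_lit 188452) (nat_lit 23) (.e (nat_lit 204855) (nat_lit 26) (.e (nat_lit 335923) (nat_lit 0) (.e (nat_lit 1023) (nat_lit 81) .nil)))))))) (.g (nat_lit 6) .nil .nil))) 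
(.lf (nat_lit 113774) (.g (nat_lit 1897) (.e (nat_lit 5905) (nat_lit 320) (.e (nat_lit 1181) (nat_lit 87) (.e (nat_lit 57478) (nat_lit 28) (.e (nat_lit 557101) (nat_lit 13) (.e (nat_lit 172097) (nat_lit 9) .nil))))) .nil))) (.nd (nat_lit 5) 
(.lf (nat_lit 113758) (.g (nat_lit 3341) (.e (nat_lit 5905) (nat_lit 320) (.e (nat_lit 1172) (nat_lit 87) (.e (nat_lit 57476) (nat_lit 28) (.e (nat_lit 557097) (nat_lit 13) (.e (nat_lit 172097) (nat_lit 9) (.e (nat_lit 426125) (nat_lit 2) (.e (nat_lit 196666) (nat_lit 13) (.e (nat_lit 65546) (nat_lit 0) (.e (nat_lit 1023) (nat_lit 81) .nil))))))))) (.g (nat_lit 7) .nil .nil))) 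
(.lf (nat_lit 113790) (.g (nat_lit 3516) (.e (nat_lit 5905) (nat_lit 320) (.e (nat_lit 1181) (nat_lit 87) (.e (nat_lit 57480) (nat_lit 28) (.e (nat_lit 557098) (nat_lit 13) (.e (nat_lit 172097) (nat_lit 9) (.e (nat_lit 426140) (nat_lit 3) (.e (nat_lit 204855) (nat_lit 26) (.e (nat_lit 335923) (nat_lit 0) (.e (nat_lit 1023) (nat_lit 81) .nil))))))))) (.g (nat_lit 5) .nil .nil)))))))) 
(.nd (nat_lit 1) (.nd (nat_lit 2) (.nd (nat_lit 3) (.nd (nat_lit 4) (.nd (nat_lit 5) 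
(.lf (nat_lit 113729) (.g (nat_lit 3778) (.e (nat_lit 5905) (nat_lit 320) (.e (nat_lit 1170) (nat_lit 87) (.e (nat_lit 57479) (nat_lit 28) (.e (nat_lit 557101) (nat_lit 13) (.e (nat_lit 172097) (nat_lit 9) (.e (nat_lit 426125) (nat_lit 2) (.e (nat_lit 196666) (nat_lit 13) (.e (nat_lit 65553) (nat_lit 0) (.e (nat_lit 1023) (nat_lit 81) .nil))))))))) (.g (nat_lit 7) .nil .nil))) 
(.lf (nat_lit 113761) (.g (nat_lit 3629) (.e (nat_lit 5905) (nat_lit 320) (.e (nat_lit 1172) (nat_lit 87) (.e (nat_lit 57478) (nat_lit 28) (.e (nat_lit 557098) (nat_lit 13) (.e (nat_lit 172097) (nat_lit 9) (.e (nat_lit 426125) (nat_lit 2) (.e (nat_lit 196666) (nat_lit 13) (.e (nat_lit 65546) (nat_lit 0) (.e (nat_lit 1023) (nat_lit 81) .nil))))))))) (.g (nat_lit 7) .nil .nil)))) (.nd (nat_lit 5) 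
(.lf (nat_lit 113745) (.g (nat_lit 2921) (.e (nat_lit 5905) (nat_lit 320) (.e (nat_lit 1171) (nat_lit 87) (.e (nat_lit 57477) (nat_lit 28) (.e (nat_lit 557107) (nat_lit 15) (.e (nat_lit 188447) (nat_lit 22) (.e (nat_lit 196666) (nat_lit 13) (.e (nat_lit 65546) (nat_lit 0) (.e (nat_lit 1023) (nat_lit 81) .nil)))))))) (.g (nat_lit 6) .nil .nil))) 
(.lf (nat_lit 113777) (.g (nat_lit 2933) (.e (nat_lit 5905) (nat_lit 320) (.e (nat_lit 1181) (nat_lit 87) (.e (nat_lit 57479) (nat_lit 28) (.e (nat_lit 557095) (nat_lit 13) (.e (nat_lit 172097) (nat_lit 9) (.e (nat_lit 426125) (nat_lit 2) (.e (nat_lit 196666) (nat_lit 13) (.e (nat_lit 65546) (nat_lit 0) (.e (nat_lit 1023) (nat_lit 81) .nil))))))))) (.g (nat_lit 4) .nil .nil))))) 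
(.nd (nat_lit 4) (.nd (nat_lit 5) 
(.lf (nat_lit 113737) (.g (nat_lit 3147) (.e (nat_lit 5905) (nat_lit 320) (.e (nat_lit 1170) (nat_lit 87) (.e (nat_lit 57521) (nat_lit 44) (.e (nat_lit 688177) (nat_lit 16) (.e (nat_lit 65583) (nat_lit 7) (.e (nat_lit 319530) (nat_lit 16) (.e (nat_lit 286748) (nat_lit 9) (.e (nat_lit 335925) (nat_lit 0) (.e (nat_lit 1023) (nat_lit 81) .nil))))))))) (.g (nat_lit 7) .nil .nil))) 
(.lf (nat_lit 113769) (.g (nat_lit 2015) (.e (nat_lit 5905) (nat_lit 320) (.e (nat_lit 1172) (nat_lit 87) (.e (nat_lit 57479) (nat_lit 28) (.e (nat_lit 557100) (nat_lit 13) (.e (nat_lit 172106) (nat_lit 10) (.e (nat_lit 434231) (nat_lit 23) (.e (nat_lit 532535) (nat_lit 9) (.e (nat_lit 335925) (nat_lit 0) (.e (nat_lit 1023) (nat_lit 81) .nil))))))))) (.g (nat_lit 4) .nil .nil)))) (.nd (nat_lit 5) 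
(.lf (nat_lit 113753) (.g (nat_lit 3224) (.e (nat_lit 5905) (nat_lit 320) (.e (nat_lit 1171) (nat_lit 87) (.e (nat_lit 57478) (nat_lit 28) (.e (nat_lit 557101) (nat_lit 13) (.e (nat_lit 172097) (nat_lit 9) (.e (nat_lit 426140) (nat_lit 3) (.e (nat_lit 204855) (nat_lit 26) (.e (nat_lit 335923) (nat_lit 0) (.e (nat_lit 1023) (nat_lit 81) .nil))))))))) (.g (nat_lit 7) .nil .nil))) 
(.lf (nat_lit 113785) (.g (nat_lit 3458) (.e (nat_lit 5905) (nat_lit 320) (.e (nat_lit 1181) (nat_lit 87) (.e (nat_lit 57479) (nat_lit 28) (.e (nat_lit 557101) (nat_lit 13) (.e (nat_lit 172097) (nat_lit 9) (.e (nat_lit 426125) (nat_lit 2) (.e (nat_lit 196666) (nat_lit 13) (.e (nat_lit 65553) (nat_lit 0) (.e (nat_lit 1023) (nat_lit 81) .nil))))))))) (.g (nat_lit 5) .nil .nil)))))) 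
(.nd (nat_lit 3) (.nd (nat_lit 4) (.nd (nat_lit 5) 
(.lf (nat_lit 113733) (.g (nat_lit 2932) (.e (nat_lit 5905) (nat_lit 320) (.e (nat_lit 1170) (nat_lit 87) (.e (nat_lit 57480) (nat_lit 28) (.e (nat_lit 557107) (nat_lit 15) (.e (nat_lit 188447) (nat_lit 22) (.e (nat_lit 196666) (nat_lit 13) (.e (nat_lit 65553) (nat_lit 0) (.e (nat_lit 1023) (nat_lit 81) .nil)))))))) (.g (nat_lit 6) .nil .nil))) 
(.lf (nat_lit 113765) (.g (nat_lit 3105) (.e (nat_lit 5905) (nat_lit 320) (.e (nat_lit 1172) (nat_lit 87) (.e (nat_lit 57478) (nat_lit 28) (.e (nat_lit 557107) (nat_lit 15) (.e (nat_lit 188447) (nat_lit 22) (.e (nat_lit 196666) (nat_lit 13) (.e (nat_lit 65546) (nat_lit 0) (.e (nat_lit 1023) (nat_lit 81) .nil)))))))) (.g (nat_lit 6) .nil .nil)))) (.nd (nat_lit 5) 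
(.lf (nat_lit 113749) (.g (nat_lit 3341) (.e (nat_lit 5905) (nat_lit 320) (.e (nat_lit 1171) (nat_lit 87) (.e (nat_lit 57478) (nat_lit 28) (.e (nat_lit 557098) (nat_lit 13) (.e (nat_lit 172097) (nat_lit 9) (.e (nat_lit 426140) (nat_lit 3) (.e (nat_lit 204855) (nat_lit 26) (.e (nat_lit 335923) (nat_lit 0) (.e (nat_lit 1023) (nat_lit 81) .nil))))))))) (.g (nat_lit 7) .nil .nil))) 
(.lf (nat_lit 113781) (.g (nat_lit 2263) (.e (nat_lit 5905) (nat_lit 320) (.e (nat_lit 1181) (nat_lit 87) (.e (nat_lit 57479) (nat_lit 28) (.e (nat_lit 557100) (nat_lit 13) (.e (nat_lit 172106) (nat_lit 10) .nil))))) .nil)))) (.nd (nat_lit 4) (.nd (nat_lit 5) 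
(.lf (nat_lit 113741) (.g (nat_lit 2832) (.e (nat_lit 5905) (nat_lit 320) (.e (nat_lit 1171) (nat_lit 87) (.e (nat_lit 57476) (nat_lit 28) (.e (nat_lit 557107) (nat_lit 15) (.e (nat_lit 188450) (nat_lit 23) (.e (nat_lit 204855) (nat_lit 26) (.e (nat_lit 335923) (nat_lit 0) (.e (nat_lit 1023) (nat_lit 81) .nil)))))))) (.g (nat_lit 6) .nil .nil))) 
(.lf (nat_lit 113773) (.g (nat_lit 2551) (.e (nat_lit 5905) (nat_lit 320) (.e (nat_lit 1181) (nat_lit 87) (.e (nat_lit 57478) (nat_lit 28) (.e (nat_lit 557098) (nat_lit 13) (.e (nat_lit 172097) (nat_lit 9) (.e (nat_lit 426125) (nat_lit 2) (.e (nat_lit 196666) (nat_lit 13) (.e (nat_lit 65546) (nat_lit 0) (.e (nat_lit 1023) (nat_lit 81) .nil))))))))) (.g (nat_lit 4) .nil .nil)))) (.nd (nat_lit 5) 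
(.lf (nat_lit 113757) (.g (nat_lit 4684) (.e (nat_lit 5905) (nat_lit 320) (.e (nat_lit 1171) (nat_lit 87) (.e (nat_lit 57478) (nat_lit 28) (.e (nat_lit 557109) (nat_lit 15) (.e (nat_lit 188452) (nat_lit 23) (.e (nat_lit 204863) (nat_lit 27) (.e (nat_lit 344097) (nat_lit 18) .nil))))))) (.g (nat_lit 0) .nil .nil))) 
(.lf (nat_lit 113789) (.g (nat_lit 3535) (.e (nat_lit 5905) (nat_lit 320) (.e (nat_lit 1181) (nat_lit 87) (.e (nat_lit 57480) (nat_lit 28) (.e (nat_lit 557098) (nat_lit 13) (.e (nat_lit 172097) (nat_lit 9) (.e (nat_lit 426125) (nat_lit 2) (.e (nat_lit 196666) (nat_lit 13) (.e (nat_lit 65553) (nat_lit 0) (.e (nat_lit 1023) (nat_lit 81) .nil))))))))) (.g (nat_lit 5) .nil .nil))))))) 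
(.nd (nat_lit 2) (.nd (nat_lit 3) (.nd (nat_lit 4) (.nd (nat_lit 5) 
(.lf (nat_lit 113731) (.g (nat_lit 3766) (.e (nat_lit 5905) (nat_lit 320) (.e (nat_lit 1170) (nat_lit 87) (.e (nat_lit 57480) (nat_lit 28) (.e (nat_lit 557098) (nat_lit 13) (.e (nat_lit 172097) (nat_lit 9) (.e (nat_lit 426125) (nat_lit 2) (.e (nat_lit 196666) (nat_lit 13) (.e (nat_lit 65553) (nat_lit 0) (.e (nat_lit 1023) (nat_lit 81) .nil))))))))) (.g (nat_lit 7) .nil .nil))) 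
(.lf (nat_lit 113763) (.g (nat_lit 3511) (.e (nat_lit 5905) (nat_lit 320) (.e (nat_lit 1172) (nat_lit 87) (.e (nat_lit 57478) (nat_lit 28) (.e (nat_lit 557101) (nat_lit 13) (.e (nat_lit 172097) (nat_lit 9) (.e (nat_lit 426125) (nat_lit 2) (.e (nat_lit 196666) (nat_lit 13) (.e (nat_lit 65546) (nat_lit 0) (.e (nat_lit 1023) (nat_lit 81) .nil))))))))) (.g (nat_lit 7) .nil .nil)))) (.nd (nat_lit 5) 
(.lf (nat_lit 113747) (.g (nat_lit 2805) (.e (nat_lit 5905) (nat_lit 320) (.e (nat_lit 1171) (nat_lit 87) (.e (nat_lit 57477) (nat_lit 28) (.e (nat_lit 557108) (nat_lit 15) (.e (nat_lit 188449) (nat_lit 22) (.e (nat_lit 196666) (nat_lit 13) (.e (nat_lit 65546) (nat_lit 0) (.e (nat_lit 1023) (nat_lit 81) .nil)))))))) (.g (nat_lit 6) .nil .nil))) 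
(.lf (nat_lit 113779) (.g (nat_lit 2729) (.e (nat_lit 5905) (nat_lit 320) (.e (nat_lit 1181) (nat_lit 87) (.e (nat_lit 57479) (nat_lit 28) (.e (nat_lit 557095) (nat_lit 13) (.e (nat_lit 172115) (nat_lit 10) .nil))))) .nil)))) (.nd (nat_lit 4) (.nd (nat_lit 5) 
(.lf (nat_lit 113739) (.g (nat_lit 3401) (.e (nat_lit 5905) (nat_lit 320) (.e (nat_lit 1170) (nat_lit 87) (.e (nat_lit 57521) (nat_lit 44) (.e (nat_lit 688177) (nat_lit 16) (.e (nat_lit 65586) (nat_lit 7) (.e (nat_lit 319531) (nat_lit 16) (.e (nat_lit 286748) (nat_lit 9) (.e (nat_lit 335925) (nat_lit 0) (.e (nat_lit 1023) (nat_lit 81) .nil))))))))) (.g (nat_lit 7) .nil .nil))) 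
(.lf (nat_lit 113771) (.g (nat_lit 2994) (.e (nat_lit 5905) (nat_lit 320) (.e (nat_lit 1178) (nat_lit 87) (.e (nat_lit 57480) (nat_lit 28) (.e (nat_lit 557098) (nat_lit 13) (.e (nat_lit 172097) (nat_lit 9) (.e (nat_lit 426125) (nat_lit 2) (.e (nat_lit 196666) (nat_lit 13) (.e (nat_lit 65546) (nat_lit 0) (.e (nat_lit 1023) (nat_lit 81) .nil))))))))) (.g (nat_lit 5) .nil .nil)))) (.nd (nat_lit 5) 
(.lf (nat_lit 113755) (.g (nat_lit 4264) (.e (nat_lit 5905) (nat_lit 320) (.e (nat_lit 1171) (nat_lit 87) (.e (nat_lit 57478) (nat_lit 28) (.e (nat_lit 557109) (nat_lit 15) (.e (nat_lit 188452) (nat_lit 23) (.e (nat_lit 204855) (nat_lit 26) (.e (nat_lit 335923) (nat_lit 0) (.e (nat_lit 1023) (nat_lit 81) .nil)))))))) (.g (nat_lit 6) .nil .nil))) 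
(.lf (nat_lit 113787) (.g (nat_lit 2317) (.e (nat_lit 5905) (nat_lit 320) (.e (nat_lit 1181) (nat_lit 87) (.e (nat_lit 57479) (nat_lit 28) (.e (nat_lit 557101) (nat_lit 13) (.e (nat_lit 172115) (nat_lit 10) (.e (nat_lit 434231) (nat_lit 23) (.e (nat_lit 532535) (nat_lit 9) (.e (nat_lit 335928) (nat_lit 0) (.e (nat_lit 1023) (nat_lit 81) .nil))))))))) (.g (nat_lit 4) .nil .nil)))))) 
(.nd (nat_lit 3) (.nd (nat_lit 4) (.nd (nat_lit 5) 
(.lf (nat_lit 113735) (.g (nat_lit 3210) (.e (nat_lit 5905) (nat_lit 320) (.e (nat_lit 1170) (nat_lit 87) (.e (nat_lit 57480) (nat_lit 28) (.e (nat_lit 557109) (nat_lit 15) (.e (nat_lit 188449) (nat_lit 22) (.e (nat_lit 196666) (nat_lit 13) (.e (nat_lit 65553) (nat_lit 0) (.e (nat_lit 1023) (nat_lit 81) .nil)))))))) (.g (nat_lit 6) .nil .nil))) 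
(.lf (nat_lit 113767) (.g (nat_lit 3467) (.e (nat_lit 5905) (nat_lit 320) (.e (nat_lit 1172) (nat_lit 87) (.e (nat_lit 57478) (nat_lit 28) (.e (nat_lit 557109) (nat_lit 15) (.e (nat_lit 188449) (nat_lit 22) (.e (nat_lit 196666) (nat_lit 13) (.e (nat_lit 65546) (nat_lit 0) (.e (nat_lit 1023) (nat_lit 81) .nil)))))))) (.g (nat_lit 6) .nil .nil)))) (.nd (nat_lit 5) 
(.lf (nat_lit 113751) (.g (nat_lit 4269) (.e (nat_lit 5905) (nat_lit 320) (.e (nat_lit 1171) (nat_lit 87) (.e (nat_lit 57478) (nat_lit 28) (.e (nat_lit 557098) (nat_lit 13) (.e (nat_lit 172115) (nat_lit 10) (.e (nat_lit 434231) (nat_lit 23) (.e (nat_lit 532543) (nat_lit 10) (.e (nat_lit 344097) (nat_lit 18) .nil)))))))) (.g (nat_lit 0) .nil .nil))) 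
(.lf (nat_lit 113783) (.g (nat_lit 3329) (.e (nat_lit 5905) (nat_lit 320) (.e (nat_lit 1181) (nat_lit 87) (.e (nat_lit 57479) (nat_lit 28) (.e (nat_lit 557100) (nat_lit 13) (.e (nat_lit 172106) (nat_lit 10) (.e (nat_lit 434231) (nat_lit 23) (.e (nat_lit 532535) (nat_lit 9) (.e (nat_lit 335925) (nat_lit 0) (.e (nat_lit 1023) (nat_lit 81) .nil))))))))) (.g (nat_lit 5) .nil .nil))))) 
(.nd (nat_lit 4) (.nd (nat_lit 5) 
(.lf (nat_lit 113743) (.g (nat_lit 3416) (.e (nat_lit 5905) (nat_lit 320) (.e (nat_lit 1171) (nat_lit 87) (.e (nat_lit 57477) (nat_lit 28) (.e (nat_lit 557097) (nat_lit 13) (.e (nat_lit 172097) (nat_lit 9) (.e (nat_lit 426125) (nat_lit 2) (.e (nat_lit 196666) (nat_lit 13) (.e (nat_lit 65546) (nat_lit 0) (.e (nat_lit 1023) (nat_lit 81) .nil))))))))) (.g (nat_lit 7) .nil .nil))) 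
(.lf (nat_lit 113775) (.g (nat_lit 2211) (.e (nat_lit 5905) (nat_lit 320) (.e (nat_lit 1181) (nat_lit 87) (.e (nat_lit 57478) (nat_lit 28) (.e (nat_lit 557107) (nat_lit 15) (.e (nat_lit 188447) (nat_lit 22) .nil))))) .nil))) (.nd (nat_lit 5) 
(.lf (nat_lit 113759) (.g (nat_lit 2688) (.e (nat_lit 5905) (nat_lit 320) (.e (nat_lit 1172) (nat_lit 87) (.e (nat_lit 57476) (nat_lit 28) (.e (nat_lit 557108) (nat_lit 15) (.e (nat_lit 188449) (nat_lit 22) (.e (nat_lit 196666) (nat_lit 13) (.e (nat_lit 65546) (nat_lit 0) (.e (nat_lit 1023) (nat_lit 81) .nil)))))))) (.g (nat_lit 6) .nil .nil))) 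
(.lf (nat_lit 113791) (.g (nat_lit 2483) (.e (nat_lit 5905) (nat_lit 320) (.e (nat_lit 1181) (nat_lit 87) (.e (nat_lit 57480) (nat_lit 28) (.e (nat_lit 557098) (nat_lit 13) (.e (nat_lit 172115) (nat_lit 10) (.e (nat_lit 434231) (nat_lit 23) (.e (nat_lit 532535) (nat_lit 9) (.e (nat_lit 335928) (nat_lit 0) (.e (nat_lit 1023) (nat_lit 81) .nil))))))))) (.g (nat_lit 4) .nil .nil)))))))))

noncomputable def tv1534 : DT := (.nd (nat_lit 0) (.nd (nat_lit 1) (.nd (nat_lit 2) (.nd (nat_lit 3) (.nd (nat_lit 4) (.nd (nat_lit 5) 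
(.lf (nat_lit 113792) (.g (nat_lit 2528) (.e (nat_lit 5905) (nat_lit 320) (.e (nat_lit 1181) (nat_lit 87) (.e (nat_lit 57480) (nat_lit 28) (.e (nat_lit 557107) (nat_lit 15) (.e (nat_lit 188447) (nat_lit 22) .nil))))) .nil)) 
(.lf (nat_lit 113824) (.g (nat_lit 2050) (.e (nat_lit 5905) (nat_lit 320) (.e (nat_lit 1188) (nat_lit 88) (.e (nat_lit 65630) (nat_lit 14) (.e (nat_lit 401459) (nat_lit 13) (.e (nat_lit 483399) (nat_lit 25) .nil))))) .nil))) (.nd (nat_lit 5) 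
(.lf (nat_lit 113808) (.g (nat_lit 3400) (.e (nat_lit 5905) (nat_lit 320) (.e (nat_lit 1182) (nat_lit 87) (.e (nat_lit 57479) (nat_lit 28) (.e (nat_lit 557101) (nat_lit 13) (.e (nat_lit 172097) (nat_lit 9) (.e (nat_lit 426125) (nat_lit 2) (.e (nat_lit 196666) (nat_lit 13) (.e (nat_lit 65553) (nat_lit 0) (.e (nat_lit 1023) (nat_lit 81) .nil))))))))) (.g (nat_lit 5) .nil .nil))) 
(.lf (nat_lit 113840) (.g (nat_lit 2421) (.e (nat_lit 5905) (nat_lit 320) (.e (nat_lit 1189) (nat_lit 88) (.e (nat_lit 65623) (nat_lit 12) (.e (nat_lit 385106) (nat_lit 50) (.e (nat_lit 786483) (nat_lit 30) (.e (nat_lit 368384) (nat_lit 0) .nil)))))) (.g (nat_lit 5) .nil .nil))))) (.nd (nat_lit 4) (.nd (nat_lit 5) 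
(.lf (nat_lit 113800) (.g (nat_lit 3290) (.e (nat_lit 5905) (nat_lit 320) (.e (nat_lit 1182) (nat_lit 87) (.e (nat_lit 57478) (nat_lit 28) (.e (nat_lit 557107) (nat_lit 15) (.e (nat_lit 188447) (nat_lit 22) (.e (nat_lit 196666) (nat_lit 13) (.e (nat_lit 65546) (nat_lit 0) (.e (nat_lit 1023) (nat_lit 81) .nil)))))))) (.g (nat_lit 6) .nil .nil))) 
(.lf (nat_lit 113832) (.g (nat_lit 3052) (.e (nat_lit 5905) (nat_lit 320) (.e (nat_lit 1189) (nat_lit 88) (.e (nat_lit 65619) (nat_lit 10) (.e (nat_lit 344169) (nat_lit 40) (.e (nat_lit 671748) (nat_lit 0) (.e (nat_lit 1589) (nat_lit 111) (.e (nat_lit 368384) (nat_lit 0) .nil))))))) (.g (nat_lit 6) .nil .nil)))) (.nd (nat_lit 5) 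
(.lf (nat_lit 113816) (.g (nat_lit 2377) (.e (nat_lit 5905) (nat_lit 320) (.e (nat_lit 1188) (nat_lit 88) (.e (nat_lit 65630) (nat_lit 14) (.e (nat_lit 401437) (nat_lit 9) (.e (nat_lit 426546) (nat_lit 30) (.e (nat_lit 368384) (nat_lit 0) .nil)))))) (.g (nat_lit 5) .nil .nil))) 
(.lf (nat_lit 113848) (.g (nat_lit 2541) (.e (nat_lit 5905) (nat_lit 320) (.e (nat_lit 1189) (nat_lit 88) (.e (nat_lit 65628) (nat_lit 14) (.e (nat_lit 401437) (nat_lit 9) (.e (nat_lit 426546) (nat_lit 30) (.e (nat_lit 368384) (nat_lit 0) .nil)))))) (.g (nat_lit 5) .nil .nil)))))) (.nd (nat_lit 3) (.nd (nat_lit 4) (.nd (nat_lit 5) 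
(.lf (nat_lit 113796) (.g (nat_lit 3806) (.e (nat_lit 5905) (nat_lit 320) (.e (nat_lit 1182) (nat_lit 87) (.e (nat_lit 57478) (nat_lit 28) (.e (nat_lit 557098) (nat_lit 13) (.e (nat_lit 172097) (nat_lit 9) (.e (nat_lit 426125) (nat_lit 2) (.e (nat_lit 196666) (nat_lit 13) (.e (nat_lit 65546) (nat_lit 0) (.e (nat_lit 1023) (nat_lit 81) .nil))))))))) (.g (nat_lit 7) .nil .nil))) 
(.lf (nat_lit 113828) (.g (nat_lit 1414) (.e (nat_lit 5905) (nat_lit 320) (.e (nat_lit 1189) (nat_lit 88) (.e (nat_lit 65619) (nat_lit 10) (.e (nat_lit 344169) (nat_lit 40) (.e (nat_lit 671746) (nat_lit 0) .nil))))) .nil))) (.nd (nat_lit 5) 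
(.lf (nat_lit 113812) (.g (nat_lit 3013) (.e (nat_lit 5905) (nat_lit 320) (.e (nat_lit 1182) (nat_lit 87) (.e (nat_lit 57480) (nat_lit 28) (.e (nat_lit 557098) (nat_lit 13) (.e (nat_lit 172097) (nat_lit 9) (.e (nat_lit 426140) (nat_lit 3) (.e (nat_lit 204855) (nat_lit 26) (.e (nat_lit 335923) (nat_lit 0) (.e (nat_lit 1023) (nat_lit 81) .nil))))))))) (.g (nat_lit 5) .nil .nil))) 
(.lf (nat_lit 113844) (.g (nat_lit 2981) (.e (nat_lit 5905) (nat_lit 320) (.e (nat_lit 1189) (nat_lit 88) (.e (nat_lit 65624) (nat_lit 12) (.e (nat_lit 385106) (nat_lit 50) (.e (nat_lit 786483) (nat_lit 30) (.e (nat_lit 368384) (nat_lit 0) .nil)))))) (.g (nat_lit 5) .nil .nil))))) (.nd (nat_lit 4) (.nd (nat_lit 5) 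
(.lf (nat_lit 113804) (.g (nat_lit 3087) (.e (nat_lit 5905) (nat_lit 320) (.e (nat_lit 1182) (nat_lit 87) (.e (nat_lit 57479) (nat_lit 28) (.e (nat_lit 557095) (nat_lit 13) (.e (nat_lit 172097) (nat_lit 9) (.e (nat_lit 426125) (nat_lit 2) (.e (nat_lit 196666) (nat_lit 13) (.e (nat_lit 65546) (nat_lit 0) (.e (nat_lit 1023) (nat_lit 81) .nil))))))))) (.g (nat_lit 4) .nil .nil))) 
(.lf (nat_lit 113836) (.g (nat_lit 2212) (.e (nat_lit 5905) (nat_lit 320) (.e (nat_lit 1189) (nat_lit 88) (.e (nat_lit 65622) (nat_lit 12) (.e (nat_lit 385105) (nat_lit 50) (.e (nat_lit 786481) (nat_lit 30) (.e (nat_lit 368384) (nat_lit 0) .nil)))))) (.g (nat_lit 5) .nil .nil)))) (.nd (nat_lit 5) 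
(.lf (nat_lit 113820) (.g (nat_lit 1996) (.e (nat_lit 5905) (nat_lit 320) (.e (nat_lit 1188) (nat_lit 88) (.e (nat_lit 65630) (nat_lit 14) (.e (nat_lit 401459) (nat_lit 13) (.e (nat_lit 483344) (nat_lit 17) .nil))))) .nil)) 
(.lf (nat_lit 113852) (.g (nat_lit 2134) (.e (nat_lit 5905) (nat_lit 320) (.e (nat_lit 1189) (nat_lit 88) (.e (nat_lit 65628) (nat_lit 14) (.e (nat_lit 401458) (nat_lit 13) (.e (nat_lit 483399) (nat_lit 25) (.e (nat_lit 368662) (nat_lit 18) .nil)))))) (.g (nat_lit 4) .nil .nil))))))) (.nd (nat_lit 2) (.nd (nat_lit 3) (.nd (nat_lit 4) (.nd (nat_lit 5) 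
(.lf (nat_lit 113794) (.g (nat_lit 2784) (.e (nat_lit 5905) (nat_lit 320) (.e (nat_lit 1181) (nat_lit 87) (.e (nat_lit 57480) (nat_lit 28) (.e (nat_lit 557107) (nat_lit 15) (.e (nat_lit 188450) (nat_lit 23) (.e (nat_lit 204855) (nat_lit 26) (.e (nat_lit 335923) (nat_lit 0) (.e (nat_lit 1023) (nat_lit 81) .nil)))))))) (.g (nat_lit 4) .nil .nil))) 
(.lf (nat_lit 113826) (.g (nat_lit 1847) (.e (nat_lit 5905) (nat_lit 320) (.e (nat_lit 1189) (nat_lit 88) (.e (nat_lit 65619) (nat_lit 10) (.e (nat_lit 344168) (nat_lit 40) (.e (nat_lit 671746) (nat_lit 0) (.e (nat_lit 1586) (nat_lit 111) (.e (nat_lit 368384) (nat_lit 0) .nil))))))) (.g (nat_lit 4) .nil .nil)))) (.nd (nat_lit 5) 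
(.lf (nat_lit 113810) (.g (nat_lit 2260) (.e (nat_lit 5905) (nat_lit 320) (.e (nat_lit 1182) (nat_lit 87) (.e (nat_lit 57479) (nat_lit 28) (.e (nat_lit 557101) (nat_lit 13) (.e (nat_lit 172115) (nat_lit 10) (.e (nat_lit 434231) (nat_lit 23) (.e (nat_lit 532535) (nat_lit 9) (.e (nat_lit 335928) (nat_lit 0) (.e (nat_lit 1023) (nat_lit 81) .nil))))))))) (.g (nat_lit 4) .nil .nil))) 
(.lf (nat_lit 113842) (.g (nat_lit 2778) (.e (nat_lit 5905) (nat_lit 320) (.e (nat_lit 1189) (nat_lit 88) (.e (nat_lit 65624) (nat_lit 12) (.e (nat_lit 385105) (nat_lit 50) (.e (nat_lit 786483) (nat_lit 30) (.e (nat_lit 368384) (nat_lit 0) .nil)))))) (.g (nat_lit 5) .nil .nil))))) (.nd (nat_lit 4) (.nd (nat_lit 5) 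
(.lf (nat_lit 113802) (.g (nat_lit 3654) (.e (nat_lit 5905) (nat_lit 320) (.e (nat_lit 1182) (nat_lit 87) (.e (nat_lit 57478) (nat_lit 28) (.e (nat_lit 557109) (nat_lit 15) (.e (nat_lit 188449) (nat_lit 22) (.e (nat_lit 196666) (nat_lit 13) (.e (nat_lit 65546) (nat_lit 0) (.e (nat_lit 1023) (nat_lit 81) .nil)))))))) (.g (nat_lit 6) .nil .nil))) 
(.lf (nat_lit 113834) (.g (nat_lit 2766) (.e (nat_lit 5905) (nat_lit 320) (.e (nat_lit 1189) (nat_lit 88) (.e (nat_lit 65619) (nat_lit 10) (.e (nat_lit 344169) (nat_lit 40) (.e (nat_lit 671748) (nat_lit 0) (.e (nat_lit 1598) (nat_lit 111) (.e (nat_lit 368384) (nat_lit 0) .nil))))))) (.g (nat_lit 6) .nil .nil)))) (.nd (nat_lit 5) 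
(.lf (nat_lit 113818) (.g (nat_lit 1760) (.e (nat_lit 5905) (nat_lit 320) (.e (nat_lit 1188) (nat_lit 88) (.e (nat_lit 65630) (nat_lit 14) (.e (nat_lit 401454) (nat_lit 12) (.e (nat_lit 483072) (nat_lit 13) .nil))))) .nil)) 
(.lf (nat_lit 113850) (.g (nat_lit 2005) (.e (nat_lit 5905) (nat_lit 320) (.e (nat_lit 1189) (nat_lit 88) (.e (nat_lit 65628) (nat_lit 14) (.e (nat_lit 401438) (nat_lit 9) (.e (nat_lit 426546) (nat_lit 30) (.e (nat_lit 368384) (nat_lit 0) .nil)))))) (.g (nat_lit 5) .nil .nil)))))) (.nd (nat_lit 3) (.nd (nat_lit 4) (.nd (nat_lit 5) 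
(.lf (nat_lit 113798) (.g (nat_lit 3661) (.e (nat_lit 5905) (nat_lit 320) (.e (nat_lit 1182) (nat_lit 87) (.e (nat_lit 57478) (nat_lit 28) (.e (nat_lit 557101) (nat_lit 13) (.e (nat_lit 172097) (nat_lit 9) (.e (nat_lit 426125) (nat_lit 2) (.e (nat_lit 196666) (nat_lit 13) (.e (nat_lit 65546) (nat_lit 0) (.e (nat_lit 1023) (nat_lit 81) .nil))))))))) (.g (nat_lit 7) .nil .nil))) 
(.lf (nat_lit 113830) (.g (nat_lit 2662) (.e (nat_lit 5905) (nat_lit 320) (.e (nat_lit 1189) (nat_lit 88) (.e (nat_lit 65619) (nat_lit 10) (.e (nat_lit 344169) (nat_lit 40) (.e (nat_lit 671747) (nat_lit 0) (.e (nat_lit 1586) (nat_lit 111) (.e (nat_lit 368384) (nat_lit 0) .nil))))))) (.g (nat_lit 6) .nil .nil)))) (.nd (nat_lit 5) 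
(.lf (nat_lit 113814) (.g (nat_lit 3518) (.e (nat_lit 5905) (nat_lit 320) (.e (nat_lit 1182) (nat_lit 87) (.e (nat_lit 57480) (nat_lit 28) (.e (nat_lit 557109) (nat_lit 15) (.e (nat_lit 188449) (nat_lit 22) (.e (nat_lit 196666) (nat_lit 13) (.e (nat_lit 65546) (nat_lit 0) (.e (nat_lit 1023) (nat_lit 81) .nil)))))))) (.g (nat_lit 5) .nil .nil))) 
(.lf (nat_lit 113846) (.g (nat_lit 1585) (.e (nat_lit 5905) (nat_lit 320) (.e (nat_lit 1189) (nat_lit 88) (.e (nat_lit 65628) (nat_lit 14) (.e (nat_lit 401436) (nat_lit 9) (.e (nat_lit 426546) (nat_lit 30) (.e (nat_lit 368384) (nat_lit 0) .nil)))))) (.g (nat_lit 5) .nil .nil))))) (.nd (nat_lit 4) (.nd (nat_lit 5) 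
(.lf (nat_lit 113806) (.g (nat_lit 2768) (.e (nat_lit 5905) (nat_lit 320) (.e (nat_lit 1182) (nat_lit 87) (.e (nat_lit 57479) (nat_lit 28) (.e (nat_lit 557095) (nat_lit 13) (.e (nat_lit 172115) (nat_lit 10) .nil))))) .nil)) 
(.lf (nat_lit 113838) (.g (nat_lit 2222) (.e (nat_lit 5905) (nat_lit 320) (.e (nat_lit 1189) (nat_lit 88) (.e (nat_lit 65622) (nat_lit 12) (.e (nat_lit 385106) (nat_lit 50) (.e (nat_lit 786481) (nat_lit 30) (.e (nat_lit 368384) (nat_lit 0) .nil)))))) (.g (nat_lit 5) .nil .nil)))) (.nd (nat_lit 5) 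
(.lf (nat_lit 113822) (.g (nat_lit 3151) (.e (nat_lit 5905) (nat_lit 320) (.e (nat_lit 1188) (nat_lit 88) (.e (nat_lit 65630) (nat_lit 14) (.e (nat_lit 401459) (nat_lit 13) (.e (nat_lit 483354) (nat_lit 17) (.e (nat_lit 7936) (nat_lit 346) (.e (nat_lit 57354) (nat_lit 0) .nil))))))) (.g (nat_lit 4) .nil .nil))) 
(.lf (nat_lit 113854) (.g (nat_lit 1959) (.e (nat_lit 5905) (nat_lit 320) (.e (nat_lit 1189) (nat_lit 88) (.e (nat_lit 65628) (nat_lit 14) (.e (nat_lit 401459) (nat_lit 13) (.e (nat_lit 483398) (nat_lit 25) .nil))))) .nil))))))) (.nd (nat_lit 1) (.nd (nat_lit 2) (.nd (nat_lit 3) (.nd (nat_lit 4) (.nd (nat_lit 5) 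
(.lf (nat_lit 113793) (.g (nat_lit 3626) (.e (nat_lit 5905) (nat_lit 320) (.e (nat_lit 1181) (nat_lit 87) (.e (nat_lit 57480) (nat_lit 28) (.e (nat_lit 557107) (nat_lit 15) (.e (nat_lit 188447) (nat_lit 22) (.e (nat_lit 196666) (nat_lit 13) (.e (nat_lit 65550) (nat_lit 0) (.e (nat_lit 1023) (nat_lit 81) .nil)))))))) (.g (nat_lit 5) .nil .nil))) 
(.lf (nat_lit 113825) (.g (nat_lit 2786) (.e (nat_lit 5905) (nat_lit 320) (.e (nat_lit 1189) (nat_lit 88) (.e (nat_lit 65619) (nat_lit 10) (.e (nat_lit 344097) (nat_lit 18) (.e (nat_lit 5907) (nat_lit 320) (.e (nat_lit 1189) (nat_lit 88) (.e (nat_lit 65619) (nat_lit 10) (.e (nat_lit 344097) (nat_lit 18) .nil)))))))) (.g (nat_lit 5) .nil .nil)))) (.nd (nat_lit 5) 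
(.lf (nat_lit 113809) (.g (nat_lit 3396) (.e (nat_lit 5905) (nat_lit 320) (.e (nat_lit 1182) (nat_lit 87) (.e (nat_lit 57479) (nat_lit 28) (.e (nat_lit 557101) (nat_lit 13) (.e (nat_lit 172097) (nat_lit 9) (.e (nat_lit 426140) (nat_lit 3) (.e (nat_lit 204855) (nat_lit 26) (.e (nat_lit 335923) (nat_lit 0) (.e (nat_lit 1023) (nat_lit 81) .nil))))))))) (.g (nat_lit 5) .nil .nil))) 
(.lf (nat_lit 113841) (.g (nat_lit 2485) (.e (nat_lit 5905) (nat_lit 320) (.e (nat_lit 1189) (nat_lit 88) (.e (nat_lit 65624) (nat_lit 12) (.e (nat_lit 385105) (nat_lit 50) (.e (nat_lit 786481) (nat_lit 30) (.e (nat_lit 368384) (nat_lit 0) .nil)))))) (.g (nat_lit 5) .nil .nil))))) (.nd (nat_lit 4) (.nd (nat_lit 5) 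
(.lf (nat_lit 113801) (.g (nat_lit 3631) (.e (nat_lit 5905) (nat_lit 320) (.e (nat_lit 1182) (nat_lit 87) (.e (nat_lit 57478) (nat_lit 28) (.e (nat_lit 557107) (nat_lit 15) (.e (nat_lit 188447) (nat_lit 22) (.e (nat_lit 196666) (nat_lit 13) (.e (nat_lit 65550) (nat_lit 0) (.e (nat_lit 1023) (nat_lit 81) .nil)))))))) (.g (nat_lit 6) .nil .nil))) 
(.lf (nat_lit 113833) (.g (nat_lit 2947) (.e (nat_lit 5905) (nat_lit 320) (.e (nat_lit 1189) (nat_lit 88) (.e (nat_lit 65619) (nat_lit 10) (.e (nat_lit 344169) (nat_lit 40) (.e (nat_lit 671748) (nat_lit 0) (.e (nat_lit 1595) (nat_lit 111) (.e (nat_lit 368384) (nat_lit 0) .nil))))))) (.g (nat_lit 6) .nil .nil)))) (.nd (nat_lit 5) 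
(.lf (nat_lit 113817) (.g (nat_lit 1990) (.e (nat_lit 5905) (nat_lit 320) (.e (nat_lit 1188) (nat_lit 88) (.e (nat_lit 65630) (nat_lit 14) (.e (nat_lit 401438) (nat_lit 9) (.e (nat_lit 426546) (nat_lit 30) (.e (nat_lit 368384) (nat_lit 0) .nil)))))) (.g (nat_lit 4) .nil .nil))) 
(.lf (nat_lit 113849) (.g (nat_lit 2120) (.e (nat_lit 5905) (nat_lit 320) (.e (nat_lit 1189) (nat_lit 88) (.e (nat_lit 65628) (nat_lit 14) (.e (nat_lit 401438) (nat_lit 9) (.e (nat_lit 426544) (nat_lit 30) (.e (nat_lit 368384) (nat_lit 0) .nil)))))) (.g (nat_lit 5) .nil .nil)))))) (.nd (nat_lit 3) (.nd (nat_lit 4) (.nd (nat_lit 5) 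
(.lf (nat_lit 113797) (.g (nat_lit 4313) (.e (nat_lit 5905) (nat_lit 320) (.e (nat_lit 1182) (nat_lit 87) (.e (nat_lit 57478) (nat_lit 28) (.e (nat_lit 557098) (nat_lit 13) (.e (nat_lit 172097) (nat_lit 9) (.e (nat_lit 426125) (nat_lit 2) (.e (nat_lit 196666) (nat_lit 13) (.e (nat_lit 65550) (nat_lit 0) (.e (nat_lit 1023) (nat_lit 81) .nil))))))))) (.g (nat_lit 7) .nil .nil))) 
(.lf (nat_lit 113829) (.g (nat_lit 1670) (.e (nat_lit 5905) (nat_lit 320) (.e (nat_lit 1189) (nat_lit 88) (.e (nat_lit 65619) (nat_lit 10) (.e (nat_lit 344169) (nat_lit 40) (.e (nat_lit 671746) (nat_lit 0) (.e (nat_lit 1599) (nat_lit 111) (.e (nat_lit 368384) (nat_lit 0) .nil))))))) (.g (nat_lit 4) .nil .nil)))) (.nd (nat_lit 5) 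
(.lf (nat_lit 113813) (.g (nat_lit 2334) (.e (nat_lit 5905) (nat_lit 320) (.e (nat_lit 1182) (nat_lit 87) (.e (nat_lit 57480) (nat_lit 28) (.e (nat_lit 557107) (nat_lit 15) (.e (nat_lit 188450) (nat_lit 23) (.e (nat_lit 204855) (nat_lit 26) (.e (nat_lit 335923) (nat_lit 0) (.e (nat_lit 1023) (nat_lit 81) .nil)))))))) (.g (nat_lit 4) .nil .nil))) 
(.lf (nat_lit 113845) (.g (nat_lit 1624) (.e (nat_lit 5905) (nat_lit 320) (.e (nat_lit 1189) (nat_lit 88) (.e (nat_lit 65628) (nat_lit 14) (.e (nat_lit 401436) (nat_lit 9) (.e (nat_lit 426544) (nat_lit 30) (.e (nat_lit 368384) (nat_lit 0) .nil)))))) (.g (nat_lit 5) .nil .nil))))) (.nd (nat_lit 4) (.nd (nat_lit 5) 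
(.lf (nat_lit 113805) (.g (nat_lit 3594) (.e (nat_lit 5905) (nat_lit 320) (.e (nat_lit 1182) (nat_lit 87) (.e (nat_lit 57479) (nat_lit 28) (.e (nat_lit 557095) (nat_lit 13) (.e (nat_lit 172097) (nat_lit 9) (.e (nat_lit 426125) (nat_lit 2) (.e (nat_lit 196666) (nat_lit 13) (.e (nat_lit 65550) (nat_lit 0) (.e (nat_lit 1023) (nat_lit 81) .nil))))))))) (.g (nat_lit 4) .nil .nil))) 
(.lf (nat_lit 113837) (.g (nat_lit 2581) (.e (nat_lit 5905) (nat_lit 320) (.e (nat_lit 1189) (nat_lit 88) (.e (nat_lit 65622) (nat_lit 12) (.e (nat_lit 385105) (nat_lit 50) (.e (nat_lit 786483) (nat_lit 30) (.e (nat_lit 368384) (nat_lit 0) .nil)))))) (.g (nat_lit 5) .nil .nil)))) (.nd (nat_lit 5) 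
(.lf (nat_lit 113821) (.g (nat_lit 3766) (.e (nat_lit 5905) (nat_lit 320) (.e (nat_lit 1188) (nat_lit 88) (.e (nat_lit 65630) (nat_lit 14) (.e (nat_lit 401459) (nat_lit 13) (.e (nat_lit 483344) (nat_lit 17) (.e (nat_lit 7936) (nat_lit 346) (.e (nat_lit 57354) (nat_lit 0) .nil))))))) (.g (nat_lit 5) .nil .nil))) 
(.lf (nat_lit 113853) (.g (nat_lit 2856) (.e (nat_lit 5905) (nat_lit 320) (.e (nat_lit 1189) (nat_lit 88) (.e (nat_lit 65628) (nat_lit 14) (.e (nat_lit 401459) (nat_lit 13) (.e (nat_lit 483344) (nat_lit 17) (.e (nat_lit 7936) (nat_lit 346) (.e (nat_lit 57354) (nat_lit 0) .nil))))))) (.g (nat_lit 5) .nil .nil))))))) (.nd (nat_lit 2) (.nd (nat_lit 3) (.nd (nat_lit 4) (.nd (nat_lit 5) 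
(.lf (nat_lit 113795) (.g (nat_lit 2524) (.e (nat_lit 5905) (nat_lit 320) (.e (nat_lit 1181) (nat_lit 87) (.e (nat_lit 57480) (nat_lit 28) (.e (nat_lit 557109) (nat_lit 15) (.e (nat_lit 188452) (nat_lit 23) (.e (nat_lit 204855) (nat_lit 26) (.e (nat_lit 335925) (nat_lit 0) (.e (nat_lit 1023) (nat_lit 81) .nil)))))))) (.g (nat_lit 4) .nil .nil))) 
(.lf (nat_lit 113827) (.g (nat_lit 1500) (.e (nat_lit 5905) (nat_lit 320) (.e (nat_lit 1189) (nat_lit 88) (.e (nat_lit 65619) (nat_lit 10) (.e (nat_lit 344168) (nat_lit 40) (.e (nat_lit 671746) (nat_lit 0) (.e (nat_lit 1599) (nat_lit 111) (.e (nat_lit 368384) (nat_lit 0) .nil))))))) (.g (nat_lit 4) .nil .nil)))) (.nd (nat_lit 5) 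
(.lf (nat_lit 113811) (.g (nat_lit 3032) (.e (nat_lit 5905) (nat_lit 320) (.e (nat_lit 1182) (nat_lit 87) (.e (nat_lit 57480) (nat_lit 28) (.e (nat_lit 557098) (nat_lit 13) (.e (nat_lit 172097) (nat_lit 9) (.e (nat_lit 426125) (nat_lit 2) (.e (nat_lit 196666) (nat_lit 13) (.e (nat_lit 65553) (nat_lit 0) (.e (nat_lit 1023) (nat_lit 81) .nil))))))))) (.g (nat_lit 5) .nil .nil))) 
(.lf (nat_lit 113843) (.g (nat_lit 2489) (.e (nat_lit 5905) (nat_lit 320) (.e (nat_lit 1189) (nat_lit 88) (.e (nat_lit 65624) (nat_lit 12) (.e (nat_lit 385106) (nat_lit 50) (.e (nat_lit 786481) (nat_lit 30) (.e (nat_lit 368384) (nat_lit 0) .nil)))))) (.g (nat_lit 5) .nil .nil))))) (.nd (nat_lit 4) (.nd (nat_lit 5) 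
(.lf (nat_lit 113803) (.g (nat_lit 4122) (.e (nat_lit 5905) (nat_lit 320) (.e (nat_lit 1182) (nat_lit 87) (.e (nat_lit 57478) (nat_lit 28) (.e (nat_lit 557109) (nat_lit 15) (.e (nat_lit 188449) (nat_lit 22) (.e (nat_lit 196666) (nat_lit 13) (.e (nat_lit 65550) (nat_lit 0) (.e (nat_lit 1023) (nat_lit 81) .nil)))))))) (.g (nat_lit 6) .nil .nil))) 
(.lf (nat_lit 113835) (.g (nat_lit 2613) (.e (nat_lit 5905) (nat_lit 320) (.e (nat_lit 1189) (nat_lit 88) (.e (nat_lit 65619) (nat_lit 10) (.e (nat_lit 344169) (nat_lit 40) (.e (nat_lit 671748) (nat_lit 0) (.e (nat_lit 1599) (nat_lit 111) (.e (nat_lit 368384) (nat_lit 0) .nil))))))) (.g (nat_lit 6) .nil .nil)))) (.nd (nat_lit 5) 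
(.lf (nat_lit 113819) (.g (nat_lit 2776) (.e (nat_lit 5905) (nat_lit 320) (.e (nat_lit 1188) (nat_lit 88) (.e (nat_lit 65630) (nat_lit 14) (.e (nat_lit 401454) (nat_lit 12) (.e (nat_lit 475154) (nat_lit 20) .nil))))) .nil)) 
(.lf (nat_lit 113851) (.g (nat_lit 1824) (.e (nat_lit 5905) (nat_lit 320) (.e (nat_lit 1189) (nat_lit 88) (.e (nat_lit 65628) (nat_lit 14) (.e (nat_lit 401458) (nat_lit 13) (.e (nat_lit 483383) (nat_lit 23) (.e (nat_lit 335878) (nat_lit 0) (.e (nat_lit 1028) (nat_lit 81) .nil))))))) (.g (nat_lit 4) .nil .nil)))))) (.nd (nat_lit 3) (.nd (nat_lit 4) (.nd (nat_lit 5) 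
(.lf (nat_lit 113799) (.g (nat_lit 4168) (.e (nat_lit 5905) (nat_lit 320) (.e (nat_lit 1182) (nat_lit 87) (.e (nat_lit 57478) (nat_lit 28) (.e (nat_lit 557101) (nat_lit 13) (.e (nat_lit 172097) (nat_lit 9) (.e (nat_lit 426125) (nat_lit 2) (.e (nat_lit 196666) (nat_lit 13) (.e (nat_lit 65550) (nat_lit 0) (.e (nat_lit 1023) (nat_lit 81) .nil))))))))) (.g (nat_lit 7) .nil .nil))) 
(.lf (nat_lit 113831) (.g (nat_lit 3048) (.e (nat_lit 5905) (nat_lit 320) (.e (nat_lit 1189) (nat_lit 88) (.e (nat_lit 65619) (nat_lit 10) (.e (nat_lit 344169) (nat_lit 40) (.e (nat_lit 671748) (nat_lit 0) (.e (nat_lit 1586) (nat_lit 111) (.e (nat_lit 368384) (nat_lit 0) .nil))))))) (.g (nat_lit 6) .nil .nil)))) (.nd (nat_lit 5) 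
(.lf (nat_lit 113815) (.g (nat_lit 2032) (.e (nat_lit 5905) (nat_lit 320) (.e (nat_lit 1188) (nat_lit 88) (.e (nat_lit 65629) (nat_lit 14) (.e (nat_lit 401459) (nat_lit 13) (.e (nat_lit 483344) (nat_lit 17) .nil))))) .nil)) 
(.lf (nat_lit 113847) (.g (nat_lit 2952) (.e (nat_lit 5905) (nat_lit 320) (.e (nat_lit 1189) (nat_lit 88) (.e (nat_lit 65628) (nat_lit 14) (.e (nat_lit 401437) (nat_lit 9) (.e (nat_lit 426544) (nat_lit 30) (.e (nat_lit 368384) (nat_lit 0) .nil)))))) (.g (nat_lit 5) .nil .nil))))) (.nd (nat_lit 4) (.nd (nat_lit 5) 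
(.lf (nat_lit 113807) (.g (nat_lit 1841) (.e (nat_lit 5905) (nat_lit 320) (.e (nat_lit 1182) (nat_lit 87) (.e (nat_lit 57479) (nat_lit 28) (.e (nat_lit 557100) (nat_lit 13) (.e (nat_lit 172106) (nat_lit 10) .nil))))) .nil)) 
(.lf (nat_lit 113839) (.g (nat_lit 2601) (.e (nat_lit 5905) (nat_lit 320) (.e (nat_lit 1189) (nat_lit 88) (.e (nat_lit 65622) (nat_lit 12) (.e (nat_lit 385106) (nat_lit 50) (.e (nat_lit 786483) (nat_lit 30) (.e (nat_lit 368384) (nat_lit 0) .nil)))))) (.g (nat_lit 5) .nil .nil)))) (.nd (nat_lit 5) 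
(.lf (nat_lit 113823) (.g (nat_lit 3770) (.e (nat_lit 5905) (nat_lit 320) (.e (nat_lit 1188) (nat_lit 88) (.e (nat_lit 65630) (nat_lit 14) (.e (nat_lit 401459) (nat_lit 13) (.e (nat_lit 483394) (nat_lit 24) (.e (nat_lit 344097) (nat_lit 18) .nil)))))) (.g (nat_lit 0) .nil .nil))) 
(.lf (nat_lit 113855) (.g (nat_lit 1910) (.e (nat_lit 5905) (nat_lit 320) (.e (nat_lit 1189) (nat_lit 88) (.e (nat_lit 65628) (nat_lit 14) (.e (nat_lit 401459) (nat_lit 13) (.e (nat_lit 483399) (nat_lit 25) .nil))))) .nil))))))))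

noncomputable def tv1535 : DT := (.nd (nat_lit 0) (.nd (nat_lit 1) (.nd (nat_lit 2) (.nd (nat_lit 3) (.nd (nat_lit 4) (.nd (nat_lit 5) 
(.lf (nat_lit 113856) (.g (nat_lit 3121) (.e (nat_lit 5905) (nat_lit 320) (.e (nat_lit 1189) (nat_lit 88) (.e (nat_lit 65629) (nat_lit 14) (.e (nat_lit 401459) (nat_lit 13) (.e (nat_lit 483354) (nat_lit 17) (.e (nat_lit 7936) (nat_lit 346) (.e (nat_lit 57354) (nat_lit 0) .nil))))))) (.g (nat_lit 4) .nil .nil))) 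
(.lf (nat_lit 113888) (.g (nat_lit 2920) (.e (nat_lit 5905) (nat_lit 320) (.e (nat_lit 1190) (nat_lit 88) (.e (nat_lit 65622) (nat_lit 12) (.e (nat_lit 385106) (nat_lit 50) (.e (nat_lit 786483) (nat_lit 30) (.e (nat_lit 368384) (nat_lit 0) .nil)))))) (.g (nat_lit 5) .nil .nil)))) (.nd (nat_lit 5) 
(.lf (nat_lit 113872) (.g (nat_lit 2720) (.e (nat_lit 5905) (nat_lit 320) (.e (nat_lit 1190) (nat_lit 88) (.e (nat_lit 65619) (nat_lit 10) (.e (nat_lit 344169) (nat_lit 40) (.e (nat_lit 671746) (nat_lit 0) (.e (nat_lit 1586) (nat_lit 111) (.e (nat_lit 368384) (nat_lit 0) .nil))))))) (.g (nat_lit 5) .nil .nil))) 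
(.lf (nat_lit 113904) (.g (nat_lit 2545) (.e (nat_lit 5905) (nat_lit 320) (.e (nat_lit 1190) (nat_lit 88) (.e (nat_lit 65628) (nat_lit 14) (.e (nat_lit 401458) (nat_lit 13) (.e (nat_lit 483399) (nat_lit 25) (.e (nat_lit 368662) (nat_lit 18) .nil)))))) (.g (nat_lit 4) .nil .nil))))) (.nd (nat_lit 4) (.nd (nat_lit 5) 
(.lf (nat_lit 113864) (.g (nat_lit 1897) (.e (nat_lit 5905) (nat_lit 320) (.e (nat_lit 1190) (nat_lit 88) (.e (nat_lit 65619) (nat_lit 10) (.e (nat_lit 344168) (nat_lit 40) (.e (nat_lit 671747) (nat_lit 0) .nil))))) .nil)) 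
(.lf (nat_lit 113896) (.g (nat_lit 1627) (.e (nat_lit 5905) (nat_lit 320) (.e (nat_lit 1190) (nat_lit 88) (.e (nat_lit 65628) (nat_lit 14) (.e (nat_lit 401437) (nat_lit 9) (.e (nat_lit 426533) (nat_lit 28) .nil))))) .nil))) (.nd (nat_lit 5) 
(.lf (nat_lit 113880) (.g (nat_lit 3696) (.e (nat_lit 5905) (nat_lit 320) (.e (nat_lit 1190) (nat_lit 88) (.e (nat_lit 65619) (nat_lit 10) (.e (nat_lit 344169) (nat_lit 40) (.e (nat_lit 671748) (nat_lit 0) (.e (nat_lit 1595) (nat_lit 111) (.e (nat_lit 368384) (nat_lit 0) .nil))))))) (.g (nat_lit 6) .nil .nil))) 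
(.lf (nat_lit 113912) (.g (nat_lit 2207) (.e (nat_lit 5905) (nat_lit 320) (.e (nat_lit 1190) (nat_lit 88) (.e (nat_lit 65628) (nat_lit 14) (.e (nat_lit 401459) (nat_lit 13) (.e (nat_lit 483399) (nat_lit 25) .nil))))) .nil))))) (.nd (nat_lit 3) (.nd (nat_lit 4) (.nd (nat_lit 5) 
(.lf (nat_lit 113860) (.g (nat_lit 2220) (.e (nat_lit 5905) (nat_lit 320) (.e (nat_lit 1190) (nat_lit 88) (.e (nat_lit 65619) (nat_lit 10) (.e (nat_lit 344097) (nat_lit 18) (.e (nat_lit 5907) (nat_lit 320) (.e (nat_lit 1221) (nat_lit 90) (.e (nat_lit 81938) (nat_lit 20) (.e (nat_lit 1023) (nat_lit 81) .nil)))))))) (.g (nat_lit 4) .nil .nil))) 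
(.lf (nat_lit 113892) (.g (nat_lit 3261) (.e (nat_lit 5905) (nat_lit 320) (.e (nat_lit 1190) (nat_lit 88) (.e (nat_lit 65624) (nat_lit 12) (.e (nat_lit 385106) (nat_lit 50) (.e (nat_lit 786481) (nat_lit 30) (.e (nat_lit 368384) (nat_lit 0) .nil)))))) (.g (nat_lit 5) .nil .nil)))) (.nd (nat_lit 5) 
(.lf (nat_lit 113876) (.g (nat_lit 2493) (.e (nat_lit 5905) (nat_lit 320) (.e (nat_lit 1190) (nat_lit 88) (.e (nat_lit 65619) (nat_lit 10) (.e (nat_lit 344169) (nat_lit 40) (.e (nat_lit 671747) (nat_lit 0) (.e (nat_lit 1598) (nat_lit 111) (.e (nat_lit 368384) (nat_lit 0) .nil))))))) (.g (nat_lit 4) .nil .nil))) 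
(.lf (nat_lit 113908) (.g (nat_lit 2161) (.e (nat_lit 5905) (nat_lit 320) (.e (nat_lit 1190) (nat_lit 88) (.e (nat_lit 65628) (nat_lit 14) (.e (nat_lit 401459) (nat_lit 13) (.e (nat_lit 483386) (nat_lit 23) (.e (nat_lit 335921) (nat_lit 0) (.e (nat_lit 1023) (nat_lit 81) .nil))))))) (.g (nat_lit 4) .nil .nil))))) (.nd (nat_lit 4) (.nd (nat_lit 5) 
(.lf (nat_lit 113868) (.g (nat_lit 3250) (.e (nat_lit 5905) (nat_lit 320) (.e (nat_lit 1190) (nat_lit 88) (.e (nat_lit 65619) (nat_lit 10) (.e (nat_lit 344168) (nat_lit 40) (.e (nat_lit 671747) (nat_lit 0) (.e (nat_lit 1595) (nat_lit 111) (.e (nat_lit 368384) (nat_lit 0) .nil))))))) (.g (nat_lit 6) .nil .nil))) 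
(.lf (nat_lit 113900) (.g (nat_lit 2561) (.e (nat_lit 5905) (nat_lit 320) (.e (nat_lit 1190) (nat_lit 88) (.e (nat_lit 65628) (nat_lit 14) (.e (nat_lit 401438) (nat_lit 9) (.e (nat_lit 426546) (nat_lit 30) (.e (nat_lit 368384) (nat_lit 0) .nil)))))) (.g (nat_lit 4) .nil .nil)))) (.nd (nat_lit 5) 
(.lf (nat_lit 113884) (.g (nat_lit 1852) (.e (nat_lit 5905) (nat_lit 320) (.e (nat_lit 1190) (nat_lit 88) (.e (nat_lit 65619) (nat_lit 10) (.e (nat_lit 344169) (nat_lit 40) (.e (nat_lit 671760) (nat_lit 4) .nil))))) .nil)) 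
(.lf (nat_lit 113916) (.g (nat_lit 3423) (.e (nat_lit 5905) (nat_lit 320) (.e (nat_lit 1190) (nat_lit 88) (.e (nat_lit 65630) (nat_lit 14) (.e (nat_lit 401454) (nat_lit 12) (.e (nat_lit 475154) (nat_lit 20) .nil))))) .nil)))))) (.nd (nat_lit 2) (.nd (nat_lit 3) (.nd (nat_lit 4) (.nd (nat_lit 5) 
(.lf (nat_lit 113858) (.g (nat_lit 546) (.e (nat_lit 5905) (nat_lit 320) (.e (nat_lit 1190) (nat_lit 88) (.e (nat_lit 65581) (nat_lit 7) .nil))) .nil)) 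
(.lf (nat_lit 113890) (.g (nat_lit 3263) (.e (nat_lit 5905) (nat_lit 320) (.e (nat_lit 1190) (nat_lit 88) (.e (nat_lit 65624) (nat_lit 12) (.e (nat_lit 385105) (nat_lit 50) (.e (nat_lit 786481) (nat_lit 30) (.e (nat_lit 368384) (nat_lit 0) .nil)))))) (.g (nat_lit 5) .nil .nil)))) (.nd (nat_lit 5) 
(.lf (nat_lit 113874) (.g (nat_lit 3336) (.e (nat_lit 5905) (nat_lit 320) (.e (nat_lit 1190) (nat_lit 88) (.e (nat_lit 65619) (nat_lit 10) (.e (nat_lit 344169) (nat_lit 40) (.e (nat_lit 671747) (nat_lit 0) (.e (nat_lit 1586) (nat_lit 111) (.e (nat_lit 368384) (nat_lit 0) .nil))))))) (.g (nat_lit 6) .nil .nil))) 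
(.lf (nat_lit 113906) (.g (nat_lit 2952) (.e (nat_lit 5905) (nat_lit 320) (.e (nat_lit 1190) (nat_lit 88) (.e (nat_lit 65628) (nat_lit 14) (.e (nat_lit 401459) (nat_lit 13) (.e (nat_lit 483347) (nat_lit 17) (.e (nat_lit 7936) (nat_lit 346) (.e (nat_lit 57354) (nat_lit 0) .nil))))))) (.g (nat_lit 4) .nil .nil))))) (.nd (nat_lit 4) (.nd (nat_lit 5) 
(.lf (nat_lit 113866) (.g (nat_lit 2330) (.e (nat_lit 5905) (nat_lit 320) (.e (nat_lit 1190) (nat_lit 88) (.e (nat_lit 65619) (nat_lit 10) (.e (nat_lit 344168) (nat_lit 40) (.e (nat_lit 671747) (nat_lit 0) (.e (nat_lit 1592) (nat_lit 111) (.e (nat_lit 368384) (nat_lit 0) .nil))))))) (.g (nat_lit 4) .nil .nil))) 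
(.lf (nat_lit 113898) (.g (nat_lit 3100) (.e (nat_lit 5905) (nat_lit 320) (.e (nat_lit 1190) (nat_lit 88) (.e (nat_lit 65628) (nat_lit 14) (.e (nat_lit 401437) (nat_lit 9) (.e (nat_lit 426546) (nat_lit 30) (.e (nat_lit 368384) (nat_lit 0) .nil)))))) (.g (nat_lit 5) .nil .nil)))) (.nd (nat_lit 5) 
(.lf (nat_lit 113882) (.g (nat_lit 3362) (.e (nat_lit 5905) (nat_lit 320) (.e (nat_lit 1190) (nat_lit 88) (.e (nat_lit 65619) (nat_lit 10) (.e (nat_lit 344169) (nat_lit 40) (.e (nat_lit 671748) (nat_lit 0) (.e (nat_lit 1599) (nat_lit 111) (.e (nat_lit 368384) (nat_lit 0) .nil))))))) (.g (nat_lit 6) .nil .nil))) 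
(.lf (nat_lit 113914) (.g (nat_lit 525) (.e (nat_lit 5905) (nat_lit 320) (.e (nat_lit 1190) (nat_lit 88) (.e (nat_lit 65630) (nat_lit 14) .nil))) .nil))))) (.nd (nat_lit 3) (.nd (nat_lit 4) (.nd (nat_lit 5) 
(.lf (nat_lit 113862) (.g (nat_lit 1983) (.e (nat_lit 5905) (nat_lit 320) (.e (nat_lit 1190) (nat_lit 88) (.e (nat_lit 65619) (nat_lit 10) (.e (nat_lit 344168) (nat_lit 40) (.e (nat_lit 671746) (nat_lit 0) (.e (nat_lit 1598) (nat_lit 111) (.e (nat_lit 368384) (nat_lit 0) .nil))))))) (.g (nat_lit 4) .nil .nil))) 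
(.lf (nat_lit 113894) (.g (nat_lit 2197) (.e (nat_lit 5905) (nat_lit 320) (.e (nat_lit 1190) (nat_lit 88) (.e (nat_lit 65628) (nat_lit 14) (.e (nat_lit 401436) (nat_lit 9) (.e (nat_lit 426544) (nat_lit 30) (.e (nat_lit 368384) (nat_lit 0) .nil)))))) (.g (nat_lit 4) .nil .nil)))) (.nd (nat_lit 5) 
(.lf (nat_lit 113878) (.g (nat_lit 3797) (.e (nat_lit 5905) (nat_lit 320) (.e (nat_lit 1190) (nat_lit 88) (.e (nat_lit 65619) (nat_lit 10) (.e (nat_lit 344169) (nat_lit 40) (.e (nat_lit 671748) (nat_lit 0) (.e (nat_lit 1586) (nat_lit 111) (.e (nat_lit 368384) (nat_lit 0) .nil))))))) (.g (nat_lit 6) .nil .nil))) 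
(.lf (nat_lit 113910) (.g (nat_lit 2976) (.e (nat_lit 5905) (nat_lit 320) (.e (nat_lit 1190) (nat_lit 88) (.e (nat_lit 65628) (nat_lit 14) (.e (nat_lit 401459) (nat_lit 13) (.e (nat_lit 483397) (nat_lit 25) .nil))))) .nil)))) (.nd (nat_lit 4) (.nd (nat_lit 5) 
(.lf (nat_lit 113870) (.g (nat_lit 2460) (.e (nat_lit 5905) (nat_lit 320) (.e (nat_lit 1190) (nat_lit 88) (.e (nat_lit 65619) (nat_lit 10) (.e (nat_lit 344168) (nat_lit 40) (.e (nat_lit 671747) (nat_lit 0) (.e (nat_lit 1599) (nat_lit 111) (.e (nat_lit 368384) (nat_lit 0) .nil))))))) (.g (nat_lit 4) .nil .nil))) 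
(.lf (nat_lit 113902) (.g (nat_lit 1126) (.e (nat_lit 5905) (nat_lit 320) (.e (nat_lit 1190) (nat_lit 88) (.e (nat_lit 65628) (nat_lit 14) (.e (nat_lit 401458) (nat_lit 13) .nil)))) .nil))) (.nd (nat_lit 5) 
(.lf (nat_lit 113886) (.g (nat_lit 2888) (.e (nat_lit 5905) (nat_lit 320) (.e (nat_lit 1190) (nat_lit 88) (.e (nat_lit 65622) (nat_lit 12) (.e (nat_lit 385105) (nat_lit 50) (.e (nat_lit 786483) (nat_lit 30) (.e (nat_lit 368384) (nat_lit 0) .nil)))))) (.g (nat_lit 5) .nil .nil))) 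
(.lf (nat_lit 113918) (.g (nat_lit 3727) (.e (nat_lit 5905) (nat_lit 320) (.e (nat_lit 1190) (nat_lit 88) (.e (nat_lit 65630) (nat_lit 14) (.e (nat_lit 401459) (nat_lit 13) (.e (nat_lit 483343) (nat_lit 17) (.e (nat_lit 6514) (nat_lit 346) (.e (nat_lit 57354) (nat_lit 0) .nil))))))) (.g (nat_lit 4) .nil .nil)))))))) 
(.nd (nat_lit 1) (.nd (nat_lit 2) (.nd (nat_lit 3) (.nd (nat_lit 4) (.nd (nat_lit 5) 
(.lf (nat_lit 113857) (.g (nat_lit 1758) (.e (nat_lit 5905) (nat_lit 320) (.e (nat_lit 1189) (nat_lit 88) (.e (nat_lit 65630) (nat_lit 14) (.e (nat_lit 401458) (nat_lit 13) (.e (nat_lit 483398) (nat_lit 25) .nil))))) .nil)) 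
(.lf (nat_lit 113889) (.g (nat_lit 535) (.e (nat_lit 5905) (nat_lit 320) (.e (nat_lit 1190) (nat_lit 88) (.e (nat_lit 65624) (nat_lit 12) .nil))) .nil))) (.nd (nat_lit 5) 
(.lf (nat_lit 113873) (.g (nat_lit 2372) (.e (nat_lit 5905) (nat_lit 320) (.e (nat_lit 1190) (nat_lit 88) (.e (nat_lit 65619) (nat_lit 10) (.e (nat_lit 344169) (nat_lit 40) (.e (nat_lit 671746) (nat_lit 0) (.e (nat_lit 1599) (nat_lit 111) (.e (nat_lit 368384) (nat_lit 0) .nil))))))) (.g (nat_lit 4) .nil .nil))) 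
(.lf (nat_lit 113905) (.g (nat_lit 3449) (.e (nat_lit 5905) (nat_lit 320) (.e (nat_lit 1190) (nat_lit 88) (.e (nat_lit 65628) (nat_lit 14) (.e (nat_lit 401459) (nat_lit 13) (.e (nat_lit 483344) (nat_lit 17) (.e (nat_lit 7936) (nat_lit 346) (.e (nat_lit 57354) (nat_lit 0) .nil))))))) (.g (nat_lit 5) .nil .nil))))) (.nd (nat_lit 4) (.nd (nat_lit 5) 
(.lf (nat_lit 113865) (.g (nat_lit 3391) (.e (nat_lit 5905) (nat_lit 320) (.e (nat_lit 1190) (nat_lit 88) (.e (nat_lit 65619) (nat_lit 10) (.e (nat_lit 344168) (nat_lit 40) (.e (nat_lit 671747) (nat_lit 0) (.e (nat_lit 1586) (nat_lit 111) (.e (nat_lit 368384) (nat_lit 0) .nil))))))) (.g (nat_lit 6) .nil .nil))) 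
(.lf (nat_lit 113897) (.g (nat_lit 2906) (.e (nat_lit 5905) (nat_lit 320) (.e (nat_lit 1190) (nat_lit 88) (.e (nat_lit 65628) (nat_lit 14) (.e (nat_lit 401437) (nat_lit 9) (.e (nat_lit 426544) (nat_lit 30) (.e (nat_lit 368384) (nat_lit 0) .nil)))))) (.g (nat_lit 5) .nil .nil)))) (.nd (nat_lit 5) 
(.lf (nat_lit 113881) (.g (nat_lit 3515) (.e (nat_lit 5905) (nat_lit 320) (.e (nat_lit 1190) (nat_lit 88) (.e (nat_lit 65619) (nat_lit 10) (.e (nat_lit 344169) (nat_lit 40) (.e (nat_lit 671748) (nat_lit 0) (.e (nat_lit 1598) (nat_lit 111) (.e (nat_lit 368384) (nat_lit 0) .nil))))))) (.g (nat_lit 6) .nil .nil))) 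
(.lf (nat_lit 113913) (.g (nat_lit 2724) (.e (nat_lit 5905) (nat_lit 320) (.e (nat_lit 1190) (nat_lit 88) (.e (nat_lit 65629) (nat_lit 14) (.e (nat_lit 401459) (nat_lit 13) (.e (nat_lit 483343) (nat_lit 17) .nil))))) .nil))))) (.nd (nat_lit 3) (.nd (nat_lit 4) (.nd (nat_lit 5) 
(.lf (nat_lit 113861) (.g (nat_lit 1160) (.e (nat_lit 5905) (nat_lit 320) (.e (nat_lit 1190) (nat_lit 88) (.e (nat_lit 65619) (nat_lit 10) (.e (nat_lit 344168) (nat_lit 40) .nil)))) .nil)) 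
(.lf (nat_lit 113893) (.g (nat_lit 3611) (.e (nat_lit 5905) (nat_lit 320) (.e (nat_lit 1190) (nat_lit 88) (.e (nat_lit 65624) (nat_lit 12) (.e (nat_lit 385106) (nat_lit 50) (.e (nat_lit 786483) (nat_lit 30) (.e (nat_lit 368384) (nat_lit 0) .nil)))))) (.g (nat_lit 5) .nil .nil)))) (.nd (nat_lit 5) 
(.lf (nat_lit 113877) (.g (nat_lit 2458) (.e (nat_lit 5905) (nat_lit 320) (.e (nat_lit 1190) (nat_lit 88) (.e (nat_lit 65619) (nat_lit 10) (.e (nat_lit 344169) (nat_lit 40) (.e (nat_lit 671747) (nat_lit 0) (.e (nat_lit 1599) (nat_lit 111) (.e (nat_lit 368384) (nat_lit 0) .nil))))))) (.g (nat_lit 4) .nil .nil))) 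
(.lf (nat_lit 113909) (.g (nat_lit 2197) (.e (nat_lit 5905) (nat_lit 320) (.e (nat_lit 1190) (nat_lit 88) (.e (nat_lit 65628) (nat_lit 14) (.e (nat_lit 401459) (nat_lit 13) (.e (nat_lit 483386) (nat_lit 23) (.e (nat_lit 335923) (nat_lit 0) (.e (nat_lit 1023) (nat_lit 81) .nil))))))) (.g (nat_lit 4) .nil .nil))))) (.nd (nat_lit 4) (.nd (nat_lit 5) 
(.lf (nat_lit 113869) (.g (nat_lit 2620) (.e (nat_lit 5905) (nat_lit 320) (.e (nat_lit 1190) (nat_lit 88) (.e (nat_lit 65619) (nat_lit 10) (.e (nat_lit 344168) (nat_lit 40) (.e (nat_lit 671747) (nat_lit 0) (.e (nat_lit 1598) (nat_lit 111) (.e (nat_lit 368384) (nat_lit 0) .nil))))))) (.g (nat_lit 4) .nil .nil))) 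
(.lf (nat_lit 113901) (.g (nat_lit 1946) (.e (nat_lit 5905) (nat_lit 320) (.e (nat_lit 1190) (nat_lit 88) (.e (nat_lit 65628) (nat_lit 14) (.e (nat_lit 401454) (nat_lit 12) (.e (nat_lit 483072) (nat_lit 13) .nil))))) .nil))) (.nd (nat_lit 5) 
(.lf (nat_lit 113885) (.g (nat_lit 2591) (.e (nat_lit 5905) (nat_lit 320) (.e (nat_lit 1190) (nat_lit 88) (.e (nat_lit 65622) (nat_lit 12) (.e (nat_lit 385105) (nat_lit 50) (.e (nat_lit 786481) (nat_lit 30) (.e (nat_lit 368384) (nat_lit 0) .nil)))))) (.g (nat_lit 4) .nil .nil))) 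
(.lf (nat_lit 113917) (.g (nat_lit 1180) (.e (nat_lit 5905) (nat_lit 320) (.e (nat_lit 1190) (nat_lit 88) (.e (nat_lit 65630) (nat_lit 14) (.e (nat_lit 401458) (nat_lit 13) .nil)))) .nil)))))) (.nd (nat_lit 2) (.nd (nat_lit 3) (.nd (nat_lit 4) (.nd (nat_lit 5) 
(.lf (nat_lit 113859) (.g (nat_lit 2631) (.e (nat_lit 5905) (nat_lit 320) (.e (nat_lit 1190) (nat_lit 88) (.e (nat_lit 65619) (nat_lit 10) (.e (nat_lit 344090) (nat_lit 18) (.e (nat_lit 5896) (nat_lit 320) (.e (nat_lit 1199) (nat_lit 88) (.e (nat_lit 65610) (nat_lit 10) (.e (nat_lit 344097) (nat_lit 18) .nil)))))))) (.g (nat_lit 4) .nil .nil))) 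
(.lf (nat_lit 113891) (.g (nat_lit 3453) (.e (nat_lit 5905) (nat_lit 320) (.e (nat_lit 1190) (nat_lit 88) (.e (nat_lit 65624) (nat_lit 12) (.e (nat_lit 385105) (nat_lit 50) (.e (nat_lit 786483) (nat_lit 30) (.e (nat_lit 368384) (nat_lit 0) .nil)))))) (.g (nat_lit 5) .nil .nil)))) (.nd (nat_lit 5) 
(.lf (nat_lit 113875) (.g (nat_lit 3094) (.e (nat_lit 5905) (nat_lit 320) (.e (nat_lit 1190) (nat_lit 88) (.e (nat_lit 65619) (nat_lit 10) (.e (nat_lit 344169) (nat_lit 40) (.e (nat_lit 671747) (nat_lit 0) (.e (nat_lit 1595) (nat_lit 111) (.e (nat_lit 368384) (nat_lit 0) .nil))))))) (.g (nat_lit 6) .nil .nil))) 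
(.lf (nat_lit 113907) (.g (nat_lit 1891) (.e (nat_lit 5905) (nat_lit 320) (.e (nat_lit 1190) (nat_lit 88) (.e (nat_lit 65628) (nat_lit 14) (.e (nat_lit 401459) (nat_lit 13) (.e (nat_lit 483386) (nat_lit 23) .nil))))) .nil)))) (.nd (nat_lit 4) (.nd (nat_lit 5) 
(.lf (nat_lit 113867) (.g (nat_lit 2471) (.e (nat_lit 5905) (nat_lit 320) (.e (nat_lit 1190) (nat_lit 88) (.e (nat_lit 65619) (nat_lit 10) (.e (nat_lit 344168) (nat_lit 40) (.e (nat_lit 671747) (nat_lit 0) (.e (nat_lit 1595) (nat_lit 111) (.e (nat_lit 360453) (nat_lit 0) .nil))))))) (.g (nat_lit 4) .nil .nil))) 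
(.lf (nat_lit 113899) (.g (nat_lit 2583) (.e (nat_lit 5905) (nat_lit 320) (.e (nat_lit 1190) (nat_lit 88) (.e (nat_lit 65628) (nat_lit 14) (.e (nat_lit 401438) (nat_lit 9) (.e (nat_lit 426544) (nat_lit 30) (.e (nat_lit 368384) (nat_lit 0) .nil)))))) (.g (nat_lit 5) .nil .nil)))) (.nd (nat_lit 5) 
(.lf (nat_lit 113883) (.g (nat_lit 1887) (.e (nat_lit 5905) (nat_lit 320) (.e (nat_lit 1190) (nat_lit 88) (.e (nat_lit 65619) (nat_lit 10) (.e (nat_lit 344169) (nat_lit 40) (.e (nat_lit 671751) (nat_lit 0) .nil))))) .nil)) 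
(.lf (nat_lit 113915) (.g (nat_lit 2406) (.e (nat_lit 5905) (nat_lit 320) (.e (nat_lit 1190) (nat_lit 88) (.e (nat_lit 65630) (nat_lit 14) (.e (nat_lit 401454) (nat_lit 12) (.e (nat_lit 483072) (nat_lit 13) .nil))))) .nil))))) (.nd (nat_lit 3) (.nd (nat_lit 4) (.nd (nat_lit 5) 
(.lf (nat_lit 113863) (.g (nat_lit 2364) (.e (nat_lit 5905) (nat_lit 320) (.e (nat_lit 1190) (nat_lit 88) (.e (nat_lit 65619) (nat_lit 10) (.e (nat_lit 344168) (nat_lit 40) (.e (nat_lit 671746) (nat_lit 0) (.e (nat_lit 1599) (nat_lit 111) (.e (nat_lit 368384) (nat_lit 0) .nil))))))) (.g (nat_lit 4) .nil .nil))) 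
(.lf (nat_lit 113895) (.g (nat_lit 2162) (.e (nat_lit 5905) (nat_lit 320) (.e (nat_lit 1190) (nat_lit 88) (.e (nat_lit 65628) (nat_lit 14) (.e (nat_lit 401436) (nat_lit 9) (.e (nat_lit 426546) (nat_lit 30) (.e (nat_lit 368384) (nat_lit 0) .nil)))))) (.g (nat_lit 4) .nil .nil)))) (.nd (nat_lit 5) 
(.lf (nat_lit 113879) (.g (nat_lit 3801) (.e (nat_lit 5905) (nat_lit 320) (.e (nat_lit 1190) (nat_lit 88) (.e (nat_lit 65619) (nat_lit 10) (.e (nat_lit 344169) (nat_lit 40) (.e (nat_lit 671748) (nat_lit 0) (.e (nat_lit 1589) (nat_lit 111) (.e (nat_lit 368384) (nat_lit 0) .nil))))))) (.g (nat_lit 6) .nil .nil))) 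
(.lf (nat_lit 113911) (.g (nat_lit 2300) (.e (nat_lit 5905) (nat_lit 320) (.e (nat_lit 1190) (nat_lit 88) (.e (nat_lit 65628) (nat_lit 14) (.e (nat_lit 401459) (nat_lit 13) (.e (nat_lit 483398) (nat_lit 25) .nil))))) .nil)))) (.nd (nat_lit 4) (.nd (nat_lit 5) 
(.lf (nat_lit 113871) (.g (nat_lit 1134) (.e (nat_lit 5905) (nat_lit 320) (.e (nat_lit 1190) (nat_lit 88) (.e (nat_lit 65619) (nat_lit 10) (.e (nat_lit 344169) (nat_lit 40) .nil)))) .nil)) 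
(.lf (nat_lit 113903) (.g (nat_lit 2234) (.e (nat_lit 5905) (nat_lit 320) (.e (nat_lit 1190) (nat_lit 88) (.e (nat_lit 65628) (nat_lit 14) (.e (nat_lit 401458) (nat_lit 13) (.e (nat_lit 483383) (nat_lit 23) (.e (nat_lit 335878) (nat_lit 0) (.e (nat_lit 1028) (nat_lit 81) .nil))))))) (.g (nat_lit 4) .nil .nil)))) (.nd (nat_lit 5) 
(.lf (nat_lit 113887) (.g (nat_lit 2545) (.e (nat_lit 5905) (nat_lit 320) (.e (nat_lit 1190) (nat_lit 88) (.e (nat_lit 65622) (nat_lit 12) (.e (nat_lit 385106) (nat_lit 50) (.e (nat_lit 786481) (nat_lit 30) (.e (nat_lit 368384) (nat_lit 0) .nil)))))) (.g (nat_lit 5) .nil .nil))) 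
(.lf (nat_lit 113919) (.g (nat_lit 3101) (.e (nat_lit 5905) (nat_lit 320) (.e (nat_lit 1190) (nat_lit 88) (.e (nat_lit 65630) (nat_lit 14) (.e (nat_lit 401459) (nat_lit 13) (.e (nat_lit 483347) (nat_lit 17) .nil))))) .nil))))))))

noncomputable def tv1536 : DT := (.nd (nat_lit 0) (.nd (nat_lit 1) (.nd (nat_lit 2) (.nd (nat_lit 3) (.nd (nat_lit 4) (.nd (nat_lit 5) 
(.lf (nat_lit 113920) (.g (nat_lit 3215) (.e (nat_lit 5905) (nat_lit 320) (.e (nat_lit 1190) (nat_lit 88) (.e (nat_lit 65630) (nat_lit 14) (.e (nat_lit 401459) (nat_lit 13) (.e (nat_lit 483398) (nat_lit 25) (.e (nat_lit 368662) (nat_lit 18) .nil)))))) (.g (nat_lit 4) .nil .nil))) 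
(.lf (nat_lit 113952) (.g (nat_lit 1814) (.e (nat_lit 5905) (nat_lit 320) (.e (nat_lit 1200) (nat_lit 88) (.e (nat_lit 65619) (nat_lit 10) (.e (nat_lit 344168) (nat_lit 40) (.e (nat_lit 671746) (nat_lit 0) .nil))))) .nil))) (.nd (nat_lit 5) 
(.lf (nat_lit 113936) (.g (nat_lit 1205) (.e (nat_lit 5905) (nat_lit 320) (.e (nat_lit 1199) (nat_lit 88) (.e (nat_lit 65617) (nat_lit 10) (.e (nat_lit 344169) (nat_lit 40) .nil)))) .nil)) 
(.lf (nat_lit 113968) (.g (nat_lit 2728) (.e (nat_lit 5905) (nat_lit 320) (.e (nat_lit 1200) (nat_lit 88) (.e (nat_lit 65628) (nat_lit 14) (.e (nat_lit 401437) (nat_lit 9) (.e (nat_lit 426546) (nat_lit 30) (.e (nat_lit 368384) (nat_lit 0) .nil)))))) (.g (nat_lit 5) .nil .nil))))) (.nd (nat_lit 4) (.nd (nat_lit 5) 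
(.lf (nat_lit 113928) (.g (nat_lit 1865) (.e (nat_lit 5905) (nat_lit 320) (.e (nat_lit 1199) (nat_lit 88) (.e (nat_lit 65610) (nat_lit 10) (.e (nat_lit 344168) (nat_lit 40) (.e (nat_lit 671747) (nat_lit 0) (.e (nat_lit 1595) (nat_lit 111) (.e (nat_lit 368384) (nat_lit 0) .nil))))))) (.g (nat_lit 4) .nil .nil))) 
(.lf (nat_lit 113960) (.g (nat_lit 3176) (.e (nat_lit 5905) (nat_lit 320) (.e (nat_lit 1200) (nat_lit 88) (.e (nat_lit 65619) (nat_lit 10) (.e (nat_lit 344169) (nat_lit 40) (.e (nat_lit 671748) (nat_lit 0) (.e (nat_lit 1595) (nat_lit 111) (.e (nat_lit 368384) (nat_lit 0) .nil))))))) (.g (nat_lit 6) .nil .nil)))) (.nd (nat_lit 5) 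
(.lf (nat_lit 113944) (.g (nat_lit 2231) (.e (nat_lit 5905) (nat_lit 320) (.e (nat_lit 1199) (nat_lit 88) (.e (nat_lit 65630) (nat_lit 14) (.e (nat_lit 401457) (nat_lit 13) (.e (nat_lit 483395) (nat_lit 24) .nil))))) .nil)) 
(.lf (nat_lit 113976) (.g (nat_lit 2839) (.e (nat_lit 5905) (nat_lit 320) (.e (nat_lit 1200) (nat_lit 88) (.e (nat_lit 65628) (nat_lit 14) (.e (nat_lit 401459) (nat_lit 13) (.e (nat_lit 483399) (nat_lit 25) (.e (nat_lit 368662) (nat_lit 18) .nil)))))) (.g (nat_lit 4) .nil .nil)))))) (.nd (nat_lit 3) (.nd (nat_lit 4) (.nd (nat_lit 5) 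
(.lf (nat_lit 113924) (.g (nat_lit 2094) (.e (nat_lit 5905) (nat_lit 320) (.e (nat_lit 1196) (nat_lit 88) (.e (nat_lit 65630) (nat_lit 14) (.e (nat_lit 401438) (nat_lit 9) (.e (nat_lit 426546) (nat_lit 30) .nil))))) .nil)) 
(.lf (nat_lit 113956) (.g (nat_lit 2186) (.e (nat_lit 5905) (nat_lit 320) (.e (nat_lit 1200) (nat_lit 88) (.e (nat_lit 65619) (nat_lit 10) (.e (nat_lit 344169) (nat_lit 40) (.e (nat_lit 671746) (nat_lit 0) (.e (nat_lit 1586) (nat_lit 111) (.e (nat_lit 368384) (nat_lit 0) .nil))))))) (.g (nat_lit 4) .nil .nil)))) (.nd (nat_lit 5) 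
(.lf (nat_lit 113940) (.g (nat_lit 1854) (.e (nat_lit 5905) (nat_lit 320) (.e (nat_lit 1199) (nat_lit 88) (.e (nat_lit 65628) (nat_lit 14) (.e (nat_lit 401457) (nat_lit 13) (.e (nat_lit 483394) (nat_lit 24) .nil))))) .nil)) 
(.lf (nat_lit 113972) (.g (nat_lit 1994) (.e (nat_lit 5905) (nat_lit 320) (.e (nat_lit 1200) (nat_lit 88) (.e (nat_lit 65628) (nat_lit 14) (.e (nat_lit 401459) (nat_lit 13) (.e (nat_lit 483386) (nat_lit 23) .nil))))) .nil)))) (.nd (nat_lit 4) (.nd (nat_lit 5) 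
(.lf (nat_lit 113932) (.g (nat_lit 2546) (.e (nat_lit 5905) (nat_lit 320) (.e (nat_lit 1199) (nat_lit 88) (.e (nat_lit 65610) (nat_lit 10) (.e (nat_lit 344169) (nat_lit 40) (.e (nat_lit 671748) (nat_lit 0) (.e (nat_lit 1598) (nat_lit 111) (.e (nat_lit 368384) (nat_lit 0) .nil))))))) (.g (nat_lit 5) .nil .nil))) 
(.lf (nat_lit 113964) (.g (nat_lit 1827) (.e (nat_lit 5905) (nat_lit 320) (.e (nat_lit 1200) (nat_lit 88) (.e (nat_lit 65619) (nat_lit 10) (.e (nat_lit 344169) (nat_lit 40) (.e (nat_lit 671760) (nat_lit 4) .nil))))) .nil))) (.nd (nat_lit 5) 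
(.lf (nat_lit 113948) (.g (nat_lit 2655) (.e (nat_lit 5905) (nat_lit 320) (.e (nat_lit 1199) (nat_lit 88) (.e (nat_lit 65630) (nat_lit 14) (.e (nat_lit 401459) (nat_lit 13) (.e (nat_lit 483400) (nat_lit 25) .nil))))) .nil)) 
(.lf (nat_lit 113980) (.g (nat_lit 2875) (.e (nat_lit 5905) (nat_lit 320) (.e (nat_lit 1200) (nat_lit 88) (.e (nat_lit 65629) (nat_lit 14) (.e (nat_lit 401459) (nat_lit 13) (.e (nat_lit 483399) (nat_lit 25) .nil))))) .nil)))))) (.nd (nat_lit 2) (.nd (nat_lit 3) (.nd (nat_lit 4) (.nd (nat_lit 5) 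
(.lf (nat_lit 113922) (.g (nat_lit 1985) (.e (nat_lit 5905) (nat_lit 320) (.e (nat_lit 1196) (nat_lit 88) (.e (nat_lit 65628) (nat_lit 14) (.e (nat_lit 401459) (nat_lit 13) (.e (nat_lit 483394) (nat_lit 24) .nil))))) .nil)) 
(.lf (nat_lit 113954) (.g (nat_lit 1864) (.e (nat_lit 5905) (nat_lit 320) (.e (nat_lit 1200) (nat_lit 88) (.e (nat_lit 65619) (nat_lit 10) (.e (nat_lit 344168) (nat_lit 40) (.e (nat_lit 671747) (nat_lit 0) .nil))))) .nil))) (.nd (nat_lit 5) 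
(.lf (nat_lit 113938) (.g (nat_lit 1796) (.e (nat_lit 5905) (nat_lit 320) (.e (nat_lit 1199) (nat_lit 88) (.e (nat_lit 65617) (nat_lit 10) (.e (nat_lit 344169) (nat_lit 40) (.e (nat_lit 671747) (nat_lit 0) .nil))))) .nil)) 
(.lf (nat_lit 113970) (.g (nat_lit 1485) (.e (nat_lit 5905) (nat_lit 320) (.e (nat_lit 1200) (nat_lit 88) (.e (nat_lit 65628) (nat_lit 14) (.e (nat_lit 401454) (nat_lit 12) .nil)))) .nil)))) (.nd (nat_lit 4) (.nd (nat_lit 5) 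
(.lf (nat_lit 113930) (.g (nat_lit 2849) (.e (nat_lit 5905) (nat_lit 320) (.e (nat_lit 1199) (nat_lit 88) (.e (nat_lit 65610) (nat_lit 10) (.e (nat_lit 344169) (nat_lit 40) (.e (nat_lit 671748) (nat_lit 0) (.e (nat_lit 1586) (nat_lit 111) (.e (nat_lit 368384) (nat_lit 0) .nil))))))) (.g (nat_lit 6) .nil .nil))) 
(.lf (nat_lit 113962) (.g (nat_lit 2842) (.e (nat_lit 5905) (nat_lit 320) (.e (nat_lit 1200) (nat_lit 88) (.e (nat_lit 65619) (nat_lit 10) (.e (nat_lit 344169) (nat_lit 40) (.e (nat_lit 671748) (nat_lit 0) (.e (nat_lit 1599) (nat_lit 111) (.e (nat_lit 368384) (nat_lit 0) .nil))))))) (.g (nat_lit 5) .nil .nil)))) (.nd (nat_lit 5) 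
(.lf (nat_lit 113946) (.g (nat_lit 1598) (.e (nat_lit 5905) (nat_lit 320) (.e (nat_lit 1199) (nat_lit 88) (.e (nat_lit 65630) (nat_lit 14) (.e (nat_lit 401459) (nat_lit 13) (.e (nat_lit 483386) (nat_lit 23) .nil))))) .nil)) 
(.lf (nat_lit 113978) (.g (nat_lit 3627) (.e (nat_lit 5905) (nat_lit 320) (.e (nat_lit 1200) (nat_lit 88) (.e (nat_lit 65629) (nat_lit 14) (.e (nat_lit 401459) (nat_lit 13) (.e (nat_lit 483354) (nat_lit 17) (.e (nat_lit 7936) (nat_lit 346) (.e (nat_lit 57354) (nat_lit 0) .nil))))))) (.g (nat_lit 4) .nil .nil)))))) (.nd (nat_lit 3) (.nd (nat_lit 4) (.nd (nat_lit 5) 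
(.lf (nat_lit 113926) (.g (nat_lit 1086) (.e (nat_lit 5905) (nat_lit 320) (.e (nat_lit 1199) (nat_lit 88) (.e (nat_lit 65586) (nat_lit 7) (.e (nat_lit 319539) (nat_lit 19) .nil)))) .nil)) 
(.lf (nat_lit 113958) (.g (nat_lit 3277) (.e (nat_lit 5905) (nat_lit 320) (.e (nat_lit 1200) (nat_lit 88) (.e (nat_lit 65619) (nat_lit 10) (.e (nat_lit 344169) (nat_lit 40) (.e (nat_lit 671748) (nat_lit 0) (.e (nat_lit 1586) (nat_lit 111) (.e (nat_lit 368384) (nat_lit 0) .nil))))))) (.g (nat_lit 6) .nil .nil)))) (.nd (nat_lit 5) 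
(.lf (nat_lit 113942) (.g (nat_lit 2069) (.e (nat_lit 5905) (nat_lit 320) (.e (nat_lit 1199) (nat_lit 88) (.e (nat_lit 65628) (nat_lit 14) (.e (nat_lit 401459) (nat_lit 13) (.e (nat_lit 483398) (nat_lit 25) .nil))))) .nil)) 
(.lf (nat_lit 113974) (.g (nat_lit 3006) (.e (nat_lit 5905) (nat_lit 320) (.e (nat_lit 1200) (nat_lit 88) (.e (nat_lit 65628) (nat_lit 14) (.e (nat_lit 401459) (nat_lit 13) (.e (nat_lit 483398) (nat_lit 25) (.e (nat_lit 368662) (nat_lit 18) .nil)))))) (.g (nat_lit 4) .nil .nil))))) (.nd (nat_lit 4) (.nd (nat_lit 5) 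
(.lf (nat_lit 113934) (.g (nat_lit 1827) (.e (nat_lit 5905) (nat_lit 320) (.e (nat_lit 1199) (nat_lit 88) (.e (nat_lit 65617) (nat_lit 10) (.e (nat_lit 344168) (nat_lit 40) (.e (nat_lit 671747) (nat_lit 0) .nil))))) .nil)) 
(.lf (nat_lit 113966) (.g (nat_lit 1981) (.e (nat_lit 5905) (nat_lit 320) (.e (nat_lit 1200) (nat_lit 88) (.e (nat_lit 65624) (nat_lit 12) (.e (nat_lit 385105) (nat_lit 50) (.e (nat_lit 786481) (nat_lit 30) .nil))))) .nil))) (.nd (nat_lit 5) 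
(.lf (nat_lit 113950) (.g (nat_lit 1716) (.e (nat_lit 5905) (nat_lit 320) (.e (nat_lit 1200) (nat_lit 88) (.e (nat_lit 65619) (nat_lit 10) (.e (nat_lit 344097) (nat_lit 18) (.e (nat_lit 5906) (nat_lit 320) .nil))))) .nil)) 
(.lf (nat_lit 113982) (.g (nat_lit 1858) (.e (nat_lit 5905) (nat_lit 320) (.e (nat_lit 1200) (nat_lit 88) (.e (nat_lit 65630) (nat_lit 14) (.e (nat_lit 401437) (nat_lit 9) (.e (nat_lit 426509) (nat_lit 27) .nil))))) .nil))))))) (.nd (nat_lit 1) (.nd (nat_lit 2) (.nd (nat_lit 3) (.nd (nat_lit 4) (.nd (nat_lit 5) 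
(.lf (nat_lit 113921) (.g (nat_lit 3446) (.e (nat_lit 5905) (nat_lit 320) (.e (nat_lit 1190) (nat_lit 88) (.e (nat_lit 65630) (nat_lit 14) (.e (nat_lit 401459) (nat_lit 13) (.e (nat_lit 483400) (nat_lit 25) (.e (nat_lit 368662) (nat_lit 18) .nil)))))) (.g (nat_lit 4) .nil .nil))) 
(.lf (nat_lit 113953) (.g (nat_lit 2098) (.e (nat_lit 5905) (nat_lit 320) (.e (nat_lit 1200) (nat_lit 88) (.e (nat_lit 65619) (nat_lit 10) (.e (nat_lit 344168) (nat_lit 40) (.e (nat_lit 671746) (nat_lit 0) (.e (nat_lit 1586) (nat_lit 111) (.e (nat_lit 368384) (nat_lit 0) .nil))))))) (.g (nat_lit 4) .nil .nil)))) (.nd (nat_lit 5) 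
(.lf (nat_lit 113937) (.g (nat_lit 1795) (.e (nat_lit 5905) (nat_lit 320) (.e (nat_lit 1199) (nat_lit 88) (.e (nat_lit 65617) (nat_lit 10) (.e (nat_lit 344169) (nat_lit 40) (.e (nat_lit 671746) (nat_lit 0) .nil))))) .nil)) 
(.lf (nat_lit 113969) (.g (nat_lit 1210) (.e (nat_lit 5905) (nat_lit 320) (.e (nat_lit 1200) (nat_lit 88) (.e (nat_lit 65628) (nat_lit 14) (.e (nat_lit 401438) (nat_lit 9) .nil)))) .nil)))) (.nd (nat_lit 4) (.nd (nat_lit 5) 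
(.lf (nat_lit 113929) (.g (nat_lit 2057) (.e (nat_lit 5905) (nat_lit 320) (.e (nat_lit 1199) (nat_lit 88) (.e (nat_lit 65610) (nat_lit 10) (.e (nat_lit 344169) (nat_lit 40) (.e (nat_lit 671747) (nat_lit 0) (.e (nat_lit 1595) (nat_lit 111) (.e (nat_lit 368384) (nat_lit 0) .nil))))))) (.g (nat_lit 4) .nil .nil))) 
(.lf (nat_lit 113961) (.g (nat_lit 2995) (.e (nat_lit 5905) (nat_lit 320) (.e (nat_lit 1200) (nat_lit 88) (.e (nat_lit 65619) (nat_lit 10) (.e (nat_lit 344169) (nat_lit 40) (.e (nat_lit 671748) (nat_lit 0) (.e (nat_lit 1598) (nat_lit 111) (.e (nat_lit 368384) (nat_lit 0) .nil))))))) (.g (nat_lit 5) .nil .nil)))) (.nd (nat_lit 5) 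
(.lf (nat_lit 113945) (.g (nat_lit 3509) (.e (nat_lit 5905) (nat_lit 320) (.e (nat_lit 1199) (nat_lit 88) (.e (nat_lit 65630) (nat_lit 14) (.e (nat_lit 401459) (nat_lit 13) (.e (nat_lit 483343) (nat_lit 17) (.e (nat_lit 6514) (nat_lit 346) (.e (nat_lit 57354) (nat_lit 0) .nil))))))) (.g (nat_lit 4) .nil .nil))) 
(.lf (nat_lit 113977) (.g (nat_lit 3235) (.e (nat_lit 5905) (nat_lit 320) (.e (nat_lit 1200) (nat_lit 88) (.e (nat_lit 65628) (nat_lit 14) (.e (nat_lit 401459) (nat_lit 13) (.e (nat_lit 483400) (nat_lit 25) (.e (nat_lit 368662) (nat_lit 18) .nil)))))) (.g (nat_lit 4) .nil .nil)))))) (.nd (nat_lit 3) (.nd (nat_lit 4) (.nd (nat_lit 5) 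
(.lf (nat_lit 113925) (.g (nat_lit 2670) (.e (nat_lit 5905) (nat_lit 320) (.e (nat_lit 1196) (nat_lit 88) (.e (nat_lit 65630) (nat_lit 14) (.e (nat_lit 401459) (nat_lit 13) (.e (nat_lit 483394) (nat_lit 24) .nil))))) .nil)) 
(.lf (nat_lit 113957) (.g (nat_lit 1805) (.e (nat_lit 5905) (nat_lit 320) (.e (nat_lit 1200) (nat_lit 88) (.e (nat_lit 65619) (nat_lit 10) (.e (nat_lit 344169) (nat_lit 40) (.e (nat_lit 671747) (nat_lit 0) .nil))))) .nil))) (.nd (nat_lit 5) 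
(.lf (nat_lit 113941) (.g (nat_lit 2354) (.e (nat_lit 5905) (nat_lit 320) (.e (nat_lit 1199) (nat_lit 88) (.e (nat_lit 65628) (nat_lit 14) (.e (nat_lit 401459) (nat_lit 13) (.e (nat_lit 483354) (nat_lit 17) .nil))))) .nil)) 
(.lf (nat_lit 113973) (.g (nat_lit 2747) (.e (nat_lit 5905) (nat_lit 320) (.e (nat_lit 1200) (nat_lit 88) (.e (nat_lit 65628) (nat_lit 14) (.e (nat_lit 401459) (nat_lit 13) (.e (nat_lit 483396) (nat_lit 24) .nil))))) .nil)))) (.nd (nat_lit 4) (.nd (nat_lit 5) 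
(.lf (nat_lit 113933) (.g (nat_lit 2420) (.e (nat_lit 5905) (nat_lit 320) (.e (nat_lit 1199) (nat_lit 88) (.e (nat_lit 65610) (nat_lit 10) (.e (nat_lit 344169) (nat_lit 40) (.e (nat_lit 671748) (nat_lit 0) (.e (nat_lit 1599) (nat_lit 111) (.e (nat_lit 368384) (nat_lit 0) .nil))))))) (.g (nat_lit 5) .nil .nil))) 
(.lf (nat_lit 113965) (.g (nat_lit 1609) (.e (nat_lit 5905) (nat_lit 320) (.e (nat_lit 1200) (nat_lit 88) (.e (nat_lit 65623) (nat_lit 12) (.e (nat_lit 385105) (nat_lit 50) (.e (nat_lit 786481) (nat_lit 30) .nil))))) .nil))) (.nd (nat_lit 5) 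
(.lf (nat_lit 113949) (.g (nat_lit 1871) (.e (nat_lit 5905) (nat_lit 320) (.e (nat_lit 1200) (nat_lit 88) (.e (nat_lit 65619) (nat_lit 10) (.e (nat_lit 344090) (nat_lit 18) (.e (nat_lit 5896) (nat_lit 320) .nil))))) .nil)) 
(.lf (nat_lit 113981) (.g (nat_lit 3006) (.e (nat_lit 5905) (nat_lit 320) (.e (nat_lit 1200) (nat_lit 88) (.e (nat_lit 65629) (nat_lit 14) (.e (nat_lit 401459) (nat_lit 13) (.e (nat_lit 483400) (nat_lit 25) .nil))))) .nil)))))) (.nd (nat_lit 2) (.nd (nat_lit 3) (.nd (nat_lit 4) (.nd (nat_lit 5) 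
(.lf (nat_lit 113923) (.g (nat_lit 2235) (.e (nat_lit 5905) (nat_lit 320) (.e (nat_lit 1196) (nat_lit 88) (.e (nat_lit 65630) (nat_lit 14) (.e (nat_lit 401437) (nat_lit 9) (.e (nat_lit 426546) (nat_lit 30) .nil))))) .nil)) 
(.lf (nat_lit 113955) (.g (nat_lit 1855) (.e (nat_lit 5905) (nat_lit 320) (.e (nat_lit 1200) (nat_lit 88) (.e (nat_lit 65619) (nat_lit 10) (.e (nat_lit 344169) (nat_lit 40) (.e (nat_lit 671746) (nat_lit 0) .nil))))) .nil))) (.nd (nat_lit 5) 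
(.lf (nat_lit 113939) (.g (nat_lit 1142) (.e (nat_lit 5905) (nat_lit 320) (.e (nat_lit 1199) (nat_lit 88) (.e (nat_lit 65628) (nat_lit 14) (.e (nat_lit 401436) (nat_lit 9) .nil)))) .nil)) 
(.lf (nat_lit 113971) (.g (nat_lit 3038) (.e (nat_lit 5905) (nat_lit 320) (.e (nat_lit 1200) (nat_lit 88) (.e (nat_lit 65628) (nat_lit 14) (.e (nat_lit 401459) (nat_lit 13) (.e (nat_lit 483354) (nat_lit 17) (.e (nat_lit 7936) (nat_lit 346) (.e (nat_lit 57354) (nat_lit 0) .nil))))))) (.g (nat_lit 4) .nil .nil))))) (.nd (nat_lit 4) (.nd (nat_lit 5) 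
(.lf (nat_lit 113931) (.g (nat_lit 2877) (.e (nat_lit 5905) (nat_lit 320) (.e (nat_lit 1199) (nat_lit 88) (.e (nat_lit 65610) (nat_lit 10) (.e (nat_lit 344169) (nat_lit 40) (.e (nat_lit 671748) (nat_lit 0) (.e (nat_lit 1589) (nat_lit 111) (.e (nat_lit 368384) (nat_lit 0) .nil))))))) (.g (nat_lit 5) .nil .nil))) 
(.lf (nat_lit 113963) (.g (nat_lit 1885) (.e (nat_lit 5905) (nat_lit 320) (.e (nat_lit 1200) (nat_lit 88) (.e (nat_lit 65619) (nat_lit 10) (.e (nat_lit 344169) (nat_lit 40) (.e (nat_lit 671751) (nat_lit 0) .nil))))) .nil))) (.nd (nat_lit 5) 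
(.lf (nat_lit 113947) (.g (nat_lit 2351) (.e (nat_lit 5905) (nat_lit 320) (.e (nat_lit 1199) (nat_lit 88) (.e (nat_lit 65630) (nat_lit 14) (.e (nat_lit 401459) (nat_lit 13) (.e (nat_lit 483399) (nat_lit 25) .nil))))) .nil)) 
(.lf (nat_lit 113979) (.g (nat_lit 3314) (.e (nat_lit 5905) (nat_lit 320) (.e (nat_lit 1200) (nat_lit 88) (.e (nat_lit 65629) (nat_lit 14) (.e (nat_lit 401459) (nat_lit 13) (.e (nat_lit 483398) (nat_lit 25) (.e (nat_lit 368662) (nat_lit 18) .nil)))))) (.g (nat_lit 4) .nil .nil)))))) (.nd (nat_lit 3) (.nd (nat_lit 4) (.nd (nat_lit 5) 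
(.lf (nat_lit 113927) (.g (nat_lit 1998) (.e (nat_lit 5905) (nat_lit 320) (.e (nat_lit 1199) (nat_lit 88) (.e (nat_lit 65610) (nat_lit 10) (.e (nat_lit 344168) (nat_lit 40) (.e (nat_lit 671747) (nat_lit 0) (.e (nat_lit 1586) (nat_lit 111) (.e (nat_lit 368384) (nat_lit 0) .nil))))))) (.g (nat_lit 4) .nil .nil))) 
(.lf (nat_lit 113959) (.g (nat_lit 3281) (.e (nat_lit 5905) (nat_lit 320) (.e (nat_lit 1200) (nat_lit 88) (.e (nat_lit 65619) (nat_lit 10) (.e (nat_lit 344169) (nat_lit 40) (.e (nat_lit 671748) (nat_lit 0) (.e (nat_lit 1589) (nat_lit 111) (.e (nat_lit 368384) (nat_lit 0) .nil))))))) (.g (nat_lit 6) .nil .nil)))) (.nd (nat_lit 5) 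
(.lf (nat_lit 113943) (.g (nat_lit 2343) (.e (nat_lit 5905) (nat_lit 320) (.e (nat_lit 1199) (nat_lit 88) (.e (nat_lit 65628) (nat_lit 14) (.e (nat_lit 401459) (nat_lit 13) (.e (nat_lit 483400) (nat_lit 25) .nil))))) .nil)) 
(.lf (nat_lit 113975) (.g (nat_lit 2308) (.e (nat_lit 5905) (nat_lit 320) (.e (nat_lit 1200) (nat_lit 88) (.e (nat_lit 65628) (nat_lit 14) (.e (nat_lit 401459) (nat_lit 13) (.e (nat_lit 483399) (nat_lit 25) .nil))))) .nil)))) (.nd (nat_lit 4) (.nd (nat_lit 5) 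
(.lf (nat_lit 113935) (.g (nat_lit 1788) (.e (nat_lit 5905) (nat_lit 320) (.e (nat_lit 1199) (nat_lit 88) (.e (nat_lit 65617) (nat_lit 10) (.e (nat_lit 344168) (nat_lit 40) (.e (nat_lit 671761) (nat_lit 4) .nil))))) .nil)) 
(.lf (nat_lit 113967) (.g (nat_lit 1686) (.e (nat_lit 5905) (nat_lit 320) (.e (nat_lit 1200) (nat_lit 88) (.e (nat_lit 65628) (nat_lit 14) (.e (nat_lit 401437) (nat_lit 9) (.e (nat_lit 426533) (nat_lit 28) .nil))))) .nil))) (.nd (nat_lit 5) 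
(.lf (nat_lit 113951) (.g (nat_lit 1138) (.e (nat_lit 5905) (nat_lit 320) (.e (nat_lit 1200) (nat_lit 88) (.e (nat_lit 65619) (nat_lit 10) (.e (nat_lit 344168) (nat_lit 40) .nil)))) .nil)) 
(.lf (nat_lit 113983) (.g (nat_lit 1803) (.e (nat_lit 5905) (nat_lit 320) (.e (nat_lit 1200) (nat_lit 88) (.e (nat_lit 65630) (nat_lit 14) (.e (nat_lit 401456) (nat_lit 13) (.e (nat_lit 483395) (nat_lit 24) .nil))))) .nil))))))))

noncomputable def tv1537 : DT := (.nd (nat_lit 0) (.nd (nat_lit 1) (.nd (nat_lit 2) (.nd (nat_lit 3) (.nd (nat_lit 4) (.nd (nat_lit 5) 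
(.lf (nat_lit 113984) (.g (nat_lit 1566) (.e (nat_lit 5905) (nat_lit 320) (.e (nat_lit 1200) (nat_lit 88) (.e (nat_lit 65630) (nat_lit 14) (.e (nat_lit 401458) (nat_lit 13) (.e (nat_lit 483383) (nat_lit 23) .nil))))) .nil)) 
(.lf (nat_lit 114016) (.g (nat_lit 1641) (.e (nat_lit 5905) (nat_lit 320) (.e (nat_lit 1210) (nat_lit 89) (.e (nat_lit 73782) (nat_lit 32) (.e (nat_lit 2857) (nat_lit 184) (.e (nat_lit 426546) (nat_lit 30) (.e (nat_lit 368384) (nat_lit 0) .nil)))))) (.g (nat_lit 4) .nil .nil)))) (.nd (nat_lit 5) 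
(.lf (nat_lit 114000) (.g (nat_lit 3447) (.e (nat_lit 5905) (nat_lit 320) (.e (nat_lit 1209) (nat_lit 89) (.e (nat_lit 73782) (nat_lit 32) (.e (nat_lit 3089) (nat_lit 191) (.e (nat_lit 483394) (nat_lit 24) (.e (nat_lit 344097) (nat_lit 18) .nil)))))) (.g (nat_lit 0) .nil .nil))) 
(.lf (nat_lit 114032) (.g (nat_lit 2305) (.e (nat_lit 5905) (nat_lit 320) (.e (nat_lit 1219) (nat_lit 90) (.e (nat_lit 81943) (nat_lit 20) (.e (nat_lit 2004) (nat_lit 138) (.e (nat_lit 671748) (nat_lit 0) (.e (nat_lit 1586) (nat_lit 111) (.e (nat_lit 368384) (nat_lit 0) .nil))))))) (.g (nat_lit 6) .nil .nil))))) (.nd (nat_lit 4) (.nd (nat_lit 5) 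
(.lf (nat_lit 113992) (.g (nat_lit 1937) (.e (nat_lit 5905) (nat_lit 320) (.e (nat_lit 1209) (nat_lit 89) (.e (nat_lit 73781) (nat_lit 32) (.e (nat_lit 2857) (nat_lit 184) (.e (nat_lit 426546) (nat_lit 30) (.e (nat_lit 368384) (nat_lit 0) .nil)))))) (.g (nat_lit 4) .nil .nil))) 
(.lf (nat_lit 114024) (.g (nat_lit 1114) (.e (nat_lit 5905) (nat_lit 320) (.e (nat_lit 1218) (nat_lit 90) (.e (nat_lit 81959) (nat_lit 24) (.e (nat_lit 123197) (nat_lit 266) (.e (nat_lit 57426) (nat_lit 15) .nil))))) .nil))) (.nd (nat_lit 5) 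
(.lf (nat_lit 114008) (.g (nat_lit 1877) (.e (nat_lit 5905) (nat_lit 320) (.e (nat_lit 1210) (nat_lit 89) (.e (nat_lit 73781) (nat_lit 32) (.e (nat_lit 2856) (nat_lit 184) (.e (nat_lit 426544) (nat_lit 30) (.e (nat_lit 368384) (nat_lit 0) .nil)))))) (.g (nat_lit 5) .nil .nil))) 
(.lf (nat_lit 114040) (.g (nat_lit 2011) (.e (nat_lit 5905) (nat_lit 320) (.e (nat_lit 1219) (nat_lit 90) (.e (nat_lit 81943) (nat_lit 20) (.e (nat_lit 2005) (nat_lit 138) (.e (nat_lit 671748) (nat_lit 0) (.e (nat_lit 1598) (nat_lit 111) (.e (nat_lit 368384) (nat_lit 0) .nil))))))) (.g (nat_lit 6) .nil .nil)))))) (.nd (nat_lit 3) (.nd (nat_lit 4) (.nd (nat_lit 5) 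
(.lf (nat_lit 113988) (.g (nat_lit 523) (.e (nat_lit 5905) (nat_lit 320) (.e (nat_lit 1209) (nat_lit 89) (.e (nat_lit 73781) (nat_lit 32) .nil))) .nil)) 
(.lf (nat_lit 114020) (.g (nat_lit 1631) (.e (nat_lit 5905) (nat_lit 320) (.e (nat_lit 1211) (nat_lit 89) (.e (nat_lit 73781) (nat_lit 32) (.e (nat_lit 2857) (nat_lit 184) (.e (nat_lit 426546) (nat_lit 30) (.e (nat_lit 368384) (nat_lit 0) .nil)))))) (.g (nat_lit 4) .nil .nil)))) (.nd (nat_lit 5) 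
(.lf (nat_lit 114004) (.g (nat_lit 301) (.e (nat_lit 5905) (nat_lit 320) (.e (nat_lit 1209) (nat_lit 89) (.e (nat_lit 73789) (nat_lit 45) .nil))) .nil)) 
(.lf (nat_lit 114036) (.g (nat_lit 1871) (.e (nat_lit 5905) (nat_lit 320) (.e (nat_lit 1219) (nat_lit 90) (.e (nat_lit 81943) (nat_lit 20) (.e (nat_lit 2004) (nat_lit 138) (.e (nat_lit 671748) (nat_lit 0) (.e (nat_lit 1599) (nat_lit 111) (.e (nat_lit 368384) (nat_lit 0) .nil))))))) (.g (nat_lit 5) .nil .nil))))) (.nd (nat_lit 4) (.nd (nat_lit 5) 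
(.lf (nat_lit 113996) (.g (nat_lit 2227) (.e (nat_lit 5905) (nat_lit 320) (.e (nat_lit 1209) (nat_lit 89) (.e (nat_lit 73782) (nat_lit 32) (.e (nat_lit 2857) (nat_lit 184) (.e (nat_lit 426544) (nat_lit 30) (.e (nat_lit 368384) (nat_lit 0) .nil)))))) (.g (nat_lit 4) .nil .nil))) 
(.lf (nat_lit 114028) (.g (nat_lit 2655) (.e (nat_lit 5905) (nat_lit 320) (.e (nat_lit 1219) (nat_lit 90) (.e (nat_lit 81924) (nat_lit 0) (.e (nat_lit 3747) (nat_lit 228) (.e (nat_lit 786483) (nat_lit 30) (.e (nat_lit 368384) (nat_lit 0) .nil)))))) (.g (nat_lit 5) .nil .nil)))) (.nd (nat_lit 5) 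
(.lf (nat_lit 114012) (.g (nat_lit 2288) (.e (nat_lit 5905) (nat_lit 320) (.e (nat_lit 1210) (nat_lit 89) (.e (nat_lit 73781) (nat_lit 32) (.e (nat_lit 3087) (nat_lit 191) (.e (nat_lit 483395) (nat_lit 24) (.e (nat_lit 344097) (nat_lit 18) .nil)))))) (.g (nat_lit 0) .nil .nil))) 
(.lf (nat_lit 114044) (.g (nat_lit 2438) (.e (nat_lit 5905) (nat_lit 320) (.e (nat_lit 1219) (nat_lit 90) (.e (nat_lit 81943) (nat_lit 20) (.e (nat_lit 2006) (nat_lit 138) (.e (nat_lit 671748) (nat_lit 0) (.e (nat_lit 1595) (nat_lit 111) (.e (nat_lit 368384) (nat_lit 0) .nil))))))) (.g (nat_lit 6) .nil .nil))))))) (.nd (nat_lit 2) (.nd (nat_lit 3) (.nd (nat_lit 4) (.nd (nat_lit 5) 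
(.lf (nat_lit 113986) (.g (nat_lit 2621) (.e (nat_lit 5905) (nat_lit 320) (.e (nat_lit 1200) (nat_lit 88) (.e (nat_lit 65630) (nat_lit 14) (.e (nat_lit 401459) (nat_lit 13) (.e (nat_lit 483398) (nat_lit 25) .nil))))) .nil)) 
(.lf (nat_lit 114018) (.g (nat_lit 1762) (.e (nat_lit 5905) (nat_lit 320) (.e (nat_lit 1211) (nat_lit 89) (.e (nat_lit 73781) (nat_lit 32) (.e (nat_lit 2856) (nat_lit 184) (.e (nat_lit 426544) (nat_lit 30) (.e (nat_lit 368384) (nat_lit 0) .nil)))))) (.g (nat_lit 4) .nil .nil)))) (.nd (nat_lit 5) 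
(.lf (nat_lit 114002) (.g (nat_lit 3663) (.e (nat_lit 5905) (nat_lit 320) (.e (nat_lit 1209) (nat_lit 89) (.e (nat_lit 73782) (nat_lit 32) (.e (nat_lit 3090) (nat_lit 191) (.e (nat_lit 483394) (nat_lit 24) (.e (nat_lit 344097) (nat_lit 18) .nil)))))) (.g (nat_lit 0) .nil .nil))) 
(.lf (nat_lit 114034) (.g (nat_lit 2186) (.e (nat_lit 5905) (nat_lit 320) (.e (nat_lit 1219) (nat_lit 90) (.e (nat_lit 81943) (nat_lit 20) (.e (nat_lit 2004) (nat_lit 138) (.e (nat_lit 671748) (nat_lit 0) (.e (nat_lit 1595) (nat_lit 111) (.e (nat_lit 368384) (nat_lit 0) .nil))))))) (.g (nat_lit 6) .nil .nil))))) (.nd (nat_lit 4) (.nd (nat_lit 5) 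
(.lf (nat_lit 113994) (.g (nat_lit 1642) (.e (nat_lit 5905) (nat_lit 320) (.e (nat_lit 1209) (nat_lit 89) (.e (nat_lit 73782) (nat_lit 32) (.e (nat_lit 2854) (nat_lit 184) (.e (nat_lit 426546) (nat_lit 30) (.e (nat_lit 368384) (nat_lit 0) .nil)))))) (.g (nat_lit 4) .nil .nil))) 
(.lf (nat_lit 114026) (.g (nat_lit 1687) (.e (nat_lit 5905) (nat_lit 320) (.e (nat_lit 1219) (nat_lit 90) (.e (nat_lit 81922) (nat_lit 0) (.e (nat_lit 3748) (nat_lit 228) (.e (nat_lit 786481) (nat_lit 30) (.e (nat_lit 368384) (nat_lit 0) .nil)))))) (.g (nat_lit 4) .nil .nil)))) (.nd (nat_lit 5) 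
(.lf (nat_lit 114010) (.g (nat_lit 1569) (.e (nat_lit 5905) (nat_lit 320) (.e (nat_lit 1210) (nat_lit 89) (.e (nat_lit 73781) (nat_lit 32) (.e (nat_lit 2857) (nat_lit 184) (.e (nat_lit 426546) (nat_lit 30) (.e (nat_lit 368384) (nat_lit 0) .nil)))))) (.g (nat_lit 5) .nil .nil))) 
(.lf (nat_lit 114042) (.g (nat_lit 2663) (.e (nat_lit 5905) (nat_lit 320) (.e (nat_lit 1219) (nat_lit 90) (.e (nat_lit 81943) (nat_lit 20) (.e (nat_lit 2006) (nat_lit 138) (.e (nat_lit 671748) (nat_lit 0) (.e (nat_lit 1586) (nat_lit 111) (.e (nat_lit 368384) (nat_lit 0) .nil))))))) (.g (nat_lit 6) .nil .nil)))))) (.nd (nat_lit 3) (.nd (nat_lit 4) (.nd (nat_lit 5) 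
(.lf (nat_lit 113990) (.g (nat_lit 2192) (.e (nat_lit 5905) (nat_lit 320) (.e (nat_lit 1209) (nat_lit 89) (.e (nat_lit 73781) (nat_lit 32) (.e (nat_lit 2856) (nat_lit 184) (.e (nat_lit 426546) (nat_lit 30) (.e (nat_lit 368384) (nat_lit 0) .nil)))))) (.g (nat_lit 4) .nil .nil))) 
(.lf (nat_lit 114022) (.g (nat_lit 1639) (.e (nat_lit 5905) (nat_lit 320) (.e (nat_lit 1211) (nat_lit 89) (.e (nat_lit 73782) (nat_lit 32) (.e (nat_lit 2857) (nat_lit 184) (.e (nat_lit 426546) (nat_lit 30) (.e (nat_lit 368384) (nat_lit 0) .nil)))))) (.g (nat_lit 4) .nil .nil)))) (.nd (nat_lit 5) 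
(.lf (nat_lit 114006) (.g (nat_lit 910) (.e (nat_lit 5905) (nat_lit 320) (.e (nat_lit 1210) (nat_lit 89) (.e (nat_lit 73781) (nat_lit 32) (.e (nat_lit 2854) (nat_lit 184) (.e (nat_lit 426546) (nat_lit 30) (.e (nat_lit 368384) (nat_lit 0) .nil)))))) (.g (nat_lit 4) .nil .nil))) 
(.lf (nat_lit 114038) (.g (nat_lit 2312) (.e (nat_lit 5905) (nat_lit 320) (.e (nat_lit 1219) (nat_lit 90) (.e (nat_lit 81943) (nat_lit 20) (.e (nat_lit 2005) (nat_lit 138) (.e (nat_lit 671748) (nat_lit 0) (.e (nat_lit 1589) (nat_lit 111) (.e (nat_lit 368384) (nat_lit 0) .nil))))))) (.g (nat_lit 6) .nil .nil))))) (.nd (nat_lit 4) (.nd (nat_lit 5) 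
(.lf (nat_lit 113998) (.g (nat_lit 3169) (.e (nat_lit 5905) (nat_lit 320) (.e (nat_lit 1209) (nat_lit 89) (.e (nat_lit 73782) (nat_lit 32) (.e (nat_lit 3087) (nat_lit 191) (.e (nat_lit 483394) (nat_lit 24) (.e (nat_lit 344097) (nat_lit 18) .nil)))))) (.g (nat_lit 0) .nil .nil))) 
(.lf (nat_lit 114030) (.g (nat_lit 2582) (.e (nat_lit 5905) (nat_lit 320) (.e (nat_lit 1219) (nat_lit 90) (.e (nat_lit 81924) (nat_lit 0) (.e (nat_lit 3748) (nat_lit 228) (.e (nat_lit 786483) (nat_lit 30) (.e (nat_lit 368384) (nat_lit 0) .nil)))))) (.g (nat_lit 5) .nil .nil)))) (.nd (nat_lit 5) 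
(.lf (nat_lit 114014) (.g (nat_lit 2563) (.e (nat_lit 5905) (nat_lit 320) (.e (nat_lit 1210) (nat_lit 89) (.e (nat_lit 73781) (nat_lit 32) (.e (nat_lit 3089) (nat_lit 191) (.e (nat_lit 483395) (nat_lit 24) (.e (nat_lit 344097) (nat_lit 18) .nil)))))) (.g (nat_lit 0) .nil .nil))) 
(.lf (nat_lit 114046) (.g (nat_lit 2113) (.e (nat_lit 5905) (nat_lit 320) (.e (nat_lit 1219) (nat_lit 90) (.e (nat_lit 81943) (nat_lit 20) (.e (nat_lit 2006) (nat_lit 138) (.e (nat_lit 671748) (nat_lit 0) (.e (nat_lit 1599) (nat_lit 111) (.e (nat_lit 368384) (nat_lit 0) .nil))))))) (.g (nat_lit 6) .nil .nil)))))))) 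
(.nd (nat_lit 1) (.nd (nat_lit 2) (.nd (nat_lit 3) (.nd (nat_lit 4) (.nd (nat_lit 5) 
(.lf (nat_lit 113985) (.g (nat_lit 1772) (.e (nat_lit 5905) (nat_lit 320) (.e (nat_lit 1200) (nat_lit 88) (.e (nat_lit 65630) (nat_lit 14) (.e (nat_lit 401458) (nat_lit 13) (.e (nat_lit 483396) (nat_lit 24) .nil))))) .nil)) 
(.lf (nat_lit 114017) (.g (nat_lit 366) (.e (nat_lit 5905) (nat_lit 320) (.e (nat_lit 1211) (nat_lit 89) (.e (nat_lit 73731) (nat_lit 0) .nil))) .nil))) (.nd (nat_lit 5) 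
(.lf (nat_lit 114001) (.g (nat_lit 3200) (.e (nat_lit 5905) (nat_lit 320) (.e (nat_lit 1209) (nat_lit 89) (.e (nat_lit 73782) (nat_lit 32) (.e (nat_lit 3089) (nat_lit 191) (.e (nat_lit 483395) (nat_lit 24) (.e (nat_lit 344097) (nat_lit 18) .nil)))))) (.g (nat_lit 0) .nil .nil))) 
(.lf (nat_lit 114033) (.g (nat_lit 2343) (.e (nat_lit 5905) (nat_lit 320) (.e (nat_lit 1219) (nat_lit 90) (.e (nat_lit 81943) (nat_lit 20) (.e (nat_lit 2004) (nat_lit 138) (.e (nat_lit 671748) (nat_lit 0) (.e (nat_lit 1589) (nat_lit 111) (.e (nat_lit 368384) (nat_lit 0) .nil))))))) (.g (nat_lit 6) .nil .nil))))) (.nd (nat_lit 4) (.nd (nat_lit 5) 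
(.lf (nat_lit 113993) (.g (nat_lit 489) (.e (nat_lit 5905) (nat_lit 320) (.e (nat_lit 1209) (nat_lit 89) (.e (nat_lit 73782) (nat_lit 32) .nil))) .nil)) 
(.lf (nat_lit 114025) (.g (nat_lit 1895) (.e (nat_lit 5905) (nat_lit 320) (.e (nat_lit 1219) (nat_lit 90) (.e (nat_lit 81922) (nat_lit 0) (.e (nat_lit 3747) (nat_lit 228) (.e (nat_lit 786481) (nat_lit 30) (.e (nat_lit 368384) (nat_lit 0) .nil)))))) (.g (nat_lit 4) .nil .nil)))) (.nd (nat_lit 5) 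
(.lf (nat_lit 114009) (.g (nat_lit 1787) (.e (nat_lit 5905) (nat_lit 320) (.e (nat_lit 1210) (nat_lit 89) (.e (nat_lit 73781) (nat_lit 32) (.e (nat_lit 2856) (nat_lit 184) (.e (nat_lit 426546) (nat_lit 30) (.e (nat_lit 368384) (nat_lit 0) .nil)))))) (.g (nat_lit 5) .nil .nil))) 
(.lf (nat_lit 114041) (.g (nat_lit 1861) (.e (nat_lit 5905) (nat_lit 320) (.e (nat_lit 1219) (nat_lit 90) (.e (nat_lit 81943) (nat_lit 20) (.e (nat_lit 2005) (nat_lit 138) (.e (nat_lit 671748) (nat_lit 0) (.e (nat_lit 1599) (nat_lit 111) (.e (nat_lit 368384) (nat_lit 0) .nil))))))) (.g (nat_lit 6) .nil .nil)))))) (.nd (nat_lit 3) (.nd (nat_lit 4) (.nd (nat_lit 5) 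
(.lf (nat_lit 113989) (.g (nat_lit 2120) (.e (nat_lit 5905) (nat_lit 320) (.e (nat_lit 1209) (nat_lit 89) (.e (nat_lit 73781) (nat_lit 32) (.e (nat_lit 2856) (nat_lit 184) (.e (nat_lit 426544) (nat_lit 30) (.e (nat_lit 368384) (nat_lit 0) .nil)))))) (.g (nat_lit 4) .nil .nil))) 
(.lf (nat_lit 114021) (.g (nat_lit 2096) (.e (nat_lit 5905) (nat_lit 320) (.e (nat_lit 1211) (nat_lit 89) (.e (nat_lit 73781) (nat_lit 32) (.e (nat_lit 3090) (nat_lit 191) (.e (nat_lit 483398) (nat_lit 25) (.e (nat_lit 368662) (nat_lit 18) .nil)))))) (.g (nat_lit 4) .nil .nil)))) (.nd (nat_lit 5) 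
(.lf (nat_lit 114005) (.g (nat_lit 1167) (.e (nat_lit 5905) (nat_lit 320) (.e (nat_lit 1209) (nat_lit 89) (.e (nat_lit 73795) (nat_lit 47) (.e (nat_lit 123165) (nat_lit 256) (.e (nat_lit 323) (nat_lit 24) (.e (nat_lit 368384) (nat_lit 0) .nil)))))) (.g (nat_lit 4) .nil .nil))) 
(.lf (nat_lit 114037) (.g (nat_lit 2327) (.e (nat_lit 5905) (nat_lit 320) (.e (nat_lit 1219) (nat_lit 90) (.e (nat_lit 81943) (nat_lit 20) (.e (nat_lit 2005) (nat_lit 138) (.e (nat_lit 671748) (nat_lit 0) (.e (nat_lit 1586) (nat_lit 111) (.e (nat_lit 368384) (nat_lit 0) .nil))))))) (.g (nat_lit 6) .nil .nil))))) (.nd (nat_lit 4) (.nd (nat_lit 5) 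
(.lf (nat_lit 113997) (.g (nat_lit 2238) (.e (nat_lit 5905) (nat_lit 320) (.e (nat_lit 1209) (nat_lit 89) (.e (nat_lit 73782) (nat_lit 32) (.e (nat_lit 2857) (nat_lit 184) (.e (nat_lit 426546) (nat_lit 30) (.e (nat_lit 368384) (nat_lit 0) .nil)))))) (.g (nat_lit 5) .nil .nil))) 
(.lf (nat_lit 114029) (.g (nat_lit 2062) (.e (nat_lit 5905) (nat_lit 320) (.e (nat_lit 1219) (nat_lit 90) (.e (nat_lit 81924) (nat_lit 0) (.e (nat_lit 3748) (nat_lit 228) (.e (nat_lit 786481) (nat_lit 30) (.e (nat_lit 368384) (nat_lit 0) .nil)))))) (.g (nat_lit 5) .nil .nil)))) (.nd (nat_lit 5) 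
(.lf (nat_lit 114013) (.g (nat_lit 2790) (.e (nat_lit 5905) (nat_lit 320) (.e (nat_lit 1210) (nat_lit 89) (.e (nat_lit 73781) (nat_lit 32) (.e (nat_lit 3089) (nat_lit 191) (.e (nat_lit 483394) (nat_lit 24) (.e (nat_lit 344097) (nat_lit 18) .nil)))))) (.g (nat_lit 0) .nil .nil))) 
(.lf (nat_lit 114045) (.g (nat_lit 2252) (.e (nat_lit 5905) (nat_lit 320) (.e (nat_lit 1219) (nat_lit 90) (.e (nat_lit 81943) (nat_lit 20) (.e (nat_lit 2006) (nat_lit 138) (.e (nat_lit 671748) (nat_lit 0) (.e (nat_lit 1598) (nat_lit 111) (.e (nat_lit 368384) (nat_lit 0) .nil))))))) (.g (nat_lit 6) .nil .nil))))))) (.nd (nat_lit 2) (.nd (nat_lit 3) (.nd (nat_lit 4) (.nd (nat_lit 5) 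
(.lf (nat_lit 113987) (.g (nat_lit 3049) (.e (nat_lit 5905) (nat_lit 320) (.e (nat_lit 1200) (nat_lit 88) (.e (nat_lit 65630) (nat_lit 14) (.e (nat_lit 401459) (nat_lit 13) (.e (nat_lit 483400) (nat_lit 25) .nil))))) .nil)) 
(.lf (nat_lit 114019) (.g (nat_lit 1843) (.e (nat_lit 5905) (nat_lit 320) (.e (nat_lit 1211) (nat_lit 89) (.e (nat_lit 73781) (nat_lit 32) (.e (nat_lit 2856) (nat_lit 184) (.e (nat_lit 426546) (nat_lit 30) (.e (nat_lit 368384) (nat_lit 0) .nil)))))) (.g (nat_lit 4) .nil .nil)))) (.nd (nat_lit 5) 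
(.lf (nat_lit 114003) (.g (nat_lit 3419) (.e (nat_lit 5905) (nat_lit 320) (.e (nat_lit 1209) (nat_lit 89) (.e (nat_lit 73782) (nat_lit 32) (.e (nat_lit 3090) (nat_lit 191) (.e (nat_lit 483395) (nat_lit 24) (.e (nat_lit 344097) (nat_lit 18) .nil)))))) (.g (nat_lit 0) .nil .nil))) 
(.lf (nat_lit 114035) (.g (nat_lit 1969) (.e (nat_lit 5905) (nat_lit 320) (.e (nat_lit 1219) (nat_lit 90) (.e (nat_lit 81943) (nat_lit 20) (.e (nat_lit 2004) (nat_lit 138) (.e (nat_lit 671748) (nat_lit 0) (.e (nat_lit 1598) (nat_lit 111) (.e (nat_lit 368384) (nat_lit 0) .nil))))))) (.g (nat_lit 6) .nil .nil))))) (.nd (nat_lit 4) (.nd (nat_lit 5) 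
(.lf (nat_lit 113995) (.g (nat_lit 1744) (.e (nat_lit 5905) (nat_lit 320) (.e (nat_lit 1209) (nat_lit 89) (.e (nat_lit 73782) (nat_lit 32) (.e (nat_lit 2855) (nat_lit 184) (.e (nat_lit 426546) (nat_lit 30) (.e (nat_lit 368384) (nat_lit 0) .nil)))))) (.g (nat_lit 4) .nil .nil))) 
(.lf (nat_lit 114027) (.g (nat_lit 2314) (.e (nat_lit 5905) (nat_lit 320) (.e (nat_lit 1219) (nat_lit 90) (.e (nat_lit 81924) (nat_lit 0) (.e (nat_lit 3747) (nat_lit 228) (.e (nat_lit 786481) (nat_lit 30) (.e (nat_lit 368384) (nat_lit 0) .nil)))))) (.g (nat_lit 5) .nil .nil)))) (.nd (nat_lit 5) 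
(.lf (nat_lit 114011) (.g (nat_lit 2436) (.e (nat_lit 5905) (nat_lit 320) (.e (nat_lit 1210) (nat_lit 89) (.e (nat_lit 73781) (nat_lit 32) (.e (nat_lit 3087) (nat_lit 191) (.e (nat_lit 483394) (nat_lit 24) (.e (nat_lit 344097) (nat_lit 18) .nil)))))) (.g (nat_lit 0) .nil .nil))) 
(.lf (nat_lit 114043) (.g (nat_lit 2562) (.e (nat_lit 5905) (nat_lit 320) (.e (nat_lit 1219) (nat_lit 90) (.e (nat_lit 81943) (nat_lit 20) (.e (nat_lit 2006) (nat_lit 138) (.e (nat_lit 671748) (nat_lit 0) (.e (nat_lit 1589) (nat_lit 111) (.e (nat_lit 368384) (nat_lit 0) .nil))))))) (.g (nat_lit 6) .nil .nil)))))) (.nd (nat_lit 3) (.nd (nat_lit 4) (.nd (nat_lit 5) 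
(.lf (nat_lit 113991) (.g (nat_lit 1898) (.e (nat_lit 5905) (nat_lit 320) (.e (nat_lit 1209) (nat_lit 89) (.e (nat_lit 73781) (nat_lit 32) (.e (nat_lit 2857) (nat_lit 184) (.e (nat_lit 426544) (nat_lit 30) (.e (nat_lit 368384) (nat_lit 0) .nil)))))) (.g (nat_lit 4) .nil .nil))) 
(.lf (nat_lit 114023) (.g (nat_lit 798) (.e (nat_lit 5905) (nat_lit 320) (.e (nat_lit 1211) (nat_lit 89) (.e (nat_lit 73782) (nat_lit 32) (.e (nat_lit 3090) (nat_lit 191) .nil)))) .nil))) (.nd (nat_lit 5) 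
(.lf (nat_lit 114007) (.g (nat_lit 1040) (.e (nat_lit 5905) (nat_lit 320) (.e (nat_lit 1210) (nat_lit 89) (.e (nat_lit 73781) (nat_lit 32) (.e (nat_lit 2855) (nat_lit 184) (.e (nat_lit 426546) (nat_lit 30) (.e (nat_lit 368384) (nat_lit 0) .nil)))))) (.g (nat_lit 4) .nil .nil))) 
(.lf (nat_lit 114039) (.g (nat_lit 2198) (.e (nat_lit 5905) (nat_lit 320) (.e (nat_lit 1219) (nat_lit 90) (.e (nat_lit 81943) (nat_lit 20) (.e (nat_lit 2005) (nat_lit 138) (.e (nat_lit 671748) (nat_lit 0) (.e (nat_lit 1595) (nat_lit 111) (.e (nat_lit 368384) (nat_lit 0) .nil))))))) (.g (nat_lit 6) .nil .nil))))) (.nd (nat_lit 4) (.nd (nat_lit 5) 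
(.lf (nat_lit 113999) (.g (nat_lit 2999) (.e (nat_lit 5905) (nat_lit 320) (.e (nat_lit 1209) (nat_lit 89) (.e (nat_lit 73782) (nat_lit 32) (.e (nat_lit 3087) (nat_lit 191) (.e (nat_lit 483395) (nat_lit 24) (.e (nat_lit 344097) (nat_lit 18) .nil)))))) (.g (nat_lit 0) .nil .nil))) 
(.lf (nat_lit 114031) (.g (nat_lit 1561) (.e (nat_lit 5905) (nat_lit 320) (.e (nat_lit 1219) (nat_lit 90) (.e (nat_lit 81935) (nat_lit 20) (.e (nat_lit 1998) (nat_lit 137) (.e (nat_lit 663554) (nat_lit 0) (.e (nat_lit 1580) (nat_lit 111) (.e (nat_lit 368384) (nat_lit 0) .nil))))))) (.g (nat_lit 4) .nil .nil)))) (.nd (nat_lit 5) 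
(.lf (nat_lit 114015) (.g (nat_lit 2037) (.e (nat_lit 5905) (nat_lit 320) (.e (nat_lit 1210) (nat_lit 89) (.e (nat_lit 73782) (nat_lit 32) (.e (nat_lit 2856) (nat_lit 184) (.e (nat_lit 426546) (nat_lit 30) (.e (nat_lit 368384) (nat_lit 0) .nil)))))) (.g (nat_lit 4) .nil .nil))) 
(.lf (nat_lit 114047) (.g (nat_lit 1884) (.e (nat_lit 5905) (nat_lit 320) (.e (nat_lit 1219) (nat_lit 90) (.e (nat_lit 81946) (nat_lit 20) (.e (nat_lit 2005) (nat_lit 138) (.e (nat_lit 671747) (nat_lit 0) (.e (nat_lit 1586) (nat_lit 111) (.e (nat_lit 368384) (nat_lit 0) .nil))))))) (.g (nat_lit 4) .nil .nil)))))))))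

noncomputable def tv1538 : DT := (.nd (nat_lit 0) (.nd (nat_lit 1) (.nd (nat_lit 2) (.nd (nat_lit 3) (.nd (nat_lit 4) (.nd (nat_lit 5) 
(.lf (nat_lit 114048) (.g (nat_lit 2285) (.e (nat_lit 5905) (nat_lit 320) (.e (nat_lit 1219) (nat_lit 90) (.e (nat_lit 81946) (nat_lit 20) (.e (nat_lit 2005) (nat_lit 138) (.e (nat_lit 671748) (nat_lit 0) (.e (nat_lit 1586) (nat_lit 111) (.e (nat_lit 368384) (nat_lit 0) .nil))))))) (.g (nat_lit 5) .nil .nil))) 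
(.lf (nat_lit 114080) (.g (nat_lit 4986) (.e (nat_lit 5905) (nat_lit 320) (.e (nat_lit 1219) (nat_lit 90) (.e (nat_lit 81957) (nat_lit 24) (.e (nat_lit 123182) (nat_lit 264) (.e (nat_lit 1201) (nat_lit 88) (.e (nat_lit 65610) (nat_lit 10) (.e (nat_lit 344097) (nat_lit 18) .nil))))))) (.g (nat_lit 0) .nil .nil)))) (.nd (nat_lit 5) 
(.lf (nat_lit 114064) (.g (nat_lit 2898) (.e (nat_lit 5905) (nat_lit 320) (.e (nat_lit 1219) (nat_lit 90) (.e (nat_lit 81947) (nat_lit 20) (.e (nat_lit 2006) (nat_lit 138) (.e (nat_lit 671748) (nat_lit 0) (.e (nat_lit 1586) (nat_lit 111) (.e (nat_lit 368384) (nat_lit 0) .nil))))))) (.g (nat_lit 6) .nil .nil))) 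
(.lf (nat_lit 114096) (.g (nat_lit 3067) (.e (nat_lit 5905) (nat_lit 320) (.e (nat_lit 1220) (nat_lit 90) (.e (nat_lit 81938) (nat_lit 20) (.e (nat_lit 2006) (nat_lit 138) (.e (nat_lit 671748) (nat_lit 0) (.e (nat_lit 1586) (nat_lit 111) (.e (nat_lit 368384) (nat_lit 0) .nil))))))) (.g (nat_lit 6) .nil .nil))))) (.nd (nat_lit 4) (.nd (nat_lit 5) 
(.lf (nat_lit 114056) (.g (nat_lit 1977) (.e (nat_lit 5905) (nat_lit 320) (.e (nat_lit 1219) (nat_lit 90) (.e (nat_lit 81947) (nat_lit 20) (.e (nat_lit 2005) (nat_lit 138) (.e (nat_lit 671747) (nat_lit 0) (.e (nat_lit 1586) (nat_lit 111) (.e (nat_lit 368384) (nat_lit 0) .nil))))))) (.g (nat_lit 4) .nil .nil))) 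
(.lf (nat_lit 114088) (.g (nat_lit 2497) (.e (nat_lit 5905) (nat_lit 320) (.e (nat_lit 1220) (nat_lit 90) (.e (nat_lit 81938) (nat_lit 20) (.e (nat_lit 2003) (nat_lit 138) (.e (nat_lit 671747) (nat_lit 0) (.e (nat_lit 1586) (nat_lit 111) (.e (nat_lit 368384) (nat_lit 0) .nil))))))) (.g (nat_lit 6) .nil .nil)))) (.nd (nat_lit 5) 
(.lf (nat_lit 114072) (.g (nat_lit 3778) (.e (nat_lit 5905) (nat_lit 320) (.e (nat_lit 1219) (nat_lit 90) (.e (nat_lit 81948) (nat_lit 21) (.e (nat_lit 57872) (nat_lit 264) (.e (nat_lit 1190) (nat_lit 88) (.e (nat_lit 65619) (nat_lit 10) (.e (nat_lit 344097) (nat_lit 18) .nil))))))) (.g (nat_lit 0) .nil .nil))) 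
(.lf (nat_lit 114104) (.g (nat_lit 4132) (.e (nat_lit 5905) (nat_lit 320) (.e (nat_lit 1220) (nat_lit 90) (.e (nat_lit 81950) (nat_lit 21) (.e (nat_lit 57870) (nat_lit 264) (.e (nat_lit 1200) (nat_lit 88) (.e (nat_lit 65619) (nat_lit 10) (.e (nat_lit 344097) (nat_lit 18) .nil))))))) (.g (nat_lit 0) .nil .nil)))))) (.nd (nat_lit 3) (.nd (nat_lit 4) (.nd (nat_lit 5) 
(.lf (nat_lit 114052) (.g (nat_lit 2577) (.e (nat_lit 5905) (nat_lit 320) (.e (nat_lit 1219) (nat_lit 90) (.e (nat_lit 81946) (nat_lit 20) (.e (nat_lit 2006) (nat_lit 138) (.e (nat_lit 671748) (nat_lit 0) (.e (nat_lit 1586) (nat_lit 111) (.e (nat_lit 368384) (nat_lit 0) .nil))))))) (.g (nat_lit 5) .nil .nil))) 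
(.lf (nat_lit 114084) (.g (nat_lit 2597) (.e (nat_lit 5905) (nat_lit 320) (.e (nat_lit 1219) (nat_lit 90) (.e (nat_lit 81957) (nat_lit 24) (.e (nat_lit 123197) (nat_lit 266) (.e (nat_lit 57426) (nat_lit 15) (.e (nat_lit 368384) (nat_lit 0) .nil)))))) (.g (nat_lit 5) .nil .nil)))) (.nd (nat_lit 5) 
(.lf (nat_lit 114068) (.g (nat_lit 2388) (.e (nat_lit 5905) (nat_lit 320) (.e (nat_lit 1219) (nat_lit 90) (.e (nat_lit 81947) (nat_lit 20) (.e (nat_lit 2006) (nat_lit 138) (.e (nat_lit 671748) (nat_lit 0) (.e (nat_lit 1599) (nat_lit 111) (.e (nat_lit 368384) (nat_lit 0) .nil))))))) (.g (nat_lit 5) .nil .nil))) 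
(.lf (nat_lit 114100) (.g (nat_lit 2448) (.e (nat_lit 5905) (nat_lit 320) (.e (nat_lit 1220) (nat_lit 90) (.e (nat_lit 81938) (nat_lit 20) (.e (nat_lit 2006) (nat_lit 138) (.e (nat_lit 671748) (nat_lit 0) (.e (nat_lit 1599) (nat_lit 111) (.e (nat_lit 368384) (nat_lit 0) .nil))))))) (.g (nat_lit 6) .nil .nil))))) (.nd (nat_lit 4) (.nd (nat_lit 5) 
(.lf (nat_lit 114060) (.g (nat_lit 2552) (.e (nat_lit 5905) (nat_lit 320) (.e (nat_lit 1219) (nat_lit 90) (.e (nat_lit 81947) (nat_lit 20) (.e (nat_lit 2005) (nat_lit 138) (.e (nat_lit 671748) (nat_lit 0) (.e (nat_lit 1595) (nat_lit 111) (.e (nat_lit 368384) (nat_lit 0) .nil))))))) (.g (nat_lit 5) .nil .nil))) 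
(.lf (nat_lit 114092) (.g (nat_lit 2840) (.e (nat_lit 5905) (nat_lit 320) (.e (nat_lit 1220) (nat_lit 90) (.e (nat_lit 81938) (nat_lit 20) (.e (nat_lit 2005) (nat_lit 138) (.e (nat_lit 671748) (nat_lit 0) (.e (nat_lit 1589) (nat_lit 111) (.e (nat_lit 368384) (nat_lit 0) .nil))))))) (.g (nat_lit 6) .nil .nil)))) (.nd (nat_lit 5) 
(.lf (nat_lit 114076) (.g (nat_lit 3531) (.e (nat_lit 5905) (nat_lit 320) (.e (nat_lit 1219) (nat_lit 90) (.e (nat_lit 81948) (nat_lit 21) (.e (nat_lit 57873) (nat_lit 264) (.e (nat_lit 1200) (nat_lit 88) (.e (nat_lit 65619) (nat_lit 10) (.e (nat_lit 344097) (nat_lit 18) .nil))))))) (.g (nat_lit 0) .nil .nil))) 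
(.lf (nat_lit 114108) (.g (nat_lit 1240) (.e (nat_lit 5905) (nat_lit 320) (.e (nat_lit 1220) (nat_lit 90) (.e (nat_lit 81950) (nat_lit 21) (.e (nat_lit 57873) (nat_lit 264) .nil)))) .nil)))))) (.nd (nat_lit 2) (.nd (nat_lit 3) (.nd (nat_lit 4) (.nd (nat_lit 5) 
(.lf (nat_lit 114050) (.g (nat_lit 1959) (.e (nat_lit 5905) (nat_lit 320) (.e (nat_lit 1219) (nat_lit 90) (.e (nat_lit 81946) (nat_lit 20) (.e (nat_lit 2005) (nat_lit 138) (.e (nat_lit 671748) (nat_lit 0) (.e (nat_lit 1598) (nat_lit 111) (.e (nat_lit 368384) (nat_lit 0) .nil))))))) (.g (nat_lit 5) .nil .nil))) 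
(.lf (nat_lit 114082) (.g (nat_lit 3729) (.e (nat_lit 5905) (nat_lit 320) (.e (nat_lit 1219) (nat_lit 90) (.e (nat_lit 81957) (nat_lit 24) (.e (nat_lit 123185) (nat_lit 264) (.e (nat_lit 1201) (nat_lit 88) (.e (nat_lit 65610) (nat_lit 10) (.e (nat_lit 344097) (nat_lit 18) .nil))))))) (.g (nat_lit 0) .nil .nil)))) (.nd (nat_lit 5) 
(.lf (nat_lit 114066) (.g (nat_lit 2734) (.e (nat_lit 5905) (nat_lit 320) (.e (nat_lit 1219) (nat_lit 90) (.e (nat_lit 81947) (nat_lit 20) (.e (nat_lit 2006) (nat_lit 138) (.e (nat_lit 671748) (nat_lit 0) (.e (nat_lit 1595) (nat_lit 111) (.e (nat_lit 368384) (nat_lit 0) .nil))))))) (.g (nat_lit 5) .nil .nil))) 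
(.lf (nat_lit 114098) (.g (nat_lit 2748) (.e (nat_lit 5905) (nat_lit 320) (.e (nat_lit 1220) (nat_lit 90) (.e (nat_lit 81938) (nat_lit 20) (.e (nat_lit 2006) (nat_lit 138) (.e (nat_lit 671748) (nat_lit 0) (.e (nat_lit 1595) (nat_lit 111) (.e (nat_lit 368384) (nat_lit 0) .nil))))))) (.g (nat_lit 6) .nil .nil))))) (.nd (nat_lit 4) (.nd (nat_lit 5) 
(.lf (nat_lit 114058) (.g (nat_lit 2686) (.e (nat_lit 5905) (nat_lit 320) (.e (nat_lit 1219) (nat_lit 90) (.e (nat_lit 81947) (nat_lit 20) (.e (nat_lit 2005) (nat_lit 138) (.e (nat_lit 671748) (nat_lit 0) (.e (nat_lit 1586) (nat_lit 111) (.e (nat_lit 368384) (nat_lit 0) .nil))))))) (.g (nat_lit 6) .nil .nil))) 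
(.lf (nat_lit 114090) (.g (nat_lit 2091) (.e (nat_lit 5905) (nat_lit 320) (.e (nat_lit 1220) (nat_lit 90) (.e (nat_lit 81938) (nat_lit 20) (.e (nat_lit 2005) (nat_lit 138) (.e (nat_lit 671747) (nat_lit 0) (.e (nat_lit 1595) (nat_lit 111) (.e (nat_lit 368384) (nat_lit 0) .nil))))))) (.g (nat_lit 5) .nil .nil)))) (.nd (nat_lit 5) 
(.lf (nat_lit 114074) (.g (nat_lit 3607) (.e (nat_lit 5905) (nat_lit 320) (.e (nat_lit 1219) (nat_lit 90) (.e (nat_lit 81948) (nat_lit 21) (.e (nat_lit 57872) (nat_lit 264) (.e (nat_lit 1200) (nat_lit 88) (.e (nat_lit 65619) (nat_lit 10) (.e (nat_lit 344097) (nat_lit 18) .nil))))))) (.g (nat_lit 0) .nil .nil))) 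
(.lf (nat_lit 114106) (.g (nat_lit 4419) (.e (nat_lit 5905) (nat_lit 320) (.e (nat_lit 1220) (nat_lit 90) (.e (nat_lit 81950) (nat_lit 21) (.e (nat_lit 57872) (nat_lit 264) (.e (nat_lit 1199) (nat_lit 88) (.e (nat_lit 65610) (nat_lit 10) (.e (nat_lit 344097) (nat_lit 18) .nil))))))) (.g (nat_lit 0) .nil .nil)))))) (.nd (nat_lit 3) (.nd (nat_lit 4) (.nd (nat_lit 5) 
(.lf (nat_lit 114054) (.g (nat_lit 2033) (.e (nat_lit 5905) (nat_lit 320) (.e (nat_lit 1219) (nat_lit 90) (.e (nat_lit 81946) (nat_lit 20) (.e (nat_lit 2006) (nat_lit 138) (.e (nat_lit 671748) (nat_lit 0) (.e (nat_lit 1599) (nat_lit 111) (.e (nat_lit 368384) (nat_lit 0) .nil))))))) (.g (nat_lit 4) .nil .nil))) 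
(.lf (nat_lit 114086) (.g (nat_lit 2977) (.e (nat_lit 5905) (nat_lit 320) (.e (nat_lit 1219) (nat_lit 90) (.e (nat_lit 81959) (nat_lit 24) (.e (nat_lit 123183) (nat_lit 264) (.e (nat_lit 1201) (nat_lit 88) (.e (nat_lit 65610) (nat_lit 10) (.e (nat_lit 344097) (nat_lit 18) .nil))))))) (.g (nat_lit 5) .nil .nil)))) (.nd (nat_lit 5) 
(.lf (nat_lit 114070) (.g (nat_lit 3416) (.e (nat_lit 5905) (nat_lit 320) (.e (nat_lit 1219) (nat_lit 90) (.e (nat_lit 81948) (nat_lit 21) (.e (nat_lit 57870) (nat_lit 264) (.e (nat_lit 1190) (nat_lit 88) (.e (nat_lit 65619) (nat_lit 10) (.e (nat_lit 344097) (nat_lit 18) .nil))))))) (.g (nat_lit 0) .nil .nil))) 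
(.lf (nat_lit 114102) (.g (nat_lit 3952) (.e (nat_lit 5905) (nat_lit 320) (.e (nat_lit 1220) (nat_lit 90) (.e (nat_lit 81950) (nat_lit 21) (.e (nat_lit 57870) (nat_lit 264) (.e (nat_lit 1189) (nat_lit 88) (.e (nat_lit 65619) (nat_lit 10) (.e (nat_lit 344097) (nat_lit 18) .nil))))))) (.g (nat_lit 0) .nil .nil))))) (.nd (nat_lit 4) (.nd (nat_lit 5) 
(.lf (nat_lit 114062) (.g (nat_lit 2214) (.e (nat_lit 5905) (nat_lit 320) (.e (nat_lit 1219) (nat_lit 90) (.e (nat_lit 81947) (nat_lit 20) (.e (nat_lit 2005) (nat_lit 138) (.e (nat_lit 671748) (nat_lit 0) (.e (nat_lit 1599) (nat_lit 111) (.e (nat_lit 368384) (nat_lit 0) .nil))))))) (.g (nat_lit 5) .nil .nil))) 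
(.lf (nat_lit 114094) (.g (nat_lit 2543) (.e (nat_lit 5905) (nat_lit 320) (.e (nat_lit 1220) (nat_lit 90) (.e (nat_lit 81938) (nat_lit 20) (.e (nat_lit 2005) (nat_lit 138) (.e (nat_lit 671748) (nat_lit 0) (.e (nat_lit 1598) (nat_lit 111) (.e (nat_lit 368384) (nat_lit 0) .nil))))))) (.g (nat_lit 6) .nil .nil)))) (.nd (nat_lit 5) 
(.lf (nat_lit 114078) (.g (nat_lit 2020) (.e (nat_lit 5905) (nat_lit 320) (.e (nat_lit 1219) (nat_lit 90) (.e (nat_lit 81950) (nat_lit 21) (.e (nat_lit 57873) (nat_lit 264) (.e (nat_lit 1189) (nat_lit 88) .nil))))) .nil)) 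
(.lf (nat_lit 114110) (.g (nat_lit 4566) (.e (nat_lit 5905) (nat_lit 320) (.e (nat_lit 1220) (nat_lit 90) (.e (nat_lit 81950) (nat_lit 21) (.e (nat_lit 57873) (nat_lit 264) (.e (nat_lit 1200) (nat_lit 88) (.e (nat_lit 65619) (nat_lit 10) (.e (nat_lit 344097) (nat_lit 18) .nil))))))) (.g (nat_lit 0) .nil .nil)))))))) 
(.nd (nat_lit 1) (.nd (nat_lit 2) (.nd (nat_lit 3) (.nd (nat_lit 4) (.nd (nat_lit 5) 
(.lf (nat_lit 114049) (.g (nat_lit 2260) (.e (nat_lit 5905) (nat_lit 320) (.e (nat_lit 1219) (nat_lit 90) (.e (nat_lit 81946) (nat_lit 20) (.e (nat_lit 2005) (nat_lit 138) (.e (nat_lit 671748) (nat_lit 0) (.e (nat_lit 1589) (nat_lit 111) (.e (nat_lit 368384) (nat_lit 0) .nil))))))) (.g (nat_lit 5) .nil .nil))) 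
(.lf (nat_lit 114081) (.g (nat_lit 3751) (.e (nat_lit 5905) (nat_lit 320) (.e (nat_lit 1219) (nat_lit 90) (.e (nat_lit 81957) (nat_lit 24) (.e (nat_lit 123183) (nat_lit 264) (.e (nat_lit 1201) (nat_lit 88) (.e (nat_lit 65610) (nat_lit 10) (.e (nat_lit 344097) (nat_lit 18) .nil))))))) (.g (nat_lit 6) .nil .nil)))) (.nd (nat_lit 5) 
(.lf (nat_lit 114065) (.g (nat_lit 2847) (.e (nat_lit 5905) (nat_lit 320) (.e (nat_lit 1219) (nat_lit 90) (.e (nat_lit 81947) (nat_lit 20) (.e (nat_lit 2006) (nat_lit 138) (.e (nat_lit 671748) (nat_lit 0) (.e (nat_lit 1589) (nat_lit 111) (.e (nat_lit 368384) (nat_lit 0) .nil))))))) (.g (nat_lit 6) .nil .nil))) 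
(.lf (nat_lit 114097) (.g (nat_lit 2956) (.e (nat_lit 5905) (nat_lit 320) (.e (nat_lit 1220) (nat_lit 90) (.e (nat_lit 81938) (nat_lit 20) (.e (nat_lit 2006) (nat_lit 138) (.e (nat_lit 671748) (nat_lit 0) (.e (nat_lit 1589) (nat_lit 111) (.e (nat_lit 368384) (nat_lit 0) .nil))))))) (.g (nat_lit 6) .nil .nil))))) (.nd (nat_lit 4) (.nd (nat_lit 5) 
(.lf (nat_lit 114057) (.g (nat_lit 1790) (.e (nat_lit 5905) (nat_lit 320) (.e (nat_lit 1219) (nat_lit 90) (.e (nat_lit 81947) (nat_lit 20) (.e (nat_lit 2005) (nat_lit 138) (.e (nat_lit 671747) (nat_lit 0) (.e (nat_lit 1595) (nat_lit 111) (.e (nat_lit 368384) (nat_lit 0) .nil))))))) (.g (nat_lit 4) .nil .nil))) 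
(.lf (nat_lit 114089) (.g (nat_lit 2278) (.e (nat_lit 5905) (nat_lit 320) (.e (nat_lit 1220) (nat_lit 90) (.e (nat_lit 81938) (nat_lit 20) (.e (nat_lit 2005) (nat_lit 138) (.e (nat_lit 671747) (nat_lit 0) (.e (nat_lit 1586) (nat_lit 111) (.e (nat_lit 368384) (nat_lit 0) .nil))))))) (.g (nat_lit 5) .nil .nil)))) (.nd (nat_lit 5) 
(.lf (nat_lit 114073) (.g (nat_lit 3555) (.e (nat_lit 5905) (nat_lit 320) (.e (nat_lit 1219) (nat_lit 90) (.e (nat_lit 81948) (nat_lit 21) (.e (nat_lit 57872) (nat_lit 264) (.e (nat_lit 1199) (nat_lit 88) (.e (nat_lit 65610) (nat_lit 10) (.e (nat_lit 344097) (nat_lit 18) .nil))))))) (.g (nat_lit 0) .nil .nil))) 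
(.lf (nat_lit 114105) (.g (nat_lit 4673) (.e (nat_lit 5905) (nat_lit 320) (.e (nat_lit 1220) (nat_lit 90) (.e (nat_lit 81950) (nat_lit 21) (.e (nat_lit 57872) (nat_lit 264) (.e (nat_lit 1190) (nat_lit 88) (.e (nat_lit 65619) (nat_lit 10) (.e (nat_lit 344097) (nat_lit 18) .nil))))))) (.g (nat_lit 0) .nil .nil)))))) (.nd (nat_lit 3) (.nd (nat_lit 4) (.nd (nat_lit 5) 
(.lf (nat_lit 114053) (.g (nat_lit 2478) (.e (nat_lit 5905) (nat_lit 320) (.e (nat_lit 1219) (nat_lit 90) (.e (nat_lit 81946) (nat_lit 20) (.e (nat_lit 2006) (nat_lit 138) (.e (nat_lit 671748) (nat_lit 0) (.e (nat_lit 1589) (nat_lit 111) (.e (nat_lit 368384) (nat_lit 0) .nil))))))) (.g (nat_lit 5) .nil .nil))) 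
(.lf (nat_lit 114085) (.g (nat_lit 2094) (.e (nat_lit 5905) (nat_lit 320) (.e (nat_lit 1219) (nat_lit 90) (.e (nat_lit 81957) (nat_lit 24) (.e (nat_lit 123198) (nat_lit 266) (.e (nat_lit 57426) (nat_lit 15) (.e (nat_lit 368384) (nat_lit 0) .nil)))))) (.g (nat_lit 5) .nil .nil)))) (.nd (nat_lit 5) 
(.lf (nat_lit 114069) (.g (nat_lit 3077) (.e (nat_lit 5905) (nat_lit 320) (.e (nat_lit 1219) (nat_lit 90) (.e (nat_lit 81948) (nat_lit 21) (.e (nat_lit 57870) (nat_lit 264) (.e (nat_lit 1189) (nat_lit 88) (.e (nat_lit 65619) (nat_lit 10) (.e (nat_lit 344097) (nat_lit 18) .nil))))))) (.g (nat_lit 0) .nil .nil))) 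
(.lf (nat_lit 114101) (.g (nat_lit 1189) (.e (nat_lit 5905) (nat_lit 320) (.e (nat_lit 1220) (nat_lit 90) (.e (nat_lit 81950) (nat_lit 21) (.e (nat_lit 57870) (nat_lit 264) .nil)))) .nil)))) (.nd (nat_lit 4) (.nd (nat_lit 5) 
(.lf (nat_lit 114061) (.g (nat_lit 2366) (.e (nat_lit 5905) (nat_lit 320) (.e (nat_lit 1219) (nat_lit 90) (.e (nat_lit 81947) (nat_lit 20) (.e (nat_lit 2005) (nat_lit 138) (.e (nat_lit 671748) (nat_lit 0) (.e (nat_lit 1598) (nat_lit 111) (.e (nat_lit 368384) (nat_lit 0) .nil))))))) (.g (nat_lit 5) .nil .nil))) 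
(.lf (nat_lit 114093) (.g (nat_lit 2723) (.e (nat_lit 5905) (nat_lit 320) (.e (nat_lit 1220) (nat_lit 90) (.e (nat_lit 81938) (nat_lit 20) (.e (nat_lit 2005) (nat_lit 138) (.e (nat_lit 671748) (nat_lit 0) (.e (nat_lit 1595) (nat_lit 111) (.e (nat_lit 368384) (nat_lit 0) .nil))))))) (.g (nat_lit 6) .nil .nil)))) (.nd (nat_lit 5) 
(.lf (nat_lit 114077) (.g (nat_lit 3348) (.e (nat_lit 5905) (nat_lit 320) (.e (nat_lit 1219) (nat_lit 90) (.e (nat_lit 81950) (nat_lit 21) (.e (nat_lit 57872) (nat_lit 264) (.e (nat_lit 1190) (nat_lit 88) (.e (nat_lit 65619) (nat_lit 10) (.e (nat_lit 344097) (nat_lit 18) .nil))))))) (.g (nat_lit 6) .nil .nil))) 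
(.lf (nat_lit 114109) (.g (nat_lit 4579) (.e (nat_lit 5905) (nat_lit 320) (.e (nat_lit 1220) (nat_lit 90) (.e (nat_lit 81950) (nat_lit 21) (.e (nat_lit 57873) (nat_lit 264) (.e (nat_lit 1199) (nat_lit 88) (.e (nat_lit 65610) (nat_lit 10) (.e (nat_lit 344097) (nat_lit 18) .nil))))))) (.g (nat_lit 0) .nil .nil))))))) (.nd (nat_lit 2) (.nd (nat_lit 3) (.nd (nat_lit 4) (.nd (nat_lit 5) 
(.lf (nat_lit 114051) (.g (nat_lit 1809) (.e (nat_lit 5905) (nat_lit 320) (.e (nat_lit 1219) (nat_lit 90) (.e (nat_lit 81946) (nat_lit 20) (.e (nat_lit 2005) (nat_lit 138) (.e (nat_lit 671748) (nat_lit 0) (.e (nat_lit 1599) (nat_lit 111) (.e (nat_lit 368384) (nat_lit 0) .nil))))))) (.g (nat_lit 4) .nil .nil))) 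
(.lf (nat_lit 114083) (.g (nat_lit 3243) (.e (nat_lit 5905) (nat_lit 320) (.e (nat_lit 1219) (nat_lit 90) (.e (nat_lit 81957) (nat_lit 24) (.e (nat_lit 123195) (nat_lit 266) (.e (nat_lit 57426) (nat_lit 15) (.e (nat_lit 368384) (nat_lit 0) .nil)))))) (.g (nat_lit 5) .nil .nil)))) (.nd (nat_lit 5) 
(.lf (nat_lit 114067) (.g (nat_lit 2552) (.e (nat_lit 5905) (nat_lit 320) (.e (nat_lit 1219) (nat_lit 90) (.e (nat_lit 81947) (nat_lit 20) (.e (nat_lit 2006) (nat_lit 138) (.e (nat_lit 671748) (nat_lit 0) (.e (nat_lit 1598) (nat_lit 111) (.e (nat_lit 368384) (nat_lit 0) .nil))))))) (.g (nat_lit 5) .nil .nil))) 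
(.lf (nat_lit 114099) (.g (nat_lit 2651) (.e (nat_lit 5905) (nat_lit 320) (.e (nat_lit 1220) (nat_lit 90) (.e (nat_lit 81938) (nat_lit 20) (.e (nat_lit 2006) (nat_lit 138) (.e (nat_lit 671748) (nat_lit 0) (.e (nat_lit 1598) (nat_lit 111) (.e (nat_lit 368384) (nat_lit 0) .nil))))))) (.g (nat_lit 6) .nil .nil))))) (.nd (nat_lit 4) (.nd (nat_lit 5) 
(.lf (nat_lit 114059) (.g (nat_lit 2665) (.e (nat_lit 5905) (nat_lit 320) (.e (nat_lit 1219) (nat_lit 90) (.e (nat_lit 81947) (nat_lit 20) (.e (nat_lit 2005) (nat_lit 138) (.e (nat_lit 671748) (nat_lit 0) (.e (nat_lit 1589) (nat_lit 111) (.e (nat_lit 368384) (nat_lit 0) .nil))))))) (.g (nat_lit 6) .nil .nil))) 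
(.lf (nat_lit 114091) (.g (nat_lit 2871) (.e (nat_lit 5905) (nat_lit 320) (.e (nat_lit 1220) (nat_lit 90) (.e (nat_lit 81938) (nat_lit 20) (.e (nat_lit 2005) (nat_lit 138) (.e (nat_lit 671748) (nat_lit 0) (.e (nat_lit 1586) (nat_lit 111) (.e (nat_lit 368384) (nat_lit 0) .nil))))))) (.g (nat_lit 6) .nil .nil)))) (.nd (nat_lit 5) 
(.lf (nat_lit 114075) (.g (nat_lit 3542) (.e (nat_lit 5905) (nat_lit 320) (.e (nat_lit 1219) (nat_lit 90) (.e (nat_lit 81948) (nat_lit 21) (.e (nat_lit 57873) (nat_lit 264) (.e (nat_lit 1199) (nat_lit 88) (.e (nat_lit 65610) (nat_lit 10) (.e (nat_lit 344097) (nat_lit 18) .nil))))))) (.g (nat_lit 0) .nil .nil))) 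
(.lf (nat_lit 114107) (.g (nat_lit 4511) (.e (nat_lit 5905) (nat_lit 320) (.e (nat_lit 1220) (nat_lit 90) (.e (nat_lit 81950) (nat_lit 21) (.e (nat_lit 57872) (nat_lit 264) (.e (nat_lit 1200) (nat_lit 88) (.e (nat_lit 65619) (nat_lit 10) (.e (nat_lit 344097) (nat_lit 18) .nil))))))) (.g (nat_lit 0) .nil .nil)))))) (.nd (nat_lit 3) (.nd (nat_lit 4) (.nd (nat_lit 5) 
(.lf (nat_lit 114055) (.g (nat_lit 1304) (.e (nat_lit 5905) (nat_lit 320) (.e (nat_lit 1219) (nat_lit 90) (.e (nat_lit 81947) (nat_lit 20) (.e (nat_lit 2003) (nat_lit 138) (.e (nat_lit 671747) (nat_lit 0) .nil))))) .nil)) 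
(.lf (nat_lit 114087) (.g (nat_lit 770) (.e (nat_lit 5905) (nat_lit 320) (.e (nat_lit 1220) (nat_lit 90) (.e (nat_lit 81930) (nat_lit 20) (.e (nat_lit 1049) (nat_lit 81) .nil)))) .nil))) (.nd (nat_lit 5) 
(.lf (nat_lit 114071) (.g (nat_lit 3275) (.e (nat_lit 5905) (nat_lit 320) (.e (nat_lit 1219) (nat_lit 90) (.e (nat_lit 81948) (nat_lit 21) (.e (nat_lit 57870) (nat_lit 264) (.e (nat_lit 1200) (nat_lit 88) (.e (nat_lit 65619) (nat_lit 10) (.e (nat_lit 344097) (nat_lit 18) .nil))))))) (.g (nat_lit 0) .nil .nil))) 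
(.lf (nat_lit 114103) (.g (nat_lit 4280) (.e (nat_lit 5905) (nat_lit 320) (.e (nat_lit 1220) (nat_lit 90) (.e (nat_lit 81950) (nat_lit 21) (.e (nat_lit 57870) (nat_lit 264) (.e (nat_lit 1190) (nat_lit 88) (.e (nat_lit 65619) (nat_lit 10) (.e (nat_lit 344097) (nat_lit 18) .nil))))))) (.g (nat_lit 0) .nil .nil))))) (.nd (nat_lit 4) (.nd (nat_lit 5) 
(.lf (nat_lit 114063) (.g (nat_lit 1399) (.e (nat_lit 5905) (nat_lit 320) (.e (nat_lit 1219) (nat_lit 90) (.e (nat_lit 81947) (nat_lit 20) (.e (nat_lit 2006) (nat_lit 138) (.e (nat_lit 671748) (nat_lit 0) .nil))))) .nil)) 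
(.lf (nat_lit 114095) (.g (nat_lit 2392) (.e (nat_lit 5905) (nat_lit 320) (.e (nat_lit 1220) (nat_lit 90) (.e (nat_lit 81938) (nat_lit 20) (.e (nat_lit 2005) (nat_lit 138) (.e (nat_lit 671748) (nat_lit 0) (.e (nat_lit 1599) (nat_lit 111) (.e (nat_lit 368384) (nat_lit 0) .nil))))))) (.g (nat_lit 6) .nil .nil)))) (.nd (nat_lit 5) 
(.lf (nat_lit 114079) (.g (nat_lit 2150) (.e (nat_lit 5905) (nat_lit 320) (.e (nat_lit 1219) (nat_lit 90) (.e (nat_lit 81957) (nat_lit 24) (.e (nat_lit 123182) (nat_lit 264) (.e (nat_lit 1187) (nat_lit 88) .nil))))) .nil)) 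
(.lf (nat_lit 114111) (.g (nat_lit 1800) (.e (nat_lit 5905) (nat_lit 320) (.e (nat_lit 1220) (nat_lit 90) (.e (nat_lit 81950) (nat_lit 21) (.e (nat_lit 57873) (nat_lit 264) (.e (nat_lit 1221) (nat_lit 90) .nil))))) .nil))))))))

noncomputable def tv1539 : DT := (.nd (nat_lit 0) (.nd (nat_lit 1) (.nd (nat_lit 2) (.nd (nat_lit 3) (.nd (nat_lit 4) (.nd (nat_lit 5) 
(.lf (nat_lit 114112) (.g (nat_lit 3886) (.e (nat_lit 5905) (nat_lit 320) (.e (nat_lit 1220) (nat_lit 90) (.e (nat_lit 81957) (nat_lit 24) (.e (nat_lit 123182) (nat_lit 264) (.e (nat_lit 1201) (nat_lit 88) (.e (nat_lit 65610) (nat_lit 10) (.e (nat_lit 344097) (nat_lit 18) .nil))))))) (.g (nat_lit 5) .nil .nil))) 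
(.lf (nat_lit 114144) (.g (nat_lit 1460) (.e (nat_lit 5905) (nat_lit 320) (.e (nat_lit 1221) (nat_lit 90) (.e (nat_lit 81950) (nat_lit 21) (.e (nat_lit 65280) (nat_lit 267) .nil)))) .nil))) (.nd (nat_lit 5) 
(.lf (nat_lit 114128) (.g (nat_lit 1241) (.e (nat_lit 5905) (nat_lit 320) (.e (nat_lit 1221) (nat_lit 90) (.e (nat_lit 81938) (nat_lit 20) (.e (nat_lit 2003) (nat_lit 138) .nil)))) .nil)) 
(.lf (nat_lit 114160) (.g (nat_lit 2140) (.e (nat_lit 5905) (nat_lit 320) (.e (nat_lit 1221) (nat_lit 90) (.e (nat_lit 81959) (nat_lit 24) (.e (nat_lit 123195) (nat_lit 266) (.e (nat_lit 57418) (nat_lit 12) .nil))))) .nil)))) (.nd (nat_lit 4) (.nd (nat_lit 5) 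
(.lf (nat_lit 114120) (.g (nat_lit 4117) (.e (nat_lit 5905) (nat_lit 320) (.e (nat_lit 1220) (nat_lit 90) (.e (nat_lit 81959) (nat_lit 24) (.e (nat_lit 123183) (nat_lit 264) (.e (nat_lit 1201) (nat_lit 88) (.e (nat_lit 65610) (nat_lit 10) (.e (nat_lit 344097) (nat_lit 18) .nil))))))) (.g (nat_lit 6) .nil .nil))) 
(.lf (nat_lit 114152) (.g (nat_lit 2118) (.e (nat_lit 5905) (nat_lit 320) (.e (nat_lit 1221) (nat_lit 90) (.e (nat_lit 81959) (nat_lit 24) (.e (nat_lit 123182) (nat_lit 264) (.e (nat_lit 1224) (nat_lit 90) .nil))))) .nil))) (.nd (nat_lit 5) 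
(.lf (nat_lit 114136) (.g (nat_lit 2937) (.e (nat_lit 5905) (nat_lit 320) (.e (nat_lit 1221) (nat_lit 90) (.e (nat_lit 81938) (nat_lit 20) (.e (nat_lit 2006) (nat_lit 138) (.e (nat_lit 671748) (nat_lit 0) (.e (nat_lit 1589) (nat_lit 111) (.e (nat_lit 368384) (nat_lit 0) .nil))))))) (.g (nat_lit 5) .nil .nil))) 
(.lf (nat_lit 114168) (.g (nat_lit 1725) (.e (nat_lit 5905) (nat_lit 320) (.e (nat_lit 1221) (nat_lit 90) (.e (nat_lit 81959) (nat_lit 24) (.e (nat_lit 123229) (nat_lit 282) .nil)))) .nil))))) (.nd (nat_lit 3) (.nd (nat_lit 4) (.nd (nat_lit 5) 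
(.lf (nat_lit 114116) (.g (nat_lit 2721) (.e (nat_lit 5905) (nat_lit 320) (.e (nat_lit 1220) (nat_lit 90) (.e (nat_lit 81959) (nat_lit 24) (.e (nat_lit 123182) (nat_lit 264) (.e (nat_lit 1187) (nat_lit 88) .nil))))) .nil)) 
(.lf (nat_lit 114148) (.g (nat_lit 1645) (.e (nat_lit 5905) (nat_lit 320) (.e (nat_lit 1221) (nat_lit 90) (.e (nat_lit 81959) (nat_lit 24) (.e (nat_lit 123182) (nat_lit 264) .nil)))) .nil))) (.nd (nat_lit 5) 
(.lf (nat_lit 114132) (.g (nat_lit 2711) (.e (nat_lit 5905) (nat_lit 320) (.e (nat_lit 1221) (nat_lit 90) (.e (nat_lit 81938) (nat_lit 20) (.e (nat_lit 2005) (nat_lit 138) (.e (nat_lit 671748) (nat_lit 0) (.e (nat_lit 1589) (nat_lit 111) (.e (nat_lit 368384) (nat_lit 0) .nil))))))) (.g (nat_lit 5) .nil .nil))) 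
(.lf (nat_lit 114164) (.g (nat_lit 3020) (.e (nat_lit 5905) (nat_lit 320) (.e (nat_lit 1221) (nat_lit 90) (.e (nat_lit 81959) (nat_lit 24) (.e (nat_lit 123196) (nat_lit 266) (.e (nat_lit 57427) (nat_lit 15) (.e (nat_lit 368384) (nat_lit 0) .nil)))))) (.g (nat_lit 5) .nil .nil))))) (.nd (nat_lit 4) (.nd (nat_lit 5) 
(.lf (nat_lit 114124) (.g (nat_lit 2934) (.e (nat_lit 5905) (nat_lit 320) (.e (nat_lit 1220) (nat_lit 90) (.e (nat_lit 81959) (nat_lit 24) (.e (nat_lit 123197) (nat_lit 266) (.e (nat_lit 57426) (nat_lit 15) (.e (nat_lit 368384) (nat_lit 0) .nil)))))) (.g (nat_lit 5) .nil .nil))) 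
(.lf (nat_lit 114156) (.g (nat_lit 2186) (.e (nat_lit 5905) (nat_lit 320) (.e (nat_lit 1221) (nat_lit 90) (.e (nat_lit 81959) (nat_lit 24) (.e (nat_lit 123190) (nat_lit 264) .nil)))) .nil))) (.nd (nat_lit 5) 
(.lf (nat_lit 114140) (.g (nat_lit 1641) (.e (nat_lit 5905) (nat_lit 320) (.e (nat_lit 1221) (nat_lit 90) (.e (nat_lit 81947) (nat_lit 20) (.e (nat_lit 2003) (nat_lit 138) (.e (nat_lit 671747) (nat_lit 0) .nil))))) .nil)) 
(.lf (nat_lit 114172) (.g (nat_lit 4033) (.e (nat_lit 5906) (nat_lit 320) (.e (nat_lit 1170) (nat_lit 87) (.e (nat_lit 57480) (nat_lit 28) (.e (nat_lit 557109) (nat_lit 15) (.e (nat_lit 188452) (nat_lit 23) (.e (nat_lit 204855) (nat_lit 26) (.e (nat_lit 335923) (nat_lit 0) (.e (nat_lit 1023) (nat_lit 81) .nil)))))))) (.g (nat_lit 6) .nil .nil))))))) 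
(.nd (nat_lit 2) (.nd (nat_lit 3) (.nd (nat_lit 4) (.nd (nat_lit 5) 
(.lf (nat_lit 114114) (.g (nat_lit 1986) (.e (nat_lit 5905) (nat_lit 320) (.e (nat_lit 1220) (nat_lit 90) (.e (nat_lit 81957) (nat_lit 24) (.e (nat_lit 123197) (nat_lit 266) (.e (nat_lit 57426) (nat_lit 15) .nil))))) .nil)) 
(.lf (nat_lit 114146) (.g (nat_lit 2975) (.e (nat_lit 5905) (nat_lit 320) (.e (nat_lit 1221) (nat_lit 90) (.e (nat_lit 81957) (nat_lit 24) (.e (nat_lit 123184) (nat_lit 264) (.e (nat_lit 1201) (nat_lit 88) (.e (nat_lit 65610) (nat_lit 10) (.e (nat_lit 344097) (nat_lit 18) .nil))))))) (.g (nat_lit 4) .nil .nil)))) (.nd (nat_lit 5) 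
(.lf (nat_lit 114130) (.g (nat_lit 1321) (.e (nat_lit 5905) (nat_lit 320) (.e (nat_lit 1221) (nat_lit 90) (.e (nat_lit 81938) (nat_lit 20) (.e (nat_lit 2004) (nat_lit 138) .nil)))) .nil)) 
(.lf (nat_lit 114162) (.g (nat_lit 3643) (.e (nat_lit 5905) (nat_lit 320) (.e (nat_lit 1221) (nat_lit 90) (.e (nat_lit 81959) (nat_lit 24) (.e (nat_lit 123195) (nat_lit 266) (.e (nat_lit 57427) (nat_lit 15) (.e (nat_lit 368384) (nat_lit 0) .nil)))))) (.g (nat_lit 5) .nil .nil))))) (.nd (nat_lit 4) (.nd (nat_lit 5) 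
(.lf (nat_lit 114122) (.g (nat_lit 1980) (.e (nat_lit 5905) (nat_lit 320) (.e (nat_lit 1220) (nat_lit 90) (.e (nat_lit 81959) (nat_lit 24) (.e (nat_lit 123190) (nat_lit 264) (.e (nat_lit 1197) (nat_lit 88) .nil))))) .nil)) 
(.lf (nat_lit 114154) (.g (nat_lit 3660) (.e (nat_lit 5905) (nat_lit 320) (.e (nat_lit 1221) (nat_lit 90) (.e (nat_lit 81959) (nat_lit 24) (.e (nat_lit 123182) (nat_lit 264) (.e (nat_lit 1224) (nat_lit 90) (.e (nat_lit 81947) (nat_lit 20) (.e (nat_lit 1023) (nat_lit 81) .nil))))))) (.g (nat_lit 5) .nil .nil)))) (.nd (nat_lit 5) 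
(.lf (nat_lit 114138) (.g (nat_lit 2632) (.e (nat_lit 5905) (nat_lit 320) (.e (nat_lit 1221) (nat_lit 90) (.e (nat_lit 81938) (nat_lit 20) (.e (nat_lit 2006) (nat_lit 138) (.e (nat_lit 671748) (nat_lit 0) (.e (nat_lit 1598) (nat_lit 111) (.e (nat_lit 368384) (nat_lit 0) .nil))))))) (.g (nat_lit 5) .nil .nil))) 
(.lf (nat_lit 114170) (.g (nat_lit 2464) (.e (nat_lit 5906) (nat_lit 320) (.e (nat_lit 1170) (nat_lit 87) (.e (nat_lit 57479) (nat_lit 28) (.e (nat_lit 557095) (nat_lit 13) (.e (nat_lit 172115) (nat_lit 10) .nil))))) .nil))))) (.nd (nat_lit 3) (.nd (nat_lit 4) (.nd (nat_lit 5) 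
(.lf (nat_lit 114118) (.g (nat_lit 2298) (.e (nat_lit 5905) (nat_lit 320) (.e (nat_lit 1220) (nat_lit 90) (.e (nat_lit 81959) (nat_lit 24) (.e (nat_lit 123182) (nat_lit 264) (.e (nat_lit 1224) (nat_lit 90) (.e (nat_lit 81946) (nat_lit 20) (.e (nat_lit 1023) (nat_lit 81) .nil))))))) (.g (nat_lit 4) .nil .nil))) 
(.lf (nat_lit 114150) (.g (nat_lit 2893) (.e (nat_lit 5905) (nat_lit 320) (.e (nat_lit 1221) (nat_lit 90) (.e (nat_lit 81959) (nat_lit 24) (.e (nat_lit 123182) (nat_lit 264) (.e (nat_lit 1028) (nat_lit 81) .nil))))) .nil))) (.nd (nat_lit 5) 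
(.lf (nat_lit 114134) (.g (nat_lit 1503) (.e (nat_lit 5905) (nat_lit 320) (.e (nat_lit 1221) (nat_lit 90) (.e (nat_lit 81938) (nat_lit 20) (.e (nat_lit 2006) (nat_lit 138) (.e (nat_lit 671748) (nat_lit 0) .nil))))) .nil)) 
(.lf (nat_lit 114166) (.g (nat_lit 2507) (.e (nat_lit 5905) (nat_lit 320) (.e (nat_lit 1221) (nat_lit 90) (.e (nat_lit 81959) (nat_lit 24) (.e (nat_lit 123198) (nat_lit 266) (.e (nat_lit 57426) (nat_lit 15) (.e (nat_lit 368384) (nat_lit 0) .nil)))))) (.g (nat_lit 4) .nil .nil))))) (.nd (nat_lit 4) (.nd (nat_lit 5) 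
(.lf (nat_lit 114126) (.g (nat_lit 2612) (.e (nat_lit 5905) (nat_lit 320) (.e (nat_lit 1220) (nat_lit 90) (.e (nat_lit 81959) (nat_lit 24) (.e (nat_lit 123198) (nat_lit 266) (.e (nat_lit 57426) (nat_lit 15) (.e (nat_lit 368384) (nat_lit 0) .nil)))))) (.g (nat_lit 5) .nil .nil))) 
(.lf (nat_lit 114158) (.g (nat_lit 1334) (.e (nat_lit 5905) (nat_lit 320) (.e (nat_lit 1221) (nat_lit 90) (.e (nat_lit 81959) (nat_lit 24) (.e (nat_lit 123195) (nat_lit 266) .nil)))) .nil))) (.nd (nat_lit 5) 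
(.lf (nat_lit 114142) (.g (nat_lit 1776) (.e (nat_lit 5905) (nat_lit 320) (.e (nat_lit 1221) (nat_lit 90) (.e (nat_lit 81950) (nat_lit 21) (.e (nat_lit 57873) (nat_lit 264) (.e (nat_lit 1199) (nat_lit 88) .nil))))) .nil)) 
(.lf (nat_lit 114174) (.g (nat_lit 3040) (.e (nat_lit 5906) (nat_lit 320) (.e (nat_lit 1170) (nat_lit 87) (.e (nat_lit 57521) (nat_lit 44) (.e (nat_lit 688177) (nat_lit 16) (.e (nat_lit 65586) (nat_lit 7) (.e (nat_lit 319531) (nat_lit 16) (.e (nat_lit 286748) (nat_lit 9) (.e (nat_lit 335925) (nat_lit 0) (.e (nat_lit 1023) (nat_lit 81) .nil))))))))) (.g (nat_lit 7) .nil .nil)))))))) 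
(.nd (nat_lit 1) (.nd (nat_lit 2) (.nd (nat_lit 3) (.nd (nat_lit 4) (.nd (nat_lit 5) 
(.lf (nat_lit 114113) (.g (nat_lit 2787) (.e (nat_lit 5905) (nat_lit 320) (.e (nat_lit 1220) (nat_lit 90) (.e (nat_lit 81957) (nat_lit 24) (.e (nat_lit 123184) (nat_lit 264) (.e (nat_lit 1201) (nat_lit 88) (.e (nat_lit 65610) (nat_lit 10) (.e (nat_lit 344097) (nat_lit 18) .nil))))))) (.g (nat_lit 4) .nil .nil))) 
(.lf (nat_lit 114145) (.g (nat_lit 3997) (.e (nat_lit 5905) (nat_lit 320) (.e (nat_lit 1221) (nat_lit 90) (.e (nat_lit 81957) (nat_lit 24) (.e (nat_lit 123182) (nat_lit 264) (.e (nat_lit 1201) (nat_lit 88) (.e (nat_lit 65610) (nat_lit 10) (.e (nat_lit 344097) (nat_lit 18) .nil))))))) (.g (nat_lit 5) .nil .nil)))) (.nd (nat_lit 5) 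
(.lf (nat_lit 114129) (.g (nat_lit 2338) (.e (nat_lit 5905) (nat_lit 320) (.e (nat_lit 1221) (nat_lit 90) (.e (nat_lit 81938) (nat_lit 20) (.e (nat_lit 2003) (nat_lit 138) (.e (nat_lit 671747) (nat_lit 0) (.e (nat_lit 1595) (nat_lit 111) (.e (nat_lit 368384) (nat_lit 0) .nil))))))) (.g (nat_lit 4) .nil .nil))) 
(.lf (nat_lit 114161) (.g (nat_lit 3730) (.e (nat_lit 5905) (nat_lit 320) (.e (nat_lit 1221) (nat_lit 90) (.e (nat_lit 81959) (nat_lit 24) (.e (nat_lit 123195) (nat_lit 266) (.e (nat_lit 57426) (nat_lit 15) (.e (nat_lit 368384) (nat_lit 0) .nil)))))) (.g (nat_lit 5) .nil .nil))))) (.nd (nat_lit 4) (.nd (nat_lit 5) 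
(.lf (nat_lit 114121) (.g (nat_lit 4127) (.e (nat_lit 5905) (nat_lit 320) (.e (nat_lit 1220) (nat_lit 90) (.e (nat_lit 81959) (nat_lit 24) (.e (nat_lit 123185) (nat_lit 264) (.e (nat_lit 1201) (nat_lit 88) (.e (nat_lit 65610) (nat_lit 10) (.e (nat_lit 344097) (nat_lit 18) .nil))))))) (.g (nat_lit 0) .nil .nil))) 
(.lf (nat_lit 114153) (.g (nat_lit 3651) (.e (nat_lit 5905) (nat_lit 320) (.e (nat_lit 1221) (nat_lit 90) (.e (nat_lit 81959) (nat_lit 24) (.e (nat_lit 123182) (nat_lit 264) (.e (nat_lit 1224) (nat_lit 90) (.e (nat_lit 81946) (nat_lit 20) (.e (nat_lit 1023) (nat_lit 81) .nil))))))) (.g (nat_lit 5) .nil .nil)))) (.nd (nat_lit 5) 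
(.lf (nat_lit 114137) (.g (nat_lit 2729) (.e (nat_lit 5905) (nat_lit 320) (.e (nat_lit 1221) (nat_lit 90) (.e (nat_lit 81938) (nat_lit 20) (.e (nat_lit 2006) (nat_lit 138) (.e (nat_lit 671748) (nat_lit 0) (.e (nat_lit 1595) (nat_lit 111) (.e (nat_lit 368384) (nat_lit 0) .nil))))))) (.g (nat_lit 5) .nil .nil))) 
(.lf (nat_lit 114169) (.g (nat_lit 3294) (.e (nat_lit 5906) (nat_lit 320) (.e (nat_lit 1170) (nat_lit 87) (.e (nat_lit 57477) (nat_lit 28) (.e (nat_lit 557108) (nat_lit 15) (.e (nat_lit 188452) (nat_lit 23) (.e (nat_lit 204855) (nat_lit 26) (.e (nat_lit 335923) (nat_lit 0) (.e (nat_lit 1023) (nat_lit 81) .nil)))))))) (.g (nat_lit 6) .nil .nil)))))) 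
(.nd (nat_lit 3) (.nd (nat_lit 4) (.nd (nat_lit 5) 
(.lf (nat_lit 114117) (.g (nat_lit 5219) (.e (nat_lit 5905) (nat_lit 320) (.e (nat_lit 1220) (nat_lit 90) (.e (nat_lit 81959) (nat_lit 24) (.e (nat_lit 123182) (nat_lit 264) (.e (nat_lit 1201) (nat_lit 88) (.e (nat_lit 65610) (nat_lit 10) (.e (nat_lit 344097) (nat_lit 18) .nil))))))) (.g (nat_lit 0) .nil .nil))) 
(.lf (nat_lit 114149) (.g (nat_lit 2963) (.e (nat_lit 5905) (nat_lit 320) (.e (nat_lit 1221) (nat_lit 90) (.e (nat_lit 81959) (nat_lit 24) (.e (nat_lit 123182) (nat_lit 264) (.e (nat_lit 1016) (nat_lit 81) .nil))))) .nil))) (.nd (nat_lit 5) 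
(.lf (nat_lit 114133) (.g (nat_lit 1220) (.e (nat_lit 5905) (nat_lit 320) (.e (nat_lit 1221) (nat_lit 90) (.e (nat_lit 81938) (nat_lit 20) (.e (nat_lit 2006) (nat_lit 138) .nil)))) .nil)) 
(.lf (nat_lit 114165) (.g (nat_lit 1383) (.e (nat_lit 5905) (nat_lit 320) (.e (nat_lit 1221) (nat_lit 90) (.e (nat_lit 81959) (nat_lit 24) (.e (nat_lit 123198) (nat_lit 266) .nil)))) .nil)))) (.nd (nat_lit 4) (.nd (nat_lit 5) 
(.lf (nat_lit 114125) (.g (nat_lit 2563) (.e (nat_lit 5905) (nat_lit 320) (.e (nat_lit 1220) (nat_lit 90) (.e (nat_lit 81959) (nat_lit 24) (.e (nat_lit 123197) (nat_lit 266) (.e (nat_lit 57427) (nat_lit 15) (.e (nat_lit 368384) (nat_lit 0) .nil)))))) (.g (nat_lit 4) .nil .nil))) 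
(.lf (nat_lit 114157) (.g (nat_lit 3259) (.e (nat_lit 5905) (nat_lit 320) (.e (nat_lit 1221) (nat_lit 90) (.e (nat_lit 81959) (nat_lit 24) (.e (nat_lit 123194) (nat_lit 266) (.e (nat_lit 57427) (nat_lit 15) (.e (nat_lit 368384) (nat_lit 0) .nil)))))) (.g (nat_lit 5) .nil .nil)))) (.nd (nat_lit 5) 
(.lf (nat_lit 114141) (.g (nat_lit 1440) (.e (nat_lit 5905) (nat_lit 320) (.e (nat_lit 1221) (nat_lit 90) (.e (nat_lit 81950) (nat_lit 21) (.e (nat_lit 57872) (nat_lit 264) (.e (nat_lit 1219) (nat_lit 90) .nil))))) .nil)) 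
(.lf (nat_lit 114173) (.g (nat_lit 1519) (.e (nat_lit 5906) (nat_lit 320) (.e (nat_lit 1170) (nat_lit 87) (.e (nat_lit 57521) (nat_lit 44) (.e (nat_lit 688177) (nat_lit 16) (.e (nat_lit 65583) (nat_lit 7) (.e (nat_lit 319530) (nat_lit 16) (.e (nat_lit 286748) (nat_lit 9) (.e (nat_lit 335928) (nat_lit 0) (.e (nat_lit 1023) (nat_lit 81) .nil))))))))) (.g (nat_lit 4) .nil .nil))))))) 
(.nd (nat_lit 2) (.nd (nat_lit 3) (.nd (nat_lit 4) (.nd (nat_lit 5) 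
(.lf (nat_lit 114115) (.g (nat_lit 365) (.e (nat_lit 5905) (nat_lit 320) (.e (nat_lit 1220) (nat_lit 90) (.e (nat_lit 81959) (nat_lit 24) .nil))) .nil)) 
(.lf (nat_lit 114147) (.g (nat_lit 2071) (.e (nat_lit 5905) (nat_lit 320) (.e (nat_lit 1221) (nat_lit 90) (.e (nat_lit 81957) (nat_lit 24) (.e (nat_lit 123195) (nat_lit 266) (.e (nat_lit 57426) (nat_lit 15) .nil))))) .nil))) (.nd (nat_lit 5) 
(.lf (nat_lit 114131) (.g (nat_lit 1213) (.e (nat_lit 5905) (nat_lit 320) (.e (nat_lit 1221) (nat_lit 90) (.e (nat_lit 81938) (nat_lit 20) (.e (nat_lit 2005) (nat_lit 138) .nil)))) .nil)) 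
(.lf (nat_lit 114163) (.g (nat_lit 2030) (.e (nat_lit 5905) (nat_lit 320) (.e (nat_lit 1221) (nat_lit 90) (.e (nat_lit 81959) (nat_lit 24) (.e (nat_lit 123195) (nat_lit 266) (.e (nat_lit 57428) (nat_lit 15) .nil))))) .nil)))) (.nd (nat_lit 4) (.nd (nat_lit 5) 
(.lf (nat_lit 114123) (.g (nat_lit 2614) (.e (nat_lit 5905) (nat_lit 320) (.e (nat_lit 1220) (nat_lit 90) (.e (nat_lit 81959) (nat_lit 24) (.e (nat_lit 123195) (nat_lit 266) (.e (nat_lit 57426) (nat_lit 15) (.e (nat_lit 368384) (nat_lit 0) .nil)))))) (.g (nat_lit 5) .nil .nil))) 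
(.lf (nat_lit 114155) (.g (nat_lit 2163) (.e (nat_lit 5905) (nat_lit 320) (.e (nat_lit 1221) (nat_lit 90) (.e (nat_lit 81959) (nat_lit 24) (.e (nat_lit 123185) (nat_lit 264) (.e (nat_lit 1201) (nat_lit 88) .nil))))) .nil))) (.nd (nat_lit 5) 
(.lf (nat_lit 114139) (.g (nat_lit 2429) (.e (nat_lit 5905) (nat_lit 320) (.e (nat_lit 1221) (nat_lit 90) (.e (nat_lit 81938) (nat_lit 20) (.e (nat_lit 2006) (nat_lit 138) (.e (nat_lit 671748) (nat_lit 0) (.e (nat_lit 1599) (nat_lit 111) (.e (nat_lit 368384) (nat_lit 0) .nil))))))) (.g (nat_lit 4) .nil .nil))) 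
(.lf (nat_lit 114171) (.g (nat_lit 1851) (.e (nat_lit 5906) (nat_lit 320) (.e (nat_lit 1170) (nat_lit 87) (.e (nat_lit 57479) (nat_lit 28) (.e (nat_lit 557100) (nat_lit 13) (.e (nat_lit 172106) (nat_lit 10) (.e (nat_lit 434231) (nat_lit 23) (.e (nat_lit 532535) (nat_lit 9) (.e (nat_lit 335923) (nat_lit 0) (.e (nat_lit 1023) (nat_lit 81) .nil))))))))) (.g (nat_lit 4) .nil .nil)))))) 
(.nd (nat_lit 3) (.nd (nat_lit 4) (.nd (nat_lit 5) 
(.lf (nat_lit 114119) (.g (nat_lit 2307) (.e (nat_lit 5905) (nat_lit 320) (.e (nat_lit 1220) (nat_lit 90) (.e (nat_lit 81959) (nat_lit 24) (.e (nat_lit 123182) (nat_lit 264) (.e (nat_lit 1224) (nat_lit 90) (.e (nat_lit 81947) (nat_lit 20) (.e (nat_lit 1023) (nat_lit 81) .nil))))))) (.g (nat_lit 4) .nil .nil))) 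
(.lf (nat_lit 114151) (.g (nat_lit 3153) (.e (nat_lit 5905) (nat_lit 320) (.e (nat_lit 1221) (nat_lit 90) (.e (nat_lit 81959) (nat_lit 24) (.e (nat_lit 123182) (nat_lit 264) (.e (nat_lit 1187) (nat_lit 88) (.e (nat_lit 65619) (nat_lit 10) (.e (nat_lit 344097) (nat_lit 18) .nil))))))) (.g (nat_lit 4) .nil .nil)))) (.nd (nat_lit 5) 
(.lf (nat_lit 114135) (.g (nat_lit 3048) (.e (nat_lit 5905) (nat_lit 320) (.e (nat_lit 1221) (nat_lit 90) (.e (nat_lit 81938) (nat_lit 20) (.e (nat_lit 2006) (nat_lit 138) (.e (nat_lit 671748) (nat_lit 0) (.e (nat_lit 1586) (nat_lit 111) (.e (nat_lit 368384) (nat_lit 0) .nil))))))) (.g (nat_lit 5) .nil .nil))) 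
(.lf (nat_lit 114167) (.g (nat_lit 1644) (.e (nat_lit 5905) (nat_lit 320) (.e (nat_lit 1221) (nat_lit 90) (.e (nat_lit 81959) (nat_lit 24) (.e (nat_lit 123199) (nat_lit 267) .nil)))) .nil)))) (.nd (nat_lit 4) (.nd (nat_lit 5) 
(.lf (nat_lit 114127) (.g (nat_lit 2476) (.e (nat_lit 5905) (nat_lit 320) (.e (nat_lit 1220) (nat_lit 90) (.e (nat_lit 81959) (nat_lit 24) (.e (nat_lit 123198) (nat_lit 266) (.e (nat_lit 57427) (nat_lit 15) (.e (nat_lit 368384) (nat_lit 0) .nil)))))) (.g (nat_lit 5) .nil .nil))) 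
(.lf (nat_lit 114159) (.g (nat_lit 2590) (.e (nat_lit 5905) (nat_lit 320) (.e (nat_lit 1221) (nat_lit 90) (.e (nat_lit 81959) (nat_lit 24) (.e (nat_lit 123195) (nat_lit 266) (.e (nat_lit 57409) (nat_lit 12) .nil))))) .nil))) (.nd (nat_lit 5) 
(.lf (nat_lit 114143) (.g (nat_lit 2481) (.e (nat_lit 5905) (nat_lit 320) (.e (nat_lit 1221) (nat_lit 90) (.e (nat_lit 81950) (nat_lit 21) (.e (nat_lit 57873) (nat_lit 264) (.e (nat_lit 1221) (nat_lit 90) (.e (nat_lit 81938) (nat_lit 20) (.e (nat_lit 1023) (nat_lit 81) .nil))))))) (.g (nat_lit 4) .nil .nil))) 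
(.lf (nat_lit 114175) (.g (nat_lit 3141) (.e (nat_lit 5906) (nat_lit 320) (.e (nat_lit 1172) (nat_lit 87) (.e (nat_lit 57476) (nat_lit 28) (.e (nat_lit 557107) (nat_lit 15) (.e (nat_lit 188447) (nat_lit 22) (.e (nat_lit 196666) (nat_lit 13) (.e (nat_lit 65546) (nat_lit 0) (.e (nat_lit 1023) (nat_lit 81) .nil)))))))) (.g (nat_lit 7) .nil .nil)))))))))

noncomputable def tv1540 : DT := (.nd (nat_lit 0) (.nd (nat_lit 1) (.nd (nat_lit 2) (.nd (nat_lit 3) (.nd (nat_lit 4) (.nd (nat_lit 5) 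
(.lf (nat_lit 114176) (.g (nat_lit 3177) (.e (nat_lit 5906) (nat_lit 320) (.e (nat_lit 1172) (nat_lit 87) (.e (nat_lit 57476) (nat_lit 28) (.e (nat_lit 557108) (nat_lit 15) (.e (nat_lit 188449) (nat_lit 22) (.e (nat_lit 196666) (nat_lit 13) (.e (nat_lit 65546) (nat_lit 0) (.e (nat_lit 1023) (nat_lit 81) .nil)))))))) (.g (nat_lit 7) .nil .nil))) 
(.lf (nat_lit 114208) (.g (nat_lit 2981) (.e (nat_lit 5906) (nat_lit 320) (.e (nat_lit 1181) (nat_lit 87) (.e (nat_lit 57479) (nat_lit 28) (.e (nat_lit 557101) (nat_lit 13) (.e (nat_lit 172115) (nat_lit 10) (.e (nat_lit 434231) (nat_lit 23) (.e (nat_lit 532535) (nat_lit 9) (.e (nat_lit 335928) (nat_lit 0) (.e (nat_lit 1023) (nat_lit 81) .nil))))))))) (.g (nat_lit 5) .nil .nil)))) (.nd (nat_lit 5) 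
(.lf (nat_lit 114192) (.g (nat_lit 2764) (.e (nat_lit 5906) (nat_lit 320) (.e (nat_lit 1181) (nat_lit 87) (.e (nat_lit 57479) (nat_lit 28) (.e (nat_lit 557095) (nat_lit 13) (.e (nat_lit 172097) (nat_lit 9) .nil))))) .nil)) 
(.lf (nat_lit 114224) (.g (nat_lit 2375) (.e (nat_lit 5906) (nat_lit 320) (.e (nat_lit 1181) (nat_lit 87) (.e (nat_lit 57520) (nat_lit 44) (.e (nat_lit 688177) (nat_lit 16) (.e (nat_lit 65586) (nat_lit 7) .nil))))) .nil)))) (.nd (nat_lit 4) (.nd (nat_lit 5) 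
(.lf (nat_lit 114184) (.g (nat_lit 2304) (.e (nat_lit 5906) (nat_lit 320) (.e (nat_lit 1172) (nat_lit 87) (.e (nat_lit 57480) (nat_lit 28) (.e (nat_lit 557107) (nat_lit 15) (.e (nat_lit 188450) (nat_lit 23) (.e (nat_lit 204855) (nat_lit 26) (.e (nat_lit 335923) (nat_lit 0) (.e (nat_lit 1023) (nat_lit 81) .nil)))))))) (.g (nat_lit 4) .nil .nil))) 
(.lf (nat_lit 114216) (.g (nat_lit 3124) (.e (nat_lit 5906) (nat_lit 320) (.e (nat_lit 1181) (nat_lit 87) (.e (nat_lit 57480) (nat_lit 28) (.e (nat_lit 557098) (nat_lit 13) (.e (nat_lit 172115) (nat_lit 10) (.e (nat_lit 434231) (nat_lit 23) (.e (nat_lit 532535) (nat_lit 9) (.e (nat_lit 335928) (nat_lit 0) (.e (nat_lit 1023) (nat_lit 81) .nil))))))))) (.g (nat_lit 5) .nil .nil)))) (.nd (nat_lit 5) 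
(.lf (nat_lit 114200) (.g (nat_lit 2368) (.e (nat_lit 5906) (nat_lit 320) (.e (nat_lit 1181) (nat_lit 87) (.e (nat_lit 57479) (nat_lit 28) (.e (nat_lit 557100) (nat_lit 13) (.e (nat_lit 172106) (nat_lit 10) (.e (nat_lit 434231) (nat_lit 23) (.e (nat_lit 532529) (nat_lit 9) (.e (nat_lit 335883) (nat_lit 0) (.e (nat_lit 1021) (nat_lit 81) .nil))))))))) (.g (nat_lit 4) .nil .nil))) 
(.lf (nat_lit 114232) (.g (nat_lit 5250) (.e (nat_lit 5906) (nat_lit 320) (.e (nat_lit 1182) (nat_lit 87) (.e (nat_lit 57479) (nat_lit 28) (.e (nat_lit 557101) (nat_lit 13) (.e (nat_lit 172097) (nat_lit 9) (.e (nat_lit 426125) (nat_lit 2) (.e (nat_lit 196666) (nat_lit 13) (.e (nat_lit 65550) (nat_lit 0) (.e (nat_lit 1023) (nat_lit 81) .nil))))))))) (.g (nat_lit 7) .nil .nil)))))) 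
(.nd (nat_lit 3) (.nd (nat_lit 4) (.nd (nat_lit 5) 
(.lf (nat_lit 114180) (.g (nat_lit 2752) (.e (nat_lit 5906) (nat_lit 320) (.e (nat_lit 1172) (nat_lit 87) (.e (nat_lit 57477) (nat_lit 28) (.e (nat_lit 557108) (nat_lit 15) (.e (nat_lit 188449) (nat_lit 22) (.e (nat_lit 196666) (nat_lit 13) (.e (nat_lit 65546) (nat_lit 0) (.e (nat_lit 1023) (nat_lit 81) .nil)))))))) (.g (nat_lit 6) .nil .nil))) 
(.lf (nat_lit 114212) (.g (nat_lit 2337) (.e (nat_lit 5906) (nat_lit 320) (.e (nat_lit 1181) (nat_lit 87) (.e (nat_lit 57480) (nat_lit 28) (.e (nat_lit 557098) (nat_lit 13) (.e (nat_lit 172097) (nat_lit 9) (.e (nat_lit 426140) (nat_lit 3) (.e (nat_lit 204855) (nat_lit 26) (.e (nat_lit 335901) (nat_lit 0) (.e (nat_lit 1095) (nat_lit 81) .nil))))))))) (.g (nat_lit 4) .nil .nil)))) (.nd (nat_lit 5) 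
(.lf (nat_lit 114196) (.g (nat_lit 2645) (.e (nat_lit 5906) (nat_lit 320) (.e (nat_lit 1181) (nat_lit 87) (.e (nat_lit 57479) (nat_lit 28) (.e (nat_lit 557095) (nat_lit 13) (.e (nat_lit 172115) (nat_lit 10) (.e (nat_lit 434231) (nat_lit 23) (.e (nat_lit 532535) (nat_lit 9) (.e (nat_lit 335928) (nat_lit 0) (.e (nat_lit 1023) (nat_lit 81) .nil))))))))) (.g (nat_lit 4) .nil .nil))) 
(.lf (nat_lit 114228) (.g (nat_lit 1846) (.e (nat_lit 5906) (nat_lit 320) (.e (nat_lit 1182) (nat_lit 87) (.e (nat_lit 57479) (nat_lit 28) (.e (nat_lit 557100) (nat_lit 13) (.e (nat_lit 172106) (nat_lit 10) .nil))))) .nil)))) (.nd (nat_lit 4) (.nd (nat_lit 5) 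
(.lf (nat_lit 114188) (.g (nat_lit 2981) (.e (nat_lit 5906) (nat_lit 320) (.e (nat_lit 1181) (nat_lit 87) (.e (nat_lit 57478) (nat_lit 28) (.e (nat_lit 557107) (nat_lit 15) (.e (nat_lit 188447) (nat_lit 22) (.e (nat_lit 196666) (nat_lit 13) (.e (nat_lit 65546) (nat_lit 0) (.e (nat_lit 1023) (nat_lit 81) .nil)))))))) (.g (nat_lit 5) .nil .nil))) 
(.lf (nat_lit 114220) (.g (nat_lit 2591) (.e (nat_lit 5906) (nat_lit 320) (.e (nat_lit 1181) (nat_lit 87) (.e (nat_lit 57480) (nat_lit 28) (.e (nat_lit 557107) (nat_lit 15) (.e (nat_lit 188450) (nat_lit 23) (.e (nat_lit 204852) (nat_lit 26) (.e (nat_lit 335880) (nat_lit 0) (.e (nat_lit 1037) (nat_lit 81) .nil)))))))) (.g (nat_lit 4) .nil .nil)))) (.nd (nat_lit 5) 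
(.lf (nat_lit 114204) (.g (nat_lit 2298) (.e (nat_lit 5906) (nat_lit 320) (.e (nat_lit 1181) (nat_lit 87) (.e (nat_lit 57479) (nat_lit 28) (.e (nat_lit 557101) (nat_lit 13) (.e (nat_lit 172097) (nat_lit 9) (.e (nat_lit 426140) (nat_lit 3) (.e (nat_lit 204855) (nat_lit 26) (.e (nat_lit 335901) (nat_lit 0) (.e (nat_lit 1095) (nat_lit 81) .nil))))))))) (.g (nat_lit 4) .nil .nil))) 
(.lf (nat_lit 114236) (.g (nat_lit 4875) (.e (nat_lit 5906) (nat_lit 320) (.e (nat_lit 1182) (nat_lit 87) (.e (nat_lit 57480) (nat_lit 28) (.e (nat_lit 557098) (nat_lit 13) (.e (nat_lit 172097) (nat_lit 9) (.e (nat_lit 426125) (nat_lit 2) (.e (nat_lit 196666) (nat_lit 13) (.e (nat_lit 65550) (nat_lit 0) (.e (nat_lit 1023) (nat_lit 81) .nil))))))))) (.g (nat_lit 7) .nil .nil))))))) 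
(.nd (nat_lit 2) (.nd (nat_lit 3) (.nd (nat_lit 4) (.nd (nat_lit 5) 
(.lf (nat_lit 114178) (.g (nat_lit 4016) (.e (nat_lit 5906) (nat_lit 320) (.e (nat_lit 1172) (nat_lit 87) (.e (nat_lit 57477) (nat_lit 28) (.e (nat_lit 557097) (nat_lit 13) (.e (nat_lit 172097) (nat_lit 9) (.e (nat_lit 426125) (nat_lit 2) (.e (nat_lit 196666) (nat_lit 13) (.e (nat_lit 65550) (nat_lit 0) (.e (nat_lit 1023) (nat_lit 81) .nil))))))))) (.g (nat_lit 7) .nil .nil))) 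
(.lf (nat_lit 114210) (.g (nat_lit 2928) (.e (nat_lit 5906) (nat_lit 320) (.e (nat_lit 1181) (nat_lit 87) (.e (nat_lit 57480) (nat_lit 28) (.e (nat_lit 557097) (nat_lit 13) (.e (nat_lit 172097) (nat_lit 9) .nil))))) .nil))) (.nd (nat_lit 5) 
(.lf (nat_lit 114194) (.g (nat_lit 2820) (.e (nat_lit 5906) (nat_lit 320) (.e (nat_lit 1181) (nat_lit 87) (.e (nat_lit 57479) (nat_lit 28) (.e (nat_lit 557095) (nat_lit 13) (.e (nat_lit 172097) (nat_lit 9) (.e (nat_lit 426125) (nat_lit 2) (.e (nat_lit 196666) (nat_lit 13) (.e (nat_lit 65553) (nat_lit 0) (.e (nat_lit 1023) (nat_lit 81) .nil))))))))) (.g (nat_lit 4) .nil .nil))) 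
(.lf (nat_lit 114226) (.g (nat_lit 4241) (.e (nat_lit 5906) (nat_lit 320) (.e (nat_lit 1182) (nat_lit 87) (.e (nat_lit 57478) (nat_lit 28) (.e (nat_lit 557109) (nat_lit 15) (.e (nat_lit 188452) (nat_lit 23) (.e (nat_lit 204855) (nat_lit 26) (.e (nat_lit 335923) (nat_lit 0) (.e (nat_lit 1023) (nat_lit 81) .nil)))))))) (.g (nat_lit 6) .nil .nil))))) (.nd (nat_lit 4) (.nd (nat_lit 5) 
(.lf (nat_lit 114186) (.g (nat_lit 2463) (.e (nat_lit 5906) (nat_lit 320) (.e (nat_lit 1181) (nat_lit 87) (.e (nat_lit 57478) (nat_lit 28) (.e (nat_lit 557100) (nat_lit 13) (.e (nat_lit 172106) (nat_lit 10) (.e (nat_lit 434231) (nat_lit 23) (.e (nat_lit 532535) (nat_lit 9) (.e (nat_lit 335925) (nat_lit 0) (.e (nat_lit 1023) (nat_lit 81) .nil))))))))) (.g (nat_lit 4) .nil .nil))) 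
(.lf (nat_lit 114218) (.g (nat_lit 4409) (.e (nat_lit 5906) (nat_lit 320) (.e (nat_lit 1181) (nat_lit 87) (.e (nat_lit 57480) (nat_lit 28) (.e (nat_lit 557107) (nat_lit 15) (.e (nat_lit 188447) (nat_lit 22) (.e (nat_lit 196666) (nat_lit 13) (.e (nat_lit 65550) (nat_lit 0) (.e (nat_lit 1023) (nat_lit 81) .nil)))))))) (.g (nat_lit 6) .nil .nil)))) (.nd (nat_lit 5) 
(.lf (nat_lit 114202) (.g (nat_lit 2559) (.e (nat_lit 5906) (nat_lit 320) (.e (nat_lit 1181) (nat_lit 87) (.e (nat_lit 57479) (nat_lit 28) (.e (nat_lit 557100) (nat_lit 13) (.e (nat_lit 172106) (nat_lit 10) (.e (nat_lit 434231) (nat_lit 23) (.e (nat_lit 532535) (nat_lit 9) (.e (nat_lit 335923) (nat_lit 0) (.e (nat_lit 1023) (nat_lit 81) .nil))))))))) (.g (nat_lit 4) .nil .nil))) 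
(.lf (nat_lit 114234) (.g (nat_lit 2378) (.e (nat_lit 5906) (nat_lit 320) (.e (nat_lit 1182) (nat_lit 87) (.e (nat_lit 57479) (nat_lit 28) (.e (nat_lit 557101) (nat_lit 13) (.e (nat_lit 172097) (nat_lit 9) (.e (nat_lit 426140) (nat_lit 3) (.e (nat_lit 204855) (nat_lit 26) (.e (nat_lit 335928) (nat_lit 0) (.e (nat_lit 1023) (nat_lit 81) .nil))))))))) (.g (nat_lit 4) .nil .nil)))))) 
(.nd (nat_lit 3) (.nd (nat_lit 4) (.nd (nat_lit 5) 
(.lf (nat_lit 114182) (.g (nat_lit 4118) (.e (nat_lit 5906) (nat_lit 320) (.e (nat_lit 1172) (nat_lit 87) (.e (nat_lit 57478) (nat_lit 28) (.e (nat_lit 557109) (nat_lit 15) (.e (nat_lit 188452) (nat_lit 23) (.e (nat_lit 204855) (nat_lit 26) (.e (nat_lit 335923) (nat_lit 0) (.e (nat_lit 1023) (nat_lit 81) .nil)))))))) (.g (nat_lit 6) .nil .nil))) 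
(.lf (nat_lit 114214) (.g (nat_lit 2712) (.e (nat_lit 5906) (nat_lit 320) (.e (nat_lit 1181) (nat_lit 87) (.e (nat_lit 57480) (nat_lit 28) (.e (nat_lit 557098) (nat_lit 13) (.e (nat_lit 172097) (nat_lit 9) (.e (nat_lit 426140) (nat_lit 3) (.e (nat_lit 204855) (nat_lit 26) (.e (nat_lit 335928) (nat_lit 0) (.e (nat_lit 1023) (nat_lit 81) .nil))))))))) (.g (nat_lit 5) .nil .nil)))) (.nd (nat_lit 5) 
(.lf (nat_lit 114198) (.g (nat_lit 2473) (.e (nat_lit 5906) (nat_lit 320) (.e (nat_lit 1181) (nat_lit 87) (.e (nat_lit 57479) (nat_lit 28) (.e (nat_lit 557100) (nat_lit 13) (.e (nat_lit 172106) (nat_lit 10) (.e (nat_lit 434231) (nat_lit 23) (.e (nat_lit 532529) (nat_lit 9) (.e (nat_lit 335873) (nat_lit 0) (.e (nat_lit 1037) (nat_lit 81) .nil))))))))) (.g (nat_lit 4) .nil .nil))) 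
(.lf (nat_lit 114230) (.g (nat_lit 2145) (.e (nat_lit 5906) (nat_lit 320) (.e (nat_lit 1182) (nat_lit 87) (.e (nat_lit 57479) (nat_lit 28) (.e (nat_lit 557100) (nat_lit 13) (.e (nat_lit 172106) (nat_lit 10) (.e (nat_lit 434231) (nat_lit 23) (.e (nat_lit 532535) (nat_lit 9) (.e (nat_lit 335928) (nat_lit 0) (.e (nat_lit 1023) (nat_lit 81) .nil))))))))) (.g (nat_lit 4) .nil .nil))))) 
(.nd (nat_lit 4) (.nd (nat_lit 5) 
(.lf (nat_lit 114190) (.g (nat_lit 2465) (.e (nat_lit 5906) (nat_lit 320) (.e (nat_lit 1181) (nat_lit 87) (.e (nat_lit 57478) (nat_lit 28) (.e (nat_lit 557107) (nat_lit 15) (.e (nat_lit 188450) (nat_lit 23) (.e (nat_lit 204855) (nat_lit 26) (.e (nat_lit 335923) (nat_lit 0) (.e (nat_lit 1023) (nat_lit 81) .nil)))))))) (.g (nat_lit 4) .nil .nil))) 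
(.lf (nat_lit 114222) (.g (nat_lit 2473) (.e (nat_lit 5906) (nat_lit 320) (.e (nat_lit 1181) (nat_lit 87) (.e (nat_lit 57480) (nat_lit 28) (.e (nat_lit 557108) (nat_lit 15) (.e (nat_lit 188452) (nat_lit 23) .nil))))) .nil))) (.nd (nat_lit 5) 
(.lf (nat_lit 114206) (.g (nat_lit 2801) (.e (nat_lit 5906) (nat_lit 320) (.e (nat_lit 1181) (nat_lit 87) (.e (nat_lit 57479) (nat_lit 28) (.e (nat_lit 557101) (nat_lit 13) (.e (nat_lit 172097) (nat_lit 9) (.e (nat_lit 426140) (nat_lit 3) (.e (nat_lit 204855) (nat_lit 26) (.e (nat_lit 335925) (nat_lit 0) (.e (nat_lit 1023) (nat_lit 81) .nil))))))))) (.g (nat_lit 5) .nil .nil))) 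
(.lf (nat_lit 114238) (.g (nat_lit 1988) (.e (nat_lit 5906) (nat_lit 320) (.e (nat_lit 1182) (nat_lit 87) (.e (nat_lit 57480) (nat_lit 28) (.e (nat_lit 557098) (nat_lit 13) (.e (nat_lit 172097) (nat_lit 9) (.e (nat_lit 426140) (nat_lit 3) (.e (nat_lit 204855) (nat_lit 26) (.e (nat_lit 335928) (nat_lit 0) (.e (nat_lit 1023) (nat_lit 81) .nil))))))))) (.g (nat_lit 4) .nil .nil)))))))) 
(.nd (nat_lit 1) (.nd (nat_lit 2) (.nd (nat_lit 3) (.nd (nat_lit 4) (.nd (nat_lit 5) 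
(.lf (nat_lit 114177) (.g (nat_lit 3429) (.e (nat_lit 5906) (nat_lit 320) (.e (nat_lit 1172) (nat_lit 87) (.e (nat_lit 57476) (nat_lit 28) (.e (nat_lit 557108) (nat_lit 15) (.e (nat_lit 188452) (nat_lit 23) (.e (nat_lit 204855) (nat_lit 26) (.e (nat_lit 335923) (nat_lit 0) (.e (nat_lit 1023) (nat_lit 81) .nil)))))))) (.g (nat_lit 6) .nil .nil))) 
(.lf (nat_lit 114209) (.g (nat_lit 2745) (.e (nat_lit 5906) (nat_lit 320) (.e (nat_lit 1181) (nat_lit 87) (.e (nat_lit 57479) (nat_lit 28) (.e (nat_lit 557106) (nat_lit 15) (.e (nat_lit 188452) (nat_lit 23) .nil))))) .nil))) (.nd (nat_lit 5) 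
(.lf (nat_lit 114193) (.g (nat_lit 3650) (.e (nat_lit 5906) (nat_lit 320) (.e (nat_lit 1181) (nat_lit 87) (.e (nat_lit 57479) (nat_lit 28) (.e (nat_lit 557095) (nat_lit 13) (.e (nat_lit 172097) (nat_lit 9) (.e (nat_lit 426125) (nat_lit 2) (.e (nat_lit 196666) (nat_lit 13) (.e (nat_lit 65546) (nat_lit 0) (.e (nat_lit 1023) (nat_lit 81) .nil))))))))) (.g (nat_lit 5) .nil .nil))) 
(.lf (nat_lit 114225) (.g (nat_lit 3121) (.e (nat_lit 5906) (nat_lit 320) (.e (nat_lit 1182) (nat_lit 87) (.e (nat_lit 57478) (nat_lit 28) (.e (nat_lit 557107) (nat_lit 15) (.e (nat_lit 188450) (nat_lit 23) (.e (nat_lit 204855) (nat_lit 26) (.e (nat_lit 335923) (nat_lit 0) (.e (nat_lit 1023) (nat_lit 81) .nil)))))))) (.g (nat_lit 6) .nil .nil))))) (.nd (nat_lit 4) (.nd (nat_lit 5) 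
(.lf (nat_lit 114185) (.g (nat_lit 3602) (.e (nat_lit 5906) (nat_lit 320) (.e (nat_lit 1181) (nat_lit 87) (.e (nat_lit 57478) (nat_lit 28) (.e (nat_lit 557098) (nat_lit 13) (.e (nat_lit 172097) (nat_lit 9) (.e (nat_lit 426125) (nat_lit 2) (.e (nat_lit 196666) (nat_lit 13) (.e (nat_lit 65546) (nat_lit 0) (.e (nat_lit 1023) (nat_lit 81) .nil))))))))) (.g (nat_lit 6) .nil .nil))) 
(.lf (nat_lit 114217) (.g (nat_lit 3982) (.e (nat_lit 5906) (nat_lit 320) (.e (nat_lit 1181) (nat_lit 87) (.e (nat_lit 57480) (nat_lit 28) (.e (nat_lit 557107) (nat_lit 15) (.e (nat_lit 188447) (nat_lit 22) (.e (nat_lit 196666) (nat_lit 13) (.e (nat_lit 65546) (nat_lit 0) (.e (nat_lit 1023) (nat_lit 81) .nil)))))))) (.g (nat_lit 6) .nil .nil)))) (.nd (nat_lit 5) 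
(.lf (nat_lit 114201) (.g (nat_lit 2726) (.e (nat_lit 5906) (nat_lit 320) (.e (nat_lit 1181) (nat_lit 87) (.e (nat_lit 57479) (nat_lit 28) (.e (nat_lit 557100) (nat_lit 13) (.e (nat_lit 172106) (nat_lit 10) (.e (nat_lit 434231) (nat_lit 23) (.e (nat_lit 532529) (nat_lit 9) (.e (nat_lit 335883) (nat_lit 0) (.e (nat_lit 1037) (nat_lit 81) .nil))))))))) (.g (nat_lit 4) .nil .nil))) 
(.lf (nat_lit 114233) (.g (nat_lit 3823) (.e (nat_lit 5906) (nat_lit 320) (.e (nat_lit 1182) (nat_lit 87) (.e (nat_lit 57479) (nat_lit 28) (.e (nat_lit 557101) (nat_lit 13) (.e (nat_lit 172097) (nat_lit 9) (.e (nat_lit 426140) (nat_lit 3) (.e (nat_lit 204855) (nat_lit 26) (.e (nat_lit 335923) (nat_lit 0) (.e (nat_lit 1023) (nat_lit 81) .nil))))))))) (.g (nat_lit 6) .nil .nil)))))) 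
(.nd (nat_lit 3) (.nd (nat_lit 4) (.nd (nat_lit 5) 
(.lf (nat_lit 114181) (.g (nat_lit 3335) (.e (nat_lit 5906) (nat_lit 320) (.e (nat_lit 1172) (nat_lit 87) (.e (nat_lit 57477) (nat_lit 28) (.e (nat_lit 557108) (nat_lit 15) (.e (nat_lit 188449) (nat_lit 22) (.e (nat_lit 196666) (nat_lit 13) (.e (nat_lit 65550) (nat_lit 0) (.e (nat_lit 1023) (nat_lit 81) .nil)))))))) (.g (nat_lit 6) .nil .nil))) 
(.lf (nat_lit 114213) (.g (nat_lit 2840) (.e (nat_lit 5906) (nat_lit 320) (.e (nat_lit 1181) (nat_lit 87) (.e (nat_lit 57480) (nat_lit 28) (.e (nat_lit 557098) (nat_lit 13) (.e (nat_lit 172097) (nat_lit 9) (.e (nat_lit 426140) (nat_lit 3) (.e (nat_lit 204855) (nat_lit 26) (.e (nat_lit 335925) (nat_lit 0) (.e (nat_lit 1023) (nat_lit 81) .nil))))))))) (.g (nat_lit 5) .nil .nil)))) (.nd (nat_lit 5) 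
(.lf (nat_lit 114197) (.g (nat_lit 2545) (.e (nat_lit 5906) (nat_lit 320) (.e (nat_lit 1181) (nat_lit 87) (.e (nat_lit 57479) (nat_lit 28) (.e (nat_lit 557100) (nat_lit 13) (.e (nat_lit 172106) (nat_lit 10) (.e (nat_lit 434231) (nat_lit 23) (.e (nat_lit 532529) (nat_lit 9) (.e (nat_lit 335873) (nat_lit 0) (.e (nat_lit 1021) (nat_lit 81) .nil))))))))) (.g (nat_lit 4) .nil .nil))) 
(.lf (nat_lit 114229) (.g (nat_lit 2305) (.e (nat_lit 5906) (nat_lit 320) (.e (nat_lit 1182) (nat_lit 87) (.e (nat_lit 57479) (nat_lit 28) (.e (nat_lit 557100) (nat_lit 13) (.e (nat_lit 172106) (nat_lit 10) (.e (nat_lit 434231) (nat_lit 23) (.e (nat_lit 532529) (nat_lit 9) (.e (nat_lit 335969) (nat_lit 0) (.e (nat_lit 1023) (nat_lit 81) .nil))))))))) (.g (nat_lit 4) .nil .nil))))) 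
(.nd (nat_lit 4) (.nd (nat_lit 5) 
(.lf (nat_lit 114189) (.g (nat_lit 3408) (.e (nat_lit 5906) (nat_lit 320) (.e (nat_lit 1181) (nat_lit 87) (.e (nat_lit 57478) (nat_lit 28) (.e (nat_lit 557107) (nat_lit 15) (.e (nat_lit 188447) (nat_lit 22) (.e (nat_lit 196666) (nat_lit 13) (.e (nat_lit 65550) (nat_lit 0) (.e (nat_lit 1023) (nat_lit 81) .nil)))))))) (.g (nat_lit 5) .nil .nil))) 
(.lf (nat_lit 114221) (.g (nat_lit 3439) (.e (nat_lit 5906) (nat_lit 320) (.e (nat_lit 1181) (nat_lit 87) (.e (nat_lit 57480) (nat_lit 28) (.e (nat_lit 557107) (nat_lit 15) (.e (nat_lit 188450) (nat_lit 23) (.e (nat_lit 204872) (nat_lit 30) (.e (nat_lit 368662) (nat_lit 18) .nil))))))) (.g (nat_lit 5) .nil .nil)))) (.nd (nat_lit 5) 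
(.lf (nat_lit 114205) (.g (nat_lit 1913) (.e (nat_lit 5906) (nat_lit 320) (.e (nat_lit 1181) (nat_lit 87) (.e (nat_lit 57479) (nat_lit 28) (.e (nat_lit 557101) (nat_lit 13) (.e (nat_lit 172097) (nat_lit 9) (.e (nat_lit 426140) (nat_lit 3) (.e (nat_lit 204855) (nat_lit 26) (.e (nat_lit 335920) (nat_lit 0) (.e (nat_lit 1023) (nat_lit 81) .nil))))))))) (.g (nat_lit 4) .nil .nil))) 
(.lf (nat_lit 114237) (.g (nat_lit 2116) (.e (nat_lit 5906) (nat_lit 320) (.e (nat_lit 1182) (nat_lit 87) (.e (nat_lit 57480) (nat_lit 28) (.e (nat_lit 557098) (nat_lit 13) (.e (nat_lit 172097) (nat_lit 9) (.e (nat_lit 426140) (nat_lit 3) (.e (nat_lit 204855) (nat_lit 26) (.e (nat_lit 335925) (nat_lit 0) (.e (nat_lit 1023) (nat_lit 81) .nil))))))))) (.g (nat_lit 4) .nil .nil))))))) 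
(.nd (nat_lit 2) (.nd (nat_lit 3) (.nd (nat_lit 4) (.nd (nat_lit 5) 
(.lf (nat_lit 114179) (.g (nat_lit 3294) (.e (nat_lit 5906) (nat_lit 320) (.e (nat_lit 1172) (nat_lit 87) (.e (nat_lit 57477) (nat_lit 28) (.e (nat_lit 557107) (nat_lit 15) (.e (nat_lit 188447) (nat_lit 22) (.e (nat_lit 196666) (nat_lit 13) (.e (nat_lit 65550) (nat_lit 0) (.e (nat_lit 1023) (nat_lit 81) .nil)))))))) (.g (nat_lit 6) .nil .nil))) 
(.lf (nat_lit 114211) (.g (nat_lit 2386) (.e (nat_lit 5906) (nat_lit 320) (.e (nat_lit 1181) (nat_lit 87) (.e (nat_lit 57480) (nat_lit 28) (.e (nat_lit 557098) (nat_lit 13) (.e (nat_lit 172097) (nat_lit 9) (.e (nat_lit 426125) (nat_lit 2) (.e (nat_lit 196666) (nat_lit 13) (.e (nat_lit 65536) (nat_lit 0) (.e (nat_lit 1023) (nat_lit 81) .nil))))))))) (.g (nat_lit 4) .nil .nil)))) (.nd (nat_lit 5) 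
(.lf (nat_lit 114195) (.g (nat_lit 2603) (.e (nat_lit 5906) (nat_lit 320) (.e (nat_lit 1181) (nat_lit 87) (.e (nat_lit 57479) (nat_lit 28) (.e (nat_lit 557095) (nat_lit 13) (.e (nat_lit 172115) (nat_lit 10) .nil))))) .nil)) 
(.lf (nat_lit 114227) (.g (nat_lit 2772) (.e (nat_lit 5906) (nat_lit 320) (.e (nat_lit 1182) (nat_lit 87) (.e (nat_lit 57479) (nat_lit 28) (.e (nat_lit 557095) (nat_lit 13) (.e (nat_lit 172115) (nat_lit 10) .nil))))) .nil)))) (.nd (nat_lit 4) (.nd (nat_lit 5) 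
(.lf (nat_lit 114187) (.g (nat_lit 2150) (.e (nat_lit 5906) (nat_lit 320) (.e (nat_lit 1181) (nat_lit 87) (.e (nat_lit 57478) (nat_lit 28) (.e (nat_lit 557107) (nat_lit 15) (.e (nat_lit 188447) (nat_lit 22) .nil))))) .nil)) 
(.lf (nat_lit 114219) (.g (nat_lit 2366) (.e (nat_lit 5906) (nat_lit 320) (.e (nat_lit 1181) (nat_lit 87) (.e (nat_lit 57480) (nat_lit 28) (.e (nat_lit 557107) (nat_lit 15) (.e (nat_lit 188450) (nat_lit 23) .nil))))) .nil))) (.nd (nat_lit 5) 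
(.lf (nat_lit 114203) (.g (nat_lit 2203) (.e (nat_lit 5906) (nat_lit 320) (.e (nat_lit 1181) (nat_lit 87) (.e (nat_lit 57479) (nat_lit 28) (.e (nat_lit 557100) (nat_lit 13) (.e (nat_lit 172106) (nat_lit 10) (.e (nat_lit 434231) (nat_lit 23) (.e (nat_lit 532535) (nat_lit 9) (.e (nat_lit 335936) (nat_lit 0) (.e (nat_lit 1023) (nat_lit 81) .nil))))))))) (.g (nat_lit 4) .nil .nil))) 
(.lf (nat_lit 114235) (.g (nat_lit 4282) (.e (nat_lit 5906) (nat_lit 320) (.e (nat_lit 1182) (nat_lit 87) (.e (nat_lit 57480) (nat_lit 28) (.e (nat_lit 557098) (nat_lit 13) (.e (nat_lit 172097) (nat_lit 9) (.e (nat_lit 426125) (nat_lit 2) (.e (nat_lit 196666) (nat_lit 13) (.e (nat_lit 65546) (nat_lit 0) (.e (nat_lit 1023) (nat_lit 81) .nil))))))))) (.g (nat_lit 7) .nil .nil)))))) 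
(.nd (nat_lit 3) (.nd (nat_lit 4) (.nd (nat_lit 5) 
(.lf (nat_lit 114183) (.g (nat_lit 3783) (.e (nat_lit 5906) (nat_lit 320) (.e (nat_lit 1172) (nat_lit 87) (.e (nat_lit 57480) (nat_lit 28) (.e (nat_lit 557098) (nat_lit 13) (.e (nat_lit 172097) (nat_lit 9) (.e (nat_lit 426125) (nat_lit 2) (.e (nat_lit 196666) (nat_lit 13) (.e (nat_lit 65546) (nat_lit 0) (.e (nat_lit 1023) (nat_lit 81) .nil))))))))) (.g (nat_lit 7) .nil .nil))) 
(.lf (nat_lit 114215) (.g (nat_lit 1991) (.e (nat_lit 5906) (nat_lit 320) (.e (nat_lit 1181) (nat_lit 87) (.e (nat_lit 57480) (nat_lit 28) (.e (nat_lit 557098) (nat_lit 13) (.e (nat_lit 172097) (nat_lit 9) (.e (nat_lit 426140) (nat_lit 3) (.e (nat_lit 204855) (nat_lit 26) (.e (nat_lit 335937) (nat_lit 0) (.e (nat_lit 1023) (nat_lit 81) .nil))))))))) (.g (nat_lit 4) .nil .nil)))) (.nd (nat_lit 5) 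
(.lf (nat_lit 114199) (.g (nat_lit 2354) (.e (nat_lit 5906) (nat_lit 320) (.e (nat_lit 1181) (nat_lit 87) (.e (nat_lit 57479) (nat_lit 28) (.e (nat_lit 557100) (nat_lit 13) (.e (nat_lit 172106) (nat_lit 10) (.e (nat_lit 434231) (nat_lit 23) (.e (nat_lit 532529) (nat_lit 9) (.e (nat_lit 335880) (nat_lit 0) (.e (nat_lit 1021) (nat_lit 81) .nil))))))))) (.g (nat_lit 4) .nil .nil))) 
(.lf (nat_lit 114231) (.g (nat_lit 3910) (.e (nat_lit 5906) (nat_lit 320) (.e (nat_lit 1182) (nat_lit 87) (.e (nat_lit 57479) (nat_lit 28) (.e (nat_lit 557100) (nat_lit 13) (.e (nat_lit 172106) (nat_lit 10) (.e (nat_lit 434231) (nat_lit 23) (.e (nat_lit 532554) (nat_lit 13) (.e (nat_lit 368662) (nat_lit 18) .nil)))))))) (.g (nat_lit 6) .nil .nil))))) (.nd (nat_lit 4) (.nd (nat_lit 5) 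
(.lf (nat_lit 114191) (.g (nat_lit 3376) (.e (nat_lit 5906) (nat_lit 320) (.e (nat_lit 1181) (nat_lit 87) (.e (nat_lit 57478) (nat_lit 28) (.e (nat_lit 557109) (nat_lit 15) (.e (nat_lit 188449) (nat_lit 22) (.e (nat_lit 196666) (nat_lit 13) (.e (nat_lit 65546) (nat_lit 0) (.e (nat_lit 1023) (nat_lit 81) .nil)))))))) (.g (nat_lit 5) .nil .nil))) 
(.lf (nat_lit 114223) (.g (nat_lit 4854) (.e (nat_lit 5906) (nat_lit 320) (.e (nat_lit 1181) (nat_lit 87) (.e (nat_lit 57480) (nat_lit 28) (.e (nat_lit 557109) (nat_lit 15) (.e (nat_lit 188452) (nat_lit 23) (.e (nat_lit 204855) (nat_lit 26) (.e (nat_lit 335923) (nat_lit 0) (.e (nat_lit 1023) (nat_lit 81) .nil)))))))) (.g (nat_lit 6) .nil .nil)))) (.nd (nat_lit 5) 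
(.lf (nat_lit 114207) (.g (nat_lit 1952) (.e (nat_lit 5906) (nat_lit 320) (.e (nat_lit 1181) (nat_lit 87) (.e (nat_lit 57479) (nat_lit 28) (.e (nat_lit 557101) (nat_lit 13) (.e (nat_lit 172097) (nat_lit 9) (.e (nat_lit 426140) (nat_lit 3) (.e (nat_lit 204855) (nat_lit 26) (.e (nat_lit 335937) (nat_lit 0) (.e (nat_lit 1023) (nat_lit 81) .nil))))))))) (.g (nat_lit 4) .nil .nil))) 
(.lf (nat_lit 114239) (.g (nat_lit 2380) (.e (nat_lit 5906) (nat_lit 320) (.e (nat_lit 1182) (nat_lit 87) (.e (nat_lit 57480) (nat_lit 28) (.e (nat_lit 557107) (nat_lit 15) (.e (nat_lit 188447) (nat_lit 22) (.e (nat_lit 196666) (nat_lit 13) (.e (nat_lit 65553) (nat_lit 0) (.e (nat_lit 1023) (nat_lit 81) .nil)))))))) (.g (nat_lit 4) .nil .nil)))))))))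

noncomputable def tv1541 : DT := (.nd (nat_lit 0) (.nd (nat_lit 1) (.nd (nat_lit 2) (.nd (nat_lit 3) (.nd (nat_lit 4) (.nd (nat_lit 5) 
(.lf (nat_lit 114240) (.g (nat_lit 3937) (.e (nat_lit 5906) (nat_lit 320) (.e (nat_lit 1182) (nat_lit 87) (.e (nat_lit 57480) (nat_lit 28) (.e (nat_lit 557109) (nat_lit 15) (.e (nat_lit 188449) (nat_lit 22) (.e (nat_lit 196666) (nat_lit 13) (.e (nat_lit 65546) (nat_lit 0) (.e (nat_lit 1023) (nat_lit 81) .nil)))))))) (.g (nat_lit 6) .nil .nil))) 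
(.lf (nat_lit 114272) (.g (nat_lit 2547) (.e (nat_lit 5906) (nat_lit 320) (.e (nat_lit 1190) (nat_lit 88) (.e (nat_lit 65619) (nat_lit 10) (.e (nat_lit 344169) (nat_lit 40) (.e (nat_lit 671748) (nat_lit 0) (.e (nat_lit 1599) (nat_lit 111) (.e (nat_lit 368384) (nat_lit 0) .nil))))))) (.g (nat_lit 5) .nil .nil)))) (.nd (nat_lit 5) 
(.lf (nat_lit 114256) (.g (nat_lit 1962) (.e (nat_lit 5906) (nat_lit 320) (.e (nat_lit 1190) (nat_lit 88) (.e (nat_lit 65619) (nat_lit 10) (.e (nat_lit 344168) (nat_lit 40) (.e (nat_lit 671746) (nat_lit 0) (.e (nat_lit 1592) (nat_lit 111) (.e (nat_lit 368384) (nat_lit 0) .nil))))))) (.g (nat_lit 4) .nil .nil))) 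
(.lf (nat_lit 114288) (.g (nat_lit 2136) (.e (nat_lit 5906) (nat_lit 320) (.e (nat_lit 1190) (nat_lit 88) (.e (nat_lit 65628) (nat_lit 14) (.e (nat_lit 401438) (nat_lit 9) (.e (nat_lit 426546) (nat_lit 30) (.e (nat_lit 368384) (nat_lit 0) .nil)))))) (.g (nat_lit 5) .nil .nil))))) (.nd (nat_lit 4) (.nd (nat_lit 5) 
(.lf (nat_lit 114248) (.g (nat_lit 1752) (.e (nat_lit 5906) (nat_lit 320) (.e (nat_lit 1188) (nat_lit 88) (.e (nat_lit 65624) (nat_lit 12) (.e (nat_lit 385106) (nat_lit 50) (.e (nat_lit 786481) (nat_lit 30) .nil))))) .nil)) 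
(.lf (nat_lit 114280) (.g (nat_lit 3010) (.e (nat_lit 5906) (nat_lit 320) (.e (nat_lit 1190) (nat_lit 88) (.e (nat_lit 65624) (nat_lit 12) (.e (nat_lit 385106) (nat_lit 50) (.e (nat_lit 786481) (nat_lit 30) (.e (nat_lit 368384) (nat_lit 0) .nil)))))) (.g (nat_lit 5) .nil .nil)))) (.nd (nat_lit 5) 
(.lf (nat_lit 114264) (.g (nat_lit 1982) (.e (nat_lit 5906) (nat_lit 320) (.e (nat_lit 1190) (nat_lit 88) (.e (nat_lit 65619) (nat_lit 10) (.e (nat_lit 344169) (nat_lit 40) (.e (nat_lit 671746) (nat_lit 0) (.e (nat_lit 1598) (nat_lit 111) (.e (nat_lit 360452) (nat_lit 0) .nil))))))) (.g (nat_lit 4) .nil .nil))) 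
(.lf (nat_lit 114296) (.g (nat_lit 2966) (.e (nat_lit 5906) (nat_lit 320) (.e (nat_lit 1190) (nat_lit 88) (.e (nat_lit 65630) (nat_lit 14) (.e (nat_lit 401459) (nat_lit 13) (.e (nat_lit 483347) (nat_lit 17) .nil))))) .nil))))) (.nd (nat_lit 3) (.nd (nat_lit 4) (.nd (nat_lit 5) 
(.lf (nat_lit 114244) (.g (nat_lit 1770) (.e (nat_lit 5906) (nat_lit 320) (.e (nat_lit 1187) (nat_lit 88) (.e (nat_lit 65630) (nat_lit 14) (.e (nat_lit 401458) (nat_lit 13) (.e (nat_lit 483394) (nat_lit 24) .nil))))) .nil)) 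
(.lf (nat_lit 114276) (.g (nat_lit 2529) (.e (nat_lit 5906) (nat_lit 320) (.e (nat_lit 1190) (nat_lit 88) (.e (nat_lit 65622) (nat_lit 12) (.e (nat_lit 385106) (nat_lit 50) (.e (nat_lit 786483) (nat_lit 30) (.e (nat_lit 368384) (nat_lit 0) .nil)))))) (.g (nat_lit 5) .nil .nil)))) (.nd (nat_lit 5) 
(.lf (nat_lit 114260) (.g (nat_lit 2241) (.e (nat_lit 5906) (nat_lit 320) (.e (nat_lit 1190) (nat_lit 88) (.e (nat_lit 65619) (nat_lit 10) (.e (nat_lit 344168) (nat_lit 40) (.e (nat_lit 671747) (nat_lit 0) (.e (nat_lit 1595) (nat_lit 111) (.e (nat_lit 368384) (nat_lit 0) .nil))))))) (.g (nat_lit 4) .nil .nil))) 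
(.lf (nat_lit 114292) (.g (nat_lit 474) (.e (nat_lit 5906) (nat_lit 320) (.e (nat_lit 1190) (nat_lit 88) (.e (nat_lit 65630) (nat_lit 14) .nil))) .nil)))) (.nd (nat_lit 4) (.nd (nat_lit 5) 
(.lf (nat_lit 114252) (.g (nat_lit 1701) (.e (nat_lit 5906) (nat_lit 320) (.e (nat_lit 1190) (nat_lit 88) (.e (nat_lit 65619) (nat_lit 10) (.e (nat_lit 344097) (nat_lit 18) (.e (nat_lit 5906) (nat_lit 320) .nil))))) .nil)) 
(.lf (nat_lit 114284) (.g (nat_lit 1529) (.e (nat_lit 5906) (nat_lit 320) (.e (nat_lit 1190) (nat_lit 88) (.e (nat_lit 65628) (nat_lit 14) (.e (nat_lit 401437) (nat_lit 9) (.e (nat_lit 426533) (nat_lit 28) .nil))))) .nil))) (.nd (nat_lit 5) 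
(.lf (nat_lit 114268) (.g (nat_lit 3073) (.e (nat_lit 5906) (nat_lit 320) (.e (nat_lit 1190) (nat_lit 88) (.e (nat_lit 65619) (nat_lit 10) (.e (nat_lit 344169) (nat_lit 40) (.e (nat_lit 671748) (nat_lit 0) (.e (nat_lit 1586) (nat_lit 111) (.e (nat_lit 368384) (nat_lit 0) .nil))))))) (.g (nat_lit 6) .nil .nil))) 
(.lf (nat_lit 114300) (.g (nat_lit 1572) (.e (nat_lit 5906) (nat_lit 320) (.e (nat_lit 1199) (nat_lit 88) (.e (nat_lit 65610) (nat_lit 10) (.e (nat_lit 344097) (nat_lit 18) (.e (nat_lit 5906) (nat_lit 320) .nil))))) .nil)))))) (.nd (nat_lit 2) (.nd (nat_lit 3) (.nd (nat_lit 4) (.nd (nat_lit 5) 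
(.lf (nat_lit 114242) (.g (nat_lit 1440) (.e (nat_lit 5906) (nat_lit 320) (.e (nat_lit 1187) (nat_lit 88) (.e (nat_lit 65619) (nat_lit 10) (.e (nat_lit 344097) (nat_lit 18) (.e (nat_lit 5905) (nat_lit 320) .nil))))) .nil)) 
(.lf (nat_lit 114274) (.g (nat_lit 2313) (.e (nat_lit 5906) (nat_lit 320) (.e (nat_lit 1190) (nat_lit 88) (.e (nat_lit 65622) (nat_lit 12) (.e (nat_lit 385105) (nat_lit 50) (.e (nat_lit 786481) (nat_lit 30) (.e (nat_lit 368384) (nat_lit 0) .nil)))))) (.g (nat_lit 5) .nil .nil)))) (.nd (nat_lit 5) 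
(.lf (nat_lit 114258) (.g (nat_lit 1783) (.e (nat_lit 5906) (nat_lit 320) (.e (nat_lit 1190) (nat_lit 88) (.e (nat_lit 65619) (nat_lit 10) (.e (nat_lit 344168) (nat_lit 40) (.e (nat_lit 671747) (nat_lit 0) .nil))))) .nil)) 
(.lf (nat_lit 114290) (.g (nat_lit 1809) (.e (nat_lit 5906) (nat_lit 320) (.e (nat_lit 1190) (nat_lit 88) (.e (nat_lit 65628) (nat_lit 14) (.e (nat_lit 401459) (nat_lit 13) (.e (nat_lit 483386) (nat_lit 23) .nil))))) .nil)))) (.nd (nat_lit 4) (.nd (nat_lit 5) 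
(.lf (nat_lit 114250) (.g (nat_lit 2965) (.e (nat_lit 5906) (nat_lit 320) (.e (nat_lit 1188) (nat_lit 88) (.e (nat_lit 65630) (nat_lit 14) (.e (nat_lit 401459) (nat_lit 13) (.e (nat_lit 483354) (nat_lit 17) (.e (nat_lit 7936) (nat_lit 346) (.e (nat_lit 57354) (nat_lit 0) .nil))))))) (.g (nat_lit 4) .nil .nil))) 
(.lf (nat_lit 114282) (.g (nat_lit 2032) (.e (nat_lit 5906) (nat_lit 320) (.e (nat_lit 1190) (nat_lit 88) (.e (nat_lit 65628) (nat_lit 14) (.e (nat_lit 401436) (nat_lit 9) (.e (nat_lit 426544) (nat_lit 30) (.e (nat_lit 368384) (nat_lit 0) .nil)))))) (.g (nat_lit 5) .nil .nil)))) (.nd (nat_lit 5) 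
(.lf (nat_lit 114266) (.g (nat_lit 2689) (.e (nat_lit 5906) (nat_lit 320) (.e (nat_lit 1190) (nat_lit 88) (.e (nat_lit 65619) (nat_lit 10) (.e (nat_lit 344169) (nat_lit 40) (.e (nat_lit 671747) (nat_lit 0) (.e (nat_lit 1592) (nat_lit 111) (.e (nat_lit 368384) (nat_lit 0) .nil))))))) (.g (nat_lit 6) .nil .nil))) 
(.lf (nat_lit 114298) (.g (nat_lit 3475) (.e (nat_lit 5906) (nat_lit 320) (.e (nat_lit 1190) (nat_lit 88) (.e (nat_lit 65630) (nat_lit 14) (.e (nat_lit 401459) (nat_lit 13) (.e (nat_lit 483397) (nat_lit 25) .nil))))) .nil))))) (.nd (nat_lit 3) (.nd (nat_lit 4) (.nd (nat_lit 5) 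
(.lf (nat_lit 114246) (.g (nat_lit 2451) (.e (nat_lit 5906) (nat_lit 320) (.e (nat_lit 1187) (nat_lit 88) (.e (nat_lit 65630) (nat_lit 14) (.e (nat_lit 401459) (nat_lit 13) (.e (nat_lit 483380) (nat_lit 23) .nil))))) .nil)) 
(.lf (nat_lit 114278) (.g (nat_lit 2998) (.e (nat_lit 5906) (nat_lit 320) (.e (nat_lit 1190) (nat_lit 88) (.e (nat_lit 65624) (nat_lit 12) (.e (nat_lit 385105) (nat_lit 50) (.e (nat_lit 786481) (nat_lit 30) (.e (nat_lit 368384) (nat_lit 0) .nil)))))) (.g (nat_lit 5) .nil .nil)))) (.nd (nat_lit 5) 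
(.lf (nat_lit 114262) (.g (nat_lit 1996) (.e (nat_lit 5906) (nat_lit 320) (.e (nat_lit 1190) (nat_lit 88) (.e (nat_lit 65619) (nat_lit 10) (.e (nat_lit 344169) (nat_lit 40) (.e (nat_lit 671746) (nat_lit 0) (.e (nat_lit 1586) (nat_lit 111) (.e (nat_lit 368384) (nat_lit 0) .nil))))))) (.g (nat_lit 4) .nil .nil))) 
(.lf (nat_lit 114294) (.g (nat_lit 3498) (.e (nat_lit 5906) (nat_lit 320) (.e (nat_lit 1190) (nat_lit 88) (.e (nat_lit 65630) (nat_lit 14) (.e (nat_lit 401459) (nat_lit 13) (.e (nat_lit 483343) (nat_lit 17) (.e (nat_lit 6514) (nat_lit 346) (.e (nat_lit 57354) (nat_lit 0) .nil))))))) (.g (nat_lit 4) .nil .nil))))) (.nd (nat_lit 4) (.nd (nat_lit 5) 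
(.lf (nat_lit 114254) (.g (nat_lit 1062) (.e (nat_lit 5906) (nat_lit 320) (.e (nat_lit 1190) (nat_lit 88) (.e (nat_lit 65619) (nat_lit 10) (.e (nat_lit 344168) (nat_lit 40) .nil)))) .nil)) 
(.lf (nat_lit 114286) (.g (nat_lit 2676) (.e (nat_lit 5906) (nat_lit 320) (.e (nat_lit 1190) (nat_lit 88) (.e (nat_lit 65628) (nat_lit 14) (.e (nat_lit 401437) (nat_lit 9) (.e (nat_lit 426546) (nat_lit 30) (.e (nat_lit 368384) (nat_lit 0) .nil)))))) (.g (nat_lit 5) .nil .nil)))) (.nd (nat_lit 5) 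
(.lf (nat_lit 114270) (.g (nat_lit 2973) (.e (nat_lit 5906) (nat_lit 320) (.e (nat_lit 1190) (nat_lit 88) (.e (nat_lit 65619) (nat_lit 10) (.e (nat_lit 344169) (nat_lit 40) (.e (nat_lit 671748) (nat_lit 0) (.e (nat_lit 1592) (nat_lit 111) (.e (nat_lit 368384) (nat_lit 0) .nil))))))) (.g (nat_lit 6) .nil .nil))) 
(.lf (nat_lit 114302) (.g (nat_lit 1503) (.e (nat_lit 5906) (nat_lit 320) (.e (nat_lit 1199) (nat_lit 88) (.e (nat_lit 65610) (nat_lit 10) (.e (nat_lit 344168) (nat_lit 40) (.e (nat_lit 671746) (nat_lit 0) (.e (nat_lit 1586) (nat_lit 111) (.e (nat_lit 368384) (nat_lit 0) .nil))))))) (.g (nat_lit 4) .nil .nil)))))))) 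
(.nd (nat_lit 1) (.nd (nat_lit 2) (.nd (nat_lit 3) (.nd (nat_lit 4) (.nd (nat_lit 5) 
(.lf (nat_lit 114241) (.g (nat_lit 4491) (.e (nat_lit 5906) (nat_lit 320) (.e (nat_lit 1182) (nat_lit 87) (.e (nat_lit 57480) (nat_lit 28) (.e (nat_lit 557109) (nat_lit 15) (.e (nat_lit 188449) (nat_lit 22) (.e (nat_lit 196666) (nat_lit 13) (.e (nat_lit 65550) (nat_lit 0) (.e (nat_lit 1023) (nat_lit 81) .nil)))))))) (.g (nat_lit 6) .nil .nil))) 
(.lf (nat_lit 114273) (.g (nat_lit 1746) (.e (nat_lit 5906) (nat_lit 320) (.e (nat_lit 1190) (nat_lit 88) (.e (nat_lit 65619) (nat_lit 10) (.e (nat_lit 344169) (nat_lit 40) (.e (nat_lit 671760) (nat_lit 4) .nil))))) .nil))) (.nd (nat_lit 5) 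
(.lf (nat_lit 114257) (.g (nat_lit 1856) (.e (nat_lit 5906) (nat_lit 320) (.e (nat_lit 1190) (nat_lit 88) (.e (nat_lit 65619) (nat_lit 10) (.e (nat_lit 344168) (nat_lit 40) (.e (nat_lit 671746) (nat_lit 0) (.e (nat_lit 1598) (nat_lit 111) (.e (nat_lit 360452) (nat_lit 0) .nil))))))) (.g (nat_lit 4) .nil .nil))) 
(.lf (nat_lit 114289) (.g (nat_lit 3169) (.e (nat_lit 5906) (nat_lit 320) (.e (nat_lit 1190) (nat_lit 88) (.e (nat_lit 65628) (nat_lit 14) (.e (nat_lit 401459) (nat_lit 13) (.e (nat_lit 483344) (nat_lit 17) (.e (nat_lit 7936) (nat_lit 346) (.e (nat_lit 57354) (nat_lit 0) .nil))))))) (.g (nat_lit 5) .nil .nil))))) (.nd (nat_lit 4) (.nd (nat_lit 5) 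
(.lf (nat_lit 114249) (.g (nat_lit 3580) (.e (nat_lit 5906) (nat_lit 320) (.e (nat_lit 1188) (nat_lit 88) (.e (nat_lit 65630) (nat_lit 14) (.e (nat_lit 401459) (nat_lit 13) (.e (nat_lit 483344) (nat_lit 17) (.e (nat_lit 7936) (nat_lit 346) (.e (nat_lit 57354) (nat_lit 0) .nil))))))) (.g (nat_lit 5) .nil .nil))) 
(.lf (nat_lit 114281) (.g (nat_lit 3247) (.e (nat_lit 5906) (nat_lit 320) (.e (nat_lit 1190) (nat_lit 88) (.e (nat_lit 65624) (nat_lit 12) (.e (nat_lit 385106) (nat_lit 50) (.e (nat_lit 786483) (nat_lit 30) (.e (nat_lit 368384) (nat_lit 0) .nil)))))) (.g (nat_lit 5) .nil .nil)))) (.nd (nat_lit 5) 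
(.lf (nat_lit 114265) (.g (nat_lit 1748) (.e (nat_lit 5906) (nat_lit 320) (.e (nat_lit 1190) (nat_lit 88) (.e (nat_lit 65619) (nat_lit 10) (.e (nat_lit 344169) (nat_lit 40) (.e (nat_lit 671747) (nat_lit 0) .nil))))) .nil)) 
(.lf (nat_lit 114297) (.g (nat_lit 2737) (.e (nat_lit 5906) (nat_lit 320) (.e (nat_lit 1190) (nat_lit 88) (.e (nat_lit 65630) (nat_lit 14) (.e (nat_lit 401459) (nat_lit 13) (.e (nat_lit 483380) (nat_lit 23) .nil))))) .nil))))) (.nd (nat_lit 3) (.nd (nat_lit 4) (.nd (nat_lit 5) 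
(.lf (nat_lit 114245) (.g (nat_lit 1799) (.e (nat_lit 5906) (nat_lit 320) (.e (nat_lit 1187) (nat_lit 88) (.e (nat_lit 65630) (nat_lit 14) (.e (nat_lit 401458) (nat_lit 13) (.e (nat_lit 483395) (nat_lit 24) .nil))))) .nil)) 
(.lf (nat_lit 114277) (.g (nat_lit 1544) (.e (nat_lit 5906) (nat_lit 320) (.e (nat_lit 1190) (nat_lit 88) (.e (nat_lit 65623) (nat_lit 12) (.e (nat_lit 385106) (nat_lit 50) (.e (nat_lit 786481) (nat_lit 30) .nil))))) .nil))) (.nd (nat_lit 5) 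
(.lf (nat_lit 114261) (.g (nat_lit 1760) (.e (nat_lit 5906) (nat_lit 320) (.e (nat_lit 1190) (nat_lit 88) (.e (nat_lit 65619) (nat_lit 10) (.e (nat_lit 344169) (nat_lit 40) (.e (nat_lit 671746) (nat_lit 0) .nil))))) .nil)) 
(.lf (nat_lit 114293) (.g (nat_lit 3288) (.e (nat_lit 5906) (nat_lit 320) (.e (nat_lit 1190) (nat_lit 88) (.e (nat_lit 65630) (nat_lit 14) (.e (nat_lit 401454) (nat_lit 12) (.e (nat_lit 475154) (nat_lit 20) .nil))))) .nil)))) (.nd (nat_lit 4) (.nd (nat_lit 5) 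
(.lf (nat_lit 114253) (.g (nat_lit 3073) (.e (nat_lit 5906) (nat_lit 320) (.e (nat_lit 1190) (nat_lit 88) (.e (nat_lit 65619) (nat_lit 10) (.e (nat_lit 344097) (nat_lit 18) (.e (nat_lit 5907) (nat_lit 320) (.e (nat_lit 1189) (nat_lit 88) (.e (nat_lit 65619) (nat_lit 10) (.e (nat_lit 344097) (nat_lit 18) .nil)))))))) (.g (nat_lit 5) .nil .nil))) 
(.lf (nat_lit 114285) (.g (nat_lit 2741) (.e (nat_lit 5906) (nat_lit 320) (.e (nat_lit 1190) (nat_lit 88) (.e (nat_lit 65628) (nat_lit 14) (.e (nat_lit 401437) (nat_lit 9) (.e (nat_lit 426544) (nat_lit 30) (.e (nat_lit 368384) (nat_lit 0) .nil)))))) (.g (nat_lit 5) .nil .nil)))) (.nd (nat_lit 5) 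
(.lf (nat_lit 114269) (.g (nat_lit 2995) (.e (nat_lit 5906) (nat_lit 320) (.e (nat_lit 1190) (nat_lit 88) (.e (nat_lit 65619) (nat_lit 10) (.e (nat_lit 344169) (nat_lit 40) (.e (nat_lit 671748) (nat_lit 0) (.e (nat_lit 1589) (nat_lit 111) (.e (nat_lit 368384) (nat_lit 0) .nil))))))) (.g (nat_lit 6) .nil .nil))) 
(.lf (nat_lit 114301) (.g (nat_lit 2697) (.e (nat_lit 5906) (nat_lit 320) (.e (nat_lit 1199) (nat_lit 88) (.e (nat_lit 65610) (nat_lit 10) (.e (nat_lit 344097) (nat_lit 18) (.e (nat_lit 5907) (nat_lit 320) (.e (nat_lit 1189) (nat_lit 88) (.e (nat_lit 65619) (nat_lit 10) (.e (nat_lit 344097) (nat_lit 18) .nil)))))))) (.g (nat_lit 5) .nil .nil))))))) 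
(.nd (nat_lit 2) (.nd (nat_lit 3) (.nd (nat_lit 4) (.nd (nat_lit 5) 
(.lf (nat_lit 114243) (.g (nat_lit 722) (.e (nat_lit 5906) (nat_lit 320) (.e (nat_lit 1187) (nat_lit 88) (.e (nat_lit 65629) (nat_lit 14) (.e (nat_lit 401459) (nat_lit 13) .nil)))) .nil)) 
(.lf (nat_lit 114275) (.g (nat_lit 2267) (.e (nat_lit 5906) (nat_lit 320) (.e (nat_lit 1190) (nat_lit 88) (.e (nat_lit 65622) (nat_lit 12) (.e (nat_lit 385106) (nat_lit 50) (.e (nat_lit 786481) (nat_lit 30) (.e (nat_lit 368384) (nat_lit 0) .nil)))))) (.g (nat_lit 5) .nil .nil)))) (.nd (nat_lit 5) 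
(.lf (nat_lit 114259) (.g (nat_lit 2712) (.e (nat_lit 5906) (nat_lit 320) (.e (nat_lit 1190) (nat_lit 88) (.e (nat_lit 65619) (nat_lit 10) (.e (nat_lit 344168) (nat_lit 40) (.e (nat_lit 671747) (nat_lit 0) (.e (nat_lit 1592) (nat_lit 111) (.e (nat_lit 368384) (nat_lit 0) .nil))))))) (.g (nat_lit 6) .nil .nil))) 
(.lf (nat_lit 114291) (.g (nat_lit 3157) (.e (nat_lit 5906) (nat_lit 320) (.e (nat_lit 1190) (nat_lit 88) (.e (nat_lit 65628) (nat_lit 14) (.e (nat_lit 401459) (nat_lit 13) (.e (nat_lit 483397) (nat_lit 25) (.e (nat_lit 368662) (nat_lit 18) .nil)))))) (.g (nat_lit 4) .nil .nil))))) (.nd (nat_lit 4) (.nd (nat_lit 5) 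
(.lf (nat_lit 114251) (.g (nat_lit 1964) (.e (nat_lit 5906) (nat_lit 320) (.e (nat_lit 1188) (nat_lit 88) (.e (nat_lit 65630) (nat_lit 14) (.e (nat_lit 401459) (nat_lit 13) (.e (nat_lit 483380) (nat_lit 23) .nil))))) .nil)) 
(.lf (nat_lit 114283) (.g (nat_lit 1738) (.e (nat_lit 5906) (nat_lit 320) (.e (nat_lit 1190) (nat_lit 88) (.e (nat_lit 65628) (nat_lit 14) (.e (nat_lit 401436) (nat_lit 9) (.e (nat_lit 426546) (nat_lit 30) (.e (nat_lit 368384) (nat_lit 0) .nil)))))) (.g (nat_lit 4) .nil .nil)))) (.nd (nat_lit 5) 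
(.lf (nat_lit 114267) (.g (nat_lit 2206) (.e (nat_lit 5906) (nat_lit 320) (.e (nat_lit 1190) (nat_lit 88) (.e (nat_lit 65619) (nat_lit 10) (.e (nat_lit 344169) (nat_lit 40) (.e (nat_lit 671747) (nat_lit 0) (.e (nat_lit 1595) (nat_lit 111) (.e (nat_lit 368384) (nat_lit 0) .nil))))))) (.g (nat_lit 4) .nil .nil))) 
(.lf (nat_lit 114299) (.g (nat_lit 4634) (.e (nat_lit 5906) (nat_lit 320) (.e (nat_lit 1199) (nat_lit 88) (.e (nat_lit 65610) (nat_lit 10) (.e (nat_lit 344097) (nat_lit 18) (.e (nat_lit 5905) (nat_lit 320) (.e (nat_lit 1190) (nat_lit 88) (.e (nat_lit 65619) (nat_lit 10) (.e (nat_lit 344097) (nat_lit 18) .nil)))))))) (.g (nat_lit 8) .nil .nil)))))) 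
(.nd (nat_lit 3) (.nd (nat_lit 4) (.nd (nat_lit 5) 
(.lf (nat_lit 114247) (.g (nat_lit 1815) (.e (nat_lit 5906) (nat_lit 320) (.e (nat_lit 1188) (nat_lit 88) (.e (nat_lit 65624) (nat_lit 12) (.e (nat_lit 385105) (nat_lit 50) (.e (nat_lit 786481) (nat_lit 30) .nil))))) .nil)) 
(.lf (nat_lit 114279) (.g (nat_lit 3075) (.e (nat_lit 5906) (nat_lit 320) (.e (nat_lit 1190) (nat_lit 88) (.e (nat_lit 65624) (nat_lit 12) (.e (nat_lit 385105) (nat_lit 50) (.e (nat_lit 786483) (nat_lit 30) (.e (nat_lit 368384) (nat_lit 0) .nil)))))) (.g (nat_lit 5) .nil .nil)))) (.nd (nat_lit 5) 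
(.lf (nat_lit 114263) (.g (nat_lit 2076) (.e (nat_lit 5906) (nat_lit 320) (.e (nat_lit 1190) (nat_lit 88) (.e (nat_lit 65619) (nat_lit 10) (.e (nat_lit 344169) (nat_lit 40) (.e (nat_lit 671746) (nat_lit 0) (.e (nat_lit 1592) (nat_lit 111) (.e (nat_lit 368384) (nat_lit 0) .nil))))))) (.g (nat_lit 4) .nil .nil))) 
(.lf (nat_lit 114295) (.g (nat_lit 4149) (.e (nat_lit 5906) (nat_lit 320) (.e (nat_lit 1190) (nat_lit 88) (.e (nat_lit 65630) (nat_lit 14) (.e (nat_lit 401459) (nat_lit 13) (.e (nat_lit 483344) (nat_lit 17) (.e (nat_lit 7936) (nat_lit 346) (.e (nat_lit 57354) (nat_lit 0) .nil))))))) (.g (nat_lit 5) .nil .nil))))) (.nd (nat_lit 4) (.nd (nat_lit 5) 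
(.lf (nat_lit 114255) (.g (nat_lit 1866) (.e (nat_lit 5906) (nat_lit 320) (.e (nat_lit 1190) (nat_lit 88) (.e (nat_lit 65619) (nat_lit 10) (.e (nat_lit 344168) (nat_lit 40) (.e (nat_lit 671746) (nat_lit 0) (.e (nat_lit 1586) (nat_lit 111) (.e (nat_lit 368384) (nat_lit 0) .nil))))))) (.g (nat_lit 4) .nil .nil))) 
(.lf (nat_lit 114287) (.g (nat_lit 2417) (.e (nat_lit 5906) (nat_lit 320) (.e (nat_lit 1190) (nat_lit 88) (.e (nat_lit 65628) (nat_lit 14) (.e (nat_lit 401438) (nat_lit 9) (.e (nat_lit 426544) (nat_lit 30) (.e (nat_lit 368384) (nat_lit 0) .nil)))))) (.g (nat_lit 5) .nil .nil)))) (.nd (nat_lit 5) 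
(.lf (nat_lit 114271) (.g (nat_lit 2644) (.e (nat_lit 5906) (nat_lit 320) (.e (nat_lit 1190) (nat_lit 88) (.e (nat_lit 65619) (nat_lit 10) (.e (nat_lit 344169) (nat_lit 40) (.e (nat_lit 671748) (nat_lit 0) (.e (nat_lit 1598) (nat_lit 111) (.e (nat_lit 368384) (nat_lit 0) .nil))))))) (.g (nat_lit 5) .nil .nil))) 
(.lf (nat_lit 114303) (.g (nat_lit 1584) (.e (nat_lit 5906) (nat_lit 320) (.e (nat_lit 1199) (nat_lit 88) (.e (nat_lit 65610) (nat_lit 10) (.e (nat_lit 344168) (nat_lit 40) (.e (nat_lit 671746) (nat_lit 0) (.e (nat_lit 1592) (nat_lit 111) (.e (nat_lit 368384) (nat_lit 0) .nil))))))) (.g (nat_lit 4) .nil .nil)))))))))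

noncomputable def tv1542 : DT := (.nd (nat_lit 0) (.nd (nat_lit 1) (.nd (nat_lit 2) (.nd (nat_lit 3) (.nd (nat_lit 4) (.nd (nat_lit 5) 
(.lf (nat_lit 114304) (.g (nat_lit 2296) (.e (nat_lit 5906) (nat_lit 320) (.e (nat_lit 1199) (nat_lit 88) (.e (nat_lit 65610) (nat_lit 10) (.e (nat_lit 344168) (nat_lit 40) (.e (nat_lit 671747) (nat_lit 0) (.e (nat_lit 1592) (nat_lit 111) (.e (nat_lit 368384) (nat_lit 0) .nil))))))) (.g (nat_lit 6) .nil .nil))) 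
(.lf (nat_lit 114336) (.g (nat_lit 2580) (.e (nat_lit 5906) (nat_lit 320) (.e (nat_lit 1199) (nat_lit 88) (.e (nat_lit 65630) (nat_lit 14) (.e (nat_lit 401437) (nat_lit 9) (.e (nat_lit 426544) (nat_lit 30) (.e (nat_lit 368384) (nat_lit 0) .nil)))))) (.g (nat_lit 5) .nil .nil)))) (.nd (nat_lit 5) 
(.lf (nat_lit 114320) (.g (nat_lit 2180) (.e (nat_lit 5906) (nat_lit 320) (.e (nat_lit 1199) (nat_lit 88) (.e (nat_lit 65622) (nat_lit 12) (.e (nat_lit 385106) (nat_lit 50) (.e (nat_lit 786481) (nat_lit 30) (.e (nat_lit 368384) (nat_lit 0) .nil)))))) (.g (nat_lit 5) .nil .nil))) 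
(.lf (nat_lit 114352) (.g (nat_lit 1899) (.e (nat_lit 5906) (nat_lit 320) (.e (nat_lit 1200) (nat_lit 88) (.e (nat_lit 65619) (nat_lit 10) (.e (nat_lit 344169) (nat_lit 40) (.e (nat_lit 671746) (nat_lit 0) (.e (nat_lit 1592) (nat_lit 111) (.e (nat_lit 368384) (nat_lit 0) .nil))))))) (.g (nat_lit 4) .nil .nil))))) (.nd (nat_lit 4) (.nd (nat_lit 5) 
(.lf (nat_lit 114312) (.g (nat_lit 1162) (.e (nat_lit 5906) (nat_lit 320) (.e (nat_lit 1199) (nat_lit 88) (.e (nat_lit 65617) (nat_lit 10) (.e (nat_lit 344168) (nat_lit 40) .nil)))) .nil)) 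
(.lf (nat_lit 114344) (.g (nat_lit 3751) (.e (nat_lit 5906) (nat_lit 320) (.e (nat_lit 1199) (nat_lit 88) (.e (nat_lit 65630) (nat_lit 14) (.e (nat_lit 401459) (nat_lit 13) (.e (nat_lit 483397) (nat_lit 25) (.e (nat_lit 368662) (nat_lit 18) .nil)))))) (.g (nat_lit 4) .nil .nil)))) (.nd (nat_lit 5) 
(.lf (nat_lit 114328) (.g (nat_lit 2345) (.e (nat_lit 5906) (nat_lit 320) (.e (nat_lit 1199) (nat_lit 88) (.e (nat_lit 65628) (nat_lit 14) (.e (nat_lit 401459) (nat_lit 13) (.e (nat_lit 483347) (nat_lit 17) .nil))))) .nil)) 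
(.lf (nat_lit 114360) (.g (nat_lit 1729) (.e (nat_lit 5906) (nat_lit 320) (.e (nat_lit 1200) (nat_lit 88) (.e (nat_lit 65628) (nat_lit 14) (.e (nat_lit 401436) (nat_lit 9) (.e (nat_lit 426546) (nat_lit 30) (.e (nat_lit 368384) (nat_lit 0) .nil)))))) (.g (nat_lit 5) .nil .nil)))))) (.nd (nat_lit 3) (.nd (nat_lit 4) (.nd (nat_lit 5) 
(.lf (nat_lit 114308) (.g (nat_lit 2903) (.e (nat_lit 5906) (nat_lit 320) (.e (nat_lit 1199) (nat_lit 88) (.e (nat_lit 65610) (nat_lit 10) (.e (nat_lit 344169) (nat_lit 40) (.e (nat_lit 671748) (nat_lit 0) (.e (nat_lit 1586) (nat_lit 111) (.e (nat_lit 368384) (nat_lit 0) .nil))))))) (.g (nat_lit 6) .nil .nil))) 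
(.lf (nat_lit 114340) (.g (nat_lit 2073) (.e (nat_lit 5906) (nat_lit 320) (.e (nat_lit 1199) (nat_lit 88) (.e (nat_lit 65630) (nat_lit 14) (.e (nat_lit 401438) (nat_lit 9) (.e (nat_lit 426546) (nat_lit 30) (.e (nat_lit 368384) (nat_lit 0) .nil)))))) (.g (nat_lit 5) .nil .nil)))) (.nd (nat_lit 5) 
(.lf (nat_lit 114324) (.g (nat_lit 2792) (.e (nat_lit 5906) (nat_lit 320) (.e (nat_lit 1199) (nat_lit 88) (.e (nat_lit 65624) (nat_lit 12) (.e (nat_lit 385106) (nat_lit 50) (.e (nat_lit 786483) (nat_lit 30) (.e (nat_lit 368384) (nat_lit 0) .nil)))))) (.g (nat_lit 5) .nil .nil))) 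
(.lf (nat_lit 114356) (.g (nat_lit 2810) (.e (nat_lit 5906) (nat_lit 320) (.e (nat_lit 1200) (nat_lit 88) (.e (nat_lit 65619) (nat_lit 10) (.e (nat_lit 344169) (nat_lit 40) (.e (nat_lit 671748) (nat_lit 0) (.e (nat_lit 1592) (nat_lit 111) (.e (nat_lit 368384) (nat_lit 0) .nil))))))) (.g (nat_lit 6) .nil .nil))))) (.nd (nat_lit 4) (.nd (nat_lit 5) 
(.lf (nat_lit 114316) (.g (nat_lit 1682) (.e (nat_lit 5906) (nat_lit 320) (.e (nat_lit 1199) (nat_lit 88) (.e (nat_lit 65617) (nat_lit 10) (.e (nat_lit 344169) (nat_lit 40) (.e (nat_lit 671746) (nat_lit 0) .nil))))) .nil)) 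
(.lf (nat_lit 114348) (.g (nat_lit 1836) (.e (nat_lit 5906) (nat_lit 320) (.e (nat_lit 1200) (nat_lit 88) (.e (nat_lit 65619) (nat_lit 10) (.e (nat_lit 344168) (nat_lit 40) (.e (nat_lit 671746) (nat_lit 0) (.e (nat_lit 1592) (nat_lit 111) (.e (nat_lit 368384) (nat_lit 0) .nil))))))) (.g (nat_lit 4) .nil .nil)))) (.nd (nat_lit 5) 
(.lf (nat_lit 114332) (.g (nat_lit 3100) (.e (nat_lit 5906) (nat_lit 320) (.e (nat_lit 1199) (nat_lit 88) (.e (nat_lit 65629) (nat_lit 14) (.e (nat_lit 401459) (nat_lit 13) (.e (nat_lit 483398) (nat_lit 25) (.e (nat_lit 368662) (nat_lit 18) .nil)))))) (.g (nat_lit 4) .nil .nil))) 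
(.lf (nat_lit 114364) (.g (nat_lit 2343) (.e (nat_lit 5906) (nat_lit 320) (.e (nat_lit 1200) (nat_lit 88) (.e (nat_lit 65628) (nat_lit 14) (.e (nat_lit 401438) (nat_lit 9) (.e (nat_lit 426544) (nat_lit 30) (.e (nat_lit 368384) (nat_lit 0) .nil)))))) (.g (nat_lit 5) .nil .nil))))))) (.nd (nat_lit 2) (.nd (nat_lit 3) (.nd (nat_lit 4) (.nd (nat_lit 5) 
(.lf (nat_lit 114306) (.g (nat_lit 1573) (.e (nat_lit 5906) (nat_lit 320) (.e (nat_lit 1199) (nat_lit 88) (.e (nat_lit 65610) (nat_lit 10) (.e (nat_lit 344169) (nat_lit 40) (.e (nat_lit 671747) (nat_lit 0) .nil))))) .nil)) 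
(.lf (nat_lit 114338) (.g (nat_lit 1525) (.e (nat_lit 5906) (nat_lit 320) (.e (nat_lit 1199) (nat_lit 88) (.e (nat_lit 65630) (nat_lit 14) (.e (nat_lit 401438) (nat_lit 9) (.e (nat_lit 426542) (nat_lit 29) .nil))))) .nil))) (.nd (nat_lit 5) 
(.lf (nat_lit 114322) (.g (nat_lit 2563) (.e (nat_lit 5906) (nat_lit 320) (.e (nat_lit 1199) (nat_lit 88) (.e (nat_lit 65624) (nat_lit 12) (.e (nat_lit 385105) (nat_lit 50) (.e (nat_lit 786483) (nat_lit 30) (.e (nat_lit 368384) (nat_lit 0) .nil)))))) (.g (nat_lit 5) .nil .nil))) 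
(.lf (nat_lit 114354) (.g (nat_lit 2477) (.e (nat_lit 5906) (nat_lit 320) (.e (nat_lit 1200) (nat_lit 88) (.e (nat_lit 65619) (nat_lit 10) (.e (nat_lit 344169) (nat_lit 40) (.e (nat_lit 671747) (nat_lit 0) (.e (nat_lit 1592) (nat_lit 111) (.e (nat_lit 368384) (nat_lit 0) .nil))))))) (.g (nat_lit 6) .nil .nil))))) (.nd (nat_lit 4) (.nd (nat_lit 5) 
(.lf (nat_lit 114314) (.g (nat_lit 1699) (.e (nat_lit 5906) (nat_lit 320) (.e (nat_lit 1199) (nat_lit 88) (.e (nat_lit 65617) (nat_lit 10) (.e (nat_lit 344168) (nat_lit 40) (.e (nat_lit 671751) (nat_lit 0) .nil))))) .nil)) 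
(.lf (nat_lit 114346) (.g (nat_lit 2920) (.e (nat_lit 5906) (nat_lit 320) (.e (nat_lit 1200) (nat_lit 88) (.e (nat_lit 65619) (nat_lit 10) (.e (nat_lit 344097) (nat_lit 18) (.e (nat_lit 5907) (nat_lit 320) (.e (nat_lit 1189) (nat_lit 88) (.e (nat_lit 65619) (nat_lit 10) (.e (nat_lit 344097) (nat_lit 18) .nil)))))))) (.g (nat_lit 5) .nil .nil)))) (.nd (nat_lit 5) 
(.lf (nat_lit 114330) (.g (nat_lit 2861) (.e (nat_lit 5906) (nat_lit 320) (.e (nat_lit 1199) (nat_lit 88) (.e (nat_lit 65628) (nat_lit 14) (.e (nat_lit 401459) (nat_lit 13) (.e (nat_lit 483397) (nat_lit 25) .nil))))) .nil)) 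
(.lf (nat_lit 114362) (.g (nat_lit 2689) (.e (nat_lit 5906) (nat_lit 320) (.e (nat_lit 1200) (nat_lit 88) (.e (nat_lit 65628) (nat_lit 14) (.e (nat_lit 401437) (nat_lit 9) (.e (nat_lit 426544) (nat_lit 30) (.e (nat_lit 368384) (nat_lit 0) .nil)))))) (.g (nat_lit 5) .nil .nil)))))) (.nd (nat_lit 3) (.nd (nat_lit 4) (.nd (nat_lit 5) 
(.lf (nat_lit 114310) (.g (nat_lit 2866) (.e (nat_lit 5906) (nat_lit 320) (.e (nat_lit 1199) (nat_lit 88) (.e (nat_lit 65610) (nat_lit 10) (.e (nat_lit 344169) (nat_lit 40) (.e (nat_lit 671748) (nat_lit 0) (.e (nat_lit 1592) (nat_lit 111) (.e (nat_lit 368384) (nat_lit 0) .nil))))))) (.g (nat_lit 6) .nil .nil))) 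
(.lf (nat_lit 114342) (.g (nat_lit 3813) (.e (nat_lit 5906) (nat_lit 320) (.e (nat_lit 1199) (nat_lit 88) (.e (nat_lit 65630) (nat_lit 14) (.e (nat_lit 401459) (nat_lit 13) (.e (nat_lit 483344) (nat_lit 17) (.e (nat_lit 7936) (nat_lit 346) (.e (nat_lit 57354) (nat_lit 0) .nil))))))) (.g (nat_lit 5) .nil .nil)))) (.nd (nat_lit 5) 
(.lf (nat_lit 114326) (.g (nat_lit 1428) (.e (nat_lit 5906) (nat_lit 320) (.e (nat_lit 1199) (nat_lit 88) (.e (nat_lit 65628) (nat_lit 14) (.e (nat_lit 401436) (nat_lit 9) (.e (nat_lit 426546) (nat_lit 30) .nil))))) .nil)) 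
(.lf (nat_lit 114358) (.g (nat_lit 1826) (.e (nat_lit 5906) (nat_lit 320) (.e (nat_lit 1200) (nat_lit 88) (.e (nat_lit 65624) (nat_lit 12) (.e (nat_lit 385106) (nat_lit 50) (.e (nat_lit 786481) (nat_lit 30) .nil))))) .nil)))) (.nd (nat_lit 4) (.nd (nat_lit 5) 
(.lf (nat_lit 114318) (.g (nat_lit 1739) (.e (nat_lit 5906) (nat_lit 320) (.e (nat_lit 1199) (nat_lit 88) (.e (nat_lit 65617) (nat_lit 10) (.e (nat_lit 344169) (nat_lit 40) (.e (nat_lit 671751) (nat_lit 0) .nil))))) .nil)) 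
(.lf (nat_lit 114350) (.g (nat_lit 2569) (.e (nat_lit 5906) (nat_lit 320) (.e (nat_lit 1200) (nat_lit 88) (.e (nat_lit 65619) (nat_lit 10) (.e (nat_lit 344168) (nat_lit 40) (.e (nat_lit 671747) (nat_lit 0) (.e (nat_lit 1592) (nat_lit 111) (.e (nat_lit 368384) (nat_lit 0) .nil))))))) (.g (nat_lit 6) .nil .nil)))) (.nd (nat_lit 5) 
(.lf (nat_lit 114334) (.g (nat_lit 1825) (.e (nat_lit 5906) (nat_lit 320) (.e (nat_lit 1199) (nat_lit 88) (.e (nat_lit 65630) (nat_lit 14) (.e (nat_lit 401436) (nat_lit 9) (.e (nat_lit 426546) (nat_lit 30) (.e (nat_lit 368384) (nat_lit 0) .nil)))))) (.g (nat_lit 4) .nil .nil))) 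
(.lf (nat_lit 114366) (.g (nat_lit 1281) (.e (nat_lit 5906) (nat_lit 320) (.e (nat_lit 1200) (nat_lit 88) (.e (nat_lit 65628) (nat_lit 14) (.e (nat_lit 401454) (nat_lit 12) .nil)))) .nil))))))) (.nd (nat_lit 1) (.nd (nat_lit 2) (.nd (nat_lit 3) (.nd (nat_lit 4) (.nd (nat_lit 5) 
(.lf (nat_lit 114305) (.g (nat_lit 1490) (.e (nat_lit 5906) (nat_lit 320) (.e (nat_lit 1199) (nat_lit 88) (.e (nat_lit 65610) (nat_lit 10) (.e (nat_lit 344169) (nat_lit 40) (.e (nat_lit 671746) (nat_lit 0) .nil))))) .nil)) 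
(.lf (nat_lit 114337) (.g (nat_lit 2515) (.e (nat_lit 5906) (nat_lit 320) (.e (nat_lit 1199) (nat_lit 88) (.e (nat_lit 65630) (nat_lit 14) (.e (nat_lit 401437) (nat_lit 9) (.e (nat_lit 426546) (nat_lit 30) (.e (nat_lit 368384) (nat_lit 0) .nil)))))) (.g (nat_lit 5) .nil .nil)))) (.nd (nat_lit 5) 
(.lf (nat_lit 114321) (.g (nat_lit 2588) (.e (nat_lit 5906) (nat_lit 320) (.e (nat_lit 1199) (nat_lit 88) (.e (nat_lit 65624) (nat_lit 12) (.e (nat_lit 385105) (nat_lit 50) (.e (nat_lit 786481) (nat_lit 30) (.e (nat_lit 368384) (nat_lit 0) .nil)))))) (.g (nat_lit 5) .nil .nil))) 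
(.lf (nat_lit 114353) (.g (nat_lit 1611) (.e (nat_lit 5906) (nat_lit 320) (.e (nat_lit 1200) (nat_lit 88) (.e (nat_lit 65619) (nat_lit 10) (.e (nat_lit 344169) (nat_lit 40) (.e (nat_lit 671747) (nat_lit 0) .nil))))) .nil)))) (.nd (nat_lit 4) (.nd (nat_lit 5) 
(.lf (nat_lit 114313) (.g (nat_lit 1726) (.e (nat_lit 5906) (nat_lit 320) (.e (nat_lit 1199) (nat_lit 88) (.e (nat_lit 65617) (nat_lit 10) (.e (nat_lit 344168) (nat_lit 40) (.e (nat_lit 671747) (nat_lit 0) .nil))))) .nil)) 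
(.lf (nat_lit 114345) (.g (nat_lit 1650) (.e (nat_lit 5906) (nat_lit 320) (.e (nat_lit 1200) (nat_lit 88) (.e (nat_lit 65619) (nat_lit 10) (.e (nat_lit 344097) (nat_lit 18) (.e (nat_lit 5906) (nat_lit 320) .nil))))) .nil))) (.nd (nat_lit 5) 
(.lf (nat_lit 114329) (.g (nat_lit 2105) (.e (nat_lit 5906) (nat_lit 320) (.e (nat_lit 1199) (nat_lit 88) (.e (nat_lit 65628) (nat_lit 14) (.e (nat_lit 401459) (nat_lit 13) (.e (nat_lit 483380) (nat_lit 23) .nil))))) .nil)) 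
(.lf (nat_lit 114361) (.g (nat_lit 1511) (.e (nat_lit 5906) (nat_lit 320) (.e (nat_lit 1200) (nat_lit 88) (.e (nat_lit 65628) (nat_lit 14) (.e (nat_lit 401437) (nat_lit 9) (.e (nat_lit 426533) (nat_lit 28) .nil))))) .nil))))) (.nd (nat_lit 3) (.nd (nat_lit 4) (.nd (nat_lit 5) 
(.lf (nat_lit 114309) (.g (nat_lit 2849) (.e (nat_lit 5906) (nat_lit 320) (.e (nat_lit 1199) (nat_lit 88) (.e (nat_lit 65610) (nat_lit 10) (.e (nat_lit 344169) (nat_lit 40) (.e (nat_lit 671748) (nat_lit 0) (.e (nat_lit 1589) (nat_lit 111) (.e (nat_lit 368384) (nat_lit 0) .nil))))))) (.g (nat_lit 6) .nil .nil))) 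
(.lf (nat_lit 114341) (.g (nat_lit 3401) (.e (nat_lit 5906) (nat_lit 320) (.e (nat_lit 1199) (nat_lit 88) (.e (nat_lit 65630) (nat_lit 14) (.e (nat_lit 401454) (nat_lit 12) (.e (nat_lit 475154) (nat_lit 20) .nil))))) .nil))) (.nd (nat_lit 5) 
(.lf (nat_lit 114325) (.g (nat_lit 1430) (.e (nat_lit 5906) (nat_lit 320) (.e (nat_lit 1199) (nat_lit 88) (.e (nat_lit 65628) (nat_lit 14) (.e (nat_lit 401436) (nat_lit 9) (.e (nat_lit 426544) (nat_lit 30) .nil))))) .nil)) 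
(.lf (nat_lit 114357) (.g (nat_lit 1899) (.e (nat_lit 5906) (nat_lit 320) (.e (nat_lit 1200) (nat_lit 88) (.e (nat_lit 65624) (nat_lit 12) (.e (nat_lit 385105) (nat_lit 50) (.e (nat_lit 786481) (nat_lit 30) .nil))))) .nil)))) (.nd (nat_lit 4) (.nd (nat_lit 5) 
(.lf (nat_lit 114317) (.g (nat_lit 1642) (.e (nat_lit 5906) (nat_lit 320) (.e (nat_lit 1199) (nat_lit 88) (.e (nat_lit 65617) (nat_lit 10) (.e (nat_lit 344169) (nat_lit 40) (.e (nat_lit 671747) (nat_lit 0) .nil))))) .nil)) 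
(.lf (nat_lit 114349) (.g (nat_lit 1679) (.e (nat_lit 5906) (nat_lit 320) (.e (nat_lit 1200) (nat_lit 88) (.e (nat_lit 65619) (nat_lit 10) (.e (nat_lit 344168) (nat_lit 40) (.e (nat_lit 671747) (nat_lit 0) .nil))))) .nil))) (.nd (nat_lit 5) 
(.lf (nat_lit 114333) (.g (nat_lit 2117) (.e (nat_lit 5906) (nat_lit 320) (.e (nat_lit 1199) (nat_lit 88) (.e (nat_lit 65630) (nat_lit 14) (.e (nat_lit 401436) (nat_lit 9) (.e (nat_lit 426544) (nat_lit 30) (.e (nat_lit 368384) (nat_lit 0) .nil)))))) (.g (nat_lit 5) .nil .nil))) 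
(.lf (nat_lit 114365) (.g (nat_lit 2065) (.e (nat_lit 5906) (nat_lit 320) (.e (nat_lit 1200) (nat_lit 88) (.e (nat_lit 65628) (nat_lit 14) (.e (nat_lit 401438) (nat_lit 9) (.e (nat_lit 426546) (nat_lit 30) (.e (nat_lit 368384) (nat_lit 0) .nil)))))) (.g (nat_lit 5) .nil .nil))))))) (.nd (nat_lit 2) (.nd (nat_lit 3) (.nd (nat_lit 4) (.nd (nat_lit 5) 
(.lf (nat_lit 114307) (.g (nat_lit 2461) (.e (nat_lit 5906) (nat_lit 320) (.e (nat_lit 1199) (nat_lit 88) (.e (nat_lit 65610) (nat_lit 10) (.e (nat_lit 344169) (nat_lit 40) (.e (nat_lit 671747) (nat_lit 0) (.e (nat_lit 1592) (nat_lit 111) (.e (nat_lit 368384) (nat_lit 0) .nil))))))) (.g (nat_lit 6) .nil .nil))) 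
(.lf (nat_lit 114339) (.g (nat_lit 2351) (.e (nat_lit 5906) (nat_lit 320) (.e (nat_lit 1199) (nat_lit 88) (.e (nat_lit 65630) (nat_lit 14) (.e (nat_lit 401438) (nat_lit 9) (.e (nat_lit 426544) (nat_lit 30) (.e (nat_lit 368384) (nat_lit 0) .nil)))))) (.g (nat_lit 5) .nil .nil)))) (.nd (nat_lit 5) 
(.lf (nat_lit 114323) (.g (nat_lit 2594) (.e (nat_lit 5906) (nat_lit 320) (.e (nat_lit 1199) (nat_lit 88) (.e (nat_lit 65624) (nat_lit 12) (.e (nat_lit 385106) (nat_lit 50) (.e (nat_lit 786481) (nat_lit 30) (.e (nat_lit 368384) (nat_lit 0) .nil)))))) (.g (nat_lit 5) .nil .nil))) 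
(.lf (nat_lit 114355) (.g (nat_lit 2910) (.e (nat_lit 5906) (nat_lit 320) (.e (nat_lit 1200) (nat_lit 88) (.e (nat_lit 65619) (nat_lit 10) (.e (nat_lit 344169) (nat_lit 40) (.e (nat_lit 671748) (nat_lit 0) (.e (nat_lit 1586) (nat_lit 111) (.e (nat_lit 368384) (nat_lit 0) .nil))))))) (.g (nat_lit 6) .nil .nil))))) (.nd (nat_lit 4) (.nd (nat_lit 5) 
(.lf (nat_lit 114315) (.g (nat_lit 1624) (.e (nat_lit 5906) (nat_lit 320) (.e (nat_lit 1199) (nat_lit 88) (.e (nat_lit 65617) (nat_lit 10) (.e (nat_lit 344168) (nat_lit 40) (.e (nat_lit 671760) (nat_lit 4) .nil))))) .nil)) 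
(.lf (nat_lit 114347) (.g (nat_lit 1740) (.e (nat_lit 5906) (nat_lit 320) (.e (nat_lit 1200) (nat_lit 88) (.e (nat_lit 65619) (nat_lit 10) (.e (nat_lit 344168) (nat_lit 40) (.e (nat_lit 671746) (nat_lit 0) (.e (nat_lit 1586) (nat_lit 111) (.e (nat_lit 368384) (nat_lit 0) .nil))))))) (.g (nat_lit 4) .nil .nil)))) (.nd (nat_lit 5) 
(.lf (nat_lit 114331) (.g (nat_lit 3119) (.e (nat_lit 5906) (nat_lit 320) (.e (nat_lit 1199) (nat_lit 88) (.e (nat_lit 65629) (nat_lit 14) (.e (nat_lit 401459) (nat_lit 13) (.e (nat_lit 483354) (nat_lit 17) .nil))))) .nil)) 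
(.lf (nat_lit 114363) (.g (nat_lit 2622) (.e (nat_lit 5906) (nat_lit 320) (.e (nat_lit 1200) (nat_lit 88) (.e (nat_lit 65628) (nat_lit 14) (.e (nat_lit 401437) (nat_lit 9) (.e (nat_lit 426546) (nat_lit 30) (.e (nat_lit 368384) (nat_lit 0) .nil)))))) (.g (nat_lit 5) .nil .nil)))))) (.nd (nat_lit 3) (.nd (nat_lit 4) (.nd (nat_lit 5) 
(.lf (nat_lit 114311) (.g (nat_lit 2383) (.e (nat_lit 5906) (nat_lit 320) (.e (nat_lit 1199) (nat_lit 88) (.e (nat_lit 65610) (nat_lit 10) (.e (nat_lit 344169) (nat_lit 40) (.e (nat_lit 671748) (nat_lit 0) (.e (nat_lit 1599) (nat_lit 111) (.e (nat_lit 368384) (nat_lit 0) .nil))))))) (.g (nat_lit 5) .nil .nil))) 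
(.lf (nat_lit 114343) (.g (nat_lit 1635) (.e (nat_lit 5906) (nat_lit 320) (.e (nat_lit 1199) (nat_lit 88) (.e (nat_lit 65630) (nat_lit 14) (.e (nat_lit 401459) (nat_lit 13) (.e (nat_lit 483386) (nat_lit 23) .nil))))) .nil))) (.nd (nat_lit 5) 
(.lf (nat_lit 114327) (.g (nat_lit 3163) (.e (nat_lit 5906) (nat_lit 320) (.e (nat_lit 1199) (nat_lit 88) (.e (nat_lit 65628) (nat_lit 14) (.e (nat_lit 401459) (nat_lit 13) (.e (nat_lit 483344) (nat_lit 17) (.e (nat_lit 6513) (nat_lit 346) (.e (nat_lit 57354) (nat_lit 0) .nil))))))) (.g (nat_lit 5) .nil .nil))) 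
(.lf (nat_lit 114359) (.g (nat_lit 2011) (.e (nat_lit 5906) (nat_lit 320) (.e (nat_lit 1200) (nat_lit 88) (.e (nat_lit 65628) (nat_lit 14) (.e (nat_lit 401436) (nat_lit 9) (.e (nat_lit 426544) (nat_lit 30) (.e (nat_lit 368384) (nat_lit 0) .nil)))))) (.g (nat_lit 5) .nil .nil))))) (.nd (nat_lit 4) (.nd (nat_lit 5) 
(.lf (nat_lit 114319) (.g (nat_lit 2278) (.e (nat_lit 5906) (nat_lit 320) (.e (nat_lit 1199) (nat_lit 88) (.e (nat_lit 65622) (nat_lit 12) (.e (nat_lit 385105) (nat_lit 50) (.e (nat_lit 786481) (nat_lit 30) (.e (nat_lit 368384) (nat_lit 0) .nil)))))) (.g (nat_lit 5) .nil .nil))) 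
(.lf (nat_lit 114351) (.g (nat_lit 1647) (.e (nat_lit 5906) (nat_lit 320) (.e (nat_lit 1200) (nat_lit 88) (.e (nat_lit 65619) (nat_lit 10) (.e (nat_lit 344169) (nat_lit 40) (.e (nat_lit 671746) (nat_lit 0) .nil))))) .nil))) (.nd (nat_lit 5) 
(.lf (nat_lit 114335) (.g (nat_lit 1591) (.e (nat_lit 5906) (nat_lit 320) (.e (nat_lit 1199) (nat_lit 88) (.e (nat_lit 65630) (nat_lit 14) (.e (nat_lit 401437) (nat_lit 9) (.e (nat_lit 426542) (nat_lit 29) .nil))))) .nil)) 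
(.lf (nat_lit 114367) (.g (nat_lit 1603) (.e (nat_lit 5906) (nat_lit 320) (.e (nat_lit 1200) (nat_lit 88) (.e (nat_lit 65628) (nat_lit 14) (.e (nat_lit 401458) (nat_lit 13) (.e (nat_lit 483383) (nat_lit 23) .nil))))) .nil))))))))

noncomputable def tv1543 : DT := (.nd (nat_lit 0) (.nd (nat_lit 1) (.nd (nat_lit 2) (.nd (nat_lit 3) (.nd (nat_lit 4) (.nd (nat_lit 5) 
(.lf (nat_lit 114368) (.g (nat_lit 3487) (.e (nat_lit 5906) (nat_lit 320) (.e (nat_lit 1200) (nat_lit 88) (.e (nat_lit 65628) (nat_lit 14) (.e (nat_lit 401459) (nat_lit 13) (.e (nat_lit 483344) (nat_lit 17) (.e (nat_lit 6513) (nat_lit 346) (.e (nat_lit 57354) (nat_lit 0) .nil))))))) (.g (nat_lit 5) .nil .nil))) 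
(.lf (nat_lit 114400) (.g (nat_lit 590) (.e (nat_lit 5906) (nat_lit 320) (.e (nat_lit 1209) (nat_lit 89) (.e (nat_lit 73791) (nat_lit 45) .nil))) .nil))) (.nd (nat_lit 5) 
(.lf (nat_lit 114384) (.g (nat_lit 2134) (.e (nat_lit 5906) (nat_lit 320) (.e (nat_lit 1209) (nat_lit 89) (.e (nat_lit 73781) (nat_lit 32) (.e (nat_lit 2856) (nat_lit 184) (.e (nat_lit 426546) (nat_lit 30) (.e (nat_lit 368384) (nat_lit 0) .nil)))))) (.g (nat_lit 4) .nil .nil))) 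
(.lf (nat_lit 114416) (.g (nat_lit 1693) (.e (nat_lit 5906) (nat_lit 320) (.e (nat_lit 1219) (nat_lit 90) (.e (nat_lit 81943) (nat_lit 20) (.e (nat_lit 2006) (nat_lit 138) (.e (nat_lit 671748) (nat_lit 0) (.e (nat_lit 1592) (nat_lit 111) (.e (nat_lit 368384) (nat_lit 0) .nil))))))) (.g (nat_lit 6) .nil .nil))))) (.nd (nat_lit 4) (.nd (nat_lit 5) 
(.lf (nat_lit 114376) (.g (nat_lit 2310) (.e (nat_lit 5906) (nat_lit 320) (.e (nat_lit 1200) (nat_lit 88) (.e (nat_lit 65630) (nat_lit 14) (.e (nat_lit 401437) (nat_lit 9) (.e (nat_lit 426544) (nat_lit 30) (.e (nat_lit 368384) (nat_lit 0) .nil)))))) (.g (nat_lit 5) .nil .nil))) 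
(.lf (nat_lit 114408) (.g (nat_lit 1854) (.e (nat_lit 5906) (nat_lit 320) (.e (nat_lit 1219) (nat_lit 90) (.e (nat_lit 81924) (nat_lit 0) (.e (nat_lit 3747) (nat_lit 228) (.e (nat_lit 786481) (nat_lit 30) (.e (nat_lit 368384) (nat_lit 0) .nil)))))) (.g (nat_lit 5) .nil .nil)))) (.nd (nat_lit 5) 
(.lf (nat_lit 114392) (.g (nat_lit 2284) (.e (nat_lit 5906) (nat_lit 320) (.e (nat_lit 1209) (nat_lit 89) (.e (nat_lit 73782) (nat_lit 32) (.e (nat_lit 2857) (nat_lit 184) (.e (nat_lit 426544) (nat_lit 30) (.e (nat_lit 368384) (nat_lit 0) .nil)))))) (.g (nat_lit 5) .nil .nil))) 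
(.lf (nat_lit 114424) (.g (nat_lit 1661) (.e (nat_lit 5906) (nat_lit 320) (.e (nat_lit 1220) (nat_lit 90) (.e (nat_lit 81931) (nat_lit 20) (.e (nat_lit 1999) (nat_lit 137) (.e (nat_lit 663567) (nat_lit 4) .nil))))) .nil))))) (.nd (nat_lit 3) (.nd (nat_lit 4) (.nd (nat_lit 5) 
(.lf (nat_lit 114372) (.g (nat_lit 3857) (.e (nat_lit 5906) (nat_lit 320) (.e (nat_lit 1200) (nat_lit 88) (.e (nat_lit 65629) (nat_lit 14) (.e (nat_lit 401459) (nat_lit 13) (.e (nat_lit 483344) (nat_lit 17) (.e (nat_lit 6513) (nat_lit 346) (.e (nat_lit 57354) (nat_lit 0) .nil))))))) (.g (nat_lit 5) .nil .nil))) 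
(.lf (nat_lit 114404) (.g (nat_lit 1527) (.e (nat_lit 5906) (nat_lit 320) (.e (nat_lit 1211) (nat_lit 89) (.e (nat_lit 73781) (nat_lit 32) (.e (nat_lit 2856) (nat_lit 184) (.e (nat_lit 426546) (nat_lit 30) (.e (nat_lit 368384) (nat_lit 0) .nil)))))) (.g (nat_lit 4) .nil .nil)))) (.nd (nat_lit 5) 
(.lf (nat_lit 114388) (.g (nat_lit 2079) (.e (nat_lit 5906) (nat_lit 320) (.e (nat_lit 1209) (nat_lit 89) (.e (nat_lit 73781) (nat_lit 32) (.e (nat_lit 3090) (nat_lit 191) (.e (nat_lit 483397) (nat_lit 25) .nil))))) .nil)) 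
(.lf (nat_lit 114420) (.g (nat_lit 2191) (.e (nat_lit 5906) (nat_lit 320) (.e (nat_lit 1219) (nat_lit 90) (.e (nat_lit 81957) (nat_lit 24) (.e (nat_lit 123182) (nat_lit 264) (.e (nat_lit 1187) (nat_lit 88) .nil))))) .nil)))) (.nd (nat_lit 4) (.nd (nat_lit 5) 
(.lf (nat_lit 114380) (.g (nat_lit 3099) (.e (nat_lit 5906) (nat_lit 320) (.e (nat_lit 1200) (nat_lit 88) (.e (nat_lit 65630) (nat_lit 14) (.e (nat_lit 401459) (nat_lit 13) (.e (nat_lit 483399) (nat_lit 25) (.e (nat_lit 368662) (nat_lit 18) .nil)))))) (.g (nat_lit 4) .nil .nil))) 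
(.lf (nat_lit 114412) (.g (nat_lit 1450) (.e (nat_lit 5906) (nat_lit 320) (.e (nat_lit 1219) (nat_lit 90) (.e (nat_lit 81943) (nat_lit 20) (.e (nat_lit 2004) (nat_lit 138) (.e (nat_lit 671748) (nat_lit 0) (.e (nat_lit 1592) (nat_lit 111) (.e (nat_lit 368384) (nat_lit 0) .nil))))))) (.g (nat_lit 5) .nil .nil)))) (.nd (nat_lit 5) 
(.lf (nat_lit 114396) (.g (nat_lit 484) (.e (nat_lit 5906) (nat_lit 320) (.e (nat_lit 1209) (nat_lit 89) (.e (nat_lit 81664) (nat_lit 36) .nil))) .nil)) 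
(.lf (nat_lit 114428) (.g (nat_lit 1741) (.e (nat_lit 5906) (nat_lit 320) (.e (nat_lit 1220) (nat_lit 90) (.e (nat_lit 81959) (nat_lit 24) (.e (nat_lit 123182) (nat_lit 264) .nil)))) .nil)))))) (.nd (nat_lit 2) (.nd (nat_lit 3) (.nd (nat_lit 4) (.nd (nat_lit 5) 
(.lf (nat_lit 114370) (.g (nat_lit 1776) (.e (nat_lit 5906) (nat_lit 320) (.e (nat_lit 1200) (nat_lit 88) (.e (nat_lit 65628) (nat_lit 14) (.e (nat_lit 401459) (nat_lit 13) (.e (nat_lit 483386) (nat_lit 23) .nil))))) .nil)) 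
(.lf (nat_lit 114402) (.g (nat_lit 1302) (.e (nat_lit 5906) (nat_lit 320) (.e (nat_lit 1210) (nat_lit 89) (.e (nat_lit 73781) (nat_lit 32) (.e (nat_lit 3090) (nat_lit 191) (.e (nat_lit 483395) (nat_lit 24) .nil))))) .nil))) (.nd (nat_lit 5) 
(.lf (nat_lit 114386) (.g (nat_lit 2099) (.e (nat_lit 5906) (nat_lit 320) (.e (nat_lit 1209) (nat_lit 89) (.e (nat_lit 73781) (nat_lit 32) (.e (nat_lit 2857) (nat_lit 184) (.e (nat_lit 426544) (nat_lit 30) (.e (nat_lit 368384) (nat_lit 0) .nil)))))) (.g (nat_lit 4) .nil .nil))) 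
(.lf (nat_lit 114418) (.g (nat_lit 1438) (.e (nat_lit 5906) (nat_lit 320) (.e (nat_lit 1219) (nat_lit 90) (.e (nat_lit 81949) (nat_lit 21) (.e (nat_lit 57870) (nat_lit 264) (.e (nat_lit 1200) (nat_lit 88) .nil))))) .nil)))) (.nd (nat_lit 4) (.nd (nat_lit 5) 
(.lf (nat_lit 114378) (.g (nat_lit 2680) (.e (nat_lit 5906) (nat_lit 320) (.e (nat_lit 1200) (nat_lit 88) (.e (nat_lit 65630) (nat_lit 14) (.e (nat_lit 401459) (nat_lit 13) (.e (nat_lit 483380) (nat_lit 23) .nil))))) .nil)) 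
(.lf (nat_lit 114410) (.g (nat_lit 1911) (.e (nat_lit 5906) (nat_lit 320) (.e (nat_lit 1219) (nat_lit 90) (.e (nat_lit 81935) (nat_lit 20) (.e (nat_lit 1998) (nat_lit 137) (.e (nat_lit 663554) (nat_lit 0) (.e (nat_lit 1580) (nat_lit 111) (.e (nat_lit 368384) (nat_lit 0) .nil))))))) (.g (nat_lit 6) .nil .nil)))) (.nd (nat_lit 5) 
(.lf (nat_lit 114394) (.g (nat_lit 2453) (.e (nat_lit 5906) (nat_lit 320) (.e (nat_lit 1209) (nat_lit 89) (.e (nat_lit 73782) (nat_lit 32) (.e (nat_lit 3090) (nat_lit 191) (.e (nat_lit 483396) (nat_lit 24) (.e (nat_lit 344100) (nat_lit 18) .nil)))))) (.g (nat_lit 4) .nil .nil))) 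
(.lf (nat_lit 114426) (.g (nat_lit 1439) (.e (nat_lit 5906) (nat_lit 320) (.e (nat_lit 1220) (nat_lit 90) (.e (nat_lit 81938) (nat_lit 20) (.e (nat_lit 2006) (nat_lit 138) .nil)))) .nil))))) (.nd (nat_lit 3) (.nd (nat_lit 4) (.nd (nat_lit 5) 
(.lf (nat_lit 114374) (.g (nat_lit 3668) (.e (nat_lit 5906) (nat_lit 320) (.e (nat_lit 1200) (nat_lit 88) (.e (nat_lit 65629) (nat_lit 14) (.e (nat_lit 401459) (nat_lit 13) (.e (nat_lit 483354) (nat_lit 17) (.e (nat_lit 7936) (nat_lit 346) (.e (nat_lit 57354) (nat_lit 0) .nil))))))) (.g (nat_lit 4) .nil .nil))) 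
(.lf (nat_lit 114406) (.g (nat_lit 234) (.e (nat_lit 5906) (nat_lit 320) (.e (nat_lit 1211) (nat_lit 89) (.e (nat_lit 81664) (nat_lit 36) .nil))) .nil))) (.nd (nat_lit 5) 
(.lf (nat_lit 114390) (.g (nat_lit 1454) (.e (nat_lit 5906) (nat_lit 320) (.e (nat_lit 1209) (nat_lit 89) (.e (nat_lit 73782) (nat_lit 32) (.e (nat_lit 2854) (nat_lit 184) (.e (nat_lit 426546) (nat_lit 30) (.e (nat_lit 368384) (nat_lit 0) .nil)))))) (.g (nat_lit 4) .nil .nil))) 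
(.lf (nat_lit 114422) (.g (nat_lit 540) (.e (nat_lit 5906) (nat_lit 320) (.e (nat_lit 1220) (nat_lit 90) (.e (nat_lit 89856) (nat_lit 8) .nil))) .nil)))) (.nd (nat_lit 4) (.nd (nat_lit 5) 
(.lf (nat_lit 114382) (.g (nat_lit 557) (.e (nat_lit 5906) (nat_lit 320) (.e (nat_lit 1209) (nat_lit 89) (.e (nat_lit 73781) (nat_lit 32) .nil))) .nil)) 
(.lf (nat_lit 114414) (.g (nat_lit 1504) (.e (nat_lit 5906) (nat_lit 320) (.e (nat_lit 1219) (nat_lit 90) (.e (nat_lit 81943) (nat_lit 20) (.e (nat_lit 2005) (nat_lit 138) (.e (nat_lit 671748) (nat_lit 0) (.e (nat_lit 1592) (nat_lit 111) (.e (nat_lit 368384) (nat_lit 0) .nil))))))) (.g (nat_lit 6) .nil .nil)))) (.nd (nat_lit 5) 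
(.lf (nat_lit 114398) (.g (nat_lit 254) (.e (nat_lit 5906) (nat_lit 320) (.e (nat_lit 1209) (nat_lit 89) (.e (nat_lit 73789) (nat_lit 45) .nil))) .nil)) 
(.lf (nat_lit 114430) (.g (nat_lit 2913) (.e (nat_lit 5906) (nat_lit 320) (.e (nat_lit 1220) (nat_lit 90) (.e (nat_lit 81959) (nat_lit 24) (.e (nat_lit 123182) (nat_lit 264) (.e (nat_lit 1201) (nat_lit 88) .nil))))) .nil))))))) (.nd (nat_lit 1) (.nd (nat_lit 2) (.nd (nat_lit 3) (.nd (nat_lit 4) (.nd (nat_lit 5) 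
(.lf (nat_lit 114369) (.g (nat_lit 2396) (.e (nat_lit 5906) (nat_lit 320) (.e (nat_lit 1200) (nat_lit 88) (.e (nat_lit 65628) (nat_lit 14) (.e (nat_lit 401459) (nat_lit 13) (.e (nat_lit 483380) (nat_lit 23) .nil))))) .nil)) 
(.lf (nat_lit 114401) (.g (nat_lit 490) (.e (nat_lit 5906) (nat_lit 320) (.e (nat_lit 1209) (nat_lit 89) (.e (nat_lit 73795) (nat_lit 47) .nil))) .nil))) (.nd (nat_lit 5) 
(.lf (nat_lit 114385) (.g (nat_lit 967) (.e (nat_lit 5906) (nat_lit 320) (.e (nat_lit 1209) (nat_lit 89) (.e (nat_lit 73781) (nat_lit 32) (.e (nat_lit 2857) (nat_lit 184) .nil)))) .nil)) 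
(.lf (nat_lit 114417) (.g (nat_lit 1965) (.e (nat_lit 5906) (nat_lit 320) (.e (nat_lit 1219) (nat_lit 90) (.e (nat_lit 81947) (nat_lit 20) (.e (nat_lit 2006) (nat_lit 138) (.e (nat_lit 671748) (nat_lit 0) (.e (nat_lit 1592) (nat_lit 111) (.e (nat_lit 368384) (nat_lit 0) .nil))))))) (.g (nat_lit 5) .nil .nil))))) (.nd (nat_lit 4) (.nd (nat_lit 5) 
(.lf (nat_lit 114377) (.g (nat_lit 3723) (.e (nat_lit 5906) (nat_lit 320) (.e (nat_lit 1200) (nat_lit 88) (.e (nat_lit 65630) (nat_lit 14) (.e (nat_lit 401459) (nat_lit 13) (.e (nat_lit 483344) (nat_lit 17) (.e (nat_lit 6513) (nat_lit 346) (.e (nat_lit 57354) (nat_lit 0) .nil))))))) (.g (nat_lit 5) .nil .nil))) 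
(.lf (nat_lit 114409) (.g (nat_lit 2082) (.e (nat_lit 5906) (nat_lit 320) (.e (nat_lit 1219) (nat_lit 90) (.e (nat_lit 81924) (nat_lit 0) (.e (nat_lit 3747) (nat_lit 228) (.e (nat_lit 786483) (nat_lit 30) (.e (nat_lit 368384) (nat_lit 0) .nil)))))) (.g (nat_lit 5) .nil .nil)))) (.nd (nat_lit 5) 
(.lf (nat_lit 114393) (.g (nat_lit 2036) (.e (nat_lit 5906) (nat_lit 320) (.e (nat_lit 1209) (nat_lit 89) (.e (nat_lit 73782) (nat_lit 32) (.e (nat_lit 2857) (nat_lit 184) (.e (nat_lit 426546) (nat_lit 30) (.e (nat_lit 368384) (nat_lit 0) .nil)))))) (.g (nat_lit 5) .nil .nil))) 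
(.lf (nat_lit 114425) (.g (nat_lit 1479) (.e (nat_lit 5906) (nat_lit 320) (.e (nat_lit 1220) (nat_lit 90) (.e (nat_lit 81938) (nat_lit 20) (.e (nat_lit 2005) (nat_lit 138) .nil)))) .nil))))) (.nd (nat_lit 3) (.nd (nat_lit 4) (.nd (nat_lit 5) 
(.lf (nat_lit 114373) (.g (nat_lit 3268) (.e (nat_lit 5906) (nat_lit 320) (.e (nat_lit 1200) (nat_lit 88) (.e (nat_lit 65629) (nat_lit 14) (.e (nat_lit 401459) (nat_lit 13) (.e (nat_lit 483347) (nat_lit 17) (.e (nat_lit 7936) (nat_lit 346) (.e (nat_lit 57354) (nat_lit 0) .nil))))))) (.g (nat_lit 4) .nil .nil))) 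
(.lf (nat_lit 114405) (.g (nat_lit 1305) (.e (nat_lit 5906) (nat_lit 320) (.e (nat_lit 1211) (nat_lit 89) (.e (nat_lit 73781) (nat_lit 32) (.e (nat_lit 2857) (nat_lit 184) (.e (nat_lit 426546) (nat_lit 30) (.e (nat_lit 368384) (nat_lit 0) .nil)))))) (.g (nat_lit 4) .nil .nil)))) (.nd (nat_lit 5) 
(.lf (nat_lit 114389) (.g (nat_lit 457) (.e (nat_lit 5906) (nat_lit 320) (.e (nat_lit 1209) (nat_lit 89) (.e (nat_lit 73782) (nat_lit 32) .nil))) .nil)) 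
(.lf (nat_lit 114421) (.g (nat_lit 1567) (.e (nat_lit 5906) (nat_lit 320) (.e (nat_lit 1219) (nat_lit 90) (.e (nat_lit 81957) (nat_lit 24) (.e (nat_lit 123197) (nat_lit 266) (.e (nat_lit 57426) (nat_lit 15) .nil))))) .nil)))) (.nd (nat_lit 4) (.nd (nat_lit 5) 
(.lf (nat_lit 114381) (.g (nat_lit 3165) (.e (nat_lit 5906) (nat_lit 320) (.e (nat_lit 1200) (nat_lit 88) (.e (nat_lit 65630) (nat_lit 14) (.e (nat_lit 401459) (nat_lit 13) (.e (nat_lit 483400) (nat_lit 25) (.e (nat_lit 368662) (nat_lit 18) .nil)))))) (.g (nat_lit 4) .nil .nil))) 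
(.lf (nat_lit 114413) (.g (nat_lit 1378) (.e (nat_lit 5906) (nat_lit 320) (.e (nat_lit 1219) (nat_lit 90) (.e (nat_lit 81943) (nat_lit 20) (.e (nat_lit 2005) (nat_lit 138) (.e (nat_lit 671747) (nat_lit 0) (.e (nat_lit 1592) (nat_lit 111) (.e (nat_lit 368384) (nat_lit 0) .nil))))))) (.g (nat_lit 5) .nil .nil)))) (.nd (nat_lit 5) 
(.lf (nat_lit 114397) (.g (nat_lit 484) (.e (nat_lit 5906) (nat_lit 320) (.e (nat_lit 1209) (nat_lit 89) (.e (nat_lit 81664) (nat_lit 39) .nil))) .nil)) 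
(.lf (nat_lit 114429) (.g (nat_lit 3433) (.e (nat_lit 5906) (nat_lit 320) (.e (nat_lit 1220) (nat_lit 90) (.e (nat_lit 81959) (nat_lit 24) (.e (nat_lit 123182) (nat_lit 264) (.e (nat_lit 1187) (nat_lit 88) .nil))))) .nil)))))) (.nd (nat_lit 2) (.nd (nat_lit 3) (.nd (nat_lit 4) (.nd (nat_lit 5) 
(.lf (nat_lit 114371) (.g (nat_lit 3161) (.e (nat_lit 5906) (nat_lit 320) (.e (nat_lit 1200) (nat_lit 88) (.e (nat_lit 65628) (nat_lit 14) (.e (nat_lit 401459) (nat_lit 13) (.e (nat_lit 483397) (nat_lit 25) (.e (nat_lit 368662) (nat_lit 18) .nil)))))) (.g (nat_lit 4) .nil .nil))) 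
(.lf (nat_lit 114403) (.g (nat_lit 1705) (.e (nat_lit 5906) (nat_lit 320) (.e (nat_lit 1211) (nat_lit 89) (.e (nat_lit 73781) (nat_lit 32) (.e (nat_lit 2856) (nat_lit 184) (.e (nat_lit 426544) (nat_lit 30) (.e (nat_lit 368384) (nat_lit 0) .nil)))))) (.g (nat_lit 5) .nil .nil)))) (.nd (nat_lit 5) 
(.lf (nat_lit 114387) (.g (nat_lit 1879) (.e (nat_lit 5906) (nat_lit 320) (.e (nat_lit 1209) (nat_lit 89) (.e (nat_lit 73781) (nat_lit 32) (.e (nat_lit 2857) (nat_lit 184) (.e (nat_lit 426546) (nat_lit 30) (.e (nat_lit 368384) (nat_lit 0) .nil)))))) (.g (nat_lit 4) .nil .nil))) 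
(.lf (nat_lit 114419) (.g (nat_lit 1987) (.e (nat_lit 5906) (nat_lit 320) (.e (nat_lit 1219) (nat_lit 90) (.e (nat_lit 81950) (nat_lit 21) (.e (nat_lit 57873) (nat_lit 264) (.e (nat_lit 1189) (nat_lit 88) .nil))))) .nil)))) (.nd (nat_lit 4) (.nd (nat_lit 5) 
(.lf (nat_lit 114379) (.g (nat_lit 3013) (.e (nat_lit 5906) (nat_lit 320) (.e (nat_lit 1200) (nat_lit 88) (.e (nat_lit 65630) (nat_lit 14) (.e (nat_lit 401459) (nat_lit 13) (.e (nat_lit 483398) (nat_lit 25) (.e (nat_lit 368662) (nat_lit 18) .nil)))))) (.g (nat_lit 4) .nil .nil))) 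
(.lf (nat_lit 114411) (.g (nat_lit 1737) (.e (nat_lit 5906) (nat_lit 320) (.e (nat_lit 1219) (nat_lit 90) (.e (nat_lit 81935) (nat_lit 20) (.e (nat_lit 1998) (nat_lit 137) (.e (nat_lit 663554) (nat_lit 0) (.e (nat_lit 1596) (nat_lit 111) (.e (nat_lit 368384) (nat_lit 0) .nil))))))) (.g (nat_lit 5) .nil .nil)))) (.nd (nat_lit 5) 
(.lf (nat_lit 114395) (.g (nat_lit 1919) (.e (nat_lit 5906) (nat_lit 320) (.e (nat_lit 1209) (nat_lit 89) (.e (nat_lit 73782) (nat_lit 32) (.e (nat_lit 3090) (nat_lit 191) (.e (nat_lit 483397) (nat_lit 25) .nil))))) .nil)) 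
(.lf (nat_lit 114427) (.g (nat_lit 2786) (.e (nat_lit 5906) (nat_lit 320) (.e (nat_lit 1220) (nat_lit 90) (.e (nat_lit 81957) (nat_lit 24) (.e (nat_lit 123182) (nat_lit 264) (.e (nat_lit 1201) (nat_lit 88) .nil))))) .nil))))) (.nd (nat_lit 3) (.nd (nat_lit 4) (.nd (nat_lit 5) 
(.lf (nat_lit 114375) (.g (nat_lit 2441) (.e (nat_lit 5906) (nat_lit 320) (.e (nat_lit 1200) (nat_lit 88) (.e (nat_lit 65629) (nat_lit 14) (.e (nat_lit 401459) (nat_lit 13) (.e (nat_lit 483380) (nat_lit 23) .nil))))) .nil)) 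
(.lf (nat_lit 114407) (.g (nat_lit 234) (.e (nat_lit 5906) (nat_lit 320) (.e (nat_lit 1211) (nat_lit 89) (.e (nat_lit 81664) (nat_lit 39) .nil))) .nil))) (.nd (nat_lit 5) 
(.lf (nat_lit 114391) (.g (nat_lit 1556) (.e (nat_lit 5906) (nat_lit 320) (.e (nat_lit 1209) (nat_lit 89) (.e (nat_lit 73782) (nat_lit 32) (.e (nat_lit 2855) (nat_lit 184) (.e (nat_lit 426546) (nat_lit 30) (.e (nat_lit 368384) (nat_lit 0) .nil)))))) (.g (nat_lit 4) .nil .nil))) 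
(.lf (nat_lit 114423) (.g (nat_lit 1630) (.e (nat_lit 5906) (nat_lit 320) (.e (nat_lit 1220) (nat_lit 90) (.e (nat_lit 81931) (nat_lit 20) (.e (nat_lit 1994) (nat_lit 137) (.e (nat_lit 663567) (nat_lit 4) .nil))))) .nil)))) (.nd (nat_lit 4) (.nd (nat_lit 5) 
(.lf (nat_lit 114383) (.g (nat_lit 2321) (.e (nat_lit 5906) (nat_lit 320) (.e (nat_lit 1209) (nat_lit 89) (.e (nat_lit 73781) (nat_lit 32) (.e (nat_lit 2856) (nat_lit 184) (.e (nat_lit 426544) (nat_lit 30) (.e (nat_lit 368384) (nat_lit 0) .nil)))))) (.g (nat_lit 4) .nil .nil))) 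
(.lf (nat_lit 114415) (.g (nat_lit 2057) (.e (nat_lit 5906) (nat_lit 320) (.e (nat_lit 1219) (nat_lit 90) (.e (nat_lit 81943) (nat_lit 20) (.e (nat_lit 2006) (nat_lit 138) (.e (nat_lit 671748) (nat_lit 0) (.e (nat_lit 1586) (nat_lit 111) (.e (nat_lit 368384) (nat_lit 0) .nil))))))) (.g (nat_lit 6) .nil .nil)))) (.nd (nat_lit 5) 
(.lf (nat_lit 114399) (.g (nat_lit 967) (.e (nat_lit 5906) (nat_lit 320) (.e (nat_lit 1209) (nat_lit 89) (.e (nat_lit 73789) (nat_lit 45) (.e (nat_lit 1074) (nat_lit 81) (.e (nat_lit 5629) (nat_lit 312) (.e (nat_lit 320) (nat_lit 24) (.e (nat_lit 368384) (nat_lit 0) .nil))))))) (.g (nat_lit 4) .nil .nil))) 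
(.lf (nat_lit 114431) (.g (nat_lit 3054) (.e (nat_lit 5906) (nat_lit 320) (.e (nat_lit 1220) (nat_lit 90) (.e (nat_lit 81959) (nat_lit 24) (.e (nat_lit 123183) (nat_lit 264) (.e (nat_lit 1201) (nat_lit 88) (.e (nat_lit 65610) (nat_lit 10) (.e (nat_lit 344097) (nat_lit 18) .nil))))))) (.g (nat_lit 4) .nil .nil)))))))))

noncomputable def tv1544 : DT := (.nd (nat_lit 0) (.nd (nat_lit 1) (.nd (nat_lit 2) (.nd (nat_lit 3) (.nd (nat_lit 4) (.nd (nat_lit 5) 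
(.lf (nat_lit 114432) (.g (nat_lit 3231) (.e (nat_lit 5906) (nat_lit 320) (.e (nat_lit 1220) (nat_lit 90) (.e (nat_lit 81959) (nat_lit 24) (.e (nat_lit 123185) (nat_lit 264) (.e (nat_lit 1201) (nat_lit 88) (.e (nat_lit 65610) (nat_lit 10) (.e (nat_lit 344097) (nat_lit 18) .nil))))))) (.g (nat_lit 5) .nil .nil))) 
(.lf (nat_lit 114464) (.g (nat_lit 5254) (.e (nat_lit 5906) (nat_lit 320) (.e (nat_lit 1221) (nat_lit 90) (.e (nat_lit 81957) (nat_lit 24) (.e (nat_lit 123182) (nat_lit 264) (.e (nat_lit 1201) (nat_lit 88) (.e (nat_lit 65610) (nat_lit 10) (.e (nat_lit 344097) (nat_lit 18) .nil))))))) (.g (nat_lit 7) .nil .nil)))) (.nd (nat_lit 5) 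
(.lf (nat_lit 114448) (.g (nat_lit 2014) (.e (nat_lit 5906) (nat_lit 320) (.e (nat_lit 1221) (nat_lit 90) (.e (nat_lit 81938) (nat_lit 20) (.e (nat_lit 2005) (nat_lit 138) (.e (nat_lit 671748) (nat_lit 0) (.e (nat_lit 1598) (nat_lit 111) (.e (nat_lit 368384) (nat_lit 0) .nil))))))) (.g (nat_lit 5) .nil .nil))) 
(.lf (nat_lit 114480) (.g (nat_lit 1898) (.e (nat_lit 5906) (nat_lit 320) (.e (nat_lit 1221) (nat_lit 90) (.e (nat_lit 81959) (nat_lit 24) (.e (nat_lit 123182) (nat_lit 264) (.e (nat_lit 1224) (nat_lit 90) (.e (nat_lit 81928) (nat_lit 20) (.e (nat_lit 1023) (nat_lit 81) .nil))))))) (.g (nat_lit 4) .nil .nil))))) (.nd (nat_lit 4) (.nd (nat_lit 5) 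
(.lf (nat_lit 114440) (.g (nat_lit 1540) (.e (nat_lit 5906) (nat_lit 320) (.e (nat_lit 1221) (nat_lit 90) (.e (nat_lit 81933) (nat_lit 20) (.e (nat_lit 1998) (nat_lit 137) (.e (nat_lit 663554) (nat_lit 0) (.e (nat_lit 1580) (nat_lit 111) (.e (nat_lit 368384) (nat_lit 0) .nil))))))) (.g (nat_lit 4) .nil .nil))) 
(.lf (nat_lit 114472) (.g (nat_lit 2873) (.e (nat_lit 5906) (nat_lit 320) (.e (nat_lit 1221) (nat_lit 90) (.e (nat_lit 81959) (nat_lit 24) (.e (nat_lit 123182) (nat_lit 264) (.e (nat_lit 1016) (nat_lit 81) (.e (nat_lit 1592) (nat_lit 111) (.e (nat_lit 368384) (nat_lit 0) .nil))))))) (.g (nat_lit 6) .nil .nil)))) (.nd (nat_lit 5) 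
(.lf (nat_lit 114456) (.g (nat_lit 1095) (.e (nat_lit 5906) (nat_lit 320) (.e (nat_lit 1221) (nat_lit 90) (.e (nat_lit 81947) (nat_lit 20) (.e (nat_lit 2005) (nat_lit 138) .nil)))) .nil)) 
(.lf (nat_lit 114488) (.g (nat_lit 2409) (.e (nat_lit 5906) (nat_lit 320) (.e (nat_lit 1221) (nat_lit 90) (.e (nat_lit 81959) (nat_lit 24) (.e (nat_lit 123194) (nat_lit 266) (.e (nat_lit 57427) (nat_lit 15) (.e (nat_lit 368384) (nat_lit 0) .nil)))))) (.g (nat_lit 5) .nil .nil)))))) (.nd (nat_lit 3) (.nd (nat_lit 4) (.nd (nat_lit 5) 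
(.lf (nat_lit 114436) (.g (nat_lit 468) (.e (nat_lit 5906) (nat_lit 320) (.e (nat_lit 1221) (nat_lit 90) (.e (nat_lit 89856) (nat_lit 4) .nil))) .nil)) 
(.lf (nat_lit 114468) (.g (nat_lit 1436) (.e (nat_lit 5906) (nat_lit 320) (.e (nat_lit 1221) (nat_lit 90) (.e (nat_lit 81959) (nat_lit 24) (.e (nat_lit 123182) (nat_lit 264) (.e (nat_lit 999) (nat_lit 81) .nil))))) .nil))) (.nd (nat_lit 5) 
(.lf (nat_lit 114452) (.g (nat_lit 2412) (.e (nat_lit 5906) (nat_lit 320) (.e (nat_lit 1221) (nat_lit 90) (.e (nat_lit 81938) (nat_lit 20) (.e (nat_lit 2006) (nat_lit 138) (.e (nat_lit 671748) (nat_lit 0) (.e (nat_lit 1592) (nat_lit 111) (.e (nat_lit 368384) (nat_lit 0) .nil))))))) (.g (nat_lit 5) .nil .nil))) 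
(.lf (nat_lit 114484) (.g (nat_lit 1335) (.e (nat_lit 5906) (nat_lit 320) (.e (nat_lit 1221) (nat_lit 90) (.e (nat_lit 81959) (nat_lit 24) (.e (nat_lit 123191) (nat_lit 264) .nil)))) .nil)))) (.nd (nat_lit 4) (.nd (nat_lit 5) 
(.lf (nat_lit 114444) (.g (nat_lit 2169) (.e (nat_lit 5906) (nat_lit 320) (.e (nat_lit 1221) (nat_lit 90) (.e (nat_lit 81938) (nat_lit 20) (.e (nat_lit 2005) (nat_lit 138) (.e (nat_lit 671747) (nat_lit 0) (.e (nat_lit 1592) (nat_lit 111) (.e (nat_lit 368384) (nat_lit 0) .nil))))))) (.g (nat_lit 5) .nil .nil))) 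
(.lf (nat_lit 114476) (.g (nat_lit 1191) (.e (nat_lit 5906) (nat_lit 320) (.e (nat_lit 1221) (nat_lit 90) (.e (nat_lit 81959) (nat_lit 24) (.e (nat_lit 123182) (nat_lit 264) (.e (nat_lit 1193) (nat_lit 88) .nil))))) .nil))) (.nd (nat_lit 5) 
(.lf (nat_lit 114460) (.g (nat_lit 2587) (.e (nat_lit 5906) (nat_lit 320) (.e (nat_lit 1221) (nat_lit 90) (.e (nat_lit 81947) (nat_lit 20) (.e (nat_lit 2005) (nat_lit 138) (.e (nat_lit 671748) (nat_lit 0) (.e (nat_lit 1598) (nat_lit 111) (.e (nat_lit 360452) (nat_lit 0) .nil))))))) (.g (nat_lit 5) .nil .nil))) 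
(.lf (nat_lit 114492) (.g (nat_lit 4153) (.e (nat_lit 5906) (nat_lit 320) (.e (nat_lit 1221) (nat_lit 90) (.e (nat_lit 81959) (nat_lit 24) (.e (nat_lit 123195) (nat_lit 266) (.e (nat_lit 57409) (nat_lit 12) (.e (nat_lit 336182) (nat_lit 11) (.e (nat_lit 376576) (nat_lit 18) .nil))))))) (.g (nat_lit 6) .nil .nil))))))) (.nd (nat_lit 2) (.nd (nat_lit 3) (.nd (nat_lit 4) (.nd (nat_lit 5) 
(.lf (nat_lit 114434) (.g (nat_lit 2382) (.e (nat_lit 5906) (nat_lit 320) (.e (nat_lit 1220) (nat_lit 90) (.e (nat_lit 81959) (nat_lit 24) (.e (nat_lit 123197) (nat_lit 266) (.e (nat_lit 57426) (nat_lit 15) .nil))))) .nil)) 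
(.lf (nat_lit 114466) (.g (nat_lit 378) (.e (nat_lit 5906) (nat_lit 320) (.e (nat_lit 1221) (nat_lit 90) (.e (nat_lit 81959) (nat_lit 24) .nil))) .nil))) (.nd (nat_lit 5) 
(.lf (nat_lit 114450) (.g (nat_lit 2815) (.e (nat_lit 5906) (nat_lit 320) (.e (nat_lit 1221) (nat_lit 90) (.e (nat_lit 81938) (nat_lit 20) (.e (nat_lit 2006) (nat_lit 138) (.e (nat_lit 671748) (nat_lit 0) (.e (nat_lit 1586) (nat_lit 111) (.e (nat_lit 368384) (nat_lit 0) .nil))))))) (.g (nat_lit 6) .nil .nil))) 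
(.lf (nat_lit 114482) (.g (nat_lit 1719) (.e (nat_lit 5906) (nat_lit 320) (.e (nat_lit 1221) (nat_lit 90) (.e (nat_lit 81959) (nat_lit 24) (.e (nat_lit 123182) (nat_lit 264) (.e (nat_lit 1224) (nat_lit 90) (.e (nat_lit 81947) (nat_lit 20) (.e (nat_lit 1042) (nat_lit 81) .nil))))))) (.g (nat_lit 4) .nil .nil))))) (.nd (nat_lit 4) (.nd (nat_lit 5) 
(.lf (nat_lit 114442) (.g (nat_lit 2426) (.e (nat_lit 5906) (nat_lit 320) (.e (nat_lit 1221) (nat_lit 90) (.e (nat_lit 81938) (nat_lit 20) (.e (nat_lit 2003) (nat_lit 138) (.e (nat_lit 671747) (nat_lit 0) (.e (nat_lit 1592) (nat_lit 111) (.e (nat_lit 368384) (nat_lit 0) .nil))))))) (.g (nat_lit 5) .nil .nil))) 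
(.lf (nat_lit 114474) (.g (nat_lit 2058) (.e (nat_lit 5906) (nat_lit 320) (.e (nat_lit 1221) (nat_lit 90) (.e (nat_lit 81959) (nat_lit 24) (.e (nat_lit 123182) (nat_lit 264) (.e (nat_lit 1016) (nat_lit 81) (.e (nat_lit 1598) (nat_lit 111) (.e (nat_lit 360452) (nat_lit 0) .nil))))))) (.g (nat_lit 4) .nil .nil)))) (.nd (nat_lit 5) 
(.lf (nat_lit 114458) (.g (nat_lit 2344) (.e (nat_lit 5906) (nat_lit 320) (.e (nat_lit 1221) (nat_lit 90) (.e (nat_lit 81947) (nat_lit 20) (.e (nat_lit 2005) (nat_lit 138) (.e (nat_lit 671748) (nat_lit 0) (.e (nat_lit 1586) (nat_lit 111) (.e (nat_lit 368384) (nat_lit 0) .nil))))))) (.g (nat_lit 4) .nil .nil))) 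
(.lf (nat_lit 114490) (.g (nat_lit 2255) (.e (nat_lit 5906) (nat_lit 320) (.e (nat_lit 1221) (nat_lit 90) (.e (nat_lit 81959) (nat_lit 24) (.e (nat_lit 123195) (nat_lit 266) (.e (nat_lit 57354) (nat_lit 0) (.e (nat_lit 7936) (nat_lit 348) (.e (nat_lit 81664) (nat_lit 0) .nil))))))) (.g (nat_lit 5) .nil .nil)))))) (.nd (nat_lit 3) (.nd (nat_lit 4) (.nd (nat_lit 5) 
(.lf (nat_lit 114438) (.g (nat_lit 2075) (.e (nat_lit 5906) (nat_lit 320) (.e (nat_lit 1221) (nat_lit 90) (.e (nat_lit 81931) (nat_lit 20) (.e (nat_lit 1998) (nat_lit 137) (.e (nat_lit 663554) (nat_lit 0) (.e (nat_lit 1580) (nat_lit 111) (.e (nat_lit 368384) (nat_lit 0) .nil))))))) (.g (nat_lit 5) .nil .nil))) 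
(.lf (nat_lit 114470) (.g (nat_lit 2788) (.e (nat_lit 5906) (nat_lit 320) (.e (nat_lit 1221) (nat_lit 90) (.e (nat_lit 81959) (nat_lit 24) (.e (nat_lit 123182) (nat_lit 264) (.e (nat_lit 1016) (nat_lit 81) (.e (nat_lit 1580) (nat_lit 111) (.e (nat_lit 368384) (nat_lit 0) .nil))))))) (.g (nat_lit 6) .nil .nil)))) (.nd (nat_lit 5) 
(.lf (nat_lit 114454) (.g (nat_lit 2252) (.e (nat_lit 5906) (nat_lit 320) (.e (nat_lit 1221) (nat_lit 90) (.e (nat_lit 81938) (nat_lit 20) (.e (nat_lit 2006) (nat_lit 138) (.e (nat_lit 671748) (nat_lit 0) (.e (nat_lit 1598) (nat_lit 111) (.e (nat_lit 368384) (nat_lit 0) .nil))))))) (.g (nat_lit 5) .nil .nil))) 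
(.lf (nat_lit 114486) (.g (nat_lit 3309) (.e (nat_lit 5906) (nat_lit 320) (.e (nat_lit 1221) (nat_lit 90) (.e (nat_lit 81959) (nat_lit 24) (.e (nat_lit 123194) (nat_lit 266) (.e (nat_lit 57411) (nat_lit 12) (.e (nat_lit 336182) (nat_lit 11) (.e (nat_lit 376576) (nat_lit 18) .nil))))))) (.g (nat_lit 6) .nil .nil))))) (.nd (nat_lit 4) (.nd (nat_lit 5) 
(.lf (nat_lit 114446) (.g (nat_lit 2248) (.e (nat_lit 5906) (nat_lit 320) (.e (nat_lit 1221) (nat_lit 90) (.e (nat_lit 81938) (nat_lit 20) (.e (nat_lit 2005) (nat_lit 138) (.e (nat_lit 671748) (nat_lit 0) (.e (nat_lit 1592) (nat_lit 111) (.e (nat_lit 368384) (nat_lit 0) .nil))))))) (.g (nat_lit 5) .nil .nil))) 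
(.lf (nat_lit 114478) (.g (nat_lit 1883) (.e (nat_lit 5906) (nat_lit 320) (.e (nat_lit 1221) (nat_lit 90) (.e (nat_lit 81959) (nat_lit 24) (.e (nat_lit 123182) (nat_lit 264) (.e (nat_lit 7936) (nat_lit 88) .nil))))) .nil))) (.nd (nat_lit 5) 
(.lf (nat_lit 114462) (.g (nat_lit 2383) (.e (nat_lit 5906) (nat_lit 320) (.e (nat_lit 1221) (nat_lit 90) (.e (nat_lit 81947) (nat_lit 20) (.e (nat_lit 2006) (nat_lit 138) (.e (nat_lit 671748) (nat_lit 0) (.e (nat_lit 1589) (nat_lit 111) (.e (nat_lit 368384) (nat_lit 0) .nil))))))) (.g (nat_lit 4) .nil .nil))) 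
(.lf (nat_lit 114494) (.g (nat_lit 3785) (.e (nat_lit 5906) (nat_lit 320) (.e (nat_lit 1221) (nat_lit 90) (.e (nat_lit 81959) (nat_lit 24) (.e (nat_lit 123195) (nat_lit 266) (.e (nat_lit 57412) (nat_lit 12) (.e (nat_lit 336176) (nat_lit 10) (.e (nat_lit 352000) (nat_lit 18) .nil))))))) (.g (nat_lit 6) .nil .nil)))))))) 
(.nd (nat_lit 1) (.nd (nat_lit 2) (.nd (nat_lit 3) (.nd (nat_lit 4) (.nd (nat_lit 5) 
(.lf (nat_lit 114433) (.g (nat_lit 1639) (.e (nat_lit 5906) (nat_lit 320) (.e (nat_lit 1220) (nat_lit 90) (.e (nat_lit 81959) (nat_lit 24) (.e (nat_lit 123195) (nat_lit 266) .nil)))) .nil)) 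
(.lf (nat_lit 114465) (.g (nat_lit 3527) (.e (nat_lit 5906) (nat_lit 320) (.e (nat_lit 1221) (nat_lit 90) (.e (nat_lit 81958) (nat_lit 24) (.e (nat_lit 123184) (nat_lit 264) (.e (nat_lit 1201) (nat_lit 88) (.e (nat_lit 65610) (nat_lit 10) (.e (nat_lit 344097) (nat_lit 18) .nil))))))) (.g (nat_lit 7) .nil .nil)))) (.nd (nat_lit 5) 
(.lf (nat_lit 114449) (.g (nat_lit 1919) (.e (nat_lit 5906) (nat_lit 320) (.e (nat_lit 1221) (nat_lit 90) (.e (nat_lit 81938) (nat_lit 20) (.e (nat_lit 2005) (nat_lit 138) (.e (nat_lit 671748) (nat_lit 0) (.e (nat_lit 1599) (nat_lit 111) (.e (nat_lit 368384) (nat_lit 0) .nil))))))) (.g (nat_lit 5) .nil .nil))) 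
(.lf (nat_lit 114481) (.g (nat_lit 1751) (.e (nat_lit 5906) (nat_lit 320) (.e (nat_lit 1221) (nat_lit 90) (.e (nat_lit 81959) (nat_lit 24) (.e (nat_lit 123182) (nat_lit 264) (.e (nat_lit 1224) (nat_lit 90) (.e (nat_lit 81946) (nat_lit 20) (.e (nat_lit 982) (nat_lit 81) .nil))))))) (.g (nat_lit 4) .nil .nil))))) (.nd (nat_lit 4) (.nd (nat_lit 5) 
(.lf (nat_lit 114441) (.g (nat_lit 1397) (.e (nat_lit 5906) (nat_lit 320) (.e (nat_lit 1221) (nat_lit 90) (.e (nat_lit 81938) (nat_lit 20) (.e (nat_lit 991) (nat_lit 81) (.e (nat_lit 5862) (nat_lit 320) .nil))))) .nil)) 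
(.lf (nat_lit 114473) (.g (nat_lit 2957) (.e (nat_lit 5906) (nat_lit 320) (.e (nat_lit 1221) (nat_lit 90) (.e (nat_lit 81959) (nat_lit 24) (.e (nat_lit 123182) (nat_lit 264) (.e (nat_lit 1016) (nat_lit 81) (.e (nat_lit 1596) (nat_lit 111) (.e (nat_lit 368384) (nat_lit 0) .nil))))))) (.g (nat_lit 6) .nil .nil)))) (.nd (nat_lit 5) 
(.lf (nat_lit 114457) (.g (nat_lit 1618) (.e (nat_lit 5906) (nat_lit 320) (.e (nat_lit 1221) (nat_lit 90) (.e (nat_lit 81947) (nat_lit 20) (.e (nat_lit 2005) (nat_lit 138) (.e (nat_lit 671747) (nat_lit 0) .nil))))) .nil)) 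
(.lf (nat_lit 114489) (.g (nat_lit 955) (.e (nat_lit 5906) (nat_lit 320) (.e (nat_lit 1221) (nat_lit 90) (.e (nat_lit 81959) (nat_lit 24) (.e (nat_lit 123195) (nat_lit 266) .nil)))) .nil))))) (.nd (nat_lit 3) (.nd (nat_lit 4) (.nd (nat_lit 5) 
(.lf (nat_lit 114437) (.g (nat_lit 468) (.e (nat_lit 5906) (nat_lit 320) (.e (nat_lit 1221) (nat_lit 90) (.e (nat_lit 89856) (nat_lit 8) .nil))) .nil)) 
(.lf (nat_lit 114469) (.g (nat_lit 1744) (.e (nat_lit 5906) (nat_lit 320) (.e (nat_lit 1221) (nat_lit 90) (.e (nat_lit 81959) (nat_lit 24) (.e (nat_lit 123182) (nat_lit 264) (.e (nat_lit 1000) (nat_lit 81) .nil))))) .nil))) (.nd (nat_lit 5) 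
(.lf (nat_lit 114453) (.g (nat_lit 2332) (.e (nat_lit 5906) (nat_lit 320) (.e (nat_lit 1221) (nat_lit 90) (.e (nat_lit 81938) (nat_lit 20) (.e (nat_lit 2006) (nat_lit 138) (.e (nat_lit 671748) (nat_lit 0) (.e (nat_lit 1595) (nat_lit 111) (.e (nat_lit 368384) (nat_lit 0) .nil))))))) (.g (nat_lit 5) .nil .nil))) 
(.lf (nat_lit 114485) (.g (nat_lit 1335) (.e (nat_lit 5906) (nat_lit 320) (.e (nat_lit 1221) (nat_lit 90) (.e (nat_lit 81959) (nat_lit 24) (.e (nat_lit 123194) (nat_lit 266) .nil)))) .nil)))) (.nd (nat_lit 4) (.nd (nat_lit 5) 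
(.lf (nat_lit 114445) (.g (nat_lit 1647) (.e (nat_lit 5906) (nat_lit 320) (.e (nat_lit 1221) (nat_lit 90) (.e (nat_lit 81938) (nat_lit 20) (.e (nat_lit 2005) (nat_lit 138) (.e (nat_lit 671747) (nat_lit 0) (.e (nat_lit 1595) (nat_lit 111) (.e (nat_lit 368384) (nat_lit 0) .nil))))))) (.g (nat_lit 4) .nil .nil))) 
(.lf (nat_lit 114477) (.g (nat_lit 1379) (.e (nat_lit 5906) (nat_lit 320) (.e (nat_lit 1221) (nat_lit 90) (.e (nat_lit 81959) (nat_lit 24) (.e (nat_lit 123182) (nat_lit 264) (.e (nat_lit 1201) (nat_lit 88) (.e (nat_lit 65617) (nat_lit 10) (.e (nat_lit 352000) (nat_lit 18) .nil))))))) (.g (nat_lit 4) .nil .nil)))) (.nd (nat_lit 5) 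
(.lf (nat_lit 114461) (.g (nat_lit 1088) (.e (nat_lit 5906) (nat_lit 320) (.e (nat_lit 1221) (nat_lit 90) (.e (nat_lit 81947) (nat_lit 20) (.e (nat_lit 2006) (nat_lit 138) .nil)))) .nil)) 
(.lf (nat_lit 114493) (.g (nat_lit 3225) (.e (nat_lit 5906) (nat_lit 320) (.e (nat_lit 1221) (nat_lit 90) (.e (nat_lit 81959) (nat_lit 24) (.e (nat_lit 123195) (nat_lit 266) (.e (nat_lit 57412) (nat_lit 12) (.e (nat_lit 336176) (nat_lit 10) (.e (nat_lit 344087) (nat_lit 18) .nil))))))) (.g (nat_lit 5) .nil .nil))))))) (.nd (nat_lit 2) (.nd (nat_lit 3) (.nd (nat_lit 4) (.nd (nat_lit 5) 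
(.lf (nat_lit 114435) (.g (nat_lit 1824) (.e (nat_lit 5906) (nat_lit 320) (.e (nat_lit 1220) (nat_lit 90) (.e (nat_lit 81959) (nat_lit 24) (.e (nat_lit 123198) (nat_lit 266) .nil)))) .nil)) 
(.lf (nat_lit 114467) (.g (nat_lit 1358) (.e (nat_lit 5906) (nat_lit 320) (.e (nat_lit 1221) (nat_lit 90) (.e (nat_lit 81959) (nat_lit 24) (.e (nat_lit 123181) (nat_lit 264) .nil)))) .nil))) (.nd (nat_lit 5) 
(.lf (nat_lit 114451) (.g (nat_lit 2622) (.e (nat_lit 5906) (nat_lit 320) (.e (nat_lit 1221) (nat_lit 90) (.e (nat_lit 81938) (nat_lit 20) (.e (nat_lit 2006) (nat_lit 138) (.e (nat_lit 671748) (nat_lit 0) (.e (nat_lit 1589) (nat_lit 111) (.e (nat_lit 368384) (nat_lit 0) .nil))))))) (.g (nat_lit 6) .nil .nil))) 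
(.lf (nat_lit 114483) (.g (nat_lit 1949) (.e (nat_lit 5906) (nat_lit 320) (.e (nat_lit 1221) (nat_lit 90) (.e (nat_lit 81959) (nat_lit 24) (.e (nat_lit 123183) (nat_lit 264) (.e (nat_lit 1187) (nat_lit 88) .nil))))) .nil)))) (.nd (nat_lit 4) (.nd (nat_lit 5) 
(.lf (nat_lit 114443) (.g (nat_lit 1234) (.e (nat_lit 5906) (nat_lit 320) (.e (nat_lit 1221) (nat_lit 90) (.e (nat_lit 81938) (nat_lit 20) (.e (nat_lit 2005) (nat_lit 138) (.e (nat_lit 671747) (nat_lit 0) .nil))))) .nil)) 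
(.lf (nat_lit 114475) (.g (nat_lit 2711) (.e (nat_lit 5906) (nat_lit 320) (.e (nat_lit 1221) (nat_lit 90) (.e (nat_lit 81959) (nat_lit 24) (.e (nat_lit 123182) (nat_lit 264) (.e (nat_lit 1028) (nat_lit 81) (.e (nat_lit 1580) (nat_lit 111) (.e (nat_lit 368384) (nat_lit 0) .nil))))))) (.g (nat_lit 6) .nil .nil)))) (.nd (nat_lit 5) 
(.lf (nat_lit 114459) (.g (nat_lit 2241) (.e (nat_lit 5906) (nat_lit 320) (.e (nat_lit 1221) (nat_lit 90) (.e (nat_lit 81947) (nat_lit 20) (.e (nat_lit 2005) (nat_lit 138) (.e (nat_lit 671748) (nat_lit 0) (.e (nat_lit 1589) (nat_lit 111) (.e (nat_lit 368384) (nat_lit 0) .nil))))))) (.g (nat_lit 4) .nil .nil))) 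
(.lf (nat_lit 114491) (.g (nat_lit 2355) (.e (nat_lit 5906) (nat_lit 320) (.e (nat_lit 1221) (nat_lit 90) (.e (nat_lit 81959) (nat_lit 24) (.e (nat_lit 123195) (nat_lit 266) (.e (nat_lit 57404) (nat_lit 12) .nil))))) .nil))))) (.nd (nat_lit 3) (.nd (nat_lit 4) (.nd (nat_lit 5) 
(.lf (nat_lit 114439) (.g (nat_lit 1899) (.e (nat_lit 5906) (nat_lit 320) (.e (nat_lit 1221) (nat_lit 90) (.e (nat_lit 81931) (nat_lit 20) (.e (nat_lit 1998) (nat_lit 137) (.e (nat_lit 663554) (nat_lit 0) (.e (nat_lit 1596) (nat_lit 111) (.e (nat_lit 368384) (nat_lit 0) .nil))))))) (.g (nat_lit 5) .nil .nil))) 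
(.lf (nat_lit 114471) (.g (nat_lit 2037) (.e (nat_lit 5906) (nat_lit 320) (.e (nat_lit 1221) (nat_lit 90) (.e (nat_lit 81959) (nat_lit 24) (.e (nat_lit 123182) (nat_lit 264) (.e (nat_lit 1016) (nat_lit 81) (.e (nat_lit 1586) (nat_lit 111) (.e (nat_lit 368384) (nat_lit 0) .nil))))))) (.g (nat_lit 4) .nil .nil)))) (.nd (nat_lit 5) 
(.lf (nat_lit 114455) (.g (nat_lit 2105) (.e (nat_lit 5906) (nat_lit 320) (.e (nat_lit 1221) (nat_lit 90) (.e (nat_lit 81938) (nat_lit 20) (.e (nat_lit 2006) (nat_lit 138) (.e (nat_lit 671748) (nat_lit 0) (.e (nat_lit 1599) (nat_lit 111) (.e (nat_lit 368384) (nat_lit 0) .nil))))))) (.g (nat_lit 5) .nil .nil))) 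
(.lf (nat_lit 114487) (.g (nat_lit 2614) (.e (nat_lit 5906) (nat_lit 320) (.e (nat_lit 1221) (nat_lit 90) (.e (nat_lit 81959) (nat_lit 24) (.e (nat_lit 123194) (nat_lit 266) (.e (nat_lit 57426) (nat_lit 15) (.e (nat_lit 368384) (nat_lit 0) .nil)))))) (.g (nat_lit 5) .nil .nil))))) (.nd (nat_lit 4) (.nd (nat_lit 5) 
(.lf (nat_lit 114447) (.g (nat_lit 2177) (.e (nat_lit 5906) (nat_lit 320) (.e (nat_lit 1221) (nat_lit 90) (.e (nat_lit 81938) (nat_lit 20) (.e (nat_lit 2005) (nat_lit 138) (.e (nat_lit 671748) (nat_lit 0) (.e (nat_lit 1595) (nat_lit 111) (.e (nat_lit 368384) (nat_lit 0) .nil))))))) (.g (nat_lit 5) .nil .nil))) 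
(.lf (nat_lit 114479) (.g (nat_lit 1183) (.e (nat_lit 5906) (nat_lit 320) (.e (nat_lit 1221) (nat_lit 90) (.e (nat_lit 81959) (nat_lit 24) (.e (nat_lit 123182) (nat_lit 264) (.e (nat_lit 1224) (nat_lit 90) .nil))))) .nil))) (.nd (nat_lit 5) 
(.lf (nat_lit 114463) (.g (nat_lit 1906) (.e (nat_lit 5906) (nat_lit 320) (.e (nat_lit 1221) (nat_lit 90) (.e (nat_lit 81948) (nat_lit 21) (.e (nat_lit 57873) (nat_lit 264) (.e (nat_lit 1189) (nat_lit 88) .nil))))) .nil)) 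
(.lf (nat_lit 114495) (.g (nat_lit 2080) (.e (nat_lit 5906) (nat_lit 320) (.e (nat_lit 1221) (nat_lit 90) (.e (nat_lit 81959) (nat_lit 24) (.e (nat_lit 123195) (nat_lit 266) (.e (nat_lit 57413) (nat_lit 12) .nil))))) .nil))))))))

noncomputable def tv1545 : DT := (.nd (nat_lit 0) (.nd (nat_lit 1) (.nd (nat_lit 2) (.nd (nat_lit 3) (.nd (nat_lit 4) (.nd (nat_lit 5) 
(.lf (nat_lit 114496) (.g (nat_lit 1675) (.e (nat_lit 5906) (nat_lit 320) (.e (nat_lit 1221) (nat_lit 90) (.e (nat_lit 81959) (nat_lit 24) (.e (nat_lit 123195) (nat_lit 266) (.e (nat_lit 57419) (nat_lit 12) .nil))))) .nil)) 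
(.lf (nat_lit 114528) (.g (nat_lit 4471) (.e (nat_lit 5907) (nat_lit 320) (.e (nat_lit 1181) (nat_lit 87) (.e (nat_lit 57478) (nat_lit 28) (.e (nat_lit 557109) (nat_lit 15) (.e (nat_lit 188452) (nat_lit 23) (.e (nat_lit 204862) (nat_lit 27) (.e (nat_lit 344097) (nat_lit 18) .nil))))))) (.g (nat_lit 6) .nil .nil)))) (.nd (nat_lit 5) 
(.lf (nat_lit 114512) (.g (nat_lit 4012) (.e (nat_lit 5907) (nat_lit 320) (.e (nat_lit 1169) (nat_lit 87) (.e (nat_lit 57480) (nat_lit 28) (.e (nat_lit 557108) (nat_lit 15) (.e (nat_lit 188452) (nat_lit 23) (.e (nat_lit 204874) (nat_lit 30) (.e (nat_lit 368662) (nat_lit 18) .nil))))))) (.g (nat_lit 5) .nil .nil))) 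
(.lf (nat_lit 114544) (.g (nat_lit 3803) (.e (nat_lit 5907) (nat_lit 320) (.e (nat_lit 1181) (nat_lit 87) (.e (nat_lit 57479) (nat_lit 28) (.e (nat_lit 557101) (nat_lit 13) (.e (nat_lit 172097) (nat_lit 9) (.e (nat_lit 426140) (nat_lit 3) (.e (nat_lit 204855) (nat_lit 26) (.e (nat_lit 335923) (nat_lit 0) (.e (nat_lit 1023) (nat_lit 81) .nil))))))))) (.g (nat_lit 6) .nil .nil))))) 
(.nd (nat_lit 4) (.nd (nat_lit 5) 
(.lf (nat_lit 114504) (.g (nat_lit 2439) (.e (nat_lit 5906) (nat_lit 320) (.e (nat_lit 1221) (nat_lit 90) (.e (nat_lit 81959) (nat_lit 24) (.e (nat_lit 123196) (nat_lit 266) (.e (nat_lit 57426) (nat_lit 15) (.e (nat_lit 368384) (nat_lit 0) .nil)))))) (.g (nat_lit 5) .nil .nil))) 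
(.lf (nat_lit 114536) (.g (nat_lit 2580) (.e (nat_lit 5907) (nat_lit 320) (.e (nat_lit 1181) (nat_lit 87) (.e (nat_lit 57479) (nat_lit 28) (.e (nat_lit 557100) (nat_lit 13) (.e (nat_lit 172106) (nat_lit 10) (.e (nat_lit 434231) (nat_lit 23) (.e (nat_lit 532529) (nat_lit 9) (.e (nat_lit 335973) (nat_lit 0) (.e (nat_lit 1023) (nat_lit 81) .nil))))))))) (.g (nat_lit 4) .nil .nil)))) (.nd (nat_lit 5) 
(.lf (nat_lit 114520) (.g (nat_lit 2374) (.e (nat_lit 5907) (nat_lit 320) (.e (nat_lit 1181) (nat_lit 87) (.e (nat_lit 57478) (nat_lit 28) (.e (nat_lit 557098) (nat_lit 13) (.e (nat_lit 172097) (nat_lit 9) (.e (nat_lit 426125) (nat_lit 2) (.e (nat_lit 196666) (nat_lit 13) (.e (nat_lit 65546) (nat_lit 0) (.e (nat_lit 1040) (nat_lit 81) .nil))))))))) (.g (nat_lit 4) .nil .nil))) 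
(.lf (nat_lit 114552) (.g (nat_lit 5100) (.e (nat_lit 5907) (nat_lit 320) (.e (nat_lit 1181) (nat_lit 87) (.e (nat_lit 57480) (nat_lit 28) (.e (nat_lit 557098) (nat_lit 13) (.e (nat_lit 172097) (nat_lit 9) (.e (nat_lit 426125) (nat_lit 2) (.e (nat_lit 196666) (nat_lit 13) (.e (nat_lit 65550) (nat_lit 0) (.e (nat_lit 1040) (nat_lit 81) .nil))))))))) (.g (nat_lit 7) .nil .nil)))))) 
(.nd (nat_lit 3) (.nd (nat_lit 4) (.nd (nat_lit 5) 
(.lf (nat_lit 114500) (.g (nat_lit 3232) (.e (nat_lit 5906) (nat_lit 320) (.e (nat_lit 1221) (nat_lit 90) (.e (nat_lit 81959) (nat_lit 24) (.e (nat_lit 123195) (nat_lit 266) (.e (nat_lit 57427) (nat_lit 15) (.e (nat_lit 368384) (nat_lit 0) .nil)))))) (.g (nat_lit 5) .nil .nil))) 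
(.lf (nat_lit 114532) (.g (nat_lit 3914) (.e (nat_lit 5907) (nat_lit 320) (.e (nat_lit 1181) (nat_lit 87) (.e (nat_lit 57479) (nat_lit 28) (.e (nat_lit 557095) (nat_lit 13) (.e (nat_lit 172097) (nat_lit 9) (.e (nat_lit 426125) (nat_lit 2) (.e (nat_lit 196666) (nat_lit 13) (.e (nat_lit 65550) (nat_lit 0) (.e (nat_lit 1023) (nat_lit 81) .nil))))))))) (.g (nat_lit 5) .nil .nil)))) (.nd (nat_lit 5) 
(.lf (nat_lit 114516) (.g (nat_lit 3747) (.e (nat_lit 5907) (nat_lit 320) (.e (nat_lit 1171) (nat_lit 87) (.e (nat_lit 57478) (nat_lit 28) (.e (nat_lit 557108) (nat_lit 15) (.e (nat_lit 188452) (nat_lit 23) (.e (nat_lit 204874) (nat_lit 30) (.e (nat_lit 368662) (nat_lit 18) .nil))))))) (.g (nat_lit 5) .nil .nil))) 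
(.lf (nat_lit 114548) (.g (nat_lit 2954) (.e (nat_lit 5907) (nat_lit 320) (.e (nat_lit 1181) (nat_lit 87) (.e (nat_lit 57479) (nat_lit 28) (.e (nat_lit 557109) (nat_lit 15) (.e (nat_lit 188458) (nat_lit 25) .nil))))) .nil)))) (.nd (nat_lit 4) (.nd (nat_lit 5) 
(.lf (nat_lit 114508) (.g (nat_lit 2068) (.e (nat_lit 5906) (nat_lit 320) (.e (nat_lit 1221) (nat_lit 90) (.e (nat_lit 81959) (nat_lit 24) (.e (nat_lit 123228) (nat_lit 282) (.e (nat_lit 163947) (nat_lit 20) .nil))))) .nil)) 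
(.lf (nat_lit 114540) (.g (nat_lit 5195) (.e (nat_lit 5907) (nat_lit 320) (.e (nat_lit 1181) (nat_lit 87) (.e (nat_lit 57479) (nat_lit 28) (.e (nat_lit 557101) (nat_lit 13) (.e (nat_lit 172097) (nat_lit 9) (.e (nat_lit 426125) (nat_lit 2) (.e (nat_lit 196666) (nat_lit 13) (.e (nat_lit 65550) (nat_lit 0) (.e (nat_lit 1023) (nat_lit 81) .nil))))))))) (.g (nat_lit 7) .nil .nil)))) (.nd (nat_lit 5) 
(.lf (nat_lit 114524) (.g (nat_lit 2266) (.e (nat_lit 5907) (nat_lit 320) (.e (nat_lit 1181) (nat_lit 87) (.e (nat_lit 57478) (nat_lit 28) (.e (nat_lit 557107) (nat_lit 15) (.e (nat_lit 188450) (nat_lit 23) (.e (nat_lit 204855) (nat_lit 26) (.e (nat_lit 335923) (nat_lit 0) (.e (nat_lit 1023) (nat_lit 81) .nil)))))))) (.g (nat_lit 4) .nil .nil))) 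
(.lf (nat_lit 114556) (.g (nat_lit 2375) (.e (nat_lit 5907) (nat_lit 320) (.e (nat_lit 1181) (nat_lit 87) (.e (nat_lit 57480) (nat_lit 28) (.e (nat_lit 557098) (nat_lit 13) (.e (nat_lit 172097) (nat_lit 9) (.e (nat_lit 426140) (nat_lit 3) (.e (nat_lit 204855) (nat_lit 26) (.e (nat_lit 335928) (nat_lit 0) (.e (nat_lit 1023) (nat_lit 81) .nil))))))))) (.g (nat_lit 4) .nil .nil))))))) 
(.nd (nat_lit 2) (.nd (nat_lit 3) (.nd (nat_lit 4) (.nd (nat_lit 5) 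
(.lf (nat_lit 114498) (.g (nat_lit 3752) (.e (nat_lit 5906) (nat_lit 320) (.e (nat_lit 1221) (nat_lit 90) (.e (nat_lit 81959) (nat_lit 24) (.e (nat_lit 123195) (nat_lit 266) (.e (nat_lit 57426) (nat_lit 15) (.e (nat_lit 368384) (nat_lit 0) .nil)))))) (.g (nat_lit 5) .nil .nil))) 
(.lf (nat_lit 114530) (.g (nat_lit 2789) (.e (nat_lit 5907) (nat_lit 320) (.e (nat_lit 1181) (nat_lit 87) (.e (nat_lit 57479) (nat_lit 28) (.e (nat_lit 557095) (nat_lit 13) (.e (nat_lit 172097) (nat_lit 9) .nil))))) .nil))) (.nd (nat_lit 5) 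
(.lf (nat_lit 114514) (.g (nat_lit 2657) (.e (nat_lit 5907) (nat_lit 320) (.e (nat_lit 1170) (nat_lit 87) (.e (nat_lit 57479) (nat_lit 28) (.e (nat_lit 557101) (nat_lit 13) (.e (nat_lit 172097) (nat_lit 9) (.e (nat_lit 426125) (nat_lit 2) (.e (nat_lit 196666) (nat_lit 13) (.e (nat_lit 65553) (nat_lit 0) (.e (nat_lit 1023) (nat_lit 81) .nil))))))))) (.g (nat_lit 5) .nil .nil))) 
(.lf (nat_lit 114546) (.g (nat_lit 2358) (.e (nat_lit 5907) (nat_lit 320) (.e (nat_lit 1181) (nat_lit 87) (.e (nat_lit 57479) (nat_lit 28) (.e (nat_lit 557101) (nat_lit 13) (.e (nat_lit 172097) (nat_lit 9) (.e (nat_lit 426140) (nat_lit 3) (.e (nat_lit 204855) (nat_lit 26) (.e (nat_lit 335928) (nat_lit 0) (.e (nat_lit 1023) (nat_lit 81) .nil))))))))) (.g (nat_lit 4) .nil .nil))))) 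
(.nd (nat_lit 4) (.nd (nat_lit 5) 
(.lf (nat_lit 114506) (.g (nat_lit 2312) (.e (nat_lit 5906) (nat_lit 320) (.e (nat_lit 1221) (nat_lit 90) (.e (nat_lit 81959) (nat_lit 24) (.e (nat_lit 123198) (nat_lit 266) (.e (nat_lit 57426) (nat_lit 15) (.e (nat_lit 368384) (nat_lit 0) .nil)))))) (.g (nat_lit 5) .nil .nil))) 
(.lf (nat_lit 114538) (.g (nat_lit 4257) (.e (nat_lit 5907) (nat_lit 320) (.e (nat_lit 1181) (nat_lit 87) (.e (nat_lit 57479) (nat_lit 28) (.e (nat_lit 557100) (nat_lit 13) (.e (nat_lit 172106) (nat_lit 10) (.e (nat_lit 434231) (nat_lit 23) (.e (nat_lit 532553) (nat_lit 13) (.e (nat_lit 368662) (nat_lit 18) .nil)))))))) (.g (nat_lit 6) .nil .nil)))) (.nd (nat_lit 5) 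
(.lf (nat_lit 114522) (.g (nat_lit 2237) (.e (nat_lit 5907) (nat_lit 320) (.e (nat_lit 1181) (nat_lit 87) (.e (nat_lit 57478) (nat_lit 28) (.e (nat_lit 557101) (nat_lit 13) (.e (nat_lit 172097) (nat_lit 9) (.e (nat_lit 426125) (nat_lit 2) (.e (nat_lit 196666) (nat_lit 13) (.e (nat_lit 65546) (nat_lit 0) (.e (nat_lit 1040) (nat_lit 81) .nil))))))))) (.g (nat_lit 4) .nil .nil))) 
(.lf (nat_lit 114554) (.g (nat_lit 3820) (.e (nat_lit 5907) (nat_lit 320) (.e (nat_lit 1181) (nat_lit 87) (.e (nat_lit 57480) (nat_lit 28) (.e (nat_lit 557098) (nat_lit 13) (.e (nat_lit 172097) (nat_lit 9) (.e (nat_lit 426140) (nat_lit 3) (.e (nat_lit 204855) (nat_lit 26) (.e (nat_lit 335923) (nat_lit 0) (.e (nat_lit 1023) (nat_lit 81) .nil))))))))) (.g (nat_lit 6) .nil .nil)))))) 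
(.nd (nat_lit 3) (.nd (nat_lit 4) (.nd (nat_lit 5) 
(.lf (nat_lit 114502) (.g (nat_lit 2275) (.e (nat_lit 5906) (nat_lit 320) (.e (nat_lit 1221) (nat_lit 90) (.e (nat_lit 81959) (nat_lit 24) (.e (nat_lit 123195) (nat_lit 266) (.e (nat_lit 57428) (nat_lit 15) (.e (nat_lit 368384) (nat_lit 0) .nil)))))) (.g (nat_lit 4) .nil .nil))) 
(.lf (nat_lit 114534) (.g (nat_lit 2999) (.e (nat_lit 5907) (nat_lit 320) (.e (nat_lit 1181) (nat_lit 87) (.e (nat_lit 57479) (nat_lit 28) (.e (nat_lit 557095) (nat_lit 13) (.e (nat_lit 172115) (nat_lit 10) (.e (nat_lit 434231) (nat_lit 23) (.e (nat_lit 532543) (nat_lit 10) (.e (nat_lit 344100) (nat_lit 18) .nil)))))))) (.g (nat_lit 4) .nil .nil)))) (.nd (nat_lit 5) 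
(.lf (nat_lit 114518) (.g (nat_lit 1840) (.e (nat_lit 5907) (nat_lit 320) (.e (nat_lit 1172) (nat_lit 87) (.e (nat_lit 57478) (nat_lit 28) (.e (nat_lit 557107) (nat_lit 15) (.e (nat_lit 188447) (nat_lit 22) (.e (nat_lit 196666) (nat_lit 13) (.e (nat_lit 65553) (nat_lit 0) (.e (nat_lit 1023) (nat_lit 81) .nil)))))))) (.g (nat_lit 4) .nil .nil))) 
(.lf (nat_lit 114550) (.g (nat_lit 4669) (.e (nat_lit 5907) (nat_lit 320) (.e (nat_lit 1181) (nat_lit 87) (.e (nat_lit 57480) (nat_lit 28) (.e (nat_lit 557098) (nat_lit 13) (.e (nat_lit 172097) (nat_lit 9) (.e (nat_lit 426125) (nat_lit 2) (.e (nat_lit 196666) (nat_lit 13) (.e (nat_lit 65546) (nat_lit 0) (.e (nat_lit 1023) (nat_lit 81) .nil))))))))) (.g (nat_lit 7) .nil .nil))))) 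
(.nd (nat_lit 4) (.nd (nat_lit 5) 
(.lf (nat_lit 114510) (.g (nat_lit 1751) (.e (nat_lit 5906) (nat_lit 320) (.e (nat_lit 1221) (nat_lit 90) (.e (nat_lit 81959) (nat_lit 24) (.e (nat_lit 123229) (nat_lit 282) (.e (nat_lit 163850) (nat_lit 0) .nil))))) .nil)) 
(.lf (nat_lit 114542) (.g (nat_lit 3807) (.e (nat_lit 5907) (nat_lit 320) (.e (nat_lit 1181) (nat_lit 87) (.e (nat_lit 57479) (nat_lit 28) (.e (nat_lit 557101) (nat_lit 13) (.e (nat_lit 172097) (nat_lit 9) (.e (nat_lit 426125) (nat_lit 2) (.e (nat_lit 196666) (nat_lit 13) (.e (nat_lit 65553) (nat_lit 0) (.e (nat_lit 1023) (nat_lit 81) .nil))))))))) (.g (nat_lit 6) .nil .nil)))) (.nd (nat_lit 5) 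
(.lf (nat_lit 114526) (.g (nat_lit 3177) (.e (nat_lit 5907) (nat_lit 320) (.e (nat_lit 1181) (nat_lit 87) (.e (nat_lit 57478) (nat_lit 28) (.e (nat_lit 557109) (nat_lit 15) (.e (nat_lit 188449) (nat_lit 22) (.e (nat_lit 196666) (nat_lit 13) (.e (nat_lit 65546) (nat_lit 0) (.e (nat_lit 1023) (nat_lit 81) .nil)))))))) (.g (nat_lit 5) .nil .nil))) 
(.lf (nat_lit 114558) (.g (nat_lit 2232) (.e (nat_lit 5907) (nat_lit 320) (.e (nat_lit 1181) (nat_lit 87) (.e (nat_lit 57480) (nat_lit 28) (.e (nat_lit 557107) (nat_lit 15) (.e (nat_lit 188447) (nat_lit 22) .nil))))) .nil))))))) (.nd (nat_lit 1) (.nd (nat_lit 2) (.nd (nat_lit 3) (.nd (nat_lit 4) (.nd (nat_lit 5) 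
(.lf (nat_lit 114497) (.g (nat_lit 1854) (.e (nat_lit 5906) (nat_lit 320) (.e (nat_lit 1221) (nat_lit 90) (.e (nat_lit 81959) (nat_lit 24) (.e (nat_lit 123195) (nat_lit 266) (.e (nat_lit 57423) (nat_lit 14) .nil))))) .nil)) 
(.lf (nat_lit 114529) (.g (nat_lit 3743) (.e (nat_lit 5907) (nat_lit 320) (.e (nat_lit 1181) (nat_lit 87) (.e (nat_lit 57478) (nat_lit 28) (.e (nat_lit 557109) (nat_lit 15) (.e (nat_lit 188452) (nat_lit 23) (.e (nat_lit 204872) (nat_lit 30) (.e (nat_lit 368662) (nat_lit 18) .nil))))))) (.g (nat_lit 5) .nil .nil)))) (.nd (nat_lit 5) 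
(.lf (nat_lit 114513) (.g (nat_lit 2459) (.e (nat_lit 5907) (nat_lit 320) (.e (nat_lit 1170) (nat_lit 87) (.e (nat_lit 57479) (nat_lit 28) (.e (nat_lit 557095) (nat_lit 13) (.e (nat_lit 172115) (nat_lit 10) .nil))))) .nil)) 
(.lf (nat_lit 114545) (.g (nat_lit 2486) (.e (nat_lit 5907) (nat_lit 320) (.e (nat_lit 1181) (nat_lit 87) (.e (nat_lit 57479) (nat_lit 28) (.e (nat_lit 557101) (nat_lit 13) (.e (nat_lit 172097) (nat_lit 9) (.e (nat_lit 426140) (nat_lit 3) (.e (nat_lit 204855) (nat_lit 26) (.e (nat_lit 335925) (nat_lit 0) (.e (nat_lit 1023) (nat_lit 81) .nil))))))))) (.g (nat_lit 4) .nil .nil))))) 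
(.nd (nat_lit 4) (.nd (nat_lit 5) 
(.lf (nat_lit 114505) (.g (nat_lit 1930) (.e (nat_lit 5906) (nat_lit 320) (.e (nat_lit 1221) (nat_lit 90) (.e (nat_lit 81959) (nat_lit 24) (.e (nat_lit 123197) (nat_lit 266) (.e (nat_lit 57427) (nat_lit 15) .nil))))) .nil)) 
(.lf (nat_lit 114537) (.g (nat_lit 2697) (.e (nat_lit 5907) (nat_lit 320) (.e (nat_lit 1181) (nat_lit 87) (.e (nat_lit 57479) (nat_lit 28) (.e (nat_lit 557100) (nat_lit 13) (.e (nat_lit 172106) (nat_lit 10) (.e (nat_lit 434231) (nat_lit 23) (.e (nat_lit 532535) (nat_lit 9) (.e (nat_lit 335928) (nat_lit 0) (.e (nat_lit 1023) (nat_lit 81) .nil))))))))) (.g (nat_lit 4) .nil .nil)))) (.nd (nat_lit 5) 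
(.lf (nat_lit 114521) (.g (nat_lit 2263) (.e (nat_lit 5907) (nat_lit 320) (.e (nat_lit 1181) (nat_lit 87) (.e (nat_lit 57478) (nat_lit 28) (.e (nat_lit 557100) (nat_lit 13) (.e (nat_lit 172106) (nat_lit 10) (.e (nat_lit 434231) (nat_lit 23) (.e (nat_lit 532535) (nat_lit 9) (.e (nat_lit 335925) (nat_lit 0) (.e (nat_lit 1023) (nat_lit 81) .nil))))))))) (.g (nat_lit 4) .nil .nil))) 
(.lf (nat_lit 114553) (.g (nat_lit 3839) (.e (nat_lit 5907) (nat_lit 320) (.e (nat_lit 1181) (nat_lit 87) (.e (nat_lit 57480) (nat_lit 28) (.e (nat_lit 557098) (nat_lit 13) (.e (nat_lit 172097) (nat_lit 9) (.e (nat_lit 426125) (nat_lit 2) (.e (nat_lit 196666) (nat_lit 13) (.e (nat_lit 65553) (nat_lit 0) (.e (nat_lit 1023) (nat_lit 81) .nil))))))))) (.g (nat_lit 6) .nil .nil)))))) 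
(.nd (nat_lit 3) (.nd (nat_lit 4) (.nd (nat_lit 5) 
(.lf (nat_lit 114501) (.g (nat_lit 2021) (.e (nat_lit 5906) (nat_lit 320) (.e (nat_lit 1221) (nat_lit 90) (.e (nat_lit 81959) (nat_lit 24) (.e (nat_lit 123195) (nat_lit 266) (.e (nat_lit 57428) (nat_lit 15) (.e (nat_lit 360453) (nat_lit 0) .nil)))))) (.g (nat_lit 4) .nil .nil))) 
(.lf (nat_lit 114533) (.g (nat_lit 2627) (.e (nat_lit 5907) (nat_lit 320) (.e (nat_lit 1181) (nat_lit 87) (.e (nat_lit 57479) (nat_lit 28) (.e (nat_lit 557095) (nat_lit 13) (.e (nat_lit 172115) (nat_lit 10) .nil))))) .nil))) (.nd (nat_lit 5) 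
(.lf (nat_lit 114517) (.g (nat_lit 2193) (.e (nat_lit 5907) (nat_lit 320) (.e (nat_lit 1172) (nat_lit 87) (.e (nat_lit 57477) (nat_lit 28) (.e (nat_lit 557107) (nat_lit 15) (.e (nat_lit 188447) (nat_lit 22) (.e (nat_lit 196666) (nat_lit 13) (.e (nat_lit 65546) (nat_lit 0) (.e (nat_lit 1023) (nat_lit 81) .nil)))))))) (.g (nat_lit 5) .nil .nil))) 
(.lf (nat_lit 114549) (.g (nat_lit 2138) (.e (nat_lit 5907) (nat_lit 320) (.e (nat_lit 1181) (nat_lit 87) (.e (nat_lit 57480) (nat_lit 28) (.e (nat_lit 557098) (nat_lit 13) (.e (nat_lit 172094) (nat_lit 9) .nil))))) .nil)))) (.nd (nat_lit 4) (.nd (nat_lit 5) 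
(.lf (nat_lit 114509) (.g (nat_lit 1413) (.e (nat_lit 5906) (nat_lit 320) (.e (nat_lit 1221) (nat_lit 90) (.e (nat_lit 81959) (nat_lit 24) (.e (nat_lit 123229) (nat_lit 282) .nil)))) .nil)) 
(.lf (nat_lit 114541) (.g (nat_lit 5067) (.e (nat_lit 5907) (nat_lit 320) (.e (nat_lit 1181) (nat_lit 87) (.e (nat_lit 57479) (nat_lit 28) (.e (nat_lit 557101) (nat_lit 13) (.e (nat_lit 172097) (nat_lit 9) (.e (nat_lit 426125) (nat_lit 2) (.e (nat_lit 196666) (nat_lit 13) (.e (nat_lit 65550) (nat_lit 0) (.e (nat_lit 1040) (nat_lit 81) .nil))))))))) (.g (nat_lit 7) .nil .nil)))) (.nd (nat_lit 5) 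
(.lf (nat_lit 114525) (.g (nat_lit 3081) (.e (nat_lit 5907) (nat_lit 320) (.e (nat_lit 1181) (nat_lit 87) (.e (nat_lit 57478) (nat_lit 28) (.e (nat_lit 557107) (nat_lit 15) (.e (nat_lit 188450) (nat_lit 23) (.e (nat_lit 204873) (nat_lit 30) (.e (nat_lit 368662) (nat_lit 18) .nil))))))) (.g (nat_lit 5) .nil .nil))) 
(.lf (nat_lit 114557) (.g (nat_lit 2787) (.e (nat_lit 5907) (nat_lit 320) (.e (nat_lit 1181) (nat_lit 87) (.e (nat_lit 57480) (nat_lit 28) (.e (nat_lit 557098) (nat_lit 13) (.e (nat_lit 172104) (nat_lit 9) .nil))))) .nil)))))) (.nd (nat_lit 2) (.nd (nat_lit 3) (.nd (nat_lit 4) (.nd (nat_lit 5) 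
(.lf (nat_lit 114499) (.g (nat_lit 3281) (.e (nat_lit 5906) (nat_lit 320) (.e (nat_lit 1221) (nat_lit 90) (.e (nat_lit 81959) (nat_lit 24) (.e (nat_lit 123195) (nat_lit 266) (.e (nat_lit 57427) (nat_lit 15) (.e (nat_lit 360454) (nat_lit 0) .nil)))))) (.g (nat_lit 5) .nil .nil))) 
(.lf (nat_lit 114531) (.g (nat_lit 3356) (.e (nat_lit 5907) (nat_lit 320) (.e (nat_lit 1181) (nat_lit 87) (.e (nat_lit 57479) (nat_lit 28) (.e (nat_lit 557095) (nat_lit 13) (.e (nat_lit 172097) (nat_lit 9) (.e (nat_lit 426125) (nat_lit 2) (.e (nat_lit 196666) (nat_lit 13) (.e (nat_lit 65546) (nat_lit 0) (.e (nat_lit 1023) (nat_lit 81) .nil))))))))) (.g (nat_lit 4) .nil .nil)))) (.nd (nat_lit 5) 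
(.lf (nat_lit 114515) (.g (nat_lit 3836) (.e (nat_lit 5907) (nat_lit 320) (.e (nat_lit 1171) (nat_lit 87) (.e (nat_lit 57478) (nat_lit 28) (.e (nat_lit 557108) (nat_lit 15) (.e (nat_lit 188452) (nat_lit 23) (.e (nat_lit 204873) (nat_lit 30) (.e (nat_lit 368662) (nat_lit 18) .nil))))))) (.g (nat_lit 5) .nil .nil))) 
(.lf (nat_lit 114547) (.g (nat_lit 2770) (.e (nat_lit 5907) (nat_lit 320) (.e (nat_lit 1181) (nat_lit 87) (.e (nat_lit 57479) (nat_lit 28) (.e (nat_lit 557106) (nat_lit 15) (.e (nat_lit 188452) (nat_lit 23) .nil))))) .nil)))) (.nd (nat_lit 4) (.nd (nat_lit 5) 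
(.lf (nat_lit 114507) (.g (nat_lit 2671) (.e (nat_lit 5906) (nat_lit 320) (.e (nat_lit 1221) (nat_lit 90) (.e (nat_lit 81959) (nat_lit 24) (.e (nat_lit 123199) (nat_lit 267) (.e (nat_lit 122919) (nat_lit 15) (.e (nat_lit 368384) (nat_lit 0) .nil)))))) (.g (nat_lit 5) .nil .nil))) 
(.lf (nat_lit 114539) (.g (nat_lit 4637) (.e (nat_lit 5907) (nat_lit 320) (.e (nat_lit 1181) (nat_lit 87) (.e (nat_lit 57479) (nat_lit 28) (.e (nat_lit 557101) (nat_lit 13) (.e (nat_lit 172097) (nat_lit 9) (.e (nat_lit 426125) (nat_lit 2) (.e (nat_lit 196666) (nat_lit 13) (.e (nat_lit 65546) (nat_lit 0) (.e (nat_lit 1023) (nat_lit 81) .nil))))))))) (.g (nat_lit 7) .nil .nil)))) (.nd (nat_lit 5) 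
(.lf (nat_lit 114523) (.g (nat_lit 3174) (.e (nat_lit 5907) (nat_lit 320) (.e (nat_lit 1181) (nat_lit 87) (.e (nat_lit 57478) (nat_lit 28) (.e (nat_lit 557107) (nat_lit 15) (.e (nat_lit 188447) (nat_lit 22) (.e (nat_lit 196666) (nat_lit 13) (.e (nat_lit 65550) (nat_lit 0) (.e (nat_lit 1023) (nat_lit 81) .nil)))))))) (.g (nat_lit 5) .nil .nil))) 
(.lf (nat_lit 114555) (.g (nat_lit 2503) (.e (nat_lit 5907) (nat_lit 320) (.e (nat_lit 1181) (nat_lit 87) (.e (nat_lit 57480) (nat_lit 28) (.e (nat_lit 557098) (nat_lit 13) (.e (nat_lit 172097) (nat_lit 9) (.e (nat_lit 426140) (nat_lit 3) (.e (nat_lit 204855) (nat_lit 26) (.e (nat_lit 335925) (nat_lit 0) (.e (nat_lit 1023) (nat_lit 81) .nil))))))))) (.g (nat_lit 4) .nil .nil)))))) 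
(.nd (nat_lit 3) (.nd (nat_lit 4) (.nd (nat_lit 5) 
(.lf (nat_lit 114503) (.g (nat_lit 1236) (.e (nat_lit 5906) (nat_lit 320) (.e (nat_lit 1221) (nat_lit 90) (.e (nat_lit 81959) (nat_lit 24) (.e (nat_lit 123196) (nat_lit 266) .nil)))) .nil)) 
(.lf (nat_lit 114535) (.g (nat_lit 2130) (.e (nat_lit 5907) (nat_lit 320) (.e (nat_lit 1181) (nat_lit 87) (.e (nat_lit 57479) (nat_lit 28) (.e (nat_lit 557100) (nat_lit 13) (.e (nat_lit 172106) (nat_lit 10) .nil))))) .nil))) (.nd (nat_lit 5) 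
(.lf (nat_lit 114519) (.g (nat_lit 1975) (.e (nat_lit 5907) (nat_lit 320) (.e (nat_lit 1172) (nat_lit 87) (.e (nat_lit 57480) (nat_lit 28) (.e (nat_lit 557098) (nat_lit 13) (.e (nat_lit 172097) (nat_lit 9) (.e (nat_lit 426125) (nat_lit 2) (.e (nat_lit 196666) (nat_lit 13) (.e (nat_lit 65546) (nat_lit 0) (.e (nat_lit 1040) (nat_lit 81) .nil))))))))) (.g (nat_lit 4) .nil .nil))) 
(.lf (nat_lit 114551) (.g (nat_lit 5227) (.e (nat_lit 5907) (nat_lit 320) (.e (nat_lit 1181) (nat_lit 87) (.e (nat_lit 57480) (nat_lit 28) (.e (nat_lit 557098) (nat_lit 13) (.e (nat_lit 172097) (nat_lit 9) (.e (nat_lit 426125) (nat_lit 2) (.e (nat_lit 196666) (nat_lit 13) (.e (nat_lit 65550) (nat_lit 0) (.e (nat_lit 1023) (nat_lit 81) .nil))))))))) (.g (nat_lit 7) .nil .nil))))) 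
(.nd (nat_lit 4) (.nd (nat_lit 5) 
(.lf (nat_lit 114511) (.g (nat_lit 3695) (.e (nat_lit 5907) (nat_lit 320) (.e (nat_lit 1169) (nat_lit 87) (.e (nat_lit 57480) (nat_lit 28) (.e (nat_lit 557108) (nat_lit 15) (.e (nat_lit 188452) (nat_lit 23) (.e (nat_lit 204872) (nat_lit 30) (.e (nat_lit 368662) (nat_lit 18) .nil))))))) (.g (nat_lit 5) .nil .nil))) 
(.lf (nat_lit 114543) (.g (nat_lit 2109) (.e (nat_lit 5907) (nat_lit 320) (.e (nat_lit 1181) (nat_lit 87) (.e (nat_lit 57479) (nat_lit 28) (.e (nat_lit 557101) (nat_lit 13) (.e (nat_lit 172097) (nat_lit 9) (.e (nat_lit 426140) (nat_lit 3) (.e (nat_lit 204855) (nat_lit 26) (.e (nat_lit 335921) (nat_lit 0) (.e (nat_lit 1023) (nat_lit 81) .nil))))))))) (.g (nat_lit 4) .nil .nil)))) (.nd (nat_lit 5) 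
(.lf (nat_lit 114527) (.g (nat_lit 2148) (.e (nat_lit 5907) (nat_lit 320) (.e (nat_lit 1181) (nat_lit 87) (.e (nat_lit 57478) (nat_lit 28) (.e (nat_lit 557109) (nat_lit 15) (.e (nat_lit 188449) (nat_lit 22) (.e (nat_lit 196666) (nat_lit 13) (.e (nat_lit 65546) (nat_lit 0) (.e (nat_lit 1040) (nat_lit 81) .nil)))))))) (.g (nat_lit 4) .nil .nil))) 
(.lf (nat_lit 114559) (.g (nat_lit 3657) (.e (nat_lit 5907) (nat_lit 320) (.e (nat_lit 1181) (nat_lit 87) (.e (nat_lit 57480) (nat_lit 28) (.e (nat_lit 557107) (nat_lit 15) (.e (nat_lit 188447) (nat_lit 22) (.e (nat_lit 196666) (nat_lit 13) (.e (nat_lit 65546) (nat_lit 0) (.e (nat_lit 1023) (nat_lit 81) .nil)))))))) (.g (nat_lit 5) .nil .nil)))))))))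

noncomputable def tv1546 : DT := (.nd (nat_lit 0) (.nd (nat_lit 1) (.nd (nat_lit 2) (.nd (nat_lit 3) (.nd (nat_lit 4) (.nd (nat_lit 5) 
(.lf (nat_lit 114560) (.g (nat_lit 2668) (.e (nat_lit 5907) (nat_lit 320) (.e (nat_lit 1181) (nat_lit 87) (.e (nat_lit 57480) (nat_lit 28) (.e (nat_lit 557107) (nat_lit 15) (.e (nat_lit 188447) (nat_lit 22) (.e (nat_lit 196666) (nat_lit 13) (.e (nat_lit 65546) (nat_lit 0) (.e (nat_lit 1040) (nat_lit 81) .nil)))))))) (.g (nat_lit 4) .nil .nil))) 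
(.lf (nat_lit 114592) (.g (nat_lit 1702) (.e (nat_lit 5907) (nat_lit 320) (.e (nat_lit 1188) (nat_lit 88) (.e (nat_lit 65630) (nat_lit 14) (.e (nat_lit 401454) (nat_lit 12) (.e (nat_lit 483072) (nat_lit 13) .nil))))) .nil))) (.nd (nat_lit 5) 
(.lf (nat_lit 114576) (.g (nat_lit 3438) (.e (nat_lit 5907) (nat_lit 320) (.e (nat_lit 1182) (nat_lit 87) (.e (nat_lit 57478) (nat_lit 28) (.e (nat_lit 557098) (nat_lit 13) (.e (nat_lit 172097) (nat_lit 9) (.e (nat_lit 426125) (nat_lit 2) (.e (nat_lit 196666) (nat_lit 13) (.e (nat_lit 65546) (nat_lit 0) (.e (nat_lit 1023) (nat_lit 81) .nil))))))))) (.g (nat_lit 7) .nil .nil))) 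
(.lf (nat_lit 114608) (.g (nat_lit 1624) (.e (nat_lit 5907) (nat_lit 320) (.e (nat_lit 1190) (nat_lit 88) (.e (nat_lit 65619) (nat_lit 10) (.e (nat_lit 344169) (nat_lit 40) (.e (nat_lit 671748) (nat_lit 0) .nil))))) .nil)))) (.nd (nat_lit 4) (.nd (nat_lit 5) 
(.lf (nat_lit 114568) (.g (nat_lit 3318) (.e (nat_lit 5907) (nat_lit 320) (.e (nat_lit 1181) (nat_lit 87) (.e (nat_lit 57480) (nat_lit 28) (.e (nat_lit 557109) (nat_lit 15) (.e (nat_lit 188449) (nat_lit 22) (.e (nat_lit 196666) (nat_lit 13) (.e (nat_lit 65546) (nat_lit 0) (.e (nat_lit 1040) (nat_lit 81) .nil)))))))) (.g (nat_lit 5) .nil .nil))) 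
(.lf (nat_lit 114600) (.g (nat_lit 682) (.e (nat_lit 5907) (nat_lit 320) (.e (nat_lit 1190) (nat_lit 88) (.e (nat_lit 65583) (nat_lit 7) (.e (nat_lit 319539) (nat_lit 19) .nil)))) .nil))) (.nd (nat_lit 5) 
(.lf (nat_lit 114584) (.g (nat_lit 3007) (.e (nat_lit 5907) (nat_lit 320) (.e (nat_lit 1182) (nat_lit 87) (.e (nat_lit 57479) (nat_lit 28) (.e (nat_lit 557101) (nat_lit 13) (.e (nat_lit 172097) (nat_lit 9) (.e (nat_lit 426125) (nat_lit 2) (.e (nat_lit 196666) (nat_lit 13) (.e (nat_lit 65546) (nat_lit 0) (.e (nat_lit 1040) (nat_lit 81) .nil))))))))) (.g (nat_lit 5) .nil .nil))) 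
(.lf (nat_lit 114616) (.g (nat_lit 3985) (.e (nat_lit 5907) (nat_lit 320) (.e (nat_lit 1190) (nat_lit 88) (.e (nat_lit 65630) (nat_lit 14) (.e (nat_lit 401459) (nat_lit 13) (.e (nat_lit 483344) (nat_lit 17) (.e (nat_lit 6522) (nat_lit 349) (.e (nat_lit 122883) (nat_lit 0) .nil))))))) (.g (nat_lit 5) .nil .nil)))))) (.nd (nat_lit 3) (.nd (nat_lit 4) (.nd (nat_lit 5) 
(.lf (nat_lit 114564) (.g (nat_lit 2990) (.e (nat_lit 5907) (nat_lit 320) (.e (nat_lit 1181) (nat_lit 87) (.e (nat_lit 57480) (nat_lit 28) (.e (nat_lit 557107) (nat_lit 15) (.e (nat_lit 188450) (nat_lit 23) (.e (nat_lit 204852) (nat_lit 26) (.e (nat_lit 335880) (nat_lit 0) (.e (nat_lit 1037) (nat_lit 81) .nil)))))))) (.g (nat_lit 4) .nil .nil))) 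
(.lf (nat_lit 114596) (.g (nat_lit 1535) (.e (nat_lit 5907) (nat_lit 320) (.e (nat_lit 1189) (nat_lit 88) (.e (nat_lit 65628) (nat_lit 14) (.e (nat_lit 401458) (nat_lit 13) (.e (nat_lit 483399) (nat_lit 25) .nil))))) .nil))) (.nd (nat_lit 5) 
(.lf (nat_lit 114580) (.g (nat_lit 3286) (.e (nat_lit 5907) (nat_lit 320) (.e (nat_lit 1182) (nat_lit 87) (.e (nat_lit 57478) (nat_lit 28) (.e (nat_lit 557109) (nat_lit 15) (.e (nat_lit 188449) (nat_lit 22) (.e (nat_lit 196666) (nat_lit 13) (.e (nat_lit 65546) (nat_lit 0) (.e (nat_lit 1023) (nat_lit 81) .nil)))))))) (.g (nat_lit 6) .nil .nil))) 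
(.lf (nat_lit 114612) (.g (nat_lit 2443) (.e (nat_lit 5907) (nat_lit 320) (.e (nat_lit 1190) (nat_lit 88) (.e (nat_lit 65628) (nat_lit 14) (.e (nat_lit 401459) (nat_lit 13) (.e (nat_lit 483347) (nat_lit 17) .nil))))) .nil)))) (.nd (nat_lit 4) (.nd (nat_lit 5) 
(.lf (nat_lit 114572) (.g (nat_lit 5903) (.e (nat_lit 5907) (nat_lit 320) (.e (nat_lit 1181) (nat_lit 87) (.e (nat_lit 57480) (nat_lit 28) (.e (nat_lit 557109) (nat_lit 15) (.e (nat_lit 188449) (nat_lit 22) (.e (nat_lit 196668) (nat_lit 14) (.e (nat_lit 73733) (nat_lit 0) .nil))))))) (.g (nat_lit 7) .nil .nil))) 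
(.lf (nat_lit 114604) (.g (nat_lit 1735) (.e (nat_lit 5907) (nat_lit 320) (.e (nat_lit 1190) (nat_lit 88) (.e (nat_lit 65619) (nat_lit 10) (.e (nat_lit 344168) (nat_lit 40) (.e (nat_lit 671745) (nat_lit 0) .nil))))) .nil))) (.nd (nat_lit 5) 
(.lf (nat_lit 114588) (.g (nat_lit 2755) (.e (nat_lit 5907) (nat_lit 320) (.e (nat_lit 1182) (nat_lit 87) (.e (nat_lit 57480) (nat_lit 28) (.e (nat_lit 557098) (nat_lit 13) (.e (nat_lit 172097) (nat_lit 9) (.e (nat_lit 426125) (nat_lit 2) (.e (nat_lit 196666) (nat_lit 13) (.e (nat_lit 65553) (nat_lit 0) (.e (nat_lit 1023) (nat_lit 81) .nil))))))))) (.g (nat_lit 5) .nil .nil))) 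
(.lf (nat_lit 114620) (.g (nat_lit 1108) (.e (nat_lit 5907) (nat_lit 320) (.e (nat_lit 1196) (nat_lit 88) (.e (nat_lit 65583) (nat_lit 7) (.e (nat_lit 319539) (nat_lit 19) (.e (nat_lit 319232) (nat_lit 30) .nil))))) .nil)))))) (.nd (nat_lit 2) (.nd (nat_lit 3) (.nd (nat_lit 4) (.nd (nat_lit 5) 
(.lf (nat_lit 114562) (.g (nat_lit 5035) (.e (nat_lit 5907) (nat_lit 320) (.e (nat_lit 1181) (nat_lit 87) (.e (nat_lit 57480) (nat_lit 28) (.e (nat_lit 557107) (nat_lit 15) (.e (nat_lit 188447) (nat_lit 22) (.e (nat_lit 196668) (nat_lit 14) (.e (nat_lit 73733) (nat_lit 0) .nil))))))) (.g (nat_lit 6) .nil .nil))) 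
(.lf (nat_lit 114594) (.g (nat_lit 1504) (.e (nat_lit 5907) (nat_lit 320) (.e (nat_lit 1189) (nat_lit 88) (.e (nat_lit 65619) (nat_lit 10) (.e (nat_lit 344168) (nat_lit 40) (.e (nat_lit 671751) (nat_lit 0) .nil))))) .nil))) (.nd (nat_lit 5) 
(.lf (nat_lit 114578) (.g (nat_lit 1861) (.e (nat_lit 5907) (nat_lit 320) (.e (nat_lit 1182) (nat_lit 87) (.e (nat_lit 57478) (nat_lit 28) (.e (nat_lit 557107) (nat_lit 15) (.e (nat_lit 188447) (nat_lit 22) (.e (nat_lit 196666) (nat_lit 13) (.e (nat_lit 65546) (nat_lit 0) (.e (nat_lit 1040) (nat_lit 81) .nil)))))))) (.g (nat_lit 4) .nil .nil))) 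
(.lf (nat_lit 114610) (.g (nat_lit 1094) (.e (nat_lit 5907) (nat_lit 320) (.e (nat_lit 1190) (nat_lit 88) (.e (nat_lit 65628) (nat_lit 14) (.e (nat_lit 401437) (nat_lit 9) .nil)))) .nil)))) (.nd (nat_lit 4) (.nd (nat_lit 5) 
(.lf (nat_lit 114570) (.g (nat_lit 4699) (.e (nat_lit 5907) (nat_lit 320) (.e (nat_lit 1181) (nat_lit 87) (.e (nat_lit 57480) (nat_lit 28) (.e (nat_lit 557109) (nat_lit 15) (.e (nat_lit 188449) (nat_lit 22) (.e (nat_lit 196666) (nat_lit 13) (.e (nat_lit 65550) (nat_lit 0) (.e (nat_lit 1040) (nat_lit 81) .nil)))))))) (.g (nat_lit 6) .nil .nil))) 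
(.lf (nat_lit 114602) (.g (nat_lit 435) (.e (nat_lit 5907) (nat_lit 320) (.e (nat_lit 1190) (nat_lit 88) (.e (nat_lit 65616) (nat_lit 10) .nil))) .nil))) (.nd (nat_lit 5) 
(.lf (nat_lit 114586) (.g (nat_lit 3238) (.e (nat_lit 5907) (nat_lit 320) (.e (nat_lit 1182) (nat_lit 87) (.e (nat_lit 57479) (nat_lit 28) (.e (nat_lit 557101) (nat_lit 13) (.e (nat_lit 172097) (nat_lit 9) (.e (nat_lit 426140) (nat_lit 3) (.e (nat_lit 204855) (nat_lit 26) (.e (nat_lit 335923) (nat_lit 0) (.e (nat_lit 1023) (nat_lit 81) .nil))))))))) (.g (nat_lit 5) .nil .nil))) 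
(.lf (nat_lit 114618) (.g (nat_lit 2662) (.e (nat_lit 5907) (nat_lit 320) (.e (nat_lit 1190) (nat_lit 88) (.e (nat_lit 65630) (nat_lit 14) (.e (nat_lit 401459) (nat_lit 13) (.e (nat_lit 483380) (nat_lit 23) .nil))))) .nil))))) (.nd (nat_lit 3) (.nd (nat_lit 4) (.nd (nat_lit 5) 
(.lf (nat_lit 114566) (.g (nat_lit 2696) (.e (nat_lit 5907) (nat_lit 320) (.e (nat_lit 1181) (nat_lit 87) (.e (nat_lit 57480) (nat_lit 28) (.e (nat_lit 557107) (nat_lit 15) (.e (nat_lit 188452) (nat_lit 23) .nil))))) .nil)) 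
(.lf (nat_lit 114598) (.g (nat_lit 914) (.e (nat_lit 5907) (nat_lit 320) (.e (nat_lit 1189) (nat_lit 88) (.e (nat_lit 65630) (nat_lit 14) (.e (nat_lit 401458) (nat_lit 13) .nil)))) .nil))) (.nd (nat_lit 5) 
(.lf (nat_lit 114582) (.g (nat_lit 3284) (.e (nat_lit 5907) (nat_lit 320) (.e (nat_lit 1182) (nat_lit 87) (.e (nat_lit 57479) (nat_lit 28) (.e (nat_lit 557095) (nat_lit 13) (.e (nat_lit 172097) (nat_lit 9) (.e (nat_lit 426125) (nat_lit 2) (.e (nat_lit 196666) (nat_lit 13) (.e (nat_lit 65550) (nat_lit 0) (.e (nat_lit 1040) (nat_lit 81) .nil))))))))) (.g (nat_lit 4) .nil .nil))) 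
(.lf (nat_lit 114614) (.g (nat_lit 2222) (.e (nat_lit 5907) (nat_lit 320) (.e (nat_lit 1190) (nat_lit 88) (.e (nat_lit 65630) (nat_lit 14) (.e (nat_lit 401457) (nat_lit 13) (.e (nat_lit 483394) (nat_lit 24) .nil))))) .nil)))) (.nd (nat_lit 4) (.nd (nat_lit 5) 
(.lf (nat_lit 114574) (.g (nat_lit 4604) (.e (nat_lit 5907) (nat_lit 320) (.e (nat_lit 1181) (nat_lit 87) (.e (nat_lit 57480) (nat_lit 28) (.e (nat_lit 557109) (nat_lit 15) (.e (nat_lit 188458) (nat_lit 25) (.e (nat_lit 245791) (nat_lit 14) (.e (nat_lit 73733) (nat_lit 0) .nil))))))) (.g (nat_lit 5) .nil .nil))) 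
(.lf (nat_lit 114606) (.g (nat_lit 1854) (.e (nat_lit 5907) (nat_lit 320) (.e (nat_lit 1190) (nat_lit 88) (.e (nat_lit 65619) (nat_lit 10) (.e (nat_lit 344169) (nat_lit 40) (.e (nat_lit 671745) (nat_lit 0) .nil))))) .nil))) (.nd (nat_lit 5) 
(.lf (nat_lit 114590) (.g (nat_lit 950) (.e (nat_lit 5907) (nat_lit 320) (.e (nat_lit 1187) (nat_lit 88) (.e (nat_lit 65630) (nat_lit 14) (.e (nat_lit 401436) (nat_lit 9) .nil)))) .nil)) 
(.lf (nat_lit 114622) (.g (nat_lit 1997) (.e (nat_lit 5907) (nat_lit 320) (.e (nat_lit 1196) (nat_lit 88) (.e (nat_lit 65628) (nat_lit 14) (.e (nat_lit 401458) (nat_lit 13) (.e (nat_lit 483395) (nat_lit 24) .nil))))) .nil))))))) (.nd (nat_lit 1) (.nd (nat_lit 2) (.nd (nat_lit 3) (.nd (nat_lit 4) (.nd (nat_lit 5) 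
(.lf (nat_lit 114561) (.g (nat_lit 2747) (.e (nat_lit 5907) (nat_lit 320) (.e (nat_lit 1181) (nat_lit 87) (.e (nat_lit 57480) (nat_lit 28) (.e (nat_lit 557107) (nat_lit 15) (.e (nat_lit 188447) (nat_lit 22) (.e (nat_lit 196666) (nat_lit 13) (.e (nat_lit 65553) (nat_lit 0) (.e (nat_lit 1023) (nat_lit 81) .nil)))))))) (.g (nat_lit 4) .nil .nil))) 
(.lf (nat_lit 114593) (.g (nat_lit 3434) (.e (nat_lit 5907) (nat_lit 320) (.e (nat_lit 1188) (nat_lit 88) (.e (nat_lit 65630) (nat_lit 14) (.e (nat_lit 401459) (nat_lit 13) (.e (nat_lit 483344) (nat_lit 17) (.e (nat_lit 6522) (nat_lit 349) (.e (nat_lit 122883) (nat_lit 0) .nil))))))) (.g (nat_lit 5) .nil .nil)))) (.nd (nat_lit 5) 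
(.lf (nat_lit 114577) (.g (nat_lit 3291) (.e (nat_lit 5907) (nat_lit 320) (.e (nat_lit 1182) (nat_lit 87) (.e (nat_lit 57478) (nat_lit 28) (.e (nat_lit 557101) (nat_lit 13) (.e (nat_lit 172097) (nat_lit 9) (.e (nat_lit 426125) (nat_lit 2) (.e (nat_lit 196666) (nat_lit 13) (.e (nat_lit 65546) (nat_lit 0) (.e (nat_lit 1023) (nat_lit 81) .nil))))))))) (.g (nat_lit 7) .nil .nil))) 
(.lf (nat_lit 114609) (.g (nat_lit 1230) (.e (nat_lit 5907) (nat_lit 320) (.e (nat_lit 1190) (nat_lit 88) (.e (nat_lit 65624) (nat_lit 12) (.e (nat_lit 385104) (nat_lit 50) .nil)))) .nil)))) (.nd (nat_lit 4) (.nd (nat_lit 5) 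
(.lf (nat_lit 114569) (.g (nat_lit 4826) (.e (nat_lit 5907) (nat_lit 320) (.e (nat_lit 1181) (nat_lit 87) (.e (nat_lit 57480) (nat_lit 28) (.e (nat_lit 557109) (nat_lit 15) (.e (nat_lit 188449) (nat_lit 22) (.e (nat_lit 196666) (nat_lit 13) (.e (nat_lit 65550) (nat_lit 0) (.e (nat_lit 1023) (nat_lit 81) .nil)))))))) (.g (nat_lit 6) .nil .nil))) 
(.lf (nat_lit 114601) (.g (nat_lit 699) (.e (nat_lit 5907) (nat_lit 320) (.e (nat_lit 1190) (nat_lit 88) (.e (nat_lit 65584) (nat_lit 7) (.e (nat_lit 319539) (nat_lit 19) .nil)))) .nil))) (.nd (nat_lit 5) 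
(.lf (nat_lit 114585) (.g (nat_lit 3242) (.e (nat_lit 5907) (nat_lit 320) (.e (nat_lit 1182) (nat_lit 87) (.e (nat_lit 57479) (nat_lit 28) (.e (nat_lit 557101) (nat_lit 13) (.e (nat_lit 172097) (nat_lit 9) (.e (nat_lit 426125) (nat_lit 2) (.e (nat_lit 196666) (nat_lit 13) (.e (nat_lit 65553) (nat_lit 0) (.e (nat_lit 1023) (nat_lit 81) .nil))))))))) (.g (nat_lit 5) .nil .nil))) 
(.lf (nat_lit 114617) (.g (nat_lit 2984) (.e (nat_lit 5907) (nat_lit 320) (.e (nat_lit 1190) (nat_lit 88) (.e (nat_lit 65630) (nat_lit 14) (.e (nat_lit 401459) (nat_lit 13) (.e (nat_lit 483354) (nat_lit 17) .nil))))) .nil))))) (.nd (nat_lit 3) (.nd (nat_lit 4) (.nd (nat_lit 5) 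
(.lf (nat_lit 114565) (.g (nat_lit 2839) (.e (nat_lit 5907) (nat_lit 320) (.e (nat_lit 1181) (nat_lit 87) (.e (nat_lit 57480) (nat_lit 28) (.e (nat_lit 557107) (nat_lit 15) (.e (nat_lit 188450) (nat_lit 23) (.e (nat_lit 204852) (nat_lit 26) (.e (nat_lit 335883) (nat_lit 0) (.e (nat_lit 1037) (nat_lit 81) .nil)))))))) (.g (nat_lit 4) .nil .nil))) 
(.lf (nat_lit 114597) (.g (nat_lit 2132) (.e (nat_lit 5907) (nat_lit 320) (.e (nat_lit 1189) (nat_lit 88) (.e (nat_lit 65628) (nat_lit 14) (.e (nat_lit 401459) (nat_lit 13) (.e (nat_lit 483400) (nat_lit 25) .nil))))) .nil))) (.nd (nat_lit 5) 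
(.lf (nat_lit 114581) (.g (nat_lit 2929) (.e (nat_lit 5907) (nat_lit 320) (.e (nat_lit 1182) (nat_lit 87) (.e (nat_lit 57479) (nat_lit 28) (.e (nat_lit 557095) (nat_lit 13) (.e (nat_lit 172097) (nat_lit 9) (.e (nat_lit 426125) (nat_lit 2) (.e (nat_lit 196666) (nat_lit 13) (.e (nat_lit 65546) (nat_lit 0) (.e (nat_lit 1023) (nat_lit 81) .nil))))))))) (.g (nat_lit 4) .nil .nil))) 
(.lf (nat_lit 114613) (.g (nat_lit 2179) (.e (nat_lit 5907) (nat_lit 320) (.e (nat_lit 1190) (nat_lit 88) (.e (nat_lit 65630) (nat_lit 14) (.e (nat_lit 401454) (nat_lit 12) (.e (nat_lit 483072) (nat_lit 13) .nil))))) .nil)))) (.nd (nat_lit 4) (.nd (nat_lit 5) 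
(.lf (nat_lit 114573) (.g (nat_lit 4525) (.e (nat_lit 5907) (nat_lit 320) (.e (nat_lit 1181) (nat_lit 87) (.e (nat_lit 57480) (nat_lit 28) (.e (nat_lit 557109) (nat_lit 15) (.e (nat_lit 188452) (nat_lit 23) (.e (nat_lit 204855) (nat_lit 26) (.e (nat_lit 335923) (nat_lit 0) (.e (nat_lit 1023) (nat_lit 81) .nil)))))))) (.g (nat_lit 6) .nil .nil))) 
(.lf (nat_lit 114605) (.g (nat_lit 1817) (.e (nat_lit 5907) (nat_lit 320) (.e (nat_lit 1190) (nat_lit 88) (.e (nat_lit 65619) (nat_lit 10) (.e (nat_lit 344168) (nat_lit 40) (.e (nat_lit 671747) (nat_lit 0) .nil))))) .nil))) (.nd (nat_lit 5) 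
(.lf (nat_lit 114589) (.g (nat_lit 3241) (.e (nat_lit 5907) (nat_lit 320) (.e (nat_lit 1182) (nat_lit 87) (.e (nat_lit 57480) (nat_lit 28) (.e (nat_lit 557109) (nat_lit 15) (.e (nat_lit 188449) (nat_lit 22) (.e (nat_lit 196666) (nat_lit 13) (.e (nat_lit 65546) (nat_lit 0) (.e (nat_lit 1023) (nat_lit 81) .nil)))))))) (.g (nat_lit 5) .nil .nil))) 
(.lf (nat_lit 114621) (.g (nat_lit 1811) (.e (nat_lit 5907) (nat_lit 320) (.e (nat_lit 1196) (nat_lit 88) (.e (nat_lit 65628) (nat_lit 14) (.e (nat_lit 401457) (nat_lit 13) (.e (nat_lit 483395) (nat_lit 24) .nil))))) .nil)))))) (.nd (nat_lit 2) (.nd (nat_lit 3) (.nd (nat_lit 4) (.nd (nat_lit 5) 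
(.lf (nat_lit 114563) (.g (nat_lit 2198) (.e (nat_lit 5907) (nat_lit 320) (.e (nat_lit 1181) (nat_lit 87) (.e (nat_lit 57480) (nat_lit 28) (.e (nat_lit 557107) (nat_lit 15) (.e (nat_lit 188450) (nat_lit 23) .nil))))) .nil)) 
(.lf (nat_lit 114595) (.g (nat_lit 1561) (.e (nat_lit 5907) (nat_lit 320) (.e (nat_lit 1189) (nat_lit 88) (.e (nat_lit 65628) (nat_lit 14) (.e (nat_lit 401458) (nat_lit 13) (.e (nat_lit 483398) (nat_lit 25) .nil))))) .nil))) (.nd (nat_lit 5) 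
(.lf (nat_lit 114579) (.g (nat_lit 2012) (.e (nat_lit 5907) (nat_lit 320) (.e (nat_lit 1182) (nat_lit 87) (.e (nat_lit 57478) (nat_lit 28) (.e (nat_lit 557107) (nat_lit 15) (.e (nat_lit 188447) (nat_lit 22) (.e (nat_lit 196666) (nat_lit 13) (.e (nat_lit 65553) (nat_lit 0) (.e (nat_lit 1023) (nat_lit 81) .nil)))))))) (.g (nat_lit 4) .nil .nil))) 
(.lf (nat_lit 114611) (.g (nat_lit 2938) (.e (nat_lit 5907) (nat_lit 320) (.e (nat_lit 1190) (nat_lit 88) (.e (nat_lit 65628) (nat_lit 14) (.e (nat_lit 401459) (nat_lit 13) (.e (nat_lit 483343) (nat_lit 17) (.e (nat_lit 6514) (nat_lit 346) (.e (nat_lit 57354) (nat_lit 0) .nil))))))) (.g (nat_lit 4) .nil .nil))))) (.nd (nat_lit 4) (.nd (nat_lit 5) 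
(.lf (nat_lit 114571) (.g (nat_lit 3388) (.e (nat_lit 5907) (nat_lit 320) (.e (nat_lit 1181) (nat_lit 87) (.e (nat_lit 57480) (nat_lit 28) (.e (nat_lit 557109) (nat_lit 15) (.e (nat_lit 188449) (nat_lit 22) (.e (nat_lit 196666) (nat_lit 13) (.e (nat_lit 65553) (nat_lit 0) (.e (nat_lit 1023) (nat_lit 81) .nil)))))))) (.g (nat_lit 5) .nil .nil))) 
(.lf (nat_lit 114603) (.g (nat_lit 1088) (.e (nat_lit 5907) (nat_lit 320) (.e (nat_lit 1190) (nat_lit 88) (.e (nat_lit 65619) (nat_lit 10) (.e (nat_lit 344168) (nat_lit 40) .nil)))) .nil))) (.nd (nat_lit 5) 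
(.lf (nat_lit 114587) (.g (nat_lit 2199) (.e (nat_lit 5907) (nat_lit 320) (.e (nat_lit 1182) (nat_lit 87) (.e (nat_lit 57479) (nat_lit 28) (.e (nat_lit 557101) (nat_lit 13) (.e (nat_lit 172097) (nat_lit 9) (.e (nat_lit 426140) (nat_lit 3) (.e (nat_lit 204855) (nat_lit 26) (.e (nat_lit 335923) (nat_lit 0) (.e (nat_lit 1040) (nat_lit 81) .nil))))))))) (.g (nat_lit 4) .nil .nil))) 
(.lf (nat_lit 114619) (.g (nat_lit 3378) (.e (nat_lit 5907) (nat_lit 320) (.e (nat_lit 1190) (nat_lit 88) (.e (nat_lit 65630) (nat_lit 14) (.e (nat_lit 401459) (nat_lit 13) (.e (nat_lit 483397) (nat_lit 25) .nil))))) .nil))))) (.nd (nat_lit 3) (.nd (nat_lit 4) (.nd (nat_lit 5) 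
(.lf (nat_lit 114567) (.g (nat_lit 4307) (.e (nat_lit 5907) (nat_lit 320) (.e (nat_lit 1181) (nat_lit 87) (.e (nat_lit 57480) (nat_lit 28) (.e (nat_lit 557109) (nat_lit 15) (.e (nat_lit 188449) (nat_lit 22) (.e (nat_lit 196666) (nat_lit 13) (.e (nat_lit 65546) (nat_lit 0) (.e (nat_lit 1023) (nat_lit 81) .nil)))))))) (.g (nat_lit 6) .nil .nil))) 
(.lf (nat_lit 114599) (.g (nat_lit 2445) (.e (nat_lit 5907) (nat_lit 320) (.e (nat_lit 1189) (nat_lit 88) (.e (nat_lit 65630) (nat_lit 14) (.e (nat_lit 401459) (nat_lit 13) (.e (nat_lit 483394) (nat_lit 24) .nil))))) .nil))) (.nd (nat_lit 5) 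
(.lf (nat_lit 114583) (.g (nat_lit 5159) (.e (nat_lit 5907) (nat_lit 320) (.e (nat_lit 1182) (nat_lit 87) (.e (nat_lit 57479) (nat_lit 28) (.e (nat_lit 557095) (nat_lit 13) (.e (nat_lit 172115) (nat_lit 10) (.e (nat_lit 434231) (nat_lit 23) (.e (nat_lit 532554) (nat_lit 13) (.e (nat_lit 368662) (nat_lit 18) .nil)))))))) (.g (nat_lit 7) .nil .nil))) 
(.lf (nat_lit 114615) (.g (nat_lit 3222) (.e (nat_lit 5907) (nat_lit 320) (.e (nat_lit 1190) (nat_lit 88) (.e (nat_lit 65630) (nat_lit 14) (.e (nat_lit 401459) (nat_lit 13) (.e (nat_lit 483343) (nat_lit 17) (.e (nat_lit 6514) (nat_lit 346) (.e (nat_lit 57354) (nat_lit 0) .nil))))))) (.g (nat_lit 4) .nil .nil))))) (.nd (nat_lit 4) (.nd (nat_lit 5) 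
(.lf (nat_lit 114575) (.g (nat_lit 2498) (.e (nat_lit 5907) (nat_lit 320) (.e (nat_lit 1181) (nat_lit 87) (.e (nat_lit 57520) (nat_lit 44) (.e (nat_lit 688177) (nat_lit 16) (.e (nat_lit 65581) (nat_lit 7) .nil))))) .nil)) 
(.lf (nat_lit 114607) (.g (nat_lit 1811) (.e (nat_lit 5907) (nat_lit 320) (.e (nat_lit 1190) (nat_lit 88) (.e (nat_lit 65619) (nat_lit 10) (.e (nat_lit 344169) (nat_lit 40) (.e (nat_lit 671747) (nat_lit 0) .nil))))) .nil))) (.nd (nat_lit 5) 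
(.lf (nat_lit 114591) (.g (nat_lit 2192) (.e (nat_lit 5907) (nat_lit 320) (.e (nat_lit 1187) (nat_lit 88) (.e (nat_lit 65630) (nat_lit 14) (.e (nat_lit 401437) (nat_lit 9) (.e (nat_lit 426546) (nat_lit 30) .nil))))) .nil)) 
(.lf (nat_lit 114623) (.g (nat_lit 1861) (.e (nat_lit 5907) (nat_lit 320) (.e (nat_lit 1196) (nat_lit 88) (.e (nat_lit 65630) (nat_lit 14) (.e (nat_lit 401436) (nat_lit 9) (.e (nat_lit 426546) (nat_lit 30) .nil))))) .nil))))))))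

noncomputable def tv1547 : DT := (.nd (nat_lit 0) (.nd (nat_lit 1) (.nd (nat_lit 2) (.nd (nat_lit 3) (.nd (nat_lit 4) (.nd (nat_lit 5) 
(.lf (nat_lit 114624) (.g (nat_lit 1015) (.e (nat_lit 5907) (nat_lit 320) (.e (nat_lit 1196) (nat_lit 88) (.e (nat_lit 65630) (nat_lit 14) (.e (nat_lit 401437) (nat_lit 9) .nil)))) .nil)) 
(.lf (nat_lit 114656) (.g (nat_lit 3534) (.e (nat_lit 5907) (nat_lit 320) (.e (nat_lit 1209) (nat_lit 89) (.e (nat_lit 73782) (nat_lit 32) (.e (nat_lit 3090) (nat_lit 191) (.e (nat_lit 483395) (nat_lit 24) (.e (nat_lit 344097) (nat_lit 18) .nil)))))) (.g (nat_lit 0) .nil .nil)))) (.nd (nat_lit 5) 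
(.lf (nat_lit 114640) (.g (nat_lit 747) (.e (nat_lit 5907) (nat_lit 320) (.e (nat_lit 1200) (nat_lit 88) (.e (nat_lit 65583) (nat_lit 7) (.e (nat_lit 319539) (nat_lit 19) .nil)))) .nil)) 
(.lf (nat_lit 114672) (.g (nat_lit 1198) (.e (nat_lit 5907) (nat_lit 320) (.e (nat_lit 1221) (nat_lit 90) (.e (nat_lit 81938) (nat_lit 20) (.e (nat_lit 1023) (nat_lit 81) .nil)))) .nil)))) (.nd (nat_lit 4) (.nd (nat_lit 5) 
(.lf (nat_lit 114632) (.g (nat_lit 1857) (.e (nat_lit 5907) (nat_lit 320) (.e (nat_lit 1199) (nat_lit 88) (.e (nat_lit 65619) (nat_lit 10) (.e (nat_lit 344097) (nat_lit 18) (.e (nat_lit 5905) (nat_lit 320) .nil))))) .nil)) 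
(.lf (nat_lit 114664) (.g (nat_lit 1802) (.e (nat_lit 5907) (nat_lit 320) (.e (nat_lit 1220) (nat_lit 90) (.e (nat_lit 81950) (nat_lit 21) (.e (nat_lit 57870) (nat_lit 264) (.e (nat_lit 992) (nat_lit 81) .nil))))) .nil))) (.nd (nat_lit 5) 
(.lf (nat_lit 114648) (.g (nat_lit 2934) (.e (nat_lit 5907) (nat_lit 320) (.e (nat_lit 1200) (nat_lit 88) (.e (nat_lit 65629) (nat_lit 14) (.e (nat_lit 401459) (nat_lit 13) (.e (nat_lit 483347) (nat_lit 17) .nil))))) .nil)) 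
(.lf (nat_lit 114680) (.g (nat_lit 1863) (.e (nat_lit 5907) (nat_lit 320) (.e (nat_lit 1221) (nat_lit 90) (.e (nat_lit 81957) (nat_lit 24) (.e (nat_lit 123197) (nat_lit 266) (.e (nat_lit 57427) (nat_lit 15) .nil))))) .nil))))) (.nd (nat_lit 3) (.nd (nat_lit 4) (.nd (nat_lit 5) 
(.lf (nat_lit 114628) (.g (nat_lit 862) (.e (nat_lit 5907) (nat_lit 320) (.e (nat_lit 1199) (nat_lit 88) (.e (nat_lit 65583) (nat_lit 7) (.e (nat_lit 319538) (nat_lit 19) .nil)))) .nil)) 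
(.lf (nat_lit 114660) (.g (nat_lit 1865) (.e (nat_lit 5907) (nat_lit 320) (.e (nat_lit 1219) (nat_lit 90) (.e (nat_lit 81957) (nat_lit 24) (.e (nat_lit 123195) (nat_lit 266) (.e (nat_lit 57428) (nat_lit 15) .nil))))) .nil))) (.nd (nat_lit 5) 
(.lf (nat_lit 114644) (.g (nat_lit 1523) (.e (nat_lit 5907) (nat_lit 320) (.e (nat_lit 1200) (nat_lit 88) (.e (nat_lit 65619) (nat_lit 10) (.e (nat_lit 344169) (nat_lit 40) (.e (nat_lit 671748) (nat_lit 0) .nil))))) .nil)) 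
(.lf (nat_lit 114676) (.g (nat_lit 4691) (.e (nat_lit 5907) (nat_lit 320) (.e (nat_lit 1221) (nat_lit 90) (.e (nat_lit 81950) (nat_lit 21) (.e (nat_lit 57872) (nat_lit 264) (.e (nat_lit 1190) (nat_lit 88) (.e (nat_lit 65619) (nat_lit 10) (.e (nat_lit 344097) (nat_lit 18) .nil))))))) (.g (nat_lit 0) .nil .nil))))) (.nd (nat_lit 4) (.nd (nat_lit 5) 
(.lf (nat_lit 114636) (.g (nat_lit 2297) (.e (nat_lit 5907) (nat_lit 320) (.e (nat_lit 1199) (nat_lit 88) (.e (nat_lit 65630) (nat_lit 14) (.e (nat_lit 401454) (nat_lit 12) (.e (nat_lit 483072) (nat_lit 13) .nil))))) .nil)) 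
(.lf (nat_lit 114668) (.g (nat_lit 2384) (.e (nat_lit 5907) (nat_lit 320) (.e (nat_lit 1220) (nat_lit 90) (.e (nat_lit 81959) (nat_lit 24) (.e (nat_lit 123195) (nat_lit 266) (.e (nat_lit 57428) (nat_lit 15) .nil))))) .nil))) (.nd (nat_lit 5) 
(.lf (nat_lit 114652) (.g (nat_lit 1779) (.e (nat_lit 5907) (nat_lit 320) (.e (nat_lit 1209) (nat_lit 89) (.e (nat_lit 73781) (nat_lit 32) (.e (nat_lit 3090) (nat_lit 191) (.e (nat_lit 483397) (nat_lit 25) .nil))))) .nil)) 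
(.lf (nat_lit 114684) (.g (nat_lit 3246) (.e (nat_lit 5907) (nat_lit 320) (.e (nat_lit 1221) (nat_lit 90) (.e (nat_lit 81959) (nat_lit 24) (.e (nat_lit 123182) (nat_lit 264) (.e (nat_lit 982) (nat_lit 81) .nil))))) .nil)))))) (.nd (nat_lit 2) (.nd (nat_lit 3) (.nd (nat_lit 4) (.nd (nat_lit 5) 
(.lf (nat_lit 114626) (.g (nat_lit 2700) (.e (nat_lit 5907) (nat_lit 320) (.e (nat_lit 1196) (nat_lit 88) (.e (nat_lit 65630) (nat_lit 14) (.e (nat_lit 401459) (nat_lit 13) (.e (nat_lit 483344) (nat_lit 17) .nil))))) .nil)) 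
(.lf (nat_lit 114658) (.g (nat_lit 1912) (.e (nat_lit 5907) (nat_lit 320) (.e (nat_lit 1211) (nat_lit 89) (.e (nat_lit 73781) (nat_lit 32) (.e (nat_lit 3090) (nat_lit 191) (.e (nat_lit 483400) (nat_lit 25) (.e (nat_lit 368662) (nat_lit 18) .nil)))))) (.g (nat_lit 4) .nil .nil)))) (.nd (nat_lit 5) 
(.lf (nat_lit 114642) (.g (nat_lit 1664) (.e (nat_lit 5907) (nat_lit 320) (.e (nat_lit 1200) (nat_lit 88) (.e (nat_lit 65619) (nat_lit 10) (.e (nat_lit 344168) (nat_lit 40) (.e (nat_lit 671745) (nat_lit 0) .nil))))) .nil)) 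
(.lf (nat_lit 114674) (.g (nat_lit 1462) (.e (nat_lit 5907) (nat_lit 320) (.e (nat_lit 1221) (nat_lit 90) (.e (nat_lit 81947) (nat_lit 20) (.e (nat_lit 2005) (nat_lit 138) (.e (nat_lit 671748) (nat_lit 0) .nil))))) .nil)))) (.nd (nat_lit 4) (.nd (nat_lit 5) 
(.lf (nat_lit 114634) (.g (nat_lit 1910) (.e (nat_lit 5907) (nat_lit 320) (.e (nat_lit 1199) (nat_lit 88) (.e (nat_lit 65619) (nat_lit 10) (.e (nat_lit 344097) (nat_lit 18) (.e (nat_lit 5907) (nat_lit 320) .nil))))) .nil)) 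
(.lf (nat_lit 114666) (.g (nat_lit 3253) (.e (nat_lit 5907) (nat_lit 320) (.e (nat_lit 1220) (nat_lit 90) (.e (nat_lit 81959) (nat_lit 24) (.e (nat_lit 123182) (nat_lit 264) (.e (nat_lit 1187) (nat_lit 88) .nil))))) .nil))) (.nd (nat_lit 5) 
(.lf (nat_lit 114650) (.g (nat_lit 2890) (.e (nat_lit 5907) (nat_lit 320) (.e (nat_lit 1200) (nat_lit 88) (.e (nat_lit 65630) (nat_lit 14) (.e (nat_lit 401459) (nat_lit 13) (.e (nat_lit 483396) (nat_lit 24) .nil))))) .nil)) 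
(.lf (nat_lit 114682) (.g (nat_lit 2220) (.e (nat_lit 5907) (nat_lit 320) (.e (nat_lit 1221) (nat_lit 90) (.e (nat_lit 81959) (nat_lit 24) (.e (nat_lit 123181) (nat_lit 264) (.e (nat_lit 1187) (nat_lit 88) .nil))))) .nil))))) (.nd (nat_lit 3) (.nd (nat_lit 4) (.nd (nat_lit 5) 
(.lf (nat_lit 114630) (.g (nat_lit 1576) (.e (nat_lit 5907) (nat_lit 320) (.e (nat_lit 1199) (nat_lit 88) (.e (nat_lit 65617) (nat_lit 10) (.e (nat_lit 344091) (nat_lit 18) (.e (nat_lit 5896) (nat_lit 320) .nil))))) .nil)) 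
(.lf (nat_lit 114662) (.g (nat_lit 3609) (.e (nat_lit 5907) (nat_lit 320) (.e (nat_lit 1219) (nat_lit 90) (.e (nat_lit 81959) (nat_lit 24) (.e (nat_lit 123183) (nat_lit 264) (.e (nat_lit 1201) (nat_lit 88) (.e (nat_lit 65610) (nat_lit 10) (.e (nat_lit 344097) (nat_lit 18) .nil))))))) (.g (nat_lit 6) .nil .nil)))) (.nd (nat_lit 5) 
(.lf (nat_lit 114646) (.g (nat_lit 2353) (.e (nat_lit 5907) (nat_lit 320) (.e (nat_lit 1200) (nat_lit 88) (.e (nat_lit 65628) (nat_lit 14) (.e (nat_lit 401459) (nat_lit 13) (.e (nat_lit 483347) (nat_lit 17) .nil))))) .nil)) 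
(.lf (nat_lit 114678) (.g (nat_lit 4486) (.e (nat_lit 5907) (nat_lit 320) (.e (nat_lit 1221) (nat_lit 90) (.e (nat_lit 81950) (nat_lit 21) (.e (nat_lit 57873) (nat_lit 264) (.e (nat_lit 1200) (nat_lit 88) (.e (nat_lit 65619) (nat_lit 10) (.e (nat_lit 344097) (nat_lit 18) .nil))))))) (.g (nat_lit 0) .nil .nil))))) (.nd (nat_lit 4) (.nd (nat_lit 5) 
(.lf (nat_lit 114638) (.g (nat_lit 3557) (.e (nat_lit 5907) (nat_lit 320) (.e (nat_lit 1199) (nat_lit 88) (.e (nat_lit 65630) (nat_lit 14) (.e (nat_lit 401459) (nat_lit 13) (.e (nat_lit 483344) (nat_lit 17) (.e (nat_lit 6522) (nat_lit 349) (.e (nat_lit 122883) (nat_lit 0) .nil))))))) (.g (nat_lit 5) .nil .nil))) 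
(.lf (nat_lit 114670) (.g (nat_lit 1475) (.e (nat_lit 5907) (nat_lit 320) (.e (nat_lit 1220) (nat_lit 90) (.e (nat_lit 81959) (nat_lit 24) (.e (nat_lit 123198) (nat_lit 266) .nil)))) .nil))) (.nd (nat_lit 5) 
(.lf (nat_lit 114654) (.g (nat_lit 3708) (.e (nat_lit 5907) (nat_lit 320) (.e (nat_lit 1209) (nat_lit 89) (.e (nat_lit 73782) (nat_lit 32) (.e (nat_lit 3090) (nat_lit 191) (.e (nat_lit 483394) (nat_lit 24) (.e (nat_lit 344097) (nat_lit 18) .nil)))))) (.g (nat_lit 0) .nil .nil))) 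
(.lf (nat_lit 114686) (.g (nat_lit 3190) (.e (nat_lit 5907) (nat_lit 320) (.e (nat_lit 1221) (nat_lit 90) (.e (nat_lit 81959) (nat_lit 24) (.e (nat_lit 123182) (nat_lit 264) (.e (nat_lit 1028) (nat_lit 81) .nil))))) .nil))))))) (.nd (nat_lit 1) (.nd (nat_lit 2) (.nd (nat_lit 3) (.nd (nat_lit 4) (.nd (nat_lit 5) 
(.lf (nat_lit 114625) (.g (nat_lit 1897) (.e (nat_lit 5907) (nat_lit 320) (.e (nat_lit 1196) (nat_lit 88) (.e (nat_lit 65630) (nat_lit 14) (.e (nat_lit 401458) (nat_lit 13) (.e (nat_lit 483395) (nat_lit 24) .nil))))) .nil)) 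
(.lf (nat_lit 114657) (.g (nat_lit 1752) (.e (nat_lit 5907) (nat_lit 320) (.e (nat_lit 1209) (nat_lit 89) (.e (nat_lit 73782) (nat_lit 32) (.e (nat_lit 3090) (nat_lit 191) (.e (nat_lit 483397) (nat_lit 25) .nil))))) .nil))) (.nd (nat_lit 5) 
(.lf (nat_lit 114641) (.g (nat_lit 581) (.e (nat_lit 5907) (nat_lit 320) (.e (nat_lit 1200) (nat_lit 88) (.e (nat_lit 65585) (nat_lit 7) (.e (nat_lit 319539) (nat_lit 19) .nil)))) .nil)) 
(.lf (nat_lit 114673) (.g (nat_lit 1527) (.e (nat_lit 5907) (nat_lit 320) (.e (nat_lit 1221) (nat_lit 90) (.e (nat_lit 81947) (nat_lit 20) (.e (nat_lit 991) (nat_lit 81) (.e (nat_lit 5862) (nat_lit 320) .nil))))) .nil)))) (.nd (nat_lit 4) (.nd (nat_lit 5) 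
(.lf (nat_lit 114633) (.g (nat_lit 1850) (.e (nat_lit 5907) (nat_lit 320) (.e (nat_lit 1199) (nat_lit 88) (.e (nat_lit 65619) (nat_lit 10) (.e (nat_lit 344097) (nat_lit 18) (.e (nat_lit 5906) (nat_lit 320) .nil))))) .nil)) 
(.lf (nat_lit 114665) (.g (nat_lit 2980) (.e (nat_lit 5907) (nat_lit 320) (.e (nat_lit 1220) (nat_lit 90) (.e (nat_lit 81957) (nat_lit 24) (.e (nat_lit 123182) (nat_lit 264) (.e (nat_lit 1201) (nat_lit 88) (.e (nat_lit 65610) (nat_lit 10) (.e (nat_lit 344097) (nat_lit 18) .nil))))))) (.g (nat_lit 4) .nil .nil)))) (.nd (nat_lit 5) 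
(.lf (nat_lit 114649) (.g (nat_lit 2776) (.e (nat_lit 5907) (nat_lit 320) (.e (nat_lit 1200) (nat_lit 88) (.e (nat_lit 65630) (nat_lit 14) (.e (nat_lit 401459) (nat_lit 13) (.e (nat_lit 483343) (nat_lit 17) .nil))))) .nil)) 
(.lf (nat_lit 114681) (.g (nat_lit 1078) (.e (nat_lit 5907) (nat_lit 320) (.e (nat_lit 1221) (nat_lit 90) (.e (nat_lit 81957) (nat_lit 24) (.e (nat_lit 123198) (nat_lit 266) .nil)))) .nil))))) (.nd (nat_lit 3) (.nd (nat_lit 4) (.nd (nat_lit 5) 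
(.lf (nat_lit 114629) (.g (nat_lit 1942) (.e (nat_lit 5907) (nat_lit 320) (.e (nat_lit 1199) (nat_lit 88) (.e (nat_lit 65610) (nat_lit 10) (.e (nat_lit 344097) (nat_lit 18) (.e (nat_lit 5905) (nat_lit 320) (.e (nat_lit 992) (nat_lit 81) (.e (nat_lit 1595) (nat_lit 111) (.e (nat_lit 360453) (nat_lit 0) .nil)))))))) (.g (nat_lit 4) .nil .nil))) 
(.lf (nat_lit 114661) (.g (nat_lit 2761) (.e (nat_lit 5907) (nat_lit 320) (.e (nat_lit 1219) (nat_lit 90) (.e (nat_lit 81959) (nat_lit 24) (.e (nat_lit 123182) (nat_lit 264) (.e (nat_lit 1187) (nat_lit 88) (.e (nat_lit 65619) (nat_lit 10) (.e (nat_lit 344097) (nat_lit 18) .nil))))))) (.g (nat_lit 4) .nil .nil)))) (.nd (nat_lit 5) 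
(.lf (nat_lit 114645) (.g (nat_lit 1960) (.e (nat_lit 5907) (nat_lit 320) (.e (nat_lit 1200) (nat_lit 88) (.e (nat_lit 65628) (nat_lit 14) (.e (nat_lit 401454) (nat_lit 12) (.e (nat_lit 483072) (nat_lit 13) .nil))))) .nil)) 
(.lf (nat_lit 114677) (.g (nat_lit 4525) (.e (nat_lit 5907) (nat_lit 320) (.e (nat_lit 1221) (nat_lit 90) (.e (nat_lit 81950) (nat_lit 21) (.e (nat_lit 57872) (nat_lit 264) (.e (nat_lit 1200) (nat_lit 88) (.e (nat_lit 65619) (nat_lit 10) (.e (nat_lit 344097) (nat_lit 18) .nil))))))) (.g (nat_lit 0) .nil .nil))))) (.nd (nat_lit 4) (.nd (nat_lit 5) 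
(.lf (nat_lit 114637) (.g (nat_lit 2689) (.e (nat_lit 5907) (nat_lit 320) (.e (nat_lit 1199) (nat_lit 88) (.e (nat_lit 65630) (nat_lit 14) (.e (nat_lit 401458) (nat_lit 13) (.e (nat_lit 483396) (nat_lit 24) (.e (nat_lit 344100) (nat_lit 18) .nil)))))) (.g (nat_lit 5) .nil .nil))) 
(.lf (nat_lit 114669) (.g (nat_lit 2106) (.e (nat_lit 5907) (nat_lit 320) (.e (nat_lit 1220) (nat_lit 90) (.e (nat_lit 81959) (nat_lit 24) (.e (nat_lit 123197) (nat_lit 266) (.e (nat_lit 57427) (nat_lit 15) .nil))))) .nil))) (.nd (nat_lit 5) 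
(.lf (nat_lit 114653) (.g (nat_lit 2112) (.e (nat_lit 5907) (nat_lit 320) (.e (nat_lit 1209) (nat_lit 89) (.e (nat_lit 73781) (nat_lit 32) (.e (nat_lit 3090) (nat_lit 191) (.e (nat_lit 483400) (nat_lit 25) (.e (nat_lit 368662) (nat_lit 18) .nil)))))) (.g (nat_lit 4) .nil .nil))) 
(.lf (nat_lit 114685) (.g (nat_lit 3260) (.e (nat_lit 5907) (nat_lit 320) (.e (nat_lit 1221) (nat_lit 90) (.e (nat_lit 81959) (nat_lit 24) (.e (nat_lit 123182) (nat_lit 264) (.e (nat_lit 1016) (nat_lit 81) .nil))))) .nil)))))) (.nd (nat_lit 2) (.nd (nat_lit 3) (.nd (nat_lit 4) (.nd (nat_lit 5) 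
(.lf (nat_lit 114627) (.g (nat_lit 2989) (.e (nat_lit 5907) (nat_lit 320) (.e (nat_lit 1196) (nat_lit 88) (.e (nat_lit 65630) (nat_lit 14) (.e (nat_lit 401459) (nat_lit 13) (.e (nat_lit 483398) (nat_lit 25) .nil))))) .nil)) 
(.lf (nat_lit 114659) (.g (nat_lit 1071) (.e (nat_lit 5907) (nat_lit 320) (.e (nat_lit 1219) (nat_lit 90) (.e (nat_lit 81946) (nat_lit 20) (.e (nat_lit 2005) (nat_lit 138) (.e (nat_lit 671744) (nat_lit 0) .nil))))) .nil))) (.nd (nat_lit 5) 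
(.lf (nat_lit 114643) (.g (nat_lit 1741) (.e (nat_lit 5907) (nat_lit 320) (.e (nat_lit 1200) (nat_lit 88) (.e (nat_lit 65619) (nat_lit 10) (.e (nat_lit 344169) (nat_lit 40) (.e (nat_lit 671745) (nat_lit 0) .nil))))) .nil)) 
(.lf (nat_lit 114675) (.g (nat_lit 1589) (.e (nat_lit 5907) (nat_lit 320) (.e (nat_lit 1221) (nat_lit 90) (.e (nat_lit 81947) (nat_lit 20) (.e (nat_lit 2006) (nat_lit 138) (.e (nat_lit 671748) (nat_lit 0) .nil))))) .nil)))) (.nd (nat_lit 4) (.nd (nat_lit 5) 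
(.lf (nat_lit 114635) (.g (nat_lit 2837) (.e (nat_lit 5907) (nat_lit 320) (.e (nat_lit 1199) (nat_lit 88) (.e (nat_lit 65628) (nat_lit 14) (.e (nat_lit 401459) (nat_lit 13) (.e (nat_lit 483344) (nat_lit 17) (.e (nat_lit 6513) (nat_lit 346) (.e (nat_lit 57354) (nat_lit 0) .nil))))))) (.g (nat_lit 5) .nil .nil))) 
(.lf (nat_lit 114667) (.g (nat_lit 4772) (.e (nat_lit 5907) (nat_lit 320) (.e (nat_lit 1220) (nat_lit 90) (.e (nat_lit 81959) (nat_lit 24) (.e (nat_lit 123182) (nat_lit 264) (.e (nat_lit 1201) (nat_lit 88) (.e (nat_lit 65610) (nat_lit 10) (.e (nat_lit 344097) (nat_lit 18) .nil))))))) (.g (nat_lit 6) .nil .nil)))) (.nd (nat_lit 5) 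
(.lf (nat_lit 114651) (.g (nat_lit 3077) (.e (nat_lit 5907) (nat_lit 320) (.e (nat_lit 1200) (nat_lit 88) (.e (nat_lit 65630) (nat_lit 14) (.e (nat_lit 401459) (nat_lit 13) (.e (nat_lit 483400) (nat_lit 25) (.e (nat_lit 368662) (nat_lit 18) .nil)))))) (.g (nat_lit 4) .nil .nil))) 
(.lf (nat_lit 114683) (.g (nat_lit 1320) (.e (nat_lit 5907) (nat_lit 320) (.e (nat_lit 1221) (nat_lit 90) (.e (nat_lit 81959) (nat_lit 24) (.e (nat_lit 123182) (nat_lit 264) .nil)))) .nil))))) (.nd (nat_lit 3) (.nd (nat_lit 4) (.nd (nat_lit 5) 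
(.lf (nat_lit 114631) (.g (nat_lit 1366) (.e (nat_lit 5907) (nat_lit 320) (.e (nat_lit 1199) (nat_lit 88) (.e (nat_lit 65617) (nat_lit 10) (.e (nat_lit 344169) (nat_lit 40) (.e (nat_lit 671748) (nat_lit 0) .nil))))) .nil)) 
(.lf (nat_lit 114663) (.g (nat_lit 1308) (.e (nat_lit 5907) (nat_lit 320) (.e (nat_lit 1220) (nat_lit 90) (.e (nat_lit 81938) (nat_lit 20) (.e (nat_lit 2003) (nat_lit 138) .nil)))) .nil))) (.nd (nat_lit 5) 
(.lf (nat_lit 114647) (.g (nat_lit 3123) (.e (nat_lit 5907) (nat_lit 320) (.e (nat_lit 1200) (nat_lit 88) (.e (nat_lit 65628) (nat_lit 14) (.e (nat_lit 401459) (nat_lit 13) (.e (nat_lit 483397) (nat_lit 25) (.e (nat_lit 368662) (nat_lit 18) .nil)))))) (.g (nat_lit 4) .nil .nil))) 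
(.lf (nat_lit 114679) (.g (nat_lit 3911) (.e (nat_lit 5907) (nat_lit 320) (.e (nat_lit 1221) (nat_lit 90) (.e (nat_lit 81957) (nat_lit 24) (.e (nat_lit 123183) (nat_lit 264) (.e (nat_lit 1201) (nat_lit 88) (.e (nat_lit 65610) (nat_lit 10) (.e (nat_lit 344097) (nat_lit 18) .nil))))))) (.g (nat_lit 6) .nil .nil))))) (.nd (nat_lit 4) (.nd (nat_lit 5) 
(.lf (nat_lit 114639) (.g (nat_lit 3693) (.e (nat_lit 5907) (nat_lit 320) (.e (nat_lit 1199) (nat_lit 88) (.e (nat_lit 65630) (nat_lit 14) (.e (nat_lit 401459) (nat_lit 13) (.e (nat_lit 483397) (nat_lit 25) (.e (nat_lit 368662) (nat_lit 18) .nil)))))) (.g (nat_lit 4) .nil .nil))) 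
(.lf (nat_lit 114671) (.g (nat_lit 1215) (.e (nat_lit 5907) (nat_lit 320) (.e (nat_lit 1221) (nat_lit 90) (.e (nat_lit 81937) (nat_lit 20) (.e (nat_lit 1068) (nat_lit 81) .nil)))) .nil))) (.nd (nat_lit 5) 
(.lf (nat_lit 114655) (.g (nat_lit 2290) (.e (nat_lit 5907) (nat_lit 320) (.e (nat_lit 1209) (nat_lit 89) (.e (nat_lit 73782) (nat_lit 32) (.e (nat_lit 3090) (nat_lit 191) (.e (nat_lit 483394) (nat_lit 24) (.e (nat_lit 344100) (nat_lit 18) .nil)))))) (.g (nat_lit 4) .nil .nil))) 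
(.lf (nat_lit 114687) (.g (nat_lit 3205) (.e (nat_lit 5907) (nat_lit 320) (.e (nat_lit 1221) (nat_lit 90) (.e (nat_lit 81959) (nat_lit 24) (.e (nat_lit 123182) (nat_lit 264) (.e (nat_lit 1187) (nat_lit 88) .nil))))) .nil))))))))

noncomputable def tv1548 : DT := (.nd (nat_lit 0) (.nd (nat_lit 1) (.nd (nat_lit 2) (.nd (nat_lit 3) (.nd (nat_lit 4) (.nd (nat_lit 5) (.nd (nat_lit 6) 
(.lf (nat_lit 114688) (.g (nat_lit 2951) (.e (nat_lit 5907) (nat_lit 320) (.e (nat_lit 1221) (nat_lit 90) (.e (nat_lit 81959) (nat_lit 24) (.e (nat_lit 123182) (nat_lit 264) (.e (nat_lit 1191) (nat_lit 88) .nil))))) .nil)) 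
(.lf (nat_lit 114752) (.g (nat_lit 1859) (.e (nat_lit 5920) (nat_lit 320) (.e (nat_lit 1196) (nat_lit 88) (.e (nat_lit 65628) (nat_lit 14) (.e (nat_lit 401459) (nat_lit 13) (.e (nat_lit 483395) (nat_lit 24) .nil))))) .nil))) (.nd (nat_lit 6) 
(.lf (nat_lit 114720) (.g (nat_lit 1126) (.e (nat_lit 5909) (nat_lit 320) (.e (nat_lit 1190) (nat_lit 88) (.e (nat_lit 65619) (nat_lit 10) (.e (nat_lit 344168) (nat_lit 40) .nil)))) .nil)) 
(.lf (nat_lit 114784) (.g (nat_lit 1507) (.e (nat_lit 5933) (nat_lit 322) (.e (nat_lit 57379) (nat_lit 3) (.e (nat_lit 98372) (nat_lit 29) (.e (nat_lit 458496) (nat_lit 23) .nil)))) .nil)))) (.nd (nat_lit 5) (.nd (nat_lit 6) 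
(.lf (nat_lit 114704) (.g (nat_lit 1996) (.e (nat_lit 5907) (nat_lit 320) (.e (nat_lit 1221) (nat_lit 90) (.e (nat_lit 81959) (nat_lit 24) (.e (nat_lit 123197) (nat_lit 266) (.e (nat_lit 57427) (nat_lit 15) .nil))))) .nil)) 
(.lf (nat_lit 114768) (.g (nat_lit 3525) (.e (nat_lit 5932) (nat_lit 322) (.e (nat_lit 57390) (nat_lit 5) (.e (nat_lit 114723) (nat_lit 24) (.e (nat_lit 106534) (nat_lit 11) (.e (nat_lit 16473) (nat_lit 14) (.e (nat_lit 491560) (nat_lit 10) (.e (nat_lit 344089) (nat_lit 18) .nil))))))) (.g (nat_lit 6) .nil .nil)))) (.nd (nat_lit 6) 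
(.lf (nat_lit 114736) (.g (nat_lit 1214) (.e (nat_lit 5909) (nat_lit 320) (.e (nat_lit 1200) (nat_lit 88) (.e (nat_lit 65628) (nat_lit 14) (.e (nat_lit 401436) (nat_lit 9) .nil)))) .nil)) 
(.lf (nat_lit 114800) (.g (nat_lit 2144) (.e (nat_lit 5934) (nat_lit 322) (.e (nat_lit 57371) (nat_lit 2) (.e (nat_lit 90172) (nat_lit 14) (.e (nat_lit 180243) (nat_lit 5) (.e (nat_lit 532515) (nat_lit 3) (.e (nat_lit 114716) (nat_lit 22) (.e (nat_lit 90181) (nat_lit 16) (.e (nat_lit 229380) (nat_lit 0) .nil)))))))) (.g (nat_lit 4) .nil .nil)))))) 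
(.nd (nat_lit 4) (.nd (nat_lit 5) (.nd (nat_lit 6) 
(.lf (nat_lit 114696) (.g (nat_lit 2351) (.e (nat_lit 5907) (nat_lit 320) (.e (nat_lit 1221) (nat_lit 90) (.e (nat_lit 81959) (nat_lit 24) (.e (nat_lit 123186) (nat_lit 264) (.e (nat_lit 1187) (nat_lit 88) .nil))))) .nil)) 
(.lf (nat_lit 114760) (.g (nat_lit 584) (.e (nat_lit 7936) (nat_lit 320) (.e (nat_lit 1212) (nat_lit 89) (.e (nat_lit 73789) (nat_lit 45) .nil))) .nil))) (.nd (nat_lit 6) 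
(.lf (nat_lit 114728) (.g (nat_lit 2127) (.e (nat_lit 5909) (nat_lit 320) (.e (nat_lit 1190) (nat_lit 88) (.e (nat_lit 65624) (nat_lit 12) (.e (nat_lit 385106) (nat_lit 50) (.e (nat_lit 786481) (nat_lit 30) .nil))))) .nil)) 
(.lf (nat_lit 114792) (.g (nat_lit 641) (.e (nat_lit 5934) (nat_lit 322) (.e (nat_lit 57371) (nat_lit 2) (.e (nat_lit 90169) (nat_lit 13) .nil))) .nil)))) (.nd (nat_lit 5) (.nd (nat_lit 6) 
(.lf (nat_lit 114712) (.g (nat_lit 2020) (.e (nat_lit 5908) (nat_lit 320) (.e (nat_lit 1199) (nat_lit 88) (.e (nat_lit 65628) (nat_lit 14) (.e (nat_lit 401459) (nat_lit 13) (.e (nat_lit 483399) (nat_lit 25) .nil))))) .nil)) 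
(.lf (nat_lit 114776) (.g (nat_lit 1506) (.e (nat_lit 5933) (nat_lit 322) (.e (nat_lit 57375) (nat_lit 2) (.e (nat_lit 90176) (nat_lit 15) (.e (nat_lit 188459) (nat_lit 26) .nil)))) .nil))) (.nd (nat_lit 6) 
(.lf (nat_lit 114744) (.g (nat_lit 1438) (.e (nat_lit 5909) (nat_lit 320) (.e (nat_lit 1221) (nat_lit 90) (.e (nat_lit 81959) (nat_lit 24) (.e (nat_lit 123195) (nat_lit 266) .nil)))) .nil)) 
(.lf (nat_lit 114808) (.g (nat_lit 3291) (.e (nat_lit 5934) (nat_lit 322) (.e (nat_lit 57371) (nat_lit 2) (.e (nat_lit 90172) (nat_lit 14) (.e (nat_lit 180244) (nat_lit 5) (.e (nat_lit 532513) (nat_lit 3) (.e (nat_lit 114718) (nat_lit 23) (.e (nat_lit 98325) (nat_lit 17) (.e (nat_lit 2515) (nat_lit 157) .nil)))))))) (.g (nat_lit 5) .nil .nil))))))) 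
(.nd (nat_lit 3) (.nd (nat_lit 4) (.nd (nat_lit 5) (.nd (nat_lit 6) 
(.lf (nat_lit 114692) (.g (nat_lit 2425) (.e (nat_lit 5907) (nat_lit 320) (.e (nat_lit 1221) (nat_lit 90) (.e (nat_lit 81959) (nat_lit 24) (.e (nat_lit 123182) (nat_lit 264) (.e (nat_lit 1201) (nat_lit 88) .nil))))) .nil)) 
(.lf (nat_lit 114756) (.g (nat_lit 1729) (.e (nat_lit 5920) (nat_lit 320) (.e (nat_lit 1197) (nat_lit 88) (.e (nat_lit 65630) (nat_lit 14) (.e (nat_lit 401458) (nat_lit 13) (.e (nat_lit 483396) (nat_lit 24) .nil))))) .nil))) (.nd (nat_lit 6) 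
(.lf (nat_lit 114724) (.g (nat_lit 1761) (.e (nat_lit 5909) (nat_lit 320) (.e (nat_lit 1190) (nat_lit 88) (.e (nat_lit 65622) (nat_lit 12) (.e (nat_lit 385105) (nat_lit 50) (.e (nat_lit 786481) (nat_lit 30) .nil))))) .nil)) 
(.lf (nat_lit 114788) (.g (nat_lit 2189) (.e (nat_lit 5933) (nat_lit 322) (.e (nat_lit 57448) (nat_lit 19) (.e (nat_lit 393234) (nat_lit 17) (.e (nat_lit 7581) (nat_lit 405) (.e (nat_lit 57476) (nat_lit 28) .nil))))) .nil)))) (.nd (nat_lit 5) (.nd (nat_lit 6) 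
(.lf (nat_lit 114708) (.g (nat_lit 1903) (.e (nat_lit 5907) (nat_lit 320) (.e (nat_lit 1221) (nat_lit 90) (.e (nat_lit 81959) (nat_lit 24) (.e (nat_lit 123229) (nat_lit 282) .nil)))) .nil)) 
(.lf (nat_lit 114772) (.g (nat_lit 2946) (.e (nat_lit 5933) (nat_lit 322) (.e (nat_lit 57375) (nat_lit 2) (.e (nat_lit 90172) (nat_lit 14) (.e (nat_lit 180244) (nat_lit 5) (.e (nat_lit 532513) (nat_lit 3) (.e (nat_lit 114714) (nat_lit 22) (.e (nat_lit 90165) (nat_lit 12) (.e (nat_lit 171776) (nat_lit 0) .nil)))))))) (.g (nat_lit 5) .nil .nil)))) (.nd (nat_lit 6) 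
(.lf (nat_lit 114740) (.g (nat_lit 330) (.e (nat_lit 5909) (nat_lit 320) (.e (nat_lit 1211) (nat_lit 89) (.e (nat_lit 81664) (nat_lit 39) .nil))) .nil)) 
(.lf (nat_lit 114804) (.g (nat_lit 3079) (.e (nat_lit 5934) (nat_lit 322) (.e (nat_lit 57371) (nat_lit 2) (.e (nat_lit 90172) (nat_lit 14) (.e (nat_lit 180244) (nat_lit 5) (.e (nat_lit 532513) (nat_lit 3) (.e (nat_lit 114714) (nat_lit 22) (.e (nat_lit 90165) (nat_lit 12) (.e (nat_lit 163857) (nat_lit 0) .nil)))))))) (.g (nat_lit 5) .nil .nil)))))) 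
(.nd (nat_lit 4) (.nd (nat_lit 5) (.nd (nat_lit 6) 
(.lf (nat_lit 114700) (.g (nat_lit 1209) (.e (nat_lit 5907) (nat_lit 320) (.e (nat_lit 1221) (nat_lit 90) (.e (nat_lit 81959) (nat_lit 24) (.e (nat_lit 123195) (nat_lit 266) .nil)))) .nil)) 
(.lf (nat_lit 114764) (.g (nat_lit 941) (.e (nat_lit 5931) (nat_lit 322) (.e (nat_lit 57372) (nat_lit 2) (.e (nat_lit 90176) (nat_lit 15) .nil))) .nil))) (.nd (nat_lit 6) 
(.lf (nat_lit 114732) (.g (nat_lit 1588) (.e (nat_lit 5909) (nat_lit 320) (.e (nat_lit 1199) (nat_lit 88) (.e (nat_lit 65624) (nat_lit 12) (.e (nat_lit 385106) (nat_lit 50) (.e (nat_lit 786481) (nat_lit 30) .nil))))) .nil)) 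
(.lf (nat_lit 114796) (.g (nat_lit 3040) (.e (nat_lit 5934) (nat_lit 322) (.e (nat_lit 57371) (nat_lit 2) (.e (nat_lit 90172) (nat_lit 14) (.e (nat_lit 180243) (nat_lit 5) (.e (nat_lit 532513) (nat_lit 3) (.e (nat_lit 114714) (nat_lit 22) (.e (nat_lit 90162) (nat_lit 12) (.e (nat_lit 163849) (nat_lit 0) .nil)))))))) (.g (nat_lit 5) .nil .nil))))) (.nd (nat_lit 5) (.nd (nat_lit 6) 
(.lf (nat_lit 114716) (.g (nat_lit 1556) (.e (nat_lit 5908) (nat_lit 320) (.e (nat_lit 1199) (nat_lit 88) (.e (nat_lit 65630) (nat_lit 14) (.e (nat_lit 401458) (nat_lit 13) (.e (nat_lit 483399) (nat_lit 25) .nil))))) .nil)) 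
(.lf (nat_lit 114780) (.g (nat_lit 1428) (.e (nat_lit 5933) (nat_lit 322) (.e (nat_lit 57375) (nat_lit 2) (.e (nat_lit 90185) (nat_lit 17) (.e (nat_lit 237624) (nat_lit 13) .nil)))) .nil))) (.nd (nat_lit 6) 
(.lf (nat_lit 114748) (.g (nat_lit 2907) (.e (nat_lit 5919) (nat_lit 320) (.e (nat_lit 2610) (nat_lit 163) (.e (nat_lit 164022) (nat_lit 46) (.e (nat_lit 704738) (nat_lit 11) (.e (nat_lit 16425) (nat_lit 7) .nil))))) .nil)) 
(.lf (nat_lit 114812) (.g (nat_lit 2898) (.e (nat_lit 5934) (nat_lit 322) (.e (nat_lit 57371) (nat_lit 2) (.e (nat_lit 90172) (nat_lit 14) (.e (nat_lit 180244) (nat_lit 5) (.e (nat_lit 532515) (nat_lit 3) (.e (nat_lit 114715) (nat_lit 22) (.e (nat_lit 90165) (nat_lit 12) (.e (nat_lit 163857) (nat_lit 0) .nil)))))))) (.g (nat_lit 6) .nil .nil)))))))) 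
(.nd (nat_lit 2) (.nd (nat_lit 3) (.nd (nat_lit 4) (.nd (nat_lit 5) (.nd (nat_lit 6) 
(.lf (nat_lit 114690) (.g (nat_lit 3464) (.e (nat_lit 5907) (nat_lit 320) (.e (nat_lit 1221) (nat_lit 90) (.e (nat_lit 81959) (nat_lit 24) (.e (nat_lit 123182) (nat_lit 264) (.e (nat_lit 1192) (nat_lit 88) (.e (nat_lit 65619) (nat_lit 10) (.e (nat_lit 344097) (nat_lit 18) .nil))))))) (.g (nat_lit 4) .nil .nil))) 
(.lf (nat_lit 114754) (.g (nat_lit 721) (.e (nat_lit 5920) (nat_lit 320) (.e (nat_lit 1197) (nat_lit 88) (.e (nat_lit 65623) (nat_lit 12) (.e (nat_lit 385102) (nat_lit 50) .nil)))) .nil))) (.nd (nat_lit 6) 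
(.lf (nat_lit 114722) (.g (nat_lit 1842) (.e (nat_lit 5909) (nat_lit 320) (.e (nat_lit 1190) (nat_lit 88) (.e (nat_lit 65619) (nat_lit 10) (.e (nat_lit 344169) (nat_lit 40) (.e (nat_lit 671747) (nat_lit 0) .nil))))) .nil)) 
(.lf (nat_lit 114786) (.g (nat_lit 625) (.e (nat_lit 5933) (nat_lit 322) (.e (nat_lit 57411) (nat_lit 12) (.e (nat_lit 336208) (nat_lit 12) .nil))) .nil)))) (.nd (nat_lit 5) (.nd (nat_lit 6) 
(.lf (nat_lit 114706) (.g (nat_lit 2072) (.e (nat_lit 5907) (nat_lit 320) (.e (nat_lit 1221) (nat_lit 90) (.e (nat_lit 81959) (nat_lit 24) (.e (nat_lit 123218) (nat_lit 278) .nil)))) .nil)) 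
(.lf (nat_lit 114770) (.g (nat_lit 1890) (.e (nat_lit 5933) (nat_lit 322) (.e (nat_lit 57373) (nat_lit 2) (.e (nat_lit 90172) (nat_lit 14) (.e (nat_lit 180244) (nat_lit 5) .nil)))) .nil))) (.nd (nat_lit 6) 
(.lf (nat_lit 114738) (.g (nat_lit 1104) (.e (nat_lit 5909) (nat_lit 320) (.e (nat_lit 1200) (nat_lit 88) (.e (nat_lit 65630) (nat_lit 14) (.e (nat_lit 401436) (nat_lit 9) .nil)))) .nil)) 
(.lf (nat_lit 114802) (.g (nat_lit 3237) (.e (nat_lit 5934) (nat_lit 322) (.e (nat_lit 57371) (nat_lit 2) (.e (nat_lit 90172) (nat_lit 14) (.e (nat_lit 180244) (nat_lit 5) (.e (nat_lit 532513) (nat_lit 3) (.e (nat_lit 114714) (nat_lit 22) (.e (nat_lit 90165) (nat_lit 12) (.e (nat_lit 163849) (nat_lit 0) .nil)))))))) (.g (nat_lit 5) .nil .nil)))))) 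
(.nd (nat_lit 4) (.nd (nat_lit 5) (.nd (nat_lit 6) 
(.lf (nat_lit 114698) (.g (nat_lit 1556) (.e (nat_lit 5907) (nat_lit 320) (.e (nat_lit 1221) (nat_lit 90) (.e (nat_lit 81959) (nat_lit 24) (.e (nat_lit 123194) (nat_lit 266) .nil)))) .nil)) 
(.lf (nat_lit 114762) (.g (nat_lit 1308) (.e (nat_lit 7936) (nat_lit 320) (.e (nat_lit 1217) (nat_lit 90) (.e (nat_lit 81959) (nat_lit 24) (.e (nat_lit 123198) (nat_lit 266) (.e (nat_lit 57427) (nat_lit 15) .nil))))) .nil))) (.nd (nat_lit 6) 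
(.lf (nat_lit 114730) (.g (nat_lit 1147) (.e (nat_lit 5909) (nat_lit 320) (.e (nat_lit 1199) (nat_lit 88) (.e (nat_lit 65617) (nat_lit 10) (.e (nat_lit 344169) (nat_lit 40) .nil)))) .nil)) 
(.lf (nat_lit 114794) (.g (nat_lit 1754) (.e (nat_lit 5934) (nat_lit 322) (.e (nat_lit 57371) (nat_lit 2) (.e (nat_lit 90169) (nat_lit 13) (.e (nat_lit 172122) (nat_lit 13) (.e (nat_lit 491264) (nat_lit 10) (.e (nat_lit 434208) (nat_lit 18) .nil)))))) (.g (nat_lit 4) .nil .nil))))) (.nd (nat_lit 5) (.nd (nat_lit 6) 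
(.lf (nat_lit 114714) (.g (nat_lit 1576) (.e (nat_lit 5908) (nat_lit 320) (.e (nat_lit 1199) (nat_lit 88) (.e (nat_lit 65630) (nat_lit 14) (.e (nat_lit 401458) (nat_lit 13) (.e (nat_lit 483383) (nat_lit 23) (.e (nat_lit 335878) (nat_lit 0) (.e (nat_lit 987) (nat_lit 81) .nil))))))) (.g (nat_lit 4) .nil .nil))) 
(.lf (nat_lit 114778) (.g (nat_lit 1532) (.e (nat_lit 5933) (nat_lit 322) (.e (nat_lit 57375) (nat_lit 2) (.e (nat_lit 90185) (nat_lit 17) (.e (nat_lit 237605) (nat_lit 9) .nil)))) .nil))) (.nd (nat_lit 6) 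
(.lf (nat_lit 114746) (.g (nat_lit 1769) (.e (nat_lit 5909) (nat_lit 320) (.e (nat_lit 1221) (nat_lit 90) (.e (nat_lit 81959) (nat_lit 24) (.e (nat_lit 123198) (nat_lit 266) (.e (nat_lit 57427) (nat_lit 15) .nil))))) .nil)) 
(.lf (nat_lit 114810) (.g (nat_lit 2875) (.e (nat_lit 5934) (nat_lit 322) (.e (nat_lit 57371) (nat_lit 2) (.e (nat_lit 90172) (nat_lit 14) (.e (nat_lit 180244) (nat_lit 5) (.e (nat_lit 532515) (nat_lit 3) (.e (nat_lit 114715) (nat_lit 22) (.e (nat_lit 90165) (nat_lit 12) (.e (nat_lit 163849) (nat_lit 0) .nil)))))))) (.g (nat_lit 6) .nil .nil))))))) 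
(.nd (nat_lit 3) (.nd (nat_lit 4) (.nd (nat_lit 5) (.nd (nat_lit 6) 
(.lf (nat_lit 114694) (.g (nat_lit 2443) (.e (nat_lit 5907) (nat_lit 320) (.e (nat_lit 1221) (nat_lit 90) (.e (nat_lit 81959) (nat_lit 24) (.e (nat_lit 123183) (nat_lit 264) (.e (nat_lit 1187) (nat_lit 88) .nil))))) .nil)) 
(.lf (nat_lit 114758) (.g (nat_lit 2907) (.e (nat_lit 5922) (nat_lit 320) (.e (nat_lit 2610) (nat_lit 163) (.e (nat_lit 164022) (nat_lit 46) (.e (nat_lit 704738) (nat_lit 11) (.e (nat_lit 16425) (nat_lit 7) .nil))))) .nil))) (.nd (nat_lit 6) 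
(.lf (nat_lit 114726) (.g (nat_lit 2137) (.e (nat_lit 5909) (nat_lit 320) (.e (nat_lit 1190) (nat_lit 88) (.e (nat_lit 65624) (nat_lit 12) (.e (nat_lit 385105) (nat_lit 50) (.e (nat_lit 786481) (nat_lit 30) .nil))))) .nil)) 
(.lf (nat_lit 114790) (.g (nat_lit 1594) (.e (nat_lit 5933) (nat_lit 322) (.e (nat_lit 57448) (nat_lit 19) (.e (nat_lit 393234) (nat_lit 17) (.e (nat_lit 7583) (nat_lit 405) (.e (nat_lit 57476) (nat_lit 28) .nil))))) .nil)))) (.nd (nat_lit 5) (.nd (nat_lit 6) 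
(.lf (nat_lit 114710) (.g (nat_lit 909) (.e (nat_lit 5908) (nat_lit 320) (.e (nat_lit 1199) (nat_lit 88) (.e (nat_lit 65628) (nat_lit 14) (.e (nat_lit 401458) (nat_lit 13) .nil)))) .nil)) 
(.lf (nat_lit 114774) (.g (nat_lit 1495) (.e (nat_lit 5933) (nat_lit 322) (.e (nat_lit 57375) (nat_lit 2) (.e (nat_lit 90176) (nat_lit 15) (.e (nat_lit 188431) (nat_lit 20) .nil)))) .nil))) (.nd (nat_lit 6) 
(.lf (nat_lit 114742) (.g (nat_lit 1735) (.e (nat_lit 5909) (nat_lit 320) (.e (nat_lit 1221) (nat_lit 90) (.e (nat_lit 81938) (nat_lit 20) (.e (nat_lit 2006) (nat_lit 138) (.e (nat_lit 671748) (nat_lit 0) .nil))))) .nil)) 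
(.lf (nat_lit 114806) (.g (nat_lit 2214) (.e (nat_lit 5934) (nat_lit 322) (.e (nat_lit 57371) (nat_lit 2) (.e (nat_lit 90172) (nat_lit 14) (.e (nat_lit 180244) (nat_lit 5) (.e (nat_lit 532513) (nat_lit 3) (.e (nat_lit 114714) (nat_lit 22) (.e (nat_lit 90181) (nat_lit 16) (.e (nat_lit 229380) (nat_lit 0) .nil)))))))) (.g (nat_lit 4) .nil .nil)))))) 
(.nd (nat_lit 4) (.nd (nat_lit 5) (.nd (nat_lit 6) 
(.lf (nat_lit 114702) (.g (nat_lit 2334) (.e (nat_lit 5907) (nat_lit 320) (.e (nat_lit 1221) (nat_lit 90) (.e (nat_lit 81959) (nat_lit 24) (.e (nat_lit 123195) (nat_lit 266) (.e (nat_lit 57413) (nat_lit 12) .nil))))) .nil)) 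
(.lf (nat_lit 114766) (.g (nat_lit 785) (.e (nat_lit 5931) (nat_lit 322) (.e (nat_lit 57424) (nat_lit 14) (.e (nat_lit 352318) (nat_lit 24) .nil))) .nil))) (.nd (nat_lit 6) 
(.lf (nat_lit 114734) (.g (nat_lit 1808) (.e (nat_lit 5909) (nat_lit 320) (.e (nat_lit 1200) (nat_lit 88) (.e (nat_lit 65619) (nat_lit 10) (.e (nat_lit 344169) (nat_lit 40) (.e (nat_lit 671747) (nat_lit 0) .nil))))) .nil)) 
(.lf (nat_lit 114798) (.g (nat_lit 2111) (.e (nat_lit 5934) (nat_lit 322) (.e (nat_lit 57371) (nat_lit 2) (.e (nat_lit 90172) (nat_lit 14) (.e (nat_lit 180243) (nat_lit 5) (.e (nat_lit 532513) (nat_lit 3) (.e (nat_lit 114714) (nat_lit 22) (.e (nat_lit 90181) (nat_lit 16) (.e (nat_lit 229376) (nat_lit 0) .nil)))))))) (.g (nat_lit 4) .nil .nil))))) (.nd (nat_lit 5) (.nd (nat_lit 6) 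
(.lf (nat_lit 114718) (.g (nat_lit 2226) (.e (nat_lit 5908) (nat_lit 320) (.e (nat_lit 1199) (nat_lit 88) (.e (nat_lit 65630) (nat_lit 14) (.e (nat_lit 401459) (nat_lit 13) (.e (nat_lit 483398) (nat_lit 25) .nil))))) .nil)) 
(.lf (nat_lit 114782) (.g (nat_lit 2231) (.e (nat_lit 5933) (nat_lit 322) (.e (nat_lit 57379) (nat_lit 3) (.e (nat_lit 98366) (nat_lit 27) (.e (nat_lit 434245) (nat_lit 28) (.e (nat_lit 573488) (nat_lit 14) .nil))))) .nil))) (.nd (nat_lit 6) 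
(.lf (nat_lit 114750) (.g (nat_lit 3738) (.e (nat_lit 5920) (nat_lit 320) (.e (nat_lit 1179) (nat_lit 87) (.e (nat_lit 57480) (nat_lit 28) (.e (nat_lit 557108) (nat_lit 15) (.e (nat_lit 188452) (nat_lit 23) (.e (nat_lit 204873) (nat_lit 30) (.e (nat_lit 368660) (nat_lit 18) .nil))))))) (.g (nat_lit 6) .nil .nil))) 
(.lf (nat_lit 114814) (.g (nat_lit 3065) (.e (nat_lit 5934) (nat_lit 322) (.e (nat_lit 57371) (nat_lit 2) (.e (nat_lit 90172) (nat_lit 14) (.e (nat_lit 180244) (nat_lit 5) (.e (nat_lit 532515) (nat_lit 3) (.e (nat_lit 114716) (nat_lit 22) (.e (nat_lit 90181) (nat_lit 16) (.e (nat_lit 229377) (nat_lit 0) .nil)))))))) (.g (nat_lit 6) .nil .nil))))))))) 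
(.nd (nat_lit 1) (.nd (nat_lit 2) (.nd (nat_lit 3) (.nd (nat_lit 4) (.nd (nat_lit 5) 
(.nd (nat_lit 6) 
(.lf (nat_lit 114689) (.g (nat_lit 2916) (.e (nat_lit 5907) (nat_lit 320) (.e (nat_lit 1221) (nat_lit 90) (.e (nat_lit 81959) (nat_lit 24) (.e (nat_lit 123182) (nat_lit 264) (.e (nat_lit 1192) (nat_lit 88) (.e (nat_lit 65610) (nat_lit 10) (.e (nat_lit 344097) (nat_lit 18) .nil))))))) (.g (nat_lit 4) .nil .nil))) 
(.lf (nat_lit 114753) (.g (nat_lit 2614) (.e (nat_lit 5920) (nat_lit 320) (.e (nat_lit 1196) (nat_lit 88) (.e (nat_lit 65630) (nat_lit 14) (.e (nat_lit 401459) (nat_lit 13) (.e (nat_lit 483395) (nat_lit 24) .nil))))) .nil))) (.nd (nat_lit 6) 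
(.lf (nat_lit 114721) (.g (nat_lit 1863) (.e (nat_lit 5909) (nat_lit 320) (.e (nat_lit 1190) (nat_lit 88) (.e (nat_lit 65619) (nat_lit 10) (.e (nat_lit 344168) (nat_lit 40) (.e (nat_lit 671747) (nat_lit 0) .nil))))) .nil)) 
(.lf (nat_lit 114785) (.g (nat_lit 1688) (.e (nat_lit 5933) (nat_lit 322) (.e (nat_lit 57379) (nat_lit 3) (.e (nat_lit 98373) (nat_lit 29) (.e (nat_lit 458496) (nat_lit 23) .nil)))) .nil)))) (.nd (nat_lit 5) (.nd (nat_lit 6) 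
(.lf (nat_lit 114705) (.g (nat_lit 1553) (.e (nat_lit 5907) (nat_lit 320) (.e (nat_lit 1221) (nat_lit 90) (.e (nat_lit 81959) (nat_lit 24) (.e (nat_lit 123199) (nat_lit 267) .nil)))) .nil)) 
(.lf (nat_lit 114769) (.g (nat_lit 785) (.e (nat_lit 5932) (nat_lit 322) (.e (nat_lit 57424) (nat_lit 14) (.e (nat_lit 352318) (nat_lit 24) .nil))) .nil))) (.nd (nat_lit 6) 
(.lf (nat_lit 114737) (.g (nat_lit 1902) (.e (nat_lit 5909) (nat_lit 320) (.e (nat_lit 1200) (nat_lit 88) (.e (nat_lit 65628) (nat_lit 14) (.e (nat_lit 401438) (nat_lit 9) (.e (nat_lit 426544) (nat_lit 30) .nil))))) .nil)) 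
(.lf (nat_lit 114801) (.g (nat_lit 2278) (.e (nat_lit 5934) (nat_lit 322) (.e (nat_lit 57371) (nat_lit 2) (.e (nat_lit 90172) (nat_lit 14) (.e (nat_lit 180244) (nat_lit 5) (.e (nat_lit 532508) (nat_lit 2) .nil))))) .nil))))) (.nd (nat_lit 4) (.nd (nat_lit 5) (.nd (nat_lit 6) 
(.lf (nat_lit 114697) (.g (nat_lit 1760) (.e (nat_lit 5907) (nat_lit 320) (.e (nat_lit 1221) (nat_lit 90) (.e (nat_lit 81959) (nat_lit 24) (.e (nat_lit 123191) (nat_lit 264) .nil)))) .nil)) 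
(.lf (nat_lit 114761) (.g (nat_lit 1274) (.e (nat_lit 7936) (nat_lit 320) (.e (nat_lit 1217) (nat_lit 90) (.e (nat_lit 81957) (nat_lit 24) (.e (nat_lit 123198) (nat_lit 266) (.e (nat_lit 57427) (nat_lit 15) .nil))))) .nil))) (.nd (nat_lit 6) 
(.lf (nat_lit 114729) (.g (nat_lit 2209) (.e (nat_lit 5909) (nat_lit 320) (.e (nat_lit 1190) (nat_lit 88) (.e (nat_lit 65624) (nat_lit 12) (.e (nat_lit 385106) (nat_lit 50) (.e (nat_lit 786483) (nat_lit 30) .nil))))) .nil)) 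
(.lf (nat_lit 114793) (.g (nat_lit 1128) (.e (nat_lit 5934) (nat_lit 322) (.e (nat_lit 57371) (nat_lit 2) (.e (nat_lit 90169) (nat_lit 13) (.e (nat_lit 172122) (nat_lit 13) .nil)))) .nil)))) (.nd (nat_lit 5) (.nd (nat_lit 6) 
(.lf (nat_lit 114713) (.g (nat_lit 1665) (.e (nat_lit 5908) (nat_lit 320) (.e (nat_lit 1199) (nat_lit 88) (.e (nat_lit 65630) (nat_lit 14) (.e (nat_lit 401458) (nat_lit 13) (.e (nat_lit 483383) (nat_lit 23) (.e (nat_lit 335878) (nat_lit 0) (.e (nat_lit 986) (nat_lit 81) .nil))))))) (.g (nat_lit 4) .nil .nil))) 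
(.lf (nat_lit 114777) (.g (nat_lit 1562) (.e (nat_lit 5933) (nat_lit 322) (.e (nat_lit 57375) (nat_lit 2) (.e (nat_lit 90185) (nat_lit 17) (.e (nat_lit 237601) (nat_lit 9) .nil)))) .nil))) (.nd (nat_lit 6) 
(.lf (nat_lit 114745) (.g (nat_lit 2137) (.e (nat_lit 5909) (nat_lit 320) (.e (nat_lit 1221) (nat_lit 90) (.e (nat_lit 81959) (nat_lit 24) (.e (nat_lit 123197) (nat_lit 266) (.e (nat_lit 57427) (nat_lit 15) .nil))))) .nil)) 
(.lf (nat_lit 114809) (.g (nat_lit 2036) (.e (nat_lit 5934) (nat_lit 322) (.e (nat_lit 57371) (nat_lit 2) (.e (nat_lit 90172) (nat_lit 14) (.e (nat_lit 180244) (nat_lit 5) (.e (nat_lit 532515) (nat_lit 3) .nil))))) .nil)))))) (.nd (nat_lit 3) (.nd (nat_lit 4) (.nd (nat_lit 5) (.nd (nat_lit 6) 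
(.lf (nat_lit 114693) (.g (nat_lit 2415) (.e (nat_lit 5907) (nat_lit 320) (.e (nat_lit 1221) (nat_lit 90) (.e (nat_lit 81959) (nat_lit 24) (.e (nat_lit 123182) (nat_lit 264) (.e (nat_lit 1224) (nat_lit 90) .nil))))) .nil)) 
(.lf (nat_lit 114757) (.g (nat_lit 2432) (.e (nat_lit 5920) (nat_lit 320) (.e (nat_lit 1197) (nat_lit 88) (.e (nat_lit 65630) (nat_lit 14) (.e (nat_lit 401459) (nat_lit 13) (.e (nat_lit 483394) (nat_lit 24) .nil))))) .nil))) (.nd (nat_lit 6) 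
(.lf (nat_lit 114725) (.g (nat_lit 1617) (.e (nat_lit 5909) (nat_lit 320) (.e (nat_lit 1190) (nat_lit 88) (.e (nat_lit 65622) (nat_lit 12) (.e (nat_lit 385106) (nat_lit 50) (.e (nat_lit 786481) (nat_lit 30) .nil))))) .nil)) 
(.lf (nat_lit 114789) (.g (nat_lit 2185) (.e (nat_lit 5933) (nat_lit 322) (.e (nat_lit 57448) (nat_lit 19) (.e (nat_lit 393234) (nat_lit 17) (.e (nat_lit 7581) (nat_lit 405) (.e (nat_lit 57477) (nat_lit 28) .nil))))) .nil)))) (.nd (nat_lit 5) (.nd (nat_lit 6) 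
(.lf (nat_lit 114709) (.g (nat_lit 1147) (.e (nat_lit 5908) (nat_lit 320) (.e (nat_lit 1199) (nat_lit 88) (.e (nat_lit 65617) (nat_lit 10) (.e (nat_lit 344169) (nat_lit 40) .nil)))) .nil)) 
(.lf (nat_lit 114773) (.g (nat_lit 1598) (.e (nat_lit 5933) (nat_lit 322) (.e (nat_lit 57375) (nat_lit 2) (.e (nat_lit 90176) (nat_lit 15) (.e (nat_lit 188430) (nat_lit 20) .nil)))) .nil))) (.nd (nat_lit 6) 
(.lf (nat_lit 114741) (.g (nat_lit 1461) (.e (nat_lit 5909) (nat_lit 320) (.e (nat_lit 1221) (nat_lit 90) (.e (nat_lit 81938) (nat_lit 20) (.e (nat_lit 2003) (nat_lit 138) .nil)))) .nil)) 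
(.lf (nat_lit 114805) (.g (nat_lit 2330) (.e (nat_lit 5934) (nat_lit 322) (.e (nat_lit 57371) (nat_lit 2) (.e (nat_lit 90172) (nat_lit 14) (.e (nat_lit 180244) (nat_lit 5) (.e (nat_lit 532513) (nat_lit 3) (.e (nat_lit 114714) (nat_lit 22) (.e (nat_lit 90181) (nat_lit 16) (.e (nat_lit 229376) (nat_lit 0) .nil)))))))) (.g (nat_lit 4) .nil .nil)))))) 
(.nd (nat_lit 4) (.nd (nat_lit 5) (.nd (nat_lit 6) 
(.lf (nat_lit 114701) (.g (nat_lit 2609) (.e (nat_lit 5907) (nat_lit 320) (.e (nat_lit 1221) (nat_lit 90) (.e (nat_lit 81959) (nat_lit 24) (.e (nat_lit 123195) (nat_lit 266) (.e (nat_lit 57404) (nat_lit 12) .nil))))) .nil)) 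
(.lf (nat_lit 114765) (.g (nat_lit 1708) (.e (nat_lit 5931) (nat_lit 322) (.e (nat_lit 57375) (nat_lit 2) (.e (nat_lit 90176) (nat_lit 15) (.e (nat_lit 188459) (nat_lit 26) .nil)))) .nil))) (.nd (nat_lit 6) 
(.lf (nat_lit 114733) (.g (nat_lit 1866) (.e (nat_lit 5909) (nat_lit 320) (.e (nat_lit 1200) (nat_lit 88) (.e (nat_lit 65619) (nat_lit 10) (.e (nat_lit 344168) (nat_lit 40) (.e (nat_lit 671747) (nat_lit 0) .nil))))) .nil)) 
(.lf (nat_lit 114797) (.g (nat_lit 2911) (.e (nat_lit 5934) (nat_lit 322) (.e (nat_lit 57371) (nat_lit 2) (.e (nat_lit 90172) (nat_lit 14) (.e (nat_lit 180243) (nat_lit 5) (.e (nat_lit 532513) (nat_lit 3) (.e (nat_lit 114714) (nat_lit 22) (.e (nat_lit 90165) (nat_lit 12) (.e (nat_lit 163849) (nat_lit 0) .nil)))))))) (.g (nat_lit 5) .nil .nil))))) (.nd (nat_lit 5) (.nd (nat_lit 6) 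
(.lf (nat_lit 114717) (.g (nat_lit 1566) (.e (nat_lit 5908) (nat_lit 320) (.e (nat_lit 1199) (nat_lit 88) (.e (nat_lit 65630) (nat_lit 14) (.e (nat_lit 401459) (nat_lit 13) (.e (nat_lit 483395) (nat_lit 24) .nil))))) .nil)) 
(.lf (nat_lit 114781) (.g (nat_lit 2268) (.e (nat_lit 5933) (nat_lit 322) (.e (nat_lit 57378) (nat_lit 3) (.e (nat_lit 98368) (nat_lit 27) (.e (nat_lit 434247) (nat_lit 28) (.e (nat_lit 573489) (nat_lit 14) .nil))))) .nil))) (.nd (nat_lit 6) 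
(.lf (nat_lit 114749) (.g (nat_lit 1665) (.e (nat_lit 5919) (nat_lit 320) (.e (nat_lit 2610) (nat_lit 163) (.e (nat_lit 164023) (nat_lit 46) (.e (nat_lit 704738) (nat_lit 11) .nil)))) .nil)) 
(.lf (nat_lit 114813) (.g (nat_lit 2293) (.e (nat_lit 5934) (nat_lit 322) (.e (nat_lit 57371) (nat_lit 2) (.e (nat_lit 90172) (nat_lit 14) (.e (nat_lit 180244) (nat_lit 5) (.e (nat_lit 532515) (nat_lit 3) (.e (nat_lit 114716) (nat_lit 22) (.e (nat_lit 90162) (nat_lit 12) (.e (nat_lit 163849) (nat_lit 0) .nil)))))))) (.g (nat_lit 4) .nil .nil)))))))) 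
(.nd (nat_lit 2) (.nd (nat_lit 3) (.nd (nat_lit 4) (.nd (nat_lit 5) (.nd (nat_lit 6) 
(.lf (nat_lit 114691) (.g (nat_lit 2423) (.e (nat_lit 5907) (nat_lit 320) (.e (nat_lit 1221) (nat_lit 90) (.e (nat_lit 81959) (nat_lit 24) (.e (nat_lit 123182) (nat_lit 264) (.e (nat_lit 1193) (nat_lit 88) .nil))))) .nil)) 
(.lf (nat_lit 114755) (.g (nat_lit 1695) (.e (nat_lit 5920) (nat_lit 320) (.e (nat_lit 1197) (nat_lit 88) (.e (nat_lit 65628) (nat_lit 14) (.e (nat_lit 401459) (nat_lit 13) (.e (nat_lit 483395) (nat_lit 24) .nil))))) .nil))) (.nd (nat_lit 6) 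
(.lf (nat_lit 114723) (.g (nat_lit 1650) (.e (nat_lit 5909) (nat_lit 320) (.e (nat_lit 1190) (nat_lit 88) (.e (nat_lit 65619) (nat_lit 10) (.e (nat_lit 344169) (nat_lit 40) (.e (nat_lit 671748) (nat_lit 0) .nil))))) .nil)) 
(.lf (nat_lit 114787) (.g (nat_lit 1852) (.e (nat_lit 5933) (nat_lit 322) (.e (nat_lit 57411) (nat_lit 12) (.e (nat_lit 336208) (nat_lit 12) (.e (nat_lit 385104) (nat_lit 50) (.e (nat_lit 786483) (nat_lit 30) .nil))))) .nil)))) (.nd (nat_lit 5) (.nd (nat_lit 6) 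
(.lf (nat_lit 114707) (.g (nat_lit 2186) (.e (nat_lit 5907) (nat_lit 320) (.e (nat_lit 1221) (nat_lit 90) (.e (nat_lit 81959) (nat_lit 24) (.e (nat_lit 123228) (nat_lit 282) .nil)))) .nil)) 
(.lf (nat_lit 114771) (.g (nat_lit 2421) (.e (nat_lit 5933) (nat_lit 322) (.e (nat_lit 57374) (nat_lit 2) (.e (nat_lit 90170) (nat_lit 13) (.e (nat_lit 172065) (nat_lit 3) .nil)))) .nil))) (.nd (nat_lit 6) 
(.lf (nat_lit 114739) (.g (nat_lit 608) (.e (nat_lit 5909) (nat_lit 320) (.e (nat_lit 1209) (nat_lit 89) (.e (nat_lit 73782) (nat_lit 32) .nil))) .nil)) 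
(.lf (nat_lit 114803) (.g (nat_lit 2353) (.e (nat_lit 5934) (nat_lit 322) (.e (nat_lit 57371) (nat_lit 2) (.e (nat_lit 90172) (nat_lit 14) (.e (nat_lit 180244) (nat_lit 5) (.e (nat_lit 532513) (nat_lit 3) (.e (nat_lit 114714) (nat_lit 22) (.e (nat_lit 90165) (nat_lit 12) (.e (nat_lit 163853) (nat_lit 0) .nil)))))))) (.g (nat_lit 4) .nil .nil)))))) 
(.nd (nat_lit 4) (.nd (nat_lit 5) (.nd (nat_lit 6) 
(.lf (nat_lit 114699) (.g (nat_lit 1844) (.e (nat_lit 5907) (nat_lit 320) (.e (nat_lit 1221) (nat_lit 90) (.e (nat_lit 81959) (nat_lit 24) (.e (nat_lit 123194) (nat_lit 266) (.e (nat_lit 57427) (nat_lit 15) .nil))))) .nil)) 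
(.lf (nat_lit 114763) (.g (nat_lit 2687) (.e (nat_lit 7936) (nat_lit 320) (.e (nat_lit 1222) (nat_lit 90) (.e (nat_lit 81959) (nat_lit 24) (.e (nat_lit 123195) (nat_lit 266) (.e (nat_lit 57427) (nat_lit 15) .nil))))) .nil))) (.nd (nat_lit 6) 
(.lf (nat_lit 114731) (.g (nat_lit 1687) (.e (nat_lit 5909) (nat_lit 320) (.e (nat_lit 1199) (nat_lit 88) (.e (nat_lit 65624) (nat_lit 12) (.e (nat_lit 385105) (nat_lit 50) (.e (nat_lit 786481) (nat_lit 30) .nil))))) .nil)) 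
(.lf (nat_lit 114795) (.g (nat_lit 1568) (.e (nat_lit 5934) (nat_lit 322) (.e (nat_lit 57371) (nat_lit 2) (.e (nat_lit 90172) (nat_lit 14) (.e (nat_lit 180243) (nat_lit 5) .nil)))) .nil)))) (.nd (nat_lit 5) (.nd (nat_lit 6) 
(.lf (nat_lit 114715) (.g (nat_lit 1564) (.e (nat_lit 5908) (nat_lit 320) (.e (nat_lit 1199) (nat_lit 88) (.e (nat_lit 65630) (nat_lit 14) (.e (nat_lit 401458) (nat_lit 13) (.e (nat_lit 483398) (nat_lit 25) .nil))))) .nil)) 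
(.lf (nat_lit 114779) (.g (nat_lit 1461) (.e (nat_lit 5933) (nat_lit 322) (.e (nat_lit 57375) (nat_lit 2) (.e (nat_lit 90185) (nat_lit 17) (.e (nat_lit 237621) (nat_lit 13) .nil)))) .nil))) (.nd (nat_lit 6) 
(.lf (nat_lit 114747) (.g (nat_lit 1293) (.e (nat_lit 5909) (nat_lit 320) (.e (nat_lit 1221) (nat_lit 90) (.e (nat_lit 81959) (nat_lit 24) (.e (nat_lit 123199) (nat_lit 267) .nil)))) .nil)) 
(.lf (nat_lit 114811) (.g (nat_lit 2119) (.e (nat_lit 5934) (nat_lit 322) (.e (nat_lit 57371) (nat_lit 2) (.e (nat_lit 90172) (nat_lit 14) (.e (nat_lit 180244) (nat_lit 5) (.e (nat_lit 532515) (nat_lit 3) (.e (nat_lit 114715) (nat_lit 22) (.e (nat_lit 90165) (nat_lit 12) (.e (nat_lit 163853) (nat_lit 0) .nil)))))))) (.g (nat_lit 4) .nil .nil))))))) 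
(.nd (nat_lit 3) (.nd (nat_lit 4) (.nd (nat_lit 5) (.nd (nat_lit 6) 
(.lf (nat_lit 114695) (.g (nat_lit 2186) (.e (nat_lit 5907) (nat_lit 320) (.e (nat_lit 1221) (nat_lit 90) (.e (nat_lit 81959) (nat_lit 24) (.e (nat_lit 123186) (nat_lit 264) .nil)))) .nil)) 
(.lf (nat_lit 114759) (.g (nat_lit 3200) (.e (nat_lit 5922) (nat_lit 320) (.e (nat_lit 2610) (nat_lit 163) (.e (nat_lit 164023) (nat_lit 46) (.e (nat_lit 704738) (nat_lit 11) (.e (nat_lit 16425) (nat_lit 7) .nil))))) .nil))) (.nd (nat_lit 6) 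
(.lf (nat_lit 114727) (.g (nat_lit 2186) (.e (nat_lit 5909) (nat_lit 320) (.e (nat_lit 1190) (nat_lit 88) (.e (nat_lit 65624) (nat_lit 12) (.e (nat_lit 385105) (nat_lit 50) (.e (nat_lit 786483) (nat_lit 30) .nil))))) .nil)) 
(.lf (nat_lit 114791) (.g (nat_lit 1815) (.e (nat_lit 5934) (nat_lit 322) (.e (nat_lit 57371) (nat_lit 2) (.e (nat_lit 90167) (nat_lit 13) (.e (nat_lit 172123) (nat_lit 13) (.e (nat_lit 491264) (nat_lit 10) .nil))))) .nil)))) (.nd (nat_lit 5) (.nd (nat_lit 6) 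
(.lf (nat_lit 114711) (.g (nat_lit 2057) (.e (nat_lit 5908) (nat_lit 320) (.e (nat_lit 1199) (nat_lit 88) (.e (nat_lit 65628) (nat_lit 14) (.e (nat_lit 401459) (nat_lit 13) (.e (nat_lit 483398) (nat_lit 25) .nil))))) .nil)) 
(.lf (nat_lit 114775) (.g (nat_lit 1349) (.e (nat_lit 5933) (nat_lit 322) (.e (nat_lit 57375) (nat_lit 2) (.e (nat_lit 90176) (nat_lit 15) (.e (nat_lit 188439) (nat_lit 20) .nil)))) .nil))) (.nd (nat_lit 6) 
(.lf (nat_lit 114743) (.g (nat_lit 1466) (.e (nat_lit 5909) (nat_lit 320) (.e (nat_lit 1221) (nat_lit 90) (.e (nat_lit 81959) (nat_lit 24) (.e (nat_lit 123182) (nat_lit 264) .nil)))) .nil)) 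
(.lf (nat_lit 114807) (.g (nat_lit 2185) (.e (nat_lit 5934) (nat_lit 322) (.e (nat_lit 57371) (nat_lit 2) (.e (nat_lit 90172) (nat_lit 14) (.e (nat_lit 180244) (nat_lit 5) (.e (nat_lit 532513) (nat_lit 3) (.e (nat_lit 114718) (nat_lit 23) (.e (nat_lit 98325) (nat_lit 17) (.e (nat_lit 2478) (nat_lit 157) .nil)))))))) (.g (nat_lit 4) .nil .nil)))))) 
(.nd (nat_lit 4) (.nd (nat_lit 5) (.nd (nat_lit 6) 
(.lf (nat_lit 114703) (.g (nat_lit 3753) (.e (nat_lit 5907) (nat_lit 320) (.e (nat_lit 1221) (nat_lit 90) (.e (nat_lit 81959) (nat_lit 24) (.e (nat_lit 123195) (nat_lit 266) (.e (nat_lit 57427) (nat_lit 15) (.e (nat_lit 360448) (nat_lit 0) .nil)))))) (.g (nat_lit 5) .nil .nil))) 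
(.lf (nat_lit 114767) (.g (nat_lit 2199) (.e (nat_lit 5931) (nat_lit 322) (.e (nat_lit 57448) (nat_lit 19) (.e (nat_lit 393234) (nat_lit 17) (.e (nat_lit 7581) (nat_lit 405) (.e (nat_lit 57480) (nat_lit 28) .nil))))) .nil))) (.nd (nat_lit 6) 
(.lf (nat_lit 114735) (.g (nat_lit 1670) (.e (nat_lit 5909) (nat_lit 320) (.e (nat_lit 1200) (nat_lit 88) (.e (nat_lit 65619) (nat_lit 10) (.e (nat_lit 344169) (nat_lit 40) (.e (nat_lit 671748) (nat_lit 0) .nil))))) .nil)) 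
(.lf (nat_lit 114799) (.g (nat_lit 2088) (.e (nat_lit 5934) (nat_lit 322) (.e (nat_lit 57371) (nat_lit 2) (.e (nat_lit 90172) (nat_lit 14) (.e (nat_lit 180243) (nat_lit 5) (.e (nat_lit 532515) (nat_lit 3) .nil))))) .nil)))) (.nd (nat_lit 5) (.nd (nat_lit 6) 
(.lf (nat_lit 114719) (.g (nat_lit 2863) (.e (nat_lit 5908) (nat_lit 320) (.e (nat_lit 1220) (nat_lit 90) (.e (nat_lit 81959) (nat_lit 24) (.e (nat_lit 123182) (nat_lit 264) (.e (nat_lit 1201) (nat_lit 88) .nil))))) .nil)) 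
(.lf (nat_lit 114783) (.g (nat_lit 2136) (.e (nat_lit 5933) (nat_lit 322) (.e (nat_lit 57379) (nat_lit 3) (.e (nat_lit 98368) (nat_lit 27) (.e (nat_lit 434247) (nat_lit 28) (.e (nat_lit 573489) (nat_lit 14) .nil))))) .nil))) (.nd (nat_lit 6) 
(.lf (nat_lit 114751) (.g (nat_lit 2651) (.e (nat_lit 5920) (nat_lit 320) (.e (nat_lit 1179) (nat_lit 87) (.e (nat_lit 57480) (nat_lit 28) (.e (nat_lit 557109) (nat_lit 15) (.e (nat_lit 188458) (nat_lit 25) .nil))))) .nil)) 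
(.lf (nat_lit 114815) (.g (nat_lit 3142) (.e (nat_lit 5934) (nat_lit 322) (.e (nat_lit 57371) (nat_lit 2) (.e (nat_lit 90172) (nat_lit 14) (.e (nat_lit 180244) (nat_lit 5) (.e (nat_lit 532515) (nat_lit 3) (.e (nat_lit 114716) (nat_lit 22) (.e (nat_lit 90181) (nat_lit 16) (.e (nat_lit 229380) (nat_lit 0) .nil)))))))) (.g (nat_lit 6) .nil .nil))))))))))

noncomputable def tv1549 : DT := (.nd (nat_lit 0) (.nd (nat_lit 1) (.nd (nat_lit 2) (.nd (nat_lit 3) (.nd (nat_lit 4) (.nd (nat_lit 5) (.nd (nat_lit 6) 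
(.lf (nat_lit 114816) (.g (nat_lit 2807) (.e (nat_lit 5934) (nat_lit 322) (.e (nat_lit 57371) (nat_lit 2) (.e (nat_lit 90172) (nat_lit 14) (.e (nat_lit 180244) (nat_lit 5) (.e (nat_lit 532515) (nat_lit 3) (.e (nat_lit 114716) (nat_lit 22) (.e (nat_lit 90181) (nat_lit 16) (.e (nat_lit 229382) (nat_lit 0) .nil)))))))) (.g (nat_lit 5) .nil .nil))) 
(.lf (nat_lit 114880) (.g (nat_lit 2218) (.e (nat_lit 5934) (nat_lit 322) (.e (nat_lit 57374) (nat_lit 2) (.e (nat_lit 90170) (nat_lit 13) (.e (nat_lit 172123) (nat_lit 13) (.e (nat_lit 491264) (nat_lit 10) (.e (nat_lit 434216) (nat_lit 18) .nil)))))) (.g (nat_lit 4) .nil .nil)))) (.nd (nat_lit 6) 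
(.lf (nat_lit 114848) (.g (nat_lit 2082) (.e (nat_lit 5934) (nat_lit 322) (.e (nat_lit 57372) (nat_lit 2) (.e (nat_lit 90172) (nat_lit 14) (.e (nat_lit 180243) (nat_lit 5) (.e (nat_lit 532515) (nat_lit 3) (.e (nat_lit 114716) (nat_lit 22) (.e (nat_lit 90181) (nat_lit 16) (.e (nat_lit 229382) (nat_lit 0) .nil)))))))) (.g (nat_lit 4) .nil .nil))) 
(.lf (nat_lit 114912) (.g (nat_lit 1691) (.e (nat_lit 5934) (nat_lit 322) (.e (nat_lit 57375) (nat_lit 2) (.e (nat_lit 90177) (nat_lit 15) (.e (nat_lit 188461) (nat_lit 26) (.e (nat_lit 261888) (nat_lit 5) .nil))))) .nil)))) (.nd (nat_lit 5) (.nd (nat_lit 6) 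
(.lf (nat_lit 114832) (.g (nat_lit 874) (.e (nat_lit 5934) (nat_lit 322) (.e (nat_lit 57371) (nat_lit 2) (.e (nat_lit 90183) (nat_lit 17) .nil))) .nil)) 
(.lf (nat_lit 114896) (.g (nat_lit 1872) (.e (nat_lit 5934) (nat_lit 322) (.e (nat_lit 57375) (nat_lit 2) (.e (nat_lit 90172) (nat_lit 14) (.e (nat_lit 180244) (nat_lit 5) (.e (nat_lit 532515) (nat_lit 3) (.e (nat_lit 114715) (nat_lit 22) (.e (nat_lit 90165) (nat_lit 12) (.e (nat_lit 163856) (nat_lit 0) .nil)))))))) (.g (nat_lit 4) .nil .nil)))) (.nd (nat_lit 6) 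
(.lf (nat_lit 114864) (.g (nat_lit 1213) (.e (nat_lit 5934) (nat_lit 322) (.e (nat_lit 57372) (nat_lit 2) (.e (nat_lit 90176) (nat_lit 15) (.e (nat_lit 196352) (nat_lit 11) .nil)))) .nil)) 
(.lf (nat_lit 114928) (.g (nat_lit 1850) (.e (nat_lit 5934) (nat_lit 322) (.e (nat_lit 57375) (nat_lit 2) (.e (nat_lit 90185) (nat_lit 17) (.e (nat_lit 237624) (nat_lit 13) (.e (nat_lit 491264) (nat_lit 10) (.e (nat_lit 434216) (nat_lit 18) .nil)))))) (.g (nat_lit 4) .nil .nil)))))) (.nd (nat_lit 4) (.nd (nat_lit 5) (.nd (nat_lit 6) 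
(.lf (nat_lit 114824) (.g (nat_lit 2394) (.e (nat_lit 5934) (nat_lit 322) (.e (nat_lit 57371) (nat_lit 2) (.e (nat_lit 90174) (nat_lit 14) (.e (nat_lit 180243) (nat_lit 5) (.e (nat_lit 532513) (nat_lit 3) (.e (nat_lit 114714) (nat_lit 22) (.e (nat_lit 90181) (nat_lit 16) (.e (nat_lit 229380) (nat_lit 0) .nil)))))))) (.g (nat_lit 4) .nil .nil))) 
(.lf (nat_lit 114888) (.g (nat_lit 3585) (.e (nat_lit 5934) (nat_lit 322) (.e (nat_lit 57375) (nat_lit 2) (.e (nat_lit 90172) (nat_lit 14) (.e (nat_lit 180244) (nat_lit 5) (.e (nat_lit 532513) (nat_lit 3) (.e (nat_lit 114714) (nat_lit 22) (.e (nat_lit 90165) (nat_lit 12) (.e (nat_lit 163849) (nat_lit 0) .nil)))))))) (.g (nat_lit 6) .nil .nil)))) (.nd (nat_lit 6) 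
(.lf (nat_lit 114856) (.g (nat_lit 3078) (.e (nat_lit 5934) (nat_lit 322) (.e (nat_lit 57372) (nat_lit 2) (.e (nat_lit 90172) (nat_lit 14) (.e (nat_lit 180244) (nat_lit 5) (.e (nat_lit 532515) (nat_lit 3) (.e (nat_lit 114716) (nat_lit 22) (.e (nat_lit 90181) (nat_lit 16) (.e (nat_lit 229376) (nat_lit 0) .nil)))))))) (.g (nat_lit 6) .nil .nil))) 
(.lf (nat_lit 114920) (.g (nat_lit 2210) (.e (nat_lit 5934) (nat_lit 322) (.e (nat_lit 57375) (nat_lit 2) (.e (nat_lit 90185) (nat_lit 17) (.e (nat_lit 237601) (nat_lit 9) (.e (nat_lit 426479) (nat_lit 27) (.e (nat_lit 336421) (nat_lit 28) (.e (nat_lit 434216) (nat_lit 18) .nil))))))) (.g (nat_lit 5) .nil .nil))))) (.nd (nat_lit 5) (.nd (nat_lit 6) 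
(.lf (nat_lit 114840) (.g (nat_lit 1514) (.e (nat_lit 5934) (nat_lit 322) (.e (nat_lit 57371) (nat_lit 2) (.e (nat_lit 90185) (nat_lit 17) (.e (nat_lit 237624) (nat_lit 13) .nil)))) .nil)) 
(.lf (nat_lit 114904) (.g (nat_lit 2177) (.e (nat_lit 5934) (nat_lit 322) (.e (nat_lit 57375) (nat_lit 2) (.e (nat_lit 90174) (nat_lit 14) (.e (nat_lit 180243) (nat_lit 5) (.e (nat_lit 532508) (nat_lit 2) (.e (nat_lit 106517) (nat_lit 9) (.e (nat_lit 1255) (nat_lit 92) (.e (nat_lit 98325) (nat_lit 17) (.e (nat_lit 2515) (nat_lit 157) .nil))))))))) (.g (nat_lit 4) .nil .nil)))) (.nd (nat_lit 6) 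
(.lf (nat_lit 114872) (.g (nat_lit 2112) (.e (nat_lit 5934) (nat_lit 322) (.e (nat_lit 57374) (nat_lit 2) (.e (nat_lit 90170) (nat_lit 13) (.e (nat_lit 172065) (nat_lit 3) .nil)))) .nil)) 
(.lf (nat_lit 114936) (.g (nat_lit 2210) (.e (nat_lit 5934) (nat_lit 322) (.e (nat_lit 57379) (nat_lit 3) (.e (nat_lit 98365) (nat_lit 26) (.e (nat_lit 426188) (nat_lit 9) (.e (nat_lit 426566) (nat_lit 34) (.e (nat_lit 393233) (nat_lit 17) (.e (nat_lit 2399) (nat_lit 157) .nil))))))) (.g (nat_lit 4) .nil .nil))))))) (.nd (nat_lit 3) (.nd (nat_lit 4) (.nd (nat_lit 5) (.nd (nat_lit 6) 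
(.lf (nat_lit 114820) (.g (nat_lit 2130) (.e (nat_lit 5934) (nat_lit 322) (.e (nat_lit 57371) (nat_lit 2) (.e (nat_lit 90172) (nat_lit 14) (.e (nat_lit 180244) (nat_lit 5) (.e (nat_lit 532515) (nat_lit 3) (.e (nat_lit 114719) (nat_lit 23) (.e (nat_lit 98331) (nat_lit 17) (.e (nat_lit 2445) (nat_lit 157) .nil)))))))) (.g (nat_lit 4) .nil .nil))) 
(.lf (nat_lit 114884) (.g (nat_lit 2567) (.e (nat_lit 5934) (nat_lit 322) (.e (nat_lit 57375) (nat_lit 2) (.e (nat_lit 90172) (nat_lit 14) (.e (nat_lit 180243) (nat_lit 5) (.e (nat_lit 532515) (nat_lit 3) (.e (nat_lit 114716) (nat_lit 22) (.e (nat_lit 90181) (nat_lit 16) (.e (nat_lit 229380) (nat_lit 0) .nil)))))))) (.g (nat_lit 5) .nil .nil)))) (.nd (nat_lit 6) 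
(.lf (nat_lit 114852) (.g (nat_lit 2265) (.e (nat_lit 5934) (nat_lit 322) (.e (nat_lit 57372) (nat_lit 2) (.e (nat_lit 90172) (nat_lit 14) (.e (nat_lit 180244) (nat_lit 5) (.e (nat_lit 532515) (nat_lit 3) (.e (nat_lit 114715) (nat_lit 22) (.e (nat_lit 90165) (nat_lit 12) (.e (nat_lit 163853) (nat_lit 0) .nil)))))))) (.g (nat_lit 5) .nil .nil))) 
(.lf (nat_lit 114916) (.g (nat_lit 1301) (.e (nat_lit 5934) (nat_lit 322) (.e (nat_lit 57375) (nat_lit 2) (.e (nat_lit 90178) (nat_lit 15) (.e (nat_lit 188459) (nat_lit 26) .nil)))) .nil)))) (.nd (nat_lit 5) (.nd (nat_lit 6) 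
(.lf (nat_lit 114836) (.g (nat_lit 2235) (.e (nat_lit 5934) (nat_lit 322) (.e (nat_lit 57371) (nat_lit 2) (.e (nat_lit 90185) (nat_lit 17) (.e (nat_lit 237620) (nat_lit 13) .nil)))) .nil)) 
(.lf (nat_lit 114900) (.g (nat_lit 3524) (.e (nat_lit 5934) (nat_lit 322) (.e (nat_lit 57375) (nat_lit 2) (.e (nat_lit 90172) (nat_lit 14) (.e (nat_lit 180244) (nat_lit 5) (.e (nat_lit 532515) (nat_lit 3) (.e (nat_lit 114716) (nat_lit 22) (.e (nat_lit 90181) (nat_lit 16) (.e (nat_lit 229380) (nat_lit 0) .nil)))))))) (.g (nat_lit 7) .nil .nil)))) (.nd (nat_lit 6) 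
(.lf (nat_lit 114868) (.g (nat_lit 962) (.e (nat_lit 5934) (nat_lit 322) (.e (nat_lit 57372) (nat_lit 2) (.e (nat_lit 90176) (nat_lit 15) (.e (nat_lit 188439) (nat_lit 20) .nil)))) .nil)) 
(.lf (nat_lit 114932) (.g (nat_lit 2091) (.e (nat_lit 5934) (nat_lit 322) (.e (nat_lit 57378) (nat_lit 3) (.e (nat_lit 98365) (nat_lit 26) (.e (nat_lit 426187) (nat_lit 9) .nil)))) .nil))))) (.nd (nat_lit 4) (.nd (nat_lit 5) (.nd (nat_lit 6) 
(.lf (nat_lit 114828) (.g (nat_lit 1412) (.e (nat_lit 5934) (nat_lit 322) (.e (nat_lit 57371) (nat_lit 2) (.e (nat_lit 90176) (nat_lit 15) (.e (nat_lit 196352) (nat_lit 18) .nil)))) .nil)) 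
(.lf (nat_lit 114892) (.g (nat_lit 2078) (.e (nat_lit 5934) (nat_lit 322) (.e (nat_lit 57375) (nat_lit 2) (.e (nat_lit 90172) (nat_lit 14) (.e (nat_lit 180244) (nat_lit 5) (.e (nat_lit 532513) (nat_lit 3) (.e (nat_lit 114714) (nat_lit 22) (.e (nat_lit 90181) (nat_lit 16) (.e (nat_lit 229382) (nat_lit 0) .nil)))))))) (.g (nat_lit 4) .nil .nil)))) (.nd (nat_lit 6) 
(.lf (nat_lit 114860) (.g (nat_lit 3256) (.e (nat_lit 5934) (nat_lit 322) (.e (nat_lit 57372) (nat_lit 2) (.e (nat_lit 90172) (nat_lit 14) (.e (nat_lit 180244) (nat_lit 5) (.e (nat_lit 532515) (nat_lit 3) (.e (nat_lit 114719) (nat_lit 23) (.e (nat_lit 98325) (nat_lit 17) (.e (nat_lit 2515) (nat_lit 157) .nil)))))))) (.g (nat_lit 6) .nil .nil))) 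
(.lf (nat_lit 114924) (.g (nat_lit 1412) (.e (nat_lit 5934) (nat_lit 322) (.e (nat_lit 57375) (nat_lit 2) (.e (nat_lit 90185) (nat_lit 17) (.e (nat_lit 237621) (nat_lit 13) .nil)))) .nil)))) (.nd (nat_lit 5) (.nd (nat_lit 6) 
(.lf (nat_lit 114844) (.g (nat_lit 1361) (.e (nat_lit 5934) (nat_lit 322) (.e (nat_lit 57372) (nat_lit 2) (.e (nat_lit 90172) (nat_lit 14) (.e (nat_lit 180243) (nat_lit 5) .nil)))) .nil)) 
(.lf (nat_lit 114908) (.g (nat_lit 1092) (.e (nat_lit 5934) (nat_lit 322) (.e (nat_lit 57375) (nat_lit 2) (.e (nat_lit 90176) (nat_lit 15) (.e (nat_lit 188431) (nat_lit 20) .nil)))) .nil))) (.nd (nat_lit 6) 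
(.lf (nat_lit 114876) (.g (nat_lit 2967) (.e (nat_lit 5934) (nat_lit 322) (.e (nat_lit 57374) (nat_lit 2) (.e (nat_lit 90170) (nat_lit 13) (.e (nat_lit 172113) (nat_lit 10) (.e (nat_lit 434203) (nat_lit 18) .nil))))) .nil)) 
(.lf (nat_lit 114940) (.g (nat_lit 1653) (.e (nat_lit 5934) (nat_lit 322) (.e (nat_lit 57379) (nat_lit 3) (.e (nat_lit 98365) (nat_lit 26) (.e (nat_lit 426334) (nat_lit 13) .nil)))) .nil))))))) (.nd (nat_lit 2) (.nd (nat_lit 3) (.nd (nat_lit 4) (.nd (nat_lit 5) (.nd (nat_lit 6) 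
(.lf (nat_lit 114818) (.g (nat_lit 2144) (.e (nat_lit 5934) (nat_lit 322) (.e (nat_lit 57371) (nat_lit 2) (.e (nat_lit 90172) (nat_lit 14) (.e (nat_lit 180244) (nat_lit 5) (.e (nat_lit 532515) (nat_lit 3) (.e (nat_lit 114719) (nat_lit 23) (.e (nat_lit 98331) (nat_lit 17) (.e (nat_lit 2442) (nat_lit 157) .nil)))))))) (.g (nat_lit 4) .nil .nil))) 
(.lf (nat_lit 114882) (.g (nat_lit 1826) (.e (nat_lit 5934) (nat_lit 322) (.e (nat_lit 57375) (nat_lit 2) (.e (nat_lit 90172) (nat_lit 14) (.e (nat_lit 180243) (nat_lit 5) (.e (nat_lit 532508) (nat_lit 2) .nil))))) .nil))) (.nd (nat_lit 6) 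
(.lf (nat_lit 114850) (.g (nat_lit 1849) (.e (nat_lit 5934) (nat_lit 322) (.e (nat_lit 57372) (nat_lit 2) (.e (nat_lit 90172) (nat_lit 14) (.e (nat_lit 180244) (nat_lit 5) (.e (nat_lit 532515) (nat_lit 3) .nil))))) .nil)) 
(.lf (nat_lit 114914) (.g (nat_lit 1811) (.e (nat_lit 5934) (nat_lit 322) (.e (nat_lit 57375) (nat_lit 2) (.e (nat_lit 90178) (nat_lit 15) (.e (nat_lit 196352) (nat_lit 18) (.e (nat_lit 393232) (nat_lit 17) (.e (nat_lit 2399) (nat_lit 157) .nil)))))) (.g (nat_lit 5) .nil .nil))))) (.nd (nat_lit 5) (.nd (nat_lit 6) 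
(.lf (nat_lit 114834) (.g (nat_lit 1635) (.e (nat_lit 5934) (nat_lit 322) (.e (nat_lit 57371) (nat_lit 2) (.e (nat_lit 90185) (nat_lit 17) (.e (nat_lit 237601) (nat_lit 9) (.e (nat_lit 426566) (nat_lit 34) .nil))))) .nil)) 
(.lf (nat_lit 114898) (.g (nat_lit 3314) (.e (nat_lit 5934) (nat_lit 322) (.e (nat_lit 57375) (nat_lit 2) (.e (nat_lit 90172) (nat_lit 14) (.e (nat_lit 180244) (nat_lit 5) (.e (nat_lit 532515) (nat_lit 3) (.e (nat_lit 114716) (nat_lit 22) (.e (nat_lit 90181) (nat_lit 16) (.e (nat_lit 229376) (nat_lit 0) .nil)))))))) (.g (nat_lit 7) .nil .nil)))) (.nd (nat_lit 6) 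
(.lf (nat_lit 114866) (.g (nat_lit 1213) (.e (nat_lit 5934) (nat_lit 322) (.e (nat_lit 57372) (nat_lit 2) (.e (nat_lit 90176) (nat_lit 15) (.e (nat_lit 196352) (nat_lit 18) .nil)))) .nil)) 
(.lf (nat_lit 114930) (.g (nat_lit 1968) (.e (nat_lit 5934) (nat_lit 322) (.e (nat_lit 57377) (nat_lit 3) (.e (nat_lit 98365) (nat_lit 26) (.e (nat_lit 426188) (nat_lit 9) (.e (nat_lit 426566) (nat_lit 34) .nil))))) .nil))))) (.nd (nat_lit 4) (.nd (nat_lit 5) (.nd (nat_lit 6) 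
(.lf (nat_lit 114826) (.g (nat_lit 2336) (.e (nat_lit 5934) (nat_lit 322) (.e (nat_lit 57371) (nat_lit 2) (.e (nat_lit 90174) (nat_lit 14) (.e (nat_lit 180243) (nat_lit 5) (.e (nat_lit 532515) (nat_lit 3) (.e (nat_lit 114716) (nat_lit 22) (.e (nat_lit 90181) (nat_lit 16) (.e (nat_lit 229382) (nat_lit 0) .nil)))))))) (.g (nat_lit 4) .nil .nil))) 
(.lf (nat_lit 114890) (.g (nat_lit 2075) (.e (nat_lit 5934) (nat_lit 322) (.e (nat_lit 57375) (nat_lit 2) (.e (nat_lit 90172) (nat_lit 14) (.e (nat_lit 180244) (nat_lit 5) (.e (nat_lit 532513) (nat_lit 3) (.e (nat_lit 114714) (nat_lit 22) (.e (nat_lit 90165) (nat_lit 12) (.e (nat_lit 163854) (nat_lit 0) .nil)))))))) (.g (nat_lit 4) .nil .nil)))) (.nd (nat_lit 6) 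
(.lf (nat_lit 114858) (.g (nat_lit 2953) (.e (nat_lit 5934) (nat_lit 322) (.e (nat_lit 57372) (nat_lit 2) (.e (nat_lit 90172) (nat_lit 14) (.e (nat_lit 180244) (nat_lit 5) (.e (nat_lit 532515) (nat_lit 3) (.e (nat_lit 114716) (nat_lit 22) (.e (nat_lit 90181) (nat_lit 16) (.e (nat_lit 229382) (nat_lit 0) .nil)))))))) (.g (nat_lit 6) .nil .nil))) 
(.lf (nat_lit 114922) (.g (nat_lit 2337) (.e (nat_lit 5934) (nat_lit 322) (.e (nat_lit 57375) (nat_lit 2) (.e (nat_lit 90185) (nat_lit 17) (.e (nat_lit 237605) (nat_lit 9) (.e (nat_lit 426479) (nat_lit 27) (.e (nat_lit 336421) (nat_lit 28) (.e (nat_lit 434216) (nat_lit 18) .nil))))))) (.g (nat_lit 5) .nil .nil))))) (.nd (nat_lit 5) (.nd (nat_lit 6) 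
(.lf (nat_lit 114842) (.g (nat_lit 2149) (.e (nat_lit 5934) (nat_lit 322) (.e (nat_lit 57372) (nat_lit 2) (.e (nat_lit 90167) (nat_lit 13) (.e (nat_lit 172123) (nat_lit 13) (.e (nat_lit 491264) (nat_lit 10) .nil))))) .nil)) 
(.lf (nat_lit 114906) (.g (nat_lit 999) (.e (nat_lit 5934) (nat_lit 322) (.e (nat_lit 57375) (nat_lit 2) (.e (nat_lit 90176) (nat_lit 15) (.e (nat_lit 196352) (nat_lit 11) .nil)))) .nil))) (.nd (nat_lit 6) 
(.lf (nat_lit 114874) (.g (nat_lit 1809) (.e (nat_lit 5934) (nat_lit 322) (.e (nat_lit 57374) (nat_lit 2) (.e (nat_lit 90170) (nat_lit 13) (.e (nat_lit 172067) (nat_lit 3) .nil)))) .nil)) 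
(.lf (nat_lit 114938) (.g (nat_lit 1738) (.e (nat_lit 5934) (nat_lit 322) (.e (nat_lit 57379) (nat_lit 3) (.e (nat_lit 98365) (nat_lit 26) (.e (nat_lit 426326) (nat_lit 13) .nil)))) .nil)))))) (.nd (nat_lit 3) (.nd (nat_lit 4) (.nd (nat_lit 5) (.nd (nat_lit 6) 
(.lf (nat_lit 114822) (.g (nat_lit 2210) (.e (nat_lit 5934) (nat_lit 322) (.e (nat_lit 57371) (nat_lit 2) (.e (nat_lit 90174) (nat_lit 14) (.e (nat_lit 180243) (nat_lit 5) (.e (nat_lit 532513) (nat_lit 3) .nil))))) .nil)) 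
(.lf (nat_lit 114886) (.g (nat_lit 2161) (.e (nat_lit 5934) (nat_lit 322) (.e (nat_lit 57375) (nat_lit 2) (.e (nat_lit 90172) (nat_lit 14) (.e (nat_lit 180244) (nat_lit 5) (.e (nat_lit 532508) (nat_lit 2) (.e (nat_lit 106517) (nat_lit 9) (.e (nat_lit 1255) (nat_lit 92) (.e (nat_lit 98325) (nat_lit 17) (.e (nat_lit 2515) (nat_lit 157) .nil))))))))) (.g (nat_lit 4) .nil .nil)))) (.nd (nat_lit 6) 
(.lf (nat_lit 114854) (.g (nat_lit 2439) (.e (nat_lit 5934) (nat_lit 322) (.e (nat_lit 57372) (nat_lit 2) (.e (nat_lit 90172) (nat_lit 14) (.e (nat_lit 180244) (nat_lit 5) (.e (nat_lit 532515) (nat_lit 3) (.e (nat_lit 114716) (nat_lit 22) (.e (nat_lit 90162) (nat_lit 12) (.e (nat_lit 163849) (nat_lit 0) .nil)))))))) (.g (nat_lit 5) .nil .nil))) 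
(.lf (nat_lit 114918) (.g (nat_lit 593) (.e (nat_lit 5934) (nat_lit 322) (.e (nat_lit 57375) (nat_lit 2) (.e (nat_lit 90185) (nat_lit 17) .nil))) .nil)))) (.nd (nat_lit 5) (.nd (nat_lit 6) 
(.lf (nat_lit 114838) (.g (nat_lit 2017) (.e (nat_lit 5934) (nat_lit 322) (.e (nat_lit 57371) (nat_lit 2) (.e (nat_lit 90185) (nat_lit 17) (.e (nat_lit 237621) (nat_lit 13) (.e (nat_lit 491264) (nat_lit 10) (.e (nat_lit 434208) (nat_lit 18) .nil)))))) (.g (nat_lit 4) .nil .nil))) 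
(.lf (nat_lit 114902) (.g (nat_lit 3483) (.e (nat_lit 5934) (nat_lit 322) (.e (nat_lit 57375) (nat_lit 2) (.e (nat_lit 90172) (nat_lit 14) (.e (nat_lit 180244) (nat_lit 5) (.e (nat_lit 532515) (nat_lit 3) (.e (nat_lit 114719) (nat_lit 23) (.e (nat_lit 98325) (nat_lit 17) (.e (nat_lit 2515) (nat_lit 157) .nil)))))))) (.g (nat_lit 7) .nil .nil)))) (.nd (nat_lit 6) 
(.lf (nat_lit 114870) (.g (nat_lit 1874) (.e (nat_lit 5934) (nat_lit 322) (.e (nat_lit 57372) (nat_lit 2) (.e (nat_lit 90176) (nat_lit 15) (.e (nat_lit 188461) (nat_lit 26) (.e (nat_lit 261888) (nat_lit 5) .nil))))) .nil)) 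
(.lf (nat_lit 114934) (.g (nat_lit 2001) (.e (nat_lit 5934) (nat_lit 322) (.e (nat_lit 57379) (nat_lit 3) (.e (nat_lit 98365) (nat_lit 26) (.e (nat_lit 426187) (nat_lit 9) (.e (nat_lit 426479) (nat_lit 27) (.e (nat_lit 336421) (nat_lit 28) (.e (nat_lit 434216) (nat_lit 18) .nil))))))) (.g (nat_lit 4) .nil .nil)))))) (.nd (nat_lit 4) (.nd (nat_lit 5) (.nd (nat_lit 6) 
(.lf (nat_lit 114830) (.g (nat_lit 1766) (.e (nat_lit 5934) (nat_lit 322) (.e (nat_lit 57371) (nat_lit 2) (.e (nat_lit 90176) (nat_lit 15) (.e (nat_lit 188459) (nat_lit 26) (.e (nat_lit 261888) (nat_lit 5) .nil))))) .nil)) 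
(.lf (nat_lit 114894) (.g (nat_lit 1790) (.e (nat_lit 5934) (nat_lit 322) (.e (nat_lit 57375) (nat_lit 2) (.e (nat_lit 90172) (nat_lit 14) (.e (nat_lit 180244) (nat_lit 5) (.e (nat_lit 532515) (nat_lit 3) .nil))))) .nil))) (.nd (nat_lit 6) 
(.lf (nat_lit 114862) (.g (nat_lit 397) (.e (nat_lit 5934) (nat_lit 322) (.e (nat_lit 57372) (nat_lit 2) (.e (nat_lit 90176) (nat_lit 15) .nil))) .nil)) 
(.lf (nat_lit 114926) (.g (nat_lit 2135) (.e (nat_lit 5934) (nat_lit 322) (.e (nat_lit 57375) (nat_lit 2) (.e (nat_lit 90185) (nat_lit 17) (.e (nat_lit 237623) (nat_lit 13) (.e (nat_lit 491264) (nat_lit 10) .nil))))) .nil)))) (.nd (nat_lit 5) (.nd (nat_lit 6) 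
(.lf (nat_lit 114846) (.g (nat_lit 2017) (.e (nat_lit 5934) (nat_lit 322) (.e (nat_lit 57372) (nat_lit 2) (.e (nat_lit 90172) (nat_lit 14) (.e (nat_lit 180243) (nat_lit 5) (.e (nat_lit 532515) (nat_lit 3) (.e (nat_lit 114715) (nat_lit 22) (.e (nat_lit 90165) (nat_lit 12) (.e (nat_lit 163849) (nat_lit 0) .nil)))))))) (.g (nat_lit 4) .nil .nil))) 
(.lf (nat_lit 114910) (.g (nat_lit 1487) (.e (nat_lit 5934) (nat_lit 322) (.e (nat_lit 57375) (nat_lit 2) (.e (nat_lit 90176) (nat_lit 15) (.e (nat_lit 188459) (nat_lit 26) (.e (nat_lit 261888) (nat_lit 5) .nil))))) .nil))) (.nd (nat_lit 6) 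
(.lf (nat_lit 114878) (.g (nat_lit 2966) (.e (nat_lit 5934) (nat_lit 322) (.e (nat_lit 57374) (nat_lit 2) (.e (nat_lit 90170) (nat_lit 13) (.e (nat_lit 172113) (nat_lit 10) (.e (nat_lit 434208) (nat_lit 18) .nil))))) .nil)) 
(.lf (nat_lit 114942) (.g (nat_lit 1637) (.e (nat_lit 5934) (nat_lit 322) (.e (nat_lit 57379) (nat_lit 3) (.e (nat_lit 98372) (nat_lit 29) (.e (nat_lit 450561) (nat_lit 0) (.e (nat_lit 6595) (nat_lit 351) (.e (nat_lit 2640) (nat_lit 165) (.e (nat_lit 180227) (nat_lit 0) .nil))))))) (.g (nat_lit 4) .nil .nil))))))))) 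
(.nd (nat_lit 1) (.nd (nat_lit 2) (.nd (nat_lit 3) (.nd (nat_lit 4) (.nd (nat_lit 5) 
(.nd (nat_lit 6) 
(.lf (nat_lit 114817) (.g (nat_lit 2377) (.e (nat_lit 5934) (nat_lit 322) (.e (nat_lit 57371) (nat_lit 2) (.e (nat_lit 90172) (nat_lit 14) (.e (nat_lit 180244) (nat_lit 5) (.e (nat_lit 532515) (nat_lit 3) (.e (nat_lit 114718) (nat_lit 23) (.e (nat_lit 98325) (nat_lit 17) (.e (nat_lit 2515) (nat_lit 157) .nil)))))))) (.g (nat_lit 4) .nil .nil))) 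
(.lf (nat_lit 114881) (.g (nat_lit 853) (.e (nat_lit 5934) (nat_lit 322) (.e (nat_lit 57375) (nat_lit 2) (.e (nat_lit 90169) (nat_lit 13) .nil))) .nil))) (.nd (nat_lit 6) 
(.lf (nat_lit 114849) (.g (nat_lit 2018) (.e (nat_lit 5934) (nat_lit 322) (.e (nat_lit 57372) (nat_lit 2) (.e (nat_lit 90172) (nat_lit 14) (.e (nat_lit 180244) (nat_lit 5) (.e (nat_lit 532508) (nat_lit 2) .nil))))) .nil)) 
(.lf (nat_lit 114913) (.g (nat_lit 1234) (.e (nat_lit 5934) (nat_lit 322) (.e (nat_lit 57375) (nat_lit 2) (.e (nat_lit 90178) (nat_lit 15) (.e (nat_lit 196352) (nat_lit 18) .nil)))) .nil)))) (.nd (nat_lit 5) (.nd (nat_lit 6) 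
(.lf (nat_lit 114833) (.g (nat_lit 872) (.e (nat_lit 5934) (nat_lit 322) (.e (nat_lit 57371) (nat_lit 2) (.e (nat_lit 90184) (nat_lit 17) .nil))) .nil)) 
(.lf (nat_lit 114897) (.g (nat_lit 3263) (.e (nat_lit 5934) (nat_lit 322) (.e (nat_lit 57375) (nat_lit 2) (.e (nat_lit 90172) (nat_lit 14) (.e (nat_lit 180244) (nat_lit 5) (.e (nat_lit 532515) (nat_lit 3) (.e (nat_lit 114715) (nat_lit 22) (.e (nat_lit 90165) (nat_lit 12) (.e (nat_lit 163857) (nat_lit 0) .nil)))))))) (.g (nat_lit 8) .nil .nil)))) (.nd (nat_lit 6) 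
(.lf (nat_lit 114865) (.g (nat_lit 1598) (.e (nat_lit 5934) (nat_lit 322) (.e (nat_lit 57372) (nat_lit 2) (.e (nat_lit 90176) (nat_lit 15) (.e (nat_lit 196352) (nat_lit 11) (.e (nat_lit 336421) (nat_lit 28) (.e (nat_lit 434216) (nat_lit 18) .nil)))))) (.g (nat_lit 5) .nil .nil))) 
(.lf (nat_lit 114929) (.g (nat_lit 1637) (.e (nat_lit 5934) (nat_lit 322) (.e (nat_lit 57377) (nat_lit 3) (.e (nat_lit 98365) (nat_lit 26) (.e (nat_lit 426187) (nat_lit 9) (.e (nat_lit 426566) (nat_lit 34) .nil))))) .nil))))) (.nd (nat_lit 4) (.nd (nat_lit 5) (.nd (nat_lit 6) 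
(.lf (nat_lit 114825) (.g (nat_lit 2461) (.e (nat_lit 5934) (nat_lit 322) (.e (nat_lit 57371) (nat_lit 2) (.e (nat_lit 90174) (nat_lit 14) (.e (nat_lit 180243) (nat_lit 5) (.e (nat_lit 532515) (nat_lit 3) (.e (nat_lit 114716) (nat_lit 22) (.e (nat_lit 90181) (nat_lit 16) (.e (nat_lit 229376) (nat_lit 0) .nil)))))))) (.g (nat_lit 4) .nil .nil))) 
(.lf (nat_lit 114889) (.g (nat_lit 2733) (.e (nat_lit 5934) (nat_lit 322) (.e (nat_lit 57375) (nat_lit 2) (.e (nat_lit 90172) (nat_lit 14) (.e (nat_lit 180244) (nat_lit 5) (.e (nat_lit 532513) (nat_lit 3) (.e (nat_lit 114714) (nat_lit 22) (.e (nat_lit 90165) (nat_lit 12) (.e (nat_lit 163853) (nat_lit 0) .nil)))))))) (.g (nat_lit 5) .nil .nil)))) (.nd (nat_lit 6) 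
(.lf (nat_lit 114857) (.g (nat_lit 1925) (.e (nat_lit 5934) (nat_lit 322) (.e (nat_lit 57372) (nat_lit 2) (.e (nat_lit 90172) (nat_lit 14) (.e (nat_lit 180244) (nat_lit 5) (.e (nat_lit 532515) (nat_lit 3) (.e (nat_lit 114716) (nat_lit 22) (.e (nat_lit 90181) (nat_lit 16) (.e (nat_lit 229378) (nat_lit 0) .nil)))))))) (.g (nat_lit 4) .nil .nil))) 
(.lf (nat_lit 114921) (.g (nat_lit 1969) (.e (nat_lit 5934) (nat_lit 322) (.e (nat_lit 57375) (nat_lit 2) (.e (nat_lit 90185) (nat_lit 17) (.e (nat_lit 237605) (nat_lit 9) (.e (nat_lit 426479) (nat_lit 27) .nil))))) .nil)))) (.nd (nat_lit 5) (.nd (nat_lit 6) 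
(.lf (nat_lit 114841) (.g (nat_lit 2085) (.e (nat_lit 5934) (nat_lit 322) (.e (nat_lit 57371) (nat_lit 2) (.e (nat_lit 90185) (nat_lit 17) (.e (nat_lit 237624) (nat_lit 13) (.e (nat_lit 491264) (nat_lit 10) (.e (nat_lit 434208) (nat_lit 18) .nil)))))) (.g (nat_lit 4) .nil .nil))) 
(.lf (nat_lit 114905) (.g (nat_lit 340) (.e (nat_lit 5934) (nat_lit 322) (.e (nat_lit 57375) (nat_lit 2) (.e (nat_lit 90176) (nat_lit 15) .nil))) .nil))) (.nd (nat_lit 6) 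
(.lf (nat_lit 114873) (.g (nat_lit 2667) (.e (nat_lit 5934) (nat_lit 322) (.e (nat_lit 57374) (nat_lit 2) (.e (nat_lit 90170) (nat_lit 13) (.e (nat_lit 172065) (nat_lit 3) (.e (nat_lit 204838) (nat_lit 20) .nil))))) .nil)) 
(.lf (nat_lit 114937) (.g (nat_lit 1998) (.e (nat_lit 5934) (nat_lit 322) (.e (nat_lit 57379) (nat_lit 3) (.e (nat_lit 98365) (nat_lit 26) (.e (nat_lit 426325) (nat_lit 13) (.e (nat_lit 491264) (nat_lit 10) .nil))))) .nil)))))) (.nd (nat_lit 3) (.nd (nat_lit 4) (.nd (nat_lit 5) (.nd (nat_lit 6) 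
(.lf (nat_lit 114821) (.g (nat_lit 2397) (.e (nat_lit 5934) (nat_lit 322) (.e (nat_lit 57371) (nat_lit 2) (.e (nat_lit 90174) (nat_lit 14) (.e (nat_lit 180243) (nat_lit 5) (.e (nat_lit 532508) (nat_lit 2) .nil))))) .nil)) 
(.lf (nat_lit 114885) (.g (nat_lit 2230) (.e (nat_lit 5934) (nat_lit 322) (.e (nat_lit 57375) (nat_lit 2) (.e (nat_lit 90172) (nat_lit 14) (.e (nat_lit 180244) (nat_lit 5) (.e (nat_lit 532508) (nat_lit 2) (.e (nat_lit 106517) (nat_lit 9) (.e (nat_lit 1255) (nat_lit 92) (.e (nat_lit 98321) (nat_lit 17) (.e (nat_lit 2464) (nat_lit 157) .nil))))))))) (.g (nat_lit 4) .nil .nil)))) (.nd (nat_lit 6) 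
(.lf (nat_lit 114853) (.g (nat_lit 3044) (.e (nat_lit 5934) (nat_lit 322) (.e (nat_lit 57372) (nat_lit 2) (.e (nat_lit 90172) (nat_lit 14) (.e (nat_lit 180244) (nat_lit 5) (.e (nat_lit 532515) (nat_lit 3) (.e (nat_lit 114715) (nat_lit 22) (.e (nat_lit 90165) (nat_lit 12) (.e (nat_lit 163857) (nat_lit 0) .nil)))))))) (.g (nat_lit 7) .nil .nil))) 
(.lf (nat_lit 114917) (.g (nat_lit 1971) (.e (nat_lit 5934) (nat_lit 322) (.e (nat_lit 57375) (nat_lit 2) (.e (nat_lit 90178) (nat_lit 15) (.e (nat_lit 188461) (nat_lit 26) (.e (nat_lit 261888) (nat_lit 5) .nil))))) .nil)))) (.nd (nat_lit 5) (.nd (nat_lit 6) 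
(.lf (nat_lit 114837) (.g (nat_lit 1501) (.e (nat_lit 5934) (nat_lit 322) (.e (nat_lit 57371) (nat_lit 2) (.e (nat_lit 90185) (nat_lit 17) (.e (nat_lit 237621) (nat_lit 13) .nil)))) .nil)) 
(.lf (nat_lit 114901) (.g (nat_lit 2041) (.e (nat_lit 5934) (nat_lit 322) (.e (nat_lit 57375) (nat_lit 2) (.e (nat_lit 90172) (nat_lit 14) (.e (nat_lit 180244) (nat_lit 5) (.e (nat_lit 532515) (nat_lit 3) (.e (nat_lit 114719) (nat_lit 23) (.e (nat_lit 98325) (nat_lit 17) (.e (nat_lit 2458) (nat_lit 157) .nil)))))))) (.g (nat_lit 4) .nil .nil)))) (.nd (nat_lit 6) 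
(.lf (nat_lit 114869) (.g (nat_lit 1604) (.e (nat_lit 5934) (nat_lit 322) (.e (nat_lit 57372) (nat_lit 2) (.e (nat_lit 90176) (nat_lit 15) (.e (nat_lit 188459) (nat_lit 26) (.e (nat_lit 261888) (nat_lit 5) .nil))))) .nil)) 
(.lf (nat_lit 114933) (.g (nat_lit 2100) (.e (nat_lit 5934) (nat_lit 322) (.e (nat_lit 57378) (nat_lit 3) (.e (nat_lit 98365) (nat_lit 26) (.e (nat_lit 426188) (nat_lit 9) .nil)))) .nil))))) (.nd (nat_lit 4) (.nd (nat_lit 5) (.nd (nat_lit 6) 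
(.lf (nat_lit 114829) (.g (nat_lit 1322) (.e (nat_lit 5934) (nat_lit 322) (.e (nat_lit 57371) (nat_lit 2) (.e (nat_lit 90176) (nat_lit 15) (.e (nat_lit 188431) (nat_lit 20) .nil)))) .nil)) 
(.lf (nat_lit 114893) (.g (nat_lit 3666) (.e (nat_lit 5934) (nat_lit 322) (.e (nat_lit 57375) (nat_lit 2) (.e (nat_lit 90172) (nat_lit 14) (.e (nat_lit 180244) (nat_lit 5) (.e (nat_lit 532513) (nat_lit 3) (.e (nat_lit 114718) (nat_lit 23) (.e (nat_lit 98325) (nat_lit 17) (.e (nat_lit 2515) (nat_lit 157) .nil)))))))) (.g (nat_lit 6) .nil .nil)))) (.nd (nat_lit 6) 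
(.lf (nat_lit 114861) (.g (nat_lit 1835) (.e (nat_lit 5934) (nat_lit 322) (.e (nat_lit 57372) (nat_lit 2) (.e (nat_lit 90174) (nat_lit 14) (.e (nat_lit 180243) (nat_lit 5) .nil)))) .nil)) 
(.lf (nat_lit 114925) (.g (nat_lit 1797) (.e (nat_lit 5934) (nat_lit 322) (.e (nat_lit 57375) (nat_lit 2) (.e (nat_lit 90185) (nat_lit 17) (.e (nat_lit 237621) (nat_lit 13) (.e (nat_lit 491264) (nat_lit 10) (.e (nat_lit 434216) (nat_lit 18) .nil)))))) (.g (nat_lit 4) .nil .nil))))) (.nd (nat_lit 5) (.nd (nat_lit 6) 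
(.lf (nat_lit 114845) (.g (nat_lit 1860) (.e (nat_lit 5934) (nat_lit 322) (.e (nat_lit 57372) (nat_lit 2) (.e (nat_lit 90172) (nat_lit 14) (.e (nat_lit 180243) (nat_lit 5) (.e (nat_lit 532508) (nat_lit 2) .nil))))) .nil)) 
(.lf (nat_lit 114909) (.g (nat_lit 1402) (.e (nat_lit 5934) (nat_lit 322) (.e (nat_lit 57375) (nat_lit 2) (.e (nat_lit 90176) (nat_lit 15) (.e (nat_lit 188439) (nat_lit 20) (.e (nat_lit 7936) (nat_lit 219) .nil))))) .nil))) (.nd (nat_lit 6) 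
(.lf (nat_lit 114877) (.g (nat_lit 3027) (.e (nat_lit 5934) (nat_lit 322) (.e (nat_lit 57374) (nat_lit 2) (.e (nat_lit 90170) (nat_lit 13) (.e (nat_lit 172113) (nat_lit 10) (.e (nat_lit 434207) (nat_lit 18) .nil))))) .nil)) 
(.lf (nat_lit 114941) (.g (nat_lit 1570) (.e (nat_lit 5934) (nat_lit 322) (.e (nat_lit 57379) (nat_lit 3) (.e (nat_lit 98372) (nat_lit 29) (.e (nat_lit 450561) (nat_lit 0) (.e (nat_lit 6595) (nat_lit 351) .nil))))) .nil))))))) (.nd (nat_lit 2) (.nd (nat_lit 3) (.nd (nat_lit 4) (.nd (nat_lit 5) (.nd (nat_lit 6) 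
(.lf (nat_lit 114819) (.g (nat_lit 2414) (.e (nat_lit 5934) (nat_lit 322) (.e (nat_lit 57371) (nat_lit 2) (.e (nat_lit 90172) (nat_lit 14) (.e (nat_lit 180244) (nat_lit 5) (.e (nat_lit 532515) (nat_lit 3) (.e (nat_lit 114719) (nat_lit 23) (.e (nat_lit 98331) (nat_lit 17) (.e (nat_lit 2444) (nat_lit 157) .nil)))))))) (.g (nat_lit 4) .nil .nil))) 
(.lf (nat_lit 114883) (.g (nat_lit 2935) (.e (nat_lit 5934) (nat_lit 322) (.e (nat_lit 57375) (nat_lit 2) (.e (nat_lit 90172) (nat_lit 14) (.e (nat_lit 180243) (nat_lit 5) (.e (nat_lit 532513) (nat_lit 3) (.e (nat_lit 114718) (nat_lit 23) (.e (nat_lit 98325) (nat_lit 17) (.e (nat_lit 2515) (nat_lit 157) .nil)))))))) (.g (nat_lit 5) .nil .nil)))) (.nd (nat_lit 6) 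
(.lf (nat_lit 114851) (.g (nat_lit 3021) (.e (nat_lit 5934) (nat_lit 322) (.e (nat_lit 57372) (nat_lit 2) (.e (nat_lit 90172) (nat_lit 14) (.e (nat_lit 180244) (nat_lit 5) (.e (nat_lit 532515) (nat_lit 3) (.e (nat_lit 114715) (nat_lit 22) (.e (nat_lit 90165) (nat_lit 12) (.e (nat_lit 163849) (nat_lit 0) .nil)))))))) (.g (nat_lit 7) .nil .nil))) 
(.lf (nat_lit 114915) (.g (nat_lit 1810) (.e (nat_lit 5934) (nat_lit 322) (.e (nat_lit 57375) (nat_lit 2) (.e (nat_lit 90178) (nat_lit 15) (.e (nat_lit 196352) (nat_lit 18) (.e (nat_lit 393233) (nat_lit 17) (.e (nat_lit 2399) (nat_lit 157) .nil)))))) (.g (nat_lit 5) .nil .nil))))) (.nd (nat_lit 5) (.nd (nat_lit 6) 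
(.lf (nat_lit 114835) (.g (nat_lit 1845) (.e (nat_lit 5934) (nat_lit 322) (.e (nat_lit 57371) (nat_lit 2) (.e (nat_lit 90185) (nat_lit 17) (.e (nat_lit 237605) (nat_lit 9) (.e (nat_lit 426566) (nat_lit 34) .nil))))) .nil)) 
(.lf (nat_lit 114899) (.g (nat_lit 3447) (.e (nat_lit 5934) (nat_lit 322) (.e (nat_lit 57375) (nat_lit 2) (.e (nat_lit 90172) (nat_lit 14) (.e (nat_lit 180244) (nat_lit 5) (.e (nat_lit 532515) (nat_lit 3) (.e (nat_lit 114716) (nat_lit 22) (.e (nat_lit 90181) (nat_lit 16) (.e (nat_lit 229377) (nat_lit 0) .nil)))))))) (.g (nat_lit 7) .nil .nil)))) (.nd (nat_lit 6) 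
(.lf (nat_lit 114867) (.g (nat_lit 1162) (.e (nat_lit 5934) (nat_lit 322) (.e (nat_lit 57372) (nat_lit 2) (.e (nat_lit 90176) (nat_lit 15) (.e (nat_lit 188431) (nat_lit 20) .nil)))) .nil)) 
(.lf (nat_lit 114931) (.g (nat_lit 987) (.e (nat_lit 5934) (nat_lit 322) (.e (nat_lit 57378) (nat_lit 3) (.e (nat_lit 98365) (nat_lit 26) .nil))) .nil))))) (.nd (nat_lit 4) (.nd (nat_lit 5) (.nd (nat_lit 6) 
(.lf (nat_lit 114827) (.g (nat_lit 491) (.e (nat_lit 5934) (nat_lit 322) (.e (nat_lit 57371) (nat_lit 2) (.e (nat_lit 90176) (nat_lit 15) .nil))) .nil)) 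
(.lf (nat_lit 114891) (.g (nat_lit 2714) (.e (nat_lit 5934) (nat_lit 322) (.e (nat_lit 57375) (nat_lit 2) (.e (nat_lit 90172) (nat_lit 14) (.e (nat_lit 180244) (nat_lit 5) (.e (nat_lit 532513) (nat_lit 3) (.e (nat_lit 114714) (nat_lit 22) (.e (nat_lit 90181) (nat_lit 16) (.e (nat_lit 229376) (nat_lit 0) .nil)))))))) (.g (nat_lit 5) .nil .nil)))) (.nd (nat_lit 6) 
(.lf (nat_lit 114859) (.g (nat_lit 2523) (.e (nat_lit 5934) (nat_lit 322) (.e (nat_lit 57372) (nat_lit 2) (.e (nat_lit 90172) (nat_lit 14) (.e (nat_lit 180244) (nat_lit 5) (.e (nat_lit 532515) (nat_lit 3) (.e (nat_lit 114718) (nat_lit 23) (.e (nat_lit 98325) (nat_lit 17) (.e (nat_lit 2515) (nat_lit 157) .nil)))))))) (.g (nat_lit 5) .nil .nil))) 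
(.lf (nat_lit 114923) (.g (nat_lit 2268) (.e (nat_lit 5934) (nat_lit 322) (.e (nat_lit 57375) (nat_lit 2) (.e (nat_lit 90185) (nat_lit 17) (.e (nat_lit 237620) (nat_lit 13) .nil)))) .nil)))) (.nd (nat_lit 5) (.nd (nat_lit 6) 
(.lf (nat_lit 114843) (.g (nat_lit 1205) (.e (nat_lit 5934) (nat_lit 322) (.e (nat_lit 57372) (nat_lit 2) (.e (nat_lit 90169) (nat_lit 13) .nil))) .nil)) 
(.lf (nat_lit 114907) (.g (nat_lit 999) (.e (nat_lit 5934) (nat_lit 322) (.e (nat_lit 57375) (nat_lit 2) (.e (nat_lit 90176) (nat_lit 15) (.e (nat_lit 196352) (nat_lit 18) .nil)))) .nil))) (.nd (nat_lit 6) 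
(.lf (nat_lit 114875) (.g (nat_lit 2678) (.e (nat_lit 5934) (nat_lit 322) (.e (nat_lit 57374) (nat_lit 2) (.e (nat_lit 90170) (nat_lit 13) (.e (nat_lit 172067) (nat_lit 3) (.e (nat_lit 204838) (nat_lit 20) .nil))))) .nil)) 
(.lf (nat_lit 114939) (.g (nat_lit 2199) (.e (nat_lit 5934) (nat_lit 322) (.e (nat_lit 57379) (nat_lit 3) (.e (nat_lit 98365) (nat_lit 26) (.e (nat_lit 426327) (nat_lit 13) (.e (nat_lit 491264) (nat_lit 10) .nil))))) .nil)))))) (.nd (nat_lit 3) (.nd (nat_lit 4) (.nd (nat_lit 5) (.nd (nat_lit 6) 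
(.lf (nat_lit 114823) (.g (nat_lit 2510) (.e (nat_lit 5934) (nat_lit 322) (.e (nat_lit 57371) (nat_lit 2) (.e (nat_lit 90174) (nat_lit 14) (.e (nat_lit 180243) (nat_lit 5) (.e (nat_lit 532513) (nat_lit 3) (.e (nat_lit 114714) (nat_lit 22) (.e (nat_lit 90181) (nat_lit 16) (.e (nat_lit 229376) (nat_lit 0) .nil)))))))) (.g (nat_lit 4) .nil .nil))) 
(.lf (nat_lit 114887) (.g (nat_lit 3653) (.e (nat_lit 5934) (nat_lit 322) (.e (nat_lit 57375) (nat_lit 2) (.e (nat_lit 90172) (nat_lit 14) (.e (nat_lit 180244) (nat_lit 5) (.e (nat_lit 532513) (nat_lit 3) (.e (nat_lit 114714) (nat_lit 22) (.e (nat_lit 90162) (nat_lit 12) (.e (nat_lit 163849) (nat_lit 0) .nil)))))))) (.g (nat_lit 6) .nil .nil)))) (.nd (nat_lit 6) 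
(.lf (nat_lit 114855) (.g (nat_lit 1971) (.e (nat_lit 5934) (nat_lit 322) (.e (nat_lit 57372) (nat_lit 2) (.e (nat_lit 90172) (nat_lit 14) (.e (nat_lit 180244) (nat_lit 5) (.e (nat_lit 532515) (nat_lit 3) (.e (nat_lit 114716) (nat_lit 22) (.e (nat_lit 90165) (nat_lit 12) (.e (nat_lit 163857) (nat_lit 0) .nil)))))))) (.g (nat_lit 4) .nil .nil))) 
(.lf (nat_lit 114919) (.g (nat_lit 1515) (.e (nat_lit 5934) (nat_lit 322) (.e (nat_lit 57375) (nat_lit 2) (.e (nat_lit 90185) (nat_lit 17) (.e (nat_lit 237601) (nat_lit 9) .nil)))) .nil)))) (.nd (nat_lit 5) (.nd (nat_lit 6) 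
(.lf (nat_lit 114839) (.g (nat_lit 2151) (.e (nat_lit 5934) (nat_lit 322) (.e (nat_lit 57371) (nat_lit 2) (.e (nat_lit 90185) (nat_lit 17) (.e (nat_lit 237623) (nat_lit 13) (.e (nat_lit 491264) (nat_lit 10) .nil))))) .nil)) 
(.lf (nat_lit 114903) (.g (nat_lit 1871) (.e (nat_lit 5934) (nat_lit 322) (.e (nat_lit 57375) (nat_lit 2) (.e (nat_lit 90174) (nat_lit 14) (.e (nat_lit 180243) (nat_lit 5) (.e (nat_lit 532508) (nat_lit 2) .nil))))) .nil))) (.nd (nat_lit 6) 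
(.lf (nat_lit 114871) (.g (nat_lit 1078) (.e (nat_lit 5934) (nat_lit 322) (.e (nat_lit 57372) (nat_lit 2) (.e (nat_lit 90185) (nat_lit 17) .nil))) .nil)) 
(.lf (nat_lit 114935) (.g (nat_lit 2425) (.e (nat_lit 5934) (nat_lit 322) (.e (nat_lit 57379) (nat_lit 3) (.e (nat_lit 98365) (nat_lit 26) (.e (nat_lit 426188) (nat_lit 9) (.e (nat_lit 426479) (nat_lit 27) (.e (nat_lit 336421) (nat_lit 28) (.e (nat_lit 434216) (nat_lit 18) .nil))))))) (.g (nat_lit 4) .nil .nil)))))) (.nd (nat_lit 4) (.nd (nat_lit 5) (.nd (nat_lit 6) 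
(.lf (nat_lit 114831) (.g (nat_lit 666) (.e (nat_lit 5934) (nat_lit 322) (.e (nat_lit 57371) (nat_lit 2) (.e (nat_lit 90178) (nat_lit 15) .nil))) .nil)) 
(.lf (nat_lit 114895) (.g (nat_lit 3221) (.e (nat_lit 5934) (nat_lit 322) (.e (nat_lit 57375) (nat_lit 2) (.e (nat_lit 90172) (nat_lit 14) (.e (nat_lit 180244) (nat_lit 5) (.e (nat_lit 532515) (nat_lit 3) (.e (nat_lit 114715) (nat_lit 22) (.e (nat_lit 90165) (nat_lit 12) (.e (nat_lit 163849) (nat_lit 0) .nil)))))))) (.g (nat_lit 8) .nil .nil)))) (.nd (nat_lit 6) 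
(.lf (nat_lit 114863) (.g (nat_lit 956) (.e (nat_lit 5934) (nat_lit 322) (.e (nat_lit 57372) (nat_lit 2) (.e (nat_lit 90176) (nat_lit 15) (.e (nat_lit 188423) (nat_lit 11) .nil)))) .nil)) 
(.lf (nat_lit 114927) (.g (nat_lit 1366) (.e (nat_lit 5934) (nat_lit 322) (.e (nat_lit 57375) (nat_lit 2) (.e (nat_lit 90185) (nat_lit 17) (.e (nat_lit 237624) (nat_lit 13) .nil)))) .nil)))) (.nd (nat_lit 5) (.nd (nat_lit 6) 
(.lf (nat_lit 114847) (.g (nat_lit 2040) (.e (nat_lit 5934) (nat_lit 322) (.e (nat_lit 57372) (nat_lit 2) (.e (nat_lit 90172) (nat_lit 14) (.e (nat_lit 180243) (nat_lit 5) (.e (nat_lit 532515) (nat_lit 3) (.e (nat_lit 114715) (nat_lit 22) (.e (nat_lit 90165) (nat_lit 12) (.e (nat_lit 163857) (nat_lit 0) .nil)))))))) (.g (nat_lit 4) .nil .nil))) 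
(.lf (nat_lit 114911) (.g (nat_lit 1725) (.e (nat_lit 5934) (nat_lit 322) (.e (nat_lit 57375) (nat_lit 2) (.e (nat_lit 90176) (nat_lit 15) (.e (nat_lit 188461) (nat_lit 26) (.e (nat_lit 261888) (nat_lit 5) .nil))))) .nil))) (.nd (nat_lit 6) 
(.lf (nat_lit 114879) (.g (nat_lit 2505) (.e (nat_lit 5934) (nat_lit 322) (.e (nat_lit 57374) (nat_lit 2) (.e (nat_lit 90170) (nat_lit 13) (.e (nat_lit 172121) (nat_lit 13) (.e (nat_lit 491264) (nat_lit 10) .nil))))) .nil)) 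
(.lf (nat_lit 114943) (.g (nat_lit 1317) (.e (nat_lit 5934) (nat_lit 322) (.e (nat_lit 57379) (nat_lit 3) (.e (nat_lit 98372) (nat_lit 29) (.e (nat_lit 450602) (nat_lit 22) .nil)))) .nil)))))))))

noncomputable def tv1550 : DT := (.nd (nat_lit 0) (.nd (nat_lit 1) (.nd (nat_lit 2) (.nd (nat_lit 3) (.nd (nat_lit 4) (.nd (nat_lit 5) (.nd (nat_lit 6) 
(.lf (nat_lit 114944) (.g (nat_lit 2272) (.e (nat_lit 5934) (nat_lit 322) (.e (nat_lit 57379) (nat_lit 3) (.e (nat_lit 98373) (nat_lit 29) (.e (nat_lit 450561) (nat_lit 0) (.e (nat_lit 6595) (nat_lit 351) .nil))))) .nil)) 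
(.lf (nat_lit 115008) (.g (nat_lit 2300) (.e (nat_lit 5935) (nat_lit 322) (.e (nat_lit 57371) (nat_lit 2) (.e (nat_lit 90174) (nat_lit 14) (.e (nat_lit 180243) (nat_lit 5) (.e (nat_lit 532513) (nat_lit 3) (.e (nat_lit 114714) (nat_lit 22) (.e (nat_lit 90181) (nat_lit 16) (.e (nat_lit 229378) (nat_lit 0) .nil)))))))) (.g (nat_lit 4) .nil .nil)))) (.nd (nat_lit 6) 
(.lf (nat_lit 114976) (.g (nat_lit 1933) (.e (nat_lit 5934) (nat_lit 322) (.e (nat_lit 57424) (nat_lit 14) (.e (nat_lit 352318) (nat_lit 24) (.e (nat_lit 123199) (nat_lit 267) .nil)))) .nil)) 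
(.lf (nat_lit 115040) (.g (nat_lit 681) (.e (nat_lit 5935) (nat_lit 322) (.e (nat_lit 57375) (nat_lit 2) (.e (nat_lit 90185) (nat_lit 17) .nil))) .nil)))) (.nd (nat_lit 5) (.nd (nat_lit 6) 
(.lf (nat_lit 114960) (.g (nat_lit 691) (.e (nat_lit 5934) (nat_lit 322) (.e (nat_lit 57406) (nat_lit 12) (.e (nat_lit 336443) (nat_lit 32) .nil))) .nil)) 
(.lf (nat_lit 115024) (.g (nat_lit 1973) (.e (nat_lit 5935) (nat_lit 322) (.e (nat_lit 57374) (nat_lit 2) (.e (nat_lit 90170) (nat_lit 13) (.e (nat_lit 172067) (nat_lit 3) .nil)))) .nil))) (.nd (nat_lit 6) 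
(.lf (nat_lit 114992) (.g (nat_lit 2165) (.e (nat_lit 5934) (nat_lit 322) (.e (nat_lit 57447) (nat_lit 19) (.e (nat_lit 393234) (nat_lit 17) (.e (nat_lit 7581) (nat_lit 405) (.e (nat_lit 57477) (nat_lit 28) .nil))))) .nil)) 
(.lf (nat_lit 115056) (.g (nat_lit 802) (.e (nat_lit 5935) (nat_lit 322) (.e (nat_lit 57379) (nat_lit 3) (.e (nat_lit 98369) (nat_lit 28) (.e (nat_lit 450304) (nat_lit 18) .nil)))) .nil))))) (.nd (nat_lit 4) (.nd (nat_lit 5) (.nd (nat_lit 6) 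
(.lf (nat_lit 114952) (.g (nat_lit 3197) (.e (nat_lit 5934) (nat_lit 322) (.e (nat_lit 57390) (nat_lit 5) (.e (nat_lit 114722) (nat_lit 24) (.e (nat_lit 106534) (nat_lit 11) (.e (nat_lit 16473) (nat_lit 14) (.e (nat_lit 491560) (nat_lit 10) (.e (nat_lit 344103) (nat_lit 18) .nil))))))) (.g (nat_lit 6) .nil .nil))) 
(.lf (nat_lit 115016) (.g (nat_lit 2598) (.e (nat_lit 5935) (nat_lit 322) (.e (nat_lit 57373) (nat_lit 2) (.e (nat_lit 90174) (nat_lit 14) (.e (nat_lit 180243) (nat_lit 5) (.e (nat_lit 532508) (nat_lit 2) .nil))))) .nil))) (.nd (nat_lit 6) 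
(.lf (nat_lit 114984) (.g (nat_lit 1918) (.e (nat_lit 5934) (nat_lit 322) (.e (nat_lit 57445) (nat_lit 19) (.e (nat_lit 393233) (nat_lit 17) (.e (nat_lit 7581) (nat_lit 405) (.e (nat_lit 57480) (nat_lit 28) (.e (nat_lit 557105) (nat_lit 14) (.e (nat_lit 180226) (nat_lit 0) .nil))))))) (.g (nat_lit 4) .nil .nil))) 
(.lf (nat_lit 115048) (.g (nat_lit 526) (.e (nat_lit 5935) (nat_lit 322) (.e (nat_lit 57379) (nat_lit 3) (.e (nat_lit 98363) (nat_lit 26) .nil))) .nil)))) (.nd (nat_lit 5) (.nd (nat_lit 6) 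
(.lf (nat_lit 114968) (.g (nat_lit 1769) (.e (nat_lit 5934) (nat_lit 322) (.e (nat_lit 57412) (nat_lit 12) (.e (nat_lit 336061) (nat_lit 7) (.e (nat_lit 319539) (nat_lit 19) (.e (nat_lit 319232) (nat_lit 30) .nil))))) .nil)) 
(.lf (nat_lit 115032) (.g (nat_lit 1891) (.e (nat_lit 5935) (nat_lit 322) (.e (nat_lit 57375) (nat_lit 2) (.e (nat_lit 90172) (nat_lit 14) (.e (nat_lit 180243) (nat_lit 5) (.e (nat_lit 532508) (nat_lit 2) (.e (nat_lit 106517) (nat_lit 9) (.e (nat_lit 1255) (nat_lit 92) (.e (nat_lit 98321) (nat_lit 17) (.e (nat_lit 2464) (nat_lit 157) .nil))))))))) (.g (nat_lit 4) .nil .nil)))) (.nd (nat_lit 6) 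
(.lf (nat_lit 115000) (.g (nat_lit 925) (.e (nat_lit 5934) (nat_lit 322) (.e (nat_lit 57450) (nat_lit 20) (.e (nat_lit 401454) (nat_lit 12) (.e (nat_lit 475207) (nat_lit 41) .nil)))) .nil)) 
(.lf (nat_lit 115064) (.g (nat_lit 2473) (.e (nat_lit 5936) (nat_lit 322) (.e (nat_lit 57372) (nat_lit 2) (.e (nat_lit 90172) (nat_lit 14) (.e (nat_lit 180243) (nat_lit 5) (.e (nat_lit 532513) (nat_lit 3) .nil))))) .nil)))))) (.nd (nat_lit 3) (.nd (nat_lit 4) (.nd (nat_lit 5) (.nd (nat_lit 6) 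
(.lf (nat_lit 114948) (.g (nat_lit 3019) (.e (nat_lit 5934) (nat_lit 322) (.e (nat_lit 57379) (nat_lit 3) (.e (nat_lit 98373) (nat_lit 29) (.e (nat_lit 450563) (nat_lit 0) (.e (nat_lit 6595) (nat_lit 351) (.e (nat_lit 2639) (nat_lit 165) (.e (nat_lit 180227) (nat_lit 0) .nil))))))) (.g (nat_lit 4) .nil .nil))) 
(.lf (nat_lit 115012) (.g (nat_lit 2174) (.e (nat_lit 5935) (nat_lit 322) (.e (nat_lit 57372) (nat_lit 2) (.e (nat_lit 90172) (nat_lit 14) (.e (nat_lit 180244) (nat_lit 5) (.e (nat_lit 532515) (nat_lit 3) (.e (nat_lit 114716) (nat_lit 22) (.e (nat_lit 90181) (nat_lit 16) (.e (nat_lit 229378) (nat_lit 0) .nil)))))))) (.g (nat_lit 4) .nil .nil)))) (.nd (nat_lit 6) 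
(.lf (nat_lit 114980) (.g (nat_lit 2183) (.e (nat_lit 5934) (nat_lit 322) (.e (nat_lit 57445) (nat_lit 19) (.e (nat_lit 393232) (nat_lit 17) (.e (nat_lit 7581) (nat_lit 405) (.e (nat_lit 57477) (nat_lit 28) .nil))))) .nil)) 
(.lf (nat_lit 115044) (.g (nat_lit 1853) (.e (nat_lit 5935) (nat_lit 322) (.e (nat_lit 57375) (nat_lit 2) (.e (nat_lit 90185) (nat_lit 17) (.e (nat_lit 237605) (nat_lit 9) (.e (nat_lit 426566) (nat_lit 34) .nil))))) .nil)))) (.nd (nat_lit 5) (.nd (nat_lit 6) 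
(.lf (nat_lit 114964) (.g (nat_lit 946) (.e (nat_lit 5934) (nat_lit 322) (.e (nat_lit 57409) (nat_lit 12) (.e (nat_lit 336443) (nat_lit 32) .nil))) .nil)) 
(.lf (nat_lit 115028) (.g (nat_lit 2339) (.e (nat_lit 5935) (nat_lit 322) (.e (nat_lit 57374) (nat_lit 2) (.e (nat_lit 90170) (nat_lit 13) (.e (nat_lit 172121) (nat_lit 13) .nil)))) .nil))) (.nd (nat_lit 6) 
(.lf (nat_lit 114996) (.g (nat_lit 2700) (.e (nat_lit 5934) (nat_lit 322) (.e (nat_lit 57447) (nat_lit 19) (.e (nat_lit 393301) (nat_lit 27) (.e (nat_lit 491526) (nat_lit 0) (.e (nat_lit 1855) (nat_lit 124) .nil))))) .nil)) 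
(.lf (nat_lit 115060) (.g (nat_lit 2324) (.e (nat_lit 5936) (nat_lit 322) (.e (nat_lit 57371) (nat_lit 2) (.e (nat_lit 90174) (nat_lit 14) (.e (nat_lit 180243) (nat_lit 5) (.e (nat_lit 532513) (nat_lit 3) .nil))))) .nil))))) (.nd (nat_lit 4) (.nd (nat_lit 5) (.nd (nat_lit 6) 
(.lf (nat_lit 114956) (.g (nat_lit 4273) (.e (nat_lit 5934) (nat_lit 322) (.e (nat_lit 57390) (nat_lit 5) (.e (nat_lit 114723) (nat_lit 24) (.e (nat_lit 106536) (nat_lit 11) (.e (nat_lit 16473) (nat_lit 14) (.e (nat_lit 491560) (nat_lit 10) (.e (nat_lit 344103) (nat_lit 18) .nil))))))) (.g (nat_lit 7) .nil .nil))) 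
(.lf (nat_lit 115020) (.g (nat_lit 2235) (.e (nat_lit 5935) (nat_lit 322) (.e (nat_lit 57374) (nat_lit 2) (.e (nat_lit 90170) (nat_lit 13) (.e (nat_lit 172065) (nat_lit 3) .nil)))) .nil))) (.nd (nat_lit 6) 
(.lf (nat_lit 114988) (.g (nat_lit 2345) (.e (nat_lit 5934) (nat_lit 322) (.e (nat_lit 57445) (nat_lit 19) (.e (nat_lit 393234) (nat_lit 17) (.e (nat_lit 7581) (nat_lit 405) (.e (nat_lit 57480) (nat_lit 28) .nil))))) .nil)) 
(.lf (nat_lit 115052) (.g (nat_lit 1611) (.e (nat_lit 5935) (nat_lit 322) (.e (nat_lit 57379) (nat_lit 3) (.e (nat_lit 98365) (nat_lit 26) (.e (nat_lit 426188) (nat_lit 9) .nil)))) .nil)))) (.nd (nat_lit 5) (.nd (nat_lit 6) 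
(.lf (nat_lit 114972) (.g (nat_lit 959) (.e (nat_lit 5934) (nat_lit 322) (.e (nat_lit 57424) (nat_lit 14) (.e (nat_lit 352270) (nat_lit 8) .nil))) .nil)) 
(.lf (nat_lit 115036) (.g (nat_lit 2114) (.e (nat_lit 5935) (nat_lit 322) (.e (nat_lit 57375) (nat_lit 2) (.e (nat_lit 90174) (nat_lit 14) (.e (nat_lit 180243) (nat_lit 5) (.e (nat_lit 532508) (nat_lit 2) (.e (nat_lit 106517) (nat_lit 9) (.e (nat_lit 1255) (nat_lit 92) (.e (nat_lit 98321) (nat_lit 17) (.e (nat_lit 2464) (nat_lit 157) .nil))))))))) (.g (nat_lit 4) .nil .nil)))) (.nd (nat_lit 6) 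
(.lf (nat_lit 115004) (.g (nat_lit 2088) (.e (nat_lit 5935) (nat_lit 322) (.e (nat_lit 57371) (nat_lit 2) (.e (nat_lit 90172) (nat_lit 14) (.e (nat_lit 180244) (nat_lit 5) (.e (nat_lit 532515) (nat_lit 3) .nil))))) .nil)) 
(.lf (nat_lit 115068) (.g (nat_lit 2476) (.e (nat_lit 5936) (nat_lit 322) (.e (nat_lit 57372) (nat_lit 2) (.e (nat_lit 90172) (nat_lit 14) (.e (nat_lit 180244) (nat_lit 5) (.e (nat_lit 532513) (nat_lit 3) .nil))))) .nil))))))) (.nd (nat_lit 2) (.nd (nat_lit 3) (.nd (nat_lit 4) (.nd (nat_lit 5) (.nd (nat_lit 6) 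
(.lf (nat_lit 114946) (.g (nat_lit 2927) (.e (nat_lit 5934) (nat_lit 322) (.e (nat_lit 57379) (nat_lit 3) (.e (nat_lit 98373) (nat_lit 29) (.e (nat_lit 450562) (nat_lit 0) (.e (nat_lit 6595) (nat_lit 351) (.e (nat_lit 2639) (nat_lit 165) (.e (nat_lit 180227) (nat_lit 0) .nil))))))) (.g (nat_lit 4) .nil .nil))) 
(.lf (nat_lit 115010) (.g (nat_lit 1473) (.e (nat_lit 5935) (nat_lit 322) (.e (nat_lit 57372) (nat_lit 2) (.e (nat_lit 90172) (nat_lit 14) (.e (nat_lit 180244) (nat_lit 5) .nil)))) .nil))) (.nd (nat_lit 6) 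
(.lf (nat_lit 114978) (.g (nat_lit 821) (.e (nat_lit 5934) (nat_lit 322) (.e (nat_lit 57445) (nat_lit 19) (.e (nat_lit 393231) (nat_lit 17) .nil))) .nil)) 
(.lf (nat_lit 115042) (.g (nat_lit 1700) (.e (nat_lit 5935) (nat_lit 322) (.e (nat_lit 57375) (nat_lit 2) (.e (nat_lit 90185) (nat_lit 17) (.e (nat_lit 237601) (nat_lit 9) (.e (nat_lit 426566) (nat_lit 34) (.e (nat_lit 393235) (nat_lit 17) (.e (nat_lit 2464) (nat_lit 157) .nil))))))) (.g (nat_lit 4) .nil .nil))))) (.nd (nat_lit 5) (.nd (nat_lit 6) 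
(.lf (nat_lit 114962) (.g (nat_lit 857) (.e (nat_lit 5934) (nat_lit 322) (.e (nat_lit 57407) (nat_lit 12) (.e (nat_lit 336443) (nat_lit 32) .nil))) .nil)) 
(.lf (nat_lit 115026) (.g (nat_lit 2841) (.e (nat_lit 5935) (nat_lit 322) (.e (nat_lit 57374) (nat_lit 2) (.e (nat_lit 90170) (nat_lit 13) (.e (nat_lit 172067) (nat_lit 3) (.e (nat_lit 204838) (nat_lit 20) .nil))))) .nil))) (.nd (nat_lit 6) 
(.lf (nat_lit 114994) (.g (nat_lit 3486) (.e (nat_lit 5934) (nat_lit 322) (.e (nat_lit 57447) (nat_lit 19) (.e (nat_lit 393234) (nat_lit 17) (.e (nat_lit 7581) (nat_lit 405) (.e (nat_lit 57480) (nat_lit 28) (.e (nat_lit 557105) (nat_lit 14) (.e (nat_lit 180227) (nat_lit 0) .nil))))))) (.g (nat_lit 6) .nil .nil))) 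
(.lf (nat_lit 115058) (.g (nat_lit 2199) (.e (nat_lit 5935) (nat_lit 322) (.e (nat_lit 57448) (nat_lit 19) (.e (nat_lit 393234) (nat_lit 17) (.e (nat_lit 7581) (nat_lit 405) (.e (nat_lit 57480) (nat_lit 28) .nil))))) .nil))))) (.nd (nat_lit 4) (.nd (nat_lit 5) (.nd (nat_lit 6) 
(.lf (nat_lit 114954) (.g (nat_lit 3669) (.e (nat_lit 5934) (nat_lit 322) (.e (nat_lit 57390) (nat_lit 5) (.e (nat_lit 114723) (nat_lit 24) (.e (nat_lit 106534) (nat_lit 11) (.e (nat_lit 16473) (nat_lit 14) (.e (nat_lit 491560) (nat_lit 10) (.e (nat_lit 344103) (nat_lit 18) .nil))))))) (.g (nat_lit 7) .nil .nil))) 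
(.lf (nat_lit 115018) (.g (nat_lit 2306) (.e (nat_lit 5935) (nat_lit 322) (.e (nat_lit 57373) (nat_lit 2) (.e (nat_lit 90174) (nat_lit 14) (.e (nat_lit 180243) (nat_lit 5) (.e (nat_lit 532515) (nat_lit 3) .nil))))) .nil))) (.nd (nat_lit 6) 
(.lf (nat_lit 114986) (.g (nat_lit 2382) (.e (nat_lit 5934) (nat_lit 322) (.e (nat_lit 57445) (nat_lit 19) (.e (nat_lit 393234) (nat_lit 17) (.e (nat_lit 7581) (nat_lit 405) (.e (nat_lit 57477) (nat_lit 28) .nil))))) .nil)) 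
(.lf (nat_lit 115050) (.g (nat_lit 1966) (.e (nat_lit 5935) (nat_lit 322) (.e (nat_lit 57379) (nat_lit 3) (.e (nat_lit 98365) (nat_lit 26) (.e (nat_lit 426187) (nat_lit 9) (.e (nat_lit 426566) (nat_lit 34) .nil))))) .nil)))) (.nd (nat_lit 5) (.nd (nat_lit 6) 
(.lf (nat_lit 114970) (.g (nat_lit 2382) (.e (nat_lit 5934) (nat_lit 322) (.e (nat_lit 57412) (nat_lit 12) (.e (nat_lit 336193) (nat_lit 12) (.e (nat_lit 385105) (nat_lit 50) (.e (nat_lit 786483) (nat_lit 30) (.e (nat_lit 360456) (nat_lit 0) .nil)))))) (.g (nat_lit 4) .nil .nil))) 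
(.lf (nat_lit 115034) (.g (nat_lit 1954) (.e (nat_lit 5935) (nat_lit 322) (.e (nat_lit 57375) (nat_lit 2) (.e (nat_lit 90172) (nat_lit 14) (.e (nat_lit 180244) (nat_lit 5) (.e (nat_lit 532515) (nat_lit 3) .nil))))) .nil))) (.nd (nat_lit 6) 
(.lf (nat_lit 115002) (.g (nat_lit 2628) (.e (nat_lit 5934) (nat_lit 322) (.e (nat_lit 57450) (nat_lit 20) (.e (nat_lit 401454) (nat_lit 12) (.e (nat_lit 475208) (nat_lit 41) (.e (nat_lit 712755) (nat_lit 30) (.e (nat_lit 450563) (nat_lit 0) .nil)))))) (.g (nat_lit 4) .nil .nil))) 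
(.lf (nat_lit 115066) (.g (nat_lit 2534) (.e (nat_lit 5936) (nat_lit 322) (.e (nat_lit 57372) (nat_lit 2) (.e (nat_lit 90172) (nat_lit 14) (.e (nat_lit 180243) (nat_lit 5) (.e (nat_lit 532515) (nat_lit 3) (.e (nat_lit 114716) (nat_lit 22) (.e (nat_lit 90181) (nat_lit 16) (.e (nat_lit 229378) (nat_lit 0) .nil)))))))) (.g (nat_lit 4) .nil .nil))))))) 
(.nd (nat_lit 3) (.nd (nat_lit 4) (.nd (nat_lit 5) (.nd (nat_lit 6) 
(.lf (nat_lit 114950) (.g (nat_lit 4073) (.e (nat_lit 5934) (nat_lit 322) (.e (nat_lit 57389) (nat_lit 5) (.e (nat_lit 114723) (nat_lit 24) (.e (nat_lit 106535) (nat_lit 11) (.e (nat_lit 16473) (nat_lit 14) (.e (nat_lit 491560) (nat_lit 10) (.e (nat_lit 344103) (nat_lit 18) .nil))))))) (.g (nat_lit 6) .nil .nil))) 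
(.lf (nat_lit 115014) (.g (nat_lit 902) (.e (nat_lit 5935) (nat_lit 322) (.e (nat_lit 57373) (nat_lit 2) (.e (nat_lit 90172) (nat_lit 14) .nil))) .nil))) (.nd (nat_lit 6) 
(.lf (nat_lit 114982) (.g (nat_lit 2174) (.e (nat_lit 5934) (nat_lit 322) (.e (nat_lit 57445) (nat_lit 19) (.e (nat_lit 393232) (nat_lit 17) (.e (nat_lit 7581) (nat_lit 405) (.e (nat_lit 57480) (nat_lit 28) .nil))))) .nil)) 
(.lf (nat_lit 115046) (.g (nat_lit 2091) (.e (nat_lit 5935) (nat_lit 322) (.e (nat_lit 57378) (nat_lit 3) (.e (nat_lit 98365) (nat_lit 26) (.e (nat_lit 426187) (nat_lit 9) .nil)))) .nil)))) (.nd (nat_lit 5) (.nd (nat_lit 6) 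
(.lf (nat_lit 114966) (.g (nat_lit 1056) (.e (nat_lit 5934) (nat_lit 322) (.e (nat_lit 57411) (nat_lit 12) (.e (nat_lit 336438) (nat_lit 31) .nil))) .nil)) 
(.lf (nat_lit 115030) (.g (nat_lit 2179) (.e (nat_lit 5935) (nat_lit 322) (.e (nat_lit 57374) (nat_lit 2) (.e (nat_lit 90170) (nat_lit 13) (.e (nat_lit 172123) (nat_lit 13) (.e (nat_lit 483337) (nat_lit 9) (.e (nat_lit 426031) (nat_lit 0) (.e (nat_lit 2466) (nat_lit 157) .nil))))))) (.g (nat_lit 4) .nil .nil)))) (.nd (nat_lit 6) 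
(.lf (nat_lit 114998) (.g (nat_lit 1694) (.e (nat_lit 5934) (nat_lit 322) (.e (nat_lit 57448) (nat_lit 19) (.e (nat_lit 393301) (nat_lit 27) (.e (nat_lit 491520) (nat_lit 0) .nil)))) .nil)) 
(.lf (nat_lit 115062) (.g (nat_lit 958) (.e (nat_lit 5936) (nat_lit 322) (.e (nat_lit 57372) (nat_lit 2) (.e (nat_lit 90172) (nat_lit 14) .nil))) .nil))))) (.nd (nat_lit 4) (.nd (nat_lit 5) (.nd (nat_lit 6) 
(.lf (nat_lit 114958) (.g (nat_lit 2024) (.e (nat_lit 5934) (nat_lit 322) (.e (nat_lit 57400) (nat_lit 10) (.e (nat_lit 319533) (nat_lit 16) (.e (nat_lit 286743) (nat_lit 9) (.e (nat_lit 336433) (nat_lit 30) .nil))))) .nil)) 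
(.lf (nat_lit 115022) (.g (nat_lit 3297) (.e (nat_lit 5935) (nat_lit 322) (.e (nat_lit 57374) (nat_lit 2) (.e (nat_lit 90170) (nat_lit 13) (.e (nat_lit 172065) (nat_lit 3) (.e (nat_lit 204838) (nat_lit 20) (.e (nat_lit 114716) (nat_lit 22) (.e (nat_lit 90181) (nat_lit 16) (.e (nat_lit 229376) (nat_lit 0) .nil)))))))) (.g (nat_lit 5) .nil .nil)))) (.nd (nat_lit 6) 
(.lf (nat_lit 114990) (.g (nat_lit 2209) (.e (nat_lit 5934) (nat_lit 322) (.e (nat_lit 57445) (nat_lit 19) (.e (nat_lit 393298) (nat_lit 27) (.e (nat_lit 491528) (nat_lit 0) (.e (nat_lit 1859) (nat_lit 124) .nil))))) .nil)) 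
(.lf (nat_lit 115054) (.g (nat_lit 2272) (.e (nat_lit 5935) (nat_lit 322) (.e (nat_lit 57379) (nat_lit 3) (.e (nat_lit 98365) (nat_lit 26) (.e (nat_lit 426188) (nat_lit 9) (.e (nat_lit 426566) (nat_lit 34) (.e (nat_lit 393235) (nat_lit 17) (.e (nat_lit 2464) (nat_lit 157) .nil))))))) (.g (nat_lit 4) .nil .nil))))) (.nd (nat_lit 5) (.nd (nat_lit 6) 
(.lf (nat_lit 114974) (.g (nat_lit 2304) (.e (nat_lit 5934) (nat_lit 322) (.e (nat_lit 57424) (nat_lit 14) (.e (nat_lit 352318) (nat_lit 24) (.e (nat_lit 123198) (nat_lit 266) (.e (nat_lit 57426) (nat_lit 15) (.e (nat_lit 360456) (nat_lit 0) .nil)))))) (.g (nat_lit 4) .nil .nil))) 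
(.lf (nat_lit 115038) (.g (nat_lit 1179) (.e (nat_lit 5935) (nat_lit 322) (.e (nat_lit 57375) (nat_lit 2) (.e (nat_lit 90176) (nat_lit 15) (.e (nat_lit 196352) (nat_lit 18) .nil)))) .nil))) (.nd (nat_lit 6) 
(.lf (nat_lit 115006) (.g (nat_lit 2404) (.e (nat_lit 5935) (nat_lit 322) (.e (nat_lit 57371) (nat_lit 2) (.e (nat_lit 90174) (nat_lit 14) (.e (nat_lit 180243) (nat_lit 5) (.e (nat_lit 532508) (nat_lit 2) .nil))))) .nil)) 
(.lf (nat_lit 115070) (.g (nat_lit 2552) (.e (nat_lit 5936) (nat_lit 322) (.e (nat_lit 57372) (nat_lit 2) (.e (nat_lit 90172) (nat_lit 14) (.e (nat_lit 180244) (nat_lit 5) (.e (nat_lit 532515) (nat_lit 3) .nil))))) .nil)))))))) (.nd (nat_lit 1) (.nd (nat_lit 2) (.nd (nat_lit 3) (.nd (nat_lit 4) (.nd (nat_lit 5) (.nd (nat_lit 6) 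
(.lf (nat_lit 114945) (.g (nat_lit 2891) (.e (nat_lit 5934) (nat_lit 322) (.e (nat_lit 57379) (nat_lit 3) (.e (nat_lit 98373) (nat_lit 29) (.e (nat_lit 450562) (nat_lit 0) (.e (nat_lit 6595) (nat_lit 351) .nil))))) .nil)) 
(.lf (nat_lit 115009) (.g (nat_lit 2936) (.e (nat_lit 5935) (nat_lit 322) (.e (nat_lit 57371) (nat_lit 2) (.e (nat_lit 90174) (nat_lit 14) (.e (nat_lit 180243) (nat_lit 5) (.e (nat_lit 532515) (nat_lit 3) (.e (nat_lit 114716) (nat_lit 22) (.e (nat_lit 90181) (nat_lit 16) (.e (nat_lit 229376) (nat_lit 0) .nil)))))))) (.g (nat_lit 5) .nil .nil)))) (.nd (nat_lit 6) 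
(.lf (nat_lit 114977) (.g (nat_lit 642) (.e (nat_lit 5934) (nat_lit 322) (.e (nat_lit 57437) (nat_lit 17) (.e (nat_lit 376859) (nat_lit 21) .nil))) .nil)) 
(.lf (nat_lit 115041) (.g (nat_lit 1521) (.e (nat_lit 5935) (nat_lit 322) (.e (nat_lit 57375) (nat_lit 2) (.e (nat_lit 90185) (nat_lit 17) (.e (nat_lit 237601) (nat_lit 9) .nil)))) .nil)))) (.nd (nat_lit 5) (.nd (nat_lit 6) 
(.lf (nat_lit 114961) (.g (nat_lit 1155) (.e (nat_lit 5934) (nat_lit 322) (.e (nat_lit 57407) (nat_lit 12) (.e (nat_lit 336438) (nat_lit 31) .nil))) .nil)) 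
(.lf (nat_lit 115025) (.g (nat_lit 2917) (.e (nat_lit 5935) (nat_lit 322) (.e (nat_lit 57374) (nat_lit 2) (.e (nat_lit 90170) (nat_lit 13) (.e (nat_lit 172067) (nat_lit 3) (.e (nat_lit 204834) (nat_lit 19) .nil))))) .nil))) (.nd (nat_lit 6) 
(.lf (nat_lit 114993) (.g (nat_lit 2125) (.e (nat_lit 5934) (nat_lit 322) (.e (nat_lit 57447) (nat_lit 19) (.e (nat_lit 393234) (nat_lit 17) (.e (nat_lit 7581) (nat_lit 405) (.e (nat_lit 57480) (nat_lit 28) (.e (nat_lit 557105) (nat_lit 14) (.e (nat_lit 180226) (nat_lit 0) .nil))))))) (.g (nat_lit 4) .nil .nil))) 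
(.lf (nat_lit 115057) (.g (nat_lit 1299) (.e (nat_lit 5935) (nat_lit 322) (.e (nat_lit 57379) (nat_lit 3) (.e (nat_lit 98370) (nat_lit 28) (.e (nat_lit 450304) (nat_lit 18) .nil)))) .nil))))) (.nd (nat_lit 4) (.nd (nat_lit 5) (.nd (nat_lit 6) 
(.lf (nat_lit 114953) (.g (nat_lit 4363) (.e (nat_lit 5934) (nat_lit 322) (.e (nat_lit 57390) (nat_lit 5) (.e (nat_lit 114722) (nat_lit 24) (.e (nat_lit 106536) (nat_lit 11) (.e (nat_lit 16473) (nat_lit 14) (.e (nat_lit 491560) (nat_lit 10) (.e (nat_lit 344103) (nat_lit 18) .nil))))))) (.g (nat_lit 6) .nil .nil))) 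
(.lf (nat_lit 115017) (.g (nat_lit 2506) (.e (nat_lit 5935) (nat_lit 322) (.e (nat_lit 57373) (nat_lit 2) (.e (nat_lit 90174) (nat_lit 14) (.e (nat_lit 180243) (nat_lit 5) (.e (nat_lit 532513) (nat_lit 3) .nil))))) .nil))) (.nd (nat_lit 6) 
(.lf (nat_lit 114985) (.g (nat_lit 3247) (.e (nat_lit 5934) (nat_lit 322) (.e (nat_lit 57445) (nat_lit 19) (.e (nat_lit 393233) (nat_lit 17) (.e (nat_lit 7581) (nat_lit 405) (.e (nat_lit 57480) (nat_lit 28) (.e (nat_lit 557105) (nat_lit 14) (.e (nat_lit 180227) (nat_lit 0) .nil))))))) (.g (nat_lit 6) .nil .nil))) 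
(.lf (nat_lit 115049) (.g (nat_lit 1670) (.e (nat_lit 5935) (nat_lit 322) (.e (nat_lit 57379) (nat_lit 3) (.e (nat_lit 98365) (nat_lit 26) (.e (nat_lit 426187) (nat_lit 9) .nil)))) .nil)))) (.nd (nat_lit 5) (.nd (nat_lit 6) 
(.lf (nat_lit 114969) (.g (nat_lit 2239) (.e (nat_lit 5934) (nat_lit 322) (.e (nat_lit 57412) (nat_lit 12) (.e (nat_lit 336193) (nat_lit 12) (.e (nat_lit 385105) (nat_lit 50) (.e (nat_lit 786481) (nat_lit 30) (.e (nat_lit 360456) (nat_lit 0) .nil)))))) (.g (nat_lit 4) .nil .nil))) 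
(.lf (nat_lit 115033) (.g (nat_lit 2661) (.e (nat_lit 5935) (nat_lit 322) (.e (nat_lit 57375) (nat_lit 2) (.e (nat_lit 90172) (nat_lit 14) (.e (nat_lit 180243) (nat_lit 5) (.e (nat_lit 532515) (nat_lit 3) (.e (nat_lit 114716) (nat_lit 22) (.e (nat_lit 90181) (nat_lit 16) (.e (nat_lit 229376) (nat_lit 0) .nil)))))))) (.g (nat_lit 5) .nil .nil)))) (.nd (nat_lit 6) 
(.lf (nat_lit 115001) (.g (nat_lit 2942) (.e (nat_lit 5934) (nat_lit 322) (.e (nat_lit 57450) (nat_lit 20) (.e (nat_lit 401454) (nat_lit 12) (.e (nat_lit 475207) (nat_lit 41) (.e (nat_lit 712755) (nat_lit 30) (.e (nat_lit 450563) (nat_lit 0) .nil)))))) (.g (nat_lit 6) .nil .nil))) 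
(.lf (nat_lit 115065) (.g (nat_lit 3360) (.e (nat_lit 5936) (nat_lit 322) (.e (nat_lit 57372) (nat_lit 2) (.e (nat_lit 90172) (nat_lit 14) (.e (nat_lit 180243) (nat_lit 5) (.e (nat_lit 532513) (nat_lit 3) (.e (nat_lit 114714) (nat_lit 22) (.e (nat_lit 90181) (nat_lit 16) (.e (nat_lit 229376) (nat_lit 0) .nil)))))))) (.g (nat_lit 5) .nil .nil))))))) 
(.nd (nat_lit 3) (.nd (nat_lit 4) (.nd (nat_lit 5) (.nd (nat_lit 6) 
(.lf (nat_lit 114949) (.g (nat_lit 1482) (.e (nat_lit 5934) (nat_lit 322) (.e (nat_lit 57379) (nat_lit 3) (.e (nat_lit 98373) (nat_lit 29) (.e (nat_lit 450602) (nat_lit 22) .nil)))) .nil)) 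
(.lf (nat_lit 115013) (.g (nat_lit 742) (.e (nat_lit 5935) (nat_lit 322) (.e (nat_lit 57372) (nat_lit 2) (.e (nat_lit 90176) (nat_lit 15) .nil))) .nil))) (.nd (nat_lit 6) 
(.lf (nat_lit 114981) (.g (nat_lit 2820) (.e (nat_lit 5934) (nat_lit 322) (.e (nat_lit 57445) (nat_lit 19) (.e (nat_lit 393232) (nat_lit 17) (.e (nat_lit 7581) (nat_lit 405) (.e (nat_lit 57479) (nat_lit 28) (.e (nat_lit 557105) (nat_lit 14) (.e (nat_lit 180227) (nat_lit 0) .nil))))))) (.g (nat_lit 4) .nil .nil))) 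
(.lf (nat_lit 115045) (.g (nat_lit 987) (.e (nat_lit 5935) (nat_lit 322) (.e (nat_lit 57378) (nat_lit 3) (.e (nat_lit 98365) (nat_lit 26) .nil))) .nil)))) (.nd (nat_lit 5) (.nd (nat_lit 6) 
(.lf (nat_lit 114965) (.g (nat_lit 817) (.e (nat_lit 5934) (nat_lit 322) (.e (nat_lit 57411) (nat_lit 12) (.e (nat_lit 336208) (nat_lit 12) .nil))) .nil)) 
(.lf (nat_lit 115029) (.g (nat_lit 2152) (.e (nat_lit 5935) (nat_lit 322) (.e (nat_lit 57374) (nat_lit 2) (.e (nat_lit 90170) (nat_lit 13) (.e (nat_lit 172123) (nat_lit 13) (.e (nat_lit 483337) (nat_lit 9) .nil))))) .nil))) (.nd (nat_lit 6) 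
(.lf (nat_lit 114997) (.g (nat_lit 2011) (.e (nat_lit 5934) (nat_lit 322) (.e (nat_lit 57448) (nat_lit 19) (.e (nat_lit 393234) (nat_lit 17) (.e (nat_lit 7581) (nat_lit 405) (.e (nat_lit 57477) (nat_lit 28) (.e (nat_lit 557103) (nat_lit 14) (.e (nat_lit 180225) (nat_lit 0) .nil))))))) (.g (nat_lit 4) .nil .nil))) 
(.lf (nat_lit 115061) (.g (nat_lit 2362) (.e (nat_lit 5936) (nat_lit 322) (.e (nat_lit 57371) (nat_lit 2) (.e (nat_lit 90174) (nat_lit 14) (.e (nat_lit 180243) (nat_lit 5) (.e (nat_lit 532515) (nat_lit 3) .nil))))) .nil))))) (.nd (nat_lit 4) (.nd (nat_lit 5) (.nd (nat_lit 6) 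
(.lf (nat_lit 114957) (.g (nat_lit 1393) (.e (nat_lit 5934) (nat_lit 322) (.e (nat_lit 57400) (nat_lit 10) (.e (nat_lit 319533) (nat_lit 16) (.e (nat_lit 286742) (nat_lit 9) .nil)))) .nil)) 
(.lf (nat_lit 115021) (.g (nat_lit 3577) (.e (nat_lit 5935) (nat_lit 322) (.e (nat_lit 57374) (nat_lit 2) (.e (nat_lit 90170) (nat_lit 13) (.e (nat_lit 172065) (nat_lit 3) (.e (nat_lit 204834) (nat_lit 19) (.e (nat_lit 106517) (nat_lit 9) (.e (nat_lit 1255) (nat_lit 92) (.e (nat_lit 98321) (nat_lit 17) (.e (nat_lit 2464) (nat_lit 157) .nil))))))))) (.g (nat_lit 7) .nil .nil)))) (.nd (nat_lit 6) 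
(.lf (nat_lit 114989) (.g (nat_lit 3280) (.e (nat_lit 5934) (nat_lit 322) (.e (nat_lit 57445) (nat_lit 19) (.e (nat_lit 393234) (nat_lit 17) (.e (nat_lit 7581) (nat_lit 405) (.e (nat_lit 57480) (nat_lit 28) (.e (nat_lit 557105) (nat_lit 14) (.e (nat_lit 180227) (nat_lit 0) .nil))))))) (.g (nat_lit 5) .nil .nil))) 
(.lf (nat_lit 115053) (.g (nat_lit 2203) (.e (nat_lit 5935) (nat_lit 322) (.e (nat_lit 57379) (nat_lit 3) (.e (nat_lit 98365) (nat_lit 26) (.e (nat_lit 426188) (nat_lit 9) (.e (nat_lit 426566) (nat_lit 34) .nil))))) .nil)))) (.nd (nat_lit 5) (.nd (nat_lit 6) 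
(.lf (nat_lit 114973) (.g (nat_lit 2925) (.e (nat_lit 5934) (nat_lit 322) (.e (nat_lit 57424) (nat_lit 14) (.e (nat_lit 352318) (nat_lit 24) (.e (nat_lit 123197) (nat_lit 266) (.e (nat_lit 57427) (nat_lit 15) (.e (nat_lit 360456) (nat_lit 0) .nil)))))) (.g (nat_lit 5) .nil .nil))) 
(.lf (nat_lit 115037) (.g (nat_lit 1094) (.e (nat_lit 5935) (nat_lit 322) (.e (nat_lit 57375) (nat_lit 2) (.e (nat_lit 90176) (nat_lit 15) (.e (nat_lit 188423) (nat_lit 11) .nil)))) .nil))) (.nd (nat_lit 6) 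
(.lf (nat_lit 115005) (.g (nat_lit 2367) (.e (nat_lit 5935) (nat_lit 322) (.e (nat_lit 57371) (nat_lit 2) (.e (nat_lit 90172) (nat_lit 14) (.e (nat_lit 180244) (nat_lit 5) (.e (nat_lit 532515) (nat_lit 3) (.e (nat_lit 114716) (nat_lit 22) (.e (nat_lit 90181) (nat_lit 16) (.e (nat_lit 229378) (nat_lit 0) .nil)))))))) (.g (nat_lit 4) .nil .nil))) 
(.lf (nat_lit 115069) (.g (nat_lit 3348) (.e (nat_lit 5936) (nat_lit 322) (.e (nat_lit 57372) (nat_lit 2) (.e (nat_lit 90172) (nat_lit 14) (.e (nat_lit 180244) (nat_lit 5) (.e (nat_lit 532513) (nat_lit 3) (.e (nat_lit 114714) (nat_lit 22) (.e (nat_lit 90165) (nat_lit 12) (.e (nat_lit 171776) (nat_lit 0) .nil)))))))) (.g (nat_lit 5) .nil .nil)))))))) 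
(.nd (nat_lit 2) (.nd (nat_lit 3) (.nd (nat_lit 4) (.nd (nat_lit 5) (.nd (nat_lit 6) 
(.lf (nat_lit 114947) (.g (nat_lit 3014) (.e (nat_lit 5934) (nat_lit 322) (.e (nat_lit 57379) (nat_lit 3) (.e (nat_lit 98373) (nat_lit 29) (.e (nat_lit 450563) (nat_lit 0) (.e (nat_lit 6595) (nat_lit 351) .nil))))) .nil)) 
(.lf (nat_lit 115011) (.g (nat_lit 2564) (.e (nat_lit 5935) (nat_lit 322) (.e (nat_lit 57372) (nat_lit 2) (.e (nat_lit 90172) (nat_lit 14) (.e (nat_lit 180244) (nat_lit 5) (.e (nat_lit 532515) (nat_lit 3) (.e (nat_lit 114716) (nat_lit 22) (.e (nat_lit 90181) (nat_lit 16) (.e (nat_lit 229376) (nat_lit 0) .nil)))))))) (.g (nat_lit 5) .nil .nil)))) (.nd (nat_lit 6) 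
(.lf (nat_lit 114979) (.g (nat_lit 2501) (.e (nat_lit 5934) (nat_lit 322) (.e (nat_lit 57445) (nat_lit 19) (.e (nat_lit 393231) (nat_lit 17) (.e (nat_lit 7581) (nat_lit 405) (.e (nat_lit 57480) (nat_lit 28) (.e (nat_lit 557105) (nat_lit 14) (.e (nat_lit 180227) (nat_lit 0) .nil))))))) (.g (nat_lit 5) .nil .nil))) 
(.lf (nat_lit 115043) (.g (nat_lit 1491) (.e (nat_lit 5935) (nat_lit 322) (.e (nat_lit 57375) (nat_lit 2) (.e (nat_lit 90185) (nat_lit 17) (.e (nat_lit 237605) (nat_lit 9) .nil)))) .nil)))) (.nd (nat_lit 5) (.nd (nat_lit 6) 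
(.lf (nat_lit 114963) (.g (nat_lit 1549) (.e (nat_lit 5934) (nat_lit 322) (.e (nat_lit 57407) (nat_lit 12) (.e (nat_lit 336443) (nat_lit 32) (.e (nat_lit 466979) (nat_lit 23) .nil)))) .nil)) 
(.lf (nat_lit 115027) (.g (nat_lit 2451) (.e (nat_lit 5935) (nat_lit 322) (.e (nat_lit 57374) (nat_lit 2) (.e (nat_lit 90170) (nat_lit 13) (.e (nat_lit 172095) (nat_lit 9) .nil)))) .nil))) (.nd (nat_lit 6) 
(.lf (nat_lit 114995) (.g (nat_lit 2591) (.e (nat_lit 5934) (nat_lit 322) (.e (nat_lit 57447) (nat_lit 19) (.e (nat_lit 393301) (nat_lit 27) (.e (nat_lit 491526) (nat_lit 0) (.e (nat_lit 1848) (nat_lit 124) .nil))))) .nil)) 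
(.lf (nat_lit 115059) (.g (nat_lit 2195) (.e (nat_lit 5936) (nat_lit 322) (.e (nat_lit 57371) (nat_lit 2) (.e (nat_lit 90172) (nat_lit 14) (.e (nat_lit 180244) (nat_lit 5) (.e (nat_lit 532515) (nat_lit 3) .nil))))) .nil))))) (.nd (nat_lit 4) (.nd (nat_lit 5) (.nd (nat_lit 6) 
(.lf (nat_lit 114955) (.g (nat_lit 3960) (.e (nat_lit 5934) (nat_lit 322) (.e (nat_lit 57390) (nat_lit 5) (.e (nat_lit 114723) (nat_lit 24) (.e (nat_lit 106535) (nat_lit 11) (.e (nat_lit 16473) (nat_lit 14) (.e (nat_lit 491560) (nat_lit 10) (.e (nat_lit 344103) (nat_lit 18) .nil))))))) (.g (nat_lit 7) .nil .nil))) 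
(.lf (nat_lit 115019) (.g (nat_lit 2375) (.e (nat_lit 5935) (nat_lit 322) (.e (nat_lit 57373) (nat_lit 2) (.e (nat_lit 90174) (nat_lit 14) (.e (nat_lit 180243) (nat_lit 5) (.e (nat_lit 532515) (nat_lit 3) (.e (nat_lit 114716) (nat_lit 22) (.e (nat_lit 90181) (nat_lit 16) (.e (nat_lit 229376) (nat_lit 0) .nil)))))))) (.g (nat_lit 4) .nil .nil)))) (.nd (nat_lit 6) 
(.lf (nat_lit 114987) (.g (nat_lit 2817) (.e (nat_lit 5934) (nat_lit 322) (.e (nat_lit 57445) (nat_lit 19) (.e (nat_lit 393234) (nat_lit 17) (.e (nat_lit 7581) (nat_lit 405) (.e (nat_lit 57479) (nat_lit 28) (.e (nat_lit 557105) (nat_lit 14) (.e (nat_lit 180227) (nat_lit 0) .nil))))))) (.g (nat_lit 4) .nil .nil))) 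
(.lf (nat_lit 115051) (.g (nat_lit 2021) (.e (nat_lit 5935) (nat_lit 322) (.e (nat_lit 57379) (nat_lit 3) (.e (nat_lit 98365) (nat_lit 26) (.e (nat_lit 426187) (nat_lit 9) (.e (nat_lit 426566) (nat_lit 34) (.e (nat_lit 393235) (nat_lit 17) (.e (nat_lit 2464) (nat_lit 157) .nil))))))) (.g (nat_lit 4) .nil .nil))))) (.nd (nat_lit 5) (.nd (nat_lit 6) 
(.lf (nat_lit 114971) (.g (nat_lit 2266) (.e (nat_lit 5934) (nat_lit 322) (.e (nat_lit 57412) (nat_lit 12) (.e (nat_lit 336193) (nat_lit 12) (.e (nat_lit 385106) (nat_lit 50) (.e (nat_lit 786483) (nat_lit 30) (.e (nat_lit 360457) (nat_lit 0) .nil)))))) (.g (nat_lit 4) .nil .nil))) 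
(.lf (nat_lit 115035) (.g (nat_lit 3716) (.e (nat_lit 5935) (nat_lit 322) (.e (nat_lit 57375) (nat_lit 2) (.e (nat_lit 90172) (nat_lit 14) (.e (nat_lit 180244) (nat_lit 5) (.e (nat_lit 532515) (nat_lit 3) (.e (nat_lit 114716) (nat_lit 22) (.e (nat_lit 90181) (nat_lit 16) (.e (nat_lit 229376) (nat_lit 0) .nil)))))))) (.g (nat_lit 8) .nil .nil)))) (.nd (nat_lit 6) 
(.lf (nat_lit 115003) (.g (nat_lit 2155) (.e (nat_lit 5935) (nat_lit 322) (.e (nat_lit 57371) (nat_lit 2) (.e (nat_lit 90172) (nat_lit 14) (.e (nat_lit 180244) (nat_lit 5) (.e (nat_lit 532513) (nat_lit 3) (.e (nat_lit 114714) (nat_lit 22) (.e (nat_lit 90181) (nat_lit 16) (.e (nat_lit 229376) (nat_lit 0) .nil)))))))) (.g (nat_lit 4) .nil .nil))) 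
(.lf (nat_lit 115067) (.g (nat_lit 2721) (.e (nat_lit 5936) (nat_lit 322) (.e (nat_lit 57372) (nat_lit 2) (.e (nat_lit 90172) (nat_lit 14) (.e (nat_lit 180244) (nat_lit 5) (.e (nat_lit 532508) (nat_lit 2) .nil))))) .nil)))))) (.nd (nat_lit 3) (.nd (nat_lit 4) (.nd (nat_lit 5) (.nd (nat_lit 6) 
(.lf (nat_lit 114951) (.g (nat_lit 4423) (.e (nat_lit 5934) (nat_lit 322) (.e (nat_lit 57389) (nat_lit 5) (.e (nat_lit 114723) (nat_lit 24) (.e (nat_lit 106536) (nat_lit 11) (.e (nat_lit 16473) (nat_lit 14) (.e (nat_lit 491560) (nat_lit 10) (.e (nat_lit 344103) (nat_lit 18) .nil))))))) (.g (nat_lit 6) .nil .nil))) 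
(.lf (nat_lit 115015) (.g (nat_lit 2322) (.e (nat_lit 5935) (nat_lit 322) (.e (nat_lit 57373) (nat_lit 2) (.e (nat_lit 90172) (nat_lit 14) (.e (nat_lit 180244) (nat_lit 5) (.e (nat_lit 532515) (nat_lit 3) .nil))))) .nil))) (.nd (nat_lit 6) 
(.lf (nat_lit 114983) (.g (nat_lit 1821) (.e (nat_lit 5934) (nat_lit 322) (.e (nat_lit 57445) (nat_lit 19) (.e (nat_lit 393233) (nat_lit 17) (.e (nat_lit 7581) (nat_lit 405) (.e (nat_lit 57477) (nat_lit 28) (.e (nat_lit 557104) (nat_lit 14) (.e (nat_lit 180227) (nat_lit 0) .nil))))))) (.g (nat_lit 4) .nil .nil))) 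
(.lf (nat_lit 115047) (.g (nat_lit 2100) (.e (nat_lit 5935) (nat_lit 322) (.e (nat_lit 57378) (nat_lit 3) (.e (nat_lit 98365) (nat_lit 26) (.e (nat_lit 426188) (nat_lit 9) .nil)))) .nil)))) (.nd (nat_lit 5) (.nd (nat_lit 6) 
(.lf (nat_lit 114967) (.g (nat_lit 1303) (.e (nat_lit 5934) (nat_lit 322) (.e (nat_lit 57412) (nat_lit 12) (.e (nat_lit 336058) (nat_lit 7) (.e (nat_lit 319539) (nat_lit 19) (.e (nat_lit 319232) (nat_lit 30) .nil))))) .nil)) 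
(.lf (nat_lit 115031) (.g (nat_lit 2359) (.e (nat_lit 5935) (nat_lit 322) (.e (nat_lit 57374) (nat_lit 2) (.e (nat_lit 90170) (nat_lit 13) (.e (nat_lit 172123) (nat_lit 13) (.e (nat_lit 491264) (nat_lit 10) .nil))))) .nil))) (.nd (nat_lit 6) 
(.lf (nat_lit 114999) (.g (nat_lit 2608) (.e (nat_lit 5934) (nat_lit 322) (.e (nat_lit 57449) (nat_lit 20) (.e (nat_lit 401454) (nat_lit 12) (.e (nat_lit 475207) (nat_lit 41) (.e (nat_lit 712755) (nat_lit 30) (.e (nat_lit 450563) (nat_lit 0) .nil)))))) (.g (nat_lit 6) .nil .nil))) 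
(.lf (nat_lit 115063) (.g (nat_lit 1996) (.e (nat_lit 5936) (nat_lit 322) (.e (nat_lit 57372) (nat_lit 2) (.e (nat_lit 90172) (nat_lit 14) (.e (nat_lit 180243) (nat_lit 5) .nil)))) .nil))))) (.nd (nat_lit 4) (.nd (nat_lit 5) (.nd (nat_lit 6) 
(.lf (nat_lit 114959) (.g (nat_lit 1332) (.e (nat_lit 5934) (nat_lit 322) (.e (nat_lit 57400) (nat_lit 10) (.e (nat_lit 319533) (nat_lit 16) (.e (nat_lit 286761) (nat_lit 13) .nil)))) .nil)) 
(.lf (nat_lit 115023) (.g (nat_lit 2882) (.e (nat_lit 5935) (nat_lit 322) (.e (nat_lit 57374) (nat_lit 2) (.e (nat_lit 90170) (nat_lit 13) (.e (nat_lit 172065) (nat_lit 3) (.e (nat_lit 204838) (nat_lit 20) (.e (nat_lit 114716) (nat_lit 22) (.e (nat_lit 90181) (nat_lit 16) (.e (nat_lit 229378) (nat_lit 0) .nil)))))))) (.g (nat_lit 4) .nil .nil)))) (.nd (nat_lit 6) 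
(.lf (nat_lit 114991) (.g (nat_lit 2321) (.e (nat_lit 5934) (nat_lit 322) (.e (nat_lit 57447) (nat_lit 19) (.e (nat_lit 393234) (nat_lit 17) (.e (nat_lit 7581) (nat_lit 405) (.e (nat_lit 57476) (nat_lit 28) (.e (nat_lit 557104) (nat_lit 14) (.e (nat_lit 180227) (nat_lit 0) .nil))))))) (.g (nat_lit 4) .nil .nil))) 
(.lf (nat_lit 115055) (.g (nat_lit 1511) (.e (nat_lit 5935) (nat_lit 322) (.e (nat_lit 57379) (nat_lit 3) (.e (nat_lit 98365) (nat_lit 26) (.e (nat_lit 426325) (nat_lit 13) .nil)))) .nil)))) (.nd (nat_lit 5) (.nd (nat_lit 6) 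
(.lf (nat_lit 114975) (.g (nat_lit 2291) (.e (nat_lit 5934) (nat_lit 322) (.e (nat_lit 57424) (nat_lit 14) (.e (nat_lit 352318) (nat_lit 24) (.e (nat_lit 123198) (nat_lit 266) (.e (nat_lit 57427) (nat_lit 15) (.e (nat_lit 360455) (nat_lit 0) .nil)))))) (.g (nat_lit 4) .nil .nil))) 
(.lf (nat_lit 115039) (.g (nat_lit 1412) (.e (nat_lit 5935) (nat_lit 322) (.e (nat_lit 57375) (nat_lit 2) (.e (nat_lit 90178) (nat_lit 15) (.e (nat_lit 196352) (nat_lit 18) .nil)))) .nil))) (.nd (nat_lit 6) 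
(.lf (nat_lit 115007) (.g (nat_lit 2985) (.e (nat_lit 5935) (nat_lit 322) (.e (nat_lit 57371) (nat_lit 2) (.e (nat_lit 90174) (nat_lit 14) (.e (nat_lit 180243) (nat_lit 5) (.e (nat_lit 532513) (nat_lit 3) (.e (nat_lit 114714) (nat_lit 22) (.e (nat_lit 90181) (nat_lit 16) (.e (nat_lit 229376) (nat_lit 0) .nil)))))))) (.g (nat_lit 5) .nil .nil))) 
(.lf (nat_lit 115071) (.g (nat_lit 2554) (.e (nat_lit 5936) (nat_lit 322) (.e (nat_lit 57372) (nat_lit 2) (.e (nat_lit 90172) (nat_lit 14) (.e (nat_lit 180244) (nat_lit 5) (.e (nat_lit 532515) (nat_lit 3) (.e (nat_lit 114719) (nat_lit 23) (.e (nat_lit 98321) (nat_lit 17) (.e (nat_lit 2464) (nat_lit 157) .nil)))))))) (.g (nat_lit 4) .nil .nil))))))))))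

noncomputable def tv1551 : DT := (.nd (nat_lit 0) (.nd (nat_lit 1) (.nd (nat_lit 2) (.nd (nat_lit 3) (.nd (nat_lit 4) (.nd (nat_lit 5) (.nd (nat_lit 6) 
(.lf (nat_lit 115072) (.g (nat_lit 1148) (.e (nat_lit 5936) (nat_lit 322) (.e (nat_lit 57372) (nat_lit 2) (.e (nat_lit 90174) (nat_lit 14) .nil))) .nil)) 
(.lf (nat_lit 115136) (.g (nat_lit 2633) (.e (nat_lit 5937) (nat_lit 322) (.e (nat_lit 57347) (nat_lit 0) (.e (nat_lit 2031) (nat_lit 140) (.e (nat_lit 688177) (nat_lit 16) (.e (nat_lit 65583) (nat_lit 7) (.e (nat_lit 319530) (nat_lit 16) (.e (nat_lit 286748) (nat_lit 9) (.e (nat_lit 335891) (nat_lit 0) (.e (nat_lit 1105) (nat_lit 81) .nil))))))))) (.g (nat_lit 5) .nil .nil)))) (.nd (nat_lit 6) 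
(.lf (nat_lit 115104) (.g (nat_lit 2591) (.e (nat_lit 5936) (nat_lit 322) (.e (nat_lit 57400) (nat_lit 10) (.e (nat_lit 319533) (nat_lit 16) (.e (nat_lit 286761) (nat_lit 13) (.e (nat_lit 393288) (nat_lit 25) .nil))))) .nil)) 
(.lf (nat_lit 115168) (.g (nat_lit 958) (.e (nat_lit 5937) (nat_lit 322) (.e (nat_lit 57372) (nat_lit 2) (.e (nat_lit 90176) (nat_lit 15) .nil))) .nil)))) (.nd (nat_lit 5) (.nd (nat_lit 6) 
(.lf (nat_lit 115088) (.g (nat_lit 2421) (.e (nat_lit 5936) (nat_lit 322) (.e (nat_lit 57374) (nat_lit 2) (.e (nat_lit 90170) (nat_lit 13) (.e (nat_lit 172065) (nat_lit 3) .nil)))) .nil)) 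
(.lf (nat_lit 115152) (.g (nat_lit 1527) (.e (nat_lit 5937) (nat_lit 322) (.e (nat_lit 57371) (nat_lit 2) (.e (nat_lit 90176) (nat_lit 15) (.e (nat_lit 188459) (nat_lit 26) .nil)))) .nil))) (.nd (nat_lit 6) 
(.lf (nat_lit 115120) (.g (nat_lit 648) (.e (nat_lit 5936) (nat_lit 322) (.e (nat_lit 57437) (nat_lit 17) (.e (nat_lit 376859) (nat_lit 21) .nil))) .nil)) 
(.lf (nat_lit 115184) (.g (nat_lit 4191) (.e (nat_lit 5937) (nat_lit 322) (.e (nat_lit 57373) (nat_lit 2) (.e (nat_lit 90172) (nat_lit 14) (.e (nat_lit 180244) (nat_lit 5) (.e (nat_lit 532515) (nat_lit 3) (.e (nat_lit 114716) (nat_lit 22) (.e (nat_lit 90181) (nat_lit 16) (.e (nat_lit 229376) (nat_lit 0) .nil)))))))) (.g (nat_lit 7) .nil .nil)))))) 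
(.nd (nat_lit 4) (.nd (nat_lit 5) (.nd (nat_lit 6) 
(.lf (nat_lit 115080) (.g (nat_lit 2550) (.e (nat_lit 5936) (nat_lit 322) (.e (nat_lit 57373) (nat_lit 2) (.e (nat_lit 90172) (nat_lit 14) (.e (nat_lit 180244) (nat_lit 5) (.e (nat_lit 532513) (nat_lit 3) (.e (nat_lit 114714) (nat_lit 22) (.e (nat_lit 90165) (nat_lit 12) (.e (nat_lit 171776) (nat_lit 0) .nil)))))))) (.g (nat_lit 4) .nil .nil))) 
(.lf (nat_lit 115144) (.g (nat_lit 1823) (.e (nat_lit 5937) (nat_lit 322) (.e (nat_lit 57370) (nat_lit 2) (.e (nat_lit 90172) (nat_lit 14) (.e (nat_lit 180244) (nat_lit 5) (.e (nat_lit 532515) (nat_lit 3) (.e (nat_lit 114716) (nat_lit 22) (.e (nat_lit 90181) (nat_lit 16) (.e (nat_lit 229376) (nat_lit 0) .nil)))))))) (.g (nat_lit 4) .nil .nil)))) (.nd (nat_lit 6) 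
(.lf (nat_lit 115112) (.g (nat_lit 1832) (.e (nat_lit 5936) (nat_lit 322) (.e (nat_lit 57411) (nat_lit 12) (.e (nat_lit 336208) (nat_lit 12) (.e (nat_lit 385104) (nat_lit 50) (.e (nat_lit 786483) (nat_lit 30) .nil))))) .nil)) 
(.lf (nat_lit 115176) (.g (nat_lit 3053) (.e (nat_lit 5937) (nat_lit 322) (.e (nat_lit 57373) (nat_lit 2) (.e (nat_lit 90172) (nat_lit 14) (.e (nat_lit 180243) (nat_lit 5) (.e (nat_lit 532513) (nat_lit 3) (.e (nat_lit 114714) (nat_lit 22) (.e (nat_lit 90165) (nat_lit 12) (.e (nat_lit 171776) (nat_lit 0) .nil)))))))) (.g (nat_lit 4) .nil .nil))))) (.nd (nat_lit 5) (.nd (nat_lit 6) 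
(.lf (nat_lit 115096) (.g (nat_lit 1874) (.e (nat_lit 5936) (nat_lit 322) (.e (nat_lit 57378) (nat_lit 3) (.e (nat_lit 98365) (nat_lit 26) (.e (nat_lit 426188) (nat_lit 9) .nil)))) .nil)) 
(.lf (nat_lit 115160) (.g (nat_lit 2770) (.e (nat_lit 5937) (nat_lit 322) (.e (nat_lit 57372) (nat_lit 2) (.e (nat_lit 90172) (nat_lit 14) (.e (nat_lit 180244) (nat_lit 5) (.e (nat_lit 532508) (nat_lit 2) .nil))))) .nil))) (.nd (nat_lit 6) 
(.lf (nat_lit 115128) (.g (nat_lit 2591) (.e (nat_lit 5936) (nat_lit 322) (.e (nat_lit 57447) (nat_lit 19) (.e (nat_lit 393301) (nat_lit 27) (.e (nat_lit 491526) (nat_lit 0) (.e (nat_lit 1848) (nat_lit 124) .nil))))) .nil)) 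
(.lf (nat_lit 115192) (.g (nat_lit 2031) (.e (nat_lit 5937) (nat_lit 322) (.e (nat_lit 57373) (nat_lit 2) (.e (nat_lit 90176) (nat_lit 15) (.e (nat_lit 188461) (nat_lit 26) .nil)))) .nil)))))) (.nd (nat_lit 3) (.nd (nat_lit 4) (.nd (nat_lit 5) (.nd (nat_lit 6) 
(.lf (nat_lit 115076) (.g (nat_lit 2350) (.e (nat_lit 5936) (nat_lit 322) (.e (nat_lit 57372) (nat_lit 2) (.e (nat_lit 90176) (nat_lit 15) (.e (nat_lit 188459) (nat_lit 26) (.e (nat_lit 261888) (nat_lit 5) .nil))))) .nil)) 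
(.lf (nat_lit 115140) (.g (nat_lit 3476) (.e (nat_lit 5937) (nat_lit 322) (.e (nat_lit 57348) (nat_lit 0) (.e (nat_lit 2031) (nat_lit 140) (.e (nat_lit 688177) (nat_lit 16) (.e (nat_lit 65586) (nat_lit 7) (.e (nat_lit 319531) (nat_lit 16) (.e (nat_lit 286755) (nat_lit 10) (.e (nat_lit 352000) (nat_lit 18) .nil)))))))) (.g (nat_lit 6) .nil .nil)))) (.nd (nat_lit 6) 
(.lf (nat_lit 115108) (.g (nat_lit 1963) (.e (nat_lit 5936) (nat_lit 322) (.e (nat_lit 57409) (nat_lit 12) (.e (nat_lit 336443) (nat_lit 32) (.e (nat_lit 466974) (nat_lit 22) .nil)))) .nil)) 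
(.lf (nat_lit 115172) (.g (nat_lit 2165) (.e (nat_lit 5937) (nat_lit 322) (.e (nat_lit 57373) (nat_lit 2) (.e (nat_lit 90170) (nat_lit 13) (.e (nat_lit 172065) (nat_lit 3) .nil)))) .nil)))) (.nd (nat_lit 5) (.nd (nat_lit 6) 
(.lf (nat_lit 115092) (.g (nat_lit 753) (.e (nat_lit 5936) (nat_lit 322) (.e (nat_lit 57375) (nat_lit 2) (.e (nat_lit 90176) (nat_lit 15) .nil))) .nil)) 
(.lf (nat_lit 115156) (.g (nat_lit 3589) (.e (nat_lit 5937) (nat_lit 322) (.e (nat_lit 57372) (nat_lit 2) (.e (nat_lit 90172) (nat_lit 14) (.e (nat_lit 180243) (nat_lit 5) (.e (nat_lit 532513) (nat_lit 3) (.e (nat_lit 114714) (nat_lit 22) (.e (nat_lit 90181) (nat_lit 16) (.e (nat_lit 229376) (nat_lit 0) .nil)))))))) (.g (nat_lit 5) .nil .nil)))) (.nd (nat_lit 6) 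
(.lf (nat_lit 115124) (.g (nat_lit 2111) (.e (nat_lit 5936) (nat_lit 322) (.e (nat_lit 57447) (nat_lit 19) (.e (nat_lit 393234) (nat_lit 17) (.e (nat_lit 7581) (nat_lit 405) (.e (nat_lit 57477) (nat_lit 28) .nil))))) .nil)) 
(.lf (nat_lit 115188) (.g (nat_lit 3928) (.e (nat_lit 5937) (nat_lit 322) (.e (nat_lit 57373) (nat_lit 2) (.e (nat_lit 90174) (nat_lit 14) (.e (nat_lit 180243) (nat_lit 5) (.e (nat_lit 532513) (nat_lit 3) (.e (nat_lit 114714) (nat_lit 22) (.e (nat_lit 90181) (nat_lit 16) (.e (nat_lit 229376) (nat_lit 0) .nil)))))))) (.g (nat_lit 6) .nil .nil)))))) 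
(.nd (nat_lit 4) (.nd (nat_lit 5) (.nd (nat_lit 6) 
(.lf (nat_lit 115084) (.g (nat_lit 2451) (.e (nat_lit 5936) (nat_lit 322) (.e (nat_lit 57373) (nat_lit 2) (.e (nat_lit 90174) (nat_lit 14) (.e (nat_lit 180243) (nat_lit 5) (.e (nat_lit 532508) (nat_lit 2) .nil))))) .nil)) 
(.lf (nat_lit 115148) (.g (nat_lit 2532) (.e (nat_lit 5937) (nat_lit 322) (.e (nat_lit 57371) (nat_lit 2) (.e (nat_lit 90172) (nat_lit 14) (.e (nat_lit 180244) (nat_lit 5) (.e (nat_lit 532515) (nat_lit 3) (.e (nat_lit 114716) (nat_lit 22) (.e (nat_lit 90181) (nat_lit 16) (.e (nat_lit 229376) (nat_lit 0) .nil)))))))) (.g (nat_lit 4) .nil .nil)))) (.nd (nat_lit 6) 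
(.lf (nat_lit 115116) (.g (nat_lit 820) (.e (nat_lit 5936) (nat_lit 322) (.e (nat_lit 57424) (nat_lit 14) (.e (nat_lit 352270) (nat_lit 8) .nil))) .nil)) 
(.lf (nat_lit 115180) (.g (nat_lit 2477) (.e (nat_lit 5937) (nat_lit 322) (.e (nat_lit 57373) (nat_lit 2) (.e (nat_lit 90172) (nat_lit 14) (.e (nat_lit 180244) (nat_lit 5) (.e (nat_lit 532513) (nat_lit 3) .nil))))) .nil)))) (.nd (nat_lit 5) (.nd (nat_lit 6) 
(.lf (nat_lit 115100) (.g (nat_lit 2033) (.e (nat_lit 5936) (nat_lit 322) (.e (nat_lit 57378) (nat_lit 3) (.e (nat_lit 98377) (nat_lit 30) (.e (nat_lit 458789) (nat_lit 23) (.e (nat_lit 532515) (nat_lit 3) .nil))))) .nil)) 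
(.lf (nat_lit 115164) (.g (nat_lit 2601) (.e (nat_lit 5937) (nat_lit 322) (.e (nat_lit 57372) (nat_lit 2) (.e (nat_lit 90172) (nat_lit 14) (.e (nat_lit 180244) (nat_lit 5) (.e (nat_lit 532515) (nat_lit 3) .nil))))) .nil))) (.nd (nat_lit 6) 
(.lf (nat_lit 115132) (.g (nat_lit 2228) (.e (nat_lit 5936) (nat_lit 322) (.e (nat_lit 57448) (nat_lit 19) (.e (nat_lit 393234) (nat_lit 17) (.e (nat_lit 7581) (nat_lit 405) (.e (nat_lit 57477) (nat_lit 28) (.e (nat_lit 557104) (nat_lit 14) (.e (nat_lit 180224) (nat_lit 0) .nil))))))) (.g (nat_lit 4) .nil .nil))) 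
(.lf (nat_lit 115196) (.g (nat_lit 2632) (.e (nat_lit 5937) (nat_lit 322) (.e (nat_lit 57373) (nat_lit 2) (.e (nat_lit 90178) (nat_lit 15) (.e (nat_lit 188459) (nat_lit 26) (.e (nat_lit 261888) (nat_lit 5) .nil))))) .nil))))))) (.nd (nat_lit 2) (.nd (nat_lit 3) (.nd (nat_lit 4) (.nd (nat_lit 5) (.nd (nat_lit 6) 
(.lf (nat_lit 115074) (.g (nat_lit 1729) (.e (nat_lit 5936) (nat_lit 322) (.e (nat_lit 57372) (nat_lit 2) (.e (nat_lit 90176) (nat_lit 15) (.e (nat_lit 188423) (nat_lit 11) .nil)))) .nil)) 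
(.lf (nat_lit 115138) (.g (nat_lit 3473) (.e (nat_lit 5937) (nat_lit 322) (.e (nat_lit 57348) (nat_lit 0) (.e (nat_lit 2031) (nat_lit 140) (.e (nat_lit 688177) (nat_lit 16) (.e (nat_lit 65586) (nat_lit 7) (.e (nat_lit 319531) (nat_lit 16) (.e (nat_lit 286748) (nat_lit 9) (.e (nat_lit 335891) (nat_lit 0) (.e (nat_lit 1105) (nat_lit 81) .nil))))))))) (.g (nat_lit 7) .nil .nil)))) (.nd (nat_lit 6) 
(.lf (nat_lit 115106) (.g (nat_lit 1480) (.e (nat_lit 5936) (nat_lit 322) (.e (nat_lit 57409) (nat_lit 12) (.e (nat_lit 336208) (nat_lit 12) (.e (nat_lit 385105) (nat_lit 50) .nil)))) .nil)) 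
(.lf (nat_lit 115170) (.g (nat_lit 1972) (.e (nat_lit 5937) (nat_lit 322) (.e (nat_lit 57372) (nat_lit 2) (.e (nat_lit 90176) (nat_lit 15) (.e (nat_lit 196352) (nat_lit 18) .nil)))) .nil)))) (.nd (nat_lit 5) (.nd (nat_lit 6) 
(.lf (nat_lit 115090) (.g (nat_lit 2326) (.e (nat_lit 5936) (nat_lit 322) (.e (nat_lit 57375) (nat_lit 2) (.e (nat_lit 90172) (nat_lit 14) (.e (nat_lit 180244) (nat_lit 5) (.e (nat_lit 532513) (nat_lit 3) .nil))))) .nil)) 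
(.lf (nat_lit 115154) (.g (nat_lit 2032) (.e (nat_lit 5937) (nat_lit 322) (.e (nat_lit 57372) (nat_lit 2) (.e (nat_lit 90172) (nat_lit 14) (.e (nat_lit 180243) (nat_lit 5) .nil)))) .nil))) (.nd (nat_lit 6) 
(.lf (nat_lit 115122) (.g (nat_lit 2140) (.e (nat_lit 5936) (nat_lit 322) (.e (nat_lit 57447) (nat_lit 19) (.e (nat_lit 393234) (nat_lit 17) (.e (nat_lit 7581) (nat_lit 405) (.e (nat_lit 57476) (nat_lit 28) .nil))))) .nil)) 
(.lf (nat_lit 115186) (.g (nat_lit 1603) (.e (nat_lit 5937) (nat_lit 322) (.e (nat_lit 57373) (nat_lit 2) (.e (nat_lit 90174) (nat_lit 14) (.e (nat_lit 180243) (nat_lit 5) .nil)))) .nil))))) (.nd (nat_lit 4) (.nd (nat_lit 5) (.nd (nat_lit 6) 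
(.lf (nat_lit 115082) (.g (nat_lit 3388) (.e (nat_lit 5936) (nat_lit 322) (.e (nat_lit 57373) (nat_lit 2) (.e (nat_lit 90172) (nat_lit 14) (.e (nat_lit 180244) (nat_lit 5) (.e (nat_lit 532515) (nat_lit 3) (.e (nat_lit 114716) (nat_lit 22) (.e (nat_lit 90181) (nat_lit 16) (.e (nat_lit 229376) (nat_lit 0) .nil)))))))) (.g (nat_lit 6) .nil .nil))) 
(.lf (nat_lit 115146) (.g (nat_lit 2195) (.e (nat_lit 5937) (nat_lit 322) (.e (nat_lit 57371) (nat_lit 2) (.e (nat_lit 90172) (nat_lit 14) (.e (nat_lit 180244) (nat_lit 5) (.e (nat_lit 532513) (nat_lit 3) .nil))))) .nil))) (.nd (nat_lit 6) 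
(.lf (nat_lit 115114) (.g (nat_lit 1865) (.e (nat_lit 5936) (nat_lit 322) (.e (nat_lit 57411) (nat_lit 12) (.e (nat_lit 336208) (nat_lit 12) (.e (nat_lit 385106) (nat_lit 50) (.e (nat_lit 786483) (nat_lit 30) .nil))))) .nil)) 
(.lf (nat_lit 115178) (.g (nat_lit 2824) (.e (nat_lit 5937) (nat_lit 322) (.e (nat_lit 57373) (nat_lit 2) (.e (nat_lit 90172) (nat_lit 14) (.e (nat_lit 180243) (nat_lit 5) (.e (nat_lit 532515) (nat_lit 3) (.e (nat_lit 114716) (nat_lit 22) (.e (nat_lit 90181) (nat_lit 16) (.e (nat_lit 229376) (nat_lit 0) .nil)))))))) (.g (nat_lit 4) .nil .nil))))) (.nd (nat_lit 5) (.nd (nat_lit 6) 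
(.lf (nat_lit 115098) (.g (nat_lit 1925) (.e (nat_lit 5936) (nat_lit 322) (.e (nat_lit 57378) (nat_lit 3) (.e (nat_lit 98365) (nat_lit 26) (.e (nat_lit 426325) (nat_lit 13) .nil)))) .nil)) 
(.lf (nat_lit 115162) (.g (nat_lit 2576) (.e (nat_lit 5937) (nat_lit 322) (.e (nat_lit 57372) (nat_lit 2) (.e (nat_lit 90172) (nat_lit 14) (.e (nat_lit 180244) (nat_lit 5) (.e (nat_lit 532513) (nat_lit 3) (.e (nat_lit 114714) (nat_lit 22) (.e (nat_lit 90162) (nat_lit 12) (.e (nat_lit 171776) (nat_lit 0) .nil)))))))) (.g (nat_lit 4) .nil .nil)))) (.nd (nat_lit 6) 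
(.lf (nat_lit 115130) (.g (nat_lit 2207) (.e (nat_lit 5936) (nat_lit 322) (.e (nat_lit 57448) (nat_lit 19) (.e (nat_lit 393234) (nat_lit 17) (.e (nat_lit 7581) (nat_lit 405) (.e (nat_lit 57476) (nat_lit 28) .nil))))) .nil)) 
(.lf (nat_lit 115194) (.g (nat_lit 1764) (.e (nat_lit 5937) (nat_lit 322) (.e (nat_lit 57373) (nat_lit 2) (.e (nat_lit 90178) (nat_lit 15) (.e (nat_lit 188421) (nat_lit 11) .nil)))) .nil)))))) (.nd (nat_lit 3) (.nd (nat_lit 4) (.nd (nat_lit 5) (.nd (nat_lit 6) 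
(.lf (nat_lit 115078) (.g (nat_lit 2297) (.e (nat_lit 5936) (nat_lit 322) (.e (nat_lit 57373) (nat_lit 2) (.e (nat_lit 90172) (nat_lit 14) (.e (nat_lit 180243) (nat_lit 5) .nil)))) .nil)) 
(.lf (nat_lit 115142) (.g (nat_lit 261) (.e (nat_lit 5937) (nat_lit 322) (.e (nat_lit 57370) (nat_lit 2) (.e (nat_lit 98048) (nat_lit 6) .nil))) .nil))) (.nd (nat_lit 6) 
(.lf (nat_lit 115110) (.g (nat_lit 2781) (.e (nat_lit 5936) (nat_lit 322) (.e (nat_lit 57409) (nat_lit 12) (.e (nat_lit 336443) (nat_lit 32) (.e (nat_lit 466977) (nat_lit 22) (.e (nat_lit 196656) (nat_lit 11) .nil))))) .nil)) 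
(.lf (nat_lit 115174) (.g (nat_lit 902) (.e (nat_lit 5937) (nat_lit 322) (.e (nat_lit 57373) (nat_lit 2) (.e (nat_lit 90172) (nat_lit 14) .nil))) .nil)))) (.nd (nat_lit 5) (.nd (nat_lit 6) 
(.lf (nat_lit 115094) (.g (nat_lit 1712) (.e (nat_lit 5936) (nat_lit 322) (.e (nat_lit 57375) (nat_lit 2) (.e (nat_lit 90176) (nat_lit 15) (.e (nat_lit 188459) (nat_lit 26) .nil)))) .nil)) 
(.lf (nat_lit 115158) (.g (nat_lit 3411) (.e (nat_lit 5937) (nat_lit 322) (.e (nat_lit 57372) (nat_lit 2) (.e (nat_lit 90172) (nat_lit 14) (.e (nat_lit 180243) (nat_lit 5) (.e (nat_lit 532515) (nat_lit 3) (.e (nat_lit 114716) (nat_lit 22) (.e (nat_lit 90181) (nat_lit 16) (.e (nat_lit 229376) (nat_lit 0) .nil)))))))) (.g (nat_lit 5) .nil .nil)))) (.nd (nat_lit 6) 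
(.lf (nat_lit 115126) (.g (nat_lit 1631) (.e (nat_lit 5936) (nat_lit 322) (.e (nat_lit 57447) (nat_lit 19) (.e (nat_lit 393281) (nat_lit 23) (.e (nat_lit 426115) (nat_lit 2) .nil)))) .nil)) 
(.lf (nat_lit 115190) (.g (nat_lit 3506) (.e (nat_lit 5937) (nat_lit 322) (.e (nat_lit 57373) (nat_lit 2) (.e (nat_lit 90174) (nat_lit 14) (.e (nat_lit 180243) (nat_lit 5) (.e (nat_lit 532515) (nat_lit 3) (.e (nat_lit 114716) (nat_lit 22) (.e (nat_lit 90181) (nat_lit 16) (.e (nat_lit 237312) (nat_lit 0) .nil)))))))) (.g (nat_lit 7) .nil .nil)))))) 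
(.nd (nat_lit 4) (.nd (nat_lit 5) (.nd (nat_lit 6) 
(.lf (nat_lit 115086) (.g (nat_lit 2159) (.e (nat_lit 5936) (nat_lit 322) (.e (nat_lit 57373) (nat_lit 2) (.e (nat_lit 90174) (nat_lit 14) (.e (nat_lit 180243) (nat_lit 5) (.e (nat_lit 532515) (nat_lit 3) .nil))))) .nil)) 
(.lf (nat_lit 115150) (.g (nat_lit 2371) (.e (nat_lit 5937) (nat_lit 322) (.e (nat_lit 57371) (nat_lit 2) (.e (nat_lit 90174) (nat_lit 14) (.e (nat_lit 180243) (nat_lit 5) (.e (nat_lit 532515) (nat_lit 3) .nil))))) .nil))) (.nd (nat_lit 6) 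
(.lf (nat_lit 115118) (.g (nat_lit 1732) (.e (nat_lit 5936) (nat_lit 322) (.e (nat_lit 57424) (nat_lit 14) (.e (nat_lit 352318) (nat_lit 24) (.e (nat_lit 123197) (nat_lit 266) .nil)))) .nil)) 
(.lf (nat_lit 115182) (.g (nat_lit 2323) (.e (nat_lit 5937) (nat_lit 322) (.e (nat_lit 57373) (nat_lit 2) (.e (nat_lit 90172) (nat_lit 14) (.e (nat_lit 180244) (nat_lit 5) (.e (nat_lit 532515) (nat_lit 3) .nil))))) .nil)))) (.nd (nat_lit 5) (.nd (nat_lit 6) 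
(.lf (nat_lit 115102) (.g (nat_lit 1778) (.e (nat_lit 5936) (nat_lit 322) (.e (nat_lit 57399) (nat_lit 10) (.e (nat_lit 319530) (nat_lit 16) (.e (nat_lit 286761) (nat_lit 13) (.e (nat_lit 393288) (nat_lit 25) .nil))))) .nil)) 
(.lf (nat_lit 115166) (.g (nat_lit 4027) (.e (nat_lit 5937) (nat_lit 322) (.e (nat_lit 57372) (nat_lit 2) (.e (nat_lit 90172) (nat_lit 14) (.e (nat_lit 180244) (nat_lit 5) (.e (nat_lit 532515) (nat_lit 3) (.e (nat_lit 114716) (nat_lit 22) (.e (nat_lit 90181) (nat_lit 16) (.e (nat_lit 237312) (nat_lit 0) .nil)))))))) (.g (nat_lit 7) .nil .nil)))) (.nd (nat_lit 6) 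
(.lf (nat_lit 115134) (.g (nat_lit 1594) (.e (nat_lit 5936) (nat_lit 322) (.e (nat_lit 57448) (nat_lit 19) (.e (nat_lit 393234) (nat_lit 17) (.e (nat_lit 7583) (nat_lit 405) (.e (nat_lit 57476) (nat_lit 28) .nil))))) .nil)) 
(.lf (nat_lit 115198) (.g (nat_lit 1539) (.e (nat_lit 5937) (nat_lit 322) (.e (nat_lit 57373) (nat_lit 2) (.e (nat_lit 90185) (nat_lit 17) (.e (nat_lit 237601) (nat_lit 9) .nil)))) .nil)))))))) (.nd (nat_lit 1) (.nd (nat_lit 2) (.nd (nat_lit 3) (.nd (nat_lit 4) (.nd (nat_lit 5) (.nd (nat_lit 6) 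
(.lf (nat_lit 115073) (.g (nat_lit 942) (.e (nat_lit 5936) (nat_lit 322) (.e (nat_lit 57372) (nat_lit 2) (.e (nat_lit 90176) (nat_lit 15) .nil))) .nil)) 
(.lf (nat_lit 115137) (.g (nat_lit 2781) (.e (nat_lit 5937) (nat_lit 322) (.e (nat_lit 57347) (nat_lit 0) (.e (nat_lit 2031) (nat_lit 140) (.e (nat_lit 688177) (nat_lit 16) (.e (nat_lit 65586) (nat_lit 7) (.e (nat_lit 319531) (nat_lit 16) (.e (nat_lit 286748) (nat_lit 9) (.e (nat_lit 335889) (nat_lit 0) (.e (nat_lit 1105) (nat_lit 81) .nil))))))))) (.g (nat_lit 5) .nil .nil)))) (.nd (nat_lit 6) 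
(.lf (nat_lit 115105) (.g (nat_lit 2325) (.e (nat_lit 5936) (nat_lit 322) (.e (nat_lit 57400) (nat_lit 10) (.e (nat_lit 319534) (nat_lit 16) (.e (nat_lit 286761) (nat_lit 13) (.e (nat_lit 393288) (nat_lit 25) .nil))))) .nil)) 
(.lf (nat_lit 115169) (.g (nat_lit 1966) (.e (nat_lit 5937) (nat_lit 322) (.e (nat_lit 57372) (nat_lit 2) (.e (nat_lit 90176) (nat_lit 15) (.e (nat_lit 188423) (nat_lit 11) (.e (nat_lit 336387) (nat_lit 27) .nil))))) .nil)))) (.nd (nat_lit 5) (.nd (nat_lit 6) 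
(.lf (nat_lit 115089) (.g (nat_lit 2579) (.e (nat_lit 5936) (nat_lit 322) (.e (nat_lit 57375) (nat_lit 2) (.e (nat_lit 90172) (nat_lit 14) (.e (nat_lit 180244) (nat_lit 5) (.e (nat_lit 532508) (nat_lit 2) .nil))))) .nil)) 
(.lf (nat_lit 115153) (.g (nat_lit 978) (.e (nat_lit 5937) (nat_lit 322) (.e (nat_lit 57372) (nat_lit 2) (.e (nat_lit 90172) (nat_lit 14) .nil))) .nil))) (.nd (nat_lit 6) 
(.lf (nat_lit 115121) (.g (nat_lit 1503) (.e (nat_lit 5936) (nat_lit 322) (.e (nat_lit 57437) (nat_lit 17) (.e (nat_lit 376859) (nat_lit 21) (.e (nat_lit 57870) (nat_lit 264) .nil)))) .nil)) 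
(.lf (nat_lit 115185) (.g (nat_lit 3836) (.e (nat_lit 5937) (nat_lit 322) (.e (nat_lit 57373) (nat_lit 2) (.e (nat_lit 90172) (nat_lit 14) (.e (nat_lit 180244) (nat_lit 5) (.e (nat_lit 532515) (nat_lit 3) (.e (nat_lit 114716) (nat_lit 22) (.e (nat_lit 90181) (nat_lit 16) (.e (nat_lit 237312) (nat_lit 0) .nil)))))))) (.g (nat_lit 7) .nil .nil)))))) 
(.nd (nat_lit 4) (.nd (nat_lit 5) (.nd (nat_lit 6) 
(.lf (nat_lit 115081) (.g (nat_lit 2322) (.e (nat_lit 5936) (nat_lit 322) (.e (nat_lit 57373) (nat_lit 2) (.e (nat_lit 90172) (nat_lit 14) (.e (nat_lit 180244) (nat_lit 5) (.e (nat_lit 532515) (nat_lit 3) .nil))))) .nil)) 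
(.lf (nat_lit 115145) (.g (nat_lit 1478) (.e (nat_lit 5937) (nat_lit 322) (.e (nat_lit 57370) (nat_lit 2) (.e (nat_lit 90172) (nat_lit 14) (.e (nat_lit 180244) (nat_lit 5) (.e (nat_lit 532515) (nat_lit 3) (.e (nat_lit 114716) (nat_lit 22) (.e (nat_lit 90181) (nat_lit 16) (.e (nat_lit 237312) (nat_lit 0) .nil)))))))) (.g (nat_lit 4) .nil .nil)))) (.nd (nat_lit 6) 
(.lf (nat_lit 115113) (.g (nat_lit 1443) (.e (nat_lit 5936) (nat_lit 322) (.e (nat_lit 57411) (nat_lit 12) (.e (nat_lit 336208) (nat_lit 12) (.e (nat_lit 385105) (nat_lit 50) .nil)))) .nil)) 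
(.lf (nat_lit 115177) (.g (nat_lit 3001) (.e (nat_lit 5937) (nat_lit 322) (.e (nat_lit 57373) (nat_lit 2) (.e (nat_lit 90172) (nat_lit 14) (.e (nat_lit 180243) (nat_lit 5) (.e (nat_lit 532513) (nat_lit 3) (.e (nat_lit 114714) (nat_lit 22) (.e (nat_lit 90181) (nat_lit 16) (.e (nat_lit 229376) (nat_lit 0) .nil)))))))) (.g (nat_lit 4) .nil .nil))))) (.nd (nat_lit 5) (.nd (nat_lit 6) 
(.lf (nat_lit 115097) (.g (nat_lit 2720) (.e (nat_lit 5936) (nat_lit 322) (.e (nat_lit 57378) (nat_lit 3) (.e (nat_lit 98365) (nat_lit 26) (.e (nat_lit 426188) (nat_lit 9) (.e (nat_lit 426479) (nat_lit 27) .nil))))) .nil)) 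
(.lf (nat_lit 115161) (.g (nat_lit 2525) (.e (nat_lit 5937) (nat_lit 322) (.e (nat_lit 57372) (nat_lit 2) (.e (nat_lit 90172) (nat_lit 14) (.e (nat_lit 180244) (nat_lit 5) (.e (nat_lit 532513) (nat_lit 3) .nil))))) .nil))) (.nd (nat_lit 6) 
(.lf (nat_lit 115129) (.g (nat_lit 2991) (.e (nat_lit 5936) (nat_lit 322) (.e (nat_lit 57447) (nat_lit 19) (.e (nat_lit 393301) (nat_lit 27) (.e (nat_lit 491526) (nat_lit 0) (.e (nat_lit 1848) (nat_lit 124) (.e (nat_lit 557104) (nat_lit 14) (.e (nat_lit 188160) (nat_lit 0) .nil))))))) (.g (nat_lit 5) .nil .nil))) 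
(.lf (nat_lit 115193) (.g (nat_lit 919) (.e (nat_lit 5937) (nat_lit 322) (.e (nat_lit 57373) (nat_lit 2) (.e (nat_lit 90177) (nat_lit 15) .nil))) .nil)))))) (.nd (nat_lit 3) (.nd (nat_lit 4) (.nd (nat_lit 5) (.nd (nat_lit 6) 
(.lf (nat_lit 115077) (.g (nat_lit 2032) (.e (nat_lit 5936) (nat_lit 322) (.e (nat_lit 57372) (nat_lit 2) (.e (nat_lit 90176) (nat_lit 15) (.e (nat_lit 188461) (nat_lit 26) .nil)))) .nil)) 
(.lf (nat_lit 115141) (.g (nat_lit 1911) (.e (nat_lit 5937) (nat_lit 322) (.e (nat_lit 57350) (nat_lit 0) (.e (nat_lit 6113) (nat_lit 332) (.e (nat_lit 1361) (nat_lit 102) (.e (nat_lit 286761) (nat_lit 13) (.e (nat_lit 393289) (nat_lit 25) (.e (nat_lit 466688) (nat_lit 18) .nil))))))) (.g (nat_lit 6) .nil .nil)))) (.nd (nat_lit 6) 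
(.lf (nat_lit 115109) (.g (nat_lit 1937) (.e (nat_lit 5936) (nat_lit 322) (.e (nat_lit 57409) (nat_lit 12) (.e (nat_lit 336443) (nat_lit 32) (.e (nat_lit 466977) (nat_lit 22) .nil)))) .nil)) 
(.lf (nat_lit 115173) (.g (nat_lit 2840) (.e (nat_lit 5937) (nat_lit 322) (.e (nat_lit 57373) (nat_lit 2) (.e (nat_lit 90170) (nat_lit 13) (.e (nat_lit 172067) (nat_lit 3) (.e (nat_lit 204838) (nat_lit 20) .nil))))) .nil)))) (.nd (nat_lit 5) (.nd (nat_lit 6) 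
(.lf (nat_lit 115093) (.g (nat_lit 1683) (.e (nat_lit 5936) (nat_lit 322) (.e (nat_lit 57375) (nat_lit 2) (.e (nat_lit 90176) (nat_lit 15) (.e (nat_lit 196352) (nat_lit 18) .nil)))) .nil)) 
(.lf (nat_lit 115157) (.g (nat_lit 2542) (.e (nat_lit 5937) (nat_lit 322) (.e (nat_lit 57372) (nat_lit 2) (.e (nat_lit 90172) (nat_lit 14) (.e (nat_lit 180243) (nat_lit 5) (.e (nat_lit 532515) (nat_lit 3) .nil))))) .nil))) (.nd (nat_lit 6) 
(.lf (nat_lit 115125) (.g (nat_lit 3159) (.e (nat_lit 5936) (nat_lit 322) (.e (nat_lit 57447) (nat_lit 19) (.e (nat_lit 393234) (nat_lit 17) (.e (nat_lit 7581) (nat_lit 405) (.e (nat_lit 57477) (nat_lit 28) (.e (nat_lit 557104) (nat_lit 14) (.e (nat_lit 188160) (nat_lit 0) .nil))))))) (.g (nat_lit 6) .nil .nil))) 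
(.lf (nat_lit 115189) (.g (nat_lit 3861) (.e (nat_lit 5937) (nat_lit 322) (.e (nat_lit 57373) (nat_lit 2) (.e (nat_lit 90174) (nat_lit 14) (.e (nat_lit 180243) (nat_lit 5) (.e (nat_lit 532515) (nat_lit 3) (.e (nat_lit 114716) (nat_lit 22) (.e (nat_lit 90181) (nat_lit 16) (.e (nat_lit 229376) (nat_lit 0) .nil)))))))) (.g (nat_lit 7) .nil .nil)))))) 
(.nd (nat_lit 4) (.nd (nat_lit 5) (.nd (nat_lit 6) 
(.lf (nat_lit 115085) (.g (nat_lit 2359) (.e (nat_lit 5936) (nat_lit 322) (.e (nat_lit 57373) (nat_lit 2) (.e (nat_lit 90174) (nat_lit 14) (.e (nat_lit 180243) (nat_lit 5) (.e (nat_lit 532513) (nat_lit 3) .nil))))) .nil)) 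
(.lf (nat_lit 115149) (.g (nat_lit 2739) (.e (nat_lit 5937) (nat_lit 322) (.e (nat_lit 57371) (nat_lit 2) (.e (nat_lit 90174) (nat_lit 14) (.e (nat_lit 180243) (nat_lit 5) (.e (nat_lit 532513) (nat_lit 3) (.e (nat_lit 114714) (nat_lit 22) (.e (nat_lit 90181) (nat_lit 16) (.e (nat_lit 229376) (nat_lit 0) .nil)))))))) (.g (nat_lit 4) .nil .nil)))) (.nd (nat_lit 6) 
(.lf (nat_lit 115117) (.g (nat_lit 798) (.e (nat_lit 5936) (nat_lit 322) (.e (nat_lit 57424) (nat_lit 14) (.e (nat_lit 352318) (nat_lit 24) .nil))) .nil)) 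
(.lf (nat_lit 115181) (.g (nat_lit 3551) (.e (nat_lit 5937) (nat_lit 322) (.e (nat_lit 57373) (nat_lit 2) (.e (nat_lit 90172) (nat_lit 14) (.e (nat_lit 180244) (nat_lit 5) (.e (nat_lit 532513) (nat_lit 3) (.e (nat_lit 114714) (nat_lit 22) (.e (nat_lit 90181) (nat_lit 16) (.e (nat_lit 229376) (nat_lit 0) .nil)))))))) (.g (nat_lit 5) .nil .nil))))) (.nd (nat_lit 5) (.nd (nat_lit 6) 
(.lf (nat_lit 115101) (.g (nat_lit 1559) (.e (nat_lit 5936) (nat_lit 322) (.e (nat_lit 57379) (nat_lit 3) (.e (nat_lit 98365) (nat_lit 26) (.e (nat_lit 426188) (nat_lit 9) .nil)))) .nil)) 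
(.lf (nat_lit 115165) (.g (nat_lit 4411) (.e (nat_lit 5937) (nat_lit 322) (.e (nat_lit 57372) (nat_lit 2) (.e (nat_lit 90172) (nat_lit 14) (.e (nat_lit 180244) (nat_lit 5) (.e (nat_lit 532515) (nat_lit 3) (.e (nat_lit 114716) (nat_lit 22) (.e (nat_lit 90181) (nat_lit 16) (.e (nat_lit 229376) (nat_lit 0) .nil)))))))) (.g (nat_lit 7) .nil .nil)))) (.nd (nat_lit 6) 
(.lf (nat_lit 115133) (.g (nat_lit 2199) (.e (nat_lit 5936) (nat_lit 322) (.e (nat_lit 57448) (nat_lit 19) (.e (nat_lit 393234) (nat_lit 17) (.e (nat_lit 7581) (nat_lit 405) (.e (nat_lit 57480) (nat_lit 28) .nil))))) .nil)) 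
(.lf (nat_lit 115197) (.g (nat_lit 2895) (.e (nat_lit 5937) (nat_lit 322) (.e (nat_lit 57373) (nat_lit 2) (.e (nat_lit 90178) (nat_lit 15) (.e (nat_lit 188461) (nat_lit 26) (.e (nat_lit 261888) (nat_lit 5) .nil))))) .nil))))))) (.nd (nat_lit 2) (.nd (nat_lit 3) (.nd (nat_lit 4) (.nd (nat_lit 5) (.nd (nat_lit 6) 
(.lf (nat_lit 115075) (.g (nat_lit 1947) (.e (nat_lit 5936) (nat_lit 322) (.e (nat_lit 57372) (nat_lit 2) (.e (nat_lit 90176) (nat_lit 15) (.e (nat_lit 196352) (nat_lit 18) .nil)))) .nil)) 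
(.lf (nat_lit 115139) (.g (nat_lit 3717) (.e (nat_lit 5937) (nat_lit 322) (.e (nat_lit 57348) (nat_lit 0) (.e (nat_lit 2031) (nat_lit 140) (.e (nat_lit 688177) (nat_lit 16) (.e (nat_lit 65586) (nat_lit 7) (.e (nat_lit 319531) (nat_lit 16) (.e (nat_lit 286751) (nat_lit 10) (.e (nat_lit 352000) (nat_lit 18) .nil)))))))) (.g (nat_lit 7) .nil .nil)))) (.nd (nat_lit 6) 
(.lf (nat_lit 115107) (.g (nat_lit 1406) (.e (nat_lit 5936) (nat_lit 322) (.e (nat_lit 57409) (nat_lit 12) (.e (nat_lit 336208) (nat_lit 12) (.e (nat_lit 385106) (nat_lit 50) .nil)))) .nil)) 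
(.lf (nat_lit 115171) (.g (nat_lit 2472) (.e (nat_lit 5937) (nat_lit 322) (.e (nat_lit 57372) (nat_lit 2) (.e (nat_lit 90176) (nat_lit 15) (.e (nat_lit 188459) (nat_lit 26) (.e (nat_lit 261888) (nat_lit 5) (.e (nat_lit 188160) (nat_lit 0) .nil)))))) (.g (nat_lit 4) .nil .nil))))) (.nd (nat_lit 5) (.nd (nat_lit 6) 
(.lf (nat_lit 115091) (.g (nat_lit 2299) (.e (nat_lit 5936) (nat_lit 322) (.e (nat_lit 57375) (nat_lit 2) (.e (nat_lit 90172) (nat_lit 14) (.e (nat_lit 180244) (nat_lit 5) (.e (nat_lit 532515) (nat_lit 3) .nil))))) .nil)) 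
(.lf (nat_lit 115155) (.g (nat_lit 2509) (.e (nat_lit 5937) (nat_lit 322) (.e (nat_lit 57372) (nat_lit 2) (.e (nat_lit 90172) (nat_lit 14) (.e (nat_lit 180243) (nat_lit 5) (.e (nat_lit 532513) (nat_lit 3) .nil))))) .nil))) (.nd (nat_lit 6) 
(.lf (nat_lit 115123) (.g (nat_lit 2203) (.e (nat_lit 5936) (nat_lit 322) (.e (nat_lit 57447) (nat_lit 19) (.e (nat_lit 393234) (nat_lit 17) (.e (nat_lit 7581) (nat_lit 405) (.e (nat_lit 57476) (nat_lit 28) (.e (nat_lit 557097) (nat_lit 13) (.e (nat_lit 172045) (nat_lit 0) (.e (nat_lit 2468) (nat_lit 157) .nil)))))))) (.g (nat_lit 4) .nil .nil))) 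
(.lf (nat_lit 115187) (.g (nat_lit 2406) (.e (nat_lit 5937) (nat_lit 322) (.e (nat_lit 57373) (nat_lit 2) (.e (nat_lit 90174) (nat_lit 14) (.e (nat_lit 180243) (nat_lit 5) (.e (nat_lit 532508) (nat_lit 2) .nil))))) .nil))))) (.nd (nat_lit 4) (.nd (nat_lit 5) (.nd (nat_lit 6) 
(.lf (nat_lit 115083) (.g (nat_lit 2740) (.e (nat_lit 5936) (nat_lit 322) (.e (nat_lit 57373) (nat_lit 2) (.e (nat_lit 90172) (nat_lit 14) (.e (nat_lit 180244) (nat_lit 5) (.e (nat_lit 532515) (nat_lit 3) (.e (nat_lit 114716) (nat_lit 22) (.e (nat_lit 90181) (nat_lit 16) (.e (nat_lit 229378) (nat_lit 0) .nil)))))))) (.g (nat_lit 5) .nil .nil))) 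
(.lf (nat_lit 115147) (.g (nat_lit 2196) (.e (nat_lit 5937) (nat_lit 322) (.e (nat_lit 57371) (nat_lit 2) (.e (nat_lit 90172) (nat_lit 14) (.e (nat_lit 180244) (nat_lit 5) (.e (nat_lit 532515) (nat_lit 3) .nil))))) .nil))) (.nd (nat_lit 6) 
(.lf (nat_lit 115115) (.g (nat_lit 2210) (.e (nat_lit 5936) (nat_lit 322) (.e (nat_lit 57412) (nat_lit 12) (.e (nat_lit 336193) (nat_lit 12) (.e (nat_lit 385105) (nat_lit 50) (.e (nat_lit 786483) (nat_lit 30) .nil))))) .nil)) 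
(.lf (nat_lit 115179) (.g (nat_lit 2716) (.e (nat_lit 5937) (nat_lit 322) (.e (nat_lit 57373) (nat_lit 2) (.e (nat_lit 90172) (nat_lit 14) (.e (nat_lit 180244) (nat_lit 5) (.e (nat_lit 532508) (nat_lit 2) .nil))))) .nil)))) (.nd (nat_lit 5) (.nd (nat_lit 6) 
(.lf (nat_lit 115099) (.g (nat_lit 2268) (.e (nat_lit 5936) (nat_lit 322) (.e (nat_lit 57378) (nat_lit 3) (.e (nat_lit 98368) (nat_lit 27) (.e (nat_lit 434247) (nat_lit 28) (.e (nat_lit 573489) (nat_lit 14) .nil))))) .nil)) 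
(.lf (nat_lit 115163) (.g (nat_lit 2671) (.e (nat_lit 5937) (nat_lit 322) (.e (nat_lit 57372) (nat_lit 2) (.e (nat_lit 90172) (nat_lit 14) (.e (nat_lit 180244) (nat_lit 5) (.e (nat_lit 532513) (nat_lit 3) (.e (nat_lit 114714) (nat_lit 22) (.e (nat_lit 90181) (nat_lit 16) (.e (nat_lit 237312) (nat_lit 0) .nil)))))))) (.g (nat_lit 4) .nil .nil)))) (.nd (nat_lit 6) 
(.lf (nat_lit 115131) (.g (nat_lit 2259) (.e (nat_lit 5936) (nat_lit 322) (.e (nat_lit 57448) (nat_lit 19) (.e (nat_lit 393234) (nat_lit 17) (.e (nat_lit 7581) (nat_lit 405) (.e (nat_lit 57477) (nat_lit 28) (.e (nat_lit 557103) (nat_lit 14) (.e (nat_lit 188160) (nat_lit 0) .nil))))))) (.g (nat_lit 4) .nil .nil))) 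
(.lf (nat_lit 115195) (.g (nat_lit 1942) (.e (nat_lit 5937) (nat_lit 322) (.e (nat_lit 57373) (nat_lit 2) (.e (nat_lit 90178) (nat_lit 15) (.e (nat_lit 196352) (nat_lit 18) .nil)))) .nil)))))) (.nd (nat_lit 3) (.nd (nat_lit 4) (.nd (nat_lit 5) (.nd (nat_lit 6) 
(.lf (nat_lit 115079) (.g (nat_lit 1890) (.e (nat_lit 5936) (nat_lit 322) (.e (nat_lit 57373) (nat_lit 2) (.e (nat_lit 90172) (nat_lit 14) (.e (nat_lit 180244) (nat_lit 5) .nil)))) .nil)) 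
(.lf (nat_lit 115143) (.g (nat_lit 1475) (.e (nat_lit 5937) (nat_lit 322) (.e (nat_lit 57370) (nat_lit 2) (.e (nat_lit 90172) (nat_lit 14) (.e (nat_lit 180244) (nat_lit 5) (.e (nat_lit 532515) (nat_lit 3) .nil))))) .nil))) (.nd (nat_lit 6) 
(.lf (nat_lit 115111) (.g (nat_lit 1459) (.e (nat_lit 5936) (nat_lit 322) (.e (nat_lit 57411) (nat_lit 12) (.e (nat_lit 336208) (nat_lit 12) (.e (nat_lit 385104) (nat_lit 50) .nil)))) .nil)) 
(.lf (nat_lit 115175) (.g (nat_lit 2298) (.e (nat_lit 5937) (nat_lit 322) (.e (nat_lit 57373) (nat_lit 2) (.e (nat_lit 90172) (nat_lit 14) (.e (nat_lit 180243) (nat_lit 5) .nil)))) .nil)))) (.nd (nat_lit 5) (.nd (nat_lit 6) 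
(.lf (nat_lit 115095) (.g (nat_lit 1881) (.e (nat_lit 5936) (nat_lit 322) (.e (nat_lit 57378) (nat_lit 3) (.e (nat_lit 98365) (nat_lit 26) (.e (nat_lit 426187) (nat_lit 9) .nil)))) .nil)) 
(.lf (nat_lit 115159) (.g (nat_lit 1943) (.e (nat_lit 5937) (nat_lit 322) (.e (nat_lit 57372) (nat_lit 2) (.e (nat_lit 90172) (nat_lit 14) (.e (nat_lit 180244) (nat_lit 5) .nil)))) .nil))) (.nd (nat_lit 6) 
(.lf (nat_lit 115127) (.g (nat_lit 1638) (.e (nat_lit 5936) (nat_lit 322) (.e (nat_lit 57447) (nat_lit 19) (.e (nat_lit 393281) (nat_lit 23) (.e (nat_lit 426116) (nat_lit 2) .nil)))) .nil)) 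
(.lf (nat_lit 115191) (.g (nat_lit 936) (.e (nat_lit 5937) (nat_lit 322) (.e (nat_lit 57373) (nat_lit 2) (.e (nat_lit 90176) (nat_lit 15) .nil))) .nil))))) (.nd (nat_lit 4) (.nd (nat_lit 5) (.nd (nat_lit 6) 
(.lf (nat_lit 115087) (.g (nat_lit 881) (.e (nat_lit 5936) (nat_lit 322) (.e (nat_lit 57373) (nat_lit 2) (.e (nat_lit 90178) (nat_lit 15) .nil))) .nil)) 
(.lf (nat_lit 115151) (.g (nat_lit 2690) (.e (nat_lit 5937) (nat_lit 322) (.e (nat_lit 57371) (nat_lit 2) (.e (nat_lit 90174) (nat_lit 14) (.e (nat_lit 180243) (nat_lit 5) (.e (nat_lit 532515) (nat_lit 3) (.e (nat_lit 114716) (nat_lit 22) (.e (nat_lit 90181) (nat_lit 16) (.e (nat_lit 229376) (nat_lit 0) .nil)))))))) (.g (nat_lit 4) .nil .nil)))) (.nd (nat_lit 6) 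
(.lf (nat_lit 115119) (.g (nat_lit 821) (.e (nat_lit 5936) (nat_lit 322) (.e (nat_lit 57437) (nat_lit 17) (.e (nat_lit 376855) (nat_lit 20) .nil))) .nil)) 
(.lf (nat_lit 115183) (.g (nat_lit 3478) (.e (nat_lit 5937) (nat_lit 322) (.e (nat_lit 57373) (nat_lit 2) (.e (nat_lit 90172) (nat_lit 14) (.e (nat_lit 180244) (nat_lit 5) (.e (nat_lit 532515) (nat_lit 3) (.e (nat_lit 114715) (nat_lit 22) (.e (nat_lit 90165) (nat_lit 12) (.e (nat_lit 171776) (nat_lit 0) .nil)))))))) (.g (nat_lit 7) .nil .nil))))) (.nd (nat_lit 5) (.nd (nat_lit 6) 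
(.lf (nat_lit 115103) (.g (nat_lit 1767) (.e (nat_lit 5936) (nat_lit 322) (.e (nat_lit 57400) (nat_lit 10) (.e (nat_lit 319533) (nat_lit 16) (.e (nat_lit 286760) (nat_lit 13) (.e (nat_lit 393289) (nat_lit 25) .nil))))) .nil)) 
(.lf (nat_lit 115167) (.g (nat_lit 1683) (.e (nat_lit 5937) (nat_lit 322) (.e (nat_lit 57372) (nat_lit 2) (.e (nat_lit 90174) (nat_lit 14) (.e (nat_lit 180243) (nat_lit 5) .nil)))) .nil))) (.nd (nat_lit 6) 
(.lf (nat_lit 115135) (.g (nat_lit 2449) (.e (nat_lit 5936) (nat_lit 322) (.e (nat_lit 57448) (nat_lit 19) (.e (nat_lit 393301) (nat_lit 27) (.e (nat_lit 491526) (nat_lit 0) (.e (nat_lit 1848) (nat_lit 124) .nil))))) .nil)) 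
(.lf (nat_lit 115199) (.g (nat_lit 1535) (.e (nat_lit 5937) (nat_lit 322) (.e (nat_lit 57373) (nat_lit 2) (.e (nat_lit 90185) (nat_lit 17) (.e (nat_lit 237605) (nat_lit 9) .nil)))) .nil)))))))))

noncomputable def tv1552 : DT := (.nd (nat_lit 0) (.nd (nat_lit 1) (.nd (nat_lit 2) (.nd (nat_lit 3) (.nd (nat_lit 4) (.nd (nat_lit 5) (.nd (nat_lit 6) 
(.lf (nat_lit 115200) (.g (nat_lit 1359) (.e (nat_lit 5937) (nat_lit 322) (.e (nat_lit 57373) (nat_lit 2) (.e (nat_lit 90185) (nat_lit 17) (.e (nat_lit 237621) (nat_lit 13) .nil)))) .nil)) 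
(.lf (nat_lit 115264) (.g (nat_lit 2546) (.e (nat_lit 5937) (nat_lit 322) (.e (nat_lit 57378) (nat_lit 3) (.e (nat_lit 98365) (nat_lit 26) (.e (nat_lit 426188) (nat_lit 9) (.e (nat_lit 426568) (nat_lit 34) .nil))))) .nil))) (.nd (nat_lit 6) 
(.lf (nat_lit 115232) (.g (nat_lit 1209) (.e (nat_lit 5937) (nat_lit 322) (.e (nat_lit 57375) (nat_lit 2) (.e (nat_lit 90176) (nat_lit 15) (.e (nat_lit 188423) (nat_lit 11) .nil)))) .nil)) 
(.lf (nat_lit 115296) (.g (nat_lit 2227) (.e (nat_lit 5937) (nat_lit 322) (.e (nat_lit 57379) (nat_lit 3) (.e (nat_lit 98365) (nat_lit 26) (.e (nat_lit 426188) (nat_lit 9) (.e (nat_lit 426566) (nat_lit 34) (.e (nat_lit 393239) (nat_lit 17) (.e (nat_lit 2466) (nat_lit 157) .nil))))))) (.g (nat_lit 4) .nil .nil))))) (.nd (nat_lit 5) (.nd (nat_lit 6) 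
(.lf (nat_lit 115216) (.g (nat_lit 1793) (.e (nat_lit 5937) (nat_lit 322) (.e (nat_lit 57375) (nat_lit 2) (.e (nat_lit 90172) (nat_lit 14) (.e (nat_lit 180243) (nat_lit 5) .nil)))) .nil)) 
(.lf (nat_lit 115280) (.g (nat_lit 2439) (.e (nat_lit 5937) (nat_lit 322) (.e (nat_lit 57378) (nat_lit 3) (.e (nat_lit 98377) (nat_lit 30) (.e (nat_lit 458789) (nat_lit 23) (.e (nat_lit 532515) (nat_lit 3) (.e (nat_lit 114716) (nat_lit 22) (.e (nat_lit 90181) (nat_lit 16) (.e (nat_lit 229376) (nat_lit 0) .nil)))))))) (.g (nat_lit 4) .nil .nil)))) (.nd (nat_lit 6) 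
(.lf (nat_lit 115248) (.g (nat_lit 560) (.e (nat_lit 5937) (nat_lit 322) (.e (nat_lit 57377) (nat_lit 3) (.e (nat_lit 98365) (nat_lit 26) .nil))) .nil)) 
(.lf (nat_lit 115312) (.g (nat_lit 1650) (.e (nat_lit 5937) (nat_lit 322) (.e (nat_lit 57379) (nat_lit 3) (.e (nat_lit 98372) (nat_lit 29) (.e (nat_lit 450603) (nat_lit 22) .nil)))) .nil))))) (.nd (nat_lit 4) (.nd (nat_lit 5) (.nd (nat_lit 6) 
(.lf (nat_lit 115208) (.g (nat_lit 2710) (.e (nat_lit 5937) (nat_lit 322) (.e (nat_lit 57374) (nat_lit 2) (.e (nat_lit 90170) (nat_lit 13) (.e (nat_lit 172067) (nat_lit 3) (.e (nat_lit 204834) (nat_lit 19) .nil))))) .nil)) 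
(.lf (nat_lit 115272) (.g (nat_lit 4202) (.e (nat_lit 5937) (nat_lit 322) (.e (nat_lit 57378) (nat_lit 3) (.e (nat_lit 98373) (nat_lit 29) (.e (nat_lit 450563) (nat_lit 0) (.e (nat_lit 6595) (nat_lit 351) .nil))))) .nil))) (.nd (nat_lit 6) 
(.lf (nat_lit 115240) (.g (nat_lit 1663) (.e (nat_lit 5937) (nat_lit 322) (.e (nat_lit 57375) (nat_lit 2) (.e (nat_lit 90185) (nat_lit 17) (.e (nat_lit 237601) (nat_lit 9) (.e (nat_lit 426566) (nat_lit 34) (.e (nat_lit 393231) (nat_lit 17) (.e (nat_lit 2466) (nat_lit 157) .nil))))))) (.g (nat_lit 4) .nil .nil))) 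
(.lf (nat_lit 115304) (.g (nat_lit 2395) (.e (nat_lit 5937) (nat_lit 322) (.e (nat_lit 57379) (nat_lit 3) (.e (nat_lit 98366) (nat_lit 27) (.e (nat_lit 434248) (nat_lit 28) (.e (nat_lit 573489) (nat_lit 14) .nil))))) .nil)))) (.nd (nat_lit 5) (.nd (nat_lit 6) 
(.lf (nat_lit 115224) (.g (nat_lit 2438) (.e (nat_lit 5937) (nat_lit 322) (.e (nat_lit 57375) (nat_lit 2) (.e (nat_lit 90172) (nat_lit 14) (.e (nat_lit 180244) (nat_lit 5) (.e (nat_lit 532513) (nat_lit 3) (.e (nat_lit 114714) (nat_lit 22) (.e (nat_lit 90162) (nat_lit 12) (.e (nat_lit 171776) (nat_lit 0) .nil)))))))) (.g (nat_lit 4) .nil .nil))) 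
(.lf (nat_lit 115288) (.g (nat_lit 1835) (.e (nat_lit 5937) (nat_lit 322) (.e (nat_lit 57379) (nat_lit 3) (.e (nat_lit 98365) (nat_lit 26) (.e (nat_lit 426187) (nat_lit 9) (.e (nat_lit 426566) (nat_lit 34) .nil))))) .nil))) (.nd (nat_lit 6) 
(.lf (nat_lit 115256) (.g (nat_lit 2211) (.e (nat_lit 5937) (nat_lit 322) (.e (nat_lit 57378) (nat_lit 3) (.e (nat_lit 98365) (nat_lit 26) (.e (nat_lit 426187) (nat_lit 9) (.e (nat_lit 426479) (nat_lit 27) .nil))))) .nil)) 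
(.lf (nat_lit 115320) (.g (nat_lit 1900) (.e (nat_lit 5937) (nat_lit 322) (.e (nat_lit 57379) (nat_lit 3) (.e (nat_lit 98373) (nat_lit 29) (.e (nat_lit 450602) (nat_lit 22) .nil)))) .nil)))))) (.nd (nat_lit 3) (.nd (nat_lit 4) (.nd (nat_lit 5) (.nd (nat_lit 6) 
(.lf (nat_lit 115204) (.g (nat_lit 2814) (.e (nat_lit 5937) (nat_lit 322) (.e (nat_lit 57374) (nat_lit 2) (.e (nat_lit 90170) (nat_lit 13) (.e (nat_lit 172065) (nat_lit 3) (.e (nat_lit 204834) (nat_lit 19) .nil))))) .nil)) 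
(.lf (nat_lit 115268) (.g (nat_lit 2422) (.e (nat_lit 5937) (nat_lit 322) (.e (nat_lit 57378) (nat_lit 3) (.e (nat_lit 98368) (nat_lit 27) (.e (nat_lit 434248) (nat_lit 28) (.e (nat_lit 573487) (nat_lit 14) .nil))))) .nil))) (.nd (nat_lit 6) 
(.lf (nat_lit 115236) (.g (nat_lit 637) (.e (nat_lit 5937) (nat_lit 322) (.e (nat_lit 57375) (nat_lit 2) (.e (nat_lit 90178) (nat_lit 15) .nil))) .nil)) 
(.lf (nat_lit 115300) (.g (nat_lit 1772) (.e (nat_lit 5937) (nat_lit 322) (.e (nat_lit 57379) (nat_lit 3) (.e (nat_lit 98365) (nat_lit 26) (.e (nat_lit 426326) (nat_lit 13) .nil)))) .nil)))) (.nd (nat_lit 5) (.nd (nat_lit 6) 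
(.lf (nat_lit 115220) (.g (nat_lit 2304) (.e (nat_lit 5937) (nat_lit 322) (.e (nat_lit 57375) (nat_lit 2) (.e (nat_lit 90172) (nat_lit 14) (.e (nat_lit 180243) (nat_lit 5) (.e (nat_lit 532515) (nat_lit 3) .nil))))) .nil)) 
(.lf (nat_lit 115284) (.g (nat_lit 524) (.e (nat_lit 5937) (nat_lit 322) (.e (nat_lit 57379) (nat_lit 3) (.e (nat_lit 98363) (nat_lit 26) .nil))) .nil))) (.nd (nat_lit 6) 
(.lf (nat_lit 115252) (.g (nat_lit 1813) (.e (nat_lit 5937) (nat_lit 322) (.e (nat_lit 57378) (nat_lit 3) (.e (nat_lit 98358) (nat_lit 26) (.e (nat_lit 426323) (nat_lit 13) .nil)))) .nil)) 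
(.lf (nat_lit 115316) (.g (nat_lit 3454) (.e (nat_lit 5937) (nat_lit 322) (.e (nat_lit 57379) (nat_lit 3) (.e (nat_lit 98373) (nat_lit 29) (.e (nat_lit 450562) (nat_lit 0) (.e (nat_lit 6595) (nat_lit 351) (.e (nat_lit 2638) (nat_lit 165) (.e (nat_lit 180224) (nat_lit 0) .nil))))))) (.g (nat_lit 4) .nil .nil)))))) (.nd (nat_lit 4) (.nd (nat_lit 5) (.nd (nat_lit 6) 
(.lf (nat_lit 115212) (.g (nat_lit 2111) (.e (nat_lit 5937) (nat_lit 322) (.e (nat_lit 57374) (nat_lit 2) (.e (nat_lit 90170) (nat_lit 13) (.e (nat_lit 172121) (nat_lit 13) .nil)))) .nil)) 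
(.lf (nat_lit 115276) (.g (nat_lit 1906) (.e (nat_lit 5937) (nat_lit 322) (.e (nat_lit 57378) (nat_lit 3) (.e (nat_lit 98373) (nat_lit 29) (.e (nat_lit 458496) (nat_lit 22) .nil)))) .nil))) (.nd (nat_lit 6) 
(.lf (nat_lit 115244) (.g (nat_lit 1891) (.e (nat_lit 5937) (nat_lit 322) (.e (nat_lit 57375) (nat_lit 2) (.e (nat_lit 90185) (nat_lit 17) (.e (nat_lit 237605) (nat_lit 9) (.e (nat_lit 426566) (nat_lit 34) (.e (nat_lit 393235) (nat_lit 17) (.e (nat_lit 2466) (nat_lit 157) .nil))))))) (.g (nat_lit 4) .nil .nil))) 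
(.lf (nat_lit 115308) (.g (nat_lit 1224) (.e (nat_lit 5937) (nat_lit 322) (.e (nat_lit 57379) (nat_lit 3) (.e (nat_lit 98370) (nat_lit 28) (.e (nat_lit 442390) (nat_lit 11) .nil)))) .nil)))) (.nd (nat_lit 5) (.nd (nat_lit 6) 
(.lf (nat_lit 115228) (.g (nat_lit 4199) (.e (nat_lit 5937) (nat_lit 322) (.e (nat_lit 57375) (nat_lit 2) (.e (nat_lit 90172) (nat_lit 14) (.e (nat_lit 180244) (nat_lit 5) (.e (nat_lit 532515) (nat_lit 3) (.e (nat_lit 114716) (nat_lit 22) (.e (nat_lit 90181) (nat_lit 16) (.e (nat_lit 229376) (nat_lit 0) .nil)))))))) (.g (nat_lit 7) .nil .nil))) 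
(.lf (nat_lit 115292) (.g (nat_lit 1535) (.e (nat_lit 5937) (nat_lit 322) (.e (nat_lit 57379) (nat_lit 3) (.e (nat_lit 98365) (nat_lit 26) (.e (nat_lit 426188) (nat_lit 9) .nil)))) .nil))) (.nd (nat_lit 6) 
(.lf (nat_lit 115260) (.g (nat_lit 2639) (.e (nat_lit 5937) (nat_lit 322) (.e (nat_lit 57378) (nat_lit 3) (.e (nat_lit 98365) (nat_lit 26) (.e (nat_lit 426188) (nat_lit 9) (.e (nat_lit 426479) (nat_lit 27) .nil))))) .nil)) 
(.lf (nat_lit 115324) (.g (nat_lit 1909) (.e (nat_lit 5937) (nat_lit 322) (.e (nat_lit 57379) (nat_lit 3) (.e (nat_lit 98376) (nat_lit 30) (.e (nat_lit 458789) (nat_lit 23) (.e (nat_lit 532515) (nat_lit 3) (.e (nat_lit 114715) (nat_lit 22) (.e (nat_lit 90165) (nat_lit 12) (.e (nat_lit 171776) (nat_lit 0) .nil)))))))) (.g (nat_lit 5) .nil .nil)))))))) 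
(.nd (nat_lit 2) (.nd (nat_lit 3) (.nd (nat_lit 4) (.nd (nat_lit 5) (.nd (nat_lit 6) 
(.lf (nat_lit 115202) (.g (nat_lit 1363) (.e (nat_lit 5937) (nat_lit 322) (.e (nat_lit 57373) (nat_lit 2) (.e (nat_lit 90185) (nat_lit 17) (.e (nat_lit 237624) (nat_lit 13) .nil)))) .nil)) 
(.lf (nat_lit 115266) (.g (nat_lit 2242) (.e (nat_lit 5937) (nat_lit 322) (.e (nat_lit 57378) (nat_lit 3) (.e (nat_lit 98368) (nat_lit 27) (.e (nat_lit 434245) (nat_lit 28) (.e (nat_lit 573487) (nat_lit 14) .nil))))) .nil))) (.nd (nat_lit 6) 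
(.lf (nat_lit 115234) (.g (nat_lit 2047) (.e (nat_lit 5937) (nat_lit 322) (.e (nat_lit 57375) (nat_lit 2) (.e (nat_lit 90176) (nat_lit 15) (.e (nat_lit 188459) (nat_lit 26) (.e (nat_lit 261888) (nat_lit 5) (.e (nat_lit 188160) (nat_lit 0) .nil)))))) (.g (nat_lit 4) .nil .nil))) 
(.lf (nat_lit 115298) (.g (nat_lit 2024) (.e (nat_lit 5937) (nat_lit 322) (.e (nat_lit 57379) (nat_lit 3) (.e (nat_lit 98365) (nat_lit 26) (.e (nat_lit 426325) (nat_lit 13) (.e (nat_lit 491264) (nat_lit 10) .nil))))) .nil)))) (.nd (nat_lit 5) (.nd (nat_lit 6) 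
(.lf (nat_lit 115218) (.g (nat_lit 3319) (.e (nat_lit 5937) (nat_lit 322) (.e (nat_lit 57375) (nat_lit 2) (.e (nat_lit 90172) (nat_lit 14) (.e (nat_lit 180243) (nat_lit 5) (.e (nat_lit 532513) (nat_lit 3) (.e (nat_lit 114714) (nat_lit 22) (.e (nat_lit 90165) (nat_lit 12) (.e (nat_lit 171776) (nat_lit 0) .nil)))))))) (.g (nat_lit 5) .nil .nil))) 
(.lf (nat_lit 115282) (.g (nat_lit 936) (.e (nat_lit 5937) (nat_lit 322) (.e (nat_lit 57378) (nat_lit 3) (.e (nat_lit 98380) (nat_lit 31) .nil))) .nil))) (.nd (nat_lit 6) 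
(.lf (nat_lit 115250) (.g (nat_lit 1822) (.e (nat_lit 5937) (nat_lit 322) (.e (nat_lit 57377) (nat_lit 3) (.e (nat_lit 98365) (nat_lit 26) (.e (nat_lit 426187) (nat_lit 9) (.e (nat_lit 426566) (nat_lit 34) (.e (nat_lit 393231) (nat_lit 17) (.e (nat_lit 2466) (nat_lit 157) .nil))))))) (.g (nat_lit 4) .nil .nil))) 
(.lf (nat_lit 115314) (.g (nat_lit 2132) (.e (nat_lit 5937) (nat_lit 322) (.e (nat_lit 57379) (nat_lit 3) (.e (nat_lit 98373) (nat_lit 29) (.e (nat_lit 450561) (nat_lit 0) .nil)))) .nil))))) (.nd (nat_lit 4) (.nd (nat_lit 5) (.nd (nat_lit 6) 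
(.lf (nat_lit 115210) (.g (nat_lit 2781) (.e (nat_lit 5937) (nat_lit 322) (.e (nat_lit 57374) (nat_lit 2) (.e (nat_lit 90170) (nat_lit 13) (.e (nat_lit 172067) (nat_lit 3) (.e (nat_lit 204838) (nat_lit 20) (.e (nat_lit 114716) (nat_lit 22) (.e (nat_lit 90181) (nat_lit 16) (.e (nat_lit 237312) (nat_lit 0) .nil)))))))) (.g (nat_lit 4) .nil .nil))) 
(.lf (nat_lit 115274) (.g (nat_lit 2392) (.e (nat_lit 5937) (nat_lit 322) (.e (nat_lit 57378) (nat_lit 3) (.e (nat_lit 98373) (nat_lit 29) (.e (nat_lit 450603) (nat_lit 22) .nil)))) .nil))) (.nd (nat_lit 6) 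
(.lf (nat_lit 115242) (.g (nat_lit 1668) (.e (nat_lit 5937) (nat_lit 322) (.e (nat_lit 57375) (nat_lit 2) (.e (nat_lit 90185) (nat_lit 17) (.e (nat_lit 237605) (nat_lit 9) (.e (nat_lit 426566) (nat_lit 34) .nil))))) .nil)) 
(.lf (nat_lit 115306) (.g (nat_lit 1770) (.e (nat_lit 5937) (nat_lit 322) (.e (nat_lit 57379) (nat_lit 3) (.e (nat_lit 98369) (nat_lit 28) (.e (nat_lit 442390) (nat_lit 11) (.e (nat_lit 336387) (nat_lit 27) (.e (nat_lit 426031) (nat_lit 0) (.e (nat_lit 2466) (nat_lit 157) .nil))))))) (.g (nat_lit 5) .nil .nil))))) (.nd (nat_lit 5) (.nd (nat_lit 6) 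
(.lf (nat_lit 115226) (.g (nat_lit 2533) (.e (nat_lit 5937) (nat_lit 322) (.e (nat_lit 57375) (nat_lit 2) (.e (nat_lit 90172) (nat_lit 14) (.e (nat_lit 180244) (nat_lit 5) (.e (nat_lit 532513) (nat_lit 3) (.e (nat_lit 114714) (nat_lit 22) (.e (nat_lit 90181) (nat_lit 16) (.e (nat_lit 237312) (nat_lit 0) .nil)))))))) (.g (nat_lit 4) .nil .nil))) 
(.lf (nat_lit 115290) (.g (nat_lit 2058) (.e (nat_lit 5937) (nat_lit 322) (.e (nat_lit 57379) (nat_lit 3) (.e (nat_lit 98365) (nat_lit 26) (.e (nat_lit 426187) (nat_lit 9) (.e (nat_lit 426566) (nat_lit 34) (.e (nat_lit 393235) (nat_lit 17) (.e (nat_lit 2466) (nat_lit 157) .nil))))))) (.g (nat_lit 4) .nil .nil)))) (.nd (nat_lit 6) 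
(.lf (nat_lit 115258) (.g (nat_lit 2205) (.e (nat_lit 5937) (nat_lit 322) (.e (nat_lit 57378) (nat_lit 3) (.e (nat_lit 98365) (nat_lit 26) (.e (nat_lit 426187) (nat_lit 9) (.e (nat_lit 426566) (nat_lit 34) (.e (nat_lit 393237) (nat_lit 17) (.e (nat_lit 2466) (nat_lit 157) .nil))))))) (.g (nat_lit 4) .nil .nil))) 
(.lf (nat_lit 115322) (.g (nat_lit 2136) (.e (nat_lit 5937) (nat_lit 322) (.e (nat_lit 57379) (nat_lit 3) (.e (nat_lit 98373) (nat_lit 29) (.e (nat_lit 450604) (nat_lit 22) .nil)))) .nil)))))) (.nd (nat_lit 3) (.nd (nat_lit 4) (.nd (nat_lit 5) (.nd (nat_lit 6) 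
(.lf (nat_lit 115206) (.g (nat_lit 3042) (.e (nat_lit 5937) (nat_lit 322) (.e (nat_lit 57374) (nat_lit 2) (.e (nat_lit 90170) (nat_lit 13) (.e (nat_lit 172065) (nat_lit 3) (.e (nat_lit 204838) (nat_lit 20) (.e (nat_lit 114716) (nat_lit 22) (.e (nat_lit 90181) (nat_lit 16) (.e (nat_lit 229376) (nat_lit 0) .nil)))))))) (.g (nat_lit 4) .nil .nil))) 
(.lf (nat_lit 115270) (.g (nat_lit 801) (.e (nat_lit 5937) (nat_lit 322) (.e (nat_lit 57378) (nat_lit 3) (.e (nat_lit 98372) (nat_lit 29) .nil))) .nil))) (.nd (nat_lit 6) 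
(.lf (nat_lit 115238) (.g (nat_lit 2216) (.e (nat_lit 5937) (nat_lit 322) (.e (nat_lit 57375) (nat_lit 2) (.e (nat_lit 90178) (nat_lit 15) (.e (nat_lit 188461) (nat_lit 26) (.e (nat_lit 261888) (nat_lit 5) .nil))))) .nil)) 
(.lf (nat_lit 115302) (.g (nat_lit 1687) (.e (nat_lit 5937) (nat_lit 322) (.e (nat_lit 57379) (nat_lit 3) (.e (nat_lit 98365) (nat_lit 26) (.e (nat_lit 426334) (nat_lit 13) .nil)))) .nil)))) (.nd (nat_lit 5) (.nd (nat_lit 6) 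
(.lf (nat_lit 115222) (.g (nat_lit 2653) (.e (nat_lit 5937) (nat_lit 322) (.e (nat_lit 57375) (nat_lit 2) (.e (nat_lit 90172) (nat_lit 14) (.e (nat_lit 180244) (nat_lit 5) (.e (nat_lit 532508) (nat_lit 2) .nil))))) .nil)) 
(.lf (nat_lit 115286) (.g (nat_lit 1541) (.e (nat_lit 5937) (nat_lit 322) (.e (nat_lit 57379) (nat_lit 3) (.e (nat_lit 98365) (nat_lit 26) (.e (nat_lit 426187) (nat_lit 9) .nil)))) .nil))) (.nd (nat_lit 6) 
(.lf (nat_lit 115254) (.g (nat_lit 751) (.e (nat_lit 5937) (nat_lit 322) (.e (nat_lit 57378) (nat_lit 3) (.e (nat_lit 98365) (nat_lit 26) .nil))) .nil)) 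
(.lf (nat_lit 115318) (.g (nat_lit 3396) (.e (nat_lit 5937) (nat_lit 322) (.e (nat_lit 57379) (nat_lit 3) (.e (nat_lit 98373) (nat_lit 29) (.e (nat_lit 450563) (nat_lit 0) (.e (nat_lit 6595) (nat_lit 351) .nil))))) .nil))))) (.nd (nat_lit 4) (.nd (nat_lit 5) (.nd (nat_lit 6) 
(.lf (nat_lit 115214) (.g (nat_lit 2166) (.e (nat_lit 5937) (nat_lit 322) (.e (nat_lit 57374) (nat_lit 2) (.e (nat_lit 90170) (nat_lit 13) (.e (nat_lit 172123) (nat_lit 13) (.e (nat_lit 491264) (nat_lit 10) (.e (nat_lit 442112) (nat_lit 18) .nil)))))) (.g (nat_lit 4) .nil .nil))) 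
(.lf (nat_lit 115278) (.g (nat_lit 1865) (.e (nat_lit 5937) (nat_lit 322) (.e (nat_lit 57378) (nat_lit 3) (.e (nat_lit 98376) (nat_lit 30) (.e (nat_lit 458789) (nat_lit 23) (.e (nat_lit 532515) (nat_lit 3) (.e (nat_lit 114716) (nat_lit 22) (.e (nat_lit 90181) (nat_lit 16) (.e (nat_lit 237312) (nat_lit 0) .nil)))))))) (.g (nat_lit 4) .nil .nil)))) (.nd (nat_lit 6) 
(.lf (nat_lit 115246) (.g (nat_lit 1576) (.e (nat_lit 5937) (nat_lit 322) (.e (nat_lit 57375) (nat_lit 2) (.e (nat_lit 90185) (nat_lit 17) (.e (nat_lit 237621) (nat_lit 13) (.e (nat_lit 491264) (nat_lit 10) (.e (nat_lit 442112) (nat_lit 18) .nil)))))) (.g (nat_lit 4) .nil .nil))) 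
(.lf (nat_lit 115310) (.g (nat_lit 1883) (.e (nat_lit 5937) (nat_lit 322) (.e (nat_lit 57379) (nat_lit 3) (.e (nat_lit 98372) (nat_lit 29) (.e (nat_lit 450561) (nat_lit 0) (.e (nat_lit 6595) (nat_lit 351) .nil))))) .nil)))) (.nd (nat_lit 5) (.nd (nat_lit 6) 
(.lf (nat_lit 115230) (.g (nat_lit 2023) (.e (nat_lit 5937) (nat_lit 322) (.e (nat_lit 57375) (nat_lit 2) (.e (nat_lit 90174) (nat_lit 14) (.e (nat_lit 180243) (nat_lit 5) (.e (nat_lit 532508) (nat_lit 2) .nil))))) .nil)) 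
(.lf (nat_lit 115294) (.g (nat_lit 2128) (.e (nat_lit 5937) (nat_lit 322) (.e (nat_lit 57379) (nat_lit 3) (.e (nat_lit 98365) (nat_lit 26) (.e (nat_lit 426188) (nat_lit 9) (.e (nat_lit 426566) (nat_lit 34) .nil))))) .nil))) (.nd (nat_lit 6) 
(.lf (nat_lit 115262) (.g (nat_lit 2463) (.e (nat_lit 5937) (nat_lit 322) (.e (nat_lit 57378) (nat_lit 3) (.e (nat_lit 98365) (nat_lit 26) (.e (nat_lit 426188) (nat_lit 9) (.e (nat_lit 426566) (nat_lit 34) (.e (nat_lit 393231) (nat_lit 17) (.e (nat_lit 2466) (nat_lit 157) .nil))))))) (.g (nat_lit 4) .nil .nil))) 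
(.lf (nat_lit 115326) (.g (nat_lit 2273) (.e (nat_lit 5937) (nat_lit 322) (.e (nat_lit 57379) (nat_lit 3) (.e (nat_lit 98376) (nat_lit 30) (.e (nat_lit 458789) (nat_lit 23) (.e (nat_lit 532515) (nat_lit 3) (.e (nat_lit 114716) (nat_lit 22) (.e (nat_lit 90181) (nat_lit 16) (.e (nat_lit 237312) (nat_lit 0) .nil)))))))) (.g (nat_lit 6) .nil .nil))))))))) 
(.nd (nat_lit 1) (.nd (nat_lit 2) (.nd (nat_lit 3) (.nd (nat_lit 4) (.nd (nat_lit 5) 
(.nd (nat_lit 6) 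
(.lf (nat_lit 115201) (.g (nat_lit 1848) (.e (nat_lit 5937) (nat_lit 322) (.e (nat_lit 57373) (nat_lit 2) (.e (nat_lit 90185) (nat_lit 17) (.e (nat_lit 237623) (nat_lit 13) .nil)))) .nil)) 
(.lf (nat_lit 115265) (.g (nat_lit 2633) (.e (nat_lit 5937) (nat_lit 322) (.e (nat_lit 57378) (nat_lit 3) (.e (nat_lit 98367) (nat_lit 27) (.e (nat_lit 434247) (nat_lit 28) (.e (nat_lit 573489) (nat_lit 14) .nil))))) .nil))) (.nd (nat_lit 6) 
(.lf (nat_lit 115233) (.g (nat_lit 1363) (.e (nat_lit 5937) (nat_lit 322) (.e (nat_lit 57375) (nat_lit 2) (.e (nat_lit 90176) (nat_lit 15) (.e (nat_lit 196352) (nat_lit 18) .nil)))) .nil)) 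
(.lf (nat_lit 115297) (.g (nat_lit 2272) (.e (nat_lit 5937) (nat_lit 322) (.e (nat_lit 57379) (nat_lit 3) (.e (nat_lit 98365) (nat_lit 26) (.e (nat_lit 426188) (nat_lit 9) (.e (nat_lit 426568) (nat_lit 34) .nil))))) .nil)))) (.nd (nat_lit 5) (.nd (nat_lit 6) 
(.lf (nat_lit 115217) (.g (nat_lit 2270) (.e (nat_lit 5937) (nat_lit 322) (.e (nat_lit 57375) (nat_lit 2) (.e (nat_lit 90172) (nat_lit 14) (.e (nat_lit 180243) (nat_lit 5) (.e (nat_lit 532513) (nat_lit 3) .nil))))) .nil)) 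
(.lf (nat_lit 115281) (.g (nat_lit 2090) (.e (nat_lit 5937) (nat_lit 322) (.e (nat_lit 57378) (nat_lit 3) (.e (nat_lit 98377) (nat_lit 30) (.e (nat_lit 458789) (nat_lit 23) (.e (nat_lit 532515) (nat_lit 3) (.e (nat_lit 114716) (nat_lit 22) (.e (nat_lit 90181) (nat_lit 16) (.e (nat_lit 237312) (nat_lit 0) .nil)))))))) (.g (nat_lit 4) .nil .nil)))) (.nd (nat_lit 6) 
(.lf (nat_lit 115249) (.g (nat_lit 1223) (.e (nat_lit 5937) (nat_lit 322) (.e (nat_lit 57377) (nat_lit 3) (.e (nat_lit 98365) (nat_lit 26) (.e (nat_lit 426187) (nat_lit 9) .nil)))) .nil)) 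
(.lf (nat_lit 115313) (.g (nat_lit 1419) (.e (nat_lit 5937) (nat_lit 322) (.e (nat_lit 57379) (nat_lit 3) (.e (nat_lit 98372) (nat_lit 29) (.e (nat_lit 458496) (nat_lit 22) .nil)))) .nil))))) (.nd (nat_lit 4) (.nd (nat_lit 5) (.nd (nat_lit 6) 
(.lf (nat_lit 115209) (.g (nat_lit 3176) (.e (nat_lit 5937) (nat_lit 322) (.e (nat_lit 57374) (nat_lit 2) (.e (nat_lit 90170) (nat_lit 13) (.e (nat_lit 172067) (nat_lit 3) (.e (nat_lit 204838) (nat_lit 20) (.e (nat_lit 114716) (nat_lit 22) (.e (nat_lit 90181) (nat_lit 16) (.e (nat_lit 229376) (nat_lit 0) .nil)))))))) (.g (nat_lit 5) .nil .nil))) 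
(.lf (nat_lit 115273) (.g (nat_lit 2203) (.e (nat_lit 5937) (nat_lit 322) (.e (nat_lit 57378) (nat_lit 3) (.e (nat_lit 98373) (nat_lit 29) (.e (nat_lit 450602) (nat_lit 22) .nil)))) .nil))) (.nd (nat_lit 6) 
(.lf (nat_lit 115241) (.g (nat_lit 1307) (.e (nat_lit 5937) (nat_lit 322) (.e (nat_lit 57375) (nat_lit 2) (.e (nat_lit 90185) (nat_lit 17) (.e (nat_lit 237605) (nat_lit 9) .nil)))) .nil)) 
(.lf (nat_lit 115305) (.g (nat_lit 2308) (.e (nat_lit 5937) (nat_lit 322) (.e (nat_lit 57379) (nat_lit 3) (.e (nat_lit 98367) (nat_lit 27) (.e (nat_lit 434247) (nat_lit 28) (.e (nat_lit 573489) (nat_lit 14) .nil))))) .nil)))) (.nd (nat_lit 5) (.nd (nat_lit 6) 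
(.lf (nat_lit 115225) (.g (nat_lit 3599) (.e (nat_lit 5937) (nat_lit 322) (.e (nat_lit 57375) (nat_lit 2) (.e (nat_lit 90172) (nat_lit 14) (.e (nat_lit 180244) (nat_lit 5) (.e (nat_lit 532513) (nat_lit 3) (.e (nat_lit 114714) (nat_lit 22) (.e (nat_lit 90181) (nat_lit 16) (.e (nat_lit 229376) (nat_lit 0) .nil)))))))) (.g (nat_lit 5) .nil .nil))) 
(.lf (nat_lit 115289) (.g (nat_lit 2057) (.e (nat_lit 5937) (nat_lit 322) (.e (nat_lit 57379) (nat_lit 3) (.e (nat_lit 98365) (nat_lit 26) (.e (nat_lit 426187) (nat_lit 9) (.e (nat_lit 426566) (nat_lit 34) (.e (nat_lit 393231) (nat_lit 17) (.e (nat_lit 2466) (nat_lit 157) .nil))))))) (.g (nat_lit 4) .nil .nil)))) (.nd (nat_lit 6) 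
(.lf (nat_lit 115257) (.g (nat_lit 2119) (.e (nat_lit 5937) (nat_lit 322) (.e (nat_lit 57378) (nat_lit 3) (.e (nat_lit 98365) (nat_lit 26) (.e (nat_lit 426187) (nat_lit 9) (.e (nat_lit 426566) (nat_lit 34) .nil))))) .nil)) 
(.lf (nat_lit 115321) (.g (nat_lit 2040) (.e (nat_lit 5937) (nat_lit 322) (.e (nat_lit 57379) (nat_lit 3) (.e (nat_lit 98373) (nat_lit 29) (.e (nat_lit 450603) (nat_lit 22) .nil)))) .nil)))))) (.nd (nat_lit 3) (.nd (nat_lit 4) (.nd (nat_lit 5) (.nd (nat_lit 6) 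
(.lf (nat_lit 115205) (.g (nat_lit 2709) (.e (nat_lit 5937) (nat_lit 322) (.e (nat_lit 57374) (nat_lit 2) (.e (nat_lit 90170) (nat_lit 13) (.e (nat_lit 172065) (nat_lit 3) (.e (nat_lit 204838) (nat_lit 20) .nil))))) .nil)) 
(.lf (nat_lit 115269) (.g (nat_lit 1293) (.e (nat_lit 5937) (nat_lit 322) (.e (nat_lit 57378) (nat_lit 3) (.e (nat_lit 98370) (nat_lit 28) (.e (nat_lit 450304) (nat_lit 18) .nil)))) .nil))) (.nd (nat_lit 6) 
(.lf (nat_lit 115237) (.g (nat_lit 1392) (.e (nat_lit 5937) (nat_lit 322) (.e (nat_lit 57375) (nat_lit 2) (.e (nat_lit 90178) (nat_lit 15) (.e (nat_lit 196352) (nat_lit 18) .nil)))) .nil)) 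
(.lf (nat_lit 115301) (.g (nat_lit 2234) (.e (nat_lit 5937) (nat_lit 322) (.e (nat_lit 57379) (nat_lit 3) (.e (nat_lit 98365) (nat_lit 26) (.e (nat_lit 426327) (nat_lit 13) (.e (nat_lit 491264) (nat_lit 10) .nil))))) .nil)))) (.nd (nat_lit 5) (.nd (nat_lit 6) 
(.lf (nat_lit 115221) (.g (nat_lit 3081) (.e (nat_lit 5937) (nat_lit 322) (.e (nat_lit 57375) (nat_lit 2) (.e (nat_lit 90172) (nat_lit 14) (.e (nat_lit 180243) (nat_lit 5) (.e (nat_lit 532515) (nat_lit 3) (.e (nat_lit 114716) (nat_lit 22) (.e (nat_lit 90181) (nat_lit 16) (.e (nat_lit 229376) (nat_lit 0) .nil)))))))) (.g (nat_lit 5) .nil .nil))) 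
(.lf (nat_lit 115285) (.g (nat_lit 1280) (.e (nat_lit 5937) (nat_lit 322) (.e (nat_lit 57379) (nat_lit 3) (.e (nat_lit 98363) (nat_lit 26) (.e (nat_lit 426230) (nat_lit 9) (.e (nat_lit 426565) (nat_lit 34) .nil))))) .nil))) (.nd (nat_lit 6) 
(.lf (nat_lit 115253) (.g (nat_lit 566) (.e (nat_lit 5937) (nat_lit 322) (.e (nat_lit 57378) (nat_lit 3) (.e (nat_lit 98363) (nat_lit 26) .nil))) .nil)) 
(.lf (nat_lit 115317) (.g (nat_lit 3591) (.e (nat_lit 5937) (nat_lit 322) (.e (nat_lit 57379) (nat_lit 3) (.e (nat_lit 98373) (nat_lit 29) (.e (nat_lit 450562) (nat_lit 0) (.e (nat_lit 6595) (nat_lit 351) (.e (nat_lit 2638) (nat_lit 165) (.e (nat_lit 188160) (nat_lit 0) .nil))))))) (.g (nat_lit 5) .nil .nil)))))) (.nd (nat_lit 4) (.nd (nat_lit 5) (.nd (nat_lit 6) 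
(.lf (nat_lit 115213) (.g (nat_lit 2133) (.e (nat_lit 5937) (nat_lit 322) (.e (nat_lit 57374) (nat_lit 2) (.e (nat_lit 90170) (nat_lit 13) (.e (nat_lit 172123) (nat_lit 13) (.e (nat_lit 491264) (nat_lit 10) .nil))))) .nil)) 
(.lf (nat_lit 115277) (.g (nat_lit 1721) (.e (nat_lit 5937) (nat_lit 322) (.e (nat_lit 57378) (nat_lit 3) (.e (nat_lit 98376) (nat_lit 30) (.e (nat_lit 458789) (nat_lit 23) (.e (nat_lit 532515) (nat_lit 3) .nil))))) .nil))) (.nd (nat_lit 6) 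
(.lf (nat_lit 115245) (.g (nat_lit 1852) (.e (nat_lit 5937) (nat_lit 322) (.e (nat_lit 57375) (nat_lit 2) (.e (nat_lit 90185) (nat_lit 17) (.e (nat_lit 237605) (nat_lit 9) (.e (nat_lit 426566) (nat_lit 34) (.e (nat_lit 393239) (nat_lit 17) (.e (nat_lit 2466) (nat_lit 157) .nil))))))) (.g (nat_lit 4) .nil .nil))) 
(.lf (nat_lit 115309) (.g (nat_lit 1293) (.e (nat_lit 5937) (nat_lit 322) (.e (nat_lit 57379) (nat_lit 3) (.e (nat_lit 98370) (nat_lit 28) (.e (nat_lit 450304) (nat_lit 18) .nil)))) .nil)))) (.nd (nat_lit 5) (.nd (nat_lit 6) 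
(.lf (nat_lit 115229) (.g (nat_lit 3853) (.e (nat_lit 5937) (nat_lit 322) (.e (nat_lit 57375) (nat_lit 2) (.e (nat_lit 90172) (nat_lit 14) (.e (nat_lit 180244) (nat_lit 5) (.e (nat_lit 532515) (nat_lit 3) (.e (nat_lit 114716) (nat_lit 22) (.e (nat_lit 90181) (nat_lit 16) (.e (nat_lit 237312) (nat_lit 0) .nil)))))))) (.g (nat_lit 7) .nil .nil))) 
(.lf (nat_lit 115293) (.g (nat_lit 2412) (.e (nat_lit 5937) (nat_lit 322) (.e (nat_lit 57379) (nat_lit 3) (.e (nat_lit 98365) (nat_lit 26) (.e (nat_lit 426188) (nat_lit 9) (.e (nat_lit 426479) (nat_lit 27) .nil))))) .nil))) (.nd (nat_lit 6) 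
(.lf (nat_lit 115261) (.g (nat_lit 2411) (.e (nat_lit 5937) (nat_lit 322) (.e (nat_lit 57378) (nat_lit 3) (.e (nat_lit 98365) (nat_lit 26) (.e (nat_lit 426188) (nat_lit 9) (.e (nat_lit 426566) (nat_lit 34) .nil))))) .nil)) 
(.lf (nat_lit 115325) (.g (nat_lit 2622) (.e (nat_lit 5937) (nat_lit 322) (.e (nat_lit 57379) (nat_lit 3) (.e (nat_lit 98376) (nat_lit 30) (.e (nat_lit 458789) (nat_lit 23) (.e (nat_lit 532515) (nat_lit 3) (.e (nat_lit 114716) (nat_lit 22) (.e (nat_lit 90181) (nat_lit 16) (.e (nat_lit 229376) (nat_lit 0) .nil)))))))) (.g (nat_lit 6) .nil .nil)))))))) 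
(.nd (nat_lit 2) (.nd (nat_lit 3) (.nd (nat_lit 4) (.nd (nat_lit 5) (.nd (nat_lit 6) 
(.lf (nat_lit 115203) (.g (nat_lit 2155) (.e (nat_lit 5937) (nat_lit 322) (.e (nat_lit 57374) (nat_lit 2) (.e (nat_lit 90170) (nat_lit 13) (.e (nat_lit 172065) (nat_lit 3) .nil)))) .nil)) 
(.lf (nat_lit 115267) (.g (nat_lit 2268) (.e (nat_lit 5937) (nat_lit 322) (.e (nat_lit 57378) (nat_lit 3) (.e (nat_lit 98368) (nat_lit 27) (.e (nat_lit 434247) (nat_lit 28) (.e (nat_lit 573489) (nat_lit 14) .nil))))) .nil))) (.nd (nat_lit 6) 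
(.lf (nat_lit 115235) (.g (nat_lit 1764) (.e (nat_lit 5937) (nat_lit 322) (.e (nat_lit 57375) (nat_lit 2) (.e (nat_lit 90177) (nat_lit 15) (.e (nat_lit 188461) (nat_lit 26) (.e (nat_lit 261888) (nat_lit 5) .nil))))) .nil)) 
(.lf (nat_lit 115299) (.g (nat_lit 2254) (.e (nat_lit 5937) (nat_lit 322) (.e (nat_lit 57379) (nat_lit 3) (.e (nat_lit 98365) (nat_lit 26) (.e (nat_lit 426325) (nat_lit 13) (.e (nat_lit 491264) (nat_lit 10) (.e (nat_lit 442112) (nat_lit 18) .nil)))))) (.g (nat_lit 4) .nil .nil))))) (.nd (nat_lit 5) (.nd (nat_lit 6) 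
(.lf (nat_lit 115219) (.g (nat_lit 3258) (.e (nat_lit 5937) (nat_lit 322) (.e (nat_lit 57375) (nat_lit 2) (.e (nat_lit 90172) (nat_lit 14) (.e (nat_lit 180243) (nat_lit 5) (.e (nat_lit 532513) (nat_lit 3) (.e (nat_lit 114714) (nat_lit 22) (.e (nat_lit 90181) (nat_lit 16) (.e (nat_lit 229376) (nat_lit 0) .nil)))))))) (.g (nat_lit 5) .nil .nil))) 
(.lf (nat_lit 115283) (.g (nat_lit 1402) (.e (nat_lit 5937) (nat_lit 322) (.e (nat_lit 57378) (nat_lit 3) (.e (nat_lit 98381) (nat_lit 31) (.e (nat_lit 474880) (nat_lit 18) .nil)))) .nil))) (.nd (nat_lit 6) 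
(.lf (nat_lit 115251) (.g (nat_lit 1776) (.e (nat_lit 5937) (nat_lit 322) (.e (nat_lit 57377) (nat_lit 3) (.e (nat_lit 98365) (nat_lit 26) (.e (nat_lit 426188) (nat_lit 9) (.e (nat_lit 426566) (nat_lit 34) .nil))))) .nil)) 
(.lf (nat_lit 115315) (.g (nat_lit 3267) (.e (nat_lit 5937) (nat_lit 322) (.e (nat_lit 57379) (nat_lit 3) (.e (nat_lit 98373) (nat_lit 29) (.e (nat_lit 450562) (nat_lit 0) (.e (nat_lit 6595) (nat_lit 351) .nil))))) .nil))))) (.nd (nat_lit 4) (.nd (nat_lit 5) (.nd (nat_lit 6) 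
(.lf (nat_lit 115211) (.g (nat_lit 2122) (.e (nat_lit 5937) (nat_lit 322) (.e (nat_lit 57374) (nat_lit 2) (.e (nat_lit 90170) (nat_lit 13) (.e (nat_lit 172113) (nat_lit 10) .nil)))) .nil)) 
(.lf (nat_lit 115275) (.g (nat_lit 2438) (.e (nat_lit 5937) (nat_lit 322) (.e (nat_lit 57378) (nat_lit 3) (.e (nat_lit 98373) (nat_lit 29) (.e (nat_lit 450604) (nat_lit 22) .nil)))) .nil))) (.nd (nat_lit 6) 
(.lf (nat_lit 115243) (.g (nat_lit 1735) (.e (nat_lit 5937) (nat_lit 322) (.e (nat_lit 57375) (nat_lit 2) (.e (nat_lit 90185) (nat_lit 17) (.e (nat_lit 237605) (nat_lit 9) (.e (nat_lit 426566) (nat_lit 34) (.e (nat_lit 393231) (nat_lit 17) (.e (nat_lit 2466) (nat_lit 157) .nil))))))) (.g (nat_lit 4) .nil .nil))) 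
(.lf (nat_lit 115307) (.g (nat_lit 996) (.e (nat_lit 5937) (nat_lit 322) (.e (nat_lit 57379) (nat_lit 3) (.e (nat_lit 98369) (nat_lit 28) (.e (nat_lit 450304) (nat_lit 18) .nil)))) .nil)))) (.nd (nat_lit 5) (.nd (nat_lit 6) 
(.lf (nat_lit 115227) (.g (nat_lit 2370) (.e (nat_lit 5937) (nat_lit 322) (.e (nat_lit 57375) (nat_lit 2) (.e (nat_lit 90172) (nat_lit 14) (.e (nat_lit 180244) (nat_lit 5) (.e (nat_lit 532515) (nat_lit 3) .nil))))) .nil)) 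
(.lf (nat_lit 115291) (.g (nat_lit 2050) (.e (nat_lit 5937) (nat_lit 322) (.e (nat_lit 57379) (nat_lit 3) (.e (nat_lit 98365) (nat_lit 26) (.e (nat_lit 426187) (nat_lit 9) (.e (nat_lit 426566) (nat_lit 34) (.e (nat_lit 393239) (nat_lit 17) (.e (nat_lit 2466) (nat_lit 157) .nil))))))) (.g (nat_lit 4) .nil .nil)))) (.nd (nat_lit 6) 
(.lf (nat_lit 115259) (.g (nat_lit 1793) (.e (nat_lit 5937) (nat_lit 322) (.e (nat_lit 57378) (nat_lit 3) (.e (nat_lit 98365) (nat_lit 26) (.e (nat_lit 426188) (nat_lit 9) .nil)))) .nil)) 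
(.lf (nat_lit 115323) (.g (nat_lit 1628) (.e (nat_lit 5937) (nat_lit 322) (.e (nat_lit 57379) (nat_lit 3) (.e (nat_lit 98373) (nat_lit 29) (.e (nat_lit 458496) (nat_lit 22) .nil)))) .nil)))))) (.nd (nat_lit 3) (.nd (nat_lit 4) (.nd (nat_lit 5) (.nd (nat_lit 6) 
(.lf (nat_lit 115207) (.g (nat_lit 1766) (.e (nat_lit 5937) (nat_lit 322) (.e (nat_lit 57374) (nat_lit 2) (.e (nat_lit 90170) (nat_lit 13) (.e (nat_lit 172067) (nat_lit 3) .nil)))) .nil)) 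
(.lf (nat_lit 115271) (.g (nat_lit 4141) (.e (nat_lit 5937) (nat_lit 322) (.e (nat_lit 57378) (nat_lit 3) (.e (nat_lit 98373) (nat_lit 29) (.e (nat_lit 450562) (nat_lit 0) (.e (nat_lit 6595) (nat_lit 351) .nil))))) .nil))) (.nd (nat_lit 6) 
(.lf (nat_lit 115239) (.g (nat_lit 1370) (.e (nat_lit 5937) (nat_lit 322) (.e (nat_lit 57375) (nat_lit 2) (.e (nat_lit 90185) (nat_lit 17) (.e (nat_lit 237601) (nat_lit 9) .nil)))) .nil)) 
(.lf (nat_lit 115303) (.g (nat_lit 1543) (.e (nat_lit 5937) (nat_lit 322) (.e (nat_lit 57379) (nat_lit 3) (.e (nat_lit 98366) (nat_lit 27) (.e (nat_lit 434247) (nat_lit 28) .nil)))) .nil)))) (.nd (nat_lit 5) (.nd (nat_lit 6) 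
(.lf (nat_lit 115223) (.g (nat_lit 2397) (.e (nat_lit 5937) (nat_lit 322) (.e (nat_lit 57375) (nat_lit 2) (.e (nat_lit 90172) (nat_lit 14) (.e (nat_lit 180244) (nat_lit 5) (.e (nat_lit 532513) (nat_lit 3) .nil))))) .nil)) 
(.lf (nat_lit 115287) (.g (nat_lit 1967) (.e (nat_lit 5937) (nat_lit 322) (.e (nat_lit 57379) (nat_lit 3) (.e (nat_lit 98365) (nat_lit 26) (.e (nat_lit 426187) (nat_lit 9) (.e (nat_lit 426479) (nat_lit 27) .nil))))) .nil))) (.nd (nat_lit 6) 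
(.lf (nat_lit 115255) (.g (nat_lit 1799) (.e (nat_lit 5937) (nat_lit 322) (.e (nat_lit 57378) (nat_lit 3) (.e (nat_lit 98365) (nat_lit 26) (.e (nat_lit 426187) (nat_lit 9) .nil)))) .nil)) 
(.lf (nat_lit 115319) (.g (nat_lit 3514) (.e (nat_lit 5937) (nat_lit 322) (.e (nat_lit 57379) (nat_lit 3) (.e (nat_lit 98373) (nat_lit 29) (.e (nat_lit 450563) (nat_lit 0) (.e (nat_lit 6595) (nat_lit 351) (.e (nat_lit 2638) (nat_lit 165) (.e (nat_lit 180224) (nat_lit 0) .nil))))))) (.g (nat_lit 4) .nil .nil)))))) (.nd (nat_lit 4) (.nd (nat_lit 5) (.nd (nat_lit 6) 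
(.lf (nat_lit 115215) (.g (nat_lit 807) (.e (nat_lit 5937) (nat_lit 322) (.e (nat_lit 57375) (nat_lit 2) (.e (nat_lit 90172) (nat_lit 14) .nil))) .nil)) 
(.lf (nat_lit 115279) (.g (nat_lit 2033) (.e (nat_lit 5937) (nat_lit 322) (.e (nat_lit 57378) (nat_lit 3) (.e (nat_lit 98377) (nat_lit 30) (.e (nat_lit 458789) (nat_lit 23) (.e (nat_lit 532515) (nat_lit 3) .nil))))) .nil))) (.nd (nat_lit 6) 
(.lf (nat_lit 115247) (.g (nat_lit 1662) (.e (nat_lit 5937) (nat_lit 322) (.e (nat_lit 57375) (nat_lit 2) (.e (nat_lit 90185) (nat_lit 17) (.e (nat_lit 237624) (nat_lit 13) (.e (nat_lit 491264) (nat_lit 10) (.e (nat_lit 442112) (nat_lit 18) .nil)))))) (.g (nat_lit 4) .nil .nil))) 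
(.lf (nat_lit 115311) (.g (nat_lit 1627) (.e (nat_lit 5937) (nat_lit 322) (.e (nat_lit 57379) (nat_lit 3) (.e (nat_lit 98372) (nat_lit 29) (.e (nat_lit 450602) (nat_lit 22) .nil)))) .nil)))) (.nd (nat_lit 5) (.nd (nat_lit 6) 
(.lf (nat_lit 115231) (.g (nat_lit 2181) (.e (nat_lit 5937) (nat_lit 322) (.e (nat_lit 57375) (nat_lit 2) (.e (nat_lit 90174) (nat_lit 14) (.e (nat_lit 180243) (nat_lit 5) (.e (nat_lit 532508) (nat_lit 2) (.e (nat_lit 106517) (nat_lit 9) (.e (nat_lit 1255) (nat_lit 92) (.e (nat_lit 98322) (nat_lit 17) (.e (nat_lit 2466) (nat_lit 157) .nil))))))))) (.g (nat_lit 4) .nil .nil))) 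
(.lf (nat_lit 115295) (.g (nat_lit 2278) (.e (nat_lit 5937) (nat_lit 322) (.e (nat_lit 57379) (nat_lit 3) (.e (nat_lit 98365) (nat_lit 26) (.e (nat_lit 426188) (nat_lit 9) (.e (nat_lit 426566) (nat_lit 34) (.e (nat_lit 393235) (nat_lit 17) (.e (nat_lit 2466) (nat_lit 157) .nil))))))) (.g (nat_lit 4) .nil .nil)))) (.nd (nat_lit 6) 
(.lf (nat_lit 115263) (.g (nat_lit 2616) (.e (nat_lit 5937) (nat_lit 322) (.e (nat_lit 57378) (nat_lit 3) (.e (nat_lit 98365) (nat_lit 26) (.e (nat_lit 426188) (nat_lit 9) (.e (nat_lit 426566) (nat_lit 34) (.e (nat_lit 393239) (nat_lit 17) (.e (nat_lit 2466) (nat_lit 157) .nil))))))) (.g (nat_lit 4) .nil .nil))) 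
(.lf (nat_lit 115327) (.g (nat_lit 1992) (.e (nat_lit 5937) (nat_lit 322) (.e (nat_lit 57379) (nat_lit 3) (.e (nat_lit 98377) (nat_lit 30) (.e (nat_lit 458789) (nat_lit 23) (.e (nat_lit 532515) (nat_lit 3) (.e (nat_lit 114715) (nat_lit 22) (.e (nat_lit 90165) (nat_lit 12) (.e (nat_lit 171776) (nat_lit 0) .nil)))))))) (.g (nat_lit 5) .nil .nil))))))))))

noncomputable def tv1553 : DT := (.nd (nat_lit 0) (.nd (nat_lit 1) (.nd (nat_lit 2) (.nd (nat_lit 3) (.nd (nat_lit 4) (.nd (nat_lit 5) 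
(.lf (nat_lit 115328) (.g (nat_lit 2708) (.e (nat_lit 5937) (nat_lit 322) (.e (nat_lit 57379) (nat_lit 3) (.e (nat_lit 98377) (nat_lit 30) (.e (nat_lit 458789) (nat_lit 23) (.e (nat_lit 532515) (nat_lit 3) (.e (nat_lit 114716) (nat_lit 22) (.e (nat_lit 90181) (nat_lit 16) (.e (nat_lit 229376) (nat_lit 0) .nil)))))))) (.g (nat_lit 6) .nil .nil))) 
(.lf (nat_lit 115360) (.g (nat_lit 1876) (.e (nat_lit 5937) (nat_lit 322) (.e (nat_lit 57410) (nat_lit 12) (.e (nat_lit 336208) (nat_lit 12) (.e (nat_lit 385104) (nat_lit 50) (.e (nat_lit 786481) (nat_lit 30) (.e (nat_lit 368384) (nat_lit 0) .nil)))))) (.g (nat_lit 5) .nil .nil)))) (.nd (nat_lit 5) 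
(.lf (nat_lit 115344) (.g (nat_lit 2300) (.e (nat_lit 5937) (nat_lit 322) (.e (nat_lit 57407) (nat_lit 12) (.e (nat_lit 336208) (nat_lit 12) (.e (nat_lit 385106) (nat_lit 50) (.e (nat_lit 786483) (nat_lit 30) .nil))))) .nil)) 
(.lf (nat_lit 115376) (.g (nat_lit 797) (.e (nat_lit 5937) (nat_lit 322) (.e (nat_lit 57411) (nat_lit 12) (.e (nat_lit 336207) (nat_lit 12) .nil))) .nil)))) (.nd (nat_lit 4) (.nd (nat_lit 5) 
(.lf (nat_lit 115336) (.g (nat_lit 1562) (.e (nat_lit 5937) (nat_lit 322) (.e (nat_lit 57400) (nat_lit 10) (.e (nat_lit 319531) (nat_lit 16) (.e (nat_lit 286761) (nat_lit 13) (.e (nat_lit 393289) (nat_lit 25) (.e (nat_lit 466688) (nat_lit 18) .nil)))))) (.g (nat_lit 4) .nil .nil))) 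
(.lf (nat_lit 115368) (.g (nat_lit 519) (.e (nat_lit 5937) (nat_lit 322) (.e (nat_lit 57411) (nat_lit 12) (.e (nat_lit 336182) (nat_lit 11) .nil))) .nil))) (.nd (nat_lit 5) 
(.lf (nat_lit 115352) (.g (nat_lit 2866) (.e (nat_lit 5937) (nat_lit 322) (.e (nat_lit 57409) (nat_lit 12) (.e (nat_lit 336443) (nat_lit 32) (.e (nat_lit 466977) (nat_lit 22) (.e (nat_lit 196624) (nat_lit 9) .nil))))) .nil)) 
(.lf (nat_lit 115384) (.g (nat_lit 3027) (.e (nat_lit 5937) (nat_lit 322) (.e (nat_lit 57411) (nat_lit 12) (.e (nat_lit 336208) (nat_lit 12) (.e (nat_lit 385105) (nat_lit 50) (.e (nat_lit 786481) (nat_lit 30) (.e (nat_lit 368384) (nat_lit 0) .nil)))))) (.g (nat_lit 5) .nil .nil)))))) (.nd (nat_lit 3) (.nd (nat_lit 4) (.nd (nat_lit 5) 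
(.lf (nat_lit 115332) (.g (nat_lit 3137) (.e (nat_lit 5937) (nat_lit 322) (.e (nat_lit 57390) (nat_lit 5) (.e (nat_lit 114723) (nat_lit 24) (.e (nat_lit 106534) (nat_lit 11) (.e (nat_lit 16473) (nat_lit 14) (.e (nat_lit 491560) (nat_lit 10) (.e (nat_lit 352000) (nat_lit 18) .nil))))))) (.g (nat_lit 6) .nil .nil))) 
(.lf (nat_lit 115364) (.g (nat_lit 2229) (.e (nat_lit 5937) (nat_lit 322) (.e (nat_lit 57410) (nat_lit 12) (.e (nat_lit 336208) (nat_lit 12) (.e (nat_lit 385105) (nat_lit 50) (.e (nat_lit 786483) (nat_lit 30) (.e (nat_lit 368384) (nat_lit 0) .nil)))))) (.g (nat_lit 5) .nil .nil)))) (.nd (nat_lit 5) 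
(.lf (nat_lit 115348) (.g (nat_lit 727) (.e (nat_lit 5937) (nat_lit 322) (.e (nat_lit 57409) (nat_lit 12) (.e (nat_lit 336438) (nat_lit 31) .nil))) .nil)) 
(.lf (nat_lit 115380) (.g (nat_lit 2594) (.e (nat_lit 5937) (nat_lit 322) (.e (nat_lit 57411) (nat_lit 12) (.e (nat_lit 336208) (nat_lit 12) (.e (nat_lit 385103) (nat_lit 50) (.e (nat_lit 786481) (nat_lit 30) (.e (nat_lit 368384) (nat_lit 0) .nil)))))) (.g (nat_lit 5) .nil .nil))))) (.nd (nat_lit 4) (.nd (nat_lit 5) 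
(.lf (nat_lit 115340) (.g (nat_lit 1816) (.e (nat_lit 5937) (nat_lit 322) (.e (nat_lit 57403) (nat_lit 11) (.e (nat_lit 327698) (nat_lit 8) (.e (nat_lit 303145) (nat_lit 13) (.e (nat_lit 483401) (nat_lit 25) (.e (nat_lit 376576) (nat_lit 18) .nil)))))) (.g (nat_lit 5) .nil .nil))) 
(.lf (nat_lit 115372) (.g (nat_lit 2706) (.e (nat_lit 5937) (nat_lit 322) (.e (nat_lit 57411) (nat_lit 12) (.e (nat_lit 336182) (nat_lit 11) (.e (nat_lit 368695) (nat_lit 40) (.e (nat_lit 671748) (nat_lit 0) (.e (nat_lit 1595) (nat_lit 111) (.e (nat_lit 368384) (nat_lit 0) .nil))))))) (.g (nat_lit 6) .nil .nil)))) (.nd (nat_lit 5) 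
(.lf (nat_lit 115356) (.g (nat_lit 1796) (.e (nat_lit 5937) (nat_lit 322) (.e (nat_lit 57409) (nat_lit 12) (.e (nat_lit 336443) (nat_lit 32) (.e (nat_lit 466979) (nat_lit 23) .nil)))) .nil)) 
(.lf (nat_lit 115388) (.g (nat_lit 799) (.e (nat_lit 5937) (nat_lit 322) (.e (nat_lit 57411) (nat_lit 12) (.e (nat_lit 343808) (nat_lit 12) .nil))) .nil)))))) (.nd (nat_lit 2) (.nd (nat_lit 3) (.nd (nat_lit 4) (.nd (nat_lit 5) 
(.lf (nat_lit 115330) (.g (nat_lit 490) (.e (nat_lit 5937) (nat_lit 322) (.e (nat_lit 57379) (nat_lit 3) (.e (nat_lit 98381) (nat_lit 31) .nil))) .nil)) 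
(.lf (nat_lit 115362) (.g (nat_lit 2237) (.e (nat_lit 5937) (nat_lit 322) (.e (nat_lit 57410) (nat_lit 12) (.e (nat_lit 336208) (nat_lit 12) (.e (nat_lit 385104) (nat_lit 50) (.e (nat_lit 786483) (nat_lit 30) (.e (nat_lit 368384) (nat_lit 0) .nil)))))) (.g (nat_lit 5) .nil .nil)))) (.nd (nat_lit 5) 
(.lf (nat_lit 115346) (.g (nat_lit 1294) (.e (nat_lit 5937) (nat_lit 322) (.e (nat_lit 57409) (nat_lit 12) (.e (nat_lit 336208) (nat_lit 12) (.e (nat_lit 385104) (nat_lit 50) .nil)))) .nil)) 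
(.lf (nat_lit 115378) (.g (nat_lit 1519) (.e (nat_lit 5937) (nat_lit 322) (.e (nat_lit 57411) (nat_lit 12) (.e (nat_lit 336208) (nat_lit 12) (.e (nat_lit 385099) (nat_lit 49) .nil)))) .nil)))) (.nd (nat_lit 4) (.nd (nat_lit 5) 
(.lf (nat_lit 115338) (.g (nat_lit 2127) (.e (nat_lit 5937) (nat_lit 322) (.e (nat_lit 57400) (nat_lit 10) (.e (nat_lit 319533) (nat_lit 16) (.e (nat_lit 286761) (nat_lit 13) (.e (nat_lit 393289) (nat_lit 25) (.e (nat_lit 466688) (nat_lit 18) .nil)))))) (.g (nat_lit 4) .nil .nil))) 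
(.lf (nat_lit 115370) (.g (nat_lit 2979) (.e (nat_lit 5937) (nat_lit 322) (.e (nat_lit 57411) (nat_lit 12) (.e (nat_lit 336182) (nat_lit 11) (.e (nat_lit 368695) (nat_lit 40) (.e (nat_lit 671748) (nat_lit 0) (.e (nat_lit 1589) (nat_lit 111) (.e (nat_lit 368384) (nat_lit 0) .nil))))))) (.g (nat_lit 6) .nil .nil)))) (.nd (nat_lit 5) 
(.lf (nat_lit 115354) (.g (nat_lit 2769) (.e (nat_lit 5937) (nat_lit 322) (.e (nat_lit 57409) (nat_lit 12) (.e (nat_lit 336443) (nat_lit 32) (.e (nat_lit 466977) (nat_lit 22) (.e (nat_lit 196656) (nat_lit 11) .nil))))) .nil)) 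
(.lf (nat_lit 115386) (.g (nat_lit 3041) (.e (nat_lit 5937) (nat_lit 322) (.e (nat_lit 57411) (nat_lit 12) (.e (nat_lit 336208) (nat_lit 12) (.e (nat_lit 385106) (nat_lit 50) (.e (nat_lit 786481) (nat_lit 30) (.e (nat_lit 368384) (nat_lit 0) .nil)))))) (.g (nat_lit 5) .nil .nil)))))) (.nd (nat_lit 3) (.nd (nat_lit 4) (.nd (nat_lit 5) 
(.lf (nat_lit 115334) (.g (nat_lit 3789) (.e (nat_lit 5937) (nat_lit 322) (.e (nat_lit 57390) (nat_lit 5) (.e (nat_lit 114723) (nat_lit 24) (.e (nat_lit 106536) (nat_lit 11) (.e (nat_lit 16473) (nat_lit 14) (.e (nat_lit 491560) (nat_lit 10) (.e (nat_lit 352000) (nat_lit 18) .nil))))))) (.g (nat_lit 6) .nil .nil))) 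
(.lf (nat_lit 115366) (.g (nat_lit 2272) (.e (nat_lit 5937) (nat_lit 322) (.e (nat_lit 57410) (nat_lit 12) (.e (nat_lit 336208) (nat_lit 12) (.e (nat_lit 385106) (nat_lit 50) (.e (nat_lit 786483) (nat_lit 30) (.e (nat_lit 368384) (nat_lit 0) .nil)))))) (.g (nat_lit 5) .nil .nil)))) (.nd (nat_lit 5) 
(.lf (nat_lit 115350) (.g (nat_lit 1947) (.e (nat_lit 5937) (nat_lit 322) (.e (nat_lit 57409) (nat_lit 12) (.e (nat_lit 336443) (nat_lit 32) (.e (nat_lit 466974) (nat_lit 22) .nil)))) .nil)) 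
(.lf (nat_lit 115382) (.g (nat_lit 1869) (.e (nat_lit 5937) (nat_lit 322) (.e (nat_lit 57411) (nat_lit 12) (.e (nat_lit 336208) (nat_lit 12) (.e (nat_lit 385104) (nat_lit 50) (.e (nat_lit 786482) (nat_lit 30) .nil))))) .nil)))) (.nd (nat_lit 4) (.nd (nat_lit 5) 
(.lf (nat_lit 115342) (.g (nat_lit 2353) (.e (nat_lit 5937) (nat_lit 322) (.e (nat_lit 57407) (nat_lit 12) (.e (nat_lit 336208) (nat_lit 12) (.e (nat_lit 385105) (nat_lit 50) (.e (nat_lit 786483) (nat_lit 30) (.e (nat_lit 368384) (nat_lit 0) .nil)))))) (.g (nat_lit 4) .nil .nil))) 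
(.lf (nat_lit 115374) (.g (nat_lit 2651) (.e (nat_lit 5937) (nat_lit 322) (.e (nat_lit 57411) (nat_lit 12) (.e (nat_lit 336182) (nat_lit 11) (.e (nat_lit 368695) (nat_lit 40) (.e (nat_lit 671748) (nat_lit 0) (.e (nat_lit 1599) (nat_lit 111) (.e (nat_lit 368384) (nat_lit 0) .nil))))))) (.g (nat_lit 6) .nil .nil)))) (.nd (nat_lit 5) 
(.lf (nat_lit 115358) (.g (nat_lit 1839) (.e (nat_lit 5937) (nat_lit 322) (.e (nat_lit 57409) (nat_lit 12) (.e (nat_lit 336443) (nat_lit 32) (.e (nat_lit 466981) (nat_lit 23) .nil)))) .nil)) 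
(.lf (nat_lit 115390) (.g (nat_lit 2043) (.e (nat_lit 5937) (nat_lit 322) (.e (nat_lit 57411) (nat_lit 12) (.e (nat_lit 336443) (nat_lit 32) (.e (nat_lit 466974) (nat_lit 22) (.e (nat_lit 196654) (nat_lit 11) (.e (nat_lit 16386) (nat_lit 0) (.e (nat_lit 2536) (nat_lit 157) .nil))))))) (.g (nat_lit 4) .nil .nil)))))))) 
(.nd (nat_lit 1) (.nd (nat_lit 2) (.nd (nat_lit 3) (.nd (nat_lit 4) (.nd (nat_lit 5) 
(.lf (nat_lit 115329) (.g (nat_lit 502) (.e (nat_lit 5937) (nat_lit 322) (.e (nat_lit 57379) (nat_lit 3) (.e (nat_lit 98380) (nat_lit 31) .nil))) .nil)) 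
(.lf (nat_lit 115361) (.g (nat_lit 1441) (.e (nat_lit 5937) (nat_lit 322) (.e (nat_lit 57410) (nat_lit 12) (.e (nat_lit 336208) (nat_lit 12) (.e (nat_lit 385104) (nat_lit 50) (.e (nat_lit 786482) (nat_lit 30) .nil))))) .nil))) (.nd (nat_lit 5) 
(.lf (nat_lit 115345) (.g (nat_lit 1358) (.e (nat_lit 5937) (nat_lit 322) (.e (nat_lit 57409) (nat_lit 12) (.e (nat_lit 336182) (nat_lit 11) (.e (nat_lit 368695) (nat_lit 40) (.e (nat_lit 671748) (nat_lit 0) .nil))))) .nil)) 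
(.lf (nat_lit 115377) (.g (nat_lit 532) (.e (nat_lit 5937) (nat_lit 322) (.e (nat_lit 57411) (nat_lit 12) (.e (nat_lit 336208) (nat_lit 12) .nil))) .nil)))) (.nd (nat_lit 4) (.nd (nat_lit 5) 
(.lf (nat_lit 115337) (.g (nat_lit 1285) (.e (nat_lit 5937) (nat_lit 322) (.e (nat_lit 57400) (nat_lit 10) (.e (nat_lit 319533) (nat_lit 16) (.e (nat_lit 286760) (nat_lit 13) .nil)))) .nil)) 
(.lf (nat_lit 115369) (.g (nat_lit 3053) (.e (nat_lit 5937) (nat_lit 322) (.e (nat_lit 57411) (nat_lit 12) (.e (nat_lit 336182) (nat_lit 11) (.e (nat_lit 368695) (nat_lit 40) (.e (nat_lit 671748) (nat_lit 0) (.e (nat_lit 1586) (nat_lit 111) (.e (nat_lit 368384) (nat_lit 0) .nil))))))) (.g (nat_lit 6) .nil .nil)))) (.nd (nat_lit 5) 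
(.lf (nat_lit 115353) (.g (nat_lit 2722) (.e (nat_lit 5937) (nat_lit 322) (.e (nat_lit 57409) (nat_lit 12) (.e (nat_lit 336443) (nat_lit 32) (.e (nat_lit 466977) (nat_lit 22) (.e (nat_lit 196654) (nat_lit 11) .nil))))) .nil)) 
(.lf (nat_lit 115385) (.g (nat_lit 3020) (.e (nat_lit 5937) (nat_lit 322) (.e (nat_lit 57411) (nat_lit 12) (.e (nat_lit 336208) (nat_lit 12) (.e (nat_lit 385105) (nat_lit 50) (.e (nat_lit 786483) (nat_lit 30) (.e (nat_lit 368384) (nat_lit 0) .nil)))))) (.g (nat_lit 5) .nil .nil)))))) (.nd (nat_lit 3) (.nd (nat_lit 4) (.nd (nat_lit 5) 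
(.lf (nat_lit 115333) (.g (nat_lit 3493) (.e (nat_lit 5937) (nat_lit 322) (.e (nat_lit 57390) (nat_lit 5) (.e (nat_lit 114723) (nat_lit 24) (.e (nat_lit 106535) (nat_lit 11) (.e (nat_lit 16473) (nat_lit 14) (.e (nat_lit 491560) (nat_lit 10) (.e (nat_lit 352000) (nat_lit 18) .nil))))))) (.g (nat_lit 6) .nil .nil))) 
(.lf (nat_lit 115365) (.g (nat_lit 2300) (.e (nat_lit 5937) (nat_lit 322) (.e (nat_lit 57410) (nat_lit 12) (.e (nat_lit 336208) (nat_lit 12) (.e (nat_lit 385106) (nat_lit 50) (.e (nat_lit 786481) (nat_lit 30) (.e (nat_lit 368384) (nat_lit 0) .nil)))))) (.g (nat_lit 5) .nil .nil)))) (.nd (nat_lit 5) 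
(.lf (nat_lit 115349) (.g (nat_lit 834) (.e (nat_lit 5937) (nat_lit 322) (.e (nat_lit 57409) (nat_lit 12) (.e (nat_lit 336443) (nat_lit 32) .nil))) .nil)) 
(.lf (nat_lit 115381) (.g (nat_lit 2675) (.e (nat_lit 5937) (nat_lit 322) (.e (nat_lit 57411) (nat_lit 12) (.e (nat_lit 336208) (nat_lit 12) (.e (nat_lit 385104) (nat_lit 50) (.e (nat_lit 786481) (nat_lit 30) (.e (nat_lit 368384) (nat_lit 0) .nil)))))) (.g (nat_lit 5) .nil .nil))))) (.nd (nat_lit 4) (.nd (nat_lit 5) 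
(.lf (nat_lit 115341) (.g (nat_lit 2431) (.e (nat_lit 5937) (nat_lit 322) (.e (nat_lit 57407) (nat_lit 12) (.e (nat_lit 336208) (nat_lit 12) (.e (nat_lit 385105) (nat_lit 50) (.e (nat_lit 786481) (nat_lit 30) (.e (nat_lit 368384) (nat_lit 0) .nil)))))) (.g (nat_lit 4) .nil .nil))) 
(.lf (nat_lit 115373) (.g (nat_lit 2610) (.e (nat_lit 5937) (nat_lit 322) (.e (nat_lit 57411) (nat_lit 12) (.e (nat_lit 336182) (nat_lit 11) (.e (nat_lit 368695) (nat_lit 40) (.e (nat_lit 671748) (nat_lit 0) (.e (nat_lit 1598) (nat_lit 111) (.e (nat_lit 368384) (nat_lit 0) .nil))))))) (.g (nat_lit 6) .nil .nil)))) (.nd (nat_lit 5) 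
(.lf (nat_lit 115357) (.g (nat_lit 2022) (.e (nat_lit 5937) (nat_lit 322) (.e (nat_lit 57409) (nat_lit 12) (.e (nat_lit 336443) (nat_lit 32) (.e (nat_lit 466979) (nat_lit 23) (.e (nat_lit 204809) (nat_lit 9) .nil))))) .nil)) 
(.lf (nat_lit 115389) (.g (nat_lit 2159) (.e (nat_lit 5937) (nat_lit 322) (.e (nat_lit 57411) (nat_lit 12) (.e (nat_lit 336443) (nat_lit 32) (.e (nat_lit 466974) (nat_lit 22) (.e (nat_lit 196654) (nat_lit 11) (.e (nat_lit 16385) (nat_lit 0) (.e (nat_lit 2466) (nat_lit 157) .nil))))))) (.g (nat_lit 4) .nil .nil))))))) (.nd (nat_lit 2) (.nd (nat_lit 3) (.nd (nat_lit 4) (.nd (nat_lit 5) 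
(.lf (nat_lit 115331) (.g (nat_lit 3375) (.e (nat_lit 5937) (nat_lit 322) (.e (nat_lit 57390) (nat_lit 5) (.e (nat_lit 114723) (nat_lit 24) (.e (nat_lit 106534) (nat_lit 11) (.e (nat_lit 16473) (nat_lit 14) (.e (nat_lit 491558) (nat_lit 10) (.e (nat_lit 352000) (nat_lit 18) .nil))))))) (.g (nat_lit 6) .nil .nil))) 
(.lf (nat_lit 115363) (.g (nat_lit 2262) (.e (nat_lit 5937) (nat_lit 322) (.e (nat_lit 57410) (nat_lit 12) (.e (nat_lit 336208) (nat_lit 12) (.e (nat_lit 385105) (nat_lit 50) (.e (nat_lit 786481) (nat_lit 30) (.e (nat_lit 368384) (nat_lit 0) .nil)))))) (.g (nat_lit 5) .nil .nil)))) (.nd (nat_lit 5) 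
(.lf (nat_lit 115347) (.g (nat_lit 2271) (.e (nat_lit 5937) (nat_lit 322) (.e (nat_lit 57409) (nat_lit 12) (.e (nat_lit 336208) (nat_lit 12) (.e (nat_lit 385105) (nat_lit 50) (.e (nat_lit 786481) (nat_lit 30) (.e (nat_lit 368384) (nat_lit 0) .nil)))))) (.g (nat_lit 4) .nil .nil))) 
(.lf (nat_lit 115379) (.g (nat_lit 2626) (.e (nat_lit 5937) (nat_lit 322) (.e (nat_lit 57411) (nat_lit 12) (.e (nat_lit 336208) (nat_lit 12) (.e (nat_lit 385102) (nat_lit 50) (.e (nat_lit 786481) (nat_lit 30) (.e (nat_lit 368384) (nat_lit 0) .nil)))))) (.g (nat_lit 5) .nil .nil))))) (.nd (nat_lit 4) (.nd (nat_lit 5) 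
(.lf (nat_lit 115339) (.g (nat_lit 1825) (.e (nat_lit 5937) (nat_lit 322) (.e (nat_lit 57400) (nat_lit 10) (.e (nat_lit 319534) (nat_lit 16) (.e (nat_lit 286761) (nat_lit 13) (.e (nat_lit 393289) (nat_lit 25) (.e (nat_lit 466688) (nat_lit 18) .nil)))))) (.g (nat_lit 4) .nil .nil))) 
(.lf (nat_lit 115371) (.g (nat_lit 1711) (.e (nat_lit 5937) (nat_lit 322) (.e (nat_lit 57411) (nat_lit 12) (.e (nat_lit 336182) (nat_lit 11) (.e (nat_lit 368695) (nat_lit 40) (.e (nat_lit 671748) (nat_lit 0) (.e (nat_lit 1592) (nat_lit 111) (.e (nat_lit 368384) (nat_lit 0) .nil))))))) (.g (nat_lit 4) .nil .nil)))) (.nd (nat_lit 5) 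
(.lf (nat_lit 115355) (.g (nat_lit 2782) (.e (nat_lit 5937) (nat_lit 322) (.e (nat_lit 57409) (nat_lit 12) (.e (nat_lit 336443) (nat_lit 32) (.e (nat_lit 466977) (nat_lit 22) (.e (nat_lit 196656) (nat_lit 11) (.e (nat_lit 16388) (nat_lit 0) (.e (nat_lit 2536) (nat_lit 157) .nil))))))) (.g (nat_lit 4) .nil .nil))) 
(.lf (nat_lit 115387) (.g (nat_lit 3013) (.e (nat_lit 5937) (nat_lit 322) (.e (nat_lit 57411) (nat_lit 12) (.e (nat_lit 336208) (nat_lit 12) (.e (nat_lit 385106) (nat_lit 50) (.e (nat_lit 786483) (nat_lit 30) (.e (nat_lit 368384) (nat_lit 0) .nil)))))) (.g (nat_lit 5) .nil .nil)))))) (.nd (nat_lit 3) (.nd (nat_lit 4) (.nd (nat_lit 5) 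
(.lf (nat_lit 115335) (.g (nat_lit 1893) (.e (nat_lit 5937) (nat_lit 322) (.e (nat_lit 57399) (nat_lit 10) (.e (nat_lit 319530) (nat_lit 16) (.e (nat_lit 286761) (nat_lit 13) (.e (nat_lit 393289) (nat_lit 25) (.e (nat_lit 466688) (nat_lit 18) .nil)))))) (.g (nat_lit 5) .nil .nil))) 
(.lf (nat_lit 115367) (.g (nat_lit 726) (.e (nat_lit 5937) (nat_lit 322) (.e (nat_lit 57411) (nat_lit 12) (.e (nat_lit 336115) (nat_lit 9) .nil))) .nil))) (.nd (nat_lit 5) 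
(.lf (nat_lit 115351) (.g (nat_lit 2686) (.e (nat_lit 5937) (nat_lit 322) (.e (nat_lit 57409) (nat_lit 12) (.e (nat_lit 336443) (nat_lit 32) (.e (nat_lit 466974) (nat_lit 22) (.e (nat_lit 196654) (nat_lit 11) .nil))))) .nil)) 
(.lf (nat_lit 115383) (.g (nat_lit 3036) (.e (nat_lit 5937) (nat_lit 322) (.e (nat_lit 57411) (nat_lit 12) (.e (nat_lit 336208) (nat_lit 12) (.e (nat_lit 385104) (nat_lit 50) (.e (nat_lit 786483) (nat_lit 30) (.e (nat_lit 368384) (nat_lit 0) .nil)))))) (.g (nat_lit 5) .nil .nil))))) (.nd (nat_lit 4) (.nd (nat_lit 5) 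
(.lf (nat_lit 115343) (.g (nat_lit 2401) (.e (nat_lit 5937) (nat_lit 322) (.e (nat_lit 57407) (nat_lit 12) (.e (nat_lit 336208) (nat_lit 12) (.e (nat_lit 385106) (nat_lit 50) (.e (nat_lit 786481) (nat_lit 30) .nil))))) .nil)) 
(.lf (nat_lit 115375) (.g (nat_lit 1538) (.e (nat_lit 5937) (nat_lit 322) (.e (nat_lit 57411) (nat_lit 12) (.e (nat_lit 336182) (nat_lit 11) (.e (nat_lit 368695) (nat_lit 40) (.e (nat_lit 671752) (nat_lit 0) (.e (nat_lit 1583) (nat_lit 111) (.e (nat_lit 368384) (nat_lit 0) .nil))))))) (.g (nat_lit 4) .nil .nil)))) (.nd (nat_lit 5) 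
(.lf (nat_lit 115359) (.g (nat_lit 2174) (.e (nat_lit 5937) (nat_lit 322) (.e (nat_lit 57409) (nat_lit 12) (.e (nat_lit 336443) (nat_lit 32) (.e (nat_lit 466981) (nat_lit 23) (.e (nat_lit 204809) (nat_lit 9) .nil))))) .nil)) 
(.lf (nat_lit 115391) (.g (nat_lit 2043) (.e (nat_lit 5937) (nat_lit 322) (.e (nat_lit 57411) (nat_lit 12) (.e (nat_lit 336443) (nat_lit 32) (.e (nat_lit 466974) (nat_lit 22) (.e (nat_lit 196654) (nat_lit 11) (.e (nat_lit 16388) (nat_lit 0) (.e (nat_lit 2536) (nat_lit 157) .nil))))))) (.g (nat_lit 4) .nil .nil)))))))))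

noncomputable def tv1554 : DT := (.nd (nat_lit 0) (.nd (nat_lit 1) (.nd (nat_lit 2) (.nd (nat_lit 3) (.nd (nat_lit 4) (.nd (nat_lit 5) 
(.lf (nat_lit 115392) (.g (nat_lit 1878) (.e (nat_lit 5937) (nat_lit 322) (.e (nat_lit 57411) (nat_lit 12) (.e (nat_lit 336443) (nat_lit 32) (.e (nat_lit 466974) (nat_lit 22) (.e (nat_lit 196654) (nat_lit 11) (.e (nat_lit 16389) (nat_lit 0) (.e (nat_lit 2466) (nat_lit 157) .nil))))))) (.g (nat_lit 4) .nil .nil))) 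
(.lf (nat_lit 115424) (.g (nat_lit 1093) (.e (nat_lit 5937) (nat_lit 322) (.e (nat_lit 57437) (nat_lit 17) (.e (nat_lit 376835) (nat_lit 0) (.e (nat_lit 3746) (nat_lit 228) (.e (nat_lit 786482) (nat_lit 30) .nil))))) .nil))) (.nd (nat_lit 5) 
(.lf (nat_lit 115408) (.g (nat_lit 1806) (.e (nat_lit 5937) (nat_lit 322) (.e (nat_lit 57411) (nat_lit 12) (.e (nat_lit 336443) (nat_lit 32) (.e (nat_lit 466979) (nat_lit 23) (.e (nat_lit 204813) (nat_lit 9) (.e (nat_lit 426031) (nat_lit 0) (.e (nat_lit 2466) (nat_lit 157) .nil))))))) (.g (nat_lit 4) .nil .nil))) 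
(.lf (nat_lit 115440) (.g (nat_lit 1369) (.e (nat_lit 5937) (nat_lit 322) (.e (nat_lit 57445) (nat_lit 19) (.e (nat_lit 393233) (nat_lit 17) (.e (nat_lit 7583) (nat_lit 405) (.e (nat_lit 57476) (nat_lit 28) .nil))))) .nil)))) (.nd (nat_lit 4) (.nd (nat_lit 5) 
(.lf (nat_lit 115400) (.g (nat_lit 2109) (.e (nat_lit 5937) (nat_lit 322) (.e (nat_lit 57411) (nat_lit 12) (.e (nat_lit 336443) (nat_lit 32) (.e (nat_lit 466977) (nat_lit 22) (.e (nat_lit 196654) (nat_lit 11) (.e (nat_lit 16388) (nat_lit 0) (.e (nat_lit 2536) (nat_lit 157) .nil))))))) (.g (nat_lit 4) .nil .nil))) 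
(.lf (nat_lit 115432) (.g (nat_lit 1537) (.e (nat_lit 5937) (nat_lit 322) (.e (nat_lit 57437) (nat_lit 17) (.e (nat_lit 376859) (nat_lit 21) (.e (nat_lit 57870) (nat_lit 264) .nil)))) .nil))) (.nd (nat_lit 5) 
(.lf (nat_lit 115416) (.g (nat_lit 2576) (.e (nat_lit 5937) (nat_lit 322) (.e (nat_lit 57424) (nat_lit 14) (.e (nat_lit 352318) (nat_lit 24) (.e (nat_lit 123197) (nat_lit 266) (.e (nat_lit 57427) (nat_lit 15) (.e (nat_lit 368384) (nat_lit 0) .nil)))))) (.g (nat_lit 4) .nil .nil))) 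
(.lf (nat_lit 115448) (.g (nat_lit 2763) (.e (nat_lit 5937) (nat_lit 322) (.e (nat_lit 57447) (nat_lit 19) (.e (nat_lit 393234) (nat_lit 17) (.e (nat_lit 7581) (nat_lit 405) (.e (nat_lit 57476) (nat_lit 28) (.e (nat_lit 557103) (nat_lit 14) (.e (nat_lit 180224) (nat_lit 0) .nil))))))) (.g (nat_lit 5) .nil .nil)))))) (.nd (nat_lit 3) (.nd (nat_lit 4) (.nd (nat_lit 5) 
(.lf (nat_lit 115396) (.g (nat_lit 2319) (.e (nat_lit 5937) (nat_lit 322) (.e (nat_lit 57411) (nat_lit 12) (.e (nat_lit 336443) (nat_lit 32) (.e (nat_lit 466977) (nat_lit 22) (.e (nat_lit 196624) (nat_lit 9) (.e (nat_lit 442) (nat_lit 33) (.e (nat_lit 434199) (nat_lit 18) .nil))))))) (.g (nat_lit 4) .nil .nil))) 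
(.lf (nat_lit 115428) (.g (nat_lit 2220) (.e (nat_lit 5937) (nat_lit 322) (.e (nat_lit 57437) (nat_lit 17) (.e (nat_lit 376855) (nat_lit 20) (.e (nat_lit 2000) (nat_lit 138) (.e (nat_lit 671748) (nat_lit 0) (.e (nat_lit 1589) (nat_lit 111) (.e (nat_lit 368384) (nat_lit 0) .nil))))))) (.g (nat_lit 6) .nil .nil)))) (.nd (nat_lit 5) 
(.lf (nat_lit 115412) (.g (nat_lit 787) (.e (nat_lit 5937) (nat_lit 322) (.e (nat_lit 57423) (nat_lit 14) (.e (nat_lit 352270) (nat_lit 8) .nil))) .nil)) 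
(.lf (nat_lit 115444) (.g (nat_lit 1256) (.e (nat_lit 5937) (nat_lit 322) (.e (nat_lit 57446) (nat_lit 19) (.e (nat_lit 393281) (nat_lit 23) (.e (nat_lit 426116) (nat_lit 2) (.e (nat_lit 196654) (nat_lit 11) .nil))))) .nil)))) (.nd (nat_lit 4) (.nd (nat_lit 5) 
(.lf (nat_lit 115404) (.g (nat_lit 1968) (.e (nat_lit 5937) (nat_lit 322) (.e (nat_lit 57411) (nat_lit 12) (.e (nat_lit 336443) (nat_lit 32) (.e (nat_lit 466977) (nat_lit 22) (.e (nat_lit 196654) (nat_lit 11) (.e (nat_lit 16395) (nat_lit 0) (.e (nat_lit 2466) (nat_lit 157) .nil))))))) (.g (nat_lit 4) .nil .nil))) 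
(.lf (nat_lit 115436) (.g (nat_lit 2538) (.e (nat_lit 5937) (nat_lit 322) (.e (nat_lit 57437) (nat_lit 17) (.e (nat_lit 376859) (nat_lit 21) (.e (nat_lit 57872) (nat_lit 264) (.e (nat_lit 1221) (nat_lit 90) (.e (nat_lit 81933) (nat_lit 20) (.e (nat_lit 1105) (nat_lit 81) .nil))))))) (.g (nat_lit 5) .nil .nil)))) (.nd (nat_lit 5) 
(.lf (nat_lit 115420) (.g (nat_lit 798) (.e (nat_lit 5937) (nat_lit 322) (.e (nat_lit 57428) (nat_lit 15) (.e (nat_lit 360486) (nat_lit 18) (.e (nat_lit 671748) (nat_lit 0) .nil)))) .nil)) 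
(.lf (nat_lit 115452) (.g (nat_lit 3591) (.e (nat_lit 5937) (nat_lit 322) (.e (nat_lit 57447) (nat_lit 19) (.e (nat_lit 393234) (nat_lit 17) (.e (nat_lit 7581) (nat_lit 405) (.e (nat_lit 57480) (nat_lit 28) (.e (nat_lit 557103) (nat_lit 14) (.e (nat_lit 188160) (nat_lit 0) .nil))))))) (.g (nat_lit 6) .nil .nil))))))) (.nd (nat_lit 2) (.nd (nat_lit 3) (.nd (nat_lit 4) (.nd (nat_lit 5) 
(.lf (nat_lit 115394) (.g (nat_lit 2001) (.e (nat_lit 5937) (nat_lit 322) (.e (nat_lit 57411) (nat_lit 12) (.e (nat_lit 336443) (nat_lit 32) (.e (nat_lit 466974) (nat_lit 22) (.e (nat_lit 196654) (nat_lit 11) (.e (nat_lit 16394) (nat_lit 0) (.e (nat_lit 2466) (nat_lit 157) .nil))))))) (.g (nat_lit 4) .nil .nil))) 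
(.lf (nat_lit 115426) (.g (nat_lit 459) (.e (nat_lit 5937) (nat_lit 322) (.e (nat_lit 57437) (nat_lit 17) (.e (nat_lit 384768) (nat_lit 4) .nil))) .nil))) (.nd (nat_lit 5) 
(.lf (nat_lit 115410) (.g (nat_lit 1899) (.e (nat_lit 5937) (nat_lit 322) (.e (nat_lit 57411) (nat_lit 12) (.e (nat_lit 336443) (nat_lit 32) (.e (nat_lit 466981) (nat_lit 23) (.e (nat_lit 204813) (nat_lit 9) (.e (nat_lit 426031) (nat_lit 0) (.e (nat_lit 2466) (nat_lit 157) .nil))))))) (.g (nat_lit 4) .nil .nil))) 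
(.lf (nat_lit 115442) (.g (nat_lit 622) (.e (nat_lit 5937) (nat_lit 322) (.e (nat_lit 57445) (nat_lit 19) (.e (nat_lit 393281) (nat_lit 23) .nil))) .nil)))) (.nd (nat_lit 4) (.nd (nat_lit 5) 
(.lf (nat_lit 115402) (.g (nat_lit 2355) (.e (nat_lit 5937) (nat_lit 322) (.e (nat_lit 57411) (nat_lit 12) (.e (nat_lit 336443) (nat_lit 32) (.e (nat_lit 466977) (nat_lit 22) (.e (nat_lit 196654) (nat_lit 11) (.e (nat_lit 16393) (nat_lit 0) (.e (nat_lit 2466) (nat_lit 157) .nil))))))) (.g (nat_lit 4) .nil .nil))) 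
(.lf (nat_lit 115434) (.g (nat_lit 2970) (.e (nat_lit 5937) (nat_lit 322) (.e (nat_lit 57437) (nat_lit 17) (.e (nat_lit 376859) (nat_lit 21) (.e (nat_lit 57872) (nat_lit 264) (.e (nat_lit 1221) (nat_lit 90) (.e (nat_lit 81930) (nat_lit 20) (.e (nat_lit 1103) (nat_lit 81) .nil))))))) (.g (nat_lit 5) .nil .nil)))) (.nd (nat_lit 5) 
(.lf (nat_lit 115418) (.g (nat_lit 477) (.e (nat_lit 5937) (nat_lit 322) (.e (nat_lit 57426) (nat_lit 15) (.e (nat_lit 360456) (nat_lit 0) .nil))) .nil)) 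
(.lf (nat_lit 115450) (.g (nat_lit 3569) (.e (nat_lit 5937) (nat_lit 322) (.e (nat_lit 57447) (nat_lit 19) (.e (nat_lit 393234) (nat_lit 17) (.e (nat_lit 7581) (nat_lit 405) (.e (nat_lit 57477) (nat_lit 28) (.e (nat_lit 557104) (nat_lit 14) (.e (nat_lit 180224) (nat_lit 0) .nil))))))) (.g (nat_lit 6) .nil .nil)))))) (.nd (nat_lit 3) (.nd (nat_lit 4) (.nd (nat_lit 5) 
(.lf (nat_lit 115398) (.g (nat_lit 2318) (.e (nat_lit 5937) (nat_lit 322) (.e (nat_lit 57411) (nat_lit 12) (.e (nat_lit 336443) (nat_lit 32) (.e (nat_lit 466977) (nat_lit 22) (.e (nat_lit 196654) (nat_lit 11) (.e (nat_lit 16385) (nat_lit 0) (.e (nat_lit 2466) (nat_lit 157) .nil))))))) (.g (nat_lit 4) .nil .nil))) 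
(.lf (nat_lit 115430) (.g (nat_lit 1861) (.e (nat_lit 5937) (nat_lit 322) (.e (nat_lit 57437) (nat_lit 17) (.e (nat_lit 376855) (nat_lit 20) (.e (nat_lit 2000) (nat_lit 138) (.e (nat_lit 671748) (nat_lit 0) (.e (nat_lit 1599) (nat_lit 111) (.e (nat_lit 368384) (nat_lit 0) .nil))))))) (.g (nat_lit 6) .nil .nil)))) (.nd (nat_lit 5) 
(.lf (nat_lit 115414) (.g (nat_lit 1587) (.e (nat_lit 5937) (nat_lit 322) (.e (nat_lit 57423) (nat_lit 14) (.e (nat_lit 352270) (nat_lit 8) (.e (nat_lit 262148) (nat_lit 0) (.e (nat_lit 1582) (nat_lit 111) (.e (nat_lit 368384) (nat_lit 0) .nil)))))) (.g (nat_lit 5) .nil .nil))) 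
(.lf (nat_lit 115446) (.g (nat_lit 1436) (.e (nat_lit 5937) (nat_lit 322) (.e (nat_lit 57447) (nat_lit 19) (.e (nat_lit 393233) (nat_lit 17) (.e (nat_lit 7581) (nat_lit 405) .nil)))) .nil)))) (.nd (nat_lit 4) (.nd (nat_lit 5) 
(.lf (nat_lit 115406) (.g (nat_lit 2131) (.e (nat_lit 5937) (nat_lit 322) (.e (nat_lit 57411) (nat_lit 12) (.e (nat_lit 336443) (nat_lit 32) (.e (nat_lit 466977) (nat_lit 22) (.e (nat_lit 196656) (nat_lit 11) (.e (nat_lit 16392) (nat_lit 0) (.e (nat_lit 7936) (nat_lit 157) .nil))))))) (.g (nat_lit 4) .nil .nil))) 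
(.lf (nat_lit 115438) (.g (nat_lit 806) (.e (nat_lit 5937) (nat_lit 322) (.e (nat_lit 57445) (nat_lit 19) (.e (nat_lit 393231) (nat_lit 17) .nil))) .nil))) (.nd (nat_lit 5) 
(.lf (nat_lit 115422) (.g (nat_lit 263) (.e (nat_lit 5937) (nat_lit 322) (.e (nat_lit 57435) (nat_lit 17) (.e (nat_lit 384768) (nat_lit 8) .nil))) .nil)) 
(.lf (nat_lit 115454) (.g (nat_lit 3173) (.e (nat_lit 5937) (nat_lit 322) (.e (nat_lit 57447) (nat_lit 19) (.e (nat_lit 393234) (nat_lit 17) (.e (nat_lit 7581) (nat_lit 405) (.e (nat_lit 57480) (nat_lit 28) (.e (nat_lit 557105) (nat_lit 14) (.e (nat_lit 188160) (nat_lit 0) .nil))))))) (.g (nat_lit 6) .nil .nil)))))))) 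
(.nd (nat_lit 1) (.nd (nat_lit 2) (.nd (nat_lit 3) (.nd (nat_lit 4) (.nd (nat_lit 5) 
(.lf (nat_lit 115393) (.g (nat_lit 2280) (.e (nat_lit 5937) (nat_lit 322) (.e (nat_lit 57411) (nat_lit 12) (.e (nat_lit 336443) (nat_lit 32) (.e (nat_lit 466974) (nat_lit 22) (.e (nat_lit 196654) (nat_lit 11) (.e (nat_lit 16393) (nat_lit 0) (.e (nat_lit 2466) (nat_lit 157) .nil))))))) (.g (nat_lit 4) .nil .nil))) 
(.lf (nat_lit 115425) (.g (nat_lit 1910) (.e (nat_lit 5937) (nat_lit 322) (.e (nat_lit 57437) (nat_lit 17) (.e (nat_lit 376835) (nat_lit 0) (.e (nat_lit 3748) (nat_lit 228) (.e (nat_lit 786481) (nat_lit 30) (.e (nat_lit 368384) (nat_lit 0) .nil)))))) (.g (nat_lit 5) .nil .nil)))) (.nd (nat_lit 5) 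
(.lf (nat_lit 115409) (.g (nat_lit 2208) (.e (nat_lit 5937) (nat_lit 322) (.e (nat_lit 57411) (nat_lit 12) (.e (nat_lit 336443) (nat_lit 32) (.e (nat_lit 466981) (nat_lit 23) (.e (nat_lit 204809) (nat_lit 9) (.e (nat_lit 426031) (nat_lit 0) (.e (nat_lit 2466) (nat_lit 157) .nil))))))) (.g (nat_lit 5) .nil .nil))) 
(.lf (nat_lit 115441) (.g (nat_lit 2347) (.e (nat_lit 5937) (nat_lit 322) (.e (nat_lit 57445) (nat_lit 19) (.e (nat_lit 393234) (nat_lit 17) (.e (nat_lit 7581) (nat_lit 405) (.e (nat_lit 57480) (nat_lit 28) .nil))))) .nil)))) (.nd (nat_lit 4) (.nd (nat_lit 5) 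
(.lf (nat_lit 115401) (.g (nat_lit 1944) (.e (nat_lit 5937) (nat_lit 322) (.e (nat_lit 57411) (nat_lit 12) (.e (nat_lit 336443) (nat_lit 32) (.e (nat_lit 466977) (nat_lit 22) (.e (nat_lit 196654) (nat_lit 11) (.e (nat_lit 16389) (nat_lit 0) (.e (nat_lit 2466) (nat_lit 157) .nil))))))) (.g (nat_lit 4) .nil .nil))) 
(.lf (nat_lit 115433) (.g (nat_lit 2311) (.e (nat_lit 5937) (nat_lit 322) (.e (nat_lit 57437) (nat_lit 17) (.e (nat_lit 376859) (nat_lit 21) (.e (nat_lit 57870) (nat_lit 264) (.e (nat_lit 992) (nat_lit 81) (.e (nat_lit 1595) (nat_lit 111) (.e (nat_lit 368384) (nat_lit 0) .nil))))))) (.g (nat_lit 5) .nil .nil)))) (.nd (nat_lit 5) 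
(.lf (nat_lit 115417) (.g (nat_lit 2275) (.e (nat_lit 5937) (nat_lit 322) (.e (nat_lit 57424) (nat_lit 14) (.e (nat_lit 352318) (nat_lit 24) (.e (nat_lit 123198) (nat_lit 266) (.e (nat_lit 57427) (nat_lit 15) (.e (nat_lit 368384) (nat_lit 0) .nil)))))) (.g (nat_lit 4) .nil .nil))) 
(.lf (nat_lit 115449) (.g (nat_lit 3501) (.e (nat_lit 5937) (nat_lit 322) (.e (nat_lit 57447) (nat_lit 19) (.e (nat_lit 393234) (nat_lit 17) (.e (nat_lit 7581) (nat_lit 405) (.e (nat_lit 57476) (nat_lit 28) (.e (nat_lit 557104) (nat_lit 14) (.e (nat_lit 180224) (nat_lit 0) .nil))))))) (.g (nat_lit 6) .nil .nil)))))) (.nd (nat_lit 3) (.nd (nat_lit 4) (.nd (nat_lit 5) 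
(.lf (nat_lit 115397) (.g (nat_lit 1806) (.e (nat_lit 5937) (nat_lit 322) (.e (nat_lit 57411) (nat_lit 12) (.e (nat_lit 336443) (nat_lit 32) (.e (nat_lit 466977) (nat_lit 22) (.e (nat_lit 196654) (nat_lit 11) .nil))))) .nil)) 
(.lf (nat_lit 115429) (.g (nat_lit 1824) (.e (nat_lit 5937) (nat_lit 322) (.e (nat_lit 57437) (nat_lit 17) (.e (nat_lit 376855) (nat_lit 20) (.e (nat_lit 2000) (nat_lit 138) (.e (nat_lit 671748) (nat_lit 0) (.e (nat_lit 1598) (nat_lit 111) (.e (nat_lit 368384) (nat_lit 0) .nil))))))) (.g (nat_lit 6) .nil .nil)))) (.nd (nat_lit 5) 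
(.lf (nat_lit 115413) (.g (nat_lit 932) (.e (nat_lit 5937) (nat_lit 322) (.e (nat_lit 57423) (nat_lit 14) (.e (nat_lit 352270) (nat_lit 8) (.e (nat_lit 262148) (nat_lit 0) .nil)))) .nil)) 
(.lf (nat_lit 115445) (.g (nat_lit 1254) (.e (nat_lit 5937) (nat_lit 322) (.e (nat_lit 57447) (nat_lit 19) (.e (nat_lit 393232) (nat_lit 17) .nil))) .nil)))) (.nd (nat_lit 4) (.nd (nat_lit 5) 
(.lf (nat_lit 115405) (.g (nat_lit 1863) (.e (nat_lit 5937) (nat_lit 322) (.e (nat_lit 57411) (nat_lit 12) (.e (nat_lit 336443) (nat_lit 32) (.e (nat_lit 466977) (nat_lit 22) (.e (nat_lit 196656) (nat_lit 11) .nil))))) .nil)) 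
(.lf (nat_lit 115437) (.g (nat_lit 1489) (.e (nat_lit 5937) (nat_lit 322) (.e (nat_lit 57437) (nat_lit 17) (.e (nat_lit 376859) (nat_lit 21) (.e (nat_lit 57873) (nat_lit 264) .nil)))) .nil))) (.nd (nat_lit 5) 
(.lf (nat_lit 115421) (.g (nat_lit 1241) (.e (nat_lit 5937) (nat_lit 322) (.e (nat_lit 57435) (nat_lit 17) (.e (nat_lit 376835) (nat_lit 0) (.e (nat_lit 3746) (nat_lit 228) (.e (nat_lit 786482) (nat_lit 30) .nil))))) .nil)) 
(.lf (nat_lit 115453) (.g (nat_lit 3927) (.e (nat_lit 5937) (nat_lit 322) (.e (nat_lit 57447) (nat_lit 19) (.e (nat_lit 393234) (nat_lit 17) (.e (nat_lit 7581) (nat_lit 405) (.e (nat_lit 57480) (nat_lit 28) (.e (nat_lit 557105) (nat_lit 14) (.e (nat_lit 180224) (nat_lit 0) .nil))))))) (.g (nat_lit 7) .nil .nil))))))) (.nd (nat_lit 2) (.nd (nat_lit 3) (.nd (nat_lit 4) (.nd (nat_lit 5) 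
(.lf (nat_lit 115395) (.g (nat_lit 1862) (.e (nat_lit 5937) (nat_lit 322) (.e (nat_lit 57411) (nat_lit 12) (.e (nat_lit 336443) (nat_lit 32) (.e (nat_lit 466974) (nat_lit 22) (.e (nat_lit 196654) (nat_lit 11) (.e (nat_lit 16395) (nat_lit 0) (.e (nat_lit 2466) (nat_lit 157) .nil))))))) (.g (nat_lit 4) .nil .nil))) 
(.lf (nat_lit 115427) (.g (nat_lit 2293) (.e (nat_lit 5937) (nat_lit 322) (.e (nat_lit 57437) (nat_lit 17) (.e (nat_lit 376855) (nat_lit 20) (.e (nat_lit 2000) (nat_lit 138) (.e (nat_lit 671748) (nat_lit 0) (.e (nat_lit 1586) (nat_lit 111) (.e (nat_lit 368384) (nat_lit 0) .nil))))))) (.g (nat_lit 6) .nil .nil)))) (.nd (nat_lit 5) 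
(.lf (nat_lit 115411) (.g (nat_lit 1223) (.e (nat_lit 5937) (nat_lit 322) (.e (nat_lit 57411) (nat_lit 12) (.e (nat_lit 336443) (nat_lit 32) (.e (nat_lit 466981) (nat_lit 23) (.e (nat_lit 212736) (nat_lit 10) .nil))))) .nil)) 
(.lf (nat_lit 115443) (.g (nat_lit 1805) (.e (nat_lit 5937) (nat_lit 322) (.e (nat_lit 57445) (nat_lit 19) (.e (nat_lit 393281) (nat_lit 23) (.e (nat_lit 426116) (nat_lit 2) (.e (nat_lit 196654) (nat_lit 11) .nil))))) .nil)))) (.nd (nat_lit 4) (.nd (nat_lit 5) 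
(.lf (nat_lit 115403) (.g (nat_lit 2075) (.e (nat_lit 5937) (nat_lit 322) (.e (nat_lit 57411) (nat_lit 12) (.e (nat_lit 336443) (nat_lit 32) (.e (nat_lit 466977) (nat_lit 22) (.e (nat_lit 196654) (nat_lit 11) (.e (nat_lit 16394) (nat_lit 0) (.e (nat_lit 2466) (nat_lit 157) .nil))))))) (.g (nat_lit 4) .nil .nil))) 
(.lf (nat_lit 115435) (.g (nat_lit 2400) (.e (nat_lit 5937) (nat_lit 322) (.e (nat_lit 57437) (nat_lit 17) (.e (nat_lit 376859) (nat_lit 21) (.e (nat_lit 57872) (nat_lit 264) (.e (nat_lit 1221) (nat_lit 90) (.e (nat_lit 81931) (nat_lit 20) (.e (nat_lit 1105) (nat_lit 81) .nil))))))) (.g (nat_lit 5) .nil .nil)))) (.nd (nat_lit 5) 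
(.lf (nat_lit 115419) (.g (nat_lit 359) (.e (nat_lit 5937) (nat_lit 322) (.e (nat_lit 57428) (nat_lit 15) (.e (nat_lit 360457) (nat_lit 0) .nil))) .nil)) 
(.lf (nat_lit 115451) (.g (nat_lit 3290) (.e (nat_lit 5937) (nat_lit 322) (.e (nat_lit 57447) (nat_lit 19) (.e (nat_lit 393234) (nat_lit 17) (.e (nat_lit 7581) (nat_lit 405) (.e (nat_lit 57477) (nat_lit 28) (.e (nat_lit 557104) (nat_lit 14) (.e (nat_lit 188160) (nat_lit 0) .nil))))))) (.g (nat_lit 6) .nil .nil)))))) (.nd (nat_lit 3) (.nd (nat_lit 4) (.nd (nat_lit 5) 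
(.lf (nat_lit 115399) (.g (nat_lit 2095) (.e (nat_lit 5937) (nat_lit 322) (.e (nat_lit 57411) (nat_lit 12) (.e (nat_lit 336443) (nat_lit 32) (.e (nat_lit 466977) (nat_lit 22) (.e (nat_lit 196654) (nat_lit 11) (.e (nat_lit 16386) (nat_lit 0) (.e (nat_lit 2536) (nat_lit 157) .nil))))))) (.g (nat_lit 4) .nil .nil))) 
(.lf (nat_lit 115431) (.g (nat_lit 646) (.e (nat_lit 5937) (nat_lit 322) (.e (nat_lit 57437) (nat_lit 17) (.e (nat_lit 376859) (nat_lit 21) .nil))) .nil))) (.nd (nat_lit 5) 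
(.lf (nat_lit 115415) (.g (nat_lit 934) (.e (nat_lit 5937) (nat_lit 322) (.e (nat_lit 57424) (nat_lit 14) (.e (nat_lit 352270) (nat_lit 8) .nil))) .nil)) 
(.lf (nat_lit 115447) (.g (nat_lit 2137) (.e (nat_lit 5937) (nat_lit 322) (.e (nat_lit 57447) (nat_lit 19) (.e (nat_lit 393234) (nat_lit 17) (.e (nat_lit 7581) (nat_lit 405) (.e (nat_lit 57476) (nat_lit 28) .nil))))) .nil)))) (.nd (nat_lit 4) (.nd (nat_lit 5) 
(.lf (nat_lit 115407) (.g (nat_lit 2160) (.e (nat_lit 5937) (nat_lit 322) (.e (nat_lit 57411) (nat_lit 12) (.e (nat_lit 336443) (nat_lit 32) (.e (nat_lit 466979) (nat_lit 23) (.e (nat_lit 204809) (nat_lit 9) (.e (nat_lit 426031) (nat_lit 0) (.e (nat_lit 2466) (nat_lit 157) .nil))))))) (.g (nat_lit 5) .nil .nil))) 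
(.lf (nat_lit 115439) (.g (nat_lit 2174) (.e (nat_lit 5937) (nat_lit 322) (.e (nat_lit 57445) (nat_lit 19) (.e (nat_lit 393232) (nat_lit 17) (.e (nat_lit 7581) (nat_lit 405) (.e (nat_lit 57480) (nat_lit 28) .nil))))) .nil))) (.nd (nat_lit 5) 
(.lf (nat_lit 115423) (.g (nat_lit 1810) (.e (nat_lit 5937) (nat_lit 322) (.e (nat_lit 57437) (nat_lit 17) (.e (nat_lit 376835) (nat_lit 0) (.e (nat_lit 3746) (nat_lit 228) (.e (nat_lit 786481) (nat_lit 30) (.e (nat_lit 368384) (nat_lit 0) .nil)))))) (.g (nat_lit 5) .nil .nil))) 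
(.lf (nat_lit 115455) (.g (nat_lit 2580) (.e (nat_lit 5937) (nat_lit 322) (.e (nat_lit 57447) (nat_lit 19) (.e (nat_lit 393234) (nat_lit 17) (.e (nat_lit 7583) (nat_lit 405) (.e (nat_lit 57476) (nat_lit 28) (.e (nat_lit 557103) (nat_lit 14) (.e (nat_lit 180224) (nat_lit 0) .nil))))))) (.g (nat_lit 5) .nil .nil)))))))))

noncomputable def tv1555 : DT := (.nd (nat_lit 0) (.nd (nat_lit 1) (.nd (nat_lit 2) (.nd (nat_lit 3) (.nd (nat_lit 4) (.nd (nat_lit 5) (.nd (nat_lit 6) 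
(.lf (nat_lit 115456) (.g (nat_lit 3268) (.e (nat_lit 5937) (nat_lit 322) (.e (nat_lit 57447) (nat_lit 19) (.e (nat_lit 393234) (nat_lit 17) (.e (nat_lit 7583) (nat_lit 405) (.e (nat_lit 57476) (nat_lit 28) (.e (nat_lit 557104) (nat_lit 14) (.e (nat_lit 180224) (nat_lit 0) .nil))))))) (.g (nat_lit 6) .nil .nil))) 
(.lf (nat_lit 115520) (.g (nat_lit 1159) (.e (nat_lit 5938) (nat_lit 322) (.e (nat_lit 57372) (nat_lit 2) (.e (nat_lit 90176) (nat_lit 15) (.e (nat_lit 196352) (nat_lit 18) .nil)))) .nil))) (.nd (nat_lit 6) 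
(.lf (nat_lit 115488) (.g (nat_lit 1367) (.e (nat_lit 5937) (nat_lit 322) (.e (nat_lit 57448) (nat_lit 19) (.e (nat_lit 393234) (nat_lit 17) (.e (nat_lit 7583) (nat_lit 405) .nil)))) .nil)) 
(.lf (nat_lit 115552) (.g (nat_lit 1705) (.e (nat_lit 5938) (nat_lit 322) (.e (nat_lit 57375) (nat_lit 2) (.e (nat_lit 90185) (nat_lit 17) (.e (nat_lit 237621) (nat_lit 13) (.e (nat_lit 483337) (nat_lit 9) .nil))))) .nil)))) (.nd (nat_lit 5) (.nd (nat_lit 6) 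
(.lf (nat_lit 115472) (.g (nat_lit 1357) (.e (nat_lit 5937) (nat_lit 322) (.e (nat_lit 57448) (nat_lit 19) (.e (nat_lit 393232) (nat_lit 17) (.e (nat_lit 7581) (nat_lit 405) .nil)))) .nil)) 
(.lf (nat_lit 115536) (.g (nat_lit 2060) (.e (nat_lit 5938) (nat_lit 322) (.e (nat_lit 57375) (nat_lit 2) (.e (nat_lit 90172) (nat_lit 14) (.e (nat_lit 180244) (nat_lit 5) (.e (nat_lit 532508) (nat_lit 2) .nil))))) .nil))) (.nd (nat_lit 6) 
(.lf (nat_lit 115504) (.g (nat_lit 3759) (.e (nat_lit 5937) (nat_lit 322) (.e (nat_lit 57448) (nat_lit 19) (.e (nat_lit 393301) (nat_lit 27) (.e (nat_lit 491526) (nat_lit 0) (.e (nat_lit 1848) (nat_lit 124) (.e (nat_lit 557104) (nat_lit 14) (.e (nat_lit 188160) (nat_lit 0) .nil))))))) (.g (nat_lit 6) .nil .nil))) 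
(.lf (nat_lit 115568) (.g (nat_lit 2196) (.e (nat_lit 5939) (nat_lit 322) (.e (nat_lit 57372) (nat_lit 2) (.e (nat_lit 90172) (nat_lit 14) (.e (nat_lit 180243) (nat_lit 5) (.e (nat_lit 532508) (nat_lit 2) .nil))))) .nil))))) (.nd (nat_lit 4) (.nd (nat_lit 5) (.nd (nat_lit 6) 
(.lf (nat_lit 115464) (.g (nat_lit 2281) (.e (nat_lit 5937) (nat_lit 322) (.e (nat_lit 57447) (nat_lit 19) (.e (nat_lit 393281) (nat_lit 23) (.e (nat_lit 426116) (nat_lit 2) (.e (nat_lit 196654) (nat_lit 11) (.e (nat_lit 16394) (nat_lit 0) (.e (nat_lit 2466) (nat_lit 157) .nil))))))) (.g (nat_lit 4) .nil .nil))) 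
(.lf (nat_lit 115528) (.g (nat_lit 2617) (.e (nat_lit 5938) (nat_lit 322) (.e (nat_lit 57374) (nat_lit 2) (.e (nat_lit 90170) (nat_lit 13) (.e (nat_lit 172067) (nat_lit 3) (.e (nat_lit 204834) (nat_lit 19) .nil))))) .nil))) (.nd (nat_lit 6) 
(.lf (nat_lit 115496) (.g (nat_lit 2185) (.e (nat_lit 5937) (nat_lit 322) (.e (nat_lit 57448) (nat_lit 19) (.e (nat_lit 393281) (nat_lit 23) (.e (nat_lit 426133) (nat_lit 3) (.e (nat_lit 204809) (nat_lit 9) (.e (nat_lit 426031) (nat_lit 0) (.e (nat_lit 2466) (nat_lit 157) .nil))))))) (.g (nat_lit 5) .nil .nil))) 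
(.lf (nat_lit 115560) (.g (nat_lit 1253) (.e (nat_lit 5938) (nat_lit 322) (.e (nat_lit 57400) (nat_lit 10) (.e (nat_lit 319533) (nat_lit 16) (.e (nat_lit 286760) (nat_lit 13) .nil)))) .nil)))) (.nd (nat_lit 5) (.nd (nat_lit 6) 
(.lf (nat_lit 115480) (.g (nat_lit 3631) (.e (nat_lit 5937) (nat_lit 322) (.e (nat_lit 57448) (nat_lit 19) (.e (nat_lit 393234) (nat_lit 17) (.e (nat_lit 7581) (nat_lit 405) (.e (nat_lit 57476) (nat_lit 28) (.e (nat_lit 557104) (nat_lit 14) (.e (nat_lit 180224) (nat_lit 0) .nil))))))) (.g (nat_lit 6) .nil .nil))) 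
(.lf (nat_lit 115544) (.g (nat_lit 1196) (.e (nat_lit 5938) (nat_lit 322) (.e (nat_lit 57375) (nat_lit 2) (.e (nat_lit 90176) (nat_lit 15) (.e (nat_lit 196352) (nat_lit 18) .nil)))) .nil))) (.nd (nat_lit 6) 
(.lf (nat_lit 115512) (.g (nat_lit 1980) (.e (nat_lit 5938) (nat_lit 322) (.e (nat_lit 57372) (nat_lit 2) (.e (nat_lit 90172) (nat_lit 14) (.e (nat_lit 180244) (nat_lit 5) (.e (nat_lit 532508) (nat_lit 2) .nil))))) .nil)) 
(.lf (nat_lit 115576) (.g (nat_lit 2368) (.e (nat_lit 5939) (nat_lit 322) (.e (nat_lit 57372) (nat_lit 2) (.e (nat_lit 90172) (nat_lit 14) (.e (nat_lit 180244) (nat_lit 5) (.e (nat_lit 532508) (nat_lit 2) (.e (nat_lit 106517) (nat_lit 9) (.e (nat_lit 1255) (nat_lit 92) (.e (nat_lit 98321) (nat_lit 17) (.e (nat_lit 2464) (nat_lit 157) .nil))))))))) (.g (nat_lit 4) .nil .nil))))))) 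
(.nd (nat_lit 3) (.nd (nat_lit 4) (.nd (nat_lit 5) (.nd (nat_lit 6) 
(.lf (nat_lit 115460) (.g (nat_lit 630) (.e (nat_lit 5937) (nat_lit 322) (.e (nat_lit 57447) (nat_lit 19) (.e (nat_lit 393281) (nat_lit 23) .nil))) .nil)) 
(.lf (nat_lit 115524) (.g (nat_lit 2111) (.e (nat_lit 5938) (nat_lit 322) (.e (nat_lit 57374) (nat_lit 2) (.e (nat_lit 90170) (nat_lit 13) (.e (nat_lit 172065) (nat_lit 3) .nil)))) .nil))) (.nd (nat_lit 6) 
(.lf (nat_lit 115492) (.g (nat_lit 626) (.e (nat_lit 5937) (nat_lit 322) (.e (nat_lit 57448) (nat_lit 19) (.e (nat_lit 393270) (nat_lit 23) .nil))) .nil)) 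
(.lf (nat_lit 115556) (.g (nat_lit 1619) (.e (nat_lit 5938) (nat_lit 322) (.e (nat_lit 57379) (nat_lit 3) (.e (nat_lit 98365) (nat_lit 26) (.e (nat_lit 426188) (nat_lit 9) .nil)))) .nil)))) (.nd (nat_lit 5) (.nd (nat_lit 6) 
(.lf (nat_lit 115476) (.g (nat_lit 1804) (.e (nat_lit 5937) (nat_lit 322) (.e (nat_lit 57448) (nat_lit 19) (.e (nat_lit 393233) (nat_lit 17) (.e (nat_lit 7581) (nat_lit 405) (.e (nat_lit 57480) (nat_lit 28) (.e (nat_lit 557105) (nat_lit 14) (.e (nat_lit 180224) (nat_lit 0) .nil))))))) (.g (nat_lit 4) .nil .nil))) 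
(.lf (nat_lit 115540) (.g (nat_lit 2040) (.e (nat_lit 5938) (nat_lit 322) (.e (nat_lit 57375) (nat_lit 2) (.e (nat_lit 90174) (nat_lit 14) (.e (nat_lit 180243) (nat_lit 5) (.e (nat_lit 532508) (nat_lit 2) .nil))))) .nil))) (.nd (nat_lit 6) 
(.lf (nat_lit 115508) (.g (nat_lit 1746) (.e (nat_lit 5938) (nat_lit 322) (.e (nat_lit 57372) (nat_lit 2) (.e (nat_lit 90172) (nat_lit 14) (.e (nat_lit 180243) (nat_lit 5) (.e (nat_lit 532508) (nat_lit 2) .nil))))) .nil)) 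
(.lf (nat_lit 115572) (.g (nat_lit 3155) (.e (nat_lit 5939) (nat_lit 322) (.e (nat_lit 57372) (nat_lit 2) (.e (nat_lit 90172) (nat_lit 14) (.e (nat_lit 180243) (nat_lit 5) (.e (nat_lit 532515) (nat_lit 3) (.e (nat_lit 114716) (nat_lit 22) (.e (nat_lit 90181) (nat_lit 16) (.e (nat_lit 229376) (nat_lit 0) .nil)))))))) (.g (nat_lit 5) .nil .nil)))))) 
(.nd (nat_lit 4) (.nd (nat_lit 5) (.nd (nat_lit 6) 
(.lf (nat_lit 115468) (.g (nat_lit 1971) (.e (nat_lit 5937) (nat_lit 322) (.e (nat_lit 57447) (nat_lit 19) (.e (nat_lit 393301) (nat_lit 27) (.e (nat_lit 491520) (nat_lit 0) .nil)))) .nil)) 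
(.lf (nat_lit 115532) (.g (nat_lit 2047) (.e (nat_lit 5938) (nat_lit 322) (.e (nat_lit 57374) (nat_lit 2) (.e (nat_lit 90170) (nat_lit 13) (.e (nat_lit 172123) (nat_lit 13) (.e (nat_lit 491264) (nat_lit 10) (.e (nat_lit 434199) (nat_lit 18) .nil)))))) (.g (nat_lit 4) .nil .nil)))) (.nd (nat_lit 6) 
(.lf (nat_lit 115500) (.g (nat_lit 2042) (.e (nat_lit 5937) (nat_lit 322) (.e (nat_lit 57448) (nat_lit 19) (.e (nat_lit 393301) (nat_lit 27) (.e (nat_lit 491520) (nat_lit 0) (.e (nat_lit 1859) (nat_lit 124) .nil))))) .nil)) 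
(.lf (nat_lit 115564) (.g (nat_lit 1677) (.e (nat_lit 5938) (nat_lit 322) (.e (nat_lit 57400) (nat_lit 10) (.e (nat_lit 319534) (nat_lit 16) (.e (nat_lit 286761) (nat_lit 13) (.e (nat_lit 393289) (nat_lit 25) .nil))))) .nil)))) (.nd (nat_lit 5) (.nd (nat_lit 6) 
(.lf (nat_lit 115484) (.g (nat_lit 3467) (.e (nat_lit 5937) (nat_lit 322) (.e (nat_lit 57448) (nat_lit 19) (.e (nat_lit 393234) (nat_lit 17) (.e (nat_lit 7581) (nat_lit 405) (.e (nat_lit 57477) (nat_lit 28) (.e (nat_lit 557104) (nat_lit 14) (.e (nat_lit 188160) (nat_lit 0) .nil))))))) (.g (nat_lit 6) .nil .nil))) 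
(.lf (nat_lit 115548) (.g (nat_lit 1402) (.e (nat_lit 5938) (nat_lit 322) (.e (nat_lit 57375) (nat_lit 2) (.e (nat_lit 90178) (nat_lit 15) (.e (nat_lit 196352) (nat_lit 18) .nil)))) .nil))) (.nd (nat_lit 6) 
(.lf (nat_lit 115516) (.g (nat_lit 1607) (.e (nat_lit 5938) (nat_lit 322) (.e (nat_lit 57372) (nat_lit 2) (.e (nat_lit 90174) (nat_lit 14) (.e (nat_lit 180243) (nat_lit 5) .nil)))) .nil)) 
(.lf (nat_lit 115580) (.g (nat_lit 4035) (.e (nat_lit 5939) (nat_lit 322) (.e (nat_lit 57372) (nat_lit 2) (.e (nat_lit 90172) (nat_lit 14) (.e (nat_lit 180244) (nat_lit 5) (.e (nat_lit 532515) (nat_lit 3) (.e (nat_lit 114716) (nat_lit 22) (.e (nat_lit 90164) (nat_lit 12) (.e (nat_lit 163850) (nat_lit 0) .nil)))))))) (.g (nat_lit 8) .nil .nil)))))))) 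
(.nd (nat_lit 2) (.nd (nat_lit 3) (.nd (nat_lit 4) (.nd (nat_lit 5) (.nd (nat_lit 6) 
(.lf (nat_lit 115458) (.g (nat_lit 2191) (.e (nat_lit 5937) (nat_lit 322) (.e (nat_lit 57447) (nat_lit 19) (.e (nat_lit 393271) (nat_lit 23) (.e (nat_lit 426131) (nat_lit 3) (.e (nat_lit 212736) (nat_lit 10) .nil))))) .nil)) 
(.lf (nat_lit 115522) (.g (nat_lit 1555) (.e (nat_lit 5938) (nat_lit 322) (.e (nat_lit 57372) (nat_lit 2) (.e (nat_lit 90176) (nat_lit 15) (.e (nat_lit 188459) (nat_lit 26) (.e (nat_lit 261888) (nat_lit 5) .nil))))) .nil))) (.nd (nat_lit 6) 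
(.lf (nat_lit 115490) (.g (nat_lit 3356) (.e (nat_lit 5937) (nat_lit 322) (.e (nat_lit 57448) (nat_lit 19) (.e (nat_lit 393234) (nat_lit 17) (.e (nat_lit 7583) (nat_lit 405) (.e (nat_lit 57476) (nat_lit 28) (.e (nat_lit 557104) (nat_lit 14) (.e (nat_lit 180224) (nat_lit 0) .nil))))))) (.g (nat_lit 6) .nil .nil))) 
(.lf (nat_lit 115554) (.g (nat_lit 1723) (.e (nat_lit 5938) (nat_lit 322) (.e (nat_lit 57375) (nat_lit 2) (.e (nat_lit 90185) (nat_lit 17) (.e (nat_lit 237624) (nat_lit 13) (.e (nat_lit 483341) (nat_lit 9) .nil))))) .nil)))) (.nd (nat_lit 5) (.nd (nat_lit 6) 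
(.lf (nat_lit 115474) (.g (nat_lit 1089) (.e (nat_lit 5937) (nat_lit 322) (.e (nat_lit 57448) (nat_lit 19) (.e (nat_lit 393233) (nat_lit 17) (.e (nat_lit 7581) (nat_lit 405) .nil)))) .nil)) 
(.lf (nat_lit 115538) (.g (nat_lit 3581) (.e (nat_lit 5938) (nat_lit 322) (.e (nat_lit 57375) (nat_lit 2) (.e (nat_lit 90172) (nat_lit 14) (.e (nat_lit 180244) (nat_lit 5) (.e (nat_lit 532515) (nat_lit 3) (.e (nat_lit 114716) (nat_lit 22) (.e (nat_lit 90181) (nat_lit 16) (.e (nat_lit 229376) (nat_lit 0) .nil)))))))) (.g (nat_lit 8) .nil .nil)))) (.nd (nat_lit 6) 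
(.lf (nat_lit 115506) (.g (nat_lit 2041) (.e (nat_lit 5937) (nat_lit 322) (.e (nat_lit 57450) (nat_lit 20) (.e (nat_lit 401454) (nat_lit 12) (.e (nat_lit 475208) (nat_lit 41) .nil)))) .nil)) 
(.lf (nat_lit 115570) (.g (nat_lit 2208) (.e (nat_lit 5939) (nat_lit 322) (.e (nat_lit 57372) (nat_lit 2) (.e (nat_lit 90172) (nat_lit 14) (.e (nat_lit 180243) (nat_lit 5) (.e (nat_lit 532515) (nat_lit 3) .nil))))) .nil))))) (.nd (nat_lit 4) (.nd (nat_lit 5) (.nd (nat_lit 6) 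
(.lf (nat_lit 115466) (.g (nat_lit 1398) (.e (nat_lit 5937) (nat_lit 322) (.e (nat_lit 57447) (nat_lit 19) (.e (nat_lit 393281) (nat_lit 23) (.e (nat_lit 426133) (nat_lit 3) .nil)))) .nil)) 
(.lf (nat_lit 115530) (.g (nat_lit 2542) (.e (nat_lit 5938) (nat_lit 322) (.e (nat_lit 57374) (nat_lit 2) (.e (nat_lit 90170) (nat_lit 13) (.e (nat_lit 172067) (nat_lit 3) (.e (nat_lit 204838) (nat_lit 20) .nil))))) .nil))) (.nd (nat_lit 6) 
(.lf (nat_lit 115498) (.g (nat_lit 1635) (.e (nat_lit 5937) (nat_lit 322) (.e (nat_lit 57448) (nat_lit 19) (.e (nat_lit 393281) (nat_lit 23) (.e (nat_lit 426133) (nat_lit 3) (.e (nat_lit 212736) (nat_lit 10) (.e (nat_lit 442112) (nat_lit 18) .nil)))))) (.g (nat_lit 4) .nil .nil))) 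
(.lf (nat_lit 115562) (.g (nat_lit 1943) (.e (nat_lit 5938) (nat_lit 322) (.e (nat_lit 57400) (nat_lit 10) (.e (nat_lit 319533) (nat_lit 16) (.e (nat_lit 286761) (nat_lit 13) (.e (nat_lit 393289) (nat_lit 25) .nil))))) .nil)))) (.nd (nat_lit 5) (.nd (nat_lit 6) 
(.lf (nat_lit 115482) (.g (nat_lit 3420) (.e (nat_lit 5937) (nat_lit 322) (.e (nat_lit 57448) (nat_lit 19) (.e (nat_lit 393234) (nat_lit 17) (.e (nat_lit 7581) (nat_lit 405) (.e (nat_lit 57477) (nat_lit 28) (.e (nat_lit 557103) (nat_lit 14) (.e (nat_lit 188160) (nat_lit 0) .nil))))))) (.g (nat_lit 6) .nil .nil))) 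
(.lf (nat_lit 115546) (.g (nat_lit 1665) (.e (nat_lit 5938) (nat_lit 322) (.e (nat_lit 57375) (nat_lit 2) (.e (nat_lit 90176) (nat_lit 15) (.e (nat_lit 188431) (nat_lit 20) (.e (nat_lit 3547) (nat_lit 219) .nil))))) .nil))) (.nd (nat_lit 6) 
(.lf (nat_lit 115514) (.g (nat_lit 3561) (.e (nat_lit 5938) (nat_lit 322) (.e (nat_lit 57372) (nat_lit 2) (.e (nat_lit 90172) (nat_lit 14) (.e (nat_lit 180244) (nat_lit 5) (.e (nat_lit 532515) (nat_lit 3) (.e (nat_lit 114716) (nat_lit 22) (.e (nat_lit 90181) (nat_lit 16) (.e (nat_lit 229376) (nat_lit 0) .nil)))))))) (.g (nat_lit 8) .nil .nil))) 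
(.lf (nat_lit 115578) (.g (nat_lit 2160) (.e (nat_lit 5939) (nat_lit 322) (.e (nat_lit 57372) (nat_lit 2) (.e (nat_lit 90172) (nat_lit 14) (.e (nat_lit 180244) (nat_lit 5) (.e (nat_lit 532515) (nat_lit 3) .nil))))) .nil)))))) (.nd (nat_lit 3) (.nd (nat_lit 4) (.nd (nat_lit 5) (.nd (nat_lit 6) 
(.lf (nat_lit 115462) (.g (nat_lit 2078) (.e (nat_lit 5937) (nat_lit 322) (.e (nat_lit 57447) (nat_lit 19) (.e (nat_lit 393281) (nat_lit 23) (.e (nat_lit 426116) (nat_lit 2) (.e (nat_lit 196654) (nat_lit 11) .nil))))) .nil)) 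
(.lf (nat_lit 115526) (.g (nat_lit 2688) (.e (nat_lit 5938) (nat_lit 322) (.e (nat_lit 57374) (nat_lit 2) (.e (nat_lit 90170) (nat_lit 13) (.e (nat_lit 172065) (nat_lit 3) (.e (nat_lit 204838) (nat_lit 20) .nil))))) .nil))) (.nd (nat_lit 6) 
(.lf (nat_lit 115494) (.g (nat_lit 1302) (.e (nat_lit 5937) (nat_lit 322) (.e (nat_lit 57448) (nat_lit 19) (.e (nat_lit 393281) (nat_lit 23) (.e (nat_lit 426116) (nat_lit 2) (.e (nat_lit 196654) (nat_lit 11) .nil))))) .nil)) 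
(.lf (nat_lit 115558) (.g (nat_lit 1688) (.e (nat_lit 5938) (nat_lit 322) (.e (nat_lit 57400) (nat_lit 10) (.e (nat_lit 319530) (nat_lit 16) (.e (nat_lit 286761) (nat_lit 13) (.e (nat_lit 393289) (nat_lit 25) .nil))))) .nil)))) (.nd (nat_lit 5) (.nd (nat_lit 6) 
(.lf (nat_lit 115478) (.g (nat_lit 2200) (.e (nat_lit 5937) (nat_lit 322) (.e (nat_lit 57448) (nat_lit 19) (.e (nat_lit 393234) (nat_lit 17) (.e (nat_lit 7581) (nat_lit 405) (.e (nat_lit 57476) (nat_lit 28) .nil))))) .nil)) 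
(.lf (nat_lit 115542) (.g (nat_lit 1196) (.e (nat_lit 5938) (nat_lit 322) (.e (nat_lit 57375) (nat_lit 2) (.e (nat_lit 90176) (nat_lit 15) (.e (nat_lit 196352) (nat_lit 11) .nil)))) .nil))) (.nd (nat_lit 6) 
(.lf (nat_lit 115510) (.g (nat_lit 2575) (.e (nat_lit 5938) (nat_lit 322) (.e (nat_lit 57372) (nat_lit 2) (.e (nat_lit 90172) (nat_lit 14) (.e (nat_lit 180243) (nat_lit 5) (.e (nat_lit 532515) (nat_lit 3) (.e (nat_lit 114716) (nat_lit 22) (.e (nat_lit 90181) (nat_lit 16) (.e (nat_lit 229376) (nat_lit 0) .nil)))))))) (.g (nat_lit 5) .nil .nil))) 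
(.lf (nat_lit 115574) (.g (nat_lit 2993) (.e (nat_lit 5939) (nat_lit 322) (.e (nat_lit 57372) (nat_lit 2) (.e (nat_lit 90172) (nat_lit 14) (.e (nat_lit 180243) (nat_lit 5) (.e (nat_lit 532515) (nat_lit 3) (.e (nat_lit 114716) (nat_lit 22) (.e (nat_lit 90182) (nat_lit 16) (.e (nat_lit 229379) (nat_lit 0) .nil)))))))) (.g (nat_lit 5) .nil .nil)))))) 
(.nd (nat_lit 4) (.nd (nat_lit 5) (.nd (nat_lit 6) 
(.lf (nat_lit 115470) (.g (nat_lit 2852) (.e (nat_lit 5937) (nat_lit 322) (.e (nat_lit 57447) (nat_lit 19) (.e (nat_lit 393301) (nat_lit 27) (.e (nat_lit 491526) (nat_lit 0) (.e (nat_lit 1855) (nat_lit 124) (.e (nat_lit 557105) (nat_lit 14) (.e (nat_lit 180224) (nat_lit 0) .nil))))))) (.g (nat_lit 4) .nil .nil))) 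
(.lf (nat_lit 115534) (.g (nat_lit 2636) (.e (nat_lit 5938) (nat_lit 322) (.e (nat_lit 57375) (nat_lit 2) (.e (nat_lit 90172) (nat_lit 14) (.e (nat_lit 180243) (nat_lit 5) (.e (nat_lit 532515) (nat_lit 3) (.e (nat_lit 114716) (nat_lit 22) (.e (nat_lit 90181) (nat_lit 16) (.e (nat_lit 229376) (nat_lit 0) .nil)))))))) (.g (nat_lit 5) .nil .nil)))) (.nd (nat_lit 6) 
(.lf (nat_lit 115502) (.g (nat_lit 2555) (.e (nat_lit 5937) (nat_lit 322) (.e (nat_lit 57448) (nat_lit 19) (.e (nat_lit 393301) (nat_lit 27) (.e (nat_lit 491526) (nat_lit 0) (.e (nat_lit 1848) (nat_lit 124) (.e (nat_lit 557097) (nat_lit 13) (.e (nat_lit 172045) (nat_lit 0) (.e (nat_lit 2468) (nat_lit 157) .nil)))))))) (.g (nat_lit 4) .nil .nil))) 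
(.lf (nat_lit 115566) (.g (nat_lit 632) (.e (nat_lit 5939) (nat_lit 322) (.e (nat_lit 57372) (nat_lit 2) (.e (nat_lit 90172) (nat_lit 14) .nil))) .nil)))) (.nd (nat_lit 5) (.nd (nat_lit 6) 
(.lf (nat_lit 115486) (.g (nat_lit 4036) (.e (nat_lit 5937) (nat_lit 322) (.e (nat_lit 57448) (nat_lit 19) (.e (nat_lit 393234) (nat_lit 17) (.e (nat_lit 7581) (nat_lit 405) (.e (nat_lit 57480) (nat_lit 28) (.e (nat_lit 557105) (nat_lit 14) (.e (nat_lit 180224) (nat_lit 0) .nil))))))) (.g (nat_lit 7) .nil .nil))) 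
(.lf (nat_lit 115550) (.g (nat_lit 1395) (.e (nat_lit 5938) (nat_lit 322) (.e (nat_lit 57375) (nat_lit 2) (.e (nat_lit 90185) (nat_lit 17) (.e (nat_lit 237605) (nat_lit 9) .nil)))) .nil))) (.nd (nat_lit 6) 
(.lf (nat_lit 115518) (.g (nat_lit 874) (.e (nat_lit 5938) (nat_lit 322) (.e (nat_lit 57372) (nat_lit 2) (.e (nat_lit 90176) (nat_lit 15) (.e (nat_lit 188423) (nat_lit 11) .nil)))) .nil)) 
(.lf (nat_lit 115582) (.g (nat_lit 3899) (.e (nat_lit 5939) (nat_lit 322) (.e (nat_lit 57372) (nat_lit 2) (.e (nat_lit 90172) (nat_lit 14) (.e (nat_lit 180244) (nat_lit 5) (.e (nat_lit 532515) (nat_lit 3) (.e (nat_lit 114716) (nat_lit 22) (.e (nat_lit 90181) (nat_lit 16) (.e (nat_lit 229378) (nat_lit 0) .nil)))))))) (.g (nat_lit 7) .nil .nil))))))))) 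
(.nd (nat_lit 1) (.nd (nat_lit 2) (.nd (nat_lit 3) (.nd (nat_lit 4) (.nd (nat_lit 5) 
(.nd (nat_lit 6) 
(.lf (nat_lit 115457) (.g (nat_lit 1473) (.e (nat_lit 5937) (nat_lit 322) (.e (nat_lit 57447) (nat_lit 19) (.e (nat_lit 393266) (nat_lit 23) (.e (nat_lit 426140) (nat_lit 3) .nil)))) .nil)) 
(.lf (nat_lit 115521) (.g (nat_lit 1561) (.e (nat_lit 5938) (nat_lit 322) (.e (nat_lit 57372) (nat_lit 2) (.e (nat_lit 90176) (nat_lit 15) (.e (nat_lit 188431) (nat_lit 20) (.e (nat_lit 3547) (nat_lit 219) .nil))))) .nil))) (.nd (nat_lit 6) 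
(.lf (nat_lit 115489) (.g (nat_lit 2667) (.e (nat_lit 5937) (nat_lit 322) (.e (nat_lit 57448) (nat_lit 19) (.e (nat_lit 393234) (nat_lit 17) (.e (nat_lit 7583) (nat_lit 405) (.e (nat_lit 57476) (nat_lit 28) (.e (nat_lit 557103) (nat_lit 14) (.e (nat_lit 180224) (nat_lit 0) .nil))))))) (.g (nat_lit 5) .nil .nil))) 
(.lf (nat_lit 115553) (.g (nat_lit 1653) (.e (nat_lit 5938) (nat_lit 322) (.e (nat_lit 57375) (nat_lit 2) (.e (nat_lit 90185) (nat_lit 17) (.e (nat_lit 237624) (nat_lit 13) (.e (nat_lit 483337) (nat_lit 9) .nil))))) .nil)))) (.nd (nat_lit 5) (.nd (nat_lit 6) 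
(.lf (nat_lit 115473) (.g (nat_lit 626) (.e (nat_lit 5937) (nat_lit 322) (.e (nat_lit 57448) (nat_lit 19) (.e (nat_lit 393233) (nat_lit 17) .nil))) .nil)) 
(.lf (nat_lit 115537) (.g (nat_lit 1829) (.e (nat_lit 5938) (nat_lit 322) (.e (nat_lit 57375) (nat_lit 2) (.e (nat_lit 90172) (nat_lit 14) (.e (nat_lit 180244) (nat_lit 5) (.e (nat_lit 532515) (nat_lit 3) .nil))))) .nil))) (.nd (nat_lit 6) 
(.lf (nat_lit 115505) (.g (nat_lit 2222) (.e (nat_lit 5937) (nat_lit 322) (.e (nat_lit 57449) (nat_lit 20) (.e (nat_lit 401454) (nat_lit 12) (.e (nat_lit 475208) (nat_lit 41) (.e (nat_lit 712755) (nat_lit 30) (.e (nat_lit 450560) (nat_lit 0) .nil)))))) (.g (nat_lit 4) .nil .nil))) 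
(.lf (nat_lit 115569) (.g (nat_lit 3261) (.e (nat_lit 5939) (nat_lit 322) (.e (nat_lit 57372) (nat_lit 2) (.e (nat_lit 90172) (nat_lit 14) (.e (nat_lit 180243) (nat_lit 5) (.e (nat_lit 532513) (nat_lit 3) (.e (nat_lit 114714) (nat_lit 22) (.e (nat_lit 90165) (nat_lit 12) (.e (nat_lit 171776) (nat_lit 0) .nil)))))))) (.g (nat_lit 5) .nil .nil)))))) 
(.nd (nat_lit 4) (.nd (nat_lit 5) (.nd (nat_lit 6) 
(.lf (nat_lit 115465) (.g (nat_lit 2167) (.e (nat_lit 5937) (nat_lit 322) (.e (nat_lit 57447) (nat_lit 19) (.e (nat_lit 393281) (nat_lit 23) (.e (nat_lit 426116) (nat_lit 2) (.e (nat_lit 196654) (nat_lit 11) (.e (nat_lit 16395) (nat_lit 0) (.e (nat_lit 2466) (nat_lit 157) .nil))))))) (.g (nat_lit 4) .nil .nil))) 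
(.lf (nat_lit 115529) (.g (nat_lit 2564) (.e (nat_lit 5938) (nat_lit 322) (.e (nat_lit 57374) (nat_lit 2) (.e (nat_lit 90170) (nat_lit 13) (.e (nat_lit 172067) (nat_lit 3) (.e (nat_lit 204837) (nat_lit 20) .nil))))) .nil))) (.nd (nat_lit 6) 
(.lf (nat_lit 115497) (.g (nat_lit 1509) (.e (nat_lit 5937) (nat_lit 322) (.e (nat_lit 57448) (nat_lit 19) (.e (nat_lit 393281) (nat_lit 23) (.e (nat_lit 426133) (nat_lit 3) (.e (nat_lit 212736) (nat_lit 10) .nil))))) .nil)) 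
(.lf (nat_lit 115561) (.g (nat_lit 2614) (.e (nat_lit 5938) (nat_lit 322) (.e (nat_lit 57400) (nat_lit 10) (.e (nat_lit 319533) (nat_lit 16) (.e (nat_lit 286761) (nat_lit 13) (.e (nat_lit 393288) (nat_lit 25) .nil))))) .nil)))) (.nd (nat_lit 5) (.nd (nat_lit 6) 
(.lf (nat_lit 115481) (.g (nat_lit 3374) (.e (nat_lit 5937) (nat_lit 322) (.e (nat_lit 57448) (nat_lit 19) (.e (nat_lit 393234) (nat_lit 17) (.e (nat_lit 7581) (nat_lit 405) (.e (nat_lit 57476) (nat_lit 28) (.e (nat_lit 557104) (nat_lit 14) (.e (nat_lit 188160) (nat_lit 0) .nil))))))) (.g (nat_lit 6) .nil .nil))) 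
(.lf (nat_lit 115545) (.g (nat_lit 1755) (.e (nat_lit 5938) (nat_lit 322) (.e (nat_lit 57375) (nat_lit 2) (.e (nat_lit 90176) (nat_lit 15) (.e (nat_lit 196352) (nat_lit 18) (.e (nat_lit 393234) (nat_lit 17) (.e (nat_lit 2536) (nat_lit 157) .nil)))))) (.g (nat_lit 5) .nil .nil)))) (.nd (nat_lit 6) 
(.lf (nat_lit 115513) (.g (nat_lit 1811) (.e (nat_lit 5938) (nat_lit 322) (.e (nat_lit 57372) (nat_lit 2) (.e (nat_lit 90172) (nat_lit 14) (.e (nat_lit 180244) (nat_lit 5) (.e (nat_lit 532515) (nat_lit 3) .nil))))) .nil)) 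
(.lf (nat_lit 115577) (.g (nat_lit 2977) (.e (nat_lit 5939) (nat_lit 322) (.e (nat_lit 57372) (nat_lit 2) (.e (nat_lit 90172) (nat_lit 14) (.e (nat_lit 180244) (nat_lit 5) (.e (nat_lit 532513) (nat_lit 3) (.e (nat_lit 114714) (nat_lit 22) (.e (nat_lit 90181) (nat_lit 16) (.e (nat_lit 229378) (nat_lit 0) .nil)))))))) (.g (nat_lit 5) .nil .nil))))))) 
(.nd (nat_lit 3) (.nd (nat_lit 4) (.nd (nat_lit 5) (.nd (nat_lit 6) 
(.lf (nat_lit 115461) (.g (nat_lit 1512) (.e (nat_lit 5937) (nat_lit 322) (.e (nat_lit 57447) (nat_lit 19) (.e (nat_lit 393281) (nat_lit 23) (.e (nat_lit 426115) (nat_lit 2) .nil)))) .nil)) 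
(.lf (nat_lit 115525) (.g (nat_lit 2793) (.e (nat_lit 5938) (nat_lit 322) (.e (nat_lit 57374) (nat_lit 2) (.e (nat_lit 90170) (nat_lit 13) (.e (nat_lit 172065) (nat_lit 3) (.e (nat_lit 204834) (nat_lit 19) .nil))))) .nil))) (.nd (nat_lit 6) 
(.lf (nat_lit 115493) (.g (nat_lit 1596) (.e (nat_lit 5937) (nat_lit 322) (.e (nat_lit 57448) (nat_lit 19) (.e (nat_lit 393281) (nat_lit 23) (.e (nat_lit 426115) (nat_lit 2) (.e (nat_lit 196654) (nat_lit 11) (.e (nat_lit 16393) (nat_lit 0) (.e (nat_lit 2466) (nat_lit 157) .nil))))))) (.g (nat_lit 5) .nil .nil))) 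
(.lf (nat_lit 115557) (.g (nat_lit 1520) (.e (nat_lit 5938) (nat_lit 322) (.e (nat_lit 57379) (nat_lit 3) (.e (nat_lit 98365) (nat_lit 26) (.e (nat_lit 426325) (nat_lit 13) .nil)))) .nil)))) (.nd (nat_lit 5) (.nd (nat_lit 6) 
(.lf (nat_lit 115477) (.g (nat_lit 1607) (.e (nat_lit 5937) (nat_lit 322) (.e (nat_lit 57448) (nat_lit 19) (.e (nat_lit 393234) (nat_lit 17) (.e (nat_lit 2399) (nat_lit 157) .nil)))) .nil)) 
(.lf (nat_lit 115541) (.g (nat_lit 967) (.e (nat_lit 5938) (nat_lit 322) (.e (nat_lit 57375) (nat_lit 2) (.e (nat_lit 90176) (nat_lit 15) (.e (nat_lit 188423) (nat_lit 11) .nil)))) .nil))) (.nd (nat_lit 6) 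
(.lf (nat_lit 115509) (.g (nat_lit 2765) (.e (nat_lit 5938) (nat_lit 322) (.e (nat_lit 57372) (nat_lit 2) (.e (nat_lit 90172) (nat_lit 14) (.e (nat_lit 180243) (nat_lit 5) (.e (nat_lit 532513) (nat_lit 3) (.e (nat_lit 114714) (nat_lit 22) (.e (nat_lit 90181) (nat_lit 16) (.e (nat_lit 229376) (nat_lit 0) .nil)))))))) (.g (nat_lit 5) .nil .nil))) 
(.lf (nat_lit 115573) (.g (nat_lit 3089) (.e (nat_lit 5939) (nat_lit 322) (.e (nat_lit 57372) (nat_lit 2) (.e (nat_lit 90172) (nat_lit 14) (.e (nat_lit 180243) (nat_lit 5) (.e (nat_lit 532515) (nat_lit 3) (.e (nat_lit 114716) (nat_lit 22) (.e (nat_lit 90181) (nat_lit 16) (.e (nat_lit 229378) (nat_lit 0) .nil)))))))) (.g (nat_lit 5) .nil .nil)))))) 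
(.nd (nat_lit 4) (.nd (nat_lit 5) (.nd (nat_lit 6) 
(.lf (nat_lit 115469) (.g (nat_lit 2594) (.e (nat_lit 5937) (nat_lit 322) (.e (nat_lit 57447) (nat_lit 19) (.e (nat_lit 393301) (nat_lit 27) (.e (nat_lit 491526) (nat_lit 0) (.e (nat_lit 1848) (nat_lit 124) .nil))))) .nil)) 
(.lf (nat_lit 115533) (.g (nat_lit 1800) (.e (nat_lit 5938) (nat_lit 322) (.e (nat_lit 57375) (nat_lit 2) (.e (nat_lit 90172) (nat_lit 14) (.e (nat_lit 180243) (nat_lit 5) (.e (nat_lit 532508) (nat_lit 2) .nil))))) .nil))) (.nd (nat_lit 6) 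
(.lf (nat_lit 115501) (.g (nat_lit 2375) (.e (nat_lit 5937) (nat_lit 322) (.e (nat_lit 57448) (nat_lit 19) (.e (nat_lit 393301) (nat_lit 27) (.e (nat_lit 491526) (nat_lit 0) (.e (nat_lit 1848) (nat_lit 124) .nil))))) .nil)) 
(.lf (nat_lit 115565) (.g (nat_lit 2178) (.e (nat_lit 5938) (nat_lit 322) (.e (nat_lit 57448) (nat_lit 19) (.e (nat_lit 393234) (nat_lit 17) (.e (nat_lit 7581) (nat_lit 405) (.e (nat_lit 57480) (nat_lit 28) .nil))))) .nil)))) (.nd (nat_lit 5) (.nd (nat_lit 6) 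
(.lf (nat_lit 115485) (.g (nat_lit 3776) (.e (nat_lit 5937) (nat_lit 322) (.e (nat_lit 57448) (nat_lit 19) (.e (nat_lit 393234) (nat_lit 17) (.e (nat_lit 7581) (nat_lit 405) (.e (nat_lit 57480) (nat_lit 28) (.e (nat_lit 557103) (nat_lit 14) (.e (nat_lit 188160) (nat_lit 0) .nil))))))) (.g (nat_lit 6) .nil .nil))) 
(.lf (nat_lit 115549) (.g (nat_lit 1463) (.e (nat_lit 5938) (nat_lit 322) (.e (nat_lit 57375) (nat_lit 2) (.e (nat_lit 90185) (nat_lit 17) (.e (nat_lit 237601) (nat_lit 9) .nil)))) .nil))) (.nd (nat_lit 6) 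
(.lf (nat_lit 115517) (.g (nat_lit 381) (.e (nat_lit 5938) (nat_lit 322) (.e (nat_lit 57372) (nat_lit 2) (.e (nat_lit 90176) (nat_lit 15) .nil))) .nil)) 
(.lf (nat_lit 115581) (.g (nat_lit 3965) (.e (nat_lit 5939) (nat_lit 322) (.e (nat_lit 57372) (nat_lit 2) (.e (nat_lit 90172) (nat_lit 14) (.e (nat_lit 180244) (nat_lit 5) (.e (nat_lit 532515) (nat_lit 3) (.e (nat_lit 114716) (nat_lit 22) (.e (nat_lit 90181) (nat_lit 16) (.e (nat_lit 229376) (nat_lit 0) .nil)))))))) (.g (nat_lit 8) .nil .nil)))))))) 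
(.nd (nat_lit 2) (.nd (nat_lit 3) (.nd (nat_lit 4) (.nd (nat_lit 5) (.nd (nat_lit 6) 
(.lf (nat_lit 115459) (.g (nat_lit 1612) (.e (nat_lit 5937) (nat_lit 322) (.e (nat_lit 57447) (nat_lit 19) (.e (nat_lit 393275) (nat_lit 23) (.e (nat_lit 426140) (nat_lit 3) .nil)))) .nil)) 
(.lf (nat_lit 115523) (.g (nat_lit 1237) (.e (nat_lit 5938) (nat_lit 322) (.e (nat_lit 57372) (nat_lit 2) (.e (nat_lit 90176) (nat_lit 15) (.e (nat_lit 188461) (nat_lit 26) .nil)))) .nil))) (.nd (nat_lit 6) 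
(.lf (nat_lit 115491) (.g (nat_lit 3099) (.e (nat_lit 5937) (nat_lit 322) (.e (nat_lit 57448) (nat_lit 19) (.e (nat_lit 393234) (nat_lit 17) (.e (nat_lit 7583) (nat_lit 405) (.e (nat_lit 57476) (nat_lit 28) (.e (nat_lit 557104) (nat_lit 14) (.e (nat_lit 188160) (nat_lit 0) .nil))))))) (.g (nat_lit 6) .nil .nil))) 
(.lf (nat_lit 115555) (.g (nat_lit 987) (.e (nat_lit 5938) (nat_lit 322) (.e (nat_lit 57378) (nat_lit 3) (.e (nat_lit 98365) (nat_lit 26) .nil))) .nil)))) (.nd (nat_lit 5) (.nd (nat_lit 6) 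
(.lf (nat_lit 115475) (.g (nat_lit 1665) (.e (nat_lit 5937) (nat_lit 322) (.e (nat_lit 57448) (nat_lit 19) (.e (nat_lit 393233) (nat_lit 17) (.e (nat_lit 7581) (nat_lit 405) (.e (nat_lit 57480) (nat_lit 28) .nil))))) .nil)) 
(.lf (nat_lit 115539) (.g (nat_lit 3518) (.e (nat_lit 5938) (nat_lit 322) (.e (nat_lit 57375) (nat_lit 2) (.e (nat_lit 90172) (nat_lit 14) (.e (nat_lit 180244) (nat_lit 5) (.e (nat_lit 532515) (nat_lit 3) (.e (nat_lit 114716) (nat_lit 22) (.e (nat_lit 90181) (nat_lit 16) (.e (nat_lit 229378) (nat_lit 0) .nil)))))))) (.g (nat_lit 8) .nil .nil)))) (.nd (nat_lit 6) 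
(.lf (nat_lit 115507) (.g (nat_lit 3115) (.e (nat_lit 5937) (nat_lit 322) (.e (nat_lit 57450) (nat_lit 20) (.e (nat_lit 401454) (nat_lit 12) (.e (nat_lit 475210) (nat_lit 41) (.e (nat_lit 712755) (nat_lit 30) (.e (nat_lit 450560) (nat_lit 0) .nil)))))) (.g (nat_lit 5) .nil .nil))) 
(.lf (nat_lit 115571) (.g (nat_lit 2916) (.e (nat_lit 5939) (nat_lit 322) (.e (nat_lit 57372) (nat_lit 2) (.e (nat_lit 90172) (nat_lit 14) (.e (nat_lit 180243) (nat_lit 5) (.e (nat_lit 532515) (nat_lit 3) (.e (nat_lit 114716) (nat_lit 22) (.e (nat_lit 90163) (nat_lit 12) (.e (nat_lit 163850) (nat_lit 0) .nil)))))))) (.g (nat_lit 5) .nil .nil)))))) 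
(.nd (nat_lit 4) (.nd (nat_lit 5) (.nd (nat_lit 6) 
(.lf (nat_lit 115467) (.g (nat_lit 1287) (.e (nat_lit 5937) (nat_lit 322) (.e (nat_lit 57447) (nat_lit 19) (.e (nat_lit 393284) (nat_lit 24) .nil))) .nil)) 
(.lf (nat_lit 115531) (.g (nat_lit 2018) (.e (nat_lit 5938) (nat_lit 322) (.e (nat_lit 57374) (nat_lit 2) (.e (nat_lit 90170) (nat_lit 13) (.e (nat_lit 172121) (nat_lit 13) .nil)))) .nil))) (.nd (nat_lit 6) 
(.lf (nat_lit 115499) (.g (nat_lit 1739) (.e (nat_lit 5937) (nat_lit 322) (.e (nat_lit 57448) (nat_lit 19) (.e (nat_lit 393301) (nat_lit 27) (.e (nat_lit 491520) (nat_lit 0) .nil)))) .nil)) 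
(.lf (nat_lit 115563) (.g (nat_lit 2325) (.e (nat_lit 5938) (nat_lit 322) (.e (nat_lit 57400) (nat_lit 10) (.e (nat_lit 319534) (nat_lit 16) (.e (nat_lit 286761) (nat_lit 13) (.e (nat_lit 393288) (nat_lit 25) .nil))))) .nil)))) (.nd (nat_lit 5) (.nd (nat_lit 6) 
(.lf (nat_lit 115483) (.g (nat_lit 3670) (.e (nat_lit 5937) (nat_lit 322) (.e (nat_lit 57448) (nat_lit 19) (.e (nat_lit 393234) (nat_lit 17) (.e (nat_lit 7581) (nat_lit 405) (.e (nat_lit 57477) (nat_lit 28) (.e (nat_lit 557104) (nat_lit 14) (.e (nat_lit 180224) (nat_lit 0) .nil))))))) (.g (nat_lit 6) .nil .nil))) 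
(.lf (nat_lit 115547) (.g (nat_lit 1691) (.e (nat_lit 5938) (nat_lit 322) (.e (nat_lit 57375) (nat_lit 2) (.e (nat_lit 90176) (nat_lit 15) (.e (nat_lit 188459) (nat_lit 26) (.e (nat_lit 261888) (nat_lit 5) .nil))))) .nil))) (.nd (nat_lit 6) 
(.lf (nat_lit 115515) (.g (nat_lit 3490) (.e (nat_lit 5938) (nat_lit 322) (.e (nat_lit 57372) (nat_lit 2) (.e (nat_lit 90172) (nat_lit 14) (.e (nat_lit 180244) (nat_lit 5) (.e (nat_lit 532515) (nat_lit 3) (.e (nat_lit 114716) (nat_lit 22) (.e (nat_lit 90181) (nat_lit 16) (.e (nat_lit 229378) (nat_lit 0) .nil)))))))) (.g (nat_lit 7) .nil .nil))) 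
(.lf (nat_lit 115579) (.g (nat_lit 3128) (.e (nat_lit 5939) (nat_lit 322) (.e (nat_lit 57372) (nat_lit 2) (.e (nat_lit 90172) (nat_lit 14) (.e (nat_lit 180244) (nat_lit 5) (.e (nat_lit 532515) (nat_lit 3) (.e (nat_lit 114715) (nat_lit 22) (.e (nat_lit 90165) (nat_lit 12) (.e (nat_lit 171776) (nat_lit 0) .nil)))))))) (.g (nat_lit 6) .nil .nil))))))) 
(.nd (nat_lit 3) (.nd (nat_lit 4) (.nd (nat_lit 5) (.nd (nat_lit 6) 
(.lf (nat_lit 115463) (.g (nat_lit 2342) (.e (nat_lit 5937) (nat_lit 322) (.e (nat_lit 57447) (nat_lit 19) (.e (nat_lit 393281) (nat_lit 23) (.e (nat_lit 426116) (nat_lit 2) (.e (nat_lit 196654) (nat_lit 11) (.e (nat_lit 16385) (nat_lit 0) (.e (nat_lit 2466) (nat_lit 157) .nil))))))) (.g (nat_lit 4) .nil .nil))) 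
(.lf (nat_lit 115527) (.g (nat_lit 2716) (.e (nat_lit 5938) (nat_lit 322) (.e (nat_lit 57374) (nat_lit 2) (.e (nat_lit 90170) (nat_lit 13) (.e (nat_lit 172065) (nat_lit 3) (.e (nat_lit 204838) (nat_lit 20) (.e (nat_lit 114716) (nat_lit 22) (.e (nat_lit 90181) (nat_lit 16) (.e (nat_lit 229376) (nat_lit 0) .nil)))))))) (.g (nat_lit 4) .nil .nil)))) (.nd (nat_lit 6) 
(.lf (nat_lit 115495) (.g (nat_lit 2358) (.e (nat_lit 5937) (nat_lit 322) (.e (nat_lit 57448) (nat_lit 19) (.e (nat_lit 393281) (nat_lit 23) (.e (nat_lit 426116) (nat_lit 2) (.e (nat_lit 196654) (nat_lit 11) (.e (nat_lit 16393) (nat_lit 0) (.e (nat_lit 2466) (nat_lit 157) .nil))))))) (.g (nat_lit 5) .nil .nil))) 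
(.lf (nat_lit 115559) (.g (nat_lit 1582) (.e (nat_lit 5938) (nat_lit 322) (.e (nat_lit 57400) (nat_lit 10) (.e (nat_lit 319531) (nat_lit 16) (.e (nat_lit 286761) (nat_lit 13) (.e (nat_lit 393289) (nat_lit 25) .nil))))) .nil)))) (.nd (nat_lit 5) (.nd (nat_lit 6) 
(.lf (nat_lit 115479) (.g (nat_lit 2892) (.e (nat_lit 5937) (nat_lit 322) (.e (nat_lit 57448) (nat_lit 19) (.e (nat_lit 393234) (nat_lit 17) (.e (nat_lit 7581) (nat_lit 405) (.e (nat_lit 57476) (nat_lit 28) (.e (nat_lit 557103) (nat_lit 14) (.e (nat_lit 180224) (nat_lit 0) .nil))))))) (.g (nat_lit 5) .nil .nil))) 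
(.lf (nat_lit 115543) (.g (nat_lit 1196) (.e (nat_lit 5938) (nat_lit 322) (.e (nat_lit 57375) (nat_lit 2) (.e (nat_lit 90176) (nat_lit 15) (.e (nat_lit 196352) (nat_lit 17) .nil)))) .nil))) (.nd (nat_lit 6) 
(.lf (nat_lit 115511) (.g (nat_lit 2504) (.e (nat_lit 5938) (nat_lit 322) (.e (nat_lit 57372) (nat_lit 2) (.e (nat_lit 90172) (nat_lit 14) (.e (nat_lit 180243) (nat_lit 5) (.e (nat_lit 532515) (nat_lit 3) (.e (nat_lit 114716) (nat_lit 22) (.e (nat_lit 90181) (nat_lit 16) (.e (nat_lit 229378) (nat_lit 0) .nil)))))))) (.g (nat_lit 5) .nil .nil))) 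
(.lf (nat_lit 115575) (.g (nat_lit 1502) (.e (nat_lit 5939) (nat_lit 322) (.e (nat_lit 57372) (nat_lit 2) (.e (nat_lit 90172) (nat_lit 14) (.e (nat_lit 180244) (nat_lit 5) .nil)))) .nil))))) (.nd (nat_lit 4) (.nd (nat_lit 5) (.nd (nat_lit 6) 
(.lf (nat_lit 115471) (.g (nat_lit 626) (.e (nat_lit 5937) (nat_lit 322) (.e (nat_lit 57448) (nat_lit 19) (.e (nat_lit 393231) (nat_lit 17) .nil))) .nil)) 
(.lf (nat_lit 115535) (.g (nat_lit 2573) (.e (nat_lit 5938) (nat_lit 322) (.e (nat_lit 57375) (nat_lit 2) (.e (nat_lit 90172) (nat_lit 14) (.e (nat_lit 180243) (nat_lit 5) (.e (nat_lit 532515) (nat_lit 3) (.e (nat_lit 114716) (nat_lit 22) (.e (nat_lit 90181) (nat_lit 16) (.e (nat_lit 229378) (nat_lit 0) .nil)))))))) (.g (nat_lit 5) .nil .nil)))) (.nd (nat_lit 6) 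
(.lf (nat_lit 115503) (.g (nat_lit 4134) (.e (nat_lit 5937) (nat_lit 322) (.e (nat_lit 57448) (nat_lit 19) (.e (nat_lit 393301) (nat_lit 27) (.e (nat_lit 491526) (nat_lit 0) (.e (nat_lit 1848) (nat_lit 124) (.e (nat_lit 557104) (nat_lit 14) (.e (nat_lit 180224) (nat_lit 0) .nil))))))) (.g (nat_lit 6) .nil .nil))) 
(.lf (nat_lit 115567) (.g (nat_lit 1697) (.e (nat_lit 5939) (nat_lit 322) (.e (nat_lit 57372) (nat_lit 2) (.e (nat_lit 90172) (nat_lit 14) (.e (nat_lit 180243) (nat_lit 5) .nil)))) .nil)))) (.nd (nat_lit 5) (.nd (nat_lit 6) 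
(.lf (nat_lit 115487) (.g (nat_lit 3358) (.e (nat_lit 5937) (nat_lit 322) (.e (nat_lit 57448) (nat_lit 19) (.e (nat_lit 393234) (nat_lit 17) (.e (nat_lit 7581) (nat_lit 405) (.e (nat_lit 57480) (nat_lit 28) (.e (nat_lit 557105) (nat_lit 14) (.e (nat_lit 188160) (nat_lit 0) .nil))))))) (.g (nat_lit 6) .nil .nil))) 
(.lf (nat_lit 115551) (.g (nat_lit 1362) (.e (nat_lit 5938) (nat_lit 322) (.e (nat_lit 57375) (nat_lit 2) (.e (nat_lit 90185) (nat_lit 17) (.e (nat_lit 237621) (nat_lit 13) .nil)))) .nil))) (.nd (nat_lit 6) 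
(.lf (nat_lit 115519) (.g (nat_lit 1159) (.e (nat_lit 5938) (nat_lit 322) (.e (nat_lit 57372) (nat_lit 2) (.e (nat_lit 90176) (nat_lit 15) (.e (nat_lit 196352) (nat_lit 11) .nil)))) .nil)) 
(.lf (nat_lit 115583) (.g (nat_lit 2483) (.e (nat_lit 5939) (nat_lit 322) (.e (nat_lit 57372) (nat_lit 2) (.e (nat_lit 90172) (nat_lit 14) (.e (nat_lit 180244) (nat_lit 5) (.e (nat_lit 532515) (nat_lit 3) (.e (nat_lit 114719) (nat_lit 23) (.e (nat_lit 98329) (nat_lit 17) (.e (nat_lit 2471) (nat_lit 157) .nil)))))))) (.g (nat_lit 4) .nil .nil))))))))))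

noncomputable def tv1556 : DT := (.nd (nat_lit 0) (.nd (nat_lit 1) (.nd (nat_lit 2) (.nd (nat_lit 3) (.nd (nat_lit 4) (.nd (nat_lit 5) (.nd (nat_lit 6) 
(.lf (nat_lit 115584) (.g (nat_lit 2706) (.e (nat_lit 5939) (nat_lit 322) (.e (nat_lit 57372) (nat_lit 2) (.e (nat_lit 90172) (nat_lit 14) (.e (nat_lit 180250) (nat_lit 10) (.e (nat_lit 573487) (nat_lit 14) (.e (nat_lit 73753) (nat_lit 8) (.e (nat_lit 557111) (nat_lit 16) (.e (nat_lit 229379) (nat_lit 0) .nil)))))))) (.g (nat_lit 4) .nil .nil))) 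
(.lf (nat_lit 115648) (.g (nat_lit 1543) (.e (nat_lit 5939) (nat_lit 322) (.e (nat_lit 57375) (nat_lit 2) (.e (nat_lit 90176) (nat_lit 15) (.e (nat_lit 188423) (nat_lit 11) (.e (nat_lit 336387) (nat_lit 27) (.e (nat_lit 426030) (nat_lit 0) (.e (nat_lit 2473) (nat_lit 157) .nil))))))) (.g (nat_lit 4) .nil .nil)))) (.nd (nat_lit 6) 
(.lf (nat_lit 115616) (.g (nat_lit 1140) (.e (nat_lit 5939) (nat_lit 322) (.e (nat_lit 57375) (nat_lit 2) (.e (nat_lit 90169) (nat_lit 13) (.e (nat_lit 172122) (nat_lit 13) .nil)))) .nil)) 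
(.lf (nat_lit 115680) (.g (nat_lit 1450) (.e (nat_lit 5939) (nat_lit 322) (.e (nat_lit 57375) (nat_lit 2) (.e (nat_lit 90185) (nat_lit 17) (.e (nat_lit 237601) (nat_lit 9) (.e (nat_lit 426566) (nat_lit 34) (.e (nat_lit 393231) (nat_lit 17) (.e (nat_lit 2466) (nat_lit 157) .nil))))))) (.g (nat_lit 4) .nil .nil))))) (.nd (nat_lit 5) (.nd (nat_lit 6) 
(.lf (nat_lit 115600) (.g (nat_lit 1809) (.e (nat_lit 5939) (nat_lit 322) (.e (nat_lit 57372) (nat_lit 2) (.e (nat_lit 90176) (nat_lit 15) (.e (nat_lit 188459) (nat_lit 26) (.e (nat_lit 253956) (nat_lit 0) .nil))))) .nil)) 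
(.lf (nat_lit 115664) (.g (nat_lit 1592) (.e (nat_lit 5939) (nat_lit 322) (.e (nat_lit 57375) (nat_lit 2) (.e (nat_lit 90177) (nat_lit 15) (.e (nat_lit 188461) (nat_lit 26) (.e (nat_lit 261888) (nat_lit 0) .nil))))) .nil))) (.nd (nat_lit 6) 
(.lf (nat_lit 115632) (.g (nat_lit 3239) (.e (nat_lit 5939) (nat_lit 322) (.e (nat_lit 57375) (nat_lit 2) (.e (nat_lit 90172) (nat_lit 14) (.e (nat_lit 180244) (nat_lit 5) (.e (nat_lit 532515) (nat_lit 3) (.e (nat_lit 114715) (nat_lit 22) (.e (nat_lit 90165) (nat_lit 12) (.e (nat_lit 171776) (nat_lit 0) .nil)))))))) (.g (nat_lit 7) .nil .nil))) 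
(.lf (nat_lit 115696) (.g (nat_lit 1477) (.e (nat_lit 5939) (nat_lit 322) (.e (nat_lit 57375) (nat_lit 2) (.e (nat_lit 90185) (nat_lit 17) (.e (nat_lit 237605) (nat_lit 9) (.e (nat_lit 426484) (nat_lit 27) .nil))))) .nil))))) (.nd (nat_lit 4) (.nd (nat_lit 5) (.nd (nat_lit 6) 
(.lf (nat_lit 115592) (.g (nat_lit 1532) (.e (nat_lit 5939) (nat_lit 322) (.e (nat_lit 57372) (nat_lit 2) (.e (nat_lit 90176) (nat_lit 15) (.e (nat_lit 188427) (nat_lit 20) .nil)))) .nil)) 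
(.lf (nat_lit 115656) (.g (nat_lit 1720) (.e (nat_lit 5939) (nat_lit 322) (.e (nat_lit 57375) (nat_lit 2) (.e (nat_lit 90176) (nat_lit 15) (.e (nat_lit 188431) (nat_lit 20) (.e (nat_lit 3545) (nat_lit 219) .nil))))) .nil))) (.nd (nat_lit 6) 
(.lf (nat_lit 115624) (.g (nat_lit 2912) (.e (nat_lit 5939) (nat_lit 322) (.e (nat_lit 57375) (nat_lit 2) (.e (nat_lit 90172) (nat_lit 14) (.e (nat_lit 180243) (nat_lit 5) (.e (nat_lit 532515) (nat_lit 3) (.e (nat_lit 114716) (nat_lit 22) (.e (nat_lit 90181) (nat_lit 16) (.e (nat_lit 229378) (nat_lit 0) .nil)))))))) (.g (nat_lit 5) .nil .nil))) 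
(.lf (nat_lit 115688) (.g (nat_lit 1367) (.e (nat_lit 5939) (nat_lit 322) (.e (nat_lit 57375) (nat_lit 2) (.e (nat_lit 90185) (nat_lit 17) (.e (nat_lit 237601) (nat_lit 9) (.e (nat_lit 426566) (nat_lit 34) (.e (nat_lit 393240) (nat_lit 17) (.e (nat_lit 2456) (nat_lit 157) .nil))))))) (.g (nat_lit 4) .nil .nil))))) (.nd (nat_lit 5) (.nd (nat_lit 6) 
(.lf (nat_lit 115608) (.g (nat_lit 2142) (.e (nat_lit 5939) (nat_lit 322) (.e (nat_lit 57374) (nat_lit 2) (.e (nat_lit 90170) (nat_lit 13) (.e (nat_lit 172065) (nat_lit 3) .nil)))) .nil)) 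
(.lf (nat_lit 115672) (.g (nat_lit 1541) (.e (nat_lit 5939) (nat_lit 322) (.e (nat_lit 57375) (nat_lit 2) (.e (nat_lit 90178) (nat_lit 15) (.e (nat_lit 188461) (nat_lit 26) .nil)))) .nil))) (.nd (nat_lit 6) 
(.lf (nat_lit 115640) (.g (nat_lit 3762) (.e (nat_lit 5939) (nat_lit 322) (.e (nat_lit 57375) (nat_lit 2) (.e (nat_lit 90172) (nat_lit 14) (.e (nat_lit 180244) (nat_lit 5) (.e (nat_lit 532515) (nat_lit 3) (.e (nat_lit 114716) (nat_lit 22) (.e (nat_lit 90181) (nat_lit 16) (.e (nat_lit 229378) (nat_lit 0) .nil)))))))) (.g (nat_lit 8) .nil .nil))) 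
(.lf (nat_lit 115704) (.g (nat_lit 1597) (.e (nat_lit 5939) (nat_lit 322) (.e (nat_lit 57375) (nat_lit 2) (.e (nat_lit 90185) (nat_lit 17) (.e (nat_lit 237605) (nat_lit 9) (.e (nat_lit 426566) (nat_lit 34) (.e (nat_lit 393237) (nat_lit 17) (.e (nat_lit 2469) (nat_lit 157) .nil))))))) (.g (nat_lit 4) .nil .nil))))))) (.nd (nat_lit 3) (.nd (nat_lit 4) (.nd (nat_lit 5) (.nd (nat_lit 6) 
(.lf (nat_lit 115588) (.g (nat_lit 1218) (.e (nat_lit 5939) (nat_lit 322) (.e (nat_lit 57372) (nat_lit 2) (.e (nat_lit 90176) (nat_lit 15) (.e (nat_lit 188423) (nat_lit 11) .nil)))) .nil)) 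
(.lf (nat_lit 115652) (.g (nat_lit 1438) (.e (nat_lit 5939) (nat_lit 322) (.e (nat_lit 57375) (nat_lit 2) (.e (nat_lit 90176) (nat_lit 15) (.e (nat_lit 188427) (nat_lit 20) .nil)))) .nil))) (.nd (nat_lit 6) 
(.lf (nat_lit 115620) (.g (nat_lit 2891) (.e (nat_lit 5939) (nat_lit 322) (.e (nat_lit 57375) (nat_lit 2) (.e (nat_lit 90172) (nat_lit 14) (.e (nat_lit 180243) (nat_lit 5) (.e (nat_lit 532513) (nat_lit 3) (.e (nat_lit 114714) (nat_lit 22) (.e (nat_lit 90162) (nat_lit 12) (.e (nat_lit 163850) (nat_lit 0) .nil)))))))) (.g (nat_lit 5) .nil .nil))) 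
(.lf (nat_lit 115684) (.g (nat_lit 2068) (.e (nat_lit 5939) (nat_lit 322) (.e (nat_lit 57375) (nat_lit 2) (.e (nat_lit 90185) (nat_lit 17) (.e (nat_lit 237601) (nat_lit 9) (.e (nat_lit 426566) (nat_lit 34) (.e (nat_lit 393239) (nat_lit 17) (.e (nat_lit 2416) (nat_lit 157) .nil))))))) (.g (nat_lit 5) .nil .nil))))) (.nd (nat_lit 5) (.nd (nat_lit 6) 
(.lf (nat_lit 115604) (.g (nat_lit 2074) (.e (nat_lit 5939) (nat_lit 322) (.e (nat_lit 57372) (nat_lit 2) (.e (nat_lit 90176) (nat_lit 15) (.e (nat_lit 188461) (nat_lit 26) (.e (nat_lit 261888) (nat_lit 0) .nil))))) .nil)) 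
(.lf (nat_lit 115668) (.g (nat_lit 2238) (.e (nat_lit 5939) (nat_lit 322) (.e (nat_lit 57375) (nat_lit 2) (.e (nat_lit 90178) (nat_lit 15) (.e (nat_lit 188421) (nat_lit 11) (.e (nat_lit 343808) (nat_lit 31) (.e (nat_lit 458774) (nat_lit 18) .nil)))))) (.g (nat_lit 4) .nil .nil)))) (.nd (nat_lit 6) 
(.lf (nat_lit 115636) (.g (nat_lit 1996) (.e (nat_lit 5939) (nat_lit 322) (.e (nat_lit 57375) (nat_lit 2) (.e (nat_lit 90172) (nat_lit 14) (.e (nat_lit 180244) (nat_lit 5) (.e (nat_lit 532515) (nat_lit 3) (.e (nat_lit 114716) (nat_lit 22) (.e (nat_lit 90162) (nat_lit 12) (.e (nat_lit 163850) (nat_lit 0) .nil)))))))) (.g (nat_lit 4) .nil .nil))) 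
(.lf (nat_lit 115700) (.g (nat_lit 2181) (.e (nat_lit 5939) (nat_lit 322) (.e (nat_lit 57375) (nat_lit 2) (.e (nat_lit 90185) (nat_lit 17) (.e (nat_lit 237605) (nat_lit 9) (.e (nat_lit 426566) (nat_lit 34) (.e (nat_lit 393231) (nat_lit 17) (.e (nat_lit 2456) (nat_lit 157) .nil))))))) (.g (nat_lit 5) .nil .nil)))))) (.nd (nat_lit 4) (.nd (nat_lit 5) (.nd (nat_lit 6) 
(.lf (nat_lit 115596) (.g (nat_lit 1161) (.e (nat_lit 5939) (nat_lit 322) (.e (nat_lit 57372) (nat_lit 2) (.e (nat_lit 90176) (nat_lit 15) (.e (nat_lit 188439) (nat_lit 20) .nil)))) .nil)) 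
(.lf (nat_lit 115660) (.g (nat_lit 1969) (.e (nat_lit 5939) (nat_lit 322) (.e (nat_lit 57375) (nat_lit 2) (.e (nat_lit 90176) (nat_lit 15) (.e (nat_lit 188459) (nat_lit 26) (.e (nat_lit 261888) (nat_lit 5) (.e (nat_lit 188160) (nat_lit 0) .nil)))))) (.g (nat_lit 4) .nil .nil)))) (.nd (nat_lit 6) 
(.lf (nat_lit 115628) (.g (nat_lit 2151) (.e (nat_lit 5939) (nat_lit 322) (.e (nat_lit 57375) (nat_lit 2) (.e (nat_lit 90172) (nat_lit 14) (.e (nat_lit 180244) (nat_lit 5) (.e (nat_lit 532513) (nat_lit 3) (.e (nat_lit 114714) (nat_lit 22) (.e (nat_lit 90162) (nat_lit 12) (.e (nat_lit 163851) (nat_lit 0) .nil)))))))) (.g (nat_lit 4) .nil .nil))) 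
(.lf (nat_lit 115692) (.g (nat_lit 1484) (.e (nat_lit 5939) (nat_lit 322) (.e (nat_lit 57375) (nat_lit 2) (.e (nat_lit 90185) (nat_lit 17) (.e (nat_lit 237605) (nat_lit 9) (.e (nat_lit 426479) (nat_lit 27) (.e (nat_lit 336421) (nat_lit 28) (.e (nat_lit 434199) (nat_lit 18) .nil))))))) (.g (nat_lit 4) .nil .nil))))) (.nd (nat_lit 5) (.nd (nat_lit 6) 
(.lf (nat_lit 115612) (.g (nat_lit 2572) (.e (nat_lit 5939) (nat_lit 322) (.e (nat_lit 57374) (nat_lit 2) (.e (nat_lit 90170) (nat_lit 13) (.e (nat_lit 172067) (nat_lit 3) (.e (nat_lit 204838) (nat_lit 20) .nil))))) .nil)) 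
(.lf (nat_lit 115676) (.g (nat_lit 1602) (.e (nat_lit 5939) (nat_lit 322) (.e (nat_lit 57375) (nat_lit 2) (.e (nat_lit 90185) (nat_lit 17) (.e (nat_lit 237601) (nat_lit 9) (.e (nat_lit 426479) (nat_lit 27) (.e (nat_lit 336438) (nat_lit 31) (.e (nat_lit 458773) (nat_lit 18) .nil))))))) (.g (nat_lit 4) .nil .nil)))) (.nd (nat_lit 6) 
(.lf (nat_lit 115644) (.g (nat_lit 2642) (.e (nat_lit 5939) (nat_lit 322) (.e (nat_lit 57375) (nat_lit 2) (.e (nat_lit 90174) (nat_lit 14) (.e (nat_lit 180243) (nat_lit 5) (.e (nat_lit 532508) (nat_lit 2) (.e (nat_lit 106517) (nat_lit 9) (.e (nat_lit 1255) (nat_lit 92) (.e (nat_lit 98321) (nat_lit 17) (.e (nat_lit 2464) (nat_lit 157) .nil))))))))) (.g (nat_lit 5) .nil .nil))) 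
(.lf (nat_lit 115708) (.g (nat_lit 2387) (.e (nat_lit 5939) (nat_lit 322) (.e (nat_lit 57375) (nat_lit 2) (.e (nat_lit 90185) (nat_lit 17) (.e (nat_lit 237605) (nat_lit 9) (.e (nat_lit 426566) (nat_lit 34) (.e (nat_lit 393239) (nat_lit 17) (.e (nat_lit 2473) (nat_lit 157) .nil))))))) (.g (nat_lit 5) .nil .nil)))))))) 
(.nd (nat_lit 2) (.nd (nat_lit 3) (.nd (nat_lit 4) (.nd (nat_lit 5) (.nd (nat_lit 6) 
(.lf (nat_lit 115586) (.g (nat_lit 405) (.e (nat_lit 5939) (nat_lit 322) (.e (nat_lit 57372) (nat_lit 2) (.e (nat_lit 90176) (nat_lit 15) .nil))) .nil)) 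
(.lf (nat_lit 115650) (.g (nat_lit 1713) (.e (nat_lit 5939) (nat_lit 322) (.e (nat_lit 57375) (nat_lit 2) (.e (nat_lit 90176) (nat_lit 15) (.e (nat_lit 196352) (nat_lit 11) (.e (nat_lit 336435) (nat_lit 31) (.e (nat_lit 458771) (nat_lit 18) .nil)))))) (.g (nat_lit 5) .nil .nil)))) (.nd (nat_lit 6) 
(.lf (nat_lit 115618) (.g (nat_lit 1369) (.e (nat_lit 5939) (nat_lit 322) (.e (nat_lit 57375) (nat_lit 2) (.e (nat_lit 90172) (nat_lit 14) (.e (nat_lit 180243) (nat_lit 5) .nil)))) .nil)) 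
(.lf (nat_lit 115682) (.g (nat_lit 2427) (.e (nat_lit 5939) (nat_lit 322) (.e (nat_lit 57375) (nat_lit 2) (.e (nat_lit 90185) (nat_lit 17) (.e (nat_lit 237601) (nat_lit 9) (.e (nat_lit 426566) (nat_lit 34) (.e (nat_lit 393235) (nat_lit 17) (.e (nat_lit 2464) (nat_lit 157) .nil))))))) (.g (nat_lit 6) .nil .nil))))) (.nd (nat_lit 5) (.nd (nat_lit 6) 
(.lf (nat_lit 115602) (.g (nat_lit 1789) (.e (nat_lit 5939) (nat_lit 322) (.e (nat_lit 57372) (nat_lit 2) (.e (nat_lit 90176) (nat_lit 15) (.e (nat_lit 188459) (nat_lit 26) (.e (nat_lit 261888) (nat_lit 5) .nil))))) .nil)) 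
(.lf (nat_lit 115666) (.g (nat_lit 630) (.e (nat_lit 5939) (nat_lit 322) (.e (nat_lit 57375) (nat_lit 2) (.e (nat_lit 90178) (nat_lit 15) .nil))) .nil))) (.nd (nat_lit 6) 
(.lf (nat_lit 115634) (.g (nat_lit 1918) (.e (nat_lit 5939) (nat_lit 322) (.e (nat_lit 57375) (nat_lit 2) (.e (nat_lit 90172) (nat_lit 14) (.e (nat_lit 180244) (nat_lit 5) (.e (nat_lit 532515) (nat_lit 3) (.e (nat_lit 114715) (nat_lit 22) (.e (nat_lit 90180) (nat_lit 16) (.e (nat_lit 229379) (nat_lit 0) .nil)))))))) (.g (nat_lit 4) .nil .nil))) 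
(.lf (nat_lit 115698) (.g (nat_lit 1395) (.e (nat_lit 5939) (nat_lit 322) (.e (nat_lit 57375) (nat_lit 2) (.e (nat_lit 90185) (nat_lit 17) (.e (nat_lit 237605) (nat_lit 9) (.e (nat_lit 426489) (nat_lit 27) .nil))))) .nil))))) (.nd (nat_lit 4) (.nd (nat_lit 5) (.nd (nat_lit 6) 
(.lf (nat_lit 115594) (.g (nat_lit 1362) (.e (nat_lit 5939) (nat_lit 322) (.e (nat_lit 57372) (nat_lit 2) (.e (nat_lit 90176) (nat_lit 15) (.e (nat_lit 188431) (nat_lit 20) .nil)))) .nil)) 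
(.lf (nat_lit 115658) (.g (nat_lit 1233) (.e (nat_lit 5939) (nat_lit 322) (.e (nat_lit 57375) (nat_lit 2) (.e (nat_lit 90176) (nat_lit 15) (.e (nat_lit 188459) (nat_lit 26) .nil)))) .nil))) (.nd (nat_lit 6) 
(.lf (nat_lit 115626) (.g (nat_lit 2450) (.e (nat_lit 5939) (nat_lit 322) (.e (nat_lit 57375) (nat_lit 2) (.e (nat_lit 90172) (nat_lit 14) (.e (nat_lit 180244) (nat_lit 5) (.e (nat_lit 532508) (nat_lit 2) (.e (nat_lit 106517) (nat_lit 9) (.e (nat_lit 1255) (nat_lit 92) (.e (nat_lit 98321) (nat_lit 17) (.e (nat_lit 2464) (nat_lit 157) .nil))))))))) (.g (nat_lit 4) .nil .nil))) 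
(.lf (nat_lit 115690) (.g (nat_lit 1906) (.e (nat_lit 5939) (nat_lit 322) (.e (nat_lit 57375) (nat_lit 2) (.e (nat_lit 90185) (nat_lit 17) (.e (nat_lit 237601) (nat_lit 9) (.e (nat_lit 426566) (nat_lit 34) (.e (nat_lit 393240) (nat_lit 17) (.e (nat_lit 2473) (nat_lit 157) .nil))))))) (.g (nat_lit 5) .nil .nil))))) (.nd (nat_lit 5) (.nd (nat_lit 6) 
(.lf (nat_lit 115610) (.g (nat_lit 1704) (.e (nat_lit 5939) (nat_lit 322) (.e (nat_lit 57374) (nat_lit 2) (.e (nat_lit 90170) (nat_lit 13) (.e (nat_lit 172067) (nat_lit 3) .nil)))) .nil)) 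
(.lf (nat_lit 115674) (.g (nat_lit 953) (.e (nat_lit 5939) (nat_lit 322) (.e (nat_lit 57375) (nat_lit 2) (.e (nat_lit 90185) (nat_lit 17) (.e (nat_lit 237601) (nat_lit 9) .nil)))) .nil))) (.nd (nat_lit 6) 
(.lf (nat_lit 115642) (.g (nat_lit 2067) (.e (nat_lit 5939) (nat_lit 322) (.e (nat_lit 57375) (nat_lit 2) (.e (nat_lit 90172) (nat_lit 14) (.e (nat_lit 180244) (nat_lit 5) (.e (nat_lit 532515) (nat_lit 3) (.e (nat_lit 114718) (nat_lit 23) (.e (nat_lit 98325) (nat_lit 17) (.e (nat_lit 2458) (nat_lit 157) .nil)))))))) (.g (nat_lit 4) .nil .nil))) 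
(.lf (nat_lit 115706) (.g (nat_lit 2247) (.e (nat_lit 5939) (nat_lit 322) (.e (nat_lit 57375) (nat_lit 2) (.e (nat_lit 90185) (nat_lit 17) (.e (nat_lit 237605) (nat_lit 9) (.e (nat_lit 426566) (nat_lit 34) (.e (nat_lit 393239) (nat_lit 17) (.e (nat_lit 2456) (nat_lit 157) .nil))))))) (.g (nat_lit 5) .nil .nil))))))) (.nd (nat_lit 3) (.nd (nat_lit 4) (.nd (nat_lit 5) (.nd (nat_lit 6) 
(.lf (nat_lit 115590) (.g (nat_lit 1189) (.e (nat_lit 5939) (nat_lit 322) (.e (nat_lit 57372) (nat_lit 2) (.e (nat_lit 90176) (nat_lit 15) (.e (nat_lit 196352) (nat_lit 11) .nil)))) .nil)) 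
(.lf (nat_lit 115654) (.g (nat_lit 1448) (.e (nat_lit 5939) (nat_lit 322) (.e (nat_lit 57375) (nat_lit 2) (.e (nat_lit 90176) (nat_lit 15) (.e (nat_lit 188428) (nat_lit 20) .nil)))) .nil))) (.nd (nat_lit 6) 
(.lf (nat_lit 115622) (.g (nat_lit 2803) (.e (nat_lit 5939) (nat_lit 322) (.e (nat_lit 57375) (nat_lit 2) (.e (nat_lit 90172) (nat_lit 14) (.e (nat_lit 180243) (nat_lit 5) (.e (nat_lit 532513) (nat_lit 3) (.e (nat_lit 114714) (nat_lit 22) (.e (nat_lit 90181) (nat_lit 16) (.e (nat_lit 229378) (nat_lit 0) .nil)))))))) (.g (nat_lit 5) .nil .nil))) 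
(.lf (nat_lit 115686) (.g (nat_lit 2469) (.e (nat_lit 5939) (nat_lit 322) (.e (nat_lit 57375) (nat_lit 2) (.e (nat_lit 90185) (nat_lit 17) (.e (nat_lit 237601) (nat_lit 9) (.e (nat_lit 426566) (nat_lit 34) (.e (nat_lit 393239) (nat_lit 17) (.e (nat_lit 2472) (nat_lit 157) .nil))))))) (.g (nat_lit 6) .nil .nil))))) (.nd (nat_lit 5) (.nd (nat_lit 6) 
(.lf (nat_lit 115606) (.g (nat_lit 529) (.e (nat_lit 5939) (nat_lit 322) (.e (nat_lit 57372) (nat_lit 2) (.e (nat_lit 90185) (nat_lit 17) .nil))) .nil)) 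
(.lf (nat_lit 115670) (.g (nat_lit 1425) (.e (nat_lit 5939) (nat_lit 322) (.e (nat_lit 57375) (nat_lit 2) (.e (nat_lit 90178) (nat_lit 15) (.e (nat_lit 196352) (nat_lit 18) .nil)))) .nil))) (.nd (nat_lit 6) 
(.lf (nat_lit 115638) (.g (nat_lit 3375) (.e (nat_lit 5939) (nat_lit 322) (.e (nat_lit 57375) (nat_lit 2) (.e (nat_lit 90172) (nat_lit 14) (.e (nat_lit 180244) (nat_lit 5) (.e (nat_lit 532515) (nat_lit 3) (.e (nat_lit 114716) (nat_lit 22) (.e (nat_lit 90180) (nat_lit 16) (.e (nat_lit 229379) (nat_lit 0) .nil)))))))) (.g (nat_lit 6) .nil .nil))) 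
(.lf (nat_lit 115702) (.g (nat_lit 1646) (.e (nat_lit 5939) (nat_lit 322) (.e (nat_lit 57375) (nat_lit 2) (.e (nat_lit 90185) (nat_lit 17) (.e (nat_lit 237605) (nat_lit 9) (.e (nat_lit 426566) (nat_lit 34) (.e (nat_lit 393231) (nat_lit 17) (.e (nat_lit 2466) (nat_lit 157) .nil))))))) (.g (nat_lit 4) .nil .nil)))))) (.nd (nat_lit 4) (.nd (nat_lit 5) (.nd (nat_lit 6) 
(.lf (nat_lit 115598) (.g (nat_lit 1800) (.e (nat_lit 5939) (nat_lit 322) (.e (nat_lit 57372) (nat_lit 2) (.e (nat_lit 90176) (nat_lit 15) (.e (nat_lit 188459) (nat_lit 26) (.e (nat_lit 253953) (nat_lit 0) .nil))))) .nil)) 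
(.lf (nat_lit 115662) (.g (nat_lit 1898) (.e (nat_lit 5939) (nat_lit 322) (.e (nat_lit 57375) (nat_lit 2) (.e (nat_lit 90176) (nat_lit 15) (.e (nat_lit 188461) (nat_lit 26) (.e (nat_lit 261888) (nat_lit 5) .nil))))) .nil))) (.nd (nat_lit 6) 
(.lf (nat_lit 115630) (.g (nat_lit 2983) (.e (nat_lit 5939) (nat_lit 322) (.e (nat_lit 57375) (nat_lit 2) (.e (nat_lit 90172) (nat_lit 14) (.e (nat_lit 180244) (nat_lit 5) (.e (nat_lit 532513) (nat_lit 3) (.e (nat_lit 114718) (nat_lit 23) (.e (nat_lit 98325) (nat_lit 17) (.e (nat_lit 2458) (nat_lit 157) .nil)))))))) (.g (nat_lit 5) .nil .nil))) 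
(.lf (nat_lit 115694) (.g (nat_lit 2369) (.e (nat_lit 5939) (nat_lit 322) (.e (nat_lit 57375) (nat_lit 2) (.e (nat_lit 90185) (nat_lit 17) (.e (nat_lit 237605) (nat_lit 9) (.e (nat_lit 426479) (nat_lit 27) (.e (nat_lit 336438) (nat_lit 31) (.e (nat_lit 458771) (nat_lit 18) .nil))))))) (.g (nat_lit 6) .nil .nil))))) (.nd (nat_lit 5) (.nd (nat_lit 6) 
(.lf (nat_lit 115614) (.g (nat_lit 1475) (.e (nat_lit 5939) (nat_lit 322) (.e (nat_lit 57374) (nat_lit 2) (.e (nat_lit 90170) (nat_lit 13) (.e (nat_lit 172123) (nat_lit 13) .nil)))) .nil)) 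
(.lf (nat_lit 115678) (.g (nat_lit 1985) (.e (nat_lit 5939) (nat_lit 322) (.e (nat_lit 57375) (nat_lit 2) (.e (nat_lit 90185) (nat_lit 17) (.e (nat_lit 237601) (nat_lit 9) (.e (nat_lit 426566) (nat_lit 34) (.e (nat_lit 393231) (nat_lit 17) (.e (nat_lit 2456) (nat_lit 157) .nil))))))) (.g (nat_lit 5) .nil .nil)))) (.nd (nat_lit 6) 
(.lf (nat_lit 115646) (.g (nat_lit 1049) (.e (nat_lit 5939) (nat_lit 322) (.e (nat_lit 57375) (nat_lit 2) (.e (nat_lit 90176) (nat_lit 15) (.e (nat_lit 188423) (nat_lit 11) .nil)))) .nil)) 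
(.lf (nat_lit 115710) (.g (nat_lit 1636) (.e (nat_lit 5939) (nat_lit 322) (.e (nat_lit 57375) (nat_lit 2) (.e (nat_lit 90185) (nat_lit 17) (.e (nat_lit 237605) (nat_lit 9) (.e (nat_lit 426566) (nat_lit 34) (.e (nat_lit 393240) (nat_lit 17) (.e (nat_lit 2456) (nat_lit 157) .nil))))))) (.g (nat_lit 4) .nil .nil))))))))) 
(.nd (nat_lit 1) (.nd (nat_lit 2) (.nd (nat_lit 3) (.nd (nat_lit 4) (.nd (nat_lit 5) 
(.nd (nat_lit 6) 
(.lf (nat_lit 115585) (.g (nat_lit 2293) (.e (nat_lit 5939) (nat_lit 322) (.e (nat_lit 57372) (nat_lit 2) (.e (nat_lit 90174) (nat_lit 14) (.e (nat_lit 180243) (nat_lit 5) (.e (nat_lit 532508) (nat_lit 2) .nil))))) .nil)) 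
(.lf (nat_lit 115649) (.g (nat_lit 1244) (.e (nat_lit 5939) (nat_lit 322) (.e (nat_lit 57375) (nat_lit 2) (.e (nat_lit 90176) (nat_lit 15) (.e (nat_lit 196352) (nat_lit 11) .nil)))) .nil))) (.nd (nat_lit 6) 
(.lf (nat_lit 115617) (.g (nat_lit 484) (.e (nat_lit 5939) (nat_lit 322) (.e (nat_lit 57375) (nat_lit 2) (.e (nat_lit 90172) (nat_lit 14) .nil))) .nil)) 
(.lf (nat_lit 115681) (.g (nat_lit 2053) (.e (nat_lit 5939) (nat_lit 322) (.e (nat_lit 57375) (nat_lit 2) (.e (nat_lit 90185) (nat_lit 17) (.e (nat_lit 237601) (nat_lit 9) (.e (nat_lit 426566) (nat_lit 34) (.e (nat_lit 393231) (nat_lit 17) (.e (nat_lit 2473) (nat_lit 157) .nil))))))) (.g (nat_lit 5) .nil .nil))))) (.nd (nat_lit 5) (.nd (nat_lit 6) 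
(.lf (nat_lit 115601) (.g (nat_lit 1789) (.e (nat_lit 5939) (nat_lit 322) (.e (nat_lit 57372) (nat_lit 2) (.e (nat_lit 90176) (nat_lit 15) (.e (nat_lit 188459) (nat_lit 26) (.e (nat_lit 261888) (nat_lit 0) .nil))))) .nil)) 
(.lf (nat_lit 115665) (.g (nat_lit 1592) (.e (nat_lit 5939) (nat_lit 322) (.e (nat_lit 57375) (nat_lit 2) (.e (nat_lit 90177) (nat_lit 15) (.e (nat_lit 188461) (nat_lit 26) (.e (nat_lit 261888) (nat_lit 5) .nil))))) .nil))) (.nd (nat_lit 6) 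
(.lf (nat_lit 115633) (.g (nat_lit 1956) (.e (nat_lit 5939) (nat_lit 322) (.e (nat_lit 57375) (nat_lit 2) (.e (nat_lit 90172) (nat_lit 14) (.e (nat_lit 180244) (nat_lit 5) (.e (nat_lit 532515) (nat_lit 3) (.e (nat_lit 114715) (nat_lit 22) (.e (nat_lit 90179) (nat_lit 16) (.e (nat_lit 229379) (nat_lit 0) .nil)))))))) (.g (nat_lit 4) .nil .nil))) 
(.lf (nat_lit 115697) (.g (nat_lit 1573) (.e (nat_lit 5939) (nat_lit 322) (.e (nat_lit 57375) (nat_lit 2) (.e (nat_lit 90185) (nat_lit 17) (.e (nat_lit 237605) (nat_lit 9) (.e (nat_lit 426486) (nat_lit 27) (.e (nat_lit 336425) (nat_lit 28) (.e (nat_lit 434209) (nat_lit 18) .nil))))))) (.g (nat_lit 4) .nil .nil)))))) (.nd (nat_lit 4) (.nd (nat_lit 5) (.nd (nat_lit 6) 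
(.lf (nat_lit 115593) (.g (nat_lit 1542) (.e (nat_lit 5939) (nat_lit 322) (.e (nat_lit 57372) (nat_lit 2) (.e (nat_lit 90176) (nat_lit 15) (.e (nat_lit 188428) (nat_lit 20) .nil)))) .nil)) 
(.lf (nat_lit 115657) (.g (nat_lit 1580) (.e (nat_lit 5939) (nat_lit 322) (.e (nat_lit 57375) (nat_lit 2) (.e (nat_lit 90176) (nat_lit 15) (.e (nat_lit 188439) (nat_lit 20) (.e (nat_lit 7936) (nat_lit 219) .nil))))) .nil))) (.nd (nat_lit 6) 
(.lf (nat_lit 115625) (.g (nat_lit 2910) (.e (nat_lit 5939) (nat_lit 322) (.e (nat_lit 57375) (nat_lit 2) (.e (nat_lit 90172) (nat_lit 14) (.e (nat_lit 180243) (nat_lit 5) (.e (nat_lit 532515) (nat_lit 3) (.e (nat_lit 114716) (nat_lit 22) (.e (nat_lit 90182) (nat_lit 16) (.e (nat_lit 229379) (nat_lit 0) .nil)))))))) (.g (nat_lit 5) .nil .nil))) 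
(.lf (nat_lit 115689) (.g (nat_lit 1891) (.e (nat_lit 5939) (nat_lit 322) (.e (nat_lit 57375) (nat_lit 2) (.e (nat_lit 90185) (nat_lit 17) (.e (nat_lit 237601) (nat_lit 9) (.e (nat_lit 426566) (nat_lit 34) (.e (nat_lit 393240) (nat_lit 17) (.e (nat_lit 2472) (nat_lit 157) .nil))))))) (.g (nat_lit 5) .nil .nil))))) (.nd (nat_lit 5) (.nd (nat_lit 6) 
(.lf (nat_lit 115609) (.g (nat_lit 2719) (.e (nat_lit 5939) (nat_lit 322) (.e (nat_lit 57374) (nat_lit 2) (.e (nat_lit 90170) (nat_lit 13) (.e (nat_lit 172065) (nat_lit 3) (.e (nat_lit 204838) (nat_lit 20) .nil))))) .nil)) 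
(.lf (nat_lit 115673) (.g (nat_lit 2211) (.e (nat_lit 5939) (nat_lit 322) (.e (nat_lit 57375) (nat_lit 2) (.e (nat_lit 90178) (nat_lit 15) (.e (nat_lit 188461) (nat_lit 26) (.e (nat_lit 261888) (nat_lit 5) .nil))))) .nil))) (.nd (nat_lit 6) 
(.lf (nat_lit 115641) (.g (nat_lit 3440) (.e (nat_lit 5939) (nat_lit 322) (.e (nat_lit 57375) (nat_lit 2) (.e (nat_lit 90172) (nat_lit 14) (.e (nat_lit 180244) (nat_lit 5) (.e (nat_lit 532515) (nat_lit 3) (.e (nat_lit 114716) (nat_lit 22) (.e (nat_lit 90182) (nat_lit 16) (.e (nat_lit 229379) (nat_lit 0) .nil)))))))) (.g (nat_lit 6) .nil .nil))) 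
(.lf (nat_lit 115705) (.g (nat_lit 2193) (.e (nat_lit 5939) (nat_lit 322) (.e (nat_lit 57375) (nat_lit 2) (.e (nat_lit 90185) (nat_lit 17) (.e (nat_lit 237605) (nat_lit 9) (.e (nat_lit 426566) (nat_lit 34) (.e (nat_lit 393239) (nat_lit 17) (.e (nat_lit 2416) (nat_lit 157) .nil))))))) (.g (nat_lit 5) .nil .nil))))))) (.nd (nat_lit 3) (.nd (nat_lit 4) (.nd (nat_lit 5) (.nd (nat_lit 6) 
(.lf (nat_lit 115589) (.g (nat_lit 1571) (.e (nat_lit 5939) (nat_lit 322) (.e (nat_lit 57372) (nat_lit 2) (.e (nat_lit 90176) (nat_lit 15) (.e (nat_lit 188423) (nat_lit 11) (.e (nat_lit 343808) (nat_lit 31) (.e (nat_lit 458774) (nat_lit 18) .nil)))))) (.g (nat_lit 4) .nil .nil))) 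
(.lf (nat_lit 115653) (.g (nat_lit 1728) (.e (nat_lit 5939) (nat_lit 322) (.e (nat_lit 57375) (nat_lit 2) (.e (nat_lit 90176) (nat_lit 15) (.e (nat_lit 188427) (nat_lit 20) (.e (nat_lit 3547) (nat_lit 219) .nil))))) .nil))) (.nd (nat_lit 6) 
(.lf (nat_lit 115621) (.g (nat_lit 2735) (.e (nat_lit 5939) (nat_lit 322) (.e (nat_lit 57375) (nat_lit 2) (.e (nat_lit 90172) (nat_lit 14) (.e (nat_lit 180243) (nat_lit 5) (.e (nat_lit 532513) (nat_lit 3) (.e (nat_lit 114714) (nat_lit 22) (.e (nat_lit 90163) (nat_lit 12) (.e (nat_lit 163850) (nat_lit 0) .nil)))))))) (.g (nat_lit 5) .nil .nil))) 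
(.lf (nat_lit 115685) (.g (nat_lit 2122) (.e (nat_lit 5939) (nat_lit 322) (.e (nat_lit 57375) (nat_lit 2) (.e (nat_lit 90185) (nat_lit 17) (.e (nat_lit 237601) (nat_lit 9) (.e (nat_lit 426566) (nat_lit 34) (.e (nat_lit 393239) (nat_lit 17) (.e (nat_lit 2456) (nat_lit 157) .nil))))))) (.g (nat_lit 5) .nil .nil))))) (.nd (nat_lit 5) (.nd (nat_lit 6) 
(.lf (nat_lit 115605) (.g (nat_lit 661) (.e (nat_lit 5939) (nat_lit 322) (.e (nat_lit 57372) (nat_lit 2) (.e (nat_lit 90178) (nat_lit 15) .nil))) .nil)) 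
(.lf (nat_lit 115669) (.g (nat_lit 1425) (.e (nat_lit 5939) (nat_lit 322) (.e (nat_lit 57375) (nat_lit 2) (.e (nat_lit 90178) (nat_lit 15) (.e (nat_lit 196352) (nat_lit 11) .nil)))) .nil))) (.nd (nat_lit 6) 
(.lf (nat_lit 115637) (.g (nat_lit 3355) (.e (nat_lit 5939) (nat_lit 322) (.e (nat_lit 57375) (nat_lit 2) (.e (nat_lit 90172) (nat_lit 14) (.e (nat_lit 180244) (nat_lit 5) (.e (nat_lit 532515) (nat_lit 3) (.e (nat_lit 114716) (nat_lit 22) (.e (nat_lit 90179) (nat_lit 16) (.e (nat_lit 229379) (nat_lit 0) .nil)))))))) (.g (nat_lit 6) .nil .nil))) 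
(.lf (nat_lit 115701) (.g (nat_lit 1617) (.e (nat_lit 5939) (nat_lit 322) (.e (nat_lit 57375) (nat_lit 2) (.e (nat_lit 90185) (nat_lit 17) (.e (nat_lit 237605) (nat_lit 9) (.e (nat_lit 426566) (nat_lit 34) (.e (nat_lit 393231) (nat_lit 17) (.e (nat_lit 2464) (nat_lit 157) .nil))))))) (.g (nat_lit 4) .nil .nil)))))) (.nd (nat_lit 4) (.nd (nat_lit 5) (.nd (nat_lit 6) 
(.lf (nat_lit 115597) (.g (nat_lit 1321) (.e (nat_lit 5939) (nat_lit 322) (.e (nat_lit 57372) (nat_lit 2) (.e (nat_lit 90176) (nat_lit 15) (.e (nat_lit 188459) (nat_lit 26) .nil)))) .nil)) 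
(.lf (nat_lit 115661) (.g (nat_lit 1898) (.e (nat_lit 5939) (nat_lit 322) (.e (nat_lit 57375) (nat_lit 2) (.e (nat_lit 90176) (nat_lit 15) (.e (nat_lit 188461) (nat_lit 26) (.e (nat_lit 261888) (nat_lit 0) .nil))))) .nil))) (.nd (nat_lit 6) 
(.lf (nat_lit 115629) (.g (nat_lit 2876) (.e (nat_lit 5939) (nat_lit 322) (.e (nat_lit 57375) (nat_lit 2) (.e (nat_lit 90172) (nat_lit 14) (.e (nat_lit 180244) (nat_lit 5) (.e (nat_lit 532513) (nat_lit 3) (.e (nat_lit 114714) (nat_lit 22) (.e (nat_lit 90181) (nat_lit 16) (.e (nat_lit 229378) (nat_lit 0) .nil)))))))) (.g (nat_lit 5) .nil .nil))) 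
(.lf (nat_lit 115693) (.g (nat_lit 2175) (.e (nat_lit 5939) (nat_lit 322) (.e (nat_lit 57375) (nat_lit 2) (.e (nat_lit 90185) (nat_lit 17) (.e (nat_lit 237605) (nat_lit 9) (.e (nat_lit 426479) (nat_lit 27) (.e (nat_lit 336421) (nat_lit 28) (.e (nat_lit 442112) (nat_lit 18) .nil))))))) (.g (nat_lit 6) .nil .nil))))) (.nd (nat_lit 5) (.nd (nat_lit 6) 
(.lf (nat_lit 115613) (.g (nat_lit 2038) (.e (nat_lit 5939) (nat_lit 322) (.e (nat_lit 57374) (nat_lit 2) (.e (nat_lit 90170) (nat_lit 13) (.e (nat_lit 172121) (nat_lit 13) .nil)))) .nil)) 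
(.lf (nat_lit 115677) (.g (nat_lit 1411) (.e (nat_lit 5939) (nat_lit 322) (.e (nat_lit 57375) (nat_lit 2) (.e (nat_lit 90185) (nat_lit 17) (.e (nat_lit 237601) (nat_lit 9) (.e (nat_lit 426566) (nat_lit 34) (.e (nat_lit 393231) (nat_lit 17) (.e (nat_lit 2416) (nat_lit 157) .nil))))))) (.g (nat_lit 4) .nil .nil)))) (.nd (nat_lit 6) 
(.lf (nat_lit 115645) (.g (nat_lit 466) (.e (nat_lit 5939) (nat_lit 322) (.e (nat_lit 57375) (nat_lit 2) (.e (nat_lit 90176) (nat_lit 15) .nil))) .nil)) 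
(.lf (nat_lit 115709) (.g (nat_lit 1586) (.e (nat_lit 5939) (nat_lit 322) (.e (nat_lit 57375) (nat_lit 2) (.e (nat_lit 90185) (nat_lit 17) (.e (nat_lit 237605) (nat_lit 9) (.e (nat_lit 426566) (nat_lit 34) (.e (nat_lit 393240) (nat_lit 17) (.e (nat_lit 2416) (nat_lit 157) .nil))))))) (.g (nat_lit 4) .nil .nil)))))))) 
(.nd (nat_lit 2) (.nd (nat_lit 3) (.nd (nat_lit 4) (.nd (nat_lit 5) (.nd (nat_lit 6) 
(.lf (nat_lit 115587) (.g (nat_lit 1342) (.e (nat_lit 5939) (nat_lit 322) (.e (nat_lit 57372) (nat_lit 2) (.e (nat_lit 90176) (nat_lit 15) (.e (nat_lit 188421) (nat_lit 11) .nil)))) .nil)) 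
(.lf (nat_lit 115651) (.g (nat_lit 1244) (.e (nat_lit 5939) (nat_lit 322) (.e (nat_lit 57375) (nat_lit 2) (.e (nat_lit 90176) (nat_lit 15) (.e (nat_lit 196352) (nat_lit 18) .nil)))) .nil))) (.nd (nat_lit 6) 
(.lf (nat_lit 115619) (.g (nat_lit 2051) (.e (nat_lit 5939) (nat_lit 322) (.e (nat_lit 57375) (nat_lit 2) (.e (nat_lit 90172) (nat_lit 14) (.e (nat_lit 180243) (nat_lit 5) (.e (nat_lit 532508) (nat_lit 2) (.e (nat_lit 106517) (nat_lit 9) (.e (nat_lit 1255) (nat_lit 92) (.e (nat_lit 98321) (nat_lit 17) (.e (nat_lit 2464) (nat_lit 157) .nil))))))))) (.g (nat_lit 4) .nil .nil))) 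
(.lf (nat_lit 115683) (.g (nat_lit 1444) (.e (nat_lit 5939) (nat_lit 322) (.e (nat_lit 57375) (nat_lit 2) (.e (nat_lit 90185) (nat_lit 17) (.e (nat_lit 237601) (nat_lit 9) (.e (nat_lit 426566) (nat_lit 34) (.e (nat_lit 393237) (nat_lit 17) (.e (nat_lit 2456) (nat_lit 157) .nil))))))) (.g (nat_lit 4) .nil .nil))))) (.nd (nat_lit 5) (.nd (nat_lit 6) 
(.lf (nat_lit 115603) (.g (nat_lit 1521) (.e (nat_lit 5939) (nat_lit 322) (.e (nat_lit 57372) (nat_lit 2) (.e (nat_lit 90176) (nat_lit 15) (.e (nat_lit 188461) (nat_lit 26) .nil)))) .nil)) 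
(.lf (nat_lit 115667) (.g (nat_lit 1339) (.e (nat_lit 5939) (nat_lit 322) (.e (nat_lit 57375) (nat_lit 2) (.e (nat_lit 90178) (nat_lit 15) (.e (nat_lit 188421) (nat_lit 11) .nil)))) .nil))) (.nd (nat_lit 6) 
(.lf (nat_lit 115635) (.g (nat_lit 2103) (.e (nat_lit 5939) (nat_lit 322) (.e (nat_lit 57375) (nat_lit 2) (.e (nat_lit 90172) (nat_lit 14) (.e (nat_lit 180244) (nat_lit 5) (.e (nat_lit 532515) (nat_lit 3) (.e (nat_lit 114715) (nat_lit 22) (.e (nat_lit 90182) (nat_lit 16) (.e (nat_lit 229379) (nat_lit 0) .nil)))))))) (.g (nat_lit 4) .nil .nil))) 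
(.lf (nat_lit 115699) (.g (nat_lit 1607) (.e (nat_lit 5939) (nat_lit 322) (.e (nat_lit 57375) (nat_lit 2) (.e (nat_lit 90185) (nat_lit 17) (.e (nat_lit 237605) (nat_lit 9) (.e (nat_lit 426566) (nat_lit 34) (.e (nat_lit 393231) (nat_lit 17) (.e (nat_lit 2416) (nat_lit 157) .nil))))))) (.g (nat_lit 4) .nil .nil)))))) (.nd (nat_lit 4) (.nd (nat_lit 5) (.nd (nat_lit 6) 
(.lf (nat_lit 115595) (.g (nat_lit 1814) (.e (nat_lit 5939) (nat_lit 322) (.e (nat_lit 57372) (nat_lit 2) (.e (nat_lit 90176) (nat_lit 15) (.e (nat_lit 188431) (nat_lit 20) (.e (nat_lit 3547) (nat_lit 219) .nil))))) .nil)) 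
(.lf (nat_lit 115659) (.g (nat_lit 2016) (.e (nat_lit 5939) (nat_lit 322) (.e (nat_lit 57375) (nat_lit 2) (.e (nat_lit 90176) (nat_lit 15) (.e (nat_lit 188459) (nat_lit 26) (.e (nat_lit 261888) (nat_lit 5) (.e (nat_lit 180224) (nat_lit 0) .nil)))))) (.g (nat_lit 4) .nil .nil)))) (.nd (nat_lit 6) 
(.lf (nat_lit 115627) (.g (nat_lit 3000) (.e (nat_lit 5939) (nat_lit 322) (.e (nat_lit 57375) (nat_lit 2) (.e (nat_lit 90172) (nat_lit 14) (.e (nat_lit 180244) (nat_lit 5) (.e (nat_lit 532513) (nat_lit 3) (.e (nat_lit 114714) (nat_lit 22) (.e (nat_lit 90162) (nat_lit 12) (.e (nat_lit 163850) (nat_lit 0) .nil)))))))) (.g (nat_lit 5) .nil .nil))) 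
(.lf (nat_lit 115691) (.g (nat_lit 956) (.e (nat_lit 5939) (nat_lit 322) (.e (nat_lit 57375) (nat_lit 2) (.e (nat_lit 90185) (nat_lit 17) (.e (nat_lit 237605) (nat_lit 9) .nil)))) .nil)))) (.nd (nat_lit 5) (.nd (nat_lit 6) 
(.lf (nat_lit 115611) (.g (nat_lit 2648) (.e (nat_lit 5939) (nat_lit 322) (.e (nat_lit 57374) (nat_lit 2) (.e (nat_lit 90170) (nat_lit 13) (.e (nat_lit 172067) (nat_lit 3) (.e (nat_lit 204834) (nat_lit 19) .nil))))) .nil)) 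
(.lf (nat_lit 115675) (.g (nat_lit 1895) (.e (nat_lit 5939) (nat_lit 322) (.e (nat_lit 57375) (nat_lit 2) (.e (nat_lit 90185) (nat_lit 17) (.e (nat_lit 237601) (nat_lit 9) (.e (nat_lit 426479) (nat_lit 27) (.e (nat_lit 336421) (nat_lit 28) (.e (nat_lit 442112) (nat_lit 18) .nil))))))) (.g (nat_lit 6) .nil .nil)))) (.nd (nat_lit 6) 
(.lf (nat_lit 115643) (.g (nat_lit 1914) (.e (nat_lit 5939) (nat_lit 322) (.e (nat_lit 57375) (nat_lit 2) (.e (nat_lit 90174) (nat_lit 14) (.e (nat_lit 180243) (nat_lit 5) (.e (nat_lit 532508) (nat_lit 2) .nil))))) .nil)) 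
(.lf (nat_lit 115707) (.g (nat_lit 1622) (.e (nat_lit 5939) (nat_lit 322) (.e (nat_lit 57375) (nat_lit 2) (.e (nat_lit 90185) (nat_lit 17) (.e (nat_lit 237605) (nat_lit 9) (.e (nat_lit 426566) (nat_lit 34) (.e (nat_lit 393239) (nat_lit 17) (.e (nat_lit 2464) (nat_lit 157) .nil))))))) (.g (nat_lit 4) .nil .nil))))))) (.nd (nat_lit 3) (.nd (nat_lit 4) (.nd (nat_lit 5) (.nd (nat_lit 6) 
(.lf (nat_lit 115591) (.g (nat_lit 1189) (.e (nat_lit 5939) (nat_lit 322) (.e (nat_lit 57372) (nat_lit 2) (.e (nat_lit 90176) (nat_lit 15) (.e (nat_lit 196352) (nat_lit 18) .nil)))) .nil)) 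
(.lf (nat_lit 115655) (.g (nat_lit 1716) (.e (nat_lit 5939) (nat_lit 322) (.e (nat_lit 57375) (nat_lit 2) (.e (nat_lit 90176) (nat_lit 15) (.e (nat_lit 188431) (nat_lit 20) (.e (nat_lit 3483) (nat_lit 218) .nil))))) .nil))) (.nd (nat_lit 6) 
(.lf (nat_lit 115623) (.g (nat_lit 3277) (.e (nat_lit 5939) (nat_lit 322) (.e (nat_lit 57375) (nat_lit 2) (.e (nat_lit 90172) (nat_lit 14) (.e (nat_lit 180243) (nat_lit 5) (.e (nat_lit 532515) (nat_lit 3) (.e (nat_lit 114716) (nat_lit 22) (.e (nat_lit 90164) (nat_lit 12) (.e (nat_lit 163850) (nat_lit 0) .nil)))))))) (.g (nat_lit 6) .nil .nil))) 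
(.lf (nat_lit 115687) (.g (nat_lit 2262) (.e (nat_lit 5939) (nat_lit 322) (.e (nat_lit 57375) (nat_lit 2) (.e (nat_lit 90185) (nat_lit 17) (.e (nat_lit 237601) (nat_lit 9) (.e (nat_lit 426566) (nat_lit 34) (.e (nat_lit 393239) (nat_lit 17) (.e (nat_lit 2473) (nat_lit 157) .nil))))))) (.g (nat_lit 5) .nil .nil))))) (.nd (nat_lit 5) (.nd (nat_lit 6) 
(.lf (nat_lit 115607) (.g (nat_lit 1808) (.e (nat_lit 5939) (nat_lit 322) (.e (nat_lit 57372) (nat_lit 2) (.e (nat_lit 90185) (nat_lit 17) (.e (nat_lit 237623) (nat_lit 13) .nil)))) .nil)) 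
(.lf (nat_lit 115671) (.g (nat_lit 1541) (.e (nat_lit 5939) (nat_lit 322) (.e (nat_lit 57375) (nat_lit 2) (.e (nat_lit 90178) (nat_lit 15) (.e (nat_lit 188459) (nat_lit 26) .nil)))) .nil))) (.nd (nat_lit 6) 
(.lf (nat_lit 115639) (.g (nat_lit 3912) (.e (nat_lit 5939) (nat_lit 322) (.e (nat_lit 57375) (nat_lit 2) (.e (nat_lit 90172) (nat_lit 14) (.e (nat_lit 180244) (nat_lit 5) (.e (nat_lit 532515) (nat_lit 3) (.e (nat_lit 114716) (nat_lit 22) (.e (nat_lit 90181) (nat_lit 16) (.e (nat_lit 229376) (nat_lit 0) .nil)))))))) (.g (nat_lit 8) .nil .nil))) 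
(.lf (nat_lit 115703) (.g (nat_lit 2249) (.e (nat_lit 5939) (nat_lit 322) (.e (nat_lit 57375) (nat_lit 2) (.e (nat_lit 90185) (nat_lit 17) (.e (nat_lit 237605) (nat_lit 9) (.e (nat_lit 426566) (nat_lit 34) (.e (nat_lit 393231) (nat_lit 17) (.e (nat_lit 2473) (nat_lit 157) .nil))))))) (.g (nat_lit 5) .nil .nil)))))) (.nd (nat_lit 4) (.nd (nat_lit 5) (.nd (nat_lit 6) 
(.lf (nat_lit 115599) (.g (nat_lit 1815) (.e (nat_lit 5939) (nat_lit 322) (.e (nat_lit 57372) (nat_lit 2) (.e (nat_lit 90176) (nat_lit 15) (.e (nat_lit 188459) (nat_lit 26) (.e (nat_lit 253954) (nat_lit 0) .nil))))) .nil)) 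
(.lf (nat_lit 115663) (.g (nat_lit 763) (.e (nat_lit 5939) (nat_lit 322) (.e (nat_lit 57375) (nat_lit 2) (.e (nat_lit 90177) (nat_lit 15) .nil))) .nil))) (.nd (nat_lit 6) 
(.lf (nat_lit 115631) (.g (nat_lit 1817) (.e (nat_lit 5939) (nat_lit 322) (.e (nat_lit 57375) (nat_lit 2) (.e (nat_lit 90172) (nat_lit 14) (.e (nat_lit 180244) (nat_lit 5) (.e (nat_lit 532515) (nat_lit 3) .nil))))) .nil)) 
(.lf (nat_lit 115695) (.g (nat_lit 1900) (.e (nat_lit 5939) (nat_lit 322) (.e (nat_lit 57375) (nat_lit 2) (.e (nat_lit 90185) (nat_lit 17) (.e (nat_lit 237605) (nat_lit 9) (.e (nat_lit 426479) (nat_lit 27) (.e (nat_lit 336438) (nat_lit 31) (.e (nat_lit 458773) (nat_lit 18) .nil))))))) (.g (nat_lit 4) .nil .nil))))) (.nd (nat_lit 5) (.nd (nat_lit 6) 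
(.lf (nat_lit 115615) (.g (nat_lit 771) (.e (nat_lit 5939) (nat_lit 322) (.e (nat_lit 57375) (nat_lit 2) (.e (nat_lit 90169) (nat_lit 13) .nil))) .nil)) 
(.lf (nat_lit 115679) (.g (nat_lit 1421) (.e (nat_lit 5939) (nat_lit 322) (.e (nat_lit 57375) (nat_lit 2) (.e (nat_lit 90185) (nat_lit 17) (.e (nat_lit 237601) (nat_lit 9) (.e (nat_lit 426566) (nat_lit 34) (.e (nat_lit 393231) (nat_lit 17) (.e (nat_lit 2464) (nat_lit 157) .nil))))))) (.g (nat_lit 4) .nil .nil)))) (.nd (nat_lit 6) 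
(.lf (nat_lit 115647) (.g (nat_lit 1252) (.e (nat_lit 5939) (nat_lit 322) (.e (nat_lit 57375) (nat_lit 2) (.e (nat_lit 90176) (nat_lit 15) (.e (nat_lit 188423) (nat_lit 11) (.e (nat_lit 336387) (nat_lit 27) .nil))))) .nil)) 
(.lf (nat_lit 115711) (.g (nat_lit 1517) (.e (nat_lit 5939) (nat_lit 322) (.e (nat_lit 57375) (nat_lit 2) (.e (nat_lit 90185) (nat_lit 17) (.e (nat_lit 237605) (nat_lit 9) (.e (nat_lit 426566) (nat_lit 34) (.e (nat_lit 393240) (nat_lit 17) (.e (nat_lit 2470) (nat_lit 157) .nil))))))) (.g (nat_lit 4) .nil .nil))))))))))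

noncomputable def tv1557 : DT := (.nd (nat_lit 0) (.nd (nat_lit 1) (.nd (nat_lit 2) (.nd (nat_lit 3) (.nd (nat_lit 4) (.nd (nat_lit 5) (.nd (nat_lit 6) 
(.lf (nat_lit 115712) (.g (nat_lit 2160) (.e (nat_lit 5939) (nat_lit 322) (.e (nat_lit 57375) (nat_lit 2) (.e (nat_lit 90185) (nat_lit 17) (.e (nat_lit 237605) (nat_lit 9) (.e (nat_lit 426566) (nat_lit 34) (.e (nat_lit 393240) (nat_lit 17) (.e (nat_lit 2472) (nat_lit 157) .nil))))))) (.g (nat_lit 5) .nil .nil))) 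
(.lf (nat_lit 115776) (.g (nat_lit 1938) (.e (nat_lit 5939) (nat_lit 322) (.e (nat_lit 57379) (nat_lit 3) (.e (nat_lit 98365) (nat_lit 26) (.e (nat_lit 426188) (nat_lit 9) (.e (nat_lit 426566) (nat_lit 34) (.e (nat_lit 393241) (nat_lit 17) (.e (nat_lit 2473) (nat_lit 157) .nil))))))) (.g (nat_lit 4) .nil .nil)))) (.nd (nat_lit 6) 
(.lf (nat_lit 115744) (.g (nat_lit 1741) (.e (nat_lit 5939) (nat_lit 322) (.e (nat_lit 57379) (nat_lit 3) (.e (nat_lit 98365) (nat_lit 26) (.e (nat_lit 426187) (nat_lit 9) (.e (nat_lit 426566) (nat_lit 34) (.e (nat_lit 393231) (nat_lit 17) (.e (nat_lit 2466) (nat_lit 157) .nil))))))) (.g (nat_lit 4) .nil .nil))) 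
(.lf (nat_lit 115808) (.g (nat_lit 1463) (.e (nat_lit 5939) (nat_lit 322) (.e (nat_lit 57379) (nat_lit 3) (.e (nat_lit 98372) (nat_lit 29) (.e (nat_lit 450603) (nat_lit 22) .nil)))) .nil)))) (.nd (nat_lit 5) (.nd (nat_lit 6) 
(.lf (nat_lit 115728) (.g (nat_lit 546) (.e (nat_lit 5939) (nat_lit 322) (.e (nat_lit 57379) (nat_lit 3) (.e (nat_lit 98363) (nat_lit 26) .nil))) .nil)) 
(.lf (nat_lit 115792) (.g (nat_lit 1322) (.e (nat_lit 5939) (nat_lit 322) (.e (nat_lit 57379) (nat_lit 3) (.e (nat_lit 98369) (nat_lit 28) (.e (nat_lit 442390) (nat_lit 11) (.e (nat_lit 336387) (nat_lit 27) (.e (nat_lit 426030) (nat_lit 0) (.e (nat_lit 2456) (nat_lit 157) .nil))))))) (.g (nat_lit 4) .nil .nil)))) (.nd (nat_lit 6) 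
(.lf (nat_lit 115760) (.g (nat_lit 1973) (.e (nat_lit 5939) (nat_lit 322) (.e (nat_lit 57379) (nat_lit 3) (.e (nat_lit 98365) (nat_lit 26) (.e (nat_lit 426188) (nat_lit 9) (.e (nat_lit 426486) (nat_lit 27) .nil))))) .nil)) 
(.lf (nat_lit 115824) (.g (nat_lit 1955) (.e (nat_lit 5939) (nat_lit 322) (.e (nat_lit 57379) (nat_lit 3) (.e (nat_lit 98376) (nat_lit 30) (.e (nat_lit 458789) (nat_lit 23) (.e (nat_lit 532515) (nat_lit 3) (.e (nat_lit 114715) (nat_lit 22) (.e (nat_lit 90165) (nat_lit 12) (.e (nat_lit 171776) (nat_lit 0) .nil)))))))) (.g (nat_lit 4) .nil .nil)))))) 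
(.nd (nat_lit 4) (.nd (nat_lit 5) (.nd (nat_lit 6) 
(.lf (nat_lit 115720) (.g (nat_lit 1479) (.e (nat_lit 5939) (nat_lit 322) (.e (nat_lit 57375) (nat_lit 2) (.e (nat_lit 90185) (nat_lit 17) (.e (nat_lit 237623) (nat_lit 13) .nil)))) .nil)) 
(.lf (nat_lit 115784) (.g (nat_lit 2221) (.e (nat_lit 5939) (nat_lit 322) (.e (nat_lit 57379) (nat_lit 3) (.e (nat_lit 98367) (nat_lit 27) (.e (nat_lit 434245) (nat_lit 28) (.e (nat_lit 573488) (nat_lit 14) .nil))))) .nil))) (.nd (nat_lit 6) 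
(.lf (nat_lit 115752) (.g (nat_lit 1125) (.e (nat_lit 5939) (nat_lit 322) (.e (nat_lit 57379) (nat_lit 3) (.e (nat_lit 98365) (nat_lit 26) (.e (nat_lit 426188) (nat_lit 9) .nil)))) .nil)) 
(.lf (nat_lit 115816) (.g (nat_lit 1675) (.e (nat_lit 5939) (nat_lit 322) (.e (nat_lit 57379) (nat_lit 3) (.e (nat_lit 98373) (nat_lit 29) (.e (nat_lit 450602) (nat_lit 22) .nil)))) .nil)))) (.nd (nat_lit 5) (.nd (nat_lit 6) 
(.lf (nat_lit 115736) (.g (nat_lit 2896) (.e (nat_lit 5939) (nat_lit 322) (.e (nat_lit 57379) (nat_lit 3) (.e (nat_lit 98365) (nat_lit 26) (.e (nat_lit 426187) (nat_lit 9) (.e (nat_lit 426479) (nat_lit 27) (.e (nat_lit 336425) (nat_lit 28) (.e (nat_lit 434209) (nat_lit 18) .nil))))))) (.g (nat_lit 7) .nil .nil))) 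
(.lf (nat_lit 115800) (.g (nat_lit 445) (.e (nat_lit 5939) (nat_lit 322) (.e (nat_lit 57379) (nat_lit 3) (.e (nat_lit 98370) (nat_lit 28) .nil))) .nil))) (.nd (nat_lit 6) 
(.lf (nat_lit 115768) (.g (nat_lit 1929) (.e (nat_lit 5939) (nat_lit 322) (.e (nat_lit 57379) (nat_lit 3) (.e (nat_lit 98365) (nat_lit 26) (.e (nat_lit 426188) (nat_lit 9) (.e (nat_lit 426566) (nat_lit 34) (.e (nat_lit 393240) (nat_lit 17) (.e (nat_lit 2416) (nat_lit 157) .nil))))))) (.g (nat_lit 4) .nil .nil))) 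
(.lf (nat_lit 115832) (.g (nat_lit 2893) (.e (nat_lit 5939) (nat_lit 322) (.e (nat_lit 57379) (nat_lit 3) (.e (nat_lit 98377) (nat_lit 30) (.e (nat_lit 458789) (nat_lit 23) (.e (nat_lit 532515) (nat_lit 3) (.e (nat_lit 114716) (nat_lit 22) (.e (nat_lit 90181) (nat_lit 16) (.e (nat_lit 229376) (nat_lit 0) .nil)))))))) (.g (nat_lit 5) .nil .nil))))))) 
(.nd (nat_lit 3) (.nd (nat_lit 4) (.nd (nat_lit 5) (.nd (nat_lit 6) 
(.lf (nat_lit 115716) (.g (nat_lit 1999) (.e (nat_lit 5939) (nat_lit 322) (.e (nat_lit 57375) (nat_lit 2) (.e (nat_lit 90185) (nat_lit 17) (.e (nat_lit 237621) (nat_lit 13) (.e (nat_lit 483337) (nat_lit 9) (.e (nat_lit 426031) (nat_lit 0) (.e (nat_lit 2466) (nat_lit 157) .nil))))))) (.g (nat_lit 5) .nil .nil))) 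
(.lf (nat_lit 115780) (.g (nat_lit 1758) (.e (nat_lit 5939) (nat_lit 322) (.e (nat_lit 57379) (nat_lit 3) (.e (nat_lit 98365) (nat_lit 26) (.e (nat_lit 426327) (nat_lit 13) (.e (nat_lit 491264) (nat_lit 10) .nil))))) .nil))) (.nd (nat_lit 6) 
(.lf (nat_lit 115748) (.g (nat_lit 1511) (.e (nat_lit 5939) (nat_lit 322) (.e (nat_lit 57379) (nat_lit 3) (.e (nat_lit 98365) (nat_lit 26) (.e (nat_lit 426187) (nat_lit 9) (.e (nat_lit 426566) (nat_lit 34) (.e (nat_lit 393240) (nat_lit 17) (.e (nat_lit 2464) (nat_lit 157) .nil))))))) (.g (nat_lit 4) .nil .nil))) 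
(.lf (nat_lit 115812) (.g (nat_lit 3139) (.e (nat_lit 5939) (nat_lit 322) (.e (nat_lit 57379) (nat_lit 3) (.e (nat_lit 98373) (nat_lit 29) (.e (nat_lit 450562) (nat_lit 0) (.e (nat_lit 6595) (nat_lit 351) (.e (nat_lit 2458) (nat_lit 157) (.e (nat_lit 3033) (nat_lit 188) (.e (nat_lit 458774) (nat_lit 18) .nil)))))))) (.g (nat_lit 4) .nil .nil))))) (.nd (nat_lit 5) (.nd (nat_lit 6) 
(.lf (nat_lit 115732) (.g (nat_lit 1145) (.e (nat_lit 5939) (nat_lit 322) (.e (nat_lit 57379) (nat_lit 3) (.e (nat_lit 98365) (nat_lit 26) (.e (nat_lit 426187) (nat_lit 9) .nil)))) .nil)) 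
(.lf (nat_lit 115796) (.g (nat_lit 1486) (.e (nat_lit 5939) (nat_lit 322) (.e (nat_lit 57379) (nat_lit 3) (.e (nat_lit 98369) (nat_lit 28) (.e (nat_lit 442390) (nat_lit 11) (.e (nat_lit 336387) (nat_lit 27) (.e (nat_lit 426030) (nat_lit 0) (.e (nat_lit 2472) (nat_lit 157) .nil))))))) (.g (nat_lit 4) .nil .nil)))) (.nd (nat_lit 6) 
(.lf (nat_lit 115764) (.g (nat_lit 1962) (.e (nat_lit 5939) (nat_lit 322) (.e (nat_lit 57379) (nat_lit 3) (.e (nat_lit 98365) (nat_lit 26) (.e (nat_lit 426188) (nat_lit 9) (.e (nat_lit 426564) (nat_lit 34) .nil))))) .nil)) 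
(.lf (nat_lit 115828) (.g (nat_lit 2215) (.e (nat_lit 5939) (nat_lit 322) (.e (nat_lit 57379) (nat_lit 3) (.e (nat_lit 98376) (nat_lit 30) (.e (nat_lit 458789) (nat_lit 23) (.e (nat_lit 532515) (nat_lit 3) (.e (nat_lit 114716) (nat_lit 22) (.e (nat_lit 90182) (nat_lit 16) (.e (nat_lit 229379) (nat_lit 0) .nil)))))))) (.g (nat_lit 5) .nil .nil)))))) 
(.nd (nat_lit 4) (.nd (nat_lit 5) (.nd (nat_lit 6) 
(.lf (nat_lit 115724) (.g (nat_lit 1252) (.e (nat_lit 5939) (nat_lit 322) (.e (nat_lit 57375) (nat_lit 2) (.e (nat_lit 90185) (nat_lit 17) (.e (nat_lit 237624) (nat_lit 13) (.e (nat_lit 483339) (nat_lit 9) (.e (nat_lit 426074) (nat_lit 0) (.e (nat_lit 2452) (nat_lit 157) .nil))))))) (.g (nat_lit 4) .nil .nil))) 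
(.lf (nat_lit 115788) (.g (nat_lit 2169) (.e (nat_lit 5939) (nat_lit 322) (.e (nat_lit 57379) (nat_lit 3) (.e (nat_lit 98368) (nat_lit 27) (.e (nat_lit 434248) (nat_lit 28) (.e (nat_lit 573487) (nat_lit 14) .nil))))) .nil))) (.nd (nat_lit 6) 
(.lf (nat_lit 115756) (.g (nat_lit 3095) (.e (nat_lit 5939) (nat_lit 322) (.e (nat_lit 57379) (nat_lit 3) (.e (nat_lit 98365) (nat_lit 26) (.e (nat_lit 426188) (nat_lit 9) (.e (nat_lit 426479) (nat_lit 27) (.e (nat_lit 336438) (nat_lit 31) (.e (nat_lit 458771) (nat_lit 18) .nil))))))) (.g (nat_lit 6) .nil .nil))) 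
(.lf (nat_lit 115820) (.g (nat_lit 1915) (.e (nat_lit 5939) (nat_lit 322) (.e (nat_lit 57379) (nat_lit 3) (.e (nat_lit 98373) (nat_lit 29) (.e (nat_lit 450604) (nat_lit 22) .nil)))) .nil)))) (.nd (nat_lit 5) (.nd (nat_lit 6) 
(.lf (nat_lit 115740) (.g (nat_lit 1744) (.e (nat_lit 5939) (nat_lit 322) (.e (nat_lit 57379) (nat_lit 3) (.e (nat_lit 98365) (nat_lit 26) (.e (nat_lit 426187) (nat_lit 9) (.e (nat_lit 426484) (nat_lit 27) (.e (nat_lit 336435) (nat_lit 31) (.e (nat_lit 458774) (nat_lit 18) .nil))))))) (.g (nat_lit 4) .nil .nil))) 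
(.lf (nat_lit 115804) (.g (nat_lit 1937) (.e (nat_lit 5939) (nat_lit 322) (.e (nat_lit 57379) (nat_lit 3) (.e (nat_lit 98372) (nat_lit 29) (.e (nat_lit 450561) (nat_lit 0) (.e (nat_lit 6595) (nat_lit 351) (.e (nat_lit 2638) (nat_lit 165) (.e (nat_lit 180224) (nat_lit 0) .nil))))))) (.g (nat_lit 4) .nil .nil)))) (.nd (nat_lit 6) 
(.lf (nat_lit 115772) (.g (nat_lit 2529) (.e (nat_lit 5939) (nat_lit 322) (.e (nat_lit 57379) (nat_lit 3) (.e (nat_lit 98365) (nat_lit 26) (.e (nat_lit 426188) (nat_lit 9) (.e (nat_lit 426566) (nat_lit 34) (.e (nat_lit 393240) (nat_lit 17) (.e (nat_lit 2472) (nat_lit 157) .nil))))))) (.g (nat_lit 5) .nil .nil))) 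
(.lf (nat_lit 115836) (.g (nat_lit 802) (.e (nat_lit 5939) (nat_lit 322) (.e (nat_lit 57379) (nat_lit 3) (.e (nat_lit 98381) (nat_lit 31) .nil))) .nil))))))) (.nd (nat_lit 2) (.nd (nat_lit 3) (.nd (nat_lit 4) (.nd (nat_lit 5) (.nd (nat_lit 6) 
(.lf (nat_lit 115714) (.g (nat_lit 1677) (.e (nat_lit 5939) (nat_lit 322) (.e (nat_lit 57375) (nat_lit 2) (.e (nat_lit 90185) (nat_lit 17) (.e (nat_lit 237620) (nat_lit 13) .nil)))) .nil)) 
(.lf (nat_lit 115778) (.g (nat_lit 1612) (.e (nat_lit 5939) (nat_lit 322) (.e (nat_lit 57379) (nat_lit 3) (.e (nat_lit 98365) (nat_lit 26) (.e (nat_lit 426325) (nat_lit 13) (.e (nat_lit 491264) (nat_lit 10) .nil))))) .nil))) (.nd (nat_lit 6) 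
(.lf (nat_lit 115746) (.g (nat_lit 1680) (.e (nat_lit 5939) (nat_lit 322) (.e (nat_lit 57379) (nat_lit 3) (.e (nat_lit 98365) (nat_lit 26) (.e (nat_lit 426187) (nat_lit 9) (.e (nat_lit 426566) (nat_lit 34) (.e (nat_lit 393240) (nat_lit 17) (.e (nat_lit 2416) (nat_lit 157) .nil))))))) (.g (nat_lit 4) .nil .nil))) 
(.lf (nat_lit 115810) (.g (nat_lit 1929) (.e (nat_lit 5939) (nat_lit 322) (.e (nat_lit 57379) (nat_lit 3) (.e (nat_lit 98373) (nat_lit 29) (.e (nat_lit 450561) (nat_lit 0) .nil)))) .nil)))) (.nd (nat_lit 5) (.nd (nat_lit 6) 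
(.lf (nat_lit 115730) (.g (nat_lit 1578) (.e (nat_lit 5939) (nat_lit 322) (.e (nat_lit 57379) (nat_lit 3) (.e (nat_lit 98363) (nat_lit 26) (.e (nat_lit 426228) (nat_lit 9) (.e (nat_lit 426488) (nat_lit 27) (.e (nat_lit 336435) (nat_lit 31) (.e (nat_lit 458774) (nat_lit 18) .nil))))))) (.g (nat_lit 4) .nil .nil))) 
(.lf (nat_lit 115794) (.g (nat_lit 1553) (.e (nat_lit 5939) (nat_lit 322) (.e (nat_lit 57379) (nat_lit 3) (.e (nat_lit 98369) (nat_lit 28) (.e (nat_lit 442390) (nat_lit 11) (.e (nat_lit 336387) (nat_lit 27) (.e (nat_lit 426030) (nat_lit 0) (.e (nat_lit 2464) (nat_lit 157) .nil))))))) (.g (nat_lit 4) .nil .nil)))) (.nd (nat_lit 6) 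
(.lf (nat_lit 115762) (.g (nat_lit 2279) (.e (nat_lit 5939) (nat_lit 322) (.e (nat_lit 57379) (nat_lit 3) (.e (nat_lit 98365) (nat_lit 26) (.e (nat_lit 426188) (nat_lit 9) (.e (nat_lit 426486) (nat_lit 27) (.e (nat_lit 336439) (nat_lit 31) (.e (nat_lit 458774) (nat_lit 18) .nil))))))) (.g (nat_lit 4) .nil .nil))) 
(.lf (nat_lit 115826) (.g (nat_lit 2807) (.e (nat_lit 5939) (nat_lit 322) (.e (nat_lit 57379) (nat_lit 3) (.e (nat_lit 98376) (nat_lit 30) (.e (nat_lit 458789) (nat_lit 23) (.e (nat_lit 532515) (nat_lit 3) (.e (nat_lit 114716) (nat_lit 22) (.e (nat_lit 90181) (nat_lit 16) (.e (nat_lit 229376) (nat_lit 0) .nil)))))))) (.g (nat_lit 6) .nil .nil)))))) 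
(.nd (nat_lit 4) (.nd (nat_lit 5) (.nd (nat_lit 6) 
(.lf (nat_lit 115722) (.g (nat_lit 1899) (.e (nat_lit 5939) (nat_lit 322) (.e (nat_lit 57375) (nat_lit 2) (.e (nat_lit 90185) (nat_lit 17) (.e (nat_lit 237624) (nat_lit 13) (.e (nat_lit 483337) (nat_lit 9) (.e (nat_lit 426031) (nat_lit 0) (.e (nat_lit 2466) (nat_lit 157) .nil))))))) (.g (nat_lit 5) .nil .nil))) 
(.lf (nat_lit 115786) (.g (nat_lit 2128) (.e (nat_lit 5939) (nat_lit 322) (.e (nat_lit 57379) (nat_lit 3) (.e (nat_lit 98367) (nat_lit 27) (.e (nat_lit 434247) (nat_lit 28) (.e (nat_lit 573489) (nat_lit 14) .nil))))) .nil))) (.nd (nat_lit 6) 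
(.lf (nat_lit 115754) (.g (nat_lit 2162) (.e (nat_lit 5939) (nat_lit 322) (.e (nat_lit 57379) (nat_lit 3) (.e (nat_lit 98365) (nat_lit 26) (.e (nat_lit 426188) (nat_lit 9) (.e (nat_lit 426479) (nat_lit 27) (.e (nat_lit 336421) (nat_lit 28) (.e (nat_lit 434199) (nat_lit 18) .nil))))))) (.g (nat_lit 4) .nil .nil))) 
(.lf (nat_lit 115818) (.g (nat_lit 2402) (.e (nat_lit 5939) (nat_lit 322) (.e (nat_lit 57379) (nat_lit 3) (.e (nat_lit 98373) (nat_lit 29) (.e (nat_lit 450602) (nat_lit 22) (.e (nat_lit 704594) (nat_lit 5) (.e (nat_lit 180224) (nat_lit 0) .nil)))))) (.g (nat_lit 0) .nil .nil))))) (.nd (nat_lit 5) (.nd (nat_lit 6) 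
(.lf (nat_lit 115738) (.g (nat_lit 2171) (.e (nat_lit 5939) (nat_lit 322) (.e (nat_lit 57379) (nat_lit 3) (.e (nat_lit 98365) (nat_lit 26) (.e (nat_lit 426187) (nat_lit 9) (.e (nat_lit 426479) (nat_lit 27) (.e (nat_lit 336438) (nat_lit 31) (.e (nat_lit 458773) (nat_lit 18) .nil))))))) (.g (nat_lit 5) .nil .nil))) 
(.lf (nat_lit 115802) (.g (nat_lit 488) (.e (nat_lit 5939) (nat_lit 322) (.e (nat_lit 57379) (nat_lit 3) (.e (nat_lit 98372) (nat_lit 29) .nil))) .nil))) (.nd (nat_lit 6) 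
(.lf (nat_lit 115770) (.g (nat_lit 1760) (.e (nat_lit 5939) (nat_lit 322) (.e (nat_lit 57379) (nat_lit 3) (.e (nat_lit 98365) (nat_lit 26) (.e (nat_lit 426188) (nat_lit 9) (.e (nat_lit 426566) (nat_lit 34) (.e (nat_lit 393240) (nat_lit 17) (.e (nat_lit 2464) (nat_lit 157) .nil))))))) (.g (nat_lit 4) .nil .nil))) 
(.lf (nat_lit 115834) (.g (nat_lit 2301) (.e (nat_lit 5939) (nat_lit 322) (.e (nat_lit 57379) (nat_lit 3) (.e (nat_lit 98377) (nat_lit 30) (.e (nat_lit 458789) (nat_lit 23) (.e (nat_lit 532515) (nat_lit 3) (.e (nat_lit 114716) (nat_lit 22) (.e (nat_lit 90182) (nat_lit 16) (.e (nat_lit 229379) (nat_lit 0) .nil)))))))) (.g (nat_lit 4) .nil .nil))))))) 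
(.nd (nat_lit 3) (.nd (nat_lit 4) (.nd (nat_lit 5) (.nd (nat_lit 6) 
(.lf (nat_lit 115718) (.g (nat_lit 1267) (.e (nat_lit 5939) (nat_lit 322) (.e (nat_lit 57375) (nat_lit 2) (.e (nat_lit 90185) (nat_lit 17) (.e (nat_lit 237621) (nat_lit 13) (.e (nat_lit 483339) (nat_lit 9) (.e (nat_lit 426074) (nat_lit 0) (.e (nat_lit 2452) (nat_lit 157) .nil))))))) (.g (nat_lit 4) .nil .nil))) 
(.lf (nat_lit 115782) (.g (nat_lit 1333) (.e (nat_lit 5939) (nat_lit 322) (.e (nat_lit 57379) (nat_lit 3) (.e (nat_lit 98366) (nat_lit 27) (.e (nat_lit 434247) (nat_lit 28) .nil)))) .nil))) (.nd (nat_lit 6) 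
(.lf (nat_lit 115750) (.g (nat_lit 2280) (.e (nat_lit 5939) (nat_lit 322) (.e (nat_lit 57379) (nat_lit 3) (.e (nat_lit 98365) (nat_lit 26) (.e (nat_lit 426187) (nat_lit 9) (.e (nat_lit 426566) (nat_lit 34) (.e (nat_lit 393240) (nat_lit 17) (.e (nat_lit 2472) (nat_lit 157) .nil))))))) (.g (nat_lit 5) .nil .nil))) 
(.lf (nat_lit 115814) (.g (nat_lit 3175) (.e (nat_lit 5939) (nat_lit 322) (.e (nat_lit 57379) (nat_lit 3) (.e (nat_lit 98373) (nat_lit 29) (.e (nat_lit 450563) (nat_lit 0) (.e (nat_lit 6595) (nat_lit 351) .nil))))) .nil)))) (.nd (nat_lit 5) (.nd (nat_lit 6) 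
(.lf (nat_lit 115734) (.g (nat_lit 1733) (.e (nat_lit 5939) (nat_lit 322) (.e (nat_lit 57379) (nat_lit 3) (.e (nat_lit 98365) (nat_lit 26) (.e (nat_lit 426187) (nat_lit 9) (.e (nat_lit 426479) (nat_lit 27) (.e (nat_lit 336421) (nat_lit 28) (.e (nat_lit 434199) (nat_lit 18) .nil))))))) (.g (nat_lit 4) .nil .nil))) 
(.lf (nat_lit 115798) (.g (nat_lit 1061) (.e (nat_lit 5939) (nat_lit 322) (.e (nat_lit 57379) (nat_lit 3) (.e (nat_lit 98369) (nat_lit 28) (.e (nat_lit 450304) (nat_lit 18) .nil)))) .nil))) (.nd (nat_lit 6) 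
(.lf (nat_lit 115766) (.g (nat_lit 2010) (.e (nat_lit 5939) (nat_lit 322) (.e (nat_lit 57379) (nat_lit 3) (.e (nat_lit 98365) (nat_lit 26) (.e (nat_lit 426188) (nat_lit 9) (.e (nat_lit 426566) (nat_lit 34) (.e (nat_lit 393231) (nat_lit 17) (.e (nat_lit 2457) (nat_lit 157) .nil))))))) (.g (nat_lit 4) .nil .nil))) 
(.lf (nat_lit 115830) (.g (nat_lit 2038) (.e (nat_lit 5939) (nat_lit 322) (.e (nat_lit 57379) (nat_lit 3) (.e (nat_lit 98377) (nat_lit 30) (.e (nat_lit 458789) (nat_lit 23) (.e (nat_lit 532515) (nat_lit 3) (.e (nat_lit 114715) (nat_lit 22) (.e (nat_lit 90165) (nat_lit 12) (.e (nat_lit 171776) (nat_lit 0) .nil)))))))) (.g (nat_lit 4) .nil .nil)))))) 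
(.nd (nat_lit 4) (.nd (nat_lit 5) (.nd (nat_lit 6) 
(.lf (nat_lit 115726) (.g (nat_lit 1504) (.e (nat_lit 5939) (nat_lit 322) (.e (nat_lit 57375) (nat_lit 2) (.e (nat_lit 90185) (nat_lit 17) (.e (nat_lit 237624) (nat_lit 13) (.e (nat_lit 491264) (nat_lit 13) (.e (nat_lit 458773) (nat_lit 18) .nil)))))) (.g (nat_lit 4) .nil .nil))) 
(.lf (nat_lit 115790) (.g (nat_lit 920) (.e (nat_lit 5939) (nat_lit 322) (.e (nat_lit 57379) (nat_lit 3) (.e (nat_lit 98369) (nat_lit 28) (.e (nat_lit 442389) (nat_lit 11) .nil)))) .nil))) (.nd (nat_lit 6) 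
(.lf (nat_lit 115758) (.g (nat_lit 2016) (.e (nat_lit 5939) (nat_lit 322) (.e (nat_lit 57379) (nat_lit 3) (.e (nat_lit 98365) (nat_lit 26) (.e (nat_lit 426188) (nat_lit 9) (.e (nat_lit 426484) (nat_lit 27) .nil))))) .nil)) 
(.lf (nat_lit 115822) (.g (nat_lit 1504) (.e (nat_lit 5939) (nat_lit 322) (.e (nat_lit 57379) (nat_lit 3) (.e (nat_lit 98373) (nat_lit 29) (.e (nat_lit 458496) (nat_lit 23) .nil)))) .nil)))) (.nd (nat_lit 5) (.nd (nat_lit 6) 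
(.lf (nat_lit 115742) (.g (nat_lit 1628) (.e (nat_lit 5939) (nat_lit 322) (.e (nat_lit 57379) (nat_lit 3) (.e (nat_lit 98365) (nat_lit 26) (.e (nat_lit 426187) (nat_lit 9) (.e (nat_lit 426489) (nat_lit 27) .nil))))) .nil)) 
(.lf (nat_lit 115806) (.g (nat_lit 1441) (.e (nat_lit 5939) (nat_lit 322) (.e (nat_lit 57379) (nat_lit 3) (.e (nat_lit 98372) (nat_lit 29) (.e (nat_lit 450602) (nat_lit 22) .nil)))) .nil))) (.nd (nat_lit 6) 
(.lf (nat_lit 115774) (.g (nat_lit 1909) (.e (nat_lit 5939) (nat_lit 322) (.e (nat_lit 57379) (nat_lit 3) (.e (nat_lit 98365) (nat_lit 26) (.e (nat_lit 426188) (nat_lit 9) (.e (nat_lit 426566) (nat_lit 34) (.e (nat_lit 393241) (nat_lit 17) (.e (nat_lit 2456) (nat_lit 157) .nil))))))) (.g (nat_lit 4) .nil .nil))) 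
(.lf (nat_lit 115838) (.g (nat_lit 2356) (.e (nat_lit 5939) (nat_lit 322) (.e (nat_lit 57399) (nat_lit 10) (.e (nat_lit 319531) (nat_lit 16) (.e (nat_lit 286761) (nat_lit 13) (.e (nat_lit 393288) (nat_lit 25) (.e (nat_lit 458774) (nat_lit 18) .nil)))))) (.g (nat_lit 5) .nil .nil))))))))) (.nd (nat_lit 1) (.nd (nat_lit 2) (.nd (nat_lit 3) (.nd (nat_lit 4) (.nd (nat_lit 5) (.nd (nat_lit 6) 
(.lf (nat_lit 115713) (.g (nat_lit 2175) (.e (nat_lit 5939) (nat_lit 322) (.e (nat_lit 57375) (nat_lit 2) (.e (nat_lit 90185) (nat_lit 17) (.e (nat_lit 237605) (nat_lit 9) (.e (nat_lit 426566) (nat_lit 34) (.e (nat_lit 393240) (nat_lit 17) (.e (nat_lit 2473) (nat_lit 157) .nil))))))) (.g (nat_lit 5) .nil .nil))) 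
(.lf (nat_lit 115777) (.g (nat_lit 1020) (.e (nat_lit 5939) (nat_lit 322) (.e (nat_lit 57379) (nat_lit 3) (.e (nat_lit 98365) (nat_lit 26) (.e (nat_lit 426325) (nat_lit 13) .nil)))) .nil))) (.nd (nat_lit 6) 
(.lf (nat_lit 115745) (.g (nat_lit 1734) (.e (nat_lit 5939) (nat_lit 322) (.e (nat_lit 57379) (nat_lit 3) (.e (nat_lit 98365) (nat_lit 26) (.e (nat_lit 426187) (nat_lit 9) (.e (nat_lit 426566) (nat_lit 34) (.e (nat_lit 393231) (nat_lit 17) (.e (nat_lit 2467) (nat_lit 157) .nil))))))) (.g (nat_lit 4) .nil .nil))) 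
(.lf (nat_lit 115809) (.g (nat_lit 1197) (.e (nat_lit 5939) (nat_lit 322) (.e (nat_lit 57379) (nat_lit 3) (.e (nat_lit 98372) (nat_lit 29) (.e (nat_lit 458496) (nat_lit 22) .nil)))) .nil)))) (.nd (nat_lit 5) (.nd (nat_lit 6) 
(.lf (nat_lit 115729) (.g (nat_lit 1313) (.e (nat_lit 5939) (nat_lit 322) (.e (nat_lit 57379) (nat_lit 3) (.e (nat_lit 98363) (nat_lit 26) (.e (nat_lit 426228) (nat_lit 9) (.e (nat_lit 426488) (nat_lit 27) .nil))))) .nil)) 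
(.lf (nat_lit 115793) (.g (nat_lit 1280) (.e (nat_lit 5939) (nat_lit 322) (.e (nat_lit 57379) (nat_lit 3) (.e (nat_lit 98369) (nat_lit 28) (.e (nat_lit 442390) (nat_lit 11) (.e (nat_lit 336387) (nat_lit 27) (.e (nat_lit 426030) (nat_lit 0) (.e (nat_lit 2457) (nat_lit 157) .nil))))))) (.g (nat_lit 4) .nil .nil)))) (.nd (nat_lit 6) 
(.lf (nat_lit 115761) (.g (nat_lit 2285) (.e (nat_lit 5939) (nat_lit 322) (.e (nat_lit 57379) (nat_lit 3) (.e (nat_lit 98365) (nat_lit 26) (.e (nat_lit 426188) (nat_lit 9) (.e (nat_lit 426486) (nat_lit 27) (.e (nat_lit 336424) (nat_lit 28) (.e (nat_lit 434209) (nat_lit 18) .nil))))))) (.g (nat_lit 5) .nil .nil))) 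
(.lf (nat_lit 115825) (.g (nat_lit 2321) (.e (nat_lit 5939) (nat_lit 322) (.e (nat_lit 57379) (nat_lit 3) (.e (nat_lit 98376) (nat_lit 30) (.e (nat_lit 458789) (nat_lit 23) (.e (nat_lit 532515) (nat_lit 3) (.e (nat_lit 114716) (nat_lit 22) (.e (nat_lit 90163) (nat_lit 12) (.e (nat_lit 163850) (nat_lit 0) .nil)))))))) (.g (nat_lit 5) .nil .nil)))))) 
(.nd (nat_lit 4) (.nd (nat_lit 5) (.nd (nat_lit 6) 
(.lf (nat_lit 115721) (.g (nat_lit 712) (.e (nat_lit 5939) (nat_lit 322) (.e (nat_lit 57375) (nat_lit 2) (.e (nat_lit 90185) (nat_lit 17) (.e (nat_lit 237624) (nat_lit 13) .nil)))) .nil)) 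
(.lf (nat_lit 115785) (.g (nat_lit 1809) (.e (nat_lit 5939) (nat_lit 322) (.e (nat_lit 57379) (nat_lit 3) (.e (nat_lit 98367) (nat_lit 27) (.e (nat_lit 434246) (nat_lit 28) .nil)))) .nil))) (.nd (nat_lit 6) 
(.lf (nat_lit 115753) (.g (nat_lit 2154) (.e (nat_lit 5939) (nat_lit 322) (.e (nat_lit 57379) (nat_lit 3) (.e (nat_lit 98365) (nat_lit 26) (.e (nat_lit 426188) (nat_lit 9) (.e (nat_lit 426478) (nat_lit 27) .nil))))) .nil)) 
(.lf (nat_lit 115817) (.g (nat_lit 1840) (.e (nat_lit 5939) (nat_lit 322) (.e (nat_lit 57379) (nat_lit 3) (.e (nat_lit 98373) (nat_lit 29) (.e (nat_lit 450602) (nat_lit 22) (.e (nat_lit 704519) (nat_lit 0) .nil))))) .nil)))) (.nd (nat_lit 5) (.nd (nat_lit 6) 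
(.lf (nat_lit 115737) (.g (nat_lit 2700) (.e (nat_lit 5939) (nat_lit 322) (.e (nat_lit 57379) (nat_lit 3) (.e (nat_lit 98365) (nat_lit 26) (.e (nat_lit 426187) (nat_lit 9) (.e (nat_lit 426479) (nat_lit 27) (.e (nat_lit 336438) (nat_lit 31) (.e (nat_lit 458771) (nat_lit 18) .nil))))))) (.g (nat_lit 6) .nil .nil))) 
(.lf (nat_lit 115801) (.g (nat_lit 1201) (.e (nat_lit 5939) (nat_lit 322) (.e (nat_lit 57379) (nat_lit 3) (.e (nat_lit 98370) (nat_lit 28) (.e (nat_lit 450304) (nat_lit 18) .nil)))) .nil))) (.nd (nat_lit 6) 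
(.lf (nat_lit 115769) (.g (nat_lit 1917) (.e (nat_lit 5939) (nat_lit 322) (.e (nat_lit 57379) (nat_lit 3) (.e (nat_lit 98365) (nat_lit 26) (.e (nat_lit 426188) (nat_lit 9) (.e (nat_lit 426566) (nat_lit 34) (.e (nat_lit 393240) (nat_lit 17) (.e (nat_lit 2456) (nat_lit 157) .nil))))))) (.g (nat_lit 4) .nil .nil))) 
(.lf (nat_lit 115833) (.g (nat_lit 2819) (.e (nat_lit 5939) (nat_lit 322) (.e (nat_lit 57379) (nat_lit 3) (.e (nat_lit 98377) (nat_lit 30) (.e (nat_lit 458789) (nat_lit 23) (.e (nat_lit 532515) (nat_lit 3) (.e (nat_lit 114716) (nat_lit 22) (.e (nat_lit 90181) (nat_lit 16) (.e (nat_lit 229378) (nat_lit 0) .nil)))))))) (.g (nat_lit 5) .nil .nil))))))) 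
(.nd (nat_lit 3) (.nd (nat_lit 4) (.nd (nat_lit 5) (.nd (nat_lit 6) 
(.lf (nat_lit 115717) (.g (nat_lit 1206) (.e (nat_lit 5939) (nat_lit 322) (.e (nat_lit 57375) (nat_lit 2) (.e (nat_lit 90185) (nat_lit 17) (.e (nat_lit 237621) (nat_lit 13) (.e (nat_lit 483339) (nat_lit 9) .nil))))) .nil)) 
(.lf (nat_lit 115781) (.g (nat_lit 2145) (.e (nat_lit 5939) (nat_lit 322) (.e (nat_lit 57379) (nat_lit 3) (.e (nat_lit 98366) (nat_lit 27) (.e (nat_lit 434231) (nat_lit 23) (.e (nat_lit 532515) (nat_lit 3) .nil))))) .nil))) (.nd (nat_lit 6) 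
(.lf (nat_lit 115749) (.g (nat_lit 1657) (.e (nat_lit 5939) (nat_lit 322) (.e (nat_lit 57379) (nat_lit 3) (.e (nat_lit 98365) (nat_lit 26) (.e (nat_lit 426187) (nat_lit 9) (.e (nat_lit 426566) (nat_lit 34) (.e (nat_lit 393240) (nat_lit 17) (.e (nat_lit 2470) (nat_lit 157) .nil))))))) (.g (nat_lit 4) .nil .nil))) 
(.lf (nat_lit 115813) (.g (nat_lit 3608) (.e (nat_lit 5939) (nat_lit 322) (.e (nat_lit 57379) (nat_lit 3) (.e (nat_lit 98373) (nat_lit 29) (.e (nat_lit 450562) (nat_lit 0) (.e (nat_lit 6595) (nat_lit 351) (.e (nat_lit 2639) (nat_lit 165) (.e (nat_lit 180224) (nat_lit 0) .nil))))))) (.g (nat_lit 5) .nil .nil))))) (.nd (nat_lit 5) (.nd (nat_lit 6) 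
(.lf (nat_lit 115733) (.g (nat_lit 1652) (.e (nat_lit 5939) (nat_lit 322) (.e (nat_lit 57379) (nat_lit 3) (.e (nat_lit 98365) (nat_lit 26) (.e (nat_lit 426187) (nat_lit 9) (.e (nat_lit 426478) (nat_lit 27) .nil))))) .nil)) 
(.lf (nat_lit 115797) (.g (nat_lit 1736) (.e (nat_lit 5939) (nat_lit 322) (.e (nat_lit 57379) (nat_lit 3) (.e (nat_lit 98369) (nat_lit 28) (.e (nat_lit 442390) (nat_lit 11) (.e (nat_lit 336387) (nat_lit 27) (.e (nat_lit 426031) (nat_lit 0) (.e (nat_lit 2466) (nat_lit 157) .nil))))))) (.g (nat_lit 5) .nil .nil)))) (.nd (nat_lit 6) 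
(.lf (nat_lit 115765) (.g (nat_lit 1724) (.e (nat_lit 5939) (nat_lit 322) (.e (nat_lit 57379) (nat_lit 3) (.e (nat_lit 98365) (nat_lit 26) (.e (nat_lit 426188) (nat_lit 9) (.e (nat_lit 426566) (nat_lit 34) .nil))))) .nil)) 
(.lf (nat_lit 115829) (.g (nat_lit 1981) (.e (nat_lit 5939) (nat_lit 322) (.e (nat_lit 57379) (nat_lit 3) (.e (nat_lit 98377) (nat_lit 30) (.e (nat_lit 458789) (nat_lit 23) (.e (nat_lit 532515) (nat_lit 3) .nil))))) .nil))))) (.nd (nat_lit 4) (.nd (nat_lit 5) (.nd (nat_lit 6) 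
(.lf (nat_lit 115725) (.g (nat_lit 2092) (.e (nat_lit 5939) (nat_lit 322) (.e (nat_lit 57375) (nat_lit 2) (.e (nat_lit 90185) (nat_lit 17) (.e (nat_lit 237624) (nat_lit 13) (.e (nat_lit 483341) (nat_lit 9) (.e (nat_lit 426031) (nat_lit 0) (.e (nat_lit 2466) (nat_lit 157) .nil))))))) (.g (nat_lit 5) .nil .nil))) 
(.lf (nat_lit 115789) (.g (nat_lit 440) (.e (nat_lit 5939) (nat_lit 322) (.e (nat_lit 57379) (nat_lit 3) (.e (nat_lit 98369) (nat_lit 28) .nil))) .nil))) (.nd (nat_lit 6) 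
(.lf (nat_lit 115757) (.g (nat_lit 2576) (.e (nat_lit 5939) (nat_lit 322) (.e (nat_lit 57379) (nat_lit 3) (.e (nat_lit 98365) (nat_lit 26) (.e (nat_lit 426188) (nat_lit 9) (.e (nat_lit 426479) (nat_lit 27) (.e (nat_lit 336438) (nat_lit 31) (.e (nat_lit 458773) (nat_lit 18) .nil))))))) (.g (nat_lit 5) .nil .nil))) 
(.lf (nat_lit 115821) (.g (nat_lit 1504) (.e (nat_lit 5939) (nat_lit 322) (.e (nat_lit 57379) (nat_lit 3) (.e (nat_lit 98373) (nat_lit 29) (.e (nat_lit 458496) (nat_lit 22) .nil)))) .nil)))) (.nd (nat_lit 5) (.nd (nat_lit 6) 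
(.lf (nat_lit 115741) (.g (nat_lit 1742) (.e (nat_lit 5939) (nat_lit 322) (.e (nat_lit 57379) (nat_lit 3) (.e (nat_lit 98365) (nat_lit 26) (.e (nat_lit 426187) (nat_lit 9) (.e (nat_lit 426486) (nat_lit 27) (.e (nat_lit 336425) (nat_lit 28) (.e (nat_lit 434209) (nat_lit 18) .nil))))))) (.g (nat_lit 4) .nil .nil))) 
(.lf (nat_lit 115805) (.g (nat_lit 1703) (.e (nat_lit 5939) (nat_lit 322) (.e (nat_lit 57379) (nat_lit 3) (.e (nat_lit 98372) (nat_lit 29) (.e (nat_lit 450561) (nat_lit 0) (.e (nat_lit 6595) (nat_lit 351) (.e (nat_lit 2639) (nat_lit 165) (.e (nat_lit 180224) (nat_lit 0) .nil))))))) (.g (nat_lit 4) .nil .nil)))) (.nd (nat_lit 6) 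
(.lf (nat_lit 115773) (.g (nat_lit 2498) (.e (nat_lit 5939) (nat_lit 322) (.e (nat_lit 57379) (nat_lit 3) (.e (nat_lit 98365) (nat_lit 26) (.e (nat_lit 426188) (nat_lit 9) (.e (nat_lit 426566) (nat_lit 34) (.e (nat_lit 393240) (nat_lit 17) (.e (nat_lit 2473) (nat_lit 157) .nil))))))) (.g (nat_lit 5) .nil .nil))) 
(.lf (nat_lit 115837) (.g (nat_lit 1476) (.e (nat_lit 5939) (nat_lit 322) (.e (nat_lit 57399) (nat_lit 10) (.e (nat_lit 319531) (nat_lit 16) (.e (nat_lit 286748) (nat_lit 9) (.e (nat_lit 336389) (nat_lit 27) .nil))))) .nil))))))) (.nd (nat_lit 2) (.nd (nat_lit 3) (.nd (nat_lit 4) (.nd (nat_lit 5) (.nd (nat_lit 6) 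
(.lf (nat_lit 115715) (.g (nat_lit 822) (.e (nat_lit 5939) (nat_lit 322) (.e (nat_lit 57375) (nat_lit 2) (.e (nat_lit 90185) (nat_lit 17) (.e (nat_lit 237621) (nat_lit 13) .nil)))) .nil)) 
(.lf (nat_lit 115779) (.g (nat_lit 1604) (.e (nat_lit 5939) (nat_lit 322) (.e (nat_lit 57379) (nat_lit 3) (.e (nat_lit 98365) (nat_lit 26) (.e (nat_lit 426326) (nat_lit 13) (.e (nat_lit 491264) (nat_lit 10) .nil))))) .nil))) (.nd (nat_lit 6) 
(.lf (nat_lit 115747) (.g (nat_lit 1668) (.e (nat_lit 5939) (nat_lit 322) (.e (nat_lit 57379) (nat_lit 3) (.e (nat_lit 98365) (nat_lit 26) (.e (nat_lit 426187) (nat_lit 9) (.e (nat_lit 426566) (nat_lit 34) (.e (nat_lit 393240) (nat_lit 17) (.e (nat_lit 2456) (nat_lit 157) .nil))))))) (.g (nat_lit 4) .nil .nil))) 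
(.lf (nat_lit 115811) (.g (nat_lit 3089) (.e (nat_lit 5939) (nat_lit 322) (.e (nat_lit 57379) (nat_lit 3) (.e (nat_lit 98373) (nat_lit 29) (.e (nat_lit 450562) (nat_lit 0) (.e (nat_lit 6595) (nat_lit 351) .nil))))) .nil)))) (.nd (nat_lit 5) (.nd (nat_lit 6) 
(.lf (nat_lit 115731) (.g (nat_lit 960) (.e (nat_lit 5939) (nat_lit 322) (.e (nat_lit 57379) (nat_lit 3) (.e (nat_lit 98363) (nat_lit 26) (.e (nat_lit 426321) (nat_lit 13) .nil)))) .nil)) 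
(.lf (nat_lit 115795) (.g (nat_lit 1743) (.e (nat_lit 5939) (nat_lit 322) (.e (nat_lit 57379) (nat_lit 3) (.e (nat_lit 98369) (nat_lit 28) (.e (nat_lit 442390) (nat_lit 11) (.e (nat_lit 336387) (nat_lit 27) (.e (nat_lit 426030) (nat_lit 0) (.e (nat_lit 2470) (nat_lit 157) .nil))))))) (.g (nat_lit 5) .nil .nil)))) (.nd (nat_lit 6) 
(.lf (nat_lit 115763) (.g (nat_lit 2214) (.e (nat_lit 5939) (nat_lit 322) (.e (nat_lit 57379) (nat_lit 3) (.e (nat_lit 98365) (nat_lit 26) (.e (nat_lit 426188) (nat_lit 9) (.e (nat_lit 426489) (nat_lit 27) .nil))))) .nil)) 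
(.lf (nat_lit 115827) (.g (nat_lit 2733) (.e (nat_lit 5939) (nat_lit 322) (.e (nat_lit 57379) (nat_lit 3) (.e (nat_lit 98376) (nat_lit 30) (.e (nat_lit 458789) (nat_lit 23) (.e (nat_lit 532515) (nat_lit 3) (.e (nat_lit 114716) (nat_lit 22) (.e (nat_lit 90181) (nat_lit 16) (.e (nat_lit 229378) (nat_lit 0) .nil)))))))) (.g (nat_lit 6) .nil .nil)))))) 
(.nd (nat_lit 4) (.nd (nat_lit 5) (.nd (nat_lit 6) 
(.lf (nat_lit 115723) (.g (nat_lit 1173) (.e (nat_lit 5939) (nat_lit 322) (.e (nat_lit 57375) (nat_lit 2) (.e (nat_lit 90185) (nat_lit 17) (.e (nat_lit 237624) (nat_lit 13) (.e (nat_lit 483339) (nat_lit 9) .nil))))) .nil)) 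
(.lf (nat_lit 115787) (.g (nat_lit 2028) (.e (nat_lit 5939) (nat_lit 322) (.e (nat_lit 57379) (nat_lit 3) (.e (nat_lit 98368) (nat_lit 27) (.e (nat_lit 434247) (nat_lit 28) (.e (nat_lit 573489) (nat_lit 14) .nil))))) .nil))) (.nd (nat_lit 6) 
(.lf (nat_lit 115755) (.g (nat_lit 2846) (.e (nat_lit 5939) (nat_lit 322) (.e (nat_lit 57379) (nat_lit 3) (.e (nat_lit 98365) (nat_lit 26) (.e (nat_lit 426188) (nat_lit 9) (.e (nat_lit 426479) (nat_lit 27) (.e (nat_lit 336421) (nat_lit 28) (.e (nat_lit 442112) (nat_lit 18) .nil))))))) (.g (nat_lit 6) .nil .nil))) 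
(.lf (nat_lit 115819) (.g (nat_lit 1826) (.e (nat_lit 5939) (nat_lit 322) (.e (nat_lit 57379) (nat_lit 3) (.e (nat_lit 98373) (nat_lit 29) (.e (nat_lit 450603) (nat_lit 22) .nil)))) .nil)))) (.nd (nat_lit 5) (.nd (nat_lit 6) 
(.lf (nat_lit 115739) (.g (nat_lit 1652) (.e (nat_lit 5939) (nat_lit 322) (.e (nat_lit 57379) (nat_lit 3) (.e (nat_lit 98365) (nat_lit 26) (.e (nat_lit 426187) (nat_lit 9) (.e (nat_lit 426484) (nat_lit 27) .nil))))) .nil)) 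
(.lf (nat_lit 115803) (.g (nat_lit 1200) (.e (nat_lit 5939) (nat_lit 322) (.e (nat_lit 57379) (nat_lit 3) (.e (nat_lit 98372) (nat_lit 29) (.e (nat_lit 450561) (nat_lit 0) .nil)))) .nil))) (.nd (nat_lit 6) 
(.lf (nat_lit 115771) (.g (nat_lit 1906) (.e (nat_lit 5939) (nat_lit 322) (.e (nat_lit 57379) (nat_lit 3) (.e (nat_lit 98365) (nat_lit 26) (.e (nat_lit 426188) (nat_lit 9) (.e (nat_lit 426566) (nat_lit 34) (.e (nat_lit 393240) (nat_lit 17) (.e (nat_lit 2470) (nat_lit 157) .nil))))))) (.g (nat_lit 4) .nil .nil))) 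
(.lf (nat_lit 115835) (.g (nat_lit 837) (.e (nat_lit 5939) (nat_lit 322) (.e (nat_lit 57379) (nat_lit 3) (.e (nat_lit 98380) (nat_lit 31) .nil))) .nil)))))) (.nd (nat_lit 3) (.nd (nat_lit 4) (.nd (nat_lit 5) (.nd (nat_lit 6) 
(.lf (nat_lit 115719) (.g (nat_lit 1471) (.e (nat_lit 5939) (nat_lit 322) (.e (nat_lit 57375) (nat_lit 2) (.e (nat_lit 90185) (nat_lit 17) (.e (nat_lit 237621) (nat_lit 13) (.e (nat_lit 491264) (nat_lit 13) (.e (nat_lit 458773) (nat_lit 18) .nil)))))) (.g (nat_lit 4) .nil .nil))) 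
(.lf (nat_lit 115783) (.g (nat_lit 1855) (.e (nat_lit 5939) (nat_lit 322) (.e (nat_lit 57379) (nat_lit 3) (.e (nat_lit 98367) (nat_lit 27) (.e (nat_lit 434232) (nat_lit 23) .nil)))) .nil))) (.nd (nat_lit 6) 
(.lf (nat_lit 115751) (.g (nat_lit 2249) (.e (nat_lit 5939) (nat_lit 322) (.e (nat_lit 57379) (nat_lit 3) (.e (nat_lit 98365) (nat_lit 26) (.e (nat_lit 426187) (nat_lit 9) (.e (nat_lit 426566) (nat_lit 34) (.e (nat_lit 393240) (nat_lit 17) (.e (nat_lit 2473) (nat_lit 157) .nil))))))) (.g (nat_lit 5) .nil .nil))) 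
(.lf (nat_lit 115815) (.g (nat_lit 3633) (.e (nat_lit 5939) (nat_lit 322) (.e (nat_lit 57379) (nat_lit 3) (.e (nat_lit 98373) (nat_lit 29) (.e (nat_lit 450563) (nat_lit 0) (.e (nat_lit 6595) (nat_lit 351) (.e (nat_lit 2639) (nat_lit 165) (.e (nat_lit 180224) (nat_lit 0) .nil))))))) (.g (nat_lit 5) .nil .nil))))) (.nd (nat_lit 5) (.nd (nat_lit 6) 
(.lf (nat_lit 115735) (.g (nat_lit 2418) (.e (nat_lit 5939) (nat_lit 322) (.e (nat_lit 57379) (nat_lit 3) (.e (nat_lit 98365) (nat_lit 26) (.e (nat_lit 426187) (nat_lit 9) (.e (nat_lit 426479) (nat_lit 27) (.e (nat_lit 336421) (nat_lit 28) (.e (nat_lit 442112) (nat_lit 18) .nil))))))) (.g (nat_lit 6) .nil .nil))) 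
(.lf (nat_lit 115799) (.g (nat_lit 1797) (.e (nat_lit 5939) (nat_lit 322) (.e (nat_lit 57379) (nat_lit 3) (.e (nat_lit 98369) (nat_lit 28) (.e (nat_lit 450304) (nat_lit 18) (.e (nat_lit 393238) (nat_lit 17) (.e (nat_lit 7936) (nat_lit 157) .nil)))))) (.g (nat_lit 5) .nil .nil)))) (.nd (nat_lit 6) 
(.lf (nat_lit 115767) (.g (nat_lit 1999) (.e (nat_lit 5939) (nat_lit 322) (.e (nat_lit 57379) (nat_lit 3) (.e (nat_lit 98365) (nat_lit 26) (.e (nat_lit 426188) (nat_lit 9) (.e (nat_lit 426566) (nat_lit 34) (.e (nat_lit 393237) (nat_lit 17) (.e (nat_lit 2467) (nat_lit 157) .nil))))))) (.g (nat_lit 4) .nil .nil))) 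
(.lf (nat_lit 115831) (.g (nat_lit 2038) (.e (nat_lit 5939) (nat_lit 322) (.e (nat_lit 57379) (nat_lit 3) (.e (nat_lit 98377) (nat_lit 30) (.e (nat_lit 458789) (nat_lit 23) (.e (nat_lit 532515) (nat_lit 3) (.e (nat_lit 114716) (nat_lit 22) (.e (nat_lit 90180) (nat_lit 16) (.e (nat_lit 229379) (nat_lit 0) .nil)))))))) (.g (nat_lit 4) .nil .nil)))))) 
(.nd (nat_lit 4) (.nd (nat_lit 5) (.nd (nat_lit 6) 
(.lf (nat_lit 115727) (.g (nat_lit 2546) (.e (nat_lit 5939) (nat_lit 322) (.e (nat_lit 57379) (nat_lit 3) (.e (nat_lit 98356) (nat_lit 26) (.e (nat_lit 426131) (nat_lit 3) (.e (nat_lit 204838) (nat_lit 20) .nil))))) .nil)) 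
(.lf (nat_lit 115791) (.g (nat_lit 1263) (.e (nat_lit 5939) (nat_lit 322) (.e (nat_lit 57379) (nat_lit 3) (.e (nat_lit 98369) (nat_lit 28) (.e (nat_lit 442390) (nat_lit 11) (.e (nat_lit 336387) (nat_lit 27) .nil))))) .nil))) (.nd (nat_lit 6) 
(.lf (nat_lit 115759) (.g (nat_lit 2286) (.e (nat_lit 5939) (nat_lit 322) (.e (nat_lit 57379) (nat_lit 3) (.e (nat_lit 98365) (nat_lit 26) (.e (nat_lit 426188) (nat_lit 9) (.e (nat_lit 426484) (nat_lit 27) (.e (nat_lit 336435) (nat_lit 31) (.e (nat_lit 458774) (nat_lit 18) .nil))))))) (.g (nat_lit 4) .nil .nil))) 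
(.lf (nat_lit 115823) (.g (nat_lit 831) (.e (nat_lit 5939) (nat_lit 322) (.e (nat_lit 57379) (nat_lit 3) (.e (nat_lit 98374) (nat_lit 29) .nil))) .nil)))) (.nd (nat_lit 5) (.nd (nat_lit 6) 
(.lf (nat_lit 115743) (.g (nat_lit 1736) (.e (nat_lit 5939) (nat_lit 322) (.e (nat_lit 57379) (nat_lit 3) (.e (nat_lit 98365) (nat_lit 26) (.e (nat_lit 426187) (nat_lit 9) (.e (nat_lit 426566) (nat_lit 34) (.e (nat_lit 393231) (nat_lit 17) (.e (nat_lit 2464) (nat_lit 157) .nil))))))) (.g (nat_lit 4) .nil .nil))) 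
(.lf (nat_lit 115807) (.g (nat_lit 1918) (.e (nat_lit 5939) (nat_lit 322) (.e (nat_lit 57379) (nat_lit 3) (.e (nat_lit 98372) (nat_lit 29) (.e (nat_lit 450602) (nat_lit 22) (.e (nat_lit 704594) (nat_lit 5) (.e (nat_lit 180224) (nat_lit 0) .nil)))))) (.g (nat_lit 5) .nil .nil)))) (.nd (nat_lit 6) 
(.lf (nat_lit 115775) (.g (nat_lit 1970) (.e (nat_lit 5939) (nat_lit 322) (.e (nat_lit 57379) (nat_lit 3) (.e (nat_lit 98365) (nat_lit 26) (.e (nat_lit 426188) (nat_lit 9) (.e (nat_lit 426566) (nat_lit 34) (.e (nat_lit 393241) (nat_lit 17) (.e (nat_lit 2472) (nat_lit 157) .nil))))))) (.g (nat_lit 4) .nil .nil))) 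
(.lf (nat_lit 115839) (.g (nat_lit 1568) (.e (nat_lit 5939) (nat_lit 322) (.e (nat_lit 57399) (nat_lit 10) (.e (nat_lit 319534) (nat_lit 16) (.e (nat_lit 286761) (nat_lit 13) (.e (nat_lit 393289) (nat_lit 25) .nil))))) .nil)))))))))

noncomputable def tv1558 : DT := (.nd (nat_lit 0) (.nd (nat_lit 1) (.nd (nat_lit 2) (.nd (nat_lit 3) (.nd (nat_lit 4) (.nd (nat_lit 5) (.nd (nat_lit 6) 
(.lf (nat_lit 115840) (.g (nat_lit 321) (.e (nat_lit 5939) (nat_lit 322) (.e (nat_lit 57400) (nat_lit 10) (.e (nat_lit 319511) (nat_lit 10) .nil))) .nil)) 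
(.lf (nat_lit 115904) (.g (nat_lit 840) (.e (nat_lit 5940) (nat_lit 322) (.e (nat_lit 57379) (nat_lit 3) (.e (nat_lit 98381) (nat_lit 31) .nil))) .nil))) (.nd (nat_lit 6) 
(.lf (nat_lit 115872) (.g (nat_lit 805) (.e (nat_lit 5940) (nat_lit 322) (.e (nat_lit 57371) (nat_lit 2) (.e (nat_lit 90185) (nat_lit 17) .nil))) .nil)) 
(.lf (nat_lit 115936) (.g (nat_lit 2374) (.e (nat_lit 5941) (nat_lit 322) (.e (nat_lit 57407) (nat_lit 12) (.e (nat_lit 336443) (nat_lit 32) (.e (nat_lit 466977) (nat_lit 22) (.e (nat_lit 196656) (nat_lit 11) .nil))))) .nil)))) (.nd (nat_lit 5) (.nd (nat_lit 6) 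
(.lf (nat_lit 115856) (.g (nat_lit 1616) (.e (nat_lit 5939) (nat_lit 322) (.e (nat_lit 57411) (nat_lit 12) (.e (nat_lit 336208) (nat_lit 12) (.e (nat_lit 385106) (nat_lit 50) .nil)))) .nil)) 
(.lf (nat_lit 115920) (.g (nat_lit 881) (.e (nat_lit 5941) (nat_lit 322) (.e (nat_lit 57373) (nat_lit 2) (.e (nat_lit 90178) (nat_lit 15) .nil))) .nil))) (.nd (nat_lit 6) 
(.lf (nat_lit 115888) (.g (nat_lit 2605) (.e (nat_lit 5940) (nat_lit 322) (.e (nat_lit 57375) (nat_lit 2) (.e (nat_lit 90185) (nat_lit 17) (.e (nat_lit 237601) (nat_lit 9) (.e (nat_lit 426566) (nat_lit 34) (.e (nat_lit 393233) (nat_lit 17) (.e (nat_lit 2399) (nat_lit 157) .nil))))))) (.g (nat_lit 6) .nil .nil))) 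
(.lf (nat_lit 115952) (.g (nat_lit 2225) (.e (nat_lit 5942) (nat_lit 322) (.e (nat_lit 57375) (nat_lit 2) (.e (nat_lit 90172) (nat_lit 14) (.e (nat_lit 180243) (nat_lit 5) (.e (nat_lit 532515) (nat_lit 3) .nil))))) .nil))))) (.nd (nat_lit 4) (.nd (nat_lit 5) (.nd (nat_lit 6) 
(.lf (nat_lit 115848) (.g (nat_lit 1212) (.e (nat_lit 5939) (nat_lit 322) (.e (nat_lit 57400) (nat_lit 10) (.e (nat_lit 319533) (nat_lit 16) (.e (nat_lit 286761) (nat_lit 13) .nil)))) .nil)) 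
(.lf (nat_lit 115912) (.g (nat_lit 2775) (.e (nat_lit 5940) (nat_lit 322) (.e (nat_lit 57448) (nat_lit 19) (.e (nat_lit 393234) (nat_lit 17) (.e (nat_lit 7581) (nat_lit 405) (.e (nat_lit 57477) (nat_lit 28) (.e (nat_lit 557104) (nat_lit 14) (.e (nat_lit 180224) (nat_lit 0) .nil))))))) (.g (nat_lit 5) .nil .nil)))) (.nd (nat_lit 6) 
(.lf (nat_lit 115880) (.g (nat_lit 1437) (.e (nat_lit 5940) (nat_lit 322) (.e (nat_lit 57374) (nat_lit 2) (.e (nat_lit 90170) (nat_lit 13) (.e (nat_lit 172123) (nat_lit 13) .nil)))) .nil)) 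
(.lf (nat_lit 115944) (.g (nat_lit 1736) (.e (nat_lit 5941) (nat_lit 322) (.e (nat_lit 57447) (nat_lit 19) (.e (nat_lit 393234) (nat_lit 17) (.e (nat_lit 7583) (nat_lit 405) (.e (nat_lit 57476) (nat_lit 28) .nil))))) .nil)))) (.nd (nat_lit 5) (.nd (nat_lit 6) 
(.lf (nat_lit 115864) (.g (nat_lit 2056) (.e (nat_lit 5939) (nat_lit 322) (.e (nat_lit 57448) (nat_lit 19) (.e (nat_lit 393234) (nat_lit 17) (.e (nat_lit 7581) (nat_lit 405) (.e (nat_lit 57480) (nat_lit 28) .nil))))) .nil)) 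
(.lf (nat_lit 115928) (.g (nat_lit 1968) (.e (nat_lit 5941) (nat_lit 322) (.e (nat_lit 57377) (nat_lit 3) (.e (nat_lit 98365) (nat_lit 26) (.e (nat_lit 426188) (nat_lit 9) (.e (nat_lit 426566) (nat_lit 34) .nil))))) .nil))) (.nd (nat_lit 6) 
(.lf (nat_lit 115896) (.g (nat_lit 1519) (.e (nat_lit 5940) (nat_lit 322) (.e (nat_lit 57379) (nat_lit 3) (.e (nat_lit 98365) (nat_lit 26) (.e (nat_lit 426187) (nat_lit 9) .nil)))) .nil)) 
(.lf (nat_lit 115960) (.g (nat_lit 2003) (.e (nat_lit 5942) (nat_lit 322) (.e (nat_lit 57378) (nat_lit 3) (.e (nat_lit 98365) (nat_lit 26) (.e (nat_lit 426187) (nat_lit 9) .nil)))) .nil)))))) (.nd (nat_lit 3) (.nd (nat_lit 4) (.nd (nat_lit 5) (.nd (nat_lit 6) 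
(.lf (nat_lit 115844) (.g (nat_lit 2384) (.e (nat_lit 5939) (nat_lit 322) (.e (nat_lit 57400) (nat_lit 10) (.e (nat_lit 319530) (nat_lit 16) (.e (nat_lit 286761) (nat_lit 13) (.e (nat_lit 393286) (nat_lit 25) (.e (nat_lit 458774) (nat_lit 18) .nil)))))) (.g (nat_lit 4) .nil .nil))) 
(.lf (nat_lit 115908) (.g (nat_lit 1583) (.e (nat_lit 5940) (nat_lit 322) (.e (nat_lit 57424) (nat_lit 14) (.e (nat_lit 352318) (nat_lit 24) (.e (nat_lit 123184) (nat_lit 264) .nil)))) .nil))) (.nd (nat_lit 6) 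
(.lf (nat_lit 115876) (.g (nat_lit 2596) (.e (nat_lit 5940) (nat_lit 322) (.e (nat_lit 57374) (nat_lit 2) (.e (nat_lit 90170) (nat_lit 13) (.e (nat_lit 172067) (nat_lit 3) (.e (nat_lit 204834) (nat_lit 19) .nil))))) .nil)) 
(.lf (nat_lit 115940) (.g (nat_lit 877) (.e (nat_lit 5941) (nat_lit 322) (.e (nat_lit 57437) (nat_lit 17) (.e (nat_lit 376859) (nat_lit 21) (.e (nat_lit 57872) (nat_lit 264) .nil)))) .nil)))) (.nd (nat_lit 5) (.nd (nat_lit 6) 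
(.lf (nat_lit 115860) (.g (nat_lit 2375) (.e (nat_lit 5939) (nat_lit 322) (.e (nat_lit 57448) (nat_lit 19) (.e (nat_lit 393234) (nat_lit 17) (.e (nat_lit 7581) (nat_lit 405) (.e (nat_lit 57476) (nat_lit 28) (.e (nat_lit 557103) (nat_lit 14) (.e (nat_lit 180224) (nat_lit 0) .nil))))))) (.g (nat_lit 4) .nil .nil))) 
(.lf (nat_lit 115924) (.g (nat_lit 1683) (.e (nat_lit 5941) (nat_lit 322) (.e (nat_lit 57375) (nat_lit 2) (.e (nat_lit 90176) (nat_lit 15) (.e (nat_lit 196352) (nat_lit 18) .nil)))) .nil))) (.nd (nat_lit 6) 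
(.lf (nat_lit 115892) (.g (nat_lit 1975) (.e (nat_lit 5940) (nat_lit 322) (.e (nat_lit 57375) (nat_lit 2) (.e (nat_lit 90185) (nat_lit 17) (.e (nat_lit 237624) (nat_lit 13) (.e (nat_lit 483341) (nat_lit 9) (.e (nat_lit 426009) (nat_lit 0) (.e (nat_lit 2430) (nat_lit 157) .nil))))))) (.g (nat_lit 4) .nil .nil))) 
(.lf (nat_lit 115956) (.g (nat_lit 655) (.e (nat_lit 5942) (nat_lit 322) (.e (nat_lit 57375) (nat_lit 2) (.e (nat_lit 90185) (nat_lit 17) .nil))) .nil))))) (.nd (nat_lit 4) (.nd (nat_lit 5) (.nd (nat_lit 6) 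
(.lf (nat_lit 115852) (.g (nat_lit 1031) (.e (nat_lit 5939) (nat_lit 322) (.e (nat_lit 57407) (nat_lit 12) (.e (nat_lit 336208) (nat_lit 12) .nil))) .nil)) 
(.lf (nat_lit 115916) (.g (nat_lit 1867) (.e (nat_lit 5940) (nat_lit 322) (.e (nat_lit 57449) (nat_lit 20) (.e (nat_lit 401454) (nat_lit 12) (.e (nat_lit 475208) (nat_lit 41) .nil)))) .nil))) (.nd (nat_lit 6) 
(.lf (nat_lit 115884) (.g (nat_lit 1124) (.e (nat_lit 5940) (nat_lit 322) (.e (nat_lit 57375) (nat_lit 2) (.e (nat_lit 90176) (nat_lit 15) (.e (nat_lit 196352) (nat_lit 18) .nil)))) .nil)) 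
(.lf (nat_lit 115948) (.g (nat_lit 803) (.e (nat_lit 5942) (nat_lit 322) (.e (nat_lit 57373) (nat_lit 2) (.e (nat_lit 90178) (nat_lit 15) .nil))) .nil)))) (.nd (nat_lit 5) (.nd (nat_lit 6) 
(.lf (nat_lit 115868) (.g (nat_lit 481) (.e (nat_lit 5939) (nat_lit 322) (.e (nat_lit 57448) (nat_lit 19) (.e (nat_lit 393281) (nat_lit 23) .nil))) .nil)) 
(.lf (nat_lit 115932) (.g (nat_lit 2628) (.e (nat_lit 5941) (nat_lit 322) (.e (nat_lit 57378) (nat_lit 3) (.e (nat_lit 98367) (nat_lit 27) (.e (nat_lit 434246) (nat_lit 28) (.e (nat_lit 573489) (nat_lit 14) .nil))))) .nil))) (.nd (nat_lit 6) 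
(.lf (nat_lit 115900) (.g (nat_lit 1972) (.e (nat_lit 5940) (nat_lit 322) (.e (nat_lit 57379) (nat_lit 3) (.e (nat_lit 98365) (nat_lit 26) (.e (nat_lit 426188) (nat_lit 9) (.e (nat_lit 426566) (nat_lit 34) .nil))))) .nil)) 
(.lf (nat_lit 115964) (.g (nat_lit 699) (.e (nat_lit 5942) (nat_lit 322) (.e (nat_lit 57379) (nat_lit 3) (.e (nat_lit 98369) (nat_lit 28) .nil))) .nil))))))) (.nd (nat_lit 2) (.nd (nat_lit 3) (.nd (nat_lit 4) (.nd (nat_lit 5) (.nd (nat_lit 6) 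
(.lf (nat_lit 115842) (.g (nat_lit 2363) (.e (nat_lit 5939) (nat_lit 322) (.e (nat_lit 57400) (nat_lit 10) (.e (nat_lit 319528) (nat_lit 16) (.e (nat_lit 286761) (nat_lit 13) (.e (nat_lit 393286) (nat_lit 25) (.e (nat_lit 458774) (nat_lit 18) .nil)))))) (.g (nat_lit 5) .nil .nil))) 
(.lf (nat_lit 115906) (.g (nat_lit 2617) (.e (nat_lit 5940) (nat_lit 322) (.e (nat_lit 57411) (nat_lit 12) (.e (nat_lit 336443) (nat_lit 32) (.e (nat_lit 466977) (nat_lit 22) (.e (nat_lit 196656) (nat_lit 11) (.e (nat_lit 16392) (nat_lit 0) (.e (nat_lit 2397) (nat_lit 157) .nil))))))) (.g (nat_lit 4) .nil .nil)))) (.nd (nat_lit 6) 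
(.lf (nat_lit 115874) (.g (nat_lit 2772) (.e (nat_lit 5940) (nat_lit 322) (.e (nat_lit 57374) (nat_lit 2) (.e (nat_lit 90170) (nat_lit 13) (.e (nat_lit 172065) (nat_lit 3) (.e (nat_lit 204834) (nat_lit 19) .nil))))) .nil)) 
(.lf (nat_lit 115938) (.g (nat_lit 2500) (.e (nat_lit 5941) (nat_lit 322) (.e (nat_lit 57411) (nat_lit 12) (.e (nat_lit 336443) (nat_lit 32) (.e (nat_lit 466977) (nat_lit 22) (.e (nat_lit 196656) (nat_lit 11) (.e (nat_lit 16392) (nat_lit 0) (.e (nat_lit 2397) (nat_lit 157) .nil))))))) (.g (nat_lit 4) .nil .nil))))) (.nd (nat_lit 5) (.nd (nat_lit 6) 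
(.lf (nat_lit 115858) (.g (nat_lit 642) (.e (nat_lit 5939) (nat_lit 322) (.e (nat_lit 57437) (nat_lit 17) (.e (nat_lit 376859) (nat_lit 21) .nil))) .nil)) 
(.lf (nat_lit 115922) (.g (nat_lit 2421) (.e (nat_lit 5941) (nat_lit 322) (.e (nat_lit 57374) (nat_lit 2) (.e (nat_lit 90170) (nat_lit 13) (.e (nat_lit 172065) (nat_lit 3) .nil)))) .nil))) (.nd (nat_lit 6) 
(.lf (nat_lit 115890) (.g (nat_lit 2688) (.e (nat_lit 5940) (nat_lit 322) (.e (nat_lit 57375) (nat_lit 2) (.e (nat_lit 90185) (nat_lit 17) (.e (nat_lit 237605) (nat_lit 9) (.e (nat_lit 426566) (nat_lit 34) (.e (nat_lit 393233) (nat_lit 17) (.e (nat_lit 2399) (nat_lit 157) .nil))))))) (.g (nat_lit 6) .nil .nil))) 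
(.lf (nat_lit 115954) (.g (nat_lit 2274) (.e (nat_lit 5942) (nat_lit 322) (.e (nat_lit 57375) (nat_lit 2) (.e (nat_lit 90172) (nat_lit 14) (.e (nat_lit 180244) (nat_lit 5) (.e (nat_lit 532515) (nat_lit 3) .nil))))) .nil))))) (.nd (nat_lit 4) (.nd (nat_lit 5) (.nd (nat_lit 6) 
(.lf (nat_lit 115850) (.g (nat_lit 2366) (.e (nat_lit 5939) (nat_lit 322) (.e (nat_lit 57400) (nat_lit 10) (.e (nat_lit 319534) (nat_lit 16) (.e (nat_lit 286760) (nat_lit 13) (.e (nat_lit 393289) (nat_lit 25) .nil))))) .nil)) 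
(.lf (nat_lit 115914) (.g (nat_lit 2455) (.e (nat_lit 5940) (nat_lit 322) (.e (nat_lit 57448) (nat_lit 19) (.e (nat_lit 393301) (nat_lit 27) (.e (nat_lit 491526) (nat_lit 0) (.e (nat_lit 1848) (nat_lit 124) .nil))))) .nil))) (.nd (nat_lit 6) 
(.lf (nat_lit 115882) (.g (nat_lit 1963) (.e (nat_lit 5940) (nat_lit 322) (.e (nat_lit 57375) (nat_lit 2) (.e (nat_lit 90172) (nat_lit 14) (.e (nat_lit 180244) (nat_lit 5) (.e (nat_lit 532515) (nat_lit 3) (.e (nat_lit 114716) (nat_lit 22) (.e (nat_lit 90163) (nat_lit 12) (.e (nat_lit 163845) (nat_lit 0) .nil)))))))) (.g (nat_lit 4) .nil .nil))) 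
(.lf (nat_lit 115946) (.g (nat_lit 1893) (.e (nat_lit 5942) (nat_lit 322) (.e (nat_lit 57373) (nat_lit 2) (.e (nat_lit 90172) (nat_lit 14) (.e (nat_lit 180244) (nat_lit 5) .nil)))) .nil)))) (.nd (nat_lit 5) (.nd (nat_lit 6) 
(.lf (nat_lit 115866) (.g (nat_lit 3585) (.e (nat_lit 5939) (nat_lit 322) (.e (nat_lit 57448) (nat_lit 19) (.e (nat_lit 393234) (nat_lit 17) (.e (nat_lit 7581) (nat_lit 405) (.e (nat_lit 57480) (nat_lit 28) (.e (nat_lit 557105) (nat_lit 14) (.e (nat_lit 180224) (nat_lit 0) .nil))))))) (.g (nat_lit 6) .nil .nil))) 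
(.lf (nat_lit 115930) (.g (nat_lit 2272) (.e (nat_lit 5941) (nat_lit 322) (.e (nat_lit 57378) (nat_lit 3) (.e (nat_lit 98365) (nat_lit 26) (.e (nat_lit 426187) (nat_lit 9) (.e (nat_lit 426566) (nat_lit 34) .nil))))) .nil))) (.nd (nat_lit 6) 
(.lf (nat_lit 115898) (.g (nat_lit 3204) (.e (nat_lit 5940) (nat_lit 322) (.e (nat_lit 57379) (nat_lit 3) (.e (nat_lit 98365) (nat_lit 26) (.e (nat_lit 426187) (nat_lit 9) (.e (nat_lit 426566) (nat_lit 34) (.e (nat_lit 393233) (nat_lit 17) (.e (nat_lit 2399) (nat_lit 157) .nil))))))) (.g (nat_lit 0) .nil .nil))) 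
(.lf (nat_lit 115962) (.g (nat_lit 2602) (.e (nat_lit 5942) (nat_lit 322) (.e (nat_lit 57378) (nat_lit 3) (.e (nat_lit 98365) (nat_lit 26) (.e (nat_lit 426188) (nat_lit 9) (.e (nat_lit 426566) (nat_lit 34) .nil))))) .nil)))))) (.nd (nat_lit 3) (.nd (nat_lit 4) (.nd (nat_lit 5) (.nd (nat_lit 6) 
(.lf (nat_lit 115846) (.g (nat_lit 3158) (.e (nat_lit 5939) (nat_lit 322) (.e (nat_lit 57400) (nat_lit 10) (.e (nat_lit 319533) (nat_lit 16) (.e (nat_lit 286748) (nat_lit 9) (.e (nat_lit 336389) (nat_lit 27) (.e (nat_lit 426300) (nat_lit 11) (.e (nat_lit 458774) (nat_lit 18) .nil))))))) (.g (nat_lit 4) .nil .nil))) 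
(.lf (nat_lit 115910) (.g (nat_lit 2725) (.e (nat_lit 5940) (nat_lit 322) (.e (nat_lit 57448) (nat_lit 19) (.e (nat_lit 393234) (nat_lit 17) (.e (nat_lit 7581) (nat_lit 405) (.e (nat_lit 57476) (nat_lit 28) (.e (nat_lit 557104) (nat_lit 14) (.e (nat_lit 180224) (nat_lit 0) .nil))))))) (.g (nat_lit 5) .nil .nil)))) (.nd (nat_lit 6) 
(.lf (nat_lit 115878) (.g (nat_lit 2179) (.e (nat_lit 5940) (nat_lit 322) (.e (nat_lit 57374) (nat_lit 2) (.e (nat_lit 90170) (nat_lit 13) (.e (nat_lit 172095) (nat_lit 9) .nil)))) .nil)) 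
(.lf (nat_lit 115942) (.g (nat_lit 2316) (.e (nat_lit 5941) (nat_lit 322) (.e (nat_lit 57447) (nat_lit 19) (.e (nat_lit 393234) (nat_lit 17) (.e (nat_lit 7581) (nat_lit 405) (.e (nat_lit 57476) (nat_lit 28) .nil))))) .nil)))) (.nd (nat_lit 5) (.nd (nat_lit 6) 
(.lf (nat_lit 115862) (.g (nat_lit 2060) (.e (nat_lit 5939) (nat_lit 322) (.e (nat_lit 57448) (nat_lit 19) (.e (nat_lit 393234) (nat_lit 17) (.e (nat_lit 7581) (nat_lit 405) (.e (nat_lit 57477) (nat_lit 28) .nil))))) .nil)) 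
(.lf (nat_lit 115926) (.g (nat_lit 1852) (.e (nat_lit 5941) (nat_lit 322) (.e (nat_lit 57375) (nat_lit 2) (.e (nat_lit 90185) (nat_lit 17) (.e (nat_lit 237605) (nat_lit 9) (.e (nat_lit 426566) (nat_lit 34) .nil))))) .nil))) (.nd (nat_lit 6) 
(.lf (nat_lit 115894) (.g (nat_lit 2022) (.e (nat_lit 5940) (nat_lit 322) (.e (nat_lit 57378) (nat_lit 3) (.e (nat_lit 98365) (nat_lit 26) (.e (nat_lit 426188) (nat_lit 9) .nil)))) .nil)) 
(.lf (nat_lit 115958) (.g (nat_lit 1404) (.e (nat_lit 5942) (nat_lit 322) (.e (nat_lit 57375) (nat_lit 2) (.e (nat_lit 90185) (nat_lit 17) (.e (nat_lit 237605) (nat_lit 9) .nil)))) .nil))))) (.nd (nat_lit 4) (.nd (nat_lit 5) (.nd (nat_lit 6) 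
(.lf (nat_lit 115854) (.g (nat_lit 1670) (.e (nat_lit 5939) (nat_lit 322) (.e (nat_lit 57411) (nat_lit 12) (.e (nat_lit 336208) (nat_lit 12) (.e (nat_lit 385104) (nat_lit 50) .nil)))) .nil)) 
(.lf (nat_lit 115918) (.g (nat_lit 592) (.e (nat_lit 5941) (nat_lit 322) (.e (nat_lit 57372) (nat_lit 2) (.e (nat_lit 90176) (nat_lit 15) .nil))) .nil))) (.nd (nat_lit 6) 
(.lf (nat_lit 115886) (.g (nat_lit 621) (.e (nat_lit 5940) (nat_lit 322) (.e (nat_lit 57375) (nat_lit 2) (.e (nat_lit 90185) (nat_lit 17) .nil))) .nil)) 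
(.lf (nat_lit 115950) (.g (nat_lit 1534) (.e (nat_lit 5942) (nat_lit 322) (.e (nat_lit 57373) (nat_lit 2) (.e (nat_lit 90185) (nat_lit 17) (.e (nat_lit 237605) (nat_lit 9) .nil)))) .nil)))) (.nd (nat_lit 5) (.nd (nat_lit 6) 
(.lf (nat_lit 115870) (.g (nat_lit 2639) (.e (nat_lit 5939) (nat_lit 322) (.e (nat_lit 57448) (nat_lit 19) (.e (nat_lit 393301) (nat_lit 27) (.e (nat_lit 491526) (nat_lit 0) (.e (nat_lit 1848) (nat_lit 124) (.e (nat_lit 557103) (nat_lit 14) (.e (nat_lit 180224) (nat_lit 0) .nil))))))) (.g (nat_lit 4) .nil .nil))) 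
(.lf (nat_lit 115934) (.g (nat_lit 1575) (.e (nat_lit 5941) (nat_lit 322) (.e (nat_lit 57407) (nat_lit 12) (.e (nat_lit 336443) (nat_lit 32) (.e (nat_lit 466974) (nat_lit 22) .nil)))) .nil))) (.nd (nat_lit 6) 
(.lf (nat_lit 115902) (.g (nat_lit 1587) (.e (nat_lit 5940) (nat_lit 322) (.e (nat_lit 57379) (nat_lit 3) (.e (nat_lit 98373) (nat_lit 29) (.e (nat_lit 450602) (nat_lit 22) .nil)))) .nil)) 
(.lf (nat_lit 115966) (.g (nat_lit 2888) (.e (nat_lit 5942) (nat_lit 322) (.e (nat_lit 57409) (nat_lit 12) (.e (nat_lit 336443) (nat_lit 32) (.e (nat_lit 466974) (nat_lit 22) (.e (nat_lit 196656) (nat_lit 11) .nil))))) .nil)))))))) (.nd (nat_lit 1) (.nd (nat_lit 2) (.nd (nat_lit 3) (.nd (nat_lit 4) (.nd (nat_lit 5) (.nd (nat_lit 6) 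
(.lf (nat_lit 115841) (.g (nat_lit 353) (.e (nat_lit 5939) (nat_lit 322) (.e (nat_lit 57400) (nat_lit 10) (.e (nat_lit 319528) (nat_lit 16) .nil))) .nil)) 
(.lf (nat_lit 115905) (.g (nat_lit 2298) (.e (nat_lit 5940) (nat_lit 322) (.e (nat_lit 57411) (nat_lit 12) (.e (nat_lit 336443) (nat_lit 32) (.e (nat_lit 466974) (nat_lit 22) (.e (nat_lit 196656) (nat_lit 11) .nil))))) .nil))) (.nd (nat_lit 6) 
(.lf (nat_lit 115873) (.g (nat_lit 2090) (.e (nat_lit 5940) (nat_lit 322) (.e (nat_lit 57374) (nat_lit 2) (.e (nat_lit 90170) (nat_lit 13) (.e (nat_lit 172065) (nat_lit 3) .nil)))) .nil)) 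
(.lf (nat_lit 115937) (.g (nat_lit 1663) (.e (nat_lit 5941) (nat_lit 322) (.e (nat_lit 57411) (nat_lit 12) (.e (nat_lit 336443) (nat_lit 32) (.e (nat_lit 466977) (nat_lit 22) .nil)))) .nil)))) (.nd (nat_lit 5) (.nd (nat_lit 6) 
(.lf (nat_lit 115857) (.g (nat_lit 635) (.e (nat_lit 5939) (nat_lit 322) (.e (nat_lit 57411) (nat_lit 12) (.e (nat_lit 336443) (nat_lit 32) .nil))) .nil)) 
(.lf (nat_lit 115921) (.g (nat_lit 1533) (.e (nat_lit 5941) (nat_lit 322) (.e (nat_lit 57373) (nat_lit 2) (.e (nat_lit 90185) (nat_lit 17) (.e (nat_lit 237605) (nat_lit 9) .nil)))) .nil))) (.nd (nat_lit 6) 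
(.lf (nat_lit 115889) (.g (nat_lit 1349) (.e (nat_lit 5940) (nat_lit 322) (.e (nat_lit 57375) (nat_lit 2) (.e (nat_lit 90185) (nat_lit 17) (.e (nat_lit 237605) (nat_lit 9) .nil)))) .nil)) 
(.lf (nat_lit 115953) (.g (nat_lit 2357) (.e (nat_lit 5942) (nat_lit 322) (.e (nat_lit 57375) (nat_lit 2) (.e (nat_lit 90172) (nat_lit 14) (.e (nat_lit 180244) (nat_lit 5) (.e (nat_lit 532513) (nat_lit 3) (.e (nat_lit 114714) (nat_lit 22) (.e (nat_lit 90181) (nat_lit 16) (.e (nat_lit 229376) (nat_lit 0) .nil)))))))) (.g (nat_lit 4) .nil .nil)))))) 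
(.nd (nat_lit 4) (.nd (nat_lit 5) (.nd (nat_lit 6) 
(.lf (nat_lit 115849) (.g (nat_lit 2524) (.e (nat_lit 5939) (nat_lit 322) (.e (nat_lit 57400) (nat_lit 10) (.e (nat_lit 319533) (nat_lit 16) (.e (nat_lit 286761) (nat_lit 13) (.e (nat_lit 393286) (nat_lit 25) .nil))))) .nil)) 
(.lf (nat_lit 115913) (.g (nat_lit 2249) (.e (nat_lit 5940) (nat_lit 322) (.e (nat_lit 57448) (nat_lit 19) (.e (nat_lit 393234) (nat_lit 17) (.e (nat_lit 7583) (nat_lit 405) (.e (nat_lit 57476) (nat_lit 28) (.e (nat_lit 557104) (nat_lit 14) (.e (nat_lit 180224) (nat_lit 0) .nil))))))) (.g (nat_lit 5) .nil .nil)))) (.nd (nat_lit 6) 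
(.lf (nat_lit 115881) (.g (nat_lit 2028) (.e (nat_lit 5940) (nat_lit 322) (.e (nat_lit 57374) (nat_lit 2) (.e (nat_lit 90170) (nat_lit 13) (.e (nat_lit 172123) (nat_lit 13) (.e (nat_lit 491264) (nat_lit 10) (.e (nat_lit 434199) (nat_lit 18) .nil)))))) (.g (nat_lit 4) .nil .nil))) 
(.lf (nat_lit 115945) (.g (nat_lit 799) (.e (nat_lit 5941) (nat_lit 322) (.e (nat_lit 57447) (nat_lit 19) (.e (nat_lit 393281) (nat_lit 23) .nil))) .nil)))) (.nd (nat_lit 5) (.nd (nat_lit 6) 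
(.lf (nat_lit 115865) (.g (nat_lit 3111) (.e (nat_lit 5939) (nat_lit 322) (.e (nat_lit 57448) (nat_lit 19) (.e (nat_lit 393234) (nat_lit 17) (.e (nat_lit 7581) (nat_lit 405) (.e (nat_lit 57480) (nat_lit 28) (.e (nat_lit 557103) (nat_lit 14) (.e (nat_lit 180224) (nat_lit 0) .nil))))))) (.g (nat_lit 5) .nil .nil))) 
(.lf (nat_lit 115929) (.g (nat_lit 857) (.e (nat_lit 5941) (nat_lit 322) (.e (nat_lit 57378) (nat_lit 3) (.e (nat_lit 98365) (nat_lit 26) .nil))) .nil))) (.nd (nat_lit 6) 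
(.lf (nat_lit 115897) (.g (nat_lit 1945) (.e (nat_lit 5940) (nat_lit 322) (.e (nat_lit 57379) (nat_lit 3) (.e (nat_lit 98365) (nat_lit 26) (.e (nat_lit 426187) (nat_lit 9) (.e (nat_lit 426566) (nat_lit 34) (.e (nat_lit 393233) (nat_lit 17) (.e (nat_lit 2398) (nat_lit 157) .nil))))))) (.g (nat_lit 4) .nil .nil))) 
(.lf (nat_lit 115961) (.g (nat_lit 1984) (.e (nat_lit 5942) (nat_lit 322) (.e (nat_lit 57378) (nat_lit 3) (.e (nat_lit 98365) (nat_lit 26) (.e (nat_lit 426188) (nat_lit 9) .nil)))) .nil)))))) (.nd (nat_lit 3) (.nd (nat_lit 4) (.nd (nat_lit 5) (.nd (nat_lit 6) 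
(.lf (nat_lit 115845) (.g (nat_lit 2594) (.e (nat_lit 5939) (nat_lit 322) (.e (nat_lit 57400) (nat_lit 10) (.e (nat_lit 319531) (nat_lit 16) (.e (nat_lit 286761) (nat_lit 13) (.e (nat_lit 393286) (nat_lit 25) (.e (nat_lit 458774) (nat_lit 18) .nil)))))) (.g (nat_lit 5) .nil .nil))) 
(.lf (nat_lit 115909) (.g (nat_lit 2213) (.e (nat_lit 5940) (nat_lit 322) (.e (nat_lit 57448) (nat_lit 19) (.e (nat_lit 393234) (nat_lit 17) (.e (nat_lit 7581) (nat_lit 405) (.e (nat_lit 57476) (nat_lit 28) .nil))))) .nil))) (.nd (nat_lit 6) 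
(.lf (nat_lit 115877) (.g (nat_lit 1805) (.e (nat_lit 5940) (nat_lit 322) (.e (nat_lit 57374) (nat_lit 2) (.e (nat_lit 90170) (nat_lit 13) (.e (nat_lit 172088) (nat_lit 9) .nil)))) .nil)) 
(.lf (nat_lit 115941) (.g (nat_lit 2124) (.e (nat_lit 5941) (nat_lit 322) (.e (nat_lit 57437) (nat_lit 17) (.e (nat_lit 376859) (nat_lit 21) (.e (nat_lit 57873) (nat_lit 264) (.e (nat_lit 1221) (nat_lit 90) .nil))))) .nil)))) (.nd (nat_lit 5) (.nd (nat_lit 6) 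
(.lf (nat_lit 115861) (.g (nat_lit 2203) (.e (nat_lit 5939) (nat_lit 322) (.e (nat_lit 57448) (nat_lit 19) (.e (nat_lit 393234) (nat_lit 17) (.e (nat_lit 7581) (nat_lit 405) (.e (nat_lit 57476) (nat_lit 28) (.e (nat_lit 557104) (nat_lit 14) (.e (nat_lit 188160) (nat_lit 0) .nil))))))) (.g (nat_lit 4) .nil .nil))) 
(.lf (nat_lit 115925) (.g (nat_lit 1674) (.e (nat_lit 5941) (nat_lit 322) (.e (nat_lit 57375) (nat_lit 2) (.e (nat_lit 90185) (nat_lit 17) (.e (nat_lit 237601) (nat_lit 9) (.e (nat_lit 426566) (nat_lit 34) .nil))))) .nil))) (.nd (nat_lit 6) 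
(.lf (nat_lit 115893) (.g (nat_lit 2007) (.e (nat_lit 5940) (nat_lit 322) (.e (nat_lit 57378) (nat_lit 3) (.e (nat_lit 98365) (nat_lit 26) (.e (nat_lit 426187) (nat_lit 9) .nil)))) .nil)) 
(.lf (nat_lit 115957) (.g (nat_lit 1468) (.e (nat_lit 5942) (nat_lit 322) (.e (nat_lit 57375) (nat_lit 2) (.e (nat_lit 90185) (nat_lit 17) (.e (nat_lit 237601) (nat_lit 9) .nil)))) .nil))))) (.nd (nat_lit 4) (.nd (nat_lit 5) (.nd (nat_lit 6) 
(.lf (nat_lit 115853) (.g (nat_lit 853) (.e (nat_lit 5939) (nat_lit 322) (.e (nat_lit 57407) (nat_lit 12) (.e (nat_lit 336443) (nat_lit 32) .nil))) .nil)) 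
(.lf (nat_lit 115917) (.g (nat_lit 2228) (.e (nat_lit 5941) (nat_lit 322) (.e (nat_lit 57372) (nat_lit 2) (.e (nat_lit 90172) (nat_lit 14) (.e (nat_lit 180244) (nat_lit 5) (.e (nat_lit 532515) (nat_lit 3) .nil))))) .nil))) (.nd (nat_lit 6) 
(.lf (nat_lit 115885) (.g (nat_lit 1205) (.e (nat_lit 5940) (nat_lit 322) (.e (nat_lit 57375) (nat_lit 2) (.e (nat_lit 90176) (nat_lit 15) (.e (nat_lit 188459) (nat_lit 26) .nil)))) .nil)) 
(.lf (nat_lit 115949) (.g (nat_lit 1538) (.e (nat_lit 5942) (nat_lit 322) (.e (nat_lit 57373) (nat_lit 2) (.e (nat_lit 90185) (nat_lit 17) (.e (nat_lit 237601) (nat_lit 9) .nil)))) .nil)))) (.nd (nat_lit 5) (.nd (nat_lit 6) 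
(.lf (nat_lit 115869) (.g (nat_lit 2333) (.e (nat_lit 5939) (nat_lit 322) (.e (nat_lit 57448) (nat_lit 19) (.e (nat_lit 393301) (nat_lit 27) (.e (nat_lit 491526) (nat_lit 0) (.e (nat_lit 1848) (nat_lit 124) .nil))))) .nil)) 
(.lf (nat_lit 115933) (.g (nat_lit 2230) (.e (nat_lit 5941) (nat_lit 322) (.e (nat_lit 57379) (nat_lit 3) (.e (nat_lit 98366) (nat_lit 27) (.e (nat_lit 434245) (nat_lit 28) (.e (nat_lit 573488) (nat_lit 14) .nil))))) .nil))) (.nd (nat_lit 6) 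
(.lf (nat_lit 115901) (.g (nat_lit 1233) (.e (nat_lit 5940) (nat_lit 322) (.e (nat_lit 57379) (nat_lit 3) (.e (nat_lit 98372) (nat_lit 29) (.e (nat_lit 458496) (nat_lit 23) .nil)))) .nil)) 
(.lf (nat_lit 115965) (.g (nat_lit 2075) (.e (nat_lit 5942) (nat_lit 322) (.e (nat_lit 57409) (nat_lit 12) (.e (nat_lit 336443) (nat_lit 32) (.e (nat_lit 466974) (nat_lit 22) .nil)))) .nil))))))) (.nd (nat_lit 2) (.nd (nat_lit 3) (.nd (nat_lit 4) (.nd (nat_lit 5) (.nd (nat_lit 6) 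
(.lf (nat_lit 115843) (.g (nat_lit 1823) (.e (nat_lit 5939) (nat_lit 322) (.e (nat_lit 57400) (nat_lit 10) (.e (nat_lit 319529) (nat_lit 16) (.e (nat_lit 286761) (nat_lit 13) (.e (nat_lit 393288) (nat_lit 25) .nil))))) .nil)) 
(.lf (nat_lit 115907) (.g (nat_lit 1579) (.e (nat_lit 5940) (nat_lit 322) (.e (nat_lit 57424) (nat_lit 14) (.e (nat_lit 352318) (nat_lit 24) (.e (nat_lit 123182) (nat_lit 264) .nil)))) .nil))) (.nd (nat_lit 6) 
(.lf (nat_lit 115875) (.g (nat_lit 2685) (.e (nat_lit 5940) (nat_lit 322) (.e (nat_lit 57374) (nat_lit 2) (.e (nat_lit 90170) (nat_lit 13) (.e (nat_lit 172065) (nat_lit 3) (.e (nat_lit 204838) (nat_lit 20) (.e (nat_lit 114716) (nat_lit 22) (.e (nat_lit 90181) (nat_lit 16) (.e (nat_lit 229376) (nat_lit 0) .nil)))))))) (.g (nat_lit 4) .nil .nil))) 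
(.lf (nat_lit 115939) (.g (nat_lit 1334) (.e (nat_lit 5941) (nat_lit 322) (.e (nat_lit 57437) (nat_lit 17) (.e (nat_lit 376859) (nat_lit 21) (.e (nat_lit 57870) (nat_lit 264) .nil)))) .nil)))) (.nd (nat_lit 5) (.nd (nat_lit 6) 
(.lf (nat_lit 115859) (.g (nat_lit 2064) (.e (nat_lit 5939) (nat_lit 322) (.e (nat_lit 57448) (nat_lit 19) (.e (nat_lit 393234) (nat_lit 17) (.e (nat_lit 7581) (nat_lit 405) (.e (nat_lit 57476) (nat_lit 28) .nil))))) .nil)) 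
(.lf (nat_lit 115923) (.g (nat_lit 1693) (.e (nat_lit 5941) (nat_lit 322) (.e (nat_lit 57375) (nat_lit 2) (.e (nat_lit 90172) (nat_lit 14) (.e (nat_lit 180244) (nat_lit 5) .nil)))) .nil))) (.nd (nat_lit 6) 
(.lf (nat_lit 115891) (.g (nat_lit 1995) (.e (nat_lit 5940) (nat_lit 322) (.e (nat_lit 57375) (nat_lit 2) (.e (nat_lit 90185) (nat_lit 17) (.e (nat_lit 237621) (nat_lit 13) (.e (nat_lit 483341) (nat_lit 9) (.e (nat_lit 426009) (nat_lit 0) (.e (nat_lit 2430) (nat_lit 157) .nil))))))) (.g (nat_lit 4) .nil .nil))) 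
(.lf (nat_lit 115955) (.g (nat_lit 1221) (.e (nat_lit 5942) (nat_lit 322) (.e (nat_lit 57375) (nat_lit 2) (.e (nat_lit 90176) (nat_lit 15) (.e (nat_lit 196352) (nat_lit 18) .nil)))) .nil))))) (.nd (nat_lit 4) (.nd (nat_lit 5) (.nd (nat_lit 6) 
(.lf (nat_lit 115851) (.g (nat_lit 2402) (.e (nat_lit 5939) (nat_lit 322) (.e (nat_lit 57400) (nat_lit 10) (.e (nat_lit 319534) (nat_lit 16) (.e (nat_lit 286761) (nat_lit 13) (.e (nat_lit 393286) (nat_lit 25) (.e (nat_lit 458774) (nat_lit 18) .nil)))))) (.g (nat_lit 4) .nil .nil))) 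
(.lf (nat_lit 115915) (.g (nat_lit 2499) (.e (nat_lit 5940) (nat_lit 322) (.e (nat_lit 57448) (nat_lit 19) (.e (nat_lit 393301) (nat_lit 27) (.e (nat_lit 491526) (nat_lit 0) (.e (nat_lit 1848) (nat_lit 124) (.e (nat_lit 557104) (nat_lit 14) (.e (nat_lit 180224) (nat_lit 0) .nil))))))) (.g (nat_lit 4) .nil .nil)))) (.nd (nat_lit 6) 
(.lf (nat_lit 115883) (.g (nat_lit 1016) (.e (nat_lit 5940) (nat_lit 322) (.e (nat_lit 57375) (nat_lit 2) (.e (nat_lit 90176) (nat_lit 15) (.e (nat_lit 188423) (nat_lit 11) .nil)))) .nil)) 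
(.lf (nat_lit 115947) (.g (nat_lit 1722) (.e (nat_lit 5942) (nat_lit 322) (.e (nat_lit 57373) (nat_lit 2) (.e (nat_lit 90174) (nat_lit 14) (.e (nat_lit 180243) (nat_lit 5) .nil)))) .nil)))) (.nd (nat_lit 5) (.nd (nat_lit 6) 
(.lf (nat_lit 115867) (.g (nat_lit 1641) (.e (nat_lit 5939) (nat_lit 322) (.e (nat_lit 57448) (nat_lit 19) (.e (nat_lit 393234) (nat_lit 17) (.e (nat_lit 7583) (nat_lit 405) (.e (nat_lit 57476) (nat_lit 28) (.e (nat_lit 557097) (nat_lit 13) (.e (nat_lit 172045) (nat_lit 0) (.e (nat_lit 2468) (nat_lit 157) .nil)))))))) (.g (nat_lit 4) .nil .nil))) 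
(.lf (nat_lit 115931) (.g (nat_lit 1882) (.e (nat_lit 5941) (nat_lit 322) (.e (nat_lit 57378) (nat_lit 3) (.e (nat_lit 98365) (nat_lit 26) (.e (nat_lit 426188) (nat_lit 9) .nil)))) .nil))) (.nd (nat_lit 6) 
(.lf (nat_lit 115899) (.g (nat_lit 2257) (.e (nat_lit 5940) (nat_lit 322) (.e (nat_lit 57379) (nat_lit 3) (.e (nat_lit 98365) (nat_lit 26) (.e (nat_lit 426188) (nat_lit 9) (.e (nat_lit 426564) (nat_lit 34) (.e (nat_lit 393233) (nat_lit 17) (.e (nat_lit 2399) (nat_lit 157) .nil))))))) (.g (nat_lit 4) .nil .nil))) 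
(.lf (nat_lit 115963) (.g (nat_lit 2268) (.e (nat_lit 5942) (nat_lit 322) (.e (nat_lit 57378) (nat_lit 3) (.e (nat_lit 98368) (nat_lit 27) (.e (nat_lit 434247) (nat_lit 28) (.e (nat_lit 573489) (nat_lit 14) .nil))))) .nil)))))) (.nd (nat_lit 3) (.nd (nat_lit 4) (.nd (nat_lit 5) (.nd (nat_lit 6) 
(.lf (nat_lit 115847) (.g (nat_lit 1900) (.e (nat_lit 5939) (nat_lit 322) (.e (nat_lit 57400) (nat_lit 10) (.e (nat_lit 319533) (nat_lit 16) (.e (nat_lit 286760) (nat_lit 13) (.e (nat_lit 393288) (nat_lit 25) (.e (nat_lit 458774) (nat_lit 18) .nil)))))) (.g (nat_lit 4) .nil .nil))) 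
(.lf (nat_lit 115911) (.g (nat_lit 2209) (.e (nat_lit 5940) (nat_lit 322) (.e (nat_lit 57448) (nat_lit 19) (.e (nat_lit 393234) (nat_lit 17) (.e (nat_lit 7581) (nat_lit 405) (.e (nat_lit 57477) (nat_lit 28) .nil))))) .nil))) (.nd (nat_lit 6) 
(.lf (nat_lit 115879) (.g (nat_lit 1997) (.e (nat_lit 5940) (nat_lit 322) (.e (nat_lit 57374) (nat_lit 2) (.e (nat_lit 90170) (nat_lit 13) (.e (nat_lit 172121) (nat_lit 13) .nil)))) .nil)) 
(.lf (nat_lit 115943) (.g (nat_lit 2288) (.e (nat_lit 5941) (nat_lit 322) (.e (nat_lit 57447) (nat_lit 19) (.e (nat_lit 393234) (nat_lit 17) (.e (nat_lit 7581) (nat_lit 405) (.e (nat_lit 57477) (nat_lit 28) .nil))))) .nil)))) (.nd (nat_lit 5) (.nd (nat_lit 6) 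
(.lf (nat_lit 115863) (.g (nat_lit 2296) (.e (nat_lit 5939) (nat_lit 322) (.e (nat_lit 57448) (nat_lit 19) (.e (nat_lit 393234) (nat_lit 17) (.e (nat_lit 7581) (nat_lit 405) (.e (nat_lit 57477) (nat_lit 28) (.e (nat_lit 557104) (nat_lit 14) (.e (nat_lit 188160) (nat_lit 0) .nil))))))) (.g (nat_lit 4) .nil .nil))) 
(.lf (nat_lit 115927) (.g (nat_lit 1637) (.e (nat_lit 5941) (nat_lit 322) (.e (nat_lit 57377) (nat_lit 3) (.e (nat_lit 98365) (nat_lit 26) (.e (nat_lit 426187) (nat_lit 9) (.e (nat_lit 426566) (nat_lit 34) .nil))))) .nil))) (.nd (nat_lit 6) 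
(.lf (nat_lit 115895) (.g (nat_lit 1768) (.e (nat_lit 5940) (nat_lit 322) (.e (nat_lit 57379) (nat_lit 3) (.e (nat_lit 98363) (nat_lit 26) (.e (nat_lit 426228) (nat_lit 9) (.e (nat_lit 426565) (nat_lit 34) (.e (nat_lit 393232) (nat_lit 17) (.e (nat_lit 2399) (nat_lit 157) .nil))))))) (.g (nat_lit 5) .nil .nil))) 
(.lf (nat_lit 115959) (.g (nat_lit 1765) (.e (nat_lit 5942) (nat_lit 322) (.e (nat_lit 57375) (nat_lit 2) (.e (nat_lit 90185) (nat_lit 17) (.e (nat_lit 237605) (nat_lit 9) (.e (nat_lit 426566) (nat_lit 34) .nil))))) .nil))))) (.nd (nat_lit 4) (.nd (nat_lit 5) (.nd (nat_lit 6) 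
(.lf (nat_lit 115855) (.g (nat_lit 1742) (.e (nat_lit 5939) (nat_lit 322) (.e (nat_lit 57411) (nat_lit 12) (.e (nat_lit 336208) (nat_lit 12) (.e (nat_lit 385105) (nat_lit 50) .nil)))) .nil)) 
(.lf (nat_lit 115919) (.g (nat_lit 1351) (.e (nat_lit 5941) (nat_lit 322) (.e (nat_lit 57372) (nat_lit 2) (.e (nat_lit 90176) (nat_lit 15) (.e (nat_lit 196352) (nat_lit 18) .nil)))) .nil))) (.nd (nat_lit 6) 
(.lf (nat_lit 115887) (.g (nat_lit 1419) (.e (nat_lit 5940) (nat_lit 322) (.e (nat_lit 57375) (nat_lit 2) (.e (nat_lit 90185) (nat_lit 17) (.e (nat_lit 237601) (nat_lit 9) .nil)))) .nil)) 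
(.lf (nat_lit 115951) (.g (nat_lit 2421) (.e (nat_lit 5942) (nat_lit 322) (.e (nat_lit 57374) (nat_lit 2) (.e (nat_lit 90170) (nat_lit 13) (.e (nat_lit 172065) (nat_lit 3) .nil)))) .nil)))) (.nd (nat_lit 5) (.nd (nat_lit 6) 
(.lf (nat_lit 115871) (.g (nat_lit 2966) (.e (nat_lit 5939) (nat_lit 322) (.e (nat_lit 57448) (nat_lit 19) (.e (nat_lit 393301) (nat_lit 27) (.e (nat_lit 491526) (nat_lit 0) (.e (nat_lit 1848) (nat_lit 124) (.e (nat_lit 557104) (nat_lit 14) (.e (nat_lit 180224) (nat_lit 0) .nil))))))) (.g (nat_lit 5) .nil .nil))) 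
(.lf (nat_lit 115935) (.g (nat_lit 1519) (.e (nat_lit 5941) (nat_lit 322) (.e (nat_lit 57407) (nat_lit 12) (.e (nat_lit 336443) (nat_lit 32) (.e (nat_lit 466977) (nat_lit 22) .nil)))) .nil))) (.nd (nat_lit 6) 
(.lf (nat_lit 115903) (.g (nat_lit 1369) (.e (nat_lit 5940) (nat_lit 322) (.e (nat_lit 57379) (nat_lit 3) (.e (nat_lit 98373) (nat_lit 29) (.e (nat_lit 458496) (nat_lit 23) .nil)))) .nil)) 
(.lf (nat_lit 115967) (.g (nat_lit 2908) (.e (nat_lit 5942) (nat_lit 322) (.e (nat_lit 57409) (nat_lit 12) (.e (nat_lit 336443) (nat_lit 32) (.e (nat_lit 466977) (nat_lit 22) (.e (nat_lit 196656) (nat_lit 11) .nil))))) .nil)))))))))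

noncomputable def tv1559 : DT := (.nd (nat_lit 0) (.nd (nat_lit 1) (.nd (nat_lit 2) (.nd (nat_lit 3) (.nd (nat_lit 4) (.nd (nat_lit 5) (.nd (nat_lit 6) 
(.lf (nat_lit 115968) (.g (nat_lit 2337) (.e (nat_lit 5942) (nat_lit 322) (.e (nat_lit 57447) (nat_lit 19) (.e (nat_lit 393234) (nat_lit 17) (.e (nat_lit 7581) (nat_lit 405) (.e (nat_lit 57476) (nat_lit 28) .nil))))) .nil)) 
(.lf (nat_lit 116032) (.g (nat_lit 2179) (.e (nat_lit 5943) (nat_lit 322) (.e (nat_lit 57378) (nat_lit 3) (.e (nat_lit 98368) (nat_lit 27) (.e (nat_lit 434245) (nat_lit 28) (.e (nat_lit 573488) (nat_lit 14) .nil))))) .nil))) (.nd (nat_lit 6) 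
(.lf (nat_lit 116000) (.g (nat_lit 2707) (.e (nat_lit 5943) (nat_lit 322) (.e (nat_lit 57375) (nat_lit 2) (.e (nat_lit 90172) (nat_lit 14) (.e (nat_lit 180243) (nat_lit 5) (.e (nat_lit 532513) (nat_lit 3) (.e (nat_lit 114714) (nat_lit 22) (.e (nat_lit 90181) (nat_lit 16) (.e (nat_lit 229376) (nat_lit 0) .nil)))))))) (.g (nat_lit 5) .nil .nil))) 
(.lf (nat_lit 116064) (.g (nat_lit 2324) (.e (nat_lit 5944) (nat_lit 322) (.e (nat_lit 57371) (nat_lit 2) (.e (nat_lit 90174) (nat_lit 14) (.e (nat_lit 180243) (nat_lit 5) (.e (nat_lit 532513) (nat_lit 3) .nil))))) .nil)))) (.nd (nat_lit 5) (.nd (nat_lit 6) 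
(.lf (nat_lit 115984) (.g (nat_lit 1014) (.e (nat_lit 5943) (nat_lit 322) (.e (nat_lit 57372) (nat_lit 2) (.e (nat_lit 90176) (nat_lit 15) (.e (nat_lit 188431) (nat_lit 20) .nil)))) .nil)) 
(.lf (nat_lit 116048) (.g (nat_lit 1022) (.e (nat_lit 5943) (nat_lit 322) (.e (nat_lit 57379) (nat_lit 3) (.e (nat_lit 98372) (nat_lit 29) (.e (nat_lit 458496) (nat_lit 23) .nil)))) .nil))) (.nd (nat_lit 6) 
(.lf (nat_lit 116016) (.g (nat_lit 1399) (.e (nat_lit 5943) (nat_lit 322) (.e (nat_lit 57375) (nat_lit 2) (.e (nat_lit 90176) (nat_lit 15) (.e (nat_lit 188459) (nat_lit 26) (.e (nat_lit 253953) (nat_lit 0) .nil))))) .nil)) 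
(.lf (nat_lit 116080) (.g (nat_lit 1530) (.e (nat_lit 5944) (nat_lit 322) (.e (nat_lit 57373) (nat_lit 2) (.e (nat_lit 90185) (nat_lit 17) (.e (nat_lit 237605) (nat_lit 9) .nil)))) .nil))))) (.nd (nat_lit 4) (.nd (nat_lit 5) (.nd (nat_lit 6) 
(.lf (nat_lit 115976) (.g (nat_lit 1898) (.e (nat_lit 5943) (nat_lit 322) (.e (nat_lit 57372) (nat_lit 2) (.e (nat_lit 90172) (nat_lit 14) (.e (nat_lit 180244) (nat_lit 5) (.e (nat_lit 532515) (nat_lit 3) (.e (nat_lit 114716) (nat_lit 22) (.e (nat_lit 90163) (nat_lit 12) (.e (nat_lit 163845) (nat_lit 0) .nil)))))))) (.g (nat_lit 4) .nil .nil))) 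
(.lf (nat_lit 116040) (.g (nat_lit 2036) (.e (nat_lit 5943) (nat_lit 322) (.e (nat_lit 57379) (nat_lit 3) (.e (nat_lit 98365) (nat_lit 26) (.e (nat_lit 426327) (nat_lit 13) (.e (nat_lit 491264) (nat_lit 10) .nil))))) .nil))) (.nd (nat_lit 6) 
(.lf (nat_lit 116008) (.g (nat_lit 3649) (.e (nat_lit 5943) (nat_lit 322) (.e (nat_lit 57375) (nat_lit 2) (.e (nat_lit 90172) (nat_lit 14) (.e (nat_lit 180244) (nat_lit 5) (.e (nat_lit 532515) (nat_lit 3) (.e (nat_lit 114716) (nat_lit 22) (.e (nat_lit 90181) (nat_lit 16) (.e (nat_lit 229376) (nat_lit 0) .nil)))))))) (.g (nat_lit 8) .nil .nil))) 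
(.lf (nat_lit 116072) (.g (nat_lit 2012) (.e (nat_lit 5944) (nat_lit 322) (.e (nat_lit 57373) (nat_lit 2) (.e (nat_lit 90172) (nat_lit 14) (.e (nat_lit 180244) (nat_lit 5) (.e (nat_lit 532515) (nat_lit 3) .nil))))) .nil)))) (.nd (nat_lit 5) (.nd (nat_lit 6) 
(.lf (nat_lit 115992) (.g (nat_lit 1165) (.e (nat_lit 5943) (nat_lit 322) (.e (nat_lit 57372) (nat_lit 2) (.e (nat_lit 90176) (nat_lit 15) (.e (nat_lit 188461) (nat_lit 26) .nil)))) .nil)) 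
(.lf (nat_lit 116056) (.g (nat_lit 2447) (.e (nat_lit 5943) (nat_lit 322) (.e (nat_lit 57448) (nat_lit 19) (.e (nat_lit 393301) (nat_lit 27) (.e (nat_lit 491526) (nat_lit 0) (.e (nat_lit 1848) (nat_lit 124) .nil))))) .nil))) (.nd (nat_lit 6) 
(.lf (nat_lit 116024) (.g (nat_lit 1174) (.e (nat_lit 5943) (nat_lit 322) (.e (nat_lit 57375) (nat_lit 2) (.e (nat_lit 90185) (nat_lit 17) (.e (nat_lit 237605) (nat_lit 9) .nil)))) .nil)) 
(.lf (nat_lit 116088) (.g (nat_lit 2894) (.e (nat_lit 5944) (nat_lit 322) (.e (nat_lit 57378) (nat_lit 3) (.e (nat_lit 98365) (nat_lit 26) (.e (nat_lit 426188) (nat_lit 9) (.e (nat_lit 426568) (nat_lit 34) (.e (nat_lit 393238) (nat_lit 17) (.e (nat_lit 2506) (nat_lit 157) .nil))))))) (.g (nat_lit 5) .nil .nil))))))) (.nd (nat_lit 3) (.nd (nat_lit 4) (.nd (nat_lit 5) (.nd (nat_lit 6) 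
(.lf (nat_lit 115972) (.g (nat_lit 2490) (.e (nat_lit 5943) (nat_lit 322) (.e (nat_lit 57372) (nat_lit 2) (.e (nat_lit 90172) (nat_lit 14) (.e (nat_lit 180243) (nat_lit 5) (.e (nat_lit 532515) (nat_lit 3) (.e (nat_lit 114716) (nat_lit 22) (.e (nat_lit 90181) (nat_lit 16) (.e (nat_lit 229376) (nat_lit 0) .nil)))))))) (.g (nat_lit 5) .nil .nil))) 
(.lf (nat_lit 116036) (.g (nat_lit 2217) (.e (nat_lit 5943) (nat_lit 322) (.e (nat_lit 57379) (nat_lit 3) (.e (nat_lit 98365) (nat_lit 26) (.e (nat_lit 426188) (nat_lit 9) (.e (nat_lit 426564) (nat_lit 34) .nil))))) .nil))) (.nd (nat_lit 6) 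
(.lf (nat_lit 116004) (.g (nat_lit 2251) (.e (nat_lit 5943) (nat_lit 322) (.e (nat_lit 57375) (nat_lit 2) (.e (nat_lit 90172) (nat_lit 14) (.e (nat_lit 180244) (nat_lit 5) (.e (nat_lit 532515) (nat_lit 3) (.e (nat_lit 114715) (nat_lit 22) (.e (nat_lit 90165) (nat_lit 12) (.e (nat_lit 171776) (nat_lit 0) .nil)))))))) (.g (nat_lit 5) .nil .nil))) 
(.lf (nat_lit 116068) (.g (nat_lit 2768) (.e (nat_lit 5944) (nat_lit 322) (.e (nat_lit 57373) (nat_lit 2) (.e (nat_lit 90170) (nat_lit 13) (.e (nat_lit 172067) (nat_lit 3) (.e (nat_lit 204838) (nat_lit 20) .nil))))) .nil)))) (.nd (nat_lit 5) (.nd (nat_lit 6) 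
(.lf (nat_lit 115988) (.g (nat_lit 1011) (.e (nat_lit 5943) (nat_lit 322) (.e (nat_lit 57372) (nat_lit 2) (.e (nat_lit 90176) (nat_lit 15) (.e (nat_lit 188459) (nat_lit 26) .nil)))) .nil)) 
(.lf (nat_lit 116052) (.g (nat_lit 1746) (.e (nat_lit 5943) (nat_lit 322) (.e (nat_lit 57437) (nat_lit 17) (.e (nat_lit 376859) (nat_lit 21) (.e (nat_lit 57872) (nat_lit 264) (.e (nat_lit 1221) (nat_lit 90) (.e (nat_lit 81931) (nat_lit 20) (.e (nat_lit 973) (nat_lit 81) .nil))))))) (.g (nat_lit 4) .nil .nil)))) (.nd (nat_lit 6) 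
(.lf (nat_lit 116020) (.g (nat_lit 1176) (.e (nat_lit 5943) (nat_lit 322) (.e (nat_lit 57375) (nat_lit 2) (.e (nat_lit 90178) (nat_lit 15) (.e (nat_lit 188421) (nat_lit 11) .nil)))) .nil)) 
(.lf (nat_lit 116084) (.g (nat_lit 2988) (.e (nat_lit 5944) (nat_lit 322) (.e (nat_lit 57378) (nat_lit 3) (.e (nat_lit 98365) (nat_lit 26) (.e (nat_lit 426187) (nat_lit 9) (.e (nat_lit 426479) (nat_lit 27) (.e (nat_lit 336421) (nat_lit 28) (.e (nat_lit 434214) (nat_lit 18) .nil))))))) (.g (nat_lit 0) .nil .nil)))))) (.nd (nat_lit 4) (.nd (nat_lit 5) (.nd (nat_lit 6) 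
(.lf (nat_lit 115980) (.g (nat_lit 989) (.e (nat_lit 5943) (nat_lit 322) (.e (nat_lit 57372) (nat_lit 2) (.e (nat_lit 90176) (nat_lit 15) (.e (nat_lit 188423) (nat_lit 11) (.e (nat_lit 336387) (nat_lit 27) .nil))))) .nil)) 
(.lf (nat_lit 116044) (.g (nat_lit 2134) (.e (nat_lit 5943) (nat_lit 322) (.e (nat_lit 57379) (nat_lit 3) (.e (nat_lit 98367) (nat_lit 27) (.e (nat_lit 434246) (nat_lit 28) (.e (nat_lit 573489) (nat_lit 14) .nil))))) .nil))) (.nd (nat_lit 6) 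
(.lf (nat_lit 116012) (.g (nat_lit 1631) (.e (nat_lit 5943) (nat_lit 322) (.e (nat_lit 57375) (nat_lit 2) (.e (nat_lit 90176) (nat_lit 15) (.e (nat_lit 196352) (nat_lit 18) (.e (nat_lit 393238) (nat_lit 17) (.e (nat_lit 2397) (nat_lit 157) .nil)))))) (.g (nat_lit 5) .nil .nil))) 
(.lf (nat_lit 116076) (.g (nat_lit 1342) (.e (nat_lit 5944) (nat_lit 322) (.e (nat_lit 57373) (nat_lit 2) (.e (nat_lit 90176) (nat_lit 15) (.e (nat_lit 196352) (nat_lit 18) .nil)))) .nil)))) (.nd (nat_lit 5) (.nd (nat_lit 6) 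
(.lf (nat_lit 115996) (.g (nat_lit 2454) (.e (nat_lit 5943) (nat_lit 322) (.e (nat_lit 57374) (nat_lit 2) (.e (nat_lit 90170) (nat_lit 13) (.e (nat_lit 172067) (nat_lit 3) (.e (nat_lit 204838) (nat_lit 20) .nil))))) .nil)) 
(.lf (nat_lit 116060) (.g (nat_lit 2159) (.e (nat_lit 5944) (nat_lit 322) (.e (nat_lit 57347) (nat_lit 0) (.e (nat_lit 2031) (nat_lit 140) (.e (nat_lit 688177) (nat_lit 16) (.e (nat_lit 65586) (nat_lit 7) (.e (nat_lit 319531) (nat_lit 16) (.e (nat_lit 286748) (nat_lit 9) (.e (nat_lit 335891) (nat_lit 0) (.e (nat_lit 1076) (nat_lit 81) .nil))))))))) (.g (nat_lit 4) .nil .nil)))) (.nd (nat_lit 6) 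
(.lf (nat_lit 116028) (.g (nat_lit 1169) (.e (nat_lit 5943) (nat_lit 322) (.e (nat_lit 57375) (nat_lit 2) (.e (nat_lit 90185) (nat_lit 17) (.e (nat_lit 237624) (nat_lit 13) .nil)))) .nil)) 
(.lf (nat_lit 116092) (.g (nat_lit 4226) (.e (nat_lit 5944) (nat_lit 322) (.e (nat_lit 57378) (nat_lit 3) (.e (nat_lit 98373) (nat_lit 29) (.e (nat_lit 450563) (nat_lit 0) (.e (nat_lit 6595) (nat_lit 351) .nil))))) .nil))))))) (.nd (nat_lit 2) (.nd (nat_lit 3) (.nd (nat_lit 4) (.nd (nat_lit 5) (.nd (nat_lit 6) 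
(.lf (nat_lit 115970) (.g (nat_lit 2212) (.e (nat_lit 5942) (nat_lit 322) (.e (nat_lit 57447) (nat_lit 19) (.e (nat_lit 393234) (nat_lit 17) (.e (nat_lit 7581) (nat_lit 405) (.e (nat_lit 57480) (nat_lit 28) .nil))))) .nil)) 
(.lf (nat_lit 116034) (.g (nat_lit 1390) (.e (nat_lit 5943) (nat_lit 322) (.e (nat_lit 57379) (nat_lit 3) (.e (nat_lit 98365) (nat_lit 26) (.e (nat_lit 426187) (nat_lit 9) .nil)))) .nil))) (.nd (nat_lit 6) 
(.lf (nat_lit 116002) (.g (nat_lit 3964) (.e (nat_lit 5943) (nat_lit 322) (.e (nat_lit 57375) (nat_lit 2) (.e (nat_lit 90172) (nat_lit 14) (.e (nat_lit 180244) (nat_lit 5) (.e (nat_lit 532513) (nat_lit 3) (.e (nat_lit 114714) (nat_lit 22) (.e (nat_lit 90162) (nat_lit 12) (.e (nat_lit 163844) (nat_lit 0) .nil)))))))) (.g (nat_lit 8) .nil .nil))) 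
(.lf (nat_lit 116066) (.g (nat_lit 1591) (.e (nat_lit 5944) (nat_lit 322) (.e (nat_lit 57371) (nat_lit 2) (.e (nat_lit 90176) (nat_lit 15) (.e (nat_lit 196352) (nat_lit 18) .nil)))) .nil)))) (.nd (nat_lit 5) (.nd (nat_lit 6) 
(.lf (nat_lit 115986) (.g (nat_lit 1690) (.e (nat_lit 5943) (nat_lit 322) (.e (nat_lit 57372) (nat_lit 2) (.e (nat_lit 90176) (nat_lit 15) (.e (nat_lit 188431) (nat_lit 20) (.e (nat_lit 3543) (nat_lit 219) (.e (nat_lit 712747) (nat_lit 28) (.e (nat_lit 434200) (nat_lit 18) .nil))))))) (.g (nat_lit 4) .nil .nil))) 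
(.lf (nat_lit 116050) (.g (nat_lit 1290) (.e (nat_lit 5943) (nat_lit 322) (.e (nat_lit 57379) (nat_lit 3) (.e (nat_lit 98373) (nat_lit 29) (.e (nat_lit 458496) (nat_lit 23) .nil)))) .nil))) (.nd (nat_lit 6) 
(.lf (nat_lit 116018) (.g (nat_lit 1645) (.e (nat_lit 5943) (nat_lit 322) (.e (nat_lit 57375) (nat_lit 2) (.e (nat_lit 90176) (nat_lit 15) (.e (nat_lit 188459) (nat_lit 26) (.e (nat_lit 261888) (nat_lit 5) (.e (nat_lit 180224) (nat_lit 0) .nil)))))) (.g (nat_lit 4) .nil .nil))) 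
(.lf (nat_lit 116082) (.g (nat_lit 574) (.e (nat_lit 5944) (nat_lit 322) (.e (nat_lit 57378) (nat_lit 3) (.e (nat_lit 98363) (nat_lit 26) .nil))) .nil))))) (.nd (nat_lit 4) (.nd (nat_lit 5) (.nd (nat_lit 6) 
(.lf (nat_lit 115978) (.g (nat_lit 327) (.e (nat_lit 5943) (nat_lit 322) (.e (nat_lit 57372) (nat_lit 2) (.e (nat_lit 90176) (nat_lit 15) .nil))) .nil)) 
(.lf (nat_lit 116042) (.g (nat_lit 2703) (.e (nat_lit 5943) (nat_lit 322) (.e (nat_lit 57379) (nat_lit 3) (.e (nat_lit 98367) (nat_lit 27) (.e (nat_lit 434244) (nat_lit 28) (.e (nat_lit 573489) (nat_lit 14) .nil))))) .nil))) (.nd (nat_lit 6) 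
(.lf (nat_lit 116010) (.g (nat_lit 945) (.e (nat_lit 5943) (nat_lit 322) (.e (nat_lit 57375) (nat_lit 2) (.e (nat_lit 90176) (nat_lit 15) (.e (nat_lit 196352) (nat_lit 11) .nil)))) .nil)) 
(.lf (nat_lit 116074) (.g (nat_lit 2063) (.e (nat_lit 5944) (nat_lit 322) (.e (nat_lit 57373) (nat_lit 2) (.e (nat_lit 90172) (nat_lit 14) (.e (nat_lit 180244) (nat_lit 5) (.e (nat_lit 532515) (nat_lit 3) (.e (nat_lit 114719) (nat_lit 23) (.e (nat_lit 98325) (nat_lit 17) (.e (nat_lit 2505) (nat_lit 157) .nil)))))))) (.g (nat_lit 4) .nil .nil))))) (.nd (nat_lit 5) (.nd (nat_lit 6) 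
(.lf (nat_lit 115994) (.g (nat_lit 2898) (.e (nat_lit 5943) (nat_lit 322) (.e (nat_lit 57373) (nat_lit 2) (.e (nat_lit 90174) (nat_lit 14) (.e (nat_lit 180251) (nat_lit 10) (.e (nat_lit 573489) (nat_lit 14) .nil))))) .nil)) 
(.lf (nat_lit 116058) (.g (nat_lit 2125) (.e (nat_lit 5944) (nat_lit 322) (.e (nat_lit 57347) (nat_lit 0) (.e (nat_lit 2031) (nat_lit 140) (.e (nat_lit 688177) (nat_lit 16) (.e (nat_lit 65583) (nat_lit 7) (.e (nat_lit 319530) (nat_lit 16) (.e (nat_lit 286748) (nat_lit 9) (.e (nat_lit 335905) (nat_lit 0) (.e (nat_lit 1076) (nat_lit 81) .nil))))))))) (.g (nat_lit 4) .nil .nil)))) (.nd (nat_lit 6) 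
(.lf (nat_lit 116026) (.g (nat_lit 1202) (.e (nat_lit 5943) (nat_lit 322) (.e (nat_lit 57375) (nat_lit 2) (.e (nat_lit 90185) (nat_lit 17) (.e (nat_lit 237621) (nat_lit 13) .nil)))) .nil)) 
(.lf (nat_lit 116090) (.g (nat_lit 737) (.e (nat_lit 5944) (nat_lit 322) (.e (nat_lit 57378) (nat_lit 3) (.e (nat_lit 98369) (nat_lit 28) .nil))) .nil)))))) (.nd (nat_lit 3) (.nd (nat_lit 4) (.nd (nat_lit 5) (.nd (nat_lit 6) 
(.lf (nat_lit 115974) (.g (nat_lit 2092) (.e (nat_lit 5943) (nat_lit 322) (.e (nat_lit 57372) (nat_lit 2) (.e (nat_lit 90172) (nat_lit 14) (.e (nat_lit 180244) (nat_lit 5) (.e (nat_lit 532515) (nat_lit 3) (.e (nat_lit 114715) (nat_lit 22) (.e (nat_lit 90165) (nat_lit 12) (.e (nat_lit 171776) (nat_lit 0) .nil)))))))) (.g (nat_lit 5) .nil .nil))) 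
(.lf (nat_lit 116038) (.g (nat_lit 1949) (.e (nat_lit 5943) (nat_lit 322) (.e (nat_lit 57379) (nat_lit 3) (.e (nat_lit 98365) (nat_lit 26) (.e (nat_lit 426325) (nat_lit 13) (.e (nat_lit 491264) (nat_lit 10) .nil))))) .nil))) (.nd (nat_lit 6) 
(.lf (nat_lit 116006) (.g (nat_lit 2442) (.e (nat_lit 5943) (nat_lit 322) (.e (nat_lit 57375) (nat_lit 2) (.e (nat_lit 90172) (nat_lit 14) (.e (nat_lit 180244) (nat_lit 5) (.e (nat_lit 532515) (nat_lit 3) (.e (nat_lit 114716) (nat_lit 22) (.e (nat_lit 90163) (nat_lit 12) (.e (nat_lit 163844) (nat_lit 0) .nil)))))))) (.g (nat_lit 6) .nil .nil))) 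
(.lf (nat_lit 116070) (.g (nat_lit 2631) (.e (nat_lit 5944) (nat_lit 322) (.e (nat_lit 57373) (nat_lit 2) (.e (nat_lit 90172) (nat_lit 14) (.e (nat_lit 180243) (nat_lit 5) (.e (nat_lit 532515) (nat_lit 3) .nil))))) .nil)))) (.nd (nat_lit 5) (.nd (nat_lit 6) 
(.lf (nat_lit 115990) (.g (nat_lit 1479) (.e (nat_lit 5943) (nat_lit 322) (.e (nat_lit 57372) (nat_lit 2) (.e (nat_lit 90176) (nat_lit 15) (.e (nat_lit 188459) (nat_lit 26) (.e (nat_lit 261888) (nat_lit 0) .nil))))) .nil)) 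
(.lf (nat_lit 116054) (.g (nat_lit 2202) (.e (nat_lit 5943) (nat_lit 322) (.e (nat_lit 57448) (nat_lit 19) (.e (nat_lit 393234) (nat_lit 17) (.e (nat_lit 7581) (nat_lit 405) (.e (nat_lit 57477) (nat_lit 28) .nil))))) .nil))) (.nd (nat_lit 6) 
(.lf (nat_lit 116022) (.g (nat_lit 1249) (.e (nat_lit 5943) (nat_lit 322) (.e (nat_lit 57375) (nat_lit 2) (.e (nat_lit 90185) (nat_lit 17) (.e (nat_lit 237601) (nat_lit 9) .nil)))) .nil)) 
(.lf (nat_lit 116086) (.g (nat_lit 2520) (.e (nat_lit 5944) (nat_lit 322) (.e (nat_lit 57378) (nat_lit 3) (.e (nat_lit 98365) (nat_lit 26) (.e (nat_lit 426187) (nat_lit 9) (.e (nat_lit 426568) (nat_lit 34) (.e (nat_lit 393238) (nat_lit 17) (.e (nat_lit 2506) (nat_lit 157) .nil))))))) (.g (nat_lit 5) .nil .nil)))))) (.nd (nat_lit 4) (.nd (nat_lit 5) (.nd (nat_lit 6) 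
(.lf (nat_lit 115982) (.g (nat_lit 1057) (.e (nat_lit 5943) (nat_lit 322) (.e (nat_lit 57372) (nat_lit 2) (.e (nat_lit 90176) (nat_lit 15) (.e (nat_lit 196352) (nat_lit 18) .nil)))) .nil)) 
(.lf (nat_lit 116046) (.g (nat_lit 1459) (.e (nat_lit 5943) (nat_lit 322) (.e (nat_lit 57379) (nat_lit 3) (.e (nat_lit 98369) (nat_lit 28) (.e (nat_lit 450304) (nat_lit 18) (.e (nat_lit 393232) (nat_lit 17) (.e (nat_lit 2399) (nat_lit 157) .nil)))))) (.g (nat_lit 5) .nil .nil)))) (.nd (nat_lit 6) 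
(.lf (nat_lit 116014) (.g (nat_lit 1691) (.e (nat_lit 5943) (nat_lit 322) (.e (nat_lit 57375) (nat_lit 2) (.e (nat_lit 90176) (nat_lit 15) (.e (nat_lit 188431) (nat_lit 20) (.e (nat_lit 3543) (nat_lit 219) (.e (nat_lit 712747) (nat_lit 28) (.e (nat_lit 434200) (nat_lit 18) .nil))))))) (.g (nat_lit 4) .nil .nil))) 
(.lf (nat_lit 116078) (.g (nat_lit 1533) (.e (nat_lit 5944) (nat_lit 322) (.e (nat_lit 57373) (nat_lit 2) (.e (nat_lit 90185) (nat_lit 17) (.e (nat_lit 237601) (nat_lit 9) .nil)))) .nil)))) (.nd (nat_lit 5) (.nd (nat_lit 6) 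
(.lf (nat_lit 115998) (.g (nat_lit 1364) (.e (nat_lit 5943) (nat_lit 322) (.e (nat_lit 57374) (nat_lit 2) (.e (nat_lit 90170) (nat_lit 13) (.e (nat_lit 172123) (nat_lit 13) .nil)))) .nil)) 
(.lf (nat_lit 116062) (.g (nat_lit 2181) (.e (nat_lit 5944) (nat_lit 322) (.e (nat_lit 57371) (nat_lit 2) (.e (nat_lit 90172) (nat_lit 14) (.e (nat_lit 180244) (nat_lit 5) (.e (nat_lit 532515) (nat_lit 3) .nil))))) .nil))) (.nd (nat_lit 6) 
(.lf (nat_lit 116030) (.g (nat_lit 2079) (.e (nat_lit 5943) (nat_lit 322) (.e (nat_lit 57375) (nat_lit 2) (.e (nat_lit 90185) (nat_lit 17) (.e (nat_lit 237624) (nat_lit 13) (.e (nat_lit 491264) (nat_lit 10) (.e (nat_lit 434203) (nat_lit 18) .nil)))))) (.g (nat_lit 4) .nil .nil))) 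
(.lf (nat_lit 116094) (.g (nat_lit 2174) (.e (nat_lit 5944) (nat_lit 322) (.e (nat_lit 57378) (nat_lit 3) (.e (nat_lit 98377) (nat_lit 30) (.e (nat_lit 458789) (nat_lit 23) (.e (nat_lit 532515) (nat_lit 3) (.e (nat_lit 114715) (nat_lit 22) (.e (nat_lit 90165) (nat_lit 12) (.e (nat_lit 163855) (nat_lit 0) .nil)))))))) (.g (nat_lit 4) .nil .nil))))))))) 
(.nd (nat_lit 1) (.nd (nat_lit 2) (.nd (nat_lit 3) (.nd (nat_lit 4) (.nd (nat_lit 5) 
(.nd (nat_lit 6) 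
(.lf (nat_lit 115969) (.g (nat_lit 2308) (.e (nat_lit 5942) (nat_lit 322) (.e (nat_lit 57447) (nat_lit 19) (.e (nat_lit 393234) (nat_lit 17) (.e (nat_lit 7581) (nat_lit 405) (.e (nat_lit 57477) (nat_lit 28) .nil))))) .nil)) 
(.lf (nat_lit 116033) (.g (nat_lit 1402) (.e (nat_lit 5943) (nat_lit 322) (.e (nat_lit 57379) (nat_lit 3) (.e (nat_lit 98363) (nat_lit 26) (.e (nat_lit 426230) (nat_lit 9) (.e (nat_lit 426565) (nat_lit 34) (.e (nat_lit 393232) (nat_lit 17) (.e (nat_lit 2399) (nat_lit 157) .nil))))))) (.g (nat_lit 4) .nil .nil)))) (.nd (nat_lit 6) 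
(.lf (nat_lit 116001) (.g (nat_lit 2530) (.e (nat_lit 5943) (nat_lit 322) (.e (nat_lit 57375) (nat_lit 2) (.e (nat_lit 90172) (nat_lit 14) (.e (nat_lit 180243) (nat_lit 5) (.e (nat_lit 532515) (nat_lit 3) (.e (nat_lit 114716) (nat_lit 22) (.e (nat_lit 90181) (nat_lit 16) (.e (nat_lit 229376) (nat_lit 0) .nil)))))))) (.g (nat_lit 5) .nil .nil))) 
(.lf (nat_lit 116065) (.g (nat_lit 2379) (.e (nat_lit 5944) (nat_lit 322) (.e (nat_lit 57371) (nat_lit 2) (.e (nat_lit 90174) (nat_lit 14) (.e (nat_lit 180243) (nat_lit 5) (.e (nat_lit 532515) (nat_lit 3) (.e (nat_lit 114716) (nat_lit 22) (.e (nat_lit 90181) (nat_lit 16) (.e (nat_lit 229382) (nat_lit 0) .nil)))))))) (.g (nat_lit 4) .nil .nil))))) (.nd (nat_lit 5) (.nd (nat_lit 6) 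
(.lf (nat_lit 115985) (.g (nat_lit 1466) (.e (nat_lit 5943) (nat_lit 322) (.e (nat_lit 57372) (nat_lit 2) (.e (nat_lit 90176) (nat_lit 15) (.e (nat_lit 188431) (nat_lit 20) (.e (nat_lit 3483) (nat_lit 218) .nil))))) .nil)) 
(.lf (nat_lit 116049) (.g (nat_lit 1490) (.e (nat_lit 5943) (nat_lit 322) (.e (nat_lit 57379) (nat_lit 3) (.e (nat_lit 98373) (nat_lit 29) (.e (nat_lit 450602) (nat_lit 22) .nil)))) .nil))) (.nd (nat_lit 6) 
(.lf (nat_lit 116017) (.g (nat_lit 1385) (.e (nat_lit 5943) (nat_lit 322) (.e (nat_lit 57375) (nat_lit 2) (.e (nat_lit 90176) (nat_lit 15) (.e (nat_lit 188459) (nat_lit 26) (.e (nat_lit 261888) (nat_lit 0) .nil))))) .nil)) 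
(.lf (nat_lit 116081) (.g (nat_lit 2961) (.e (nat_lit 5944) (nat_lit 322) (.e (nat_lit 57373) (nat_lit 2) (.e (nat_lit 90185) (nat_lit 17) (.e (nat_lit 237605) (nat_lit 9) (.e (nat_lit 426479) (nat_lit 27) (.e (nat_lit 336421) (nat_lit 28) (.e (nat_lit 434214) (nat_lit 18) .nil))))))) (.g (nat_lit 6) .nil .nil)))))) (.nd (nat_lit 4) (.nd (nat_lit 5) (.nd (nat_lit 6) 
(.lf (nat_lit 115977) (.g (nat_lit 3490) (.e (nat_lit 5943) (nat_lit 322) (.e (nat_lit 57372) (nat_lit 2) (.e (nat_lit 90172) (nat_lit 14) (.e (nat_lit 180244) (nat_lit 5) (.e (nat_lit 532515) (nat_lit 3) (.e (nat_lit 114716) (nat_lit 22) (.e (nat_lit 90181) (nat_lit 16) (.e (nat_lit 229376) (nat_lit 0) .nil)))))))) (.g (nat_lit 8) .nil .nil))) 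
(.lf (nat_lit 116041) (.g (nat_lit 1820) (.e (nat_lit 5943) (nat_lit 322) (.e (nat_lit 57379) (nat_lit 3) (.e (nat_lit 98367) (nat_lit 27) (.e (nat_lit 434243) (nat_lit 28) .nil)))) .nil))) (.nd (nat_lit 6) 
(.lf (nat_lit 116009) (.g (nat_lit 223) (.e (nat_lit 5943) (nat_lit 322) (.e (nat_lit 57375) (nat_lit 2) (.e (nat_lit 90176) (nat_lit 15) .nil))) .nil)) 
(.lf (nat_lit 116073) (.g (nat_lit 3444) (.e (nat_lit 5944) (nat_lit 322) (.e (nat_lit 57373) (nat_lit 2) (.e (nat_lit 90172) (nat_lit 14) (.e (nat_lit 180244) (nat_lit 5) (.e (nat_lit 532515) (nat_lit 3) (.e (nat_lit 114715) (nat_lit 22) (.e (nat_lit 90165) (nat_lit 12) (.e (nat_lit 163855) (nat_lit 0) .nil)))))))) (.g (nat_lit 0) .nil .nil))))) (.nd (nat_lit 5) (.nd (nat_lit 6) 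
(.lf (nat_lit 115993) (.g (nat_lit 1067) (.e (nat_lit 5943) (nat_lit 322) (.e (nat_lit 57372) (nat_lit 2) (.e (nat_lit 90185) (nat_lit 17) .nil))) .nil)) 
(.lf (nat_lit 116057) (.g (nat_lit 2142) (.e (nat_lit 5944) (nat_lit 322) (.e (nat_lit 57347) (nat_lit 0) (.e (nat_lit 2031) (nat_lit 140) (.e (nat_lit 688177) (nat_lit 16) (.e (nat_lit 65583) (nat_lit 7) (.e (nat_lit 319530) (nat_lit 16) (.e (nat_lit 286748) (nat_lit 9) (.e (nat_lit 335905) (nat_lit 0) (.e (nat_lit 977) (nat_lit 81) .nil))))))))) (.g (nat_lit 4) .nil .nil)))) (.nd (nat_lit 6) 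
(.lf (nat_lit 116025) (.g (nat_lit 2351) (.e (nat_lit 5943) (nat_lit 322) (.e (nat_lit 57375) (nat_lit 2) (.e (nat_lit 90185) (nat_lit 17) (.e (nat_lit 237605) (nat_lit 9) (.e (nat_lit 426566) (nat_lit 34) (.e (nat_lit 393233) (nat_lit 17) (.e (nat_lit 2399) (nat_lit 157) .nil))))))) (.g (nat_lit 5) .nil .nil))) 
(.lf (nat_lit 116089) (.g (nat_lit 2198) (.e (nat_lit 5944) (nat_lit 322) (.e (nat_lit 57378) (nat_lit 3) (.e (nat_lit 98366) (nat_lit 27) (.e (nat_lit 434231) (nat_lit 23) (.e (nat_lit 532514) (nat_lit 3) .nil))))) .nil)))))) (.nd (nat_lit 3) (.nd (nat_lit 4) (.nd (nat_lit 5) (.nd (nat_lit 6) 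
(.lf (nat_lit 115973) (.g (nat_lit 1581) (.e (nat_lit 5943) (nat_lit 322) (.e (nat_lit 57372) (nat_lit 2) (.e (nat_lit 90172) (nat_lit 14) (.e (nat_lit 180244) (nat_lit 5) (.e (nat_lit 532515) (nat_lit 3) .nil))))) .nil)) 
(.lf (nat_lit 116037) (.g (nat_lit 2225) (.e (nat_lit 5943) (nat_lit 322) (.e (nat_lit 57379) (nat_lit 3) (.e (nat_lit 98365) (nat_lit 26) (.e (nat_lit 426188) (nat_lit 9) (.e (nat_lit 426566) (nat_lit 34) (.e (nat_lit 393233) (nat_lit 17) (.e (nat_lit 2398) (nat_lit 157) .nil))))))) (.g (nat_lit 4) .nil .nil)))) (.nd (nat_lit 6) 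
(.lf (nat_lit 116005) (.g (nat_lit 2765) (.e (nat_lit 5943) (nat_lit 322) (.e (nat_lit 57375) (nat_lit 2) (.e (nat_lit 90172) (nat_lit 14) (.e (nat_lit 180244) (nat_lit 5) (.e (nat_lit 532515) (nat_lit 3) (.e (nat_lit 114716) (nat_lit 22) (.e (nat_lit 90163) (nat_lit 12) (.e (nat_lit 163843) (nat_lit 0) .nil)))))))) (.g (nat_lit 6) .nil .nil))) 
(.lf (nat_lit 116069) (.g (nat_lit 732) (.e (nat_lit 5944) (nat_lit 322) (.e (nat_lit 57373) (nat_lit 2) (.e (nat_lit 90172) (nat_lit 14) .nil))) .nil)))) (.nd (nat_lit 5) (.nd (nat_lit 6) 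
(.lf (nat_lit 115989) (.g (nat_lit 1490) (.e (nat_lit 5943) (nat_lit 322) (.e (nat_lit 57372) (nat_lit 2) (.e (nat_lit 90176) (nat_lit 15) (.e (nat_lit 188459) (nat_lit 26) (.e (nat_lit 253953) (nat_lit 0) .nil))))) .nil)) 
(.lf (nat_lit 116053) (.g (nat_lit 2206) (.e (nat_lit 5943) (nat_lit 322) (.e (nat_lit 57448) (nat_lit 19) (.e (nat_lit 393234) (nat_lit 17) (.e (nat_lit 7581) (nat_lit 405) (.e (nat_lit 57476) (nat_lit 28) .nil))))) .nil))) (.nd (nat_lit 6) 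
(.lf (nat_lit 116021) (.g (nat_lit 1261) (.e (nat_lit 5943) (nat_lit 322) (.e (nat_lit 57375) (nat_lit 2) (.e (nat_lit 90178) (nat_lit 15) (.e (nat_lit 196352) (nat_lit 18) .nil)))) .nil)) 
(.lf (nat_lit 116085) (.g (nat_lit 1654) (.e (nat_lit 5944) (nat_lit 322) (.e (nat_lit 57378) (nat_lit 3) (.e (nat_lit 98365) (nat_lit 26) (.e (nat_lit 426187) (nat_lit 9) (.e (nat_lit 426568) (nat_lit 34) .nil))))) .nil))))) (.nd (nat_lit 4) (.nd (nat_lit 5) (.nd (nat_lit 6) 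
(.lf (nat_lit 115981) (.g (nat_lit 1057) (.e (nat_lit 5943) (nat_lit 322) (.e (nat_lit 57372) (nat_lit 2) (.e (nat_lit 90176) (nat_lit 15) (.e (nat_lit 196352) (nat_lit 11) .nil)))) .nil)) 
(.lf (nat_lit 116045) (.g (nat_lit 856) (.e (nat_lit 5943) (nat_lit 322) (.e (nat_lit 57379) (nat_lit 3) (.e (nat_lit 98369) (nat_lit 28) (.e (nat_lit 450304) (nat_lit 18) .nil)))) .nil))) (.nd (nat_lit 6) 
(.lf (nat_lit 116013) (.g (nat_lit 929) (.e (nat_lit 5943) (nat_lit 322) (.e (nat_lit 57375) (nat_lit 2) (.e (nat_lit 90176) (nat_lit 15) (.e (nat_lit 188431) (nat_lit 20) .nil)))) .nil)) 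
(.lf (nat_lit 116077) (.g (nat_lit 1400) (.e (nat_lit 5944) (nat_lit 322) (.e (nat_lit 57373) (nat_lit 2) (.e (nat_lit 90178) (nat_lit 15) (.e (nat_lit 196352) (nat_lit 18) .nil)))) .nil)))) (.nd (nat_lit 5) (.nd (nat_lit 6) 
(.lf (nat_lit 115997) (.g (nat_lit 1930) (.e (nat_lit 5943) (nat_lit 322) (.e (nat_lit 57374) (nat_lit 2) (.e (nat_lit 90170) (nat_lit 13) (.e (nat_lit 172121) (nat_lit 13) .nil)))) .nil)) 
(.lf (nat_lit 116061) (.g (nat_lit 1725) (.e (nat_lit 5944) (nat_lit 322) (.e (nat_lit 57371) (nat_lit 2) (.e (nat_lit 90172) (nat_lit 14) (.e (nat_lit 180243) (nat_lit 5) .nil)))) .nil))) (.nd (nat_lit 6) 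
(.lf (nat_lit 116029) (.g (nat_lit 1795) (.e (nat_lit 5943) (nat_lit 322) (.e (nat_lit 57375) (nat_lit 2) (.e (nat_lit 90185) (nat_lit 17) (.e (nat_lit 237624) (nat_lit 13) (.e (nat_lit 483341) (nat_lit 9) (.e (nat_lit 426009) (nat_lit 0) (.e (nat_lit 2430) (nat_lit 157) .nil))))))) (.g (nat_lit 4) .nil .nil))) 
(.lf (nat_lit 116093) (.g (nat_lit 1960) (.e (nat_lit 5944) (nat_lit 322) (.e (nat_lit 57378) (nat_lit 3) (.e (nat_lit 98376) (nat_lit 30) (.e (nat_lit 458789) (nat_lit 23) (.e (nat_lit 532515) (nat_lit 3) (.e (nat_lit 114715) (nat_lit 22) (.e (nat_lit 90165) (nat_lit 12) (.e (nat_lit 163855) (nat_lit 0) .nil)))))))) (.g (nat_lit 4) .nil .nil)))))))) 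
(.nd (nat_lit 2) (.nd (nat_lit 3) (.nd (nat_lit 4) (.nd (nat_lit 5) (.nd (nat_lit 6) 
(.lf (nat_lit 115971) (.g (nat_lit 2668) (.e (nat_lit 5943) (nat_lit 322) (.e (nat_lit 57372) (nat_lit 2) (.e (nat_lit 90172) (nat_lit 14) (.e (nat_lit 180243) (nat_lit 5) (.e (nat_lit 532513) (nat_lit 3) (.e (nat_lit 114714) (nat_lit 22) (.e (nat_lit 90181) (nat_lit 16) (.e (nat_lit 229376) (nat_lit 0) .nil)))))))) (.g (nat_lit 5) .nil .nil))) 
(.lf (nat_lit 116035) (.g (nat_lit 1371) (.e (nat_lit 5943) (nat_lit 322) (.e (nat_lit 57379) (nat_lit 3) (.e (nat_lit 98365) (nat_lit 26) (.e (nat_lit 426188) (nat_lit 9) .nil)))) .nil))) (.nd (nat_lit 6) 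
(.lf (nat_lit 116003) (.g (nat_lit 1724) (.e (nat_lit 5943) (nat_lit 322) (.e (nat_lit 57375) (nat_lit 2) (.e (nat_lit 90172) (nat_lit 14) (.e (nat_lit 180244) (nat_lit 5) (.e (nat_lit 532515) (nat_lit 3) (.e (nat_lit 114715) (nat_lit 22) (.e (nat_lit 90165) (nat_lit 12) (.e (nat_lit 163840) (nat_lit 0) .nil)))))))) (.g (nat_lit 4) .nil .nil))) 
(.lf (nat_lit 116067) (.g (nat_lit 2804) (.e (nat_lit 5944) (nat_lit 322) (.e (nat_lit 57373) (nat_lit 2) (.e (nat_lit 90170) (nat_lit 13) (.e (nat_lit 172065) (nat_lit 3) (.e (nat_lit 204838) (nat_lit 20) .nil))))) .nil)))) (.nd (nat_lit 5) (.nd (nat_lit 6) 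
(.lf (nat_lit 115987) (.g (nat_lit 1466) (.e (nat_lit 5943) (nat_lit 322) (.e (nat_lit 57372) (nat_lit 2) (.e (nat_lit 90176) (nat_lit 15) (.e (nat_lit 188431) (nat_lit 20) (.e (nat_lit 3547) (nat_lit 219) .nil))))) .nil)) 
(.lf (nat_lit 116051) (.g (nat_lit 642) (.e (nat_lit 5943) (nat_lit 322) (.e (nat_lit 57437) (nat_lit 17) (.e (nat_lit 376859) (nat_lit 21) .nil))) .nil))) (.nd (nat_lit 6) 
(.lf (nat_lit 116019) (.g (nat_lit 953) (.e (nat_lit 5943) (nat_lit 322) (.e (nat_lit 57375) (nat_lit 2) (.e (nat_lit 90176) (nat_lit 15) (.e (nat_lit 188461) (nat_lit 26) .nil)))) .nil)) 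
(.lf (nat_lit 116083) (.g (nat_lit 502) (.e (nat_lit 5944) (nat_lit 322) (.e (nat_lit 57378) (nat_lit 3) (.e (nat_lit 98365) (nat_lit 26) .nil))) .nil))))) (.nd (nat_lit 4) (.nd (nat_lit 5) (.nd (nat_lit 6) 
(.lf (nat_lit 115979) (.g (nat_lit 1417) (.e (nat_lit 5943) (nat_lit 322) (.e (nat_lit 57372) (nat_lit 2) (.e (nat_lit 90176) (nat_lit 15) (.e (nat_lit 188421) (nat_lit 11) (.e (nat_lit 343808) (nat_lit 28) (.e (nat_lit 434203) (nat_lit 18) .nil)))))) (.g (nat_lit 4) .nil .nil))) 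
(.lf (nat_lit 116043) (.g (nat_lit 1780) (.e (nat_lit 5943) (nat_lit 322) (.e (nat_lit 57379) (nat_lit 3) (.e (nat_lit 98367) (nat_lit 27) (.e (nat_lit 434246) (nat_lit 28) .nil)))) .nil))) (.nd (nat_lit 6) 
(.lf (nat_lit 116011) (.g (nat_lit 945) (.e (nat_lit 5943) (nat_lit 322) (.e (nat_lit 57375) (nat_lit 2) (.e (nat_lit 90176) (nat_lit 15) (.e (nat_lit 196352) (nat_lit 18) .nil)))) .nil)) 
(.lf (nat_lit 116075) (.g (nat_lit 1422) (.e (nat_lit 5944) (nat_lit 322) (.e (nat_lit 57373) (nat_lit 2) (.e (nat_lit 90174) (nat_lit 14) (.e (nat_lit 180243) (nat_lit 5) .nil)))) .nil)))) (.nd (nat_lit 5) (.nd (nat_lit 6) 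
(.lf (nat_lit 115995) (.g (nat_lit 2024) (.e (nat_lit 5943) (nat_lit 322) (.e (nat_lit 57374) (nat_lit 2) (.e (nat_lit 90170) (nat_lit 13) (.e (nat_lit 172065) (nat_lit 3) .nil)))) .nil)) 
(.lf (nat_lit 116059) (.g (nat_lit 1995) (.e (nat_lit 5944) (nat_lit 322) (.e (nat_lit 57347) (nat_lit 0) (.e (nat_lit 2031) (nat_lit 140) (.e (nat_lit 688177) (nat_lit 16) (.e (nat_lit 65586) (nat_lit 7) .nil))))) .nil))) (.nd (nat_lit 6) 
(.lf (nat_lit 116027) (.g (nat_lit 1993) (.e (nat_lit 5943) (nat_lit 322) (.e (nat_lit 57375) (nat_lit 2) (.e (nat_lit 90185) (nat_lit 17) (.e (nat_lit 237621) (nat_lit 13) (.e (nat_lit 491264) (nat_lit 10) (.e (nat_lit 434203) (nat_lit 18) .nil)))))) (.g (nat_lit 4) .nil .nil))) 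
(.lf (nat_lit 116091) (.g (nat_lit 4165) (.e (nat_lit 5944) (nat_lit 322) (.e (nat_lit 57378) (nat_lit 3) (.e (nat_lit 98373) (nat_lit 29) (.e (nat_lit 450562) (nat_lit 0) (.e (nat_lit 6595) (nat_lit 351) .nil))))) .nil)))))) (.nd (nat_lit 3) (.nd (nat_lit 4) (.nd (nat_lit 5) (.nd (nat_lit 6) 
(.lf (nat_lit 115975) (.g (nat_lit 2783) (.e (nat_lit 5943) (nat_lit 322) (.e (nat_lit 57372) (nat_lit 2) (.e (nat_lit 90172) (nat_lit 14) (.e (nat_lit 180244) (nat_lit 5) (.e (nat_lit 532515) (nat_lit 3) (.e (nat_lit 114716) (nat_lit 22) (.e (nat_lit 90162) (nat_lit 12) (.e (nat_lit 163844) (nat_lit 0) .nil)))))))) (.g (nat_lit 7) .nil .nil))) 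
(.lf (nat_lit 116039) (.g (nat_lit 1575) (.e (nat_lit 5943) (nat_lit 322) (.e (nat_lit 57379) (nat_lit 3) (.e (nat_lit 98365) (nat_lit 26) (.e (nat_lit 426326) (nat_lit 13) .nil)))) .nil))) (.nd (nat_lit 6) 
(.lf (nat_lit 116007) (.g (nat_lit 2056) (.e (nat_lit 5943) (nat_lit 322) (.e (nat_lit 57375) (nat_lit 2) (.e (nat_lit 90172) (nat_lit 14) (.e (nat_lit 180244) (nat_lit 5) (.e (nat_lit 532515) (nat_lit 3) (.e (nat_lit 114716) (nat_lit 22) (.e (nat_lit 90163) (nat_lit 12) (.e (nat_lit 163845) (nat_lit 0) .nil)))))))) (.g (nat_lit 5) .nil .nil))) 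
(.lf (nat_lit 116071) (.g (nat_lit 2196) (.e (nat_lit 5944) (nat_lit 322) (.e (nat_lit 57373) (nat_lit 2) (.e (nat_lit 90172) (nat_lit 14) (.e (nat_lit 180244) (nat_lit 5) (.e (nat_lit 532513) (nat_lit 3) (.e (nat_lit 114718) (nat_lit 23) (.e (nat_lit 98325) (nat_lit 17) (.e (nat_lit 2505) (nat_lit 157) .nil)))))))) (.g (nat_lit 4) .nil .nil))))) (.nd (nat_lit 5) (.nd (nat_lit 6) 
(.lf (nat_lit 115991) (.g (nat_lit 1684) (.e (nat_lit 5943) (nat_lit 322) (.e (nat_lit 57372) (nat_lit 2) (.e (nat_lit 90176) (nat_lit 15) (.e (nat_lit 188459) (nat_lit 26) (.e (nat_lit 261888) (nat_lit 5) (.e (nat_lit 180224) (nat_lit 0) .nil)))))) (.g (nat_lit 4) .nil .nil))) 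
(.lf (nat_lit 116055) (.g (nat_lit 1602) (.e (nat_lit 5943) (nat_lit 322) (.e (nat_lit 57448) (nat_lit 19) (.e (nat_lit 393234) (nat_lit 17) (.e (nat_lit 7583) (nat_lit 405) (.e (nat_lit 57476) (nat_lit 28) (.e (nat_lit 557104) (nat_lit 14) (.e (nat_lit 180224) (nat_lit 0) .nil))))))) (.g (nat_lit 4) .nil .nil)))) (.nd (nat_lit 6) 
(.lf (nat_lit 116023) (.g (nat_lit 2274) (.e (nat_lit 5943) (nat_lit 322) (.e (nat_lit 57375) (nat_lit 2) (.e (nat_lit 90185) (nat_lit 17) (.e (nat_lit 237601) (nat_lit 9) (.e (nat_lit 426566) (nat_lit 34) (.e (nat_lit 393233) (nat_lit 17) (.e (nat_lit 2399) (nat_lit 157) .nil))))))) (.g (nat_lit 5) .nil .nil))) 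
(.lf (nat_lit 116087) (.g (nat_lit 3419) (.e (nat_lit 5944) (nat_lit 322) (.e (nat_lit 57378) (nat_lit 3) (.e (nat_lit 98365) (nat_lit 26) (.e (nat_lit 426188) (nat_lit 9) (.e (nat_lit 426479) (nat_lit 27) (.e (nat_lit 336421) (nat_lit 28) (.e (nat_lit 434214) (nat_lit 18) .nil))))))) (.g (nat_lit 0) .nil .nil)))))) (.nd (nat_lit 4) (.nd (nat_lit 5) (.nd (nat_lit 6) 
(.lf (nat_lit 115983) (.g (nat_lit 1232) (.e (nat_lit 5943) (nat_lit 322) (.e (nat_lit 57372) (nat_lit 2) (.e (nat_lit 90176) (nat_lit 15) (.e (nat_lit 188428) (nat_lit 20) (.e (nat_lit 3545) (nat_lit 219) .nil))))) .nil)) 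
(.lf (nat_lit 116047) (.g (nat_lit 1044) (.e (nat_lit 5943) (nat_lit 322) (.e (nat_lit 57379) (nat_lit 3) (.e (nat_lit 98370) (nat_lit 28) (.e (nat_lit 450304) (nat_lit 18) .nil)))) .nil))) (.nd (nat_lit 6) 
(.lf (nat_lit 116015) (.g (nat_lit 1400) (.e (nat_lit 5943) (nat_lit 322) (.e (nat_lit 57375) (nat_lit 2) (.e (nat_lit 90176) (nat_lit 15) (.e (nat_lit 188431) (nat_lit 20) (.e (nat_lit 3547) (nat_lit 219) .nil))))) .nil)) 
(.lf (nat_lit 116079) (.g (nat_lit 2824) (.e (nat_lit 5944) (nat_lit 322) (.e (nat_lit 57373) (nat_lit 2) (.e (nat_lit 90185) (nat_lit 17) (.e (nat_lit 237601) (nat_lit 9) (.e (nat_lit 426479) (nat_lit 27) (.e (nat_lit 336421) (nat_lit 28) (.e (nat_lit 434214) (nat_lit 18) .nil))))))) (.g (nat_lit 6) .nil .nil))))) (.nd (nat_lit 5) (.nd (nat_lit 6) 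
(.lf (nat_lit 115999) (.g (nat_lit 3586) (.e (nat_lit 5943) (nat_lit 322) (.e (nat_lit 57375) (nat_lit 2) (.e (nat_lit 90172) (nat_lit 14) (.e (nat_lit 180243) (nat_lit 5) (.e (nat_lit 532513) (nat_lit 3) (.e (nat_lit 114714) (nat_lit 22) (.e (nat_lit 90162) (nat_lit 12) (.e (nat_lit 163844) (nat_lit 0) .nil)))))))) (.g (nat_lit 7) .nil .nil))) 
(.lf (nat_lit 116063) (.g (nat_lit 2672) (.e (nat_lit 5944) (nat_lit 322) (.e (nat_lit 57371) (nat_lit 2) (.e (nat_lit 90172) (nat_lit 14) (.e (nat_lit 180244) (nat_lit 5) (.e (nat_lit 532515) (nat_lit 3) (.e (nat_lit 114715) (nat_lit 22) (.e (nat_lit 90165) (nat_lit 12) (.e (nat_lit 163855) (nat_lit 0) .nil)))))))) (.g (nat_lit 5) .nil .nil)))) (.nd (nat_lit 6) 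
(.lf (nat_lit 116031) (.g (nat_lit 1337) (.e (nat_lit 5943) (nat_lit 322) (.e (nat_lit 57377) (nat_lit 3) (.e (nat_lit 98365) (nat_lit 26) (.e (nat_lit 426188) (nat_lit 9) .nil)))) .nil)) 
(.lf (nat_lit 116095) (.g (nat_lit 1379) (.e (nat_lit 5944) (nat_lit 322) (.e (nat_lit 57378) (nat_lit 3) (.e (nat_lit 98380) (nat_lit 31) (.e (nat_lit 474880) (nat_lit 18) .nil)))) .nil)))))))))

noncomputable def tv1560 : DT := (.nd (nat_lit 0) (.nd (nat_lit 1) (.nd (nat_lit 2) (.nd (nat_lit 3) (.nd (nat_lit 4) (.nd (nat_lit 5) (.nd (nat_lit 6) 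
(.lf (nat_lit 116096) (.g (nat_lit 1377) (.e (nat_lit 5944) (nat_lit 322) (.e (nat_lit 57378) (nat_lit 3) (.e (nat_lit 98381) (nat_lit 31) (.e (nat_lit 474880) (nat_lit 18) .nil)))) .nil)) 
(.lf (nat_lit 116160) (.g (nat_lit 2657) (.e (nat_lit 5945) (nat_lit 322) (.e (nat_lit 57400) (nat_lit 10) (.e (nat_lit 319533) (nat_lit 16) (.e (nat_lit 286761) (nat_lit 13) (.e (nat_lit 393283) (nat_lit 24) (.e (nat_lit 434208) (nat_lit 18) .nil)))))) (.g (nat_lit 4) .nil .nil)))) (.nd (nat_lit 6) 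
(.lf (nat_lit 116128) (.g (nat_lit 3107) (.e (nat_lit 5944) (nat_lit 322) (.e (nat_lit 57447) (nat_lit 19) (.e (nat_lit 393301) (nat_lit 27) (.e (nat_lit 491526) (nat_lit 0) (.e (nat_lit 1848) (nat_lit 124) (.e (nat_lit 557104) (nat_lit 14) (.e (nat_lit 180231) (nat_lit 0) .nil))))))) (.g (nat_lit 5) .nil .nil))) 
(.lf (nat_lit 116192) (.g (nat_lit 1732) (.e (nat_lit 5945) (nat_lit 322) (.e (nat_lit 57424) (nat_lit 14) (.e (nat_lit 352318) (nat_lit 24) (.e (nat_lit 123197) (nat_lit 266) .nil)))) .nil)))) (.nd (nat_lit 5) (.nd (nat_lit 6) 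
(.lf (nat_lit 116112) (.g (nat_lit 1625) (.e (nat_lit 5944) (nat_lit 322) (.e (nat_lit 57424) (nat_lit 14) (.e (nat_lit 352318) (nat_lit 24) (.e (nat_lit 123197) (nat_lit 266) (.e (nat_lit 57427) (nat_lit 15) (.e (nat_lit 368384) (nat_lit 0) .nil)))))) (.g (nat_lit 4) .nil .nil))) 
(.lf (nat_lit 116176) (.g (nat_lit 4265) (.e (nat_lit 5945) (nat_lit 322) (.e (nat_lit 57412) (nat_lit 12) (.e (nat_lit 336389) (nat_lit 27) (.e (nat_lit 426011) (nat_lit 0) (.e (nat_lit 7581) (nat_lit 405) (.e (nat_lit 57477) (nat_lit 28) (.e (nat_lit 557104) (nat_lit 14) (.e (nat_lit 180227) (nat_lit 0) .nil)))))))) (.g (nat_lit 7) .nil .nil)))) (.nd (nat_lit 6) 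
(.lf (nat_lit 116144) (.g (nat_lit 934) (.e (nat_lit 5945) (nat_lit 322) (.e (nat_lit 57373) (nat_lit 2) (.e (nat_lit 90176) (nat_lit 15) .nil))) .nil)) 
(.lf (nat_lit 116208) (.g (nat_lit 2123) (.e (nat_lit 5945) (nat_lit 322) (.e (nat_lit 57447) (nat_lit 19) (.e (nat_lit 393234) (nat_lit 17) (.e (nat_lit 7581) (nat_lit 405) (.e (nat_lit 57477) (nat_lit 28) .nil))))) .nil))))) (.nd (nat_lit 4) (.nd (nat_lit 5) (.nd (nat_lit 6) 
(.lf (nat_lit 116104) (.g (nat_lit 2010) (.e (nat_lit 5944) (nat_lit 322) (.e (nat_lit 57412) (nat_lit 12) (.e (nat_lit 336193) (nat_lit 12) (.e (nat_lit 385106) (nat_lit 50) (.e (nat_lit 786481) (nat_lit 30) .nil))))) .nil)) 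
(.lf (nat_lit 116168) (.g (nat_lit 701) (.e (nat_lit 5945) (nat_lit 322) (.e (nat_lit 57409) (nat_lit 12) (.e (nat_lit 336430) (nat_lit 29) .nil))) .nil))) (.nd (nat_lit 6) 
(.lf (nat_lit 116136) (.g (nat_lit 913) (.e (nat_lit 5945) (nat_lit 322) (.e (nat_lit 57373) (nat_lit 2) (.e (nat_lit 90168) (nat_lit 13) .nil))) .nil)) 
(.lf (nat_lit 116200) (.g (nat_lit 2700) (.e (nat_lit 5945) (nat_lit 322) (.e (nat_lit 57445) (nat_lit 19) (.e (nat_lit 393234) (nat_lit 17) (.e (nat_lit 7581) (nat_lit 405) (.e (nat_lit 57476) (nat_lit 28) .nil))))) .nil)))) (.nd (nat_lit 5) (.nd (nat_lit 6) 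
(.lf (nat_lit 116120) (.g (nat_lit 2290) (.e (nat_lit 5944) (nat_lit 322) (.e (nat_lit 57447) (nat_lit 19) (.e (nat_lit 393271) (nat_lit 23) (.e (nat_lit 426131) (nat_lit 3) (.e (nat_lit 212736) (nat_lit 10) .nil))))) .nil)) 
(.lf (nat_lit 116184) (.g (nat_lit 2156) (.e (nat_lit 5945) (nat_lit 322) (.e (nat_lit 57412) (nat_lit 12) (.e (nat_lit 336389) (nat_lit 27) (.e (nat_lit 426012) (nat_lit 0) (.e (nat_lit 7581) (nat_lit 405) (.e (nat_lit 57480) (nat_lit 28) (.e (nat_lit 557103) (nat_lit 14) (.e (nat_lit 180227) (nat_lit 0) .nil)))))))) (.g (nat_lit 4) .nil .nil)))) (.nd (nat_lit 6) 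
(.lf (nat_lit 116152) (.g (nat_lit 4175) (.e (nat_lit 5945) (nat_lit 322) (.e (nat_lit 57378) (nat_lit 3) (.e (nat_lit 98373) (nat_lit 29) (.e (nat_lit 450562) (nat_lit 0) (.e (nat_lit 6595) (nat_lit 351) .nil))))) .nil)) 
(.lf (nat_lit 116216) (.g (nat_lit 2210) (.e (nat_lit 5946) (nat_lit 322) (.e (nat_lit 57347) (nat_lit 0) (.e (nat_lit 2031) (nat_lit 140) (.e (nat_lit 688177) (nat_lit 16) (.e (nat_lit 65586) (nat_lit 7) (.e (nat_lit 319531) (nat_lit 16) (.e (nat_lit 286748) (nat_lit 9) (.e (nat_lit 335915) (nat_lit 0) (.e (nat_lit 1097) (nat_lit 81) .nil))))))))) (.g (nat_lit 4) .nil .nil))))))) 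
(.nd (nat_lit 3) (.nd (nat_lit 4) (.nd (nat_lit 5) (.nd (nat_lit 6) 
(.lf (nat_lit 116100) (.g (nat_lit 1276) (.e (nat_lit 5944) (nat_lit 322) (.e (nat_lit 57412) (nat_lit 12) (.e (nat_lit 336061) (nat_lit 7) (.e (nat_lit 319539) (nat_lit 19) .nil)))) .nil)) 
(.lf (nat_lit 116164) (.g (nat_lit 2109) (.e (nat_lit 5945) (nat_lit 322) (.e (nat_lit 57400) (nat_lit 10) (.e (nat_lit 319534) (nat_lit 16) (.e (nat_lit 286761) (nat_lit 13) (.e (nat_lit 393284) (nat_lit 24) .nil))))) .nil))) (.nd (nat_lit 6) 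
(.lf (nat_lit 116132) (.g (nat_lit 2221) (.e (nat_lit 5945) (nat_lit 322) (.e (nat_lit 57371) (nat_lit 2) (.e (nat_lit 90172) (nat_lit 14) (.e (nat_lit 180244) (nat_lit 5) (.e (nat_lit 532515) (nat_lit 3) .nil))))) .nil)) 
(.lf (nat_lit 116196) (.g (nat_lit 2517) (.e (nat_lit 5945) (nat_lit 322) (.e (nat_lit 57445) (nat_lit 19) (.e (nat_lit 393232) (nat_lit 17) (.e (nat_lit 7581) (nat_lit 405) (.e (nat_lit 57477) (nat_lit 28) (.e (nat_lit 557104) (nat_lit 14) (.e (nat_lit 180227) (nat_lit 0) .nil))))))) (.g (nat_lit 4) .nil .nil))))) (.nd (nat_lit 5) (.nd (nat_lit 6) 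
(.lf (nat_lit 116116) (.g (nat_lit 1271) (.e (nat_lit 5944) (nat_lit 322) (.e (nat_lit 57447) (nat_lit 19) (.e (nat_lit 393232) (nat_lit 17) .nil))) .nil)) 
(.lf (nat_lit 116180) (.g (nat_lit 2971) (.e (nat_lit 5945) (nat_lit 322) (.e (nat_lit 57412) (nat_lit 12) (.e (nat_lit 336389) (nat_lit 27) (.e (nat_lit 426012) (nat_lit 0) (.e (nat_lit 7581) (nat_lit 405) (.e (nat_lit 57476) (nat_lit 28) (.e (nat_lit 557103) (nat_lit 14) (.e (nat_lit 180225) (nat_lit 0) .nil)))))))) (.g (nat_lit 5) .nil .nil)))) (.nd (nat_lit 6) 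
(.lf (nat_lit 116148) (.g (nat_lit 2165) (.e (nat_lit 5945) (nat_lit 322) (.e (nat_lit 57373) (nat_lit 2) (.e (nat_lit 90185) (nat_lit 17) (.e (nat_lit 237620) (nat_lit 13) (.e (nat_lit 491264) (nat_lit 10) .nil))))) .nil)) 
(.lf (nat_lit 116212) (.g (nat_lit 2590) (.e (nat_lit 5945) (nat_lit 322) (.e (nat_lit 57447) (nat_lit 19) (.e (nat_lit 393301) (nat_lit 27) (.e (nat_lit 491526) (nat_lit 0) (.e (nat_lit 1848) (nat_lit 124) .nil))))) .nil))))) (.nd (nat_lit 4) (.nd (nat_lit 5) (.nd (nat_lit 6) 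
(.lf (nat_lit 116108) (.g (nat_lit 710) (.e (nat_lit 5944) (nat_lit 322) (.e (nat_lit 57424) (nat_lit 14) (.e (nat_lit 352270) (nat_lit 8) .nil))) .nil)) 
(.lf (nat_lit 116172) (.g (nat_lit 2404) (.e (nat_lit 5945) (nat_lit 322) (.e (nat_lit 57409) (nat_lit 12) (.e (nat_lit 336443) (nat_lit 32) (.e (nat_lit 466979) (nat_lit 23) (.e (nat_lit 212736) (nat_lit 10) (.e (nat_lit 434208) (nat_lit 18) .nil)))))) (.g (nat_lit 4) .nil .nil)))) (.nd (nat_lit 6) 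
(.lf (nat_lit 116140) (.g (nat_lit 2336) (.e (nat_lit 5945) (nat_lit 322) (.e (nat_lit 57373) (nat_lit 2) (.e (nat_lit 90170) (nat_lit 13) (.e (nat_lit 172121) (nat_lit 13) .nil)))) .nil)) 
(.lf (nat_lit 116204) (.g (nat_lit 1760) (.e (nat_lit 5945) (nat_lit 322) (.e (nat_lit 57445) (nat_lit 19) (.e (nat_lit 393234) (nat_lit 17) (.e (nat_lit 7583) (nat_lit 405) .nil)))) .nil)))) (.nd (nat_lit 5) (.nd (nat_lit 6) 
(.lf (nat_lit 116124) (.g (nat_lit 2571) (.e (nat_lit 5944) (nat_lit 322) (.e (nat_lit 57447) (nat_lit 19) (.e (nat_lit 393281) (nat_lit 23) (.e (nat_lit 426116) (nat_lit 2) (.e (nat_lit 196656) (nat_lit 11) (.e (nat_lit 16392) (nat_lit 0) (.e (nat_lit 2404) (nat_lit 157) .nil))))))) (.g (nat_lit 5) .nil .nil))) 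
(.lf (nat_lit 116188) (.g (nat_lit 3779) (.e (nat_lit 5945) (nat_lit 322) (.e (nat_lit 57421) (nat_lit 13) (.e (nat_lit 344177) (nat_lit 43) (.e (nat_lit 770073) (nat_lit 9) (.e (nat_lit 73754) (nat_lit 8) (.e (nat_lit 557105) (nat_lit 14) (.e (nat_lit 180227) (nat_lit 0) .nil))))))) (.g (nat_lit 7) .nil .nil)))) (.nd (nat_lit 6) 
(.lf (nat_lit 116156) (.g (nat_lit 1551) (.e (nat_lit 5945) (nat_lit 322) (.e (nat_lit 57400) (nat_lit 10) (.e (nat_lit 319531) (nat_lit 16) (.e (nat_lit 286743) (nat_lit 9) (.e (nat_lit 336433) (nat_lit 30) .nil))))) .nil)) 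
(.lf (nat_lit 116220) (.g (nat_lit 2193) (.e (nat_lit 5946) (nat_lit 322) (.e (nat_lit 57371) (nat_lit 2) (.e (nat_lit 90172) (nat_lit 14) (.e (nat_lit 180244) (nat_lit 5) (.e (nat_lit 532513) (nat_lit 3) .nil))))) .nil))))))) (.nd (nat_lit 2) (.nd (nat_lit 3) (.nd (nat_lit 4) (.nd (nat_lit 5) (.nd (nat_lit 6) 
(.lf (nat_lit 116098) (.g (nat_lit 2646) (.e (nat_lit 5944) (nat_lit 322) (.e (nat_lit 57409) (nat_lit 12) (.e (nat_lit 336443) (nat_lit 32) (.e (nat_lit 466974) (nat_lit 22) (.e (nat_lit 196624) (nat_lit 9) (.e (nat_lit 442) (nat_lit 33) (.e (nat_lit 434214) (nat_lit 18) .nil))))))) (.g (nat_lit 4) .nil .nil))) 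
(.lf (nat_lit 116162) (.g (nat_lit 1783) (.e (nat_lit 5945) (nat_lit 322) (.e (nat_lit 57400) (nat_lit 10) (.e (nat_lit 319534) (nat_lit 16) (.e (nat_lit 286742) (nat_lit 9) .nil)))) .nil))) (.nd (nat_lit 6) 
(.lf (nat_lit 116130) (.g (nat_lit 1215) (.e (nat_lit 5945) (nat_lit 322) (.e (nat_lit 57370) (nat_lit 2) (.e (nat_lit 90185) (nat_lit 17) (.e (nat_lit 237623) (nat_lit 13) .nil)))) .nil)) 
(.lf (nat_lit 116194) (.g (nat_lit 1603) (.e (nat_lit 5945) (nat_lit 322) (.e (nat_lit 57445) (nat_lit 19) (.e (nat_lit 393231) (nat_lit 17) (.e (nat_lit 7581) (nat_lit 405) (.e (nat_lit 57480) (nat_lit 28) .nil))))) .nil)))) (.nd (nat_lit 5) (.nd (nat_lit 6) 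
(.lf (nat_lit 116114) (.g (nat_lit 1648) (.e (nat_lit 5944) (nat_lit 322) (.e (nat_lit 57424) (nat_lit 14) (.e (nat_lit 352318) (nat_lit 24) (.e (nat_lit 123199) (nat_lit 267) .nil)))) .nil)) 
(.lf (nat_lit 116178) (.g (nat_lit 5393) (.e (nat_lit 5945) (nat_lit 322) (.e (nat_lit 57412) (nat_lit 12) (.e (nat_lit 336389) (nat_lit 27) (.e (nat_lit 426011) (nat_lit 0) (.e (nat_lit 7581) (nat_lit 405) (.e (nat_lit 57480) (nat_lit 28) (.e (nat_lit 557105) (nat_lit 14) (.e (nat_lit 180227) (nat_lit 0) .nil)))))))) (.g (nat_lit 0) .nil .nil)))) (.nd (nat_lit 6) 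
(.lf (nat_lit 116146) (.g (nat_lit 2241) (.e (nat_lit 5945) (nat_lit 322) (.e (nat_lit 57373) (nat_lit 2) (.e (nat_lit 90178) (nat_lit 15) (.e (nat_lit 188459) (nat_lit 26) .nil)))) .nil)) 
(.lf (nat_lit 116210) (.g (nat_lit 1044) (.e (nat_lit 5945) (nat_lit 322) (.e (nat_lit 57447) (nat_lit 19) (.e (nat_lit 393271) (nat_lit 23) .nil))) .nil))))) (.nd (nat_lit 4) (.nd (nat_lit 5) (.nd (nat_lit 6) 
(.lf (nat_lit 116106) (.g (nat_lit 2147) (.e (nat_lit 5944) (nat_lit 322) (.e (nat_lit 57412) (nat_lit 12) (.e (nat_lit 336193) (nat_lit 12) (.e (nat_lit 385106) (nat_lit 50) (.e (nat_lit 786483) (nat_lit 30) (.e (nat_lit 368384) (nat_lit 0) .nil)))))) (.g (nat_lit 4) .nil .nil))) 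
(.lf (nat_lit 116170) (.g (nat_lit 1343) (.e (nat_lit 5945) (nat_lit 322) (.e (nat_lit 57409) (nat_lit 12) (.e (nat_lit 336438) (nat_lit 31) (.e (nat_lit 466688) (nat_lit 3) .nil)))) .nil))) (.nd (nat_lit 6) 
(.lf (nat_lit 116138) (.g (nat_lit 3404) (.e (nat_lit 5945) (nat_lit 322) (.e (nat_lit 57373) (nat_lit 2) (.e (nat_lit 90170) (nat_lit 13) (.e (nat_lit 172113) (nat_lit 10) (.e (nat_lit 434207) (nat_lit 18) .nil))))) .nil)) 
(.lf (nat_lit 116202) (.g (nat_lit 2344) (.e (nat_lit 5945) (nat_lit 322) (.e (nat_lit 57445) (nat_lit 19) (.e (nat_lit 393234) (nat_lit 17) (.e (nat_lit 7581) (nat_lit 405) (.e (nat_lit 57480) (nat_lit 28) .nil))))) .nil)))) (.nd (nat_lit 5) (.nd (nat_lit 6) 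
(.lf (nat_lit 116122) (.g (nat_lit 2543) (.e (nat_lit 5944) (nat_lit 322) (.e (nat_lit 57447) (nat_lit 19) (.e (nat_lit 393281) (nat_lit 23) (.e (nat_lit 426115) (nat_lit 2) (.e (nat_lit 196656) (nat_lit 11) (.e (nat_lit 16392) (nat_lit 0) (.e (nat_lit 2506) (nat_lit 157) .nil))))))) (.g (nat_lit 6) .nil .nil))) 
(.lf (nat_lit 116186) (.g (nat_lit 1996) (.e (nat_lit 5945) (nat_lit 322) (.e (nat_lit 57412) (nat_lit 12) (.e (nat_lit 336389) (nat_lit 27) (.e (nat_lit 426012) (nat_lit 0) (.e (nat_lit 7583) (nat_lit 405) .nil))))) .nil))) (.nd (nat_lit 6) 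
(.lf (nat_lit 116154) (.g (nat_lit 1441) (.e (nat_lit 5945) (nat_lit 322) (.e (nat_lit 57399) (nat_lit 10) (.e (nat_lit 319531) (nat_lit 16) (.e (nat_lit 286743) (nat_lit 9) (.e (nat_lit 336433) (nat_lit 30) (.e (nat_lit 450563) (nat_lit 0) .nil)))))) (.g (nat_lit 4) .nil .nil))) 
(.lf (nat_lit 116218) (.g (nat_lit 2425) (.e (nat_lit 5946) (nat_lit 322) (.e (nat_lit 57354) (nat_lit 0) (.e (nat_lit 6114) (nat_lit 332) (.e (nat_lit 1370) (nat_lit 103) (.e (nat_lit 294941) (nat_lit 9) .nil))))) .nil)))))) (.nd (nat_lit 3) (.nd (nat_lit 4) (.nd (nat_lit 5) (.nd (nat_lit 6) 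
(.lf (nat_lit 116102) (.g (nat_lit 2949) (.e (nat_lit 5944) (nat_lit 322) (.e (nat_lit 57412) (nat_lit 12) (.e (nat_lit 336193) (nat_lit 12) (.e (nat_lit 385105) (nat_lit 50) (.e (nat_lit 786481) (nat_lit 30) (.e (nat_lit 368384) (nat_lit 0) .nil)))))) (.g (nat_lit 5) .nil .nil))) 
(.lf (nat_lit 116166) (.g (nat_lit 913) (.e (nat_lit 5945) (nat_lit 322) (.e (nat_lit 57406) (nat_lit 12) (.e (nat_lit 336438) (nat_lit 31) .nil))) .nil))) (.nd (nat_lit 6) 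
(.lf (nat_lit 116134) (.g (nat_lit 2310) (.e (nat_lit 5945) (nat_lit 322) (.e (nat_lit 57371) (nat_lit 2) (.e (nat_lit 90185) (nat_lit 17) (.e (nat_lit 237620) (nat_lit 13) .nil)))) .nil)) 
(.lf (nat_lit 116198) (.g (nat_lit 3646) (.e (nat_lit 5945) (nat_lit 322) (.e (nat_lit 57445) (nat_lit 19) (.e (nat_lit 393232) (nat_lit 17) (.e (nat_lit 7581) (nat_lit 405) (.e (nat_lit 57480) (nat_lit 28) (.e (nat_lit 557105) (nat_lit 14) (.e (nat_lit 180227) (nat_lit 0) .nil))))))) (.g (nat_lit 6) .nil .nil))))) (.nd (nat_lit 5) (.nd (nat_lit 6) 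
(.lf (nat_lit 116118) (.g (nat_lit 2535) (.e (nat_lit 5944) (nat_lit 322) (.e (nat_lit 57447) (nat_lit 19) (.e (nat_lit 393234) (nat_lit 17) (.e (nat_lit 7583) (nat_lit 405) (.e (nat_lit 57476) (nat_lit 28) (.e (nat_lit 557103) (nat_lit 14) (.e (nat_lit 180231) (nat_lit 0) .nil))))))) (.g (nat_lit 5) .nil .nil))) 
(.lf (nat_lit 116182) (.g (nat_lit 2859) (.e (nat_lit 5945) (nat_lit 322) (.e (nat_lit 57412) (nat_lit 12) (.e (nat_lit 336389) (nat_lit 27) (.e (nat_lit 426012) (nat_lit 0) (.e (nat_lit 7581) (nat_lit 405) (.e (nat_lit 57477) (nat_lit 28) (.e (nat_lit 557104) (nat_lit 14) (.e (nat_lit 180226) (nat_lit 0) .nil)))))))) (.g (nat_lit 5) .nil .nil)))) (.nd (nat_lit 6) 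
(.lf (nat_lit 116150) (.g (nat_lit 2106) (.e (nat_lit 5945) (nat_lit 322) (.e (nat_lit 57378) (nat_lit 3) (.e (nat_lit 98365) (nat_lit 26) (.e (nat_lit 426188) (nat_lit 9) .nil)))) .nil)) 
(.lf (nat_lit 116214) (.g (nat_lit 2739) (.e (nat_lit 5945) (nat_lit 322) (.e (nat_lit 57450) (nat_lit 20) (.e (nat_lit 401454) (nat_lit 12) (.e (nat_lit 475207) (nat_lit 41) (.e (nat_lit 712755) (nat_lit 30) (.e (nat_lit 450563) (nat_lit 0) .nil)))))) (.g (nat_lit 6) .nil .nil)))))) (.nd (nat_lit 4) (.nd (nat_lit 5) (.nd (nat_lit 6) 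
(.lf (nat_lit 116110) (.g (nat_lit 2752) (.e (nat_lit 5944) (nat_lit 322) (.e (nat_lit 57424) (nat_lit 14) (.e (nat_lit 352318) (nat_lit 24) (.e (nat_lit 123197) (nat_lit 266) (.e (nat_lit 57426) (nat_lit 15) (.e (nat_lit 360455) (nat_lit 0) .nil)))))) (.g (nat_lit 0) .nil .nil))) 
(.lf (nat_lit 116174) (.g (nat_lit 511) (.e (nat_lit 5945) (nat_lit 322) (.e (nat_lit 57412) (nat_lit 12) (.e (nat_lit 336389) (nat_lit 27) .nil))) .nil))) (.nd (nat_lit 6) 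
(.lf (nat_lit 116142) (.g (nat_lit 1892) (.e (nat_lit 5945) (nat_lit 322) (.e (nat_lit 57373) (nat_lit 2) (.e (nat_lit 90172) (nat_lit 14) (.e (nat_lit 180244) (nat_lit 5) .nil)))) .nil)) 
(.lf (nat_lit 116206) (.g (nat_lit 970) (.e (nat_lit 5945) (nat_lit 322) (.e (nat_lit 57445) (nat_lit 19) (.e (nat_lit 393281) (nat_lit 23) (.e (nat_lit 426133) (nat_lit 3) .nil)))) .nil)))) (.nd (nat_lit 5) (.nd (nat_lit 6) 
(.lf (nat_lit 116126) (.g (nat_lit 2566) (.e (nat_lit 5944) (nat_lit 322) (.e (nat_lit 57447) (nat_lit 19) (.e (nat_lit 393281) (nat_lit 23) (.e (nat_lit 426116) (nat_lit 2) (.e (nat_lit 196656) (nat_lit 11) (.e (nat_lit 16392) (nat_lit 0) (.e (nat_lit 2507) (nat_lit 157) .nil))))))) (.g (nat_lit 5) .nil .nil))) 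
(.lf (nat_lit 116190) (.g (nat_lit 909) (.e (nat_lit 5945) (nat_lit 322) (.e (nat_lit 57424) (nat_lit 14) (.e (nat_lit 352270) (nat_lit 8) .nil))) .nil))) (.nd (nat_lit 6) 
(.lf (nat_lit 116158) (.g (nat_lit 1388) (.e (nat_lit 5945) (nat_lit 322) (.e (nat_lit 57400) (nat_lit 10) (.e (nat_lit 319533) (nat_lit 16) (.e (nat_lit 286743) (nat_lit 9) .nil)))) .nil)) 
(.lf (nat_lit 116222) (.g (nat_lit 2399) (.e (nat_lit 5946) (nat_lit 322) (.e (nat_lit 57371) (nat_lit 2) (.e (nat_lit 90172) (nat_lit 14) (.e (nat_lit 180244) (nat_lit 5) (.e (nat_lit 532513) (nat_lit 3) (.e (nat_lit 114719) (nat_lit 23) (.e (nat_lit 98325) (nat_lit 17) (.e (nat_lit 2515) (nat_lit 157) .nil)))))))) (.g (nat_lit 4) .nil .nil))))))))) 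
(.nd (nat_lit 1) (.nd (nat_lit 2) (.nd (nat_lit 3) (.nd (nat_lit 4) (.nd (nat_lit 5) 
(.nd (nat_lit 6) 
(.lf (nat_lit 116097) (.g (nat_lit 517) (.e (nat_lit 5944) (nat_lit 322) (.e (nat_lit 57409) (nat_lit 12) (.e (nat_lit 336208) (nat_lit 12) .nil))) .nil)) 
(.lf (nat_lit 116161) (.g (nat_lit 2187) (.e (nat_lit 5945) (nat_lit 322) (.e (nat_lit 57400) (nat_lit 10) (.e (nat_lit 319533) (nat_lit 16) (.e (nat_lit 286761) (nat_lit 13) (.e (nat_lit 393284) (nat_lit 24) .nil))))) .nil))) (.nd (nat_lit 6) 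
(.lf (nat_lit 116129) (.g (nat_lit 1374) (.e (nat_lit 5945) (nat_lit 322) (.e (nat_lit 57354) (nat_lit 0) (.e (nat_lit 6114) (nat_lit 332) (.e (nat_lit 1370) (nat_lit 103) .nil)))) .nil)) 
(.lf (nat_lit 116193) (.g (nat_lit 822) (.e (nat_lit 5945) (nat_lit 322) (.e (nat_lit 57445) (nat_lit 19) (.e (nat_lit 393231) (nat_lit 17) .nil))) .nil)))) (.nd (nat_lit 5) (.nd (nat_lit 6) 
(.lf (nat_lit 116113) (.g (nat_lit 2649) (.e (nat_lit 5944) (nat_lit 322) (.e (nat_lit 57424) (nat_lit 14) (.e (nat_lit 352318) (nat_lit 24) (.e (nat_lit 123198) (nat_lit 266) (.e (nat_lit 57427) (nat_lit 15) (.e (nat_lit 360455) (nat_lit 0) .nil)))))) (.g (nat_lit 5) .nil .nil))) 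
(.lf (nat_lit 116177) (.g (nat_lit 2496) (.e (nat_lit 5945) (nat_lit 322) (.e (nat_lit 57412) (nat_lit 12) (.e (nat_lit 336389) (nat_lit 27) (.e (nat_lit 426011) (nat_lit 0) (.e (nat_lit 7581) (nat_lit 405) (.e (nat_lit 57480) (nat_lit 28) (.e (nat_lit 557103) (nat_lit 14) (.e (nat_lit 180227) (nat_lit 0) .nil)))))))) (.g (nat_lit 4) .nil .nil)))) (.nd (nat_lit 6) 
(.lf (nat_lit 116145) (.g (nat_lit 842) (.e (nat_lit 5945) (nat_lit 322) (.e (nat_lit 57373) (nat_lit 2) (.e (nat_lit 90178) (nat_lit 15) .nil))) .nil)) 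
(.lf (nat_lit 116209) (.g (nat_lit 1712) (.e (nat_lit 5945) (nat_lit 322) (.e (nat_lit 57447) (nat_lit 19) (.e (nat_lit 393234) (nat_lit 17) (.e (nat_lit 7583) (nat_lit 405) (.e (nat_lit 57476) (nat_lit 28) .nil))))) .nil))))) (.nd (nat_lit 4) (.nd (nat_lit 5) (.nd (nat_lit 6) 
(.lf (nat_lit 116105) (.g (nat_lit 2133) (.e (nat_lit 5944) (nat_lit 322) (.e (nat_lit 57412) (nat_lit 12) (.e (nat_lit 336193) (nat_lit 12) (.e (nat_lit 385106) (nat_lit 50) (.e (nat_lit 786481) (nat_lit 30) (.e (nat_lit 368384) (nat_lit 0) .nil)))))) (.g (nat_lit 4) .nil .nil))) 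
(.lf (nat_lit 116169) (.g (nat_lit 1393) (.e (nat_lit 5945) (nat_lit 322) (.e (nat_lit 57409) (nat_lit 12) (.e (nat_lit 336430) (nat_lit 29) (.e (nat_lit 442427) (nat_lit 23) .nil)))) .nil))) (.nd (nat_lit 6) 
(.lf (nat_lit 116137) (.g (nat_lit 3332) (.e (nat_lit 5945) (nat_lit 322) (.e (nat_lit 57373) (nat_lit 2) (.e (nat_lit 90170) (nat_lit 13) (.e (nat_lit 172113) (nat_lit 10) (.e (nat_lit 434203) (nat_lit 18) .nil))))) .nil)) 
(.lf (nat_lit 116201) (.g (nat_lit 2613) (.e (nat_lit 5945) (nat_lit 322) (.e (nat_lit 57445) (nat_lit 19) (.e (nat_lit 393234) (nat_lit 17) (.e (nat_lit 7581) (nat_lit 405) (.e (nat_lit 57477) (nat_lit 28) (.e (nat_lit 557104) (nat_lit 14) (.e (nat_lit 180227) (nat_lit 0) .nil))))))) (.g (nat_lit 4) .nil .nil))))) (.nd (nat_lit 5) (.nd (nat_lit 6) 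
(.lf (nat_lit 116121) (.g (nat_lit 2003) (.e (nat_lit 5944) (nat_lit 322) (.e (nat_lit 57447) (nat_lit 19) (.e (nat_lit 393281) (nat_lit 23) (.e (nat_lit 426115) (nat_lit 2) (.e (nat_lit 196656) (nat_lit 11) (.e (nat_lit 16392) (nat_lit 0) (.e (nat_lit 2404) (nat_lit 157) .nil))))))) (.g (nat_lit 5) .nil .nil))) 
(.lf (nat_lit 116185) (.g (nat_lit 5012) (.e (nat_lit 5945) (nat_lit 322) (.e (nat_lit 57412) (nat_lit 12) (.e (nat_lit 336389) (nat_lit 27) (.e (nat_lit 426012) (nat_lit 0) (.e (nat_lit 7581) (nat_lit 405) (.e (nat_lit 57480) (nat_lit 28) (.e (nat_lit 557105) (nat_lit 14) (.e (nat_lit 180227) (nat_lit 0) .nil)))))))) (.g (nat_lit 0) .nil .nil)))) (.nd (nat_lit 6) 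
(.lf (nat_lit 116153) (.g (nat_lit 4236) (.e (nat_lit 5945) (nat_lit 322) (.e (nat_lit 57378) (nat_lit 3) (.e (nat_lit 98373) (nat_lit 29) (.e (nat_lit 450563) (nat_lit 0) (.e (nat_lit 6595) (nat_lit 351) .nil))))) .nil)) 
(.lf (nat_lit 116217) (.g (nat_lit 1271) (.e (nat_lit 5946) (nat_lit 322) (.e (nat_lit 57354) (nat_lit 0) (.e (nat_lit 6114) (nat_lit 332) (.e (nat_lit 1370) (nat_lit 103) .nil)))) .nil)))))) (.nd (nat_lit 3) (.nd (nat_lit 4) (.nd (nat_lit 5) (.nd (nat_lit 6) 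
(.lf (nat_lit 116101) (.g (nat_lit 2835) (.e (nat_lit 5944) (nat_lit 322) (.e (nat_lit 57412) (nat_lit 12) (.e (nat_lit 336193) (nat_lit 12) (.e (nat_lit 385105) (nat_lit 50) (.e (nat_lit 786481) (nat_lit 30) (.e (nat_lit 360455) (nat_lit 0) .nil)))))) (.g (nat_lit 5) .nil .nil))) 
(.lf (nat_lit 116165) (.g (nat_lit 380) (.e (nat_lit 5945) (nat_lit 322) (.e (nat_lit 57400) (nat_lit 10) (.e (nat_lit 327424) (nat_lit 16) .nil))) .nil))) (.nd (nat_lit 6) 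
(.lf (nat_lit 116133) (.g (nat_lit 1364) (.e (nat_lit 5945) (nat_lit 322) (.e (nat_lit 57371) (nat_lit 2) (.e (nat_lit 90176) (nat_lit 15) (.e (nat_lit 188459) (nat_lit 26) .nil)))) .nil)) 
(.lf (nat_lit 116197) (.g (nat_lit 2296) (.e (nat_lit 5945) (nat_lit 322) (.e (nat_lit 57445) (nat_lit 19) (.e (nat_lit 393232) (nat_lit 17) (.e (nat_lit 7581) (nat_lit 405) (.e (nat_lit 57480) (nat_lit 28) (.e (nat_lit 557105) (nat_lit 14) (.e (nat_lit 180226) (nat_lit 0) .nil))))))) (.g (nat_lit 4) .nil .nil))))) (.nd (nat_lit 5) (.nd (nat_lit 6) 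
(.lf (nat_lit 116117) (.g (nat_lit 2725) (.e (nat_lit 5944) (nat_lit 322) (.e (nat_lit 57447) (nat_lit 19) (.e (nat_lit 393234) (nat_lit 17) (.e (nat_lit 7581) (nat_lit 405) (.e (nat_lit 57480) (nat_lit 28) (.e (nat_lit 557105) (nat_lit 14) (.e (nat_lit 180231) (nat_lit 0) .nil))))))) (.g (nat_lit 5) .nil .nil))) 
(.lf (nat_lit 116181) (.g (nat_lit 3477) (.e (nat_lit 5945) (nat_lit 322) (.e (nat_lit 57412) (nat_lit 12) (.e (nat_lit 336389) (nat_lit 27) (.e (nat_lit 426012) (nat_lit 0) (.e (nat_lit 7581) (nat_lit 405) (.e (nat_lit 57476) (nat_lit 28) (.e (nat_lit 557104) (nat_lit 14) (.e (nat_lit 180227) (nat_lit 0) .nil)))))))) (.g (nat_lit 6) .nil .nil)))) (.nd (nat_lit 6) 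
(.lf (nat_lit 116149) (.g (nat_lit 2098) (.e (nat_lit 5945) (nat_lit 322) (.e (nat_lit 57378) (nat_lit 3) (.e (nat_lit 98365) (nat_lit 26) (.e (nat_lit 426187) (nat_lit 9) .nil)))) .nil)) 
(.lf (nat_lit 116213) (.g (nat_lit 2448) (.e (nat_lit 5945) (nat_lit 322) (.e (nat_lit 57449) (nat_lit 20) (.e (nat_lit 401454) (nat_lit 12) (.e (nat_lit 475207) (nat_lit 41) (.e (nat_lit 712755) (nat_lit 30) (.e (nat_lit 450563) (nat_lit 0) .nil)))))) (.g (nat_lit 0) .nil .nil)))))) (.nd (nat_lit 4) (.nd (nat_lit 5) (.nd (nat_lit 6) 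
(.lf (nat_lit 116109) (.g (nat_lit 938) (.e (nat_lit 5944) (nat_lit 322) (.e (nat_lit 57424) (nat_lit 14) (.e (nat_lit 352318) (nat_lit 24) (.e (nat_lit 123183) (nat_lit 264) .nil)))) .nil)) 
(.lf (nat_lit 116173) (.g (nat_lit 945) (.e (nat_lit 5945) (nat_lit 322) (.e (nat_lit 57412) (nat_lit 12) (.e (nat_lit 335985) (nat_lit 1) (.e (nat_lit 57655) (nat_lit 152) .nil)))) .nil))) (.nd (nat_lit 6) 
(.lf (nat_lit 116141) (.g (nat_lit 2366) (.e (nat_lit 5945) (nat_lit 322) (.e (nat_lit 57373) (nat_lit 2) (.e (nat_lit 90170) (nat_lit 13) (.e (nat_lit 172123) (nat_lit 13) (.e (nat_lit 491264) (nat_lit 10) .nil))))) .nil)) 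
(.lf (nat_lit 116205) (.g (nat_lit 823) (.e (nat_lit 5945) (nat_lit 322) (.e (nat_lit 57445) (nat_lit 19) (.e (nat_lit 393270) (nat_lit 23) .nil))) .nil)))) (.nd (nat_lit 5) (.nd (nat_lit 6) 
(.lf (nat_lit 116125) (.g (nat_lit 3093) (.e (nat_lit 5944) (nat_lit 322) (.e (nat_lit 57447) (nat_lit 19) (.e (nat_lit 393281) (nat_lit 23) (.e (nat_lit 426116) (nat_lit 2) (.e (nat_lit 196656) (nat_lit 11) (.e (nat_lit 16392) (nat_lit 0) (.e (nat_lit 2506) (nat_lit 157) .nil))))))) (.g (nat_lit 6) .nil .nil))) 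
(.lf (nat_lit 116189) (.g (nat_lit 3109) (.e (nat_lit 5945) (nat_lit 322) (.e (nat_lit 57421) (nat_lit 13) (.e (nat_lit 344177) (nat_lit 43) (.e (nat_lit 770073) (nat_lit 9) (.e (nat_lit 73755) (nat_lit 8) (.e (nat_lit 557105) (nat_lit 14) (.e (nat_lit 180227) (nat_lit 0) .nil))))))) (.g (nat_lit 6) .nil .nil)))) (.nd (nat_lit 6) 
(.lf (nat_lit 116157) (.g (nat_lit 1398) (.e (nat_lit 5945) (nat_lit 322) (.e (nat_lit 57400) (nat_lit 10) (.e (nat_lit 319533) (nat_lit 16) (.e (nat_lit 286742) (nat_lit 9) .nil)))) .nil)) 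
(.lf (nat_lit 116221) (.g (nat_lit 2310) (.e (nat_lit 5946) (nat_lit 322) (.e (nat_lit 57371) (nat_lit 2) (.e (nat_lit 90172) (nat_lit 14) (.e (nat_lit 180244) (nat_lit 5) (.e (nat_lit 532513) (nat_lit 3) (.e (nat_lit 114718) (nat_lit 23) (.e (nat_lit 98325) (nat_lit 17) (.e (nat_lit 2515) (nat_lit 157) .nil)))))))) (.g (nat_lit 4) .nil .nil)))))))) 
(.nd (nat_lit 2) (.nd (nat_lit 3) (.nd (nat_lit 4) (.nd (nat_lit 5) (.nd (nat_lit 6) 
(.lf (nat_lit 116099) (.g (nat_lit 3120) (.e (nat_lit 5944) (nat_lit 322) (.e (nat_lit 57409) (nat_lit 12) (.e (nat_lit 336443) (nat_lit 32) (.e (nat_lit 466977) (nat_lit 22) (.e (nat_lit 196624) (nat_lit 9) (.e (nat_lit 442) (nat_lit 33) (.e (nat_lit 434214) (nat_lit 18) .nil))))))) (.g (nat_lit 5) .nil .nil))) 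
(.lf (nat_lit 116163) (.g (nat_lit 1270) (.e (nat_lit 5945) (nat_lit 322) (.e (nat_lit 57400) (nat_lit 10) (.e (nat_lit 319534) (nat_lit 16) (.e (nat_lit 286743) (nat_lit 9) .nil)))) .nil))) (.nd (nat_lit 6) 
(.lf (nat_lit 116131) (.g (nat_lit 1760) (.e (nat_lit 5945) (nat_lit 322) (.e (nat_lit 57371) (nat_lit 2) (.e (nat_lit 90169) (nat_lit 13) (.e (nat_lit 172122) (nat_lit 13) (.e (nat_lit 491264) (nat_lit 10) .nil))))) .nil)) 
(.lf (nat_lit 116195) (.g (nat_lit 2496) (.e (nat_lit 5945) (nat_lit 322) (.e (nat_lit 57445) (nat_lit 19) (.e (nat_lit 393232) (nat_lit 17) (.e (nat_lit 7581) (nat_lit 405) (.e (nat_lit 57476) (nat_lit 28) .nil))))) .nil)))) (.nd (nat_lit 5) (.nd (nat_lit 6) 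
(.lf (nat_lit 116115) (.g (nat_lit 664) (.e (nat_lit 5944) (nat_lit 322) (.e (nat_lit 57427) (nat_lit 15) (.e (nat_lit 360456) (nat_lit 0) .nil))) .nil)) 
(.lf (nat_lit 116179) (.g (nat_lit 2044) (.e (nat_lit 5945) (nat_lit 322) (.e (nat_lit 57412) (nat_lit 12) (.e (nat_lit 336389) (nat_lit 27) (.e (nat_lit 426012) (nat_lit 0) (.e (nat_lit 7581) (nat_lit 405) .nil))))) .nil))) (.nd (nat_lit 6) 
(.lf (nat_lit 116147) (.g (nat_lit 2211) (.e (nat_lit 5945) (nat_lit 322) (.e (nat_lit 57373) (nat_lit 2) (.e (nat_lit 90178) (nat_lit 15) (.e (nat_lit 188461) (nat_lit 26) .nil)))) .nil)) 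
(.lf (nat_lit 116211) (.g (nat_lit 1964) (.e (nat_lit 5945) (nat_lit 322) (.e (nat_lit 57447) (nat_lit 19) (.e (nat_lit 393301) (nat_lit 27) (.e (nat_lit 491520) (nat_lit 0) .nil)))) .nil))))) (.nd (nat_lit 4) (.nd (nat_lit 5) (.nd (nat_lit 6) 
(.lf (nat_lit 116107) (.g (nat_lit 1936) (.e (nat_lit 5944) (nat_lit 322) (.e (nat_lit 57412) (nat_lit 12) (.e (nat_lit 336226) (nat_lit 14) (.e (nat_lit 401458) (nat_lit 13) (.e (nat_lit 483393) (nat_lit 23) .nil))))) .nil)) 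
(.lf (nat_lit 116171) (.g (nat_lit 931) (.e (nat_lit 5945) (nat_lit 322) (.e (nat_lit 57409) (nat_lit 12) (.e (nat_lit 336443) (nat_lit 32) .nil))) .nil))) (.nd (nat_lit 6) 
(.lf (nat_lit 116139) (.g (nat_lit 3332) (.e (nat_lit 5945) (nat_lit 322) (.e (nat_lit 57373) (nat_lit 2) (.e (nat_lit 90170) (nat_lit 13) (.e (nat_lit 172113) (nat_lit 10) (.e (nat_lit 434208) (nat_lit 18) .nil))))) .nil)) 
(.lf (nat_lit 116203) (.g (nat_lit 2602) (.e (nat_lit 5945) (nat_lit 322) (.e (nat_lit 57445) (nat_lit 19) (.e (nat_lit 393234) (nat_lit 17) (.e (nat_lit 7581) (nat_lit 405) (.e (nat_lit 57480) (nat_lit 28) (.e (nat_lit 557103) (nat_lit 14) (.e (nat_lit 180225) (nat_lit 0) .nil))))))) (.g (nat_lit 4) .nil .nil))))) (.nd (nat_lit 5) (.nd (nat_lit 6) 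
(.lf (nat_lit 116123) (.g (nat_lit 1983) (.e (nat_lit 5944) (nat_lit 322) (.e (nat_lit 57447) (nat_lit 19) (.e (nat_lit 393281) (nat_lit 23) (.e (nat_lit 426115) (nat_lit 2) (.e (nat_lit 196656) (nat_lit 11) (.e (nat_lit 16392) (nat_lit 0) (.e (nat_lit 2507) (nat_lit 157) .nil))))))) (.g (nat_lit 5) .nil .nil))) 
(.lf (nat_lit 116187) (.g (nat_lit 1115) (.e (nat_lit 5945) (nat_lit 322) (.e (nat_lit 57421) (nat_lit 13) (.e (nat_lit 344177) (nat_lit 43) (.e (nat_lit 770073) (nat_lit 9) .nil)))) .nil))) (.nd (nat_lit 6) 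
(.lf (nat_lit 116155) (.g (nat_lit 1288) (.e (nat_lit 5945) (nat_lit 322) (.e (nat_lit 57400) (nat_lit 10) (.e (nat_lit 319528) (nat_lit 16) (.e (nat_lit 286743) (nat_lit 9) (.e (nat_lit 336433) (nat_lit 30) .nil))))) .nil)) 
(.lf (nat_lit 116219) (.g (nat_lit 3583) (.e (nat_lit 5946) (nat_lit 322) (.e (nat_lit 57354) (nat_lit 0) (.e (nat_lit 6114) (nat_lit 332) (.e (nat_lit 1370) (nat_lit 103) (.e (nat_lit 294941) (nat_lit 9) (.e (nat_lit 336432) (nat_lit 30) (.e (nat_lit 450569) (nat_lit 0) .nil))))))) (.g (nat_lit 6) .nil .nil))))))) (.nd (nat_lit 3) (.nd (nat_lit 4) (.nd (nat_lit 5) (.nd (nat_lit 6) 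
(.lf (nat_lit 116103) (.g (nat_lit 2923) (.e (nat_lit 5944) (nat_lit 322) (.e (nat_lit 57412) (nat_lit 12) (.e (nat_lit 336193) (nat_lit 12) (.e (nat_lit 385105) (nat_lit 50) (.e (nat_lit 786483) (nat_lit 30) (.e (nat_lit 368384) (nat_lit 0) .nil)))))) (.g (nat_lit 5) .nil .nil))) 
(.lf (nat_lit 116167) (.g (nat_lit 1209) (.e (nat_lit 5945) (nat_lit 322) (.e (nat_lit 57409) (nat_lit 12) (.e (nat_lit 336421) (nat_lit 28) (.e (nat_lit 442112) (nat_lit 3) .nil)))) .nil))) (.nd (nat_lit 6) 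
(.lf (nat_lit 116135) (.g (nat_lit 2145) (.e (nat_lit 5945) (nat_lit 322) (.e (nat_lit 57371) (nat_lit 2) (.e (nat_lit 90185) (nat_lit 17) (.e (nat_lit 237624) (nat_lit 13) (.e (nat_lit 491264) (nat_lit 10) (.e (nat_lit 434208) (nat_lit 18) .nil)))))) (.g (nat_lit 4) .nil .nil))) 
(.lf (nat_lit 116199) (.g (nat_lit 3651) (.e (nat_lit 5945) (nat_lit 322) (.e (nat_lit 57445) (nat_lit 19) (.e (nat_lit 393233) (nat_lit 17) (.e (nat_lit 7581) (nat_lit 405) (.e (nat_lit 57480) (nat_lit 28) (.e (nat_lit 557105) (nat_lit 14) (.e (nat_lit 180227) (nat_lit 0) .nil))))))) (.g (nat_lit 7) .nil .nil))))) (.nd (nat_lit 5) (.nd (nat_lit 6) 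
(.lf (nat_lit 116119) (.g (nat_lit 1755) (.e (nat_lit 5944) (nat_lit 322) (.e (nat_lit 57447) (nat_lit 19) (.e (nat_lit 393271) (nat_lit 23) (.e (nat_lit 426128) (nat_lit 2) .nil)))) .nil)) 
(.lf (nat_lit 116183) (.g (nat_lit 3965) (.e (nat_lit 5945) (nat_lit 322) (.e (nat_lit 57412) (nat_lit 12) (.e (nat_lit 336389) (nat_lit 27) (.e (nat_lit 426012) (nat_lit 0) (.e (nat_lit 7581) (nat_lit 405) (.e (nat_lit 57477) (nat_lit 28) (.e (nat_lit 557104) (nat_lit 14) (.e (nat_lit 180227) (nat_lit 0) .nil)))))))) (.g (nat_lit 7) .nil .nil)))) (.nd (nat_lit 6) 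
(.lf (nat_lit 116151) (.g (nat_lit 2219) (.e (nat_lit 5945) (nat_lit 322) (.e (nat_lit 57378) (nat_lit 3) (.e (nat_lit 98365) (nat_lit 26) (.e (nat_lit 426334) (nat_lit 13) .nil)))) .nil)) 
(.lf (nat_lit 116215) (.g (nat_lit 2428) (.e (nat_lit 5945) (nat_lit 322) (.e (nat_lit 57450) (nat_lit 20) (.e (nat_lit 401454) (nat_lit 12) (.e (nat_lit 475208) (nat_lit 41) (.e (nat_lit 712755) (nat_lit 30) (.e (nat_lit 450563) (nat_lit 0) .nil)))))) (.g (nat_lit 4) .nil .nil)))))) (.nd (nat_lit 4) (.nd (nat_lit 5) (.nd (nat_lit 6) 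
(.lf (nat_lit 116111) (.g (nat_lit 2829) (.e (nat_lit 5944) (nat_lit 322) (.e (nat_lit 57424) (nat_lit 14) (.e (nat_lit 352318) (nat_lit 24) (.e (nat_lit 123197) (nat_lit 266) (.e (nat_lit 57427) (nat_lit 15) (.e (nat_lit 360455) (nat_lit 0) .nil)))))) (.g (nat_lit 0) .nil .nil))) 
(.lf (nat_lit 116175) (.g (nat_lit 2446) (.e (nat_lit 5945) (nat_lit 322) (.e (nat_lit 57412) (nat_lit 12) (.e (nat_lit 336389) (nat_lit 27) (.e (nat_lit 426011) (nat_lit 0) (.e (nat_lit 7581) (nat_lit 405) .nil))))) .nil))) (.nd (nat_lit 6) 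
(.lf (nat_lit 116143) (.g (nat_lit 1780) (.e (nat_lit 5945) (nat_lit 322) (.e (nat_lit 57373) (nat_lit 2) (.e (nat_lit 90174) (nat_lit 14) (.e (nat_lit 180243) (nat_lit 5) .nil)))) .nil)) 
(.lf (nat_lit 116207) (.g (nat_lit 2152) (.e (nat_lit 5945) (nat_lit 322) (.e (nat_lit 57447) (nat_lit 19) (.e (nat_lit 393234) (nat_lit 17) (.e (nat_lit 7581) (nat_lit 405) (.e (nat_lit 57476) (nat_lit 28) .nil))))) .nil)))) (.nd (nat_lit 5) (.nd (nat_lit 6) 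
(.lf (nat_lit 116127) (.g (nat_lit 3223) (.e (nat_lit 5944) (nat_lit 322) (.e (nat_lit 57447) (nat_lit 19) (.e (nat_lit 393301) (nat_lit 27) (.e (nat_lit 491526) (nat_lit 0) (.e (nat_lit 1848) (nat_lit 124) (.e (nat_lit 557103) (nat_lit 14) (.e (nat_lit 180231) (nat_lit 0) .nil))))))) (.g (nat_lit 5) .nil .nil))) 
(.lf (nat_lit 116191) (.g (nat_lit 583) (.e (nat_lit 5945) (nat_lit 322) (.e (nat_lit 57424) (nat_lit 14) (.e (nat_lit 352318) (nat_lit 24) .nil))) .nil))) (.nd (nat_lit 6) 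
(.lf (nat_lit 116159) (.g (nat_lit 2079) (.e (nat_lit 5945) (nat_lit 322) (.e (nat_lit 57400) (nat_lit 10) (.e (nat_lit 319533) (nat_lit 16) (.e (nat_lit 286743) (nat_lit 9) (.e (nat_lit 336433) (nat_lit 30) (.e (nat_lit 450563) (nat_lit 0) .nil)))))) (.g (nat_lit 4) .nil .nil))) 
(.lf (nat_lit 116223) (.g (nat_lit 2195) (.e (nat_lit 5946) (nat_lit 322) (.e (nat_lit 57371) (nat_lit 2) (.e (nat_lit 90172) (nat_lit 14) (.e (nat_lit 180244) (nat_lit 5) (.e (nat_lit 532515) (nat_lit 3) .nil))))) .nil)))))))))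

noncomputable def tv1561 : DT := (.nd (nat_lit 0) (.nd (nat_lit 1) (.nd (nat_lit 2) (.nd (nat_lit 3) (.nd (nat_lit 4) (.nd (nat_lit 5) (.nd (nat_lit 6) 
(.lf (nat_lit 116224) (.g (nat_lit 2511) (.e (nat_lit 5946) (nat_lit 322) (.e (nat_lit 57371) (nat_lit 2) (.e (nat_lit 90174) (nat_lit 14) (.e (nat_lit 180243) (nat_lit 5) (.e (nat_lit 532508) (nat_lit 2) .nil))))) .nil)) 
(.lf (nat_lit 116288) (.g (nat_lit 2792) (.e (nat_lit 5946) (nat_lit 322) (.e (nat_lit 57400) (nat_lit 10) (.e (nat_lit 319530) (nat_lit 16) (.e (nat_lit 286761) (nat_lit 13) (.e (nat_lit 393234) (nat_lit 17) (.e (nat_lit 7065) (nat_lit 377) (.e (nat_lit 1023) (nat_lit 81) (.e (nat_lit 65) (nat_lit 0) .nil)))))))) (.g (nat_lit 6) .nil .nil)))) (.nd (nat_lit 6) 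
(.lf (nat_lit 116256) (.g (nat_lit 643) (.e (nat_lit 5946) (nat_lit 322) (.e (nat_lit 57373) (nat_lit 2) (.e (nat_lit 90185) (nat_lit 17) .nil))) .nil)) 
(.lf (nat_lit 116320) (.g (nat_lit 1893) (.e (nat_lit 5946) (nat_lit 322) (.e (nat_lit 57400) (nat_lit 10) (.e (nat_lit 319533) (nat_lit 16) (.e (nat_lit 286761) (nat_lit 13) (.e (nat_lit 393265) (nat_lit 22) .nil))))) .nil)))) (.nd (nat_lit 5) (.nd (nat_lit 6) 
(.lf (nat_lit 116240) (.g (nat_lit 2558) (.e (nat_lit 5946) (nat_lit 322) (.e (nat_lit 57373) (nat_lit 2) (.e (nat_lit 90172) (nat_lit 14) (.e (nat_lit 180244) (nat_lit 5) (.e (nat_lit 532508) (nat_lit 2) .nil))))) .nil)) 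
(.lf (nat_lit 116304) (.g (nat_lit 2275) (.e (nat_lit 5946) (nat_lit 322) (.e (nat_lit 57400) (nat_lit 10) (.e (nat_lit 319531) (nat_lit 16) (.e (nat_lit 286761) (nat_lit 13) (.e (nat_lit 393289) (nat_lit 25) (.e (nat_lit 458774) (nat_lit 18) .nil)))))) (.g (nat_lit 5) .nil .nil)))) (.nd (nat_lit 6) 
(.lf (nat_lit 116272) (.g (nat_lit 4306) (.e (nat_lit 5946) (nat_lit 322) (.e (nat_lit 57378) (nat_lit 3) (.e (nat_lit 98373) (nat_lit 29) (.e (nat_lit 450562) (nat_lit 0) (.e (nat_lit 6595) (nat_lit 351) (.e (nat_lit 2638) (nat_lit 165) (.e (nat_lit 180229) (nat_lit 0) .nil))))))) (.g (nat_lit 4) .nil .nil))) 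
(.lf (nat_lit 116336) (.g (nat_lit 1073) (.e (nat_lit 5946) (nat_lit 322) (.e (nat_lit 57400) (nat_lit 10) (.e (nat_lit 319534) (nat_lit 16) (.e (nat_lit 286761) (nat_lit 13) .nil)))) .nil))))) (.nd (nat_lit 4) (.nd (nat_lit 5) (.nd (nat_lit 6) 
(.lf (nat_lit 116232) (.g (nat_lit 2913) (.e (nat_lit 5946) (nat_lit 322) (.e (nat_lit 57373) (nat_lit 2) (.e (nat_lit 90170) (nat_lit 13) (.e (nat_lit 172065) (nat_lit 3) (.e (nat_lit 204838) (nat_lit 20) .nil))))) .nil)) 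
(.lf (nat_lit 116296) (.g (nat_lit 2004) (.e (nat_lit 5946) (nat_lit 322) (.e (nat_lit 57400) (nat_lit 10) (.e (nat_lit 319531) (nat_lit 16) (.e (nat_lit 286743) (nat_lit 9) (.e (nat_lit 336432) (nat_lit 30) (.e (nat_lit 450569) (nat_lit 0) .nil)))))) (.g (nat_lit 5) .nil .nil)))) (.nd (nat_lit 6) 
(.lf (nat_lit 116264) (.g (nat_lit 1800) (.e (nat_lit 5946) (nat_lit 322) (.e (nat_lit 57378) (nat_lit 3) (.e (nat_lit 98365) (nat_lit 26) (.e (nat_lit 426187) (nat_lit 9) .nil)))) .nil)) 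
(.lf (nat_lit 116328) (.g (nat_lit 2879) (.e (nat_lit 5946) (nat_lit 322) (.e (nat_lit 57400) (nat_lit 10) (.e (nat_lit 319533) (nat_lit 16) (.e (nat_lit 286761) (nat_lit 13) (.e (nat_lit 393289) (nat_lit 25) (.e (nat_lit 458774) (nat_lit 18) .nil)))))) (.g (nat_lit 5) .nil .nil))))) (.nd (nat_lit 5) (.nd (nat_lit 6) 
(.lf (nat_lit 116248) (.g (nat_lit 2408) (.e (nat_lit 5946) (nat_lit 322) (.e (nat_lit 57373) (nat_lit 2) (.e (nat_lit 90174) (nat_lit 14) (.e (nat_lit 180243) (nat_lit 5) (.e (nat_lit 532508) (nat_lit 2) .nil))))) .nil)) 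
(.lf (nat_lit 116312) (.g (nat_lit 2015) (.e (nat_lit 5946) (nat_lit 322) (.e (nat_lit 57400) (nat_lit 10) (.e (nat_lit 319533) (nat_lit 16) (.e (nat_lit 286743) (nat_lit 9) (.e (nat_lit 336433) (nat_lit 30) .nil))))) .nil))) (.nd (nat_lit 6) 
(.lf (nat_lit 116280) (.g (nat_lit 1271) (.e (nat_lit 5946) (nat_lit 322) (.e (nat_lit 57400) (nat_lit 10) (.e (nat_lit 319528) (nat_lit 16) (.e (nat_lit 286761) (nat_lit 13) (.e (nat_lit 393289) (nat_lit 25) .nil))))) .nil)) 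
(.lf (nat_lit 116344) (.g (nat_lit 1758) (.e (nat_lit 5946) (nat_lit 322) (.e (nat_lit 57400) (nat_lit 10) (.e (nat_lit 319534) (nat_lit 16) (.e (nat_lit 286761) (nat_lit 13) (.e (nat_lit 393289) (nat_lit 25) (.e (nat_lit 458775) (nat_lit 18) .nil)))))) (.g (nat_lit 4) .nil .nil))))))) (.nd (nat_lit 3) (.nd (nat_lit 4) (.nd (nat_lit 5) (.nd (nat_lit 6) 
(.lf (nat_lit 116228) (.g (nat_lit 699) (.e (nat_lit 5946) (nat_lit 322) (.e (nat_lit 57371) (nat_lit 2) (.e (nat_lit 90176) (nat_lit 15) .nil))) .nil)) 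
(.lf (nat_lit 116292) (.g (nat_lit 2351) (.e (nat_lit 5946) (nat_lit 322) (.e (nat_lit 57400) (nat_lit 10) (.e (nat_lit 319530) (nat_lit 16) (.e (nat_lit 286761) (nat_lit 13) (.e (nat_lit 393288) (nat_lit 25) (.e (nat_lit 458774) (nat_lit 18) .nil)))))) (.g (nat_lit 4) .nil .nil)))) (.nd (nat_lit 6) 
(.lf (nat_lit 116260) (.g (nat_lit 2033) (.e (nat_lit 5946) (nat_lit 322) (.e (nat_lit 57373) (nat_lit 2) (.e (nat_lit 90185) (nat_lit 17) (.e (nat_lit 237620) (nat_lit 13) .nil)))) .nil)) 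
(.lf (nat_lit 116324) (.g (nat_lit 2608) (.e (nat_lit 5946) (nat_lit 322) (.e (nat_lit 57400) (nat_lit 10) (.e (nat_lit 319533) (nat_lit 16) (.e (nat_lit 286761) (nat_lit 13) (.e (nat_lit 393288) (nat_lit 25) .nil))))) .nil)))) (.nd (nat_lit 5) (.nd (nat_lit 6) 
(.lf (nat_lit 116244) (.g (nat_lit 2796) (.e (nat_lit 5946) (nat_lit 322) (.e (nat_lit 57373) (nat_lit 2) (.e (nat_lit 90172) (nat_lit 14) (.e (nat_lit 180244) (nat_lit 5) (.e (nat_lit 532515) (nat_lit 3) (.e (nat_lit 114715) (nat_lit 22) (.e (nat_lit 90165) (nat_lit 12) (.e (nat_lit 163853) (nat_lit 0) .nil)))))))) (.g (nat_lit 5) .nil .nil))) 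
(.lf (nat_lit 116308) (.g (nat_lit 1406) (.e (nat_lit 5946) (nat_lit 322) (.e (nat_lit 57400) (nat_lit 10) (.e (nat_lit 319533) (nat_lit 16) (.e (nat_lit 286742) (nat_lit 9) .nil)))) .nil))) (.nd (nat_lit 6) 
(.lf (nat_lit 116276) (.g (nat_lit 1332) (.e (nat_lit 5946) (nat_lit 322) (.e (nat_lit 57400) (nat_lit 10) (.e (nat_lit 319528) (nat_lit 16) (.e (nat_lit 286761) (nat_lit 13) (.e (nat_lit 393264) (nat_lit 22) .nil))))) .nil)) 
(.lf (nat_lit 116340) (.g (nat_lit 2584) (.e (nat_lit 5946) (nat_lit 322) (.e (nat_lit 57400) (nat_lit 10) (.e (nat_lit 319534) (nat_lit 16) (.e (nat_lit 286761) (nat_lit 13) (.e (nat_lit 393265) (nat_lit 22) (.e (nat_lit 417792) (nat_lit 0) (.e (nat_lit 67) (nat_lit 0) .nil))))))) (.g (nat_lit 5) .nil .nil)))))) (.nd (nat_lit 4) (.nd (nat_lit 5) (.nd (nat_lit 6) 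
(.lf (nat_lit 116236) (.g (nat_lit 2351) (.e (nat_lit 5946) (nat_lit 322) (.e (nat_lit 57373) (nat_lit 2) (.e (nat_lit 90170) (nat_lit 13) (.e (nat_lit 172121) (nat_lit 13) .nil)))) .nil)) 
(.lf (nat_lit 116300) (.g (nat_lit 2302) (.e (nat_lit 5946) (nat_lit 322) (.e (nat_lit 57400) (nat_lit 10) (.e (nat_lit 319531) (nat_lit 16) (.e (nat_lit 286761) (nat_lit 13) (.e (nat_lit 393286) (nat_lit 25) (.e (nat_lit 458775) (nat_lit 18) .nil)))))) (.g (nat_lit 4) .nil .nil)))) (.nd (nat_lit 6) 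
(.lf (nat_lit 116268) (.g (nat_lit 1786) (.e (nat_lit 5946) (nat_lit 322) (.e (nat_lit 57378) (nat_lit 3) (.e (nat_lit 98365) (nat_lit 26) (.e (nat_lit 426325) (nat_lit 13) .nil)))) .nil)) 
(.lf (nat_lit 116332) (.g (nat_lit 2604) (.e (nat_lit 5946) (nat_lit 322) (.e (nat_lit 57400) (nat_lit 10) (.e (nat_lit 319534) (nat_lit 16) (.e (nat_lit 286743) (nat_lit 9) (.e (nat_lit 336432) (nat_lit 30) (.e (nat_lit 450569) (nat_lit 0) .nil)))))) (.g (nat_lit 0) .nil .nil))))) (.nd (nat_lit 5) (.nd (nat_lit 6) 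
(.lf (nat_lit 116252) (.g (nat_lit 3307) (.e (nat_lit 5946) (nat_lit 322) (.e (nat_lit 57373) (nat_lit 2) (.e (nat_lit 90174) (nat_lit 14) (.e (nat_lit 180243) (nat_lit 5) (.e (nat_lit 532515) (nat_lit 3) (.e (nat_lit 114716) (nat_lit 22) (.e (nat_lit 90181) (nat_lit 16) (.e (nat_lit 229376) (nat_lit 0) .nil)))))))) (.g (nat_lit 6) .nil .nil))) 
(.lf (nat_lit 116316) (.g (nat_lit 1939) (.e (nat_lit 5946) (nat_lit 322) (.e (nat_lit 57400) (nat_lit 10) (.e (nat_lit 319533) (nat_lit 16) (.e (nat_lit 286760) (nat_lit 13) (.e (nat_lit 393289) (nat_lit 25) (.e (nat_lit 458771) (nat_lit 18) .nil)))))) (.g (nat_lit 4) .nil .nil)))) (.nd (nat_lit 6) 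
(.lf (nat_lit 116284) (.g (nat_lit 1663) (.e (nat_lit 5946) (nat_lit 322) (.e (nat_lit 57400) (nat_lit 10) (.e (nat_lit 319529) (nat_lit 16) (.e (nat_lit 286761) (nat_lit 13) (.e (nat_lit 393265) (nat_lit 22) (.e (nat_lit 417792) (nat_lit 0) (.e (nat_lit 67) (nat_lit 0) .nil))))))) (.g (nat_lit 4) .nil .nil))) 
(.lf (nat_lit 116348) (.g (nat_lit 2036) (.e (nat_lit 5946) (nat_lit 322) (.e (nat_lit 57409) (nat_lit 12) (.e (nat_lit 336430) (nat_lit 29) (.e (nat_lit 442427) (nat_lit 23) (.e (nat_lit 212736) (nat_lit 10) .nil))))) .nil))))))) (.nd (nat_lit 2) (.nd (nat_lit 3) (.nd (nat_lit 4) (.nd (nat_lit 5) (.nd (nat_lit 6) 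
(.lf (nat_lit 116226) (.g (nat_lit 2364) (.e (nat_lit 5946) (nat_lit 322) (.e (nat_lit 57371) (nat_lit 2) (.e (nat_lit 90174) (nat_lit 14) (.e (nat_lit 180243) (nat_lit 5) (.e (nat_lit 532513) (nat_lit 3) (.e (nat_lit 114714) (nat_lit 22) (.e (nat_lit 90181) (nat_lit 16) (.e (nat_lit 229376) (nat_lit 0) .nil)))))))) (.g (nat_lit 4) .nil .nil))) 
(.lf (nat_lit 116290) (.g (nat_lit 1747) (.e (nat_lit 5946) (nat_lit 322) (.e (nat_lit 57400) (nat_lit 10) (.e (nat_lit 319530) (nat_lit 16) (.e (nat_lit 286761) (nat_lit 13) (.e (nat_lit 393264) (nat_lit 22) (.e (nat_lit 417792) (nat_lit 0) (.e (nat_lit 67) (nat_lit 0) .nil))))))) (.g (nat_lit 4) .nil .nil)))) (.nd (nat_lit 6) 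
(.lf (nat_lit 116258) (.g (nat_lit 1521) (.e (nat_lit 5946) (nat_lit 322) (.e (nat_lit 57373) (nat_lit 2) (.e (nat_lit 90185) (nat_lit 17) (.e (nat_lit 237605) (nat_lit 9) .nil)))) .nil)) 
(.lf (nat_lit 116322) (.g (nat_lit 2604) (.e (nat_lit 5946) (nat_lit 322) (.e (nat_lit 57400) (nat_lit 10) (.e (nat_lit 319533) (nat_lit 16) (.e (nat_lit 286761) (nat_lit 13) (.e (nat_lit 393282) (nat_lit 24) .nil))))) .nil)))) (.nd (nat_lit 5) (.nd (nat_lit 6) 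
(.lf (nat_lit 116242) (.g (nat_lit 3152) (.e (nat_lit 5946) (nat_lit 322) (.e (nat_lit 57373) (nat_lit 2) (.e (nat_lit 90172) (nat_lit 14) (.e (nat_lit 180244) (nat_lit 5) (.e (nat_lit 532513) (nat_lit 3) (.e (nat_lit 114714) (nat_lit 22) (.e (nat_lit 90165) (nat_lit 12) (.e (nat_lit 163857) (nat_lit 0) .nil)))))))) (.g (nat_lit 5) .nil .nil))) 
(.lf (nat_lit 116306) (.g (nat_lit 1895) (.e (nat_lit 5946) (nat_lit 322) (.e (nat_lit 57400) (nat_lit 10) (.e (nat_lit 319532) (nat_lit 16) (.e (nat_lit 286761) (nat_lit 13) (.e (nat_lit 393288) (nat_lit 25) .nil))))) .nil))) (.nd (nat_lit 6) 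
(.lf (nat_lit 116274) (.g (nat_lit 2236) (.e (nat_lit 5946) (nat_lit 322) (.e (nat_lit 57378) (nat_lit 3) (.e (nat_lit 98373) (nat_lit 29) (.e (nat_lit 450602) (nat_lit 22) .nil)))) .nil)) 
(.lf (nat_lit 116338) (.g (nat_lit 2071) (.e (nat_lit 5946) (nat_lit 322) (.e (nat_lit 57400) (nat_lit 10) (.e (nat_lit 319534) (nat_lit 16) (.e (nat_lit 286761) (nat_lit 13) (.e (nat_lit 393264) (nat_lit 22) (.e (nat_lit 417792) (nat_lit 0) (.e (nat_lit 67) (nat_lit 0) .nil))))))) (.g (nat_lit 5) .nil .nil)))))) (.nd (nat_lit 4) (.nd (nat_lit 5) (.nd (nat_lit 6) 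
(.lf (nat_lit 116234) (.g (nat_lit 2882) (.e (nat_lit 5946) (nat_lit 322) (.e (nat_lit 57373) (nat_lit 2) (.e (nat_lit 90170) (nat_lit 13) (.e (nat_lit 172067) (nat_lit 3) (.e (nat_lit 204838) (nat_lit 20) .nil))))) .nil)) 
(.lf (nat_lit 116298) (.g (nat_lit 1631) (.e (nat_lit 5946) (nat_lit 322) (.e (nat_lit 57400) (nat_lit 10) (.e (nat_lit 319531) (nat_lit 16) (.e (nat_lit 286761) (nat_lit 13) (.e (nat_lit 393264) (nat_lit 22) .nil))))) .nil))) (.nd (nat_lit 6) 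
(.lf (nat_lit 116266) (.g (nat_lit 1794) (.e (nat_lit 5946) (nat_lit 322) (.e (nat_lit 57378) (nat_lit 3) (.e (nat_lit 98365) (nat_lit 26) (.e (nat_lit 426188) (nat_lit 9) .nil)))) .nil)) 
(.lf (nat_lit 116330) (.g (nat_lit 1999) (.e (nat_lit 5946) (nat_lit 322) (.e (nat_lit 57400) (nat_lit 10) (.e (nat_lit 319533) (nat_lit 16) (.e (nat_lit 286761) (nat_lit 13) (.e (nat_lit 393289) (nat_lit 25) (.e (nat_lit 458776) (nat_lit 18) .nil)))))) (.g (nat_lit 4) .nil .nil))))) (.nd (nat_lit 5) (.nd (nat_lit 6) 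
(.lf (nat_lit 116250) (.g (nat_lit 2645) (.e (nat_lit 5946) (nat_lit 322) (.e (nat_lit 57373) (nat_lit 2) (.e (nat_lit 90174) (nat_lit 14) (.e (nat_lit 180243) (nat_lit 5) (.e (nat_lit 532508) (nat_lit 2) (.e (nat_lit 106517) (nat_lit 9) (.e (nat_lit 1255) (nat_lit 92) (.e (nat_lit 98325) (nat_lit 17) (.e (nat_lit 2515) (nat_lit 157) .nil))))))))) (.g (nat_lit 4) .nil .nil))) 
(.lf (nat_lit 116314) (.g (nat_lit 1317) (.e (nat_lit 5946) (nat_lit 322) (.e (nat_lit 57400) (nat_lit 10) (.e (nat_lit 319533) (nat_lit 16) (.e (nat_lit 286760) (nat_lit 13) .nil)))) .nil))) (.nd (nat_lit 6) 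
(.lf (nat_lit 116282) (.g (nat_lit 853) (.e (nat_lit 5946) (nat_lit 322) (.e (nat_lit 57400) (nat_lit 10) (.e (nat_lit 319529) (nat_lit 16) (.e (nat_lit 286743) (nat_lit 9) .nil)))) .nil)) 
(.lf (nat_lit 116346) (.g (nat_lit 665) (.e (nat_lit 5946) (nat_lit 322) (.e (nat_lit 57406) (nat_lit 12) (.e (nat_lit 336443) (nat_lit 32) .nil))) .nil)))))) (.nd (nat_lit 3) (.nd (nat_lit 4) (.nd (nat_lit 5) (.nd (nat_lit 6) 
(.lf (nat_lit 116230) (.g (nat_lit 1567) (.e (nat_lit 5946) (nat_lit 322) (.e (nat_lit 57371) (nat_lit 2) (.e (nat_lit 90185) (nat_lit 17) (.e (nat_lit 237624) (nat_lit 13) .nil)))) .nil)) 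
(.lf (nat_lit 116294) (.g (nat_lit 2403) (.e (nat_lit 5946) (nat_lit 322) (.e (nat_lit 57400) (nat_lit 10) (.e (nat_lit 319530) (nat_lit 16) (.e (nat_lit 286761) (nat_lit 13) (.e (nat_lit 393289) (nat_lit 25) (.e (nat_lit 458771) (nat_lit 18) .nil)))))) (.g (nat_lit 5) .nil .nil)))) (.nd (nat_lit 6) 
(.lf (nat_lit 116262) (.g (nat_lit 1159) (.e (nat_lit 5946) (nat_lit 322) (.e (nat_lit 57378) (nat_lit 3) (.e (nat_lit 98358) (nat_lit 26) .nil))) .nil)) 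
(.lf (nat_lit 116326) (.g (nat_lit 2919) (.e (nat_lit 5946) (nat_lit 322) (.e (nat_lit 57400) (nat_lit 10) (.e (nat_lit 319533) (nat_lit 16) (.e (nat_lit 286761) (nat_lit 13) (.e (nat_lit 393289) (nat_lit 25) (.e (nat_lit 458771) (nat_lit 18) .nil)))))) (.g (nat_lit 5) .nil .nil))))) (.nd (nat_lit 5) (.nd (nat_lit 6) 
(.lf (nat_lit 116246) (.g (nat_lit 2735) (.e (nat_lit 5946) (nat_lit 322) (.e (nat_lit 57373) (nat_lit 2) (.e (nat_lit 90172) (nat_lit 14) (.e (nat_lit 180244) (nat_lit 5) (.e (nat_lit 532515) (nat_lit 3) (.e (nat_lit 114716) (nat_lit 22) (.e (nat_lit 90164) (nat_lit 12) (.e (nat_lit 163850) (nat_lit 0) .nil)))))))) (.g (nat_lit 5) .nil .nil))) 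
(.lf (nat_lit 116310) (.g (nat_lit 1372) (.e (nat_lit 5946) (nat_lit 322) (.e (nat_lit 57400) (nat_lit 10) (.e (nat_lit 319533) (nat_lit 16) (.e (nat_lit 286743) (nat_lit 9) .nil)))) .nil))) (.nd (nat_lit 6) 
(.lf (nat_lit 116278) (.g (nat_lit 2055) (.e (nat_lit 5946) (nat_lit 322) (.e (nat_lit 57400) (nat_lit 10) (.e (nat_lit 319528) (nat_lit 16) (.e (nat_lit 286761) (nat_lit 13) (.e (nat_lit 393286) (nat_lit 25) .nil))))) .nil)) 
(.lf (nat_lit 116342) (.g (nat_lit 2211) (.e (nat_lit 5946) (nat_lit 322) (.e (nat_lit 57400) (nat_lit 10) (.e (nat_lit 319534) (nat_lit 16) (.e (nat_lit 286761) (nat_lit 13) (.e (nat_lit 393288) (nat_lit 25) .nil))))) .nil))))) (.nd (nat_lit 4) (.nd (nat_lit 5) (.nd (nat_lit 6) 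
(.lf (nat_lit 116238) (.g (nat_lit 2141) (.e (nat_lit 5946) (nat_lit 322) (.e (nat_lit 57373) (nat_lit 2) (.e (nat_lit 90172) (nat_lit 14) (.e (nat_lit 180243) (nat_lit 5) .nil)))) .nil)) 
(.lf (nat_lit 116302) (.g (nat_lit 2410) (.e (nat_lit 5946) (nat_lit 322) (.e (nat_lit 57400) (nat_lit 10) (.e (nat_lit 319531) (nat_lit 16) (.e (nat_lit 286761) (nat_lit 13) (.e (nat_lit 393289) (nat_lit 25) (.e (nat_lit 458771) (nat_lit 18) .nil)))))) (.g (nat_lit 6) .nil .nil)))) (.nd (nat_lit 6) 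
(.lf (nat_lit 116270) (.g (nat_lit 1776) (.e (nat_lit 5946) (nat_lit 322) (.e (nat_lit 57378) (nat_lit 3) (.e (nat_lit 98372) (nat_lit 29) (.e (nat_lit 450561) (nat_lit 0) .nil)))) .nil)) 
(.lf (nat_lit 116334) (.g (nat_lit 1843) (.e (nat_lit 5946) (nat_lit 322) (.e (nat_lit 57400) (nat_lit 10) (.e (nat_lit 319534) (nat_lit 16) (.e (nat_lit 286749) (nat_lit 9) (.e (nat_lit 343808) (nat_lit 30) (.e (nat_lit 450569) (nat_lit 0) .nil)))))) (.g (nat_lit 4) .nil .nil))))) (.nd (nat_lit 5) (.nd (nat_lit 6) 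
(.lf (nat_lit 116254) (.g (nat_lit 1983) (.e (nat_lit 5946) (nat_lit 322) (.e (nat_lit 57373) (nat_lit 2) (.e (nat_lit 90178) (nat_lit 15) (.e (nat_lit 188459) (nat_lit 26) .nil)))) .nil)) 
(.lf (nat_lit 116318) (.g (nat_lit 1306) (.e (nat_lit 5946) (nat_lit 322) (.e (nat_lit 57400) (nat_lit 10) (.e (nat_lit 319533) (nat_lit 16) (.e (nat_lit 286761) (nat_lit 13) .nil)))) .nil))) (.nd (nat_lit 6) 
(.lf (nat_lit 116286) (.g (nat_lit 1490) (.e (nat_lit 5946) (nat_lit 322) (.e (nat_lit 57400) (nat_lit 10) (.e (nat_lit 319529) (nat_lit 16) (.e (nat_lit 286761) (nat_lit 13) (.e (nat_lit 393289) (nat_lit 25) (.e (nat_lit 458773) (nat_lit 18) .nil)))))) (.g (nat_lit 4) .nil .nil))) 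
(.lf (nat_lit 116350) (.g (nat_lit 1755) (.e (nat_lit 5946) (nat_lit 322) (.e (nat_lit 57409) (nat_lit 12) (.e (nat_lit 336443) (nat_lit 32) (.e (nat_lit 466974) (nat_lit 22) .nil)))) .nil)))))))) (.nd (nat_lit 1) (.nd (nat_lit 2) (.nd (nat_lit 3) (.nd (nat_lit 4) (.nd (nat_lit 5) (.nd (nat_lit 6) 
(.lf (nat_lit 116225) (.g (nat_lit 2324) (.e (nat_lit 5946) (nat_lit 322) (.e (nat_lit 57371) (nat_lit 2) (.e (nat_lit 90174) (nat_lit 14) (.e (nat_lit 180243) (nat_lit 5) (.e (nat_lit 532513) (nat_lit 3) .nil))))) .nil)) 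
(.lf (nat_lit 116289) (.g (nat_lit 1691) (.e (nat_lit 5946) (nat_lit 322) (.e (nat_lit 57400) (nat_lit 10) (.e (nat_lit 319530) (nat_lit 16) (.e (nat_lit 286761) (nat_lit 13) (.e (nat_lit 393264) (nat_lit 22) .nil))))) .nil))) (.nd (nat_lit 6) 
(.lf (nat_lit 116257) (.g (nat_lit 1524) (.e (nat_lit 5946) (nat_lit 322) (.e (nat_lit 57373) (nat_lit 2) (.e (nat_lit 90185) (nat_lit 17) (.e (nat_lit 237601) (nat_lit 9) .nil)))) .nil)) 
(.lf (nat_lit 116321) (.g (nat_lit 2863) (.e (nat_lit 5946) (nat_lit 322) (.e (nat_lit 57400) (nat_lit 10) (.e (nat_lit 319533) (nat_lit 16) (.e (nat_lit 286761) (nat_lit 13) (.e (nat_lit 393265) (nat_lit 22) (.e (nat_lit 417792) (nat_lit 0) (.e (nat_lit 67) (nat_lit 0) .nil))))))) (.g (nat_lit 5) .nil .nil))))) (.nd (nat_lit 5) (.nd (nat_lit 6) 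
(.lf (nat_lit 116241) (.g (nat_lit 2320) (.e (nat_lit 5946) (nat_lit 322) (.e (nat_lit 57373) (nat_lit 2) (.e (nat_lit 90172) (nat_lit 14) (.e (nat_lit 180244) (nat_lit 5) (.e (nat_lit 532513) (nat_lit 3) .nil))))) .nil)) 
(.lf (nat_lit 116305) (.g (nat_lit 1773) (.e (nat_lit 5946) (nat_lit 322) (.e (nat_lit 57400) (nat_lit 10) (.e (nat_lit 319531) (nat_lit 16) (.e (nat_lit 286761) (nat_lit 13) (.e (nat_lit 393289) (nat_lit 25) (.e (nat_lit 458775) (nat_lit 18) .nil)))))) (.g (nat_lit 4) .nil .nil)))) (.nd (nat_lit 6) 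
(.lf (nat_lit 116273) (.g (nat_lit 4236) (.e (nat_lit 5946) (nat_lit 322) (.e (nat_lit 57378) (nat_lit 3) (.e (nat_lit 98373) (nat_lit 29) (.e (nat_lit 450563) (nat_lit 0) (.e (nat_lit 6595) (nat_lit 351) .nil))))) .nil)) 
(.lf (nat_lit 116337) (.g (nat_lit 1636) (.e (nat_lit 5946) (nat_lit 322) (.e (nat_lit 57400) (nat_lit 10) (.e (nat_lit 319534) (nat_lit 16) (.e (nat_lit 286761) (nat_lit 13) (.e (nat_lit 393264) (nat_lit 22) .nil))))) .nil))))) (.nd (nat_lit 4) (.nd (nat_lit 5) (.nd (nat_lit 6) 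
(.lf (nat_lit 116233) (.g (nat_lit 1950) (.e (nat_lit 5946) (nat_lit 322) (.e (nat_lit 57373) (nat_lit 2) (.e (nat_lit 90170) (nat_lit 13) (.e (nat_lit 172067) (nat_lit 3) .nil)))) .nil)) 
(.lf (nat_lit 116297) (.g (nat_lit 3222) (.e (nat_lit 5946) (nat_lit 322) (.e (nat_lit 57400) (nat_lit 10) (.e (nat_lit 319531) (nat_lit 16) (.e (nat_lit 286761) (nat_lit 13) (.e (nat_lit 393234) (nat_lit 17) (.e (nat_lit 7065) (nat_lit 377) (.e (nat_lit 1023) (nat_lit 81) (.e (nat_lit 65) (nat_lit 0) .nil)))))))) (.g (nat_lit 6) .nil .nil)))) (.nd (nat_lit 6) 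
(.lf (nat_lit 116265) (.g (nat_lit 3119) (.e (nat_lit 5946) (nat_lit 322) (.e (nat_lit 57378) (nat_lit 3) (.e (nat_lit 98365) (nat_lit 26) (.e (nat_lit 426187) (nat_lit 9) (.e (nat_lit 426479) (nat_lit 27) (.e (nat_lit 336421) (nat_lit 28) (.e (nat_lit 434216) (nat_lit 18) .nil))))))) (.g (nat_lit 6) .nil .nil))) 
(.lf (nat_lit 116329) (.g (nat_lit 2109) (.e (nat_lit 5946) (nat_lit 322) (.e (nat_lit 57400) (nat_lit 10) (.e (nat_lit 319533) (nat_lit 16) (.e (nat_lit 286761) (nat_lit 13) (.e (nat_lit 393289) (nat_lit 25) (.e (nat_lit 458775) (nat_lit 18) .nil)))))) (.g (nat_lit 4) .nil .nil))))) (.nd (nat_lit 5) (.nd (nat_lit 6) 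
(.lf (nat_lit 116249) (.g (nat_lit 2977) (.e (nat_lit 5946) (nat_lit 322) (.e (nat_lit 57373) (nat_lit 2) (.e (nat_lit 90174) (nat_lit 14) (.e (nat_lit 180243) (nat_lit 5) (.e (nat_lit 532508) (nat_lit 2) (.e (nat_lit 106517) (nat_lit 9) (.e (nat_lit 1255) (nat_lit 92) (.e (nat_lit 98321) (nat_lit 17) (.e (nat_lit 2464) (nat_lit 157) .nil))))))))) (.g (nat_lit 5) .nil .nil))) 
(.lf (nat_lit 116313) (.g (nat_lit 1357) (.e (nat_lit 5946) (nat_lit 322) (.e (nat_lit 57400) (nat_lit 10) (.e (nat_lit 319533) (nat_lit 16) (.e (nat_lit 286745) (nat_lit 9) .nil)))) .nil))) (.nd (nat_lit 6) 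
(.lf (nat_lit 116281) (.g (nat_lit 1975) (.e (nat_lit 5946) (nat_lit 322) (.e (nat_lit 57400) (nat_lit 10) (.e (nat_lit 319528) (nat_lit 16) (.e (nat_lit 286761) (nat_lit 13) (.e (nat_lit 393289) (nat_lit 25) (.e (nat_lit 458771) (nat_lit 18) .nil)))))) (.g (nat_lit 5) .nil .nil))) 
(.lf (nat_lit 116345) (.g (nat_lit 1601) (.e (nat_lit 5946) (nat_lit 322) (.e (nat_lit 57400) (nat_lit 10) (.e (nat_lit 319534) (nat_lit 16) (.e (nat_lit 286761) (nat_lit 13) (.e (nat_lit 393289) (nat_lit 25) (.e (nat_lit 458776) (nat_lit 18) .nil)))))) (.g (nat_lit 4) .nil .nil))))))) (.nd (nat_lit 3) (.nd (nat_lit 4) (.nd (nat_lit 5) (.nd (nat_lit 6) 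
(.lf (nat_lit 116229) (.g (nat_lit 800) (.e (nat_lit 5946) (nat_lit 322) (.e (nat_lit 57371) (nat_lit 2) (.e (nat_lit 90185) (nat_lit 17) .nil))) .nil)) 
(.lf (nat_lit 116293) (.g (nat_lit 1619) (.e (nat_lit 5946) (nat_lit 322) (.e (nat_lit 57400) (nat_lit 10) (.e (nat_lit 319530) (nat_lit 16) (.e (nat_lit 286761) (nat_lit 13) (.e (nat_lit 393289) (nat_lit 25) .nil))))) .nil))) (.nd (nat_lit 6) 
(.lf (nat_lit 116261) (.g (nat_lit 1963) (.e (nat_lit 5946) (nat_lit 322) (.e (nat_lit 57373) (nat_lit 2) (.e (nat_lit 90185) (nat_lit 17) (.e (nat_lit 237624) (nat_lit 13) (.e (nat_lit 491264) (nat_lit 10) (.e (nat_lit 434216) (nat_lit 18) .nil)))))) (.g (nat_lit 4) .nil .nil))) 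
(.lf (nat_lit 116325) (.g (nat_lit 2901) (.e (nat_lit 5946) (nat_lit 322) (.e (nat_lit 57400) (nat_lit 10) (.e (nat_lit 319533) (nat_lit 16) (.e (nat_lit 286761) (nat_lit 13) (.e (nat_lit 393288) (nat_lit 25) (.e (nat_lit 458774) (nat_lit 18) .nil)))))) (.g (nat_lit 4) .nil .nil))))) (.nd (nat_lit 5) (.nd (nat_lit 6) 
(.lf (nat_lit 116245) (.g (nat_lit 3009) (.e (nat_lit 5946) (nat_lit 322) (.e (nat_lit 57373) (nat_lit 2) (.e (nat_lit 90172) (nat_lit 14) (.e (nat_lit 180244) (nat_lit 5) (.e (nat_lit 532515) (nat_lit 3) (.e (nat_lit 114715) (nat_lit 22) (.e (nat_lit 90165) (nat_lit 12) (.e (nat_lit 163857) (nat_lit 0) .nil)))))))) (.g (nat_lit 6) .nil .nil))) 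
(.lf (nat_lit 116309) (.g (nat_lit 2128) (.e (nat_lit 5946) (nat_lit 322) (.e (nat_lit 57400) (nat_lit 10) (.e (nat_lit 319533) (nat_lit 16) (.e (nat_lit 286742) (nat_lit 9) (.e (nat_lit 336432) (nat_lit 30) (.e (nat_lit 450569) (nat_lit 0) .nil)))))) (.g (nat_lit 5) .nil .nil)))) (.nd (nat_lit 6) 
(.lf (nat_lit 116277) (.g (nat_lit 1400) (.e (nat_lit 5946) (nat_lit 322) (.e (nat_lit 57400) (nat_lit 10) (.e (nat_lit 319528) (nat_lit 16) (.e (nat_lit 286761) (nat_lit 13) (.e (nat_lit 393264) (nat_lit 22) (.e (nat_lit 417792) (nat_lit 0) (.e (nat_lit 67) (nat_lit 0) .nil))))))) (.g (nat_lit 4) .nil .nil))) 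
(.lf (nat_lit 116341) (.g (nat_lit 2280) (.e (nat_lit 5946) (nat_lit 322) (.e (nat_lit 57400) (nat_lit 10) (.e (nat_lit 319534) (nat_lit 16) (.e (nat_lit 286761) (nat_lit 13) (.e (nat_lit 393286) (nat_lit 25) .nil))))) .nil))))) (.nd (nat_lit 4) (.nd (nat_lit 5) (.nd (nat_lit 6) 
(.lf (nat_lit 116237) (.g (nat_lit 1789) (.e (nat_lit 5946) (nat_lit 322) (.e (nat_lit 57373) (nat_lit 2) (.e (nat_lit 90170) (nat_lit 13) (.e (nat_lit 172123) (nat_lit 13) .nil)))) .nil)) 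
(.lf (nat_lit 116301) (.g (nat_lit 2072) (.e (nat_lit 5946) (nat_lit 322) (.e (nat_lit 57400) (nat_lit 10) (.e (nat_lit 319531) (nat_lit 16) (.e (nat_lit 286761) (nat_lit 13) (.e (nat_lit 393288) (nat_lit 25) .nil))))) .nil))) (.nd (nat_lit 6) 
(.lf (nat_lit 116269) (.g (nat_lit 2008) (.e (nat_lit 5946) (nat_lit 322) (.e (nat_lit 57378) (nat_lit 3) (.e (nat_lit 98365) (nat_lit 26) (.e (nat_lit 426334) (nat_lit 13) .nil)))) .nil)) 
(.lf (nat_lit 116333) (.g (nat_lit 1709) (.e (nat_lit 5946) (nat_lit 322) (.e (nat_lit 57400) (nat_lit 10) (.e (nat_lit 319534) (nat_lit 16) (.e (nat_lit 286743) (nat_lit 9) (.e (nat_lit 336433) (nat_lit 30) .nil))))) .nil)))) (.nd (nat_lit 5) (.nd (nat_lit 6) 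
(.lf (nat_lit 116253) (.g (nat_lit 1483) (.e (nat_lit 5946) (nat_lit 322) (.e (nat_lit 57373) (nat_lit 2) (.e (nat_lit 90178) (nat_lit 15) (.e (nat_lit 196352) (nat_lit 18) .nil)))) .nil)) 
(.lf (nat_lit 116317) (.g (nat_lit 2281) (.e (nat_lit 5946) (nat_lit 322) (.e (nat_lit 57400) (nat_lit 10) (.e (nat_lit 319533) (nat_lit 16) (.e (nat_lit 286760) (nat_lit 13) (.e (nat_lit 393289) (nat_lit 25) (.e (nat_lit 458774) (nat_lit 18) .nil)))))) (.g (nat_lit 5) .nil .nil)))) (.nd (nat_lit 6) 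
(.lf (nat_lit 116285) (.g (nat_lit 1649) (.e (nat_lit 5946) (nat_lit 322) (.e (nat_lit 57400) (nat_lit 10) (.e (nat_lit 319529) (nat_lit 16) (.e (nat_lit 286761) (nat_lit 13) (.e (nat_lit 393289) (nat_lit 25) (.e (nat_lit 458771) (nat_lit 18) .nil)))))) (.g (nat_lit 4) .nil .nil))) 
(.lf (nat_lit 116349) (.g (nat_lit 1342) (.e (nat_lit 5946) (nat_lit 322) (.e (nat_lit 57409) (nat_lit 12) (.e (nat_lit 336438) (nat_lit 31) (.e (nat_lit 466688) (nat_lit 3) .nil)))) .nil))))))) (.nd (nat_lit 2) (.nd (nat_lit 3) (.nd (nat_lit 4) (.nd (nat_lit 5) (.nd (nat_lit 6) 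
(.lf (nat_lit 116227) (.g (nat_lit 2362) (.e (nat_lit 5946) (nat_lit 322) (.e (nat_lit 57371) (nat_lit 2) (.e (nat_lit 90174) (nat_lit 14) (.e (nat_lit 180243) (nat_lit 5) (.e (nat_lit 532515) (nat_lit 3) .nil))))) .nil)) 
(.lf (nat_lit 116291) (.g (nat_lit 2200) (.e (nat_lit 5946) (nat_lit 322) (.e (nat_lit 57400) (nat_lit 10) (.e (nat_lit 319530) (nat_lit 16) (.e (nat_lit 286761) (nat_lit 13) (.e (nat_lit 393286) (nat_lit 25) .nil))))) .nil))) (.nd (nat_lit 6) 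
(.lf (nat_lit 116259) (.g (nat_lit 2575) (.e (nat_lit 5946) (nat_lit 322) (.e (nat_lit 57373) (nat_lit 2) (.e (nat_lit 90185) (nat_lit 17) (.e (nat_lit 237605) (nat_lit 9) (.e (nat_lit 426479) (nat_lit 27) (.e (nat_lit 336421) (nat_lit 28) (.e (nat_lit 434216) (nat_lit 18) .nil))))))) (.g (nat_lit 5) .nil .nil))) 
(.lf (nat_lit 116323) (.g (nat_lit 2613) (.e (nat_lit 5946) (nat_lit 322) (.e (nat_lit 57400) (nat_lit 10) (.e (nat_lit 319533) (nat_lit 16) (.e (nat_lit 286761) (nat_lit 13) (.e (nat_lit 393286) (nat_lit 25) .nil))))) .nil)))) (.nd (nat_lit 5) (.nd (nat_lit 6) 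
(.lf (nat_lit 116243) (.g (nat_lit 2166) (.e (nat_lit 5946) (nat_lit 322) (.e (nat_lit 57373) (nat_lit 2) (.e (nat_lit 90172) (nat_lit 14) (.e (nat_lit 180244) (nat_lit 5) (.e (nat_lit 532515) (nat_lit 3) .nil))))) .nil)) 
(.lf (nat_lit 116307) (.g (nat_lit 1622) (.e (nat_lit 5946) (nat_lit 322) (.e (nat_lit 57400) (nat_lit 10) (.e (nat_lit 319532) (nat_lit 16) (.e (nat_lit 286761) (nat_lit 13) (.e (nat_lit 393289) (nat_lit 25) (.e (nat_lit 458773) (nat_lit 18) .nil)))))) (.g (nat_lit 4) .nil .nil)))) (.nd (nat_lit 6) 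
(.lf (nat_lit 116275) (.g (nat_lit 1911) (.e (nat_lit 5946) (nat_lit 322) (.e (nat_lit 57400) (nat_lit 10) (.e (nat_lit 319528) (nat_lit 16) (.e (nat_lit 286743) (nat_lit 9) (.e (nat_lit 336432) (nat_lit 30) (.e (nat_lit 450569) (nat_lit 0) .nil)))))) (.g (nat_lit 5) .nil .nil))) 
(.lf (nat_lit 116339) (.g (nat_lit 1736) (.e (nat_lit 5946) (nat_lit 322) (.e (nat_lit 57400) (nat_lit 10) (.e (nat_lit 319534) (nat_lit 16) (.e (nat_lit 286761) (nat_lit 13) (.e (nat_lit 393264) (nat_lit 22) (.e (nat_lit 417795) (nat_lit 0) (.e (nat_lit 64) (nat_lit 0) .nil))))))) (.g (nat_lit 4) .nil .nil)))))) (.nd (nat_lit 4) (.nd (nat_lit 5) (.nd (nat_lit 6) 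
(.lf (nat_lit 116235) (.g (nat_lit 2473) (.e (nat_lit 5946) (nat_lit 322) (.e (nat_lit 57373) (nat_lit 2) (.e (nat_lit 90170) (nat_lit 13) (.e (nat_lit 172113) (nat_lit 10) .nil)))) .nil)) 
(.lf (nat_lit 116299) (.g (nat_lit 2236) (.e (nat_lit 5946) (nat_lit 322) (.e (nat_lit 57400) (nat_lit 10) (.e (nat_lit 319531) (nat_lit 16) (.e (nat_lit 286761) (nat_lit 13) (.e (nat_lit 393286) (nat_lit 25) (.e (nat_lit 458774) (nat_lit 18) .nil)))))) (.g (nat_lit 4) .nil .nil)))) (.nd (nat_lit 6) 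
(.lf (nat_lit 116267) (.g (nat_lit 3516) (.e (nat_lit 5946) (nat_lit 322) (.e (nat_lit 57378) (nat_lit 3) (.e (nat_lit 98365) (nat_lit 26) (.e (nat_lit 426188) (nat_lit 9) (.e (nat_lit 426479) (nat_lit 27) (.e (nat_lit 336421) (nat_lit 28) (.e (nat_lit 434216) (nat_lit 18) .nil))))))) (.g (nat_lit 6) .nil .nil))) 
(.lf (nat_lit 116331) (.g (nat_lit 1620) (.e (nat_lit 5946) (nat_lit 322) (.e (nat_lit 57400) (nat_lit 10) (.e (nat_lit 319534) (nat_lit 16) (.e (nat_lit 286742) (nat_lit 9) .nil)))) .nil)))) (.nd (nat_lit 5) (.nd (nat_lit 6) 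
(.lf (nat_lit 116251) (.g (nat_lit 2116) (.e (nat_lit 5946) (nat_lit 322) (.e (nat_lit 57373) (nat_lit 2) (.e (nat_lit 90174) (nat_lit 14) (.e (nat_lit 180243) (nat_lit 5) (.e (nat_lit 532515) (nat_lit 3) .nil))))) .nil)) 
(.lf (nat_lit 116315) (.g (nat_lit 1846) (.e (nat_lit 5946) (nat_lit 322) (.e (nat_lit 57400) (nat_lit 10) (.e (nat_lit 319533) (nat_lit 16) (.e (nat_lit 286760) (nat_lit 13) (.e (nat_lit 393289) (nat_lit 25) .nil))))) .nil))) (.nd (nat_lit 6) 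
(.lf (nat_lit 116283) (.g (nat_lit 1779) (.e (nat_lit 5946) (nat_lit 322) (.e (nat_lit 57400) (nat_lit 10) (.e (nat_lit 319529) (nat_lit 16) (.e (nat_lit 286743) (nat_lit 9) (.e (nat_lit 336432) (nat_lit 30) (.e (nat_lit 450569) (nat_lit 0) .nil)))))) (.g (nat_lit 5) .nil .nil))) 
(.lf (nat_lit 116347) (.g (nat_lit 2369) (.e (nat_lit 5946) (nat_lit 322) (.e (nat_lit 57406) (nat_lit 12) (.e (nat_lit 336443) (nat_lit 32) (.e (nat_lit 466977) (nat_lit 22) (.e (nat_lit 196624) (nat_lit 9) .nil))))) .nil)))))) (.nd (nat_lit 3) (.nd (nat_lit 4) (.nd (nat_lit 5) (.nd (nat_lit 6) 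
(.lf (nat_lit 116231) (.g (nat_lit 2483) (.e (nat_lit 5946) (nat_lit 322) (.e (nat_lit 57373) (nat_lit 2) (.e (nat_lit 90170) (nat_lit 13) (.e (nat_lit 172065) (nat_lit 3) .nil)))) .nil)) 
(.lf (nat_lit 116295) (.g (nat_lit 2239) (.e (nat_lit 5946) (nat_lit 322) (.e (nat_lit 57400) (nat_lit 10) (.e (nat_lit 319530) (nat_lit 16) (.e (nat_lit 286761) (nat_lit 13) (.e (nat_lit 393289) (nat_lit 25) (.e (nat_lit 458773) (nat_lit 18) .nil)))))) (.g (nat_lit 5) .nil .nil)))) (.nd (nat_lit 6) 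
(.lf (nat_lit 116263) (.g (nat_lit 567) (.e (nat_lit 5946) (nat_lit 322) (.e (nat_lit 57378) (nat_lit 3) (.e (nat_lit 98363) (nat_lit 26) .nil))) .nil)) 
(.lf (nat_lit 116327) (.g (nat_lit 2717) (.e (nat_lit 5946) (nat_lit 322) (.e (nat_lit 57400) (nat_lit 10) (.e (nat_lit 319533) (nat_lit 16) (.e (nat_lit 286761) (nat_lit 13) (.e (nat_lit 393289) (nat_lit 25) (.e (nat_lit 458773) (nat_lit 18) .nil)))))) (.g (nat_lit 5) .nil .nil))))) (.nd (nat_lit 5) (.nd (nat_lit 6) 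
(.lf (nat_lit 116247) (.g (nat_lit 3224) (.e (nat_lit 5946) (nat_lit 322) (.e (nat_lit 57373) (nat_lit 2) (.e (nat_lit 90172) (nat_lit 14) (.e (nat_lit 180244) (nat_lit 5) (.e (nat_lit 532515) (nat_lit 3) (.e (nat_lit 114716) (nat_lit 22) (.e (nat_lit 90181) (nat_lit 16) (.e (nat_lit 229376) (nat_lit 0) .nil)))))))) (.g (nat_lit 6) .nil .nil))) 
(.lf (nat_lit 116311) (.g (nat_lit 2670) (.e (nat_lit 5946) (nat_lit 322) (.e (nat_lit 57400) (nat_lit 10) (.e (nat_lit 319533) (nat_lit 16) (.e (nat_lit 286743) (nat_lit 9) (.e (nat_lit 336432) (nat_lit 30) (.e (nat_lit 450569) (nat_lit 0) .nil)))))) (.g (nat_lit 5) .nil .nil)))) (.nd (nat_lit 6) 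
(.lf (nat_lit 116279) (.g (nat_lit 1789) (.e (nat_lit 5946) (nat_lit 322) (.e (nat_lit 57400) (nat_lit 10) (.e (nat_lit 319528) (nat_lit 16) (.e (nat_lit 286761) (nat_lit 13) (.e (nat_lit 393288) (nat_lit 25) (.e (nat_lit 458774) (nat_lit 18) .nil)))))) (.g (nat_lit 4) .nil .nil))) 
(.lf (nat_lit 116343) (.g (nat_lit 2503) (.e (nat_lit 5946) (nat_lit 322) (.e (nat_lit 57400) (nat_lit 10) (.e (nat_lit 319534) (nat_lit 16) (.e (nat_lit 286761) (nat_lit 13) (.e (nat_lit 393289) (nat_lit 25) (.e (nat_lit 458771) (nat_lit 18) .nil)))))) (.g (nat_lit 0) .nil .nil)))))) (.nd (nat_lit 4) (.nd (nat_lit 5) (.nd (nat_lit 6) 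
(.lf (nat_lit 116239) (.g (nat_lit 2611) (.e (nat_lit 5946) (nat_lit 322) (.e (nat_lit 57373) (nat_lit 2) (.e (nat_lit 90172) (nat_lit 14) (.e (nat_lit 180243) (nat_lit 5) (.e (nat_lit 532513) (nat_lit 3) .nil))))) .nil)) 
(.lf (nat_lit 116303) (.g (nat_lit 2424) (.e (nat_lit 5946) (nat_lit 322) (.e (nat_lit 57400) (nat_lit 10) (.e (nat_lit 319531) (nat_lit 16) (.e (nat_lit 286761) (nat_lit 13) (.e (nat_lit 393289) (nat_lit 25) (.e (nat_lit 458773) (nat_lit 18) .nil)))))) (.g (nat_lit 5) .nil .nil)))) (.nd (nat_lit 6) 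
(.lf (nat_lit 116271) (.g (nat_lit 4175) (.e (nat_lit 5946) (nat_lit 322) (.e (nat_lit 57378) (nat_lit 3) (.e (nat_lit 98373) (nat_lit 29) (.e (nat_lit 450562) (nat_lit 0) (.e (nat_lit 6595) (nat_lit 351) .nil))))) .nil)) 
(.lf (nat_lit 116335) (.g (nat_lit 1699) (.e (nat_lit 5946) (nat_lit 322) (.e (nat_lit 57400) (nat_lit 10) (.e (nat_lit 319534) (nat_lit 16) (.e (nat_lit 286760) (nat_lit 13) .nil)))) .nil)))) (.nd (nat_lit 5) (.nd (nat_lit 6) 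
(.lf (nat_lit 116255) (.g (nat_lit 1953) (.e (nat_lit 5946) (nat_lit 322) (.e (nat_lit 57373) (nat_lit 2) (.e (nat_lit 90178) (nat_lit 15) (.e (nat_lit 188461) (nat_lit 26) .nil)))) .nil)) 
(.lf (nat_lit 116319) (.g (nat_lit 2432) (.e (nat_lit 5946) (nat_lit 322) (.e (nat_lit 57400) (nat_lit 10) (.e (nat_lit 319533) (nat_lit 16) (.e (nat_lit 286761) (nat_lit 13) (.e (nat_lit 393264) (nat_lit 22) .nil))))) .nil))) (.nd (nat_lit 6) 
(.lf (nat_lit 116287) (.g (nat_lit 1941) (.e (nat_lit 5946) (nat_lit 322) (.e (nat_lit 57400) (nat_lit 10) (.e (nat_lit 319530) (nat_lit 16) (.e (nat_lit 286743) (nat_lit 9) (.e (nat_lit 336432) (nat_lit 30) (.e (nat_lit 450569) (nat_lit 0) .nil)))))) (.g (nat_lit 5) .nil .nil))) 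
(.lf (nat_lit 116351) (.g (nat_lit 2787) (.e (nat_lit 5946) (nat_lit 322) (.e (nat_lit 57409) (nat_lit 12) (.e (nat_lit 336443) (nat_lit 32) (.e (nat_lit 466974) (nat_lit 22) (.e (nat_lit 196624) (nat_lit 9) (.e (nat_lit 442) (nat_lit 33) (.e (nat_lit 434216) (nat_lit 18) .nil))))))) (.g (nat_lit 4) .nil .nil))))))))))

noncomputable def tv1562 : DT := (.nd (nat_lit 0) (.nd (nat_lit 1) (.nd (nat_lit 2) (.nd (nat_lit 3) (.nd (nat_lit 4) (.nd (nat_lit 5) 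
(.lf (nat_lit 116352) (.g (nat_lit 2674) (.e (nat_lit 5946) (nat_lit 322) (.e (nat_lit 57409) (nat_lit 12) (.e (nat_lit 336443) (nat_lit 32) (.e (nat_lit 466977) (nat_lit 22) (.e (nat_lit 196624) (nat_lit 9) .nil))))) .nil)) 
(.lf (nat_lit 116384) (.g (nat_lit 2586) (.e (nat_lit 5946) (nat_lit 322) (.e (nat_lit 57447) (nat_lit 19) (.e (nat_lit 393234) (nat_lit 17) (.e (nat_lit 7581) (nat_lit 405) (.e (nat_lit 57477) (nat_lit 28) (.e (nat_lit 557104) (nat_lit 14) (.e (nat_lit 180230) (nat_lit 0) .nil))))))) (.g (nat_lit 5) .nil .nil)))) (.nd (nat_lit 5) 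
(.lf (nat_lit 116368) (.g (nat_lit 2600) (.e (nat_lit 5946) (nat_lit 322) (.e (nat_lit 57424) (nat_lit 14) (.e (nat_lit 352318) (nat_lit 24) (.e (nat_lit 123198) (nat_lit 266) (.e (nat_lit 57427) (nat_lit 15) (.e (nat_lit 360457) (nat_lit 0) .nil)))))) (.g (nat_lit 4) .nil .nil))) 
(.lf (nat_lit 116400) (.g (nat_lit 1309) (.e (nat_lit 5946) (nat_lit 322) (.e (nat_lit 57447) (nat_lit 19) (.e (nat_lit 393275) (nat_lit 23) .nil))) .nil)))) (.nd (nat_lit 4) (.nd (nat_lit 5) 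
(.lf (nat_lit 116360) (.g (nat_lit 1101) (.e (nat_lit 5946) (nat_lit 322) (.e (nat_lit 57412) (nat_lit 12) (.e (nat_lit 336226) (nat_lit 14) (.e (nat_lit 401459) (nat_lit 13) .nil)))) .nil)) 
(.lf (nat_lit 116392) (.g (nat_lit 1889) (.e (nat_lit 5946) (nat_lit 322) (.e (nat_lit 57447) (nat_lit 19) (.e (nat_lit 393234) (nat_lit 17) (.e (nat_lit 7583) (nat_lit 405) (.e (nat_lit 57476) (nat_lit 28) (.e (nat_lit 557103) (nat_lit 14) (.e (nat_lit 180224) (nat_lit 0) .nil))))))) (.g (nat_lit 4) .nil .nil)))) (.nd (nat_lit 5) 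
(.lf (nat_lit 116376) (.g (nat_lit 2186) (.e (nat_lit 5946) (nat_lit 322) (.e (nat_lit 57447) (nat_lit 19) (.e (nat_lit 393234) (nat_lit 17) (.e (nat_lit 7581) (nat_lit 405) (.e (nat_lit 57476) (nat_lit 28) .nil))))) .nil)) 
(.lf (nat_lit 116408) (.g (nat_lit 2603) (.e (nat_lit 5946) (nat_lit 322) (.e (nat_lit 57447) (nat_lit 19) (.e (nat_lit 393301) (nat_lit 27) (.e (nat_lit 491526) (nat_lit 0) (.e (nat_lit 1848) (nat_lit 124) .nil))))) .nil))))) (.nd (nat_lit 3) (.nd (nat_lit 4) (.nd (nat_lit 5) 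
(.lf (nat_lit 116356) (.g (nat_lit 3199) (.e (nat_lit 5946) (nat_lit 322) (.e (nat_lit 57412) (nat_lit 12) (.e (nat_lit 336193) (nat_lit 12) (.e (nat_lit 385105) (nat_lit 50) (.e (nat_lit 786483) (nat_lit 30) (.e (nat_lit 360457) (nat_lit 0) .nil)))))) (.g (nat_lit 5) .nil .nil))) 
(.lf (nat_lit 116388) (.g (nat_lit 2145) (.e (nat_lit 5946) (nat_lit 322) (.e (nat_lit 57447) (nat_lit 19) (.e (nat_lit 393234) (nat_lit 17) (.e (nat_lit 7581) (nat_lit 405) (.e (nat_lit 57480) (nat_lit 28) (.e (nat_lit 557105) (nat_lit 14) (.e (nat_lit 180228) (nat_lit 0) .nil))))))) (.g (nat_lit 4) .nil .nil)))) (.nd (nat_lit 5) 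
(.lf (nat_lit 116372) (.g (nat_lit 2015) (.e (nat_lit 5946) (nat_lit 322) (.e (nat_lit 57447) (nat_lit 19) (.e (nat_lit 393232) (nat_lit 17) (.e (nat_lit 7581) (nat_lit 405) .nil)))) .nil)) 
(.lf (nat_lit 116404) (.g (nat_lit 2457) (.e (nat_lit 5946) (nat_lit 322) (.e (nat_lit 57447) (nat_lit 19) (.e (nat_lit 393281) (nat_lit 23) (.e (nat_lit 426116) (nat_lit 2) (.e (nat_lit 196624) (nat_lit 9) (.e (nat_lit 442) (nat_lit 33) (.e (nat_lit 434216) (nat_lit 18) .nil))))))) (.g (nat_lit 4) .nil .nil))))) (.nd (nat_lit 4) (.nd (nat_lit 5) 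
(.lf (nat_lit 116364) (.g (nat_lit 785) (.e (nat_lit 5946) (nat_lit 322) (.e (nat_lit 57424) (nat_lit 14) (.e (nat_lit 352318) (nat_lit 24) .nil))) .nil)) 
(.lf (nat_lit 116396) (.g (nat_lit 3917) (.e (nat_lit 5946) (nat_lit 322) (.e (nat_lit 57447) (nat_lit 19) (.e (nat_lit 393234) (nat_lit 17) (.e (nat_lit 7583) (nat_lit 405) (.e (nat_lit 57476) (nat_lit 28) (.e (nat_lit 557104) (nat_lit 14) (.e (nat_lit 180233) (nat_lit 0) .nil))))))) (.g (nat_lit 0) .nil .nil)))) (.nd (nat_lit 5) 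
(.lf (nat_lit 116380) (.g (nat_lit 4167) (.e (nat_lit 5946) (nat_lit 322) (.e (nat_lit 57447) (nat_lit 19) (.e (nat_lit 393234) (nat_lit 17) (.e (nat_lit 7581) (nat_lit 405) (.e (nat_lit 57476) (nat_lit 28) (.e (nat_lit 557104) (nat_lit 14) (.e (nat_lit 180233) (nat_lit 0) .nil))))))) (.g (nat_lit 0) .nil .nil))) 
(.lf (nat_lit 116412) (.g (nat_lit 2713) (.e (nat_lit 5946) (nat_lit 322) (.e (nat_lit 57447) (nat_lit 19) (.e (nat_lit 393301) (nat_lit 27) (.e (nat_lit 491526) (nat_lit 0) (.e (nat_lit 1855) (nat_lit 124) .nil))))) .nil)))))) (.nd (nat_lit 2) (.nd (nat_lit 3) (.nd (nat_lit 4) (.nd (nat_lit 5) 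
(.lf (nat_lit 116354) (.g (nat_lit 2417) (.e (nat_lit 5946) (nat_lit 322) (.e (nat_lit 57409) (nat_lit 12) (.e (nat_lit 336443) (nat_lit 32) (.e (nat_lit 466978) (nat_lit 23) .nil)))) .nil)) 
(.lf (nat_lit 116386) (.g (nat_lit 4100) (.e (nat_lit 5946) (nat_lit 322) (.e (nat_lit 57447) (nat_lit 19) (.e (nat_lit 393234) (nat_lit 17) (.e (nat_lit 7581) (nat_lit 405) (.e (nat_lit 57477) (nat_lit 28) (.e (nat_lit 557104) (nat_lit 14) (.e (nat_lit 180233) (nat_lit 0) .nil))))))) (.g (nat_lit 0) .nil .nil)))) (.nd (nat_lit 5) 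
(.lf (nat_lit 116370) (.g (nat_lit 2137) (.e (nat_lit 5946) (nat_lit 322) (.e (nat_lit 57424) (nat_lit 14) (.e (nat_lit 352318) (nat_lit 24) (.e (nat_lit 123199) (nat_lit 267) .nil)))) .nil)) 
(.lf (nat_lit 116402) (.g (nat_lit 1513) (.e (nat_lit 5946) (nat_lit 322) (.e (nat_lit 57447) (nat_lit 19) (.e (nat_lit 393281) (nat_lit 23) (.e (nat_lit 426115) (nat_lit 2) .nil)))) .nil)))) (.nd (nat_lit 4) (.nd (nat_lit 5) 
(.lf (nat_lit 116362) (.g (nat_lit 2439) (.e (nat_lit 5946) (nat_lit 322) (.e (nat_lit 57412) (nat_lit 12) (.e (nat_lit 336226) (nat_lit 14) (.e (nat_lit 401459) (nat_lit 13) (.e (nat_lit 483374) (nat_lit 22) (.e (nat_lit 327684) (nat_lit 0) (.e (nat_lit 81) (nat_lit 0) .nil))))))) (.g (nat_lit 4) .nil .nil))) 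
(.lf (nat_lit 116394) (.g (nat_lit 2610) (.e (nat_lit 5946) (nat_lit 322) (.e (nat_lit 57447) (nat_lit 19) (.e (nat_lit 393234) (nat_lit 17) (.e (nat_lit 7583) (nat_lit 405) (.e (nat_lit 57476) (nat_lit 28) (.e (nat_lit 557104) (nat_lit 14) (.e (nat_lit 180224) (nat_lit 0) .nil))))))) (.g (nat_lit 5) .nil .nil)))) (.nd (nat_lit 5) 
(.lf (nat_lit 116378) (.g (nat_lit 2255) (.e (nat_lit 5946) (nat_lit 322) (.e (nat_lit 57447) (nat_lit 19) (.e (nat_lit 393234) (nat_lit 17) (.e (nat_lit 7581) (nat_lit 405) (.e (nat_lit 57476) (nat_lit 28) (.e (nat_lit 557103) (nat_lit 14) (.e (nat_lit 180232) (nat_lit 0) .nil))))))) (.g (nat_lit 4) .nil .nil))) 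
(.lf (nat_lit 116410) (.g (nat_lit 3079) (.e (nat_lit 5946) (nat_lit 322) (.e (nat_lit 57447) (nat_lit 19) (.e (nat_lit 393301) (nat_lit 27) (.e (nat_lit 491526) (nat_lit 0) (.e (nat_lit 1848) (nat_lit 124) (.e (nat_lit 557104) (nat_lit 14) (.e (nat_lit 180224) (nat_lit 0) .nil))))))) (.g (nat_lit 5) .nil .nil)))))) (.nd (nat_lit 3) (.nd (nat_lit 4) (.nd (nat_lit 5) 
(.lf (nat_lit 116358) (.g (nat_lit 1196) (.e (nat_lit 5946) (nat_lit 322) (.e (nat_lit 57412) (nat_lit 12) (.e (nat_lit 336226) (nat_lit 14) (.e (nat_lit 401458) (nat_lit 13) .nil)))) .nil)) 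
(.lf (nat_lit 116390) (.g (nat_lit 2813) (.e (nat_lit 5946) (nat_lit 322) (.e (nat_lit 57447) (nat_lit 19) (.e (nat_lit 393234) (nat_lit 17) (.e (nat_lit 7581) (nat_lit 405) (.e (nat_lit 57480) (nat_lit 28) (.e (nat_lit 557105) (nat_lit 14) (.e (nat_lit 180232) (nat_lit 0) .nil))))))) (.g (nat_lit 5) .nil .nil)))) (.nd (nat_lit 5) 
(.lf (nat_lit 116374) (.g (nat_lit 1998) (.e (nat_lit 5946) (nat_lit 322) (.e (nat_lit 57447) (nat_lit 19) (.e (nat_lit 393233) (nat_lit 17) (.e (nat_lit 7581) (nat_lit 405) (.e (nat_lit 57477) (nat_lit 28) .nil))))) .nil)) 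
(.lf (nat_lit 116406) (.g (nat_lit 2042) (.e (nat_lit 5946) (nat_lit 322) (.e (nat_lit 57447) (nat_lit 19) (.e (nat_lit 393281) (nat_lit 23) (.e (nat_lit 426133) (nat_lit 3) (.e (nat_lit 212736) (nat_lit 10) .nil))))) .nil)))) (.nd (nat_lit 4) (.nd (nat_lit 5) 
(.lf (nat_lit 116366) (.g (nat_lit 2272) (.e (nat_lit 5946) (nat_lit 322) (.e (nat_lit 57424) (nat_lit 14) (.e (nat_lit 352318) (nat_lit 24) (.e (nat_lit 123197) (nat_lit 266) (.e (nat_lit 57427) (nat_lit 15) .nil))))) .nil)) 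
(.lf (nat_lit 116398) (.g (nat_lit 2728) (.e (nat_lit 5946) (nat_lit 322) (.e (nat_lit 57447) (nat_lit 19) (.e (nat_lit 393266) (nat_lit 23) (.e (nat_lit 426140) (nat_lit 3) (.e (nat_lit 212736) (nat_lit 10) (.e (nat_lit 434216) (nat_lit 18) .nil)))))) (.g (nat_lit 4) .nil .nil)))) (.nd (nat_lit 5) 
(.lf (nat_lit 116382) (.g (nat_lit 2368) (.e (nat_lit 5946) (nat_lit 322) (.e (nat_lit 57447) (nat_lit 19) (.e (nat_lit 393234) (nat_lit 17) (.e (nat_lit 7581) (nat_lit 405) (.e (nat_lit 57477) (nat_lit 28) (.e (nat_lit 557103) (nat_lit 14) (.e (nat_lit 180224) (nat_lit 0) .nil))))))) (.g (nat_lit 4) .nil .nil))) 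
(.lf (nat_lit 116414) (.g (nat_lit 1927) (.e (nat_lit 5947) (nat_lit 322) (.e (nat_lit 57347) (nat_lit 0) (.e (nat_lit 1829) (nat_lit 122) (.e (nat_lit 540703) (nat_lit 11) (.e (nat_lit 360192) (nat_lit 18) (.e (nat_lit 483346) (nat_lit 17) (.e (nat_lit 1056) (nat_lit 81) .nil))))))) (.g (nat_lit 6) .nil .nil)))))))) 
(.nd (nat_lit 1) (.nd (nat_lit 2) (.nd (nat_lit 3) (.nd (nat_lit 4) (.nd (nat_lit 5) 
(.lf (nat_lit 116353) (.g (nat_lit 3462) (.e (nat_lit 5946) (nat_lit 322) (.e (nat_lit 57409) (nat_lit 12) (.e (nat_lit 336443) (nat_lit 32) (.e (nat_lit 466977) (nat_lit 22) (.e (nat_lit 196624) (nat_lit 9) (.e (nat_lit 442) (nat_lit 33) (.e (nat_lit 434216) (nat_lit 18) .nil))))))) (.g (nat_lit 5) .nil .nil))) 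
(.lf (nat_lit 116385) (.g (nat_lit 2244) (.e (nat_lit 5946) (nat_lit 322) (.e (nat_lit 57447) (nat_lit 19) (.e (nat_lit 393234) (nat_lit 17) (.e (nat_lit 7581) (nat_lit 405) (.e (nat_lit 57477) (nat_lit 28) (.e (nat_lit 557104) (nat_lit 14) (.e (nat_lit 180232) (nat_lit 0) .nil))))))) (.g (nat_lit 4) .nil .nil)))) (.nd (nat_lit 5) 
(.lf (nat_lit 116369) (.g (nat_lit 2286) (.e (nat_lit 5946) (nat_lit 322) (.e (nat_lit 57424) (nat_lit 14) (.e (nat_lit 352318) (nat_lit 24) (.e (nat_lit 123198) (nat_lit 266) (.e (nat_lit 57428) (nat_lit 15) .nil))))) .nil)) 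
(.lf (nat_lit 116401) (.g (nat_lit 1980) (.e (nat_lit 5946) (nat_lit 322) (.e (nat_lit 57447) (nat_lit 19) (.e (nat_lit 393277) (nat_lit 23) (.e (nat_lit 426140) (nat_lit 3) (.e (nat_lit 212736) (nat_lit 10) .nil))))) .nil)))) (.nd (nat_lit 4) (.nd (nat_lit 5) 
(.lf (nat_lit 116361) (.g (nat_lit 5619) (.e (nat_lit 5946) (nat_lit 322) (.e (nat_lit 57412) (nat_lit 12) (.e (nat_lit 336226) (nat_lit 14) (.e (nat_lit 401459) (nat_lit 13) (.e (nat_lit 483372) (nat_lit 21) (.e (nat_lit 319490) (nat_lit 0) (.e (nat_lit 75) (nat_lit 0) .nil))))))) (.g (nat_lit 5) .nil .nil))) 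
(.lf (nat_lit 116393) (.g (nat_lit 2643) (.e (nat_lit 5946) (nat_lit 322) (.e (nat_lit 57447) (nat_lit 19) (.e (nat_lit 393234) (nat_lit 17) (.e (nat_lit 7583) (nat_lit 405) (.e (nat_lit 57476) (nat_lit 28) (.e (nat_lit 557103) (nat_lit 14) (.e (nat_lit 180228) (nat_lit 0) .nil))))))) (.g (nat_lit 5) .nil .nil)))) (.nd (nat_lit 5) 
(.lf (nat_lit 116377) (.g (nat_lit 2837) (.e (nat_lit 5946) (nat_lit 322) (.e (nat_lit 57447) (nat_lit 19) (.e (nat_lit 393234) (nat_lit 17) (.e (nat_lit 7581) (nat_lit 405) (.e (nat_lit 57476) (nat_lit 28) (.e (nat_lit 557103) (nat_lit 14) (.e (nat_lit 180228) (nat_lit 0) .nil))))))) (.g (nat_lit 5) .nil .nil))) 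
(.lf (nat_lit 116409) (.g (nat_lit 2752) (.e (nat_lit 5946) (nat_lit 322) (.e (nat_lit 57447) (nat_lit 19) (.e (nat_lit 393301) (nat_lit 27) (.e (nat_lit 491526) (nat_lit 0) (.e (nat_lit 1848) (nat_lit 124) (.e (nat_lit 557103) (nat_lit 14) (.e (nat_lit 180224) (nat_lit 0) .nil))))))) (.g (nat_lit 4) .nil .nil)))))) (.nd (nat_lit 3) (.nd (nat_lit 4) (.nd (nat_lit 5) 
(.lf (nat_lit 116357) (.g (nat_lit 546) (.e (nat_lit 5946) (nat_lit 322) (.e (nat_lit 57412) (nat_lit 12) (.e (nat_lit 336226) (nat_lit 14) .nil))) .nil)) 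
(.lf (nat_lit 116389) (.g (nat_lit 3686) (.e (nat_lit 5946) (nat_lit 322) (.e (nat_lit 57447) (nat_lit 19) (.e (nat_lit 393234) (nat_lit 17) (.e (nat_lit 7581) (nat_lit 405) (.e (nat_lit 57480) (nat_lit 28) (.e (nat_lit 557105) (nat_lit 14) (.e (nat_lit 180230) (nat_lit 0) .nil))))))) (.g (nat_lit 6) .nil .nil)))) (.nd (nat_lit 5) 
(.lf (nat_lit 116373) (.g (nat_lit 876) (.e (nat_lit 5946) (nat_lit 322) (.e (nat_lit 57447) (nat_lit 19) (.e (nat_lit 393233) (nat_lit 17) .nil))) .nil)) 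
(.lf (nat_lit 116405) (.g (nat_lit 2097) (.e (nat_lit 5946) (nat_lit 322) (.e (nat_lit 57447) (nat_lit 19) (.e (nat_lit 393281) (nat_lit 23) (.e (nat_lit 426116) (nat_lit 2) (.e (nat_lit 196656) (nat_lit 11) .nil))))) .nil)))) (.nd (nat_lit 4) (.nd (nat_lit 5) 
(.lf (nat_lit 116365) (.g (nat_lit 2292) (.e (nat_lit 5946) (nat_lit 322) (.e (nat_lit 57424) (nat_lit 14) (.e (nat_lit 352318) (nat_lit 24) (.e (nat_lit 123197) (nat_lit 266) (.e (nat_lit 57426) (nat_lit 15) .nil))))) .nil)) 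
(.lf (nat_lit 116397) (.g (nat_lit 1124) (.e (nat_lit 5946) (nat_lit 322) (.e (nat_lit 57447) (nat_lit 19) (.e (nat_lit 393266) (nat_lit 23) .nil))) .nil))) (.nd (nat_lit 5) 
(.lf (nat_lit 116381) (.g (nat_lit 2171) (.e (nat_lit 5946) (nat_lit 322) (.e (nat_lit 57447) (nat_lit 19) (.e (nat_lit 393234) (nat_lit 17) (.e (nat_lit 7581) (nat_lit 405) (.e (nat_lit 57477) (nat_lit 28) .nil))))) .nil)) 
(.lf (nat_lit 116413) (.g (nat_lit 1867) (.e (nat_lit 5946) (nat_lit 322) (.e (nat_lit 57449) (nat_lit 20) (.e (nat_lit 401454) (nat_lit 12) (.e (nat_lit 475208) (nat_lit 41) .nil)))) .nil)))))) (.nd (nat_lit 2) (.nd (nat_lit 3) (.nd (nat_lit 4) (.nd (nat_lit 5) 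
(.lf (nat_lit 116355) (.g (nat_lit 2210) (.e (nat_lit 5946) (nat_lit 322) (.e (nat_lit 57412) (nat_lit 12) (.e (nat_lit 336193) (nat_lit 12) (.e (nat_lit 385105) (nat_lit 50) (.e (nat_lit 786483) (nat_lit 30) .nil))))) .nil)) 
(.lf (nat_lit 116387) (.g (nat_lit 3905) (.e (nat_lit 5946) (nat_lit 322) (.e (nat_lit 57447) (nat_lit 19) (.e (nat_lit 393234) (nat_lit 17) (.e (nat_lit 7581) (nat_lit 405) (.e (nat_lit 57480) (nat_lit 28) (.e (nat_lit 557103) (nat_lit 14) (.e (nat_lit 180229) (nat_lit 0) .nil))))))) (.g (nat_lit 6) .nil .nil)))) (.nd (nat_lit 5) 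
(.lf (nat_lit 116371) (.g (nat_lit 1255) (.e (nat_lit 5946) (nat_lit 322) (.e (nat_lit 57447) (nat_lit 19) (.e (nat_lit 393231) (nat_lit 17) .nil))) .nil)) 
(.lf (nat_lit 116403) (.g (nat_lit 1493) (.e (nat_lit 5946) (nat_lit 322) (.e (nat_lit 57447) (nat_lit 19) (.e (nat_lit 393281) (nat_lit 23) (.e (nat_lit 426116) (nat_lit 2) .nil)))) .nil)))) (.nd (nat_lit 4) (.nd (nat_lit 5) 
(.lf (nat_lit 116363) (.g (nat_lit 886) (.e (nat_lit 5946) (nat_lit 322) (.e (nat_lit 57424) (nat_lit 14) (.e (nat_lit 352270) (nat_lit 8) .nil))) .nil)) 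
(.lf (nat_lit 116395) (.g (nat_lit 1875) (.e (nat_lit 5946) (nat_lit 322) (.e (nat_lit 57447) (nat_lit 19) (.e (nat_lit 393234) (nat_lit 17) (.e (nat_lit 7583) (nat_lit 405) (.e (nat_lit 57476) (nat_lit 28) (.e (nat_lit 557104) (nat_lit 14) (.e (nat_lit 180232) (nat_lit 0) .nil))))))) (.g (nat_lit 4) .nil .nil)))) (.nd (nat_lit 5) 
(.lf (nat_lit 116379) (.g (nat_lit 2857) (.e (nat_lit 5946) (nat_lit 322) (.e (nat_lit 57447) (nat_lit 19) (.e (nat_lit 393234) (nat_lit 17) (.e (nat_lit 7581) (nat_lit 405) (.e (nat_lit 57476) (nat_lit 28) (.e (nat_lit 557104) (nat_lit 14) (.e (nat_lit 180224) (nat_lit 0) .nil))))))) (.g (nat_lit 5) .nil .nil))) 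
(.lf (nat_lit 116411) (.g (nat_lit 2738) (.e (nat_lit 5946) (nat_lit 322) (.e (nat_lit 57447) (nat_lit 19) (.e (nat_lit 393301) (nat_lit 27) (.e (nat_lit 491526) (nat_lit 0) (.e (nat_lit 1848) (nat_lit 124) (.e (nat_lit 557104) (nat_lit 14) (.e (nat_lit 180230) (nat_lit 0) .nil))))))) (.g (nat_lit 4) .nil .nil)))))) (.nd (nat_lit 3) (.nd (nat_lit 4) (.nd (nat_lit 5) 
(.lf (nat_lit 116359) (.g (nat_lit 2038) (.e (nat_lit 5946) (nat_lit 322) (.e (nat_lit 57412) (nat_lit 12) (.e (nat_lit 336226) (nat_lit 14) (.e (nat_lit 401458) (nat_lit 13) (.e (nat_lit 483396) (nat_lit 24) .nil))))) .nil)) 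
(.lf (nat_lit 116391) (.g (nat_lit 3594) (.e (nat_lit 5946) (nat_lit 322) (.e (nat_lit 57447) (nat_lit 19) (.e (nat_lit 393234) (nat_lit 17) (.e (nat_lit 7581) (nat_lit 405) (.e (nat_lit 57480) (nat_lit 28) (.e (nat_lit 557105) (nat_lit 14) (.e (nat_lit 180233) (nat_lit 0) .nil))))))) (.g (nat_lit 6) .nil .nil)))) (.nd (nat_lit 5) 
(.lf (nat_lit 116375) (.g (nat_lit 1995) (.e (nat_lit 5946) (nat_lit 322) (.e (nat_lit 57447) (nat_lit 19) (.e (nat_lit 393233) (nat_lit 17) (.e (nat_lit 7581) (nat_lit 405) (.e (nat_lit 57480) (nat_lit 28) .nil))))) .nil)) 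
(.lf (nat_lit 116407) (.g (nat_lit 1966) (.e (nat_lit 5946) (nat_lit 322) (.e (nat_lit 57447) (nat_lit 19) (.e (nat_lit 393301) (nat_lit 27) (.e (nat_lit 491520) (nat_lit 0) .nil)))) .nil)))) (.nd (nat_lit 4) (.nd (nat_lit 5) 
(.lf (nat_lit 116367) (.g (nat_lit 1844) (.e (nat_lit 5946) (nat_lit 322) (.e (nat_lit 57424) (nat_lit 14) (.e (nat_lit 352318) (nat_lit 24) (.e (nat_lit 123198) (nat_lit 266) .nil)))) .nil)) 
(.lf (nat_lit 116399) (.g (nat_lit 1122) (.e (nat_lit 5946) (nat_lit 322) (.e (nat_lit 57447) (nat_lit 19) (.e (nat_lit 393274) (nat_lit 23) .nil))) .nil))) (.nd (nat_lit 5) 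
(.lf (nat_lit 116383) (.g (nat_lit 3557) (.e (nat_lit 5946) (nat_lit 322) (.e (nat_lit 57447) (nat_lit 19) (.e (nat_lit 393234) (nat_lit 17) (.e (nat_lit 7581) (nat_lit 405) (.e (nat_lit 57477) (nat_lit 28) (.e (nat_lit 557103) (nat_lit 14) (.e (nat_lit 180229) (nat_lit 0) .nil))))))) (.g (nat_lit 6) .nil .nil))) 
(.lf (nat_lit 116415) (.g (nat_lit 2571) (.e (nat_lit 5947) (nat_lit 322) (.e (nat_lit 57347) (nat_lit 0) (.e (nat_lit 2031) (nat_lit 140) (.e (nat_lit 688177) (nat_lit 16) (.e (nat_lit 65583) (nat_lit 7) (.e (nat_lit 319530) (nat_lit 16) (.e (nat_lit 286748) (nat_lit 9) (.e (nat_lit 335889) (nat_lit 0) (.e (nat_lit 1055) (nat_lit 81) .nil))))))))) (.g (nat_lit 5) .nil .nil)))))))))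

noncomputable def tv1563 : DT := (.nd (nat_lit 0) (.nd (nat_lit 1) (.nd (nat_lit 2) (.nd (nat_lit 3) (.nd (nat_lit 4) (.nd (nat_lit 5) 
(.lf (nat_lit 116416) (.g (nat_lit 2594) (.e (nat_lit 5947) (nat_lit 322) (.e (nat_lit 57347) (nat_lit 0) (.e (nat_lit 2031) (nat_lit 140) (.e (nat_lit 688177) (nat_lit 16) (.e (nat_lit 65583) (nat_lit 7) (.e (nat_lit 319530) (nat_lit 16) (.e (nat_lit 286748) (nat_lit 9) (.e (nat_lit 335938) (nat_lit 0) (.e (nat_lit 1086) (nat_lit 81) .nil))))))))) (.g (nat_lit 5) .nil .nil))) 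
(.lf (nat_lit 116448) (.g (nat_lit 3841) (.e (nat_lit 5947) (nat_lit 322) (.e (nat_lit 57371) (nat_lit 2) (.e (nat_lit 90172) (nat_lit 14) (.e (nat_lit 180244) (nat_lit 5) (.e (nat_lit 532515) (nat_lit 3) (.e (nat_lit 114719) (nat_lit 23) (.e (nat_lit 98325) (nat_lit 17) (.e (nat_lit 2515) (nat_lit 157) .nil)))))))) (.g (nat_lit 7) .nil .nil)))) (.nd (nat_lit 5) 
(.lf (nat_lit 116432) (.g (nat_lit 2016) (.e (nat_lit 5947) (nat_lit 322) (.e (nat_lit 57371) (nat_lit 2) (.e (nat_lit 90167) (nat_lit 13) (.e (nat_lit 172123) (nat_lit 13) (.e (nat_lit 491264) (nat_lit 10) (.e (nat_lit 434216) (nat_lit 18) .nil)))))) (.g (nat_lit 4) .nil .nil))) 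
(.lf (nat_lit 116464) (.g (nat_lit 2802) (.e (nat_lit 5947) (nat_lit 322) (.e (nat_lit 57371) (nat_lit 2) (.e (nat_lit 90185) (nat_lit 17) (.e (nat_lit 237605) (nat_lit 9) (.e (nat_lit 426479) (nat_lit 27) (.e (nat_lit 336421) (nat_lit 28) (.e (nat_lit 434216) (nat_lit 18) .nil))))))) (.g (nat_lit 6) .nil .nil))))) (.nd (nat_lit 4) (.nd (nat_lit 5) 
(.lf (nat_lit 116424) (.g (nat_lit 2735) (.e (nat_lit 5947) (nat_lit 322) (.e (nat_lit 57347) (nat_lit 0) (.e (nat_lit 2031) (nat_lit 140) (.e (nat_lit 688177) (nat_lit 16) (.e (nat_lit 65586) (nat_lit 7) (.e (nat_lit 319531) (nat_lit 16) (.e (nat_lit 286748) (nat_lit 9) (.e (nat_lit 335919) (nat_lit 0) (.e (nat_lit 1086) (nat_lit 81) .nil))))))))) (.g (nat_lit 5) .nil .nil))) 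
(.lf (nat_lit 116456) (.g (nat_lit 1889) (.e (nat_lit 5947) (nat_lit 322) (.e (nat_lit 57371) (nat_lit 2) (.e (nat_lit 90176) (nat_lit 15) (.e (nat_lit 188461) (nat_lit 26) (.e (nat_lit 261888) (nat_lit 5) .nil))))) .nil))) (.nd (nat_lit 5) 
(.lf (nat_lit 116440) (.g (nat_lit 2815) (.e (nat_lit 5947) (nat_lit 322) (.e (nat_lit 57371) (nat_lit 2) (.e (nat_lit 90172) (nat_lit 14) (.e (nat_lit 180243) (nat_lit 5) (.e (nat_lit 532515) (nat_lit 3) (.e (nat_lit 114719) (nat_lit 23) (.e (nat_lit 98325) (nat_lit 17) (.e (nat_lit 2515) (nat_lit 157) .nil)))))))) (.g (nat_lit 5) .nil .nil))) 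
(.lf (nat_lit 116472) (.g (nat_lit 2297) (.e (nat_lit 5947) (nat_lit 322) (.e (nat_lit 57373) (nat_lit 2) (.e (nat_lit 90172) (nat_lit 14) (.e (nat_lit 180243) (nat_lit 5) .nil)))) .nil))))) (.nd (nat_lit 3) (.nd (nat_lit 4) (.nd (nat_lit 5) 
(.lf (nat_lit 116420) (.g (nat_lit 2648) (.e (nat_lit 5947) (nat_lit 322) (.e (nat_lit 57347) (nat_lit 0) (.e (nat_lit 2031) (nat_lit 140) (.e (nat_lit 688177) (nat_lit 16) (.e (nat_lit 65586) (nat_lit 7) (.e (nat_lit 319531) (nat_lit 16) (.e (nat_lit 286748) (nat_lit 9) (.e (nat_lit 335905) (nat_lit 0) (.e (nat_lit 1055) (nat_lit 81) .nil))))))))) (.g (nat_lit 5) .nil .nil))) 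
(.lf (nat_lit 116452) (.g (nat_lit 3256) (.e (nat_lit 5947) (nat_lit 322) (.e (nat_lit 57371) (nat_lit 2) (.e (nat_lit 90174) (nat_lit 14) (.e (nat_lit 180243) (nat_lit 5) (.e (nat_lit 532515) (nat_lit 3) (.e (nat_lit 114716) (nat_lit 22) (.e (nat_lit 90181) (nat_lit 16) (.e (nat_lit 229381) (nat_lit 0) .nil)))))))) (.g (nat_lit 6) .nil .nil)))) (.nd (nat_lit 5) 
(.lf (nat_lit 116436) (.g (nat_lit 3304) (.e (nat_lit 5947) (nat_lit 322) (.e (nat_lit 57371) (nat_lit 2) (.e (nat_lit 90172) (nat_lit 14) (.e (nat_lit 180243) (nat_lit 5) (.e (nat_lit 532513) (nat_lit 3) (.e (nat_lit 114718) (nat_lit 23) (.e (nat_lit 98325) (nat_lit 17) (.e (nat_lit 2515) (nat_lit 157) .nil)))))))) (.g (nat_lit 5) .nil .nil))) 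
(.lf (nat_lit 116468) (.g (nat_lit 1946) (.e (nat_lit 5947) (nat_lit 322) (.e (nat_lit 57373) (nat_lit 2) (.e (nat_lit 90170) (nat_lit 13) (.e (nat_lit 172067) (nat_lit 3) .nil)))) .nil)))) (.nd (nat_lit 4) (.nd (nat_lit 5) 
(.lf (nat_lit 116428) (.g (nat_lit 2395) (.e (nat_lit 5947) (nat_lit 322) (.e (nat_lit 57347) (nat_lit 0) (.e (nat_lit 2031) (nat_lit 140) (.e (nat_lit 688177) (nat_lit 16) (.e (nat_lit 65586) (nat_lit 7) (.e (nat_lit 319531) (nat_lit 16) (.e (nat_lit 286748) (nat_lit 9) (.e (nat_lit 335935) (nat_lit 0) (.e (nat_lit 1086) (nat_lit 81) .nil))))))))) (.g (nat_lit 4) .nil .nil))) 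
(.lf (nat_lit 116460) (.g (nat_lit 1522) (.e (nat_lit 5947) (nat_lit 322) (.e (nat_lit 57371) (nat_lit 2) (.e (nat_lit 90178) (nat_lit 15) (.e (nat_lit 188459) (nat_lit 26) .nil)))) .nil))) (.nd (nat_lit 5) 
(.lf (nat_lit 116444) (.g (nat_lit 4112) (.e (nat_lit 5947) (nat_lit 322) (.e (nat_lit 57371) (nat_lit 2) (.e (nat_lit 90172) (nat_lit 14) (.e (nat_lit 180244) (nat_lit 5) (.e (nat_lit 532513) (nat_lit 3) (.e (nat_lit 114719) (nat_lit 23) (.e (nat_lit 98325) (nat_lit 17) (.e (nat_lit 2515) (nat_lit 157) .nil)))))))) (.g (nat_lit 6) .nil .nil))) 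
(.lf (nat_lit 116476) (.g (nat_lit 2324) (.e (nat_lit 5947) (nat_lit 322) (.e (nat_lit 57373) (nat_lit 2) (.e (nat_lit 90172) (nat_lit 14) (.e (nat_lit 180244) (nat_lit 5) (.e (nat_lit 532515) (nat_lit 3) (.e (nat_lit 114715) (nat_lit 22) (.e (nat_lit 90165) (nat_lit 12) (.e (nat_lit 163857) (nat_lit 0) .nil)))))))) (.g (nat_lit 4) .nil .nil))))))) 
(.nd (nat_lit 2) (.nd (nat_lit 3) (.nd (nat_lit 4) (.nd (nat_lit 5) 
(.lf (nat_lit 116418) (.g (nat_lit 1940) (.e (nat_lit 5947) (nat_lit 322) (.e (nat_lit 57347) (nat_lit 0) (.e (nat_lit 2031) (nat_lit 140) (.e (nat_lit 688177) (nat_lit 16) (.e (nat_lit 65586) (nat_lit 7) .nil))))) .nil)) 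
(.lf (nat_lit 116450) (.g (nat_lit 3550) (.e (nat_lit 5947) (nat_lit 322) (.e (nat_lit 57371) (nat_lit 2) (.e (nat_lit 90174) (nat_lit 14) (.e (nat_lit 180243) (nat_lit 5) (.e (nat_lit 532508) (nat_lit 2) (.e (nat_lit 106517) (nat_lit 9) (.e (nat_lit 1255) (nat_lit 92) (.e (nat_lit 98325) (nat_lit 17) (.e (nat_lit 2515) (nat_lit 157) .nil))))))))) (.g (nat_lit 8) .nil .nil)))) (.nd (nat_lit 5) 
(.lf (nat_lit 116434) (.g (nat_lit 1597) (.e (nat_lit 5947) (nat_lit 322) (.e (nat_lit 57371) (nat_lit 2) (.e (nat_lit 90169) (nat_lit 13) (.e (nat_lit 172121) (nat_lit 13) (.e (nat_lit 491264) (nat_lit 10) (.e (nat_lit 434216) (nat_lit 18) .nil)))))) (.g (nat_lit 4) .nil .nil))) 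
(.lf (nat_lit 116466) (.g (nat_lit 610) (.e (nat_lit 5947) (nat_lit 322) (.e (nat_lit 57371) (nat_lit 2) (.e (nat_lit 90186) (nat_lit 17) .nil))) .nil)))) (.nd (nat_lit 4) (.nd (nat_lit 5) 
(.lf (nat_lit 116426) (.g (nat_lit 2651) (.e (nat_lit 5947) (nat_lit 322) (.e (nat_lit 57347) (nat_lit 0) (.e (nat_lit 2031) (nat_lit 140) (.e (nat_lit 688177) (nat_lit 16) (.e (nat_lit 65586) (nat_lit 7) (.e (nat_lit 319531) (nat_lit 16) (.e (nat_lit 286748) (nat_lit 9) (.e (nat_lit 335925) (nat_lit 0) (.e (nat_lit 1082) (nat_lit 81) .nil))))))))) (.g (nat_lit 5) .nil .nil))) 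
(.lf (nat_lit 116458) (.g (nat_lit 645) (.e (nat_lit 5947) (nat_lit 322) (.e (nat_lit 57371) (nat_lit 2) (.e (nat_lit 90178) (nat_lit 15) .nil))) .nil))) (.nd (nat_lit 5) 
(.lf (nat_lit 116442) (.g (nat_lit 3640) (.e (nat_lit 5947) (nat_lit 322) (.e (nat_lit 57371) (nat_lit 2) (.e (nat_lit 90172) (nat_lit 14) (.e (nat_lit 180244) (nat_lit 5) (.e (nat_lit 532513) (nat_lit 3) (.e (nat_lit 114714) (nat_lit 22) (.e (nat_lit 90165) (nat_lit 12) (.e (nat_lit 163857) (nat_lit 0) .nil)))))))) (.g (nat_lit 6) .nil .nil))) 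
(.lf (nat_lit 116474) (.g (nat_lit 2460) (.e (nat_lit 5947) (nat_lit 322) (.e (nat_lit 57373) (nat_lit 2) (.e (nat_lit 90172) (nat_lit 14) (.e (nat_lit 180244) (nat_lit 5) (.e (nat_lit 532513) (nat_lit 3) (.e (nat_lit 114714) (nat_lit 22) (.e (nat_lit 90165) (nat_lit 12) (.e (nat_lit 163857) (nat_lit 0) .nil)))))))) (.g (nat_lit 4) .nil .nil)))))) 
(.nd (nat_lit 3) (.nd (nat_lit 4) (.nd (nat_lit 5) 
(.lf (nat_lit 116422) (.g (nat_lit 2723) (.e (nat_lit 5947) (nat_lit 322) (.e (nat_lit 57347) (nat_lit 0) (.e (nat_lit 2031) (nat_lit 140) (.e (nat_lit 688177) (nat_lit 16) (.e (nat_lit 65586) (nat_lit 7) (.e (nat_lit 319531) (nat_lit 16) (.e (nat_lit 286748) (nat_lit 9) (.e (nat_lit 335915) (nat_lit 0) (.e (nat_lit 1068) (nat_lit 81) .nil))))))))) (.g (nat_lit 5) .nil .nil))) 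
(.lf (nat_lit 116454) (.g (nat_lit 1224) (.e (nat_lit 5947) (nat_lit 322) (.e (nat_lit 57371) (nat_lit 2) (.e (nat_lit 90176) (nat_lit 15) (.e (nat_lit 196352) (nat_lit 18) .nil)))) .nil))) (.nd (nat_lit 5) 
(.lf (nat_lit 116438) (.g (nat_lit 1974) (.e (nat_lit 5947) (nat_lit 322) (.e (nat_lit 57371) (nat_lit 2) (.e (nat_lit 90172) (nat_lit 14) (.e (nat_lit 180243) (nat_lit 5) (.e (nat_lit 532515) (nat_lit 3) .nil))))) .nil)) 
(.lf (nat_lit 116470) (.g (nat_lit 2347) (.e (nat_lit 5947) (nat_lit 322) (.e (nat_lit 57373) (nat_lit 2) (.e (nat_lit 90170) (nat_lit 13) (.e (nat_lit 172121) (nat_lit 13) .nil)))) .nil)))) (.nd (nat_lit 4) (.nd (nat_lit 5) 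
(.lf (nat_lit 116430) (.g (nat_lit 5020) (.e (nat_lit 5947) (nat_lit 322) (.e (nat_lit 57347) (nat_lit 0) (.e (nat_lit 2031) (nat_lit 140) (.e (nat_lit 688177) (nat_lit 16) (.e (nat_lit 65586) (nat_lit 7) (.e (nat_lit 319531) (nat_lit 16) (.e (nat_lit 286756) (nat_lit 10) (.e (nat_lit 344104) (nat_lit 18) .nil)))))))) (.g (nat_lit 7) .nil .nil))) 
(.lf (nat_lit 116462) (.g (nat_lit 641) (.e (nat_lit 5947) (nat_lit 322) (.e (nat_lit 57371) (nat_lit 2) (.e (nat_lit 90183) (nat_lit 17) .nil))) .nil))) (.nd (nat_lit 5) 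
(.lf (nat_lit 116446) (.g (nat_lit 1877) (.e (nat_lit 5947) (nat_lit 322) (.e (nat_lit 57371) (nat_lit 2) (.e (nat_lit 90172) (nat_lit 14) (.e (nat_lit 180244) (nat_lit 5) (.e (nat_lit 532515) (nat_lit 3) .nil))))) .nil)) 
(.lf (nat_lit 116478) (.g (nat_lit 1832) (.e (nat_lit 5947) (nat_lit 322) (.e (nat_lit 57373) (nat_lit 2) (.e (nat_lit 90174) (nat_lit 14) (.e (nat_lit 180243) (nat_lit 5) .nil)))) .nil))))))) (.nd (nat_lit 1) (.nd (nat_lit 2) (.nd (nat_lit 3) (.nd (nat_lit 4) (.nd (nat_lit 5) 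
(.lf (nat_lit 116417) (.g (nat_lit 3012) (.e (nat_lit 5947) (nat_lit 322) (.e (nat_lit 57347) (nat_lit 0) (.e (nat_lit 2031) (nat_lit 140) (.e (nat_lit 688177) (nat_lit 16) (.e (nat_lit 65583) (nat_lit 7) (.e (nat_lit 319530) (nat_lit 16) (.e (nat_lit 286751) (nat_lit 10) (.e (nat_lit 344104) (nat_lit 18) .nil)))))))) (.g (nat_lit 6) .nil .nil))) 
(.lf (nat_lit 116449) (.g (nat_lit 2205) (.e (nat_lit 5947) (nat_lit 322) (.e (nat_lit 57371) (nat_lit 2) (.e (nat_lit 90174) (nat_lit 14) (.e (nat_lit 180243) (nat_lit 5) (.e (nat_lit 532508) (nat_lit 2) .nil))))) .nil))) (.nd (nat_lit 5) 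
(.lf (nat_lit 116433) (.g (nat_lit 1370) (.e (nat_lit 5947) (nat_lit 322) (.e (nat_lit 57371) (nat_lit 2) (.e (nat_lit 90168) (nat_lit 13) (.e (nat_lit 172123) (nat_lit 13) (.e (nat_lit 491264) (nat_lit 10) .nil))))) .nil)) 
(.lf (nat_lit 116465) (.g (nat_lit 2146) (.e (nat_lit 5947) (nat_lit 322) (.e (nat_lit 57371) (nat_lit 2) (.e (nat_lit 90185) (nat_lit 17) (.e (nat_lit 237620) (nat_lit 13) .nil)))) .nil)))) (.nd (nat_lit 4) (.nd (nat_lit 5) 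
(.lf (nat_lit 116425) (.g (nat_lit 2387) (.e (nat_lit 5947) (nat_lit 322) (.e (nat_lit 57347) (nat_lit 0) (.e (nat_lit 2031) (nat_lit 140) (.e (nat_lit 688177) (nat_lit 16) (.e (nat_lit 65586) (nat_lit 7) (.e (nat_lit 319531) (nat_lit 16) (.e (nat_lit 286748) (nat_lit 9) (.e (nat_lit 335921) (nat_lit 0) (.e (nat_lit 1086) (nat_lit 81) .nil))))))))) (.g (nat_lit 4) .nil .nil))) 
(.lf (nat_lit 116457) (.g (nat_lit 1425) (.e (nat_lit 5947) (nat_lit 322) (.e (nat_lit 57371) (nat_lit 2) (.e (nat_lit 90177) (nat_lit 15) (.e (nat_lit 188461) (nat_lit 26) (.e (nat_lit 261888) (nat_lit 5) (.e (nat_lit 180233) (nat_lit 0) .nil)))))) (.g (nat_lit 4) .nil .nil)))) (.nd (nat_lit 5) 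
(.lf (nat_lit 116441) (.g (nat_lit 2481) (.e (nat_lit 5947) (nat_lit 322) (.e (nat_lit 57371) (nat_lit 2) (.e (nat_lit 90172) (nat_lit 14) (.e (nat_lit 180244) (nat_lit 5) (.e (nat_lit 532508) (nat_lit 2) (.e (nat_lit 106517) (nat_lit 9) (.e (nat_lit 1255) (nat_lit 92) (.e (nat_lit 98325) (nat_lit 17) (.e (nat_lit 2515) (nat_lit 157) .nil))))))))) (.g (nat_lit 4) .nil .nil))) 
(.lf (nat_lit 116473) (.g (nat_lit 1752) (.e (nat_lit 5947) (nat_lit 322) (.e (nat_lit 57373) (nat_lit 2) (.e (nat_lit 90172) (nat_lit 14) (.e (nat_lit 180244) (nat_lit 5) .nil)))) .nil))))) (.nd (nat_lit 3) (.nd (nat_lit 4) (.nd (nat_lit 5) 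
(.lf (nat_lit 116421) (.g (nat_lit 2372) (.e (nat_lit 5947) (nat_lit 322) (.e (nat_lit 57347) (nat_lit 0) (.e (nat_lit 2031) (nat_lit 140) (.e (nat_lit 688177) (nat_lit 16) (.e (nat_lit 65586) (nat_lit 7) (.e (nat_lit 319531) (nat_lit 16) (.e (nat_lit 286748) (nat_lit 9) (.e (nat_lit 335905) (nat_lit 0) (.e (nat_lit 1083) (nat_lit 81) .nil))))))))) (.g (nat_lit 4) .nil .nil))) 
(.lf (nat_lit 116453) (.g (nat_lit 1282) (.e (nat_lit 5947) (nat_lit 322) (.e (nat_lit 57371) (nat_lit 2) (.e (nat_lit 90175) (nat_lit 15) (.e (nat_lit 188461) (nat_lit 26) (.e (nat_lit 261888) (nat_lit 5) .nil))))) .nil))) (.nd (nat_lit 5) 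
(.lf (nat_lit 116437) (.g (nat_lit 3287) (.e (nat_lit 5947) (nat_lit 322) (.e (nat_lit 57371) (nat_lit 2) (.e (nat_lit 90172) (nat_lit 14) (.e (nat_lit 180243) (nat_lit 5) (.e (nat_lit 532513) (nat_lit 3) (.e (nat_lit 114719) (nat_lit 23) (.e (nat_lit 98325) (nat_lit 17) (.e (nat_lit 2515) (nat_lit 157) .nil)))))))) (.g (nat_lit 5) .nil .nil))) 
(.lf (nat_lit 116469) (.g (nat_lit 2878) (.e (nat_lit 5947) (nat_lit 322) (.e (nat_lit 57373) (nat_lit 2) (.e (nat_lit 90170) (nat_lit 13) (.e (nat_lit 172067) (nat_lit 3) (.e (nat_lit 204838) (nat_lit 20) .nil))))) .nil)))) (.nd (nat_lit 4) (.nd (nat_lit 5) 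
(.lf (nat_lit 116429) (.g (nat_lit 3946) (.e (nat_lit 5947) (nat_lit 322) (.e (nat_lit 57347) (nat_lit 0) (.e (nat_lit 2031) (nat_lit 140) (.e (nat_lit 688177) (nat_lit 16) (.e (nat_lit 65586) (nat_lit 7) (.e (nat_lit 319531) (nat_lit 16) (.e (nat_lit 286755) (nat_lit 10) (.e (nat_lit 344104) (nat_lit 18) .nil)))))))) (.g (nat_lit 6) .nil .nil))) 
(.lf (nat_lit 116461) (.g (nat_lit 1524) (.e (nat_lit 5947) (nat_lit 322) (.e (nat_lit 57371) (nat_lit 2) (.e (nat_lit 90178) (nat_lit 15) (.e (nat_lit 188461) (nat_lit 26) .nil)))) .nil))) (.nd (nat_lit 5) 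
(.lf (nat_lit 116445) (.g (nat_lit 2283) (.e (nat_lit 5947) (nat_lit 322) (.e (nat_lit 57371) (nat_lit 2) (.e (nat_lit 90172) (nat_lit 14) (.e (nat_lit 180244) (nat_lit 5) (.e (nat_lit 532514) (nat_lit 3) (.e (nat_lit 114719) (nat_lit 23) (.e (nat_lit 98325) (nat_lit 17) (.e (nat_lit 2515) (nat_lit 157) .nil)))))))) (.g (nat_lit 4) .nil .nil))) 
(.lf (nat_lit 116477) (.g (nat_lit 2649) (.e (nat_lit 5947) (nat_lit 322) (.e (nat_lit 57373) (nat_lit 2) (.e (nat_lit 90172) (nat_lit 14) (.e (nat_lit 180244) (nat_lit 5) (.e (nat_lit 532515) (nat_lit 3) (.e (nat_lit 114719) (nat_lit 23) (.e (nat_lit 98325) (nat_lit 17) (.e (nat_lit 2515) (nat_lit 157) .nil)))))))) (.g (nat_lit 5) .nil .nil))))))) 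
(.nd (nat_lit 2) (.nd (nat_lit 3) (.nd (nat_lit 4) (.nd (nat_lit 5) 
(.lf (nat_lit 116419) (.g (nat_lit 4544) (.e (nat_lit 5947) (nat_lit 322) (.e (nat_lit 57347) (nat_lit 0) (.e (nat_lit 2031) (nat_lit 140) (.e (nat_lit 688177) (nat_lit 16) (.e (nat_lit 65586) (nat_lit 7) (.e (nat_lit 319531) (nat_lit 16) (.e (nat_lit 286748) (nat_lit 9) (.e (nat_lit 335891) (nat_lit 0) (.e (nat_lit 1055) (nat_lit 81) .nil))))))))) (.g (nat_lit 9) .nil .nil))) 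
(.lf (nat_lit 116451) (.g (nat_lit 2759) (.e (nat_lit 5947) (nat_lit 322) (.e (nat_lit 57371) (nat_lit 2) (.e (nat_lit 90174) (nat_lit 14) (.e (nat_lit 180243) (nat_lit 5) (.e (nat_lit 532513) (nat_lit 3) (.e (nat_lit 114714) (nat_lit 22) (.e (nat_lit 90181) (nat_lit 16) (.e (nat_lit 229381) (nat_lit 0) .nil)))))))) (.g (nat_lit 5) .nil .nil)))) (.nd (nat_lit 5) 
(.lf (nat_lit 116435) (.g (nat_lit 2023) (.e (nat_lit 5947) (nat_lit 322) (.e (nat_lit 57371) (nat_lit 2) (.e (nat_lit 90172) (nat_lit 14) (.e (nat_lit 180243) (nat_lit 5) (.e (nat_lit 532508) (nat_lit 2) (.e (nat_lit 106517) (nat_lit 9) (.e (nat_lit 1255) (nat_lit 92) (.e (nat_lit 98325) (nat_lit 17) (.e (nat_lit 2515) (nat_lit 157) .nil))))))))) (.g (nat_lit 4) .nil .nil))) 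
(.lf (nat_lit 116467) (.g (nat_lit 2479) (.e (nat_lit 5947) (nat_lit 322) (.e (nat_lit 57373) (nat_lit 2) (.e (nat_lit 90170) (nat_lit 13) (.e (nat_lit 172065) (nat_lit 3) .nil)))) .nil)))) (.nd (nat_lit 4) (.nd (nat_lit 5) 
(.lf (nat_lit 116427) (.g (nat_lit 2146) (.e (nat_lit 5947) (nat_lit 322) (.e (nat_lit 57347) (nat_lit 0) (.e (nat_lit 2031) (nat_lit 140) (.e (nat_lit 688177) (nat_lit 16) (.e (nat_lit 65586) (nat_lit 7) (.e (nat_lit 319531) (nat_lit 16) (.e (nat_lit 286748) (nat_lit 9) (.e (nat_lit 335928) (nat_lit 0) (.e (nat_lit 1082) (nat_lit 81) .nil))))))))) (.g (nat_lit 4) .nil .nil))) 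
(.lf (nat_lit 116459) (.g (nat_lit 1328) (.e (nat_lit 5947) (nat_lit 322) (.e (nat_lit 57371) (nat_lit 2) (.e (nat_lit 90178) (nat_lit 15) (.e (nat_lit 196352) (nat_lit 18) .nil)))) .nil))) (.nd (nat_lit 5) 
(.lf (nat_lit 116443) (.g (nat_lit 4023) (.e (nat_lit 5947) (nat_lit 322) (.e (nat_lit 57371) (nat_lit 2) (.e (nat_lit 90172) (nat_lit 14) (.e (nat_lit 180244) (nat_lit 5) (.e (nat_lit 532513) (nat_lit 3) (.e (nat_lit 114718) (nat_lit 23) (.e (nat_lit 98325) (nat_lit 17) (.e (nat_lit 2515) (nat_lit 157) .nil)))))))) (.g (nat_lit 6) .nil .nil))) 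
(.lf (nat_lit 116475) (.g (nat_lit 2184) (.e (nat_lit 5947) (nat_lit 322) (.e (nat_lit 57373) (nat_lit 2) (.e (nat_lit 90172) (nat_lit 14) (.e (nat_lit 180244) (nat_lit 5) (.e (nat_lit 532515) (nat_lit 3) .nil))))) .nil))))) (.nd (nat_lit 3) (.nd (nat_lit 4) (.nd (nat_lit 5) 
(.lf (nat_lit 116423) (.g (nat_lit 2864) (.e (nat_lit 5947) (nat_lit 322) (.e (nat_lit 57347) (nat_lit 0) (.e (nat_lit 2031) (nat_lit 140) (.e (nat_lit 688177) (nat_lit 16) (.e (nat_lit 65586) (nat_lit 7) (.e (nat_lit 319531) (nat_lit 16) (.e (nat_lit 286748) (nat_lit 9) (.e (nat_lit 335916) (nat_lit 0) (.e (nat_lit 1086) (nat_lit 81) .nil))))))))) (.g (nat_lit 5) .nil .nil))) 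
(.lf (nat_lit 116455) (.g (nat_lit 2008) (.e (nat_lit 5947) (nat_lit 322) (.e (nat_lit 57371) (nat_lit 2) (.e (nat_lit 90176) (nat_lit 15) (.e (nat_lit 188459) (nat_lit 26) (.e (nat_lit 261888) (nat_lit 5) (.e (nat_lit 180232) (nat_lit 0) .nil)))))) (.g (nat_lit 4) .nil .nil)))) (.nd (nat_lit 5) 
(.lf (nat_lit 116439) (.g (nat_lit 2386) (.e (nat_lit 5947) (nat_lit 322) (.e (nat_lit 57371) (nat_lit 2) (.e (nat_lit 90172) (nat_lit 14) (.e (nat_lit 180243) (nat_lit 5) (.e (nat_lit 532515) (nat_lit 3) (.e (nat_lit 114715) (nat_lit 22) (.e (nat_lit 90165) (nat_lit 12) (.e (nat_lit 163857) (nat_lit 0) .nil)))))))) (.g (nat_lit 4) .nil .nil))) 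
(.lf (nat_lit 116471) (.g (nat_lit 1785) (.e (nat_lit 5947) (nat_lit 322) (.e (nat_lit 57373) (nat_lit 2) (.e (nat_lit 90170) (nat_lit 13) (.e (nat_lit 172123) (nat_lit 13) .nil)))) .nil)))) (.nd (nat_lit 4) (.nd (nat_lit 5) 
(.lf (nat_lit 116431) (.g (nat_lit 664) (.e (nat_lit 5947) (nat_lit 322) (.e (nat_lit 57371) (nat_lit 2) (.e (nat_lit 90167) (nat_lit 13) .nil))) .nil)) 
(.lf (nat_lit 116463) (.g (nat_lit 2658) (.e (nat_lit 5947) (nat_lit 322) (.e (nat_lit 57371) (nat_lit 2) (.e (nat_lit 90185) (nat_lit 17) (.e (nat_lit 237601) (nat_lit 9) (.e (nat_lit 426479) (nat_lit 27) (.e (nat_lit 336421) (nat_lit 28) (.e (nat_lit 434216) (nat_lit 18) .nil))))))) (.g (nat_lit 6) .nil .nil)))) (.nd (nat_lit 5) 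
(.lf (nat_lit 116447) (.g (nat_lit 3466) (.e (nat_lit 5947) (nat_lit 322) (.e (nat_lit 57371) (nat_lit 2) (.e (nat_lit 90172) (nat_lit 14) (.e (nat_lit 180244) (nat_lit 5) (.e (nat_lit 532515) (nat_lit 3) (.e (nat_lit 114715) (nat_lit 22) (.e (nat_lit 90165) (nat_lit 12) (.e (nat_lit 163857) (nat_lit 0) .nil)))))))) (.g (nat_lit 8) .nil .nil))) 
(.lf (nat_lit 116479) (.g (nat_lit 2542) (.e (nat_lit 5947) (nat_lit 322) (.e (nat_lit 57373) (nat_lit 2) (.e (nat_lit 90174) (nat_lit 14) (.e (nat_lit 180243) (nat_lit 5) (.e (nat_lit 532513) (nat_lit 3) .nil))))) .nil))))))))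

noncomputable def tv1564 : DT := (.nd (nat_lit 0) (.nd (nat_lit 1) (.nd (nat_lit 2) (.nd (nat_lit 3) (.nd (nat_lit 4) (.nd (nat_lit 5) (.nd (nat_lit 6) 
(.lf (nat_lit 116480) (.g (nat_lit 2464) (.e (nat_lit 5947) (nat_lit 322) (.e (nat_lit 57373) (nat_lit 2) (.e (nat_lit 90174) (nat_lit 14) (.e (nat_lit 180243) (nat_lit 5) (.e (nat_lit 532515) (nat_lit 3) (.e (nat_lit 114716) (nat_lit 22) (.e (nat_lit 90181) (nat_lit 16) (.e (nat_lit 229381) (nat_lit 0) .nil)))))))) (.g (nat_lit 4) .nil .nil))) 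
(.lf (nat_lit 116544) (.g (nat_lit 1832) (.e (nat_lit 5947) (nat_lit 322) (.e (nat_lit 57445) (nat_lit 19) (.e (nat_lit 393281) (nat_lit 23) (.e (nat_lit 426116) (nat_lit 2) (.e (nat_lit 196624) (nat_lit 9) .nil))))) .nil))) (.nd (nat_lit 6) 
(.lf (nat_lit 116512) (.g (nat_lit 2337) (.e (nat_lit 5947) (nat_lit 322) (.e (nat_lit 57400) (nat_lit 10) (.e (nat_lit 319533) (nat_lit 16) (.e (nat_lit 286743) (nat_lit 9) (.e (nat_lit 336433) (nat_lit 30) (.e (nat_lit 450569) (nat_lit 0) .nil)))))) (.g (nat_lit 4) .nil .nil))) 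
(.lf (nat_lit 116576) (.g (nat_lit 3622) (.e (nat_lit 5948) (nat_lit 322) (.e (nat_lit 57371) (nat_lit 2) (.e (nat_lit 90174) (nat_lit 14) (.e (nat_lit 180243) (nat_lit 5) (.e (nat_lit 532508) (nat_lit 2) (.e (nat_lit 106517) (nat_lit 9) (.e (nat_lit 1255) (nat_lit 92) (.e (nat_lit 98325) (nat_lit 17) (.e (nat_lit 2515) (nat_lit 157) .nil))))))))) (.g (nat_lit 7) .nil .nil))))) 
(.nd (nat_lit 5) (.nd (nat_lit 6) 
(.lf (nat_lit 116496) (.g (nat_lit 2189) (.e (nat_lit 5947) (nat_lit 322) (.e (nat_lit 57399) (nat_lit 10) (.e (nat_lit 319530) (nat_lit 16) (.e (nat_lit 286743) (nat_lit 9) (.e (nat_lit 336432) (nat_lit 30) (.e (nat_lit 450569) (nat_lit 0) .nil)))))) (.g (nat_lit 0) .nil .nil))) 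
(.lf (nat_lit 116560) (.g (nat_lit 2307) (.e (nat_lit 5948) (nat_lit 322) (.e (nat_lit 57371) (nat_lit 2) (.e (nat_lit 90172) (nat_lit 14) (.e (nat_lit 180243) (nat_lit 5) (.e (nat_lit 532508) (nat_lit 2) (.e (nat_lit 106517) (nat_lit 9) (.e (nat_lit 1255) (nat_lit 92) (.e (nat_lit 98325) (nat_lit 17) (.e (nat_lit 2515) (nat_lit 157) .nil))))))))) (.g (nat_lit 4) .nil .nil)))) (.nd (nat_lit 6) 
(.lf (nat_lit 116528) (.g (nat_lit 2173) (.e (nat_lit 5947) (nat_lit 322) (.e (nat_lit 57412) (nat_lit 12) (.e (nat_lit 336193) (nat_lit 12) (.e (nat_lit 385105) (nat_lit 50) (.e (nat_lit 786483) (nat_lit 30) .nil))))) .nil)) 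
(.lf (nat_lit 116592) (.g (nat_lit 3589) (.e (nat_lit 5948) (nat_lit 322) (.e (nat_lit 57373) (nat_lit 2) (.e (nat_lit 90170) (nat_lit 13) (.e (nat_lit 172065) (nat_lit 3) (.e (nat_lit 204838) (nat_lit 20) (.e (nat_lit 114719) (nat_lit 23) (.e (nat_lit 98325) (nat_lit 17) (.e (nat_lit 2515) (nat_lit 157) .nil)))))))) (.g (nat_lit 5) .nil .nil)))))) 
(.nd (nat_lit 4) (.nd (nat_lit 5) (.nd (nat_lit 6) 
(.lf (nat_lit 116488) (.g (nat_lit 1845) (.e (nat_lit 5947) (nat_lit 322) (.e (nat_lit 57373) (nat_lit 2) (.e (nat_lit 90185) (nat_lit 17) (.e (nat_lit 237623) (nat_lit 13) .nil)))) .nil)) 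
(.lf (nat_lit 116552) (.g (nat_lit 3187) (.e (nat_lit 5947) (nat_lit 322) (.e (nat_lit 57450) (nat_lit 20) (.e (nat_lit 401454) (nat_lit 12) (.e (nat_lit 475210) (nat_lit 41) (.e (nat_lit 712753) (nat_lit 30) (.e (nat_lit 450569) (nat_lit 0) .nil)))))) (.g (nat_lit 6) .nil .nil)))) (.nd (nat_lit 6) 
(.lf (nat_lit 116520) (.g (nat_lit 2318) (.e (nat_lit 5947) (nat_lit 322) (.e (nat_lit 57406) (nat_lit 12) (.e (nat_lit 336443) (nat_lit 32) (.e (nat_lit 466974) (nat_lit 22) (.e (nat_lit 196624) (nat_lit 9) (.e (nat_lit 442) (nat_lit 33) (.e (nat_lit 434216) (nat_lit 18) .nil))))))) (.g (nat_lit 4) .nil .nil))) 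
(.lf (nat_lit 116584) (.g (nat_lit 739) (.e (nat_lit 5948) (nat_lit 322) (.e (nat_lit 57371) (nat_lit 2) (.e (nat_lit 90184) (nat_lit 17) .nil))) .nil)))) (.nd (nat_lit 5) (.nd (nat_lit 6) 
(.lf (nat_lit 116504) (.g (nat_lit 1739) (.e (nat_lit 5947) (nat_lit 322) (.e (nat_lit 57400) (nat_lit 10) (.e (nat_lit 319530) (nat_lit 16) (.e (nat_lit 286743) (nat_lit 9) (.e (nat_lit 336433) (nat_lit 30) .nil))))) .nil)) 
(.lf (nat_lit 116568) (.g (nat_lit 4307) (.e (nat_lit 5948) (nat_lit 322) (.e (nat_lit 57371) (nat_lit 2) (.e (nat_lit 90172) (nat_lit 14) (.e (nat_lit 180244) (nat_lit 5) (.e (nat_lit 532513) (nat_lit 3) (.e (nat_lit 114718) (nat_lit 23) (.e (nat_lit 98325) (nat_lit 17) (.e (nat_lit 2515) (nat_lit 157) .nil)))))))) (.g (nat_lit 6) .nil .nil)))) (.nd (nat_lit 6) 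
(.lf (nat_lit 116536) (.g (nat_lit 1568) (.e (nat_lit 5947) (nat_lit 322) (.e (nat_lit 57445) (nat_lit 19) (.e (nat_lit 393232) (nat_lit 17) (.e (nat_lit 7583) (nat_lit 405) .nil)))) .nil)) 
(.lf (nat_lit 116600) (.g (nat_lit 2224) (.e (nat_lit 5948) (nat_lit 322) (.e (nat_lit 57373) (nat_lit 2) (.e (nat_lit 90172) (nat_lit 14) (.e (nat_lit 180243) (nat_lit 5) .nil)))) .nil)))))) (.nd (nat_lit 3) (.nd (nat_lit 4) (.nd (nat_lit 5) (.nd (nat_lit 6) 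
(.lf (nat_lit 116484) (.g (nat_lit 2116) (.e (nat_lit 5947) (nat_lit 322) (.e (nat_lit 57373) (nat_lit 2) (.e (nat_lit 90178) (nat_lit 15) (.e (nat_lit 188461) (nat_lit 26) .nil)))) .nil)) 
(.lf (nat_lit 116548) (.g (nat_lit 2816) (.e (nat_lit 5947) (nat_lit 322) (.e (nat_lit 57447) (nat_lit 19) (.e (nat_lit 393234) (nat_lit 17) (.e (nat_lit 7581) (nat_lit 405) (.e (nat_lit 57480) (nat_lit 28) (.e (nat_lit 557105) (nat_lit 14) (.e (nat_lit 180233) (nat_lit 0) .nil))))))) (.g (nat_lit 5) .nil .nil)))) (.nd (nat_lit 6) 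
(.lf (nat_lit 116516) (.g (nat_lit 1330) (.e (nat_lit 5947) (nat_lit 322) (.e (nat_lit 57400) (nat_lit 10) (.e (nat_lit 327424) (nat_lit 16) (.e (nat_lit 286743) (nat_lit 9) (.e (nat_lit 336432) (nat_lit 30) (.e (nat_lit 450569) (nat_lit 0) .nil)))))) (.g (nat_lit 5) .nil .nil))) 
(.lf (nat_lit 116580) (.g (nat_lit 1508) (.e (nat_lit 5948) (nat_lit 322) (.e (nat_lit 57371) (nat_lit 2) (.e (nat_lit 90176) (nat_lit 15) (.e (nat_lit 188461) (nat_lit 26) .nil)))) .nil)))) (.nd (nat_lit 5) (.nd (nat_lit 6) 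
(.lf (nat_lit 116500) (.g (nat_lit 2243) (.e (nat_lit 5947) (nat_lit 322) (.e (nat_lit 57400) (nat_lit 10) (.e (nat_lit 319528) (nat_lit 16) (.e (nat_lit 286743) (nat_lit 9) (.e (nat_lit 336432) (nat_lit 30) (.e (nat_lit 450569) (nat_lit 0) .nil)))))) (.g (nat_lit 6) .nil .nil))) 
(.lf (nat_lit 116564) (.g (nat_lit 3097) (.e (nat_lit 5948) (nat_lit 322) (.e (nat_lit 57371) (nat_lit 2) (.e (nat_lit 90172) (nat_lit 14) (.e (nat_lit 180243) (nat_lit 5) (.e (nat_lit 532515) (nat_lit 3) (.e (nat_lit 114719) (nat_lit 23) (.e (nat_lit 98325) (nat_lit 17) (.e (nat_lit 2515) (nat_lit 157) .nil)))))))) (.g (nat_lit 5) .nil .nil)))) (.nd (nat_lit 6) 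
(.lf (nat_lit 116532) (.g (nat_lit 2160) (.e (nat_lit 5947) (nat_lit 322) (.e (nat_lit 57424) (nat_lit 14) (.e (nat_lit 352318) (nat_lit 24) (.e (nat_lit 123197) (nat_lit 266) (.e (nat_lit 57428) (nat_lit 15) .nil))))) .nil)) 
(.lf (nat_lit 116596) (.g (nat_lit 2738) (.e (nat_lit 5948) (nat_lit 322) (.e (nat_lit 57373) (nat_lit 2) (.e (nat_lit 90170) (nat_lit 13) (.e (nat_lit 172067) (nat_lit 3) (.e (nat_lit 204838) (nat_lit 20) .nil))))) .nil))))) (.nd (nat_lit 4) (.nd (nat_lit 5) (.nd (nat_lit 6) 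
(.lf (nat_lit 116492) (.g (nat_lit 4006) (.e (nat_lit 5947) (nat_lit 322) (.e (nat_lit 57389) (nat_lit 5) (.e (nat_lit 114723) (nat_lit 24) (.e (nat_lit 106534) (nat_lit 11) (.e (nat_lit 16473) (nat_lit 14) (.e (nat_lit 491560) (nat_lit 10) (.e (nat_lit 344103) (nat_lit 18) .nil))))))) (.g (nat_lit 7) .nil .nil))) 
(.lf (nat_lit 116556) (.g (nat_lit 742) (.e (nat_lit 5948) (nat_lit 322) (.e (nat_lit 57371) (nat_lit 2) (.e (nat_lit 90167) (nat_lit 13) .nil))) .nil))) (.nd (nat_lit 6) 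
(.lf (nat_lit 116524) (.g (nat_lit 838) (.e (nat_lit 5947) (nat_lit 322) (.e (nat_lit 57406) (nat_lit 12) (.e (nat_lit 336444) (nat_lit 32) .nil))) .nil)) 
(.lf (nat_lit 116588) (.g (nat_lit 2193) (.e (nat_lit 5948) (nat_lit 322) (.e (nat_lit 57371) (nat_lit 2) (.e (nat_lit 90185) (nat_lit 17) (.e (nat_lit 237624) (nat_lit 13) (.e (nat_lit 491264) (nat_lit 10) (.e (nat_lit 434216) (nat_lit 18) .nil)))))) (.g (nat_lit 4) .nil .nil))))) (.nd (nat_lit 5) (.nd (nat_lit 6) 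
(.lf (nat_lit 116508) (.g (nat_lit 1521) (.e (nat_lit 5947) (nat_lit 322) (.e (nat_lit 57400) (nat_lit 10) (.e (nat_lit 319532) (nat_lit 16) (.e (nat_lit 286743) (nat_lit 9) (.e (nat_lit 336433) (nat_lit 30) .nil))))) .nil)) 
(.lf (nat_lit 116572) (.g (nat_lit 3886) (.e (nat_lit 5948) (nat_lit 322) (.e (nat_lit 57371) (nat_lit 2) (.e (nat_lit 90172) (nat_lit 14) (.e (nat_lit 180244) (nat_lit 5) (.e (nat_lit 532515) (nat_lit 3) (.e (nat_lit 114715) (nat_lit 22) (.e (nat_lit 90165) (nat_lit 12) (.e (nat_lit 163857) (nat_lit 0) .nil)))))))) (.g (nat_lit 8) .nil .nil)))) (.nd (nat_lit 6) 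
(.lf (nat_lit 116540) (.g (nat_lit 2702) (.e (nat_lit 5947) (nat_lit 322) (.e (nat_lit 57445) (nat_lit 19) (.e (nat_lit 393234) (nat_lit 17) (.e (nat_lit 7581) (nat_lit 405) (.e (nat_lit 57476) (nat_lit 28) .nil))))) .nil)) 
(.lf (nat_lit 116604) (.g (nat_lit 1687) (.e (nat_lit 5948) (nat_lit 322) (.e (nat_lit 57373) (nat_lit 2) (.e (nat_lit 90172) (nat_lit 14) (.e (nat_lit 180244) (nat_lit 5) .nil)))) .nil))))))) (.nd (nat_lit 2) (.nd (nat_lit 3) (.nd (nat_lit 4) (.nd (nat_lit 5) (.nd (nat_lit 6) 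
(.lf (nat_lit 116482) (.g (nat_lit 1882) (.e (nat_lit 5947) (nat_lit 322) (.e (nat_lit 57373) (nat_lit 2) (.e (nat_lit 90176) (nat_lit 15) (.e (nat_lit 188459) (nat_lit 26) .nil)))) .nil)) 
(.lf (nat_lit 116546) (.g (nat_lit 2434) (.e (nat_lit 5947) (nat_lit 322) (.e (nat_lit 57447) (nat_lit 19) (.e (nat_lit 393234) (nat_lit 17) (.e (nat_lit 7581) (nat_lit 405) (.e (nat_lit 57477) (nat_lit 28) (.e (nat_lit 557103) (nat_lit 14) (.e (nat_lit 180233) (nat_lit 0) .nil))))))) (.g (nat_lit 4) .nil .nil)))) (.nd (nat_lit 6) 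
(.lf (nat_lit 116514) (.g (nat_lit 2877) (.e (nat_lit 5947) (nat_lit 322) (.e (nat_lit 57400) (nat_lit 10) (.e (nat_lit 319534) (nat_lit 16) (.e (nat_lit 286743) (nat_lit 9) (.e (nat_lit 336432) (nat_lit 30) (.e (nat_lit 450569) (nat_lit 0) .nil)))))) (.g (nat_lit 0) .nil .nil))) 
(.lf (nat_lit 116578) (.g (nat_lit 1408) (.e (nat_lit 5948) (nat_lit 322) (.e (nat_lit 57371) (nat_lit 2) (.e (nat_lit 90176) (nat_lit 15) (.e (nat_lit 196352) (nat_lit 18) .nil)))) .nil)))) (.nd (nat_lit 5) (.nd (nat_lit 6) 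
(.lf (nat_lit 116498) (.g (nat_lit 2197) (.e (nat_lit 5947) (nat_lit 322) (.e (nat_lit 57399) (nat_lit 10) (.e (nat_lit 319531) (nat_lit 16) (.e (nat_lit 286743) (nat_lit 9) (.e (nat_lit 336432) (nat_lit 30) (.e (nat_lit 450569) (nat_lit 0) .nil)))))) (.g (nat_lit 6) .nil .nil))) 
(.lf (nat_lit 116562) (.g (nat_lit 3569) (.e (nat_lit 5948) (nat_lit 322) (.e (nat_lit 57371) (nat_lit 2) (.e (nat_lit 90172) (nat_lit 14) (.e (nat_lit 180243) (nat_lit 5) (.e (nat_lit 532513) (nat_lit 3) (.e (nat_lit 114719) (nat_lit 23) (.e (nat_lit 98325) (nat_lit 17) (.e (nat_lit 2515) (nat_lit 157) .nil)))))))) (.g (nat_lit 5) .nil .nil)))) (.nd (nat_lit 6) 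
(.lf (nat_lit 116530) (.g (nat_lit 3167) (.e (nat_lit 5947) (nat_lit 322) (.e (nat_lit 57424) (nat_lit 14) (.e (nat_lit 352318) (nat_lit 24) (.e (nat_lit 123197) (nat_lit 266) (.e (nat_lit 57427) (nat_lit 15) (.e (nat_lit 360456) (nat_lit 0) .nil)))))) (.g (nat_lit 0) .nil .nil))) 
(.lf (nat_lit 116594) (.g (nat_lit 2798) (.e (nat_lit 5948) (nat_lit 322) (.e (nat_lit 57373) (nat_lit 2) (.e (nat_lit 90170) (nat_lit 13) (.e (nat_lit 172067) (nat_lit 3) (.e (nat_lit 204837) (nat_lit 20) .nil))))) .nil))))) (.nd (nat_lit 4) (.nd (nat_lit 5) (.nd (nat_lit 6) 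
(.lf (nat_lit 116490) (.g (nat_lit 987) (.e (nat_lit 5947) (nat_lit 322) (.e (nat_lit 57378) (nat_lit 3) (.e (nat_lit 98365) (nat_lit 26) .nil))) .nil)) 
(.lf (nat_lit 116554) (.g (nat_lit 2229) (.e (nat_lit 5948) (nat_lit 322) (.e (nat_lit 57347) (nat_lit 0) (.e (nat_lit 2031) (nat_lit 140) (.e (nat_lit 688177) (nat_lit 16) (.e (nat_lit 65586) (nat_lit 7) (.e (nat_lit 319531) (nat_lit 16) (.e (nat_lit 286748) (nat_lit 9) (.e (nat_lit 335915) (nat_lit 0) (.e (nat_lit 1068) (nat_lit 81) .nil))))))))) (.g (nat_lit 4) .nil .nil)))) (.nd (nat_lit 6) 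
(.lf (nat_lit 116522) (.g (nat_lit 2295) (.e (nat_lit 5947) (nat_lit 322) (.e (nat_lit 57406) (nat_lit 12) (.e (nat_lit 336443) (nat_lit 32) (.e (nat_lit 466977) (nat_lit 22) (.e (nat_lit 196656) (nat_lit 11) (.e (nat_lit 16388) (nat_lit 0) (.e (nat_lit 2485) (nat_lit 157) .nil))))))) (.g (nat_lit 4) .nil .nil))) 
(.lf (nat_lit 116586) (.g (nat_lit 2756) (.e (nat_lit 5948) (nat_lit 322) (.e (nat_lit 57371) (nat_lit 2) (.e (nat_lit 90185) (nat_lit 17) (.e (nat_lit 237605) (nat_lit 9) (.e (nat_lit 426479) (nat_lit 27) (.e (nat_lit 336421) (nat_lit 28) (.e (nat_lit 434216) (nat_lit 18) .nil))))))) (.g (nat_lit 6) .nil .nil))))) (.nd (nat_lit 5) (.nd (nat_lit 6) 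
(.lf (nat_lit 116506) (.g (nat_lit 1594) (.e (nat_lit 5947) (nat_lit 322) (.e (nat_lit 57400) (nat_lit 10) (.e (nat_lit 319531) (nat_lit 16) (.e (nat_lit 286743) (nat_lit 9) (.e (nat_lit 336433) (nat_lit 30) .nil))))) .nil)) 
(.lf (nat_lit 116570) (.g (nat_lit 2565) (.e (nat_lit 5948) (nat_lit 322) (.e (nat_lit 57371) (nat_lit 2) (.e (nat_lit 90172) (nat_lit 14) (.e (nat_lit 180244) (nat_lit 5) (.e (nat_lit 532514) (nat_lit 3) (.e (nat_lit 114719) (nat_lit 23) (.e (nat_lit 98325) (nat_lit 17) (.e (nat_lit 2515) (nat_lit 157) .nil)))))))) (.g (nat_lit 4) .nil .nil)))) (.nd (nat_lit 6) 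
(.lf (nat_lit 116538) (.g (nat_lit 2345) (.e (nat_lit 5947) (nat_lit 322) (.e (nat_lit 57445) (nat_lit 19) (.e (nat_lit 393233) (nat_lit 17) (.e (nat_lit 7581) (nat_lit 405) (.e (nat_lit 57477) (nat_lit 28) (.e (nat_lit 557104) (nat_lit 14) (.e (nat_lit 180233) (nat_lit 0) .nil))))))) (.g (nat_lit 5) .nil .nil))) 
(.lf (nat_lit 116602) (.g (nat_lit 2728) (.e (nat_lit 5948) (nat_lit 322) (.e (nat_lit 57373) (nat_lit 2) (.e (nat_lit 90172) (nat_lit 14) (.e (nat_lit 180243) (nat_lit 5) (.e (nat_lit 532515) (nat_lit 3) .nil))))) .nil)))))) (.nd (nat_lit 3) (.nd (nat_lit 4) (.nd (nat_lit 5) (.nd (nat_lit 6) 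
(.lf (nat_lit 116486) (.g (nat_lit 2044) (.e (nat_lit 5947) (nat_lit 322) (.e (nat_lit 57373) (nat_lit 2) (.e (nat_lit 90185) (nat_lit 17) (.e (nat_lit 237620) (nat_lit 13) .nil)))) .nil)) 
(.lf (nat_lit 116550) (.g (nat_lit 2591) (.e (nat_lit 5947) (nat_lit 322) (.e (nat_lit 57447) (nat_lit 19) (.e (nat_lit 393301) (nat_lit 27) (.e (nat_lit 491526) (nat_lit 0) (.e (nat_lit 1848) (nat_lit 124) .nil))))) .nil))) (.nd (nat_lit 6) 
(.lf (nat_lit 116518) (.g (nat_lit 782) (.e (nat_lit 5947) (nat_lit 322) (.e (nat_lit 57406) (nat_lit 12) (.e (nat_lit 336434) (nat_lit 30) .nil))) .nil)) 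
(.lf (nat_lit 116582) (.g (nat_lit 751) (.e (nat_lit 5948) (nat_lit 322) (.e (nat_lit 57371) (nat_lit 2) (.e (nat_lit 90178) (nat_lit 15) .nil))) .nil)))) (.nd (nat_lit 5) (.nd (nat_lit 6) 
(.lf (nat_lit 116502) (.g (nat_lit 1360) (.e (nat_lit 5947) (nat_lit 322) (.e (nat_lit 57400) (nat_lit 10) (.e (nat_lit 319529) (nat_lit 16) (.e (nat_lit 286743) (nat_lit 9) (.e (nat_lit 336433) (nat_lit 30) .nil))))) .nil)) 
(.lf (nat_lit 116566) (.g (nat_lit 2765) (.e (nat_lit 5948) (nat_lit 322) (.e (nat_lit 57371) (nat_lit 2) (.e (nat_lit 90172) (nat_lit 14) (.e (nat_lit 180244) (nat_lit 5) (.e (nat_lit 532508) (nat_lit 2) (.e (nat_lit 106517) (nat_lit 9) (.e (nat_lit 1255) (nat_lit 92) (.e (nat_lit 98325) (nat_lit 17) (.e (nat_lit 2515) (nat_lit 157) .nil))))))))) (.g (nat_lit 4) .nil .nil)))) (.nd (nat_lit 6) 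
(.lf (nat_lit 116534) (.g (nat_lit 2822) (.e (nat_lit 5947) (nat_lit 322) (.e (nat_lit 57424) (nat_lit 14) (.e (nat_lit 352318) (nat_lit 24) (.e (nat_lit 123198) (nat_lit 266) (.e (nat_lit 57427) (nat_lit 15) (.e (nat_lit 360456) (nat_lit 0) .nil)))))) (.g (nat_lit 5) .nil .nil))) 
(.lf (nat_lit 116598) (.g (nat_lit 2238) (.e (nat_lit 5948) (nat_lit 322) (.e (nat_lit 57373) (nat_lit 2) (.e (nat_lit 90170) (nat_lit 13) (.e (nat_lit 172121) (nat_lit 13) .nil)))) .nil))))) (.nd (nat_lit 4) (.nd (nat_lit 5) (.nd (nat_lit 6) 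
(.lf (nat_lit 116494) (.g (nat_lit 2090) (.e (nat_lit 5947) (nat_lit 322) (.e (nat_lit 57389) (nat_lit 5) (.e (nat_lit 114723) (nat_lit 24) (.e (nat_lit 106536) (nat_lit 11) (.e (nat_lit 16388) (nat_lit 0) .nil))))) .nil)) 
(.lf (nat_lit 116558) (.g (nat_lit 739) (.e (nat_lit 5948) (nat_lit 322) (.e (nat_lit 57371) (nat_lit 2) (.e (nat_lit 90168) (nat_lit 13) .nil))) .nil))) (.nd (nat_lit 6) 
(.lf (nat_lit 116526) (.g (nat_lit 1773) (.e (nat_lit 5947) (nat_lit 322) (.e (nat_lit 57412) (nat_lit 12) (.e (nat_lit 336061) (nat_lit 7) (.e (nat_lit 319539) (nat_lit 19) (.e (nat_lit 319232) (nat_lit 30) .nil))))) .nil)) 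
(.lf (nat_lit 116590) (.g (nat_lit 2370) (.e (nat_lit 5948) (nat_lit 322) (.e (nat_lit 57373) (nat_lit 2) (.e (nat_lit 90170) (nat_lit 13) (.e (nat_lit 172065) (nat_lit 3) .nil)))) .nil)))) (.nd (nat_lit 5) (.nd (nat_lit 6) 
(.lf (nat_lit 116510) (.g (nat_lit 1610) (.e (nat_lit 5947) (nat_lit 322) (.e (nat_lit 57400) (nat_lit 10) (.e (nat_lit 319533) (nat_lit 16) (.e (nat_lit 286742) (nat_lit 9) (.e (nat_lit 336433) (nat_lit 30) .nil))))) .nil)) 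
(.lf (nat_lit 116574) (.g (nat_lit 4123) (.e (nat_lit 5948) (nat_lit 322) (.e (nat_lit 57371) (nat_lit 2) (.e (nat_lit 90172) (nat_lit 14) (.e (nat_lit 180244) (nat_lit 5) (.e (nat_lit 532515) (nat_lit 3) (.e (nat_lit 114719) (nat_lit 23) (.e (nat_lit 98325) (nat_lit 17) (.e (nat_lit 2515) (nat_lit 157) .nil)))))))) (.g (nat_lit 7) .nil .nil)))) (.nd (nat_lit 6) 
(.lf (nat_lit 116542) (.g (nat_lit 1758) (.e (nat_lit 5947) (nat_lit 322) (.e (nat_lit 57445) (nat_lit 19) (.e (nat_lit 393234) (nat_lit 17) (.e (nat_lit 7583) (nat_lit 405) .nil)))) .nil)) 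
(.lf (nat_lit 116606) (.g (nat_lit 4027) (.e (nat_lit 5948) (nat_lit 322) (.e (nat_lit 57373) (nat_lit 2) (.e (nat_lit 90172) (nat_lit 14) (.e (nat_lit 180244) (nat_lit 5) (.e (nat_lit 532513) (nat_lit 3) (.e (nat_lit 114714) (nat_lit 22) (.e (nat_lit 90165) (nat_lit 12) (.e (nat_lit 163857) (nat_lit 0) .nil)))))))) (.g (nat_lit 6) .nil .nil))))))))) 
(.nd (nat_lit 1) (.nd (nat_lit 2) (.nd (nat_lit 3) (.nd (nat_lit 4) (.nd (nat_lit 5) 
(.nd (nat_lit 6) 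
(.lf (nat_lit 116481) (.g (nat_lit 933) (.e (nat_lit 5947) (nat_lit 322) (.e (nat_lit 57373) (nat_lit 2) (.e (nat_lit 90176) (nat_lit 15) .nil))) .nil)) 
(.lf (nat_lit 116545) (.g (nat_lit 2337) (.e (nat_lit 5947) (nat_lit 322) (.e (nat_lit 57447) (nat_lit 19) (.e (nat_lit 393234) (nat_lit 17) (.e (nat_lit 7581) (nat_lit 405) (.e (nat_lit 57476) (nat_lit 28) .nil))))) .nil))) (.nd (nat_lit 6) 
(.lf (nat_lit 116513) (.g (nat_lit 1806) (.e (nat_lit 5947) (nat_lit 322) (.e (nat_lit 57400) (nat_lit 10) (.e (nat_lit 319534) (nat_lit 16) (.e (nat_lit 286742) (nat_lit 9) .nil)))) .nil)) 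
(.lf (nat_lit 116577) (.g (nat_lit 741) (.e (nat_lit 5948) (nat_lit 322) (.e (nat_lit 57371) (nat_lit 2) (.e (nat_lit 90175) (nat_lit 15) .nil))) .nil)))) (.nd (nat_lit 5) (.nd (nat_lit 6) 
(.lf (nat_lit 116497) (.g (nat_lit 1289) (.e (nat_lit 5947) (nat_lit 322) (.e (nat_lit 57399) (nat_lit 10) (.e (nat_lit 319530) (nat_lit 16) (.e (nat_lit 286743) (nat_lit 9) (.e (nat_lit 336433) (nat_lit 30) (.e (nat_lit 450569) (nat_lit 0) .nil)))))) (.g (nat_lit 4) .nil .nil))) 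
(.lf (nat_lit 116561) (.g (nat_lit 3588) (.e (nat_lit 5948) (nat_lit 322) (.e (nat_lit 57371) (nat_lit 2) (.e (nat_lit 90172) (nat_lit 14) (.e (nat_lit 180243) (nat_lit 5) (.e (nat_lit 532513) (nat_lit 3) (.e (nat_lit 114718) (nat_lit 23) (.e (nat_lit 98325) (nat_lit 17) (.e (nat_lit 2515) (nat_lit 157) .nil)))))))) (.g (nat_lit 5) .nil .nil)))) (.nd (nat_lit 6) 
(.lf (nat_lit 116529) (.g (nat_lit 3181) (.e (nat_lit 5947) (nat_lit 322) (.e (nat_lit 57424) (nat_lit 14) (.e (nat_lit 352318) (nat_lit 24) (.e (nat_lit 123197) (nat_lit 266) (.e (nat_lit 57426) (nat_lit 15) (.e (nat_lit 360456) (nat_lit 0) .nil)))))) (.g (nat_lit 0) .nil .nil))) 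
(.lf (nat_lit 116593) (.g (nat_lit 2871) (.e (nat_lit 5948) (nat_lit 322) (.e (nat_lit 57373) (nat_lit 2) (.e (nat_lit 90170) (nat_lit 13) (.e (nat_lit 172067) (nat_lit 3) (.e (nat_lit 204834) (nat_lit 19) .nil))))) .nil))))) (.nd (nat_lit 4) (.nd (nat_lit 5) (.nd (nat_lit 6) 
(.lf (nat_lit 116489) (.g (nat_lit 1753) (.e (nat_lit 5947) (nat_lit 322) (.e (nat_lit 57373) (nat_lit 2) (.e (nat_lit 90185) (nat_lit 17) (.e (nat_lit 237624) (nat_lit 13) (.e (nat_lit 491264) (nat_lit 10) .nil))))) .nil)) 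
(.lf (nat_lit 116553) (.g (nat_lit 3581) (.e (nat_lit 5947) (nat_lit 322) (.e (nat_lit 57450) (nat_lit 20) (.e (nat_lit 401454) (nat_lit 12) (.e (nat_lit 475210) (nat_lit 41) (.e (nat_lit 712755) (nat_lit 30) (.e (nat_lit 450569) (nat_lit 0) .nil)))))) (.g (nat_lit 6) .nil .nil)))) (.nd (nat_lit 6) 
(.lf (nat_lit 116521) (.g (nat_lit 2980) (.e (nat_lit 5947) (nat_lit 322) (.e (nat_lit 57406) (nat_lit 12) (.e (nat_lit 336443) (nat_lit 32) (.e (nat_lit 466977) (nat_lit 22) (.e (nat_lit 196624) (nat_lit 9) (.e (nat_lit 442) (nat_lit 33) (.e (nat_lit 434216) (nat_lit 18) .nil))))))) (.g (nat_lit 5) .nil .nil))) 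
(.lf (nat_lit 116585) (.g (nat_lit 2638) (.e (nat_lit 5948) (nat_lit 322) (.e (nat_lit 57371) (nat_lit 2) (.e (nat_lit 90185) (nat_lit 17) (.e (nat_lit 237601) (nat_lit 9) (.e (nat_lit 426479) (nat_lit 27) (.e (nat_lit 336421) (nat_lit 28) (.e (nat_lit 434216) (nat_lit 18) .nil))))))) (.g (nat_lit 6) .nil .nil))))) (.nd (nat_lit 5) (.nd (nat_lit 6) 
(.lf (nat_lit 116505) (.g (nat_lit 2337) (.e (nat_lit 5947) (nat_lit 322) (.e (nat_lit 57400) (nat_lit 10) (.e (nat_lit 319531) (nat_lit 16) (.e (nat_lit 286743) (nat_lit 9) (.e (nat_lit 336432) (nat_lit 30) (.e (nat_lit 450569) (nat_lit 0) .nil)))))) (.g (nat_lit 6) .nil .nil))) 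
(.lf (nat_lit 116569) (.g (nat_lit 4394) (.e (nat_lit 5948) (nat_lit 322) (.e (nat_lit 57371) (nat_lit 2) (.e (nat_lit 90172) (nat_lit 14) (.e (nat_lit 180244) (nat_lit 5) (.e (nat_lit 532513) (nat_lit 3) (.e (nat_lit 114719) (nat_lit 23) (.e (nat_lit 98325) (nat_lit 17) (.e (nat_lit 2515) (nat_lit 157) .nil)))))))) (.g (nat_lit 6) .nil .nil)))) (.nd (nat_lit 6) 
(.lf (nat_lit 116537) (.g (nat_lit 1658) (.e (nat_lit 5947) (nat_lit 322) (.e (nat_lit 57445) (nat_lit 19) (.e (nat_lit 393233) (nat_lit 17) (.e (nat_lit 7581) (nat_lit 405) (.e (nat_lit 57477) (nat_lit 28) .nil))))) .nil)) 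
(.lf (nat_lit 116601) (.g (nat_lit 3646) (.e (nat_lit 5948) (nat_lit 322) (.e (nat_lit 57373) (nat_lit 2) (.e (nat_lit 90172) (nat_lit 14) (.e (nat_lit 180243) (nat_lit 5) (.e (nat_lit 532513) (nat_lit 3) (.e (nat_lit 114714) (nat_lit 22) (.e (nat_lit 90165) (nat_lit 12) (.e (nat_lit 163857) (nat_lit 0) .nil)))))))) (.g (nat_lit 5) .nil .nil))))))) 
(.nd (nat_lit 3) (.nd (nat_lit 4) (.nd (nat_lit 5) (.nd (nat_lit 6) 
(.lf (nat_lit 116485) (.g (nat_lit 2163) (.e (nat_lit 5947) (nat_lit 322) (.e (nat_lit 57373) (nat_lit 2) (.e (nat_lit 90185) (nat_lit 17) (.e (nat_lit 237601) (nat_lit 9) (.e (nat_lit 426479) (nat_lit 27) (.e (nat_lit 336421) (nat_lit 28) (.e (nat_lit 434216) (nat_lit 18) .nil))))))) (.g (nat_lit 5) .nil .nil))) 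
(.lf (nat_lit 116549) (.g (nat_lit 1737) (.e (nat_lit 5947) (nat_lit 322) (.e (nat_lit 57447) (nat_lit 19) (.e (nat_lit 393234) (nat_lit 17) (.e (nat_lit 7583) (nat_lit 405) (.e (nat_lit 57476) (nat_lit 28) .nil))))) .nil))) (.nd (nat_lit 6) 
(.lf (nat_lit 116517) (.g (nat_lit 828) (.e (nat_lit 5947) (nat_lit 322) (.e (nat_lit 57406) (nat_lit 12) (.e (nat_lit 336426) (nat_lit 29) .nil))) .nil)) 
(.lf (nat_lit 116581) (.g (nat_lit 742) (.e (nat_lit 5948) (nat_lit 322) (.e (nat_lit 57371) (nat_lit 2) (.e (nat_lit 90177) (nat_lit 15) .nil))) .nil)))) (.nd (nat_lit 5) (.nd (nat_lit 6) 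
(.lf (nat_lit 116501) (.g (nat_lit 1474) (.e (nat_lit 5947) (nat_lit 322) (.e (nat_lit 57400) (nat_lit 10) (.e (nat_lit 319528) (nat_lit 16) (.e (nat_lit 286743) (nat_lit 9) (.e (nat_lit 336433) (nat_lit 30) (.e (nat_lit 450569) (nat_lit 0) .nil)))))) (.g (nat_lit 4) .nil .nil))) 
(.lf (nat_lit 116565) (.g (nat_lit 1511) (.e (nat_lit 5948) (nat_lit 322) (.e (nat_lit 57371) (nat_lit 2) (.e (nat_lit 90172) (nat_lit 14) (.e (nat_lit 180244) (nat_lit 5) .nil)))) .nil))) (.nd (nat_lit 6) 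
(.lf (nat_lit 116533) (.g (nat_lit 2493) (.e (nat_lit 5947) (nat_lit 322) (.e (nat_lit 57424) (nat_lit 14) (.e (nat_lit 352318) (nat_lit 24) (.e (nat_lit 123198) (nat_lit 266) (.e (nat_lit 57426) (nat_lit 15) (.e (nat_lit 360456) (nat_lit 0) .nil)))))) (.g (nat_lit 5) .nil .nil))) 
(.lf (nat_lit 116597) (.g (nat_lit 2360) (.e (nat_lit 5948) (nat_lit 322) (.e (nat_lit 57373) (nat_lit 2) (.e (nat_lit 90170) (nat_lit 13) (.e (nat_lit 172113) (nat_lit 10) .nil)))) .nil))))) (.nd (nat_lit 4) (.nd (nat_lit 5) (.nd (nat_lit 6) 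
(.lf (nat_lit 116493) (.g (nat_lit 4363) (.e (nat_lit 5947) (nat_lit 322) (.e (nat_lit 57389) (nat_lit 5) (.e (nat_lit 114723) (nat_lit 24) (.e (nat_lit 106535) (nat_lit 11) (.e (nat_lit 16473) (nat_lit 14) (.e (nat_lit 491560) (nat_lit 10) (.e (nat_lit 344103) (nat_lit 18) .nil))))))) (.g (nat_lit 0) .nil .nil))) 
(.lf (nat_lit 116557) (.g (nat_lit 2993) (.e (nat_lit 5948) (nat_lit 322) (.e (nat_lit 57371) (nat_lit 2) (.e (nat_lit 90167) (nat_lit 13) (.e (nat_lit 172067) (nat_lit 3) (.e (nat_lit 204838) (nat_lit 20) (.e (nat_lit 114719) (nat_lit 23) (.e (nat_lit 98325) (nat_lit 17) (.e (nat_lit 2515) (nat_lit 157) .nil)))))))) (.g (nat_lit 5) .nil .nil)))) (.nd (nat_lit 6) 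
(.lf (nat_lit 116525) (.g (nat_lit 1320) (.e (nat_lit 5947) (nat_lit 322) (.e (nat_lit 57412) (nat_lit 12) (.e (nat_lit 336058) (nat_lit 7) (.e (nat_lit 319539) (nat_lit 19) (.e (nat_lit 319232) (nat_lit 30) .nil))))) .nil)) 
(.lf (nat_lit 116589) (.g (nat_lit 1010) (.e (nat_lit 5948) (nat_lit 322) (.e (nat_lit 57373) (nat_lit 2) (.e (nat_lit 90169) (nat_lit 13) .nil))) .nil)))) (.nd (nat_lit 5) (.nd (nat_lit 6) 
(.lf (nat_lit 116509) (.g (nat_lit 2491) (.e (nat_lit 5947) (nat_lit 322) (.e (nat_lit 57400) (nat_lit 10) (.e (nat_lit 319533) (nat_lit 16) (.e (nat_lit 286742) (nat_lit 9) (.e (nat_lit 336432) (nat_lit 30) (.e (nat_lit 450569) (nat_lit 0) .nil)))))) (.g (nat_lit 6) .nil .nil))) 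
(.lf (nat_lit 116573) (.g (nat_lit 2816) (.e (nat_lit 5948) (nat_lit 322) (.e (nat_lit 57371) (nat_lit 2) (.e (nat_lit 90172) (nat_lit 14) (.e (nat_lit 180244) (nat_lit 5) (.e (nat_lit 532515) (nat_lit 3) (.e (nat_lit 114716) (nat_lit 22) (.e (nat_lit 90165) (nat_lit 12) (.e (nat_lit 163857) (nat_lit 0) .nil)))))))) (.g (nat_lit 5) .nil .nil)))) (.nd (nat_lit 6) 
(.lf (nat_lit 116541) (.g (nat_lit 2436) (.e (nat_lit 5947) (nat_lit 322) (.e (nat_lit 57445) (nat_lit 19) (.e (nat_lit 393234) (nat_lit 17) (.e (nat_lit 7581) (nat_lit 405) (.e (nat_lit 57477) (nat_lit 28) (.e (nat_lit 557104) (nat_lit 14) (.e (nat_lit 180233) (nat_lit 0) .nil))))))) (.g (nat_lit 4) .nil .nil))) 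
(.lf (nat_lit 116605) (.g (nat_lit 2671) (.e (nat_lit 5948) (nat_lit 322) (.e (nat_lit 57373) (nat_lit 2) (.e (nat_lit 90172) (nat_lit 14) (.e (nat_lit 180244) (nat_lit 5) (.e (nat_lit 532508) (nat_lit 2) (.e (nat_lit 106517) (nat_lit 9) (.e (nat_lit 1255) (nat_lit 92) (.e (nat_lit 98325) (nat_lit 17) (.e (nat_lit 2515) (nat_lit 157) .nil))))))))) (.g (nat_lit 4) .nil .nil)))))))) 
(.nd (nat_lit 2) (.nd (nat_lit 3) (.nd (nat_lit 4) (.nd (nat_lit 5) (.nd (nat_lit 6) 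
(.lf (nat_lit 116483) (.g (nat_lit 2145) (.e (nat_lit 5947) (nat_lit 322) (.e (nat_lit 57373) (nat_lit 2) (.e (nat_lit 90178) (nat_lit 15) (.e (nat_lit 188459) (nat_lit 26) .nil)))) .nil)) 
(.lf (nat_lit 116547) (.g (nat_lit 3427) (.e (nat_lit 5947) (nat_lit 322) (.e (nat_lit 57447) (nat_lit 19) (.e (nat_lit 393234) (nat_lit 17) (.e (nat_lit 7581) (nat_lit 405) (.e (nat_lit 57477) (nat_lit 28) (.e (nat_lit 557104) (nat_lit 14) (.e (nat_lit 180233) (nat_lit 0) .nil))))))) (.g (nat_lit 6) .nil .nil)))) (.nd (nat_lit 6) 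
(.lf (nat_lit 116515) (.g (nat_lit 2106) (.e (nat_lit 5947) (nat_lit 322) (.e (nat_lit 57400) (nat_lit 10) (.e (nat_lit 319534) (nat_lit 16) (.e (nat_lit 286743) (nat_lit 9) (.e (nat_lit 336433) (nat_lit 30) (.e (nat_lit 450569) (nat_lit 0) .nil)))))) (.g (nat_lit 4) .nil .nil))) 
(.lf (nat_lit 116579) (.g (nat_lit 1728) (.e (nat_lit 5948) (nat_lit 322) (.e (nat_lit 57371) (nat_lit 2) (.e (nat_lit 90176) (nat_lit 15) (.e (nat_lit 188459) (nat_lit 26) (.e (nat_lit 261888) (nat_lit 5) .nil))))) .nil)))) (.nd (nat_lit 5) (.nd (nat_lit 6) 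
(.lf (nat_lit 116499) (.g (nat_lit 1377) (.e (nat_lit 5947) (nat_lit 322) (.e (nat_lit 57399) (nat_lit 10) (.e (nat_lit 319531) (nat_lit 16) (.e (nat_lit 286743) (nat_lit 9) (.e (nat_lit 336433) (nat_lit 30) (.e (nat_lit 450569) (nat_lit 0) .nil)))))) (.g (nat_lit 4) .nil .nil))) 
(.lf (nat_lit 116563) (.g (nat_lit 2247) (.e (nat_lit 5948) (nat_lit 322) (.e (nat_lit 57371) (nat_lit 2) (.e (nat_lit 90172) (nat_lit 14) (.e (nat_lit 180243) (nat_lit 5) (.e (nat_lit 532515) (nat_lit 3) .nil))))) .nil))) (.nd (nat_lit 6) 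
(.lf (nat_lit 116531) (.g (nat_lit 3394) (.e (nat_lit 5947) (nat_lit 322) (.e (nat_lit 57424) (nat_lit 14) (.e (nat_lit 352318) (nat_lit 24) (.e (nat_lit 123197) (nat_lit 266) (.e (nat_lit 57427) (nat_lit 15) (.e (nat_lit 360457) (nat_lit 0) .nil)))))) (.g (nat_lit 6) .nil .nil))) 
(.lf (nat_lit 116595) (.g (nat_lit 2854) (.e (nat_lit 5948) (nat_lit 322) (.e (nat_lit 57373) (nat_lit 2) (.e (nat_lit 90170) (nat_lit 13) (.e (nat_lit 172067) (nat_lit 3) (.e (nat_lit 204837) (nat_lit 20) (.e (nat_lit 114718) (nat_lit 23) (.e (nat_lit 98325) (nat_lit 17) (.e (nat_lit 2515) (nat_lit 157) .nil)))))))) (.g (nat_lit 4) .nil .nil)))))) 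
(.nd (nat_lit 4) (.nd (nat_lit 5) (.nd (nat_lit 6) 
(.lf (nat_lit 116491) (.g (nat_lit 2212) (.e (nat_lit 5947) (nat_lit 322) (.e (nat_lit 57378) (nat_lit 3) (.e (nat_lit 98365) (nat_lit 26) (.e (nat_lit 426334) (nat_lit 13) .nil)))) .nil)) 
(.lf (nat_lit 116555) (.g (nat_lit 1684) (.e (nat_lit 5948) (nat_lit 322) (.e (nat_lit 57370) (nat_lit 2) (.e (nat_lit 90170) (nat_lit 13) (.e (nat_lit 172065) (nat_lit 3) .nil)))) .nil))) (.nd (nat_lit 6) 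
(.lf (nat_lit 116523) (.g (nat_lit 1422) (.e (nat_lit 5947) (nat_lit 322) (.e (nat_lit 57406) (nat_lit 12) (.e (nat_lit 336443) (nat_lit 32) (.e (nat_lit 466979) (nat_lit 23) .nil)))) .nil)) 
(.lf (nat_lit 116587) (.g (nat_lit 2123) (.e (nat_lit 5948) (nat_lit 322) (.e (nat_lit 57371) (nat_lit 2) (.e (nat_lit 90185) (nat_lit 17) (.e (nat_lit 237620) (nat_lit 13) .nil)))) .nil)))) (.nd (nat_lit 5) (.nd (nat_lit 6) 
(.lf (nat_lit 116507) (.g (nat_lit 2061) (.e (nat_lit 5947) (nat_lit 322) (.e (nat_lit 57400) (nat_lit 10) (.e (nat_lit 319532) (nat_lit 16) (.e (nat_lit 286743) (nat_lit 9) (.e (nat_lit 336432) (nat_lit 30) (.e (nat_lit 450569) (nat_lit 0) .nil)))))) (.g (nat_lit 5) .nil .nil))) 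
(.lf (nat_lit 116571) (.g (nat_lit 2126) (.e (nat_lit 5948) (nat_lit 322) (.e (nat_lit 57371) (nat_lit 2) (.e (nat_lit 90172) (nat_lit 14) (.e (nat_lit 180244) (nat_lit 5) (.e (nat_lit 532515) (nat_lit 3) .nil))))) .nil))) (.nd (nat_lit 6) 
(.lf (nat_lit 116539) (.g (nat_lit 3175) (.e (nat_lit 5947) (nat_lit 322) (.e (nat_lit 57445) (nat_lit 19) (.e (nat_lit 393233) (nat_lit 17) (.e (nat_lit 7581) (nat_lit 405) (.e (nat_lit 57480) (nat_lit 28) (.e (nat_lit 557104) (nat_lit 14) (.e (nat_lit 180233) (nat_lit 0) .nil))))))) (.g (nat_lit 5) .nil .nil))) 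
(.lf (nat_lit 116603) (.g (nat_lit 2938) (.e (nat_lit 5948) (nat_lit 322) (.e (nat_lit 57373) (nat_lit 2) (.e (nat_lit 90172) (nat_lit 14) (.e (nat_lit 180243) (nat_lit 5) (.e (nat_lit 532515) (nat_lit 3) (.e (nat_lit 114719) (nat_lit 23) (.e (nat_lit 98325) (nat_lit 17) (.e (nat_lit 2515) (nat_lit 157) .nil)))))))) (.g (nat_lit 4) .nil .nil))))))) 
(.nd (nat_lit 3) (.nd (nat_lit 4) (.nd (nat_lit 5) (.nd (nat_lit 6) 
(.lf (nat_lit 116487) (.g (nat_lit 1665) (.e (nat_lit 5947) (nat_lit 322) (.e (nat_lit 57373) (nat_lit 2) (.e (nat_lit 90185) (nat_lit 17) (.e (nat_lit 237621) (nat_lit 13) (.e (nat_lit 491264) (nat_lit 10) .nil))))) .nil)) 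
(.lf (nat_lit 116551) (.g (nat_lit 2041) (.e (nat_lit 5947) (nat_lit 322) (.e (nat_lit 57450) (nat_lit 20) (.e (nat_lit 401454) (nat_lit 12) (.e (nat_lit 475208) (nat_lit 41) .nil)))) .nil))) (.nd (nat_lit 6) 
(.lf (nat_lit 116519) (.g (nat_lit 928) (.e (nat_lit 5947) (nat_lit 322) (.e (nat_lit 57406) (nat_lit 12) (.e (nat_lit 336438) (nat_lit 31) .nil))) .nil)) 
(.lf (nat_lit 116583) (.g (nat_lit 741) (.e (nat_lit 5948) (nat_lit 322) (.e (nat_lit 57371) (nat_lit 2) (.e (nat_lit 90183) (nat_lit 17) .nil))) .nil)))) (.nd (nat_lit 5) (.nd (nat_lit 6) 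
(.lf (nat_lit 116503) (.g (nat_lit 2274) (.e (nat_lit 5947) (nat_lit 322) (.e (nat_lit 57400) (nat_lit 10) (.e (nat_lit 319530) (nat_lit 16) (.e (nat_lit 286743) (nat_lit 9) (.e (nat_lit 336432) (nat_lit 30) (.e (nat_lit 450569) (nat_lit 0) .nil)))))) (.g (nat_lit 5) .nil .nil))) 
(.lf (nat_lit 116567) (.g (nat_lit 4070) (.e (nat_lit 5948) (nat_lit 322) (.e (nat_lit 57371) (nat_lit 2) (.e (nat_lit 90172) (nat_lit 14) (.e (nat_lit 180244) (nat_lit 5) (.e (nat_lit 532513) (nat_lit 3) (.e (nat_lit 114714) (nat_lit 22) (.e (nat_lit 90165) (nat_lit 12) (.e (nat_lit 163857) (nat_lit 0) .nil)))))))) (.g (nat_lit 6) .nil .nil)))) (.nd (nat_lit 6) 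
(.lf (nat_lit 116535) (.g (nat_lit 2329) (.e (nat_lit 5947) (nat_lit 322) (.e (nat_lit 57445) (nat_lit 19) (.e (nat_lit 393232) (nat_lit 17) (.e (nat_lit 7581) (nat_lit 405) (.e (nat_lit 57477) (nat_lit 28) (.e (nat_lit 557104) (nat_lit 14) (.e (nat_lit 180233) (nat_lit 0) .nil))))))) (.g (nat_lit 4) .nil .nil))) 
(.lf (nat_lit 116599) (.g (nat_lit 2196) (.e (nat_lit 5948) (nat_lit 322) (.e (nat_lit 57373) (nat_lit 2) (.e (nat_lit 90170) (nat_lit 13) (.e (nat_lit 172123) (nat_lit 13) (.e (nat_lit 491264) (nat_lit 10) .nil))))) .nil))))) (.nd (nat_lit 4) (.nd (nat_lit 5) (.nd (nat_lit 6) 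
(.lf (nat_lit 116495) (.g (nat_lit 4714) (.e (nat_lit 5947) (nat_lit 322) (.e (nat_lit 57389) (nat_lit 5) (.e (nat_lit 114723) (nat_lit 24) (.e (nat_lit 106536) (nat_lit 11) (.e (nat_lit 16473) (nat_lit 14) (.e (nat_lit 491560) (nat_lit 10) (.e (nat_lit 344103) (nat_lit 18) .nil))))))) (.g (nat_lit 0) .nil .nil))) 
(.lf (nat_lit 116559) (.g (nat_lit 740) (.e (nat_lit 5948) (nat_lit 322) (.e (nat_lit 57371) (nat_lit 2) (.e (nat_lit 90171) (nat_lit 14) .nil))) .nil))) (.nd (nat_lit 6) 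
(.lf (nat_lit 116527) (.g (nat_lit 2156) (.e (nat_lit 5947) (nat_lit 322) (.e (nat_lit 57412) (nat_lit 12) (.e (nat_lit 336193) (nat_lit 12) (.e (nat_lit 385105) (nat_lit 50) (.e (nat_lit 786481) (nat_lit 30) .nil))))) .nil)) 
(.lf (nat_lit 116591) (.g (nat_lit 2800) (.e (nat_lit 5948) (nat_lit 322) (.e (nat_lit 57373) (nat_lit 2) (.e (nat_lit 90170) (nat_lit 13) (.e (nat_lit 172065) (nat_lit 3) (.e (nat_lit 204838) (nat_lit 20) .nil))))) .nil)))) (.nd (nat_lit 5) (.nd (nat_lit 6) 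
(.lf (nat_lit 116511) (.g (nat_lit 3006) (.e (nat_lit 5947) (nat_lit 322) (.e (nat_lit 57400) (nat_lit 10) (.e (nat_lit 319533) (nat_lit 16) (.e (nat_lit 286743) (nat_lit 9) (.e (nat_lit 336432) (nat_lit 30) (.e (nat_lit 450569) (nat_lit 0) .nil)))))) (.g (nat_lit 6) .nil .nil))) 
(.lf (nat_lit 116575) (.g (nat_lit 1510) (.e (nat_lit 5948) (nat_lit 322) (.e (nat_lit 57371) (nat_lit 2) (.e (nat_lit 90174) (nat_lit 14) (.e (nat_lit 180243) (nat_lit 5) .nil)))) .nil))) (.nd (nat_lit 6) 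
(.lf (nat_lit 116543) (.g (nat_lit 534) (.e (nat_lit 5947) (nat_lit 322) (.e (nat_lit 57445) (nat_lit 19) (.e (nat_lit 393281) (nat_lit 23) .nil))) .nil)) 
(.lf (nat_lit 116607) (.g (nat_lit 4254) (.e (nat_lit 5948) (nat_lit 322) (.e (nat_lit 57373) (nat_lit 2) (.e (nat_lit 90172) (nat_lit 14) (.e (nat_lit 180244) (nat_lit 5) (.e (nat_lit 532513) (nat_lit 3) (.e (nat_lit 114718) (nat_lit 23) (.e (nat_lit 98325) (nat_lit 17) (.e (nat_lit 2515) (nat_lit 157) .nil)))))))) (.g (nat_lit 6) .nil .nil))))))))))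

noncomputable def tv1565 : DT := (.nd (nat_lit 0) (.nd (nat_lit 1) (.nd (nat_lit 2) (.nd (nat_lit 3) (.nd (nat_lit 4) (.nd (nat_lit 5) 
(.lf (nat_lit 116608) (.g (nat_lit 4341) (.e (nat_lit 5948) (nat_lit 322) (.e (nat_lit 57373) (nat_lit 2) (.e (nat_lit 90172) (nat_lit 14) (.e (nat_lit 180244) (nat_lit 5) (.e (nat_lit 532513) (nat_lit 3) (.e (nat_lit 114719) (nat_lit 23) (.e (nat_lit 98325) (nat_lit 17) (.e (nat_lit 2515) (nat_lit 157) .nil)))))))) (.g (nat_lit 6) .nil .nil))) 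
(.lf (nat_lit 116640) (.g (nat_lit 2470) (.e (nat_lit 5948) (nat_lit 322) (.e (nat_lit 57378) (nat_lit 3) (.e (nat_lit 98373) (nat_lit 29) (.e (nat_lit 450604) (nat_lit 22) .nil)))) .nil))) (.nd (nat_lit 5) 
(.lf (nat_lit 116624) (.g (nat_lit 2119) (.e (nat_lit 5948) (nat_lit 322) (.e (nat_lit 57373) (nat_lit 2) (.e (nat_lit 90185) (nat_lit 17) (.e (nat_lit 237623) (nat_lit 13) (.e (nat_lit 491264) (nat_lit 10) (.e (nat_lit 434216) (nat_lit 18) .nil)))))) (.g (nat_lit 4) .nil .nil))) 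
(.lf (nat_lit 116656) (.g (nat_lit 1337) (.e (nat_lit 5948) (nat_lit 322) (.e (nat_lit 57400) (nat_lit 10) (.e (nat_lit 319528) (nat_lit 16) (.e (nat_lit 286761) (nat_lit 13) (.e (nat_lit 393264) (nat_lit 22) (.e (nat_lit 417795) (nat_lit 0) (.e (nat_lit 64) (nat_lit 0) .nil))))))) (.g (nat_lit 4) .nil .nil))))) (.nd (nat_lit 4) (.nd (nat_lit 5) 
(.lf (nat_lit 116616) (.g (nat_lit 1854) (.e (nat_lit 5948) (nat_lit 322) (.e (nat_lit 57373) (nat_lit 2) (.e (nat_lit 90176) (nat_lit 15) (.e (nat_lit 188461) (nat_lit 26) .nil)))) .nil)) 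
(.lf (nat_lit 116648) (.g (nat_lit 2086) (.e (nat_lit 5948) (nat_lit 322) (.e (nat_lit 57399) (nat_lit 10) (.e (nat_lit 319531) (nat_lit 16) (.e (nat_lit 286743) (nat_lit 9) (.e (nat_lit 336432) (nat_lit 30) (.e (nat_lit 450569) (nat_lit 0) .nil)))))) (.g (nat_lit 6) .nil .nil)))) (.nd (nat_lit 5) 
(.lf (nat_lit 116632) (.g (nat_lit 1710) (.e (nat_lit 5948) (nat_lit 322) (.e (nat_lit 57378) (nat_lit 3) (.e (nat_lit 98365) (nat_lit 26) (.e (nat_lit 426188) (nat_lit 9) .nil)))) .nil)) 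
(.lf (nat_lit 116664) (.g (nat_lit 2527) (.e (nat_lit 5948) (nat_lit 322) (.e (nat_lit 57400) (nat_lit 10) (.e (nat_lit 319530) (nat_lit 16) (.e (nat_lit 286743) (nat_lit 9) (.e (nat_lit 336432) (nat_lit 30) (.e (nat_lit 450569) (nat_lit 0) .nil)))))) (.g (nat_lit 0) .nil .nil)))))) (.nd (nat_lit 3) (.nd (nat_lit 4) (.nd (nat_lit 5) 
(.lf (nat_lit 116612) (.g (nat_lit 2258) (.e (nat_lit 5948) (nat_lit 322) (.e (nat_lit 57373) (nat_lit 2) (.e (nat_lit 90174) (nat_lit 14) (.e (nat_lit 180243) (nat_lit 5) (.e (nat_lit 532508) (nat_lit 2) .nil))))) .nil)) 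
(.lf (nat_lit 116644) (.g (nat_lit 1517) (.e (nat_lit 5948) (nat_lit 322) (.e (nat_lit 57399) (nat_lit 10) (.e (nat_lit 319530) (nat_lit 16) (.e (nat_lit 286761) (nat_lit 13) (.e (nat_lit 393264) (nat_lit 22) (.e (nat_lit 417795) (nat_lit 0) (.e (nat_lit 63) (nat_lit 0) .nil))))))) (.g (nat_lit 4) .nil .nil)))) (.nd (nat_lit 5) 
(.lf (nat_lit 116628) (.g (nat_lit 2303) (.e (nat_lit 5948) (nat_lit 322) (.e (nat_lit 57378) (nat_lit 3) (.e (nat_lit 98358) (nat_lit 26) (.e (nat_lit 426131) (nat_lit 3) (.e (nat_lit 204838) (nat_lit 20) .nil))))) .nil)) 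
(.lf (nat_lit 116660) (.g (nat_lit 1609) (.e (nat_lit 5948) (nat_lit 322) (.e (nat_lit 57400) (nat_lit 10) (.e (nat_lit 319529) (nat_lit 16) (.e (nat_lit 286743) (nat_lit 9) (.e (nat_lit 336433) (nat_lit 30) (.e (nat_lit 450569) (nat_lit 0) .nil)))))) (.g (nat_lit 5) .nil .nil))))) (.nd (nat_lit 4) (.nd (nat_lit 5) 
(.lf (nat_lit 116620) (.g (nat_lit 2540) (.e (nat_lit 5948) (nat_lit 322) (.e (nat_lit 57373) (nat_lit 2) (.e (nat_lit 90178) (nat_lit 15) (.e (nat_lit 188461) (nat_lit 26) (.e (nat_lit 261888) (nat_lit 5) .nil))))) .nil)) 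
(.lf (nat_lit 116652) (.g (nat_lit 1354) (.e (nat_lit 5948) (nat_lit 322) (.e (nat_lit 57400) (nat_lit 10) (.e (nat_lit 319528) (nat_lit 16) (.e (nat_lit 286743) (nat_lit 9) (.e (nat_lit 336434) (nat_lit 30) .nil))))) .nil))) (.nd (nat_lit 5) 
(.lf (nat_lit 116636) (.g (nat_lit 1774) (.e (nat_lit 5948) (nat_lit 322) (.e (nat_lit 57378) (nat_lit 3) (.e (nat_lit 98372) (nat_lit 29) (.e (nat_lit 450561) (nat_lit 0) .nil)))) .nil)) 
(.lf (nat_lit 116668) (.g (nat_lit 1650) (.e (nat_lit 5948) (nat_lit 322) (.e (nat_lit 57400) (nat_lit 10) (.e (nat_lit 319530) (nat_lit 16) (.e (nat_lit 286761) (nat_lit 13) (.e (nat_lit 393264) (nat_lit 22) .nil))))) .nil)))))) (.nd (nat_lit 2) (.nd (nat_lit 3) (.nd (nat_lit 4) (.nd (nat_lit 5) 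
(.lf (nat_lit 116610) (.g (nat_lit 3881) (.e (nat_lit 5948) (nat_lit 322) (.e (nat_lit 57373) (nat_lit 2) (.e (nat_lit 90172) (nat_lit 14) (.e (nat_lit 180244) (nat_lit 5) (.e (nat_lit 532515) (nat_lit 3) (.e (nat_lit 114715) (nat_lit 22) (.e (nat_lit 90165) (nat_lit 12) (.e (nat_lit 163857) (nat_lit 0) .nil)))))))) (.g (nat_lit 0) .nil .nil))) 
(.lf (nat_lit 116642) (.g (nat_lit 2174) (.e (nat_lit 5948) (nat_lit 322) (.e (nat_lit 57378) (nat_lit 3) (.e (nat_lit 98377) (nat_lit 30) (.e (nat_lit 458789) (nat_lit 23) (.e (nat_lit 532515) (nat_lit 3) (.e (nat_lit 114719) (nat_lit 23) (.e (nat_lit 98325) (nat_lit 17) (.e (nat_lit 2515) (nat_lit 157) .nil)))))))) (.g (nat_lit 4) .nil .nil)))) (.nd (nat_lit 5) 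
(.lf (nat_lit 116626) (.g (nat_lit 1419) (.e (nat_lit 5948) (nat_lit 322) (.e (nat_lit 57377) (nat_lit 3) (.e (nat_lit 98370) (nat_lit 28) (.e (nat_lit 450304) (nat_lit 18) .nil)))) .nil)) 
(.lf (nat_lit 116658) (.g (nat_lit 1358) (.e (nat_lit 5948) (nat_lit 322) (.e (nat_lit 57400) (nat_lit 10) (.e (nat_lit 319528) (nat_lit 16) (.e (nat_lit 286761) (nat_lit 13) (.e (nat_lit 393289) (nat_lit 25) (.e (nat_lit 458776) (nat_lit 18) .nil)))))) (.g (nat_lit 4) .nil .nil))))) (.nd (nat_lit 4) (.nd (nat_lit 5) 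
(.lf (nat_lit 116618) (.g (nat_lit 1567) (.e (nat_lit 5948) (nat_lit 322) (.e (nat_lit 57373) (nat_lit 2) (.e (nat_lit 90178) (nat_lit 15) (.e (nat_lit 196352) (nat_lit 18) .nil)))) .nil)) 
(.lf (nat_lit 116650) (.g (nat_lit 2230) (.e (nat_lit 5948) (nat_lit 322) (.e (nat_lit 57400) (nat_lit 10) (.e (nat_lit 319528) (nat_lit 16) (.e (nat_lit 286743) (nat_lit 9) (.e (nat_lit 336432) (nat_lit 30) (.e (nat_lit 450569) (nat_lit 0) .nil)))))) (.g (nat_lit 0) .nil .nil)))) (.nd (nat_lit 5) 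
(.lf (nat_lit 116634) (.g (nat_lit 1823) (.e (nat_lit 5948) (nat_lit 322) (.e (nat_lit 57378) (nat_lit 3) (.e (nat_lit 98365) (nat_lit 26) (.e (nat_lit 426334) (nat_lit 13) .nil)))) .nil)) 
(.lf (nat_lit 116666) (.g (nat_lit 1734) (.e (nat_lit 5948) (nat_lit 322) (.e (nat_lit 57400) (nat_lit 10) (.e (nat_lit 319530) (nat_lit 16) (.e (nat_lit 286743) (nat_lit 9) (.e (nat_lit 336434) (nat_lit 30) .nil))))) .nil))))) (.nd (nat_lit 3) (.nd (nat_lit 4) (.nd (nat_lit 5) 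
(.lf (nat_lit 116614) (.g (nat_lit 1585) (.e (nat_lit 5948) (nat_lit 322) (.e (nat_lit 57373) (nat_lit 2) (.e (nat_lit 90176) (nat_lit 15) (.e (nat_lit 196352) (nat_lit 18) .nil)))) .nil)) 
(.lf (nat_lit 116646) (.g (nat_lit 1335) (.e (nat_lit 5948) (nat_lit 322) (.e (nat_lit 57399) (nat_lit 10) (.e (nat_lit 319530) (nat_lit 16) (.e (nat_lit 286761) (nat_lit 13) (.e (nat_lit 393264) (nat_lit 22) (.e (nat_lit 417795) (nat_lit 0) (.e (nat_lit 67) (nat_lit 0) .nil))))))) (.g (nat_lit 4) .nil .nil)))) (.nd (nat_lit 5) 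
(.lf (nat_lit 116630) (.g (nat_lit 1701) (.e (nat_lit 5948) (nat_lit 322) (.e (nat_lit 57378) (nat_lit 3) (.e (nat_lit 98365) (nat_lit 26) (.e (nat_lit 426187) (nat_lit 9) .nil)))) .nil)) 
(.lf (nat_lit 116662) (.g (nat_lit 2036) (.e (nat_lit 5948) (nat_lit 322) (.e (nat_lit 57400) (nat_lit 10) (.e (nat_lit 319529) (nat_lit 16) (.e (nat_lit 286761) (nat_lit 13) (.e (nat_lit 393265) (nat_lit 22) (.e (nat_lit 417792) (nat_lit 0) (.e (nat_lit 67) (nat_lit 0) .nil))))))) (.g (nat_lit 5) .nil .nil))))) (.nd (nat_lit 4) (.nd (nat_lit 5) 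
(.lf (nat_lit 116622) (.g (nat_lit 2707) (.e (nat_lit 5948) (nat_lit 322) (.e (nat_lit 57373) (nat_lit 2) (.e (nat_lit 90185) (nat_lit 17) (.e (nat_lit 237605) (nat_lit 9) (.e (nat_lit 426479) (nat_lit 27) (.e (nat_lit 336421) (nat_lit 28) (.e (nat_lit 434216) (nat_lit 18) .nil))))))) (.g (nat_lit 6) .nil .nil))) 
(.lf (nat_lit 116654) (.g (nat_lit 1306) (.e (nat_lit 5948) (nat_lit 322) (.e (nat_lit 57400) (nat_lit 10) (.e (nat_lit 319528) (nat_lit 16) (.e (nat_lit 286761) (nat_lit 13) (.e (nat_lit 393264) (nat_lit 22) .nil))))) .nil))) (.nd (nat_lit 5) 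
(.lf (nat_lit 116638) (.g (nat_lit 4233) (.e (nat_lit 5948) (nat_lit 322) (.e (nat_lit 57378) (nat_lit 3) (.e (nat_lit 98373) (nat_lit 29) (.e (nat_lit 450563) (nat_lit 0) (.e (nat_lit 6595) (nat_lit 351) .nil))))) .nil)) 
(.lf (nat_lit 116670) (.g (nat_lit 1804) (.e (nat_lit 5948) (nat_lit 322) (.e (nat_lit 57400) (nat_lit 10) (.e (nat_lit 319530) (nat_lit 16) (.e (nat_lit 286761) (nat_lit 13) (.e (nat_lit 393264) (nat_lit 22) (.e (nat_lit 417795) (nat_lit 0) (.e (nat_lit 63) (nat_lit 0) .nil))))))) (.g (nat_lit 4) .nil .nil)))))))) 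
(.nd (nat_lit 1) (.nd (nat_lit 2) (.nd (nat_lit 3) (.nd (nat_lit 4) (.nd (nat_lit 5) 
(.lf (nat_lit 116609) (.g (nat_lit 2492) (.e (nat_lit 5948) (nat_lit 322) (.e (nat_lit 57373) (nat_lit 2) (.e (nat_lit 90172) (nat_lit 14) (.e (nat_lit 180244) (nat_lit 5) (.e (nat_lit 532514) (nat_lit 3) .nil))))) .nil)) 
(.lf (nat_lit 116641) (.g (nat_lit 2037) (.e (nat_lit 5948) (nat_lit 322) (.e (nat_lit 57378) (nat_lit 3) (.e (nat_lit 98377) (nat_lit 30) (.e (nat_lit 458789) (nat_lit 23) (.e (nat_lit 532515) (nat_lit 3) .nil))))) .nil))) (.nd (nat_lit 5) 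
(.lf (nat_lit 116625) (.g (nat_lit 743) (.e (nat_lit 5948) (nat_lit 322) (.e (nat_lit 57377) (nat_lit 3) (.e (nat_lit 98369) (nat_lit 28) .nil))) .nil)) 
(.lf (nat_lit 116657) (.g (nat_lit 2229) (.e (nat_lit 5948) (nat_lit 322) (.e (nat_lit 57400) (nat_lit 10) (.e (nat_lit 319528) (nat_lit 16) (.e (nat_lit 286761) (nat_lit 13) (.e (nat_lit 393265) (nat_lit 22) (.e (nat_lit 417792) (nat_lit 0) (.e (nat_lit 67) (nat_lit 0) .nil))))))) (.g (nat_lit 5) .nil .nil))))) (.nd (nat_lit 4) (.nd (nat_lit 5) 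
(.lf (nat_lit 116617) (.g (nat_lit 926) (.e (nat_lit 5948) (nat_lit 322) (.e (nat_lit 57373) (nat_lit 2) (.e (nat_lit 90177) (nat_lit 15) .nil))) .nil)) 
(.lf (nat_lit 116649) (.g (nat_lit 1556) (.e (nat_lit 5948) (nat_lit 322) (.e (nat_lit 57400) (nat_lit 10) (.e (nat_lit 319511) (nat_lit 10) (.e (nat_lit 5293) (nat_lit 298) (.e (nat_lit 1656) (nat_lit 115) (.e (nat_lit 393265) (nat_lit 22) (.e (nat_lit 417792) (nat_lit 0) (.e (nat_lit 67) (nat_lit 0) .nil)))))))) (.g (nat_lit 5) .nil .nil)))) (.nd (nat_lit 5) 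
(.lf (nat_lit 116633) (.g (nat_lit 3716) (.e (nat_lit 5948) (nat_lit 322) (.e (nat_lit 57378) (nat_lit 3) (.e (nat_lit 98365) (nat_lit 26) (.e (nat_lit 426188) (nat_lit 9) (.e (nat_lit 426479) (nat_lit 27) (.e (nat_lit 336421) (nat_lit 28) (.e (nat_lit 434216) (nat_lit 18) .nil))))))) (.g (nat_lit 7) .nil .nil))) 
(.lf (nat_lit 116665) (.g (nat_lit 1665) (.e (nat_lit 5948) (nat_lit 322) (.e (nat_lit 57400) (nat_lit 10) (.e (nat_lit 319530) (nat_lit 16) (.e (nat_lit 286743) (nat_lit 9) (.e (nat_lit 336433) (nat_lit 30) (.e (nat_lit 450569) (nat_lit 0) .nil)))))) (.g (nat_lit 4) .nil .nil)))))) (.nd (nat_lit 3) (.nd (nat_lit 4) (.nd (nat_lit 5) 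
(.lf (nat_lit 116613) (.g (nat_lit 760) (.e (nat_lit 5948) (nat_lit 322) (.e (nat_lit 57373) (nat_lit 2) (.e (nat_lit 90176) (nat_lit 15) .nil))) .nil)) 
(.lf (nat_lit 116645) (.g (nat_lit 1486) (.e (nat_lit 5948) (nat_lit 322) (.e (nat_lit 57399) (nat_lit 10) (.e (nat_lit 319530) (nat_lit 16) (.e (nat_lit 286761) (nat_lit 13) (.e (nat_lit 393264) (nat_lit 22) (.e (nat_lit 417795) (nat_lit 0) (.e (nat_lit 64) (nat_lit 0) .nil))))))) (.g (nat_lit 4) .nil .nil)))) (.nd (nat_lit 5) 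
(.lf (nat_lit 116629) (.g (nat_lit 567) (.e (nat_lit 5948) (nat_lit 322) (.e (nat_lit 57378) (nat_lit 3) (.e (nat_lit 98363) (nat_lit 26) .nil))) .nil)) 
(.lf (nat_lit 116661) (.g (nat_lit 1359) (.e (nat_lit 5948) (nat_lit 322) (.e (nat_lit 57400) (nat_lit 10) (.e (nat_lit 319529) (nat_lit 16) (.e (nat_lit 286743) (nat_lit 9) (.e (nat_lit 336434) (nat_lit 30) .nil))))) .nil)))) (.nd (nat_lit 4) (.nd (nat_lit 5) 
(.lf (nat_lit 116621) (.g (nat_lit 2567) (.e (nat_lit 5948) (nat_lit 322) (.e (nat_lit 57373) (nat_lit 2) (.e (nat_lit 90185) (nat_lit 17) (.e (nat_lit 237601) (nat_lit 9) (.e (nat_lit 426479) (nat_lit 27) (.e (nat_lit 336421) (nat_lit 28) (.e (nat_lit 434216) (nat_lit 18) .nil))))))) (.g (nat_lit 6) .nil .nil))) 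
(.lf (nat_lit 116653) (.g (nat_lit 2154) (.e (nat_lit 5948) (nat_lit 322) (.e (nat_lit 57400) (nat_lit 10) (.e (nat_lit 319528) (nat_lit 16) (.e (nat_lit 286761) (nat_lit 13) (.e (nat_lit 393234) (nat_lit 17) (.e (nat_lit 7065) (nat_lit 377) (.e (nat_lit 1023) (nat_lit 81) (.e (nat_lit 65) (nat_lit 0) .nil)))))))) (.g (nat_lit 5) .nil .nil)))) (.nd (nat_lit 5) 
(.lf (nat_lit 116637) (.g (nat_lit 4172) (.e (nat_lit 5948) (nat_lit 322) (.e (nat_lit 57378) (nat_lit 3) (.e (nat_lit 98373) (nat_lit 29) (.e (nat_lit 450562) (nat_lit 0) (.e (nat_lit 6595) (nat_lit 351) .nil))))) .nil)) 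
(.lf (nat_lit 116669) (.g (nat_lit 2123) (.e (nat_lit 5948) (nat_lit 322) (.e (nat_lit 57400) (nat_lit 10) (.e (nat_lit 319530) (nat_lit 16) (.e (nat_lit 286761) (nat_lit 13) (.e (nat_lit 393264) (nat_lit 22) (.e (nat_lit 417792) (nat_lit 0) (.e (nat_lit 67) (nat_lit 0) .nil))))))) (.g (nat_lit 5) .nil .nil))))))) (.nd (nat_lit 2) (.nd (nat_lit 3) (.nd (nat_lit 4) (.nd (nat_lit 5) 
(.lf (nat_lit 116611) (.g (nat_lit 1455) (.e (nat_lit 5948) (nat_lit 322) (.e (nat_lit 57373) (nat_lit 2) (.e (nat_lit 90174) (nat_lit 14) (.e (nat_lit 180243) (nat_lit 5) .nil)))) .nil)) 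
(.lf (nat_lit 116643) (.g (nat_lit 2068) (.e (nat_lit 5948) (nat_lit 322) (.e (nat_lit 57399) (nat_lit 10) (.e (nat_lit 319530) (nat_lit 16) (.e (nat_lit 286743) (nat_lit 9) (.e (nat_lit 336432) (nat_lit 30) (.e (nat_lit 450569) (nat_lit 0) .nil)))))) (.g (nat_lit 0) .nil .nil)))) (.nd (nat_lit 5) 
(.lf (nat_lit 116627) (.g (nat_lit 1085) (.e (nat_lit 5948) (nat_lit 322) (.e (nat_lit 57378) (nat_lit 3) (.e (nat_lit 98358) (nat_lit 26) .nil))) .nil)) 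
(.lf (nat_lit 116659) (.g (nat_lit 2362) (.e (nat_lit 5948) (nat_lit 322) (.e (nat_lit 57400) (nat_lit 10) (.e (nat_lit 319529) (nat_lit 16) (.e (nat_lit 286743) (nat_lit 9) (.e (nat_lit 336432) (nat_lit 30) (.e (nat_lit 450569) (nat_lit 0) .nil)))))) (.g (nat_lit 0) .nil .nil))))) (.nd (nat_lit 4) (.nd (nat_lit 5) 
(.lf (nat_lit 116619) (.g (nat_lit 2038) (.e (nat_lit 5948) (nat_lit 322) (.e (nat_lit 57373) (nat_lit 2) (.e (nat_lit 90178) (nat_lit 15) (.e (nat_lit 188459) (nat_lit 26) .nil)))) .nil)) 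
(.lf (nat_lit 116651) (.g (nat_lit 1487) (.e (nat_lit 5948) (nat_lit 322) (.e (nat_lit 57400) (nat_lit 10) (.e (nat_lit 319528) (nat_lit 16) (.e (nat_lit 286743) (nat_lit 9) (.e (nat_lit 336433) (nat_lit 30) (.e (nat_lit 450569) (nat_lit 0) .nil)))))) (.g (nat_lit 5) .nil .nil)))) (.nd (nat_lit 5) 
(.lf (nat_lit 116635) (.g (nat_lit 1337) (.e (nat_lit 5948) (nat_lit 322) (.e (nat_lit 57378) (nat_lit 3) (.e (nat_lit 98370) (nat_lit 28) (.e (nat_lit 450304) (nat_lit 18) .nil)))) .nil)) 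
(.lf (nat_lit 116667) (.g (nat_lit 2742) (.e (nat_lit 5948) (nat_lit 322) (.e (nat_lit 57400) (nat_lit 10) (.e (nat_lit 319530) (nat_lit 16) (.e (nat_lit 286761) (nat_lit 13) (.e (nat_lit 393234) (nat_lit 17) (.e (nat_lit 7065) (nat_lit 377) (.e (nat_lit 1023) (nat_lit 81) (.e (nat_lit 65) (nat_lit 0) .nil)))))))) (.g (nat_lit 6) .nil .nil)))))) (.nd (nat_lit 3) (.nd (nat_lit 4) (.nd (nat_lit 5) 
(.lf (nat_lit 116615) (.g (nat_lit 2099) (.e (nat_lit 5948) (nat_lit 322) (.e (nat_lit 57373) (nat_lit 2) (.e (nat_lit 90176) (nat_lit 15) (.e (nat_lit 188459) (nat_lit 26) (.e (nat_lit 261888) (nat_lit 5) .nil))))) .nil)) 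
(.lf (nat_lit 116647) (.g (nat_lit 2230) (.e (nat_lit 5948) (nat_lit 322) (.e (nat_lit 57399) (nat_lit 10) (.e (nat_lit 319530) (nat_lit 16) (.e (nat_lit 286761) (nat_lit 13) (.e (nat_lit 393265) (nat_lit 22) (.e (nat_lit 417792) (nat_lit 0) (.e (nat_lit 67) (nat_lit 0) .nil))))))) (.g (nat_lit 5) .nil .nil)))) (.nd (nat_lit 5) 
(.lf (nat_lit 116631) (.g (nat_lit 3288) (.e (nat_lit 5948) (nat_lit 322) (.e (nat_lit 57378) (nat_lit 3) (.e (nat_lit 98365) (nat_lit 26) (.e (nat_lit 426187) (nat_lit 9) (.e (nat_lit 426479) (nat_lit 27) (.e (nat_lit 336421) (nat_lit 28) (.e (nat_lit 434216) (nat_lit 18) .nil))))))) (.g (nat_lit 7) .nil .nil))) 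
(.lf (nat_lit 116663) (.g (nat_lit 1282) (.e (nat_lit 5948) (nat_lit 322) (.e (nat_lit 57400) (nat_lit 10) (.e (nat_lit 319529) (nat_lit 16) (.e (nat_lit 286761) (nat_lit 13) (.e (nat_lit 393289) (nat_lit 25) .nil))))) .nil)))) (.nd (nat_lit 4) (.nd (nat_lit 5) 
(.lf (nat_lit 116623) (.g (nat_lit 1888) (.e (nat_lit 5948) (nat_lit 322) (.e (nat_lit 57373) (nat_lit 2) (.e (nat_lit 90185) (nat_lit 17) (.e (nat_lit 237620) (nat_lit 13) .nil)))) .nil)) 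
(.lf (nat_lit 116655) (.g (nat_lit 1368) (.e (nat_lit 5948) (nat_lit 322) (.e (nat_lit 57400) (nat_lit 10) (.e (nat_lit 319528) (nat_lit 16) (.e (nat_lit 286761) (nat_lit 13) (.e (nat_lit 393264) (nat_lit 22) (.e (nat_lit 417795) (nat_lit 0) (.e (nat_lit 63) (nat_lit 0) .nil))))))) (.g (nat_lit 4) .nil .nil)))) (.nd (nat_lit 5) 
(.lf (nat_lit 116639) (.g (nat_lit 2424) (.e (nat_lit 5948) (nat_lit 322) (.e (nat_lit 57378) (nat_lit 3) (.e (nat_lit 98373) (nat_lit 29) (.e (nat_lit 450603) (nat_lit 22) .nil)))) .nil)) 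
(.lf (nat_lit 116671) (.g (nat_lit 1773) (.e (nat_lit 5948) (nat_lit 322) (.e (nat_lit 57400) (nat_lit 10) (.e (nat_lit 319530) (nat_lit 16) (.e (nat_lit 286761) (nat_lit 13) (.e (nat_lit 393264) (nat_lit 22) (.e (nat_lit 417795) (nat_lit 0) (.e (nat_lit 64) (nat_lit 0) .nil))))))) (.g (nat_lit 4) .nil .nil)))))))))

noncomputable def tv1566 : DT := (.nd (nat_lit 0) (.nd (nat_lit 1) (.nd (nat_lit 2) (.nd (nat_lit 3) (.nd (nat_lit 4) (.nd (nat_lit 5) 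
(.lf (nat_lit 116672) (.g (nat_lit 2539) (.e (nat_lit 5948) (nat_lit 322) (.e (nat_lit 57400) (nat_lit 10) (.e (nat_lit 319530) (nat_lit 16) (.e (nat_lit 286761) (nat_lit 13) (.e (nat_lit 393265) (nat_lit 22) (.e (nat_lit 417792) (nat_lit 0) (.e (nat_lit 67) (nat_lit 0) .nil))))))) (.g (nat_lit 5) .nil .nil))) 
(.lf (nat_lit 116704) (.g (nat_lit 1834) (.e (nat_lit 5948) (nat_lit 322) (.e (nat_lit 57400) (nat_lit 10) (.e (nat_lit 319534) (nat_lit 16) (.e (nat_lit 286742) (nat_lit 9) (.e (nat_lit 336434) (nat_lit 30) .nil))))) .nil))) (.nd (nat_lit 5) 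
(.lf (nat_lit 116688) (.g (nat_lit 1336) (.e (nat_lit 5948) (nat_lit 322) (.e (nat_lit 57400) (nat_lit 10) (.e (nat_lit 319533) (nat_lit 16) (.e (nat_lit 286742) (nat_lit 9) .nil)))) .nil)) 
(.lf (nat_lit 116720) (.g (nat_lit 3555) (.e (nat_lit 5948) (nat_lit 322) (.e (nat_lit 57406) (nat_lit 12) (.e (nat_lit 336443) (nat_lit 32) (.e (nat_lit 466977) (nat_lit 22) (.e (nat_lit 196624) (nat_lit 9) (.e (nat_lit 442) (nat_lit 33) (.e (nat_lit 434216) (nat_lit 18) .nil))))))) (.g (nat_lit 6) .nil .nil))))) (.nd (nat_lit 4) (.nd (nat_lit 5) 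
(.lf (nat_lit 116680) (.g (nat_lit 1775) (.e (nat_lit 5948) (nat_lit 322) (.e (nat_lit 57400) (nat_lit 10) (.e (nat_lit 319531) (nat_lit 16) (.e (nat_lit 286761) (nat_lit 13) (.e (nat_lit 393264) (nat_lit 22) (.e (nat_lit 417795) (nat_lit 0) (.e (nat_lit 64) (nat_lit 0) .nil))))))) (.g (nat_lit 5) .nil .nil))) 
(.lf (nat_lit 116712) (.g (nat_lit 1927) (.e (nat_lit 5948) (nat_lit 322) (.e (nat_lit 57400) (nat_lit 10) (.e (nat_lit 319534) (nat_lit 16) (.e (nat_lit 286761) (nat_lit 13) (.e (nat_lit 393264) (nat_lit 22) (.e (nat_lit 417795) (nat_lit 0) (.e (nat_lit 64) (nat_lit 0) .nil))))))) (.g (nat_lit 4) .nil .nil)))) (.nd (nat_lit 5) 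
(.lf (nat_lit 116696) (.g (nat_lit 1288) (.e (nat_lit 5948) (nat_lit 322) (.e (nat_lit 57400) (nat_lit 10) (.e (nat_lit 319533) (nat_lit 16) (.e (nat_lit 286761) (nat_lit 13) .nil)))) .nil)) 
(.lf (nat_lit 116728) (.g (nat_lit 1716) (.e (nat_lit 5948) (nat_lit 322) (.e (nat_lit 57409) (nat_lit 12) (.e (nat_lit 336443) (nat_lit 32) (.e (nat_lit 466979) (nat_lit 23) .nil)))) .nil))))) (.nd (nat_lit 3) (.nd (nat_lit 4) (.nd (nat_lit 5) 
(.lf (nat_lit 116676) (.g (nat_lit 1514) (.e (nat_lit 5948) (nat_lit 322) (.e (nat_lit 57400) (nat_lit 10) (.e (nat_lit 319531) (nat_lit 16) (.e (nat_lit 286743) (nat_lit 9) (.e (nat_lit 336434) (nat_lit 30) .nil))))) .nil)) 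
(.lf (nat_lit 116708) (.g (nat_lit 1819) (.e (nat_lit 5948) (nat_lit 322) (.e (nat_lit 57400) (nat_lit 10) (.e (nat_lit 319534) (nat_lit 16) (.e (nat_lit 286749) (nat_lit 9) (.e (nat_lit 343808) (nat_lit 30) (.e (nat_lit 450568) (nat_lit 0) .nil)))))) (.g (nat_lit 4) .nil .nil)))) (.nd (nat_lit 5) 
(.lf (nat_lit 116692) (.g (nat_lit 2091) (.e (nat_lit 5948) (nat_lit 322) (.e (nat_lit 57400) (nat_lit 10) (.e (nat_lit 319533) (nat_lit 16) (.e (nat_lit 286743) (nat_lit 9) (.e (nat_lit 336434) (nat_lit 30) .nil))))) .nil)) 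
(.lf (nat_lit 116724) (.g (nat_lit 1752) (.e (nat_lit 5948) (nat_lit 322) (.e (nat_lit 57406) (nat_lit 12) (.e (nat_lit 336443) (nat_lit 32) (.e (nat_lit 466979) (nat_lit 23) (.e (nat_lit 212736) (nat_lit 10) (.e (nat_lit 434216) (nat_lit 18) .nil)))))) (.g (nat_lit 4) .nil .nil))))) (.nd (nat_lit 4) (.nd (nat_lit 5) 
(.lf (nat_lit 116684) (.g (nat_lit 1534) (.e (nat_lit 5948) (nat_lit 322) (.e (nat_lit 57400) (nat_lit 10) (.e (nat_lit 319532) (nat_lit 16) (.e (nat_lit 286743) (nat_lit 9) (.e (nat_lit 336433) (nat_lit 30) (.e (nat_lit 450569) (nat_lit 0) .nil)))))) (.g (nat_lit 4) .nil .nil))) 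
(.lf (nat_lit 116716) (.g (nat_lit 1858) (.e (nat_lit 5948) (nat_lit 322) (.e (nat_lit 57400) (nat_lit 10) (.e (nat_lit 319534) (nat_lit 16) (.e (nat_lit 286761) (nat_lit 13) (.e (nat_lit 393289) (nat_lit 25) (.e (nat_lit 458776) (nat_lit 18) .nil)))))) (.g (nat_lit 4) .nil .nil)))) (.nd (nat_lit 5) 
(.lf (nat_lit 116700) (.g (nat_lit 2150) (.e (nat_lit 5948) (nat_lit 322) (.e (nat_lit 57400) (nat_lit 10) (.e (nat_lit 319533) (nat_lit 16) (.e (nat_lit 286761) (nat_lit 13) (.e (nat_lit 393284) (nat_lit 24) .nil))))) .nil)) 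
(.lf (nat_lit 116732) (.g (nat_lit 807) (.e (nat_lit 5948) (nat_lit 322) (.e (nat_lit 57417) (nat_lit 12) (.e (nat_lit 336051) (nat_lit 6) .nil))) .nil)))))) (.nd (nat_lit 2) (.nd (nat_lit 3) (.nd (nat_lit 4) (.nd (nat_lit 5) 
(.lf (nat_lit 116674) (.g (nat_lit 2375) (.e (nat_lit 5948) (nat_lit 322) (.e (nat_lit 57400) (nat_lit 10) (.e (nat_lit 319531) (nat_lit 16) (.e (nat_lit 286743) (nat_lit 9) (.e (nat_lit 336432) (nat_lit 30) (.e (nat_lit 450569) (nat_lit 0) .nil)))))) (.g (nat_lit 0) .nil .nil))) 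
(.lf (nat_lit 116706) (.g (nat_lit 2061) (.e (nat_lit 5948) (nat_lit 322) (.e (nat_lit 57400) (nat_lit 10) (.e (nat_lit 319534) (nat_lit 16) (.e (nat_lit 286743) (nat_lit 9) (.e (nat_lit 336433) (nat_lit 30) (.e (nat_lit 450569) (nat_lit 0) .nil)))))) (.g (nat_lit 5) .nil .nil)))) (.nd (nat_lit 5) 
(.lf (nat_lit 116690) (.g (nat_lit 2992) (.e (nat_lit 5948) (nat_lit 322) (.e (nat_lit 57400) (nat_lit 10) (.e (nat_lit 319533) (nat_lit 16) (.e (nat_lit 286743) (nat_lit 9) (.e (nat_lit 336432) (nat_lit 30) (.e (nat_lit 450569) (nat_lit 0) .nil)))))) (.g (nat_lit 0) .nil .nil))) 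
(.lf (nat_lit 116722) (.g (nat_lit 2218) (.e (nat_lit 5948) (nat_lit 322) (.e (nat_lit 57406) (nat_lit 12) (.e (nat_lit 336443) (nat_lit 32) (.e (nat_lit 466977) (nat_lit 22) (.e (nat_lit 196656) (nat_lit 11) (.e (nat_lit 16392) (nat_lit 0) (.e (nat_lit 2514) (nat_lit 157) .nil))))))) (.g (nat_lit 4) .nil .nil))))) (.nd (nat_lit 4) (.nd (nat_lit 5) 
(.lf (nat_lit 116682) (.g (nat_lit 2464) (.e (nat_lit 5948) (nat_lit 322) (.e (nat_lit 57400) (nat_lit 10) (.e (nat_lit 319531) (nat_lit 16) (.e (nat_lit 286761) (nat_lit 13) (.e (nat_lit 393265) (nat_lit 22) (.e (nat_lit 417792) (nat_lit 0) (.e (nat_lit 67) (nat_lit 0) .nil))))))) (.g (nat_lit 5) .nil .nil))) 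
(.lf (nat_lit 116714) (.g (nat_lit 2786) (.e (nat_lit 5948) (nat_lit 322) (.e (nat_lit 57400) (nat_lit 10) (.e (nat_lit 319534) (nat_lit 16) (.e (nat_lit 286761) (nat_lit 13) (.e (nat_lit 393265) (nat_lit 22) (.e (nat_lit 417792) (nat_lit 0) (.e (nat_lit 67) (nat_lit 0) .nil))))))) (.g (nat_lit 5) .nil .nil)))) (.nd (nat_lit 5) 
(.lf (nat_lit 116698) (.g (nat_lit 2695) (.e (nat_lit 5948) (nat_lit 322) (.e (nat_lit 57400) (nat_lit 10) (.e (nat_lit 319533) (nat_lit 16) (.e (nat_lit 286761) (nat_lit 13) (.e (nat_lit 393264) (nat_lit 22) (.e (nat_lit 417792) (nat_lit 0) (.e (nat_lit 67) (nat_lit 0) .nil))))))) (.g (nat_lit 4) .nil .nil))) 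
(.lf (nat_lit 116730) (.g (nat_lit 2398) (.e (nat_lit 5948) (nat_lit 322) (.e (nat_lit 57412) (nat_lit 12) (.e (nat_lit 336193) (nat_lit 12) (.e (nat_lit 385105) (nat_lit 50) (.e (nat_lit 786481) (nat_lit 30) (.e (nat_lit 360457) (nat_lit 0) .nil)))))) (.g (nat_lit 4) .nil .nil)))))) (.nd (nat_lit 3) (.nd (nat_lit 4) (.nd (nat_lit 5) 
(.lf (nat_lit 116678) (.g (nat_lit 2167) (.e (nat_lit 5948) (nat_lit 322) (.e (nat_lit 57400) (nat_lit 10) (.e (nat_lit 319531) (nat_lit 16) (.e (nat_lit 286761) (nat_lit 13) (.e (nat_lit 393264) (nat_lit 22) (.e (nat_lit 417792) (nat_lit 0) (.e (nat_lit 67) (nat_lit 0) .nil))))))) (.g (nat_lit 7) .nil .nil))) 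
(.lf (nat_lit 116710) (.g (nat_lit 2273) (.e (nat_lit 5948) (nat_lit 322) (.e (nat_lit 57400) (nat_lit 10) (.e (nat_lit 319534) (nat_lit 16) (.e (nat_lit 286761) (nat_lit 13) (.e (nat_lit 393264) (nat_lit 22) (.e (nat_lit 417792) (nat_lit 0) (.e (nat_lit 67) (nat_lit 0) .nil))))))) (.g (nat_lit 5) .nil .nil)))) (.nd (nat_lit 5) 
(.lf (nat_lit 116694) (.g (nat_lit 1297) (.e (nat_lit 5948) (nat_lit 322) (.e (nat_lit 57400) (nat_lit 10) (.e (nat_lit 319533) (nat_lit 16) (.e (nat_lit 286760) (nat_lit 13) .nil)))) .nil)) 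
(.lf (nat_lit 116726) (.g (nat_lit 2036) (.e (nat_lit 5948) (nat_lit 322) (.e (nat_lit 57409) (nat_lit 12) (.e (nat_lit 336430) (nat_lit 29) (.e (nat_lit 442427) (nat_lit 23) (.e (nat_lit 212736) (nat_lit 10) .nil))))) .nil)))) (.nd (nat_lit 4) (.nd (nat_lit 5) 
(.lf (nat_lit 116686) (.g (nat_lit 1645) (.e (nat_lit 5948) (nat_lit 322) (.e (nat_lit 57400) (nat_lit 10) (.e (nat_lit 319532) (nat_lit 16) (.e (nat_lit 286761) (nat_lit 13) (.e (nat_lit 393264) (nat_lit 22) .nil))))) .nil)) 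
(.lf (nat_lit 116718) (.g (nat_lit 2880) (.e (nat_lit 5948) (nat_lit 322) (.e (nat_lit 57406) (nat_lit 12) (.e (nat_lit 336443) (nat_lit 32) (.e (nat_lit 466974) (nat_lit 22) (.e (nat_lit 196624) (nat_lit 9) (.e (nat_lit 442) (nat_lit 33) (.e (nat_lit 434216) (nat_lit 18) .nil))))))) (.g (nat_lit 5) .nil .nil)))) (.nd (nat_lit 5) 
(.lf (nat_lit 116702) (.g (nat_lit 1721) (.e (nat_lit 5948) (nat_lit 322) (.e (nat_lit 57400) (nat_lit 10) (.e (nat_lit 319534) (nat_lit 16) (.e (nat_lit 286742) (nat_lit 9) .nil)))) .nil)) 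
(.lf (nat_lit 116734) (.g (nat_lit 2046) (.e (nat_lit 5948) (nat_lit 322) (.e (nat_lit 57417) (nat_lit 12) (.e (nat_lit 336051) (nat_lit 6) (.e (nat_lit 147467) (nat_lit 9) (.e (nat_lit 297) (nat_lit 22) .nil))))) .nil))))))) (.nd (nat_lit 1) (.nd (nat_lit 2) (.nd (nat_lit 3) (.nd (nat_lit 4) (.nd (nat_lit 5) 
(.lf (nat_lit 116673) (.g (nat_lit 1880) (.e (nat_lit 5948) (nat_lit 322) (.e (nat_lit 57400) (nat_lit 10) (.e (nat_lit 319530) (nat_lit 16) (.e (nat_lit 286761) (nat_lit 13) (.e (nat_lit 393289) (nat_lit 25) (.e (nat_lit 458776) (nat_lit 18) .nil)))))) (.g (nat_lit 4) .nil .nil))) 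
(.lf (nat_lit 116705) (.g (nat_lit 2806) (.e (nat_lit 5948) (nat_lit 322) (.e (nat_lit 57400) (nat_lit 10) (.e (nat_lit 319534) (nat_lit 16) (.e (nat_lit 286743) (nat_lit 9) (.e (nat_lit 336432) (nat_lit 30) (.e (nat_lit 450569) (nat_lit 0) .nil)))))) (.g (nat_lit 0) .nil .nil)))) (.nd (nat_lit 5) 
(.lf (nat_lit 116689) (.g (nat_lit 1856) (.e (nat_lit 5948) (nat_lit 322) (.e (nat_lit 57400) (nat_lit 10) (.e (nat_lit 319533) (nat_lit 16) (.e (nat_lit 286742) (nat_lit 9) (.e (nat_lit 336434) (nat_lit 30) (.e (nat_lit 450568) (nat_lit 0) .nil)))))) (.g (nat_lit 4) .nil .nil))) 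
(.lf (nat_lit 116721) (.g (nat_lit 1915) (.e (nat_lit 5948) (nat_lit 322) (.e (nat_lit 57406) (nat_lit 12) (.e (nat_lit 336443) (nat_lit 32) (.e (nat_lit 466977) (nat_lit 22) (.e (nat_lit 196654) (nat_lit 11) (.e (nat_lit 16396) (nat_lit 0) (.e (nat_lit 2515) (nat_lit 157) .nil))))))) (.g (nat_lit 4) .nil .nil))))) (.nd (nat_lit 4) (.nd (nat_lit 5) 
(.lf (nat_lit 116681) (.g (nat_lit 1624) (.e (nat_lit 5948) (nat_lit 322) (.e (nat_lit 57400) (nat_lit 10) (.e (nat_lit 319531) (nat_lit 16) (.e (nat_lit 286761) (nat_lit 13) (.e (nat_lit 393264) (nat_lit 22) (.e (nat_lit 417795) (nat_lit 0) (.e (nat_lit 67) (nat_lit 0) .nil))))))) (.g (nat_lit 4) .nil .nil))) 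
(.lf (nat_lit 116713) (.g (nat_lit 1776) (.e (nat_lit 5948) (nat_lit 322) (.e (nat_lit 57400) (nat_lit 10) (.e (nat_lit 319534) (nat_lit 16) (.e (nat_lit 286761) (nat_lit 13) (.e (nat_lit 393264) (nat_lit 22) (.e (nat_lit 417795) (nat_lit 0) (.e (nat_lit 67) (nat_lit 0) .nil))))))) (.g (nat_lit 4) .nil .nil)))) (.nd (nat_lit 5) 
(.lf (nat_lit 116697) (.g (nat_lit 2413) (.e (nat_lit 5948) (nat_lit 322) (.e (nat_lit 57400) (nat_lit 10) (.e (nat_lit 319533) (nat_lit 16) (.e (nat_lit 286761) (nat_lit 13) (.e (nat_lit 393264) (nat_lit 22) .nil))))) .nil)) 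
(.lf (nat_lit 116729) (.g (nat_lit 1723) (.e (nat_lit 5948) (nat_lit 322) (.e (nat_lit 57409) (nat_lit 12) (.e (nat_lit 336443) (nat_lit 32) (.e (nat_lit 466981) (nat_lit 23) .nil)))) .nil))))) (.nd (nat_lit 3) (.nd (nat_lit 4) (.nd (nat_lit 5) 
(.lf (nat_lit 116677) (.g (nat_lit 2992) (.e (nat_lit 5948) (nat_lit 322) (.e (nat_lit 57400) (nat_lit 10) (.e (nat_lit 319531) (nat_lit 16) (.e (nat_lit 286761) (nat_lit 13) (.e (nat_lit 393234) (nat_lit 17) (.e (nat_lit 7065) (nat_lit 377) (.e (nat_lit 1023) (nat_lit 81) (.e (nat_lit 65) (nat_lit 0) .nil)))))))) (.g (nat_lit 6) .nil .nil))) 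
(.lf (nat_lit 116709) (.g (nat_lit 1190) (.e (nat_lit 5948) (nat_lit 322) (.e (nat_lit 57400) (nat_lit 10) (.e (nat_lit 319534) (nat_lit 16) (.e (nat_lit 286761) (nat_lit 13) .nil)))) .nil))) (.nd (nat_lit 5) 
(.lf (nat_lit 116693) (.g (nat_lit 1471) (.e (nat_lit 5948) (nat_lit 322) (.e (nat_lit 57400) (nat_lit 10) (.e (nat_lit 319533) (nat_lit 16) (.e (nat_lit 286745) (nat_lit 9) .nil)))) .nil)) 
(.lf (nat_lit 116725) (.g (nat_lit 870) (.e (nat_lit 5948) (nat_lit 322) (.e (nat_lit 57406) (nat_lit 12) (.e (nat_lit 336444) (nat_lit 32) (.e (nat_lit 466977) (nat_lit 22) .nil)))) .nil)))) (.nd (nat_lit 4) (.nd (nat_lit 5) 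
(.lf (nat_lit 116685) (.g (nat_lit 1416) (.e (nat_lit 5948) (nat_lit 322) (.e (nat_lit 57400) (nat_lit 10) (.e (nat_lit 319532) (nat_lit 16) (.e (nat_lit 286743) (nat_lit 9) (.e (nat_lit 336434) (nat_lit 30) .nil))))) .nil)) 
(.lf (nat_lit 116717) (.g (nat_lit 746) (.e (nat_lit 5948) (nat_lit 322) (.e (nat_lit 57406) (nat_lit 12) (.e (nat_lit 336426) (nat_lit 29) .nil))) .nil))) (.nd (nat_lit 5) 
(.lf (nat_lit 116701) (.g (nat_lit 1954) (.e (nat_lit 5948) (nat_lit 322) (.e (nat_lit 57400) (nat_lit 10) (.e (nat_lit 319533) (nat_lit 16) (.e (nat_lit 286761) (nat_lit 13) (.e (nat_lit 393289) (nat_lit 25) (.e (nat_lit 466688) (nat_lit 18) .nil)))))) (.g (nat_lit 4) .nil .nil))) 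
(.lf (nat_lit 116733) (.g (nat_lit 2527) (.e (nat_lit 5948) (nat_lit 322) (.e (nat_lit 57417) (nat_lit 12) (.e (nat_lit 336051) (nat_lit 6) (.e (nat_lit 147466) (nat_lit 9) (.e (nat_lit 304) (nat_lit 22) .nil))))) .nil)))))) (.nd (nat_lit 2) (.nd (nat_lit 3) (.nd (nat_lit 4) (.nd (nat_lit 5) 
(.lf (nat_lit 116675) (.g (nat_lit 1648) (.e (nat_lit 5948) (nat_lit 322) (.e (nat_lit 57400) (nat_lit 10) (.e (nat_lit 319531) (nat_lit 16) (.e (nat_lit 286743) (nat_lit 9) (.e (nat_lit 336433) (nat_lit 30) (.e (nat_lit 450569) (nat_lit 0) .nil)))))) (.g (nat_lit 5) .nil .nil))) 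
(.lf (nat_lit 116707) (.g (nat_lit 2119) (.e (nat_lit 5948) (nat_lit 322) (.e (nat_lit 57400) (nat_lit 10) (.e (nat_lit 319534) (nat_lit 16) (.e (nat_lit 286743) (nat_lit 9) (.e (nat_lit 336434) (nat_lit 30) (.e (nat_lit 450568) (nat_lit 0) .nil)))))) (.g (nat_lit 4) .nil .nil)))) (.nd (nat_lit 5) 
(.lf (nat_lit 116691) (.g (nat_lit 2349) (.e (nat_lit 5948) (nat_lit 322) (.e (nat_lit 57400) (nat_lit 10) (.e (nat_lit 319533) (nat_lit 16) (.e (nat_lit 286743) (nat_lit 9) (.e (nat_lit 336433) (nat_lit 30) (.e (nat_lit 450569) (nat_lit 0) .nil)))))) (.g (nat_lit 5) .nil .nil))) 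
(.lf (nat_lit 116723) (.g (nat_lit 3313) (.e (nat_lit 5948) (nat_lit 322) (.e (nat_lit 57406) (nat_lit 12) (.e (nat_lit 336443) (nat_lit 32) (.e (nat_lit 466977) (nat_lit 22) (.e (nat_lit 196656) (nat_lit 11) (.e (nat_lit 16396) (nat_lit 0) (.e (nat_lit 2515) (nat_lit 157) .nil))))))) (.g (nat_lit 5) .nil .nil))))) (.nd (nat_lit 4) (.nd (nat_lit 5) 
(.lf (nat_lit 116683) (.g (nat_lit 2300) (.e (nat_lit 5948) (nat_lit 322) (.e (nat_lit 57400) (nat_lit 10) (.e (nat_lit 319532) (nat_lit 16) (.e (nat_lit 286743) (nat_lit 9) (.e (nat_lit 336432) (nat_lit 30) (.e (nat_lit 450569) (nat_lit 0) .nil)))))) (.g (nat_lit 6) .nil .nil))) 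
(.lf (nat_lit 116715) (.g (nat_lit 1688) (.e (nat_lit 5948) (nat_lit 322) (.e (nat_lit 57400) (nat_lit 10) (.e (nat_lit 319534) (nat_lit 16) (.e (nat_lit 286761) (nat_lit 13) (.e (nat_lit 393289) (nat_lit 25) .nil))))) .nil))) (.nd (nat_lit 5) 
(.lf (nat_lit 116699) (.g (nat_lit 2586) (.e (nat_lit 5948) (nat_lit 322) (.e (nat_lit 57400) (nat_lit 10) (.e (nat_lit 319533) (nat_lit 16) (.e (nat_lit 286761) (nat_lit 13) (.e (nat_lit 393282) (nat_lit 24) .nil))))) .nil)) 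
(.lf (nat_lit 116731) (.g (nat_lit 2210) (.e (nat_lit 5948) (nat_lit 322) (.e (nat_lit 57412) (nat_lit 12) (.e (nat_lit 336193) (nat_lit 12) (.e (nat_lit 385105) (nat_lit 50) (.e (nat_lit 786483) (nat_lit 30) .nil))))) .nil))))) (.nd (nat_lit 3) (.nd (nat_lit 4) (.nd (nat_lit 5) 
(.lf (nat_lit 116679) (.g (nat_lit 1806) (.e (nat_lit 5948) (nat_lit 322) (.e (nat_lit 57400) (nat_lit 10) (.e (nat_lit 319531) (nat_lit 16) (.e (nat_lit 286761) (nat_lit 13) (.e (nat_lit 393264) (nat_lit 22) (.e (nat_lit 417795) (nat_lit 0) (.e (nat_lit 63) (nat_lit 0) .nil))))))) (.g (nat_lit 5) .nil .nil))) 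
(.lf (nat_lit 116711) (.g (nat_lit 1958) (.e (nat_lit 5948) (nat_lit 322) (.e (nat_lit 57400) (nat_lit 10) (.e (nat_lit 319534) (nat_lit 16) (.e (nat_lit 286761) (nat_lit 13) (.e (nat_lit 393264) (nat_lit 22) (.e (nat_lit 417795) (nat_lit 0) (.e (nat_lit 63) (nat_lit 0) .nil))))))) (.g (nat_lit 4) .nil .nil)))) (.nd (nat_lit 5) 
(.lf (nat_lit 116695) (.g (nat_lit 2313) (.e (nat_lit 5948) (nat_lit 322) (.e (nat_lit 57400) (nat_lit 10) (.e (nat_lit 319533) (nat_lit 16) (.e (nat_lit 286760) (nat_lit 13) (.e (nat_lit 393265) (nat_lit 22) (.e (nat_lit 417792) (nat_lit 0) (.e (nat_lit 67) (nat_lit 0) .nil))))))) (.g (nat_lit 5) .nil .nil))) 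
(.lf (nat_lit 116727) (.g (nat_lit 2856) (.e (nat_lit 5948) (nat_lit 322) (.e (nat_lit 57409) (nat_lit 12) (.e (nat_lit 336443) (nat_lit 32) (.e (nat_lit 466974) (nat_lit 22) (.e (nat_lit 196624) (nat_lit 9) .nil))))) .nil)))) (.nd (nat_lit 4) (.nd (nat_lit 5) 
(.lf (nat_lit 116687) (.g (nat_lit 2260) (.e (nat_lit 5948) (nat_lit 322) (.e (nat_lit 57400) (nat_lit 10) (.e (nat_lit 319532) (nat_lit 16) (.e (nat_lit 286761) (nat_lit 13) (.e (nat_lit 393265) (nat_lit 22) (.e (nat_lit 417792) (nat_lit 0) (.e (nat_lit 67) (nat_lit 0) .nil))))))) (.g (nat_lit 5) .nil .nil))) 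
(.lf (nat_lit 116719) (.g (nat_lit 1848) (.e (nat_lit 5948) (nat_lit 322) (.e (nat_lit 57406) (nat_lit 12) (.e (nat_lit 336443) (nat_lit 32) (.e (nat_lit 466974) (nat_lit 22) (.e (nat_lit 196654) (nat_lit 11) (.e (nat_lit 16396) (nat_lit 0) (.e (nat_lit 2515) (nat_lit 157) .nil))))))) (.g (nat_lit 4) .nil .nil)))) (.nd (nat_lit 5) 
(.lf (nat_lit 116703) (.g (nat_lit 2446) (.e (nat_lit 5948) (nat_lit 322) (.e (nat_lit 57400) (nat_lit 10) (.e (nat_lit 319534) (nat_lit 16) (.e (nat_lit 286742) (nat_lit 9) (.e (nat_lit 336432) (nat_lit 30) (.e (nat_lit 450569) (nat_lit 0) .nil)))))) (.g (nat_lit 5) .nil .nil))) 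
(.lf (nat_lit 116735) (.g (nat_lit 2042) (.e (nat_lit 5948) (nat_lit 322) (.e (nat_lit 57417) (nat_lit 12) (.e (nat_lit 336051) (nat_lit 6) (.e (nat_lit 147467) (nat_lit 9) (.e (nat_lit 304) (nat_lit 22) .nil))))) .nil))))))))

noncomputable def tv1567 : DT := (.nd (nat_lit 0) (.nd (nat_lit 1) (.nd (nat_lit 2) (.nd (nat_lit 3) (.nd (nat_lit 4) (.nd (nat_lit 5) 
(.lf (nat_lit 116736) (.g (nat_lit 1182) (.e (nat_lit 5948) (nat_lit 322) (.e (nat_lit 57417) (nat_lit 12) (.e (nat_lit 336206) (nat_lit 12) (.e (nat_lit 385105) (nat_lit 50) (.e (nat_lit 786481) (nat_lit 30) (.e (nat_lit 360456) (nat_lit 0) .nil)))))) (.g (nat_lit 4) .nil .nil))) 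
(.lf (nat_lit 116768) (.g (nat_lit 3027) (.e (nat_lit 5948) (nat_lit 322) (.e (nat_lit 57424) (nat_lit 14) (.e (nat_lit 352318) (nat_lit 24) (.e (nat_lit 123198) (nat_lit 266) (.e (nat_lit 57428) (nat_lit 15) (.e (nat_lit 360457) (nat_lit 0) .nil)))))) (.g (nat_lit 6) .nil .nil)))) (.nd (nat_lit 5) 
(.lf (nat_lit 116752) (.g (nat_lit 920) (.e (nat_lit 5948) (nat_lit 322) (.e (nat_lit 57424) (nat_lit 14) (.e (nat_lit 352316) (nat_lit 24) .nil))) .nil)) 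
(.lf (nat_lit 116784) (.g (nat_lit 3001) (.e (nat_lit 5948) (nat_lit 322) (.e (nat_lit 57445) (nat_lit 19) (.e (nat_lit 393231) (nat_lit 17) (.e (nat_lit 7581) (nat_lit 405) (.e (nat_lit 57476) (nat_lit 28) (.e (nat_lit 557104) (nat_lit 14) (.e (nat_lit 180233) (nat_lit 0) .nil))))))) (.g (nat_lit 6) .nil .nil))))) (.nd (nat_lit 4) (.nd (nat_lit 5) 
(.lf (nat_lit 116744) (.g (nat_lit 1748) (.e (nat_lit 5948) (nat_lit 322) (.e (nat_lit 57423) (nat_lit 14) (.e (nat_lit 352270) (nat_lit 8) (.e (nat_lit 262148) (nat_lit 0) (.e (nat_lit 1597) (nat_lit 111) (.e (nat_lit 368384) (nat_lit 0) .nil)))))) (.g (nat_lit 5) .nil .nil))) 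
(.lf (nat_lit 116776) (.g (nat_lit 592) (.e (nat_lit 5948) (nat_lit 322) (.e (nat_lit 57427) (nat_lit 15) (.e (nat_lit 360456) (nat_lit 0) .nil))) .nil))) (.nd (nat_lit 5) 
(.lf (nat_lit 116760) (.g (nat_lit 1784) (.e (nat_lit 5948) (nat_lit 322) (.e (nat_lit 57424) (nat_lit 14) (.e (nat_lit 352318) (nat_lit 24) (.e (nat_lit 123196) (nat_lit 266) .nil)))) .nil)) 
(.lf (nat_lit 116792) (.g (nat_lit 3831) (.e (nat_lit 5948) (nat_lit 322) (.e (nat_lit 57445) (nat_lit 19) (.e (nat_lit 393232) (nat_lit 17) (.e (nat_lit 7581) (nat_lit 405) (.e (nat_lit 57480) (nat_lit 28) (.e (nat_lit 557103) (nat_lit 14) (.e (nat_lit 180233) (nat_lit 0) .nil))))))) (.g (nat_lit 6) .nil .nil)))))) (.nd (nat_lit 3) (.nd (nat_lit 4) (.nd (nat_lit 5) 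
(.lf (nat_lit 116740) (.g (nat_lit 279) (.e (nat_lit 5948) (nat_lit 322) (.e (nat_lit 57421) (nat_lit 13) (.e (nat_lit 344079) (nat_lit 13) .nil))) .nil)) 
(.lf (nat_lit 116772) (.g (nat_lit 1114) (.e (nat_lit 5948) (nat_lit 322) (.e (nat_lit 57426) (nat_lit 15) (.e (nat_lit 360486) (nat_lit 18) (.e (nat_lit 671747) (nat_lit 0) .nil)))) .nil))) (.nd (nat_lit 5) 
(.lf (nat_lit 116756) (.g (nat_lit 1954) (.e (nat_lit 5948) (nat_lit 322) (.e (nat_lit 57424) (nat_lit 14) (.e (nat_lit 352318) (nat_lit 24) (.e (nat_lit 123185) (nat_lit 264) (.e (nat_lit 1224) (nat_lit 90) .nil))))) .nil)) 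
(.lf (nat_lit 116788) (.g (nat_lit 3063) (.e (nat_lit 5948) (nat_lit 322) (.e (nat_lit 57445) (nat_lit 19) (.e (nat_lit 393231) (nat_lit 17) (.e (nat_lit 7581) (nat_lit 405) (.e (nat_lit 57480) (nat_lit 28) (.e (nat_lit 557105) (nat_lit 14) (.e (nat_lit 180233) (nat_lit 0) .nil))))))) (.g (nat_lit 6) .nil .nil))))) (.nd (nat_lit 4) (.nd (nat_lit 5) 
(.lf (nat_lit 116748) (.g (nat_lit 713) (.e (nat_lit 5948) (nat_lit 322) (.e (nat_lit 57424) (nat_lit 14) (.e (nat_lit 352270) (nat_lit 8) (.e (nat_lit 262148) (nat_lit 0) .nil)))) .nil)) 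
(.lf (nat_lit 116780) (.g (nat_lit 688) (.e (nat_lit 5948) (nat_lit 322) (.e (nat_lit 57427) (nat_lit 15) (.e (nat_lit 360457) (nat_lit 0) .nil))) .nil))) (.nd (nat_lit 5) 
(.lf (nat_lit 116764) (.g (nat_lit 2640) (.e (nat_lit 5948) (nat_lit 322) (.e (nat_lit 57424) (nat_lit 14) (.e (nat_lit 352318) (nat_lit 24) (.e (nat_lit 123198) (nat_lit 266) (.e (nat_lit 57426) (nat_lit 15) (.e (nat_lit 360456) (nat_lit 0) .nil)))))) (.g (nat_lit 5) .nil .nil))) 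
(.lf (nat_lit 116796) (.g (nat_lit 3587) (.e (nat_lit 5948) (nat_lit 322) (.e (nat_lit 57445) (nat_lit 19) (.e (nat_lit 393233) (nat_lit 17) (.e (nat_lit 7581) (nat_lit 405) (.e (nat_lit 57476) (nat_lit 28) (.e (nat_lit 557104) (nat_lit 14) (.e (nat_lit 180233) (nat_lit 0) .nil))))))) (.g (nat_lit 7) .nil .nil))))))) (.nd (nat_lit 2) (.nd (nat_lit 3) (.nd (nat_lit 4) (.nd (nat_lit 5) 
(.lf (nat_lit 116738) (.g (nat_lit 1231) (.e (nat_lit 5948) (nat_lit 322) (.e (nat_lit 57417) (nat_lit 12) (.e (nat_lit 336206) (nat_lit 12) (.e (nat_lit 385106) (nat_lit 50) (.e (nat_lit 786481) (nat_lit 30) (.e (nat_lit 360456) (nat_lit 0) .nil)))))) (.g (nat_lit 4) .nil .nil))) 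
(.lf (nat_lit 116770) (.g (nat_lit 477) (.e (nat_lit 5948) (nat_lit 322) (.e (nat_lit 57426) (nat_lit 15) (.e (nat_lit 360456) (nat_lit 0) .nil))) .nil))) (.nd (nat_lit 5) 
(.lf (nat_lit 116754) (.g (nat_lit 2480) (.e (nat_lit 5948) (nat_lit 322) (.e (nat_lit 57424) (nat_lit 14) (.e (nat_lit 352318) (nat_lit 24) (.e (nat_lit 123182) (nat_lit 264) (.e (nat_lit 1224) (nat_lit 90) (.e (nat_lit 81936) (nat_lit 20) (.e (nat_lit 1068) (nat_lit 81) .nil))))))) (.g (nat_lit 4) .nil .nil))) 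
(.lf (nat_lit 116786) (.g (nat_lit 3027) (.e (nat_lit 5948) (nat_lit 322) (.e (nat_lit 57445) (nat_lit 19) (.e (nat_lit 393231) (nat_lit 17) (.e (nat_lit 7581) (nat_lit 405) (.e (nat_lit 57480) (nat_lit 28) (.e (nat_lit 557103) (nat_lit 14) (.e (nat_lit 180233) (nat_lit 0) .nil))))))) (.g (nat_lit 6) .nil .nil))))) (.nd (nat_lit 4) (.nd (nat_lit 5) 
(.lf (nat_lit 116746) (.g (nat_lit 1377) (.e (nat_lit 5948) (nat_lit 322) (.e (nat_lit 57423) (nat_lit 14) (.e (nat_lit 352318) (nat_lit 24) (.e (nat_lit 123198) (nat_lit 266) .nil)))) .nil)) 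
(.lf (nat_lit 116778) (.g (nat_lit 1458) (.e (nat_lit 5948) (nat_lit 322) (.e (nat_lit 57427) (nat_lit 15) (.e (nat_lit 360456) (nat_lit 0) (.e (nat_lit 5949) (nat_lit 322) (.e (nat_lit 57426) (nat_lit 15) (.e (nat_lit 360456) (nat_lit 0) .nil)))))) (.g (nat_lit 4) .nil .nil)))) (.nd (nat_lit 5) 
(.lf (nat_lit 116762) (.g (nat_lit 3235) (.e (nat_lit 5948) (nat_lit 322) (.e (nat_lit 57424) (nat_lit 14) (.e (nat_lit 352318) (nat_lit 24) (.e (nat_lit 123197) (nat_lit 266) (.e (nat_lit 57427) (nat_lit 15) (.e (nat_lit 360456) (nat_lit 0) .nil)))))) (.g (nat_lit 0) .nil .nil))) 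
(.lf (nat_lit 116794) (.g (nat_lit 2302) (.e (nat_lit 5948) (nat_lit 322) (.e (nat_lit 57445) (nat_lit 19) (.e (nat_lit 393232) (nat_lit 17) (.e (nat_lit 7581) (nat_lit 405) (.e (nat_lit 57480) (nat_lit 28) (.e (nat_lit 557105) (nat_lit 14) (.e (nat_lit 180232) (nat_lit 0) .nil))))))) (.g (nat_lit 4) .nil .nil)))))) (.nd (nat_lit 3) (.nd (nat_lit 4) (.nd (nat_lit 5) 
(.lf (nat_lit 116742) (.g (nat_lit 752) (.e (nat_lit 5948) (nat_lit 322) (.e (nat_lit 57423) (nat_lit 14) (.e (nat_lit 352270) (nat_lit 8) (.e (nat_lit 262148) (nat_lit 0) .nil)))) .nil)) 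
(.lf (nat_lit 116774) (.g (nat_lit 1409) (.e (nat_lit 5948) (nat_lit 322) (.e (nat_lit 57426) (nat_lit 15) (.e (nat_lit 360486) (nat_lit 18) (.e (nat_lit 671748) (nat_lit 0) (.e (nat_lit 1599) (nat_lit 111) .nil))))) .nil))) (.nd (nat_lit 5) 
(.lf (nat_lit 116758) (.g (nat_lit 1628) (.e (nat_lit 5948) (nat_lit 322) (.e (nat_lit 57424) (nat_lit 14) (.e (nat_lit 352318) (nat_lit 24) (.e (nat_lit 123195) (nat_lit 266) .nil)))) .nil)) 
(.lf (nat_lit 116790) (.g (nat_lit 3805) (.e (nat_lit 5948) (nat_lit 322) (.e (nat_lit 57445) (nat_lit 19) (.e (nat_lit 393232) (nat_lit 17) (.e (nat_lit 7581) (nat_lit 405) (.e (nat_lit 57476) (nat_lit 28) (.e (nat_lit 557104) (nat_lit 14) (.e (nat_lit 180233) (nat_lit 0) .nil))))))) (.g (nat_lit 6) .nil .nil))))) (.nd (nat_lit 4) (.nd (nat_lit 5) 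
(.lf (nat_lit 116750) (.g (nat_lit 1690) (.e (nat_lit 5948) (nat_lit 322) (.e (nat_lit 57424) (nat_lit 14) (.e (nat_lit 352270) (nat_lit 8) (.e (nat_lit 262148) (nat_lit 0) (.e (nat_lit 1597) (nat_lit 111) (.e (nat_lit 368384) (nat_lit 0) .nil)))))) (.g (nat_lit 5) .nil .nil))) 
(.lf (nat_lit 116782) (.g (nat_lit 1738) (.e (nat_lit 5948) (nat_lit 322) (.e (nat_lit 57427) (nat_lit 15) (.e (nat_lit 360486) (nat_lit 18) (.e (nat_lit 671747) (nat_lit 0) (.e (nat_lit 1586) (nat_lit 111) .nil))))) .nil))) (.nd (nat_lit 5) 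
(.lf (nat_lit 116766) (.g (nat_lit 2969) (.e (nat_lit 5948) (nat_lit 322) (.e (nat_lit 57424) (nat_lit 14) (.e (nat_lit 352318) (nat_lit 24) (.e (nat_lit 123198) (nat_lit 266) (.e (nat_lit 57427) (nat_lit 15) (.e (nat_lit 360456) (nat_lit 0) .nil)))))) (.g (nat_lit 6) .nil .nil))) 
(.lf (nat_lit 116798) (.g (nat_lit 3619) (.e (nat_lit 5948) (nat_lit 322) (.e (nat_lit 57445) (nat_lit 19) (.e (nat_lit 393233) (nat_lit 17) (.e (nat_lit 7581) (nat_lit 405) (.e (nat_lit 57477) (nat_lit 28) (.e (nat_lit 557104) (nat_lit 14) (.e (nat_lit 180233) (nat_lit 0) .nil))))))) (.g (nat_lit 0) .nil .nil)))))))) 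
(.nd (nat_lit 1) (.nd (nat_lit 2) (.nd (nat_lit 3) (.nd (nat_lit 4) (.nd (nat_lit 5) 
(.lf (nat_lit 116737) (.g (nat_lit 1522) (.e (nat_lit 5948) (nat_lit 322) (.e (nat_lit 57417) (nat_lit 12) (.e (nat_lit 336206) (nat_lit 12) (.e (nat_lit 385105) (nat_lit 50) (.e (nat_lit 786483) (nat_lit 30) (.e (nat_lit 360456) (nat_lit 0) .nil)))))) (.g (nat_lit 4) .nil .nil))) 
(.lf (nat_lit 116769) (.g (nat_lit 2340) (.e (nat_lit 5948) (nat_lit 322) (.e (nat_lit 57424) (nat_lit 14) (.e (nat_lit 352318) (nat_lit 24) (.e (nat_lit 123199) (nat_lit 267) (.e (nat_lit 122919) (nat_lit 15) (.e (nat_lit 360456) (nat_lit 0) .nil)))))) (.g (nat_lit 4) .nil .nil)))) (.nd (nat_lit 5) 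
(.lf (nat_lit 116753) (.g (nat_lit 554) (.e (nat_lit 5948) (nat_lit 322) (.e (nat_lit 57424) (nat_lit 14) (.e (nat_lit 352318) (nat_lit 24) .nil))) .nil)) 
(.lf (nat_lit 116785) (.g (nat_lit 3292) (.e (nat_lit 5948) (nat_lit 322) (.e (nat_lit 57445) (nat_lit 19) (.e (nat_lit 393231) (nat_lit 17) (.e (nat_lit 7581) (nat_lit 405) (.e (nat_lit 57477) (nat_lit 28) (.e (nat_lit 557104) (nat_lit 14) (.e (nat_lit 180233) (nat_lit 0) .nil))))))) (.g (nat_lit 7) .nil .nil))))) (.nd (nat_lit 4) (.nd (nat_lit 5) 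
(.lf (nat_lit 116745) (.g (nat_lit 1961) (.e (nat_lit 5948) (nat_lit 322) (.e (nat_lit 57423) (nat_lit 14) (.e (nat_lit 352318) (nat_lit 24) (.e (nat_lit 123197) (nat_lit 266) (.e (nat_lit 57427) (nat_lit 15) .nil))))) .nil)) 
(.lf (nat_lit 116777) (.g (nat_lit 921) (.e (nat_lit 5948) (nat_lit 322) (.e (nat_lit 57427) (nat_lit 15) (.e (nat_lit 360456) (nat_lit 0) (.e (nat_lit 5948) (nat_lit 322) .nil)))) .nil))) (.nd (nat_lit 5) 
(.lf (nat_lit 116761) (.g (nat_lit 2789) (.e (nat_lit 5948) (nat_lit 322) (.e (nat_lit 57424) (nat_lit 14) (.e (nat_lit 352318) (nat_lit 24) (.e (nat_lit 123197) (nat_lit 266) (.e (nat_lit 57426) (nat_lit 15) (.e (nat_lit 360457) (nat_lit 0) .nil)))))) (.g (nat_lit 5) .nil .nil))) 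
(.lf (nat_lit 116793) (.g (nat_lit 4785) (.e (nat_lit 5948) (nat_lit 322) (.e (nat_lit 57445) (nat_lit 19) (.e (nat_lit 393232) (nat_lit 17) (.e (nat_lit 7581) (nat_lit 405) (.e (nat_lit 57480) (nat_lit 28) (.e (nat_lit 557104) (nat_lit 14) (.e (nat_lit 180233) (nat_lit 0) .nil))))))) (.g (nat_lit 7) .nil .nil)))))) (.nd (nat_lit 3) (.nd (nat_lit 4) (.nd (nat_lit 5) 
(.lf (nat_lit 116741) (.g (nat_lit 266) (.e (nat_lit 5948) (nat_lit 322) (.e (nat_lit 57421) (nat_lit 13) (.e (nat_lit 344081) (nat_lit 13) .nil))) .nil)) 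
(.lf (nat_lit 116773) (.g (nat_lit 1725) (.e (nat_lit 5948) (nat_lit 322) (.e (nat_lit 57426) (nat_lit 15) (.e (nat_lit 360486) (nat_lit 18) (.e (nat_lit 671748) (nat_lit 0) (.e (nat_lit 1586) (nat_lit 111) (.e (nat_lit 360456) (nat_lit 0) .nil)))))) (.g (nat_lit 4) .nil .nil)))) (.nd (nat_lit 5) 
(.lf (nat_lit 116757) (.g (nat_lit 1829) (.e (nat_lit 5948) (nat_lit 322) (.e (nat_lit 57424) (nat_lit 14) (.e (nat_lit 352318) (nat_lit 24) (.e (nat_lit 123194) (nat_lit 266) .nil)))) .nil)) 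
(.lf (nat_lit 116789) (.g (nat_lit 2629) (.e (nat_lit 5948) (nat_lit 322) (.e (nat_lit 57445) (nat_lit 19) (.e (nat_lit 393232) (nat_lit 17) (.e (nat_lit 7581) (nat_lit 405) (.e (nat_lit 57476) (nat_lit 28) (.e (nat_lit 557103) (nat_lit 14) (.e (nat_lit 180233) (nat_lit 0) .nil))))))) (.g (nat_lit 4) .nil .nil))))) (.nd (nat_lit 4) (.nd (nat_lit 5) 
(.lf (nat_lit 116749) (.g (nat_lit 1294) (.e (nat_lit 5948) (nat_lit 322) (.e (nat_lit 57424) (nat_lit 14) (.e (nat_lit 352270) (nat_lit 8) (.e (nat_lit 262148) (nat_lit 0) (.e (nat_lit 1585) (nat_lit 111) (.e (nat_lit 368384) (nat_lit 0) .nil)))))) (.g (nat_lit 5) .nil .nil))) 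
(.lf (nat_lit 116781) (.g (nat_lit 646) (.e (nat_lit 5948) (nat_lit 322) (.e (nat_lit 57427) (nat_lit 15) (.e (nat_lit 360486) (nat_lit 18) .nil))) .nil))) (.nd (nat_lit 5) 
(.lf (nat_lit 116765) (.g (nat_lit 2097) (.e (nat_lit 5948) (nat_lit 322) (.e (nat_lit 57424) (nat_lit 14) (.e (nat_lit 352318) (nat_lit 24) (.e (nat_lit 123198) (nat_lit 266) (.e (nat_lit 57426) (nat_lit 15) (.e (nat_lit 360457) (nat_lit 0) .nil)))))) (.g (nat_lit 4) .nil .nil))) 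
(.lf (nat_lit 116797) (.g (nat_lit 1511) (.e (nat_lit 5948) (nat_lit 322) (.e (nat_lit 57445) (nat_lit 19) (.e (nat_lit 393233) (nat_lit 17) (.e (nat_lit 7581) (nat_lit 405) (.e (nat_lit 57477) (nat_lit 28) .nil))))) .nil)))))) (.nd (nat_lit 2) (.nd (nat_lit 3) (.nd (nat_lit 4) (.nd (nat_lit 5) 
(.lf (nat_lit 116739) (.g (nat_lit 807) (.e (nat_lit 5948) (nat_lit 322) (.e (nat_lit 57417) (nat_lit 12) (.e (nat_lit 336442) (nat_lit 32) .nil))) .nil)) 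
(.lf (nat_lit 116771) (.g (nat_lit 1318) (.e (nat_lit 5948) (nat_lit 322) (.e (nat_lit 57426) (nat_lit 15) (.e (nat_lit 360456) (nat_lit 0) (.e (nat_lit 5949) (nat_lit 322) (.e (nat_lit 57427) (nat_lit 15) (.e (nat_lit 360456) (nat_lit 0) .nil)))))) (.g (nat_lit 4) .nil .nil)))) (.nd (nat_lit 5) 
(.lf (nat_lit 116755) (.g (nat_lit 2554) (.e (nat_lit 5948) (nat_lit 322) (.e (nat_lit 57424) (nat_lit 14) (.e (nat_lit 352318) (nat_lit 24) (.e (nat_lit 123184) (nat_lit 264) (.e (nat_lit 1224) (nat_lit 90) (.e (nat_lit 81936) (nat_lit 20) (.e (nat_lit 1068) (nat_lit 81) .nil))))))) (.g (nat_lit 4) .nil .nil))) 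
(.lf (nat_lit 116787) (.g (nat_lit 3981) (.e (nat_lit 5948) (nat_lit 322) (.e (nat_lit 57445) (nat_lit 19) (.e (nat_lit 393231) (nat_lit 17) (.e (nat_lit 7581) (nat_lit 405) (.e (nat_lit 57480) (nat_lit 28) (.e (nat_lit 557104) (nat_lit 14) (.e (nat_lit 180233) (nat_lit 0) .nil))))))) (.g (nat_lit 6) .nil .nil))))) (.nd (nat_lit 4) (.nd (nat_lit 5) 
(.lf (nat_lit 116747) (.g (nat_lit 1840) (.e (nat_lit 5948) (nat_lit 322) (.e (nat_lit 57424) (nat_lit 14) (.e (nat_lit 352262) (nat_lit 0) (.e (nat_lit 3748) (nat_lit 228) (.e (nat_lit 786481) (nat_lit 30) .nil))))) .nil)) 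
(.lf (nat_lit 116779) (.g (nat_lit 2120) (.e (nat_lit 5948) (nat_lit 322) (.e (nat_lit 57427) (nat_lit 15) (.e (nat_lit 360456) (nat_lit 0) (.e (nat_lit 5949) (nat_lit 322) (.e (nat_lit 57428) (nat_lit 15) (.e (nat_lit 360457) (nat_lit 0) .nil)))))) (.g (nat_lit 5) .nil .nil)))) (.nd (nat_lit 5) 
(.lf (nat_lit 116763) (.g (nat_lit 3600) (.e (nat_lit 5948) (nat_lit 322) (.e (nat_lit 57424) (nat_lit 14) (.e (nat_lit 352318) (nat_lit 24) (.e (nat_lit 123197) (nat_lit 266) (.e (nat_lit 57427) (nat_lit 15) (.e (nat_lit 360457) (nat_lit 0) .nil)))))) (.g (nat_lit 0) .nil .nil))) 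
(.lf (nat_lit 116795) (.g (nat_lit 3875) (.e (nat_lit 5948) (nat_lit 322) (.e (nat_lit 57445) (nat_lit 19) (.e (nat_lit 393232) (nat_lit 17) (.e (nat_lit 7581) (nat_lit 405) (.e (nat_lit 57480) (nat_lit 28) (.e (nat_lit 557105) (nat_lit 14) (.e (nat_lit 180233) (nat_lit 0) .nil))))))) (.g (nat_lit 7) .nil .nil)))))) (.nd (nat_lit 3) (.nd (nat_lit 4) (.nd (nat_lit 5) 
(.lf (nat_lit 116743) (.g (nat_lit 1350) (.e (nat_lit 5948) (nat_lit 322) (.e (nat_lit 57423) (nat_lit 14) (.e (nat_lit 352270) (nat_lit 8) (.e (nat_lit 262148) (nat_lit 0) (.e (nat_lit 1585) (nat_lit 111) (.e (nat_lit 368384) (nat_lit 0) .nil)))))) (.g (nat_lit 5) .nil .nil))) 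
(.lf (nat_lit 116775) (.g (nat_lit 1030) (.e (nat_lit 5948) (nat_lit 322) (.e (nat_lit 57427) (nat_lit 15) (.e (nat_lit 360450) (nat_lit 0) (.e (nat_lit 7936) (nat_lit 323) .nil)))) .nil))) (.nd (nat_lit 5) 
(.lf (nat_lit 116759) (.g (nat_lit 2797) (.e (nat_lit 5948) (nat_lit 322) (.e (nat_lit 57424) (nat_lit 14) (.e (nat_lit 352318) (nat_lit 24) (.e (nat_lit 123195) (nat_lit 266) (.e (nat_lit 57427) (nat_lit 15) (.e (nat_lit 360456) (nat_lit 0) .nil)))))) (.g (nat_lit 4) .nil .nil))) 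
(.lf (nat_lit 116791) (.g (nat_lit 2324) (.e (nat_lit 5948) (nat_lit 322) (.e (nat_lit 57445) (nat_lit 19) (.e (nat_lit 393232) (nat_lit 17) (.e (nat_lit 7581) (nat_lit 405) (.e (nat_lit 57480) (nat_lit 28) (.e (nat_lit 557103) (nat_lit 14) (.e (nat_lit 180232) (nat_lit 0) .nil))))))) (.g (nat_lit 4) .nil .nil))))) (.nd (nat_lit 4) (.nd (nat_lit 5) 
(.lf (nat_lit 116751) (.g (nat_lit 842) (.e (nat_lit 5948) (nat_lit 322) (.e (nat_lit 57424) (nat_lit 14) (.e (nat_lit 352285) (nat_lit 20) .nil))) .nil)) 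
(.lf (nat_lit 116783) (.g (nat_lit 578) (.e (nat_lit 5948) (nat_lit 322) (.e (nat_lit 57445) (nat_lit 19) (.e (nat_lit 393230) (nat_lit 17) .nil))) .nil))) (.nd (nat_lit 5) 
(.lf (nat_lit 116767) (.g (nat_lit 3516) (.e (nat_lit 5948) (nat_lit 322) (.e (nat_lit 57424) (nat_lit 14) (.e (nat_lit 352318) (nat_lit 24) (.e (nat_lit 123198) (nat_lit 266) (.e (nat_lit 57427) (nat_lit 15) (.e (nat_lit 360457) (nat_lit 0) .nil)))))) (.g (nat_lit 6) .nil .nil))) 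
(.lf (nat_lit 116799) (.g (nat_lit 3555) (.e (nat_lit 5948) (nat_lit 322) (.e (nat_lit 57445) (nat_lit 19) (.e (nat_lit 393233) (nat_lit 17) (.e (nat_lit 7581) (nat_lit 405) (.e (nat_lit 57480) (nat_lit 28) (.e (nat_lit 557103) (nat_lit 14) (.e (nat_lit 180233) (nat_lit 0) .nil))))))) (.g (nat_lit 6) .nil .nil)))))))))

noncomputable def tv1568 : DT := (.nd (nat_lit 0) (.nd (nat_lit 1) (.nd (nat_lit 2) (.nd (nat_lit 3) (.nd (nat_lit 4) (.nd (nat_lit 5) 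
(.lf (nat_lit 116800) (.g (nat_lit 1996) (.e (nat_lit 5948) (nat_lit 322) (.e (nat_lit 57445) (nat_lit 19) (.e (nat_lit 393233) (nat_lit 17) (.e (nat_lit 7581) (nat_lit 405) (.e (nat_lit 57480) (nat_lit 28) (.e (nat_lit 557105) (nat_lit 14) (.e (nat_lit 180232) (nat_lit 0) .nil))))))) (.g (nat_lit 4) .nil .nil))) 
(.lf (nat_lit 116832) (.g (nat_lit 2114) (.e (nat_lit 5949) (nat_lit 322) (.e (nat_lit 57357) (nat_lit 0) (.e (nat_lit 1858) (nat_lit 124) (.e (nat_lit 557100) (nat_lit 13) (.e (nat_lit 172106) (nat_lit 10) (.e (nat_lit 434231) (nat_lit 23) (.e (nat_lit 532543) (nat_lit 10) (.e (nat_lit 344103) (nat_lit 18) .nil)))))))) (.g (nat_lit 4) .nil .nil)))) (.nd (nat_lit 5) 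
(.lf (nat_lit 116816) (.g (nat_lit 3319) (.e (nat_lit 5948) (nat_lit 322) (.e (nat_lit 57445) (nat_lit 19) (.e (nat_lit 393299) (nat_lit 27) (.e (nat_lit 491526) (nat_lit 0) (.e (nat_lit 1848) (nat_lit 124) (.e (nat_lit 557104) (nat_lit 14) (.e (nat_lit 180233) (nat_lit 0) .nil))))))) (.g (nat_lit 4) .nil .nil))) 
(.lf (nat_lit 116848) (.g (nat_lit 660) (.e (nat_lit 5949) (nat_lit 322) (.e (nat_lit 57373) (nat_lit 2) (.e (nat_lit 98048) (nat_lit 5) .nil))) .nil)))) (.nd (nat_lit 4) (.nd (nat_lit 5) 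
(.lf (nat_lit 116808) (.g (nat_lit 4835) (.e (nat_lit 5948) (nat_lit 322) (.e (nat_lit 57445) (nat_lit 19) (.e (nat_lit 393234) (nat_lit 17) (.e (nat_lit 7581) (nat_lit 405) (.e (nat_lit 57480) (nat_lit 28) (.e (nat_lit 557104) (nat_lit 14) (.e (nat_lit 180233) (nat_lit 0) .nil))))))) (.g (nat_lit 6) .nil .nil))) 
(.lf (nat_lit 116840) (.g (nat_lit 2467) (.e (nat_lit 5949) (nat_lit 322) (.e (nat_lit 57371) (nat_lit 2) (.e (nat_lit 90174) (nat_lit 14) (.e (nat_lit 180243) (nat_lit 5) (.e (nat_lit 532515) (nat_lit 3) (.e (nat_lit 114716) (nat_lit 22) (.e (nat_lit 90181) (nat_lit 16) (.e (nat_lit 229381) (nat_lit 0) .nil)))))))) (.g (nat_lit 4) .nil .nil)))) (.nd (nat_lit 5) 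
(.lf (nat_lit 116824) (.g (nat_lit 2446) (.e (nat_lit 5948) (nat_lit 322) (.e (nat_lit 57447) (nat_lit 19) (.e (nat_lit 393234) (nat_lit 17) (.e (nat_lit 7583) (nat_lit 405) (.e (nat_lit 57476) (nat_lit 28) (.e (nat_lit 557103) (nat_lit 14) (.e (nat_lit 180233) (nat_lit 0) .nil))))))) (.g (nat_lit 5) .nil .nil))) 
(.lf (nat_lit 116856) (.g (nat_lit 4712) (.e (nat_lit 5949) (nat_lit 322) (.e (nat_lit 57373) (nat_lit 2) (.e (nat_lit 98048) (nat_lit 5) (.e (nat_lit 73753) (nat_lit 8) (.e (nat_lit 557105) (nat_lit 14) (.e (nat_lit 180252) (nat_lit 10) (.e (nat_lit 573474) (nat_lit 12) (.e (nat_lit 57360) (nat_lit 0) .nil)))))))) (.g (nat_lit 7) .nil .nil)))))) (.nd (nat_lit 3) (.nd (nat_lit 4) (.nd (nat_lit 5) 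
(.lf (nat_lit 116804) (.g (nat_lit 2125) (.e (nat_lit 5948) (nat_lit 322) (.e (nat_lit 57445) (nat_lit 19) (.e (nat_lit 393234) (nat_lit 17) (.e (nat_lit 7581) (nat_lit 405) (.e (nat_lit 57477) (nat_lit 28) .nil))))) .nil)) 
(.lf (nat_lit 116836) (.g (nat_lit 2231) (.e (nat_lit 5949) (nat_lit 322) (.e (nat_lit 57371) (nat_lit 2) (.e (nat_lit 90172) (nat_lit 14) (.e (nat_lit 180244) (nat_lit 5) (.e (nat_lit 532515) (nat_lit 3) .nil))))) .nil))) (.nd (nat_lit 5) 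
(.lf (nat_lit 116820) (.g (nat_lit 1248) (.e (nat_lit 5948) (nat_lit 322) (.e (nat_lit 57447) (nat_lit 19) (.e (nat_lit 393232) (nat_lit 17) .nil))) .nil)) 
(.lf (nat_lit 116852) (.g (nat_lit 3747) (.e (nat_lit 5949) (nat_lit 322) (.e (nat_lit 57373) (nat_lit 2) (.e (nat_lit 98048) (nat_lit 5) (.e (nat_lit 73753) (nat_lit 8) (.e (nat_lit 557103) (nat_lit 14) (.e (nat_lit 180250) (nat_lit 10) (.e (nat_lit 573477) (nat_lit 12) (.e (nat_lit 57360) (nat_lit 0) .nil)))))))) (.g (nat_lit 7) .nil .nil))))) (.nd (nat_lit 4) (.nd (nat_lit 5) 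
(.lf (nat_lit 116812) (.g (nat_lit 3493) (.e (nat_lit 5948) (nat_lit 322) (.e (nat_lit 57445) (nat_lit 19) (.e (nat_lit 393234) (nat_lit 17) (.e (nat_lit 7583) (nat_lit 405) (.e (nat_lit 57476) (nat_lit 28) (.e (nat_lit 557104) (nat_lit 14) (.e (nat_lit 180233) (nat_lit 0) .nil))))))) (.g (nat_lit 6) .nil .nil))) 
(.lf (nat_lit 116844) (.g (nat_lit 913) (.e (nat_lit 5949) (nat_lit 322) (.e (nat_lit 57371) (nat_lit 2) (.e (nat_lit 90177) (nat_lit 15) .nil))) .nil))) (.nd (nat_lit 5) 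
(.lf (nat_lit 116828) (.g (nat_lit 1969) (.e (nat_lit 5948) (nat_lit 322) (.e (nat_lit 57447) (nat_lit 19) (.e (nat_lit 393301) (nat_lit 27) (.e (nat_lit 491520) (nat_lit 0) .nil)))) .nil)) 
(.lf (nat_lit 116860) (.g (nat_lit 2577) (.e (nat_lit 5949) (nat_lit 322) (.e (nat_lit 57373) (nat_lit 2) (.e (nat_lit 90170) (nat_lit 13) (.e (nat_lit 172065) (nat_lit 3) (.e (nat_lit 204838) (nat_lit 20) .nil))))) .nil)))))) (.nd (nat_lit 2) (.nd (nat_lit 3) (.nd (nat_lit 4) (.nd (nat_lit 5) 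
(.lf (nat_lit 116802) (.g (nat_lit 3553) (.e (nat_lit 5948) (nat_lit 322) (.e (nat_lit 57445) (nat_lit 19) (.e (nat_lit 393233) (nat_lit 17) (.e (nat_lit 7583) (nat_lit 405) (.e (nat_lit 57476) (nat_lit 28) (.e (nat_lit 557104) (nat_lit 14) (.e (nat_lit 180233) (nat_lit 0) .nil))))))) (.g (nat_lit 0) .nil .nil))) 
(.lf (nat_lit 116834) (.g (nat_lit 2629) (.e (nat_lit 5949) (nat_lit 322) (.e (nat_lit 57371) (nat_lit 2) (.e (nat_lit 90172) (nat_lit 14) (.e (nat_lit 180243) (nat_lit 5) (.e (nat_lit 532513) (nat_lit 3) (.e (nat_lit 114714) (nat_lit 22) (.e (nat_lit 90165) (nat_lit 12) (.e (nat_lit 163857) (nat_lit 0) .nil)))))))) (.g (nat_lit 4) .nil .nil)))) (.nd (nat_lit 5) 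
(.lf (nat_lit 116818) (.g (nat_lit 2875) (.e (nat_lit 5948) (nat_lit 322) (.e (nat_lit 57445) (nat_lit 19) (.e (nat_lit 393301) (nat_lit 27) (.e (nat_lit 491526) (nat_lit 0) (.e (nat_lit 1848) (nat_lit 124) .nil))))) .nil)) 
(.lf (nat_lit 116850) (.g (nat_lit 2042) (.e (nat_lit 5949) (nat_lit 322) (.e (nat_lit 57373) (nat_lit 2) (.e (nat_lit 98048) (nat_lit 5) (.e (nat_lit 73746) (nat_lit 3) (.e (nat_lit 516131) (nat_lit 3) (.e (nat_lit 221211) (nat_lit 22) (.e (nat_lit 196661) (nat_lit 12) (.e (nat_lit 57360) (nat_lit 0) .nil)))))))) (.g (nat_lit 5) .nil .nil))))) (.nd (nat_lit 4) (.nd (nat_lit 5) 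
(.lf (nat_lit 116810) (.g (nat_lit 3848) (.e (nat_lit 5948) (nat_lit 322) (.e (nat_lit 57445) (nat_lit 19) (.e (nat_lit 393234) (nat_lit 17) (.e (nat_lit 7581) (nat_lit 405) (.e (nat_lit 57480) (nat_lit 28) (.e (nat_lit 557105) (nat_lit 14) (.e (nat_lit 180233) (nat_lit 0) .nil))))))) (.g (nat_lit 6) .nil .nil))) 
(.lf (nat_lit 116842) (.g (nat_lit 1763) (.e (nat_lit 5949) (nat_lit 322) (.e (nat_lit 57371) (nat_lit 2) (.e (nat_lit 90176) (nat_lit 15) (.e (nat_lit 188459) (nat_lit 26) (.e (nat_lit 261888) (nat_lit 5) .nil))))) .nil))) (.nd (nat_lit 5) 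
(.lf (nat_lit 116826) (.g (nat_lit 2501) (.e (nat_lit 5948) (nat_lit 322) (.e (nat_lit 57447) (nat_lit 19) (.e (nat_lit 393281) (nat_lit 23) (.e (nat_lit 426116) (nat_lit 2) (.e (nat_lit 196624) (nat_lit 9) .nil))))) .nil)) 
(.lf (nat_lit 116858) (.g (nat_lit 3421) (.e (nat_lit 5949) (nat_lit 322) (.e (nat_lit 57373) (nat_lit 2) (.e (nat_lit 98048) (nat_lit 5) (.e (nat_lit 73754) (nat_lit 8) (.e (nat_lit 557105) (nat_lit 14) (.e (nat_lit 180251) (nat_lit 10) (.e (nat_lit 573478) (nat_lit 12) (.e (nat_lit 57360) (nat_lit 0) .nil)))))))) (.g (nat_lit 7) .nil .nil)))))) (.nd (nat_lit 3) (.nd (nat_lit 4) (.nd (nat_lit 5) 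
(.lf (nat_lit 116806) (.g (nat_lit 2333) (.e (nat_lit 5948) (nat_lit 322) (.e (nat_lit 57445) (nat_lit 19) (.e (nat_lit 393234) (nat_lit 17) (.e (nat_lit 7581) (nat_lit 405) (.e (nat_lit 57480) (nat_lit 28) (.e (nat_lit 557103) (nat_lit 14) (.e (nat_lit 180232) (nat_lit 0) .nil))))))) (.g (nat_lit 4) .nil .nil))) 
(.lf (nat_lit 116838) (.g (nat_lit 2288) (.e (nat_lit 5949) (nat_lit 322) (.e (nat_lit 57371) (nat_lit 2) (.e (nat_lit 90172) (nat_lit 14) (.e (nat_lit 180244) (nat_lit 5) (.e (nat_lit 532515) (nat_lit 3) (.e (nat_lit 114716) (nat_lit 22) (.e (nat_lit 90181) (nat_lit 16) (.e (nat_lit 229381) (nat_lit 0) .nil)))))))) (.g (nat_lit 4) .nil .nil)))) (.nd (nat_lit 5) 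
(.lf (nat_lit 116822) (.g (nat_lit 4430) (.e (nat_lit 5948) (nat_lit 322) (.e (nat_lit 57447) (nat_lit 19) (.e (nat_lit 393234) (nat_lit 17) (.e (nat_lit 7581) (nat_lit 405) (.e (nat_lit 57480) (nat_lit 28) (.e (nat_lit 557104) (nat_lit 14) (.e (nat_lit 180233) (nat_lit 0) .nil))))))) (.g (nat_lit 6) .nil .nil))) 
(.lf (nat_lit 116854) (.g (nat_lit 3899) (.e (nat_lit 5949) (nat_lit 322) (.e (nat_lit 57373) (nat_lit 2) (.e (nat_lit 98048) (nat_lit 5) (.e (nat_lit 73753) (nat_lit 8) (.e (nat_lit 557105) (nat_lit 14) (.e (nat_lit 180251) (nat_lit 10) (.e (nat_lit 573477) (nat_lit 12) (.e (nat_lit 57360) (nat_lit 0) .nil)))))))) (.g (nat_lit 7) .nil .nil))))) (.nd (nat_lit 4) (.nd (nat_lit 5) 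
(.lf (nat_lit 116814) (.g (nat_lit 2323) (.e (nat_lit 5948) (nat_lit 322) (.e (nat_lit 57445) (nat_lit 19) (.e (nat_lit 393281) (nat_lit 23) (.e (nat_lit 426115) (nat_lit 2) (.e (nat_lit 196624) (nat_lit 9) (.e (nat_lit 442) (nat_lit 33) (.e (nat_lit 434216) (nat_lit 18) .nil))))))) (.g (nat_lit 6) .nil .nil))) 
(.lf (nat_lit 116846) (.g (nat_lit 806) (.e (nat_lit 5949) (nat_lit 322) (.e (nat_lit 57371) (nat_lit 2) (.e (nat_lit 90185) (nat_lit 17) .nil))) .nil))) (.nd (nat_lit 5) 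
(.lf (nat_lit 116830) (.g (nat_lit 1755) (.e (nat_lit 5949) (nat_lit 322) (.e (nat_lit 57347) (nat_lit 0) (.e (nat_lit 2031) (nat_lit 140) (.e (nat_lit 688177) (nat_lit 16) (.e (nat_lit 65583) (nat_lit 7) .nil))))) .nil)) 
(.lf (nat_lit 116862) (.g (nat_lit 1777) (.e (nat_lit 5949) (nat_lit 322) (.e (nat_lit 57373) (nat_lit 2) (.e (nat_lit 90170) (nat_lit 13) (.e (nat_lit 172067) (nat_lit 3) .nil)))) .nil))))))) (.nd (nat_lit 1) (.nd (nat_lit 2) (.nd (nat_lit 3) (.nd (nat_lit 4) (.nd (nat_lit 5) 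
(.lf (nat_lit 116801) (.g (nat_lit 3574) (.e (nat_lit 5948) (nat_lit 322) (.e (nat_lit 57445) (nat_lit 19) (.e (nat_lit 393233) (nat_lit 17) (.e (nat_lit 7581) (nat_lit 405) (.e (nat_lit 57480) (nat_lit 28) (.e (nat_lit 557105) (nat_lit 14) (.e (nat_lit 180233) (nat_lit 0) .nil))))))) (.g (nat_lit 7) .nil .nil))) 
(.lf (nat_lit 116833) (.g (nat_lit 1762) (.e (nat_lit 5949) (nat_lit 322) (.e (nat_lit 57371) (nat_lit 2) (.e (nat_lit 90172) (nat_lit 14) (.e (nat_lit 180243) (nat_lit 5) .nil)))) .nil))) (.nd (nat_lit 5) 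
(.lf (nat_lit 116817) (.g (nat_lit 1948) (.e (nat_lit 5948) (nat_lit 322) (.e (nat_lit 57445) (nat_lit 19) (.e (nat_lit 393299) (nat_lit 27) (.e (nat_lit 491528) (nat_lit 0) (.e (nat_lit 1859) (nat_lit 124) .nil))))) .nil)) 
(.lf (nat_lit 116849) (.g (nat_lit 2980) (.e (nat_lit 5949) (nat_lit 322) (.e (nat_lit 57373) (nat_lit 2) (.e (nat_lit 98048) (nat_lit 5) (.e (nat_lit 73746) (nat_lit 3) (.e (nat_lit 516129) (nat_lit 3) (.e (nat_lit 221210) (nat_lit 22) (.e (nat_lit 196661) (nat_lit 12) (.e (nat_lit 57360) (nat_lit 0) .nil)))))))) (.g (nat_lit 6) .nil .nil))))) (.nd (nat_lit 4) (.nd (nat_lit 5) 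
(.lf (nat_lit 116809) (.g (nat_lit 2269) (.e (nat_lit 5948) (nat_lit 322) (.e (nat_lit 57445) (nat_lit 19) (.e (nat_lit 393234) (nat_lit 17) (.e (nat_lit 7581) (nat_lit 405) (.e (nat_lit 57480) (nat_lit 28) (.e (nat_lit 557105) (nat_lit 14) (.e (nat_lit 180232) (nat_lit 0) .nil))))))) (.g (nat_lit 4) .nil .nil))) 
(.lf (nat_lit 116841) (.g (nat_lit 489) (.e (nat_lit 5949) (nat_lit 322) (.e (nat_lit 57371) (nat_lit 2) (.e (nat_lit 90176) (nat_lit 15) .nil))) .nil))) (.nd (nat_lit 5) 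
(.lf (nat_lit 116825) (.g (nat_lit 1689) (.e (nat_lit 5948) (nat_lit 322) (.e (nat_lit 57447) (nat_lit 19) (.e (nat_lit 393281) (nat_lit 23) (.e (nat_lit 426115) (nat_lit 2) .nil)))) .nil)) 
(.lf (nat_lit 116857) (.g (nat_lit 3577) (.e (nat_lit 5949) (nat_lit 322) (.e (nat_lit 57373) (nat_lit 2) (.e (nat_lit 98048) (nat_lit 5) (.e (nat_lit 73754) (nat_lit 8) (.e (nat_lit 557105) (nat_lit 14) (.e (nat_lit 180251) (nat_lit 10) (.e (nat_lit 573477) (nat_lit 12) (.e (nat_lit 57360) (nat_lit 0) .nil)))))))) (.g (nat_lit 7) .nil .nil)))))) (.nd (nat_lit 3) (.nd (nat_lit 4) (.nd (nat_lit 5) 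
(.lf (nat_lit 116805) (.g (nat_lit 2849) (.e (nat_lit 5948) (nat_lit 322) (.e (nat_lit 57445) (nat_lit 19) (.e (nat_lit 393234) (nat_lit 17) (.e (nat_lit 7581) (nat_lit 405) (.e (nat_lit 57479) (nat_lit 28) (.e (nat_lit 557105) (nat_lit 14) (.e (nat_lit 180233) (nat_lit 0) .nil))))))) (.g (nat_lit 4) .nil .nil))) 
(.lf (nat_lit 116837) (.g (nat_lit 2766) (.e (nat_lit 5949) (nat_lit 322) (.e (nat_lit 57371) (nat_lit 2) (.e (nat_lit 90172) (nat_lit 14) (.e (nat_lit 180244) (nat_lit 5) (.e (nat_lit 532515) (nat_lit 3) (.e (nat_lit 114715) (nat_lit 22) (.e (nat_lit 90165) (nat_lit 12) (.e (nat_lit 163857) (nat_lit 0) .nil)))))))) (.g (nat_lit 4) .nil .nil)))) (.nd (nat_lit 5) 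
(.lf (nat_lit 116821) (.g (nat_lit 2178) (.e (nat_lit 5948) (nat_lit 322) (.e (nat_lit 57447) (nat_lit 19) (.e (nat_lit 393234) (nat_lit 17) (.e (nat_lit 7581) (nat_lit 405) (.e (nat_lit 57477) (nat_lit 28) .nil))))) .nil)) 
(.lf (nat_lit 116853) (.g (nat_lit 3669) (.e (nat_lit 5949) (nat_lit 322) (.e (nat_lit 57373) (nat_lit 2) (.e (nat_lit 98048) (nat_lit 5) (.e (nat_lit 73753) (nat_lit 8) (.e (nat_lit 557103) (nat_lit 14) (.e (nat_lit 180250) (nat_lit 10) (.e (nat_lit 573478) (nat_lit 12) (.e (nat_lit 57360) (nat_lit 0) .nil)))))))) (.g (nat_lit 7) .nil .nil))))) (.nd (nat_lit 4) (.nd (nat_lit 5) 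
(.lf (nat_lit 116813) (.g (nat_lit 1849) (.e (nat_lit 5948) (nat_lit 322) (.e (nat_lit 57445) (nat_lit 19) (.e (nat_lit 393266) (nat_lit 23) (.e (nat_lit 426140) (nat_lit 3) (.e (nat_lit 212736) (nat_lit 10) (.e (nat_lit 434216) (nat_lit 18) .nil)))))) (.g (nat_lit 4) .nil .nil))) 
(.lf (nat_lit 116845) (.g (nat_lit 831) (.e (nat_lit 5949) (nat_lit 322) (.e (nat_lit 57371) (nat_lit 2) (.e (nat_lit 90178) (nat_lit 15) .nil))) .nil))) (.nd (nat_lit 5) 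
(.lf (nat_lit 116829) (.g (nat_lit 2704) (.e (nat_lit 5948) (nat_lit 322) (.e (nat_lit 57447) (nat_lit 19) (.e (nat_lit 393301) (nat_lit 27) (.e (nat_lit 491526) (nat_lit 0) (.e (nat_lit 1855) (nat_lit 124) .nil))))) .nil)) 
(.lf (nat_lit 116861) (.g (nat_lit 2954) (.e (nat_lit 5949) (nat_lit 322) (.e (nat_lit 57373) (nat_lit 2) (.e (nat_lit 90170) (nat_lit 13) (.e (nat_lit 172065) (nat_lit 3) (.e (nat_lit 204838) (nat_lit 20) (.e (nat_lit 114715) (nat_lit 22) (.e (nat_lit 90165) (nat_lit 12) (.e (nat_lit 163857) (nat_lit 0) .nil)))))))) (.g (nat_lit 4) .nil .nil))))))) 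
(.nd (nat_lit 2) (.nd (nat_lit 3) (.nd (nat_lit 4) (.nd (nat_lit 5) 
(.lf (nat_lit 116803) (.g (nat_lit 4342) (.e (nat_lit 5948) (nat_lit 322) (.e (nat_lit 57445) (nat_lit 19) (.e (nat_lit 393234) (nat_lit 17) (.e (nat_lit 7581) (nat_lit 405) (.e (nat_lit 57476) (nat_lit 28) (.e (nat_lit 557104) (nat_lit 14) (.e (nat_lit 180233) (nat_lit 0) .nil))))))) (.g (nat_lit 7) .nil .nil))) 
(.lf (nat_lit 116835) (.g (nat_lit 2473) (.e (nat_lit 5949) (nat_lit 322) (.e (nat_lit 57371) (nat_lit 2) (.e (nat_lit 90172) (nat_lit 14) (.e (nat_lit 180244) (nat_lit 5) (.e (nat_lit 532508) (nat_lit 2) .nil))))) .nil))) (.nd (nat_lit 5) 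
(.lf (nat_lit 116819) (.g (nat_lit 1357) (.e (nat_lit 5948) (nat_lit 322) (.e (nat_lit 57446) (nat_lit 19) (.e (nat_lit 393275) (nat_lit 23) (.e (nat_lit 426140) (nat_lit 3) (.e (nat_lit 212736) (nat_lit 10) .nil))))) .nil)) 
(.lf (nat_lit 116851) (.g (nat_lit 2262) (.e (nat_lit 5949) (nat_lit 322) (.e (nat_lit 57373) (nat_lit 2) (.e (nat_lit 98048) (nat_lit 5) (.e (nat_lit 73746) (nat_lit 3) (.e (nat_lit 516131) (nat_lit 3) (.e (nat_lit 221211) (nat_lit 22) (.e (nat_lit 196661) (nat_lit 12) (.e (nat_lit 57361) (nat_lit 0) .nil)))))))) (.g (nat_lit 6) .nil .nil))))) (.nd (nat_lit 4) (.nd (nat_lit 5) 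
(.lf (nat_lit 116811) (.g (nat_lit 2372) (.e (nat_lit 5948) (nat_lit 322) (.e (nat_lit 57445) (nat_lit 19) (.e (nat_lit 393234) (nat_lit 17) (.e (nat_lit 7583) (nat_lit 405) (.e (nat_lit 57476) (nat_lit 28) (.e (nat_lit 557103) (nat_lit 14) (.e (nat_lit 180233) (nat_lit 0) .nil))))))) (.g (nat_lit 4) .nil .nil))) 
(.lf (nat_lit 116843) (.g (nat_lit 1532) (.e (nat_lit 5949) (nat_lit 322) (.e (nat_lit 57371) (nat_lit 2) (.e (nat_lit 90176) (nat_lit 15) (.e (nat_lit 188461) (nat_lit 26) .nil)))) .nil))) (.nd (nat_lit 5) 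
(.lf (nat_lit 116827) (.g (nat_lit 1495) (.e (nat_lit 5948) (nat_lit 322) (.e (nat_lit 57447) (nat_lit 19) (.e (nat_lit 393281) (nat_lit 23) (.e (nat_lit 426133) (nat_lit 3) .nil)))) .nil)) 
(.lf (nat_lit 116859) (.g (nat_lit 2147) (.e (nat_lit 5949) (nat_lit 322) (.e (nat_lit 57373) (nat_lit 2) (.e (nat_lit 90170) (nat_lit 13) (.e (nat_lit 172065) (nat_lit 3) .nil)))) .nil))))) (.nd (nat_lit 3) (.nd (nat_lit 4) (.nd (nat_lit 5) 
(.lf (nat_lit 116807) (.g (nat_lit 3846) (.e (nat_lit 5948) (nat_lit 322) (.e (nat_lit 57445) (nat_lit 19) (.e (nat_lit 393234) (nat_lit 17) (.e (nat_lit 7581) (nat_lit 405) (.e (nat_lit 57480) (nat_lit 28) (.e (nat_lit 557103) (nat_lit 14) (.e (nat_lit 180233) (nat_lit 0) .nil))))))) (.g (nat_lit 6) .nil .nil))) 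
(.lf (nat_lit 116839) (.g (nat_lit 2584) (.e (nat_lit 5949) (nat_lit 322) (.e (nat_lit 57371) (nat_lit 2) (.e (nat_lit 90174) (nat_lit 14) (.e (nat_lit 180243) (nat_lit 5) (.e (nat_lit 532508) (nat_lit 2) (.e (nat_lit 114432) (nat_lit 3) (.e (nat_lit 163962) (nat_lit 25) (.e (nat_lit 532490) (nat_lit 0) (.e (nat_lit 1086) (nat_lit 81) .nil))))))))) (.g (nat_lit 4) .nil .nil)))) (.nd (nat_lit 5) 
(.lf (nat_lit 116823) (.g (nat_lit 3392) (.e (nat_lit 5948) (nat_lit 322) (.e (nat_lit 57447) (nat_lit 19) (.e (nat_lit 393234) (nat_lit 17) (.e (nat_lit 7581) (nat_lit 405) (.e (nat_lit 57480) (nat_lit 28) (.e (nat_lit 557105) (nat_lit 14) (.e (nat_lit 180233) (nat_lit 0) .nil))))))) (.g (nat_lit 6) .nil .nil))) 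
(.lf (nat_lit 116855) (.g (nat_lit 3079) (.e (nat_lit 5949) (nat_lit 322) (.e (nat_lit 57373) (nat_lit 2) (.e (nat_lit 98048) (nat_lit 5) (.e (nat_lit 73753) (nat_lit 8) (.e (nat_lit 557105) (nat_lit 14) (.e (nat_lit 180251) (nat_lit 10) (.e (nat_lit 573477) (nat_lit 12) (.e (nat_lit 57361) (nat_lit 0) .nil)))))))) (.g (nat_lit 6) .nil .nil))))) (.nd (nat_lit 4) (.nd (nat_lit 5) 
(.lf (nat_lit 116815) (.g (nat_lit 2869) (.e (nat_lit 5948) (nat_lit 322) (.e (nat_lit 57445) (nat_lit 19) (.e (nat_lit 393281) (nat_lit 23) (.e (nat_lit 426116) (nat_lit 2) (.e (nat_lit 196624) (nat_lit 9) (.e (nat_lit 442) (nat_lit 33) (.e (nat_lit 434216) (nat_lit 18) .nil))))))) (.g (nat_lit 6) .nil .nil))) 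
(.lf (nat_lit 116847) (.g (nat_lit 1567) (.e (nat_lit 5949) (nat_lit 322) (.e (nat_lit 57371) (nat_lit 2) (.e (nat_lit 90185) (nat_lit 17) (.e (nat_lit 237605) (nat_lit 9) .nil)))) .nil))) (.nd (nat_lit 5) 
(.lf (nat_lit 116831) (.g (nat_lit 2216) (.e (nat_lit 5949) (nat_lit 322) (.e (nat_lit 57355) (nat_lit 0) (.e (nat_lit 1858) (nat_lit 124) (.e (nat_lit 557100) (nat_lit 13) (.e (nat_lit 172106) (nat_lit 10) (.e (nat_lit 434231) (nat_lit 23) (.e (nat_lit 532543) (nat_lit 10) (.e (nat_lit 344103) (nat_lit 18) .nil)))))))) (.g (nat_lit 4) .nil .nil))) 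
(.lf (nat_lit 116863) (.g (nat_lit 2768) (.e (nat_lit 5949) (nat_lit 322) (.e (nat_lit 57373) (nat_lit 2) (.e (nat_lit 90170) (nat_lit 13) (.e (nat_lit 172067) (nat_lit 3) (.e (nat_lit 204837) (nat_lit 20) .nil))))) .nil))))))))

noncomputable def tv1569 : DT := (.nd (nat_lit 0) (.nd (nat_lit 1) (.nd (nat_lit 2) (.nd (nat_lit 3) (.nd (nat_lit 4) (.nd (nat_lit 5) 
(.lf (nat_lit 116864) (.g (nat_lit 2709) (.e (nat_lit 5949) (nat_lit 322) (.e (nat_lit 57373) (nat_lit 2) (.e (nat_lit 90170) (nat_lit 13) (.e (nat_lit 172067) (nat_lit 3) (.e (nat_lit 204838) (nat_lit 20) .nil))))) .nil)) 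
(.lf (nat_lit 116896) (.g (nat_lit 3872) (.e (nat_lit 5949) (nat_lit 322) (.e (nat_lit 57373) (nat_lit 2) (.e (nat_lit 90174) (nat_lit 14) (.e (nat_lit 180243) (nat_lit 5) (.e (nat_lit 532515) (nat_lit 3) (.e (nat_lit 114716) (nat_lit 22) (.e (nat_lit 90181) (nat_lit 16) (.e (nat_lit 229381) (nat_lit 0) .nil)))))))) (.g (nat_lit 7) .nil .nil)))) (.nd (nat_lit 5) 
(.lf (nat_lit 116880) (.g (nat_lit 2958) (.e (nat_lit 5949) (nat_lit 322) (.e (nat_lit 57373) (nat_lit 2) (.e (nat_lit 90172) (nat_lit 14) (.e (nat_lit 180244) (nat_lit 5) (.e (nat_lit 532513) (nat_lit 3) (.e (nat_lit 114714) (nat_lit 22) (.e (nat_lit 90181) (nat_lit 16) (.e (nat_lit 229381) (nat_lit 0) .nil)))))))) (.g (nat_lit 4) .nil .nil))) 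
(.lf (nat_lit 116912) (.g (nat_lit 1829) (.e (nat_lit 5949) (nat_lit 322) (.e (nat_lit 57373) (nat_lit 2) (.e (nat_lit 90185) (nat_lit 17) (.e (nat_lit 237601) (nat_lit 9) (.e (nat_lit 426566) (nat_lit 34) (.e (nat_lit 393231) (nat_lit 17) (.e (nat_lit 2530) (nat_lit 157) .nil))))))) (.g (nat_lit 5) .nil .nil))))) (.nd (nat_lit 4) (.nd (nat_lit 5) 
(.lf (nat_lit 116872) (.g (nat_lit 3831) (.e (nat_lit 5949) (nat_lit 322) (.e (nat_lit 57373) (nat_lit 2) (.e (nat_lit 90172) (nat_lit 14) (.e (nat_lit 180243) (nat_lit 5) (.e (nat_lit 532513) (nat_lit 3) (.e (nat_lit 114714) (nat_lit 22) (.e (nat_lit 90165) (nat_lit 12) (.e (nat_lit 163857) (nat_lit 0) .nil)))))))) (.g (nat_lit 5) .nil .nil))) 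
(.lf (nat_lit 116904) (.g (nat_lit 398) (.e (nat_lit 5949) (nat_lit 322) (.e (nat_lit 57373) (nat_lit 2) (.e (nat_lit 90178) (nat_lit 15) .nil))) .nil))) (.nd (nat_lit 5) 
(.lf (nat_lit 116888) (.g (nat_lit 3487) (.e (nat_lit 5949) (nat_lit 322) (.e (nat_lit 57373) (nat_lit 2) (.e (nat_lit 90172) (nat_lit 14) (.e (nat_lit 180244) (nat_lit 5) (.e (nat_lit 532515) (nat_lit 3) (.e (nat_lit 114719) (nat_lit 23) (.e (nat_lit 98325) (nat_lit 17) (.e (nat_lit 2515) (nat_lit 157) .nil)))))))) (.g (nat_lit 6) .nil .nil))) 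
(.lf (nat_lit 116920) (.g (nat_lit 3060) (.e (nat_lit 5949) (nat_lit 322) (.e (nat_lit 57373) (nat_lit 2) (.e (nat_lit 90185) (nat_lit 17) (.e (nat_lit 237601) (nat_lit 9) (.e (nat_lit 426568) (nat_lit 34) (.e (nat_lit 393234) (nat_lit 17) (.e (nat_lit 2485) (nat_lit 157) .nil))))))) (.g (nat_lit 6) .nil .nil)))))) (.nd (nat_lit 3) (.nd (nat_lit 4) (.nd (nat_lit 5) 
(.lf (nat_lit 116868) (.g (nat_lit 3082) (.e (nat_lit 5949) (nat_lit 322) (.e (nat_lit 57373) (nat_lit 2) (.e (nat_lit 90170) (nat_lit 13) (.e (nat_lit 172113) (nat_lit 10) (.e (nat_lit 434207) (nat_lit 18) .nil))))) .nil)) 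
(.lf (nat_lit 116900) (.g (nat_lit 1106) (.e (nat_lit 5949) (nat_lit 322) (.e (nat_lit 57373) (nat_lit 2) (.e (nat_lit 90176) (nat_lit 15) (.e (nat_lit 196352) (nat_lit 18) .nil)))) .nil))) (.nd (nat_lit 5) 
(.lf (nat_lit 116884) (.g (nat_lit 4270) (.e (nat_lit 5949) (nat_lit 322) (.e (nat_lit 57373) (nat_lit 2) (.e (nat_lit 90172) (nat_lit 14) (.e (nat_lit 180244) (nat_lit 5) (.e (nat_lit 532515) (nat_lit 3) (.e (nat_lit 114715) (nat_lit 22) (.e (nat_lit 90165) (nat_lit 12) (.e (nat_lit 163857) (nat_lit 0) .nil)))))))) (.g (nat_lit 0) .nil .nil))) 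
(.lf (nat_lit 116916) (.g (nat_lit 1493) (.e (nat_lit 5949) (nat_lit 322) (.e (nat_lit 57373) (nat_lit 2) (.e (nat_lit 90185) (nat_lit 17) (.e (nat_lit 237601) (nat_lit 9) (.e (nat_lit 426566) (nat_lit 34) (.e (nat_lit 393233) (nat_lit 17) (.e (nat_lit 2504) (nat_lit 157) .nil))))))) (.g (nat_lit 5) .nil .nil))))) (.nd (nat_lit 4) (.nd (nat_lit 5) 
(.lf (nat_lit 116876) (.g (nat_lit 1588) (.e (nat_lit 5949) (nat_lit 322) (.e (nat_lit 57373) (nat_lit 2) (.e (nat_lit 90172) (nat_lit 14) (.e (nat_lit 180244) (nat_lit 5) .nil)))) .nil)) 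
(.lf (nat_lit 116908) (.g (nat_lit 1212) (.e (nat_lit 5949) (nat_lit 322) (.e (nat_lit 57373) (nat_lit 2) (.e (nat_lit 90185) (nat_lit 17) (.e (nat_lit 237594) (nat_lit 3) .nil)))) .nil))) (.nd (nat_lit 5) 
(.lf (nat_lit 116892) (.g (nat_lit 1979) (.e (nat_lit 5949) (nat_lit 322) (.e (nat_lit 57373) (nat_lit 2) (.e (nat_lit 90173) (nat_lit 14) (.e (nat_lit 180252) (nat_lit 10) (.e (nat_lit 573481) (nat_lit 13) .nil))))) .nil)) 
(.lf (nat_lit 116924) (.g (nat_lit 1086) (.e (nat_lit 5949) (nat_lit 322) (.e (nat_lit 57373) (nat_lit 2) (.e (nat_lit 90185) (nat_lit 17) (.e (nat_lit 237605) (nat_lit 9) (.e (nat_lit 426566) (nat_lit 34) .nil))))) .nil)))))) (.nd (nat_lit 2) (.nd (nat_lit 3) (.nd (nat_lit 4) (.nd (nat_lit 5) 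
(.lf (nat_lit 116866) (.g (nat_lit 3151) (.e (nat_lit 5949) (nat_lit 322) (.e (nat_lit 57373) (nat_lit 2) (.e (nat_lit 90170) (nat_lit 13) (.e (nat_lit 172067) (nat_lit 3) (.e (nat_lit 204838) (nat_lit 20) (.e (nat_lit 114719) (nat_lit 23) (.e (nat_lit 98325) (nat_lit 17) (.e (nat_lit 2515) (nat_lit 157) .nil)))))))) (.g (nat_lit 4) .nil .nil))) 
(.lf (nat_lit 116898) (.g (nat_lit 2307) (.e (nat_lit 5949) (nat_lit 322) (.e (nat_lit 57373) (nat_lit 2) (.e (nat_lit 90174) (nat_lit 14) (.e (nat_lit 180250) (nat_lit 10) (.e (nat_lit 573480) (nat_lit 13) (.e (nat_lit 73472) (nat_lit 18) (.e (nat_lit 204821) (nat_lit 17) (.e (nat_lit 1086) (nat_lit 81) .nil)))))))) (.g (nat_lit 4) .nil .nil)))) (.nd (nat_lit 5) 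
(.lf (nat_lit 116882) (.g (nat_lit 2119) (.e (nat_lit 5949) (nat_lit 322) (.e (nat_lit 57373) (nat_lit 2) (.e (nat_lit 90172) (nat_lit 14) (.e (nat_lit 180244) (nat_lit 5) (.e (nat_lit 532515) (nat_lit 3) .nil))))) .nil)) 
(.lf (nat_lit 116914) (.g (nat_lit 2039) (.e (nat_lit 5949) (nat_lit 322) (.e (nat_lit 57373) (nat_lit 2) (.e (nat_lit 90185) (nat_lit 17) (.e (nat_lit 237601) (nat_lit 9) (.e (nat_lit 426566) (nat_lit 34) (.e (nat_lit 393233) (nat_lit 17) (.e (nat_lit 2485) (nat_lit 157) .nil))))))) (.g (nat_lit 6) .nil .nil))))) (.nd (nat_lit 4) (.nd (nat_lit 5) 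
(.lf (nat_lit 116874) (.g (nat_lit 2833) (.e (nat_lit 5949) (nat_lit 322) (.e (nat_lit 57373) (nat_lit 2) (.e (nat_lit 90172) (nat_lit 14) (.e (nat_lit 180243) (nat_lit 5) (.e (nat_lit 532515) (nat_lit 3) (.e (nat_lit 114715) (nat_lit 22) (.e (nat_lit 90165) (nat_lit 12) (.e (nat_lit 163857) (nat_lit 0) .nil)))))))) (.g (nat_lit 4) .nil .nil))) 
(.lf (nat_lit 116906) (.g (nat_lit 2078) (.e (nat_lit 5949) (nat_lit 322) (.e (nat_lit 57373) (nat_lit 2) (.e (nat_lit 90178) (nat_lit 15) (.e (nat_lit 196352) (nat_lit 18) (.e (nat_lit 393234) (nat_lit 17) (.e (nat_lit 2504) (nat_lit 157) .nil)))))) (.g (nat_lit 5) .nil .nil)))) (.nd (nat_lit 5) 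
(.lf (nat_lit 116890) (.g (nat_lit 3382) (.e (nat_lit 5949) (nat_lit 322) (.e (nat_lit 57373) (nat_lit 2) (.e (nat_lit 90172) (nat_lit 14) (.e (nat_lit 180250) (nat_lit 10) (.e (nat_lit 573482) (nat_lit 13) (.e (nat_lit 73472) (nat_lit 18) (.e (nat_lit 204821) (nat_lit 17) (.e (nat_lit 1086) (nat_lit 81) .nil)))))))) (.g (nat_lit 5) .nil .nil))) 
(.lf (nat_lit 116922) (.g (nat_lit 2382) (.e (nat_lit 5949) (nat_lit 322) (.e (nat_lit 57373) (nat_lit 2) (.e (nat_lit 90185) (nat_lit 17) (.e (nat_lit 237605) (nat_lit 9) (.e (nat_lit 426479) (nat_lit 27) (.e (nat_lit 336421) (nat_lit 28) (.e (nat_lit 434215) (nat_lit 18) .nil))))))) (.g (nat_lit 6) .nil .nil)))))) (.nd (nat_lit 3) (.nd (nat_lit 4) (.nd (nat_lit 5) 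
(.lf (nat_lit 116870) (.g (nat_lit 2016) (.e (nat_lit 5949) (nat_lit 322) (.e (nat_lit 57373) (nat_lit 2) (.e (nat_lit 90170) (nat_lit 13) (.e (nat_lit 172121) (nat_lit 13) .nil)))) .nil)) 
(.lf (nat_lit 116902) (.g (nat_lit 2038) (.e (nat_lit 5949) (nat_lit 322) (.e (nat_lit 57373) (nat_lit 2) (.e (nat_lit 90176) (nat_lit 15) (.e (nat_lit 188461) (nat_lit 26) (.e (nat_lit 261888) (nat_lit 5) .nil))))) .nil))) (.nd (nat_lit 5) 
(.lf (nat_lit 116886) (.g (nat_lit 2755) (.e (nat_lit 5949) (nat_lit 322) (.e (nat_lit 57373) (nat_lit 2) (.e (nat_lit 90172) (nat_lit 14) (.e (nat_lit 180244) (nat_lit 5) (.e (nat_lit 532515) (nat_lit 3) (.e (nat_lit 114718) (nat_lit 23) (.e (nat_lit 98325) (nat_lit 17) (.e (nat_lit 2515) (nat_lit 157) .nil)))))))) (.g (nat_lit 4) .nil .nil))) 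
(.lf (nat_lit 116918) (.g (nat_lit 1993) (.e (nat_lit 5949) (nat_lit 322) (.e (nat_lit 57373) (nat_lit 2) (.e (nat_lit 90185) (nat_lit 17) (.e (nat_lit 237601) (nat_lit 9) (.e (nat_lit 426566) (nat_lit 34) (.e (nat_lit 393233) (nat_lit 17) (.e (nat_lit 2530) (nat_lit 157) .nil))))))) (.g (nat_lit 6) .nil .nil))))) (.nd (nat_lit 4) (.nd (nat_lit 5) 
(.lf (nat_lit 116878) (.g (nat_lit 4425) (.e (nat_lit 5949) (nat_lit 322) (.e (nat_lit 57373) (nat_lit 2) (.e (nat_lit 90172) (nat_lit 14) (.e (nat_lit 180244) (nat_lit 5) (.e (nat_lit 532513) (nat_lit 3) (.e (nat_lit 114714) (nat_lit 22) (.e (nat_lit 90165) (nat_lit 12) (.e (nat_lit 163857) (nat_lit 0) .nil)))))))) (.g (nat_lit 6) .nil .nil))) 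
(.lf (nat_lit 116910) (.g (nat_lit 2271) (.e (nat_lit 5949) (nat_lit 322) (.e (nat_lit 57373) (nat_lit 2) (.e (nat_lit 90185) (nat_lit 17) (.e (nat_lit 237601) (nat_lit 9) (.e (nat_lit 426479) (nat_lit 27) (.e (nat_lit 336421) (nat_lit 28) (.e (nat_lit 434215) (nat_lit 18) .nil))))))) (.g (nat_lit 6) .nil .nil)))) (.nd (nat_lit 5) 
(.lf (nat_lit 116894) (.g (nat_lit 2561) (.e (nat_lit 5949) (nat_lit 322) (.e (nat_lit 57373) (nat_lit 2) (.e (nat_lit 90174) (nat_lit 14) (.e (nat_lit 180243) (nat_lit 5) (.e (nat_lit 532508) (nat_lit 2) (.e (nat_lit 106517) (nat_lit 9) (.e (nat_lit 1255) (nat_lit 92) (.e (nat_lit 98325) (nat_lit 17) (.e (nat_lit 2515) (nat_lit 157) .nil))))))))) (.g (nat_lit 4) .nil .nil))) 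
(.lf (nat_lit 116926) (.g (nat_lit 1928) (.e (nat_lit 5949) (nat_lit 322) (.e (nat_lit 57373) (nat_lit 2) (.e (nat_lit 90185) (nat_lit 17) (.e (nat_lit 237605) (nat_lit 9) (.e (nat_lit 426566) (nat_lit 34) (.e (nat_lit 393231) (nat_lit 17) (.e (nat_lit 2530) (nat_lit 157) .nil))))))) (.g (nat_lit 5) .nil .nil)))))))) 
(.nd (nat_lit 1) (.nd (nat_lit 2) (.nd (nat_lit 3) (.nd (nat_lit 4) (.nd (nat_lit 5) 
(.lf (nat_lit 116865) (.g (nat_lit 2985) (.e (nat_lit 5949) (nat_lit 322) (.e (nat_lit 57373) (nat_lit 2) (.e (nat_lit 90170) (nat_lit 13) (.e (nat_lit 172067) (nat_lit 3) (.e (nat_lit 204838) (nat_lit 20) (.e (nat_lit 114715) (nat_lit 22) (.e (nat_lit 90165) (nat_lit 12) (.e (nat_lit 163857) (nat_lit 0) .nil)))))))) (.g (nat_lit 4) .nil .nil))) 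
(.lf (nat_lit 116897) (.g (nat_lit 1945) (.e (nat_lit 5949) (nat_lit 322) (.e (nat_lit 57373) (nat_lit 2) (.e (nat_lit 90174) (nat_lit 14) (.e (nat_lit 180245) (nat_lit 5) .nil)))) .nil))) (.nd (nat_lit 5) 
(.lf (nat_lit 116881) (.g (nat_lit 3631) (.e (nat_lit 5949) (nat_lit 322) (.e (nat_lit 57373) (nat_lit 2) (.e (nat_lit 90172) (nat_lit 14) (.e (nat_lit 180244) (nat_lit 5) (.e (nat_lit 532513) (nat_lit 3) (.e (nat_lit 114718) (nat_lit 23) (.e (nat_lit 98325) (nat_lit 17) (.e (nat_lit 2515) (nat_lit 157) .nil)))))))) (.g (nat_lit 5) .nil .nil))) 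
(.lf (nat_lit 116913) (.g (nat_lit 2146) (.e (nat_lit 5949) (nat_lit 322) (.e (nat_lit 57373) (nat_lit 2) (.e (nat_lit 90185) (nat_lit 17) (.e (nat_lit 237601) (nat_lit 9) (.e (nat_lit 426566) (nat_lit 34) (.e (nat_lit 393232) (nat_lit 17) (.e (nat_lit 2486) (nat_lit 157) .nil))))))) (.g (nat_lit 5) .nil .nil))))) (.nd (nat_lit 4) (.nd (nat_lit 5) 
(.lf (nat_lit 116873) (.g (nat_lit 2555) (.e (nat_lit 5949) (nat_lit 322) (.e (nat_lit 57373) (nat_lit 2) (.e (nat_lit 90172) (nat_lit 14) (.e (nat_lit 180243) (nat_lit 5) (.e (nat_lit 532515) (nat_lit 3) .nil))))) .nil)) 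
(.lf (nat_lit 116905) (.g (nat_lit 2010) (.e (nat_lit 5949) (nat_lit 322) (.e (nat_lit 57373) (nat_lit 2) (.e (nat_lit 90178) (nat_lit 15) (.e (nat_lit 196352) (nat_lit 18) (.e (nat_lit 393234) (nat_lit 17) (.e (nat_lit 2485) (nat_lit 157) .nil)))))) (.g (nat_lit 5) .nil .nil)))) (.nd (nat_lit 5) 
(.lf (nat_lit 116889) (.g (nat_lit 2762) (.e (nat_lit 5949) (nat_lit 322) (.e (nat_lit 57373) (nat_lit 2) (.e (nat_lit 90172) (nat_lit 14) (.e (nat_lit 180250) (nat_lit 10) (.e (nat_lit 573480) (nat_lit 13) .nil))))) .nil)) 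
(.lf (nat_lit 116921) (.g (nat_lit 3048) (.e (nat_lit 5949) (nat_lit 322) (.e (nat_lit 57373) (nat_lit 2) (.e (nat_lit 90185) (nat_lit 17) (.e (nat_lit 237601) (nat_lit 9) (.e (nat_lit 426568) (nat_lit 34) (.e (nat_lit 393234) (nat_lit 17) (.e (nat_lit 2504) (nat_lit 157) .nil))))))) (.g (nat_lit 6) .nil .nil)))))) (.nd (nat_lit 3) (.nd (nat_lit 4) (.nd (nat_lit 5) 
(.lf (nat_lit 116869) (.g (nat_lit 3304) (.e (nat_lit 5949) (nat_lit 322) (.e (nat_lit 57373) (nat_lit 2) (.e (nat_lit 90170) (nat_lit 13) (.e (nat_lit 172113) (nat_lit 10) (.e (nat_lit 434208) (nat_lit 18) (.e (nat_lit 6595) (nat_lit 351) (.e (nat_lit 2638) (nat_lit 165) (.e (nat_lit 180233) (nat_lit 0) .nil)))))))) (.g (nat_lit 4) .nil .nil))) 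
(.lf (nat_lit 116901) (.g (nat_lit 2036) (.e (nat_lit 5949) (nat_lit 322) (.e (nat_lit 57373) (nat_lit 2) (.e (nat_lit 90176) (nat_lit 15) (.e (nat_lit 188459) (nat_lit 26) (.e (nat_lit 261888) (nat_lit 5) (.e (nat_lit 180232) (nat_lit 0) .nil)))))) (.g (nat_lit 4) .nil .nil)))) (.nd (nat_lit 5) 
(.lf (nat_lit 116885) (.g (nat_lit 4144) (.e (nat_lit 5949) (nat_lit 322) (.e (nat_lit 57373) (nat_lit 2) (.e (nat_lit 90172) (nat_lit 14) (.e (nat_lit 180244) (nat_lit 5) (.e (nat_lit 532515) (nat_lit 3) (.e (nat_lit 114716) (nat_lit 22) (.e (nat_lit 90181) (nat_lit 16) (.e (nat_lit 229381) (nat_lit 0) .nil)))))))) (.g (nat_lit 7) .nil .nil))) 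
(.lf (nat_lit 116917) (.g (nat_lit 1285) (.e (nat_lit 5949) (nat_lit 322) (.e (nat_lit 57373) (nat_lit 2) (.e (nat_lit 90185) (nat_lit 17) (.e (nat_lit 237601) (nat_lit 9) (.e (nat_lit 426566) (nat_lit 34) (.e (nat_lit 393233) (nat_lit 17) (.e (nat_lit 2524) (nat_lit 157) .nil))))))) (.g (nat_lit 4) .nil .nil))))) (.nd (nat_lit 4) (.nd (nat_lit 5) 
(.lf (nat_lit 116877) (.g (nat_lit 3605) (.e (nat_lit 5949) (nat_lit 322) (.e (nat_lit 57373) (nat_lit 2) (.e (nat_lit 90172) (nat_lit 14) (.e (nat_lit 180244) (nat_lit 5) (.e (nat_lit 532513) (nat_lit 3) (.e (nat_lit 114714) (nat_lit 22) (.e (nat_lit 90165) (nat_lit 12) (.e (nat_lit 163856) (nat_lit 0) .nil)))))))) (.g (nat_lit 5) .nil .nil))) 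
(.lf (nat_lit 116909) (.g (nat_lit 738) (.e (nat_lit 5949) (nat_lit 322) (.e (nat_lit 57373) (nat_lit 2) (.e (nat_lit 90185) (nat_lit 17) (.e (nat_lit 237601) (nat_lit 9) .nil)))) .nil))) (.nd (nat_lit 5) 
(.lf (nat_lit 116893) (.g (nat_lit 2099) (.e (nat_lit 5949) (nat_lit 322) (.e (nat_lit 57373) (nat_lit 2) (.e (nat_lit 90174) (nat_lit 14) (.e (nat_lit 180243) (nat_lit 5) (.e (nat_lit 532508) (nat_lit 2) .nil))))) .nil)) 
(.lf (nat_lit 116925) (.g (nat_lit 1480) (.e (nat_lit 5949) (nat_lit 322) (.e (nat_lit 57373) (nat_lit 2) (.e (nat_lit 90185) (nat_lit 17) (.e (nat_lit 237605) (nat_lit 9) (.e (nat_lit 426566) (nat_lit 34) (.e (nat_lit 393231) (nat_lit 17) (.e (nat_lit 2486) (nat_lit 157) .nil))))))) (.g (nat_lit 4) .nil .nil))))))) (.nd (nat_lit 2) (.nd (nat_lit 3) (.nd (nat_lit 4) (.nd (nat_lit 5) 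
(.lf (nat_lit 116867) (.g (nat_lit 2266) (.e (nat_lit 5949) (nat_lit 322) (.e (nat_lit 57373) (nat_lit 2) (.e (nat_lit 90170) (nat_lit 13) (.e (nat_lit 172095) (nat_lit 9) .nil)))) .nil)) 
(.lf (nat_lit 116899) (.g (nat_lit 3533) (.e (nat_lit 5949) (nat_lit 322) (.e (nat_lit 57373) (nat_lit 2) (.e (nat_lit 90174) (nat_lit 14) (.e (nat_lit 180250) (nat_lit 10) (.e (nat_lit 573482) (nat_lit 13) (.e (nat_lit 73472) (nat_lit 18) (.e (nat_lit 204821) (nat_lit 17) (.e (nat_lit 1086) (nat_lit 81) .nil)))))))) (.g (nat_lit 5) .nil .nil)))) (.nd (nat_lit 5) 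
(.lf (nat_lit 116883) (.g (nat_lit 3516) (.e (nat_lit 5949) (nat_lit 322) (.e (nat_lit 57373) (nat_lit 2) (.e (nat_lit 90172) (nat_lit 14) (.e (nat_lit 180244) (nat_lit 5) (.e (nat_lit 532515) (nat_lit 3) (.e (nat_lit 114715) (nat_lit 22) (.e (nat_lit 90165) (nat_lit 12) (.e (nat_lit 163856) (nat_lit 0) .nil)))))))) (.g (nat_lit 6) .nil .nil))) 
(.lf (nat_lit 116915) (.g (nat_lit 2156) (.e (nat_lit 5949) (nat_lit 322) (.e (nat_lit 57373) (nat_lit 2) (.e (nat_lit 90185) (nat_lit 17) (.e (nat_lit 237601) (nat_lit 9) (.e (nat_lit 426566) (nat_lit 34) (.e (nat_lit 393233) (nat_lit 17) (.e (nat_lit 2486) (nat_lit 157) .nil))))))) (.g (nat_lit 6) .nil .nil))))) (.nd (nat_lit 4) (.nd (nat_lit 5) 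
(.lf (nat_lit 116875) (.g (nat_lit 2840) (.e (nat_lit 5949) (nat_lit 322) (.e (nat_lit 57373) (nat_lit 2) (.e (nat_lit 90172) (nat_lit 14) (.e (nat_lit 180243) (nat_lit 5) (.e (nat_lit 532515) (nat_lit 3) (.e (nat_lit 114716) (nat_lit 22) (.e (nat_lit 90181) (nat_lit 16) (.e (nat_lit 229381) (nat_lit 0) .nil)))))))) (.g (nat_lit 4) .nil .nil))) 
(.lf (nat_lit 116907) (.g (nat_lit 2401) (.e (nat_lit 5949) (nat_lit 322) (.e (nat_lit 57373) (nat_lit 2) (.e (nat_lit 90178) (nat_lit 15) (.e (nat_lit 188461) (nat_lit 26) (.e (nat_lit 261888) (nat_lit 5) (.e (nat_lit 180232) (nat_lit 0) .nil)))))) (.g (nat_lit 4) .nil .nil)))) (.nd (nat_lit 5) 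
(.lf (nat_lit 116891) (.g (nat_lit 712) (.e (nat_lit 5949) (nat_lit 322) (.e (nat_lit 57373) (nat_lit 2) (.e (nat_lit 90173) (nat_lit 14) .nil))) .nil)) 
(.lf (nat_lit 116923) (.g (nat_lit 2456) (.e (nat_lit 5949) (nat_lit 322) (.e (nat_lit 57373) (nat_lit 2) (.e (nat_lit 90185) (nat_lit 17) (.e (nat_lit 237605) (nat_lit 9) (.e (nat_lit 426479) (nat_lit 27) (.e (nat_lit 336421) (nat_lit 28) (.e (nat_lit 434216) (nat_lit 18) .nil))))))) (.g (nat_lit 7) .nil .nil)))))) (.nd (nat_lit 3) (.nd (nat_lit 4) (.nd (nat_lit 5) 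
(.lf (nat_lit 116871) (.g (nat_lit 3011) (.e (nat_lit 5949) (nat_lit 322) (.e (nat_lit 57373) (nat_lit 2) (.e (nat_lit 90172) (nat_lit 14) (.e (nat_lit 180243) (nat_lit 5) (.e (nat_lit 532513) (nat_lit 3) (.e (nat_lit 114714) (nat_lit 22) (.e (nat_lit 90165) (nat_lit 12) (.e (nat_lit 163856) (nat_lit 0) .nil)))))))) (.g (nat_lit 4) .nil .nil))) 
(.lf (nat_lit 116903) (.g (nat_lit 2004) (.e (nat_lit 5949) (nat_lit 322) (.e (nat_lit 57373) (nat_lit 2) (.e (nat_lit 90177) (nat_lit 15) (.e (nat_lit 188461) (nat_lit 26) (.e (nat_lit 261888) (nat_lit 5) (.e (nat_lit 180232) (nat_lit 0) .nil)))))) (.g (nat_lit 4) .nil .nil)))) (.nd (nat_lit 5) 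
(.lf (nat_lit 116887) (.g (nat_lit 2497) (.e (nat_lit 5949) (nat_lit 322) (.e (nat_lit 57373) (nat_lit 2) (.e (nat_lit 90172) (nat_lit 14) (.e (nat_lit 180244) (nat_lit 5) (.e (nat_lit 532515) (nat_lit 3) (.e (nat_lit 114719) (nat_lit 23) (.e (nat_lit 98320) (nat_lit 17) (.e (nat_lit 2486) (nat_lit 157) .nil)))))))) (.g (nat_lit 4) .nil .nil))) 
(.lf (nat_lit 116919) (.g (nat_lit 2862) (.e (nat_lit 5949) (nat_lit 322) (.e (nat_lit 57373) (nat_lit 2) (.e (nat_lit 90185) (nat_lit 17) (.e (nat_lit 237601) (nat_lit 9) (.e (nat_lit 426566) (nat_lit 34) (.e (nat_lit 393234) (nat_lit 17) (.e (nat_lit 2485) (nat_lit 157) .nil))))))) (.g (nat_lit 6) .nil .nil))))) (.nd (nat_lit 4) (.nd (nat_lit 5) 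
(.lf (nat_lit 116879) (.g (nat_lit 2310) (.e (nat_lit 5949) (nat_lit 322) (.e (nat_lit 57373) (nat_lit 2) (.e (nat_lit 90172) (nat_lit 14) (.e (nat_lit 180244) (nat_lit 5) (.e (nat_lit 532513) (nat_lit 3) (.e (nat_lit 114714) (nat_lit 22) (.e (nat_lit 90165) (nat_lit 12) (.e (nat_lit 171776) (nat_lit 0) .nil)))))))) (.g (nat_lit 4) .nil .nil))) 
(.lf (nat_lit 116911) (.g (nat_lit 922) (.e (nat_lit 5949) (nat_lit 322) (.e (nat_lit 57373) (nat_lit 2) (.e (nat_lit 90185) (nat_lit 17) (.e (nat_lit 237601) (nat_lit 9) (.e (nat_lit 426566) (nat_lit 34) .nil))))) .nil))) (.nd (nat_lit 5) 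
(.lf (nat_lit 116895) (.g (nat_lit 1807) (.e (nat_lit 5949) (nat_lit 322) (.e (nat_lit 57373) (nat_lit 2) (.e (nat_lit 90174) (nat_lit 14) (.e (nat_lit 180243) (nat_lit 5) (.e (nat_lit 532515) (nat_lit 3) .nil))))) .nil)) 
(.lf (nat_lit 116927) (.g (nat_lit 2163) (.e (nat_lit 5949) (nat_lit 322) (.e (nat_lit 57373) (nat_lit 2) (.e (nat_lit 90185) (nat_lit 17) (.e (nat_lit 237605) (nat_lit 9) (.e (nat_lit 426566) (nat_lit 34) (.e (nat_lit 393233) (nat_lit 17) (.e (nat_lit 2485) (nat_lit 157) .nil))))))) (.g (nat_lit 6) .nil .nil)))))))))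

noncomputable def tv1570 : DT := (.nd (nat_lit 0) (.nd (nat_lit 1) (.nd (nat_lit 2) (.nd (nat_lit 3) (.nd (nat_lit 4) (.nd (nat_lit 5) 
(.lf (nat_lit 116928) (.g (nat_lit 2285) (.e (nat_lit 5949) (nat_lit 322) (.e (nat_lit 57373) (nat_lit 2) (.e (nat_lit 90185) (nat_lit 17) (.e (nat_lit 237605) (nat_lit 9) (.e (nat_lit 426566) (nat_lit 34) (.e (nat_lit 393233) (nat_lit 17) (.e (nat_lit 2486) (nat_lit 157) .nil))))))) (.g (nat_lit 6) .nil .nil))) 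
(.lf (nat_lit 116960) (.g (nat_lit 2356) (.e (nat_lit 5949) (nat_lit 322) (.e (nat_lit 57378) (nat_lit 3) (.e (nat_lit 98365) (nat_lit 26) (.e (nat_lit 426187) (nat_lit 9) (.e (nat_lit 426566) (nat_lit 34) (.e (nat_lit 393233) (nat_lit 17) (.e (nat_lit 2524) (nat_lit 157) .nil))))))) (.g (nat_lit 5) .nil .nil)))) (.nd (nat_lit 5) 
(.lf (nat_lit 116944) (.g (nat_lit 1677) (.e (nat_lit 5949) (nat_lit 322) (.e (nat_lit 57378) (nat_lit 3) (.e (nat_lit 98363) (nat_lit 26) (.e (nat_lit 426230) (nat_lit 9) (.e (nat_lit 426565) (nat_lit 34) (.e (nat_lit 393232) (nat_lit 17) (.e (nat_lit 2524) (nat_lit 157) .nil))))))) (.g (nat_lit 4) .nil .nil))) 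
(.lf (nat_lit 116976) (.g (nat_lit 3327) (.e (nat_lit 5949) (nat_lit 322) (.e (nat_lit 57378) (nat_lit 3) (.e (nat_lit 98365) (nat_lit 26) (.e (nat_lit 426188) (nat_lit 9) (.e (nat_lit 426566) (nat_lit 34) (.e (nat_lit 393232) (nat_lit 17) (.e (nat_lit 2524) (nat_lit 157) .nil))))))) (.g (nat_lit 5) .nil .nil))))) (.nd (nat_lit 4) (.nd (nat_lit 5) 
(.lf (nat_lit 116936) (.g (nat_lit 1803) (.e (nat_lit 5949) (nat_lit 322) (.e (nat_lit 57378) (nat_lit 3) (.e (nat_lit 98358) (nat_lit 26) (.e (nat_lit 426131) (nat_lit 3) (.e (nat_lit 204838) (nat_lit 20) .nil))))) .nil)) 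
(.lf (nat_lit 116968) (.g (nat_lit 2020) (.e (nat_lit 5949) (nat_lit 322) (.e (nat_lit 57378) (nat_lit 3) (.e (nat_lit 98365) (nat_lit 26) (.e (nat_lit 426188) (nat_lit 9) (.e (nat_lit 426564) (nat_lit 34) .nil))))) .nil))) (.nd (nat_lit 5) 
(.lf (nat_lit 116952) (.g (nat_lit 1769) (.e (nat_lit 5949) (nat_lit 322) (.e (nat_lit 57378) (nat_lit 3) (.e (nat_lit 98365) (nat_lit 26) (.e (nat_lit 426187) (nat_lit 9) (.e (nat_lit 426566) (nat_lit 34) (.e (nat_lit 393231) (nat_lit 17) (.e (nat_lit 2524) (nat_lit 157) .nil))))))) (.g (nat_lit 4) .nil .nil))) 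
(.lf (nat_lit 116984) (.g (nat_lit 3362) (.e (nat_lit 5949) (nat_lit 322) (.e (nat_lit 57378) (nat_lit 3) (.e (nat_lit 98365) (nat_lit 26) (.e (nat_lit 426188) (nat_lit 9) (.e (nat_lit 426568) (nat_lit 34) (.e (nat_lit 393238) (nat_lit 17) (.e (nat_lit 2484) (nat_lit 157) .nil))))))) (.g (nat_lit 6) .nil .nil)))))) (.nd (nat_lit 3) (.nd (nat_lit 4) (.nd (nat_lit 5) 
(.lf (nat_lit 116932) (.g (nat_lit 3165) (.e (nat_lit 5949) (nat_lit 322) (.e (nat_lit 57373) (nat_lit 2) (.e (nat_lit 90185) (nat_lit 17) (.e (nat_lit 237605) (nat_lit 9) (.e (nat_lit 426568) (nat_lit 34) (.e (nat_lit 393234) (nat_lit 17) (.e (nat_lit 2504) (nat_lit 157) .nil))))))) (.g (nat_lit 6) .nil .nil))) 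
(.lf (nat_lit 116964) (.g (nat_lit 2980) (.e (nat_lit 5949) (nat_lit 322) (.e (nat_lit 57378) (nat_lit 3) (.e (nat_lit 98365) (nat_lit 26) (.e (nat_lit 426187) (nat_lit 9) (.e (nat_lit 426568) (nat_lit 34) (.e (nat_lit 393238) (nat_lit 17) (.e (nat_lit 2484) (nat_lit 157) .nil))))))) (.g (nat_lit 6) .nil .nil)))) (.nd (nat_lit 5) 
(.lf (nat_lit 116948) (.g (nat_lit 3138) (.e (nat_lit 5949) (nat_lit 322) (.e (nat_lit 57378) (nat_lit 3) (.e (nat_lit 98365) (nat_lit 26) (.e (nat_lit 426187) (nat_lit 9) (.e (nat_lit 426479) (nat_lit 27) (.e (nat_lit 336421) (nat_lit 28) (.e (nat_lit 434215) (nat_lit 18) .nil))))))) (.g (nat_lit 7) .nil .nil))) 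
(.lf (nat_lit 116980) (.g (nat_lit 2452) (.e (nat_lit 5949) (nat_lit 322) (.e (nat_lit 57378) (nat_lit 3) (.e (nat_lit 98365) (nat_lit 26) (.e (nat_lit 426188) (nat_lit 9) (.e (nat_lit 426566) (nat_lit 34) (.e (nat_lit 393233) (nat_lit 17) (.e (nat_lit 2524) (nat_lit 157) .nil))))))) (.g (nat_lit 5) .nil .nil))))) (.nd (nat_lit 4) (.nd (nat_lit 5) 
(.lf (nat_lit 116940) (.g (nat_lit 2268) (.e (nat_lit 5949) (nat_lit 322) (.e (nat_lit 57378) (nat_lit 3) (.e (nat_lit 98363) (nat_lit 26) (.e (nat_lit 426228) (nat_lit 9) (.e (nat_lit 426565) (nat_lit 34) (.e (nat_lit 393232) (nat_lit 17) (.e (nat_lit 2504) (nat_lit 157) .nil))))))) (.g (nat_lit 6) .nil .nil))) 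
(.lf (nat_lit 116972) (.g (nat_lit 2101) (.e (nat_lit 5949) (nat_lit 322) (.e (nat_lit 57378) (nat_lit 3) (.e (nat_lit 98365) (nat_lit 26) (.e (nat_lit 426188) (nat_lit 9) (.e (nat_lit 426566) (nat_lit 34) (.e (nat_lit 393231) (nat_lit 17) (.e (nat_lit 2486) (nat_lit 157) .nil))))))) (.g (nat_lit 4) .nil .nil)))) (.nd (nat_lit 5) 
(.lf (nat_lit 116956) (.g (nat_lit 3892) (.e (nat_lit 5949) (nat_lit 322) (.e (nat_lit 57378) (nat_lit 3) (.e (nat_lit 98365) (nat_lit 26) (.e (nat_lit 426187) (nat_lit 9) (.e (nat_lit 426566) (nat_lit 34) (.e (nat_lit 393232) (nat_lit 17) (.e (nat_lit 2504) (nat_lit 157) .nil))))))) (.g (nat_lit 6) .nil .nil))) 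
(.lf (nat_lit 116988) (.g (nat_lit 2823) (.e (nat_lit 5949) (nat_lit 322) (.e (nat_lit 57378) (nat_lit 3) (.e (nat_lit 98367) (nat_lit 27) (.e (nat_lit 434244) (nat_lit 28) (.e (nat_lit 573481) (nat_lit 13) (.e (nat_lit 73472) (nat_lit 18) (.e (nat_lit 204821) (nat_lit 17) (.e (nat_lit 1086) (nat_lit 81) .nil)))))))) (.g (nat_lit 4) .nil .nil))))))) 
(.nd (nat_lit 2) (.nd (nat_lit 3) (.nd (nat_lit 4) (.nd (nat_lit 5) 
(.lf (nat_lit 116930) (.g (nat_lit 3007) (.e (nat_lit 5949) (nat_lit 322) (.e (nat_lit 57373) (nat_lit 2) (.e (nat_lit 90185) (nat_lit 17) (.e (nat_lit 237605) (nat_lit 9) (.e (nat_lit 426566) (nat_lit 34) (.e (nat_lit 393234) (nat_lit 17) (.e (nat_lit 2485) (nat_lit 157) .nil))))))) (.g (nat_lit 6) .nil .nil))) 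
(.lf (nat_lit 116962) (.g (nat_lit 3717) (.e (nat_lit 5949) (nat_lit 322) (.e (nat_lit 57378) (nat_lit 3) (.e (nat_lit 98365) (nat_lit 26) (.e (nat_lit 426187) (nat_lit 9) (.e (nat_lit 426566) (nat_lit 34) (.e (nat_lit 393234) (nat_lit 17) (.e (nat_lit 2485) (nat_lit 157) .nil))))))) (.g (nat_lit 6) .nil .nil)))) (.nd (nat_lit 5) 
(.lf (nat_lit 116946) (.g (nat_lit 352) (.e (nat_lit 5949) (nat_lit 322) (.e (nat_lit 57378) (nat_lit 3) (.e (nat_lit 98365) (nat_lit 26) .nil))) .nil)) 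
(.lf (nat_lit 116978) (.g (nat_lit 3240) (.e (nat_lit 5949) (nat_lit 322) (.e (nat_lit 57378) (nat_lit 3) (.e (nat_lit 98365) (nat_lit 26) (.e (nat_lit 426188) (nat_lit 9) (.e (nat_lit 426566) (nat_lit 34) (.e (nat_lit 393233) (nat_lit 17) (.e (nat_lit 2486) (nat_lit 157) .nil))))))) (.g (nat_lit 6) .nil .nil))))) (.nd (nat_lit 4) (.nd (nat_lit 5) 
(.lf (nat_lit 116938) (.g (nat_lit 564) (.e (nat_lit 5949) (nat_lit 322) (.e (nat_lit 57378) (nat_lit 3) (.e (nat_lit 98363) (nat_lit 26) .nil))) .nil)) 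
(.lf (nat_lit 116970) (.g (nat_lit 3576) (.e (nat_lit 5949) (nat_lit 322) (.e (nat_lit 57378) (nat_lit 3) (.e (nat_lit 98365) (nat_lit 26) (.e (nat_lit 426188) (nat_lit 9) (.e (nat_lit 426564) (nat_lit 34) (.e (nat_lit 393234) (nat_lit 17) (.e (nat_lit 2504) (nat_lit 157) .nil))))))) (.g (nat_lit 6) .nil .nil)))) (.nd (nat_lit 5) 
(.lf (nat_lit 116954) (.g (nat_lit 3857) (.e (nat_lit 5949) (nat_lit 322) (.e (nat_lit 57378) (nat_lit 3) (.e (nat_lit 98365) (nat_lit 26) (.e (nat_lit 426187) (nat_lit 9) (.e (nat_lit 426566) (nat_lit 34) (.e (nat_lit 393232) (nat_lit 17) (.e (nat_lit 2485) (nat_lit 157) .nil))))))) (.g (nat_lit 6) .nil .nil))) 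
(.lf (nat_lit 116986) (.g (nat_lit 1450) (.e (nat_lit 5949) (nat_lit 322) (.e (nat_lit 57378) (nat_lit 3) (.e (nat_lit 98365) (nat_lit 26) (.e (nat_lit 426334) (nat_lit 13) .nil)))) .nil))))) (.nd (nat_lit 3) (.nd (nat_lit 4) (.nd (nat_lit 5) 
(.lf (nat_lit 116934) (.g (nat_lit 1712) (.e (nat_lit 5949) (nat_lit 322) (.e (nat_lit 57373) (nat_lit 2) (.e (nat_lit 90185) (nat_lit 17) (.e (nat_lit 237623) (nat_lit 13) (.e (nat_lit 491264) (nat_lit 10) (.e (nat_lit 434216) (nat_lit 18) .nil)))))) (.g (nat_lit 4) .nil .nil))) 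
(.lf (nat_lit 116966) (.g (nat_lit 3577) (.e (nat_lit 5949) (nat_lit 322) (.e (nat_lit 57378) (nat_lit 3) (.e (nat_lit 98365) (nat_lit 26) (.e (nat_lit 426188) (nat_lit 9) (.e (nat_lit 426479) (nat_lit 27) (.e (nat_lit 336421) (nat_lit 28) (.e (nat_lit 434215) (nat_lit 18) .nil))))))) (.g (nat_lit 7) .nil .nil)))) (.nd (nat_lit 5) 
(.lf (nat_lit 116950) (.g (nat_lit 2415) (.e (nat_lit 5949) (nat_lit 322) (.e (nat_lit 57378) (nat_lit 3) (.e (nat_lit 98365) (nat_lit 26) (.e (nat_lit 426187) (nat_lit 9) (.e (nat_lit 426564) (nat_lit 34) (.e (nat_lit 393234) (nat_lit 17) (.e (nat_lit 2504) (nat_lit 157) .nil))))))) (.g (nat_lit 5) .nil .nil))) 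
(.lf (nat_lit 116982) (.g (nat_lit 3910) (.e (nat_lit 5949) (nat_lit 322) (.e (nat_lit 57378) (nat_lit 3) (.e (nat_lit 98365) (nat_lit 26) (.e (nat_lit 426188) (nat_lit 9) (.e (nat_lit 426566) (nat_lit 34) (.e (nat_lit 393234) (nat_lit 17) (.e (nat_lit 2485) (nat_lit 157) .nil))))))) (.g (nat_lit 6) .nil .nil))))) (.nd (nat_lit 4) (.nd (nat_lit 5) 
(.lf (nat_lit 116942) (.g (nat_lit 2318) (.e (nat_lit 5949) (nat_lit 322) (.e (nat_lit 57378) (nat_lit 3) (.e (nat_lit 98363) (nat_lit 26) (.e (nat_lit 426230) (nat_lit 9) (.e (nat_lit 426565) (nat_lit 34) (.e (nat_lit 393232) (nat_lit 17) (.e (nat_lit 2485) (nat_lit 157) .nil))))))) (.g (nat_lit 6) .nil .nil))) 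
(.lf (nat_lit 116974) (.g (nat_lit 3955) (.e (nat_lit 5949) (nat_lit 322) (.e (nat_lit 57378) (nat_lit 3) (.e (nat_lit 98365) (nat_lit 26) (.e (nat_lit 426188) (nat_lit 9) (.e (nat_lit 426566) (nat_lit 34) (.e (nat_lit 393232) (nat_lit 17) (.e (nat_lit 2485) (nat_lit 157) .nil))))))) (.g (nat_lit 6) .nil .nil)))) (.nd (nat_lit 5) 
(.lf (nat_lit 116958) (.g (nat_lit 2543) (.e (nat_lit 5949) (nat_lit 322) (.e (nat_lit 57378) (nat_lit 3) (.e (nat_lit 98365) (nat_lit 26) (.e (nat_lit 426187) (nat_lit 9) (.e (nat_lit 426566) (nat_lit 34) (.e (nat_lit 393233) (nat_lit 17) (.e (nat_lit 2483) (nat_lit 157) .nil))))))) (.g (nat_lit 5) .nil .nil))) 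
(.lf (nat_lit 116990) (.g (nat_lit 3126) (.e (nat_lit 5949) (nat_lit 322) (.e (nat_lit 57378) (nat_lit 3) (.e (nat_lit 98368) (nat_lit 27) (.e (nat_lit 434245) (nat_lit 28) (.e (nat_lit 573481) (nat_lit 13) (.e (nat_lit 73472) (nat_lit 18) (.e (nat_lit 204821) (nat_lit 17) (.e (nat_lit 1086) (nat_lit 81) .nil)))))))) (.g (nat_lit 5) .nil .nil)))))))) 
(.nd (nat_lit 1) (.nd (nat_lit 2) (.nd (nat_lit 3) (.nd (nat_lit 4) (.nd (nat_lit 5) 
(.lf (nat_lit 116929) (.g (nat_lit 1384) (.e (nat_lit 5949) (nat_lit 322) (.e (nat_lit 57373) (nat_lit 2) (.e (nat_lit 90185) (nat_lit 17) (.e (nat_lit 237605) (nat_lit 9) (.e (nat_lit 426566) (nat_lit 34) (.e (nat_lit 393233) (nat_lit 17) (.e (nat_lit 2524) (nat_lit 157) .nil))))))) (.g (nat_lit 4) .nil .nil))) 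
(.lf (nat_lit 116961) (.g (nat_lit 3055) (.e (nat_lit 5949) (nat_lit 322) (.e (nat_lit 57378) (nat_lit 3) (.e (nat_lit 98365) (nat_lit 26) (.e (nat_lit 426187) (nat_lit 9) (.e (nat_lit 426566) (nat_lit 34) (.e (nat_lit 393233) (nat_lit 17) (.e (nat_lit 2530) (nat_lit 157) .nil))))))) (.g (nat_lit 6) .nil .nil)))) (.nd (nat_lit 5) 
(.lf (nat_lit 116945) (.g (nat_lit 1853) (.e (nat_lit 5949) (nat_lit 322) (.e (nat_lit 57378) (nat_lit 3) (.e (nat_lit 98363) (nat_lit 26) (.e (nat_lit 426230) (nat_lit 9) (.e (nat_lit 426565) (nat_lit 34) (.e (nat_lit 393234) (nat_lit 17) (.e (nat_lit 2485) (nat_lit 157) .nil))))))) (.g (nat_lit 5) .nil .nil))) 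
(.lf (nat_lit 116977) (.g (nat_lit 2658) (.e (nat_lit 5949) (nat_lit 322) (.e (nat_lit 57378) (nat_lit 3) (.e (nat_lit 98365) (nat_lit 26) (.e (nat_lit 426188) (nat_lit 9) (.e (nat_lit 426566) (nat_lit 34) (.e (nat_lit 393233) (nat_lit 17) (.e (nat_lit 2483) (nat_lit 157) .nil))))))) (.g (nat_lit 5) .nil .nil))))) (.nd (nat_lit 4) (.nd (nat_lit 5) 
(.lf (nat_lit 116937) (.g (nat_lit 2363) (.e (nat_lit 5949) (nat_lit 322) (.e (nat_lit 57378) (nat_lit 3) (.e (nat_lit 98358) (nat_lit 26) (.e (nat_lit 426131) (nat_lit 3) (.e (nat_lit 204838) (nat_lit 20) (.e (nat_lit 114719) (nat_lit 23) (.e (nat_lit 98325) (nat_lit 17) (.e (nat_lit 2515) (nat_lit 157) .nil)))))))) (.g (nat_lit 4) .nil .nil))) 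
(.lf (nat_lit 116969) (.g (nat_lit 3740) (.e (nat_lit 5949) (nat_lit 322) (.e (nat_lit 57378) (nat_lit 3) (.e (nat_lit 98365) (nat_lit 26) (.e (nat_lit 426188) (nat_lit 9) (.e (nat_lit 426564) (nat_lit 34) (.e (nat_lit 393234) (nat_lit 17) (.e (nat_lit 2485) (nat_lit 157) .nil))))))) (.g (nat_lit 6) .nil .nil)))) (.nd (nat_lit 5) 
(.lf (nat_lit 116953) (.g (nat_lit 2580) (.e (nat_lit 5949) (nat_lit 322) (.e (nat_lit 57378) (nat_lit 3) (.e (nat_lit 98365) (nat_lit 26) (.e (nat_lit 426187) (nat_lit 9) (.e (nat_lit 426566) (nat_lit 34) (.e (nat_lit 393231) (nat_lit 17) (.e (nat_lit 2530) (nat_lit 157) .nil))))))) (.g (nat_lit 5) .nil .nil))) 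
(.lf (nat_lit 116985) (.g (nat_lit 1194) (.e (nat_lit 5949) (nat_lit 322) (.e (nat_lit 57378) (nat_lit 3) (.e (nat_lit 98365) (nat_lit 26) (.e (nat_lit 426325) (nat_lit 13) .nil)))) .nil))))) (.nd (nat_lit 3) (.nd (nat_lit 4) (.nd (nat_lit 5) 
(.lf (nat_lit 116933) (.g (nat_lit 1413) (.e (nat_lit 5949) (nat_lit 322) (.e (nat_lit 57373) (nat_lit 2) (.e (nat_lit 90185) (nat_lit 17) (.e (nat_lit 237620) (nat_lit 13) (.e (nat_lit 491264) (nat_lit 10) .nil))))) .nil)) 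
(.lf (nat_lit 116965) (.g (nat_lit 1163) (.e (nat_lit 5949) (nat_lit 322) (.e (nat_lit 57378) (nat_lit 3) (.e (nat_lit 98365) (nat_lit 26) (.e (nat_lit 426188) (nat_lit 9) .nil)))) .nil))) (.nd (nat_lit 5) 
(.lf (nat_lit 116949) (.g (nat_lit 3063) (.e (nat_lit 5949) (nat_lit 322) (.e (nat_lit 57378) (nat_lit 3) (.e (nat_lit 98365) (nat_lit 26) (.e (nat_lit 426187) (nat_lit 9) (.e (nat_lit 426479) (nat_lit 27) (.e (nat_lit 336421) (nat_lit 28) (.e (nat_lit 434216) (nat_lit 18) .nil))))))) (.g (nat_lit 0) .nil .nil))) 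
(.lf (nat_lit 116981) (.g (nat_lit 3151) (.e (nat_lit 5949) (nat_lit 322) (.e (nat_lit 57378) (nat_lit 3) (.e (nat_lit 98365) (nat_lit 26) (.e (nat_lit 426188) (nat_lit 9) (.e (nat_lit 426566) (nat_lit 34) (.e (nat_lit 393233) (nat_lit 17) (.e (nat_lit 2530) (nat_lit 157) .nil))))))) (.g (nat_lit 6) .nil .nil))))) (.nd (nat_lit 4) (.nd (nat_lit 5) 
(.lf (nat_lit 116941) (.g (nat_lit 1245) (.e (nat_lit 5949) (nat_lit 322) (.e (nat_lit 57378) (nat_lit 3) (.e (nat_lit 98363) (nat_lit 26) (.e (nat_lit 426230) (nat_lit 9) (.e (nat_lit 426565) (nat_lit 34) .nil))))) .nil)) 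
(.lf (nat_lit 116973) (.g (nat_lit 2582) (.e (nat_lit 5949) (nat_lit 322) (.e (nat_lit 57378) (nat_lit 3) (.e (nat_lit 98365) (nat_lit 26) (.e (nat_lit 426188) (nat_lit 9) (.e (nat_lit 426566) (nat_lit 34) (.e (nat_lit 393231) (nat_lit 17) (.e (nat_lit 2530) (nat_lit 157) .nil))))))) (.g (nat_lit 5) .nil .nil)))) (.nd (nat_lit 5) 
(.lf (nat_lit 116957) (.g (nat_lit 3229) (.e (nat_lit 5949) (nat_lit 322) (.e (nat_lit 57378) (nat_lit 3) (.e (nat_lit 98365) (nat_lit 26) (.e (nat_lit 426187) (nat_lit 9) (.e (nat_lit 426566) (nat_lit 34) (.e (nat_lit 393232) (nat_lit 17) (.e (nat_lit 2524) (nat_lit 157) .nil))))))) (.g (nat_lit 5) .nil .nil))) 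
(.lf (nat_lit 116989) (.g (nat_lit 687) (.e (nat_lit 5949) (nat_lit 322) (.e (nat_lit 57378) (nat_lit 3) (.e (nat_lit 98368) (nat_lit 27) .nil))) .nil)))))) (.nd (nat_lit 2) (.nd (nat_lit 3) (.nd (nat_lit 4) (.nd (nat_lit 5) 
(.lf (nat_lit 116931) (.g (nat_lit 3177) (.e (nat_lit 5949) (nat_lit 322) (.e (nat_lit 57373) (nat_lit 2) (.e (nat_lit 90185) (nat_lit 17) (.e (nat_lit 237605) (nat_lit 9) (.e (nat_lit 426568) (nat_lit 34) (.e (nat_lit 393234) (nat_lit 17) (.e (nat_lit 2485) (nat_lit 157) .nil))))))) (.g (nat_lit 6) .nil .nil))) 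
(.lf (nat_lit 116963) (.g (nat_lit 2459) (.e (nat_lit 5949) (nat_lit 322) (.e (nat_lit 57378) (nat_lit 3) (.e (nat_lit 98365) (nat_lit 26) (.e (nat_lit 426187) (nat_lit 9) (.e (nat_lit 426567) (nat_lit 34) (.e (nat_lit 393234) (nat_lit 17) (.e (nat_lit 2485) (nat_lit 157) .nil))))))) (.g (nat_lit 5) .nil .nil)))) (.nd (nat_lit 5) 
(.lf (nat_lit 116947) (.g (nat_lit 1155) (.e (nat_lit 5949) (nat_lit 322) (.e (nat_lit 57378) (nat_lit 3) (.e (nat_lit 98365) (nat_lit 26) (.e (nat_lit 426187) (nat_lit 9) .nil)))) .nil)) 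
(.lf (nat_lit 116979) (.g (nat_lit 2692) (.e (nat_lit 5949) (nat_lit 322) (.e (nat_lit 57378) (nat_lit 3) (.e (nat_lit 98365) (nat_lit 26) (.e (nat_lit 426188) (nat_lit 9) (.e (nat_lit 426566) (nat_lit 34) (.e (nat_lit 393233) (nat_lit 17) (.e (nat_lit 2504) (nat_lit 157) .nil))))))) (.g (nat_lit 5) .nil .nil))))) (.nd (nat_lit 4) (.nd (nat_lit 5) 
(.lf (nat_lit 116939) (.g (nat_lit 1252) (.e (nat_lit 5949) (nat_lit 322) (.e (nat_lit 57378) (nat_lit 3) (.e (nat_lit 98363) (nat_lit 26) (.e (nat_lit 426228) (nat_lit 9) (.e (nat_lit 426565) (nat_lit 34) .nil))))) .nil)) 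
(.lf (nat_lit 116971) (.g (nat_lit 1781) (.e (nat_lit 5949) (nat_lit 322) (.e (nat_lit 57378) (nat_lit 3) (.e (nat_lit 98365) (nat_lit 26) (.e (nat_lit 426188) (nat_lit 9) (.e (nat_lit 426566) (nat_lit 34) .nil))))) .nil))) (.nd (nat_lit 5) 
(.lf (nat_lit 116955) (.g (nat_lit 2861) (.e (nat_lit 5949) (nat_lit 322) (.e (nat_lit 57378) (nat_lit 3) (.e (nat_lit 98365) (nat_lit 26) (.e (nat_lit 426187) (nat_lit 9) (.e (nat_lit 426566) (nat_lit 34) (.e (nat_lit 393232) (nat_lit 17) (.e (nat_lit 2486) (nat_lit 157) .nil))))))) (.g (nat_lit 5) .nil .nil))) 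
(.lf (nat_lit 116987) (.g (nat_lit 2754) (.e (nat_lit 5949) (nat_lit 322) (.e (nat_lit 57378) (nat_lit 3) (.e (nat_lit 98366) (nat_lit 27) (.e (nat_lit 434244) (nat_lit 28) (.e (nat_lit 573481) (nat_lit 13) (.e (nat_lit 73472) (nat_lit 18) (.e (nat_lit 204821) (nat_lit 17) (.e (nat_lit 1086) (nat_lit 81) .nil)))))))) (.g (nat_lit 4) .nil .nil)))))) 
(.nd (nat_lit 3) (.nd (nat_lit 4) (.nd (nat_lit 5) 
(.lf (nat_lit 116935) (.g (nat_lit 1671) (.e (nat_lit 5949) (nat_lit 322) (.e (nat_lit 57377) (nat_lit 3) (.e (nat_lit 98365) (nat_lit 26) (.e (nat_lit 426187) (nat_lit 9) (.e (nat_lit 426568) (nat_lit 34) .nil))))) .nil)) 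
(.lf (nat_lit 116967) (.g (nat_lit 3469) (.e (nat_lit 5949) (nat_lit 322) (.e (nat_lit 57378) (nat_lit 3) (.e (nat_lit 98365) (nat_lit 26) (.e (nat_lit 426188) (nat_lit 9) (.e (nat_lit 426479) (nat_lit 27) (.e (nat_lit 336421) (nat_lit 28) (.e (nat_lit 434216) (nat_lit 18) .nil))))))) (.g (nat_lit 0) .nil .nil)))) (.nd (nat_lit 5) 
(.lf (nat_lit 116951) (.g (nat_lit 1476) (.e (nat_lit 5949) (nat_lit 322) (.e (nat_lit 57378) (nat_lit 3) (.e (nat_lit 98365) (nat_lit 26) (.e (nat_lit 426187) (nat_lit 9) (.e (nat_lit 426566) (nat_lit 34) .nil))))) .nil)) 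
(.lf (nat_lit 116983) (.g (nat_lit 2941) (.e (nat_lit 5949) (nat_lit 322) (.e (nat_lit 57378) (nat_lit 3) (.e (nat_lit 98365) (nat_lit 26) (.e (nat_lit 426188) (nat_lit 9) (.e (nat_lit 426567) (nat_lit 34) (.e (nat_lit 393234) (nat_lit 17) (.e (nat_lit 2485) (nat_lit 157) .nil))))))) (.g (nat_lit 5) .nil .nil))))) (.nd (nat_lit 4) (.nd (nat_lit 5) 
(.lf (nat_lit 116943) (.g (nat_lit 2374) (.e (nat_lit 5949) (nat_lit 322) (.e (nat_lit 57378) (nat_lit 3) (.e (nat_lit 98363) (nat_lit 26) (.e (nat_lit 426230) (nat_lit 9) (.e (nat_lit 426565) (nat_lit 34) (.e (nat_lit 393232) (nat_lit 17) (.e (nat_lit 2504) (nat_lit 157) .nil))))))) (.g (nat_lit 6) .nil .nil))) 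
(.lf (nat_lit 116975) (.g (nat_lit 3990) (.e (nat_lit 5949) (nat_lit 322) (.e (nat_lit 57378) (nat_lit 3) (.e (nat_lit 98365) (nat_lit 26) (.e (nat_lit 426188) (nat_lit 9) (.e (nat_lit 426566) (nat_lit 34) (.e (nat_lit 393232) (nat_lit 17) (.e (nat_lit 2504) (nat_lit 157) .nil))))))) (.g (nat_lit 6) .nil .nil)))) (.nd (nat_lit 5) 
(.lf (nat_lit 116959) (.g (nat_lit 2596) (.e (nat_lit 5949) (nat_lit 322) (.e (nat_lit 57378) (nat_lit 3) (.e (nat_lit 98365) (nat_lit 26) (.e (nat_lit 426187) (nat_lit 9) (.e (nat_lit 426566) (nat_lit 34) (.e (nat_lit 393233) (nat_lit 17) (.e (nat_lit 2504) (nat_lit 157) .nil))))))) (.g (nat_lit 5) .nil .nil))) 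
(.lf (nat_lit 116991) (.g (nat_lit 3531) (.e (nat_lit 5949) (nat_lit 322) (.e (nat_lit 57378) (nat_lit 3) (.e (nat_lit 98368) (nat_lit 27) (.e (nat_lit 434248) (nat_lit 28) (.e (nat_lit 573482) (nat_lit 13) (.e (nat_lit 73472) (nat_lit 18) (.e (nat_lit 204821) (nat_lit 17) (.e (nat_lit 1086) (nat_lit 81) .nil)))))))) (.g (nat_lit 5) .nil .nil)))))))))

noncomputable def tv1571 : DT := (.nd (nat_lit 0) (.nd (nat_lit 1) (.nd (nat_lit 2) (.nd (nat_lit 3) (.nd (nat_lit 4) (.nd (nat_lit 5) 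
(.lf (nat_lit 116992) (.g (nat_lit 1012) (.e (nat_lit 5949) (nat_lit 322) (.e (nat_lit 57378) (nat_lit 3) (.e (nat_lit 98369) (nat_lit 28) (.e (nat_lit 450304) (nat_lit 18) .nil)))) .nil)) 
(.lf (nat_lit 117024) (.g (nat_lit 2204) (.e (nat_lit 5949) (nat_lit 322) (.e (nat_lit 57399) (nat_lit 10) (.e (nat_lit 319530) (nat_lit 16) (.e (nat_lit 286761) (nat_lit 13) (.e (nat_lit 393264) (nat_lit 22) (.e (nat_lit 417794) (nat_lit 0) (.e (nat_lit 52) (nat_lit 0) .nil))))))) (.g (nat_lit 7) .nil .nil)))) (.nd (nat_lit 5) 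
(.lf (nat_lit 117008) (.g (nat_lit 1634) (.e (nat_lit 5949) (nat_lit 322) (.e (nat_lit 57378) (nat_lit 3) (.e (nat_lit 98376) (nat_lit 30) (.e (nat_lit 458789) (nat_lit 23) (.e (nat_lit 532515) (nat_lit 3) (.e (nat_lit 114716) (nat_lit 22) (.e (nat_lit 90181) (nat_lit 16) (.e (nat_lit 229381) (nat_lit 0) .nil)))))))) (.g (nat_lit 4) .nil .nil))) 
(.lf (nat_lit 117040) (.g (nat_lit 1527) (.e (nat_lit 5949) (nat_lit 322) (.e (nat_lit 57400) (nat_lit 10) (.e (nat_lit 319528) (nat_lit 16) (.e (nat_lit 286761) (nat_lit 13) (.e (nat_lit 393264) (nat_lit 22) (.e (nat_lit 417795) (nat_lit 0) (.e (nat_lit 67) (nat_lit 0) .nil))))))) (.g (nat_lit 4) .nil .nil))))) (.nd (nat_lit 4) (.nd (nat_lit 5) 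
(.lf (nat_lit 117000) (.g (nat_lit 3954) (.e (nat_lit 5949) (nat_lit 322) (.e (nat_lit 57378) (nat_lit 3) (.e (nat_lit 98373) (nat_lit 29) (.e (nat_lit 450563) (nat_lit 0) (.e (nat_lit 6595) (nat_lit 351) .nil))))) .nil)) 
(.lf (nat_lit 117032) (.g (nat_lit 1855) (.e (nat_lit 5949) (nat_lit 322) (.e (nat_lit 57399) (nat_lit 10) (.e (nat_lit 319531) (nat_lit 16) (.e (nat_lit 286761) (nat_lit 13) (.e (nat_lit 393289) (nat_lit 25) (.e (nat_lit 466688) (nat_lit 18) .nil)))))) (.g (nat_lit 4) .nil .nil)))) (.nd (nat_lit 5) 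
(.lf (nat_lit 117016) (.g (nat_lit 549) (.e (nat_lit 5949) (nat_lit 322) (.e (nat_lit 57388) (nat_lit 5) (.e (nat_lit 114721) (nat_lit 24) .nil))) .nil)) 
(.lf (nat_lit 117048) (.g (nat_lit 1608) (.e (nat_lit 5949) (nat_lit 322) (.e (nat_lit 57400) (nat_lit 10) (.e (nat_lit 319529) (nat_lit 16) (.e (nat_lit 286761) (nat_lit 13) (.e (nat_lit 393265) (nat_lit 22) (.e (nat_lit 417793) (nat_lit 0) (.e (nat_lit 52) (nat_lit 0) .nil))))))) (.g (nat_lit 4) .nil .nil)))))) (.nd (nat_lit 3) (.nd (nat_lit 4) (.nd (nat_lit 5) 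
(.lf (nat_lit 116996) (.g (nat_lit 1609) (.e (nat_lit 5949) (nat_lit 322) (.e (nat_lit 57378) (nat_lit 3) (.e (nat_lit 98372) (nat_lit 29) (.e (nat_lit 450603) (nat_lit 22) .nil)))) .nil)) 
(.lf (nat_lit 117028) (.g (nat_lit 2122) (.e (nat_lit 5949) (nat_lit 322) (.e (nat_lit 57399) (nat_lit 10) (.e (nat_lit 319531) (nat_lit 16) (.e (nat_lit 286743) (nat_lit 9) (.e (nat_lit 336432) (nat_lit 30) (.e (nat_lit 450569) (nat_lit 0) .nil)))))) (.g (nat_lit 5) .nil .nil)))) (.nd (nat_lit 5) 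
(.lf (nat_lit 117012) (.g (nat_lit 2091) (.e (nat_lit 5949) (nat_lit 322) (.e (nat_lit 57378) (nat_lit 3) (.e (nat_lit 98380) (nat_lit 31) (.e (nat_lit 474880) (nat_lit 18) (.e (nat_lit 393234) (nat_lit 17) (.e (nat_lit 2485) (nat_lit 157) .nil)))))) (.g (nat_lit 5) .nil .nil))) 
(.lf (nat_lit 117044) (.g (nat_lit 2255) (.e (nat_lit 5949) (nat_lit 322) (.e (nat_lit 57400) (nat_lit 10) (.e (nat_lit 319529) (nat_lit 16) (.e (nat_lit 286743) (nat_lit 9) (.e (nat_lit 336432) (nat_lit 30) (.e (nat_lit 450569) (nat_lit 0) .nil)))))) (.g (nat_lit 0) .nil .nil))))) (.nd (nat_lit 4) (.nd (nat_lit 5) 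
(.lf (nat_lit 117004) (.g (nat_lit 2926) (.e (nat_lit 5949) (nat_lit 322) (.e (nat_lit 57378) (nat_lit 3) (.e (nat_lit 98373) (nat_lit 29) (.e (nat_lit 450603) (nat_lit 22) (.e (nat_lit 712448) (nat_lit 5) (.e (nat_lit 180233) (nat_lit 0) .nil)))))) (.g (nat_lit 4) .nil .nil))) 
(.lf (nat_lit 117036) (.g (nat_lit 2633) (.e (nat_lit 5949) (nat_lit 322) (.e (nat_lit 57400) (nat_lit 10) (.e (nat_lit 319528) (nat_lit 16) (.e (nat_lit 286761) (nat_lit 13) (.e (nat_lit 393234) (nat_lit 17) (.e (nat_lit 7065) (nat_lit 377) (.e (nat_lit 1014) (nat_lit 81) (.e (nat_lit 52) (nat_lit 0) .nil)))))))) (.g (nat_lit 6) .nil .nil)))) (.nd (nat_lit 5) 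
(.lf (nat_lit 117020) (.g (nat_lit 4565) (.e (nat_lit 5949) (nat_lit 322) (.e (nat_lit 57389) (nat_lit 5) (.e (nat_lit 114723) (nat_lit 24) (.e (nat_lit 106535) (nat_lit 11) (.e (nat_lit 16473) (nat_lit 14) (.e (nat_lit 491560) (nat_lit 10) (.e (nat_lit 344103) (nat_lit 18) .nil))))))) (.g (nat_lit 0) .nil .nil))) 
(.lf (nat_lit 117052) (.g (nat_lit 1700) (.e (nat_lit 5949) (nat_lit 322) (.e (nat_lit 57400) (nat_lit 10) (.e (nat_lit 319530) (nat_lit 16) (.e (nat_lit 286743) (nat_lit 9) (.e (nat_lit 336434) (nat_lit 30) .nil))))) .nil)))))) (.nd (nat_lit 2) (.nd (nat_lit 3) (.nd (nat_lit 4) (.nd (nat_lit 5) 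
(.lf (nat_lit 116994) (.g (nat_lit 2128) (.e (nat_lit 5949) (nat_lit 322) (.e (nat_lit 57378) (nat_lit 3) (.e (nat_lit 98372) (nat_lit 29) (.e (nat_lit 450561) (nat_lit 0) (.e (nat_lit 6595) (nat_lit 351) .nil))))) .nil)) 
(.lf (nat_lit 117026) (.g (nat_lit 2138) (.e (nat_lit 5949) (nat_lit 322) (.e (nat_lit 57399) (nat_lit 10) (.e (nat_lit 319530) (nat_lit 16) (.e (nat_lit 286761) (nat_lit 13) (.e (nat_lit 393289) (nat_lit 25) (.e (nat_lit 458776) (nat_lit 18) .nil)))))) (.g (nat_lit 5) .nil .nil)))) (.nd (nat_lit 5) 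
(.lf (nat_lit 117010) (.g (nat_lit 1859) (.e (nat_lit 5949) (nat_lit 322) (.e (nat_lit 57378) (nat_lit 3) (.e (nat_lit 98377) (nat_lit 30) (.e (nat_lit 458789) (nat_lit 23) (.e (nat_lit 532515) (nat_lit 3) (.e (nat_lit 114716) (nat_lit 22) (.e (nat_lit 90181) (nat_lit 16) (.e (nat_lit 229381) (nat_lit 0) .nil)))))))) (.g (nat_lit 4) .nil .nil))) 
(.lf (nat_lit 117042) (.g (nat_lit 1928) (.e (nat_lit 5949) (nat_lit 322) (.e (nat_lit 57400) (nat_lit 10) (.e (nat_lit 319528) (nat_lit 16) (.e (nat_lit 286761) (nat_lit 13) (.e (nat_lit 393289) (nat_lit 25) (.e (nat_lit 458776) (nat_lit 18) .nil)))))) (.g (nat_lit 5) .nil .nil))))) (.nd (nat_lit 4) (.nd (nat_lit 5) 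
(.lf (nat_lit 117002) (.g (nat_lit 1955) (.e (nat_lit 5949) (nat_lit 322) (.e (nat_lit 57378) (nat_lit 3) (.e (nat_lit 98373) (nat_lit 29) (.e (nat_lit 450602) (nat_lit 22) .nil)))) .nil)) 
(.lf (nat_lit 117034) (.g (nat_lit 1353) (.e (nat_lit 5949) (nat_lit 322) (.e (nat_lit 57400) (nat_lit 10) (.e (nat_lit 319528) (nat_lit 16) (.e (nat_lit 286743) (nat_lit 9) (.e (nat_lit 336433) (nat_lit 30) (.e (nat_lit 450569) (nat_lit 0) .nil)))))) (.g (nat_lit 4) .nil .nil)))) (.nd (nat_lit 5) 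
(.lf (nat_lit 117018) (.g (nat_lit 5069) (.e (nat_lit 5949) (nat_lit 322) (.e (nat_lit 57388) (nat_lit 5) (.e (nat_lit 114721) (nat_lit 24) (.e (nat_lit 106536) (nat_lit 11) (.e (nat_lit 16473) (nat_lit 14) (.e (nat_lit 491560) (nat_lit 10) (.e (nat_lit 344103) (nat_lit 18) .nil))))))) (.g (nat_lit 7) .nil .nil))) 
(.lf (nat_lit 117050) (.g (nat_lit 1662) (.e (nat_lit 5949) (nat_lit 322) (.e (nat_lit 57400) (nat_lit 10) (.e (nat_lit 319529) (nat_lit 16) (.e (nat_lit 286761) (nat_lit 13) (.e (nat_lit 393289) (nat_lit 25) (.e (nat_lit 466688) (nat_lit 18) .nil)))))) (.g (nat_lit 4) .nil .nil)))))) (.nd (nat_lit 3) (.nd (nat_lit 4) (.nd (nat_lit 5) 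
(.lf (nat_lit 116998) (.g (nat_lit 3893) (.e (nat_lit 5949) (nat_lit 322) (.e (nat_lit 57378) (nat_lit 3) (.e (nat_lit 98373) (nat_lit 29) (.e (nat_lit 450562) (nat_lit 0) (.e (nat_lit 6595) (nat_lit 351) .nil))))) .nil)) 
(.lf (nat_lit 117030) (.g (nat_lit 1884) (.e (nat_lit 5949) (nat_lit 322) (.e (nat_lit 57399) (nat_lit 10) (.e (nat_lit 319531) (nat_lit 16) (.e (nat_lit 286761) (nat_lit 13) (.e (nat_lit 393264) (nat_lit 22) (.e (nat_lit 417795) (nat_lit 0) (.e (nat_lit 63) (nat_lit 0) .nil))))))) (.g (nat_lit 4) .nil .nil)))) (.nd (nat_lit 5) 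
(.lf (nat_lit 117014) (.g (nat_lit 2128) (.e (nat_lit 5949) (nat_lit 322) (.e (nat_lit 57378) (nat_lit 3) (.e (nat_lit 98381) (nat_lit 31) (.e (nat_lit 474880) (nat_lit 18) (.e (nat_lit 393234) (nat_lit 17) (.e (nat_lit 2485) (nat_lit 157) .nil)))))) (.g (nat_lit 5) .nil .nil))) 
(.lf (nat_lit 117046) (.g (nat_lit 1428) (.e (nat_lit 5949) (nat_lit 322) (.e (nat_lit 57400) (nat_lit 10) (.e (nat_lit 319529) (nat_lit 16) (.e (nat_lit 286743) (nat_lit 9) (.e (nat_lit 336434) (nat_lit 30) (.e (nat_lit 450568) (nat_lit 0) .nil)))))) (.g (nat_lit 4) .nil .nil))))) (.nd (nat_lit 4) (.nd (nat_lit 5) 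
(.lf (nat_lit 117006) (.g (nat_lit 685) (.e (nat_lit 5949) (nat_lit 322) (.e (nat_lit 57378) (nat_lit 3) (.e (nat_lit 98374) (nat_lit 29) .nil))) .nil)) 
(.lf (nat_lit 117038) (.g (nat_lit 1305) (.e (nat_lit 5949) (nat_lit 322) (.e (nat_lit 57400) (nat_lit 10) (.e (nat_lit 319528) (nat_lit 16) (.e (nat_lit 286761) (nat_lit 13) (.e (nat_lit 393264) (nat_lit 22) .nil))))) .nil))) (.nd (nat_lit 5) 
(.lf (nat_lit 117022) (.g (nat_lit 3283) (.e (nat_lit 5949) (nat_lit 322) (.e (nat_lit 57399) (nat_lit 10) (.e (nat_lit 319530) (nat_lit 16) (.e (nat_lit 286761) (nat_lit 13) (.e (nat_lit 393234) (nat_lit 17) (.e (nat_lit 7065) (nat_lit 377) (.e (nat_lit 1015) (nat_lit 81) (.e (nat_lit 52) (nat_lit 0) .nil)))))))) (.g (nat_lit 8) .nil .nil))) 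
(.lf (nat_lit 117054) (.g (nat_lit 1554) (.e (nat_lit 5949) (nat_lit 322) (.e (nat_lit 57400) (nat_lit 10) (.e (nat_lit 319530) (nat_lit 16) (.e (nat_lit 286761) (nat_lit 13) (.e (nat_lit 393264) (nat_lit 22) .nil))))) .nil))))))) (.nd (nat_lit 1) (.nd (nat_lit 2) (.nd (nat_lit 3) (.nd (nat_lit 4) (.nd (nat_lit 5) 
(.lf (nat_lit 116993) (.g (nat_lit 1223) (.e (nat_lit 5949) (nat_lit 322) (.e (nat_lit 57378) (nat_lit 3) (.e (nat_lit 98370) (nat_lit 28) (.e (nat_lit 450304) (nat_lit 18) .nil)))) .nil)) 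
(.lf (nat_lit 117025) (.g (nat_lit 2072) (.e (nat_lit 5949) (nat_lit 322) (.e (nat_lit 57399) (nat_lit 10) (.e (nat_lit 319530) (nat_lit 16) (.e (nat_lit 286761) (nat_lit 13) (.e (nat_lit 393264) (nat_lit 22) (.e (nat_lit 417795) (nat_lit 0) (.e (nat_lit 63) (nat_lit 0) .nil))))))) (.g (nat_lit 6) .nil .nil)))) (.nd (nat_lit 5) 
(.lf (nat_lit 117009) (.g (nat_lit 2328) (.e (nat_lit 5949) (nat_lit 322) (.e (nat_lit 57378) (nat_lit 3) (.e (nat_lit 98377) (nat_lit 30) (.e (nat_lit 458789) (nat_lit 23) (.e (nat_lit 532515) (nat_lit 3) (.e (nat_lit 114715) (nat_lit 22) (.e (nat_lit 90165) (nat_lit 12) (.e (nat_lit 163857) (nat_lit 0) .nil)))))))) (.g (nat_lit 4) .nil .nil))) 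
(.lf (nat_lit 117041) (.g (nat_lit 1916) (.e (nat_lit 5949) (nat_lit 322) (.e (nat_lit 57400) (nat_lit 10) (.e (nat_lit 319528) (nat_lit 16) (.e (nat_lit 286761) (nat_lit 13) (.e (nat_lit 393264) (nat_lit 22) (.e (nat_lit 417800) (nat_lit 0) (.e (nat_lit 48) (nat_lit 0) .nil))))))) (.g (nat_lit 5) .nil .nil))))) (.nd (nat_lit 4) (.nd (nat_lit 5) 
(.lf (nat_lit 117001) (.g (nat_lit 4103) (.e (nat_lit 5949) (nat_lit 322) (.e (nat_lit 57378) (nat_lit 3) (.e (nat_lit 98373) (nat_lit 29) (.e (nat_lit 450563) (nat_lit 0) (.e (nat_lit 6595) (nat_lit 351) (.e (nat_lit 2638) (nat_lit 165) (.e (nat_lit 180232) (nat_lit 0) .nil))))))) (.g (nat_lit 4) .nil .nil))) 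
(.lf (nat_lit 117033) (.g (nat_lit 2139) (.e (nat_lit 5949) (nat_lit 322) (.e (nat_lit 57400) (nat_lit 10) (.e (nat_lit 319528) (nat_lit 16) (.e (nat_lit 286743) (nat_lit 9) (.e (nat_lit 336432) (nat_lit 30) (.e (nat_lit 450569) (nat_lit 0) .nil)))))) (.g (nat_lit 0) .nil .nil)))) (.nd (nat_lit 5) 
(.lf (nat_lit 117017) (.g (nat_lit 3834) (.e (nat_lit 5949) (nat_lit 322) (.e (nat_lit 57388) (nat_lit 5) (.e (nat_lit 114721) (nat_lit 24) (.e (nat_lit 106534) (nat_lit 11) (.e (nat_lit 16473) (nat_lit 14) (.e (nat_lit 491560) (nat_lit 10) (.e (nat_lit 344103) (nat_lit 18) .nil))))))) (.g (nat_lit 6) .nil .nil))) 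
(.lf (nat_lit 117049) (.g (nat_lit 1639) (.e (nat_lit 5949) (nat_lit 322) (.e (nat_lit 57400) (nat_lit 10) (.e (nat_lit 319529) (nat_lit 16) (.e (nat_lit 286761) (nat_lit 13) (.e (nat_lit 393289) (nat_lit 25) (.e (nat_lit 458776) (nat_lit 18) .nil)))))) (.g (nat_lit 4) .nil .nil)))))) (.nd (nat_lit 3) (.nd (nat_lit 4) (.nd (nat_lit 5) 
(.lf (nat_lit 116997) (.g (nat_lit 3399) (.e (nat_lit 5949) (nat_lit 322) (.e (nat_lit 57378) (nat_lit 3) (.e (nat_lit 98373) (nat_lit 29) (.e (nat_lit 450561) (nat_lit 0) (.e (nat_lit 6595) (nat_lit 351) (.e (nat_lit 2638) (nat_lit 165) (.e (nat_lit 180233) (nat_lit 0) .nil))))))) (.g (nat_lit 4) .nil .nil))) 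
(.lf (nat_lit 117029) (.g (nat_lit 3066) (.e (nat_lit 5949) (nat_lit 322) (.e (nat_lit 57399) (nat_lit 10) (.e (nat_lit 319531) (nat_lit 16) (.e (nat_lit 286761) (nat_lit 13) (.e (nat_lit 393234) (nat_lit 17) (.e (nat_lit 7065) (nat_lit 377) (.e (nat_lit 1015) (nat_lit 81) (.e (nat_lit 52) (nat_lit 0) .nil)))))))) (.g (nat_lit 6) .nil .nil)))) (.nd (nat_lit 5) 
(.lf (nat_lit 117013) (.g (nat_lit 637) (.e (nat_lit 5949) (nat_lit 322) (.e (nat_lit 57378) (nat_lit 3) (.e (nat_lit 98381) (nat_lit 31) .nil))) .nil)) 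
(.lf (nat_lit 117045) (.g (nat_lit 1459) (.e (nat_lit 5949) (nat_lit 322) (.e (nat_lit 57400) (nat_lit 10) (.e (nat_lit 319529) (nat_lit 16) (.e (nat_lit 286743) (nat_lit 9) (.e (nat_lit 336433) (nat_lit 30) (.e (nat_lit 450569) (nat_lit 0) .nil)))))) (.g (nat_lit 4) .nil .nil))))) (.nd (nat_lit 4) (.nd (nat_lit 5) 
(.lf (nat_lit 117005) (.g (nat_lit 2986) (.e (nat_lit 5949) (nat_lit 322) (.e (nat_lit 57378) (nat_lit 3) (.e (nat_lit 98373) (nat_lit 29) (.e (nat_lit 450604) (nat_lit 22) (.e (nat_lit 712448) (nat_lit 5) .nil))))) .nil)) 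
(.lf (nat_lit 117037) (.g (nat_lit 2973) (.e (nat_lit 5949) (nat_lit 322) (.e (nat_lit 57400) (nat_lit 10) (.e (nat_lit 319528) (nat_lit 16) (.e (nat_lit 286761) (nat_lit 13) (.e (nat_lit 393234) (nat_lit 17) (.e (nat_lit 7065) (nat_lit 377) (.e (nat_lit 1015) (nat_lit 81) (.e (nat_lit 52) (nat_lit 0) .nil)))))))) (.g (nat_lit 6) .nil .nil)))) (.nd (nat_lit 5) 
(.lf (nat_lit 117021) (.g (nat_lit 4916) (.e (nat_lit 5949) (nat_lit 322) (.e (nat_lit 57389) (nat_lit 5) (.e (nat_lit 114723) (nat_lit 24) (.e (nat_lit 106536) (nat_lit 11) (.e (nat_lit 16473) (nat_lit 14) (.e (nat_lit 491560) (nat_lit 10) (.e (nat_lit 344103) (nat_lit 18) .nil))))))) (.g (nat_lit 0) .nil .nil))) 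
(.lf (nat_lit 117053) (.g (nat_lit 3497) (.e (nat_lit 5949) (nat_lit 322) (.e (nat_lit 57400) (nat_lit 10) (.e (nat_lit 319530) (nat_lit 16) (.e (nat_lit 286761) (nat_lit 13) (.e (nat_lit 393234) (nat_lit 17) (.e (nat_lit 7065) (nat_lit 377) (.e (nat_lit 1015) (nat_lit 81) (.e (nat_lit 52) (nat_lit 0) .nil)))))))) (.g (nat_lit 8) .nil .nil))))))) 
(.nd (nat_lit 2) (.nd (nat_lit 3) (.nd (nat_lit 4) (.nd (nat_lit 5) 
(.lf (nat_lit 116995) (.g (nat_lit 1589) (.e (nat_lit 5949) (nat_lit 322) (.e (nat_lit 57378) (nat_lit 3) (.e (nat_lit 98372) (nat_lit 29) (.e (nat_lit 450602) (nat_lit 22) .nil)))) .nil)) 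
(.lf (nat_lit 117027) (.g (nat_lit 2058) (.e (nat_lit 5949) (nat_lit 322) (.e (nat_lit 57399) (nat_lit 10) (.e (nat_lit 319530) (nat_lit 16) (.e (nat_lit 286761) (nat_lit 13) (.e (nat_lit 393289) (nat_lit 25) (.e (nat_lit 466688) (nat_lit 18) .nil)))))) (.g (nat_lit 5) .nil .nil)))) (.nd (nat_lit 5) 
(.lf (nat_lit 117011) (.g (nat_lit 677) (.e (nat_lit 5949) (nat_lit 322) (.e (nat_lit 57378) (nat_lit 3) (.e (nat_lit 98380) (nat_lit 31) .nil))) .nil)) 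
(.lf (nat_lit 117043) (.g (nat_lit 1985) (.e (nat_lit 5949) (nat_lit 322) (.e (nat_lit 57400) (nat_lit 10) (.e (nat_lit 319528) (nat_lit 16) (.e (nat_lit 286761) (nat_lit 13) (.e (nat_lit 393289) (nat_lit 25) (.e (nat_lit 466688) (nat_lit 18) .nil)))))) (.g (nat_lit 5) .nil .nil))))) (.nd (nat_lit 4) (.nd (nat_lit 5) 
(.lf (nat_lit 117003) (.g (nat_lit 2631) (.e (nat_lit 5949) (nat_lit 322) (.e (nat_lit 57378) (nat_lit 3) (.e (nat_lit 98373) (nat_lit 29) (.e (nat_lit 450602) (nat_lit 22) (.e (nat_lit 712448) (nat_lit 5) .nil))))) .nil)) 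
(.lf (nat_lit 117035) (.g (nat_lit 1523) (.e (nat_lit 5949) (nat_lit 322) (.e (nat_lit 57400) (nat_lit 10) (.e (nat_lit 319528) (nat_lit 16) (.e (nat_lit 286743) (nat_lit 9) (.e (nat_lit 336434) (nat_lit 30) (.e (nat_lit 450568) (nat_lit 0) .nil)))))) (.g (nat_lit 4) .nil .nil)))) (.nd (nat_lit 5) 
(.lf (nat_lit 117019) (.g (nat_lit 4214) (.e (nat_lit 5949) (nat_lit 322) (.e (nat_lit 57389) (nat_lit 5) (.e (nat_lit 114723) (nat_lit 24) (.e (nat_lit 106534) (nat_lit 11) (.e (nat_lit 16473) (nat_lit 14) (.e (nat_lit 491560) (nat_lit 10) (.e (nat_lit 344103) (nat_lit 18) .nil))))))) (.g (nat_lit 7) .nil .nil))) 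
(.lf (nat_lit 117051) (.g (nat_lit 1586) (.e (nat_lit 5949) (nat_lit 322) (.e (nat_lit 57400) (nat_lit 10) (.e (nat_lit 319530) (nat_lit 16) (.e (nat_lit 286743) (nat_lit 9) (.e (nat_lit 336433) (nat_lit 30) .nil))))) .nil))))) (.nd (nat_lit 3) (.nd (nat_lit 4) (.nd (nat_lit 5) 
(.lf (nat_lit 116999) (.g (nat_lit 4296) (.e (nat_lit 5949) (nat_lit 322) (.e (nat_lit 57378) (nat_lit 3) (.e (nat_lit 98373) (nat_lit 29) (.e (nat_lit 450562) (nat_lit 0) (.e (nat_lit 6595) (nat_lit 351) (.e (nat_lit 2638) (nat_lit 165) (.e (nat_lit 180232) (nat_lit 0) .nil))))))) (.g (nat_lit 4) .nil .nil))) 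
(.lf (nat_lit 117031) (.g (nat_lit 1906) (.e (nat_lit 5949) (nat_lit 322) (.e (nat_lit 57399) (nat_lit 10) (.e (nat_lit 319531) (nat_lit 16) (.e (nat_lit 286761) (nat_lit 13) (.e (nat_lit 393264) (nat_lit 22) (.e (nat_lit 417800) (nat_lit 0) (.e (nat_lit 48) (nat_lit 0) .nil))))))) (.g (nat_lit 4) .nil .nil)))) (.nd (nat_lit 5) 
(.lf (nat_lit 117015) (.g (nat_lit 2239) (.e (nat_lit 5949) (nat_lit 322) (.e (nat_lit 57378) (nat_lit 3) (.e (nat_lit 98381) (nat_lit 31) (.e (nat_lit 474880) (nat_lit 18) (.e (nat_lit 393234) (nat_lit 17) (.e (nat_lit 2504) (nat_lit 157) .nil)))))) (.g (nat_lit 5) .nil .nil))) 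
(.lf (nat_lit 117047) (.g (nat_lit 2240) (.e (nat_lit 5949) (nat_lit 322) (.e (nat_lit 57400) (nat_lit 10) (.e (nat_lit 319529) (nat_lit 16) (.e (nat_lit 286761) (nat_lit 13) (.e (nat_lit 393265) (nat_lit 22) (.e (nat_lit 417792) (nat_lit 0) (.e (nat_lit 67) (nat_lit 0) .nil))))))) (.g (nat_lit 5) .nil .nil))))) (.nd (nat_lit 4) (.nd (nat_lit 5) 
(.lf (nat_lit 117007) (.g (nat_lit 2106) (.e (nat_lit 5949) (nat_lit 322) (.e (nat_lit 57378) (nat_lit 3) (.e (nat_lit 98376) (nat_lit 30) (.e (nat_lit 458789) (nat_lit 23) (.e (nat_lit 532515) (nat_lit 3) (.e (nat_lit 114715) (nat_lit 22) (.e (nat_lit 90165) (nat_lit 12) (.e (nat_lit 163857) (nat_lit 0) .nil)))))))) (.g (nat_lit 4) .nil .nil))) 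
(.lf (nat_lit 117039) (.g (nat_lit 1971) (.e (nat_lit 5949) (nat_lit 322) (.e (nat_lit 57400) (nat_lit 10) (.e (nat_lit 319528) (nat_lit 16) (.e (nat_lit 286761) (nat_lit 13) (.e (nat_lit 393264) (nat_lit 22) (.e (nat_lit 417792) (nat_lit 0) (.e (nat_lit 67) (nat_lit 0) .nil))))))) (.g (nat_lit 5) .nil .nil)))) (.nd (nat_lit 5) 
(.lf (nat_lit 117023) (.g (nat_lit 2171) (.e (nat_lit 5949) (nat_lit 322) (.e (nat_lit 57399) (nat_lit 10) (.e (nat_lit 319530) (nat_lit 16) (.e (nat_lit 286761) (nat_lit 13) (.e (nat_lit 393264) (nat_lit 22) (.e (nat_lit 417792) (nat_lit 0) (.e (nat_lit 67) (nat_lit 0) .nil))))))) (.g (nat_lit 7) .nil .nil))) 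
(.lf (nat_lit 117055) (.g (nat_lit 2285) (.e (nat_lit 5949) (nat_lit 322) (.e (nat_lit 57400) (nat_lit 10) (.e (nat_lit 319530) (nat_lit 16) (.e (nat_lit 286761) (nat_lit 13) (.e (nat_lit 393264) (nat_lit 22) (.e (nat_lit 417795) (nat_lit 0) (.e (nat_lit 63) (nat_lit 0) .nil))))))) (.g (nat_lit 6) .nil .nil)))))))))

noncomputable def tv1572 : DT := (.nd (nat_lit 0) (.nd (nat_lit 1) (.nd (nat_lit 2) (.nd (nat_lit 3) (.nd (nat_lit 4) (.nd (nat_lit 5) 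
(.lf (nat_lit 117056) (.g (nat_lit 1898) (.e (nat_lit 5949) (nat_lit 322) (.e (nat_lit 57400) (nat_lit 10) (.e (nat_lit 319530) (nat_lit 16) (.e (nat_lit 286761) (nat_lit 13) (.e (nat_lit 393264) (nat_lit 22) (.e (nat_lit 417795) (nat_lit 0) (.e (nat_lit 67) (nat_lit 0) .nil))))))) (.g (nat_lit 4) .nil .nil))) 
(.lf (nat_lit 117088) (.g (nat_lit 1999) (.e (nat_lit 5949) (nat_lit 322) (.e (nat_lit 57400) (nat_lit 10) (.e (nat_lit 319533) (nat_lit 16) (.e (nat_lit 286760) (nat_lit 13) (.e (nat_lit 393289) (nat_lit 25) (.e (nat_lit 466688) (nat_lit 18) .nil)))))) (.g (nat_lit 4) .nil .nil)))) (.nd (nat_lit 5) 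
(.lf (nat_lit 117072) (.g (nat_lit 1909) (.e (nat_lit 5949) (nat_lit 322) (.e (nat_lit 57400) (nat_lit 10) (.e (nat_lit 319532) (nat_lit 16) (.e (nat_lit 286761) (nat_lit 13) (.e (nat_lit 393264) (nat_lit 22) (.e (nat_lit 417794) (nat_lit 0) (.e (nat_lit 52) (nat_lit 0) .nil))))))) (.g (nat_lit 4) .nil .nil))) 
(.lf (nat_lit 117104) (.g (nat_lit 1752) (.e (nat_lit 5949) (nat_lit 322) (.e (nat_lit 57400) (nat_lit 10) (.e (nat_lit 319534) (nat_lit 16) (.e (nat_lit 286761) (nat_lit 13) (.e (nat_lit 393264) (nat_lit 22) .nil))))) .nil)))) (.nd (nat_lit 4) (.nd (nat_lit 5) 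
(.lf (nat_lit 117064) (.g (nat_lit 1521) (.e (nat_lit 5949) (nat_lit 322) (.e (nat_lit 57400) (nat_lit 10) (.e (nat_lit 319531) (nat_lit 16) (.e (nat_lit 286761) (nat_lit 13) (.e (nat_lit 393264) (nat_lit 22) .nil))))) .nil)) 
(.lf (nat_lit 117096) (.g (nat_lit 2744) (.e (nat_lit 5949) (nat_lit 322) (.e (nat_lit 57400) (nat_lit 10) (.e (nat_lit 319533) (nat_lit 16) (.e (nat_lit 286761) (nat_lit 13) (.e (nat_lit 393289) (nat_lit 25) (.e (nat_lit 458776) (nat_lit 18) .nil)))))) (.g (nat_lit 5) .nil .nil)))) (.nd (nat_lit 5) 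
(.lf (nat_lit 117080) (.g (nat_lit 1844) (.e (nat_lit 5949) (nat_lit 322) (.e (nat_lit 57400) (nat_lit 10) (.e (nat_lit 319533) (nat_lit 16) (.e (nat_lit 286743) (nat_lit 9) (.e (nat_lit 336433) (nat_lit 30) .nil))))) .nil)) 
(.lf (nat_lit 117112) (.g (nat_lit 2307) (.e (nat_lit 5949) (nat_lit 322) (.e (nat_lit 57404) (nat_lit 12) (.e (nat_lit 336205) (nat_lit 12) (.e (nat_lit 385106) (nat_lit 50) (.e (nat_lit 786483) (nat_lit 30) (.e (nat_lit 360456) (nat_lit 0) .nil)))))) (.g (nat_lit 5) .nil .nil)))))) (.nd (nat_lit 3) (.nd (nat_lit 4) (.nd (nat_lit 5) 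
(.lf (nat_lit 117060) (.g (nat_lit 1611) (.e (nat_lit 5949) (nat_lit 322) (.e (nat_lit 57400) (nat_lit 10) (.e (nat_lit 319531) (nat_lit 16) (.e (nat_lit 286743) (nat_lit 9) (.e (nat_lit 336433) (nat_lit 30) (.e (nat_lit 450569) (nat_lit 0) .nil)))))) (.g (nat_lit 4) .nil .nil))) 
(.lf (nat_lit 117092) (.g (nat_lit 2961) (.e (nat_lit 5949) (nat_lit 322) (.e (nat_lit 57400) (nat_lit 10) (.e (nat_lit 319533) (nat_lit 16) (.e (nat_lit 286761) (nat_lit 13) (.e (nat_lit 393264) (nat_lit 22) (.e (nat_lit 417794) (nat_lit 0) (.e (nat_lit 52) (nat_lit 0) .nil))))))) (.g (nat_lit 5) .nil .nil)))) (.nd (nat_lit 5) 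
(.lf (nat_lit 117076) (.g (nat_lit 1449) (.e (nat_lit 5949) (nat_lit 322) (.e (nat_lit 57400) (nat_lit 10) (.e (nat_lit 319533) (nat_lit 16) (.e (nat_lit 286742) (nat_lit 9) (.e (nat_lit 336433) (nat_lit 30) .nil))))) .nil)) 
(.lf (nat_lit 117108) (.g (nat_lit 2370) (.e (nat_lit 5949) (nat_lit 322) (.e (nat_lit 57400) (nat_lit 10) (.e (nat_lit 319534) (nat_lit 16) (.e (nat_lit 286761) (nat_lit 13) (.e (nat_lit 393289) (nat_lit 25) (.e (nat_lit 458776) (nat_lit 18) .nil)))))) (.g (nat_lit 5) .nil .nil))))) (.nd (nat_lit 4) (.nd (nat_lit 5) 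
(.lf (nat_lit 117068) (.g (nat_lit 2308) (.e (nat_lit 5949) (nat_lit 322) (.e (nat_lit 57400) (nat_lit 10) (.e (nat_lit 319531) (nat_lit 16) (.e (nat_lit 286761) (nat_lit 13) (.e (nat_lit 393289) (nat_lit 25) (.e (nat_lit 466688) (nat_lit 18) .nil)))))) (.g (nat_lit 5) .nil .nil))) 
(.lf (nat_lit 117100) (.g (nat_lit 1642) (.e (nat_lit 5949) (nat_lit 322) (.e (nat_lit 57400) (nat_lit 10) (.e (nat_lit 319534) (nat_lit 16) (.e (nat_lit 286743) (nat_lit 9) (.e (nat_lit 336432) (nat_lit 30) .nil))))) .nil))) (.nd (nat_lit 5) 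
(.lf (nat_lit 117084) (.g (nat_lit 1252) (.e (nat_lit 5949) (nat_lit 322) (.e (nat_lit 57400) (nat_lit 10) (.e (nat_lit 319533) (nat_lit 16) (.e (nat_lit 286760) (nat_lit 13) .nil)))) .nil)) 
(.lf (nat_lit 117116) (.g (nat_lit 2328) (.e (nat_lit 5949) (nat_lit 322) (.e (nat_lit 57406) (nat_lit 12) (.e (nat_lit 336443) (nat_lit 32) (.e (nat_lit 466977) (nat_lit 22) (.e (nat_lit 196656) (nat_lit 11) (.e (nat_lit 16388) (nat_lit 0) (.e (nat_lit 2504) (nat_lit 157) .nil))))))) (.g (nat_lit 4) .nil .nil))))))) (.nd (nat_lit 2) (.nd (nat_lit 3) (.nd (nat_lit 4) (.nd (nat_lit 5) 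
(.lf (nat_lit 117058) (.g (nat_lit 2239) (.e (nat_lit 5949) (nat_lit 322) (.e (nat_lit 57400) (nat_lit 10) (.e (nat_lit 319530) (nat_lit 16) (.e (nat_lit 286761) (nat_lit 13) (.e (nat_lit 393289) (nat_lit 25) (.e (nat_lit 466688) (nat_lit 18) .nil)))))) (.g (nat_lit 5) .nil .nil))) 
(.lf (nat_lit 117090) (.g (nat_lit 2334) (.e (nat_lit 5949) (nat_lit 322) (.e (nat_lit 57400) (nat_lit 10) (.e (nat_lit 319533) (nat_lit 16) (.e (nat_lit 286761) (nat_lit 13) (.e (nat_lit 393264) (nat_lit 22) .nil))))) .nil))) (.nd (nat_lit 5) 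
(.lf (nat_lit 117074) (.g (nat_lit 1727) (.e (nat_lit 5949) (nat_lit 322) (.e (nat_lit 57400) (nat_lit 10) (.e (nat_lit 319532) (nat_lit 16) (.e (nat_lit 286761) (nat_lit 13) (.e (nat_lit 393264) (nat_lit 22) (.e (nat_lit 417800) (nat_lit 0) (.e (nat_lit 48) (nat_lit 0) .nil))))))) (.g (nat_lit 4) .nil .nil))) 
(.lf (nat_lit 117106) (.g (nat_lit 2450) (.e (nat_lit 5949) (nat_lit 322) (.e (nat_lit 57400) (nat_lit 10) (.e (nat_lit 319534) (nat_lit 16) (.e (nat_lit 286761) (nat_lit 13) (.e (nat_lit 393264) (nat_lit 22) (.e (nat_lit 417800) (nat_lit 0) (.e (nat_lit 48) (nat_lit 0) .nil))))))) (.g (nat_lit 5) .nil .nil))))) (.nd (nat_lit 4) (.nd (nat_lit 5) 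
(.lf (nat_lit 117066) (.g (nat_lit 2370) (.e (nat_lit 5949) (nat_lit 322) (.e (nat_lit 57400) (nat_lit 10) (.e (nat_lit 319531) (nat_lit 16) (.e (nat_lit 286761) (nat_lit 13) (.e (nat_lit 393264) (nat_lit 22) (.e (nat_lit 417795) (nat_lit 0) (.e (nat_lit 63) (nat_lit 0) .nil))))))) (.g (nat_lit 6) .nil .nil))) 
(.lf (nat_lit 117098) (.g (nat_lit 1701) (.e (nat_lit 5949) (nat_lit 322) (.e (nat_lit 57400) (nat_lit 10) (.e (nat_lit 319534) (nat_lit 16) (.e (nat_lit 286742) (nat_lit 9) .nil)))) .nil))) (.nd (nat_lit 5) 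
(.lf (nat_lit 117082) (.g (nat_lit 2214) (.e (nat_lit 5949) (nat_lit 322) (.e (nat_lit 57400) (nat_lit 10) (.e (nat_lit 319533) (nat_lit 16) (.e (nat_lit 286743) (nat_lit 9) (.e (nat_lit 336434) (nat_lit 30) (.e (nat_lit 450568) (nat_lit 0) .nil)))))) (.g (nat_lit 4) .nil .nil))) 
(.lf (nat_lit 117114) (.g (nat_lit 2429) (.e (nat_lit 5949) (nat_lit 322) (.e (nat_lit 57406) (nat_lit 12) (.e (nat_lit 336443) (nat_lit 32) (.e (nat_lit 466977) (nat_lit 22) (.e (nat_lit 196653) (nat_lit 11) .nil))))) .nil))))) (.nd (nat_lit 3) (.nd (nat_lit 4) (.nd (nat_lit 5) 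
(.lf (nat_lit 117062) (.g (nat_lit 2449) (.e (nat_lit 5949) (nat_lit 322) (.e (nat_lit 57400) (nat_lit 10) (.e (nat_lit 319531) (nat_lit 16) (.e (nat_lit 286761) (nat_lit 13) (.e (nat_lit 393234) (nat_lit 17) (.e (nat_lit 7065) (nat_lit 377) (.e (nat_lit 1008) (nat_lit 81) (.e (nat_lit 52) (nat_lit 0) .nil)))))))) (.g (nat_lit 5) .nil .nil))) 
(.lf (nat_lit 117094) (.g (nat_lit 3271) (.e (nat_lit 5949) (nat_lit 322) (.e (nat_lit 57400) (nat_lit 10) (.e (nat_lit 319533) (nat_lit 16) (.e (nat_lit 286761) (nat_lit 13) (.e (nat_lit 393265) (nat_lit 22) (.e (nat_lit 417792) (nat_lit 0) (.e (nat_lit 67) (nat_lit 0) .nil))))))) (.g (nat_lit 7) .nil .nil)))) (.nd (nat_lit 5) 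
(.lf (nat_lit 117078) (.g (nat_lit 1852) (.e (nat_lit 5949) (nat_lit 322) (.e (nat_lit 57400) (nat_lit 10) (.e (nat_lit 319533) (nat_lit 16) (.e (nat_lit 286743) (nat_lit 9) (.e (nat_lit 336432) (nat_lit 30) .nil))))) .nil)) 
(.lf (nat_lit 117110) (.g (nat_lit 948) (.e (nat_lit 5949) (nat_lit 322) (.e (nat_lit 57404) (nat_lit 12) (.e (nat_lit 336193) (nat_lit 12) (.e (nat_lit 385105) (nat_lit 50) .nil)))) .nil)))) (.nd (nat_lit 4) (.nd (nat_lit 5) 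
(.lf (nat_lit 117070) (.g (nat_lit 1516) (.e (nat_lit 5949) (nat_lit 322) (.e (nat_lit 57400) (nat_lit 10) (.e (nat_lit 319532) (nat_lit 16) (.e (nat_lit 286743) (nat_lit 9) (.e (nat_lit 336434) (nat_lit 30) (.e (nat_lit 450568) (nat_lit 0) .nil)))))) (.g (nat_lit 4) .nil .nil))) 
(.lf (nat_lit 117102) (.g (nat_lit 1867) (.e (nat_lit 5949) (nat_lit 322) (.e (nat_lit 57400) (nat_lit 10) (.e (nat_lit 319534) (nat_lit 16) (.e (nat_lit 286743) (nat_lit 9) (.e (nat_lit 336433) (nat_lit 30) (.e (nat_lit 450569) (nat_lit 0) .nil)))))) (.g (nat_lit 4) .nil .nil)))) (.nd (nat_lit 5) 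
(.lf (nat_lit 117086) (.g (nat_lit 1934) (.e (nat_lit 5949) (nat_lit 322) (.e (nat_lit 57400) (nat_lit 10) (.e (nat_lit 319533) (nat_lit 16) (.e (nat_lit 286760) (nat_lit 13) (.e (nat_lit 393265) (nat_lit 22) (.e (nat_lit 417793) (nat_lit 0) (.e (nat_lit 52) (nat_lit 0) .nil))))))) (.g (nat_lit 4) .nil .nil))) 
(.lf (nat_lit 117118) (.g (nat_lit 2301) (.e (nat_lit 5949) (nat_lit 322) (.e (nat_lit 57406) (nat_lit 12) (.e (nat_lit 336443) (nat_lit 32) (.e (nat_lit 466977) (nat_lit 22) (.e (nat_lit 196656) (nat_lit 11) (.e (nat_lit 16392) (nat_lit 0) (.e (nat_lit 2514) (nat_lit 157) .nil))))))) (.g (nat_lit 4) .nil .nil)))))))) 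
(.nd (nat_lit 1) (.nd (nat_lit 2) (.nd (nat_lit 3) (.nd (nat_lit 4) (.nd (nat_lit 5) 
(.lf (nat_lit 117057) (.g (nat_lit 2384) (.e (nat_lit 5949) (nat_lit 322) (.e (nat_lit 57400) (nat_lit 10) (.e (nat_lit 319530) (nat_lit 16) (.e (nat_lit 286761) (nat_lit 13) (.e (nat_lit 393289) (nat_lit 25) (.e (nat_lit 458776) (nat_lit 18) .nil)))))) (.g (nat_lit 5) .nil .nil))) 
(.lf (nat_lit 117089) (.g (nat_lit 1195) (.e (nat_lit 5949) (nat_lit 322) (.e (nat_lit 57400) (nat_lit 10) (.e (nat_lit 319533) (nat_lit 16) (.e (nat_lit 286761) (nat_lit 13) .nil)))) .nil))) (.nd (nat_lit 5) 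
(.lf (nat_lit 117073) (.g (nat_lit 1724) (.e (nat_lit 5949) (nat_lit 322) (.e (nat_lit 57400) (nat_lit 10) (.e (nat_lit 319532) (nat_lit 16) (.e (nat_lit 286761) (nat_lit 13) (.e (nat_lit 393264) (nat_lit 22) (.e (nat_lit 417795) (nat_lit 0) (.e (nat_lit 63) (nat_lit 0) .nil))))))) (.g (nat_lit 4) .nil .nil))) 
(.lf (nat_lit 117105) (.g (nat_lit 2060) (.e (nat_lit 5949) (nat_lit 322) (.e (nat_lit 57400) (nat_lit 10) (.e (nat_lit 319534) (nat_lit 16) (.e (nat_lit 286761) (nat_lit 13) (.e (nat_lit 393264) (nat_lit 22) (.e (nat_lit 417795) (nat_lit 0) (.e (nat_lit 67) (nat_lit 0) .nil))))))) (.g (nat_lit 4) .nil .nil))))) (.nd (nat_lit 4) (.nd (nat_lit 5) 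
(.lf (nat_lit 117065) (.g (nat_lit 2471) (.e (nat_lit 5949) (nat_lit 322) (.e (nat_lit 57400) (nat_lit 10) (.e (nat_lit 319531) (nat_lit 16) (.e (nat_lit 286761) (nat_lit 13) (.e (nat_lit 393264) (nat_lit 22) (.e (nat_lit 417792) (nat_lit 0) (.e (nat_lit 67) (nat_lit 0) .nil))))))) (.g (nat_lit 7) .nil .nil))) 
(.lf (nat_lit 117097) (.g (nat_lit 2749) (.e (nat_lit 5949) (nat_lit 322) (.e (nat_lit 57400) (nat_lit 10) (.e (nat_lit 319533) (nat_lit 16) (.e (nat_lit 286761) (nat_lit 13) (.e (nat_lit 393289) (nat_lit 25) (.e (nat_lit 466688) (nat_lit 18) .nil)))))) (.g (nat_lit 5) .nil .nil)))) (.nd (nat_lit 5) 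
(.lf (nat_lit 117081) (.g (nat_lit 2160) (.e (nat_lit 5949) (nat_lit 322) (.e (nat_lit 57400) (nat_lit 10) (.e (nat_lit 319533) (nat_lit 16) (.e (nat_lit 286743) (nat_lit 9) (.e (nat_lit 336433) (nat_lit 30) (.e (nat_lit 450569) (nat_lit 0) .nil)))))) (.g (nat_lit 4) .nil .nil))) 
(.lf (nat_lit 117113) (.g (nat_lit 2509) (.e (nat_lit 5949) (nat_lit 322) (.e (nat_lit 57406) (nat_lit 12) (.e (nat_lit 336443) (nat_lit 32) (.e (nat_lit 466974) (nat_lit 22) (.e (nat_lit 196656) (nat_lit 11) (.e (nat_lit 16392) (nat_lit 0) (.e (nat_lit 2484) (nat_lit 157) .nil))))))) (.g (nat_lit 4) .nil .nil)))))) (.nd (nat_lit 3) (.nd (nat_lit 4) (.nd (nat_lit 5) 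
(.lf (nat_lit 117061) (.g (nat_lit 1573) (.e (nat_lit 5949) (nat_lit 322) (.e (nat_lit 57400) (nat_lit 10) (.e (nat_lit 319531) (nat_lit 16) (.e (nat_lit 286743) (nat_lit 9) (.e (nat_lit 336434) (nat_lit 30) .nil))))) .nil)) 
(.lf (nat_lit 117093) (.g (nat_lit 2388) (.e (nat_lit 5949) (nat_lit 322) (.e (nat_lit 57400) (nat_lit 10) (.e (nat_lit 319533) (nat_lit 16) (.e (nat_lit 286761) (nat_lit 13) (.e (nat_lit 393264) (nat_lit 22) (.e (nat_lit 417795) (nat_lit 0) (.e (nat_lit 67) (nat_lit 0) .nil))))))) (.g (nat_lit 4) .nil .nil)))) (.nd (nat_lit 5) 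
(.lf (nat_lit 117077) (.g (nat_lit 2085) (.e (nat_lit 5949) (nat_lit 322) (.e (nat_lit 57400) (nat_lit 10) (.e (nat_lit 319533) (nat_lit 16) (.e (nat_lit 286742) (nat_lit 9) (.e (nat_lit 336434) (nat_lit 30) (.e (nat_lit 450568) (nat_lit 0) .nil)))))) (.g (nat_lit 5) .nil .nil))) 
(.lf (nat_lit 117109) (.g (nat_lit 2440) (.e (nat_lit 5949) (nat_lit 322) (.e (nat_lit 57400) (nat_lit 10) (.e (nat_lit 319534) (nat_lit 16) (.e (nat_lit 286761) (nat_lit 13) (.e (nat_lit 393289) (nat_lit 25) (.e (nat_lit 466688) (nat_lit 18) .nil)))))) (.g (nat_lit 5) .nil .nil))))) (.nd (nat_lit 4) (.nd (nat_lit 5) 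
(.lf (nat_lit 117069) (.g (nat_lit 1527) (.e (nat_lit 5949) (nat_lit 322) (.e (nat_lit 57400) (nat_lit 10) (.e (nat_lit 319532) (nat_lit 16) (.e (nat_lit 286743) (nat_lit 9) (.e (nat_lit 336433) (nat_lit 30) (.e (nat_lit 450569) (nat_lit 0) .nil)))))) (.g (nat_lit 4) .nil .nil))) 
(.lf (nat_lit 117101) (.g (nat_lit 2655) (.e (nat_lit 5949) (nat_lit 322) (.e (nat_lit 57400) (nat_lit 10) (.e (nat_lit 319534) (nat_lit 16) (.e (nat_lit 286743) (nat_lit 9) (.e (nat_lit 336432) (nat_lit 30) (.e (nat_lit 450569) (nat_lit 0) .nil)))))) (.g (nat_lit 0) .nil .nil)))) (.nd (nat_lit 5) 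
(.lf (nat_lit 117085) (.g (nat_lit 1809) (.e (nat_lit 5949) (nat_lit 322) (.e (nat_lit 57400) (nat_lit 10) (.e (nat_lit 319533) (nat_lit 16) (.e (nat_lit 286760) (nat_lit 13) (.e (nat_lit 393264) (nat_lit 22) .nil))))) .nil)) 
(.lf (nat_lit 117117) (.g (nat_lit 2840) (.e (nat_lit 5949) (nat_lit 322) (.e (nat_lit 57406) (nat_lit 12) (.e (nat_lit 336443) (nat_lit 32) (.e (nat_lit 466977) (nat_lit 22) (.e (nat_lit 196656) (nat_lit 11) (.e (nat_lit 16392) (nat_lit 0) (.e (nat_lit 2484) (nat_lit 157) .nil))))))) (.g (nat_lit 4) .nil .nil))))))) (.nd (nat_lit 2) (.nd (nat_lit 3) (.nd (nat_lit 4) (.nd (nat_lit 5) 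
(.lf (nat_lit 117059) (.g (nat_lit 2381) (.e (nat_lit 5949) (nat_lit 322) (.e (nat_lit 57400) (nat_lit 10) (.e (nat_lit 319531) (nat_lit 16) (.e (nat_lit 286743) (nat_lit 9) (.e (nat_lit 336432) (nat_lit 30) (.e (nat_lit 450569) (nat_lit 0) .nil)))))) (.g (nat_lit 0) .nil .nil))) 
(.lf (nat_lit 117091) (.g (nat_lit 2832) (.e (nat_lit 5949) (nat_lit 322) (.e (nat_lit 57400) (nat_lit 10) (.e (nat_lit 319533) (nat_lit 16) (.e (nat_lit 286761) (nat_lit 13) (.e (nat_lit 393264) (nat_lit 22) (.e (nat_lit 417792) (nat_lit 0) (.e (nat_lit 67) (nat_lit 0) .nil))))))) (.g (nat_lit 5) .nil .nil)))) (.nd (nat_lit 5) 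
(.lf (nat_lit 117075) (.g (nat_lit 2412) (.e (nat_lit 5949) (nat_lit 322) (.e (nat_lit 57400) (nat_lit 10) (.e (nat_lit 319533) (nat_lit 16) (.e (nat_lit 286742) (nat_lit 9) (.e (nat_lit 336432) (nat_lit 30) (.e (nat_lit 450569) (nat_lit 0) .nil)))))) (.g (nat_lit 0) .nil .nil))) 
(.lf (nat_lit 117107) (.g (nat_lit 1613) (.e (nat_lit 5949) (nat_lit 322) (.e (nat_lit 57400) (nat_lit 10) (.e (nat_lit 319534) (nat_lit 16) (.e (nat_lit 286761) (nat_lit 13) (.e (nat_lit 393265) (nat_lit 22) .nil))))) .nil)))) (.nd (nat_lit 4) (.nd (nat_lit 5) 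
(.lf (nat_lit 117067) (.g (nat_lit 2319) (.e (nat_lit 5949) (nat_lit 322) (.e (nat_lit 57400) (nat_lit 10) (.e (nat_lit 319531) (nat_lit 16) (.e (nat_lit 286761) (nat_lit 13) (.e (nat_lit 393289) (nat_lit 25) (.e (nat_lit 458776) (nat_lit 18) .nil)))))) (.g (nat_lit 5) .nil .nil))) 
(.lf (nat_lit 117099) (.g (nat_lit 2424) (.e (nat_lit 5949) (nat_lit 322) (.e (nat_lit 57400) (nat_lit 10) (.e (nat_lit 319534) (nat_lit 16) (.e (nat_lit 286742) (nat_lit 9) (.e (nat_lit 336432) (nat_lit 30) (.e (nat_lit 450569) (nat_lit 0) .nil)))))) (.g (nat_lit 5) .nil .nil)))) (.nd (nat_lit 5) 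
(.lf (nat_lit 117083) (.g (nat_lit 1297) (.e (nat_lit 5949) (nat_lit 322) (.e (nat_lit 57400) (nat_lit 10) (.e (nat_lit 319533) (nat_lit 16) (.e (nat_lit 286745) (nat_lit 9) .nil)))) .nil)) 
(.lf (nat_lit 117115) (.g (nat_lit 2445) (.e (nat_lit 5949) (nat_lit 322) (.e (nat_lit 57406) (nat_lit 12) (.e (nat_lit 336443) (nat_lit 32) (.e (nat_lit 466977) (nat_lit 22) (.e (nat_lit 196656) (nat_lit 11) (.e (nat_lit 16388) (nat_lit 0) (.e (nat_lit 2485) (nat_lit 157) .nil))))))) (.g (nat_lit 4) .nil .nil)))))) (.nd (nat_lit 3) (.nd (nat_lit 4) (.nd (nat_lit 5) 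
(.lf (nat_lit 117063) (.g (nat_lit 2527) (.e (nat_lit 5949) (nat_lit 322) (.e (nat_lit 57400) (nat_lit 10) (.e (nat_lit 319531) (nat_lit 16) (.e (nat_lit 286761) (nat_lit 13) (.e (nat_lit 393234) (nat_lit 17) (.e (nat_lit 7065) (nat_lit 377) (.e (nat_lit 1023) (nat_lit 81) (.e (nat_lit 48) (nat_lit 0) .nil)))))))) (.g (nat_lit 5) .nil .nil))) 
(.lf (nat_lit 117095) (.g (nat_lit 2670) (.e (nat_lit 5949) (nat_lit 322) (.e (nat_lit 57400) (nat_lit 10) (.e (nat_lit 319533) (nat_lit 16) (.e (nat_lit 286761) (nat_lit 13) (.e (nat_lit 393265) (nat_lit 22) (.e (nat_lit 417793) (nat_lit 0) (.e (nat_lit 52) (nat_lit 0) .nil))))))) (.g (nat_lit 5) .nil .nil)))) (.nd (nat_lit 5) 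
(.lf (nat_lit 117079) (.g (nat_lit 2846) (.e (nat_lit 5949) (nat_lit 322) (.e (nat_lit 57400) (nat_lit 10) (.e (nat_lit 319533) (nat_lit 16) (.e (nat_lit 286743) (nat_lit 9) (.e (nat_lit 336432) (nat_lit 30) (.e (nat_lit 450569) (nat_lit 0) .nil)))))) (.g (nat_lit 0) .nil .nil))) 
(.lf (nat_lit 117111) (.g (nat_lit 2283) (.e (nat_lit 5949) (nat_lit 322) (.e (nat_lit 57404) (nat_lit 12) (.e (nat_lit 336205) (nat_lit 12) (.e (nat_lit 385106) (nat_lit 50) (.e (nat_lit 786481) (nat_lit 30) (.e (nat_lit 360457) (nat_lit 0) .nil)))))) (.g (nat_lit 5) .nil .nil))))) (.nd (nat_lit 4) (.nd (nat_lit 5) 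
(.lf (nat_lit 117071) (.g (nat_lit 1781) (.e (nat_lit 5949) (nat_lit 322) (.e (nat_lit 57400) (nat_lit 10) (.e (nat_lit 319532) (nat_lit 16) (.e (nat_lit 286761) (nat_lit 13) (.e (nat_lit 393264) (nat_lit 22) (.e (nat_lit 417792) (nat_lit 0) (.e (nat_lit 67) (nat_lit 0) .nil))))))) (.g (nat_lit 4) .nil .nil))) 
(.lf (nat_lit 117103) (.g (nat_lit 2267) (.e (nat_lit 5949) (nat_lit 322) (.e (nat_lit 57400) (nat_lit 10) (.e (nat_lit 319534) (nat_lit 16) (.e (nat_lit 286743) (nat_lit 9) (.e (nat_lit 336434) (nat_lit 30) (.e (nat_lit 450568) (nat_lit 0) .nil)))))) (.g (nat_lit 5) .nil .nil)))) (.nd (nat_lit 5) 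
(.lf (nat_lit 117087) (.g (nat_lit 1868) (.e (nat_lit 5949) (nat_lit 322) (.e (nat_lit 57400) (nat_lit 10) (.e (nat_lit 319533) (nat_lit 16) (.e (nat_lit 286760) (nat_lit 13) (.e (nat_lit 393289) (nat_lit 25) (.e (nat_lit 458776) (nat_lit 18) .nil)))))) (.g (nat_lit 4) .nil .nil))) 
(.lf (nat_lit 117119) (.g (nat_lit 480) (.e (nat_lit 5949) (nat_lit 322) (.e (nat_lit 57409) (nat_lit 12) (.e (nat_lit 336182) (nat_lit 11) .nil))) .nil))))))))

noncomputable def tv1573 : DT := (.nd (nat_lit 0) (.nd (nat_lit 1) (.nd (nat_lit 2) (.nd (nat_lit 3) (.nd (nat_lit 4) (.nd (nat_lit 5) (.nd (nat_lit 6) 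
(.lf (nat_lit 117120) (.g (nat_lit 2492) (.e (nat_lit 5949) (nat_lit 322) (.e (nat_lit 57409) (nat_lit 12) (.e (nat_lit 336182) (nat_lit 11) (.e (nat_lit 368695) (nat_lit 40) (.e (nat_lit 671748) (nat_lit 0) (.e (nat_lit 1595) (nat_lit 111) (.e (nat_lit 360457) (nat_lit 0) .nil))))))) (.g (nat_lit 6) .nil .nil))) 
(.lf (nat_lit 117184) (.g (nat_lit 2287) (.e (nat_lit 5949) (nat_lit 322) (.e (nat_lit 57436) (nat_lit 17) (.e (nat_lit 376860) (nat_lit 21) (.e (nat_lit 65280) (nat_lit 267) (.e (nat_lit 122917) (nat_lit 15) (.e (nat_lit 360457) (nat_lit 0) .nil)))))) (.g (nat_lit 5) .nil .nil)))) (.nd (nat_lit 6) 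
(.lf (nat_lit 117152) (.g (nat_lit 2814) (.e (nat_lit 5949) (nat_lit 322) (.e (nat_lit 57423) (nat_lit 14) (.e (nat_lit 352318) (nat_lit 24) (.e (nat_lit 123197) (nat_lit 266) (.e (nat_lit 57426) (nat_lit 15) (.e (nat_lit 360456) (nat_lit 0) .nil)))))) (.g (nat_lit 5) .nil .nil))) 
(.lf (nat_lit 117216) (.g (nat_lit 2680) (.e (nat_lit 5949) (nat_lit 322) (.e (nat_lit 57447) (nat_lit 19) (.e (nat_lit 393301) (nat_lit 27) (.e (nat_lit 491526) (nat_lit 0) (.e (nat_lit 1855) (nat_lit 124) .nil))))) .nil)))) (.nd (nat_lit 5) (.nd (nat_lit 6) 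
(.lf (nat_lit 117136) (.g (nat_lit 3185) (.e (nat_lit 5949) (nat_lit 322) (.e (nat_lit 57412) (nat_lit 12) (.e (nat_lit 336193) (nat_lit 12) (.e (nat_lit 385105) (nat_lit 50) (.e (nat_lit 786483) (nat_lit 30) (.e (nat_lit 360456) (nat_lit 0) .nil)))))) (.g (nat_lit 6) .nil .nil))) 
(.lf (nat_lit 117200) (.g (nat_lit 2810) (.e (nat_lit 5949) (nat_lit 322) (.e (nat_lit 57445) (nat_lit 19) (.e (nat_lit 393234) (nat_lit 17) (.e (nat_lit 7581) (nat_lit 405) (.e (nat_lit 57477) (nat_lit 28) (.e (nat_lit 557104) (nat_lit 14) (.e (nat_lit 180233) (nat_lit 0) .nil))))))) (.g (nat_lit 4) .nil .nil)))) (.nd (nat_lit 6) 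
(.lf (nat_lit 117168) (.g (nat_lit 3080) (.e (nat_lit 5949) (nat_lit 322) (.e (nat_lit 57424) (nat_lit 14) (.e (nat_lit 352318) (nat_lit 24) (.e (nat_lit 123198) (nat_lit 266) (.e (nat_lit 57427) (nat_lit 15) (.e (nat_lit 360457) (nat_lit 0) .nil)))))) (.g (nat_lit 5) .nil .nil))) 
(.lf (nat_lit 117232) (.g (nat_lit 1832) (.e (nat_lit 5950) (nat_lit 322) (.e (nat_lit 57373) (nat_lit 2) (.e (nat_lit 90174) (nat_lit 14) (.e (nat_lit 180243) (nat_lit 5) .nil)))) .nil))))) (.nd (nat_lit 4) (.nd (nat_lit 5) (.nd (nat_lit 6) 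
(.lf (nat_lit 117128) (.g (nat_lit 3014) (.e (nat_lit 5949) (nat_lit 322) (.e (nat_lit 57409) (nat_lit 12) (.e (nat_lit 336208) (nat_lit 12) (.e (nat_lit 385106) (nat_lit 50) (.e (nat_lit 786481) (nat_lit 30) (.e (nat_lit 360456) (nat_lit 0) .nil)))))) (.g (nat_lit 0) .nil .nil))) 
(.lf (nat_lit 117192) (.g (nat_lit 2703) (.e (nat_lit 5949) (nat_lit 322) (.e (nat_lit 57445) (nat_lit 19) (.e (nat_lit 393232) (nat_lit 17) (.e (nat_lit 7581) (nat_lit 405) (.e (nat_lit 57477) (nat_lit 28) (.e (nat_lit 557104) (nat_lit 14) (.e (nat_lit 180233) (nat_lit 0) .nil))))))) (.g (nat_lit 4) .nil .nil)))) (.nd (nat_lit 6) 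
(.lf (nat_lit 117160) (.g (nat_lit 877) (.e (nat_lit 5949) (nat_lit 322) (.e (nat_lit 57424) (nat_lit 14) (.e (nat_lit 352303) (nat_lit 20) .nil))) .nil)) 
(.lf (nat_lit 117224) (.g (nat_lit 2541) (.e (nat_lit 5950) (nat_lit 322) (.e (nat_lit 57371) (nat_lit 2) (.e (nat_lit 90174) (nat_lit 14) (.e (nat_lit 180243) (nat_lit 5) (.e (nat_lit 532508) (nat_lit 2) (.e (nat_lit 106517) (nat_lit 9) (.e (nat_lit 1255) (nat_lit 92) (.e (nat_lit 98321) (nat_lit 17) (.e (nat_lit 2464) (nat_lit 157) .nil))))))))) (.g (nat_lit 4) .nil .nil))))) 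
(.nd (nat_lit 5) (.nd (nat_lit 6) 
(.lf (nat_lit 117144) (.g (nat_lit 800) (.e (nat_lit 5949) (nat_lit 322) (.e (nat_lit 57421) (nat_lit 13) (.e (nat_lit 344080) (nat_lit 13) (.e (nat_lit 1385) (nat_lit 105) (.e (nat_lit 319232) (nat_lit 30) .nil))))) .nil)) 
(.lf (nat_lit 117208) (.g (nat_lit 4666) (.e (nat_lit 5949) (nat_lit 322) (.e (nat_lit 57447) (nat_lit 19) (.e (nat_lit 393234) (nat_lit 17) (.e (nat_lit 7581) (nat_lit 405) (.e (nat_lit 57480) (nat_lit 28) (.e (nat_lit 557104) (nat_lit 14) (.e (nat_lit 180233) (nat_lit 0) .nil))))))) (.g (nat_lit 7) .nil .nil)))) (.nd (nat_lit 6) 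
(.lf (nat_lit 117176) (.g (nat_lit 1314) (.e (nat_lit 5949) (nat_lit 322) (.e (nat_lit 57426) (nat_lit 15) (.e (nat_lit 360486) (nat_lit 18) (.e (nat_lit 671747) (nat_lit 0) (.e (nat_lit 1595) (nat_lit 111) .nil))))) .nil)) 
(.lf (nat_lit 117240) (.g (nat_lit 4169) (.e (nat_lit 5950) (nat_lit 322) (.e (nat_lit 57378) (nat_lit 3) (.e (nat_lit 98373) (nat_lit 29) (.e (nat_lit 450562) (nat_lit 0) (.e (nat_lit 6595) (nat_lit 351) .nil))))) .nil)))))) (.nd (nat_lit 3) (.nd (nat_lit 4) (.nd (nat_lit 5) (.nd (nat_lit 6) 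
(.lf (nat_lit 117124) (.g (nat_lit 2684) (.e (nat_lit 5949) (nat_lit 322) (.e (nat_lit 57409) (nat_lit 12) (.e (nat_lit 336208) (nat_lit 12) (.e (nat_lit 385104) (nat_lit 50) (.e (nat_lit 786481) (nat_lit 30) (.e (nat_lit 360457) (nat_lit 0) .nil)))))) (.g (nat_lit 0) .nil .nil))) 
(.lf (nat_lit 117188) (.g (nat_lit 545) (.e (nat_lit 5949) (nat_lit 322) (.e (nat_lit 57436) (nat_lit 17) (.e (nat_lit 376870) (nat_lit 24) .nil))) .nil))) (.nd (nat_lit 6) 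
(.lf (nat_lit 117156) (.g (nat_lit 1174) (.e (nat_lit 5949) (nat_lit 322) (.e (nat_lit 57424) (nat_lit 14) (.e (nat_lit 352270) (nat_lit 8) (.e (nat_lit 262148) (nat_lit 0) (.e (nat_lit 1585) (nat_lit 111) (.e (nat_lit 368384) (nat_lit 0) .nil)))))) (.g (nat_lit 5) .nil .nil))) 
(.lf (nat_lit 117220) (.g (nat_lit 2080) (.e (nat_lit 5950) (nat_lit 322) (.e (nat_lit 57371) (nat_lit 2) (.e (nat_lit 90172) (nat_lit 14) (.e (nat_lit 180243) (nat_lit 5) (.e (nat_lit 532515) (nat_lit 3) .nil))))) .nil)))) (.nd (nat_lit 5) (.nd (nat_lit 6) 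
(.lf (nat_lit 117140) (.g (nat_lit 2003) (.e (nat_lit 5949) (nat_lit 322) (.e (nat_lit 57412) (nat_lit 12) (.e (nat_lit 336226) (nat_lit 14) (.e (nat_lit 401438) (nat_lit 9) (.e (nat_lit 426546) (nat_lit 30) .nil))))) .nil)) 
(.lf (nat_lit 117204) (.g (nat_lit 4215) (.e (nat_lit 5949) (nat_lit 322) (.e (nat_lit 57447) (nat_lit 19) (.e (nat_lit 393234) (nat_lit 17) (.e (nat_lit 7581) (nat_lit 405) (.e (nat_lit 57476) (nat_lit 28) (.e (nat_lit 557104) (nat_lit 14) (.e (nat_lit 180233) (nat_lit 0) .nil))))))) (.g (nat_lit 0) .nil .nil)))) (.nd (nat_lit 6) 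
(.lf (nat_lit 117172) (.g (nat_lit 842) (.e (nat_lit 5949) (nat_lit 322) (.e (nat_lit 57426) (nat_lit 15) (.e (nat_lit 360452) (nat_lit 0) (.e (nat_lit 5905) (nat_lit 320) .nil)))) .nil)) 
(.lf (nat_lit 117236) (.g (nat_lit 1532) (.e (nat_lit 5950) (nat_lit 322) (.e (nat_lit 57373) (nat_lit 2) (.e (nat_lit 90185) (nat_lit 17) (.e (nat_lit 237605) (nat_lit 9) .nil)))) .nil))))) (.nd (nat_lit 4) (.nd (nat_lit 5) (.nd (nat_lit 6) 
(.lf (nat_lit 117132) (.g (nat_lit 1209) (.e (nat_lit 5949) (nat_lit 322) (.e (nat_lit 57412) (nat_lit 12) (.e (nat_lit 336176) (nat_lit 10) (.e (nat_lit 344169) (nat_lit 40) .nil)))) .nil)) 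
(.lf (nat_lit 117196) (.g (nat_lit 1868) (.e (nat_lit 5949) (nat_lit 322) (.e (nat_lit 57445) (nat_lit 19) (.e (nat_lit 393233) (nat_lit 17) (.e (nat_lit 7581) (nat_lit 405) (.e (nat_lit 57477) (nat_lit 28) (.e (nat_lit 557103) (nat_lit 14) (.e (nat_lit 180233) (nat_lit 0) .nil))))))) (.g (nat_lit 4) .nil .nil)))) (.nd (nat_lit 6) 
(.lf (nat_lit 117164) (.g (nat_lit 3140) (.e (nat_lit 5949) (nat_lit 322) (.e (nat_lit 57424) (nat_lit 14) (.e (nat_lit 352318) (nat_lit 24) (.e (nat_lit 123195) (nat_lit 266) (.e (nat_lit 57427) (nat_lit 15) (.e (nat_lit 360456) (nat_lit 0) .nil)))))) (.g (nat_lit 4) .nil .nil))) 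
(.lf (nat_lit 117228) (.g (nat_lit 1359) (.e (nat_lit 5950) (nat_lit 322) (.e (nat_lit 57371) (nat_lit 2) (.e (nat_lit 90176) (nat_lit 15) (.e (nat_lit 196352) (nat_lit 11) .nil)))) .nil)))) (.nd (nat_lit 5) (.nd (nat_lit 6) 
(.lf (nat_lit 117148) (.g (nat_lit 414) (.e (nat_lit 5949) (nat_lit 322) (.e (nat_lit 57423) (nat_lit 14) (.e (nat_lit 352270) (nat_lit 8) .nil))) .nil)) 
(.lf (nat_lit 117212) (.g (nat_lit 2920) (.e (nat_lit 5949) (nat_lit 322) (.e (nat_lit 57447) (nat_lit 19) (.e (nat_lit 393281) (nat_lit 23) (.e (nat_lit 426116) (nat_lit 2) (.e (nat_lit 196656) (nat_lit 11) (.e (nat_lit 16392) (nat_lit 0) (.e (nat_lit 2484) (nat_lit 157) .nil))))))) (.g (nat_lit 5) .nil .nil)))) (.nd (nat_lit 6) 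
(.lf (nat_lit 117180) (.g (nat_lit 1166) (.e (nat_lit 5949) (nat_lit 322) (.e (nat_lit 57427) (nat_lit 15) (.e (nat_lit 360486) (nat_lit 18) (.e (nat_lit 671747) (nat_lit 0) .nil)))) .nil)) 
(.lf (nat_lit 117244) (.g (nat_lit 3004) (.e (nat_lit 5950) (nat_lit 322) (.e (nat_lit 57409) (nat_lit 12) (.e (nat_lit 336443) (nat_lit 32) (.e (nat_lit 466977) (nat_lit 22) (.e (nat_lit 196624) (nat_lit 9) .nil))))) .nil))))))) (.nd (nat_lit 2) (.nd (nat_lit 3) (.nd (nat_lit 4) (.nd (nat_lit 5) (.nd (nat_lit 6) 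
(.lf (nat_lit 117122) (.g (nat_lit 361) (.e (nat_lit 5949) (nat_lit 322) (.e (nat_lit 57409) (nat_lit 12) (.e (nat_lit 336208) (nat_lit 12) .nil))) .nil)) 
(.lf (nat_lit 117186) (.g (nat_lit 1541) (.e (nat_lit 5949) (nat_lit 322) (.e (nat_lit 57436) (nat_lit 17) (.e (nat_lit 376860) (nat_lit 21) (.e (nat_lit 57930) (nat_lit 282) .nil)))) .nil))) (.nd (nat_lit 6) 
(.lf (nat_lit 117154) (.g (nat_lit 1975) (.e (nat_lit 5949) (nat_lit 322) (.e (nat_lit 57423) (nat_lit 14) (.e (nat_lit 352318) (nat_lit 24) (.e (nat_lit 123198) (nat_lit 266) (.e (nat_lit 57426) (nat_lit 15) (.e (nat_lit 360456) (nat_lit 0) .nil)))))) (.g (nat_lit 4) .nil .nil))) 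
(.lf (nat_lit 117218) (.g (nat_lit 2208) (.e (nat_lit 5950) (nat_lit 322) (.e (nat_lit 57347) (nat_lit 0) (.e (nat_lit 2031) (nat_lit 140) (.e (nat_lit 688177) (nat_lit 16) (.e (nat_lit 65586) (nat_lit 7) (.e (nat_lit 319531) (nat_lit 16) (.e (nat_lit 286748) (nat_lit 9) (.e (nat_lit 335888) (nat_lit 0) (.e (nat_lit 1052) (nat_lit 81) .nil))))))))) (.g (nat_lit 4) .nil .nil))))) 
(.nd (nat_lit 5) (.nd (nat_lit 6) 
(.lf (nat_lit 117138) (.g (nat_lit 2391) (.e (nat_lit 5949) (nat_lit 322) (.e (nat_lit 57412) (nat_lit 12) (.e (nat_lit 336193) (nat_lit 12) (.e (nat_lit 385106) (nat_lit 50) (.e (nat_lit 786481) (nat_lit 30) (.e (nat_lit 360456) (nat_lit 0) .nil)))))) (.g (nat_lit 4) .nil .nil))) 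
(.lf (nat_lit 117202) (.g (nat_lit 3138) (.e (nat_lit 5949) (nat_lit 322) (.e (nat_lit 57445) (nat_lit 19) (.e (nat_lit 393301) (nat_lit 27) (.e (nat_lit 491526) (nat_lit 0) (.e (nat_lit 1848) (nat_lit 124) .nil))))) .nil))) (.nd (nat_lit 6) 
(.lf (nat_lit 117170) (.g (nat_lit 2384) (.e (nat_lit 5949) (nat_lit 322) (.e (nat_lit 57424) (nat_lit 14) (.e (nat_lit 352318) (nat_lit 24) (.e (nat_lit 123199) (nat_lit 267) (.e (nat_lit 122919) (nat_lit 15) (.e (nat_lit 360457) (nat_lit 0) .nil)))))) (.g (nat_lit 4) .nil .nil))) 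
(.lf (nat_lit 117234) (.g (nat_lit 2342) (.e (nat_lit 5950) (nat_lit 322) (.e (nat_lit 57373) (nat_lit 2) (.e (nat_lit 90174) (nat_lit 14) (.e (nat_lit 180243) (nat_lit 5) (.e (nat_lit 532515) (nat_lit 3) .nil))))) .nil))))) (.nd (nat_lit 4) (.nd (nat_lit 5) (.nd (nat_lit 6) 
(.lf (nat_lit 117130) (.g (nat_lit 2399) (.e (nat_lit 5949) (nat_lit 322) (.e (nat_lit 57409) (nat_lit 12) (.e (nat_lit 336438) (nat_lit 31) (.e (nat_lit 466688) (nat_lit 3) (.e (nat_lit 57480) (nat_lit 28) (.e (nat_lit 557104) (nat_lit 14) (.e (nat_lit 180233) (nat_lit 0) .nil))))))) (.g (nat_lit 5) .nil .nil))) 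
(.lf (nat_lit 117194) (.g (nat_lit 2445) (.e (nat_lit 5949) (nat_lit 322) (.e (nat_lit 57445) (nat_lit 19) (.e (nat_lit 393232) (nat_lit 17) (.e (nat_lit 7581) (nat_lit 405) (.e (nat_lit 57480) (nat_lit 28) (.e (nat_lit 557105) (nat_lit 14) (.e (nat_lit 180233) (nat_lit 0) .nil))))))) (.g (nat_lit 4) .nil .nil)))) (.nd (nat_lit 6) 
(.lf (nat_lit 117162) (.g (nat_lit 1783) (.e (nat_lit 5949) (nat_lit 322) (.e (nat_lit 57424) (nat_lit 14) (.e (nat_lit 352318) (nat_lit 24) (.e (nat_lit 123194) (nat_lit 266) .nil)))) .nil)) 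
(.lf (nat_lit 117226) (.g (nat_lit 2959) (.e (nat_lit 5950) (nat_lit 322) (.e (nat_lit 57371) (nat_lit 2) (.e (nat_lit 90174) (nat_lit 14) (.e (nat_lit 180243) (nat_lit 5) (.e (nat_lit 532515) (nat_lit 3) (.e (nat_lit 114716) (nat_lit 22) (.e (nat_lit 90181) (nat_lit 16) (.e (nat_lit 229376) (nat_lit 0) .nil)))))))) (.g (nat_lit 5) .nil .nil))))) (.nd (nat_lit 5) (.nd (nat_lit 6) 
(.lf (nat_lit 117146) (.g (nat_lit 1174) (.e (nat_lit 5949) (nat_lit 322) (.e (nat_lit 57421) (nat_lit 13) (.e (nat_lit 344080) (nat_lit 13) (.e (nat_lit 1386) (nat_lit 105) (.e (nat_lit 319232) (nat_lit 30) (.e (nat_lit 360457) (nat_lit 0) .nil)))))) (.g (nat_lit 4) .nil .nil))) 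
(.lf (nat_lit 117210) (.g (nat_lit 3961) (.e (nat_lit 5949) (nat_lit 322) (.e (nat_lit 57447) (nat_lit 19) (.e (nat_lit 393234) (nat_lit 17) (.e (nat_lit 7583) (nat_lit 405) (.e (nat_lit 57476) (nat_lit 28) (.e (nat_lit 557104) (nat_lit 14) (.e (nat_lit 180233) (nat_lit 0) .nil))))))) (.g (nat_lit 0) .nil .nil)))) (.nd (nat_lit 6) 
(.lf (nat_lit 117178) (.g (nat_lit 2282) (.e (nat_lit 5949) (nat_lit 322) (.e (nat_lit 57427) (nat_lit 15) (.e (nat_lit 360456) (nat_lit 0) (.e (nat_lit 5949) (nat_lit 322) (.e (nat_lit 57428) (nat_lit 15) (.e (nat_lit 360457) (nat_lit 0) .nil)))))) (.g (nat_lit 6) .nil .nil))) 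
(.lf (nat_lit 117242) (.g (nat_lit 947) (.e (nat_lit 5950) (nat_lit 322) (.e (nat_lit 57409) (nat_lit 12) (.e (nat_lit 336443) (nat_lit 32) .nil))) .nil)))))) (.nd (nat_lit 3) (.nd (nat_lit 4) (.nd (nat_lit 5) (.nd (nat_lit 6) 
(.lf (nat_lit 117126) (.g (nat_lit 2999) (.e (nat_lit 5949) (nat_lit 322) (.e (nat_lit 57409) (nat_lit 12) (.e (nat_lit 336208) (nat_lit 12) (.e (nat_lit 385105) (nat_lit 50) (.e (nat_lit 786481) (nat_lit 30) (.e (nat_lit 360456) (nat_lit 0) .nil)))))) (.g (nat_lit 0) .nil .nil))) 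
(.lf (nat_lit 117190) (.g (nat_lit 2494) (.e (nat_lit 5949) (nat_lit 322) (.e (nat_lit 57445) (nat_lit 19) (.e (nat_lit 393232) (nat_lit 17) (.e (nat_lit 7581) (nat_lit 405) (.e (nat_lit 57476) (nat_lit 28) .nil))))) .nil))) (.nd (nat_lit 6) 
(.lf (nat_lit 117158) (.g (nat_lit 883) (.e (nat_lit 5949) (nat_lit 322) (.e (nat_lit 57424) (nat_lit 14) (.e (nat_lit 352285) (nat_lit 20) .nil))) .nil)) 
(.lf (nat_lit 117222) (.g (nat_lit 2029) (.e (nat_lit 5950) (nat_lit 322) (.e (nat_lit 57371) (nat_lit 2) (.e (nat_lit 90172) (nat_lit 14) (.e (nat_lit 180244) (nat_lit 5) (.e (nat_lit 532515) (nat_lit 3) .nil))))) .nil)))) (.nd (nat_lit 5) (.nd (nat_lit 6) 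
(.lf (nat_lit 117142) (.g (nat_lit 1276) (.e (nat_lit 5949) (nat_lit 322) (.e (nat_lit 57421) (nat_lit 13) (.e (nat_lit 344079) (nat_lit 13) (.e (nat_lit 1386) (nat_lit 105) (.e (nat_lit 319232) (nat_lit 30) (.e (nat_lit 360456) (nat_lit 0) .nil)))))) (.g (nat_lit 4) .nil .nil))) 
(.lf (nat_lit 117206) (.g (nat_lit 4124) (.e (nat_lit 5949) (nat_lit 322) (.e (nat_lit 57447) (nat_lit 19) (.e (nat_lit 393234) (nat_lit 17) (.e (nat_lit 7581) (nat_lit 405) (.e (nat_lit 57477) (nat_lit 28) (.e (nat_lit 557104) (nat_lit 14) (.e (nat_lit 180233) (nat_lit 0) .nil))))))) (.g (nat_lit 0) .nil .nil)))) (.nd (nat_lit 6) 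
(.lf (nat_lit 117174) (.g (nat_lit 824) (.e (nat_lit 5949) (nat_lit 322) (.e (nat_lit 57426) (nat_lit 15) (.e (nat_lit 360457) (nat_lit 0) (.e (nat_lit 5949) (nat_lit 322) .nil)))) .nil)) 
(.lf (nat_lit 117238) (.g (nat_lit 2085) (.e (nat_lit 5950) (nat_lit 322) (.e (nat_lit 57378) (nat_lit 3) (.e (nat_lit 98365) (nat_lit 26) (.e (nat_lit 426187) (nat_lit 9) .nil)))) .nil))))) (.nd (nat_lit 4) (.nd (nat_lit 5) (.nd (nat_lit 6) 
(.lf (nat_lit 117134) (.g (nat_lit 3199) (.e (nat_lit 5949) (nat_lit 322) (.e (nat_lit 57412) (nat_lit 12) (.e (nat_lit 336193) (nat_lit 12) (.e (nat_lit 385105) (nat_lit 50) (.e (nat_lit 786481) (nat_lit 30) (.e (nat_lit 360456) (nat_lit 0) .nil)))))) (.g (nat_lit 6) .nil .nil))) 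
(.lf (nat_lit 117198) (.g (nat_lit 2616) (.e (nat_lit 5949) (nat_lit 322) (.e (nat_lit 57445) (nat_lit 19) (.e (nat_lit 393233) (nat_lit 17) (.e (nat_lit 7581) (nat_lit 405) (.e (nat_lit 57480) (nat_lit 28) (.e (nat_lit 557105) (nat_lit 14) (.e (nat_lit 180233) (nat_lit 0) .nil))))))) (.g (nat_lit 5) .nil .nil)))) (.nd (nat_lit 6) 
(.lf (nat_lit 117166) (.g (nat_lit 2237) (.e (nat_lit 5949) (nat_lit 322) (.e (nat_lit 57424) (nat_lit 14) (.e (nat_lit 352318) (nat_lit 24) (.e (nat_lit 123197) (nat_lit 266) (.e (nat_lit 57426) (nat_lit 15) (.e (nat_lit 360457) (nat_lit 0) .nil)))))) (.g (nat_lit 4) .nil .nil))) 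
(.lf (nat_lit 117230) (.g (nat_lit 820) (.e (nat_lit 5950) (nat_lit 322) (.e (nat_lit 57371) (nat_lit 2) (.e (nat_lit 90185) (nat_lit 17) .nil))) .nil)))) (.nd (nat_lit 5) (.nd (nat_lit 6) 
(.lf (nat_lit 117150) (.g (nat_lit 1505) (.e (nat_lit 5949) (nat_lit 322) (.e (nat_lit 57423) (nat_lit 14) (.e (nat_lit 352270) (nat_lit 8) (.e (nat_lit 262148) (nat_lit 0) (.e (nat_lit 1597) (nat_lit 111) (.e (nat_lit 368384) (nat_lit 0) .nil)))))) (.g (nat_lit 5) .nil .nil))) 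
(.lf (nat_lit 117214) (.g (nat_lit 1953) (.e (nat_lit 5949) (nat_lit 322) (.e (nat_lit 57447) (nat_lit 19) (.e (nat_lit 393301) (nat_lit 27) (.e (nat_lit 491520) (nat_lit 0) .nil)))) .nil))) (.nd (nat_lit 6) 
(.lf (nat_lit 117182) (.g (nat_lit 466) (.e (nat_lit 5949) (nat_lit 322) (.e (nat_lit 57435) (nat_lit 17) (.e (nat_lit 376855) (nat_lit 20) .nil))) .nil)) 
(.lf (nat_lit 117246) (.g (nat_lit 2308) (.e (nat_lit 5950) (nat_lit 322) (.e (nat_lit 57447) (nat_lit 19) (.e (nat_lit 393234) (nat_lit 17) (.e (nat_lit 7581) (nat_lit 405) (.e (nat_lit 57477) (nat_lit 28) .nil))))) .nil)))))))) (.nd (nat_lit 1) (.nd (nat_lit 2) (.nd (nat_lit 3) (.nd (nat_lit 4) (.nd (nat_lit 5) (.nd (nat_lit 6) 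
(.lf (nat_lit 117121) (.g (nat_lit 2110) (.e (nat_lit 5949) (nat_lit 322) (.e (nat_lit 57409) (nat_lit 12) (.e (nat_lit 336182) (nat_lit 11) (.e (nat_lit 368695) (nat_lit 40) (.e (nat_lit 671748) (nat_lit 0) (.e (nat_lit 1599) (nat_lit 111) (.e (nat_lit 360456) (nat_lit 0) .nil))))))) (.g (nat_lit 5) .nil .nil))) 
(.lf (nat_lit 117185) (.g (nat_lit 1549) (.e (nat_lit 5949) (nat_lit 322) (.e (nat_lit 57436) (nat_lit 17) (.e (nat_lit 376860) (nat_lit 21) (.e (nat_lit 57919) (nat_lit 279) .nil)))) .nil))) (.nd (nat_lit 6) 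
(.lf (nat_lit 117153) (.g (nat_lit 2678) (.e (nat_lit 5949) (nat_lit 322) (.e (nat_lit 57423) (nat_lit 14) (.e (nat_lit 352318) (nat_lit 24) (.e (nat_lit 123197) (nat_lit 266) (.e (nat_lit 57427) (nat_lit 15) (.e (nat_lit 360456) (nat_lit 0) .nil)))))) (.g (nat_lit 5) .nil .nil))) 
(.lf (nat_lit 117217) (.g (nat_lit 2486) (.e (nat_lit 5949) (nat_lit 322) (.e (nat_lit 57449) (nat_lit 20) (.e (nat_lit 401454) (nat_lit 12) (.e (nat_lit 475208) (nat_lit 41) (.e (nat_lit 712755) (nat_lit 30) (.e (nat_lit 450569) (nat_lit 0) .nil)))))) (.g (nat_lit 4) .nil .nil))))) (.nd (nat_lit 5) (.nd (nat_lit 6) 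
(.lf (nat_lit 117137) (.g (nat_lit 3317) (.e (nat_lit 5949) (nat_lit 322) (.e (nat_lit 57412) (nat_lit 12) (.e (nat_lit 336193) (nat_lit 12) (.e (nat_lit 385105) (nat_lit 50) (.e (nat_lit 786483) (nat_lit 30) (.e (nat_lit 360457) (nat_lit 0) .nil)))))) (.g (nat_lit 5) .nil .nil))) 
(.lf (nat_lit 117201) (.g (nat_lit 2206) (.e (nat_lit 5949) (nat_lit 322) (.e (nat_lit 57445) (nat_lit 19) (.e (nat_lit 393281) (nat_lit 23) (.e (nat_lit 426116) (nat_lit 2) (.e (nat_lit 196656) (nat_lit 11) (.e (nat_lit 16392) (nat_lit 0) (.e (nat_lit 2484) (nat_lit 157) .nil))))))) (.g (nat_lit 4) .nil .nil)))) (.nd (nat_lit 6) 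
(.lf (nat_lit 117169) (.g (nat_lit 2525) (.e (nat_lit 5949) (nat_lit 322) (.e (nat_lit 57424) (nat_lit 14) (.e (nat_lit 352318) (nat_lit 24) (.e (nat_lit 123198) (nat_lit 266) (.e (nat_lit 57428) (nat_lit 15) (.e (nat_lit 360457) (nat_lit 0) .nil)))))) (.g (nat_lit 5) .nil .nil))) 
(.lf (nat_lit 117233) (.g (nat_lit 2542) (.e (nat_lit 5950) (nat_lit 322) (.e (nat_lit 57373) (nat_lit 2) (.e (nat_lit 90174) (nat_lit 14) (.e (nat_lit 180243) (nat_lit 5) (.e (nat_lit 532513) (nat_lit 3) .nil))))) .nil))))) (.nd (nat_lit 4) (.nd (nat_lit 5) (.nd (nat_lit 6) 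
(.lf (nat_lit 117129) (.g (nat_lit 3000) (.e (nat_lit 5949) (nat_lit 322) (.e (nat_lit 57409) (nat_lit 12) (.e (nat_lit 336208) (nat_lit 12) (.e (nat_lit 385106) (nat_lit 50) (.e (nat_lit 786481) (nat_lit 30) (.e (nat_lit 360457) (nat_lit 0) .nil)))))) (.g (nat_lit 0) .nil .nil))) 
(.lf (nat_lit 117193) (.g (nat_lit 2401) (.e (nat_lit 5949) (nat_lit 322) (.e (nat_lit 57445) (nat_lit 19) (.e (nat_lit 393232) (nat_lit 17) (.e (nat_lit 7581) (nat_lit 405) (.e (nat_lit 57480) (nat_lit 28) (.e (nat_lit 557103) (nat_lit 14) (.e (nat_lit 180233) (nat_lit 0) .nil))))))) (.g (nat_lit 4) .nil .nil)))) (.nd (nat_lit 6) 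
(.lf (nat_lit 117161) (.g (nat_lit 690) (.e (nat_lit 5949) (nat_lit 322) (.e (nat_lit 57424) (nat_lit 14) (.e (nat_lit 352316) (nat_lit 24) .nil))) .nil)) 
(.lf (nat_lit 117225) (.g (nat_lit 3008) (.e (nat_lit 5950) (nat_lit 322) (.e (nat_lit 57371) (nat_lit 2) (.e (nat_lit 90174) (nat_lit 14) (.e (nat_lit 180243) (nat_lit 5) (.e (nat_lit 532513) (nat_lit 3) (.e (nat_lit 114714) (nat_lit 22) (.e (nat_lit 90181) (nat_lit 16) (.e (nat_lit 229376) (nat_lit 0) .nil)))))))) (.g (nat_lit 5) .nil .nil))))) (.nd (nat_lit 5) (.nd (nat_lit 6) 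
(.lf (nat_lit 117145) (.g (nat_lit 1145) (.e (nat_lit 5949) (nat_lit 322) (.e (nat_lit 57421) (nat_lit 13) (.e (nat_lit 344080) (nat_lit 13) (.e (nat_lit 1386) (nat_lit 105) (.e (nat_lit 319232) (nat_lit 30) (.e (nat_lit 360456) (nat_lit 0) .nil)))))) (.g (nat_lit 4) .nil .nil))) 
(.lf (nat_lit 117209) (.g (nat_lit 3669) (.e (nat_lit 5949) (nat_lit 322) (.e (nat_lit 57447) (nat_lit 19) (.e (nat_lit 393234) (nat_lit 17) (.e (nat_lit 7581) (nat_lit 405) (.e (nat_lit 57480) (nat_lit 28) (.e (nat_lit 557105) (nat_lit 14) (.e (nat_lit 180233) (nat_lit 0) .nil))))))) (.g (nat_lit 6) .nil .nil)))) (.nd (nat_lit 6) 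
(.lf (nat_lit 117177) (.g (nat_lit 510) (.e (nat_lit 5949) (nat_lit 322) (.e (nat_lit 57427) (nat_lit 15) (.e (nat_lit 360451) (nat_lit 0) .nil))) .nil)) 
(.lf (nat_lit 117241) (.g (nat_lit 4229) (.e (nat_lit 5950) (nat_lit 322) (.e (nat_lit 57378) (nat_lit 3) (.e (nat_lit 98373) (nat_lit 29) (.e (nat_lit 450563) (nat_lit 0) (.e (nat_lit 6595) (nat_lit 351) .nil))))) .nil)))))) (.nd (nat_lit 3) (.nd (nat_lit 4) (.nd (nat_lit 5) (.nd (nat_lit 6) 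
(.lf (nat_lit 117125) (.g (nat_lit 1559) (.e (nat_lit 5949) (nat_lit 322) (.e (nat_lit 57409) (nat_lit 12) (.e (nat_lit 336208) (nat_lit 12) (.e (nat_lit 385104) (nat_lit 50) (.e (nat_lit 786482) (nat_lit 30) (.e (nat_lit 360457) (nat_lit 0) .nil)))))) (.g (nat_lit 4) .nil .nil))) 
(.lf (nat_lit 117189) (.g (nat_lit 1862) (.e (nat_lit 5949) (nat_lit 322) (.e (nat_lit 57445) (nat_lit 19) (.e (nat_lit 393231) (nat_lit 17) (.e (nat_lit 7581) (nat_lit 405) (.e (nat_lit 57477) (nat_lit 28) (.e (nat_lit 557104) (nat_lit 14) (.e (nat_lit 180233) (nat_lit 0) .nil))))))) (.g (nat_lit 4) .nil .nil)))) (.nd (nat_lit 6) 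
(.lf (nat_lit 117157) (.g (nat_lit 1595) (.e (nat_lit 5949) (nat_lit 322) (.e (nat_lit 57424) (nat_lit 14) (.e (nat_lit 352270) (nat_lit 8) (.e (nat_lit 262148) (nat_lit 0) (.e (nat_lit 1597) (nat_lit 111) (.e (nat_lit 368384) (nat_lit 0) .nil)))))) (.g (nat_lit 5) .nil .nil))) 
(.lf (nat_lit 117221) (.g (nat_lit 2271) (.e (nat_lit 5950) (nat_lit 322) (.e (nat_lit 57371) (nat_lit 2) (.e (nat_lit 90172) (nat_lit 14) (.e (nat_lit 180244) (nat_lit 5) (.e (nat_lit 532508) (nat_lit 2) .nil))))) .nil)))) (.nd (nat_lit 5) (.nd (nat_lit 6) 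
(.lf (nat_lit 117141) (.g (nat_lit 628) (.e (nat_lit 5949) (nat_lit 322) (.e (nat_lit 57417) (nat_lit 12) (.e (nat_lit 336235) (nat_lit 14) .nil))) .nil)) 
(.lf (nat_lit 117205) (.g (nat_lit 2153) (.e (nat_lit 5949) (nat_lit 322) (.e (nat_lit 57447) (nat_lit 19) (.e (nat_lit 393234) (nat_lit 17) (.e (nat_lit 7581) (nat_lit 405) (.e (nat_lit 57477) (nat_lit 28) .nil))))) .nil))) (.nd (nat_lit 6) 
(.lf (nat_lit 117173) (.g (nat_lit 2103) (.e (nat_lit 5949) (nat_lit 322) (.e (nat_lit 57426) (nat_lit 15) (.e (nat_lit 360456) (nat_lit 0) (.e (nat_lit 5949) (nat_lit 322) (.e (nat_lit 57428) (nat_lit 15) (.e (nat_lit 360457) (nat_lit 0) .nil)))))) (.g (nat_lit 6) .nil .nil))) 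
(.lf (nat_lit 117237) (.g (nat_lit 981) (.e (nat_lit 5950) (nat_lit 322) (.e (nat_lit 57378) (nat_lit 3) (.e (nat_lit 98365) (nat_lit 26) .nil))) .nil))))) (.nd (nat_lit 4) (.nd (nat_lit 5) (.nd (nat_lit 6) 
(.lf (nat_lit 117133) (.g (nat_lit 1830) (.e (nat_lit 5949) (nat_lit 322) (.e (nat_lit 57412) (nat_lit 12) (.e (nat_lit 336176) (nat_lit 10) (.e (nat_lit 344169) (nat_lit 40) (.e (nat_lit 671748) (nat_lit 0) .nil))))) .nil)) 
(.lf (nat_lit 117197) (.g (nat_lit 2597) (.e (nat_lit 5949) (nat_lit 322) (.e (nat_lit 57445) (nat_lit 19) (.e (nat_lit 393233) (nat_lit 17) (.e (nat_lit 7581) (nat_lit 405) (.e (nat_lit 57480) (nat_lit 28) (.e (nat_lit 557103) (nat_lit 14) (.e (nat_lit 180233) (nat_lit 0) .nil))))))) (.g (nat_lit 5) .nil .nil)))) (.nd (nat_lit 6) 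
(.lf (nat_lit 117165) (.g (nat_lit 1688) (.e (nat_lit 5949) (nat_lit 322) (.e (nat_lit 57424) (nat_lit 14) (.e (nat_lit 352318) (nat_lit 24) (.e (nat_lit 123196) (nat_lit 266) .nil)))) .nil)) 
(.lf (nat_lit 117229) (.g (nat_lit 1311) (.e (nat_lit 5950) (nat_lit 322) (.e (nat_lit 57371) (nat_lit 2) (.e (nat_lit 90176) (nat_lit 15) (.e (nat_lit 188459) (nat_lit 26) .nil)))) .nil)))) (.nd (nat_lit 5) (.nd (nat_lit 6) 
(.lf (nat_lit 117149) (.g (nat_lit 1082) (.e (nat_lit 5949) (nat_lit 322) (.e (nat_lit 57423) (nat_lit 14) (.e (nat_lit 352270) (nat_lit 8) (.e (nat_lit 262148) (nat_lit 0) (.e (nat_lit 1585) (nat_lit 111) (.e (nat_lit 368384) (nat_lit 0) .nil)))))) (.g (nat_lit 5) .nil .nil))) 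
(.lf (nat_lit 117213) (.g (nat_lit 2248) (.e (nat_lit 5949) (nat_lit 322) (.e (nat_lit 57447) (nat_lit 19) (.e (nat_lit 393281) (nat_lit 23) (.e (nat_lit 426116) (nat_lit 2) (.e (nat_lit 196656) (nat_lit 11) (.e (nat_lit 16392) (nat_lit 0) (.e (nat_lit 2514) (nat_lit 157) .nil))))))) (.g (nat_lit 4) .nil .nil)))) (.nd (nat_lit 6) 
(.lf (nat_lit 117181) (.g (nat_lit 2040) (.e (nat_lit 5949) (nat_lit 322) (.e (nat_lit 57428) (nat_lit 15) (.e (nat_lit 360457) (nat_lit 0) (.e (nat_lit 5949) (nat_lit 322) (.e (nat_lit 57428) (nat_lit 15) (.e (nat_lit 360457) (nat_lit 0) .nil)))))) (.g (nat_lit 5) .nil .nil))) 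
(.lf (nat_lit 117245) (.g (nat_lit 2337) (.e (nat_lit 5950) (nat_lit 322) (.e (nat_lit 57447) (nat_lit 19) (.e (nat_lit 393234) (nat_lit 17) (.e (nat_lit 7581) (nat_lit 405) (.e (nat_lit 57476) (nat_lit 28) .nil))))) .nil))))))) (.nd (nat_lit 2) (.nd (nat_lit 3) (.nd (nat_lit 4) (.nd (nat_lit 5) (.nd (nat_lit 6) 
(.lf (nat_lit 117123) (.g (nat_lit 2606) (.e (nat_lit 5949) (nat_lit 322) (.e (nat_lit 57409) (nat_lit 12) (.e (nat_lit 336208) (nat_lit 12) (.e (nat_lit 385104) (nat_lit 50) (.e (nat_lit 786481) (nat_lit 30) (.e (nat_lit 360456) (nat_lit 0) .nil)))))) (.g (nat_lit 0) .nil .nil))) 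
(.lf (nat_lit 117187) (.g (nat_lit 1441) (.e (nat_lit 5949) (nat_lit 322) (.e (nat_lit 57436) (nat_lit 17) (.e (nat_lit 376860) (nat_lit 21) (.e (nat_lit 57931) (nat_lit 282) .nil)))) .nil))) (.nd (nat_lit 6) 
(.lf (nat_lit 117155) (.g (nat_lit 2023) (.e (nat_lit 5949) (nat_lit 322) (.e (nat_lit 57423) (nat_lit 14) (.e (nat_lit 352318) (nat_lit 24) (.e (nat_lit 123198) (nat_lit 266) (.e (nat_lit 57427) (nat_lit 15) (.e (nat_lit 360457) (nat_lit 0) .nil)))))) (.g (nat_lit 4) .nil .nil))) 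
(.lf (nat_lit 117219) (.g (nat_lit 1559) (.e (nat_lit 5950) (nat_lit 322) (.e (nat_lit 57371) (nat_lit 2) (.e (nat_lit 90172) (nat_lit 14) (.e (nat_lit 180243) (nat_lit 5) .nil)))) .nil)))) (.nd (nat_lit 5) (.nd (nat_lit 6) 
(.lf (nat_lit 117139) (.g (nat_lit 1177) (.e (nat_lit 5949) (nat_lit 322) (.e (nat_lit 57412) (nat_lit 12) (.e (nat_lit 336226) (nat_lit 14) (.e (nat_lit 401436) (nat_lit 9) .nil)))) .nil)) 
(.lf (nat_lit 117203) (.g (nat_lit 1141) (.e (nat_lit 5949) (nat_lit 322) (.e (nat_lit 57447) (nat_lit 19) (.e (nat_lit 393231) (nat_lit 17) .nil))) .nil))) (.nd (nat_lit 6) 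
(.lf (nat_lit 117171) (.g (nat_lit 1192) (.e (nat_lit 5949) (nat_lit 322) (.e (nat_lit 57425) (nat_lit 14) (.e (nat_lit 352318) (nat_lit 24) (.e (nat_lit 123198) (nat_lit 266) (.e (nat_lit 57427) (nat_lit 15) .nil))))) .nil)) 
(.lf (nat_lit 117235) (.g (nat_lit 1535) (.e (nat_lit 5950) (nat_lit 322) (.e (nat_lit 57373) (nat_lit 2) (.e (nat_lit 90185) (nat_lit 17) (.e (nat_lit 237601) (nat_lit 9) .nil)))) .nil))))) (.nd (nat_lit 4) (.nd (nat_lit 5) (.nd (nat_lit 6) 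
(.lf (nat_lit 117131) (.g (nat_lit 1276) (.e (nat_lit 5949) (nat_lit 322) (.e (nat_lit 57412) (nat_lit 12) (.e (nat_lit 336061) (nat_lit 7) (.e (nat_lit 319538) (nat_lit 19) .nil)))) .nil)) 
(.lf (nat_lit 117195) (.g (nat_lit 2690) (.e (nat_lit 5949) (nat_lit 322) (.e (nat_lit 57445) (nat_lit 19) (.e (nat_lit 393233) (nat_lit 17) (.e (nat_lit 7581) (nat_lit 405) (.e (nat_lit 57476) (nat_lit 28) (.e (nat_lit 557104) (nat_lit 14) (.e (nat_lit 180233) (nat_lit 0) .nil))))))) (.g (nat_lit 5) .nil .nil)))) (.nd (nat_lit 6) 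
(.lf (nat_lit 117163) (.g (nat_lit 1578) (.e (nat_lit 5949) (nat_lit 322) (.e (nat_lit 57424) (nat_lit 14) (.e (nat_lit 352318) (nat_lit 24) (.e (nat_lit 123195) (nat_lit 266) .nil)))) .nil)) 
(.lf (nat_lit 117227) (.g (nat_lit 2887) (.e (nat_lit 5950) (nat_lit 322) (.e (nat_lit 57371) (nat_lit 2) (.e (nat_lit 90174) (nat_lit 14) (.e (nat_lit 180243) (nat_lit 5) (.e (nat_lit 532515) (nat_lit 3) (.e (nat_lit 114716) (nat_lit 22) (.e (nat_lit 90181) (nat_lit 16) (.e (nat_lit 229380) (nat_lit 0) .nil)))))))) (.g (nat_lit 5) .nil .nil))))) (.nd (nat_lit 5) (.nd (nat_lit 6) 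
(.lf (nat_lit 117147) (.g (nat_lit 611) (.e (nat_lit 5949) (nat_lit 322) (.e (nat_lit 57421) (nat_lit 13) (.e (nat_lit 344085) (nat_lit 15) (.e (nat_lit 123166) (nat_lit 256) .nil)))) .nil)) 
(.lf (nat_lit 117211) (.g (nat_lit 2357) (.e (nat_lit 5949) (nat_lit 322) (.e (nat_lit 57447) (nat_lit 19) (.e (nat_lit 393281) (nat_lit 23) (.e (nat_lit 426115) (nat_lit 2) (.e (nat_lit 196656) (nat_lit 11) (.e (nat_lit 16392) (nat_lit 0) (.e (nat_lit 2484) (nat_lit 157) .nil))))))) (.g (nat_lit 5) .nil .nil)))) (.nd (nat_lit 6) 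
(.lf (nat_lit 117179) (.g (nat_lit 452) (.e (nat_lit 5949) (nat_lit 322) (.e (nat_lit 57427) (nat_lit 15) (.e (nat_lit 368384) (nat_lit 17) .nil))) .nil)) 
(.lf (nat_lit 117243) (.g (nat_lit 2074) (.e (nat_lit 5950) (nat_lit 322) (.e (nat_lit 57409) (nat_lit 12) (.e (nat_lit 336443) (nat_lit 32) (.e (nat_lit 466974) (nat_lit 22) .nil)))) .nil)))))) (.nd (nat_lit 3) (.nd (nat_lit 4) (.nd (nat_lit 5) (.nd (nat_lit 6) 
(.lf (nat_lit 117127) (.g (nat_lit 2920) (.e (nat_lit 5949) (nat_lit 322) (.e (nat_lit 57409) (nat_lit 12) (.e (nat_lit 336208) (nat_lit 12) (.e (nat_lit 385105) (nat_lit 50) (.e (nat_lit 786481) (nat_lit 30) (.e (nat_lit 360457) (nat_lit 0) .nil)))))) (.g (nat_lit 6) .nil .nil))) 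
(.lf (nat_lit 117191) (.g (nat_lit 2182) (.e (nat_lit 5949) (nat_lit 322) (.e (nat_lit 57445) (nat_lit 19) (.e (nat_lit 393232) (nat_lit 17) (.e (nat_lit 7581) (nat_lit 405) (.e (nat_lit 57477) (nat_lit 28) .nil))))) .nil))) (.nd (nat_lit 6) 
(.lf (nat_lit 117159) (.g (nat_lit 1204) (.e (nat_lit 5949) (nat_lit 322) (.e (nat_lit 57424) (nat_lit 14) (.e (nat_lit 352302) (nat_lit 20) (.e (nat_lit 2006) (nat_lit 138) .nil)))) .nil)) 
(.lf (nat_lit 117223) (.g (nat_lit 2847) (.e (nat_lit 5950) (nat_lit 322) (.e (nat_lit 57371) (nat_lit 2) (.e (nat_lit 90172) (nat_lit 14) (.e (nat_lit 180244) (nat_lit 5) (.e (nat_lit 532515) (nat_lit 3) (.e (nat_lit 114715) (nat_lit 22) (.e (nat_lit 90165) (nat_lit 12) (.e (nat_lit 163853) (nat_lit 0) .nil)))))))) (.g (nat_lit 6) .nil .nil))))) (.nd (nat_lit 5) (.nd (nat_lit 6) 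
(.lf (nat_lit 117143) (.g (nat_lit 1305) (.e (nat_lit 5949) (nat_lit 322) (.e (nat_lit 57421) (nat_lit 13) (.e (nat_lit 344079) (nat_lit 13) (.e (nat_lit 1386) (nat_lit 105) (.e (nat_lit 319232) (nat_lit 30) (.e (nat_lit 360457) (nat_lit 0) .nil)))))) (.g (nat_lit 4) .nil .nil))) 
(.lf (nat_lit 117207) (.g (nat_lit 2058) (.e (nat_lit 5949) (nat_lit 322) (.e (nat_lit 57447) (nat_lit 19) (.e (nat_lit 393234) (nat_lit 17) (.e (nat_lit 7581) (nat_lit 405) (.e (nat_lit 57480) (nat_lit 28) .nil))))) .nil))) (.nd (nat_lit 6) 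
(.lf (nat_lit 117175) (.g (nat_lit 357) (.e (nat_lit 5949) (nat_lit 322) (.e (nat_lit 57426) (nat_lit 15) (.e (nat_lit 368384) (nat_lit 17) .nil))) .nil)) 
(.lf (nat_lit 117239) (.g (nat_lit 2085) (.e (nat_lit 5950) (nat_lit 322) (.e (nat_lit 57378) (nat_lit 3) (.e (nat_lit 98365) (nat_lit 26) (.e (nat_lit 426188) (nat_lit 9) .nil)))) .nil))))) (.nd (nat_lit 4) (.nd (nat_lit 5) (.nd (nat_lit 6) 
(.lf (nat_lit 117135) (.g (nat_lit 3283) (.e (nat_lit 5949) (nat_lit 322) (.e (nat_lit 57412) (nat_lit 12) (.e (nat_lit 336193) (nat_lit 12) (.e (nat_lit 385105) (nat_lit 50) (.e (nat_lit 786481) (nat_lit 30) (.e (nat_lit 360457) (nat_lit 0) .nil)))))) (.g (nat_lit 5) .nil .nil))) 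
(.lf (nat_lit 117199) (.g (nat_lit 2922) (.e (nat_lit 5949) (nat_lit 322) (.e (nat_lit 57445) (nat_lit 19) (.e (nat_lit 393234) (nat_lit 17) (.e (nat_lit 7581) (nat_lit 405) (.e (nat_lit 57476) (nat_lit 28) (.e (nat_lit 557104) (nat_lit 14) (.e (nat_lit 180233) (nat_lit 0) .nil))))))) (.g (nat_lit 4) .nil .nil)))) (.nd (nat_lit 6) 
(.lf (nat_lit 117167) (.g (nat_lit 3122) (.e (nat_lit 5949) (nat_lit 322) (.e (nat_lit 57424) (nat_lit 14) (.e (nat_lit 352318) (nat_lit 24) (.e (nat_lit 123197) (nat_lit 266) (.e (nat_lit 57427) (nat_lit 15) (.e (nat_lit 360457) (nat_lit 0) .nil)))))) (.g (nat_lit 5) .nil .nil))) 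
(.lf (nat_lit 117231) (.g (nat_lit 1890) (.e (nat_lit 5950) (nat_lit 322) (.e (nat_lit 57373) (nat_lit 2) (.e (nat_lit 90172) (nat_lit 14) (.e (nat_lit 180244) (nat_lit 5) .nil)))) .nil)))) (.nd (nat_lit 5) (.nd (nat_lit 6) 
(.lf (nat_lit 117151) (.g (nat_lit 725) (.e (nat_lit 5949) (nat_lit 322) (.e (nat_lit 57423) (nat_lit 14) (.e (nat_lit 352316) (nat_lit 24) .nil))) .nil)) 
(.lf (nat_lit 117215) (.g (nat_lit 2570) (.e (nat_lit 5949) (nat_lit 322) (.e (nat_lit 57447) (nat_lit 19) (.e (nat_lit 393301) (nat_lit 27) (.e (nat_lit 491526) (nat_lit 0) (.e (nat_lit 1848) (nat_lit 124) .nil))))) .nil))) (.nd (nat_lit 6) 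
(.lf (nat_lit 117183) (.g (nat_lit 1065) (.e (nat_lit 5949) (nat_lit 322) (.e (nat_lit 57436) (nat_lit 17) (.e (nat_lit 376835) (nat_lit 0) (.e (nat_lit 3746) (nat_lit 228) (.e (nat_lit 786482) (nat_lit 30) .nil))))) .nil)) 
(.lf (nat_lit 117247) (.g (nat_lit 2212) (.e (nat_lit 5950) (nat_lit 322) (.e (nat_lit 57447) (nat_lit 19) (.e (nat_lit 393234) (nat_lit 17) (.e (nat_lit 7581) (nat_lit 405) (.e (nat_lit 57480) (nat_lit 28) .nil))))) .nil)))))))))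

noncomputable def tv1574 : DT := (.nd (nat_lit 0) (.nd (nat_lit 1) (.nd (nat_lit 2) (.nd (nat_lit 3) (.nd (nat_lit 4) (.nd (nat_lit 5) (.nd (nat_lit 6) 
(.lf (nat_lit 117248) (.g (nat_lit 1737) (.e (nat_lit 5950) (nat_lit 322) (.e (nat_lit 57447) (nat_lit 19) (.e (nat_lit 393234) (nat_lit 17) (.e (nat_lit 7583) (nat_lit 405) (.e (nat_lit 57476) (nat_lit 28) .nil))))) .nil)) 
(.lf (nat_lit 117312) (.g (nat_lit 1342) (.e (nat_lit 5951) (nat_lit 322) (.e (nat_lit 57409) (nat_lit 12) (.e (nat_lit 336438) (nat_lit 31) (.e (nat_lit 466688) (nat_lit 3) .nil)))) .nil))) (.nd (nat_lit 6) 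
(.lf (nat_lit 117280) (.g (nat_lit 3482) (.e (nat_lit 5951) (nat_lit 322) (.e (nat_lit 57378) (nat_lit 3) (.e (nat_lit 98365) (nat_lit 26) (.e (nat_lit 426187) (nat_lit 9) (.e (nat_lit 426479) (nat_lit 27) (.e (nat_lit 336421) (nat_lit 28) (.e (nat_lit 434212) (nat_lit 18) .nil))))))) (.g (nat_lit 0) .nil .nil))) 
(.lf (nat_lit 117344) (.g (nat_lit 1590) (.e (nat_lit 5952) (nat_lit 322) (.e (nat_lit 57371) (nat_lit 2) (.e (nat_lit 90172) (nat_lit 14) (.e (nat_lit 180244) (nat_lit 5) .nil)))) .nil)))) (.nd (nat_lit 5) (.nd (nat_lit 6) 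
(.lf (nat_lit 117264) (.g (nat_lit 3436) (.e (nat_lit 5951) (nat_lit 322) (.e (nat_lit 57373) (nat_lit 2) (.e (nat_lit 90170) (nat_lit 13) (.e (nat_lit 172113) (nat_lit 10) (.e (nat_lit 434207) (nat_lit 18) .nil))))) .nil)) 
(.lf (nat_lit 117328) (.g (nat_lit 2177) (.e (nat_lit 5951) (nat_lit 322) (.e (nat_lit 57445) (nat_lit 19) (.e (nat_lit 393234) (nat_lit 17) (.e (nat_lit 7581) (nat_lit 405) (.e (nat_lit 57477) (nat_lit 28) .nil))))) .nil))) (.nd (nat_lit 6) 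
(.lf (nat_lit 117296) (.g (nat_lit 2034) (.e (nat_lit 5951) (nat_lit 322) (.e (nat_lit 57378) (nat_lit 3) (.e (nat_lit 98377) (nat_lit 30) (.e (nat_lit 458789) (nat_lit 23) (.e (nat_lit 532515) (nat_lit 3) .nil))))) .nil)) 
(.lf (nat_lit 117360) (.g (nat_lit 2333) (.e (nat_lit 5952) (nat_lit 322) (.e (nat_lit 57447) (nat_lit 19) (.e (nat_lit 393234) (nat_lit 17) (.e (nat_lit 7581) (nat_lit 405) (.e (nat_lit 57476) (nat_lit 28) .nil))))) .nil))))) (.nd (nat_lit 4) (.nd (nat_lit 5) (.nd (nat_lit 6) 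
(.lf (nat_lit 117256) (.g (nat_lit 3174) (.e (nat_lit 5951) (nat_lit 322) (.e (nat_lit 57371) (nat_lit 2) (.e (nat_lit 90172) (nat_lit 14) (.e (nat_lit 180244) (nat_lit 5) (.e (nat_lit 532515) (nat_lit 3) (.e (nat_lit 114716) (nat_lit 22) (.e (nat_lit 90164) (nat_lit 12) (.e (nat_lit 163850) (nat_lit 0) .nil)))))))) (.g (nat_lit 6) .nil .nil))) 
(.lf (nat_lit 117320) (.g (nat_lit 1709) (.e (nat_lit 5951) (nat_lit 322) (.e (nat_lit 57424) (nat_lit 14) (.e (nat_lit 352318) (nat_lit 24) (.e (nat_lit 123197) (nat_lit 266) .nil)))) .nil))) (.nd (nat_lit 6) 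
(.lf (nat_lit 117288) (.g (nat_lit 2393) (.e (nat_lit 5951) (nat_lit 322) (.e (nat_lit 57378) (nat_lit 3) (.e (nat_lit 98372) (nat_lit 29) (.e (nat_lit 450561) (nat_lit 0) (.e (nat_lit 6595) (nat_lit 351) .nil))))) .nil)) 
(.lf (nat_lit 117352) (.g (nat_lit 2039) (.e (nat_lit 5952) (nat_lit 322) (.e (nat_lit 57378) (nat_lit 3) (.e (nat_lit 98365) (nat_lit 26) (.e (nat_lit 426188) (nat_lit 9) .nil)))) .nil)))) (.nd (nat_lit 5) (.nd (nat_lit 6) 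
(.lf (nat_lit 117272) (.g (nat_lit 881) (.e (nat_lit 5951) (nat_lit 322) (.e (nat_lit 57373) (nat_lit 2) (.e (nat_lit 90178) (nat_lit 15) .nil))) .nil)) 
(.lf (nat_lit 117336) (.g (nat_lit 3614) (.e (nat_lit 5951) (nat_lit 322) (.e (nat_lit 57447) (nat_lit 19) (.e (nat_lit 393234) (nat_lit 17) (.e (nat_lit 7581) (nat_lit 405) (.e (nat_lit 57477) (nat_lit 28) (.e (nat_lit 557103) (nat_lit 14) (.e (nat_lit 180229) (nat_lit 0) .nil))))))) (.g (nat_lit 6) .nil .nil)))) (.nd (nat_lit 6) 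
(.lf (nat_lit 117304) (.g (nat_lit 2508) (.e (nat_lit 5951) (nat_lit 322) (.e (nat_lit 57400) (nat_lit 10) (.e (nat_lit 319533) (nat_lit 16) (.e (nat_lit 286760) (nat_lit 13) (.e (nat_lit 393289) (nat_lit 25) (.e (nat_lit 458774) (nat_lit 18) .nil)))))) (.g (nat_lit 6) .nil .nil))) 
(.lf (nat_lit 117368) (.g (nat_lit 2593) (.e (nat_lit 5953) (nat_lit 322) (.e (nat_lit 57347) (nat_lit 0) (.e (nat_lit 2031) (nat_lit 140) (.e (nat_lit 688177) (nat_lit 16) (.e (nat_lit 65583) (nat_lit 7) (.e (nat_lit 319530) (nat_lit 16) (.e (nat_lit 286748) (nat_lit 9) (.e (nat_lit 335891) (nat_lit 0) (.e (nat_lit 1105) (nat_lit 81) .nil))))))))) (.g (nat_lit 5) .nil .nil))))))) 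
(.nd (nat_lit 3) (.nd (nat_lit 4) (.nd (nat_lit 5) (.nd (nat_lit 6) 
(.lf (nat_lit 117252) (.g (nat_lit 2388) (.e (nat_lit 5951) (nat_lit 322) (.e (nat_lit 57371) (nat_lit 2) (.e (nat_lit 90172) (nat_lit 14) (.e (nat_lit 180244) (nat_lit 5) (.e (nat_lit 532513) (nat_lit 3) (.e (nat_lit 114714) (nat_lit 22) (.e (nat_lit 90165) (nat_lit 12) (.e (nat_lit 163853) (nat_lit 0) .nil)))))))) (.g (nat_lit 4) .nil .nil))) 
(.lf (nat_lit 117316) (.g (nat_lit 682) (.e (nat_lit 5951) (nat_lit 322) (.e (nat_lit 57424) (nat_lit 14) (.e (nat_lit 352270) (nat_lit 8) .nil))) .nil))) (.nd (nat_lit 6) 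
(.lf (nat_lit 117284) (.g (nat_lit 3872) (.e (nat_lit 5951) (nat_lit 322) (.e (nat_lit 57378) (nat_lit 3) (.e (nat_lit 98365) (nat_lit 26) (.e (nat_lit 426188) (nat_lit 9) (.e (nat_lit 426479) (nat_lit 27) (.e (nat_lit 336421) (nat_lit 28) (.e (nat_lit 434212) (nat_lit 18) .nil))))))) (.g (nat_lit 0) .nil .nil))) 
(.lf (nat_lit 117348) (.g (nat_lit 2550) (.e (nat_lit 5952) (nat_lit 322) (.e (nat_lit 57373) (nat_lit 2) (.e (nat_lit 90174) (nat_lit 14) (.e (nat_lit 180243) (nat_lit 5) (.e (nat_lit 532508) (nat_lit 2) .nil))))) .nil)))) (.nd (nat_lit 5) (.nd (nat_lit 6) 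
(.lf (nat_lit 117268) (.g (nat_lit 2156) (.e (nat_lit 5951) (nat_lit 322) (.e (nat_lit 57373) (nat_lit 2) (.e (nat_lit 90172) (nat_lit 14) (.e (nat_lit 180244) (nat_lit 5) (.e (nat_lit 532515) (nat_lit 3) (.e (nat_lit 114716) (nat_lit 22) (.e (nat_lit 90181) (nat_lit 16) (.e (nat_lit 229380) (nat_lit 0) .nil)))))))) (.g (nat_lit 4) .nil .nil))) 
(.lf (nat_lit 117332) (.g (nat_lit 870) (.e (nat_lit 5951) (nat_lit 322) (.e (nat_lit 57447) (nat_lit 19) (.e (nat_lit 393233) (nat_lit 17) .nil))) .nil))) (.nd (nat_lit 6) 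
(.lf (nat_lit 117300) (.g (nat_lit 2240) (.e (nat_lit 5951) (nat_lit 322) (.e (nat_lit 57400) (nat_lit 10) (.e (nat_lit 319530) (nat_lit 16) (.e (nat_lit 286761) (nat_lit 13) (.e (nat_lit 393286) (nat_lit 25) (.e (nat_lit 458774) (nat_lit 18) .nil)))))) (.g (nat_lit 4) .nil .nil))) 
(.lf (nat_lit 117364) (.g (nat_lit 1737) (.e (nat_lit 5952) (nat_lit 322) (.e (nat_lit 57447) (nat_lit 19) (.e (nat_lit 393234) (nat_lit 17) (.e (nat_lit 7583) (nat_lit 405) (.e (nat_lit 57476) (nat_lit 28) .nil))))) .nil))))) (.nd (nat_lit 4) (.nd (nat_lit 5) (.nd (nat_lit 6) 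
(.lf (nat_lit 117260) (.g (nat_lit 699) (.e (nat_lit 5951) (nat_lit 322) (.e (nat_lit 57371) (nat_lit 2) (.e (nat_lit 90176) (nat_lit 15) .nil))) .nil)) 
(.lf (nat_lit 117324) (.g (nat_lit 2655) (.e (nat_lit 5951) (nat_lit 322) (.e (nat_lit 57445) (nat_lit 19) (.e (nat_lit 393232) (nat_lit 17) (.e (nat_lit 7581) (nat_lit 405) (.e (nat_lit 57477) (nat_lit 28) (.e (nat_lit 557104) (nat_lit 14) (.e (nat_lit 180229) (nat_lit 0) .nil))))))) (.g (nat_lit 5) .nil .nil)))) (.nd (nat_lit 6) 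
(.lf (nat_lit 117292) (.g (nat_lit 4333) (.e (nat_lit 5951) (nat_lit 322) (.e (nat_lit 57378) (nat_lit 3) (.e (nat_lit 98373) (nat_lit 29) (.e (nat_lit 450563) (nat_lit 0) (.e (nat_lit 6595) (nat_lit 351) (.e (nat_lit 2638) (nat_lit 165) (.e (nat_lit 180228) (nat_lit 0) .nil))))))) (.g (nat_lit 4) .nil .nil))) 
(.lf (nat_lit 117356) (.g (nat_lit 2182) (.e (nat_lit 5952) (nat_lit 322) (.e (nat_lit 57445) (nat_lit 19) (.e (nat_lit 393232) (nat_lit 17) (.e (nat_lit 7581) (nat_lit 405) (.e (nat_lit 57477) (nat_lit 28) .nil))))) .nil)))) (.nd (nat_lit 5) (.nd (nat_lit 6) 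
(.lf (nat_lit 117276) (.g (nat_lit 2054) (.e (nat_lit 5951) (nat_lit 322) (.e (nat_lit 57373) (nat_lit 2) (.e (nat_lit 90185) (nat_lit 17) (.e (nat_lit 237605) (nat_lit 9) (.e (nat_lit 426479) (nat_lit 27) (.e (nat_lit 336421) (nat_lit 28) (.e (nat_lit 434212) (nat_lit 18) .nil))))))) (.g (nat_lit 4) .nil .nil))) 
(.lf (nat_lit 117340) (.g (nat_lit 1733) (.e (nat_lit 5951) (nat_lit 322) (.e (nat_lit 57447) (nat_lit 19) (.e (nat_lit 393234) (nat_lit 17) (.e (nat_lit 7583) (nat_lit 405) (.e (nat_lit 57476) (nat_lit 28) .nil))))) .nil))) (.nd (nat_lit 6) 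
(.lf (nat_lit 117308) (.g (nat_lit 2352) (.e (nat_lit 5951) (nat_lit 322) (.e (nat_lit 57400) (nat_lit 10) (.e (nat_lit 319534) (nat_lit 16) (.e (nat_lit 286760) (nat_lit 13) (.e (nat_lit 393289) (nat_lit 25) .nil))))) .nil)) 
(.lf (nat_lit 117372) (.g (nat_lit 2575) (.e (nat_lit 5953) (nat_lit 322) (.e (nat_lit 57371) (nat_lit 2) (.e (nat_lit 90172) (nat_lit 14) (.e (nat_lit 180244) (nat_lit 5) (.e (nat_lit 532513) (nat_lit 3) (.e (nat_lit 114719) (nat_lit 23) (.e (nat_lit 98325) (nat_lit 17) (.e (nat_lit 2478) (nat_lit 157) .nil)))))))) (.g (nat_lit 4) .nil .nil)))))))) 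
(.nd (nat_lit 2) (.nd (nat_lit 3) (.nd (nat_lit 4) (.nd (nat_lit 5) (.nd (nat_lit 6) 
(.lf (nat_lit 117250) (.g (nat_lit 3252) (.e (nat_lit 5951) (nat_lit 322) (.e (nat_lit 57371) (nat_lit 2) (.e (nat_lit 90172) (nat_lit 14) (.e (nat_lit 180243) (nat_lit 5) (.e (nat_lit 532513) (nat_lit 3) (.e (nat_lit 114714) (nat_lit 22) (.e (nat_lit 90164) (nat_lit 12) (.e (nat_lit 163850) (nat_lit 0) .nil)))))))) (.g (nat_lit 5) .nil .nil))) 
(.lf (nat_lit 117314) (.g (nat_lit 2981) (.e (nat_lit 5951) (nat_lit 322) (.e (nat_lit 57409) (nat_lit 12) (.e (nat_lit 336443) (nat_lit 32) (.e (nat_lit 466974) (nat_lit 22) (.e (nat_lit 196624) (nat_lit 9) .nil))))) .nil))) (.nd (nat_lit 6) 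
(.lf (nat_lit 117282) (.g (nat_lit 1696) (.e (nat_lit 5951) (nat_lit 322) (.e (nat_lit 57378) (nat_lit 3) (.e (nat_lit 98365) (nat_lit 26) (.e (nat_lit 426188) (nat_lit 9) .nil)))) .nil)) 
(.lf (nat_lit 117346) (.g (nat_lit 2400) (.e (nat_lit 5952) (nat_lit 322) (.e (nat_lit 57373) (nat_lit 2) (.e (nat_lit 90172) (nat_lit 14) (.e (nat_lit 180244) (nat_lit 5) (.e (nat_lit 532513) (nat_lit 3) .nil))))) .nil)))) (.nd (nat_lit 5) (.nd (nat_lit 6) 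
(.lf (nat_lit 117266) (.g (nat_lit 1660) (.e (nat_lit 5951) (nat_lit 322) (.e (nat_lit 57373) (nat_lit 2) (.e (nat_lit 90172) (nat_lit 14) (.e (nat_lit 180244) (nat_lit 5) .nil)))) .nil)) 
(.lf (nat_lit 117330) (.g (nat_lit 2139) (.e (nat_lit 5951) (nat_lit 322) (.e (nat_lit 57445) (nat_lit 19) (.e (nat_lit 393234) (nat_lit 17) (.e (nat_lit 7581) (nat_lit 405) (.e (nat_lit 57480) (nat_lit 28) .nil))))) .nil))) (.nd (nat_lit 6) 
(.lf (nat_lit 117298) (.g (nat_lit 2128) (.e (nat_lit 5951) (nat_lit 322) (.e (nat_lit 57400) (nat_lit 10) (.e (nat_lit 319528) (nat_lit 16) (.e (nat_lit 286761) (nat_lit 13) (.e (nat_lit 393286) (nat_lit 25) (.e (nat_lit 458774) (nat_lit 18) .nil)))))) (.g (nat_lit 4) .nil .nil))) 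
(.lf (nat_lit 117362) (.g (nat_lit 2309) (.e (nat_lit 5952) (nat_lit 322) (.e (nat_lit 57447) (nat_lit 19) (.e (nat_lit 393234) (nat_lit 17) (.e (nat_lit 7581) (nat_lit 405) (.e (nat_lit 57477) (nat_lit 28) (.e (nat_lit 557104) (nat_lit 14) (.e (nat_lit 180224) (nat_lit 0) .nil))))))) (.g (nat_lit 4) .nil .nil)))))) (.nd (nat_lit 4) (.nd (nat_lit 5) (.nd (nat_lit 6) 
(.lf (nat_lit 117258) (.g (nat_lit 2248) (.e (nat_lit 5951) (nat_lit 322) (.e (nat_lit 57371) (nat_lit 2) (.e (nat_lit 90174) (nat_lit 14) (.e (nat_lit 180243) (nat_lit 5) (.e (nat_lit 532513) (nat_lit 3) (.e (nat_lit 114714) (nat_lit 22) (.e (nat_lit 90181) (nat_lit 16) (.e (nat_lit 229376) (nat_lit 0) .nil)))))))) (.g (nat_lit 4) .nil .nil))) 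
(.lf (nat_lit 117322) (.g (nat_lit 2286) (.e (nat_lit 5951) (nat_lit 322) (.e (nat_lit 57445) (nat_lit 19) (.e (nat_lit 393232) (nat_lit 17) (.e (nat_lit 7581) (nat_lit 405) (.e (nat_lit 57476) (nat_lit 28) .nil))))) .nil))) (.nd (nat_lit 6) 
(.lf (nat_lit 117290) (.g (nat_lit 3555) (.e (nat_lit 5951) (nat_lit 322) (.e (nat_lit 57378) (nat_lit 3) (.e (nat_lit 98373) (nat_lit 29) (.e (nat_lit 450561) (nat_lit 0) (.e (nat_lit 6595) (nat_lit 351) .nil))))) .nil)) 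
(.lf (nat_lit 117354) (.g (nat_lit 1849) (.e (nat_lit 5952) (nat_lit 322) (.e (nat_lit 57409) (nat_lit 12) (.e (nat_lit 336443) (nat_lit 32) (.e (nat_lit 466974) (nat_lit 22) .nil)))) .nil)))) (.nd (nat_lit 5) (.nd (nat_lit 6) 
(.lf (nat_lit 117274) (.g (nat_lit 2251) (.e (nat_lit 5951) (nat_lit 322) (.e (nat_lit 57373) (nat_lit 2) (.e (nat_lit 90178) (nat_lit 15) (.e (nat_lit 188461) (nat_lit 26) .nil)))) .nil)) 
(.lf (nat_lit 117338) (.g (nat_lit 3962) (.e (nat_lit 5951) (nat_lit 322) (.e (nat_lit 57447) (nat_lit 19) (.e (nat_lit 393234) (nat_lit 17) (.e (nat_lit 7581) (nat_lit 405) (.e (nat_lit 57480) (nat_lit 28) (.e (nat_lit 557103) (nat_lit 14) (.e (nat_lit 180229) (nat_lit 0) .nil))))))) (.g (nat_lit 6) .nil .nil)))) (.nd (nat_lit 6) 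
(.lf (nat_lit 117306) (.g (nat_lit 2528) (.e (nat_lit 5951) (nat_lit 322) (.e (nat_lit 57400) (nat_lit 10) (.e (nat_lit 319533) (nat_lit 16) (.e (nat_lit 286761) (nat_lit 13) (.e (nat_lit 393286) (nat_lit 25) .nil))))) .nil)) 
(.lf (nat_lit 117370) (.g (nat_lit 2346) (.e (nat_lit 5953) (nat_lit 322) (.e (nat_lit 57371) (nat_lit 2) (.e (nat_lit 90172) (nat_lit 14) (.e (nat_lit 180244) (nat_lit 5) (.e (nat_lit 532513) (nat_lit 3) (.e (nat_lit 114714) (nat_lit 22) (.e (nat_lit 90165) (nat_lit 12) (.e (nat_lit 163853) (nat_lit 0) .nil)))))))) (.g (nat_lit 4) .nil .nil))))))) 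
(.nd (nat_lit 3) (.nd (nat_lit 4) (.nd (nat_lit 5) (.nd (nat_lit 6) 
(.lf (nat_lit 117254) (.g (nat_lit 2153) (.e (nat_lit 5951) (nat_lit 322) (.e (nat_lit 57371) (nat_lit 2) (.e (nat_lit 90172) (nat_lit 14) (.e (nat_lit 180244) (nat_lit 5) (.e (nat_lit 532515) (nat_lit 3) (.e (nat_lit 114715) (nat_lit 22) (.e (nat_lit 90165) (nat_lit 12) (.e (nat_lit 163853) (nat_lit 0) .nil)))))))) (.g (nat_lit 4) .nil .nil))) 
(.lf (nat_lit 117318) (.g (nat_lit 1579) (.e (nat_lit 5951) (nat_lit 322) (.e (nat_lit 57424) (nat_lit 14) (.e (nat_lit 352318) (nat_lit 24) (.e (nat_lit 123182) (nat_lit 264) .nil)))) .nil))) (.nd (nat_lit 6) 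
(.lf (nat_lit 117286) (.g (nat_lit 2314) (.e (nat_lit 5951) (nat_lit 322) (.e (nat_lit 57378) (nat_lit 3) (.e (nat_lit 98365) (nat_lit 26) (.e (nat_lit 426188) (nat_lit 9) (.e (nat_lit 426566) (nat_lit 34) .nil))))) .nil)) 
(.lf (nat_lit 117350) (.g (nat_lit 849) (.e (nat_lit 5952) (nat_lit 322) (.e (nat_lit 57373) (nat_lit 2) (.e (nat_lit 90178) (nat_lit 15) .nil))) .nil)))) (.nd (nat_lit 5) (.nd (nat_lit 6) 
(.lf (nat_lit 117270) (.g (nat_lit 2180) (.e (nat_lit 5951) (nat_lit 322) (.e (nat_lit 57373) (nat_lit 2) (.e (nat_lit 90174) (nat_lit 14) (.e (nat_lit 180243) (nat_lit 5) (.e (nat_lit 532513) (nat_lit 3) .nil))))) .nil)) 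
(.lf (nat_lit 117334) (.g (nat_lit 2394) (.e (nat_lit 5951) (nat_lit 322) (.e (nat_lit 57447) (nat_lit 19) (.e (nat_lit 393234) (nat_lit 17) (.e (nat_lit 7581) (nat_lit 405) (.e (nat_lit 57476) (nat_lit 28) (.e (nat_lit 557104) (nat_lit 14) (.e (nat_lit 180224) (nat_lit 0) .nil))))))) (.g (nat_lit 4) .nil .nil)))) (.nd (nat_lit 6) 
(.lf (nat_lit 117302) (.g (nat_lit 2624) (.e (nat_lit 5951) (nat_lit 322) (.e (nat_lit 57400) (nat_lit 10) (.e (nat_lit 319531) (nat_lit 16) (.e (nat_lit 286761) (nat_lit 13) (.e (nat_lit 393289) (nat_lit 25) (.e (nat_lit 458774) (nat_lit 18) .nil)))))) (.g (nat_lit 0) .nil .nil))) 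
(.lf (nat_lit 117366) (.g (nat_lit 2654) (.e (nat_lit 5952) (nat_lit 322) (.e (nat_lit 57447) (nat_lit 19) (.e (nat_lit 393301) (nat_lit 27) (.e (nat_lit 491526) (nat_lit 0) (.e (nat_lit 1848) (nat_lit 124) (.e (nat_lit 557104) (nat_lit 14) (.e (nat_lit 180229) (nat_lit 0) .nil))))))) (.g (nat_lit 4) .nil .nil)))))) (.nd (nat_lit 4) (.nd (nat_lit 5) (.nd (nat_lit 6) 
(.lf (nat_lit 117262) (.g (nat_lit 1947) (.e (nat_lit 5951) (nat_lit 322) (.e (nat_lit 57373) (nat_lit 2) (.e (nat_lit 90170) (nat_lit 13) (.e (nat_lit 172067) (nat_lit 3) .nil)))) .nil)) 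
(.lf (nat_lit 117326) (.g (nat_lit 2495) (.e (nat_lit 5951) (nat_lit 322) (.e (nat_lit 57445) (nat_lit 19) (.e (nat_lit 393234) (nat_lit 17) (.e (nat_lit 7581) (nat_lit 405) (.e (nat_lit 57476) (nat_lit 28) .nil))))) .nil))) (.nd (nat_lit 6) 
(.lf (nat_lit 117294) (.g (nat_lit 1932) (.e (nat_lit 5951) (nat_lit 322) (.e (nat_lit 57378) (nat_lit 3) (.e (nat_lit 98373) (nat_lit 29) (.e (nat_lit 458496) (nat_lit 22) .nil)))) .nil)) 
(.lf (nat_lit 117358) (.g (nat_lit 2384) (.e (nat_lit 5952) (nat_lit 322) (.e (nat_lit 57445) (nat_lit 19) (.e (nat_lit 393234) (nat_lit 17) (.e (nat_lit 7581) (nat_lit 405) (.e (nat_lit 57477) (nat_lit 28) .nil))))) .nil)))) (.nd (nat_lit 5) (.nd (nat_lit 6) 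
(.lf (nat_lit 117278) (.g (nat_lit 677) (.e (nat_lit 5951) (nat_lit 322) (.e (nat_lit 57378) (nat_lit 3) (.e (nat_lit 98365) (nat_lit 26) .nil))) .nil)) 
(.lf (nat_lit 117342) (.g (nat_lit 1744) (.e (nat_lit 5951) (nat_lit 322) (.e (nat_lit 57447) (nat_lit 19) (.e (nat_lit 393281) (nat_lit 23) (.e (nat_lit 426116) (nat_lit 2) .nil)))) .nil))) (.nd (nat_lit 6) 
(.lf (nat_lit 117310) (.g (nat_lit 2439) (.e (nat_lit 5951) (nat_lit 322) (.e (nat_lit 57400) (nat_lit 10) (.e (nat_lit 319534) (nat_lit 16) (.e (nat_lit 286761) (nat_lit 13) (.e (nat_lit 393286) (nat_lit 25) (.e (nat_lit 458774) (nat_lit 18) .nil)))))) (.g (nat_lit 4) .nil .nil))) 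
(.lf (nat_lit 117374) (.g (nat_lit 2271) (.e (nat_lit 5953) (nat_lit 322) (.e (nat_lit 57371) (nat_lit 2) (.e (nat_lit 90172) (nat_lit 14) (.e (nat_lit 180244) (nat_lit 5) (.e (nat_lit 532515) (nat_lit 3) (.e (nat_lit 114716) (nat_lit 22) (.e (nat_lit 90181) (nat_lit 16) (.e (nat_lit 229376) (nat_lit 0) .nil)))))))) (.g (nat_lit 4) .nil .nil))))))))) 
(.nd (nat_lit 1) (.nd (nat_lit 2) (.nd (nat_lit 3) (.nd (nat_lit 4) (.nd (nat_lit 5) 
(.nd (nat_lit 6) 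
(.lf (nat_lit 117249) (.g (nat_lit 2591) (.e (nat_lit 5950) (nat_lit 322) (.e (nat_lit 57447) (nat_lit 19) (.e (nat_lit 393301) (nat_lit 27) (.e (nat_lit 491526) (nat_lit 0) (.e (nat_lit 1848) (nat_lit 124) .nil))))) .nil)) 
(.lf (nat_lit 117313) (.g (nat_lit 876) (.e (nat_lit 5951) (nat_lit 322) (.e (nat_lit 57409) (nat_lit 12) (.e (nat_lit 336443) (nat_lit 32) .nil))) .nil))) (.nd (nat_lit 6) 
(.lf (nat_lit 117281) (.g (nat_lit 2036) (.e (nat_lit 5951) (nat_lit 322) (.e (nat_lit 57378) (nat_lit 3) (.e (nat_lit 98365) (nat_lit 26) (.e (nat_lit 426187) (nat_lit 9) (.e (nat_lit 426566) (nat_lit 34) (.e (nat_lit 393235) (nat_lit 17) (.e (nat_lit 2464) (nat_lit 157) .nil))))))) (.g (nat_lit 4) .nil .nil))) 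
(.lf (nat_lit 117345) (.g (nat_lit 869) (.e (nat_lit 5952) (nat_lit 322) (.e (nat_lit 57373) (nat_lit 2) (.e (nat_lit 90172) (nat_lit 14) .nil))) .nil)))) (.nd (nat_lit 5) (.nd (nat_lit 6) 
(.lf (nat_lit 117265) (.g (nat_lit 2709) (.e (nat_lit 5951) (nat_lit 322) (.e (nat_lit 57373) (nat_lit 2) (.e (nat_lit 90172) (nat_lit 14) (.e (nat_lit 180243) (nat_lit 5) (.e (nat_lit 532515) (nat_lit 3) .nil))))) .nil)) 
(.lf (nat_lit 117329) (.g (nat_lit 2762) (.e (nat_lit 5951) (nat_lit 322) (.e (nat_lit 57445) (nat_lit 19) (.e (nat_lit 393234) (nat_lit 17) (.e (nat_lit 7581) (nat_lit 405) (.e (nat_lit 57477) (nat_lit 28) (.e (nat_lit 557104) (nat_lit 14) (.e (nat_lit 180229) (nat_lit 0) .nil))))))) (.g (nat_lit 5) .nil .nil)))) (.nd (nat_lit 6) 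
(.lf (nat_lit 117297) (.g (nat_lit 1550) (.e (nat_lit 5951) (nat_lit 322) (.e (nat_lit 57400) (nat_lit 10) (.e (nat_lit 319511) (nat_lit 10) (.e (nat_lit 5293) (nat_lit 298) (.e (nat_lit 1656) (nat_lit 115) (.e (nat_lit 393289) (nat_lit 25) (.e (nat_lit 458774) (nat_lit 18) .nil))))))) (.g (nat_lit 5) .nil .nil))) 
(.lf (nat_lit 117361) (.g (nat_lit 2304) (.e (nat_lit 5952) (nat_lit 322) (.e (nat_lit 57447) (nat_lit 19) (.e (nat_lit 393234) (nat_lit 17) (.e (nat_lit 7581) (nat_lit 405) (.e (nat_lit 57477) (nat_lit 28) .nil))))) .nil))))) (.nd (nat_lit 4) (.nd (nat_lit 5) (.nd (nat_lit 6) 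
(.lf (nat_lit 117257) (.g (nat_lit 2385) (.e (nat_lit 5951) (nat_lit 322) (.e (nat_lit 57371) (nat_lit 2) (.e (nat_lit 90174) (nat_lit 14) (.e (nat_lit 180243) (nat_lit 5) (.e (nat_lit 532508) (nat_lit 2) .nil))))) .nil)) 
(.lf (nat_lit 117321) (.g (nat_lit 1844) (.e (nat_lit 5951) (nat_lit 322) (.e (nat_lit 57424) (nat_lit 14) (.e (nat_lit 352318) (nat_lit 24) (.e (nat_lit 123198) (nat_lit 266) .nil)))) .nil))) (.nd (nat_lit 6) 
(.lf (nat_lit 117289) (.g (nat_lit 1884) (.e (nat_lit 5951) (nat_lit 322) (.e (nat_lit 57378) (nat_lit 3) (.e (nat_lit 98372) (nat_lit 29) (.e (nat_lit 450602) (nat_lit 22) .nil)))) .nil)) 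
(.lf (nat_lit 117353) (.g (nat_lit 2028) (.e (nat_lit 5952) (nat_lit 322) (.e (nat_lit 57378) (nat_lit 3) (.e (nat_lit 98365) (nat_lit 26) (.e (nat_lit 426325) (nat_lit 13) .nil)))) .nil)))) (.nd (nat_lit 5) (.nd (nat_lit 6) 
(.lf (nat_lit 117273) (.g (nat_lit 2280) (.e (nat_lit 5951) (nat_lit 322) (.e (nat_lit 57373) (nat_lit 2) (.e (nat_lit 90178) (nat_lit 15) (.e (nat_lit 188459) (nat_lit 26) .nil)))) .nil)) 
(.lf (nat_lit 117337) (.g (nat_lit 2332) (.e (nat_lit 5951) (nat_lit 322) (.e (nat_lit 57447) (nat_lit 19) (.e (nat_lit 393234) (nat_lit 17) (.e (nat_lit 7581) (nat_lit 405) (.e (nat_lit 57477) (nat_lit 28) (.e (nat_lit 557104) (nat_lit 14) (.e (nat_lit 180230) (nat_lit 0) .nil))))))) (.g (nat_lit 4) .nil .nil)))) (.nd (nat_lit 6) 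
(.lf (nat_lit 117305) (.g (nat_lit 2519) (.e (nat_lit 5951) (nat_lit 322) (.e (nat_lit 57400) (nat_lit 10) (.e (nat_lit 319533) (nat_lit 16) (.e (nat_lit 286761) (nat_lit 13) (.e (nat_lit 393282) (nat_lit 24) .nil))))) .nil)) 
(.lf (nat_lit 117369) (.g (nat_lit 2194) (.e (nat_lit 5953) (nat_lit 322) (.e (nat_lit 57371) (nat_lit 2) (.e (nat_lit 90172) (nat_lit 14) (.e (nat_lit 180244) (nat_lit 5) (.e (nat_lit 532513) (nat_lit 3) .nil))))) .nil)))))) (.nd (nat_lit 3) (.nd (nat_lit 4) (.nd (nat_lit 5) (.nd (nat_lit 6) 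
(.lf (nat_lit 117253) (.g (nat_lit 2111) (.e (nat_lit 5951) (nat_lit 322) (.e (nat_lit 57371) (nat_lit 2) (.e (nat_lit 90172) (nat_lit 14) (.e (nat_lit 180244) (nat_lit 5) (.e (nat_lit 532515) (nat_lit 3) .nil))))) .nil)) 
(.lf (nat_lit 117317) (.g (nat_lit 785) (.e (nat_lit 5951) (nat_lit 322) (.e (nat_lit 57424) (nat_lit 14) (.e (nat_lit 352318) (nat_lit 24) .nil))) .nil))) (.nd (nat_lit 6) 
(.lf (nat_lit 117285) (.g (nat_lit 2619) (.e (nat_lit 5951) (nat_lit 322) (.e (nat_lit 57378) (nat_lit 3) (.e (nat_lit 98365) (nat_lit 26) (.e (nat_lit 426188) (nat_lit 9) (.e (nat_lit 426484) (nat_lit 27) .nil))))) .nil)) 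
(.lf (nat_lit 117349) (.g (nat_lit 2457) (.e (nat_lit 5952) (nat_lit 322) (.e (nat_lit 57373) (nat_lit 2) (.e (nat_lit 90174) (nat_lit 14) (.e (nat_lit 180243) (nat_lit 5) (.e (nat_lit 532513) (nat_lit 3) .nil))))) .nil)))) (.nd (nat_lit 5) (.nd (nat_lit 6) 
(.lf (nat_lit 117269) (.g (nat_lit 2272) (.e (nat_lit 5951) (nat_lit 322) (.e (nat_lit 57373) (nat_lit 2) (.e (nat_lit 90174) (nat_lit 14) (.e (nat_lit 180243) (nat_lit 5) (.e (nat_lit 532508) (nat_lit 2) .nil))))) .nil)) 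
(.lf (nat_lit 117333) (.g (nat_lit 2298) (.e (nat_lit 5951) (nat_lit 322) (.e (nat_lit 57447) (nat_lit 19) (.e (nat_lit 393234) (nat_lit 17) (.e (nat_lit 7581) (nat_lit 405) (.e (nat_lit 57476) (nat_lit 28) .nil))))) .nil))) (.nd (nat_lit 6) 
(.lf (nat_lit 117301) (.g (nat_lit 2599) (.e (nat_lit 5951) (nat_lit 322) (.e (nat_lit 57400) (nat_lit 10) (.e (nat_lit 319530) (nat_lit 16) (.e (nat_lit 286761) (nat_lit 13) (.e (nat_lit 393289) (nat_lit 25) (.e (nat_lit 458774) (nat_lit 18) .nil)))))) (.g (nat_lit 6) .nil .nil))) 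
(.lf (nat_lit 117365) (.g (nat_lit 2591) (.e (nat_lit 5952) (nat_lit 322) (.e (nat_lit 57447) (nat_lit 19) (.e (nat_lit 393301) (nat_lit 27) (.e (nat_lit 491526) (nat_lit 0) (.e (nat_lit 1848) (nat_lit 124) .nil))))) .nil))))) (.nd (nat_lit 4) (.nd (nat_lit 5) (.nd (nat_lit 6) 
(.lf (nat_lit 117261) (.g (nat_lit 2480) (.e (nat_lit 5951) (nat_lit 322) (.e (nat_lit 57373) (nat_lit 2) (.e (nat_lit 90170) (nat_lit 13) (.e (nat_lit 172065) (nat_lit 3) .nil)))) .nil)) 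
(.lf (nat_lit 117325) (.g (nat_lit 2061) (.e (nat_lit 5951) (nat_lit 322) (.e (nat_lit 57445) (nat_lit 19) (.e (nat_lit 393232) (nat_lit 17) (.e (nat_lit 7581) (nat_lit 405) (.e (nat_lit 57480) (nat_lit 28) (.e (nat_lit 557105) (nat_lit 14) (.e (nat_lit 180230) (nat_lit 0) .nil))))))) (.g (nat_lit 4) .nil .nil)))) (.nd (nat_lit 6) 
(.lf (nat_lit 117293) (.g (nat_lit 2920) (.e (nat_lit 5951) (nat_lit 322) (.e (nat_lit 57378) (nat_lit 3) (.e (nat_lit 98373) (nat_lit 29) (.e (nat_lit 450602) (nat_lit 22) (.e (nat_lit 704594) (nat_lit 5) .nil))))) .nil)) 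
(.lf (nat_lit 117357) (.g (nat_lit 2174) (.e (nat_lit 5952) (nat_lit 322) (.e (nat_lit 57445) (nat_lit 19) (.e (nat_lit 393232) (nat_lit 17) (.e (nat_lit 7581) (nat_lit 405) (.e (nat_lit 57480) (nat_lit 28) .nil))))) .nil)))) (.nd (nat_lit 5) (.nd (nat_lit 6) 
(.lf (nat_lit 117277) (.g (nat_lit 640) (.e (nat_lit 5951) (nat_lit 322) (.e (nat_lit 57377) (nat_lit 3) (.e (nat_lit 98365) (nat_lit 26) .nil))) .nil)) 
(.lf (nat_lit 117341) (.g (nat_lit 1726) (.e (nat_lit 5951) (nat_lit 322) (.e (nat_lit 57447) (nat_lit 19) (.e (nat_lit 393281) (nat_lit 23) (.e (nat_lit 426115) (nat_lit 2) .nil)))) .nil))) (.nd (nat_lit 6) 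
(.lf (nat_lit 117309) (.g (nat_lit 1171) (.e (nat_lit 5951) (nat_lit 322) (.e (nat_lit 57400) (nat_lit 10) (.e (nat_lit 319534) (nat_lit 16) (.e (nat_lit 286761) (nat_lit 13) .nil)))) .nil)) 
(.lf (nat_lit 117373) (.g (nat_lit 2195) (.e (nat_lit 5953) (nat_lit 322) (.e (nat_lit 57371) (nat_lit 2) (.e (nat_lit 90172) (nat_lit 14) (.e (nat_lit 180244) (nat_lit 5) (.e (nat_lit 532515) (nat_lit 3) .nil))))) .nil))))))) (.nd (nat_lit 2) (.nd (nat_lit 3) (.nd (nat_lit 4) (.nd (nat_lit 5) (.nd (nat_lit 6) 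
(.lf (nat_lit 117251) (.g (nat_lit 2290) (.e (nat_lit 5951) (nat_lit 322) (.e (nat_lit 57371) (nat_lit 2) (.e (nat_lit 90172) (nat_lit 14) (.e (nat_lit 180243) (nat_lit 5) (.e (nat_lit 532515) (nat_lit 3) (.e (nat_lit 114716) (nat_lit 22) (.e (nat_lit 90164) (nat_lit 12) (.e (nat_lit 163850) (nat_lit 0) .nil)))))))) (.g (nat_lit 4) .nil .nil))) 
(.lf (nat_lit 117315) (.g (nat_lit 2884) (.e (nat_lit 5951) (nat_lit 322) (.e (nat_lit 57409) (nat_lit 12) (.e (nat_lit 336443) (nat_lit 32) (.e (nat_lit 466977) (nat_lit 22) (.e (nat_lit 196624) (nat_lit 9) .nil))))) .nil))) (.nd (nat_lit 6) 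
(.lf (nat_lit 117283) (.g (nat_lit 2542) (.e (nat_lit 5951) (nat_lit 322) (.e (nat_lit 57378) (nat_lit 3) (.e (nat_lit 98365) (nat_lit 26) (.e (nat_lit 426188) (nat_lit 9) (.e (nat_lit 426479) (nat_lit 27) .nil))))) .nil)) 
(.lf (nat_lit 117347) (.g (nat_lit 2247) (.e (nat_lit 5952) (nat_lit 322) (.e (nat_lit 57373) (nat_lit 2) (.e (nat_lit 90172) (nat_lit 14) (.e (nat_lit 180244) (nat_lit 5) (.e (nat_lit 532515) (nat_lit 3) .nil))))) .nil)))) (.nd (nat_lit 5) (.nd (nat_lit 6) 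
(.lf (nat_lit 117267) (.g (nat_lit 2092) (.e (nat_lit 5951) (nat_lit 322) (.e (nat_lit 57373) (nat_lit 2) (.e (nat_lit 90172) (nat_lit 14) (.e (nat_lit 180244) (nat_lit 5) (.e (nat_lit 532515) (nat_lit 3) .nil))))) .nil)) 
(.lf (nat_lit 117331) (.g (nat_lit 1709) (.e (nat_lit 5951) (nat_lit 322) (.e (nat_lit 57445) (nat_lit 19) (.e (nat_lit 393281) (nat_lit 23) (.e (nat_lit 426116) (nat_lit 2) (.e (nat_lit 196624) (nat_lit 9) .nil))))) .nil))) (.nd (nat_lit 6) 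
(.lf (nat_lit 117299) (.g (nat_lit 2318) (.e (nat_lit 5951) (nat_lit 322) (.e (nat_lit 57400) (nat_lit 10) (.e (nat_lit 319529) (nat_lit 16) (.e (nat_lit 286761) (nat_lit 13) (.e (nat_lit 393289) (nat_lit 25) (.e (nat_lit 458774) (nat_lit 18) .nil)))))) (.g (nat_lit 6) .nil .nil))) 
(.lf (nat_lit 117363) (.g (nat_lit 2216) (.e (nat_lit 5952) (nat_lit 322) (.e (nat_lit 57447) (nat_lit 19) (.e (nat_lit 393234) (nat_lit 17) (.e (nat_lit 7581) (nat_lit 405) (.e (nat_lit 57480) (nat_lit 28) (.e (nat_lit 557103) (nat_lit 14) (.e (nat_lit 180224) (nat_lit 0) .nil))))))) (.g (nat_lit 4) .nil .nil)))))) (.nd (nat_lit 4) (.nd (nat_lit 5) (.nd (nat_lit 6) 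
(.lf (nat_lit 117259) (.g (nat_lit 2237) (.e (nat_lit 5951) (nat_lit 322) (.e (nat_lit 57371) (nat_lit 2) (.e (nat_lit 90174) (nat_lit 14) (.e (nat_lit 180243) (nat_lit 5) (.e (nat_lit 532515) (nat_lit 3) .nil))))) .nil)) 
(.lf (nat_lit 117323) (.g (nat_lit 2070) (.e (nat_lit 5951) (nat_lit 322) (.e (nat_lit 57445) (nat_lit 19) (.e (nat_lit 393232) (nat_lit 17) (.e (nat_lit 7581) (nat_lit 405) (.e (nat_lit 57477) (nat_lit 28) (.e (nat_lit 557103) (nat_lit 14) (.e (nat_lit 180229) (nat_lit 0) .nil))))))) (.g (nat_lit 4) .nil .nil)))) (.nd (nat_lit 6) 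
(.lf (nat_lit 117291) (.g (nat_lit 4165) (.e (nat_lit 5951) (nat_lit 322) (.e (nat_lit 57378) (nat_lit 3) (.e (nat_lit 98373) (nat_lit 29) (.e (nat_lit 450562) (nat_lit 0) (.e (nat_lit 6595) (nat_lit 351) .nil))))) .nil)) 
(.lf (nat_lit 117355) (.g (nat_lit 1838) (.e (nat_lit 5952) (nat_lit 322) (.e (nat_lit 57409) (nat_lit 12) (.e (nat_lit 336443) (nat_lit 32) (.e (nat_lit 466977) (nat_lit 22) .nil)))) .nil)))) (.nd (nat_lit 5) (.nd (nat_lit 6) 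
(.lf (nat_lit 117275) (.g (nat_lit 1913) (.e (nat_lit 5951) (nat_lit 322) (.e (nat_lit 57373) (nat_lit 2) (.e (nat_lit 90185) (nat_lit 17) (.e (nat_lit 237601) (nat_lit 9) (.e (nat_lit 426479) (nat_lit 27) (.e (nat_lit 336421) (nat_lit 28) (.e (nat_lit 434212) (nat_lit 18) .nil))))))) (.g (nat_lit 4) .nil .nil))) 
(.lf (nat_lit 117339) (.g (nat_lit 2244) (.e (nat_lit 5951) (nat_lit 322) (.e (nat_lit 57447) (nat_lit 19) (.e (nat_lit 393234) (nat_lit 17) (.e (nat_lit 7581) (nat_lit 405) (.e (nat_lit 57480) (nat_lit 28) (.e (nat_lit 557105) (nat_lit 14) (.e (nat_lit 180228) (nat_lit 0) .nil))))))) (.g (nat_lit 4) .nil .nil)))) (.nd (nat_lit 6) 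
(.lf (nat_lit 117307) (.g (nat_lit 3087) (.e (nat_lit 5951) (nat_lit 322) (.e (nat_lit 57400) (nat_lit 10) (.e (nat_lit 319533) (nat_lit 16) (.e (nat_lit 286761) (nat_lit 13) (.e (nat_lit 393289) (nat_lit 25) (.e (nat_lit 458774) (nat_lit 18) .nil)))))) (.g (nat_lit 6) .nil .nil))) 
(.lf (nat_lit 117371) (.g (nat_lit 2478) (.e (nat_lit 5953) (nat_lit 322) (.e (nat_lit 57371) (nat_lit 2) (.e (nat_lit 90172) (nat_lit 14) (.e (nat_lit 180244) (nat_lit 5) (.e (nat_lit 532513) (nat_lit 3) (.e (nat_lit 114718) (nat_lit 23) (.e (nat_lit 98325) (nat_lit 17) (.e (nat_lit 2478) (nat_lit 157) .nil)))))))) (.g (nat_lit 4) .nil .nil))))))) 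
(.nd (nat_lit 3) (.nd (nat_lit 4) (.nd (nat_lit 5) (.nd (nat_lit 6) 
(.lf (nat_lit 117255) (.g (nat_lit 2163) (.e (nat_lit 5951) (nat_lit 322) (.e (nat_lit 57371) (nat_lit 2) (.e (nat_lit 90172) (nat_lit 14) (.e (nat_lit 180244) (nat_lit 5) (.e (nat_lit 532515) (nat_lit 3) (.e (nat_lit 114716) (nat_lit 22) (.e (nat_lit 90163) (nat_lit 12) (.e (nat_lit 163850) (nat_lit 0) .nil)))))))) (.g (nat_lit 4) .nil .nil))) 
(.lf (nat_lit 117319) (.g (nat_lit 1583) (.e (nat_lit 5951) (nat_lit 322) (.e (nat_lit 57424) (nat_lit 14) (.e (nat_lit 352318) (nat_lit 24) (.e (nat_lit 123184) (nat_lit 264) .nil)))) .nil))) (.nd (nat_lit 6) 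
(.lf (nat_lit 117287) (.g (nat_lit 2639) (.e (nat_lit 5951) (nat_lit 322) (.e (nat_lit 57378) (nat_lit 3) (.e (nat_lit 98367) (nat_lit 27) (.e (nat_lit 434247) (nat_lit 28) (.e (nat_lit 573489) (nat_lit 14) .nil))))) .nil)) 
(.lf (nat_lit 117351) (.g (nat_lit 1988) (.e (nat_lit 5952) (nat_lit 322) (.e (nat_lit 57378) (nat_lit 3) (.e (nat_lit 98365) (nat_lit 26) (.e (nat_lit 426187) (nat_lit 9) .nil)))) .nil)))) (.nd (nat_lit 5) (.nd (nat_lit 6) 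
(.lf (nat_lit 117271) (.g (nat_lit 933) (.e (nat_lit 5951) (nat_lit 322) (.e (nat_lit 57373) (nat_lit 2) (.e (nat_lit 90176) (nat_lit 15) .nil))) .nil)) 
(.lf (nat_lit 117335) (.g (nat_lit 2269) (.e (nat_lit 5951) (nat_lit 322) (.e (nat_lit 57447) (nat_lit 19) (.e (nat_lit 393234) (nat_lit 17) (.e (nat_lit 7581) (nat_lit 405) (.e (nat_lit 57477) (nat_lit 28) .nil))))) .nil))) (.nd (nat_lit 6) 
(.lf (nat_lit 117303) (.g (nat_lit 1851) (.e (nat_lit 5951) (nat_lit 322) (.e (nat_lit 57400) (nat_lit 10) (.e (nat_lit 319533) (nat_lit 16) (.e (nat_lit 286760) (nat_lit 13) (.e (nat_lit 393288) (nat_lit 25) .nil))))) .nil)) 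
(.lf (nat_lit 117367) (.g (nat_lit 1910) (.e (nat_lit 5952) (nat_lit 322) (.e (nat_lit 57450) (nat_lit 20) (.e (nat_lit 401454) (nat_lit 12) (.e (nat_lit 475210) (nat_lit 41) (.e (nat_lit 712755) (nat_lit 30) .nil))))) .nil))))) (.nd (nat_lit 4) (.nd (nat_lit 5) (.nd (nat_lit 6) 
(.lf (nat_lit 117263) (.g (nat_lit 2470) (.e (nat_lit 5951) (nat_lit 322) (.e (nat_lit 57373) (nat_lit 2) (.e (nat_lit 90170) (nat_lit 13) (.e (nat_lit 172113) (nat_lit 10) .nil)))) .nil)) 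
(.lf (nat_lit 117327) (.g (nat_lit 2661) (.e (nat_lit 5951) (nat_lit 322) (.e (nat_lit 57445) (nat_lit 19) (.e (nat_lit 393234) (nat_lit 17) (.e (nat_lit 7581) (nat_lit 405) (.e (nat_lit 57476) (nat_lit 28) (.e (nat_lit 557104) (nat_lit 14) (.e (nat_lit 180229) (nat_lit 0) .nil))))))) (.g (nat_lit 4) .nil .nil)))) (.nd (nat_lit 6) 
(.lf (nat_lit 117295) (.g (nat_lit 1722) (.e (nat_lit 5951) (nat_lit 322) (.e (nat_lit 57378) (nat_lit 3) (.e (nat_lit 98376) (nat_lit 30) (.e (nat_lit 458789) (nat_lit 23) (.e (nat_lit 532515) (nat_lit 3) .nil))))) .nil)) 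
(.lf (nat_lit 117359) (.g (nat_lit 2347) (.e (nat_lit 5952) (nat_lit 322) (.e (nat_lit 57445) (nat_lit 19) (.e (nat_lit 393234) (nat_lit 17) (.e (nat_lit 7581) (nat_lit 405) (.e (nat_lit 57480) (nat_lit 28) .nil))))) .nil)))) (.nd (nat_lit 5) (.nd (nat_lit 6) 
(.lf (nat_lit 117279) (.g (nat_lit 1707) (.e (nat_lit 5951) (nat_lit 322) (.e (nat_lit 57378) (nat_lit 3) (.e (nat_lit 98365) (nat_lit 26) (.e (nat_lit 426187) (nat_lit 9) .nil)))) .nil)) 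
(.lf (nat_lit 117343) (.g (nat_lit 2591) (.e (nat_lit 5951) (nat_lit 322) (.e (nat_lit 57447) (nat_lit 19) (.e (nat_lit 393301) (nat_lit 27) (.e (nat_lit 491526) (nat_lit 0) (.e (nat_lit 1848) (nat_lit 124) .nil))))) .nil))) (.nd (nat_lit 6) 
(.lf (nat_lit 117311) (.g (nat_lit 2761) (.e (nat_lit 5951) (nat_lit 322) (.e (nat_lit 57400) (nat_lit 10) (.e (nat_lit 319534) (nat_lit 16) (.e (nat_lit 286761) (nat_lit 13) (.e (nat_lit 393289) (nat_lit 25) (.e (nat_lit 458774) (nat_lit 18) .nil)))))) (.g (nat_lit 0) .nil .nil))) 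
(.lf (nat_lit 117375) (.g (nat_lit 2307) (.e (nat_lit 5953) (nat_lit 322) (.e (nat_lit 57371) (nat_lit 2) (.e (nat_lit 90172) (nat_lit 14) (.e (nat_lit 180244) (nat_lit 5) (.e (nat_lit 532515) (nat_lit 3) (.e (nat_lit 114719) (nat_lit 23) (.e (nat_lit 98325) (nat_lit 17) (.e (nat_lit 2478) (nat_lit 157) .nil)))))))) (.g (nat_lit 4) .nil .nil))))))))))

noncomputable def tv1575 : DT := (.nd (nat_lit 0) (.nd (nat_lit 1) (.nd (nat_lit 2) (.nd (nat_lit 3) (.nd (nat_lit 4) (.nd (nat_lit 5) (.nd (nat_lit 6) 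
(.lf (nat_lit 117376) (.g (nat_lit 2511) (.e (nat_lit 5953) (nat_lit 322) (.e (nat_lit 57371) (nat_lit 2) (.e (nat_lit 90174) (nat_lit 14) (.e (nat_lit 180243) (nat_lit 5) (.e (nat_lit 532508) (nat_lit 2) .nil))))) .nil)) 
(.lf (nat_lit 117440) (.g (nat_lit 1689) (.e (nat_lit 5953) (nat_lit 322) (.e (nat_lit 57378) (nat_lit 3) (.e (nat_lit 98365) (nat_lit 26) (.e (nat_lit 426325) (nat_lit 13) .nil)))) .nil))) (.nd (nat_lit 6) 
(.lf (nat_lit 117408) (.g (nat_lit 3312) (.e (nat_lit 5953) (nat_lit 322) (.e (nat_lit 57373) (nat_lit 2) (.e (nat_lit 90174) (nat_lit 14) (.e (nat_lit 180243) (nat_lit 5) (.e (nat_lit 532508) (nat_lit 2) (.e (nat_lit 106517) (nat_lit 9) (.e (nat_lit 1255) (nat_lit 92) (.e (nat_lit 98321) (nat_lit 17) (.e (nat_lit 2464) (nat_lit 157) .nil))))))))) (.g (nat_lit 9) .nil .nil))) 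
(.lf (nat_lit 117472) (.g (nat_lit 2042) (.e (nat_lit 5953) (nat_lit 322) (.e (nat_lit 57409) (nat_lit 12) (.e (nat_lit 336443) (nat_lit 32) (.e (nat_lit 466977) (nat_lit 22) (.e (nat_lit 196654) (nat_lit 11) (.e (nat_lit 16388) (nat_lit 0) (.e (nat_lit 2536) (nat_lit 157) .nil))))))) (.g (nat_lit 4) .nil .nil))))) (.nd (nat_lit 5) (.nd (nat_lit 6) 
(.lf (nat_lit 117392) (.g (nat_lit 2324) (.e (nat_lit 5953) (nat_lit 322) (.e (nat_lit 57373) (nat_lit 2) (.e (nat_lit 90170) (nat_lit 13) (.e (nat_lit 172121) (nat_lit 13) .nil)))) .nil)) 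
(.lf (nat_lit 117456) (.g (nat_lit 1529) (.e (nat_lit 5953) (nat_lit 322) (.e (nat_lit 57409) (nat_lit 12) (.e (nat_lit 336208) (nat_lit 12) (.e (nat_lit 385105) (nat_lit 50) .nil)))) .nil))) (.nd (nat_lit 6) 
(.lf (nat_lit 117424) (.g (nat_lit 1254) (.e (nat_lit 5953) (nat_lit 322) (.e (nat_lit 57373) (nat_lit 2) (.e (nat_lit 90185) (nat_lit 17) (.e (nat_lit 237621) (nat_lit 13) .nil)))) .nil)) 
(.lf (nat_lit 117488) (.g (nat_lit 2110) (.e (nat_lit 5953) (nat_lit 322) (.e (nat_lit 57447) (nat_lit 19) (.e (nat_lit 393234) (nat_lit 17) (.e (nat_lit 7581) (nat_lit 405) (.e (nat_lit 57476) (nat_lit 28) .nil))))) .nil))))) (.nd (nat_lit 4) (.nd (nat_lit 5) (.nd (nat_lit 6) 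
(.lf (nat_lit 117384) (.g (nat_lit 2863) (.e (nat_lit 5953) (nat_lit 322) (.e (nat_lit 57373) (nat_lit 2) (.e (nat_lit 90170) (nat_lit 13) (.e (nat_lit 172065) (nat_lit 3) (.e (nat_lit 204838) (nat_lit 20) .nil))))) .nil)) 
(.lf (nat_lit 117448) (.g (nat_lit 1864) (.e (nat_lit 5953) (nat_lit 322) (.e (nat_lit 57378) (nat_lit 3) (.e (nat_lit 98373) (nat_lit 29) (.e (nat_lit 458496) (nat_lit 22) .nil)))) .nil))) (.nd (nat_lit 6) 
(.lf (nat_lit 117416) (.g (nat_lit 1009) (.e (nat_lit 5953) (nat_lit 322) (.e (nat_lit 57373) (nat_lit 2) (.e (nat_lit 90176) (nat_lit 15) (.e (nat_lit 196352) (nat_lit 18) .nil)))) .nil)) 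
(.lf (nat_lit 117480) (.g (nat_lit 1976) (.e (nat_lit 5953) (nat_lit 322) (.e (nat_lit 57445) (nat_lit 19) (.e (nat_lit 393233) (nat_lit 17) (.e (nat_lit 7581) (nat_lit 405) (.e (nat_lit 57480) (nat_lit 28) (.e (nat_lit 557105) (nat_lit 14) (.e (nat_lit 180230) (nat_lit 0) .nil))))))) (.g (nat_lit 4) .nil .nil))))) (.nd (nat_lit 5) (.nd (nat_lit 6) 
(.lf (nat_lit 117400) (.g (nat_lit 3719) (.e (nat_lit 5953) (nat_lit 322) (.e (nat_lit 57373) (nat_lit 2) (.e (nat_lit 90172) (nat_lit 14) (.e (nat_lit 180244) (nat_lit 5) (.e (nat_lit 532513) (nat_lit 3) (.e (nat_lit 114718) (nat_lit 23) (.e (nat_lit 98325) (nat_lit 17) (.e (nat_lit 2478) (nat_lit 157) .nil)))))))) (.g (nat_lit 6) .nil .nil))) 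
(.lf (nat_lit 117464) (.g (nat_lit 2013) (.e (nat_lit 5953) (nat_lit 322) (.e (nat_lit 57409) (nat_lit 12) (.e (nat_lit 336443) (nat_lit 32) (.e (nat_lit 466974) (nat_lit 22) (.e (nat_lit 196654) (nat_lit 11) (.e (nat_lit 16386) (nat_lit 0) (.e (nat_lit 2536) (nat_lit 157) .nil))))))) (.g (nat_lit 4) .nil .nil)))) (.nd (nat_lit 6) 
(.lf (nat_lit 117432) (.g (nat_lit 3416) (.e (nat_lit 5953) (nat_lit 322) (.e (nat_lit 57378) (nat_lit 3) (.e (nat_lit 98365) (nat_lit 26) (.e (nat_lit 426187) (nat_lit 9) (.e (nat_lit 426479) (nat_lit 27) (.e (nat_lit 336421) (nat_lit 28) (.e (nat_lit 434212) (nat_lit 18) .nil))))))) (.g (nat_lit 0) .nil .nil))) 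
(.lf (nat_lit 117496) (.g (nat_lit 3366) (.e (nat_lit 5953) (nat_lit 322) (.e (nat_lit 57447) (nat_lit 19) (.e (nat_lit 393234) (nat_lit 17) (.e (nat_lit 7581) (nat_lit 405) (.e (nat_lit 57477) (nat_lit 28) (.e (nat_lit 557104) (nat_lit 14) (.e (nat_lit 180224) (nat_lit 0) .nil))))))) (.g (nat_lit 6) .nil .nil))))))) (.nd (nat_lit 3) (.nd (nat_lit 4) (.nd (nat_lit 5) (.nd (nat_lit 6) 
(.lf (nat_lit 117380) (.g (nat_lit 2373) (.e (nat_lit 5953) (nat_lit 322) (.e (nat_lit 57371) (nat_lit 2) (.e (nat_lit 90174) (nat_lit 14) (.e (nat_lit 180243) (nat_lit 5) (.e (nat_lit 532515) (nat_lit 3) (.e (nat_lit 114716) (nat_lit 22) (.e (nat_lit 90181) (nat_lit 16) (.e (nat_lit 229380) (nat_lit 0) .nil)))))))) (.g (nat_lit 4) .nil .nil))) 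
(.lf (nat_lit 117444) (.g (nat_lit 4200) (.e (nat_lit 5953) (nat_lit 322) (.e (nat_lit 57378) (nat_lit 3) (.e (nat_lit 98373) (nat_lit 29) (.e (nat_lit 450562) (nat_lit 0) (.e (nat_lit 6595) (nat_lit 351) (.e (nat_lit 2638) (nat_lit 165) (.e (nat_lit 180228) (nat_lit 0) .nil))))))) (.g (nat_lit 4) .nil .nil)))) (.nd (nat_lit 6) 
(.lf (nat_lit 117412) (.g (nat_lit 1894) (.e (nat_lit 5953) (nat_lit 322) (.e (nat_lit 57373) (nat_lit 2) (.e (nat_lit 90174) (nat_lit 14) (.e (nat_lit 180243) (nat_lit 5) (.e (nat_lit 532513) (nat_lit 3) (.e (nat_lit 114714) (nat_lit 22) (.e (nat_lit 90181) (nat_lit 16) (.e (nat_lit 237312) (nat_lit 0) .nil)))))))) (.g (nat_lit 4) .nil .nil))) 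
(.lf (nat_lit 117476) (.g (nat_lit 2179) (.e (nat_lit 5953) (nat_lit 322) (.e (nat_lit 57445) (nat_lit 19) (.e (nat_lit 393232) (nat_lit 17) (.e (nat_lit 7581) (nat_lit 405) (.e (nat_lit 57480) (nat_lit 28) .nil))))) .nil)))) (.nd (nat_lit 5) (.nd (nat_lit 6) 
(.lf (nat_lit 117396) (.g (nat_lit 2369) (.e (nat_lit 5953) (nat_lit 322) (.e (nat_lit 57373) (nat_lit 2) (.e (nat_lit 90172) (nat_lit 14) (.e (nat_lit 180243) (nat_lit 5) (.e (nat_lit 532515) (nat_lit 3) .nil))))) .nil)) 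
(.lf (nat_lit 117460) (.g (nat_lit 1218) (.e (nat_lit 5953) (nat_lit 322) (.e (nat_lit 57409) (nat_lit 12) (.e (nat_lit 336438) (nat_lit 31) (.e (nat_lit 466688) (nat_lit 3) .nil)))) .nil))) (.nd (nat_lit 6) 
(.lf (nat_lit 117428) (.g (nat_lit 570) (.e (nat_lit 5953) (nat_lit 322) (.e (nat_lit 57378) (nat_lit 3) (.e (nat_lit 98363) (nat_lit 26) .nil))) .nil)) 
(.lf (nat_lit 117492) (.g (nat_lit 2092) (.e (nat_lit 5953) (nat_lit 322) (.e (nat_lit 57447) (nat_lit 19) (.e (nat_lit 393234) (nat_lit 17) (.e (nat_lit 7581) (nat_lit 405) (.e (nat_lit 57477) (nat_lit 28) .nil))))) .nil))))) (.nd (nat_lit 4) (.nd (nat_lit 5) (.nd (nat_lit 6) 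
(.lf (nat_lit 117388) (.g (nat_lit 2832) (.e (nat_lit 5953) (nat_lit 322) (.e (nat_lit 57373) (nat_lit 2) (.e (nat_lit 90170) (nat_lit 13) (.e (nat_lit 172067) (nat_lit 3) (.e (nat_lit 204838) (nat_lit 20) .nil))))) .nil)) 
(.lf (nat_lit 117452) (.g (nat_lit 1204) (.e (nat_lit 5953) (nat_lit 322) (.e (nat_lit 57400) (nat_lit 10) (.e (nat_lit 319534) (nat_lit 16) (.e (nat_lit 286761) (nat_lit 13) .nil)))) .nil))) (.nd (nat_lit 6) 
(.lf (nat_lit 117420) (.g (nat_lit 1437) (.e (nat_lit 5953) (nat_lit 322) (.e (nat_lit 57373) (nat_lit 2) (.e (nat_lit 90185) (nat_lit 17) (.e (nat_lit 237601) (nat_lit 9) .nil)))) .nil)) 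
(.lf (nat_lit 117484) (.g (nat_lit 2064) (.e (nat_lit 5953) (nat_lit 322) (.e (nat_lit 57445) (nat_lit 19) (.e (nat_lit 393281) (nat_lit 23) (.e (nat_lit 426116) (nat_lit 2) (.e (nat_lit 196624) (nat_lit 9) .nil))))) .nil)))) (.nd (nat_lit 5) (.nd (nat_lit 6) 
(.lf (nat_lit 117404) (.g (nat_lit 3540) (.e (nat_lit 5953) (nat_lit 322) (.e (nat_lit 57373) (nat_lit 2) (.e (nat_lit 90172) (nat_lit 14) (.e (nat_lit 180244) (nat_lit 5) (.e (nat_lit 532515) (nat_lit 3) (.e (nat_lit 114716) (nat_lit 22) (.e (nat_lit 90181) (nat_lit 16) (.e (nat_lit 229376) (nat_lit 0) .nil)))))))) (.g (nat_lit 8) .nil .nil))) 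
(.lf (nat_lit 117468) (.g (nat_lit 2207) (.e (nat_lit 5953) (nat_lit 322) (.e (nat_lit 57409) (nat_lit 12) (.e (nat_lit 336443) (nat_lit 32) (.e (nat_lit 466977) (nat_lit 22) (.e (nat_lit 196653) (nat_lit 11) .nil))))) .nil))) (.nd (nat_lit 6) 
(.lf (nat_lit 117436) (.g (nat_lit 3808) (.e (nat_lit 5953) (nat_lit 322) (.e (nat_lit 57378) (nat_lit 3) (.e (nat_lit 98365) (nat_lit 26) (.e (nat_lit 426188) (nat_lit 9) (.e (nat_lit 426479) (nat_lit 27) (.e (nat_lit 336421) (nat_lit 28) (.e (nat_lit 434212) (nat_lit 18) .nil))))))) (.g (nat_lit 0) .nil .nil))) 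
(.lf (nat_lit 117500) (.g (nat_lit 2527) (.e (nat_lit 5953) (nat_lit 322) (.e (nat_lit 57447) (nat_lit 19) (.e (nat_lit 393234) (nat_lit 17) (.e (nat_lit 7581) (nat_lit 405) (.e (nat_lit 57477) (nat_lit 28) (.e (nat_lit 557104) (nat_lit 14) (.e (nat_lit 188160) (nat_lit 0) .nil))))))) (.g (nat_lit 5) .nil .nil)))))))) 
(.nd (nat_lit 2) (.nd (nat_lit 3) (.nd (nat_lit 4) (.nd (nat_lit 5) (.nd (nat_lit 6) 
(.lf (nat_lit 117378) (.g (nat_lit 2499) (.e (nat_lit 5953) (nat_lit 322) (.e (nat_lit 57371) (nat_lit 2) (.e (nat_lit 90174) (nat_lit 14) (.e (nat_lit 180243) (nat_lit 5) (.e (nat_lit 532513) (nat_lit 3) (.e (nat_lit 114714) (nat_lit 22) (.e (nat_lit 90181) (nat_lit 16) (.e (nat_lit 229376) (nat_lit 0) .nil)))))))) (.g (nat_lit 4) .nil .nil))) 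
(.lf (nat_lit 117442) (.g (nat_lit 2323) (.e (nat_lit 5953) (nat_lit 322) (.e (nat_lit 57378) (nat_lit 3) (.e (nat_lit 98372) (nat_lit 29) (.e (nat_lit 450561) (nat_lit 0) (.e (nat_lit 6595) (nat_lit 351) .nil))))) .nil))) (.nd (nat_lit 6) 
(.lf (nat_lit 117410) (.g (nat_lit 1963) (.e (nat_lit 5953) (nat_lit 322) (.e (nat_lit 57373) (nat_lit 2) (.e (nat_lit 90174) (nat_lit 14) (.e (nat_lit 180243) (nat_lit 5) (.e (nat_lit 532508) (nat_lit 2) (.e (nat_lit 106517) (nat_lit 9) (.e (nat_lit 1255) (nat_lit 92) (.e (nat_lit 98322) (nat_lit 17) (.e (nat_lit 2472) (nat_lit 157) .nil))))))))) (.g (nat_lit 4) .nil .nil))) 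
(.lf (nat_lit 117474) (.g (nat_lit 1058) (.e (nat_lit 5953) (nat_lit 322) (.e (nat_lit 57409) (nat_lit 12) (.e (nat_lit 336443) (nat_lit 32) (.e (nat_lit 466979) (nat_lit 23) .nil)))) .nil)))) (.nd (nat_lit 5) (.nd (nat_lit 6) 
(.lf (nat_lit 117394) (.g (nat_lit 2335) (.e (nat_lit 5953) (nat_lit 322) (.e (nat_lit 57373) (nat_lit 2) (.e (nat_lit 90172) (nat_lit 14) (.e (nat_lit 180243) (nat_lit 5) (.e (nat_lit 532513) (nat_lit 3) .nil))))) .nil)) 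
(.lf (nat_lit 117458) (.g (nat_lit 1456) (.e (nat_lit 5953) (nat_lit 322) (.e (nat_lit 57409) (nat_lit 12) (.e (nat_lit 336208) (nat_lit 12) (.e (nat_lit 385106) (nat_lit 50) .nil)))) .nil))) (.nd (nat_lit 6) 
(.lf (nat_lit 117426) (.g (nat_lit 1258) (.e (nat_lit 5953) (nat_lit 322) (.e (nat_lit 57373) (nat_lit 2) (.e (nat_lit 90185) (nat_lit 17) (.e (nat_lit 237624) (nat_lit 13) .nil)))) .nil)) 
(.lf (nat_lit 117490) (.g (nat_lit 2160) (.e (nat_lit 5953) (nat_lit 322) (.e (nat_lit 57447) (nat_lit 19) (.e (nat_lit 393234) (nat_lit 17) (.e (nat_lit 7581) (nat_lit 405) (.e (nat_lit 57476) (nat_lit 28) (.e (nat_lit 557104) (nat_lit 14) (.e (nat_lit 180228) (nat_lit 0) .nil))))))) (.g (nat_lit 4) .nil .nil)))))) (.nd (nat_lit 4) (.nd (nat_lit 5) (.nd (nat_lit 6) 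
(.lf (nat_lit 117386) (.g (nat_lit 2964) (.e (nat_lit 5953) (nat_lit 322) (.e (nat_lit 57373) (nat_lit 2) (.e (nat_lit 90170) (nat_lit 13) (.e (nat_lit 172067) (nat_lit 3) (.e (nat_lit 204834) (nat_lit 19) .nil))))) .nil)) 
(.lf (nat_lit 117450) (.g (nat_lit 1103) (.e (nat_lit 5953) (nat_lit 322) (.e (nat_lit 57378) (nat_lit 3) (.e (nat_lit 98381) (nat_lit 31) (.e (nat_lit 474880) (nat_lit 18) .nil)))) .nil))) (.nd (nat_lit 6) 
(.lf (nat_lit 117418) (.g (nat_lit 1649) (.e (nat_lit 5953) (nat_lit 322) (.e (nat_lit 57373) (nat_lit 2) (.e (nat_lit 90178) (nat_lit 15) (.e (nat_lit 188459) (nat_lit 26) .nil)))) .nil)) 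
(.lf (nat_lit 117482) (.g (nat_lit 2430) (.e (nat_lit 5953) (nat_lit 322) (.e (nat_lit 57445) (nat_lit 19) (.e (nat_lit 393234) (nat_lit 17) (.e (nat_lit 7581) (nat_lit 405) (.e (nat_lit 57477) (nat_lit 28) (.e (nat_lit 557104) (nat_lit 14) (.e (nat_lit 180229) (nat_lit 0) .nil))))))) (.g (nat_lit 4) .nil .nil))))) (.nd (nat_lit 5) (.nd (nat_lit 6) 
(.lf (nat_lit 117402) (.g (nat_lit 3318) (.e (nat_lit 5953) (nat_lit 322) (.e (nat_lit 57373) (nat_lit 2) (.e (nat_lit 90172) (nat_lit 14) (.e (nat_lit 180244) (nat_lit 5) (.e (nat_lit 532515) (nat_lit 3) (.e (nat_lit 114715) (nat_lit 22) (.e (nat_lit 90165) (nat_lit 12) (.e (nat_lit 163853) (nat_lit 0) .nil)))))))) (.g (nat_lit 0) .nil .nil))) 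
(.lf (nat_lit 117466) (.g (nat_lit 1583) (.e (nat_lit 5953) (nat_lit 322) (.e (nat_lit 57409) (nat_lit 12) (.e (nat_lit 336443) (nat_lit 32) (.e (nat_lit 466976) (nat_lit 22) (.e (nat_lit 196628) (nat_lit 9) .nil))))) .nil))) (.nd (nat_lit 6) 
(.lf (nat_lit 117434) (.g (nat_lit 1569) (.e (nat_lit 5953) (nat_lit 322) (.e (nat_lit 57378) (nat_lit 3) (.e (nat_lit 98365) (nat_lit 26) (.e (nat_lit 426188) (nat_lit 9) .nil)))) .nil)) 
(.lf (nat_lit 117498) (.g (nat_lit 4517) (.e (nat_lit 5953) (nat_lit 322) (.e (nat_lit 57447) (nat_lit 19) (.e (nat_lit 393234) (nat_lit 17) (.e (nat_lit 7581) (nat_lit 405) (.e (nat_lit 57477) (nat_lit 28) (.e (nat_lit 557104) (nat_lit 14) (.e (nat_lit 180229) (nat_lit 0) .nil))))))) (.g (nat_lit 0) .nil .nil))))))) (.nd (nat_lit 3) (.nd (nat_lit 4) (.nd (nat_lit 5) (.nd (nat_lit 6) 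
(.lf (nat_lit 117382) (.g (nat_lit 1541) (.e (nat_lit 5953) (nat_lit 322) (.e (nat_lit 57371) (nat_lit 2) (.e (nat_lit 90185) (nat_lit 17) (.e (nat_lit 237601) (nat_lit 9) .nil)))) .nil)) 
(.lf (nat_lit 117446) (.g (nat_lit 4453) (.e (nat_lit 5953) (nat_lit 322) (.e (nat_lit 57378) (nat_lit 3) (.e (nat_lit 98373) (nat_lit 29) (.e (nat_lit 450563) (nat_lit 0) (.e (nat_lit 6595) (nat_lit 351) (.e (nat_lit 2638) (nat_lit 165) (.e (nat_lit 180229) (nat_lit 0) .nil))))))) (.g (nat_lit 4) .nil .nil)))) (.nd (nat_lit 6) 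
(.lf (nat_lit 117414) (.g (nat_lit 3369) (.e (nat_lit 5953) (nat_lit 322) (.e (nat_lit 57373) (nat_lit 2) (.e (nat_lit 90174) (nat_lit 14) (.e (nat_lit 180243) (nat_lit 5) (.e (nat_lit 532515) (nat_lit 3) (.e (nat_lit 114716) (nat_lit 22) (.e (nat_lit 90181) (nat_lit 16) (.e (nat_lit 229380) (nat_lit 0) .nil)))))))) (.g (nat_lit 0) .nil .nil))) 
(.lf (nat_lit 117478) (.g (nat_lit 1713) (.e (nat_lit 5953) (nat_lit 322) (.e (nat_lit 57445) (nat_lit 19) (.e (nat_lit 393233) (nat_lit 17) (.e (nat_lit 7581) (nat_lit 405) (.e (nat_lit 57477) (nat_lit 28) (.e (nat_lit 557103) (nat_lit 14) (.e (nat_lit 180229) (nat_lit 0) .nil))))))) (.g (nat_lit 4) .nil .nil))))) (.nd (nat_lit 5) (.nd (nat_lit 6) 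
(.lf (nat_lit 117398) (.g (nat_lit 2203) (.e (nat_lit 5953) (nat_lit 322) (.e (nat_lit 57373) (nat_lit 2) (.e (nat_lit 90172) (nat_lit 14) (.e (nat_lit 180244) (nat_lit 5) (.e (nat_lit 532508) (nat_lit 2) .nil))))) .nil)) 
(.lf (nat_lit 117462) (.g (nat_lit 1956) (.e (nat_lit 5953) (nat_lit 322) (.e (nat_lit 57409) (nat_lit 12) (.e (nat_lit 336443) (nat_lit 32) (.e (nat_lit 466974) (nat_lit 22) (.e (nat_lit 196654) (nat_lit 11) .nil))))) .nil))) (.nd (nat_lit 6) 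
(.lf (nat_lit 117430) (.g (nat_lit 638) (.e (nat_lit 5953) (nat_lit 322) (.e (nat_lit 57378) (nat_lit 3) (.e (nat_lit 98365) (nat_lit 26) .nil))) .nil)) 
(.lf (nat_lit 117494) (.g (nat_lit 3539) (.e (nat_lit 5953) (nat_lit 322) (.e (nat_lit 57447) (nat_lit 19) (.e (nat_lit 393234) (nat_lit 17) (.e (nat_lit 7581) (nat_lit 405) (.e (nat_lit 57477) (nat_lit 28) (.e (nat_lit 557103) (nat_lit 14) (.e (nat_lit 180228) (nat_lit 0) .nil))))))) (.g (nat_lit 6) .nil .nil)))))) (.nd (nat_lit 4) (.nd (nat_lit 5) (.nd (nat_lit 6) 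
(.lf (nat_lit 117390) (.g (nat_lit 3392) (.e (nat_lit 5953) (nat_lit 322) (.e (nat_lit 57373) (nat_lit 2) (.e (nat_lit 90170) (nat_lit 13) (.e (nat_lit 172113) (nat_lit 10) (.e (nat_lit 434207) (nat_lit 18) .nil))))) .nil)) 
(.lf (nat_lit 117454) (.g (nat_lit 1344) (.e (nat_lit 5953) (nat_lit 322) (.e (nat_lit 57409) (nat_lit 12) (.e (nat_lit 336208) (nat_lit 12) (.e (nat_lit 385104) (nat_lit 50) .nil)))) .nil))) (.nd (nat_lit 6) 
(.lf (nat_lit 117422) (.g (nat_lit 1419) (.e (nat_lit 5953) (nat_lit 322) (.e (nat_lit 57373) (nat_lit 2) (.e (nat_lit 90185) (nat_lit 17) (.e (nat_lit 237605) (nat_lit 9) .nil)))) .nil)) 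
(.lf (nat_lit 117486) (.g (nat_lit 874) (.e (nat_lit 5953) (nat_lit 322) (.e (nat_lit 57447) (nat_lit 19) (.e (nat_lit 393233) (nat_lit 17) .nil))) .nil)))) (.nd (nat_lit 5) (.nd (nat_lit 6) 
(.lf (nat_lit 117406) (.g (nat_lit 3961) (.e (nat_lit 5953) (nat_lit 322) (.e (nat_lit 57373) (nat_lit 2) (.e (nat_lit 90172) (nat_lit 14) (.e (nat_lit 180244) (nat_lit 5) (.e (nat_lit 532515) (nat_lit 3) (.e (nat_lit 114719) (nat_lit 23) (.e (nat_lit 98331) (nat_lit 17) (.e (nat_lit 2479) (nat_lit 157) .nil)))))))) (.g (nat_lit 7) .nil .nil))) 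
(.lf (nat_lit 117470) (.g (nat_lit 2066) (.e (nat_lit 5953) (nat_lit 322) (.e (nat_lit 57409) (nat_lit 12) (.e (nat_lit 336443) (nat_lit 32) (.e (nat_lit 466977) (nat_lit 22) (.e (nat_lit 196654) (nat_lit 11) (.e (nat_lit 16386) (nat_lit 0) (.e (nat_lit 2532) (nat_lit 157) .nil))))))) (.g (nat_lit 4) .nil .nil)))) (.nd (nat_lit 6) 
(.lf (nat_lit 117438) (.g (nat_lit 2187) (.e (nat_lit 5953) (nat_lit 322) (.e (nat_lit 57378) (nat_lit 3) (.e (nat_lit 98365) (nat_lit 26) (.e (nat_lit 426188) (nat_lit 9) (.e (nat_lit 426566) (nat_lit 34) .nil))))) .nil)) 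
(.lf (nat_lit 117502) (.g (nat_lit 3747) (.e (nat_lit 5953) (nat_lit 322) (.e (nat_lit 57447) (nat_lit 19) (.e (nat_lit 393234) (nat_lit 17) (.e (nat_lit 7581) (nat_lit 405) (.e (nat_lit 57480) (nat_lit 28) (.e (nat_lit 557105) (nat_lit 14) (.e (nat_lit 180224) (nat_lit 0) .nil))))))) (.g (nat_lit 7) .nil .nil))))))))) 
(.nd (nat_lit 1) (.nd (nat_lit 2) (.nd (nat_lit 3) (.nd (nat_lit 4) (.nd (nat_lit 5) 
(.nd (nat_lit 6) 
(.lf (nat_lit 117377) (.g (nat_lit 2324) (.e (nat_lit 5953) (nat_lit 322) (.e (nat_lit 57371) (nat_lit 2) (.e (nat_lit 90174) (nat_lit 14) (.e (nat_lit 180243) (nat_lit 5) (.e (nat_lit 532513) (nat_lit 3) .nil))))) .nil)) 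
(.lf (nat_lit 117441) (.g (nat_lit 2573) (.e (nat_lit 5953) (nat_lit 322) (.e (nat_lit 57378) (nat_lit 3) (.e (nat_lit 98367) (nat_lit 27) (.e (nat_lit 434247) (nat_lit 28) (.e (nat_lit 573489) (nat_lit 14) .nil))))) .nil))) (.nd (nat_lit 6) 
(.lf (nat_lit 117409) (.g (nat_lit 2336) (.e (nat_lit 5953) (nat_lit 322) (.e (nat_lit 57373) (nat_lit 2) (.e (nat_lit 90174) (nat_lit 14) (.e (nat_lit 180243) (nat_lit 5) (.e (nat_lit 532508) (nat_lit 2) (.e (nat_lit 106517) (nat_lit 9) (.e (nat_lit 1255) (nat_lit 92) (.e (nat_lit 98322) (nat_lit 17) (.e (nat_lit 2469) (nat_lit 157) .nil))))))))) (.g (nat_lit 5) .nil .nil))) 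
(.lf (nat_lit 117473) (.g (nat_lit 2360) (.e (nat_lit 5953) (nat_lit 322) (.e (nat_lit 57409) (nat_lit 12) (.e (nat_lit 336443) (nat_lit 32) (.e (nat_lit 466977) (nat_lit 22) (.e (nat_lit 196656) (nat_lit 11) (.e (nat_lit 16388) (nat_lit 0) (.e (nat_lit 2532) (nat_lit 157) .nil))))))) (.g (nat_lit 4) .nil .nil))))) (.nd (nat_lit 5) (.nd (nat_lit 6) 
(.lf (nat_lit 117393) (.g (nat_lit 2356) (.e (nat_lit 5953) (nat_lit 322) (.e (nat_lit 57373) (nat_lit 2) (.e (nat_lit 90172) (nat_lit 14) (.e (nat_lit 180243) (nat_lit 5) (.e (nat_lit 532508) (nat_lit 2) .nil))))) .nil)) 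
(.lf (nat_lit 117457) (.g (nat_lit 2076) (.e (nat_lit 5953) (nat_lit 322) (.e (nat_lit 57409) (nat_lit 12) (.e (nat_lit 336208) (nat_lit 12) (.e (nat_lit 385105) (nat_lit 50) (.e (nat_lit 786483) (nat_lit 30) .nil))))) .nil))) (.nd (nat_lit 6) 
(.lf (nat_lit 117425) (.g (nat_lit 1743) (.e (nat_lit 5953) (nat_lit 322) (.e (nat_lit 57373) (nat_lit 2) (.e (nat_lit 90185) (nat_lit 17) (.e (nat_lit 237623) (nat_lit 13) .nil)))) .nil)) 
(.lf (nat_lit 117489) (.g (nat_lit 3599) (.e (nat_lit 5953) (nat_lit 322) (.e (nat_lit 57447) (nat_lit 19) (.e (nat_lit 393234) (nat_lit 17) (.e (nat_lit 7581) (nat_lit 405) (.e (nat_lit 57476) (nat_lit 28) (.e (nat_lit 557103) (nat_lit 14) (.e (nat_lit 180229) (nat_lit 0) .nil))))))) (.g (nat_lit 6) .nil .nil)))))) (.nd (nat_lit 4) (.nd (nat_lit 5) (.nd (nat_lit 6) 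
(.lf (nat_lit 117385) (.g (nat_lit 3015) (.e (nat_lit 5953) (nat_lit 322) (.e (nat_lit 57373) (nat_lit 2) (.e (nat_lit 90170) (nat_lit 13) (.e (nat_lit 172065) (nat_lit 3) (.e (nat_lit 204838) (nat_lit 20) (.e (nat_lit 114719) (nat_lit 23) (.e (nat_lit 98325) (nat_lit 17) (.e (nat_lit 2478) (nat_lit 157) .nil)))))))) (.g (nat_lit 4) .nil .nil))) 
(.lf (nat_lit 117449) (.g (nat_lit 1097) (.e (nat_lit 5953) (nat_lit 322) (.e (nat_lit 57378) (nat_lit 3) (.e (nat_lit 98380) (nat_lit 31) (.e (nat_lit 474880) (nat_lit 18) .nil)))) .nil))) (.nd (nat_lit 6) 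
(.lf (nat_lit 117417) (.g (nat_lit 1058) (.e (nat_lit 5953) (nat_lit 322) (.e (nat_lit 57373) (nat_lit 2) (.e (nat_lit 90178) (nat_lit 15) (.e (nat_lit 196352) (nat_lit 18) .nil)))) .nil)) 
(.lf (nat_lit 117481) (.g (nat_lit 2708) (.e (nat_lit 5953) (nat_lit 322) (.e (nat_lit 57445) (nat_lit 19) (.e (nat_lit 393234) (nat_lit 17) (.e (nat_lit 7581) (nat_lit 405) (.e (nat_lit 57476) (nat_lit 28) .nil))))) .nil)))) (.nd (nat_lit 5) (.nd (nat_lit 6) 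
(.lf (nat_lit 117401) (.g (nat_lit 1811) (.e (nat_lit 5953) (nat_lit 322) (.e (nat_lit 57373) (nat_lit 2) (.e (nat_lit 90172) (nat_lit 14) (.e (nat_lit 180244) (nat_lit 5) (.e (nat_lit 532515) (nat_lit 3) .nil))))) .nil)) 
(.lf (nat_lit 117465) (.g (nat_lit 1999) (.e (nat_lit 5953) (nat_lit 322) (.e (nat_lit 57409) (nat_lit 12) (.e (nat_lit 336443) (nat_lit 32) (.e (nat_lit 466974) (nat_lit 22) (.e (nat_lit 196654) (nat_lit 11) (.e (nat_lit 16388) (nat_lit 0) (.e (nat_lit 2536) (nat_lit 157) .nil))))))) (.g (nat_lit 4) .nil .nil)))) (.nd (nat_lit 6) 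
(.lf (nat_lit 117433) (.g (nat_lit 1894) (.e (nat_lit 5953) (nat_lit 322) (.e (nat_lit 57378) (nat_lit 3) (.e (nat_lit 98365) (nat_lit 26) (.e (nat_lit 426187) (nat_lit 9) (.e (nat_lit 426566) (nat_lit 34) .nil))))) .nil)) 
(.lf (nat_lit 117497) (.g (nat_lit 2282) (.e (nat_lit 5953) (nat_lit 322) (.e (nat_lit 57447) (nat_lit 19) (.e (nat_lit 393234) (nat_lit 17) (.e (nat_lit 7581) (nat_lit 405) (.e (nat_lit 57477) (nat_lit 28) (.e (nat_lit 557104) (nat_lit 14) (.e (nat_lit 180228) (nat_lit 0) .nil))))))) (.g (nat_lit 4) .nil .nil))))))) (.nd (nat_lit 3) (.nd (nat_lit 4) (.nd (nat_lit 5) (.nd (nat_lit 6) 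
(.lf (nat_lit 117381) (.g (nat_lit 666) (.e (nat_lit 5953) (nat_lit 322) (.e (nat_lit 57371) (nat_lit 2) (.e (nat_lit 90176) (nat_lit 15) .nil))) .nil)) 
(.lf (nat_lit 117445) (.g (nat_lit 4160) (.e (nat_lit 5953) (nat_lit 322) (.e (nat_lit 57378) (nat_lit 3) (.e (nat_lit 98373) (nat_lit 29) (.e (nat_lit 450563) (nat_lit 0) (.e (nat_lit 6595) (nat_lit 351) .nil))))) .nil))) (.nd (nat_lit 6) 
(.lf (nat_lit 117413) (.g (nat_lit 3456) (.e (nat_lit 5953) (nat_lit 322) (.e (nat_lit 57373) (nat_lit 2) (.e (nat_lit 90174) (nat_lit 14) (.e (nat_lit 180243) (nat_lit 5) (.e (nat_lit 532515) (nat_lit 3) (.e (nat_lit 114716) (nat_lit 22) (.e (nat_lit 90181) (nat_lit 16) (.e (nat_lit 229376) (nat_lit 0) .nil)))))))) (.g (nat_lit 8) .nil .nil))) 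
(.lf (nat_lit 117477) (.g (nat_lit 2249) (.e (nat_lit 5953) (nat_lit 322) (.e (nat_lit 57445) (nat_lit 19) (.e (nat_lit 393232) (nat_lit 17) (.e (nat_lit 7581) (nat_lit 405) (.e (nat_lit 57480) (nat_lit 28) (.e (nat_lit 557103) (nat_lit 14) (.e (nat_lit 180229) (nat_lit 0) .nil))))))) (.g (nat_lit 4) .nil .nil))))) (.nd (nat_lit 5) (.nd (nat_lit 6) 
(.lf (nat_lit 117397) (.g (nat_lit 1379) (.e (nat_lit 5953) (nat_lit 322) (.e (nat_lit 57373) (nat_lit 2) (.e (nat_lit 90172) (nat_lit 14) (.e (nat_lit 180244) (nat_lit 5) .nil)))) .nil)) 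
(.lf (nat_lit 117461) (.g (nat_lit 1218) (.e (nat_lit 5953) (nat_lit 322) (.e (nat_lit 57409) (nat_lit 12) (.e (nat_lit 336443) (nat_lit 32) (.e (nat_lit 466974) (nat_lit 22) .nil)))) .nil))) (.nd (nat_lit 6) 
(.lf (nat_lit 117429) (.g (nat_lit 1016) (.e (nat_lit 5953) (nat_lit 322) (.e (nat_lit 57378) (nat_lit 3) (.e (nat_lit 98363) (nat_lit 26) (.e (nat_lit 426228) (nat_lit 9) .nil)))) .nil)) 
(.lf (nat_lit 117493) (.g (nat_lit 2798) (.e (nat_lit 5953) (nat_lit 322) (.e (nat_lit 57447) (nat_lit 19) (.e (nat_lit 393234) (nat_lit 17) (.e (nat_lit 7581) (nat_lit 405) (.e (nat_lit 57477) (nat_lit 28) (.e (nat_lit 557103) (nat_lit 14) (.e (nat_lit 180224) (nat_lit 0) .nil))))))) (.g (nat_lit 5) .nil .nil)))))) (.nd (nat_lit 4) (.nd (nat_lit 5) (.nd (nat_lit 6) 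
(.lf (nat_lit 117389) (.g (nat_lit 3320) (.e (nat_lit 5953) (nat_lit 322) (.e (nat_lit 57373) (nat_lit 2) (.e (nat_lit 90170) (nat_lit 13) (.e (nat_lit 172113) (nat_lit 10) (.e (nat_lit 434203) (nat_lit 18) .nil))))) .nil)) 
(.lf (nat_lit 117453) (.g (nat_lit 2421) (.e (nat_lit 5953) (nat_lit 322) (.e (nat_lit 57406) (nat_lit 12) (.e (nat_lit 336443) (nat_lit 32) (.e (nat_lit 466977) (nat_lit 22) (.e (nat_lit 196624) (nat_lit 9) (.e (nat_lit 442) (nat_lit 33) (.e (nat_lit 434212) (nat_lit 18) .nil))))))) (.g (nat_lit 4) .nil .nil)))) (.nd (nat_lit 6) 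
(.lf (nat_lit 117421) (.g (nat_lit 3093) (.e (nat_lit 5953) (nat_lit 322) (.e (nat_lit 57373) (nat_lit 2) (.e (nat_lit 90185) (nat_lit 17) (.e (nat_lit 237601) (nat_lit 9) (.e (nat_lit 426479) (nat_lit 27) (.e (nat_lit 336421) (nat_lit 28) (.e (nat_lit 434212) (nat_lit 18) .nil))))))) (.g (nat_lit 0) .nil .nil))) 
(.lf (nat_lit 117485) (.g (nat_lit 2096) (.e (nat_lit 5953) (nat_lit 322) (.e (nat_lit 57447) (nat_lit 19) (.e (nat_lit 393232) (nat_lit 17) (.e (nat_lit 7581) (nat_lit 405) .nil)))) .nil)))) (.nd (nat_lit 5) (.nd (nat_lit 6) 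
(.lf (nat_lit 117405) (.g (nat_lit 3456) (.e (nat_lit 5953) (nat_lit 322) (.e (nat_lit 57373) (nat_lit 2) (.e (nat_lit 90172) (nat_lit 14) (.e (nat_lit 180244) (nat_lit 5) (.e (nat_lit 532515) (nat_lit 3) (.e (nat_lit 114716) (nat_lit 22) (.e (nat_lit 90181) (nat_lit 16) (.e (nat_lit 229380) (nat_lit 0) .nil)))))))) (.g (nat_lit 7) .nil .nil))) 
(.lf (nat_lit 117469) (.g (nat_lit 1975) (.e (nat_lit 5953) (nat_lit 322) (.e (nat_lit 57409) (nat_lit 12) (.e (nat_lit 336443) (nat_lit 32) (.e (nat_lit 466977) (nat_lit 22) (.e (nat_lit 196654) (nat_lit 11) .nil))))) .nil))) (.nd (nat_lit 6) 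
(.lf (nat_lit 117437) (.g (nat_lit 2493) (.e (nat_lit 5953) (nat_lit 322) (.e (nat_lit 57378) (nat_lit 3) (.e (nat_lit 98365) (nat_lit 26) (.e (nat_lit 426188) (nat_lit 9) (.e (nat_lit 426484) (nat_lit 27) .nil))))) .nil)) 
(.lf (nat_lit 117501) (.g (nat_lit 3872) (.e (nat_lit 5953) (nat_lit 322) (.e (nat_lit 57447) (nat_lit 19) (.e (nat_lit 393234) (nat_lit 17) (.e (nat_lit 7581) (nat_lit 405) (.e (nat_lit 57480) (nat_lit 28) (.e (nat_lit 557103) (nat_lit 14) (.e (nat_lit 180228) (nat_lit 0) .nil))))))) (.g (nat_lit 6) .nil .nil)))))))) 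
(.nd (nat_lit 2) (.nd (nat_lit 3) (.nd (nat_lit 4) (.nd (nat_lit 5) (.nd (nat_lit 6) 
(.lf (nat_lit 117379) (.g (nat_lit 2450) (.e (nat_lit 5953) (nat_lit 322) (.e (nat_lit 57371) (nat_lit 2) (.e (nat_lit 90174) (nat_lit 14) (.e (nat_lit 180243) (nat_lit 5) (.e (nat_lit 532515) (nat_lit 3) (.e (nat_lit 114716) (nat_lit 22) (.e (nat_lit 90181) (nat_lit 16) (.e (nat_lit 229376) (nat_lit 0) .nil)))))))) (.g (nat_lit 4) .nil .nil))) 
(.lf (nat_lit 117443) (.g (nat_lit 4099) (.e (nat_lit 5953) (nat_lit 322) (.e (nat_lit 57378) (nat_lit 3) (.e (nat_lit 98373) (nat_lit 29) (.e (nat_lit 450562) (nat_lit 0) (.e (nat_lit 6595) (nat_lit 351) .nil))))) .nil))) (.nd (nat_lit 6) 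
(.lf (nat_lit 117411) (.g (nat_lit 1882) (.e (nat_lit 5953) (nat_lit 322) (.e (nat_lit 57373) (nat_lit 2) (.e (nat_lit 90174) (nat_lit 14) (.e (nat_lit 180243) (nat_lit 5) (.e (nat_lit 532511) (nat_lit 2) .nil))))) .nil)) 
(.lf (nat_lit 117475) (.g (nat_lit 2323) (.e (nat_lit 5953) (nat_lit 322) (.e (nat_lit 57445) (nat_lit 19) (.e (nat_lit 393232) (nat_lit 17) (.e (nat_lit 7581) (nat_lit 405) (.e (nat_lit 57477) (nat_lit 28) (.e (nat_lit 557104) (nat_lit 14) (.e (nat_lit 180229) (nat_lit 0) .nil))))))) (.g (nat_lit 4) .nil .nil))))) (.nd (nat_lit 5) (.nd (nat_lit 6) 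
(.lf (nat_lit 117395) (.g (nat_lit 2502) (.e (nat_lit 5953) (nat_lit 322) (.e (nat_lit 57373) (nat_lit 2) (.e (nat_lit 90172) (nat_lit 14) (.e (nat_lit 180243) (nat_lit 5) (.e (nat_lit 532513) (nat_lit 3) (.e (nat_lit 114714) (nat_lit 22) (.e (nat_lit 90181) (nat_lit 16) (.e (nat_lit 229376) (nat_lit 0) .nil)))))))) (.g (nat_lit 4) .nil .nil))) 
(.lf (nat_lit 117459) (.g (nat_lit 1938) (.e (nat_lit 5953) (nat_lit 322) (.e (nat_lit 57409) (nat_lit 12) (.e (nat_lit 336208) (nat_lit 12) (.e (nat_lit 385106) (nat_lit 50) (.e (nat_lit 786483) (nat_lit 30) .nil))))) .nil))) (.nd (nat_lit 6) 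
(.lf (nat_lit 117427) (.g (nat_lit 1652) (.e (nat_lit 5953) (nat_lit 322) (.e (nat_lit 57373) (nat_lit 2) (.e (nat_lit 90185) (nat_lit 17) (.e (nat_lit 237624) (nat_lit 13) (.e (nat_lit 491264) (nat_lit 10) .nil))))) .nil)) 
(.lf (nat_lit 117491) (.g (nat_lit 4395) (.e (nat_lit 5953) (nat_lit 322) (.e (nat_lit 57447) (nat_lit 19) (.e (nat_lit 393234) (nat_lit 17) (.e (nat_lit 7581) (nat_lit 405) (.e (nat_lit 57476) (nat_lit 28) (.e (nat_lit 557104) (nat_lit 14) (.e (nat_lit 180229) (nat_lit 0) .nil))))))) (.g (nat_lit 7) .nil .nil)))))) (.nd (nat_lit 4) (.nd (nat_lit 5) (.nd (nat_lit 6) 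
(.lf (nat_lit 117387) (.g (nat_lit 2891) (.e (nat_lit 5953) (nat_lit 322) (.e (nat_lit 57373) (nat_lit 2) (.e (nat_lit 90170) (nat_lit 13) (.e (nat_lit 172067) (nat_lit 3) (.e (nat_lit 204837) (nat_lit 20) .nil))))) .nil)) 
(.lf (nat_lit 117451) (.g (nat_lit 1579) (.e (nat_lit 5953) (nat_lit 322) (.e (nat_lit 57400) (nat_lit 10) (.e (nat_lit 319528) (nat_lit 16) (.e (nat_lit 286761) (nat_lit 13) (.e (nat_lit 393289) (nat_lit 25) (.e (nat_lit 458771) (nat_lit 18) .nil)))))) (.g (nat_lit 4) .nil .nil)))) (.nd (nat_lit 6) 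
(.lf (nat_lit 117419) (.g (nat_lit 1619) (.e (nat_lit 5953) (nat_lit 322) (.e (nat_lit 57373) (nat_lit 2) (.e (nat_lit 90178) (nat_lit 15) (.e (nat_lit 188461) (nat_lit 26) .nil)))) .nil)) 
(.lf (nat_lit 117483) (.g (nat_lit 2352) (.e (nat_lit 5953) (nat_lit 322) (.e (nat_lit 57445) (nat_lit 19) (.e (nat_lit 393234) (nat_lit 17) (.e (nat_lit 7581) (nat_lit 405) (.e (nat_lit 57480) (nat_lit 28) .nil))))) .nil)))) (.nd (nat_lit 5) (.nd (nat_lit 6) 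
(.lf (nat_lit 117403) (.g (nat_lit 3101) (.e (nat_lit 5953) (nat_lit 322) (.e (nat_lit 57373) (nat_lit 2) (.e (nat_lit 90172) (nat_lit 14) (.e (nat_lit 180244) (nat_lit 5) (.e (nat_lit 532515) (nat_lit 3) (.e (nat_lit 114715) (nat_lit 22) (.e (nat_lit 90165) (nat_lit 12) (.e (nat_lit 171776) (nat_lit 0) .nil)))))))) (.g (nat_lit 7) .nil .nil))) 
(.lf (nat_lit 117467) (.g (nat_lit 2119) (.e (nat_lit 5953) (nat_lit 322) (.e (nat_lit 57409) (nat_lit 12) (.e (nat_lit 336443) (nat_lit 32) (.e (nat_lit 466977) (nat_lit 22) (.e (nat_lit 196624) (nat_lit 9) .nil))))) .nil))) (.nd (nat_lit 6) 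
(.lf (nat_lit 117435) (.g (nat_lit 2416) (.e (nat_lit 5953) (nat_lit 322) (.e (nat_lit 57378) (nat_lit 3) (.e (nat_lit 98365) (nat_lit 26) (.e (nat_lit 426188) (nat_lit 9) (.e (nat_lit 426479) (nat_lit 27) .nil))))) .nil)) 
(.lf (nat_lit 117499) (.g (nat_lit 2653) (.e (nat_lit 5953) (nat_lit 322) (.e (nat_lit 57447) (nat_lit 19) (.e (nat_lit 393234) (nat_lit 17) (.e (nat_lit 7581) (nat_lit 405) (.e (nat_lit 57477) (nat_lit 28) (.e (nat_lit 557104) (nat_lit 14) (.e (nat_lit 180230) (nat_lit 0) .nil))))))) (.g (nat_lit 5) .nil .nil))))))) (.nd (nat_lit 3) (.nd (nat_lit 4) (.nd (nat_lit 5) (.nd (nat_lit 6) 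
(.lf (nat_lit 117383) (.g (nat_lit 2433) (.e (nat_lit 5953) (nat_lit 322) (.e (nat_lit 57373) (nat_lit 2) (.e (nat_lit 90170) (nat_lit 13) (.e (nat_lit 172065) (nat_lit 3) .nil)))) .nil)) 
(.lf (nat_lit 117447) (.g (nat_lit 2161) (.e (nat_lit 5953) (nat_lit 322) (.e (nat_lit 57378) (nat_lit 3) (.e (nat_lit 98373) (nat_lit 29) (.e (nat_lit 450602) (nat_lit 22) .nil)))) .nil))) (.nd (nat_lit 6) 
(.lf (nat_lit 117415) (.g (nat_lit 457) (.e (nat_lit 5953) (nat_lit 322) (.e (nat_lit 57373) (nat_lit 2) (.e (nat_lit 90176) (nat_lit 15) .nil))) .nil)) 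
(.lf (nat_lit 117479) (.g (nat_lit 1919) (.e (nat_lit 5953) (nat_lit 322) (.e (nat_lit 57445) (nat_lit 19) (.e (nat_lit 393233) (nat_lit 17) (.e (nat_lit 7581) (nat_lit 405) (.e (nat_lit 57480) (nat_lit 28) (.e (nat_lit 557105) (nat_lit 14) (.e (nat_lit 180224) (nat_lit 0) .nil))))))) (.g (nat_lit 4) .nil .nil))))) (.nd (nat_lit 5) (.nd (nat_lit 6) 
(.lf (nat_lit 117399) (.g (nat_lit 2610) (.e (nat_lit 5953) (nat_lit 322) (.e (nat_lit 57373) (nat_lit 2) (.e (nat_lit 90172) (nat_lit 14) (.e (nat_lit 180244) (nat_lit 5) (.e (nat_lit 532508) (nat_lit 2) (.e (nat_lit 106517) (nat_lit 9) (.e (nat_lit 1255) (nat_lit 92) (.e (nat_lit 98321) (nat_lit 17) (.e (nat_lit 2464) (nat_lit 157) .nil))))))))) (.g (nat_lit 5) .nil .nil))) 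
(.lf (nat_lit 117463) (.g (nat_lit 2037) (.e (nat_lit 5953) (nat_lit 322) (.e (nat_lit 57409) (nat_lit 12) (.e (nat_lit 336443) (nat_lit 32) (.e (nat_lit 466974) (nat_lit 22) (.e (nat_lit 196654) (nat_lit 11) (.e (nat_lit 16386) (nat_lit 0) (.e (nat_lit 2532) (nat_lit 157) .nil))))))) (.g (nat_lit 4) .nil .nil)))) (.nd (nat_lit 6) 
(.lf (nat_lit 117431) (.g (nat_lit 1575) (.e (nat_lit 5953) (nat_lit 322) (.e (nat_lit 57378) (nat_lit 3) (.e (nat_lit 98365) (nat_lit 26) (.e (nat_lit 426187) (nat_lit 9) .nil)))) .nil)) 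
(.lf (nat_lit 117495) (.g (nat_lit 2224) (.e (nat_lit 5953) (nat_lit 322) (.e (nat_lit 57447) (nat_lit 19) (.e (nat_lit 393234) (nat_lit 17) (.e (nat_lit 7581) (nat_lit 405) (.e (nat_lit 57477) (nat_lit 28) (.e (nat_lit 557103) (nat_lit 14) (.e (nat_lit 188160) (nat_lit 0) .nil))))))) (.g (nat_lit 4) .nil .nil)))))) (.nd (nat_lit 4) (.nd (nat_lit 5) (.nd (nat_lit 6) 
(.lf (nat_lit 117391) (.g (nat_lit 3320) (.e (nat_lit 5953) (nat_lit 322) (.e (nat_lit 57373) (nat_lit 2) (.e (nat_lit 90170) (nat_lit 13) (.e (nat_lit 172113) (nat_lit 10) (.e (nat_lit 434208) (nat_lit 18) .nil))))) .nil)) 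
(.lf (nat_lit 117455) (.g (nat_lit 1865) (.e (nat_lit 5953) (nat_lit 322) (.e (nat_lit 57409) (nat_lit 12) (.e (nat_lit 336208) (nat_lit 12) (.e (nat_lit 385104) (nat_lit 50) (.e (nat_lit 786483) (nat_lit 30) (.e (nat_lit 368384) (nat_lit 0) .nil)))))) (.g (nat_lit 4) .nil .nil)))) (.nd (nat_lit 6) 
(.lf (nat_lit 117423) (.g (nat_lit 1783) (.e (nat_lit 5953) (nat_lit 322) (.e (nat_lit 57373) (nat_lit 2) (.e (nat_lit 90185) (nat_lit 17) (.e (nat_lit 237605) (nat_lit 9) (.e (nat_lit 426566) (nat_lit 34) .nil))))) .nil)) 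
(.lf (nat_lit 117487) (.g (nat_lit 1424) (.e (nat_lit 5953) (nat_lit 322) (.e (nat_lit 57447) (nat_lit 19) (.e (nat_lit 393233) (nat_lit 17) (.e (nat_lit 7581) (nat_lit 405) .nil)))) .nil)))) (.nd (nat_lit 5) (.nd (nat_lit 6) 
(.lf (nat_lit 117407) (.g (nat_lit 1886) (.e (nat_lit 5953) (nat_lit 322) (.e (nat_lit 57373) (nat_lit 2) (.e (nat_lit 90174) (nat_lit 14) (.e (nat_lit 180243) (nat_lit 5) (.e (nat_lit 532508) (nat_lit 2) .nil))))) .nil)) 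
(.lf (nat_lit 117471) (.g (nat_lit 2042) (.e (nat_lit 5953) (nat_lit 322) (.e (nat_lit 57409) (nat_lit 12) (.e (nat_lit 336443) (nat_lit 32) (.e (nat_lit 466977) (nat_lit 22) (.e (nat_lit 196654) (nat_lit 11) (.e (nat_lit 16386) (nat_lit 0) (.e (nat_lit 2536) (nat_lit 157) .nil))))))) (.g (nat_lit 4) .nil .nil)))) (.nd (nat_lit 6) 
(.lf (nat_lit 117439) (.g (nat_lit 2332) (.e (nat_lit 5953) (nat_lit 322) (.e (nat_lit 57378) (nat_lit 3) (.e (nat_lit 98365) (nat_lit 26) (.e (nat_lit 426188) (nat_lit 9) (.e (nat_lit 426568) (nat_lit 34) .nil))))) .nil)) 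
(.lf (nat_lit 117503) (.g (nat_lit 2126) (.e (nat_lit 5953) (nat_lit 322) (.e (nat_lit 57447) (nat_lit 19) (.e (nat_lit 393234) (nat_lit 17) (.e (nat_lit 7581) (nat_lit 405) (.e (nat_lit 57480) (nat_lit 28) (.e (nat_lit 557105) (nat_lit 14) (.e (nat_lit 188160) (nat_lit 0) .nil))))))) (.g (nat_lit 4) .nil .nil))))))))))

noncomputable def tv1576 : DT := (.nd (nat_lit 0) (.nd (nat_lit 1) (.nd (nat_lit 2) (.nd (nat_lit 3) (.nd (nat_lit 4) (.nd (nat_lit 5) (.nd (nat_lit 6) 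
(.lf (nat_lit 117504) (.g (nat_lit 1921) (.e (nat_lit 5953) (nat_lit 322) (.e (nat_lit 57447) (nat_lit 19) (.e (nat_lit 393234) (nat_lit 17) (.e (nat_lit 7583) (nat_lit 405) (.e (nat_lit 57476) (nat_lit 28) (.e (nat_lit 557097) (nat_lit 13) (.e (nat_lit 172045) (nat_lit 0) (.e (nat_lit 2468) (nat_lit 157) .nil)))))))) (.g (nat_lit 4) .nil .nil))) 
(.lf (nat_lit 117568) (.g (nat_lit 2523) (.e (nat_lit 5954) (nat_lit 322) (.e (nat_lit 57400) (nat_lit 10) (.e (nat_lit 319533) (nat_lit 16) (.e (nat_lit 286761) (nat_lit 13) (.e (nat_lit 393283) (nat_lit 24) .nil))))) .nil))) (.nd (nat_lit 6) 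
(.lf (nat_lit 117536) (.g (nat_lit 2001) (.e (nat_lit 5954) (nat_lit 322) (.e (nat_lit 57357) (nat_lit 0) (.e (nat_lit 1858) (nat_lit 124) (.e (nat_lit 557100) (nat_lit 13) (.e (nat_lit 172106) (nat_lit 10) (.e (nat_lit 434231) (nat_lit 23) (.e (nat_lit 532535) (nat_lit 9) (.e (nat_lit 335886) (nat_lit 0) (.e (nat_lit 970) (nat_lit 81) .nil))))))))) (.g (nat_lit 4) .nil .nil))) 
(.lf (nat_lit 117600) (.g (nat_lit 1691) (.e (nat_lit 5954) (nat_lit 322) (.e (nat_lit 57424) (nat_lit 14) (.e (nat_lit 352318) (nat_lit 24) (.e (nat_lit 123197) (nat_lit 266) .nil)))) .nil)))) (.nd (nat_lit 5) (.nd (nat_lit 6) 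
(.lf (nat_lit 117520) (.g (nat_lit 3738) (.e (nat_lit 5954) (nat_lit 322) (.e (nat_lit 57345) (nat_lit 0) (.e (nat_lit 2031) (nat_lit 140) (.e (nat_lit 688177) (nat_lit 16) (.e (nat_lit 65583) (nat_lit 7) (.e (nat_lit 319530) (nat_lit 16) (.e (nat_lit 286748) (nat_lit 9) (.e (nat_lit 335905) (nat_lit 0) (.e (nat_lit 970) (nat_lit 81) .nil))))))))) (.g (nat_lit 7) .nil .nil))) 
(.lf (nat_lit 117584) (.g (nat_lit 773) (.e (nat_lit 5954) (nat_lit 322) (.e (nat_lit 57424) (nat_lit 14) (.e (nat_lit 352318) (nat_lit 24) .nil))) .nil))) (.nd (nat_lit 6) 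
(.lf (nat_lit 117552) (.g (nat_lit 2873) (.e (nat_lit 5954) (nat_lit 322) (.e (nat_lit 57378) (nat_lit 3) (.e (nat_lit 98365) (nat_lit 26) (.e (nat_lit 426188) (nat_lit 9) (.e (nat_lit 426564) (nat_lit 34) .nil))))) .nil)) 
(.lf (nat_lit 117616) (.g (nat_lit 3319) (.e (nat_lit 5954) (nat_lit 322) (.e (nat_lit 57445) (nat_lit 19) (.e (nat_lit 393232) (nat_lit 17) (.e (nat_lit 7581) (nat_lit 405) (.e (nat_lit 57480) (nat_lit 28) (.e (nat_lit 557105) (nat_lit 14) (.e (nat_lit 180226) (nat_lit 0) .nil))))))) (.g (nat_lit 5) .nil .nil)))))) (.nd (nat_lit 4) (.nd (nat_lit 5) (.nd (nat_lit 6) 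
(.lf (nat_lit 117512) (.g (nat_lit 1415) (.e (nat_lit 5953) (nat_lit 322) (.e (nat_lit 57447) (nat_lit 19) (.e (nat_lit 393281) (nat_lit 23) (.e (nat_lit 426116) (nat_lit 2) .nil)))) .nil)) 
(.lf (nat_lit 117576) (.g (nat_lit 2479) (.e (nat_lit 5954) (nat_lit 322) (.e (nat_lit 57406) (nat_lit 12) (.e (nat_lit 336443) (nat_lit 32) (.e (nat_lit 466974) (nat_lit 22) (.e (nat_lit 196656) (nat_lit 11) (.e (nat_lit 16392) (nat_lit 0) (.e (nat_lit 2397) (nat_lit 157) .nil))))))) (.g (nat_lit 4) .nil .nil)))) (.nd (nat_lit 6) 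
(.lf (nat_lit 117544) (.g (nat_lit 2307) (.e (nat_lit 5954) (nat_lit 322) (.e (nat_lit 57373) (nat_lit 2) (.e (nat_lit 90174) (nat_lit 14) (.e (nat_lit 180243) (nat_lit 5) (.e (nat_lit 532515) (nat_lit 3) .nil))))) .nil)) 
(.lf (nat_lit 117608) (.g (nat_lit 648) (.e (nat_lit 5954) (nat_lit 322) (.e (nat_lit 57427) (nat_lit 15) (.e (nat_lit 360486) (nat_lit 18) .nil))) .nil)))) (.nd (nat_lit 5) (.nd (nat_lit 6) 
(.lf (nat_lit 117528) (.g (nat_lit 2300) (.e (nat_lit 5954) (nat_lit 322) (.e (nat_lit 57347) (nat_lit 0) (.e (nat_lit 2031) (nat_lit 140) (.e (nat_lit 688177) (nat_lit 16) (.e (nat_lit 65586) (nat_lit 7) (.e (nat_lit 319531) (nat_lit 16) (.e (nat_lit 286748) (nat_lit 9) (.e (nat_lit 335905) (nat_lit 0) (.e (nat_lit 972) (nat_lit 81) .nil))))))))) (.g (nat_lit 4) .nil .nil))) 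
(.lf (nat_lit 117592) (.g (nat_lit 3276) (.e (nat_lit 5954) (nat_lit 322) (.e (nat_lit 57424) (nat_lit 14) (.e (nat_lit 352318) (nat_lit 24) (.e (nat_lit 123183) (nat_lit 264) (.e (nat_lit 1222) (nat_lit 90) (.e (nat_lit 81928) (nat_lit 20) (.e (nat_lit 970) (nat_lit 81) .nil))))))) (.g (nat_lit 5) .nil .nil)))) (.nd (nat_lit 6) 
(.lf (nat_lit 117560) (.g (nat_lit 2309) (.e (nat_lit 5954) (nat_lit 322) (.e (nat_lit 57400) (nat_lit 10) (.e (nat_lit 319531) (nat_lit 16) (.e (nat_lit 286761) (nat_lit 13) (.e (nat_lit 393284) (nat_lit 24) (.e (nat_lit 434200) (nat_lit 18) .nil)))))) (.g (nat_lit 4) .nil .nil))) 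
(.lf (nat_lit 117624) (.g (nat_lit 2764) (.e (nat_lit 5954) (nat_lit 322) (.e (nat_lit 57445) (nat_lit 19) (.e (nat_lit 393234) (nat_lit 17) (.e (nat_lit 7583) (nat_lit 405) (.e (nat_lit 57476) (nat_lit 28) (.e (nat_lit 557103) (nat_lit 14) (.e (nat_lit 180225) (nat_lit 0) .nil))))))) (.g (nat_lit 4) .nil .nil))))))) (.nd (nat_lit 3) (.nd (nat_lit 4) (.nd (nat_lit 5) (.nd (nat_lit 6) 
(.lf (nat_lit 117508) (.g (nat_lit 1198) (.e (nat_lit 5953) (nat_lit 322) (.e (nat_lit 57447) (nat_lit 19) (.e (nat_lit 393266) (nat_lit 23) .nil))) .nil)) 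
(.lf (nat_lit 117572) (.g (nat_lit 1202) (.e (nat_lit 5954) (nat_lit 322) (.e (nat_lit 57400) (nat_lit 10) (.e (nat_lit 319534) (nat_lit 16) (.e (nat_lit 286761) (nat_lit 13) .nil)))) .nil))) (.nd (nat_lit 6) 
(.lf (nat_lit 117540) (.g (nat_lit 1904) (.e (nat_lit 5954) (nat_lit 322) (.e (nat_lit 57371) (nat_lit 2) (.e (nat_lit 90185) (nat_lit 17) (.e (nat_lit 237605) (nat_lit 9) (.e (nat_lit 426566) (nat_lit 34) .nil))))) .nil)) 
(.lf (nat_lit 117604) (.g (nat_lit 2245) (.e (nat_lit 5954) (nat_lit 322) (.e (nat_lit 57424) (nat_lit 14) (.e (nat_lit 352318) (nat_lit 24) (.e (nat_lit 123198) (nat_lit 266) (.e (nat_lit 57427) (nat_lit 15) .nil))))) .nil)))) (.nd (nat_lit 5) (.nd (nat_lit 6) 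
(.lf (nat_lit 117524) (.g (nat_lit 4297) (.e (nat_lit 5954) (nat_lit 322) (.e (nat_lit 57347) (nat_lit 0) (.e (nat_lit 2031) (nat_lit 140) (.e (nat_lit 688177) (nat_lit 16) (.e (nat_lit 65583) (nat_lit 7) (.e (nat_lit 319530) (nat_lit 16) (.e (nat_lit 286748) (nat_lit 9) (.e (nat_lit 335889) (nat_lit 0) (.e (nat_lit 970) (nat_lit 81) .nil))))))))) (.g (nat_lit 7) .nil .nil))) 
(.lf (nat_lit 117588) (.g (nat_lit 3788) (.e (nat_lit 5954) (nat_lit 322) (.e (nat_lit 57424) (nat_lit 14) (.e (nat_lit 352318) (nat_lit 24) (.e (nat_lit 123182) (nat_lit 264) (.e (nat_lit 1222) (nat_lit 90) (.e (nat_lit 81935) (nat_lit 20) (.e (nat_lit 972) (nat_lit 81) .nil))))))) (.g (nat_lit 6) .nil .nil)))) (.nd (nat_lit 6) 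
(.lf (nat_lit 117556) (.g (nat_lit 4229) (.e (nat_lit 5954) (nat_lit 322) (.e (nat_lit 57378) (nat_lit 3) (.e (nat_lit 98373) (nat_lit 29) (.e (nat_lit 450563) (nat_lit 0) (.e (nat_lit 6595) (nat_lit 351) .nil))))) .nil)) 
(.lf (nat_lit 117620) (.g (nat_lit 2122) (.e (nat_lit 5954) (nat_lit 322) (.e (nat_lit 57445) (nat_lit 19) (.e (nat_lit 393233) (nat_lit 17) (.e (nat_lit 7583) (nat_lit 405) (.e (nat_lit 57476) (nat_lit 28) (.e (nat_lit 557104) (nat_lit 14) (.e (nat_lit 180226) (nat_lit 0) .nil))))))) (.g (nat_lit 5) .nil .nil)))))) (.nd (nat_lit 4) (.nd (nat_lit 5) (.nd (nat_lit 6) 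
(.lf (nat_lit 117516) (.g (nat_lit 2570) (.e (nat_lit 5953) (nat_lit 322) (.e (nat_lit 57447) (nat_lit 19) (.e (nat_lit 393301) (nat_lit 27) (.e (nat_lit 491526) (nat_lit 0) (.e (nat_lit 1848) (nat_lit 124) .nil))))) .nil)) 
(.lf (nat_lit 117580) (.g (nat_lit 2350) (.e (nat_lit 5954) (nat_lit 322) (.e (nat_lit 57412) (nat_lit 12) (.e (nat_lit 336193) (nat_lit 12) (.e (nat_lit 385105) (nat_lit 50) (.e (nat_lit 786481) (nat_lit 30) (.e (nat_lit 368384) (nat_lit 0) .nil)))))) (.g (nat_lit 4) .nil .nil)))) (.nd (nat_lit 6) 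
(.lf (nat_lit 117548) (.g (nat_lit 2469) (.e (nat_lit 5954) (nat_lit 322) (.e (nat_lit 57377) (nat_lit 3) (.e (nat_lit 98365) (nat_lit 26) (.e (nat_lit 426188) (nat_lit 9) (.e (nat_lit 426566) (nat_lit 34) (.e (nat_lit 393233) (nat_lit 17) (.e (nat_lit 2399) (nat_lit 157) .nil))))))) (.g (nat_lit 4) .nil .nil))) 
(.lf (nat_lit 117612) (.g (nat_lit 2456) (.e (nat_lit 5954) (nat_lit 322) (.e (nat_lit 57445) (nat_lit 19) (.e (nat_lit 393231) (nat_lit 17) (.e (nat_lit 7581) (nat_lit 405) (.e (nat_lit 57480) (nat_lit 28) (.e (nat_lit 557105) (nat_lit 14) (.e (nat_lit 180226) (nat_lit 0) .nil))))))) (.g (nat_lit 5) .nil .nil))))) (.nd (nat_lit 5) (.nd (nat_lit 6) 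
(.lf (nat_lit 117532) (.g (nat_lit 2315) (.e (nat_lit 5954) (nat_lit 322) (.e (nat_lit 57354) (nat_lit 0) (.e (nat_lit 1855) (nat_lit 124) (.e (nat_lit 557100) (nat_lit 13) (.e (nat_lit 172106) (nat_lit 10) (.e (nat_lit 434231) (nat_lit 23) (.e (nat_lit 532535) (nat_lit 9) (.e (nat_lit 335905) (nat_lit 0) (.e (nat_lit 970) (nat_lit 81) .nil))))))))) (.g (nat_lit 4) .nil .nil))) 
(.lf (nat_lit 117596) (.g (nat_lit 3709) (.e (nat_lit 5954) (nat_lit 322) (.e (nat_lit 57424) (nat_lit 14) (.e (nat_lit 352318) (nat_lit 24) (.e (nat_lit 123184) (nat_lit 264) (.e (nat_lit 1222) (nat_lit 90) (.e (nat_lit 81935) (nat_lit 20) (.e (nat_lit 972) (nat_lit 81) .nil))))))) (.g (nat_lit 6) .nil .nil)))) (.nd (nat_lit 6) 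
(.lf (nat_lit 117564) (.g (nat_lit 1923) (.e (nat_lit 5954) (nat_lit 322) (.e (nat_lit 57400) (nat_lit 10) (.e (nat_lit 319533) (nat_lit 16) (.e (nat_lit 286760) (nat_lit 13) (.e (nat_lit 393283) (nat_lit 24) .nil))))) .nil)) 
(.lf (nat_lit 117628) (.g (nat_lit 1961) (.e (nat_lit 5954) (nat_lit 322) (.e (nat_lit 57445) (nat_lit 19) (.e (nat_lit 393298) (nat_lit 27) (.e (nat_lit 491528) (nat_lit 0) .nil)))) .nil))))))) (.nd (nat_lit 2) (.nd (nat_lit 3) (.nd (nat_lit 4) (.nd (nat_lit 5) (.nd (nat_lit 6) 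
(.lf (nat_lit 117506) (.g (nat_lit 1761) (.e (nat_lit 5953) (nat_lit 322) (.e (nat_lit 57447) (nat_lit 19) (.e (nat_lit 393234) (nat_lit 17) (.e (nat_lit 7583) (nat_lit 405) (.e (nat_lit 57476) (nat_lit 28) (.e (nat_lit 557103) (nat_lit 14) (.e (nat_lit 188160) (nat_lit 0) .nil))))))) (.g (nat_lit 4) .nil .nil))) 
(.lf (nat_lit 117570) (.g (nat_lit 2571) (.e (nat_lit 5954) (nat_lit 322) (.e (nat_lit 57400) (nat_lit 10) (.e (nat_lit 319533) (nat_lit 16) (.e (nat_lit 286761) (nat_lit 13) (.e (nat_lit 393284) (nat_lit 24) (.e (nat_lit 434200) (nat_lit 18) .nil)))))) (.g (nat_lit 4) .nil .nil)))) (.nd (nat_lit 6) 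
(.lf (nat_lit 117538) (.g (nat_lit 699) (.e (nat_lit 5954) (nat_lit 322) (.e (nat_lit 57371) (nat_lit 2) (.e (nat_lit 90176) (nat_lit 15) .nil))) .nil)) 
(.lf (nat_lit 117602) (.g (nat_lit 2471) (.e (nat_lit 5954) (nat_lit 322) (.e (nat_lit 57424) (nat_lit 14) (.e (nat_lit 352318) (nat_lit 24) (.e (nat_lit 123197) (nat_lit 266) (.e (nat_lit 57427) (nat_lit 15) (.e (nat_lit 368384) (nat_lit 0) .nil)))))) (.g (nat_lit 4) .nil .nil))))) (.nd (nat_lit 5) (.nd (nat_lit 6) 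
(.lf (nat_lit 117522) (.g (nat_lit 2929) (.e (nat_lit 5954) (nat_lit 322) (.e (nat_lit 57347) (nat_lit 0) (.e (nat_lit 2031) (nat_lit 140) (.e (nat_lit 688177) (nat_lit 16) (.e (nat_lit 65583) (nat_lit 7) (.e (nat_lit 319530) (nat_lit 16) (.e (nat_lit 286748) (nat_lit 9) (.e (nat_lit 335886) (nat_lit 0) (.e (nat_lit 970) (nat_lit 81) .nil))))))))) (.g (nat_lit 5) .nil .nil))) 
(.lf (nat_lit 117586) (.g (nat_lit 1971) (.e (nat_lit 5954) (nat_lit 322) (.e (nat_lit 57424) (nat_lit 14) (.e (nat_lit 352318) (nat_lit 24) (.e (nat_lit 123182) (nat_lit 264) (.e (nat_lit 1222) (nat_lit 90) .nil))))) .nil))) (.nd (nat_lit 6) 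
(.lf (nat_lit 117554) (.g (nat_lit 3388) (.e (nat_lit 5954) (nat_lit 322) (.e (nat_lit 57378) (nat_lit 3) (.e (nat_lit 98365) (nat_lit 26) (.e (nat_lit 426188) (nat_lit 9) (.e (nat_lit 426566) (nat_lit 34) (.e (nat_lit 393233) (nat_lit 17) (.e (nat_lit 2399) (nat_lit 157) .nil))))))) (.g (nat_lit 5) .nil .nil))) 
(.lf (nat_lit 117618) (.g (nat_lit 2398) (.e (nat_lit 5954) (nat_lit 322) (.e (nat_lit 57445) (nat_lit 19) (.e (nat_lit 393233) (nat_lit 17) (.e (nat_lit 7581) (nat_lit 405) (.e (nat_lit 57477) (nat_lit 28) (.e (nat_lit 557104) (nat_lit 14) (.e (nat_lit 180226) (nat_lit 0) .nil))))))) (.g (nat_lit 5) .nil .nil)))))) (.nd (nat_lit 4) (.nd (nat_lit 5) (.nd (nat_lit 6) 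
(.lf (nat_lit 117514) (.g (nat_lit 1187) (.e (nat_lit 5953) (nat_lit 322) (.e (nat_lit 57447) (nat_lit 19) (.e (nat_lit 393283) (nat_lit 24) .nil))) .nil)) 
(.lf (nat_lit 117578) (.g (nat_lit 731) (.e (nat_lit 5954) (nat_lit 322) (.e (nat_lit 57409) (nat_lit 12) (.e (nat_lit 336438) (nat_lit 31) .nil))) .nil))) (.nd (nat_lit 6) 
(.lf (nat_lit 117546) (.g (nat_lit 1840) (.e (nat_lit 5954) (nat_lit 322) (.e (nat_lit 57373) (nat_lit 2) (.e (nat_lit 90178) (nat_lit 15) (.e (nat_lit 196352) (nat_lit 18) .nil)))) .nil)) 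
(.lf (nat_lit 117610) (.g (nat_lit 787) (.e (nat_lit 5954) (nat_lit 322) (.e (nat_lit 57428) (nat_lit 15) (.e (nat_lit 360486) (nat_lit 18) (.e (nat_lit 671764) (nat_lit 6) .nil)))) .nil)))) (.nd (nat_lit 5) (.nd (nat_lit 6) 
(.lf (nat_lit 117530) (.g (nat_lit 4879) (.e (nat_lit 5954) (nat_lit 322) (.e (nat_lit 57347) (nat_lit 0) (.e (nat_lit 2031) (nat_lit 140) (.e (nat_lit 688177) (nat_lit 16) (.e (nat_lit 65586) (nat_lit 7) (.e (nat_lit 319531) (nat_lit 16) (.e (nat_lit 286748) (nat_lit 9) (.e (nat_lit 335908) (nat_lit 0) (.e (nat_lit 970) (nat_lit 81) .nil))))))))) (.g (nat_lit 7) .nil .nil))) 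
(.lf (nat_lit 117594) (.g (nat_lit 1918) (.e (nat_lit 5954) (nat_lit 322) (.e (nat_lit 57424) (nat_lit 14) (.e (nat_lit 352318) (nat_lit 24) (.e (nat_lit 123184) (nat_lit 264) (.e (nat_lit 1222) (nat_lit 90) .nil))))) .nil))) (.nd (nat_lit 6) 
(.lf (nat_lit 117562) (.g (nat_lit 1673) (.e (nat_lit 5954) (nat_lit 322) (.e (nat_lit 57400) (nat_lit 10) (.e (nat_lit 319532) (nat_lit 16) (.e (nat_lit 286761) (nat_lit 13) (.e (nat_lit 393289) (nat_lit 25) (.e (nat_lit 458771) (nat_lit 18) .nil)))))) (.g (nat_lit 4) .nil .nil))) 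
(.lf (nat_lit 117626) (.g (nat_lit 1806) (.e (nat_lit 5954) (nat_lit 322) (.e (nat_lit 57445) (nat_lit 19) (.e (nat_lit 393281) (nat_lit 23) (.e (nat_lit 426116) (nat_lit 2) (.e (nat_lit 196654) (nat_lit 11) .nil))))) .nil)))))) (.nd (nat_lit 3) (.nd (nat_lit 4) (.nd (nat_lit 5) (.nd (nat_lit 6) 
(.lf (nat_lit 117510) (.g (nat_lit 1280) (.e (nat_lit 5953) (nat_lit 322) (.e (nat_lit 57447) (nat_lit 19) (.e (nat_lit 393275) (nat_lit 23) .nil))) .nil)) 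
(.lf (nat_lit 117574) (.g (nat_lit 2538) (.e (nat_lit 5954) (nat_lit 322) (.e (nat_lit 57400) (nat_lit 10) (.e (nat_lit 319534) (nat_lit 16) (.e (nat_lit 286761) (nat_lit 13) (.e (nat_lit 393284) (nat_lit 24) (.e (nat_lit 434200) (nat_lit 18) .nil)))))) (.g (nat_lit 4) .nil .nil)))) (.nd (nat_lit 6) 
(.lf (nat_lit 117542) (.g (nat_lit 3435) (.e (nat_lit 5954) (nat_lit 322) (.e (nat_lit 57373) (nat_lit 2) (.e (nat_lit 90170) (nat_lit 13) (.e (nat_lit 172113) (nat_lit 10) (.e (nat_lit 434207) (nat_lit 18) .nil))))) .nil)) 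
(.lf (nat_lit 117606) (.g (nat_lit 1616) (.e (nat_lit 5954) (nat_lit 322) (.e (nat_lit 57427) (nat_lit 15) (.e (nat_lit 360450) (nat_lit 0) (.e (nat_lit 5898) (nat_lit 320) (.e (nat_lit 7936) (nat_lit 90) .nil))))) .nil)))) (.nd (nat_lit 5) (.nd (nat_lit 6) 
(.lf (nat_lit 117526) (.g (nat_lit 1953) (.e (nat_lit 5954) (nat_lit 322) (.e (nat_lit 57347) (nat_lit 0) (.e (nat_lit 2031) (nat_lit 140) (.e (nat_lit 688177) (nat_lit 16) (.e (nat_lit 65586) (nat_lit 7) .nil))))) .nil)) 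
(.lf (nat_lit 117590) (.g (nat_lit 1510) (.e (nat_lit 5954) (nat_lit 322) (.e (nat_lit 57424) (nat_lit 14) (.e (nat_lit 352318) (nat_lit 24) (.e (nat_lit 123183) (nat_lit 264) .nil)))) .nil))) (.nd (nat_lit 6) 
(.lf (nat_lit 117558) (.g (nat_lit 1541) (.e (nat_lit 5954) (nat_lit 322) (.e (nat_lit 57400) (nat_lit 10) (.e (nat_lit 319529) (nat_lit 16) (.e (nat_lit 286761) (nat_lit 13) (.e (nat_lit 393289) (nat_lit 25) (.e (nat_lit 458771) (nat_lit 18) .nil)))))) (.g (nat_lit 4) .nil .nil))) 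
(.lf (nat_lit 117622) (.g (nat_lit 2480) (.e (nat_lit 5954) (nat_lit 322) (.e (nat_lit 57445) (nat_lit 19) (.e (nat_lit 393234) (nat_lit 17) (.e (nat_lit 7581) (nat_lit 405) (.e (nat_lit 57477) (nat_lit 28) (.e (nat_lit 557104) (nat_lit 14) (.e (nat_lit 180226) (nat_lit 0) .nil))))))) (.g (nat_lit 4) .nil .nil)))))) (.nd (nat_lit 4) (.nd (nat_lit 5) (.nd (nat_lit 6) 
(.lf (nat_lit 117518) (.g (nat_lit 2713) (.e (nat_lit 5953) (nat_lit 322) (.e (nat_lit 57447) (nat_lit 19) (.e (nat_lit 393301) (nat_lit 27) (.e (nat_lit 491526) (nat_lit 0) (.e (nat_lit 1848) (nat_lit 124) (.e (nat_lit 557104) (nat_lit 14) (.e (nat_lit 180230) (nat_lit 0) .nil))))))) (.g (nat_lit 4) .nil .nil))) 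
(.lf (nat_lit 117582) (.g (nat_lit 782) (.e (nat_lit 5954) (nat_lit 322) (.e (nat_lit 57423) (nat_lit 14) (.e (nat_lit 352270) (nat_lit 8) .nil))) .nil))) (.nd (nat_lit 6) 
(.lf (nat_lit 117550) (.g (nat_lit 3250) (.e (nat_lit 5954) (nat_lit 322) (.e (nat_lit 57378) (nat_lit 3) (.e (nat_lit 98365) (nat_lit 26) (.e (nat_lit 426187) (nat_lit 9) (.e (nat_lit 426566) (nat_lit 34) (.e (nat_lit 393233) (nat_lit 17) (.e (nat_lit 2399) (nat_lit 157) .nil))))))) (.g (nat_lit 5) .nil .nil))) 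
(.lf (nat_lit 117614) (.g (nat_lit 2385) (.e (nat_lit 5954) (nat_lit 322) (.e (nat_lit 57445) (nat_lit 19) (.e (nat_lit 393232) (nat_lit 17) (.e (nat_lit 7581) (nat_lit 405) (.e (nat_lit 57477) (nat_lit 28) (.e (nat_lit 557104) (nat_lit 14) (.e (nat_lit 180226) (nat_lit 0) .nil))))))) (.g (nat_lit 4) .nil .nil))))) (.nd (nat_lit 5) (.nd (nat_lit 6) 
(.lf (nat_lit 117534) (.g (nat_lit 2523) (.e (nat_lit 5954) (nat_lit 322) (.e (nat_lit 57354) (nat_lit 0) (.e (nat_lit 2030) (nat_lit 140) (.e (nat_lit 688177) (nat_lit 16) (.e (nat_lit 65586) (nat_lit 7) (.e (nat_lit 319531) (nat_lit 16) (.e (nat_lit 286748) (nat_lit 9) (.e (nat_lit 335905) (nat_lit 0) (.e (nat_lit 970) (nat_lit 81) .nil))))))))) (.g (nat_lit 4) .nil .nil))) 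
(.lf (nat_lit 117598) (.g (nat_lit 1898) (.e (nat_lit 5954) (nat_lit 322) (.e (nat_lit 57424) (nat_lit 14) (.e (nat_lit 352318) (nat_lit 24) (.e (nat_lit 123185) (nat_lit 264) .nil)))) .nil))) (.nd (nat_lit 6) 
(.lf (nat_lit 117566) (.g (nat_lit 1293) (.e (nat_lit 5954) (nat_lit 322) (.e (nat_lit 57400) (nat_lit 10) (.e (nat_lit 319533) (nat_lit 16) (.e (nat_lit 286761) (nat_lit 13) .nil)))) .nil)) 
(.lf (nat_lit 117630) (.g (nat_lit 1983) (.e (nat_lit 5954) (nat_lit 322) (.e (nat_lit 57445) (nat_lit 19) (.e (nat_lit 393299) (nat_lit 27) (.e (nat_lit 491528) (nat_lit 0) .nil)))) .nil)))))))) (.nd (nat_lit 1) (.nd (nat_lit 2) (.nd (nat_lit 3) (.nd (nat_lit 4) (.nd (nat_lit 5) (.nd (nat_lit 6) 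
(.lf (nat_lit 117505) (.g (nat_lit 3410) (.e (nat_lit 5953) (nat_lit 322) (.e (nat_lit 57447) (nat_lit 19) (.e (nat_lit 393234) (nat_lit 17) (.e (nat_lit 7583) (nat_lit 405) (.e (nat_lit 57476) (nat_lit 28) (.e (nat_lit 557103) (nat_lit 14) (.e (nat_lit 180229) (nat_lit 0) .nil))))))) (.g (nat_lit 6) .nil .nil))) 
(.lf (nat_lit 117569) (.g (nat_lit 3034) (.e (nat_lit 5954) (nat_lit 322) (.e (nat_lit 57400) (nat_lit 10) (.e (nat_lit 319533) (nat_lit 16) (.e (nat_lit 286761) (nat_lit 13) (.e (nat_lit 393283) (nat_lit 24) (.e (nat_lit 434200) (nat_lit 18) .nil)))))) (.g (nat_lit 5) .nil .nil)))) (.nd (nat_lit 6) 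
(.lf (nat_lit 117537) (.g (nat_lit 2197) (.e (nat_lit 5954) (nat_lit 322) (.e (nat_lit 57371) (nat_lit 2) (.e (nat_lit 90172) (nat_lit 14) (.e (nat_lit 180244) (nat_lit 5) (.e (nat_lit 532515) (nat_lit 3) .nil))))) .nil)) 
(.lf (nat_lit 117601) (.g (nat_lit 2651) (.e (nat_lit 5954) (nat_lit 322) (.e (nat_lit 57424) (nat_lit 14) (.e (nat_lit 352318) (nat_lit 24) (.e (nat_lit 123197) (nat_lit 266) (.e (nat_lit 57426) (nat_lit 15) (.e (nat_lit 368384) (nat_lit 0) .nil)))))) (.g (nat_lit 4) .nil .nil))))) (.nd (nat_lit 5) (.nd (nat_lit 6) 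
(.lf (nat_lit 117521) (.g (nat_lit 2183) (.e (nat_lit 5954) (nat_lit 322) (.e (nat_lit 57347) (nat_lit 0) (.e (nat_lit 2031) (nat_lit 140) (.e (nat_lit 688177) (nat_lit 16) (.e (nat_lit 65583) (nat_lit 7) (.e (nat_lit 319530) (nat_lit 16) (.e (nat_lit 286747) (nat_lit 9) (.e (nat_lit 335907) (nat_lit 0) (.e (nat_lit 970) (nat_lit 81) .nil))))))))) (.g (nat_lit 4) .nil .nil))) 
(.lf (nat_lit 117585) (.g (nat_lit 1561) (.e (nat_lit 5954) (nat_lit 322) (.e (nat_lit 57424) (nat_lit 14) (.e (nat_lit 352318) (nat_lit 24) (.e (nat_lit 123182) (nat_lit 264) .nil)))) .nil))) (.nd (nat_lit 6) 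
(.lf (nat_lit 117553) (.g (nat_lit 2920) (.e (nat_lit 5954) (nat_lit 322) (.e (nat_lit 57378) (nat_lit 3) (.e (nat_lit 98365) (nat_lit 26) (.e (nat_lit 426188) (nat_lit 9) (.e (nat_lit 426566) (nat_lit 34) (.e (nat_lit 393232) (nat_lit 17) (.e (nat_lit 2399) (nat_lit 157) .nil))))))) (.g (nat_lit 4) .nil .nil))) 
(.lf (nat_lit 117617) (.g (nat_lit 2163) (.e (nat_lit 5954) (nat_lit 322) (.e (nat_lit 57445) (nat_lit 19) (.e (nat_lit 393233) (nat_lit 17) (.e (nat_lit 7581) (nat_lit 405) (.e (nat_lit 57476) (nat_lit 28) (.e (nat_lit 557104) (nat_lit 14) (.e (nat_lit 180226) (nat_lit 0) .nil))))))) (.g (nat_lit 4) .nil .nil)))))) (.nd (nat_lit 4) (.nd (nat_lit 5) (.nd (nat_lit 6) 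
(.lf (nat_lit 117513) (.g (nat_lit 1251) (.e (nat_lit 5953) (nat_lit 322) (.e (nat_lit 57447) (nat_lit 19) (.e (nat_lit 393281) (nat_lit 23) (.e (nat_lit 426133) (nat_lit 3) .nil)))) .nil)) 
(.lf (nat_lit 117577) (.g (nat_lit 2259) (.e (nat_lit 5954) (nat_lit 322) (.e (nat_lit 57406) (nat_lit 12) (.e (nat_lit 336443) (nat_lit 32) (.e (nat_lit 466977) (nat_lit 22) (.e (nat_lit 196654) (nat_lit 11) (.e (nat_lit 16386) (nat_lit 0) (.e (nat_lit 2399) (nat_lit 157) .nil))))))) (.g (nat_lit 4) .nil .nil)))) (.nd (nat_lit 6) 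
(.lf (nat_lit 117545) (.g (nat_lit 2539) (.e (nat_lit 5954) (nat_lit 322) (.e (nat_lit 57373) (nat_lit 2) (.e (nat_lit 90174) (nat_lit 14) (.e (nat_lit 180243) (nat_lit 5) (.e (nat_lit 532515) (nat_lit 3) (.e (nat_lit 114716) (nat_lit 22) (.e (nat_lit 90181) (nat_lit 16) (.e (nat_lit 229377) (nat_lit 0) .nil)))))))) (.g (nat_lit 4) .nil .nil))) 
(.lf (nat_lit 117609) (.g (nat_lit 1247) (.e (nat_lit 5954) (nat_lit 322) (.e (nat_lit 57427) (nat_lit 15) (.e (nat_lit 360486) (nat_lit 18) (.e (nat_lit 671764) (nat_lit 6) .nil)))) .nil)))) (.nd (nat_lit 5) (.nd (nat_lit 6) 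
(.lf (nat_lit 117529) (.g (nat_lit 2250) (.e (nat_lit 5954) (nat_lit 322) (.e (nat_lit 57347) (nat_lit 0) (.e (nat_lit 2031) (nat_lit 140) (.e (nat_lit 688177) (nat_lit 16) (.e (nat_lit 65586) (nat_lit 7) (.e (nat_lit 319531) (nat_lit 16) (.e (nat_lit 286748) (nat_lit 9) (.e (nat_lit 335905) (nat_lit 0) (.e (nat_lit 973) (nat_lit 81) .nil))))))))) (.g (nat_lit 4) .nil .nil))) 
(.lf (nat_lit 117593) (.g (nat_lit 3295) (.e (nat_lit 5954) (nat_lit 322) (.e (nat_lit 57424) (nat_lit 14) (.e (nat_lit 352318) (nat_lit 24) (.e (nat_lit 123183) (nat_lit 264) (.e (nat_lit 1222) (nat_lit 90) (.e (nat_lit 81935) (nat_lit 20) (.e (nat_lit 972) (nat_lit 81) .nil))))))) (.g (nat_lit 6) .nil .nil)))) (.nd (nat_lit 6) 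
(.lf (nat_lit 117561) (.g (nat_lit 2294) (.e (nat_lit 5954) (nat_lit 322) (.e (nat_lit 57400) (nat_lit 10) (.e (nat_lit 319531) (nat_lit 16) (.e (nat_lit 286761) (nat_lit 13) (.e (nat_lit 393289) (nat_lit 25) (.e (nat_lit 458771) (nat_lit 18) .nil)))))) (.g (nat_lit 5) .nil .nil))) 
(.lf (nat_lit 117625) (.g (nat_lit 621) (.e (nat_lit 5954) (nat_lit 322) (.e (nat_lit 57445) (nat_lit 19) (.e (nat_lit 393281) (nat_lit 23) .nil))) .nil)))))) (.nd (nat_lit 3) (.nd (nat_lit 4) (.nd (nat_lit 5) (.nd (nat_lit 6) 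
(.lf (nat_lit 117509) (.g (nat_lit 2233) (.e (nat_lit 5953) (nat_lit 322) (.e (nat_lit 57447) (nat_lit 19) (.e (nat_lit 393271) (nat_lit 23) (.e (nat_lit 426131) (nat_lit 3) (.e (nat_lit 212736) (nat_lit 10) .nil))))) .nil)) 
(.lf (nat_lit 117573) (.g (nat_lit 2095) (.e (nat_lit 5954) (nat_lit 322) (.e (nat_lit 57400) (nat_lit 10) (.e (nat_lit 319534) (nat_lit 16) (.e (nat_lit 286761) (nat_lit 13) (.e (nat_lit 393283) (nat_lit 24) (.e (nat_lit 434204) (nat_lit 18) .nil)))))) (.g (nat_lit 4) .nil .nil)))) (.nd (nat_lit 6) 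
(.lf (nat_lit 117541) (.g (nat_lit 2469) (.e (nat_lit 5954) (nat_lit 322) (.e (nat_lit 57373) (nat_lit 2) (.e (nat_lit 90170) (nat_lit 13) (.e (nat_lit 172113) (nat_lit 10) .nil)))) .nil)) 
(.lf (nat_lit 117605) (.g (nat_lit 1205) (.e (nat_lit 5954) (nat_lit 322) (.e (nat_lit 57426) (nat_lit 15) (.e (nat_lit 360452) (nat_lit 0) (.e (nat_lit 5907) (nat_lit 320) .nil)))) .nil)))) (.nd (nat_lit 5) (.nd (nat_lit 6) 
(.lf (nat_lit 117525) (.g (nat_lit 3697) (.e (nat_lit 5954) (nat_lit 322) (.e (nat_lit 57347) (nat_lit 0) (.e (nat_lit 2031) (nat_lit 140) (.e (nat_lit 688177) (nat_lit 16) (.e (nat_lit 65583) (nat_lit 7) (.e (nat_lit 319530) (nat_lit 16) (.e (nat_lit 286748) (nat_lit 9) (.e (nat_lit 335908) (nat_lit 0) (.e (nat_lit 970) (nat_lit 81) .nil))))))))) (.g (nat_lit 6) .nil .nil))) 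
(.lf (nat_lit 117589) (.g (nat_lit 3040) (.e (nat_lit 5954) (nat_lit 322) (.e (nat_lit 57424) (nat_lit 14) (.e (nat_lit 352318) (nat_lit 24) (.e (nat_lit 123182) (nat_lit 264) (.e (nat_lit 1224) (nat_lit 90) (.e (nat_lit 81928) (nat_lit 20) (.e (nat_lit 970) (nat_lit 81) .nil))))))) (.g (nat_lit 4) .nil .nil)))) (.nd (nat_lit 6) 
(.lf (nat_lit 117557) (.g (nat_lit 2018) (.e (nat_lit 5954) (nat_lit 322) (.e (nat_lit 57400) (nat_lit 10) (.e (nat_lit 319528) (nat_lit 16) (.e (nat_lit 286761) (nat_lit 13) (.e (nat_lit 393283) (nat_lit 24) (.e (nat_lit 434200) (nat_lit 18) .nil)))))) (.g (nat_lit 4) .nil .nil))) 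
(.lf (nat_lit 117621) (.g (nat_lit 3546) (.e (nat_lit 5954) (nat_lit 322) (.e (nat_lit 57445) (nat_lit 19) (.e (nat_lit 393234) (nat_lit 17) (.e (nat_lit 7581) (nat_lit 405) (.e (nat_lit 57476) (nat_lit 28) (.e (nat_lit 557103) (nat_lit 14) (.e (nat_lit 180225) (nat_lit 0) .nil))))))) (.g (nat_lit 5) .nil .nil)))))) (.nd (nat_lit 4) (.nd (nat_lit 5) (.nd (nat_lit 6) 
(.lf (nat_lit 117517) (.g (nat_lit 4239) (.e (nat_lit 5953) (nat_lit 322) (.e (nat_lit 57447) (nat_lit 19) (.e (nat_lit 393301) (nat_lit 27) (.e (nat_lit 491526) (nat_lit 0) (.e (nat_lit 1848) (nat_lit 124) (.e (nat_lit 557103) (nat_lit 14) (.e (nat_lit 180229) (nat_lit 0) .nil))))))) (.g (nat_lit 6) .nil .nil))) 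
(.lf (nat_lit 117581) (.g (nat_lit 2324) (.e (nat_lit 5954) (nat_lit 322) (.e (nat_lit 57412) (nat_lit 12) (.e (nat_lit 336193) (nat_lit 12) (.e (nat_lit 385105) (nat_lit 50) (.e (nat_lit 786483) (nat_lit 30) (.e (nat_lit 368384) (nat_lit 0) .nil)))))) (.g (nat_lit 4) .nil .nil)))) (.nd (nat_lit 6) 
(.lf (nat_lit 117549) (.g (nat_lit 2001) (.e (nat_lit 5954) (nat_lit 322) (.e (nat_lit 57378) (nat_lit 3) (.e (nat_lit 98365) (nat_lit 26) (.e (nat_lit 426187) (nat_lit 9) .nil)))) .nil)) 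
(.lf (nat_lit 117613) (.g (nat_lit 3073) (.e (nat_lit 5954) (nat_lit 322) (.e (nat_lit 57445) (nat_lit 19) (.e (nat_lit 393232) (nat_lit 17) (.e (nat_lit 7581) (nat_lit 405) (.e (nat_lit 57476) (nat_lit 28) (.e (nat_lit 557103) (nat_lit 14) (.e (nat_lit 180225) (nat_lit 0) .nil))))))) (.g (nat_lit 4) .nil .nil))))) (.nd (nat_lit 5) (.nd (nat_lit 6) 
(.lf (nat_lit 117533) (.g (nat_lit 2511) (.e (nat_lit 5954) (nat_lit 322) (.e (nat_lit 57354) (nat_lit 0) (.e (nat_lit 2030) (nat_lit 140) (.e (nat_lit 688177) (nat_lit 16) (.e (nat_lit 65586) (nat_lit 7) (.e (nat_lit 319531) (nat_lit 16) (.e (nat_lit 286748) (nat_lit 9) (.e (nat_lit 335889) (nat_lit 0) (.e (nat_lit 970) (nat_lit 81) .nil))))))))) (.g (nat_lit 4) .nil .nil))) 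
(.lf (nat_lit 117597) (.g (nat_lit 2162) (.e (nat_lit 5954) (nat_lit 322) (.e (nat_lit 57424) (nat_lit 14) (.e (nat_lit 352318) (nat_lit 24) (.e (nat_lit 123184) (nat_lit 264) (.e (nat_lit 7936) (nat_lit 90) .nil))))) .nil))) (.nd (nat_lit 6) 
(.lf (nat_lit 117565) (.g (nat_lit 1848) (.e (nat_lit 5954) (nat_lit 322) (.e (nat_lit 57400) (nat_lit 10) (.e (nat_lit 319533) (nat_lit 16) (.e (nat_lit 286760) (nat_lit 13) (.e (nat_lit 393289) (nat_lit 25) (.e (nat_lit 458771) (nat_lit 18) .nil)))))) (.g (nat_lit 4) .nil .nil))) 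
(.lf (nat_lit 117629) (.g (nat_lit 2988) (.e (nat_lit 5954) (nat_lit 322) (.e (nat_lit 57445) (nat_lit 19) (.e (nat_lit 393299) (nat_lit 27) (.e (nat_lit 491526) (nat_lit 0) (.e (nat_lit 1848) (nat_lit 124) .nil))))) .nil))))))) (.nd (nat_lit 2) (.nd (nat_lit 3) (.nd (nat_lit 4) (.nd (nat_lit 5) (.nd (nat_lit 6) 
(.lf (nat_lit 117507) (.g (nat_lit 4153) (.e (nat_lit 5953) (nat_lit 322) (.e (nat_lit 57447) (nat_lit 19) (.e (nat_lit 393234) (nat_lit 17) (.e (nat_lit 7583) (nat_lit 405) (.e (nat_lit 57476) (nat_lit 28) (.e (nat_lit 557104) (nat_lit 14) (.e (nat_lit 180229) (nat_lit 0) .nil))))))) (.g (nat_lit 7) .nil .nil))) 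
(.lf (nat_lit 117571) (.g (nat_lit 2818) (.e (nat_lit 5954) (nat_lit 322) (.e (nat_lit 57400) (nat_lit 10) (.e (nat_lit 319533) (nat_lit 16) (.e (nat_lit 286761) (nat_lit 13) (.e (nat_lit 393289) (nat_lit 25) (.e (nat_lit 458771) (nat_lit 18) .nil)))))) (.g (nat_lit 5) .nil .nil)))) (.nd (nat_lit 6) 
(.lf (nat_lit 117539) (.g (nat_lit 1549) (.e (nat_lit 5954) (nat_lit 322) (.e (nat_lit 57371) (nat_lit 2) (.e (nat_lit 90185) (nat_lit 17) (.e (nat_lit 237601) (nat_lit 9) .nil)))) .nil)) 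
(.lf (nat_lit 117603) (.g (nat_lit 1824) (.e (nat_lit 5954) (nat_lit 322) (.e (nat_lit 57424) (nat_lit 14) (.e (nat_lit 352318) (nat_lit 24) (.e (nat_lit 123198) (nat_lit 266) .nil)))) .nil)))) (.nd (nat_lit 5) (.nd (nat_lit 6) 
(.lf (nat_lit 117523) (.g (nat_lit 2863) (.e (nat_lit 5954) (nat_lit 322) (.e (nat_lit 57347) (nat_lit 0) (.e (nat_lit 2031) (nat_lit 140) (.e (nat_lit 688177) (nat_lit 16) (.e (nat_lit 65583) (nat_lit 7) (.e (nat_lit 319530) (nat_lit 16) (.e (nat_lit 286748) (nat_lit 9) (.e (nat_lit 335887) (nat_lit 0) (.e (nat_lit 970) (nat_lit 81) .nil))))))))) (.g (nat_lit 5) .nil .nil))) 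
(.lf (nat_lit 117587) (.g (nat_lit 3815) (.e (nat_lit 5954) (nat_lit 322) (.e (nat_lit 57424) (nat_lit 14) (.e (nat_lit 352318) (nat_lit 24) (.e (nat_lit 123182) (nat_lit 264) (.e (nat_lit 1222) (nat_lit 90) (.e (nat_lit 81928) (nat_lit 20) (.e (nat_lit 970) (nat_lit 81) .nil))))))) (.g (nat_lit 5) .nil .nil)))) (.nd (nat_lit 6) 
(.lf (nat_lit 117555) (.g (nat_lit 4169) (.e (nat_lit 5954) (nat_lit 322) (.e (nat_lit 57378) (nat_lit 3) (.e (nat_lit 98373) (nat_lit 29) (.e (nat_lit 450562) (nat_lit 0) (.e (nat_lit 6595) (nat_lit 351) .nil))))) .nil)) 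
(.lf (nat_lit 117619) (.g (nat_lit 3494) (.e (nat_lit 5954) (nat_lit 322) (.e (nat_lit 57445) (nat_lit 19) (.e (nat_lit 393233) (nat_lit 17) (.e (nat_lit 7581) (nat_lit 405) (.e (nat_lit 57480) (nat_lit 28) (.e (nat_lit 557105) (nat_lit 14) (.e (nat_lit 180226) (nat_lit 0) .nil))))))) (.g (nat_lit 6) .nil .nil)))))) (.nd (nat_lit 4) (.nd (nat_lit 5) (.nd (nat_lit 6) 
(.lf (nat_lit 117515) (.g (nat_lit 1947) (.e (nat_lit 5953) (nat_lit 322) (.e (nat_lit 57447) (nat_lit 19) (.e (nat_lit 393301) (nat_lit 27) (.e (nat_lit 491520) (nat_lit 0) .nil)))) .nil)) 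
(.lf (nat_lit 117579) (.g (nat_lit 2065) (.e (nat_lit 5954) (nat_lit 322) (.e (nat_lit 57409) (nat_lit 12) (.e (nat_lit 336443) (nat_lit 32) (.e (nat_lit 466977) (nat_lit 22) .nil)))) .nil))) (.nd (nat_lit 6) 
(.lf (nat_lit 117547) (.g (nat_lit 2235) (.e (nat_lit 5954) (nat_lit 322) (.e (nat_lit 57377) (nat_lit 3) (.e (nat_lit 98365) (nat_lit 26) (.e (nat_lit 426188) (nat_lit 9) (.e (nat_lit 426564) (nat_lit 34) .nil))))) .nil)) 
(.lf (nat_lit 117611) (.g (nat_lit 1396) (.e (nat_lit 5954) (nat_lit 322) (.e (nat_lit 57436) (nat_lit 17) (.e (nat_lit 376860) (nat_lit 21) (.e (nat_lit 57870) (nat_lit 264) .nil)))) .nil)))) (.nd (nat_lit 5) (.nd (nat_lit 6) 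
(.lf (nat_lit 117531) (.g (nat_lit 2638) (.e (nat_lit 5954) (nat_lit 322) (.e (nat_lit 57349) (nat_lit 0) (.e (nat_lit 1860) (nat_lit 124) (.e (nat_lit 557100) (nat_lit 13) (.e (nat_lit 172106) (nat_lit 10) (.e (nat_lit 434231) (nat_lit 23) (.e (nat_lit 532535) (nat_lit 9) (.e (nat_lit 335908) (nat_lit 0) (.e (nat_lit 970) (nat_lit 81) .nil))))))))) (.g (nat_lit 7) .nil .nil))) 
(.lf (nat_lit 117595) (.g (nat_lit 3703) (.e (nat_lit 5954) (nat_lit 322) (.e (nat_lit 57424) (nat_lit 14) (.e (nat_lit 352318) (nat_lit 24) (.e (nat_lit 123184) (nat_lit 264) (.e (nat_lit 1222) (nat_lit 90) (.e (nat_lit 81928) (nat_lit 20) (.e (nat_lit 970) (nat_lit 81) .nil))))))) (.g (nat_lit 5) .nil .nil)))) (.nd (nat_lit 6) 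
(.lf (nat_lit 117563) (.g (nat_lit 1303) (.e (nat_lit 5954) (nat_lit 322) (.e (nat_lit 57400) (nat_lit 10) (.e (nat_lit 319533) (nat_lit 16) (.e (nat_lit 286760) (nat_lit 13) .nil)))) .nil)) 
(.lf (nat_lit 117627) (.g (nat_lit 2605) (.e (nat_lit 5954) (nat_lit 322) (.e (nat_lit 57445) (nat_lit 19) (.e (nat_lit 393281) (nat_lit 23) (.e (nat_lit 426116) (nat_lit 2) (.e (nat_lit 196656) (nat_lit 11) (.e (nat_lit 16392) (nat_lit 0) (.e (nat_lit 2397) (nat_lit 157) .nil))))))) (.g (nat_lit 4) .nil .nil))))))) (.nd (nat_lit 3) (.nd (nat_lit 4) (.nd (nat_lit 5) (.nd (nat_lit 6) 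
(.lf (nat_lit 117511) (.g (nat_lit 1399) (.e (nat_lit 5953) (nat_lit 322) (.e (nat_lit 57447) (nat_lit 19) (.e (nat_lit 393281) (nat_lit 23) (.e (nat_lit 426115) (nat_lit 2) .nil)))) .nil)) 
(.lf (nat_lit 117575) (.g (nat_lit 2464) (.e (nat_lit 5954) (nat_lit 322) (.e (nat_lit 57400) (nat_lit 10) (.e (nat_lit 319534) (nat_lit 16) (.e (nat_lit 286761) (nat_lit 13) (.e (nat_lit 393289) (nat_lit 25) (.e (nat_lit 458771) (nat_lit 18) .nil)))))) (.g (nat_lit 5) .nil .nil)))) (.nd (nat_lit 6) 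
(.lf (nat_lit 117543) (.g (nat_lit 2322) (.e (nat_lit 5954) (nat_lit 322) (.e (nat_lit 57373) (nat_lit 2) (.e (nat_lit 90172) (nat_lit 14) (.e (nat_lit 180244) (nat_lit 5) (.e (nat_lit 532515) (nat_lit 3) .nil))))) .nil)) 
(.lf (nat_lit 117607) (.g (nat_lit 1398) (.e (nat_lit 5954) (nat_lit 322) (.e (nat_lit 57427) (nat_lit 15) (.e (nat_lit 360451) (nat_lit 0) (.e (nat_lit 5898) (nat_lit 320) .nil)))) .nil)))) (.nd (nat_lit 5) (.nd (nat_lit 6) 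
(.lf (nat_lit 117527) (.g (nat_lit 4337) (.e (nat_lit 5954) (nat_lit 322) (.e (nat_lit 57347) (nat_lit 0) (.e (nat_lit 2031) (nat_lit 140) (.e (nat_lit 688177) (nat_lit 16) (.e (nat_lit 65586) (nat_lit 7) (.e (nat_lit 319531) (nat_lit 16) (.e (nat_lit 286745) (nat_lit 9) (.e (nat_lit 335907) (nat_lit 0) (.e (nat_lit 970) (nat_lit 81) .nil))))))))) (.g (nat_lit 6) .nil .nil))) 
(.lf (nat_lit 117591) (.g (nat_lit 1872) (.e (nat_lit 5954) (nat_lit 322) (.e (nat_lit 57424) (nat_lit 14) (.e (nat_lit 352318) (nat_lit 24) (.e (nat_lit 123183) (nat_lit 264) (.e (nat_lit 1222) (nat_lit 90) .nil))))) .nil))) (.nd (nat_lit 6) 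
(.lf (nat_lit 117559) (.g (nat_lit 2233) (.e (nat_lit 5954) (nat_lit 322) (.e (nat_lit 57400) (nat_lit 10) (.e (nat_lit 319531) (nat_lit 16) (.e (nat_lit 286761) (nat_lit 13) (.e (nat_lit 393283) (nat_lit 24) (.e (nat_lit 434200) (nat_lit 18) .nil)))))) (.g (nat_lit 4) .nil .nil))) 
(.lf (nat_lit 117623) (.g (nat_lit 3229) (.e (nat_lit 5954) (nat_lit 322) (.e (nat_lit 57445) (nat_lit 19) (.e (nat_lit 393234) (nat_lit 17) (.e (nat_lit 7581) (nat_lit 405) (.e (nat_lit 57480) (nat_lit 28) (.e (nat_lit 557105) (nat_lit 14) (.e (nat_lit 180226) (nat_lit 0) .nil))))))) (.g (nat_lit 5) .nil .nil)))))) (.nd (nat_lit 4) (.nd (nat_lit 5) (.nd (nat_lit 6) 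
(.lf (nat_lit 117519) (.g (nat_lit 2680) (.e (nat_lit 5953) (nat_lit 322) (.e (nat_lit 57447) (nat_lit 19) (.e (nat_lit 393301) (nat_lit 27) (.e (nat_lit 491526) (nat_lit 0) (.e (nat_lit 1855) (nat_lit 124) .nil))))) .nil)) 
(.lf (nat_lit 117583) (.g (nat_lit 913) (.e (nat_lit 5954) (nat_lit 322) (.e (nat_lit 57424) (nat_lit 14) (.e (nat_lit 352270) (nat_lit 8) .nil))) .nil))) (.nd (nat_lit 6) 
(.lf (nat_lit 117551) (.g (nat_lit 2016) (.e (nat_lit 5954) (nat_lit 322) (.e (nat_lit 57378) (nat_lit 3) (.e (nat_lit 98365) (nat_lit 26) (.e (nat_lit 426188) (nat_lit 9) .nil)))) .nil)) 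
(.lf (nat_lit 117615) (.g (nat_lit 4231) (.e (nat_lit 5954) (nat_lit 322) (.e (nat_lit 57445) (nat_lit 19) (.e (nat_lit 393232) (nat_lit 17) (.e (nat_lit 7581) (nat_lit 405) (.e (nat_lit 57480) (nat_lit 28) (.e (nat_lit 557103) (nat_lit 14) (.e (nat_lit 180225) (nat_lit 0) .nil))))))) (.g (nat_lit 6) .nil .nil))))) (.nd (nat_lit 5) (.nd (nat_lit 6) 
(.lf (nat_lit 117535) (.g (nat_lit 2567) (.e (nat_lit 5954) (nat_lit 322) (.e (nat_lit 57354) (nat_lit 0) (.e (nat_lit 2030) (nat_lit 140) (.e (nat_lit 688177) (nat_lit 16) (.e (nat_lit 65586) (nat_lit 7) (.e (nat_lit 319531) (nat_lit 16) (.e (nat_lit 286748) (nat_lit 9) (.e (nat_lit 335907) (nat_lit 0) (.e (nat_lit 970) (nat_lit 81) .nil))))))))) (.g (nat_lit 4) .nil .nil))) 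
(.lf (nat_lit 117599) (.g (nat_lit 3371) (.e (nat_lit 5954) (nat_lit 322) (.e (nat_lit 57424) (nat_lit 14) (.e (nat_lit 352318) (nat_lit 24) (.e (nat_lit 123185) (nat_lit 264) (.e (nat_lit 1222) (nat_lit 90) (.e (nat_lit 81935) (nat_lit 20) (.e (nat_lit 970) (nat_lit 81) .nil))))))) (.g (nat_lit 5) .nil .nil)))) (.nd (nat_lit 6) 
(.lf (nat_lit 117567) (.g (nat_lit 2594) (.e (nat_lit 5954) (nat_lit 322) (.e (nat_lit 57400) (nat_lit 10) (.e (nat_lit 319533) (nat_lit 16) (.e (nat_lit 286761) (nat_lit 13) (.e (nat_lit 393282) (nat_lit 24) .nil))))) .nil)) 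
(.lf (nat_lit 117631) (.g (nat_lit 2510) (.e (nat_lit 5954) (nat_lit 322) (.e (nat_lit 57445) (nat_lit 19) (.e (nat_lit 393300) (nat_lit 27) (.e (nat_lit 491526) (nat_lit 0) (.e (nat_lit 1848) (nat_lit 124) .nil))))) .nil)))))))))

noncomputable def tv1577 : DT := (.nd (nat_lit 0) (.nd (nat_lit 1) (.nd (nat_lit 2) (.nd (nat_lit 3) (.nd (nat_lit 4) (.nd (nat_lit 5) (.nd (nat_lit 6) 
(.lf (nat_lit 117632) (.g (nat_lit 1765) (.e (nat_lit 5954) (nat_lit 322) (.e (nat_lit 57445) (nat_lit 19) (.e (nat_lit 393300) (nat_lit 27) (.e (nat_lit 491528) (nat_lit 0) .nil)))) .nil)) 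
(.lf (nat_lit 117696) (.g (nat_lit 1976) (.e (nat_lit 5964) (nat_lit 324) (.e (nat_lit 164084) (nat_lit 73) (.e (nat_lit 336027) (nat_lit 3) (.e (nat_lit 98372) (nat_lit 29) (.e (nat_lit 458496) (nat_lit 3) .nil))))) .nil))) (.nd (nat_lit 6) 
(.lf (nat_lit 117664) (.g (nat_lit 1315) (.e (nat_lit 5958) (nat_lit 323) (.e (nat_lit 122919) (nat_lit 15) (.e (nat_lit 360486) (nat_lit 18) (.e (nat_lit 671747) (nat_lit 0) .nil)))) .nil)) 
(.lf (nat_lit 117728) (.g (nat_lit 2215) (.e (nat_lit 5969) (nat_lit 324) (.e (nat_lit 163850) (nat_lit 0) (.e (nat_lit 3469) (nat_lit 217) (.e (nat_lit 696344) (nat_lit 8) (.e (nat_lit 172079) (nat_lit 7) .nil))))) .nil)))) (.nd (nat_lit 5) (.nd (nat_lit 6) 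
(.lf (nat_lit 117648) (.g (nat_lit 1272) (.e (nat_lit 7936) (nat_lit 322) (.e (nat_lit 57410) (nat_lit 12) (.e (nat_lit 336208) (nat_lit 12) (.e (nat_lit 385104) (nat_lit 50) (.e (nat_lit 786483) (nat_lit 30) .nil))))) .nil)) 
(.lf (nat_lit 117712) (.g (nat_lit 2683) (.e (nat_lit 5968) (nat_lit 324) (.e (nat_lit 163868) (nat_lit 2) (.e (nat_lit 196651) (nat_lit 10) (.e (nat_lit 16128) (nat_lit 196) (.e (nat_lit 73746) (nat_lit 3) (.e (nat_lit 516172) (nat_lit 13) (.e (nat_lit 458772) (nat_lit 18) .nil))))))) (.g (nat_lit 6) .nil .nil)))) (.nd (nat_lit 6) 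
(.lf (nat_lit 117680) (.g (nat_lit 1657) (.e (nat_lit 5961) (nat_lit 323) (.e (nat_lit 122919) (nat_lit 15) (.e (nat_lit 360451) (nat_lit 0) (.e (nat_lit 5898) (nat_lit 320) (.e (nat_lit 7936) (nat_lit 90) .nil))))) .nil)) 
(.lf (nat_lit 117744) (.g (nat_lit 762) (.e (nat_lit 5982) (nat_lit 326) (.e (nat_lit 1201) (nat_lit 88) (.e (nat_lit 65642) (nat_lit 15) .nil))) .nil))))) (.nd (nat_lit 4) (.nd (nat_lit 5) (.nd (nat_lit 6) 
(.lf (nat_lit 117640) (.g (nat_lit 1967) (.e (nat_lit 5954) (nat_lit 322) (.e (nat_lit 57447) (nat_lit 19) (.e (nat_lit 393301) (nat_lit 27) (.e (nat_lit 491520) (nat_lit 0) .nil)))) .nil)) 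
(.lf (nat_lit 117704) (.g (nat_lit 1478) (.e (nat_lit 5967) (nat_lit 324) (.e (nat_lit 163871) (nat_lit 2) (.e (nat_lit 196663) (nat_lit 13) (.e (nat_lit 65574) (nat_lit 4) .nil)))) .nil))) (.nd (nat_lit 6) 
(.lf (nat_lit 117672) (.g (nat_lit 768) (.e (nat_lit 5959) (nat_lit 323) (.e (nat_lit 122919) (nat_lit 15) (.e (nat_lit 360486) (nat_lit 18) .nil))) .nil)) 
(.lf (nat_lit 117736) (.g (nat_lit 2272) (.e (nat_lit 5970) (nat_lit 324) (.e (nat_lit 163850) (nat_lit 0) (.e (nat_lit 3469) (nat_lit 217) (.e (nat_lit 696344) (nat_lit 8) (.e (nat_lit 172079) (nat_lit 7) (.e (nat_lit 409645) (nat_lit 18) (.e (nat_lit 303133) (nat_lit 9) (.e (nat_lit 426042) (nat_lit 0) (.e (nat_lit 2449) (nat_lit 157) .nil))))))))) (.g (nat_lit 4) .nil .nil))))) 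
(.nd (nat_lit 5) (.nd (nat_lit 6) 
(.lf (nat_lit 117656) (.g (nat_lit 912) (.e (nat_lit 5958) (nat_lit 323) (.e (nat_lit 122904) (nat_lit 12) (.e (nat_lit 336443) (nat_lit 32) (.e (nat_lit 466977) (nat_lit 22) .nil)))) .nil)) 
(.lf (nat_lit 117720) (.g (nat_lit 1190) (.e (nat_lit 5968) (nat_lit 324) (.e (nat_lit 163871) (nat_lit 2) (.e (nat_lit 196651) (nat_lit 10) (.e (nat_lit 16128) (nat_lit 196) .nil)))) .nil))) (.nd (nat_lit 6) 
(.lf (nat_lit 117688) (.g (nat_lit 1640) (.e (nat_lit 7936) (nat_lit 323) (.e (nat_lit 122919) (nat_lit 15) (.e (nat_lit 360486) (nat_lit 18) (.e (nat_lit 671748) (nat_lit 0) (.e (nat_lit 1595) (nat_lit 111) .nil))))) .nil)) 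
(.lf (nat_lit 117752) (.g (nat_lit 1428) (.e (nat_lit 6036) (nat_lit 326) (.e (nat_lit 1011) (nat_lit 81) (.e (nat_lit 1669) (nat_lit 116) (.e (nat_lit 401457) (nat_lit 13) (.e (nat_lit 483413) (nat_lit 27) .nil))))) .nil)))))) (.nd (nat_lit 3) (.nd (nat_lit 4) (.nd (nat_lit 5) (.nd (nat_lit 6) 
(.lf (nat_lit 117636) (.g (nat_lit 2688) (.e (nat_lit 5954) (nat_lit 322) (.e (nat_lit 57447) (nat_lit 19) (.e (nat_lit 393234) (nat_lit 17) (.e (nat_lit 7581) (nat_lit 405) (.e (nat_lit 57476) (nat_lit 28) (.e (nat_lit 557104) (nat_lit 14) (.e (nat_lit 180226) (nat_lit 0) .nil))))))) (.g (nat_lit 4) .nil .nil))) 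
(.lf (nat_lit 117700) (.g (nat_lit 683) (.e (nat_lit 5965) (nat_lit 324) (.e (nat_lit 163875) (nat_lit 3) (.e (nat_lit 204863) (nat_lit 27) .nil))) .nil))) (.nd (nat_lit 6) 
(.lf (nat_lit 117668) (.g (nat_lit 772) (.e (nat_lit 5959) (nat_lit 323) (.e (nat_lit 122916) (nat_lit 14) (.e (nat_lit 352270) (nat_lit 8) .nil))) .nil)) 
(.lf (nat_lit 117732) (.g (nat_lit 2237) (.e (nat_lit 5970) (nat_lit 324) (.e (nat_lit 163850) (nat_lit 0) (.e (nat_lit 3469) (nat_lit 217) (.e (nat_lit 696344) (nat_lit 8) (.e (nat_lit 172079) (nat_lit 7) (.e (nat_lit 409645) (nat_lit 18) (.e (nat_lit 303133) (nat_lit 9) (.e (nat_lit 426042) (nat_lit 0) (.e (nat_lit 2428) (nat_lit 157) .nil))))))))) (.g (nat_lit 4) .nil .nil))))) 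
(.nd (nat_lit 5) (.nd (nat_lit 6) 
(.lf (nat_lit 117652) (.g (nat_lit 584) (.e (nat_lit 7936) (nat_lit 322) (.e (nat_lit 57437) (nat_lit 17) (.e (nat_lit 376835) (nat_lit 0) .nil))) .nil)) 
(.lf (nat_lit 117716) (.g (nat_lit 858) (.e (nat_lit 5968) (nat_lit 324) (.e (nat_lit 163868) (nat_lit 2) (.e (nat_lit 196665) (nat_lit 13) .nil))) .nil))) (.nd (nat_lit 6) 
(.lf (nat_lit 117684) (.g (nat_lit 1143) (.e (nat_lit 7936) (nat_lit 323) (.e (nat_lit 122917) (nat_lit 15) (.e (nat_lit 360486) (nat_lit 18) (.e (nat_lit 671748) (nat_lit 0) .nil)))) .nil)) 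
(.lf (nat_lit 117748) (.g (nat_lit 4040) (.e (nat_lit 5985) (nat_lit 326) (.e (nat_lit 1016) (nat_lit 81) (.e (nat_lit 1669) (nat_lit 116) (.e (nat_lit 401457) (nat_lit 13) (.e (nat_lit 483413) (nat_lit 27) (.e (nat_lit 401446) (nat_lit 10) (.e (nat_lit 434203) (nat_lit 18) .nil))))))) (.g (nat_lit 7) .nil .nil)))))) (.nd (nat_lit 4) (.nd (nat_lit 5) (.nd (nat_lit 6) 
(.lf (nat_lit 117644) (.g (nat_lit 1243) (.e (nat_lit 7936) (nat_lit 322) (.e (nat_lit 57379) (nat_lit 3) (.e (nat_lit 98365) (nat_lit 26) (.e (nat_lit 426325) (nat_lit 13) .nil)))) .nil)) 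
(.lf (nat_lit 117708) (.g (nat_lit 1040) (.e (nat_lit 5968) (nat_lit 324) (.e (nat_lit 163868) (nat_lit 2) (.e (nat_lit 196651) (nat_lit 10) .nil))) .nil))) (.nd (nat_lit 6) 
(.lf (nat_lit 117676) (.g (nat_lit 761) (.e (nat_lit 5960) (nat_lit 323) (.e (nat_lit 122919) (nat_lit 15) (.e (nat_lit 360486) (nat_lit 18) .nil))) .nil)) 
(.lf (nat_lit 117740) (.g (nat_lit 2216) (.e (nat_lit 5971) (nat_lit 324) (.e (nat_lit 164084) (nat_lit 73) (.e (nat_lit 336027) (nat_lit 3) (.e (nat_lit 98373) (nat_lit 29) (.e (nat_lit 458496) (nat_lit 3) .nil))))) .nil)))) (.nd (nat_lit 5) (.nd (nat_lit 6) 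
(.lf (nat_lit 117660) (.g (nat_lit 877) (.e (nat_lit 5958) (nat_lit 323) (.e (nat_lit 122919) (nat_lit 15) (.e (nat_lit 360451) (nat_lit 0) (.e (nat_lit 5898) (nat_lit 320) .nil)))) .nil)) 
(.lf (nat_lit 117724) (.g (nat_lit 928) (.e (nat_lit 5968) (nat_lit 324) (.e (nat_lit 163871) (nat_lit 2) (.e (nat_lit 196665) (nat_lit 13) .nil))) .nil))) (.nd (nat_lit 6) 
(.lf (nat_lit 117692) (.g (nat_lit 1201) (.e (nat_lit 5964) (nat_lit 324) (.e (nat_lit 163869) (nat_lit 2) (.e (nat_lit 196651) (nat_lit 10) (.e (nat_lit 16128) (nat_lit 196) .nil)))) .nil)) 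
(.lf (nat_lit 117756) (.g (nat_lit 1189) (.e (nat_lit 6047) (nat_lit 326) (.e (nat_lit 1122) (nat_lit 83) (.e (nat_lit 16473) (nat_lit 14) (.e (nat_lit 491558) (nat_lit 10) .nil)))) .nil))))))) (.nd (nat_lit 2) (.nd (nat_lit 3) (.nd (nat_lit 4) (.nd (nat_lit 5) (.nd (nat_lit 6) 
(.lf (nat_lit 117634) (.g (nat_lit 1976) (.e (nat_lit 5954) (nat_lit 322) (.e (nat_lit 57447) (nat_lit 19) (.e (nat_lit 393233) (nat_lit 17) (.e (nat_lit 7581) (nat_lit 405) (.e (nat_lit 57480) (nat_lit 28) .nil))))) .nil)) 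
(.lf (nat_lit 117698) (.g (nat_lit 869) (.e (nat_lit 5965) (nat_lit 324) (.e (nat_lit 163867) (nat_lit 2) (.e (nat_lit 196651) (nat_lit 10) .nil))) .nil))) (.nd (nat_lit 6) 
(.lf (nat_lit 117666) (.g (nat_lit 868) (.e (nat_lit 5958) (nat_lit 323) (.e (nat_lit 122925) (nat_lit 19) (.e (nat_lit 393274) (nat_lit 23) (.e (nat_lit 426132) (nat_lit 3) (.e (nat_lit 212736) (nat_lit 10) .nil))))) .nil)) 
(.lf (nat_lit 117730) (.g (nat_lit 2225) (.e (nat_lit 5969) (nat_lit 324) (.e (nat_lit 164084) (nat_lit 73) (.e (nat_lit 336027) (nat_lit 3) (.e (nat_lit 98373) (nat_lit 29) (.e (nat_lit 458496) (nat_lit 3) .nil))))) .nil)))) (.nd (nat_lit 5) (.nd (nat_lit 6) 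
(.lf (nat_lit 117650) (.g (nat_lit 1741) (.e (nat_lit 7936) (nat_lit 322) (.e (nat_lit 57412) (nat_lit 12) (.e (nat_lit 336200) (nat_lit 12) (.e (nat_lit 385106) (nat_lit 50) (.e (nat_lit 786483) (nat_lit 30) .nil))))) .nil)) 
(.lf (nat_lit 117714) (.g (nat_lit 1076) (.e (nat_lit 5968) (nat_lit 324) (.e (nat_lit 163868) (nat_lit 2) (.e (nat_lit 196663) (nat_lit 13) (.e (nat_lit 65574) (nat_lit 4) .nil)))) .nil))) (.nd (nat_lit 6) 
(.lf (nat_lit 117682) (.g (nat_lit 1995) (.e (nat_lit 5961) (nat_lit 323) (.e (nat_lit 122919) (nat_lit 15) (.e (nat_lit 360486) (nat_lit 18) (.e (nat_lit 671764) (nat_lit 6) (.e (nat_lit 81931) (nat_lit 20) (.e (nat_lit 973) (nat_lit 81) .nil)))))) (.g (nat_lit 4) .nil .nil))) 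
(.lf (nat_lit 117746) (.g (nat_lit 1892) (.e (nat_lit 5982) (nat_lit 326) (.e (nat_lit 1201) (nat_lit 88) (.e (nat_lit 65642) (nat_lit 15) (.e (nat_lit 3632) (nat_lit 227) (.e (nat_lit 778323) (nat_lit 5) .nil))))) .nil))))) (.nd (nat_lit 4) (.nd (nat_lit 5) (.nd (nat_lit 6) 
(.lf (nat_lit 117642) (.g (nat_lit 1995) (.e (nat_lit 7936) (nat_lit 322) (.e (nat_lit 57375) (nat_lit 2) (.e (nat_lit 90174) (nat_lit 14) (.e (nat_lit 180243) (nat_lit 5) (.e (nat_lit 532513) (nat_lit 3) .nil))))) .nil)) 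
(.lf (nat_lit 117706) (.g (nat_lit 1206) (.e (nat_lit 5968) (nat_lit 324) (.e (nat_lit 163868) (nat_lit 2) (.e (nat_lit 196611) (nat_lit 0) .nil))) .nil))) (.nd (nat_lit 6) 
(.lf (nat_lit 117674) (.g (nat_lit 1900) (.e (nat_lit 5959) (nat_lit 323) (.e (nat_lit 122919) (nat_lit 15) (.e (nat_lit 360486) (nat_lit 18) (.e (nat_lit 671764) (nat_lit 6) (.e (nat_lit 81931) (nat_lit 20) (.e (nat_lit 972) (nat_lit 81) .nil)))))) (.g (nat_lit 4) .nil .nil))) 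
(.lf (nat_lit 117738) (.g (nat_lit 2226) (.e (nat_lit 5970) (nat_lit 324) (.e (nat_lit 164084) (nat_lit 73) (.e (nat_lit 336027) (nat_lit 3) (.e (nat_lit 98373) (nat_lit 29) (.e (nat_lit 458496) (nat_lit 3) .nil))))) .nil)))) (.nd (nat_lit 5) (.nd (nat_lit 6) 
(.lf (nat_lit 117658) (.g (nat_lit 1191) (.e (nat_lit 5958) (nat_lit 323) (.e (nat_lit 122917) (nat_lit 15) (.e (nat_lit 360486) (nat_lit 18) (.e (nat_lit 671748) (nat_lit 0) .nil)))) .nil)) 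
(.lf (nat_lit 117722) (.g (nat_lit 1120) (.e (nat_lit 5968) (nat_lit 324) (.e (nat_lit 163871) (nat_lit 2) (.e (nat_lit 196663) (nat_lit 13) (.e (nat_lit 65572) (nat_lit 4) .nil)))) .nil))) (.nd (nat_lit 6) 
(.lf (nat_lit 117690) (.g (nat_lit 2193) (.e (nat_lit 5964) (nat_lit 324) (.e (nat_lit 163850) (nat_lit 0) (.e (nat_lit 3469) (nat_lit 217) (.e (nat_lit 696344) (nat_lit 8) (.e (nat_lit 172082) (nat_lit 7) .nil))))) .nil)) 
(.lf (nat_lit 117754) (.g (nat_lit 2473) (.e (nat_lit 6043) (nat_lit 326) (.e (nat_lit 1209) (nat_lit 89) (.e (nat_lit 73753) (nat_lit 8) (.e (nat_lit 557087) (nat_lit 11) (.e (nat_lit 24625) (nat_lit 9) .nil))))) .nil)))))) (.nd (nat_lit 3) (.nd (nat_lit 4) (.nd (nat_lit 5) (.nd (nat_lit 6) 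
(.lf (nat_lit 117638) (.g (nat_lit 2810) (.e (nat_lit 5954) (nat_lit 322) (.e (nat_lit 57447) (nat_lit 19) (.e (nat_lit 393234) (nat_lit 17) (.e (nat_lit 7581) (nat_lit 405) (.e (nat_lit 57477) (nat_lit 28) (.e (nat_lit 557104) (nat_lit 14) (.e (nat_lit 180226) (nat_lit 0) .nil))))))) (.g (nat_lit 5) .nil .nil))) 
(.lf (nat_lit 117702) (.g (nat_lit 861) (.e (nat_lit 5966) (nat_lit 324) (.e (nat_lit 163871) (nat_lit 2) (.e (nat_lit 196663) (nat_lit 13) .nil))) .nil))) (.nd (nat_lit 6) 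
(.lf (nat_lit 117670) (.g (nat_lit 930) (.e (nat_lit 5959) (nat_lit 323) (.e (nat_lit 122919) (nat_lit 15) (.e (nat_lit 360451) (nat_lit 0) .nil))) .nil)) 
(.lf (nat_lit 117734) (.g (nat_lit 2226) (.e (nat_lit 5970) (nat_lit 324) (.e (nat_lit 163850) (nat_lit 0) (.e (nat_lit 3469) (nat_lit 217) (.e (nat_lit 696344) (nat_lit 8) (.e (nat_lit 172079) (nat_lit 7) (.e (nat_lit 409645) (nat_lit 18) (.e (nat_lit 303133) (nat_lit 9) (.e (nat_lit 426042) (nat_lit 0) (.e (nat_lit 2447) (nat_lit 157) .nil))))))))) (.g (nat_lit 4) .nil .nil))))) 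
(.nd (nat_lit 5) (.nd (nat_lit 6) 
(.lf (nat_lit 117654) (.g (nat_lit 772) (.e (nat_lit 5955) (nat_lit 323) (.e (nat_lit 122916) (nat_lit 14) (.e (nat_lit 352270) (nat_lit 8) .nil))) .nil)) 
(.lf (nat_lit 117718) (.g (nat_lit 930) (.e (nat_lit 5968) (nat_lit 324) (.e (nat_lit 163871) (nat_lit 2) (.e (nat_lit 196626) (nat_lit 9) .nil))) .nil))) (.nd (nat_lit 6) 
(.lf (nat_lit 117686) (.g (nat_lit 1076) (.e (nat_lit 7936) (nat_lit 323) (.e (nat_lit 122919) (nat_lit 15) (.e (nat_lit 360486) (nat_lit 18) (.e (nat_lit 671748) (nat_lit 0) .nil)))) .nil)) 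
(.lf (nat_lit 117750) (.g (nat_lit 723) (.e (nat_lit 5985) (nat_lit 326) (.e (nat_lit 1201) (nat_lit 88) (.e (nat_lit 65546) (nat_lit 0) .nil))) .nil))))) (.nd (nat_lit 4) (.nd (nat_lit 5) (.nd (nat_lit 6) 
(.lf (nat_lit 117646) (.g (nat_lit 1621) (.e (nat_lit 7936) (nat_lit 322) (.e (nat_lit 57409) (nat_lit 12) (.e (nat_lit 336208) (nat_lit 12) (.e (nat_lit 385104) (nat_lit 50) (.e (nat_lit 786483) (nat_lit 30) .nil))))) .nil)) 
(.lf (nat_lit 117710) (.g (nat_lit 3150) (.e (nat_lit 5968) (nat_lit 324) (.e (nat_lit 163868) (nat_lit 2) (.e (nat_lit 196651) (nat_lit 10) (.e (nat_lit 16128) (nat_lit 196) (.e (nat_lit 73746) (nat_lit 3) (.e (nat_lit 516169) (nat_lit 13) (.e (nat_lit 458772) (nat_lit 18) .nil))))))) (.g (nat_lit 6) .nil .nil)))) (.nd (nat_lit 6) 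
(.lf (nat_lit 117678) (.g (nat_lit 772) (.e (nat_lit 5961) (nat_lit 323) (.e (nat_lit 122916) (nat_lit 14) (.e (nat_lit 352270) (nat_lit 8) .nil))) .nil)) 
(.lf (nat_lit 117742) (.g (nat_lit 2225) (.e (nat_lit 5971) (nat_lit 324) (.e (nat_lit 164084) (nat_lit 73) (.e (nat_lit 336027) (nat_lit 3) (.e (nat_lit 98373) (nat_lit 29) (.e (nat_lit 458496) (nat_lit 3) (.e (nat_lit 516106) (nat_lit 0) (.e (nat_lit 2446) (nat_lit 157) .nil))))))) (.g (nat_lit 4) .nil .nil))))) (.nd (nat_lit 5) (.nd (nat_lit 6) 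
(.lf (nat_lit 117662) (.g (nat_lit 921) (.e (nat_lit 5958) (nat_lit 323) (.e (nat_lit 122919) (nat_lit 15) (.e (nat_lit 360457) (nat_lit 0) (.e (nat_lit 5949) (nat_lit 322) .nil)))) .nil)) 
(.lf (nat_lit 117726) (.g (nat_lit 1948) (.e (nat_lit 5968) (nat_lit 324) (.e (nat_lit 164084) (nat_lit 73) (.e (nat_lit 336027) (nat_lit 3) (.e (nat_lit 98372) (nat_lit 29) (.e (nat_lit 458496) (nat_lit 3) .nil))))) .nil))) (.nd (nat_lit 6) 
(.lf (nat_lit 117694) (.g (nat_lit 920) (.e (nat_lit 5964) (nat_lit 324) (.e (nat_lit 163871) (nat_lit 2) (.e (nat_lit 196665) (nat_lit 13) .nil))) .nil)) 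
(.lf (nat_lit 117758) (.g (nat_lit 1734) (.e (nat_lit 6047) (nat_lit 326) (.e (nat_lit 1199) (nat_lit 88) (.e (nat_lit 65546) (nat_lit 0) (.e (nat_lit 1842) (nat_lit 123) (.e (nat_lit 548873) (nat_lit 5) (.e (nat_lit 1598) (nat_lit 111) (.e (nat_lit 360473) (nat_lit 8) (.e (nat_lit 557089) (nat_lit 12) (.e (nat_lit 163844) (nat_lit 0) .nil))))))))) (.g (nat_lit 4) .nil .nil))))))))) 
(.nd (nat_lit 1) (.nd (nat_lit 2) (.nd (nat_lit 3) (.nd (nat_lit 4) (.nd (nat_lit 5) 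
(.nd (nat_lit 6) 
(.lf (nat_lit 117633) (.g (nat_lit 3138) (.e (nat_lit 5954) (nat_lit 322) (.e (nat_lit 57445) (nat_lit 19) (.e (nat_lit 393301) (nat_lit 27) (.e (nat_lit 491526) (nat_lit 0) (.e (nat_lit 1848) (nat_lit 124) .nil))))) .nil)) 
(.lf (nat_lit 117697) (.g (nat_lit 2211) (.e (nat_lit 5964) (nat_lit 324) (.e (nat_lit 164084) (nat_lit 73) (.e (nat_lit 336027) (nat_lit 3) (.e (nat_lit 98373) (nat_lit 29) (.e (nat_lit 458496) (nat_lit 3) .nil))))) .nil))) (.nd (nat_lit 6) 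
(.lf (nat_lit 117665) (.g (nat_lit 2937) (.e (nat_lit 5958) (nat_lit 323) (.e (nat_lit 122919) (nat_lit 15) (.e (nat_lit 360486) (nat_lit 18) (.e (nat_lit 671748) (nat_lit 0) (.e (nat_lit 1595) (nat_lit 111) (.e (nat_lit 360457) (nat_lit 0) .nil)))))) (.g (nat_lit 6) .nil .nil))) 
(.lf (nat_lit 117729) (.g (nat_lit 2026) (.e (nat_lit 5969) (nat_lit 324) (.e (nat_lit 164084) (nat_lit 73) (.e (nat_lit 336027) (nat_lit 3) (.e (nat_lit 98372) (nat_lit 29) (.e (nat_lit 458496) (nat_lit 3) .nil))))) .nil)))) (.nd (nat_lit 5) (.nd (nat_lit 6) 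
(.lf (nat_lit 117649) (.g (nat_lit 1945) (.e (nat_lit 7936) (nat_lit 322) (.e (nat_lit 57411) (nat_lit 12) (.e (nat_lit 336208) (nat_lit 12) (.e (nat_lit 385105) (nat_lit 50) (.e (nat_lit 786483) (nat_lit 30) .nil))))) .nil)) 
(.lf (nat_lit 117713) (.g (nat_lit 610) (.e (nat_lit 5968) (nat_lit 324) (.e (nat_lit 163868) (nat_lit 2) (.e (nat_lit 196663) (nat_lit 13) .nil))) .nil))) (.nd (nat_lit 6) 
(.lf (nat_lit 117681) (.g (nat_lit 1340) (.e (nat_lit 5961) (nat_lit 323) (.e (nat_lit 122919) (nat_lit 15) (.e (nat_lit 360486) (nat_lit 18) (.e (nat_lit 671764) (nat_lit 6) .nil)))) .nil)) 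
(.lf (nat_lit 117745) (.g (nat_lit 2050) (.e (nat_lit 5982) (nat_lit 326) (.e (nat_lit 1201) (nat_lit 88) (.e (nat_lit 65642) (nat_lit 15) (.e (nat_lit 3631) (nat_lit 227) (.e (nat_lit 778323) (nat_lit 5) .nil))))) .nil))))) (.nd (nat_lit 4) (.nd (nat_lit 5) (.nd (nat_lit 6) 
(.lf (nat_lit 117641) (.g (nat_lit 2591) (.e (nat_lit 5954) (nat_lit 322) (.e (nat_lit 57447) (nat_lit 19) (.e (nat_lit 393301) (nat_lit 27) (.e (nat_lit 491526) (nat_lit 0) (.e (nat_lit 1848) (nat_lit 124) .nil))))) .nil)) 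
(.lf (nat_lit 117705) (.g (nat_lit 1206) (.e (nat_lit 5968) (nat_lit 324) (.e (nat_lit 163868) (nat_lit 2) (.e (nat_lit 196609) (nat_lit 0) .nil))) .nil))) (.nd (nat_lit 6) 
(.lf (nat_lit 117673) (.g (nat_lit 1334) (.e (nat_lit 5959) (nat_lit 323) (.e (nat_lit 122919) (nat_lit 15) (.e (nat_lit 360486) (nat_lit 18) (.e (nat_lit 671748) (nat_lit 0) .nil)))) .nil)) 
(.lf (nat_lit 117737) (.g (nat_lit 2007) (.e (nat_lit 5970) (nat_lit 324) (.e (nat_lit 164084) (nat_lit 73) (.e (nat_lit 336027) (nat_lit 3) (.e (nat_lit 98372) (nat_lit 29) (.e (nat_lit 458496) (nat_lit 3) .nil))))) .nil)))) (.nd (nat_lit 5) (.nd (nat_lit 6) 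
(.lf (nat_lit 117657) (.g (nat_lit 3889) (.e (nat_lit 5958) (nat_lit 323) (.e (nat_lit 122913) (nat_lit 13) (.e (nat_lit 344177) (nat_lit 43) (.e (nat_lit 770073) (nat_lit 9) (.e (nat_lit 73754) (nat_lit 8) (.e (nat_lit 557105) (nat_lit 14) (.e (nat_lit 180227) (nat_lit 0) .nil))))))) (.g (nat_lit 7) .nil .nil))) 
(.lf (nat_lit 117721) (.g (nat_lit 2562) (.e (nat_lit 5968) (nat_lit 324) (.e (nat_lit 163871) (nat_lit 2) (.e (nat_lit 196651) (nat_lit 10) (.e (nat_lit 16128) (nat_lit 196) (.e (nat_lit 73746) (nat_lit 3) (.e (nat_lit 516171) (nat_lit 13) (.e (nat_lit 458771) (nat_lit 18) .nil))))))) (.g (nat_lit 6) .nil .nil)))) (.nd (nat_lit 6) 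
(.lf (nat_lit 117689) (.g (nat_lit 1540) (.e (nat_lit 5964) (nat_lit 324) (.e (nat_lit 163843) (nat_lit 0) (.e (nat_lit 3471) (nat_lit 217) (.e (nat_lit 696343) (nat_lit 8) (.e (nat_lit 172079) (nat_lit 7) .nil))))) .nil)) 
(.lf (nat_lit 117753) (.g (nat_lit 1047) (.e (nat_lit 6043) (nat_lit 326) (.e (nat_lit 1126) (nat_lit 83) (.e (nat_lit 16473) (nat_lit 14) (.e (nat_lit 491567) (nat_lit 13) .nil)))) .nil)))))) (.nd (nat_lit 3) (.nd (nat_lit 4) (.nd (nat_lit 5) (.nd (nat_lit 6) 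
(.lf (nat_lit 117637) (.g (nat_lit 2307) (.e (nat_lit 5954) (nat_lit 322) (.e (nat_lit 57447) (nat_lit 19) (.e (nat_lit 393234) (nat_lit 17) (.e (nat_lit 7581) (nat_lit 405) (.e (nat_lit 57477) (nat_lit 28) .nil))))) .nil)) 
(.lf (nat_lit 117701) (.g (nat_lit 2429) (.e (nat_lit 5965) (nat_lit 324) (.e (nat_lit 163875) (nat_lit 3) (.e (nat_lit 204883) (nat_lit 33) (.e (nat_lit 401458) (nat_lit 13) (.e (nat_lit 483341) (nat_lit 9) .nil))))) .nil))) (.nd (nat_lit 6) 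
(.lf (nat_lit 117669) (.g (nat_lit 1118) (.e (nat_lit 5959) (nat_lit 323) (.e (nat_lit 122916) (nat_lit 14) (.e (nat_lit 352309) (nat_lit 21) (.e (nat_lit 57872) (nat_lit 264) .nil)))) .nil)) 
(.lf (nat_lit 117733) (.g (nat_lit 2240) (.e (nat_lit 5970) (nat_lit 324) (.e (nat_lit 163850) (nat_lit 0) (.e (nat_lit 3469) (nat_lit 217) (.e (nat_lit 696344) (nat_lit 8) (.e (nat_lit 172079) (nat_lit 7) (.e (nat_lit 409645) (nat_lit 18) (.e (nat_lit 303133) (nat_lit 9) (.e (nat_lit 426042) (nat_lit 0) (.e (nat_lit 2446) (nat_lit 157) .nil))))))))) (.g (nat_lit 4) .nil .nil))))) 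
(.nd (nat_lit 5) (.nd (nat_lit 6) 
(.lf (nat_lit 117653) (.g (nat_lit 2186) (.e (nat_lit 7936) (nat_lit 322) (.e (nat_lit 57448) (nat_lit 19) (.e (nat_lit 393234) (nat_lit 17) (.e (nat_lit 7581) (nat_lit 405) (.e (nat_lit 57480) (nat_lit 28) .nil))))) .nil)) 
(.lf (nat_lit 117717) (.g (nat_lit 2368) (.e (nat_lit 5968) (nat_lit 324) (.e (nat_lit 163870) (nat_lit 2) (.e (nat_lit 196666) (nat_lit 13) (.e (nat_lit 65572) (nat_lit 4) .nil)))) .nil))) (.nd (nat_lit 6) 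
(.lf (nat_lit 117685) (.g (nat_lit 1268) (.e (nat_lit 7936) (nat_lit 323) (.e (nat_lit 122919) (nat_lit 15) (.e (nat_lit 360486) (nat_lit 18) (.e (nat_lit 671747) (nat_lit 0) .nil)))) .nil)) 
(.lf (nat_lit 117749) (.g (nat_lit 4769) (.e (nat_lit 5985) (nat_lit 326) (.e (nat_lit 1016) (nat_lit 81) (.e (nat_lit 1669) (nat_lit 116) (.e (nat_lit 401457) (nat_lit 13) (.e (nat_lit 483413) (nat_lit 27) (.e (nat_lit 401447) (nat_lit 10) (.e (nat_lit 434203) (nat_lit 18) .nil))))))) (.g (nat_lit 7) .nil .nil)))))) (.nd (nat_lit 4) (.nd (nat_lit 5) (.nd (nat_lit 6) 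
(.lf (nat_lit 117645) (.g (nat_lit 3054) (.e (nat_lit 7936) (nat_lit 322) (.e (nat_lit 57379) (nat_lit 3) (.e (nat_lit 98373) (nat_lit 29) (.e (nat_lit 450562) (nat_lit 0) (.e (nat_lit 6595) (nat_lit 351) .nil))))) .nil)) 
(.lf (nat_lit 117709) (.g (nat_lit 1357) (.e (nat_lit 5968) (nat_lit 324) (.e (nat_lit 163868) (nat_lit 2) (.e (nat_lit 196651) (nat_lit 10) (.e (nat_lit 16128) (nat_lit 196) .nil)))) .nil))) (.nd (nat_lit 6) 
(.lf (nat_lit 117677) (.g (nat_lit 1334) (.e (nat_lit 5960) (nat_lit 323) (.e (nat_lit 122919) (nat_lit 15) (.e (nat_lit 360486) (nat_lit 18) (.e (nat_lit 671748) (nat_lit 0) .nil)))) .nil)) 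
(.lf (nat_lit 117741) (.g (nat_lit 2253) (.e (nat_lit 5971) (nat_lit 324) (.e (nat_lit 164084) (nat_lit 73) (.e (nat_lit 336027) (nat_lit 3) (.e (nat_lit 98373) (nat_lit 29) (.e (nat_lit 458496) (nat_lit 3) (.e (nat_lit 516106) (nat_lit 0) (.e (nat_lit 2428) (nat_lit 157) .nil))))))) (.g (nat_lit 4) .nil .nil))))) (.nd (nat_lit 5) (.nd (nat_lit 6) 
(.lf (nat_lit 117661) (.g (nat_lit 797) (.e (nat_lit 5958) (nat_lit 323) (.e (nat_lit 122919) (nat_lit 15) (.e (nat_lit 360456) (nat_lit 0) (.e (nat_lit 5949) (nat_lit 322) .nil)))) .nil)) 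
(.lf (nat_lit 117725) (.g (nat_lit 1663) (.e (nat_lit 5968) (nat_lit 324) (.e (nat_lit 163871) (nat_lit 2) (.e (nat_lit 196665) (nat_lit 13) (.e (nat_lit 65633) (nat_lit 15) .nil)))) .nil))) (.nd (nat_lit 6) 
(.lf (nat_lit 117693) (.g (nat_lit 1191) (.e (nat_lit 5964) (nat_lit 324) (.e (nat_lit 163871) (nat_lit 2) (.e (nat_lit 196651) (nat_lit 10) (.e (nat_lit 16128) (nat_lit 196) .nil)))) .nil)) 
(.lf (nat_lit 117757) (.g (nat_lit 446) (.e (nat_lit 6047) (nat_lit 326) (.e (nat_lit 1181) (nat_lit 87) (.e (nat_lit 65280) (nat_lit 206) .nil))) .nil))))))) (.nd (nat_lit 2) (.nd (nat_lit 3) (.nd (nat_lit 4) (.nd (nat_lit 5) (.nd (nat_lit 6) 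
(.lf (nat_lit 117635) (.g (nat_lit 3883) (.e (nat_lit 5954) (nat_lit 322) (.e (nat_lit 57447) (nat_lit 19) (.e (nat_lit 393234) (nat_lit 17) (.e (nat_lit 7581) (nat_lit 405) (.e (nat_lit 57476) (nat_lit 28) (.e (nat_lit 557103) (nat_lit 14) (.e (nat_lit 180225) (nat_lit 0) .nil))))))) (.g (nat_lit 6) .nil .nil))) 
(.lf (nat_lit 117699) (.g (nat_lit 861) (.e (nat_lit 5965) (nat_lit 324) (.e (nat_lit 163871) (nat_lit 2) (.e (nat_lit 196663) (nat_lit 13) .nil))) .nil))) (.nd (nat_lit 6) 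
(.lf (nat_lit 117667) (.g (nat_lit 3136) (.e (nat_lit 5958) (nat_lit 323) (.e (nat_lit 122926) (nat_lit 20) (.e (nat_lit 401454) (nat_lit 12) (.e (nat_lit 475207) (nat_lit 41) (.e (nat_lit 712755) (nat_lit 30) (.e (nat_lit 450563) (nat_lit 0) .nil)))))) (.g (nat_lit 6) .nil .nil))) 
(.lf (nat_lit 117731) (.g (nat_lit 2216) (.e (nat_lit 5970) (nat_lit 324) (.e (nat_lit 163850) (nat_lit 0) (.e (nat_lit 3469) (nat_lit 217) (.e (nat_lit 696344) (nat_lit 8) (.e (nat_lit 172079) (nat_lit 7) .nil))))) .nil)))) (.nd (nat_lit 5) (.nd (nat_lit 6) 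
(.lf (nat_lit 117651) (.g (nat_lit 1809) (.e (nat_lit 7936) (nat_lit 322) (.e (nat_lit 57424) (nat_lit 14) (.e (nat_lit 352318) (nat_lit 24) (.e (nat_lit 123197) (nat_lit 266) (.e (nat_lit 57426) (nat_lit 15) .nil))))) .nil)) 
(.lf (nat_lit 117715) (.g (nat_lit 2634) (.e (nat_lit 5968) (nat_lit 324) (.e (nat_lit 163868) (nat_lit 2) (.e (nat_lit 196663) (nat_lit 13) (.e (nat_lit 65574) (nat_lit 4) (.e (nat_lit 123197) (nat_lit 266) (.e (nat_lit 57445) (nat_lit 19) (.e (nat_lit 393233) (nat_lit 17) (.e (nat_lit 2399) (nat_lit 157) .nil)))))))) (.g (nat_lit 6) .nil .nil)))) (.nd (nat_lit 6) 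
(.lf (nat_lit 117683) (.g (nat_lit 2166) (.e (nat_lit 7936) (nat_lit 323) (.e (nat_lit 122916) (nat_lit 14) (.e (nat_lit 352318) (nat_lit 24) (.e (nat_lit 123195) (nat_lit 266) (.e (nat_lit 57427) (nat_lit 15) .nil))))) .nil)) 
(.lf (nat_lit 117747) (.g (nat_lit 1302) (.e (nat_lit 5982) (nat_lit 326) (.e (nat_lit 1212) (nat_lit 89) (.e (nat_lit 73733) (nat_lit 0) (.e (nat_lit 5907) (nat_lit 320) .nil)))) .nil))))) (.nd (nat_lit 4) (.nd (nat_lit 5) (.nd (nat_lit 6) 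
(.lf (nat_lit 117643) (.g (nat_lit 455) (.e (nat_lit 7936) (nat_lit 322) (.e (nat_lit 57375) (nat_lit 2) (.e (nat_lit 90176) (nat_lit 15) .nil))) .nil)) 
(.lf (nat_lit 117707) (.g (nat_lit 1210) (.e (nat_lit 5968) (nat_lit 324) (.e (nat_lit 163868) (nat_lit 2) (.e (nat_lit 196635) (nat_lit 9) .nil))) .nil))) (.nd (nat_lit 6) 
(.lf (nat_lit 117675) (.g (nat_lit 610) (.e (nat_lit 5960) (nat_lit 323) (.e (nat_lit 122919) (nat_lit 15) (.e (nat_lit 360451) (nat_lit 0) .nil))) .nil)) 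
(.lf (nat_lit 117739) (.g (nat_lit 1941) (.e (nat_lit 5971) (nat_lit 324) (.e (nat_lit 164084) (nat_lit 73) (.e (nat_lit 336027) (nat_lit 3) (.e (nat_lit 98372) (nat_lit 29) (.e (nat_lit 458496) (nat_lit 3) .nil))))) .nil)))) (.nd (nat_lit 5) (.nd (nat_lit 6) 
(.lf (nat_lit 117659) (.g (nat_lit 404) (.e (nat_lit 5958) (nat_lit 323) (.e (nat_lit 122919) (nat_lit 15) (.e (nat_lit 360451) (nat_lit 0) .nil))) .nil)) 
(.lf (nat_lit 117723) (.g (nat_lit 1114) (.e (nat_lit 5968) (nat_lit 324) (.e (nat_lit 163871) (nat_lit 2) (.e (nat_lit 196663) (nat_lit 13) (.e (nat_lit 65574) (nat_lit 4) .nil)))) .nil))) (.nd (nat_lit 6) 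
(.lf (nat_lit 117691) (.g (nat_lit 1277) (.e (nat_lit 5964) (nat_lit 324) (.e (nat_lit 163864) (nat_lit 1) (.e (nat_lit 164332) (nat_lit 230) (.e (nat_lit 163885) (nat_lit 5) (.e (nat_lit 229120) (nat_lit 12) .nil))))) .nil)) 
(.lf (nat_lit 117755) (.g (nat_lit 3685) (.e (nat_lit 6044) (nat_lit 326) (.e (nat_lit 1014) (nat_lit 81) (.e (nat_lit 1669) (nat_lit 116) (.e (nat_lit 401457) (nat_lit 13) (.e (nat_lit 483413) (nat_lit 27) (.e (nat_lit 401448) (nat_lit 10) (.e (nat_lit 434201) (nat_lit 18) .nil))))))) (.g (nat_lit 7) .nil .nil))))))) (.nd (nat_lit 3) (.nd (nat_lit 4) (.nd (nat_lit 5) (.nd (nat_lit 6) 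
(.lf (nat_lit 117639) (.g (nat_lit 2118) (.e (nat_lit 5954) (nat_lit 322) (.e (nat_lit 57447) (nat_lit 19) (.e (nat_lit 393234) (nat_lit 17) (.e (nat_lit 7583) (nat_lit 405) (.e (nat_lit 57476) (nat_lit 28) (.e (nat_lit 557104) (nat_lit 14) (.e (nat_lit 180226) (nat_lit 0) .nil))))))) (.g (nat_lit 4) .nil .nil))) 
(.lf (nat_lit 117703) (.g (nat_lit 1470) (.e (nat_lit 5966) (nat_lit 324) (.e (nat_lit 163874) (nat_lit 3) (.e (nat_lit 204883) (nat_lit 33) (.e (nat_lit 401457) (nat_lit 13) .nil)))) .nil))) (.nd (nat_lit 6) 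
(.lf (nat_lit 117671) (.g (nat_lit 1689) (.e (nat_lit 5959) (nat_lit 323) (.e (nat_lit 122919) (nat_lit 15) (.e (nat_lit 360451) (nat_lit 0) (.e (nat_lit 5898) (nat_lit 320) .nil)))) .nil)) 
(.lf (nat_lit 117735) (.g (nat_lit 2313) (.e (nat_lit 5970) (nat_lit 324) (.e (nat_lit 163850) (nat_lit 0) (.e (nat_lit 3469) (nat_lit 217) (.e (nat_lit 696344) (nat_lit 8) (.e (nat_lit 172079) (nat_lit 7) (.e (nat_lit 409645) (nat_lit 18) (.e (nat_lit 303133) (nat_lit 9) (.e (nat_lit 426042) (nat_lit 0) (.e (nat_lit 2448) (nat_lit 157) .nil))))))))) (.g (nat_lit 4) .nil .nil))))) 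
(.nd (nat_lit 5) (.nd (nat_lit 6) 
(.lf (nat_lit 117655) (.g (nat_lit 768) (.e (nat_lit 5957) (nat_lit 323) (.e (nat_lit 122919) (nat_lit 15) (.e (nat_lit 360486) (nat_lit 18) .nil))) .nil)) 
(.lf (nat_lit 117719) (.g (nat_lit 796) (.e (nat_lit 5968) (nat_lit 324) (.e (nat_lit 163871) (nat_lit 2) (.e (nat_lit 196651) (nat_lit 10) .nil))) .nil))) (.nd (nat_lit 6) 
(.lf (nat_lit 117687) (.g (nat_lit 1610) (.e (nat_lit 7936) (nat_lit 323) (.e (nat_lit 122919) (nat_lit 15) (.e (nat_lit 360486) (nat_lit 18) (.e (nat_lit 671748) (nat_lit 0) (.e (nat_lit 1586) (nat_lit 111) .nil))))) .nil)) 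
(.lf (nat_lit 117751) (.g (nat_lit 1559) (.e (nat_lit 5988) (nat_lit 326) (.e (nat_lit 1006) (nat_lit 81) (.e (nat_lit 1669) (nat_lit 116) (.e (nat_lit 401459) (nat_lit 13) (.e (nat_lit 483344) (nat_lit 17) .nil))))) .nil))))) (.nd (nat_lit 4) (.nd (nat_lit 5) (.nd (nat_lit 6) 
(.lf (nat_lit 117647) (.g (nat_lit 2204) (.e (nat_lit 7936) (nat_lit 322) (.e (nat_lit 57409) (nat_lit 12) (.e (nat_lit 336443) (nat_lit 32) (.e (nat_lit 466977) (nat_lit 22) (.e (nat_lit 196656) (nat_lit 11) .nil))))) .nil)) 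
(.lf (nat_lit 117711) (.g (nat_lit 2875) (.e (nat_lit 5968) (nat_lit 324) (.e (nat_lit 163868) (nat_lit 2) (.e (nat_lit 196651) (nat_lit 10) (.e (nat_lit 16128) (nat_lit 196) (.e (nat_lit 73746) (nat_lit 3) (.e (nat_lit 516171) (nat_lit 13) (.e (nat_lit 458772) (nat_lit 18) .nil))))))) (.g (nat_lit 6) .nil .nil)))) (.nd (nat_lit 6) 
(.lf (nat_lit 117679) (.g (nat_lit 1716) (.e (nat_lit 5961) (nat_lit 323) (.e (nat_lit 122919) (nat_lit 15) (.e (nat_lit 360451) (nat_lit 0) (.e (nat_lit 5896) (nat_lit 320) .nil)))) .nil)) 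
(.lf (nat_lit 117743) (.g (nat_lit 723) (.e (nat_lit 5982) (nat_lit 326) (.e (nat_lit 1201) (nat_lit 88) (.e (nat_lit 65546) (nat_lit 0) .nil))) .nil)))) (.nd (nat_lit 5) (.nd (nat_lit 6) 
(.lf (nat_lit 117663) (.g (nat_lit 553) (.e (nat_lit 5958) (nat_lit 323) (.e (nat_lit 122919) (nat_lit 15) (.e (nat_lit 360486) (nat_lit 18) .nil))) .nil)) 
(.lf (nat_lit 117727) (.g (nat_lit 2219) (.e (nat_lit 5968) (nat_lit 324) (.e (nat_lit 164084) (nat_lit 73) (.e (nat_lit 336027) (nat_lit 3) (.e (nat_lit 98373) (nat_lit 29) (.e (nat_lit 458496) (nat_lit 3) .nil))))) .nil))) (.nd (nat_lit 6) 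
(.lf (nat_lit 117695) (.g (nat_lit 770) (.e (nat_lit 5964) (nat_lit 324) (.e (nat_lit 163871) (nat_lit 2) (.e (nat_lit 196668) (nat_lit 14) .nil))) .nil)) 
(.lf (nat_lit 117759) (.g (nat_lit 1479) (.e (nat_lit 6047) (nat_lit 326) (.e (nat_lit 1211) (nat_lit 89) (.e (nat_lit 73755) (nat_lit 8) (.e (nat_lit 557066) (nat_lit 9) .nil)))) .nil)))))))))

noncomputable def tv1578 : DT := (.nd (nat_lit 0) (.nd (nat_lit 1) (.nd (nat_lit 2) (.nd (nat_lit 3) (.nd (nat_lit 4) (.nd (nat_lit 5) (.nd (nat_lit 6) 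
(.lf (nat_lit 117760) (.g (nat_lit 2370) (.e (nat_lit 6047) (nat_lit 326) (.e (nat_lit 1211) (nat_lit 89) (.e (nat_lit 73755) (nat_lit 8) (.e (nat_lit 557066) (nat_lit 9) (.e (nat_lit 321) (nat_lit 24) .nil))))) .nil)) 
(.lf (nat_lit 117824) (.g (nat_lit 2165) (.e (nat_lit 6084) (nat_lit 332) (.e (nat_lit 1367) (nat_lit 103) (.e (nat_lit 294928) (nat_lit 2) (.e (nat_lit 90170) (nat_lit 13) (.e (nat_lit 172115) (nat_lit 10) .nil))))) .nil))) (.nd (nat_lit 6) 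
(.lf (nat_lit 117792) (.g (nat_lit 1853) (.e (nat_lit 6067) (nat_lit 328) (.e (nat_lit 57421) (nat_lit 13) (.e (nat_lit 344126) (nat_lit 25) (.e (nat_lit 548874) (nat_lit 5) (.e (nat_lit 1598) (nat_lit 111) (.e (nat_lit 360473) (nat_lit 8) (.e (nat_lit 557089) (nat_lit 12) (.e (nat_lit 163844) (nat_lit 0) .nil)))))))) (.g (nat_lit 4) .nil .nil))) 
(.lf (nat_lit 117856) (.g (nat_lit 3351) (.e (nat_lit 6092) (nat_lit 332) (.e (nat_lit 1374) (nat_lit 104) (.e (nat_lit 303117) (nat_lit 2) (.e (nat_lit 196656) (nat_lit 11) (.e (nat_lit 16392) (nat_lit 0) .nil))))) .nil)))) (.nd (nat_lit 5) (.nd (nat_lit 6) 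
(.lf (nat_lit 117776) (.g (nat_lit 2414) (.e (nat_lit 6065) (nat_lit 328) (.e (nat_lit 57440) (nat_lit 18) (.e (nat_lit 385094) (nat_lit 49) (.e (nat_lit 778323) (nat_lit 5) (.e (nat_lit 81664) (nat_lit 37) (.e (nat_lit 180227) (nat_lit 0) .nil)))))) (.g (nat_lit 4) .nil .nil))) 
(.lf (nat_lit 117840) (.g (nat_lit 3734) (.e (nat_lit 6092) (nat_lit 332) (.e (nat_lit 1360) (nat_lit 102) (.e (nat_lit 286733) (nat_lit 2) (.e (nat_lit 90170) (nat_lit 13) (.e (nat_lit 172097) (nat_lit 9) .nil))))) .nil))) (.nd (nat_lit 6) 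
(.lf (nat_lit 117808) (.g (nat_lit 4262) (.e (nat_lit 6068) (nat_lit 328) (.e (nat_lit 57449) (nat_lit 20) (.e (nat_lit 401457) (nat_lit 13) (.e (nat_lit 483413) (nat_lit 27) (.e (nat_lit 401447) (nat_lit 10) (.e (nat_lit 434203) (nat_lit 18) .nil)))))) (.g (nat_lit 6) .nil .nil))) 
(.lf (nat_lit 117872) (.g (nat_lit 1118) (.e (nat_lit 6112) (nat_lit 332) (.e (nat_lit 1361) (nat_lit 102) (.e (nat_lit 286761) (nat_lit 13) (.e (nat_lit 393264) (nat_lit 22) .nil)))) .nil))))) (.nd (nat_lit 4) (.nd (nat_lit 5) (.nd (nat_lit 6) 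
(.lf (nat_lit 117768) (.g (nat_lit 2199) (.e (nat_lit 6063) (nat_lit 328) (.e (nat_lit 57449) (nat_lit 20) (.e (nat_lit 401459) (nat_lit 13) (.e (nat_lit 483344) (nat_lit 17) (.e (nat_lit 6722) (nat_lit 362) (.e (nat_lit 180226) (nat_lit 0) .nil)))))) (.g (nat_lit 5) .nil .nil))) 
(.lf (nat_lit 117832) (.g (nat_lit 2695) (.e (nat_lit 6092) (nat_lit 332) (.e (nat_lit 1348) (nat_lit 102) (.e (nat_lit 286735) (nat_lit 3) (.e (nat_lit 98359) (nat_lit 26) (.e (nat_lit 426185) (nat_lit 9) .nil))))) .nil))) (.nd (nat_lit 6) 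
(.lf (nat_lit 117800) (.g (nat_lit 3724) (.e (nat_lit 6068) (nat_lit 328) (.e (nat_lit 57440) (nat_lit 18) (.e (nat_lit 385074) (nat_lit 31) (.e (nat_lit 573484) (nat_lit 13) (.e (nat_lit 65617) (nat_lit 10) (.e (nat_lit 344130) (nat_lit 26) (.e (nat_lit 557090) (nat_lit 12) (.e (nat_lit 163844) (nat_lit 0) .nil)))))))) (.g (nat_lit 5) .nil .nil))) 
(.lf (nat_lit 117864) (.g (nat_lit 2079) (.e (nat_lit 6097) (nat_lit 332) (.e (nat_lit 2777) (nat_lit 178) (.e (nat_lit 286735) (nat_lit 3) (.e (nat_lit 98350) (nat_lit 24) (.e (nat_lit 409647) (nat_lit 18) .nil))))) .nil)))) (.nd (nat_lit 5) (.nd (nat_lit 6) 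
(.lf (nat_lit 117784) (.g (nat_lit 3133) (.e (nat_lit 6065) (nat_lit 328) (.e (nat_lit 57447) (nat_lit 19) (.e (nat_lit 393301) (nat_lit 27) (.e (nat_lit 491560) (nat_lit 10) (.e (nat_lit 344179) (nat_lit 44) (.e (nat_lit 778472) (nat_lit 12) (.e (nat_lit 163844) (nat_lit 0) .nil))))))) (.g (nat_lit 4) .nil .nil))) 
(.lf (nat_lit 117848) (.g (nat_lit 2646) (.e (nat_lit 6092) (nat_lit 332) (.e (nat_lit 1370) (nat_lit 103) (.e (nat_lit 294928) (nat_lit 2) (.e (nat_lit 90170) (nat_lit 13) (.e (nat_lit 172115) (nat_lit 10) .nil))))) .nil))) (.nd (nat_lit 6) 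
(.lf (nat_lit 117816) (.g (nat_lit 1929) (.e (nat_lit 6078) (nat_lit 332) (.e (nat_lit 1360) (nat_lit 102) (.e (nat_lit 286733) (nat_lit 2) (.e (nat_lit 90177) (nat_lit 15) .nil)))) .nil)) 
(.lf (nat_lit 117880) (.g (nat_lit 1794) (.e (nat_lit 6112) (nat_lit 332) (.e (nat_lit 1374) (nat_lit 104) (.e (nat_lit 303119) (nat_lit 3) (.e (nat_lit 204809) (nat_lit 9) .nil)))) .nil)))))) (.nd (nat_lit 3) (.nd (nat_lit 4) (.nd (nat_lit 5) (.nd (nat_lit 6) 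
(.lf (nat_lit 117764) (.g (nat_lit 1948) (.e (nat_lit 6063) (nat_lit 328) (.e (nat_lit 57407) (nat_lit 12) (.e (nat_lit 336324) (nat_lit 18) (.e (nat_lit 204831) (nat_lit 18) .nil)))) .nil)) 
(.lf (nat_lit 117828) (.g (nat_lit 1892) (.e (nat_lit 6092) (nat_lit 332) (.e (nat_lit 1348) (nat_lit 102) (.e (nat_lit 286733) (nat_lit 2) (.e (nat_lit 90169) (nat_lit 13) (.e (nat_lit 172097) (nat_lit 9) .nil))))) .nil))) (.nd (nat_lit 6) 
(.lf (nat_lit 117796) (.g (nat_lit 248) (.e (nat_lit 6068) (nat_lit 328) (.e (nat_lit 57421) (nat_lit 13) (.e (nat_lit 344126) (nat_lit 25) .nil))) .nil)) 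
(.lf (nat_lit 117860) (.g (nat_lit 536) (.e (nat_lit 6093) (nat_lit 332) (.e (nat_lit 1374) (nat_lit 104) (.e (nat_lit 303154) (nat_lit 28) .nil))) .nil)))) (.nd (nat_lit 5) (.nd (nat_lit 6) 
(.lf (nat_lit 117780) (.g (nat_lit 2255) (.e (nat_lit 6065) (nat_lit 328) (.e (nat_lit 57445) (nat_lit 19) (.e (nat_lit 393225) (nat_lit 9) (.e (nat_lit 335995) (nat_lit 1) (.e (nat_lit 57848) (nat_lit 252) .nil))))) .nil)) 
(.lf (nat_lit 117844) (.g (nat_lit 984) (.e (nat_lit 6092) (nat_lit 332) (.e (nat_lit 1361) (nat_lit 102) (.e (nat_lit 286733) (nat_lit 2) (.e (nat_lit 90178) (nat_lit 15) .nil)))) .nil))) (.nd (nat_lit 6) 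
(.lf (nat_lit 117812) (.g (nat_lit 2573) (.e (nat_lit 6068) (nat_lit 328) (.e (nat_lit 57451) (nat_lit 20) (.e (nat_lit 401448) (nat_lit 10) (.e (nat_lit 434289) (nat_lit 43) (.e (nat_lit 696343) (nat_lit 8) .nil))))) .nil)) 
(.lf (nat_lit 117876) (.g (nat_lit 4706) (.e (nat_lit 6112) (nat_lit 332) (.e (nat_lit 1374) (nat_lit 104) (.e (nat_lit 303115) (nat_lit 1) (.e (nat_lit 164196) (nat_lit 158) (.e (nat_lit 1221) (nat_lit 90) (.e (nat_lit 81956) (nat_lit 23) (.e (nat_lit 98309) (nat_lit 0) .nil))))))) (.g (nat_lit 6) .nil .nil)))))) (.nd (nat_lit 4) (.nd (nat_lit 5) (.nd (nat_lit 6) 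
(.lf (nat_lit 117772) (.g (nat_lit 1413) (.e (nat_lit 6065) (nat_lit 328) (.e (nat_lit 57421) (nat_lit 13) (.e (nat_lit 344169) (nat_lit 40) (.e (nat_lit 671763) (nat_lit 5) (.e (nat_lit 81664) (nat_lit 37) .nil))))) .nil)) 
(.lf (nat_lit 117836) (.g (nat_lit 3191) (.e (nat_lit 6092) (nat_lit 332) (.e (nat_lit 1349) (nat_lit 102) (.e (nat_lit 286733) (nat_lit 2) (.e (nat_lit 90170) (nat_lit 13) (.e (nat_lit 172095) (nat_lit 9) .nil))))) .nil))) (.nd (nat_lit 6) 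
(.lf (nat_lit 117804) (.g (nat_lit 3047) (.e (nat_lit 6068) (nat_lit 328) (.e (nat_lit 57447) (nat_lit 19) (.e (nat_lit 393301) (nat_lit 27) (.e (nat_lit 491560) (nat_lit 10) (.e (nat_lit 344179) (nat_lit 44) .nil))))) .nil)) 
(.lf (nat_lit 117868) (.g (nat_lit 2136) (.e (nat_lit 6109) (nat_lit 332) (.e (nat_lit 1360) (nat_lit 102) (.e (nat_lit 286734) (nat_lit 3) (.e (nat_lit 98372) (nat_lit 29) (.e (nat_lit 450579) (nat_lit 5) .nil))))) .nil)))) (.nd (nat_lit 5) (.nd (nat_lit 6) 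
(.lf (nat_lit 117788) (.g (nat_lit 3396) (.e (nat_lit 6065) (nat_lit 328) (.e (nat_lit 57449) (nat_lit 20) (.e (nat_lit 401459) (nat_lit 13) (.e (nat_lit 483411) (nat_lit 27) (.e (nat_lit 401448) (nat_lit 10) (.e (nat_lit 434203) (nat_lit 18) .nil)))))) (.g (nat_lit 6) .nil .nil))) 
(.lf (nat_lit 117852) (.g (nat_lit 1240) (.e (nat_lit 6092) (nat_lit 332) (.e (nat_lit 1370) (nat_lit 103) (.e (nat_lit 294960) (nat_lit 13) (.e (nat_lit 393260) (nat_lit 21) (.e (nat_lit 409623) (nat_lit 10) .nil))))) .nil))) (.nd (nat_lit 6) 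
(.lf (nat_lit 117820) (.g (nat_lit 2097) (.e (nat_lit 6079) (nat_lit 332) (.e (nat_lit 1353) (nat_lit 102) (.e (nat_lit 286733) (nat_lit 2) (.e (nat_lit 90177) (nat_lit 15) (.e (nat_lit 188452) (nat_lit 23) .nil))))) .nil)) 
(.lf (nat_lit 117884) (.g (nat_lit 1007) (.e (nat_lit 6112) (nat_lit 332) (.e (nat_lit 2406) (nat_lit 157) (.e (nat_lit 5259) (nat_lit 298) (.e (nat_lit 496) (nat_lit 39) (.e (nat_lit 491264) (nat_lit 3) (.e (nat_lit 229120) (nat_lit 3) (.e (nat_lit 98308) (nat_lit 0) .nil))))))) (.g (nat_lit 4) .nil .nil)))))))) (.nd (nat_lit 2) (.nd (nat_lit 3) (.nd (nat_lit 4) (.nd (nat_lit 5) (.nd (nat_lit 6) 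
(.lf (nat_lit 117762) (.g (nat_lit 1879) (.e (nat_lit 6058) (nat_lit 327) (.e (nat_lit 8213) (nat_lit 9) (.e (nat_lit 303145) (nat_lit 13) (.e (nat_lit 483346) (nat_lit 17) (.e (nat_lit 6724) (nat_lit 362) .nil))))) .nil)) 
(.lf (nat_lit 117826) (.g (nat_lit 1595) (.e (nat_lit 6092) (nat_lit 332) (.e (nat_lit 1348) (nat_lit 102) (.e (nat_lit 286733) (nat_lit 2) (.e (nat_lit 90168) (nat_lit 13) .nil)))) .nil))) (.nd (nat_lit 6) 
(.lf (nat_lit 117794) (.g (nat_lit 3230) (.e (nat_lit 6067) (nat_lit 328) (.e (nat_lit 57440) (nat_lit 18) (.e (nat_lit 385074) (nat_lit 31) (.e (nat_lit 573484) (nat_lit 13) (.e (nat_lit 65617) (nat_lit 10) (.e (nat_lit 344133) (nat_lit 26) (.e (nat_lit 557091) (nat_lit 12) (.e (nat_lit 163843) (nat_lit 0) .nil)))))))) (.g (nat_lit 4) .nil .nil))) 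
(.lf (nat_lit 117858) (.g (nat_lit 429) (.e (nat_lit 6092) (nat_lit 332) (.e (nat_lit 1374) (nat_lit 104) (.e (nat_lit 303154) (nat_lit 28) .nil))) .nil)))) (.nd (nat_lit 5) (.nd (nat_lit 6) 
(.lf (nat_lit 117778) (.g (nat_lit 4352) (.e (nat_lit 6065) (nat_lit 328) (.e (nat_lit 57442) (nat_lit 18) (.e (nat_lit 385074) (nat_lit 31) (.e (nat_lit 573484) (nat_lit 13) (.e (nat_lit 65617) (nat_lit 10) (.e (nat_lit 344133) (nat_lit 26) (.e (nat_lit 557089) (nat_lit 12) (.e (nat_lit 163844) (nat_lit 0) .nil)))))))) (.g (nat_lit 8) .nil .nil))) 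
(.lf (nat_lit 117842) (.g (nat_lit 3038) (.e (nat_lit 6092) (nat_lit 332) (.e (nat_lit 1360) (nat_lit 102) (.e (nat_lit 286733) (nat_lit 2) (.e (nat_lit 90177) (nat_lit 15) (.e (nat_lit 188452) (nat_lit 23) .nil))))) .nil))) (.nd (nat_lit 6) 
(.lf (nat_lit 117810) (.g (nat_lit 3278) (.e (nat_lit 6068) (nat_lit 328) (.e (nat_lit 57449) (nat_lit 20) (.e (nat_lit 401459) (nat_lit 13) (.e (nat_lit 483411) (nat_lit 27) (.e (nat_lit 401448) (nat_lit 10) (.e (nat_lit 434203) (nat_lit 18) .nil)))))) (.g (nat_lit 6) .nil .nil))) 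
(.lf (nat_lit 117874) (.g (nat_lit 727) (.e (nat_lit 6112) (nat_lit 332) (.e (nat_lit 1374) (nat_lit 104) (.e (nat_lit 303115) (nat_lit 1) .nil))) .nil))))) (.nd (nat_lit 4) (.nd (nat_lit 5) (.nd (nat_lit 6) 
(.lf (nat_lit 117770) (.g (nat_lit 2779) (.e (nat_lit 6063) (nat_lit 328) (.e (nat_lit 57451) (nat_lit 20) (.e (nat_lit 401448) (nat_lit 10) (.e (nat_lit 434289) (nat_lit 43) (.e (nat_lit 696344) (nat_lit 8) .nil))))) .nil)) 
(.lf (nat_lit 117834) (.g (nat_lit 1575) (.e (nat_lit 6092) (nat_lit 332) (.e (nat_lit 1349) (nat_lit 102) (.e (nat_lit 286733) (nat_lit 2) (.e (nat_lit 90169) (nat_lit 13) .nil)))) .nil))) (.nd (nat_lit 6) 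
(.lf (nat_lit 117802) (.g (nat_lit 4197) (.e (nat_lit 6068) (nat_lit 328) (.e (nat_lit 57442) (nat_lit 18) (.e (nat_lit 385074) (nat_lit 31) (.e (nat_lit 573484) (nat_lit 13) (.e (nat_lit 65617) (nat_lit 10) (.e (nat_lit 344133) (nat_lit 26) (.e (nat_lit 557089) (nat_lit 12) (.e (nat_lit 163844) (nat_lit 0) .nil)))))))) (.g (nat_lit 8) .nil .nil))) 
(.lf (nat_lit 117866) (.g (nat_lit 1675) (.e (nat_lit 6109) (nat_lit 332) (.e (nat_lit 1360) (nat_lit 102) (.e (nat_lit 286733) (nat_lit 2) (.e (nat_lit 90178) (nat_lit 15) .nil)))) .nil)))) (.nd (nat_lit 5) (.nd (nat_lit 6) 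
(.lf (nat_lit 117786) (.g (nat_lit 3409) (.e (nat_lit 6065) (nat_lit 328) (.e (nat_lit 57449) (nat_lit 20) (.e (nat_lit 401457) (nat_lit 13) (.e (nat_lit 483413) (nat_lit 27) (.e (nat_lit 401446) (nat_lit 10) (.e (nat_lit 434208) (nat_lit 18) .nil)))))) (.g (nat_lit 0) .nil .nil))) 
(.lf (nat_lit 117850) (.g (nat_lit 1237) (.e (nat_lit 6092) (nat_lit 332) (.e (nat_lit 1370) (nat_lit 103) (.e (nat_lit 294960) (nat_lit 13) (.e (nat_lit 393238) (nat_lit 17) (.e (nat_lit 7101) (nat_lit 380) .nil))))) .nil))) (.nd (nat_lit 6) 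
(.lf (nat_lit 117818) (.g (nat_lit 1724) (.e (nat_lit 6078) (nat_lit 332) (.e (nat_lit 1360) (nat_lit 102) (.e (nat_lit 286735) (nat_lit 3) (.e (nat_lit 98372) (nat_lit 29) (.e (nat_lit 450579) (nat_lit 5) .nil))))) .nil)) 
(.lf (nat_lit 117882) (.g (nat_lit 531) (.e (nat_lit 6112) (nat_lit 332) (.e (nat_lit 1374) (nat_lit 104) (.e (nat_lit 311040) (nat_lit 17) .nil))) .nil)))))) (.nd (nat_lit 3) (.nd (nat_lit 4) (.nd (nat_lit 5) (.nd (nat_lit 6) 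
(.lf (nat_lit 117766) (.g (nat_lit 3001) (.e (nat_lit 6063) (nat_lit 328) (.e (nat_lit 57448) (nat_lit 19) (.e (nat_lit 393301) (nat_lit 27) (.e (nat_lit 491560) (nat_lit 10) (.e (nat_lit 344179) (nat_lit 44) .nil))))) .nil)) 
(.lf (nat_lit 117830) (.g (nat_lit 3201) (.e (nat_lit 6092) (nat_lit 332) (.e (nat_lit 1348) (nat_lit 102) (.e (nat_lit 286733) (nat_lit 2) (.e (nat_lit 90170) (nat_lit 13) (.e (nat_lit 172115) (nat_lit 10) .nil))))) .nil))) (.nd (nat_lit 6) 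
(.lf (nat_lit 117798) (.g (nat_lit 3201) (.e (nat_lit 6068) (nat_lit 328) (.e (nat_lit 57440) (nat_lit 18) (.e (nat_lit 385074) (nat_lit 31) (.e (nat_lit 573484) (nat_lit 13) (.e (nat_lit 65617) (nat_lit 10) (.e (nat_lit 344130) (nat_lit 26) (.e (nat_lit 557089) (nat_lit 12) (.e (nat_lit 163844) (nat_lit 0) .nil)))))))) (.g (nat_lit 4) .nil .nil))) 
(.lf (nat_lit 117862) (.g (nat_lit 1574) (.e (nat_lit 6097) (nat_lit 332) (.e (nat_lit 2584) (nat_lit 161) (.e (nat_lit 40997) (nat_lit 11) (.e (nat_lit 24584) (nat_lit 0) (.e (nat_lit 6113) (nat_lit 332) (.e (nat_lit 2584) (nat_lit 161) (.e (nat_lit 40997) (nat_lit 11) (.e (nat_lit 24584) (nat_lit 0) .nil)))))))) (.g (nat_lit 5) .nil .nil))))) (.nd (nat_lit 5) (.nd (nat_lit 6) 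
(.lf (nat_lit 117782) (.g (nat_lit 3055) (.e (nat_lit 6065) (nat_lit 328) (.e (nat_lit 57447) (nat_lit 19) (.e (nat_lit 393301) (nat_lit 27) (.e (nat_lit 491560) (nat_lit 10) (.e (nat_lit 344179) (nat_lit 44) .nil))))) .nil)) 
(.lf (nat_lit 117846) (.g (nat_lit 599) (.e (nat_lit 6092) (nat_lit 332) (.e (nat_lit 1366) (nat_lit 103) (.e (nat_lit 294931) (nat_lit 3) (.e (nat_lit 98370) (nat_lit 28) .nil)))) .nil))) (.nd (nat_lit 6) 
(.lf (nat_lit 117814) (.g (nat_lit 3693) (.e (nat_lit 6072) (nat_lit 330) (.e (nat_lit 163867) (nat_lit 2) (.e (nat_lit 196666) (nat_lit 13) (.e (nat_lit 65610) (nat_lit 10) (.e (nat_lit 344117) (nat_lit 21) .nil))))) .nil)) 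
(.lf (nat_lit 117878) (.g (nat_lit 3074) (.e (nat_lit 6112) (nat_lit 332) (.e (nat_lit 1374) (nat_lit 104) (.e (nat_lit 303117) (nat_lit 2) (.e (nat_lit 196656) (nat_lit 11) (.e (nat_lit 16392) (nat_lit 0) .nil))))) .nil))))) (.nd (nat_lit 4) (.nd (nat_lit 5) (.nd (nat_lit 6) 
(.lf (nat_lit 117774) (.g (nat_lit 3460) (.e (nat_lit 6065) (nat_lit 328) (.e (nat_lit 57440) (nat_lit 18) (.e (nat_lit 385074) (nat_lit 31) (.e (nat_lit 573484) (nat_lit 13) (.e (nat_lit 65617) (nat_lit 10) (.e (nat_lit 344130) (nat_lit 26) (.e (nat_lit 557090) (nat_lit 12) (.e (nat_lit 163844) (nat_lit 0) .nil)))))))) (.g (nat_lit 4) .nil .nil))) 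
(.lf (nat_lit 117838) (.g (nat_lit 2410) (.e (nat_lit 6092) (nat_lit 332) (.e (nat_lit 1349) (nat_lit 102) (.e (nat_lit 286733) (nat_lit 2) (.e (nat_lit 90176) (nat_lit 15) (.e (nat_lit 188452) (nat_lit 23) .nil))))) .nil))) (.nd (nat_lit 6) 
(.lf (nat_lit 117806) (.g (nat_lit 3764) (.e (nat_lit 6068) (nat_lit 328) (.e (nat_lit 57447) (nat_lit 19) (.e (nat_lit 393301) (nat_lit 27) (.e (nat_lit 491560) (nat_lit 10) (.e (nat_lit 344179) (nat_lit 44) (.e (nat_lit 778473) (nat_lit 12) (.e (nat_lit 163843) (nat_lit 0) .nil))))))) (.g (nat_lit 5) .nil .nil))) 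
(.lf (nat_lit 117870) (.g (nat_lit 959) (.e (nat_lit 6112) (nat_lit 332) (.e (nat_lit 1361) (nat_lit 102) (.e (nat_lit 286761) (nat_lit 13) (.e (nat_lit 393238) (nat_lit 17) .nil)))) .nil)))) (.nd (nat_lit 5) (.nd (nat_lit 6) 
(.lf (nat_lit 117790) (.g (nat_lit 2781) (.e (nat_lit 6065) (nat_lit 328) (.e (nat_lit 57451) (nat_lit 20) (.e (nat_lit 401448) (nat_lit 10) (.e (nat_lit 434289) (nat_lit 43) (.e (nat_lit 696344) (nat_lit 8) .nil))))) .nil)) 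
(.lf (nat_lit 117854) (.g (nat_lit 1700) (.e (nat_lit 6092) (nat_lit 332) (.e (nat_lit 1370) (nat_lit 103) (.e (nat_lit 294960) (nat_lit 13) (.e (nat_lit 393260) (nat_lit 21) (.e (nat_lit 409651) (nat_lit 19) .nil))))) .nil))) (.nd (nat_lit 6) 
(.lf (nat_lit 117822) (.g (nat_lit 2979) (.e (nat_lit 6084) (nat_lit 332) (.e (nat_lit 1360) (nat_lit 102) (.e (nat_lit 286733) (nat_lit 2) (.e (nat_lit 90177) (nat_lit 15) (.e (nat_lit 188452) (nat_lit 23) .nil))))) .nil)) 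
(.lf (nat_lit 117886) (.g (nat_lit 932) (.e (nat_lit 6112) (nat_lit 332) (.e (nat_lit 2777) (nat_lit 178) (.e (nat_lit 286735) (nat_lit 3) .nil))) .nil)))))))) (.nd (nat_lit 1) (.nd (nat_lit 2) (.nd (nat_lit 3) (.nd (nat_lit 4) (.nd (nat_lit 5) (.nd (nat_lit 6) 
(.lf (nat_lit 117761) (.g (nat_lit 1096) (.e (nat_lit 6054) (nat_lit 326) (.e (nat_lit 2555) (nat_lit 159) (.e (nat_lit 24665) (nat_lit 14) (.e (nat_lit 409344) (nat_lit 18) .nil)))) .nil)) 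
(.lf (nat_lit 117825) (.g (nat_lit 2053) (.e (nat_lit 6092) (nat_lit 332) (.e (nat_lit 1348) (nat_lit 102) (.e (nat_lit 286732) (nat_lit 2) (.e (nat_lit 90170) (nat_lit 13) (.e (nat_lit 172106) (nat_lit 10) .nil))))) .nil))) (.nd (nat_lit 6) 
(.lf (nat_lit 117793) (.g (nat_lit 3180) (.e (nat_lit 6067) (nat_lit 328) (.e (nat_lit 57440) (nat_lit 18) (.e (nat_lit 385074) (nat_lit 31) (.e (nat_lit 573484) (nat_lit 13) (.e (nat_lit 65617) (nat_lit 10) (.e (nat_lit 344130) (nat_lit 26) (.e (nat_lit 557090) (nat_lit 12) (.e (nat_lit 163843) (nat_lit 0) .nil)))))))) (.g (nat_lit 4) .nil .nil))) 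
(.lf (nat_lit 117857) (.g (nat_lit 2027) (.e (nat_lit 6092) (nat_lit 332) (.e (nat_lit 1374) (nat_lit 104) (.e (nat_lit 303147) (nat_lit 15) (.e (nat_lit 1855) (nat_lit 124) (.e (nat_lit 557101) (nat_lit 13) .nil))))) .nil)))) (.nd (nat_lit 5) (.nd (nat_lit 6) 
(.lf (nat_lit 117777) (.g (nat_lit 4266) (.e (nat_lit 6065) (nat_lit 328) (.e (nat_lit 57442) (nat_lit 18) (.e (nat_lit 385074) (nat_lit 31) (.e (nat_lit 573484) (nat_lit 13) (.e (nat_lit 65617) (nat_lit 10) (.e (nat_lit 344130) (nat_lit 26) (.e (nat_lit 557089) (nat_lit 12) (.e (nat_lit 163844) (nat_lit 0) .nil)))))))) (.g (nat_lit 8) .nil .nil))) 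
(.lf (nat_lit 117841) (.g (nat_lit 3822) (.e (nat_lit 6092) (nat_lit 332) (.e (nat_lit 1360) (nat_lit 102) (.e (nat_lit 286733) (nat_lit 2) (.e (nat_lit 90170) (nat_lit 13) (.e (nat_lit 172115) (nat_lit 10) .nil))))) .nil))) (.nd (nat_lit 6) 
(.lf (nat_lit 117809) (.g (nat_lit 3075) (.e (nat_lit 6068) (nat_lit 328) (.e (nat_lit 57449) (nat_lit 20) (.e (nat_lit 401457) (nat_lit 13) (.e (nat_lit 483413) (nat_lit 27) (.e (nat_lit 401448) (nat_lit 10) (.e (nat_lit 434200) (nat_lit 18) .nil)))))) (.g (nat_lit 6) .nil .nil))) 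
(.lf (nat_lit 117873) (.g (nat_lit 1481) (.e (nat_lit 6112) (nat_lit 332) (.e (nat_lit 1374) (nat_lit 104) (.e (nat_lit 303106) (nat_lit 0) (.e (nat_lit 3575) (nat_lit 223) .nil)))) .nil))))) (.nd (nat_lit 4) (.nd (nat_lit 5) (.nd (nat_lit 6) 
(.lf (nat_lit 117769) (.g (nat_lit 2575) (.e (nat_lit 6063) (nat_lit 328) (.e (nat_lit 57451) (nat_lit 20) (.e (nat_lit 401448) (nat_lit 10) (.e (nat_lit 434289) (nat_lit 43) (.e (nat_lit 696343) (nat_lit 8) .nil))))) .nil)) 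
(.lf (nat_lit 117833) (.g (nat_lit 3083) (.e (nat_lit 6092) (nat_lit 332) (.e (nat_lit 1348) (nat_lit 102) (.e (nat_lit 286735) (nat_lit 3) (.e (nat_lit 98359) (nat_lit 26) (.e (nat_lit 426212) (nat_lit 9) .nil))))) .nil))) (.nd (nat_lit 6) 
(.lf (nat_lit 117801) (.g (nat_lit 4111) (.e (nat_lit 6068) (nat_lit 328) (.e (nat_lit 57442) (nat_lit 18) (.e (nat_lit 385074) (nat_lit 31) (.e (nat_lit 573484) (nat_lit 13) (.e (nat_lit 65617) (nat_lit 10) (.e (nat_lit 344130) (nat_lit 26) (.e (nat_lit 557089) (nat_lit 12) (.e (nat_lit 163844) (nat_lit 0) .nil)))))))) (.g (nat_lit 8) .nil .nil))) 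
(.lf (nat_lit 117865) (.g (nat_lit 1224) (.e (nat_lit 6108) (nat_lit 332) (.e (nat_lit 1369) (nat_lit 103) (.e (nat_lit 294928) (nat_lit 2) (.e (nat_lit 90176) (nat_lit 15) (.e (nat_lit 188450) (nat_lit 23) .nil))))) .nil)))) (.nd (nat_lit 5) (.nd (nat_lit 6) 
(.lf (nat_lit 117785) (.g (nat_lit 3500) (.e (nat_lit 6065) (nat_lit 328) (.e (nat_lit 57449) (nat_lit 20) (.e (nat_lit 401457) (nat_lit 13) (.e (nat_lit 483413) (nat_lit 27) (.e (nat_lit 401446) (nat_lit 10) (.e (nat_lit 434203) (nat_lit 18) .nil)))))) (.g (nat_lit 0) .nil .nil))) 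
(.lf (nat_lit 117849) (.g (nat_lit 993) (.e (nat_lit 6092) (nat_lit 332) (.e (nat_lit 1370) (nat_lit 103) (.e (nat_lit 294931) (nat_lit 3) (.e (nat_lit 98369) (nat_lit 28) .nil)))) .nil))) (.nd (nat_lit 6) 
(.lf (nat_lit 117817) (.g (nat_lit 2015) (.e (nat_lit 6078) (nat_lit 332) (.e (nat_lit 1360) (nat_lit 102) (.e (nat_lit 286733) (nat_lit 2) (.e (nat_lit 90178) (nat_lit 15) .nil)))) .nil)) 
(.lf (nat_lit 117881) (.g (nat_lit 1970) (.e (nat_lit 6112) (nat_lit 332) (.e (nat_lit 1374) (nat_lit 104) (.e (nat_lit 303119) (nat_lit 3) (.e (nat_lit 204885) (nat_lit 33) (.e (nat_lit 401434) (nat_lit 9) .nil))))) .nil)))))) (.nd (nat_lit 3) (.nd (nat_lit 4) (.nd (nat_lit 5) (.nd (nat_lit 6) 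
(.lf (nat_lit 117765) (.g (nat_lit 2400) (.e (nat_lit 6063) (nat_lit 328) (.e (nat_lit 57443) (nat_lit 18) (.e (nat_lit 385074) (nat_lit 31) (.e (nat_lit 573484) (nat_lit 13) (.e (nat_lit 65617) (nat_lit 10) .nil))))) .nil)) 
(.lf (nat_lit 117829) (.g (nat_lit 3271) (.e (nat_lit 6092) (nat_lit 332) (.e (nat_lit 1348) (nat_lit 102) (.e (nat_lit 286733) (nat_lit 2) (.e (nat_lit 90170) (nat_lit 13) (.e (nat_lit 172097) (nat_lit 9) .nil))))) .nil))) (.nd (nat_lit 6) 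
(.lf (nat_lit 117797) (.g (nat_lit 1827) (.e (nat_lit 6068) (nat_lit 328) (.e (nat_lit 57421) (nat_lit 13) (.e (nat_lit 344126) (nat_lit 25) (.e (nat_lit 548874) (nat_lit 5) (.e (nat_lit 1598) (nat_lit 111) .nil))))) .nil)) 
(.lf (nat_lit 117861) (.g (nat_lit 2570) (.e (nat_lit 6094) (nat_lit 332) (.e (nat_lit 1364) (nat_lit 103) (.e (nat_lit 294928) (nat_lit 2) (.e (nat_lit 90176) (nat_lit 15) (.e (nat_lit 188450) (nat_lit 23) (.e (nat_lit 204819) (nat_lit 17) .nil)))))) (.g (nat_lit 6) .nil .nil))))) (.nd (nat_lit 5) (.nd (nat_lit 6) 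
(.lf (nat_lit 117781) (.g (nat_lit 692) (.e (nat_lit 6065) (nat_lit 328) (.e (nat_lit 57445) (nat_lit 19) (.e (nat_lit 393229) (nat_lit 9) .nil))) .nil)) 
(.lf (nat_lit 117845) (.g (nat_lit 1430) (.e (nat_lit 6092) (nat_lit 332) (.e (nat_lit 1361) (nat_lit 102) (.e (nat_lit 286761) (nat_lit 13) (.e (nat_lit 393265) (nat_lit 22) (.e (nat_lit 417820) (nat_lit 10) .nil))))) .nil))) (.nd (nat_lit 6) 
(.lf (nat_lit 117813) (.g (nat_lit 2777) (.e (nat_lit 6068) (nat_lit 328) (.e (nat_lit 57451) (nat_lit 20) (.e (nat_lit 401448) (nat_lit 10) (.e (nat_lit 434289) (nat_lit 43) (.e (nat_lit 696344) (nat_lit 8) .nil))))) .nil)) 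
(.lf (nat_lit 117877) (.g (nat_lit 1804) (.e (nat_lit 6112) (nat_lit 332) (.e (nat_lit 1374) (nat_lit 104) (.e (nat_lit 303117) (nat_lit 2) (.e (nat_lit 196651) (nat_lit 10) .nil)))) .nil))))) (.nd (nat_lit 4) (.nd (nat_lit 5) (.nd (nat_lit 6) 
(.lf (nat_lit 117773) (.g (nat_lit 3106) (.e (nat_lit 6065) (nat_lit 328) (.e (nat_lit 57440) (nat_lit 18) (.e (nat_lit 385074) (nat_lit 31) (.e (nat_lit 573484) (nat_lit 13) (.e (nat_lit 65617) (nat_lit 10) .nil))))) .nil)) 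
(.lf (nat_lit 117837) (.g (nat_lit 3873) (.e (nat_lit 6092) (nat_lit 332) (.e (nat_lit 1349) (nat_lit 102) (.e (nat_lit 286733) (nat_lit 2) (.e (nat_lit 90170) (nat_lit 13) (.e (nat_lit 172113) (nat_lit 10) .nil))))) .nil))) (.nd (nat_lit 6) 
(.lf (nat_lit 117805) (.g (nat_lit 3795) (.e (nat_lit 6068) (nat_lit 328) (.e (nat_lit 57447) (nat_lit 19) (.e (nat_lit 393301) (nat_lit 27) (.e (nat_lit 491560) (nat_lit 10) (.e (nat_lit 344179) (nat_lit 44) (.e (nat_lit 778472) (nat_lit 12) (.e (nat_lit 163844) (nat_lit 0) .nil))))))) (.g (nat_lit 5) .nil .nil))) 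
(.lf (nat_lit 117869) (.g (nat_lit 1726) (.e (nat_lit 6110) (nat_lit 332) (.e (nat_lit 1360) (nat_lit 102) (.e (nat_lit 286735) (nat_lit 3) (.e (nat_lit 98372) (nat_lit 29) (.e (nat_lit 450579) (nat_lit 5) .nil))))) .nil)))) (.nd (nat_lit 5) (.nd (nat_lit 6) 
(.lf (nat_lit 117789) (.g (nat_lit 2578) (.e (nat_lit 6065) (nat_lit 328) (.e (nat_lit 57451) (nat_lit 20) (.e (nat_lit 401448) (nat_lit 10) (.e (nat_lit 434289) (nat_lit 43) (.e (nat_lit 696343) (nat_lit 8) .nil))))) .nil)) 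
(.lf (nat_lit 117853) (.g (nat_lit 1525) (.e (nat_lit 6092) (nat_lit 332) (.e (nat_lit 1370) (nat_lit 103) (.e (nat_lit 294960) (nat_lit 13) (.e (nat_lit 393260) (nat_lit 21) (.e (nat_lit 409623) (nat_lit 10) (.e (nat_lit 5629) (nat_lit 312) (.e (nat_lit 52) (nat_lit 0) .nil))))))) (.g (nat_lit 4) .nil .nil)))) (.nd (nat_lit 6) 
(.lf (nat_lit 117821) (.g (nat_lit 3882) (.e (nat_lit 6084) (nat_lit 332) (.e (nat_lit 1360) (nat_lit 102) (.e (nat_lit 286733) (nat_lit 2) (.e (nat_lit 90170) (nat_lit 13) (.e (nat_lit 172115) (nat_lit 10) .nil))))) .nil)) 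
(.lf (nat_lit 117885) (.g (nat_lit 1108) (.e (nat_lit 6112) (nat_lit 332) (.e (nat_lit 2507) (nat_lit 157) (.e (nat_lit 5259) (nat_lit 298) (.e (nat_lit 496) (nat_lit 39) (.e (nat_lit 491264) (nat_lit 3) (.e (nat_lit 229120) (nat_lit 3) (.e (nat_lit 98308) (nat_lit 0) .nil))))))) (.g (nat_lit 4) .nil .nil)))))))) (.nd (nat_lit 2) (.nd (nat_lit 3) (.nd (nat_lit 4) (.nd (nat_lit 5) (.nd (nat_lit 6) 
(.lf (nat_lit 117763) (.g (nat_lit 955) (.e (nat_lit 6063) (nat_lit 328) (.e (nat_lit 57379) (nat_lit 3) (.e (nat_lit 98350) (nat_lit 24) .nil))) .nil)) 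
(.lf (nat_lit 117827) (.g (nat_lit 1441) (.e (nat_lit 6092) (nat_lit 332) (.e (nat_lit 1348) (nat_lit 102) (.e (nat_lit 286733) (nat_lit 2) (.e (nat_lit 90169) (nat_lit 13) .nil)))) .nil))) (.nd (nat_lit 6) 
(.lf (nat_lit 117795) (.g (nat_lit 1565) (.e (nat_lit 6067) (nat_lit 328) (.e (nat_lit 57451) (nat_lit 20) (.e (nat_lit 401448) (nat_lit 10) (.e (nat_lit 434289) (nat_lit 43) .nil)))) .nil)) 
(.lf (nat_lit 117859) (.g (nat_lit 950) (.e (nat_lit 6092) (nat_lit 332) (.e (nat_lit 2777) (nat_lit 178) (.e (nat_lit 286735) (nat_lit 3) .nil))) .nil)))) (.nd (nat_lit 5) (.nd (nat_lit 6) 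
(.lf (nat_lit 117779) (.g (nat_lit 4478) (.e (nat_lit 6065) (nat_lit 328) (.e (nat_lit 57442) (nat_lit 18) (.e (nat_lit 385074) (nat_lit 31) (.e (nat_lit 573484) (nat_lit 13) (.e (nat_lit 65617) (nat_lit 10) (.e (nat_lit 344133) (nat_lit 26) (.e (nat_lit 557091) (nat_lit 12) (.e (nat_lit 163844) (nat_lit 0) .nil)))))))) (.g (nat_lit 8) .nil .nil))) 
(.lf (nat_lit 117843) (.g (nat_lit 3699) (.e (nat_lit 6092) (nat_lit 332) (.e (nat_lit 1361) (nat_lit 102) (.e (nat_lit 286733) (nat_lit 2) (.e (nat_lit 90170) (nat_lit 13) (.e (nat_lit 172097) (nat_lit 9) .nil))))) .nil))) (.nd (nat_lit 6) 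
(.lf (nat_lit 117811) (.g (nat_lit 3395) (.e (nat_lit 6068) (nat_lit 328) (.e (nat_lit 57450) (nat_lit 20) (.e (nat_lit 401459) (nat_lit 13) (.e (nat_lit 483411) (nat_lit 27) (.e (nat_lit 401448) (nat_lit 10) (.e (nat_lit 434203) (nat_lit 18) .nil)))))) (.g (nat_lit 6) .nil .nil))) 
(.lf (nat_lit 117875) (.g (nat_lit 1293) (.e (nat_lit 6112) (nat_lit 332) (.e (nat_lit 1374) (nat_lit 104) (.e (nat_lit 303115) (nat_lit 1) (.e (nat_lit 164196) (nat_lit 158) .nil)))) .nil))))) (.nd (nat_lit 4) (.nd (nat_lit 5) (.nd (nat_lit 6) 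
(.lf (nat_lit 117771) (.g (nat_lit 1826) (.e (nat_lit 6065) (nat_lit 328) (.e (nat_lit 57421) (nat_lit 13) (.e (nat_lit 344126) (nat_lit 25) (.e (nat_lit 548874) (nat_lit 5) (.e (nat_lit 1598) (nat_lit 111) .nil))))) .nil)) 
(.lf (nat_lit 117835) (.g (nat_lit 3143) (.e (nat_lit 6092) (nat_lit 332) (.e (nat_lit 1349) (nat_lit 102) (.e (nat_lit 286733) (nat_lit 2) (.e (nat_lit 90170) (nat_lit 13) (.e (nat_lit 172085) (nat_lit 9) .nil))))) .nil))) (.nd (nat_lit 6) 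
(.lf (nat_lit 117803) (.g (nat_lit 4311) (.e (nat_lit 6068) (nat_lit 328) (.e (nat_lit 57442) (nat_lit 18) (.e (nat_lit 385074) (nat_lit 31) (.e (nat_lit 573484) (nat_lit 13) (.e (nat_lit 65617) (nat_lit 10) (.e (nat_lit 344133) (nat_lit 26) (.e (nat_lit 557091) (nat_lit 12) (.e (nat_lit 163841) (nat_lit 0) .nil)))))))) (.g (nat_lit 7) .nil .nil))) 
(.lf (nat_lit 117867) (.g (nat_lit 1110) (.e (nat_lit 6109) (nat_lit 332) (.e (nat_lit 1360) (nat_lit 102) (.e (nat_lit 286734) (nat_lit 3) (.e (nat_lit 98370) (nat_lit 28) .nil)))) .nil)))) (.nd (nat_lit 5) (.nd (nat_lit 6) 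
(.lf (nat_lit 117787) (.g (nat_lit 4327) (.e (nat_lit 6065) (nat_lit 328) (.e (nat_lit 57449) (nat_lit 20) (.e (nat_lit 401457) (nat_lit 13) (.e (nat_lit 483413) (nat_lit 27) (.e (nat_lit 401447) (nat_lit 10) (.e (nat_lit 434203) (nat_lit 18) .nil)))))) (.g (nat_lit 6) .nil .nil))) 
(.lf (nat_lit 117851) (.g (nat_lit 681) (.e (nat_lit 6092) (nat_lit 332) (.e (nat_lit 1370) (nat_lit 103) (.e (nat_lit 294960) (nat_lit 13) (.e (nat_lit 393260) (nat_lit 21) .nil)))) .nil))) (.nd (nat_lit 6) 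
(.lf (nat_lit 117819) (.g (nat_lit 2694) (.e (nat_lit 6078) (nat_lit 332) (.e (nat_lit 1367) (nat_lit 103) (.e (nat_lit 294928) (nat_lit 2) (.e (nat_lit 90176) (nat_lit 15) (.e (nat_lit 188450) (nat_lit 23) (.e (nat_lit 212736) (nat_lit 17) .nil)))))) (.g (nat_lit 5) .nil .nil))) 
(.lf (nat_lit 117883) (.g (nat_lit 68) (.e (nat_lit 6112) (nat_lit 332) (.e (nat_lit 1378) (nat_lit 104) (.e (nat_lit 311040) (nat_lit 35) .nil))) .nil)))))) (.nd (nat_lit 3) (.nd (nat_lit 4) (.nd (nat_lit 5) (.nd (nat_lit 6) 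
(.lf (nat_lit 117767) (.g (nat_lit 3024) (.e (nat_lit 6063) (nat_lit 328) (.e (nat_lit 57448) (nat_lit 19) (.e (nat_lit 393301) (nat_lit 27) (.e (nat_lit 491560) (nat_lit 10) (.e (nat_lit 344179) (nat_lit 44) (.e (nat_lit 778472) (nat_lit 12) (.e (nat_lit 163843) (nat_lit 0) .nil))))))) (.g (nat_lit 4) .nil .nil))) 
(.lf (nat_lit 117831) (.g (nat_lit 523) (.e (nat_lit 6092) (nat_lit 332) (.e (nat_lit 1348) (nat_lit 102) (.e (nat_lit 286735) (nat_lit 3) .nil))) .nil))) (.nd (nat_lit 6) 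
(.lf (nat_lit 117799) (.g (nat_lit 3228) (.e (nat_lit 6068) (nat_lit 328) (.e (nat_lit 57440) (nat_lit 18) (.e (nat_lit 385074) (nat_lit 31) (.e (nat_lit 573484) (nat_lit 13) (.e (nat_lit 65617) (nat_lit 10) (.e (nat_lit 344130) (nat_lit 26) (.e (nat_lit 557090) (nat_lit 12) (.e (nat_lit 163843) (nat_lit 0) .nil)))))))) (.g (nat_lit 4) .nil .nil))) 
(.lf (nat_lit 117863) (.g (nat_lit 1508) (.e (nat_lit 6097) (nat_lit 332) (.e (nat_lit 2777) (nat_lit 178) (.e (nat_lit 286735) (nat_lit 3) (.e (nat_lit 98350) (nat_lit 24) .nil)))) .nil)))) (.nd (nat_lit 5) (.nd (nat_lit 6) 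
(.lf (nat_lit 117783) (.g (nat_lit 3109) (.e (nat_lit 6065) (nat_lit 328) (.e (nat_lit 57447) (nat_lit 19) (.e (nat_lit 393301) (nat_lit 27) (.e (nat_lit 491560) (nat_lit 10) (.e (nat_lit 344179) (nat_lit 44) (.e (nat_lit 778472) (nat_lit 12) (.e (nat_lit 163843) (nat_lit 0) .nil))))))) (.g (nat_lit 4) .nil .nil))) 
(.lf (nat_lit 117847) (.g (nat_lit 2673) (.e (nat_lit 6092) (nat_lit 332) (.e (nat_lit 1370) (nat_lit 103) (.e (nat_lit 294928) (nat_lit 2) (.e (nat_lit 90170) (nat_lit 13) (.e (nat_lit 172097) (nat_lit 9) .nil))))) .nil))) (.nd (nat_lit 6) 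
(.lf (nat_lit 117815) (.g (nat_lit 3657) (.e (nat_lit 6072) (nat_lit 330) (.e (nat_lit 163871) (nat_lit 2) (.e (nat_lit 196666) (nat_lit 13) (.e (nat_lit 65610) (nat_lit 10) (.e (nat_lit 344117) (nat_lit 21) .nil))))) .nil)) 
(.lf (nat_lit 117879) (.g (nat_lit 907) (.e (nat_lit 6112) (nat_lit 332) (.e (nat_lit 1374) (nat_lit 104) (.e (nat_lit 303119) (nat_lit 3) .nil))) .nil))))) (.nd (nat_lit 4) (.nd (nat_lit 5) (.nd (nat_lit 6) 
(.lf (nat_lit 117775) (.g (nat_lit 3130) (.e (nat_lit 6065) (nat_lit 328) (.e (nat_lit 57440) (nat_lit 18) (.e (nat_lit 385074) (nat_lit 31) (.e (nat_lit 573484) (nat_lit 13) (.e (nat_lit 65617) (nat_lit 10) (.e (nat_lit 344133) (nat_lit 26) (.e (nat_lit 557091) (nat_lit 12) (.e (nat_lit 163844) (nat_lit 0) .nil)))))))) (.g (nat_lit 4) .nil .nil))) 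
(.lf (nat_lit 117839) (.g (nat_lit 2814) (.e (nat_lit 6092) (nat_lit 332) (.e (nat_lit 1349) (nat_lit 102) (.e (nat_lit 286735) (nat_lit 3) (.e (nat_lit 98359) (nat_lit 26) (.e (nat_lit 426216) (nat_lit 9) .nil))))) .nil))) (.nd (nat_lit 6) 
(.lf (nat_lit 117807) (.g (nat_lit 3283) (.e (nat_lit 6068) (nat_lit 328) (.e (nat_lit 57449) (nat_lit 20) (.e (nat_lit 401457) (nat_lit 13) (.e (nat_lit 483413) (nat_lit 27) (.e (nat_lit 401446) (nat_lit 10) (.e (nat_lit 434203) (nat_lit 18) .nil)))))) (.g (nat_lit 6) .nil .nil))) 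
(.lf (nat_lit 117871) (.g (nat_lit 1771) (.e (nat_lit 6112) (nat_lit 332) (.e (nat_lit 1361) (nat_lit 102) (.e (nat_lit 286761) (nat_lit 13) (.e (nat_lit 393260) (nat_lit 21) (.e (nat_lit 409647) (nat_lit 18) .nil))))) .nil)))) (.nd (nat_lit 5) (.nd (nat_lit 6) 
(.lf (nat_lit 117791) (.g (nat_lit 1825) (.e (nat_lit 6067) (nat_lit 328) (.e (nat_lit 57421) (nat_lit 13) (.e (nat_lit 344126) (nat_lit 25) (.e (nat_lit 548874) (nat_lit 5) (.e (nat_lit 1598) (nat_lit 111) .nil))))) .nil)) 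
(.lf (nat_lit 117855) (.g (nat_lit 979) (.e (nat_lit 6092) (nat_lit 332) (.e (nat_lit 1374) (nat_lit 104) (.e (nat_lit 303115) (nat_lit 1) .nil))) .nil))) (.nd (nat_lit 6) 
(.lf (nat_lit 117823) (.g (nat_lit 2138) (.e (nat_lit 6084) (nat_lit 332) (.e (nat_lit 1360) (nat_lit 102) (.e (nat_lit 286734) (nat_lit 3) (.e (nat_lit 98372) (nat_lit 29) (.e (nat_lit 450579) (nat_lit 5) .nil))))) .nil)) 
(.lf (nat_lit 117887) (.g (nat_lit 3369) (.e (nat_lit 6112) (nat_lit 332) (.e (nat_lit 2777) (nat_lit 178) (.e (nat_lit 286735) (nat_lit 3) (.e (nat_lit 98333) (nat_lit 18) (.e (nat_lit 164179) (nat_lit 154) .nil))))) .nil)))))))))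

noncomputable def tv1579 : DT := (.nd (nat_lit 0) (.nd (nat_lit 1) (.nd (nat_lit 2) (.nd (nat_lit 3) (.nd (nat_lit 4) (.nd (nat_lit 5) (.nd (nat_lit 6) 
(.lf (nat_lit 117888) (.g (nat_lit 3344) (.e (nat_lit 6112) (nat_lit 332) (.e (nat_lit 2777) (nat_lit 178) (.e (nat_lit 286735) (nat_lit 3) (.e (nat_lit 98333) (nat_lit 18) (.e (nat_lit 164183) (nat_lit 154) .nil))))) .nil)) 
(.lf (nat_lit 117952) (.g (nat_lit 2105) (.e (nat_lit 6113) (nat_lit 332) (.e (nat_lit 2810) (nat_lit 180) (.e (nat_lit 303145) (nat_lit 13) (.e (nat_lit 483405) (nat_lit 26) (.e (nat_lit 385100) (nat_lit 49) (.e (nat_lit 778249) (nat_lit 0) (.e (nat_lit 1001) (nat_lit 81) .nil))))))) (.g (nat_lit 4) .nil .nil)))) (.nd (nat_lit 6) 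
(.lf (nat_lit 117920) (.g (nat_lit 807) (.e (nat_lit 6113) (nat_lit 332) (.e (nat_lit 1361) (nat_lit 102) (.e (nat_lit 286761) (nat_lit 13) (.e (nat_lit 393284) (nat_lit 24) .nil)))) .nil)) 
(.lf (nat_lit 117984) (.g (nat_lit 4544) (.e (nat_lit 6126) (nat_lit 332) (.e (nat_lit 1348) (nat_lit 102) (.e (nat_lit 286732) (nat_lit 2) (.e (nat_lit 90170) (nat_lit 13) (.e (nat_lit 172106) (nat_lit 10) (.e (nat_lit 434231) (nat_lit 23) (.e (nat_lit 532490) (nat_lit 0) .nil))))))) (.g (nat_lit 7) .nil .nil))))) (.nd (nat_lit 5) (.nd (nat_lit 6) 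
(.lf (nat_lit 117904) (.g (nat_lit 1736) (.e (nat_lit 6113) (nat_lit 332) (.e (nat_lit 1361) (nat_lit 102) (.e (nat_lit 286759) (nat_lit 12) (.e (nat_lit 385107) (nat_lit 51) (.e (nat_lit 794678) (nat_lit 24) .nil))))) .nil)) 
(.lf (nat_lit 117968) (.g (nat_lit 2845) (.e (nat_lit 6114) (nat_lit 332) (.e (nat_lit 1370) (nat_lit 103) (.e (nat_lit 294960) (nat_lit 13) (.e (nat_lit 393260) (nat_lit 21) (.e (nat_lit 409623) (nat_lit 10) (.e (nat_lit 5664) (nat_lit 312) (.e (nat_lit 59) (nat_lit 0) .nil))))))) (.g (nat_lit 6) .nil .nil)))) (.nd (nat_lit 6) 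
(.lf (nat_lit 117936) (.g (nat_lit 1790) (.e (nat_lit 6113) (nat_lit 332) (.e (nat_lit 1374) (nat_lit 104) (.e (nat_lit 303147) (nat_lit 15) (.e (nat_lit 1858) (nat_lit 124) (.e (nat_lit 557100) (nat_lit 13) .nil))))) .nil)) 
(.lf (nat_lit 118000) (.g (nat_lit 1790) (.e (nat_lit 6126) (nat_lit 332) (.e (nat_lit 1348) (nat_lit 102) (.e (nat_lit 286761) (nat_lit 13) (.e (nat_lit 393265) (nat_lit 22) .nil)))) .nil))))) (.nd (nat_lit 4) (.nd (nat_lit 5) (.nd (nat_lit 6) 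
(.lf (nat_lit 117896) (.g (nat_lit 2051) (.e (nat_lit 6113) (nat_lit 332) (.e (nat_lit 1361) (nat_lit 102) (.e (nat_lit 286735) (nat_lit 3) (.e (nat_lit 98365) (nat_lit 26) (.e (nat_lit 426297) (nat_lit 11) .nil))))) .nil)) 
(.lf (nat_lit 117960) (.g (nat_lit 2165) (.e (nat_lit 6114) (nat_lit 332) (.e (nat_lit 1361) (nat_lit 102) (.e (nat_lit 286735) (nat_lit 3) (.e (nat_lit 98359) (nat_lit 26) (.e (nat_lit 426211) (nat_lit 9) .nil))))) .nil))) (.nd (nat_lit 6) 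
(.lf (nat_lit 117928) (.g (nat_lit 1346) (.e (nat_lit 6113) (nat_lit 332) (.e (nat_lit 1370) (nat_lit 103) (.e (nat_lit 294960) (nat_lit 13) (.e (nat_lit 393260) (nat_lit 21) (.e (nat_lit 409645) (nat_lit 18) .nil))))) .nil)) 
(.lf (nat_lit 117992) (.g (nat_lit 2652) (.e (nat_lit 6126) (nat_lit 332) (.e (nat_lit 1348) (nat_lit 102) (.e (nat_lit 286735) (nat_lit 3) (.e (nat_lit 98359) (nat_lit 26) (.e (nat_lit 426185) (nat_lit 9) .nil))))) .nil)))) (.nd (nat_lit 5) (.nd (nat_lit 6) 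
(.lf (nat_lit 117912) (.g (nat_lit 1501) (.e (nat_lit 6113) (nat_lit 332) (.e (nat_lit 1361) (nat_lit 102) (.e (nat_lit 286761) (nat_lit 13) (.e (nat_lit 393265) (nat_lit 22) (.e (nat_lit 417793) (nat_lit 0) .nil))))) .nil)) 
(.lf (nat_lit 117976) (.g (nat_lit 520) (.e (nat_lit 6114) (nat_lit 332) (.e (nat_lit 1374) (nat_lit 104) (.e (nat_lit 303155) (nat_lit 29) .nil))) .nil))) (.nd (nat_lit 6) 
(.lf (nat_lit 117944) (.g (nat_lit 2064) (.e (nat_lit 6113) (nat_lit 332) (.e (nat_lit 2406) (nat_lit 157) (.e (nat_lit 5270) (nat_lit 298) (.e (nat_lit 1183) (nat_lit 87) (.e (nat_lit 57872) (nat_lit 264) .nil))))) .nil)) 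
(.lf (nat_lit 118008) (.g (nat_lit 1781) (.e (nat_lit 6134) (nat_lit 332) (.e (nat_lit 1348) (nat_lit 102) (.e (nat_lit 286735) (nat_lit 3) (.e (nat_lit 98373) (nat_lit 29) (.e (nat_lit 450563) (nat_lit 0) .nil))))) .nil)))))) (.nd (nat_lit 3) (.nd (nat_lit 4) (.nd (nat_lit 5) (.nd (nat_lit 6) 
(.lf (nat_lit 117892) (.g (nat_lit 1599) (.e (nat_lit 6113) (nat_lit 332) (.e (nat_lit 1361) (nat_lit 102) (.e (nat_lit 286735) (nat_lit 3) (.e (nat_lit 98325) (nat_lit 17) (.e (nat_lit 7936) (nat_lit 393) .nil))))) .nil)) 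
(.lf (nat_lit 117956) (.g (nat_lit 2056) (.e (nat_lit 6114) (nat_lit 332) (.e (nat_lit 1361) (nat_lit 102) (.e (nat_lit 286733) (nat_lit 2) (.e (nat_lit 90176) (nat_lit 15) (.e (nat_lit 188450) (nat_lit 23) .nil))))) .nil))) (.nd (nat_lit 6) 
(.lf (nat_lit 117924) (.g (nat_lit 2269) (.e (nat_lit 6113) (nat_lit 332) (.e (nat_lit 1370) (nat_lit 103) (.e (nat_lit 294960) (nat_lit 13) (.e (nat_lit 393238) (nat_lit 17) (.e (nat_lit 6989) (nat_lit 377) (.e (nat_lit 2810) (nat_lit 180) (.e (nat_lit 311040) (nat_lit 15) .nil))))))) (.g (nat_lit 5) .nil .nil))) 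
(.lf (nat_lit 117988) (.g (nat_lit 2623) (.e (nat_lit 6126) (nat_lit 332) (.e (nat_lit 1348) (nat_lit 102) (.e (nat_lit 286733) (nat_lit 2) (.e (nat_lit 90170) (nat_lit 13) (.e (nat_lit 172106) (nat_lit 10) .nil))))) .nil)))) (.nd (nat_lit 5) (.nd (nat_lit 6) 
(.lf (nat_lit 117908) (.g (nat_lit 2157) (.e (nat_lit 6113) (nat_lit 332) (.e (nat_lit 1361) (nat_lit 102) (.e (nat_lit 286761) (nat_lit 13) (.e (nat_lit 393260) (nat_lit 21) (.e (nat_lit 409646) (nat_lit 18) (.e (nat_lit 311040) (nat_lit 15) .nil)))))) (.g (nat_lit 5) .nil .nil))) 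
(.lf (nat_lit 117972) (.g (nat_lit 1824) (.e (nat_lit 6114) (nat_lit 332) (.e (nat_lit 1374) (nat_lit 104) (.e (nat_lit 303118) (nat_lit 3) (.e (nat_lit 204885) (nat_lit 33) .nil)))) .nil))) (.nd (nat_lit 6) 
(.lf (nat_lit 117940) (.g (nat_lit 3551) (.e (nat_lit 6113) (nat_lit 332) (.e (nat_lit 1376) (nat_lit 104) (.e (nat_lit 303147) (nat_lit 15) (.e (nat_lit 1858) (nat_lit 124) (.e (nat_lit 557109) (nat_lit 15) (.e (nat_lit 188458) (nat_lit 25) (.e (nat_lit 245784) (nat_lit 9) (.e (nat_lit 1003) (nat_lit 81) .nil)))))))) (.g (nat_lit 5) .nil .nil))) 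
(.lf (nat_lit 118004) (.g (nat_lit 3582) (.e (nat_lit 6131) (nat_lit 332) (.e (nat_lit 1348) (nat_lit 102) (.e (nat_lit 286735) (nat_lit 3) (.e (nat_lit 98365) (nat_lit 26) (.e (nat_lit 426298) (nat_lit 11) .nil))))) .nil))))) (.nd (nat_lit 4) (.nd (nat_lit 5) (.nd (nat_lit 6) 
(.lf (nat_lit 117900) (.g (nat_lit 1948) (.e (nat_lit 6113) (nat_lit 332) (.e (nat_lit 1361) (nat_lit 102) (.e (nat_lit 286735) (nat_lit 3) (.e (nat_lit 98374) (nat_lit 29) (.e (nat_lit 450575) (nat_lit 1) (.e (nat_lit 499991) (nat_lit 14) (.e (nat_lit 1003) (nat_lit 81) .nil))))))) (.g (nat_lit 0) .nil .nil))) 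
(.lf (nat_lit 117964) (.g (nat_lit 3225) (.e (nat_lit 6114) (nat_lit 332) (.e (nat_lit 1370) (nat_lit 103) (.e (nat_lit 294941) (nat_lit 9) (.e (nat_lit 336369) (nat_lit 27) (.e (nat_lit 426173) (nat_lit 7) (.e (nat_lit 409649) (nat_lit 18) (.e (nat_lit 311040) (nat_lit 15) .nil))))))) (.g (nat_lit 4) .nil .nil)))) (.nd (nat_lit 6) 
(.lf (nat_lit 117932) (.g (nat_lit 2931) (.e (nat_lit 6113) (nat_lit 332) (.e (nat_lit 1370) (nat_lit 103) (.e (nat_lit 294960) (nat_lit 13) (.e (nat_lit 393260) (nat_lit 21) (.e (nat_lit 409649) (nat_lit 18) (.e (nat_lit 311040) (nat_lit 15) .nil)))))) (.g (nat_lit 5) .nil .nil))) 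
(.lf (nat_lit 117996) (.g (nat_lit 1715) (.e (nat_lit 6126) (nat_lit 332) (.e (nat_lit 1348) (nat_lit 102) (.e (nat_lit 286735) (nat_lit 3) (.e (nat_lit 98374) (nat_lit 29) .nil)))) .nil)))) (.nd (nat_lit 5) (.nd (nat_lit 6) 
(.lf (nat_lit 117916) (.g (nat_lit 2385) (.e (nat_lit 6113) (nat_lit 332) (.e (nat_lit 1361) (nat_lit 102) (.e (nat_lit 286761) (nat_lit 13) (.e (nat_lit 393265) (nat_lit 22) (.e (nat_lit 417820) (nat_lit 10) (.e (nat_lit 5664) (nat_lit 312) (.e (nat_lit 7936) (nat_lit 0) .nil))))))) (.g (nat_lit 5) .nil .nil))) 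
(.lf (nat_lit 117980) (.g (nat_lit 5013) (.e (nat_lit 6114) (nat_lit 332) (.e (nat_lit 1379) (nat_lit 104) (.e (nat_lit 303147) (nat_lit 15) (.e (nat_lit 1859) (nat_lit 124) (.e (nat_lit 557098) (nat_lit 13) (.e (nat_lit 172115) (nat_lit 10) (.e (nat_lit 434231) (nat_lit 23) (.e (nat_lit 532490) (nat_lit 0) .nil)))))))) (.g (nat_lit 0) .nil .nil)))) (.nd (nat_lit 6) 
(.lf (nat_lit 117948) (.g (nat_lit 1046) (.e (nat_lit 6113) (nat_lit 332) (.e (nat_lit 2810) (nat_lit 180) (.e (nat_lit 303145) (nat_lit 13) (.e (nat_lit 483382) (nat_lit 23) .nil)))) .nil)) 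
(.lf (nat_lit 118012) (.g (nat_lit 2587) (.e (nat_lit 6134) (nat_lit 332) (.e (nat_lit 1348) (nat_lit 102) (.e (nat_lit 286761) (nat_lit 13) (.e (nat_lit 393233) (nat_lit 17) (.e (nat_lit 7073) (nat_lit 377) .nil))))) .nil))))))) (.nd (nat_lit 2) (.nd (nat_lit 3) (.nd (nat_lit 4) (.nd (nat_lit 5) (.nd (nat_lit 6) 
(.lf (nat_lit 117890) (.g (nat_lit 842) (.e (nat_lit 6113) (nat_lit 332) (.e (nat_lit 1361) (nat_lit 102) (.e (nat_lit 286733) (nat_lit 2) (.e (nat_lit 90172) (nat_lit 14) .nil)))) .nil)) 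
(.lf (nat_lit 117954) (.g (nat_lit 1307) (.e (nat_lit 6114) (nat_lit 332) (.e (nat_lit 1361) (nat_lit 102) (.e (nat_lit 286733) (nat_lit 2) (.e (nat_lit 90169) (nat_lit 13) .nil)))) .nil))) (.nd (nat_lit 6) 
(.lf (nat_lit 117922) (.g (nat_lit 3602) (.e (nat_lit 6113) (nat_lit 332) (.e (nat_lit 1370) (nat_lit 103) (.e (nat_lit 294941) (nat_lit 9) (.e (nat_lit 336369) (nat_lit 27) (.e (nat_lit 426173) (nat_lit 7) (.e (nat_lit 409649) (nat_lit 18) (.e (nat_lit 311040) (nat_lit 15) .nil))))))) (.g (nat_lit 6) .nil .nil))) 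
(.lf (nat_lit 117986) (.g (nat_lit 1866) (.e (nat_lit 6126) (nat_lit 332) (.e (nat_lit 1348) (nat_lit 102) (.e (nat_lit 286733) (nat_lit 2) (.e (nat_lit 90169) (nat_lit 13) (.e (nat_lit 172097) (nat_lit 9) .nil))))) .nil)))) (.nd (nat_lit 5) (.nd (nat_lit 6) 
(.lf (nat_lit 117906) (.g (nat_lit 1472) (.e (nat_lit 6113) (nat_lit 332) (.e (nat_lit 1361) (nat_lit 102) (.e (nat_lit 286759) (nat_lit 12) (.e (nat_lit 385107) (nat_lit 51) (.e (nat_lit 794682) (nat_lit 25) .nil))))) .nil)) 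
(.lf (nat_lit 117970) (.g (nat_lit 1699) (.e (nat_lit 6114) (nat_lit 332) (.e (nat_lit 1370) (nat_lit 103) (.e (nat_lit 294960) (nat_lit 13) (.e (nat_lit 393260) (nat_lit 21) (.e (nat_lit 409646) (nat_lit 18) (.e (nat_lit 311040) (nat_lit 15) .nil)))))) (.g (nat_lit 4) .nil .nil)))) (.nd (nat_lit 6) 
(.lf (nat_lit 117938) (.g (nat_lit 358) (.e (nat_lit 6113) (nat_lit 332) (.e (nat_lit 1374) (nat_lit 104) (.e (nat_lit 303154) (nat_lit 28) .nil))) .nil)) 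
(.lf (nat_lit 118002) (.g (nat_lit 762) (.e (nat_lit 6131) (nat_lit 332) (.e (nat_lit 1348) (nat_lit 102) (.e (nat_lit 286733) (nat_lit 2) .nil))) .nil))))) (.nd (nat_lit 4) (.nd (nat_lit 5) (.nd (nat_lit 6) 
(.lf (nat_lit 117898) (.g (nat_lit 1997) (.e (nat_lit 6113) (nat_lit 332) (.e (nat_lit 1361) (nat_lit 102) (.e (nat_lit 286735) (nat_lit 3) (.e (nat_lit 98370) (nat_lit 28) (.e (nat_lit 442426) (nat_lit 23) .nil))))) .nil)) 
(.lf (nat_lit 117962) (.g (nat_lit 2650) (.e (nat_lit 6114) (nat_lit 332) (.e (nat_lit 1370) (nat_lit 103) (.e (nat_lit 294928) (nat_lit 2) (.e (nat_lit 90170) (nat_lit 13) (.e (nat_lit 172097) (nat_lit 9) .nil))))) .nil))) (.nd (nat_lit 6) 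
(.lf (nat_lit 117930) (.g (nat_lit 2012) (.e (nat_lit 6113) (nat_lit 332) (.e (nat_lit 1370) (nat_lit 103) (.e (nat_lit 294960) (nat_lit 13) (.e (nat_lit 393260) (nat_lit 21) (.e (nat_lit 409647) (nat_lit 18) (.e (nat_lit 311040) (nat_lit 15) .nil)))))) (.g (nat_lit 4) .nil .nil))) 
(.lf (nat_lit 117994) (.g (nat_lit 1783) (.e (nat_lit 6126) (nat_lit 332) (.e (nat_lit 1348) (nat_lit 102) (.e (nat_lit 286735) (nat_lit 3) (.e (nat_lit 98365) (nat_lit 26) .nil)))) .nil)))) (.nd (nat_lit 5) (.nd (nat_lit 6) 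
(.lf (nat_lit 117914) (.g (nat_lit 1574) (.e (nat_lit 6113) (nat_lit 332) (.e (nat_lit 1361) (nat_lit 102) (.e (nat_lit 286761) (nat_lit 13) (.e (nat_lit 393265) (nat_lit 22) (.e (nat_lit 417820) (nat_lit 10) (.e (nat_lit 5626) (nat_lit 312) (.e (nat_lit 7936) (nat_lit 0) .nil))))))) (.g (nat_lit 4) .nil .nil))) 
(.lf (nat_lit 117978) (.g (nat_lit 2851) (.e (nat_lit 6114) (nat_lit 332) (.e (nat_lit 1378) (nat_lit 104) (.e (nat_lit 303147) (nat_lit 15) (.e (nat_lit 1858) (nat_lit 124) (.e (nat_lit 557109) (nat_lit 15) (.e (nat_lit 188458) (nat_lit 25) (.e (nat_lit 245784) (nat_lit 9) (.e (nat_lit 1023) (nat_lit 81) .nil)))))))) (.g (nat_lit 4) .nil .nil)))) (.nd (nat_lit 6) 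
(.lf (nat_lit 117946) (.g (nat_lit 1379) (.e (nat_lit 6113) (nat_lit 332) (.e (nat_lit 2810) (nat_lit 180) (.e (nat_lit 303127) (nat_lit 9) (.e (nat_lit 426542) (nat_lit 29) (.e (nat_lit 352318) (nat_lit 24) .nil))))) .nil)) 
(.lf (nat_lit 118010) (.g (nat_lit 1299) (.e (nat_lit 6134) (nat_lit 332) (.e (nat_lit 1348) (nat_lit 102) (.e (nat_lit 286748) (nat_lit 9) (.e (nat_lit 336389) (nat_lit 27) .nil)))) .nil)))))) (.nd (nat_lit 3) (.nd (nat_lit 4) (.nd (nat_lit 5) (.nd (nat_lit 6) 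
(.lf (nat_lit 117894) (.g (nat_lit 1166) (.e (nat_lit 6113) (nat_lit 332) (.e (nat_lit 1361) (nat_lit 102) (.e (nat_lit 286735) (nat_lit 3) (.e (nat_lit 98359) (nat_lit 26) .nil)))) .nil)) 
(.lf (nat_lit 117958) (.g (nat_lit 1498) (.e (nat_lit 6114) (nat_lit 332) (.e (nat_lit 1361) (nat_lit 102) (.e (nat_lit 286734) (nat_lit 3) (.e (nat_lit 98370) (nat_lit 28) (.e (nat_lit 442427) (nat_lit 23) .nil))))) .nil))) (.nd (nat_lit 6) 
(.lf (nat_lit 117926) (.g (nat_lit 3046) (.e (nat_lit 6113) (nat_lit 332) (.e (nat_lit 1370) (nat_lit 103) (.e (nat_lit 294960) (nat_lit 13) (.e (nat_lit 393260) (nat_lit 21) (.e (nat_lit 409623) (nat_lit 10) (.e (nat_lit 5629) (nat_lit 312) (.e (nat_lit 11) (nat_lit 0) .nil))))))) (.g (nat_lit 0) .nil .nil))) 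
(.lf (nat_lit 117990) (.g (nat_lit 1440) (.e (nat_lit 6126) (nat_lit 332) (.e (nat_lit 1348) (nat_lit 102) (.e (nat_lit 286733) (nat_lit 2) (.e (nat_lit 90178) (nat_lit 15) .nil)))) .nil)))) (.nd (nat_lit 5) (.nd (nat_lit 6) 
(.lf (nat_lit 117910) (.g (nat_lit 910) (.e (nat_lit 6113) (nat_lit 332) (.e (nat_lit 1361) (nat_lit 102) (.e (nat_lit 286761) (nat_lit 13) (.e (nat_lit 393265) (nat_lit 22) .nil)))) .nil)) 
(.lf (nat_lit 117974) (.g (nat_lit 2639) (.e (nat_lit 6114) (nat_lit 332) (.e (nat_lit 1374) (nat_lit 104) (.e (nat_lit 303119) (nat_lit 3) (.e (nat_lit 204846) (nat_lit 24) (.e (nat_lit 319538) (nat_lit 19) .nil))))) .nil))) (.nd (nat_lit 6) 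
(.lf (nat_lit 117942) (.g (nat_lit 5059) (.e (nat_lit 6113) (nat_lit 332) (.e (nat_lit 1376) (nat_lit 104) (.e (nat_lit 303147) (nat_lit 15) (.e (nat_lit 2030) (nat_lit 140) (.e (nat_lit 688177) (nat_lit 16) (.e (nat_lit 65586) (nat_lit 7) (.e (nat_lit 319531) (nat_lit 16) (.e (nat_lit 286721) (nat_lit 0) .nil)))))))) (.g (nat_lit 7) .nil .nil))) 
(.lf (nat_lit 118006) (.g (nat_lit 2406) (.e (nat_lit 6133) (nat_lit 332) (.e (nat_lit 1349) (nat_lit 102) (.e (nat_lit 286733) (nat_lit 2) (.e (nat_lit 90170) (nat_lit 13) (.e (nat_lit 172106) (nat_lit 10) .nil))))) .nil))))) (.nd (nat_lit 4) (.nd (nat_lit 5) (.nd (nat_lit 6) 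
(.lf (nat_lit 117902) (.g (nat_lit 1783) (.e (nat_lit 6113) (nat_lit 332) (.e (nat_lit 1361) (nat_lit 102) (.e (nat_lit 286735) (nat_lit 3) (.e (nat_lit 98381) (nat_lit 31) (.e (nat_lit 466981) (nat_lit 23) .nil))))) .nil)) 
(.lf (nat_lit 117966) (.g (nat_lit 3516) (.e (nat_lit 6114) (nat_lit 332) (.e (nat_lit 1370) (nat_lit 103) (.e (nat_lit 294960) (nat_lit 13) (.e (nat_lit 393260) (nat_lit 21) (.e (nat_lit 409614) (nat_lit 10) (.e (nat_lit 5681) (nat_lit 312) (.e (nat_lit 60) (nat_lit 0) .nil))))))) (.g (nat_lit 4) .nil .nil)))) (.nd (nat_lit 6) 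
(.lf (nat_lit 117934) (.g (nat_lit 3249) (.e (nat_lit 6113) (nat_lit 332) (.e (nat_lit 1374) (nat_lit 104) (.e (nat_lit 303117) (nat_lit 2) (.e (nat_lit 196628) (nat_lit 9) (.e (nat_lit 968) (nat_lit 81) (.e (nat_lit 6721) (nat_lit 362) (.e (nat_lit 180245) (nat_lit 5) (.e (nat_lit 532486) (nat_lit 0) .nil)))))))) (.g (nat_lit 4) .nil .nil))) 
(.lf (nat_lit 117998) (.g (nat_lit 1936) (.e (nat_lit 6126) (nat_lit 332) (.e (nat_lit 1348) (nat_lit 102) (.e (nat_lit 286761) (nat_lit 13) (.e (nat_lit 393260) (nat_lit 21) .nil)))) .nil)))) (.nd (nat_lit 5) (.nd (nat_lit 6) 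
(.lf (nat_lit 117918) (.g (nat_lit 1038) (.e (nat_lit 6113) (nat_lit 332) (.e (nat_lit 1361) (nat_lit 102) (.e (nat_lit 286761) (nat_lit 13) (.e (nat_lit 393270) (nat_lit 23) .nil)))) .nil)) 
(.lf (nat_lit 117982) (.g (nat_lit 1952) (.e (nat_lit 6122) (nat_lit 332) (.e (nat_lit 1367) (nat_lit 103) (.e (nat_lit 294930) (nat_lit 3) (.e (nat_lit 98372) (nat_lit 29) (.e (nat_lit 450579) (nat_lit 5) (.e (nat_lit 532480) (nat_lit 0) .nil)))))) (.g (nat_lit 5) .nil .nil)))) (.nd (nat_lit 6) 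
(.lf (nat_lit 117950) (.g (nat_lit 1356) (.e (nat_lit 6113) (nat_lit 332) (.e (nat_lit 2810) (nat_lit 180) (.e (nat_lit 303145) (nat_lit 13) (.e (nat_lit 483401) (nat_lit 25) (.e (nat_lit 368695) (nat_lit 40) .nil))))) .nil)) 
(.lf (nat_lit 118014) (.g (nat_lit 3395) (.e (nat_lit 6134) (nat_lit 332) (.e (nat_lit 1348) (nat_lit 102) (.e (nat_lit 286761) (nat_lit 13) (.e (nat_lit 393234) (nat_lit 17) (.e (nat_lit 7073) (nat_lit 377) .nil))))) .nil)))))))) (.nd (nat_lit 1) (.nd (nat_lit 2) (.nd (nat_lit 3) (.nd (nat_lit 4) (.nd (nat_lit 5) (.nd (nat_lit 6) 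
(.lf (nat_lit 117889) (.g (nat_lit 1107) (.e (nat_lit 6113) (nat_lit 332) (.e (nat_lit 1361) (nat_lit 102) (.e (nat_lit 286733) (nat_lit 2) (.e (nat_lit 90169) (nat_lit 13) .nil)))) .nil)) 
(.lf (nat_lit 117953) (.g (nat_lit 1840) (.e (nat_lit 6114) (nat_lit 332) (.e (nat_lit 1075) (nat_lit 81) (.e (nat_lit 5293) (nat_lit 298) (.e (nat_lit 1250) (nat_lit 92) (.e (nat_lit 98370) (nat_lit 28) .nil))))) .nil))) (.nd (nat_lit 6) 
(.lf (nat_lit 117921) (.g (nat_lit 1945) (.e (nat_lit 6113) (nat_lit 332) (.e (nat_lit 1361) (nat_lit 102) (.e (nat_lit 286761) (nat_lit 13) (.e (nat_lit 393284) (nat_lit 24) (.e (nat_lit 434279) (nat_lit 39) (.e (nat_lit 663555) (nat_lit 0) (.e (nat_lit 1003) (nat_lit 81) .nil))))))) (.g (nat_lit 5) .nil .nil))) 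
(.lf (nat_lit 117985) (.g (nat_lit 1416) (.e (nat_lit 6126) (nat_lit 332) (.e (nat_lit 1348) (nat_lit 102) (.e (nat_lit 286733) (nat_lit 2) (.e (nat_lit 90169) (nat_lit 13) .nil)))) .nil)))) (.nd (nat_lit 5) (.nd (nat_lit 6) 
(.lf (nat_lit 117905) (.g (nat_lit 1569) (.e (nat_lit 6113) (nat_lit 332) (.e (nat_lit 1361) (nat_lit 102) (.e (nat_lit 286759) (nat_lit 12) (.e (nat_lit 385107) (nat_lit 51) (.e (nat_lit 794679) (nat_lit 24) .nil))))) .nil)) 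
(.lf (nat_lit 117969) (.g (nat_lit 1574) (.e (nat_lit 6114) (nat_lit 332) (.e (nat_lit 1370) (nat_lit 103) (.e (nat_lit 294960) (nat_lit 13) (.e (nat_lit 393260) (nat_lit 21) (.e (nat_lit 409623) (nat_lit 10) (.e (nat_lit 5664) (nat_lit 312) (.e (nat_lit 7936) (nat_lit 0) .nil))))))) (.g (nat_lit 4) .nil .nil)))) (.nd (nat_lit 6) 
(.lf (nat_lit 117937) (.g (nat_lit 3948) (.e (nat_lit 6113) (nat_lit 332) (.e (nat_lit 1374) (nat_lit 104) (.e (nat_lit 303147) (nat_lit 15) (.e (nat_lit 1858) (nat_lit 124) (.e (nat_lit 557109) (nat_lit 15) (.e (nat_lit 188458) (nat_lit 25) (.e (nat_lit 245784) (nat_lit 9) (.e (nat_lit 1003) (nat_lit 81) .nil)))))))) (.g (nat_lit 5) .nil .nil))) 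
(.lf (nat_lit 118001) (.g (nat_lit 1999) (.e (nat_lit 6126) (nat_lit 332) (.e (nat_lit 1368) (nat_lit 103) (.e (nat_lit 294960) (nat_lit 13) (.e (nat_lit 393260) (nat_lit 21) (.e (nat_lit 409648) (nat_lit 18) .nil))))) .nil))))) (.nd (nat_lit 4) (.nd (nat_lit 5) (.nd (nat_lit 6) 
(.lf (nat_lit 117897) (.g (nat_lit 1703) (.e (nat_lit 6113) (nat_lit 332) (.e (nat_lit 1361) (nat_lit 102) (.e (nat_lit 286735) (nat_lit 3) (.e (nat_lit 98369) (nat_lit 28) (.e (nat_lit 442426) (nat_lit 23) .nil))))) .nil)) 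
(.lf (nat_lit 117961) (.g (nat_lit 3342) (.e (nat_lit 6114) (nat_lit 332) (.e (nat_lit 1370) (nat_lit 103) (.e (nat_lit 294926) (nat_lit 2) (.e (nat_lit 90176) (nat_lit 15) (.e (nat_lit 188450) (nat_lit 23) (.e (nat_lit 204821) (nat_lit 17) .nil)))))) (.g (nat_lit 0) .nil .nil)))) (.nd (nat_lit 6) 
(.lf (nat_lit 117929) (.g (nat_lit 2524) (.e (nat_lit 6113) (nat_lit 332) (.e (nat_lit 1370) (nat_lit 103) (.e (nat_lit 294960) (nat_lit 13) (.e (nat_lit 393260) (nat_lit 21) (.e (nat_lit 409646) (nat_lit 18) (.e (nat_lit 311040) (nat_lit 15) .nil)))))) (.g (nat_lit 5) .nil .nil))) 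
(.lf (nat_lit 117993) (.g (nat_lit 3130) (.e (nat_lit 6126) (nat_lit 332) (.e (nat_lit 1348) (nat_lit 102) (.e (nat_lit 286735) (nat_lit 3) (.e (nat_lit 98359) (nat_lit 26) (.e (nat_lit 426290) (nat_lit 10) .nil))))) .nil)))) (.nd (nat_lit 5) (.nd (nat_lit 6) 
(.lf (nat_lit 117913) (.g (nat_lit 2845) (.e (nat_lit 6113) (nat_lit 332) (.e (nat_lit 1361) (nat_lit 102) (.e (nat_lit 286761) (nat_lit 13) (.e (nat_lit 393265) (nat_lit 22) (.e (nat_lit 417820) (nat_lit 10) (.e (nat_lit 5626) (nat_lit 312) (.e (nat_lit 20) (nat_lit 0) .nil))))))) (.g (nat_lit 6) .nil .nil))) 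
(.lf (nat_lit 117977) (.g (nat_lit 3471) (.e (nat_lit 6114) (nat_lit 332) (.e (nat_lit 1376) (nat_lit 104) (.e (nat_lit 303147) (nat_lit 15) (.e (nat_lit 1858) (nat_lit 124) (.e (nat_lit 557109) (nat_lit 15) (.e (nat_lit 188458) (nat_lit 25) (.e (nat_lit 245784) (nat_lit 9) (.e (nat_lit 1023) (nat_lit 81) .nil)))))))) (.g (nat_lit 5) .nil .nil)))) (.nd (nat_lit 6) 
(.lf (nat_lit 117945) (.g (nat_lit 3085) (.e (nat_lit 6113) (nat_lit 332) (.e (nat_lit 2810) (nat_lit 180) (.e (nat_lit 303117) (nat_lit 2) (.e (nat_lit 196666) (nat_lit 13) (.e (nat_lit 65628) (nat_lit 14) .nil))))) .nil)) 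
(.lf (nat_lit 118009) (.g (nat_lit 1851) (.e (nat_lit 6134) (nat_lit 332) (.e (nat_lit 1348) (nat_lit 102) (.e (nat_lit 286743) (nat_lit 9) (.e (nat_lit 336369) (nat_lit 27) .nil)))) .nil)))))) (.nd (nat_lit 3) (.nd (nat_lit 4) (.nd (nat_lit 5) (.nd (nat_lit 6) 
(.lf (nat_lit 117893) (.g (nat_lit 2277) (.e (nat_lit 6113) (nat_lit 332) (.e (nat_lit 1361) (nat_lit 102) (.e (nat_lit 286735) (nat_lit 3) (.e (nat_lit 98356) (nat_lit 26) (.e (nat_lit 426272) (nat_lit 10) .nil))))) .nil)) 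
(.lf (nat_lit 117957) (.g (nat_lit 2043) (.e (nat_lit 6114) (nat_lit 332) (.e (nat_lit 1361) (nat_lit 102) (.e (nat_lit 286733) (nat_lit 2) (.e (nat_lit 90176) (nat_lit 15) (.e (nat_lit 188452) (nat_lit 23) .nil))))) .nil))) (.nd (nat_lit 6) 
(.lf (nat_lit 117925) (.g (nat_lit 2751) (.e (nat_lit 6113) (nat_lit 332) (.e (nat_lit 1370) (nat_lit 103) (.e (nat_lit 294960) (nat_lit 13) (.e (nat_lit 393238) (nat_lit 17) (.e (nat_lit 7101) (nat_lit 380) (.e (nat_lit 164353) (nat_lit 246) (.e (nat_lit 11) (nat_lit 0) .nil))))))) (.g (nat_lit 6) .nil .nil))) 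
(.lf (nat_lit 117989) (.g (nat_lit 1346) (.e (nat_lit 6126) (nat_lit 332) (.e (nat_lit 1348) (nat_lit 102) (.e (nat_lit 286733) (nat_lit 2) (.e (nat_lit 90177) (nat_lit 15) .nil)))) .nil)))) (.nd (nat_lit 5) (.nd (nat_lit 6) 
(.lf (nat_lit 117909) (.g (nat_lit 2244) (.e (nat_lit 6113) (nat_lit 332) (.e (nat_lit 1361) (nat_lit 102) (.e (nat_lit 286761) (nat_lit 13) (.e (nat_lit 393260) (nat_lit 21) (.e (nat_lit 409649) (nat_lit 18) (.e (nat_lit 311040) (nat_lit 15) .nil)))))) (.g (nat_lit 5) .nil .nil))) 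
(.lf (nat_lit 117973) (.g (nat_lit 1608) (.e (nat_lit 6114) (nat_lit 332) (.e (nat_lit 1374) (nat_lit 104) (.e (nat_lit 303119) (nat_lit 3) (.e (nat_lit 204821) (nat_lit 17) .nil)))) .nil))) (.nd (nat_lit 6) 
(.lf (nat_lit 117941) (.g (nat_lit 3076) (.e (nat_lit 6113) (nat_lit 332) (.e (nat_lit 1376) (nat_lit 104) (.e (nat_lit 303147) (nat_lit 15) (.e (nat_lit 2030) (nat_lit 140) (.e (nat_lit 688177) (nat_lit 16) (.e (nat_lit 65586) (nat_lit 7) (.e (nat_lit 319531) (nat_lit 16) (.e (nat_lit 286720) (nat_lit 0) .nil)))))))) (.g (nat_lit 4) .nil .nil))) 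
(.lf (nat_lit 118005) (.g (nat_lit 3644) (.e (nat_lit 6132) (nat_lit 332) (.e (nat_lit 1348) (nat_lit 102) (.e (nat_lit 286735) (nat_lit 3) (.e (nat_lit 98365) (nat_lit 26) (.e (nat_lit 426298) (nat_lit 11) .nil))))) .nil))))) (.nd (nat_lit 4) (.nd (nat_lit 5) (.nd (nat_lit 6) 
(.lf (nat_lit 117901) (.g (nat_lit 1968) (.e (nat_lit 6113) (nat_lit 332) (.e (nat_lit 1361) (nat_lit 102) (.e (nat_lit 286735) (nat_lit 3) (.e (nat_lit 98381) (nat_lit 31) (.e (nat_lit 466979) (nat_lit 23) .nil))))) .nil)) 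
(.lf (nat_lit 117965) (.g (nat_lit 3815) (.e (nat_lit 6114) (nat_lit 332) (.e (nat_lit 1370) (nat_lit 103) (.e (nat_lit 294960) (nat_lit 13) (.e (nat_lit 393238) (nat_lit 17) (.e (nat_lit 7101) (nat_lit 380) (.e (nat_lit 164353) (nat_lit 246) (.e (nat_lit 18) (nat_lit 0) .nil))))))) (.g (nat_lit 5) .nil .nil)))) (.nd (nat_lit 6) 
(.lf (nat_lit 117933) (.g (nat_lit 3472) (.e (nat_lit 6113) (nat_lit 332) (.e (nat_lit 1374) (nat_lit 104) (.e (nat_lit 303117) (nat_lit 2) (.e (nat_lit 196628) (nat_lit 9) (.e (nat_lit 968) (nat_lit 81) (.e (nat_lit 6721) (nat_lit 362) (.e (nat_lit 180244) (nat_lit 5) (.e (nat_lit 532486) (nat_lit 0) .nil)))))))) (.g (nat_lit 4) .nil .nil))) 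
(.lf (nat_lit 117997) (.g (nat_lit 659) (.e (nat_lit 6126) (nat_lit 332) (.e (nat_lit 1348) (nat_lit 102) (.e (nat_lit 286761) (nat_lit 13) .nil))) .nil)))) (.nd (nat_lit 5) (.nd (nat_lit 6) 
(.lf (nat_lit 117917) (.g (nat_lit 1391) (.e (nat_lit 6113) (nat_lit 332) (.e (nat_lit 1361) (nat_lit 102) (.e (nat_lit 286761) (nat_lit 13) (.e (nat_lit 393265) (nat_lit 22) (.e (nat_lit 425728) (nat_lit 10) .nil))))) .nil)) 
(.lf (nat_lit 117981) (.g (nat_lit 1670) (.e (nat_lit 6120) (nat_lit 332) (.e (nat_lit 1367) (nat_lit 103) (.e (nat_lit 294960) (nat_lit 13) (.e (nat_lit 393260) (nat_lit 21) (.e (nat_lit 409644) (nat_lit 18) .nil))))) .nil))) (.nd (nat_lit 6) 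
(.lf (nat_lit 117949) (.g (nat_lit 1132) (.e (nat_lit 6113) (nat_lit 332) (.e (nat_lit 2810) (nat_lit 180) (.e (nat_lit 303145) (nat_lit 13) (.e (nat_lit 483394) (nat_lit 24) .nil)))) .nil)) 
(.lf (nat_lit 118013) (.g (nat_lit 1263) (.e (nat_lit 6134) (nat_lit 332) (.e (nat_lit 1348) (nat_lit 102) (.e (nat_lit 286761) (nat_lit 13) (.e (nat_lit 393234) (nat_lit 17) .nil)))) .nil))))))) (.nd (nat_lit 2) (.nd (nat_lit 3) (.nd (nat_lit 4) (.nd (nat_lit 5) (.nd (nat_lit 6) 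
(.lf (nat_lit 117891) (.g (nat_lit 1055) (.e (nat_lit 6113) (nat_lit 332) (.e (nat_lit 1361) (nat_lit 102) (.e (nat_lit 286733) (nat_lit 2) (.e (nat_lit 90185) (nat_lit 17) .nil)))) .nil)) 
(.lf (nat_lit 117955) (.g (nat_lit 3572) (.e (nat_lit 6114) (nat_lit 332) (.e (nat_lit 1361) (nat_lit 102) (.e (nat_lit 286733) (nat_lit 2) (.e (nat_lit 90170) (nat_lit 13) (.e (nat_lit 172097) (nat_lit 9) .nil))))) .nil))) (.nd (nat_lit 6) 
(.lf (nat_lit 117923) (.g (nat_lit 1373) (.e (nat_lit 6113) (nat_lit 332) (.e (nat_lit 1370) (nat_lit 103) (.e (nat_lit 294958) (nat_lit 13) (.e (nat_lit 393281) (nat_lit 23) (.e (nat_lit 426100) (nat_lit 1) .nil))))) .nil)) 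
(.lf (nat_lit 117987) (.g (nat_lit 3230) (.e (nat_lit 6126) (nat_lit 332) (.e (nat_lit 1348) (nat_lit 102) (.e (nat_lit 286733) (nat_lit 2) (.e (nat_lit 90170) (nat_lit 13) (.e (nat_lit 172097) (nat_lit 9) .nil))))) .nil)))) (.nd (nat_lit 5) (.nd (nat_lit 6) 
(.lf (nat_lit 117907) (.g (nat_lit 1700) (.e (nat_lit 6113) (nat_lit 332) (.e (nat_lit 1361) (nat_lit 102) (.e (nat_lit 286761) (nat_lit 13) (.e (nat_lit 393260) (nat_lit 21) (.e (nat_lit 417536) (nat_lit 10) .nil))))) .nil)) 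
(.lf (nat_lit 117971) (.g (nat_lit 2389) (.e (nat_lit 6114) (nat_lit 332) (.e (nat_lit 1370) (nat_lit 103) (.e (nat_lit 294960) (nat_lit 13) (.e (nat_lit 393260) (nat_lit 21) (.e (nat_lit 409648) (nat_lit 18) (.e (nat_lit 311040) (nat_lit 15) .nil)))))) (.g (nat_lit 5) .nil .nil)))) (.nd (nat_lit 6) 
(.lf (nat_lit 117939) (.g (nat_lit 367) (.e (nat_lit 6113) (nat_lit 332) (.e (nat_lit 1374) (nat_lit 104) (.e (nat_lit 311040) (nat_lit 30) .nil))) .nil)) 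
(.lf (nat_lit 118003) (.g (nat_lit 1773) (.e (nat_lit 6131) (nat_lit 332) (.e (nat_lit 1348) (nat_lit 102) (.e (nat_lit 286735) (nat_lit 3) (.e (nat_lit 98364) (nat_lit 26) .nil)))) .nil))))) (.nd (nat_lit 4) (.nd (nat_lit 5) (.nd (nat_lit 6) 
(.lf (nat_lit 117899) (.g (nat_lit 3287) (.e (nat_lit 6113) (nat_lit 332) (.e (nat_lit 1361) (nat_lit 102) (.e (nat_lit 286735) (nat_lit 3) (.e (nat_lit 98373) (nat_lit 29) (.e (nat_lit 450579) (nat_lit 5) .nil))))) .nil)) 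
(.lf (nat_lit 117963) (.g (nat_lit 3330) (.e (nat_lit 6114) (nat_lit 332) (.e (nat_lit 1370) (nat_lit 103) (.e (nat_lit 294928) (nat_lit 2) (.e (nat_lit 90170) (nat_lit 13) (.e (nat_lit 172115) (nat_lit 10) (.e (nat_lit 434231) (nat_lit 23) (.e (nat_lit 532490) (nat_lit 0) .nil))))))) (.g (nat_lit 4) .nil .nil)))) (.nd (nat_lit 6) 
(.lf (nat_lit 117931) (.g (nat_lit 2975) (.e (nat_lit 6113) (nat_lit 332) (.e (nat_lit 1370) (nat_lit 103) (.e (nat_lit 294960) (nat_lit 13) (.e (nat_lit 393260) (nat_lit 21) (.e (nat_lit 409648) (nat_lit 18) (.e (nat_lit 311040) (nat_lit 15) .nil)))))) (.g (nat_lit 5) .nil .nil))) 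
(.lf (nat_lit 117995) (.g (nat_lit 1357) (.e (nat_lit 6126) (nat_lit 332) (.e (nat_lit 1348) (nat_lit 102) (.e (nat_lit 286735) (nat_lit 3) (.e (nat_lit 98370) (nat_lit 28) .nil)))) .nil)))) (.nd (nat_lit 5) (.nd (nat_lit 6) 
(.lf (nat_lit 117915) (.g (nat_lit 2913) (.e (nat_lit 6113) (nat_lit 332) (.e (nat_lit 1361) (nat_lit 102) (.e (nat_lit 286761) (nat_lit 13) (.e (nat_lit 393265) (nat_lit 22) (.e (nat_lit 417820) (nat_lit 10) (.e (nat_lit 5629) (nat_lit 312) (.e (nat_lit 11) (nat_lit 0) .nil))))))) (.g (nat_lit 0) .nil .nil))) 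
(.lf (nat_lit 117979) (.g (nat_lit 5237) (.e (nat_lit 6114) (nat_lit 332) (.e (nat_lit 1379) (nat_lit 104) (.e (nat_lit 303147) (nat_lit 15) (.e (nat_lit 1858) (nat_lit 124) (.e (nat_lit 557101) (nat_lit 13) (.e (nat_lit 172115) (nat_lit 10) (.e (nat_lit 434231) (nat_lit 23) (.e (nat_lit 532490) (nat_lit 0) .nil)))))))) (.g (nat_lit 0) .nil .nil)))) (.nd (nat_lit 6) 
(.lf (nat_lit 117947) (.g (nat_lit 1490) (.e (nat_lit 6113) (nat_lit 332) (.e (nat_lit 2810) (nat_lit 180) (.e (nat_lit 303145) (nat_lit 13) (.e (nat_lit 483377) (nat_lit 22) (.e (nat_lit 327680) (nat_lit 0) .nil))))) .nil)) 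
(.lf (nat_lit 118011) (.g (nat_lit 502) (.e (nat_lit 6134) (nat_lit 332) (.e (nat_lit 1348) (nat_lit 102) (.e (nat_lit 286761) (nat_lit 13) .nil))) .nil)))))) (.nd (nat_lit 3) (.nd (nat_lit 4) (.nd (nat_lit 5) (.nd (nat_lit 6) 
(.lf (nat_lit 117895) (.g (nat_lit 1197) (.e (nat_lit 6113) (nat_lit 332) (.e (nat_lit 1361) (nat_lit 102) (.e (nat_lit 286735) (nat_lit 3) (.e (nat_lit 98365) (nat_lit 26) .nil)))) .nil)) 
(.lf (nat_lit 117959) (.g (nat_lit 2468) (.e (nat_lit 6114) (nat_lit 332) (.e (nat_lit 1361) (nat_lit 102) (.e (nat_lit 286735) (nat_lit 3) (.e (nat_lit 98359) (nat_lit 26) (.e (nat_lit 426185) (nat_lit 9) .nil))))) .nil))) (.nd (nat_lit 6) 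
(.lf (nat_lit 117927) (.g (nat_lit 2385) (.e (nat_lit 6113) (nat_lit 332) (.e (nat_lit 1370) (nat_lit 103) (.e (nat_lit 294960) (nat_lit 13) (.e (nat_lit 393260) (nat_lit 21) (.e (nat_lit 409623) (nat_lit 10) (.e (nat_lit 5664) (nat_lit 312) (.e (nat_lit 7936) (nat_lit 0) .nil))))))) (.g (nat_lit 5) .nil .nil))) 
(.lf (nat_lit 117991) (.g (nat_lit 451) (.e (nat_lit 6126) (nat_lit 332) (.e (nat_lit 1348) (nat_lit 102) (.e (nat_lit 286735) (nat_lit 3) .nil))) .nil)))) (.nd (nat_lit 5) (.nd (nat_lit 6) 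
(.lf (nat_lit 117911) (.g (nat_lit 1720) (.e (nat_lit 6113) (nat_lit 332) (.e (nat_lit 1361) (nat_lit 102) (.e (nat_lit 286761) (nat_lit 13) (.e (nat_lit 393265) (nat_lit 22) (.e (nat_lit 417792) (nat_lit 0) (.e (nat_lit 67) (nat_lit 0) (.e (nat_lit 5949) (nat_lit 322) (.e (nat_lit 57350) (nat_lit 0) .nil)))))))) (.g (nat_lit 4) .nil .nil))) 
(.lf (nat_lit 117975) (.g (nat_lit 2452) (.e (nat_lit 6114) (nat_lit 332) (.e (nat_lit 1374) (nat_lit 104) (.e (nat_lit 303147) (nat_lit 15) (.e (nat_lit 1858) (nat_lit 124) (.e (nat_lit 557098) (nat_lit 13) .nil))))) .nil))) (.nd (nat_lit 6) 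
(.lf (nat_lit 117943) (.g (nat_lit 2158) (.e (nat_lit 6113) (nat_lit 332) (.e (nat_lit 1376) (nat_lit 104) (.e (nat_lit 303152) (nat_lit 27) (.e (nat_lit 336061) (nat_lit 7) (.e (nat_lit 319539) (nat_lit 19) (.e (nat_lit 311352) (nat_lit 27) (.e (nat_lit 335906) (nat_lit 0) .nil))))))) (.g (nat_lit 4) .nil .nil))) 
(.lf (nat_lit 118007) (.g (nat_lit 1368) (.e (nat_lit 6134) (nat_lit 332) (.e (nat_lit 1348) (nat_lit 102) (.e (nat_lit 286735) (nat_lit 3) (.e (nat_lit 98373) (nat_lit 29) .nil)))) .nil))))) (.nd (nat_lit 4) (.nd (nat_lit 5) (.nd (nat_lit 6) 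
(.lf (nat_lit 117903) (.g (nat_lit 1753) (.e (nat_lit 6113) (nat_lit 332) (.e (nat_lit 1361) (nat_lit 102) (.e (nat_lit 286759) (nat_lit 12) (.e (nat_lit 385107) (nat_lit 51) (.e (nat_lit 794675) (nat_lit 24) .nil))))) .nil)) 
(.lf (nat_lit 117967) (.g (nat_lit 2368) (.e (nat_lit 6114) (nat_lit 332) (.e (nat_lit 1370) (nat_lit 103) (.e (nat_lit 294960) (nat_lit 13) (.e (nat_lit 393260) (nat_lit 21) (.e (nat_lit 409623) (nat_lit 10) (.e (nat_lit 5660) (nat_lit 312) (.e (nat_lit 59) (nat_lit 0) .nil))))))) (.g (nat_lit 5) .nil .nil)))) (.nd (nat_lit 6) 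
(.lf (nat_lit 117935) (.g (nat_lit 3340) (.e (nat_lit 6113) (nat_lit 332) (.e (nat_lit 1374) (nat_lit 104) (.e (nat_lit 303117) (nat_lit 2) (.e (nat_lit 196628) (nat_lit 9) (.e (nat_lit 970) (nat_lit 81) (.e (nat_lit 6721) (nat_lit 362) (.e (nat_lit 180244) (nat_lit 5) (.e (nat_lit 532486) (nat_lit 0) .nil)))))))) (.g (nat_lit 4) .nil .nil))) 
(.lf (nat_lit 117999) (.g (nat_lit 2194) (.e (nat_lit 6126) (nat_lit 332) (.e (nat_lit 1348) (nat_lit 102) (.e (nat_lit 286761) (nat_lit 13) (.e (nat_lit 393263) (nat_lit 22) .nil)))) .nil)))) (.nd (nat_lit 5) (.nd (nat_lit 6) 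
(.lf (nat_lit 117919) (.g (nat_lit 1864) (.e (nat_lit 6113) (nat_lit 332) (.e (nat_lit 1361) (nat_lit 102) (.e (nat_lit 286761) (nat_lit 13) (.e (nat_lit 393270) (nat_lit 23) (.e (nat_lit 433920) (nat_lit 1) (.e (nat_lit 164399) (nat_lit 256) (.e (nat_lit 57350) (nat_lit 0) .nil))))))) (.g (nat_lit 4) .nil .nil))) 
(.lf (nat_lit 117983) (.g (nat_lit 546) (.e (nat_lit 6126) (nat_lit 332) (.e (nat_lit 1139) (nat_lit 84) (.e (nat_lit 32787) (nat_lit 9) (.e (nat_lit 65584) (nat_lit 7) .nil)))) .nil))) (.nd (nat_lit 6) 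
(.lf (nat_lit 117951) (.g (nat_lit 1815) (.e (nat_lit 6113) (nat_lit 332) (.e (nat_lit 2810) (nat_lit 180) (.e (nat_lit 303145) (nat_lit 13) (.e (nat_lit 483405) (nat_lit 26) (.e (nat_lit 385099) (nat_lit 49) (.e (nat_lit 778282) (nat_lit 0) (.e (nat_lit 1001) (nat_lit 81) .nil))))))) (.g (nat_lit 4) .nil .nil))) 
(.lf (nat_lit 118015) (.g (nat_lit 3350) (.e (nat_lit 6134) (nat_lit 332) (.e (nat_lit 1348) (nat_lit 102) (.e (nat_lit 286761) (nat_lit 13) (.e (nat_lit 393238) (nat_lit 17) (.e (nat_lit 6989) (nat_lit 377) .nil))))) .nil)))))))))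

noncomputable def tv1580 : DT := (.nd (nat_lit 0) (.nd (nat_lit 1) (.nd (nat_lit 2) (.nd (nat_lit 3) (.nd (nat_lit 4) (.nd (nat_lit 5) (.nd (nat_lit 6) 
(.lf (nat_lit 118016) (.g (nat_lit 1939) (.e (nat_lit 6134) (nat_lit 332) (.e (nat_lit 1348) (nat_lit 102) (.e (nat_lit 286761) (nat_lit 13) (.e (nat_lit 393259) (nat_lit 21) .nil)))) .nil)) 
(.lf (nat_lit 118080) (.g (nat_lit 1785) (.e (nat_lit 6146) (nat_lit 332) (.e (nat_lit 1368) (nat_lit 103) (.e (nat_lit 294931) (nat_lit 3) (.e (nat_lit 98372) (nat_lit 29) (.e (nat_lit 450579) (nat_lit 5) .nil))))) .nil))) (.nd (nat_lit 6) 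
(.lf (nat_lit 118048) (.g (nat_lit 2647) (.e (nat_lit 6135) (nat_lit 332) (.e (nat_lit 1348) (nat_lit 102) (.e (nat_lit 286733) (nat_lit 2) (.e (nat_lit 90178) (nat_lit 15) (.e (nat_lit 188450) (nat_lit 23) .nil))))) .nil)) 
(.lf (nat_lit 118112) (.g (nat_lit 1411) (.e (nat_lit 6149) (nat_lit 332) (.e (nat_lit 1349) (nat_lit 102) (.e (nat_lit 286733) (nat_lit 2) (.e (nat_lit 90176) (nat_lit 15) .nil)))) .nil)))) (.nd (nat_lit 5) (.nd (nat_lit 6) 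
(.lf (nat_lit 118032) (.g (nat_lit 3024) (.e (nat_lit 6134) (nat_lit 332) (.e (nat_lit 1349) (nat_lit 102) (.e (nat_lit 286761) (nat_lit 13) (.e (nat_lit 393234) (nat_lit 17) (.e (nat_lit 7073) (nat_lit 377) .nil))))) .nil)) 
(.lf (nat_lit 118096) (.g (nat_lit 2080) (.e (nat_lit 6148) (nat_lit 332) (.e (nat_lit 1348) (nat_lit 102) (.e (nat_lit 286733) (nat_lit 2) (.e (nat_lit 90177) (nat_lit 15) (.e (nat_lit 188452) (nat_lit 23) .nil))))) .nil))) (.nd (nat_lit 6) 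
(.lf (nat_lit 118064) (.g (nat_lit 2823) (.e (nat_lit 6136) (nat_lit 332) (.e (nat_lit 1349) (nat_lit 102) (.e (nat_lit 286735) (nat_lit 3) (.e (nat_lit 98359) (nat_lit 26) (.e (nat_lit 426216) (nat_lit 9) .nil))))) .nil)) 
(.lf (nat_lit 118128) (.g (nat_lit 1878) (.e (nat_lit 6177) (nat_lit 332) (.e (nat_lit 1353) (nat_lit 102) (.e (nat_lit 286735) (nat_lit 3) (.e (nat_lit 98381) (nat_lit 31) (.e (nat_lit 466977) (nat_lit 22) .nil))))) .nil))))) (.nd (nat_lit 4) (.nd (nat_lit 5) (.nd (nat_lit 6) 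
(.lf (nat_lit 118024) (.g (nat_lit 3548) (.e (nat_lit 6134) (nat_lit 332) (.e (nat_lit 1348) (nat_lit 102) (.e (nat_lit 286761) (nat_lit 13) (.e (nat_lit 393260) (nat_lit 21) (.e (nat_lit 409649) (nat_lit 18) .nil))))) .nil)) 
(.lf (nat_lit 118088) (.g (nat_lit 3463) (.e (nat_lit 6147) (nat_lit 332) (.e (nat_lit 1348) (nat_lit 102) (.e (nat_lit 286735) (nat_lit 3) (.e (nat_lit 98359) (nat_lit 26) (.e (nat_lit 426290) (nat_lit 10) .nil))))) .nil))) (.nd (nat_lit 6) 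
(.lf (nat_lit 118056) (.g (nat_lit 462) (.e (nat_lit 6136) (nat_lit 332) (.e (nat_lit 1348) (nat_lit 102) (.e (nat_lit 286735) (nat_lit 3) .nil))) .nil)) 
(.lf (nat_lit 118120) (.g (nat_lit 2568) (.e (nat_lit 6149) (nat_lit 332) (.e (nat_lit 1368) (nat_lit 103) (.e (nat_lit 294928) (nat_lit 2) (.e (nat_lit 90170) (nat_lit 13) (.e (nat_lit 172115) (nat_lit 10) .nil))))) .nil)))) (.nd (nat_lit 5) (.nd (nat_lit 6) 
(.lf (nat_lit 118040) (.g (nat_lit 3241) (.e (nat_lit 6134) (nat_lit 332) (.e (nat_lit 1349) (nat_lit 102) (.e (nat_lit 286761) (nat_lit 13) (.e (nat_lit 393260) (nat_lit 21) (.e (nat_lit 409648) (nat_lit 18) .nil))))) .nil)) 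
(.lf (nat_lit 118104) (.g (nat_lit 2172) (.e (nat_lit 6149) (nat_lit 332) (.e (nat_lit 1348) (nat_lit 102) (.e (nat_lit 286733) (nat_lit 2) (.e (nat_lit 90169) (nat_lit 13) (.e (nat_lit 172085) (nat_lit 9) .nil))))) .nil))) (.nd (nat_lit 6) 
(.lf (nat_lit 118072) (.g (nat_lit 3421) (.e (nat_lit 6146) (nat_lit 332) (.e (nat_lit 1348) (nat_lit 102) (.e (nat_lit 286735) (nat_lit 3) (.e (nat_lit 98359) (nat_lit 26) (.e (nat_lit 426211) (nat_lit 9) .nil))))) .nil)) 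
(.lf (nat_lit 118136) (.g (nat_lit 1769) (.e (nat_lit 6190) (nat_lit 332) (.e (nat_lit 1348) (nat_lit 102) (.e (nat_lit 286733) (nat_lit 2) (.e (nat_lit 90178) (nat_lit 15) .nil)))) .nil)))))) (.nd (nat_lit 3) (.nd (nat_lit 4) (.nd (nat_lit 5) (.nd (nat_lit 6) 
(.lf (nat_lit 118020) (.g (nat_lit 3777) (.e (nat_lit 6134) (nat_lit 332) (.e (nat_lit 1348) (nat_lit 102) (.e (nat_lit 286761) (nat_lit 13) (.e (nat_lit 393260) (nat_lit 21) (.e (nat_lit 409645) (nat_lit 18) .nil))))) .nil)) 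
(.lf (nat_lit 118084) (.g (nat_lit 1769) (.e (nat_lit 6147) (nat_lit 332) (.e (nat_lit 1348) (nat_lit 102) (.e (nat_lit 286733) (nat_lit 2) (.e (nat_lit 90178) (nat_lit 15) .nil)))) .nil))) (.nd (nat_lit 6) 
(.lf (nat_lit 118052) (.g (nat_lit 1838) (.e (nat_lit 6135) (nat_lit 332) (.e (nat_lit 1349) (nat_lit 102) (.e (nat_lit 286761) (nat_lit 13) (.e (nat_lit 393265) (nat_lit 22) .nil)))) .nil)) 
(.lf (nat_lit 118116) (.g (nat_lit 2535) (.e (nat_lit 6149) (nat_lit 332) (.e (nat_lit 1349) (nat_lit 102) (.e (nat_lit 286735) (nat_lit 3) (.e (nat_lit 98359) (nat_lit 26) (.e (nat_lit 426185) (nat_lit 9) .nil))))) .nil)))) (.nd (nat_lit 5) (.nd (nat_lit 6) 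
(.lf (nat_lit 118036) (.g (nat_lit 3110) (.e (nat_lit 6134) (nat_lit 332) (.e (nat_lit 1349) (nat_lit 102) (.e (nat_lit 286761) (nat_lit 13) (.e (nat_lit 393260) (nat_lit 21) (.e (nat_lit 409644) (nat_lit 18) .nil))))) .nil)) 
(.lf (nat_lit 118100) (.g (nat_lit 2926) (.e (nat_lit 6148) (nat_lit 332) (.e (nat_lit 1348) (nat_lit 102) (.e (nat_lit 286735) (nat_lit 3) (.e (nat_lit 98370) (nat_lit 28) (.e (nat_lit 442427) (nat_lit 23) .nil))))) .nil))) (.nd (nat_lit 6) 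
(.lf (nat_lit 118068) (.g (nat_lit 785) (.e (nat_lit 6146) (nat_lit 332) (.e (nat_lit 1348) (nat_lit 102) (.e (nat_lit 286733) (nat_lit 2) .nil))) .nil)) 
(.lf (nat_lit 118132) (.g (nat_lit 1881) (.e (nat_lit 6188) (nat_lit 332) (.e (nat_lit 1348) (nat_lit 102) (.e (nat_lit 286735) (nat_lit 3) (.e (nat_lit 98382) (nat_lit 31) .nil)))) .nil))))) (.nd (nat_lit 4) (.nd (nat_lit 5) (.nd (nat_lit 6) 
(.lf (nat_lit 118028) (.g (nat_lit 3024) (.e (nat_lit 6134) (nat_lit 332) (.e (nat_lit 1348) (nat_lit 102) (.e (nat_lit 286761) (nat_lit 13) (.e (nat_lit 393265) (nat_lit 22) (.e (nat_lit 417829) (nat_lit 18) .nil))))) .nil)) 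
(.lf (nat_lit 118092) (.g (nat_lit 1381) (.e (nat_lit 6147) (nat_lit 332) (.e (nat_lit 1348) (nat_lit 102) (.e (nat_lit 286735) (nat_lit 3) (.e (nat_lit 98373) (nat_lit 29) .nil)))) .nil))) (.nd (nat_lit 6) 
(.lf (nat_lit 118060) (.g (nat_lit 5140) (.e (nat_lit 6136) (nat_lit 332) (.e (nat_lit 1349) (nat_lit 102) (.e (nat_lit 286733) (nat_lit 2) (.e (nat_lit 90170) (nat_lit 13) (.e (nat_lit 172106) (nat_lit 10) (.e (nat_lit 434231) (nat_lit 23) (.e (nat_lit 532490) (nat_lit 0) .nil))))))) (.g (nat_lit 7) .nil .nil))) 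
(.lf (nat_lit 118124) (.g (nat_lit 959) (.e (nat_lit 6157) (nat_lit 332) (.e (nat_lit 1355) (nat_lit 102) (.e (nat_lit 286735) (nat_lit 3) (.e (nat_lit 98373) (nat_lit 29) .nil)))) .nil)))) (.nd (nat_lit 5) (.nd (nat_lit 6) 
(.lf (nat_lit 118044) (.g (nat_lit 2897) (.e (nat_lit 6134) (nat_lit 332) (.e (nat_lit 1349) (nat_lit 102) (.e (nat_lit 286761) (nat_lit 13) (.e (nat_lit 393265) (nat_lit 22) (.e (nat_lit 417829) (nat_lit 18) .nil))))) .nil)) 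
(.lf (nat_lit 118108) (.g (nat_lit 812) (.e (nat_lit 6149) (nat_lit 332) (.e (nat_lit 1348) (nat_lit 102) (.e (nat_lit 286735) (nat_lit 3) .nil))) .nil))) (.nd (nat_lit 6) 
(.lf (nat_lit 118076) (.g (nat_lit 3174) (.e (nat_lit 6146) (nat_lit 332) (.e (nat_lit 1348) (nat_lit 102) (.e (nat_lit 286735) (nat_lit 3) (.e (nat_lit 98370) (nat_lit 28) (.e (nat_lit 442424) (nat_lit 22) .nil))))) .nil)) 
(.lf (nat_lit 118140) (.g (nat_lit 3371) (.e (nat_lit 6190) (nat_lit 332) (.e (nat_lit 1348) (nat_lit 102) (.e (nat_lit 286735) (nat_lit 3) (.e (nat_lit 98365) (nat_lit 26) (.e (nat_lit 426297) (nat_lit 11) .nil))))) .nil))))))) (.nd (nat_lit 2) (.nd (nat_lit 3) (.nd (nat_lit 4) (.nd (nat_lit 5) (.nd (nat_lit 6) 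
(.lf (nat_lit 118018) (.g (nat_lit 3757) (.e (nat_lit 6134) (nat_lit 332) (.e (nat_lit 1348) (nat_lit 102) (.e (nat_lit 286761) (nat_lit 13) (.e (nat_lit 393260) (nat_lit 21) (.e (nat_lit 409643) (nat_lit 18) .nil))))) .nil)) 
(.lf (nat_lit 118082) (.g (nat_lit 2150) (.e (nat_lit 6147) (nat_lit 332) (.e (nat_lit 1348) (nat_lit 102) (.e (nat_lit 286733) (nat_lit 2) (.e (nat_lit 90170) (nat_lit 13) .nil)))) .nil))) (.nd (nat_lit 6) 
(.lf (nat_lit 118050) (.g (nat_lit 1380) (.e (nat_lit 6135) (nat_lit 332) (.e (nat_lit 1348) (nat_lit 102) (.e (nat_lit 286735) (nat_lit 3) (.e (nat_lit 98373) (nat_lit 29) .nil)))) .nil)) 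
(.lf (nat_lit 118114) (.g (nat_lit 1944) (.e (nat_lit 6149) (nat_lit 332) (.e (nat_lit 1349) (nat_lit 102) (.e (nat_lit 286733) (nat_lit 2) (.e (nat_lit 90178) (nat_lit 15) (.e (nat_lit 188450) (nat_lit 23) .nil))))) .nil)))) (.nd (nat_lit 5) (.nd (nat_lit 6) 
(.lf (nat_lit 118034) (.g (nat_lit 1829) (.e (nat_lit 6134) (nat_lit 332) (.e (nat_lit 1349) (nat_lit 102) (.e (nat_lit 286761) (nat_lit 13) (.e (nat_lit 393259) (nat_lit 21) .nil)))) .nil)) 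
(.lf (nat_lit 118098) (.g (nat_lit 2811) (.e (nat_lit 6148) (nat_lit 332) (.e (nat_lit 1348) (nat_lit 102) (.e (nat_lit 286733) (nat_lit 2) (.e (nat_lit 90178) (nat_lit 15) (.e (nat_lit 188458) (nat_lit 25) .nil))))) .nil))) (.nd (nat_lit 6) 
(.lf (nat_lit 118066) (.g (nat_lit 1468) (.e (nat_lit 6136) (nat_lit 332) (.e (nat_lit 1368) (nat_lit 103) (.e (nat_lit 294927) (nat_lit 2) (.e (nat_lit 90176) (nat_lit 15) (.e (nat_lit 188450) (nat_lit 23) .nil))))) .nil)) 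
(.lf (nat_lit 118130) (.g (nat_lit 812) (.e (nat_lit 6188) (nat_lit 332) (.e (nat_lit 1348) (nat_lit 102) (.e (nat_lit 286735) (nat_lit 3) .nil))) .nil))))) (.nd (nat_lit 4) (.nd (nat_lit 5) (.nd (nat_lit 6) 
(.lf (nat_lit 118026) (.g (nat_lit 2097) (.e (nat_lit 6134) (nat_lit 332) (.e (nat_lit 1348) (nat_lit 102) (.e (nat_lit 286761) (nat_lit 13) (.e (nat_lit 393263) (nat_lit 22) .nil)))) .nil)) 
(.lf (nat_lit 118090) (.g (nat_lit 2926) (.e (nat_lit 6147) (nat_lit 332) (.e (nat_lit 1348) (nat_lit 102) (.e (nat_lit 286735) (nat_lit 3) (.e (nat_lit 98370) (nat_lit 28) (.e (nat_lit 442427) (nat_lit 23) .nil))))) .nil))) (.nd (nat_lit 6) 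
(.lf (nat_lit 118058) (.g (nat_lit 1423) (.e (nat_lit 6136) (nat_lit 332) (.e (nat_lit 1349) (nat_lit 102) (.e (nat_lit 286733) (nat_lit 2) (.e (nat_lit 90169) (nat_lit 13) .nil)))) .nil)) 
(.lf (nat_lit 118122) (.g (nat_lit 2092) (.e (nat_lit 6152) (nat_lit 332) (.e (nat_lit 1362) (nat_lit 102) (.e (nat_lit 286733) (nat_lit 2) (.e (nat_lit 90177) (nat_lit 15) (.e (nat_lit 188452) (nat_lit 23) .nil))))) .nil)))) (.nd (nat_lit 5) (.nd (nat_lit 6) 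
(.lf (nat_lit 118042) (.g (nat_lit 1841) (.e (nat_lit 6134) (nat_lit 332) (.e (nat_lit 1349) (nat_lit 102) (.e (nat_lit 286761) (nat_lit 13) (.e (nat_lit 393264) (nat_lit 22) .nil)))) .nil)) 
(.lf (nat_lit 118106) (.g (nat_lit 2647) (.e (nat_lit 6149) (nat_lit 332) (.e (nat_lit 1348) (nat_lit 102) (.e (nat_lit 286733) (nat_lit 2) (.e (nat_lit 90178) (nat_lit 15) (.e (nat_lit 188450) (nat_lit 23) .nil))))) .nil))) (.nd (nat_lit 6) 
(.lf (nat_lit 118074) (.g (nat_lit 3640) (.e (nat_lit 6146) (nat_lit 332) (.e (nat_lit 1348) (nat_lit 102) (.e (nat_lit 286735) (nat_lit 3) (.e (nat_lit 98365) (nat_lit 26) (.e (nat_lit 426298) (nat_lit 11) .nil))))) .nil)) 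
(.lf (nat_lit 118138) (.g (nat_lit 1835) (.e (nat_lit 6190) (nat_lit 332) (.e (nat_lit 1348) (nat_lit 102) (.e (nat_lit 286735) (nat_lit 3) (.e (nat_lit 98364) (nat_lit 26) .nil)))) .nil)))))) (.nd (nat_lit 3) (.nd (nat_lit 4) (.nd (nat_lit 5) (.nd (nat_lit 6) 
(.lf (nat_lit 118022) (.g (nat_lit 3599) (.e (nat_lit 6134) (nat_lit 332) (.e (nat_lit 1348) (nat_lit 102) (.e (nat_lit 286761) (nat_lit 13) (.e (nat_lit 393260) (nat_lit 21) (.e (nat_lit 409647) (nat_lit 18) .nil))))) .nil)) 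
(.lf (nat_lit 118086) (.g (nat_lit 2590) (.e (nat_lit 6147) (nat_lit 332) (.e (nat_lit 1348) (nat_lit 102) (.e (nat_lit 286733) (nat_lit 2) (.e (nat_lit 90178) (nat_lit 15) (.e (nat_lit 188452) (nat_lit 23) .nil))))) .nil))) (.nd (nat_lit 6) 
(.lf (nat_lit 118054) (.g (nat_lit 1561) (.e (nat_lit 6136) (nat_lit 332) (.e (nat_lit 1348) (nat_lit 102) (.e (nat_lit 286733) (nat_lit 2) (.e (nat_lit 90168) (nat_lit 13) .nil)))) .nil)) 
(.lf (nat_lit 118118) (.g (nat_lit 3505) (.e (nat_lit 6149) (nat_lit 332) (.e (nat_lit 1355) (nat_lit 102) (.e (nat_lit 286733) (nat_lit 2) (.e (nat_lit 90170) (nat_lit 13) (.e (nat_lit 172113) (nat_lit 10) .nil))))) .nil)))) (.nd (nat_lit 5) (.nd (nat_lit 6) 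
(.lf (nat_lit 118038) (.g (nat_lit 2674) (.e (nat_lit 6134) (nat_lit 332) (.e (nat_lit 1349) (nat_lit 102) (.e (nat_lit 286761) (nat_lit 13) (.e (nat_lit 393260) (nat_lit 21) (.e (nat_lit 409646) (nat_lit 18) .nil))))) .nil)) 
(.lf (nat_lit 118102) (.g (nat_lit 2278) (.e (nat_lit 6148) (nat_lit 332) (.e (nat_lit 1348) (nat_lit 102) (.e (nat_lit 286735) (nat_lit 3) (.e (nat_lit 98372) (nat_lit 29) .nil)))) .nil))) (.nd (nat_lit 6) 
(.lf (nat_lit 118070) (.g (nat_lit 1746) (.e (nat_lit 6146) (nat_lit 332) (.e (nat_lit 1348) (nat_lit 102) (.e (nat_lit 286733) (nat_lit 2) (.e (nat_lit 90177) (nat_lit 15) .nil)))) .nil)) 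
(.lf (nat_lit 118134) (.g (nat_lit 2150) (.e (nat_lit 6190) (nat_lit 332) (.e (nat_lit 1348) (nat_lit 102) (.e (nat_lit 286733) (nat_lit 2) (.e (nat_lit 90170) (nat_lit 13) .nil)))) .nil))))) (.nd (nat_lit 4) (.nd (nat_lit 5) (.nd (nat_lit 6) 
(.lf (nat_lit 118030) (.g (nat_lit 1835) (.e (nat_lit 6134) (nat_lit 332) (.e (nat_lit 1349) (nat_lit 102) (.e (nat_lit 286748) (nat_lit 9) (.e (nat_lit 336389) (nat_lit 27) (.e (nat_lit 426182) (nat_lit 8) .nil))))) .nil)) 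
(.lf (nat_lit 118094) (.g (nat_lit 2054) (.e (nat_lit 6148) (nat_lit 332) (.e (nat_lit 1348) (nat_lit 102) (.e (nat_lit 286733) (nat_lit 2) (.e (nat_lit 90176) (nat_lit 15) (.e (nat_lit 188450) (nat_lit 23) .nil))))) .nil))) (.nd (nat_lit 6) 
(.lf (nat_lit 118062) (.g (nat_lit 2415) (.e (nat_lit 6136) (nat_lit 332) (.e (nat_lit 1349) (nat_lit 102) (.e (nat_lit 286733) (nat_lit 2) (.e (nat_lit 90177) (nat_lit 15) (.e (nat_lit 188450) (nat_lit 23) .nil))))) .nil)) 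
(.lf (nat_lit 118126) (.g (nat_lit 2427) (.e (nat_lit 6177) (nat_lit 332) (.e (nat_lit 1353) (nat_lit 102) (.e (nat_lit 286735) (nat_lit 3) (.e (nat_lit 98370) (nat_lit 28) (.e (nat_lit 442427) (nat_lit 23) .nil))))) .nil)))) (.nd (nat_lit 5) (.nd (nat_lit 6) 
(.lf (nat_lit 118046) (.g (nat_lit 3115) (.e (nat_lit 6135) (nat_lit 332) (.e (nat_lit 1348) (nat_lit 102) (.e (nat_lit 286733) (nat_lit 2) (.e (nat_lit 90170) (nat_lit 13) (.e (nat_lit 172106) (nat_lit 10) .nil))))) .nil)) 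
(.lf (nat_lit 118110) (.g (nat_lit 2048) (.e (nat_lit 6149) (nat_lit 332) (.e (nat_lit 1348) (nat_lit 102) (.e (nat_lit 286735) (nat_lit 3) (.e (nat_lit 98374) (nat_lit 29) .nil)))) .nil))) (.nd (nat_lit 6) 
(.lf (nat_lit 118078) (.g (nat_lit 2044) (.e (nat_lit 6146) (nat_lit 332) (.e (nat_lit 1348) (nat_lit 102) (.e (nat_lit 286735) (nat_lit 3) (.e (nat_lit 98374) (nat_lit 29) .nil)))) .nil)) 
(.lf (nat_lit 118142) (.g (nat_lit 1985) (.e (nat_lit 6190) (nat_lit 332) (.e (nat_lit 1348) (nat_lit 102) (.e (nat_lit 286735) (nat_lit 3) (.e (nat_lit 98371) (nat_lit 28) .nil)))) .nil)))))))) (.nd (nat_lit 1) (.nd (nat_lit 2) (.nd (nat_lit 3) (.nd (nat_lit 4) (.nd (nat_lit 5) (.nd (nat_lit 6) 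
(.lf (nat_lit 118017) (.g (nat_lit 1813) (.e (nat_lit 6134) (nat_lit 332) (.e (nat_lit 1348) (nat_lit 102) (.e (nat_lit 286761) (nat_lit 13) (.e (nat_lit 393260) (nat_lit 21) .nil)))) .nil)) 
(.lf (nat_lit 118081) (.g (nat_lit 2183) (.e (nat_lit 6147) (nat_lit 332) (.e (nat_lit 1348) (nat_lit 102) (.e (nat_lit 286733) (nat_lit 2) (.e (nat_lit 90169) (nat_lit 13) (.e (nat_lit 172115) (nat_lit 10) .nil))))) .nil))) (.nd (nat_lit 6) 
(.lf (nat_lit 118049) (.g (nat_lit 810) (.e (nat_lit 6135) (nat_lit 332) (.e (nat_lit 1348) (nat_lit 102) (.e (nat_lit 286735) (nat_lit 3) .nil))) .nil)) 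
(.lf (nat_lit 118113) (.g (nat_lit 2557) (.e (nat_lit 6149) (nat_lit 332) (.e (nat_lit 1349) (nat_lit 102) (.e (nat_lit 286733) (nat_lit 2) (.e (nat_lit 90176) (nat_lit 15) (.e (nat_lit 188450) (nat_lit 23) .nil))))) .nil)))) (.nd (nat_lit 5) (.nd (nat_lit 6) 
(.lf (nat_lit 118033) (.g (nat_lit 1947) (.e (nat_lit 6134) (nat_lit 332) (.e (nat_lit 1349) (nat_lit 102) (.e (nat_lit 286761) (nat_lit 13) (.e (nat_lit 393238) (nat_lit 17) .nil)))) .nil)) 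
(.lf (nat_lit 118097) (.g (nat_lit 1769) (.e (nat_lit 6148) (nat_lit 332) (.e (nat_lit 1348) (nat_lit 102) (.e (nat_lit 286733) (nat_lit 2) (.e (nat_lit 90178) (nat_lit 15) .nil)))) .nil))) (.nd (nat_lit 6) 
(.lf (nat_lit 118065) (.g (nat_lit 2370) (.e (nat_lit 6136) (nat_lit 332) (.e (nat_lit 1349) (nat_lit 102) (.e (nat_lit 286735) (nat_lit 3) (.e (nat_lit 98370) (nat_lit 28) (.e (nat_lit 442425) (nat_lit 23) .nil))))) .nil)) 
(.lf (nat_lit 118129) (.g (nat_lit 1769) (.e (nat_lit 6188) (nat_lit 332) (.e (nat_lit 1348) (nat_lit 102) (.e (nat_lit 286733) (nat_lit 2) (.e (nat_lit 90178) (nat_lit 15) .nil)))) .nil))))) (.nd (nat_lit 4) (.nd (nat_lit 5) (.nd (nat_lit 6) 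
(.lf (nat_lit 118025) (.g (nat_lit 1871) (.e (nat_lit 6134) (nat_lit 332) (.e (nat_lit 1348) (nat_lit 102) (.e (nat_lit 286761) (nat_lit 13) (.e (nat_lit 393262) (nat_lit 22) .nil)))) .nil)) 
(.lf (nat_lit 118089) (.g (nat_lit 3291) (.e (nat_lit 6147) (nat_lit 332) (.e (nat_lit 1348) (nat_lit 102) (.e (nat_lit 286735) (nat_lit 3) (.e (nat_lit 98369) (nat_lit 28) (.e (nat_lit 442427) (nat_lit 23) .nil))))) .nil))) (.nd (nat_lit 6) 
(.lf (nat_lit 118057) (.g (nat_lit 2663) (.e (nat_lit 6136) (nat_lit 332) (.e (nat_lit 1348) (nat_lit 102) (.e (nat_lit 286735) (nat_lit 3) (.e (nat_lit 98359) (nat_lit 26) (.e (nat_lit 426185) (nat_lit 9) .nil))))) .nil)) 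
(.lf (nat_lit 118121) (.g (nat_lit 812) (.e (nat_lit 6150) (nat_lit 332) (.e (nat_lit 1348) (nat_lit 102) (.e (nat_lit 286735) (nat_lit 3) .nil))) .nil)))) (.nd (nat_lit 5) (.nd (nat_lit 6) 
(.lf (nat_lit 118041) (.g (nat_lit 2152) (.e (nat_lit 6134) (nat_lit 332) (.e (nat_lit 1349) (nat_lit 102) (.e (nat_lit 286761) (nat_lit 13) (.e (nat_lit 393263) (nat_lit 22) .nil)))) .nil)) 
(.lf (nat_lit 118105) (.g (nat_lit 3559) (.e (nat_lit 6149) (nat_lit 332) (.e (nat_lit 1348) (nat_lit 102) (.e (nat_lit 286733) (nat_lit 2) (.e (nat_lit 90170) (nat_lit 13) (.e (nat_lit 172097) (nat_lit 9) .nil))))) .nil))) (.nd (nat_lit 6) 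
(.lf (nat_lit 118073) (.g (nat_lit 1831) (.e (nat_lit 6146) (nat_lit 332) (.e (nat_lit 1348) (nat_lit 102) (.e (nat_lit 286735) (nat_lit 3) (.e (nat_lit 98364) (nat_lit 26) .nil)))) .nil)) 
(.lf (nat_lit 118137) (.g (nat_lit 812) (.e (nat_lit 6190) (nat_lit 332) (.e (nat_lit 1348) (nat_lit 102) (.e (nat_lit 286735) (nat_lit 3) .nil))) .nil)))))) (.nd (nat_lit 3) (.nd (nat_lit 4) (.nd (nat_lit 5) (.nd (nat_lit 6) 
(.lf (nat_lit 118021) (.g (nat_lit 3170) (.e (nat_lit 6134) (nat_lit 332) (.e (nat_lit 1348) (nat_lit 102) (.e (nat_lit 286761) (nat_lit 13) (.e (nat_lit 393260) (nat_lit 21) (.e (nat_lit 409646) (nat_lit 18) .nil))))) .nil)) 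
(.lf (nat_lit 118085) (.g (nat_lit 2647) (.e (nat_lit 6147) (nat_lit 332) (.e (nat_lit 1348) (nat_lit 102) (.e (nat_lit 286733) (nat_lit 2) (.e (nat_lit 90178) (nat_lit 15) (.e (nat_lit 188450) (nat_lit 23) .nil))))) .nil))) (.nd (nat_lit 6) 
(.lf (nat_lit 118053) (.g (nat_lit 1146) (.e (nat_lit 6136) (nat_lit 332) (.e (nat_lit 1347) (nat_lit 102) (.e (nat_lit 286735) (nat_lit 3) (.e (nat_lit 98369) (nat_lit 28) .nil)))) .nil)) 
(.lf (nat_lit 118117) (.g (nat_lit 1963) (.e (nat_lit 6149) (nat_lit 332) (.e (nat_lit 1349) (nat_lit 102) (.e (nat_lit 286735) (nat_lit 3) (.e (nat_lit 98371) (nat_lit 28) (.e (nat_lit 442427) (nat_lit 23) .nil))))) .nil)))) (.nd (nat_lit 5) (.nd (nat_lit 6) 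
(.lf (nat_lit 118037) (.g (nat_lit 3352) (.e (nat_lit 6134) (nat_lit 332) (.e (nat_lit 1349) (nat_lit 102) (.e (nat_lit 286761) (nat_lit 13) (.e (nat_lit 393260) (nat_lit 21) (.e (nat_lit 409645) (nat_lit 18) .nil))))) .nil)) 
(.lf (nat_lit 118101) (.g (nat_lit 1985) (.e (nat_lit 6148) (nat_lit 332) (.e (nat_lit 1348) (nat_lit 102) (.e (nat_lit 286735) (nat_lit 3) (.e (nat_lit 98371) (nat_lit 28) .nil)))) .nil))) (.nd (nat_lit 6) 
(.lf (nat_lit 118069) (.g (nat_lit 1661) (.e (nat_lit 6146) (nat_lit 332) (.e (nat_lit 1348) (nat_lit 102) (.e (nat_lit 286733) (nat_lit 2) (.e (nat_lit 90176) (nat_lit 15) .nil)))) .nil)) 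
(.lf (nat_lit 118133) (.g (nat_lit 1863) (.e (nat_lit 6188) (nat_lit 332) (.e (nat_lit 1348) (nat_lit 102) (.e (nat_lit 286761) (nat_lit 13) (.e (nat_lit 393265) (nat_lit 22) .nil)))) .nil))))) (.nd (nat_lit 4) (.nd (nat_lit 5) (.nd (nat_lit 6) 
(.lf (nat_lit 118029) (.g (nat_lit 1715) (.e (nat_lit 6134) (nat_lit 332) (.e (nat_lit 1349) (nat_lit 102) (.e (nat_lit 286748) (nat_lit 9) (.e (nat_lit 336389) (nat_lit 27) (.e (nat_lit 426181) (nat_lit 8) .nil))))) .nil)) 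
(.lf (nat_lit 118093) (.g (nat_lit 3490) (.e (nat_lit 6148) (nat_lit 332) (.e (nat_lit 1348) (nat_lit 102) (.e (nat_lit 286733) (nat_lit 2) (.e (nat_lit 90170) (nat_lit 13) (.e (nat_lit 172115) (nat_lit 10) .nil))))) .nil))) (.nd (nat_lit 6) 
(.lf (nat_lit 118061) (.g (nat_lit 2291) (.e (nat_lit 6136) (nat_lit 332) (.e (nat_lit 1349) (nat_lit 102) (.e (nat_lit 286733) (nat_lit 2) (.e (nat_lit 90176) (nat_lit 15) (.e (nat_lit 188452) (nat_lit 23) .nil))))) .nil)) 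
(.lf (nat_lit 118125) (.g (nat_lit 2180) (.e (nat_lit 6169) (nat_lit 332) (.e (nat_lit 1346) (nat_lit 102) (.e (nat_lit 286735) (nat_lit 3) (.e (nat_lit 98372) (nat_lit 29) (.e (nat_lit 450579) (nat_lit 5) .nil))))) .nil)))) (.nd (nat_lit 5) (.nd (nat_lit 6) 
(.lf (nat_lit 118045) (.g (nat_lit 785) (.e (nat_lit 6135) (nat_lit 332) (.e (nat_lit 1348) (nat_lit 102) (.e (nat_lit 286733) (nat_lit 2) .nil))) .nil)) 
(.lf (nat_lit 118109) (.g (nat_lit 2985) (.e (nat_lit 6149) (nat_lit 332) (.e (nat_lit 1348) (nat_lit 102) (.e (nat_lit 286735) (nat_lit 3) (.e (nat_lit 98359) (nat_lit 26) (.e (nat_lit 426185) (nat_lit 9) .nil))))) .nil))) (.nd (nat_lit 6) 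
(.lf (nat_lit 118077) (.g (nat_lit 2923) (.e (nat_lit 6146) (nat_lit 332) (.e (nat_lit 1348) (nat_lit 102) (.e (nat_lit 286735) (nat_lit 3) (.e (nat_lit 98370) (nat_lit 28) (.e (nat_lit 442427) (nat_lit 23) .nil))))) .nil)) 
(.lf (nat_lit 118141) (.g (nat_lit 3644) (.e (nat_lit 6190) (nat_lit 332) (.e (nat_lit 1348) (nat_lit 102) (.e (nat_lit 286735) (nat_lit 3) (.e (nat_lit 98365) (nat_lit 26) (.e (nat_lit 426298) (nat_lit 11) .nil))))) .nil))))))) (.nd (nat_lit 2) (.nd (nat_lit 3) (.nd (nat_lit 4) (.nd (nat_lit 5) (.nd (nat_lit 6) 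
(.lf (nat_lit 118019) (.g (nat_lit 3549) (.e (nat_lit 6134) (nat_lit 332) (.e (nat_lit 1348) (nat_lit 102) (.e (nat_lit 286761) (nat_lit 13) (.e (nat_lit 393260) (nat_lit 21) (.e (nat_lit 409644) (nat_lit 18) .nil))))) .nil)) 
(.lf (nat_lit 118083) (.g (nat_lit 2258) (.e (nat_lit 6147) (nat_lit 332) (.e (nat_lit 1348) (nat_lit 102) (.e (nat_lit 286733) (nat_lit 2) (.e (nat_lit 90176) (nat_lit 15) (.e (nat_lit 188452) (nat_lit 23) .nil))))) .nil))) (.nd (nat_lit 6) 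
(.lf (nat_lit 118051) (.g (nat_lit 1261) (.e (nat_lit 6135) (nat_lit 332) (.e (nat_lit 1349) (nat_lit 102) (.e (nat_lit 286733) (nat_lit 2) (.e (nat_lit 90178) (nat_lit 15) .nil)))) .nil)) 
(.lf (nat_lit 118115) (.g (nat_lit 1881) (.e (nat_lit 6149) (nat_lit 332) (.e (nat_lit 1349) (nat_lit 102) (.e (nat_lit 286733) (nat_lit 2) (.e (nat_lit 90178) (nat_lit 15) (.e (nat_lit 188451) (nat_lit 23) .nil))))) .nil)))) (.nd (nat_lit 5) (.nd (nat_lit 6) 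
(.lf (nat_lit 118035) (.g (nat_lit 3248) (.e (nat_lit 6134) (nat_lit 332) (.e (nat_lit 1349) (nat_lit 102) (.e (nat_lit 286761) (nat_lit 13) (.e (nat_lit 393260) (nat_lit 21) (.e (nat_lit 409643) (nat_lit 18) .nil))))) .nil)) 
(.lf (nat_lit 118099) (.g (nat_lit 3291) (.e (nat_lit 6148) (nat_lit 332) (.e (nat_lit 1348) (nat_lit 102) (.e (nat_lit 286735) (nat_lit 3) (.e (nat_lit 98369) (nat_lit 28) (.e (nat_lit 442427) (nat_lit 23) .nil))))) .nil))) (.nd (nat_lit 6) 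
(.lf (nat_lit 118067) (.g (nat_lit 4752) (.e (nat_lit 6136) (nat_lit 332) (.e (nat_lit 1368) (nat_lit 103) (.e (nat_lit 294928) (nat_lit 2) (.e (nat_lit 90170) (nat_lit 13) (.e (nat_lit 172106) (nat_lit 10) (.e (nat_lit 434231) (nat_lit 23) (.e (nat_lit 532490) (nat_lit 0) .nil))))))) (.g (nat_lit 7) .nil .nil))) 
(.lf (nat_lit 118131) (.g (nat_lit 1985) (.e (nat_lit 6188) (nat_lit 332) (.e (nat_lit 1348) (nat_lit 102) (.e (nat_lit 286735) (nat_lit 3) (.e (nat_lit 98371) (nat_lit 28) .nil)))) .nil))))) (.nd (nat_lit 4) (.nd (nat_lit 5) (.nd (nat_lit 6) 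
(.lf (nat_lit 118027) (.g (nat_lit 2365) (.e (nat_lit 6134) (nat_lit 332) (.e (nat_lit 1348) (nat_lit 102) (.e (nat_lit 286761) (nat_lit 13) (.e (nat_lit 393264) (nat_lit 22) (.e (nat_lit 417829) (nat_lit 18) .nil))))) .nil)) 
(.lf (nat_lit 118091) (.g (nat_lit 1985) (.e (nat_lit 6147) (nat_lit 332) (.e (nat_lit 1348) (nat_lit 102) (.e (nat_lit 286735) (nat_lit 3) (.e (nat_lit 98371) (nat_lit 28) .nil)))) .nil))) (.nd (nat_lit 6) 
(.lf (nat_lit 118059) (.g (nat_lit 3069) (.e (nat_lit 6136) (nat_lit 332) (.e (nat_lit 1349) (nat_lit 102) (.e (nat_lit 286733) (nat_lit 2) (.e (nat_lit 90170) (nat_lit 13) (.e (nat_lit 172095) (nat_lit 9) .nil))))) .nil)) 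
(.lf (nat_lit 118123) (.g (nat_lit 1304) (.e (nat_lit 6152) (nat_lit 332) (.e (nat_lit 1362) (nat_lit 102) (.e (nat_lit 286735) (nat_lit 3) (.e (nat_lit 98372) (nat_lit 29) .nil)))) .nil)))) (.nd (nat_lit 5) (.nd (nat_lit 6) 
(.lf (nat_lit 118043) (.g (nat_lit 2153) (.e (nat_lit 6134) (nat_lit 332) (.e (nat_lit 1349) (nat_lit 102) (.e (nat_lit 286761) (nat_lit 13) (.e (nat_lit 393264) (nat_lit 22) (.e (nat_lit 417828) (nat_lit 18) .nil))))) .nil)) 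
(.lf (nat_lit 118107) (.g (nat_lit 2675) (.e (nat_lit 6149) (nat_lit 332) (.e (nat_lit 1348) (nat_lit 102) (.e (nat_lit 286733) (nat_lit 2) (.e (nat_lit 90178) (nat_lit 15) (.e (nat_lit 188451) (nat_lit 23) .nil))))) .nil))) (.nd (nat_lit 6) 
(.lf (nat_lit 118075) (.g (nat_lit 1774) (.e (nat_lit 6146) (nat_lit 332) (.e (nat_lit 1348) (nat_lit 102) (.e (nat_lit 286735) (nat_lit 3) (.e (nat_lit 106240) (nat_lit 26) .nil)))) .nil)) 
(.lf (nat_lit 118139) (.g (nat_lit 2116) (.e (nat_lit 6190) (nat_lit 332) (.e (nat_lit 1348) (nat_lit 102) (.e (nat_lit 286735) (nat_lit 3) (.e (nat_lit 98365) (nat_lit 26) .nil)))) .nil)))))) (.nd (nat_lit 3) (.nd (nat_lit 4) (.nd (nat_lit 5) (.nd (nat_lit 6) 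
(.lf (nat_lit 118023) (.g (nat_lit 3506) (.e (nat_lit 6134) (nat_lit 332) (.e (nat_lit 1348) (nat_lit 102) (.e (nat_lit 286761) (nat_lit 13) (.e (nat_lit 393260) (nat_lit 21) (.e (nat_lit 409648) (nat_lit 18) .nil))))) .nil)) 
(.lf (nat_lit 118087) (.g (nat_lit 812) (.e (nat_lit 6147) (nat_lit 332) (.e (nat_lit 1348) (nat_lit 102) (.e (nat_lit 286735) (nat_lit 3) .nil))) .nil))) (.nd (nat_lit 6) 
(.lf (nat_lit 118055) (.g (nat_lit 3238) (.e (nat_lit 6136) (nat_lit 332) (.e (nat_lit 1348) (nat_lit 102) (.e (nat_lit 286733) (nat_lit 2) (.e (nat_lit 90170) (nat_lit 13) (.e (nat_lit 172097) (nat_lit 9) .nil))))) .nil)) 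
(.lf (nat_lit 118119) (.g (nat_lit 3604) (.e (nat_lit 6149) (nat_lit 332) (.e (nat_lit 1355) (nat_lit 102) (.e (nat_lit 286733) (nat_lit 2) (.e (nat_lit 90170) (nat_lit 13) (.e (nat_lit 172115) (nat_lit 10) .nil))))) .nil)))) (.nd (nat_lit 5) (.nd (nat_lit 6) 
(.lf (nat_lit 118039) (.g (nat_lit 3155) (.e (nat_lit 6134) (nat_lit 332) (.e (nat_lit 1349) (nat_lit 102) (.e (nat_lit 286761) (nat_lit 13) (.e (nat_lit 393260) (nat_lit 21) (.e (nat_lit 409647) (nat_lit 18) .nil))))) .nil)) 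
(.lf (nat_lit 118103) (.g (nat_lit 1744) (.e (nat_lit 6149) (nat_lit 332) (.e (nat_lit 1348) (nat_lit 102) (.e (nat_lit 286733) (nat_lit 2) (.e (nat_lit 90169) (nat_lit 13) .nil)))) .nil))) (.nd (nat_lit 6) 
(.lf (nat_lit 118071) (.g (nat_lit 808) (.e (nat_lit 6146) (nat_lit 332) (.e (nat_lit 1348) (nat_lit 102) (.e (nat_lit 286735) (nat_lit 3) .nil))) .nil)) 
(.lf (nat_lit 118135) (.g (nat_lit 1661) (.e (nat_lit 6190) (nat_lit 332) (.e (nat_lit 1348) (nat_lit 102) (.e (nat_lit 286733) (nat_lit 2) (.e (nat_lit 90176) (nat_lit 15) .nil)))) .nil))))) (.nd (nat_lit 4) (.nd (nat_lit 5) (.nd (nat_lit 6) 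
(.lf (nat_lit 118031) (.g (nat_lit 1702) (.e (nat_lit 6134) (nat_lit 332) (.e (nat_lit 1349) (nat_lit 102) (.e (nat_lit 286761) (nat_lit 13) (.e (nat_lit 393233) (nat_lit 17) .nil)))) .nil)) 
(.lf (nat_lit 118095) (.g (nat_lit 1746) (.e (nat_lit 6148) (nat_lit 332) (.e (nat_lit 1348) (nat_lit 102) (.e (nat_lit 286733) (nat_lit 2) (.e (nat_lit 90177) (nat_lit 15) .nil)))) .nil))) (.nd (nat_lit 6) 
(.lf (nat_lit 118063) (.g (nat_lit 2596) (.e (nat_lit 6136) (nat_lit 332) (.e (nat_lit 1349) (nat_lit 102) (.e (nat_lit 286735) (nat_lit 3) (.e (nat_lit 98359) (nat_lit 26) (.e (nat_lit 426185) (nat_lit 9) (.e (nat_lit 426140) (nat_lit 3) (.e (nat_lit 204821) (nat_lit 17) .nil))))))) (.g (nat_lit 4) .nil .nil))) 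
(.lf (nat_lit 118127) (.g (nat_lit 1954) (.e (nat_lit 6177) (nat_lit 332) (.e (nat_lit 1353) (nat_lit 102) (.e (nat_lit 286735) (nat_lit 3) (.e (nat_lit 98371) (nat_lit 28) (.e (nat_lit 442424) (nat_lit 22) .nil))))) .nil)))) (.nd (nat_lit 5) (.nd (nat_lit 6) 
(.lf (nat_lit 118047) (.g (nat_lit 1769) (.e (nat_lit 6135) (nat_lit 332) (.e (nat_lit 1348) (nat_lit 102) (.e (nat_lit 286733) (nat_lit 2) (.e (nat_lit 90178) (nat_lit 15) .nil)))) .nil)) 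
(.lf (nat_lit 118111) (.g (nat_lit 3709) (.e (nat_lit 6149) (nat_lit 332) (.e (nat_lit 1349) (nat_lit 102) (.e (nat_lit 286733) (nat_lit 2) (.e (nat_lit 90170) (nat_lit 13) (.e (nat_lit 172097) (nat_lit 9) .nil))))) .nil))) (.nd (nat_lit 6) 
(.lf (nat_lit 118079) (.g (nat_lit 2271) (.e (nat_lit 6146) (nat_lit 332) (.e (nat_lit 1359) (nat_lit 102) (.e (nat_lit 286734) (nat_lit 3) (.e (nat_lit 98372) (nat_lit 29) (.e (nat_lit 450579) (nat_lit 5) .nil))))) .nil)) 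
(.lf (nat_lit 118143) (.g (nat_lit 2278) (.e (nat_lit 6190) (nat_lit 332) (.e (nat_lit 1348) (nat_lit 102) (.e (nat_lit 286735) (nat_lit 3) (.e (nat_lit 98372) (nat_lit 29) .nil)))) .nil)))))))))

noncomputable def tv1581 : DT := (.nd (nat_lit 0) (.nd (nat_lit 1) (.nd (nat_lit 2) (.nd (nat_lit 3) (.nd (nat_lit 4) (.nd (nat_lit 5) (.nd (nat_lit 6) 
(.lf (nat_lit 118144) (.g (nat_lit 1881) (.e (nat_lit 6190) (nat_lit 332) (.e (nat_lit 1348) (nat_lit 102) (.e (nat_lit 286735) (nat_lit 3) (.e (nat_lit 98382) (nat_lit 31) .nil)))) .nil)) 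
(.lf (nat_lit 118208) (.g (nat_lit 1575) (.e (nat_lit 7936) (nat_lit 332) (.e (nat_lit 1348) (nat_lit 102) (.e (nat_lit 286733) (nat_lit 2) (.e (nat_lit 90178) (nat_lit 15) (.e (nat_lit 188432) (nat_lit 20) .nil))))) .nil))) (.nd (nat_lit 6) 
(.lf (nat_lit 118176) (.g (nat_lit 4766) (.e (nat_lit 6202) (nat_lit 332) (.e (nat_lit 2797) (nat_lit 180) (.e (nat_lit 303117) (nat_lit 2) (.e (nat_lit 196663) (nat_lit 13) (.e (nat_lit 65630) (nat_lit 14) (.e (nat_lit 401425) (nat_lit 2) (.e (nat_lit 196628) (nat_lit 9) (.e (nat_lit 970) (nat_lit 81) .nil)))))))) (.g (nat_lit 0) .nil .nil))) 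
(.lf (nat_lit 118240) (.g (nat_lit 2747) (.e (nat_lit 7936) (nat_lit 332) (.e (nat_lit 1349) (nat_lit 102) (.e (nat_lit 286735) (nat_lit 3) (.e (nat_lit 98359) (nat_lit 26) (.e (nat_lit 426216) (nat_lit 9) .nil))))) .nil)))) (.nd (nat_lit 5) (.nd (nat_lit 6) 
(.lf (nat_lit 118160) (.g (nat_lit 2487) (.e (nat_lit 6192) (nat_lit 332) (.e (nat_lit 1349) (nat_lit 102) (.e (nat_lit 286733) (nat_lit 2) (.e (nat_lit 90176) (nat_lit 15) (.e (nat_lit 188450) (nat_lit 23) .nil))))) .nil)) 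
(.lf (nat_lit 118224) (.g (nat_lit 2039) (.e (nat_lit 7936) (nat_lit 332) (.e (nat_lit 1348) (nat_lit 102) (.e (nat_lit 286735) (nat_lit 3) (.e (nat_lit 98372) (nat_lit 29) (.e (nat_lit 450579) (nat_lit 5) .nil))))) .nil))) (.nd (nat_lit 6) 
(.lf (nat_lit 118192) (.g (nat_lit 3458) (.e (nat_lit 6202) (nat_lit 332) (.e (nat_lit 2798) (nat_lit 180) (.e (nat_lit 303119) (nat_lit 3) (.e (nat_lit 204863) (nat_lit 27) (.e (nat_lit 344068) (nat_lit 0) (.e (nat_lit 2664) (nat_lit 167) (.e (nat_lit 196628) (nat_lit 9) (.e (nat_lit 968) (nat_lit 81) .nil)))))))) (.g (nat_lit 6) .nil .nil))) 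
(.lf (nat_lit 118256) (.g (nat_lit 1114) (.e (nat_lit 6207) (nat_lit 333) (.e (nat_lit 57787) (nat_lit 245) (.e (nat_lit 1159) (nat_lit 86) (.e (nat_lit 49187) (nat_lit 11) (.e (nat_lit 16465) (nat_lit 13) (.e (nat_lit 491264) (nat_lit 17) .nil)))))) (.g (nat_lit 5) .nil .nil)))))) (.nd (nat_lit 4) (.nd (nat_lit 5) (.nd (nat_lit 6) 
(.lf (nat_lit 118152) (.g (nat_lit 2450) (.e (nat_lit 6192) (nat_lit 332) (.e (nat_lit 1348) (nat_lit 102) (.e (nat_lit 286735) (nat_lit 3) (.e (nat_lit 98363) (nat_lit 26) (.e (nat_lit 426292) (nat_lit 11) .nil))))) .nil)) 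
(.lf (nat_lit 118216) (.g (nat_lit 2841) (.e (nat_lit 7936) (nat_lit 332) (.e (nat_lit 1348) (nat_lit 102) (.e (nat_lit 286735) (nat_lit 3) (.e (nat_lit 98365) (nat_lit 26) (.e (nat_lit 426296) (nat_lit 11) .nil))))) .nil))) (.nd (nat_lit 6) 
(.lf (nat_lit 118184) (.g (nat_lit 1179) (.e (nat_lit 6202) (nat_lit 332) (.e (nat_lit 2798) (nat_lit 180) (.e (nat_lit 303119) (nat_lit 3) (.e (nat_lit 204849) (nat_lit 25) .nil)))) .nil)) 
(.lf (nat_lit 118248) (.g (nat_lit 2132) (.e (nat_lit 6206) (nat_lit 333) (.e (nat_lit 57865) (nat_lit 256) (.e (nat_lit 60) (nat_lit 0) (.e (nat_lit 1859) (nat_lit 124) (.e (nat_lit 557107) (nat_lit 15) (.e (nat_lit 188450) (nat_lit 23) (.e (nat_lit 204821) (nat_lit 17) .nil))))))) (.g (nat_lit 0) .nil .nil))))) (.nd (nat_lit 5) (.nd (nat_lit 6) 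
(.lf (nat_lit 118168) (.g (nat_lit 2386) (.e (nat_lit 6192) (nat_lit 332) (.e (nat_lit 1349) (nat_lit 102) (.e (nat_lit 286735) (nat_lit 3) (.e (nat_lit 98374) (nat_lit 29) (.e (nat_lit 450580) (nat_lit 5) .nil))))) .nil)) 
(.lf (nat_lit 118232) (.g (nat_lit 2964) (.e (nat_lit 7936) (nat_lit 332) (.e (nat_lit 1348) (nat_lit 102) (.e (nat_lit 286735) (nat_lit 3) (.e (nat_lit 98381) (nat_lit 31) (.e (nat_lit 466981) (nat_lit 23) .nil))))) .nil))) (.nd (nat_lit 6) 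
(.lf (nat_lit 118200) (.g (nat_lit 2414) (.e (nat_lit 6203) (nat_lit 332) (.e (nat_lit 2797) (nat_lit 180) (.e (nat_lit 303145) (nat_lit 13) (.e (nat_lit 483401) (nat_lit 25) (.e (nat_lit 376576) (nat_lit 18) .nil))))) .nil)) 
(.lf (nat_lit 118264) (.g (nat_lit 2140) (.e (nat_lit 6207) (nat_lit 333) (.e (nat_lit 57809) (nat_lit 246) (.e (nat_lit 57600) (nat_lit 84) (.e (nat_lit 516199) (nat_lit 26) (.e (nat_lit 336220) (nat_lit 13) (.e (nat_lit 393221) (nat_lit 0) .nil)))))) (.g (nat_lit 0) .nil .nil))))))) (.nd (nat_lit 3) (.nd (nat_lit 4) (.nd (nat_lit 5) (.nd (nat_lit 6) 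
(.lf (nat_lit 118148) (.g (nat_lit 1787) (.e (nat_lit 6192) (nat_lit 332) (.e (nat_lit 1348) (nat_lit 102) (.e (nat_lit 286733) (nat_lit 2) (.e (nat_lit 90169) (nat_lit 13) (.e (nat_lit 172115) (nat_lit 10) .nil))))) .nil)) 
(.lf (nat_lit 118212) (.g (nat_lit 1628) (.e (nat_lit 7936) (nat_lit 332) (.e (nat_lit 1348) (nat_lit 102) (.e (nat_lit 286735) (nat_lit 3) (.e (nat_lit 98354) (nat_lit 26) .nil)))) .nil))) (.nd (nat_lit 6) 
(.lf (nat_lit 118180) (.g (nat_lit 3985) (.e (nat_lit 6202) (nat_lit 332) (.e (nat_lit 2798) (nat_lit 180) (.e (nat_lit 303117) (nat_lit 2) (.e (nat_lit 196664) (nat_lit 13) (.e (nat_lit 65630) (nat_lit 14) (.e (nat_lit 401425) (nat_lit 2) (.e (nat_lit 196628) (nat_lit 9) (.e (nat_lit 970) (nat_lit 81) .nil)))))))) (.g (nat_lit 6) .nil .nil))) 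
(.lf (nat_lit 118244) (.g (nat_lit 2977) (.e (nat_lit 7936) (nat_lit 332) (.e (nat_lit 1353) (nat_lit 102) (.e (nat_lit 286733) (nat_lit 2) (.e (nat_lit 90170) (nat_lit 13) (.e (nat_lit 172113) (nat_lit 10) .nil))))) .nil)))) (.nd (nat_lit 5) (.nd (nat_lit 6) 
(.lf (nat_lit 118164) (.g (nat_lit 2969) (.e (nat_lit 6192) (nat_lit 332) (.e (nat_lit 1349) (nat_lit 102) (.e (nat_lit 286735) (nat_lit 3) (.e (nat_lit 98359) (nat_lit 26) (.e (nat_lit 426295) (nat_lit 11) .nil))))) .nil)) 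
(.lf (nat_lit 118228) (.g (nat_lit 2652) (.e (nat_lit 7936) (nat_lit 332) (.e (nat_lit 1348) (nat_lit 102) (.e (nat_lit 286735) (nat_lit 3) (.e (nat_lit 98374) (nat_lit 29) (.e (nat_lit 450579) (nat_lit 5) .nil))))) .nil))) (.nd (nat_lit 6) 
(.lf (nat_lit 118196) (.g (nat_lit 2562) (.e (nat_lit 6203) (nat_lit 332) (.e (nat_lit 2797) (nat_lit 180) (.e (nat_lit 303117) (nat_lit 2) (.e (nat_lit 196663) (nat_lit 13) (.e (nat_lit 65630) (nat_lit 14) (.e (nat_lit 401425) (nat_lit 2) (.e (nat_lit 196628) (nat_lit 9) (.e (nat_lit 968) (nat_lit 81) .nil)))))))) (.g (nat_lit 5) .nil .nil))) 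
(.lf (nat_lit 118260) (.g (nat_lit 2297) (.e (nat_lit 6207) (nat_lit 333) (.e (nat_lit 57809) (nat_lit 246) (.e (nat_lit 57596) (nat_lit 82) (.e (nat_lit 499900) (nat_lit 7) (.e (nat_lit 24658) (nat_lit 13) (.e (nat_lit 401152) (nat_lit 0) .nil)))))) (.g (nat_lit 5) .nil .nil)))))) (.nd (nat_lit 4) (.nd (nat_lit 5) (.nd (nat_lit 6) 
(.lf (nat_lit 118156) (.g (nat_lit 1940) (.e (nat_lit 6192) (nat_lit 332) (.e (nat_lit 1348) (nat_lit 102) (.e (nat_lit 286735) (nat_lit 3) (.e (nat_lit 98372) (nat_lit 29) .nil)))) .nil)) 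
(.lf (nat_lit 118220) (.g (nat_lit 1290) (.e (nat_lit 7936) (nat_lit 332) (.e (nat_lit 1348) (nat_lit 102) (.e (nat_lit 286735) (nat_lit 3) (.e (nat_lit 98369) (nat_lit 28) .nil)))) .nil))) (.nd (nat_lit 6) 
(.lf (nat_lit 118188) (.g (nat_lit 5084) (.e (nat_lit 6202) (nat_lit 332) (.e (nat_lit 2798) (nat_lit 180) (.e (nat_lit 303119) (nat_lit 3) (.e (nat_lit 204855) (nat_lit 26) (.e (nat_lit 336226) (nat_lit 14) (.e (nat_lit 401425) (nat_lit 2) (.e (nat_lit 196628) (nat_lit 9) (.e (nat_lit 968) (nat_lit 81) .nil)))))))) (.g (nat_lit 8) .nil .nil))) 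
(.lf (nat_lit 118252) (.g (nat_lit 900) (.e (nat_lit 6206) (nat_lit 333) (.e (nat_lit 57891) (nat_lit 270) (.e (nat_lit 1253) (nat_lit 92) (.e (nat_lit 98373) (nat_lit 29) .nil)))) .nil)))) (.nd (nat_lit 5) (.nd (nat_lit 6) 
(.lf (nat_lit 118172) (.g (nat_lit 2425) (.e (nat_lit 6200) (nat_lit 332) (.e (nat_lit 1356) (nat_lit 102) (.e (nat_lit 286735) (nat_lit 3) (.e (nat_lit 98372) (nat_lit 29) (.e (nat_lit 450579) (nat_lit 5) .nil))))) .nil)) 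
(.lf (nat_lit 118236) (.g (nat_lit 2255) (.e (nat_lit 7936) (nat_lit 332) (.e (nat_lit 1349) (nat_lit 102) (.e (nat_lit 286733) (nat_lit 2) (.e (nat_lit 90176) (nat_lit 15) (.e (nat_lit 188452) (nat_lit 23) .nil))))) .nil))) (.nd (nat_lit 6) 
(.lf (nat_lit 118204) (.g (nat_lit 2417) (.e (nat_lit 7936) (nat_lit 332) (.e (nat_lit 1348) (nat_lit 102) (.e (nat_lit 286733) (nat_lit 2) (.e (nat_lit 90170) (nat_lit 13) (.e (nat_lit 172097) (nat_lit 9) .nil))))) .nil)) 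
(.lf (nat_lit 118268) (.g (nat_lit 2636) (.e (nat_lit 6207) (nat_lit 333) (.e (nat_lit 57891) (nat_lit 270) (.e (nat_lit 1661) (nat_lit 115) (.e (nat_lit 393260) (nat_lit 21) (.e (nat_lit 409643) (nat_lit 18) (.e (nat_lit 303149) (nat_lit 15) .nil)))))) (.g (nat_lit 4) .nil .nil)))))))) (.nd (nat_lit 2) (.nd (nat_lit 3) (.nd (nat_lit 4) (.nd (nat_lit 5) (.nd (nat_lit 6) 
(.lf (nat_lit 118146) (.g (nat_lit 1268) (.e (nat_lit 6192) (nat_lit 332) (.e (nat_lit 1348) (nat_lit 102) (.e (nat_lit 286733) (nat_lit 2) (.e (nat_lit 90167) (nat_lit 13) .nil)))) .nil)) 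
(.lf (nat_lit 118210) (.g (nat_lit 1104) (.e (nat_lit 7936) (nat_lit 332) (.e (nat_lit 1348) (nat_lit 102) (.e (nat_lit 286733) (nat_lit 2) (.e (nat_lit 90186) (nat_lit 17) .nil)))) .nil))) (.nd (nat_lit 6) 
(.lf (nat_lit 118178) (.g (nat_lit 4411) (.e (nat_lit 6202) (nat_lit 332) (.e (nat_lit 2798) (nat_lit 180) (.e (nat_lit 303117) (nat_lit 2) (.e (nat_lit 196663) (nat_lit 13) (.e (nat_lit 65630) (nat_lit 14) (.e (nat_lit 401425) (nat_lit 2) (.e (nat_lit 196628) (nat_lit 9) (.e (nat_lit 968) (nat_lit 81) .nil)))))))) (.g (nat_lit 0) .nil .nil))) 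
(.lf (nat_lit 118242) (.g (nat_lit 2259) (.e (nat_lit 7936) (nat_lit 332) (.e (nat_lit 1349) (nat_lit 102) (.e (nat_lit 286735) (nat_lit 3) (.e (nat_lit 98372) (nat_lit 29) (.e (nat_lit 450579) (nat_lit 5) .nil))))) .nil)))) (.nd (nat_lit 5) (.nd (nat_lit 6) 
(.lf (nat_lit 118162) (.g (nat_lit 1324) (.e (nat_lit 6192) (nat_lit 332) (.e (nat_lit 1349) (nat_lit 102) (.e (nat_lit 286734) (nat_lit 3) (.e (nat_lit 98365) (nat_lit 26) .nil)))) .nil)) 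
(.lf (nat_lit 118226) (.g (nat_lit 2714) (.e (nat_lit 7936) (nat_lit 332) (.e (nat_lit 1348) (nat_lit 102) (.e (nat_lit 286735) (nat_lit 3) (.e (nat_lit 98373) (nat_lit 29) (.e (nat_lit 458496) (nat_lit 5) .nil))))) .nil))) (.nd (nat_lit 6) 
(.lf (nat_lit 118194) (.g (nat_lit 3603) (.e (nat_lit 6202) (nat_lit 332) (.e (nat_lit 2817) (nat_lit 181) (.e (nat_lit 311312) (nat_lit 2) (.e (nat_lit 196663) (nat_lit 13) (.e (nat_lit 65630) (nat_lit 14) (.e (nat_lit 401425) (nat_lit 2) (.e (nat_lit 196628) (nat_lit 9) (.e (nat_lit 968) (nat_lit 81) .nil)))))))) (.g (nat_lit 6) .nil .nil))) 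
(.lf (nat_lit 118258) (.g (nat_lit 2005) (.e (nat_lit 6207) (nat_lit 333) (.e (nat_lit 57809) (nat_lit 246) (.e (nat_lit 57596) (nat_lit 82) (.e (nat_lit 499900) (nat_lit 7) (.e (nat_lit 24655) (nat_lit 13) (.e (nat_lit 401152) (nat_lit 0) .nil)))))) (.g (nat_lit 5) .nil .nil)))))) (.nd (nat_lit 4) (.nd (nat_lit 5) (.nd (nat_lit 6) 
(.lf (nat_lit 118154) (.g (nat_lit 2589) (.e (nat_lit 6192) (nat_lit 332) (.e (nat_lit 1348) (nat_lit 102) (.e (nat_lit 286735) (nat_lit 3) (.e (nat_lit 98370) (nat_lit 28) (.e (nat_lit 442427) (nat_lit 23) .nil))))) .nil)) 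
(.lf (nat_lit 118218) (.g (nat_lit 3083) (.e (nat_lit 7936) (nat_lit 332) (.e (nat_lit 1348) (nat_lit 102) (.e (nat_lit 286735) (nat_lit 3) (.e (nat_lit 98365) (nat_lit 26) (.e (nat_lit 426298) (nat_lit 11) .nil))))) .nil))) (.nd (nat_lit 6) 
(.lf (nat_lit 118186) (.g (nat_lit 3925) (.e (nat_lit 6202) (nat_lit 332) (.e (nat_lit 2798) (nat_lit 180) (.e (nat_lit 303119) (nat_lit 3) (.e (nat_lit 204849) (nat_lit 25) (.e (nat_lit 327698) (nat_lit 8) (.e (nat_lit 303117) (nat_lit 2) (.e (nat_lit 196628) (nat_lit 9) (.e (nat_lit 970) (nat_lit 81) .nil)))))))) (.g (nat_lit 7) .nil .nil))) 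
(.lf (nat_lit 118250) (.g (nat_lit 441) (.e (nat_lit 6206) (nat_lit 333) (.e (nat_lit 57884) (nat_lit 270) (.e (nat_lit 1232) (nat_lit 91) .nil))) .nil)))) (.nd (nat_lit 5) (.nd (nat_lit 6) 
(.lf (nat_lit 118170) (.g (nat_lit 2276) (.e (nat_lit 6192) (nat_lit 332) (.e (nat_lit 1359) (nat_lit 102) (.e (nat_lit 286734) (nat_lit 3) (.e (nat_lit 98372) (nat_lit 29) (.e (nat_lit 450579) (nat_lit 5) .nil))))) .nil)) 
(.lf (nat_lit 118234) (.g (nat_lit 1581) (.e (nat_lit 7936) (nat_lit 332) (.e (nat_lit 1348) (nat_lit 102) (.e (nat_lit 286761) (nat_lit 13) (.e (nat_lit 393260) (nat_lit 21) .nil)))) .nil))) (.nd (nat_lit 6) 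
(.lf (nat_lit 118202) (.g (nat_lit 1558) (.e (nat_lit 6203) (nat_lit 332) (.e (nat_lit 2798) (nat_lit 180) (.e (nat_lit 303117) (nat_lit 2) (.e (nat_lit 196664) (nat_lit 13) (.e (nat_lit 65630) (nat_lit 14) .nil))))) .nil)) 
(.lf (nat_lit 118266) (.g (nat_lit 1442) (.e (nat_lit 6207) (nat_lit 333) (.e (nat_lit 65280) (nat_lit 258) (.e (nat_lit 24662) (nat_lit 14) (.e (nat_lit 401459) (nat_lit 13) (.e (nat_lit 491264) (nat_lit 17) .nil))))) (.g (nat_lit 4) .nil .nil))))))) (.nd (nat_lit 3) (.nd (nat_lit 4) (.nd (nat_lit 5) (.nd (nat_lit 6) 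
(.lf (nat_lit 118150) (.g (nat_lit 475) (.e (nat_lit 6192) (nat_lit 332) (.e (nat_lit 1348) (nat_lit 102) (.e (nat_lit 286735) (nat_lit 3) .nil))) .nil)) 
(.lf (nat_lit 118214) (.g (nat_lit 2324) (.e (nat_lit 7936) (nat_lit 332) (.e (nat_lit 1348) (nat_lit 102) (.e (nat_lit 286735) (nat_lit 3) (.e (nat_lit 98360) (nat_lit 26) (.e (nat_lit 426289) (nat_lit 10) .nil))))) .nil))) (.nd (nat_lit 6) 
(.lf (nat_lit 118182) (.g (nat_lit 2648) (.e (nat_lit 6202) (nat_lit 332) (.e (nat_lit 2798) (nat_lit 180) (.e (nat_lit 303117) (nat_lit 2) (.e (nat_lit 196670) (nat_lit 14) (.e (nat_lit 73792) (nat_lit 45) (.e (nat_lit 1141) (nat_lit 84) (.e (nat_lit 32773) (nat_lit 5) (.e (nat_lit 970) (nat_lit 81) .nil)))))))) (.g (nat_lit 4) .nil .nil))) 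
(.lf (nat_lit 118246) (.g (nat_lit 998) (.e (nat_lit 7936) (nat_lit 332) (.e (nat_lit 1353) (nat_lit 102) (.e (nat_lit 286735) (nat_lit 3) (.e (nat_lit 98373) (nat_lit 29) .nil)))) .nil)))) (.nd (nat_lit 5) (.nd (nat_lit 6) 
(.lf (nat_lit 118166) (.g (nat_lit 2437) (.e (nat_lit 6192) (nat_lit 332) (.e (nat_lit 1349) (nat_lit 102) (.e (nat_lit 286735) (nat_lit 3) (.e (nat_lit 98370) (nat_lit 28) (.e (nat_lit 442424) (nat_lit 22) .nil))))) .nil)) 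
(.lf (nat_lit 118230) (.g (nat_lit 1534) (.e (nat_lit 7936) (nat_lit 332) (.e (nat_lit 1348) (nat_lit 102) (.e (nat_lit 286735) (nat_lit 3) (.e (nat_lit 98379) (nat_lit 31) .nil)))) .nil))) (.nd (nat_lit 6) 
(.lf (nat_lit 118198) (.g (nat_lit 541) (.e (nat_lit 6203) (nat_lit 332) (.e (nat_lit 2797) (nat_lit 180) (.e (nat_lit 303127) (nat_lit 9) .nil))) .nil)) 
(.lf (nat_lit 118262) (.g (nat_lit 1889) (.e (nat_lit 6207) (nat_lit 333) (.e (nat_lit 57809) (nat_lit 246) (.e (nat_lit 57600) (nat_lit 84) (.e (nat_lit 516199) (nat_lit 26) (.e (nat_lit 336214) (nat_lit 13) (.e (nat_lit 401152) (nat_lit 0) .nil)))))) (.g (nat_lit 5) .nil .nil)))))) (.nd (nat_lit 4) (.nd (nat_lit 5) (.nd (nat_lit 6) 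
(.lf (nat_lit 118158) (.g (nat_lit 1543) (.e (nat_lit 6192) (nat_lit 332) (.e (nat_lit 1348) (nat_lit 102) (.e (nat_lit 286735) (nat_lit 3) (.e (nat_lit 98382) (nat_lit 31) .nil)))) .nil)) 
(.lf (nat_lit 118222) (.g (nat_lit 2735) (.e (nat_lit 7936) (nat_lit 332) (.e (nat_lit 1348) (nat_lit 102) (.e (nat_lit 286735) (nat_lit 3) (.e (nat_lit 98370) (nat_lit 28) (.e (nat_lit 442401) (nat_lit 20) .nil))))) .nil))) (.nd (nat_lit 6) 
(.lf (nat_lit 118190) (.g (nat_lit 4481) (.e (nat_lit 6202) (nat_lit 332) (.e (nat_lit 2798) (nat_lit 180) (.e (nat_lit 303119) (nat_lit 3) (.e (nat_lit 204856) (nat_lit 26) (.e (nat_lit 336228) (nat_lit 14) (.e (nat_lit 401425) (nat_lit 2) (.e (nat_lit 196628) (nat_lit 9) (.e (nat_lit 970) (nat_lit 81) .nil)))))))) (.g (nat_lit 8) .nil .nil))) 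
(.lf (nat_lit 118254) (.g (nat_lit 1819) (.e (nat_lit 6207) (nat_lit 333) (.e (nat_lit 65280) (nat_lit 84) (.e (nat_lit 516131) (nat_lit 3) (.e (nat_lit 221212) (nat_lit 22) (.e (nat_lit 196681) (nat_lit 17) (.e (nat_lit 131096) (nat_lit 3) (.e (nat_lit 98309) (nat_lit 0) .nil))))))) (.g (nat_lit 5) .nil .nil))))) (.nd (nat_lit 5) (.nd (nat_lit 6) 
(.lf (nat_lit 118174) (.g (nat_lit 3742) (.e (nat_lit 6202) (nat_lit 332) (.e (nat_lit 2544) (nat_lit 158) (.e (nat_lit 8439) (nat_lit 138) (.e (nat_lit 1221) (nat_lit 90) (.e (nat_lit 81959) (nat_lit 24) (.e (nat_lit 123195) (nat_lit 266) (.e (nat_lit 57417) (nat_lit 12) (.e (nat_lit 335876) (nat_lit 0) .nil)))))))) (.g (nat_lit 7) .nil .nil))) 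
(.lf (nat_lit 118238) (.g (nat_lit 1177) (.e (nat_lit 7936) (nat_lit 332) (.e (nat_lit 1349) (nat_lit 102) (.e (nat_lit 286733) (nat_lit 2) (.e (nat_lit 90185) (nat_lit 17) .nil)))) .nil))) (.nd (nat_lit 6) 
(.lf (nat_lit 118206) (.g (nat_lit 811) (.e (nat_lit 7936) (nat_lit 332) (.e (nat_lit 1348) (nat_lit 102) (.e (nat_lit 286733) (nat_lit 2) (.e (nat_lit 90178) (nat_lit 15) .nil)))) .nil)) 
(.lf (nat_lit 118270) (.g (nat_lit 2566) (.e (nat_lit 6207) (nat_lit 333) (.e (nat_lit 57893) (nat_lit 271) (.e (nat_lit 8226) (nat_lit 15) (.e (nat_lit 532558) (nat_lit 14) (.e (nat_lit 376842) (nat_lit 11) (.e (nat_lit 426406) (nat_lit 15) .nil)))))) (.g (nat_lit 5) .nil .nil))))))))) (.nd (nat_lit 1) (.nd (nat_lit 2) (.nd (nat_lit 3) (.nd (nat_lit 4) (.nd (nat_lit 5) (.nd (nat_lit 6) 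
(.lf (nat_lit 118145) (.g (nat_lit 1863) (.e (nat_lit 6190) (nat_lit 332) (.e (nat_lit 1348) (nat_lit 102) (.e (nat_lit 286761) (nat_lit 13) (.e (nat_lit 393265) (nat_lit 22) .nil)))) .nil)) 
(.lf (nat_lit 118209) (.g (nat_lit 1631) (.e (nat_lit 7936) (nat_lit 332) (.e (nat_lit 1348) (nat_lit 102) (.e (nat_lit 286733) (nat_lit 2) (.e (nat_lit 90178) (nat_lit 15) (.e (nat_lit 188452) (nat_lit 23) .nil))))) .nil))) (.nd (nat_lit 6) 
(.lf (nat_lit 118177) (.g (nat_lit 3350) (.e (nat_lit 6202) (nat_lit 332) (.e (nat_lit 2797) (nat_lit 180) (.e (nat_lit 303117) (nat_lit 2) (.e (nat_lit 196666) (nat_lit 13) (.e (nat_lit 65628) (nat_lit 14) .nil))))) .nil)) 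
(.lf (nat_lit 118241) (.g (nat_lit 1293) (.e (nat_lit 7936) (nat_lit 332) (.e (nat_lit 1349) (nat_lit 102) (.e (nat_lit 286735) (nat_lit 3) (.e (nat_lit 98365) (nat_lit 26) .nil)))) .nil)))) (.nd (nat_lit 5) (.nd (nat_lit 6) 
(.lf (nat_lit 118161) (.g (nat_lit 1174) (.e (nat_lit 6192) (nat_lit 332) (.e (nat_lit 1349) (nat_lit 102) (.e (nat_lit 286733) (nat_lit 2) (.e (nat_lit 90178) (nat_lit 15) .nil)))) .nil)) 
(.lf (nat_lit 118225) (.g (nat_lit 2333) (.e (nat_lit 7936) (nat_lit 332) (.e (nat_lit 1348) (nat_lit 102) (.e (nat_lit 286735) (nat_lit 3) (.e (nat_lit 98373) (nat_lit 29) (.e (nat_lit 450580) (nat_lit 5) .nil))))) .nil))) (.nd (nat_lit 6) 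
(.lf (nat_lit 118193) (.g (nat_lit 1601) (.e (nat_lit 6202) (nat_lit 332) (.e (nat_lit 2798) (nat_lit 180) (.e (nat_lit 303145) (nat_lit 13) (.e (nat_lit 483405) (nat_lit 26) (.e (nat_lit 385091) (nat_lit 49) .nil))))) .nil)) 
(.lf (nat_lit 118257) (.g (nat_lit 1143) (.e (nat_lit 6207) (nat_lit 333) (.e (nat_lit 57795) (nat_lit 245) (.e (nat_lit 1159) (nat_lit 86) (.e (nat_lit 49187) (nat_lit 11) (.e (nat_lit 16465) (nat_lit 13) (.e (nat_lit 491264) (nat_lit 17) .nil)))))) (.g (nat_lit 5) .nil .nil)))))) (.nd (nat_lit 4) (.nd (nat_lit 5) (.nd (nat_lit 6) 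
(.lf (nat_lit 118153) (.g (nat_lit 1612) (.e (nat_lit 6192) (nat_lit 332) (.e (nat_lit 1348) (nat_lit 102) (.e (nat_lit 286735) (nat_lit 3) (.e (nat_lit 98369) (nat_lit 28) .nil)))) .nil)) 
(.lf (nat_lit 118217) (.g (nat_lit 2807) (.e (nat_lit 7936) (nat_lit 332) (.e (nat_lit 1348) (nat_lit 102) (.e (nat_lit 286735) (nat_lit 3) (.e (nat_lit 98365) (nat_lit 26) (.e (nat_lit 426297) (nat_lit 11) .nil))))) .nil))) (.nd (nat_lit 6) 
(.lf (nat_lit 118185) (.g (nat_lit 3252) (.e (nat_lit 6202) (nat_lit 332) (.e (nat_lit 2798) (nat_lit 180) (.e (nat_lit 303119) (nat_lit 3) (.e (nat_lit 204849) (nat_lit 25) (.e (nat_lit 327698) (nat_lit 8) (.e (nat_lit 303117) (nat_lit 2) (.e (nat_lit 196628) (nat_lit 9) (.e (nat_lit 968) (nat_lit 81) .nil)))))))) (.g (nat_lit 6) .nil .nil))) 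
(.lf (nat_lit 118249) (.g (nat_lit 702) (.e (nat_lit 6206) (nat_lit 333) (.e (nat_lit 57881) (nat_lit 270) (.e (nat_lit 174) (nat_lit 12) .nil))) .nil)))) (.nd (nat_lit 5) (.nd (nat_lit 6) 
(.lf (nat_lit 118169) (.g (nat_lit 1829) (.e (nat_lit 6192) (nat_lit 332) (.e (nat_lit 1349) (nat_lit 102) (.e (nat_lit 286761) (nat_lit 13) (.e (nat_lit 393265) (nat_lit 22) .nil)))) .nil)) 
(.lf (nat_lit 118233) (.g (nat_lit 1186) (.e (nat_lit 7936) (nat_lit 332) (.e (nat_lit 1348) (nat_lit 102) (.e (nat_lit 286735) (nat_lit 3) (.e (nat_lit 98382) (nat_lit 31) .nil)))) .nil))) (.nd (nat_lit 6) 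
(.lf (nat_lit 118201) (.g (nat_lit 2403) (.e (nat_lit 6203) (nat_lit 332) (.e (nat_lit 2798) (nat_lit 180) (.e (nat_lit 303117) (nat_lit 2) (.e (nat_lit 196663) (nat_lit 13) (.e (nat_lit 65630) (nat_lit 14) (.e (nat_lit 401425) (nat_lit 2) (.e (nat_lit 196628) (nat_lit 9) (.e (nat_lit 968) (nat_lit 81) .nil)))))))) (.g (nat_lit 4) .nil .nil))) 
(.lf (nat_lit 118265) (.g (nat_lit 2022) (.e (nat_lit 6207) (nat_lit 333) (.e (nat_lit 57809) (nat_lit 246) (.e (nat_lit 57600) (nat_lit 84) (.e (nat_lit 516199) (nat_lit 26) (.e (nat_lit 336223) (nat_lit 13) (.e (nat_lit 401152) (nat_lit 0) .nil)))))) (.g (nat_lit 5) .nil .nil))))))) (.nd (nat_lit 3) (.nd (nat_lit 4) (.nd (nat_lit 5) (.nd (nat_lit 6) 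
(.lf (nat_lit 118149) (.g (nat_lit 1310) (.e (nat_lit 6192) (nat_lit 332) (.e (nat_lit 1348) (nat_lit 102) (.e (nat_lit 286733) (nat_lit 2) (.e (nat_lit 90178) (nat_lit 15) .nil)))) .nil)) 
(.lf (nat_lit 118213) (.g (nat_lit 3149) (.e (nat_lit 7936) (nat_lit 332) (.e (nat_lit 1348) (nat_lit 102) (.e (nat_lit 286735) (nat_lit 3) (.e (nat_lit 98359) (nat_lit 26) (.e (nat_lit 426295) (nat_lit 11) .nil))))) .nil))) (.nd (nat_lit 6) 
(.lf (nat_lit 118181) (.g (nat_lit 2543) (.e (nat_lit 6202) (nat_lit 332) (.e (nat_lit 2798) (nat_lit 180) (.e (nat_lit 303117) (nat_lit 2) (.e (nat_lit 196670) (nat_lit 14) (.e (nat_lit 73792) (nat_lit 45) .nil))))) .nil)) 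
(.lf (nat_lit 118245) (.g (nat_lit 1393) (.e (nat_lit 7936) (nat_lit 332) (.e (nat_lit 1353) (nat_lit 102) (.e (nat_lit 286735) (nat_lit 3) (.e (nat_lit 98369) (nat_lit 28) .nil)))) .nil)))) (.nd (nat_lit 5) (.nd (nat_lit 6) 
(.lf (nat_lit 118165) (.g (nat_lit 1456) (.e (nat_lit 6192) (nat_lit 332) (.e (nat_lit 1349) (nat_lit 102) (.e (nat_lit 286735) (nat_lit 3) (.e (nat_lit 106240) (nat_lit 26) .nil)))) .nil)) 
(.lf (nat_lit 118229) (.g (nat_lit 2328) (.e (nat_lit 7936) (nat_lit 332) (.e (nat_lit 1348) (nat_lit 102) (.e (nat_lit 286735) (nat_lit 3) (.e (nat_lit 98374) (nat_lit 29) (.e (nat_lit 450580) (nat_lit 5) .nil))))) .nil))) (.nd (nat_lit 6) 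
(.lf (nat_lit 118197) (.g (nat_lit 2644) (.e (nat_lit 6203) (nat_lit 332) (.e (nat_lit 2797) (nat_lit 180) (.e (nat_lit 303117) (nat_lit 2) (.e (nat_lit 196670) (nat_lit 14) (.e (nat_lit 73792) (nat_lit 45) .nil))))) .nil)) 
(.lf (nat_lit 118261) (.g (nat_lit 1635) (.e (nat_lit 6207) (nat_lit 333) (.e (nat_lit 57809) (nat_lit 246) (.e (nat_lit 57600) (nat_lit 84) (.e (nat_lit 516199) (nat_lit 26) (.e (nat_lit 336213) (nat_lit 13) (.e (nat_lit 401152) (nat_lit 0) .nil)))))) (.g (nat_lit 5) .nil .nil)))))) (.nd (nat_lit 4) (.nd (nat_lit 5) (.nd (nat_lit 6) 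
(.lf (nat_lit 118157) (.g (nat_lit 2832) (.e (nat_lit 6192) (nat_lit 332) (.e (nat_lit 1348) (nat_lit 102) (.e (nat_lit 286735) (nat_lit 3) (.e (nat_lit 98374) (nat_lit 29) (.e (nat_lit 450579) (nat_lit 5) .nil))))) .nil)) 
(.lf (nat_lit 118221) (.g (nat_lit 933) (.e (nat_lit 7936) (nat_lit 332) (.e (nat_lit 1348) (nat_lit 102) (.e (nat_lit 286735) (nat_lit 3) (.e (nat_lit 98370) (nat_lit 28) .nil)))) .nil))) (.nd (nat_lit 6) 
(.lf (nat_lit 118189) (.g (nat_lit 5553) (.e (nat_lit 6202) (nat_lit 332) (.e (nat_lit 2798) (nat_lit 180) (.e (nat_lit 303119) (nat_lit 3) (.e (nat_lit 204855) (nat_lit 26) (.e (nat_lit 336226) (nat_lit 14) (.e (nat_lit 401425) (nat_lit 2) (.e (nat_lit 196628) (nat_lit 9) (.e (nat_lit 970) (nat_lit 81) .nil)))))))) (.g (nat_lit 0) .nil .nil))) 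
(.lf (nat_lit 118253) (.g (nat_lit 2557) (.e (nat_lit 6207) (nat_lit 333) (.e (nat_lit 65280) (nat_lit 84) (.e (nat_lit 516130) (nat_lit 3) (.e (nat_lit 221215) (nat_lit 23) (.e (nat_lit 204861) (nat_lit 26) (.e (nat_lit 336021) (nat_lit 3) (.e (nat_lit 98309) (nat_lit 0) .nil))))))) (.g (nat_lit 5) .nil .nil))))) (.nd (nat_lit 5) (.nd (nat_lit 6) 
(.lf (nat_lit 118173) (.g (nat_lit 1162) (.e (nat_lit 6202) (nat_lit 332) (.e (nat_lit 2540) (nat_lit 158) (.e (nat_lit 8446) (nat_lit 140) (.e (nat_lit 57424) (nat_lit 14) (.e (nat_lit 352318) (nat_lit 24) .nil))))) .nil)) 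
(.lf (nat_lit 118237) (.g (nat_lit 1857) (.e (nat_lit 7936) (nat_lit 332) (.e (nat_lit 1349) (nat_lit 102) (.e (nat_lit 286733) (nat_lit 2) (.e (nat_lit 90178) (nat_lit 15) (.e (nat_lit 188450) (nat_lit 23) .nil))))) .nil))) (.nd (nat_lit 6) 
(.lf (nat_lit 118205) (.g (nat_lit 2348) (.e (nat_lit 7936) (nat_lit 332) (.e (nat_lit 1348) (nat_lit 102) (.e (nat_lit 286733) (nat_lit 2) (.e (nat_lit 90170) (nat_lit 13) (.e (nat_lit 172115) (nat_lit 10) .nil))))) .nil)) 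
(.lf (nat_lit 118269) (.g (nat_lit 3201) (.e (nat_lit 6207) (nat_lit 333) (.e (nat_lit 57891) (nat_lit 270) (.e (nat_lit 1661) (nat_lit 115) (.e (nat_lit 393260) (nat_lit 21) (.e (nat_lit 409649) (nat_lit 18) (.e (nat_lit 303149) (nat_lit 15) .nil)))))) (.g (nat_lit 5) .nil .nil)))))))) (.nd (nat_lit 2) (.nd (nat_lit 3) (.nd (nat_lit 4) (.nd (nat_lit 5) (.nd (nat_lit 6) 
(.lf (nat_lit 118147) (.g (nat_lit 1688) (.e (nat_lit 6192) (nat_lit 332) (.e (nat_lit 1348) (nat_lit 102) (.e (nat_lit 286733) (nat_lit 2) (.e (nat_lit 90168) (nat_lit 13) (.e (nat_lit 172115) (nat_lit 10) .nil))))) .nil)) 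
(.lf (nat_lit 118211) (.g (nat_lit 351) (.e (nat_lit 7936) (nat_lit 332) (.e (nat_lit 1348) (nat_lit 102) (.e (nat_lit 286735) (nat_lit 3) .nil))) .nil))) (.nd (nat_lit 6) 
(.lf (nat_lit 118179) (.g (nat_lit 4826) (.e (nat_lit 6202) (nat_lit 332) (.e (nat_lit 2798) (nat_lit 180) (.e (nat_lit 303117) (nat_lit 2) (.e (nat_lit 196663) (nat_lit 13) (.e (nat_lit 65630) (nat_lit 14) (.e (nat_lit 401425) (nat_lit 2) (.e (nat_lit 196628) (nat_lit 9) (.e (nat_lit 970) (nat_lit 81) .nil)))))))) (.g (nat_lit 0) .nil .nil))) 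
(.lf (nat_lit 118243) (.g (nat_lit 2433) (.e (nat_lit 7936) (nat_lit 332) (.e (nat_lit 1349) (nat_lit 102) (.e (nat_lit 286735) (nat_lit 3) (.e (nat_lit 98373) (nat_lit 29) (.e (nat_lit 450579) (nat_lit 5) .nil))))) .nil)))) (.nd (nat_lit 5) (.nd (nat_lit 6) 
(.lf (nat_lit 118163) (.g (nat_lit 338) (.e (nat_lit 6192) (nat_lit 332) (.e (nat_lit 1349) (nat_lit 102) (.e (nat_lit 286735) (nat_lit 3) .nil))) .nil)) 
(.lf (nat_lit 118227) (.g (nat_lit 1402) (.e (nat_lit 7936) (nat_lit 332) (.e (nat_lit 1348) (nat_lit 102) (.e (nat_lit 286735) (nat_lit 3) (.e (nat_lit 98374) (nat_lit 29) .nil)))) .nil))) (.nd (nat_lit 6) 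
(.lf (nat_lit 118195) (.g (nat_lit 1449) (.e (nat_lit 6203) (nat_lit 332) (.e (nat_lit 2797) (nat_lit 180) (.e (nat_lit 303117) (nat_lit 2) (.e (nat_lit 196624) (nat_lit 9) .nil)))) .nil)) 
(.lf (nat_lit 118259) (.g (nat_lit 1598) (.e (nat_lit 6207) (nat_lit 333) (.e (nat_lit 57809) (nat_lit 246) (.e (nat_lit 57596) (nat_lit 82) (.e (nat_lit 499900) (nat_lit 7) (.e (nat_lit 24657) (nat_lit 13) (.e (nat_lit 401152) (nat_lit 0) .nil)))))) (.g (nat_lit 5) .nil .nil)))))) (.nd (nat_lit 4) (.nd (nat_lit 5) (.nd (nat_lit 6) 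
(.lf (nat_lit 118155) (.g (nat_lit 1647) (.e (nat_lit 6192) (nat_lit 332) (.e (nat_lit 1348) (nat_lit 102) (.e (nat_lit 286735) (nat_lit 3) (.e (nat_lit 98371) (nat_lit 28) .nil)))) .nil)) 
(.lf (nat_lit 118219) (.g (nat_lit 1105) (.e (nat_lit 7936) (nat_lit 332) (.e (nat_lit 1348) (nat_lit 102) (.e (nat_lit 286735) (nat_lit 3) (.e (nat_lit 106240) (nat_lit 26) .nil)))) .nil))) (.nd (nat_lit 6) 
(.lf (nat_lit 118187) (.g (nat_lit 3285) (.e (nat_lit 6202) (nat_lit 332) (.e (nat_lit 2798) (nat_lit 180) (.e (nat_lit 303119) (nat_lit 3) (.e (nat_lit 204850) (nat_lit 26) (.e (nat_lit 336228) (nat_lit 14) (.e (nat_lit 401425) (nat_lit 2) (.e (nat_lit 196628) (nat_lit 9) (.e (nat_lit 970) (nat_lit 81) .nil)))))))) (.g (nat_lit 6) .nil .nil))) 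
(.lf (nat_lit 118251) (.g (nat_lit 2546) (.e (nat_lit 6206) (nat_lit 333) (.e (nat_lit 57891) (nat_lit 270) (.e (nat_lit 1235) (nat_lit 91) (.e (nat_lit 90170) (nat_lit 13) (.e (nat_lit 172115) (nat_lit 10) .nil))))) .nil)))) (.nd (nat_lit 5) (.nd (nat_lit 6) 
(.lf (nat_lit 118171) (.g (nat_lit 3314) (.e (nat_lit 6192) (nat_lit 332) (.e (nat_lit 1359) (nat_lit 102) (.e (nat_lit 286735) (nat_lit 3) (.e (nat_lit 98372) (nat_lit 29) (.e (nat_lit 450579) (nat_lit 5) .nil))))) .nil)) 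
(.lf (nat_lit 118235) (.g (nat_lit 1416) (.e (nat_lit 7936) (nat_lit 332) (.e (nat_lit 1349) (nat_lit 102) (.e (nat_lit 286733) (nat_lit 2) (.e (nat_lit 90169) (nat_lit 13) .nil)))) .nil))) (.nd (nat_lit 6) 
(.lf (nat_lit 118203) (.g (nat_lit 1338) (.e (nat_lit 7936) (nat_lit 332) (.e (nat_lit 1348) (nat_lit 102) (.e (nat_lit 286733) (nat_lit 2) (.e (nat_lit 90169) (nat_lit 13) (.e (nat_lit 172096) (nat_lit 9) .nil))))) .nil)) 
(.lf (nat_lit 118267) (.g (nat_lit 2440) (.e (nat_lit 6207) (nat_lit 333) (.e (nat_lit 57884) (nat_lit 270) (.e (nat_lit 1250) (nat_lit 92) (.e (nat_lit 98372) (nat_lit 29) (.e (nat_lit 450579) (nat_lit 5) (.e (nat_lit 540416) (nat_lit 0) .nil)))))) (.g (nat_lit 5) .nil .nil))))))) (.nd (nat_lit 3) (.nd (nat_lit 4) (.nd (nat_lit 5) (.nd (nat_lit 6) 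
(.lf (nat_lit 118151) (.g (nat_lit 3528) (.e (nat_lit 6192) (nat_lit 332) (.e (nat_lit 1348) (nat_lit 102) (.e (nat_lit 286735) (nat_lit 3) (.e (nat_lit 98359) (nat_lit 26) (.e (nat_lit 426295) (nat_lit 11) .nil))))) .nil)) 
(.lf (nat_lit 118215) (.g (nat_lit 2053) (.e (nat_lit 7936) (nat_lit 332) (.e (nat_lit 1348) (nat_lit 102) (.e (nat_lit 286735) (nat_lit 3) (.e (nat_lit 98364) (nat_lit 26) (.e (nat_lit 426298) (nat_lit 11) .nil))))) .nil))) (.nd (nat_lit 6) 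
(.lf (nat_lit 118183) (.g (nat_lit 2883) (.e (nat_lit 6202) (nat_lit 332) (.e (nat_lit 2798) (nat_lit 180) (.e (nat_lit 303119) (nat_lit 3) (.e (nat_lit 204846) (nat_lit 24) (.e (nat_lit 327424) (nat_lit 8) (.e (nat_lit 303117) (nat_lit 2) (.e (nat_lit 196628) (nat_lit 9) (.e (nat_lit 970) (nat_lit 81) .nil)))))))) (.g (nat_lit 6) .nil .nil))) 
(.lf (nat_lit 118247) (.g (nat_lit 888) (.e (nat_lit 7936) (nat_lit 332) (.e (nat_lit 1370) (nat_lit 103) (.e (nat_lit 294960) (nat_lit 13) (.e (nat_lit 393260) (nat_lit 21) .nil)))) .nil)))) (.nd (nat_lit 5) (.nd (nat_lit 6) 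
(.lf (nat_lit 118167) (.g (nat_lit 1562) (.e (nat_lit 6192) (nat_lit 332) (.e (nat_lit 1349) (nat_lit 102) (.e (nat_lit 286735) (nat_lit 3) (.e (nat_lit 98374) (nat_lit 29) .nil)))) .nil)) 
(.lf (nat_lit 118231) (.g (nat_lit 1245) (.e (nat_lit 7936) (nat_lit 332) (.e (nat_lit 1348) (nat_lit 102) (.e (nat_lit 286735) (nat_lit 3) (.e (nat_lit 98380) (nat_lit 31) .nil)))) .nil))) (.nd (nat_lit 6) 
(.lf (nat_lit 118199) (.g (nat_lit 1883) (.e (nat_lit 6203) (nat_lit 332) (.e (nat_lit 2797) (nat_lit 180) (.e (nat_lit 303145) (nat_lit 13) (.e (nat_lit 483387) (nat_lit 23) .nil)))) .nil)) 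
(.lf (nat_lit 118263) (.g (nat_lit 2347) (.e (nat_lit 6207) (nat_lit 333) (.e (nat_lit 57809) (nat_lit 246) (.e (nat_lit 57600) (nat_lit 84) (.e (nat_lit 516199) (nat_lit 26) (.e (nat_lit 336215) (nat_lit 13) (.e (nat_lit 401152) (nat_lit 0) .nil)))))) (.g (nat_lit 5) .nil .nil)))))) (.nd (nat_lit 4) (.nd (nat_lit 5) (.nd (nat_lit 6) 
(.lf (nat_lit 118159) (.g (nat_lit 3813) (.e (nat_lit 6192) (nat_lit 332) (.e (nat_lit 1349) (nat_lit 102) (.e (nat_lit 286733) (nat_lit 2) (.e (nat_lit 90170) (nat_lit 13) (.e (nat_lit 172113) (nat_lit 10) .nil))))) .nil)) 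
(.lf (nat_lit 118223) (.g (nat_lit 1387) (.e (nat_lit 7936) (nat_lit 332) (.e (nat_lit 1348) (nat_lit 102) (.e (nat_lit 286735) (nat_lit 3) (.e (nat_lit 98372) (nat_lit 29) .nil)))) .nil))) (.nd (nat_lit 6) 
(.lf (nat_lit 118191) (.g (nat_lit 4602) (.e (nat_lit 6202) (nat_lit 332) (.e (nat_lit 2798) (nat_lit 180) (.e (nat_lit 303119) (nat_lit 3) (.e (nat_lit 204859) (nat_lit 26) (.e (nat_lit 336235) (nat_lit 14) (.e (nat_lit 401425) (nat_lit 2) (.e (nat_lit 196628) (nat_lit 9) (.e (nat_lit 970) (nat_lit 81) .nil)))))))) (.g (nat_lit 8) .nil .nil))) 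
(.lf (nat_lit 118255) (.g (nat_lit 2014) (.e (nat_lit 6207) (nat_lit 333) (.e (nat_lit 65280) (nat_lit 84) (.e (nat_lit 516131) (nat_lit 3) (.e (nat_lit 221212) (nat_lit 22) (.e (nat_lit 196681) (nat_lit 17) (.e (nat_lit 131098) (nat_lit 3) (.e (nat_lit 98309) (nat_lit 0) .nil))))))) (.g (nat_lit 5) .nil .nil))))) (.nd (nat_lit 5) (.nd (nat_lit 6) 
(.lf (nat_lit 118175) (.g (nat_lit 4244) (.e (nat_lit 6202) (nat_lit 332) (.e (nat_lit 2797) (nat_lit 180) (.e (nat_lit 303117) (nat_lit 2) (.e (nat_lit 196663) (nat_lit 13) (.e (nat_lit 65630) (nat_lit 14) (.e (nat_lit 401425) (nat_lit 2) (.e (nat_lit 196628) (nat_lit 9) (.e (nat_lit 968) (nat_lit 81) .nil)))))))) (.g (nat_lit 8) .nil .nil))) 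
(.lf (nat_lit 118239) (.g (nat_lit 293) (.e (nat_lit 7936) (nat_lit 332) (.e (nat_lit 1349) (nat_lit 102) (.e (nat_lit 286735) (nat_lit 3) .nil))) .nil))) (.nd (nat_lit 6) 
(.lf (nat_lit 118207) (.g (nat_lit 1865) (.e (nat_lit 7936) (nat_lit 332) (.e (nat_lit 1348) (nat_lit 102) (.e (nat_lit 286733) (nat_lit 2) (.e (nat_lit 90178) (nat_lit 15) (.e (nat_lit 188424) (nat_lit 20) .nil))))) .nil)) 
(.lf (nat_lit 118271) (.g (nat_lit 2408) (.e (nat_lit 6207) (nat_lit 333) (.e (nat_lit 57893) (nat_lit 271) (.e (nat_lit 8226) (nat_lit 15) (.e (nat_lit 532560) (nat_lit 14) (.e (nat_lit 376842) (nat_lit 11) (.e (nat_lit 426406) (nat_lit 15) .nil)))))) (.g (nat_lit 5) .nil .nil))))))))))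

noncomputable def tv1582 : DT := (.nd (nat_lit 0) (.nd (nat_lit 1) (.nd (nat_lit 2) (.nd (nat_lit 3) (.nd (nat_lit 4) (.nd (nat_lit 5) 
(.lf (nat_lit 118272) (.g (nat_lit 1899) (.e (nat_lit 6207) (nat_lit 333) (.e (nat_lit 57896) (nat_lit 273) (.e (nat_lit 57464) (nat_lit 23) (.e (nat_lit 516165) (nat_lit 12) (.e (nat_lit 450579) (nat_lit 5) (.e (nat_lit 540416) (nat_lit 0) .nil)))))) (.g (nat_lit 5) .nil .nil))) 
(.lf (nat_lit 118304) (.g (nat_lit 792) (.e (nat_lit 6209) (nat_lit 333) (.e (nat_lit 57881) (nat_lit 270) (.e (nat_lit 369) (nat_lit 32) .nil))) .nil))) (.nd (nat_lit 5) 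
(.lf (nat_lit 118288) (.g (nat_lit 1822) (.e (nat_lit 6209) (nat_lit 333) (.e (nat_lit 57814) (nat_lit 246) (.e (nat_lit 57596) (nat_lit 82) (.e (nat_lit 499900) (nat_lit 7) (.e (nat_lit 24660) (nat_lit 13) (.e (nat_lit 393221) (nat_lit 0) .nil)))))) (.g (nat_lit 0) .nil .nil))) 
(.lf (nat_lit 118320) (.g (nat_lit 1339) (.e (nat_lit 6213) (nat_lit 333) (.e (nat_lit 57891) (nat_lit 270) (.e (nat_lit 1253) (nat_lit 92) (.e (nat_lit 98372) (nat_lit 29) (.e (nat_lit 450579) (nat_lit 5) .nil))))) .nil)))) (.nd (nat_lit 4) (.nd (nat_lit 5) 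
(.lf (nat_lit 118280) (.g (nat_lit 1085) (.e (nat_lit 6209) (nat_lit 333) (.e (nat_lit 57794) (nat_lit 245) (.e (nat_lit 1159) (nat_lit 86) (.e (nat_lit 49188) (nat_lit 11) (.e (nat_lit 16462) (nat_lit 13) (.e (nat_lit 491264) (nat_lit 17) .nil)))))) (.g (nat_lit 5) .nil .nil))) 
(.lf (nat_lit 118312) (.g (nat_lit 1928) (.e (nat_lit 6209) (nat_lit 333) (.e (nat_lit 57896) (nat_lit 273) (.e (nat_lit 57464) (nat_lit 23) (.e (nat_lit 516165) (nat_lit 12) (.e (nat_lit 450579) (nat_lit 5) (.e (nat_lit 540416) (nat_lit 0) .nil)))))) (.g (nat_lit 5) .nil .nil)))) (.nd (nat_lit 5) 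
(.lf (nat_lit 118296) (.g (nat_lit 1762) (.e (nat_lit 6209) (nat_lit 333) (.e (nat_lit 57816) (nat_lit 246) (.e (nat_lit 57600) (nat_lit 84) (.e (nat_lit 516199) (nat_lit 26) (.e (nat_lit 336215) (nat_lit 13) (.e (nat_lit 401152) (nat_lit 0) .nil)))))) (.g (nat_lit 5) .nil .nil))) 
(.lf (nat_lit 118328) (.g (nat_lit 1805) (.e (nat_lit 6216) (nat_lit 333) (.e (nat_lit 57809) (nat_lit 246) (.e (nat_lit 57596) (nat_lit 82) (.e (nat_lit 499900) (nat_lit 7) (.e (nat_lit 24658) (nat_lit 13) (.e (nat_lit 401152) (nat_lit 0) .nil)))))) (.g (nat_lit 5) .nil .nil)))))) (.nd (nat_lit 3) (.nd (nat_lit 4) (.nd (nat_lit 5) 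
(.lf (nat_lit 118276) (.g (nat_lit 2400) (.e (nat_lit 6207) (nat_lit 333) (.e (nat_lit 57900) (nat_lit 276) (.e (nat_lit 122936) (nat_lit 23) (.e (nat_lit 516176) (nat_lit 14) (.e (nat_lit 466977) (nat_lit 22) (.e (nat_lit 196622) (nat_lit 9) (.e (nat_lit 1105) (nat_lit 81) .nil))))))) (.g (nat_lit 5) .nil .nil))) 
(.lf (nat_lit 118308) (.g (nat_lit 3467) (.e (nat_lit 6209) (nat_lit 333) (.e (nat_lit 57890) (nat_lit 270) (.e (nat_lit 1661) (nat_lit 115) (.e (nat_lit 393260) (nat_lit 21) (.e (nat_lit 409649) (nat_lit 18) (.e (nat_lit 303149) (nat_lit 15) .nil)))))) (.g (nat_lit 0) .nil .nil)))) (.nd (nat_lit 5) 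
(.lf (nat_lit 118292) (.g (nat_lit 1271) (.e (nat_lit 6209) (nat_lit 333) (.e (nat_lit 57816) (nat_lit 246) (.e (nat_lit 57596) (nat_lit 82) (.e (nat_lit 499900) (nat_lit 7) (.e (nat_lit 24655) (nat_lit 13) (.e (nat_lit 401152) (nat_lit 0) .nil)))))) (.g (nat_lit 5) .nil .nil))) 
(.lf (nat_lit 118324) (.g (nat_lit 1779) (.e (nat_lit 6216) (nat_lit 333) (.e (nat_lit 57608) (nat_lit 107) (.e (nat_lit 704738) (nat_lit 11) (.e (nat_lit 16392) (nat_lit 0) (.e (nat_lit 3279) (nat_lit 200) (.e (nat_lit 557107) (nat_lit 15) (.e (nat_lit 188417) (nat_lit 0) .nil))))))) (.g (nat_lit 4) .nil .nil))))) (.nd (nat_lit 4) (.nd (nat_lit 5) 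
(.lf (nat_lit 118284) (.g (nat_lit 1305) (.e (nat_lit 6209) (nat_lit 333) (.e (nat_lit 57813) (nat_lit 246) (.e (nat_lit 57600) (nat_lit 84) (.e (nat_lit 516199) (nat_lit 26) (.e (nat_lit 336214) (nat_lit 13) (.e (nat_lit 401152) (nat_lit 0) .nil)))))) (.g (nat_lit 5) .nil .nil))) 
(.lf (nat_lit 118316) (.g (nat_lit 88) (.e (nat_lit 6212) (nat_lit 333) (.e (nat_lit 57900) (nat_lit 276) (.e (nat_lit 122936) (nat_lit 23) .nil))) .nil))) (.nd (nat_lit 5) 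
(.lf (nat_lit 118300) (.g (nat_lit 1015) (.e (nat_lit 6209) (nat_lit 333) (.e (nat_lit 57876) (nat_lit 270) (.e (nat_lit 371) (nat_lit 32) (.e (nat_lit 426542) (nat_lit 29) .nil)))) .nil)) 
(.lf (nat_lit 118332) (.g (nat_lit 2045) (.e (nat_lit 6216) (nat_lit 333) (.e (nat_lit 57809) (nat_lit 246) (.e (nat_lit 57600) (nat_lit 84) (.e (nat_lit 516199) (nat_lit 26) (.e (nat_lit 336215) (nat_lit 13) (.e (nat_lit 401152) (nat_lit 0) .nil)))))) (.g (nat_lit 5) .nil .nil))))))) (.nd (nat_lit 2) (.nd (nat_lit 3) (.nd (nat_lit 4) (.nd (nat_lit 5) 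
(.lf (nat_lit 118274) (.g (nat_lit 1533) (.e (nat_lit 6207) (nat_lit 333) (.e (nat_lit 57900) (nat_lit 276) (.e (nat_lit 122936) (nat_lit 23) (.e (nat_lit 516146) (nat_lit 9) (.e (nat_lit 426241) (nat_lit 9) (.e (nat_lit 426133) (nat_lit 3) (.e (nat_lit 212736) (nat_lit 17) .nil))))))) (.g (nat_lit 4) .nil .nil))) 
(.lf (nat_lit 118306) (.g (nat_lit 2305) (.e (nat_lit 6209) (nat_lit 333) (.e (nat_lit 57884) (nat_lit 270) (.e (nat_lit 1250) (nat_lit 92) (.e (nat_lit 98372) (nat_lit 29) (.e (nat_lit 450579) (nat_lit 5) (.e (nat_lit 540416) (nat_lit 0) .nil)))))) (.g (nat_lit 5) .nil .nil)))) (.nd (nat_lit 5) 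
(.lf (nat_lit 118290) (.g (nat_lit 1019) (.e (nat_lit 6209) (nat_lit 333) (.e (nat_lit 57814) (nat_lit 246) (.e (nat_lit 57600) (nat_lit 84) (.e (nat_lit 516199) (nat_lit 26) (.e (nat_lit 336214) (nat_lit 13) (.e (nat_lit 401152) (nat_lit 0) .nil)))))) (.g (nat_lit 4) .nil .nil))) 
(.lf (nat_lit 118322) (.g (nat_lit 1138) (.e (nat_lit 6214) (nat_lit 333) (.e (nat_lit 57891) (nat_lit 270) (.e (nat_lit 1661) (nat_lit 115) (.e (nat_lit 393260) (nat_lit 21) .nil)))) .nil)))) (.nd (nat_lit 4) (.nd (nat_lit 5) 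
(.lf (nat_lit 118282) (.g (nat_lit 1689) (.e (nat_lit 6209) (nat_lit 333) (.e (nat_lit 57813) (nat_lit 246) (.e (nat_lit 57596) (nat_lit 82) (.e (nat_lit 499900) (nat_lit 7) (.e (nat_lit 24658) (nat_lit 13) (.e (nat_lit 401152) (nat_lit 0) .nil)))))) (.g (nat_lit 5) .nil .nil))) 
(.lf (nat_lit 118314) (.g (nat_lit 1961) (.e (nat_lit 6210) (nat_lit 333) (.e (nat_lit 57900) (nat_lit 276) (.e (nat_lit 122936) (nat_lit 23) (.e (nat_lit 516176) (nat_lit 14) (.e (nat_lit 466981) (nat_lit 23) (.e (nat_lit 204814) (nat_lit 17) .nil)))))) (.g (nat_lit 6) .nil .nil)))) (.nd (nat_lit 5) 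
(.lf (nat_lit 118298) (.g (nat_lit 1270) (.e (nat_lit 6209) (nat_lit 333) (.e (nat_lit 57816) (nat_lit 246) (.e (nat_lit 57600) (nat_lit 84) (.e (nat_lit 516199) (nat_lit 26) (.e (nat_lit 336223) (nat_lit 13) (.e (nat_lit 401152) (nat_lit 0) .nil)))))) (.g (nat_lit 5) .nil .nil))) 
(.lf (nat_lit 118330) (.g (nat_lit 1170) (.e (nat_lit 6216) (nat_lit 333) (.e (nat_lit 57809) (nat_lit 246) (.e (nat_lit 57600) (nat_lit 84) (.e (nat_lit 516199) (nat_lit 26) (.e (nat_lit 336213) (nat_lit 13) (.e (nat_lit 401152) (nat_lit 0) .nil)))))) (.g (nat_lit 5) .nil .nil)))))) (.nd (nat_lit 3) (.nd (nat_lit 4) (.nd (nat_lit 5) 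
(.lf (nat_lit 118278) (.g (nat_lit 1714) (.e (nat_lit 6208) (nat_lit 333) (.e (nat_lit 57890) (nat_lit 270) (.e (nat_lit 1661) (nat_lit 115) (.e (nat_lit 393260) (nat_lit 21) (.e (nat_lit 409649) (nat_lit 18) .nil))))) .nil)) 
(.lf (nat_lit 118310) (.g (nat_lit 2286) (.e (nat_lit 6209) (nat_lit 333) (.e (nat_lit 57893) (nat_lit 271) (.e (nat_lit 8226) (nat_lit 15) (.e (nat_lit 532558) (nat_lit 14) (.e (nat_lit 376842) (nat_lit 11) (.e (nat_lit 426406) (nat_lit 15) .nil)))))) (.g (nat_lit 5) .nil .nil)))) (.nd (nat_lit 5) 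
(.lf (nat_lit 118294) (.g (nat_lit 869) (.e (nat_lit 6209) (nat_lit 333) (.e (nat_lit 57816) (nat_lit 246) (.e (nat_lit 57600) (nat_lit 84) (.e (nat_lit 516199) (nat_lit 26) (.e (nat_lit 336213) (nat_lit 13) (.e (nat_lit 401152) (nat_lit 0) .nil)))))) (.g (nat_lit 4) .nil .nil))) 
(.lf (nat_lit 118326) (.g (nat_lit 1025) (.e (nat_lit 6216) (nat_lit 333) (.e (nat_lit 57808) (nat_lit 246) (.e (nat_lit 57600) (nat_lit 84) (.e (nat_lit 516199) (nat_lit 26) (.e (nat_lit 336214) (nat_lit 13) (.e (nat_lit 401152) (nat_lit 0) .nil)))))) (.g (nat_lit 4) .nil .nil))))) (.nd (nat_lit 4) (.nd (nat_lit 5) 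
(.lf (nat_lit 118286) (.g (nat_lit 1309) (.e (nat_lit 6209) (nat_lit 333) (.e (nat_lit 57813) (nat_lit 246) (.e (nat_lit 57600) (nat_lit 84) (.e (nat_lit 516199) (nat_lit 26) (.e (nat_lit 336221) (nat_lit 13) (.e (nat_lit 393221) (nat_lit 0) .nil)))))) (.g (nat_lit 4) .nil .nil))) 
(.lf (nat_lit 118318) (.g (nat_lit 1835) (.e (nat_lit 6212) (nat_lit 333) (.e (nat_lit 57900) (nat_lit 276) (.e (nat_lit 122936) (nat_lit 23) (.e (nat_lit 516176) (nat_lit 14) (.e (nat_lit 466981) (nat_lit 23) (.e (nat_lit 204814) (nat_lit 17) .nil)))))) (.g (nat_lit 5) .nil .nil)))) (.nd (nat_lit 5) 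
(.lf (nat_lit 118302) (.g (nat_lit 888) (.e (nat_lit 6209) (nat_lit 333) (.e (nat_lit 57878) (nat_lit 270) (.e (nat_lit 371) (nat_lit 32) (.e (nat_lit 426546) (nat_lit 30) (.e (nat_lit 360466) (nat_lit 3) .nil))))) .nil)) 
(.lf (nat_lit 118334) (.g (nat_lit 1557) (.e (nat_lit 6216) (nat_lit 333) (.e (nat_lit 57809) (nat_lit 246) (.e (nat_lit 57600) (nat_lit 84) (.e (nat_lit 516199) (nat_lit 26) (.e (nat_lit 336223) (nat_lit 13) (.e (nat_lit 401152) (nat_lit 0) .nil)))))) (.g (nat_lit 5) .nil .nil)))))))) (.nd (nat_lit 1) (.nd (nat_lit 2) (.nd (nat_lit 3) (.nd (nat_lit 4) (.nd (nat_lit 5) 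
(.lf (nat_lit 118273) (.g (nat_lit 2833) (.e (nat_lit 6207) (nat_lit 333) (.e (nat_lit 57898) (nat_lit 275) (.e (nat_lit 73775) (nat_lit 26) (.e (nat_lit 778465) (nat_lit 11) (.e (nat_lit 24665) (nat_lit 14) (.e (nat_lit 401465) (nat_lit 15) .nil)))))) (.g (nat_lit 5) .nil .nil))) 
(.lf (nat_lit 118305) (.g (nat_lit 4117) (.e (nat_lit 6209) (nat_lit 333) (.e (nat_lit 57884) (nat_lit 270) (.e (nat_lit 1232) (nat_lit 91) (.e (nat_lit 90170) (nat_lit 13) (.e (nat_lit 172106) (nat_lit 10) (.e (nat_lit 434231) (nat_lit 23) (.e (nat_lit 540416) (nat_lit 0) .nil))))))) (.g (nat_lit 6) .nil .nil)))) (.nd (nat_lit 5) 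
(.lf (nat_lit 118289) (.g (nat_lit 748) (.e (nat_lit 6209) (nat_lit 333) (.e (nat_lit 57814) (nat_lit 246) (.e (nat_lit 57600) (nat_lit 84) (.e (nat_lit 516199) (nat_lit 26) (.e (nat_lit 336213) (nat_lit 13) (.e (nat_lit 401152) (nat_lit 0) .nil)))))) (.g (nat_lit 4) .nil .nil))) 
(.lf (nat_lit 118321) (.g (nat_lit 780) (.e (nat_lit 6214) (nat_lit 333) (.e (nat_lit 57881) (nat_lit 270) (.e (nat_lit 174) (nat_lit 12) .nil))) .nil)))) (.nd (nat_lit 4) (.nd (nat_lit 5) 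
(.lf (nat_lit 118281) (.g (nat_lit 1427) (.e (nat_lit 6209) (nat_lit 333) (.e (nat_lit 57813) (nat_lit 246) (.e (nat_lit 57596) (nat_lit 82) (.e (nat_lit 499900) (nat_lit 7) (.e (nat_lit 24655) (nat_lit 13) (.e (nat_lit 401152) (nat_lit 0) .nil)))))) (.g (nat_lit 5) .nil .nil))) 
(.lf (nat_lit 118313) (.g (nat_lit 3130) (.e (nat_lit 6209) (nat_lit 333) (.e (nat_lit 57898) (nat_lit 275) (.e (nat_lit 73775) (nat_lit 26) (.e (nat_lit 778465) (nat_lit 11) (.e (nat_lit 24665) (nat_lit 14) (.e (nat_lit 401465) (nat_lit 15) .nil)))))) (.g (nat_lit 6) .nil .nil)))) (.nd (nat_lit 5) 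
(.lf (nat_lit 118297) (.g (nat_lit 2015) (.e (nat_lit 6209) (nat_lit 333) (.e (nat_lit 57816) (nat_lit 246) (.e (nat_lit 57600) (nat_lit 84) (.e (nat_lit 516199) (nat_lit 26) (.e (nat_lit 336220) (nat_lit 13) (.e (nat_lit 393221) (nat_lit 0) .nil)))))) (.g (nat_lit 0) .nil .nil))) 
(.lf (nat_lit 118329) (.g (nat_lit 1808) (.e (nat_lit 6216) (nat_lit 333) (.e (nat_lit 57809) (nat_lit 246) (.e (nat_lit 57596) (nat_lit 82) (.e (nat_lit 499900) (nat_lit 7) (.e (nat_lit 24660) (nat_lit 13) (.e (nat_lit 393221) (nat_lit 0) .nil)))))) (.g (nat_lit 0) .nil .nil)))))) (.nd (nat_lit 3) (.nd (nat_lit 4) (.nd (nat_lit 5) 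
(.lf (nat_lit 118277) (.g (nat_lit 1184) (.e (nat_lit 6207) (nat_lit 333) (.e (nat_lit 57900) (nat_lit 276) (.e (nat_lit 122936) (nat_lit 23) (.e (nat_lit 516176) (nat_lit 14) (.e (nat_lit 466981) (nat_lit 23) (.e (nat_lit 212736) (nat_lit 17) .nil)))))) (.g (nat_lit 4) .nil .nil))) 
(.lf (nat_lit 118309) (.g (nat_lit 1092) (.e (nat_lit 6209) (nat_lit 333) (.e (nat_lit 57893) (nat_lit 271) (.e (nat_lit 8226) (nat_lit 15) (.e (nat_lit 532533) (nat_lit 9) (.e (nat_lit 336211) (nat_lit 13) (.e (nat_lit 393220) (nat_lit 0) .nil)))))) (.g (nat_lit 4) .nil .nil)))) (.nd (nat_lit 5) 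
(.lf (nat_lit 118293) (.g (nat_lit 1532) (.e (nat_lit 6209) (nat_lit 333) (.e (nat_lit 57816) (nat_lit 246) (.e (nat_lit 57596) (nat_lit 82) (.e (nat_lit 499900) (nat_lit 7) (.e (nat_lit 24658) (nat_lit 13) (.e (nat_lit 401152) (nat_lit 0) .nil)))))) (.g (nat_lit 5) .nil .nil))) 
(.lf (nat_lit 118325) (.g (nat_lit 778) (.e (nat_lit 6216) (nat_lit 333) (.e (nat_lit 57808) (nat_lit 246) (.e (nat_lit 57600) (nat_lit 84) (.e (nat_lit 516199) (nat_lit 26) (.e (nat_lit 336213) (nat_lit 13) (.e (nat_lit 401152) (nat_lit 0) .nil)))))) (.g (nat_lit 4) .nil .nil))))) (.nd (nat_lit 4) (.nd (nat_lit 5) 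
(.lf (nat_lit 118285) (.g (nat_lit 1926) (.e (nat_lit 6209) (nat_lit 333) (.e (nat_lit 57813) (nat_lit 246) (.e (nat_lit 57600) (nat_lit 84) (.e (nat_lit 516199) (nat_lit 26) (.e (nat_lit 336215) (nat_lit 13) (.e (nat_lit 401152) (nat_lit 0) .nil)))))) (.g (nat_lit 5) .nil .nil))) 
(.lf (nat_lit 118317) (.g (nat_lit 2305) (.e (nat_lit 6212) (nat_lit 333) (.e (nat_lit 57900) (nat_lit 276) (.e (nat_lit 122936) (nat_lit 23) (.e (nat_lit 516174) (nat_lit 14) (.e (nat_lit 466980) (nat_lit 23) (.e (nat_lit 204819) (nat_lit 17) .nil)))))) (.g (nat_lit 0) .nil .nil)))) (.nd (nat_lit 5) 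
(.lf (nat_lit 118301) (.g (nat_lit 1788) (.e (nat_lit 6209) (nat_lit 333) (.e (nat_lit 57876) (nat_lit 270) (.e (nat_lit 1256) (nat_lit 92) (.e (nat_lit 98372) (nat_lit 29) (.e (nat_lit 450579) (nat_lit 5) (.e (nat_lit 540416) (nat_lit 0) .nil)))))) (.g (nat_lit 5) .nil .nil))) 
(.lf (nat_lit 118333) (.g (nat_lit 2001) (.e (nat_lit 6216) (nat_lit 333) (.e (nat_lit 57809) (nat_lit 246) (.e (nat_lit 57600) (nat_lit 84) (.e (nat_lit 516199) (nat_lit 26) (.e (nat_lit 336220) (nat_lit 13) (.e (nat_lit 393221) (nat_lit 0) .nil)))))) (.g (nat_lit 0) .nil .nil))))))) (.nd (nat_lit 2) (.nd (nat_lit 3) (.nd (nat_lit 4) (.nd (nat_lit 5) 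
(.lf (nat_lit 118275) (.g (nat_lit 2278) (.e (nat_lit 6207) (nat_lit 333) (.e (nat_lit 57900) (nat_lit 276) (.e (nat_lit 122936) (nat_lit 23) (.e (nat_lit 516176) (nat_lit 14) (.e (nat_lit 466977) (nat_lit 22) (.e (nat_lit 196619) (nat_lit 9) (.e (nat_lit 1053) (nat_lit 81) .nil))))))) (.g (nat_lit 5) .nil .nil))) 
(.lf (nat_lit 118307) (.g (nat_lit 2649) (.e (nat_lit 6209) (nat_lit 333) (.e (nat_lit 57890) (nat_lit 270) (.e (nat_lit 1661) (nat_lit 115) (.e (nat_lit 393260) (nat_lit 21) (.e (nat_lit 409644) (nat_lit 18) .nil))))) .nil))) (.nd (nat_lit 5) 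
(.lf (nat_lit 118291) (.g (nat_lit 1640) (.e (nat_lit 6209) (nat_lit 333) (.e (nat_lit 57814) (nat_lit 246) (.e (nat_lit 57608) (nat_lit 107) (.e (nat_lit 704738) (nat_lit 11) (.e (nat_lit 16464) (nat_lit 13) (.e (nat_lit 491264) (nat_lit 17) .nil)))))) (.g (nat_lit 5) .nil .nil))) 
(.lf (nat_lit 118323) (.g (nat_lit 1314) (.e (nat_lit 6215) (nat_lit 333) (.e (nat_lit 57883) (nat_lit 270) (.e (nat_lit 371) (nat_lit 32) (.e (nat_lit 426544) (nat_lit 30) (.e (nat_lit 360467) (nat_lit 3) .nil))))) .nil)))) (.nd (nat_lit 4) (.nd (nat_lit 5) 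
(.lf (nat_lit 118283) (.g (nat_lit 1039) (.e (nat_lit 6209) (nat_lit 333) (.e (nat_lit 57813) (nat_lit 246) (.e (nat_lit 57600) (nat_lit 84) (.e (nat_lit 516199) (nat_lit 26) (.e (nat_lit 336213) (nat_lit 13) (.e (nat_lit 401152) (nat_lit 0) .nil)))))) (.g (nat_lit 5) .nil .nil))) 
(.lf (nat_lit 118315) (.g (nat_lit 2458) (.e (nat_lit 6212) (nat_lit 333) (.e (nat_lit 57896) (nat_lit 273) (.e (nat_lit 57464) (nat_lit 23) (.e (nat_lit 516151) (nat_lit 9) (.e (nat_lit 426289) (nat_lit 10) .nil))))) .nil))) (.nd (nat_lit 5) 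
(.lf (nat_lit 118299) (.g (nat_lit 1784) (.e (nat_lit 6209) (nat_lit 333) (.e (nat_lit 65280) (nat_lit 258) (.e (nat_lit 24662) (nat_lit 14) (.e (nat_lit 401459) (nat_lit 13) (.e (nat_lit 491264) (nat_lit 17) .nil))))) (.g (nat_lit 4) .nil .nil))) 
(.lf (nat_lit 118331) (.g (nat_lit 1424) (.e (nat_lit 6216) (nat_lit 333) (.e (nat_lit 57809) (nat_lit 246) (.e (nat_lit 57600) (nat_lit 84) (.e (nat_lit 516199) (nat_lit 26) (.e (nat_lit 336214) (nat_lit 13) (.e (nat_lit 401152) (nat_lit 0) .nil)))))) (.g (nat_lit 5) .nil .nil)))))) (.nd (nat_lit 3) (.nd (nat_lit 4) (.nd (nat_lit 5) 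
(.lf (nat_lit 118279) (.g (nat_lit 1031) (.e (nat_lit 6209) (nat_lit 333) (.e (nat_lit 57794) (nat_lit 245) (.e (nat_lit 1159) (nat_lit 86) (.e (nat_lit 49187) (nat_lit 11) (.e (nat_lit 16465) (nat_lit 13) (.e (nat_lit 491264) (nat_lit 17) .nil)))))) (.g (nat_lit 5) .nil .nil))) 
(.lf (nat_lit 118311) (.g (nat_lit 2127) (.e (nat_lit 6209) (nat_lit 333) (.e (nat_lit 57893) (nat_lit 271) (.e (nat_lit 8226) (nat_lit 15) (.e (nat_lit 532560) (nat_lit 14) (.e (nat_lit 376842) (nat_lit 11) (.e (nat_lit 426406) (nat_lit 15) .nil)))))) (.g (nat_lit 5) .nil .nil)))) (.nd (nat_lit 5) 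
(.lf (nat_lit 118295) (.g (nat_lit 1145) (.e (nat_lit 6209) (nat_lit 333) (.e (nat_lit 57816) (nat_lit 246) (.e (nat_lit 57600) (nat_lit 84) (.e (nat_lit 516199) (nat_lit 26) (.e (nat_lit 336214) (nat_lit 13) (.e (nat_lit 401152) (nat_lit 0) .nil)))))) (.g (nat_lit 5) .nil .nil))) 
(.lf (nat_lit 118327) (.g (nat_lit 1539) (.e (nat_lit 6216) (nat_lit 333) (.e (nat_lit 57809) (nat_lit 246) (.e (nat_lit 57596) (nat_lit 82) (.e (nat_lit 499900) (nat_lit 7) (.e (nat_lit 24655) (nat_lit 13) (.e (nat_lit 401152) (nat_lit 0) .nil)))))) (.g (nat_lit 5) .nil .nil))))) (.nd (nat_lit 4) (.nd (nat_lit 5) 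
(.lf (nat_lit 118287) (.g (nat_lit 1438) (.e (nat_lit 6209) (nat_lit 333) (.e (nat_lit 57813) (nat_lit 246) (.e (nat_lit 57600) (nat_lit 84) (.e (nat_lit 516199) (nat_lit 26) (.e (nat_lit 336223) (nat_lit 13) (.e (nat_lit 401152) (nat_lit 0) .nil)))))) (.g (nat_lit 5) .nil .nil))) 
(.lf (nat_lit 118319) (.g (nat_lit 2993) (.e (nat_lit 6212) (nat_lit 333) (.e (nat_lit 57900) (nat_lit 276) (.e (nat_lit 122936) (nat_lit 23) (.e (nat_lit 516176) (nat_lit 14) (.e (nat_lit 466981) (nat_lit 23) (.e (nat_lit 204819) (nat_lit 17) .nil)))))) (.g (nat_lit 0) .nil .nil)))) (.nd (nat_lit 5) 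
(.lf (nat_lit 118303) (.g (nat_lit 616) (.e (nat_lit 6209) (nat_lit 333) (.e (nat_lit 57881) (nat_lit 270) (.e (nat_lit 174) (nat_lit 12) .nil))) .nil)) 
(.lf (nat_lit 118335) (.g (nat_lit 1567) (.e (nat_lit 6216) (nat_lit 333) (.e (nat_lit 57810) (nat_lit 246) (.e (nat_lit 57596) (nat_lit 82) (.e (nat_lit 499900) (nat_lit 7) (.e (nat_lit 24655) (nat_lit 13) (.e (nat_lit 401152) (nat_lit 0) .nil)))))) (.g (nat_lit 5) .nil .nil)))))))))

noncomputable def tv1583 : DT := (.nd (nat_lit 0) (.nd (nat_lit 1) (.nd (nat_lit 2) (.nd (nat_lit 3) (.nd (nat_lit 4) (.nd (nat_lit 5) 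
(.lf (nat_lit 118336) (.g (nat_lit 1834) (.e (nat_lit 6216) (nat_lit 333) (.e (nat_lit 57810) (nat_lit 246) (.e (nat_lit 57596) (nat_lit 82) (.e (nat_lit 499900) (nat_lit 7) (.e (nat_lit 24658) (nat_lit 13) (.e (nat_lit 401152) (nat_lit 0) .nil)))))) (.g (nat_lit 5) .nil .nil))) 
(.lf (nat_lit 118368) (.g (nat_lit 1872) (.e (nat_lit 6217) (nat_lit 333) (.e (nat_lit 57813) (nat_lit 246) (.e (nat_lit 57600) (nat_lit 84) (.e (nat_lit 516199) (nat_lit 26) (.e (nat_lit 336220) (nat_lit 13) (.e (nat_lit 393221) (nat_lit 0) .nil)))))) (.g (nat_lit 0) .nil .nil)))) (.nd (nat_lit 5) 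
(.lf (nat_lit 118352) (.g (nat_lit 2751) (.e (nat_lit 6216) (nat_lit 333) (.e (nat_lit 57887) (nat_lit 270) (.e (nat_lit 1656) (nat_lit 115) (.e (nat_lit 393265) (nat_lit 22) (.e (nat_lit 417820) (nat_lit 10) (.e (nat_lit 5664) (nat_lit 312) (.e (nat_lit 75) (nat_lit 0) .nil))))))) (.g (nat_lit 6) .nil .nil))) 
(.lf (nat_lit 118384) (.g (nat_lit 2123) (.e (nat_lit 6218) (nat_lit 333) (.e (nat_lit 57606) (nat_lit 107) (.e (nat_lit 704597) (nat_lit 6) (.e (nat_lit 188449) (nat_lit 22) (.e (nat_lit 204544) (nat_lit 2) (.e (nat_lit 24584) (nat_lit 0) .nil)))))) (.g (nat_lit 4) .nil .nil))))) (.nd (nat_lit 4) (.nd (nat_lit 5) 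
(.lf (nat_lit 118344) (.g (nat_lit 2463) (.e (nat_lit 6216) (nat_lit 333) (.e (nat_lit 57864) (nat_lit 256) (.e (nat_lit 317) (nat_lit 23) (.e (nat_lit 352316) (nat_lit 24) (.e (nat_lit 123197) (nat_lit 266) (.e (nat_lit 57406) (nat_lit 12) (.e (nat_lit 335977) (nat_lit 0) .nil))))))) (.g (nat_lit 7) .nil .nil))) 
(.lf (nat_lit 118376) (.g (nat_lit 779) (.e (nat_lit 6217) (nat_lit 333) (.e (nat_lit 57815) (nat_lit 246) (.e (nat_lit 57600) (nat_lit 84) (.e (nat_lit 516199) (nat_lit 26) (.e (nat_lit 336213) (nat_lit 13) (.e (nat_lit 401152) (nat_lit 0) .nil)))))) (.g (nat_lit 4) .nil .nil)))) (.nd (nat_lit 5) 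
(.lf (nat_lit 118360) (.g (nat_lit 944) (.e (nat_lit 6217) (nat_lit 333) (.e (nat_lit 57794) (nat_lit 245) (.e (nat_lit 1159) (nat_lit 86) (.e (nat_lit 49187) (nat_lit 11) (.e (nat_lit 16465) (nat_lit 13) (.e (nat_lit 491264) (nat_lit 17) .nil)))))) (.g (nat_lit 5) .nil .nil))) 
(.lf (nat_lit 118392) (.g (nat_lit 1554) (.e (nat_lit 6218) (nat_lit 333) (.e (nat_lit 57819) (nat_lit 248) (.e (nat_lit 164359) (nat_lit 246) (.e (nat_lit 2979) (nat_lit 185) (.e (nat_lit 434269) (nat_lit 36) (.e (nat_lit 639021) (nat_lit 16) (.e (nat_lit 65542) (nat_lit 0) .nil))))))) (.g (nat_lit 5) .nil .nil)))))) (.nd (nat_lit 3) (.nd (nat_lit 4) (.nd (nat_lit 5) 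
(.lf (nat_lit 118340) (.g (nat_lit 1988) (.e (nat_lit 6216) (nat_lit 333) (.e (nat_lit 57810) (nat_lit 246) (.e (nat_lit 57600) (nat_lit 84) (.e (nat_lit 516199) (nat_lit 26) (.e (nat_lit 336215) (nat_lit 13) (.e (nat_lit 401152) (nat_lit 0) .nil)))))) (.g (nat_lit 5) .nil .nil))) 
(.lf (nat_lit 118372) (.g (nat_lit 1474) (.e (nat_lit 6217) (nat_lit 333) (.e (nat_lit 57814) (nat_lit 246) (.e (nat_lit 57600) (nat_lit 84) (.e (nat_lit 516199) (nat_lit 26) (.e (nat_lit 336088) (nat_lit 9) (.e (nat_lit 336374) (nat_lit 27) (.e (nat_lit 426415) (nat_lit 15) .nil))))))) (.g (nat_lit 5) .nil .nil)))) (.nd (nat_lit 5) 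
(.lf (nat_lit 118356) (.g (nat_lit 2444) (.e (nat_lit 6216) (nat_lit 333) (.e (nat_lit 57891) (nat_lit 270) (.e (nat_lit 1428) (nat_lit 108) (.e (nat_lit 336369) (nat_lit 27) (.e (nat_lit 426173) (nat_lit 7) (.e (nat_lit 409649) (nat_lit 18) (.e (nat_lit 311040) (nat_lit 15) .nil))))))) (.g (nat_lit 6) .nil .nil))) 
(.lf (nat_lit 118388) (.g (nat_lit 1695) (.e (nat_lit 6218) (nat_lit 333) (.e (nat_lit 57819) (nat_lit 248) (.e (nat_lit 164359) (nat_lit 246) (.e (nat_lit 2826) (nat_lit 182) (.e (nat_lit 409638) (nat_lit 15) (.e (nat_lit 278566) (nat_lit 16) (.e (nat_lit 286721) (nat_lit 0) .nil))))))) (.g (nat_lit 0) .nil .nil))))) (.nd (nat_lit 4) (.nd (nat_lit 5) 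
(.lf (nat_lit 118348) (.g (nat_lit 925) (.e (nat_lit 6216) (nat_lit 333) (.e (nat_lit 57887) (nat_lit 270) (.e (nat_lit 1656) (nat_lit 115) (.e (nat_lit 393237) (nat_lit 17) .nil)))) .nil)) 
(.lf (nat_lit 118380) (.g (nat_lit 1688) (.e (nat_lit 6217) (nat_lit 333) (.e (nat_lit 57816) (nat_lit 246) (.e (nat_lit 57596) (nat_lit 82) (.e (nat_lit 499900) (nat_lit 7) (.e (nat_lit 24660) (nat_lit 13) (.e (nat_lit 393221) (nat_lit 0) .nil)))))) (.g (nat_lit 0) .nil .nil)))) (.nd (nat_lit 5) 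
(.lf (nat_lit 118364) (.g (nat_lit 1675) (.e (nat_lit 6217) (nat_lit 333) (.e (nat_lit 57813) (nat_lit 246) (.e (nat_lit 57596) (nat_lit 82) (.e (nat_lit 499900) (nat_lit 7) (.e (nat_lit 24660) (nat_lit 13) (.e (nat_lit 393221) (nat_lit 0) .nil)))))) (.g (nat_lit 0) .nil .nil))) 
(.lf (nat_lit 118396) (.g (nat_lit 1520) (.e (nat_lit 6218) (nat_lit 333) (.e (nat_lit 57887) (nat_lit 270) (.e (nat_lit 1656) (nat_lit 115) (.e (nat_lit 393265) (nat_lit 22) (.e (nat_lit 417820) (nat_lit 10) (.e (nat_lit 5626) (nat_lit 312) (.e (nat_lit 20) (nat_lit 0) .nil))))))) (.g (nat_lit 4) .nil .nil))))))) (.nd (nat_lit 2) (.nd (nat_lit 3) (.nd (nat_lit 4) (.nd (nat_lit 5) 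
(.lf (nat_lit 118338) (.g (nat_lit 1153) (.e (nat_lit 6216) (nat_lit 333) (.e (nat_lit 57810) (nat_lit 246) (.e (nat_lit 57600) (nat_lit 84) (.e (nat_lit 516199) (nat_lit 26) (.e (nat_lit 336213) (nat_lit 13) (.e (nat_lit 401152) (nat_lit 0) .nil)))))) (.g (nat_lit 5) .nil .nil))) 
(.lf (nat_lit 118370) (.g (nat_lit 1208) (.e (nat_lit 6217) (nat_lit 333) (.e (nat_lit 57813) (nat_lit 246) (.e (nat_lit 57600) (nat_lit 84) (.e (nat_lit 516199) (nat_lit 26) (.e (nat_lit 336223) (nat_lit 13) (.e (nat_lit 401152) (nat_lit 0) .nil)))))) (.g (nat_lit 5) .nil .nil)))) (.nd (nat_lit 5) 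
(.lf (nat_lit 118354) (.g (nat_lit 2395) (.e (nat_lit 6216) (nat_lit 333) (.e (nat_lit 57890) (nat_lit 270) (.e (nat_lit 1661) (nat_lit 115) (.e (nat_lit 393260) (nat_lit 21) (.e (nat_lit 409643) (nat_lit 18) (.e (nat_lit 303149) (nat_lit 15) .nil)))))) (.g (nat_lit 4) .nil .nil))) 
(.lf (nat_lit 118386) (.g (nat_lit 4146) (.e (nat_lit 6218) (nat_lit 333) (.e (nat_lit 57819) (nat_lit 248) (.e (nat_lit 171776) (nat_lit 84) (.e (nat_lit 516151) (nat_lit 9) (.e (nat_lit 426211) (nat_lit 9) (.e (nat_lit 426125) (nat_lit 2) (.e (nat_lit 196617) (nat_lit 9) (.e (nat_lit 1002) (nat_lit 81) .nil)))))))) (.g (nat_lit 7) .nil .nil))))) (.nd (nat_lit 4) (.nd (nat_lit 5) 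
(.lf (nat_lit 118346) (.g (nat_lit 3060) (.e (nat_lit 6216) (nat_lit 333) (.e (nat_lit 57887) (nat_lit 270) (.e (nat_lit 1232) (nat_lit 91) (.e (nat_lit 90170) (nat_lit 13) (.e (nat_lit 172106) (nat_lit 10) (.e (nat_lit 434231) (nat_lit 23) (.e (nat_lit 540416) (nat_lit 0) .nil))))))) (.g (nat_lit 6) .nil .nil))) 
(.lf (nat_lit 118378) (.g (nat_lit 1846) (.e (nat_lit 6217) (nat_lit 333) (.e (nat_lit 57815) (nat_lit 246) (.e (nat_lit 57600) (nat_lit 84) (.e (nat_lit 516199) (nat_lit 26) (.e (nat_lit 336220) (nat_lit 13) (.e (nat_lit 393221) (nat_lit 0) .nil)))))) (.g (nat_lit 0) .nil .nil)))) (.nd (nat_lit 5) 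
(.lf (nat_lit 118362) (.g (nat_lit 1167) (.e (nat_lit 6217) (nat_lit 333) (.e (nat_lit 57813) (nat_lit 246) (.e (nat_lit 57596) (nat_lit 82) (.e (nat_lit 499900) (nat_lit 7) (.e (nat_lit 24655) (nat_lit 13) (.e (nat_lit 401152) (nat_lit 0) .nil)))))) (.g (nat_lit 5) .nil .nil))) 
(.lf (nat_lit 118394) (.g (nat_lit 1704) (.e (nat_lit 6218) (nat_lit 333) (.e (nat_lit 65280) (nat_lit 258) (.e (nat_lit 24662) (nat_lit 14) (.e (nat_lit 401459) (nat_lit 13) (.e (nat_lit 483342) (nat_lit 17) .nil))))) (.g (nat_lit 4) .nil .nil)))))) (.nd (nat_lit 3) (.nd (nat_lit 4) (.nd (nat_lit 5) 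
(.lf (nat_lit 118342) (.g (nat_lit 1541) (.e (nat_lit 6216) (nat_lit 333) (.e (nat_lit 57810) (nat_lit 246) (.e (nat_lit 57600) (nat_lit 84) (.e (nat_lit 516199) (nat_lit 26) (.e (nat_lit 336223) (nat_lit 13) (.e (nat_lit 401152) (nat_lit 0) .nil)))))) (.g (nat_lit 5) .nil .nil))) 
(.lf (nat_lit 118374) (.g (nat_lit 1801) (.e (nat_lit 6217) (nat_lit 333) (.e (nat_lit 57814) (nat_lit 246) (.e (nat_lit 57600) (nat_lit 84) (.e (nat_lit 516199) (nat_lit 26) (.e (nat_lit 336222) (nat_lit 13) (.e (nat_lit 393221) (nat_lit 0) .nil)))))) (.g (nat_lit 0) .nil .nil)))) (.nd (nat_lit 5) 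
(.lf (nat_lit 118358) (.g (nat_lit 2224) (.e (nat_lit 6216) (nat_lit 333) (.e (nat_lit 57891) (nat_lit 270) (.e (nat_lit 1661) (nat_lit 115) (.e (nat_lit 393260) (nat_lit 21) (.e (nat_lit 409648) (nat_lit 18) (.e (nat_lit 311040) (nat_lit 15) .nil)))))) (.g (nat_lit 4) .nil .nil))) 
(.lf (nat_lit 118390) (.g (nat_lit 760) (.e (nat_lit 6218) (nat_lit 333) (.e (nat_lit 57819) (nat_lit 248) (.e (nat_lit 164359) (nat_lit 246) (.e (nat_lit 2963) (nat_lit 185) .nil)))) .nil)))) (.nd (nat_lit 4) (.nd (nat_lit 5) 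
(.lf (nat_lit 118350) (.g (nat_lit 3924) (.e (nat_lit 6216) (nat_lit 333) (.e (nat_lit 57887) (nat_lit 270) (.e (nat_lit 1656) (nat_lit 115) (.e (nat_lit 393265) (nat_lit 22) (.e (nat_lit 417820) (nat_lit 10) (.e (nat_lit 5626) (nat_lit 312) (.e (nat_lit 27) (nat_lit 0) .nil))))))) (.g (nat_lit 7) .nil .nil))) 
(.lf (nat_lit 118382) (.g (nat_lit 1859) (.e (nat_lit 6217) (nat_lit 333) (.e (nat_lit 57816) (nat_lit 246) (.e (nat_lit 57600) (nat_lit 84) (.e (nat_lit 516199) (nat_lit 26) (.e (nat_lit 336220) (nat_lit 13) (.e (nat_lit 393221) (nat_lit 0) .nil)))))) (.g (nat_lit 0) .nil .nil)))) (.nd (nat_lit 5) 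
(.lf (nat_lit 118366) (.g (nat_lit 822) (.e (nat_lit 6217) (nat_lit 333) (.e (nat_lit 57813) (nat_lit 246) (.e (nat_lit 57600) (nat_lit 84) (.e (nat_lit 516199) (nat_lit 26) (.e (nat_lit 336213) (nat_lit 13) (.e (nat_lit 401152) (nat_lit 0) .nil)))))) (.g (nat_lit 5) .nil .nil))) 
(.lf (nat_lit 118398) (.g (nat_lit 503) (.e (nat_lit 6219) (nat_lit 333) (.e (nat_lit 57884) (nat_lit 270) (.e (nat_lit 1225) (nat_lit 91) .nil))) .nil))))))) (.nd (nat_lit 1) (.nd (nat_lit 2) (.nd (nat_lit 3) (.nd (nat_lit 4) (.nd (nat_lit 5) 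
(.lf (nat_lit 118337) (.g (nat_lit 1831) (.e (nat_lit 6216) (nat_lit 333) (.e (nat_lit 57810) (nat_lit 246) (.e (nat_lit 57596) (nat_lit 82) (.e (nat_lit 499900) (nat_lit 7) (.e (nat_lit 24660) (nat_lit 13) (.e (nat_lit 393221) (nat_lit 0) .nil)))))) (.g (nat_lit 0) .nil .nil))) 
(.lf (nat_lit 118369) (.g (nat_lit 1803) (.e (nat_lit 6217) (nat_lit 333) (.e (nat_lit 57813) (nat_lit 246) (.e (nat_lit 57600) (nat_lit 84) (.e (nat_lit 516199) (nat_lit 26) (.e (nat_lit 336222) (nat_lit 13) (.e (nat_lit 393221) (nat_lit 0) .nil)))))) (.g (nat_lit 0) .nil .nil)))) (.nd (nat_lit 5) 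
(.lf (nat_lit 118353) (.g (nat_lit 1215) (.e (nat_lit 6216) (nat_lit 333) (.e (nat_lit 57890) (nat_lit 270) (.e (nat_lit 1428) (nat_lit 108) (.e (nat_lit 336369) (nat_lit 27) (.e (nat_lit 426173) (nat_lit 7) .nil))))) .nil)) 
(.lf (nat_lit 118385) (.g (nat_lit 3375) (.e (nat_lit 6218) (nat_lit 333) (.e (nat_lit 65280) (nat_lit 108) (.e (nat_lit 712755) (nat_lit 30) (.e (nat_lit 450588) (nat_lit 10) (.e (nat_lit 573503) (nat_lit 18) (.e (nat_lit 1348) (nat_lit 102) (.e (nat_lit 286721) (nat_lit 0) .nil))))))) (.g (nat_lit 6) .nil .nil))))) (.nd (nat_lit 4) (.nd (nat_lit 5) 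
(.lf (nat_lit 118345) (.g (nat_lit 671) (.e (nat_lit 6216) (nat_lit 333) (.e (nat_lit 57881) (nat_lit 270) (.e (nat_lit 174) (nat_lit 12) (.e (nat_lit 204850) (nat_lit 26) .nil)))) .nil)) 
(.lf (nat_lit 118377) (.g (nat_lit 1657) (.e (nat_lit 6217) (nat_lit 333) (.e (nat_lit 57815) (nat_lit 246) (.e (nat_lit 57600) (nat_lit 84) (.e (nat_lit 516199) (nat_lit 26) (.e (nat_lit 336215) (nat_lit 13) (.e (nat_lit 401152) (nat_lit 0) .nil)))))) (.g (nat_lit 5) .nil .nil)))) (.nd (nat_lit 5) 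
(.lf (nat_lit 118361) (.g (nat_lit 829) (.e (nat_lit 6217) (nat_lit 333) (.e (nat_lit 57794) (nat_lit 245) (.e (nat_lit 1159) (nat_lit 86) (.e (nat_lit 49188) (nat_lit 11) (.e (nat_lit 16462) (nat_lit 13) (.e (nat_lit 491264) (nat_lit 17) .nil)))))) (.g (nat_lit 5) .nil .nil))) 
(.lf (nat_lit 118393) (.g (nat_lit 3036) (.e (nat_lit 6218) (nat_lit 333) (.e (nat_lit 57862) (nat_lit 256) (.e (nat_lit 257) (nat_lit 21) (.e (nat_lit 336228) (nat_lit 14) (.e (nat_lit 401459) (nat_lit 13) (.e (nat_lit 483350) (nat_lit 17) .nil)))))) (.g (nat_lit 0) .nil .nil)))))) (.nd (nat_lit 3) (.nd (nat_lit 4) (.nd (nat_lit 5) 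
(.lf (nat_lit 118341) (.g (nat_lit 1986) (.e (nat_lit 6216) (nat_lit 333) (.e (nat_lit 57810) (nat_lit 246) (.e (nat_lit 57600) (nat_lit 84) (.e (nat_lit 516199) (nat_lit 26) (.e (nat_lit 336220) (nat_lit 13) (.e (nat_lit 393221) (nat_lit 0) .nil)))))) (.g (nat_lit 0) .nil .nil))) 
(.lf (nat_lit 118373) (.g (nat_lit 1870) (.e (nat_lit 6217) (nat_lit 333) (.e (nat_lit 57814) (nat_lit 246) (.e (nat_lit 57600) (nat_lit 84) (.e (nat_lit 516199) (nat_lit 26) (.e (nat_lit 336220) (nat_lit 13) (.e (nat_lit 393221) (nat_lit 0) .nil)))))) (.g (nat_lit 0) .nil .nil)))) (.nd (nat_lit 5) 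
(.lf (nat_lit 118357) (.g (nat_lit 2077) (.e (nat_lit 6216) (nat_lit 333) (.e (nat_lit 57891) (nat_lit 270) (.e (nat_lit 1660) (nat_lit 115) (.e (nat_lit 393260) (nat_lit 21) (.e (nat_lit 409645) (nat_lit 18) .nil))))) .nil)) 
(.lf (nat_lit 118389) (.g (nat_lit 1151) (.e (nat_lit 6218) (nat_lit 333) (.e (nat_lit 57819) (nat_lit 248) (.e (nat_lit 164359) (nat_lit 246) (.e (nat_lit 2826) (nat_lit 182) (.e (nat_lit 409638) (nat_lit 15) (.e (nat_lit 278567) (nat_lit 16) (.e (nat_lit 286721) (nat_lit 0) .nil))))))) (.g (nat_lit 4) .nil .nil))))) (.nd (nat_lit 4) (.nd (nat_lit 5) 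
(.lf (nat_lit 118349) (.g (nat_lit 3210) (.e (nat_lit 6216) (nat_lit 333) (.e (nat_lit 57887) (nat_lit 270) (.e (nat_lit 1656) (nat_lit 115) (.e (nat_lit 393259) (nat_lit 21) (.e (nat_lit 409645) (nat_lit 18) (.e (nat_lit 303149) (nat_lit 15) .nil)))))) (.g (nat_lit 6) .nil .nil))) 
(.lf (nat_lit 118381) (.g (nat_lit 653) (.e (nat_lit 6217) (nat_lit 333) (.e (nat_lit 57816) (nat_lit 246) (.e (nat_lit 57600) (nat_lit 84) (.e (nat_lit 516199) (nat_lit 26) (.e (nat_lit 336213) (nat_lit 13) .nil))))) .nil))) (.nd (nat_lit 5) 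
(.lf (nat_lit 118365) (.g (nat_lit 1362) (.e (nat_lit 6217) (nat_lit 333) (.e (nat_lit 57813) (nat_lit 246) (.e (nat_lit 57600) (nat_lit 84) (.e (nat_lit 516199) (nat_lit 26) (.e (nat_lit 336088) (nat_lit 9) (.e (nat_lit 336374) (nat_lit 27) (.e (nat_lit 426415) (nat_lit 15) .nil))))))) (.g (nat_lit 5) .nil .nil))) 
(.lf (nat_lit 118397) (.g (nat_lit 138) (.e (nat_lit 6219) (nat_lit 333) (.e (nat_lit 57865) (nat_lit 256) (.e (nat_lit 300) (nat_lit 22) (.e (nat_lit 352000) (nat_lit 4) .nil)))) .nil)))))) (.nd (nat_lit 2) (.nd (nat_lit 3) (.nd (nat_lit 4) (.nd (nat_lit 5) 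
(.lf (nat_lit 118339) (.g (nat_lit 1403) (.e (nat_lit 6216) (nat_lit 333) (.e (nat_lit 57810) (nat_lit 246) (.e (nat_lit 57600) (nat_lit 84) (.e (nat_lit 516199) (nat_lit 26) (.e (nat_lit 336214) (nat_lit 13) (.e (nat_lit 401152) (nat_lit 0) .nil)))))) (.g (nat_lit 5) .nil .nil))) 
(.lf (nat_lit 118371) (.g (nat_lit 1663) (.e (nat_lit 6217) (nat_lit 333) (.e (nat_lit 57814) (nat_lit 246) (.e (nat_lit 57596) (nat_lit 82) (.e (nat_lit 499900) (nat_lit 7) (.e (nat_lit 24660) (nat_lit 13) (.e (nat_lit 393221) (nat_lit 0) .nil)))))) (.g (nat_lit 0) .nil .nil)))) (.nd (nat_lit 5) 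
(.lf (nat_lit 118355) (.g (nat_lit 2189) (.e (nat_lit 6216) (nat_lit 333) (.e (nat_lit 57891) (nat_lit 270) (.e (nat_lit 1235) (nat_lit 91) (.e (nat_lit 90176) (nat_lit 15) (.e (nat_lit 188450) (nat_lit 23) (.e (nat_lit 212736) (nat_lit 17) .nil)))))) (.g (nat_lit 5) .nil .nil))) 
(.lf (nat_lit 118387) (.g (nat_lit 2545) (.e (nat_lit 6218) (nat_lit 333) (.e (nat_lit 57819) (nat_lit 248) (.e (nat_lit 171776) (nat_lit 84) (.e (nat_lit 516151) (nat_lit 9) (.e (nat_lit 426211) (nat_lit 9) (.e (nat_lit 426140) (nat_lit 3) (.e (nat_lit 212736) (nat_lit 17) .nil))))))) (.g (nat_lit 6) .nil .nil))))) (.nd (nat_lit 4) (.nd (nat_lit 5) 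
(.lf (nat_lit 118347) (.g (nat_lit 2213) (.e (nat_lit 6216) (nat_lit 333) (.e (nat_lit 57887) (nat_lit 270) (.e (nat_lit 1250) (nat_lit 92) (.e (nat_lit 98372) (nat_lit 29) (.e (nat_lit 450579) (nat_lit 5) (.e (nat_lit 540416) (nat_lit 0) .nil)))))) (.g (nat_lit 5) .nil .nil))) 
(.lf (nat_lit 118379) (.g (nat_lit 1778) (.e (nat_lit 6217) (nat_lit 333) (.e (nat_lit 57815) (nat_lit 246) (.e (nat_lit 57600) (nat_lit 84) (.e (nat_lit 516199) (nat_lit 26) (.e (nat_lit 336222) (nat_lit 13) (.e (nat_lit 393221) (nat_lit 0) .nil)))))) (.g (nat_lit 0) .nil .nil)))) (.nd (nat_lit 5) 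
(.lf (nat_lit 118363) (.g (nat_lit 1459) (.e (nat_lit 6217) (nat_lit 333) (.e (nat_lit 57813) (nat_lit 246) (.e (nat_lit 57596) (nat_lit 82) (.e (nat_lit 499900) (nat_lit 7) (.e (nat_lit 24658) (nat_lit 13) (.e (nat_lit 401152) (nat_lit 0) .nil)))))) (.g (nat_lit 5) .nil .nil))) 
(.lf (nat_lit 118395) (.g (nat_lit 2980) (.e (nat_lit 6218) (nat_lit 333) (.e (nat_lit 57887) (nat_lit 270) (.e (nat_lit 1250) (nat_lit 92) (.e (nat_lit 98372) (nat_lit 29) (.e (nat_lit 450579) (nat_lit 5) (.e (nat_lit 532480) (nat_lit 0) .nil)))))) (.g (nat_lit 0) .nil .nil)))))) (.nd (nat_lit 3) (.nd (nat_lit 4) (.nd (nat_lit 5) 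
(.lf (nat_lit 118343) (.g (nat_lit 1011) (.e (nat_lit 6216) (nat_lit 333) (.e (nat_lit 57864) (nat_lit 256) (.e (nat_lit 300) (nat_lit 22) (.e (nat_lit 344067) (nat_lit 0) (.e (nat_lit 2939) (nat_lit 184) (.e (nat_lit 426488) (nat_lit 27) (.e (nat_lit 335981) (nat_lit 0) .nil))))))) (.g (nat_lit 7) .nil .nil))) 
(.lf (nat_lit 118375) (.g (nat_lit 1647) (.e (nat_lit 6217) (nat_lit 333) (.e (nat_lit 57815) (nat_lit 246) (.e (nat_lit 57596) (nat_lit 82) (.e (nat_lit 499900) (nat_lit 7) (.e (nat_lit 24660) (nat_lit 13) (.e (nat_lit 393221) (nat_lit 0) .nil)))))) (.g (nat_lit 0) .nil .nil)))) (.nd (nat_lit 5) 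
(.lf (nat_lit 118359) (.g (nat_lit 2023) (.e (nat_lit 6216) (nat_lit 333) (.e (nat_lit 57891) (nat_lit 270) (.e (nat_lit 1661) (nat_lit 115) (.e (nat_lit 393260) (nat_lit 21) (.e (nat_lit 409649) (nat_lit 18) (.e (nat_lit 311040) (nat_lit 15) .nil)))))) (.g (nat_lit 4) .nil .nil))) 
(.lf (nat_lit 118391) (.g (nat_lit 1723) (.e (nat_lit 6218) (nat_lit 333) (.e (nat_lit 57819) (nat_lit 248) (.e (nat_lit 164359) (nat_lit 246) (.e (nat_lit 2973) (nat_lit 185) (.e (nat_lit 434269) (nat_lit 36) (.e (nat_lit 639021) (nat_lit 16) (.e (nat_lit 65542) (nat_lit 0) .nil))))))) (.g (nat_lit 0) .nil .nil))))) (.nd (nat_lit 4) (.nd (nat_lit 5) 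
(.lf (nat_lit 118351) (.g (nat_lit 3723) (.e (nat_lit 6216) (nat_lit 333) (.e (nat_lit 57887) (nat_lit 270) (.e (nat_lit 1656) (nat_lit 115) (.e (nat_lit 393265) (nat_lit 22) (.e (nat_lit 417820) (nat_lit 10) (.e (nat_lit 5626) (nat_lit 312) (.e (nat_lit 78) (nat_lit 0) .nil))))))) (.g (nat_lit 6) .nil .nil))) 
(.lf (nat_lit 118383) (.g (nat_lit 1800) (.e (nat_lit 6217) (nat_lit 333) (.e (nat_lit 57816) (nat_lit 246) (.e (nat_lit 57600) (nat_lit 84) (.e (nat_lit 516199) (nat_lit 26) (.e (nat_lit 336222) (nat_lit 13) (.e (nat_lit 393221) (nat_lit 0) .nil)))))) (.g (nat_lit 0) .nil .nil)))) (.nd (nat_lit 5) 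
(.lf (nat_lit 118367) (.g (nat_lit 1691) (.e (nat_lit 6217) (nat_lit 333) (.e (nat_lit 57813) (nat_lit 246) (.e (nat_lit 57600) (nat_lit 84) (.e (nat_lit 516199) (nat_lit 26) (.e (nat_lit 336215) (nat_lit 13) (.e (nat_lit 401152) (nat_lit 0) .nil)))))) (.g (nat_lit 5) .nil .nil))) 
(.lf (nat_lit 118399) (.g (nat_lit 1290) (.e (nat_lit 6219) (nat_lit 333) (.e (nat_lit 57884) (nat_lit 270) (.e (nat_lit 1232) (nat_lit 91) (.e (nat_lit 90176) (nat_lit 15) .nil)))) .nil))))))))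

noncomputable def tv1584 : DT := (.nd (nat_lit 0) (.nd (nat_lit 1) (.nd (nat_lit 2) (.nd (nat_lit 3) (.nd (nat_lit 4) (.nd (nat_lit 5) (.nd (nat_lit 6) 
(.lf (nat_lit 118400) (.g (nat_lit 2344) (.e (nat_lit 6220) (nat_lit 333) (.e (nat_lit 57876) (nat_lit 270) (.e (nat_lit 1256) (nat_lit 92) (.e (nat_lit 98372) (nat_lit 29) (.e (nat_lit 450579) (nat_lit 5) (.e (nat_lit 532482) (nat_lit 0) .nil)))))) (.g (nat_lit 0) .nil .nil))) 
(.lf (nat_lit 118464) (.g (nat_lit 1438) (.e (nat_lit 6264) (nat_lit 337) (.e (nat_lit 1221) (nat_lit 90) (.e (nat_lit 81938) (nat_lit 20) (.e (nat_lit 1963) (nat_lit 134) .nil)))) .nil))) (.nd (nat_lit 6) 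
(.lf (nat_lit 118432) (.g (nat_lit 1035) (.e (nat_lit 6238) (nat_lit 336) (.e (nat_lit 229497) (nat_lit 84) (.e (nat_lit 516166) (nat_lit 12) (.e (nat_lit 450588) (nat_lit 10) .nil)))) .nil)) 
(.lf (nat_lit 118496) (.g (nat_lit 2018) (.e (nat_lit 6274) (nat_lit 337) (.e (nat_lit 1214) (nat_lit 89) (.e (nat_lit 73754) (nat_lit 8) (.e (nat_lit 557101) (nat_lit 13) (.e (nat_lit 172136) (nat_lit 15) .nil))))) .nil)))) (.nd (nat_lit 5) (.nd (nat_lit 6) 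
(.lf (nat_lit 118416) (.g (nat_lit 970) (.e (nat_lit 6234) (nat_lit 335) (.e (nat_lit 164372) (nat_lit 250) (.e (nat_lit 172143) (nat_lit 25) (.e (nat_lit 319490) (nat_lit 0) (.e (nat_lit 5771) (nat_lit 316) (.e (nat_lit 172128) (nat_lit 15) .nil)))))) (.g (nat_lit 0) .nil .nil))) 
(.lf (nat_lit 118480) (.g (nat_lit 2018) (.e (nat_lit 6270) (nat_lit 337) (.e (nat_lit 1214) (nat_lit 89) (.e (nat_lit 73754) (nat_lit 8) (.e (nat_lit 557101) (nat_lit 13) (.e (nat_lit 172136) (nat_lit 15) .nil))))) .nil))) (.nd (nat_lit 6) 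
(.lf (nat_lit 118448) (.g (nat_lit 674) (.e (nat_lit 6255) (nat_lit 337) (.e (nat_lit 2630) (nat_lit 164) (.e (nat_lit 172046) (nat_lit 0) .nil))) .nil)) 
(.lf (nat_lit 118512) (.g (nat_lit 2018) (.e (nat_lit 6277) (nat_lit 337) (.e (nat_lit 1214) (nat_lit 89) (.e (nat_lit 73754) (nat_lit 8) (.e (nat_lit 557101) (nat_lit 13) (.e (nat_lit 172136) (nat_lit 15) .nil))))) .nil))))) (.nd (nat_lit 4) (.nd (nat_lit 5) (.nd (nat_lit 6) 
(.lf (nat_lit 118408) (.g (nat_lit 2399) (.e (nat_lit 6223) (nat_lit 334) (.e (nat_lit 123212) (nat_lit 273) (.e (nat_lit 57464) (nat_lit 23) (.e (nat_lit 516163) (nat_lit 11) (.e (nat_lit 442427) (nat_lit 23) (.e (nat_lit 204821) (nat_lit 17) .nil)))))) (.g (nat_lit 6) .nil .nil))) 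
(.lf (nat_lit 118472) (.g (nat_lit 988) (.e (nat_lit 6270) (nat_lit 337) (.e (nat_lit 1207) (nat_lit 89) (.e (nat_lit 73754) (nat_lit 8) (.e (nat_lit 557101) (nat_lit 13) .nil)))) .nil))) (.nd (nat_lit 6) 
(.lf (nat_lit 118440) (.g (nat_lit 850) (.e (nat_lit 6244) (nat_lit 336) (.e (nat_lit 229694) (nat_lit 250) (.e (nat_lit 172143) (nat_lit 25) (.e (nat_lit 319490) (nat_lit 0) (.e (nat_lit 5766) (nat_lit 316) (.e (nat_lit 172130) (nat_lit 15) .nil)))))) (.g (nat_lit 4) .nil .nil))) 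
(.lf (nat_lit 118504) (.g (nat_lit 1059) (.e (nat_lit 6276) (nat_lit 337) (.e (nat_lit 1296) (nat_lit 96) (.e (nat_lit 131128) (nat_lit 13) (.e (nat_lit 393265) (nat_lit 22) .nil)))) .nil)))) (.nd (nat_lit 5) (.nd (nat_lit 6) 
(.lf (nat_lit 118424) (.g (nat_lit 917) (.e (nat_lit 6236) (nat_lit 335) (.e (nat_lit 164353) (nat_lit 246) (.e (nat_lit 351) (nat_lit 28) (.e (nat_lit 393264) (nat_lit 22) (.e (nat_lit 417795) (nat_lit 0) (.e (nat_lit 577) (nat_lit 43) (.e (nat_lit 524032) (nat_lit 17) .nil))))))) (.g (nat_lit 4) .nil .nil))) 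
(.lf (nat_lit 118488) (.g (nat_lit 1757) (.e (nat_lit 6273) (nat_lit 337) (.e (nat_lit 1207) (nat_lit 89) (.e (nat_lit 73755) (nat_lit 8) (.e (nat_lit 557091) (nat_lit 12) (.e (nat_lit 164213) (nat_lit 176) .nil))))) .nil))) (.nd (nat_lit 6) 
(.lf (nat_lit 118456) (.g (nat_lit 1776) (.e (nat_lit 6264) (nat_lit 337) (.e (nat_lit 1199) (nat_lit 88) (.e (nat_lit 65586) (nat_lit 7) (.e (nat_lit 319531) (nat_lit 16) (.e (nat_lit 286748) (nat_lit 9) .nil))))) .nil)) 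
(.lf (nat_lit 118520) (.g (nat_lit 1542) (.e (nat_lit 6296) (nat_lit 337) (.e (nat_lit 1209) (nat_lit 89) (.e (nat_lit 73753) (nat_lit 8) (.e (nat_lit 557094) (nat_lit 12) .nil)))) .nil)))))) (.nd (nat_lit 3) (.nd (nat_lit 4) (.nd (nat_lit 5) (.nd (nat_lit 6) 
(.lf (nat_lit 118404) (.g (nat_lit 1945) (.e (nat_lit 6221) (nat_lit 333) (.e (nat_lit 57884) (nat_lit 270) (.e (nat_lit 1232) (nat_lit 91) (.e (nat_lit 90176) (nat_lit 15) (.e (nat_lit 188450) (nat_lit 23) .nil))))) .nil)) 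
(.lf (nat_lit 118468) (.g (nat_lit 2413) (.e (nat_lit 6264) (nat_lit 337) (.e (nat_lit 1221) (nat_lit 90) (.e (nat_lit 81965) (nat_lit 26) (.e (nat_lit 147496) (nat_lit 11) (.e (nat_lit 24617) (nat_lit 7) (.e (nat_lit 319511) (nat_lit 10) (.e (nat_lit 59) (nat_lit 0) .nil))))))) (.g (nat_lit 5) .nil .nil)))) (.nd (nat_lit 6) 
(.lf (nat_lit 118436) (.g (nat_lit 796) (.e (nat_lit 6242) (nat_lit 336) (.e (nat_lit 229694) (nat_lit 250) (.e (nat_lit 172143) (nat_lit 25) (.e (nat_lit 319492) (nat_lit 0) (.e (nat_lit 5771) (nat_lit 316) (.e (nat_lit 172130) (nat_lit 15) .nil)))))) (.g (nat_lit 0) .nil .nil))) 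
(.lf (nat_lit 118500) (.g (nat_lit 1710) (.e (nat_lit 6276) (nat_lit 337) (.e (nat_lit 1296) (nat_lit 96) (.e (nat_lit 131091) (nat_lit 2) (.e (nat_lit 90185) (nat_lit 17) (.e (nat_lit 237605) (nat_lit 9) .nil))))) .nil)))) (.nd (nat_lit 5) (.nd (nat_lit 6) 
(.lf (nat_lit 118420) (.g (nat_lit 1175) (.e (nat_lit 6236) (nat_lit 335) (.e (nat_lit 164353) (nat_lit 246) (.e (nat_lit 226) (nat_lit 21) (.e (nat_lit 336432) (nat_lit 30) (.e (nat_lit 458496) (nat_lit 3) (.e (nat_lit 524032) (nat_lit 17) .nil)))))) (.g (nat_lit 4) .nil .nil))) 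
(.lf (nat_lit 118484) (.g (nat_lit 1566) (.e (nat_lit 6272) (nat_lit 337) (.e (nat_lit 1207) (nat_lit 89) (.e (nat_lit 73754) (nat_lit 8) (.e (nat_lit 557101) (nat_lit 13) (.e (nat_lit 172070) (nat_lit 4) .nil))))) .nil))) (.nd (nat_lit 6) 
(.lf (nat_lit 118452) (.g (nat_lit 2003) (.e (nat_lit 6264) (nat_lit 337) (.e (nat_lit 1181) (nat_lit 87) (.e (nat_lit 57479) (nat_lit 28) (.e (nat_lit 557109) (nat_lit 15) .nil)))) .nil)) 
(.lf (nat_lit 118516) (.g (nat_lit 634) (.e (nat_lit 6291) (nat_lit 337) (.e (nat_lit 1296) (nat_lit 96) (.e (nat_lit 131126) (nat_lit 13) .nil))) .nil))))) (.nd (nat_lit 4) (.nd (nat_lit 5) (.nd (nat_lit 6) 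
(.lf (nat_lit 118412) (.g (nat_lit 1153) (.e (nat_lit 6232) (nat_lit 335) (.e (nat_lit 164353) (nat_lit 246) (.e (nat_lit 226) (nat_lit 21) (.e (nat_lit 336432) (nat_lit 30) (.e (nat_lit 458496) (nat_lit 3) .nil))))) .nil)) 
(.lf (nat_lit 118476) (.g (nat_lit 2062) (.e (nat_lit 6270) (nat_lit 337) (.e (nat_lit 1207) (nat_lit 89) (.e (nat_lit 73755) (nat_lit 8) (.e (nat_lit 557104) (nat_lit 14) (.e (nat_lit 180233) (nat_lit 0) .nil))))) .nil))) (.nd (nat_lit 6) 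
(.lf (nat_lit 118444) (.g (nat_lit 707) (.e (nat_lit 6250) (nat_lit 337) (.e (nat_lit 1296) (nat_lit 96) (.e (nat_lit 131125) (nat_lit 13) .nil))) .nil)) 
(.lf (nat_lit 118508) (.g (nat_lit 3150) (.e (nat_lit 6277) (nat_lit 337) (.e (nat_lit 1214) (nat_lit 89) (.e (nat_lit 73754) (nat_lit 8) (.e (nat_lit 557100) (nat_lit 13) (.e (nat_lit 172138) (nat_lit 15) .nil))))) .nil)))) (.nd (nat_lit 5) (.nd (nat_lit 6) 
(.lf (nat_lit 118428) (.g (nat_lit 907) (.e (nat_lit 6237) (nat_lit 335) (.e (nat_lit 164372) (nat_lit 250) (.e (nat_lit 172143) (nat_lit 25) (.e (nat_lit 319490) (nat_lit 0) (.e (nat_lit 5792) (nat_lit 319) (.e (nat_lit 245504) (nat_lit 15) .nil)))))) (.g (nat_lit 5) .nil .nil))) 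
(.lf (nat_lit 118492) (.g (nat_lit 1207) (.e (nat_lit 6274) (nat_lit 337) (.e (nat_lit 1214) (nat_lit 89) (.e (nat_lit 73753) (nat_lit 8) (.e (nat_lit 557094) (nat_lit 12) .nil)))) .nil))) (.nd (nat_lit 6) 
(.lf (nat_lit 118460) (.g (nat_lit 1928) (.e (nat_lit 6264) (nat_lit 337) (.e (nat_lit 1211) (nat_lit 89) (.e (nat_lit 73755) (nat_lit 8) (.e (nat_lit 557096) (nat_lit 13) (.e (nat_lit 172133) (nat_lit 15) .nil))))) .nil)) 
(.lf (nat_lit 118524) (.g (nat_lit 1732) (.e (nat_lit 6301) (nat_lit 337) (.e (nat_lit 1221) (nat_lit 90) (.e (nat_lit 81965) (nat_lit 26) (.e (nat_lit 147496) (nat_lit 11) (.e (nat_lit 24617) (nat_lit 7) .nil))))) .nil))))))) (.nd (nat_lit 2) (.nd (nat_lit 3) (.nd (nat_lit 4) (.nd (nat_lit 5) (.nd (nat_lit 6) 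
(.lf (nat_lit 118402) (.g (nat_lit 1198) (.e (nat_lit 6221) (nat_lit 333) (.e (nat_lit 57876) (nat_lit 270) (.e (nat_lit 1239) (nat_lit 91) (.e (nat_lit 90177) (nat_lit 15) .nil)))) .nil)) 
(.lf (nat_lit 118466) (.g (nat_lit 2817) (.e (nat_lit 6264) (nat_lit 337) (.e (nat_lit 1221) (nat_lit 90) (.e (nat_lit 81965) (nat_lit 26) (.e (nat_lit 147492) (nat_lit 11) (.e (nat_lit 24665) (nat_lit 14) (.e (nat_lit 401418) (nat_lit 0) (.e (nat_lit 2471) (nat_lit 157) .nil))))))) (.g (nat_lit 5) .nil .nil)))) (.nd (nat_lit 6) 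
(.lf (nat_lit 118434) (.g (nat_lit 120) (.e (nat_lit 6241) (nat_lit 336) (.e (nat_lit 229645) (nat_lit 232) (.e (nat_lit 464) (nat_lit 34) (.e (nat_lit 450304) (nat_lit 5) .nil)))) .nil)) 
(.lf (nat_lit 118498) (.g (nat_lit 1442) (.e (nat_lit 6276) (nat_lit 337) (.e (nat_lit 1201) (nat_lit 88) (.e (nat_lit 65627) (nat_lit 13) (.e (nat_lit 393265) (nat_lit 22) .nil)))) .nil)))) (.nd (nat_lit 5) (.nd (nat_lit 6) 
(.lf (nat_lit 118418) (.g (nat_lit 523) (.e (nat_lit 6234) (nat_lit 335) (.e (nat_lit 164372) (nat_lit 250) (.e (nat_lit 172143) (nat_lit 25) (.e (nat_lit 319492) (nat_lit 0) (.e (nat_lit 5771) (nat_lit 316) (.e (nat_lit 172128) (nat_lit 15) .nil)))))) (.g (nat_lit 0) .nil .nil))) 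
(.lf (nat_lit 118482) (.g (nat_lit 1346) (.e (nat_lit 6271) (nat_lit 337) (.e (nat_lit 1207) (nat_lit 89) (.e (nat_lit 73754) (nat_lit 8) (.e (nat_lit 557094) (nat_lit 12) (.e (nat_lit 164213) (nat_lit 176) .nil))))) .nil))) (.nd (nat_lit 6) 
(.lf (nat_lit 118450) (.g (nat_lit 1302) (.e (nat_lit 6255) (nat_lit 337) (.e (nat_lit 2643) (nat_lit 165) (.e (nat_lit 180228) (nat_lit 0) (.e (nat_lit 4605) (nat_lit 269) .nil)))) .nil)) 
(.lf (nat_lit 118514) (.g (nat_lit 808) (.e (nat_lit 6277) (nat_lit 337) (.e (nat_lit 1296) (nat_lit 96) (.e (nat_lit 131127) (nat_lit 13) (.e (nat_lit 393260) (nat_lit 21) .nil)))) .nil))))) (.nd (nat_lit 4) (.nd (nat_lit 5) (.nd (nat_lit 6) 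
(.lf (nat_lit 118410) (.g (nat_lit 2190) (.e (nat_lit 6225) (nat_lit 334) (.e (nat_lit 123212) (nat_lit 273) (.e (nat_lit 57464) (nat_lit 23) (.e (nat_lit 516165) (nat_lit 12) (.e (nat_lit 450579) (nat_lit 5) (.e (nat_lit 532480) (nat_lit 0) .nil)))))) (.g (nat_lit 6) .nil .nil))) 
(.lf (nat_lit 118474) (.g (nat_lit 1565) (.e (nat_lit 6270) (nat_lit 337) (.e (nat_lit 1207) (nat_lit 89) (.e (nat_lit 73754) (nat_lit 8) (.e (nat_lit 557101) (nat_lit 13) (.e (nat_lit 172070) (nat_lit 4) .nil))))) .nil))) (.nd (nat_lit 6) 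
(.lf (nat_lit 118442) (.g (nat_lit 973) (.e (nat_lit 6250) (nat_lit 337) (.e (nat_lit 1214) (nat_lit 89) (.e (nat_lit 73746) (nat_lit 3) (.e (nat_lit 516131) (nat_lit 3) .nil)))) .nil)) 
(.lf (nat_lit 118506) (.g (nat_lit 1897) (.e (nat_lit 6277) (nat_lit 337) (.e (nat_lit 1214) (nat_lit 89) (.e (nat_lit 73753) (nat_lit 8) (.e (nat_lit 557101) (nat_lit 13) (.e (nat_lit 172070) (nat_lit 4) .nil))))) .nil)))) (.nd (nat_lit 5) (.nd (nat_lit 6) 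
(.lf (nat_lit 118426) (.g (nat_lit 2112) (.e (nat_lit 6236) (nat_lit 335) (.e (nat_lit 164377) (nat_lit 253) (.e (nat_lit 237636) (nat_lit 27) (.e (nat_lit 336231) (nat_lit 14) (.e (nat_lit 401440) (nat_lit 9) (.e (nat_lit 426367) (nat_lit 15) .nil)))))) (.g (nat_lit 0) .nil .nil))) 
(.lf (nat_lit 118490) (.g (nat_lit 208) (.e (nat_lit 6273) (nat_lit 337) (.e (nat_lit 2636) (nat_lit 165) (.e (nat_lit 188160) (nat_lit 5) .nil))) .nil))) (.nd (nat_lit 6) 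
(.lf (nat_lit 118458) (.g (nat_lit 745) (.e (nat_lit 6264) (nat_lit 337) (.e (nat_lit 1209) (nat_lit 89) (.e (nat_lit 73753) (nat_lit 8) .nil))) .nil)) 
(.lf (nat_lit 118522) (.g (nat_lit 1376) (.e (nat_lit 6298) (nat_lit 337) (.e (nat_lit 1220) (nat_lit 90) (.e (nat_lit 81938) (nat_lit 20) (.e (nat_lit 1963) (nat_lit 134) .nil)))) .nil)))))) (.nd (nat_lit 3) (.nd (nat_lit 4) (.nd (nat_lit 5) (.nd (nat_lit 6) 
(.lf (nat_lit 118406) (.g (nat_lit 1160) (.e (nat_lit 6223) (nat_lit 334) (.e (nat_lit 123136) (nat_lit 245) (.e (nat_lit 1161) (nat_lit 86) (.e (nat_lit 49185) (nat_lit 11) (.e (nat_lit 16465) (nat_lit 13) (.e (nat_lit 491264) (nat_lit 17) .nil)))))) (.g (nat_lit 5) .nil .nil))) 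
(.lf (nat_lit 118470) (.g (nat_lit 2010) (.e (nat_lit 6264) (nat_lit 337) (.e (nat_lit 1221) (nat_lit 90) (.e (nat_lit 81965) (nat_lit 26) (.e (nat_lit 147496) (nat_lit 11) (.e (nat_lit 24617) (nat_lit 7) (.e (nat_lit 327424) (nat_lit 10) (.e (nat_lit 26) (nat_lit 0) .nil))))))) (.g (nat_lit 5) .nil .nil)))) (.nd (nat_lit 6) 
(.lf (nat_lit 118438) (.g (nat_lit 702) (.e (nat_lit 6244) (nat_lit 336) (.e (nat_lit 229655) (nat_lit 233) (.e (nat_lit 8261) (nat_lit 45) (.e (nat_lit 778323) (nat_lit 5) (.e (nat_lit 81664) (nat_lit 36) .nil))))) .nil)) 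
(.lf (nat_lit 118502) (.g (nat_lit 668) (.e (nat_lit 6276) (nat_lit 337) (.e (nat_lit 1296) (nat_lit 96) (.e (nat_lit 131125) (nat_lit 13) .nil))) .nil)))) (.nd (nat_lit 5) (.nd (nat_lit 6) 
(.lf (nat_lit 118422) (.g (nat_lit 760) (.e (nat_lit 6236) (nat_lit 335) (.e (nat_lit 164353) (nat_lit 246) (.e (nat_lit 226) (nat_lit 21) (.e (nat_lit 336434) (nat_lit 30) .nil)))) .nil)) 
(.lf (nat_lit 118486) (.g (nat_lit 1595) (.e (nat_lit 6273) (nat_lit 337) (.e (nat_lit 1207) (nat_lit 89) (.e (nat_lit 73746) (nat_lit 3) (.e (nat_lit 516176) (nat_lit 14) (.e (nat_lit 466977) (nat_lit 22) .nil))))) .nil))) (.nd (nat_lit 6) 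
(.lf (nat_lit 118454) (.g (nat_lit 2661) (.e (nat_lit 6264) (nat_lit 337) (.e (nat_lit 1182) (nat_lit 87) (.e (nat_lit 57479) (nat_lit 28) (.e (nat_lit 557109) (nat_lit 15) (.e (nat_lit 196352) (nat_lit 18) .nil))))) .nil)) 
(.lf (nat_lit 118518) (.g (nat_lit 589) (.e (nat_lit 6294) (nat_lit 337) (.e (nat_lit 1296) (nat_lit 96) (.e (nat_lit 131127) (nat_lit 13) .nil))) .nil))))) (.nd (nat_lit 4) (.nd (nat_lit 5) (.nd (nat_lit 6) 
(.lf (nat_lit 118414) (.g (nat_lit 538) (.e (nat_lit 6232) (nat_lit 335) (.e (nat_lit 164372) (nat_lit 250) (.e (nat_lit 172143) (nat_lit 25) (.e (nat_lit 319492) (nat_lit 0) (.e (nat_lit 5771) (nat_lit 316) (.e (nat_lit 172128) (nat_lit 15) .nil)))))) (.g (nat_lit 0) .nil .nil))) 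
(.lf (nat_lit 118478) (.g (nat_lit 2075) (.e (nat_lit 6270) (nat_lit 337) (.e (nat_lit 1214) (nat_lit 89) (.e (nat_lit 73754) (nat_lit 8) (.e (nat_lit 557101) (nat_lit 13) (.e (nat_lit 172051) (nat_lit 0) .nil))))) .nil))) (.nd (nat_lit 6) 
(.lf (nat_lit 118446) (.g (nat_lit 1139) (.e (nat_lit 6252) (nat_lit 337) (.e (nat_lit 2630) (nat_lit 164) (.e (nat_lit 172095) (nat_lit 9) (.e (nat_lit 433920) (nat_lit 31) .nil)))) .nil)) 
(.lf (nat_lit 118510) (.g (nat_lit 2075) (.e (nat_lit 6277) (nat_lit 337) (.e (nat_lit 1214) (nat_lit 89) (.e (nat_lit 73754) (nat_lit 8) (.e (nat_lit 557101) (nat_lit 13) (.e (nat_lit 172051) (nat_lit 0) .nil))))) .nil)))) (.nd (nat_lit 5) (.nd (nat_lit 6) 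
(.lf (nat_lit 118430) (.g (nat_lit 496) (.e (nat_lit 6237) (nat_lit 335) (.e (nat_lit 164377) (nat_lit 253) (.e (nat_lit 245504) (nat_lit 25) (.e (nat_lit 319491) (nat_lit 0) (.e (nat_lit 5792) (nat_lit 319) (.e (nat_lit 245504) (nat_lit 15) .nil)))))) (.g (nat_lit 5) .nil .nil))) 
(.lf (nat_lit 118494) (.g (nat_lit 1883) (.e (nat_lit 6274) (nat_lit 337) (.e (nat_lit 1214) (nat_lit 89) (.e (nat_lit 73754) (nat_lit 8) (.e (nat_lit 557094) (nat_lit 12) (.e (nat_lit 164213) (nat_lit 176) .nil))))) .nil))) (.nd (nat_lit 6) 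
(.lf (nat_lit 118462) (.g (nat_lit 1277) (.e (nat_lit 6264) (nat_lit 337) (.e (nat_lit 1211) (nat_lit 89) (.e (nat_lit 73755) (nat_lit 8) (.e (nat_lit 557104) (nat_lit 14) .nil)))) .nil)) 
(.lf (nat_lit 118526) (.g (nat_lit 2322) (.e (nat_lit 6305) (nat_lit 337) (.e (nat_lit 1181) (nat_lit 87) (.e (nat_lit 57479) (nat_lit 28) (.e (nat_lit 557105) (nat_lit 14) (.e (nat_lit 180252) (nat_lit 10) .nil))))) .nil)))))))) (.nd (nat_lit 1) (.nd (nat_lit 2) (.nd (nat_lit 3) (.nd (nat_lit 4) (.nd (nat_lit 5) (.nd (nat_lit 6) 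
(.lf (nat_lit 118401) (.g (nat_lit 2481) (.e (nat_lit 6220) (nat_lit 333) (.e (nat_lit 57896) (nat_lit 273) (.e (nat_lit 57464) (nat_lit 23) (.e (nat_lit 516165) (nat_lit 12) (.e (nat_lit 450579) (nat_lit 5) (.e (nat_lit 532482) (nat_lit 0) .nil)))))) (.g (nat_lit 0) .nil .nil))) 
(.lf (nat_lit 118465) (.g (nat_lit 1135) (.e (nat_lit 6264) (nat_lit 337) (.e (nat_lit 1221) (nat_lit 90) (.e (nat_lit 81965) (nat_lit 26) (.e (nat_lit 147492) (nat_lit 11) .nil)))) .nil))) (.nd (nat_lit 6) 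
(.lf (nat_lit 118433) (.g (nat_lit 888) (.e (nat_lit 6240) (nat_lit 336) (.e (nat_lit 229643) (nat_lit 232) (.e (nat_lit 1256) (nat_lit 92) (.e (nat_lit 98350) (nat_lit 24) .nil)))) .nil)) 
(.lf (nat_lit 118497) (.g (nat_lit 1728) (.e (nat_lit 6276) (nat_lit 337) (.e (nat_lit 1201) (nat_lit 88) (.e (nat_lit 65625) (nat_lit 13) (.e (nat_lit 393265) (nat_lit 22) (.e (nat_lit 417820) (nat_lit 10) .nil))))) .nil)))) (.nd (nat_lit 5) (.nd (nat_lit 6) 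
(.lf (nat_lit 118417) (.g (nat_lit 462) (.e (nat_lit 6234) (nat_lit 335) (.e (nat_lit 164372) (nat_lit 250) (.e (nat_lit 172143) (nat_lit 25) (.e (nat_lit 319491) (nat_lit 0) (.e (nat_lit 5771) (nat_lit 316) (.e (nat_lit 172128) (nat_lit 15) .nil)))))) (.g (nat_lit 0) .nil .nil))) 
(.lf (nat_lit 118481) (.g (nat_lit 1378) (.e (nat_lit 6270) (nat_lit 337) (.e (nat_lit 1224) (nat_lit 90) (.e (nat_lit 81925) (nat_lit 11) (.e (nat_lit 426182) (nat_lit 8) (.e (nat_lit 417820) (nat_lit 10) .nil))))) .nil))) (.nd (nat_lit 6) 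
(.lf (nat_lit 118449) (.g (nat_lit 1071) (.e (nat_lit 6255) (nat_lit 337) (.e (nat_lit 2630) (nat_lit 164) (.e (nat_lit 172067) (nat_lit 3) (.e (nat_lit 204868) (nat_lit 29) .nil)))) .nil)) 
(.lf (nat_lit 118513) (.g (nat_lit 2417) (.e (nat_lit 6277) (nat_lit 337) (.e (nat_lit 1214) (nat_lit 89) (.e (nat_lit 73754) (nat_lit 8) (.e (nat_lit 557103) (nat_lit 14) (.e (nat_lit 180261) (nat_lit 20) .nil))))) .nil))))) (.nd (nat_lit 4) (.nd (nat_lit 5) (.nd (nat_lit 6) 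
(.lf (nat_lit 118409) (.g (nat_lit 1868) (.e (nat_lit 6224) (nat_lit 334) (.e (nat_lit 123212) (nat_lit 273) (.e (nat_lit 57464) (nat_lit 23) (.e (nat_lit 516165) (nat_lit 12) (.e (nat_lit 450579) (nat_lit 5) (.e (nat_lit 532480) (nat_lit 0) .nil)))))) (.g (nat_lit 5) .nil .nil))) 
(.lf (nat_lit 118473) (.g (nat_lit 1767) (.e (nat_lit 6270) (nat_lit 337) (.e (nat_lit 1207) (nat_lit 89) (.e (nat_lit 73754) (nat_lit 8) (.e (nat_lit 557101) (nat_lit 13) (.e (nat_lit 172068) (nat_lit 4) .nil))))) .nil))) (.nd (nat_lit 6) 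
(.lf (nat_lit 118441) (.g (nat_lit 2746) (.e (nat_lit 6250) (nat_lit 337) (.e (nat_lit 1212) (nat_lit 89) (.e (nat_lit 73753) (nat_lit 8) (.e (nat_lit 557103) (nat_lit 14) (.e (nat_lit 180229) (nat_lit 0) .nil))))) .nil)) 
(.lf (nat_lit 118505) (.g (nat_lit 1856) (.e (nat_lit 6277) (nat_lit 337) (.e (nat_lit 1214) (nat_lit 89) (.e (nat_lit 73746) (nat_lit 3) (.e (nat_lit 516129) (nat_lit 3) (.e (nat_lit 229120) (nat_lit 1) .nil))))) .nil)))) (.nd (nat_lit 5) (.nd (nat_lit 6) 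
(.lf (nat_lit 118425) (.g (nat_lit 2105) (.e (nat_lit 6236) (nat_lit 335) (.e (nat_lit 164377) (nat_lit 253) (.e (nat_lit 237636) (nat_lit 27) (.e (nat_lit 335894) (nat_lit 0) (.e (nat_lit 6718) (nat_lit 361) (.e (nat_lit 172128) (nat_lit 15) .nil)))))) (.g (nat_lit 6) .nil .nil))) 
(.lf (nat_lit 118489) (.g (nat_lit 2903) (.e (nat_lit 6273) (nat_lit 337) (.e (nat_lit 1293) (nat_lit 96) (.e (nat_lit 131127) (nat_lit 13) (.e (nat_lit 393260) (nat_lit 21) (.e (nat_lit 409645) (nat_lit 18) (.e (nat_lit 303112) (nat_lit 0) (.e (nat_lit 2478) (nat_lit 157) .nil))))))) (.g (nat_lit 6) .nil .nil)))) (.nd (nat_lit 6) 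
(.lf (nat_lit 118457) (.g (nat_lit 1865) (.e (nat_lit 6264) (nat_lit 337) (.e (nat_lit 1199) (nat_lit 88) (.e (nat_lit 65586) (nat_lit 7) (.e (nat_lit 319531) (nat_lit 16) (.e (nat_lit 286759) (nat_lit 12) .nil))))) .nil)) 
(.lf (nat_lit 118521) (.g (nat_lit 1587) (.e (nat_lit 6298) (nat_lit 337) (.e (nat_lit 1220) (nat_lit 90) (.e (nat_lit 81938) (nat_lit 20) (.e (nat_lit 1961) (nat_lit 134) .nil)))) .nil)))))) (.nd (nat_lit 3) (.nd (nat_lit 4) (.nd (nat_lit 5) (.nd (nat_lit 6) 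
(.lf (nat_lit 118405) (.g (nat_lit 3004) (.e (nat_lit 6221) (nat_lit 333) (.e (nat_lit 57900) (nat_lit 276) (.e (nat_lit 122936) (nat_lit 23) (.e (nat_lit 516176) (nat_lit 14) (.e (nat_lit 466981) (nat_lit 23) (.e (nat_lit 204816) (nat_lit 17) .nil)))))) (.g (nat_lit 0) .nil .nil))) 
(.lf (nat_lit 118469) (.g (nat_lit 2010) (.e (nat_lit 6264) (nat_lit 337) (.e (nat_lit 1221) (nat_lit 90) (.e (nat_lit 81965) (nat_lit 26) (.e (nat_lit 147496) (nat_lit 11) (.e (nat_lit 24617) (nat_lit 7) (.e (nat_lit 327424) (nat_lit 10) (.e (nat_lit 19) (nat_lit 0) .nil))))))) (.g (nat_lit 5) .nil .nil)))) (.nd (nat_lit 6) 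
(.lf (nat_lit 118437) (.g (nat_lit 874) (.e (nat_lit 6243) (nat_lit 336) (.e (nat_lit 229694) (nat_lit 250) (.e (nat_lit 172143) (nat_lit 25) (.e (nat_lit 319490) (nat_lit 0) (.e (nat_lit 5766) (nat_lit 316) (.e (nat_lit 172130) (nat_lit 15) .nil)))))) (.g (nat_lit 4) .nil .nil))) 
(.lf (nat_lit 118501) (.g (nat_lit 1631) (.e (nat_lit 6276) (nat_lit 337) (.e (nat_lit 1296) (nat_lit 96) (.e (nat_lit 131094) (nat_lit 2) (.e (nat_lit 90185) (nat_lit 17) (.e (nat_lit 237605) (nat_lit 9) .nil))))) .nil)))) (.nd (nat_lit 5) (.nd (nat_lit 6) 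
(.lf (nat_lit 118421) (.g (nat_lit 1191) (.e (nat_lit 6236) (nat_lit 335) (.e (nat_lit 164353) (nat_lit 246) (.e (nat_lit 226) (nat_lit 21) (.e (nat_lit 336432) (nat_lit 30) (.e (nat_lit 450577) (nat_lit 4) .nil))))) .nil)) 
(.lf (nat_lit 118485) (.g (nat_lit 1631) (.e (nat_lit 6272) (nat_lit 337) (.e (nat_lit 1207) (nat_lit 89) (.e (nat_lit 73754) (nat_lit 8) (.e (nat_lit 557101) (nat_lit 13) (.e (nat_lit 172136) (nat_lit 15) .nil))))) .nil))) (.nd (nat_lit 6) 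
(.lf (nat_lit 118453) (.g (nat_lit 2116) (.e (nat_lit 6264) (nat_lit 337) (.e (nat_lit 1182) (nat_lit 87) (.e (nat_lit 57479) (nat_lit 28) (.e (nat_lit 557107) (nat_lit 15) (.e (nat_lit 196352) (nat_lit 18) .nil))))) .nil)) 
(.lf (nat_lit 118517) (.g (nat_lit 1485) (.e (nat_lit 6291) (nat_lit 337) (.e (nat_lit 1296) (nat_lit 96) (.e (nat_lit 131128) (nat_lit 13) (.e (nat_lit 393265) (nat_lit 22) (.e (nat_lit 417820) (nat_lit 10) .nil))))) .nil))))) (.nd (nat_lit 4) (.nd (nat_lit 5) (.nd (nat_lit 6) 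
(.lf (nat_lit 118413) (.g (nat_lit 181) (.e (nat_lit 6232) (nat_lit 335) (.e (nat_lit 164354) (nat_lit 246) (.e (nat_lit 226) (nat_lit 21) .nil))) .nil)) 
(.lf (nat_lit 118477) (.g (nat_lit 1386) (.e (nat_lit 6270) (nat_lit 337) (.e (nat_lit 1214) (nat_lit 89) (.e (nat_lit 73754) (nat_lit 8) (.e (nat_lit 557101) (nat_lit 13) .nil)))) .nil))) (.nd (nat_lit 6) 
(.lf (nat_lit 118445) (.g (nat_lit 1641) (.e (nat_lit 6250) (nat_lit 337) (.e (nat_lit 1296) (nat_lit 96) (.e (nat_lit 131127) (nat_lit 13) (.e (nat_lit 393260) (nat_lit 21) (.e (nat_lit 409645) (nat_lit 18) .nil))))) .nil)) 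
(.lf (nat_lit 118509) (.g (nat_lit 1386) (.e (nat_lit 6277) (nat_lit 337) (.e (nat_lit 1214) (nat_lit 89) (.e (nat_lit 73754) (nat_lit 8) (.e (nat_lit 557101) (nat_lit 13) .nil)))) .nil)))) (.nd (nat_lit 5) (.nd (nat_lit 6) 
(.lf (nat_lit 118429) (.g (nat_lit 499) (.e (nat_lit 6237) (nat_lit 335) (.e (nat_lit 164372) (nat_lit 250) (.e (nat_lit 172143) (nat_lit 25) (.e (nat_lit 319491) (nat_lit 0) (.e (nat_lit 5792) (nat_lit 319) (.e (nat_lit 245504) (nat_lit 15) .nil)))))) (.g (nat_lit 5) .nil .nil))) 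
(.lf (nat_lit 118493) (.g (nat_lit 2425) (.e (nat_lit 6274) (nat_lit 337) (.e (nat_lit 1214) (nat_lit 89) (.e (nat_lit 73753) (nat_lit 8) (.e (nat_lit 557103) (nat_lit 14) (.e (nat_lit 180261) (nat_lit 20) .nil))))) .nil))) (.nd (nat_lit 6) 
(.lf (nat_lit 118461) (.g (nat_lit 2052) (.e (nat_lit 6264) (nat_lit 337) (.e (nat_lit 1211) (nat_lit 89) (.e (nat_lit 73755) (nat_lit 8) (.e (nat_lit 557097) (nat_lit 13) (.e (nat_lit 172133) (nat_lit 15) .nil))))) .nil)) 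
(.lf (nat_lit 118525) (.g (nat_lit 1392) (.e (nat_lit 6302) (nat_lit 337) (.e (nat_lit 1221) (nat_lit 90) (.e (nat_lit 81965) (nat_lit 26) (.e (nat_lit 147496) (nat_lit 11) .nil)))) .nil))))))) (.nd (nat_lit 2) (.nd (nat_lit 3) (.nd (nat_lit 4) (.nd (nat_lit 5) (.nd (nat_lit 6) 
(.lf (nat_lit 118403) (.g (nat_lit 450) (.e (nat_lit 6221) (nat_lit 333) (.e (nat_lit 57878) (nat_lit 270) (.e (nat_lit 20) (nat_lit 0) (.e (nat_lit 3279) (nat_lit 200) .nil)))) .nil)) 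
(.lf (nat_lit 118467) (.g (nat_lit 1704) (.e (nat_lit 6264) (nat_lit 337) (.e (nat_lit 1221) (nat_lit 90) (.e (nat_lit 81965) (nat_lit 26) (.e (nat_lit 147496) (nat_lit 11) (.e (nat_lit 24617) (nat_lit 7) .nil))))) .nil))) (.nd (nat_lit 6) 
(.lf (nat_lit 118435) (.g (nat_lit 1255) (.e (nat_lit 6242) (nat_lit 336) (.e (nat_lit 229694) (nat_lit 250) (.e (nat_lit 172143) (nat_lit 25) (.e (nat_lit 319490) (nat_lit 0) (.e (nat_lit 5771) (nat_lit 316) (.e (nat_lit 172130) (nat_lit 15) .nil)))))) (.g (nat_lit 0) .nil .nil))) 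
(.lf (nat_lit 118499) (.g (nat_lit 2425) (.e (nat_lit 6276) (nat_lit 337) (.e (nat_lit 1214) (nat_lit 89) (.e (nat_lit 73753) (nat_lit 8) (.e (nat_lit 557103) (nat_lit 14) (.e (nat_lit 180261) (nat_lit 20) .nil))))) .nil)))) (.nd (nat_lit 5) (.nd (nat_lit 6) 
(.lf (nat_lit 118419) (.g (nat_lit 454) (.e (nat_lit 6234) (nat_lit 335) (.e (nat_lit 164372) (nat_lit 250) (.e (nat_lit 172143) (nat_lit 25) (.e (nat_lit 319493) (nat_lit 0) (.e (nat_lit 5771) (nat_lit 316) (.e (nat_lit 172128) (nat_lit 15) .nil)))))) (.g (nat_lit 0) .nil .nil))) 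
(.lf (nat_lit 118483) (.g (nat_lit 1347) (.e (nat_lit 6272) (nat_lit 337) (.e (nat_lit 1207) (nat_lit 89) (.e (nat_lit 73754) (nat_lit 8) (.e (nat_lit 557094) (nat_lit 12) (.e (nat_lit 164213) (nat_lit 176) .nil))))) .nil))) (.nd (nat_lit 6) 
(.lf (nat_lit 118451) (.g (nat_lit 1318) (.e (nat_lit 6255) (nat_lit 337) (.e (nat_lit 2653) (nat_lit 166) (.e (nat_lit 188440) (nat_lit 20) (.e (nat_lit 3469) (nat_lit 217) (.e (nat_lit 696344) (nat_lit 8) .nil))))) .nil)) 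
(.lf (nat_lit 118515) (.g (nat_lit 1402) (.e (nat_lit 6291) (nat_lit 337) (.e (nat_lit 1296) (nat_lit 96) (.e (nat_lit 131125) (nat_lit 13) (.e (nat_lit 393265) (nat_lit 22) (.e (nat_lit 417820) (nat_lit 10) .nil))))) .nil))))) (.nd (nat_lit 4) (.nd (nat_lit 5) (.nd (nat_lit 6) 
(.lf (nat_lit 118411) (.g (nat_lit 2076) (.e (nat_lit 6227) (nat_lit 334) (.e (nat_lit 123205) (nat_lit 270) (.e (nat_lit 1250) (nat_lit 92) (.e (nat_lit 98372) (nat_lit 29) (.e (nat_lit 450579) (nat_lit 5) (.e (nat_lit 532480) (nat_lit 0) .nil)))))) (.g (nat_lit 5) .nil .nil))) 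
(.lf (nat_lit 118475) (.g (nat_lit 1828) (.e (nat_lit 6270) (nat_lit 337) (.e (nat_lit 1207) (nat_lit 89) (.e (nat_lit 73754) (nat_lit 8) (.e (nat_lit 557105) (nat_lit 14) (.e (nat_lit 180232) (nat_lit 0) .nil))))) .nil))) (.nd (nat_lit 6) 
(.lf (nat_lit 118443) (.g (nat_lit 2277) (.e (nat_lit 6250) (nat_lit 337) (.e (nat_lit 1214) (nat_lit 89) (.e (nat_lit 73754) (nat_lit 8) (.e (nat_lit 557105) (nat_lit 14) (.e (nat_lit 180261) (nat_lit 20) .nil))))) .nil)) 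
(.lf (nat_lit 118507) (.g (nat_lit 2238) (.e (nat_lit 6277) (nat_lit 337) (.e (nat_lit 1214) (nat_lit 89) (.e (nat_lit 73753) (nat_lit 8) (.e (nat_lit 557104) (nat_lit 14) (.e (nat_lit 180261) (nat_lit 20) .nil))))) .nil)))) (.nd (nat_lit 5) (.nd (nat_lit 6) 
(.lf (nat_lit 118427) (.g (nat_lit 116) (.e (nat_lit 6237) (nat_lit 335) (.e (nat_lit 164364) (nat_lit 246) (.e (nat_lit 2941) (nat_lit 184) (.e (nat_lit 426532) (nat_lit 28) .nil)))) .nil)) 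
(.lf (nat_lit 118491) (.g (nat_lit 1856) (.e (nat_lit 6274) (nat_lit 337) (.e (nat_lit 1214) (nat_lit 89) (.e (nat_lit 73746) (nat_lit 3) (.e (nat_lit 516129) (nat_lit 3) (.e (nat_lit 229120) (nat_lit 1) .nil))))) .nil))) (.nd (nat_lit 6) 
(.lf (nat_lit 118459) (.g (nat_lit 2078) (.e (nat_lit 6264) (nat_lit 337) (.e (nat_lit 1211) (nat_lit 89) (.e (nat_lit 73755) (nat_lit 8) (.e (nat_lit 557091) (nat_lit 12) (.e (nat_lit 164213) (nat_lit 176) .nil))))) .nil)) 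
(.lf (nat_lit 118523) (.g (nat_lit 2111) (.e (nat_lit 6298) (nat_lit 337) (.e (nat_lit 1220) (nat_lit 90) (.e (nat_lit 81965) (nat_lit 26) (.e (nat_lit 147496) (nat_lit 11) (.e (nat_lit 24617) (nat_lit 7) .nil))))) .nil)))))) (.nd (nat_lit 3) (.nd (nat_lit 4) (.nd (nat_lit 5) (.nd (nat_lit 6) 
(.lf (nat_lit 118407) (.g (nat_lit 3080) (.e (nat_lit 6223) (nat_lit 334) (.e (nat_lit 123174) (nat_lit 257) (.e (nat_lit 8326) (nat_lit 69) (.e (nat_lit 557101) (nat_lit 13) (.e (nat_lit 172097) (nat_lit 9) (.e (nat_lit 426140) (nat_lit 3) (.e (nat_lit 204821) (nat_lit 17) .nil))))))) (.g (nat_lit 7) .nil .nil))) 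
(.lf (nat_lit 118471) (.g (nat_lit 1288) (.e (nat_lit 6270) (nat_lit 337) (.e (nat_lit 1195) (nat_lit 88) (.e (nat_lit 65625) (nat_lit 13) (.e (nat_lit 393265) (nat_lit 22) (.e (nat_lit 417820) (nat_lit 10) .nil))))) .nil))) (.nd (nat_lit 6) 
(.lf (nat_lit 118439) (.g (nat_lit 694) (.e (nat_lit 6244) (nat_lit 336) (.e (nat_lit 229655) (nat_lit 233) (.e (nat_lit 8262) (nat_lit 45) (.e (nat_lit 778323) (nat_lit 5) (.e (nat_lit 81664) (nat_lit 36) .nil))))) .nil)) 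
(.lf (nat_lit 118503) (.g (nat_lit 634) (.e (nat_lit 6276) (nat_lit 337) (.e (nat_lit 1296) (nat_lit 96) (.e (nat_lit 131126) (nat_lit 13) .nil))) .nil)))) (.nd (nat_lit 5) (.nd (nat_lit 6) 
(.lf (nat_lit 118423) (.g (nat_lit 1043) (.e (nat_lit 6236) (nat_lit 335) (.e (nat_lit 164353) (nat_lit 246) (.e (nat_lit 226) (nat_lit 21) (.e (nat_lit 336434) (nat_lit 30) (.e (nat_lit 450577) (nat_lit 4) .nil))))) .nil)) 
(.lf (nat_lit 118487) (.g (nat_lit 2386) (.e (nat_lit 6273) (nat_lit 337) (.e (nat_lit 1207) (nat_lit 89) (.e (nat_lit 73754) (nat_lit 8) (.e (nat_lit 557091) (nat_lit 12) (.e (nat_lit 164213) (nat_lit 176) (.e (nat_lit 2789) (nat_lit 179) (.e (nat_lit 294973) (nat_lit 28) (.e (nat_lit 434212) (nat_lit 18) .nil)))))))) (.g (nat_lit 4) .nil .nil)))) (.nd (nat_lit 6) 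
(.lf (nat_lit 118455) (.g (nat_lit 2719) (.e (nat_lit 6264) (nat_lit 337) (.e (nat_lit 1182) (nat_lit 87) (.e (nat_lit 57479) (nat_lit 28) (.e (nat_lit 557109) (nat_lit 15) (.e (nat_lit 196352) (nat_lit 18) (.e (nat_lit 393217) (nat_lit 0) (.e (nat_lit 1021) (nat_lit 81) .nil))))))) (.g (nat_lit 4) .nil .nil))) 
(.lf (nat_lit 118519) (.g (nat_lit 1638) (.e (nat_lit 6294) (nat_lit 337) (.e (nat_lit 1296) (nat_lit 96) (.e (nat_lit 131127) (nat_lit 13) (.e (nat_lit 393260) (nat_lit 21) (.e (nat_lit 409645) (nat_lit 18) .nil))))) .nil))))) (.nd (nat_lit 4) (.nd (nat_lit 5) (.nd (nat_lit 6) 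
(.lf (nat_lit 118415) (.g (nat_lit 2079) (.e (nat_lit 6232) (nat_lit 335) (.e (nat_lit 164377) (nat_lit 253) (.e (nat_lit 237636) (nat_lit 27) (.e (nat_lit 336231) (nat_lit 14) (.e (nat_lit 401440) (nat_lit 9) (.e (nat_lit 426367) (nat_lit 15) .nil)))))) (.g (nat_lit 6) .nil .nil))) 
(.lf (nat_lit 118479) (.g (nat_lit 2149) (.e (nat_lit 6270) (nat_lit 337) (.e (nat_lit 1214) (nat_lit 89) (.e (nat_lit 73754) (nat_lit 8) (.e (nat_lit 557101) (nat_lit 13) (.e (nat_lit 172070) (nat_lit 4) .nil))))) .nil))) (.nd (nat_lit 6) 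
(.lf (nat_lit 118447) (.g (nat_lit 1832) (.e (nat_lit 6252) (nat_lit 337) (.e (nat_lit 2651) (nat_lit 166) (.e (nat_lit 188441) (nat_lit 20) (.e (nat_lit 3469) (nat_lit 217) (.e (nat_lit 696344) (nat_lit 8) .nil))))) .nil)) 
(.lf (nat_lit 118511) (.g (nat_lit 2149) (.e (nat_lit 6277) (nat_lit 337) (.e (nat_lit 1214) (nat_lit 89) (.e (nat_lit 73754) (nat_lit 8) (.e (nat_lit 557101) (nat_lit 13) (.e (nat_lit 172070) (nat_lit 4) .nil))))) .nil)))) (.nd (nat_lit 5) (.nd (nat_lit 6) 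
(.lf (nat_lit 118431) (.g (nat_lit 2087) (.e (nat_lit 6237) (nat_lit 335) (.e (nat_lit 164377) (nat_lit 253) (.e (nat_lit 237636) (nat_lit 27) (.e (nat_lit 336231) (nat_lit 14) (.e (nat_lit 401440) (nat_lit 9) (.e (nat_lit 426367) (nat_lit 15) .nil)))))) (.g (nat_lit 6) .nil .nil))) 
(.lf (nat_lit 118495) (.g (nat_lit 2149) (.e (nat_lit 6274) (nat_lit 337) (.e (nat_lit 1214) (nat_lit 89) (.e (nat_lit 73754) (nat_lit 8) (.e (nat_lit 557101) (nat_lit 13) (.e (nat_lit 172070) (nat_lit 4) .nil))))) .nil))) (.nd (nat_lit 6) 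
(.lf (nat_lit 118463) (.g (nat_lit 2099) (.e (nat_lit 6264) (nat_lit 337) (.e (nat_lit 1220) (nat_lit 90) (.e (nat_lit 81965) (nat_lit 26) (.e (nat_lit 147496) (nat_lit 11) (.e (nat_lit 24617) (nat_lit 7) .nil))))) .nil)) 
(.lf (nat_lit 118527) (.g (nat_lit 2472) (.e (nat_lit 6305) (nat_lit 337) (.e (nat_lit 1211) (nat_lit 89) (.e (nat_lit 73755) (nat_lit 8) (.e (nat_lit 557098) (nat_lit 13) (.e (nat_lit 172133) (nat_lit 15) .nil))))) .nil)))))))))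

noncomputable def tv1585 : DT := (.nd (nat_lit 0) (.nd (nat_lit 1) (.nd (nat_lit 2) (.nd (nat_lit 3) (.nd (nat_lit 4) (.nd (nat_lit 5) (.nd (nat_lit 6) 
(.lf (nat_lit 118528) (.g (nat_lit 1882) (.e (nat_lit 6305) (nat_lit 337) (.e (nat_lit 1221) (nat_lit 90) (.e (nat_lit 81965) (nat_lit 26) (.e (nat_lit 147492) (nat_lit 11) (.e (nat_lit 24665) (nat_lit 14) (.e (nat_lit 401413) (nat_lit 0) (.e (nat_lit 2438) (nat_lit 157) .nil))))))) (.g (nat_lit 4) .nil .nil))) 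
(.lf (nat_lit 118592) (.g (nat_lit 2901) (.e (nat_lit 6329) (nat_lit 337) (.e (nat_lit 1179) (nat_lit 87) (.e (nat_lit 57479) (nat_lit 28) (.e (nat_lit 557109) (nat_lit 15) (.e (nat_lit 188461) (nat_lit 26) .nil))))) .nil))) (.nd (nat_lit 6) 
(.lf (nat_lit 118560) (.g (nat_lit 2629) (.e (nat_lit 6319) (nat_lit 337) (.e (nat_lit 1182) (nat_lit 87) (.e (nat_lit 57479) (nat_lit 28) (.e (nat_lit 557109) (nat_lit 15) (.e (nat_lit 196352) (nat_lit 18) .nil))))) .nil)) 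
(.lf (nat_lit 118624) (.g (nat_lit 2781) (.e (nat_lit 6391) (nat_lit 339) (.e (nat_lit 57379) (nat_lit 3) (.e (nat_lit 98341) (nat_lit 20) (.e (nat_lit 221215) (nat_lit 23) (.e (nat_lit 204850) (nat_lit 26) .nil))))) .nil)))) (.nd (nat_lit 5) (.nd (nat_lit 6) 
(.lf (nat_lit 118544) (.g (nat_lit 501) (.e (nat_lit 6306) (nat_lit 337) (.e (nat_lit 1221) (nat_lit 90) (.e (nat_lit 81965) (nat_lit 26) .nil))) .nil)) 
(.lf (nat_lit 118608) (.g (nat_lit 977) (.e (nat_lit 6391) (nat_lit 339) (.e (nat_lit 57379) (nat_lit 3) (.e (nat_lit 98333) (nat_lit 18) .nil))) .nil))) (.nd (nat_lit 6) 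
(.lf (nat_lit 118576) (.g (nat_lit 1537) (.e (nat_lit 6320) (nat_lit 337) (.e (nat_lit 1220) (nat_lit 90) (.e (nat_lit 81938) (nat_lit 20) (.e (nat_lit 1961) (nat_lit 134) .nil)))) .nil)) 
(.lf (nat_lit 118640) (.g (nat_lit 3363) (.e (nat_lit 6391) (nat_lit 339) (.e (nat_lit 57445) (nat_lit 19) (.e (nat_lit 393229) (nat_lit 9) (.e (nat_lit 336087) (nat_lit 9) .nil)))) .nil))))) (.nd (nat_lit 4) (.nd (nat_lit 5) (.nd (nat_lit 6) 
(.lf (nat_lit 118536) (.g (nat_lit 2436) (.e (nat_lit 6306) (nat_lit 337) (.e (nat_lit 1209) (nat_lit 89) (.e (nat_lit 73753) (nat_lit 8) (.e (nat_lit 557091) (nat_lit 12) (.e (nat_lit 164213) (nat_lit 176) .nil))))) .nil)) 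
(.lf (nat_lit 118600) (.g (nat_lit 1705) (.e (nat_lit 6390) (nat_lit 339) (.e (nat_lit 57406) (nat_lit 12) (.e (nat_lit 336367) (nat_lit 27) (.e (nat_lit 426542) (nat_lit 29) (.e (nat_lit 352315) (nat_lit 23) .nil))))) .nil))) (.nd (nat_lit 6) 
(.lf (nat_lit 118568) (.g (nat_lit 2639) (.e (nat_lit 6320) (nat_lit 337) (.e (nat_lit 1182) (nat_lit 87) (.e (nat_lit 57479) (nat_lit 28) (.e (nat_lit 557109) (nat_lit 15) (.e (nat_lit 196352) (nat_lit 18) .nil))))) .nil)) 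
(.lf (nat_lit 118632) (.g (nat_lit 1781) (.e (nat_lit 6391) (nat_lit 339) (.e (nat_lit 57406) (nat_lit 12) (.e (nat_lit 336456) (nat_lit 34) (.e (nat_lit 483387) (nat_lit 23) .nil)))) .nil)))) (.nd (nat_lit 5) (.nd (nat_lit 6) 
(.lf (nat_lit 118552) (.g (nat_lit 1861) (.e (nat_lit 6308) (nat_lit 337) (.e (nat_lit 1211) (nat_lit 89) (.e (nat_lit 73755) (nat_lit 8) (.e (nat_lit 557091) (nat_lit 12) (.e (nat_lit 164238) (nat_lit 187) .nil))))) .nil)) 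
(.lf (nat_lit 118616) (.g (nat_lit 3063) (.e (nat_lit 6391) (nat_lit 339) (.e (nat_lit 57379) (nat_lit 3) (.e (nat_lit 98334) (nat_lit 18) (.e (nat_lit 164330) (nat_lit 230) (.e (nat_lit 163905) (nat_lit 12) (.e (nat_lit 426131) (nat_lit 3) (.e (nat_lit 204880) (nat_lit 32) (.e (nat_lit 385051) (nat_lit 21) .nil)))))))) (.g (nat_lit 5) .nil .nil)))) (.nd (nat_lit 6) 
(.lf (nat_lit 118584) (.g (nat_lit 2677) (.e (nat_lit 6321) (nat_lit 337) (.e (nat_lit 1182) (nat_lit 87) (.e (nat_lit 57479) (nat_lit 28) (.e (nat_lit 557109) (nat_lit 15) (.e (nat_lit 196352) (nat_lit 18) .nil))))) .nil)) 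
(.lf (nat_lit 118648) (.g (nat_lit 2518) (.e (nat_lit 6392) (nat_lit 339) (.e (nat_lit 57379) (nat_lit 3) (.e (nat_lit 98333) (nat_lit 18) (.e (nat_lit 164325) (nat_lit 230) (.e (nat_lit 163906) (nat_lit 12) .nil))))) .nil)))))) (.nd (nat_lit 3) (.nd (nat_lit 4) (.nd (nat_lit 5) (.nd (nat_lit 6) 
(.lf (nat_lit 118532) (.g (nat_lit 1290) (.e (nat_lit 6306) (nat_lit 337) (.e (nat_lit 1198) (nat_lit 88) (.e (nat_lit 65627) (nat_lit 13) (.e (nat_lit 393265) (nat_lit 22) (.e (nat_lit 417820) (nat_lit 10) .nil))))) .nil)) 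
(.lf (nat_lit 118596) (.g (nat_lit 3678) (.e (nat_lit 6387) (nat_lit 338) (.e (nat_lit 8193) (nat_lit 0) (.e (nat_lit 5355) (nat_lit 298) (.e (nat_lit 1661) (nat_lit 115) (.e (nat_lit 393260) (nat_lit 21) (.e (nat_lit 409649) (nat_lit 18) (.e (nat_lit 303112) (nat_lit 0) (.e (nat_lit 2478) (nat_lit 157) .nil)))))))) (.g (nat_lit 7) .nil .nil)))) (.nd (nat_lit 6) 
(.lf (nat_lit 118564) (.g (nat_lit 2875) (.e (nat_lit 6320) (nat_lit 337) (.e (nat_lit 1181) (nat_lit 87) (.e (nat_lit 57479) (nat_lit 28) (.e (nat_lit 557109) (nat_lit 15) (.e (nat_lit 196352) (nat_lit 18) .nil))))) .nil)) 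
(.lf (nat_lit 118628) (.g (nat_lit 2484) (.e (nat_lit 6391) (nat_lit 339) (.e (nat_lit 57379) (nat_lit 3) (.e (nat_lit 98342) (nat_lit 20) (.e (nat_lit 221215) (nat_lit 23) (.e (nat_lit 204861) (nat_lit 26) (.e (nat_lit 336012) (nat_lit 2) (.e (nat_lit 90164) (nat_lit 12) (.e (nat_lit 163850) (nat_lit 0) .nil)))))))) (.g (nat_lit 4) .nil .nil))))) (.nd (nat_lit 5) (.nd (nat_lit 6) 
(.lf (nat_lit 118548) (.g (nat_lit 2309) (.e (nat_lit 6308) (nat_lit 337) (.e (nat_lit 1181) (nat_lit 87) (.e (nat_lit 57479) (nat_lit 28) (.e (nat_lit 557105) (nat_lit 14) (.e (nat_lit 180252) (nat_lit 10) .nil))))) .nil)) 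
(.lf (nat_lit 118612) (.g (nat_lit 2667) (.e (nat_lit 6391) (nat_lit 339) (.e (nat_lit 57379) (nat_lit 3) (.e (nat_lit 98333) (nat_lit 18) (.e (nat_lit 164325) (nat_lit 230) (.e (nat_lit 163926) (nat_lit 16) .nil))))) .nil))) (.nd (nat_lit 6) 
(.lf (nat_lit 118580) (.g (nat_lit 1736) (.e (nat_lit 6320) (nat_lit 337) (.e (nat_lit 1221) (nat_lit 90) (.e (nat_lit 81965) (nat_lit 26) (.e (nat_lit 147496) (nat_lit 11) (.e (nat_lit 24617) (nat_lit 7) .nil))))) .nil)) 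
(.lf (nat_lit 118644) (.g (nat_lit 3468) (.e (nat_lit 6391) (nat_lit 339) (.e (nat_lit 57445) (nat_lit 19) (.e (nat_lit 393229) (nat_lit 9) (.e (nat_lit 336186) (nat_lit 11) .nil)))) .nil))))) (.nd (nat_lit 4) (.nd (nat_lit 5) (.nd (nat_lit 6) 
(.lf (nat_lit 118540) (.g (nat_lit 2046) (.e (nat_lit 6306) (nat_lit 337) (.e (nat_lit 1211) (nat_lit 89) (.e (nat_lit 73755) (nat_lit 8) (.e (nat_lit 557091) (nat_lit 12) (.e (nat_lit 164213) (nat_lit 176) .nil))))) .nil)) 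
(.lf (nat_lit 118604) (.g (nat_lit 4225) (.e (nat_lit 6390) (nat_lit 339) (.e (nat_lit 57445) (nat_lit 19) (.e (nat_lit 393229) (nat_lit 9) (.e (nat_lit 336107) (nat_lit 9) .nil)))) .nil))) (.nd (nat_lit 6) 
(.lf (nat_lit 118572) (.g (nat_lit 1710) (.e (nat_lit 6320) (nat_lit 337) (.e (nat_lit 1199) (nat_lit 88) (.e (nat_lit 65586) (nat_lit 7) (.e (nat_lit 319531) (nat_lit 16) (.e (nat_lit 286748) (nat_lit 9) .nil))))) .nil)) 
(.lf (nat_lit 118636) (.g (nat_lit 1505) (.e (nat_lit 6391) (nat_lit 339) (.e (nat_lit 57407) (nat_lit 12) (.e (nat_lit 336367) (nat_lit 27) (.e (nat_lit 426542) (nat_lit 29) .nil)))) .nil)))) (.nd (nat_lit 5) (.nd (nat_lit 6) 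
(.lf (nat_lit 118556) (.g (nat_lit 2365) (.e (nat_lit 6315) (nat_lit 337) (.e (nat_lit 1181) (nat_lit 87) (.e (nat_lit 57479) (nat_lit 28) (.e (nat_lit 557105) (nat_lit 14) (.e (nat_lit 180251) (nat_lit 10) .nil))))) .nil)) 
(.lf (nat_lit 118620) (.g (nat_lit 914) (.e (nat_lit 6391) (nat_lit 339) (.e (nat_lit 57379) (nat_lit 3) (.e (nat_lit 98341) (nat_lit 20) .nil))) .nil))) (.nd (nat_lit 6) 
(.lf (nat_lit 118588) (.g (nat_lit 2127) (.e (nat_lit 6322) (nat_lit 337) (.e (nat_lit 1182) (nat_lit 87) (.e (nat_lit 57479) (nat_lit 28) (.e (nat_lit 557107) (nat_lit 15) (.e (nat_lit 196352) (nat_lit 18) .nil))))) .nil)) 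
(.lf (nat_lit 118652) (.g (nat_lit 949) (.e (nat_lit 6392) (nat_lit 339) (.e (nat_lit 57411) (nat_lit 12) (.e (nat_lit 336019) (nat_lit 3) .nil))) .nil))))))) (.nd (nat_lit 2) (.nd (nat_lit 3) (.nd (nat_lit 4) (.nd (nat_lit 5) (.nd (nat_lit 6) 
(.lf (nat_lit 118530) (.g (nat_lit 1352) (.e (nat_lit 6306) (nat_lit 337) (.e (nat_lit 1189) (nat_lit 88) (.e (nat_lit 65627) (nat_lit 13) (.e (nat_lit 393265) (nat_lit 22) (.e (nat_lit 417820) (nat_lit 10) .nil))))) .nil)) 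
(.lf (nat_lit 118594) (.g (nat_lit 744) (.e (nat_lit 6362) (nat_lit 337) (.e (nat_lit 1209) (nat_lit 89) (.e (nat_lit 73754) (nat_lit 8) .nil))) .nil))) (.nd (nat_lit 6) 
(.lf (nat_lit 118562) (.g (nat_lit 2131) (.e (nat_lit 6320) (nat_lit 337) (.e (nat_lit 1181) (nat_lit 87) (.e (nat_lit 57479) (nat_lit 28) (.e (nat_lit 557107) (nat_lit 15) .nil)))) .nil)) 
(.lf (nat_lit 118626) (.g (nat_lit 2504) (.e (nat_lit 6391) (nat_lit 339) (.e (nat_lit 57379) (nat_lit 3) (.e (nat_lit 98341) (nat_lit 20) (.e (nat_lit 221215) (nat_lit 23) (.e (nat_lit 204861) (nat_lit 26) (.e (nat_lit 336012) (nat_lit 2) (.e (nat_lit 90181) (nat_lit 16) (.e (nat_lit 229380) (nat_lit 0) .nil)))))))) (.g (nat_lit 4) .nil .nil))))) (.nd (nat_lit 5) (.nd (nat_lit 6) 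
(.lf (nat_lit 118546) (.g (nat_lit 1843) (.e (nat_lit 6306) (nat_lit 337) (.e (nat_lit 1221) (nat_lit 90) (.e (nat_lit 81965) (nat_lit 26) (.e (nat_lit 147496) (nat_lit 11) (.e (nat_lit 24617) (nat_lit 7) .nil))))) .nil)) 
(.lf (nat_lit 118610) (.g (nat_lit 2515) (.e (nat_lit 6391) (nat_lit 339) (.e (nat_lit 57379) (nat_lit 3) (.e (nat_lit 98333) (nat_lit 18) (.e (nat_lit 164325) (nat_lit 230) (.e (nat_lit 163907) (nat_lit 12) .nil))))) .nil))) (.nd (nat_lit 6) 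
(.lf (nat_lit 118578) (.g (nat_lit 2181) (.e (nat_lit 6320) (nat_lit 337) (.e (nat_lit 1220) (nat_lit 90) (.e (nat_lit 81965) (nat_lit 26) (.e (nat_lit 147496) (nat_lit 11) (.e (nat_lit 24584) (nat_lit 0) .nil))))) .nil)) 
(.lf (nat_lit 118642) (.g (nat_lit 4090) (.e (nat_lit 6391) (nat_lit 339) (.e (nat_lit 57445) (nat_lit 19) (.e (nat_lit 393229) (nat_lit 9) (.e (nat_lit 336107) (nat_lit 9) .nil)))) .nil))))) (.nd (nat_lit 4) (.nd (nat_lit 5) (.nd (nat_lit 6) 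
(.lf (nat_lit 118538) (.g (nat_lit 2851) (.e (nat_lit 6306) (nat_lit 337) (.e (nat_lit 1209) (nat_lit 89) (.e (nat_lit 73753) (nat_lit 8) (.e (nat_lit 557105) (nat_lit 14) (.e (nat_lit 180261) (nat_lit 20) .nil))))) .nil)) 
(.lf (nat_lit 118602) (.g (nat_lit 3903) (.e (nat_lit 6390) (nat_lit 339) (.e (nat_lit 57445) (nat_lit 19) (.e (nat_lit 393229) (nat_lit 9) (.e (nat_lit 336087) (nat_lit 9) .nil)))) .nil))) (.nd (nat_lit 6) 
(.lf (nat_lit 118570) (.g (nat_lit 2907) (.e (nat_lit 6320) (nat_lit 337) (.e (nat_lit 1182) (nat_lit 87) (.e (nat_lit 57479) (nat_lit 28) (.e (nat_lit 557109) (nat_lit 15) (.e (nat_lit 196352) (nat_lit 18) (.e (nat_lit 393217) (nat_lit 0) (.e (nat_lit 1031) (nat_lit 81) .nil))))))) (.g (nat_lit 4) .nil .nil))) 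
(.lf (nat_lit 118634) (.g (nat_lit 1739) (.e (nat_lit 6391) (nat_lit 339) (.e (nat_lit 57406) (nat_lit 12) (.e (nat_lit 336456) (nat_lit 34) (.e (nat_lit 483394) (nat_lit 24) .nil)))) .nil)))) (.nd (nat_lit 5) (.nd (nat_lit 6) 
(.lf (nat_lit 118554) (.g (nat_lit 2339) (.e (nat_lit 6313) (nat_lit 337) (.e (nat_lit 1181) (nat_lit 87) (.e (nat_lit 57479) (nat_lit 28) (.e (nat_lit 557105) (nat_lit 14) (.e (nat_lit 180252) (nat_lit 10) (.e (nat_lit 573480) (nat_lit 13) (.e (nat_lit 65571) (nat_lit 3) (.e (nat_lit 98325) (nat_lit 17) (.e (nat_lit 2458) (nat_lit 157) .nil))))))))) (.g (nat_lit 4) .nil .nil))) 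
(.lf (nat_lit 118618) (.g (nat_lit 3255) (.e (nat_lit 6391) (nat_lit 339) (.e (nat_lit 57379) (nat_lit 3) (.e (nat_lit 98334) (nat_lit 18) (.e (nat_lit 164330) (nat_lit 230) (.e (nat_lit 163926) (nat_lit 16) (.e (nat_lit 458789) (nat_lit 23) (.e (nat_lit 532563) (nat_lit 15) (.e (nat_lit 385049) (nat_lit 21) .nil)))))))) (.g (nat_lit 4) .nil .nil)))) (.nd (nat_lit 6) 
(.lf (nat_lit 118586) (.g (nat_lit 2115) (.e (nat_lit 6322) (nat_lit 337) (.e (nat_lit 1181) (nat_lit 87) (.e (nat_lit 57479) (nat_lit 28) (.e (nat_lit 557107) (nat_lit 15) .nil)))) .nil)) 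
(.lf (nat_lit 118650) (.g (nat_lit 785) (.e (nat_lit 6392) (nat_lit 339) (.e (nat_lit 57406) (nat_lit 12) (.e (nat_lit 336367) (nat_lit 27) .nil))) .nil)))))) (.nd (nat_lit 3) (.nd (nat_lit 4) (.nd (nat_lit 5) (.nd (nat_lit 6) 
(.lf (nat_lit 118534) (.g (nat_lit 1220) (.e (nat_lit 6306) (nat_lit 337) (.e (nat_lit 1200) (nat_lit 88) (.e (nat_lit 65627) (nat_lit 13) (.e (nat_lit 393265) (nat_lit 22) .nil)))) .nil)) 
(.lf (nat_lit 118598) (.g (nat_lit 883) (.e (nat_lit 6390) (nat_lit 339) (.e (nat_lit 57373) (nat_lit 2) (.e (nat_lit 98048) (nat_lit 6) .nil))) .nil))) (.nd (nat_lit 6) 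
(.lf (nat_lit 118566) (.g (nat_lit 2103) (.e (nat_lit 6320) (nat_lit 337) (.e (nat_lit 1182) (nat_lit 87) (.e (nat_lit 57479) (nat_lit 28) (.e (nat_lit 557107) (nat_lit 15) (.e (nat_lit 196352) (nat_lit 18) .nil))))) .nil)) 
(.lf (nat_lit 118630) (.g (nat_lit 1761) (.e (nat_lit 6391) (nat_lit 339) (.e (nat_lit 57406) (nat_lit 12) (.e (nat_lit 336367) (nat_lit 27) (.e (nat_lit 426542) (nat_lit 29) (.e (nat_lit 352315) (nat_lit 23) (.e (nat_lit 98325) (nat_lit 17) (.e (nat_lit 2458) (nat_lit 157) .nil))))))) (.g (nat_lit 4) .nil .nil))))) (.nd (nat_lit 5) (.nd (nat_lit 6) 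
(.lf (nat_lit 118550) (.g (nat_lit 2097) (.e (nat_lit 6308) (nat_lit 337) (.e (nat_lit 1182) (nat_lit 87) (.e (nat_lit 57479) (nat_lit 28) (.e (nat_lit 557107) (nat_lit 15) (.e (nat_lit 196352) (nat_lit 18) .nil))))) .nil)) 
(.lf (nat_lit 118614) (.g (nat_lit 1922) (.e (nat_lit 6391) (nat_lit 339) (.e (nat_lit 57379) (nat_lit 3) (.e (nat_lit 98333) (nat_lit 18) (.e (nat_lit 164327) (nat_lit 230) .nil)))) .nil))) (.nd (nat_lit 6) 
(.lf (nat_lit 118582) (.g (nat_lit 2862) (.e (nat_lit 6321) (nat_lit 337) (.e (nat_lit 1181) (nat_lit 87) (.e (nat_lit 57479) (nat_lit 28) (.e (nat_lit 557109) (nat_lit 15) (.e (nat_lit 196352) (nat_lit 18) .nil))))) .nil)) 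
(.lf (nat_lit 118646) (.g (nat_lit 1129) (.e (nat_lit 6392) (nat_lit 339) (.e (nat_lit 57378) (nat_lit 3) (.e (nat_lit 98333) (nat_lit 18) .nil))) .nil))))) (.nd (nat_lit 4) (.nd (nat_lit 5) (.nd (nat_lit 6) 
(.lf (nat_lit 118542) (.g (nat_lit 1363) (.e (nat_lit 6306) (nat_lit 337) (.e (nat_lit 1220) (nat_lit 90) (.e (nat_lit 81965) (nat_lit 26) (.e (nat_lit 147492) (nat_lit 11) .nil)))) .nil)) 
(.lf (nat_lit 118606) (.g (nat_lit 3826) (.e (nat_lit 6390) (nat_lit 339) (.e (nat_lit 57445) (nat_lit 19) (.e (nat_lit 393229) (nat_lit 9) (.e (nat_lit 336186) (nat_lit 11) .nil)))) .nil))) (.nd (nat_lit 6) 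
(.lf (nat_lit 118574) (.g (nat_lit 4238) (.e (nat_lit 6320) (nat_lit 337) (.e (nat_lit 1200) (nat_lit 88) (.e (nat_lit 65619) (nat_lit 10) (.e (nat_lit 344156) (nat_lit 36) (.e (nat_lit 638998) (nat_lit 8) (.e (nat_lit 172120) (nat_lit 12) (.e (nat_lit 475155) (nat_lit 21) .nil))))))) (.g (nat_lit 7) .nil .nil))) 
(.lf (nat_lit 118638) (.g (nat_lit 2333) (.e (nat_lit 6391) (nat_lit 339) (.e (nat_lit 57430) (nat_lit 16) (.e (nat_lit 368676) (nat_lit 21) (.e (nat_lit 516176) (nat_lit 14) (.e (nat_lit 466977) (nat_lit 22) (.e (nat_lit 196651) (nat_lit 10) (.e (nat_lit 8198) (nat_lit 0) .nil))))))) (.g (nat_lit 5) .nil .nil))))) (.nd (nat_lit 5) (.nd (nat_lit 6) 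
(.lf (nat_lit 118558) (.g (nat_lit 2322) (.e (nat_lit 6318) (nat_lit 337) (.e (nat_lit 1181) (nat_lit 87) (.e (nat_lit 57479) (nat_lit 28) (.e (nat_lit 557105) (nat_lit 14) (.e (nat_lit 180252) (nat_lit 10) .nil))))) .nil)) 
(.lf (nat_lit 118622) (.g (nat_lit 2537) (.e (nat_lit 6391) (nat_lit 339) (.e (nat_lit 57379) (nat_lit 3) (.e (nat_lit 98341) (nat_lit 20) (.e (nat_lit 221214) (nat_lit 23) (.e (nat_lit 204862) (nat_lit 27) (.e (nat_lit 344117) (nat_lit 21) (.e (nat_lit 516106) (nat_lit 0) (.e (nat_lit 2478) (nat_lit 157) .nil)))))))) (.g (nat_lit 4) .nil .nil)))) (.nd (nat_lit 6) 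
(.lf (nat_lit 118590) (.g (nat_lit 1258) (.e (nat_lit 6322) (nat_lit 337) (.e (nat_lit 1221) (nat_lit 90) (.e (nat_lit 81965) (nat_lit 26) (.e (nat_lit 147492) (nat_lit 11) .nil)))) .nil)) 
(.lf (nat_lit 118654) (.g (nat_lit 2259) (.e (nat_lit 6392) (nat_lit 339) (.e (nat_lit 57411) (nat_lit 12) (.e (nat_lit 336019) (nat_lit 3) (.e (nat_lit 98381) (nat_lit 31) (.e (nat_lit 466977) (nat_lit 22) (.e (nat_lit 196651) (nat_lit 10) (.e (nat_lit 8198) (nat_lit 0) .nil))))))) (.g (nat_lit 4) .nil .nil))))))))) 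
(.nd (nat_lit 1) (.nd (nat_lit 2) (.nd (nat_lit 3) (.nd (nat_lit 4) (.nd (nat_lit 5) 
(.nd (nat_lit 6) 
(.lf (nat_lit 118529) (.g (nat_lit 1853) (.e (nat_lit 6305) (nat_lit 337) (.e (nat_lit 1221) (nat_lit 90) (.e (nat_lit 81965) (nat_lit 26) (.e (nat_lit 147496) (nat_lit 11) (.e (nat_lit 24617) (nat_lit 7) .nil))))) .nil)) 
(.lf (nat_lit 118593) (.g (nat_lit 3049) (.e (nat_lit 6362) (nat_lit 337) (.e (nat_lit 1209) (nat_lit 89) (.e (nat_lit 73753) (nat_lit 8) (.e (nat_lit 557100) (nat_lit 13) (.e (nat_lit 172138) (nat_lit 15) .nil))))) .nil))) (.nd (nat_lit 6) 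
(.lf (nat_lit 118561) (.g (nat_lit 1853) (.e (nat_lit 6319) (nat_lit 337) (.e (nat_lit 1221) (nat_lit 90) (.e (nat_lit 81965) (nat_lit 26) (.e (nat_lit 147496) (nat_lit 11) (.e (nat_lit 24617) (nat_lit 7) .nil))))) .nil)) 
(.lf (nat_lit 118625) (.g (nat_lit 2453) (.e (nat_lit 6391) (nat_lit 339) (.e (nat_lit 57379) (nat_lit 3) (.e (nat_lit 98341) (nat_lit 20) (.e (nat_lit 221215) (nat_lit 23) (.e (nat_lit 204861) (nat_lit 26) (.e (nat_lit 336012) (nat_lit 2) (.e (nat_lit 90164) (nat_lit 12) (.e (nat_lit 163850) (nat_lit 0) .nil)))))))) (.g (nat_lit 4) .nil .nil))))) (.nd (nat_lit 5) (.nd (nat_lit 6) 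
(.lf (nat_lit 118545) (.g (nat_lit 1290) (.e (nat_lit 6306) (nat_lit 337) (.e (nat_lit 1221) (nat_lit 90) (.e (nat_lit 81965) (nat_lit 26) (.e (nat_lit 147492) (nat_lit 11) .nil)))) .nil)) 
(.lf (nat_lit 118609) (.g (nat_lit 2979) (.e (nat_lit 6391) (nat_lit 339) (.e (nat_lit 57379) (nat_lit 3) (.e (nat_lit 98333) (nat_lit 18) (.e (nat_lit 164325) (nat_lit 230) (.e (nat_lit 163906) (nat_lit 12) (.e (nat_lit 426131) (nat_lit 3) (.e (nat_lit 204880) (nat_lit 32) (.e (nat_lit 385051) (nat_lit 21) .nil)))))))) (.g (nat_lit 5) .nil .nil)))) (.nd (nat_lit 6) 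
(.lf (nat_lit 118577) (.g (nat_lit 1327) (.e (nat_lit 6320) (nat_lit 337) (.e (nat_lit 1220) (nat_lit 90) (.e (nat_lit 81938) (nat_lit 20) (.e (nat_lit 1963) (nat_lit 134) .nil)))) .nil)) 
(.lf (nat_lit 118641) (.g (nat_lit 3238) (.e (nat_lit 6391) (nat_lit 339) (.e (nat_lit 57445) (nat_lit 19) (.e (nat_lit 393229) (nat_lit 9) (.e (nat_lit 336088) (nat_lit 9) .nil)))) .nil))))) (.nd (nat_lit 4) (.nd (nat_lit 5) (.nd (nat_lit 6) 
(.lf (nat_lit 118537) (.g (nat_lit 1542) (.e (nat_lit 6306) (nat_lit 337) (.e (nat_lit 1209) (nat_lit 89) (.e (nat_lit 73753) (nat_lit 8) (.e (nat_lit 557094) (nat_lit 12) .nil)))) .nil)) 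
(.lf (nat_lit 118601) (.g (nat_lit 1505) (.e (nat_lit 6390) (nat_lit 339) (.e (nat_lit 57407) (nat_lit 12) (.e (nat_lit 336367) (nat_lit 27) (.e (nat_lit 426542) (nat_lit 29) .nil)))) .nil))) (.nd (nat_lit 6) 
(.lf (nat_lit 118569) (.g (nat_lit 2651) (.e (nat_lit 6320) (nat_lit 337) (.e (nat_lit 1182) (nat_lit 87) (.e (nat_lit 57479) (nat_lit 28) (.e (nat_lit 557109) (nat_lit 15) (.e (nat_lit 196352) (nat_lit 18) (.e (nat_lit 393217) (nat_lit 0) (.e (nat_lit 1021) (nat_lit 81) .nil))))))) (.g (nat_lit 4) .nil .nil))) 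
(.lf (nat_lit 118633) (.g (nat_lit 1701) (.e (nat_lit 6391) (nat_lit 339) (.e (nat_lit 57406) (nat_lit 12) (.e (nat_lit 336456) (nat_lit 34) (.e (nat_lit 483393) (nat_lit 23) .nil)))) .nil)))) (.nd (nat_lit 5) (.nd (nat_lit 6) 
(.lf (nat_lit 118553) (.g (nat_lit 2322) (.e (nat_lit 6313) (nat_lit 337) (.e (nat_lit 1181) (nat_lit 87) (.e (nat_lit 57479) (nat_lit 28) (.e (nat_lit 557105) (nat_lit 14) (.e (nat_lit 180252) (nat_lit 10) .nil))))) .nil)) 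
(.lf (nat_lit 118617) (.g (nat_lit 3174) (.e (nat_lit 6391) (nat_lit 339) (.e (nat_lit 57379) (nat_lit 3) (.e (nat_lit 98334) (nat_lit 18) (.e (nat_lit 164330) (nat_lit 230) (.e (nat_lit 163926) (nat_lit 16) .nil))))) .nil))) (.nd (nat_lit 6) 
(.lf (nat_lit 118585) (.g (nat_lit 1905) (.e (nat_lit 6321) (nat_lit 337) (.e (nat_lit 1190) (nat_lit 88) (.e (nat_lit 65619) (nat_lit 10) (.e (nat_lit 344156) (nat_lit 36) (.e (nat_lit 638998) (nat_lit 8) .nil))))) .nil)) 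
(.lf (nat_lit 118649) (.g (nat_lit 2791) (.e (nat_lit 6392) (nat_lit 339) (.e (nat_lit 57379) (nat_lit 3) (.e (nat_lit 98334) (nat_lit 18) (.e (nat_lit 164330) (nat_lit 230) (.e (nat_lit 163905) (nat_lit 12) .nil))))) .nil)))))) (.nd (nat_lit 3) (.nd (nat_lit 4) (.nd (nat_lit 5) (.nd (nat_lit 6) 
(.lf (nat_lit 118533) (.g (nat_lit 1689) (.e (nat_lit 6306) (nat_lit 337) (.e (nat_lit 1199) (nat_lit 88) (.e (nat_lit 65627) (nat_lit 13) (.e (nat_lit 393265) (nat_lit 22) (.e (nat_lit 417820) (nat_lit 10) .nil))))) .nil)) 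
(.lf (nat_lit 118597) (.g (nat_lit 3117) (.e (nat_lit 6387) (nat_lit 338) (.e (nat_lit 8210) (nat_lit 8) (.e (nat_lit 294959) (nat_lit 13) (.e (nat_lit 393260) (nat_lit 21) (.e (nat_lit 409645) (nat_lit 18) (.e (nat_lit 303112) (nat_lit 0) (.e (nat_lit 2478) (nat_lit 157) .nil))))))) (.g (nat_lit 6) .nil .nil)))) (.nd (nat_lit 6) 
(.lf (nat_lit 118565) (.g (nat_lit 4745) (.e (nat_lit 6320) (nat_lit 337) (.e (nat_lit 1182) (nat_lit 87) (.e (nat_lit 57479) (nat_lit 28) (.e (nat_lit 557105) (nat_lit 14) (.e (nat_lit 180252) (nat_lit 10) (.e (nat_lit 573489) (nat_lit 14) (.e (nat_lit 73755) (nat_lit 8) (.e (nat_lit 557084) (nat_lit 10) (.e (nat_lit 8290) (nat_lit 51) .nil))))))))) (.g (nat_lit 8) .nil .nil))) 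
(.lf (nat_lit 118629) (.g (nat_lit 1235) (.e (nat_lit 6391) (nat_lit 339) (.e (nat_lit 57406) (nat_lit 12) (.e (nat_lit 336367) (nat_lit 27) (.e (nat_lit 426542) (nat_lit 29) .nil)))) .nil)))) (.nd (nat_lit 5) (.nd (nat_lit 6) 
(.lf (nat_lit 118549) (.g (nat_lit 2890) (.e (nat_lit 6308) (nat_lit 337) (.e (nat_lit 1181) (nat_lit 87) (.e (nat_lit 57479) (nat_lit 28) (.e (nat_lit 557109) (nat_lit 15) (.e (nat_lit 196352) (nat_lit 18) .nil))))) .nil)) 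
(.lf (nat_lit 118613) (.g (nat_lit 2818) (.e (nat_lit 6391) (nat_lit 339) (.e (nat_lit 57379) (nat_lit 3) (.e (nat_lit 98333) (nat_lit 18) (.e (nat_lit 164325) (nat_lit 230) (.e (nat_lit 163928) (nat_lit 16) (.e (nat_lit 458789) (nat_lit 23) (.e (nat_lit 532563) (nat_lit 15) (.e (nat_lit 385051) (nat_lit 21) .nil)))))))) (.g (nat_lit 4) .nil .nil)))) (.nd (nat_lit 6) 
(.lf (nat_lit 118581) (.g (nat_lit 1950) (.e (nat_lit 6321) (nat_lit 337) (.e (nat_lit 1181) (nat_lit 87) (.e (nat_lit 57479) (nat_lit 28) (.e (nat_lit 557109) (nat_lit 15) .nil)))) .nil)) 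
(.lf (nat_lit 118645) (.g (nat_lit 1901) (.e (nat_lit 6392) (nat_lit 339) (.e (nat_lit 57368) (nat_lit 1) (.e (nat_lit 57854) (nat_lit 252) (.e (nat_lit 57409) (nat_lit 12) (.e (nat_lit 336360) (nat_lit 25) .nil))))) .nil))))) (.nd (nat_lit 4) (.nd (nat_lit 5) (.nd (nat_lit 6) 
(.lf (nat_lit 118541) (.g (nat_lit 1847) (.e (nat_lit 6306) (nat_lit 337) (.e (nat_lit 1211) (nat_lit 89) (.e (nat_lit 73755) (nat_lit 8) (.e (nat_lit 557104) (nat_lit 14) (.e (nat_lit 180233) (nat_lit 0) .nil))))) .nil)) 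
(.lf (nat_lit 118605) (.g (nat_lit 3923) (.e (nat_lit 6390) (nat_lit 339) (.e (nat_lit 57445) (nat_lit 19) (.e (nat_lit 393229) (nat_lit 9) (.e (nat_lit 336184) (nat_lit 11) .nil)))) .nil))) (.nd (nat_lit 6) 
(.lf (nat_lit 118573) (.g (nat_lit 1799) (.e (nat_lit 6320) (nat_lit 337) (.e (nat_lit 1199) (nat_lit 88) (.e (nat_lit 65586) (nat_lit 7) (.e (nat_lit 319531) (nat_lit 16) (.e (nat_lit 286759) (nat_lit 12) .nil))))) .nil)) 
(.lf (nat_lit 118637) (.g (nat_lit 854) (.e (nat_lit 6391) (nat_lit 339) (.e (nat_lit 57407) (nat_lit 12) (.e (nat_lit 336456) (nat_lit 34) .nil))) .nil)))) (.nd (nat_lit 5) (.nd (nat_lit 6) 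
(.lf (nat_lit 118557) (.g (nat_lit 1834) (.e (nat_lit 6317) (nat_lit 337) (.e (nat_lit 1221) (nat_lit 90) (.e (nat_lit 81965) (nat_lit 26) (.e (nat_lit 147496) (nat_lit 11) (.e (nat_lit 24617) (nat_lit 7) .nil))))) .nil)) 
(.lf (nat_lit 118621) (.g (nat_lit 1914) (.e (nat_lit 6391) (nat_lit 339) (.e (nat_lit 57379) (nat_lit 3) (.e (nat_lit 98341) (nat_lit 20) (.e (nat_lit 221214) (nat_lit 23) .nil)))) .nil))) (.nd (nat_lit 6) 
(.lf (nat_lit 118589) (.g (nat_lit 2671) (.e (nat_lit 6322) (nat_lit 337) (.e (nat_lit 1182) (nat_lit 87) (.e (nat_lit 57479) (nat_lit 28) (.e (nat_lit 557109) (nat_lit 15) (.e (nat_lit 196352) (nat_lit 18) .nil))))) .nil)) 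
(.lf (nat_lit 118653) (.g (nat_lit 2168) (.e (nat_lit 6392) (nat_lit 339) (.e (nat_lit 57411) (nat_lit 12) (.e (nat_lit 336019) (nat_lit 3) (.e (nat_lit 98381) (nat_lit 31) (.e (nat_lit 466977) (nat_lit 22) .nil))))) .nil))))))) (.nd (nat_lit 2) (.nd (nat_lit 3) (.nd (nat_lit 4) (.nd (nat_lit 5) (.nd (nat_lit 6) 
(.lf (nat_lit 118531) (.g (nat_lit 1327) (.e (nat_lit 6306) (nat_lit 337) (.e (nat_lit 1196) (nat_lit 88) (.e (nat_lit 65627) (nat_lit 13) (.e (nat_lit 393265) (nat_lit 22) (.e (nat_lit 417820) (nat_lit 10) .nil))))) .nil)) 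
(.lf (nat_lit 118595) (.g (nat_lit 2490) (.e (nat_lit 6374) (nat_lit 337) (.e (nat_lit 2629) (nat_lit 164) (.e (nat_lit 172064) (nat_lit 2) (.e (nat_lit 196666) (nat_lit 13) (.e (nat_lit 65617) (nat_lit 10) .nil))))) .nil))) (.nd (nat_lit 6) 
(.lf (nat_lit 118563) (.g (nat_lit 1964) (.e (nat_lit 6320) (nat_lit 337) (.e (nat_lit 1181) (nat_lit 87) (.e (nat_lit 57479) (nat_lit 28) (.e (nat_lit 557109) (nat_lit 15) .nil)))) .nil)) 
(.lf (nat_lit 118627) (.g (nat_lit 1788) (.e (nat_lit 6391) (nat_lit 339) (.e (nat_lit 57379) (nat_lit 3) (.e (nat_lit 98342) (nat_lit 20) (.e (nat_lit 221215) (nat_lit 23) .nil)))) .nil)))) (.nd (nat_lit 5) (.nd (nat_lit 6) 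
(.lf (nat_lit 118547) (.g (nat_lit 1392) (.e (nat_lit 6307) (nat_lit 337) (.e (nat_lit 1221) (nat_lit 90) (.e (nat_lit 81965) (nat_lit 26) (.e (nat_lit 147496) (nat_lit 11) .nil)))) .nil)) 
(.lf (nat_lit 118611) (.g (nat_lit 4287) (.e (nat_lit 6391) (nat_lit 339) (.e (nat_lit 57379) (nat_lit 3) (.e (nat_lit 98333) (nat_lit 18) (.e (nat_lit 164325) (nat_lit 230) (.e (nat_lit 163907) (nat_lit 12) (.e (nat_lit 426131) (nat_lit 3) (.e (nat_lit 204880) (nat_lit 32) (.e (nat_lit 385051) (nat_lit 21) .nil)))))))) (.g (nat_lit 6) .nil .nil)))) (.nd (nat_lit 6) 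
(.lf (nat_lit 118579) (.g (nat_lit 2099) (.e (nat_lit 6320) (nat_lit 337) (.e (nat_lit 1220) (nat_lit 90) (.e (nat_lit 81965) (nat_lit 26) (.e (nat_lit 147496) (nat_lit 11) (.e (nat_lit 24617) (nat_lit 7) .nil))))) .nil)) 
(.lf (nat_lit 118643) (.g (nat_lit 3535) (.e (nat_lit 6391) (nat_lit 339) (.e (nat_lit 57445) (nat_lit 19) (.e (nat_lit 393229) (nat_lit 9) (.e (nat_lit 336184) (nat_lit 11) .nil)))) .nil))))) (.nd (nat_lit 4) (.nd (nat_lit 5) (.nd (nat_lit 6) 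
(.lf (nat_lit 118539) (.g (nat_lit 2891) (.e (nat_lit 6306) (nat_lit 337) (.e (nat_lit 1211) (nat_lit 89) (.e (nat_lit 73755) (nat_lit 8) (.e (nat_lit 557090) (nat_lit 12) (.e (nat_lit 164213) (nat_lit 176) .nil))))) .nil)) 
(.lf (nat_lit 118603) (.g (nat_lit 3780) (.e (nat_lit 6390) (nat_lit 339) (.e (nat_lit 57445) (nat_lit 19) (.e (nat_lit 393229) (nat_lit 9) (.e (nat_lit 336088) (nat_lit 9) .nil)))) .nil))) (.nd (nat_lit 6) 
(.lf (nat_lit 118571) (.g (nat_lit 2921) (.e (nat_lit 6320) (nat_lit 337) (.e (nat_lit 1182) (nat_lit 87) (.e (nat_lit 57479) (nat_lit 28) (.e (nat_lit 557109) (nat_lit 15) (.e (nat_lit 196352) (nat_lit 18) (.e (nat_lit 393217) (nat_lit 0) (.e (nat_lit 1046) (nat_lit 81) .nil))))))) (.g (nat_lit 4) .nil .nil))) 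
(.lf (nat_lit 118635) (.g (nat_lit 3069) (.e (nat_lit 6391) (nat_lit 339) (.e (nat_lit 57406) (nat_lit 12) (.e (nat_lit 336456) (nat_lit 34) (.e (nat_lit 483395) (nat_lit 24) (.e (nat_lit 344117) (nat_lit 21) (.e (nat_lit 516106) (nat_lit 0) (.e (nat_lit 2478) (nat_lit 157) .nil))))))) (.g (nat_lit 5) .nil .nil))))) (.nd (nat_lit 5) (.nd (nat_lit 6) 
(.lf (nat_lit 118555) (.g (nat_lit 2365) (.e (nat_lit 6314) (nat_lit 337) (.e (nat_lit 1181) (nat_lit 87) (.e (nat_lit 57479) (nat_lit 28) (.e (nat_lit 557105) (nat_lit 14) (.e (nat_lit 180251) (nat_lit 10) .nil))))) .nil)) 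
(.lf (nat_lit 118619) (.g (nat_lit 3094) (.e (nat_lit 6391) (nat_lit 339) (.e (nat_lit 57379) (nat_lit 3) (.e (nat_lit 98334) (nat_lit 18) (.e (nat_lit 164330) (nat_lit 230) (.e (nat_lit 163927) (nat_lit 16) .nil))))) .nil))) (.nd (nat_lit 6) 
(.lf (nat_lit 118587) (.g (nat_lit 2881) (.e (nat_lit 6322) (nat_lit 337) (.e (nat_lit 1181) (nat_lit 87) (.e (nat_lit 57479) (nat_lit 28) (.e (nat_lit 557109) (nat_lit 15) (.e (nat_lit 196352) (nat_lit 18) .nil))))) .nil)) 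
(.lf (nat_lit 118651) (.g (nat_lit 757) (.e (nat_lit 6392) (nat_lit 339) (.e (nat_lit 57406) (nat_lit 12) (.e (nat_lit 336456) (nat_lit 34) .nil))) .nil)))))) (.nd (nat_lit 3) (.nd (nat_lit 4) (.nd (nat_lit 5) (.nd (nat_lit 6) 
(.lf (nat_lit 118535) (.g (nat_lit 737) (.e (nat_lit 6306) (nat_lit 337) (.e (nat_lit 1209) (nat_lit 89) (.e (nat_lit 73753) (nat_lit 8) .nil))) .nil)) 
(.lf (nat_lit 118599) (.g (nat_lit 1255) (.e (nat_lit 6390) (nat_lit 339) (.e (nat_lit 57406) (nat_lit 12) (.e (nat_lit 336367) (nat_lit 27) (.e (nat_lit 426542) (nat_lit 29) .nil)))) .nil))) (.nd (nat_lit 6) 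
(.lf (nat_lit 118567) (.g (nat_lit 2138) (.e (nat_lit 6320) (nat_lit 337) (.e (nat_lit 1182) (nat_lit 87) (.e (nat_lit 57479) (nat_lit 28) (.e (nat_lit 557107) (nat_lit 15) (.e (nat_lit 196352) (nat_lit 18) (.e (nat_lit 393217) (nat_lit 0) (.e (nat_lit 1017) (nat_lit 81) .nil))))))) (.g (nat_lit 4) .nil .nil))) 
(.lf (nat_lit 118631) (.g (nat_lit 678) (.e (nat_lit 6391) (nat_lit 339) (.e (nat_lit 57406) (nat_lit 12) (.e (nat_lit 336456) (nat_lit 34) .nil))) .nil)))) (.nd (nat_lit 5) (.nd (nat_lit 6) 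
(.lf (nat_lit 118551) (.g (nat_lit 2630) (.e (nat_lit 6308) (nat_lit 337) (.e (nat_lit 1182) (nat_lit 87) (.e (nat_lit 57479) (nat_lit 28) (.e (nat_lit 557109) (nat_lit 15) (.e (nat_lit 196352) (nat_lit 18) .nil))))) .nil)) 
(.lf (nat_lit 118615) (.g (nat_lit 979) (.e (nat_lit 6391) (nat_lit 339) (.e (nat_lit 57379) (nat_lit 3) (.e (nat_lit 98334) (nat_lit 18) .nil))) .nil))) (.nd (nat_lit 6) 
(.lf (nat_lit 118583) (.g (nat_lit 2128) (.e (nat_lit 6321) (nat_lit 337) (.e (nat_lit 1182) (nat_lit 87) (.e (nat_lit 57479) (nat_lit 28) (.e (nat_lit 557107) (nat_lit 15) (.e (nat_lit 196352) (nat_lit 18) .nil))))) .nil)) 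
(.lf (nat_lit 118647) (.g (nat_lit 2599) (.e (nat_lit 6392) (nat_lit 339) (.e (nat_lit 57378) (nat_lit 3) (.e (nat_lit 98333) (nat_lit 18) (.e (nat_lit 164325) (nat_lit 230) (.e (nat_lit 163906) (nat_lit 12) .nil))))) .nil))))) (.nd (nat_lit 4) (.nd (nat_lit 5) (.nd (nat_lit 6) 
(.lf (nat_lit 118543) (.g (nat_lit 1510) (.e (nat_lit 6306) (nat_lit 337) (.e (nat_lit 1220) (nat_lit 90) (.e (nat_lit 81965) (nat_lit 26) (.e (nat_lit 147496) (nat_lit 11) .nil)))) .nil)) 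
(.lf (nat_lit 118607) (.g (nat_lit 2599) (.e (nat_lit 6391) (nat_lit 339) (.e (nat_lit 57378) (nat_lit 3) (.e (nat_lit 98333) (nat_lit 18) (.e (nat_lit 164325) (nat_lit 230) (.e (nat_lit 163906) (nat_lit 12) .nil))))) .nil))) (.nd (nat_lit 6) 
(.lf (nat_lit 118575) (.g (nat_lit 3757) (.e (nat_lit 6320) (nat_lit 337) (.e (nat_lit 1200) (nat_lit 88) (.e (nat_lit 65619) (nat_lit 10) (.e (nat_lit 344156) (nat_lit 36) (.e (nat_lit 638998) (nat_lit 8) (.e (nat_lit 172120) (nat_lit 12) (.e (nat_lit 475160) (nat_lit 21) .nil))))))) (.g (nat_lit 6) .nil .nil))) 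
(.lf (nat_lit 118639) (.g (nat_lit 2139) (.e (nat_lit 6391) (nat_lit 339) (.e (nat_lit 57432) (nat_lit 16) (.e (nat_lit 368676) (nat_lit 21) (.e (nat_lit 516176) (nat_lit 14) (.e (nat_lit 466977) (nat_lit 22) (.e (nat_lit 196651) (nat_lit 10) (.e (nat_lit 8198) (nat_lit 0) .nil))))))) (.g (nat_lit 5) .nil .nil))))) (.nd (nat_lit 5) (.nd (nat_lit 6) 
(.lf (nat_lit 118559) (.g (nat_lit 2322) (.e (nat_lit 6319) (nat_lit 337) (.e (nat_lit 1181) (nat_lit 87) (.e (nat_lit 57479) (nat_lit 28) (.e (nat_lit 557105) (nat_lit 14) (.e (nat_lit 180252) (nat_lit 10) .nil))))) .nil)) 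
(.lf (nat_lit 118623) (.g (nat_lit 1876) (.e (nat_lit 6391) (nat_lit 339) (.e (nat_lit 57379) (nat_lit 3) (.e (nat_lit 98341) (nat_lit 20) (.e (nat_lit 221215) (nat_lit 23) .nil)))) .nil))) (.nd (nat_lit 6) 
(.lf (nat_lit 118591) (.g (nat_lit 1748) (.e (nat_lit 6322) (nat_lit 337) (.e (nat_lit 1221) (nat_lit 90) (.e (nat_lit 81965) (nat_lit 26) (.e (nat_lit 147496) (nat_lit 11) (.e (nat_lit 24617) (nat_lit 7) .nil))))) .nil)) 
(.lf (nat_lit 118655) (.g (nat_lit 862) (.e (nat_lit 6392) (nat_lit 339) (.e (nat_lit 57411) (nat_lit 12) (.e (nat_lit 336211) (nat_lit 13) .nil))) .nil)))))))))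

noncomputable def tv1586 : DT := (.nd (nat_lit 0) (.nd (nat_lit 1) (.nd (nat_lit 2) (.nd (nat_lit 3) (.nd (nat_lit 4) (.nd (nat_lit 5) (.nd (nat_lit 6) 
(.lf (nat_lit 118656) (.g (nat_lit 2160) (.e (nat_lit 6392) (nat_lit 339) (.e (nat_lit 57432) (nat_lit 16) (.e (nat_lit 368676) (nat_lit 21) (.e (nat_lit 516176) (nat_lit 14) (.e (nat_lit 466977) (nat_lit 22) (.e (nat_lit 196651) (nat_lit 10) (.e (nat_lit 8197) (nat_lit 0) .nil))))))) (.g (nat_lit 5) .nil .nil))) 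
(.lf (nat_lit 118720) (.g (nat_lit 949) (.e (nat_lit 6398) (nat_lit 339) (.e (nat_lit 57411) (nat_lit 12) (.e (nat_lit 336019) (nat_lit 3) .nil))) .nil))) (.nd (nat_lit 6) 
(.lf (nat_lit 118688) (.g (nat_lit 2024) (.e (nat_lit 6393) (nat_lit 339) (.e (nat_lit 57407) (nat_lit 12) (.e (nat_lit 336367) (nat_lit 27) (.e (nat_lit 426542) (nat_lit 29) (.e (nat_lit 352313) (nat_lit 23) .nil))))) .nil)) 
(.lf (nat_lit 118752) (.g (nat_lit 2970) (.e (nat_lit 6401) (nat_lit 339) (.e (nat_lit 57368) (nat_lit 1) (.e (nat_lit 57854) (nat_lit 252) (.e (nat_lit 57406) (nat_lit 12) (.e (nat_lit 336360) (nat_lit 25) (.e (nat_lit 409648) (nat_lit 18) (.e (nat_lit 303137) (nat_lit 10) (.e (nat_lit 434199) (nat_lit 18) .nil)))))))) (.g (nat_lit 6) .nil .nil))))) (.nd (nat_lit 5) (.nd (nat_lit 6) 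
(.lf (nat_lit 118672) (.g (nat_lit 1272) (.e (nat_lit 6393) (nat_lit 339) (.e (nat_lit 57406) (nat_lit 12) (.e (nat_lit 336367) (nat_lit 27) (.e (nat_lit 426542) (nat_lit 29) .nil)))) .nil)) 
(.lf (nat_lit 118736) (.g (nat_lit 1382) (.e (nat_lit 6400) (nat_lit 339) (.e (nat_lit 57411) (nat_lit 12) (.e (nat_lit 336019) (nat_lit 3) (.e (nat_lit 98341) (nat_lit 20) .nil)))) .nil))) (.nd (nat_lit 6) 
(.lf (nat_lit 118704) (.g (nat_lit 196) (.e (nat_lit 6393) (nat_lit 339) (.e (nat_lit 57446) (nat_lit 19) (.e (nat_lit 401152) (nat_lit 11) .nil))) .nil)) 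
(.lf (nat_lit 118768) (.g (nat_lit 1137) (.e (nat_lit 6401) (nat_lit 339) (.e (nat_lit 57411) (nat_lit 12) (.e (nat_lit 336367) (nat_lit 27) .nil))) .nil))))) (.nd (nat_lit 4) (.nd (nat_lit 5) (.nd (nat_lit 6) 
(.lf (nat_lit 118664) (.g (nat_lit 4117) (.e (nat_lit 6392) (nat_lit 339) (.e (nat_lit 57445) (nat_lit 19) (.e (nat_lit 393229) (nat_lit 9) (.e (nat_lit 336184) (nat_lit 11) .nil)))) .nil)) 
(.lf (nat_lit 118728) (.g (nat_lit 910) (.e (nat_lit 6400) (nat_lit 339) (.e (nat_lit 57379) (nat_lit 3) (.e (nat_lit 98341) (nat_lit 20) .nil))) .nil))) (.nd (nat_lit 6) 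
(.lf (nat_lit 118696) (.g (nat_lit 2195) (.e (nat_lit 6393) (nat_lit 339) (.e (nat_lit 57432) (nat_lit 16) (.e (nat_lit 368676) (nat_lit 21) (.e (nat_lit 516176) (nat_lit 14) (.e (nat_lit 466977) (nat_lit 22) (.e (nat_lit 196651) (nat_lit 10) (.e (nat_lit 16128) (nat_lit 0) .nil))))))) (.g (nat_lit 5) .nil .nil))) 
(.lf (nat_lit 118760) (.g (nat_lit 637) (.e (nat_lit 6401) (nat_lit 339) (.e (nat_lit 57411) (nat_lit 12) (.e (nat_lit 336019) (nat_lit 3) .nil))) .nil)))) (.nd (nat_lit 5) (.nd (nat_lit 6) 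
(.lf (nat_lit 118680) (.g (nat_lit 665) (.e (nat_lit 6393) (nat_lit 339) (.e (nat_lit 57406) (nat_lit 12) (.e (nat_lit 336456) (nat_lit 34) .nil))) .nil)) 
(.lf (nat_lit 118744) (.g (nat_lit 1759) (.e (nat_lit 6400) (nat_lit 339) (.e (nat_lit 57411) (nat_lit 12) (.e (nat_lit 336367) (nat_lit 27) (.e (nat_lit 426542) (nat_lit 29) .nil)))) .nil))) (.nd (nat_lit 6) 
(.lf (nat_lit 118712) (.g (nat_lit 4193) (.e (nat_lit 6396) (nat_lit 339) (.e (nat_lit 57445) (nat_lit 19) (.e (nat_lit 393229) (nat_lit 9) (.e (nat_lit 336186) (nat_lit 11) .nil)))) .nil)) 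
(.lf (nat_lit 118776) (.g (nat_lit 465) (.e (nat_lit 6402) (nat_lit 339) (.e (nat_lit 57417) (nat_lit 12) (.e (nat_lit 336209) (nat_lit 13) .nil))) .nil)))))) (.nd (nat_lit 3) (.nd (nat_lit 4) (.nd (nat_lit 5) (.nd (nat_lit 6) 
(.lf (nat_lit 118660) (.g (nat_lit 2041) (.e (nat_lit 6392) (nat_lit 339) (.e (nat_lit 57437) (nat_lit 17) (.e (nat_lit 376860) (nat_lit 21) (.e (nat_lit 57854) (nat_lit 252) (.e (nat_lit 57366) (nat_lit 1) .nil))))) .nil)) 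
(.lf (nat_lit 118724) (.g (nat_lit 1257) (.e (nat_lit 6398) (nat_lit 339) (.e (nat_lit 57447) (nat_lit 19) (.e (nat_lit 401152) (nat_lit 11) (.e (nat_lit 352315) (nat_lit 23) (.e (nat_lit 98325) (nat_lit 17) .nil))))) .nil))) (.nd (nat_lit 6) 
(.lf (nat_lit 118692) (.g (nat_lit 1523) (.e (nat_lit 6393) (nat_lit 339) (.e (nat_lit 57407) (nat_lit 12) (.e (nat_lit 336367) (nat_lit 27) (.e (nat_lit 426546) (nat_lit 30) .nil)))) .nil)) 
(.lf (nat_lit 118756) (.g (nat_lit 1684) (.e (nat_lit 6401) (nat_lit 339) (.e (nat_lit 57373) (nat_lit 2) (.e (nat_lit 98048) (nat_lit 6) (.e (nat_lit 81956) (nat_lit 23) (.e (nat_lit 98385) (nat_lit 32) (.e (nat_lit 483072) (nat_lit 21) .nil)))))) (.g (nat_lit 4) .nil .nil))))) (.nd (nat_lit 5) (.nd (nat_lit 6) 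
(.lf (nat_lit 118676) (.g (nat_lit 1722) (.e (nat_lit 6393) (nat_lit 339) (.e (nat_lit 57406) (nat_lit 12) (.e (nat_lit 336367) (nat_lit 27) (.e (nat_lit 426542) (nat_lit 29) (.e (nat_lit 352315) (nat_lit 23) .nil))))) .nil)) 
(.lf (nat_lit 118740) (.g (nat_lit 2201) (.e (nat_lit 6400) (nat_lit 339) (.e (nat_lit 57411) (nat_lit 12) (.e (nat_lit 336019) (nat_lit 3) (.e (nat_lit 98381) (nat_lit 31) (.e (nat_lit 466977) (nat_lit 22) .nil))))) .nil))) (.nd (nat_lit 6) 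
(.lf (nat_lit 118708) (.g (nat_lit 4233) (.e (nat_lit 6395) (nat_lit 339) (.e (nat_lit 57445) (nat_lit 19) (.e (nat_lit 393229) (nat_lit 9) (.e (nat_lit 336184) (nat_lit 11) .nil)))) .nil)) 
(.lf (nat_lit 118772) (.g (nat_lit 1935) (.e (nat_lit 6401) (nat_lit 339) (.e (nat_lit 57447) (nat_lit 19) (.e (nat_lit 401152) (nat_lit 11) (.e (nat_lit 352315) (nat_lit 23) (.e (nat_lit 98325) (nat_lit 17) (.e (nat_lit 2478) (nat_lit 157) .nil)))))) (.g (nat_lit 5) .nil .nil)))))) (.nd (nat_lit 4) (.nd (nat_lit 5) (.nd (nat_lit 6) 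
(.lf (nat_lit 118668) (.g (nat_lit 913) (.e (nat_lit 6393) (nat_lit 339) (.e (nat_lit 57379) (nat_lit 3) (.e (nat_lit 98341) (nat_lit 20) .nil))) .nil)) 
(.lf (nat_lit 118732) (.g (nat_lit 1701) (.e (nat_lit 6400) (nat_lit 339) (.e (nat_lit 57379) (nat_lit 3) (.e (nat_lit 98342) (nat_lit 20) (.e (nat_lit 221215) (nat_lit 23) .nil)))) .nil))) (.nd (nat_lit 6) 
(.lf (nat_lit 118700) (.g (nat_lit 4200) (.e (nat_lit 6393) (nat_lit 339) (.e (nat_lit 57445) (nat_lit 19) (.e (nat_lit 393229) (nat_lit 9) (.e (nat_lit 336107) (nat_lit 9) .nil)))) .nil)) 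
(.lf (nat_lit 118764) (.g (nat_lit 1903) (.e (nat_lit 6401) (nat_lit 339) (.e (nat_lit 57411) (nat_lit 12) (.e (nat_lit 336019) (nat_lit 3) (.e (nat_lit 98381) (nat_lit 31) (.e (nat_lit 466977) (nat_lit 22) .nil))))) .nil)))) (.nd (nat_lit 5) (.nd (nat_lit 6) 
(.lf (nat_lit 118684) (.g (nat_lit 1748) (.e (nat_lit 6393) (nat_lit 339) (.e (nat_lit 57406) (nat_lit 12) (.e (nat_lit 336456) (nat_lit 34) (.e (nat_lit 483394) (nat_lit 24) .nil)))) .nil)) 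
(.lf (nat_lit 118748) (.g (nat_lit 846) (.e (nat_lit 6400) (nat_lit 339) (.e (nat_lit 57447) (nat_lit 19) (.e (nat_lit 401152) (nat_lit 11) .nil))) .nil))) (.nd (nat_lit 6) 
(.lf (nat_lit 118716) (.g (nat_lit 910) (.e (nat_lit 6398) (nat_lit 339) (.e (nat_lit 57379) (nat_lit 3) (.e (nat_lit 98341) (nat_lit 20) .nil))) .nil)) 
(.lf (nat_lit 118780) (.g (nat_lit 2137) (.e (nat_lit 6402) (nat_lit 339) (.e (nat_lit 57419) (nat_lit 12) (.e (nat_lit 336222) (nat_lit 13) (.e (nat_lit 393260) (nat_lit 21) (.e (nat_lit 409648) (nat_lit 18) (.e (nat_lit 303104) (nat_lit 0) (.e (nat_lit 2420) (nat_lit 157) .nil))))))) (.g (nat_lit 5) .nil .nil)))))))) 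
(.nd (nat_lit 2) (.nd (nat_lit 3) (.nd (nat_lit 4) (.nd (nat_lit 5) (.nd (nat_lit 6) 
(.lf (nat_lit 118658) (.g (nat_lit 701) (.e (nat_lit 6392) (nat_lit 339) (.e (nat_lit 57437) (nat_lit 17) (.e (nat_lit 376860) (nat_lit 21) .nil))) .nil)) 
(.lf (nat_lit 118722) (.g (nat_lit 941) (.e (nat_lit 6398) (nat_lit 339) (.e (nat_lit 57447) (nat_lit 19) (.e (nat_lit 393229) (nat_lit 9) .nil))) .nil))) (.nd (nat_lit 6) 
(.lf (nat_lit 118690) (.g (nat_lit 2129) (.e (nat_lit 6393) (nat_lit 339) (.e (nat_lit 57407) (nat_lit 12) (.e (nat_lit 336367) (nat_lit 27) (.e (nat_lit 426542) (nat_lit 29) (.e (nat_lit 352313) (nat_lit 23) (.e (nat_lit 98325) (nat_lit 17) (.e (nat_lit 7936) (nat_lit 157) .nil))))))) (.g (nat_lit 4) .nil .nil))) 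
(.lf (nat_lit 118754) (.g (nat_lit 2418) (.e (nat_lit 6401) (nat_lit 339) (.e (nat_lit 57368) (nat_lit 1) (.e (nat_lit 57854) (nat_lit 252) (.e (nat_lit 57409) (nat_lit 12) (.e (nat_lit 336360) (nat_lit 25) (.e (nat_lit 409648) (nat_lit 18) (.e (nat_lit 303137) (nat_lit 10) (.e (nat_lit 434211) (nat_lit 18) .nil)))))))) (.g (nat_lit 5) .nil .nil))))) (.nd (nat_lit 5) (.nd (nat_lit 6) 
(.lf (nat_lit 118674) (.g (nat_lit 1873) (.e (nat_lit 6393) (nat_lit 339) (.e (nat_lit 57406) (nat_lit 12) (.e (nat_lit 336367) (nat_lit 27) (.e (nat_lit 426542) (nat_lit 29) (.e (nat_lit 352313) (nat_lit 23) (.e (nat_lit 98325) (nat_lit 17) (.e (nat_lit 2478) (nat_lit 157) .nil))))))) (.g (nat_lit 4) .nil .nil))) 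
(.lf (nat_lit 118738) (.g (nat_lit 2409) (.e (nat_lit 6400) (nat_lit 339) (.e (nat_lit 57411) (nat_lit 12) (.e (nat_lit 336019) (nat_lit 3) (.e (nat_lit 98342) (nat_lit 20) (.e (nat_lit 221207) (nat_lit 21) .nil))))) .nil))) (.nd (nat_lit 6) 
(.lf (nat_lit 118706) (.g (nat_lit 4224) (.e (nat_lit 6394) (nat_lit 339) (.e (nat_lit 57445) (nat_lit 19) (.e (nat_lit 393229) (nat_lit 9) (.e (nat_lit 336184) (nat_lit 11) .nil)))) .nil)) 
(.lf (nat_lit 118770) (.g (nat_lit 1218) (.e (nat_lit 6401) (nat_lit 339) (.e (nat_lit 57447) (nat_lit 19) (.e (nat_lit 401152) (nat_lit 11) (.e (nat_lit 352313) (nat_lit 23) (.e (nat_lit 98321) (nat_lit 17) .nil))))) .nil))))) (.nd (nat_lit 4) (.nd (nat_lit 5) (.nd (nat_lit 6) 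
(.lf (nat_lit 118666) (.g (nat_lit 855) (.e (nat_lit 6392) (nat_lit 339) (.e (nat_lit 57447) (nat_lit 19) (.e (nat_lit 401152) (nat_lit 11) .nil))) .nil)) 
(.lf (nat_lit 118730) (.g (nat_lit 2414) (.e (nat_lit 6400) (nat_lit 339) (.e (nat_lit 57379) (nat_lit 3) (.e (nat_lit 98341) (nat_lit 20) (.e (nat_lit 221215) (nat_lit 23) (.e (nat_lit 204861) (nat_lit 26) .nil))))) .nil))) (.nd (nat_lit 6) 
(.lf (nat_lit 118698) (.g (nat_lit 3756) (.e (nat_lit 6393) (nat_lit 339) (.e (nat_lit 57445) (nat_lit 19) (.e (nat_lit 393229) (nat_lit 9) (.e (nat_lit 336088) (nat_lit 9) .nil)))) .nil)) 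
(.lf (nat_lit 118762) (.g (nat_lit 2121) (.e (nat_lit 6401) (nat_lit 339) (.e (nat_lit 57411) (nat_lit 12) (.e (nat_lit 336019) (nat_lit 3) (.e (nat_lit 98342) (nat_lit 20) (.e (nat_lit 221207) (nat_lit 21) .nil))))) .nil)))) (.nd (nat_lit 5) (.nd (nat_lit 6) 
(.lf (nat_lit 118682) (.g (nat_lit 1749) (.e (nat_lit 6393) (nat_lit 339) (.e (nat_lit 57406) (nat_lit 12) (.e (nat_lit 336456) (nat_lit 34) (.e (nat_lit 483387) (nat_lit 23) .nil)))) .nil)) 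
(.lf (nat_lit 118746) (.g (nat_lit 942) (.e (nat_lit 6400) (nat_lit 339) (.e (nat_lit 57447) (nat_lit 19) (.e (nat_lit 393229) (nat_lit 9) .nil))) .nil))) (.nd (nat_lit 6) 
(.lf (nat_lit 118714) (.g (nat_lit 2518) (.e (nat_lit 6398) (nat_lit 339) (.e (nat_lit 57379) (nat_lit 3) (.e (nat_lit 98333) (nat_lit 18) (.e (nat_lit 164325) (nat_lit 230) (.e (nat_lit 163906) (nat_lit 12) .nil))))) .nil)) 
(.lf (nat_lit 118778) (.g (nat_lit 1525) (.e (nat_lit 6402) (nat_lit 339) (.e (nat_lit 57417) (nat_lit 12) (.e (nat_lit 336209) (nat_lit 13) (.e (nat_lit 393260) (nat_lit 21) (.e (nat_lit 409649) (nat_lit 18) .nil))))) .nil)))))) (.nd (nat_lit 3) (.nd (nat_lit 4) (.nd (nat_lit 5) (.nd (nat_lit 6) 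
(.lf (nat_lit 118662) (.g (nat_lit 3783) (.e (nat_lit 6392) (nat_lit 339) (.e (nat_lit 57445) (nat_lit 19) (.e (nat_lit 393229) (nat_lit 9) (.e (nat_lit 336088) (nat_lit 9) .nil)))) .nil)) 
(.lf (nat_lit 118726) (.g (nat_lit 1937) (.e (nat_lit 6400) (nat_lit 339) (.e (nat_lit 57368) (nat_lit 1) (.e (nat_lit 57854) (nat_lit 252) (.e (nat_lit 57406) (nat_lit 12) (.e (nat_lit 336360) (nat_lit 25) .nil))))) .nil))) (.nd (nat_lit 6) 
(.lf (nat_lit 118694) (.g (nat_lit 949) (.e (nat_lit 6393) (nat_lit 339) (.e (nat_lit 57411) (nat_lit 12) (.e (nat_lit 336019) (nat_lit 3) .nil))) .nil)) 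
(.lf (nat_lit 118758) (.g (nat_lit 712) (.e (nat_lit 6401) (nat_lit 339) (.e (nat_lit 57409) (nat_lit 12) (.e (nat_lit 336456) (nat_lit 34) .nil))) .nil)))) (.nd (nat_lit 5) (.nd (nat_lit 6) 
(.lf (nat_lit 118678) (.g (nat_lit 1396) (.e (nat_lit 6393) (nat_lit 339) (.e (nat_lit 57406) (nat_lit 12) (.e (nat_lit 336367) (nat_lit 27) (.e (nat_lit 426546) (nat_lit 30) (.e (nat_lit 360466) (nat_lit 3) .nil))))) .nil)) 
(.lf (nat_lit 118742) (.g (nat_lit 3470) (.e (nat_lit 6400) (nat_lit 339) (.e (nat_lit 57411) (nat_lit 12) (.e (nat_lit 336019) (nat_lit 3) (.e (nat_lit 98381) (nat_lit 31) (.e (nat_lit 466977) (nat_lit 22) (.e (nat_lit 196651) (nat_lit 10) (.e (nat_lit 8199) (nat_lit 0) .nil))))))) (.g (nat_lit 7) .nil .nil)))) (.nd (nat_lit 6) 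
(.lf (nat_lit 118710) (.g (nat_lit 4014) (.e (nat_lit 6396) (nat_lit 339) (.e (nat_lit 57445) (nat_lit 19) (.e (nat_lit 393229) (nat_lit 9) (.e (nat_lit 336087) (nat_lit 9) .nil)))) .nil)) 
(.lf (nat_lit 118774) (.g (nat_lit 1143) (.e (nat_lit 6402) (nat_lit 339) (.e (nat_lit 57411) (nat_lit 12) (.e (nat_lit 336456) (nat_lit 34) .nil))) .nil))))) (.nd (nat_lit 4) (.nd (nat_lit 5) (.nd (nat_lit 6) 
(.lf (nat_lit 118670) (.g (nat_lit 2864) (.e (nat_lit 6393) (nat_lit 339) (.e (nat_lit 57406) (nat_lit 12) (.e (nat_lit 336326) (nat_lit 18) (.e (nat_lit 204869) (nat_lit 29) (.e (nat_lit 360492) (nat_lit 22) .nil))))) .nil)) 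
(.lf (nat_lit 118734) (.g (nat_lit 1828) (.e (nat_lit 6400) (nat_lit 339) (.e (nat_lit 57409) (nat_lit 12) (.e (nat_lit 336367) (nat_lit 27) (.e (nat_lit 426542) (nat_lit 29) (.e (nat_lit 352315) (nat_lit 23) .nil))))) .nil))) (.nd (nat_lit 6) 
(.lf (nat_lit 118702) (.g (nat_lit 3636) (.e (nat_lit 6393) (nat_lit 339) (.e (nat_lit 57445) (nat_lit 19) (.e (nat_lit 393229) (nat_lit 9) (.e (nat_lit 336186) (nat_lit 11) .nil)))) .nil)) 
(.lf (nat_lit 118766) (.g (nat_lit 3282) (.e (nat_lit 6401) (nat_lit 339) (.e (nat_lit 57411) (nat_lit 12) (.e (nat_lit 336019) (nat_lit 3) (.e (nat_lit 98381) (nat_lit 31) (.e (nat_lit 466977) (nat_lit 22) (.e (nat_lit 196651) (nat_lit 10) (.e (nat_lit 8199) (nat_lit 0) .nil))))))) (.g (nat_lit 6) .nil .nil))))) (.nd (nat_lit 5) (.nd (nat_lit 6) 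
(.lf (nat_lit 118686) (.g (nat_lit 1670) (.e (nat_lit 6393) (nat_lit 339) (.e (nat_lit 57407) (nat_lit 12) (.e (nat_lit 336326) (nat_lit 18) (.e (nat_lit 204870) (nat_lit 29) .nil)))) .nil)) 
(.lf (nat_lit 118750) (.g (nat_lit 1218) (.e (nat_lit 6400) (nat_lit 339) (.e (nat_lit 57447) (nat_lit 19) (.e (nat_lit 401152) (nat_lit 11) (.e (nat_lit 352313) (nat_lit 23) (.e (nat_lit 98321) (nat_lit 17) .nil))))) .nil))) (.nd (nat_lit 6) 
(.lf (nat_lit 118718) (.g (nat_lit 1788) (.e (nat_lit 6398) (nat_lit 339) (.e (nat_lit 57379) (nat_lit 3) (.e (nat_lit 98342) (nat_lit 20) (.e (nat_lit 221215) (nat_lit 23) .nil)))) .nil)) 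
(.lf (nat_lit 118782) (.g (nat_lit 777) (.e (nat_lit 6403) (nat_lit 339) (.e (nat_lit 57406) (nat_lit 12) (.e (nat_lit 336456) (nat_lit 34) .nil))) .nil)))))))) (.nd (nat_lit 1) (.nd (nat_lit 2) (.nd (nat_lit 3) (.nd (nat_lit 4) (.nd (nat_lit 5) (.nd (nat_lit 6) 
(.lf (nat_lit 118657) (.g (nat_lit 2484) (.e (nat_lit 6392) (nat_lit 339) (.e (nat_lit 57432) (nat_lit 16) (.e (nat_lit 368676) (nat_lit 21) (.e (nat_lit 516176) (nat_lit 14) (.e (nat_lit 466977) (nat_lit 22) (.e (nat_lit 196651) (nat_lit 10) (.e (nat_lit 8198) (nat_lit 0) .nil))))))) (.g (nat_lit 7) .nil .nil))) 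
(.lf (nat_lit 118721) (.g (nat_lit 2168) (.e (nat_lit 6398) (nat_lit 339) (.e (nat_lit 57411) (nat_lit 12) (.e (nat_lit 336019) (nat_lit 3) (.e (nat_lit 98381) (nat_lit 31) (.e (nat_lit 466977) (nat_lit 22) .nil))))) .nil))) (.nd (nat_lit 6) 
(.lf (nat_lit 118689) (.g (nat_lit 2582) (.e (nat_lit 6393) (nat_lit 339) (.e (nat_lit 57407) (nat_lit 12) (.e (nat_lit 336367) (nat_lit 27) (.e (nat_lit 426542) (nat_lit 29) (.e (nat_lit 352313) (nat_lit 23) (.e (nat_lit 98321) (nat_lit 17) (.e (nat_lit 7936) (nat_lit 157) .nil))))))) (.g (nat_lit 5) .nil .nil))) 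
(.lf (nat_lit 118753) (.g (nat_lit 2082) (.e (nat_lit 6401) (nat_lit 339) (.e (nat_lit 57368) (nat_lit 1) (.e (nat_lit 57854) (nat_lit 252) (.e (nat_lit 57406) (nat_lit 12) (.e (nat_lit 336360) (nat_lit 25) (.e (nat_lit 409648) (nat_lit 18) (.e (nat_lit 303137) (nat_lit 10) (.e (nat_lit 434211) (nat_lit 18) .nil)))))))) (.g (nat_lit 4) .nil .nil))))) (.nd (nat_lit 5) (.nd (nat_lit 6) 
(.lf (nat_lit 118673) (.g (nat_lit 2547) (.e (nat_lit 6393) (nat_lit 339) (.e (nat_lit 57406) (nat_lit 12) (.e (nat_lit 336367) (nat_lit 27) (.e (nat_lit 426542) (nat_lit 29) (.e (nat_lit 352313) (nat_lit 23) (.e (nat_lit 98321) (nat_lit 17) (.e (nat_lit 7936) (nat_lit 157) .nil))))))) (.g (nat_lit 6) .nil .nil))) 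
(.lf (nat_lit 118737) (.g (nat_lit 2410) (.e (nat_lit 6400) (nat_lit 339) (.e (nat_lit 57411) (nat_lit 12) (.e (nat_lit 336019) (nat_lit 3) (.e (nat_lit 98342) (nat_lit 20) (.e (nat_lit 221206) (nat_lit 21) .nil))))) .nil))) (.nd (nat_lit 6) 
(.lf (nat_lit 118705) (.g (nat_lit 846) (.e (nat_lit 6393) (nat_lit 339) (.e (nat_lit 57447) (nat_lit 19) (.e (nat_lit 401152) (nat_lit 11) .nil))) .nil)) 
(.lf (nat_lit 118769) (.g (nat_lit 911) (.e (nat_lit 6401) (nat_lit 339) (.e (nat_lit 57447) (nat_lit 19) (.e (nat_lit 393229) (nat_lit 9) .nil))) .nil))))) (.nd (nat_lit 4) (.nd (nat_lit 5) (.nd (nat_lit 6) 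
(.lf (nat_lit 118665) (.g (nat_lit 4049) (.e (nat_lit 6392) (nat_lit 339) (.e (nat_lit 57445) (nat_lit 19) (.e (nat_lit 393229) (nat_lit 9) (.e (nat_lit 336186) (nat_lit 11) .nil)))) .nil)) 
(.lf (nat_lit 118729) (.g (nat_lit 2776) (.e (nat_lit 6400) (nat_lit 339) (.e (nat_lit 57379) (nat_lit 3) (.e (nat_lit 98341) (nat_lit 20) (.e (nat_lit 221215) (nat_lit 23) (.e (nat_lit 204850) (nat_lit 26) .nil))))) .nil))) (.nd (nat_lit 6) 
(.lf (nat_lit 118697) (.g (nat_lit 3879) (.e (nat_lit 6393) (nat_lit 339) (.e (nat_lit 57445) (nat_lit 19) (.e (nat_lit 393229) (nat_lit 9) (.e (nat_lit 336087) (nat_lit 9) .nil)))) .nil)) 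
(.lf (nat_lit 118761) (.g (nat_lit 1120) (.e (nat_lit 6401) (nat_lit 339) (.e (nat_lit 57411) (nat_lit 12) (.e (nat_lit 336019) (nat_lit 3) (.e (nat_lit 98342) (nat_lit 20) .nil)))) .nil)))) (.nd (nat_lit 5) (.nd (nat_lit 6) 
(.lf (nat_lit 118681) (.g (nat_lit 1768) (.e (nat_lit 6393) (nat_lit 339) (.e (nat_lit 57406) (nat_lit 12) (.e (nat_lit 336456) (nat_lit 34) (.e (nat_lit 483383) (nat_lit 23) .nil)))) .nil)) 
(.lf (nat_lit 118745) (.g (nat_lit 1676) (.e (nat_lit 6400) (nat_lit 339) (.e (nat_lit 57411) (nat_lit 12) (.e (nat_lit 336456) (nat_lit 34) (.e (nat_lit 483389) (nat_lit 23) .nil)))) .nil))) (.nd (nat_lit 6) 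
(.lf (nat_lit 118713) (.g (nat_lit 1937) (.e (nat_lit 6398) (nat_lit 339) (.e (nat_lit 57368) (nat_lit 1) (.e (nat_lit 57854) (nat_lit 252) (.e (nat_lit 57406) (nat_lit 12) (.e (nat_lit 336360) (nat_lit 25) .nil))))) .nil)) 
(.lf (nat_lit 118777) (.g (nat_lit 1529) (.e (nat_lit 6402) (nat_lit 339) (.e (nat_lit 57417) (nat_lit 12) (.e (nat_lit 336209) (nat_lit 13) (.e (nat_lit 393260) (nat_lit 21) (.e (nat_lit 409648) (nat_lit 18) .nil))))) .nil)))))) (.nd (nat_lit 3) (.nd (nat_lit 4) (.nd (nat_lit 5) (.nd (nat_lit 6) 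
(.lf (nat_lit 118661) (.g (nat_lit 3994) (.e (nat_lit 6392) (nat_lit 339) (.e (nat_lit 57445) (nat_lit 19) (.e (nat_lit 393229) (nat_lit 9) (.e (nat_lit 336087) (nat_lit 9) .nil)))) .nil)) 
(.lf (nat_lit 118725) (.g (nat_lit 846) (.e (nat_lit 6399) (nat_lit 339) (.e (nat_lit 57447) (nat_lit 19) (.e (nat_lit 401152) (nat_lit 11) .nil))) .nil))) (.nd (nat_lit 6) 
(.lf (nat_lit 118693) (.g (nat_lit 1928) (.e (nat_lit 6393) (nat_lit 339) (.e (nat_lit 57407) (nat_lit 12) (.e (nat_lit 336456) (nat_lit 34) (.e (nat_lit 483393) (nat_lit 23) (.e (nat_lit 336012) (nat_lit 2) .nil))))) .nil)) 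
(.lf (nat_lit 118757) (.g (nat_lit 736) (.e (nat_lit 6401) (nat_lit 339) (.e (nat_lit 57409) (nat_lit 12) (.e (nat_lit 336367) (nat_lit 27) .nil))) .nil)))) (.nd (nat_lit 5) (.nd (nat_lit 6) 
(.lf (nat_lit 118677) (.g (nat_lit 2469) (.e (nat_lit 6393) (nat_lit 339) (.e (nat_lit 57406) (nat_lit 12) (.e (nat_lit 336367) (nat_lit 27) (.e (nat_lit 426542) (nat_lit 29) (.e (nat_lit 352315) (nat_lit 23) (.e (nat_lit 98325) (nat_lit 17) (.e (nat_lit 2478) (nat_lit 157) .nil))))))) (.g (nat_lit 5) .nil .nil))) 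
(.lf (nat_lit 118741) (.g (nat_lit 3219) (.e (nat_lit 6400) (nat_lit 339) (.e (nat_lit 57411) (nat_lit 12) (.e (nat_lit 336019) (nat_lit 3) (.e (nat_lit 98381) (nat_lit 31) (.e (nat_lit 466977) (nat_lit 22) (.e (nat_lit 196651) (nat_lit 10) (.e (nat_lit 8192) (nat_lit 0) .nil))))))) (.g (nat_lit 5) .nil .nil)))) (.nd (nat_lit 6) 
(.lf (nat_lit 118709) (.g (nat_lit 4205) (.e (nat_lit 6395) (nat_lit 339) (.e (nat_lit 57445) (nat_lit 19) (.e (nat_lit 393229) (nat_lit 9) (.e (nat_lit 336186) (nat_lit 11) .nil)))) .nil)) 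
(.lf (nat_lit 118773) (.g (nat_lit 949) (.e (nat_lit 6402) (nat_lit 339) (.e (nat_lit 57411) (nat_lit 12) (.e (nat_lit 336019) (nat_lit 3) .nil))) .nil))))) (.nd (nat_lit 4) (.nd (nat_lit 5) (.nd (nat_lit 6) 
(.lf (nat_lit 118669) (.g (nat_lit 900) (.e (nat_lit 6393) (nat_lit 339) (.e (nat_lit 57379) (nat_lit 3) (.e (nat_lit 98342) (nat_lit 20) .nil))) .nil)) 
(.lf (nat_lit 118733) (.g (nat_lit 2278) (.e (nat_lit 6400) (nat_lit 339) (.e (nat_lit 57379) (nat_lit 3) (.e (nat_lit 98342) (nat_lit 20) (.e (nat_lit 221215) (nat_lit 23) (.e (nat_lit 204861) (nat_lit 26) (.e (nat_lit 336012) (nat_lit 2) (.e (nat_lit 90181) (nat_lit 16) (.e (nat_lit 229376) (nat_lit 0) .nil)))))))) (.g (nat_lit 4) .nil .nil)))) (.nd (nat_lit 6) 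
(.lf (nat_lit 118701) (.g (nat_lit 3985) (.e (nat_lit 6393) (nat_lit 339) (.e (nat_lit 57445) (nat_lit 19) (.e (nat_lit 393229) (nat_lit 9) (.e (nat_lit 336184) (nat_lit 11) .nil)))) .nil)) 
(.lf (nat_lit 118765) (.g (nat_lit 2766) (.e (nat_lit 6401) (nat_lit 339) (.e (nat_lit 57411) (nat_lit 12) (.e (nat_lit 336019) (nat_lit 3) (.e (nat_lit 98381) (nat_lit 31) (.e (nat_lit 466977) (nat_lit 22) (.e (nat_lit 196651) (nat_lit 10) (.e (nat_lit 8192) (nat_lit 0) .nil))))))) (.g (nat_lit 5) .nil .nil))))) (.nd (nat_lit 5) (.nd (nat_lit 6) 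
(.lf (nat_lit 118685) (.g (nat_lit 2654) (.e (nat_lit 6393) (nat_lit 339) (.e (nat_lit 57406) (nat_lit 12) (.e (nat_lit 336456) (nat_lit 34) (.e (nat_lit 483394) (nat_lit 24) (.e (nat_lit 344117) (nat_lit 21) (.e (nat_lit 516106) (nat_lit 0) (.e (nat_lit 2478) (nat_lit 157) .nil))))))) (.g (nat_lit 5) .nil .nil))) 
(.lf (nat_lit 118749) (.g (nat_lit 1245) (.e (nat_lit 6400) (nat_lit 339) (.e (nat_lit 57447) (nat_lit 19) (.e (nat_lit 401152) (nat_lit 11) (.e (nat_lit 352312) (nat_lit 22) (.e (nat_lit 90165) (nat_lit 12) .nil))))) .nil))) (.nd (nat_lit 6) 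
(.lf (nat_lit 118717) (.g (nat_lit 1874) (.e (nat_lit 6398) (nat_lit 339) (.e (nat_lit 57379) (nat_lit 3) (.e (nat_lit 98341) (nat_lit 20) (.e (nat_lit 221215) (nat_lit 23) .nil)))) .nil)) 
(.lf (nat_lit 118781) (.g (nat_lit 942) (.e (nat_lit 6402) (nat_lit 339) (.e (nat_lit 57447) (nat_lit 19) (.e (nat_lit 393229) (nat_lit 9) .nil))) .nil))))))) (.nd (nat_lit 2) (.nd (nat_lit 3) (.nd (nat_lit 4) (.nd (nat_lit 5) (.nd (nat_lit 6) 
(.lf (nat_lit 118659) (.g (nat_lit 1565) (.e (nat_lit 6392) (nat_lit 339) (.e (nat_lit 57437) (nat_lit 17) (.e (nat_lit 376860) (nat_lit 21) (.e (nat_lit 57691) (nat_lit 156) .nil)))) .nil)) 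
(.lf (nat_lit 118723) (.g (nat_lit 846) (.e (nat_lit 6398) (nat_lit 339) (.e (nat_lit 57447) (nat_lit 19) (.e (nat_lit 401152) (nat_lit 11) .nil))) .nil))) (.nd (nat_lit 6) 
(.lf (nat_lit 118691) (.g (nat_lit 2596) (.e (nat_lit 6393) (nat_lit 339) (.e (nat_lit 57407) (nat_lit 12) (.e (nat_lit 336367) (nat_lit 27) (.e (nat_lit 426542) (nat_lit 29) (.e (nat_lit 352315) (nat_lit 23) (.e (nat_lit 98325) (nat_lit 17) (.e (nat_lit 7936) (nat_lit 157) .nil))))))) (.g (nat_lit 5) .nil .nil))) 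
(.lf (nat_lit 118755) (.g (nat_lit 740) (.e (nat_lit 6401) (nat_lit 339) (.e (nat_lit 57373) (nat_lit 2) (.e (nat_lit 98048) (nat_lit 6) .nil))) .nil)))) (.nd (nat_lit 5) (.nd (nat_lit 6) 
(.lf (nat_lit 118675) (.g (nat_lit 2094) (.e (nat_lit 6393) (nat_lit 339) (.e (nat_lit 57406) (nat_lit 12) (.e (nat_lit 336367) (nat_lit 27) (.e (nat_lit 426542) (nat_lit 29) (.e (nat_lit 352313) (nat_lit 23) (.e (nat_lit 98325) (nat_lit 17) (.e (nat_lit 7936) (nat_lit 157) .nil))))))) (.g (nat_lit 5) .nil .nil))) 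
(.lf (nat_lit 118739) (.g (nat_lit 2378) (.e (nat_lit 6400) (nat_lit 339) (.e (nat_lit 57411) (nat_lit 12) (.e (nat_lit 336019) (nat_lit 3) (.e (nat_lit 98342) (nat_lit 20) (.e (nat_lit 221208) (nat_lit 21) .nil))))) .nil))) (.nd (nat_lit 6) 
(.lf (nat_lit 118707) (.g (nat_lit 4233) (.e (nat_lit 6394) (nat_lit 339) (.e (nat_lit 57445) (nat_lit 19) (.e (nat_lit 393229) (nat_lit 9) (.e (nat_lit 336186) (nat_lit 11) .nil)))) .nil)) 
(.lf (nat_lit 118771) (.g (nat_lit 1337) (.e (nat_lit 6401) (nat_lit 339) (.e (nat_lit 57447) (nat_lit 19) (.e (nat_lit 401152) (nat_lit 11) (.e (nat_lit 352313) (nat_lit 23) (.e (nat_lit 98321) (nat_lit 17) (.e (nat_lit 2464) (nat_lit 157) .nil)))))) (.g (nat_lit 4) .nil .nil)))))) (.nd (nat_lit 4) (.nd (nat_lit 5) (.nd (nat_lit 6) 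
(.lf (nat_lit 118667) (.g (nat_lit 3900) (.e (nat_lit 6393) (nat_lit 339) (.e (nat_lit 57377) (nat_lit 3) (.e (nat_lit 98317) (nat_lit 9) (.e (nat_lit 336223) (nat_lit 13) .nil)))) .nil)) 
(.lf (nat_lit 118731) (.g (nat_lit 1839) (.e (nat_lit 6400) (nat_lit 339) (.e (nat_lit 57379) (nat_lit 3) (.e (nat_lit 98342) (nat_lit 20) (.e (nat_lit 221212) (nat_lit 22) .nil)))) .nil))) (.nd (nat_lit 6) 
(.lf (nat_lit 118699) (.g (nat_lit 4515) (.e (nat_lit 6393) (nat_lit 339) (.e (nat_lit 57445) (nat_lit 19) (.e (nat_lit 393229) (nat_lit 9) (.e (nat_lit 336105) (nat_lit 9) .nil)))) .nil)) 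
(.lf (nat_lit 118763) (.g (nat_lit 2090) (.e (nat_lit 6401) (nat_lit 339) (.e (nat_lit 57411) (nat_lit 12) (.e (nat_lit 336019) (nat_lit 3) (.e (nat_lit 98342) (nat_lit 20) (.e (nat_lit 221208) (nat_lit 21) .nil))))) .nil)))) (.nd (nat_lit 5) (.nd (nat_lit 6) 
(.lf (nat_lit 118683) (.g (nat_lit 1711) (.e (nat_lit 6393) (nat_lit 339) (.e (nat_lit 57406) (nat_lit 12) (.e (nat_lit 336456) (nat_lit 34) (.e (nat_lit 483389) (nat_lit 23) .nil)))) .nil)) 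
(.lf (nat_lit 118747) (.g (nat_lit 2163) (.e (nat_lit 6400) (nat_lit 339) (.e (nat_lit 57447) (nat_lit 19) (.e (nat_lit 393229) (nat_lit 9) (.e (nat_lit 336184) (nat_lit 11) .nil)))) .nil))) (.nd (nat_lit 6) 
(.lf (nat_lit 118715) (.g (nat_lit 2791) (.e (nat_lit 6398) (nat_lit 339) (.e (nat_lit 57379) (nat_lit 3) (.e (nat_lit 98334) (nat_lit 18) (.e (nat_lit 164330) (nat_lit 230) (.e (nat_lit 163905) (nat_lit 12) .nil))))) .nil)) 
(.lf (nat_lit 118779) (.g (nat_lit 1612) (.e (nat_lit 6402) (nat_lit 339) (.e (nat_lit 57419) (nat_lit 12) (.e (nat_lit 336086) (nat_lit 9) (.e (nat_lit 336369) (nat_lit 27) (.e (nat_lit 426173) (nat_lit 7) .nil))))) .nil)))))) (.nd (nat_lit 3) (.nd (nat_lit 4) (.nd (nat_lit 5) (.nd (nat_lit 6) 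
(.lf (nat_lit 118663) (.g (nat_lit 4318) (.e (nat_lit 6392) (nat_lit 339) (.e (nat_lit 57445) (nat_lit 19) (.e (nat_lit 393229) (nat_lit 9) (.e (nat_lit 336107) (nat_lit 9) .nil)))) .nil)) 
(.lf (nat_lit 118727) (.g (nat_lit 3509) (.e (nat_lit 6400) (nat_lit 339) (.e (nat_lit 57368) (nat_lit 1) (.e (nat_lit 57854) (nat_lit 252) (.e (nat_lit 57409) (nat_lit 12) (.e (nat_lit 336360) (nat_lit 25) (.e (nat_lit 409648) (nat_lit 18) (.e (nat_lit 303137) (nat_lit 10) (.e (nat_lit 434199) (nat_lit 18) .nil)))))))) (.g (nat_lit 7) .nil .nil)))) (.nd (nat_lit 6) 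
(.lf (nat_lit 118695) (.g (nat_lit 2163) (.e (nat_lit 6393) (nat_lit 339) (.e (nat_lit 57432) (nat_lit 16) (.e (nat_lit 368676) (nat_lit 21) (.e (nat_lit 516176) (nat_lit 14) (.e (nat_lit 466977) (nat_lit 22) (.e (nat_lit 196651) (nat_lit 10) (.e (nat_lit 8199) (nat_lit 0) .nil))))))) (.g (nat_lit 5) .nil .nil))) 
(.lf (nat_lit 118759) (.g (nat_lit 1552) (.e (nat_lit 6401) (nat_lit 339) (.e (nat_lit 57409) (nat_lit 12) (.e (nat_lit 336456) (nat_lit 34) (.e (nat_lit 483389) (nat_lit 23) .nil)))) .nil)))) (.nd (nat_lit 5) (.nd (nat_lit 6) 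
(.lf (nat_lit 118679) (.g (nat_lit 2772) (.e (nat_lit 6393) (nat_lit 339) (.e (nat_lit 57406) (nat_lit 12) (.e (nat_lit 336454) (nat_lit 34) (.e (nat_lit 483378) (nat_lit 23) .nil)))) .nil)) 
(.lf (nat_lit 118743) (.g (nat_lit 862) (.e (nat_lit 6400) (nat_lit 339) (.e (nat_lit 57411) (nat_lit 12) (.e (nat_lit 336211) (nat_lit 13) .nil))) .nil))) (.nd (nat_lit 6) 
(.lf (nat_lit 118711) (.g (nat_lit 4268) (.e (nat_lit 6396) (nat_lit 339) (.e (nat_lit 57445) (nat_lit 19) (.e (nat_lit 393229) (nat_lit 9) (.e (nat_lit 336184) (nat_lit 11) .nil)))) .nil)) 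
(.lf (nat_lit 118775) (.g (nat_lit 1999) (.e (nat_lit 6402) (nat_lit 339) (.e (nat_lit 57417) (nat_lit 12) (.e (nat_lit 336113) (nat_lit 9) (.e (nat_lit 336369) (nat_lit 27) (.e (nat_lit 426173) (nat_lit 7) (.e (nat_lit 409649) (nat_lit 18) (.e (nat_lit 303111) (nat_lit 0) (.e (nat_lit 2438) (nat_lit 157) .nil)))))))) (.g (nat_lit 4) .nil .nil)))))) 
(.nd (nat_lit 4) (.nd (nat_lit 5) (.nd (nat_lit 6) 
(.lf (nat_lit 118671) (.g (nat_lit 1547) (.e (nat_lit 6393) (nat_lit 339) (.e (nat_lit 57406) (nat_lit 12) (.e (nat_lit 336326) (nat_lit 18) (.e (nat_lit 204870) (nat_lit 29) .nil)))) .nil)) 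
(.lf (nat_lit 118735) (.g (nat_lit 947) (.e (nat_lit 6400) (nat_lit 339) (.e (nat_lit 57411) (nat_lit 12) (.e (nat_lit 336019) (nat_lit 3) .nil))) .nil))) (.nd (nat_lit 6) 
(.lf (nat_lit 118703) (.g (nat_lit 549) (.e (nat_lit 6393) (nat_lit 339) (.e (nat_lit 57445) (nat_lit 19) (.e (nat_lit 401152) (nat_lit 11) .nil))) .nil)) 
(.lf (nat_lit 118767) (.g (nat_lit 1589) (.e (nat_lit 6401) (nat_lit 339) (.e (nat_lit 57411) (nat_lit 12) (.e (nat_lit 336115) (nat_lit 9) (.e (nat_lit 336369) (nat_lit 27) (.e (nat_lit 426173) (nat_lit 7) (.e (nat_lit 409649) (nat_lit 18) (.e (nat_lit 303111) (nat_lit 0) (.e (nat_lit 2468) (nat_lit 157) .nil)))))))) (.g (nat_lit 4) .nil .nil))))) (.nd (nat_lit 5) (.nd (nat_lit 6) 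
(.lf (nat_lit 118687) (.g (nat_lit 1514) (.e (nat_lit 6393) (nat_lit 339) (.e (nat_lit 57407) (nat_lit 12) (.e (nat_lit 336367) (nat_lit 27) (.e (nat_lit 426542) (nat_lit 29) .nil)))) .nil)) 
(.lf (nat_lit 118751) (.g (nat_lit 1551) (.e (nat_lit 6401) (nat_lit 339) (.e (nat_lit 57368) (nat_lit 1) (.e (nat_lit 57851) (nat_lit 252) (.e (nat_lit 57406) (nat_lit 12) (.e (nat_lit 336360) (nat_lit 25) (.e (nat_lit 409648) (nat_lit 18) (.e (nat_lit 303137) (nat_lit 10) (.e (nat_lit 434199) (nat_lit 18) .nil)))))))) (.g (nat_lit 4) .nil .nil)))) (.nd (nat_lit 6) 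
(.lf (nat_lit 118719) (.g (nat_lit 2354) (.e (nat_lit 6398) (nat_lit 339) (.e (nat_lit 57379) (nat_lit 3) (.e (nat_lit 98342) (nat_lit 20) (.e (nat_lit 221215) (nat_lit 23) (.e (nat_lit 204861) (nat_lit 26) .nil))))) .nil)) 
(.lf (nat_lit 118783) (.g (nat_lit 870) (.e (nat_lit 6403) (nat_lit 339) (.e (nat_lit 57407) (nat_lit 12) (.e (nat_lit 336456) (nat_lit 34) .nil))) .nil)))))))))

noncomputable def tv1587 : DT := (.nd (nat_lit 0) (.nd (nat_lit 1) (.nd (nat_lit 2) (.nd (nat_lit 3) (.nd (nat_lit 4) (.nd (nat_lit 5) 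
(.lf (nat_lit 118784) (.g (nat_lit 949) (.e (nat_lit 6403) (nat_lit 339) (.e (nat_lit 57411) (nat_lit 12) (.e (nat_lit 336019) (nat_lit 3) .nil))) .nil)) 
(.lf (nat_lit 118816) (.g (nat_lit 2541) (.e (nat_lit 6416) (nat_lit 341) (.e (nat_lit 163902) (nat_lit 12) (.e (nat_lit 426131) (nat_lit 3) (.e (nat_lit 204855) (nat_lit 26) (.e (nat_lit 336176) (nat_lit 10) .nil))))) .nil))) (.nd (nat_lit 5) 
(.lf (nat_lit 118800) (.g (nat_lit 1022) (.e (nat_lit 6410) (nat_lit 340) (.e (nat_lit 122916) (nat_lit 14) (.e (nat_lit 352273) (nat_lit 11) (.e (nat_lit 426182) (nat_lit 8) .nil)))) .nil)) 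
(.lf (nat_lit 118832) (.g (nat_lit 2585) (.e (nat_lit 6416) (nat_lit 341) (.e (nat_lit 163902) (nat_lit 12) (.e (nat_lit 426428) (nat_lit 17) (.e (nat_lit 90185) (nat_lit 17) (.e (nat_lit 237625) (nat_lit 14) .nil))))) .nil)))) (.nd (nat_lit 4) (.nd (nat_lit 5) 
(.lf (nat_lit 118792) (.g (nat_lit 4332) (.e (nat_lit 6405) (nat_lit 339) (.e (nat_lit 57445) (nat_lit 19) (.e (nat_lit 393229) (nat_lit 9) (.e (nat_lit 336186) (nat_lit 11) .nil)))) .nil)) 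
(.lf (nat_lit 118824) (.g (nat_lit 5934) (.e (nat_lit 6416) (nat_lit 341) (.e (nat_lit 163902) (nat_lit 12) (.e (nat_lit 426131) (nat_lit 3) (.e (nat_lit 204869) (nat_lit 29) (.e (nat_lit 360475) (nat_lit 8) (.e (nat_lit 557091) (nat_lit 12) (.e (nat_lit 163843) (nat_lit 0) .nil))))))) (.g (nat_lit 5) .nil .nil)))) (.nd (nat_lit 5) 
(.lf (nat_lit 118808) (.g (nat_lit 421) (.e (nat_lit 6416) (nat_lit 341) (.e (nat_lit 163843) (nat_lit 0) (.e (nat_lit 3774) (nat_lit 229) .nil))) .nil)) 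
(.lf (nat_lit 118840) (.g (nat_lit 3032) (.e (nat_lit 6416) (nat_lit 341) (.e (nat_lit 163903) (nat_lit 12) (.e (nat_lit 426131) (nat_lit 3) (.e (nat_lit 204868) (nat_lit 29) (.e (nat_lit 360473) (nat_lit 8) (.e (nat_lit 557093) (nat_lit 12) (.e (nat_lit 163848) (nat_lit 0) .nil))))))) (.g (nat_lit 4) .nil .nil)))))) (.nd (nat_lit 3) (.nd (nat_lit 4) (.nd (nat_lit 5) 
(.lf (nat_lit 118788) (.g (nat_lit 4138) (.e (nat_lit 6403) (nat_lit 339) (.e (nat_lit 57445) (nat_lit 19) (.e (nat_lit 393229) (nat_lit 9) (.e (nat_lit 336186) (nat_lit 11) .nil)))) .nil)) 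
(.lf (nat_lit 118820) (.g (nat_lit 2548) (.e (nat_lit 6416) (nat_lit 341) (.e (nat_lit 163902) (nat_lit 12) (.e (nat_lit 426131) (nat_lit 3) (.e (nat_lit 204868) (nat_lit 29) (.e (nat_lit 360473) (nat_lit 8) (.e (nat_lit 557089) (nat_lit 12) (.e (nat_lit 163849) (nat_lit 0) .nil))))))) (.g (nat_lit 4) .nil .nil)))) (.nd (nat_lit 5) 
(.lf (nat_lit 118804) (.g (nat_lit 581) (.e (nat_lit 6410) (nat_lit 340) (.e (nat_lit 122919) (nat_lit 15) (.e (nat_lit 360484) (nat_lit 15) .nil))) .nil)) 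
(.lf (nat_lit 118836) (.g (nat_lit 3303) (.e (nat_lit 6416) (nat_lit 341) (.e (nat_lit 163903) (nat_lit 12) (.e (nat_lit 426131) (nat_lit 3) (.e (nat_lit 204868) (nat_lit 29) (.e (nat_lit 360473) (nat_lit 8) (.e (nat_lit 557089) (nat_lit 12) (.e (nat_lit 163849) (nat_lit 0) .nil))))))) (.g (nat_lit 5) .nil .nil))))) (.nd (nat_lit 4) (.nd (nat_lit 5) 
(.lf (nat_lit 118796) (.g (nat_lit 3854) (.e (nat_lit 7936) (nat_lit 339) (.e (nat_lit 57445) (nat_lit 19) (.e (nat_lit 393229) (nat_lit 9) (.e (nat_lit 336107) (nat_lit 9) .nil)))) .nil)) 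
(.lf (nat_lit 118828) (.g (nat_lit 2762) (.e (nat_lit 6416) (nat_lit 341) (.e (nat_lit 163902) (nat_lit 12) (.e (nat_lit 426428) (nat_lit 17) (.e (nat_lit 90170) (nat_lit 13) (.e (nat_lit 172125) (nat_lit 14) (.e (nat_lit 491584) (nat_lit 28) (.e (nat_lit 434208) (nat_lit 18) .nil))))))) (.g (nat_lit 4) .nil .nil)))) (.nd (nat_lit 5) 
(.lf (nat_lit 118812) (.g (nat_lit 695) (.e (nat_lit 6416) (nat_lit 341) (.e (nat_lit 163885) (nat_lit 5) (.e (nat_lit 221208) (nat_lit 21) .nil))) .nil)) 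
(.lf (nat_lit 118844) (.g (nat_lit 2736) (.e (nat_lit 6416) (nat_lit 341) (.e (nat_lit 163903) (nat_lit 12) (.e (nat_lit 426131) (nat_lit 3) (.e (nat_lit 204868) (nat_lit 29) (.e (nat_lit 360473) (nat_lit 8) (.e (nat_lit 557094) (nat_lit 12) (.e (nat_lit 163849) (nat_lit 0) .nil))))))) (.g (nat_lit 4) .nil .nil))))))) (.nd (nat_lit 2) (.nd (nat_lit 3) (.nd (nat_lit 4) (.nd (nat_lit 5) 
(.lf (nat_lit 118786) (.g (nat_lit 3854) (.e (nat_lit 6403) (nat_lit 339) (.e (nat_lit 57445) (nat_lit 19) (.e (nat_lit 393229) (nat_lit 9) (.e (nat_lit 336088) (nat_lit 9) .nil)))) .nil)) 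
(.lf (nat_lit 118818) (.g (nat_lit 2695) (.e (nat_lit 6416) (nat_lit 341) (.e (nat_lit 163902) (nat_lit 12) (.e (nat_lit 426131) (nat_lit 3) (.e (nat_lit 204868) (nat_lit 29) (.e (nat_lit 360473) (nat_lit 8) (.e (nat_lit 557089) (nat_lit 12) (.e (nat_lit 163844) (nat_lit 0) .nil))))))) (.g (nat_lit 4) .nil .nil)))) (.nd (nat_lit 5) 
(.lf (nat_lit 118802) (.g (nat_lit 2072) (.e (nat_lit 6410) (nat_lit 340) (.e (nat_lit 122919) (nat_lit 15) (.e (nat_lit 360451) (nat_lit 0) (.e (nat_lit 7125) (nat_lit 382) .nil)))) .nil)) 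
(.lf (nat_lit 118834) (.g (nat_lit 3564) (.e (nat_lit 6416) (nat_lit 341) (.e (nat_lit 163903) (nat_lit 12) (.e (nat_lit 426131) (nat_lit 3) (.e (nat_lit 204868) (nat_lit 29) (.e (nat_lit 360473) (nat_lit 8) (.e (nat_lit 557089) (nat_lit 12) (.e (nat_lit 163844) (nat_lit 0) .nil))))))) (.g (nat_lit 5) .nil .nil))))) (.nd (nat_lit 4) (.nd (nat_lit 5) 
(.lf (nat_lit 118794) (.g (nat_lit 1468) (.e (nat_lit 7936) (nat_lit 339) (.e (nat_lit 57406) (nat_lit 12) (.e (nat_lit 336456) (nat_lit 34) (.e (nat_lit 483394) (nat_lit 24) .nil)))) .nil)) 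
(.lf (nat_lit 118826) (.g (nat_lit 698) (.e (nat_lit 6416) (nat_lit 341) (.e (nat_lit 163902) (nat_lit 12) (.e (nat_lit 426229) (nat_lit 9) .nil))) .nil))) (.nd (nat_lit 5) 
(.lf (nat_lit 118810) (.g (nat_lit 269) (.e (nat_lit 6416) (nat_lit 341) (.e (nat_lit 163878) (nat_lit 4) (.e (nat_lit 213013) (nat_lit 9) .nil))) .nil)) 
(.lf (nat_lit 118842) (.g (nat_lit 2805) (.e (nat_lit 6416) (nat_lit 341) (.e (nat_lit 163903) (nat_lit 12) (.e (nat_lit 426131) (nat_lit 3) (.e (nat_lit 204868) (nat_lit 29) (.e (nat_lit 360473) (nat_lit 8) (.e (nat_lit 557094) (nat_lit 12) (.e (nat_lit 163847) (nat_lit 0) .nil))))))) (.g (nat_lit 4) .nil .nil)))))) (.nd (nat_lit 3) (.nd (nat_lit 4) (.nd (nat_lit 5) 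
(.lf (nat_lit 118790) (.g (nat_lit 3922) (.e (nat_lit 6405) (nat_lit 339) (.e (nat_lit 57445) (nat_lit 19) (.e (nat_lit 393229) (nat_lit 9) (.e (nat_lit 336088) (nat_lit 9) .nil)))) .nil)) 
(.lf (nat_lit 118822) (.g (nat_lit 2553) (.e (nat_lit 6416) (nat_lit 341) (.e (nat_lit 163902) (nat_lit 12) (.e (nat_lit 426131) (nat_lit 3) (.e (nat_lit 204868) (nat_lit 29) (.e (nat_lit 360473) (nat_lit 8) (.e (nat_lit 557091) (nat_lit 12) (.e (nat_lit 163847) (nat_lit 0) .nil))))))) (.g (nat_lit 4) .nil .nil)))) (.nd (nat_lit 5) 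
(.lf (nat_lit 118806) (.g (nat_lit 930) (.e (nat_lit 6412) (nat_lit 340) (.e (nat_lit 122919) (nat_lit 15) (.e (nat_lit 360451) (nat_lit 0) .nil))) .nil)) 
(.lf (nat_lit 118838) (.g (nat_lit 3324) (.e (nat_lit 6416) (nat_lit 341) (.e (nat_lit 163903) (nat_lit 12) (.e (nat_lit 426131) (nat_lit 3) (.e (nat_lit 204868) (nat_lit 29) (.e (nat_lit 360473) (nat_lit 8) (.e (nat_lit 557091) (nat_lit 12) (.e (nat_lit 163847) (nat_lit 0) .nil))))))) (.g (nat_lit 5) .nil .nil))))) (.nd (nat_lit 4) (.nd (nat_lit 5) 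
(.lf (nat_lit 118798) (.g (nat_lit 1159) (.e (nat_lit 6407) (nat_lit 340) (.e (nat_lit 122919) (nat_lit 15) (.e (nat_lit 360484) (nat_lit 15) (.e (nat_lit 647199) (nat_lit 11) .nil)))) .nil)) 
(.lf (nat_lit 118830) (.g (nat_lit 3180) (.e (nat_lit 6416) (nat_lit 341) (.e (nat_lit 163902) (nat_lit 12) (.e (nat_lit 426428) (nat_lit 17) (.e (nat_lit 90172) (nat_lit 14) (.e (nat_lit 180278) (nat_lit 32) (.e (nat_lit 444) (nat_lit 33) (.e (nat_lit 434207) (nat_lit 18) .nil))))))) (.g (nat_lit 5) .nil .nil)))) (.nd (nat_lit 5) 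
(.lf (nat_lit 118814) (.g (nat_lit 4825) (.e (nat_lit 6416) (nat_lit 341) (.e (nat_lit 163885) (nat_lit 5) (.e (nat_lit 221219) (nat_lit 24) (.e (nat_lit 213028) (nat_lit 10) (.e (nat_lit 8326) (nat_lit 69) (.e (nat_lit 557100) (nat_lit 13) (.e (nat_lit 172113) (nat_lit 10) (.e (nat_lit 434203) (nat_lit 18) .nil)))))))) (.g (nat_lit 8) .nil .nil))) 
(.lf (nat_lit 118846) (.g (nat_lit 1721) (.e (nat_lit 6416) (nat_lit 341) (.e (nat_lit 163903) (nat_lit 12) (.e (nat_lit 426131) (nat_lit 3) (.e (nat_lit 204869) (nat_lit 29) .nil)))) .nil))))))) (.nd (nat_lit 1) (.nd (nat_lit 2) (.nd (nat_lit 3) (.nd (nat_lit 4) (.nd (nat_lit 5) 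
(.lf (nat_lit 118785) (.g (nat_lit 3996) (.e (nat_lit 6403) (nat_lit 339) (.e (nat_lit 57445) (nat_lit 19) (.e (nat_lit 393229) (nat_lit 9) (.e (nat_lit 336087) (nat_lit 9) .nil)))) .nil)) 
(.lf (nat_lit 118817) (.g (nat_lit 2173) (.e (nat_lit 6416) (nat_lit 341) (.e (nat_lit 163902) (nat_lit 12) (.e (nat_lit 426131) (nat_lit 3) (.e (nat_lit 204868) (nat_lit 29) (.e (nat_lit 360473) (nat_lit 8) .nil))))) .nil))) (.nd (nat_lit 5) 
(.lf (nat_lit 118801) (.g (nat_lit 555) (.e (nat_lit 6410) (nat_lit 340) (.e (nat_lit 122919) (nat_lit 15) (.e (nat_lit 360451) (nat_lit 0) .nil))) .nil)) 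
(.lf (nat_lit 118833) (.g (nat_lit 2908) (.e (nat_lit 6416) (nat_lit 341) (.e (nat_lit 163903) (nat_lit 12) (.e (nat_lit 426131) (nat_lit 3) (.e (nat_lit 204868) (nat_lit 29) (.e (nat_lit 360473) (nat_lit 8) (.e (nat_lit 557089) (nat_lit 12) (.e (nat_lit 163843) (nat_lit 0) .nil))))))) (.g (nat_lit 4) .nil .nil))))) (.nd (nat_lit 4) (.nd (nat_lit 5) 
(.lf (nat_lit 118793) (.g (nat_lit 926) (.e (nat_lit 7936) (nat_lit 339) (.e (nat_lit 57406) (nat_lit 12) (.e (nat_lit 336367) (nat_lit 27) (.e (nat_lit 426542) (nat_lit 29) .nil)))) .nil)) 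
(.lf (nat_lit 118825) (.g (nat_lit 698) (.e (nat_lit 6416) (nat_lit 341) (.e (nat_lit 163902) (nat_lit 12) (.e (nat_lit 426226) (nat_lit 9) .nil))) .nil))) (.nd (nat_lit 5) 
(.lf (nat_lit 118809) (.g (nat_lit 822) (.e (nat_lit 6416) (nat_lit 341) (.e (nat_lit 163860) (nat_lit 1) (.e (nat_lit 164227) (nat_lit 181) (.e (nat_lit 2619) (nat_lit 164) (.e (nat_lit 179968) (nat_lit 18) .nil))))) .nil)) 
(.lf (nat_lit 118841) (.g (nat_lit 3097) (.e (nat_lit 6416) (nat_lit 341) (.e (nat_lit 163903) (nat_lit 12) (.e (nat_lit 426131) (nat_lit 3) (.e (nat_lit 204868) (nat_lit 29) (.e (nat_lit 360473) (nat_lit 8) (.e (nat_lit 557093) (nat_lit 12) (.e (nat_lit 163849) (nat_lit 0) .nil))))))) (.g (nat_lit 4) .nil .nil)))))) (.nd (nat_lit 3) (.nd (nat_lit 4) (.nd (nat_lit 5) 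
(.lf (nat_lit 118789) (.g (nat_lit 692) (.e (nat_lit 6404) (nat_lit 339) (.e (nat_lit 57445) (nat_lit 19) (.e (nat_lit 393229) (nat_lit 9) .nil))) .nil)) 
(.lf (nat_lit 118821) (.g (nat_lit 2361) (.e (nat_lit 6416) (nat_lit 341) (.e (nat_lit 163902) (nat_lit 12) (.e (nat_lit 426131) (nat_lit 3) (.e (nat_lit 204868) (nat_lit 29) (.e (nat_lit 360473) (nat_lit 8) (.e (nat_lit 557091) (nat_lit 12) (.e (nat_lit 163844) (nat_lit 0) .nil))))))) (.g (nat_lit 4) .nil .nil)))) (.nd (nat_lit 5) 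
(.lf (nat_lit 118805) (.g (nat_lit 2714) (.e (nat_lit 6410) (nat_lit 340) (.e (nat_lit 122919) (nat_lit 15) (.e (nat_lit 360491) (nat_lit 22) (.e (nat_lit 778466) (nat_lit 11) (.e (nat_lit 24617) (nat_lit 7) (.e (nat_lit 319505) (nat_lit 10) (.e (nat_lit 7936) (nat_lit 0) .nil))))))) (.g (nat_lit 6) .nil .nil))) 
(.lf (nat_lit 118837) (.g (nat_lit 3937) (.e (nat_lit 6416) (nat_lit 341) (.e (nat_lit 163903) (nat_lit 12) (.e (nat_lit 426131) (nat_lit 3) (.e (nat_lit 204868) (nat_lit 29) (.e (nat_lit 360473) (nat_lit 8) (.e (nat_lit 557091) (nat_lit 12) (.e (nat_lit 163843) (nat_lit 0) .nil))))))) (.g (nat_lit 5) .nil .nil))))) (.nd (nat_lit 4) (.nd (nat_lit 5) 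
(.lf (nat_lit 118797) (.g (nat_lit 2765) (.e (nat_lit 6407) (nat_lit 340) (.e (nat_lit 122919) (nat_lit 15) (.e (nat_lit 360480) (nat_lit 14) (.e (nat_lit 638998) (nat_lit 8) (.e (nat_lit 172120) (nat_lit 12) (.e (nat_lit 475163) (nat_lit 21) .nil)))))) (.g (nat_lit 5) .nil .nil))) 
(.lf (nat_lit 118829) (.g (nat_lit 2081) (.e (nat_lit 6416) (nat_lit 341) (.e (nat_lit 163902) (nat_lit 12) (.e (nat_lit 426428) (nat_lit 17) (.e (nat_lit 90172) (nat_lit 14) (.e (nat_lit 180276) (nat_lit 32) .nil))))) .nil))) (.nd (nat_lit 5) 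
(.lf (nat_lit 118813) (.g (nat_lit 435) (.e (nat_lit 6416) (nat_lit 341) (.e (nat_lit 163885) (nat_lit 5) (.e (nat_lit 221219) (nat_lit 24) .nil))) .nil)) 
(.lf (nat_lit 118845) (.g (nat_lit 5072) (.e (nat_lit 6416) (nat_lit 341) (.e (nat_lit 163903) (nat_lit 12) (.e (nat_lit 426131) (nat_lit 3) (.e (nat_lit 204868) (nat_lit 29) (.e (nat_lit 360475) (nat_lit 8) (.e (nat_lit 557091) (nat_lit 12) (.e (nat_lit 163843) (nat_lit 0) .nil))))))) (.g (nat_lit 5) .nil .nil))))))) (.nd (nat_lit 2) (.nd (nat_lit 3) (.nd (nat_lit 4) (.nd (nat_lit 5) 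
(.lf (nat_lit 118787) (.g (nat_lit 4068) (.e (nat_lit 6403) (nat_lit 339) (.e (nat_lit 57445) (nat_lit 19) (.e (nat_lit 393229) (nat_lit 9) (.e (nat_lit 336184) (nat_lit 11) .nil)))) .nil)) 
(.lf (nat_lit 118819) (.g (nat_lit 2424) (.e (nat_lit 6416) (nat_lit 341) (.e (nat_lit 163902) (nat_lit 12) (.e (nat_lit 426131) (nat_lit 3) (.e (nat_lit 204868) (nat_lit 29) (.e (nat_lit 360473) (nat_lit 8) (.e (nat_lit 557089) (nat_lit 12) (.e (nat_lit 163848) (nat_lit 0) .nil))))))) (.g (nat_lit 4) .nil .nil)))) (.nd (nat_lit 5) 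
(.lf (nat_lit 118803) (.g (nat_lit 1825) (.e (nat_lit 6410) (nat_lit 340) (.e (nat_lit 122919) (nat_lit 15) (.e (nat_lit 360451) (nat_lit 0) (.e (nat_lit 7247) (nat_lit 383) .nil)))) .nil)) 
(.lf (nat_lit 118835) (.g (nat_lit 3197) (.e (nat_lit 6416) (nat_lit 341) (.e (nat_lit 163903) (nat_lit 12) (.e (nat_lit 426131) (nat_lit 3) (.e (nat_lit 204868) (nat_lit 29) (.e (nat_lit 360473) (nat_lit 8) (.e (nat_lit 557089) (nat_lit 12) (.e (nat_lit 163848) (nat_lit 0) .nil))))))) (.g (nat_lit 5) .nil .nil))))) (.nd (nat_lit 4) (.nd (nat_lit 5) 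
(.lf (nat_lit 118795) (.g (nat_lit 1107) (.e (nat_lit 7936) (nat_lit 339) (.e (nat_lit 57407) (nat_lit 12) (.e (nat_lit 336367) (nat_lit 27) (.e (nat_lit 426542) (nat_lit 29) .nil)))) .nil)) 
(.lf (nat_lit 118827) (.g (nat_lit 2687) (.e (nat_lit 6416) (nat_lit 341) (.e (nat_lit 163902) (nat_lit 12) (.e (nat_lit 426428) (nat_lit 17) (.e (nat_lit 90170) (nat_lit 13) (.e (nat_lit 172124) (nat_lit 14) (.e (nat_lit 491584) (nat_lit 28) (.e (nat_lit 434208) (nat_lit 18) .nil))))))) (.g (nat_lit 4) .nil .nil)))) (.nd (nat_lit 5) 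
(.lf (nat_lit 118811) (.g (nat_lit 498) (.e (nat_lit 6416) (nat_lit 341) (.e (nat_lit 163885) (nat_lit 5) (.e (nat_lit 221198) (nat_lit 20) .nil))) .nil)) 
(.lf (nat_lit 118843) (.g (nat_lit 2588) (.e (nat_lit 6416) (nat_lit 341) (.e (nat_lit 163903) (nat_lit 12) (.e (nat_lit 426131) (nat_lit 3) (.e (nat_lit 204868) (nat_lit 29) (.e (nat_lit 360473) (nat_lit 8) (.e (nat_lit 557094) (nat_lit 12) (.e (nat_lit 163848) (nat_lit 0) .nil))))))) (.g (nat_lit 4) .nil .nil)))))) (.nd (nat_lit 3) (.nd (nat_lit 4) (.nd (nat_lit 5) 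
(.lf (nat_lit 118791) (.g (nat_lit 4321) (.e (nat_lit 6405) (nat_lit 339) (.e (nat_lit 57445) (nat_lit 19) (.e (nat_lit 393229) (nat_lit 9) (.e (nat_lit 336184) (nat_lit 11) .nil)))) .nil)) 
(.lf (nat_lit 118823) (.g (nat_lit 2343) (.e (nat_lit 6416) (nat_lit 341) (.e (nat_lit 163902) (nat_lit 12) (.e (nat_lit 426131) (nat_lit 3) (.e (nat_lit 204868) (nat_lit 29) (.e (nat_lit 360473) (nat_lit 8) (.e (nat_lit 557093) (nat_lit 12) (.e (nat_lit 163849) (nat_lit 0) .nil))))))) (.g (nat_lit 4) .nil .nil)))) (.nd (nat_lit 5) 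
(.lf (nat_lit 118807) (.g (nat_lit 1021) (.e (nat_lit 6416) (nat_lit 341) (.e (nat_lit 163843) (nat_lit 0) (.e (nat_lit 3605) (nat_lit 225) (.e (nat_lit 761905) (nat_lit 16) .nil)))) .nil)) 
(.lf (nat_lit 118839) (.g (nat_lit 2632) (.e (nat_lit 6416) (nat_lit 341) (.e (nat_lit 163903) (nat_lit 12) (.e (nat_lit 426131) (nat_lit 3) (.e (nat_lit 204868) (nat_lit 29) (.e (nat_lit 360473) (nat_lit 8) (.e (nat_lit 557091) (nat_lit 12) (.e (nat_lit 163849) (nat_lit 0) .nil))))))) (.g (nat_lit 4) .nil .nil))))) (.nd (nat_lit 4) (.nd (nat_lit 5) 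
(.lf (nat_lit 118799) (.g (nat_lit 2469) (.e (nat_lit 6410) (nat_lit 340) (.e (nat_lit 122911) (nat_lit 13) (.e (nat_lit 344129) (nat_lit 26) (.e (nat_lit 557097) (nat_lit 13) (.e (nat_lit 172133) (nat_lit 15) .nil))))) .nil)) 
(.lf (nat_lit 118831) (.g (nat_lit 1858) (.e (nat_lit 6416) (nat_lit 341) (.e (nat_lit 163902) (nat_lit 12) (.e (nat_lit 426428) (nat_lit 17) (.e (nat_lit 90174) (nat_lit 14) (.e (nat_lit 180275) (nat_lit 32) .nil))))) .nil))) (.nd (nat_lit 5) 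
(.lf (nat_lit 118815) (.g (nat_lit 1549) (.e (nat_lit 6416) (nat_lit 341) (.e (nat_lit 163902) (nat_lit 12) (.e (nat_lit 426130) (nat_lit 3) (.e (nat_lit 204868) (nat_lit 29) (.e (nat_lit 360473) (nat_lit 8) .nil))))) .nil)) 
(.lf (nat_lit 118847) (.g (nat_lit 6510) (.e (nat_lit 6416) (nat_lit 341) (.e (nat_lit 163903) (nat_lit 12) (.e (nat_lit 426131) (nat_lit 3) (.e (nat_lit 204869) (nat_lit 29) (.e (nat_lit 360475) (nat_lit 8) (.e (nat_lit 557089) (nat_lit 12) (.e (nat_lit 163844) (nat_lit 0) .nil))))))) (.g (nat_lit 5) .nil .nil)))))))))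

noncomputable def tv1588 : DT := (.nd (nat_lit 0) (.nd (nat_lit 1) (.nd (nat_lit 2) (.nd (nat_lit 3) (.nd (nat_lit 4) (.nd (nat_lit 5) 
(.lf (nat_lit 118848) (.g (nat_lit 6152) (.e (nat_lit 6416) (nat_lit 341) (.e (nat_lit 163903) (nat_lit 12) (.e (nat_lit 426131) (nat_lit 3) (.e (nat_lit 204869) (nat_lit 29) (.e (nat_lit 360475) (nat_lit 8) (.e (nat_lit 557089) (nat_lit 12) (.e (nat_lit 163848) (nat_lit 0) .nil))))))) (.g (nat_lit 5) .nil .nil))) 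
(.lf (nat_lit 118880) (.g (nat_lit 5974) (.e (nat_lit 6416) (nat_lit 341) (.e (nat_lit 163928) (nat_lit 16) (.e (nat_lit 458789) (nat_lit 23) (.e (nat_lit 532550) (nat_lit 12) (.e (nat_lit 360475) (nat_lit 8) (.e (nat_lit 557089) (nat_lit 12) (.e (nat_lit 163849) (nat_lit 0) .nil))))))) (.g (nat_lit 7) .nil .nil)))) (.nd (nat_lit 5) 
(.lf (nat_lit 118864) (.g (nat_lit 4693) (.e (nat_lit 6416) (nat_lit 341) (.e (nat_lit 163908) (nat_lit 12) (.e (nat_lit 426134) (nat_lit 3) (.e (nat_lit 204869) (nat_lit 29) (.e (nat_lit 360475) (nat_lit 8) (.e (nat_lit 557089) (nat_lit 12) (.e (nat_lit 163849) (nat_lit 0) .nil))))))) (.g (nat_lit 6) .nil .nil))) 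
(.lf (nat_lit 118896) (.g (nat_lit 4198) (.e (nat_lit 6418) (nat_lit 341) (.e (nat_lit 163908) (nat_lit 12) (.e (nat_lit 426113) (nat_lit 2) (.e (nat_lit 196666) (nat_lit 13) (.e (nat_lit 65617) (nat_lit 10) (.e (nat_lit 344133) (nat_lit 26) (.e (nat_lit 557091) (nat_lit 12) (.e (nat_lit 163847) (nat_lit 0) .nil)))))))) (.g (nat_lit 0) .nil .nil))))) (.nd (nat_lit 4) (.nd (nat_lit 5) 
(.lf (nat_lit 118856) (.g (nat_lit 4764) (.e (nat_lit 6416) (nat_lit 341) (.e (nat_lit 163908) (nat_lit 12) (.e (nat_lit 426113) (nat_lit 2) (.e (nat_lit 196666) (nat_lit 13) (.e (nat_lit 65617) (nat_lit 10) (.e (nat_lit 344130) (nat_lit 26) (.e (nat_lit 557090) (nat_lit 12) (.e (nat_lit 163843) (nat_lit 0) .nil)))))))) (.g (nat_lit 0) .nil .nil))) 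
(.lf (nat_lit 118888) (.g (nat_lit 3583) (.e (nat_lit 6418) (nat_lit 341) (.e (nat_lit 163908) (nat_lit 12) (.e (nat_lit 426113) (nat_lit 2) (.e (nat_lit 196666) (nat_lit 13) (.e (nat_lit 65610) (nat_lit 10) (.e (nat_lit 344129) (nat_lit 26) (.e (nat_lit 557090) (nat_lit 12) (.e (nat_lit 163840) (nat_lit 0) .nil)))))))) (.g (nat_lit 7) .nil .nil)))) (.nd (nat_lit 5) 
(.lf (nat_lit 118872) (.g (nat_lit 5528) (.e (nat_lit 6416) (nat_lit 341) (.e (nat_lit 163927) (nat_lit 16) (.e (nat_lit 458789) (nat_lit 23) (.e (nat_lit 532550) (nat_lit 12) (.e (nat_lit 360475) (nat_lit 8) (.e (nat_lit 557089) (nat_lit 12) (.e (nat_lit 163849) (nat_lit 0) .nil))))))) (.g (nat_lit 6) .nil .nil))) 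
(.lf (nat_lit 118904) (.g (nat_lit 431) (.e (nat_lit 6420) (nat_lit 341) (.e (nat_lit 163885) (nat_lit 5) (.e (nat_lit 221219) (nat_lit 24) .nil))) .nil))))) (.nd (nat_lit 3) (.nd (nat_lit 4) (.nd (nat_lit 5) 
(.lf (nat_lit 118852) (.g (nat_lit 6058) (.e (nat_lit 6416) (nat_lit 341) (.e (nat_lit 163903) (nat_lit 12) (.e (nat_lit 426131) (nat_lit 3) (.e (nat_lit 204869) (nat_lit 29) (.e (nat_lit 360475) (nat_lit 8) (.e (nat_lit 557091) (nat_lit 12) (.e (nat_lit 163847) (nat_lit 0) .nil))))))) (.g (nat_lit 5) .nil .nil))) 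
(.lf (nat_lit 118884) (.g (nat_lit 401) (.e (nat_lit 6418) (nat_lit 341) (.e (nat_lit 163896) (nat_lit 10) (.e (nat_lit 409628) (nat_lit 11) .nil))) .nil))) (.nd (nat_lit 5) 
(.lf (nat_lit 118868) (.g (nat_lit 5817) (.e (nat_lit 6416) (nat_lit 341) (.e (nat_lit 163926) (nat_lit 16) (.e (nat_lit 458789) (nat_lit 23) (.e (nat_lit 532550) (nat_lit 12) (.e (nat_lit 360475) (nat_lit 8) (.e (nat_lit 557089) (nat_lit 12) (.e (nat_lit 163844) (nat_lit 0) .nil))))))) (.g (nat_lit 6) .nil .nil))) 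
(.lf (nat_lit 118900) (.g (nat_lit 2348) (.e (nat_lit 6420) (nat_lit 341) (.e (nat_lit 163843) (nat_lit 0) (.e (nat_lit 3605) (nat_lit 225) (.e (nat_lit 761905) (nat_lit 16) (.e (nat_lit 179968) (nat_lit 18) (.e (nat_lit 98359) (nat_lit 26) (.e (nat_lit 426286) (nat_lit 10) (.e (nat_lit 434203) (nat_lit 18) .nil)))))))) (.g (nat_lit 4) .nil .nil))))) (.nd (nat_lit 4) (.nd (nat_lit 5) 
(.lf (nat_lit 118860) (.g (nat_lit 4863) (.e (nat_lit 6416) (nat_lit 341) (.e (nat_lit 163908) (nat_lit 12) (.e (nat_lit 426113) (nat_lit 2) (.e (nat_lit 196666) (nat_lit 13) (.e (nat_lit 65617) (nat_lit 10) (.e (nat_lit 344133) (nat_lit 26) (.e (nat_lit 557091) (nat_lit 12) (.e (nat_lit 163843) (nat_lit 0) .nil)))))))) (.g (nat_lit 0) .nil .nil))) 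
(.lf (nat_lit 118892) (.g (nat_lit 3900) (.e (nat_lit 6418) (nat_lit 341) (.e (nat_lit 163908) (nat_lit 12) (.e (nat_lit 426113) (nat_lit 2) (.e (nat_lit 196666) (nat_lit 13) (.e (nat_lit 65617) (nat_lit 10) (.e (nat_lit 344132) (nat_lit 26) (.e (nat_lit 557093) (nat_lit 12) (.e (nat_lit 163848) (nat_lit 0) .nil)))))))) (.g (nat_lit 0) .nil .nil)))) (.nd (nat_lit 5) 
(.lf (nat_lit 118876) (.g (nat_lit 5100) (.e (nat_lit 6416) (nat_lit 341) (.e (nat_lit 163928) (nat_lit 16) (.e (nat_lit 458789) (nat_lit 23) (.e (nat_lit 532550) (nat_lit 12) (.e (nat_lit 360474) (nat_lit 8) (.e (nat_lit 557094) (nat_lit 12) (.e (nat_lit 163847) (nat_lit 0) .nil))))))) (.g (nat_lit 6) .nil .nil))) 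
(.lf (nat_lit 118908) (.g (nat_lit 812) (.e (nat_lit 6420) (nat_lit 341) (.e (nat_lit 163885) (nat_lit 5) (.e (nat_lit 221219) (nat_lit 24) (.e (nat_lit 213029) (nat_lit 10) .nil)))) .nil)))))) (.nd (nat_lit 2) (.nd (nat_lit 3) (.nd (nat_lit 4) (.nd (nat_lit 5) 
(.lf (nat_lit 118850) (.g (nat_lit 7040) (.e (nat_lit 6416) (nat_lit 341) (.e (nat_lit 163903) (nat_lit 12) (.e (nat_lit 426131) (nat_lit 3) (.e (nat_lit 204869) (nat_lit 29) (.e (nat_lit 360475) (nat_lit 8) (.e (nat_lit 557091) (nat_lit 12) (.e (nat_lit 163843) (nat_lit 0) .nil))))))) (.g (nat_lit 6) .nil .nil))) 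
(.lf (nat_lit 118882) (.g (nat_lit 6114) (.e (nat_lit 6416) (nat_lit 341) (.e (nat_lit 163928) (nat_lit 16) (.e (nat_lit 458789) (nat_lit 23) (.e (nat_lit 532550) (nat_lit 12) (.e (nat_lit 360475) (nat_lit 8) (.e (nat_lit 557091) (nat_lit 12) (.e (nat_lit 163844) (nat_lit 0) .nil))))))) (.g (nat_lit 6) .nil .nil)))) (.nd (nat_lit 5) 
(.lf (nat_lit 118866) (.g (nat_lit 1130) (.e (nat_lit 6416) (nat_lit 341) (.e (nat_lit 163908) (nat_lit 12) (.e (nat_lit 426195) (nat_lit 9) (.e (nat_lit 426550) (nat_lit 31) (.e (nat_lit 376576) (nat_lit 5) (.e (nat_lit 180226) (nat_lit 0) .nil)))))) (.g (nat_lit 4) .nil .nil))) 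
(.lf (nat_lit 118898) (.g (nat_lit 1061) (.e (nat_lit 6418) (nat_lit 341) (.e (nat_lit 163908) (nat_lit 12) (.e (nat_lit 426211) (nat_lit 9) (.e (nat_lit 433920) (nat_lit 31) .nil)))) .nil)))) (.nd (nat_lit 4) (.nd (nat_lit 5) 
(.lf (nat_lit 118858) (.g (nat_lit 3533) (.e (nat_lit 6416) (nat_lit 341) (.e (nat_lit 163908) (nat_lit 12) (.e (nat_lit 426113) (nat_lit 2) (.e (nat_lit 196666) (nat_lit 13) (.e (nat_lit 65617) (nat_lit 10) (.e (nat_lit 344132) (nat_lit 26) (.e (nat_lit 557094) (nat_lit 12) (.e (nat_lit 163849) (nat_lit 0) .nil)))))))) (.g (nat_lit 7) .nil .nil))) 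
(.lf (nat_lit 118890) (.g (nat_lit 3689) (.e (nat_lit 6418) (nat_lit 341) (.e (nat_lit 163908) (nat_lit 12) (.e (nat_lit 426113) (nat_lit 2) (.e (nat_lit 196666) (nat_lit 13) (.e (nat_lit 65617) (nat_lit 10) (.e (nat_lit 344130) (nat_lit 26) (.e (nat_lit 557089) (nat_lit 12) (.e (nat_lit 163848) (nat_lit 0) .nil)))))))) (.g (nat_lit 0) .nil .nil)))) (.nd (nat_lit 5) 
(.lf (nat_lit 118874) (.g (nat_lit 4856) (.e (nat_lit 6416) (nat_lit 341) (.e (nat_lit 163928) (nat_lit 16) (.e (nat_lit 458789) (nat_lit 23) (.e (nat_lit 532550) (nat_lit 12) (.e (nat_lit 360474) (nat_lit 8) (.e (nat_lit 557093) (nat_lit 12) (.e (nat_lit 163848) (nat_lit 0) .nil))))))) (.g (nat_lit 5) .nil .nil))) 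
(.lf (nat_lit 118906) (.g (nat_lit 4934) (.e (nat_lit 6420) (nat_lit 341) (.e (nat_lit 163885) (nat_lit 5) (.e (nat_lit 221219) (nat_lit 24) (.e (nat_lit 213028) (nat_lit 10) (.e (nat_lit 8326) (nat_lit 69) (.e (nat_lit 557100) (nat_lit 13) (.e (nat_lit 172113) (nat_lit 10) (.e (nat_lit 434203) (nat_lit 18) .nil)))))))) (.g (nat_lit 8) .nil .nil)))))) 
(.nd (nat_lit 3) (.nd (nat_lit 4) (.nd (nat_lit 5) 
(.lf (nat_lit 118854) (.g (nat_lit 4441) (.e (nat_lit 6416) (nat_lit 341) (.e (nat_lit 163908) (nat_lit 12) (.e (nat_lit 426113) (nat_lit 2) (.e (nat_lit 196666) (nat_lit 13) (.e (nat_lit 65610) (nat_lit 10) (.e (nat_lit 344129) (nat_lit 26) (.e (nat_lit 557089) (nat_lit 12) (.e (nat_lit 163844) (nat_lit 0) .nil)))))))) (.g (nat_lit 0) .nil .nil))) 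
(.lf (nat_lit 118886) (.g (nat_lit 4248) (.e (nat_lit 6418) (nat_lit 341) (.e (nat_lit 163908) (nat_lit 12) (.e (nat_lit 426113) (nat_lit 2) (.e (nat_lit 196666) (nat_lit 13) (.e (nat_lit 65610) (nat_lit 10) (.e (nat_lit 344129) (nat_lit 26) (.e (nat_lit 557089) (nat_lit 12) (.e (nat_lit 163844) (nat_lit 0) .nil)))))))) (.g (nat_lit 8) .nil .nil)))) (.nd (nat_lit 5) 
(.lf (nat_lit 118870) (.g (nat_lit 5559) (.e (nat_lit 6416) (nat_lit 341) (.e (nat_lit 163926) (nat_lit 16) (.e (nat_lit 458789) (nat_lit 23) (.e (nat_lit 532550) (nat_lit 12) (.e (nat_lit 360475) (nat_lit 8) (.e (nat_lit 557091) (nat_lit 12) (.e (nat_lit 163847) (nat_lit 0) .nil))))))) (.g (nat_lit 6) .nil .nil))) 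
(.lf (nat_lit 118902) (.g (nat_lit 445) (.e (nat_lit 6420) (nat_lit 341) (.e (nat_lit 163843) (nat_lit 0) (.e (nat_lit 3774) (nat_lit 229) .nil))) .nil)))) (.nd (nat_lit 4) (.nd (nat_lit 5) 
(.lf (nat_lit 118862) (.g (nat_lit 3735) (.e (nat_lit 6416) (nat_lit 341) (.e (nat_lit 163908) (nat_lit 12) (.e (nat_lit 426113) (nat_lit 2) (.e (nat_lit 196666) (nat_lit 13) (.e (nat_lit 65617) (nat_lit 10) (.e (nat_lit 344133) (nat_lit 26) (.e (nat_lit 557091) (nat_lit 12) (.e (nat_lit 163849) (nat_lit 0) .nil)))))))) (.g (nat_lit 7) .nil .nil))) 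
(.lf (nat_lit 118894) (.g (nat_lit 3849) (.e (nat_lit 6418) (nat_lit 341) (.e (nat_lit 163908) (nat_lit 12) (.e (nat_lit 426113) (nat_lit 2) (.e (nat_lit 196666) (nat_lit 13) (.e (nat_lit 65617) (nat_lit 10) (.e (nat_lit 344133) (nat_lit 26) (.e (nat_lit 557089) (nat_lit 12) (.e (nat_lit 163844) (nat_lit 0) .nil)))))))) (.g (nat_lit 8) .nil .nil)))) (.nd (nat_lit 5) 
(.lf (nat_lit 118878) (.g (nat_lit 6164) (.e (nat_lit 6416) (nat_lit 341) (.e (nat_lit 163928) (nat_lit 16) (.e (nat_lit 458789) (nat_lit 23) (.e (nat_lit 532550) (nat_lit 12) (.e (nat_lit 360475) (nat_lit 8) (.e (nat_lit 557089) (nat_lit 12) (.e (nat_lit 163844) (nat_lit 0) .nil))))))) (.g (nat_lit 7) .nil .nil))) 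
(.lf (nat_lit 118910) (.g (nat_lit 2353) (.e (nat_lit 6420) (nat_lit 341) (.e (nat_lit 163902) (nat_lit 12) (.e (nat_lit 426127) (nat_lit 2) (.e (nat_lit 196666) (nat_lit 13) (.e (nat_lit 65617) (nat_lit 10) .nil))))) .nil))))))) (.nd (nat_lit 1) (.nd (nat_lit 2) (.nd (nat_lit 3) (.nd (nat_lit 4) (.nd (nat_lit 5) 
(.lf (nat_lit 118849) (.g (nat_lit 6246) (.e (nat_lit 6416) (nat_lit 341) (.e (nat_lit 163903) (nat_lit 12) (.e (nat_lit 426131) (nat_lit 3) (.e (nat_lit 204869) (nat_lit 29) (.e (nat_lit 360475) (nat_lit 8) (.e (nat_lit 557089) (nat_lit 12) (.e (nat_lit 163849) (nat_lit 0) .nil))))))) (.g (nat_lit 5) .nil .nil))) 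
(.lf (nat_lit 118881) (.g (nat_lit 6705) (.e (nat_lit 6416) (nat_lit 341) (.e (nat_lit 163928) (nat_lit 16) (.e (nat_lit 458789) (nat_lit 23) (.e (nat_lit 532550) (nat_lit 12) (.e (nat_lit 360475) (nat_lit 8) (.e (nat_lit 557091) (nat_lit 12) (.e (nat_lit 163843) (nat_lit 0) .nil))))))) (.g (nat_lit 7) .nil .nil)))) (.nd (nat_lit 5) 
(.lf (nat_lit 118865) (.g (nat_lit 478) (.e (nat_lit 6416) (nat_lit 341) (.e (nat_lit 163908) (nat_lit 12) (.e (nat_lit 426195) (nat_lit 9) .nil))) .nil)) 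
(.lf (nat_lit 118897) (.g (nat_lit 457) (.e (nat_lit 6418) (nat_lit 341) (.e (nat_lit 163908) (nat_lit 12) (.e (nat_lit 426194) (nat_lit 9) .nil))) .nil)))) (.nd (nat_lit 4) (.nd (nat_lit 5) 
(.lf (nat_lit 118857) (.g (nat_lit 3979) (.e (nat_lit 6416) (nat_lit 341) (.e (nat_lit 163908) (nat_lit 12) (.e (nat_lit 426113) (nat_lit 2) (.e (nat_lit 196666) (nat_lit 13) (.e (nat_lit 65617) (nat_lit 10) (.e (nat_lit 344132) (nat_lit 26) (.e (nat_lit 557093) (nat_lit 12) (.e (nat_lit 163849) (nat_lit 0) .nil)))))))) (.g (nat_lit 0) .nil .nil))) 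
(.lf (nat_lit 118889) (.g (nat_lit 3711) (.e (nat_lit 6418) (nat_lit 341) (.e (nat_lit 163908) (nat_lit 12) (.e (nat_lit 426113) (nat_lit 2) (.e (nat_lit 196666) (nat_lit 13) (.e (nat_lit 65617) (nat_lit 10) (.e (nat_lit 344130) (nat_lit 26) (.e (nat_lit 557089) (nat_lit 12) (.e (nat_lit 163844) (nat_lit 0) .nil)))))))) (.g (nat_lit 8) .nil .nil)))) (.nd (nat_lit 5) 
(.lf (nat_lit 118873) (.g (nat_lit 5472) (.e (nat_lit 6416) (nat_lit 341) (.e (nat_lit 163927) (nat_lit 16) (.e (nat_lit 458789) (nat_lit 23) (.e (nat_lit 532550) (nat_lit 12) (.e (nat_lit 360475) (nat_lit 8) (.e (nat_lit 557091) (nat_lit 12) (.e (nat_lit 163847) (nat_lit 0) .nil))))))) (.g (nat_lit 6) .nil .nil))) 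
(.lf (nat_lit 118905) (.g (nat_lit 3802) (.e (nat_lit 6420) (nat_lit 341) (.e (nat_lit 163885) (nat_lit 5) (.e (nat_lit 221219) (nat_lit 24) (.e (nat_lit 213028) (nat_lit 10) (.e (nat_lit 8326) (nat_lit 69) (.e (nat_lit 557100) (nat_lit 13) (.e (nat_lit 172106) (nat_lit 10) (.e (nat_lit 434202) (nat_lit 18) .nil)))))))) (.g (nat_lit 7) .nil .nil)))))) 
(.nd (nat_lit 3) (.nd (nat_lit 4) (.nd (nat_lit 5) 
(.lf (nat_lit 118853) (.g (nat_lit 5963) (.e (nat_lit 6416) (nat_lit 341) (.e (nat_lit 163907) (nat_lit 12) (.e (nat_lit 426131) (nat_lit 3) (.e (nat_lit 204869) (nat_lit 29) (.e (nat_lit 360475) (nat_lit 8) (.e (nat_lit 557089) (nat_lit 12) (.e (nat_lit 163844) (nat_lit 0) .nil))))))) (.g (nat_lit 5) .nil .nil))) 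
(.lf (nat_lit 118885) (.g (nat_lit 1712) (.e (nat_lit 6418) (nat_lit 341) (.e (nat_lit 163905) (nat_lit 12) (.e (nat_lit 426131) (nat_lit 3) (.e (nat_lit 204868) (nat_lit 29) .nil)))) .nil))) (.nd (nat_lit 5) 
(.lf (nat_lit 118869) (.g (nat_lit 5610) (.e (nat_lit 6416) (nat_lit 341) (.e (nat_lit 163926) (nat_lit 16) (.e (nat_lit 458789) (nat_lit 23) (.e (nat_lit 532550) (nat_lit 12) (.e (nat_lit 360475) (nat_lit 8) (.e (nat_lit 557089) (nat_lit 12) (.e (nat_lit 163849) (nat_lit 0) .nil))))))) (.g (nat_lit 6) .nil .nil))) 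
(.lf (nat_lit 118901) (.g (nat_lit 2377) (.e (nat_lit 6420) (nat_lit 341) (.e (nat_lit 163843) (nat_lit 0) (.e (nat_lit 3605) (nat_lit 225) (.e (nat_lit 761905) (nat_lit 16) (.e (nat_lit 179968) (nat_lit 18) (.e (nat_lit 98359) (nat_lit 26) (.e (nat_lit 426286) (nat_lit 10) (.e (nat_lit 434208) (nat_lit 18) .nil)))))))) (.g (nat_lit 4) .nil .nil))))) (.nd (nat_lit 4) (.nd (nat_lit 5) 
(.lf (nat_lit 118861) (.g (nat_lit 4250) (.e (nat_lit 6416) (nat_lit 341) (.e (nat_lit 163908) (nat_lit 12) (.e (nat_lit 426113) (nat_lit 2) (.e (nat_lit 196666) (nat_lit 13) (.e (nat_lit 65617) (nat_lit 10) (.e (nat_lit 344133) (nat_lit 26) (.e (nat_lit 557091) (nat_lit 12) (.e (nat_lit 163844) (nat_lit 0) .nil)))))))) (.g (nat_lit 8) .nil .nil))) 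
(.lf (nat_lit 118893) (.g (nat_lit 3573) (.e (nat_lit 6418) (nat_lit 341) (.e (nat_lit 163908) (nat_lit 12) (.e (nat_lit 426113) (nat_lit 2) (.e (nat_lit 196666) (nat_lit 13) (.e (nat_lit 65617) (nat_lit 10) (.e (nat_lit 344132) (nat_lit 26) (.e (nat_lit 557094) (nat_lit 12) (.e (nat_lit 163847) (nat_lit 0) .nil)))))))) (.g (nat_lit 0) .nil .nil)))) (.nd (nat_lit 5) 
(.lf (nat_lit 118877) (.g (nat_lit 4906) (.e (nat_lit 6416) (nat_lit 341) (.e (nat_lit 163928) (nat_lit 16) (.e (nat_lit 458789) (nat_lit 23) (.e (nat_lit 532550) (nat_lit 12) (.e (nat_lit 360474) (nat_lit 8) (.e (nat_lit 557094) (nat_lit 12) (.e (nat_lit 163849) (nat_lit 0) .nil))))))) (.g (nat_lit 5) .nil .nil))) 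
(.lf (nat_lit 118909) (.g (nat_lit 1700) (.e (nat_lit 6420) (nat_lit 341) (.e (nat_lit 163902) (nat_lit 12) (.e (nat_lit 426091) (nat_lit 0) (.e (nat_lit 3238) (nat_lit 197) (.e (nat_lit 532549) (nat_lit 12) .nil))))) .nil)))))) (.nd (nat_lit 2) (.nd (nat_lit 3) (.nd (nat_lit 4) (.nd (nat_lit 5) 
(.lf (nat_lit 118851) (.g (nat_lit 6290) (.e (nat_lit 6416) (nat_lit 341) (.e (nat_lit 163903) (nat_lit 12) (.e (nat_lit 426131) (nat_lit 3) (.e (nat_lit 204869) (nat_lit 29) (.e (nat_lit 360475) (nat_lit 8) (.e (nat_lit 557091) (nat_lit 12) (.e (nat_lit 163844) (nat_lit 0) .nil))))))) (.g (nat_lit 5) .nil .nil))) 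
(.lf (nat_lit 118883) (.g (nat_lit 5917) (.e (nat_lit 6416) (nat_lit 341) (.e (nat_lit 163928) (nat_lit 16) (.e (nat_lit 458789) (nat_lit 23) (.e (nat_lit 532550) (nat_lit 12) (.e (nat_lit 360475) (nat_lit 8) (.e (nat_lit 557091) (nat_lit 12) (.e (nat_lit 163847) (nat_lit 0) .nil))))))) (.g (nat_lit 7) .nil .nil)))) (.nd (nat_lit 5) 
(.lf (nat_lit 118867) (.g (nat_lit 227) (.e (nat_lit 6416) (nat_lit 341) (.e (nat_lit 163917) (nat_lit 13) (.e (nat_lit 434259) (nat_lit 32) .nil))) .nil)) 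
(.lf (nat_lit 118899) (.g (nat_lit 2879) (.e (nat_lit 6420) (nat_lit 341) (.e (nat_lit 163843) (nat_lit 0) (.e (nat_lit 3605) (nat_lit 225) (.e (nat_lit 761905) (nat_lit 16) (.e (nat_lit 179968) (nat_lit 17) (.e (nat_lit 90170) (nat_lit 13) (.e (nat_lit 172106) (nat_lit 10) (.e (nat_lit 434202) (nat_lit 18) .nil)))))))) (.g (nat_lit 4) .nil .nil))))) (.nd (nat_lit 4) (.nd (nat_lit 5) 
(.lf (nat_lit 118859) (.g (nat_lit 4036) (.e (nat_lit 6416) (nat_lit 341) (.e (nat_lit 163908) (nat_lit 12) (.e (nat_lit 426113) (nat_lit 2) (.e (nat_lit 196666) (nat_lit 13) (.e (nat_lit 65617) (nat_lit 10) (.e (nat_lit 344133) (nat_lit 26) (.e (nat_lit 557089) (nat_lit 12) (.e (nat_lit 163844) (nat_lit 0) .nil)))))))) (.g (nat_lit 0) .nil .nil))) 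
(.lf (nat_lit 118891) (.g (nat_lit 4149) (.e (nat_lit 6418) (nat_lit 341) (.e (nat_lit 163908) (nat_lit 12) (.e (nat_lit 426113) (nat_lit 2) (.e (nat_lit 196666) (nat_lit 13) (.e (nat_lit 65617) (nat_lit 10) (.e (nat_lit 344130) (nat_lit 26) (.e (nat_lit 557090) (nat_lit 12) (.e (nat_lit 163847) (nat_lit 0) .nil)))))))) (.g (nat_lit 0) .nil .nil)))) (.nd (nat_lit 5) 
(.lf (nat_lit 118875) (.g (nat_lit 5024) (.e (nat_lit 6416) (nat_lit 341) (.e (nat_lit 163928) (nat_lit 16) (.e (nat_lit 458789) (nat_lit 23) (.e (nat_lit 532550) (nat_lit 12) (.e (nat_lit 360474) (nat_lit 8) (.e (nat_lit 557093) (nat_lit 12) (.e (nat_lit 163849) (nat_lit 0) .nil))))))) (.g (nat_lit 6) .nil .nil))) 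
(.lf (nat_lit 118907) (.g (nat_lit 4951) (.e (nat_lit 6420) (nat_lit 341) (.e (nat_lit 163885) (nat_lit 5) (.e (nat_lit 221219) (nat_lit 24) (.e (nat_lit 213028) (nat_lit 10) (.e (nat_lit 8326) (nat_lit 69) (.e (nat_lit 557100) (nat_lit 13) (.e (nat_lit 172113) (nat_lit 10) (.e (nat_lit 434208) (nat_lit 18) .nil)))))))) (.g (nat_lit 8) .nil .nil)))))) 
(.nd (nat_lit 3) (.nd (nat_lit 4) (.nd (nat_lit 5) 
(.lf (nat_lit 118855) (.g (nat_lit 3911) (.e (nat_lit 6416) (nat_lit 341) (.e (nat_lit 163908) (nat_lit 12) (.e (nat_lit 426113) (nat_lit 2) (.e (nat_lit 196666) (nat_lit 13) (.e (nat_lit 65617) (nat_lit 10) (.e (nat_lit 344130) (nat_lit 26) (.e (nat_lit 557089) (nat_lit 12) (.e (nat_lit 163844) (nat_lit 0) .nil)))))))) (.g (nat_lit 0) .nil .nil))) 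
(.lf (nat_lit 118887) (.g (nat_lit 4234) (.e (nat_lit 6418) (nat_lit 341) (.e (nat_lit 163908) (nat_lit 12) (.e (nat_lit 426113) (nat_lit 2) (.e (nat_lit 196666) (nat_lit 13) (.e (nat_lit 65610) (nat_lit 10) (.e (nat_lit 344129) (nat_lit 26) (.e (nat_lit 557089) (nat_lit 12) (.e (nat_lit 163848) (nat_lit 0) .nil)))))))) (.g (nat_lit 0) .nil .nil)))) (.nd (nat_lit 5) 
(.lf (nat_lit 118871) (.g (nat_lit 2896) (.e (nat_lit 6416) (nat_lit 341) (.e (nat_lit 163927) (nat_lit 16) (.e (nat_lit 458789) (nat_lit 23) (.e (nat_lit 532549) (nat_lit 12) (.e (nat_lit 360473) (nat_lit 8) (.e (nat_lit 557093) (nat_lit 12) (.e (nat_lit 163849) (nat_lit 0) .nil))))))) (.g (nat_lit 5) .nil .nil))) 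
(.lf (nat_lit 118903) (.g (nat_lit 451) (.e (nat_lit 6420) (nat_lit 341) (.e (nat_lit 163885) (nat_lit 5) (.e (nat_lit 221198) (nat_lit 20) .nil))) .nil)))) (.nd (nat_lit 4) (.nd (nat_lit 5) 
(.lf (nat_lit 118863) (.g (nat_lit 4815) (.e (nat_lit 6416) (nat_lit 341) (.e (nat_lit 163908) (nat_lit 12) (.e (nat_lit 426134) (nat_lit 3) (.e (nat_lit 204869) (nat_lit 29) (.e (nat_lit 360475) (nat_lit 8) (.e (nat_lit 557089) (nat_lit 12) (.e (nat_lit 163844) (nat_lit 0) .nil))))))) (.g (nat_lit 6) .nil .nil))) 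
(.lf (nat_lit 118895) (.g (nat_lit 3797) (.e (nat_lit 6418) (nat_lit 341) (.e (nat_lit 163908) (nat_lit 12) (.e (nat_lit 426113) (nat_lit 2) (.e (nat_lit 196666) (nat_lit 13) (.e (nat_lit 65617) (nat_lit 10) (.e (nat_lit 344133) (nat_lit 26) (.e (nat_lit 557089) (nat_lit 12) (.e (nat_lit 163848) (nat_lit 0) .nil)))))))) (.g (nat_lit 0) .nil .nil)))) (.nd (nat_lit 5) 
(.lf (nat_lit 118879) (.g (nat_lit 5757) (.e (nat_lit 6416) (nat_lit 341) (.e (nat_lit 163928) (nat_lit 16) (.e (nat_lit 458789) (nat_lit 23) (.e (nat_lit 532550) (nat_lit 12) (.e (nat_lit 360475) (nat_lit 8) (.e (nat_lit 557089) (nat_lit 12) (.e (nat_lit 163848) (nat_lit 0) .nil))))))) (.g (nat_lit 6) .nil .nil))) 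
(.lf (nat_lit 118911) (.g (nat_lit 934) (.e (nat_lit 6420) (nat_lit 341) (.e (nat_lit 163902) (nat_lit 12) (.e (nat_lit 426128) (nat_lit 2) .nil))) .nil))))))))


end

end Pool.Agent.Lib.MP_5854e1_co.Cz
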