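import Pool.Agent.Lib.MP_5854e1_co.DtD

/-!
# Windows and cells of the rings
-/

set_option autoImplicit false
set_option maxRecDepth 100000
set_option deprecated.oldSectionVars true

namespace Pool.Agent.Lib.MP_5854e1_co.Cz

open Pool.Agent.Lib.MP_5854e1_co

noncomputable section

noncomputable def tv3030 : DT := (.nd (nat_lit 0) (.nd (nat_lit 1) (.nd (nat_lit 2) (.nd (nat_lit 3) (.nd (nat_lit 4) (.nd (nat_lit 5) 
(.lf (nat_lit 231552) (.g (nat_lit 4054) (.e (nat_lit 98373) (nat_lit 29) (.e (nat_lit 450588) (nat_lit 10) (.e (nat_lit 573473) (nat_lit 12) (.e (nat_lit 57569) (nat_lit 53) (.e (nat_lit 761867) (nat_lit 5) (.e (nat_lit 1454) (nat_lit 108) (.e (nat_lit 343808) (nat_lit 3) .nil))))))) (.g (nat_lit 4) .nil .nil))) 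
(.lf (nat_lit 231584) (.g (nat_lit 3968) (.e (nat_lit 98373) (nat_lit 29) (.e (nat_lit 450588) (nat_lit 10) (.e (nat_lit 573474) (nat_lit 12) (.e (nat_lit 57347) (nat_lit 0) (.e (nat_lit 7247) (nat_lit 383) (.e (nat_lit 8194) (nat_lit 0) (.e (nat_lit 5322) (nat_lit 298) (.e (nat_lit 1253) (nat_lit 92) .nil)))))))) (.g (nat_lit 4) .nil .nil)))) (.nd (nat_lit 5) 
(.lf (nat_lit 231568) (.g (nat_lit 3838) (.e (nat_lit 98373) (nat_lit 29) (.e (nat_lit 450588) (nat_lit 10) (.e (nat_lit 573474) (nat_lit 12) (.e (nat_lit 57347) (nat_lit 0) (.e (nat_lit 6853) (nat_lit 371) (.e (nat_lit 2450) (nat_lit 157) (.e (nat_lit 3098) (nat_lit 192) (.e (nat_lit 491540) (nat_lit 3) .nil)))))))) (.g (nat_lit 4) .nil .nil))) 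
(.lf (nat_lit 231600) (.g (nat_lit 5227) (.e (nat_lit 98373) (nat_lit 29) (.e (nat_lit 450588) (nat_lit 10) (.e (nat_lit 573474) (nat_lit 12) (.e (nat_lit 57348) (nat_lit 0) (.e (nat_lit 7125) (nat_lit 382) (.e (nat_lit 1296) (nat_lit 96) (.e (nat_lit 131097) (nat_lit 3) .nil))))))) (.g (nat_lit 4) .nil .nil))))) (.nd (nat_lit 4) (.nd (nat_lit 5) 
(.lf (nat_lit 231560) (.g (nat_lit 4170) (.e (nat_lit 98373) (nat_lit 29) (.e (nat_lit 450588) (nat_lit 10) (.e (nat_lit 573474) (nat_lit 12) (.e (nat_lit 57347) (nat_lit 0) (.e (nat_lit 6850) (nat_lit 371) (.e (nat_lit 2450) (nat_lit 157) (.e (nat_lit 3098) (nat_lit 192) (.e (nat_lit 491540) (nat_lit 3) .nil)))))))) (.g (nat_lit 4) .nil .nil))) 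
(.lf (nat_lit 231592) (.g (nat_lit 3894) (.e (nat_lit 98373) (nat_lit 29) (.e (nat_lit 450588) (nat_lit 10) (.e (nat_lit 573474) (nat_lit 12) (.e (nat_lit 57348) (nat_lit 0) (.e (nat_lit 6850) (nat_lit 371) (.e (nat_lit 2433) (nat_lit 157) (.e (nat_lit 3098) (nat_lit 192) (.e (nat_lit 491540) (nat_lit 3) .nil)))))))) (.g (nat_lit 4) .nil .nil)))) (.nd (nat_lit 5) 
(.lf (nat_lit 231576) (.g (nat_lit 3555) (.e (nat_lit 98373) (nat_lit 29) (.e (nat_lit 450588) (nat_lit 10) (.e (nat_lit 573474) (nat_lit 12) (.e (nat_lit 57347) (nat_lit 0) (.e (nat_lit 7122) (nat_lit 382) .nil))))) .nil)) 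
(.lf (nat_lit 231608) (.g (nat_lit 4151) (.e (nat_lit 98373) (nat_lit 29) (.e (nat_lit 450588) (nat_lit 10) (.e (nat_lit 573474) (nat_lit 12) (.e (nat_lit 57354) (nat_lit 0) (.e (nat_lit 7270) (nat_lit 385) (.e (nat_lit 122883) (nat_lit 0) (.e (nat_lit 6489) (nat_lit 343) (.e (nat_lit 1253) (nat_lit 92) .nil)))))))) (.g (nat_lit 4) .nil .nil)))))) 
(.nd (nat_lit 3) (.nd (nat_lit 4) (.nd (nat_lit 5) 
(.lf (nat_lit 231556) (.g (nat_lit 448) (.e (nat_lit 98373) (nat_lit 29) (.e (nat_lit 450588) (nat_lit 10) (.e (nat_lit 573474) (nat_lit 12) .nil))) .nil)) 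
(.lf (nat_lit 231588) (.g (nat_lit 3417) (.e (nat_lit 98373) (nat_lit 29) (.e (nat_lit 450588) (nat_lit 10) (.e (nat_lit 573474) (nat_lit 12) (.e (nat_lit 57347) (nat_lit 0) (.e (nat_lit 7265) (nat_lit 384) .nil))))) .nil))) (.nd (nat_lit 5) 
(.lf (nat_lit 231572) (.g (nat_lit 3831) (.e (nat_lit 98373) (nat_lit 29) (.e (nat_lit 450588) (nat_lit 10) (.e (nat_lit 573474) (nat_lit 12) (.e (nat_lit 57347) (nat_lit 0) (.e (nat_lit 6923) (nat_lit 371) (.e (nat_lit 2601) (nat_lit 163) (.e (nat_lit 164238) (nat_lit 187) (.e (nat_lit 1253) (nat_lit 92) .nil)))))))) (.g (nat_lit 4) .nil .nil))) 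
(.lf (nat_lit 231604) (.g (nat_lit 2798) (.e (nat_lit 98373) (nat_lit 29) (.e (nat_lit 450588) (nat_lit 10) (.e (nat_lit 573474) (nat_lit 12) (.e (nat_lit 57352) (nat_lit 0) .nil)))) .nil)))) (.nd (nat_lit 4) (.nd (nat_lit 5) 
(.lf (nat_lit 231564) (.g (nat_lit 3681) (.e (nat_lit 98373) (nat_lit 29) (.e (nat_lit 450588) (nat_lit 10) (.e (nat_lit 573474) (nat_lit 12) (.e (nat_lit 57347) (nat_lit 0) (.e (nat_lit 6852) (nat_lit 371) (.e (nat_lit 2612) (nat_lit 163) (.e (nat_lit 164238) (nat_lit 187) (.e (nat_lit 1253) (nat_lit 92) .nil)))))))) (.g (nat_lit 4) .nil .nil))) 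
(.lf (nat_lit 231596) (.g (nat_lit 3230) (.e (nat_lit 98373) (nat_lit 29) (.e (nat_lit 450588) (nat_lit 10) (.e (nat_lit 573474) (nat_lit 12) (.e (nat_lit 57348) (nat_lit 0) (.e (nat_lit 6942) (nat_lit 375) .nil))))) .nil))) (.nd (nat_lit 5) 
(.lf (nat_lit 231580) (.g (nat_lit 3787) (.e (nat_lit 98373) (nat_lit 29) (.e (nat_lit 450588) (nat_lit 10) (.e (nat_lit 573474) (nat_lit 12) (.e (nat_lit 57347) (nat_lit 0) (.e (nat_lit 7125) (nat_lit 382) (.e (nat_lit 1183) (nat_lit 87) (.e (nat_lit 57740) (nat_lit 187) (.e (nat_lit 1253) (nat_lit 92) .nil)))))))) (.g (nat_lit 4) .nil .nil))) 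
(.lf (nat_lit 231612) (.g (nat_lit 2746) (.e (nat_lit 98373) (nat_lit 29) (.e (nat_lit 450588) (nat_lit 10) (.e (nat_lit 573474) (nat_lit 12) (.e (nat_lit 57568) (nat_lit 53) .nil)))) .nil)))))) (.nd (nat_lit 2) (.nd (nat_lit 3) (.nd (nat_lit 4) (.nd (nat_lit 5) 
(.lf (nat_lit 231554) (.g (nat_lit 4443) (.e (nat_lit 98373) (nat_lit 29) (.e (nat_lit 450588) (nat_lit 10) (.e (nat_lit 573473) (nat_lit 12) (.e (nat_lit 57572) (nat_lit 54) (.e (nat_lit 770072) (nat_lit 8) (.e (nat_lit 65569) (nat_lit 3) .nil)))))) (.g (nat_lit 0) .nil .nil))) 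
(.lf (nat_lit 231586) (.g (nat_lit 3703) (.e (nat_lit 98373) (nat_lit 29) (.e (nat_lit 450588) (nat_lit 10) (.e (nat_lit 573474) (nat_lit 12) (.e (nat_lit 57347) (nat_lit 0) (.e (nat_lit 7247) (nat_lit 383) (.e (nat_lit 8196) (nat_lit 0) (.e (nat_lit 5321) (nat_lit 298) (.e (nat_lit 1253) (nat_lit 92) .nil)))))))) (.g (nat_lit 4) .nil .nil)))) (.nd (nat_lit 5) 
(.lf (nat_lit 231570) (.g (nat_lit 4062) (.e (nat_lit 98373) (nat_lit 29) (.e (nat_lit 450588) (nat_lit 10) (.e (nat_lit 573474) (nat_lit 12) (.e (nat_lit 57347) (nat_lit 0) (.e (nat_lit 6853) (nat_lit 371) (.e (nat_lit 2612) (nat_lit 163) (.e (nat_lit 164239) (nat_lit 187) (.e (nat_lit 1253) (nat_lit 92) .nil)))))))) (.g (nat_lit 4) .nil .nil))) 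
(.lf (nat_lit 231602) (.g (nat_lit 2733) (.e (nat_lit 98373) (nat_lit 29) (.e (nat_lit 450588) (nat_lit 10) (.e (nat_lit 573474) (nat_lit 12) (.e (nat_lit 57351) (nat_lit 0) .nil)))) .nil)))) (.nd (nat_lit 4) (.nd (nat_lit 5) 
(.lf (nat_lit 231562) (.g (nat_lit 4326) (.e (nat_lit 98373) (nat_lit 29) (.e (nat_lit 450588) (nat_lit 10) (.e (nat_lit 573474) (nat_lit 12) (.e (nat_lit 57347) (nat_lit 0) (.e (nat_lit 6850) (nat_lit 371) (.e (nat_lit 2612) (nat_lit 163) (.e (nat_lit 164239) (nat_lit 187) (.e (nat_lit 1253) (nat_lit 92) .nil)))))))) (.g (nat_lit 4) .nil .nil))) 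
(.lf (nat_lit 231594) (.g (nat_lit 3236) (.e (nat_lit 98373) (nat_lit 29) (.e (nat_lit 450588) (nat_lit 10) (.e (nat_lit 573474) (nat_lit 12) (.e (nat_lit 57348) (nat_lit 0) (.e (nat_lit 6940) (nat_lit 375) .nil))))) .nil))) (.nd (nat_lit 5) 
(.lf (nat_lit 231578) (.g (nat_lit 4380) (.e (nat_lit 98373) (nat_lit 29) (.e (nat_lit 450588) (nat_lit 10) (.e (nat_lit 573474) (nat_lit 12) (.e (nat_lit 57347) (nat_lit 0) (.e (nat_lit 7124) (nat_lit 382) (.e (nat_lit 1296) (nat_lit 96) (.e (nat_lit 131096) (nat_lit 3) .nil))))))) (.g (nat_lit 4) .nil .nil))) 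
(.lf (nat_lit 231610) (.g (nat_lit 2803) (.e (nat_lit 98373) (nat_lit 29) (.e (nat_lit 450588) (nat_lit 10) (.e (nat_lit 573474) (nat_lit 12) (.e (nat_lit 57565) (nat_lit 52) .nil)))) .nil))))) (.nd (nat_lit 3) (.nd (nat_lit 4) (.nd (nat_lit 5) 
(.lf (nat_lit 231558) (.g (nat_lit 2645) (.e (nat_lit 98373) (nat_lit 29) (.e (nat_lit 450588) (nat_lit 10) (.e (nat_lit 573474) (nat_lit 12) (.e (nat_lit 57346) (nat_lit 0) .nil)))) .nil)) 
(.lf (nat_lit 231590) (.g (nat_lit 5326) (.e (nat_lit 98373) (nat_lit 29) (.e (nat_lit 450588) (nat_lit 10) (.e (nat_lit 573474) (nat_lit 12) (.e (nat_lit 57347) (nat_lit 0) (.e (nat_lit 7265) (nat_lit 384) (.e (nat_lit 57347) (nat_lit 0) (.e (nat_lit 6499) (nat_lit 343) (.e (nat_lit 1253) (nat_lit 92) .nil)))))))) (.g (nat_lit 6) .nil .nil)))) (.nd (nat_lit 5) 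
(.lf (nat_lit 231574) (.g (nat_lit 3566) (.e (nat_lit 98373) (nat_lit 29) (.e (nat_lit 450588) (nat_lit 10) (.e (nat_lit 573474) (nat_lit 12) (.e (nat_lit 57347) (nat_lit 0) (.e (nat_lit 6940) (nat_lit 375) .nil))))) .nil)) 
(.lf (nat_lit 231606) (.g (nat_lit 2480) (.e (nat_lit 98373) (nat_lit 29) (.e (nat_lit 450588) (nat_lit 10) (.e (nat_lit 573474) (nat_lit 12) (.e (nat_lit 57354) (nat_lit 0) .nil)))) .nil)))) (.nd (nat_lit 4) (.nd (nat_lit 5) 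
(.lf (nat_lit 231566) (.g (nat_lit 3566) (.e (nat_lit 98373) (nat_lit 29) (.e (nat_lit 450588) (nat_lit 10) (.e (nat_lit 573474) (nat_lit 12) (.e (nat_lit 57347) (nat_lit 0) (.e (nat_lit 6853) (nat_lit 371) .nil))))) .nil)) 
(.lf (nat_lit 231598) (.g (nat_lit 5202) (.e (nat_lit 98373) (nat_lit 29) (.e (nat_lit 450588) (nat_lit 10) (.e (nat_lit 573474) (nat_lit 12) (.e (nat_lit 57348) (nat_lit 0) (.e (nat_lit 7124) (nat_lit 382) (.e (nat_lit 1296) (nat_lit 96) (.e (nat_lit 131097) (nat_lit 3) .nil))))))) (.g (nat_lit 4) .nil .nil)))) (.nd (nat_lit 5) 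
(.lf (nat_lit 231582) (.g (nat_lit 5159) (.e (nat_lit 98373) (nat_lit 29) (.e (nat_lit 450588) (nat_lit 10) (.e (nat_lit 573474) (nat_lit 12) (.e (nat_lit 57347) (nat_lit 0) (.e (nat_lit 7125) (nat_lit 382) (.e (nat_lit 1296) (nat_lit 96) (.e (nat_lit 131097) (nat_lit 3) .nil))))))) (.g (nat_lit 4) .nil .nil))) 
(.lf (nat_lit 231614) (.g (nat_lit 3056) (.e (nat_lit 98373) (nat_lit 29) (.e (nat_lit 450588) (nat_lit 10) (.e (nat_lit 573474) (nat_lit 12) (.e (nat_lit 57572) (nat_lit 54) (.e (nat_lit 770058) (nat_lit 5) (.e (nat_lit 986) (nat_lit 81) (.e (nat_lit 6490) (nat_lit 343) (.e (nat_lit 1253) (nat_lit 92) .nil)))))))) (.g (nat_lit 4) .nil .nil)))))))) 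
(.nd (nat_lit 1) (.nd (nat_lit 2) (.nd (nat_lit 3) (.nd (nat_lit 4) (.nd (nat_lit 5) 
(.lf (nat_lit 231553) (.g (nat_lit 4150) (.e (nat_lit 98373) (nat_lit 29) (.e (nat_lit 450588) (nat_lit 10) (.e (nat_lit 573473) (nat_lit 12) (.e (nat_lit 57572) (nat_lit 54) (.e (nat_lit 770055) (nat_lit 5) (.e (nat_lit 1464) (nat_lit 108) (.e (nat_lit 336028) (nat_lit 3) .nil))))))) (.g (nat_lit 0) .nil .nil))) 
(.lf (nat_lit 231585) (.g (nat_lit 3794) (.e (nat_lit 98373) (nat_lit 29) (.e (nat_lit 450588) (nat_lit 10) (.e (nat_lit 573474) (nat_lit 12) (.e (nat_lit 57347) (nat_lit 0) (.e (nat_lit 7247) (nat_lit 383) (.e (nat_lit 8194) (nat_lit 0) (.e (nat_lit 5355) (nat_lit 298) (.e (nat_lit 1253) (nat_lit 92) .nil)))))))) (.g (nat_lit 4) .nil .nil)))) (.nd (nat_lit 5) 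
(.lf (nat_lit 231569) (.g (nat_lit 3904) (.e (nat_lit 98373) (nat_lit 29) (.e (nat_lit 450588) (nat_lit 10) (.e (nat_lit 573474) (nat_lit 12) (.e (nat_lit 57347) (nat_lit 0) (.e (nat_lit 6853) (nat_lit 371) (.e (nat_lit 2612) (nat_lit 163) (.e (nat_lit 164238) (nat_lit 187) (.e (nat_lit 1253) (nat_lit 92) .nil)))))))) (.g (nat_lit 4) .nil .nil))) 
(.lf (nat_lit 231601) (.g (nat_lit 2772) (.e (nat_lit 98373) (nat_lit 29) (.e (nat_lit 450588) (nat_lit 10) (.e (nat_lit 573474) (nat_lit 12) (.e (nat_lit 57350) (nat_lit 0) .nil)))) .nil)))) (.nd (nat_lit 4) (.nd (nat_lit 5) 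
(.lf (nat_lit 231561) (.g (nat_lit 4248) (.e (nat_lit 98373) (nat_lit 29) (.e (nat_lit 450588) (nat_lit 10) (.e (nat_lit 573474) (nat_lit 12) (.e (nat_lit 57347) (nat_lit 0) (.e (nat_lit 6850) (nat_lit 371) (.e (nat_lit 2612) (nat_lit 163) (.e (nat_lit 164238) (nat_lit 187) (.e (nat_lit 1253) (nat_lit 92) .nil)))))))) (.g (nat_lit 4) .nil .nil))) 
(.lf (nat_lit 231593) (.g (nat_lit 3820) (.e (nat_lit 98373) (nat_lit 29) (.e (nat_lit 450588) (nat_lit 10) (.e (nat_lit 573474) (nat_lit 12) (.e (nat_lit 57348) (nat_lit 0) (.e (nat_lit 6923) (nat_lit 371) (.e (nat_lit 2442) (nat_lit 157) (.e (nat_lit 3098) (nat_lit 192) (.e (nat_lit 491540) (nat_lit 3) .nil)))))))) (.g (nat_lit 4) .nil .nil)))) (.nd (nat_lit 5) 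
(.lf (nat_lit 231577) (.g (nat_lit 4163) (.e (nat_lit 98373) (nat_lit 29) (.e (nat_lit 450588) (nat_lit 10) (.e (nat_lit 573474) (nat_lit 12) (.e (nat_lit 57347) (nat_lit 0) (.e (nat_lit 7124) (nat_lit 382) (.e (nat_lit 1183) (nat_lit 87) (.e (nat_lit 57741) (nat_lit 187) (.e (nat_lit 1253) (nat_lit 92) .nil)))))))) (.g (nat_lit 4) .nil .nil))) 
(.lf (nat_lit 231609) (.g (nat_lit 2688) (.e (nat_lit 98373) (nat_lit 29) (.e (nat_lit 450588) (nat_lit 10) (.e (nat_lit 573474) (nat_lit 12) (.e (nat_lit 57356) (nat_lit 0) .nil)))) .nil))))) (.nd (nat_lit 3) (.nd (nat_lit 4) (.nd (nat_lit 5) 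
(.lf (nat_lit 231557) (.g (nat_lit 2727) (.e (nat_lit 98373) (nat_lit 29) (.e (nat_lit 450588) (nat_lit 10) (.e (nat_lit 573474) (nat_lit 12) (.e (nat_lit 57345) (nat_lit 0) .nil)))) .nil)) 
(.lf (nat_lit 231589) (.g (nat_lit 5434) (.e (nat_lit 98373) (nat_lit 29) (.e (nat_lit 450588) (nat_lit 10) (.e (nat_lit 573474) (nat_lit 12) (.e (nat_lit 57347) (nat_lit 0) (.e (nat_lit 7265) (nat_lit 384) (.e (nat_lit 57347) (nat_lit 0) (.e (nat_lit 6450) (nat_lit 343) (.e (nat_lit 1253) (nat_lit 92) .nil)))))))) (.g (nat_lit 6) .nil .nil)))) (.nd (nat_lit 5) 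
(.lf (nat_lit 231573) (.g (nat_lit 4110) (.e (nat_lit 98373) (nat_lit 29) (.e (nat_lit 450588) (nat_lit 10) (.e (nat_lit 573474) (nat_lit 12) (.e (nat_lit 57347) (nat_lit 0) (.e (nat_lit 6923) (nat_lit 371) (.e (nat_lit 2611) (nat_lit 163) (.e (nat_lit 164238) (nat_lit 187) (.e (nat_lit 1253) (nat_lit 92) .nil)))))))) (.g (nat_lit 4) .nil .nil))) 
(.lf (nat_lit 231605) (.g (nat_lit 2694) (.e (nat_lit 98373) (nat_lit 29) (.e (nat_lit 450588) (nat_lit 10) (.e (nat_lit 573474) (nat_lit 12) (.e (nat_lit 57353) (nat_lit 0) .nil)))) .nil)))) (.nd (nat_lit 4) (.nd (nat_lit 5) 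
(.lf (nat_lit 231565) (.g (nat_lit 3780) (.e (nat_lit 98373) (nat_lit 29) (.e (nat_lit 450588) (nat_lit 10) (.e (nat_lit 573474) (nat_lit 12) (.e (nat_lit 57347) (nat_lit 0) (.e (nat_lit 6852) (nat_lit 371) (.e (nat_lit 2612) (nat_lit 163) (.e (nat_lit 164239) (nat_lit 187) (.e (nat_lit 1253) (nat_lit 92) .nil)))))))) (.g (nat_lit 4) .nil .nil))) 
(.lf (nat_lit 231597) (.g (nat_lit 4493) (.e (nat_lit 98373) (nat_lit 29) (.e (nat_lit 450588) (nat_lit 10) (.e (nat_lit 573474) (nat_lit 12) (.e (nat_lit 57348) (nat_lit 0) (.e (nat_lit 7124) (nat_lit 382) (.e (nat_lit 1296) (nat_lit 96) (.e (nat_lit 131096) (nat_lit 3) .nil))))))) (.g (nat_lit 4) .nil .nil)))) (.nd (nat_lit 5) 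
(.lf (nat_lit 231581) (.g (nat_lit 4571) (.e (nat_lit 98373) (nat_lit 29) (.e (nat_lit 450588) (nat_lit 10) (.e (nat_lit 573474) (nat_lit 12) (.e (nat_lit 57347) (nat_lit 0) (.e (nat_lit 7125) (nat_lit 382) (.e (nat_lit 1296) (nat_lit 96) (.e (nat_lit 131096) (nat_lit 3) .nil))))))) (.g (nat_lit 4) .nil .nil))) 
(.lf (nat_lit 231613) (.g (nat_lit 2766) (.e (nat_lit 98373) (nat_lit 29) (.e (nat_lit 450588) (nat_lit 10) (.e (nat_lit 573474) (nat_lit 12) (.e (nat_lit 57569) (nat_lit 53) .nil)))) .nil)))))) (.nd (nat_lit 2) (.nd (nat_lit 3) (.nd (nat_lit 4) (.nd (nat_lit 5) 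
(.lf (nat_lit 231555) (.g (nat_lit 1289) (.e (nat_lit 98373) (nat_lit 29) (.e (nat_lit 450588) (nat_lit 10) (.e (nat_lit 573473) (nat_lit 12) (.e (nat_lit 57573) (nat_lit 55) .nil)))) .nil)) 
(.lf (nat_lit 231587) (.g (nat_lit 3415) (.e (nat_lit 98373) (nat_lit 29) (.e (nat_lit 450588) (nat_lit 10) (.e (nat_lit 573474) (nat_lit 12) (.e (nat_lit 57347) (nat_lit 0) (.e (nat_lit 7261) (nat_lit 384) .nil))))) .nil))) (.nd (nat_lit 5) 
(.lf (nat_lit 231571) (.g (nat_lit 3566) (.e (nat_lit 98373) (nat_lit 29) (.e (nat_lit 450588) (nat_lit 10) (.e (nat_lit 573474) (nat_lit 12) (.e (nat_lit 57347) (nat_lit 0) (.e (nat_lit 6923) (nat_lit 371) .nil))))) .nil)) 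
(.lf (nat_lit 231603) (.g (nat_lit 3306) (.e (nat_lit 98373) (nat_lit 29) (.e (nat_lit 450588) (nat_lit 10) (.e (nat_lit 573474) (nat_lit 12) (.e (nat_lit 57351) (nat_lit 0) (.e (nat_lit 7247) (nat_lit 383) .nil))))) .nil)))) (.nd (nat_lit 4) (.nd (nat_lit 5) 
(.lf (nat_lit 231563) (.g (nat_lit 3566) (.e (nat_lit 98373) (nat_lit 29) (.e (nat_lit 450588) (nat_lit 10) (.e (nat_lit 573474) (nat_lit 12) (.e (nat_lit 57347) (nat_lit 0) (.e (nat_lit 6852) (nat_lit 371) .nil))))) .nil)) 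
(.lf (nat_lit 231595) (.g (nat_lit 3973) (.e (nat_lit 98373) (nat_lit 29) (.e (nat_lit 450588) (nat_lit 10) (.e (nat_lit 573474) (nat_lit 12) (.e (nat_lit 57348) (nat_lit 0) (.e (nat_lit 6940) (nat_lit 375) (.e (nat_lit 163945) (nat_lit 20) (.e (nat_lit 491540) (nat_lit 3) .nil))))))) (.g (nat_lit 4) .nil .nil)))) (.nd (nat_lit 5) 
(.lf (nat_lit 231579) (.g (nat_lit 5101) (.e (nat_lit 98373) (nat_lit 29) (.e (nat_lit 450588) (nat_lit 10) (.e (nat_lit 573474) (nat_lit 12) (.e (nat_lit 57347) (nat_lit 0) (.e (nat_lit 7124) (nat_lit 382) (.e (nat_lit 1296) (nat_lit 96) (.e (nat_lit 131097) (nat_lit 3) .nil))))))) (.g (nat_lit 4) .nil .nil))) 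
(.lf (nat_lit 231611) (.g (nat_lit 2603) (.e (nat_lit 98373) (nat_lit 29) (.e (nat_lit 450588) (nat_lit 10) (.e (nat_lit 573474) (nat_lit 12) (.e (nat_lit 57567) (nat_lit 52) .nil)))) .nil))))) (.nd (nat_lit 3) (.nd (nat_lit 4) (.nd (nat_lit 5) 
(.lf (nat_lit 231559) (.g (nat_lit 3566) (.e (nat_lit 98373) (nat_lit 29) (.e (nat_lit 450588) (nat_lit 10) (.e (nat_lit 573474) (nat_lit 12) (.e (nat_lit 57347) (nat_lit 0) (.e (nat_lit 6850) (nat_lit 371) .nil))))) .nil)) 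
(.lf (nat_lit 231591) (.g (nat_lit 2457) (.e (nat_lit 98373) (nat_lit 29) (.e (nat_lit 450588) (nat_lit 10) (.e (nat_lit 573474) (nat_lit 12) (.e (nat_lit 57348) (nat_lit 0) .nil)))) .nil))) (.nd (nat_lit 5) 
(.lf (nat_lit 231575) (.g (nat_lit 3566) (.e (nat_lit 98373) (nat_lit 29) (.e (nat_lit 450588) (nat_lit 10) (.e (nat_lit 573474) (nat_lit 12) (.e (nat_lit 57347) (nat_lit 0) (.e (nat_lit 6942) (nat_lit 375) .nil))))) .nil)) 
(.lf (nat_lit 231607) (.g (nat_lit 3778) (.e (nat_lit 98373) (nat_lit 29) (.e (nat_lit 450588) (nat_lit 10) (.e (nat_lit 573474) (nat_lit 12) (.e (nat_lit 57354) (nat_lit 0) (.e (nat_lit 7270) (nat_lit 385) .nil))))) .nil)))) (.nd (nat_lit 4) (.nd (nat_lit 5) 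
(.lf (nat_lit 231567) (.g (nat_lit 3856) (.e (nat_lit 98373) (nat_lit 29) (.e (nat_lit 450588) (nat_lit 10) (.e (nat_lit 573474) (nat_lit 12) (.e (nat_lit 57347) (nat_lit 0) (.e (nat_lit 6853) (nat_lit 371) (.e (nat_lit 2433) (nat_lit 157) (.e (nat_lit 3098) (nat_lit 192) (.e (nat_lit 491540) (nat_lit 3) .nil)))))))) (.g (nat_lit 4) .nil .nil))) 
(.lf (nat_lit 231599) (.g (nat_lit 4640) (.e (nat_lit 98373) (nat_lit 29) (.e (nat_lit 450588) (nat_lit 10) (.e (nat_lit 573474) (nat_lit 12) (.e (nat_lit 57348) (nat_lit 0) (.e (nat_lit 7125) (nat_lit 382) (.e (nat_lit 1296) (nat_lit 96) (.e (nat_lit 131096) (nat_lit 3) .nil))))))) (.g (nat_lit 4) .nil .nil)))) (.nd (nat_lit 5) 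
(.lf (nat_lit 231583) (.g (nat_lit 3939) (.e (nat_lit 98373) (nat_lit 29) (.e (nat_lit 450588) (nat_lit 10) (.e (nat_lit 573474) (nat_lit 12) (.e (nat_lit 57347) (nat_lit 0) (.e (nat_lit 7247) (nat_lit 383) (.e (nat_lit 8194) (nat_lit 0) (.e (nat_lit 5321) (nat_lit 298) (.e (nat_lit 1253) (nat_lit 92) .nil)))))))) (.g (nat_lit 4) .nil .nil))) 
(.lf (nat_lit 231615) (.g (nat_lit 3194) (.e (nat_lit 98373) (nat_lit 29) (.e (nat_lit 450588) (nat_lit 10) (.e (nat_lit 573474) (nat_lit 12) (.e (nat_lit 57572) (nat_lit 54) (.e (nat_lit 770068) (nat_lit 7) (.e (nat_lit 65280) (nat_lit 187) (.e (nat_lit 1253) (nat_lit 92) .nil))))))) (.g (nat_lit 4) .nil .nil)))))))))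

noncomputable def tv3031 : DT := (.nd (nat_lit 0) (.nd (nat_lit 1) (.nd (nat_lit 2) (.nd (nat_lit 3) (.nd (nat_lit 4) (.nd (nat_lit 5) 
(.lf (nat_lit 231616) (.g (nat_lit 3021) (.e (nat_lit 98373) (nat_lit 29) (.e (nat_lit 450588) (nat_lit 10) (.e (nat_lit 573474) (nat_lit 12) (.e (nat_lit 57572) (nat_lit 54) (.e (nat_lit 770069) (nat_lit 7) (.e (nat_lit 57738) (nat_lit 187) (.e (nat_lit 1253) (nat_lit 92) .nil))))))) (.g (nat_lit 4) .nil .nil))) 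
(.lf (nat_lit 231648) (.g (nat_lit 4866) (.e (nat_lit 98373) (nat_lit 29) (.e (nat_lit 450588) (nat_lit 10) (.e (nat_lit 573475) (nat_lit 12) (.e (nat_lit 57354) (nat_lit 0) (.e (nat_lit 7270) (nat_lit 385) (.e (nat_lit 122905) (nat_lit 12) (.e (nat_lit 336024) (nat_lit 3) .nil))))))) (.g (nat_lit 5) .nil .nil)))) (.nd (nat_lit 5) 
(.lf (nat_lit 231632) (.g (nat_lit 4491) (.e (nat_lit 98373) (nat_lit 29) (.e (nat_lit 450588) (nat_lit 10) (.e (nat_lit 573475) (nat_lit 12) (.e (nat_lit 57347) (nat_lit 0) (.e (nat_lit 7261) (nat_lit 384) (.e (nat_lit 57347) (nat_lit 0) (.e (nat_lit 7936) (nat_lit 343) (.e (nat_lit 1256) (nat_lit 92) .nil)))))))) (.g (nat_lit 4) .nil .nil))) 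
(.lf (nat_lit 231664) (.g (nat_lit 5750) (.e (nat_lit 98373) (nat_lit 29) (.e (nat_lit 450588) (nat_lit 10) (.e (nat_lit 573475) (nat_lit 12) (.e (nat_lit 57574) (nat_lit 55) (.e (nat_lit 778361) (nat_lit 9) (.e (nat_lit 228) (nat_lit 21) (.e (nat_lit 336023) (nat_lit 3) .nil))))))) (.g (nat_lit 5) .nil .nil))))) (.nd (nat_lit 4) (.nd (nat_lit 5) 
(.lf (nat_lit 231624) (.g (nat_lit 4327) (.e (nat_lit 98373) (nat_lit 29) (.e (nat_lit 450588) (nat_lit 10) (.e (nat_lit 573475) (nat_lit 12) (.e (nat_lit 57347) (nat_lit 0) (.e (nat_lit 7119) (nat_lit 382) (.e (nat_lit 1296) (nat_lit 96) (.e (nat_lit 131097) (nat_lit 3) .nil))))))) (.g (nat_lit 4) .nil .nil))) 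
(.lf (nat_lit 231656) (.g (nat_lit 3907) (.e (nat_lit 98373) (nat_lit 29) (.e (nat_lit 450588) (nat_lit 10) (.e (nat_lit 573475) (nat_lit 12) (.e (nat_lit 57570) (nat_lit 54) (.e (nat_lit 770058) (nat_lit 5) (.e (nat_lit 1464) (nat_lit 108) (.e (nat_lit 336028) (nat_lit 3) .nil))))))) (.g (nat_lit 0) .nil .nil)))) (.nd (nat_lit 5) 
(.lf (nat_lit 231640) (.g (nat_lit 4315) (.e (nat_lit 98373) (nat_lit 29) (.e (nat_lit 450588) (nat_lit 10) (.e (nat_lit 573475) (nat_lit 12) (.e (nat_lit 57348) (nat_lit 0) (.e (nat_lit 7265) (nat_lit 384) (.e (nat_lit 57347) (nat_lit 0) (.e (nat_lit 7936) (nat_lit 343) (.e (nat_lit 1255) (nat_lit 92) .nil)))))))) (.g (nat_lit 4) .nil .nil))) 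
(.lf (nat_lit 231672) (.g (nat_lit 3227) (.e (nat_lit 98373) (nat_lit 29) (.e (nat_lit 450588) (nat_lit 10) (.e (nat_lit 573475) (nat_lit 12) (.e (nat_lit 57574) (nat_lit 55) (.e (nat_lit 778362) (nat_lit 9) (.e (nat_lit 293) (nat_lit 21) (.e (nat_lit 343808) (nat_lit 3) .nil))))))) (.g (nat_lit 4) .nil .nil)))))) (.nd (nat_lit 3) (.nd (nat_lit 4) (.nd (nat_lit 5) 
(.lf (nat_lit 231620) (.g (nat_lit 2482) (.e (nat_lit 98373) (nat_lit 29) (.e (nat_lit 450588) (nat_lit 10) (.e (nat_lit 573474) (nat_lit 12) (.e (nat_lit 65280) (nat_lit 56) .nil)))) .nil)) 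
(.lf (nat_lit 231652) (.g (nat_lit 1349) (.e (nat_lit 98373) (nat_lit 29) (.e (nat_lit 450588) (nat_lit 10) (.e (nat_lit 573475) (nat_lit 12) (.e (nat_lit 57567) (nat_lit 52) .nil)))) .nil))) (.nd (nat_lit 5) 
(.lf (nat_lit 231636) (.g (nat_lit 5755) (.e (nat_lit 98373) (nat_lit 29) (.e (nat_lit 450588) (nat_lit 10) (.e (nat_lit 573475) (nat_lit 12) (.e (nat_lit 57347) (nat_lit 0) (.e (nat_lit 7266) (nat_lit 384) (.e (nat_lit 57415) (nat_lit 12) (.e (nat_lit 336023) (nat_lit 3) .nil))))))) (.g (nat_lit 5) .nil .nil))) 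
(.lf (nat_lit 231668) (.g (nat_lit 6605) (.e (nat_lit 98373) (nat_lit 29) (.e (nat_lit 450588) (nat_lit 10) (.e (nat_lit 573475) (nat_lit 12) (.e (nat_lit 57574) (nat_lit 55) (.e (nat_lit 778362) (nat_lit 9) (.e (nat_lit 232) (nat_lit 21) (.e (nat_lit 336023) (nat_lit 3) .nil))))))) (.g (nat_lit 6) .nil .nil))))) (.nd (nat_lit 4) (.nd (nat_lit 5) 
(.lf (nat_lit 231628) (.g (nat_lit 4356) (.e (nat_lit 98373) (nat_lit 29) (.e (nat_lit 450588) (nat_lit 10) (.e (nat_lit 573475) (nat_lit 12) (.e (nat_lit 57347) (nat_lit 0) (.e (nat_lit 7125) (nat_lit 382) (.e (nat_lit 1183) (nat_lit 87) (.e (nat_lit 65280) (nat_lit 187) (.e (nat_lit 1255) (nat_lit 92) .nil)))))))) (.g (nat_lit 4) .nil .nil))) 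
(.lf (nat_lit 231660) (.g (nat_lit 4762) (.e (nat_lit 98373) (nat_lit 29) (.e (nat_lit 450588) (nat_lit 10) (.e (nat_lit 573475) (nat_lit 12) (.e (nat_lit 57572) (nat_lit 54) (.e (nat_lit 770072) (nat_lit 8) (.e (nat_lit 65571) (nat_lit 3) .nil)))))) (.g (nat_lit 0) .nil .nil)))) (.nd (nat_lit 5) 
(.lf (nat_lit 231644) (.g (nat_lit 4150) (.e (nat_lit 98373) (nat_lit 29) (.e (nat_lit 450588) (nat_lit 10) (.e (nat_lit 573475) (nat_lit 12) (.e (nat_lit 57354) (nat_lit 0) (.e (nat_lit 7270) (nat_lit 385) (.e (nat_lit 122883) (nat_lit 0) (.e (nat_lit 7936) (nat_lit 343) (.e (nat_lit 1255) (nat_lit 92) .nil)))))))) (.g (nat_lit 4) .nil .nil))) 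
(.lf (nat_lit 231676) (.g (nat_lit 1436) (.e (nat_lit 98373) (nat_lit 29) (.e (nat_lit 450588) (nat_lit 10) (.e (nat_lit 573477) (nat_lit 12) (.e (nat_lit 57575) (nat_lit 55) .nil)))) .nil)))))) (.nd (nat_lit 2) (.nd (nat_lit 3) (.nd (nat_lit 4) (.nd (nat_lit 5) 
(.lf (nat_lit 231618) (.g (nat_lit 4351) (.e (nat_lit 98373) (nat_lit 29) (.e (nat_lit 450588) (nat_lit 10) (.e (nat_lit 573474) (nat_lit 12) (.e (nat_lit 57572) (nat_lit 54) (.e (nat_lit 770072) (nat_lit 8) (.e (nat_lit 73472) (nat_lit 3) .nil)))))) (.g (nat_lit 4) .nil .nil))) 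
(.lf (nat_lit 231650) (.g (nat_lit 3724) (.e (nat_lit 98373) (nat_lit 29) (.e (nat_lit 450588) (nat_lit 10) (.e (nat_lit 573475) (nat_lit 12) (.e (nat_lit 57354) (nat_lit 0) (.e (nat_lit 7273) (nat_lit 385) (.e (nat_lit 122909) (nat_lit 12) (.e (nat_lit 336017) (nat_lit 3) .nil))))))) (.g (nat_lit 4) .nil .nil)))) (.nd (nat_lit 5) 
(.lf (nat_lit 231634) (.g (nat_lit 3522) (.e (nat_lit 98373) (nat_lit 29) (.e (nat_lit 450588) (nat_lit 10) (.e (nat_lit 573475) (nat_lit 12) (.e (nat_lit 57347) (nat_lit 0) (.e (nat_lit 7263) (nat_lit 384) (.e (nat_lit 65280) (nat_lit 12) (.e (nat_lit 336027) (nat_lit 3) .nil))))))) (.g (nat_lit 4) .nil .nil))) 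
(.lf (nat_lit 231666) (.g (nat_lit 4147) (.e (nat_lit 98373) (nat_lit 29) (.e (nat_lit 450588) (nat_lit 10) (.e (nat_lit 573475) (nat_lit 12) (.e (nat_lit 57574) (nat_lit 55) (.e (nat_lit 778361) (nat_lit 9) (.e (nat_lit 252) (nat_lit 21) (.e (nat_lit 336025) (nat_lit 3) .nil))))))) (.g (nat_lit 5) .nil .nil))))) (.nd (nat_lit 4) (.nd (nat_lit 5) 
(.lf (nat_lit 231626) (.g (nat_lit 3046) (.e (nat_lit 98373) (nat_lit 29) (.e (nat_lit 450588) (nat_lit 10) (.e (nat_lit 573475) (nat_lit 12) (.e (nat_lit 57347) (nat_lit 0) (.e (nat_lit 7122) (nat_lit 382) (.e (nat_lit 1296) (nat_lit 96) (.e (nat_lit 131096) (nat_lit 3) .nil))))))) (.g (nat_lit 4) .nil .nil))) 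
(.lf (nat_lit 231658) (.g (nat_lit 4372) (.e (nat_lit 98373) (nat_lit 29) (.e (nat_lit 450588) (nat_lit 10) (.e (nat_lit 573475) (nat_lit 12) (.e (nat_lit 57572) (nat_lit 54) (.e (nat_lit 770055) (nat_lit 5) (.e (nat_lit 1464) (nat_lit 108) (.e (nat_lit 336028) (nat_lit 3) .nil))))))) (.g (nat_lit 0) .nil .nil)))) (.nd (nat_lit 5) 
(.lf (nat_lit 231642) (.g (nat_lit 5203) (.e (nat_lit 98373) (nat_lit 29) (.e (nat_lit 450588) (nat_lit 10) (.e (nat_lit 573475) (nat_lit 12) (.e (nat_lit 57348) (nat_lit 0) (.e (nat_lit 7265) (nat_lit 384) (.e (nat_lit 57354) (nat_lit 0) (.e (nat_lit 7936) (nat_lit 343) (.e (nat_lit 1255) (nat_lit 92) .nil)))))))) (.g (nat_lit 6) .nil .nil))) 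
(.lf (nat_lit 231674) (.g (nat_lit 1048) (.e (nat_lit 98373) (nat_lit 29) (.e (nat_lit 450588) (nat_lit 10) (.e (nat_lit 573477) (nat_lit 12) .nil))) .nil))))) (.nd (nat_lit 3) (.nd (nat_lit 4) (.nd (nat_lit 5) 
(.lf (nat_lit 231622) (.g (nat_lit 320) (.e (nat_lit 98373) (nat_lit 29) (.e (nat_lit 450588) (nat_lit 10) (.e (nat_lit 573475) (nat_lit 12) .nil))) .nil)) 
(.lf (nat_lit 231654) (.g (nat_lit 5247) (.e (nat_lit 98373) (nat_lit 29) (.e (nat_lit 450588) (nat_lit 10) (.e (nat_lit 573475) (nat_lit 12) (.e (nat_lit 57569) (nat_lit 53) (.e (nat_lit 761866) (nat_lit 5) (.e (nat_lit 1454) (nat_lit 108) (.e (nat_lit 336022) (nat_lit 3) .nil))))))) (.g (nat_lit 5) .nil .nil)))) (.nd (nat_lit 5) 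
(.lf (nat_lit 231638) (.g (nat_lit 4631) (.e (nat_lit 98373) (nat_lit 29) (.e (nat_lit 450588) (nat_lit 10) (.e (nat_lit 573475) (nat_lit 12) (.e (nat_lit 57348) (nat_lit 0) (.e (nat_lit 7124) (nat_lit 382) (.e (nat_lit 1296) (nat_lit 96) (.e (nat_lit 131098) (nat_lit 3) .nil))))))) (.g (nat_lit 6) .nil .nil))) 
(.lf (nat_lit 231670) (.g (nat_lit 3440) (.e (nat_lit 98373) (nat_lit 29) (.e (nat_lit 450588) (nat_lit 10) (.e (nat_lit 573475) (nat_lit 12) (.e (nat_lit 57574) (nat_lit 55) (.e (nat_lit 778362) (nat_lit 9) (.e (nat_lit 243) (nat_lit 21) (.e (nat_lit 336025) (nat_lit 3) .nil))))))) (.g (nat_lit 4) .nil .nil))))) (.nd (nat_lit 4) (.nd (nat_lit 5) 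
(.lf (nat_lit 231630) (.g (nat_lit 5529) (.e (nat_lit 98373) (nat_lit 29) (.e (nat_lit 450588) (nat_lit 10) (.e (nat_lit 573475) (nat_lit 12) (.e (nat_lit 57347) (nat_lit 0) (.e (nat_lit 7125) (nat_lit 382) (.e (nat_lit 1296) (nat_lit 96) (.e (nat_lit 131098) (nat_lit 3) .nil))))))) (.g (nat_lit 0) .nil .nil))) 
(.lf (nat_lit 231662) (.g (nat_lit 4973) (.e (nat_lit 98373) (nat_lit 29) (.e (nat_lit 450588) (nat_lit 10) (.e (nat_lit 573475) (nat_lit 12) (.e (nat_lit 57574) (nat_lit 55) (.e (nat_lit 778360) (nat_lit 9) (.e (nat_lit 232) (nat_lit 21) (.e (nat_lit 336023) (nat_lit 3) .nil))))))) (.g (nat_lit 4) .nil .nil)))) (.nd (nat_lit 5) 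
(.lf (nat_lit 231646) (.g (nat_lit 4265) (.e (nat_lit 98373) (nat_lit 29) (.e (nat_lit 450588) (nat_lit 10) (.e (nat_lit 573475) (nat_lit 12) (.e (nat_lit 57354) (nat_lit 0) (.e (nat_lit 7270) (nat_lit 385) (.e (nat_lit 122905) (nat_lit 12) (.e (nat_lit 336022) (nat_lit 3) .nil))))))) (.g (nat_lit 4) .nil .nil))) 
(.lf (nat_lit 231678) (.g (nat_lit 1058) (.e (nat_lit 98373) (nat_lit 29) (.e (nat_lit 450588) (nat_lit 10) (.e (nat_lit 573494) (nat_lit 16) .nil))) .nil))))))) (.nd (nat_lit 1) (.nd (nat_lit 2) (.nd (nat_lit 3) (.nd (nat_lit 4) (.nd (nat_lit 5) 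
(.lf (nat_lit 231617) (.g (nat_lit 3217) (.e (nat_lit 98373) (nat_lit 29) (.e (nat_lit 450588) (nat_lit 10) (.e (nat_lit 573474) (nat_lit 12) (.e (nat_lit 57572) (nat_lit 54) (.e (nat_lit 770071) (nat_lit 8) (.e (nat_lit 65571) (nat_lit 3) .nil)))))) (.g (nat_lit 4) .nil .nil))) 
(.lf (nat_lit 231649) (.g (nat_lit 5323) (.e (nat_lit 98373) (nat_lit 29) (.e (nat_lit 450588) (nat_lit 10) (.e (nat_lit 573475) (nat_lit 12) (.e (nat_lit 57354) (nat_lit 0) (.e (nat_lit 7270) (nat_lit 385) (.e (nat_lit 122906) (nat_lit 12) (.e (nat_lit 336022) (nat_lit 3) .nil))))))) (.g (nat_lit 5) .nil .nil)))) (.nd (nat_lit 5) 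
(.lf (nat_lit 231633) (.g (nat_lit 4239) (.e (nat_lit 98373) (nat_lit 29) (.e (nat_lit 450588) (nat_lit 10) (.e (nat_lit 573475) (nat_lit 12) (.e (nat_lit 57347) (nat_lit 0) (.e (nat_lit 7261) (nat_lit 384) (.e (nat_lit 57354) (nat_lit 0) (.e (nat_lit 7936) (nat_lit 343) (.e (nat_lit 1255) (nat_lit 92) .nil)))))))) (.g (nat_lit 4) .nil .nil))) 
(.lf (nat_lit 231665) (.g (nat_lit 4317) (.e (nat_lit 98373) (nat_lit 29) (.e (nat_lit 450588) (nat_lit 10) (.e (nat_lit 573475) (nat_lit 12) (.e (nat_lit 57574) (nat_lit 55) (.e (nat_lit 778361) (nat_lit 9) (.e (nat_lit 246) (nat_lit 21) (.e (nat_lit 336025) (nat_lit 3) .nil))))))) (.g (nat_lit 5) .nil .nil))))) (.nd (nat_lit 4) (.nd (nat_lit 5) 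
(.lf (nat_lit 231625) (.g (nat_lit 3659) (.e (nat_lit 98373) (nat_lit 29) (.e (nat_lit 450588) (nat_lit 10) (.e (nat_lit 573475) (nat_lit 12) (.e (nat_lit 57347) (nat_lit 0) (.e (nat_lit 7119) (nat_lit 382) (.e (nat_lit 1296) (nat_lit 96) (.e (nat_lit 131098) (nat_lit 3) .nil))))))) (.g (nat_lit 4) .nil .nil))) 
(.lf (nat_lit 231657) (.g (nat_lit 4098) (.e (nat_lit 98373) (nat_lit 29) (.e (nat_lit 450588) (nat_lit 10) (.e (nat_lit 573475) (nat_lit 12) (.e (nat_lit 57570) (nat_lit 54) (.e (nat_lit 770072) (nat_lit 8) (.e (nat_lit 65569) (nat_lit 3) .nil)))))) (.g (nat_lit 0) .nil .nil)))) (.nd (nat_lit 5) 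
(.lf (nat_lit 231641) (.g (nat_lit 5327) (.e (nat_lit 98373) (nat_lit 29) (.e (nat_lit 450588) (nat_lit 10) (.e (nat_lit 573475) (nat_lit 12) (.e (nat_lit 57348) (nat_lit 0) (.e (nat_lit 7265) (nat_lit 384) (.e (nat_lit 57347) (nat_lit 0) (.e (nat_lit 7936) (nat_lit 343) (.e (nat_lit 1256) (nat_lit 92) .nil)))))))) (.g (nat_lit 6) .nil .nil))) 
(.lf (nat_lit 231673) (.g (nat_lit 816) (.e (nat_lit 98373) (nat_lit 29) (.e (nat_lit 450588) (nat_lit 10) (.e (nat_lit 573476) (nat_lit 12) .nil))) .nil))))) (.nd (nat_lit 3) (.nd (nat_lit 4) (.nd (nat_lit 5) 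
(.lf (nat_lit 231621) (.g (nat_lit 2482) (.e (nat_lit 98373) (nat_lit 29) (.e (nat_lit 450588) (nat_lit 10) (.e (nat_lit 573474) (nat_lit 12) (.e (nat_lit 65280) (nat_lit 57) .nil)))) .nil)) 
(.lf (nat_lit 231653) (.g (nat_lit 4653) (.e (nat_lit 98373) (nat_lit 29) (.e (nat_lit 450588) (nat_lit 10) (.e (nat_lit 573475) (nat_lit 12) (.e (nat_lit 57568) (nat_lit 53) (.e (nat_lit 761866) (nat_lit 5) (.e (nat_lit 1454) (nat_lit 108) (.e (nat_lit 336022) (nat_lit 3) .nil))))))) (.g (nat_lit 6) .nil .nil)))) (.nd (nat_lit 5) 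
(.lf (nat_lit 231637) (.g (nat_lit 5163) (.e (nat_lit 98373) (nat_lit 29) (.e (nat_lit 450588) (nat_lit 10) (.e (nat_lit 573475) (nat_lit 12) (.e (nat_lit 57348) (nat_lit 0) (.e (nat_lit 7124) (nat_lit 382) (.e (nat_lit 1296) (nat_lit 96) (.e (nat_lit 131097) (nat_lit 3) .nil))))))) (.g (nat_lit 6) .nil .nil))) 
(.lf (nat_lit 231669) (.g (nat_lit 4260) (.e (nat_lit 98373) (nat_lit 29) (.e (nat_lit 450588) (nat_lit 10) (.e (nat_lit 573475) (nat_lit 12) (.e (nat_lit 57574) (nat_lit 55) (.e (nat_lit 778362) (nat_lit 9) (.e (nat_lit 239) (nat_lit 21) (.e (nat_lit 343808) (nat_lit 3) .nil))))))) (.g (nat_lit 5) .nil .nil))))) (.nd (nat_lit 4) (.nd (nat_lit 5) 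
(.lf (nat_lit 231629) (.g (nat_lit 4969) (.e (nat_lit 98373) (nat_lit 29) (.e (nat_lit 450588) (nat_lit 10) (.e (nat_lit 573475) (nat_lit 12) (.e (nat_lit 57347) (nat_lit 0) (.e (nat_lit 7125) (nat_lit 382) (.e (nat_lit 1296) (nat_lit 96) (.e (nat_lit 131095) (nat_lit 3) .nil))))))) (.g (nat_lit 4) .nil .nil))) 
(.lf (nat_lit 231661) (.g (nat_lit 3423) (.e (nat_lit 98373) (nat_lit 29) (.e (nat_lit 450588) (nat_lit 10) (.e (nat_lit 573475) (nat_lit 12) (.e (nat_lit 57574) (nat_lit 55) (.e (nat_lit 778359) (nat_lit 9) (.e (nat_lit 254) (nat_lit 21) (.e (nat_lit 336025) (nat_lit 3) .nil))))))) (.g (nat_lit 4) .nil .nil)))) (.nd (nat_lit 5) 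
(.lf (nat_lit 231645) (.g (nat_lit 4831) (.e (nat_lit 98373) (nat_lit 29) (.e (nat_lit 450588) (nat_lit 10) (.e (nat_lit 573475) (nat_lit 12) (.e (nat_lit 57354) (nat_lit 0) (.e (nat_lit 7270) (nat_lit 385) (.e (nat_lit 122903) (nat_lit 12) (.e (nat_lit 336023) (nat_lit 3) .nil))))))) (.g (nat_lit 4) .nil .nil))) 
(.lf (nat_lit 231677) (.g (nat_lit 794) (.e (nat_lit 98373) (nat_lit 29) (.e (nat_lit 450588) (nat_lit 10) (.e (nat_lit 573478) (nat_lit 12) .nil))) .nil)))))) (.nd (nat_lit 2) (.nd (nat_lit 3) (.nd (nat_lit 4) (.nd (nat_lit 5) 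
(.lf (nat_lit 231619) (.g (nat_lit 2532) (.e (nat_lit 98373) (nat_lit 29) (.e (nat_lit 450588) (nat_lit 10) (.e (nat_lit 573474) (nat_lit 12) (.e (nat_lit 57573) (nat_lit 55) .nil)))) .nil)) 
(.lf (nat_lit 231651) (.g (nat_lit 1472) (.e (nat_lit 98373) (nat_lit 29) (.e (nat_lit 450588) (nat_lit 10) (.e (nat_lit 573475) (nat_lit 12) (.e (nat_lit 57565) (nat_lit 52) .nil)))) .nil))) (.nd (nat_lit 5) 
(.lf (nat_lit 231635) (.g (nat_lit 4416) (.e (nat_lit 98373) (nat_lit 29) (.e (nat_lit 450588) (nat_lit 10) (.e (nat_lit 573475) (nat_lit 12) (.e (nat_lit 57347) (nat_lit 0) (.e (nat_lit 7265) (nat_lit 384) (.e (nat_lit 57347) (nat_lit 0) (.e (nat_lit 6481) (nat_lit 343) (.e (nat_lit 1255) (nat_lit 92) .nil)))))))) (.g (nat_lit 4) .nil .nil))) 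
(.lf (nat_lit 231667) (.g (nat_lit 4134) (.e (nat_lit 98373) (nat_lit 29) (.e (nat_lit 450588) (nat_lit 10) (.e (nat_lit 573475) (nat_lit 12) (.e (nat_lit 57574) (nat_lit 55) (.e (nat_lit 778361) (nat_lit 9) (.e (nat_lit 254) (nat_lit 21) (.e (nat_lit 336025) (nat_lit 3) .nil))))))) (.g (nat_lit 5) .nil .nil))))) (.nd (nat_lit 4) (.nd (nat_lit 5) 
(.lf (nat_lit 231627) (.g (nat_lit 3788) (.e (nat_lit 98373) (nat_lit 29) (.e (nat_lit 450588) (nat_lit 10) (.e (nat_lit 573475) (nat_lit 12) (.e (nat_lit 57347) (nat_lit 0) (.e (nat_lit 7122) (nat_lit 382) (.e (nat_lit 1296) (nat_lit 96) (.e (nat_lit 131098) (nat_lit 3) .nil))))))) (.g (nat_lit 4) .nil .nil))) 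
(.lf (nat_lit 231659) (.g (nat_lit 4669) (.e (nat_lit 98373) (nat_lit 29) (.e (nat_lit 450588) (nat_lit 10) (.e (nat_lit 573475) (nat_lit 12) (.e (nat_lit 57572) (nat_lit 54) (.e (nat_lit 770072) (nat_lit 8) (.e (nat_lit 65569) (nat_lit 3) .nil)))))) (.g (nat_lit 0) .nil .nil)))) (.nd (nat_lit 5) 
(.lf (nat_lit 231643) (.g (nat_lit 3922) (.e (nat_lit 98373) (nat_lit 29) (.e (nat_lit 450588) (nat_lit 10) (.e (nat_lit 573475) (nat_lit 12) (.e (nat_lit 57351) (nat_lit 0) (.e (nat_lit 7125) (nat_lit 382) (.e (nat_lit 1296) (nat_lit 96) (.e (nat_lit 131096) (nat_lit 3) .nil))))))) (.g (nat_lit 0) .nil .nil))) 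
(.lf (nat_lit 231675) (.g (nat_lit 1672) (.e (nat_lit 98373) (nat_lit 29) (.e (nat_lit 450588) (nat_lit 10) (.e (nat_lit 573477) (nat_lit 12) (.e (nat_lit 57574) (nat_lit 55) .nil)))) .nil))))) (.nd (nat_lit 3) (.nd (nat_lit 4) (.nd (nat_lit 5) 
(.lf (nat_lit 231623) (.g (nat_lit 1440) (.e (nat_lit 98373) (nat_lit 29) (.e (nat_lit 450588) (nat_lit 10) (.e (nat_lit 573475) (nat_lit 12) (.e (nat_lit 57345) (nat_lit 0) .nil)))) .nil)) 
(.lf (nat_lit 231655) (.g (nat_lit 3944) (.e (nat_lit 98373) (nat_lit 29) (.e (nat_lit 450588) (nat_lit 10) (.e (nat_lit 573475) (nat_lit 12) (.e (nat_lit 57570) (nat_lit 54) (.e (nat_lit 770055) (nat_lit 5) (.e (nat_lit 1464) (nat_lit 108) (.e (nat_lit 336028) (nat_lit 3) .nil))))))) (.g (nat_lit 0) .nil .nil)))) (.nd (nat_lit 5) 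
(.lf (nat_lit 231639) (.g (nat_lit 4059) (.e (nat_lit 98373) (nat_lit 29) (.e (nat_lit 450588) (nat_lit 10) (.e (nat_lit 573475) (nat_lit 12) (.e (nat_lit 57348) (nat_lit 0) (.e (nat_lit 7125) (nat_lit 382) (.e (nat_lit 1296) (nat_lit 96) (.e (nat_lit 131096) (nat_lit 3) .nil))))))) (.g (nat_lit 6) .nil .nil))) 
(.lf (nat_lit 231671) (.g (nat_lit 3492) (.e (nat_lit 98373) (nat_lit 29) (.e (nat_lit 450588) (nat_lit 10) (.e (nat_lit 573475) (nat_lit 12) (.e (nat_lit 57574) (nat_lit 55) (.e (nat_lit 778362) (nat_lit 9) (.e (nat_lit 245) (nat_lit 21) (.e (nat_lit 336025) (nat_lit 3) .nil))))))) (.g (nat_lit 4) .nil .nil))))) (.nd (nat_lit 4) (.nd (nat_lit 5) 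
(.lf (nat_lit 231631) (.g (nat_lit 5202) (.e (nat_lit 98373) (nat_lit 29) (.e (nat_lit 450588) (nat_lit 10) (.e (nat_lit 573475) (nat_lit 12) (.e (nat_lit 57347) (nat_lit 0) (.e (nat_lit 7247) (nat_lit 383) (.e (nat_lit 8210) (nat_lit 8) (.e (nat_lit 294930) (nat_lit 3) .nil))))))) (.g (nat_lit 4) .nil .nil))) 
(.lf (nat_lit 231663) (.g (nat_lit 3501) (.e (nat_lit 98373) (nat_lit 29) (.e (nat_lit 450588) (nat_lit 10) (.e (nat_lit 573475) (nat_lit 12) (.e (nat_lit 57574) (nat_lit 55) (.e (nat_lit 778360) (nat_lit 9) (.e (nat_lit 246) (nat_lit 21) (.e (nat_lit 336025) (nat_lit 3) .nil))))))) (.g (nat_lit 4) .nil .nil)))) (.nd (nat_lit 5) 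
(.lf (nat_lit 231647) (.g (nat_lit 5795) (.e (nat_lit 98373) (nat_lit 29) (.e (nat_lit 450588) (nat_lit 10) (.e (nat_lit 573475) (nat_lit 12) (.e (nat_lit 57354) (nat_lit 0) (.e (nat_lit 7270) (nat_lit 385) (.e (nat_lit 122905) (nat_lit 12) (.e (nat_lit 336023) (nat_lit 3) .nil))))))) (.g (nat_lit 5) .nil .nil))) 
(.lf (nat_lit 231679) (.g (nat_lit 767) (.e (nat_lit 98373) (nat_lit 29) (.e (nat_lit 450588) (nat_lit 10) (.e (nat_lit 573495) (nat_lit 16) .nil))) .nil))))))))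

noncomputable def tv3032 : DT := (.nd (nat_lit 0) (.nd (nat_lit 1) (.nd (nat_lit 2) (.nd (nat_lit 3) (.nd (nat_lit 4) (.nd (nat_lit 5) (.nd (nat_lit 6) 
(.lf (nat_lit 231680) (.g (nat_lit 2076) (.e (nat_lit 98373) (nat_lit 29) (.e (nat_lit 450599) (nat_lit 19) (.e (nat_lit 679974) (nat_lit 15) (.e (nat_lit 24665) (nat_lit 14) (.e (nat_lit 409344) (nat_lit 18) .nil))))) (.g (nat_lit 4) .nil .nil))) 
(.lf (nat_lit 231744) (.g (nat_lit 1340) (.e (nat_lit 98375) (nat_lit 30) (.e (nat_lit 458789) (nat_lit 23) (.e (nat_lit 532513) (nat_lit 3) .nil))) .nil))) (.nd (nat_lit 6) 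
(.lf (nat_lit 231712) (.g (nat_lit 612) (.e (nat_lit 98374) (nat_lit 29) (.e (nat_lit 450586) (nat_lit 10) (.e (nat_lit 573470) (nat_lit 11) .nil))) .nil)) 
(.lf (nat_lit 231776) (.g (nat_lit 802) (.e (nat_lit 98376) (nat_lit 30) (.e (nat_lit 458789) (nat_lit 23) (.e (nat_lit 532506) (nat_lit 2) .nil))) .nil)))) (.nd (nat_lit 5) (.nd (nat_lit 6) 
(.lf (nat_lit 231696) (.g (nat_lit 2675) (.e (nat_lit 98374) (nat_lit 29) (.e (nat_lit 450580) (nat_lit 5) (.e (nat_lit 532523) (nat_lit 7) (.e (nat_lit 319504) (nat_lit 10) (.e (nat_lit 5258) (nat_lit 298) .nil))))) .nil)) 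
(.lf (nat_lit 231760) (.g (nat_lit 2318) (.e (nat_lit 98376) (nat_lit 30) (.e (nat_lit 458789) (nat_lit 23) (.e (nat_lit 532499) (nat_lit 1) (.e (nat_lit 57688) (nat_lit 156) (.e (nat_lit 163867) (nat_lit 2) .nil))))) .nil))) (.nd (nat_lit 6) 
(.lf (nat_lit 231728) (.g (nat_lit 432) (.e (nat_lit 106240) (nat_lit 29) (.e (nat_lit 450586) (nat_lit 10) (.e (nat_lit 573449) (nat_lit 9) .nil))) .nil)) 
(.lf (nat_lit 231792) (.g (nat_lit 1421) (.e (nat_lit 98376) (nat_lit 30) (.e (nat_lit 458789) (nat_lit 23) (.e (nat_lit 532515) (nat_lit 3) (.e (nat_lit 114716) (nat_lit 22) (.e (nat_lit 90137) (nat_lit 9) .nil))))) .nil))))) (.nd (nat_lit 4) (.nd (nat_lit 5) (.nd (nat_lit 6) 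
(.lf (nat_lit 231688) (.g (nat_lit 2396) (.e (nat_lit 98374) (nat_lit 29) (.e (nat_lit 450575) (nat_lit 1) (.e (nat_lit 499991) (nat_lit 14) (.e (nat_lit 1399) (nat_lit 106) (.e (nat_lit 319531) (nat_lit 16) (.e (nat_lit 286735) (nat_lit 3) .nil)))))) (.g (nat_lit 0) .nil .nil))) 
(.lf (nat_lit 231752) (.g (nat_lit 840) (.e (nat_lit 98376) (nat_lit 30) (.e (nat_lit 458789) (nat_lit 23) (.e (nat_lit 532481) (nat_lit 0) .nil))) .nil))) (.nd (nat_lit 6) 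
(.lf (nat_lit 231720) (.g (nat_lit 1797) (.e (nat_lit 98374) (nat_lit 29) (.e (nat_lit 450586) (nat_lit 10) (.e (nat_lit 573475) (nat_lit 12) (.e (nat_lit 57570) (nat_lit 54) (.e (nat_lit 770071) (nat_lit 8) .nil))))) .nil)) 
(.lf (nat_lit 231784) (.g (nat_lit 1002) (.e (nat_lit 98376) (nat_lit 30) (.e (nat_lit 458789) (nat_lit 23) (.e (nat_lit 532515) (nat_lit 3) (.e (nat_lit 122624) (nat_lit 2) .nil)))) .nil)))) (.nd (nat_lit 5) (.nd (nat_lit 6) 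
(.lf (nat_lit 231704) (.g (nat_lit 3605) (.e (nat_lit 98374) (nat_lit 29) (.e (nat_lit 450580) (nat_lit 5) (.e (nat_lit 532523) (nat_lit 7) (.e (nat_lit 319533) (nat_lit 16) (.e (nat_lit 286735) (nat_lit 3) .nil))))) (.g (nat_lit 0) .nil .nil))) 
(.lf (nat_lit 231768) (.g (nat_lit 1723) (.e (nat_lit 98376) (nat_lit 30) (.e (nat_lit 458789) (nat_lit 23) (.e (nat_lit 532501) (nat_lit 1) (.e (nat_lit 57730) (nat_lit 181) (.e (nat_lit 1170) (nat_lit 87) .nil))))) .nil))) (.nd (nat_lit 6) 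
(.lf (nat_lit 231736) (.g (nat_lit 2837) (.e (nat_lit 98375) (nat_lit 30) (.e (nat_lit 458789) (nat_lit 23) (.e (nat_lit 532481) (nat_lit 0) (.e (nat_lit 2031) (nat_lit 140) (.e (nat_lit 688171) (nat_lit 15) .nil))))) .nil)) 
(.lf (nat_lit 231800) (.g (nat_lit 890) (.e (nat_lit 98376) (nat_lit 30) (.e (nat_lit 458789) (nat_lit 23) (.e (nat_lit 532515) (nat_lit 3) (.e (nat_lit 114719) (nat_lit 23) .nil)))) .nil)))))) (.nd (nat_lit 3) (.nd (nat_lit 4) (.nd (nat_lit 5) (.nd (nat_lit 6) 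
(.lf (nat_lit 231684) (.g (nat_lit 2799) (.e (nat_lit 98373) (nat_lit 29) (.e (nat_lit 450605) (nat_lit 27) (.e (nat_lit 745491) (nat_lit 4) (.e (nat_lit 65630) (nat_lit 14) (.e (nat_lit 409344) (nat_lit 18) .nil))))) (.g (nat_lit 4) .nil .nil))) 
(.lf (nat_lit 231748) (.g (nat_lit 1943) (.e (nat_lit 98375) (nat_lit 30) (.e (nat_lit 458789) (nat_lit 23) (.e (nat_lit 532515) (nat_lit 3) (.e (nat_lit 114716) (nat_lit 22) .nil)))) .nil))) (.nd (nat_lit 6) 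
(.lf (nat_lit 231716) (.g (nat_lit 325) (.e (nat_lit 98374) (nat_lit 29) (.e (nat_lit 450586) (nat_lit 10) (.e (nat_lit 573475) (nat_lit 12) .nil))) .nil)) 
(.lf (nat_lit 231780) (.g (nat_lit 1201) (.e (nat_lit 98376) (nat_lit 30) (.e (nat_lit 458789) (nat_lit 23) (.e (nat_lit 532513) (nat_lit 3) (.e (nat_lit 122624) (nat_lit 2) .nil)))) .nil)))) (.nd (nat_lit 5) (.nd (nat_lit 6) 
(.lf (nat_lit 231700) (.g (nat_lit 1907) (.e (nat_lit 98374) (nat_lit 29) (.e (nat_lit 450580) (nat_lit 5) (.e (nat_lit 532523) (nat_lit 7) (.e (nat_lit 319511) (nat_lit 10) (.e (nat_lit 5270) (nat_lit 298) (.e (nat_lit 1256) (nat_lit 92) .nil)))))) (.g (nat_lit 4) .nil .nil))) 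
(.lf (nat_lit 231764) (.g (nat_lit 1820) (.e (nat_lit 98376) (nat_lit 30) (.e (nat_lit 458789) (nat_lit 23) (.e (nat_lit 532499) (nat_lit 1) (.e (nat_lit 57754) (nat_lit 209) .nil)))) .nil))) (.nd (nat_lit 6) 
(.lf (nat_lit 231732) (.g (nat_lit 1959) (.e (nat_lit 106240) (nat_lit 29) (.e (nat_lit 450588) (nat_lit 10) (.e (nat_lit 573474) (nat_lit 12) (.e (nat_lit 65280) (nat_lit 57) .nil)))) .nil)) 
(.lf (nat_lit 231796) (.g (nat_lit 1993) (.e (nat_lit 98376) (nat_lit 30) (.e (nat_lit 458789) (nat_lit 23) (.e (nat_lit 532515) (nat_lit 3) (.e (nat_lit 114716) (nat_lit 22) (.e (nat_lit 90180) (nat_lit 16) .nil))))) .nil))))) (.nd (nat_lit 4) (.nd (nat_lit 5) (.nd (nat_lit 6) 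
(.lf (nat_lit 231692) (.g (nat_lit 687) (.e (nat_lit 98374) (nat_lit 29) (.e (nat_lit 450579) (nat_lit 5) (.e (nat_lit 532486) (nat_lit 0) .nil))) .nil)) 
(.lf (nat_lit 231756) (.g (nat_lit 1117) (.e (nat_lit 98376) (nat_lit 30) (.e (nat_lit 458789) (nat_lit 23) (.e (nat_lit 532484) (nat_lit 0) (.e (nat_lit 2031) (nat_lit 140) .nil)))) .nil))) (.nd (nat_lit 6) 
(.lf (nat_lit 231724) (.g (nat_lit 1890) (.e (nat_lit 106240) (nat_lit 29) (.e (nat_lit 450579) (nat_lit 5) (.e (nat_lit 532523) (nat_lit 7) (.e (nat_lit 319533) (nat_lit 16) (.e (nat_lit 286734) (nat_lit 3) .nil))))) .nil)) 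
(.lf (nat_lit 231788) (.g (nat_lit 1399) (.e (nat_lit 98376) (nat_lit 30) (.e (nat_lit 458789) (nat_lit 23) (.e (nat_lit 532515) (nat_lit 3) (.e (nat_lit 114715) (nat_lit 22) (.e (nat_lit 90203) (nat_lit 21) (.e (nat_lit 164358) (nat_lit 246) (.e (nat_lit 112) (nat_lit 3) .nil))))))) (.g (nat_lit 4) .nil .nil))))) (.nd (nat_lit 5) (.nd (nat_lit 6) 
(.lf (nat_lit 231708) (.g (nat_lit 518) (.e (nat_lit 98374) (nat_lit 29) (.e (nat_lit 450583) (nat_lit 7) (.e (nat_lit 548898) (nat_lit 14) .nil))) .nil)) 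
(.lf (nat_lit 231772) (.g (nat_lit 2182) (.e (nat_lit 98376) (nat_lit 30) (.e (nat_lit 458789) (nat_lit 23) (.e (nat_lit 532502) (nat_lit 1) (.e (nat_lit 57688) (nat_lit 156) (.e (nat_lit 163867) (nat_lit 2) .nil))))) .nil))) (.nd (nat_lit 6) 
(.lf (nat_lit 231740) (.g (nat_lit 2680) (.e (nat_lit 98375) (nat_lit 30) (.e (nat_lit 458789) (nat_lit 23) (.e (nat_lit 532484) (nat_lit 0) (.e (nat_lit 2031) (nat_lit 140) (.e (nat_lit 688171) (nat_lit 15) (.e (nat_lit 57478) (nat_lit 28) (.e (nat_lit 557098) (nat_lit 13) (.e (nat_lit 179968) (nat_lit 18) .nil)))))))) (.g (nat_lit 4) .nil .nil))) 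
(.lf (nat_lit 231804) (.g (nat_lit 2170) (.e (nat_lit 98376) (nat_lit 30) (.e (nat_lit 458789) (nat_lit 23) (.e (nat_lit 532579) (nat_lit 26) (.e (nat_lit 426123) (nat_lit 2) (.e (nat_lit 196661) (nat_lit 12) .nil))))) .nil))))))) (.nd (nat_lit 2) (.nd (nat_lit 3) (.nd (nat_lit 4) (.nd (nat_lit 5) (.nd (nat_lit 6) 
(.lf (nat_lit 231682) (.g (nat_lit 2183) (.e (nat_lit 98373) (nat_lit 29) (.e (nat_lit 450601) (nat_lit 21) (.e (nat_lit 696341) (nat_lit 7) (.e (nat_lit 164030) (nat_lit 53) (.e (nat_lit 761903) (nat_lit 16) (.e (nat_lit 179968) (nat_lit 18) .nil)))))) (.g (nat_lit 4) .nil .nil))) 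
(.lf (nat_lit 231746) (.g (nat_lit 1231) (.e (nat_lit 98375) (nat_lit 30) (.e (nat_lit 458789) (nat_lit 23) (.e (nat_lit 532515) (nat_lit 3) .nil))) .nil))) (.nd (nat_lit 6) 
(.lf (nat_lit 231714) (.g (nat_lit 1405) (.e (nat_lit 98374) (nat_lit 29) (.e (nat_lit 450586) (nat_lit 10) (.e (nat_lit 573471) (nat_lit 11) (.e (nat_lit 16473) (nat_lit 14) .nil)))) .nil)) 
(.lf (nat_lit 231778) (.g (nat_lit 1130) (.e (nat_lit 98376) (nat_lit 30) (.e (nat_lit 458789) (nat_lit 23) (.e (nat_lit 532508) (nat_lit 2) (.e (nat_lit 114432) (nat_lit 0) .nil)))) .nil)))) (.nd (nat_lit 5) (.nd (nat_lit 6) 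
(.lf (nat_lit 231698) (.g (nat_lit 2607) (.e (nat_lit 98374) (nat_lit 29) (.e (nat_lit 450580) (nat_lit 5) (.e (nat_lit 532523) (nat_lit 7) (.e (nat_lit 319504) (nat_lit 10) (.e (nat_lit 5272) (nat_lit 298) (.e (nat_lit 1256) (nat_lit 92) .nil)))))) (.g (nat_lit 4) .nil .nil))) 
(.lf (nat_lit 231762) (.g (nat_lit 2545) (.e (nat_lit 98376) (nat_lit 30) (.e (nat_lit 458789) (nat_lit 23) (.e (nat_lit 532499) (nat_lit 1) (.e (nat_lit 57688) (nat_lit 156) (.e (nat_lit 163874) (nat_lit 3) .nil))))) .nil))) (.nd (nat_lit 6) 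
(.lf (nat_lit 231730) (.g (nat_lit 1930) (.e (nat_lit 106240) (nat_lit 29) (.e (nat_lit 450587) (nat_lit 10) (.e (nat_lit 573456) (nat_lit 9) (.e (nat_lit 1312) (nat_lit 98) .nil)))) .nil)) 
(.lf (nat_lit 231794) (.g (nat_lit 1717) (.e (nat_lit 98376) (nat_lit 30) (.e (nat_lit 458789) (nat_lit 23) (.e (nat_lit 532515) (nat_lit 3) (.e (nat_lit 114716) (nat_lit 22) (.e (nat_lit 90162) (nat_lit 12) .nil))))) .nil))))) (.nd (nat_lit 4) (.nd (nat_lit 5) (.nd (nat_lit 6) 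
(.lf (nat_lit 231690) (.g (nat_lit 2221) (.e (nat_lit 98374) (nat_lit 29) (.e (nat_lit 450575) (nat_lit 1) (.e (nat_lit 499991) (nat_lit 14) (.e (nat_lit 1399) (nat_lit 106) (.e (nat_lit 319533) (nat_lit 16) (.e (nat_lit 286734) (nat_lit 3) .nil)))))) (.g (nat_lit 0) .nil .nil))) 
(.lf (nat_lit 231754) (.g (nat_lit 2633) (.e (nat_lit 98376) (nat_lit 30) (.e (nat_lit 458789) (nat_lit 23) (.e (nat_lit 532481) (nat_lit 0) (.e (nat_lit 2031) (nat_lit 140) (.e (nat_lit 688171) (nat_lit 15) (.e (nat_lit 57478) (nat_lit 28) (.e (nat_lit 557096) (nat_lit 13) (.e (nat_lit 179968) (nat_lit 18) .nil)))))))) (.g (nat_lit 5) .nil .nil)))) (.nd (nat_lit 6) 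
(.lf (nat_lit 231722) (.g (nat_lit 1977) (.e (nat_lit 98374) (nat_lit 29) (.e (nat_lit 450586) (nat_lit 10) (.e (nat_lit 573477) (nat_lit 12) (.e (nat_lit 57575) (nat_lit 55) (.e (nat_lit 778380) (nat_lit 9) .nil))))) .nil)) 
(.lf (nat_lit 231786) (.g (nat_lit 950) (.e (nat_lit 98376) (nat_lit 30) (.e (nat_lit 458789) (nat_lit 23) (.e (nat_lit 532515) (nat_lit 3) (.e (nat_lit 114702) (nat_lit 20) .nil)))) .nil)))) (.nd (nat_lit 5) (.nd (nat_lit 6) 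
(.lf (nat_lit 231706) (.g (nat_lit 958) (.e (nat_lit 98374) (nat_lit 29) (.e (nat_lit 450580) (nat_lit 5) (.e (nat_lit 532523) (nat_lit 7) (.e (nat_lit 319534) (nat_lit 16) .nil)))) .nil)) 
(.lf (nat_lit 231770) (.g (nat_lit 1535) (.e (nat_lit 98376) (nat_lit 30) (.e (nat_lit 458789) (nat_lit 23) (.e (nat_lit 532501) (nat_lit 1) (.e (nat_lit 57754) (nat_lit 209) .nil)))) .nil))) (.nd (nat_lit 6) 
(.lf (nat_lit 231738) (.g (nat_lit 2634) (.e (nat_lit 98375) (nat_lit 30) (.e (nat_lit 458789) (nat_lit 23) (.e (nat_lit 532484) (nat_lit 0) (.e (nat_lit 2031) (nat_lit 140) (.e (nat_lit 688170) (nat_lit 15) .nil))))) .nil)) 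
(.lf (nat_lit 231802) (.g (nat_lit 843) (.e (nat_lit 98376) (nat_lit 30) (.e (nat_lit 458789) (nat_lit 23) (.e (nat_lit 532519) (nat_lit 5) .nil))) .nil)))))) (.nd (nat_lit 3) (.nd (nat_lit 4) (.nd (nat_lit 5) (.nd (nat_lit 6) 
(.lf (nat_lit 231686) (.g (nat_lit 1812) (.e (nat_lit 98374) (nat_lit 29) (.e (nat_lit 450575) (nat_lit 1) (.e (nat_lit 499991) (nat_lit 14) (.e (nat_lit 1399) (nat_lit 106) (.e (nat_lit 319528) (nat_lit 16) (.e (nat_lit 286735) (nat_lit 3) .nil)))))) (.g (nat_lit 0) .nil .nil))) 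
(.lf (nat_lit 231750) (.g (nat_lit 2746) (.e (nat_lit 98375) (nat_lit 30) (.e (nat_lit 458789) (nat_lit 23) (.e (nat_lit 532515) (nat_lit 3) (.e (nat_lit 114719) (nat_lit 23) (.e (nat_lit 98333) (nat_lit 18) .nil))))) .nil))) (.nd (nat_lit 6) 
(.lf (nat_lit 231718) (.g (nat_lit 1968) (.e (nat_lit 98374) (nat_lit 29) (.e (nat_lit 450586) (nat_lit 10) (.e (nat_lit 573475) (nat_lit 12) (.e (nat_lit 57348) (nat_lit 0) .nil)))) .nil)) 
(.lf (nat_lit 231782) (.g (nat_lit 1101) (.e (nat_lit 98376) (nat_lit 30) (.e (nat_lit 458789) (nat_lit 23) (.e (nat_lit 532513) (nat_lit 3) (.e (nat_lit 114714) (nat_lit 22) .nil)))) .nil)))) (.nd (nat_lit 5) (.nd (nat_lit 6) 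
(.lf (nat_lit 231702) (.g (nat_lit 3471) (.e (nat_lit 98374) (nat_lit 29) (.e (nat_lit 450580) (nat_lit 5) (.e (nat_lit 532523) (nat_lit 7) (.e (nat_lit 319531) (nat_lit 16) (.e (nat_lit 286735) (nat_lit 3) .nil))))) (.g (nat_lit 0) .nil .nil))) 
(.lf (nat_lit 231766) (.g (nat_lit 1721) (.e (nat_lit 98376) (nat_lit 30) (.e (nat_lit 458789) (nat_lit 23) (.e (nat_lit 532499) (nat_lit 1) (.e (nat_lit 57755) (nat_lit 209) .nil)))) .nil))) (.nd (nat_lit 6) 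
(.lf (nat_lit 231734) (.g (nat_lit 1126) (.e (nat_lit 98375) (nat_lit 30) (.e (nat_lit 458789) (nat_lit 23) (.e (nat_lit 532481) (nat_lit 0) .nil))) .nil)) 
(.lf (nat_lit 231798) (.g (nat_lit 1566) (.e (nat_lit 98376) (nat_lit 30) (.e (nat_lit 458789) (nat_lit 23) (.e (nat_lit 532515) (nat_lit 3) (.e (nat_lit 114716) (nat_lit 22) (.e (nat_lit 98048) (nat_lit 21) (.e (nat_lit 164354) (nat_lit 246) (.e (nat_lit 112) (nat_lit 3) .nil))))))) (.g (nat_lit 4) .nil .nil)))))) (.nd (nat_lit 4) (.nd (nat_lit 5) (.nd (nat_lit 6) 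
(.lf (nat_lit 231694) (.g (nat_lit 1210) (.e (nat_lit 98374) (nat_lit 29) (.e (nat_lit 450580) (nat_lit 5) (.e (nat_lit 532523) (nat_lit 7) (.e (nat_lit 319504) (nat_lit 10) .nil)))) .nil)) 
(.lf (nat_lit 231758) (.g (nat_lit 730) (.e (nat_lit 98376) (nat_lit 30) (.e (nat_lit 458789) (nat_lit 23) (.e (nat_lit 532499) (nat_lit 1) .nil))) .nil))) (.nd (nat_lit 6) 
(.lf (nat_lit 231726) (.g (nat_lit 1911) (.e (nat_lit 106240) (nat_lit 29) (.e (nat_lit 450580) (nat_lit 5) (.e (nat_lit 532523) (nat_lit 7) (.e (nat_lit 319529) (nat_lit 16) .nil)))) .nil)) 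
(.lf (nat_lit 231790) (.g (nat_lit 967) (.e (nat_lit 98376) (nat_lit 30) (.e (nat_lit 458789) (nat_lit 23) (.e (nat_lit 532515) (nat_lit 3) (.e (nat_lit 114716) (nat_lit 22) .nil)))) .nil)))) (.nd (nat_lit 5) (.nd (nat_lit 6) 
(.lf (nat_lit 231710) (.g (nat_lit 509) (.e (nat_lit 98374) (nat_lit 29) (.e (nat_lit 450583) (nat_lit 7) (.e (nat_lit 548911) (nat_lit 18) .nil))) .nil)) 
(.lf (nat_lit 231774) (.g (nat_lit 2065) (.e (nat_lit 98376) (nat_lit 30) (.e (nat_lit 458789) (nat_lit 23) (.e (nat_lit 532502) (nat_lit 1) (.e (nat_lit 57692) (nat_lit 156) (.e (nat_lit 163869) (nat_lit 2) .nil))))) .nil))) (.nd (nat_lit 6) 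
(.lf (nat_lit 231742) (.g (nat_lit 2861) (.e (nat_lit 98375) (nat_lit 30) (.e (nat_lit 458789) (nat_lit 23) (.e (nat_lit 532501) (nat_lit 1) (.e (nat_lit 57730) (nat_lit 181) .nil)))) .nil)) 
(.lf (nat_lit 231806) (.g (nat_lit 1498) (.e (nat_lit 98376) (nat_lit 30) (.e (nat_lit 458789) (nat_lit 23) (.e (nat_lit 532579) (nat_lit 26) (.e (nat_lit 426139) (nat_lit 3) .nil)))) .nil)))))))) (.nd (nat_lit 1) (.nd (nat_lit 2) (.nd (nat_lit 3) (.nd (nat_lit 4) (.nd (nat_lit 5) (.nd (nat_lit 6) 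
(.lf (nat_lit 231681) (.g (nat_lit 644) (.e (nat_lit 98373) (nat_lit 29) (.e (nat_lit 450600) (nat_lit 20) (.e (nat_lit 688170) (nat_lit 15) .nil))) .nil)) 
(.lf (nat_lit 231745) (.g (nat_lit 2206) (.e (nat_lit 98375) (nat_lit 30) (.e (nat_lit 458789) (nat_lit 23) (.e (nat_lit 532513) (nat_lit 3) (.e (nat_lit 122624) (nat_lit 3) .nil)))) .nil))) (.nd (nat_lit 6) 
(.lf (nat_lit 231713) (.g (nat_lit 578) (.e (nat_lit 98374) (nat_lit 29) (.e (nat_lit 450586) (nat_lit 10) (.e (nat_lit 573471) (nat_lit 11) .nil))) .nil)) 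
(.lf (nat_lit 231777) (.g (nat_lit 633) (.e (nat_lit 98376) (nat_lit 30) (.e (nat_lit 458789) (nat_lit 23) (.e (nat_lit 532508) (nat_lit 2) .nil))) .nil)))) (.nd (nat_lit 5) (.nd (nat_lit 6) 
(.lf (nat_lit 231697) (.g (nat_lit 2793) (.e (nat_lit 98374) (nat_lit 29) (.e (nat_lit 450580) (nat_lit 5) (.e (nat_lit 532523) (nat_lit 7) (.e (nat_lit 319504) (nat_lit 10) (.e (nat_lit 5271) (nat_lit 298) (.e (nat_lit 1256) (nat_lit 92) .nil)))))) (.g (nat_lit 4) .nil .nil))) 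
(.lf (nat_lit 231761) (.g (nat_lit 2496) (.e (nat_lit 98376) (nat_lit 30) (.e (nat_lit 458789) (nat_lit 23) (.e (nat_lit 532499) (nat_lit 1) (.e (nat_lit 57688) (nat_lit 156) (.e (nat_lit 163868) (nat_lit 2) .nil))))) .nil))) (.nd (nat_lit 6) 
(.lf (nat_lit 231729) (.g (nat_lit 703) (.e (nat_lit 106240) (nat_lit 29) (.e (nat_lit 450586) (nat_lit 10) (.e (nat_lit 573456) (nat_lit 9) .nil))) .nil)) 
(.lf (nat_lit 231793) (.g (nat_lit 1956) (.e (nat_lit 98376) (nat_lit 30) (.e (nat_lit 458789) (nat_lit 23) (.e (nat_lit 532515) (nat_lit 3) (.e (nat_lit 114716) (nat_lit 22) (.e (nat_lit 90140) (nat_lit 9) .nil))))) .nil))))) (.nd (nat_lit 4) (.nd (nat_lit 5) (.nd (nat_lit 6) 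
(.lf (nat_lit 231689) (.g (nat_lit 2018) (.e (nat_lit 98374) (nat_lit 29) (.e (nat_lit 450575) (nat_lit 1) (.e (nat_lit 499991) (nat_lit 14) (.e (nat_lit 1399) (nat_lit 106) (.e (nat_lit 319532) (nat_lit 16) (.e (nat_lit 286735) (nat_lit 3) .nil)))))) (.g (nat_lit 0) .nil .nil))) 
(.lf (nat_lit 231753) (.g (nat_lit 1807) (.e (nat_lit 98376) (nat_lit 30) (.e (nat_lit 458789) (nat_lit 23) (.e (nat_lit 532481) (nat_lit 0) (.e (nat_lit 2031) (nat_lit 140) .nil)))) .nil))) (.nd (nat_lit 6) 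
(.lf (nat_lit 231721) (.g (nat_lit 1509) (.e (nat_lit 98374) (nat_lit 29) (.e (nat_lit 450586) (nat_lit 10) (.e (nat_lit 573475) (nat_lit 12) (.e (nat_lit 57574) (nat_lit 55) .nil)))) .nil)) 
(.lf (nat_lit 231785) (.g (nat_lit 1002) (.e (nat_lit 98376) (nat_lit 30) (.e (nat_lit 458789) (nat_lit 23) (.e (nat_lit 532515) (nat_lit 3) (.e (nat_lit 122624) (nat_lit 3) .nil)))) .nil)))) (.nd (nat_lit 5) (.nd (nat_lit 6) 
(.lf (nat_lit 231705) (.g (nat_lit 1752) (.e (nat_lit 98374) (nat_lit 29) (.e (nat_lit 450580) (nat_lit 5) (.e (nat_lit 532523) (nat_lit 7) (.e (nat_lit 319533) (nat_lit 16) (.e (nat_lit 294656) (nat_lit 3) .nil))))) (.g (nat_lit 4) .nil .nil))) 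
(.lf (nat_lit 231769) (.g (nat_lit 1760) (.e (nat_lit 98376) (nat_lit 30) (.e (nat_lit 458789) (nat_lit 23) (.e (nat_lit 532501) (nat_lit 1) (.e (nat_lit 57730) (nat_lit 181) (.e (nat_lit 1170) (nat_lit 87) (.e (nat_lit 57477) (nat_lit 28) (.e (nat_lit 557097) (nat_lit 13) (.e (nat_lit 179968) (nat_lit 18) .nil)))))))) (.g (nat_lit 4) .nil .nil)))) (.nd (nat_lit 6) 
(.lf (nat_lit 231737) (.g (nat_lit 1365) (.e (nat_lit 98375) (nat_lit 30) (.e (nat_lit 458789) (nat_lit 23) (.e (nat_lit 532484) (nat_lit 0) .nil))) .nil)) 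
(.lf (nat_lit 231801) (.g (nat_lit 1937) (.e (nat_lit 98376) (nat_lit 30) (.e (nat_lit 458789) (nat_lit 23) (.e (nat_lit 532515) (nat_lit 3) (.e (nat_lit 114719) (nat_lit 23) (.e (nat_lit 98325) (nat_lit 17) .nil))))) .nil)))))) (.nd (nat_lit 3) (.nd (nat_lit 4) (.nd (nat_lit 5) (.nd (nat_lit 6) 
(.lf (nat_lit 231685) (.g (nat_lit 480) (.e (nat_lit 98374) (nat_lit 29) (.e (nat_lit 450565) (nat_lit 0) (.e (nat_lit 6387) (nat_lit 338) .nil))) .nil)) 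
(.lf (nat_lit 231749) (.g (nat_lit 2716) (.e (nat_lit 98375) (nat_lit 30) (.e (nat_lit 458789) (nat_lit 23) (.e (nat_lit 532515) (nat_lit 3) (.e (nat_lit 114716) (nat_lit 22) (.e (nat_lit 90196) (nat_lit 18) .nil))))) .nil))) (.nd (nat_lit 6) 
(.lf (nat_lit 231717) (.g (nat_lit 1859) (.e (nat_lit 98374) (nat_lit 29) (.e (nat_lit 450586) (nat_lit 10) (.e (nat_lit 573475) (nat_lit 12) (.e (nat_lit 57347) (nat_lit 0) .nil)))) .nil)) 
(.lf (nat_lit 231781) (.g (nat_lit 1201) (.e (nat_lit 98376) (nat_lit 30) (.e (nat_lit 458789) (nat_lit 23) (.e (nat_lit 532513) (nat_lit 3) (.e (nat_lit 122624) (nat_lit 3) .nil)))) .nil)))) (.nd (nat_lit 5) (.nd (nat_lit 6) 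
(.lf (nat_lit 231701) (.g (nat_lit 3461) (.e (nat_lit 98374) (nat_lit 29) (.e (nat_lit 450580) (nat_lit 5) (.e (nat_lit 532523) (nat_lit 7) (.e (nat_lit 319530) (nat_lit 16) (.e (nat_lit 286735) (nat_lit 3) .nil))))) (.g (nat_lit 0) .nil .nil))) 
(.lf (nat_lit 231765) (.g (nat_lit 1955) (.e (nat_lit 98376) (nat_lit 30) (.e (nat_lit 458789) (nat_lit 23) (.e (nat_lit 532499) (nat_lit 1) (.e (nat_lit 57754) (nat_lit 209) (.e (nat_lit 1172) (nat_lit 87) .nil))))) .nil))) (.nd (nat_lit 6) 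
(.lf (nat_lit 231733) (.g (nat_lit 1740) (.e (nat_lit 106240) (nat_lit 29) (.e (nat_lit 450588) (nat_lit 10) (.e (nat_lit 573475) (nat_lit 12) (.e (nat_lit 65280) (nat_lit 57) .nil)))) .nil)) 
(.lf (nat_lit 231797) (.g (nat_lit 1501) (.e (nat_lit 98376) (nat_lit 30) (.e (nat_lit 458789) (nat_lit 23) (.e (nat_lit 532515) (nat_lit 3) (.e (nat_lit 114716) (nat_lit 22) (.e (nat_lit 90181) (nat_lit 16) .nil))))) .nil))))) (.nd (nat_lit 4) (.nd (nat_lit 5) (.nd (nat_lit 6) 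
(.lf (nat_lit 231693) (.g (nat_lit 3307) (.e (nat_lit 98374) (nat_lit 29) (.e (nat_lit 450580) (nat_lit 5) (.e (nat_lit 532522) (nat_lit 7) (.e (nat_lit 319531) (nat_lit 16) (.e (nat_lit 286735) (nat_lit 3) .nil))))) (.g (nat_lit 0) .nil .nil))) 
(.lf (nat_lit 231757) (.g (nat_lit 1157) (.e (nat_lit 98376) (nat_lit 30) (.e (nat_lit 458789) (nat_lit 23) (.e (nat_lit 532484) (nat_lit 0) (.e (nat_lit 2032) (nat_lit 140) .nil)))) .nil))) (.nd (nat_lit 6) 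
(.lf (nat_lit 231725) (.g (nat_lit 1360) (.e (nat_lit 106240) (nat_lit 29) (.e (nat_lit 450580) (nat_lit 5) (.e (nat_lit 532523) (nat_lit 7) (.e (nat_lit 319528) (nat_lit 16) .nil)))) .nil)) 
(.lf (nat_lit 231789) (.g (nat_lit 1274) (.e (nat_lit 98376) (nat_lit 30) (.e (nat_lit 458789) (nat_lit 23) (.e (nat_lit 532515) (nat_lit 3) (.e (nat_lit 114715) (nat_lit 22) (.e (nat_lit 98048) (nat_lit 21) .nil))))) .nil)))) (.nd (nat_lit 5) (.nd (nat_lit 6) 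
(.lf (nat_lit 231709) (.g (nat_lit 1478) (.e (nat_lit 98374) (nat_lit 29) (.e (nat_lit 450583) (nat_lit 7) (.e (nat_lit 548898) (nat_lit 14) (.e (nat_lit 2884) (nat_lit 184) .nil)))) .nil)) 
(.lf (nat_lit 231773) (.g (nat_lit 1390) (.e (nat_lit 98376) (nat_lit 30) (.e (nat_lit 458789) (nat_lit 23) (.e (nat_lit 532502) (nat_lit 1) (.e (nat_lit 57692) (nat_lit 156) .nil)))) .nil))) (.nd (nat_lit 6) 
(.lf (nat_lit 231741) (.g (nat_lit 963) (.e (nat_lit 98375) (nat_lit 30) (.e (nat_lit 458789) (nat_lit 23) (.e (nat_lit 532499) (nat_lit 1) .nil))) .nil)) 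
(.lf (nat_lit 231805) (.g (nat_lit 2339) (.e (nat_lit 98376) (nat_lit 30) (.e (nat_lit 458789) (nat_lit 23) (.e (nat_lit 532579) (nat_lit 26) (.e (nat_lit 426124) (nat_lit 2) (.e (nat_lit 196658) (nat_lit 12) .nil))))) .nil))))))) (.nd (nat_lit 2) (.nd (nat_lit 3) (.nd (nat_lit 4) (.nd (nat_lit 5) (.nd (nat_lit 6) 
(.lf (nat_lit 231683) (.g (nat_lit 1294) (.e (nat_lit 98373) (nat_lit 29) (.e (nat_lit 458496) (nat_lit 23) (.e (nat_lit 712737) (nat_lit 25) (.e (nat_lit 409646) (nat_lit 18) (.e (nat_lit 311040) (nat_lit 18) .nil))))) (.g (nat_lit 4) .nil .nil))) 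
(.lf (nat_lit 231747) (.g (nat_lit 2005) (.e (nat_lit 98375) (nat_lit 30) (.e (nat_lit 458789) (nat_lit 23) (.e (nat_lit 532515) (nat_lit 3) (.e (nat_lit 122624) (nat_lit 3) .nil)))) .nil))) (.nd (nat_lit 6) 
(.lf (nat_lit 231715) (.g (nat_lit 1356) (.e (nat_lit 98374) (nat_lit 29) (.e (nat_lit 450586) (nat_lit 10) (.e (nat_lit 573473) (nat_lit 12) (.e (nat_lit 65280) (nat_lit 57) .nil)))) .nil)) 
(.lf (nat_lit 231779) (.g (nat_lit 522) (.e (nat_lit 98376) (nat_lit 30) (.e (nat_lit 458789) (nat_lit 23) (.e (nat_lit 532513) (nat_lit 3) .nil))) .nil)))) (.nd (nat_lit 5) (.nd (nat_lit 6) 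
(.lf (nat_lit 231699) (.g (nat_lit 1881) (.e (nat_lit 98374) (nat_lit 29) (.e (nat_lit 450580) (nat_lit 5) (.e (nat_lit 532523) (nat_lit 7) (.e (nat_lit 319505) (nat_lit 10) (.e (nat_lit 5258) (nat_lit 298) .nil))))) .nil)) 
(.lf (nat_lit 231763) (.g (nat_lit 2566) (.e (nat_lit 98376) (nat_lit 30) (.e (nat_lit 458789) (nat_lit 23) (.e (nat_lit 532499) (nat_lit 1) (.e (nat_lit 57688) (nat_lit 156) (.e (nat_lit 163875) (nat_lit 3) .nil))))) .nil))) (.nd (nat_lit 6) 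
(.lf (nat_lit 231731) (.g (nat_lit 1309) (.e (nat_lit 106240) (nat_lit 29) (.e (nat_lit 450588) (nat_lit 10) (.e (nat_lit 573449) (nat_lit 9) (.e (nat_lit 1312) (nat_lit 98) .nil)))) .nil)) 
(.lf (nat_lit 231795) (.g (nat_lit 1993) (.e (nat_lit 98376) (nat_lit 30) (.e (nat_lit 458789) (nat_lit 23) (.e (nat_lit 532515) (nat_lit 3) (.e (nat_lit 114716) (nat_lit 22) (.e (nat_lit 90179) (nat_lit 16) .nil))))) .nil))))) (.nd (nat_lit 4) (.nd (nat_lit 5) (.nd (nat_lit 6) 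
(.lf (nat_lit 231691) (.g (nat_lit 2140) (.e (nat_lit 98374) (nat_lit 29) (.e (nat_lit 450575) (nat_lit 1) (.e (nat_lit 499991) (nat_lit 14) (.e (nat_lit 1399) (nat_lit 106) (.e (nat_lit 319533) (nat_lit 16) (.e (nat_lit 286735) (nat_lit 3) .nil)))))) (.g (nat_lit 0) .nil .nil))) 
(.lf (nat_lit 231755) (.g (nat_lit 625) (.e (nat_lit 98376) (nat_lit 30) (.e (nat_lit 458789) (nat_lit 23) (.e (nat_lit 532484) (nat_lit 0) .nil))) .nil))) (.nd (nat_lit 6) 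
(.lf (nat_lit 231723) (.g (nat_lit 596) (.e (nat_lit 106240) (nat_lit 29) (.e (nat_lit 450579) (nat_lit 5) (.e (nat_lit 532522) (nat_lit 7) .nil))) .nil)) 
(.lf (nat_lit 231787) (.g (nat_lit 964) (.e (nat_lit 98376) (nat_lit 30) (.e (nat_lit 458789) (nat_lit 23) (.e (nat_lit 532515) (nat_lit 3) (.e (nat_lit 114715) (nat_lit 22) .nil)))) .nil)))) (.nd (nat_lit 5) (.nd (nat_lit 6) 
(.lf (nat_lit 231707) (.g (nat_lit 3191) (.e (nat_lit 98374) (nat_lit 29) (.e (nat_lit 450580) (nat_lit 5) (.e (nat_lit 532523) (nat_lit 7) (.e (nat_lit 319535) (nat_lit 17) (.e (nat_lit 294931) (nat_lit 3) .nil))))) (.g (nat_lit 0) .nil .nil))) 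
(.lf (nat_lit 231771) (.g (nat_lit 958) (.e (nat_lit 98376) (nat_lit 30) (.e (nat_lit 458789) (nat_lit 23) (.e (nat_lit 532502) (nat_lit 1) .nil))) .nil))) (.nd (nat_lit 6) 
(.lf (nat_lit 231739) (.g (nat_lit 2623) (.e (nat_lit 98375) (nat_lit 30) (.e (nat_lit 458789) (nat_lit 23) (.e (nat_lit 532484) (nat_lit 0) (.e (nat_lit 2031) (nat_lit 140) (.e (nat_lit 688171) (nat_lit 15) .nil))))) .nil)) 
(.lf (nat_lit 231803) (.g (nat_lit 815) (.e (nat_lit 98376) (nat_lit 30) (.e (nat_lit 458789) (nat_lit 23) (.e (nat_lit 532579) (nat_lit 26) .nil))) .nil)))))) (.nd (nat_lit 3) (.nd (nat_lit 4) (.nd (nat_lit 5) (.nd (nat_lit 6) 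
(.lf (nat_lit 231687) (.g (nat_lit 2018) (.e (nat_lit 98374) (nat_lit 29) (.e (nat_lit 450575) (nat_lit 1) (.e (nat_lit 499991) (nat_lit 14) (.e (nat_lit 1399) (nat_lit 106) (.e (nat_lit 319529) (nat_lit 16) (.e (nat_lit 286735) (nat_lit 3) .nil)))))) (.g (nat_lit 0) .nil .nil))) 
(.lf (nat_lit 231751) (.g (nat_lit 1789) (.e (nat_lit 98376) (nat_lit 30) (.e (nat_lit 458774) (nat_lit 18) (.e (nat_lit 5224) (nat_lit 296) (.e (nat_lit 163868) (nat_lit 2) (.e (nat_lit 196691) (nat_lit 18) .nil))))) .nil))) (.nd (nat_lit 6) 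
(.lf (nat_lit 231719) (.g (nat_lit 1567) (.e (nat_lit 98374) (nat_lit 29) (.e (nat_lit 450586) (nat_lit 10) (.e (nat_lit 573475) (nat_lit 12) (.e (nat_lit 57351) (nat_lit 0) .nil)))) .nil)) 
(.lf (nat_lit 231783) (.g (nat_lit 471) (.e (nat_lit 98376) (nat_lit 30) (.e (nat_lit 458789) (nat_lit 23) (.e (nat_lit 532515) (nat_lit 3) .nil))) .nil)))) (.nd (nat_lit 5) (.nd (nat_lit 6) 
(.lf (nat_lit 231703) (.g (nat_lit 2661) (.e (nat_lit 98374) (nat_lit 29) (.e (nat_lit 450580) (nat_lit 5) (.e (nat_lit 532523) (nat_lit 7) (.e (nat_lit 319532) (nat_lit 16) (.e (nat_lit 286734) (nat_lit 3) .nil))))) (.g (nat_lit 5) .nil .nil))) 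
(.lf (nat_lit 231767) (.g (nat_lit 1779) (.e (nat_lit 98376) (nat_lit 30) (.e (nat_lit 458789) (nat_lit 23) (.e (nat_lit 532499) (nat_lit 1) (.e (nat_lit 65280) (nat_lit 211) .nil)))) .nil))) (.nd (nat_lit 6) 
(.lf (nat_lit 231735) (.g (nat_lit 2370) (.e (nat_lit 98375) (nat_lit 30) (.e (nat_lit 458789) (nat_lit 23) (.e (nat_lit 532481) (nat_lit 0) (.e (nat_lit 2031) (nat_lit 140) .nil)))) .nil)) 
(.lf (nat_lit 231799) (.g (nat_lit 987) (.e (nat_lit 98376) (nat_lit 30) (.e (nat_lit 458789) (nat_lit 23) (.e (nat_lit 532515) (nat_lit 3) (.e (nat_lit 114718) (nat_lit 23) .nil)))) .nil))))) (.nd (nat_lit 4) (.nd (nat_lit 5) (.nd (nat_lit 6) 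
(.lf (nat_lit 231695) (.g (nat_lit 2666) (.e (nat_lit 98374) (nat_lit 29) (.e (nat_lit 450580) (nat_lit 5) (.e (nat_lit 532523) (nat_lit 7) (.e (nat_lit 319504) (nat_lit 10) (.e (nat_lit 5245) (nat_lit 298) (.e (nat_lit 1256) (nat_lit 92) .nil)))))) (.g (nat_lit 4) .nil .nil))) 
(.lf (nat_lit 231759) (.g (nat_lit 1192) (.e (nat_lit 98376) (nat_lit 30) (.e (nat_lit 458789) (nat_lit 23) (.e (nat_lit 532499) (nat_lit 1) (.e (nat_lit 57688) (nat_lit 156) .nil)))) .nil))) (.nd (nat_lit 6) 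
(.lf (nat_lit 231727) (.g (nat_lit 2492) (.e (nat_lit 106240) (nat_lit 29) (.e (nat_lit 450580) (nat_lit 5) (.e (nat_lit 532523) (nat_lit 7) (.e (nat_lit 319532) (nat_lit 16) (.e (nat_lit 286734) (nat_lit 3) .nil))))) .nil)) 
(.lf (nat_lit 231791) (.g (nat_lit 1616) (.e (nat_lit 98376) (nat_lit 30) (.e (nat_lit 458789) (nat_lit 23) (.e (nat_lit 532515) (nat_lit 3) (.e (nat_lit 114716) (nat_lit 22) (.e (nat_lit 90129) (nat_lit 9) .nil))))) .nil)))) (.nd (nat_lit 5) (.nd (nat_lit 6) 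
(.lf (nat_lit 231711) (.g (nat_lit 638) (.e (nat_lit 98374) (nat_lit 29) (.e (nat_lit 450586) (nat_lit 10) (.e (nat_lit 573456) (nat_lit 9) .nil))) .nil)) 
(.lf (nat_lit 231775) (.g (nat_lit 2011) (.e (nat_lit 98376) (nat_lit 30) (.e (nat_lit 458789) (nat_lit 23) (.e (nat_lit 532502) (nat_lit 1) (.e (nat_lit 57692) (nat_lit 156) (.e (nat_lit 163871) (nat_lit 2) .nil))))) .nil))) (.nd (nat_lit 6) 
(.lf (nat_lit 231743) (.g (nat_lit 1365) (.e (nat_lit 98375) (nat_lit 30) (.e (nat_lit 458789) (nat_lit 23) (.e (nat_lit 532508) (nat_lit 2) .nil))) .nil)) 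
(.lf (nat_lit 231807) (.g (nat_lit 2907) (.e (nat_lit 98376) (nat_lit 30) (.e (nat_lit 458789) (nat_lit 23) (.e (nat_lit 532579) (nat_lit 26) (.e (nat_lit 426139) (nat_lit 3) (.e (nat_lit 204815) (nat_lit 17) (.e (nat_lit 974) (nat_lit 81) (.e (nat_lit 7695) (nat_lit 412) (.e (nat_lit 57378) (nat_lit 3) .nil)))))))) (.g (nat_lit 4) .nil .nil))))))))))

noncomputable def tv3033 : DT := (.nd (nat_lit 0) (.nd (nat_lit 1) (.nd (nat_lit 2) (.nd (nat_lit 3) (.nd (nat_lit 4) (.nd (nat_lit 5) (.nd (nat_lit 6) 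
(.lf (nat_lit 231808) (.g (nat_lit 2903) (.e (nat_lit 98376) (nat_lit 30) (.e (nat_lit 458789) (nat_lit 23) (.e (nat_lit 532579) (nat_lit 26) (.e (nat_lit 426139) (nat_lit 3) (.e (nat_lit 204815) (nat_lit 17) (.e (nat_lit 974) (nat_lit 81) (.e (nat_lit 7697) (nat_lit 412) (.e (nat_lit 57378) (nat_lit 3) .nil)))))))) (.g (nat_lit 4) .nil .nil))) 
(.lf (nat_lit 231872) (.g (nat_lit 975) (.e (nat_lit 98377) (nat_lit 30) (.e (nat_lit 458789) (nat_lit 23) (.e (nat_lit 532519) (nat_lit 5) .nil))) .nil))) (.nd (nat_lit 6) 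
(.lf (nat_lit 231840) (.g (nat_lit 1441) (.e (nat_lit 98377) (nat_lit 30) (.e (nat_lit 458789) (nat_lit 23) (.e (nat_lit 532504) (nat_lit 1) (.e (nat_lit 57692) (nat_lit 156) .nil)))) .nil)) 
(.lf (nat_lit 231904) (.g (nat_lit 1432) (.e (nat_lit 98380) (nat_lit 31) (.e (nat_lit 466947) (nat_lit 0) (.e (nat_lit 1800) (nat_lit 119) (.e (nat_lit 516129) (nat_lit 3) (.e (nat_lit 221191) (nat_lit 11) .nil))))) .nil)))) (.nd (nat_lit 5) (.nd (nat_lit 6) 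
(.lf (nat_lit 231824) (.g (nat_lit 2768) (.e (nat_lit 98377) (nat_lit 30) (.e (nat_lit 458789) (nat_lit 23) (.e (nat_lit 532499) (nat_lit 1) (.e (nat_lit 57688) (nat_lit 156) (.e (nat_lit 163868) (nat_lit 2) .nil))))) .nil)) 
(.lf (nat_lit 231888) (.g (nat_lit 1176) (.e (nat_lit 98379) (nat_lit 31) (.e (nat_lit 466954) (nat_lit 11) (.e (nat_lit 335987) (nat_lit 1) .nil))) .nil))) (.nd (nat_lit 6) 
(.lf (nat_lit 231856) (.g (nat_lit 1323) (.e (nat_lit 98377) (nat_lit 30) (.e (nat_lit 458789) (nat_lit 23) (.e (nat_lit 532515) (nat_lit 3) (.e (nat_lit 114715) (nat_lit 22) (.e (nat_lit 98048) (nat_lit 21) .nil))))) .nil)) 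
(.lf (nat_lit 231920) (.g (nat_lit 1084) (.e (nat_lit 98380) (nat_lit 31) (.e (nat_lit 466947) (nat_lit 0) (.e (nat_lit 1856) (nat_lit 124) (.e (nat_lit 557103) (nat_lit 14) (.e (nat_lit 188160) (nat_lit 32) .nil))))) .nil))))) (.nd (nat_lit 4) (.nd (nat_lit 5) (.nd (nat_lit 6) 
(.lf (nat_lit 231816) (.g (nat_lit 1920) (.e (nat_lit 98377) (nat_lit 30) (.e (nat_lit 458789) (nat_lit 23) (.e (nat_lit 532481) (nat_lit 0) (.e (nat_lit 2240) (nat_lit 146) .nil)))) .nil)) 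
(.lf (nat_lit 231880) (.g (nat_lit 1126) (.e (nat_lit 98378) (nat_lit 30) (.e (nat_lit 458789) (nat_lit 23) (.e (nat_lit 532481) (nat_lit 0) .nil))) .nil))) (.nd (nat_lit 6) 
(.lf (nat_lit 231848) (.g (nat_lit 1153) (.e (nat_lit 98377) (nat_lit 30) (.e (nat_lit 458789) (nat_lit 23) (.e (nat_lit 532513) (nat_lit 3) (.e (nat_lit 114714) (nat_lit 22) .nil)))) .nil)) 
(.lf (nat_lit 231912) (.g (nat_lit 3670) (.e (nat_lit 98380) (nat_lit 31) (.e (nat_lit 466947) (nat_lit 0) (.e (nat_lit 1855) (nat_lit 124) (.e (nat_lit 557100) (nat_lit 13) (.e (nat_lit 172124) (nat_lit 14) (.e (nat_lit 491540) (nat_lit 3) .nil)))))) (.g (nat_lit 0) .nil .nil))))) (.nd (nat_lit 5) (.nd (nat_lit 6) 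
(.lf (nat_lit 231832) (.g (nat_lit 1592) (.e (nat_lit 98377) (nat_lit 30) (.e (nat_lit 458789) (nat_lit 23) (.e (nat_lit 532501) (nat_lit 1) (.e (nat_lit 57754) (nat_lit 209) .nil)))) .nil)) 
(.lf (nat_lit 231896) (.g (nat_lit 1373) (.e (nat_lit 98379) (nat_lit 31) (.e (nat_lit 466974) (nat_lit 22) (.e (nat_lit 196681) (nat_lit 17) (.e (nat_lit 131089) (nat_lit 1) (.e (nat_lit 57929) (nat_lit 282) .nil))))) .nil))) (.nd (nat_lit 6) 
(.lf (nat_lit 231864) (.g (nat_lit 1952) (.e (nat_lit 98377) (nat_lit 30) (.e (nat_lit 458789) (nat_lit 23) (.e (nat_lit 532515) (nat_lit 3) (.e (nat_lit 114716) (nat_lit 22) (.e (nat_lit 90196) (nat_lit 18) (.e (nat_lit 2797) (nat_lit 180) (.e (nat_lit 311040) (nat_lit 18) .nil))))))) (.g (nat_lit 4) .nil .nil))) 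
(.lf (nat_lit 231928) (.g (nat_lit 2942) (.e (nat_lit 98380) (nat_lit 31) (.e (nat_lit 466952) (nat_lit 11) (.e (nat_lit 336390) (nat_lit 27) (.e (nat_lit 426098) (nat_lit 1) (.e (nat_lit 164398) (nat_lit 256) (.e (nat_lit 57379) (nat_lit 3) .nil)))))) (.g (nat_lit 6) .nil .nil))))))) (.nd (nat_lit 3) (.nd (nat_lit 4) (.nd (nat_lit 5) (.nd (nat_lit 6) 
(.lf (nat_lit 231812) (.g (nat_lit 1917) (.e (nat_lit 98377) (nat_lit 30) (.e (nat_lit 458789) (nat_lit 23) (.e (nat_lit 532481) (nat_lit 0) (.e (nat_lit 2031) (nat_lit 140) .nil)))) .nil)) 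
(.lf (nat_lit 231876) (.g (nat_lit 3168) (.e (nat_lit 98377) (nat_lit 30) (.e (nat_lit 458789) (nat_lit 23) (.e (nat_lit 532579) (nat_lit 26) (.e (nat_lit 426139) (nat_lit 3) (.e (nat_lit 204829) (nat_lit 18) .nil))))) .nil))) (.nd (nat_lit 6) 
(.lf (nat_lit 231844) (.g (nat_lit 1588) (.e (nat_lit 98377) (nat_lit 30) (.e (nat_lit 458789) (nat_lit 23) (.e (nat_lit 532508) (nat_lit 2) (.e (nat_lit 106526) (nat_lit 9) (.e (nat_lit 1246) (nat_lit 92) .nil))))) .nil)) 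
(.lf (nat_lit 231908) (.g (nat_lit 2342) (.e (nat_lit 98380) (nat_lit 31) (.e (nat_lit 466947) (nat_lit 0) (.e (nat_lit 1800) (nat_lit 119) (.e (nat_lit 516131) (nat_lit 3) (.e (nat_lit 221194) (nat_lit 11) (.e (nat_lit 336026) (nat_lit 3) .nil)))))) (.g (nat_lit 0) .nil .nil))))) (.nd (nat_lit 5) (.nd (nat_lit 6) 
(.lf (nat_lit 231828) (.g (nat_lit 1822) (.e (nat_lit 98377) (nat_lit 30) (.e (nat_lit 458789) (nat_lit 23) (.e (nat_lit 532499) (nat_lit 1) (.e (nat_lit 57755) (nat_lit 209) .nil)))) .nil)) 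
(.lf (nat_lit 231892) (.g (nat_lit 742) (.e (nat_lit 98379) (nat_lit 31) (.e (nat_lit 466954) (nat_lit 11) (.e (nat_lit 336288) (nat_lit 15) .nil))) .nil))) (.nd (nat_lit 6) 
(.lf (nat_lit 231860) (.g (nat_lit 1759) (.e (nat_lit 98377) (nat_lit 30) (.e (nat_lit 458789) (nat_lit 23) (.e (nat_lit 532515) (nat_lit 3) (.e (nat_lit 114716) (nat_lit 22) (.e (nat_lit 90162) (nat_lit 12) .nil))))) .nil)) 
(.lf (nat_lit 231924) (.g (nat_lit 1544) (.e (nat_lit 98380) (nat_lit 31) (.e (nat_lit 466947) (nat_lit 0) (.e (nat_lit 1856) (nat_lit 124) (.e (nat_lit 557105) (nat_lit 14) (.e (nat_lit 188160) (nat_lit 32) (.e (nat_lit 1256) (nat_lit 92) .nil)))))) (.g (nat_lit 4) .nil .nil)))))) (.nd (nat_lit 4) (.nd (nat_lit 5) (.nd (nat_lit 6) 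
(.lf (nat_lit 231820) (.g (nat_lit 824) (.e (nat_lit 98377) (nat_lit 30) (.e (nat_lit 458789) (nat_lit 23) (.e (nat_lit 532499) (nat_lit 1) .nil))) .nil)) 
(.lf (nat_lit 231884) (.g (nat_lit 1370) (.e (nat_lit 98378) (nat_lit 30) (.e (nat_lit 458789) (nat_lit 23) (.e (nat_lit 532515) (nat_lit 3) .nil))) .nil))) (.nd (nat_lit 6) 
(.lf (nat_lit 231852) (.g (nat_lit 969) (.e (nat_lit 98377) (nat_lit 30) (.e (nat_lit 458789) (nat_lit 23) (.e (nat_lit 532515) (nat_lit 3) (.e (nat_lit 114702) (nat_lit 20) .nil)))) .nil)) 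
(.lf (nat_lit 231916) (.g (nat_lit 3034) (.e (nat_lit 98380) (nat_lit 31) (.e (nat_lit 466947) (nat_lit 0) (.e (nat_lit 1855) (nat_lit 124) (.e (nat_lit 557104) (nat_lit 14) (.e (nat_lit 180278) (nat_lit 32) (.e (nat_lit 1252) (nat_lit 92) .nil)))))) (.g (nat_lit 6) .nil .nil))))) (.nd (nat_lit 5) (.nd (nat_lit 6) 
(.lf (nat_lit 231836) (.g (nat_lit 2258) (.e (nat_lit 98377) (nat_lit 30) (.e (nat_lit 458789) (nat_lit 23) (.e (nat_lit 532502) (nat_lit 1) (.e (nat_lit 57692) (nat_lit 156) (.e (nat_lit 163869) (nat_lit 2) .nil))))) .nil)) 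
(.lf (nat_lit 231900) (.g (nat_lit 1542) (.e (nat_lit 98379) (nat_lit 31) (.e (nat_lit 466977) (nat_lit 22) (.e (nat_lit 196681) (nat_lit 17) (.e (nat_lit 131089) (nat_lit 1) (.e (nat_lit 57929) (nat_lit 282) .nil))))) .nil))) (.nd (nat_lit 6) 
(.lf (nat_lit 231868) (.g (nat_lit 921) (.e (nat_lit 98377) (nat_lit 30) (.e (nat_lit 458789) (nat_lit 23) (.e (nat_lit 532515) (nat_lit 3) (.e (nat_lit 114719) (nat_lit 23) .nil)))) .nil)) 
(.lf (nat_lit 231932) (.g (nat_lit 1947) (.e (nat_lit 98380) (nat_lit 31) (.e (nat_lit 466954) (nat_lit 11) (.e (nat_lit 335986) (nat_lit 1) (.e (nat_lit 57652) (nat_lit 152) (.e (nat_lit 2633) (nat_lit 164) .nil))))) .nil))))))) (.nd (nat_lit 2) (.nd (nat_lit 3) (.nd (nat_lit 4) (.nd (nat_lit 5) (.nd (nat_lit 6) 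
(.lf (nat_lit 231810) (.g (nat_lit 1893) (.e (nat_lit 98377) (nat_lit 30) (.e (nat_lit 458774) (nat_lit 18) (.e (nat_lit 5224) (nat_lit 296) (.e (nat_lit 163868) (nat_lit 2) (.e (nat_lit 196691) (nat_lit 18) .nil))))) .nil)) 
(.lf (nat_lit 231874) (.g (nat_lit 1796) (.e (nat_lit 98377) (nat_lit 30) (.e (nat_lit 458789) (nat_lit 23) (.e (nat_lit 532579) (nat_lit 26) (.e (nat_lit 426139) (nat_lit 3) .nil)))) .nil))) (.nd (nat_lit 6) 
(.lf (nat_lit 231842) (.g (nat_lit 720) (.e (nat_lit 98377) (nat_lit 30) (.e (nat_lit 458789) (nat_lit 23) (.e (nat_lit 532508) (nat_lit 2) .nil))) .nil)) 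
(.lf (nat_lit 231906) (.g (nat_lit 2304) (.e (nat_lit 98380) (nat_lit 31) (.e (nat_lit 466947) (nat_lit 0) (.e (nat_lit 1800) (nat_lit 119) (.e (nat_lit 516129) (nat_lit 3) (.e (nat_lit 221193) (nat_lit 11) (.e (nat_lit 336026) (nat_lit 3) .nil)))))) (.g (nat_lit 0) .nil .nil))))) (.nd (nat_lit 5) (.nd (nat_lit 6) 
(.lf (nat_lit 231826) (.g (nat_lit 2377) (.e (nat_lit 98377) (nat_lit 30) (.e (nat_lit 458789) (nat_lit 23) (.e (nat_lit 532499) (nat_lit 1) (.e (nat_lit 57692) (nat_lit 156) (.e (nat_lit 163871) (nat_lit 2) .nil))))) .nil)) 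
(.lf (nat_lit 231890) (.g (nat_lit 816) (.e (nat_lit 98379) (nat_lit 31) (.e (nat_lit 466954) (nat_lit 11) (.e (nat_lit 335995) (nat_lit 1) .nil))) .nil))) (.nd (nat_lit 6) 
(.lf (nat_lit 231858) (.g (nat_lit 1659) (.e (nat_lit 98377) (nat_lit 30) (.e (nat_lit 458789) (nat_lit 23) (.e (nat_lit 532515) (nat_lit 3) (.e (nat_lit 114716) (nat_lit 22) (.e (nat_lit 90129) (nat_lit 9) .nil))))) .nil)) 
(.lf (nat_lit 231922) (.g (nat_lit 2176) (.e (nat_lit 98380) (nat_lit 31) (.e (nat_lit 466947) (nat_lit 0) (.e (nat_lit 1856) (nat_lit 124) (.e (nat_lit 557104) (nat_lit 14) (.e (nat_lit 180278) (nat_lit 32) (.e (nat_lit 1252) (nat_lit 92) .nil)))))) (.g (nat_lit 4) .nil .nil)))))) (.nd (nat_lit 4) (.nd (nat_lit 5) (.nd (nat_lit 6) 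
(.lf (nat_lit 231818) (.g (nat_lit 2815) (.e (nat_lit 98377) (nat_lit 30) (.e (nat_lit 458789) (nat_lit 23) (.e (nat_lit 532484) (nat_lit 0) (.e (nat_lit 2031) (nat_lit 140) (.e (nat_lit 688171) (nat_lit 15) (.e (nat_lit 57478) (nat_lit 28) (.e (nat_lit 557098) (nat_lit 13) (.e (nat_lit 179968) (nat_lit 18) .nil)))))))) (.g (nat_lit 6) .nil .nil))) 
(.lf (nat_lit 231882) (.g (nat_lit 1366) (.e (nat_lit 98378) (nat_lit 30) (.e (nat_lit 458789) (nat_lit 23) (.e (nat_lit 532513) (nat_lit 3) .nil))) .nil))) (.nd (nat_lit 6) 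
(.lf (nat_lit 231850) (.g (nat_lit 528) (.e (nat_lit 98377) (nat_lit 30) (.e (nat_lit 458789) (nat_lit 23) (.e (nat_lit 532515) (nat_lit 3) .nil))) .nil)) 
(.lf (nat_lit 231914) (.g (nat_lit 2554) (.e (nat_lit 98380) (nat_lit 31) (.e (nat_lit 466947) (nat_lit 0) (.e (nat_lit 1855) (nat_lit 124) (.e (nat_lit 557103) (nat_lit 14) (.e (nat_lit 180277) (nat_lit 32) (.e (nat_lit 1253) (nat_lit 92) .nil)))))) (.g (nat_lit 4) .nil .nil))))) (.nd (nat_lit 5) (.nd (nat_lit 6) 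
(.lf (nat_lit 231834) (.g (nat_lit 2376) (.e (nat_lit 98377) (nat_lit 30) (.e (nat_lit 458789) (nat_lit 23) (.e (nat_lit 532502) (nat_lit 1) (.e (nat_lit 57688) (nat_lit 156) (.e (nat_lit 163867) (nat_lit 2) .nil))))) .nil)) 
(.lf (nat_lit 231898) (.g (nat_lit 1661) (.e (nat_lit 98379) (nat_lit 31) (.e (nat_lit 466977) (nat_lit 22) (.e (nat_lit 196668) (nat_lit 14) (.e (nat_lit 73737) (nat_lit 0) (.e (nat_lit 5599) (nat_lit 310) .nil))))) .nil))) (.nd (nat_lit 6) 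
(.lf (nat_lit 231866) (.g (nat_lit 1761) (.e (nat_lit 98377) (nat_lit 30) (.e (nat_lit 458789) (nat_lit 23) (.e (nat_lit 532515) (nat_lit 3) (.e (nat_lit 114716) (nat_lit 22) (.e (nat_lit 98048) (nat_lit 21) (.e (nat_lit 164354) (nat_lit 246) (.e (nat_lit 112) (nat_lit 3) .nil))))))) (.g (nat_lit 4) .nil .nil))) 
(.lf (nat_lit 231930) (.g (nat_lit 799) (.e (nat_lit 98380) (nat_lit 31) (.e (nat_lit 466954) (nat_lit 11) (.e (nat_lit 335910) (nat_lit 0) .nil))) .nil)))))) (.nd (nat_lit 3) (.nd (nat_lit 4) (.nd (nat_lit 5) (.nd (nat_lit 6) 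
(.lf (nat_lit 231814) (.g (nat_lit 3112) (.e (nat_lit 98377) (nat_lit 30) (.e (nat_lit 458789) (nat_lit 23) (.e (nat_lit 532481) (nat_lit 0) (.e (nat_lit 2031) (nat_lit 140) (.e (nat_lit 688170) (nat_lit 15) (.e (nat_lit 57480) (nat_lit 28) (.e (nat_lit 557098) (nat_lit 13) (.e (nat_lit 179968) (nat_lit 18) .nil)))))))) (.g (nat_lit 5) .nil .nil))) 
(.lf (nat_lit 231878) (.g (nat_lit 1129) (.e (nat_lit 98377) (nat_lit 30) (.e (nat_lit 458789) (nat_lit 23) (.e (nat_lit 532580) (nat_lit 26) .nil))) .nil))) (.nd (nat_lit 6) 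
(.lf (nat_lit 231846) (.g (nat_lit 1253) (.e (nat_lit 98377) (nat_lit 30) (.e (nat_lit 458789) (nat_lit 23) (.e (nat_lit 532513) (nat_lit 3) (.e (nat_lit 122624) (nat_lit 2) .nil)))) .nil)) 
(.lf (nat_lit 231910) (.g (nat_lit 3791) (.e (nat_lit 98380) (nat_lit 31) (.e (nat_lit 466947) (nat_lit 0) (.e (nat_lit 1855) (nat_lit 124) (.e (nat_lit 557098) (nat_lit 13) (.e (nat_lit 172124) (nat_lit 14) (.e (nat_lit 491540) (nat_lit 3) .nil)))))) (.g (nat_lit 0) .nil .nil))))) (.nd (nat_lit 5) (.nd (nat_lit 6) 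
(.lf (nat_lit 231830) (.g (nat_lit 589) (.e (nat_lit 98377) (nat_lit 30) (.e (nat_lit 458789) (nat_lit 23) (.e (nat_lit 532501) (nat_lit 1) .nil))) .nil)) 
(.lf (nat_lit 231894) (.g (nat_lit 1276) (.e (nat_lit 98379) (nat_lit 31) (.e (nat_lit 466974) (nat_lit 22) (.e (nat_lit 196668) (nat_lit 14) (.e (nat_lit 73737) (nat_lit 0) .nil)))) .nil))) (.nd (nat_lit 6) 
(.lf (nat_lit 231862) (.g (nat_lit 2035) (.e (nat_lit 98377) (nat_lit 30) (.e (nat_lit 458789) (nat_lit 23) (.e (nat_lit 532515) (nat_lit 3) (.e (nat_lit 114716) (nat_lit 22) (.e (nat_lit 90179) (nat_lit 16) .nil))))) .nil)) 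
(.lf (nat_lit 231926) (.g (nat_lit 819) (.e (nat_lit 98380) (nat_lit 31) (.e (nat_lit 474880) (nat_lit 0) (.e (nat_lit 1849) (nat_lit 124) (.e (nat_lit 557104) (nat_lit 14) (.e (nat_lit 188160) (nat_lit 32) (.e (nat_lit 1245) (nat_lit 92) .nil)))))) (.g (nat_lit 4) .nil .nil)))))) (.nd (nat_lit 4) (.nd (nat_lit 5) (.nd (nat_lit 6) 
(.lf (nat_lit 231822) (.g (nat_lit 1464) (.e (nat_lit 98377) (nat_lit 30) (.e (nat_lit 458789) (nat_lit 23) (.e (nat_lit 532499) (nat_lit 1) (.e (nat_lit 57688) (nat_lit 156) .nil)))) .nil)) 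
(.lf (nat_lit 231886) (.g (nat_lit 2915) (.e (nat_lit 98378) (nat_lit 30) (.e (nat_lit 458789) (nat_lit 23) (.e (nat_lit 532515) (nat_lit 3) (.e (nat_lit 114719) (nat_lit 23) (.e (nat_lit 98335) (nat_lit 18) .nil))))) .nil))) (.nd (nat_lit 6) 
(.lf (nat_lit 231854) (.g (nat_lit 1281) (.e (nat_lit 98377) (nat_lit 30) (.e (nat_lit 458789) (nat_lit 23) (.e (nat_lit 532515) (nat_lit 3) (.e (nat_lit 114715) (nat_lit 22) (.e (nat_lit 90165) (nat_lit 12) .nil))))) .nil)) 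
(.lf (nat_lit 231918) (.g (nat_lit 3802) (.e (nat_lit 98380) (nat_lit 31) (.e (nat_lit 466947) (nat_lit 0) (.e (nat_lit 1856) (nat_lit 124) (.e (nat_lit 557100) (nat_lit 13) (.e (nat_lit 172124) (nat_lit 14) (.e (nat_lit 491540) (nat_lit 3) .nil)))))) (.g (nat_lit 0) .nil .nil))))) (.nd (nat_lit 5) (.nd (nat_lit 6) 
(.lf (nat_lit 231838) (.g (nat_lit 882) (.e (nat_lit 98377) (nat_lit 30) (.e (nat_lit 458789) (nat_lit 23) (.e (nat_lit 532503) (nat_lit 1) .nil))) .nil)) 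
(.lf (nat_lit 231902) (.g (nat_lit 2440) (.e (nat_lit 98379) (nat_lit 31) (.e (nat_lit 466981) (nat_lit 23) (.e (nat_lit 204846) (nat_lit 24) (.e (nat_lit 319534) (nat_lit 16) (.e (nat_lit 286735) (nat_lit 3) .nil))))) .nil))) (.nd (nat_lit 6) 
(.lf (nat_lit 231870) (.g (nat_lit 2089) (.e (nat_lit 98377) (nat_lit 30) (.e (nat_lit 458789) (nat_lit 23) (.e (nat_lit 532515) (nat_lit 3) (.e (nat_lit 114719) (nat_lit 23) (.e (nat_lit 98332) (nat_lit 18) (.e (nat_lit 164401) (nat_lit 256) (.e (nat_lit 57378) (nat_lit 3) .nil))))))) (.g (nat_lit 4) .nil .nil))) 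
(.lf (nat_lit 231934) (.g (nat_lit 1058) (.e (nat_lit 98380) (nat_lit 31) (.e (nat_lit 466954) (nat_lit 11) (.e (nat_lit 335986) (nat_lit 1) (.e (nat_lit 57657) (nat_lit 152) .nil)))) .nil)))))))) (.nd (nat_lit 1) (.nd (nat_lit 2) (.nd (nat_lit 3) (.nd (nat_lit 4) (.nd (nat_lit 5) (.nd (nat_lit 6) 
(.lf (nat_lit 231809) (.g (nat_lit 1486) (.e (nat_lit 98377) (nat_lit 30) (.e (nat_lit 458774) (nat_lit 18) (.e (nat_lit 5190) (nat_lit 294) (.e (nat_lit 57371) (nat_lit 2) (.e (nat_lit 98048) (nat_lit 6) .nil))))) .nil)) 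
(.lf (nat_lit 231873) (.g (nat_lit 2633) (.e (nat_lit 98377) (nat_lit 30) (.e (nat_lit 458789) (nat_lit 23) (.e (nat_lit 532579) (nat_lit 26) (.e (nat_lit 426124) (nat_lit 2) (.e (nat_lit 196658) (nat_lit 12) .nil))))) .nil))) (.nd (nat_lit 6) 
(.lf (nat_lit 231841) (.g (nat_lit 1082) (.e (nat_lit 98377) (nat_lit 30) (.e (nat_lit 458789) (nat_lit 23) (.e (nat_lit 532506) (nat_lit 2) (.e (nat_lit 106556) (nat_lit 15) .nil)))) .nil)) 
(.lf (nat_lit 231905) (.g (nat_lit 2226) (.e (nat_lit 98380) (nat_lit 31) (.e (nat_lit 466947) (nat_lit 0) (.e (nat_lit 1800) (nat_lit 119) (.e (nat_lit 516129) (nat_lit 3) (.e (nat_lit 221192) (nat_lit 11) (.e (nat_lit 336017) (nat_lit 3) .nil)))))) (.g (nat_lit 0) .nil .nil))))) (.nd (nat_lit 5) (.nd (nat_lit 6) 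
(.lf (nat_lit 231825) (.g (nat_lit 2252) (.e (nat_lit 98377) (nat_lit 30) (.e (nat_lit 458789) (nat_lit 23) (.e (nat_lit 532499) (nat_lit 1) (.e (nat_lit 57692) (nat_lit 156) (.e (nat_lit 163869) (nat_lit 2) .nil))))) .nil)) 
(.lf (nat_lit 231889) (.g (nat_lit 1175) (.e (nat_lit 98379) (nat_lit 31) (.e (nat_lit 466954) (nat_lit 11) (.e (nat_lit 335988) (nat_lit 1) .nil))) .nil))) (.nd (nat_lit 6) 
(.lf (nat_lit 231857) (.g (nat_lit 1009) (.e (nat_lit 98377) (nat_lit 30) (.e (nat_lit 458789) (nat_lit 23) (.e (nat_lit 532515) (nat_lit 3) (.e (nat_lit 114716) (nat_lit 22) .nil)))) .nil)) 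
(.lf (nat_lit 231921) (.g (nat_lit 1534) (.e (nat_lit 98380) (nat_lit 31) (.e (nat_lit 466947) (nat_lit 0) (.e (nat_lit 1856) (nat_lit 124) (.e (nat_lit 557103) (nat_lit 14) (.e (nat_lit 188160) (nat_lit 32) (.e (nat_lit 1256) (nat_lit 92) .nil)))))) (.g (nat_lit 4) .nil .nil)))))) (.nd (nat_lit 4) (.nd (nat_lit 5) (.nd (nat_lit 6) 
(.lf (nat_lit 231817) (.g (nat_lit 696) (.e (nat_lit 98377) (nat_lit 30) (.e (nat_lit 458789) (nat_lit 23) (.e (nat_lit 532484) (nat_lit 0) .nil))) .nil)) 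
(.lf (nat_lit 231881) (.g (nat_lit 2113) (.e (nat_lit 98378) (nat_lit 30) (.e (nat_lit 458789) (nat_lit 23) (.e (nat_lit 532484) (nat_lit 0) (.e (nat_lit 2198) (nat_lit 144) .nil)))) .nil))) (.nd (nat_lit 6) 
(.lf (nat_lit 231849) (.g (nat_lit 2449) (.e (nat_lit 98377) (nat_lit 30) (.e (nat_lit 458789) (nat_lit 23) (.e (nat_lit 532513) (nat_lit 3) (.e (nat_lit 114719) (nat_lit 23) (.e (nat_lit 98335) (nat_lit 18) (.e (nat_lit 164403) (nat_lit 256) (.e (nat_lit 57378) (nat_lit 3) .nil))))))) (.g (nat_lit 4) .nil .nil))) 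
(.lf (nat_lit 231913) (.g (nat_lit 3156) (.e (nat_lit 98380) (nat_lit 31) (.e (nat_lit 466947) (nat_lit 0) (.e (nat_lit 1855) (nat_lit 124) (.e (nat_lit 557101) (nat_lit 13) (.e (nat_lit 172124) (nat_lit 14) (.e (nat_lit 491540) (nat_lit 3) .nil)))))) (.g (nat_lit 0) .nil .nil))))) (.nd (nat_lit 5) (.nd (nat_lit 6) 
(.lf (nat_lit 231833) (.g (nat_lit 1038) (.e (nat_lit 98377) (nat_lit 30) (.e (nat_lit 458789) (nat_lit 23) (.e (nat_lit 532502) (nat_lit 1) .nil))) .nil)) 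
(.lf (nat_lit 231897) (.g (nat_lit 1706) (.e (nat_lit 98379) (nat_lit 31) (.e (nat_lit 466977) (nat_lit 22) (.e (nat_lit 196668) (nat_lit 14) (.e (nat_lit 73737) (nat_lit 0) (.e (nat_lit 5598) (nat_lit 310) .nil))))) .nil))) (.nd (nat_lit 6) 
(.lf (nat_lit 231865) (.g (nat_lit 2745) (.e (nat_lit 98377) (nat_lit 30) (.e (nat_lit 458789) (nat_lit 23) (.e (nat_lit 532515) (nat_lit 3) (.e (nat_lit 114716) (nat_lit 22) (.e (nat_lit 90196) (nat_lit 18) (.e (nat_lit 2798) (nat_lit 180) (.e (nat_lit 311040) (nat_lit 18) .nil))))))) (.g (nat_lit 6) .nil .nil))) 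
(.lf (nat_lit 231929) (.g (nat_lit 598) (.e (nat_lit 98380) (nat_lit 31) (.e (nat_lit 466954) (nat_lit 11) (.e (nat_lit 335897) (nat_lit 0) .nil))) .nil)))))) (.nd (nat_lit 3) (.nd (nat_lit 4) (.nd (nat_lit 5) (.nd (nat_lit 6) 
(.lf (nat_lit 231813) (.g (nat_lit 2506) (.e (nat_lit 98377) (nat_lit 30) (.e (nat_lit 458789) (nat_lit 23) (.e (nat_lit 532481) (nat_lit 0) (.e (nat_lit 2031) (nat_lit 140) (.e (nat_lit 688170) (nat_lit 15) .nil))))) .nil)) 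
(.lf (nat_lit 231877) (.g (nat_lit 2756) (.e (nat_lit 98377) (nat_lit 30) (.e (nat_lit 458789) (nat_lit 23) (.e (nat_lit 532579) (nat_lit 26) (.e (nat_lit 426139) (nat_lit 3) (.e (nat_lit 204830) (nat_lit 18) .nil))))) .nil))) (.nd (nat_lit 6) 
(.lf (nat_lit 231845) (.g (nat_lit 600) (.e (nat_lit 98377) (nat_lit 30) (.e (nat_lit 458789) (nat_lit 23) (.e (nat_lit 532513) (nat_lit 3) .nil))) .nil)) 
(.lf (nat_lit 231909) (.g (nat_lit 1503) (.e (nat_lit 98380) (nat_lit 31) (.e (nat_lit 466947) (nat_lit 0) (.e (nat_lit 1846) (nat_lit 124) (.e (nat_lit 557104) (nat_lit 14) (.e (nat_lit 180277) (nat_lit 32) (.e (nat_lit 1253) (nat_lit 92) .nil)))))) (.g (nat_lit 4) .nil .nil))))) (.nd (nat_lit 5) (.nd (nat_lit 6) 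
(.lf (nat_lit 231829) (.g (nat_lit 2005) (.e (nat_lit 98377) (nat_lit 30) (.e (nat_lit 458789) (nat_lit 23) (.e (nat_lit 532499) (nat_lit 1) (.e (nat_lit 57755) (nat_lit 209) (.e (nat_lit 1039) (nat_lit 81) .nil))))) .nil)) 
(.lf (nat_lit 231893) (.g (nat_lit 1449) (.e (nat_lit 98379) (nat_lit 31) (.e (nat_lit 466954) (nat_lit 11) (.e (nat_lit 336387) (nat_lit 27) (.e (nat_lit 426108) (nat_lit 1) .nil)))) .nil))) (.nd (nat_lit 6) 
(.lf (nat_lit 231861) (.g (nat_lit 1717) (.e (nat_lit 98377) (nat_lit 30) (.e (nat_lit 458789) (nat_lit 23) (.e (nat_lit 532515) (nat_lit 3) (.e (nat_lit 114716) (nat_lit 22) (.e (nat_lit 90164) (nat_lit 12) .nil))))) .nil)) 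
(.lf (nat_lit 231925) (.g (nat_lit 2035) (.e (nat_lit 98380) (nat_lit 31) (.e (nat_lit 466947) (nat_lit 0) (.e (nat_lit 7936) (nat_lit 124) (.e (nat_lit 557104) (nat_lit 14) (.e (nat_lit 180278) (nat_lit 32) (.e (nat_lit 1252) (nat_lit 92) .nil)))))) (.g (nat_lit 5) .nil .nil)))))) (.nd (nat_lit 4) (.nd (nat_lit 5) (.nd (nat_lit 6) 
(.lf (nat_lit 231821) (.g (nat_lit 1666) (.e (nat_lit 98377) (nat_lit 30) (.e (nat_lit 458789) (nat_lit 23) (.e (nat_lit 532499) (nat_lit 1) (.e (nat_lit 57686) (nat_lit 156) .nil)))) .nil)) 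
(.lf (nat_lit 231885) (.g (nat_lit 2867) (.e (nat_lit 98378) (nat_lit 30) (.e (nat_lit 458789) (nat_lit 23) (.e (nat_lit 532515) (nat_lit 3) (.e (nat_lit 114719) (nat_lit 23) (.e (nat_lit 98333) (nat_lit 18) .nil))))) .nil))) (.nd (nat_lit 6) 
(.lf (nat_lit 231853) (.g (nat_lit 1123) (.e (nat_lit 98377) (nat_lit 30) (.e (nat_lit 458789) (nat_lit 23) (.e (nat_lit 532515) (nat_lit 3) (.e (nat_lit 114713) (nat_lit 22) .nil)))) .nil)) 
(.lf (nat_lit 231917) (.g (nat_lit 1615) (.e (nat_lit 98380) (nat_lit 31) (.e (nat_lit 466947) (nat_lit 0) (.e (nat_lit 1855) (nat_lit 124) (.e (nat_lit 557105) (nat_lit 14) (.e (nat_lit 188160) (nat_lit 32) .nil))))) .nil)))) (.nd (nat_lit 5) (.nd (nat_lit 6) 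
(.lf (nat_lit 231837) (.g (nat_lit 2204) (.e (nat_lit 98377) (nat_lit 30) (.e (nat_lit 458789) (nat_lit 23) (.e (nat_lit 532502) (nat_lit 1) (.e (nat_lit 57692) (nat_lit 156) (.e (nat_lit 163871) (nat_lit 2) .nil))))) .nil)) 
(.lf (nat_lit 231901) (.g (nat_lit 1391) (.e (nat_lit 98379) (nat_lit 31) (.e (nat_lit 466979) (nat_lit 23) (.e (nat_lit 204846) (nat_lit 24) (.e (nat_lit 319528) (nat_lit 16) .nil)))) .nil))) (.nd (nat_lit 6) 
(.lf (nat_lit 231869) (.g (nat_lit 1968) (.e (nat_lit 98377) (nat_lit 30) (.e (nat_lit 458789) (nat_lit 23) (.e (nat_lit 532515) (nat_lit 3) (.e (nat_lit 114719) (nat_lit 23) (.e (nat_lit 98325) (nat_lit 17) .nil))))) .nil)) 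
(.lf (nat_lit 231933) (.g (nat_lit 1716) (.e (nat_lit 98380) (nat_lit 31) (.e (nat_lit 466954) (nat_lit 11) (.e (nat_lit 335986) (nat_lit 1) (.e (nat_lit 57654) (nat_lit 152) .nil)))) .nil))))))) (.nd (nat_lit 2) (.nd (nat_lit 3) (.nd (nat_lit 4) (.nd (nat_lit 5) (.nd (nat_lit 6) 
(.lf (nat_lit 231811) (.g (nat_lit 1126) (.e (nat_lit 98377) (nat_lit 30) (.e (nat_lit 458789) (nat_lit 23) (.e (nat_lit 532481) (nat_lit 0) .nil))) .nil)) 
(.lf (nat_lit 231875) (.g (nat_lit 3163) (.e (nat_lit 98377) (nat_lit 30) (.e (nat_lit 458789) (nat_lit 23) (.e (nat_lit 532579) (nat_lit 26) (.e (nat_lit 426139) (nat_lit 3) (.e (nat_lit 204815) (nat_lit 17) .nil))))) .nil))) (.nd (nat_lit 6) 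
(.lf (nat_lit 231843) (.g (nat_lit 1062) (.e (nat_lit 98377) (nat_lit 30) (.e (nat_lit 458789) (nat_lit 23) (.e (nat_lit 532508) (nat_lit 2) (.e (nat_lit 106517) (nat_lit 9) .nil)))) .nil)) 
(.lf (nat_lit 231907) (.g (nat_lit 1961) (.e (nat_lit 98380) (nat_lit 31) (.e (nat_lit 466947) (nat_lit 0) (.e (nat_lit 1800) (nat_lit 119) (.e (nat_lit 516131) (nat_lit 3) (.e (nat_lit 221191) (nat_lit 11) (.e (nat_lit 336017) (nat_lit 3) .nil)))))) (.g (nat_lit 0) .nil .nil))))) (.nd (nat_lit 5) (.nd (nat_lit 6) 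
(.lf (nat_lit 231827) (.g (nat_lit 1921) (.e (nat_lit 98377) (nat_lit 30) (.e (nat_lit 458789) (nat_lit 23) (.e (nat_lit 532499) (nat_lit 1) (.e (nat_lit 57754) (nat_lit 209) .nil)))) .nil)) 
(.lf (nat_lit 231891) (.g (nat_lit 2248) (.e (nat_lit 98379) (nat_lit 31) (.e (nat_lit 466954) (nat_lit 11) (.e (nat_lit 335996) (nat_lit 1) (.e (nat_lit 57692) (nat_lit 156) (.e (nat_lit 163905) (nat_lit 12) .nil))))) .nil))) (.nd (nat_lit 6) 
(.lf (nat_lit 231859) (.g (nat_lit 1999) (.e (nat_lit 98377) (nat_lit 30) (.e (nat_lit 458789) (nat_lit 23) (.e (nat_lit 532515) (nat_lit 3) (.e (nat_lit 114716) (nat_lit 22) (.e (nat_lit 90140) (nat_lit 9) .nil))))) .nil)) 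
(.lf (nat_lit 231923) (.g (nat_lit 1094) (.e (nat_lit 98380) (nat_lit 31) (.e (nat_lit 466947) (nat_lit 0) (.e (nat_lit 1856) (nat_lit 124) (.e (nat_lit 557105) (nat_lit 14) (.e (nat_lit 188160) (nat_lit 32) .nil))))) .nil))))) (.nd (nat_lit 4) (.nd (nat_lit 5) (.nd (nat_lit 6) 
(.lf (nat_lit 231819) (.g (nat_lit 1224) (.e (nat_lit 98377) (nat_lit 30) (.e (nat_lit 458789) (nat_lit 23) (.e (nat_lit 532484) (nat_lit 0) (.e (nat_lit 2198) (nat_lit 144) .nil)))) .nil)) 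
(.lf (nat_lit 231883) (.g (nat_lit 2293) (.e (nat_lit 98378) (nat_lit 30) (.e (nat_lit 458789) (nat_lit 23) (.e (nat_lit 532513) (nat_lit 3) (.e (nat_lit 114718) (nat_lit 23) .nil)))) .nil))) (.nd (nat_lit 6) 
(.lf (nat_lit 231851) (.g (nat_lit 1023) (.e (nat_lit 98377) (nat_lit 30) (.e (nat_lit 458789) (nat_lit 23) (.e (nat_lit 532515) (nat_lit 3) (.e (nat_lit 122624) (nat_lit 2) .nil)))) .nil)) 
(.lf (nat_lit 231915) (.g (nat_lit 2295) (.e (nat_lit 98380) (nat_lit 31) (.e (nat_lit 466947) (nat_lit 0) (.e (nat_lit 1855) (nat_lit 124) (.e (nat_lit 557103) (nat_lit 14) (.e (nat_lit 188160) (nat_lit 32) .nil))))) .nil)))) (.nd (nat_lit 5) (.nd (nat_lit 6) 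
(.lf (nat_lit 231835) (.g (nat_lit 1583) (.e (nat_lit 98377) (nat_lit 30) (.e (nat_lit 458789) (nat_lit 23) (.e (nat_lit 532502) (nat_lit 1) (.e (nat_lit 57692) (nat_lit 156) .nil)))) .nil)) 
(.lf (nat_lit 231899) (.g (nat_lit 1512) (.e (nat_lit 98379) (nat_lit 31) (.e (nat_lit 466977) (nat_lit 22) (.e (nat_lit 196681) (nat_lit 17) (.e (nat_lit 131088) (nat_lit 1) .nil)))) .nil))) (.nd (nat_lit 6) 
(.lf (nat_lit 231867) (.g (nat_lit 3801) (.e (nat_lit 98377) (nat_lit 30) (.e (nat_lit 458789) (nat_lit 23) (.e (nat_lit 532515) (nat_lit 3) (.e (nat_lit 114717) (nat_lit 23) (.e (nat_lit 98334) (nat_lit 18) (.e (nat_lit 164398) (nat_lit 256) (.e (nat_lit 57379) (nat_lit 3) .nil))))))) (.g (nat_lit 7) .nil .nil))) 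
(.lf (nat_lit 231931) (.g (nat_lit 1836) (.e (nat_lit 98380) (nat_lit 31) (.e (nat_lit 466954) (nat_lit 11) (.e (nat_lit 335912) (nat_lit 0) (.e (nat_lit 2265) (nat_lit 149) (.e (nat_lit 761903) (nat_lit 16) (.e (nat_lit 179968) (nat_lit 18) .nil)))))) (.g (nat_lit 5) .nil .nil))))))) (.nd (nat_lit 3) (.nd (nat_lit 4) (.nd (nat_lit 5) (.nd (nat_lit 6) 
(.lf (nat_lit 231815) (.g (nat_lit 2534) (.e (nat_lit 98377) (nat_lit 30) (.e (nat_lit 458789) (nat_lit 23) (.e (nat_lit 532481) (nat_lit 0) (.e (nat_lit 2031) (nat_lit 140) (.e (nat_lit 688171) (nat_lit 15) (.e (nat_lit 57478) (nat_lit 28) (.e (nat_lit 557096) (nat_lit 13) (.e (nat_lit 179968) (nat_lit 18) .nil)))))))) (.g (nat_lit 4) .nil .nil))) 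
(.lf (nat_lit 231879) (.g (nat_lit 1039) (.e (nat_lit 98378) (nat_lit 30) (.e (nat_lit 458774) (nat_lit 18) (.e (nat_lit 5046) (nat_lit 292) (.e (nat_lit 974) (nat_lit 81) .nil)))) .nil))) (.nd (nat_lit 6) 
(.lf (nat_lit 231847) (.g (nat_lit 1253) (.e (nat_lit 98377) (nat_lit 30) (.e (nat_lit 458789) (nat_lit 23) (.e (nat_lit 532513) (nat_lit 3) (.e (nat_lit 122624) (nat_lit 3) .nil)))) .nil)) 
(.lf (nat_lit 231911) (.g (nat_lit 3508) (.e (nat_lit 98380) (nat_lit 31) (.e (nat_lit 466947) (nat_lit 0) (.e (nat_lit 1855) (nat_lit 124) (.e (nat_lit 557098) (nat_lit 13) (.e (nat_lit 172126) (nat_lit 14) (.e (nat_lit 491540) (nat_lit 3) .nil)))))) (.g (nat_lit 6) .nil .nil))))) (.nd (nat_lit 5) (.nd (nat_lit 6) 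
(.lf (nat_lit 231831) (.g (nat_lit 1670) (.e (nat_lit 98377) (nat_lit 30) (.e (nat_lit 458789) (nat_lit 23) (.e (nat_lit 532501) (nat_lit 1) (.e (nat_lit 57730) (nat_lit 181) .nil)))) .nil)) 
(.lf (nat_lit 231895) (.g (nat_lit 1290) (.e (nat_lit 98379) (nat_lit 31) (.e (nat_lit 466974) (nat_lit 22) (.e (nat_lit 196681) (nat_lit 17) (.e (nat_lit 131088) (nat_lit 1) .nil)))) .nil))) (.nd (nat_lit 6) 
(.lf (nat_lit 231863) (.g (nat_lit 1542) (.e (nat_lit 98377) (nat_lit 30) (.e (nat_lit 458789) (nat_lit 23) (.e (nat_lit 532515) (nat_lit 3) (.e (nat_lit 114716) (nat_lit 22) (.e (nat_lit 90181) (nat_lit 16) .nil))))) .nil)) 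
(.lf (nat_lit 231927) (.g (nat_lit 3091) (.e (nat_lit 98380) (nat_lit 31) (.e (nat_lit 466952) (nat_lit 11) (.e (nat_lit 336390) (nat_lit 27) (.e (nat_lit 426098) (nat_lit 1) (.e (nat_lit 164398) (nat_lit 256) (.e (nat_lit 57378) (nat_lit 3) .nil)))))) (.g (nat_lit 0) .nil .nil)))))) (.nd (nat_lit 4) (.nd (nat_lit 5) (.nd (nat_lit 6) 
(.lf (nat_lit 231823) (.g (nat_lit 2589) (.e (nat_lit 98377) (nat_lit 30) (.e (nat_lit 458789) (nat_lit 23) (.e (nat_lit 532499) (nat_lit 1) (.e (nat_lit 57688) (nat_lit 156) (.e (nat_lit 163867) (nat_lit 2) .nil))))) .nil)) 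
(.lf (nat_lit 231887) (.g (nat_lit 1550) (.e (nat_lit 98379) (nat_lit 31) (.e (nat_lit 466954) (nat_lit 11) (.e (nat_lit 335986) (nat_lit 1) (.e (nat_lit 57691) (nat_lit 156) .nil)))) .nil))) (.nd (nat_lit 6) 
(.lf (nat_lit 231855) (.g (nat_lit 1597) (.e (nat_lit 98377) (nat_lit 30) (.e (nat_lit 458789) (nat_lit 23) (.e (nat_lit 532515) (nat_lit 3) (.e (nat_lit 114715) (nat_lit 22) (.e (nat_lit 90203) (nat_lit 21) (.e (nat_lit 164358) (nat_lit 246) (.e (nat_lit 112) (nat_lit 3) .nil))))))) (.g (nat_lit 4) .nil .nil))) 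
(.lf (nat_lit 231919) (.g (nat_lit 3127) (.e (nat_lit 98380) (nat_lit 31) (.e (nat_lit 466947) (nat_lit 0) (.e (nat_lit 1856) (nat_lit 124) (.e (nat_lit 557101) (nat_lit 13) (.e (nat_lit 172124) (nat_lit 14) (.e (nat_lit 491540) (nat_lit 3) .nil)))))) (.g (nat_lit 0) .nil .nil))))) (.nd (nat_lit 5) (.nd (nat_lit 6) 
(.lf (nat_lit 231839) (.g (nat_lit 1558) (.e (nat_lit 98377) (nat_lit 30) (.e (nat_lit 458789) (nat_lit 23) (.e (nat_lit 532503) (nat_lit 1) (.e (nat_lit 57688) (nat_lit 156) .nil)))) .nil)) 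
(.lf (nat_lit 231903) (.g (nat_lit 358) (.e (nat_lit 98380) (nat_lit 31) (.e (nat_lit 466947) (nat_lit 0) (.e (nat_lit 1781) (nat_lit 119) .nil))) .nil))) (.nd (nat_lit 6) 
(.lf (nat_lit 231871) (.g (nat_lit 4337) (.e (nat_lit 98377) (nat_lit 30) (.e (nat_lit 458789) (nat_lit 23) (.e (nat_lit 532515) (nat_lit 3) (.e (nat_lit 114719) (nat_lit 23) (.e (nat_lit 98334) (nat_lit 18) (.e (nat_lit 164398) (nat_lit 256) (.e (nat_lit 57379) (nat_lit 3) .nil))))))) (.g (nat_lit 7) .nil .nil))) 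
(.lf (nat_lit 231935) (.g (nat_lit 1796) (.e (nat_lit 98380) (nat_lit 31) (.e (nat_lit 466954) (nat_lit 11) (.e (nat_lit 335986) (nat_lit 1) (.e (nat_lit 57665) (nat_lit 152) .nil)))) .nil)))))))))

noncomputable def tv3034 : DT := (.nd (nat_lit 0) (.nd (nat_lit 1) (.nd (nat_lit 2) (.nd (nat_lit 3) (.nd (nat_lit 4) (.nd (nat_lit 5) 
(.lf (nat_lit 231936) (.g (nat_lit 834) (.e (nat_lit 98380) (nat_lit 31) (.e (nat_lit 466954) (nat_lit 11) (.e (nat_lit 335986) (nat_lit 1) (.e (nat_lit 57688) (nat_lit 156) .nil)))) .nil)) 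
(.lf (nat_lit 231968) (.g (nat_lit 2642) (.e (nat_lit 98380) (nat_lit 31) (.e (nat_lit 466954) (nat_lit 11) (.e (nat_lit 336385) (nat_lit 27) (.e (nat_lit 426098) (nat_lit 1) (.e (nat_lit 164398) (nat_lit 256) (.e (nat_lit 57379) (nat_lit 3) .nil)))))) (.g (nat_lit 5) .nil .nil)))) (.nd (nat_lit 5) 
(.lf (nat_lit 231952) (.g (nat_lit 1434) (.e (nat_lit 98380) (nat_lit 31) (.e (nat_lit 466954) (nat_lit 11) (.e (nat_lit 336287) (nat_lit 15) (.e (nat_lit 7096) (nat_lit 380) (.e (nat_lit 164353) (nat_lit 246) (.e (nat_lit 112) (nat_lit 3) .nil)))))) (.g (nat_lit 4) .nil .nil))) 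
(.lf (nat_lit 231984) (.g (nat_lit 843) (.e (nat_lit 98380) (nat_lit 31) (.e (nat_lit 466977) (nat_lit 22) (.e (nat_lit 196630) (nat_lit 9) .nil))) .nil)))) (.nd (nat_lit 4) (.nd (nat_lit 5) 
(.lf (nat_lit 231944) (.g (nat_lit 1473) (.e (nat_lit 98380) (nat_lit 31) (.e (nat_lit 466954) (nat_lit 11) (.e (nat_lit 335988) (nat_lit 1) (.e (nat_lit 57692) (nat_lit 156) (.e (nat_lit 163906) (nat_lit 12) .nil))))) .nil)) 
(.lf (nat_lit 231976) (.g (nat_lit 2446) (.e (nat_lit 98380) (nat_lit 31) (.e (nat_lit 466954) (nat_lit 11) (.e (nat_lit 336405) (nat_lit 27) (.e (nat_lit 426100) (nat_lit 1) (.e (nat_lit 164399) (nat_lit 256) (.e (nat_lit 57379) (nat_lit 3) .nil)))))) (.g (nat_lit 5) .nil .nil)))) (.nd (nat_lit 5) 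
(.lf (nat_lit 231960) (.g (nat_lit 1280) (.e (nat_lit 98380) (nat_lit 31) (.e (nat_lit 466954) (nat_lit 11) (.e (nat_lit 336288) (nat_lit 15) (.e (nat_lit 7097) (nat_lit 380) .nil)))) .nil)) 
(.lf (nat_lit 231992) (.g (nat_lit 1483) (.e (nat_lit 98380) (nat_lit 31) (.e (nat_lit 466979) (nat_lit 23) (.e (nat_lit 204846) (nat_lit 24) (.e (nat_lit 327424) (nat_lit 16) .nil)))) .nil))))) (.nd (nat_lit 3) (.nd (nat_lit 4) (.nd (nat_lit 5) 
(.lf (nat_lit 231940) (.g (nat_lit 549) (.e (nat_lit 98380) (nat_lit 31) (.e (nat_lit 466954) (nat_lit 11) (.e (nat_lit 335987) (nat_lit 1) .nil))) .nil)) 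
(.lf (nat_lit 231972) (.g (nat_lit 2708) (.e (nat_lit 98380) (nat_lit 31) (.e (nat_lit 466954) (nat_lit 11) (.e (nat_lit 336385) (nat_lit 27) (.e (nat_lit 426108) (nat_lit 1) (.e (nat_lit 164403) (nat_lit 256) (.e (nat_lit 57378) (nat_lit 3) .nil)))))) (.g (nat_lit 5) .nil .nil)))) (.nd (nat_lit 5) 
(.lf (nat_lit 231956) (.g (nat_lit 1195) (.e (nat_lit 98380) (nat_lit 31) (.e (nat_lit 466954) (nat_lit 11) (.e (nat_lit 336288) (nat_lit 15) (.e (nat_lit 6977) (nat_lit 377) .nil)))) .nil)) 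
(.lf (nat_lit 231988) (.g (nat_lit 1287) (.e (nat_lit 98380) (nat_lit 31) (.e (nat_lit 466977) (nat_lit 22) (.e (nat_lit 196677) (nat_lit 16) (.e (nat_lit 123080) (nat_lit 177) .nil)))) .nil)))) (.nd (nat_lit 4) (.nd (nat_lit 5) 
(.lf (nat_lit 231948) (.g (nat_lit 1833) (.e (nat_lit 98380) (nat_lit 31) (.e (nat_lit 466954) (nat_lit 11) (.e (nat_lit 335995) (nat_lit 1) (.e (nat_lit 57688) (nat_lit 156) (.e (nat_lit 163901) (nat_lit 12) .nil))))) .nil)) 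
(.lf (nat_lit 231980) (.g (nat_lit 1361) (.e (nat_lit 98380) (nat_lit 31) (.e (nat_lit 466974) (nat_lit 22) (.e (nat_lit 196681) (nat_lit 17) (.e (nat_lit 131089) (nat_lit 1) (.e (nat_lit 57929) (nat_lit 282) .nil))))) .nil))) (.nd (nat_lit 5) 
(.lf (nat_lit 231964) (.g (nat_lit 973) (.e (nat_lit 98380) (nat_lit 31) (.e (nat_lit 466954) (nat_lit 11) (.e (nat_lit 343808) (nat_lit 25) (.e (nat_lit 409646) (nat_lit 18) (.e (nat_lit 311040) (nat_lit 18) .nil))))) (.g (nat_lit 4) .nil .nil))) 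
(.lf (nat_lit 231996) (.g (nat_lit 1062) (.e (nat_lit 98380) (nat_lit 31) (.e (nat_lit 466980) (nat_lit 23) (.e (nat_lit 204846) (nat_lit 24) (.e (nat_lit 327424) (nat_lit 16) .nil)))) .nil)))))) (.nd (nat_lit 2) (.nd (nat_lit 3) (.nd (nat_lit 4) (.nd (nat_lit 5) 
(.lf (nat_lit 231938) (.g (nat_lit 1690) (.e (nat_lit 98380) (nat_lit 31) (.e (nat_lit 466954) (nat_lit 11) (.e (nat_lit 335986) (nat_lit 1) (.e (nat_lit 57689) (nat_lit 156) .nil)))) .nil)) 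
(.lf (nat_lit 231970) (.g (nat_lit 3534) (.e (nat_lit 98380) (nat_lit 31) (.e (nat_lit 466954) (nat_lit 11) (.e (nat_lit 336385) (nat_lit 27) (.e (nat_lit 426100) (nat_lit 1) (.e (nat_lit 164398) (nat_lit 256) (.e (nat_lit 57379) (nat_lit 3) .nil)))))) (.g (nat_lit 0) .nil .nil)))) (.nd (nat_lit 5) 
(.lf (nat_lit 231954) (.g (nat_lit 1469) (.e (nat_lit 98380) (nat_lit 31) (.e (nat_lit 466954) (nat_lit 11) (.e (nat_lit 336287) (nat_lit 15) (.e (nat_lit 7098) (nat_lit 380) (.e (nat_lit 164354) (nat_lit 246) (.e (nat_lit 112) (nat_lit 3) .nil)))))) (.g (nat_lit 4) .nil .nil))) 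
(.lf (nat_lit 231986) (.g (nat_lit 1619) (.e (nat_lit 98380) (nat_lit 31) (.e (nat_lit 466977) (nat_lit 22) (.e (nat_lit 196668) (nat_lit 14) (.e (nat_lit 73737) (nat_lit 0) .nil)))) .nil)))) (.nd (nat_lit 4) (.nd (nat_lit 5) 
(.lf (nat_lit 231946) (.g (nat_lit 1236) (.e (nat_lit 98380) (nat_lit 31) (.e (nat_lit 466954) (nat_lit 11) (.e (nat_lit 335994) (nat_lit 1) (.e (nat_lit 57692) (nat_lit 156) (.e (nat_lit 163906) (nat_lit 12) .nil))))) .nil)) 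
(.lf (nat_lit 231978) (.g (nat_lit 609) (.e (nat_lit 98380) (nat_lit 31) (.e (nat_lit 466974) (nat_lit 22) (.e (nat_lit 196626) (nat_lit 9) .nil))) .nil))) (.nd (nat_lit 5) 
(.lf (nat_lit 231962) (.g (nat_lit 1423) (.e (nat_lit 98380) (nat_lit 31) (.e (nat_lit 466954) (nat_lit 11) (.e (nat_lit 336288) (nat_lit 15) (.e (nat_lit 7103) (nat_lit 380) .nil)))) .nil)) 
(.lf (nat_lit 231994) (.g (nat_lit 1774) (.e (nat_lit 98380) (nat_lit 31) (.e (nat_lit 466979) (nat_lit 23) (.e (nat_lit 204861) (nat_lit 26) (.e (nat_lit 335988) (nat_lit 1) (.e (nat_lit 57927) (nat_lit 282) (.e (nat_lit 171776) (nat_lit 64) .nil)))))) (.g (nat_lit 4) .nil .nil)))))) (.nd (nat_lit 3) (.nd (nat_lit 4) (.nd (nat_lit 5) 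
(.lf (nat_lit 231942) (.g (nat_lit 1788) (.e (nat_lit 98380) (nat_lit 31) (.e (nat_lit 466954) (nat_lit 11) (.e (nat_lit 335988) (nat_lit 1) (.e (nat_lit 57665) (nat_lit 152) (.e (nat_lit 2616) (nat_lit 164) .nil))))) .nil)) 
(.lf (nat_lit 231974) (.g (nat_lit 3138) (.e (nat_lit 98380) (nat_lit 31) (.e (nat_lit 466954) (nat_lit 11) (.e (nat_lit 336387) (nat_lit 27) (.e (nat_lit 426098) (nat_lit 1) (.e (nat_lit 164398) (nat_lit 256) (.e (nat_lit 57379) (nat_lit 3) .nil)))))) (.g (nat_lit 0) .nil .nil)))) (.nd (nat_lit 5) 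
(.lf (nat_lit 231958) (.g (nat_lit 1560) (.e (nat_lit 98380) (nat_lit 31) (.e (nat_lit 466954) (nat_lit 11) (.e (nat_lit 336288) (nat_lit 15) (.e (nat_lit 6988) (nat_lit 377) (.e (nat_lit 7936) (nat_lit 157) .nil))))) .nil)) 
(.lf (nat_lit 231990) (.g (nat_lit 1745) (.e (nat_lit 98380) (nat_lit 31) (.e (nat_lit 466977) (nat_lit 22) (.e (nat_lit 196681) (nat_lit 17) (.e (nat_lit 131089) (nat_lit 1) (.e (nat_lit 57929) (nat_lit 282) .nil))))) .nil)))) (.nd (nat_lit 4) (.nd (nat_lit 5) 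
(.lf (nat_lit 231950) (.g (nat_lit 793) (.e (nat_lit 98380) (nat_lit 31) (.e (nat_lit 466954) (nat_lit 11) (.e (nat_lit 336046) (nat_lit 6) .nil))) .nil)) 
(.lf (nat_lit 231982) (.g (nat_lit 1546) (.e (nat_lit 98380) (nat_lit 31) (.e (nat_lit 466977) (nat_lit 22) (.e (nat_lit 196624) (nat_lit 9) (.e (nat_lit 7936) (nat_lit 106) .nil)))) .nil))) (.nd (nat_lit 5) 
(.lf (nat_lit 231966) (.g (nat_lit 871) (.e (nat_lit 98380) (nat_lit 31) (.e (nat_lit 466954) (nat_lit 11) (.e (nat_lit 343808) (nat_lit 25) (.e (nat_lit 409649) (nat_lit 18) (.e (nat_lit 311040) (nat_lit 18) .nil))))) (.g (nat_lit 4) .nil .nil))) 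
(.lf (nat_lit 231998) (.g (nat_lit 1744) (.e (nat_lit 98380) (nat_lit 31) (.e (nat_lit 466981) (nat_lit 23) (.e (nat_lit 204846) (nat_lit 24) (.e (nat_lit 319528) (nat_lit 16) .nil)))) .nil))))))) (.nd (nat_lit 1) (.nd (nat_lit 2) (.nd (nat_lit 3) (.nd (nat_lit 4) (.nd (nat_lit 5) 
(.lf (nat_lit 231937) (.g (nat_lit 1542) (.e (nat_lit 98380) (nat_lit 31) (.e (nat_lit 466954) (nat_lit 11) (.e (nat_lit 335986) (nat_lit 1) (.e (nat_lit 57688) (nat_lit 156) (.e (nat_lit 171776) (nat_lit 12) .nil))))) .nil)) 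
(.lf (nat_lit 231969) (.g (nat_lit 3574) (.e (nat_lit 98380) (nat_lit 31) (.e (nat_lit 466954) (nat_lit 11) (.e (nat_lit 336385) (nat_lit 27) (.e (nat_lit 426100) (nat_lit 1) (.e (nat_lit 164398) (nat_lit 256) (.e (nat_lit 57378) (nat_lit 3) .nil)))))) (.g (nat_lit 0) .nil .nil)))) (.nd (nat_lit 5) 
(.lf (nat_lit 231953) (.g (nat_lit 1549) (.e (nat_lit 98380) (nat_lit 31) (.e (nat_lit 466954) (nat_lit 11) (.e (nat_lit 336287) (nat_lit 15) (.e (nat_lit 7096) (nat_lit 380) (.e (nat_lit 164354) (nat_lit 246) (.e (nat_lit 112) (nat_lit 3) .nil)))))) (.g (nat_lit 4) .nil .nil))) 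
(.lf (nat_lit 231985) (.g (nat_lit 853) (.e (nat_lit 98380) (nat_lit 31) (.e (nat_lit 466977) (nat_lit 22) (.e (nat_lit 196661) (nat_lit 12) .nil))) .nil)))) (.nd (nat_lit 4) (.nd (nat_lit 5) 
(.lf (nat_lit 231945) (.g (nat_lit 1439) (.e (nat_lit 98380) (nat_lit 31) (.e (nat_lit 466954) (nat_lit 11) (.e (nat_lit 335994) (nat_lit 1) (.e (nat_lit 57688) (nat_lit 156) (.e (nat_lit 163901) (nat_lit 12) .nil))))) .nil)) 
(.lf (nat_lit 231977) (.g (nat_lit 779) (.e (nat_lit 98380) (nat_lit 31) (.e (nat_lit 466967) (nat_lit 20) (.e (nat_lit 3304) (nat_lit 202) (.e (nat_lit 581376) (nat_lit 0) .nil)))) .nil))) (.nd (nat_lit 5) 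
(.lf (nat_lit 231961) (.g (nat_lit 2721) (.e (nat_lit 98380) (nat_lit 31) (.e (nat_lit 466954) (nat_lit 11) (.e (nat_lit 336288) (nat_lit 15) (.e (nat_lit 7098) (nat_lit 380) (.e (nat_lit 164356) (nat_lit 246) (.e (nat_lit 112) (nat_lit 3) .nil)))))) (.g (nat_lit 6) .nil .nil))) 
(.lf (nat_lit 231993) (.g (nat_lit 2650) (.e (nat_lit 98380) (nat_lit 31) (.e (nat_lit 466979) (nat_lit 23) (.e (nat_lit 204861) (nat_lit 26) (.e (nat_lit 335988) (nat_lit 1) (.e (nat_lit 57926) (nat_lit 282) (.e (nat_lit 171776) (nat_lit 64) .nil)))))) (.g (nat_lit 5) .nil .nil)))))) (.nd (nat_lit 3) (.nd (nat_lit 4) (.nd (nat_lit 5) 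
(.lf (nat_lit 231941) (.g (nat_lit 374) (.e (nat_lit 98380) (nat_lit 31) (.e (nat_lit 466954) (nat_lit 11) (.e (nat_lit 335988) (nat_lit 1) .nil))) .nil)) 
(.lf (nat_lit 231973) (.g (nat_lit 435) (.e (nat_lit 98380) (nat_lit 31) (.e (nat_lit 466954) (nat_lit 11) (.e (nat_lit 336387) (nat_lit 27) .nil))) .nil))) (.nd (nat_lit 5) 
(.lf (nat_lit 231957) (.g (nat_lit 1251) (.e (nat_lit 98380) (nat_lit 31) (.e (nat_lit 466954) (nat_lit 11) (.e (nat_lit 336288) (nat_lit 15) (.e (nat_lit 6988) (nat_lit 377) .nil)))) .nil)) 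
(.lf (nat_lit 231989) (.g (nat_lit 1355) (.e (nat_lit 98380) (nat_lit 31) (.e (nat_lit 466977) (nat_lit 22) (.e (nat_lit 196681) (nat_lit 17) (.e (nat_lit 131088) (nat_lit 1) .nil)))) .nil)))) (.nd (nat_lit 4) (.nd (nat_lit 5) 
(.lf (nat_lit 231949) (.g (nat_lit 799) (.e (nat_lit 98380) (nat_lit 31) (.e (nat_lit 466954) (nat_lit 11) (.e (nat_lit 336033) (nat_lit 4) .nil))) .nil)) 
(.lf (nat_lit 231981) (.g (nat_lit 760) (.e (nat_lit 98380) (nat_lit 31) (.e (nat_lit 466977) (nat_lit 22) (.e (nat_lit 196624) (nat_lit 9) .nil))) .nil))) (.nd (nat_lit 5) 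
(.lf (nat_lit 231965) (.g (nat_lit 1035) (.e (nat_lit 98380) (nat_lit 31) (.e (nat_lit 466954) (nat_lit 11) (.e (nat_lit 343808) (nat_lit 25) (.e (nat_lit 409648) (nat_lit 18) (.e (nat_lit 311040) (nat_lit 18) .nil))))) (.g (nat_lit 4) .nil .nil))) 
(.lf (nat_lit 231997) (.g (nat_lit 1968) (.e (nat_lit 98380) (nat_lit 31) (.e (nat_lit 466981) (nat_lit 23) (.e (nat_lit 204846) (nat_lit 24) (.e (nat_lit 319511) (nat_lit 10) (.e (nat_lit 5293) (nat_lit 298) .nil))))) .nil)))))) (.nd (nat_lit 2) (.nd (nat_lit 3) (.nd (nat_lit 4) (.nd (nat_lit 5) 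
(.lf (nat_lit 231939) (.g (nat_lit 1623) (.e (nat_lit 98380) (nat_lit 31) (.e (nat_lit 466954) (nat_lit 11) (.e (nat_lit 335986) (nat_lit 1) (.e (nat_lit 57692) (nat_lit 156) (.e (nat_lit 163906) (nat_lit 12) .nil))))) .nil)) 
(.lf (nat_lit 231971) (.g (nat_lit 3225) (.e (nat_lit 98380) (nat_lit 31) (.e (nat_lit 466954) (nat_lit 11) (.e (nat_lit 336385) (nat_lit 27) (.e (nat_lit 426100) (nat_lit 1) (.e (nat_lit 164403) (nat_lit 256) (.e (nat_lit 57378) (nat_lit 3) .nil)))))) (.g (nat_lit 5) .nil .nil)))) (.nd (nat_lit 5) 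
(.lf (nat_lit 231955) (.g (nat_lit 1278) (.e (nat_lit 98380) (nat_lit 31) (.e (nat_lit 466954) (nat_lit 11) (.e (nat_lit 336288) (nat_lit 15) (.e (nat_lit 6972) (nat_lit 377) .nil)))) .nil)) 
(.lf (nat_lit 231987) (.g (nat_lit 506) (.e (nat_lit 98380) (nat_lit 31) (.e (nat_lit 466977) (nat_lit 22) (.e (nat_lit 196677) (nat_lit 16) .nil))) .nil)))) (.nd (nat_lit 4) (.nd (nat_lit 5) 
(.lf (nat_lit 231947) (.g (nat_lit 1422) (.e (nat_lit 98380) (nat_lit 31) (.e (nat_lit 466954) (nat_lit 11) (.e (nat_lit 335995) (nat_lit 1) (.e (nat_lit 57653) (nat_lit 152) .nil)))) .nil)) 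
(.lf (nat_lit 231979) (.g (nat_lit 1063) (.e (nat_lit 98380) (nat_lit 31) (.e (nat_lit 466974) (nat_lit 22) (.e (nat_lit 196681) (nat_lit 17) (.e (nat_lit 131088) (nat_lit 1) .nil)))) .nil))) (.nd (nat_lit 5) 
(.lf (nat_lit 231963) (.g (nat_lit 1423) (.e (nat_lit 98380) (nat_lit 31) (.e (nat_lit 466954) (nat_lit 11) (.e (nat_lit 336288) (nat_lit 15) (.e (nat_lit 7104) (nat_lit 380) .nil)))) .nil)) 
(.lf (nat_lit 231995) (.g (nat_lit 2260) (.e (nat_lit 98380) (nat_lit 31) (.e (nat_lit 466980) (nat_lit 23) (.e (nat_lit 204846) (nat_lit 24) (.e (nat_lit 319511) (nat_lit 10) (.e (nat_lit 5293) (nat_lit 298) (.e (nat_lit 1250) (nat_lit 92) .nil)))))) (.g (nat_lit 5) .nil .nil)))))) (.nd (nat_lit 3) (.nd (nat_lit 4) (.nd (nat_lit 5) 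
(.lf (nat_lit 231943) (.g (nat_lit 1585) (.e (nat_lit 98380) (nat_lit 31) (.e (nat_lit 466954) (nat_lit 11) (.e (nat_lit 335988) (nat_lit 1) (.e (nat_lit 57665) (nat_lit 152) (.e (nat_lit 7936) (nat_lit 164) .nil))))) .nil)) 
(.lf (nat_lit 231975) (.g (nat_lit 3223) (.e (nat_lit 98380) (nat_lit 31) (.e (nat_lit 466954) (nat_lit 11) (.e (nat_lit 336405) (nat_lit 27) (.e (nat_lit 426100) (nat_lit 1) (.e (nat_lit 164398) (nat_lit 256) (.e (nat_lit 57379) (nat_lit 3) .nil)))))) (.g (nat_lit 6) .nil .nil)))) (.nd (nat_lit 5) 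
(.lf (nat_lit 231959) (.g (nat_lit 2730) (.e (nat_lit 98380) (nat_lit 31) (.e (nat_lit 466954) (nat_lit 11) (.e (nat_lit 336288) (nat_lit 15) (.e (nat_lit 7096) (nat_lit 380) (.e (nat_lit 164358) (nat_lit 246) (.e (nat_lit 112) (nat_lit 3) .nil)))))) (.g (nat_lit 6) .nil .nil))) 
(.lf (nat_lit 231991) (.g (nat_lit 299) (.e (nat_lit 98380) (nat_lit 31) (.e (nat_lit 466979) (nat_lit 23) (.e (nat_lit 212736) (nat_lit 1) .nil))) .nil)))) (.nd (nat_lit 4) (.nd (nat_lit 5) 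
(.lf (nat_lit 231951) (.g (nat_lit 1154) (.e (nat_lit 98380) (nat_lit 31) (.e (nat_lit 466954) (nat_lit 11) (.e (nat_lit 336275) (nat_lit 15) (.e (nat_lit 7103) (nat_lit 380) .nil)))) .nil)) 
(.lf (nat_lit 231983) (.g (nat_lit 1521) (.e (nat_lit 98380) (nat_lit 31) (.e (nat_lit 466977) (nat_lit 22) (.e (nat_lit 196626) (nat_lit 9) (.e (nat_lit 1400) (nat_lit 106) (.e (nat_lit 319532) (nat_lit 16) .nil))))) .nil))) (.nd (nat_lit 5) 
(.lf (nat_lit 231967) (.g (nat_lit 2655) (.e (nat_lit 98380) (nat_lit 31) (.e (nat_lit 466954) (nat_lit 11) (.e (nat_lit 336385) (nat_lit 27) (.e (nat_lit 426098) (nat_lit 1) (.e (nat_lit 164398) (nat_lit 256) (.e (nat_lit 57378) (nat_lit 3) .nil)))))) (.g (nat_lit 5) .nil .nil))) 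
(.lf (nat_lit 231999) (.g (nat_lit 2562) (.e (nat_lit 98380) (nat_lit 31) (.e (nat_lit 466981) (nat_lit 23) (.e (nat_lit 204846) (nat_lit 24) (.e (nat_lit 319530) (nat_lit 16) (.e (nat_lit 286735) (nat_lit 3) .nil))))) .nil))))))))

noncomputable def tv3035 : DT := (.nd (nat_lit 0) (.nd (nat_lit 1) (.nd (nat_lit 2) (.nd (nat_lit 3) (.nd (nat_lit 4) (.nd (nat_lit 5) 
(.lf (nat_lit 232000) (.g (nat_lit 2472) (.e (nat_lit 98380) (nat_lit 31) (.e (nat_lit 466981) (nat_lit 23) (.e (nat_lit 204846) (nat_lit 24) (.e (nat_lit 319534) (nat_lit 16) (.e (nat_lit 286735) (nat_lit 3) .nil))))) .nil)) 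
(.lf (nat_lit 232032) (.g (nat_lit 2694) (.e (nat_lit 98381) (nat_lit 31) (.e (nat_lit 466947) (nat_lit 0) (.e (nat_lit 1856) (nat_lit 124) (.e (nat_lit 557105) (nat_lit 14) (.e (nat_lit 180278) (nat_lit 32) (.e (nat_lit 1253) (nat_lit 92) .nil)))))) (.g (nat_lit 0) .nil .nil)))) (.nd (nat_lit 5) 
(.lf (nat_lit 232016) (.g (nat_lit 2896) (.e (nat_lit 98381) (nat_lit 31) (.e (nat_lit 466947) (nat_lit 0) (.e (nat_lit 1855) (nat_lit 124) (.e (nat_lit 557101) (nat_lit 13) (.e (nat_lit 172126) (nat_lit 14) (.e (nat_lit 491540) (nat_lit 3) .nil)))))) (.g (nat_lit 6) .nil .nil))) 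
(.lf (nat_lit 232048) (.g (nat_lit 1532) (.e (nat_lit 98381) (nat_lit 31) (.e (nat_lit 466954) (nat_lit 11) (.e (nat_lit 335986) (nat_lit 1) (.e (nat_lit 57692) (nat_lit 156) (.e (nat_lit 171776) (nat_lit 12) .nil))))) .nil)))) (.nd (nat_lit 4) (.nd (nat_lit 5) 
(.lf (nat_lit 232008) (.g (nat_lit 2352) (.e (nat_lit 98381) (nat_lit 31) (.e (nat_lit 466947) (nat_lit 0) (.e (nat_lit 1800) (nat_lit 119) (.e (nat_lit 516129) (nat_lit 3) (.e (nat_lit 221193) (nat_lit 11) (.e (nat_lit 336026) (nat_lit 3) .nil)))))) (.g (nat_lit 0) .nil .nil))) 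
(.lf (nat_lit 232040) (.g (nat_lit 806) (.e (nat_lit 98381) (nat_lit 31) (.e (nat_lit 466954) (nat_lit 11) (.e (nat_lit 335912) (nat_lit 0) .nil))) .nil))) (.nd (nat_lit 5) 
(.lf (nat_lit 232024) (.g (nat_lit 3187) (.e (nat_lit 98381) (nat_lit 31) (.e (nat_lit 466947) (nat_lit 0) (.e (nat_lit 1856) (nat_lit 124) (.e (nat_lit 557101) (nat_lit 13) (.e (nat_lit 172124) (nat_lit 14) (.e (nat_lit 491540) (nat_lit 3) .nil)))))) (.g (nat_lit 0) .nil .nil))) 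
(.lf (nat_lit 232056) (.g (nat_lit 1156) (.e (nat_lit 98381) (nat_lit 31) (.e (nat_lit 466954) (nat_lit 11) (.e (nat_lit 336275) (nat_lit 15) (.e (nat_lit 7103) (nat_lit 380) .nil)))) .nil))))) (.nd (nat_lit 3) (.nd (nat_lit 4) (.nd (nat_lit 5) 
(.lf (nat_lit 232004) (.g (nat_lit 344) (.e (nat_lit 98381) (nat_lit 31) (.e (nat_lit 466947) (nat_lit 0) (.e (nat_lit 1781) (nat_lit 119) .nil))) .nil)) 
(.lf (nat_lit 232036) (.g (nat_lit 3272) (.e (nat_lit 98381) (nat_lit 31) (.e (nat_lit 466952) (nat_lit 11) (.e (nat_lit 336390) (nat_lit 27) (.e (nat_lit 426098) (nat_lit 1) (.e (nat_lit 164398) (nat_lit 256) (.e (nat_lit 57378) (nat_lit 3) .nil)))))) (.g (nat_lit 0) .nil .nil)))) (.nd (nat_lit 5) 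
(.lf (nat_lit 232020) (.g (nat_lit 2314) (.e (nat_lit 98381) (nat_lit 31) (.e (nat_lit 466947) (nat_lit 0) (.e (nat_lit 1855) (nat_lit 124) (.e (nat_lit 557103) (nat_lit 14) (.e (nat_lit 188160) (nat_lit 32) .nil))))) .nil)) 
(.lf (nat_lit 232052) (.g (nat_lit 346) (.e (nat_lit 98381) (nat_lit 31) (.e (nat_lit 466954) (nat_lit 11) (.e (nat_lit 335988) (nat_lit 1) .nil))) .nil)))) (.nd (nat_lit 4) (.nd (nat_lit 5) 
(.lf (nat_lit 232012) (.g (nat_lit 3855) (.e (nat_lit 98381) (nat_lit 31) (.e (nat_lit 466947) (nat_lit 0) (.e (nat_lit 1855) (nat_lit 124) (.e (nat_lit 557098) (nat_lit 13) (.e (nat_lit 172124) (nat_lit 14) (.e (nat_lit 491540) (nat_lit 3) .nil)))))) (.g (nat_lit 0) .nil .nil))) 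
(.lf (nat_lit 232044) (.g (nat_lit 2106) (.e (nat_lit 98381) (nat_lit 31) (.e (nat_lit 466954) (nat_lit 11) (.e (nat_lit 335986) (nat_lit 1) (.e (nat_lit 57667) (nat_lit 152) (.e (nat_lit 2619) (nat_lit 164) .nil))))) .nil))) (.nd (nat_lit 5) 
(.lf (nat_lit 232028) (.g (nat_lit 1522) (.e (nat_lit 98381) (nat_lit 31) (.e (nat_lit 466947) (nat_lit 0) (.e (nat_lit 1856) (nat_lit 124) (.e (nat_lit 557103) (nat_lit 14) (.e (nat_lit 188160) (nat_lit 32) (.e (nat_lit 1245) (nat_lit 92) .nil)))))) (.g (nat_lit 4) .nil .nil))) 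
(.lf (nat_lit 232060) (.g (nat_lit 1570) (.e (nat_lit 98381) (nat_lit 31) (.e (nat_lit 466954) (nat_lit 11) (.e (nat_lit 336287) (nat_lit 15) (.e (nat_lit 7098) (nat_lit 380) (.e (nat_lit 164354) (nat_lit 246) (.e (nat_lit 112) (nat_lit 3) .nil)))))) (.g (nat_lit 4) .nil .nil))))))) (.nd (nat_lit 2) (.nd (nat_lit 3) (.nd (nat_lit 4) (.nd (nat_lit 5) 
(.lf (nat_lit 232002) (.g (nat_lit 2717) (.e (nat_lit 98380) (nat_lit 31) (.e (nat_lit 466981) (nat_lit 23) (.e (nat_lit 204861) (nat_lit 26) (.e (nat_lit 335988) (nat_lit 1) (.e (nat_lit 57926) (nat_lit 282) (.e (nat_lit 171776) (nat_lit 64) .nil)))))) (.g (nat_lit 5) .nil .nil))) 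
(.lf (nat_lit 232034) (.g (nat_lit 2090) (.e (nat_lit 98381) (nat_lit 31) (.e (nat_lit 466947) (nat_lit 0) (.e (nat_lit 7936) (nat_lit 124) (.e (nat_lit 557104) (nat_lit 14) (.e (nat_lit 180278) (nat_lit 32) (.e (nat_lit 1252) (nat_lit 92) .nil)))))) (.g (nat_lit 5) .nil .nil)))) (.nd (nat_lit 5) 
(.lf (nat_lit 232018) (.g (nat_lit 2592) (.e (nat_lit 98381) (nat_lit 31) (.e (nat_lit 466947) (nat_lit 0) (.e (nat_lit 1855) (nat_lit 124) (.e (nat_lit 557103) (nat_lit 14) (.e (nat_lit 180277) (nat_lit 32) (.e (nat_lit 1253) (nat_lit 92) .nil)))))) (.g (nat_lit 4) .nil .nil))) 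
(.lf (nat_lit 232050) (.g (nat_lit 1563) (.e (nat_lit 98381) (nat_lit 31) (.e (nat_lit 466954) (nat_lit 11) (.e (nat_lit 335987) (nat_lit 1) (.e (nat_lit 57692) (nat_lit 156) (.e (nat_lit 163905) (nat_lit 12) .nil))))) .nil)))) (.nd (nat_lit 4) (.nd (nat_lit 5) 
(.lf (nat_lit 232010) (.g (nat_lit 1373) (.e (nat_lit 98381) (nat_lit 31) (.e (nat_lit 466947) (nat_lit 0) (.e (nat_lit 1846) (nat_lit 124) (.e (nat_lit 557104) (nat_lit 14) (.e (nat_lit 180277) (nat_lit 32) (.e (nat_lit 1252) (nat_lit 92) .nil)))))) (.g (nat_lit 4) .nil .nil))) 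
(.lf (nat_lit 232042) (.g (nat_lit 1949) (.e (nat_lit 98381) (nat_lit 31) (.e (nat_lit 466954) (nat_lit 11) (.e (nat_lit 335986) (nat_lit 1) (.e (nat_lit 57652) (nat_lit 152) (.e (nat_lit 2633) (nat_lit 164) .nil))))) .nil))) (.nd (nat_lit 5) 
(.lf (nat_lit 232026) (.g (nat_lit 2660) (.e (nat_lit 98381) (nat_lit 31) (.e (nat_lit 466947) (nat_lit 0) (.e (nat_lit 1856) (nat_lit 124) (.e (nat_lit 557103) (nat_lit 14) (.e (nat_lit 180277) (nat_lit 32) (.e (nat_lit 1253) (nat_lit 92) .nil)))))) (.g (nat_lit 0) .nil .nil))) 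
(.lf (nat_lit 232058) (.g (nat_lit 1531) (.e (nat_lit 98381) (nat_lit 31) (.e (nat_lit 466954) (nat_lit 11) (.e (nat_lit 336287) (nat_lit 15) (.e (nat_lit 7096) (nat_lit 380) (.e (nat_lit 164353) (nat_lit 246) (.e (nat_lit 112) (nat_lit 3) .nil)))))) (.g (nat_lit 4) .nil .nil)))))) (.nd (nat_lit 3) (.nd (nat_lit 4) (.nd (nat_lit 5) 
(.lf (nat_lit 232006) (.g (nat_lit 2023) (.e (nat_lit 98381) (nat_lit 31) (.e (nat_lit 466947) (nat_lit 0) (.e (nat_lit 1800) (nat_lit 119) (.e (nat_lit 516120) (nat_lit 1) (.e (nat_lit 164226) (nat_lit 181) .nil))))) .nil)) 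
(.lf (nat_lit 232038) (.g (nat_lit 635) (.e (nat_lit 98381) (nat_lit 31) (.e (nat_lit 466954) (nat_lit 11) (.e (nat_lit 335897) (nat_lit 0) .nil))) .nil))) (.nd (nat_lit 5) 
(.lf (nat_lit 232022) (.g (nat_lit 3867) (.e (nat_lit 98381) (nat_lit 31) (.e (nat_lit 466947) (nat_lit 0) (.e (nat_lit 1856) (nat_lit 124) (.e (nat_lit 557100) (nat_lit 13) (.e (nat_lit 172124) (nat_lit 14) (.e (nat_lit 491540) (nat_lit 3) .nil)))))) (.g (nat_lit 0) .nil .nil))) 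
(.lf (nat_lit 232054) (.g (nat_lit 1599) (.e (nat_lit 98381) (nat_lit 31) (.e (nat_lit 466954) (nat_lit 11) (.e (nat_lit 335995) (nat_lit 1) (.e (nat_lit 57653) (nat_lit 152) (.e (nat_lit 2633) (nat_lit 164) .nil))))) .nil)))) (.nd (nat_lit 4) (.nd (nat_lit 5) 
(.lf (nat_lit 232014) (.g (nat_lit 3724) (.e (nat_lit 98381) (nat_lit 31) (.e (nat_lit 466947) (nat_lit 0) (.e (nat_lit 1855) (nat_lit 124) (.e (nat_lit 557100) (nat_lit 13) (.e (nat_lit 172124) (nat_lit 14) (.e (nat_lit 491540) (nat_lit 3) .nil)))))) (.g (nat_lit 6) .nil .nil))) 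
(.lf (nat_lit 232046) (.g (nat_lit 1713) (.e (nat_lit 98381) (nat_lit 31) (.e (nat_lit 466954) (nat_lit 11) (.e (nat_lit 335986) (nat_lit 1) (.e (nat_lit 57689) (nat_lit 156) .nil)))) .nil))) (.nd (nat_lit 5) 
(.lf (nat_lit 232030) (.g (nat_lit 2343) (.e (nat_lit 98381) (nat_lit 31) (.e (nat_lit 466947) (nat_lit 0) (.e (nat_lit 1856) (nat_lit 124) (.e (nat_lit 557104) (nat_lit 14) (.e (nat_lit 180278) (nat_lit 32) (.e (nat_lit 1253) (nat_lit 92) .nil)))))) (.g (nat_lit 4) .nil .nil))) 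
(.lf (nat_lit 232062) (.g (nat_lit 1293) (.e (nat_lit 98381) (nat_lit 31) (.e (nat_lit 466954) (nat_lit 11) (.e (nat_lit 336288) (nat_lit 15) (.e (nat_lit 6972) (nat_lit 377) .nil)))) .nil))))))) (.nd (nat_lit 1) (.nd (nat_lit 2) (.nd (nat_lit 3) (.nd (nat_lit 4) (.nd (nat_lit 5) 
(.lf (nat_lit 232001) (.g (nat_lit 1663) (.e (nat_lit 98380) (nat_lit 31) (.e (nat_lit 466981) (nat_lit 23) (.e (nat_lit 204846) (nat_lit 24) (.e (nat_lit 319535) (nat_lit 17) .nil)))) .nil)) 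
(.lf (nat_lit 232033) (.g (nat_lit 1524) (.e (nat_lit 98381) (nat_lit 31) (.e (nat_lit 466947) (nat_lit 0) (.e (nat_lit 1856) (nat_lit 124) (.e (nat_lit 557105) (nat_lit 14) (.e (nat_lit 188160) (nat_lit 32) (.e (nat_lit 1245) (nat_lit 92) .nil)))))) (.g (nat_lit 4) .nil .nil)))) (.nd (nat_lit 5) 
(.lf (nat_lit 232017) (.g (nat_lit 2475) (.e (nat_lit 98381) (nat_lit 31) (.e (nat_lit 466947) (nat_lit 0) (.e (nat_lit 1855) (nat_lit 124) (.e (nat_lit 557103) (nat_lit 14) (.e (nat_lit 180277) (nat_lit 32) .nil))))) .nil)) 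
(.lf (nat_lit 232049) (.g (nat_lit 728) (.e (nat_lit 98381) (nat_lit 31) (.e (nat_lit 466954) (nat_lit 11) (.e (nat_lit 335987) (nat_lit 1) .nil))) .nil)))) (.nd (nat_lit 4) (.nd (nat_lit 5) 
(.lf (nat_lit 232009) (.g (nat_lit 2394) (.e (nat_lit 98381) (nat_lit 31) (.e (nat_lit 466947) (nat_lit 0) (.e (nat_lit 1800) (nat_lit 119) (.e (nat_lit 516131) (nat_lit 3) (.e (nat_lit 221194) (nat_lit 11) (.e (nat_lit 336026) (nat_lit 3) .nil)))))) (.g (nat_lit 0) .nil .nil))) 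
(.lf (nat_lit 232041) (.g (nat_lit 805) (.e (nat_lit 98381) (nat_lit 31) (.e (nat_lit 466954) (nat_lit 11) (.e (nat_lit 335913) (nat_lit 0) .nil))) .nil))) (.nd (nat_lit 5) 
(.lf (nat_lit 232025) (.g (nat_lit 2923) (.e (nat_lit 98381) (nat_lit 31) (.e (nat_lit 466947) (nat_lit 0) (.e (nat_lit 1856) (nat_lit 124) (.e (nat_lit 557101) (nat_lit 13) (.e (nat_lit 172126) (nat_lit 14) (.e (nat_lit 491540) (nat_lit 3) .nil)))))) (.g (nat_lit 0) .nil .nil))) 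
(.lf (nat_lit 232057) (.g (nat_lit 648) (.e (nat_lit 98381) (nat_lit 31) (.e (nat_lit 466954) (nat_lit 11) (.e (nat_lit 336287) (nat_lit 15) .nil))) .nil))))) (.nd (nat_lit 3) (.nd (nat_lit 4) (.nd (nat_lit 5) 
(.lf (nat_lit 232005) (.g (nat_lit 1804) (.e (nat_lit 98381) (nat_lit 31) (.e (nat_lit 466947) (nat_lit 0) (.e (nat_lit 1800) (nat_lit 119) (.e (nat_lit 516117) (nat_lit 1) (.e (nat_lit 164226) (nat_lit 181) .nil))))) .nil)) 
(.lf (nat_lit 232037) (.g (nat_lit 3020) (.e (nat_lit 98381) (nat_lit 31) (.e (nat_lit 466952) (nat_lit 11) (.e (nat_lit 336390) (nat_lit 27) (.e (nat_lit 426098) (nat_lit 1) (.e (nat_lit 164398) (nat_lit 256) (.e (nat_lit 57379) (nat_lit 3) .nil)))))) (.g (nat_lit 6) .nil .nil)))) (.nd (nat_lit 5) 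
(.lf (nat_lit 232021) (.g (nat_lit 1642) (.e (nat_lit 98381) (nat_lit 31) (.e (nat_lit 466947) (nat_lit 0) (.e (nat_lit 1855) (nat_lit 124) (.e (nat_lit 557105) (nat_lit 14) (.e (nat_lit 188160) (nat_lit 32) .nil))))) .nil)) 
(.lf (nat_lit 232053) (.g (nat_lit 1403) (.e (nat_lit 98381) (nat_lit 31) (.e (nat_lit 466954) (nat_lit 11) (.e (nat_lit 335994) (nat_lit 1) (.e (nat_lit 57688) (nat_lit 156) (.e (nat_lit 163901) (nat_lit 12) .nil))))) .nil)))) (.nd (nat_lit 4) (.nd (nat_lit 5) 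
(.lf (nat_lit 232013) (.g (nat_lit 3634) (.e (nat_lit 98381) (nat_lit 31) (.e (nat_lit 466947) (nat_lit 0) (.e (nat_lit 1855) (nat_lit 124) (.e (nat_lit 557098) (nat_lit 13) (.e (nat_lit 172126) (nat_lit 14) (.e (nat_lit 491540) (nat_lit 3) .nil)))))) (.g (nat_lit 6) .nil .nil))) 
(.lf (nat_lit 232045) (.g (nat_lit 1522) (.e (nat_lit 98381) (nat_lit 31) (.e (nat_lit 466954) (nat_lit 11) (.e (nat_lit 335986) (nat_lit 1) (.e (nat_lit 57688) (nat_lit 156) (.e (nat_lit 171776) (nat_lit 12) .nil))))) .nil))) (.nd (nat_lit 5) 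
(.lf (nat_lit 232029) (.g (nat_lit 2215) (.e (nat_lit 98381) (nat_lit 31) (.e (nat_lit 466947) (nat_lit 0) (.e (nat_lit 1856) (nat_lit 124) (.e (nat_lit 557104) (nat_lit 14) (.e (nat_lit 180278) (nat_lit 32) (.e (nat_lit 1252) (nat_lit 92) .nil)))))) (.g (nat_lit 4) .nil .nil))) 
(.lf (nat_lit 232061) (.g (nat_lit 407) (.e (nat_lit 98381) (nat_lit 31) (.e (nat_lit 466954) (nat_lit 11) (.e (nat_lit 336288) (nat_lit 15) .nil))) .nil)))))) (.nd (nat_lit 2) (.nd (nat_lit 3) (.nd (nat_lit 4) (.nd (nat_lit 5) 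
(.lf (nat_lit 232003) (.g (nat_lit 1879) (.e (nat_lit 98380) (nat_lit 31) (.e (nat_lit 466981) (nat_lit 23) (.e (nat_lit 204861) (nat_lit 26) (.e (nat_lit 335988) (nat_lit 1) (.e (nat_lit 57927) (nat_lit 282) (.e (nat_lit 171776) (nat_lit 64) .nil)))))) (.g (nat_lit 4) .nil .nil))) 
(.lf (nat_lit 232035) (.g (nat_lit 1766) (.e (nat_lit 98381) (nat_lit 31) (.e (nat_lit 466951) (nat_lit 11) (.e (nat_lit 336390) (nat_lit 27) (.e (nat_lit 426098) (nat_lit 1) (.e (nat_lit 164399) (nat_lit 256) (.e (nat_lit 57378) (nat_lit 3) .nil)))))) (.g (nat_lit 4) .nil .nil)))) (.nd (nat_lit 5) 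
(.lf (nat_lit 232019) (.g (nat_lit 3617) (.e (nat_lit 98381) (nat_lit 31) (.e (nat_lit 466947) (nat_lit 0) (.e (nat_lit 1855) (nat_lit 124) (.e (nat_lit 557103) (nat_lit 14) (.e (nat_lit 180278) (nat_lit 32) (.e (nat_lit 1253) (nat_lit 92) .nil)))))) (.g (nat_lit 6) .nil .nil))) 
(.lf (nat_lit 232051) (.g (nat_lit 1631) (.e (nat_lit 98381) (nat_lit 31) (.e (nat_lit 466954) (nat_lit 11) (.e (nat_lit 335987) (nat_lit 1) (.e (nat_lit 57692) (nat_lit 156) (.e (nat_lit 163906) (nat_lit 12) .nil))))) .nil)))) (.nd (nat_lit 4) (.nd (nat_lit 5) 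
(.lf (nat_lit 232011) (.g (nat_lit 1548) (.e (nat_lit 98381) (nat_lit 31) (.e (nat_lit 466947) (nat_lit 0) (.e (nat_lit 1846) (nat_lit 124) (.e (nat_lit 557104) (nat_lit 14) (.e (nat_lit 180277) (nat_lit 32) (.e (nat_lit 1253) (nat_lit 92) .nil)))))) (.g (nat_lit 4) .nil .nil))) 
(.lf (nat_lit 232043) (.g (nat_lit 1723) (.e (nat_lit 98381) (nat_lit 31) (.e (nat_lit 466954) (nat_lit 11) (.e (nat_lit 335986) (nat_lit 1) (.e (nat_lit 57654) (nat_lit 152) .nil)))) .nil))) (.nd (nat_lit 5) 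
(.lf (nat_lit 232027) (.g (nat_lit 2780) (.e (nat_lit 98381) (nat_lit 31) (.e (nat_lit 466947) (nat_lit 0) (.e (nat_lit 1856) (nat_lit 124) (.e (nat_lit 557103) (nat_lit 14) (.e (nat_lit 180278) (nat_lit 32) (.e (nat_lit 1253) (nat_lit 92) .nil)))))) (.g (nat_lit 0) .nil .nil))) 
(.lf (nat_lit 232059) (.g (nat_lit 1648) (.e (nat_lit 98381) (nat_lit 31) (.e (nat_lit 466954) (nat_lit 11) (.e (nat_lit 336287) (nat_lit 15) (.e (nat_lit 7096) (nat_lit 380) (.e (nat_lit 164354) (nat_lit 246) (.e (nat_lit 112) (nat_lit 3) .nil)))))) (.g (nat_lit 4) .nil .nil)))))) (.nd (nat_lit 3) (.nd (nat_lit 4) (.nd (nat_lit 5) 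
(.lf (nat_lit 232007) (.g (nat_lit 1418) (.e (nat_lit 98381) (nat_lit 31) (.e (nat_lit 466947) (nat_lit 0) (.e (nat_lit 1800) (nat_lit 119) (.e (nat_lit 516129) (nat_lit 3) (.e (nat_lit 221191) (nat_lit 11) .nil))))) .nil)) 
(.lf (nat_lit 232039) (.g (nat_lit 805) (.e (nat_lit 98381) (nat_lit 31) (.e (nat_lit 466954) (nat_lit 11) (.e (nat_lit 335899) (nat_lit 0) .nil))) .nil))) (.nd (nat_lit 5) 
(.lf (nat_lit 232023) (.g (nat_lit 3719) (.e (nat_lit 98381) (nat_lit 31) (.e (nat_lit 466947) (nat_lit 0) (.e (nat_lit 1856) (nat_lit 124) (.e (nat_lit 557100) (nat_lit 13) (.e (nat_lit 172126) (nat_lit 14) (.e (nat_lit 491540) (nat_lit 3) .nil)))))) (.g (nat_lit 0) .nil .nil))) 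
(.lf (nat_lit 232055) (.g (nat_lit 799) (.e (nat_lit 98381) (nat_lit 31) (.e (nat_lit 466954) (nat_lit 11) (.e (nat_lit 336046) (nat_lit 6) .nil))) .nil)))) (.nd (nat_lit 4) (.nd (nat_lit 5) 
(.lf (nat_lit 232015) (.g (nat_lit 3198) (.e (nat_lit 98381) (nat_lit 31) (.e (nat_lit 466947) (nat_lit 0) (.e (nat_lit 1855) (nat_lit 124) (.e (nat_lit 557101) (nat_lit 13) (.e (nat_lit 172124) (nat_lit 14) (.e (nat_lit 491540) (nat_lit 3) .nil)))))) (.g (nat_lit 0) .nil .nil))) 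
(.lf (nat_lit 232047) (.g (nat_lit 1604) (.e (nat_lit 98381) (nat_lit 31) (.e (nat_lit 466954) (nat_lit 11) (.e (nat_lit 335986) (nat_lit 1) (.e (nat_lit 57692) (nat_lit 156) (.e (nat_lit 163906) (nat_lit 12) .nil))))) .nil))) (.nd (nat_lit 5) 
(.lf (nat_lit 232031) (.g (nat_lit 2666) (.e (nat_lit 98381) (nat_lit 31) (.e (nat_lit 466947) (nat_lit 0) (.e (nat_lit 1856) (nat_lit 124) (.e (nat_lit 557105) (nat_lit 14) (.e (nat_lit 180277) (nat_lit 32) (.e (nat_lit 1253) (nat_lit 92) .nil)))))) (.g (nat_lit 0) .nil .nil))) 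
(.lf (nat_lit 232063) (.g (nat_lit 1220) (.e (nat_lit 98381) (nat_lit 31) (.e (nat_lit 466954) (nat_lit 11) (.e (nat_lit 336288) (nat_lit 15) (.e (nat_lit 6977) (nat_lit 377) .nil)))) .nil))))))))

noncomputable def tv3036 : DT := (.nd (nat_lit 0) (.nd (nat_lit 1) (.nd (nat_lit 2) (.nd (nat_lit 3) (.nd (nat_lit 4) (.nd (nat_lit 5) (.nd (nat_lit 6) 
(.lf (nat_lit 232064) (.g (nat_lit 2792) (.e (nat_lit 98381) (nat_lit 31) (.e (nat_lit 466954) (nat_lit 11) (.e (nat_lit 336288) (nat_lit 15) (.e (nat_lit 7096) (nat_lit 380) (.e (nat_lit 164358) (nat_lit 246) (.e (nat_lit 112) (nat_lit 3) .nil)))))) (.g (nat_lit 6) .nil .nil))) 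
(.lf (nat_lit 232128) (.g (nat_lit 2421) (.e (nat_lit 98381) (nat_lit 31) (.e (nat_lit 466977) (nat_lit 22) (.e (nat_lit 196677) (nat_lit 16) (.e (nat_lit 123080) (nat_lit 177) (.e (nat_lit 57876) (nat_lit 270) (.e (nat_lit 1256) (nat_lit 92) .nil)))))) (.g (nat_lit 6) .nil .nil)))) (.nd (nat_lit 6) 
(.lf (nat_lit 232096) (.g (nat_lit 200) (.e (nat_lit 98381) (nat_lit 31) (.e (nat_lit 466976) (nat_lit 22) (.e (nat_lit 196628) (nat_lit 9) .nil))) .nil)) 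
(.lf (nat_lit 232160) (.g (nat_lit 1076) (.e (nat_lit 98382) (nat_lit 31) (.e (nat_lit 466977) (nat_lit 22) (.e (nat_lit 196668) (nat_lit 14) (.e (nat_lit 73733) (nat_lit 0) .nil)))) .nil)))) (.nd (nat_lit 5) (.nd (nat_lit 6) 
(.lf (nat_lit 232080) (.g (nat_lit 2801) (.e (nat_lit 98381) (nat_lit 31) (.e (nat_lit 466954) (nat_lit 11) (.e (nat_lit 336387) (nat_lit 27) (.e (nat_lit 426107) (nat_lit 1) (.e (nat_lit 164401) (nat_lit 256) (.e (nat_lit 57378) (nat_lit 3) .nil)))))) (.g (nat_lit 0) .nil .nil))) 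
(.lf (nat_lit 232144) (.g (nat_lit 944) (.e (nat_lit 98382) (nat_lit 31) (.e (nat_lit 466967) (nat_lit 20) (.e (nat_lit 3305) (nat_lit 202) (.e (nat_lit 573477) (nat_lit 12) .nil)))) .nil))) (.nd (nat_lit 6) 
(.lf (nat_lit 232112) (.g (nat_lit 483) (.e (nat_lit 98381) (nat_lit 31) (.e (nat_lit 466977) (nat_lit 22) (.e (nat_lit 196668) (nat_lit 14) .nil))) .nil)) 
(.lf (nat_lit 232176) (.g (nat_lit 1837) (.e (nat_lit 98383) (nat_lit 32) (.e (nat_lit 475177) (nat_lit 24) (.e (nat_lit 516150) (nat_lit 9) (.e (nat_lit 426436) (nat_lit 18) .nil)))) .nil))))) (.nd (nat_lit 4) (.nd (nat_lit 5) (.nd (nat_lit 6) 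
(.lf (nat_lit 232072) (.g (nat_lit 2773) (.e (nat_lit 98381) (nat_lit 31) (.e (nat_lit 466954) (nat_lit 11) (.e (nat_lit 336385) (nat_lit 27) (.e (nat_lit 426098) (nat_lit 1) (.e (nat_lit 164398) (nat_lit 256) (.e (nat_lit 57379) (nat_lit 3) .nil)))))) (.g (nat_lit 5) .nil .nil))) 
(.lf (nat_lit 232136) (.g (nat_lit 2382) (.e (nat_lit 98381) (nat_lit 31) (.e (nat_lit 466981) (nat_lit 23) (.e (nat_lit 204846) (nat_lit 24) (.e (nat_lit 319530) (nat_lit 16) (.e (nat_lit 286735) (nat_lit 3) .nil))))) .nil))) (.nd (nat_lit 6) 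
(.lf (nat_lit 232104) (.g (nat_lit 645) (.e (nat_lit 98381) (nat_lit 31) (.e (nat_lit 466977) (nat_lit 22) (.e (nat_lit 196627) (nat_lit 9) .nil))) .nil)) 
(.lf (nat_lit 232168) (.g (nat_lit 2159) (.e (nat_lit 98382) (nat_lit 31) (.e (nat_lit 466981) (nat_lit 23) (.e (nat_lit 204861) (nat_lit 26) (.e (nat_lit 335988) (nat_lit 1) (.e (nat_lit 57926) (nat_lit 282) (.e (nat_lit 171776) (nat_lit 64) .nil)))))) (.g (nat_lit 5) .nil .nil))))) (.nd (nat_lit 5) (.nd (nat_lit 6) 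
(.lf (nat_lit 232088) (.g (nat_lit 2168) (.e (nat_lit 98381) (nat_lit 31) (.e (nat_lit 466967) (nat_lit 20) (.e (nat_lit 3253) (nat_lit 197) (.e (nat_lit 532523) (nat_lit 7) (.e (nat_lit 319504) (nat_lit 10) (.e (nat_lit 7936) (nat_lit 298) (.e (nat_lit 1245) (nat_lit 92) .nil))))))) (.g (nat_lit 5) .nil .nil))) 
(.lf (nat_lit 232152) (.g (nat_lit 1024) (.e (nat_lit 98382) (nat_lit 31) (.e (nat_lit 466974) (nat_lit 22) (.e (nat_lit 196668) (nat_lit 14) (.e (nat_lit 73737) (nat_lit 0) .nil)))) .nil))) (.nd (nat_lit 6) 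
(.lf (nat_lit 232120) (.g (nat_lit 1216) (.e (nat_lit 98381) (nat_lit 31) (.e (nat_lit 466977) (nat_lit 22) (.e (nat_lit 196668) (nat_lit 14) (.e (nat_lit 73762) (nat_lit 16) .nil)))) .nil)) 
(.lf (nat_lit 232184) (.g (nat_lit 1988) (.e (nat_lit 98383) (nat_lit 32) (.e (nat_lit 475179) (nat_lit 24) (.e (nat_lit 516146) (nat_lit 9) (.e (nat_lit 426428) (nat_lit 17) .nil)))) .nil)))))) (.nd (nat_lit 3) (.nd (nat_lit 4) (.nd (nat_lit 5) (.nd (nat_lit 6) 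
(.lf (nat_lit 232068) (.g (nat_lit 1439) (.e (nat_lit 98381) (nat_lit 31) (.e (nat_lit 466954) (nat_lit 11) (.e (nat_lit 336288) (nat_lit 15) (.e (nat_lit 7103) (nat_lit 380) .nil)))) .nil)) 
(.lf (nat_lit 232132) (.g (nat_lit 1407) (.e (nat_lit 98381) (nat_lit 31) (.e (nat_lit 466977) (nat_lit 22) (.e (nat_lit 196681) (nat_lit 17) (.e (nat_lit 131089) (nat_lit 1) .nil)))) .nil))) (.nd (nat_lit 6) 
(.lf (nat_lit 232100) (.g (nat_lit 705) (.e (nat_lit 98381) (nat_lit 31) (.e (nat_lit 466977) (nat_lit 22) (.e (nat_lit 196619) (nat_lit 9) .nil))) .nil)) 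
(.lf (nat_lit 232164) (.g (nat_lit 2575) (.e (nat_lit 98382) (nat_lit 31) (.e (nat_lit 466978) (nat_lit 23) (.e (nat_lit 204846) (nat_lit 24) (.e (nat_lit 319530) (nat_lit 16) (.e (nat_lit 286735) (nat_lit 3) .nil))))) .nil)))) (.nd (nat_lit 5) (.nd (nat_lit 6) 
(.lf (nat_lit 232084) (.g (nat_lit 649) (.e (nat_lit 98381) (nat_lit 31) (.e (nat_lit 466954) (nat_lit 11) (.e (nat_lit 336405) (nat_lit 27) .nil))) .nil)) 
(.lf (nat_lit 232148) (.g (nat_lit 1146) (.e (nat_lit 98382) (nat_lit 31) (.e (nat_lit 466969) (nat_lit 21) (.e (nat_lit 164183) (nat_lit 154) (.e (nat_lit 57384) (nat_lit 4) .nil)))) .nil))) (.nd (nat_lit 6) 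
(.lf (nat_lit 232116) (.g (nat_lit 1242) (.e (nat_lit 98381) (nat_lit 31) (.e (nat_lit 466977) (nat_lit 22) (.e (nat_lit 196668) (nat_lit 14) (.e (nat_lit 73733) (nat_lit 0) .nil)))) .nil)) 
(.lf (nat_lit 232180) (.g (nat_lit 3664) (.e (nat_lit 98383) (nat_lit 32) (.e (nat_lit 475179) (nat_lit 24) (.e (nat_lit 516117) (nat_lit 1) (.e (nat_lit 164330) (nat_lit 230) (.e (nat_lit 163872) (nat_lit 3) .nil))))) .nil))))) (.nd (nat_lit 4) (.nd (nat_lit 5) (.nd (nat_lit 6) 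
(.lf (nat_lit 232076) (.g (nat_lit 2828) (.e (nat_lit 98381) (nat_lit 31) (.e (nat_lit 466954) (nat_lit 11) (.e (nat_lit 336385) (nat_lit 27) (.e (nat_lit 426108) (nat_lit 1) (.e (nat_lit 164403) (nat_lit 256) (.e (nat_lit 57378) (nat_lit 3) .nil)))))) (.g (nat_lit 5) .nil .nil))) 
(.lf (nat_lit 232140) (.g (nat_lit 2114) (.e (nat_lit 98382) (nat_lit 31) (.e (nat_lit 466954) (nat_lit 11) (.e (nat_lit 335988) (nat_lit 1) (.e (nat_lit 57692) (nat_lit 156) .nil)))) .nil))) (.nd (nat_lit 6) 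
(.lf (nat_lit 232108) (.g (nat_lit 708) (.e (nat_lit 98381) (nat_lit 31) (.e (nat_lit 466977) (nat_lit 22) (.e (nat_lit 196643) (nat_lit 9) .nil))) .nil)) 
(.lf (nat_lit 232172) (.g (nat_lit 1841) (.e (nat_lit 98383) (nat_lit 32) (.e (nat_lit 475177) (nat_lit 24) (.e (nat_lit 516146) (nat_lit 9) (.e (nat_lit 426437) (nat_lit 18) .nil)))) .nil)))) (.nd (nat_lit 5) (.nd (nat_lit 6) 
(.lf (nat_lit 232092) (.g (nat_lit 1511) (.e (nat_lit 98381) (nat_lit 31) (.e (nat_lit 466972) (nat_lit 21) (.e (nat_lit 164182) (nat_lit 154) (.e (nat_lit 57385) (nat_lit 4) .nil)))) .nil)) 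
(.lf (nat_lit 232156) (.g (nat_lit 351) (.e (nat_lit 98382) (nat_lit 31) (.e (nat_lit 466977) (nat_lit 22) (.e (nat_lit 196626) (nat_lit 9) .nil))) .nil))) (.nd (nat_lit 6) 
(.lf (nat_lit 232124) (.g (nat_lit 1636) (.e (nat_lit 98381) (nat_lit 31) (.e (nat_lit 466977) (nat_lit 22) (.e (nat_lit 196670) (nat_lit 14) (.e (nat_lit 73736) (nat_lit 0) .nil)))) .nil)) 
(.lf (nat_lit 232188) (.g (nat_lit 2498) (.e (nat_lit 98383) (nat_lit 32) (.e (nat_lit 475179) (nat_lit 24) (.e (nat_lit 516146) (nat_lit 9) (.e (nat_lit 426438) (nat_lit 18) (.e (nat_lit 98356) (nat_lit 26) .nil))))) .nil))))))) (.nd (nat_lit 2) (.nd (nat_lit 3) (.nd (nat_lit 4) (.nd (nat_lit 5) (.nd (nat_lit 6) 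
(.lf (nat_lit 232066) (.g (nat_lit 2786) (.e (nat_lit 98381) (nat_lit 31) (.e (nat_lit 466954) (nat_lit 11) (.e (nat_lit 336288) (nat_lit 15) (.e (nat_lit 7098) (nat_lit 380) (.e (nat_lit 164356) (nat_lit 246) (.e (nat_lit 112) (nat_lit 3) .nil)))))) (.g (nat_lit 6) .nil .nil))) 
(.lf (nat_lit 232130) (.g (nat_lit 1601) (.e (nat_lit 98381) (nat_lit 31) (.e (nat_lit 466977) (nat_lit 22) (.e (nat_lit 196681) (nat_lit 17) (.e (nat_lit 131086) (nat_lit 1) .nil)))) .nil))) (.nd (nat_lit 6) 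
(.lf (nat_lit 232098) (.g (nat_lit 2449) (.e (nat_lit 98381) (nat_lit 31) (.e (nat_lit 466976) (nat_lit 22) (.e (nat_lit 196661) (nat_lit 12) (.e (nat_lit 57712) (nat_lit 176) (.e (nat_lit 1370) (nat_lit 103) (.e (nat_lit 294931) (nat_lit 3) .nil)))))) (.g (nat_lit 6) .nil .nil))) 
(.lf (nat_lit 232162) (.g (nat_lit 1976) (.e (nat_lit 98382) (nat_lit 31) (.e (nat_lit 466977) (nat_lit 22) (.e (nat_lit 196668) (nat_lit 14) (.e (nat_lit 73737) (nat_lit 0) (.e (nat_lit 5598) (nat_lit 310) (.e (nat_lit 171776) (nat_lit 64) .nil)))))) (.g (nat_lit 5) .nil .nil))))) (.nd (nat_lit 5) (.nd (nat_lit 6) 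
(.lf (nat_lit 232082) (.g (nat_lit 3118) (.e (nat_lit 98381) (nat_lit 31) (.e (nat_lit 466954) (nat_lit 11) (.e (nat_lit 336387) (nat_lit 27) (.e (nat_lit 426108) (nat_lit 1) (.e (nat_lit 164401) (nat_lit 256) (.e (nat_lit 57378) (nat_lit 3) .nil)))))) (.g (nat_lit 0) .nil .nil))) 
(.lf (nat_lit 232146) (.g (nat_lit 680) (.e (nat_lit 98382) (nat_lit 31) (.e (nat_lit 466969) (nat_lit 21) (.e (nat_lit 164182) (nat_lit 154) .nil))) .nil))) (.nd (nat_lit 6) 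
(.lf (nat_lit 232114) (.g (nat_lit 2015) (.e (nat_lit 98381) (nat_lit 31) (.e (nat_lit 466977) (nat_lit 22) (.e (nat_lit 196668) (nat_lit 14) (.e (nat_lit 73729) (nat_lit 0) (.e (nat_lit 4761) (nat_lit 281) .nil))))) .nil)) 
(.lf (nat_lit 232178) (.g (nat_lit 1658) (.e (nat_lit 98383) (nat_lit 32) (.e (nat_lit 475177) (nat_lit 24) (.e (nat_lit 516150) (nat_lit 9) (.e (nat_lit 426438) (nat_lit 18) .nil)))) .nil))))) (.nd (nat_lit 4) (.nd (nat_lit 5) (.nd (nat_lit 6) 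
(.lf (nat_lit 232074) (.g (nat_lit 3674) (.e (nat_lit 98381) (nat_lit 31) (.e (nat_lit 466954) (nat_lit 11) (.e (nat_lit 336385) (nat_lit 27) (.e (nat_lit 426100) (nat_lit 1) (.e (nat_lit 164398) (nat_lit 256) (.e (nat_lit 57379) (nat_lit 3) .nil)))))) (.g (nat_lit 0) .nil .nil))) 
(.lf (nat_lit 232138) (.g (nat_lit 944) (.e (nat_lit 98381) (nat_lit 31) (.e (nat_lit 466981) (nat_lit 23) (.e (nat_lit 204861) (nat_lit 26) (.e (nat_lit 335987) (nat_lit 1) .nil)))) .nil))) (.nd (nat_lit 6) 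
(.lf (nat_lit 232106) (.g (nat_lit 523) (.e (nat_lit 98381) (nat_lit 31) (.e (nat_lit 466977) (nat_lit 22) (.e (nat_lit 196630) (nat_lit 9) .nil))) .nil)) 
(.lf (nat_lit 232170) (.g (nat_lit 1842) (.e (nat_lit 98383) (nat_lit 32) (.e (nat_lit 475177) (nat_lit 24) (.e (nat_lit 516146) (nat_lit 9) (.e (nat_lit 426428) (nat_lit 17) (.e (nat_lit 90169) (nat_lit 13) .nil))))) .nil)))) (.nd (nat_lit 5) (.nd (nat_lit 6) 
(.lf (nat_lit 232090) (.g (nat_lit 714) (.e (nat_lit 98381) (nat_lit 31) (.e (nat_lit 466972) (nat_lit 21) (.e (nat_lit 164176) (nat_lit 154) .nil))) .nil)) 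
(.lf (nat_lit 232154) (.g (nat_lit 1847) (.e (nat_lit 98382) (nat_lit 31) (.e (nat_lit 466974) (nat_lit 22) (.e (nat_lit 196668) (nat_lit 14) (.e (nat_lit 73737) (nat_lit 0) (.e (nat_lit 5599) (nat_lit 310) (.e (nat_lit 171776) (nat_lit 64) .nil)))))) (.g (nat_lit 5) .nil .nil)))) (.nd (nat_lit 6) 
(.lf (nat_lit 232122) (.g (nat_lit 683) (.e (nat_lit 98381) (nat_lit 31) (.e (nat_lit 466977) (nat_lit 22) (.e (nat_lit 196670) (nat_lit 14) .nil))) .nil)) 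
(.lf (nat_lit 232186) (.g (nat_lit 2352) (.e (nat_lit 98383) (nat_lit 32) (.e (nat_lit 475179) (nat_lit 24) (.e (nat_lit 516146) (nat_lit 9) (.e (nat_lit 426436) (nat_lit 18) (.e (nat_lit 98358) (nat_lit 26) (.e (nat_lit 426438) (nat_lit 18) .nil)))))) (.g (nat_lit 4) .nil .nil))))))) (.nd (nat_lit 3) (.nd (nat_lit 4) (.nd (nat_lit 5) (.nd (nat_lit 6) 
(.lf (nat_lit 232070) (.g (nat_lit 558) (.e (nat_lit 98381) (nat_lit 31) (.e (nat_lit 466954) (nat_lit 11) (.e (nat_lit 343808) (nat_lit 25) .nil))) .nil)) 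
(.lf (nat_lit 232134) (.g (nat_lit 1058) (.e (nat_lit 98381) (nat_lit 31) (.e (nat_lit 466979) (nat_lit 23) (.e (nat_lit 204846) (nat_lit 24) (.e (nat_lit 319531) (nat_lit 16) .nil)))) .nil))) (.nd (nat_lit 6) 
(.lf (nat_lit 232102) (.g (nat_lit 392) (.e (nat_lit 98381) (nat_lit 31) (.e (nat_lit 466977) (nat_lit 22) (.e (nat_lit 196626) (nat_lit 9) .nil))) .nil)) 
(.lf (nat_lit 232166) (.g (nat_lit 1705) (.e (nat_lit 98382) (nat_lit 31) (.e (nat_lit 466981) (nat_lit 23) (.e (nat_lit 204819) (nat_lit 17) (.e (nat_lit 6113) (nat_lit 332) (.e (nat_lit 1361) (nat_lit 102) .nil))))) .nil)))) (.nd (nat_lit 5) (.nd (nat_lit 6) 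
(.lf (nat_lit 232086) (.g (nat_lit 209) (.e (nat_lit 98381) (nat_lit 31) (.e (nat_lit 466967) (nat_lit 20) (.e (nat_lit 7936) (nat_lit 195) .nil))) .nil)) 
(.lf (nat_lit 232150) (.g (nat_lit 558) (.e (nat_lit 98382) (nat_lit 31) (.e (nat_lit 466974) (nat_lit 22) (.e (nat_lit 196619) (nat_lit 9) .nil))) .nil))) (.nd (nat_lit 6) 
(.lf (nat_lit 232118) (.g (nat_lit 2400) (.e (nat_lit 98381) (nat_lit 31) (.e (nat_lit 466977) (nat_lit 22) (.e (nat_lit 196668) (nat_lit 14) (.e (nat_lit 73737) (nat_lit 0) (.e (nat_lit 5598) (nat_lit 310) (.e (nat_lit 171776) (nat_lit 64) .nil)))))) (.g (nat_lit 5) .nil .nil))) 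
(.lf (nat_lit 232182) (.g (nat_lit 3287) (.e (nat_lit 98383) (nat_lit 32) (.e (nat_lit 475179) (nat_lit 24) (.e (nat_lit 516120) (nat_lit 1) (.e (nat_lit 164329) (nat_lit 230) (.e (nat_lit 163850) (nat_lit 0) .nil))))) .nil))))) (.nd (nat_lit 4) (.nd (nat_lit 5) (.nd (nat_lit 6) 
(.lf (nat_lit 232078) (.g (nat_lit 2955) (.e (nat_lit 98381) (nat_lit 31) (.e (nat_lit 466954) (nat_lit 11) (.e (nat_lit 336387) (nat_lit 27) (.e (nat_lit 426098) (nat_lit 1) (.e (nat_lit 164399) (nat_lit 256) (.e (nat_lit 57378) (nat_lit 3) .nil)))))) (.g (nat_lit 0) .nil .nil))) 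
(.lf (nat_lit 232142) (.g (nat_lit 862) (.e (nat_lit 98382) (nat_lit 31) (.e (nat_lit 466954) (nat_lit 11) (.e (nat_lit 336387) (nat_lit 27) .nil))) .nil))) (.nd (nat_lit 6) 
(.lf (nat_lit 232110) (.g (nat_lit 721) (.e (nat_lit 98381) (nat_lit 31) (.e (nat_lit 466977) (nat_lit 22) (.e (nat_lit 196658) (nat_lit 12) (.e (nat_lit 57490) (nat_lit 33) .nil)))) .nil)) 
(.lf (nat_lit 232174) (.g (nat_lit 1533) (.e (nat_lit 98383) (nat_lit 32) (.e (nat_lit 475177) (nat_lit 24) (.e (nat_lit 516150) (nat_lit 9) (.e (nat_lit 426428) (nat_lit 17) .nil)))) .nil)))) (.nd (nat_lit 5) (.nd (nat_lit 6) 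
(.lf (nat_lit 232094) (.g (nat_lit 1345) (.e (nat_lit 98381) (nat_lit 31) (.e (nat_lit 466972) (nat_lit 21) (.e (nat_lit 164183) (nat_lit 154) (.e (nat_lit 57386) (nat_lit 4) .nil)))) .nil)) 
(.lf (nat_lit 232158) (.g (nat_lit 765) (.e (nat_lit 98382) (nat_lit 31) (.e (nat_lit 466977) (nat_lit 22) (.e (nat_lit 196643) (nat_lit 9) .nil))) .nil))) (.nd (nat_lit 6) 
(.lf (nat_lit 232126) (.g (nat_lit 1635) (.e (nat_lit 98381) (nat_lit 31) (.e (nat_lit 466977) (nat_lit 22) (.e (nat_lit 196670) (nat_lit 14) (.e (nat_lit 73766) (nat_lit 19) .nil)))) .nil)) 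
(.lf (nat_lit 232190) (.g (nat_lit 1769) (.e (nat_lit 98383) (nat_lit 32) (.e (nat_lit 475179) (nat_lit 24) (.e (nat_lit 516150) (nat_lit 9) (.e (nat_lit 426437) (nat_lit 18) .nil)))) .nil)))))))) (.nd (nat_lit 1) (.nd (nat_lit 2) (.nd (nat_lit 3) (.nd (nat_lit 4) (.nd (nat_lit 5) (.nd (nat_lit 6) 
(.lf (nat_lit 232065) (.g (nat_lit 1287) (.e (nat_lit 98381) (nat_lit 31) (.e (nat_lit 466954) (nat_lit 11) (.e (nat_lit 336288) (nat_lit 15) (.e (nat_lit 7097) (nat_lit 380) .nil)))) .nil)) 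
(.lf (nat_lit 232129) (.g (nat_lit 2993) (.e (nat_lit 98381) (nat_lit 31) (.e (nat_lit 466977) (nat_lit 22) (.e (nat_lit 196677) (nat_lit 16) (.e (nat_lit 123080) (nat_lit 177) (.e (nat_lit 57887) (nat_lit 270) (.e (nat_lit 1250) (nat_lit 92) .nil)))))) (.g (nat_lit 0) .nil .nil)))) (.nd (nat_lit 6) 
(.lf (nat_lit 232097) (.g (nat_lit 134) (.e (nat_lit 98381) (nat_lit 31) (.e (nat_lit 466976) (nat_lit 22) (.e (nat_lit 196661) (nat_lit 12) .nil))) .nil)) 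
(.lf (nat_lit 232161) (.g (nat_lit 1118) (.e (nat_lit 98382) (nat_lit 31) (.e (nat_lit 466977) (nat_lit 22) (.e (nat_lit 196668) (nat_lit 14) (.e (nat_lit 73737) (nat_lit 0) .nil)))) .nil)))) (.nd (nat_lit 5) (.nd (nat_lit 6) 
(.lf (nat_lit 232081) (.g (nat_lit 3150) (.e (nat_lit 98381) (nat_lit 31) (.e (nat_lit 466954) (nat_lit 11) (.e (nat_lit 336387) (nat_lit 27) (.e (nat_lit 426107) (nat_lit 1) (.e (nat_lit 164403) (nat_lit 256) (.e (nat_lit 57378) (nat_lit 3) .nil)))))) (.g (nat_lit 0) .nil .nil))) 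
(.lf (nat_lit 232145) (.g (nat_lit 680) (.e (nat_lit 98382) (nat_lit 31) (.e (nat_lit 466969) (nat_lit 21) (.e (nat_lit 164179) (nat_lit 154) .nil))) .nil))) (.nd (nat_lit 6) 
(.lf (nat_lit 232113) (.g (nat_lit 1334) (.e (nat_lit 98381) (nat_lit 31) (.e (nat_lit 466977) (nat_lit 22) (.e (nat_lit 196668) (nat_lit 14) (.e (nat_lit 73729) (nat_lit 0) .nil)))) .nil)) 
(.lf (nat_lit 232177) (.g (nat_lit 1955) (.e (nat_lit 98383) (nat_lit 32) (.e (nat_lit 475177) (nat_lit 24) (.e (nat_lit 516150) (nat_lit 9) (.e (nat_lit 426437) (nat_lit 18) .nil)))) .nil))))) (.nd (nat_lit 4) (.nd (nat_lit 5) (.nd (nat_lit 6) 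
(.lf (nat_lit 232073) (.g (nat_lit 3700) (.e (nat_lit 98381) (nat_lit 31) (.e (nat_lit 466954) (nat_lit 11) (.e (nat_lit 336385) (nat_lit 27) (.e (nat_lit 426100) (nat_lit 1) (.e (nat_lit 164398) (nat_lit 256) (.e (nat_lit 57378) (nat_lit 3) .nil)))))) (.g (nat_lit 0) .nil .nil))) 
(.lf (nat_lit 232137) (.g (nat_lit 2485) (.e (nat_lit 98381) (nat_lit 31) (.e (nat_lit 466981) (nat_lit 23) (.e (nat_lit 204846) (nat_lit 24) (.e (nat_lit 319535) (nat_lit 17) (.e (nat_lit 294931) (nat_lit 3) .nil))))) .nil))) (.nd (nat_lit 6) 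
(.lf (nat_lit 232105) (.g (nat_lit 702) (.e (nat_lit 98381) (nat_lit 31) (.e (nat_lit 466977) (nat_lit 22) (.e (nat_lit 196628) (nat_lit 9) .nil))) .nil)) 
(.lf (nat_lit 232169) (.g (nat_lit 1160) (.e (nat_lit 98383) (nat_lit 32) (.e (nat_lit 475177) (nat_lit 24) (.e (nat_lit 516146) (nat_lit 9) (.e (nat_lit 426428) (nat_lit 17) .nil)))) .nil)))) (.nd (nat_lit 5) (.nd (nat_lit 6) 
(.lf (nat_lit 232089) (.g (nat_lit 500) (.e (nat_lit 98381) (nat_lit 31) (.e (nat_lit 466971) (nat_lit 21) (.e (nat_lit 164179) (nat_lit 154) .nil))) .nil)) 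
(.lf (nat_lit 232153) (.g (nat_lit 1874) (.e (nat_lit 98382) (nat_lit 31) (.e (nat_lit 466974) (nat_lit 22) (.e (nat_lit 196668) (nat_lit 14) (.e (nat_lit 73737) (nat_lit 0) (.e (nat_lit 5598) (nat_lit 310) (.e (nat_lit 171776) (nat_lit 64) .nil)))))) (.g (nat_lit 5) .nil .nil)))) (.nd (nat_lit 6) 
(.lf (nat_lit 232121) (.g (nat_lit 703) (.e (nat_lit 98381) (nat_lit 31) (.e (nat_lit 466977) (nat_lit 22) (.e (nat_lit 196669) (nat_lit 14) .nil))) .nil)) 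
(.lf (nat_lit 232185) (.g (nat_lit 2351) (.e (nat_lit 98383) (nat_lit 32) (.e (nat_lit 475179) (nat_lit 24) (.e (nat_lit 516146) (nat_lit 9) (.e (nat_lit 426434) (nat_lit 18) .nil)))) .nil)))))) (.nd (nat_lit 3) (.nd (nat_lit 4) (.nd (nat_lit 5) (.nd (nat_lit 6) 
(.lf (nat_lit 232069) (.g (nat_lit 1439) (.e (nat_lit 98381) (nat_lit 31) (.e (nat_lit 466954) (nat_lit 11) (.e (nat_lit 336288) (nat_lit 15) (.e (nat_lit 7104) (nat_lit 380) .nil)))) .nil)) 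
(.lf (nat_lit 232133) (.g (nat_lit 1184) (.e (nat_lit 98381) (nat_lit 31) (.e (nat_lit 466978) (nat_lit 23) (.e (nat_lit 204846) (nat_lit 24) (.e (nat_lit 327424) (nat_lit 16) .nil)))) .nil))) (.nd (nat_lit 6) 
(.lf (nat_lit 232101) (.g (nat_lit 1087) (.e (nat_lit 98381) (nat_lit 31) (.e (nat_lit 466977) (nat_lit 22) (.e (nat_lit 196624) (nat_lit 9) (.e (nat_lit 3) (nat_lit 0) .nil)))) .nil)) 
(.lf (nat_lit 232165) (.g (nat_lit 1414) (.e (nat_lit 98382) (nat_lit 31) (.e (nat_lit 466979) (nat_lit 23) (.e (nat_lit 204846) (nat_lit 24) (.e (nat_lit 327424) (nat_lit 16) .nil)))) .nil)))) (.nd (nat_lit 5) (.nd (nat_lit 6) 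
(.lf (nat_lit 232085) (.g (nat_lit 2489) (.e (nat_lit 98381) (nat_lit 31) (.e (nat_lit 466954) (nat_lit 11) (.e (nat_lit 336405) (nat_lit 27) (.e (nat_lit 426100) (nat_lit 1) (.e (nat_lit 164399) (nat_lit 256) (.e (nat_lit 57379) (nat_lit 3) .nil)))))) (.g (nat_lit 5) .nil .nil))) 
(.lf (nat_lit 232149) (.g (nat_lit 1146) (.e (nat_lit 98382) (nat_lit 31) (.e (nat_lit 466969) (nat_lit 21) (.e (nat_lit 164183) (nat_lit 154) (.e (nat_lit 57386) (nat_lit 4) .nil)))) .nil))) (.nd (nat_lit 6) 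
(.lf (nat_lit 232117) (.g (nat_lit 1838) (.e (nat_lit 98381) (nat_lit 31) (.e (nat_lit 466977) (nat_lit 22) (.e (nat_lit 196668) (nat_lit 14) (.e (nat_lit 73733) (nat_lit 0) (.e (nat_lit 5600) (nat_lit 310) .nil))))) .nil)) 
(.lf (nat_lit 232181) (.g (nat_lit 2111) (.e (nat_lit 98383) (nat_lit 32) (.e (nat_lit 475179) (nat_lit 24) (.e (nat_lit 516119) (nat_lit 1) (.e (nat_lit 164325) (nat_lit 230) (.e (nat_lit 163875) (nat_lit 3) .nil))))) .nil))))) (.nd (nat_lit 4) (.nd (nat_lit 5) (.nd (nat_lit 6) 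
(.lf (nat_lit 232077) (.g (nat_lit 416) (.e (nat_lit 98381) (nat_lit 31) (.e (nat_lit 466954) (nat_lit 11) (.e (nat_lit 336387) (nat_lit 27) .nil))) .nil)) 
(.lf (nat_lit 232141) (.g (nat_lit 1773) (.e (nat_lit 98382) (nat_lit 31) (.e (nat_lit 466954) (nat_lit 11) (.e (nat_lit 335996) (nat_lit 1) (.e (nat_lit 57691) (nat_lit 156) .nil)))) .nil))) (.nd (nat_lit 6) 
(.lf (nat_lit 232109) (.g (nat_lit 406) (.e (nat_lit 98381) (nat_lit 31) (.e (nat_lit 466977) (nat_lit 22) (.e (nat_lit 196651) (nat_lit 10) .nil))) .nil)) 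
(.lf (nat_lit 232173) (.g (nat_lit 2051) (.e (nat_lit 98383) (nat_lit 32) (.e (nat_lit 475177) (nat_lit 24) (.e (nat_lit 516146) (nat_lit 9) (.e (nat_lit 426438) (nat_lit 18) (.e (nat_lit 98356) (nat_lit 26) .nil))))) .nil)))) (.nd (nat_lit 5) (.nd (nat_lit 6) 
(.lf (nat_lit 232093) (.g (nat_lit 1871) (.e (nat_lit 98381) (nat_lit 31) (.e (nat_lit 466972) (nat_lit 21) (.e (nat_lit 164182) (nat_lit 154) (.e (nat_lit 57385) (nat_lit 4) (.e (nat_lit 106507) (nat_lit 9) .nil))))) .nil)) 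
(.lf (nat_lit 232157) (.g (nat_lit 764) (.e (nat_lit 98382) (nat_lit 31) (.e (nat_lit 466977) (nat_lit 22) (.e (nat_lit 196631) (nat_lit 9) .nil))) .nil))) (.nd (nat_lit 6) 
(.lf (nat_lit 232125) (.g (nat_lit 1638) (.e (nat_lit 98381) (nat_lit 31) (.e (nat_lit 466977) (nat_lit 22) (.e (nat_lit 196670) (nat_lit 14) (.e (nat_lit 73762) (nat_lit 16) .nil)))) .nil)) 
(.lf (nat_lit 232189) (.g (nat_lit 2468) (.e (nat_lit 98383) (nat_lit 32) (.e (nat_lit 475179) (nat_lit 24) (.e (nat_lit 516146) (nat_lit 9) (.e (nat_lit 426438) (nat_lit 18) (.e (nat_lit 98358) (nat_lit 26) .nil))))) .nil))))))) (.nd (nat_lit 2) (.nd (nat_lit 3) (.nd (nat_lit 4) (.nd (nat_lit 5) (.nd (nat_lit 6) 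
(.lf (nat_lit 232067) (.g (nat_lit 2379) (.e (nat_lit 98381) (nat_lit 31) (.e (nat_lit 466954) (nat_lit 11) (.e (nat_lit 336288) (nat_lit 15) (.e (nat_lit 7098) (nat_lit 380) (.e (nat_lit 164358) (nat_lit 246) (.e (nat_lit 112) (nat_lit 3) .nil)))))) (.g (nat_lit 5) .nil .nil))) 
(.lf (nat_lit 232131) (.g (nat_lit 1677) (.e (nat_lit 98381) (nat_lit 31) (.e (nat_lit 466977) (nat_lit 22) (.e (nat_lit 196681) (nat_lit 17) (.e (nat_lit 131088) (nat_lit 1) .nil)))) .nil))) (.nd (nat_lit 6) 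
(.lf (nat_lit 232099) (.g (nat_lit 705) (.e (nat_lit 98381) (nat_lit 31) (.e (nat_lit 466977) (nat_lit 22) (.e (nat_lit 196617) (nat_lit 9) .nil))) .nil)) 
(.lf (nat_lit 232163) (.g (nat_lit 1936) (.e (nat_lit 98382) (nat_lit 31) (.e (nat_lit 466977) (nat_lit 22) (.e (nat_lit 196668) (nat_lit 14) (.e (nat_lit 73737) (nat_lit 0) (.e (nat_lit 5599) (nat_lit 310) (.e (nat_lit 171776) (nat_lit 64) .nil)))))) (.g (nat_lit 5) .nil .nil))))) (.nd (nat_lit 5) (.nd (nat_lit 6) 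
(.lf (nat_lit 232083) (.g (nat_lit 3134) (.e (nat_lit 98381) (nat_lit 31) (.e (nat_lit 466954) (nat_lit 11) (.e (nat_lit 336387) (nat_lit 27) (.e (nat_lit 426108) (nat_lit 1) (.e (nat_lit 164403) (nat_lit 256) (.e (nat_lit 57378) (nat_lit 3) .nil)))))) (.g (nat_lit 0) .nil .nil))) 
(.lf (nat_lit 232147) (.g (nat_lit 1445) (.e (nat_lit 98382) (nat_lit 31) (.e (nat_lit 466969) (nat_lit 21) (.e (nat_lit 164182) (nat_lit 154) (.e (nat_lit 57386) (nat_lit 4) .nil)))) .nil))) (.nd (nat_lit 6) 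
(.lf (nat_lit 232115) (.g (nat_lit 1363) (.e (nat_lit 98381) (nat_lit 31) (.e (nat_lit 466977) (nat_lit 22) (.e (nat_lit 196668) (nat_lit 14) (.e (nat_lit 73731) (nat_lit 0) .nil)))) .nil)) 
(.lf (nat_lit 232179) (.g (nat_lit 2423) (.e (nat_lit 98383) (nat_lit 32) (.e (nat_lit 475179) (nat_lit 24) (.e (nat_lit 516117) (nat_lit 1) (.e (nat_lit 164329) (nat_lit 230) .nil)))) .nil))))) (.nd (nat_lit 4) (.nd (nat_lit 5) (.nd (nat_lit 6) 
(.lf (nat_lit 232075) (.g (nat_lit 3348) (.e (nat_lit 98381) (nat_lit 31) (.e (nat_lit 466954) (nat_lit 11) (.e (nat_lit 336385) (nat_lit 27) (.e (nat_lit 426100) (nat_lit 1) (.e (nat_lit 164403) (nat_lit 256) (.e (nat_lit 57378) (nat_lit 3) .nil)))))) (.g (nat_lit 5) .nil .nil))) 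
(.lf (nat_lit 232139) (.g (nat_lit 2149) (.e (nat_lit 98382) (nat_lit 31) (.e (nat_lit 466954) (nat_lit 11) (.e (nat_lit 335988) (nat_lit 1) (.e (nat_lit 57691) (nat_lit 156) .nil)))) .nil))) (.nd (nat_lit 6) 
(.lf (nat_lit 232107) (.g (nat_lit 1285) (.e (nat_lit 98381) (nat_lit 31) (.e (nat_lit 466977) (nat_lit 22) (.e (nat_lit 196630) (nat_lit 9) (.e (nat_lit 1394) (nat_lit 106) .nil)))) .nil)) 
(.lf (nat_lit 232171) (.g (nat_lit 1799) (.e (nat_lit 98383) (nat_lit 32) (.e (nat_lit 475177) (nat_lit 24) (.e (nat_lit 516146) (nat_lit 9) (.e (nat_lit 426436) (nat_lit 18) (.e (nat_lit 98356) (nat_lit 26) .nil))))) .nil)))) (.nd (nat_lit 5) (.nd (nat_lit 6) 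
(.lf (nat_lit 232091) (.g (nat_lit 1188) (.e (nat_lit 98381) (nat_lit 31) (.e (nat_lit 466972) (nat_lit 21) (.e (nat_lit 164176) (nat_lit 154) (.e (nat_lit 57388) (nat_lit 5) .nil)))) .nil)) 
(.lf (nat_lit 232155) (.g (nat_lit 705) (.e (nat_lit 98382) (nat_lit 31) (.e (nat_lit 466977) (nat_lit 22) (.e (nat_lit 196619) (nat_lit 9) .nil))) .nil))) (.nd (nat_lit 6) 
(.lf (nat_lit 232123) (.g (nat_lit 1621) (.e (nat_lit 98381) (nat_lit 31) (.e (nat_lit 466977) (nat_lit 22) (.e (nat_lit 196670) (nat_lit 14) (.e (nat_lit 73729) (nat_lit 0) .nil)))) .nil)) 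
(.lf (nat_lit 232187) (.g (nat_lit 2221) (.e (nat_lit 98383) (nat_lit 32) (.e (nat_lit 475179) (nat_lit 24) (.e (nat_lit 516146) (nat_lit 9) (.e (nat_lit 426437) (nat_lit 18) .nil)))) .nil)))))) (.nd (nat_lit 3) (.nd (nat_lit 4) (.nd (nat_lit 5) (.nd (nat_lit 6) 
(.lf (nat_lit 232071) (.g (nat_lit 2777) (.e (nat_lit 98381) (nat_lit 31) (.e (nat_lit 466954) (nat_lit 11) (.e (nat_lit 336385) (nat_lit 27) (.e (nat_lit 426098) (nat_lit 1) (.e (nat_lit 164398) (nat_lit 256) (.e (nat_lit 57378) (nat_lit 3) .nil)))))) (.g (nat_lit 5) .nil .nil))) 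
(.lf (nat_lit 232135) (.g (nat_lit 1530) (.e (nat_lit 98381) (nat_lit 31) (.e (nat_lit 466979) (nat_lit 23) (.e (nat_lit 204846) (nat_lit 24) (.e (nat_lit 327424) (nat_lit 16) .nil)))) .nil))) (.nd (nat_lit 6) 
(.lf (nat_lit 232103) (.g (nat_lit 3861) (.e (nat_lit 98381) (nat_lit 31) (.e (nat_lit 466977) (nat_lit 22) (.e (nat_lit 196626) (nat_lit 9) (.e (nat_lit 1400) (nat_lit 106) (.e (nat_lit 319534) (nat_lit 16) (.e (nat_lit 286734) (nat_lit 3) .nil)))))) (.g (nat_lit 0) .nil .nil))) 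
(.lf (nat_lit 232167) (.g (nat_lit 1379) (.e (nat_lit 98382) (nat_lit 31) (.e (nat_lit 466981) (nat_lit 23) (.e (nat_lit 204846) (nat_lit 24) (.e (nat_lit 319511) (nat_lit 10) .nil)))) .nil)))) (.nd (nat_lit 5) (.nd (nat_lit 6) 
(.lf (nat_lit 232087) (.g (nat_lit 2075) (.e (nat_lit 98381) (nat_lit 31) (.e (nat_lit 466967) (nat_lit 20) (.e (nat_lit 3253) (nat_lit 197) (.e (nat_lit 532523) (nat_lit 7) (.e (nat_lit 319504) (nat_lit 10) (.e (nat_lit 7936) (nat_lit 298) (.e (nat_lit 1243) (nat_lit 92) .nil))))))) (.g (nat_lit 5) .nil .nil))) 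
(.lf (nat_lit 232151) (.g (nat_lit 1491) (.e (nat_lit 98382) (nat_lit 31) (.e (nat_lit 466974) (nat_lit 22) (.e (nat_lit 196624) (nat_lit 9) (.e (nat_lit 1392) (nat_lit 106) .nil)))) .nil))) (.nd (nat_lit 6) 
(.lf (nat_lit 232119) (.g (nat_lit 2413) (.e (nat_lit 98381) (nat_lit 31) (.e (nat_lit 466977) (nat_lit 22) (.e (nat_lit 196668) (nat_lit 14) (.e (nat_lit 73737) (nat_lit 0) (.e (nat_lit 5599) (nat_lit 310) (.e (nat_lit 171776) (nat_lit 64) .nil)))))) (.g (nat_lit 5) .nil .nil))) 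
(.lf (nat_lit 232183) (.g (nat_lit 3026) (.e (nat_lit 98383) (nat_lit 32) (.e (nat_lit 475179) (nat_lit 24) (.e (nat_lit 516120) (nat_lit 1) (.e (nat_lit 164330) (nat_lit 230) (.e (nat_lit 163872) (nat_lit 3) .nil))))) .nil))))) (.nd (nat_lit 4) (.nd (nat_lit 5) (.nd (nat_lit 6) 
(.lf (nat_lit 232079) (.g (nat_lit 2933) (.e (nat_lit 98381) (nat_lit 31) (.e (nat_lit 466954) (nat_lit 11) (.e (nat_lit 336387) (nat_lit 27) (.e (nat_lit 426100) (nat_lit 1) (.e (nat_lit 164399) (nat_lit 256) (.e (nat_lit 57378) (nat_lit 3) .nil)))))) (.g (nat_lit 0) .nil .nil))) 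
(.lf (nat_lit 232143) (.g (nat_lit 1853) (.e (nat_lit 98382) (nat_lit 31) (.e (nat_lit 466967) (nat_lit 20) (.e (nat_lit 3253) (nat_lit 197) (.e (nat_lit 532490) (nat_lit 0) (.e (nat_lit 7936) (nat_lit 332) .nil))))) .nil))) (.nd (nat_lit 6) 
(.lf (nat_lit 232111) (.g (nat_lit 706) (.e (nat_lit 98381) (nat_lit 31) (.e (nat_lit 466977) (nat_lit 22) (.e (nat_lit 196659) (nat_lit 12) .nil))) .nil)) 
(.lf (nat_lit 232175) (.g (nat_lit 2030) (.e (nat_lit 98383) (nat_lit 32) (.e (nat_lit 475177) (nat_lit 24) (.e (nat_lit 516150) (nat_lit 9) (.e (nat_lit 426428) (nat_lit 17) (.e (nat_lit 90169) (nat_lit 13) .nil))))) .nil)))) (.nd (nat_lit 5) (.nd (nat_lit 6) 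
(.lf (nat_lit 232095) (.g (nat_lit 657) (.e (nat_lit 98381) (nat_lit 31) (.e (nat_lit 466974) (nat_lit 22) (.e (nat_lit 196622) (nat_lit 9) .nil))) .nil)) 
(.lf (nat_lit 232159) (.g (nat_lit 1105) (.e (nat_lit 98382) (nat_lit 31) (.e (nat_lit 466977) (nat_lit 22) (.e (nat_lit 196668) (nat_lit 14) (.e (nat_lit 73729) (nat_lit 0) .nil)))) .nil))) (.nd (nat_lit 6) 
(.lf (nat_lit 232127) (.g (nat_lit 707) (.e (nat_lit 98381) (nat_lit 31) (.e (nat_lit 466977) (nat_lit 22) (.e (nat_lit 196677) (nat_lit 16) (.e (nat_lit 123080) (nat_lit 177) .nil)))) .nil)) 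
(.lf (nat_lit 232191) (.g (nat_lit 1763) (.e (nat_lit 98383) (nat_lit 32) (.e (nat_lit 475179) (nat_lit 24) (.e (nat_lit 516150) (nat_lit 9) (.e (nat_lit 426438) (nat_lit 18) .nil)))) .nil)))))))))

noncomputable def tv3037 : DT := (.nd (nat_lit 0) (.nd (nat_lit 1) (.nd (nat_lit 2) (.nd (nat_lit 3) (.nd (nat_lit 4) (.nd (nat_lit 5) 
(.lf (nat_lit 232192) (.g (nat_lit 961) (.e (nat_lit 98383) (nat_lit 32) (.e (nat_lit 475185) (nat_lit 29) (.e (nat_lit 557093) (nat_lit 12) .nil))) .nil)) 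
(.lf (nat_lit 232224) (.g (nat_lit 2645) (.e (nat_lit 98384) (nat_lit 32) (.e (nat_lit 475177) (nat_lit 24) (.e (nat_lit 516120) (nat_lit 1) (.e (nat_lit 164330) (nat_lit 230) (.e (nat_lit 163872) (nat_lit 3) (.e (nat_lit 204817) (nat_lit 17) (.e (nat_lit 2198) (nat_lit 144) (.e (nat_lit 720945) (nat_lit 23) .nil)))))))) (.g (nat_lit 4) .nil .nil)))) (.nd (nat_lit 5) 
(.lf (nat_lit 232208) (.g (nat_lit 2252) (.e (nat_lit 98384) (nat_lit 32) (.e (nat_lit 475177) (nat_lit 24) (.e (nat_lit 516115) (nat_lit 1) (.e (nat_lit 164398) (nat_lit 256) .nil)))) .nil)) 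
(.lf (nat_lit 232240) (.g (nat_lit 3646) (.e (nat_lit 98384) (nat_lit 32) (.e (nat_lit 475177) (nat_lit 24) (.e (nat_lit 516146) (nat_lit 9) (.e (nat_lit 426438) (nat_lit 18) (.e (nat_lit 98358) (nat_lit 26) (.e (nat_lit 426437) (nat_lit 18) .nil)))))) (.g (nat_lit 0) .nil .nil))))) (.nd (nat_lit 4) (.nd (nat_lit 5) 
(.lf (nat_lit 232200) (.g (nat_lit 351) (.e (nat_lit 98384) (nat_lit 32) (.e (nat_lit 475169) (nat_lit 22) (.e (nat_lit 499926) (nat_lit 10) .nil))) .nil)) 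
(.lf (nat_lit 232232) (.g (nat_lit 1216) (.e (nat_lit 98384) (nat_lit 32) (.e (nat_lit 475177) (nat_lit 24) (.e (nat_lit 516145) (nat_lit 9) (.e (nat_lit 426438) (nat_lit 18) .nil)))) .nil))) (.nd (nat_lit 5) 
(.lf (nat_lit 232216) (.g (nat_lit 3157) (.e (nat_lit 98384) (nat_lit 32) (.e (nat_lit 475177) (nat_lit 24) (.e (nat_lit 516117) (nat_lit 1) (.e (nat_lit 164330) (nat_lit 230) (.e (nat_lit 163874) (nat_lit 3) (.e (nat_lit 204817) (nat_lit 17) (.e (nat_lit 2198) (nat_lit 144) (.e (nat_lit 720945) (nat_lit 23) .nil)))))))) (.g (nat_lit 4) .nil .nil))) 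
(.lf (nat_lit 232248) (.g (nat_lit 2350) (.e (nat_lit 98384) (nat_lit 32) (.e (nat_lit 475177) (nat_lit 24) (.e (nat_lit 516148) (nat_lit 9) (.e (nat_lit 426438) (nat_lit 18) (.e (nat_lit 98356) (nat_lit 26) (.e (nat_lit 426438) (nat_lit 18) .nil)))))) (.g (nat_lit 5) .nil .nil)))))) (.nd (nat_lit 3) (.nd (nat_lit 4) (.nd (nat_lit 5) 
(.lf (nat_lit 232196) (.g (nat_lit 632) (.e (nat_lit 98383) (nat_lit 32) (.e (nat_lit 475211) (nat_lit 41) (.e (nat_lit 712745) (nat_lit 27) .nil))) .nil)) 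
(.lf (nat_lit 232228) (.g (nat_lit 2517) (.e (nat_lit 98384) (nat_lit 32) (.e (nat_lit 475177) (nat_lit 24) (.e (nat_lit 516120) (nat_lit 1) (.e (nat_lit 164330) (nat_lit 230) (.e (nat_lit 163874) (nat_lit 3) (.e (nat_lit 204818) (nat_lit 17) (.e (nat_lit 2202) (nat_lit 144) (.e (nat_lit 720944) (nat_lit 23) .nil)))))))) (.g (nat_lit 4) .nil .nil)))) (.nd (nat_lit 5) 
(.lf (nat_lit 232212) (.g (nat_lit 3155) (.e (nat_lit 98384) (nat_lit 32) (.e (nat_lit 475177) (nat_lit 24) (.e (nat_lit 516117) (nat_lit 1) (.e (nat_lit 164330) (nat_lit 230) (.e (nat_lit 163872) (nat_lit 3) (.e (nat_lit 204817) (nat_lit 17) (.e (nat_lit 2198) (nat_lit 144) (.e (nat_lit 720945) (nat_lit 23) .nil)))))))) (.g (nat_lit 4) .nil .nil))) 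
(.lf (nat_lit 232244) (.g (nat_lit 397) (.e (nat_lit 98384) (nat_lit 32) (.e (nat_lit 475177) (nat_lit 24) (.e (nat_lit 516148) (nat_lit 9) .nil))) .nil)))) (.nd (nat_lit 4) (.nd (nat_lit 5) 
(.lf (nat_lit 232204) (.g (nat_lit 1204) (.e (nat_lit 98384) (nat_lit 32) (.e (nat_lit 475177) (nat_lit 24) (.e (nat_lit 516115) (nat_lit 1) (.e (nat_lit 164325) (nat_lit 230) .nil)))) .nil)) 
(.lf (nat_lit 232236) (.g (nat_lit 3051) (.e (nat_lit 98384) (nat_lit 32) (.e (nat_lit 475177) (nat_lit 24) (.e (nat_lit 516146) (nat_lit 9) (.e (nat_lit 426436) (nat_lit 18) (.e (nat_lit 98358) (nat_lit 26) (.e (nat_lit 426434) (nat_lit 18) .nil)))))) (.g (nat_lit 5) .nil .nil)))) (.nd (nat_lit 5) 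
(.lf (nat_lit 232220) (.g (nat_lit 2756) (.e (nat_lit 98384) (nat_lit 32) (.e (nat_lit 475177) (nat_lit 24) (.e (nat_lit 516119) (nat_lit 1) (.e (nat_lit 164327) (nat_lit 230) (.e (nat_lit 163873) (nat_lit 3) (.e (nat_lit 204817) (nat_lit 17) (.e (nat_lit 2198) (nat_lit 144) (.e (nat_lit 720945) (nat_lit 23) .nil)))))))) (.g (nat_lit 4) .nil .nil))) 
(.lf (nat_lit 232252) (.g (nat_lit 2279) (.e (nat_lit 98384) (nat_lit 32) (.e (nat_lit 475177) (nat_lit 24) (.e (nat_lit 516149) (nat_lit 9) (.e (nat_lit 426436) (nat_lit 18) (.e (nat_lit 98356) (nat_lit 26) (.e (nat_lit 426436) (nat_lit 18) .nil)))))) (.g (nat_lit 4) .nil .nil))))))) (.nd (nat_lit 2) (.nd (nat_lit 3) (.nd (nat_lit 4) (.nd (nat_lit 5) 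
(.lf (nat_lit 232194) (.g (nat_lit 643) (.e (nat_lit 98383) (nat_lit 32) (.e (nat_lit 475210) (nat_lit 41) (.e (nat_lit 712745) (nat_lit 27) .nil))) .nil)) 
(.lf (nat_lit 232226) (.g (nat_lit 3102) (.e (nat_lit 98384) (nat_lit 32) (.e (nat_lit 475177) (nat_lit 24) (.e (nat_lit 516120) (nat_lit 1) (.e (nat_lit 164330) (nat_lit 230) (.e (nat_lit 163873) (nat_lit 3) (.e (nat_lit 204834) (nat_lit 19) (.e (nat_lit 106517) (nat_lit 9) (.e (nat_lit 1255) (nat_lit 92) .nil)))))))) (.g (nat_lit 4) .nil .nil)))) (.nd (nat_lit 5) 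
(.lf (nat_lit 232210) (.g (nat_lit 2252) (.e (nat_lit 98384) (nat_lit 32) (.e (nat_lit 475177) (nat_lit 24) (.e (nat_lit 516115) (nat_lit 1) (.e (nat_lit 164403) (nat_lit 256) .nil)))) .nil)) 
(.lf (nat_lit 232242) (.g (nat_lit 2715) (.e (nat_lit 98384) (nat_lit 32) (.e (nat_lit 475177) (nat_lit 24) (.e (nat_lit 516147) (nat_lit 9) (.e (nat_lit 426436) (nat_lit 18) (.e (nat_lit 98358) (nat_lit 26) (.e (nat_lit 426434) (nat_lit 18) .nil)))))) (.g (nat_lit 5) .nil .nil))))) (.nd (nat_lit 4) (.nd (nat_lit 5) 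
(.lf (nat_lit 232202) (.g (nat_lit 1683) (.e (nat_lit 98384) (nat_lit 32) (.e (nat_lit 475176) (nat_lit 24) (.e (nat_lit 516146) (nat_lit 9) (.e (nat_lit 426438) (nat_lit 18) (.e (nat_lit 98358) (nat_lit 26) .nil))))) .nil)) 
(.lf (nat_lit 232234) (.g (nat_lit 1897) (.e (nat_lit 98384) (nat_lit 32) (.e (nat_lit 475177) (nat_lit 24) (.e (nat_lit 516146) (nat_lit 9) (.e (nat_lit 426428) (nat_lit 17) (.e (nat_lit 90165) (nat_lit 12) (.e (nat_lit 171776) (nat_lit 201) (.e (nat_lit 112) (nat_lit 3) .nil))))))) (.g (nat_lit 4) .nil .nil)))) (.nd (nat_lit 5) 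
(.lf (nat_lit 232218) (.g (nat_lit 4725) (.e (nat_lit 98384) (nat_lit 32) (.e (nat_lit 475177) (nat_lit 24) (.e (nat_lit 516118) (nat_lit 1) (.e (nat_lit 164332) (nat_lit 230) (.e (nat_lit 163874) (nat_lit 3) (.e (nat_lit 204817) (nat_lit 17) (.e (nat_lit 2198) (nat_lit 144) (.e (nat_lit 720945) (nat_lit 23) .nil)))))))) (.g (nat_lit 5) .nil .nil))) 
(.lf (nat_lit 232250) (.g (nat_lit 3070) (.e (nat_lit 98384) (nat_lit 32) (.e (nat_lit 475177) (nat_lit 24) (.e (nat_lit 516149) (nat_lit 9) (.e (nat_lit 426131) (nat_lit 3) (.e (nat_lit 204829) (nat_lit 18) (.e (nat_lit 57754) (nat_lit 209) (.e (nat_lit 1086) (nat_lit 81) (.e (nat_lit 1252) (nat_lit 92) .nil)))))))) (.g (nat_lit 5) .nil .nil)))))) 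
(.nd (nat_lit 3) (.nd (nat_lit 4) (.nd (nat_lit 5) 
(.lf (nat_lit 232198) (.g (nat_lit 1010) (.e (nat_lit 98383) (nat_lit 32) (.e (nat_lit 475214) (nat_lit 42) (.e (nat_lit 720943) (nat_lit 23) .nil))) .nil)) 
(.lf (nat_lit 232230) (.g (nat_lit 726) (.e (nat_lit 98384) (nat_lit 32) (.e (nat_lit 475177) (nat_lit 24) (.e (nat_lit 516144) (nat_lit 9) (.e (nat_lit 426437) (nat_lit 18) .nil)))) .nil))) (.nd (nat_lit 5) 
(.lf (nat_lit 232214) (.g (nat_lit 3763) (.e (nat_lit 98384) (nat_lit 32) (.e (nat_lit 475177) (nat_lit 24) (.e (nat_lit 516117) (nat_lit 1) (.e (nat_lit 164330) (nat_lit 230) (.e (nat_lit 163873) (nat_lit 3) (.e (nat_lit 204834) (nat_lit 19) (.e (nat_lit 106517) (nat_lit 9) (.e (nat_lit 1255) (nat_lit 92) .nil)))))))) (.g (nat_lit 4) .nil .nil))) 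
(.lf (nat_lit 232246) (.g (nat_lit 2840) (.e (nat_lit 98384) (nat_lit 32) (.e (nat_lit 475177) (nat_lit 24) (.e (nat_lit 516148) (nat_lit 9) (.e (nat_lit 426436) (nat_lit 18) (.e (nat_lit 98358) (nat_lit 26) (.e (nat_lit 426434) (nat_lit 18) .nil)))))) (.g (nat_lit 5) .nil .nil))))) (.nd (nat_lit 4) (.nd (nat_lit 5) 
(.lf (nat_lit 232206) (.g (nat_lit 2915) (.e (nat_lit 98384) (nat_lit 32) (.e (nat_lit 475177) (nat_lit 24) (.e (nat_lit 516115) (nat_lit 1) (.e (nat_lit 164325) (nat_lit 230) (.e (nat_lit 163875) (nat_lit 3) .nil))))) .nil)) 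
(.lf (nat_lit 232238) (.g (nat_lit 1792) (.e (nat_lit 98384) (nat_lit 32) (.e (nat_lit 475177) (nat_lit 24) (.e (nat_lit 516146) (nat_lit 9) (.e (nat_lit 426438) (nat_lit 18) (.e (nat_lit 98354) (nat_lit 26) .nil))))) .nil))) (.nd (nat_lit 5) 
(.lf (nat_lit 232222) (.g (nat_lit 3411) (.e (nat_lit 98384) (nat_lit 32) (.e (nat_lit 475177) (nat_lit 24) (.e (nat_lit 516119) (nat_lit 1) (.e (nat_lit 164327) (nat_lit 230) (.e (nat_lit 163875) (nat_lit 3) (.e (nat_lit 204817) (nat_lit 17) (.e (nat_lit 2198) (nat_lit 144) (.e (nat_lit 720945) (nat_lit 23) .nil)))))))) (.g (nat_lit 5) .nil .nil))) 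
(.lf (nat_lit 232254) (.g (nat_lit 2860) (.e (nat_lit 98384) (nat_lit 32) (.e (nat_lit 475177) (nat_lit 24) (.e (nat_lit 516149) (nat_lit 9) (.e (nat_lit 426436) (nat_lit 18) (.e (nat_lit 98358) (nat_lit 26) (.e (nat_lit 426438) (nat_lit 18) .nil)))))) (.g (nat_lit 5) .nil .nil)))))))) (.nd (nat_lit 1) (.nd (nat_lit 2) (.nd (nat_lit 3) (.nd (nat_lit 4) (.nd (nat_lit 5) 
(.lf (nat_lit 232193) (.g (nat_lit 2678) (.e (nat_lit 98383) (nat_lit 32) (.e (nat_lit 475199) (nat_lit 40) (.e (nat_lit 704590) (nat_lit 3) (.e (nat_lit 163975) (nat_lit 30) (.e (nat_lit 573492) (nat_lit 15) .nil))))) .nil)) 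
(.lf (nat_lit 232225) (.g (nat_lit 2538) (.e (nat_lit 98384) (nat_lit 32) (.e (nat_lit 475177) (nat_lit 24) (.e (nat_lit 516120) (nat_lit 1) (.e (nat_lit 164330) (nat_lit 230) (.e (nat_lit 163873) (nat_lit 3) (.e (nat_lit 204817) (nat_lit 17) (.e (nat_lit 2198) (nat_lit 144) (.e (nat_lit 720945) (nat_lit 23) .nil)))))))) (.g (nat_lit 4) .nil .nil)))) (.nd (nat_lit 5) 
(.lf (nat_lit 232209) (.g (nat_lit 2256) (.e (nat_lit 98384) (nat_lit 32) (.e (nat_lit 475177) (nat_lit 24) (.e (nat_lit 516115) (nat_lit 1) (.e (nat_lit 164399) (nat_lit 256) .nil)))) .nil)) 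
(.lf (nat_lit 232241) (.g (nat_lit 2122) (.e (nat_lit 98384) (nat_lit 32) (.e (nat_lit 475177) (nat_lit 24) (.e (nat_lit 516146) (nat_lit 9) (.e (nat_lit 426438) (nat_lit 18) (.e (nat_lit 106240) (nat_lit 26) (.e (nat_lit 426435) (nat_lit 18) .nil)))))) (.g (nat_lit 4) .nil .nil))))) (.nd (nat_lit 4) (.nd (nat_lit 5) 
(.lf (nat_lit 232201) (.g (nat_lit 1747) (.e (nat_lit 98384) (nat_lit 32) (.e (nat_lit 475175) (nat_lit 24) (.e (nat_lit 516145) (nat_lit 9) (.e (nat_lit 426438) (nat_lit 18) (.e (nat_lit 98358) (nat_lit 26) .nil))))) .nil)) 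
(.lf (nat_lit 232233) (.g (nat_lit 390) (.e (nat_lit 98384) (nat_lit 32) (.e (nat_lit 475177) (nat_lit 24) (.e (nat_lit 516146) (nat_lit 9) .nil))) .nil))) (.nd (nat_lit 5) 
(.lf (nat_lit 232217) (.g (nat_lit 2565) (.e (nat_lit 98384) (nat_lit 32) (.e (nat_lit 475177) (nat_lit 24) (.e (nat_lit 516117) (nat_lit 1) (.e (nat_lit 164330) (nat_lit 230) (.e (nat_lit 163874) (nat_lit 3) (.e (nat_lit 204818) (nat_lit 17) (.e (nat_lit 2202) (nat_lit 144) (.e (nat_lit 720944) (nat_lit 23) .nil)))))))) (.g (nat_lit 4) .nil .nil))) 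
(.lf (nat_lit 232249) (.g (nat_lit 2289) (.e (nat_lit 98384) (nat_lit 32) (.e (nat_lit 475177) (nat_lit 24) (.e (nat_lit 516149) (nat_lit 9) (.e (nat_lit 426131) (nat_lit 3) (.e (nat_lit 212736) (nat_lit 1) (.e (nat_lit 164399) (nat_lit 256) (.e (nat_lit 57379) (nat_lit 3) .nil))))))) (.g (nat_lit 4) .nil .nil)))))) (.nd (nat_lit 3) (.nd (nat_lit 4) (.nd (nat_lit 5) 
(.lf (nat_lit 232197) (.g (nat_lit 979) (.e (nat_lit 98383) (nat_lit 32) (.e (nat_lit 475214) (nat_lit 42) (.e (nat_lit 720937) (nat_lit 22) .nil))) .nil)) 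
(.lf (nat_lit 232229) (.g (nat_lit 3068) (.e (nat_lit 98384) (nat_lit 32) (.e (nat_lit 475177) (nat_lit 24) (.e (nat_lit 516120) (nat_lit 1) (.e (nat_lit 164332) (nat_lit 230) (.e (nat_lit 163874) (nat_lit 3) (.e (nat_lit 204834) (nat_lit 19) (.e (nat_lit 106517) (nat_lit 9) (.e (nat_lit 1255) (nat_lit 92) .nil)))))))) (.g (nat_lit 4) .nil .nil)))) (.nd (nat_lit 5) 
(.lf (nat_lit 232213) (.g (nat_lit 3199) (.e (nat_lit 98384) (nat_lit 32) (.e (nat_lit 475177) (nat_lit 24) (.e (nat_lit 516117) (nat_lit 1) (.e (nat_lit 164330) (nat_lit 230) (.e (nat_lit 163873) (nat_lit 3) (.e (nat_lit 204817) (nat_lit 17) (.e (nat_lit 2198) (nat_lit 144) (.e (nat_lit 720945) (nat_lit 23) .nil)))))))) (.g (nat_lit 4) .nil .nil))) 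
(.lf (nat_lit 232245) (.g (nat_lit 2878) (.e (nat_lit 98384) (nat_lit 32) (.e (nat_lit 475177) (nat_lit 24) (.e (nat_lit 516148) (nat_lit 9) (.e (nat_lit 426436) (nat_lit 18) (.e (nat_lit 98356) (nat_lit 26) (.e (nat_lit 426437) (nat_lit 18) .nil)))))) (.g (nat_lit 5) .nil .nil))))) (.nd (nat_lit 4) (.nd (nat_lit 5) 
(.lf (nat_lit 232205) (.g (nat_lit 4288) (.e (nat_lit 98384) (nat_lit 32) (.e (nat_lit 475177) (nat_lit 24) (.e (nat_lit 516115) (nat_lit 1) (.e (nat_lit 164325) (nat_lit 230) (.e (nat_lit 163873) (nat_lit 3) .nil))))) .nil)) 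
(.lf (nat_lit 232237) (.g (nat_lit 1228) (.e (nat_lit 98384) (nat_lit 32) (.e (nat_lit 475177) (nat_lit 24) (.e (nat_lit 516146) (nat_lit 9) (.e (nat_lit 426438) (nat_lit 18) .nil)))) .nil))) (.nd (nat_lit 5) 
(.lf (nat_lit 232221) (.g (nat_lit 3116) (.e (nat_lit 98384) (nat_lit 32) (.e (nat_lit 475177) (nat_lit 24) (.e (nat_lit 516119) (nat_lit 1) (.e (nat_lit 164327) (nat_lit 230) (.e (nat_lit 163873) (nat_lit 3) (.e (nat_lit 204834) (nat_lit 19) (.e (nat_lit 106517) (nat_lit 9) (.e (nat_lit 1255) (nat_lit 92) .nil)))))))) (.g (nat_lit 4) .nil .nil))) 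
(.lf (nat_lit 232253) (.g (nat_lit 2908) (.e (nat_lit 98384) (nat_lit 32) (.e (nat_lit 475177) (nat_lit 24) (.e (nat_lit 516149) (nat_lit 9) (.e (nat_lit 426436) (nat_lit 18) (.e (nat_lit 98358) (nat_lit 26) (.e (nat_lit 426436) (nat_lit 18) .nil)))))) (.g (nat_lit 5) .nil .nil))))))) (.nd (nat_lit 2) (.nd (nat_lit 3) (.nd (nat_lit 4) (.nd (nat_lit 5) 
(.lf (nat_lit 232195) (.g (nat_lit 2281) (.e (nat_lit 98383) (nat_lit 32) (.e (nat_lit 475210) (nat_lit 41) (.e (nat_lit 712745) (nat_lit 27) (.e (nat_lit 426163) (nat_lit 6) (.e (nat_lit 253963) (nat_lit 9) .nil))))) .nil)) 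
(.lf (nat_lit 232227) (.g (nat_lit 2515) (.e (nat_lit 98384) (nat_lit 32) (.e (nat_lit 475177) (nat_lit 24) (.e (nat_lit 516120) (nat_lit 1) (.e (nat_lit 164330) (nat_lit 230) (.e (nat_lit 163874) (nat_lit 3) (.e (nat_lit 204815) (nat_lit 17) (.e (nat_lit 2198) (nat_lit 144) (.e (nat_lit 720945) (nat_lit 23) .nil)))))))) (.g (nat_lit 4) .nil .nil)))) (.nd (nat_lit 5) 
(.lf (nat_lit 232211) (.g (nat_lit 2538) (.e (nat_lit 98384) (nat_lit 32) (.e (nat_lit 475177) (nat_lit 24) (.e (nat_lit 516117) (nat_lit 1) (.e (nat_lit 164305) (nat_lit 226) (.e (nat_lit 2433) (nat_lit 157) (.e (nat_lit 2685) (nat_lit 168) (.e (nat_lit 204817) (nat_lit 17) (.e (nat_lit 2198) (nat_lit 144) (.e (nat_lit 720945) (nat_lit 23) .nil))))))))) (.g (nat_lit 4) .nil .nil))) 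
(.lf (nat_lit 232243) (.g (nat_lit 3072) (.e (nat_lit 98384) (nat_lit 32) (.e (nat_lit 475177) (nat_lit 24) (.e (nat_lit 516147) (nat_lit 9) (.e (nat_lit 426436) (nat_lit 18) (.e (nat_lit 98358) (nat_lit 26) (.e (nat_lit 426437) (nat_lit 18) .nil)))))) (.g (nat_lit 6) .nil .nil))))) (.nd (nat_lit 4) (.nd (nat_lit 5) 
(.lf (nat_lit 232203) (.g (nat_lit 1905) (.e (nat_lit 98384) (nat_lit 32) (.e (nat_lit 475176) (nat_lit 24) (.e (nat_lit 516179) (nat_lit 15) (.e (nat_lit 475179) (nat_lit 24) (.e (nat_lit 516146) (nat_lit 9) .nil))))) .nil)) 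
(.lf (nat_lit 232235) (.g (nat_lit 2326) (.e (nat_lit 98384) (nat_lit 32) (.e (nat_lit 475177) (nat_lit 24) (.e (nat_lit 516146) (nat_lit 9) (.e (nat_lit 426428) (nat_lit 17) (.e (nat_lit 90185) (nat_lit 17) (.e (nat_lit 245504) (nat_lit 18) .nil)))))) (.g (nat_lit 5) .nil .nil)))) (.nd (nat_lit 5) 
(.lf (nat_lit 232219) (.g (nat_lit 5165) (.e (nat_lit 98384) (nat_lit 32) (.e (nat_lit 475177) (nat_lit 24) (.e (nat_lit 516118) (nat_lit 1) (.e (nat_lit 164332) (nat_lit 230) (.e (nat_lit 163874) (nat_lit 3) (.e (nat_lit 204834) (nat_lit 19) (.e (nat_lit 106517) (nat_lit 9) (.e (nat_lit 1255) (nat_lit 92) .nil)))))))) (.g (nat_lit 5) .nil .nil))) 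
(.lf (nat_lit 232251) (.g (nat_lit 3143) (.e (nat_lit 98384) (nat_lit 32) (.e (nat_lit 475177) (nat_lit 24) (.e (nat_lit 516149) (nat_lit 9) (.e (nat_lit 426131) (nat_lit 3) (.e (nat_lit 204830) (nat_lit 18) (.e (nat_lit 57754) (nat_lit 209) (.e (nat_lit 1086) (nat_lit 81) (.e (nat_lit 1252) (nat_lit 92) .nil)))))))) (.g (nat_lit 5) .nil .nil)))))) 
(.nd (nat_lit 3) (.nd (nat_lit 4) (.nd (nat_lit 5) 
(.lf (nat_lit 232199) (.g (nat_lit 349) (.e (nat_lit 98384) (nat_lit 32) (.e (nat_lit 475169) (nat_lit 22) (.e (nat_lit 499916) (nat_lit 9) .nil))) .nil)) 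
(.lf (nat_lit 232231) (.g (nat_lit 1214) (.e (nat_lit 98384) (nat_lit 32) (.e (nat_lit 475177) (nat_lit 24) (.e (nat_lit 516145) (nat_lit 9) (.e (nat_lit 426437) (nat_lit 18) .nil)))) .nil))) (.nd (nat_lit 5) 
(.lf (nat_lit 232215) (.g (nat_lit 2563) (.e (nat_lit 98384) (nat_lit 32) (.e (nat_lit 475177) (nat_lit 24) (.e (nat_lit 516117) (nat_lit 1) (.e (nat_lit 164330) (nat_lit 230) (.e (nat_lit 163874) (nat_lit 3) (.e (nat_lit 204815) (nat_lit 17) (.e (nat_lit 2198) (nat_lit 144) (.e (nat_lit 720945) (nat_lit 23) .nil)))))))) (.g (nat_lit 4) .nil .nil))) 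
(.lf (nat_lit 232247) (.g (nat_lit 3189) (.e (nat_lit 98384) (nat_lit 32) (.e (nat_lit 475177) (nat_lit 24) (.e (nat_lit 516148) (nat_lit 9) (.e (nat_lit 426436) (nat_lit 18) (.e (nat_lit 98358) (nat_lit 26) (.e (nat_lit 426437) (nat_lit 18) .nil)))))) (.g (nat_lit 6) .nil .nil))))) (.nd (nat_lit 4) (.nd (nat_lit 5) 
(.lf (nat_lit 232207) (.g (nat_lit 4096) (.e (nat_lit 98384) (nat_lit 32) (.e (nat_lit 475177) (nat_lit 24) (.e (nat_lit 516115) (nat_lit 1) (.e (nat_lit 164327) (nat_lit 230) (.e (nat_lit 163875) (nat_lit 3) (.e (nat_lit 204817) (nat_lit 17) (.e (nat_lit 2198) (nat_lit 144) (.e (nat_lit 720945) (nat_lit 23) .nil)))))))) (.g (nat_lit 5) .nil .nil))) 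
(.lf (nat_lit 232239) (.g (nat_lit 2184) (.e (nat_lit 98384) (nat_lit 32) (.e (nat_lit 475177) (nat_lit 24) (.e (nat_lit 516146) (nat_lit 9) (.e (nat_lit 426438) (nat_lit 18) (.e (nat_lit 98356) (nat_lit 26) (.e (nat_lit 426434) (nat_lit 18) .nil)))))) (.g (nat_lit 4) .nil .nil)))) (.nd (nat_lit 5) 
(.lf (nat_lit 232223) (.g (nat_lit 2900) (.e (nat_lit 98384) (nat_lit 32) (.e (nat_lit 475177) (nat_lit 24) (.e (nat_lit 516120) (nat_lit 1) (.e (nat_lit 164329) (nat_lit 230) (.e (nat_lit 163850) (nat_lit 0) .nil))))) .nil)) 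
(.lf (nat_lit 232255) (.g (nat_lit 678) (.e (nat_lit 98384) (nat_lit 32) (.e (nat_lit 475177) (nat_lit 24) (.e (nat_lit 516149) (nat_lit 9) (.e (nat_lit 433920) (nat_lit 18) .nil)))) .nil))))))))

noncomputable def tv3038 : DT := (.nd (nat_lit 0) (.nd (nat_lit 1) (.nd (nat_lit 2) (.nd (nat_lit 3) (.nd (nat_lit 4) (.nd (nat_lit 5) 
(.lf (nat_lit 232256) (.g (nat_lit 2613) (.e (nat_lit 98384) (nat_lit 32) (.e (nat_lit 475177) (nat_lit 24) (.e (nat_lit 516150) (nat_lit 9) (.e (nat_lit 426131) (nat_lit 3) (.e (nat_lit 204829) (nat_lit 18) (.e (nat_lit 57754) (nat_lit 209) (.e (nat_lit 992) (nat_lit 81) (.e (nat_lit 1251) (nat_lit 92) .nil)))))))) (.g (nat_lit 4) .nil .nil))) 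
(.lf (nat_lit 232288) (.g (nat_lit 3499) (.e (nat_lit 98384) (nat_lit 32) (.e (nat_lit 475177) (nat_lit 24) (.e (nat_lit 516150) (nat_lit 9) (.e (nat_lit 426438) (nat_lit 18) (.e (nat_lit 98358) (nat_lit 26) (.e (nat_lit 426437) (nat_lit 18) .nil)))))) (.g (nat_lit 0) .nil .nil)))) (.nd (nat_lit 5) 
(.lf (nat_lit 232272) (.g (nat_lit 2669) (.e (nat_lit 98384) (nat_lit 32) (.e (nat_lit 475177) (nat_lit 24) (.e (nat_lit 516150) (nat_lit 9) (.e (nat_lit 426131) (nat_lit 3) (.e (nat_lit 204830) (nat_lit 18) (.e (nat_lit 57754) (nat_lit 209) (.e (nat_lit 1040) (nat_lit 81) (.e (nat_lit 1252) (nat_lit 92) .nil)))))))) (.g (nat_lit 4) .nil .nil))) 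
(.lf (nat_lit 232304) (.g (nat_lit 2123) (.e (nat_lit 98384) (nat_lit 32) (.e (nat_lit 475177) (nat_lit 24) (.e (nat_lit 516179) (nat_lit 15) (.e (nat_lit 475177) (nat_lit 24) (.e (nat_lit 516149) (nat_lit 9) (.e (nat_lit 426436) (nat_lit 18) .nil)))))) (.g (nat_lit 4) .nil .nil))))) (.nd (nat_lit 4) (.nd (nat_lit 5) 
(.lf (nat_lit 232264) (.g (nat_lit 3040) (.e (nat_lit 98384) (nat_lit 32) (.e (nat_lit 475177) (nat_lit 24) (.e (nat_lit 516150) (nat_lit 9) (.e (nat_lit 426131) (nat_lit 3) (.e (nat_lit 204829) (nat_lit 18) (.e (nat_lit 57755) (nat_lit 209) (.e (nat_lit 1086) (nat_lit 81) (.e (nat_lit 1253) (nat_lit 92) .nil)))))))) (.g (nat_lit 4) .nil .nil))) 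
(.lf (nat_lit 232296) (.g (nat_lit 2678) (.e (nat_lit 98384) (nat_lit 32) (.e (nat_lit 475177) (nat_lit 24) (.e (nat_lit 516171) (nat_lit 13) (.e (nat_lit 458789) (nat_lit 23) (.e (nat_lit 532499) (nat_lit 1) (.e (nat_lit 57754) (nat_lit 209) (.e (nat_lit 1015) (nat_lit 81) (.e (nat_lit 1251) (nat_lit 92) .nil)))))))) (.g (nat_lit 4) .nil .nil)))) (.nd (nat_lit 5) 
(.lf (nat_lit 232280) (.g (nat_lit 3418) (.e (nat_lit 98384) (nat_lit 32) (.e (nat_lit 475177) (nat_lit 24) (.e (nat_lit 516150) (nat_lit 9) (.e (nat_lit 426436) (nat_lit 18) (.e (nat_lit 98356) (nat_lit 26) (.e (nat_lit 426436) (nat_lit 18) .nil)))))) (.g (nat_lit 0) .nil .nil))) 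
(.lf (nat_lit 232312) (.g (nat_lit 2048) (.e (nat_lit 98384) (nat_lit 32) (.e (nat_lit 475177) (nat_lit 24) (.e (nat_lit 516181) (nat_lit 15) (.e (nat_lit 475176) (nat_lit 24) (.e (nat_lit 516145) (nat_lit 9) (.e (nat_lit 426437) (nat_lit 18) .nil)))))) (.g (nat_lit 5) .nil .nil)))))) (.nd (nat_lit 3) (.nd (nat_lit 4) (.nd (nat_lit 5) 
(.lf (nat_lit 232260) (.g (nat_lit 3113) (.e (nat_lit 98384) (nat_lit 32) (.e (nat_lit 475177) (nat_lit 24) (.e (nat_lit 516150) (nat_lit 9) (.e (nat_lit 426131) (nat_lit 3) (.e (nat_lit 204829) (nat_lit 18) (.e (nat_lit 57754) (nat_lit 209) (.e (nat_lit 1086) (nat_lit 81) (.e (nat_lit 1253) (nat_lit 92) .nil)))))))) (.g (nat_lit 4) .nil .nil))) 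
(.lf (nat_lit 232292) (.g (nat_lit 3157) (.e (nat_lit 98384) (nat_lit 32) (.e (nat_lit 475177) (nat_lit 24) (.e (nat_lit 516169) (nat_lit 13) (.e (nat_lit 458789) (nat_lit 23) (.e (nat_lit 532499) (nat_lit 1) (.e (nat_lit 57754) (nat_lit 209) (.e (nat_lit 1039) (nat_lit 81) (.e (nat_lit 1252) (nat_lit 92) .nil)))))))) (.g (nat_lit 4) .nil .nil)))) (.nd (nat_lit 5) 
(.lf (nat_lit 232276) (.g (nat_lit 1683) (.e (nat_lit 98384) (nat_lit 32) (.e (nat_lit 475177) (nat_lit 24) (.e (nat_lit 516150) (nat_lit 9) (.e (nat_lit 426392) (nat_lit 15) (.e (nat_lit 1796) (nat_lit 119) .nil))))) .nil)) 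
(.lf (nat_lit 232308) (.g (nat_lit 3427) (.e (nat_lit 98384) (nat_lit 32) (.e (nat_lit 475177) (nat_lit 24) (.e (nat_lit 516180) (nat_lit 15) (.e (nat_lit 475177) (nat_lit 24) (.e (nat_lit 516146) (nat_lit 9) (.e (nat_lit 426436) (nat_lit 18) .nil)))))) (.g (nat_lit 0) .nil .nil))))) (.nd (nat_lit 4) (.nd (nat_lit 5) 
(.lf (nat_lit 232268) (.g (nat_lit 2761) (.e (nat_lit 98384) (nat_lit 32) (.e (nat_lit 475177) (nat_lit 24) (.e (nat_lit 516150) (nat_lit 9) (.e (nat_lit 426131) (nat_lit 3) (.e (nat_lit 204830) (nat_lit 18) (.e (nat_lit 57754) (nat_lit 209) (.e (nat_lit 1014) (nat_lit 81) (.e (nat_lit 1251) (nat_lit 92) .nil)))))))) (.g (nat_lit 4) .nil .nil))) 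
(.lf (nat_lit 232300) (.g (nat_lit 2969) (.e (nat_lit 98384) (nat_lit 32) (.e (nat_lit 475177) (nat_lit 24) (.e (nat_lit 516171) (nat_lit 13) (.e (nat_lit 458789) (nat_lit 23) (.e (nat_lit 532501) (nat_lit 1) (.e (nat_lit 57754) (nat_lit 209) (.e (nat_lit 1039) (nat_lit 81) (.e (nat_lit 1252) (nat_lit 92) .nil)))))))) (.g (nat_lit 4) .nil .nil)))) (.nd (nat_lit 5) 
(.lf (nat_lit 232284) (.g (nat_lit 1728) (.e (nat_lit 98384) (nat_lit 32) (.e (nat_lit 475177) (nat_lit 24) (.e (nat_lit 516150) (nat_lit 9) (.e (nat_lit 426438) (nat_lit 18) (.e (nat_lit 98354) (nat_lit 26) .nil))))) .nil)) 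
(.lf (nat_lit 232316) (.g (nat_lit 2742) (.e (nat_lit 98384) (nat_lit 32) (.e (nat_lit 475177) (nat_lit 24) (.e (nat_lit 516181) (nat_lit 15) (.e (nat_lit 475177) (nat_lit 24) (.e (nat_lit 516146) (nat_lit 9) (.e (nat_lit 426437) (nat_lit 18) .nil)))))) (.g (nat_lit 5) .nil .nil))))))) (.nd (nat_lit 2) (.nd (nat_lit 3) (.nd (nat_lit 4) (.nd (nat_lit 5) 
(.lf (nat_lit 232258) (.g (nat_lit 3109) (.e (nat_lit 98384) (nat_lit 32) (.e (nat_lit 475177) (nat_lit 24) (.e (nat_lit 516150) (nat_lit 9) (.e (nat_lit 426131) (nat_lit 3) (.e (nat_lit 204829) (nat_lit 18) (.e (nat_lit 57754) (nat_lit 209) (.e (nat_lit 1015) (nat_lit 81) (.e (nat_lit 1251) (nat_lit 92) .nil)))))))) (.g (nat_lit 4) .nil .nil))) 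
(.lf (nat_lit 232290) (.g (nat_lit 1410) (.e (nat_lit 98384) (nat_lit 32) (.e (nat_lit 475177) (nat_lit 24) (.e (nat_lit 516150) (nat_lit 9) (.e (nat_lit 433920) (nat_lit 18) .nil)))) .nil))) (.nd (nat_lit 5) 
(.lf (nat_lit 232274) (.g (nat_lit 2671) (.e (nat_lit 98384) (nat_lit 32) (.e (nat_lit 475177) (nat_lit 24) (.e (nat_lit 516150) (nat_lit 9) (.e (nat_lit 426131) (nat_lit 3) (.e (nat_lit 204830) (nat_lit 18) (.e (nat_lit 65280) (nat_lit 209) (.e (nat_lit 974) (nat_lit 81) (.e (nat_lit 1256) (nat_lit 92) .nil)))))))) (.g (nat_lit 4) .nil .nil))) 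
(.lf (nat_lit 232306) (.g (nat_lit 3552) (.e (nat_lit 98384) (nat_lit 32) (.e (nat_lit 475177) (nat_lit 24) (.e (nat_lit 516179) (nat_lit 15) (.e (nat_lit 475177) (nat_lit 24) (.e (nat_lit 516150) (nat_lit 9) (.e (nat_lit 426437) (nat_lit 18) .nil)))))) (.g (nat_lit 0) .nil .nil))))) (.nd (nat_lit 4) (.nd (nat_lit 5) 
(.lf (nat_lit 232266) (.g (nat_lit 2716) (.e (nat_lit 98384) (nat_lit 32) (.e (nat_lit 475177) (nat_lit 24) (.e (nat_lit 516150) (nat_lit 9) (.e (nat_lit 426131) (nat_lit 3) (.e (nat_lit 204830) (nat_lit 18) (.e (nat_lit 57754) (nat_lit 209) (.e (nat_lit 992) (nat_lit 81) (.e (nat_lit 1251) (nat_lit 92) .nil)))))))) (.g (nat_lit 4) .nil .nil))) 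
(.lf (nat_lit 232298) (.g (nat_lit 3879) (.e (nat_lit 98384) (nat_lit 32) (.e (nat_lit 475177) (nat_lit 24) (.e (nat_lit 516171) (nat_lit 13) (.e (nat_lit 458789) (nat_lit 23) (.e (nat_lit 532499) (nat_lit 1) (.e (nat_lit 57755) (nat_lit 209) (.e (nat_lit 1086) (nat_lit 81) (.e (nat_lit 1252) (nat_lit 92) .nil)))))))) (.g (nat_lit 5) .nil .nil)))) (.nd (nat_lit 5) 
(.lf (nat_lit 232282) (.g (nat_lit 3080) (.e (nat_lit 98384) (nat_lit 32) (.e (nat_lit 475177) (nat_lit 24) (.e (nat_lit 516150) (nat_lit 9) (.e (nat_lit 426437) (nat_lit 18) (.e (nat_lit 98356) (nat_lit 26) (.e (nat_lit 426437) (nat_lit 18) .nil)))))) (.g (nat_lit 5) .nil .nil))) 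
(.lf (nat_lit 232314) (.g (nat_lit 2465) (.e (nat_lit 98384) (nat_lit 32) (.e (nat_lit 475177) (nat_lit 24) (.e (nat_lit 516181) (nat_lit 15) (.e (nat_lit 475176) (nat_lit 24) (.e (nat_lit 516146) (nat_lit 9) (.e (nat_lit 426437) (nat_lit 18) .nil)))))) (.g (nat_lit 6) .nil .nil)))))) (.nd (nat_lit 3) (.nd (nat_lit 4) (.nd (nat_lit 5) 
(.lf (nat_lit 232262) (.g (nat_lit 2936) (.e (nat_lit 98384) (nat_lit 32) (.e (nat_lit 475177) (nat_lit 24) (.e (nat_lit 516150) (nat_lit 9) (.e (nat_lit 426131) (nat_lit 3) (.e (nat_lit 204829) (nat_lit 18) (.e (nat_lit 57755) (nat_lit 209) (.e (nat_lit 1015) (nat_lit 81) (.e (nat_lit 1251) (nat_lit 92) .nil)))))))) (.g (nat_lit 4) .nil .nil))) 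
(.lf (nat_lit 232294) (.g (nat_lit 3019) (.e (nat_lit 98384) (nat_lit 32) (.e (nat_lit 475177) (nat_lit 24) (.e (nat_lit 516169) (nat_lit 13) (.e (nat_lit 458789) (nat_lit 23) (.e (nat_lit 532501) (nat_lit 1) (.e (nat_lit 57754) (nat_lit 209) (.e (nat_lit 1015) (nat_lit 81) (.e (nat_lit 1251) (nat_lit 92) .nil)))))))) (.g (nat_lit 4) .nil .nil)))) (.nd (nat_lit 5) 
(.lf (nat_lit 232278) (.g (nat_lit 2302) (.e (nat_lit 98384) (nat_lit 32) (.e (nat_lit 475177) (nat_lit 24) (.e (nat_lit 516150) (nat_lit 9) (.e (nat_lit 426428) (nat_lit 17) (.e (nat_lit 90165) (nat_lit 12) (.e (nat_lit 171776) (nat_lit 201) (.e (nat_lit 112) (nat_lit 3) .nil))))))) (.g (nat_lit 4) .nil .nil))) 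
(.lf (nat_lit 232310) (.g (nat_lit 3193) (.e (nat_lit 98384) (nat_lit 32) (.e (nat_lit 475177) (nat_lit 24) (.e (nat_lit 516180) (nat_lit 15) (.e (nat_lit 475177) (nat_lit 24) (.e (nat_lit 516150) (nat_lit 9) (.e (nat_lit 426437) (nat_lit 18) .nil)))))) (.g (nat_lit 6) .nil .nil))))) (.nd (nat_lit 4) (.nd (nat_lit 5) 
(.lf (nat_lit 232270) (.g (nat_lit 2651) (.e (nat_lit 98384) (nat_lit 32) (.e (nat_lit 475177) (nat_lit 24) (.e (nat_lit 516150) (nat_lit 9) (.e (nat_lit 426131) (nat_lit 3) (.e (nat_lit 204830) (nat_lit 18) (.e (nat_lit 57754) (nat_lit 209) (.e (nat_lit 1023) (nat_lit 81) (.e (nat_lit 1252) (nat_lit 92) .nil)))))))) (.g (nat_lit 4) .nil .nil))) 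
(.lf (nat_lit 232302) (.g (nat_lit 3780) (.e (nat_lit 98384) (nat_lit 32) (.e (nat_lit 475177) (nat_lit 24) (.e (nat_lit 516179) (nat_lit 15) (.e (nat_lit 475177) (nat_lit 24) (.e (nat_lit 516146) (nat_lit 9) (.e (nat_lit 426436) (nat_lit 18) .nil)))))) (.g (nat_lit 0) .nil .nil)))) (.nd (nat_lit 5) 
(.lf (nat_lit 232286) (.g (nat_lit 3335) (.e (nat_lit 98384) (nat_lit 32) (.e (nat_lit 475177) (nat_lit 24) (.e (nat_lit 516150) (nat_lit 9) (.e (nat_lit 426438) (nat_lit 18) (.e (nat_lit 98356) (nat_lit 26) (.e (nat_lit 426436) (nat_lit 18) .nil)))))) (.g (nat_lit 0) .nil .nil))) 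
(.lf (nat_lit 232318) (.g (nat_lit 2942) (.e (nat_lit 98384) (nat_lit 32) (.e (nat_lit 475177) (nat_lit 24) (.e (nat_lit 516181) (nat_lit 15) (.e (nat_lit 475179) (nat_lit 24) (.e (nat_lit 516146) (nat_lit 9) (.e (nat_lit 426437) (nat_lit 18) .nil)))))) (.g (nat_lit 6) .nil .nil)))))))) (.nd (nat_lit 1) (.nd (nat_lit 2) (.nd (nat_lit 3) (.nd (nat_lit 4) (.nd (nat_lit 5) 
(.lf (nat_lit 232257) (.g (nat_lit 2658) (.e (nat_lit 98384) (nat_lit 32) (.e (nat_lit 475177) (nat_lit 24) (.e (nat_lit 516150) (nat_lit 9) (.e (nat_lit 426131) (nat_lit 3) (.e (nat_lit 204829) (nat_lit 18) (.e (nat_lit 57754) (nat_lit 209) (.e (nat_lit 1014) (nat_lit 81) (.e (nat_lit 1251) (nat_lit 92) .nil)))))))) (.g (nat_lit 4) .nil .nil))) 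
(.lf (nat_lit 232289) (.g (nat_lit 2053) (.e (nat_lit 98384) (nat_lit 32) (.e (nat_lit 475177) (nat_lit 24) (.e (nat_lit 516150) (nat_lit 9) (.e (nat_lit 426438) (nat_lit 18) (.e (nat_lit 106240) (nat_lit 26) (.e (nat_lit 426435) (nat_lit 18) .nil)))))) (.g (nat_lit 4) .nil .nil)))) (.nd (nat_lit 5) 
(.lf (nat_lit 232273) (.g (nat_lit 3216) (.e (nat_lit 98384) (nat_lit 32) (.e (nat_lit 475177) (nat_lit 24) (.e (nat_lit 516150) (nat_lit 9) (.e (nat_lit 426131) (nat_lit 3) (.e (nat_lit 204830) (nat_lit 18) (.e (nat_lit 57754) (nat_lit 209) (.e (nat_lit 1086) (nat_lit 81) (.e (nat_lit 1253) (nat_lit 92) .nil)))))))) (.g (nat_lit 4) .nil .nil))) 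
(.lf (nat_lit 232305) (.g (nat_lit 3672) (.e (nat_lit 98384) (nat_lit 32) (.e (nat_lit 475177) (nat_lit 24) (.e (nat_lit 516179) (nat_lit 15) (.e (nat_lit 475177) (nat_lit 24) (.e (nat_lit 516150) (nat_lit 9) (.e (nat_lit 426436) (nat_lit 18) .nil)))))) (.g (nat_lit 0) .nil .nil))))) (.nd (nat_lit 4) (.nd (nat_lit 5) 
(.lf (nat_lit 232265) (.g (nat_lit 3062) (.e (nat_lit 98384) (nat_lit 32) (.e (nat_lit 475177) (nat_lit 24) (.e (nat_lit 516150) (nat_lit 9) (.e (nat_lit 426131) (nat_lit 3) (.e (nat_lit 204829) (nat_lit 18) (.e (nat_lit 57757) (nat_lit 209) (.e (nat_lit 1074) (nat_lit 81) (.e (nat_lit 1250) (nat_lit 92) .nil)))))))) (.g (nat_lit 4) .nil .nil))) 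
(.lf (nat_lit 232297) (.g (nat_lit 2884) (.e (nat_lit 98384) (nat_lit 32) (.e (nat_lit 475177) (nat_lit 24) (.e (nat_lit 516171) (nat_lit 13) (.e (nat_lit 458789) (nat_lit 23) (.e (nat_lit 532499) (nat_lit 1) (.e (nat_lit 57754) (nat_lit 209) (.e (nat_lit 1039) (nat_lit 81) (.e (nat_lit 1252) (nat_lit 92) .nil)))))))) (.g (nat_lit 4) .nil .nil)))) (.nd (nat_lit 5) 
(.lf (nat_lit 232281) (.g (nat_lit 3011) (.e (nat_lit 98384) (nat_lit 32) (.e (nat_lit 475177) (nat_lit 24) (.e (nat_lit 516150) (nat_lit 9) (.e (nat_lit 426436) (nat_lit 18) (.e (nat_lit 98358) (nat_lit 26) (.e (nat_lit 426434) (nat_lit 18) .nil)))))) (.g (nat_lit 5) .nil .nil))) 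
(.lf (nat_lit 232313) (.g (nat_lit 3094) (.e (nat_lit 98384) (nat_lit 32) (.e (nat_lit 475177) (nat_lit 24) (.e (nat_lit 516181) (nat_lit 15) (.e (nat_lit 475176) (nat_lit 24) (.e (nat_lit 516145) (nat_lit 9) (.e (nat_lit 426438) (nat_lit 18) .nil)))))) (.g (nat_lit 0) .nil .nil)))))) (.nd (nat_lit 3) (.nd (nat_lit 4) (.nd (nat_lit 5) 
(.lf (nat_lit 232261) (.g (nat_lit 2602) (.e (nat_lit 98384) (nat_lit 32) (.e (nat_lit 475177) (nat_lit 24) (.e (nat_lit 516150) (nat_lit 9) (.e (nat_lit 426131) (nat_lit 3) (.e (nat_lit 204829) (nat_lit 18) (.e (nat_lit 57755) (nat_lit 209) (.e (nat_lit 992) (nat_lit 81) (.e (nat_lit 1251) (nat_lit 92) .nil)))))))) (.g (nat_lit 4) .nil .nil))) 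
(.lf (nat_lit 232293) (.g (nat_lit 4152) (.e (nat_lit 98384) (nat_lit 32) (.e (nat_lit 475177) (nat_lit 24) (.e (nat_lit 516169) (nat_lit 13) (.e (nat_lit 458789) (nat_lit 23) (.e (nat_lit 532499) (nat_lit 1) (.e (nat_lit 57755) (nat_lit 209) (.e (nat_lit 1086) (nat_lit 81) (.e (nat_lit 1252) (nat_lit 92) .nil)))))))) (.g (nat_lit 5) .nil .nil)))) (.nd (nat_lit 5) 
(.lf (nat_lit 232277) (.g (nat_lit 1729) (.e (nat_lit 98384) (nat_lit 32) (.e (nat_lit 475177) (nat_lit 24) (.e (nat_lit 516150) (nat_lit 9) (.e (nat_lit 426428) (nat_lit 17) (.e (nat_lit 90125) (nat_lit 9) .nil))))) .nil)) 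
(.lf (nat_lit 232309) (.g (nat_lit 2913) (.e (nat_lit 98384) (nat_lit 32) (.e (nat_lit 475177) (nat_lit 24) (.e (nat_lit 516180) (nat_lit 15) (.e (nat_lit 475177) (nat_lit 24) (.e (nat_lit 516146) (nat_lit 9) (.e (nat_lit 426437) (nat_lit 18) .nil)))))) (.g (nat_lit 5) .nil .nil))))) (.nd (nat_lit 4) (.nd (nat_lit 5) 
(.lf (nat_lit 232269) (.g (nat_lit 3212) (.e (nat_lit 98384) (nat_lit 32) (.e (nat_lit 475177) (nat_lit 24) (.e (nat_lit 516150) (nat_lit 9) (.e (nat_lit 426131) (nat_lit 3) (.e (nat_lit 204830) (nat_lit 18) (.e (nat_lit 57754) (nat_lit 209) (.e (nat_lit 1015) (nat_lit 81) (.e (nat_lit 1251) (nat_lit 92) .nil)))))))) (.g (nat_lit 4) .nil .nil))) 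
(.lf (nat_lit 232301) (.g (nat_lit 2483) (.e (nat_lit 98384) (nat_lit 32) (.e (nat_lit 475177) (nat_lit 24) (.e (nat_lit 516178) (nat_lit 15) (.e (nat_lit 475179) (nat_lit 24) (.e (nat_lit 516146) (nat_lit 9) (.e (nat_lit 426436) (nat_lit 18) .nil)))))) (.g (nat_lit 4) .nil .nil)))) (.nd (nat_lit 5) 
(.lf (nat_lit 232285) (.g (nat_lit 2063) (.e (nat_lit 98384) (nat_lit 32) (.e (nat_lit 475177) (nat_lit 24) (.e (nat_lit 516150) (nat_lit 9) (.e (nat_lit 426438) (nat_lit 18) (.e (nat_lit 98356) (nat_lit 26) (.e (nat_lit 426434) (nat_lit 18) .nil)))))) (.g (nat_lit 4) .nil .nil))) 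
(.lf (nat_lit 232317) (.g (nat_lit 2080) (.e (nat_lit 98384) (nat_lit 32) (.e (nat_lit 475177) (nat_lit 24) (.e (nat_lit 516181) (nat_lit 15) (.e (nat_lit 475179) (nat_lit 24) (.e (nat_lit 516102) (nat_lit 0) (.e (nat_lit 7936) (nat_lit 388) (.e (nat_lit 112) (nat_lit 3) .nil))))))) (.g (nat_lit 4) .nil .nil))))))) (.nd (nat_lit 2) (.nd (nat_lit 3) (.nd (nat_lit 4) (.nd (nat_lit 5) 
(.lf (nat_lit 232259) (.g (nat_lit 2626) (.e (nat_lit 98384) (nat_lit 32) (.e (nat_lit 475177) (nat_lit 24) (.e (nat_lit 516150) (nat_lit 9) (.e (nat_lit 426131) (nat_lit 3) (.e (nat_lit 204829) (nat_lit 18) (.e (nat_lit 57754) (nat_lit 209) (.e (nat_lit 1023) (nat_lit 81) (.e (nat_lit 1254) (nat_lit 92) .nil)))))))) (.g (nat_lit 4) .nil .nil))) 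
(.lf (nat_lit 232291) (.g (nat_lit 2977) (.e (nat_lit 98384) (nat_lit 32) (.e (nat_lit 475177) (nat_lit 24) (.e (nat_lit 516169) (nat_lit 13) (.e (nat_lit 458789) (nat_lit 23) (.e (nat_lit 532499) (nat_lit 1) (.e (nat_lit 57754) (nat_lit 209) (.e (nat_lit 1015) (nat_lit 81) (.e (nat_lit 1251) (nat_lit 92) .nil)))))))) (.g (nat_lit 4) .nil .nil)))) (.nd (nat_lit 5) 
(.lf (nat_lit 232275) (.g (nat_lit 1503) (.e (nat_lit 98384) (nat_lit 32) (.e (nat_lit 475177) (nat_lit 24) (.e (nat_lit 516150) (nat_lit 9) (.e (nat_lit 426360) (nat_lit 15) .nil)))) .nil)) 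
(.lf (nat_lit 232307) (.g (nat_lit 3534) (.e (nat_lit 98384) (nat_lit 32) (.e (nat_lit 475177) (nat_lit 24) (.e (nat_lit 516179) (nat_lit 15) (.e (nat_lit 475179) (nat_lit 24) (.e (nat_lit 516146) (nat_lit 9) (.e (nat_lit 426437) (nat_lit 18) .nil)))))) (.g (nat_lit 5) .nil .nil))))) (.nd (nat_lit 4) (.nd (nat_lit 5) 
(.lf (nat_lit 232267) (.g (nat_lit 2691) (.e (nat_lit 98384) (nat_lit 32) (.e (nat_lit 475177) (nat_lit 24) (.e (nat_lit 516150) (nat_lit 9) (.e (nat_lit 426131) (nat_lit 3) (.e (nat_lit 204830) (nat_lit 18) (.e (nat_lit 57754) (nat_lit 209) (.e (nat_lit 1003) (nat_lit 81) (.e (nat_lit 1243) (nat_lit 92) .nil)))))))) (.g (nat_lit 4) .nil .nil))) 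
(.lf (nat_lit 232299) (.g (nat_lit 2753) (.e (nat_lit 98384) (nat_lit 32) (.e (nat_lit 475177) (nat_lit 24) (.e (nat_lit 516171) (nat_lit 13) (.e (nat_lit 458789) (nat_lit 23) (.e (nat_lit 532501) (nat_lit 1) (.e (nat_lit 57754) (nat_lit 209) (.e (nat_lit 1015) (nat_lit 81) (.e (nat_lit 1251) (nat_lit 92) .nil)))))))) (.g (nat_lit 4) .nil .nil)))) (.nd (nat_lit 5) 
(.lf (nat_lit 232283) (.g (nat_lit 1187) (.e (nat_lit 98384) (nat_lit 32) (.e (nat_lit 475177) (nat_lit 24) (.e (nat_lit 516150) (nat_lit 9) (.e (nat_lit 426438) (nat_lit 18) .nil)))) .nil)) 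
(.lf (nat_lit 232315) (.g (nat_lit 3344) (.e (nat_lit 98384) (nat_lit 32) (.e (nat_lit 475177) (nat_lit 24) (.e (nat_lit 516181) (nat_lit 15) (.e (nat_lit 475177) (nat_lit 24) (.e (nat_lit 516146) (nat_lit 9) (.e (nat_lit 426436) (nat_lit 18) .nil)))))) (.g (nat_lit 0) .nil .nil)))))) (.nd (nat_lit 3) (.nd (nat_lit 4) (.nd (nat_lit 5) 
(.lf (nat_lit 232263) (.g (nat_lit 2718) (.e (nat_lit 98384) (nat_lit 32) (.e (nat_lit 475177) (nat_lit 24) (.e (nat_lit 516150) (nat_lit 9) (.e (nat_lit 426131) (nat_lit 3) (.e (nat_lit 204829) (nat_lit 18) (.e (nat_lit 57755) (nat_lit 209) (.e (nat_lit 1023) (nat_lit 81) (.e (nat_lit 1254) (nat_lit 92) .nil)))))))) (.g (nat_lit 4) .nil .nil))) 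
(.lf (nat_lit 232295) (.g (nat_lit 3209) (.e (nat_lit 98384) (nat_lit 32) (.e (nat_lit 475177) (nat_lit 24) (.e (nat_lit 516169) (nat_lit 13) (.e (nat_lit 458789) (nat_lit 23) (.e (nat_lit 532501) (nat_lit 1) (.e (nat_lit 57754) (nat_lit 209) (.e (nat_lit 1039) (nat_lit 81) (.e (nat_lit 1252) (nat_lit 92) .nil)))))))) (.g (nat_lit 4) .nil .nil)))) (.nd (nat_lit 5) 
(.lf (nat_lit 232279) (.g (nat_lit 2615) (.e (nat_lit 98384) (nat_lit 32) (.e (nat_lit 475177) (nat_lit 24) (.e (nat_lit 516150) (nat_lit 9) (.e (nat_lit 426428) (nat_lit 17) (.e (nat_lit 90185) (nat_lit 17) (.e (nat_lit 245504) (nat_lit 18) .nil)))))) (.g (nat_lit 5) .nil .nil))) 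
(.lf (nat_lit 232311) (.g (nat_lit 1866) (.e (nat_lit 98384) (nat_lit 32) (.e (nat_lit 475177) (nat_lit 24) (.e (nat_lit 516181) (nat_lit 15) (.e (nat_lit 475176) (nat_lit 24) (.e (nat_lit 516145) (nat_lit 9) (.e (nat_lit 426434) (nat_lit 18) .nil)))))) (.g (nat_lit 4) .nil .nil))))) (.nd (nat_lit 4) (.nd (nat_lit 5) 
(.lf (nat_lit 232271) (.g (nat_lit 2729) (.e (nat_lit 98384) (nat_lit 32) (.e (nat_lit 475177) (nat_lit 24) (.e (nat_lit 516150) (nat_lit 9) (.e (nat_lit 426131) (nat_lit 3) (.e (nat_lit 204830) (nat_lit 18) (.e (nat_lit 57754) (nat_lit 209) (.e (nat_lit 1023) (nat_lit 81) (.e (nat_lit 1254) (nat_lit 92) .nil)))))))) (.g (nat_lit 4) .nil .nil))) 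
(.lf (nat_lit 232303) (.g (nat_lit 3394) (.e (nat_lit 98384) (nat_lit 32) (.e (nat_lit 475177) (nat_lit 24) (.e (nat_lit 516179) (nat_lit 15) (.e (nat_lit 475177) (nat_lit 24) (.e (nat_lit 516146) (nat_lit 9) (.e (nat_lit 426437) (nat_lit 18) .nil)))))) (.g (nat_lit 6) .nil .nil)))) (.nd (nat_lit 5) 
(.lf (nat_lit 232287) (.g (nat_lit 3592) (.e (nat_lit 98384) (nat_lit 32) (.e (nat_lit 475177) (nat_lit 24) (.e (nat_lit 516150) (nat_lit 9) (.e (nat_lit 426438) (nat_lit 18) (.e (nat_lit 98358) (nat_lit 26) (.e (nat_lit 426436) (nat_lit 18) .nil)))))) (.g (nat_lit 0) .nil .nil))) 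
(.lf (nat_lit 232319) (.g (nat_lit 390) (.e (nat_lit 98384) (nat_lit 32) (.e (nat_lit 475177) (nat_lit 24) (.e (nat_lit 516182) (nat_lit 15) .nil))) .nil))))))))

noncomputable def tv3039 : DT := (.nd (nat_lit 0) (.nd (nat_lit 1) (.nd (nat_lit 2) (.nd (nat_lit 3) (.nd (nat_lit 4) (.nd (nat_lit 5) (.nd (nat_lit 6) 
(.lf (nat_lit 232320) (.g (nat_lit 1858) (.e (nat_lit 98384) (nat_lit 32) (.e (nat_lit 475177) (nat_lit 24) (.e (nat_lit 516182) (nat_lit 15) (.e (nat_lit 475177) (nat_lit 24) (.e (nat_lit 516145) (nat_lit 9) (.e (nat_lit 426438) (nat_lit 18) .nil)))))) (.g (nat_lit 4) .nil .nil))) 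
(.lf (nat_lit 232384) (.g (nat_lit 3338) (.e (nat_lit 98384) (nat_lit 32) (.e (nat_lit 475179) (nat_lit 24) (.e (nat_lit 516179) (nat_lit 15) (.e (nat_lit 475177) (nat_lit 24) (.e (nat_lit 516150) (nat_lit 9) (.e (nat_lit 426438) (nat_lit 18) .nil)))))) (.g (nat_lit 6) .nil .nil)))) (.nd (nat_lit 6) 
(.lf (nat_lit 232352) (.g (nat_lit 2788) (.e (nat_lit 98384) (nat_lit 32) (.e (nat_lit 475179) (nat_lit 24) (.e (nat_lit 516120) (nat_lit 1) (.e (nat_lit 164330) (nat_lit 230) (.e (nat_lit 163850) (nat_lit 0) .nil))))) .nil)) 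
(.lf (nat_lit 232416) (.g (nat_lit 2011) (.e (nat_lit 98384) (nat_lit 32) (.e (nat_lit 475201) (nat_lit 40) (.e (nat_lit 704655) (nat_lit 9) (.e (nat_lit 1237) (nat_lit 91) (.e (nat_lit 90128) (nat_lit 9) (.e (nat_lit 334) (nat_lit 26) (.e (nat_lit 376867) (nat_lit 23) .nil))))))) (.g (nat_lit 5) .nil .nil))))) (.nd (nat_lit 5) (.nd (nat_lit 6) 
(.lf (nat_lit 232336) (.g (nat_lit 3271) (.e (nat_lit 98384) (nat_lit 32) (.e (nat_lit 475179) (nat_lit 24) (.e (nat_lit 516117) (nat_lit 1) (.e (nat_lit 164329) (nat_lit 230) (.e (nat_lit 163850) (nat_lit 0) .nil))))) .nil)) 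
(.lf (nat_lit 232400) (.g (nat_lit 2044) (.e (nat_lit 98384) (nat_lit 32) (.e (nat_lit 475199) (nat_lit 40) (.e (nat_lit 704589) (nat_lit 3) (.e (nat_lit 163975) (nat_lit 30) (.e (nat_lit 573497) (nat_lit 17) .nil))))) .nil))) (.nd (nat_lit 6) 
(.lf (nat_lit 232368) (.g (nat_lit 3593) (.e (nat_lit 98384) (nat_lit 32) (.e (nat_lit 475179) (nat_lit 24) (.e (nat_lit 516146) (nat_lit 9) (.e (nat_lit 426436) (nat_lit 18) (.e (nat_lit 98358) (nat_lit 26) (.e (nat_lit 426436) (nat_lit 18) .nil)))))) (.g (nat_lit 0) .nil .nil))) 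
(.lf (nat_lit 232432) (.g (nat_lit 666) (.e (nat_lit 98384) (nat_lit 32) (.e (nat_lit 475211) (nat_lit 41) (.e (nat_lit 712740) (nat_lit 27) .nil))) .nil))))) (.nd (nat_lit 4) (.nd (nat_lit 5) (.nd (nat_lit 6) 
(.lf (nat_lit 232328) (.g (nat_lit 1533) (.e (nat_lit 98384) (nat_lit 32) (.e (nat_lit 475179) (nat_lit 24) (.e (nat_lit 516115) (nat_lit 1) (.e (nat_lit 164327) (nat_lit 230) .nil)))) .nil)) 
(.lf (nat_lit 232392) (.g (nat_lit 2089) (.e (nat_lit 98384) (nat_lit 32) (.e (nat_lit 475185) (nat_lit 29) (.e (nat_lit 557093) (nat_lit 12) (.e (nat_lit 164056) (nat_lit 56) .nil)))) .nil))) (.nd (nat_lit 6) 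
(.lf (nat_lit 232360) (.g (nat_lit 4705) (.e (nat_lit 98384) (nat_lit 32) (.e (nat_lit 475179) (nat_lit 24) (.e (nat_lit 516120) (nat_lit 1) (.e (nat_lit 164330) (nat_lit 230) (.e (nat_lit 163874) (nat_lit 3) (.e (nat_lit 204834) (nat_lit 19) (.e (nat_lit 106517) (nat_lit 9) (.e (nat_lit 1255) (nat_lit 92) .nil)))))))) (.g (nat_lit 5) .nil .nil))) 
(.lf (nat_lit 232424) (.g (nat_lit 1987) (.e (nat_lit 98384) (nat_lit 32) (.e (nat_lit 475210) (nat_lit 41) (.e (nat_lit 712722) (nat_lit 15) (.e (nat_lit 3302) (nat_lit 202) (.e (nat_lit 573449) (nat_lit 9) .nil))))) .nil)))) (.nd (nat_lit 5) (.nd (nat_lit 6) 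
(.lf (nat_lit 232344) (.g (nat_lit 1155) (.e (nat_lit 98384) (nat_lit 32) (.e (nat_lit 475179) (nat_lit 24) (.e (nat_lit 516119) (nat_lit 1) (.e (nat_lit 164325) (nat_lit 230) .nil)))) .nil)) 
(.lf (nat_lit 232408) (.g (nat_lit 848) (.e (nat_lit 98384) (nat_lit 32) (.e (nat_lit 475199) (nat_lit 40) (.e (nat_lit 704707) (nat_lit 9) .nil))) .nil))) (.nd (nat_lit 6) 
(.lf (nat_lit 232376) (.g (nat_lit 3042) (.e (nat_lit 98384) (nat_lit 32) (.e (nat_lit 475179) (nat_lit 24) (.e (nat_lit 516150) (nat_lit 9) (.e (nat_lit 426436) (nat_lit 18) (.e (nat_lit 98356) (nat_lit 26) (.e (nat_lit 426436) (nat_lit 18) .nil)))))) (.g (nat_lit 0) .nil .nil))) 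
(.lf (nat_lit 232440) (.g (nat_lit 2624) (.e (nat_lit 98384) (nat_lit 32) (.e (nat_lit 475212) (nat_lit 42) (.e (nat_lit 720937) (nat_lit 22) (.e (nat_lit 90128) (nat_lit 9) (.e (nat_lit 314) (nat_lit 23) (.e (nat_lit 352315) (nat_lit 23) .nil)))))) (.g (nat_lit 0) .nil .nil))))))) (.nd (nat_lit 3) (.nd (nat_lit 4) (.nd (nat_lit 5) (.nd (nat_lit 6) 
(.lf (nat_lit 232324) (.g (nat_lit 2649) (.e (nat_lit 98384) (nat_lit 32) (.e (nat_lit 475177) (nat_lit 24) (.e (nat_lit 516182) (nat_lit 15) (.e (nat_lit 475179) (nat_lit 24) (.e (nat_lit 516146) (nat_lit 9) (.e (nat_lit 426437) (nat_lit 18) .nil)))))) (.g (nat_lit 5) .nil .nil))) 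
(.lf (nat_lit 232388) (.g (nat_lit 2571) (.e (nat_lit 98384) (nat_lit 32) (.e (nat_lit 475179) (nat_lit 24) (.e (nat_lit 516182) (nat_lit 15) (.e (nat_lit 475177) (nat_lit 24) (.e (nat_lit 516148) (nat_lit 9) (.e (nat_lit 426436) (nat_lit 18) .nil)))))) (.g (nat_lit 0) .nil .nil)))) (.nd (nat_lit 6) 
(.lf (nat_lit 232356) (.g (nat_lit 2677) (.e (nat_lit 98384) (nat_lit 32) (.e (nat_lit 475179) (nat_lit 24) (.e (nat_lit 516120) (nat_lit 1) (.e (nat_lit 164330) (nat_lit 230) (.e (nat_lit 163874) (nat_lit 3) .nil))))) .nil)) 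
(.lf (nat_lit 232420) (.g (nat_lit 1233) (.e (nat_lit 98384) (nat_lit 32) (.e (nat_lit 475201) (nat_lit 40) (.e (nat_lit 704748) (nat_lit 12) (.e (nat_lit 57454) (nat_lit 21) (.e (nat_lit 499825) (nat_lit 5) (.e (nat_lit 333) (nat_lit 26) (.e (nat_lit 376867) (nat_lit 23) .nil))))))) (.g (nat_lit 4) .nil .nil))))) (.nd (nat_lit 5) (.nd (nat_lit 6) 
(.lf (nat_lit 232340) (.g (nat_lit 3159) (.e (nat_lit 98384) (nat_lit 32) (.e (nat_lit 475179) (nat_lit 24) (.e (nat_lit 516117) (nat_lit 1) (.e (nat_lit 164330) (nat_lit 230) (.e (nat_lit 163874) (nat_lit 3) .nil))))) .nil)) 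
(.lf (nat_lit 232404) (.g (nat_lit 707) (.e (nat_lit 98384) (nat_lit 32) (.e (nat_lit 475199) (nat_lit 40) (.e (nat_lit 704592) (nat_lit 4) .nil))) .nil))) (.nd (nat_lit 6) 
(.lf (nat_lit 232372) (.g (nat_lit 2142) (.e (nat_lit 98384) (nat_lit 32) (.e (nat_lit 475179) (nat_lit 24) (.e (nat_lit 516146) (nat_lit 9) (.e (nat_lit 426438) (nat_lit 18) (.e (nat_lit 106240) (nat_lit 26) .nil))))) .nil)) 
(.lf (nat_lit 232436) (.g (nat_lit 1753) (.e (nat_lit 98384) (nat_lit 32) (.e (nat_lit 475211) (nat_lit 41) (.e (nat_lit 712761) (nat_lit 34) (.e (nat_lit 483365) (nat_lit 18) (.e (nat_lit 57921) (nat_lit 280) .nil))))) .nil))))) (.nd (nat_lit 4) (.nd (nat_lit 5) (.nd (nat_lit 6) 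
(.lf (nat_lit 232332) (.g (nat_lit 3553) (.e (nat_lit 98384) (nat_lit 32) (.e (nat_lit 475179) (nat_lit 24) (.e (nat_lit 516115) (nat_lit 1) (.e (nat_lit 164327) (nat_lit 230) (.e (nat_lit 163875) (nat_lit 3) (.e (nat_lit 204817) (nat_lit 17) (.e (nat_lit 2198) (nat_lit 144) (.e (nat_lit 720945) (nat_lit 23) .nil)))))))) (.g (nat_lit 4) .nil .nil))) 
(.lf (nat_lit 232396) (.g (nat_lit 684) (.e (nat_lit 98384) (nat_lit 32) (.e (nat_lit 475198) (nat_lit 40) (.e (nat_lit 704607) (nat_lit 9) .nil))) .nil))) (.nd (nat_lit 6) 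
(.lf (nat_lit 232364) (.g (nat_lit 1723) (.e (nat_lit 98384) (nat_lit 32) (.e (nat_lit 475179) (nat_lit 24) (.e (nat_lit 516146) (nat_lit 9) (.e (nat_lit 426428) (nat_lit 17) .nil)))) .nil)) 
(.lf (nat_lit 232428) (.g (nat_lit 1798) (.e (nat_lit 98384) (nat_lit 32) (.e (nat_lit 475210) (nat_lit 41) (.e (nat_lit 712745) (nat_lit 27) (.e (nat_lit 426547) (nat_lit 31) .nil)))) .nil)))) (.nd (nat_lit 5) (.nd (nat_lit 6) 
(.lf (nat_lit 232348) (.g (nat_lit 3195) (.e (nat_lit 98384) (nat_lit 32) (.e (nat_lit 475179) (nat_lit 24) (.e (nat_lit 516119) (nat_lit 1) (.e (nat_lit 164326) (nat_lit 230) (.e (nat_lit 163868) (nat_lit 2) (.e (nat_lit 196660) (nat_lit 12) (.e (nat_lit 57550) (nat_lit 48) (.e (nat_lit 720944) (nat_lit 23) .nil)))))))) (.g (nat_lit 4) .nil .nil))) 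
(.lf (nat_lit 232412) (.g (nat_lit 2128) (.e (nat_lit 98384) (nat_lit 32) (.e (nat_lit 475201) (nat_lit 40) (.e (nat_lit 704620) (nat_lit 9) (.e (nat_lit 1237) (nat_lit 91) (.e (nat_lit 90128) (nat_lit 9) (.e (nat_lit 334) (nat_lit 26) (.e (nat_lit 376867) (nat_lit 23) .nil))))))) (.g (nat_lit 5) .nil .nil)))) (.nd (nat_lit 6) 
(.lf (nat_lit 232380) (.g (nat_lit 1504) (.e (nat_lit 98384) (nat_lit 32) (.e (nat_lit 475179) (nat_lit 24) (.e (nat_lit 516171) (nat_lit 13) (.e (nat_lit 458789) (nat_lit 23) .nil)))) .nil)) 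
(.lf (nat_lit 232444) (.g (nat_lit 2495) (.e (nat_lit 98384) (nat_lit 32) (.e (nat_lit 475212) (nat_lit 42) (.e (nat_lit 720937) (nat_lit 22) (.e (nat_lit 90158) (nat_lit 11) (.e (nat_lit 24636) (nat_lit 9) (.e (nat_lit 336017) (nat_lit 3) .nil)))))) (.g (nat_lit 5) .nil .nil)))))))) (.nd (nat_lit 2) (.nd (nat_lit 3) (.nd (nat_lit 4) (.nd (nat_lit 5) (.nd (nat_lit 6) 
(.lf (nat_lit 232322) (.g (nat_lit 2009) (.e (nat_lit 98384) (nat_lit 32) (.e (nat_lit 475177) (nat_lit 24) (.e (nat_lit 516182) (nat_lit 15) (.e (nat_lit 475177) (nat_lit 24) (.e (nat_lit 516148) (nat_lit 9) (.e (nat_lit 426437) (nat_lit 18) .nil)))))) (.g (nat_lit 0) .nil .nil))) 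
(.lf (nat_lit 232386) (.g (nat_lit 3245) (.e (nat_lit 98384) (nat_lit 32) (.e (nat_lit 475179) (nat_lit 24) (.e (nat_lit 516179) (nat_lit 15) (.e (nat_lit 475179) (nat_lit 24) (.e (nat_lit 516150) (nat_lit 9) (.e (nat_lit 426436) (nat_lit 18) .nil)))))) (.g (nat_lit 6) .nil .nil)))) (.nd (nat_lit 6) 
(.lf (nat_lit 232354) (.g (nat_lit 2888) (.e (nat_lit 98384) (nat_lit 32) (.e (nat_lit 475179) (nat_lit 24) (.e (nat_lit 516120) (nat_lit 1) (.e (nat_lit 164330) (nat_lit 230) (.e (nat_lit 163872) (nat_lit 3) (.e (nat_lit 204817) (nat_lit 17) (.e (nat_lit 2198) (nat_lit 144) (.e (nat_lit 720945) (nat_lit 23) .nil)))))))) (.g (nat_lit 4) .nil .nil))) 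
(.lf (nat_lit 232418) (.g (nat_lit 1206) (.e (nat_lit 98384) (nat_lit 32) (.e (nat_lit 475201) (nat_lit 40) (.e (nat_lit 704658) (nat_lit 9) (.e (nat_lit 1234) (nat_lit 91) (.e (nat_lit 90125) (nat_lit 9) (.e (nat_lit 333) (nat_lit 26) (.e (nat_lit 376867) (nat_lit 23) .nil))))))) (.g (nat_lit 4) .nil .nil))))) (.nd (nat_lit 5) (.nd (nat_lit 6) 
(.lf (nat_lit 232338) (.g (nat_lit 3433) (.e (nat_lit 98384) (nat_lit 32) (.e (nat_lit 475179) (nat_lit 24) (.e (nat_lit 516117) (nat_lit 1) (.e (nat_lit 164330) (nat_lit 230) (.e (nat_lit 163872) (nat_lit 3) .nil))))) .nil)) 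
(.lf (nat_lit 232402) (.g (nat_lit 1731) (.e (nat_lit 98384) (nat_lit 32) (.e (nat_lit 475199) (nat_lit 40) (.e (nat_lit 704590) (nat_lit 3) (.e (nat_lit 163974) (nat_lit 30) .nil)))) .nil))) (.nd (nat_lit 6) 
(.lf (nat_lit 232370) (.g (nat_lit 2270) (.e (nat_lit 98384) (nat_lit 32) (.e (nat_lit 475179) (nat_lit 24) (.e (nat_lit 516146) (nat_lit 9) (.e (nat_lit 426438) (nat_lit 18) (.e (nat_lit 98354) (nat_lit 26) .nil))))) .nil)) 
(.lf (nat_lit 232434) (.g (nat_lit 4263) (.e (nat_lit 98384) (nat_lit 32) (.e (nat_lit 475211) (nat_lit 41) (.e (nat_lit 712745) (nat_lit 27) (.e (nat_lit 426163) (nat_lit 6) (.e (nat_lit 253962) (nat_lit 9) (.e (nat_lit 1277) (nat_lit 94) (.e (nat_lit 114718) (nat_lit 23) .nil))))))) (.g (nat_lit 5) .nil .nil)))))) (.nd (nat_lit 4) (.nd (nat_lit 5) (.nd (nat_lit 6) 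
(.lf (nat_lit 232330) (.g (nat_lit 2675) (.e (nat_lit 98384) (nat_lit 32) (.e (nat_lit 475179) (nat_lit 24) (.e (nat_lit 516115) (nat_lit 1) (.e (nat_lit 164327) (nat_lit 230) (.e (nat_lit 163873) (nat_lit 3) .nil))))) .nil)) 
(.lf (nat_lit 232394) (.g (nat_lit 1046) (.e (nat_lit 98384) (nat_lit 32) (.e (nat_lit 475198) (nat_lit 40) (.e (nat_lit 704589) (nat_lit 3) (.e (nat_lit 163979) (nat_lit 30) .nil)))) .nil))) (.nd (nat_lit 6) 
(.lf (nat_lit 232362) (.g (nat_lit 1082) (.e (nat_lit 98384) (nat_lit 32) (.e (nat_lit 475179) (nat_lit 24) (.e (nat_lit 516145) (nat_lit 9) .nil))) .nil)) 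
(.lf (nat_lit 232426) (.g (nat_lit 1805) (.e (nat_lit 98384) (nat_lit 32) (.e (nat_lit 475210) (nat_lit 41) (.e (nat_lit 712745) (nat_lit 27) (.e (nat_lit 426532) (nat_lit 28) .nil)))) .nil)))) (.nd (nat_lit 5) (.nd (nat_lit 6) 
(.lf (nat_lit 232346) (.g (nat_lit 1472) (.e (nat_lit 98384) (nat_lit 32) (.e (nat_lit 475179) (nat_lit 24) (.e (nat_lit 516119) (nat_lit 1) (.e (nat_lit 164326) (nat_lit 230) .nil)))) .nil)) 
(.lf (nat_lit 232410) (.g (nat_lit 2074) (.e (nat_lit 98384) (nat_lit 32) (.e (nat_lit 475201) (nat_lit 40) (.e (nat_lit 704620) (nat_lit 9) (.e (nat_lit 1234) (nat_lit 91) (.e (nat_lit 90125) (nat_lit 9) (.e (nat_lit 333) (nat_lit 26) (.e (nat_lit 376867) (nat_lit 23) .nil))))))) (.g (nat_lit 5) .nil .nil)))) (.nd (nat_lit 6) 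
(.lf (nat_lit 232378) (.g (nat_lit 1523) (.e (nat_lit 98384) (nat_lit 32) (.e (nat_lit 475179) (nat_lit 24) (.e (nat_lit 516150) (nat_lit 9) (.e (nat_lit 426438) (nat_lit 18) .nil)))) .nil)) 
(.lf (nat_lit 232442) (.g (nat_lit 2476) (.e (nat_lit 98384) (nat_lit 32) (.e (nat_lit 475212) (nat_lit 42) (.e (nat_lit 720937) (nat_lit 22) (.e (nat_lit 90128) (nat_lit 9) (.e (nat_lit 334) (nat_lit 26) (.e (nat_lit 376869) (nat_lit 23) .nil)))))) (.g (nat_lit 0) .nil .nil))))))) (.nd (nat_lit 3) (.nd (nat_lit 4) (.nd (nat_lit 5) (.nd (nat_lit 6) 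
(.lf (nat_lit 232326) (.g (nat_lit 4040) (.e (nat_lit 98384) (nat_lit 32) (.e (nat_lit 475179) (nat_lit 24) (.e (nat_lit 516115) (nat_lit 1) (.e (nat_lit 164325) (nat_lit 230) (.e (nat_lit 163873) (nat_lit 3) .nil))))) .nil)) 
(.lf (nat_lit 232390) (.g (nat_lit 2964) (.e (nat_lit 98384) (nat_lit 32) (.e (nat_lit 475179) (nat_lit 24) (.e (nat_lit 516182) (nat_lit 15) (.e (nat_lit 475179) (nat_lit 24) (.e (nat_lit 516146) (nat_lit 9) (.e (nat_lit 426436) (nat_lit 18) .nil)))))) (.g (nat_lit 0) .nil .nil)))) (.nd (nat_lit 6) 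
(.lf (nat_lit 232358) (.g (nat_lit 3386) (.e (nat_lit 98384) (nat_lit 32) (.e (nat_lit 475179) (nat_lit 24) (.e (nat_lit 516120) (nat_lit 1) (.e (nat_lit 164330) (nat_lit 230) (.e (nat_lit 163874) (nat_lit 3) (.e (nat_lit 204817) (nat_lit 17) (.e (nat_lit 2198) (nat_lit 144) (.e (nat_lit 720945) (nat_lit 23) .nil)))))))) (.g (nat_lit 4) .nil .nil))) 
(.lf (nat_lit 232422) (.g (nat_lit 2333) (.e (nat_lit 98384) (nat_lit 32) (.e (nat_lit 475209) (nat_lit 41) (.e (nat_lit 712719) (nat_lit 15) (.e (nat_lit 3297) (nat_lit 202) (.e (nat_lit 573450) (nat_lit 9) (.e (nat_lit 1615) (nat_lit 113) (.e (nat_lit 376869) (nat_lit 23) .nil))))))) (.g (nat_lit 5) .nil .nil))))) (.nd (nat_lit 5) (.nd (nat_lit 6) 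
(.lf (nat_lit 232342) (.g (nat_lit 1889) (.e (nat_lit 98384) (nat_lit 32) (.e (nat_lit 475179) (nat_lit 24) (.e (nat_lit 516117) (nat_lit 1) (.e (nat_lit 164399) (nat_lit 256) .nil)))) .nil)) 
(.lf (nat_lit 232406) (.g (nat_lit 820) (.e (nat_lit 98384) (nat_lit 32) (.e (nat_lit 475199) (nat_lit 40) (.e (nat_lit 704688) (nat_lit 9) .nil))) .nil))) (.nd (nat_lit 6) 
(.lf (nat_lit 232374) (.g (nat_lit 1553) (.e (nat_lit 98384) (nat_lit 32) (.e (nat_lit 475179) (nat_lit 24) (.e (nat_lit 516150) (nat_lit 9) (.e (nat_lit 426428) (nat_lit 17) .nil)))) .nil)) 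
(.lf (nat_lit 232438) (.g (nat_lit 1651) (.e (nat_lit 98384) (nat_lit 32) (.e (nat_lit 475212) (nat_lit 42) (.e (nat_lit 720936) (nat_lit 22) (.e (nat_lit 90158) (nat_lit 11) (.e (nat_lit 24636) (nat_lit 9) (.e (nat_lit 336017) (nat_lit 3) .nil)))))) (.g (nat_lit 4) .nil .nil)))))) (.nd (nat_lit 4) (.nd (nat_lit 5) (.nd (nat_lit 6) 
(.lf (nat_lit 232334) (.g (nat_lit 2247) (.e (nat_lit 98384) (nat_lit 32) (.e (nat_lit 475179) (nat_lit 24) (.e (nat_lit 516117) (nat_lit 1) (.e (nat_lit 164329) (nat_lit 230) .nil)))) .nil)) 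
(.lf (nat_lit 232398) (.g (nat_lit 637) (.e (nat_lit 98384) (nat_lit 32) (.e (nat_lit 475198) (nat_lit 40) (.e (nat_lit 704758) (nat_lit 12) .nil))) .nil))) (.nd (nat_lit 6) 
(.lf (nat_lit 232366) (.g (nat_lit 2256) (.e (nat_lit 98384) (nat_lit 32) (.e (nat_lit 475179) (nat_lit 24) (.e (nat_lit 516146) (nat_lit 9) (.e (nat_lit 426434) (nat_lit 18) (.e (nat_lit 98356) (nat_lit 26) .nil))))) .nil)) 
(.lf (nat_lit 232430) (.g (nat_lit 2615) (.e (nat_lit 98384) (nat_lit 32) (.e (nat_lit 475211) (nat_lit 41) (.e (nat_lit 712722) (nat_lit 15) (.e (nat_lit 3302) (nat_lit 202) (.e (nat_lit 573450) (nat_lit 9) (.e (nat_lit 1615) (nat_lit 113) (.e (nat_lit 376867) (nat_lit 23) .nil))))))) (.g (nat_lit 4) .nil .nil))))) (.nd (nat_lit 5) (.nd (nat_lit 6) 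
(.lf (nat_lit 232350) (.g (nat_lit 2653) (.e (nat_lit 98384) (nat_lit 32) (.e (nat_lit 475179) (nat_lit 24) (.e (nat_lit 516119) (nat_lit 1) (.e (nat_lit 164327) (nat_lit 230) (.e (nat_lit 163873) (nat_lit 3) .nil))))) .nil)) 
(.lf (nat_lit 232414) (.g (nat_lit 2615) (.e (nat_lit 98384) (nat_lit 32) (.e (nat_lit 475201) (nat_lit 40) (.e (nat_lit 704620) (nat_lit 9) (.e (nat_lit 1238) (nat_lit 91) (.e (nat_lit 90128) (nat_lit 9) (.e (nat_lit 334) (nat_lit 26) (.e (nat_lit 376867) (nat_lit 23) .nil))))))) (.g (nat_lit 6) .nil .nil)))) (.nd (nat_lit 6) 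
(.lf (nat_lit 232382) (.g (nat_lit 1859) (.e (nat_lit 98384) (nat_lit 32) (.e (nat_lit 475179) (nat_lit 24) (.e (nat_lit 516179) (nat_lit 15) (.e (nat_lit 475177) (nat_lit 24) (.e (nat_lit 516149) (nat_lit 9) (.e (nat_lit 426436) (nat_lit 18) .nil)))))) (.g (nat_lit 4) .nil .nil))) 
(.lf (nat_lit 232446) (.g (nat_lit 2385) (.e (nat_lit 98384) (nat_lit 32) (.e (nat_lit 475212) (nat_lit 42) (.e (nat_lit 720938) (nat_lit 22) (.e (nat_lit 90128) (nat_lit 9) (.e (nat_lit 314) (nat_lit 23) (.e (nat_lit 352313) (nat_lit 23) .nil)))))) (.g (nat_lit 0) .nil .nil))))))))) (.nd (nat_lit 1) (.nd (nat_lit 2) (.nd (nat_lit 3) (.nd (nat_lit 4) (.nd (nat_lit 5) (.nd (nat_lit 6) 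
(.lf (nat_lit 232321) (.g (nat_lit 1822) (.e (nat_lit 98384) (nat_lit 32) (.e (nat_lit 475177) (nat_lit 24) (.e (nat_lit 516182) (nat_lit 15) (.e (nat_lit 475177) (nat_lit 24) (.e (nat_lit 516148) (nat_lit 9) (.e (nat_lit 426434) (nat_lit 18) .nil)))))) (.g (nat_lit 5) .nil .nil))) 
(.lf (nat_lit 232385) (.g (nat_lit 3445) (.e (nat_lit 98384) (nat_lit 32) (.e (nat_lit 475179) (nat_lit 24) (.e (nat_lit 516179) (nat_lit 15) (.e (nat_lit 475179) (nat_lit 24) (.e (nat_lit 516146) (nat_lit 9) (.e (nat_lit 426436) (nat_lit 18) .nil)))))) (.g (nat_lit 6) .nil .nil)))) (.nd (nat_lit 6) 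
(.lf (nat_lit 232353) (.g (nat_lit 3034) (.e (nat_lit 98384) (nat_lit 32) (.e (nat_lit 475179) (nat_lit 24) (.e (nat_lit 516120) (nat_lit 1) (.e (nat_lit 164330) (nat_lit 230) (.e (nat_lit 163867) (nat_lit 2) .nil))))) .nil)) 
(.lf (nat_lit 232417) (.g (nat_lit 2190) (.e (nat_lit 98384) (nat_lit 32) (.e (nat_lit 475201) (nat_lit 40) (.e (nat_lit 704655) (nat_lit 9) (.e (nat_lit 1237) (nat_lit 91) (.e (nat_lit 90128) (nat_lit 9) (.e (nat_lit 334) (nat_lit 26) (.e (nat_lit 376869) (nat_lit 23) .nil))))))) (.g (nat_lit 5) .nil .nil))))) (.nd (nat_lit 5) (.nd (nat_lit 6) 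
(.lf (nat_lit 232337) (.g (nat_lit 3272) (.e (nat_lit 98384) (nat_lit 32) (.e (nat_lit 475179) (nat_lit 24) (.e (nat_lit 516117) (nat_lit 1) (.e (nat_lit 164330) (nat_lit 230) (.e (nat_lit 163857) (nat_lit 0) .nil))))) .nil)) 
(.lf (nat_lit 232401) (.g (nat_lit 2060) (.e (nat_lit 98384) (nat_lit 32) (.e (nat_lit 475199) (nat_lit 40) (.e (nat_lit 704589) (nat_lit 3) (.e (nat_lit 163979) (nat_lit 30) (.e (nat_lit 573497) (nat_lit 17) .nil))))) .nil))) (.nd (nat_lit 6) 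
(.lf (nat_lit 232369) (.g (nat_lit 1547) (.e (nat_lit 98384) (nat_lit 32) (.e (nat_lit 475179) (nat_lit 24) (.e (nat_lit 516146) (nat_lit 9) (.e (nat_lit 426438) (nat_lit 18) .nil)))) .nil)) 
(.lf (nat_lit 232433) (.g (nat_lit 600) (.e (nat_lit 98384) (nat_lit 32) (.e (nat_lit 475211) (nat_lit 41) (.e (nat_lit 712745) (nat_lit 27) .nil))) .nil))))) (.nd (nat_lit 4) (.nd (nat_lit 5) (.nd (nat_lit 6) 
(.lf (nat_lit 232329) (.g (nat_lit 2678) (.e (nat_lit 98384) (nat_lit 32) (.e (nat_lit 475179) (nat_lit 24) (.e (nat_lit 516115) (nat_lit 1) (.e (nat_lit 164327) (nat_lit 230) (.e (nat_lit 163871) (nat_lit 2) .nil))))) .nil)) 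
(.lf (nat_lit 232393) (.g (nat_lit 3325) (.e (nat_lit 98384) (nat_lit 32) (.e (nat_lit 475198) (nat_lit 40) (.e (nat_lit 704589) (nat_lit 3) (.e (nat_lit 163975) (nat_lit 30) (.e (nat_lit 573450) (nat_lit 9) (.e (nat_lit 1615) (nat_lit 113) (.e (nat_lit 376869) (nat_lit 23) .nil))))))) (.g (nat_lit 4) .nil .nil)))) (.nd (nat_lit 6) 
(.lf (nat_lit 232361) (.g (nat_lit 1116) (.e (nat_lit 98384) (nat_lit 32) (.e (nat_lit 475179) (nat_lit 24) (.e (nat_lit 516144) (nat_lit 9) .nil))) .nil)) 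
(.lf (nat_lit 232425) (.g (nat_lit 2958) (.e (nat_lit 98384) (nat_lit 32) (.e (nat_lit 475210) (nat_lit 41) (.e (nat_lit 712722) (nat_lit 15) (.e (nat_lit 3302) (nat_lit 202) (.e (nat_lit 573450) (nat_lit 9) (.e (nat_lit 1615) (nat_lit 113) (.e (nat_lit 376867) (nat_lit 23) .nil))))))) (.g (nat_lit 4) .nil .nil))))) (.nd (nat_lit 5) (.nd (nat_lit 6) 
(.lf (nat_lit 232345) (.g (nat_lit 2774) (.e (nat_lit 98384) (nat_lit 32) (.e (nat_lit 475179) (nat_lit 24) (.e (nat_lit 516119) (nat_lit 1) (.e (nat_lit 164325) (nat_lit 230) (.e (nat_lit 163873) (nat_lit 3) .nil))))) .nil)) 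
(.lf (nat_lit 232409) (.g (nat_lit 856) (.e (nat_lit 98384) (nat_lit 32) (.e (nat_lit 475199) (nat_lit 40) (.e (nat_lit 704758) (nat_lit 12) .nil))) .nil))) (.nd (nat_lit 6) 
(.lf (nat_lit 232377) (.g (nat_lit 3386) (.e (nat_lit 98384) (nat_lit 32) (.e (nat_lit 475179) (nat_lit 24) (.e (nat_lit 516150) (nat_lit 9) (.e (nat_lit 426436) (nat_lit 18) (.e (nat_lit 98358) (nat_lit 26) (.e (nat_lit 426436) (nat_lit 18) .nil)))))) (.g (nat_lit 0) .nil .nil))) 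
(.lf (nat_lit 232441) (.g (nat_lit 2457) (.e (nat_lit 98384) (nat_lit 32) (.e (nat_lit 475212) (nat_lit 42) (.e (nat_lit 720937) (nat_lit 22) (.e (nat_lit 90128) (nat_lit 9) (.e (nat_lit 334) (nat_lit 26) (.e (nat_lit 376867) (nat_lit 23) .nil)))))) (.g (nat_lit 0) .nil .nil))))))) (.nd (nat_lit 3) (.nd (nat_lit 4) (.nd (nat_lit 5) (.nd (nat_lit 6) 
(.lf (nat_lit 232325) (.g (nat_lit 3138) (.e (nat_lit 98384) (nat_lit 32) (.e (nat_lit 475179) (nat_lit 24) (.e (nat_lit 516115) (nat_lit 1) (.e (nat_lit 164325) (nat_lit 230) (.e (nat_lit 163841) (nat_lit 0) .nil))))) .nil)) 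
(.lf (nat_lit 232389) (.g (nat_lit 2917) (.e (nat_lit 98384) (nat_lit 32) (.e (nat_lit 475179) (nat_lit 24) (.e (nat_lit 516182) (nat_lit 15) (.e (nat_lit 475177) (nat_lit 24) (.e (nat_lit 516150) (nat_lit 9) (.e (nat_lit 426436) (nat_lit 18) .nil)))))) (.g (nat_lit 0) .nil .nil)))) (.nd (nat_lit 6) 
(.lf (nat_lit 232357) (.g (nat_lit 2802) (.e (nat_lit 98384) (nat_lit 32) (.e (nat_lit 475179) (nat_lit 24) (.e (nat_lit 516120) (nat_lit 1) (.e (nat_lit 164330) (nat_lit 230) (.e (nat_lit 163874) (nat_lit 3) (.e (nat_lit 204815) (nat_lit 17) (.e (nat_lit 2198) (nat_lit 144) (.e (nat_lit 720945) (nat_lit 23) .nil)))))))) (.g (nat_lit 4) .nil .nil))) 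
(.lf (nat_lit 232421) (.g (nat_lit 558) (.e (nat_lit 98384) (nat_lit 32) (.e (nat_lit 475201) (nat_lit 40) (.e (nat_lit 704749) (nat_lit 12) (.e (nat_lit 57454) (nat_lit 21) (.e (nat_lit 499818) (nat_lit 5) .nil))))) .nil)))) (.nd (nat_lit 5) (.nd (nat_lit 6) 
(.lf (nat_lit 232341) (.g (nat_lit 4361) (.e (nat_lit 98384) (nat_lit 32) (.e (nat_lit 475179) (nat_lit 24) (.e (nat_lit 516117) (nat_lit 1) (.e (nat_lit 164330) (nat_lit 230) (.e (nat_lit 163874) (nat_lit 3) (.e (nat_lit 204834) (nat_lit 19) (.e (nat_lit 106517) (nat_lit 9) (.e (nat_lit 1255) (nat_lit 92) .nil)))))))) (.g (nat_lit 4) .nil .nil))) 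
(.lf (nat_lit 232405) (.g (nat_lit 689) (.e (nat_lit 98384) (nat_lit 32) (.e (nat_lit 475199) (nat_lit 40) (.e (nat_lit 704595) (nat_lit 5) .nil))) .nil))) (.nd (nat_lit 6) 
(.lf (nat_lit 232373) (.g (nat_lit 836) (.e (nat_lit 98384) (nat_lit 32) (.e (nat_lit 475179) (nat_lit 24) (.e (nat_lit 516149) (nat_lit 9) .nil))) .nil)) 
(.lf (nat_lit 232437) (.g (nat_lit 545) (.e (nat_lit 98384) (nat_lit 32) (.e (nat_lit 475212) (nat_lit 42) (.e (nat_lit 720936) (nat_lit 22) (.e (nat_lit 90125) (nat_lit 9) .nil)))) .nil))))) (.nd (nat_lit 4) (.nd (nat_lit 5) (.nd (nat_lit 6) 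
(.lf (nat_lit 232333) (.g (nat_lit 2480) (.e (nat_lit 98384) (nat_lit 32) (.e (nat_lit 475179) (nat_lit 24) (.e (nat_lit 516115) (nat_lit 1) (.e (nat_lit 164399) (nat_lit 256) (.e (nat_lit 57377) (nat_lit 3) .nil))))) .nil)) 
(.lf (nat_lit 232397) (.g (nat_lit 684) (.e (nat_lit 98384) (nat_lit 32) (.e (nat_lit 475198) (nat_lit 40) (.e (nat_lit 704707) (nat_lit 9) .nil))) .nil))) (.nd (nat_lit 6) 
(.lf (nat_lit 232365) (.g (nat_lit 2636) (.e (nat_lit 98384) (nat_lit 32) (.e (nat_lit 475179) (nat_lit 24) (.e (nat_lit 516146) (nat_lit 9) (.e (nat_lit 426428) (nat_lit 17) (.e (nat_lit 90185) (nat_lit 17) .nil))))) .nil)) 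
(.lf (nat_lit 232429) (.g (nat_lit 538) (.e (nat_lit 98384) (nat_lit 32) (.e (nat_lit 475211) (nat_lit 41) (.e (nat_lit 712722) (nat_lit 15) .nil))) .nil)))) (.nd (nat_lit 5) (.nd (nat_lit 6) 
(.lf (nat_lit 232349) (.g (nat_lit 3085) (.e (nat_lit 98384) (nat_lit 32) (.e (nat_lit 475179) (nat_lit 24) (.e (nat_lit 516119) (nat_lit 1) (.e (nat_lit 164326) (nat_lit 230) (.e (nat_lit 163871) (nat_lit 2) (.e (nat_lit 196660) (nat_lit 12) (.e (nat_lit 57550) (nat_lit 48) (.e (nat_lit 720944) (nat_lit 23) .nil)))))))) (.g (nat_lit 4) .nil .nil))) 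
(.lf (nat_lit 232413) (.g (nat_lit 2194) (.e (nat_lit 98384) (nat_lit 32) (.e (nat_lit 475201) (nat_lit 40) (.e (nat_lit 704620) (nat_lit 9) (.e (nat_lit 1237) (nat_lit 91) (.e (nat_lit 90128) (nat_lit 9) (.e (nat_lit 334) (nat_lit 26) (.e (nat_lit 376869) (nat_lit 23) .nil))))))) (.g (nat_lit 5) .nil .nil)))) (.nd (nat_lit 6) 
(.lf (nat_lit 232381) (.g (nat_lit 3555) (.e (nat_lit 98384) (nat_lit 32) (.e (nat_lit 475179) (nat_lit 24) (.e (nat_lit 516179) (nat_lit 15) (.e (nat_lit 475177) (nat_lit 24) (.e (nat_lit 516146) (nat_lit 9) (.e (nat_lit 426436) (nat_lit 18) .nil)))))) (.g (nat_lit 0) .nil .nil))) 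
(.lf (nat_lit 232445) (.g (nat_lit 2397) (.e (nat_lit 98384) (nat_lit 32) (.e (nat_lit 475212) (nat_lit 42) (.e (nat_lit 720937) (nat_lit 22) (.e (nat_lit 90160) (nat_lit 11) (.e (nat_lit 24636) (nat_lit 9) (.e (nat_lit 336017) (nat_lit 3) .nil)))))) (.g (nat_lit 0) .nil .nil)))))))) (.nd (nat_lit 2) (.nd (nat_lit 3) (.nd (nat_lit 4) (.nd (nat_lit 5) (.nd (nat_lit 6) 
(.lf (nat_lit 232323) (.g (nat_lit 2424) (.e (nat_lit 98384) (nat_lit 32) (.e (nat_lit 475177) (nat_lit 24) (.e (nat_lit 516182) (nat_lit 15) (.e (nat_lit 475177) (nat_lit 24) (.e (nat_lit 516150) (nat_lit 9) (.e (nat_lit 426434) (nat_lit 18) .nil)))))) (.g (nat_lit 5) .nil .nil))) 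
(.lf (nat_lit 232387) (.g (nat_lit 3067) (.e (nat_lit 98384) (nat_lit 32) (.e (nat_lit 475179) (nat_lit 24) (.e (nat_lit 516182) (nat_lit 15) (.e (nat_lit 475177) (nat_lit 24) (.e (nat_lit 516146) (nat_lit 9) (.e (nat_lit 426436) (nat_lit 18) .nil)))))) (.g (nat_lit 0) .nil .nil)))) (.nd (nat_lit 6) 
(.lf (nat_lit 232355) (.g (nat_lit 3293) (.e (nat_lit 98384) (nat_lit 32) (.e (nat_lit 475179) (nat_lit 24) (.e (nat_lit 516120) (nat_lit 1) (.e (nat_lit 164330) (nat_lit 230) (.e (nat_lit 163873) (nat_lit 3) (.e (nat_lit 204834) (nat_lit 19) (.e (nat_lit 106517) (nat_lit 9) (.e (nat_lit 1255) (nat_lit 92) .nil)))))))) (.g (nat_lit 4) .nil .nil))) 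
(.lf (nat_lit 232419) (.g (nat_lit 1228) (.e (nat_lit 98384) (nat_lit 32) (.e (nat_lit 475201) (nat_lit 40) (.e (nat_lit 704658) (nat_lit 9) (.e (nat_lit 1234) (nat_lit 91) (.e (nat_lit 90125) (nat_lit 9) (.e (nat_lit 333) (nat_lit 26) (.e (nat_lit 376869) (nat_lit 23) .nil))))))) (.g (nat_lit 4) .nil .nil))))) (.nd (nat_lit 5) (.nd (nat_lit 6) 
(.lf (nat_lit 232339) (.g (nat_lit 3501) (.e (nat_lit 98384) (nat_lit 32) (.e (nat_lit 475179) (nat_lit 24) (.e (nat_lit 516117) (nat_lit 1) (.e (nat_lit 164330) (nat_lit 230) (.e (nat_lit 163873) (nat_lit 3) .nil))))) .nil)) 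
(.lf (nat_lit 232403) (.g (nat_lit 1446) (.e (nat_lit 98384) (nat_lit 32) (.e (nat_lit 475199) (nat_lit 40) (.e (nat_lit 704590) (nat_lit 3) (.e (nat_lit 163975) (nat_lit 30) .nil)))) .nil))) (.nd (nat_lit 6) 
(.lf (nat_lit 232371) (.g (nat_lit 2820) (.e (nat_lit 98384) (nat_lit 32) (.e (nat_lit 475179) (nat_lit 24) (.e (nat_lit 516146) (nat_lit 9) (.e (nat_lit 426438) (nat_lit 18) (.e (nat_lit 98358) (nat_lit 26) (.e (nat_lit 426434) (nat_lit 18) .nil)))))) (.g (nat_lit 4) .nil .nil))) 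
(.lf (nat_lit 232435) (.g (nat_lit 1556) (.e (nat_lit 98384) (nat_lit 32) (.e (nat_lit 475211) (nat_lit 41) (.e (nat_lit 712745) (nat_lit 27) (.e (nat_lit 426532) (nat_lit 28) .nil)))) .nil))))) (.nd (nat_lit 4) (.nd (nat_lit 5) (.nd (nat_lit 6) 
(.lf (nat_lit 232331) (.g (nat_lit 2484) (.e (nat_lit 98384) (nat_lit 32) (.e (nat_lit 475179) (nat_lit 24) (.e (nat_lit 516115) (nat_lit 1) (.e (nat_lit 164327) (nat_lit 230) (.e (nat_lit 163875) (nat_lit 3) .nil))))) .nil)) 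
(.lf (nat_lit 232395) (.g (nat_lit 1183) (.e (nat_lit 98384) (nat_lit 32) (.e (nat_lit 475198) (nat_lit 40) (.e (nat_lit 704590) (nat_lit 3) (.e (nat_lit 163975) (nat_lit 30) .nil)))) .nil))) (.nd (nat_lit 6) 
(.lf (nat_lit 232363) (.g (nat_lit 1955) (.e (nat_lit 98384) (nat_lit 32) (.e (nat_lit 475179) (nat_lit 24) (.e (nat_lit 516145) (nat_lit 9) (.e (nat_lit 426438) (nat_lit 18) .nil)))) .nil)) 
(.lf (nat_lit 232427) (.g (nat_lit 1593) (.e (nat_lit 98384) (nat_lit 32) (.e (nat_lit 475210) (nat_lit 41) (.e (nat_lit 712745) (nat_lit 27) (.e (nat_lit 433920) (nat_lit 28) .nil)))) .nil)))) (.nd (nat_lit 5) (.nd (nat_lit 6) 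
(.lf (nat_lit 232347) (.g (nat_lit 2986) (.e (nat_lit 98384) (nat_lit 32) (.e (nat_lit 475179) (nat_lit 24) (.e (nat_lit 516119) (nat_lit 1) (.e (nat_lit 164326) (nat_lit 230) (.e (nat_lit 163868) (nat_lit 2) (.e (nat_lit 196658) (nat_lit 12) (.e (nat_lit 57551) (nat_lit 48) (.e (nat_lit 720944) (nat_lit 23) .nil)))))))) (.g (nat_lit 4) .nil .nil))) 
(.lf (nat_lit 232411) (.g (nat_lit 2097) (.e (nat_lit 98384) (nat_lit 32) (.e (nat_lit 475201) (nat_lit 40) (.e (nat_lit 704620) (nat_lit 9) (.e (nat_lit 1234) (nat_lit 91) (.e (nat_lit 90125) (nat_lit 9) (.e (nat_lit 333) (nat_lit 26) (.e (nat_lit 376869) (nat_lit 23) .nil))))))) (.g (nat_lit 5) .nil .nil)))) (.nd (nat_lit 6) 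
(.lf (nat_lit 232379) (.g (nat_lit 4040) (.e (nat_lit 98384) (nat_lit 32) (.e (nat_lit 475179) (nat_lit 24) (.e (nat_lit 516151) (nat_lit 9) (.e (nat_lit 426412) (nat_lit 15) .nil)))) .nil)) 
(.lf (nat_lit 232443) (.g (nat_lit 697) (.e (nat_lit 98384) (nat_lit 32) (.e (nat_lit 475212) (nat_lit 42) (.e (nat_lit 720937) (nat_lit 22) (.e (nat_lit 90133) (nat_lit 9) .nil)))) .nil)))))) (.nd (nat_lit 3) (.nd (nat_lit 4) (.nd (nat_lit 5) (.nd (nat_lit 6) 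
(.lf (nat_lit 232327) (.g (nat_lit 2375) (.e (nat_lit 98384) (nat_lit 32) (.e (nat_lit 475179) (nat_lit 24) (.e (nat_lit 516115) (nat_lit 1) (.e (nat_lit 164325) (nat_lit 230) (.e (nat_lit 163875) (nat_lit 3) .nil))))) .nil)) 
(.lf (nat_lit 232391) (.g (nat_lit 2779) (.e (nat_lit 98384) (nat_lit 32) (.e (nat_lit 475179) (nat_lit 24) (.e (nat_lit 516182) (nat_lit 15) (.e (nat_lit 475179) (nat_lit 24) (.e (nat_lit 516150) (nat_lit 9) (.e (nat_lit 426436) (nat_lit 18) .nil)))))) (.g (nat_lit 0) .nil .nil)))) (.nd (nat_lit 6) 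
(.lf (nat_lit 232359) (.g (nat_lit 2869) (.e (nat_lit 98384) (nat_lit 32) (.e (nat_lit 475179) (nat_lit 24) (.e (nat_lit 516120) (nat_lit 1) (.e (nat_lit 164330) (nat_lit 230) (.e (nat_lit 163874) (nat_lit 3) (.e (nat_lit 204818) (nat_lit 17) (.e (nat_lit 2202) (nat_lit 144) (.e (nat_lit 720944) (nat_lit 23) .nil)))))))) (.g (nat_lit 4) .nil .nil))) 
(.lf (nat_lit 232423) (.g (nat_lit 720) (.e (nat_lit 98384) (nat_lit 32) (.e (nat_lit 475210) (nat_lit 41) (.e (nat_lit 712704) (nat_lit 0) .nil))) .nil)))) (.nd (nat_lit 5) (.nd (nat_lit 6) 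
(.lf (nat_lit 232343) (.g (nat_lit 1750) (.e (nat_lit 98384) (nat_lit 32) (.e (nat_lit 475179) (nat_lit 24) (.e (nat_lit 516119) (nat_lit 1) (.e (nat_lit 164322) (nat_lit 230) .nil)))) .nil)) 
(.lf (nat_lit 232407) (.g (nat_lit 506) (.e (nat_lit 98384) (nat_lit 32) (.e (nat_lit 475199) (nat_lit 40) (.e (nat_lit 704689) (nat_lit 9) .nil))) .nil))) (.nd (nat_lit 6) 
(.lf (nat_lit 232375) (.g (nat_lit 1744) (.e (nat_lit 98384) (nat_lit 32) (.e (nat_lit 475179) (nat_lit 24) (.e (nat_lit 516150) (nat_lit 9) (.e (nat_lit 426434) (nat_lit 18) .nil)))) .nil)) 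
(.lf (nat_lit 232439) (.g (nat_lit 2383) (.e (nat_lit 98384) (nat_lit 32) (.e (nat_lit 475212) (nat_lit 42) (.e (nat_lit 720937) (nat_lit 22) (.e (nat_lit 90128) (nat_lit 9) (.e (nat_lit 314) (nat_lit 23) (.e (nat_lit 352313) (nat_lit 23) .nil)))))) (.g (nat_lit 0) .nil .nil)))))) (.nd (nat_lit 4) (.nd (nat_lit 5) (.nd (nat_lit 6) 
(.lf (nat_lit 232335) (.g (nat_lit 3358) (.e (nat_lit 98384) (nat_lit 32) (.e (nat_lit 475179) (nat_lit 24) (.e (nat_lit 516117) (nat_lit 1) (.e (nat_lit 164329) (nat_lit 230) (.e (nat_lit 163843) (nat_lit 0) .nil))))) .nil)) 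
(.lf (nat_lit 232399) (.g (nat_lit 2281) (.e (nat_lit 98384) (nat_lit 32) (.e (nat_lit 475199) (nat_lit 40) (.e (nat_lit 704589) (nat_lit 3) (.e (nat_lit 163974) (nat_lit 30) .nil)))) .nil))) (.nd (nat_lit 6) 
(.lf (nat_lit 232367) (.g (nat_lit 3250) (.e (nat_lit 98384) (nat_lit 32) (.e (nat_lit 475179) (nat_lit 24) (.e (nat_lit 516146) (nat_lit 9) (.e (nat_lit 426436) (nat_lit 18) (.e (nat_lit 98356) (nat_lit 26) (.e (nat_lit 426436) (nat_lit 18) .nil)))))) (.g (nat_lit 0) .nil .nil))) 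
(.lf (nat_lit 232431) (.g (nat_lit 4422) (.e (nat_lit 98384) (nat_lit 32) (.e (nat_lit 475211) (nat_lit 41) (.e (nat_lit 712722) (nat_lit 15) (.e (nat_lit 3302) (nat_lit 202) (.e (nat_lit 573450) (nat_lit 9) (.e (nat_lit 1615) (nat_lit 113) (.e (nat_lit 376869) (nat_lit 23) .nil))))))) (.g (nat_lit 0) .nil .nil))))) (.nd (nat_lit 5) (.nd (nat_lit 6) 
(.lf (nat_lit 232351) (.g (nat_lit 2564) (.e (nat_lit 98384) (nat_lit 32) (.e (nat_lit 475179) (nat_lit 24) (.e (nat_lit 516119) (nat_lit 1) (.e (nat_lit 164332) (nat_lit 230) (.e (nat_lit 163874) (nat_lit 3) .nil))))) .nil)) 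
(.lf (nat_lit 232415) (.g (nat_lit 2681) (.e (nat_lit 98384) (nat_lit 32) (.e (nat_lit 475201) (nat_lit 40) (.e (nat_lit 704620) (nat_lit 9) (.e (nat_lit 1238) (nat_lit 91) (.e (nat_lit 90128) (nat_lit 9) (.e (nat_lit 334) (nat_lit 26) (.e (nat_lit 376869) (nat_lit 23) .nil))))))) (.g (nat_lit 6) .nil .nil)))) (.nd (nat_lit 6) 
(.lf (nat_lit 232383) (.g (nat_lit 3449) (.e (nat_lit 98384) (nat_lit 32) (.e (nat_lit 475179) (nat_lit 24) (.e (nat_lit 516179) (nat_lit 15) (.e (nat_lit 475177) (nat_lit 24) (.e (nat_lit 516150) (nat_lit 9) (.e (nat_lit 426436) (nat_lit 18) .nil)))))) (.g (nat_lit 0) .nil .nil))) 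
(.lf (nat_lit 232447) (.g (nat_lit 2631) (.e (nat_lit 98384) (nat_lit 32) (.e (nat_lit 475212) (nat_lit 42) (.e (nat_lit 720938) (nat_lit 22) (.e (nat_lit 90128) (nat_lit 9) (.e (nat_lit 314) (nat_lit 23) (.e (nat_lit 352315) (nat_lit 23) .nil)))))) (.g (nat_lit 0) .nil .nil))))))))))

noncomputable def tv3040 : DT := (.nd (nat_lit 0) (.nd (nat_lit 1) (.nd (nat_lit 2) (.nd (nat_lit 3) (.nd (nat_lit 4) (.nd (nat_lit 5) 
(.lf (nat_lit 232448) (.g (nat_lit 2451) (.e (nat_lit 98384) (nat_lit 32) (.e (nat_lit 475212) (nat_lit 42) (.e (nat_lit 720938) (nat_lit 22) (.e (nat_lit 90128) (nat_lit 9) (.e (nat_lit 334) (nat_lit 26) (.e (nat_lit 376867) (nat_lit 23) .nil)))))) (.g (nat_lit 0) .nil .nil))) 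
(.lf (nat_lit 232480) (.g (nat_lit 1418) (.e (nat_lit 98384) (nat_lit 32) (.e (nat_lit 475214) (nat_lit 42) (.e (nat_lit 720937) (nat_lit 22) (.e (nat_lit 90159) (nat_lit 11) (.e (nat_lit 24636) (nat_lit 9) .nil))))) .nil))) (.nd (nat_lit 5) 
(.lf (nat_lit 232464) (.g (nat_lit 1302) (.e (nat_lit 98384) (nat_lit 32) (.e (nat_lit 475214) (nat_lit 42) (.e (nat_lit 720924) (nat_lit 20) .nil))) .nil)) 
(.lf (nat_lit 232496) (.g (nat_lit 2176) (.e (nat_lit 98384) (nat_lit 32) (.e (nat_lit 475214) (nat_lit 42) (.e (nat_lit 720943) (nat_lit 23) (.e (nat_lit 98315) (nat_lit 9) (.e (nat_lit 336152) (nat_lit 9) (.e (nat_lit 336017) (nat_lit 3) .nil)))))) (.g (nat_lit 0) .nil .nil))))) (.nd (nat_lit 4) (.nd (nat_lit 5) 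
(.lf (nat_lit 232456) (.g (nat_lit 698) (.e (nat_lit 98384) (nat_lit 32) (.e (nat_lit 475214) (nat_lit 42) (.e (nat_lit 720911) (nat_lit 20) .nil))) .nil)) 
(.lf (nat_lit 232488) (.g (nat_lit 1964) (.e (nat_lit 98384) (nat_lit 32) (.e (nat_lit 475214) (nat_lit 42) (.e (nat_lit 720939) (nat_lit 22) (.e (nat_lit 90128) (nat_lit 9) (.e (nat_lit 314) (nat_lit 23) (.e (nat_lit 352313) (nat_lit 23) .nil)))))) (.g (nat_lit 4) .nil .nil)))) (.nd (nat_lit 5) 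
(.lf (nat_lit 232472) (.g (nat_lit 1389) (.e (nat_lit 98384) (nat_lit 32) (.e (nat_lit 475214) (nat_lit 42) (.e (nat_lit 720934) (nat_lit 21) .nil))) .nil)) 
(.lf (nat_lit 232504) (.g (nat_lit 1931) (.e (nat_lit 98385) (nat_lit 32) (.e (nat_lit 475177) (nat_lit 24) (.e (nat_lit 516146) (nat_lit 9) (.e (nat_lit 426428) (nat_lit 17) (.e (nat_lit 90185) (nat_lit 17) (.e (nat_lit 245504) (nat_lit 18) .nil)))))) (.g (nat_lit 5) .nil .nil)))))) (.nd (nat_lit 3) (.nd (nat_lit 4) (.nd (nat_lit 5) 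
(.lf (nat_lit 232452) (.g (nat_lit 2228) (.e (nat_lit 98384) (nat_lit 32) (.e (nat_lit 475212) (nat_lit 42) (.e (nat_lit 720941) (nat_lit 22) (.e (nat_lit 90158) (nat_lit 11) (.e (nat_lit 24636) (nat_lit 9) (.e (nat_lit 336017) (nat_lit 3) .nil)))))) (.g (nat_lit 5) .nil .nil))) 
(.lf (nat_lit 232484) (.g (nat_lit 2626) (.e (nat_lit 98384) (nat_lit 32) (.e (nat_lit 475214) (nat_lit 42) (.e (nat_lit 720938) (nat_lit 22) (.e (nat_lit 90128) (nat_lit 9) (.e (nat_lit 334) (nat_lit 26) (.e (nat_lit 376867) (nat_lit 23) .nil)))))) (.g (nat_lit 0) .nil .nil)))) (.nd (nat_lit 5) 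
(.lf (nat_lit 232468) (.g (nat_lit 1364) (.e (nat_lit 98384) (nat_lit 32) (.e (nat_lit 475214) (nat_lit 42) (.e (nat_lit 720930) (nat_lit 21) .nil))) .nil)) 
(.lf (nat_lit 232500) (.g (nat_lit 1298) (.e (nat_lit 98384) (nat_lit 32) (.e (nat_lit 475214) (nat_lit 42) (.e (nat_lit 720959) (nat_lit 27) .nil))) .nil)))) (.nd (nat_lit 4) (.nd (nat_lit 5) 
(.lf (nat_lit 232460) (.g (nat_lit 1088) (.e (nat_lit 98384) (nat_lit 32) (.e (nat_lit 475214) (nat_lit 42) (.e (nat_lit 720918) (nat_lit 20) .nil))) .nil)) 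
(.lf (nat_lit 232492) (.g (nat_lit 2915) (.e (nat_lit 98384) (nat_lit 32) (.e (nat_lit 475214) (nat_lit 42) (.e (nat_lit 720941) (nat_lit 22) (.e (nat_lit 90128) (nat_lit 9) (.e (nat_lit 334) (nat_lit 26) (.e (nat_lit 376869) (nat_lit 23) .nil)))))) (.g (nat_lit 0) .nil .nil)))) (.nd (nat_lit 5) 
(.lf (nat_lit 232476) (.g (nat_lit 2452) (.e (nat_lit 98384) (nat_lit 32) (.e (nat_lit 475214) (nat_lit 42) (.e (nat_lit 720937) (nat_lit 22) (.e (nat_lit 90128) (nat_lit 9) (.e (nat_lit 314) (nat_lit 23) (.e (nat_lit 352313) (nat_lit 23) .nil)))))) (.g (nat_lit 0) .nil .nil))) 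
(.lf (nat_lit 232508) (.g (nat_lit 2768) (.e (nat_lit 98385) (nat_lit 32) (.e (nat_lit 475177) (nat_lit 24) (.e (nat_lit 516146) (nat_lit 9) (.e (nat_lit 426436) (nat_lit 18) (.e (nat_lit 98358) (nat_lit 26) (.e (nat_lit 426438) (nat_lit 18) .nil)))))) (.g (nat_lit 5) .nil .nil))))))) (.nd (nat_lit 2) (.nd (nat_lit 3) (.nd (nat_lit 4) (.nd (nat_lit 5) 
(.lf (nat_lit 232450) (.g (nat_lit 2353) (.e (nat_lit 98384) (nat_lit 32) (.e (nat_lit 475212) (nat_lit 42) (.e (nat_lit 720938) (nat_lit 22) (.e (nat_lit 90160) (nat_lit 11) (.e (nat_lit 24636) (nat_lit 9) (.e (nat_lit 336017) (nat_lit 3) .nil)))))) (.g (nat_lit 0) .nil .nil))) 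
(.lf (nat_lit 232482) (.g (nat_lit 2538) (.e (nat_lit 98384) (nat_lit 32) (.e (nat_lit 475214) (nat_lit 42) (.e (nat_lit 720938) (nat_lit 22) (.e (nat_lit 90128) (nat_lit 9) (.e (nat_lit 314) (nat_lit 23) (.e (nat_lit 352313) (nat_lit 23) .nil)))))) (.g (nat_lit 0) .nil .nil)))) (.nd (nat_lit 5) 
(.lf (nat_lit 232466) (.g (nat_lit 1346) (.e (nat_lit 98384) (nat_lit 32) (.e (nat_lit 475214) (nat_lit 42) (.e (nat_lit 720926) (nat_lit 20) .nil))) .nil)) 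
(.lf (nat_lit 232498) (.g (nat_lit 1399) (.e (nat_lit 98384) (nat_lit 32) (.e (nat_lit 475214) (nat_lit 42) (.e (nat_lit 720957) (nat_lit 26) .nil))) .nil)))) (.nd (nat_lit 4) (.nd (nat_lit 5) 
(.lf (nat_lit 232458) (.g (nat_lit 881) (.e (nat_lit 98384) (nat_lit 32) (.e (nat_lit 475214) (nat_lit 42) (.e (nat_lit 720914) (nat_lit 20) .nil))) .nil)) 
(.lf (nat_lit 232490) (.g (nat_lit 2036) (.e (nat_lit 98384) (nat_lit 32) (.e (nat_lit 475214) (nat_lit 42) (.e (nat_lit 720939) (nat_lit 22) (.e (nat_lit 90158) (nat_lit 11) (.e (nat_lit 24636) (nat_lit 9) (.e (nat_lit 336017) (nat_lit 3) .nil)))))) (.g (nat_lit 4) .nil .nil)))) (.nd (nat_lit 5) 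
(.lf (nat_lit 232474) (.g (nat_lit 395) (.e (nat_lit 98384) (nat_lit 32) (.e (nat_lit 475214) (nat_lit 42) (.e (nat_lit 720937) (nat_lit 22) .nil))) .nil)) 
(.lf (nat_lit 232506) (.g (nat_lit 3208) (.e (nat_lit 98385) (nat_lit 32) (.e (nat_lit 475177) (nat_lit 24) (.e (nat_lit 516146) (nat_lit 9) (.e (nat_lit 426436) (nat_lit 18) (.e (nat_lit 98356) (nat_lit 26) (.e (nat_lit 426436) (nat_lit 18) .nil)))))) (.g (nat_lit 0) .nil .nil)))))) (.nd (nat_lit 3) (.nd (nat_lit 4) (.nd (nat_lit 5) 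
(.lf (nat_lit 232454) (.g (nat_lit 564) (.e (nat_lit 98384) (nat_lit 32) (.e (nat_lit 475212) (nat_lit 42) (.e (nat_lit 720944) (nat_lit 23) .nil))) .nil)) 
(.lf (nat_lit 232486) (.g (nat_lit 2619) (.e (nat_lit 98384) (nat_lit 32) (.e (nat_lit 475214) (nat_lit 42) (.e (nat_lit 720938) (nat_lit 22) (.e (nat_lit 90158) (nat_lit 11) (.e (nat_lit 24636) (nat_lit 9) (.e (nat_lit 336017) (nat_lit 3) .nil)))))) (.g (nat_lit 6) .nil .nil)))) (.nd (nat_lit 5) 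
(.lf (nat_lit 232470) (.g (nat_lit 1170) (.e (nat_lit 98384) (nat_lit 32) (.e (nat_lit 475214) (nat_lit 42) (.e (nat_lit 720932) (nat_lit 21) .nil))) .nil)) 
(.lf (nat_lit 232502) (.g (nat_lit 1346) (.e (nat_lit 98385) (nat_lit 32) (.e (nat_lit 475177) (nat_lit 24) (.e (nat_lit 516146) (nat_lit 9) (.e (nat_lit 426428) (nat_lit 17) (.e (nat_lit 90167) (nat_lit 13) .nil))))) .nil)))) (.nd (nat_lit 4) (.nd (nat_lit 5) 
(.lf (nat_lit 232462) (.g (nat_lit 775) (.e (nat_lit 98384) (nat_lit 32) (.e (nat_lit 475214) (nat_lit 42) (.e (nat_lit 720920) (nat_lit 20) .nil))) .nil)) 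
(.lf (nat_lit 232494) (.g (nat_lit 2346) (.e (nat_lit 98384) (nat_lit 32) (.e (nat_lit 475214) (nat_lit 42) (.e (nat_lit 720941) (nat_lit 22) (.e (nat_lit 90158) (nat_lit 11) (.e (nat_lit 24636) (nat_lit 9) (.e (nat_lit 336017) (nat_lit 3) .nil)))))) (.g (nat_lit 4) .nil .nil)))) (.nd (nat_lit 5) 
(.lf (nat_lit 232478) (.g (nat_lit 2549) (.e (nat_lit 98384) (nat_lit 32) (.e (nat_lit 475214) (nat_lit 42) (.e (nat_lit 720937) (nat_lit 22) (.e (nat_lit 90128) (nat_lit 9) (.e (nat_lit 334) (nat_lit 26) (.e (nat_lit 376867) (nat_lit 23) .nil)))))) (.g (nat_lit 0) .nil .nil))) 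
(.lf (nat_lit 232510) (.g (nat_lit 3093) (.e (nat_lit 98385) (nat_lit 32) (.e (nat_lit 475177) (nat_lit 24) (.e (nat_lit 516146) (nat_lit 9) (.e (nat_lit 426438) (nat_lit 18) (.e (nat_lit 98356) (nat_lit 26) (.e (nat_lit 426436) (nat_lit 18) .nil)))))) (.g (nat_lit 0) .nil .nil)))))))) (.nd (nat_lit 1) (.nd (nat_lit 2) (.nd (nat_lit 3) (.nd (nat_lit 4) (.nd (nat_lit 5) 
(.lf (nat_lit 232449) (.g (nat_lit 2471) (.e (nat_lit 98384) (nat_lit 32) (.e (nat_lit 475212) (nat_lit 42) (.e (nat_lit 720938) (nat_lit 22) (.e (nat_lit 90128) (nat_lit 9) (.e (nat_lit 334) (nat_lit 26) (.e (nat_lit 376869) (nat_lit 23) .nil)))))) (.g (nat_lit 0) .nil .nil))) 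
(.lf (nat_lit 232481) (.g (nat_lit 2498) (.e (nat_lit 98384) (nat_lit 32) (.e (nat_lit 475214) (nat_lit 42) (.e (nat_lit 720937) (nat_lit 22) (.e (nat_lit 90160) (nat_lit 11) (.e (nat_lit 24636) (nat_lit 9) (.e (nat_lit 336017) (nat_lit 3) .nil)))))) (.g (nat_lit 0) .nil .nil)))) (.nd (nat_lit 5) 
(.lf (nat_lit 232465) (.g (nat_lit 1009) (.e (nat_lit 98384) (nat_lit 32) (.e (nat_lit 475214) (nat_lit 42) (.e (nat_lit 720925) (nat_lit 20) .nil))) .nil)) 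
(.lf (nat_lit 232497) (.g (nat_lit 3551) (.e (nat_lit 98384) (nat_lit 32) (.e (nat_lit 475214) (nat_lit 42) (.e (nat_lit 720943) (nat_lit 23) (.e (nat_lit 98317) (nat_lit 9) (.e (nat_lit 343808) (nat_lit 9) (.e (nat_lit 336027) (nat_lit 3) .nil)))))) (.g (nat_lit 4) .nil .nil))))) (.nd (nat_lit 4) (.nd (nat_lit 5) 
(.lf (nat_lit 232457) (.g (nat_lit 983) (.e (nat_lit 98384) (nat_lit 32) (.e (nat_lit 475214) (nat_lit 42) (.e (nat_lit 720912) (nat_lit 20) .nil))) .nil)) 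
(.lf (nat_lit 232489) (.g (nat_lit 2713) (.e (nat_lit 98384) (nat_lit 32) (.e (nat_lit 475214) (nat_lit 42) (.e (nat_lit 720939) (nat_lit 22) (.e (nat_lit 90128) (nat_lit 9) (.e (nat_lit 334) (nat_lit 26) (.e (nat_lit 376869) (nat_lit 23) .nil)))))) (.g (nat_lit 0) .nil .nil)))) (.nd (nat_lit 5) 
(.lf (nat_lit 232473) (.g (nat_lit 1148) (.e (nat_lit 98384) (nat_lit 32) (.e (nat_lit 475214) (nat_lit 42) (.e (nat_lit 720935) (nat_lit 22) .nil))) .nil)) 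
(.lf (nat_lit 232505) (.g (nat_lit 1201) (.e (nat_lit 98385) (nat_lit 32) (.e (nat_lit 475177) (nat_lit 24) (.e (nat_lit 516146) (nat_lit 9) (.e (nat_lit 426436) (nat_lit 18) .nil)))) .nil))))) (.nd (nat_lit 3) (.nd (nat_lit 4) (.nd (nat_lit 5) 
(.lf (nat_lit 232453) (.g (nat_lit 1996) (.e (nat_lit 98384) (nat_lit 32) (.e (nat_lit 475212) (nat_lit 42) (.e (nat_lit 720943) (nat_lit 23) (.e (nat_lit 98315) (nat_lit 9) (.e (nat_lit 336152) (nat_lit 9) (.e (nat_lit 336017) (nat_lit 3) .nil)))))) (.g (nat_lit 0) .nil .nil))) 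
(.lf (nat_lit 232485) (.g (nat_lit 2688) (.e (nat_lit 98384) (nat_lit 32) (.e (nat_lit 475214) (nat_lit 42) (.e (nat_lit 720938) (nat_lit 22) (.e (nat_lit 90128) (nat_lit 9) (.e (nat_lit 334) (nat_lit 26) (.e (nat_lit 376869) (nat_lit 23) .nil)))))) (.g (nat_lit 0) .nil .nil)))) (.nd (nat_lit 5) 
(.lf (nat_lit 232469) (.g (nat_lit 1101) (.e (nat_lit 98384) (nat_lit 32) (.e (nat_lit 475214) (nat_lit 42) (.e (nat_lit 720931) (nat_lit 21) (.e (nat_lit 57621) (nat_lit 128) .nil)))) .nil)) 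
(.lf (nat_lit 232501) (.g (nat_lit 1284) (.e (nat_lit 98384) (nat_lit 32) (.e (nat_lit 475214) (nat_lit 42) (.e (nat_lit 720960) (nat_lit 27) .nil))) .nil)))) (.nd (nat_lit 4) (.nd (nat_lit 5) 
(.lf (nat_lit 232461) (.g (nat_lit 1286) (.e (nat_lit 98384) (nat_lit 32) (.e (nat_lit 475214) (nat_lit 42) (.e (nat_lit 720919) (nat_lit 20) .nil))) .nil)) 
(.lf (nat_lit 232493) (.g (nat_lit 3444) (.e (nat_lit 98384) (nat_lit 32) (.e (nat_lit 475214) (nat_lit 42) (.e (nat_lit 720941) (nat_lit 22) (.e (nat_lit 90158) (nat_lit 11) (.e (nat_lit 24628) (nat_lit 9) (.e (nat_lit 336019) (nat_lit 3) .nil)))))) (.g (nat_lit 6) .nil .nil)))) (.nd (nat_lit 5) 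
(.lf (nat_lit 232477) (.g (nat_lit 2695) (.e (nat_lit 98384) (nat_lit 32) (.e (nat_lit 475214) (nat_lit 42) (.e (nat_lit 720937) (nat_lit 22) (.e (nat_lit 90128) (nat_lit 9) (.e (nat_lit 314) (nat_lit 23) (.e (nat_lit 352315) (nat_lit 23) .nil)))))) (.g (nat_lit 0) .nil .nil))) 
(.lf (nat_lit 232509) (.g (nat_lit 1808) (.e (nat_lit 98385) (nat_lit 32) (.e (nat_lit 475177) (nat_lit 24) (.e (nat_lit 516146) (nat_lit 9) (.e (nat_lit 426438) (nat_lit 18) (.e (nat_lit 98354) (nat_lit 26) .nil))))) .nil)))))) (.nd (nat_lit 2) (.nd (nat_lit 3) (.nd (nat_lit 4) (.nd (nat_lit 5) 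
(.lf (nat_lit 232451) (.g (nat_lit 2226) (.e (nat_lit 98384) (nat_lit 32) (.e (nat_lit 475212) (nat_lit 42) (.e (nat_lit 720941) (nat_lit 22) (.e (nat_lit 90128) (nat_lit 9) (.e (nat_lit 314) (nat_lit 23) (.e (nat_lit 352313) (nat_lit 23) .nil)))))) (.g (nat_lit 5) .nil .nil))) 
(.lf (nat_lit 232483) (.g (nat_lit 2783) (.e (nat_lit 98384) (nat_lit 32) (.e (nat_lit 475214) (nat_lit 42) (.e (nat_lit 720938) (nat_lit 22) (.e (nat_lit 90128) (nat_lit 9) (.e (nat_lit 314) (nat_lit 23) (.e (nat_lit 352315) (nat_lit 23) .nil)))))) (.g (nat_lit 0) .nil .nil)))) (.nd (nat_lit 5) 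
(.lf (nat_lit 232467) (.g (nat_lit 1436) (.e (nat_lit 98384) (nat_lit 32) (.e (nat_lit 475214) (nat_lit 42) (.e (nat_lit 720929) (nat_lit 21) .nil))) .nil)) 
(.lf (nat_lit 232499) (.g (nat_lit 1223) (.e (nat_lit 98384) (nat_lit 32) (.e (nat_lit 475214) (nat_lit 42) (.e (nat_lit 720958) (nat_lit 26) .nil))) .nil)))) (.nd (nat_lit 4) (.nd (nat_lit 5) 
(.lf (nat_lit 232459) (.g (nat_lit 1261) (.e (nat_lit 98384) (nat_lit 32) (.e (nat_lit 475214) (nat_lit 42) (.e (nat_lit 720917) (nat_lit 20) .nil))) .nil)) 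
(.lf (nat_lit 232491) (.g (nat_lit 568) (.e (nat_lit 98384) (nat_lit 32) (.e (nat_lit 475214) (nat_lit 42) (.e (nat_lit 720941) (nat_lit 22) .nil))) .nil))) (.nd (nat_lit 5) 
(.lf (nat_lit 232475) (.g (nat_lit 856) (.e (nat_lit 98384) (nat_lit 32) (.e (nat_lit 475214) (nat_lit 42) (.e (nat_lit 720937) (nat_lit 22) (.e (nat_lit 90122) (nat_lit 9) .nil)))) .nil)) 
(.lf (nat_lit 232507) (.g (nat_lit 3514) (.e (nat_lit 98385) (nat_lit 32) (.e (nat_lit 475177) (nat_lit 24) (.e (nat_lit 516146) (nat_lit 9) (.e (nat_lit 426436) (nat_lit 18) (.e (nat_lit 98358) (nat_lit 26) (.e (nat_lit 426436) (nat_lit 18) .nil)))))) (.g (nat_lit 0) .nil .nil)))))) (.nd (nat_lit 3) (.nd (nat_lit 4) (.nd (nat_lit 5) 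
(.lf (nat_lit 232455) (.g (nat_lit 1427) (.e (nat_lit 98384) (nat_lit 32) (.e (nat_lit 475214) (nat_lit 42) (.e (nat_lit 720896) (nat_lit 0) .nil))) .nil)) 
(.lf (nat_lit 232487) (.g (nat_lit 2529) (.e (nat_lit 98384) (nat_lit 32) (.e (nat_lit 475214) (nat_lit 42) (.e (nat_lit 720938) (nat_lit 22) (.e (nat_lit 90160) (nat_lit 11) (.e (nat_lit 24636) (nat_lit 9) (.e (nat_lit 336017) (nat_lit 3) .nil)))))) (.g (nat_lit 0) .nil .nil)))) (.nd (nat_lit 5) 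
(.lf (nat_lit 232471) (.g (nat_lit 1447) (.e (nat_lit 98384) (nat_lit 32) (.e (nat_lit 475214) (nat_lit 42) (.e (nat_lit 720933) (nat_lit 21) .nil))) .nil)) 
(.lf (nat_lit 232503) (.g (nat_lit 1346) (.e (nat_lit 98385) (nat_lit 32) (.e (nat_lit 475177) (nat_lit 24) (.e (nat_lit 516146) (nat_lit 9) (.e (nat_lit 426428) (nat_lit 17) (.e (nat_lit 90168) (nat_lit 13) .nil))))) .nil)))) (.nd (nat_lit 4) (.nd (nat_lit 5) 
(.lf (nat_lit 232463) (.g (nat_lit 1325) (.e (nat_lit 98384) (nat_lit 32) (.e (nat_lit 475214) (nat_lit 42) (.e (nat_lit 720921) (nat_lit 20) .nil))) .nil)) 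
(.lf (nat_lit 232495) (.g (nat_lit 2906) (.e (nat_lit 98384) (nat_lit 32) (.e (nat_lit 475214) (nat_lit 42) (.e (nat_lit 720941) (nat_lit 22) (.e (nat_lit 90160) (nat_lit 11) (.e (nat_lit 24636) (nat_lit 9) (.e (nat_lit 336017) (nat_lit 3) .nil)))))) (.g (nat_lit 6) .nil .nil)))) (.nd (nat_lit 5) 
(.lf (nat_lit 232479) (.g (nat_lit 2609) (.e (nat_lit 98384) (nat_lit 32) (.e (nat_lit 475214) (nat_lit 42) (.e (nat_lit 720937) (nat_lit 22) (.e (nat_lit 90128) (nat_lit 9) (.e (nat_lit 334) (nat_lit 26) (.e (nat_lit 376869) (nat_lit 23) .nil)))))) (.g (nat_lit 0) .nil .nil))) 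
(.lf (nat_lit 232511) (.g (nat_lit 3362) (.e (nat_lit 98385) (nat_lit 32) (.e (nat_lit 475177) (nat_lit 24) (.e (nat_lit 516146) (nat_lit 9) (.e (nat_lit 426438) (nat_lit 18) (.e (nat_lit 98358) (nat_lit 26) (.e (nat_lit 426436) (nat_lit 18) .nil)))))) (.g (nat_lit 0) .nil .nil)))))))))

noncomputable def tv3041 : DT := (.nd (nat_lit 0) (.nd (nat_lit 1) (.nd (nat_lit 2) (.nd (nat_lit 3) (.nd (nat_lit 4) (.nd (nat_lit 5) 
(.lf (nat_lit 232512) (.g (nat_lit 1589) (.e (nat_lit 98385) (nat_lit 32) (.e (nat_lit 475177) (nat_lit 24) (.e (nat_lit 516146) (nat_lit 9) (.e (nat_lit 426438) (nat_lit 18) (.e (nat_lit 98363) (nat_lit 26) .nil))))) .nil)) 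
(.lf (nat_lit 232544) (.g (nat_lit 2552) (.e (nat_lit 98385) (nat_lit 32) (.e (nat_lit 475179) (nat_lit 24) (.e (nat_lit 516146) (nat_lit 9) (.e (nat_lit 426437) (nat_lit 18) .nil)))) .nil))) (.nd (nat_lit 5) 
(.lf (nat_lit 232528) (.g (nat_lit 3218) (.e (nat_lit 98385) (nat_lit 32) (.e (nat_lit 475177) (nat_lit 24) (.e (nat_lit 516150) (nat_lit 9) (.e (nat_lit 426438) (nat_lit 18) (.e (nat_lit 98358) (nat_lit 26) (.e (nat_lit 426436) (nat_lit 18) .nil)))))) (.g (nat_lit 0) .nil .nil))) 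
(.lf (nat_lit 232560) (.g (nat_lit 2051) (.e (nat_lit 98385) (nat_lit 32) (.e (nat_lit 475212) (nat_lit 42) (.e (nat_lit 720938) (nat_lit 22) (.e (nat_lit 90128) (nat_lit 9) (.e (nat_lit 314) (nat_lit 23) (.e (nat_lit 352313) (nat_lit 23) .nil)))))) (.g (nat_lit 0) .nil .nil))))) (.nd (nat_lit 4) (.nd (nat_lit 5) 
(.lf (nat_lit 232520) (.g (nat_lit 2227) (.e (nat_lit 98385) (nat_lit 32) (.e (nat_lit 475177) (nat_lit 24) (.e (nat_lit 516150) (nat_lit 9) (.e (nat_lit 426428) (nat_lit 17) (.e (nat_lit 90185) (nat_lit 17) (.e (nat_lit 245504) (nat_lit 18) .nil)))))) (.g (nat_lit 5) .nil .nil))) 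
(.lf (nat_lit 232552) (.g (nat_lit 2041) (.e (nat_lit 98385) (nat_lit 32) (.e (nat_lit 475212) (nat_lit 42) (.e (nat_lit 720937) (nat_lit 22) (.e (nat_lit 90128) (nat_lit 9) (.e (nat_lit 314) (nat_lit 23) (.e (nat_lit 352313) (nat_lit 23) .nil)))))) (.g (nat_lit 0) .nil .nil)))) (.nd (nat_lit 5) 
(.lf (nat_lit 232536) (.g (nat_lit 3822) (.e (nat_lit 98385) (nat_lit 32) (.e (nat_lit 475179) (nat_lit 24) (.e (nat_lit 516117) (nat_lit 1) (.e (nat_lit 164329) (nat_lit 230) (.e (nat_lit 163850) (nat_lit 0) .nil))))) .nil)) 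
(.lf (nat_lit 232568) (.g (nat_lit 1969) (.e (nat_lit 98385) (nat_lit 32) (.e (nat_lit 475212) (nat_lit 42) (.e (nat_lit 720938) (nat_lit 22) (.e (nat_lit 90160) (nat_lit 11) (.e (nat_lit 24636) (nat_lit 9) (.e (nat_lit 336017) (nat_lit 3) .nil)))))) (.g (nat_lit 0) .nil .nil)))))) (.nd (nat_lit 3) (.nd (nat_lit 4) (.nd (nat_lit 5) 
(.lf (nat_lit 232516) (.g (nat_lit 3019) (.e (nat_lit 98385) (nat_lit 32) (.e (nat_lit 475177) (nat_lit 24) (.e (nat_lit 516150) (nat_lit 9) (.e (nat_lit 426131) (nat_lit 3) (.e (nat_lit 212736) (nat_lit 1) .nil))))) .nil)) 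
(.lf (nat_lit 232548) (.g (nat_lit 1368) (.e (nat_lit 98385) (nat_lit 32) (.e (nat_lit 475210) (nat_lit 41) (.e (nat_lit 712722) (nat_lit 15) (.e (nat_lit 3302) (nat_lit 202) .nil)))) .nil))) (.nd (nat_lit 5) 
(.lf (nat_lit 232532) (.g (nat_lit 2808) (.e (nat_lit 98385) (nat_lit 32) (.e (nat_lit 475177) (nat_lit 24) (.e (nat_lit 516182) (nat_lit 15) (.e (nat_lit 475177) (nat_lit 24) (.e (nat_lit 516146) (nat_lit 9) (.e (nat_lit 426436) (nat_lit 18) .nil)))))) (.g (nat_lit 0) .nil .nil))) 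
(.lf (nat_lit 232564) (.g (nat_lit 2605) (.e (nat_lit 98385) (nat_lit 32) (.e (nat_lit 475212) (nat_lit 42) (.e (nat_lit 720938) (nat_lit 22) (.e (nat_lit 90158) (nat_lit 11) (.e (nat_lit 24628) (nat_lit 9) (.e (nat_lit 336019) (nat_lit 3) .nil)))))) (.g (nat_lit 6) .nil .nil))))) (.nd (nat_lit 4) (.nd (nat_lit 5) 
(.lf (nat_lit 232524) (.g (nat_lit 2581) (.e (nat_lit 98385) (nat_lit 32) (.e (nat_lit 475177) (nat_lit 24) (.e (nat_lit 516150) (nat_lit 9) (.e (nat_lit 426436) (nat_lit 18) (.e (nat_lit 98358) (nat_lit 26) (.e (nat_lit 426438) (nat_lit 18) .nil)))))) (.g (nat_lit 5) .nil .nil))) 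
(.lf (nat_lit 232556) (.g (nat_lit 2558) (.e (nat_lit 98385) (nat_lit 32) (.e (nat_lit 475212) (nat_lit 42) (.e (nat_lit 720937) (nat_lit 22) (.e (nat_lit 90160) (nat_lit 11) (.e (nat_lit 24628) (nat_lit 9) (.e (nat_lit 336019) (nat_lit 3) .nil)))))) (.g (nat_lit 0) .nil .nil)))) (.nd (nat_lit 5) 
(.lf (nat_lit 232540) (.g (nat_lit 2212) (.e (nat_lit 98385) (nat_lit 32) (.e (nat_lit 475179) (nat_lit 24) (.e (nat_lit 516119) (nat_lit 1) (.e (nat_lit 164326) (nat_lit 230) .nil)))) .nil)) 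
(.lf (nat_lit 232572) (.g (nat_lit 326) (.e (nat_lit 98385) (nat_lit 32) (.e (nat_lit 475212) (nat_lit 42) (.e (nat_lit 720941) (nat_lit 22) .nil))) .nil)))))) (.nd (nat_lit 2) (.nd (nat_lit 3) (.nd (nat_lit 4) (.nd (nat_lit 5) 
(.lf (nat_lit 232514) (.g (nat_lit 874) (.e (nat_lit 98385) (nat_lit 32) (.e (nat_lit 475177) (nat_lit 24) (.e (nat_lit 516149) (nat_lit 9) (.e (nat_lit 426437) (nat_lit 18) .nil)))) .nil)) 
(.lf (nat_lit 232546) (.g (nat_lit 260) (.e (nat_lit 98385) (nat_lit 32) (.e (nat_lit 475193) (nat_lit 38) (.e (nat_lit 688167) (nat_lit 15) .nil))) .nil))) (.nd (nat_lit 5) 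
(.lf (nat_lit 232530) (.g (nat_lit 2521) (.e (nat_lit 98385) (nat_lit 32) (.e (nat_lit 475177) (nat_lit 24) (.e (nat_lit 516181) (nat_lit 15) (.e (nat_lit 475176) (nat_lit 24) (.e (nat_lit 516145) (nat_lit 9) (.e (nat_lit 426436) (nat_lit 18) .nil)))))) (.g (nat_lit 6) .nil .nil))) 
(.lf (nat_lit 232562) (.g (nat_lit 2119) (.e (nat_lit 98385) (nat_lit 32) (.e (nat_lit 475212) (nat_lit 42) (.e (nat_lit 720938) (nat_lit 22) (.e (nat_lit 90128) (nat_lit 9) (.e (nat_lit 334) (nat_lit 26) (.e (nat_lit 376869) (nat_lit 23) .nil)))))) (.g (nat_lit 0) .nil .nil))))) (.nd (nat_lit 4) (.nd (nat_lit 5) 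
(.lf (nat_lit 232522) (.g (nat_lit 3067) (.e (nat_lit 98385) (nat_lit 32) (.e (nat_lit 475177) (nat_lit 24) (.e (nat_lit 516150) (nat_lit 9) (.e (nat_lit 426436) (nat_lit 18) (.e (nat_lit 98356) (nat_lit 26) (.e (nat_lit 426436) (nat_lit 18) .nil)))))) (.g (nat_lit 0) .nil .nil))) 
(.lf (nat_lit 232554) (.g (nat_lit 2118) (.e (nat_lit 98385) (nat_lit 32) (.e (nat_lit 475212) (nat_lit 42) (.e (nat_lit 720937) (nat_lit 22) (.e (nat_lit 90128) (nat_lit 9) (.e (nat_lit 334) (nat_lit 26) (.e (nat_lit 376869) (nat_lit 23) .nil)))))) (.g (nat_lit 0) .nil .nil)))) (.nd (nat_lit 5) 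
(.lf (nat_lit 232538) (.g (nat_lit 1769) (.e (nat_lit 98385) (nat_lit 32) (.e (nat_lit 475179) (nat_lit 24) (.e (nat_lit 516117) (nat_lit 1) (.e (nat_lit 164332) (nat_lit 230) .nil)))) .nil)) 
(.lf (nat_lit 232570) (.g (nat_lit 354) (.e (nat_lit 98385) (nat_lit 32) (.e (nat_lit 475212) (nat_lit 42) (.e (nat_lit 720940) (nat_lit 22) .nil))) .nil))))) (.nd (nat_lit 3) (.nd (nat_lit 4) (.nd (nat_lit 5) 
(.lf (nat_lit 232518) (.g (nat_lit 2017) (.e (nat_lit 98385) (nat_lit 32) (.e (nat_lit 475177) (nat_lit 24) (.e (nat_lit 516150) (nat_lit 9) (.e (nat_lit 426360) (nat_lit 15) .nil)))) .nil)) 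
(.lf (nat_lit 232550) (.g (nat_lit 1276) (.e (nat_lit 98385) (nat_lit 32) (.e (nat_lit 475212) (nat_lit 42) (.e (nat_lit 720936) (nat_lit 22) (.e (nat_lit 90158) (nat_lit 11) (.e (nat_lit 24636) (nat_lit 9) .nil))))) .nil))) (.nd (nat_lit 5) 
(.lf (nat_lit 232534) (.g (nat_lit 2634) (.e (nat_lit 98385) (nat_lit 32) (.e (nat_lit 475177) (nat_lit 24) (.e (nat_lit 516182) (nat_lit 15) (.e (nat_lit 475179) (nat_lit 24) (.e (nat_lit 516146) (nat_lit 9) (.e (nat_lit 426436) (nat_lit 18) .nil)))))) (.g (nat_lit 0) .nil .nil))) 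
(.lf (nat_lit 232566) (.g (nat_lit 2511) (.e (nat_lit 98385) (nat_lit 32) (.e (nat_lit 475212) (nat_lit 42) (.e (nat_lit 720938) (nat_lit 22) (.e (nat_lit 90160) (nat_lit 11) (.e (nat_lit 24628) (nat_lit 9) (.e (nat_lit 336019) (nat_lit 3) .nil)))))) (.g (nat_lit 0) .nil .nil))))) (.nd (nat_lit 4) (.nd (nat_lit 5) 
(.lf (nat_lit 232526) (.g (nat_lit 1732) (.e (nat_lit 98385) (nat_lit 32) (.e (nat_lit 475177) (nat_lit 24) (.e (nat_lit 516150) (nat_lit 9) (.e (nat_lit 426438) (nat_lit 18) (.e (nat_lit 98354) (nat_lit 26) .nil))))) .nil)) 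
(.lf (nat_lit 232558) (.g (nat_lit 2003) (.e (nat_lit 98385) (nat_lit 32) (.e (nat_lit 475212) (nat_lit 42) (.e (nat_lit 720937) (nat_lit 22) (.e (nat_lit 90160) (nat_lit 11) (.e (nat_lit 24636) (nat_lit 9) (.e (nat_lit 336017) (nat_lit 3) .nil)))))) (.g (nat_lit 0) .nil .nil)))) (.nd (nat_lit 5) 
(.lf (nat_lit 232542) (.g (nat_lit 1685) (.e (nat_lit 98385) (nat_lit 32) (.e (nat_lit 475179) (nat_lit 24) (.e (nat_lit 516120) (nat_lit 1) (.e (nat_lit 164332) (nat_lit 230) .nil)))) .nil)) 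
(.lf (nat_lit 232574) (.g (nat_lit 1923) (.e (nat_lit 98385) (nat_lit 32) (.e (nat_lit 475212) (nat_lit 42) (.e (nat_lit 720941) (nat_lit 22) (.e (nat_lit 90128) (nat_lit 9) (.e (nat_lit 334) (nat_lit 26) (.e (nat_lit 376867) (nat_lit 23) .nil)))))) (.g (nat_lit 5) .nil .nil)))))))) (.nd (nat_lit 1) (.nd (nat_lit 2) (.nd (nat_lit 3) (.nd (nat_lit 4) (.nd (nat_lit 5) 
(.lf (nat_lit 232513) (.g (nat_lit 1545) (.e (nat_lit 98385) (nat_lit 32) (.e (nat_lit 475177) (nat_lit 24) (.e (nat_lit 516149) (nat_lit 9) (.e (nat_lit 426436) (nat_lit 18) (.e (nat_lit 98356) (nat_lit 26) .nil))))) .nil)) 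
(.lf (nat_lit 232545) (.g (nat_lit 1627) (.e (nat_lit 98385) (nat_lit 32) (.e (nat_lit 475179) (nat_lit 24) (.e (nat_lit 516150) (nat_lit 9) (.e (nat_lit 426436) (nat_lit 18) .nil)))) .nil))) (.nd (nat_lit 5) 
(.lf (nat_lit 232529) (.g (nat_lit 1799) (.e (nat_lit 98385) (nat_lit 32) (.e (nat_lit 475177) (nat_lit 24) (.e (nat_lit 516150) (nat_lit 9) (.e (nat_lit 433920) (nat_lit 18) .nil)))) .nil)) 
(.lf (nat_lit 232561) (.g (nat_lit 2308) (.e (nat_lit 98385) (nat_lit 32) (.e (nat_lit 475212) (nat_lit 42) (.e (nat_lit 720938) (nat_lit 22) (.e (nat_lit 90128) (nat_lit 9) (.e (nat_lit 314) (nat_lit 23) (.e (nat_lit 352315) (nat_lit 23) .nil)))))) (.g (nat_lit 0) .nil .nil))))) (.nd (nat_lit 4) (.nd (nat_lit 5) 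
(.lf (nat_lit 232521) (.g (nat_lit 1944) (.e (nat_lit 98385) (nat_lit 32) (.e (nat_lit 475177) (nat_lit 24) (.e (nat_lit 516150) (nat_lit 9) (.e (nat_lit 426434) (nat_lit 18) .nil)))) .nil)) 
(.lf (nat_lit 232553) (.g (nat_lit 2296) (.e (nat_lit 98385) (nat_lit 32) (.e (nat_lit 475212) (nat_lit 42) (.e (nat_lit 720937) (nat_lit 22) (.e (nat_lit 90128) (nat_lit 9) (.e (nat_lit 314) (nat_lit 23) (.e (nat_lit 352315) (nat_lit 23) .nil)))))) (.g (nat_lit 0) .nil .nil)))) (.nd (nat_lit 5) 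
(.lf (nat_lit 232537) (.g (nat_lit 2330) (.e (nat_lit 98385) (nat_lit 32) (.e (nat_lit 475179) (nat_lit 24) (.e (nat_lit 516117) (nat_lit 1) (.e (nat_lit 164330) (nat_lit 230) .nil)))) .nil)) 
(.lf (nat_lit 232569) (.g (nat_lit 578) (.e (nat_lit 98385) (nat_lit 32) (.e (nat_lit 475212) (nat_lit 42) (.e (nat_lit 720939) (nat_lit 22) .nil))) .nil))))) (.nd (nat_lit 3) (.nd (nat_lit 4) (.nd (nat_lit 5) 
(.lf (nat_lit 232517) (.g (nat_lit 2657) (.e (nat_lit 98385) (nat_lit 32) (.e (nat_lit 475177) (nat_lit 24) (.e (nat_lit 516150) (nat_lit 9) (.e (nat_lit 426131) (nat_lit 3) (.e (nat_lit 204829) (nat_lit 18) .nil))))) .nil)) 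
(.lf (nat_lit 232549) (.g (nat_lit 1398) (.e (nat_lit 98385) (nat_lit 32) (.e (nat_lit 475212) (nat_lit 42) (.e (nat_lit 720920) (nat_lit 20) (.e (nat_lit 1855) (nat_lit 124) (.e (nat_lit 564992) (nat_lit 6) (.e (nat_lit 81955) (nat_lit 23) .nil)))))) (.g (nat_lit 4) .nil .nil)))) (.nd (nat_lit 5) 
(.lf (nat_lit 232533) (.g (nat_lit 2654) (.e (nat_lit 98385) (nat_lit 32) (.e (nat_lit 475177) (nat_lit 24) (.e (nat_lit 516182) (nat_lit 15) (.e (nat_lit 475177) (nat_lit 24) (.e (nat_lit 516150) (nat_lit 9) (.e (nat_lit 426436) (nat_lit 18) .nil)))))) (.g (nat_lit 0) .nil .nil))) 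
(.lf (nat_lit 232565) (.g (nat_lit 1158) (.e (nat_lit 98385) (nat_lit 32) (.e (nat_lit 475212) (nat_lit 42) (.e (nat_lit 720938) (nat_lit 22) (.e (nat_lit 90159) (nat_lit 11) (.e (nat_lit 24636) (nat_lit 9) .nil))))) .nil)))) (.nd (nat_lit 4) (.nd (nat_lit 5) 
(.lf (nat_lit 232525) (.g (nat_lit 1192) (.e (nat_lit 98385) (nat_lit 32) (.e (nat_lit 475177) (nat_lit 24) (.e (nat_lit 516150) (nat_lit 9) (.e (nat_lit 426438) (nat_lit 18) .nil)))) .nil)) 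
(.lf (nat_lit 232557) (.g (nat_lit 1548) (.e (nat_lit 98385) (nat_lit 32) (.e (nat_lit 475212) (nat_lit 42) (.e (nat_lit 720937) (nat_lit 22) (.e (nat_lit 90160) (nat_lit 11) (.e (nat_lit 24634) (nat_lit 9) (.e (nat_lit 336023) (nat_lit 3) .nil)))))) (.g (nat_lit 0) .nil .nil)))) (.nd (nat_lit 5) 
(.lf (nat_lit 232541) (.g (nat_lit 3568) (.e (nat_lit 98385) (nat_lit 32) (.e (nat_lit 475179) (nat_lit 24) (.e (nat_lit 516120) (nat_lit 1) (.e (nat_lit 164329) (nat_lit 230) (.e (nat_lit 163850) (nat_lit 0) .nil))))) .nil)) 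
(.lf (nat_lit 232573) (.g (nat_lit 1855) (.e (nat_lit 98385) (nat_lit 32) (.e (nat_lit 475212) (nat_lit 42) (.e (nat_lit 720941) (nat_lit 22) (.e (nat_lit 90128) (nat_lit 9) (.e (nat_lit 314) (nat_lit 23) (.e (nat_lit 352313) (nat_lit 23) .nil)))))) (.g (nat_lit 5) .nil .nil))))))) (.nd (nat_lit 2) (.nd (nat_lit 3) (.nd (nat_lit 4) (.nd (nat_lit 5) 
(.lf (nat_lit 232515) (.g (nat_lit 1987) (.e (nat_lit 98385) (nat_lit 32) (.e (nat_lit 475177) (nat_lit 24) (.e (nat_lit 516150) (nat_lit 9) (.e (nat_lit 426131) (nat_lit 3) .nil)))) .nil)) 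
(.lf (nat_lit 232547) (.g (nat_lit 1585) (.e (nat_lit 98385) (nat_lit 32) (.e (nat_lit 475210) (nat_lit 41) (.e (nat_lit 712722) (nat_lit 15) (.e (nat_lit 3295) (nat_lit 202) .nil)))) .nil))) (.nd (nat_lit 5) 
(.lf (nat_lit 232531) (.g (nat_lit 393) (.e (nat_lit 98385) (nat_lit 32) (.e (nat_lit 475177) (nat_lit 24) (.e (nat_lit 516182) (nat_lit 15) .nil))) .nil)) 
(.lf (nat_lit 232563) (.g (nat_lit 971) (.e (nat_lit 98385) (nat_lit 32) (.e (nat_lit 475212) (nat_lit 42) (.e (nat_lit 720938) (nat_lit 22) (.e (nat_lit 90133) (nat_lit 9) (.e (nat_lit 333) (nat_lit 26) .nil))))) .nil)))) (.nd (nat_lit 4) (.nd (nat_lit 5) 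
(.lf (nat_lit 232523) (.g (nat_lit 3372) (.e (nat_lit 98385) (nat_lit 32) (.e (nat_lit 475177) (nat_lit 24) (.e (nat_lit 516150) (nat_lit 9) (.e (nat_lit 426436) (nat_lit 18) (.e (nat_lit 98358) (nat_lit 26) (.e (nat_lit 426436) (nat_lit 18) .nil)))))) (.g (nat_lit 0) .nil .nil))) 
(.lf (nat_lit 232555) (.g (nat_lit 2631) (.e (nat_lit 98385) (nat_lit 32) (.e (nat_lit 475212) (nat_lit 42) (.e (nat_lit 720937) (nat_lit 22) (.e (nat_lit 90158) (nat_lit 11) (.e (nat_lit 24628) (nat_lit 9) (.e (nat_lit 336019) (nat_lit 3) .nil)))))) (.g (nat_lit 6) .nil .nil)))) (.nd (nat_lit 5) 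
(.lf (nat_lit 232539) (.g (nat_lit 1724) (.e (nat_lit 98385) (nat_lit 32) (.e (nat_lit 475179) (nat_lit 24) (.e (nat_lit 516119) (nat_lit 1) (.e (nat_lit 164325) (nat_lit 230) .nil)))) .nil)) 
(.lf (nat_lit 232571) (.g (nat_lit 620) (.e (nat_lit 98385) (nat_lit 32) (.e (nat_lit 475212) (nat_lit 42) (.e (nat_lit 720940) (nat_lit 22) (.e (nat_lit 90133) (nat_lit 9) .nil)))) .nil))))) (.nd (nat_lit 3) (.nd (nat_lit 4) (.nd (nat_lit 5) 
(.lf (nat_lit 232519) (.g (nat_lit 1744) (.e (nat_lit 98385) (nat_lit 32) (.e (nat_lit 475177) (nat_lit 24) (.e (nat_lit 516150) (nat_lit 9) (.e (nat_lit 426428) (nat_lit 17) (.e (nat_lit 90167) (nat_lit 13) .nil))))) .nil)) 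
(.lf (nat_lit 232551) (.g (nat_lit 329) (.e (nat_lit 98385) (nat_lit 32) (.e (nat_lit 475212) (nat_lit 42) (.e (nat_lit 720937) (nat_lit 22) .nil))) .nil))) (.nd (nat_lit 5) 
(.lf (nat_lit 232535) (.g (nat_lit 2434) (.e (nat_lit 98385) (nat_lit 32) (.e (nat_lit 475177) (nat_lit 24) (.e (nat_lit 516182) (nat_lit 15) (.e (nat_lit 475179) (nat_lit 24) (.e (nat_lit 516150) (nat_lit 9) (.e (nat_lit 426436) (nat_lit 18) .nil)))))) (.g (nat_lit 0) .nil .nil))) 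
(.lf (nat_lit 232567) (.g (nat_lit 1513) (.e (nat_lit 98385) (nat_lit 32) (.e (nat_lit 475212) (nat_lit 42) (.e (nat_lit 720938) (nat_lit 22) (.e (nat_lit 90160) (nat_lit 11) (.e (nat_lit 24634) (nat_lit 9) (.e (nat_lit 336023) (nat_lit 3) .nil)))))) (.g (nat_lit 0) .nil .nil))))) (.nd (nat_lit 4) (.nd (nat_lit 5) 
(.lf (nat_lit 232527) (.g (nat_lit 2994) (.e (nat_lit 98385) (nat_lit 32) (.e (nat_lit 475177) (nat_lit 24) (.e (nat_lit 516150) (nat_lit 9) (.e (nat_lit 426438) (nat_lit 18) (.e (nat_lit 98356) (nat_lit 26) (.e (nat_lit 426436) (nat_lit 18) .nil)))))) (.g (nat_lit 0) .nil .nil))) 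
(.lf (nat_lit 232559) (.g (nat_lit 299) (.e (nat_lit 98385) (nat_lit 32) (.e (nat_lit 475212) (nat_lit 42) (.e (nat_lit 720938) (nat_lit 22) .nil))) .nil))) (.nd (nat_lit 5) 
(.lf (nat_lit 232543) (.g (nat_lit 2610) (.e (nat_lit 98385) (nat_lit 32) (.e (nat_lit 475179) (nat_lit 24) (.e (nat_lit 516146) (nat_lit 9) (.e (nat_lit 426436) (nat_lit 18) (.e (nat_lit 98358) (nat_lit 26) .nil))))) .nil)) 
(.lf (nat_lit 232575) (.g (nat_lit 963) (.e (nat_lit 98385) (nat_lit 32) (.e (nat_lit 475212) (nat_lit 42) (.e (nat_lit 720941) (nat_lit 22) (.e (nat_lit 90133) (nat_lit 9) (.e (nat_lit 333) (nat_lit 26) .nil))))) .nil))))))))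

noncomputable def tv3042 : DT := (.nd (nat_lit 0) (.nd (nat_lit 1) (.nd (nat_lit 2) (.nd (nat_lit 3) (.nd (nat_lit 4) (.nd (nat_lit 5) 
(.lf (nat_lit 232576) (.g (nat_lit 2676) (.e (nat_lit 98385) (nat_lit 32) (.e (nat_lit 475212) (nat_lit 42) (.e (nat_lit 720941) (nat_lit 22) (.e (nat_lit 90158) (nat_lit 11) (.e (nat_lit 24628) (nat_lit 9) (.e (nat_lit 336019) (nat_lit 3) .nil)))))) (.g (nat_lit 6) .nil .nil))) 
(.lf (nat_lit 232608) (.g (nat_lit 2197) (.e (nat_lit 98385) (nat_lit 32) (.e (nat_lit 475214) (nat_lit 42) (.e (nat_lit 720938) (nat_lit 22) (.e (nat_lit 90158) (nat_lit 11) (.e (nat_lit 24636) (nat_lit 9) (.e (nat_lit 336017) (nat_lit 3) .nil)))))) (.g (nat_lit 6) .nil .nil)))) (.nd (nat_lit 5) 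
(.lf (nat_lit 232592) (.g (nat_lit 2090) (.e (nat_lit 98385) (nat_lit 32) (.e (nat_lit 475214) (nat_lit 42) (.e (nat_lit 720937) (nat_lit 22) (.e (nat_lit 90128) (nat_lit 9) (.e (nat_lit 314) (nat_lit 23) (.e (nat_lit 352313) (nat_lit 23) .nil)))))) (.g (nat_lit 0) .nil .nil))) 
(.lf (nat_lit 232624) (.g (nat_lit 1258) (.e (nat_lit 98385) (nat_lit 32) (.e (nat_lit 475214) (nat_lit 42) (.e (nat_lit 720944) (nat_lit 23) (.e (nat_lit 98315) (nat_lit 9) .nil)))) .nil)))) (.nd (nat_lit 4) (.nd (nat_lit 5) 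
(.lf (nat_lit 232584) (.g (nat_lit 740) (.e (nat_lit 98385) (nat_lit 32) (.e (nat_lit 475212) (nat_lit 42) (.e (nat_lit 720944) (nat_lit 23) (.e (nat_lit 98313) (nat_lit 9) .nil)))) .nil)) 
(.lf (nat_lit 232616) (.g (nat_lit 1674) (.e (nat_lit 98385) (nat_lit 32) (.e (nat_lit 475214) (nat_lit 42) (.e (nat_lit 720941) (nat_lit 22) (.e (nat_lit 90128) (nat_lit 9) (.e (nat_lit 334) (nat_lit 26) .nil))))) .nil))) (.nd (nat_lit 5) 
(.lf (nat_lit 232600) (.g (nat_lit 1613) (.e (nat_lit 98385) (nat_lit 32) (.e (nat_lit 475214) (nat_lit 42) (.e (nat_lit 720937) (nat_lit 22) (.e (nat_lit 90160) (nat_lit 11) (.e (nat_lit 24634) (nat_lit 9) (.e (nat_lit 336023) (nat_lit 3) .nil)))))) (.g (nat_lit 0) .nil .nil))) 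
(.lf (nat_lit 232632) (.g (nat_lit 2447) (.e (nat_lit 98386) (nat_lit 32) (.e (nat_lit 475176) (nat_lit 24) (.e (nat_lit 516145) (nat_lit 9) (.e (nat_lit 426428) (nat_lit 17) (.e (nat_lit 90170) (nat_lit 13) (.e (nat_lit 179968) (nat_lit 18) .nil)))))) (.g (nat_lit 4) .nil .nil)))))) (.nd (nat_lit 3) (.nd (nat_lit 4) (.nd (nat_lit 5) 
(.lf (nat_lit 232580) (.g (nat_lit 2145) (.e (nat_lit 98385) (nat_lit 32) (.e (nat_lit 475212) (nat_lit 42) (.e (nat_lit 720941) (nat_lit 22) (.e (nat_lit 90160) (nat_lit 11) (.e (nat_lit 24636) (nat_lit 9) (.e (nat_lit 336017) (nat_lit 3) .nil)))))) (.g (nat_lit 6) .nil .nil))) 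
(.lf (nat_lit 232612) (.g (nat_lit 1099) (.e (nat_lit 98385) (nat_lit 32) (.e (nat_lit 475214) (nat_lit 42) (.e (nat_lit 720939) (nat_lit 22) (.e (nat_lit 90128) (nat_lit 9) .nil)))) .nil))) (.nd (nat_lit 5) 
(.lf (nat_lit 232596) (.g (nat_lit 1138) (.e (nat_lit 98385) (nat_lit 32) (.e (nat_lit 475214) (nat_lit 42) (.e (nat_lit 720937) (nat_lit 22) (.e (nat_lit 90133) (nat_lit 9) (.e (nat_lit 313) (nat_lit 23) .nil))))) .nil)) 
(.lf (nat_lit 232628) (.g (nat_lit 1949) (.e (nat_lit 98386) (nat_lit 32) (.e (nat_lit 475156) (nat_lit 21) (.e (nat_lit 6930) (nat_lit 373) (.e (nat_lit 57375) (nat_lit 2) (.e (nat_lit 90172) (nat_lit 14) (.e (nat_lit 180278) (nat_lit 32) (.e (nat_lit 1253) (nat_lit 92) .nil))))))) (.g (nat_lit 4) .nil .nil))))) (.nd (nat_lit 4) (.nd (nat_lit 5) 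
(.lf (nat_lit 232588) (.g (nat_lit 650) (.e (nat_lit 98385) (nat_lit 32) (.e (nat_lit 475214) (nat_lit 42) (.e (nat_lit 720936) (nat_lit 22) .nil))) .nil)) 
(.lf (nat_lit 232620) (.g (nat_lit 1722) (.e (nat_lit 98385) (nat_lit 32) (.e (nat_lit 475214) (nat_lit 42) (.e (nat_lit 720943) (nat_lit 23) (.e (nat_lit 98315) (nat_lit 9) (.e (nat_lit 336152) (nat_lit 9) (.e (nat_lit 336017) (nat_lit 3) .nil)))))) (.g (nat_lit 0) .nil .nil)))) (.nd (nat_lit 5) 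
(.lf (nat_lit 232604) (.g (nat_lit 2177) (.e (nat_lit 98385) (nat_lit 32) (.e (nat_lit 475214) (nat_lit 42) (.e (nat_lit 720938) (nat_lit 22) (.e (nat_lit 90128) (nat_lit 9) (.e (nat_lit 334) (nat_lit 26) (.e (nat_lit 376867) (nat_lit 23) .nil)))))) (.g (nat_lit 0) .nil .nil))) 
(.lf (nat_lit 232636) (.g (nat_lit 2350) (.e (nat_lit 98386) (nat_lit 32) (.e (nat_lit 475176) (nat_lit 24) (.e (nat_lit 516145) (nat_lit 9) (.e (nat_lit 426438) (nat_lit 18) (.e (nat_lit 98363) (nat_lit 26) (.e (nat_lit 426435) (nat_lit 18) .nil)))))) (.g (nat_lit 4) .nil .nil))))))) (.nd (nat_lit 2) (.nd (nat_lit 3) (.nd (nat_lit 4) (.nd (nat_lit 5) 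
(.lf (nat_lit 232578) (.g (nat_lit 1092) (.e (nat_lit 98385) (nat_lit 32) (.e (nat_lit 475212) (nat_lit 42) (.e (nat_lit 720941) (nat_lit 22) (.e (nat_lit 90159) (nat_lit 11) (.e (nat_lit 24636) (nat_lit 9) .nil))))) .nil)) 
(.lf (nat_lit 232610) (.g (nat_lit 1626) (.e (nat_lit 98385) (nat_lit 32) (.e (nat_lit 475214) (nat_lit 42) (.e (nat_lit 720938) (nat_lit 22) (.e (nat_lit 90160) (nat_lit 11) (.e (nat_lit 24634) (nat_lit 9) (.e (nat_lit 336023) (nat_lit 3) .nil)))))) (.g (nat_lit 0) .nil .nil)))) (.nd (nat_lit 5) 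
(.lf (nat_lit 232594) (.g (nat_lit 2112) (.e (nat_lit 98385) (nat_lit 32) (.e (nat_lit 475214) (nat_lit 42) (.e (nat_lit 720937) (nat_lit 22) (.e (nat_lit 90128) (nat_lit 9) (.e (nat_lit 334) (nat_lit 26) (.e (nat_lit 376867) (nat_lit 23) .nil)))))) (.g (nat_lit 0) .nil .nil))) 
(.lf (nat_lit 232626) (.g (nat_lit 1509) (.e (nat_lit 98385) (nat_lit 32) (.e (nat_lit 475214) (nat_lit 42) (.e (nat_lit 720945) (nat_lit 23) (.e (nat_lit 98313) (nat_lit 9) (.e (nat_lit 336088) (nat_lit 9) .nil))))) .nil)))) (.nd (nat_lit 4) (.nd (nat_lit 5) 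
(.lf (nat_lit 232586) (.g (nat_lit 1597) (.e (nat_lit 98385) (nat_lit 32) (.e (nat_lit 475214) (nat_lit 42) (.e (nat_lit 720912) (nat_lit 20) (.e (nat_lit 1863) (nat_lit 124) (.e (nat_lit 564992) (nat_lit 6) .nil))))) .nil)) 
(.lf (nat_lit 232618) (.g (nat_lit 1625) (.e (nat_lit 98385) (nat_lit 32) (.e (nat_lit 475214) (nat_lit 42) (.e (nat_lit 720941) (nat_lit 22) (.e (nat_lit 90159) (nat_lit 11) (.e (nat_lit 24638) (nat_lit 9) .nil))))) .nil))) (.nd (nat_lit 5) 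
(.lf (nat_lit 232602) (.g (nat_lit 2163) (.e (nat_lit 98385) (nat_lit 32) (.e (nat_lit 475214) (nat_lit 42) (.e (nat_lit 720938) (nat_lit 22) (.e (nat_lit 90128) (nat_lit 9) (.e (nat_lit 314) (nat_lit 23) (.e (nat_lit 352313) (nat_lit 23) .nil)))))) (.g (nat_lit 0) .nil .nil))) 
(.lf (nat_lit 232634) (.g (nat_lit 1830) (.e (nat_lit 98386) (nat_lit 32) (.e (nat_lit 475176) (nat_lit 24) (.e (nat_lit 516145) (nat_lit 9) (.e (nat_lit 426438) (nat_lit 18) (.e (nat_lit 98357) (nat_lit 26) .nil))))) .nil))))) (.nd (nat_lit 3) (.nd (nat_lit 4) (.nd (nat_lit 5) 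
(.lf (nat_lit 232582) (.g (nat_lit 2847) (.e (nat_lit 98385) (nat_lit 32) (.e (nat_lit 475212) (nat_lit 42) (.e (nat_lit 720943) (nat_lit 23) (.e (nat_lit 98317) (nat_lit 9) (.e (nat_lit 336088) (nat_lit 9) (.e (nat_lit 336019) (nat_lit 3) .nil)))))) (.g (nat_lit 0) .nil .nil))) 
(.lf (nat_lit 232614) (.g (nat_lit 825) (.e (nat_lit 98385) (nat_lit 32) (.e (nat_lit 475214) (nat_lit 42) (.e (nat_lit 720941) (nat_lit 22) .nil))) .nil))) (.nd (nat_lit 5) 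
(.lf (nat_lit 232598) (.g (nat_lit 2781) (.e (nat_lit 98385) (nat_lit 32) (.e (nat_lit 475214) (nat_lit 42) (.e (nat_lit 720937) (nat_lit 22) (.e (nat_lit 90158) (nat_lit 11) (.e (nat_lit 24628) (nat_lit 9) (.e (nat_lit 336019) (nat_lit 3) .nil)))))) (.g (nat_lit 0) .nil .nil))) 
(.lf (nat_lit 232630) (.g (nat_lit 2155) (.e (nat_lit 98386) (nat_lit 32) (.e (nat_lit 475176) (nat_lit 24) (.e (nat_lit 516145) (nat_lit 9) (.e (nat_lit 426428) (nat_lit 17) (.e (nat_lit 90133) (nat_lit 9) .nil))))) .nil)))) (.nd (nat_lit 4) (.nd (nat_lit 5) 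
(.lf (nat_lit 232590) (.g (nat_lit 369) (.e (nat_lit 98385) (nat_lit 32) (.e (nat_lit 475214) (nat_lit 42) (.e (nat_lit 720937) (nat_lit 22) .nil))) .nil)) 
(.lf (nat_lit 232622) (.g (nat_lit 3272) (.e (nat_lit 98385) (nat_lit 32) (.e (nat_lit 475214) (nat_lit 42) (.e (nat_lit 720943) (nat_lit 23) (.e (nat_lit 98317) (nat_lit 9) (.e (nat_lit 336155) (nat_lit 9) .nil))))) .nil))) (.nd (nat_lit 5) 
(.lf (nat_lit 232606) (.g (nat_lit 1142) (.e (nat_lit 98385) (nat_lit 32) (.e (nat_lit 475214) (nat_lit 42) (.e (nat_lit 720938) (nat_lit 22) (.e (nat_lit 90133) (nat_lit 9) (.e (nat_lit 333) (nat_lit 26) .nil))))) .nil)) 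
(.lf (nat_lit 232638) (.g (nat_lit 1898) (.e (nat_lit 98386) (nat_lit 32) (.e (nat_lit 475176) (nat_lit 24) (.e (nat_lit 516146) (nat_lit 9) (.e (nat_lit 426428) (nat_lit 17) (.e (nat_lit 90167) (nat_lit 13) (.e (nat_lit 179968) (nat_lit 18) .nil)))))) (.g (nat_lit 4) .nil .nil)))))))) (.nd (nat_lit 1) (.nd (nat_lit 2) (.nd (nat_lit 3) (.nd (nat_lit 4) (.nd (nat_lit 5) 
(.lf (nat_lit 232577) (.g (nat_lit 1796) (.e (nat_lit 98385) (nat_lit 32) (.e (nat_lit 475212) (nat_lit 42) (.e (nat_lit 720941) (nat_lit 22) (.e (nat_lit 90158) (nat_lit 11) (.e (nat_lit 24636) (nat_lit 9) (.e (nat_lit 336017) (nat_lit 3) .nil)))))) (.g (nat_lit 5) .nil .nil))) 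
(.lf (nat_lit 232609) (.g (nat_lit 2615) (.e (nat_lit 98385) (nat_lit 32) (.e (nat_lit 475214) (nat_lit 42) (.e (nat_lit 720938) (nat_lit 22) (.e (nat_lit 90160) (nat_lit 11) (.e (nat_lit 24628) (nat_lit 9) (.e (nat_lit 336019) (nat_lit 3) .nil)))))) (.g (nat_lit 0) .nil .nil)))) (.nd (nat_lit 5) 
(.lf (nat_lit 232593) (.g (nat_lit 2343) (.e (nat_lit 98385) (nat_lit 32) (.e (nat_lit 475214) (nat_lit 42) (.e (nat_lit 720937) (nat_lit 22) (.e (nat_lit 90128) (nat_lit 9) (.e (nat_lit 314) (nat_lit 23) (.e (nat_lit 352315) (nat_lit 23) .nil)))))) (.g (nat_lit 0) .nil .nil))) 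
(.lf (nat_lit 232625) (.g (nat_lit 825) (.e (nat_lit 98385) (nat_lit 32) (.e (nat_lit 475214) (nat_lit 42) (.e (nat_lit 720945) (nat_lit 23) .nil))) .nil)))) (.nd (nat_lit 4) (.nd (nat_lit 5) 
(.lf (nat_lit 232585) (.g (nat_lit 1295) (.e (nat_lit 98385) (nat_lit 32) (.e (nat_lit 475214) (nat_lit 42) (.e (nat_lit 720911) (nat_lit 20) (.e (nat_lit 1860) (nat_lit 124) (.e (nat_lit 564992) (nat_lit 6) .nil))))) .nil)) 
(.lf (nat_lit 232617) (.g (nat_lit 1618) (.e (nat_lit 98385) (nat_lit 32) (.e (nat_lit 475214) (nat_lit 42) (.e (nat_lit 720941) (nat_lit 22) (.e (nat_lit 90159) (nat_lit 11) (.e (nat_lit 24628) (nat_lit 9) .nil))))) .nil))) (.nd (nat_lit 5) 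
(.lf (nat_lit 232601) (.g (nat_lit 351) (.e (nat_lit 98385) (nat_lit 32) (.e (nat_lit 475214) (nat_lit 42) (.e (nat_lit 720938) (nat_lit 22) .nil))) .nil)) 
(.lf (nat_lit 232633) (.g (nat_lit 2489) (.e (nat_lit 98386) (nat_lit 32) (.e (nat_lit 475176) (nat_lit 24) (.e (nat_lit 516145) (nat_lit 9) (.e (nat_lit 426428) (nat_lit 17) (.e (nat_lit 90185) (nat_lit 17) (.e (nat_lit 245504) (nat_lit 18) .nil)))))) (.g (nat_lit 4) .nil .nil)))))) (.nd (nat_lit 3) (.nd (nat_lit 4) (.nd (nat_lit 5) 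
(.lf (nat_lit 232581) (.g (nat_lit 1550) (.e (nat_lit 98385) (nat_lit 32) (.e (nat_lit 475212) (nat_lit 42) (.e (nat_lit 720943) (nat_lit 23) (.e (nat_lit 98315) (nat_lit 9) (.e (nat_lit 336152) (nat_lit 9) (.e (nat_lit 336017) (nat_lit 3) .nil)))))) (.g (nat_lit 0) .nil .nil))) 
(.lf (nat_lit 232613) (.g (nat_lit 2076) (.e (nat_lit 98385) (nat_lit 32) (.e (nat_lit 475214) (nat_lit 42) (.e (nat_lit 720939) (nat_lit 22) (.e (nat_lit 90160) (nat_lit 11) (.e (nat_lit 24634) (nat_lit 9) .nil))))) .nil))) (.nd (nat_lit 5) 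
(.lf (nat_lit 232597) (.g (nat_lit 1164) (.e (nat_lit 98385) (nat_lit 32) (.e (nat_lit 475214) (nat_lit 42) (.e (nat_lit 720937) (nat_lit 22) (.e (nat_lit 90133) (nat_lit 9) (.e (nat_lit 333) (nat_lit 26) .nil))))) .nil)) 
(.lf (nat_lit 232629) (.g (nat_lit 2017) (.e (nat_lit 98386) (nat_lit 32) (.e (nat_lit 475176) (nat_lit 24) (.e (nat_lit 516144) (nat_lit 9) (.e (nat_lit 426436) (nat_lit 18) (.e (nat_lit 98358) (nat_lit 26) (.e (nat_lit 426438) (nat_lit 18) .nil)))))) (.g (nat_lit 4) .nil .nil))))) (.nd (nat_lit 4) (.nd (nat_lit 5) 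
(.lf (nat_lit 232589) (.g (nat_lit 1603) (.e (nat_lit 98385) (nat_lit 32) (.e (nat_lit 475214) (nat_lit 42) (.e (nat_lit 720936) (nat_lit 22) (.e (nat_lit 90158) (nat_lit 11) (.e (nat_lit 24636) (nat_lit 9) (.e (nat_lit 336017) (nat_lit 3) .nil)))))) (.g (nat_lit 4) .nil .nil))) 
(.lf (nat_lit 232621) (.g (nat_lit 2945) (.e (nat_lit 98385) (nat_lit 32) (.e (nat_lit 475214) (nat_lit 42) (.e (nat_lit 720943) (nat_lit 23) (.e (nat_lit 98317) (nat_lit 9) (.e (nat_lit 336085) (nat_lit 9) .nil))))) .nil))) (.nd (nat_lit 5) 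
(.lf (nat_lit 232605) (.g (nat_lit 2240) (.e (nat_lit 98385) (nat_lit 32) (.e (nat_lit 475214) (nat_lit 42) (.e (nat_lit 720938) (nat_lit 22) (.e (nat_lit 90128) (nat_lit 9) (.e (nat_lit 334) (nat_lit 26) (.e (nat_lit 376869) (nat_lit 23) .nil)))))) (.g (nat_lit 0) .nil .nil))) 
(.lf (nat_lit 232637) (.g (nat_lit 1736) (.e (nat_lit 98386) (nat_lit 32) (.e (nat_lit 475176) (nat_lit 24) (.e (nat_lit 516145) (nat_lit 9) (.e (nat_lit 426438) (nat_lit 18) (.e (nat_lit 106240) (nat_lit 26) .nil))))) .nil)))))) (.nd (nat_lit 2) (.nd (nat_lit 3) (.nd (nat_lit 4) (.nd (nat_lit 5) 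
(.lf (nat_lit 232579) (.g (nat_lit 2610) (.e (nat_lit 98385) (nat_lit 32) (.e (nat_lit 475212) (nat_lit 42) (.e (nat_lit 720941) (nat_lit 22) (.e (nat_lit 90160) (nat_lit 11) (.e (nat_lit 24628) (nat_lit 9) (.e (nat_lit 336019) (nat_lit 3) .nil)))))) (.g (nat_lit 6) .nil .nil))) 
(.lf (nat_lit 232611) (.g (nat_lit 948) (.e (nat_lit 98385) (nat_lit 32) (.e (nat_lit 475214) (nat_lit 42) (.e (nat_lit 720939) (nat_lit 22) .nil))) .nil))) (.nd (nat_lit 5) 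
(.lf (nat_lit 232595) (.g (nat_lit 2174) (.e (nat_lit 98385) (nat_lit 32) (.e (nat_lit 475214) (nat_lit 42) (.e (nat_lit 720937) (nat_lit 22) (.e (nat_lit 90128) (nat_lit 9) (.e (nat_lit 334) (nat_lit 26) (.e (nat_lit 376869) (nat_lit 23) .nil)))))) (.g (nat_lit 0) .nil .nil))) 
(.lf (nat_lit 232627) (.g (nat_lit 1017) (.e (nat_lit 98385) (nat_lit 32) (.e (nat_lit 475214) (nat_lit 42) (.e (nat_lit 720945) (nat_lit 23) (.e (nat_lit 106240) (nat_lit 11) .nil)))) .nil)))) (.nd (nat_lit 4) (.nd (nat_lit 5) 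
(.lf (nat_lit 232587) (.g (nat_lit 497) (.e (nat_lit 98385) (nat_lit 32) (.e (nat_lit 475214) (nat_lit 42) (.e (nat_lit 720931) (nat_lit 21) .nil))) .nil)) 
(.lf (nat_lit 232619) (.g (nat_lit 1737) (.e (nat_lit 98385) (nat_lit 32) (.e (nat_lit 475214) (nat_lit 42) (.e (nat_lit 720941) (nat_lit 22) (.e (nat_lit 90160) (nat_lit 11) (.e (nat_lit 24636) (nat_lit 9) .nil))))) .nil))) (.nd (nat_lit 5) 
(.lf (nat_lit 232603) (.g (nat_lit 2419) (.e (nat_lit 98385) (nat_lit 32) (.e (nat_lit 475214) (nat_lit 42) (.e (nat_lit 720938) (nat_lit 22) (.e (nat_lit 90128) (nat_lit 9) (.e (nat_lit 314) (nat_lit 23) (.e (nat_lit 352315) (nat_lit 23) .nil)))))) (.g (nat_lit 0) .nil .nil))) 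
(.lf (nat_lit 232635) (.g (nat_lit 3141) (.e (nat_lit 98386) (nat_lit 32) (.e (nat_lit 475176) (nat_lit 24) (.e (nat_lit 516145) (nat_lit 9) (.e (nat_lit 426438) (nat_lit 18) (.e (nat_lit 98358) (nat_lit 26) (.e (nat_lit 426438) (nat_lit 18) .nil)))))) (.g (nat_lit 5) .nil .nil)))))) (.nd (nat_lit 3) (.nd (nat_lit 4) (.nd (nat_lit 5) 
(.lf (nat_lit 232583) (.g (nat_lit 578) (.e (nat_lit 98385) (nat_lit 32) (.e (nat_lit 475212) (nat_lit 42) (.e (nat_lit 720944) (nat_lit 23) .nil))) .nil)) 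
(.lf (nat_lit 232615) (.g (nat_lit 1619) (.e (nat_lit 98385) (nat_lit 32) (.e (nat_lit 475214) (nat_lit 42) (.e (nat_lit 720941) (nat_lit 22) (.e (nat_lit 90128) (nat_lit 9) (.e (nat_lit 314) (nat_lit 23) .nil))))) .nil))) (.nd (nat_lit 5) 
(.lf (nat_lit 232599) (.g (nat_lit 2612) (.e (nat_lit 98385) (nat_lit 32) (.e (nat_lit 475214) (nat_lit 42) (.e (nat_lit 720937) (nat_lit 22) (.e (nat_lit 90160) (nat_lit 11) (.e (nat_lit 24628) (nat_lit 9) (.e (nat_lit 336019) (nat_lit 3) .nil)))))) (.g (nat_lit 0) .nil .nil))) 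
(.lf (nat_lit 232631) (.g (nat_lit 2401) (.e (nat_lit 98386) (nat_lit 32) (.e (nat_lit 475176) (nat_lit 24) (.e (nat_lit 516145) (nat_lit 9) (.e (nat_lit 426428) (nat_lit 17) (.e (nat_lit 90169) (nat_lit 13) (.e (nat_lit 179968) (nat_lit 18) .nil)))))) (.g (nat_lit 4) .nil .nil))))) (.nd (nat_lit 4) (.nd (nat_lit 5) 
(.lf (nat_lit 232591) (.g (nat_lit 885) (.e (nat_lit 98385) (nat_lit 32) (.e (nat_lit 475214) (nat_lit 42) (.e (nat_lit 720937) (nat_lit 22) (.e (nat_lit 90125) (nat_lit 9) (.e (nat_lit 333) (nat_lit 26) .nil))))) .nil)) 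
(.lf (nat_lit 232623) (.g (nat_lit 937) (.e (nat_lit 98385) (nat_lit 32) (.e (nat_lit 475214) (nat_lit 42) (.e (nat_lit 720944) (nat_lit 23) .nil))) .nil))) (.nd (nat_lit 5) 
(.lf (nat_lit 232607) (.g (nat_lit 2738) (.e (nat_lit 98385) (nat_lit 32) (.e (nat_lit 475214) (nat_lit 42) (.e (nat_lit 720938) (nat_lit 22) (.e (nat_lit 90158) (nat_lit 11) (.e (nat_lit 24628) (nat_lit 9) (.e (nat_lit 336019) (nat_lit 3) .nil)))))) (.g (nat_lit 0) .nil .nil))) 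
(.lf (nat_lit 232639) (.g (nat_lit 2277) (.e (nat_lit 98386) (nat_lit 32) (.e (nat_lit 475176) (nat_lit 24) (.e (nat_lit 516146) (nat_lit 9) (.e (nat_lit 426428) (nat_lit 17) (.e (nat_lit 90168) (nat_lit 13) (.e (nat_lit 179968) (nat_lit 18) .nil)))))) (.g (nat_lit 4) .nil .nil)))))))))

noncomputable def tv3043 : DT := (.nd (nat_lit 0) (.nd (nat_lit 1) (.nd (nat_lit 2) (.nd (nat_lit 3) (.nd (nat_lit 4) (.nd (nat_lit 5) 
(.lf (nat_lit 232640) (.g (nat_lit 2747) (.e (nat_lit 98386) (nat_lit 32) (.e (nat_lit 475176) (nat_lit 24) (.e (nat_lit 516146) (nat_lit 9) (.e (nat_lit 426428) (nat_lit 17) (.e (nat_lit 90169) (nat_lit 13) (.e (nat_lit 179968) (nat_lit 18) .nil)))))) (.g (nat_lit 5) .nil .nil))) 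
(.lf (nat_lit 232672) (.g (nat_lit 3617) (.e (nat_lit 98386) (nat_lit 32) (.e (nat_lit 475177) (nat_lit 24) (.e (nat_lit 516146) (nat_lit 9) (.e (nat_lit 426437) (nat_lit 18) (.e (nat_lit 98356) (nat_lit 26) (.e (nat_lit 426438) (nat_lit 18) .nil)))))) (.g (nat_lit 6) .nil .nil)))) (.nd (nat_lit 5) 
(.lf (nat_lit 232656) (.g (nat_lit 2674) (.e (nat_lit 98386) (nat_lit 32) (.e (nat_lit 475176) (nat_lit 24) (.e (nat_lit 516179) (nat_lit 15) (.e (nat_lit 475179) (nat_lit 24) (.e (nat_lit 516144) (nat_lit 9) .nil))))) .nil)) 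
(.lf (nat_lit 232688) (.g (nat_lit 3102) (.e (nat_lit 98386) (nat_lit 32) (.e (nat_lit 475177) (nat_lit 24) (.e (nat_lit 516149) (nat_lit 9) (.e (nat_lit 426436) (nat_lit 18) (.e (nat_lit 98358) (nat_lit 26) (.e (nat_lit 426438) (nat_lit 18) .nil)))))) (.g (nat_lit 5) .nil .nil))))) (.nd (nat_lit 4) (.nd (nat_lit 5) 
(.lf (nat_lit 232648) (.g (nat_lit 2178) (.e (nat_lit 98386) (nat_lit 32) (.e (nat_lit 475176) (nat_lit 24) (.e (nat_lit 516150) (nat_lit 9) (.e (nat_lit 426436) (nat_lit 18) (.e (nat_lit 98356) (nat_lit 26) (.e (nat_lit 426438) (nat_lit 18) .nil)))))) (.g (nat_lit 4) .nil .nil))) 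
(.lf (nat_lit 232680) (.g (nat_lit 1348) (.e (nat_lit 98386) (nat_lit 32) (.e (nat_lit 475177) (nat_lit 24) (.e (nat_lit 516148) (nat_lit 9) (.e (nat_lit 426428) (nat_lit 17) (.e (nat_lit 90168) (nat_lit 13) .nil))))) .nil))) (.nd (nat_lit 5) 
(.lf (nat_lit 232664) (.g (nat_lit 3098) (.e (nat_lit 98386) (nat_lit 32) (.e (nat_lit 475177) (nat_lit 24) (.e (nat_lit 516144) (nat_lit 9) (.e (nat_lit 426436) (nat_lit 18) (.e (nat_lit 98358) (nat_lit 26) (.e (nat_lit 426438) (nat_lit 18) .nil)))))) (.g (nat_lit 5) .nil .nil))) 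
(.lf (nat_lit 232696) (.g (nat_lit 2241) (.e (nat_lit 98386) (nat_lit 32) (.e (nat_lit 475177) (nat_lit 24) (.e (nat_lit 516150) (nat_lit 9) (.e (nat_lit 426438) (nat_lit 18) (.e (nat_lit 106240) (nat_lit 26) (.e (nat_lit 426435) (nat_lit 18) .nil)))))) (.g (nat_lit 4) .nil .nil)))))) (.nd (nat_lit 3) (.nd (nat_lit 4) (.nd (nat_lit 5) 
(.lf (nat_lit 232644) (.g (nat_lit 1025) (.e (nat_lit 98386) (nat_lit 32) (.e (nat_lit 475176) (nat_lit 24) (.e (nat_lit 516146) (nat_lit 9) (.e (nat_lit 426438) (nat_lit 18) .nil)))) .nil)) 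
(.lf (nat_lit 232676) (.g (nat_lit 2027) (.e (nat_lit 98386) (nat_lit 32) (.e (nat_lit 475177) (nat_lit 24) (.e (nat_lit 516146) (nat_lit 9) (.e (nat_lit 426438) (nat_lit 18) (.e (nat_lit 98359) (nat_lit 26) .nil))))) .nil))) (.nd (nat_lit 5) 
(.lf (nat_lit 232660) (.g (nat_lit 2720) (.e (nat_lit 98386) (nat_lit 32) (.e (nat_lit 475176) (nat_lit 24) (.e (nat_lit 516182) (nat_lit 15) (.e (nat_lit 475177) (nat_lit 24) (.e (nat_lit 516146) (nat_lit 9) (.e (nat_lit 426436) (nat_lit 18) .nil)))))) (.g (nat_lit 6) .nil .nil))) 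
(.lf (nat_lit 232692) (.g (nat_lit 1247) (.e (nat_lit 98386) (nat_lit 32) (.e (nat_lit 475177) (nat_lit 24) (.e (nat_lit 516150) (nat_lit 9) (.e (nat_lit 426438) (nat_lit 18) .nil)))) .nil)))) (.nd (nat_lit 4) (.nd (nat_lit 5) 
(.lf (nat_lit 232652) (.g (nat_lit 3619) (.e (nat_lit 98386) (nat_lit 32) (.e (nat_lit 475176) (nat_lit 24) (.e (nat_lit 516179) (nat_lit 15) (.e (nat_lit 475177) (nat_lit 24) (.e (nat_lit 516146) (nat_lit 9) (.e (nat_lit 426438) (nat_lit 18) .nil)))))) (.g (nat_lit 0) .nil .nil))) 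
(.lf (nat_lit 232684) (.g (nat_lit 2554) (.e (nat_lit 98386) (nat_lit 32) (.e (nat_lit 475177) (nat_lit 24) (.e (nat_lit 516148) (nat_lit 9) (.e (nat_lit 426438) (nat_lit 18) (.e (nat_lit 98356) (nat_lit 26) (.e (nat_lit 426436) (nat_lit 18) .nil)))))) (.g (nat_lit 5) .nil .nil)))) (.nd (nat_lit 5) 
(.lf (nat_lit 232668) (.g (nat_lit 2925) (.e (nat_lit 98386) (nat_lit 32) (.e (nat_lit 475177) (nat_lit 24) (.e (nat_lit 516145) (nat_lit 9) (.e (nat_lit 426438) (nat_lit 18) (.e (nat_lit 98358) (nat_lit 26) (.e (nat_lit 426438) (nat_lit 18) .nil)))))) (.g (nat_lit 4) .nil .nil))) 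
(.lf (nat_lit 232700) (.g (nat_lit 2931) (.e (nat_lit 98386) (nat_lit 32) (.e (nat_lit 475177) (nat_lit 24) (.e (nat_lit 516178) (nat_lit 15) (.e (nat_lit 475179) (nat_lit 24) (.e (nat_lit 516146) (nat_lit 9) (.e (nat_lit 426436) (nat_lit 18) .nil)))))) (.g (nat_lit 5) .nil .nil))))))) (.nd (nat_lit 2) (.nd (nat_lit 3) (.nd (nat_lit 4) (.nd (nat_lit 5) 
(.lf (nat_lit 232642) (.g (nat_lit 2888) (.e (nat_lit 98386) (nat_lit 32) (.e (nat_lit 475176) (nat_lit 24) (.e (nat_lit 516146) (nat_lit 9) (.e (nat_lit 426428) (nat_lit 17) (.e (nat_lit 90185) (nat_lit 17) (.e (nat_lit 245504) (nat_lit 18) .nil)))))) (.g (nat_lit 5) .nil .nil))) 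
(.lf (nat_lit 232674) (.g (nat_lit 3661) (.e (nat_lit 98386) (nat_lit 32) (.e (nat_lit 475177) (nat_lit 24) (.e (nat_lit 516146) (nat_lit 9) (.e (nat_lit 426438) (nat_lit 18) (.e (nat_lit 98356) (nat_lit 26) (.e (nat_lit 426438) (nat_lit 18) .nil)))))) (.g (nat_lit 6) .nil .nil)))) (.nd (nat_lit 5) 
(.lf (nat_lit 232658) (.g (nat_lit 3557) (.e (nat_lit 98386) (nat_lit 32) (.e (nat_lit 475176) (nat_lit 24) (.e (nat_lit 516179) (nat_lit 15) (.e (nat_lit 475179) (nat_lit 24) (.e (nat_lit 516146) (nat_lit 9) (.e (nat_lit 426438) (nat_lit 18) .nil)))))) (.g (nat_lit 5) .nil .nil))) 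
(.lf (nat_lit 232690) (.g (nat_lit 1784) (.e (nat_lit 98386) (nat_lit 32) (.e (nat_lit 475177) (nat_lit 24) (.e (nat_lit 516150) (nat_lit 9) (.e (nat_lit 426428) (nat_lit 17) (.e (nat_lit 90166) (nat_lit 13) .nil))))) .nil)))) (.nd (nat_lit 4) (.nd (nat_lit 5) 
(.lf (nat_lit 232650) (.g (nat_lit 4804) (.e (nat_lit 98386) (nat_lit 32) (.e (nat_lit 475176) (nat_lit 24) (.e (nat_lit 516151) (nat_lit 9) (.e (nat_lit 426412) (nat_lit 15) (.e (nat_lit 1800) (nat_lit 119) .nil))))) .nil)) 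
(.lf (nat_lit 232682) (.g (nat_lit 3261) (.e (nat_lit 98386) (nat_lit 32) (.e (nat_lit 475177) (nat_lit 24) (.e (nat_lit 516148) (nat_lit 9) (.e (nat_lit 426436) (nat_lit 18) (.e (nat_lit 98356) (nat_lit 26) (.e (nat_lit 426438) (nat_lit 18) .nil)))))) (.g (nat_lit 0) .nil .nil)))) (.nd (nat_lit 5) 
(.lf (nat_lit 232666) (.g (nat_lit 2756) (.e (nat_lit 98386) (nat_lit 32) (.e (nat_lit 475177) (nat_lit 24) (.e (nat_lit 516145) (nat_lit 9) (.e (nat_lit 426436) (nat_lit 18) (.e (nat_lit 98358) (nat_lit 26) (.e (nat_lit 426436) (nat_lit 18) .nil)))))) (.g (nat_lit 4) .nil .nil))) 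
(.lf (nat_lit 232698) (.g (nat_lit 3341) (.e (nat_lit 98386) (nat_lit 32) (.e (nat_lit 475177) (nat_lit 24) (.e (nat_lit 516151) (nat_lit 9) (.e (nat_lit 426412) (nat_lit 15) .nil)))) .nil))))) (.nd (nat_lit 3) (.nd (nat_lit 4) (.nd (nat_lit 5) 
(.lf (nat_lit 232646) (.g (nat_lit 2716) (.e (nat_lit 98386) (nat_lit 32) (.e (nat_lit 475176) (nat_lit 24) (.e (nat_lit 516146) (nat_lit 9) (.e (nat_lit 426438) (nat_lit 18) (.e (nat_lit 98363) (nat_lit 26) (.e (nat_lit 426435) (nat_lit 18) .nil)))))) (.g (nat_lit 0) .nil .nil))) 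
(.lf (nat_lit 232678) (.g (nat_lit 781) (.e (nat_lit 98386) (nat_lit 32) (.e (nat_lit 475177) (nat_lit 24) (.e (nat_lit 516147) (nat_lit 9) (.e (nat_lit 426437) (nat_lit 18) .nil)))) .nil))) (.nd (nat_lit 5) 
(.lf (nat_lit 232662) (.g (nat_lit 1168) (.e (nat_lit 98386) (nat_lit 32) (.e (nat_lit 475177) (nat_lit 24) (.e (nat_lit 516142) (nat_lit 8) (.e (nat_lit 417792) (nat_lit 0) .nil)))) .nil)) 
(.lf (nat_lit 232694) (.g (nat_lit 3462) (.e (nat_lit 98386) (nat_lit 32) (.e (nat_lit 475177) (nat_lit 24) (.e (nat_lit 516150) (nat_lit 9) (.e (nat_lit 426438) (nat_lit 18) (.e (nat_lit 98358) (nat_lit 26) (.e (nat_lit 426438) (nat_lit 18) .nil)))))) (.g (nat_lit 6) .nil .nil))))) (.nd (nat_lit 4) (.nd (nat_lit 5) 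
(.lf (nat_lit 232654) (.g (nat_lit 3615) (.e (nat_lit 98386) (nat_lit 32) (.e (nat_lit 475176) (nat_lit 24) (.e (nat_lit 516179) (nat_lit 15) (.e (nat_lit 475177) (nat_lit 24) (.e (nat_lit 516150) (nat_lit 9) (.e (nat_lit 426436) (nat_lit 18) .nil)))))) (.g (nat_lit 0) .nil .nil))) 
(.lf (nat_lit 232686) (.g (nat_lit 355) (.e (nat_lit 98386) (nat_lit 32) (.e (nat_lit 475177) (nat_lit 24) (.e (nat_lit 516149) (nat_lit 9) .nil))) .nil))) (.nd (nat_lit 5) 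
(.lf (nat_lit 232670) (.g (nat_lit 3339) (.e (nat_lit 98386) (nat_lit 32) (.e (nat_lit 475177) (nat_lit 24) (.e (nat_lit 516146) (nat_lit 9) (.e (nat_lit 426428) (nat_lit 17) (.e (nat_lit 90185) (nat_lit 17) (.e (nat_lit 245504) (nat_lit 18) .nil)))))) (.g (nat_lit 5) .nil .nil))) 
(.lf (nat_lit 232702) (.g (nat_lit 1374) (.e (nat_lit 98386) (nat_lit 32) (.e (nat_lit 475177) (nat_lit 24) (.e (nat_lit 516179) (nat_lit 15) (.e (nat_lit 475169) (nat_lit 22) .nil)))) .nil))))))) (.nd (nat_lit 1) (.nd (nat_lit 2) (.nd (nat_lit 3) (.nd (nat_lit 4) (.nd (nat_lit 5) 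
(.lf (nat_lit 232641) (.g (nat_lit 2817) (.e (nat_lit 98386) (nat_lit 32) (.e (nat_lit 475176) (nat_lit 24) (.e (nat_lit 516146) (nat_lit 9) (.e (nat_lit 426428) (nat_lit 17) (.e (nat_lit 90170) (nat_lit 13) (.e (nat_lit 179968) (nat_lit 18) .nil)))))) (.g (nat_lit 5) .nil .nil))) 
(.lf (nat_lit 232673) (.g (nat_lit 1307) (.e (nat_lit 98386) (nat_lit 32) (.e (nat_lit 475177) (nat_lit 24) (.e (nat_lit 516146) (nat_lit 9) (.e (nat_lit 426438) (nat_lit 18) .nil)))) .nil))) (.nd (nat_lit 5) 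
(.lf (nat_lit 232657) (.g (nat_lit 3695) (.e (nat_lit 98386) (nat_lit 32) (.e (nat_lit 475176) (nat_lit 24) (.e (nat_lit 516179) (nat_lit 15) (.e (nat_lit 475179) (nat_lit 24) (.e (nat_lit 516146) (nat_lit 9) (.e (nat_lit 426436) (nat_lit 18) .nil)))))) (.g (nat_lit 0) .nil .nil))) 
(.lf (nat_lit 232689) (.g (nat_lit 1843) (.e (nat_lit 98386) (nat_lit 32) (.e (nat_lit 475177) (nat_lit 24) (.e (nat_lit 516150) (nat_lit 9) (.e (nat_lit 426392) (nat_lit 15) .nil)))) .nil)))) (.nd (nat_lit 4) (.nd (nat_lit 5) 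
(.lf (nat_lit 232649) (.g (nat_lit 3261) (.e (nat_lit 98386) (nat_lit 32) (.e (nat_lit 475176) (nat_lit 24) (.e (nat_lit 516151) (nat_lit 9) (.e (nat_lit 426412) (nat_lit 15) .nil)))) .nil)) 
(.lf (nat_lit 232681) (.g (nat_lit 2336) (.e (nat_lit 98386) (nat_lit 32) (.e (nat_lit 475177) (nat_lit 24) (.e (nat_lit 516148) (nat_lit 9) (.e (nat_lit 426428) (nat_lit 17) (.e (nat_lit 90185) (nat_lit 17) (.e (nat_lit 245504) (nat_lit 18) .nil)))))) (.g (nat_lit 5) .nil .nil)))) (.nd (nat_lit 5) 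
(.lf (nat_lit 232665) (.g (nat_lit 2588) (.e (nat_lit 98386) (nat_lit 32) (.e (nat_lit 475177) (nat_lit 24) (.e (nat_lit 516145) (nat_lit 9) (.e (nat_lit 426428) (nat_lit 17) (.e (nat_lit 90185) (nat_lit 17) (.e (nat_lit 245504) (nat_lit 18) .nil)))))) (.g (nat_lit 4) .nil .nil))) 
(.lf (nat_lit 232697) (.g (nat_lit 1765) (.e (nat_lit 98386) (nat_lit 32) (.e (nat_lit 475177) (nat_lit 24) (.e (nat_lit 516150) (nat_lit 9) (.e (nat_lit 433920) (nat_lit 18) .nil)))) .nil))))) (.nd (nat_lit 3) (.nd (nat_lit 4) (.nd (nat_lit 5) 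
(.lf (nat_lit 232645) (.g (nat_lit 3459) (.e (nat_lit 98386) (nat_lit 32) (.e (nat_lit 475176) (nat_lit 24) (.e (nat_lit 516146) (nat_lit 9) (.e (nat_lit 426438) (nat_lit 18) (.e (nat_lit 98358) (nat_lit 26) (.e (nat_lit 426436) (nat_lit 18) .nil)))))) (.g (nat_lit 0) .nil .nil))) 
(.lf (nat_lit 232677) (.g (nat_lit 2511) (.e (nat_lit 98386) (nat_lit 32) (.e (nat_lit 475177) (nat_lit 24) (.e (nat_lit 516146) (nat_lit 9) (.e (nat_lit 426438) (nat_lit 18) (.e (nat_lit 106240) (nat_lit 26) (.e (nat_lit 426435) (nat_lit 18) .nil)))))) (.g (nat_lit 4) .nil .nil)))) (.nd (nat_lit 5) 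
(.lf (nat_lit 232661) (.g (nat_lit 2268) (.e (nat_lit 98386) (nat_lit 32) (.e (nat_lit 475176) (nat_lit 24) (.e (nat_lit 516182) (nat_lit 15) (.e (nat_lit 475177) (nat_lit 24) (.e (nat_lit 516150) (nat_lit 9) (.e (nat_lit 426438) (nat_lit 18) .nil)))))) (.g (nat_lit 5) .nil .nil))) 
(.lf (nat_lit 232693) (.g (nat_lit 3431) (.e (nat_lit 98386) (nat_lit 32) (.e (nat_lit 475177) (nat_lit 24) (.e (nat_lit 516150) (nat_lit 9) (.e (nat_lit 426438) (nat_lit 18) (.e (nat_lit 98356) (nat_lit 26) (.e (nat_lit 426438) (nat_lit 18) .nil)))))) (.g (nat_lit 6) .nil .nil))))) (.nd (nat_lit 4) (.nd (nat_lit 5) 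
(.lf (nat_lit 232653) (.g (nat_lit 2232) (.e (nat_lit 98386) (nat_lit 32) (.e (nat_lit 475176) (nat_lit 24) (.e (nat_lit 516179) (nat_lit 15) (.e (nat_lit 475177) (nat_lit 24) (.e (nat_lit 516149) (nat_lit 9) (.e (nat_lit 426436) (nat_lit 18) .nil)))))) (.g (nat_lit 4) .nil .nil))) 
(.lf (nat_lit 232685) (.g (nat_lit 2751) (.e (nat_lit 98386) (nat_lit 32) (.e (nat_lit 475177) (nat_lit 24) (.e (nat_lit 516148) (nat_lit 9) (.e (nat_lit 426438) (nat_lit 18) (.e (nat_lit 98358) (nat_lit 26) (.e (nat_lit 426436) (nat_lit 18) .nil)))))) (.g (nat_lit 5) .nil .nil)))) (.nd (nat_lit 5) 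
(.lf (nat_lit 232669) (.g (nat_lit 1624) (.e (nat_lit 98386) (nat_lit 32) (.e (nat_lit 475177) (nat_lit 24) (.e (nat_lit 516146) (nat_lit 9) (.e (nat_lit 426428) (nat_lit 17) (.e (nat_lit 90166) (nat_lit 13) .nil))))) .nil)) 
(.lf (nat_lit 232701) (.g (nat_lit 2369) (.e (nat_lit 98386) (nat_lit 32) (.e (nat_lit 475177) (nat_lit 24) (.e (nat_lit 516178) (nat_lit 15) (.e (nat_lit 475179) (nat_lit 24) (.e (nat_lit 516150) (nat_lit 9) (.e (nat_lit 426436) (nat_lit 18) .nil)))))) (.g (nat_lit 4) .nil .nil))))))) (.nd (nat_lit 2) (.nd (nat_lit 3) (.nd (nat_lit 4) (.nd (nat_lit 5) 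
(.lf (nat_lit 232643) (.g (nat_lit 3484) (.e (nat_lit 98386) (nat_lit 32) (.e (nat_lit 475176) (nat_lit 24) (.e (nat_lit 516146) (nat_lit 9) (.e (nat_lit 426436) (nat_lit 18) (.e (nat_lit 98358) (nat_lit 26) (.e (nat_lit 426436) (nat_lit 18) .nil)))))) (.g (nat_lit 0) .nil .nil))) 
(.lf (nat_lit 232675) (.g (nat_lit 3693) (.e (nat_lit 98386) (nat_lit 32) (.e (nat_lit 475177) (nat_lit 24) (.e (nat_lit 516146) (nat_lit 9) (.e (nat_lit 426438) (nat_lit 18) (.e (nat_lit 98358) (nat_lit 26) (.e (nat_lit 426438) (nat_lit 18) .nil)))))) (.g (nat_lit 6) .nil .nil)))) (.nd (nat_lit 5) 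
(.lf (nat_lit 232659) (.g (nat_lit 3472) (.e (nat_lit 98386) (nat_lit 32) (.e (nat_lit 475176) (nat_lit 24) (.e (nat_lit 516179) (nat_lit 15) (.e (nat_lit 475179) (nat_lit 24) (.e (nat_lit 516150) (nat_lit 9) (.e (nat_lit 426436) (nat_lit 18) .nil)))))) (.g (nat_lit 0) .nil .nil))) 
(.lf (nat_lit 232691) (.g (nat_lit 3384) (.e (nat_lit 98386) (nat_lit 32) (.e (nat_lit 475177) (nat_lit 24) (.e (nat_lit 516150) (nat_lit 9) (.e (nat_lit 426428) (nat_lit 17) (.e (nat_lit 90185) (nat_lit 17) (.e (nat_lit 245504) (nat_lit 18) .nil)))))) (.g (nat_lit 5) .nil .nil))))) (.nd (nat_lit 4) (.nd (nat_lit 5) 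
(.lf (nat_lit 232651) (.g (nat_lit 3717) (.e (nat_lit 98386) (nat_lit 32) (.e (nat_lit 475176) (nat_lit 24) (.e (nat_lit 516179) (nat_lit 15) (.e (nat_lit 475177) (nat_lit 24) (.e (nat_lit 516146) (nat_lit 9) (.e (nat_lit 426436) (nat_lit 18) .nil)))))) (.g (nat_lit 0) .nil .nil))) 
(.lf (nat_lit 232683) (.g (nat_lit 3422) (.e (nat_lit 98386) (nat_lit 32) (.e (nat_lit 475177) (nat_lit 24) (.e (nat_lit 516148) (nat_lit 9) (.e (nat_lit 426436) (nat_lit 18) (.e (nat_lit 98358) (nat_lit 26) (.e (nat_lit 426438) (nat_lit 18) .nil)))))) (.g (nat_lit 0) .nil .nil)))) (.nd (nat_lit 5) 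
(.lf (nat_lit 232667) (.g (nat_lit 2579) (.e (nat_lit 98386) (nat_lit 32) (.e (nat_lit 475177) (nat_lit 24) (.e (nat_lit 516145) (nat_lit 9) (.e (nat_lit 426436) (nat_lit 18) (.e (nat_lit 98358) (nat_lit 26) (.e (nat_lit 426438) (nat_lit 18) .nil)))))) (.g (nat_lit 4) .nil .nil))) 
(.lf (nat_lit 232699) (.g (nat_lit 2107) (.e (nat_lit 98386) (nat_lit 32) (.e (nat_lit 475177) (nat_lit 24) (.e (nat_lit 516178) (nat_lit 15) (.e (nat_lit 475177) (nat_lit 24) (.e (nat_lit 516146) (nat_lit 9) (.e (nat_lit 426436) (nat_lit 18) .nil)))))) (.g (nat_lit 4) .nil .nil)))))) (.nd (nat_lit 3) (.nd (nat_lit 4) (.nd (nat_lit 5) 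
(.lf (nat_lit 232647) (.g (nat_lit 2077) (.e (nat_lit 98386) (nat_lit 32) (.e (nat_lit 475176) (nat_lit 24) (.e (nat_lit 516146) (nat_lit 9) (.e (nat_lit 426438) (nat_lit 18) (.e (nat_lit 106240) (nat_lit 26) (.e (nat_lit 426435) (nat_lit 18) .nil)))))) (.g (nat_lit 4) .nil .nil))) 
(.lf (nat_lit 232679) (.g (nat_lit 332) (.e (nat_lit 98386) (nat_lit 32) (.e (nat_lit 475177) (nat_lit 24) (.e (nat_lit 516148) (nat_lit 9) .nil))) .nil))) (.nd (nat_lit 5) 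
(.lf (nat_lit 232663) (.g (nat_lit 3206) (.e (nat_lit 98386) (nat_lit 32) (.e (nat_lit 475177) (nat_lit 24) (.e (nat_lit 516144) (nat_lit 9) (.e (nat_lit 426436) (nat_lit 18) (.e (nat_lit 98358) (nat_lit 26) (.e (nat_lit 426436) (nat_lit 18) .nil)))))) (.g (nat_lit 5) .nil .nil))) 
(.lf (nat_lit 232695) (.g (nat_lit 2296) (.e (nat_lit 98386) (nat_lit 32) (.e (nat_lit 475177) (nat_lit 24) (.e (nat_lit 516150) (nat_lit 9) (.e (nat_lit 426438) (nat_lit 18) (.e (nat_lit 98358) (nat_lit 26) (.e (nat_lit 433920) (nat_lit 18) .nil)))))) (.g (nat_lit 4) .nil .nil))))) (.nd (nat_lit 4) (.nd (nat_lit 5) 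
(.lf (nat_lit 232655) (.g (nat_lit 3509) (.e (nat_lit 98386) (nat_lit 32) (.e (nat_lit 475176) (nat_lit 24) (.e (nat_lit 516179) (nat_lit 15) (.e (nat_lit 475177) (nat_lit 24) (.e (nat_lit 516150) (nat_lit 9) (.e (nat_lit 426438) (nat_lit 18) .nil)))))) (.g (nat_lit 0) .nil .nil))) 
(.lf (nat_lit 232687) (.g (nat_lit 3188) (.e (nat_lit 98386) (nat_lit 32) (.e (nat_lit 475177) (nat_lit 24) (.e (nat_lit 516149) (nat_lit 9) (.e (nat_lit 426436) (nat_lit 18) (.e (nat_lit 98358) (nat_lit 26) (.e (nat_lit 426436) (nat_lit 18) .nil)))))) (.g (nat_lit 5) .nil .nil)))) (.nd (nat_lit 5) 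
(.lf (nat_lit 232671) (.g (nat_lit 1825) (.e (nat_lit 98386) (nat_lit 32) (.e (nat_lit 475177) (nat_lit 24) (.e (nat_lit 516146) (nat_lit 9) (.e (nat_lit 426434) (nat_lit 18) .nil)))) .nil)) 
(.lf (nat_lit 232703) (.g (nat_lit 2097) (.e (nat_lit 98386) (nat_lit 32) (.e (nat_lit 475177) (nat_lit 24) (.e (nat_lit 516179) (nat_lit 15) (.e (nat_lit 475169) (nat_lit 22) (.e (nat_lit 499913) (nat_lit 9) .nil))))) .nil))))))))

noncomputable def tv3044 : DT := (.nd (nat_lit 0) (.nd (nat_lit 1) (.nd (nat_lit 2) (.nd (nat_lit 3) (.nd (nat_lit 4) (.nd (nat_lit 5) 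
(.lf (nat_lit 232704) (.g (nat_lit 2097) (.e (nat_lit 98386) (nat_lit 32) (.e (nat_lit 475177) (nat_lit 24) (.e (nat_lit 516179) (nat_lit 15) (.e (nat_lit 475169) (nat_lit 22) (.e (nat_lit 499914) (nat_lit 9) .nil))))) .nil)) 
(.lf (nat_lit 232736) (.g (nat_lit 2710) (.e (nat_lit 98386) (nat_lit 32) (.e (nat_lit 475179) (nat_lit 24) (.e (nat_lit 516117) (nat_lit 1) (.e (nat_lit 164329) (nat_lit 230) .nil)))) .nil))) (.nd (nat_lit 5) 
(.lf (nat_lit 232720) (.g (nat_lit 2357) (.e (nat_lit 98386) (nat_lit 32) (.e (nat_lit 475178) (nat_lit 24) (.e (nat_lit 516146) (nat_lit 9) (.e (nat_lit 426438) (nat_lit 18) (.e (nat_lit 98358) (nat_lit 26) (.e (nat_lit 433920) (nat_lit 18) .nil)))))) (.g (nat_lit 5) .nil .nil))) 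
(.lf (nat_lit 232752) (.g (nat_lit 1646) (.e (nat_lit 98386) (nat_lit 32) (.e (nat_lit 475179) (nat_lit 24) (.e (nat_lit 516146) (nat_lit 9) (.e (nat_lit 426427) (nat_lit 17) .nil)))) .nil)))) (.nd (nat_lit 4) (.nd (nat_lit 5) 
(.lf (nat_lit 232712) (.g (nat_lit 3476) (.e (nat_lit 98386) (nat_lit 32) (.e (nat_lit 475177) (nat_lit 24) (.e (nat_lit 516181) (nat_lit 15) (.e (nat_lit 475177) (nat_lit 24) (.e (nat_lit 516146) (nat_lit 9) (.e (nat_lit 426436) (nat_lit 18) .nil)))))) (.g (nat_lit 0) .nil .nil))) 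
(.lf (nat_lit 232744) (.g (nat_lit 2399) (.e (nat_lit 98386) (nat_lit 32) (.e (nat_lit 475179) (nat_lit 24) (.e (nat_lit 516139) (nat_lit 7) (.e (nat_lit 409631) (nat_lit 12) .nil)))) .nil))) (.nd (nat_lit 5) 
(.lf (nat_lit 232728) (.g (nat_lit 2669) (.e (nat_lit 98386) (nat_lit 32) (.e (nat_lit 475178) (nat_lit 24) (.e (nat_lit 516179) (nat_lit 15) (.e (nat_lit 475177) (nat_lit 24) (.e (nat_lit 516147) (nat_lit 9) (.e (nat_lit 426436) (nat_lit 18) .nil)))))) (.g (nat_lit 6) .nil .nil))) 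
(.lf (nat_lit 232760) (.g (nat_lit 2619) (.e (nat_lit 98386) (nat_lit 32) (.e (nat_lit 475179) (nat_lit 24) (.e (nat_lit 516146) (nat_lit 9) (.e (nat_lit 426432) (nat_lit 17) (.e (nat_lit 90169) (nat_lit 13) .nil))))) .nil))))) (.nd (nat_lit 3) (.nd (nat_lit 4) (.nd (nat_lit 5) 
(.lf (nat_lit 232708) (.g (nat_lit 3782) (.e (nat_lit 98386) (nat_lit 32) (.e (nat_lit 475177) (nat_lit 24) (.e (nat_lit 516179) (nat_lit 15) (.e (nat_lit 475177) (nat_lit 24) (.e (nat_lit 516150) (nat_lit 9) (.e (nat_lit 426438) (nat_lit 18) .nil)))))) (.g (nat_lit 0) .nil .nil))) 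
(.lf (nat_lit 232740) (.g (nat_lit 3955) (.e (nat_lit 98386) (nat_lit 32) (.e (nat_lit 475179) (nat_lit 24) (.e (nat_lit 516117) (nat_lit 1) (.e (nat_lit 164330) (nat_lit 230) (.e (nat_lit 163872) (nat_lit 3) .nil))))) .nil))) (.nd (nat_lit 5) 
(.lf (nat_lit 232724) (.g (nat_lit 1057) (.e (nat_lit 98386) (nat_lit 32) (.e (nat_lit 475178) (nat_lit 24) (.e (nat_lit 516147) (nat_lit 9) (.e (nat_lit 426436) (nat_lit 18) (.e (nat_lit 98356) (nat_lit 26) .nil))))) .nil)) 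
(.lf (nat_lit 232756) (.g (nat_lit 2855) (.e (nat_lit 98386) (nat_lit 32) (.e (nat_lit 475179) (nat_lit 24) (.e (nat_lit 516146) (nat_lit 9) (.e (nat_lit 426428) (nat_lit 17) (.e (nat_lit 90169) (nat_lit 13) (.e (nat_lit 179968) (nat_lit 18) .nil)))))) (.g (nat_lit 5) .nil .nil))))) (.nd (nat_lit 4) (.nd (nat_lit 5) 
(.lf (nat_lit 232716) (.g (nat_lit 2130) (.e (nat_lit 98386) (nat_lit 32) (.e (nat_lit 475178) (nat_lit 24) (.e (nat_lit 516146) (nat_lit 9) (.e (nat_lit 426428) (nat_lit 17) (.e (nat_lit 90168) (nat_lit 13) (.e (nat_lit 179968) (nat_lit 18) .nil)))))) (.g (nat_lit 4) .nil .nil))) 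
(.lf (nat_lit 232748) (.g (nat_lit 2878) (.e (nat_lit 98386) (nat_lit 32) (.e (nat_lit 475179) (nat_lit 24) (.e (nat_lit 516145) (nat_lit 9) (.e (nat_lit 426428) (nat_lit 17) (.e (nat_lit 90185) (nat_lit 17) (.e (nat_lit 245504) (nat_lit 18) .nil)))))) (.g (nat_lit 4) .nil .nil)))) (.nd (nat_lit 5) 
(.lf (nat_lit 232732) (.g (nat_lit 2114) (.e (nat_lit 98386) (nat_lit 32) (.e (nat_lit 475178) (nat_lit 24) (.e (nat_lit 516179) (nat_lit 15) (.e (nat_lit 475179) (nat_lit 24) (.e (nat_lit 516150) (nat_lit 9) .nil))))) .nil)) 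
(.lf (nat_lit 232764) (.g (nat_lit 2634) (.e (nat_lit 98386) (nat_lit 32) (.e (nat_lit 475179) (nat_lit 24) (.e (nat_lit 516146) (nat_lit 9) (.e (nat_lit 426438) (nat_lit 18) (.e (nat_lit 98363) (nat_lit 26) (.e (nat_lit 433920) (nat_lit 18) .nil)))))) (.g (nat_lit 5) .nil .nil))))))) (.nd (nat_lit 2) (.nd (nat_lit 3) (.nd (nat_lit 4) (.nd (nat_lit 5) 
(.lf (nat_lit 232706) (.g (nat_lit 3992) (.e (nat_lit 98386) (nat_lit 32) (.e (nat_lit 475177) (nat_lit 24) (.e (nat_lit 516179) (nat_lit 15) (.e (nat_lit 475177) (nat_lit 24) (.e (nat_lit 516146) (nat_lit 9) (.e (nat_lit 426436) (nat_lit 18) .nil)))))) (.g (nat_lit 0) .nil .nil))) 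
(.lf (nat_lit 232738) (.g (nat_lit 3839) (.e (nat_lit 98386) (nat_lit 32) (.e (nat_lit 475179) (nat_lit 24) (.e (nat_lit 516117) (nat_lit 1) (.e (nat_lit 164330) (nat_lit 230) (.e (nat_lit 163850) (nat_lit 0) .nil))))) .nil))) (.nd (nat_lit 5) 
(.lf (nat_lit 232722) (.g (nat_lit 2223) (.e (nat_lit 98386) (nat_lit 32) (.e (nat_lit 475178) (nat_lit 24) (.e (nat_lit 516146) (nat_lit 9) (.e (nat_lit 426438) (nat_lit 18) (.e (nat_lit 98363) (nat_lit 26) (.e (nat_lit 433920) (nat_lit 18) .nil)))))) (.g (nat_lit 5) .nil .nil))) 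
(.lf (nat_lit 232754) (.g (nat_lit 2403) (.e (nat_lit 98386) (nat_lit 32) (.e (nat_lit 475179) (nat_lit 24) (.e (nat_lit 516146) (nat_lit 9) (.e (nat_lit 426428) (nat_lit 17) (.e (nat_lit 90167) (nat_lit 13) (.e (nat_lit 179968) (nat_lit 18) .nil)))))) (.g (nat_lit 4) .nil .nil))))) (.nd (nat_lit 4) (.nd (nat_lit 5) 
(.lf (nat_lit 232714) (.g (nat_lit 3334) (.e (nat_lit 98386) (nat_lit 32) (.e (nat_lit 475177) (nat_lit 24) (.e (nat_lit 516181) (nat_lit 15) (.e (nat_lit 475179) (nat_lit 24) (.e (nat_lit 516146) (nat_lit 9) (.e (nat_lit 426436) (nat_lit 18) .nil)))))) (.g (nat_lit 0) .nil .nil))) 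
(.lf (nat_lit 232746) (.g (nat_lit 2865) (.e (nat_lit 98386) (nat_lit 32) (.e (nat_lit 475179) (nat_lit 24) (.e (nat_lit 516145) (nat_lit 9) (.e (nat_lit 426428) (nat_lit 17) (.e (nat_lit 90168) (nat_lit 13) .nil))))) .nil))) (.nd (nat_lit 5) 
(.lf (nat_lit 232730) (.g (nat_lit 3207) (.e (nat_lit 98386) (nat_lit 32) (.e (nat_lit 475178) (nat_lit 24) (.e (nat_lit 516179) (nat_lit 15) (.e (nat_lit 475177) (nat_lit 24) (.e (nat_lit 516150) (nat_lit 9) (.e (nat_lit 426438) (nat_lit 18) .nil)))))) (.g (nat_lit 0) .nil .nil))) 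
(.lf (nat_lit 232762) (.g (nat_lit 2769) (.e (nat_lit 98386) (nat_lit 32) (.e (nat_lit 475179) (nat_lit 24) (.e (nat_lit 516146) (nat_lit 9) (.e (nat_lit 426438) (nat_lit 18) (.e (nat_lit 98358) (nat_lit 26) (.e (nat_lit 433920) (nat_lit 18) .nil)))))) (.g (nat_lit 5) .nil .nil)))))) (.nd (nat_lit 3) (.nd (nat_lit 4) (.nd (nat_lit 5) 
(.lf (nat_lit 232710) (.g (nat_lit 3333) (.e (nat_lit 98386) (nat_lit 32) (.e (nat_lit 475177) (nat_lit 24) (.e (nat_lit 516181) (nat_lit 15) (.e (nat_lit 475176) (nat_lit 24) (.e (nat_lit 516145) (nat_lit 9) (.e (nat_lit 426436) (nat_lit 18) .nil)))))) (.g (nat_lit 0) .nil .nil))) 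
(.lf (nat_lit 232742) (.g (nat_lit 2461) (.e (nat_lit 98386) (nat_lit 32) (.e (nat_lit 475179) (nat_lit 24) (.e (nat_lit 516120) (nat_lit 1) (.e (nat_lit 164304) (nat_lit 226) (.e (nat_lit 2612) (nat_lit 163) .nil))))) .nil))) (.nd (nat_lit 5) 
(.lf (nat_lit 232726) (.g (nat_lit 1820) (.e (nat_lit 98386) (nat_lit 32) (.e (nat_lit 475178) (nat_lit 24) (.e (nat_lit 516150) (nat_lit 9) (.e (nat_lit 426436) (nat_lit 18) (.e (nat_lit 98358) (nat_lit 26) .nil))))) .nil)) 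
(.lf (nat_lit 232758) (.g (nat_lit 2998) (.e (nat_lit 98386) (nat_lit 32) (.e (nat_lit 475179) (nat_lit 24) (.e (nat_lit 516146) (nat_lit 9) (.e (nat_lit 426428) (nat_lit 17) (.e (nat_lit 90185) (nat_lit 17) (.e (nat_lit 245504) (nat_lit 18) .nil)))))) (.g (nat_lit 5) .nil .nil))))) (.nd (nat_lit 4) (.nd (nat_lit 5) 
(.lf (nat_lit 232718) (.g (nat_lit 2530) (.e (nat_lit 98386) (nat_lit 32) (.e (nat_lit 475178) (nat_lit 24) (.e (nat_lit 516146) (nat_lit 9) (.e (nat_lit 426428) (nat_lit 17) (.e (nat_lit 90170) (nat_lit 13) (.e (nat_lit 179968) (nat_lit 18) .nil)))))) (.g (nat_lit 5) .nil .nil))) 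
(.lf (nat_lit 232750) (.g (nat_lit 2450) (.e (nat_lit 98386) (nat_lit 32) (.e (nat_lit 475179) (nat_lit 24) (.e (nat_lit 516145) (nat_lit 9) (.e (nat_lit 426438) (nat_lit 18) (.e (nat_lit 98355) (nat_lit 26) .nil))))) .nil))) (.nd (nat_lit 5) 
(.lf (nat_lit 232734) (.g (nat_lit 3640) (.e (nat_lit 98386) (nat_lit 32) (.e (nat_lit 475179) (nat_lit 24) (.e (nat_lit 516115) (nat_lit 1) (.e (nat_lit 164325) (nat_lit 230) (.e (nat_lit 163841) (nat_lit 0) .nil))))) .nil)) 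
(.lf (nat_lit 232766) (.g (nat_lit 985) (.e (nat_lit 98386) (nat_lit 32) (.e (nat_lit 475179) (nat_lit 24) (.e (nat_lit 516148) (nat_lit 9) .nil))) .nil))))))) (.nd (nat_lit 1) (.nd (nat_lit 2) (.nd (nat_lit 3) (.nd (nat_lit 4) (.nd (nat_lit 5) 
(.lf (nat_lit 232705) (.g (nat_lit 1340) (.e (nat_lit 98386) (nat_lit 32) (.e (nat_lit 475177) (nat_lit 24) (.e (nat_lit 516179) (nat_lit 15) (.e (nat_lit 475171) (nat_lit 22) .nil)))) .nil)) 
(.lf (nat_lit 232737) (.g (nat_lit 3738) (.e (nat_lit 98386) (nat_lit 32) (.e (nat_lit 475179) (nat_lit 24) (.e (nat_lit 516117) (nat_lit 1) (.e (nat_lit 164329) (nat_lit 230) (.e (nat_lit 163843) (nat_lit 0) .nil))))) .nil))) (.nd (nat_lit 5) 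
(.lf (nat_lit 232721) (.g (nat_lit 1942) (.e (nat_lit 98386) (nat_lit 32) (.e (nat_lit 475178) (nat_lit 24) (.e (nat_lit 516146) (nat_lit 9) (.e (nat_lit 426438) (nat_lit 18) (.e (nat_lit 98359) (nat_lit 26) (.e (nat_lit 433920) (nat_lit 18) .nil)))))) (.g (nat_lit 5) .nil .nil))) 
(.lf (nat_lit 232753) (.g (nat_lit 2362) (.e (nat_lit 98386) (nat_lit 32) (.e (nat_lit 475179) (nat_lit 24) (.e (nat_lit 516146) (nat_lit 9) (.e (nat_lit 426428) (nat_lit 17) (.e (nat_lit 90166) (nat_lit 13) .nil))))) .nil)))) (.nd (nat_lit 4) (.nd (nat_lit 5) 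
(.lf (nat_lit 232713) (.g (nat_lit 2953) (.e (nat_lit 98386) (nat_lit 32) (.e (nat_lit 475177) (nat_lit 24) (.e (nat_lit 516181) (nat_lit 15) (.e (nat_lit 475178) (nat_lit 24) (.e (nat_lit 516146) (nat_lit 9) (.e (nat_lit 426436) (nat_lit 18) .nil)))))) (.g (nat_lit 0) .nil .nil))) 
(.lf (nat_lit 232745) (.g (nat_lit 1093) (.e (nat_lit 98386) (nat_lit 32) (.e (nat_lit 475179) (nat_lit 24) (.e (nat_lit 516143) (nat_lit 9) .nil))) .nil))) (.nd (nat_lit 5) 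
(.lf (nat_lit 232729) (.g (nat_lit 2833) (.e (nat_lit 98386) (nat_lit 32) (.e (nat_lit 475178) (nat_lit 24) (.e (nat_lit 516179) (nat_lit 15) (.e (nat_lit 475177) (nat_lit 24) (.e (nat_lit 516148) (nat_lit 9) (.e (nat_lit 426436) (nat_lit 18) .nil)))))) (.g (nat_lit 6) .nil .nil))) 
(.lf (nat_lit 232761) (.g (nat_lit 1177) (.e (nat_lit 98386) (nat_lit 32) (.e (nat_lit 475179) (nat_lit 24) (.e (nat_lit 516146) (nat_lit 9) (.e (nat_lit 426438) (nat_lit 18) .nil)))) .nil))))) (.nd (nat_lit 3) (.nd (nat_lit 4) (.nd (nat_lit 5) 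
(.lf (nat_lit 232709) (.g (nat_lit 2271) (.e (nat_lit 98386) (nat_lit 32) (.e (nat_lit 475177) (nat_lit 24) (.e (nat_lit 516179) (nat_lit 15) (.e (nat_lit 475179) (nat_lit 24) (.e (nat_lit 516150) (nat_lit 9) (.e (nat_lit 426438) (nat_lit 18) .nil)))))) (.g (nat_lit 4) .nil .nil))) 
(.lf (nat_lit 232741) (.g (nat_lit 1745) (.e (nat_lit 98386) (nat_lit 32) (.e (nat_lit 475179) (nat_lit 24) (.e (nat_lit 516119) (nat_lit 1) (.e (nat_lit 164326) (nat_lit 230) .nil)))) .nil))) (.nd (nat_lit 5) 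
(.lf (nat_lit 232725) (.g (nat_lit 1059) (.e (nat_lit 98386) (nat_lit 32) (.e (nat_lit 475178) (nat_lit 24) (.e (nat_lit 516150) (nat_lit 9) (.e (nat_lit 426428) (nat_lit 17) .nil)))) .nil)) 
(.lf (nat_lit 232757) (.g (nat_lit 2926) (.e (nat_lit 98386) (nat_lit 32) (.e (nat_lit 475179) (nat_lit 24) (.e (nat_lit 516146) (nat_lit 9) (.e (nat_lit 426428) (nat_lit 17) (.e (nat_lit 90170) (nat_lit 13) (.e (nat_lit 179968) (nat_lit 18) .nil)))))) (.g (nat_lit 5) .nil .nil))))) (.nd (nat_lit 4) (.nd (nat_lit 5) 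
(.lf (nat_lit 232717) (.g (nat_lit 2464) (.e (nat_lit 98386) (nat_lit 32) (.e (nat_lit 475178) (nat_lit 24) (.e (nat_lit 516146) (nat_lit 9) (.e (nat_lit 426428) (nat_lit 17) (.e (nat_lit 90169) (nat_lit 13) (.e (nat_lit 179968) (nat_lit 18) .nil)))))) (.g (nat_lit 5) .nil .nil))) 
(.lf (nat_lit 232749) (.g (nat_lit 1641) (.e (nat_lit 98386) (nat_lit 32) (.e (nat_lit 475179) (nat_lit 24) (.e (nat_lit 516145) (nat_lit 9) (.e (nat_lit 426437) (nat_lit 18) .nil)))) .nil))) (.nd (nat_lit 5) 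
(.lf (nat_lit 232733) (.g (nat_lit 1318) (.e (nat_lit 98386) (nat_lit 32) (.e (nat_lit 475179) (nat_lit 24) (.e (nat_lit 516102) (nat_lit 0) (.e (nat_lit 7936) (nat_lit 388) .nil)))) .nil)) 
(.lf (nat_lit 232765) (.g (nat_lit 2158) (.e (nat_lit 98386) (nat_lit 32) (.e (nat_lit 475179) (nat_lit 24) (.e (nat_lit 516146) (nat_lit 9) (.e (nat_lit 426438) (nat_lit 18) (.e (nat_lit 106240) (nat_lit 26) (.e (nat_lit 426435) (nat_lit 18) .nil)))))) (.g (nat_lit 4) .nil .nil))))))) (.nd (nat_lit 2) (.nd (nat_lit 3) (.nd (nat_lit 4) (.nd (nat_lit 5) 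
(.lf (nat_lit 232707) (.g (nat_lit 2479) (.e (nat_lit 98386) (nat_lit 32) (.e (nat_lit 475177) (nat_lit 24) (.e (nat_lit 516179) (nat_lit 15) (.e (nat_lit 475177) (nat_lit 24) (.e (nat_lit 516149) (nat_lit 9) (.e (nat_lit 426436) (nat_lit 18) .nil)))))) (.g (nat_lit 4) .nil .nil))) 
(.lf (nat_lit 232739) (.g (nat_lit 3797) (.e (nat_lit 98386) (nat_lit 32) (.e (nat_lit 475179) (nat_lit 24) (.e (nat_lit 516117) (nat_lit 1) (.e (nat_lit 164330) (nat_lit 230) (.e (nat_lit 163857) (nat_lit 0) .nil))))) .nil))) (.nd (nat_lit 5) 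
(.lf (nat_lit 232723) (.g (nat_lit 1743) (.e (nat_lit 98386) (nat_lit 32) (.e (nat_lit 475178) (nat_lit 24) (.e (nat_lit 516146) (nat_lit 9) (.e (nat_lit 426438) (nat_lit 18) (.e (nat_lit 106240) (nat_lit 26) (.e (nat_lit 426435) (nat_lit 18) .nil)))))) (.g (nat_lit 4) .nil .nil))) 
(.lf (nat_lit 232755) (.g (nat_lit 2782) (.e (nat_lit 98386) (nat_lit 32) (.e (nat_lit 475179) (nat_lit 24) (.e (nat_lit 516146) (nat_lit 9) (.e (nat_lit 426428) (nat_lit 17) (.e (nat_lit 90168) (nat_lit 13) (.e (nat_lit 179968) (nat_lit 18) .nil)))))) (.g (nat_lit 5) .nil .nil))))) (.nd (nat_lit 4) (.nd (nat_lit 5) 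
(.lf (nat_lit 232715) (.g (nat_lit 1751) (.e (nat_lit 98386) (nat_lit 32) (.e (nat_lit 475178) (nat_lit 24) (.e (nat_lit 516146) (nat_lit 9) (.e (nat_lit 426428) (nat_lit 17) (.e (nat_lit 90167) (nat_lit 13) (.e (nat_lit 179968) (nat_lit 18) .nil)))))) (.g (nat_lit 4) .nil .nil))) 
(.lf (nat_lit 232747) (.g (nat_lit 2837) (.e (nat_lit 98386) (nat_lit 32) (.e (nat_lit 475179) (nat_lit 24) (.e (nat_lit 516145) (nat_lit 9) (.e (nat_lit 426428) (nat_lit 17) (.e (nat_lit 90169) (nat_lit 13) .nil))))) .nil))) (.nd (nat_lit 5) 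
(.lf (nat_lit 232731) (.g (nat_lit 2410) (.e (nat_lit 98386) (nat_lit 32) (.e (nat_lit 475178) (nat_lit 24) (.e (nat_lit 516179) (nat_lit 15) (.e (nat_lit 475179) (nat_lit 24) (.e (nat_lit 516146) (nat_lit 9) (.e (nat_lit 426436) (nat_lit 18) .nil)))))) (.g (nat_lit 4) .nil .nil))) 
(.lf (nat_lit 232763) (.g (nat_lit 2381) (.e (nat_lit 98386) (nat_lit 32) (.e (nat_lit 475179) (nat_lit 24) (.e (nat_lit 516146) (nat_lit 9) (.e (nat_lit 426438) (nat_lit 18) (.e (nat_lit 98359) (nat_lit 26) (.e (nat_lit 433920) (nat_lit 18) .nil)))))) (.g (nat_lit 5) .nil .nil)))))) (.nd (nat_lit 3) (.nd (nat_lit 4) (.nd (nat_lit 5) 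
(.lf (nat_lit 232711) (.g (nat_lit 3103) (.e (nat_lit 98386) (nat_lit 32) (.e (nat_lit 475177) (nat_lit 24) (.e (nat_lit 516181) (nat_lit 15) (.e (nat_lit 475176) (nat_lit 24) (.e (nat_lit 516151) (nat_lit 9) (.e (nat_lit 433920) (nat_lit 18) .nil)))))) (.g (nat_lit 5) .nil .nil))) 
(.lf (nat_lit 232743) (.g (nat_lit 961) (.e (nat_lit 98386) (nat_lit 32) (.e (nat_lit 475179) (nat_lit 24) (.e (nat_lit 516139) (nat_lit 7) .nil))) .nil))) (.nd (nat_lit 5) 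
(.lf (nat_lit 232727) (.g (nat_lit 3316) (.e (nat_lit 98386) (nat_lit 32) (.e (nat_lit 475178) (nat_lit 24) (.e (nat_lit 516179) (nat_lit 15) (.e (nat_lit 475177) (nat_lit 24) (.e (nat_lit 516146) (nat_lit 9) (.e (nat_lit 426438) (nat_lit 18) .nil)))))) (.g (nat_lit 0) .nil .nil))) 
(.lf (nat_lit 232759) (.g (nat_lit 1916) (.e (nat_lit 98386) (nat_lit 32) (.e (nat_lit 475179) (nat_lit 24) (.e (nat_lit 516146) (nat_lit 9) (.e (nat_lit 426430) (nat_lit 17) .nil)))) .nil)))) (.nd (nat_lit 4) (.nd (nat_lit 5) 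
(.lf (nat_lit 232719) (.g (nat_lit 2603) (.e (nat_lit 98386) (nat_lit 32) (.e (nat_lit 475178) (nat_lit 24) (.e (nat_lit 516146) (nat_lit 9) (.e (nat_lit 426428) (nat_lit 17) (.e (nat_lit 90185) (nat_lit 17) (.e (nat_lit 245504) (nat_lit 18) .nil)))))) (.g (nat_lit 5) .nil .nil))) 
(.lf (nat_lit 232751) (.g (nat_lit 2399) (.e (nat_lit 98386) (nat_lit 32) (.e (nat_lit 475179) (nat_lit 24) (.e (nat_lit 516145) (nat_lit 9) (.e (nat_lit 426438) (nat_lit 18) (.e (nat_lit 98363) (nat_lit 26) .nil))))) .nil))) (.nd (nat_lit 5) 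
(.lf (nat_lit 232735) (.g (nat_lit 3646) (.e (nat_lit 98386) (nat_lit 32) (.e (nat_lit 475179) (nat_lit 24) (.e (nat_lit 516115) (nat_lit 1) (.e (nat_lit 164325) (nat_lit 230) (.e (nat_lit 163844) (nat_lit 0) .nil))))) .nil)) 
(.lf (nat_lit 232767) (.g (nat_lit 1019) (.e (nat_lit 98386) (nat_lit 32) (.e (nat_lit 475179) (nat_lit 24) (.e (nat_lit 516149) (nat_lit 9) .nil))) .nil))))))))

noncomputable def tv3045 : DT := (.nd (nat_lit 0) (.nd (nat_lit 1) (.nd (nat_lit 2) (.nd (nat_lit 3) (.nd (nat_lit 4) (.nd (nat_lit 5) 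
(.lf (nat_lit 232768) (.g (nat_lit 2327) (.e (nat_lit 98386) (nat_lit 32) (.e (nat_lit 475179) (nat_lit 24) (.e (nat_lit 516150) (nat_lit 9) (.e (nat_lit 426428) (nat_lit 17) (.e (nat_lit 90167) (nat_lit 13) .nil))))) .nil)) 
(.lf (nat_lit 232800) (.g (nat_lit 847) (.e (nat_lit 98386) (nat_lit 32) (.e (nat_lit 475214) (nat_lit 42) (.e (nat_lit 720940) (nat_lit 22) .nil))) .nil))) (.nd (nat_lit 5) 
(.lf (nat_lit 232784) (.g (nat_lit 1446) (.e (nat_lit 98386) (nat_lit 32) (.e (nat_lit 475179) (nat_lit 24) (.e (nat_lit 516182) (nat_lit 15) (.e (nat_lit 475177) (nat_lit 24) (.e (nat_lit 516149) (nat_lit 9) (.e (nat_lit 433920) (nat_lit 18) .nil)))))) (.g (nat_lit 5) .nil .nil))) 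
(.lf (nat_lit 232816) (.g (nat_lit 2182) (.e (nat_lit 98387) (nat_lit 33) (.e (nat_lit 491549) (nat_lit 9) (.e (nat_lit 336019) (nat_lit 3) (.e (nat_lit 98389) (nat_lit 33) (.e (nat_lit 491546) (nat_lit 9) (.e (nat_lit 336028) (nat_lit 3) .nil)))))) (.g (nat_lit 4) .nil .nil))))) (.nd (nat_lit 4) (.nd (nat_lit 5) 
(.lf (nat_lit 232776) (.g (nat_lit 1970) (.e (nat_lit 98386) (nat_lit 32) (.e (nat_lit 475179) (nat_lit 24) (.e (nat_lit 516179) (nat_lit 15) (.e (nat_lit 475169) (nat_lit 22) (.e (nat_lit 499916) (nat_lit 9) (.e (nat_lit 179968) (nat_lit 18) .nil)))))) (.g (nat_lit 4) .nil .nil))) 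
(.lf (nat_lit 232808) (.g (nat_lit 1626) (.e (nat_lit 98387) (nat_lit 33) (.e (nat_lit 491546) (nat_lit 9) (.e (nat_lit 336013) (nat_lit 2) (.e (nat_lit 90165) (nat_lit 12) .nil)))) .nil))) (.nd (nat_lit 5) 
(.lf (nat_lit 232792) (.g (nat_lit 1832) (.e (nat_lit 98386) (nat_lit 32) (.e (nat_lit 475210) (nat_lit 41) (.e (nat_lit 712745) (nat_lit 27) (.e (nat_lit 426532) (nat_lit 28) .nil)))) .nil)) 
(.lf (nat_lit 232824) (.g (nat_lit 2840) (.e (nat_lit 98387) (nat_lit 33) (.e (nat_lit 491560) (nat_lit 10) (.e (nat_lit 344126) (nat_lit 25) (.e (nat_lit 548874) (nat_lit 5) (.e (nat_lit 1572) (nat_lit 110) .nil))))) .nil))))) (.nd (nat_lit 3) (.nd (nat_lit 4) (.nd (nat_lit 5) 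
(.lf (nat_lit 232772) (.g (nat_lit 3147) (.e (nat_lit 98386) (nat_lit 32) (.e (nat_lit 475179) (nat_lit 24) (.e (nat_lit 516150) (nat_lit 9) (.e (nat_lit 426428) (nat_lit 17) (.e (nat_lit 90185) (nat_lit 17) (.e (nat_lit 245504) (nat_lit 18) .nil)))))) (.g (nat_lit 5) .nil .nil))) 
(.lf (nat_lit 232804) (.g (nat_lit 3139) (.e (nat_lit 98386) (nat_lit 32) (.e (nat_lit 475214) (nat_lit 42) (.e (nat_lit 720943) (nat_lit 23) (.e (nat_lit 98317) (nat_lit 9) (.e (nat_lit 336086) (nat_lit 9) (.e (nat_lit 336019) (nat_lit 3) .nil)))))) (.g (nat_lit 4) .nil .nil)))) (.nd (nat_lit 5) 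
(.lf (nat_lit 232788) (.g (nat_lit 2074) (.e (nat_lit 98386) (nat_lit 32) (.e (nat_lit 475185) (nat_lit 29) (.e (nat_lit 557093) (nat_lit 12) (.e (nat_lit 164058) (nat_lit 56) .nil)))) .nil)) 
(.lf (nat_lit 232820) (.g (nat_lit 4840) (.e (nat_lit 98387) (nat_lit 33) (.e (nat_lit 491560) (nat_lit 10) (.e (nat_lit 344117) (nat_lit 21) (.e (nat_lit 516185) (nat_lit 16) (.e (nat_lit 491546) (nat_lit 9) (.e (nat_lit 336028) (nat_lit 3) .nil)))))) (.g (nat_lit 6) .nil .nil))))) (.nd (nat_lit 4) (.nd (nat_lit 5) 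
(.lf (nat_lit 232780) (.g (nat_lit 2177) (.e (nat_lit 98386) (nat_lit 32) (.e (nat_lit 475179) (nat_lit 24) (.e (nat_lit 516179) (nat_lit 15) (.e (nat_lit 475177) (nat_lit 24) (.e (nat_lit 516149) (nat_lit 9) (.e (nat_lit 426436) (nat_lit 18) .nil)))))) (.g (nat_lit 4) .nil .nil))) 
(.lf (nat_lit 232812) (.g (nat_lit 2054) (.e (nat_lit 98387) (nat_lit 33) (.e (nat_lit 491546) (nat_lit 9) (.e (nat_lit 336028) (nat_lit 3) (.e (nat_lit 98387) (nat_lit 33) (.e (nat_lit 491546) (nat_lit 9) (.e (nat_lit 336028) (nat_lit 3) .nil)))))) (.g (nat_lit 4) .nil .nil)))) (.nd (nat_lit 5) 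
(.lf (nat_lit 232796) (.g (nat_lit 672) (.e (nat_lit 98386) (nat_lit 32) (.e (nat_lit 475212) (nat_lit 42) (.e (nat_lit 720940) (nat_lit 22) .nil))) .nil)) 
(.lf (nat_lit 232828) (.g (nat_lit 2119) (.e (nat_lit 98387) (nat_lit 33) (.e (nat_lit 491560) (nat_lit 10) (.e (nat_lit 344129) (nat_lit 26) (.e (nat_lit 557087) (nat_lit 11) .nil)))) .nil)))))) (.nd (nat_lit 2) (.nd (nat_lit 3) (.nd (nat_lit 4) (.nd (nat_lit 5) 
(.lf (nat_lit 232770) (.g (nat_lit 3011) (.e (nat_lit 98386) (nat_lit 32) (.e (nat_lit 475179) (nat_lit 24) (.e (nat_lit 516150) (nat_lit 9) (.e (nat_lit 426428) (nat_lit 17) (.e (nat_lit 90169) (nat_lit 13) (.e (nat_lit 179968) (nat_lit 18) .nil)))))) (.g (nat_lit 5) .nil .nil))) 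
(.lf (nat_lit 232802) (.g (nat_lit 3063) (.e (nat_lit 98386) (nat_lit 32) (.e (nat_lit 475214) (nat_lit 42) (.e (nat_lit 720943) (nat_lit 23) (.e (nat_lit 98317) (nat_lit 9) (.e (nat_lit 336076) (nat_lit 9) .nil))))) .nil))) (.nd (nat_lit 5) 
(.lf (nat_lit 232786) (.g (nat_lit 2936) (.e (nat_lit 98386) (nat_lit 32) (.e (nat_lit 475179) (nat_lit 24) (.e (nat_lit 516182) (nat_lit 15) (.e (nat_lit 475179) (nat_lit 24) (.e (nat_lit 516146) (nat_lit 9) (.e (nat_lit 426438) (nat_lit 18) .nil)))))) (.g (nat_lit 5) .nil .nil))) 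
(.lf (nat_lit 232818) (.g (nat_lit 1064) (.e (nat_lit 98387) (nat_lit 33) (.e (nat_lit 491549) (nat_lit 9) (.e (nat_lit 336306) (nat_lit 15) (.e (nat_lit 3296) (nat_lit 202) .nil)))) .nil)))) (.nd (nat_lit 4) (.nd (nat_lit 5) 
(.lf (nat_lit 232778) (.g (nat_lit 3682) (.e (nat_lit 98386) (nat_lit 32) (.e (nat_lit 475179) (nat_lit 24) (.e (nat_lit 516179) (nat_lit 15) (.e (nat_lit 475177) (nat_lit 24) (.e (nat_lit 516146) (nat_lit 9) (.e (nat_lit 426436) (nat_lit 18) .nil)))))) (.g (nat_lit 0) .nil .nil))) 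
(.lf (nat_lit 232810) (.g (nat_lit 2569) (.e (nat_lit 98387) (nat_lit 33) (.e (nat_lit 491546) (nat_lit 9) (.e (nat_lit 336013) (nat_lit 2) (.e (nat_lit 90189) (nat_lit 18) .nil)))) .nil))) (.nd (nat_lit 5) 
(.lf (nat_lit 232794) (.g (nat_lit 632) (.e (nat_lit 98386) (nat_lit 32) (.e (nat_lit 475211) (nat_lit 41) (.e (nat_lit 712745) (nat_lit 27) .nil))) .nil)) 
(.lf (nat_lit 232826) (.g (nat_lit 915) (.e (nat_lit 98387) (nat_lit 33) (.e (nat_lit 491560) (nat_lit 10) (.e (nat_lit 344129) (nat_lit 26) .nil))) .nil))))) (.nd (nat_lit 3) (.nd (nat_lit 4) (.nd (nat_lit 5) 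
(.lf (nat_lit 232774) (.g (nat_lit 2193) (.e (nat_lit 98386) (nat_lit 32) (.e (nat_lit 475179) (nat_lit 24) (.e (nat_lit 516151) (nat_lit 9) (.e (nat_lit 433920) (nat_lit 18) .nil)))) .nil)) 
(.lf (nat_lit 232806) (.g (nat_lit 2301) (.e (nat_lit 106240) (nat_lit 32) (.e (nat_lit 475199) (nat_lit 40) (.e (nat_lit 704590) (nat_lit 3) (.e (nat_lit 163975) (nat_lit 30) (.e (nat_lit 573481) (nat_lit 13) .nil))))) .nil))) (.nd (nat_lit 5) 
(.lf (nat_lit 232790) (.g (nat_lit 2351) (.e (nat_lit 98386) (nat_lit 32) (.e (nat_lit 475210) (nat_lit 41) (.e (nat_lit 712722) (nat_lit 15) (.e (nat_lit 3302) (nat_lit 202) (.e (nat_lit 573450) (nat_lit 9) .nil))))) .nil)) 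
(.lf (nat_lit 232822) (.g (nat_lit 1301) (.e (nat_lit 98387) (nat_lit 33) (.e (nat_lit 491560) (nat_lit 10) (.e (nat_lit 344118) (nat_lit 21) (.e (nat_lit 516184) (nat_lit 16) .nil)))) .nil)))) (.nd (nat_lit 4) (.nd (nat_lit 5) 
(.lf (nat_lit 232782) (.g (nat_lit 3363) (.e (nat_lit 98386) (nat_lit 32) (.e (nat_lit 475179) (nat_lit 24) (.e (nat_lit 516179) (nat_lit 15) (.e (nat_lit 475179) (nat_lit 24) (.e (nat_lit 516150) (nat_lit 9) (.e (nat_lit 426436) (nat_lit 18) .nil)))))) (.g (nat_lit 6) .nil .nil))) 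
(.lf (nat_lit 232814) (.g (nat_lit 539) (.e (nat_lit 98387) (nat_lit 33) (.e (nat_lit 491547) (nat_lit 9) (.e (nat_lit 336306) (nat_lit 15) .nil))) .nil))) (.nd (nat_lit 5) 
(.lf (nat_lit 232798) (.g (nat_lit 847) (.e (nat_lit 98386) (nat_lit 32) (.e (nat_lit 475214) (nat_lit 42) (.e (nat_lit 720935) (nat_lit 22) .nil))) .nil)) 
(.lf (nat_lit 232830) (.g (nat_lit 872) (.e (nat_lit 98387) (nat_lit 33) (.e (nat_lit 491560) (nat_lit 10) (.e (nat_lit 344130) (nat_lit 26) .nil))) .nil))))))) (.nd (nat_lit 1) (.nd (nat_lit 2) (.nd (nat_lit 3) (.nd (nat_lit 4) (.nd (nat_lit 5) 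
(.lf (nat_lit 232769) (.g (nat_lit 2366) (.e (nat_lit 98386) (nat_lit 32) (.e (nat_lit 475179) (nat_lit 24) (.e (nat_lit 516150) (nat_lit 9) (.e (nat_lit 426428) (nat_lit 17) (.e (nat_lit 90168) (nat_lit 13) (.e (nat_lit 179968) (nat_lit 18) .nil)))))) (.g (nat_lit 4) .nil .nil))) 
(.lf (nat_lit 232801) (.g (nat_lit 391) (.e (nat_lit 98386) (nat_lit 32) (.e (nat_lit 475214) (nat_lit 42) (.e (nat_lit 720943) (nat_lit 23) .nil))) .nil))) (.nd (nat_lit 5) 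
(.lf (nat_lit 232785) (.g (nat_lit 3087) (.e (nat_lit 98386) (nat_lit 32) (.e (nat_lit 475179) (nat_lit 24) (.e (nat_lit 516182) (nat_lit 15) (.e (nat_lit 475179) (nat_lit 24) (.e (nat_lit 516146) (nat_lit 9) (.e (nat_lit 426436) (nat_lit 18) .nil)))))) (.g (nat_lit 0) .nil .nil))) 
(.lf (nat_lit 232817) (.g (nat_lit 788) (.e (nat_lit 98387) (nat_lit 33) (.e (nat_lit 491549) (nat_lit 9) (.e (nat_lit 336260) (nat_lit 15) .nil))) .nil)))) (.nd (nat_lit 4) (.nd (nat_lit 5) 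
(.lf (nat_lit 232777) (.g (nat_lit 1287) (.e (nat_lit 98386) (nat_lit 32) (.e (nat_lit 475179) (nat_lit 24) (.e (nat_lit 516179) (nat_lit 15) (.e (nat_lit 475171) (nat_lit 22) .nil)))) .nil)) 
(.lf (nat_lit 232809) (.g (nat_lit 2799) (.e (nat_lit 98387) (nat_lit 33) (.e (nat_lit 491546) (nat_lit 9) (.e (nat_lit 336013) (nat_lit 2) (.e (nat_lit 90165) (nat_lit 12) (.e (nat_lit 164207) (nat_lit 176) .nil))))) .nil))) (.nd (nat_lit 5) 
(.lf (nat_lit 232793) (.g (nat_lit 1787) (.e (nat_lit 98386) (nat_lit 32) (.e (nat_lit 475211) (nat_lit 41) (.e (nat_lit 712722) (nat_lit 15) (.e (nat_lit 3302) (nat_lit 202) (.e (nat_lit 573491) (nat_lit 15) .nil))))) .nil)) 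
(.lf (nat_lit 232825) (.g (nat_lit 4095) (.e (nat_lit 98387) (nat_lit 33) (.e (nat_lit 491560) (nat_lit 10) (.e (nat_lit 344126) (nat_lit 25) (.e (nat_lit 548889) (nat_lit 9) (.e (nat_lit 65598) (nat_lit 9) (.e (nat_lit 336028) (nat_lit 3) .nil)))))) (.g (nat_lit 4) .nil .nil)))))) (.nd (nat_lit 3) (.nd (nat_lit 4) (.nd (nat_lit 5) 
(.lf (nat_lit 232773) (.g (nat_lit 3762) (.e (nat_lit 98386) (nat_lit 32) (.e (nat_lit 475179) (nat_lit 24) (.e (nat_lit 516151) (nat_lit 9) (.e (nat_lit 426412) (nat_lit 15) .nil)))) .nil)) 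
(.lf (nat_lit 232805) (.g (nat_lit 1494) (.e (nat_lit 106240) (nat_lit 32) (.e (nat_lit 475198) (nat_lit 40) (.e (nat_lit 704590) (nat_lit 3) (.e (nat_lit 163973) (nat_lit 30) .nil)))) .nil))) (.nd (nat_lit 5) 
(.lf (nat_lit 232789) (.g (nat_lit 731) (.e (nat_lit 98386) (nat_lit 32) (.e (nat_lit 475210) (nat_lit 41) (.e (nat_lit 712722) (nat_lit 15) .nil))) .nil)) 
(.lf (nat_lit 232821) (.g (nat_lit 770) (.e (nat_lit 98387) (nat_lit 33) (.e (nat_lit 491560) (nat_lit 10) (.e (nat_lit 344118) (nat_lit 21) .nil))) .nil)))) (.nd (nat_lit 4) (.nd (nat_lit 5) 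
(.lf (nat_lit 232781) (.g (nat_lit 3560) (.e (nat_lit 98386) (nat_lit 32) (.e (nat_lit 475179) (nat_lit 24) (.e (nat_lit 516179) (nat_lit 15) (.e (nat_lit 475179) (nat_lit 24) (.e (nat_lit 516146) (nat_lit 9) (.e (nat_lit 426436) (nat_lit 18) .nil)))))) (.g (nat_lit 6) .nil .nil))) 
(.lf (nat_lit 232813) (.g (nat_lit 2406) (.e (nat_lit 98387) (nat_lit 33) (.e (nat_lit 491546) (nat_lit 9) (.e (nat_lit 336028) (nat_lit 3) (.e (nat_lit 98389) (nat_lit 33) (.e (nat_lit 491546) (nat_lit 9) (.e (nat_lit 336028) (nat_lit 3) .nil)))))) (.g (nat_lit 4) .nil .nil)))) (.nd (nat_lit 5) 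
(.lf (nat_lit 232797) (.g (nat_lit 2995) (.e (nat_lit 98386) (nat_lit 32) (.e (nat_lit 475213) (nat_lit 42) (.e (nat_lit 720938) (nat_lit 22) (.e (nat_lit 90158) (nat_lit 11) (.e (nat_lit 24628) (nat_lit 9) (.e (nat_lit 336019) (nat_lit 3) .nil)))))) (.g (nat_lit 0) .nil .nil))) 
(.lf (nat_lit 232829) (.g (nat_lit 2778) (.e (nat_lit 98387) (nat_lit 33) (.e (nat_lit 491560) (nat_lit 10) (.e (nat_lit 344129) (nat_lit 26) (.e (nat_lit 557087) (nat_lit 11) (.e (nat_lit 24628) (nat_lit 9) .nil))))) .nil)))))) (.nd (nat_lit 2) (.nd (nat_lit 3) (.nd (nat_lit 4) (.nd (nat_lit 5) 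
(.lf (nat_lit 232771) (.g (nat_lit 3067) (.e (nat_lit 98386) (nat_lit 32) (.e (nat_lit 475179) (nat_lit 24) (.e (nat_lit 516150) (nat_lit 9) (.e (nat_lit 426428) (nat_lit 17) (.e (nat_lit 90170) (nat_lit 13) (.e (nat_lit 179968) (nat_lit 18) .nil)))))) (.g (nat_lit 5) .nil .nil))) 
(.lf (nat_lit 232803) (.g (nat_lit 3282) (.e (nat_lit 98386) (nat_lit 32) (.e (nat_lit 475214) (nat_lit 42) (.e (nat_lit 720943) (nat_lit 23) (.e (nat_lit 98317) (nat_lit 9) (.e (nat_lit 336085) (nat_lit 9) (.e (nat_lit 336019) (nat_lit 3) .nil)))))) (.g (nat_lit 4) .nil .nil)))) (.nd (nat_lit 5) 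
(.lf (nat_lit 232787) (.g (nat_lit 2905) (.e (nat_lit 98386) (nat_lit 32) (.e (nat_lit 475179) (nat_lit 24) (.e (nat_lit 516182) (nat_lit 15) (.e (nat_lit 475179) (nat_lit 24) (.e (nat_lit 516150) (nat_lit 9) (.e (nat_lit 426436) (nat_lit 18) .nil)))))) (.g (nat_lit 0) .nil .nil))) 
(.lf (nat_lit 232819) (.g (nat_lit 1594) (.e (nat_lit 98387) (nat_lit 33) (.e (nat_lit 491550) (nat_lit 9) (.e (nat_lit 336019) (nat_lit 3) (.e (nat_lit 98389) (nat_lit 33) .nil)))) .nil)))) (.nd (nat_lit 4) (.nd (nat_lit 5) 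
(.lf (nat_lit 232779) (.g (nat_lit 1568) (.e (nat_lit 98386) (nat_lit 32) (.e (nat_lit 475179) (nat_lit 24) (.e (nat_lit 516179) (nat_lit 15) (.e (nat_lit 475177) (nat_lit 24) (.e (nat_lit 516148) (nat_lit 9) (.e (nat_lit 433920) (nat_lit 18) .nil)))))) (.g (nat_lit 4) .nil .nil))) 
(.lf (nat_lit 232811) (.g (nat_lit 1449) (.e (nat_lit 98387) (nat_lit 33) (.e (nat_lit 491546) (nat_lit 9) (.e (nat_lit 336028) (nat_lit 3) (.e (nat_lit 98325) (nat_lit 17) .nil)))) .nil))) (.nd (nat_lit 5) 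
(.lf (nat_lit 232795) (.g (nat_lit 1622) (.e (nat_lit 98386) (nat_lit 32) (.e (nat_lit 475211) (nat_lit 41) (.e (nat_lit 712745) (nat_lit 27) (.e (nat_lit 426532) (nat_lit 28) .nil)))) .nil)) 
(.lf (nat_lit 232827) (.g (nat_lit 1878) (.e (nat_lit 98387) (nat_lit 33) (.e (nat_lit 491560) (nat_lit 10) (.e (nat_lit 344129) (nat_lit 26) (.e (nat_lit 557074) (nat_lit 9) .nil)))) .nil))))) (.nd (nat_lit 3) (.nd (nat_lit 4) (.nd (nat_lit 5) 
(.lf (nat_lit 232775) (.g (nat_lit 1085) (.e (nat_lit 98386) (nat_lit 32) (.e (nat_lit 475179) (nat_lit 24) (.e (nat_lit 516156) (nat_lit 9) .nil))) .nil)) 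
(.lf (nat_lit 232807) (.g (nat_lit 1663) (.e (nat_lit 106240) (nat_lit 32) (.e (nat_lit 475210) (nat_lit 41) (.e (nat_lit 712722) (nat_lit 15) (.e (nat_lit 3302) (nat_lit 202) .nil)))) .nil))) (.nd (nat_lit 5) 
(.lf (nat_lit 232791) (.g (nat_lit 635) (.e (nat_lit 98386) (nat_lit 32) (.e (nat_lit 475210) (nat_lit 41) (.e (nat_lit 712745) (nat_lit 27) .nil))) .nil)) 
(.lf (nat_lit 232823) (.g (nat_lit 1819) (.e (nat_lit 98387) (nat_lit 33) (.e (nat_lit 491560) (nat_lit 10) (.e (nat_lit 344126) (nat_lit 25) (.e (nat_lit 548870) (nat_lit 5) .nil)))) .nil)))) (.nd (nat_lit 4) (.nd (nat_lit 5) 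
(.lf (nat_lit 232783) (.g (nat_lit 1145) (.e (nat_lit 98386) (nat_lit 32) (.e (nat_lit 475179) (nat_lit 24) (.e (nat_lit 516182) (nat_lit 15) (.e (nat_lit 475177) (nat_lit 24) (.e (nat_lit 516148) (nat_lit 9) (.e (nat_lit 433920) (nat_lit 18) .nil)))))) (.g (nat_lit 4) .nil .nil))) 
(.lf (nat_lit 232815) (.g (nat_lit 3037) (.e (nat_lit 98387) (nat_lit 33) (.e (nat_lit 491548) (nat_lit 9) (.e (nat_lit 336019) (nat_lit 3) (.e (nat_lit 98389) (nat_lit 33) (.e (nat_lit 491546) (nat_lit 9) (.e (nat_lit 336028) (nat_lit 3) .nil)))))) (.g (nat_lit 0) .nil .nil)))) (.nd (nat_lit 5) 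
(.lf (nat_lit 232799) (.g (nat_lit 721) (.e (nat_lit 98386) (nat_lit 32) (.e (nat_lit 475214) (nat_lit 42) (.e (nat_lit 720939) (nat_lit 22) .nil))) .nil)) 
(.lf (nat_lit 232831) (.g (nat_lit 868) (.e (nat_lit 98387) (nat_lit 33) (.e (nat_lit 491560) (nat_lit 10) (.e (nat_lit 344131) (nat_lit 26) .nil))) .nil))))))))

noncomputable def tv3046 : DT := (.nd (nat_lit 0) (.nd (nat_lit 1) (.nd (nat_lit 2) (.nd (nat_lit 3) (.nd (nat_lit 4) (.nd (nat_lit 5) (.nd (nat_lit 6) 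
(.lf (nat_lit 232832) (.g (nat_lit 1072) (.e (nat_lit 98387) (nat_lit 33) (.e (nat_lit 491560) (nat_lit 10) (.e (nat_lit 344133) (nat_lit 26) .nil))) .nil)) 
(.lf (nat_lit 232896) (.g (nat_lit 2066) (.e (nat_lit 98387) (nat_lit 33) (.e (nat_lit 491569) (nat_lit 13) (.e (nat_lit 393234) (nat_lit 17) (.e (nat_lit 3556) (nat_lit 220) .nil)))) .nil))) (.nd (nat_lit 6) 
(.lf (nat_lit 232864) (.g (nat_lit 1300) (.e (nat_lit 98387) (nat_lit 33) (.e (nat_lit 491566) (nat_lit 12) (.e (nat_lit 385059) (nat_lit 22) .nil))) .nil)) 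
(.lf (nat_lit 232928) (.g (nat_lit 1623) (.e (nat_lit 98387) (nat_lit 33) (.e (nat_lit 491571) (nat_lit 13) (.e (nat_lit 393232) (nat_lit 17) (.e (nat_lit 7936) (nat_lit 220) .nil)))) .nil)))) (.nd (nat_lit 5) (.nd (nat_lit 6) 
(.lf (nat_lit 232848) (.g (nat_lit 3407) (.e (nat_lit 98387) (nat_lit 33) (.e (nat_lit 491565) (nat_lit 12) (.e (nat_lit 385073) (nat_lit 31) (.e (nat_lit 573482) (nat_lit 13) (.e (nat_lit 65604) (nat_lit 9) (.e (nat_lit 336028) (nat_lit 3) .nil)))))) (.g (nat_lit 0) .nil .nil))) 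
(.lf (nat_lit 232912) (.g (nat_lit 939) (.e (nat_lit 98387) (nat_lit 33) (.e (nat_lit 491570) (nat_lit 13) (.e (nat_lit 393239) (nat_lit 17) .nil))) .nil))) (.nd (nat_lit 6) 
(.lf (nat_lit 232880) (.g (nat_lit 2232) (.e (nat_lit 98387) (nat_lit 33) (.e (nat_lit 491566) (nat_lit 12) (.e (nat_lit 385074) (nat_lit 31) (.e (nat_lit 573479) (nat_lit 13) .nil)))) .nil)) 
(.lf (nat_lit 232944) (.g (nat_lit 1051) (.e (nat_lit 98387) (nat_lit 33) (.e (nat_lit 491571) (nat_lit 13) (.e (nat_lit 393251) (nat_lit 18) .nil))) .nil))))) (.nd (nat_lit 4) (.nd (nat_lit 5) (.nd (nat_lit 6) 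
(.lf (nat_lit 232840) (.g (nat_lit 3947) (.e (nat_lit 98387) (nat_lit 33) (.e (nat_lit 491563) (nat_lit 12) (.e (nat_lit 385074) (nat_lit 31) (.e (nat_lit 573479) (nat_lit 13) .nil)))) .nil)) 
(.lf (nat_lit 232904) (.g (nat_lit 1737) (.e (nat_lit 98387) (nat_lit 33) (.e (nat_lit 491570) (nat_lit 13) (.e (nat_lit 393238) (nat_lit 17) (.e (nat_lit 3480) (nat_lit 218) .nil)))) .nil))) (.nd (nat_lit 6) 
(.lf (nat_lit 232872) (.g (nat_lit 4044) (.e (nat_lit 98387) (nat_lit 33) (.e (nat_lit 491566) (nat_lit 12) (.e (nat_lit 385072) (nat_lit 31) (.e (nat_lit 573482) (nat_lit 13) (.e (nat_lit 65604) (nat_lit 9) (.e (nat_lit 336028) (nat_lit 3) .nil)))))) (.g (nat_lit 6) .nil .nil))) 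
(.lf (nat_lit 232936) (.g (nat_lit 1867) (.e (nat_lit 98387) (nat_lit 33) (.e (nat_lit 491571) (nat_lit 13) (.e (nat_lit 393238) (nat_lit 17) (.e (nat_lit 3529) (nat_lit 218) .nil)))) .nil)))) (.nd (nat_lit 5) (.nd (nat_lit 6) 
(.lf (nat_lit 232856) (.g (nat_lit 831) (.e (nat_lit 98387) (nat_lit 33) (.e (nat_lit 491566) (nat_lit 12) (.e (nat_lit 385046) (nat_lit 21) (.e (nat_lit 4175) (nat_lit 251) .nil)))) .nil)) 
(.lf (nat_lit 232920) (.g (nat_lit 1582) (.e (nat_lit 98387) (nat_lit 33) (.e (nat_lit 491571) (nat_lit 13) (.e (nat_lit 393232) (nat_lit 17) (.e (nat_lit 3473) (nat_lit 218) (.e (nat_lit 704659) (nat_lit 9) .nil))))) .nil))) (.nd (nat_lit 6) 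
(.lf (nat_lit 232888) (.g (nat_lit 966) (.e (nat_lit 98387) (nat_lit 33) (.e (nat_lit 491568) (nat_lit 13) (.e (nat_lit 393257) (nat_lit 20) .nil))) .nil)) 
(.lf (nat_lit 232952) (.g (nat_lit 1833) (.e (nat_lit 98388) (nat_lit 33) (.e (nat_lit 491546) (nat_lit 9) (.e (nat_lit 336028) (nat_lit 3) (.e (nat_lit 98325) (nat_lit 17) (.e (nat_lit 7936) (nat_lit 406) .nil))))) .nil)))))) (.nd (nat_lit 3) (.nd (nat_lit 4) (.nd (nat_lit 5) (.nd (nat_lit 6) 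
(.lf (nat_lit 232836) (.g (nat_lit 921) (.e (nat_lit 98387) (nat_lit 33) (.e (nat_lit 491563) (nat_lit 12) (.e (nat_lit 385073) (nat_lit 31) .nil))) .nil)) 
(.lf (nat_lit 232900) (.g (nat_lit 1103) (.e (nat_lit 98387) (nat_lit 33) (.e (nat_lit 491569) (nat_lit 13) (.e (nat_lit 393257) (nat_lit 20) .nil))) .nil))) (.nd (nat_lit 6) 
(.lf (nat_lit 232868) (.g (nat_lit 2061) (.e (nat_lit 98387) (nat_lit 33) (.e (nat_lit 491566) (nat_lit 12) (.e (nat_lit 385068) (nat_lit 26) (.e (nat_lit 532486) (nat_lit 0) .nil)))) .nil)) 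
(.lf (nat_lit 232932) (.g (nat_lit 507) (.e (nat_lit 98387) (nat_lit 33) (.e (nat_lit 491571) (nat_lit 13) (.e (nat_lit 393238) (nat_lit 17) .nil))) .nil)))) (.nd (nat_lit 5) (.nd (nat_lit 6) 
(.lf (nat_lit 232852) (.g (nat_lit 1008) (.e (nat_lit 98387) (nat_lit 33) (.e (nat_lit 491566) (nat_lit 12) (.e (nat_lit 385043) (nat_lit 21) .nil))) .nil)) 
(.lf (nat_lit 232916) (.g (nat_lit 897) (.e (nat_lit 98387) (nat_lit 33) (.e (nat_lit 491571) (nat_lit 13) (.e (nat_lit 401152) (nat_lit 10) .nil))) .nil))) (.nd (nat_lit 6) 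
(.lf (nat_lit 232884) (.g (nat_lit 2450) (.e (nat_lit 98387) (nat_lit 33) (.e (nat_lit 491566) (nat_lit 12) (.e (nat_lit 385074) (nat_lit 31) (.e (nat_lit 573482) (nat_lit 13) (.e (nat_lit 73472) (nat_lit 9) .nil))))) .nil)) 
(.lf (nat_lit 232948) (.g (nat_lit 1123) (.e (nat_lit 98387) (nat_lit 33) (.e (nat_lit 491571) (nat_lit 13) (.e (nat_lit 393257) (nat_lit 20) .nil))) .nil))))) (.nd (nat_lit 4) (.nd (nat_lit 5) (.nd (nat_lit 6) 
(.lf (nat_lit 232844) (.g (nat_lit 3644) (.e (nat_lit 98387) (nat_lit 33) (.e (nat_lit 491564) (nat_lit 12) (.e (nat_lit 385074) (nat_lit 31) (.e (nat_lit 573482) (nat_lit 13) (.e (nat_lit 65604) (nat_lit 9) .nil))))) .nil)) 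
(.lf (nat_lit 232908) (.g (nat_lit 1733) (.e (nat_lit 98387) (nat_lit 33) (.e (nat_lit 491570) (nat_lit 13) (.e (nat_lit 393238) (nat_lit 17) (.e (nat_lit 3558) (nat_lit 221) .nil)))) .nil))) (.nd (nat_lit 6) 
(.lf (nat_lit 232876) (.g (nat_lit 3423) (.e (nat_lit 98387) (nat_lit 33) (.e (nat_lit 491566) (nat_lit 12) (.e (nat_lit 385073) (nat_lit 31) (.e (nat_lit 573485) (nat_lit 13) (.e (nat_lit 65604) (nat_lit 9) (.e (nat_lit 336028) (nat_lit 3) .nil)))))) (.g (nat_lit 0) .nil .nil))) 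
(.lf (nat_lit 232940) (.g (nat_lit 1814) (.e (nat_lit 98387) (nat_lit 33) (.e (nat_lit 491571) (nat_lit 13) (.e (nat_lit 393238) (nat_lit 17) (.e (nat_lit 3562) (nat_lit 221) .nil)))) .nil)))) (.nd (nat_lit 5) (.nd (nat_lit 6) 
(.lf (nat_lit 232860) (.g (nat_lit 1151) (.e (nat_lit 98387) (nat_lit 33) (.e (nat_lit 491566) (nat_lit 12) (.e (nat_lit 385051) (nat_lit 21) .nil))) .nil)) 
(.lf (nat_lit 232924) (.g (nat_lit 1580) (.e (nat_lit 98387) (nat_lit 33) (.e (nat_lit 491571) (nat_lit 13) (.e (nat_lit 393232) (nat_lit 17) (.e (nat_lit 3555) (nat_lit 220) .nil)))) .nil))) (.nd (nat_lit 6) 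
(.lf (nat_lit 232892) (.g (nat_lit 3330) (.e (nat_lit 98387) (nat_lit 33) (.e (nat_lit 491569) (nat_lit 13) (.e (nat_lit 393229) (nat_lit 9) (.e (nat_lit 335894) (nat_lit 0) (.e (nat_lit 974) (nat_lit 81) .nil))))) .nil)) 
(.lf (nat_lit 232956) (.g (nat_lit 606) (.e (nat_lit 98388) (nat_lit 33) (.e (nat_lit 491558) (nat_lit 10) (.e (nat_lit 344126) (nat_lit 25) .nil))) .nil))))))) (.nd (nat_lit 2) (.nd (nat_lit 3) (.nd (nat_lit 4) (.nd (nat_lit 5) (.nd (nat_lit 6) 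
(.lf (nat_lit 232834) (.g (nat_lit 3109) (.e (nat_lit 98387) (nat_lit 33) (.e (nat_lit 491562) (nat_lit 12) (.e (nat_lit 385074) (nat_lit 31) (.e (nat_lit 573491) (nat_lit 15) (.e (nat_lit 81954) (nat_lit 23) .nil))))) .nil)) 
(.lf (nat_lit 232898) (.g (nat_lit 1324) (.e (nat_lit 98387) (nat_lit 33) (.e (nat_lit 491569) (nat_lit 13) (.e (nat_lit 393234) (nat_lit 17) (.e (nat_lit 7936) (nat_lit 220) .nil)))) .nil))) (.nd (nat_lit 6) 
(.lf (nat_lit 232866) (.g (nat_lit 1983) (.e (nat_lit 98387) (nat_lit 33) (.e (nat_lit 491566) (nat_lit 12) (.e (nat_lit 385066) (nat_lit 26) (.e (nat_lit 532481) (nat_lit 0) .nil)))) .nil)) 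
(.lf (nat_lit 232930) (.g (nat_lit 1544) (.e (nat_lit 98387) (nat_lit 33) (.e (nat_lit 491571) (nat_lit 13) (.e (nat_lit 393232) (nat_lit 17) (.e (nat_lit 3564) (nat_lit 221) .nil)))) .nil)))) (.nd (nat_lit 5) (.nd (nat_lit 6) 
(.lf (nat_lit 232850) (.g (nat_lit 4209) (.e (nat_lit 98387) (nat_lit 33) (.e (nat_lit 491565) (nat_lit 12) (.e (nat_lit 385074) (nat_lit 31) (.e (nat_lit 573482) (nat_lit 13) (.e (nat_lit 65604) (nat_lit 9) (.e (nat_lit 336028) (nat_lit 3) .nil)))))) (.g (nat_lit 6) .nil .nil))) 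
(.lf (nat_lit 232914) (.g (nat_lit 1328) (.e (nat_lit 98387) (nat_lit 33) (.e (nat_lit 491571) (nat_lit 13) (.e (nat_lit 393224) (nat_lit 9) .nil))) .nil))) (.nd (nat_lit 6) 
(.lf (nat_lit 232882) (.g (nat_lit 3241) (.e (nat_lit 98387) (nat_lit 33) (.e (nat_lit 491566) (nat_lit 12) (.e (nat_lit 385074) (nat_lit 31) (.e (nat_lit 573482) (nat_lit 13) (.e (nat_lit 65603) (nat_lit 9) .nil))))) .nil)) 
(.lf (nat_lit 232946) (.g (nat_lit 2109) (.e (nat_lit 98387) (nat_lit 33) (.e (nat_lit 491571) (nat_lit 13) (.e (nat_lit 393251) (nat_lit 18) (.e (nat_lit 171776) (nat_lit 166) .nil)))) .nil))))) (.nd (nat_lit 4) (.nd (nat_lit 5) (.nd (nat_lit 6) 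
(.lf (nat_lit 232842) (.g (nat_lit 2996) (.e (nat_lit 98387) (nat_lit 33) (.e (nat_lit 491563) (nat_lit 12) (.e (nat_lit 385074) (nat_lit 31) (.e (nat_lit 573482) (nat_lit 13) .nil)))) .nil)) 
(.lf (nat_lit 232906) (.g (nat_lit 1743) (.e (nat_lit 98387) (nat_lit 33) (.e (nat_lit 491570) (nat_lit 13) (.e (nat_lit 393238) (nat_lit 17) (.e (nat_lit 3529) (nat_lit 218) .nil)))) .nil))) (.nd (nat_lit 6) 
(.lf (nat_lit 232874) (.g (nat_lit 1513) (.e (nat_lit 98387) (nat_lit 33) (.e (nat_lit 491566) (nat_lit 12) (.e (nat_lit 385072) (nat_lit 31) (.e (nat_lit 573496) (nat_lit 17) .nil)))) .nil)) 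
(.lf (nat_lit 232938) (.g (nat_lit 1874) (.e (nat_lit 98387) (nat_lit 33) (.e (nat_lit 491571) (nat_lit 13) (.e (nat_lit 393238) (nat_lit 17) (.e (nat_lit 3550) (nat_lit 220) .nil)))) .nil)))) (.nd (nat_lit 5) (.nd (nat_lit 6) 
(.lf (nat_lit 232858) (.g (nat_lit 1469) (.e (nat_lit 98387) (nat_lit 33) (.e (nat_lit 491566) (nat_lit 12) (.e (nat_lit 385049) (nat_lit 21) .nil))) .nil)) 
(.lf (nat_lit 232922) (.g (nat_lit 1544) (.e (nat_lit 98387) (nat_lit 33) (.e (nat_lit 491571) (nat_lit 13) (.e (nat_lit 393232) (nat_lit 17) (.e (nat_lit 3551) (nat_lit 220) .nil)))) .nil))) (.nd (nat_lit 6) 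
(.lf (nat_lit 232890) (.g (nat_lit 1103) (.e (nat_lit 98387) (nat_lit 33) (.e (nat_lit 491569) (nat_lit 13) (.e (nat_lit 393229) (nat_lit 9) .nil))) .nil)) 
(.lf (nat_lit 232954) (.g (nat_lit 670) (.e (nat_lit 98388) (nat_lit 33) (.e (nat_lit 491547) (nat_lit 9) (.e (nat_lit 336284) (nat_lit 15) .nil))) .nil)))))) (.nd (nat_lit 3) (.nd (nat_lit 4) (.nd (nat_lit 5) (.nd (nat_lit 6) 
(.lf (nat_lit 232838) (.g (nat_lit 3899) (.e (nat_lit 98387) (nat_lit 33) (.e (nat_lit 491563) (nat_lit 12) (.e (nat_lit 385074) (nat_lit 31) (.e (nat_lit 573449) (nat_lit 9) .nil)))) .nil)) 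
(.lf (nat_lit 232902) (.g (nat_lit 749) (.e (nat_lit 98387) (nat_lit 33) (.e (nat_lit 491570) (nat_lit 13) (.e (nat_lit 401152) (nat_lit 10) .nil))) .nil))) (.nd (nat_lit 6) 
(.lf (nat_lit 232870) (.g (nat_lit 470) (.e (nat_lit 98387) (nat_lit 33) (.e (nat_lit 491566) (nat_lit 12) (.e (nat_lit 385072) (nat_lit 31) .nil))) .nil)) 
(.lf (nat_lit 232934) (.g (nat_lit 1873) (.e (nat_lit 98387) (nat_lit 33) (.e (nat_lit 491571) (nat_lit 13) (.e (nat_lit 393238) (nat_lit 17) (.e (nat_lit 3486) (nat_lit 218) .nil)))) .nil)))) (.nd (nat_lit 5) (.nd (nat_lit 6) 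
(.lf (nat_lit 232854) (.g (nat_lit 738) (.e (nat_lit 98387) (nat_lit 33) (.e (nat_lit 491566) (nat_lit 12) (.e (nat_lit 385045) (nat_lit 21) .nil))) .nil)) 
(.lf (nat_lit 232918) (.g (nat_lit 1093) (.e (nat_lit 98387) (nat_lit 33) (.e (nat_lit 491571) (nat_lit 13) (.e (nat_lit 393231) (nat_lit 17) (.e (nat_lit 3557) (nat_lit 220) .nil)))) .nil))) (.nd (nat_lit 6) 
(.lf (nat_lit 232886) (.g (nat_lit 1228) (.e (nat_lit 98387) (nat_lit 33) (.e (nat_lit 491566) (nat_lit 12) (.e (nat_lit 385075) (nat_lit 32) .nil))) .nil)) 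
(.lf (nat_lit 232950) (.g (nat_lit 2492) (.e (nat_lit 98388) (nat_lit 33) (.e (nat_lit 491546) (nat_lit 9) (.e (nat_lit 336013) (nat_lit 2) (.e (nat_lit 90165) (nat_lit 12) (.e (nat_lit 164236) (nat_lit 187) .nil))))) .nil))))) (.nd (nat_lit 4) (.nd (nat_lit 5) (.nd (nat_lit 6) 
(.lf (nat_lit 232846) (.g (nat_lit 3896) (.e (nat_lit 98387) (nat_lit 33) (.e (nat_lit 491565) (nat_lit 12) (.e (nat_lit 385072) (nat_lit 31) (.e (nat_lit 573492) (nat_lit 15) (.e (nat_lit 81956) (nat_lit 23) .nil))))) (.g (nat_lit 0) .nil .nil))) 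
(.lf (nat_lit 232910) (.g (nat_lit 1642) (.e (nat_lit 98387) (nat_lit 33) (.e (nat_lit 491570) (nat_lit 13) (.e (nat_lit 393238) (nat_lit 17) (.e (nat_lit 3562) (nat_lit 221) .nil)))) .nil))) (.nd (nat_lit 6) 
(.lf (nat_lit 232878) (.g (nat_lit 2218) (.e (nat_lit 98387) (nat_lit 33) (.e (nat_lit 491566) (nat_lit 12) (.e (nat_lit 385074) (nat_lit 31) (.e (nat_lit 573449) (nat_lit 9) .nil)))) .nil)) 
(.lf (nat_lit 232942) (.g (nat_lit 564) (.e (nat_lit 98387) (nat_lit 33) (.e (nat_lit 491571) (nat_lit 13) (.e (nat_lit 393242) (nat_lit 17) .nil))) .nil)))) (.nd (nat_lit 5) (.nd (nat_lit 6) 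
(.lf (nat_lit 232862) (.g (nat_lit 1463) (.e (nat_lit 98387) (nat_lit 33) (.e (nat_lit 491566) (nat_lit 12) (.e (nat_lit 385053) (nat_lit 21) .nil))) .nil)) 
(.lf (nat_lit 232926) (.g (nat_lit 1593) (.e (nat_lit 98387) (nat_lit 33) (.e (nat_lit 491571) (nat_lit 13) (.e (nat_lit 393232) (nat_lit 17) (.e (nat_lit 3556) (nat_lit 220) (.e (nat_lit 720955) (nat_lit 25) .nil))))) .nil))) (.nd (nat_lit 6) 
(.lf (nat_lit 232894) (.g (nat_lit 1014) (.e (nat_lit 98387) (nat_lit 33) (.e (nat_lit 491569) (nat_lit 13) (.e (nat_lit 393233) (nat_lit 17) .nil))) .nil)) 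
(.lf (nat_lit 232958) (.g (nat_lit 2739) (.e (nat_lit 98388) (nat_lit 33) (.e (nat_lit 491558) (nat_lit 10) (.e (nat_lit 344126) (nat_lit 25) (.e (nat_lit 548891) (nat_lit 11) (.e (nat_lit 81956) (nat_lit 23) .nil))))) .nil)))))))) (.nd (nat_lit 1) (.nd (nat_lit 2) (.nd (nat_lit 3) (.nd (nat_lit 4) (.nd (nat_lit 5) (.nd (nat_lit 6) 
(.lf (nat_lit 232833) (.g (nat_lit 3710) (.e (nat_lit 98387) (nat_lit 33) (.e (nat_lit 491562) (nat_lit 12) (.e (nat_lit 385074) (nat_lit 31) (.e (nat_lit 573482) (nat_lit 13) (.e (nat_lit 65604) (nat_lit 9) .nil))))) .nil)) 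
(.lf (nat_lit 232897) (.g (nat_lit 2030) (.e (nat_lit 98387) (nat_lit 33) (.e (nat_lit 491569) (nat_lit 13) (.e (nat_lit 393234) (nat_lit 17) (.e (nat_lit 3557) (nat_lit 220) .nil)))) .nil))) (.nd (nat_lit 6) 
(.lf (nat_lit 232865) (.g (nat_lit 1469) (.e (nat_lit 98387) (nat_lit 33) (.e (nat_lit 491566) (nat_lit 12) (.e (nat_lit 385066) (nat_lit 26) .nil))) .nil)) 
(.lf (nat_lit 232929) (.g (nat_lit 1544) (.e (nat_lit 98387) (nat_lit 33) (.e (nat_lit 491571) (nat_lit 13) (.e (nat_lit 393232) (nat_lit 17) (.e (nat_lit 3561) (nat_lit 221) .nil)))) .nil)))) (.nd (nat_lit 5) (.nd (nat_lit 6) 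
(.lf (nat_lit 232849) (.g (nat_lit 3310) (.e (nat_lit 98387) (nat_lit 33) (.e (nat_lit 491565) (nat_lit 12) (.e (nat_lit 385073) (nat_lit 31) (.e (nat_lit 573485) (nat_lit 13) (.e (nat_lit 65604) (nat_lit 9) (.e (nat_lit 336028) (nat_lit 3) .nil)))))) (.g (nat_lit 0) .nil .nil))) 
(.lf (nat_lit 232913) (.g (nat_lit 910) (.e (nat_lit 98387) (nat_lit 33) (.e (nat_lit 491570) (nat_lit 13) (.e (nat_lit 393257) (nat_lit 20) .nil))) .nil))) (.nd (nat_lit 6) 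
(.lf (nat_lit 232881) (.g (nat_lit 3042) (.e (nat_lit 98387) (nat_lit 33) (.e (nat_lit 491566) (nat_lit 12) (.e (nat_lit 385074) (nat_lit 31) (.e (nat_lit 573481) (nat_lit 13) (.e (nat_lit 65604) (nat_lit 9) .nil))))) .nil)) 
(.lf (nat_lit 232945) (.g (nat_lit 2063) (.e (nat_lit 98387) (nat_lit 33) (.e (nat_lit 491571) (nat_lit 13) (.e (nat_lit 393251) (nat_lit 18) (.e (nat_lit 164190) (nat_lit 157) .nil)))) .nil))))) (.nd (nat_lit 4) (.nd (nat_lit 5) (.nd (nat_lit 6) 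
(.lf (nat_lit 232841) (.g (nat_lit 3958) (.e (nat_lit 98387) (nat_lit 33) (.e (nat_lit 491563) (nat_lit 12) (.e (nat_lit 385074) (nat_lit 31) (.e (nat_lit 573481) (nat_lit 13) .nil)))) .nil)) 
(.lf (nat_lit 232905) (.g (nat_lit 1743) (.e (nat_lit 98387) (nat_lit 33) (.e (nat_lit 491570) (nat_lit 13) (.e (nat_lit 393238) (nat_lit 17) (.e (nat_lit 3486) (nat_lit 218) .nil)))) .nil))) (.nd (nat_lit 6) 
(.lf (nat_lit 232873) (.g (nat_lit 3958) (.e (nat_lit 98387) (nat_lit 33) (.e (nat_lit 491566) (nat_lit 12) (.e (nat_lit 385072) (nat_lit 31) (.e (nat_lit 573485) (nat_lit 13) (.e (nat_lit 65604) (nat_lit 9) (.e (nat_lit 336028) (nat_lit 3) .nil)))))) (.g (nat_lit 6) .nil .nil))) 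
(.lf (nat_lit 232937) (.g (nat_lit 1861) (.e (nat_lit 98387) (nat_lit 33) (.e (nat_lit 491571) (nat_lit 13) (.e (nat_lit 393238) (nat_lit 17) (.e (nat_lit 3536) (nat_lit 218) .nil)))) .nil)))) (.nd (nat_lit 5) (.nd (nat_lit 6) 
(.lf (nat_lit 232857) (.g (nat_lit 1469) (.e (nat_lit 98387) (nat_lit 33) (.e (nat_lit 491566) (nat_lit 12) (.e (nat_lit 385048) (nat_lit 21) .nil))) .nil)) 
(.lf (nat_lit 232921) (.g (nat_lit 1545) (.e (nat_lit 98387) (nat_lit 33) (.e (nat_lit 491571) (nat_lit 13) (.e (nat_lit 393232) (nat_lit 17) (.e (nat_lit 3541) (nat_lit 218) .nil)))) .nil))) (.nd (nat_lit 6) 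
(.lf (nat_lit 232889) (.g (nat_lit 1103) (.e (nat_lit 98387) (nat_lit 33) (.e (nat_lit 491569) (nat_lit 13) (.e (nat_lit 393227) (nat_lit 9) .nil))) .nil)) 
(.lf (nat_lit 232953) (.g (nat_lit 1639) (.e (nat_lit 98388) (nat_lit 33) (.e (nat_lit 491546) (nat_lit 9) (.e (nat_lit 336028) (nat_lit 3) (.e (nat_lit 98387) (nat_lit 33) .nil)))) .nil)))))) (.nd (nat_lit 3) (.nd (nat_lit 4) (.nd (nat_lit 5) (.nd (nat_lit 6) 
(.lf (nat_lit 232837) (.g (nat_lit 2341) (.e (nat_lit 98387) (nat_lit 33) (.e (nat_lit 491563) (nat_lit 12) (.e (nat_lit 385073) (nat_lit 31) (.e (nat_lit 573482) (nat_lit 13) (.e (nat_lit 65604) (nat_lit 9) .nil))))) .nil)) 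
(.lf (nat_lit 232901) (.g (nat_lit 1089) (.e (nat_lit 98387) (nat_lit 33) (.e (nat_lit 491569) (nat_lit 13) (.e (nat_lit 393258) (nat_lit 20) .nil))) .nil))) (.nd (nat_lit 6) 
(.lf (nat_lit 232869) (.g (nat_lit 1350) (.e (nat_lit 98387) (nat_lit 33) (.e (nat_lit 491566) (nat_lit 12) (.e (nat_lit 385070) (nat_lit 28) .nil))) .nil)) 
(.lf (nat_lit 232933) (.g (nat_lit 1874) (.e (nat_lit 98387) (nat_lit 33) (.e (nat_lit 491571) (nat_lit 13) (.e (nat_lit 393238) (nat_lit 17) (.e (nat_lit 3480) (nat_lit 218) .nil)))) .nil)))) (.nd (nat_lit 5) (.nd (nat_lit 6) 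
(.lf (nat_lit 232853) (.g (nat_lit 1299) (.e (nat_lit 98387) (nat_lit 33) (.e (nat_lit 491566) (nat_lit 12) (.e (nat_lit 385044) (nat_lit 21) .nil))) .nil)) 
(.lf (nat_lit 232917) (.g (nat_lit 654) (.e (nat_lit 98387) (nat_lit 33) (.e (nat_lit 491571) (nat_lit 13) (.e (nat_lit 393231) (nat_lit 17) .nil))) .nil))) (.nd (nat_lit 6) 
(.lf (nat_lit 232885) (.g (nat_lit 4195) (.e (nat_lit 98387) (nat_lit 33) (.e (nat_lit 491566) (nat_lit 12) (.e (nat_lit 385074) (nat_lit 31) (.e (nat_lit 573485) (nat_lit 13) (.e (nat_lit 65604) (nat_lit 9) (.e (nat_lit 336028) (nat_lit 3) .nil)))))) (.g (nat_lit 0) .nil .nil))) 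
(.lf (nat_lit 232949) (.g (nat_lit 1629) (.e (nat_lit 98388) (nat_lit 33) (.e (nat_lit 491546) (nat_lit 9) (.e (nat_lit 336013) (nat_lit 2) (.e (nat_lit 90165) (nat_lit 12) .nil)))) .nil))))) (.nd (nat_lit 4) (.nd (nat_lit 5) (.nd (nat_lit 6) 
(.lf (nat_lit 232845) (.g (nat_lit 3726) (.e (nat_lit 98387) (nat_lit 33) (.e (nat_lit 491565) (nat_lit 12) (.e (nat_lit 385072) (nat_lit 31) (.e (nat_lit 573485) (nat_lit 13) (.e (nat_lit 65604) (nat_lit 9) (.e (nat_lit 336028) (nat_lit 3) .nil)))))) (.g (nat_lit 6) .nil .nil))) 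
(.lf (nat_lit 232909) (.g (nat_lit 1740) (.e (nat_lit 98387) (nat_lit 33) (.e (nat_lit 491570) (nat_lit 13) (.e (nat_lit 393238) (nat_lit 17) (.e (nat_lit 3560) (nat_lit 221) .nil)))) .nil))) (.nd (nat_lit 6) 
(.lf (nat_lit 232877) (.g (nat_lit 430) (.e (nat_lit 98387) (nat_lit 33) (.e (nat_lit 491566) (nat_lit 12) (.e (nat_lit 385074) (nat_lit 31) .nil))) .nil)) 
(.lf (nat_lit 232941) (.g (nat_lit 1874) (.e (nat_lit 98387) (nat_lit 33) (.e (nat_lit 491571) (nat_lit 13) (.e (nat_lit 393238) (nat_lit 17) (.e (nat_lit 3563) (nat_lit 221) .nil)))) .nil)))) (.nd (nat_lit 5) (.nd (nat_lit 6) 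
(.lf (nat_lit 232861) (.g (nat_lit 1469) (.e (nat_lit 98387) (nat_lit 33) (.e (nat_lit 491566) (nat_lit 12) (.e (nat_lit 385052) (nat_lit 21) .nil))) .nil)) 
(.lf (nat_lit 232925) (.g (nat_lit 1544) (.e (nat_lit 98387) (nat_lit 33) (.e (nat_lit 491571) (nat_lit 13) (.e (nat_lit 393232) (nat_lit 17) (.e (nat_lit 3556) (nat_lit 220) .nil)))) .nil))) (.nd (nat_lit 6) 
(.lf (nat_lit 232893) (.g (nat_lit 2298) (.e (nat_lit 98387) (nat_lit 33) (.e (nat_lit 491569) (nat_lit 13) (.e (nat_lit 393229) (nat_lit 9) (.e (nat_lit 335994) (nat_lit 1) .nil)))) .nil)) 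
(.lf (nat_lit 232957) (.g (nat_lit 1665) (.e (nat_lit 98388) (nat_lit 33) (.e (nat_lit 491558) (nat_lit 10) (.e (nat_lit 344126) (nat_lit 25) (.e (nat_lit 548873) (nat_lit 5) .nil)))) .nil))))))) (.nd (nat_lit 2) (.nd (nat_lit 3) (.nd (nat_lit 4) (.nd (nat_lit 5) (.nd (nat_lit 6) 
(.lf (nat_lit 232835) (.g (nat_lit 1263) (.e (nat_lit 98387) (nat_lit 33) (.e (nat_lit 491563) (nat_lit 12) (.e (nat_lit 385072) (nat_lit 31) .nil))) .nil)) 
(.lf (nat_lit 232899) (.g (nat_lit 823) (.e (nat_lit 98387) (nat_lit 33) (.e (nat_lit 491569) (nat_lit 13) (.e (nat_lit 393238) (nat_lit 17) .nil))) .nil))) (.nd (nat_lit 6) 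
(.lf (nat_lit 232867) (.g (nat_lit 869) (.e (nat_lit 98387) (nat_lit 33) (.e (nat_lit 491566) (nat_lit 12) (.e (nat_lit 385068) (nat_lit 26) .nil))) .nil)) 
(.lf (nat_lit 232931) (.g (nat_lit 500) (.e (nat_lit 98387) (nat_lit 33) (.e (nat_lit 491571) (nat_lit 13) (.e (nat_lit 393235) (nat_lit 17) .nil))) .nil)))) (.nd (nat_lit 5) (.nd (nat_lit 6) 
(.lf (nat_lit 232851) (.g (nat_lit 4042) (.e (nat_lit 98387) (nat_lit 33) (.e (nat_lit 491565) (nat_lit 12) (.e (nat_lit 385074) (nat_lit 31) (.e (nat_lit 573485) (nat_lit 13) (.e (nat_lit 65604) (nat_lit 9) (.e (nat_lit 336028) (nat_lit 3) .nil)))))) (.g (nat_lit 6) .nil .nil))) 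
(.lf (nat_lit 232915) (.g (nat_lit 1006) (.e (nat_lit 98387) (nat_lit 33) (.e (nat_lit 491571) (nat_lit 13) (.e (nat_lit 393225) (nat_lit 9) .nil))) .nil))) (.nd (nat_lit 6) 
(.lf (nat_lit 232883) (.g (nat_lit 4782) (.e (nat_lit 98387) (nat_lit 33) (.e (nat_lit 491566) (nat_lit 12) (.e (nat_lit 385074) (nat_lit 31) (.e (nat_lit 573482) (nat_lit 13) (.e (nat_lit 65604) (nat_lit 9) (.e (nat_lit 336028) (nat_lit 3) .nil)))))) (.g (nat_lit 0) .nil .nil))) 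
(.lf (nat_lit 232947) (.g (nat_lit 1872) (.e (nat_lit 98387) (nat_lit 33) (.e (nat_lit 491571) (nat_lit 13) (.e (nat_lit 393252) (nat_lit 18) (.e (nat_lit 171776) (nat_lit 166) .nil)))) .nil))))) (.nd (nat_lit 4) (.nd (nat_lit 5) (.nd (nat_lit 6) 
(.lf (nat_lit 232843) (.g (nat_lit 4221) (.e (nat_lit 98387) (nat_lit 33) (.e (nat_lit 491563) (nat_lit 12) (.e (nat_lit 385074) (nat_lit 31) (.e (nat_lit 573482) (nat_lit 13) (.e (nat_lit 65604) (nat_lit 9) .nil))))) .nil)) 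
(.lf (nat_lit 232907) (.g (nat_lit 1740) (.e (nat_lit 98387) (nat_lit 33) (.e (nat_lit 491570) (nat_lit 13) (.e (nat_lit 393238) (nat_lit 17) (.e (nat_lit 3550) (nat_lit 220) .nil)))) .nil))) (.nd (nat_lit 6) 
(.lf (nat_lit 232875) (.g (nat_lit 422) (.e (nat_lit 98387) (nat_lit 33) (.e (nat_lit 491566) (nat_lit 12) (.e (nat_lit 385073) (nat_lit 31) .nil))) .nil)) 
(.lf (nat_lit 232939) (.g (nat_lit 1848) (.e (nat_lit 98387) (nat_lit 33) (.e (nat_lit 491571) (nat_lit 13) (.e (nat_lit 393238) (nat_lit 17) (.e (nat_lit 3558) (nat_lit 221) .nil)))) .nil)))) (.nd (nat_lit 5) (.nd (nat_lit 6) 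
(.lf (nat_lit 232859) (.g (nat_lit 1328) (.e (nat_lit 98387) (nat_lit 33) (.e (nat_lit 491566) (nat_lit 12) (.e (nat_lit 385050) (nat_lit 21) .nil))) .nil)) 
(.lf (nat_lit 232923) (.g (nat_lit 1544) (.e (nat_lit 98387) (nat_lit 33) (.e (nat_lit 491571) (nat_lit 13) (.e (nat_lit 393232) (nat_lit 17) (.e (nat_lit 3554) (nat_lit 220) .nil)))) .nil))) (.nd (nat_lit 6) 
(.lf (nat_lit 232891) (.g (nat_lit 2028) (.e (nat_lit 98387) (nat_lit 33) (.e (nat_lit 491569) (nat_lit 13) (.e (nat_lit 393229) (nat_lit 9) (.e (nat_lit 335892) (nat_lit 0) .nil)))) .nil)) 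
(.lf (nat_lit 232955) (.g (nat_lit 585) (.e (nat_lit 98388) (nat_lit 33) (.e (nat_lit 491558) (nat_lit 10) (.e (nat_lit 344115) (nat_lit 20) .nil))) .nil)))))) (.nd (nat_lit 3) (.nd (nat_lit 4) (.nd (nat_lit 5) (.nd (nat_lit 6) 
(.lf (nat_lit 232839) (.g (nat_lit 4038) (.e (nat_lit 98387) (nat_lit 33) (.e (nat_lit 491563) (nat_lit 12) (.e (nat_lit 385074) (nat_lit 31) (.e (nat_lit 573452) (nat_lit 9) .nil)))) .nil)) 
(.lf (nat_lit 232903) (.g (nat_lit 536) (.e (nat_lit 98387) (nat_lit 33) (.e (nat_lit 491570) (nat_lit 13) (.e (nat_lit 393238) (nat_lit 17) .nil))) .nil))) (.nd (nat_lit 6) 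
(.lf (nat_lit 232871) (.g (nat_lit 1513) (.e (nat_lit 98387) (nat_lit 33) (.e (nat_lit 491566) (nat_lit 12) (.e (nat_lit 385072) (nat_lit 31) (.e (nat_lit 573479) (nat_lit 13) .nil)))) .nil)) 
(.lf (nat_lit 232935) (.g (nat_lit 1874) (.e (nat_lit 98387) (nat_lit 33) (.e (nat_lit 491571) (nat_lit 13) (.e (nat_lit 393238) (nat_lit 17) (.e (nat_lit 3512) (nat_lit 218) .nil)))) .nil)))) (.nd (nat_lit 5) (.nd (nat_lit 6) 
(.lf (nat_lit 232855) (.g (nat_lit 731) (.e (nat_lit 98387) (nat_lit 33) (.e (nat_lit 491566) (nat_lit 12) (.e (nat_lit 385046) (nat_lit 21) .nil))) .nil)) 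
(.lf (nat_lit 232919) (.g (nat_lit 503) (.e (nat_lit 98387) (nat_lit 33) (.e (nat_lit 491571) (nat_lit 13) (.e (nat_lit 393232) (nat_lit 17) .nil))) .nil))) (.nd (nat_lit 6) 
(.lf (nat_lit 232887) (.g (nat_lit 1835) (.e (nat_lit 98387) (nat_lit 33) (.e (nat_lit 491568) (nat_lit 13) (.e (nat_lit 393229) (nat_lit 9) (.e (nat_lit 335892) (nat_lit 0) .nil)))) .nil)) 
(.lf (nat_lit 232951) (.g (nat_lit 1445) (.e (nat_lit 98388) (nat_lit 33) (.e (nat_lit 491546) (nat_lit 9) (.e (nat_lit 336028) (nat_lit 3) (.e (nat_lit 98325) (nat_lit 17) .nil)))) .nil))))) (.nd (nat_lit 4) (.nd (nat_lit 5) (.nd (nat_lit 6) 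
(.lf (nat_lit 232847) (.g (nat_lit 4315) (.e (nat_lit 98387) (nat_lit 33) (.e (nat_lit 491565) (nat_lit 12) (.e (nat_lit 385072) (nat_lit 31) (.e (nat_lit 573493) (nat_lit 15) (.e (nat_lit 81956) (nat_lit 23) .nil))))) (.g (nat_lit 0) .nil .nil))) 
(.lf (nat_lit 232911) (.g (nat_lit 1743) (.e (nat_lit 98387) (nat_lit 33) (.e (nat_lit 491570) (nat_lit 13) (.e (nat_lit 393238) (nat_lit 17) (.e (nat_lit 3563) (nat_lit 221) .nil)))) .nil))) (.nd (nat_lit 6) 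
(.lf (nat_lit 232879) (.g (nat_lit 1947) (.e (nat_lit 98387) (nat_lit 33) (.e (nat_lit 491566) (nat_lit 12) (.e (nat_lit 385074) (nat_lit 31) (.e (nat_lit 573452) (nat_lit 9) .nil)))) .nil)) 
(.lf (nat_lit 232943) (.g (nat_lit 1367) (.e (nat_lit 98387) (nat_lit 33) (.e (nat_lit 491571) (nat_lit 13) (.e (nat_lit 393242) (nat_lit 17) (.e (nat_lit 3537) (nat_lit 218) (.e (nat_lit 704620) (nat_lit 9) .nil))))) .nil)))) (.nd (nat_lit 5) (.nd (nat_lit 6) 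
(.lf (nat_lit 232863) (.g (nat_lit 1372) (.e (nat_lit 98387) (nat_lit 33) (.e (nat_lit 491566) (nat_lit 12) (.e (nat_lit 385054) (nat_lit 21) .nil))) .nil)) 
(.lf (nat_lit 232927) (.g (nat_lit 1544) (.e (nat_lit 98387) (nat_lit 33) (.e (nat_lit 491571) (nat_lit 13) (.e (nat_lit 393232) (nat_lit 17) (.e (nat_lit 3557) (nat_lit 220) .nil)))) .nil))) (.nd (nat_lit 6) 
(.lf (nat_lit 232895) (.g (nat_lit 1973) (.e (nat_lit 98387) (nat_lit 33) (.e (nat_lit 491569) (nat_lit 13) (.e (nat_lit 393234) (nat_lit 17) (.e (nat_lit 3555) (nat_lit 220) .nil)))) .nil)) 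
(.lf (nat_lit 232959) (.g (nat_lit 583) (.e (nat_lit 98388) (nat_lit 33) (.e (nat_lit 491558) (nat_lit 10) (.e (nat_lit 344129) (nat_lit 26) .nil))) .nil)))))))))

noncomputable def tv3047 : DT := (.nd (nat_lit 0) (.nd (nat_lit 1) (.nd (nat_lit 2) (.nd (nat_lit 3) (.nd (nat_lit 4) (.nd (nat_lit 5) (.nd (nat_lit 6) 
(.lf (nat_lit 232960) (.g (nat_lit 2185) (.e (nat_lit 98388) (nat_lit 33) (.e (nat_lit 491558) (nat_lit 10) (.e (nat_lit 344129) (nat_lit 26) (.e (nat_lit 557087) (nat_lit 11) (.e (nat_lit 24628) (nat_lit 9) .nil))))) .nil)) 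
(.lf (nat_lit 233024) (.g (nat_lit 961) (.e (nat_lit 98388) (nat_lit 33) (.e (nat_lit 491560) (nat_lit 10) (.e (nat_lit 344130) (nat_lit 26) (.e (nat_lit 557074) (nat_lit 9) .nil)))) .nil))) (.nd (nat_lit 6) 
(.lf (nat_lit 232992) (.g (nat_lit 2291) (.e (nat_lit 98388) (nat_lit 33) (.e (nat_lit 491560) (nat_lit 10) (.e (nat_lit 344118) (nat_lit 21) (.e (nat_lit 516182) (nat_lit 15) (.e (nat_lit 475211) (nat_lit 41) (.e (nat_lit 720640) (nat_lit 3) .nil)))))) (.g (nat_lit 4) .nil .nil))) 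
(.lf (nat_lit 233056) (.g (nat_lit 1191) (.e (nat_lit 98388) (nat_lit 33) (.e (nat_lit 491566) (nat_lit 12) (.e (nat_lit 385044) (nat_lit 21) .nil))) .nil)))) (.nd (nat_lit 5) (.nd (nat_lit 6) 
(.lf (nat_lit 232976) (.g (nat_lit 2571) (.e (nat_lit 98388) (nat_lit 33) (.e (nat_lit 491560) (nat_lit 10) (.e (nat_lit 344117) (nat_lit 21) (.e (nat_lit 516098) (nat_lit 0) (.e (nat_lit 7589) (nat_lit 406) .nil))))) .nil)) 
(.lf (nat_lit 233040) (.g (nat_lit 3448) (.e (nat_lit 98388) (nat_lit 33) (.e (nat_lit 491560) (nat_lit 10) (.e (nat_lit 344133) (nat_lit 26) (.e (nat_lit 557087) (nat_lit 11) (.e (nat_lit 24636) (nat_lit 9) (.e (nat_lit 336017) (nat_lit 3) .nil)))))) (.g (nat_lit 4) .nil .nil)))) (.nd (nat_lit 6) 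
(.lf (nat_lit 233008) (.g (nat_lit 2321) (.e (nat_lit 98388) (nat_lit 33) (.e (nat_lit 491560) (nat_lit 10) (.e (nat_lit 344129) (nat_lit 26) (.e (nat_lit 557067) (nat_lit 9) (.e (nat_lit 7936) (nat_lit 26) .nil))))) .nil)) 
(.lf (nat_lit 233072) (.g (nat_lit 3405) (.e (nat_lit 98388) (nat_lit 33) (.e (nat_lit 491571) (nat_lit 13) (.e (nat_lit 393225) (nat_lit 9) (.e (nat_lit 335996) (nat_lit 1) (.e (nat_lit 57921) (nat_lit 280) .nil))))) .nil))))) (.nd (nat_lit 4) (.nd (nat_lit 5) (.nd (nat_lit 6) 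
(.lf (nat_lit 232968) (.g (nat_lit 852) (.e (nat_lit 98388) (nat_lit 33) (.e (nat_lit 491560) (nat_lit 10) (.e (nat_lit 344107) (nat_lit 19) .nil))) .nil)) 
(.lf (nat_lit 233032) (.g (nat_lit 1405) (.e (nat_lit 98388) (nat_lit 33) (.e (nat_lit 491560) (nat_lit 10) (.e (nat_lit 344132) (nat_lit 26) (.e (nat_lit 557073) (nat_lit 9) .nil)))) .nil))) (.nd (nat_lit 6) 
(.lf (nat_lit 233000) (.g (nat_lit 3153) (.e (nat_lit 98388) (nat_lit 33) (.e (nat_lit 491560) (nat_lit 10) (.e (nat_lit 344129) (nat_lit 26) (.e (nat_lit 557065) (nat_lit 9) (.e (nat_lit 309) (nat_lit 23) .nil))))) .nil)) 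
(.lf (nat_lit 233064) (.g (nat_lit 1060) (.e (nat_lit 98388) (nat_lit 33) (.e (nat_lit 491569) (nat_lit 13) (.e (nat_lit 393229) (nat_lit 9) .nil))) .nil)))) (.nd (nat_lit 5) (.nd (nat_lit 6) 
(.lf (nat_lit 232984) (.g (nat_lit 3466) (.e (nat_lit 98388) (nat_lit 33) (.e (nat_lit 491560) (nat_lit 10) (.e (nat_lit 344117) (nat_lit 21) (.e (nat_lit 516185) (nat_lit 16) (.e (nat_lit 491547) (nat_lit 9) (.e (nat_lit 336019) (nat_lit 3) .nil)))))) (.g (nat_lit 5) .nil .nil))) 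
(.lf (nat_lit 233048) (.g (nat_lit 4219) (.e (nat_lit 98388) (nat_lit 33) (.e (nat_lit 491563) (nat_lit 12) (.e (nat_lit 385074) (nat_lit 31) (.e (nat_lit 573490) (nat_lit 15) (.e (nat_lit 81956) (nat_lit 23) .nil))))) .nil))) (.nd (nat_lit 6) 
(.lf (nat_lit 233016) (.g (nat_lit 2400) (.e (nat_lit 98388) (nat_lit 33) (.e (nat_lit 491560) (nat_lit 10) (.e (nat_lit 344129) (nat_lit 26) (.e (nat_lit 557085) (nat_lit 11) (.e (nat_lit 24628) (nat_lit 9) .nil))))) .nil)) 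
(.lf (nat_lit 233080) (.g (nat_lit 2013) (.e (nat_lit 98388) (nat_lit 33) (.e (nat_lit 491571) (nat_lit 13) (.e (nat_lit 393232) (nat_lit 17) (.e (nat_lit 3542) (nat_lit 218) .nil)))) .nil)))))) (.nd (nat_lit 3) (.nd (nat_lit 4) (.nd (nat_lit 5) (.nd (nat_lit 6) 
(.lf (nat_lit 232964) (.g (nat_lit 1350) (.e (nat_lit 98388) (nat_lit 33) (.e (nat_lit 491560) (nat_lit 10) (.e (nat_lit 344088) (nat_lit 18) (.e (nat_lit 4049) (nat_lit 245) .nil)))) .nil)) 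
(.lf (nat_lit 233028) (.g (nat_lit 779) (.e (nat_lit 98388) (nat_lit 33) (.e (nat_lit 491560) (nat_lit 10) (.e (nat_lit 344132) (nat_lit 26) .nil))) .nil))) (.nd (nat_lit 6) 
(.lf (nat_lit 232996) (.g (nat_lit 1784) (.e (nat_lit 98388) (nat_lit 33) (.e (nat_lit 491560) (nat_lit 10) (.e (nat_lit 344126) (nat_lit 25) (.e (nat_lit 548874) (nat_lit 5) .nil)))) .nil)) 
(.lf (nat_lit 233060) (.g (nat_lit 4952) (.e (nat_lit 98388) (nat_lit 33) (.e (nat_lit 491566) (nat_lit 12) (.e (nat_lit 385072) (nat_lit 31) (.e (nat_lit 573493) (nat_lit 15) (.e (nat_lit 81956) (nat_lit 23) .nil))))) (.g (nat_lit 0) .nil .nil))))) (.nd (nat_lit 5) (.nd (nat_lit 6) 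
(.lf (nat_lit 232980) (.g (nat_lit 3288) (.e (nat_lit 98388) (nat_lit 33) (.e (nat_lit 491560) (nat_lit 10) (.e (nat_lit 344117) (nat_lit 21) (.e (nat_lit 516139) (nat_lit 7) (.e (nat_lit 409641) (nat_lit 17) .nil))))) .nil)) 
(.lf (nat_lit 233044) (.g (nat_lit 4019) (.e (nat_lit 98388) (nat_lit 33) (.e (nat_lit 491562) (nat_lit 12) (.e (nat_lit 385074) (nat_lit 31) (.e (nat_lit 573492) (nat_lit 15) (.e (nat_lit 81956) (nat_lit 23) .nil))))) (.g (nat_lit 5) .nil .nil)))) (.nd (nat_lit 6) 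
(.lf (nat_lit 233012) (.g (nat_lit 2703) (.e (nat_lit 98388) (nat_lit 33) (.e (nat_lit 491560) (nat_lit 10) (.e (nat_lit 344129) (nat_lit 26) (.e (nat_lit 557074) (nat_lit 9) (.e (nat_lit 250) (nat_lit 21) .nil))))) .nil)) 
(.lf (nat_lit 233076) (.g (nat_lit 916) (.e (nat_lit 98388) (nat_lit 33) (.e (nat_lit 491571) (nat_lit 13) (.e (nat_lit 393232) (nat_lit 17) .nil))) .nil))))) (.nd (nat_lit 4) (.nd (nat_lit 5) (.nd (nat_lit 6) 
(.lf (nat_lit 232972) (.g (nat_lit 636) (.e (nat_lit 98388) (nat_lit 33) (.e (nat_lit 491560) (nat_lit 10) (.e (nat_lit 344117) (nat_lit 21) .nil))) .nil)) 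
(.lf (nat_lit 233036) (.g (nat_lit 1515) (.e (nat_lit 98388) (nat_lit 33) (.e (nat_lit 491560) (nat_lit 10) (.e (nat_lit 344133) (nat_lit 26) (.e (nat_lit 557068) (nat_lit 9) .nil)))) .nil))) (.nd (nat_lit 6) 
(.lf (nat_lit 233004) (.g (nat_lit 3314) (.e (nat_lit 98388) (nat_lit 33) (.e (nat_lit 491560) (nat_lit 10) (.e (nat_lit 344129) (nat_lit 26) (.e (nat_lit 557066) (nat_lit 9) (.e (nat_lit 334) (nat_lit 26) (.e (nat_lit 376867) (nat_lit 23) .nil)))))) (.g (nat_lit 5) .nil .nil))) 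
(.lf (nat_lit 233068) (.g (nat_lit 1913) (.e (nat_lit 98388) (nat_lit 33) (.e (nat_lit 491570) (nat_lit 13) (.e (nat_lit 393238) (nat_lit 17) (.e (nat_lit 3536) (nat_lit 218) (.e (nat_lit 704744) (nat_lit 12) .nil))))) .nil)))) (.nd (nat_lit 5) (.nd (nat_lit 6) 
(.lf (nat_lit 232988) (.g (nat_lit 824) (.e (nat_lit 98388) (nat_lit 33) (.e (nat_lit 491560) (nat_lit 10) (.e (nat_lit 344118) (nat_lit 21) .nil))) .nil)) 
(.lf (nat_lit 233052) (.g (nat_lit 3546) (.e (nat_lit 98388) (nat_lit 33) (.e (nat_lit 491563) (nat_lit 12) (.e (nat_lit 385074) (nat_lit 31) (.e (nat_lit 573493) (nat_lit 15) (.e (nat_lit 81954) (nat_lit 23) .nil))))) .nil))) (.nd (nat_lit 6) 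
(.lf (nat_lit 233020) (.g (nat_lit 2383) (.e (nat_lit 98388) (nat_lit 33) (.e (nat_lit 491560) (nat_lit 10) (.e (nat_lit 344129) (nat_lit 26) (.e (nat_lit 557087) (nat_lit 11) (.e (nat_lit 24634) (nat_lit 9) .nil))))) .nil)) 
(.lf (nat_lit 233084) (.g (nat_lit 738) (.e (nat_lit 98388) (nat_lit 33) (.e (nat_lit 491571) (nat_lit 13) (.e (nat_lit 393235) (nat_lit 17) .nil))) .nil))))))) (.nd (nat_lit 2) (.nd (nat_lit 3) (.nd (nat_lit 4) (.nd (nat_lit 5) (.nd (nat_lit 6) 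
(.lf (nat_lit 232962) (.g (nat_lit 893) (.e (nat_lit 98388) (nat_lit 33) (.e (nat_lit 491560) (nat_lit 10) (.e (nat_lit 344088) (nat_lit 18) .nil))) .nil)) 
(.lf (nat_lit 233026) (.g (nat_lit 1973) (.e (nat_lit 98388) (nat_lit 33) (.e (nat_lit 491560) (nat_lit 10) (.e (nat_lit 344130) (nat_lit 26) (.e (nat_lit 557087) (nat_lit 11) (.e (nat_lit 24634) (nat_lit 9) .nil))))) .nil))) (.nd (nat_lit 6) 
(.lf (nat_lit 232994) (.g (nat_lit 1851) (.e (nat_lit 98388) (nat_lit 33) (.e (nat_lit 491560) (nat_lit 10) (.e (nat_lit 344126) (nat_lit 25) (.e (nat_lit 548870) (nat_lit 5) .nil)))) .nil)) 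
(.lf (nat_lit 233058) (.g (nat_lit 1289) (.e (nat_lit 98388) (nat_lit 33) (.e (nat_lit 491566) (nat_lit 12) (.e (nat_lit 385054) (nat_lit 21) .nil))) .nil)))) (.nd (nat_lit 5) (.nd (nat_lit 6) 
(.lf (nat_lit 232978) (.g (nat_lit 3206) (.e (nat_lit 98388) (nat_lit 33) (.e (nat_lit 491560) (nat_lit 10) (.e (nat_lit 344117) (nat_lit 21) (.e (nat_lit 516106) (nat_lit 0) (.e (nat_lit 7550) (nat_lit 402) .nil))))) .nil)) 
(.lf (nat_lit 233042) (.g (nat_lit 800) (.e (nat_lit 98388) (nat_lit 33) (.e (nat_lit 491562) (nat_lit 12) (.e (nat_lit 385047) (nat_lit 21) .nil))) .nil))) (.nd (nat_lit 6) 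
(.lf (nat_lit 233010) (.g (nat_lit 3481) (.e (nat_lit 98388) (nat_lit 33) (.e (nat_lit 491560) (nat_lit 10) (.e (nat_lit 344129) (nat_lit 26) (.e (nat_lit 557070) (nat_lit 9) (.e (nat_lit 313) (nat_lit 23) .nil))))) .nil)) 
(.lf (nat_lit 233074) (.g (nat_lit 1067) (.e (nat_lit 98388) (nat_lit 33) (.e (nat_lit 491571) (nat_lit 13) (.e (nat_lit 401152) (nat_lit 10) .nil))) .nil))))) (.nd (nat_lit 4) (.nd (nat_lit 5) (.nd (nat_lit 6) 
(.lf (nat_lit 232970) (.g (nat_lit 1238) (.e (nat_lit 98388) (nat_lit 33) (.e (nat_lit 491560) (nat_lit 10) (.e (nat_lit 344114) (nat_lit 20) (.e (nat_lit 507907) (nat_lit 0) .nil)))) .nil)) 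
(.lf (nat_lit 233034) (.g (nat_lit 1745) (.e (nat_lit 98388) (nat_lit 33) (.e (nat_lit 491560) (nat_lit 10) (.e (nat_lit 344133) (nat_lit 26) (.e (nat_lit 557066) (nat_lit 9) .nil)))) .nil))) (.nd (nat_lit 6) 
(.lf (nat_lit 233002) (.g (nat_lit 1646) (.e (nat_lit 98388) (nat_lit 33) (.e (nat_lit 491560) (nat_lit 10) (.e (nat_lit 344129) (nat_lit 26) (.e (nat_lit 557066) (nat_lit 9) .nil)))) .nil)) 
(.lf (nat_lit 233066) (.g (nat_lit 1056) (.e (nat_lit 98388) (nat_lit 33) (.e (nat_lit 491569) (nat_lit 13) (.e (nat_lit 393234) (nat_lit 17) .nil))) .nil)))) (.nd (nat_lit 5) (.nd (nat_lit 6) 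
(.lf (nat_lit 232986) (.g (nat_lit 3209) (.e (nat_lit 98388) (nat_lit 33) (.e (nat_lit 491560) (nat_lit 10) (.e (nat_lit 344117) (nat_lit 21) (.e (nat_lit 516185) (nat_lit 16) (.e (nat_lit 491552) (nat_lit 9) (.e (nat_lit 336024) (nat_lit 3) .nil)))))) (.g (nat_lit 4) .nil .nil))) 
(.lf (nat_lit 233050) (.g (nat_lit 3419) (.e (nat_lit 98388) (nat_lit 33) (.e (nat_lit 491563) (nat_lit 12) (.e (nat_lit 385074) (nat_lit 31) (.e (nat_lit 573491) (nat_lit 15) (.e (nat_lit 81956) (nat_lit 23) .nil))))) .nil))) (.nd (nat_lit 6) 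
(.lf (nat_lit 233018) (.g (nat_lit 1823) (.e (nat_lit 98388) (nat_lit 33) (.e (nat_lit 491560) (nat_lit 10) (.e (nat_lit 344129) (nat_lit 26) (.e (nat_lit 557087) (nat_lit 11) .nil)))) .nil)) 
(.lf (nat_lit 233082) (.g (nat_lit 2013) (.e (nat_lit 98388) (nat_lit 33) (.e (nat_lit 491571) (nat_lit 13) (.e (nat_lit 393232) (nat_lit 17) (.e (nat_lit 3557) (nat_lit 220) .nil)))) .nil)))))) (.nd (nat_lit 3) (.nd (nat_lit 4) (.nd (nat_lit 5) (.nd (nat_lit 6) 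
(.lf (nat_lit 232966) (.g (nat_lit 896) (.e (nat_lit 98388) (nat_lit 33) (.e (nat_lit 491560) (nat_lit 10) (.e (nat_lit 344090) (nat_lit 18) .nil))) .nil)) 
(.lf (nat_lit 233030) (.g (nat_lit 2341) (.e (nat_lit 98388) (nat_lit 33) (.e (nat_lit 491560) (nat_lit 10) (.e (nat_lit 344132) (nat_lit 26) (.e (nat_lit 557070) (nat_lit 9) (.e (nat_lit 333) (nat_lit 26) .nil))))) .nil))) (.nd (nat_lit 6) 
(.lf (nat_lit 232998) (.g (nat_lit 2161) (.e (nat_lit 98388) (nat_lit 33) (.e (nat_lit 491560) (nat_lit 10) (.e (nat_lit 344129) (nat_lit 26) (.e (nat_lit 557064) (nat_lit 9) .nil)))) .nil)) 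
(.lf (nat_lit 233062) (.g (nat_lit 2427) (.e (nat_lit 98388) (nat_lit 33) (.e (nat_lit 491566) (nat_lit 12) (.e (nat_lit 385074) (nat_lit 31) (.e (nat_lit 573485) (nat_lit 13) (.e (nat_lit 65604) (nat_lit 9) .nil))))) .nil)))) (.nd (nat_lit 5) (.nd (nat_lit 6) 
(.lf (nat_lit 232982) (.g (nat_lit 1894) (.e (nat_lit 98388) (nat_lit 33) (.e (nat_lit 491560) (nat_lit 10) (.e (nat_lit 344117) (nat_lit 21) (.e (nat_lit 516184) (nat_lit 16) .nil)))) .nil)) 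
(.lf (nat_lit 233046) (.g (nat_lit 908) (.e (nat_lit 98388) (nat_lit 33) (.e (nat_lit 491563) (nat_lit 12) (.e (nat_lit 385073) (nat_lit 31) .nil))) .nil))) (.nd (nat_lit 6) 
(.lf (nat_lit 233014) (.g (nat_lit 2317) (.e (nat_lit 98388) (nat_lit 33) (.e (nat_lit 491560) (nat_lit 10) (.e (nat_lit 344129) (nat_lit 26) (.e (nat_lit 557074) (nat_lit 9) (.e (nat_lit 7936) (nat_lit 23) .nil))))) .nil)) 
(.lf (nat_lit 233078) (.g (nat_lit 2013) (.e (nat_lit 98388) (nat_lit 33) (.e (nat_lit 491571) (nat_lit 13) (.e (nat_lit 393232) (nat_lit 17) (.e (nat_lit 3520) (nat_lit 218) .nil)))) .nil))))) (.nd (nat_lit 4) (.nd (nat_lit 5) (.nd (nat_lit 6) 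
(.lf (nat_lit 232974) (.g (nat_lit 2878) (.e (nat_lit 98388) (nat_lit 33) (.e (nat_lit 491560) (nat_lit 10) (.e (nat_lit 344117) (nat_lit 21) (.e (nat_lit 516097) (nat_lit 0) (.e (nat_lit 7589) (nat_lit 406) .nil))))) .nil)) 
(.lf (nat_lit 233038) (.g (nat_lit 2464) (.e (nat_lit 98388) (nat_lit 33) (.e (nat_lit 491560) (nat_lit 10) (.e (nat_lit 344133) (nat_lit 26) (.e (nat_lit 557086) (nat_lit 11) (.e (nat_lit 24627) (nat_lit 9) .nil))))) .nil))) (.nd (nat_lit 6) 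
(.lf (nat_lit 233006) (.g (nat_lit 1731) (.e (nat_lit 98388) (nat_lit 33) (.e (nat_lit 491560) (nat_lit 10) (.e (nat_lit 344129) (nat_lit 26) (.e (nat_lit 557067) (nat_lit 9) .nil)))) .nil)) 
(.lf (nat_lit 233070) (.g (nat_lit 1083) (.e (nat_lit 98388) (nat_lit 33) (.e (nat_lit 491571) (nat_lit 13) (.e (nat_lit 393225) (nat_lit 9) .nil))) .nil)))) (.nd (nat_lit 5) (.nd (nat_lit 6) 
(.lf (nat_lit 232990) (.g (nat_lit 1306) (.e (nat_lit 98388) (nat_lit 33) (.e (nat_lit 491560) (nat_lit 10) (.e (nat_lit 344118) (nat_lit 21) (.e (nat_lit 516178) (nat_lit 15) .nil)))) .nil)) 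
(.lf (nat_lit 233054) (.g (nat_lit 3874) (.e (nat_lit 98388) (nat_lit 33) (.e (nat_lit 491565) (nat_lit 12) (.e (nat_lit 385072) (nat_lit 31) (.e (nat_lit 573492) (nat_lit 15) (.e (nat_lit 81956) (nat_lit 23) .nil))))) (.g (nat_lit 0) .nil .nil)))) (.nd (nat_lit 6) 
(.lf (nat_lit 233022) (.g (nat_lit 638) (.e (nat_lit 98388) (nat_lit 33) (.e (nat_lit 491560) (nat_lit 10) (.e (nat_lit 344130) (nat_lit 26) .nil))) .nil)) 
(.lf (nat_lit 233086) (.g (nat_lit 2295) (.e (nat_lit 98388) (nat_lit 33) (.e (nat_lit 491571) (nat_lit 13) (.e (nat_lit 393238) (nat_lit 17) (.e (nat_lit 3536) (nat_lit 218) .nil)))) .nil)))))))) (.nd (nat_lit 1) (.nd (nat_lit 2) (.nd (nat_lit 3) (.nd (nat_lit 4) (.nd (nat_lit 5) (.nd (nat_lit 6) 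
(.lf (nat_lit 232961) (.g (nat_lit 1614) (.e (nat_lit 98388) (nat_lit 33) (.e (nat_lit 491558) (nat_lit 10) (.e (nat_lit 344133) (nat_lit 26) (.e (nat_lit 557087) (nat_lit 11) .nil)))) .nil)) 
(.lf (nat_lit 233025) (.g (nat_lit 1665) (.e (nat_lit 98388) (nat_lit 33) (.e (nat_lit 491560) (nat_lit 10) (.e (nat_lit 344130) (nat_lit 26) (.e (nat_lit 557074) (nat_lit 9) (.e (nat_lit 7936) (nat_lit 21) .nil))))) .nil))) (.nd (nat_lit 6) 
(.lf (nat_lit 232993) (.g (nat_lit 2583) (.e (nat_lit 98388) (nat_lit 33) (.e (nat_lit 491560) (nat_lit 10) (.e (nat_lit 344118) (nat_lit 21) (.e (nat_lit 516184) (nat_lit 16) (.e (nat_lit 491549) (nat_lit 9) (.e (nat_lit 336019) (nat_lit 3) .nil)))))) (.g (nat_lit 4) .nil .nil))) 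
(.lf (nat_lit 233057) (.g (nat_lit 748) (.e (nat_lit 98388) (nat_lit 33) (.e (nat_lit 491566) (nat_lit 12) (.e (nat_lit 385045) (nat_lit 21) .nil))) .nil)))) (.nd (nat_lit 5) (.nd (nat_lit 6) 
(.lf (nat_lit 232977) (.g (nat_lit 2767) (.e (nat_lit 98388) (nat_lit 33) (.e (nat_lit 491560) (nat_lit 10) (.e (nat_lit 344117) (nat_lit 21) (.e (nat_lit 516099) (nat_lit 0) .nil)))) .nil)) 
(.lf (nat_lit 233041) (.g (nat_lit 3317) (.e (nat_lit 98388) (nat_lit 33) (.e (nat_lit 491560) (nat_lit 10) (.e (nat_lit 344133) (nat_lit 26) (.e (nat_lit 557087) (nat_lit 11) (.e (nat_lit 24638) (nat_lit 9) (.e (nat_lit 336021) (nat_lit 3) .nil)))))) (.g (nat_lit 4) .nil .nil)))) (.nd (nat_lit 6) 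
(.lf (nat_lit 233009) (.g (nat_lit 2027) (.e (nat_lit 98388) (nat_lit 33) (.e (nat_lit 491560) (nat_lit 10) (.e (nat_lit 344129) (nat_lit 26) (.e (nat_lit 557070) (nat_lit 9) .nil)))) .nil)) 
(.lf (nat_lit 233073) (.g (nat_lit 1430) (.e (nat_lit 98388) (nat_lit 33) (.e (nat_lit 491571) (nat_lit 13) (.e (nat_lit 393229) (nat_lit 9) .nil))) .nil))))) (.nd (nat_lit 4) (.nd (nat_lit 5) (.nd (nat_lit 6) 
(.lf (nat_lit 232969) (.g (nat_lit 862) (.e (nat_lit 98388) (nat_lit 33) (.e (nat_lit 491560) (nat_lit 10) (.e (nat_lit 344114) (nat_lit 20) .nil))) .nil)) 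
(.lf (nat_lit 233033) (.g (nat_lit 665) (.e (nat_lit 98388) (nat_lit 33) (.e (nat_lit 491560) (nat_lit 10) (.e (nat_lit 344133) (nat_lit 26) .nil))) .nil))) (.nd (nat_lit 6) 
(.lf (nat_lit 233001) (.g (nat_lit 3165) (.e (nat_lit 98388) (nat_lit 33) (.e (nat_lit 491560) (nat_lit 10) (.e (nat_lit 344129) (nat_lit 26) (.e (nat_lit 557065) (nat_lit 9) (.e (nat_lit 315) (nat_lit 23) .nil))))) .nil)) 
(.lf (nat_lit 233065) (.g (nat_lit 808) (.e (nat_lit 98388) (nat_lit 33) (.e (nat_lit 491569) (nat_lit 13) (.e (nat_lit 401152) (nat_lit 10) .nil))) .nil)))) (.nd (nat_lit 5) (.nd (nat_lit 6) 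
(.lf (nat_lit 232985) (.g (nat_lit 3159) (.e (nat_lit 98388) (nat_lit 33) (.e (nat_lit 491560) (nat_lit 10) (.e (nat_lit 344117) (nat_lit 21) (.e (nat_lit 516185) (nat_lit 16) (.e (nat_lit 491552) (nat_lit 9) .nil))))) .nil)) 
(.lf (nat_lit 233049) (.g (nat_lit 2697) (.e (nat_lit 98388) (nat_lit 33) (.e (nat_lit 491563) (nat_lit 12) (.e (nat_lit 385074) (nat_lit 31) (.e (nat_lit 573491) (nat_lit 15) (.e (nat_lit 81954) (nat_lit 23) .nil))))) .nil))) (.nd (nat_lit 6) 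
(.lf (nat_lit 233017) (.g (nat_lit 1985) (.e (nat_lit 98388) (nat_lit 33) (.e (nat_lit 491560) (nat_lit 10) (.e (nat_lit 344129) (nat_lit 26) (.e (nat_lit 557086) (nat_lit 11) .nil)))) .nil)) 
(.lf (nat_lit 233081) (.g (nat_lit 2013) (.e (nat_lit 98388) (nat_lit 33) (.e (nat_lit 491571) (nat_lit 13) (.e (nat_lit 393232) (nat_lit 17) (.e (nat_lit 3556) (nat_lit 220) .nil)))) .nil)))))) (.nd (nat_lit 3) (.nd (nat_lit 4) (.nd (nat_lit 5) (.nd (nat_lit 6) 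
(.lf (nat_lit 232965) (.g (nat_lit 918) (.e (nat_lit 98388) (nat_lit 33) (.e (nat_lit 491560) (nat_lit 10) (.e (nat_lit 344089) (nat_lit 18) .nil))) .nil)) 
(.lf (nat_lit 233029) (.g (nat_lit 1364) (.e (nat_lit 98388) (nat_lit 33) (.e (nat_lit 491560) (nat_lit 10) (.e (nat_lit 344132) (nat_lit 26) (.e (nat_lit 557070) (nat_lit 9) .nil)))) .nil))) (.nd (nat_lit 6) 
(.lf (nat_lit 232997) (.g (nat_lit 616) (.e (nat_lit 98388) (nat_lit 33) (.e (nat_lit 491560) (nat_lit 10) (.e (nat_lit 344129) (nat_lit 26) .nil))) .nil)) 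
(.lf (nat_lit 233061) (.g (nat_lit 2694) (.e (nat_lit 98388) (nat_lit 33) (.e (nat_lit 491566) (nat_lit 12) (.e (nat_lit 385074) (nat_lit 31) (.e (nat_lit 573482) (nat_lit 13) (.e (nat_lit 65604) (nat_lit 9) .nil))))) .nil)))) (.nd (nat_lit 5) (.nd (nat_lit 6) 
(.lf (nat_lit 232981) (.g (nat_lit 1762) (.e (nat_lit 98388) (nat_lit 33) (.e (nat_lit 491560) (nat_lit 10) (.e (nat_lit 344117) (nat_lit 21) (.e (nat_lit 516141) (nat_lit 8) .nil)))) .nil)) 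
(.lf (nat_lit 233045) (.g (nat_lit 4848) (.e (nat_lit 98388) (nat_lit 33) (.e (nat_lit 491562) (nat_lit 12) (.e (nat_lit 385074) (nat_lit 31) (.e (nat_lit 573493) (nat_lit 15) (.e (nat_lit 81956) (nat_lit 23) .nil))))) (.g (nat_lit 0) .nil .nil)))) (.nd (nat_lit 6) 
(.lf (nat_lit 233013) (.g (nat_lit 2901) (.e (nat_lit 98388) (nat_lit 33) (.e (nat_lit 491560) (nat_lit 10) (.e (nat_lit 344129) (nat_lit 26) (.e (nat_lit 557074) (nat_lit 9) (.e (nat_lit 278) (nat_lit 21) .nil))))) .nil)) 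
(.lf (nat_lit 233077) (.g (nat_lit 2013) (.e (nat_lit 98388) (nat_lit 33) (.e (nat_lit 491571) (nat_lit 13) (.e (nat_lit 393232) (nat_lit 17) (.e (nat_lit 3473) (nat_lit 218) .nil)))) .nil))))) (.nd (nat_lit 4) (.nd (nat_lit 5) (.nd (nat_lit 6) 
(.lf (nat_lit 232973) (.g (nat_lit 1707) (.e (nat_lit 98388) (nat_lit 33) (.e (nat_lit 491560) (nat_lit 10) (.e (nat_lit 344117) (nat_lit 21) (.e (nat_lit 516097) (nat_lit 0) .nil)))) .nil)) 
(.lf (nat_lit 233037) (.g (nat_lit 2894) (.e (nat_lit 98388) (nat_lit 33) (.e (nat_lit 491560) (nat_lit 10) (.e (nat_lit 344133) (nat_lit 26) (.e (nat_lit 557085) (nat_lit 11) (.e (nat_lit 24628) (nat_lit 9) .nil))))) .nil))) (.nd (nat_lit 6) 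
(.lf (nat_lit 233005) (.g (nat_lit 3027) (.e (nat_lit 98388) (nat_lit 33) (.e (nat_lit 491560) (nat_lit 10) (.e (nat_lit 344129) (nat_lit 26) (.e (nat_lit 557066) (nat_lit 9) (.e (nat_lit 334) (nat_lit 26) (.e (nat_lit 376869) (nat_lit 23) .nil)))))) (.g (nat_lit 4) .nil .nil))) 
(.lf (nat_lit 233069) (.g (nat_lit 2808) (.e (nat_lit 98388) (nat_lit 33) (.e (nat_lit 491571) (nat_lit 13) (.e (nat_lit 393224) (nat_lit 9) (.e (nat_lit 335894) (nat_lit 0) (.e (nat_lit 974) (nat_lit 81) .nil))))) .nil)))) (.nd (nat_lit 5) (.nd (nat_lit 6) 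
(.lf (nat_lit 232989) (.g (nat_lit 1278) (.e (nat_lit 98388) (nat_lit 33) (.e (nat_lit 491560) (nat_lit 10) (.e (nat_lit 344118) (nat_lit 21) (.e (nat_lit 516139) (nat_lit 7) .nil)))) .nil)) 
(.lf (nat_lit 233053) (.g (nat_lit 2394) (.e (nat_lit 98388) (nat_lit 33) (.e (nat_lit 491565) (nat_lit 12) (.e (nat_lit 385072) (nat_lit 31) (.e (nat_lit 573491) (nat_lit 15) (.e (nat_lit 81954) (nat_lit 23) .nil))))) (.g (nat_lit 4) .nil .nil)))) (.nd (nat_lit 6) 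
(.lf (nat_lit 233021) (.g (nat_lit 3608) (.e (nat_lit 98388) (nat_lit 33) (.e (nat_lit 491560) (nat_lit 10) (.e (nat_lit 344129) (nat_lit 26) (.e (nat_lit 557087) (nat_lit 11) (.e (nat_lit 24637) (nat_lit 9) .nil))))) .nil)) 
(.lf (nat_lit 233085) (.g (nat_lit 953) (.e (nat_lit 98388) (nat_lit 33) (.e (nat_lit 491571) (nat_lit 13) (.e (nat_lit 393238) (nat_lit 17) .nil))) .nil))))))) (.nd (nat_lit 2) (.nd (nat_lit 3) (.nd (nat_lit 4) (.nd (nat_lit 5) (.nd (nat_lit 6) 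
(.lf (nat_lit 232963) (.g (nat_lit 1355) (.e (nat_lit 98388) (nat_lit 33) (.e (nat_lit 491560) (nat_lit 10) (.e (nat_lit 344088) (nat_lit 18) (.e (nat_lit 4007) (nat_lit 242) .nil)))) .nil)) 
(.lf (nat_lit 233027) (.g (nat_lit 630) (.e (nat_lit 98388) (nat_lit 33) (.e (nat_lit 491560) (nat_lit 10) (.e (nat_lit 344131) (nat_lit 26) .nil))) .nil))) (.nd (nat_lit 6) 
(.lf (nat_lit 232995) (.g (nat_lit 2049) (.e (nat_lit 98388) (nat_lit 33) (.e (nat_lit 491560) (nat_lit 10) (.e (nat_lit 344126) (nat_lit 25) (.e (nat_lit 548872) (nat_lit 5) .nil)))) .nil)) 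
(.lf (nat_lit 233059) (.g (nat_lit 2000) (.e (nat_lit 98388) (nat_lit 33) (.e (nat_lit 491566) (nat_lit 12) (.e (nat_lit 385068) (nat_lit 26) (.e (nat_lit 532486) (nat_lit 0) .nil)))) .nil)))) (.nd (nat_lit 5) (.nd (nat_lit 6) 
(.lf (nat_lit 232979) (.g (nat_lit 3069) (.e (nat_lit 98388) (nat_lit 33) (.e (nat_lit 491560) (nat_lit 10) (.e (nat_lit 344117) (nat_lit 21) (.e (nat_lit 516106) (nat_lit 0) (.e (nat_lit 7936) (nat_lit 406) .nil))))) .nil)) 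
(.lf (nat_lit 233043) (.g (nat_lit 3312) (.e (nat_lit 98388) (nat_lit 33) (.e (nat_lit 491562) (nat_lit 12) (.e (nat_lit 385072) (nat_lit 31) (.e (nat_lit 573492) (nat_lit 15) (.e (nat_lit 81956) (nat_lit 23) .nil))))) (.g (nat_lit 4) .nil .nil)))) (.nd (nat_lit 6) 
(.lf (nat_lit 233011) (.g (nat_lit 3558) (.e (nat_lit 98388) (nat_lit 33) (.e (nat_lit 491560) (nat_lit 10) (.e (nat_lit 344129) (nat_lit 26) (.e (nat_lit 557070) (nat_lit 9) (.e (nat_lit 333) (nat_lit 26) .nil))))) .nil)) 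
(.lf (nat_lit 233075) (.g (nat_lit 974) (.e (nat_lit 98388) (nat_lit 33) (.e (nat_lit 491571) (nat_lit 13) (.e (nat_lit 393231) (nat_lit 17) .nil))) .nil))))) (.nd (nat_lit 4) (.nd (nat_lit 5) (.nd (nat_lit 6) 
(.lf (nat_lit 232971) (.g (nat_lit 988) (.e (nat_lit 98388) (nat_lit 33) (.e (nat_lit 491560) (nat_lit 10) (.e (nat_lit 344115) (nat_lit 20) .nil))) .nil)) 
(.lf (nat_lit 233035) (.g (nat_lit 2379) (.e (nat_lit 98388) (nat_lit 33) (.e (nat_lit 491560) (nat_lit 10) (.e (nat_lit 344133) (nat_lit 26) (.e (nat_lit 557066) (nat_lit 9) (.e (nat_lit 334) (nat_lit 26) .nil))))) .nil))) (.nd (nat_lit 6) 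
(.lf (nat_lit 233003) (.g (nat_lit 3191) (.e (nat_lit 98388) (nat_lit 33) (.e (nat_lit 491560) (nat_lit 10) (.e (nat_lit 344129) (nat_lit 26) (.e (nat_lit 557066) (nat_lit 9) (.e (nat_lit 310) (nat_lit 23) (.e (nat_lit 352315) (nat_lit 23) .nil)))))) (.g (nat_lit 4) .nil .nil))) 
(.lf (nat_lit 233067) (.g (nat_lit 567) (.e (nat_lit 98388) (nat_lit 33) (.e (nat_lit 491570) (nat_lit 13) (.e (nat_lit 393238) (nat_lit 17) .nil))) .nil)))) (.nd (nat_lit 5) (.nd (nat_lit 6) 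
(.lf (nat_lit 232987) (.g (nat_lit 3541) (.e (nat_lit 98388) (nat_lit 33) (.e (nat_lit 491560) (nat_lit 10) (.e (nat_lit 344117) (nat_lit 21) (.e (nat_lit 516185) (nat_lit 16) (.e (nat_lit 491557) (nat_lit 9) .nil))))) .nil)) 
(.lf (nat_lit 233051) (.g (nat_lit 4416) (.e (nat_lit 98388) (nat_lit 33) (.e (nat_lit 491563) (nat_lit 12) (.e (nat_lit 385074) (nat_lit 31) (.e (nat_lit 573492) (nat_lit 15) (.e (nat_lit 81956) (nat_lit 23) .nil))))) .nil))) (.nd (nat_lit 6) 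
(.lf (nat_lit 233019) (.g (nat_lit 4599) (.e (nat_lit 98388) (nat_lit 33) (.e (nat_lit 491560) (nat_lit 10) (.e (nat_lit 344129) (nat_lit 26) (.e (nat_lit 557087) (nat_lit 11) (.e (nat_lit 24628) (nat_lit 9) (.e (nat_lit 336019) (nat_lit 3) .nil)))))) (.g (nat_lit 0) .nil .nil))) 
(.lf (nat_lit 233083) (.g (nat_lit 2082) (.e (nat_lit 98388) (nat_lit 33) (.e (nat_lit 491571) (nat_lit 13) (.e (nat_lit 393232) (nat_lit 17) (.e (nat_lit 7936) (nat_lit 220) .nil)))) .nil)))))) (.nd (nat_lit 3) (.nd (nat_lit 4) (.nd (nat_lit 5) (.nd (nat_lit 6) 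
(.lf (nat_lit 232967) (.g (nat_lit 885) (.e (nat_lit 98388) (nat_lit 33) (.e (nat_lit 491560) (nat_lit 10) (.e (nat_lit 344091) (nat_lit 18) .nil))) .nil)) 
(.lf (nat_lit 233031) (.g (nat_lit 1381) (.e (nat_lit 98388) (nat_lit 33) (.e (nat_lit 491560) (nat_lit 10) (.e (nat_lit 344132) (nat_lit 26) (.e (nat_lit 557072) (nat_lit 9) .nil)))) .nil))) (.nd (nat_lit 6) 
(.lf (nat_lit 232999) (.g (nat_lit 1907) (.e (nat_lit 98388) (nat_lit 33) (.e (nat_lit 491560) (nat_lit 10) (.e (nat_lit 344129) (nat_lit 26) (.e (nat_lit 557065) (nat_lit 9) .nil)))) .nil)) 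
(.lf (nat_lit 233063) (.g (nat_lit 585) (.e (nat_lit 98388) (nat_lit 33) (.e (nat_lit 491566) (nat_lit 12) (.e (nat_lit 392960) (nat_lit 32) .nil))) .nil)))) (.nd (nat_lit 5) (.nd (nat_lit 6) 
(.lf (nat_lit 232983) (.g (nat_lit 2674) (.e (nat_lit 98388) (nat_lit 33) (.e (nat_lit 491560) (nat_lit 10) (.e (nat_lit 344117) (nat_lit 21) (.e (nat_lit 516185) (nat_lit 16) (.e (nat_lit 491546) (nat_lit 9) .nil))))) .nil)) 
(.lf (nat_lit 233047) (.g (nat_lit 3714) (.e (nat_lit 98388) (nat_lit 33) (.e (nat_lit 491563) (nat_lit 12) (.e (nat_lit 385074) (nat_lit 31) (.e (nat_lit 573482) (nat_lit 13) .nil)))) .nil))) (.nd (nat_lit 6) 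
(.lf (nat_lit 233015) (.g (nat_lit 2317) (.e (nat_lit 98388) (nat_lit 33) (.e (nat_lit 491560) (nat_lit 10) (.e (nat_lit 344129) (nat_lit 26) (.e (nat_lit 557074) (nat_lit 9) (.e (nat_lit 7936) (nat_lit 26) .nil))))) .nil)) 
(.lf (nat_lit 233079) (.g (nat_lit 2014) (.e (nat_lit 98388) (nat_lit 33) (.e (nat_lit 491571) (nat_lit 13) (.e (nat_lit 393232) (nat_lit 17) (.e (nat_lit 3541) (nat_lit 218) .nil)))) .nil))))) (.nd (nat_lit 4) (.nd (nat_lit 5) (.nd (nat_lit 6) 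
(.lf (nat_lit 232975) (.g (nat_lit 1593) (.e (nat_lit 98388) (nat_lit 33) (.e (nat_lit 491560) (nat_lit 10) (.e (nat_lit 344117) (nat_lit 21) (.e (nat_lit 516098) (nat_lit 0) .nil)))) .nil)) 
(.lf (nat_lit 233039) (.g (nat_lit 4272) (.e (nat_lit 98388) (nat_lit 33) (.e (nat_lit 491560) (nat_lit 10) (.e (nat_lit 344133) (nat_lit 26) (.e (nat_lit 557087) (nat_lit 11) (.e (nat_lit 24628) (nat_lit 9) (.e (nat_lit 336019) (nat_lit 3) .nil)))))) (.g (nat_lit 5) .nil .nil)))) (.nd (nat_lit 6) 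
(.lf (nat_lit 233007) (.g (nat_lit 2321) (.e (nat_lit 98388) (nat_lit 33) (.e (nat_lit 491560) (nat_lit 10) (.e (nat_lit 344129) (nat_lit 26) (.e (nat_lit 557067) (nat_lit 9) (.e (nat_lit 7936) (nat_lit 21) .nil))))) .nil)) 
(.lf (nat_lit 233071) (.g (nat_lit 3480) (.e (nat_lit 98388) (nat_lit 33) (.e (nat_lit 491571) (nat_lit 13) (.e (nat_lit 393225) (nat_lit 9) (.e (nat_lit 335995) (nat_lit 1) (.e (nat_lit 57921) (nat_lit 280) .nil))))) .nil)))) (.nd (nat_lit 5) (.nd (nat_lit 6) 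
(.lf (nat_lit 232991) (.g (nat_lit 2900) (.e (nat_lit 98388) (nat_lit 33) (.e (nat_lit 491560) (nat_lit 10) (.e (nat_lit 344118) (nat_lit 21) (.e (nat_lit 516179) (nat_lit 15) (.e (nat_lit 475210) (nat_lit 41) (.e (nat_lit 720640) (nat_lit 3) .nil)))))) (.g (nat_lit 4) .nil .nil))) 
(.lf (nat_lit 233055) (.g (nat_lit 938) (.e (nat_lit 98388) (nat_lit 33) (.e (nat_lit 491566) (nat_lit 12) (.e (nat_lit 385043) (nat_lit 21) .nil))) .nil))) (.nd (nat_lit 6) 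
(.lf (nat_lit 233023) (.g (nat_lit 1022) (.e (nat_lit 98388) (nat_lit 33) (.e (nat_lit 491560) (nat_lit 10) (.e (nat_lit 344130) (nat_lit 26) (.e (nat_lit 557066) (nat_lit 9) .nil)))) .nil)) 
(.lf (nat_lit 233087) (.g (nat_lit 2308) (.e (nat_lit 98388) (nat_lit 33) (.e (nat_lit 491571) (nat_lit 13) (.e (nat_lit 393238) (nat_lit 17) (.e (nat_lit 3540) (nat_lit 218) .nil)))) .nil)))))))))

noncomputable def tv3048 : DT := (.nd (nat_lit 0) (.nd (nat_lit 1) (.nd (nat_lit 2) (.nd (nat_lit 3) (.nd (nat_lit 4) (.nd (nat_lit 5) 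
(.lf (nat_lit 233088) (.g (nat_lit 2139) (.e (nat_lit 98388) (nat_lit 33) (.e (nat_lit 491571) (nat_lit 13) (.e (nat_lit 393238) (nat_lit 17) (.e (nat_lit 7936) (nat_lit 220) .nil)))) .nil)) 
(.lf (nat_lit 233120) (.g (nat_lit 2407) (.e (nat_lit 98389) (nat_lit 33) (.e (nat_lit 491546) (nat_lit 9) (.e (nat_lit 336028) (nat_lit 3) (.e (nat_lit 98349) (nat_lit 24) (.e (nat_lit 417536) (nat_lit 16) (.e (nat_lit 286734) (nat_lit 3) .nil)))))) (.g (nat_lit 4) .nil .nil)))) (.nd (nat_lit 5) 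
(.lf (nat_lit 233104) (.g (nat_lit 2782) (.e (nat_lit 98389) (nat_lit 33) (.e (nat_lit 491546) (nat_lit 9) (.e (nat_lit 336013) (nat_lit 2) (.e (nat_lit 90165) (nat_lit 12) (.e (nat_lit 164218) (nat_lit 179) (.e (nat_lit 164340) (nat_lit 232) (.e (nat_lit 7936) (nat_lit 92) .nil))))))) (.g (nat_lit 4) .nil .nil))) 
(.lf (nat_lit 233136) (.g (nat_lit 609) (.e (nat_lit 98389) (nat_lit 33) (.e (nat_lit 491558) (nat_lit 10) (.e (nat_lit 344088) (nat_lit 18) .nil))) .nil)))) (.nd (nat_lit 4) (.nd (nat_lit 5) 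
(.lf (nat_lit 233096) (.g (nat_lit 2918) (.e (nat_lit 98389) (nat_lit 33) (.e (nat_lit 491546) (nat_lit 9) (.e (nat_lit 336013) (nat_lit 2) (.e (nat_lit 90134) (nat_lit 9) (.e (nat_lit 3098) (nat_lit 192) .nil))))) .nil)) 
(.lf (nat_lit 233128) (.g (nat_lit 2958) (.e (nat_lit 98389) (nat_lit 33) (.e (nat_lit 491546) (nat_lit 9) (.e (nat_lit 336028) (nat_lit 3) (.e (nat_lit 98350) (nat_lit 24) (.e (nat_lit 409640) (nat_lit 17) (.e (nat_lit 294931) (nat_lit 3) .nil)))))) (.g (nat_lit 4) .nil .nil)))) (.nd (nat_lit 5) 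
(.lf (nat_lit 233112) (.g (nat_lit 1725) (.e (nat_lit 98389) (nat_lit 33) (.e (nat_lit 491546) (nat_lit 9) (.e (nat_lit 336013) (nat_lit 2) (.e (nat_lit 90170) (nat_lit 13) .nil)))) .nil)) 
(.lf (nat_lit 233144) (.g (nat_lit 4105) (.e (nat_lit 98389) (nat_lit 33) (.e (nat_lit 491558) (nat_lit 10) (.e (nat_lit 344117) (nat_lit 21) (.e (nat_lit 516098) (nat_lit 0) (.e (nat_lit 7587) (nat_lit 406) (.e (nat_lit 65571) (nat_lit 3) .nil)))))) (.g (nat_lit 0) .nil .nil)))))) (.nd (nat_lit 3) (.nd (nat_lit 4) (.nd (nat_lit 5) 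
(.lf (nat_lit 233092) (.g (nat_lit 2091) (.e (nat_lit 98388) (nat_lit 33) (.e (nat_lit 491572) (nat_lit 14) (.e (nat_lit 401425) (nat_lit 2) (.e (nat_lit 196672) (nat_lit 15) (.e (nat_lit 81954) (nat_lit 23) .nil))))) .nil)) 
(.lf (nat_lit 233124) (.g (nat_lit 3288) (.e (nat_lit 98389) (nat_lit 33) (.e (nat_lit 491546) (nat_lit 9) (.e (nat_lit 336028) (nat_lit 3) (.e (nat_lit 98350) (nat_lit 24) (.e (nat_lit 409617) (nat_lit 10) (.e (nat_lit 5355) (nat_lit 298) (.e (nat_lit 1252) (nat_lit 92) .nil))))))) (.g (nat_lit 5) .nil .nil)))) (.nd (nat_lit 5) 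
(.lf (nat_lit 233108) (.g (nat_lit 2099) (.e (nat_lit 98389) (nat_lit 33) (.e (nat_lit 491546) (nat_lit 9) (.e (nat_lit 336013) (nat_lit 2) (.e (nat_lit 90165) (nat_lit 12) (.e (nat_lit 164237) (nat_lit 187) .nil))))) .nil)) 
(.lf (nat_lit 233140) (.g (nat_lit 322) (.e (nat_lit 98389) (nat_lit 33) (.e (nat_lit 491558) (nat_lit 10) (.e (nat_lit 344117) (nat_lit 21) .nil))) .nil)))) (.nd (nat_lit 4) (.nd (nat_lit 5) 
(.lf (nat_lit 233100) (.g (nat_lit 2109) (.e (nat_lit 98389) (nat_lit 33) (.e (nat_lit 491546) (nat_lit 9) (.e (nat_lit 336013) (nat_lit 2) (.e (nat_lit 90165) (nat_lit 12) (.e (nat_lit 164208) (nat_lit 176) .nil))))) .nil)) 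
(.lf (nat_lit 233132) (.g (nat_lit 1259) (.e (nat_lit 98389) (nat_lit 33) (.e (nat_lit 491552) (nat_lit 9) (.e (nat_lit 336282) (nat_lit 15) (.e (nat_lit 2445) (nat_lit 157) .nil)))) .nil))) (.nd (nat_lit 5) 
(.lf (nat_lit 233116) (.g (nat_lit 1761) (.e (nat_lit 98389) (nat_lit 33) (.e (nat_lit 491546) (nat_lit 9) (.e (nat_lit 336028) (nat_lit 3) (.e (nat_lit 98325) (nat_lit 17) (.e (nat_lit 7095) (nat_lit 380) .nil))))) .nil)) 
(.lf (nat_lit 233148) (.g (nat_lit 3052) (.e (nat_lit 98389) (nat_lit 33) (.e (nat_lit 491558) (nat_lit 10) (.e (nat_lit 344117) (nat_lit 21) (.e (nat_lit 516106) (nat_lit 0) (.e (nat_lit 6986) (nat_lit 377) (.e (nat_lit 2781) (nat_lit 178) (.e (nat_lit 286734) (nat_lit 3) .nil))))))) (.g (nat_lit 4) .nil .nil))))))) (.nd (nat_lit 2) (.nd (nat_lit 3) (.nd (nat_lit 4) (.nd (nat_lit 5) 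
(.lf (nat_lit 233090) (.g (nat_lit 1329) (.e (nat_lit 98388) (nat_lit 33) (.e (nat_lit 491571) (nat_lit 13) (.e (nat_lit 393257) (nat_lit 20) .nil))) .nil)) 
(.lf (nat_lit 233122) (.g (nat_lit 3227) (.e (nat_lit 98389) (nat_lit 33) (.e (nat_lit 491546) (nat_lit 9) (.e (nat_lit 336028) (nat_lit 3) (.e (nat_lit 98349) (nat_lit 24) (.e (nat_lit 409641) (nat_lit 17) (.e (nat_lit 294930) (nat_lit 3) .nil)))))) (.g (nat_lit 5) .nil .nil)))) (.nd (nat_lit 5) 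
(.lf (nat_lit 233106) (.g (nat_lit 2688) (.e (nat_lit 98389) (nat_lit 33) (.e (nat_lit 491546) (nat_lit 9) (.e (nat_lit 336013) (nat_lit 2) (.e (nat_lit 90165) (nat_lit 12) (.e (nat_lit 164219) (nat_lit 180) (.e (nat_lit 229646) (nat_lit 232) (.e (nat_lit 7936) (nat_lit 92) .nil))))))) (.g (nat_lit 4) .nil .nil))) 
(.lf (nat_lit 233138) (.g (nat_lit 3023) (.e (nat_lit 98389) (nat_lit 33) (.e (nat_lit 491558) (nat_lit 10) (.e (nat_lit 344115) (nat_lit 20) (.e (nat_lit 507923) (nat_lit 6) (.e (nat_lit 286747) (nat_lit 9) (.e (nat_lit 336028) (nat_lit 3) .nil)))))) (.g (nat_lit 0) .nil .nil))))) (.nd (nat_lit 4) (.nd (nat_lit 5) 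
(.lf (nat_lit 233098) (.g (nat_lit 2458) (.e (nat_lit 98389) (nat_lit 33) (.e (nat_lit 491546) (nat_lit 9) (.e (nat_lit 336013) (nat_lit 2) (.e (nat_lit 90165) (nat_lit 12) (.e (nat_lit 164207) (nat_lit 176) .nil))))) .nil)) 
(.lf (nat_lit 233130) (.g (nat_lit 576) (.e (nat_lit 98389) (nat_lit 33) (.e (nat_lit 491549) (nat_lit 9) (.e (nat_lit 336260) (nat_lit 15) .nil))) .nil))) (.nd (nat_lit 5) 
(.lf (nat_lit 233114) (.g (nat_lit 1734) (.e (nat_lit 98389) (nat_lit 33) (.e (nat_lit 491546) (nat_lit 9) (.e (nat_lit 336028) (nat_lit 3) (.e (nat_lit 98319) (nat_lit 17) .nil)))) .nil)) 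
(.lf (nat_lit 233146) (.g (nat_lit 3848) (.e (nat_lit 98389) (nat_lit 33) (.e (nat_lit 491558) (nat_lit 10) (.e (nat_lit 344117) (nat_lit 21) (.e (nat_lit 516099) (nat_lit 0) (.e (nat_lit 7936) (nat_lit 406) .nil))))) .nil))))) (.nd (nat_lit 3) (.nd (nat_lit 4) (.nd (nat_lit 5) 
(.lf (nat_lit 233094) (.g (nat_lit 400) (.e (nat_lit 98389) (nat_lit 33) (.e (nat_lit 491544) (nat_lit 7) (.e (nat_lit 319519) (nat_lit 12) .nil))) .nil)) 
(.lf (nat_lit 233126) (.g (nat_lit 2808) (.e (nat_lit 98389) (nat_lit 33) (.e (nat_lit 491546) (nat_lit 9) (.e (nat_lit 336028) (nat_lit 3) (.e (nat_lit 98350) (nat_lit 24) (.e (nat_lit 417536) (nat_lit 16) (.e (nat_lit 286734) (nat_lit 3) .nil)))))) (.g (nat_lit 4) .nil .nil)))) (.nd (nat_lit 5) 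
(.lf (nat_lit 233110) (.g (nat_lit 2372) (.e (nat_lit 98389) (nat_lit 33) (.e (nat_lit 491546) (nat_lit 9) (.e (nat_lit 336013) (nat_lit 2) (.e (nat_lit 90165) (nat_lit 12) (.e (nat_lit 171776) (nat_lit 191) (.e (nat_lit 65570) (nat_lit 3) .nil)))))) (.g (nat_lit 4) .nil .nil))) 
(.lf (nat_lit 233142) (.g (nat_lit 2836) (.e (nat_lit 98389) (nat_lit 33) (.e (nat_lit 491558) (nat_lit 10) (.e (nat_lit 344117) (nat_lit 21) (.e (nat_lit 516097) (nat_lit 0) (.e (nat_lit 7589) (nat_lit 406) (.e (nat_lit 65569) (nat_lit 3) .nil)))))) (.g (nat_lit 4) .nil .nil))))) (.nd (nat_lit 4) (.nd (nat_lit 5) 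
(.lf (nat_lit 233102) (.g (nat_lit 2863) (.e (nat_lit 98389) (nat_lit 33) (.e (nat_lit 491546) (nat_lit 9) (.e (nat_lit 336013) (nat_lit 2) (.e (nat_lit 90165) (nat_lit 12) (.e (nat_lit 164210) (nat_lit 176) (.e (nat_lit 2786) (nat_lit 179) (.e (nat_lit 294930) (nat_lit 3) .nil))))))) (.g (nat_lit 4) .nil .nil))) 
(.lf (nat_lit 233134) (.g (nat_lit 2595) (.e (nat_lit 98389) (nat_lit 33) (.e (nat_lit 491552) (nat_lit 9) (.e (nat_lit 336295) (nat_lit 15) (.e (nat_lit 3305) (nat_lit 202) (.e (nat_lit 573491) (nat_lit 15) .nil))))) .nil))) (.nd (nat_lit 5) 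
(.lf (nat_lit 233118) (.g (nat_lit 2114) (.e (nat_lit 98389) (nat_lit 33) (.e (nat_lit 491546) (nat_lit 9) (.e (nat_lit 336028) (nat_lit 3) (.e (nat_lit 98325) (nat_lit 17) (.e (nat_lit 7936) (nat_lit 409) (.e (nat_lit 131096) (nat_lit 3) .nil)))))) (.g (nat_lit 4) .nil .nil))) 
(.lf (nat_lit 233150) (.g (nat_lit 1882) (.e (nat_lit 98389) (nat_lit 33) (.e (nat_lit 491558) (nat_lit 10) (.e (nat_lit 344117) (nat_lit 21) (.e (nat_lit 516106) (nat_lit 0) (.e (nat_lit 7936) (nat_lit 409) .nil))))) .nil))))))) (.nd (nat_lit 1) (.nd (nat_lit 2) (.nd (nat_lit 3) (.nd (nat_lit 4) (.nd (nat_lit 5) 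
(.lf (nat_lit 233089) (.g (nat_lit 999) (.e (nat_lit 98388) (nat_lit 33) (.e (nat_lit 491571) (nat_lit 13) (.e (nat_lit 393242) (nat_lit 17) .nil))) .nil)) 
(.lf (nat_lit 233121) (.g (nat_lit 2298) (.e (nat_lit 98389) (nat_lit 33) (.e (nat_lit 491546) (nat_lit 9) (.e (nat_lit 336028) (nat_lit 3) (.e (nat_lit 98349) (nat_lit 24) (.e (nat_lit 417536) (nat_lit 16) (.e (nat_lit 286735) (nat_lit 3) .nil)))))) (.g (nat_lit 4) .nil .nil)))) (.nd (nat_lit 5) 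
(.lf (nat_lit 233105) (.g (nat_lit 2511) (.e (nat_lit 98389) (nat_lit 33) (.e (nat_lit 491546) (nat_lit 9) (.e (nat_lit 336013) (nat_lit 2) (.e (nat_lit 90165) (nat_lit 12) (.e (nat_lit 164219) (nat_lit 180) .nil))))) .nil)) 
(.lf (nat_lit 233137) (.g (nat_lit 345) (.e (nat_lit 98389) (nat_lit 33) (.e (nat_lit 491558) (nat_lit 10) (.e (nat_lit 344115) (nat_lit 20) .nil))) .nil)))) (.nd (nat_lit 4) (.nd (nat_lit 5) 
(.lf (nat_lit 233097) (.g (nat_lit 1039) (.e (nat_lit 98389) (nat_lit 33) (.e (nat_lit 491546) (nat_lit 9) (.e (nat_lit 336013) (nat_lit 2) (.e (nat_lit 90165) (nat_lit 12) .nil)))) .nil)) 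
(.lf (nat_lit 233129) (.g (nat_lit 583) (.e (nat_lit 98389) (nat_lit 33) (.e (nat_lit 491547) (nat_lit 9) (.e (nat_lit 336303) (nat_lit 15) .nil))) .nil))) (.nd (nat_lit 5) 
(.lf (nat_lit 233113) (.g (nat_lit 2208) (.e (nat_lit 98389) (nat_lit 33) (.e (nat_lit 491546) (nat_lit 9) (.e (nat_lit 336013) (nat_lit 2) (.e (nat_lit 90187) (nat_lit 18) .nil)))) .nil)) 
(.lf (nat_lit 233145) (.g (nat_lit 2698) (.e (nat_lit 98389) (nat_lit 33) (.e (nat_lit 491558) (nat_lit 10) (.e (nat_lit 344117) (nat_lit 21) (.e (nat_lit 516099) (nat_lit 0) .nil)))) .nil))))) (.nd (nat_lit 3) (.nd (nat_lit 4) (.nd (nat_lit 5) 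
(.lf (nat_lit 233093) (.g (nat_lit 487) (.e (nat_lit 98389) (nat_lit 33) (.e (nat_lit 491544) (nat_lit 7) (.e (nat_lit 327424) (nat_lit 10) .nil))) .nil)) 
(.lf (nat_lit 233125) (.g (nat_lit 3715) (.e (nat_lit 98389) (nat_lit 33) (.e (nat_lit 491546) (nat_lit 9) (.e (nat_lit 336028) (nat_lit 3) (.e (nat_lit 98350) (nat_lit 24) (.e (nat_lit 409623) (nat_lit 10) (.e (nat_lit 5293) (nat_lit 298) (.e (nat_lit 1250) (nat_lit 92) .nil))))))) (.g (nat_lit 5) .nil .nil)))) (.nd (nat_lit 5) 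
(.lf (nat_lit 233109) (.g (nat_lit 2678) (.e (nat_lit 98389) (nat_lit 33) (.e (nat_lit 491546) (nat_lit 9) (.e (nat_lit 336013) (nat_lit 2) (.e (nat_lit 90165) (nat_lit 12) (.e (nat_lit 164238) (nat_lit 187) .nil))))) .nil)) 
(.lf (nat_lit 233141) (.g (nat_lit 1111) (.e (nat_lit 98389) (nat_lit 33) (.e (nat_lit 491558) (nat_lit 10) (.e (nat_lit 344117) (nat_lit 21) (.e (nat_lit 516097) (nat_lit 0) .nil)))) .nil)))) (.nd (nat_lit 4) (.nd (nat_lit 5) 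
(.lf (nat_lit 233101) (.g (nat_lit 2593) (.e (nat_lit 98389) (nat_lit 33) (.e (nat_lit 491546) (nat_lit 9) (.e (nat_lit 336013) (nat_lit 2) (.e (nat_lit 90165) (nat_lit 12) (.e (nat_lit 164208) (nat_lit 176) (.e (nat_lit 2779) (nat_lit 178) (.e (nat_lit 286734) (nat_lit 3) .nil))))))) (.g (nat_lit 4) .nil .nil))) 
(.lf (nat_lit 233133) (.g (nat_lit 1256) (.e (nat_lit 98389) (nat_lit 33) (.e (nat_lit 491552) (nat_lit 9) (.e (nat_lit 336282) (nat_lit 15) (.e (nat_lit 2505) (nat_lit 157) .nil)))) .nil))) (.nd (nat_lit 5) 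
(.lf (nat_lit 233117) (.g (nat_lit 1748) (.e (nat_lit 98389) (nat_lit 33) (.e (nat_lit 491546) (nat_lit 9) (.e (nat_lit 336028) (nat_lit 3) (.e (nat_lit 98325) (nat_lit 17) (.e (nat_lit 7112) (nat_lit 381) .nil))))) .nil)) 
(.lf (nat_lit 233149) (.g (nat_lit 2642) (.e (nat_lit 98389) (nat_lit 33) (.e (nat_lit 491558) (nat_lit 10) (.e (nat_lit 344117) (nat_lit 21) (.e (nat_lit 516106) (nat_lit 0) (.e (nat_lit 7936) (nat_lit 406) (.e (nat_lit 65570) (nat_lit 3) .nil)))))) (.g (nat_lit 4) .nil .nil))))))) (.nd (nat_lit 2) (.nd (nat_lit 3) (.nd (nat_lit 4) (.nd (nat_lit 5) 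
(.lf (nat_lit 233091) (.g (nat_lit 987) (.e (nat_lit 98388) (nat_lit 33) (.e (nat_lit 491571) (nat_lit 13) (.e (nat_lit 393258) (nat_lit 20) .nil))) .nil)) 
(.lf (nat_lit 233123) (.g (nat_lit 2696) (.e (nat_lit 98389) (nat_lit 33) (.e (nat_lit 491546) (nat_lit 9) (.e (nat_lit 336028) (nat_lit 3) (.e (nat_lit 98350) (nat_lit 24) (.e (nat_lit 409616) (nat_lit 10) (.e (nat_lit 5355) (nat_lit 298) (.e (nat_lit 1252) (nat_lit 92) .nil))))))) (.g (nat_lit 4) .nil .nil)))) (.nd (nat_lit 5) 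
(.lf (nat_lit 233107) (.g (nat_lit 2148) (.e (nat_lit 98389) (nat_lit 33) (.e (nat_lit 491546) (nat_lit 9) (.e (nat_lit 336013) (nat_lit 2) (.e (nat_lit 90165) (nat_lit 12) (.e (nat_lit 164236) (nat_lit 187) .nil))))) .nil)) 
(.lf (nat_lit 233139) (.g (nat_lit 3441) (.e (nat_lit 98389) (nat_lit 33) (.e (nat_lit 491558) (nat_lit 10) (.e (nat_lit 344115) (nat_lit 20) (.e (nat_lit 507923) (nat_lit 6) (.e (nat_lit 286749) (nat_lit 9) (.e (nat_lit 336028) (nat_lit 3) .nil)))))) (.g (nat_lit 6) .nil .nil))))) (.nd (nat_lit 4) (.nd (nat_lit 5) 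
(.lf (nat_lit 233099) (.g (nat_lit 2635) (.e (nat_lit 98389) (nat_lit 33) (.e (nat_lit 491546) (nat_lit 9) (.e (nat_lit 336013) (nat_lit 2) (.e (nat_lit 90165) (nat_lit 12) (.e (nat_lit 164207) (nat_lit 176) (.e (nat_lit 2779) (nat_lit 178) (.e (nat_lit 286735) (nat_lit 3) .nil))))))) (.g (nat_lit 4) .nil .nil))) 
(.lf (nat_lit 233131) (.g (nat_lit 491) (.e (nat_lit 98389) (nat_lit 33) (.e (nat_lit 491549) (nat_lit 9) (.e (nat_lit 336306) (nat_lit 15) .nil))) .nil))) (.nd (nat_lit 5) 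
(.lf (nat_lit 233115) (.g (nat_lit 1216) (.e (nat_lit 98389) (nat_lit 33) (.e (nat_lit 491546) (nat_lit 9) (.e (nat_lit 336028) (nat_lit 3) (.e (nat_lit 98325) (nat_lit 17) .nil)))) .nil)) 
(.lf (nat_lit 233147) (.g (nat_lit 1066) (.e (nat_lit 98389) (nat_lit 33) (.e (nat_lit 491558) (nat_lit 10) (.e (nat_lit 344117) (nat_lit 21) (.e (nat_lit 516106) (nat_lit 0) .nil)))) .nil))))) (.nd (nat_lit 3) (.nd (nat_lit 4) (.nd (nat_lit 5) 
(.lf (nat_lit 233095) (.g (nat_lit 132) (.e (nat_lit 98389) (nat_lit 33) (.e (nat_lit 491546) (nat_lit 9) (.e (nat_lit 336013) (nat_lit 2) .nil))) .nil)) 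
(.lf (nat_lit 233127) (.g (nat_lit 2671) (.e (nat_lit 98389) (nat_lit 33) (.e (nat_lit 491546) (nat_lit 9) (.e (nat_lit 336028) (nat_lit 3) (.e (nat_lit 98350) (nat_lit 24) (.e (nat_lit 417536) (nat_lit 16) (.e (nat_lit 286735) (nat_lit 3) .nil)))))) (.g (nat_lit 4) .nil .nil)))) (.nd (nat_lit 5) 
(.lf (nat_lit 233111) (.g (nat_lit 2366) (.e (nat_lit 98389) (nat_lit 33) (.e (nat_lit 491546) (nat_lit 9) (.e (nat_lit 336013) (nat_lit 2) (.e (nat_lit 90165) (nat_lit 12) (.e (nat_lit 171776) (nat_lit 194) (.e (nat_lit 131095) (nat_lit 3) .nil)))))) (.g (nat_lit 4) .nil .nil))) 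
(.lf (nat_lit 233143) (.g (nat_lit 1011) (.e (nat_lit 98389) (nat_lit 33) (.e (nat_lit 491558) (nat_lit 10) (.e (nat_lit 344117) (nat_lit 21) (.e (nat_lit 516098) (nat_lit 0) .nil)))) .nil)))) (.nd (nat_lit 4) (.nd (nat_lit 5) 
(.lf (nat_lit 233103) (.g (nat_lit 2893) (.e (nat_lit 98389) (nat_lit 33) (.e (nat_lit 491546) (nat_lit 9) (.e (nat_lit 336013) (nat_lit 2) (.e (nat_lit 90165) (nat_lit 12) (.e (nat_lit 164210) (nat_lit 176) (.e (nat_lit 2786) (nat_lit 179) (.e (nat_lit 294931) (nat_lit 3) .nil))))))) (.g (nat_lit 4) .nil .nil))) 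
(.lf (nat_lit 233135) (.g (nat_lit 4427) (.e (nat_lit 98389) (nat_lit 33) (.e (nat_lit 491556) (nat_lit 9) (.e (nat_lit 336313) (nat_lit 16) (.e (nat_lit 164119) (nat_lit 128) (.e (nat_lit 1220) (nat_lit 90) (.e (nat_lit 81956) (nat_lit 23) .nil)))))) (.g (nat_lit 0) .nil .nil)))) (.nd (nat_lit 5) 
(.lf (nat_lit 233119) (.g (nat_lit 1459) (.e (nat_lit 98389) (nat_lit 33) (.e (nat_lit 491546) (nat_lit 9) (.e (nat_lit 336028) (nat_lit 3) (.e (nat_lit 106240) (nat_lit 17) .nil)))) .nil)) 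
(.lf (nat_lit 233151) (.g (nat_lit 1647) (.e (nat_lit 98389) (nat_lit 33) (.e (nat_lit 491558) (nat_lit 10) (.e (nat_lit 344117) (nat_lit 21) (.e (nat_lit 516138) (nat_lit 7) .nil)))) .nil))))))))

noncomputable def tv3049 : DT := (.nd (nat_lit 0) (.nd (nat_lit 1) (.nd (nat_lit 2) (.nd (nat_lit 3) (.nd (nat_lit 4) (.nd (nat_lit 5) 
(.lf (nat_lit 233152) (.g (nat_lit 2747) (.e (nat_lit 98389) (nat_lit 33) (.e (nat_lit 491558) (nat_lit 10) (.e (nat_lit 344117) (nat_lit 21) (.e (nat_lit 516138) (nat_lit 7) (.e (nat_lit 409641) (nat_lit 17) (.e (nat_lit 294931) (nat_lit 3) .nil)))))) (.g (nat_lit 4) .nil .nil))) 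
(.lf (nat_lit 233184) (.g (nat_lit 1085) (.e (nat_lit 98389) (nat_lit 33) (.e (nat_lit 491558) (nat_lit 10) (.e (nat_lit 344129) (nat_lit 26) (.e (nat_lit 557065) (nat_lit 9) .nil)))) .nil))) (.nd (nat_lit 5) 
(.lf (nat_lit 233168) (.g (nat_lit 2099) (.e (nat_lit 98389) (nat_lit 33) (.e (nat_lit 491558) (nat_lit 10) (.e (nat_lit 344119) (nat_lit 21) (.e (nat_lit 516139) (nat_lit 7) (.e (nat_lit 409617) (nat_lit 10) (.e (nat_lit 5355) (nat_lit 298) (.e (nat_lit 1252) (nat_lit 92) .nil))))))) (.g (nat_lit 4) .nil .nil))) 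
(.lf (nat_lit 233200) (.g (nat_lit 2025) (.e (nat_lit 98389) (nat_lit 33) (.e (nat_lit 491558) (nat_lit 10) (.e (nat_lit 344129) (nat_lit 26) (.e (nat_lit 557087) (nat_lit 11) (.e (nat_lit 24632) (nat_lit 9) (.e (nat_lit 336023) (nat_lit 3) .nil)))))) (.g (nat_lit 4) .nil .nil))))) (.nd (nat_lit 4) (.nd (nat_lit 5) 
(.lf (nat_lit 233160) (.g (nat_lit 2298) (.e (nat_lit 98389) (nat_lit 33) (.e (nat_lit 491558) (nat_lit 10) (.e (nat_lit 344117) (nat_lit 21) (.e (nat_lit 516185) (nat_lit 16) (.e (nat_lit 491546) (nat_lit 9) (.e (nat_lit 336019) (nat_lit 3) .nil)))))) (.g (nat_lit 4) .nil .nil))) 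
(.lf (nat_lit 233192) (.g (nat_lit 3025) (.e (nat_lit 98389) (nat_lit 33) (.e (nat_lit 491558) (nat_lit 10) (.e (nat_lit 344129) (nat_lit 26) (.e (nat_lit 557067) (nat_lit 9) (.e (nat_lit 20) (nat_lit 0) .nil))))) .nil))) (.nd (nat_lit 5) 
(.lf (nat_lit 233176) (.g (nat_lit 3669) (.e (nat_lit 98389) (nat_lit 33) (.e (nat_lit 491558) (nat_lit 10) (.e (nat_lit 344126) (nat_lit 25) (.e (nat_lit 548891) (nat_lit 11) (.e (nat_lit 81954) (nat_lit 23) .nil))))) (.g (nat_lit 0) .nil .nil))) 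
(.lf (nat_lit 233208) (.g (nat_lit 3187) (.e (nat_lit 98389) (nat_lit 33) (.e (nat_lit 491558) (nat_lit 10) (.e (nat_lit 344130) (nat_lit 26) (.e (nat_lit 557066) (nat_lit 9) (.e (nat_lit 334) (nat_lit 26) (.e (nat_lit 376869) (nat_lit 23) .nil)))))) (.g (nat_lit 0) .nil .nil)))))) (.nd (nat_lit 3) (.nd (nat_lit 4) (.nd (nat_lit 5) 
(.lf (nat_lit 233156) (.g (nat_lit 5401) (.e (nat_lit 98389) (nat_lit 33) (.e (nat_lit 491558) (nat_lit 10) (.e (nat_lit 344117) (nat_lit 21) (.e (nat_lit 516139) (nat_lit 7) (.e (nat_lit 409641) (nat_lit 17) (.e (nat_lit 294931) (nat_lit 3) .nil)))))) (.g (nat_lit 0) .nil .nil))) 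
(.lf (nat_lit 233188) (.g (nat_lit 4078) (.e (nat_lit 98389) (nat_lit 33) (.e (nat_lit 491558) (nat_lit 10) (.e (nat_lit 344129) (nat_lit 26) (.e (nat_lit 557066) (nat_lit 9) (.e (nat_lit 314) (nat_lit 23) (.e (nat_lit 352315) (nat_lit 23) .nil)))))) (.g (nat_lit 0) .nil .nil)))) (.nd (nat_lit 5) 
(.lf (nat_lit 233172) (.g (nat_lit 1433) (.e (nat_lit 98389) (nat_lit 33) (.e (nat_lit 491558) (nat_lit 10) (.e (nat_lit 344119) (nat_lit 21) (.e (nat_lit 516142) (nat_lit 8) (.e (nat_lit 417827) (nat_lit 17) .nil))))) .nil)) 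
(.lf (nat_lit 233204) (.g (nat_lit 769) (.e (nat_lit 98389) (nat_lit 33) (.e (nat_lit 491558) (nat_lit 10) (.e (nat_lit 344130) (nat_lit 26) (.e (nat_lit 557065) (nat_lit 9) .nil)))) .nil)))) (.nd (nat_lit 4) (.nd (nat_lit 5) 
(.lf (nat_lit 233164) (.g (nat_lit 2670) (.e (nat_lit 98389) (nat_lit 33) (.e (nat_lit 491558) (nat_lit 10) (.e (nat_lit 344117) (nat_lit 21) (.e (nat_lit 516185) (nat_lit 16) (.e (nat_lit 491557) (nat_lit 9) .nil))))) .nil)) 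
(.lf (nat_lit 233196) (.g (nat_lit 2293) (.e (nat_lit 98389) (nat_lit 33) (.e (nat_lit 491558) (nat_lit 10) (.e (nat_lit 344129) (nat_lit 26) (.e (nat_lit 557070) (nat_lit 9) (.e (nat_lit 7936) (nat_lit 26) .nil))))) .nil))) (.nd (nat_lit 5) 
(.lf (nat_lit 233180) (.g (nat_lit 647) (.e (nat_lit 98389) (nat_lit 33) (.e (nat_lit 491558) (nat_lit 10) (.e (nat_lit 344128) (nat_lit 26) .nil))) .nil)) 
(.lf (nat_lit 233212) (.g (nat_lit 1752) (.e (nat_lit 98389) (nat_lit 33) (.e (nat_lit 491558) (nat_lit 10) (.e (nat_lit 344130) (nat_lit 26) (.e (nat_lit 557070) (nat_lit 9) (.e (nat_lit 333) (nat_lit 26) .nil))))) .nil)))))) (.nd (nat_lit 2) (.nd (nat_lit 3) (.nd (nat_lit 4) (.nd (nat_lit 5) 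
(.lf (nat_lit 233154) (.g (nat_lit 3485) (.e (nat_lit 98389) (nat_lit 33) (.e (nat_lit 491558) (nat_lit 10) (.e (nat_lit 344117) (nat_lit 21) (.e (nat_lit 516139) (nat_lit 7) (.e (nat_lit 409640) (nat_lit 17) (.e (nat_lit 294931) (nat_lit 3) .nil)))))) (.g (nat_lit 4) .nil .nil))) 
(.lf (nat_lit 233186) (.g (nat_lit 3724) (.e (nat_lit 98389) (nat_lit 33) (.e (nat_lit 491558) (nat_lit 10) (.e (nat_lit 344129) (nat_lit 26) (.e (nat_lit 557065) (nat_lit 9) (.e (nat_lit 334) (nat_lit 26) (.e (nat_lit 376869) (nat_lit 23) .nil)))))) (.g (nat_lit 6) .nil .nil)))) (.nd (nat_lit 5) 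
(.lf (nat_lit 233170) (.g (nat_lit 3673) (.e (nat_lit 98389) (nat_lit 33) (.e (nat_lit 491558) (nat_lit 10) (.e (nat_lit 344119) (nat_lit 21) (.e (nat_lit 516139) (nat_lit 7) (.e (nat_lit 409640) (nat_lit 17) (.e (nat_lit 294931) (nat_lit 3) .nil)))))) (.g (nat_lit 6) .nil .nil))) 
(.lf (nat_lit 233202) (.g (nat_lit 350) (.e (nat_lit 98389) (nat_lit 33) (.e (nat_lit 491558) (nat_lit 10) (.e (nat_lit 344130) (nat_lit 26) .nil))) .nil)))) (.nd (nat_lit 4) (.nd (nat_lit 5) 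
(.lf (nat_lit 233162) (.g (nat_lit 3969) (.e (nat_lit 98389) (nat_lit 33) (.e (nat_lit 491558) (nat_lit 10) (.e (nat_lit 344117) (nat_lit 21) (.e (nat_lit 516185) (nat_lit 16) (.e (nat_lit 491552) (nat_lit 9) (.e (nat_lit 336022) (nat_lit 3) .nil)))))) (.g (nat_lit 6) .nil .nil))) 
(.lf (nat_lit 233194) (.g (nat_lit 3081) (.e (nat_lit 98389) (nat_lit 33) (.e (nat_lit 491558) (nat_lit 10) (.e (nat_lit 344129) (nat_lit 26) (.e (nat_lit 557070) (nat_lit 9) (.e (nat_lit 313) (nat_lit 23) .nil))))) .nil))) (.nd (nat_lit 5) 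
(.lf (nat_lit 233178) (.g (nat_lit 2513) (.e (nat_lit 98389) (nat_lit 33) (.e (nat_lit 491558) (nat_lit 10) (.e (nat_lit 344126) (nat_lit 25) (.e (nat_lit 548893) (nat_lit 13) (.e (nat_lit 131109) (nat_lit 9) (.e (nat_lit 336019) (nat_lit 3) .nil)))))) (.g (nat_lit 4) .nil .nil))) 
(.lf (nat_lit 233210) (.g (nat_lit 1897) (.e (nat_lit 98389) (nat_lit 33) (.e (nat_lit 491558) (nat_lit 10) (.e (nat_lit 344130) (nat_lit 26) (.e (nat_lit 557070) (nat_lit 9) (.e (nat_lit 313) (nat_lit 23) (.e (nat_lit 352313) (nat_lit 23) .nil)))))) (.g (nat_lit 4) .nil .nil)))))) (.nd (nat_lit 3) (.nd (nat_lit 4) (.nd (nat_lit 5) 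
(.lf (nat_lit 233158) (.g (nat_lit 2517) (.e (nat_lit 98389) (nat_lit 33) (.e (nat_lit 491558) (nat_lit 10) (.e (nat_lit 344117) (nat_lit 21) (.e (nat_lit 516142) (nat_lit 8) (.e (nat_lit 417827) (nat_lit 17) .nil))))) .nil)) 
(.lf (nat_lit 233190) (.g (nat_lit 3802) (.e (nat_lit 98389) (nat_lit 33) (.e (nat_lit 491558) (nat_lit 10) (.e (nat_lit 344129) (nat_lit 26) (.e (nat_lit 557066) (nat_lit 9) (.e (nat_lit 334) (nat_lit 26) (.e (nat_lit 376867) (nat_lit 23) .nil)))))) (.g (nat_lit 0) .nil .nil)))) (.nd (nat_lit 5) 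
(.lf (nat_lit 233174) (.g (nat_lit 1481) (.e (nat_lit 98389) (nat_lit 33) (.e (nat_lit 491558) (nat_lit 10) (.e (nat_lit 344126) (nat_lit 25) (.e (nat_lit 548872) (nat_lit 5) .nil)))) .nil)) 
(.lf (nat_lit 233206) (.g (nat_lit 3416) (.e (nat_lit 98389) (nat_lit 33) (.e (nat_lit 491558) (nat_lit 10) (.e (nat_lit 344130) (nat_lit 26) (.e (nat_lit 557066) (nat_lit 9) (.e (nat_lit 314) (nat_lit 23) (.e (nat_lit 352315) (nat_lit 23) .nil)))))) (.g (nat_lit 0) .nil .nil))))) (.nd (nat_lit 4) (.nd (nat_lit 5) 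
(.lf (nat_lit 233166) (.g (nat_lit 467) (.e (nat_lit 98389) (nat_lit 33) (.e (nat_lit 491558) (nat_lit 10) (.e (nat_lit 344119) (nat_lit 21) .nil))) .nil)) 
(.lf (nat_lit 233198) (.g (nat_lit 3495) (.e (nat_lit 98389) (nat_lit 33) (.e (nat_lit 491558) (nat_lit 10) (.e (nat_lit 344129) (nat_lit 26) (.e (nat_lit 557074) (nat_lit 9) (.e (nat_lit 284) (nat_lit 21) (.e (nat_lit 336087) (nat_lit 9) (.e (nat_lit 336019) (nat_lit 3) .nil))))))) (.g (nat_lit 5) .nil .nil)))) (.nd (nat_lit 5) 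
(.lf (nat_lit 233182) (.g (nat_lit 1625) (.e (nat_lit 98389) (nat_lit 33) (.e (nat_lit 491558) (nat_lit 10) (.e (nat_lit 344129) (nat_lit 26) (.e (nat_lit 557064) (nat_lit 9) .nil)))) .nil)) 
(.lf (nat_lit 233214) (.g (nat_lit 1597) (.e (nat_lit 98389) (nat_lit 33) (.e (nat_lit 491558) (nat_lit 10) (.e (nat_lit 344130) (nat_lit 26) (.e (nat_lit 557070) (nat_lit 9) (.e (nat_lit 7936) (nat_lit 26) (.e (nat_lit 376869) (nat_lit 23) .nil)))))) (.g (nat_lit 4) .nil .nil)))))))) (.nd (nat_lit 1) (.nd (nat_lit 2) (.nd (nat_lit 3) (.nd (nat_lit 4) (.nd (nat_lit 5) 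
(.lf (nat_lit 233153) (.g (nat_lit 3081) (.e (nat_lit 98389) (nat_lit 33) (.e (nat_lit 491558) (nat_lit 10) (.e (nat_lit 344117) (nat_lit 21) (.e (nat_lit 516139) (nat_lit 7) (.e (nat_lit 417536) (nat_lit 16) .nil))))) .nil)) 
(.lf (nat_lit 233185) (.g (nat_lit 1982) (.e (nat_lit 98389) (nat_lit 33) (.e (nat_lit 491558) (nat_lit 10) (.e (nat_lit 344129) (nat_lit 26) (.e (nat_lit 557065) (nat_lit 9) (.e (nat_lit 7936) (nat_lit 23) .nil))))) .nil))) (.nd (nat_lit 5) 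
(.lf (nat_lit 233169) (.g (nat_lit 3951) (.e (nat_lit 98389) (nat_lit 33) (.e (nat_lit 491558) (nat_lit 10) (.e (nat_lit 344119) (nat_lit 21) (.e (nat_lit 516139) (nat_lit 7) (.e (nat_lit 409617) (nat_lit 10) (.e (nat_lit 5355) (nat_lit 298) (.e (nat_lit 1253) (nat_lit 92) .nil))))))) (.g (nat_lit 6) .nil .nil))) 
(.lf (nat_lit 233201) (.g (nat_lit 3061) (.e (nat_lit 98389) (nat_lit 33) (.e (nat_lit 491558) (nat_lit 10) (.e (nat_lit 344129) (nat_lit 26) (.e (nat_lit 557087) (nat_lit 11) (.e (nat_lit 24637) (nat_lit 9) (.e (nat_lit 336021) (nat_lit 3) .nil)))))) (.g (nat_lit 4) .nil .nil))))) (.nd (nat_lit 4) (.nd (nat_lit 5) 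
(.lf (nat_lit 233161) (.g (nat_lit 3471) (.e (nat_lit 98389) (nat_lit 33) (.e (nat_lit 491558) (nat_lit 10) (.e (nat_lit 344117) (nat_lit 21) (.e (nat_lit 516185) (nat_lit 16) (.e (nat_lit 491547) (nat_lit 9) (.e (nat_lit 336019) (nat_lit 3) .nil)))))) (.g (nat_lit 5) .nil .nil))) 
(.lf (nat_lit 233193) (.g (nat_lit 2570) (.e (nat_lit 98389) (nat_lit 33) (.e (nat_lit 491558) (nat_lit 10) (.e (nat_lit 344129) (nat_lit 26) (.e (nat_lit 557067) (nat_lit 9) (.e (nat_lit 7936) (nat_lit 23) .nil))))) .nil))) (.nd (nat_lit 5) 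
(.lf (nat_lit 233177) (.g (nat_lit 3209) (.e (nat_lit 98389) (nat_lit 33) (.e (nat_lit 491558) (nat_lit 10) (.e (nat_lit 344126) (nat_lit 25) (.e (nat_lit 548891) (nat_lit 11) (.e (nat_lit 81955) (nat_lit 23) .nil))))) (.g (nat_lit 4) .nil .nil))) 
(.lf (nat_lit 233209) (.g (nat_lit 758) (.e (nat_lit 98389) (nat_lit 33) (.e (nat_lit 491558) (nat_lit 10) (.e (nat_lit 344130) (nat_lit 26) (.e (nat_lit 557067) (nat_lit 9) .nil)))) .nil))))) (.nd (nat_lit 3) (.nd (nat_lit 4) (.nd (nat_lit 5) 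
(.lf (nat_lit 233157) (.g (nat_lit 2797) (.e (nat_lit 98389) (nat_lit 33) (.e (nat_lit 491558) (nat_lit 10) (.e (nat_lit 344117) (nat_lit 21) (.e (nat_lit 516141) (nat_lit 8) (.e (nat_lit 417827) (nat_lit 17) (.e (nat_lit 294931) (nat_lit 3) .nil)))))) (.g (nat_lit 4) .nil .nil))) 
(.lf (nat_lit 233189) (.g (nat_lit 2018) (.e (nat_lit 98389) (nat_lit 33) (.e (nat_lit 491558) (nat_lit 10) (.e (nat_lit 344129) (nat_lit 26) (.e (nat_lit 557066) (nat_lit 9) (.e (nat_lit 315) (nat_lit 23) .nil))))) .nil))) (.nd (nat_lit 5) 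
(.lf (nat_lit 233173) (.g (nat_lit 106) (.e (nat_lit 98389) (nat_lit 33) (.e (nat_lit 491558) (nat_lit 10) (.e (nat_lit 344126) (nat_lit 25) .nil))) .nil)) 
(.lf (nat_lit 233205) (.g (nat_lit 3077) (.e (nat_lit 98389) (nat_lit 33) (.e (nat_lit 491558) (nat_lit 10) (.e (nat_lit 344130) (nat_lit 26) (.e (nat_lit 557066) (nat_lit 9) (.e (nat_lit 314) (nat_lit 23) (.e (nat_lit 352313) (nat_lit 23) .nil)))))) (.g (nat_lit 0) .nil .nil))))) (.nd (nat_lit 4) (.nd (nat_lit 5) 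
(.lf (nat_lit 233165) (.g (nat_lit 3211) (.e (nat_lit 98389) (nat_lit 33) (.e (nat_lit 491558) (nat_lit 10) (.e (nat_lit 344117) (nat_lit 21) (.e (nat_lit 516185) (nat_lit 16) (.e (nat_lit 491557) (nat_lit 9) (.e (nat_lit 336021) (nat_lit 3) .nil)))))) (.g (nat_lit 4) .nil .nil))) 
(.lf (nat_lit 233197) (.g (nat_lit 2070) (.e (nat_lit 98389) (nat_lit 33) (.e (nat_lit 491558) (nat_lit 10) (.e (nat_lit 344129) (nat_lit 26) (.e (nat_lit 557074) (nat_lit 9) (.e (nat_lit 278) (nat_lit 21) .nil))))) .nil))) (.nd (nat_lit 5) 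
(.lf (nat_lit 233181) (.g (nat_lit 371) (.e (nat_lit 98389) (nat_lit 33) (.e (nat_lit 491558) (nat_lit 10) (.e (nat_lit 344129) (nat_lit 26) .nil))) .nil)) 
(.lf (nat_lit 233213) (.g (nat_lit 1324) (.e (nat_lit 98389) (nat_lit 33) (.e (nat_lit 491558) (nat_lit 10) (.e (nat_lit 344130) (nat_lit 26) (.e (nat_lit 557070) (nat_lit 9) (.e (nat_lit 7936) (nat_lit 26) .nil))))) .nil)))))) (.nd (nat_lit 2) (.nd (nat_lit 3) (.nd (nat_lit 4) (.nd (nat_lit 5) 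
(.lf (nat_lit 233155) (.g (nat_lit 4623) (.e (nat_lit 98389) (nat_lit 33) (.e (nat_lit 491558) (nat_lit 10) (.e (nat_lit 344117) (nat_lit 21) (.e (nat_lit 516139) (nat_lit 7) (.e (nat_lit 409641) (nat_lit 17) (.e (nat_lit 294930) (nat_lit 3) .nil)))))) (.g (nat_lit 6) .nil .nil))) 
(.lf (nat_lit 233187) (.g (nat_lit 3783) (.e (nat_lit 98389) (nat_lit 33) (.e (nat_lit 491558) (nat_lit 10) (.e (nat_lit 344129) (nat_lit 26) (.e (nat_lit 557066) (nat_lit 9) (.e (nat_lit 314) (nat_lit 23) (.e (nat_lit 352313) (nat_lit 23) .nil)))))) (.g (nat_lit 0) .nil .nil)))) (.nd (nat_lit 5) 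
(.lf (nat_lit 233171) (.g (nat_lit 4189) (.e (nat_lit 98389) (nat_lit 33) (.e (nat_lit 491558) (nat_lit 10) (.e (nat_lit 344119) (nat_lit 21) (.e (nat_lit 516139) (nat_lit 7) (.e (nat_lit 409641) (nat_lit 17) (.e (nat_lit 294931) (nat_lit 3) .nil)))))) (.g (nat_lit 5) .nil .nil))) 
(.lf (nat_lit 233203) (.g (nat_lit 843) (.e (nat_lit 98389) (nat_lit 33) (.e (nat_lit 491558) (nat_lit 10) (.e (nat_lit 344130) (nat_lit 26) (.e (nat_lit 557064) (nat_lit 9) .nil)))) .nil)))) (.nd (nat_lit 4) (.nd (nat_lit 5) 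
(.lf (nat_lit 233163) (.g (nat_lit 3397) (.e (nat_lit 98389) (nat_lit 33) (.e (nat_lit 491558) (nat_lit 10) (.e (nat_lit 344117) (nat_lit 21) (.e (nat_lit 516185) (nat_lit 16) (.e (nat_lit 491552) (nat_lit 9) (.e (nat_lit 336024) (nat_lit 3) .nil)))))) (.g (nat_lit 5) .nil .nil))) 
(.lf (nat_lit 233195) (.g (nat_lit 2293) (.e (nat_lit 98389) (nat_lit 33) (.e (nat_lit 491558) (nat_lit 10) (.e (nat_lit 344129) (nat_lit 26) (.e (nat_lit 557070) (nat_lit 9) (.e (nat_lit 7936) (nat_lit 23) .nil))))) .nil))) (.nd (nat_lit 5) 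
(.lf (nat_lit 233179) (.g (nat_lit 649) (.e (nat_lit 98389) (nat_lit 33) (.e (nat_lit 491558) (nat_lit 10) (.e (nat_lit 344127) (nat_lit 26) .nil))) .nil)) 
(.lf (nat_lit 233211) (.g (nat_lit 2055) (.e (nat_lit 98389) (nat_lit 33) (.e (nat_lit 491558) (nat_lit 10) (.e (nat_lit 344130) (nat_lit 26) (.e (nat_lit 557070) (nat_lit 9) (.e (nat_lit 313) (nat_lit 23) (.e (nat_lit 352315) (nat_lit 23) .nil)))))) (.g (nat_lit 4) .nil .nil)))))) (.nd (nat_lit 3) (.nd (nat_lit 4) (.nd (nat_lit 5) 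
(.lf (nat_lit 233159) (.g (nat_lit 1545) (.e (nat_lit 98389) (nat_lit 33) (.e (nat_lit 491558) (nat_lit 10) (.e (nat_lit 344117) (nat_lit 21) (.e (nat_lit 516183) (nat_lit 16) .nil)))) .nil)) 
(.lf (nat_lit 233191) (.g (nat_lit 3867) (.e (nat_lit 98389) (nat_lit 33) (.e (nat_lit 491558) (nat_lit 10) (.e (nat_lit 344129) (nat_lit 26) (.e (nat_lit 557066) (nat_lit 9) (.e (nat_lit 334) (nat_lit 26) (.e (nat_lit 376869) (nat_lit 23) .nil)))))) (.g (nat_lit 0) .nil .nil)))) (.nd (nat_lit 5) 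
(.lf (nat_lit 233175) (.g (nat_lit 2992) (.e (nat_lit 98389) (nat_lit 33) (.e (nat_lit 491558) (nat_lit 10) (.e (nat_lit 344126) (nat_lit 25) (.e (nat_lit 548889) (nat_lit 9) (.e (nat_lit 65604) (nat_lit 9) (.e (nat_lit 336028) (nat_lit 3) .nil)))))) (.g (nat_lit 4) .nil .nil))) 
(.lf (nat_lit 233207) (.g (nat_lit 3127) (.e (nat_lit 98389) (nat_lit 33) (.e (nat_lit 491558) (nat_lit 10) (.e (nat_lit 344130) (nat_lit 26) (.e (nat_lit 557066) (nat_lit 9) (.e (nat_lit 334) (nat_lit 26) (.e (nat_lit 376867) (nat_lit 23) .nil)))))) (.g (nat_lit 0) .nil .nil))))) (.nd (nat_lit 4) (.nd (nat_lit 5) 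
(.lf (nat_lit 233167) (.g (nat_lit 2229) (.e (nat_lit 98389) (nat_lit 33) (.e (nat_lit 491558) (nat_lit 10) (.e (nat_lit 344119) (nat_lit 21) (.e (nat_lit 516139) (nat_lit 7) (.e (nat_lit 409616) (nat_lit 10) (.e (nat_lit 5355) (nat_lit 298) (.e (nat_lit 1252) (nat_lit 92) .nil))))))) (.g (nat_lit 4) .nil .nil))) 
(.lf (nat_lit 233199) (.g (nat_lit 3788) (.e (nat_lit 98389) (nat_lit 33) (.e (nat_lit 491558) (nat_lit 10) (.e (nat_lit 344129) (nat_lit 26) (.e (nat_lit 557087) (nat_lit 11) (.e (nat_lit 24631) (nat_lit 9) (.e (nat_lit 336020) (nat_lit 3) .nil)))))) (.g (nat_lit 6) .nil .nil)))) (.nd (nat_lit 5) 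
(.lf (nat_lit 233183) (.g (nat_lit 2422) (.e (nat_lit 98389) (nat_lit 33) (.e (nat_lit 491558) (nat_lit 10) (.e (nat_lit 344129) (nat_lit 26) (.e (nat_lit 557064) (nat_lit 9) (.e (nat_lit 315) (nat_lit 23) .nil))))) .nil)) 
(.lf (nat_lit 233215) (.g (nat_lit 1495) (.e (nat_lit 98389) (nat_lit 33) (.e (nat_lit 491558) (nat_lit 10) (.e (nat_lit 344130) (nat_lit 26) (.e (nat_lit 557074) (nat_lit 9) (.e (nat_lit 278) (nat_lit 21) .nil))))) .nil))))))))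

noncomputable def tv3050 : DT := (.nd (nat_lit 0) (.nd (nat_lit 1) (.nd (nat_lit 2) (.nd (nat_lit 3) (.nd (nat_lit 4) (.nd (nat_lit 5) (.nd (nat_lit 6) 
(.lf (nat_lit 233216) (.g (nat_lit 1959) (.e (nat_lit 98389) (nat_lit 33) (.e (nat_lit 491558) (nat_lit 10) (.e (nat_lit 344130) (nat_lit 26) (.e (nat_lit 557074) (nat_lit 9) (.e (nat_lit 278) (nat_lit 21) (.e (nat_lit 336152) (nat_lit 9) (.e (nat_lit 336017) (nat_lit 3) .nil))))))) (.g (nat_lit 4) .nil .nil))) 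
(.lf (nat_lit 233280) (.g (nat_lit 1011) (.e (nat_lit 98389) (nat_lit 33) (.e (nat_lit 491560) (nat_lit 10) (.e (nat_lit 344111) (nat_lit 19) .nil))) .nil))) (.nd (nat_lit 6) 
(.lf (nat_lit 233248) (.g (nat_lit 3598) (.e (nat_lit 98389) (nat_lit 33) (.e (nat_lit 491558) (nat_lit 10) (.e (nat_lit 344133) (nat_lit 26) (.e (nat_lit 557087) (nat_lit 11) (.e (nat_lit 24634) (nat_lit 9) (.e (nat_lit 336023) (nat_lit 3) .nil)))))) (.g (nat_lit 5) .nil .nil))) 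
(.lf (nat_lit 233312) (.g (nat_lit 2572) (.e (nat_lit 98389) (nat_lit 33) (.e (nat_lit 491560) (nat_lit 10) (.e (nat_lit 344117) (nat_lit 21) (.e (nat_lit 516184) (nat_lit 16) (.e (nat_lit 491546) (nat_lit 9) (.e (nat_lit 336028) (nat_lit 3) .nil)))))) (.g (nat_lit 4) .nil .nil))))) (.nd (nat_lit 5) (.nd (nat_lit 6) 
(.lf (nat_lit 233232) (.g (nat_lit 1320) (.e (nat_lit 98389) (nat_lit 33) (.e (nat_lit 491558) (nat_lit 10) (.e (nat_lit 344133) (nat_lit 26) (.e (nat_lit 557065) (nat_lit 9) .nil)))) .nil)) 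
(.lf (nat_lit 233296) (.g (nat_lit 2659) (.e (nat_lit 98389) (nat_lit 33) (.e (nat_lit 491560) (nat_lit 10) (.e (nat_lit 344117) (nat_lit 21) (.e (nat_lit 516106) (nat_lit 0) (.e (nat_lit 6986) (nat_lit 377) .nil))))) .nil))) (.nd (nat_lit 6) 
(.lf (nat_lit 233264) (.g (nat_lit 732) (.e (nat_lit 98389) (nat_lit 33) (.e (nat_lit 491560) (nat_lit 10) (.e (nat_lit 344095) (nat_lit 18) .nil))) .nil)) 
(.lf (nat_lit 233328) (.g (nat_lit 2867) (.e (nat_lit 98389) (nat_lit 33) (.e (nat_lit 491560) (nat_lit 10) (.e (nat_lit 344118) (nat_lit 21) (.e (nat_lit 516139) (nat_lit 7) (.e (nat_lit 409623) (nat_lit 10) (.e (nat_lit 5293) (nat_lit 298) (.e (nat_lit 1250) (nat_lit 92) .nil))))))) (.g (nat_lit 5) .nil .nil)))))) (.nd (nat_lit 4) (.nd (nat_lit 5) (.nd (nat_lit 6) 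
(.lf (nat_lit 233224) (.g (nat_lit 2406) (.e (nat_lit 98389) (nat_lit 33) (.e (nat_lit 491558) (nat_lit 10) (.e (nat_lit 344132) (nat_lit 26) (.e (nat_lit 557070) (nat_lit 9) (.e (nat_lit 333) (nat_lit 26) (.e (nat_lit 376867) (nat_lit 23) .nil)))))) (.g (nat_lit 4) .nil .nil))) 
(.lf (nat_lit 233288) (.g (nat_lit 328) (.e (nat_lit 98389) (nat_lit 33) (.e (nat_lit 491560) (nat_lit 10) (.e (nat_lit 344117) (nat_lit 21) .nil))) .nil))) (.nd (nat_lit 6) 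
(.lf (nat_lit 233256) (.g (nat_lit 989) (.e (nat_lit 98389) (nat_lit 33) (.e (nat_lit 491560) (nat_lit 10) (.e (nat_lit 344087) (nat_lit 18) (.e (nat_lit 4159) (nat_lit 250) .nil)))) .nil)) 
(.lf (nat_lit 233320) (.g (nat_lit 3400) (.e (nat_lit 98389) (nat_lit 33) (.e (nat_lit 491560) (nat_lit 10) (.e (nat_lit 344117) (nat_lit 21) (.e (nat_lit 516185) (nat_lit 16) (.e (nat_lit 491552) (nat_lit 9) (.e (nat_lit 336024) (nat_lit 3) .nil)))))) (.g (nat_lit 5) .nil .nil))))) (.nd (nat_lit 5) (.nd (nat_lit 6) 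
(.lf (nat_lit 233240) (.g (nat_lit 1207) (.e (nat_lit 98389) (nat_lit 33) (.e (nat_lit 491558) (nat_lit 10) (.e (nat_lit 344133) (nat_lit 26) (.e (nat_lit 557071) (nat_lit 9) .nil)))) .nil)) 
(.lf (nat_lit 233304) (.g (nat_lit 3616) (.e (nat_lit 98389) (nat_lit 33) (.e (nat_lit 491560) (nat_lit 10) (.e (nat_lit 344117) (nat_lit 21) (.e (nat_lit 516138) (nat_lit 7) (.e (nat_lit 409641) (nat_lit 17) (.e (nat_lit 294931) (nat_lit 3) .nil)))))) (.g (nat_lit 4) .nil .nil)))) (.nd (nat_lit 6) 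
(.lf (nat_lit 233272) (.g (nat_lit 712) (.e (nat_lit 98389) (nat_lit 33) (.e (nat_lit 491560) (nat_lit 10) (.e (nat_lit 344102) (nat_lit 18) .nil))) .nil)) 
(.lf (nat_lit 233336) (.g (nat_lit 2588) (.e (nat_lit 98389) (nat_lit 33) (.e (nat_lit 491560) (nat_lit 10) (.e (nat_lit 344118) (nat_lit 21) (.e (nat_lit 516182) (nat_lit 15) (.e (nat_lit 475209) (nat_lit 41) (.e (nat_lit 720640) (nat_lit 3) .nil)))))) (.g (nat_lit 5) .nil .nil))))))) (.nd (nat_lit 3) (.nd (nat_lit 4) (.nd (nat_lit 5) (.nd (nat_lit 6) 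
(.lf (nat_lit 233220) (.g (nat_lit 3853) (.e (nat_lit 98389) (nat_lit 33) (.e (nat_lit 491558) (nat_lit 10) (.e (nat_lit 344130) (nat_lit 26) (.e (nat_lit 557087) (nat_lit 11) (.e (nat_lit 24628) (nat_lit 9) (.e (nat_lit 336019) (nat_lit 3) .nil)))))) (.g (nat_lit 0) .nil .nil))) 
(.lf (nat_lit 233284) (.g (nat_lit 1265) (.e (nat_lit 98389) (nat_lit 33) (.e (nat_lit 491560) (nat_lit 10) (.e (nat_lit 344115) (nat_lit 20) (.e (nat_lit 507923) (nat_lit 6) (.e (nat_lit 286747) (nat_lit 9) (.e (nat_lit 336023) (nat_lit 3) .nil)))))) (.g (nat_lit 4) .nil .nil)))) (.nd (nat_lit 6) 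
(.lf (nat_lit 233252) (.g (nat_lit 2374) (.e (nat_lit 98389) (nat_lit 33) (.e (nat_lit 491559) (nat_lit 10) (.e (nat_lit 344126) (nat_lit 25) (.e (nat_lit 548874) (nat_lit 5) (.e (nat_lit 1572) (nat_lit 110) .nil))))) .nil)) 
(.lf (nat_lit 233316) (.g (nat_lit 1275) (.e (nat_lit 98389) (nat_lit 33) (.e (nat_lit 491560) (nat_lit 10) (.e (nat_lit 344117) (nat_lit 21) (.e (nat_lit 516185) (nat_lit 16) .nil)))) .nil)))) (.nd (nat_lit 5) (.nd (nat_lit 6) 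
(.lf (nat_lit 233236) (.g (nat_lit 1248) (.e (nat_lit 98389) (nat_lit 33) (.e (nat_lit 491558) (nat_lit 10) (.e (nat_lit 344133) (nat_lit 26) (.e (nat_lit 557068) (nat_lit 9) .nil)))) .nil)) 
(.lf (nat_lit 233300) (.g (nat_lit 2876) (.e (nat_lit 98389) (nat_lit 33) (.e (nat_lit 491560) (nat_lit 10) (.e (nat_lit 344117) (nat_lit 21) (.e (nat_lit 516106) (nat_lit 0) (.e (nat_lit 7936) (nat_lit 406) (.e (nat_lit 65570) (nat_lit 3) .nil)))))) (.g (nat_lit 4) .nil .nil)))) (.nd (nat_lit 6) 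
(.lf (nat_lit 233268) (.g (nat_lit 1917) (.e (nat_lit 98389) (nat_lit 33) (.e (nat_lit 491560) (nat_lit 10) (.e (nat_lit 344097) (nat_lit 18) (.e (nat_lit 4157) (nat_lit 250) .nil)))) .nil)) 
(.lf (nat_lit 233332) (.g (nat_lit 2081) (.e (nat_lit 98389) (nat_lit 33) (.e (nat_lit 491560) (nat_lit 10) (.e (nat_lit 344118) (nat_lit 21) (.e (nat_lit 516142) (nat_lit 8) (.e (nat_lit 417827) (nat_lit 17) (.e (nat_lit 294930) (nat_lit 3) .nil)))))) (.g (nat_lit 4) .nil .nil)))))) (.nd (nat_lit 4) (.nd (nat_lit 5) (.nd (nat_lit 6) 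
(.lf (nat_lit 233228) (.g (nat_lit 2652) (.e (nat_lit 98389) (nat_lit 33) (.e (nat_lit 491558) (nat_lit 10) (.e (nat_lit 344132) (nat_lit 26) (.e (nat_lit 557085) (nat_lit 11) (.e (nat_lit 24628) (nat_lit 9) (.e (nat_lit 336019) (nat_lit 3) .nil)))))) (.g (nat_lit 4) .nil .nil))) 
(.lf (nat_lit 233292) (.g (nat_lit 1280) (.e (nat_lit 98389) (nat_lit 33) (.e (nat_lit 491560) (nat_lit 10) (.e (nat_lit 344117) (nat_lit 21) (.e (nat_lit 516098) (nat_lit 0) .nil)))) .nil))) (.nd (nat_lit 6) 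
(.lf (nat_lit 233260) (.g (nat_lit 559) (.e (nat_lit 98389) (nat_lit 33) (.e (nat_lit 491560) (nat_lit 10) (.e (nat_lit 344091) (nat_lit 18) .nil))) .nil)) 
(.lf (nat_lit 233324) (.g (nat_lit 1977) (.e (nat_lit 98389) (nat_lit 33) (.e (nat_lit 491560) (nat_lit 10) (.e (nat_lit 344118) (nat_lit 21) (.e (nat_lit 516106) (nat_lit 0) (.e (nat_lit 6986) (nat_lit 377) .nil))))) .nil)))) (.nd (nat_lit 5) (.nd (nat_lit 6) 
(.lf (nat_lit 233244) (.g (nat_lit 3530) (.e (nat_lit 98389) (nat_lit 33) (.e (nat_lit 491558) (nat_lit 10) (.e (nat_lit 344133) (nat_lit 26) (.e (nat_lit 557085) (nat_lit 11) (.e (nat_lit 24628) (nat_lit 9) (.e (nat_lit 336019) (nat_lit 3) .nil)))))) (.g (nat_lit 5) .nil .nil))) 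
(.lf (nat_lit 233308) (.g (nat_lit 2759) (.e (nat_lit 98389) (nat_lit 33) (.e (nat_lit 491560) (nat_lit 10) (.e (nat_lit 344117) (nat_lit 21) (.e (nat_lit 516141) (nat_lit 8) (.e (nat_lit 417827) (nat_lit 17) (.e (nat_lit 294930) (nat_lit 3) .nil)))))) (.g (nat_lit 4) .nil .nil)))) (.nd (nat_lit 6) 
(.lf (nat_lit 233276) (.g (nat_lit 1175) (.e (nat_lit 98389) (nat_lit 33) (.e (nat_lit 491560) (nat_lit 10) (.e (nat_lit 344107) (nat_lit 19) (.e (nat_lit 499825) (nat_lit 5) .nil)))) .nil)) 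
(.lf (nat_lit 233340) (.g (nat_lit 3242) (.e (nat_lit 98389) (nat_lit 33) (.e (nat_lit 491560) (nat_lit 10) (.e (nat_lit 344118) (nat_lit 21) (.e (nat_lit 516184) (nat_lit 16) (.e (nat_lit 491548) (nat_lit 9) (.e (nat_lit 336019) (nat_lit 3) .nil)))))) (.g (nat_lit 6) .nil .nil)))))))) (.nd (nat_lit 2) (.nd (nat_lit 3) (.nd (nat_lit 4) (.nd (nat_lit 5) (.nd (nat_lit 6) 
(.lf (nat_lit 233218) (.g (nat_lit 2466) (.e (nat_lit 98389) (nat_lit 33) (.e (nat_lit 491558) (nat_lit 10) (.e (nat_lit 344130) (nat_lit 26) (.e (nat_lit 557085) (nat_lit 11) (.e (nat_lit 24628) (nat_lit 9) (.e (nat_lit 336019) (nat_lit 3) .nil)))))) (.g (nat_lit 4) .nil .nil))) 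
(.lf (nat_lit 233282) (.g (nat_lit 578) (.e (nat_lit 98389) (nat_lit 33) (.e (nat_lit 491560) (nat_lit 10) (.e (nat_lit 344114) (nat_lit 20) .nil))) .nil))) (.nd (nat_lit 6) 
(.lf (nat_lit 233250) (.g (nat_lit 1663) (.e (nat_lit 98389) (nat_lit 33) (.e (nat_lit 491559) (nat_lit 10) (.e (nat_lit 344117) (nat_lit 21) (.e (nat_lit 516139) (nat_lit 7) .nil)))) .nil)) 
(.lf (nat_lit 233314) (.g (nat_lit 2405) (.e (nat_lit 98389) (nat_lit 33) (.e (nat_lit 491560) (nat_lit 10) (.e (nat_lit 344117) (nat_lit 21) (.e (nat_lit 516184) (nat_lit 16) (.e (nat_lit 491548) (nat_lit 9) .nil))))) .nil)))) (.nd (nat_lit 5) (.nd (nat_lit 6) 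
(.lf (nat_lit 233234) (.g (nat_lit 2427) (.e (nat_lit 98389) (nat_lit 33) (.e (nat_lit 491558) (nat_lit 10) (.e (nat_lit 344133) (nat_lit 26) (.e (nat_lit 557066) (nat_lit 9) (.e (nat_lit 309) (nat_lit 23) .nil))))) .nil)) 
(.lf (nat_lit 233298) (.g (nat_lit 3092) (.e (nat_lit 98389) (nat_lit 33) (.e (nat_lit 491560) (nat_lit 10) (.e (nat_lit 344117) (nat_lit 21) (.e (nat_lit 516106) (nat_lit 0) (.e (nat_lit 7550) (nat_lit 402) (.e (nat_lit 1515) (nat_lit 108) (.e (nat_lit 336017) (nat_lit 3) .nil))))))) (.g (nat_lit 4) .nil .nil)))) (.nd (nat_lit 6) 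
(.lf (nat_lit 233266) (.g (nat_lit 1330) (.e (nat_lit 98389) (nat_lit 33) (.e (nat_lit 491560) (nat_lit 10) (.e (nat_lit 344096) (nat_lit 18) (.e (nat_lit 4157) (nat_lit 250) .nil)))) .nil)) 
(.lf (nat_lit 233330) (.g (nat_lit 3927) (.e (nat_lit 98389) (nat_lit 33) (.e (nat_lit 491560) (nat_lit 10) (.e (nat_lit 344118) (nat_lit 21) (.e (nat_lit 516139) (nat_lit 7) (.e (nat_lit 409641) (nat_lit 17) (.e (nat_lit 294931) (nat_lit 3) .nil)))))) (.g (nat_lit 5) .nil .nil)))))) (.nd (nat_lit 4) (.nd (nat_lit 5) (.nd (nat_lit 6) 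
(.lf (nat_lit 233226) (.g (nat_lit 1715) (.e (nat_lit 98389) (nat_lit 33) (.e (nat_lit 491558) (nat_lit 10) (.e (nat_lit 344132) (nat_lit 26) (.e (nat_lit 557070) (nat_lit 9) (.e (nat_lit 7936) (nat_lit 26) .nil))))) .nil)) 
(.lf (nat_lit 233290) (.g (nat_lit 2640) (.e (nat_lit 98389) (nat_lit 33) (.e (nat_lit 491560) (nat_lit 10) (.e (nat_lit 344117) (nat_lit 21) (.e (nat_lit 516097) (nat_lit 0) (.e (nat_lit 7589) (nat_lit 406) .nil))))) .nil))) (.nd (nat_lit 6) 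
(.lf (nat_lit 233258) (.g (nat_lit 574) (.e (nat_lit 98389) (nat_lit 33) (.e (nat_lit 491560) (nat_lit 10) (.e (nat_lit 344089) (nat_lit 18) .nil))) .nil)) 
(.lf (nat_lit 233322) (.g (nat_lit 2857) (.e (nat_lit 98389) (nat_lit 33) (.e (nat_lit 491560) (nat_lit 10) (.e (nat_lit 344117) (nat_lit 21) (.e (nat_lit 516185) (nat_lit 16) (.e (nat_lit 491557) (nat_lit 9) .nil))))) .nil)))) (.nd (nat_lit 5) (.nd (nat_lit 6) 
(.lf (nat_lit 233242) (.g (nat_lit 1573) (.e (nat_lit 98389) (nat_lit 33) (.e (nat_lit 491558) (nat_lit 10) (.e (nat_lit 344133) (nat_lit 26) (.e (nat_lit 564992) (nat_lit 9) .nil)))) .nil)) 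
(.lf (nat_lit 233306) (.g (nat_lit 4358) (.e (nat_lit 98389) (nat_lit 33) (.e (nat_lit 491560) (nat_lit 10) (.e (nat_lit 344117) (nat_lit 21) (.e (nat_lit 516139) (nat_lit 7) (.e (nat_lit 409641) (nat_lit 17) (.e (nat_lit 294930) (nat_lit 3) .nil)))))) (.g (nat_lit 5) .nil .nil)))) (.nd (nat_lit 6) 
(.lf (nat_lit 233274) (.g (nat_lit 584) (.e (nat_lit 98389) (nat_lit 33) (.e (nat_lit 491560) (nat_lit 10) (.e (nat_lit 352000) (nat_lit 18) .nil))) .nil)) 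
(.lf (nat_lit 233338) (.g (nat_lit 3027) (.e (nat_lit 98389) (nat_lit 33) (.e (nat_lit 491560) (nat_lit 10) (.e (nat_lit 344118) (nat_lit 21) (.e (nat_lit 516182) (nat_lit 15) (.e (nat_lit 475211) (nat_lit 41) (.e (nat_lit 720640) (nat_lit 3) .nil)))))) (.g (nat_lit 5) .nil .nil))))))) (.nd (nat_lit 3) (.nd (nat_lit 4) (.nd (nat_lit 5) (.nd (nat_lit 6) 
(.lf (nat_lit 233222) (.g (nat_lit 1762) (.e (nat_lit 98389) (nat_lit 33) (.e (nat_lit 491558) (nat_lit 10) (.e (nat_lit 344132) (nat_lit 26) (.e (nat_lit 557065) (nat_lit 9) (.e (nat_lit 334) (nat_lit 26) .nil))))) .nil)) 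
(.lf (nat_lit 233286) (.g (nat_lit 875) (.e (nat_lit 98389) (nat_lit 33) (.e (nat_lit 491560) (nat_lit 10) (.e (nat_lit 344116) (nat_lit 21) .nil))) .nil))) (.nd (nat_lit 6) 
(.lf (nat_lit 233254) (.g (nat_lit 1420) (.e (nat_lit 98389) (nat_lit 33) (.e (nat_lit 491559) (nat_lit 10) (.e (nat_lit 344126) (nat_lit 25) (.e (nat_lit 548893) (nat_lit 13) .nil)))) .nil)) 
(.lf (nat_lit 233318) (.g (nat_lit 4048) (.e (nat_lit 98389) (nat_lit 33) (.e (nat_lit 491560) (nat_lit 10) (.e (nat_lit 344117) (nat_lit 21) (.e (nat_lit 516185) (nat_lit 16) (.e (nat_lit 491552) (nat_lit 9) (.e (nat_lit 336022) (nat_lit 3) .nil)))))) (.g (nat_lit 6) .nil .nil))))) (.nd (nat_lit 5) (.nd (nat_lit 6) 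
(.lf (nat_lit 233238) (.g (nat_lit 2898) (.e (nat_lit 98389) (nat_lit 33) (.e (nat_lit 491558) (nat_lit 10) (.e (nat_lit 344133) (nat_lit 26) (.e (nat_lit 557070) (nat_lit 9) (.e (nat_lit 313) (nat_lit 23) .nil))))) .nil)) 
(.lf (nat_lit 233302) (.g (nat_lit 1780) (.e (nat_lit 98389) (nat_lit 33) (.e (nat_lit 491560) (nat_lit 10) (.e (nat_lit 344117) (nat_lit 21) (.e (nat_lit 516138) (nat_lit 7) .nil)))) .nil))) (.nd (nat_lit 6) 
(.lf (nat_lit 233270) (.g (nat_lit 656) (.e (nat_lit 98389) (nat_lit 33) (.e (nat_lit 491560) (nat_lit 10) (.e (nat_lit 344099) (nat_lit 18) .nil))) .nil)) 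
(.lf (nat_lit 233334) (.g (nat_lit 3876) (.e (nat_lit 98389) (nat_lit 33) (.e (nat_lit 491560) (nat_lit 10) (.e (nat_lit 344118) (nat_lit 21) (.e (nat_lit 516179) (nat_lit 15) (.e (nat_lit 475210) (nat_lit 41) (.e (nat_lit 720640) (nat_lit 3) .nil)))))) (.g (nat_lit 5) .nil .nil)))))) (.nd (nat_lit 4) (.nd (nat_lit 5) (.nd (nat_lit 6) 
(.lf (nat_lit 233230) (.g (nat_lit 1337) (.e (nat_lit 98389) (nat_lit 33) (.e (nat_lit 491558) (nat_lit 10) (.e (nat_lit 344133) (nat_lit 26) (.e (nat_lit 557064) (nat_lit 9) .nil)))) .nil)) 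
(.lf (nat_lit 233294) (.g (nat_lit 1182) (.e (nat_lit 98389) (nat_lit 33) (.e (nat_lit 491560) (nat_lit 10) (.e (nat_lit 344117) (nat_lit 21) (.e (nat_lit 516106) (nat_lit 0) .nil)))) .nil))) (.nd (nat_lit 6) 
(.lf (nat_lit 233262) (.g (nat_lit 707) (.e (nat_lit 98389) (nat_lit 33) (.e (nat_lit 491560) (nat_lit 10) (.e (nat_lit 344092) (nat_lit 18) .nil))) .nil)) 
(.lf (nat_lit 233326) (.g (nat_lit 2945) (.e (nat_lit 98389) (nat_lit 33) (.e (nat_lit 491560) (nat_lit 10) (.e (nat_lit 344118) (nat_lit 21) (.e (nat_lit 516138) (nat_lit 7) (.e (nat_lit 409641) (nat_lit 17) (.e (nat_lit 294931) (nat_lit 3) .nil)))))) (.g (nat_lit 5) .nil .nil))))) (.nd (nat_lit 5) (.nd (nat_lit 6) 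
(.lf (nat_lit 233246) (.g (nat_lit 2590) (.e (nat_lit 98389) (nat_lit 33) (.e (nat_lit 491558) (nat_lit 10) (.e (nat_lit 344133) (nat_lit 26) (.e (nat_lit 557087) (nat_lit 11) (.e (nat_lit 24627) (nat_lit 9) (.e (nat_lit 336019) (nat_lit 3) .nil)))))) (.g (nat_lit 4) .nil .nil))) 
(.lf (nat_lit 233310) (.g (nat_lit 2955) (.e (nat_lit 98389) (nat_lit 33) (.e (nat_lit 491560) (nat_lit 10) (.e (nat_lit 344117) (nat_lit 21) (.e (nat_lit 516183) (nat_lit 16) (.e (nat_lit 491548) (nat_lit 9) (.e (nat_lit 336019) (nat_lit 3) .nil)))))) (.g (nat_lit 5) .nil .nil)))) (.nd (nat_lit 6) 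
(.lf (nat_lit 233278) (.g (nat_lit 633) (.e (nat_lit 98389) (nat_lit 33) (.e (nat_lit 491560) (nat_lit 10) (.e (nat_lit 344109) (nat_lit 19) .nil))) .nil)) 
(.lf (nat_lit 233342) (.g (nat_lit 2339) (.e (nat_lit 98389) (nat_lit 33) (.e (nat_lit 491560) (nat_lit 10) (.e (nat_lit 344118) (nat_lit 21) (.e (nat_lit 516184) (nat_lit 16) (.e (nat_lit 491554) (nat_lit 9) (.e (nat_lit 336023) (nat_lit 3) .nil)))))) (.g (nat_lit 4) .nil .nil))))))))) (.nd (nat_lit 1) (.nd (nat_lit 2) (.nd (nat_lit 3) (.nd (nat_lit 4) (.nd (nat_lit 5) (.nd (nat_lit 6) 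
(.lf (nat_lit 233217) (.g (nat_lit 2419) (.e (nat_lit 98389) (nat_lit 33) (.e (nat_lit 491558) (nat_lit 10) (.e (nat_lit 344130) (nat_lit 26) (.e (nat_lit 557074) (nat_lit 9) (.e (nat_lit 7936) (nat_lit 26) (.e (nat_lit 376866) (nat_lit 23) .nil)))))) (.g (nat_lit 4) .nil .nil))) 
(.lf (nat_lit 233281) (.g (nat_lit 1114) (.e (nat_lit 98389) (nat_lit 33) (.e (nat_lit 491560) (nat_lit 10) (.e (nat_lit 344111) (nat_lit 19) (.e (nat_lit 499910) (nat_lit 8) .nil)))) .nil))) (.nd (nat_lit 6) 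
(.lf (nat_lit 233249) (.g (nat_lit 4643) (.e (nat_lit 98389) (nat_lit 33) (.e (nat_lit 491558) (nat_lit 10) (.e (nat_lit 344133) (nat_lit 26) (.e (nat_lit 557087) (nat_lit 11) (.e (nat_lit 24638) (nat_lit 9) (.e (nat_lit 336021) (nat_lit 3) .nil)))))) (.g (nat_lit 6) .nil .nil))) 
(.lf (nat_lit 233313) (.g (nat_lit 2573) (.e (nat_lit 98389) (nat_lit 33) (.e (nat_lit 491560) (nat_lit 10) (.e (nat_lit 344117) (nat_lit 21) (.e (nat_lit 516184) (nat_lit 16) (.e (nat_lit 491547) (nat_lit 9) .nil))))) .nil)))) (.nd (nat_lit 5) (.nd (nat_lit 6) 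
(.lf (nat_lit 233233) (.g (nat_lit 2091) (.e (nat_lit 98389) (nat_lit 33) (.e (nat_lit 491558) (nat_lit 10) (.e (nat_lit 344133) (nat_lit 26) (.e (nat_lit 557065) (nat_lit 9) (.e (nat_lit 7936) (nat_lit 23) .nil))))) .nil)) 
(.lf (nat_lit 233297) (.g (nat_lit 3127) (.e (nat_lit 98389) (nat_lit 33) (.e (nat_lit 491560) (nat_lit 10) (.e (nat_lit 344117) (nat_lit 21) (.e (nat_lit 516106) (nat_lit 0) (.e (nat_lit 7550) (nat_lit 402) (.e (nat_lit 1512) (nat_lit 108) (.e (nat_lit 336017) (nat_lit 3) .nil))))))) (.g (nat_lit 4) .nil .nil)))) (.nd (nat_lit 6) 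
(.lf (nat_lit 233265) (.g (nat_lit 593) (.e (nat_lit 98389) (nat_lit 33) (.e (nat_lit 491560) (nat_lit 10) (.e (nat_lit 344096) (nat_lit 18) .nil))) .nil)) 
(.lf (nat_lit 233329) (.g (nat_lit 3440) (.e (nat_lit 98389) (nat_lit 33) (.e (nat_lit 491560) (nat_lit 10) (.e (nat_lit 344118) (nat_lit 21) (.e (nat_lit 516139) (nat_lit 7) (.e (nat_lit 409640) (nat_lit 17) (.e (nat_lit 294931) (nat_lit 3) .nil)))))) (.g (nat_lit 5) .nil .nil)))))) (.nd (nat_lit 4) (.nd (nat_lit 5) (.nd (nat_lit 6) 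
(.lf (nat_lit 233225) (.g (nat_lit 2352) (.e (nat_lit 98389) (nat_lit 33) (.e (nat_lit 491558) (nat_lit 10) (.e (nat_lit 344132) (nat_lit 26) (.e (nat_lit 557070) (nat_lit 9) (.e (nat_lit 333) (nat_lit 26) (.e (nat_lit 376869) (nat_lit 23) .nil)))))) (.g (nat_lit 4) .nil .nil))) 
(.lf (nat_lit 233289) (.g (nat_lit 1469) (.e (nat_lit 98389) (nat_lit 33) (.e (nat_lit 491560) (nat_lit 10) (.e (nat_lit 344117) (nat_lit 21) (.e (nat_lit 516097) (nat_lit 0) .nil)))) .nil))) (.nd (nat_lit 6) 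
(.lf (nat_lit 233257) (.g (nat_lit 513) (.e (nat_lit 98389) (nat_lit 33) (.e (nat_lit 491560) (nat_lit 10) (.e (nat_lit 344088) (nat_lit 18) .nil))) .nil)) 
(.lf (nat_lit 233321) (.g (nat_lit 2697) (.e (nat_lit 98389) (nat_lit 33) (.e (nat_lit 491560) (nat_lit 10) (.e (nat_lit 344117) (nat_lit 21) (.e (nat_lit 516185) (nat_lit 16) (.e (nat_lit 491556) (nat_lit 9) (.e (nat_lit 336017) (nat_lit 3) .nil)))))) (.g (nat_lit 4) .nil .nil))))) (.nd (nat_lit 5) (.nd (nat_lit 6) 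
(.lf (nat_lit 233241) (.g (nat_lit 1522) (.e (nat_lit 98389) (nat_lit 33) (.e (nat_lit 491558) (nat_lit 10) (.e (nat_lit 344133) (nat_lit 26) (.e (nat_lit 557073) (nat_lit 9) .nil)))) .nil)) 
(.lf (nat_lit 233305) (.g (nat_lit 3756) (.e (nat_lit 98389) (nat_lit 33) (.e (nat_lit 491560) (nat_lit 10) (.e (nat_lit 344117) (nat_lit 21) (.e (nat_lit 516139) (nat_lit 7) (.e (nat_lit 409640) (nat_lit 17) .nil))))) .nil))) (.nd (nat_lit 6) 
(.lf (nat_lit 233273) (.g (nat_lit 736) (.e (nat_lit 98389) (nat_lit 33) (.e (nat_lit 491560) (nat_lit 10) (.e (nat_lit 344103) (nat_lit 18) .nil))) .nil)) 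
(.lf (nat_lit 233337) (.g (nat_lit 2571) (.e (nat_lit 98389) (nat_lit 33) (.e (nat_lit 491560) (nat_lit 10) (.e (nat_lit 344118) (nat_lit 21) (.e (nat_lit 516182) (nat_lit 15) (.e (nat_lit 475210) (nat_lit 41) (.e (nat_lit 720640) (nat_lit 3) .nil)))))) (.g (nat_lit 5) .nil .nil))))))) (.nd (nat_lit 3) (.nd (nat_lit 4) (.nd (nat_lit 5) (.nd (nat_lit 6) 
(.lf (nat_lit 233221) (.g (nat_lit 391) (.e (nat_lit 98389) (nat_lit 33) (.e (nat_lit 491558) (nat_lit 10) (.e (nat_lit 344132) (nat_lit 26) .nil))) .nil)) 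
(.lf (nat_lit 233285) (.g (nat_lit 3423) (.e (nat_lit 98389) (nat_lit 33) (.e (nat_lit 491560) (nat_lit 10) (.e (nat_lit 344115) (nat_lit 20) (.e (nat_lit 507923) (nat_lit 6) (.e (nat_lit 286749) (nat_lit 9) (.e (nat_lit 336028) (nat_lit 3) .nil)))))) (.g (nat_lit 6) .nil .nil)))) (.nd (nat_lit 6) 
(.lf (nat_lit 233253) (.g (nat_lit 3244) (.e (nat_lit 98389) (nat_lit 33) (.e (nat_lit 491559) (nat_lit 10) (.e (nat_lit 344126) (nat_lit 25) (.e (nat_lit 548891) (nat_lit 11) (.e (nat_lit 81955) (nat_lit 23) .nil))))) (.g (nat_lit 4) .nil .nil))) 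
(.lf (nat_lit 233317) (.g (nat_lit 3685) (.e (nat_lit 98389) (nat_lit 33) (.e (nat_lit 491560) (nat_lit 10) (.e (nat_lit 344117) (nat_lit 21) (.e (nat_lit 516185) (nat_lit 16) (.e (nat_lit 491547) (nat_lit 9) (.e (nat_lit 336019) (nat_lit 3) .nil)))))) (.g (nat_lit 6) .nil .nil))))) (.nd (nat_lit 5) (.nd (nat_lit 6) 
(.lf (nat_lit 233237) (.g (nat_lit 2133) (.e (nat_lit 98389) (nat_lit 33) (.e (nat_lit 491558) (nat_lit 10) (.e (nat_lit 344133) (nat_lit 26) (.e (nat_lit 557070) (nat_lit 9) .nil)))) .nil)) 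
(.lf (nat_lit 233301) (.g (nat_lit 2502) (.e (nat_lit 98389) (nat_lit 33) (.e (nat_lit 491560) (nat_lit 10) (.e (nat_lit 344117) (nat_lit 21) (.e (nat_lit 516106) (nat_lit 0) (.e (nat_lit 7936) (nat_lit 409) .nil))))) .nil))) (.nd (nat_lit 6) 
(.lf (nat_lit 233269) (.g (nat_lit 939) (.e (nat_lit 98389) (nat_lit 33) (.e (nat_lit 491560) (nat_lit 10) (.e (nat_lit 344098) (nat_lit 18) .nil))) .nil)) 
(.lf (nat_lit 233333) (.g (nat_lit 2079) (.e (nat_lit 98389) (nat_lit 33) (.e (nat_lit 491560) (nat_lit 10) (.e (nat_lit 344118) (nat_lit 21) (.e (nat_lit 516178) (nat_lit 15) (.e (nat_lit 475210) (nat_lit 41) (.e (nat_lit 720640) (nat_lit 3) .nil)))))) (.g (nat_lit 4) .nil .nil)))))) (.nd (nat_lit 4) (.nd (nat_lit 5) (.nd (nat_lit 6) 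
(.lf (nat_lit 233229) (.g (nat_lit 345) (.e (nat_lit 98389) (nat_lit 33) (.e (nat_lit 491558) (nat_lit 10) (.e (nat_lit 344133) (nat_lit 26) .nil))) .nil)) 
(.lf (nat_lit 233293) (.g (nat_lit 1998) (.e (nat_lit 98389) (nat_lit 33) (.e (nat_lit 491560) (nat_lit 10) (.e (nat_lit 344117) (nat_lit 21) (.e (nat_lit 516099) (nat_lit 0) .nil)))) .nil))) (.nd (nat_lit 6) 
(.lf (nat_lit 233261) (.g (nat_lit 1229) (.e (nat_lit 98389) (nat_lit 33) (.e (nat_lit 491560) (nat_lit 10) (.e (nat_lit 344091) (nat_lit 18) (.e (nat_lit 4157) (nat_lit 250) .nil)))) .nil)) 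
(.lf (nat_lit 233325) (.g (nat_lit 2236) (.e (nat_lit 98389) (nat_lit 33) (.e (nat_lit 491560) (nat_lit 10) (.e (nat_lit 344118) (nat_lit 21) (.e (nat_lit 516138) (nat_lit 7) (.e (nat_lit 409640) (nat_lit 17) (.e (nat_lit 294931) (nat_lit 3) .nil)))))) (.g (nat_lit 4) .nil .nil))))) (.nd (nat_lit 5) (.nd (nat_lit 6) 
(.lf (nat_lit 233245) (.g (nat_lit 4452) (.e (nat_lit 98389) (nat_lit 33) (.e (nat_lit 491558) (nat_lit 10) (.e (nat_lit 344133) (nat_lit 26) (.e (nat_lit 557087) (nat_lit 11) (.e (nat_lit 24625) (nat_lit 9) (.e (nat_lit 336019) (nat_lit 3) .nil)))))) (.g (nat_lit 5) .nil .nil))) 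
(.lf (nat_lit 233309) (.g (nat_lit 3339) (.e (nat_lit 98389) (nat_lit 33) (.e (nat_lit 491560) (nat_lit 10) (.e (nat_lit 344117) (nat_lit 21) (.e (nat_lit 516142) (nat_lit 8) (.e (nat_lit 417827) (nat_lit 17) (.e (nat_lit 294931) (nat_lit 3) .nil)))))) (.g (nat_lit 4) .nil .nil)))) (.nd (nat_lit 6) 
(.lf (nat_lit 233277) (.g (nat_lit 1011) (.e (nat_lit 98389) (nat_lit 33) (.e (nat_lit 491560) (nat_lit 10) (.e (nat_lit 344108) (nat_lit 19) .nil))) .nil)) 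
(.lf (nat_lit 233341) (.g (nat_lit 1659) (.e (nat_lit 98389) (nat_lit 33) (.e (nat_lit 491560) (nat_lit 10) (.e (nat_lit 344118) (nat_lit 21) (.e (nat_lit 516184) (nat_lit 16) (.e (nat_lit 491552) (nat_lit 9) .nil))))) .nil))))))) (.nd (nat_lit 2) (.nd (nat_lit 3) (.nd (nat_lit 4) (.nd (nat_lit 5) (.nd (nat_lit 6) 
(.lf (nat_lit 233219) (.g (nat_lit 749) (.e (nat_lit 98389) (nat_lit 33) (.e (nat_lit 491558) (nat_lit 10) (.e (nat_lit 344130) (nat_lit 26) (.e (nat_lit 557087) (nat_lit 11) .nil)))) .nil)) 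
(.lf (nat_lit 233283) (.g (nat_lit 312) (.e (nat_lit 98389) (nat_lit 33) (.e (nat_lit 491560) (nat_lit 10) (.e (nat_lit 344115) (nat_lit 20) .nil))) .nil))) (.nd (nat_lit 6) 
(.lf (nat_lit 233251) (.g (nat_lit 2662) (.e (nat_lit 98389) (nat_lit 33) (.e (nat_lit 491559) (nat_lit 10) (.e (nat_lit 344126) (nat_lit 25) (.e (nat_lit 548874) (nat_lit 5) (.e (nat_lit 1562) (nat_lit 110) (.e (nat_lit 352315) (nat_lit 23) .nil)))))) (.g (nat_lit 4) .nil .nil))) 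
(.lf (nat_lit 233315) (.g (nat_lit 2589) (.e (nat_lit 98389) (nat_lit 33) (.e (nat_lit 491560) (nat_lit 10) (.e (nat_lit 344117) (nat_lit 21) (.e (nat_lit 516184) (nat_lit 16) (.e (nat_lit 491554) (nat_lit 9) .nil))))) .nil)))) (.nd (nat_lit 5) (.nd (nat_lit 6) 
(.lf (nat_lit 233235) (.g (nat_lit 2428) (.e (nat_lit 98389) (nat_lit 33) (.e (nat_lit 491558) (nat_lit 10) (.e (nat_lit 344133) (nat_lit 26) (.e (nat_lit 557066) (nat_lit 9) (.e (nat_lit 310) (nat_lit 23) .nil))))) .nil)) 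
(.lf (nat_lit 233299) (.g (nat_lit 2502) (.e (nat_lit 98389) (nat_lit 33) (.e (nat_lit 491560) (nat_lit 10) (.e (nat_lit 344117) (nat_lit 21) (.e (nat_lit 516106) (nat_lit 0) (.e (nat_lit 7936) (nat_lit 406) .nil))))) .nil))) (.nd (nat_lit 6) 
(.lf (nat_lit 233267) (.g (nat_lit 1917) (.e (nat_lit 98389) (nat_lit 33) (.e (nat_lit 491560) (nat_lit 10) (.e (nat_lit 344097) (nat_lit 18) (.e (nat_lit 3942) (nat_lit 239) .nil)))) .nil)) 
(.lf (nat_lit 233331) (.g (nat_lit 2291) (.e (nat_lit 98389) (nat_lit 33) (.e (nat_lit 491560) (nat_lit 10) (.e (nat_lit 344118) (nat_lit 21) (.e (nat_lit 516141) (nat_lit 8) (.e (nat_lit 417827) (nat_lit 17) (.e (nat_lit 294931) (nat_lit 3) .nil)))))) (.g (nat_lit 4) .nil .nil)))))) (.nd (nat_lit 4) (.nd (nat_lit 5) (.nd (nat_lit 6) 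
(.lf (nat_lit 233227) (.g (nat_lit 2110) (.e (nat_lit 98389) (nat_lit 33) (.e (nat_lit 491558) (nat_lit 10) (.e (nat_lit 344132) (nat_lit 26) (.e (nat_lit 557070) (nat_lit 9) (.e (nat_lit 7936) (nat_lit 26) (.e (nat_lit 376869) (nat_lit 23) .nil)))))) (.g (nat_lit 4) .nil .nil))) 
(.lf (nat_lit 233291) (.g (nat_lit 2915) (.e (nat_lit 98389) (nat_lit 33) (.e (nat_lit 491560) (nat_lit 10) (.e (nat_lit 344117) (nat_lit 21) (.e (nat_lit 516097) (nat_lit 0) (.e (nat_lit 7589) (nat_lit 406) (.e (nat_lit 65569) (nat_lit 3) .nil)))))) (.g (nat_lit 4) .nil .nil)))) (.nd (nat_lit 6) 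
(.lf (nat_lit 233259) (.g (nat_lit 1290) (.e (nat_lit 98389) (nat_lit 33) (.e (nat_lit 491560) (nat_lit 10) (.e (nat_lit 344090) (nat_lit 18) (.e (nat_lit 3928) (nat_lit 239) .nil)))) .nil)) 
(.lf (nat_lit 233323) (.g (nat_lit 498) (.e (nat_lit 98389) (nat_lit 33) (.e (nat_lit 491560) (nat_lit 10) (.e (nat_lit 344118) (nat_lit 21) .nil))) .nil)))) (.nd (nat_lit 5) (.nd (nat_lit 6) 
(.lf (nat_lit 233243) (.g (nat_lit 1556) (.e (nat_lit 98389) (nat_lit 33) (.e (nat_lit 491558) (nat_lit 10) (.e (nat_lit 344133) (nat_lit 26) (.e (nat_lit 557085) (nat_lit 11) .nil)))) .nil)) 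
(.lf (nat_lit 233307) (.g (nat_lit 5521) (.e (nat_lit 98389) (nat_lit 33) (.e (nat_lit 491560) (nat_lit 10) (.e (nat_lit 344117) (nat_lit 21) (.e (nat_lit 516139) (nat_lit 7) (.e (nat_lit 409641) (nat_lit 17) (.e (nat_lit 294931) (nat_lit 3) .nil)))))) (.g (nat_lit 0) .nil .nil)))) (.nd (nat_lit 6) 
(.lf (nat_lit 233275) (.g (nat_lit 1294) (.e (nat_lit 98389) (nat_lit 33) (.e (nat_lit 491560) (nat_lit 10) (.e (nat_lit 344105) (nat_lit 19) (.e (nat_lit 499910) (nat_lit 8) (.e (nat_lit 171776) (nat_lit 194) .nil))))) .nil)) 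
(.lf (nat_lit 233339) (.g (nat_lit 3437) (.e (nat_lit 98389) (nat_lit 33) (.e (nat_lit 491560) (nat_lit 10) (.e (nat_lit 344118) (nat_lit 21) (.e (nat_lit 516183) (nat_lit 16) (.e (nat_lit 491548) (nat_lit 9) (.e (nat_lit 336019) (nat_lit 3) .nil)))))) (.g (nat_lit 6) .nil .nil))))))) (.nd (nat_lit 3) (.nd (nat_lit 4) (.nd (nat_lit 5) (.nd (nat_lit 6) 
(.lf (nat_lit 233223) (.g (nat_lit 1969) (.e (nat_lit 98389) (nat_lit 33) (.e (nat_lit 491558) (nat_lit 10) (.e (nat_lit 344132) (nat_lit 26) (.e (nat_lit 557070) (nat_lit 9) (.e (nat_lit 7936) (nat_lit 23) (.e (nat_lit 352313) (nat_lit 23) .nil)))))) (.g (nat_lit 4) .nil .nil))) 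
(.lf (nat_lit 233287) (.g (nat_lit 2312) (.e (nat_lit 98389) (nat_lit 33) (.e (nat_lit 491560) (nat_lit 10) (.e (nat_lit 344116) (nat_lit 21) (.e (nat_lit 516185) (nat_lit 16) (.e (nat_lit 491552) (nat_lit 9) .nil))))) .nil))) (.nd (nat_lit 6) 
(.lf (nat_lit 233255) (.g (nat_lit 654) (.e (nat_lit 98389) (nat_lit 33) (.e (nat_lit 491560) (nat_lit 10) (.e (nat_lit 344087) (nat_lit 18) .nil))) .nil)) 
(.lf (nat_lit 233319) (.g (nat_lit 3583) (.e (nat_lit 98389) (nat_lit 33) (.e (nat_lit 491560) (nat_lit 10) (.e (nat_lit 344117) (nat_lit 21) (.e (nat_lit 516185) (nat_lit 16) (.e (nat_lit 491552) (nat_lit 9) (.e (nat_lit 336023) (nat_lit 3) .nil)))))) (.g (nat_lit 0) .nil .nil))))) (.nd (nat_lit 5) (.nd (nat_lit 6) 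
(.lf (nat_lit 233239) (.g (nat_lit 2930) (.e (nat_lit 98389) (nat_lit 33) (.e (nat_lit 491558) (nat_lit 10) (.e (nat_lit 344133) (nat_lit 26) (.e (nat_lit 557070) (nat_lit 9) (.e (nat_lit 333) (nat_lit 26) .nil))))) .nil)) 
(.lf (nat_lit 233303) (.g (nat_lit 3164) (.e (nat_lit 98389) (nat_lit 33) (.e (nat_lit 491560) (nat_lit 10) (.e (nat_lit 344117) (nat_lit 21) (.e (nat_lit 516138) (nat_lit 7) (.e (nat_lit 409640) (nat_lit 17) (.e (nat_lit 294931) (nat_lit 3) .nil)))))) (.g (nat_lit 4) .nil .nil)))) (.nd (nat_lit 6) 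
(.lf (nat_lit 233271) (.g (nat_lit 1022) (.e (nat_lit 98389) (nat_lit 33) (.e (nat_lit 491560) (nat_lit 10) (.e (nat_lit 344101) (nat_lit 18) .nil))) .nil)) 
(.lf (nat_lit 233335) (.g (nat_lit 2589) (.e (nat_lit 98389) (nat_lit 33) (.e (nat_lit 491560) (nat_lit 10) (.e (nat_lit 344118) (nat_lit 21) (.e (nat_lit 516179) (nat_lit 15) (.e (nat_lit 475211) (nat_lit 41) (.e (nat_lit 720640) (nat_lit 3) .nil)))))) (.g (nat_lit 4) .nil .nil)))))) (.nd (nat_lit 4) (.nd (nat_lit 5) (.nd (nat_lit 6) 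
(.lf (nat_lit 233231) (.g (nat_lit 1586) (.e (nat_lit 98389) (nat_lit 33) (.e (nat_lit 491558) (nat_lit 10) (.e (nat_lit 344133) (nat_lit 26) (.e (nat_lit 557064) (nat_lit 9) (.e (nat_lit 315) (nat_lit 23) .nil))))) .nil)) 
(.lf (nat_lit 233295) (.g (nat_lit 2936) (.e (nat_lit 98389) (nat_lit 33) (.e (nat_lit 491560) (nat_lit 10) (.e (nat_lit 344117) (nat_lit 21) (.e (nat_lit 516106) (nat_lit 0) (.e (nat_lit 6966) (nat_lit 377) (.e (nat_lit 2777) (nat_lit 178) (.e (nat_lit 286735) (nat_lit 3) .nil))))))) (.g (nat_lit 4) .nil .nil)))) (.nd (nat_lit 6) 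
(.lf (nat_lit 233263) (.g (nat_lit 601) (.e (nat_lit 98389) (nat_lit 33) (.e (nat_lit 491560) (nat_lit 10) (.e (nat_lit 344094) (nat_lit 18) .nil))) .nil)) 
(.lf (nat_lit 233327) (.g (nat_lit 3094) (.e (nat_lit 98389) (nat_lit 33) (.e (nat_lit 491560) (nat_lit 10) (.e (nat_lit 344118) (nat_lit 21) (.e (nat_lit 516139) (nat_lit 7) (.e (nat_lit 409617) (nat_lit 10) (.e (nat_lit 5355) (nat_lit 298) (.e (nat_lit 1253) (nat_lit 92) .nil))))))) (.g (nat_lit 5) .nil .nil))))) (.nd (nat_lit 5) (.nd (nat_lit 6) 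
(.lf (nat_lit 233247) (.g (nat_lit 4750) (.e (nat_lit 98389) (nat_lit 33) (.e (nat_lit 491558) (nat_lit 10) (.e (nat_lit 344133) (nat_lit 26) (.e (nat_lit 557087) (nat_lit 11) (.e (nat_lit 24628) (nat_lit 9) (.e (nat_lit 336019) (nat_lit 3) .nil)))))) (.g (nat_lit 0) .nil .nil))) 
(.lf (nat_lit 233311) (.g (nat_lit 1514) (.e (nat_lit 98389) (nat_lit 33) (.e (nat_lit 491560) (nat_lit 10) (.e (nat_lit 344117) (nat_lit 21) (.e (nat_lit 516184) (nat_lit 16) .nil)))) .nil))) (.nd (nat_lit 6) 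
(.lf (nat_lit 233279) (.g (nat_lit 793) (.e (nat_lit 98389) (nat_lit 33) (.e (nat_lit 491560) (nat_lit 10) (.e (nat_lit 344109) (nat_lit 19) (.e (nat_lit 499825) (nat_lit 5) .nil)))) .nil)) 
(.lf (nat_lit 233343) (.g (nat_lit 1864) (.e (nat_lit 98389) (nat_lit 33) (.e (nat_lit 491560) (nat_lit 10) (.e (nat_lit 344118) (nat_lit 21) (.e (nat_lit 516185) (nat_lit 16) (.e (nat_lit 491552) (nat_lit 9) (.e (nat_lit 336020) (nat_lit 3) .nil)))))) (.g (nat_lit 4) .nil .nil))))))))))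

noncomputable def tv3051 : DT := (.nd (nat_lit 0) (.nd (nat_lit 1) (.nd (nat_lit 2) (.nd (nat_lit 3) (.nd (nat_lit 4) (.nd (nat_lit 5) (.nd (nat_lit 6) 
(.lf (nat_lit 233344) (.g (nat_lit 2055) (.e (nat_lit 98389) (nat_lit 33) (.e (nat_lit 491560) (nat_lit 10) (.e (nat_lit 344118) (nat_lit 21) (.e (nat_lit 516185) (nat_lit 16) (.e (nat_lit 491552) (nat_lit 9) (.e (nat_lit 336022) (nat_lit 3) .nil)))))) (.g (nat_lit 4) .nil .nil))) 
(.lf (nat_lit 233408) (.g (nat_lit 1320) (.e (nat_lit 98389) (nat_lit 33) (.e (nat_lit 491560) (nat_lit 10) (.e (nat_lit 344130) (nat_lit 26) (.e (nat_lit 557074) (nat_lit 9) (.e (nat_lit 278) (nat_lit 21) .nil))))) .nil))) (.nd (nat_lit 6) 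
(.lf (nat_lit 233376) (.g (nat_lit 3628) (.e (nat_lit 98389) (nat_lit 33) (.e (nat_lit 491560) (nat_lit 10) (.e (nat_lit 344129) (nat_lit 26) (.e (nat_lit 557066) (nat_lit 9) (.e (nat_lit 334) (nat_lit 26) (.e (nat_lit 376867) (nat_lit 23) .nil)))))) (.g (nat_lit 0) .nil .nil))) 
(.lf (nat_lit 233440) (.g (nat_lit 2736) (.e (nat_lit 98389) (nat_lit 33) (.e (nat_lit 491560) (nat_lit 10) (.e (nat_lit 344132) (nat_lit 26) (.e (nat_lit 557070) (nat_lit 9) (.e (nat_lit 333) (nat_lit 26) (.e (nat_lit 376869) (nat_lit 23) .nil)))))) (.g (nat_lit 4) .nil .nil))))) (.nd (nat_lit 5) (.nd (nat_lit 6) 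
(.lf (nat_lit 233360) (.g (nat_lit 2495) (.e (nat_lit 98389) (nat_lit 33) (.e (nat_lit 491560) (nat_lit 10) (.e (nat_lit 344126) (nat_lit 25) (.e (nat_lit 548893) (nat_lit 13) (.e (nat_lit 131109) (nat_lit 9) (.e (nat_lit 336019) (nat_lit 3) .nil)))))) (.g (nat_lit 4) .nil .nil))) 
(.lf (nat_lit 233424) (.g (nat_lit 1731) (.e (nat_lit 98389) (nat_lit 33) (.e (nat_lit 491560) (nat_lit 10) (.e (nat_lit 344131) (nat_lit 26) (.e (nat_lit 557070) (nat_lit 9) (.e (nat_lit 7936) (nat_lit 23) (.e (nat_lit 352313) (nat_lit 23) .nil)))))) (.g (nat_lit 4) .nil .nil)))) (.nd (nat_lit 6) 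
(.lf (nat_lit 233392) (.g (nat_lit 1635) (.e (nat_lit 98389) (nat_lit 33) (.e (nat_lit 491560) (nat_lit 10) (.e (nat_lit 344129) (nat_lit 26) (.e (nat_lit 557086) (nat_lit 11) .nil)))) .nil)) 
(.lf (nat_lit 233456) (.g (nat_lit 1756) (.e (nat_lit 98389) (nat_lit 33) (.e (nat_lit 491560) (nat_lit 10) (.e (nat_lit 344133) (nat_lit 26) (.e (nat_lit 564992) (nat_lit 9) .nil)))) .nil))))) (.nd (nat_lit 4) (.nd (nat_lit 5) (.nd (nat_lit 6) 
(.lf (nat_lit 233352) (.g (nat_lit 3555) (.e (nat_lit 98389) (nat_lit 33) (.e (nat_lit 491560) (nat_lit 10) (.e (nat_lit 344125) (nat_lit 25) (.e (nat_lit 548891) (nat_lit 11) (.e (nat_lit 81956) (nat_lit 23) .nil))))) (.g (nat_lit 0) .nil .nil))) 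
(.lf (nat_lit 233416) (.g (nat_lit 2211) (.e (nat_lit 98389) (nat_lit 33) (.e (nat_lit 491560) (nat_lit 10) (.e (nat_lit 344130) (nat_lit 26) (.e (nat_lit 557087) (nat_lit 11) (.e (nat_lit 24634) (nat_lit 9) (.e (nat_lit 336023) (nat_lit 3) .nil)))))) (.g (nat_lit 0) .nil .nil)))) (.nd (nat_lit 6) 
(.lf (nat_lit 233384) (.g (nat_lit 2220) (.e (nat_lit 98389) (nat_lit 33) (.e (nat_lit 491560) (nat_lit 10) (.e (nat_lit 344129) (nat_lit 26) (.e (nat_lit 557070) (nat_lit 9) (.e (nat_lit 7936) (nat_lit 26) .nil))))) .nil)) 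
(.lf (nat_lit 233448) (.g (nat_lit 3484) (.e (nat_lit 98389) (nat_lit 33) (.e (nat_lit 491560) (nat_lit 10) (.e (nat_lit 344133) (nat_lit 26) (.e (nat_lit 557066) (nat_lit 9) (.e (nat_lit 314) (nat_lit 23) (.e (nat_lit 352313) (nat_lit 23) .nil)))))) (.g (nat_lit 5) .nil .nil))))) (.nd (nat_lit 5) (.nd (nat_lit 6) 
(.lf (nat_lit 233368) (.g (nat_lit 2882) (.e (nat_lit 98389) (nat_lit 33) (.e (nat_lit 491560) (nat_lit 10) (.e (nat_lit 344129) (nat_lit 26) (.e (nat_lit 557064) (nat_lit 9) (.e (nat_lit 334) (nat_lit 26) .nil))))) .nil)) 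
(.lf (nat_lit 233432) (.g (nat_lit 2814) (.e (nat_lit 98389) (nat_lit 33) (.e (nat_lit 491560) (nat_lit 10) (.e (nat_lit 344131) (nat_lit 26) (.e (nat_lit 557087) (nat_lit 11) (.e (nat_lit 24636) (nat_lit 9) (.e (nat_lit 336017) (nat_lit 3) .nil)))))) (.g (nat_lit 5) .nil .nil)))) (.nd (nat_lit 6) 
(.lf (nat_lit 233400) (.g (nat_lit 1451) (.e (nat_lit 98389) (nat_lit 33) (.e (nat_lit 491560) (nat_lit 10) (.e (nat_lit 344130) (nat_lit 26) (.e (nat_lit 557064) (nat_lit 9) (.e (nat_lit 334) (nat_lit 26) .nil))))) .nil)) 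
(.lf (nat_lit 233464) (.g (nat_lit 1022) (.e (nat_lit 98389) (nat_lit 33) (.e (nat_lit 491560) (nat_lit 10) (.e (nat_lit 344134) (nat_lit 27) .nil))) .nil)))))) (.nd (nat_lit 3) (.nd (nat_lit 4) (.nd (nat_lit 5) (.nd (nat_lit 6) 
(.lf (nat_lit 233348) (.g (nat_lit 2635) (.e (nat_lit 98389) (nat_lit 33) (.e (nat_lit 491560) (nat_lit 10) (.e (nat_lit 344120) (nat_lit 21) (.e (nat_lit 516139) (nat_lit 7) (.e (nat_lit 409640) (nat_lit 17) (.e (nat_lit 294931) (nat_lit 3) .nil)))))) (.g (nat_lit 4) .nil .nil))) 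
(.lf (nat_lit 233412) (.g (nat_lit 1655) (.e (nat_lit 98389) (nat_lit 33) (.e (nat_lit 491560) (nat_lit 10) (.e (nat_lit 344130) (nat_lit 26) (.e (nat_lit 557074) (nat_lit 9) (.e (nat_lit 7936) (nat_lit 26) (.e (nat_lit 376869) (nat_lit 23) .nil)))))) (.g (nat_lit 4) .nil .nil)))) (.nd (nat_lit 6) 
(.lf (nat_lit 233380) (.g (nat_lit 3115) (.e (nat_lit 98389) (nat_lit 33) (.e (nat_lit 491560) (nat_lit 10) (.e (nat_lit 344129) (nat_lit 26) (.e (nat_lit 557070) (nat_lit 9) (.e (nat_lit 313) (nat_lit 23) (.e (nat_lit 352313) (nat_lit 23) .nil)))))) (.g (nat_lit 4) .nil .nil))) 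
(.lf (nat_lit 233444) (.g (nat_lit 1360) (.e (nat_lit 98389) (nat_lit 33) (.e (nat_lit 491560) (nat_lit 10) (.e (nat_lit 344132) (nat_lit 26) (.e (nat_lit 557081) (nat_lit 9) .nil)))) .nil)))) (.nd (nat_lit 5) (.nd (nat_lit 6) 
(.lf (nat_lit 233364) (.g (nat_lit 1767) (.e (nat_lit 98389) (nat_lit 33) (.e (nat_lit 491560) (nat_lit 10) (.e (nat_lit 344128) (nat_lit 26) (.e (nat_lit 557081) (nat_lit 9) (.e (nat_lit 316) (nat_lit 23) (.e (nat_lit 352313) (nat_lit 23) .nil)))))) (.g (nat_lit 4) .nil .nil))) 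
(.lf (nat_lit 233428) (.g (nat_lit 1823) (.e (nat_lit 98389) (nat_lit 33) (.e (nat_lit 491560) (nat_lit 10) (.e (nat_lit 344131) (nat_lit 26) (.e (nat_lit 557087) (nat_lit 11) (.e (nat_lit 24625) (nat_lit 9) (.e (nat_lit 336018) (nat_lit 3) .nil)))))) (.g (nat_lit 4) .nil .nil)))) (.nd (nat_lit 6) 
(.lf (nat_lit 233396) (.g (nat_lit 3417) (.e (nat_lit 98389) (nat_lit 33) (.e (nat_lit 491560) (nat_lit 10) (.e (nat_lit 344129) (nat_lit 26) (.e (nat_lit 557087) (nat_lit 11) (.e (nat_lit 24636) (nat_lit 9) (.e (nat_lit 336017) (nat_lit 3) .nil)))))) (.g (nat_lit 0) .nil .nil))) 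
(.lf (nat_lit 233460) (.g (nat_lit 3904) (.e (nat_lit 98389) (nat_lit 33) (.e (nat_lit 491560) (nat_lit 10) (.e (nat_lit 344133) (nat_lit 26) (.e (nat_lit 557087) (nat_lit 11) (.e (nat_lit 24631) (nat_lit 9) (.e (nat_lit 336020) (nat_lit 3) .nil)))))) (.g (nat_lit 5) .nil .nil)))))) (.nd (nat_lit 4) (.nd (nat_lit 5) (.nd (nat_lit 6) 
(.lf (nat_lit 233356) (.g (nat_lit 1203) (.e (nat_lit 98389) (nat_lit 33) (.e (nat_lit 491560) (nat_lit 10) (.e (nat_lit 344126) (nat_lit 25) (.e (nat_lit 548873) (nat_lit 5) .nil)))) .nil)) 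
(.lf (nat_lit 233420) (.g (nat_lit 1066) (.e (nat_lit 98389) (nat_lit 33) (.e (nat_lit 491560) (nat_lit 10) (.e (nat_lit 344131) (nat_lit 26) (.e (nat_lit 557064) (nat_lit 9) .nil)))) .nil))) (.nd (nat_lit 6) 
(.lf (nat_lit 233388) (.g (nat_lit 2963) (.e (nat_lit 98389) (nat_lit 33) (.e (nat_lit 491560) (nat_lit 10) (.e (nat_lit 344129) (nat_lit 26) (.e (nat_lit 557074) (nat_lit 9) (.e (nat_lit 278) (nat_lit 21) (.e (nat_lit 336152) (nat_lit 9) (.e (nat_lit 336017) (nat_lit 3) .nil))))))) (.g (nat_lit 4) .nil .nil))) 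
(.lf (nat_lit 233452) (.g (nat_lit 2292) (.e (nat_lit 98389) (nat_lit 33) (.e (nat_lit 491560) (nat_lit 10) (.e (nat_lit 344133) (nat_lit 26) (.e (nat_lit 557068) (nat_lit 9) (.e (nat_lit 7936) (nat_lit 23) (.e (nat_lit 352313) (nat_lit 23) .nil)))))) (.g (nat_lit 4) .nil .nil))))) (.nd (nat_lit 5) (.nd (nat_lit 6) 
(.lf (nat_lit 233372) (.g (nat_lit 2790) (.e (nat_lit 98389) (nat_lit 33) (.e (nat_lit 491560) (nat_lit 10) (.e (nat_lit 344129) (nat_lit 26) (.e (nat_lit 557065) (nat_lit 9) (.e (nat_lit 7936) (nat_lit 23) .nil))))) .nil)) 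
(.lf (nat_lit 233436) (.g (nat_lit 1670) (.e (nat_lit 98389) (nat_lit 33) (.e (nat_lit 491560) (nat_lit 10) (.e (nat_lit 344132) (nat_lit 26) (.e (nat_lit 557064) (nat_lit 9) (.e (nat_lit 315) (nat_lit 23) .nil))))) .nil))) (.nd (nat_lit 6) 
(.lf (nat_lit 233404) (.g (nat_lit 1567) (.e (nat_lit 98389) (nat_lit 33) (.e (nat_lit 491560) (nat_lit 10) (.e (nat_lit 344130) (nat_lit 26) (.e (nat_lit 557067) (nat_lit 9) (.e (nat_lit 7936) (nat_lit 23) .nil))))) .nil)) 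
(.lf (nat_lit 233468) (.g (nat_lit 2070) (.e (nat_lit 98389) (nat_lit 33) (.e (nat_lit 491560) (nat_lit 10) (.e (nat_lit 344177) (nat_lit 43) (.e (nat_lit 770068) (nat_lit 7) .nil)))) .nil))))))) (.nd (nat_lit 2) (.nd (nat_lit 3) (.nd (nat_lit 4) (.nd (nat_lit 5) (.nd (nat_lit 6) 
(.lf (nat_lit 233346) (.g (nat_lit 686) (.e (nat_lit 98389) (nat_lit 33) (.e (nat_lit 491560) (nat_lit 10) (.e (nat_lit 344120) (nat_lit 21) .nil))) .nil)) 
(.lf (nat_lit 233410) (.g (nat_lit 2013) (.e (nat_lit 98389) (nat_lit 33) (.e (nat_lit 491560) (nat_lit 10) (.e (nat_lit 344130) (nat_lit 26) (.e (nat_lit 557074) (nat_lit 9) (.e (nat_lit 7936) (nat_lit 26) (.e (nat_lit 376866) (nat_lit 23) .nil)))))) (.g (nat_lit 4) .nil .nil)))) (.nd (nat_lit 6) 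
(.lf (nat_lit 233378) (.g (nat_lit 1874) (.e (nat_lit 98389) (nat_lit 33) (.e (nat_lit 491560) (nat_lit 10) (.e (nat_lit 344129) (nat_lit 26) (.e (nat_lit 557067) (nat_lit 9) (.e (nat_lit 7936) (nat_lit 26) .nil))))) .nil)) 
(.lf (nat_lit 233442) (.g (nat_lit 2476) (.e (nat_lit 98389) (nat_lit 33) (.e (nat_lit 491560) (nat_lit 10) (.e (nat_lit 344132) (nat_lit 26) (.e (nat_lit 557070) (nat_lit 9) (.e (nat_lit 7936) (nat_lit 26) (.e (nat_lit 376869) (nat_lit 23) .nil)))))) (.g (nat_lit 4) .nil .nil))))) (.nd (nat_lit 5) (.nd (nat_lit 6) 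
(.lf (nat_lit 233362) (.g (nat_lit 1812) (.e (nat_lit 98389) (nat_lit 33) (.e (nat_lit 491560) (nat_lit 10) (.e (nat_lit 344127) (nat_lit 26) (.e (nat_lit 557066) (nat_lit 9) (.e (nat_lit 334) (nat_lit 26) .nil))))) .nil)) 
(.lf (nat_lit 233426) (.g (nat_lit 2066) (.e (nat_lit 98389) (nat_lit 33) (.e (nat_lit 491560) (nat_lit 10) (.e (nat_lit 344131) (nat_lit 26) (.e (nat_lit 557070) (nat_lit 9) (.e (nat_lit 333) (nat_lit 26) (.e (nat_lit 376869) (nat_lit 23) .nil)))))) (.g (nat_lit 4) .nil .nil)))) (.nd (nat_lit 6) 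
(.lf (nat_lit 233394) (.g (nat_lit 4064) (.e (nat_lit 98389) (nat_lit 33) (.e (nat_lit 491560) (nat_lit 10) (.e (nat_lit 344129) (nat_lit 26) (.e (nat_lit 557087) (nat_lit 11) (.e (nat_lit 24628) (nat_lit 9) (.e (nat_lit 336019) (nat_lit 3) .nil)))))) (.g (nat_lit 0) .nil .nil))) 
(.lf (nat_lit 233458) (.g (nat_lit 1713) (.e (nat_lit 98389) (nat_lit 33) (.e (nat_lit 491560) (nat_lit 10) (.e (nat_lit 344133) (nat_lit 26) (.e (nat_lit 557086) (nat_lit 11) .nil)))) .nil))))) (.nd (nat_lit 4) (.nd (nat_lit 5) (.nd (nat_lit 6) 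
(.lf (nat_lit 233354) (.g (nat_lit 1594) (.e (nat_lit 98389) (nat_lit 33) (.e (nat_lit 491560) (nat_lit 10) (.e (nat_lit 344126) (nat_lit 25) (.e (nat_lit 548872) (nat_lit 5) .nil)))) .nil)) 
(.lf (nat_lit 233418) (.g (nat_lit 2363) (.e (nat_lit 98389) (nat_lit 33) (.e (nat_lit 491560) (nat_lit 10) (.e (nat_lit 344130) (nat_lit 26) (.e (nat_lit 557087) (nat_lit 11) (.e (nat_lit 24637) (nat_lit 9) .nil))))) .nil))) (.nd (nat_lit 6) 
(.lf (nat_lit 233386) (.g (nat_lit 2236) (.e (nat_lit 98389) (nat_lit 33) (.e (nat_lit 491560) (nat_lit 10) (.e (nat_lit 344129) (nat_lit 26) (.e (nat_lit 557074) (nat_lit 9) (.e (nat_lit 250) (nat_lit 21) .nil))))) .nil)) 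
(.lf (nat_lit 233450) (.g (nat_lit 3409) (.e (nat_lit 98389) (nat_lit 33) (.e (nat_lit 491560) (nat_lit 10) (.e (nat_lit 344133) (nat_lit 26) (.e (nat_lit 557066) (nat_lit 9) (.e (nat_lit 334) (nat_lit 26) (.e (nat_lit 376869) (nat_lit 23) .nil)))))) (.g (nat_lit 5) .nil .nil))))) (.nd (nat_lit 5) (.nd (nat_lit 6) 
(.lf (nat_lit 233370) (.g (nat_lit 3063) (.e (nat_lit 98389) (nat_lit 33) (.e (nat_lit 491560) (nat_lit 10) (.e (nat_lit 344129) (nat_lit 26) (.e (nat_lit 557065) (nat_lit 9) (.e (nat_lit 310) (nat_lit 23) (.e (nat_lit 352315) (nat_lit 23) .nil)))))) (.g (nat_lit 4) .nil .nil))) 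
(.lf (nat_lit 233434) (.g (nat_lit 471) (.e (nat_lit 98389) (nat_lit 33) (.e (nat_lit 491560) (nat_lit 10) (.e (nat_lit 344132) (nat_lit 26) .nil))) .nil))) (.nd (nat_lit 6) 
(.lf (nat_lit 233402) (.g (nat_lit 2812) (.e (nat_lit 98389) (nat_lit 33) (.e (nat_lit 491560) (nat_lit 10) (.e (nat_lit 344130) (nat_lit 26) (.e (nat_lit 557066) (nat_lit 9) (.e (nat_lit 334) (nat_lit 26) (.e (nat_lit 376867) (nat_lit 23) .nil)))))) (.g (nat_lit 0) .nil .nil))) 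
(.lf (nat_lit 233466) (.g (nat_lit 943) (.e (nat_lit 98389) (nat_lit 33) (.e (nat_lit 491560) (nat_lit 10) (.e (nat_lit 344135) (nat_lit 27) (.e (nat_lit 565272) (nat_lit 9) .nil)))) .nil)))))) (.nd (nat_lit 3) (.nd (nat_lit 4) (.nd (nat_lit 5) (.nd (nat_lit 6) 
(.lf (nat_lit 233350) (.g (nat_lit 3133) (.e (nat_lit 98389) (nat_lit 33) (.e (nat_lit 491560) (nat_lit 10) (.e (nat_lit 344124) (nat_lit 25) (.e (nat_lit 548891) (nat_lit 11) (.e (nat_lit 81956) (nat_lit 23) .nil))))) (.g (nat_lit 0) .nil .nil))) 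
(.lf (nat_lit 233414) (.g (nat_lit 2040) (.e (nat_lit 98389) (nat_lit 33) (.e (nat_lit 491560) (nat_lit 10) (.e (nat_lit 344130) (nat_lit 26) (.e (nat_lit 557085) (nat_lit 11) (.e (nat_lit 24628) (nat_lit 9) (.e (nat_lit 336019) (nat_lit 3) .nil)))))) (.g (nat_lit 4) .nil .nil)))) (.nd (nat_lit 6) 
(.lf (nat_lit 233382) (.g (nat_lit 2463) (.e (nat_lit 98389) (nat_lit 33) (.e (nat_lit 491560) (nat_lit 10) (.e (nat_lit 344129) (nat_lit 26) (.e (nat_lit 557070) (nat_lit 9) (.e (nat_lit 7936) (nat_lit 23) (.e (nat_lit 352313) (nat_lit 23) .nil)))))) (.g (nat_lit 4) .nil .nil))) 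
(.lf (nat_lit 233446) (.g (nat_lit 1442) (.e (nat_lit 98389) (nat_lit 33) (.e (nat_lit 491560) (nat_lit 10) (.e (nat_lit 344132) (nat_lit 26) (.e (nat_lit 557087) (nat_lit 11) .nil)))) .nil)))) (.nd (nat_lit 5) (.nd (nat_lit 6) 
(.lf (nat_lit 233366) (.g (nat_lit 2120) (.e (nat_lit 98389) (nat_lit 33) (.e (nat_lit 491560) (nat_lit 10) (.e (nat_lit 344129) (nat_lit 26) (.e (nat_lit 557064) (nat_lit 9) .nil)))) .nil)) 
(.lf (nat_lit 233430) (.g (nat_lit 2329) (.e (nat_lit 98389) (nat_lit 33) (.e (nat_lit 491560) (nat_lit 10) (.e (nat_lit 344131) (nat_lit 26) (.e (nat_lit 557087) (nat_lit 11) (.e (nat_lit 24625) (nat_lit 9) (.e (nat_lit 343808) (nat_lit 3) .nil)))))) (.g (nat_lit 5) .nil .nil)))) (.nd (nat_lit 6) 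
(.lf (nat_lit 233398) (.g (nat_lit 359) (.e (nat_lit 98389) (nat_lit 33) (.e (nat_lit 491560) (nat_lit 10) (.e (nat_lit 344130) (nat_lit 26) .nil))) .nil)) 
(.lf (nat_lit 233462) (.g (nat_lit 3521) (.e (nat_lit 98389) (nat_lit 33) (.e (nat_lit 491560) (nat_lit 10) (.e (nat_lit 344133) (nat_lit 26) (.e (nat_lit 557087) (nat_lit 11) (.e (nat_lit 24636) (nat_lit 9) (.e (nat_lit 336017) (nat_lit 3) .nil)))))) (.g (nat_lit 5) .nil .nil)))))) (.nd (nat_lit 4) (.nd (nat_lit 5) (.nd (nat_lit 6) 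
(.lf (nat_lit 233358) (.g (nat_lit 2441) (.e (nat_lit 98389) (nat_lit 33) (.e (nat_lit 491560) (nat_lit 10) (.e (nat_lit 344126) (nat_lit 25) (.e (nat_lit 548874) (nat_lit 5) (.e (nat_lit 1616) (nat_lit 113) .nil))))) .nil)) 
(.lf (nat_lit 233422) (.g (nat_lit 2763) (.e (nat_lit 98389) (nat_lit 33) (.e (nat_lit 491560) (nat_lit 10) (.e (nat_lit 344131) (nat_lit 26) (.e (nat_lit 557066) (nat_lit 9) (.e (nat_lit 314) (nat_lit 23) (.e (nat_lit 352313) (nat_lit 23) .nil)))))) (.g (nat_lit 0) .nil .nil)))) (.nd (nat_lit 6) 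
(.lf (nat_lit 233390) (.g (nat_lit 1750) (.e (nat_lit 98389) (nat_lit 33) (.e (nat_lit 491560) (nat_lit 10) (.e (nat_lit 344129) (nat_lit 26) (.e (nat_lit 564992) (nat_lit 9) .nil)))) .nil)) 
(.lf (nat_lit 233454) (.g (nat_lit 2094) (.e (nat_lit 98389) (nat_lit 33) (.e (nat_lit 491560) (nat_lit 10) (.e (nat_lit 344133) (nat_lit 26) (.e (nat_lit 557070) (nat_lit 9) .nil)))) .nil)))) (.nd (nat_lit 5) (.nd (nat_lit 6) 
(.lf (nat_lit 233374) (.g (nat_lit 1024) (.e (nat_lit 98389) (nat_lit 33) (.e (nat_lit 491560) (nat_lit 10) (.e (nat_lit 344129) (nat_lit 26) (.e (nat_lit 557066) (nat_lit 9) .nil)))) .nil)) 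
(.lf (nat_lit 233438) (.g (nat_lit 2273) (.e (nat_lit 98389) (nat_lit 33) (.e (nat_lit 491560) (nat_lit 10) (.e (nat_lit 344132) (nat_lit 26) (.e (nat_lit 557070) (nat_lit 9) (.e (nat_lit 7936) (nat_lit 23) (.e (nat_lit 352313) (nat_lit 23) .nil)))))) (.g (nat_lit 4) .nil .nil)))) (.nd (nat_lit 6) 
(.lf (nat_lit 233406) (.g (nat_lit 918) (.e (nat_lit 98389) (nat_lit 33) (.e (nat_lit 491560) (nat_lit 10) (.e (nat_lit 344130) (nat_lit 26) (.e (nat_lit 557070) (nat_lit 9) .nil)))) .nil)) 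
(.lf (nat_lit 233470) (.g (nat_lit 778) (.e (nat_lit 98389) (nat_lit 33) (.e (nat_lit 491562) (nat_lit 12) (.e (nat_lit 385049) (nat_lit 21) .nil))) .nil)))))))) (.nd (nat_lit 1) (.nd (nat_lit 2) (.nd (nat_lit 3) (.nd (nat_lit 4) (.nd (nat_lit 5) (.nd (nat_lit 6) 
(.lf (nat_lit 233345) (.g (nat_lit 2096) (.e (nat_lit 98389) (nat_lit 33) (.e (nat_lit 491560) (nat_lit 10) (.e (nat_lit 344118) (nat_lit 21) (.e (nat_lit 516185) (nat_lit 16) (.e (nat_lit 491552) (nat_lit 9) (.e (nat_lit 336023) (nat_lit 3) .nil)))))) (.g (nat_lit 4) .nil .nil))) 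
(.lf (nat_lit 233409) (.g (nat_lit 1518) (.e (nat_lit 98389) (nat_lit 33) (.e (nat_lit 491560) (nat_lit 10) (.e (nat_lit 344130) (nat_lit 26) (.e (nat_lit 557074) (nat_lit 9) (.e (nat_lit 7936) (nat_lit 23) (.e (nat_lit 352313) (nat_lit 23) .nil)))))) (.g (nat_lit 4) .nil .nil)))) (.nd (nat_lit 6) 
(.lf (nat_lit 233377) (.g (nat_lit 3719) (.e (nat_lit 98389) (nat_lit 33) (.e (nat_lit 491560) (nat_lit 10) (.e (nat_lit 344129) (nat_lit 26) (.e (nat_lit 557066) (nat_lit 9) (.e (nat_lit 334) (nat_lit 26) (.e (nat_lit 376869) (nat_lit 23) .nil)))))) (.g (nat_lit 0) .nil .nil))) 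
(.lf (nat_lit 233441) (.g (nat_lit 1899) (.e (nat_lit 98389) (nat_lit 33) (.e (nat_lit 491560) (nat_lit 10) (.e (nat_lit 344132) (nat_lit 26) (.e (nat_lit 557070) (nat_lit 9) (.e (nat_lit 7936) (nat_lit 26) .nil))))) .nil)))) (.nd (nat_lit 5) (.nd (nat_lit 6) 
(.lf (nat_lit 233361) (.g (nat_lit 593) (.e (nat_lit 98389) (nat_lit 33) (.e (nat_lit 491560) (nat_lit 10) (.e (nat_lit 344127) (nat_lit 26) .nil))) .nil)) 
(.lf (nat_lit 233425) (.g (nat_lit 2097) (.e (nat_lit 98389) (nat_lit 33) (.e (nat_lit 491560) (nat_lit 10) (.e (nat_lit 344131) (nat_lit 26) (.e (nat_lit 557070) (nat_lit 9) (.e (nat_lit 333) (nat_lit 26) (.e (nat_lit 376867) (nat_lit 23) .nil)))))) (.g (nat_lit 4) .nil .nil)))) (.nd (nat_lit 6) 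
(.lf (nat_lit 233393) (.g (nat_lit 2291) (.e (nat_lit 98389) (nat_lit 33) (.e (nat_lit 491560) (nat_lit 10) (.e (nat_lit 344129) (nat_lit 26) (.e (nat_lit 557086) (nat_lit 11) (.e (nat_lit 24628) (nat_lit 9) .nil))))) .nil)) 
(.lf (nat_lit 233457) (.g (nat_lit 1869) (.e (nat_lit 98389) (nat_lit 33) (.e (nat_lit 491560) (nat_lit 10) (.e (nat_lit 344133) (nat_lit 26) (.e (nat_lit 557085) (nat_lit 11) .nil)))) .nil))))) (.nd (nat_lit 4) (.nd (nat_lit 5) (.nd (nat_lit 6) 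
(.lf (nat_lit 233353) (.g (nat_lit 1427) (.e (nat_lit 98389) (nat_lit 33) (.e (nat_lit 491560) (nat_lit 10) (.e (nat_lit 344126) (nat_lit 25) (.e (nat_lit 548870) (nat_lit 5) .nil)))) .nil)) 
(.lf (nat_lit 233417) (.g (nat_lit 2834) (.e (nat_lit 98389) (nat_lit 33) (.e (nat_lit 491560) (nat_lit 10) (.e (nat_lit 344130) (nat_lit 26) (.e (nat_lit 557087) (nat_lit 11) (.e (nat_lit 24636) (nat_lit 9) (.e (nat_lit 336017) (nat_lit 3) .nil)))))) (.g (nat_lit 0) .nil .nil)))) (.nd (nat_lit 6) 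
(.lf (nat_lit 233385) (.g (nat_lit 2547) (.e (nat_lit 98389) (nat_lit 33) (.e (nat_lit 491560) (nat_lit 10) (.e (nat_lit 344129) (nat_lit 26) (.e (nat_lit 557070) (nat_lit 9) (.e (nat_lit 7936) (nat_lit 26) (.e (nat_lit 376869) (nat_lit 23) .nil)))))) (.g (nat_lit 4) .nil .nil))) 
(.lf (nat_lit 233449) (.g (nat_lit 3261) (.e (nat_lit 98389) (nat_lit 33) (.e (nat_lit 491560) (nat_lit 10) (.e (nat_lit 344133) (nat_lit 26) (.e (nat_lit 557066) (nat_lit 9) (.e (nat_lit 334) (nat_lit 26) (.e (nat_lit 376867) (nat_lit 23) .nil)))))) (.g (nat_lit 5) .nil .nil))))) (.nd (nat_lit 5) (.nd (nat_lit 6) 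
(.lf (nat_lit 233369) (.g (nat_lit 1646) (.e (nat_lit 98389) (nat_lit 33) (.e (nat_lit 491560) (nat_lit 10) (.e (nat_lit 344129) (nat_lit 26) (.e (nat_lit 557065) (nat_lit 9) .nil)))) .nil)) 
(.lf (nat_lit 233433) (.g (nat_lit 3260) (.e (nat_lit 98389) (nat_lit 33) (.e (nat_lit 491560) (nat_lit 10) (.e (nat_lit 344131) (nat_lit 26) (.e (nat_lit 557087) (nat_lit 11) (.e (nat_lit 24638) (nat_lit 9) (.e (nat_lit 336021) (nat_lit 3) .nil)))))) (.g (nat_lit 5) .nil .nil)))) (.nd (nat_lit 6) 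
(.lf (nat_lit 233401) (.g (nat_lit 2896) (.e (nat_lit 98389) (nat_lit 33) (.e (nat_lit 491560) (nat_lit 10) (.e (nat_lit 344130) (nat_lit 26) (.e (nat_lit 557065) (nat_lit 9) (.e (nat_lit 334) (nat_lit 26) (.e (nat_lit 376869) (nat_lit 23) .nil)))))) (.g (nat_lit 6) .nil .nil))) 
(.lf (nat_lit 233465) (.g (nat_lit 844) (.e (nat_lit 98389) (nat_lit 33) (.e (nat_lit 491560) (nat_lit 10) (.e (nat_lit 344135) (nat_lit 27) .nil))) .nil)))))) (.nd (nat_lit 3) (.nd (nat_lit 4) (.nd (nat_lit 5) (.nd (nat_lit 6) 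
(.lf (nat_lit 233349) (.g (nat_lit 584) (.e (nat_lit 98389) (nat_lit 33) (.e (nat_lit 491560) (nat_lit 10) (.e (nat_lit 352000) (nat_lit 23) .nil))) .nil)) 
(.lf (nat_lit 233413) (.g (nat_lit 1100) (.e (nat_lit 98389) (nat_lit 33) (.e (nat_lit 491560) (nat_lit 10) (.e (nat_lit 344130) (nat_lit 26) (.e (nat_lit 564992) (nat_lit 9) .nil)))) .nil))) (.nd (nat_lit 6) 
(.lf (nat_lit 233381) (.g (nat_lit 3332) (.e (nat_lit 98389) (nat_lit 33) (.e (nat_lit 491560) (nat_lit 10) (.e (nat_lit 344129) (nat_lit 26) (.e (nat_lit 557070) (nat_lit 9) (.e (nat_lit 313) (nat_lit 23) (.e (nat_lit 352315) (nat_lit 23) .nil)))))) (.g (nat_lit 4) .nil .nil))) 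
(.lf (nat_lit 233445) (.g (nat_lit 1414) (.e (nat_lit 98389) (nat_lit 33) (.e (nat_lit 491560) (nat_lit 10) (.e (nat_lit 344132) (nat_lit 26) (.e (nat_lit 557085) (nat_lit 11) .nil)))) .nil)))) (.nd (nat_lit 5) (.nd (nat_lit 6) 
(.lf (nat_lit 233365) (.g (nat_lit 248) (.e (nat_lit 98389) (nat_lit 33) (.e (nat_lit 491560) (nat_lit 10) (.e (nat_lit 344129) (nat_lit 26) .nil))) .nil)) 
(.lf (nat_lit 233429) (.g (nat_lit 3354) (.e (nat_lit 98389) (nat_lit 33) (.e (nat_lit 491560) (nat_lit 10) (.e (nat_lit 344131) (nat_lit 26) (.e (nat_lit 557087) (nat_lit 11) (.e (nat_lit 24625) (nat_lit 9) (.e (nat_lit 336019) (nat_lit 3) .nil)))))) (.g (nat_lit 6) .nil .nil)))) (.nd (nat_lit 6) 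
(.lf (nat_lit 233397) (.g (nat_lit 3136) (.e (nat_lit 98389) (nat_lit 33) (.e (nat_lit 491560) (nat_lit 10) (.e (nat_lit 344129) (nat_lit 26) (.e (nat_lit 557087) (nat_lit 11) (.e (nat_lit 24637) (nat_lit 9) (.e (nat_lit 336021) (nat_lit 3) .nil)))))) (.g (nat_lit 4) .nil .nil))) 
(.lf (nat_lit 233461) (.g (nat_lit 2939) (.e (nat_lit 98389) (nat_lit 33) (.e (nat_lit 491560) (nat_lit 10) (.e (nat_lit 344133) (nat_lit 26) (.e (nat_lit 557087) (nat_lit 11) (.e (nat_lit 24634) (nat_lit 9) (.e (nat_lit 336023) (nat_lit 3) .nil)))))) (.g (nat_lit 4) .nil .nil)))))) (.nd (nat_lit 4) (.nd (nat_lit 5) (.nd (nat_lit 6) 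
(.lf (nat_lit 233357) (.g (nat_lit 1258) (.e (nat_lit 98389) (nat_lit 33) (.e (nat_lit 491560) (nat_lit 10) (.e (nat_lit 344126) (nat_lit 25) (.e (nat_lit 548874) (nat_lit 5) .nil)))) .nil)) 
(.lf (nat_lit 233421) (.g (nat_lit 1320) (.e (nat_lit 98389) (nat_lit 33) (.e (nat_lit 491560) (nat_lit 10) (.e (nat_lit 344131) (nat_lit 26) (.e (nat_lit 557064) (nat_lit 9) (.e (nat_lit 314) (nat_lit 23) .nil))))) .nil))) (.nd (nat_lit 6) 
(.lf (nat_lit 233389) (.g (nat_lit 2570) (.e (nat_lit 98389) (nat_lit 33) (.e (nat_lit 491560) (nat_lit 10) (.e (nat_lit 344129) (nat_lit 26) (.e (nat_lit 557074) (nat_lit 9) (.e (nat_lit 7936) (nat_lit 26) (.e (nat_lit 376868) (nat_lit 23) .nil)))))) (.g (nat_lit 4) .nil .nil))) 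
(.lf (nat_lit 233453) (.g (nat_lit 2696) (.e (nat_lit 98389) (nat_lit 33) (.e (nat_lit 491560) (nat_lit 10) (.e (nat_lit 344133) (nat_lit 26) (.e (nat_lit 557068) (nat_lit 9) (.e (nat_lit 7936) (nat_lit 23) (.e (nat_lit 352315) (nat_lit 23) .nil)))))) (.g (nat_lit 4) .nil .nil))))) (.nd (nat_lit 5) (.nd (nat_lit 6) 
(.lf (nat_lit 233373) (.g (nat_lit 2790) (.e (nat_lit 98389) (nat_lit 33) (.e (nat_lit 491560) (nat_lit 10) (.e (nat_lit 344129) (nat_lit 26) (.e (nat_lit 557065) (nat_lit 9) (.e (nat_lit 7936) (nat_lit 26) .nil))))) .nil)) 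
(.lf (nat_lit 233437) (.g (nat_lit 1866) (.e (nat_lit 98389) (nat_lit 33) (.e (nat_lit 491560) (nat_lit 10) (.e (nat_lit 344132) (nat_lit 26) (.e (nat_lit 557065) (nat_lit 9) (.e (nat_lit 334) (nat_lit 26) .nil))))) .nil))) (.nd (nat_lit 6) 
(.lf (nat_lit 233405) (.g (nat_lit 1567) (.e (nat_lit 98389) (nat_lit 33) (.e (nat_lit 491560) (nat_lit 10) (.e (nat_lit 344130) (nat_lit 26) (.e (nat_lit 557067) (nat_lit 9) (.e (nat_lit 7936) (nat_lit 26) .nil))))) .nil)) 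
(.lf (nat_lit 233469) (.g (nat_lit 762) (.e (nat_lit 98389) (nat_lit 33) (.e (nat_lit 491562) (nat_lit 12) (.e (nat_lit 385047) (nat_lit 21) .nil))) .nil))))))) (.nd (nat_lit 2) (.nd (nat_lit 3) (.nd (nat_lit 4) (.nd (nat_lit 5) (.nd (nat_lit 6) 
(.lf (nat_lit 233347) (.g (nat_lit 901) (.e (nat_lit 98389) (nat_lit 33) (.e (nat_lit 491560) (nat_lit 10) (.e (nat_lit 344120) (nat_lit 21) (.e (nat_lit 516106) (nat_lit 0) .nil)))) .nil)) 
(.lf (nat_lit 233411) (.g (nat_lit 1496) (.e (nat_lit 98389) (nat_lit 33) (.e (nat_lit 491560) (nat_lit 10) (.e (nat_lit 344130) (nat_lit 26) (.e (nat_lit 557074) (nat_lit 9) (.e (nat_lit 7936) (nat_lit 26) (.e (nat_lit 376867) (nat_lit 23) .nil)))))) (.g (nat_lit 4) .nil .nil)))) (.nd (nat_lit 6) 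
(.lf (nat_lit 233379) (.g (nat_lit 1544) (.e (nat_lit 98389) (nat_lit 33) (.e (nat_lit 491560) (nat_lit 10) (.e (nat_lit 344129) (nat_lit 26) (.e (nat_lit 557070) (nat_lit 9) .nil)))) .nil)) 
(.lf (nat_lit 233443) (.g (nat_lit 2160) (.e (nat_lit 98389) (nat_lit 33) (.e (nat_lit 491560) (nat_lit 10) (.e (nat_lit 344132) (nat_lit 26) (.e (nat_lit 557072) (nat_lit 9) (.e (nat_lit 7936) (nat_lit 23) (.e (nat_lit 352313) (nat_lit 23) .nil)))))) (.g (nat_lit 4) .nil .nil))))) (.nd (nat_lit 5) (.nd (nat_lit 6) 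
(.lf (nat_lit 233363) (.g (nat_lit 588) (.e (nat_lit 98389) (nat_lit 33) (.e (nat_lit 491560) (nat_lit 10) (.e (nat_lit 344128) (nat_lit 26) .nil))) .nil)) 
(.lf (nat_lit 233427) (.g (nat_lit 1548) (.e (nat_lit 98389) (nat_lit 33) (.e (nat_lit 491560) (nat_lit 10) (.e (nat_lit 344131) (nat_lit 26) (.e (nat_lit 557081) (nat_lit 9) (.e (nat_lit 316) (nat_lit 23) .nil))))) .nil))) (.nd (nat_lit 6) 
(.lf (nat_lit 233395) (.g (nat_lit 2751) (.e (nat_lit 98389) (nat_lit 33) (.e (nat_lit 491560) (nat_lit 10) (.e (nat_lit 344129) (nat_lit 26) (.e (nat_lit 557087) (nat_lit 11) (.e (nat_lit 24634) (nat_lit 9) (.e (nat_lit 336023) (nat_lit 3) .nil)))))) (.g (nat_lit 0) .nil .nil))) 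
(.lf (nat_lit 233459) (.g (nat_lit 1136) (.e (nat_lit 98389) (nat_lit 33) (.e (nat_lit 491560) (nat_lit 10) (.e (nat_lit 344133) (nat_lit 26) (.e (nat_lit 557087) (nat_lit 11) .nil)))) .nil))))) (.nd (nat_lit 4) (.nd (nat_lit 5) (.nd (nat_lit 6) 
(.lf (nat_lit 233355) (.g (nat_lit 2058) (.e (nat_lit 98389) (nat_lit 33) (.e (nat_lit 491560) (nat_lit 10) (.e (nat_lit 344126) (nat_lit 25) (.e (nat_lit 548872) (nat_lit 5) (.e (nat_lit 1572) (nat_lit 110) .nil))))) .nil)) 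
(.lf (nat_lit 233419) (.g (nat_lit 394) (.e (nat_lit 98389) (nat_lit 33) (.e (nat_lit 491560) (nat_lit 10) (.e (nat_lit 344131) (nat_lit 26) .nil))) .nil))) (.nd (nat_lit 6) 
(.lf (nat_lit 233387) (.g (nat_lit 2487) (.e (nat_lit 98389) (nat_lit 33) (.e (nat_lit 491560) (nat_lit 10) (.e (nat_lit 344129) (nat_lit 26) (.e (nat_lit 557074) (nat_lit 9) (.e (nat_lit 278) (nat_lit 21) (.e (nat_lit 336151) (nat_lit 9) (.e (nat_lit 336017) (nat_lit 3) .nil))))))) (.g (nat_lit 4) .nil .nil))) 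
(.lf (nat_lit 233451) (.g (nat_lit 1309) (.e (nat_lit 98389) (nat_lit 33) (.e (nat_lit 491560) (nat_lit 10) (.e (nat_lit 344133) (nat_lit 26) (.e (nat_lit 557068) (nat_lit 9) .nil)))) .nil)))) (.nd (nat_lit 5) (.nd (nat_lit 6) 
(.lf (nat_lit 233371) (.g (nat_lit 2794) (.e (nat_lit 98389) (nat_lit 33) (.e (nat_lit 491560) (nat_lit 10) (.e (nat_lit 344129) (nat_lit 26) (.e (nat_lit 557065) (nat_lit 9) (.e (nat_lit 314) (nat_lit 23) .nil))))) .nil)) 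
(.lf (nat_lit 233435) (.g (nat_lit 1360) (.e (nat_lit 98389) (nat_lit 33) (.e (nat_lit 491560) (nat_lit 10) (.e (nat_lit 344132) (nat_lit 26) (.e (nat_lit 557064) (nat_lit 9) .nil)))) .nil))) (.nd (nat_lit 6) 
(.lf (nat_lit 233403) (.g (nat_lit 2923) (.e (nat_lit 98389) (nat_lit 33) (.e (nat_lit 491560) (nat_lit 10) (.e (nat_lit 344130) (nat_lit 26) (.e (nat_lit 557066) (nat_lit 9) (.e (nat_lit 334) (nat_lit 26) (.e (nat_lit 376869) (nat_lit 23) .nil)))))) (.g (nat_lit 0) .nil .nil))) 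
(.lf (nat_lit 233467) (.g (nat_lit 569) (.e (nat_lit 98389) (nat_lit 33) (.e (nat_lit 491560) (nat_lit 10) (.e (nat_lit 344177) (nat_lit 43) .nil))) .nil)))))) (.nd (nat_lit 3) (.nd (nat_lit 4) (.nd (nat_lit 5) (.nd (nat_lit 6) 
(.lf (nat_lit 233351) (.g (nat_lit 706) (.e (nat_lit 98389) (nat_lit 33) (.e (nat_lit 491560) (nat_lit 10) (.e (nat_lit 344125) (nat_lit 25) (.e (nat_lit 548870) (nat_lit 5) .nil)))) .nil)) 
(.lf (nat_lit 233415) (.g (nat_lit 2467) (.e (nat_lit 98389) (nat_lit 33) (.e (nat_lit 491560) (nat_lit 10) (.e (nat_lit 344130) (nat_lit 26) (.e (nat_lit 557087) (nat_lit 11) (.e (nat_lit 24632) (nat_lit 9) (.e (nat_lit 336028) (nat_lit 3) .nil)))))) (.g (nat_lit 4) .nil .nil)))) (.nd (nat_lit 6) 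
(.lf (nat_lit 233383) (.g (nat_lit 3075) (.e (nat_lit 98389) (nat_lit 33) (.e (nat_lit 491560) (nat_lit 10) (.e (nat_lit 344129) (nat_lit 26) (.e (nat_lit 557070) (nat_lit 9) (.e (nat_lit 333) (nat_lit 26) .nil))))) .nil)) 
(.lf (nat_lit 233447) (.g (nat_lit 1263) (.e (nat_lit 98389) (nat_lit 33) (.e (nat_lit 491560) (nat_lit 10) (.e (nat_lit 344133) (nat_lit 26) (.e (nat_lit 557065) (nat_lit 9) .nil)))) .nil)))) (.nd (nat_lit 5) (.nd (nat_lit 6) 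
(.lf (nat_lit 233367) (.g (nat_lit 2886) (.e (nat_lit 98389) (nat_lit 33) (.e (nat_lit 491560) (nat_lit 10) (.e (nat_lit 344129) (nat_lit 26) (.e (nat_lit 557064) (nat_lit 9) (.e (nat_lit 314) (nat_lit 23) .nil))))) .nil)) 
(.lf (nat_lit 233431) (.g (nat_lit 3696) (.e (nat_lit 98389) (nat_lit 33) (.e (nat_lit 491560) (nat_lit 10) (.e (nat_lit 344131) (nat_lit 26) (.e (nat_lit 557087) (nat_lit 11) (.e (nat_lit 24628) (nat_lit 9) (.e (nat_lit 336019) (nat_lit 3) .nil)))))) (.g (nat_lit 6) .nil .nil)))) (.nd (nat_lit 6) 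
(.lf (nat_lit 233399) (.g (nat_lit 1445) (.e (nat_lit 98389) (nat_lit 33) (.e (nat_lit 491560) (nat_lit 10) (.e (nat_lit 344130) (nat_lit 26) (.e (nat_lit 557064) (nat_lit 9) (.e (nat_lit 314) (nat_lit 23) .nil))))) .nil)) 
(.lf (nat_lit 233463) (.g (nat_lit 4041) (.e (nat_lit 98389) (nat_lit 33) (.e (nat_lit 491560) (nat_lit 10) (.e (nat_lit 344133) (nat_lit 26) (.e (nat_lit 557087) (nat_lit 11) (.e (nat_lit 24638) (nat_lit 9) (.e (nat_lit 336021) (nat_lit 3) .nil)))))) (.g (nat_lit 5) .nil .nil)))))) (.nd (nat_lit 4) (.nd (nat_lit 5) (.nd (nat_lit 6) 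
(.lf (nat_lit 233359) (.g (nat_lit 3812) (.e (nat_lit 98389) (nat_lit 33) (.e (nat_lit 491560) (nat_lit 10) (.e (nat_lit 344126) (nat_lit 25) (.e (nat_lit 548889) (nat_lit 9) (.e (nat_lit 65604) (nat_lit 9) (.e (nat_lit 336028) (nat_lit 3) .nil)))))) (.g (nat_lit 4) .nil .nil))) 
(.lf (nat_lit 233423) (.g (nat_lit 3084) (.e (nat_lit 98389) (nat_lit 33) (.e (nat_lit 491560) (nat_lit 10) (.e (nat_lit 344131) (nat_lit 26) (.e (nat_lit 557066) (nat_lit 9) (.e (nat_lit 314) (nat_lit 23) (.e (nat_lit 352315) (nat_lit 23) .nil)))))) (.g (nat_lit 0) .nil .nil)))) (.nd (nat_lit 6) 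
(.lf (nat_lit 233391) (.g (nat_lit 2295) (.e (nat_lit 98389) (nat_lit 33) (.e (nat_lit 491560) (nat_lit 10) (.e (nat_lit 344129) (nat_lit 26) (.e (nat_lit 557085) (nat_lit 11) (.e (nat_lit 24628) (nat_lit 9) (.e (nat_lit 336019) (nat_lit 3) .nil)))))) (.g (nat_lit 4) .nil .nil))) 
(.lf (nat_lit 233455) (.g (nat_lit 2936) (.e (nat_lit 98389) (nat_lit 33) (.e (nat_lit 491560) (nat_lit 10) (.e (nat_lit 344133) (nat_lit 26) (.e (nat_lit 557070) (nat_lit 9) (.e (nat_lit 313) (nat_lit 23) .nil))))) .nil)))) (.nd (nat_lit 5) (.nd (nat_lit 6) 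
(.lf (nat_lit 233375) (.g (nat_lit 2585) (.e (nat_lit 98389) (nat_lit 33) (.e (nat_lit 491560) (nat_lit 10) (.e (nat_lit 344129) (nat_lit 26) (.e (nat_lit 557066) (nat_lit 9) (.e (nat_lit 315) (nat_lit 23) .nil))))) .nil)) 
(.lf (nat_lit 233439) (.g (nat_lit 2641) (.e (nat_lit 98389) (nat_lit 33) (.e (nat_lit 491560) (nat_lit 10) (.e (nat_lit 344132) (nat_lit 26) (.e (nat_lit 557070) (nat_lit 9) (.e (nat_lit 333) (nat_lit 26) (.e (nat_lit 376867) (nat_lit 23) .nil)))))) (.g (nat_lit 4) .nil .nil)))) (.nd (nat_lit 6) 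
(.lf (nat_lit 233407) (.g (nat_lit 1641) (.e (nat_lit 98389) (nat_lit 33) (.e (nat_lit 491560) (nat_lit 10) (.e (nat_lit 344130) (nat_lit 26) (.e (nat_lit 557070) (nat_lit 9) (.e (nat_lit 313) (nat_lit 23) .nil))))) .nil)) 
(.lf (nat_lit 233471) (.g (nat_lit 5377) (.e (nat_lit 98389) (nat_lit 33) (.e (nat_lit 491562) (nat_lit 12) (.e (nat_lit 385072) (nat_lit 31) (.e (nat_lit 573493) (nat_lit 15) (.e (nat_lit 81956) (nat_lit 23) .nil))))) (.g (nat_lit 5) .nil .nil))))))))))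

noncomputable def tv3052 : DT := (.nd (nat_lit 0) (.nd (nat_lit 1) (.nd (nat_lit 2) (.nd (nat_lit 3) (.nd (nat_lit 4) (.nd (nat_lit 5) (.nd (nat_lit 6) 
(.lf (nat_lit 233472) (.g (nat_lit 4625) (.e (nat_lit 98389) (nat_lit 33) (.e (nat_lit 491562) (nat_lit 12) (.e (nat_lit 385074) (nat_lit 31) (.e (nat_lit 573493) (nat_lit 15) (.e (nat_lit 81956) (nat_lit 23) .nil))))) (.g (nat_lit 0) .nil .nil))) 
(.lf (nat_lit 233536) (.g (nat_lit 3508) (.e (nat_lit 114432) (nat_lit 2) (.e (nat_lit 24607) (nat_lit 3) (.e (nat_lit 98388) (nat_lit 33) (.e (nat_lit 491566) (nat_lit 12) (.e (nat_lit 385065) (nat_lit 26) .nil))))) .nil))) (.nd (nat_lit 6) 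
(.lf (nat_lit 233504) (.g (nat_lit 1245) (.e (nat_lit 98389) (nat_lit 33) (.e (nat_lit 491564) (nat_lit 12) (.e (nat_lit 385072) (nat_lit 31) (.e (nat_lit 573491) (nat_lit 15) .nil)))) .nil)) 
(.lf (nat_lit 233568) (.g (nat_lit 1681) (.e (nat_lit 114432) (nat_lit 4) (.e (nat_lit 172126) (nat_lit 14) (.e (nat_lit 491550) (nat_lit 9) (.e (nat_lit 336430) (nat_lit 29) (.e (nat_lit 450304) (nat_lit 4) .nil))))) .nil)))) (.nd (nat_lit 5) (.nd (nat_lit 6) 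
(.lf (nat_lit 233488) (.g (nat_lit 3110) (.e (nat_lit 98389) (nat_lit 33) (.e (nat_lit 491563) (nat_lit 12) (.e (nat_lit 385068) (nat_lit 26) (.e (nat_lit 532486) (nat_lit 0) .nil)))) .nil)) 
(.lf (nat_lit 233552) (.g (nat_lit 1973) (.e (nat_lit 114432) (nat_lit 3) (.e (nat_lit 163979) (nat_lit 30) (.e (nat_lit 573482) (nat_lit 13) (.e (nat_lit 65604) (nat_lit 9) (.e (nat_lit 336028) (nat_lit 3) .nil))))) .nil))) (.nd (nat_lit 6) 
(.lf (nat_lit 233520) (.g (nat_lit 2974) (.e (nat_lit 98389) (nat_lit 33) (.e (nat_lit 491572) (nat_lit 14) (.e (nat_lit 401424) (nat_lit 2) (.e (nat_lit 196672) (nat_lit 15) (.e (nat_lit 81954) (nat_lit 23) .nil))))) (.g (nat_lit 0) .nil .nil))) 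
(.lf (nat_lit 233584) (.g (nat_lit 1292) (.e (nat_lit 114432) (nat_lit 5) (.e (nat_lit 180277) (nat_lit 32) (.e (nat_lit 1428) (nat_lit 108) (.e (nat_lit 336428) (nat_lit 29) (.e (nat_lit 450304) (nat_lit 4) .nil))))) .nil))))) (.nd (nat_lit 4) (.nd (nat_lit 5) (.nd (nat_lit 6) 
(.lf (nat_lit 233480) (.g (nat_lit 2084) (.e (nat_lit 98389) (nat_lit 33) (.e (nat_lit 491563) (nat_lit 12) (.e (nat_lit 385050) (nat_lit 21) .nil))) .nil)) 
(.lf (nat_lit 233544) (.g (nat_lit 1194) (.e (nat_lit 114432) (nat_lit 3) (.e (nat_lit 163963) (nat_lit 25) (.e (nat_lit 532504) (nat_lit 1) (.e (nat_lit 57851) (nat_lit 252) (.e (nat_lit 57354) (nat_lit 0) .nil))))) .nil))) (.nd (nat_lit 6) 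
(.lf (nat_lit 233512) (.g (nat_lit 1087) (.e (nat_lit 98389) (nat_lit 33) (.e (nat_lit 491569) (nat_lit 13) (.e (nat_lit 393229) (nat_lit 9) .nil))) .nil)) 
(.lf (nat_lit 233576) (.g (nat_lit 1972) (.e (nat_lit 114432) (nat_lit 4) (.e (nat_lit 172126) (nat_lit 14) (.e (nat_lit 491569) (nat_lit 13) (.e (nat_lit 393270) (nat_lit 23) (.e (nat_lit 426444) (nat_lit 19) .nil))))) .nil)))) (.nd (nat_lit 5) (.nd (nat_lit 6) 
(.lf (nat_lit 233496) (.g (nat_lit 3829) (.e (nat_lit 98389) (nat_lit 33) (.e (nat_lit 491563) (nat_lit 12) (.e (nat_lit 385074) (nat_lit 31) (.e (nat_lit 573452) (nat_lit 9) .nil)))) .nil)) 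
(.lf (nat_lit 233560) (.g (nat_lit 1608) (.e (nat_lit 114432) (nat_lit 4) (.e (nat_lit 172124) (nat_lit 14) (.e (nat_lit 491569) (nat_lit 13) (.e (nat_lit 393270) (nat_lit 23) (.e (nat_lit 426444) (nat_lit 19) .nil))))) .nil))) (.nd (nat_lit 6) 
(.lf (nat_lit 233528) (.g (nat_lit 1508) (.e (nat_lit 106240) (nat_lit 33) (.e (nat_lit 491564) (nat_lit 12) (.e (nat_lit 385074) (nat_lit 31) (.e (nat_lit 573493) (nat_lit 15) .nil)))) .nil)) 
(.lf (nat_lit 233592) (.g (nat_lit 1310) (.e (nat_lit 114432) (nat_lit 5) (.e (nat_lit 180277) (nat_lit 32) (.e (nat_lit 1661) (nat_lit 115) (.e (nat_lit 393274) (nat_lit 23) .nil)))) .nil)))))) (.nd (nat_lit 3) (.nd (nat_lit 4) (.nd (nat_lit 5) (.nd (nat_lit 6) 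
(.lf (nat_lit 233476) (.g (nat_lit 1902) (.e (nat_lit 98389) (nat_lit 33) (.e (nat_lit 491563) (nat_lit 12) (.e (nat_lit 385046) (nat_lit 21) .nil))) .nil)) 
(.lf (nat_lit 233540) (.g (nat_lit 343) (.e (nat_lit 114432) (nat_lit 3) (.e (nat_lit 163959) (nat_lit 24) (.e (nat_lit 524319) (nat_lit 11) (.e (nat_lit 450304) (nat_lit 18) .nil)))) .nil))) (.nd (nat_lit 6) 
(.lf (nat_lit 233508) (.g (nat_lit 2105) (.e (nat_lit 98389) (nat_lit 33) (.e (nat_lit 491568) (nat_lit 13) (.e (nat_lit 393229) (nat_lit 9) (.e (nat_lit 335994) (nat_lit 1) .nil)))) .nil)) 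
(.lf (nat_lit 233572) (.g (nat_lit 1284) (.e (nat_lit 114432) (nat_lit 4) (.e (nat_lit 172126) (nat_lit 14) (.e (nat_lit 491568) (nat_lit 13) (.e (nat_lit 393279) (nat_lit 23) .nil)))) .nil)))) (.nd (nat_lit 5) (.nd (nat_lit 6) 
(.lf (nat_lit 233492) (.g (nat_lit 3387) (.e (nat_lit 98389) (nat_lit 33) (.e (nat_lit 491563) (nat_lit 12) (.e (nat_lit 385073) (nat_lit 31) (.e (nat_lit 573491) (nat_lit 15) (.e (nat_lit 81954) (nat_lit 23) .nil))))) (.g (nat_lit 0) .nil .nil))) 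
(.lf (nat_lit 233556) (.g (nat_lit 1638) (.e (nat_lit 114432) (nat_lit 4) (.e (nat_lit 172124) (nat_lit 14) (.e (nat_lit 491549) (nat_lit 9) (.e (nat_lit 336443) (nat_lit 32) (.e (nat_lit 474880) (nat_lit 4) .nil))))) .nil))) (.nd (nat_lit 6) 
(.lf (nat_lit 233524) (.g (nat_lit 2828) (.e (nat_lit 106240) (nat_lit 33) (.e (nat_lit 491563) (nat_lit 12) (.e (nat_lit 385074) (nat_lit 31) (.e (nat_lit 573491) (nat_lit 15) .nil)))) .nil)) 
(.lf (nat_lit 233588) (.g (nat_lit 767) (.e (nat_lit 114432) (nat_lit 5) (.e (nat_lit 180277) (nat_lit 32) (.e (nat_lit 1660) (nat_lit 115) (.e (nat_lit 393279) (nat_lit 23) .nil)))) .nil))))) (.nd (nat_lit 4) (.nd (nat_lit 5) (.nd (nat_lit 6) 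
(.lf (nat_lit 233484) (.g (nat_lit 2175) (.e (nat_lit 98389) (nat_lit 33) (.e (nat_lit 491563) (nat_lit 12) (.e (nat_lit 385065) (nat_lit 26) .nil))) .nil)) 
(.lf (nat_lit 233548) (.g (nat_lit 2707) (.e (nat_lit 114432) (nat_lit 3) (.e (nat_lit 163975) (nat_lit 30) (.e (nat_lit 573451) (nat_lit 9) (.e (nat_lit 1595) (nat_lit 111) (.e (nat_lit 360467) (nat_lit 3) .nil))))) .nil))) (.nd (nat_lit 6) 
(.lf (nat_lit 233516) (.g (nat_lit 569) (.e (nat_lit 98389) (nat_lit 33) (.e (nat_lit 491570) (nat_lit 13) (.e (nat_lit 393238) (nat_lit 17) .nil))) .nil)) 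
(.lf (nat_lit 233580) (.g (nat_lit 1320) (.e (nat_lit 114432) (nat_lit 5) (.e (nat_lit 180277) (nat_lit 32) (.e (nat_lit 1427) (nat_lit 108) (.e (nat_lit 336426) (nat_lit 29) .nil)))) .nil)))) (.nd (nat_lit 5) (.nd (nat_lit 6) 
(.lf (nat_lit 233500) (.g (nat_lit 4012) (.e (nat_lit 98389) (nat_lit 33) (.e (nat_lit 491563) (nat_lit 12) (.e (nat_lit 385074) (nat_lit 31) (.e (nat_lit 573491) (nat_lit 15) (.e (nat_lit 81956) (nat_lit 23) .nil))))) (.g (nat_lit 5) .nil .nil))) 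
(.lf (nat_lit 233564) (.g (nat_lit 2090) (.e (nat_lit 114432) (nat_lit 4) (.e (nat_lit 172126) (nat_lit 14) (.e (nat_lit 491549) (nat_lit 9) (.e (nat_lit 336428) (nat_lit 29) (.e (nat_lit 450304) (nat_lit 4) .nil))))) .nil))) (.nd (nat_lit 6) 
(.lf (nat_lit 233532) (.g (nat_lit 408) (.e (nat_lit 106500) (nat_lit 0) (.e (nat_lit 2440) (nat_lit 157) (.e (nat_lit 3223) (nat_lit 196) (.e (nat_lit 524319) (nat_lit 11) .nil)))) .nil)) 
(.lf (nat_lit 233596) (.g (nat_lit 2020) (.e (nat_lit 114432) (nat_lit 5) (.e (nat_lit 180278) (nat_lit 32) (.e (nat_lit 1427) (nat_lit 108) (.e (nat_lit 336430) (nat_lit 29) (.e (nat_lit 450304) (nat_lit 4) .nil))))) .nil))))))) (.nd (nat_lit 2) (.nd (nat_lit 3) (.nd (nat_lit 4) (.nd (nat_lit 5) (.nd (nat_lit 6) 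
(.lf (nat_lit 233474) (.g (nat_lit 2048) (.e (nat_lit 98389) (nat_lit 33) (.e (nat_lit 491563) (nat_lit 12) (.e (nat_lit 385044) (nat_lit 21) .nil))) .nil)) 
(.lf (nat_lit 233538) (.g (nat_lit 3661) (.e (nat_lit 114432) (nat_lit 2) (.e (nat_lit 24608) (nat_lit 3) (.e (nat_lit 98388) (nat_lit 33) (.e (nat_lit 491566) (nat_lit 12) (.e (nat_lit 385067) (nat_lit 26) .nil))))) .nil))) (.nd (nat_lit 6) 
(.lf (nat_lit 233506) (.g (nat_lit 854) (.e (nat_lit 98389) (nat_lit 33) (.e (nat_lit 491568) (nat_lit 13) (.e (nat_lit 393229) (nat_lit 9) .nil))) .nil)) 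
(.lf (nat_lit 233570) (.g (nat_lit 1445) (.e (nat_lit 114432) (nat_lit 4) (.e (nat_lit 172126) (nat_lit 14) (.e (nat_lit 491568) (nat_lit 13) (.e (nat_lit 393268) (nat_lit 23) (.e (nat_lit 426444) (nat_lit 19) .nil))))) .nil)))) (.nd (nat_lit 5) (.nd (nat_lit 6) 
(.lf (nat_lit 233490) (.g (nat_lit 5721) (.e (nat_lit 98389) (nat_lit 33) (.e (nat_lit 491563) (nat_lit 12) (.e (nat_lit 385072) (nat_lit 31) (.e (nat_lit 573493) (nat_lit 15) (.e (nat_lit 81956) (nat_lit 23) .nil))))) (.g (nat_lit 5) .nil .nil))) 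
(.lf (nat_lit 233554) (.g (nat_lit 1954) (.e (nat_lit 114432) (nat_lit 4) (.e (nat_lit 172124) (nat_lit 14) (.e (nat_lit 491549) (nat_lit 9) (.e (nat_lit 336428) (nat_lit 29) (.e (nat_lit 450304) (nat_lit 4) .nil))))) .nil))) (.nd (nat_lit 6) 
(.lf (nat_lit 233522) (.g (nat_lit 3179) (.e (nat_lit 98389) (nat_lit 33) (.e (nat_lit 491572) (nat_lit 14) (.e (nat_lit 401425) (nat_lit 2) (.e (nat_lit 196672) (nat_lit 15) (.e (nat_lit 81954) (nat_lit 23) .nil))))) (.g (nat_lit 0) .nil .nil))) 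
(.lf (nat_lit 233586) (.g (nat_lit 537) (.e (nat_lit 114432) (nat_lit 5) (.e (nat_lit 180277) (nat_lit 32) (.e (nat_lit 1658) (nat_lit 115) (.e (nat_lit 393279) (nat_lit 23) .nil)))) .nil))))) (.nd (nat_lit 4) (.nd (nat_lit 5) (.nd (nat_lit 6) 
(.lf (nat_lit 233482) (.g (nat_lit 1862) (.e (nat_lit 98389) (nat_lit 33) (.e (nat_lit 491563) (nat_lit 12) (.e (nat_lit 385053) (nat_lit 21) .nil))) .nil)) 
(.lf (nat_lit 233546) (.g (nat_lit 1390) (.e (nat_lit 114432) (nat_lit 3) (.e (nat_lit 163975) (nat_lit 30) (.e (nat_lit 573451) (nat_lit 9) (.e (nat_lit 1580) (nat_lit 111) .nil)))) .nil))) (.nd (nat_lit 6) 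
(.lf (nat_lit 233514) (.g (nat_lit 1041) (.e (nat_lit 98389) (nat_lit 33) (.e (nat_lit 491569) (nat_lit 13) (.e (nat_lit 393234) (nat_lit 17) .nil))) .nil)) 
(.lf (nat_lit 233578) (.g (nat_lit 1649) (.e (nat_lit 114432) (nat_lit 4) (.e (nat_lit 172126) (nat_lit 14) (.e (nat_lit 491569) (nat_lit 13) (.e (nat_lit 393272) (nat_lit 23) .nil)))) .nil)))) (.nd (nat_lit 5) (.nd (nat_lit 6) 
(.lf (nat_lit 233498) (.g (nat_lit 3432) (.e (nat_lit 98389) (nat_lit 33) (.e (nat_lit 491563) (nat_lit 12) (.e (nat_lit 385074) (nat_lit 31) (.e (nat_lit 573485) (nat_lit 13) (.e (nat_lit 65604) (nat_lit 9) .nil))))) .nil)) 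
(.lf (nat_lit 233562) (.g (nat_lit 1488) (.e (nat_lit 114432) (nat_lit 4) (.e (nat_lit 172126) (nat_lit 14) (.e (nat_lit 491547) (nat_lit 9) (.e (nat_lit 336428) (nat_lit 29) (.e (nat_lit 450304) (nat_lit 4) .nil))))) .nil))) (.nd (nat_lit 6) 
(.lf (nat_lit 233530) (.g (nat_lit 2587) (.e (nat_lit 106240) (nat_lit 33) (.e (nat_lit 491565) (nat_lit 12) (.e (nat_lit 385074) (nat_lit 31) (.e (nat_lit 573485) (nat_lit 13) (.e (nat_lit 65604) (nat_lit 9) .nil))))) .nil)) 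
(.lf (nat_lit 233594) (.g (nat_lit 1189) (.e (nat_lit 114432) (nat_lit 5) (.e (nat_lit 180278) (nat_lit 32) (.e (nat_lit 1426) (nat_lit 108) (.e (nat_lit 336430) (nat_lit 29) (.e (nat_lit 450304) (nat_lit 4) .nil))))) .nil)))))) (.nd (nat_lit 3) (.nd (nat_lit 4) (.nd (nat_lit 5) (.nd (nat_lit 6) 
(.lf (nat_lit 233478) (.g (nat_lit 2044) (.e (nat_lit 98389) (nat_lit 33) (.e (nat_lit 491563) (nat_lit 12) (.e (nat_lit 385048) (nat_lit 21) .nil))) .nil)) 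
(.lf (nat_lit 233542) (.g (nat_lit 1294) (.e (nat_lit 114432) (nat_lit 3) (.e (nat_lit 163962) (nat_lit 25) (.e (nat_lit 532499) (nat_lit 1) (.e (nat_lit 57847) (nat_lit 252) .nil)))) .nil))) (.nd (nat_lit 6) 
(.lf (nat_lit 233510) (.g (nat_lit 966) (.e (nat_lit 98389) (nat_lit 33) (.e (nat_lit 491568) (nat_lit 13) (.e (nat_lit 393258) (nat_lit 20) .nil))) .nil)) 
(.lf (nat_lit 233574) (.g (nat_lit 1976) (.e (nat_lit 114432) (nat_lit 4) (.e (nat_lit 172126) (nat_lit 14) (.e (nat_lit 491569) (nat_lit 13) (.e (nat_lit 393267) (nat_lit 23) .nil)))) .nil)))) (.nd (nat_lit 5) (.nd (nat_lit 6) 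
(.lf (nat_lit 233494) (.g (nat_lit 4837) (.e (nat_lit 98389) (nat_lit 33) (.e (nat_lit 491563) (nat_lit 12) (.e (nat_lit 385073) (nat_lit 31) (.e (nat_lit 573493) (nat_lit 15) (.e (nat_lit 81956) (nat_lit 23) .nil))))) (.g (nat_lit 0) .nil .nil))) 
(.lf (nat_lit 233558) (.g (nat_lit 1523) (.e (nat_lit 114432) (nat_lit 4) (.e (nat_lit 172124) (nat_lit 14) (.e (nat_lit 491550) (nat_lit 9) (.e (nat_lit 336430) (nat_lit 29) (.e (nat_lit 450304) (nat_lit 4) .nil))))) .nil))) (.nd (nat_lit 6) 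
(.lf (nat_lit 233526) (.g (nat_lit 1949) (.e (nat_lit 106240) (nat_lit 33) (.e (nat_lit 491564) (nat_lit 12) (.e (nat_lit 385074) (nat_lit 31) (.e (nat_lit 573485) (nat_lit 13) (.e (nat_lit 65604) (nat_lit 9) .nil))))) .nil)) 
(.lf (nat_lit 233590) (.g (nat_lit 2043) (.e (nat_lit 114432) (nat_lit 5) (.e (nat_lit 180277) (nat_lit 32) (.e (nat_lit 1661) (nat_lit 115) (.e (nat_lit 393268) (nat_lit 23) (.e (nat_lit 426442) (nat_lit 19) .nil))))) .nil))))) (.nd (nat_lit 4) (.nd (nat_lit 5) (.nd (nat_lit 6) 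
(.lf (nat_lit 233486) (.g (nat_lit 1972) (.e (nat_lit 98389) (nat_lit 33) (.e (nat_lit 491563) (nat_lit 12) (.e (nat_lit 385067) (nat_lit 26) .nil))) .nil)) 
(.lf (nat_lit 233550) (.g (nat_lit 1859) (.e (nat_lit 114432) (nat_lit 3) (.e (nat_lit 163979) (nat_lit 30) (.e (nat_lit 573451) (nat_lit 9) (.e (nat_lit 1595) (nat_lit 111) (.e (nat_lit 360467) (nat_lit 3) .nil))))) .nil))) (.nd (nat_lit 6) 
(.lf (nat_lit 233518) (.g (nat_lit 1780) (.e (nat_lit 98389) (nat_lit 33) (.e (nat_lit 491570) (nat_lit 13) (.e (nat_lit 393238) (nat_lit 17) (.e (nat_lit 3558) (nat_lit 221) .nil)))) .nil)) 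
(.lf (nat_lit 233582) (.g (nat_lit 1963) (.e (nat_lit 114432) (nat_lit 5) (.e (nat_lit 180277) (nat_lit 32) (.e (nat_lit 1427) (nat_lit 108) (.e (nat_lit 336430) (nat_lit 29) (.e (nat_lit 450304) (nat_lit 4) .nil))))) .nil)))) (.nd (nat_lit 5) (.nd (nat_lit 6) 
(.lf (nat_lit 233502) (.g (nat_lit 4586) (.e (nat_lit 98389) (nat_lit 33) (.e (nat_lit 491563) (nat_lit 12) (.e (nat_lit 385074) (nat_lit 31) (.e (nat_lit 573493) (nat_lit 15) (.e (nat_lit 81956) (nat_lit 23) .nil))))) (.g (nat_lit 0) .nil .nil))) 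
(.lf (nat_lit 233566) (.g (nat_lit 1771) (.e (nat_lit 114432) (nat_lit 4) (.e (nat_lit 172126) (nat_lit 14) (.e (nat_lit 491549) (nat_lit 9) (.e (nat_lit 336443) (nat_lit 32) (.e (nat_lit 474880) (nat_lit 4) .nil))))) .nil))) (.nd (nat_lit 6) 
(.lf (nat_lit 233534) (.g (nat_lit 132) (.e (nat_lit 106501) (nat_lit 0) (.e (nat_lit 2445) (nat_lit 157) (.e (nat_lit 3218) (nat_lit 196) .nil))) .nil)) 
(.lf (nat_lit 233598) (.g (nat_lit 1389) (.e (nat_lit 114432) (nat_lit 5) (.e (nat_lit 180278) (nat_lit 32) (.e (nat_lit 1428) (nat_lit 108) (.e (nat_lit 336428) (nat_lit 29) (.e (nat_lit 450304) (nat_lit 4) .nil))))) .nil)))))))) (.nd (nat_lit 1) (.nd (nat_lit 2) (.nd (nat_lit 3) (.nd (nat_lit 4) (.nd (nat_lit 5) (.nd (nat_lit 6) 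
(.lf (nat_lit 233473) (.g (nat_lit 2022) (.e (nat_lit 98389) (nat_lit 33) (.e (nat_lit 491563) (nat_lit 12) (.e (nat_lit 385043) (nat_lit 21) .nil))) .nil)) 
(.lf (nat_lit 233537) (.g (nat_lit 4669) (.e (nat_lit 114432) (nat_lit 2) (.e (nat_lit 24607) (nat_lit 3) (.e (nat_lit 98389) (nat_lit 33) (.e (nat_lit 491563) (nat_lit 12) (.e (nat_lit 385066) (nat_lit 26) .nil))))) .nil))) (.nd (nat_lit 6) 
(.lf (nat_lit 233505) (.g (nat_lit 4784) (.e (nat_lit 98389) (nat_lit 33) (.e (nat_lit 491565) (nat_lit 12) (.e (nat_lit 385072) (nat_lit 31) (.e (nat_lit 573493) (nat_lit 15) (.e (nat_lit 81956) (nat_lit 23) .nil))))) (.g (nat_lit 5) .nil .nil))) 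
(.lf (nat_lit 233569) (.g (nat_lit 375) (.e (nat_lit 114432) (nat_lit 4) (.e (nat_lit 172126) (nat_lit 14) (.e (nat_lit 491568) (nat_lit 13) .nil))) .nil)))) (.nd (nat_lit 5) (.nd (nat_lit 6) 
(.lf (nat_lit 233489) (.g (nat_lit 589) (.e (nat_lit 98389) (nat_lit 33) (.e (nat_lit 491563) (nat_lit 12) (.e (nat_lit 385072) (nat_lit 31) .nil))) .nil)) 
(.lf (nat_lit 233553) (.g (nat_lit 1523) (.e (nat_lit 114432) (nat_lit 4) (.e (nat_lit 172124) (nat_lit 14) (.e (nat_lit 491549) (nat_lit 9) (.e (nat_lit 336426) (nat_lit 29) .nil)))) .nil))) (.nd (nat_lit 6) 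
(.lf (nat_lit 233521) (.g (nat_lit 4515) (.e (nat_lit 98389) (nat_lit 33) (.e (nat_lit 491572) (nat_lit 14) (.e (nat_lit 401424) (nat_lit 2) (.e (nat_lit 196673) (nat_lit 15) (.e (nat_lit 81956) (nat_lit 23) .nil))))) (.g (nat_lit 0) .nil .nil))) 
(.lf (nat_lit 233585) (.g (nat_lit 1471) (.e (nat_lit 114432) (nat_lit 5) (.e (nat_lit 180277) (nat_lit 32) (.e (nat_lit 1428) (nat_lit 108) (.e (nat_lit 336430) (nat_lit 29) (.e (nat_lit 450304) (nat_lit 4) .nil))))) .nil))))) (.nd (nat_lit 4) (.nd (nat_lit 5) (.nd (nat_lit 6) 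
(.lf (nat_lit 233481) (.g (nat_lit 2152) (.e (nat_lit 98389) (nat_lit 33) (.e (nat_lit 491563) (nat_lit 12) (.e (nat_lit 385052) (nat_lit 21) .nil))) .nil)) 
(.lf (nat_lit 233545) (.g (nat_lit 2734) (.e (nat_lit 114432) (nat_lit 3) (.e (nat_lit 163974) (nat_lit 30) (.e (nat_lit 573484) (nat_lit 13) (.e (nat_lit 65610) (nat_lit 10) (.e (nat_lit 344117) (nat_lit 21) .nil))))) .nil))) (.nd (nat_lit 6) 
(.lf (nat_lit 233513) (.g (nat_lit 732) (.e (nat_lit 98389) (nat_lit 33) (.e (nat_lit 491569) (nat_lit 13) (.e (nat_lit 401152) (nat_lit 10) .nil))) .nil)) 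
(.lf (nat_lit 233577) (.g (nat_lit 2667) (.e (nat_lit 114432) (nat_lit 4) (.e (nat_lit 172126) (nat_lit 14) (.e (nat_lit 491569) (nat_lit 13) (.e (nat_lit 393271) (nat_lit 23) (.e (nat_lit 426442) (nat_lit 19) .nil))))) .nil)))) (.nd (nat_lit 5) (.nd (nat_lit 6) 
(.lf (nat_lit 233497) (.g (nat_lit 3200) (.e (nat_lit 98389) (nat_lit 33) (.e (nat_lit 491563) (nat_lit 12) (.e (nat_lit 385074) (nat_lit 31) (.e (nat_lit 573482) (nat_lit 13) .nil)))) .nil)) 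
(.lf (nat_lit 233561) (.g (nat_lit 2480) (.e (nat_lit 114432) (nat_lit 4) (.e (nat_lit 172124) (nat_lit 14) (.e (nat_lit 491569) (nat_lit 13) (.e (nat_lit 393271) (nat_lit 23) (.e (nat_lit 426442) (nat_lit 19) .nil))))) .nil))) (.nd (nat_lit 6) 
(.lf (nat_lit 233529) (.g (nat_lit 1136) (.e (nat_lit 106240) (nat_lit 33) (.e (nat_lit 491565) (nat_lit 12) (.e (nat_lit 385072) (nat_lit 31) (.e (nat_lit 573485) (nat_lit 13) .nil)))) .nil)) 
(.lf (nat_lit 233593) (.g (nat_lit 1261) (.e (nat_lit 114432) (nat_lit 5) (.e (nat_lit 180277) (nat_lit 32) (.e (nat_lit 1661) (nat_lit 115) (.e (nat_lit 393279) (nat_lit 23) .nil)))) .nil)))))) (.nd (nat_lit 3) (.nd (nat_lit 4) (.nd (nat_lit 5) (.nd (nat_lit 6) 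
(.lf (nat_lit 233477) (.g (nat_lit 1941) (.e (nat_lit 98389) (nat_lit 33) (.e (nat_lit 491563) (nat_lit 12) (.e (nat_lit 385047) (nat_lit 21) .nil))) .nil)) 
(.lf (nat_lit 233541) (.g (nat_lit 318) (.e (nat_lit 114432) (nat_lit 3) (.e (nat_lit 163960) (nat_lit 24) (.e (nat_lit 524319) (nat_lit 11) (.e (nat_lit 450304) (nat_lit 18) .nil)))) .nil))) (.nd (nat_lit 6) 
(.lf (nat_lit 233509) (.g (nat_lit 966) (.e (nat_lit 98389) (nat_lit 33) (.e (nat_lit 491568) (nat_lit 13) (.e (nat_lit 393257) (nat_lit 20) .nil))) .nil)) 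
(.lf (nat_lit 233573) (.g (nat_lit 434) (.e (nat_lit 114432) (nat_lit 4) (.e (nat_lit 172126) (nat_lit 14) (.e (nat_lit 491569) (nat_lit 13) .nil))) .nil)))) (.nd (nat_lit 5) (.nd (nat_lit 6) 
(.lf (nat_lit 233493) (.g (nat_lit 4286) (.e (nat_lit 98389) (nat_lit 33) (.e (nat_lit 491563) (nat_lit 12) (.e (nat_lit 385073) (nat_lit 31) (.e (nat_lit 573491) (nat_lit 15) (.e (nat_lit 81956) (nat_lit 23) .nil))))) (.g (nat_lit 5) .nil .nil))) 
(.lf (nat_lit 233557) (.g (nat_lit 1449) (.e (nat_lit 114432) (nat_lit 4) (.e (nat_lit 172124) (nat_lit 14) (.e (nat_lit 491550) (nat_lit 9) (.e (nat_lit 336428) (nat_lit 29) (.e (nat_lit 450304) (nat_lit 4) .nil))))) .nil))) (.nd (nat_lit 6) 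
(.lf (nat_lit 233525) (.g (nat_lit 3710) (.e (nat_lit 106240) (nat_lit 33) (.e (nat_lit 491563) (nat_lit 12) (.e (nat_lit 385074) (nat_lit 31) (.e (nat_lit 573493) (nat_lit 15) (.e (nat_lit 81954) (nat_lit 23) .nil))))) .nil)) 
(.lf (nat_lit 233589) (.g (nat_lit 2047) (.e (nat_lit 114432) (nat_lit 5) (.e (nat_lit 180277) (nat_lit 32) (.e (nat_lit 1661) (nat_lit 115) (.e (nat_lit 393268) (nat_lit 23) (.e (nat_lit 426439) (nat_lit 19) .nil))))) .nil))))) (.nd (nat_lit 4) (.nd (nat_lit 5) (.nd (nat_lit 6) 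
(.lf (nat_lit 233485) (.g (nat_lit 2155) (.e (nat_lit 98389) (nat_lit 33) (.e (nat_lit 491563) (nat_lit 12) (.e (nat_lit 385066) (nat_lit 26) .nil))) .nil)) 
(.lf (nat_lit 233549) (.g (nat_lit 1996) (.e (nat_lit 114432) (nat_lit 3) (.e (nat_lit 163975) (nat_lit 30) (.e (nat_lit 573451) (nat_lit 9) (.e (nat_lit 1598) (nat_lit 111) (.e (nat_lit 360466) (nat_lit 3) .nil))))) .nil))) (.nd (nat_lit 6) 
(.lf (nat_lit 233517) (.g (nat_lit 1781) (.e (nat_lit 98389) (nat_lit 33) (.e (nat_lit 491570) (nat_lit 13) (.e (nat_lit 393238) (nat_lit 17) (.e (nat_lit 3536) (nat_lit 218) .nil)))) .nil)) 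
(.lf (nat_lit 233581) (.g (nat_lit 1852) (.e (nat_lit 114432) (nat_lit 5) (.e (nat_lit 180277) (nat_lit 32) (.e (nat_lit 1427) (nat_lit 108) (.e (nat_lit 336428) (nat_lit 29) (.e (nat_lit 450304) (nat_lit 4) .nil))))) .nil)))) (.nd (nat_lit 5) (.nd (nat_lit 6) 
(.lf (nat_lit 233501) (.g (nat_lit 3584) (.e (nat_lit 98389) (nat_lit 33) (.e (nat_lit 491563) (nat_lit 12) (.e (nat_lit 385074) (nat_lit 31) (.e (nat_lit 573493) (nat_lit 15) (.e (nat_lit 81954) (nat_lit 23) .nil))))) (.g (nat_lit 5) .nil .nil))) 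
(.lf (nat_lit 233565) (.g (nat_lit 1846) (.e (nat_lit 114432) (nat_lit 4) (.e (nat_lit 172126) (nat_lit 14) (.e (nat_lit 491549) (nat_lit 9) (.e (nat_lit 336430) (nat_lit 29) (.e (nat_lit 450304) (nat_lit 4) .nil))))) .nil))) (.nd (nat_lit 6) 
(.lf (nat_lit 233533) (.g (nat_lit 718) (.e (nat_lit 106500) (nat_lit 0) (.e (nat_lit 2453) (nat_lit 157) (.e (nat_lit 3304) (nat_lit 202) (.e (nat_lit 573491) (nat_lit 15) .nil)))) .nil)) 
(.lf (nat_lit 233597) (.g (nat_lit 1779) (.e (nat_lit 114432) (nat_lit 5) (.e (nat_lit 180278) (nat_lit 32) (.e (nat_lit 1427) (nat_lit 108) (.e (nat_lit 336443) (nat_lit 32) (.e (nat_lit 474880) (nat_lit 4) .nil))))) .nil))))))) (.nd (nat_lit 2) (.nd (nat_lit 3) (.nd (nat_lit 4) (.nd (nat_lit 5) (.nd (nat_lit 6) 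
(.lf (nat_lit 233475) (.g (nat_lit 1691) (.e (nat_lit 98389) (nat_lit 33) (.e (nat_lit 491563) (nat_lit 12) (.e (nat_lit 385045) (nat_lit 21) .nil))) .nil)) 
(.lf (nat_lit 233539) (.g (nat_lit 3102) (.e (nat_lit 114432) (nat_lit 2) (.e (nat_lit 24608) (nat_lit 3) (.e (nat_lit 98388) (nat_lit 33) (.e (nat_lit 491566) (nat_lit 12) (.e (nat_lit 385068) (nat_lit 26) .nil))))) .nil))) (.nd (nat_lit 6) 
(.lf (nat_lit 233507) (.g (nat_lit 3141) (.e (nat_lit 98389) (nat_lit 33) (.e (nat_lit 491568) (nat_lit 13) (.e (nat_lit 393229) (nat_lit 9) (.e (nat_lit 335894) (nat_lit 0) (.e (nat_lit 974) (nat_lit 81) .nil))))) .nil)) 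
(.lf (nat_lit 233571) (.g (nat_lit 1055) (.e (nat_lit 114432) (nat_lit 4) (.e (nat_lit 172126) (nat_lit 14) (.e (nat_lit 491568) (nat_lit 13) (.e (nat_lit 393273) (nat_lit 23) .nil)))) .nil)))) (.nd (nat_lit 5) (.nd (nat_lit 6) 
(.lf (nat_lit 233491) (.g (nat_lit 4136) (.e (nat_lit 98389) (nat_lit 33) (.e (nat_lit 491563) (nat_lit 12) (.e (nat_lit 385073) (nat_lit 31) (.e (nat_lit 573490) (nat_lit 15) (.e (nat_lit 81956) (nat_lit 23) .nil))))) (.g (nat_lit 5) .nil .nil))) 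
(.lf (nat_lit 233555) (.g (nat_lit 1707) (.e (nat_lit 114432) (nat_lit 4) (.e (nat_lit 172124) (nat_lit 14) (.e (nat_lit 491549) (nat_lit 9) (.e (nat_lit 336430) (nat_lit 29) (.e (nat_lit 450304) (nat_lit 4) .nil))))) .nil))) (.nd (nat_lit 6) 
(.lf (nat_lit 233523) (.g (nat_lit 4861) (.e (nat_lit 106240) (nat_lit 33) (.e (nat_lit 491563) (nat_lit 12) (.e (nat_lit 385074) (nat_lit 31) (.e (nat_lit 573482) (nat_lit 13) (.e (nat_lit 65604) (nat_lit 9) .nil))))) .nil)) 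
(.lf (nat_lit 233587) (.g (nat_lit 972) (.e (nat_lit 114432) (nat_lit 5) (.e (nat_lit 180277) (nat_lit 32) (.e (nat_lit 1659) (nat_lit 115) (.e (nat_lit 393272) (nat_lit 23) .nil)))) .nil))))) (.nd (nat_lit 4) (.nd (nat_lit 5) (.nd (nat_lit 6) 
(.lf (nat_lit 233483) (.g (nat_lit 1845) (.e (nat_lit 98389) (nat_lit 33) (.e (nat_lit 491563) (nat_lit 12) (.e (nat_lit 385054) (nat_lit 21) .nil))) .nil)) 
(.lf (nat_lit 233547) (.g (nat_lit 1587) (.e (nat_lit 114432) (nat_lit 3) (.e (nat_lit 163975) (nat_lit 30) (.e (nat_lit 573451) (nat_lit 9) (.e (nat_lit 1589) (nat_lit 111) .nil)))) .nil))) (.nd (nat_lit 6) 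
(.lf (nat_lit 233515) (.g (nat_lit 2483) (.e (nat_lit 98389) (nat_lit 33) (.e (nat_lit 491569) (nat_lit 13) (.e (nat_lit 393234) (nat_lit 17) (.e (nat_lit 3557) (nat_lit 220) .nil)))) .nil)) 
(.lf (nat_lit 233579) (.g (nat_lit 1123) (.e (nat_lit 114432) (nat_lit 5) (.e (nat_lit 180277) (nat_lit 32) (.e (nat_lit 1426) (nat_lit 108) (.e (nat_lit 336430) (nat_lit 29) (.e (nat_lit 450304) (nat_lit 4) .nil))))) .nil)))) (.nd (nat_lit 5) (.nd (nat_lit 6) 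
(.lf (nat_lit 233499) (.g (nat_lit 4303) (.e (nat_lit 98389) (nat_lit 33) (.e (nat_lit 491563) (nat_lit 12) (.e (nat_lit 385074) (nat_lit 31) (.e (nat_lit 573490) (nat_lit 15) (.e (nat_lit 81956) (nat_lit 23) .nil))))) (.g (nat_lit 5) .nil .nil))) 
(.lf (nat_lit 233563) (.g (nat_lit 1761) (.e (nat_lit 114432) (nat_lit 4) (.e (nat_lit 172126) (nat_lit 14) (.e (nat_lit 491549) (nat_lit 9) (.e (nat_lit 336426) (nat_lit 29) .nil)))) .nil))) (.nd (nat_lit 6) 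
(.lf (nat_lit 233531) (.g (nat_lit 1879) (.e (nat_lit 106240) (nat_lit 33) (.e (nat_lit 491565) (nat_lit 12) (.e (nat_lit 385074) (nat_lit 31) (.e (nat_lit 573491) (nat_lit 15) .nil)))) .nil)) 
(.lf (nat_lit 233595) (.g (nat_lit 1914) (.e (nat_lit 114432) (nat_lit 5) (.e (nat_lit 180278) (nat_lit 32) (.e (nat_lit 1427) (nat_lit 108) (.e (nat_lit 336428) (nat_lit 29) (.e (nat_lit 450304) (nat_lit 4) .nil))))) .nil)))))) (.nd (nat_lit 3) (.nd (nat_lit 4) (.nd (nat_lit 5) (.nd (nat_lit 6) 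
(.lf (nat_lit 233479) (.g (nat_lit 2051) (.e (nat_lit 98389) (nat_lit 33) (.e (nat_lit 491563) (nat_lit 12) (.e (nat_lit 385049) (nat_lit 21) .nil))) .nil)) 
(.lf (nat_lit 233543) (.g (nat_lit 1076) (.e (nat_lit 114432) (nat_lit 3) (.e (nat_lit 163962) (nat_lit 25) (.e (nat_lit 532499) (nat_lit 1) (.e (nat_lit 65280) (nat_lit 266) .nil)))) .nil))) (.nd (nat_lit 6) 
(.lf (nat_lit 233511) (.g (nat_lit 1177) (.e (nat_lit 98389) (nat_lit 33) (.e (nat_lit 491568) (nat_lit 13) (.e (nat_lit 393258) (nat_lit 20) (.e (nat_lit 253995) (nat_lit 12) .nil)))) .nil)) 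
(.lf (nat_lit 233575) (.g (nat_lit 1596) (.e (nat_lit 114432) (nat_lit 4) (.e (nat_lit 172126) (nat_lit 14) (.e (nat_lit 491569) (nat_lit 13) (.e (nat_lit 393270) (nat_lit 23) .nil)))) .nil)))) (.nd (nat_lit 5) (.nd (nat_lit 6) 
(.lf (nat_lit 233495) (.g (nat_lit 4130) (.e (nat_lit 98389) (nat_lit 33) (.e (nat_lit 491563) (nat_lit 12) (.e (nat_lit 385074) (nat_lit 31) (.e (nat_lit 573449) (nat_lit 9) .nil)))) .nil)) 
(.lf (nat_lit 233559) (.g (nat_lit 695) (.e (nat_lit 114432) (nat_lit 4) (.e (nat_lit 172124) (nat_lit 14) (.e (nat_lit 491568) (nat_lit 13) .nil))) .nil))) (.nd (nat_lit 6) 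
(.lf (nat_lit 233527) (.g (nat_lit 1551) (.e (nat_lit 106240) (nat_lit 33) (.e (nat_lit 491564) (nat_lit 12) (.e (nat_lit 385074) (nat_lit 31) (.e (nat_lit 573491) (nat_lit 15) .nil)))) .nil)) 
(.lf (nat_lit 233591) (.g (nat_lit 1826) (.e (nat_lit 114432) (nat_lit 5) (.e (nat_lit 180277) (nat_lit 32) (.e (nat_lit 1661) (nat_lit 115) (.e (nat_lit 393268) (nat_lit 23) (.e (nat_lit 433920) (nat_lit 19) .nil))))) .nil))))) (.nd (nat_lit 4) (.nd (nat_lit 5) (.nd (nat_lit 6) 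
(.lf (nat_lit 233487) (.g (nat_lit 1944) (.e (nat_lit 98389) (nat_lit 33) (.e (nat_lit 491563) (nat_lit 12) (.e (nat_lit 385068) (nat_lit 26) .nil))) .nil)) 
(.lf (nat_lit 233551) (.g (nat_lit 2237) (.e (nat_lit 114432) (nat_lit 3) (.e (nat_lit 163979) (nat_lit 30) (.e (nat_lit 573475) (nat_lit 12) (.e (nat_lit 57520) (nat_lit 44) (.e (nat_lit 688171) (nat_lit 15) .nil))))) .nil))) (.nd (nat_lit 6) 
(.lf (nat_lit 233519) (.g (nat_lit 1739) (.e (nat_lit 98389) (nat_lit 33) (.e (nat_lit 491570) (nat_lit 13) (.e (nat_lit 393238) (nat_lit 17) (.e (nat_lit 3562) (nat_lit 221) .nil)))) .nil)) 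
(.lf (nat_lit 233583) (.g (nat_lit 1720) (.e (nat_lit 114432) (nat_lit 5) (.e (nat_lit 180277) (nat_lit 32) (.e (nat_lit 1427) (nat_lit 108) (.e (nat_lit 336443) (nat_lit 32) (.e (nat_lit 474880) (nat_lit 4) .nil))))) .nil)))) (.nd (nat_lit 5) (.nd (nat_lit 6) 
(.lf (nat_lit 233503) (.g (nat_lit 4125) (.e (nat_lit 98389) (nat_lit 33) (.e (nat_lit 491563) (nat_lit 12) (.e (nat_lit 385074) (nat_lit 31) (.e (nat_lit 573497) (nat_lit 17) .nil)))) .nil)) 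
(.lf (nat_lit 233567) (.g (nat_lit 1582) (.e (nat_lit 114432) (nat_lit 4) (.e (nat_lit 172126) (nat_lit 14) (.e (nat_lit 491550) (nat_lit 9) (.e (nat_lit 336428) (nat_lit 29) (.e (nat_lit 450304) (nat_lit 4) .nil))))) .nil))) (.nd (nat_lit 6) 
(.lf (nat_lit 233535) (.g (nat_lit 1043) (.e (nat_lit 114432) (nat_lit 2) (.e (nat_lit 24607) (nat_lit 3) (.e (nat_lit 98388) (nat_lit 33) (.e (nat_lit 491566) (nat_lit 12) .nil)))) .nil)) 
(.lf (nat_lit 233599) (.g (nat_lit 1592) (.e (nat_lit 114432) (nat_lit 5) (.e (nat_lit 180278) (nat_lit 32) (.e (nat_lit 1428) (nat_lit 108) (.e (nat_lit 336430) (nat_lit 29) (.e (nat_lit 450304) (nat_lit 4) .nil))))) .nil)))))))))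

noncomputable def tv3053 : DT := (.nd (nat_lit 0) (.nd (nat_lit 1) (.nd (nat_lit 2) (.nd (nat_lit 3) (.nd (nat_lit 4) (.nd (nat_lit 5) (.nd (nat_lit 6) 
(.lf (nat_lit 233600) (.g (nat_lit 437) (.e (nat_lit 114432) (nat_lit 5) (.e (nat_lit 180278) (nat_lit 32) (.e (nat_lit 1658) (nat_lit 115) .nil))) .nil)) 
(.lf (nat_lit 233664) (.g (nat_lit 1721) (.e (nat_lit 114432) (nat_lit 6) (.e (nat_lit 188455) (nat_lit 24) (.e (nat_lit 229664) (nat_lit 240) (.e (nat_lit 2725) (nat_lit 172) (.e (nat_lit 237605) (nat_lit 9) .nil))))) .nil))) (.nd (nat_lit 6) 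
(.lf (nat_lit 233632) (.g (nat_lit 822) (.e (nat_lit 114432) (nat_lit 6) (.e (nat_lit 188431) (nat_lit 20) (.e (nat_lit 3399) (nat_lit 211) (.e (nat_lit 647185) (nat_lit 6) (.e (nat_lit 196352) (nat_lit 4) .nil))))) .nil)) 
(.lf (nat_lit 233696) (.g (nat_lit 4355) (.e (nat_lit 106517) (nat_lit 9) (.e (nat_lit 1181) (nat_lit 87) (.e (nat_lit 57872) (nat_lit 264) (.e (nat_lit 1221) (nat_lit 90) (.e (nat_lit 81956) (nat_lit 23) (.e (nat_lit 98321) (nat_lit 17) (.e (nat_lit 7936) (nat_lit 220) (.e (nat_lit 720949) (nat_lit 24) .nil)))))))) (.g (nat_lit 6) .nil .nil))))) (.nd (nat_lit 5) (.nd (nat_lit 6) 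
(.lf (nat_lit 233616) (.g (nat_lit 1275) (.e (nat_lit 114432) (nat_lit 6) (.e (nat_lit 188418) (nat_lit 0) (.e (nat_lit 2174) (nat_lit 143) (.e (nat_lit 712745) (nat_lit 27) (.e (nat_lit 426234) (nat_lit 9) .nil))))) .nil)) 
(.lf (nat_lit 233680) (.g (nat_lit 216) (.e (nat_lit 106511) (nat_lit 9) (.e (nat_lit 1315) (nat_lit 98) (.e (nat_lit 147495) (nat_lit 11) .nil))) .nil))) (.nd (nat_lit 6) 
(.lf (nat_lit 233648) (.g (nat_lit 1063) (.e (nat_lit 114432) (nat_lit 6) (.e (nat_lit 188441) (nat_lit 20) (.e (nat_lit 3409) (nat_lit 212) (.e (nat_lit 655380) (nat_lit 6) (.e (nat_lit 196352) (nat_lit 4) .nil))))) .nil)) 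
(.lf (nat_lit 233712) (.g (nat_lit 1485) (.e (nat_lit 106517) (nat_lit 9) (.e (nat_lit 1255) (nat_lit 92) (.e (nat_lit 98334) (nat_lit 18) (.e (nat_lit 164399) (nat_lit 256) .nil)))) .nil))))) (.nd (nat_lit 4) (.nd (nat_lit 5) (.nd (nat_lit 6) 
(.lf (nat_lit 233608) (.g (nat_lit 1320) (.e (nat_lit 114432) (nat_lit 5) (.e (nat_lit 180278) (nat_lit 32) (.e (nat_lit 1661) (nat_lit 115) (.e (nat_lit 393274) (nat_lit 23) (.e (nat_lit 433920) (nat_lit 19) .nil))))) .nil)) 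
(.lf (nat_lit 233672) (.g (nat_lit 788) (.e (nat_lit 114432) (nat_lit 8) (.e (nat_lit 237618) (nat_lit 12) (.e (nat_lit 475207) (nat_lit 41) (.e (nat_lit 712752) (nat_lit 29) (.e (nat_lit 450304) (nat_lit 4) .nil))))) .nil))) (.nd (nat_lit 6) 
(.lf (nat_lit 233640) (.g (nat_lit 648) (.e (nat_lit 114432) (nat_lit 6) (.e (nat_lit 188439) (nat_lit 20) (.e (nat_lit 3406) (nat_lit 212) (.e (nat_lit 655380) (nat_lit 6) (.e (nat_lit 196352) (nat_lit 4) .nil))))) .nil)) 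
(.lf (nat_lit 233704) (.g (nat_lit 1716) (.e (nat_lit 106517) (nat_lit 9) (.e (nat_lit 1238) (nat_lit 91) (.e (nat_lit 90172) (nat_lit 14) (.e (nat_lit 180244) (nat_lit 5) (.e (nat_lit 532503) (nat_lit 1) .nil))))) .nil)))) (.nd (nat_lit 5) (.nd (nat_lit 6) 
(.lf (nat_lit 233624) (.g (nat_lit 1473) (.e (nat_lit 114432) (nat_lit 6) (.e (nat_lit 188420) (nat_lit 0) (.e (nat_lit 2174) (nat_lit 143) (.e (nat_lit 712752) (nat_lit 29) (.e (nat_lit 450304) (nat_lit 4) .nil))))) .nil)) 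
(.lf (nat_lit 233688) (.g (nat_lit 1373) (.e (nat_lit 106517) (nat_lit 9) (.e (nat_lit 1181) (nat_lit 87) (.e (nat_lit 57872) (nat_lit 264) (.e (nat_lit 1211) (nat_lit 89) .nil)))) .nil))) (.nd (nat_lit 6) 
(.lf (nat_lit 233656) (.g (nat_lit 622) (.e (nat_lit 114432) (nat_lit 6) (.e (nat_lit 188453) (nat_lit 24) (.e (nat_lit 229699) (nat_lit 254) .nil))) .nil)) 
(.lf (nat_lit 233720) (.g (nat_lit 1505) (.e (nat_lit 106521) (nat_lit 9) (.e (nat_lit 1181) (nat_lit 87) (.e (nat_lit 57872) (nat_lit 264) (.e (nat_lit 1210) (nat_lit 89) .nil)))) .nil)))))) (.nd (nat_lit 3) (.nd (nat_lit 4) (.nd (nat_lit 5) (.nd (nat_lit 6) 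
(.lf (nat_lit 233604) (.g (nat_lit 1017) (.e (nat_lit 114432) (nat_lit 5) (.e (nat_lit 180278) (nat_lit 32) (.e (nat_lit 1659) (nat_lit 115) (.e (nat_lit 393272) (nat_lit 23) .nil)))) .nil)) 
(.lf (nat_lit 233668) (.g (nat_lit 1609) (.e (nat_lit 114432) (nat_lit 6) (.e (nat_lit 188455) (nat_lit 24) (.e (nat_lit 229678) (nat_lit 244) (.e (nat_lit 163914) (nat_lit 12) .nil)))) .nil))) (.nd (nat_lit 6) 
(.lf (nat_lit 233636) (.g (nat_lit 582) (.e (nat_lit 114432) (nat_lit 6) (.e (nat_lit 188434) (nat_lit 20) (.e (nat_lit 3408) (nat_lit 212) (.e (nat_lit 655380) (nat_lit 6) .nil)))) .nil)) 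
(.lf (nat_lit 233700) (.g (nat_lit 3522) (.e (nat_lit 106517) (nat_lit 9) (.e (nat_lit 1237) (nat_lit 91) (.e (nat_lit 90170) (nat_lit 13) (.e (nat_lit 172066) (nat_lit 3) (.e (nat_lit 204829) (nat_lit 18) .nil))))) .nil)))) (.nd (nat_lit 5) (.nd (nat_lit 6) 
(.lf (nat_lit 233620) (.g (nat_lit 298) (.e (nat_lit 114432) (nat_lit 6) (.e (nat_lit 188420) (nat_lit 0) (.e (nat_lit 2056) (nat_lit 142) (.e (nat_lit 704598) (nat_lit 6) (.e (nat_lit 196352) (nat_lit 4) .nil))))) .nil)) 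
(.lf (nat_lit 233684) (.g (nat_lit 1828) (.e (nat_lit 106517) (nat_lit 9) (.e (nat_lit 1181) (nat_lit 87) (.e (nat_lit 57870) (nat_lit 264) (.e (nat_lit 1209) (nat_lit 89) (.e (nat_lit 81664) (nat_lit 38) .nil))))) .nil))) (.nd (nat_lit 6) 
(.lf (nat_lit 233652) (.g (nat_lit 781) (.e (nat_lit 114432) (nat_lit 6) (.e (nat_lit 188453) (nat_lit 24) (.e (nat_lit 229666) (nat_lit 240) (.e (nat_lit 2652) (nat_lit 166) .nil)))) .nil)) 
(.lf (nat_lit 233716) (.g (nat_lit 2585) (.e (nat_lit 106520) (nat_lit 9) (.e (nat_lit 1181) (nat_lit 87) (.e (nat_lit 57849) (nat_lit 252) (.e (nat_lit 57411) (nat_lit 12) (.e (nat_lit 336211) (nat_lit 13) .nil))))) .nil))))) (.nd (nat_lit 4) (.nd (nat_lit 5) (.nd (nat_lit 6) 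
(.lf (nat_lit 233612) (.g (nat_lit 360) (.e (nat_lit 114432) (nat_lit 6) (.e (nat_lit 188418) (nat_lit 0) (.e (nat_lit 2057) (nat_lit 142) (.e (nat_lit 704598) (nat_lit 6) (.e (nat_lit 196352) (nat_lit 4) .nil))))) .nil)) 
(.lf (nat_lit 233676) (.g (nat_lit 1951) (.e (nat_lit 106504) (nat_lit 9) (.e (nat_lit 1237) (nat_lit 91) (.e (nat_lit 90160) (nat_lit 11) (.e (nat_lit 24628) (nat_lit 9) (.e (nat_lit 336019) (nat_lit 3) .nil))))) .nil))) (.nd (nat_lit 6) 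
(.lf (nat_lit 233644) (.g (nat_lit 984) (.e (nat_lit 114432) (nat_lit 6) (.e (nat_lit 188440) (nat_lit 20) (.e (nat_lit 3408) (nat_lit 212) (.e (nat_lit 655380) (nat_lit 6) (.e (nat_lit 196352) (nat_lit 4) .nil))))) .nil)) 
(.lf (nat_lit 233708) (.g (nat_lit 2253) (.e (nat_lit 106517) (nat_lit 9) (.e (nat_lit 1252) (nat_lit 92) (.e (nat_lit 98334) (nat_lit 18) (.e (nat_lit 164330) (nat_lit 230) (.e (nat_lit 163869) (nat_lit 2) .nil))))) .nil)))) (.nd (nat_lit 5) (.nd (nat_lit 6) 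
(.lf (nat_lit 233628) (.g (nat_lit 832) (.e (nat_lit 114432) (nat_lit 6) (.e (nat_lit 188427) (nat_lit 20) (.e (nat_lit 3402) (nat_lit 211) (.e (nat_lit 647185) (nat_lit 6) (.e (nat_lit 196352) (nat_lit 4) .nil))))) .nil)) 
(.lf (nat_lit 233692) (.g (nat_lit 3105) (.e (nat_lit 106517) (nat_lit 9) (.e (nat_lit 1181) (nat_lit 87) (.e (nat_lit 57872) (nat_lit 264) (.e (nat_lit 1219) (nat_lit 90) (.e (nat_lit 81954) (nat_lit 23) (.e (nat_lit 98321) (nat_lit 17) (.e (nat_lit 7936) (nat_lit 220) (.e (nat_lit 720949) (nat_lit 24) .nil)))))))) (.g (nat_lit 6) .nil .nil)))) (.nd (nat_lit 6) 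
(.lf (nat_lit 233660) (.g (nat_lit 2708) (.e (nat_lit 114432) (nat_lit 6) (.e (nat_lit 188455) (nat_lit 24) (.e (nat_lit 229663) (nat_lit 240) (.e (nat_lit 2725) (nat_lit 172) (.e (nat_lit 237601) (nat_lit 9) .nil))))) .nil)) 
(.lf (nat_lit 233724) (.g (nat_lit 1147) (.e (nat_lit 106523) (nat_lit 9) (.e (nat_lit 1181) (nat_lit 87) (.e (nat_lit 57870) (nat_lit 264) (.e (nat_lit 1210) (nat_lit 89) .nil)))) .nil))))))) (.nd (nat_lit 2) (.nd (nat_lit 3) (.nd (nat_lit 4) (.nd (nat_lit 5) (.nd (nat_lit 6) 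
(.lf (nat_lit 233602) (.g (nat_lit 713) (.e (nat_lit 114432) (nat_lit 5) (.e (nat_lit 180278) (nat_lit 32) (.e (nat_lit 1658) (nat_lit 115) (.e (nat_lit 393279) (nat_lit 23) .nil)))) .nil)) 
(.lf (nat_lit 233666) (.g (nat_lit 843) (.e (nat_lit 114432) (nat_lit 6) (.e (nat_lit 188455) (nat_lit 24) (.e (nat_lit 229666) (nat_lit 240) (.e (nat_lit 2652) (nat_lit 166) .nil)))) .nil))) (.nd (nat_lit 6) 
(.lf (nat_lit 233634) (.g (nat_lit 962) (.e (nat_lit 114432) (nat_lit 6) (.e (nat_lit 188431) (nat_lit 20) (.e (nat_lit 3402) (nat_lit 211) (.e (nat_lit 647185) (nat_lit 6) (.e (nat_lit 196352) (nat_lit 4) .nil))))) .nil)) 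
(.lf (nat_lit 233698) (.g (nat_lit 1807) (.e (nat_lit 106517) (nat_lit 9) (.e (nat_lit 1234) (nat_lit 91) (.e (nat_lit 90185) (nat_lit 17) (.e (nat_lit 237592) (nat_lit 3) .nil)))) .nil)))) (.nd (nat_lit 5) (.nd (nat_lit 6) 
(.lf (nat_lit 233618) (.g (nat_lit 1224) (.e (nat_lit 114432) (nat_lit 6) (.e (nat_lit 188418) (nat_lit 0) (.e (nat_lit 2175) (nat_lit 143) (.e (nat_lit 712750) (nat_lit 29) (.e (nat_lit 450304) (nat_lit 4) .nil))))) .nil)) 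
(.lf (nat_lit 233682) (.g (nat_lit 994) (.e (nat_lit 106513) (nat_lit 9) (.e (nat_lit 1183) (nat_lit 87) (.e (nat_lit 57872) (nat_lit 264) (.e (nat_lit 1209) (nat_lit 89) .nil)))) .nil))) (.nd (nat_lit 6) 
(.lf (nat_lit 233650) (.g (nat_lit 1219) (.e (nat_lit 114432) (nat_lit 6) (.e (nat_lit 188453) (nat_lit 24) (.e (nat_lit 229664) (nat_lit 240) (.e (nat_lit 2725) (nat_lit 172) (.e (nat_lit 237601) (nat_lit 9) .nil))))) .nil)) 
(.lf (nat_lit 233714) (.g (nat_lit 986) (.e (nat_lit 106520) (nat_lit 9) (.e (nat_lit 1172) (nat_lit 87) (.e (nat_lit 57852) (nat_lit 252) (.e (nat_lit 57419) (nat_lit 12) .nil)))) .nil))))) (.nd (nat_lit 4) (.nd (nat_lit 5) (.nd (nat_lit 6) 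
(.lf (nat_lit 233610) (.g (nat_lit 423) (.e (nat_lit 114432) (nat_lit 6) (.e (nat_lit 188417) (nat_lit 0) (.e (nat_lit 2147) (nat_lit 142) (.e (nat_lit 704597) (nat_lit 6) (.e (nat_lit 196352) (nat_lit 4) .nil))))) .nil)) 
(.lf (nat_lit 233674) (.g (nat_lit 2144) (.e (nat_lit 106504) (nat_lit 9) (.e (nat_lit 1181) (nat_lit 87) (.e (nat_lit 57846) (nat_lit 252) (.e (nat_lit 57437) (nat_lit 17) (.e (nat_lit 376842) (nat_lit 11) .nil))))) .nil))) (.nd (nat_lit 6) 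
(.lf (nat_lit 233642) (.g (nat_lit 682) (.e (nat_lit 114432) (nat_lit 6) (.e (nat_lit 188439) (nat_lit 20) (.e (nat_lit 3408) (nat_lit 212) (.e (nat_lit 655380) (nat_lit 6) (.e (nat_lit 196352) (nat_lit 4) .nil))))) .nil)) 
(.lf (nat_lit 233706) (.g (nat_lit 2113) (.e (nat_lit 106517) (nat_lit 9) (.e (nat_lit 1238) (nat_lit 91) (.e (nat_lit 90185) (nat_lit 17) (.e (nat_lit 237593) (nat_lit 3) .nil)))) .nil)))) (.nd (nat_lit 5) (.nd (nat_lit 6) 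
(.lf (nat_lit 233626) (.g (nat_lit 1150) (.e (nat_lit 114432) (nat_lit 6) (.e (nat_lit 188420) (nat_lit 0) (.e (nat_lit 2175) (nat_lit 143) (.e (nat_lit 712752) (nat_lit 29) (.e (nat_lit 450304) (nat_lit 4) .nil))))) .nil)) 
(.lf (nat_lit 233690) (.g (nat_lit 1278) (.e (nat_lit 106517) (nat_lit 9) (.e (nat_lit 1181) (nat_lit 87) (.e (nat_lit 57872) (nat_lit 264) (.e (nat_lit 1219) (nat_lit 90) .nil)))) .nil))) (.nd (nat_lit 6) 
(.lf (nat_lit 233658) (.g (nat_lit 2269) (.e (nat_lit 114432) (nat_lit 6) (.e (nat_lit 188455) (nat_lit 24) (.e (nat_lit 229663) (nat_lit 240) (.e (nat_lit 2622) (nat_lit 164) .nil)))) .nil)) 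
(.lf (nat_lit 233722) (.g (nat_lit 1772) (.e (nat_lit 106521) (nat_lit 9) (.e (nat_lit 1234) (nat_lit 91) (.e (nat_lit 90158) (nat_lit 11) (.e (nat_lit 24644) (nat_lit 11) (.e (nat_lit 368676) (nat_lit 21) .nil))))) .nil)))))) (.nd (nat_lit 3) (.nd (nat_lit 4) (.nd (nat_lit 5) (.nd (nat_lit 6) 
(.lf (nat_lit 233606) (.g (nat_lit 792) (.e (nat_lit 114432) (nat_lit 5) (.e (nat_lit 180278) (nat_lit 32) (.e (nat_lit 1660) (nat_lit 115) (.e (nat_lit 393279) (nat_lit 23) .nil)))) .nil)) 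
(.lf (nat_lit 233670) (.g (nat_lit 263) (.e (nat_lit 114432) (nat_lit 7) (.e (nat_lit 229430) (nat_lit 24) (.e (nat_lit 524319) (nat_lit 11) (.e (nat_lit 450304) (nat_lit 18) .nil)))) .nil))) (.nd (nat_lit 6) 
(.lf (nat_lit 233638) (.g (nat_lit 538) (.e (nat_lit 114432) (nat_lit 6) (.e (nat_lit 188435) (nat_lit 20) (.e (nat_lit 3408) (nat_lit 212) (.e (nat_lit 655380) (nat_lit 6) (.e (nat_lit 196352) (nat_lit 4) .nil))))) .nil)) 
(.lf (nat_lit 233702) (.g (nat_lit 1415) (.e (nat_lit 106517) (nat_lit 9) (.e (nat_lit 1238) (nat_lit 91) (.e (nat_lit 90128) (nat_lit 9) (.e (nat_lit 324) (nat_lit 24) (.e (nat_lit 360466) (nat_lit 3) .nil))))) .nil)))) (.nd (nat_lit 5) (.nd (nat_lit 6) 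
(.lf (nat_lit 233622) (.g (nat_lit 750) (.e (nat_lit 114432) (nat_lit 6) (.e (nat_lit 188420) (nat_lit 0) (.e (nat_lit 2058) (nat_lit 142) (.e (nat_lit 704598) (nat_lit 6) (.e (nat_lit 196352) (nat_lit 4) .nil))))) .nil)) 
(.lf (nat_lit 233686) (.g (nat_lit 2560) (.e (nat_lit 106517) (nat_lit 9) (.e (nat_lit 1181) (nat_lit 87) (.e (nat_lit 57872) (nat_lit 264) (.e (nat_lit 1209) (nat_lit 89) (.e (nat_lit 81664) (nat_lit 38) (.e (nat_lit 229433) (nat_lit 25) (.e (nat_lit 532515) (nat_lit 3) (.e (nat_lit 114722) (nat_lit 24) .nil)))))))) (.g (nat_lit 4) .nil .nil)))) (.nd (nat_lit 6) 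
(.lf (nat_lit 233654) (.g (nat_lit 1398) (.e (nat_lit 114432) (nat_lit 6) (.e (nat_lit 188453) (nat_lit 24) (.e (nat_lit 229678) (nat_lit 244) (.e (nat_lit 163915) (nat_lit 12) .nil)))) .nil)) 
(.lf (nat_lit 233718) (.g (nat_lit 1161) (.e (nat_lit 106520) (nat_lit 9) (.e (nat_lit 1228) (nat_lit 91) (.e (nat_lit 90160) (nat_lit 11) (.e (nat_lit 24636) (nat_lit 9) .nil)))) .nil))))) (.nd (nat_lit 4) (.nd (nat_lit 5) (.nd (nat_lit 6) 
(.lf (nat_lit 233614) (.g (nat_lit 970) (.e (nat_lit 114432) (nat_lit 6) (.e (nat_lit 188418) (nat_lit 0) (.e (nat_lit 2059) (nat_lit 142) (.e (nat_lit 704598) (nat_lit 6) (.e (nat_lit 196352) (nat_lit 4) .nil))))) .nil)) 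
(.lf (nat_lit 233678) (.g (nat_lit 1266) (.e (nat_lit 106504) (nat_lit 9) (.e (nat_lit 1238) (nat_lit 91) (.e (nat_lit 90128) (nat_lit 9) (.e (nat_lit 324) (nat_lit 24) .nil)))) .nil))) (.nd (nat_lit 6) 
(.lf (nat_lit 233646) (.g (nat_lit 373) (.e (nat_lit 114432) (nat_lit 6) (.e (nat_lit 188441) (nat_lit 20) (.e (nat_lit 3406) (nat_lit 212) .nil))) .nil)) 
(.lf (nat_lit 233710) (.g (nat_lit 2290) (.e (nat_lit 106517) (nat_lit 9) (.e (nat_lit 1255) (nat_lit 92) (.e (nat_lit 98333) (nat_lit 18) (.e (nat_lit 164403) (nat_lit 256) (.e (nat_lit 57371) (nat_lit 2) .nil))))) .nil)))) (.nd (nat_lit 5) (.nd (nat_lit 6) 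
(.lf (nat_lit 233630) (.g (nat_lit 680) (.e (nat_lit 114432) (nat_lit 6) (.e (nat_lit 188428) (nat_lit 20) (.e (nat_lit 3402) (nat_lit 211) (.e (nat_lit 647185) (nat_lit 6) (.e (nat_lit 196352) (nat_lit 4) .nil))))) .nil)) 
(.lf (nat_lit 233694) (.g (nat_lit 2553) (.e (nat_lit 106517) (nat_lit 9) (.e (nat_lit 1181) (nat_lit 87) (.e (nat_lit 57872) (nat_lit 264) (.e (nat_lit 1221) (nat_lit 90) (.e (nat_lit 81954) (nat_lit 23) .nil))))) .nil))) (.nd (nat_lit 6) 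
(.lf (nat_lit 233662) (.g (nat_lit 292) (.e (nat_lit 114432) (nat_lit 6) (.e (nat_lit 188455) (nat_lit 24) (.e (nat_lit 229664) (nat_lit 240) .nil))) .nil)) 
(.lf (nat_lit 233726) (.g (nat_lit 2422) (.e (nat_lit 106523) (nat_lit 9) (.e (nat_lit 1181) (nat_lit 87) (.e (nat_lit 57872) (nat_lit 264) (.e (nat_lit 1209) (nat_lit 89) (.e (nat_lit 73781) (nat_lit 32) .nil))))) .nil)))))))) (.nd (nat_lit 1) (.nd (nat_lit 2) (.nd (nat_lit 3) (.nd (nat_lit 4) (.nd (nat_lit 5) (.nd (nat_lit 6) 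
(.lf (nat_lit 233601) (.g (nat_lit 713) (.e (nat_lit 114432) (nat_lit 5) (.e (nat_lit 180278) (nat_lit 32) (.e (nat_lit 1658) (nat_lit 115) (.e (nat_lit 393267) (nat_lit 23) .nil)))) .nil)) 
(.lf (nat_lit 233665) (.g (nat_lit 886) (.e (nat_lit 114432) (nat_lit 6) (.e (nat_lit 188455) (nat_lit 24) (.e (nat_lit 229665) (nat_lit 240) (.e (nat_lit 2725) (nat_lit 172) .nil)))) .nil))) (.nd (nat_lit 6) 
(.lf (nat_lit 233633) (.g (nat_lit 935) (.e (nat_lit 114432) (nat_lit 6) (.e (nat_lit 188431) (nat_lit 20) (.e (nat_lit 3401) (nat_lit 211) (.e (nat_lit 647185) (nat_lit 6) (.e (nat_lit 196352) (nat_lit 4) .nil))))) .nil)) 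
(.lf (nat_lit 233697) (.g (nat_lit 1880) (.e (nat_lit 106517) (nat_lit 9) (.e (nat_lit 1182) (nat_lit 87) (.e (nat_lit 57852) (nat_lit 252) (.e (nat_lit 57436) (nat_lit 17) (.e (nat_lit 376842) (nat_lit 11) .nil))))) .nil)))) (.nd (nat_lit 5) (.nd (nat_lit 6) 
(.lf (nat_lit 233617) (.g (nat_lit 1507) (.e (nat_lit 114432) (nat_lit 6) (.e (nat_lit 188418) (nat_lit 0) (.e (nat_lit 2174) (nat_lit 143) (.e (nat_lit 712752) (nat_lit 29) (.e (nat_lit 450304) (nat_lit 4) .nil))))) .nil)) 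
(.lf (nat_lit 233681) (.g (nat_lit 1975) (.e (nat_lit 106512) (nat_lit 9) (.e (nat_lit 1183) (nat_lit 87) (.e (nat_lit 57872) (nat_lit 264) (.e (nat_lit 1209) (nat_lit 89) (.e (nat_lit 81664) (nat_lit 38) .nil))))) .nil))) (.nd (nat_lit 6) 
(.lf (nat_lit 233649) (.g (nat_lit 1166) (.e (nat_lit 114432) (nat_lit 6) (.e (nat_lit 188453) (nat_lit 24) (.e (nat_lit 229663) (nat_lit 240) (.e (nat_lit 2725) (nat_lit 172) .nil)))) .nil)) 
(.lf (nat_lit 233713) (.g (nat_lit 1693) (.e (nat_lit 106517) (nat_lit 9) (.e (nat_lit 1255) (nat_lit 92) (.e (nat_lit 98335) (nat_lit 18) (.e (nat_lit 164403) (nat_lit 256) (.e (nat_lit 57371) (nat_lit 2) .nil))))) .nil))))) (.nd (nat_lit 4) (.nd (nat_lit 5) (.nd (nat_lit 6) 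
(.lf (nat_lit 233609) (.g (nat_lit 429) (.e (nat_lit 114432) (nat_lit 6) (.e (nat_lit 188416) (nat_lit 0) (.e (nat_lit 2147) (nat_lit 142) (.e (nat_lit 704597) (nat_lit 6) (.e (nat_lit 196352) (nat_lit 4) .nil))))) .nil)) 
(.lf (nat_lit 233673) (.g (nat_lit 1522) (.e (nat_lit 106504) (nat_lit 9) (.e (nat_lit 370) (nat_lit 32) (.e (nat_lit 426568) (nat_lit 34) (.e (nat_lit 393260) (nat_lit 21) .nil)))) .nil))) (.nd (nat_lit 6) 
(.lf (nat_lit 233641) (.g (nat_lit 588) (.e (nat_lit 114432) (nat_lit 6) (.e (nat_lit 188439) (nat_lit 20) (.e (nat_lit 3407) (nat_lit 212) (.e (nat_lit 655380) (nat_lit 6) (.e (nat_lit 196352) (nat_lit 4) .nil))))) .nil)) 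
(.lf (nat_lit 233705) (.g (nat_lit 297) (.e (nat_lit 106517) (nat_lit 9) (.e (nat_lit 1238) (nat_lit 91) (.e (nat_lit 90185) (nat_lit 17) .nil))) .nil)))) (.nd (nat_lit 5) (.nd (nat_lit 6) 
(.lf (nat_lit 233625) (.g (nat_lit 1102) (.e (nat_lit 114432) (nat_lit 6) (.e (nat_lit 188420) (nat_lit 0) (.e (nat_lit 2175) (nat_lit 143) (.e (nat_lit 712750) (nat_lit 29) (.e (nat_lit 450304) (nat_lit 4) .nil))))) .nil)) 
(.lf (nat_lit 233689) (.g (nat_lit 1976) (.e (nat_lit 106517) (nat_lit 9) (.e (nat_lit 1181) (nat_lit 87) (.e (nat_lit 57872) (nat_lit 264) (.e (nat_lit 1211) (nat_lit 89) (.e (nat_lit 81664) (nat_lit 38) (.e (nat_lit 229433) (nat_lit 25) (.e (nat_lit 532515) (nat_lit 3) (.e (nat_lit 114722) (nat_lit 24) .nil)))))))) (.g (nat_lit 4) .nil .nil)))) (.nd (nat_lit 6) 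
(.lf (nat_lit 233657) (.g (nat_lit 2050) (.e (nat_lit 114432) (nat_lit 6) (.e (nat_lit 188455) (nat_lit 24) (.e (nat_lit 229663) (nat_lit 240) (.e (nat_lit 2497) (nat_lit 157) .nil)))) .nil)) 
(.lf (nat_lit 233721) (.g (nat_lit 2191) (.e (nat_lit 106521) (nat_lit 9) (.e (nat_lit 1234) (nat_lit 91) (.e (nat_lit 90158) (nat_lit 11) (.e (nat_lit 24628) (nat_lit 9) (.e (nat_lit 336019) (nat_lit 3) .nil))))) .nil)))))) (.nd (nat_lit 3) (.nd (nat_lit 4) (.nd (nat_lit 5) (.nd (nat_lit 6) 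
(.lf (nat_lit 233605) (.g (nat_lit 1226) (.e (nat_lit 114432) (nat_lit 5) (.e (nat_lit 180278) (nat_lit 32) (.e (nat_lit 1659) (nat_lit 115) (.e (nat_lit 393272) (nat_lit 23) (.e (nat_lit 426444) (nat_lit 19) .nil))))) .nil)) 
(.lf (nat_lit 233669) (.g (nat_lit 1491) (.e (nat_lit 114432) (nat_lit 6) (.e (nat_lit 188455) (nat_lit 24) (.e (nat_lit 229699) (nat_lit 254) (.e (nat_lit 1183) (nat_lit 87) (.e (nat_lit 57749) (nat_lit 201) .nil))))) .nil))) (.nd (nat_lit 6) 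
(.lf (nat_lit 233637) (.g (nat_lit 879) (.e (nat_lit 114432) (nat_lit 6) (.e (nat_lit 188434) (nat_lit 20) (.e (nat_lit 3409) (nat_lit 212) (.e (nat_lit 655380) (nat_lit 6) (.e (nat_lit 196352) (nat_lit 4) .nil))))) .nil)) 
(.lf (nat_lit 233701) (.g (nat_lit 1321) (.e (nat_lit 106517) (nat_lit 9) (.e (nat_lit 1237) (nat_lit 91) (.e (nat_lit 90170) (nat_lit 13) (.e (nat_lit 179968) (nat_lit 20) .nil)))) .nil)))) (.nd (nat_lit 5) (.nd (nat_lit 6) 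
(.lf (nat_lit 233621) (.g (nat_lit 319) (.e (nat_lit 114432) (nat_lit 6) (.e (nat_lit 188420) (nat_lit 0) (.e (nat_lit 2057) (nat_lit 142) (.e (nat_lit 704598) (nat_lit 6) (.e (nat_lit 196352) (nat_lit 4) .nil))))) .nil)) 
(.lf (nat_lit 233685) (.g (nat_lit 2416) (.e (nat_lit 106517) (nat_lit 9) (.e (nat_lit 1181) (nat_lit 87) (.e (nat_lit 57872) (nat_lit 264) (.e (nat_lit 1209) (nat_lit 89) (.e (nat_lit 81664) (nat_lit 35) .nil))))) .nil))) (.nd (nat_lit 6) 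
(.lf (nat_lit 233653) (.g (nat_lit 1385) (.e (nat_lit 114432) (nat_lit 6) (.e (nat_lit 188453) (nat_lit 24) (.e (nat_lit 229678) (nat_lit 244) (.e (nat_lit 163914) (nat_lit 12) .nil)))) .nil)) 
(.lf (nat_lit 233717) (.g (nat_lit 2301) (.e (nat_lit 106520) (nat_lit 9) (.e (nat_lit 1181) (nat_lit 87) (.e (nat_lit 57852) (nat_lit 252) (.e (nat_lit 57436) (nat_lit 17) (.e (nat_lit 376842) (nat_lit 11) .nil))))) .nil))))) (.nd (nat_lit 4) (.nd (nat_lit 5) (.nd (nat_lit 6) 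
(.lf (nat_lit 233613) (.g (nat_lit 903) (.e (nat_lit 114432) (nat_lit 6) (.e (nat_lit 188418) (nat_lit 0) (.e (nat_lit 2058) (nat_lit 142) (.e (nat_lit 704598) (nat_lit 6) (.e (nat_lit 196352) (nat_lit 4) .nil))))) .nil)) 
(.lf (nat_lit 233677) (.g (nat_lit 1551) (.e (nat_lit 106504) (nat_lit 9) (.e (nat_lit 1237) (nat_lit 91) (.e (nat_lit 90170) (nat_lit 13) (.e (nat_lit 179968) (nat_lit 20) .nil)))) .nil))) (.nd (nat_lit 6) 
(.lf (nat_lit 233645) (.g (nat_lit 902) (.e (nat_lit 114432) (nat_lit 6) (.e (nat_lit 188440) (nat_lit 20) (.e (nat_lit 3409) (nat_lit 212) (.e (nat_lit 655380) (nat_lit 6) (.e (nat_lit 196352) (nat_lit 4) .nil))))) .nil)) 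
(.lf (nat_lit 233709) (.g (nat_lit 2244) (.e (nat_lit 106517) (nat_lit 9) (.e (nat_lit 1255) (nat_lit 92) (.e (nat_lit 98333) (nat_lit 18) (.e (nat_lit 164403) (nat_lit 256) (.e (nat_lit 57370) (nat_lit 2) .nil))))) .nil)))) (.nd (nat_lit 5) (.nd (nat_lit 6) 
(.lf (nat_lit 233629) (.g (nat_lit 599) (.e (nat_lit 114432) (nat_lit 6) (.e (nat_lit 188428) (nat_lit 20) (.e (nat_lit 3401) (nat_lit 211) (.e (nat_lit 647185) (nat_lit 6) (.e (nat_lit 196352) (nat_lit 4) .nil))))) .nil)) 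
(.lf (nat_lit 233693) (.g (nat_lit 2574) (.e (nat_lit 106517) (nat_lit 9) (.e (nat_lit 1181) (nat_lit 87) (.e (nat_lit 57872) (nat_lit 264) (.e (nat_lit 1221) (nat_lit 90) (.e (nat_lit 81953) (nat_lit 22) .nil))))) .nil))) (.nd (nat_lit 6) 
(.lf (nat_lit 233661) (.g (nat_lit 2644) (.e (nat_lit 114432) (nat_lit 6) (.e (nat_lit 188455) (nat_lit 24) (.e (nat_lit 229663) (nat_lit 240) (.e (nat_lit 2725) (nat_lit 172) (.e (nat_lit 237605) (nat_lit 9) .nil))))) .nil)) 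
(.lf (nat_lit 233725) (.g (nat_lit 1144) (.e (nat_lit 106523) (nat_lit 9) (.e (nat_lit 1181) (nat_lit 87) (.e (nat_lit 57870) (nat_lit 264) (.e (nat_lit 1211) (nat_lit 89) .nil)))) .nil))))))) (.nd (nat_lit 2) (.nd (nat_lit 3) (.nd (nat_lit 4) (.nd (nat_lit 5) (.nd (nat_lit 6) 
(.lf (nat_lit 233603) (.g (nat_lit 1084) (.e (nat_lit 114432) (nat_lit 5) (.e (nat_lit 180278) (nat_lit 32) (.e (nat_lit 1659) (nat_lit 115) (.e (nat_lit 393267) (nat_lit 23) .nil)))) .nil)) 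
(.lf (nat_lit 233667) (.g (nat_lit 1896) (.e (nat_lit 114432) (nat_lit 6) (.e (nat_lit 188455) (nat_lit 24) (.e (nat_lit 229678) (nat_lit 244) (.e (nat_lit 163902) (nat_lit 12) .nil)))) .nil))) (.nd (nat_lit 6) 
(.lf (nat_lit 233635) (.g (nat_lit 730) (.e (nat_lit 114432) (nat_lit 6) (.e (nat_lit 188434) (nat_lit 20) (.e (nat_lit 3406) (nat_lit 212) (.e (nat_lit 655380) (nat_lit 6) .nil)))) .nil)) 
(.lf (nat_lit 233699) (.g (nat_lit 3287) (.e (nat_lit 106517) (nat_lit 9) (.e (nat_lit 1237) (nat_lit 91) (.e (nat_lit 90170) (nat_lit 13) (.e (nat_lit 172065) (nat_lit 3) (.e (nat_lit 204831) (nat_lit 18) .nil))))) .nil)))) (.nd (nat_lit 5) (.nd (nat_lit 6) 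
(.lf (nat_lit 233619) (.g (nat_lit 1265) (.e (nat_lit 114432) (nat_lit 6) (.e (nat_lit 188418) (nat_lit 0) (.e (nat_lit 2175) (nat_lit 143) (.e (nat_lit 712752) (nat_lit 29) (.e (nat_lit 450304) (nat_lit 4) .nil))))) .nil)) 
(.lf (nat_lit 233683) (.g (nat_lit 1842) (.e (nat_lit 106514) (nat_lit 9) (.e (nat_lit 1234) (nat_lit 91) (.e (nat_lit 90160) (nat_lit 11) (.e (nat_lit 24640) (nat_lit 10) .nil)))) .nil))) (.nd (nat_lit 6) 
(.lf (nat_lit 233651) (.g (nat_lit 1061) (.e (nat_lit 114432) (nat_lit 6) (.e (nat_lit 188453) (nat_lit 24) (.e (nat_lit 229665) (nat_lit 240) (.e (nat_lit 2725) (nat_lit 172) .nil)))) .nil)) 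
(.lf (nat_lit 233715) (.g (nat_lit 1635) (.e (nat_lit 106520) (nat_lit 9) (.e (nat_lit 1181) (nat_lit 87) (.e (nat_lit 57849) (nat_lit 252) (.e (nat_lit 57410) (nat_lit 12) .nil)))) .nil))))) (.nd (nat_lit 4) (.nd (nat_lit 5) (.nd (nat_lit 6) 
(.lf (nat_lit 233611) (.g (nat_lit 178) (.e (nat_lit 114432) (nat_lit 6) (.e (nat_lit 188417) (nat_lit 0) (.e (nat_lit 2148) (nat_lit 142) (.e (nat_lit 704597) (nat_lit 6) (.e (nat_lit 196352) (nat_lit 4) .nil))))) .nil)) 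
(.lf (nat_lit 233675) (.g (nat_lit 1298) (.e (nat_lit 106504) (nat_lit 9) (.e (nat_lit 1181) (nat_lit 87) (.e (nat_lit 57847) (nat_lit 252) (.e (nat_lit 57437) (nat_lit 17) .nil)))) .nil))) (.nd (nat_lit 6) 
(.lf (nat_lit 233643) (.g (nat_lit 776) (.e (nat_lit 114432) (nat_lit 6) (.e (nat_lit 188439) (nat_lit 20) (.e (nat_lit 3409) (nat_lit 212) (.e (nat_lit 655380) (nat_lit 6) (.e (nat_lit 196352) (nat_lit 4) .nil))))) .nil)) 
(.lf (nat_lit 233707) (.g (nat_lit 1224) (.e (nat_lit 106517) (nat_lit 9) (.e (nat_lit 1238) (nat_lit 91) (.e (nat_lit 90185) (nat_lit 17) (.e (nat_lit 237594) (nat_lit 3) .nil)))) .nil)))) (.nd (nat_lit 5) (.nd (nat_lit 6) 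
(.lf (nat_lit 233627) (.g (nat_lit 717) (.e (nat_lit 114432) (nat_lit 6) (.e (nat_lit 188427) (nat_lit 20) (.e (nat_lit 3397) (nat_lit 211) (.e (nat_lit 647185) (nat_lit 6) (.e (nat_lit 196352) (nat_lit 4) .nil))))) .nil)) 
(.lf (nat_lit 233691) (.g (nat_lit 3086) (.e (nat_lit 106517) (nat_lit 9) (.e (nat_lit 1181) (nat_lit 87) (.e (nat_lit 57872) (nat_lit 264) (.e (nat_lit 1219) (nat_lit 90) (.e (nat_lit 81954) (nat_lit 23) (.e (nat_lit 98321) (nat_lit 17) (.e (nat_lit 7936) (nat_lit 220) (.e (nat_lit 720948) (nat_lit 24) .nil)))))))) (.g (nat_lit 6) .nil .nil)))) (.nd (nat_lit 6) 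
(.lf (nat_lit 233659) (.g (nat_lit 1919) (.e (nat_lit 114432) (nat_lit 6) (.e (nat_lit 188455) (nat_lit 24) (.e (nat_lit 229663) (nat_lit 240) (.e (nat_lit 2652) (nat_lit 166) .nil)))) .nil)) 
(.lf (nat_lit 233723) (.g (nat_lit 2003) (.e (nat_lit 106523) (nat_lit 9) (.e (nat_lit 1181) (nat_lit 87) (.e (nat_lit 57870) (nat_lit 264) (.e (nat_lit 1209) (nat_lit 89) (.e (nat_lit 81664) (nat_lit 38) .nil))))) .nil)))))) (.nd (nat_lit 3) (.nd (nat_lit 4) (.nd (nat_lit 5) (.nd (nat_lit 6) 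
(.lf (nat_lit 233607) (.g (nat_lit 1537) (.e (nat_lit 114432) (nat_lit 5) (.e (nat_lit 180278) (nat_lit 32) (.e (nat_lit 1661) (nat_lit 115) (.e (nat_lit 393268) (nat_lit 23) (.e (nat_lit 433920) (nat_lit 19) .nil))))) .nil)) 
(.lf (nat_lit 233671) (.g (nat_lit 2814) (.e (nat_lit 114432) (nat_lit 7) (.e (nat_lit 229433) (nat_lit 25) (.e (nat_lit 532501) (nat_lit 1) (.e (nat_lit 57851) (nat_lit 252) (.e (nat_lit 57354) (nat_lit 0) .nil))))) .nil))) (.nd (nat_lit 6) 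
(.lf (nat_lit 233639) (.g (nat_lit 509) (.e (nat_lit 114432) (nat_lit 6) (.e (nat_lit 188435) (nat_lit 20) (.e (nat_lit 3409) (nat_lit 212) (.e (nat_lit 655380) (nat_lit 6) (.e (nat_lit 196352) (nat_lit 4) .nil))))) .nil)) 
(.lf (nat_lit 233703) (.g (nat_lit 1503) (.e (nat_lit 106517) (nat_lit 9) (.e (nat_lit 1238) (nat_lit 91) (.e (nat_lit 90160) (nat_lit 11) (.e (nat_lit 24636) (nat_lit 9) (.e (nat_lit 336017) (nat_lit 3) .nil))))) .nil)))) (.nd (nat_lit 5) (.nd (nat_lit 6) 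
(.lf (nat_lit 233623) (.g (nat_lit 887) (.e (nat_lit 114432) (nat_lit 6) (.e (nat_lit 188420) (nat_lit 0) (.e (nat_lit 2059) (nat_lit 142) (.e (nat_lit 704598) (nat_lit 6) (.e (nat_lit 196352) (nat_lit 4) .nil))))) .nil)) 
(.lf (nat_lit 233687) (.g (nat_lit 1395) (.e (nat_lit 106517) (nat_lit 9) (.e (nat_lit 1181) (nat_lit 87) (.e (nat_lit 57872) (nat_lit 264) (.e (nat_lit 1210) (nat_lit 89) .nil)))) .nil))) (.nd (nat_lit 6) 
(.lf (nat_lit 233655) (.g (nat_lit 1925) (.e (nat_lit 114432) (nat_lit 6) (.e (nat_lit 188453) (nat_lit 24) (.e (nat_lit 229680) (nat_lit 244) (.e (nat_lit 163902) (nat_lit 12) (.e (nat_lit 426233) (nat_lit 9) .nil))))) .nil)) 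
(.lf (nat_lit 233719) (.g (nat_lit 1252) (.e (nat_lit 106520) (nat_lit 9) (.e (nat_lit 1234) (nat_lit 91) (.e (nat_lit 90158) (nat_lit 11) (.e (nat_lit 24643) (nat_lit 11) .nil)))) .nil))))) (.nd (nat_lit 4) (.nd (nat_lit 5) (.nd (nat_lit 6) 
(.lf (nat_lit 233615) (.g (nat_lit 285) (.e (nat_lit 114432) (nat_lit 6) (.e (nat_lit 188418) (nat_lit 0) (.e (nat_lit 2172) (nat_lit 143) .nil))) .nil)) 
(.lf (nat_lit 233679) (.g (nat_lit 1313) (.e (nat_lit 106504) (nat_lit 9) (.e (nat_lit 1255) (nat_lit 92) (.e (nat_lit 98317) (nat_lit 9) (.e (nat_lit 336087) (nat_lit 9) (.e (nat_lit 336019) (nat_lit 3) .nil))))) .nil))) (.nd (nat_lit 6) 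
(.lf (nat_lit 233647) (.g (nat_lit 1005) (.e (nat_lit 114432) (nat_lit 6) (.e (nat_lit 188441) (nat_lit 20) (.e (nat_lit 3408) (nat_lit 212) (.e (nat_lit 655380) (nat_lit 6) (.e (nat_lit 196352) (nat_lit 4) .nil))))) .nil)) 
(.lf (nat_lit 233711) (.g (nat_lit 1631) (.e (nat_lit 106517) (nat_lit 9) (.e (nat_lit 1255) (nat_lit 92) (.e (nat_lit 98334) (nat_lit 18) (.e (nat_lit 164396) (nat_lit 256) (.e (nat_lit 57375) (nat_lit 2) .nil))))) .nil)))) (.nd (nat_lit 5) (.nd (nat_lit 6) 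
(.lf (nat_lit 233631) (.g (nat_lit 931) (.e (nat_lit 114432) (nat_lit 6) (.e (nat_lit 188431) (nat_lit 20) (.e (nat_lit 3397) (nat_lit 211) (.e (nat_lit 647185) (nat_lit 6) (.e (nat_lit 196352) (nat_lit 4) .nil))))) .nil)) 
(.lf (nat_lit 233695) (.g (nat_lit 4336) (.e (nat_lit 106517) (nat_lit 9) (.e (nat_lit 1181) (nat_lit 87) (.e (nat_lit 57872) (nat_lit 264) (.e (nat_lit 1221) (nat_lit 90) (.e (nat_lit 81956) (nat_lit 23) (.e (nat_lit 98321) (nat_lit 17) (.e (nat_lit 7936) (nat_lit 220) (.e (nat_lit 720948) (nat_lit 24) .nil)))))))) (.g (nat_lit 6) .nil .nil)))) (.nd (nat_lit 6) 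
(.lf (nat_lit 233663) (.g (nat_lit 1716) (.e (nat_lit 114432) (nat_lit 6) (.e (nat_lit 188455) (nat_lit 24) (.e (nat_lit 229664) (nat_lit 240) (.e (nat_lit 2725) (nat_lit 172) (.e (nat_lit 237601) (nat_lit 9) .nil))))) .nil)) 
(.lf (nat_lit 233727) (.g (nat_lit 2174) (.e (nat_lit 106523) (nat_lit 9) (.e (nat_lit 1181) (nat_lit 87) (.e (nat_lit 57872) (nat_lit 264) (.e (nat_lit 1209) (nat_lit 89) (.e (nat_lit 73782) (nat_lit 32) .nil))))) .nil)))))))))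

noncomputable def tv3054 : DT := (.nd (nat_lit 0) (.nd (nat_lit 1) (.nd (nat_lit 2) (.nd (nat_lit 3) (.nd (nat_lit 4) (.nd (nat_lit 5) 
(.lf (nat_lit 233728) (.g (nat_lit 2545) (.e (nat_lit 106523) (nat_lit 9) (.e (nat_lit 1181) (nat_lit 87) (.e (nat_lit 57872) (nat_lit 264) (.e (nat_lit 1209) (nat_lit 89) (.e (nat_lit 81664) (nat_lit 35) .nil))))) .nil)) 
(.lf (nat_lit 233760) (.g (nat_lit 1526) (.e (nat_lit 106526) (nat_lit 9) (.e (nat_lit 1238) (nat_lit 91) (.e (nat_lit 90160) (nat_lit 11) (.e (nat_lit 24644) (nat_lit 11) (.e (nat_lit 368676) (nat_lit 21) .nil))))) .nil))) (.nd (nat_lit 5) 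
(.lf (nat_lit 233744) (.g (nat_lit 1562) (.e (nat_lit 106526) (nat_lit 9) (.e (nat_lit 1181) (nat_lit 87) (.e (nat_lit 57870) (nat_lit 264) (.e (nat_lit 1209) (nat_lit 89) (.e (nat_lit 81664) (nat_lit 35) .nil))))) .nil)) 
(.lf (nat_lit 233776) (.g (nat_lit 1567) (.e (nat_lit 106534) (nat_lit 11) (.e (nat_lit 16410) (nat_lit 2) (.e (nat_lit 196681) (nat_lit 17) (.e (nat_lit 131122) (nat_lit 12) .nil)))) .nil)))) (.nd (nat_lit 4) (.nd (nat_lit 5) 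
(.lf (nat_lit 233736) (.g (nat_lit 1914) (.e (nat_lit 106523) (nat_lit 9) (.e (nat_lit 1234) (nat_lit 91) (.e (nat_lit 90185) (nat_lit 17) (.e (nat_lit 237582) (nat_lit 1) .nil)))) .nil)) 
(.lf (nat_lit 233768) (.g (nat_lit 3404) (.e (nat_lit 114432) (nat_lit 9) (.e (nat_lit 371) (nat_lit 32) (.e (nat_lit 426568) (nat_lit 34) (.e (nat_lit 393260) (nat_lit 21) (.e (nat_lit 409616) (nat_lit 10) .nil))))) .nil))) (.nd (nat_lit 5) 
(.lf (nat_lit 233752) (.g (nat_lit 2437) (.e (nat_lit 106526) (nat_lit 9) (.e (nat_lit 1181) (nat_lit 87) (.e (nat_lit 57872) (nat_lit 264) (.e (nat_lit 1209) (nat_lit 89) (.e (nat_lit 81664) (nat_lit 38) .nil))))) .nil)) 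
(.lf (nat_lit 233784) (.g (nat_lit 2369) (.e (nat_lit 106534) (nat_lit 11) (.e (nat_lit 16412) (nat_lit 2) (.e (nat_lit 196674) (nat_lit 15) (.e (nat_lit 81922) (nat_lit 0) (.e (nat_lit 3253) (nat_lit 197) (.e (nat_lit 532508) (nat_lit 2) .nil)))))) (.g (nat_lit 6) .nil .nil)))))) (.nd (nat_lit 3) (.nd (nat_lit 4) (.nd (nat_lit 5) 
(.lf (nat_lit 233732) (.g (nat_lit 1666) (.e (nat_lit 106523) (nat_lit 9) (.e (nat_lit 1234) (nat_lit 91) (.e (nat_lit 90158) (nat_lit 11) (.e (nat_lit 24643) (nat_lit 11) (.e (nat_lit 368676) (nat_lit 21) .nil))))) .nil)) 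
(.lf (nat_lit 233764) (.g (nat_lit 2212) (.e (nat_lit 106526) (nat_lit 9) (.e (nat_lit 1255) (nat_lit 92) (.e (nat_lit 98334) (nat_lit 18) (.e (nat_lit 164399) (nat_lit 256) (.e (nat_lit 57370) (nat_lit 2) .nil))))) .nil))) (.nd (nat_lit 5) 
(.lf (nat_lit 233748) (.g (nat_lit 2376) (.e (nat_lit 106526) (nat_lit 9) (.e (nat_lit 1181) (nat_lit 87) (.e (nat_lit 57872) (nat_lit 264) (.e (nat_lit 1209) (nat_lit 89) (.e (nat_lit 73781) (nat_lit 32) .nil))))) .nil)) 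
(.lf (nat_lit 233780) (.g (nat_lit 1314) (.e (nat_lit 106534) (nat_lit 11) (.e (nat_lit 16412) (nat_lit 2) (.e (nat_lit 196668) (nat_lit 14) (.e (nat_lit 81664) (nat_lit 41) .nil)))) .nil)))) (.nd (nat_lit 4) (.nd (nat_lit 5) 
(.lf (nat_lit 233740) (.g (nat_lit 1885) (.e (nat_lit 106523) (nat_lit 9) (.e (nat_lit 1252) (nat_lit 92) (.e (nat_lit 98333) (nat_lit 18) (.e (nat_lit 164399) (nat_lit 256) (.e (nat_lit 57375) (nat_lit 2) .nil))))) .nil)) 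
(.lf (nat_lit 233772) (.g (nat_lit 4363) (.e (nat_lit 106534) (nat_lit 11) (.e (nat_lit 16392) (nat_lit 0) (.e (nat_lit 3279) (nat_lit 200) (.e (nat_lit 557108) (nat_lit 15) (.e (nat_lit 188446) (nat_lit 21) (.e (nat_lit 164182) (nat_lit 154) (.e (nat_lit 57386) (nat_lit 4) .nil))))))) (.g (nat_lit 5) .nil .nil)))) (.nd (nat_lit 5) 
(.lf (nat_lit 233756) (.g (nat_lit 2310) (.e (nat_lit 106526) (nat_lit 9) (.e (nat_lit 1181) (nat_lit 87) (.e (nat_lit 57872) (nat_lit 264) (.e (nat_lit 1219) (nat_lit 90) (.e (nat_lit 81951) (nat_lit 22) .nil))))) .nil)) 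
(.lf (nat_lit 233788) (.g (nat_lit 2535) (.e (nat_lit 106534) (nat_lit 11) (.e (nat_lit 16413) (nat_lit 2) (.e (nat_lit 196665) (nat_lit 13) (.e (nat_lit 65623) (nat_lit 12) (.e (nat_lit 385068) (nat_lit 26) (.e (nat_lit 532511) (nat_lit 2) .nil)))))) (.g (nat_lit 5) .nil .nil))))))) (.nd (nat_lit 2) (.nd (nat_lit 3) (.nd (nat_lit 4) (.nd (nat_lit 5) 
(.lf (nat_lit 233730) (.g (nat_lit 1514) (.e (nat_lit 106523) (nat_lit 9) (.e (nat_lit 1181) (nat_lit 87) (.e (nat_lit 57872) (nat_lit 264) (.e (nat_lit 1211) (nat_lit 89) .nil)))) .nil)) 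
(.lf (nat_lit 233762) (.g (nat_lit 2480) (.e (nat_lit 106526) (nat_lit 9) (.e (nat_lit 1255) (nat_lit 92) (.e (nat_lit 98333) (nat_lit 18) (.e (nat_lit 164403) (nat_lit 256) (.e (nat_lit 57371) (nat_lit 2) .nil))))) .nil))) (.nd (nat_lit 5) 
(.lf (nat_lit 233746) (.g (nat_lit 1689) (.e (nat_lit 106526) (nat_lit 9) (.e (nat_lit 1181) (nat_lit 87) (.e (nat_lit 57870) (nat_lit 264) (.e (nat_lit 1219) (nat_lit 90) (.e (nat_lit 81954) (nat_lit 23) (.e (nat_lit 98321) (nat_lit 17) (.e (nat_lit 7936) (nat_lit 220) (.e (nat_lit 720949) (nat_lit 24) .nil)))))))) (.g (nat_lit 4) .nil .nil))) 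
(.lf (nat_lit 233778) (.g (nat_lit 2622) (.e (nat_lit 106534) (nat_lit 11) (.e (nat_lit 16412) (nat_lit 2) (.e (nat_lit 196666) (nat_lit 13) (.e (nat_lit 65624) (nat_lit 12) (.e (nat_lit 385066) (nat_lit 26) .nil))))) .nil)))) (.nd (nat_lit 4) (.nd (nat_lit 5) 
(.lf (nat_lit 233738) (.g (nat_lit 1048) (.e (nat_lit 106523) (nat_lit 9) (.e (nat_lit 1234) (nat_lit 91) (.e (nat_lit 90185) (nat_lit 17) (.e (nat_lit 245504) (nat_lit 20) .nil)))) .nil)) 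
(.lf (nat_lit 233770) (.g (nat_lit 1430) (.e (nat_lit 106534) (nat_lit 11) (.e (nat_lit 16388) (nat_lit 0) (.e (nat_lit 7593) (nat_lit 407) (.e (nat_lit 73736) (nat_lit 0) .nil)))) .nil))) (.nd (nat_lit 5) 
(.lf (nat_lit 233754) (.g (nat_lit 1526) (.e (nat_lit 106526) (nat_lit 9) (.e (nat_lit 1181) (nat_lit 87) (.e (nat_lit 57872) (nat_lit 264) (.e (nat_lit 1210) (nat_lit 89) (.e (nat_lit 81664) (nat_lit 35) .nil))))) .nil)) 
(.lf (nat_lit 233786) (.g (nat_lit 2486) (.e (nat_lit 106534) (nat_lit 11) (.e (nat_lit 16412) (nat_lit 2) (.e (nat_lit 196681) (nat_lit 17) (.e (nat_lit 131120) (nat_lit 12) (.e (nat_lit 385066) (nat_lit 26) (.e (nat_lit 532509) (nat_lit 2) .nil)))))) (.g (nat_lit 5) .nil .nil)))))) (.nd (nat_lit 3) (.nd (nat_lit 4) (.nd (nat_lit 5) 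
(.lf (nat_lit 233734) (.g (nat_lit 547) (.e (nat_lit 106523) (nat_lit 9) (.e (nat_lit 1234) (nat_lit 91) (.e (nat_lit 90165) (nat_lit 12) .nil))) .nil)) 
(.lf (nat_lit 233766) (.g (nat_lit 2544) (.e (nat_lit 106527) (nat_lit 9) (.e (nat_lit 1181) (nat_lit 87) (.e (nat_lit 57872) (nat_lit 264) (.e (nat_lit 1209) (nat_lit 89) (.e (nat_lit 81664) (nat_lit 38) .nil))))) .nil))) (.nd (nat_lit 5) 
(.lf (nat_lit 233750) (.g (nat_lit 2583) (.e (nat_lit 106526) (nat_lit 9) (.e (nat_lit 1181) (nat_lit 87) (.e (nat_lit 57872) (nat_lit 264) (.e (nat_lit 1209) (nat_lit 89) (.e (nat_lit 81664) (nat_lit 35) (.e (nat_lit 163962) (nat_lit 25) (.e (nat_lit 532513) (nat_lit 3) (.e (nat_lit 114721) (nat_lit 24) .nil)))))))) (.g (nat_lit 4) .nil .nil))) 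
(.lf (nat_lit 233782) (.g (nat_lit 1240) (.e (nat_lit 106534) (nat_lit 11) (.e (nat_lit 16412) (nat_lit 2) (.e (nat_lit 196672) (nat_lit 15) (.e (nat_lit 81924) (nat_lit 0) (.e (nat_lit 3234) (nat_lit 197) .nil))))) .nil)))) (.nd (nat_lit 4) (.nd (nat_lit 5) 
(.lf (nat_lit 233742) (.g (nat_lit 1764) (.e (nat_lit 106526) (nat_lit 9) (.e (nat_lit 1181) (nat_lit 87) (.e (nat_lit 57849) (nat_lit 252) (.e (nat_lit 57410) (nat_lit 12) (.e (nat_lit 336211) (nat_lit 13) .nil))))) .nil)) 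
(.lf (nat_lit 233774) (.g (nat_lit 1427) (.e (nat_lit 106534) (nat_lit 11) (.e (nat_lit 16409) (nat_lit 2) (.e (nat_lit 196681) (nat_lit 17) (.e (nat_lit 131105) (nat_lit 9) (.e (nat_lit 336324) (nat_lit 18) .nil))))) .nil))) (.nd (nat_lit 5) 
(.lf (nat_lit 233758) (.g (nat_lit 2666) (.e (nat_lit 106526) (nat_lit 9) (.e (nat_lit 1181) (nat_lit 87) (.e (nat_lit 57872) (nat_lit 264) (.e (nat_lit 1221) (nat_lit 90) (.e (nat_lit 81951) (nat_lit 22) .nil))))) .nil)) 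
(.lf (nat_lit 233790) (.g (nat_lit 2369) (.e (nat_lit 106534) (nat_lit 11) (.e (nat_lit 16413) (nat_lit 2) (.e (nat_lit 196666) (nat_lit 13) (.e (nat_lit 65617) (nat_lit 10) (.e (nat_lit 352000) (nat_lit 28) (.e (nat_lit 573449) (nat_lit 9) (.e (nat_lit 1271) (nat_lit 93) .nil))))))) (.g (nat_lit 6) .nil .nil)))))))) 
(.nd (nat_lit 1) (.nd (nat_lit 2) (.nd (nat_lit 3) (.nd (nat_lit 4) (.nd (nat_lit 5) 
(.lf (nat_lit 233729) (.g (nat_lit 1507) (.e (nat_lit 106523) (nat_lit 9) (.e (nat_lit 1181) (nat_lit 87) (.e (nat_lit 57872) (nat_lit 264) (.e (nat_lit 1210) (nat_lit 89) .nil)))) .nil)) 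
(.lf (nat_lit 233761) (.g (nat_lit 2353) (.e (nat_lit 106526) (nat_lit 9) (.e (nat_lit 1252) (nat_lit 92) (.e (nat_lit 98333) (nat_lit 18) (.e (nat_lit 164403) (nat_lit 256) (.e (nat_lit 57370) (nat_lit 2) .nil))))) .nil))) (.nd (nat_lit 5) 
(.lf (nat_lit 233745) (.g (nat_lit 1562) (.e (nat_lit 106526) (nat_lit 9) (.e (nat_lit 1181) (nat_lit 87) (.e (nat_lit 57870) (nat_lit 264) (.e (nat_lit 1209) (nat_lit 89) (.e (nat_lit 81664) (nat_lit 38) .nil))))) .nil)) 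
(.lf (nat_lit 233777) (.g (nat_lit 2491) (.e (nat_lit 106534) (nat_lit 11) (.e (nat_lit 16412) (nat_lit 2) (.e (nat_lit 196666) (nat_lit 13) (.e (nat_lit 65622) (nat_lit 12) .nil)))) .nil)))) (.nd (nat_lit 4) (.nd (nat_lit 5) 
(.lf (nat_lit 233737) (.g (nat_lit 1858) (.e (nat_lit 106523) (nat_lit 9) (.e (nat_lit 1234) (nat_lit 91) (.e (nat_lit 90185) (nat_lit 17) (.e (nat_lit 237585) (nat_lit 1) .nil)))) .nil)) 
(.lf (nat_lit 233769) (.g (nat_lit 517) (.e (nat_lit 106534) (nat_lit 11) (.e (nat_lit 16388) (nat_lit 0) (.e (nat_lit 3276) (nat_lit 200) .nil))) .nil))) (.nd (nat_lit 5) 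
(.lf (nat_lit 233753) (.g (nat_lit 2889) (.e (nat_lit 106526) (nat_lit 9) (.e (nat_lit 1181) (nat_lit 87) (.e (nat_lit 57872) (nat_lit 264) (.e (nat_lit 1209) (nat_lit 89) (.e (nat_lit 81664) (nat_lit 38) (.e (nat_lit 229433) (nat_lit 25) (.e (nat_lit 532515) (nat_lit 3) (.e (nat_lit 114722) (nat_lit 24) .nil)))))))) (.g (nat_lit 4) .nil .nil))) 
(.lf (nat_lit 233785) (.g (nat_lit 2246) (.e (nat_lit 106534) (nat_lit 11) (.e (nat_lit 16412) (nat_lit 2) (.e (nat_lit 196674) (nat_lit 15) (.e (nat_lit 81922) (nat_lit 0) (.e (nat_lit 3253) (nat_lit 197) (.e (nat_lit 532510) (nat_lit 2) .nil)))))) (.g (nat_lit 0) .nil .nil)))))) (.nd (nat_lit 3) (.nd (nat_lit 4) (.nd (nat_lit 5) 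
(.lf (nat_lit 233733) (.g (nat_lit 1776) (.e (nat_lit 106523) (nat_lit 9) (.e (nat_lit 1234) (nat_lit 91) (.e (nat_lit 90158) (nat_lit 11) (.e (nat_lit 24644) (nat_lit 11) (.e (nat_lit 368676) (nat_lit 21) .nil))))) .nil)) 
(.lf (nat_lit 233765) (.g (nat_lit 1888) (.e (nat_lit 106526) (nat_lit 9) (.e (nat_lit 1255) (nat_lit 92) (.e (nat_lit 98335) (nat_lit 18) (.e (nat_lit 164403) (nat_lit 256) (.e (nat_lit 57370) (nat_lit 2) .nil))))) .nil))) (.nd (nat_lit 5) 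
(.lf (nat_lit 233749) (.g (nat_lit 2437) (.e (nat_lit 106526) (nat_lit 9) (.e (nat_lit 1181) (nat_lit 87) (.e (nat_lit 57872) (nat_lit 264) (.e (nat_lit 1209) (nat_lit 89) (.e (nat_lit 81664) (nat_lit 35) .nil))))) .nil)) 
(.lf (nat_lit 233781) (.g (nat_lit 1480) (.e (nat_lit 106534) (nat_lit 11) (.e (nat_lit 16412) (nat_lit 2) (.e (nat_lit 196672) (nat_lit 15) (.e (nat_lit 81922) (nat_lit 0) (.e (nat_lit 3253) (nat_lit 197) .nil))))) .nil)))) (.nd (nat_lit 4) (.nd (nat_lit 5) 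
(.lf (nat_lit 233741) (.g (nat_lit 1503) (.e (nat_lit 106524) (nat_lit 9) (.e (nat_lit 1181) (nat_lit 87) (.e (nat_lit 57872) (nat_lit 264) (.e (nat_lit 1211) (nat_lit 89) .nil)))) .nil)) 
(.lf (nat_lit 233773) (.g (nat_lit 1174) (.e (nat_lit 106534) (nat_lit 11) (.e (nat_lit 16392) (nat_lit 0) (.e (nat_lit 7101) (nat_lit 380) (.e (nat_lit 164377) (nat_lit 253) .nil)))) .nil))) (.nd (nat_lit 5) 
(.lf (nat_lit 233757) (.g (nat_lit 2317) (.e (nat_lit 106526) (nat_lit 9) (.e (nat_lit 1181) (nat_lit 87) (.e (nat_lit 57872) (nat_lit 264) (.e (nat_lit 1219) (nat_lit 90) (.e (nat_lit 81953) (nat_lit 22) .nil))))) .nil)) 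
(.lf (nat_lit 233789) (.g (nat_lit 1878) (.e (nat_lit 106534) (nat_lit 11) (.e (nat_lit 16413) (nat_lit 2) (.e (nat_lit 196666) (nat_lit 13) (.e (nat_lit 65617) (nat_lit 10) (.e (nat_lit 352000) (nat_lit 28) (.e (nat_lit 573449) (nat_lit 9) (.e (nat_lit 1263) (nat_lit 93) .nil))))))) (.g (nat_lit 4) .nil .nil))))))) (.nd (nat_lit 2) (.nd (nat_lit 3) (.nd (nat_lit 4) (.nd (nat_lit 5) 
(.lf (nat_lit 233731) (.g (nat_lit 1568) (.e (nat_lit 106523) (nat_lit 9) (.e (nat_lit 1182) (nat_lit 87) (.e (nat_lit 57854) (nat_lit 252) (.e (nat_lit 57436) (nat_lit 17) (.e (nat_lit 376842) (nat_lit 11) .nil))))) .nil)) 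
(.lf (nat_lit 233763) (.g (nat_lit 1589) (.e (nat_lit 106526) (nat_lit 9) (.e (nat_lit 1255) (nat_lit 92) (.e (nat_lit 98334) (nat_lit 18) (.e (nat_lit 164399) (nat_lit 256) .nil)))) .nil))) (.nd (nat_lit 5) 
(.lf (nat_lit 233747) (.g (nat_lit 445) (.e (nat_lit 106526) (nat_lit 9) (.e (nat_lit 1181) (nat_lit 87) (.e (nat_lit 57872) (nat_lit 264) .nil))) .nil)) 
(.lf (nat_lit 233779) (.g (nat_lit 2216) (.e (nat_lit 106534) (nat_lit 11) (.e (nat_lit 16412) (nat_lit 2) (.e (nat_lit 196666) (nat_lit 13) (.e (nat_lit 65624) (nat_lit 12) (.e (nat_lit 385068) (nat_lit 26) .nil))))) .nil)))) (.nd (nat_lit 4) (.nd (nat_lit 5) 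
(.lf (nat_lit 233739) (.g (nat_lit 1551) (.e (nat_lit 106523) (nat_lit 9) (.e (nat_lit 1237) (nat_lit 91) (.e (nat_lit 90170) (nat_lit 13) (.e (nat_lit 179968) (nat_lit 20) .nil)))) .nil)) 
(.lf (nat_lit 233771) (.g (nat_lit 1933) (.e (nat_lit 106534) (nat_lit 11) (.e (nat_lit 16392) (nat_lit 0) (.e (nat_lit 3277) (nat_lit 200) (.e (nat_lit 557108) (nat_lit 15) (.e (nat_lit 188446) (nat_lit 21) .nil))))) .nil))) (.nd (nat_lit 5) 
(.lf (nat_lit 233755) (.g (nat_lit 2249) (.e (nat_lit 106526) (nat_lit 9) (.e (nat_lit 1181) (nat_lit 87) (.e (nat_lit 57872) (nat_lit 264) (.e (nat_lit 1211) (nat_lit 89) (.e (nat_lit 81664) (nat_lit 38) (.e (nat_lit 229433) (nat_lit 25) (.e (nat_lit 532515) (nat_lit 3) (.e (nat_lit 114722) (nat_lit 24) .nil)))))))) (.g (nat_lit 4) .nil .nil))) 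
(.lf (nat_lit 233787) (.g (nat_lit 2578) (.e (nat_lit 106534) (nat_lit 11) (.e (nat_lit 16412) (nat_lit 2) (.e (nat_lit 196681) (nat_lit 17) (.e (nat_lit 131123) (nat_lit 12) (.e (nat_lit 385066) (nat_lit 26) (.e (nat_lit 532509) (nat_lit 2) .nil)))))) (.g (nat_lit 5) .nil .nil)))))) (.nd (nat_lit 3) (.nd (nat_lit 4) (.nd (nat_lit 5) 
(.lf (nat_lit 233735) (.g (nat_lit 1130) (.e (nat_lit 106523) (nat_lit 9) (.e (nat_lit 1234) (nat_lit 91) (.e (nat_lit 90170) (nat_lit 13) (.e (nat_lit 179968) (nat_lit 20) .nil)))) .nil)) 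
(.lf (nat_lit 233767) (.g (nat_lit 1772) (.e (nat_lit 106527) (nat_lit 9) (.e (nat_lit 1234) (nat_lit 91) (.e (nat_lit 90158) (nat_lit 11) (.e (nat_lit 24644) (nat_lit 11) (.e (nat_lit 368676) (nat_lit 21) .nil))))) .nil))) (.nd (nat_lit 5) 
(.lf (nat_lit 233751) (.g (nat_lit 2678) (.e (nat_lit 106526) (nat_lit 9) (.e (nat_lit 1181) (nat_lit 87) (.e (nat_lit 57872) (nat_lit 264) (.e (nat_lit 1209) (nat_lit 89) (.e (nat_lit 81664) (nat_lit 35) (.e (nat_lit 163962) (nat_lit 25) (.e (nat_lit 532514) (nat_lit 3) (.e (nat_lit 114723) (nat_lit 24) .nil)))))))) (.g (nat_lit 4) .nil .nil))) 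
(.lf (nat_lit 233783) (.g (nat_lit 2243) (.e (nat_lit 106534) (nat_lit 11) (.e (nat_lit 16412) (nat_lit 2) (.e (nat_lit 196672) (nat_lit 15) (.e (nat_lit 81924) (nat_lit 0) (.e (nat_lit 3253) (nat_lit 197) (.e (nat_lit 532510) (nat_lit 2) .nil)))))) (.g (nat_lit 0) .nil .nil))))) (.nd (nat_lit 4) (.nd (nat_lit 5) 
(.lf (nat_lit 233743) (.g (nat_lit 421) (.e (nat_lit 106526) (nat_lit 9) (.e (nat_lit 1181) (nat_lit 87) (.e (nat_lit 57870) (nat_lit 264) .nil))) .nil)) 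
(.lf (nat_lit 233775) (.g (nat_lit 1656) (.e (nat_lit 106534) (nat_lit 11) (.e (nat_lit 16409) (nat_lit 2) (.e (nat_lit 196681) (nat_lit 17) (.e (nat_lit 131109) (nat_lit 9) (.e (nat_lit 336324) (nat_lit 18) .nil))))) .nil))) (.nd (nat_lit 5) 
(.lf (nat_lit 233759) (.g (nat_lit 4148) (.e (nat_lit 106526) (nat_lit 9) (.e (nat_lit 1181) (nat_lit 87) (.e (nat_lit 57872) (nat_lit 264) (.e (nat_lit 1221) (nat_lit 90) (.e (nat_lit 81954) (nat_lit 23) (.e (nat_lit 98321) (nat_lit 17) (.e (nat_lit 7936) (nat_lit 220) (.e (nat_lit 720949) (nat_lit 24) .nil)))))))) (.g (nat_lit 6) .nil .nil))) 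
(.lf (nat_lit 233791) (.g (nat_lit 991) (.e (nat_lit 106534) (nat_lit 11) (.e (nat_lit 16413) (nat_lit 2) (.e (nat_lit 196670) (nat_lit 14) (.e (nat_lit 81664) (nat_lit 41) .nil)))) .nil))))))))

noncomputable def tv3055 : DT := (.nd (nat_lit 0) (.nd (nat_lit 1) (.nd (nat_lit 2) (.nd (nat_lit 3) (.nd (nat_lit 4) (.nd (nat_lit 5) 
(.lf (nat_lit 233792) (.g (nat_lit 1422) (.e (nat_lit 106534) (nat_lit 11) (.e (nat_lit 16413) (nat_lit 2) (.e (nat_lit 196672) (nat_lit 15) (.e (nat_lit 81922) (nat_lit 0) (.e (nat_lit 3253) (nat_lit 197) .nil))))) .nil)) 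
(.lf (nat_lit 233824) (.g (nat_lit 2457) (.e (nat_lit 106534) (nat_lit 11) (.e (nat_lit 16416) (nat_lit 3) (.e (nat_lit 204876) (nat_lit 31) (.e (nat_lit 376835) (nat_lit 0) (.e (nat_lit 3253) (nat_lit 197) (.e (nat_lit 532510) (nat_lit 2) .nil)))))) (.g (nat_lit 0) .nil .nil)))) (.nd (nat_lit 5) 
(.lf (nat_lit 233808) (.g (nat_lit 709) (.e (nat_lit 106534) (nat_lit 11) (.e (nat_lit 16415) (nat_lit 3) (.e (nat_lit 204865) (nat_lit 28) .nil))) .nil)) 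
(.lf (nat_lit 233840) (.g (nat_lit 718) (.e (nat_lit 106534) (nat_lit 11) (.e (nat_lit 16425) (nat_lit 7) (.e (nat_lit 409615) (nat_lit 10) (.e (nat_lit 5770) (nat_lit 316) .nil)))) .nil)))) (.nd (nat_lit 4) (.nd (nat_lit 5) 
(.lf (nat_lit 233800) (.g (nat_lit 1808) (.e (nat_lit 106534) (nat_lit 11) (.e (nat_lit 16415) (nat_lit 3) (.e (nat_lit 204861) (nat_lit 26) (.e (nat_lit 336076) (nat_lit 9) (.e (nat_lit 336322) (nat_lit 18) .nil))))) .nil)) 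
(.lf (nat_lit 233832) (.g (nat_lit 2051) (.e (nat_lit 106534) (nat_lit 11) (.e (nat_lit 16417) (nat_lit 3) (.e (nat_lit 204865) (nat_lit 28) (.e (nat_lit 352262) (nat_lit 0) (.e (nat_lit 3253) (nat_lit 197) (.e (nat_lit 532511) (nat_lit 2) .nil)))))) (.g (nat_lit 0) .nil .nil)))) (.nd (nat_lit 5) 
(.lf (nat_lit 233816) (.g (nat_lit 3024) (.e (nat_lit 106534) (nat_lit 11) (.e (nat_lit 16416) (nat_lit 3) (.e (nat_lit 204861) (nat_lit 26) (.e (nat_lit 336194) (nat_lit 12) (.e (nat_lit 385066) (nat_lit 26) (.e (nat_lit 532509) (nat_lit 2) .nil)))))) (.g (nat_lit 5) .nil .nil))) 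
(.lf (nat_lit 233848) (.g (nat_lit 1009) (.e (nat_lit 106534) (nat_lit 11) (.e (nat_lit 16425) (nat_lit 7) (.e (nat_lit 409623) (nat_lit 10) (.e (nat_lit 5792) (nat_lit 319) .nil)))) .nil))))) (.nd (nat_lit 3) (.nd (nat_lit 4) (.nd (nat_lit 5) 
(.lf (nat_lit 233796) (.g (nat_lit 1281) (.e (nat_lit 106534) (nat_lit 11) (.e (nat_lit 16413) (nat_lit 2) (.e (nat_lit 196681) (nat_lit 17) (.e (nat_lit 131122) (nat_lit 12) .nil)))) .nil)) 
(.lf (nat_lit 233828) (.g (nat_lit 1726) (.e (nat_lit 106534) (nat_lit 11) (.e (nat_lit 16417) (nat_lit 3) (.e (nat_lit 204854) (nat_lit 26) (.e (nat_lit 336182) (nat_lit 11) (.e (nat_lit 376576) (nat_lit 28) (.e (nat_lit 573449) (nat_lit 9) (.e (nat_lit 1271) (nat_lit 93) .nil))))))) (.g (nat_lit 4) .nil .nil)))) (.nd (nat_lit 5) 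
(.lf (nat_lit 233812) (.g (nat_lit 1668) (.e (nat_lit 106534) (nat_lit 11) (.e (nat_lit 16416) (nat_lit 3) (.e (nat_lit 204861) (nat_lit 26) (.e (nat_lit 336076) (nat_lit 9) (.e (nat_lit 336322) (nat_lit 18) .nil))))) .nil)) 
(.lf (nat_lit 233844) (.g (nat_lit 2257) (.e (nat_lit 106534) (nat_lit 11) (.e (nat_lit 16425) (nat_lit 7) (.e (nat_lit 409617) (nat_lit 10) (.e (nat_lit 5768) (nat_lit 316) (.e (nat_lit 179968) (nat_lit 20) .nil))))) .nil)))) (.nd (nat_lit 4) (.nd (nat_lit 5) 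
(.lf (nat_lit 233804) (.g (nat_lit 2782) (.e (nat_lit 106534) (nat_lit 11) (.e (nat_lit 16415) (nat_lit 3) (.e (nat_lit 204861) (nat_lit 26) (.e (nat_lit 336194) (nat_lit 12) (.e (nat_lit 385066) (nat_lit 26) (.e (nat_lit 532511) (nat_lit 2) .nil)))))) (.g (nat_lit 5) .nil .nil))) 
(.lf (nat_lit 233836) (.g (nat_lit 2061) (.e (nat_lit 106534) (nat_lit 11) (.e (nat_lit 16417) (nat_lit 3) (.e (nat_lit 204876) (nat_lit 31) (.e (nat_lit 376835) (nat_lit 0) (.e (nat_lit 3253) (nat_lit 197) (.e (nat_lit 532511) (nat_lit 2) .nil)))))) (.g (nat_lit 0) .nil .nil)))) (.nd (nat_lit 5) 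
(.lf (nat_lit 233820) (.g (nat_lit 2383) (.e (nat_lit 106534) (nat_lit 11) (.e (nat_lit 16416) (nat_lit 3) (.e (nat_lit 204865) (nat_lit 28) (.e (nat_lit 352262) (nat_lit 0) (.e (nat_lit 3253) (nat_lit 197) (.e (nat_lit 532510) (nat_lit 2) .nil)))))) (.g (nat_lit 0) .nil .nil))) 
(.lf (nat_lit 233852) (.g (nat_lit 1353) (.e (nat_lit 106534) (nat_lit 11) (.e (nat_lit 16425) (nat_lit 7) (.e (nat_lit 409643) (nat_lit 18) (.e (nat_lit 303143) (nat_lit 12) (.e (nat_lit 475199) (nat_lit 40) .nil))))) .nil)))))) (.nd (nat_lit 2) (.nd (nat_lit 3) (.nd (nat_lit 4) (.nd (nat_lit 5) 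
(.lf (nat_lit 233794) (.g (nat_lit 2312) (.e (nat_lit 106534) (nat_lit 11) (.e (nat_lit 16413) (nat_lit 2) (.e (nat_lit 196674) (nat_lit 15) (.e (nat_lit 81922) (nat_lit 0) (.e (nat_lit 3253) (nat_lit 197) (.e (nat_lit 532508) (nat_lit 2) .nil)))))) (.g (nat_lit 6) .nil .nil))) 
(.lf (nat_lit 233826) (.g (nat_lit 2476) (.e (nat_lit 106534) (nat_lit 11) (.e (nat_lit 16416) (nat_lit 3) (.e (nat_lit 204877) (nat_lit 31) (.e (nat_lit 376835) (nat_lit 0) (.e (nat_lit 3253) (nat_lit 197) (.e (nat_lit 532510) (nat_lit 2) .nil)))))) (.g (nat_lit 0) .nil .nil)))) (.nd (nat_lit 5) 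
(.lf (nat_lit 233810) (.g (nat_lit 2442) (.e (nat_lit 106534) (nat_lit 11) (.e (nat_lit 16416) (nat_lit 3) (.e (nat_lit 204852) (nat_lit 26) (.e (nat_lit 336208) (nat_lit 12) (.e (nat_lit 385068) (nat_lit 26) .nil))))) .nil)) 
(.lf (nat_lit 233842) (.g (nat_lit 2033) (.e (nat_lit 106534) (nat_lit 11) (.e (nat_lit 16425) (nat_lit 7) (.e (nat_lit 409616) (nat_lit 10) (.e (nat_lit 5770) (nat_lit 316) .nil)))) .nil)))) (.nd (nat_lit 4) (.nd (nat_lit 5) 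
(.lf (nat_lit 233802) (.g (nat_lit 2875) (.e (nat_lit 106534) (nat_lit 11) (.e (nat_lit 16415) (nat_lit 3) (.e (nat_lit 204861) (nat_lit 26) (.e (nat_lit 336194) (nat_lit 12) (.e (nat_lit 385066) (nat_lit 26) (.e (nat_lit 532508) (nat_lit 2) .nil)))))) (.g (nat_lit 5) .nil .nil))) 
(.lf (nat_lit 233834) (.g (nat_lit 1900) (.e (nat_lit 106534) (nat_lit 11) (.e (nat_lit 16417) (nat_lit 3) (.e (nat_lit 204868) (nat_lit 29) (.e (nat_lit 368384) (nat_lit 10) (.e (nat_lit 573449) (nat_lit 9) (.e (nat_lit 1263) (nat_lit 93) .nil)))))) (.g (nat_lit 5) .nil .nil)))) (.nd (nat_lit 5) 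
(.lf (nat_lit 233818) (.g (nat_lit 3004) (.e (nat_lit 106534) (nat_lit 11) (.e (nat_lit 16416) (nat_lit 3) (.e (nat_lit 204861) (nat_lit 26) (.e (nat_lit 336194) (nat_lit 12) (.e (nat_lit 385068) (nat_lit 26) (.e (nat_lit 532511) (nat_lit 2) .nil)))))) (.g (nat_lit 0) .nil .nil))) 
(.lf (nat_lit 233850) (.g (nat_lit 2422) (.e (nat_lit 106534) (nat_lit 11) (.e (nat_lit 16425) (nat_lit 7) (.e (nat_lit 409643) (nat_lit 18) (.e (nat_lit 303143) (nat_lit 12) (.e (nat_lit 475197) (nat_lit 40) (.e (nat_lit 704612) (nat_lit 9) (.e (nat_lit 1261) (nat_lit 93) .nil))))))) (.g (nat_lit 4) .nil .nil)))))) (.nd (nat_lit 3) (.nd (nat_lit 4) (.nd (nat_lit 5) 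
(.lf (nat_lit 233798) (.g (nat_lit 1044) (.e (nat_lit 106534) (nat_lit 11) (.e (nat_lit 16415) (nat_lit 3) (.e (nat_lit 204859) (nat_lit 26) (.e (nat_lit 336206) (nat_lit 12) .nil)))) .nil)) 
(.lf (nat_lit 233830) (.g (nat_lit 1496) (.e (nat_lit 106534) (nat_lit 11) (.e (nat_lit 16417) (nat_lit 3) (.e (nat_lit 204861) (nat_lit 26) (.e (nat_lit 336086) (nat_lit 9) (.e (nat_lit 336324) (nat_lit 18) .nil))))) .nil))) (.nd (nat_lit 5) 
(.lf (nat_lit 233814) (.g (nat_lit 2211) (.e (nat_lit 106534) (nat_lit 11) (.e (nat_lit 16416) (nat_lit 3) (.e (nat_lit 204861) (nat_lit 26) (.e (nat_lit 336194) (nat_lit 12) (.e (nat_lit 385064) (nat_lit 26) (.e (nat_lit 532508) (nat_lit 2) .nil)))))) (.g (nat_lit 4) .nil .nil))) 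
(.lf (nat_lit 233846) (.g (nat_lit 2178) (.e (nat_lit 106534) (nat_lit 11) (.e (nat_lit 16425) (nat_lit 7) (.e (nat_lit 409617) (nat_lit 10) (.e (nat_lit 5772) (nat_lit 316) .nil)))) .nil)))) (.nd (nat_lit 4) (.nd (nat_lit 5) 
(.lf (nat_lit 233806) (.g (nat_lit 2689) (.e (nat_lit 106534) (nat_lit 11) (.e (nat_lit 16415) (nat_lit 3) (.e (nat_lit 204861) (nat_lit 26) (.e (nat_lit 336194) (nat_lit 12) (.e (nat_lit 385068) (nat_lit 26) (.e (nat_lit 532510) (nat_lit 2) .nil)))))) (.g (nat_lit 5) .nil .nil))) 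
(.lf (nat_lit 233838) (.g (nat_lit 1581) (.e (nat_lit 106534) (nat_lit 11) (.e (nat_lit 16424) (nat_lit 7) (.e (nat_lit 409645) (nat_lit 18) (.e (nat_lit 303133) (nat_lit 9) (.e (nat_lit 433920) (nat_lit 20) .nil))))) .nil))) (.nd (nat_lit 5) 
(.lf (nat_lit 233822) (.g (nat_lit 1653) (.e (nat_lit 106534) (nat_lit 11) (.e (nat_lit 16416) (nat_lit 3) (.e (nat_lit 204869) (nat_lit 29) (.e (nat_lit 360450) (nat_lit 0) .nil)))) .nil)) 
(.lf (nat_lit 233854) (.g (nat_lit 1641) (.e (nat_lit 106534) (nat_lit 11) (.e (nat_lit 16425) (nat_lit 7) (.e (nat_lit 409644) (nat_lit 18) (.e (nat_lit 303133) (nat_lit 9) (.e (nat_lit 433920) (nat_lit 20) .nil))))) .nil))))))) (.nd (nat_lit 1) (.nd (nat_lit 2) (.nd (nat_lit 3) (.nd (nat_lit 4) (.nd (nat_lit 5) 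
(.lf (nat_lit 233793) (.g (nat_lit 1933) (.e (nat_lit 106534) (nat_lit 11) (.e (nat_lit 16413) (nat_lit 2) (.e (nat_lit 196672) (nat_lit 15) (.e (nat_lit 81924) (nat_lit 0) (.e (nat_lit 3253) (nat_lit 197) (.e (nat_lit 532511) (nat_lit 2) .nil)))))) (.g (nat_lit 0) .nil .nil))) 
(.lf (nat_lit 233825) (.g (nat_lit 2585) (.e (nat_lit 106534) (nat_lit 11) (.e (nat_lit 16416) (nat_lit 3) (.e (nat_lit 204877) (nat_lit 31) (.e (nat_lit 376835) (nat_lit 0) (.e (nat_lit 3253) (nat_lit 197) (.e (nat_lit 532508) (nat_lit 2) .nil)))))) (.g (nat_lit 6) .nil .nil)))) (.nd (nat_lit 5) 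
(.lf (nat_lit 233809) (.g (nat_lit 573) (.e (nat_lit 106534) (nat_lit 11) (.e (nat_lit 16416) (nat_lit 3) (.e (nat_lit 204850) (nat_lit 26) .nil))) .nil)) 
(.lf (nat_lit 233841) (.g (nat_lit 1903) (.e (nat_lit 106534) (nat_lit 11) (.e (nat_lit 16425) (nat_lit 7) (.e (nat_lit 409616) (nat_lit 10) (.e (nat_lit 5768) (nat_lit 316) .nil)))) .nil)))) (.nd (nat_lit 4) (.nd (nat_lit 5) 
(.lf (nat_lit 233801) (.g (nat_lit 1765) (.e (nat_lit 106534) (nat_lit 11) (.e (nat_lit 16415) (nat_lit 3) (.e (nat_lit 204861) (nat_lit 26) (.e (nat_lit 336194) (nat_lit 12) (.e (nat_lit 385064) (nat_lit 26) .nil))))) .nil)) 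
(.lf (nat_lit 233833) (.g (nat_lit 2308) (.e (nat_lit 106534) (nat_lit 11) (.e (nat_lit 16417) (nat_lit 3) (.e (nat_lit 204866) (nat_lit 28) (.e (nat_lit 352262) (nat_lit 0) (.e (nat_lit 3253) (nat_lit 197) (.e (nat_lit 532511) (nat_lit 2) .nil)))))) (.g (nat_lit 0) .nil .nil)))) (.nd (nat_lit 5) 
(.lf (nat_lit 233817) (.g (nat_lit 3055) (.e (nat_lit 106534) (nat_lit 11) (.e (nat_lit 16416) (nat_lit 3) (.e (nat_lit 204861) (nat_lit 26) (.e (nat_lit 336194) (nat_lit 12) (.e (nat_lit 385068) (nat_lit 26) (.e (nat_lit 532510) (nat_lit 2) .nil)))))) (.g (nat_lit 0) .nil .nil))) 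
(.lf (nat_lit 233849) (.g (nat_lit 1704) (.e (nat_lit 106534) (nat_lit 11) (.e (nat_lit 16425) (nat_lit 7) (.e (nat_lit 409643) (nat_lit 18) (.e (nat_lit 303133) (nat_lit 9) (.e (nat_lit 433920) (nat_lit 20) .nil))))) .nil))))) (.nd (nat_lit 3) (.nd (nat_lit 4) (.nd (nat_lit 5) 
(.lf (nat_lit 233797) (.g (nat_lit 672) (.e (nat_lit 106534) (nat_lit 11) (.e (nat_lit 16415) (nat_lit 3) (.e (nat_lit 204859) (nat_lit 26) .nil))) .nil)) 
(.lf (nat_lit 233829) (.g (nat_lit 1330) (.e (nat_lit 106534) (nat_lit 11) (.e (nat_lit 16417) (nat_lit 3) (.e (nat_lit 204861) (nat_lit 26) (.e (nat_lit 336076) (nat_lit 9) (.e (nat_lit 336322) (nat_lit 18) .nil))))) .nil))) (.nd (nat_lit 5) 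
(.lf (nat_lit 233813) (.g (nat_lit 1613) (.e (nat_lit 106534) (nat_lit 11) (.e (nat_lit 16416) (nat_lit 3) (.e (nat_lit 204861) (nat_lit 26) (.e (nat_lit 336194) (nat_lit 12) (.e (nat_lit 385064) (nat_lit 26) .nil))))) .nil)) 
(.lf (nat_lit 233845) (.g (nat_lit 2109) (.e (nat_lit 106534) (nat_lit 11) (.e (nat_lit 16425) (nat_lit 7) (.e (nat_lit 409617) (nat_lit 10) (.e (nat_lit 5770) (nat_lit 316) .nil)))) .nil)))) (.nd (nat_lit 4) (.nd (nat_lit 5) 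
(.lf (nat_lit 233805) (.g (nat_lit 2842) (.e (nat_lit 106534) (nat_lit 11) (.e (nat_lit 16415) (nat_lit 3) (.e (nat_lit 204861) (nat_lit 26) (.e (nat_lit 336194) (nat_lit 12) (.e (nat_lit 385068) (nat_lit 26) (.e (nat_lit 532508) (nat_lit 2) .nil)))))) (.g (nat_lit 5) .nil .nil))) 
(.lf (nat_lit 233837) (.g (nat_lit 2119) (.e (nat_lit 106534) (nat_lit 11) (.e (nat_lit 16417) (nat_lit 3) (.e (nat_lit 204877) (nat_lit 31) (.e (nat_lit 376835) (nat_lit 0) (.e (nat_lit 3253) (nat_lit 197) (.e (nat_lit 532511) (nat_lit 2) .nil)))))) (.g (nat_lit 0) .nil .nil)))) (.nd (nat_lit 5) 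
(.lf (nat_lit 233821) (.g (nat_lit 1020) (.e (nat_lit 106534) (nat_lit 11) (.e (nat_lit 16416) (nat_lit 3) (.e (nat_lit 204867) (nat_lit 28) (.e (nat_lit 360192) (nat_lit 3) .nil)))) .nil)) 
(.lf (nat_lit 233853) (.g (nat_lit 1056) (.e (nat_lit 106534) (nat_lit 11) (.e (nat_lit 16425) (nat_lit 7) (.e (nat_lit 409644) (nat_lit 18) (.e (nat_lit 303130) (nat_lit 9) .nil)))) .nil)))))) (.nd (nat_lit 2) (.nd (nat_lit 3) (.nd (nat_lit 4) (.nd (nat_lit 5) 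
(.lf (nat_lit 233795) (.g (nat_lit 2189) (.e (nat_lit 106534) (nat_lit 11) (.e (nat_lit 16413) (nat_lit 2) (.e (nat_lit 196674) (nat_lit 15) (.e (nat_lit 81922) (nat_lit 0) (.e (nat_lit 3253) (nat_lit 197) (.e (nat_lit 532511) (nat_lit 2) .nil)))))) (.g (nat_lit 0) .nil .nil))) 
(.lf (nat_lit 233827) (.g (nat_lit 719) (.e (nat_lit 106534) (nat_lit 11) (.e (nat_lit 16417) (nat_lit 3) (.e (nat_lit 204854) (nat_lit 26) (.e (nat_lit 336115) (nat_lit 9) .nil)))) .nil))) (.nd (nat_lit 5) 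
(.lf (nat_lit 233811) (.g (nat_lit 1052) (.e (nat_lit 106534) (nat_lit 11) (.e (nat_lit 16416) (nat_lit 3) (.e (nat_lit 204860) (nat_lit 26) .nil))) .nil)) 
(.lf (nat_lit 233843) (.g (nat_lit 1671) (.e (nat_lit 106534) (nat_lit 11) (.e (nat_lit 16425) (nat_lit 7) (.e (nat_lit 409616) (nat_lit 10) (.e (nat_lit 5773) (nat_lit 316) .nil)))) .nil)))) (.nd (nat_lit 4) (.nd (nat_lit 5) 
(.lf (nat_lit 233803) (.g (nat_lit 2754) (.e (nat_lit 106534) (nat_lit 11) (.e (nat_lit 16415) (nat_lit 3) (.e (nat_lit 204861) (nat_lit 26) (.e (nat_lit 336194) (nat_lit 12) (.e (nat_lit 385066) (nat_lit 26) (.e (nat_lit 532510) (nat_lit 2) .nil)))))) (.g (nat_lit 5) .nil .nil))) 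
(.lf (nat_lit 233835) (.g (nat_lit 2184) (.e (nat_lit 106534) (nat_lit 11) (.e (nat_lit 16417) (nat_lit 3) (.e (nat_lit 204869) (nat_lit 29) (.e (nat_lit 368384) (nat_lit 10) (.e (nat_lit 573449) (nat_lit 9) (.e (nat_lit 1263) (nat_lit 93) .nil)))))) (.g (nat_lit 5) .nil .nil)))) (.nd (nat_lit 5) 
(.lf (nat_lit 233819) (.g (nat_lit 1128) (.e (nat_lit 106534) (nat_lit 11) (.e (nat_lit 16416) (nat_lit 3) (.e (nat_lit 204861) (nat_lit 26) (.e (nat_lit 336195) (nat_lit 12) .nil)))) .nil)) 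
(.lf (nat_lit 233851) (.g (nat_lit 2452) (.e (nat_lit 106534) (nat_lit 11) (.e (nat_lit 16425) (nat_lit 7) (.e (nat_lit 409643) (nat_lit 18) (.e (nat_lit 303143) (nat_lit 12) (.e (nat_lit 475197) (nat_lit 40) (.e (nat_lit 704612) (nat_lit 9) (.e (nat_lit 1271) (nat_lit 93) .nil))))))) (.g (nat_lit 4) .nil .nil)))))) (.nd (nat_lit 3) (.nd (nat_lit 4) (.nd (nat_lit 5) 
(.lf (nat_lit 233799) (.g (nat_lit 1333) (.e (nat_lit 106534) (nat_lit 11) (.e (nat_lit 16415) (nat_lit 3) (.e (nat_lit 204861) (nat_lit 26) (.e (nat_lit 336075) (nat_lit 9) (.e (nat_lit 336322) (nat_lit 18) .nil))))) .nil)) 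
(.lf (nat_lit 233831) (.g (nat_lit 1747) (.e (nat_lit 106534) (nat_lit 11) (.e (nat_lit 16417) (nat_lit 3) (.e (nat_lit 204861) (nat_lit 26) (.e (nat_lit 336196) (nat_lit 12) (.e (nat_lit 385066) (nat_lit 26) .nil))))) .nil))) (.nd (nat_lit 5) 
(.lf (nat_lit 233815) (.g (nat_lit 2034) (.e (nat_lit 106534) (nat_lit 11) (.e (nat_lit 16416) (nat_lit 3) (.e (nat_lit 204861) (nat_lit 26) (.e (nat_lit 336194) (nat_lit 12) (.e (nat_lit 385064) (nat_lit 26) (.e (nat_lit 532511) (nat_lit 2) .nil)))))) (.g (nat_lit 4) .nil .nil))) 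
(.lf (nat_lit 233847) (.g (nat_lit 1009) (.e (nat_lit 106534) (nat_lit 11) (.e (nat_lit 16425) (nat_lit 7) (.e (nat_lit 409623) (nat_lit 10) (.e (nat_lit 5766) (nat_lit 316) .nil)))) .nil)))) (.nd (nat_lit 4) (.nd (nat_lit 5) 
(.lf (nat_lit 233807) (.g (nat_lit 2637) (.e (nat_lit 106534) (nat_lit 11) (.e (nat_lit 16415) (nat_lit 3) (.e (nat_lit 204861) (nat_lit 26) (.e (nat_lit 336194) (nat_lit 12) (.e (nat_lit 385068) (nat_lit 26) (.e (nat_lit 532511) (nat_lit 2) .nil)))))) (.g (nat_lit 5) .nil .nil))) 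
(.lf (nat_lit 233839) (.g (nat_lit 815) (.e (nat_lit 106534) (nat_lit 11) (.e (nat_lit 16425) (nat_lit 7) (.e (nat_lit 409614) (nat_lit 10) .nil))) .nil))) (.nd (nat_lit 5) 
(.lf (nat_lit 233823) (.g (nat_lit 2551) (.e (nat_lit 106534) (nat_lit 11) (.e (nat_lit 16416) (nat_lit 3) (.e (nat_lit 204876) (nat_lit 31) (.e (nat_lit 376835) (nat_lit 0) (.e (nat_lit 3253) (nat_lit 197) (.e (nat_lit 532508) (nat_lit 2) .nil)))))) (.g (nat_lit 6) .nil .nil))) 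
(.lf (nat_lit 233855) (.g (nat_lit 2418) (.e (nat_lit 106534) (nat_lit 11) (.e (nat_lit 16425) (nat_lit 7) (.e (nat_lit 409644) (nat_lit 18) (.e (nat_lit 303143) (nat_lit 12) (.e (nat_lit 475212) (nat_lit 42) (.e (nat_lit 720949) (nat_lit 24) .nil)))))) (.g (nat_lit 5) .nil .nil)))))))))

noncomputable def tv3056 : DT := (.nd (nat_lit 0) (.nd (nat_lit 1) (.nd (nat_lit 2) (.nd (nat_lit 3) (.nd (nat_lit 4) (.nd (nat_lit 5) 
(.lf (nat_lit 233856) (.g (nat_lit 2234) (.e (nat_lit 106534) (nat_lit 11) (.e (nat_lit 16425) (nat_lit 7) (.e (nat_lit 409644) (nat_lit 18) (.e (nat_lit 303143) (nat_lit 12) (.e (nat_lit 475212) (nat_lit 42) (.e (nat_lit 720951) (nat_lit 24) .nil)))))) (.g (nat_lit 4) .nil .nil))) 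
(.lf (nat_lit 233888) (.g (nat_lit 1159) (.e (nat_lit 106534) (nat_lit 11) (.e (nat_lit 16425) (nat_lit 7) (.e (nat_lit 409648) (nat_lit 18) (.e (nat_lit 303137) (nat_lit 10) .nil)))) .nil))) (.nd (nat_lit 5) 
(.lf (nat_lit 233872) (.g (nat_lit 2710) (.e (nat_lit 106534) (nat_lit 11) (.e (nat_lit 16425) (nat_lit 7) (.e (nat_lit 409646) (nat_lit 18) (.e (nat_lit 303143) (nat_lit 12) (.e (nat_lit 475212) (nat_lit 42) (.e (nat_lit 720948) (nat_lit 24) .nil)))))) (.g (nat_lit 5) .nil .nil))) 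
(.lf (nat_lit 233904) (.g (nat_lit 3332) (.e (nat_lit 106534) (nat_lit 11) (.e (nat_lit 16425) (nat_lit 7) (.e (nat_lit 409648) (nat_lit 18) (.e (nat_lit 303137) (nat_lit 10) (.e (nat_lit 434272) (nat_lit 38) (.e (nat_lit 655390) (nat_lit 9) (.e (nat_lit 1270) (nat_lit 93) .nil))))))) (.g (nat_lit 5) .nil .nil))))) (.nd (nat_lit 4) (.nd (nat_lit 5) 
(.lf (nat_lit 233864) (.g (nat_lit 2494) (.e (nat_lit 106534) (nat_lit 11) (.e (nat_lit 16425) (nat_lit 7) (.e (nat_lit 409645) (nat_lit 18) (.e (nat_lit 303143) (nat_lit 12) (.e (nat_lit 475197) (nat_lit 40) (.e (nat_lit 704612) (nat_lit 9) (.e (nat_lit 1271) (nat_lit 93) .nil))))))) (.g (nat_lit 4) .nil .nil))) 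
(.lf (nat_lit 233896) (.g (nat_lit 1847) (.e (nat_lit 106534) (nat_lit 11) (.e (nat_lit 16425) (nat_lit 7) (.e (nat_lit 409648) (nat_lit 18) (.e (nat_lit 303137) (nat_lit 10) (.e (nat_lit 434272) (nat_lit 38) .nil))))) .nil))) (.nd (nat_lit 5) 
(.lf (nat_lit 233880) (.g (nat_lit 2418) (.e (nat_lit 106534) (nat_lit 11) (.e (nat_lit 16425) (nat_lit 7) (.e (nat_lit 409647) (nat_lit 18) (.e (nat_lit 303143) (nat_lit 12) (.e (nat_lit 475212) (nat_lit 42) (.e (nat_lit 720952) (nat_lit 24) .nil)))))) (.g (nat_lit 5) .nil .nil))) 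
(.lf (nat_lit 233912) (.g (nat_lit 2978) (.e (nat_lit 106534) (nat_lit 11) (.e (nat_lit 16425) (nat_lit 7) (.e (nat_lit 409648) (nat_lit 18) (.e (nat_lit 303143) (nat_lit 12) (.e (nat_lit 475212) (nat_lit 42) (.e (nat_lit 720952) (nat_lit 24) .nil)))))) (.g (nat_lit 5) .nil .nil)))))) (.nd (nat_lit 3) (.nd (nat_lit 4) (.nd (nat_lit 5) 
(.lf (nat_lit 233860) (.g (nat_lit 2149) (.e (nat_lit 106534) (nat_lit 11) (.e (nat_lit 16425) (nat_lit 7) (.e (nat_lit 409645) (nat_lit 18) (.e (nat_lit 303133) (nat_lit 9) (.e (nat_lit 433920) (nat_lit 20) (.e (nat_lit 114721) (nat_lit 24) .nil)))))) (.g (nat_lit 4) .nil .nil))) 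
(.lf (nat_lit 233892) (.g (nat_lit 3214) (.e (nat_lit 106534) (nat_lit 11) (.e (nat_lit 16425) (nat_lit 7) (.e (nat_lit 409648) (nat_lit 18) (.e (nat_lit 303137) (nat_lit 10) (.e (nat_lit 434271) (nat_lit 38) (.e (nat_lit 655387) (nat_lit 9) (.e (nat_lit 1271) (nat_lit 93) .nil))))))) (.g (nat_lit 5) .nil .nil)))) (.nd (nat_lit 5) 
(.lf (nat_lit 233876) (.g (nat_lit 982) (.e (nat_lit 106534) (nat_lit 11) (.e (nat_lit 16425) (nat_lit 7) (.e (nat_lit 409647) (nat_lit 18) (.e (nat_lit 303131) (nat_lit 9) .nil)))) .nil)) 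
(.lf (nat_lit 233908) (.g (nat_lit 1286) (.e (nat_lit 106534) (nat_lit 11) (.e (nat_lit 16425) (nat_lit 7) (.e (nat_lit 409648) (nat_lit 18) (.e (nat_lit 303142) (nat_lit 12) .nil)))) .nil)))) (.nd (nat_lit 4) (.nd (nat_lit 5) 
(.lf (nat_lit 233868) (.g (nat_lit 1767) (.e (nat_lit 106534) (nat_lit 11) (.e (nat_lit 16425) (nat_lit 7) (.e (nat_lit 409646) (nat_lit 18) (.e (nat_lit 303133) (nat_lit 9) (.e (nat_lit 433920) (nat_lit 20) .nil))))) .nil)) 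
(.lf (nat_lit 233900) (.g (nat_lit 3601) (.e (nat_lit 106534) (nat_lit 11) (.e (nat_lit 16425) (nat_lit 7) (.e (nat_lit 409648) (nat_lit 18) (.e (nat_lit 303137) (nat_lit 10) (.e (nat_lit 434272) (nat_lit 38) (.e (nat_lit 655386) (nat_lit 9) (.e (nat_lit 1271) (nat_lit 93) .nil))))))) (.g (nat_lit 5) .nil .nil)))) (.nd (nat_lit 5) 
(.lf (nat_lit 233884) (.g (nat_lit 2041) (.e (nat_lit 106534) (nat_lit 11) (.e (nat_lit 16425) (nat_lit 7) (.e (nat_lit 409648) (nat_lit 18) (.e (nat_lit 303134) (nat_lit 9) .nil)))) .nil)) 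
(.lf (nat_lit 233916) (.g (nat_lit 2413) (.e (nat_lit 106534) (nat_lit 11) (.e (nat_lit 16425) (nat_lit 7) (.e (nat_lit 409649) (nat_lit 18) (.e (nat_lit 303132) (nat_lit 9) (.e (nat_lit 426109) (nat_lit 1) (.e (nat_lit 164322) (nat_lit 230) (.e (nat_lit 171776) (nat_lit 65) .nil))))))) (.g (nat_lit 4) .nil .nil))))))) (.nd (nat_lit 2) (.nd (nat_lit 3) (.nd (nat_lit 4) (.nd (nat_lit 5) 
(.lf (nat_lit 233858) (.g (nat_lit 1654) (.e (nat_lit 106534) (nat_lit 11) (.e (nat_lit 16425) (nat_lit 7) (.e (nat_lit 409645) (nat_lit 18) (.e (nat_lit 303127) (nat_lit 9) (.e (nat_lit 426448) (nat_lit 20) .nil))))) .nil)) 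
(.lf (nat_lit 233890) (.g (nat_lit 3743) (.e (nat_lit 106534) (nat_lit 11) (.e (nat_lit 16425) (nat_lit 7) (.e (nat_lit 409648) (nat_lit 18) (.e (nat_lit 303137) (nat_lit 10) (.e (nat_lit 434209) (nat_lit 18) (.e (nat_lit 5224) (nat_lit 296) (.e (nat_lit 171776) (nat_lit 65) .nil))))))) (.g (nat_lit 6) .nil .nil)))) (.nd (nat_lit 5) 
(.lf (nat_lit 233874) (.g (nat_lit 2628) (.e (nat_lit 106534) (nat_lit 11) (.e (nat_lit 16425) (nat_lit 7) (.e (nat_lit 409646) (nat_lit 18) (.e (nat_lit 303143) (nat_lit 12) (.e (nat_lit 475212) (nat_lit 42) (.e (nat_lit 720952) (nat_lit 24) .nil)))))) (.g (nat_lit 5) .nil .nil))) 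
(.lf (nat_lit 233906) (.g (nat_lit 3209) (.e (nat_lit 106534) (nat_lit 11) (.e (nat_lit 16425) (nat_lit 7) (.e (nat_lit 409648) (nat_lit 18) (.e (nat_lit 303137) (nat_lit 10) (.e (nat_lit 434272) (nat_lit 38) (.e (nat_lit 655392) (nat_lit 9) (.e (nat_lit 1264) (nat_lit 93) .nil))))))) (.g (nat_lit 5) .nil .nil))))) (.nd (nat_lit 4) (.nd (nat_lit 5) 
(.lf (nat_lit 233866) (.g (nat_lit 2978) (.e (nat_lit 106534) (nat_lit 11) (.e (nat_lit 16425) (nat_lit 7) (.e (nat_lit 409645) (nat_lit 18) (.e (nat_lit 303143) (nat_lit 12) (.e (nat_lit 475212) (nat_lit 42) (.e (nat_lit 720949) (nat_lit 24) .nil)))))) (.g (nat_lit 5) .nil .nil))) 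
(.lf (nat_lit 233898) (.g (nat_lit 2679) (.e (nat_lit 106534) (nat_lit 11) (.e (nat_lit 16425) (nat_lit 7) (.e (nat_lit 409648) (nat_lit 18) (.e (nat_lit 303137) (nat_lit 10) (.e (nat_lit 434272) (nat_lit 38) (.e (nat_lit 655385) (nat_lit 9) (.e (nat_lit 1271) (nat_lit 93) .nil))))))) (.g (nat_lit 4) .nil .nil)))) (.nd (nat_lit 5) 
(.lf (nat_lit 233882) (.g (nat_lit 2716) (.e (nat_lit 106534) (nat_lit 11) (.e (nat_lit 16425) (nat_lit 7) (.e (nat_lit 409648) (nat_lit 18) (.e (nat_lit 303129) (nat_lit 9) (.e (nat_lit 433920) (nat_lit 20) (.e (nat_lit 114723) (nat_lit 24) .nil)))))) (.g (nat_lit 4) .nil .nil))) 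
(.lf (nat_lit 233914) (.g (nat_lit 2034) (.e (nat_lit 106534) (nat_lit 11) (.e (nat_lit 16425) (nat_lit 7) (.e (nat_lit 409649) (nat_lit 18) (.e (nat_lit 303128) (nat_lit 9) .nil)))) .nil))))) (.nd (nat_lit 3) (.nd (nat_lit 4) (.nd (nat_lit 5) 
(.lf (nat_lit 233862) (.g (nat_lit 1991) (.e (nat_lit 106534) (nat_lit 11) (.e (nat_lit 16425) (nat_lit 7) (.e (nat_lit 409645) (nat_lit 18) (.e (nat_lit 303143) (nat_lit 12) (.e (nat_lit 475197) (nat_lit 40) .nil))))) .nil)) 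
(.lf (nat_lit 233894) (.g (nat_lit 2465) (.e (nat_lit 106534) (nat_lit 11) (.e (nat_lit 16425) (nat_lit 7) (.e (nat_lit 409648) (nat_lit 18) (.e (nat_lit 303137) (nat_lit 10) (.e (nat_lit 434271) (nat_lit 38) (.e (nat_lit 655390) (nat_lit 9) (.e (nat_lit 1269) (nat_lit 93) .nil))))))) (.g (nat_lit 4) .nil .nil)))) (.nd (nat_lit 5) 
(.lf (nat_lit 233878) (.g (nat_lit 1258) (.e (nat_lit 106534) (nat_lit 11) (.e (nat_lit 16425) (nat_lit 7) (.e (nat_lit 409647) (nat_lit 18) (.e (nat_lit 303143) (nat_lit 12) (.e (nat_lit 475199) (nat_lit 40) .nil))))) .nil)) 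
(.lf (nat_lit 233910) (.g (nat_lit 2521) (.e (nat_lit 106534) (nat_lit 11) (.e (nat_lit 16425) (nat_lit 7) (.e (nat_lit 409648) (nat_lit 18) (.e (nat_lit 303143) (nat_lit 12) (.e (nat_lit 475212) (nat_lit 42) (.e (nat_lit 720948) (nat_lit 24) .nil)))))) (.g (nat_lit 4) .nil .nil))))) (.nd (nat_lit 4) (.nd (nat_lit 5) 
(.lf (nat_lit 233870) (.g (nat_lit 2542) (.e (nat_lit 106534) (nat_lit 11) (.e (nat_lit 16425) (nat_lit 7) (.e (nat_lit 409646) (nat_lit 18) (.e (nat_lit 303143) (nat_lit 12) (.e (nat_lit 475197) (nat_lit 40) (.e (nat_lit 704612) (nat_lit 9) (.e (nat_lit 1271) (nat_lit 93) .nil))))))) (.g (nat_lit 4) .nil .nil))) 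
(.lf (nat_lit 233902) (.g (nat_lit 2501) (.e (nat_lit 106534) (nat_lit 11) (.e (nat_lit 16425) (nat_lit 7) (.e (nat_lit 409648) (nat_lit 18) (.e (nat_lit 303137) (nat_lit 10) (.e (nat_lit 434272) (nat_lit 38) (.e (nat_lit 655389) (nat_lit 9) (.e (nat_lit 1270) (nat_lit 93) .nil))))))) (.g (nat_lit 4) .nil .nil)))) (.nd (nat_lit 5) 
(.lf (nat_lit 233886) (.g (nat_lit 1643) (.e (nat_lit 106534) (nat_lit 11) (.e (nat_lit 16425) (nat_lit 7) (.e (nat_lit 409648) (nat_lit 18) (.e (nat_lit 303136) (nat_lit 10) .nil)))) .nil)) 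
(.lf (nat_lit 233918) (.g (nat_lit 2238) (.e (nat_lit 106534) (nat_lit 11) (.e (nat_lit 16425) (nat_lit 7) (.e (nat_lit 409649) (nat_lit 18) (.e (nat_lit 303132) (nat_lit 9) (.e (nat_lit 426109) (nat_lit 1) (.e (nat_lit 164326) (nat_lit 230) (.e (nat_lit 171776) (nat_lit 65) .nil))))))) (.g (nat_lit 4) .nil .nil)))))))) 
(.nd (nat_lit 1) (.nd (nat_lit 2) (.nd (nat_lit 3) (.nd (nat_lit 4) (.nd (nat_lit 5) 
(.lf (nat_lit 233857) (.g (nat_lit 2434) (.e (nat_lit 106534) (nat_lit 11) (.e (nat_lit 16425) (nat_lit 7) (.e (nat_lit 409644) (nat_lit 18) (.e (nat_lit 303143) (nat_lit 12) (.e (nat_lit 475212) (nat_lit 42) (.e (nat_lit 720952) (nat_lit 24) .nil)))))) (.g (nat_lit 5) .nil .nil))) 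
(.lf (nat_lit 233889) (.g (nat_lit 2743) (.e (nat_lit 106534) (nat_lit 11) (.e (nat_lit 16425) (nat_lit 7) (.e (nat_lit 409648) (nat_lit 18) (.e (nat_lit 303137) (nat_lit 10) (.e (nat_lit 434209) (nat_lit 18) (.e (nat_lit 5223) (nat_lit 296) (.e (nat_lit 171776) (nat_lit 65) .nil))))))) (.g (nat_lit 5) .nil .nil)))) (.nd (nat_lit 5) 
(.lf (nat_lit 233873) (.g (nat_lit 2642) (.e (nat_lit 106534) (nat_lit 11) (.e (nat_lit 16425) (nat_lit 7) (.e (nat_lit 409646) (nat_lit 18) (.e (nat_lit 303143) (nat_lit 12) (.e (nat_lit 475212) (nat_lit 42) (.e (nat_lit 720949) (nat_lit 24) .nil)))))) (.g (nat_lit 5) .nil .nil))) 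
(.lf (nat_lit 233905) (.g (nat_lit 3080) (.e (nat_lit 106534) (nat_lit 11) (.e (nat_lit 16425) (nat_lit 7) (.e (nat_lit 409648) (nat_lit 18) (.e (nat_lit 303137) (nat_lit 10) (.e (nat_lit 434272) (nat_lit 38) (.e (nat_lit 655392) (nat_lit 9) (.e (nat_lit 1257) (nat_lit 93) .nil))))))) (.g (nat_lit 4) .nil .nil))))) (.nd (nat_lit 4) (.nd (nat_lit 5) 
(.lf (nat_lit 233865) (.g (nat_lit 1765) (.e (nat_lit 106534) (nat_lit 11) (.e (nat_lit 16425) (nat_lit 7) (.e (nat_lit 409645) (nat_lit 18) (.e (nat_lit 303143) (nat_lit 12) (.e (nat_lit 475199) (nat_lit 40) .nil))))) .nil)) 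
(.lf (nat_lit 233897) (.g (nat_lit 2555) (.e (nat_lit 106534) (nat_lit 11) (.e (nat_lit 16425) (nat_lit 7) (.e (nat_lit 409648) (nat_lit 18) (.e (nat_lit 303137) (nat_lit 10) (.e (nat_lit 434272) (nat_lit 38) (.e (nat_lit 655384) (nat_lit 9) (.e (nat_lit 1271) (nat_lit 93) .nil))))))) (.g (nat_lit 4) .nil .nil)))) (.nd (nat_lit 5) 
(.lf (nat_lit 233881) (.g (nat_lit 1939) (.e (nat_lit 106534) (nat_lit 11) (.e (nat_lit 16425) (nat_lit 7) (.e (nat_lit 409648) (nat_lit 18) (.e (nat_lit 303127) (nat_lit 9) (.e (nat_lit 426448) (nat_lit 20) .nil))))) .nil)) 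
(.lf (nat_lit 233913) (.g (nat_lit 2097) (.e (nat_lit 106534) (nat_lit 11) (.e (nat_lit 16425) (nat_lit 7) (.e (nat_lit 409649) (nat_lit 18) (.e (nat_lit 303126) (nat_lit 9) .nil)))) .nil))))) (.nd (nat_lit 3) (.nd (nat_lit 4) (.nd (nat_lit 5) 
(.lf (nat_lit 233861) (.g (nat_lit 983) (.e (nat_lit 106534) (nat_lit 11) (.e (nat_lit 16425) (nat_lit 7) (.e (nat_lit 409645) (nat_lit 18) (.e (nat_lit 303143) (nat_lit 12) .nil)))) .nil)) 
(.lf (nat_lit 233893) (.g (nat_lit 2119) (.e (nat_lit 106534) (nat_lit 11) (.e (nat_lit 16425) (nat_lit 7) (.e (nat_lit 409648) (nat_lit 18) (.e (nat_lit 303137) (nat_lit 10) (.e (nat_lit 434271) (nat_lit 38) (.e (nat_lit 655389) (nat_lit 9) (.e (nat_lit 1270) (nat_lit 93) .nil))))))) (.g (nat_lit 4) .nil .nil)))) (.nd (nat_lit 5) 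
(.lf (nat_lit 233877) (.g (nat_lit 1663) (.e (nat_lit 106534) (nat_lit 11) (.e (nat_lit 16425) (nat_lit 7) (.e (nat_lit 409647) (nat_lit 18) (.e (nat_lit 303133) (nat_lit 9) (.e (nat_lit 433920) (nat_lit 20) .nil))))) .nil)) 
(.lf (nat_lit 233909) (.g (nat_lit 1569) (.e (nat_lit 106534) (nat_lit 11) (.e (nat_lit 16425) (nat_lit 7) (.e (nat_lit 409648) (nat_lit 18) (.e (nat_lit 303142) (nat_lit 12) (.e (nat_lit 475197) (nat_lit 40) .nil))))) .nil)))) (.nd (nat_lit 4) (.nd (nat_lit 5) 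
(.lf (nat_lit 233869) (.g (nat_lit 2527) (.e (nat_lit 106534) (nat_lit 11) (.e (nat_lit 16425) (nat_lit 7) (.e (nat_lit 409646) (nat_lit 18) (.e (nat_lit 303143) (nat_lit 12) (.e (nat_lit 475197) (nat_lit 40) (.e (nat_lit 704612) (nat_lit 9) (.e (nat_lit 1261) (nat_lit 93) .nil))))))) (.g (nat_lit 4) .nil .nil))) 
(.lf (nat_lit 233901) (.g (nat_lit 2774) (.e (nat_lit 106534) (nat_lit 11) (.e (nat_lit 16425) (nat_lit 7) (.e (nat_lit 409648) (nat_lit 18) (.e (nat_lit 303137) (nat_lit 10) (.e (nat_lit 434272) (nat_lit 38) (.e (nat_lit 655387) (nat_lit 9) (.e (nat_lit 1271) (nat_lit 93) .nil))))))) (.g (nat_lit 4) .nil .nil)))) (.nd (nat_lit 5) 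
(.lf (nat_lit 233885) (.g (nat_lit 1995) (.e (nat_lit 106534) (nat_lit 11) (.e (nat_lit 16425) (nat_lit 7) (.e (nat_lit 409648) (nat_lit 18) (.e (nat_lit 303135) (nat_lit 10) .nil)))) .nil)) 
(.lf (nat_lit 233917) (.g (nat_lit 2472) (.e (nat_lit 106534) (nat_lit 11) (.e (nat_lit 16425) (nat_lit 7) (.e (nat_lit 409649) (nat_lit 18) (.e (nat_lit 303132) (nat_lit 9) (.e (nat_lit 426109) (nat_lit 1) (.e (nat_lit 164323) (nat_lit 230) (.e (nat_lit 171776) (nat_lit 65) .nil))))))) (.g (nat_lit 5) .nil .nil))))))) (.nd (nat_lit 2) (.nd (nat_lit 3) (.nd (nat_lit 4) (.nd (nat_lit 5) 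
(.lf (nat_lit 233859) (.g (nat_lit 2009) (.e (nat_lit 106534) (nat_lit 11) (.e (nat_lit 16425) (nat_lit 7) (.e (nat_lit 409645) (nat_lit 18) (.e (nat_lit 303127) (nat_lit 9) (.e (nat_lit 426449) (nat_lit 20) (.e (nat_lit 114721) (nat_lit 24) .nil)))))) (.g (nat_lit 4) .nil .nil))) 
(.lf (nat_lit 233891) (.g (nat_lit 2605) (.e (nat_lit 106534) (nat_lit 11) (.e (nat_lit 16425) (nat_lit 7) (.e (nat_lit 409648) (nat_lit 18) (.e (nat_lit 303137) (nat_lit 10) (.e (nat_lit 434209) (nat_lit 18) (.e (nat_lit 5232) (nat_lit 296) (.e (nat_lit 171776) (nat_lit 65) .nil))))))) (.g (nat_lit 4) .nil .nil)))) (.nd (nat_lit 5) 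
(.lf (nat_lit 233875) (.g (nat_lit 1987) (.e (nat_lit 106534) (nat_lit 11) (.e (nat_lit 16425) (nat_lit 7) (.e (nat_lit 409647) (nat_lit 18) (.e (nat_lit 303127) (nat_lit 9) (.e (nat_lit 426449) (nat_lit 20) (.e (nat_lit 114721) (nat_lit 24) .nil)))))) (.g (nat_lit 4) .nil .nil))) 
(.lf (nat_lit 233907) (.g (nat_lit 1531) (.e (nat_lit 106534) (nat_lit 11) (.e (nat_lit 16425) (nat_lit 7) (.e (nat_lit 409648) (nat_lit 18) (.e (nat_lit 303138) (nat_lit 10) .nil)))) .nil)))) (.nd (nat_lit 4) (.nd (nat_lit 5) 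
(.lf (nat_lit 233867) (.g (nat_lit 3001) (.e (nat_lit 106534) (nat_lit 11) (.e (nat_lit 16425) (nat_lit 7) (.e (nat_lit 409645) (nat_lit 18) (.e (nat_lit 303143) (nat_lit 12) (.e (nat_lit 475212) (nat_lit 42) (.e (nat_lit 720952) (nat_lit 24) .nil)))))) (.g (nat_lit 5) .nil .nil))) 
(.lf (nat_lit 233899) (.g (nat_lit 3350) (.e (nat_lit 106534) (nat_lit 11) (.e (nat_lit 16425) (nat_lit 7) (.e (nat_lit 409648) (nat_lit 18) (.e (nat_lit 303137) (nat_lit 10) (.e (nat_lit 434272) (nat_lit 38) (.e (nat_lit 655386) (nat_lit 9) (.e (nat_lit 1257) (nat_lit 93) .nil))))))) (.g (nat_lit 4) .nil .nil)))) (.nd (nat_lit 5) 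
(.lf (nat_lit 233883) (.g (nat_lit 2412) (.e (nat_lit 106534) (nat_lit 11) (.e (nat_lit 16425) (nat_lit 7) (.e (nat_lit 409648) (nat_lit 18) (.e (nat_lit 303133) (nat_lit 9) (.e (nat_lit 433920) (nat_lit 20) .nil))))) .nil)) 
(.lf (nat_lit 233915) (.g (nat_lit 1984) (.e (nat_lit 106534) (nat_lit 11) (.e (nat_lit 16425) (nat_lit 7) (.e (nat_lit 409649) (nat_lit 18) (.e (nat_lit 303129) (nat_lit 9) .nil)))) .nil))))) (.nd (nat_lit 3) (.nd (nat_lit 4) (.nd (nat_lit 5) 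
(.lf (nat_lit 233863) (.g (nat_lit 2464) (.e (nat_lit 106534) (nat_lit 11) (.e (nat_lit 16425) (nat_lit 7) (.e (nat_lit 409645) (nat_lit 18) (.e (nat_lit 303143) (nat_lit 12) (.e (nat_lit 475197) (nat_lit 40) (.e (nat_lit 704612) (nat_lit 9) (.e (nat_lit 1261) (nat_lit 93) .nil))))))) (.g (nat_lit 4) .nil .nil))) 
(.lf (nat_lit 233895) (.g (nat_lit 2735) (.e (nat_lit 106534) (nat_lit 11) (.e (nat_lit 16425) (nat_lit 7) (.e (nat_lit 409648) (nat_lit 18) (.e (nat_lit 303137) (nat_lit 10) (.e (nat_lit 434271) (nat_lit 38) (.e (nat_lit 655390) (nat_lit 9) (.e (nat_lit 1270) (nat_lit 93) .nil))))))) (.g (nat_lit 5) .nil .nil)))) (.nd (nat_lit 5) 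
(.lf (nat_lit 233879) (.g (nat_lit 2434) (.e (nat_lit 106534) (nat_lit 11) (.e (nat_lit 16425) (nat_lit 7) (.e (nat_lit 409647) (nat_lit 18) (.e (nat_lit 303143) (nat_lit 12) (.e (nat_lit 475212) (nat_lit 42) (.e (nat_lit 720949) (nat_lit 24) .nil)))))) (.g (nat_lit 5) .nil .nil))) 
(.lf (nat_lit 233911) (.g (nat_lit 3001) (.e (nat_lit 106534) (nat_lit 11) (.e (nat_lit 16425) (nat_lit 7) (.e (nat_lit 409648) (nat_lit 18) (.e (nat_lit 303143) (nat_lit 12) (.e (nat_lit 475212) (nat_lit 42) (.e (nat_lit 720949) (nat_lit 24) .nil)))))) (.g (nat_lit 5) .nil .nil))))) (.nd (nat_lit 4) (.nd (nat_lit 5) 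
(.lf (nat_lit 233871) (.g (nat_lit 1477) (.e (nat_lit 106534) (nat_lit 11) (.e (nat_lit 16425) (nat_lit 7) (.e (nat_lit 409646) (nat_lit 18) (.e (nat_lit 303143) (nat_lit 12) (.e (nat_lit 475199) (nat_lit 40) .nil))))) .nil)) 
(.lf (nat_lit 233903) (.g (nat_lit 3076) (.e (nat_lit 106534) (nat_lit 11) (.e (nat_lit 16425) (nat_lit 7) (.e (nat_lit 409648) (nat_lit 18) (.e (nat_lit 303137) (nat_lit 10) (.e (nat_lit 434272) (nat_lit 38) (.e (nat_lit 655390) (nat_lit 9) (.e (nat_lit 1269) (nat_lit 93) .nil))))))) (.g (nat_lit 5) .nil .nil)))) (.nd (nat_lit 5) 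
(.lf (nat_lit 233887) (.g (nat_lit 1692) (.e (nat_lit 106534) (nat_lit 11) (.e (nat_lit 16425) (nat_lit 7) (.e (nat_lit 409648) (nat_lit 18) (.e (nat_lit 303136) (nat_lit 10) (.e (nat_lit 434272) (nat_lit 38) .nil))))) .nil)) 
(.lf (nat_lit 233919) (.g (nat_lit 2151) (.e (nat_lit 106534) (nat_lit 11) (.e (nat_lit 16425) (nat_lit 7) (.e (nat_lit 409649) (nat_lit 18) (.e (nat_lit 303132) (nat_lit 9) (.e (nat_lit 433920) (nat_lit 20) .nil))))) .nil))))))))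

noncomputable def tv3057 : DT := (.nd (nat_lit 0) (.nd (nat_lit 1) (.nd (nat_lit 2) (.nd (nat_lit 3) (.nd (nat_lit 4) (.nd (nat_lit 5) 
(.lf (nat_lit 233920) (.g (nat_lit 2226) (.e (nat_lit 106534) (nat_lit 11) (.e (nat_lit 16425) (nat_lit 7) (.e (nat_lit 409649) (nat_lit 18) (.e (nat_lit 303132) (nat_lit 9) (.e (nat_lit 433920) (nat_lit 20) (.e (nat_lit 114722) (nat_lit 24) .nil)))))) (.g (nat_lit 4) .nil .nil))) 
(.lf (nat_lit 233952) (.g (nat_lit 2546) (.e (nat_lit 106534) (nat_lit 11) (.e (nat_lit 16425) (nat_lit 7) (.e (nat_lit 409649) (nat_lit 18) (.e (nat_lit 303140) (nat_lit 10) (.e (nat_lit 434272) (nat_lit 38) (.e (nat_lit 655392) (nat_lit 9) (.e (nat_lit 1257) (nat_lit 93) .nil))))))) (.g (nat_lit 4) .nil .nil)))) (.nd (nat_lit 5) 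
(.lf (nat_lit 233936) (.g (nat_lit 3005) (.e (nat_lit 106534) (nat_lit 11) (.e (nat_lit 16425) (nat_lit 7) (.e (nat_lit 409649) (nat_lit 18) (.e (nat_lit 303140) (nat_lit 10) (.e (nat_lit 434271) (nat_lit 38) (.e (nat_lit 655387) (nat_lit 9) (.e (nat_lit 1257) (nat_lit 93) .nil))))))) (.g (nat_lit 4) .nil .nil))) 
(.lf (nat_lit 233968) (.g (nat_lit 2538) (.e (nat_lit 106534) (nat_lit 11) (.e (nat_lit 16431) (nat_lit 9) (.e (nat_lit 426555) (nat_lit 32) (.e (nat_lit 376860) (nat_lit 21) (.e (nat_lit 57854) (nat_lit 252) .nil))))) .nil)))) (.nd (nat_lit 4) (.nd (nat_lit 5) 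
(.lf (nat_lit 233928) (.g (nat_lit 3680) (.e (nat_lit 106534) (nat_lit 11) (.e (nat_lit 16425) (nat_lit 7) (.e (nat_lit 409649) (nat_lit 18) (.e (nat_lit 303140) (nat_lit 10) (.e (nat_lit 434209) (nat_lit 18) (.e (nat_lit 5224) (nat_lit 296) (.e (nat_lit 171776) (nat_lit 65) .nil))))))) (.g (nat_lit 6) .nil .nil))) 
(.lf (nat_lit 233960) (.g (nat_lit 494) (.e (nat_lit 106534) (nat_lit 11) (.e (nat_lit 16425) (nat_lit 7) (.e (nat_lit 409650) (nat_lit 19) .nil))) .nil))) (.nd (nat_lit 5) 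
(.lf (nat_lit 233944) (.g (nat_lit 2435) (.e (nat_lit 106534) (nat_lit 11) (.e (nat_lit 16425) (nat_lit 7) (.e (nat_lit 409649) (nat_lit 18) (.e (nat_lit 303140) (nat_lit 10) (.e (nat_lit 434272) (nat_lit 38) (.e (nat_lit 655385) (nat_lit 9) (.e (nat_lit 1271) (nat_lit 93) .nil))))))) (.g (nat_lit 4) .nil .nil))) 
(.lf (nat_lit 233976) (.g (nat_lit 2722) (.e (nat_lit 106534) (nat_lit 11) (.e (nat_lit 16433) (nat_lit 9) (.e (nat_lit 426555) (nat_lit 32) (.e (nat_lit 376857) (nat_lit 21) (.e (nat_lit 57847) (nat_lit 252) (.e (nat_lit 57386) (nat_lit 4) .nil)))))) (.g (nat_lit 4) .nil .nil)))))) (.nd (nat_lit 3) (.nd (nat_lit 4) (.nd (nat_lit 5) 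
(.lf (nat_lit 233924) (.g (nat_lit 962) (.e (nat_lit 106534) (nat_lit 11) (.e (nat_lit 16425) (nat_lit 7) (.e (nat_lit 409649) (nat_lit 18) (.e (nat_lit 303140) (nat_lit 10) .nil)))) .nil)) 
(.lf (nat_lit 233956) (.g (nat_lit 1402) (.e (nat_lit 106534) (nat_lit 11) (.e (nat_lit 16425) (nat_lit 7) (.e (nat_lit 409649) (nat_lit 18) (.e (nat_lit 303143) (nat_lit 12) (.e (nat_lit 475199) (nat_lit 40) .nil))))) .nil))) (.nd (nat_lit 5) 
(.lf (nat_lit 233940) (.g (nat_lit 2694) (.e (nat_lit 106534) (nat_lit 11) (.e (nat_lit 16425) (nat_lit 7) (.e (nat_lit 409649) (nat_lit 18) (.e (nat_lit 303140) (nat_lit 10) (.e (nat_lit 434271) (nat_lit 38) (.e (nat_lit 655389) (nat_lit 9) (.e (nat_lit 1270) (nat_lit 93) .nil))))))) (.g (nat_lit 4) .nil .nil))) 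
(.lf (nat_lit 233972) (.g (nat_lit 2673) (.e (nat_lit 106534) (nat_lit 11) (.e (nat_lit 16432) (nat_lit 9) (.e (nat_lit 426555) (nat_lit 32) (.e (nat_lit 376860) (nat_lit 21) (.e (nat_lit 57854) (nat_lit 252) (.e (nat_lit 57384) (nat_lit 4) .nil)))))) (.g (nat_lit 4) .nil .nil))))) (.nd (nat_lit 4) (.nd (nat_lit 5) 
(.lf (nat_lit 233932) (.g (nat_lit 2678) (.e (nat_lit 106534) (nat_lit 11) (.e (nat_lit 16425) (nat_lit 7) (.e (nat_lit 409649) (nat_lit 18) (.e (nat_lit 303140) (nat_lit 10) (.e (nat_lit 442112) (nat_lit 37) (.e (nat_lit 647195) (nat_lit 9) (.e (nat_lit 1270) (nat_lit 93) .nil))))))) (.g (nat_lit 4) .nil .nil))) 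
(.lf (nat_lit 233964) (.g (nat_lit 1705) (.e (nat_lit 106534) (nat_lit 11) (.e (nat_lit 16431) (nat_lit 9) (.e (nat_lit 426555) (nat_lit 32) (.e (nat_lit 376859) (nat_lit 21) .nil)))) .nil))) (.nd (nat_lit 5) 
(.lf (nat_lit 233948) (.g (nat_lit 2347) (.e (nat_lit 106534) (nat_lit 11) (.e (nat_lit 16425) (nat_lit 7) (.e (nat_lit 409649) (nat_lit 18) (.e (nat_lit 303140) (nat_lit 10) (.e (nat_lit 434272) (nat_lit 38) (.e (nat_lit 655389) (nat_lit 9) (.e (nat_lit 1269) (nat_lit 93) .nil))))))) (.g (nat_lit 4) .nil .nil))) 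
(.lf (nat_lit 233980) (.g (nat_lit 3320) (.e (nat_lit 106534) (nat_lit 11) (.e (nat_lit 16433) (nat_lit 9) (.e (nat_lit 426555) (nat_lit 32) (.e (nat_lit 376857) (nat_lit 21) (.e (nat_lit 57854) (nat_lit 252) (.e (nat_lit 57382) (nat_lit 4) .nil)))))) (.g (nat_lit 5) .nil .nil))))))) (.nd (nat_lit 2) (.nd (nat_lit 3) (.nd (nat_lit 4) (.nd (nat_lit 5) 
(.lf (nat_lit 233922) (.g (nat_lit 1844) (.e (nat_lit 106534) (nat_lit 11) (.e (nat_lit 16425) (nat_lit 7) (.e (nat_lit 409649) (nat_lit 18) (.e (nat_lit 303133) (nat_lit 9) (.e (nat_lit 433920) (nat_lit 20) .nil))))) .nil)) 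
(.lf (nat_lit 233954) (.g (nat_lit 2028) (.e (nat_lit 106534) (nat_lit 11) (.e (nat_lit 16425) (nat_lit 7) (.e (nat_lit 409649) (nat_lit 18) (.e (nat_lit 303142) (nat_lit 12) .nil)))) .nil))) (.nd (nat_lit 5) 
(.lf (nat_lit 233938) (.g (nat_lit 3817) (.e (nat_lit 106534) (nat_lit 11) (.e (nat_lit 16425) (nat_lit 7) (.e (nat_lit 409649) (nat_lit 18) (.e (nat_lit 303140) (nat_lit 10) (.e (nat_lit 434271) (nat_lit 38) (.e (nat_lit 655387) (nat_lit 9) (.e (nat_lit 1271) (nat_lit 93) .nil))))))) (.g (nat_lit 6) .nil .nil))) 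
(.lf (nat_lit 233970) (.g (nat_lit 1872) (.e (nat_lit 106534) (nat_lit 11) (.e (nat_lit 16432) (nat_lit 9) (.e (nat_lit 426555) (nat_lit 32) (.e (nat_lit 376857) (nat_lit 21) (.e (nat_lit 57851) (nat_lit 252) .nil))))) .nil)))) (.nd (nat_lit 4) (.nd (nat_lit 5) 
(.lf (nat_lit 233930) (.g (nat_lit 2385) (.e (nat_lit 106534) (nat_lit 11) (.e (nat_lit 16425) (nat_lit 7) (.e (nat_lit 409649) (nat_lit 18) (.e (nat_lit 303140) (nat_lit 10) (.e (nat_lit 434265) (nat_lit 35) (.e (nat_lit 630789) (nat_lit 5) (.e (nat_lit 120) (nat_lit 4) .nil))))))) (.g (nat_lit 4) .nil .nil))) 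
(.lf (nat_lit 233962) (.g (nat_lit 1705) (.e (nat_lit 106534) (nat_lit 11) (.e (nat_lit 16431) (nat_lit 9) (.e (nat_lit 426555) (nat_lit 32) (.e (nat_lit 376857) (nat_lit 21) .nil)))) .nil))) (.nd (nat_lit 5) 
(.lf (nat_lit 233946) (.g (nat_lit 3639) (.e (nat_lit 106534) (nat_lit 11) (.e (nat_lit 16425) (nat_lit 7) (.e (nat_lit 409649) (nat_lit 18) (.e (nat_lit 303140) (nat_lit 10) (.e (nat_lit 434272) (nat_lit 38) (.e (nat_lit 655386) (nat_lit 9) (.e (nat_lit 1271) (nat_lit 93) .nil))))))) (.g (nat_lit 6) .nil .nil))) 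
(.lf (nat_lit 233978) (.g (nat_lit 2690) (.e (nat_lit 106534) (nat_lit 11) (.e (nat_lit 16433) (nat_lit 9) (.e (nat_lit 426555) (nat_lit 32) (.e (nat_lit 376857) (nat_lit 21) (.e (nat_lit 57849) (nat_lit 252) (.e (nat_lit 57385) (nat_lit 4) .nil)))))) (.g (nat_lit 4) .nil .nil)))))) (.nd (nat_lit 3) (.nd (nat_lit 4) (.nd (nat_lit 5) 
(.lf (nat_lit 233926) (.g (nat_lit 2239) (.e (nat_lit 106534) (nat_lit 11) (.e (nat_lit 16425) (nat_lit 7) (.e (nat_lit 409649) (nat_lit 18) (.e (nat_lit 303140) (nat_lit 10) (.e (nat_lit 434209) (nat_lit 18) (.e (nat_lit 5219) (nat_lit 296) (.e (nat_lit 171776) (nat_lit 65) .nil))))))) (.g (nat_lit 4) .nil .nil))) 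
(.lf (nat_lit 233958) (.g (nat_lit 2710) (.e (nat_lit 106534) (nat_lit 11) (.e (nat_lit 16425) (nat_lit 7) (.e (nat_lit 409649) (nat_lit 18) (.e (nat_lit 303143) (nat_lit 12) (.e (nat_lit 475212) (nat_lit 42) (.e (nat_lit 720951) (nat_lit 24) .nil)))))) (.g (nat_lit 5) .nil .nil)))) (.nd (nat_lit 5) 
(.lf (nat_lit 233942) (.g (nat_lit 1743) (.e (nat_lit 106534) (nat_lit 11) (.e (nat_lit 16425) (nat_lit 7) (.e (nat_lit 409649) (nat_lit 18) (.e (nat_lit 303140) (nat_lit 10) (.e (nat_lit 434272) (nat_lit 38) .nil))))) .nil)) 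
(.lf (nat_lit 233974) (.g (nat_lit 899) (.e (nat_lit 106534) (nat_lit 11) (.e (nat_lit 16433) (nat_lit 9) (.e (nat_lit 426544) (nat_lit 30) .nil))) .nil)))) (.nd (nat_lit 4) (.nd (nat_lit 5) 
(.lf (nat_lit 233934) (.g (nat_lit 2545) (.e (nat_lit 106534) (nat_lit 11) (.e (nat_lit 16425) (nat_lit 7) (.e (nat_lit 409649) (nat_lit 18) (.e (nat_lit 303140) (nat_lit 10) (.e (nat_lit 434271) (nat_lit 38) (.e (nat_lit 655384) (nat_lit 9) (.e (nat_lit 1271) (nat_lit 93) .nil))))))) (.g (nat_lit 4) .nil .nil))) 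
(.lf (nat_lit 233966) (.g (nat_lit 1763) (.e (nat_lit 106534) (nat_lit 11) (.e (nat_lit 16431) (nat_lit 9) (.e (nat_lit 426555) (nat_lit 32) (.e (nat_lit 376860) (nat_lit 21) .nil)))) .nil))) (.nd (nat_lit 5) 
(.lf (nat_lit 233950) (.g (nat_lit 3367) (.e (nat_lit 106534) (nat_lit 11) (.e (nat_lit 16425) (nat_lit 7) (.e (nat_lit 409649) (nat_lit 18) (.e (nat_lit 303140) (nat_lit 10) (.e (nat_lit 434272) (nat_lit 38) (.e (nat_lit 655390) (nat_lit 9) (.e (nat_lit 1269) (nat_lit 93) .nil))))))) (.g (nat_lit 5) .nil .nil))) 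
(.lf (nat_lit 233982) (.g (nat_lit 2561) (.e (nat_lit 106534) (nat_lit 11) (.e (nat_lit 16433) (nat_lit 9) (.e (nat_lit 426555) (nat_lit 32) (.e (nat_lit 376859) (nat_lit 21) (.e (nat_lit 57847) (nat_lit 252) (.e (nat_lit 57386) (nat_lit 4) .nil)))))) (.g (nat_lit 4) .nil .nil)))))))) (.nd (nat_lit 1) (.nd (nat_lit 2) (.nd (nat_lit 3) (.nd (nat_lit 4) (.nd (nat_lit 5) 
(.lf (nat_lit 233921) (.g (nat_lit 2282) (.e (nat_lit 106534) (nat_lit 11) (.e (nat_lit 16425) (nat_lit 7) (.e (nat_lit 409649) (nat_lit 18) (.e (nat_lit 303132) (nat_lit 9) (.e (nat_lit 433920) (nat_lit 20) (.e (nat_lit 114723) (nat_lit 24) .nil)))))) (.g (nat_lit 4) .nil .nil))) 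
(.lf (nat_lit 233953) (.g (nat_lit 2716) (.e (nat_lit 106534) (nat_lit 11) (.e (nat_lit 16425) (nat_lit 7) (.e (nat_lit 409649) (nat_lit 18) (.e (nat_lit 303140) (nat_lit 10) (.e (nat_lit 434272) (nat_lit 38) (.e (nat_lit 655392) (nat_lit 9) (.e (nat_lit 1264) (nat_lit 93) .nil))))))) (.g (nat_lit 4) .nil .nil)))) (.nd (nat_lit 5) 
(.lf (nat_lit 233937) (.g (nat_lit 2580) (.e (nat_lit 106534) (nat_lit 11) (.e (nat_lit 16425) (nat_lit 7) (.e (nat_lit 409649) (nat_lit 18) (.e (nat_lit 303140) (nat_lit 10) (.e (nat_lit 434271) (nat_lit 38) (.e (nat_lit 655387) (nat_lit 9) (.e (nat_lit 1265) (nat_lit 93) .nil))))))) (.g (nat_lit 4) .nil .nil))) 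
(.lf (nat_lit 233969) (.g (nat_lit 2049) (.e (nat_lit 106534) (nat_lit 11) (.e (nat_lit 16432) (nat_lit 9) (.e (nat_lit 426555) (nat_lit 32) (.e (nat_lit 376857) (nat_lit 21) (.e (nat_lit 57844) (nat_lit 252) .nil))))) .nil)))) (.nd (nat_lit 4) (.nd (nat_lit 5) 
(.lf (nat_lit 233929) (.g (nat_lit 3234) (.e (nat_lit 106534) (nat_lit 11) (.e (nat_lit 16425) (nat_lit 7) (.e (nat_lit 409649) (nat_lit 18) (.e (nat_lit 303140) (nat_lit 10) (.e (nat_lit 434209) (nat_lit 18) (.e (nat_lit 5232) (nat_lit 296) (.e (nat_lit 171776) (nat_lit 65) .nil))))))) (.g (nat_lit 5) .nil .nil))) 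
(.lf (nat_lit 233961) (.g (nat_lit 535) (.e (nat_lit 106534) (nat_lit 11) (.e (nat_lit 16425) (nat_lit 7) (.e (nat_lit 409651) (nat_lit 19) .nil))) .nil))) (.nd (nat_lit 5) 
(.lf (nat_lit 233945) (.g (nat_lit 3031) (.e (nat_lit 106534) (nat_lit 11) (.e (nat_lit 16425) (nat_lit 7) (.e (nat_lit 409649) (nat_lit 18) (.e (nat_lit 303140) (nat_lit 10) (.e (nat_lit 434272) (nat_lit 38) (.e (nat_lit 655386) (nat_lit 9) (.e (nat_lit 1257) (nat_lit 93) .nil))))))) (.g (nat_lit 4) .nil .nil))) 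
(.lf (nat_lit 233977) (.g (nat_lit 2558) (.e (nat_lit 106534) (nat_lit 11) (.e (nat_lit 16433) (nat_lit 9) (.e (nat_lit 426555) (nat_lit 32) (.e (nat_lit 376857) (nat_lit 21) (.e (nat_lit 57848) (nat_lit 252) (.e (nat_lit 57386) (nat_lit 4) .nil)))))) (.g (nat_lit 4) .nil .nil)))))) (.nd (nat_lit 3) (.nd (nat_lit 4) (.nd (nat_lit 5) 
(.lf (nat_lit 233925) (.g (nat_lit 2715) (.e (nat_lit 106534) (nat_lit 11) (.e (nat_lit 16425) (nat_lit 7) (.e (nat_lit 409649) (nat_lit 18) (.e (nat_lit 303140) (nat_lit 10) (.e (nat_lit 434202) (nat_lit 18) (.e (nat_lit 5537) (nat_lit 306) (.e (nat_lit 1077) (nat_lit 81) (.e (nat_lit 1264) (nat_lit 93) .nil)))))))) (.g (nat_lit 4) .nil .nil))) 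
(.lf (nat_lit 233957) (.g (nat_lit 2628) (.e (nat_lit 106534) (nat_lit 11) (.e (nat_lit 16425) (nat_lit 7) (.e (nat_lit 409649) (nat_lit 18) (.e (nat_lit 303143) (nat_lit 12) (.e (nat_lit 475212) (nat_lit 42) (.e (nat_lit 720949) (nat_lit 24) .nil)))))) (.g (nat_lit 5) .nil .nil)))) (.nd (nat_lit 5) 
(.lf (nat_lit 233941) (.g (nat_lit 3352) (.e (nat_lit 106534) (nat_lit 11) (.e (nat_lit 16425) (nat_lit 7) (.e (nat_lit 409649) (nat_lit 18) (.e (nat_lit 303140) (nat_lit 10) (.e (nat_lit 434271) (nat_lit 38) (.e (nat_lit 655390) (nat_lit 9) (.e (nat_lit 1269) (nat_lit 93) .nil))))))) (.g (nat_lit 5) .nil .nil))) 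
(.lf (nat_lit 233973) (.g (nat_lit 1988) (.e (nat_lit 106534) (nat_lit 11) (.e (nat_lit 16433) (nat_lit 9) (.e (nat_lit 426538) (nat_lit 29) (.e (nat_lit 352309) (nat_lit 21) (.e (nat_lit 57848) (nat_lit 252) .nil))))) .nil)))) (.nd (nat_lit 4) (.nd (nat_lit 5) 
(.lf (nat_lit 233933) (.g (nat_lit 1964) (.e (nat_lit 106534) (nat_lit 11) (.e (nat_lit 16425) (nat_lit 7) (.e (nat_lit 409649) (nat_lit 18) (.e (nat_lit 303140) (nat_lit 10) (.e (nat_lit 434271) (nat_lit 38) .nil))))) .nil)) 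
(.lf (nat_lit 233965) (.g (nat_lit 2368) (.e (nat_lit 106534) (nat_lit 11) (.e (nat_lit 16431) (nat_lit 9) (.e (nat_lit 426555) (nat_lit 32) (.e (nat_lit 376859) (nat_lit 21) (.e (nat_lit 57844) (nat_lit 252) .nil))))) .nil))) (.nd (nat_lit 5) 
(.lf (nat_lit 233949) (.g (nat_lit 2503) (.e (nat_lit 106534) (nat_lit 11) (.e (nat_lit 16425) (nat_lit 7) (.e (nat_lit 409649) (nat_lit 18) (.e (nat_lit 303140) (nat_lit 10) (.e (nat_lit 434272) (nat_lit 38) (.e (nat_lit 655389) (nat_lit 9) (.e (nat_lit 1270) (nat_lit 93) .nil))))))) (.g (nat_lit 4) .nil .nil))) 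
(.lf (nat_lit 233981) (.g (nat_lit 2563) (.e (nat_lit 106534) (nat_lit 11) (.e (nat_lit 16433) (nat_lit 9) (.e (nat_lit 426555) (nat_lit 32) (.e (nat_lit 376859) (nat_lit 21) (.e (nat_lit 57847) (nat_lit 252) (.e (nat_lit 57385) (nat_lit 4) .nil)))))) (.g (nat_lit 4) .nil .nil))))))) (.nd (nat_lit 2) (.nd (nat_lit 3) (.nd (nat_lit 4) (.nd (nat_lit 5) 
(.lf (nat_lit 233923) (.g (nat_lit 1947) (.e (nat_lit 106534) (nat_lit 11) (.e (nat_lit 16425) (nat_lit 7) (.e (nat_lit 409649) (nat_lit 18) (.e (nat_lit 303136) (nat_lit 10) .nil)))) .nil)) 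
(.lf (nat_lit 233955) (.g (nat_lit 2534) (.e (nat_lit 106534) (nat_lit 11) (.e (nat_lit 16425) (nat_lit 7) (.e (nat_lit 409649) (nat_lit 18) (.e (nat_lit 303143) (nat_lit 12) (.e (nat_lit 475197) (nat_lit 40) (.e (nat_lit 704612) (nat_lit 9) (.e (nat_lit 1271) (nat_lit 93) .nil))))))) (.g (nat_lit 4) .nil .nil)))) (.nd (nat_lit 5) 
(.lf (nat_lit 233939) (.g (nat_lit 2538) (.e (nat_lit 106534) (nat_lit 11) (.e (nat_lit 16425) (nat_lit 7) (.e (nat_lit 409649) (nat_lit 18) (.e (nat_lit 303140) (nat_lit 10) (.e (nat_lit 434271) (nat_lit 38) (.e (nat_lit 655389) (nat_lit 9) (.e (nat_lit 1269) (nat_lit 93) .nil))))))) (.g (nat_lit 4) .nil .nil))) 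
(.lf (nat_lit 233971) (.g (nat_lit 2578) (.e (nat_lit 106534) (nat_lit 11) (.e (nat_lit 16432) (nat_lit 9) (.e (nat_lit 426555) (nat_lit 32) (.e (nat_lit 376859) (nat_lit 21) (.e (nat_lit 57844) (nat_lit 252) (.e (nat_lit 57382) (nat_lit 4) .nil)))))) (.g (nat_lit 4) .nil .nil))))) (.nd (nat_lit 4) (.nd (nat_lit 5) 
(.lf (nat_lit 233931) (.g (nat_lit 2508) (.e (nat_lit 106534) (nat_lit 11) (.e (nat_lit 16425) (nat_lit 7) (.e (nat_lit 409649) (nat_lit 18) (.e (nat_lit 303140) (nat_lit 10) (.e (nat_lit 442112) (nat_lit 37) (.e (nat_lit 647195) (nat_lit 9) (.e (nat_lit 1269) (nat_lit 93) .nil))))))) (.g (nat_lit 4) .nil .nil))) 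
(.lf (nat_lit 233963) (.g (nat_lit 2450) (.e (nat_lit 106534) (nat_lit 11) (.e (nat_lit 16431) (nat_lit 9) (.e (nat_lit 426555) (nat_lit 32) (.e (nat_lit 376857) (nat_lit 21) (.e (nat_lit 57854) (nat_lit 252) .nil))))) .nil))) (.nd (nat_lit 5) 
(.lf (nat_lit 233947) (.g (nat_lit 2593) (.e (nat_lit 106534) (nat_lit 11) (.e (nat_lit 16425) (nat_lit 7) (.e (nat_lit 409649) (nat_lit 18) (.e (nat_lit 303140) (nat_lit 10) (.e (nat_lit 434272) (nat_lit 38) (.e (nat_lit 655387) (nat_lit 9) (.e (nat_lit 1271) (nat_lit 93) .nil))))))) (.g (nat_lit 4) .nil .nil))) 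
(.lf (nat_lit 233979) (.g (nat_lit 2715) (.e (nat_lit 106534) (nat_lit 11) (.e (nat_lit 16433) (nat_lit 9) (.e (nat_lit 426555) (nat_lit 32) (.e (nat_lit 376857) (nat_lit 21) (.e (nat_lit 57852) (nat_lit 252) (.e (nat_lit 57384) (nat_lit 4) .nil)))))) (.g (nat_lit 4) .nil .nil)))))) (.nd (nat_lit 3) (.nd (nat_lit 4) (.nd (nat_lit 5) 
(.lf (nat_lit 233927) (.g (nat_lit 2638) (.e (nat_lit 106534) (nat_lit 11) (.e (nat_lit 16425) (nat_lit 7) (.e (nat_lit 409649) (nat_lit 18) (.e (nat_lit 303140) (nat_lit 10) (.e (nat_lit 434209) (nat_lit 18) (.e (nat_lit 5223) (nat_lit 296) (.e (nat_lit 171776) (nat_lit 65) .nil))))))) (.g (nat_lit 5) .nil .nil))) 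
(.lf (nat_lit 233959) (.g (nat_lit 2642) (.e (nat_lit 106534) (nat_lit 11) (.e (nat_lit 16425) (nat_lit 7) (.e (nat_lit 409649) (nat_lit 18) (.e (nat_lit 303143) (nat_lit 12) (.e (nat_lit 475212) (nat_lit 42) (.e (nat_lit 720952) (nat_lit 24) .nil)))))) (.g (nat_lit 5) .nil .nil)))) (.nd (nat_lit 5) 
(.lf (nat_lit 233943) (.g (nat_lit 2264) (.e (nat_lit 106534) (nat_lit 11) (.e (nat_lit 16425) (nat_lit 7) (.e (nat_lit 409649) (nat_lit 18) (.e (nat_lit 303140) (nat_lit 10) (.e (nat_lit 434272) (nat_lit 38) (.e (nat_lit 655384) (nat_lit 9) (.e (nat_lit 1271) (nat_lit 93) .nil))))))) (.g (nat_lit 4) .nil .nil))) 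
(.lf (nat_lit 233975) (.g (nat_lit 2714) (.e (nat_lit 106534) (nat_lit 11) (.e (nat_lit 16433) (nat_lit 9) (.e (nat_lit 426555) (nat_lit 32) (.e (nat_lit 376857) (nat_lit 21) (.e (nat_lit 57847) (nat_lit 252) (.e (nat_lit 57385) (nat_lit 4) .nil)))))) (.g (nat_lit 4) .nil .nil))))) (.nd (nat_lit 4) (.nd (nat_lit 5) 
(.lf (nat_lit 233935) (.g (nat_lit 2594) (.e (nat_lit 106534) (nat_lit 11) (.e (nat_lit 16425) (nat_lit 7) (.e (nat_lit 409649) (nat_lit 18) (.e (nat_lit 303140) (nat_lit 10) (.e (nat_lit 434271) (nat_lit 38) (.e (nat_lit 655385) (nat_lit 9) (.e (nat_lit 1271) (nat_lit 93) .nil))))))) (.g (nat_lit 4) .nil .nil))) 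
(.lf (nat_lit 233967) (.g (nat_lit 2690) (.e (nat_lit 106534) (nat_lit 11) (.e (nat_lit 16431) (nat_lit 9) (.e (nat_lit 426555) (nat_lit 32) (.e (nat_lit 376860) (nat_lit 21) (.e (nat_lit 57852) (nat_lit 252) .nil))))) .nil))) (.nd (nat_lit 5) 
(.lf (nat_lit 233951) (.g (nat_lit 3414) (.e (nat_lit 106534) (nat_lit 11) (.e (nat_lit 16425) (nat_lit 7) (.e (nat_lit 409649) (nat_lit 18) (.e (nat_lit 303140) (nat_lit 10) (.e (nat_lit 434272) (nat_lit 38) (.e (nat_lit 655390) (nat_lit 9) (.e (nat_lit 1270) (nat_lit 93) .nil))))))) (.g (nat_lit 6) .nil .nil))) 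
(.lf (nat_lit 233983) (.g (nat_lit 2467) (.e (nat_lit 106534) (nat_lit 11) (.e (nat_lit 16433) (nat_lit 9) (.e (nat_lit 426555) (nat_lit 32) (.e (nat_lit 376859) (nat_lit 21) (.e (nat_lit 57848) (nat_lit 252) (.e (nat_lit 57386) (nat_lit 4) .nil)))))) (.g (nat_lit 4) .nil .nil)))))))))

noncomputable def tv3058 : DT := (.nd (nat_lit 0) (.nd (nat_lit 1) (.nd (nat_lit 2) (.nd (nat_lit 3) (.nd (nat_lit 4) (.nd (nat_lit 5) 
(.lf (nat_lit 233984) (.g (nat_lit 2685) (.e (nat_lit 106534) (nat_lit 11) (.e (nat_lit 16433) (nat_lit 9) (.e (nat_lit 426555) (nat_lit 32) (.e (nat_lit 376859) (nat_lit 21) (.e (nat_lit 57849) (nat_lit 252) (.e (nat_lit 57385) (nat_lit 4) .nil)))))) (.g (nat_lit 4) .nil .nil))) 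
(.lf (nat_lit 234016) (.g (nat_lit 2646) (.e (nat_lit 106534) (nat_lit 11) (.e (nat_lit 16435) (nat_lit 9) (.e (nat_lit 426555) (nat_lit 32) (.e (nat_lit 376859) (nat_lit 21) (.e (nat_lit 57847) (nat_lit 252) (.e (nat_lit 57386) (nat_lit 4) .nil)))))) (.g (nat_lit 5) .nil .nil)))) (.nd (nat_lit 5) 
(.lf (nat_lit 234000) (.g (nat_lit 1813) (.e (nat_lit 106534) (nat_lit 11) (.e (nat_lit 16434) (nat_lit 9) (.e (nat_lit 426555) (nat_lit 32) (.e (nat_lit 376859) (nat_lit 21) (.e (nat_lit 57851) (nat_lit 252) .nil))))) .nil)) 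
(.lf (nat_lit 234032) (.g (nat_lit 2477) (.e (nat_lit 106534) (nat_lit 11) (.e (nat_lit 16436) (nat_lit 9) (.e (nat_lit 426555) (nat_lit 32) (.e (nat_lit 376859) (nat_lit 21) (.e (nat_lit 57848) (nat_lit 252) (.e (nat_lit 57385) (nat_lit 4) .nil)))))) (.g (nat_lit 5) .nil .nil))))) (.nd (nat_lit 4) (.nd (nat_lit 5) 
(.lf (nat_lit 233992) (.g (nat_lit 2831) (.e (nat_lit 106534) (nat_lit 11) (.e (nat_lit 16434) (nat_lit 9) (.e (nat_lit 426555) (nat_lit 32) (.e (nat_lit 376857) (nat_lit 21) (.e (nat_lit 57848) (nat_lit 252) (.e (nat_lit 57386) (nat_lit 4) .nil)))))) (.g (nat_lit 4) .nil .nil))) 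
(.lf (nat_lit 234024) (.g (nat_lit 3221) (.e (nat_lit 106534) (nat_lit 11) (.e (nat_lit 16435) (nat_lit 9) (.e (nat_lit 426555) (nat_lit 32) (.e (nat_lit 376860) (nat_lit 21) (.e (nat_lit 57852) (nat_lit 252) (.e (nat_lit 57384) (nat_lit 4) .nil)))))) (.g (nat_lit 5) .nil .nil)))) (.nd (nat_lit 5) 
(.lf (nat_lit 234008) (.g (nat_lit 2843) (.e (nat_lit 106534) (nat_lit 11) (.e (nat_lit 16435) (nat_lit 9) (.e (nat_lit 426555) (nat_lit 32) (.e (nat_lit 376857) (nat_lit 21) (.e (nat_lit 57847) (nat_lit 252) (.e (nat_lit 57386) (nat_lit 4) .nil)))))) (.g (nat_lit 5) .nil .nil))) 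
(.lf (nat_lit 234040) (.g (nat_lit 1280) (.e (nat_lit 106534) (nat_lit 11) (.e (nat_lit 16437) (nat_lit 9) (.e (nat_lit 426546) (nat_lit 30) (.e (nat_lit 360452) (nat_lit 0) (.e (nat_lit 5194) (nat_lit 294) (.e (nat_lit 57383) (nat_lit 4) .nil)))))) (.g (nat_lit 4) .nil .nil)))))) (.nd (nat_lit 3) (.nd (nat_lit 4) (.nd (nat_lit 5) 
(.lf (nat_lit 233988) (.g (nat_lit 3439) (.e (nat_lit 106534) (nat_lit 11) (.e (nat_lit 16433) (nat_lit 9) (.e (nat_lit 426555) (nat_lit 32) (.e (nat_lit 376860) (nat_lit 21) (.e (nat_lit 57854) (nat_lit 252) (.e (nat_lit 57382) (nat_lit 4) .nil)))))) (.g (nat_lit 5) .nil .nil))) 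
(.lf (nat_lit 234020) (.g (nat_lit 2784) (.e (nat_lit 106534) (nat_lit 11) (.e (nat_lit 16435) (nat_lit 9) (.e (nat_lit 426555) (nat_lit 32) (.e (nat_lit 376859) (nat_lit 21) (.e (nat_lit 57849) (nat_lit 252) (.e (nat_lit 57385) (nat_lit 4) .nil)))))) (.g (nat_lit 5) .nil .nil)))) (.nd (nat_lit 5) 
(.lf (nat_lit 234004) (.g (nat_lit 767) (.e (nat_lit 106534) (nat_lit 11) (.e (nat_lit 16435) (nat_lit 9) (.e (nat_lit 426542) (nat_lit 29) .nil))) .nil)) 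
(.lf (nat_lit 234036) (.g (nat_lit 715) (.e (nat_lit 106534) (nat_lit 11) (.e (nat_lit 16437) (nat_lit 9) (.e (nat_lit 426542) (nat_lit 29) (.e (nat_lit 360192) (nat_lit 5) .nil)))) .nil)))) (.nd (nat_lit 4) (.nd (nat_lit 5) 
(.lf (nat_lit 233996) (.g (nat_lit 3118) (.e (nat_lit 106534) (nat_lit 11) (.e (nat_lit 16434) (nat_lit 9) (.e (nat_lit 426555) (nat_lit 32) (.e (nat_lit 376859) (nat_lit 21) (.e (nat_lit 57844) (nat_lit 252) (.e (nat_lit 57382) (nat_lit 4) .nil)))))) (.g (nat_lit 5) .nil .nil))) 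
(.lf (nat_lit 234028) (.g (nat_lit 2851) (.e (nat_lit 106534) (nat_lit 11) (.e (nat_lit 16436) (nat_lit 9) (.e (nat_lit 426555) (nat_lit 32) (.e (nat_lit 376857) (nat_lit 21) (.e (nat_lit 57848) (nat_lit 252) (.e (nat_lit 57386) (nat_lit 4) .nil)))))) (.g (nat_lit 6) .nil .nil)))) (.nd (nat_lit 5) 
(.lf (nat_lit 234012) (.g (nat_lit 2826) (.e (nat_lit 106534) (nat_lit 11) (.e (nat_lit 16435) (nat_lit 9) (.e (nat_lit 426555) (nat_lit 32) (.e (nat_lit 376857) (nat_lit 21) (.e (nat_lit 57849) (nat_lit 252) (.e (nat_lit 57385) (nat_lit 4) .nil)))))) (.g (nat_lit 5) .nil .nil))) 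
(.lf (nat_lit 234044) (.g (nat_lit 2632) (.e (nat_lit 106534) (nat_lit 11) (.e (nat_lit 16437) (nat_lit 9) (.e (nat_lit 426555) (nat_lit 32) (.e (nat_lit 376857) (nat_lit 21) (.e (nat_lit 57848) (nat_lit 252) (.e (nat_lit 57383) (nat_lit 4) .nil)))))) (.g (nat_lit 5) .nil .nil))))))) (.nd (nat_lit 2) (.nd (nat_lit 3) (.nd (nat_lit 4) (.nd (nat_lit 5) 
(.lf (nat_lit 233986) (.g (nat_lit 2359) (.e (nat_lit 106534) (nat_lit 11) (.e (nat_lit 16433) (nat_lit 9) (.e (nat_lit 426555) (nat_lit 32) (.e (nat_lit 376860) (nat_lit 21) (.e (nat_lit 57844) (nat_lit 252) .nil))))) .nil)) 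
(.lf (nat_lit 234018) (.g (nat_lit 2457) (.e (nat_lit 106534) (nat_lit 11) (.e (nat_lit 16435) (nat_lit 9) (.e (nat_lit 426555) (nat_lit 32) (.e (nat_lit 376859) (nat_lit 21) (.e (nat_lit 57848) (nat_lit 252) (.e (nat_lit 57385) (nat_lit 4) .nil)))))) (.g (nat_lit 4) .nil .nil)))) (.nd (nat_lit 5) 
(.lf (nat_lit 234002) (.g (nat_lit 3408) (.e (nat_lit 106534) (nat_lit 11) (.e (nat_lit 16434) (nat_lit 9) (.e (nat_lit 426555) (nat_lit 32) (.e (nat_lit 376860) (nat_lit 21) (.e (nat_lit 57854) (nat_lit 252) (.e (nat_lit 57384) (nat_lit 4) .nil)))))) (.g (nat_lit 5) .nil .nil))) 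
(.lf (nat_lit 234034) (.g (nat_lit 2965) (.e (nat_lit 106534) (nat_lit 11) (.e (nat_lit 16436) (nat_lit 9) (.e (nat_lit 426555) (nat_lit 32) (.e (nat_lit 376859) (nat_lit 21) (.e (nat_lit 57849) (nat_lit 252) (.e (nat_lit 57383) (nat_lit 4) .nil)))))) (.g (nat_lit 6) .nil .nil))))) (.nd (nat_lit 4) (.nd (nat_lit 5) 
(.lf (nat_lit 233994) (.g (nat_lit 2434) (.e (nat_lit 106534) (nat_lit 11) (.e (nat_lit 16434) (nat_lit 9) (.e (nat_lit 426555) (nat_lit 32) (.e (nat_lit 376857) (nat_lit 21) (.e (nat_lit 57851) (nat_lit 252) (.e (nat_lit 57382) (nat_lit 4) .nil)))))) (.g (nat_lit 4) .nil .nil))) 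
(.lf (nat_lit 234026) (.g (nat_lit 2931) (.e (nat_lit 106534) (nat_lit 11) (.e (nat_lit 16436) (nat_lit 9) (.e (nat_lit 426555) (nat_lit 32) (.e (nat_lit 376857) (nat_lit 21) (.e (nat_lit 57847) (nat_lit 252) (.e (nat_lit 57383) (nat_lit 4) .nil)))))) (.g (nat_lit 6) .nil .nil)))) (.nd (nat_lit 5) 
(.lf (nat_lit 234010) (.g (nat_lit 2561) (.e (nat_lit 106534) (nat_lit 11) (.e (nat_lit 16435) (nat_lit 9) (.e (nat_lit 426555) (nat_lit 32) (.e (nat_lit 376857) (nat_lit 21) (.e (nat_lit 57848) (nat_lit 252) (.e (nat_lit 57385) (nat_lit 4) .nil)))))) (.g (nat_lit 4) .nil .nil))) 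
(.lf (nat_lit 234042) (.g (nat_lit 2154) (.e (nat_lit 106534) (nat_lit 11) (.e (nat_lit 16437) (nat_lit 9) (.e (nat_lit 426546) (nat_lit 30) (.e (nat_lit 360452) (nat_lit 0) (.e (nat_lit 5195) (nat_lit 294) (.e (nat_lit 57383) (nat_lit 4) .nil)))))) (.g (nat_lit 6) .nil .nil)))))) (.nd (nat_lit 3) (.nd (nat_lit 4) (.nd (nat_lit 5) 
(.lf (nat_lit 233990) (.g (nat_lit 2550) (.e (nat_lit 106534) (nat_lit 11) (.e (nat_lit 16434) (nat_lit 9) (.e (nat_lit 426555) (nat_lit 32) (.e (nat_lit 376857) (nat_lit 21) (.e (nat_lit 57844) (nat_lit 252) (.e (nat_lit 57382) (nat_lit 4) .nil)))))) (.g (nat_lit 4) .nil .nil))) 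
(.lf (nat_lit 234022) (.g (nat_lit 1811) (.e (nat_lit 106534) (nat_lit 11) (.e (nat_lit 16435) (nat_lit 9) (.e (nat_lit 426555) (nat_lit 32) (.e (nat_lit 376859) (nat_lit 21) (.e (nat_lit 57851) (nat_lit 252) .nil))))) .nil))) (.nd (nat_lit 5) 
(.lf (nat_lit 234006) (.g (nat_lit 2802) (.e (nat_lit 106534) (nat_lit 11) (.e (nat_lit 16435) (nat_lit 9) (.e (nat_lit 426555) (nat_lit 32) (.e (nat_lit 376857) (nat_lit 21) (.e (nat_lit 57847) (nat_lit 252) (.e (nat_lit 57383) (nat_lit 4) .nil)))))) (.g (nat_lit 5) .nil .nil))) 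
(.lf (nat_lit 234038) (.g (nat_lit 2076) (.e (nat_lit 106534) (nat_lit 11) (.e (nat_lit 16437) (nat_lit 9) (.e (nat_lit 426544) (nat_lit 30) (.e (nat_lit 360453) (nat_lit 0) (.e (nat_lit 5195) (nat_lit 294) (.e (nat_lit 57383) (nat_lit 4) .nil)))))) (.g (nat_lit 5) .nil .nil))))) (.nd (nat_lit 4) (.nd (nat_lit 5) 
(.lf (nat_lit 233998) (.g (nat_lit 2471) (.e (nat_lit 106534) (nat_lit 11) (.e (nat_lit 16434) (nat_lit 9) (.e (nat_lit 426555) (nat_lit 32) (.e (nat_lit 376859) (nat_lit 21) (.e (nat_lit 57848) (nat_lit 252) (.e (nat_lit 57385) (nat_lit 4) .nil)))))) (.g (nat_lit 4) .nil .nil))) 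
(.lf (nat_lit 234030) (.g (nat_lit 2510) (.e (nat_lit 106534) (nat_lit 11) (.e (nat_lit 16436) (nat_lit 9) (.e (nat_lit 426555) (nat_lit 32) (.e (nat_lit 376857) (nat_lit 21) (.e (nat_lit 57851) (nat_lit 252) (.e (nat_lit 57382) (nat_lit 4) .nil)))))) (.g (nat_lit 5) .nil .nil)))) (.nd (nat_lit 5) 
(.lf (nat_lit 234014) (.g (nat_lit 2975) (.e (nat_lit 106534) (nat_lit 11) (.e (nat_lit 16435) (nat_lit 9) (.e (nat_lit 426555) (nat_lit 32) (.e (nat_lit 376857) (nat_lit 21) (.e (nat_lit 57852) (nat_lit 252) (.e (nat_lit 57384) (nat_lit 4) .nil)))))) (.g (nat_lit 5) .nil .nil))) 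
(.lf (nat_lit 234046) (.g (nat_lit 3222) (.e (nat_lit 106534) (nat_lit 11) (.e (nat_lit 16437) (nat_lit 9) (.e (nat_lit 426555) (nat_lit 32) (.e (nat_lit 376857) (nat_lit 21) (.e (nat_lit 57854) (nat_lit 252) (.e (nat_lit 57384) (nat_lit 4) .nil)))))) (.g (nat_lit 6) .nil .nil)))))))) (.nd (nat_lit 1) (.nd (nat_lit 2) (.nd (nat_lit 3) (.nd (nat_lit 4) (.nd (nat_lit 5) 
(.lf (nat_lit 233985) (.g (nat_lit 1955) (.e (nat_lit 106534) (nat_lit 11) (.e (nat_lit 16433) (nat_lit 9) (.e (nat_lit 426555) (nat_lit 32) (.e (nat_lit 376859) (nat_lit 21) (.e (nat_lit 57851) (nat_lit 252) .nil))))) .nil)) 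
(.lf (nat_lit 234017) (.g (nat_lit 2653) (.e (nat_lit 106534) (nat_lit 11) (.e (nat_lit 16435) (nat_lit 9) (.e (nat_lit 426555) (nat_lit 32) (.e (nat_lit 376859) (nat_lit 21) (.e (nat_lit 57848) (nat_lit 252) (.e (nat_lit 57383) (nat_lit 4) .nil)))))) (.g (nat_lit 5) .nil .nil)))) (.nd (nat_lit 5) 
(.lf (nat_lit 234001) (.g (nat_lit 2481) (.e (nat_lit 106534) (nat_lit 11) (.e (nat_lit 16434) (nat_lit 9) (.e (nat_lit 426555) (nat_lit 32) (.e (nat_lit 376860) (nat_lit 21) (.e (nat_lit 57851) (nat_lit 252) (.e (nat_lit 57382) (nat_lit 4) .nil)))))) (.g (nat_lit 4) .nil .nil))) 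
(.lf (nat_lit 234033) (.g (nat_lit 2710) (.e (nat_lit 106534) (nat_lit 11) (.e (nat_lit 16436) (nat_lit 9) (.e (nat_lit 426555) (nat_lit 32) (.e (nat_lit 376859) (nat_lit 21) (.e (nat_lit 57848) (nat_lit 252) (.e (nat_lit 57386) (nat_lit 4) .nil)))))) (.g (nat_lit 6) .nil .nil))))) (.nd (nat_lit 4) (.nd (nat_lit 5) 
(.lf (nat_lit 233993) (.g (nat_lit 3057) (.e (nat_lit 106534) (nat_lit 11) (.e (nat_lit 16434) (nat_lit 9) (.e (nat_lit 426555) (nat_lit 32) (.e (nat_lit 376857) (nat_lit 21) (.e (nat_lit 57849) (nat_lit 252) (.e (nat_lit 57386) (nat_lit 4) .nil)))))) (.g (nat_lit 5) .nil .nil))) 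
(.lf (nat_lit 234025) (.g (nat_lit 472) (.e (nat_lit 106534) (nat_lit 11) (.e (nat_lit 16436) (nat_lit 9) (.e (nat_lit 426555) (nat_lit 32) .nil))) .nil))) (.nd (nat_lit 5) 
(.lf (nat_lit 234009) (.g (nat_lit 2753) (.e (nat_lit 106534) (nat_lit 11) (.e (nat_lit 16435) (nat_lit 9) (.e (nat_lit 426555) (nat_lit 32) (.e (nat_lit 376857) (nat_lit 21) (.e (nat_lit 57848) (nat_lit 252) (.e (nat_lit 57383) (nat_lit 4) .nil)))))) (.g (nat_lit 5) .nil .nil))) 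
(.lf (nat_lit 234041) (.g (nat_lit 1272) (.e (nat_lit 106534) (nat_lit 11) (.e (nat_lit 16437) (nat_lit 9) (.e (nat_lit 426546) (nat_lit 30) (.e (nat_lit 360452) (nat_lit 0) (.e (nat_lit 5194) (nat_lit 294) (.e (nat_lit 57386) (nat_lit 4) .nil)))))) (.g (nat_lit 4) .nil .nil)))))) (.nd (nat_lit 3) (.nd (nat_lit 4) (.nd (nat_lit 5) 
(.lf (nat_lit 233989) (.g (nat_lit 875) (.e (nat_lit 106534) (nat_lit 11) (.e (nat_lit 16433) (nat_lit 9) (.e (nat_lit 426556) (nat_lit 32) .nil))) .nil)) 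
(.lf (nat_lit 234021) (.g (nat_lit 2875) (.e (nat_lit 106534) (nat_lit 11) (.e (nat_lit 16435) (nat_lit 9) (.e (nat_lit 426555) (nat_lit 32) (.e (nat_lit 376859) (nat_lit 21) (.e (nat_lit 57849) (nat_lit 252) (.e (nat_lit 57386) (nat_lit 4) .nil)))))) (.g (nat_lit 5) .nil .nil)))) (.nd (nat_lit 5) 
(.lf (nat_lit 234005) (.g (nat_lit 1685) (.e (nat_lit 106534) (nat_lit 11) (.e (nat_lit 16435) (nat_lit 9) (.e (nat_lit 426544) (nat_lit 30) (.e (nat_lit 360453) (nat_lit 0) (.e (nat_lit 5195) (nat_lit 294) .nil))))) .nil)) 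
(.lf (nat_lit 234037) (.g (nat_lit 2614) (.e (nat_lit 106534) (nat_lit 11) (.e (nat_lit 16437) (nat_lit 9) (.e (nat_lit 426543) (nat_lit 29) (.e (nat_lit 352309) (nat_lit 21) (.e (nat_lit 57848) (nat_lit 252) (.e (nat_lit 57383) (nat_lit 4) .nil)))))) (.g (nat_lit 5) .nil .nil))))) (.nd (nat_lit 4) (.nd (nat_lit 5) 
(.lf (nat_lit 233997) (.g (nat_lit 2680) (.e (nat_lit 106534) (nat_lit 11) (.e (nat_lit 16434) (nat_lit 9) (.e (nat_lit 426555) (nat_lit 32) (.e (nat_lit 376859) (nat_lit 21) (.e (nat_lit 57847) (nat_lit 252) (.e (nat_lit 57385) (nat_lit 4) .nil)))))) (.g (nat_lit 4) .nil .nil))) 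
(.lf (nat_lit 234029) (.g (nat_lit 3035) (.e (nat_lit 106534) (nat_lit 11) (.e (nat_lit 16436) (nat_lit 9) (.e (nat_lit 426555) (nat_lit 32) (.e (nat_lit 376857) (nat_lit 21) (.e (nat_lit 57849) (nat_lit 252) (.e (nat_lit 57383) (nat_lit 4) .nil)))))) (.g (nat_lit 6) .nil .nil)))) (.nd (nat_lit 5) 
(.lf (nat_lit 234013) (.g (nat_lit 2908) (.e (nat_lit 106534) (nat_lit 11) (.e (nat_lit 16435) (nat_lit 9) (.e (nat_lit 426555) (nat_lit 32) (.e (nat_lit 376857) (nat_lit 21) (.e (nat_lit 57849) (nat_lit 252) (.e (nat_lit 57386) (nat_lit 4) .nil)))))) (.g (nat_lit 5) .nil .nil))) 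
(.lf (nat_lit 234045) (.g (nat_lit 2752) (.e (nat_lit 106534) (nat_lit 11) (.e (nat_lit 16437) (nat_lit 9) (.e (nat_lit 426555) (nat_lit 32) (.e (nat_lit 376857) (nat_lit 21) (.e (nat_lit 57849) (nat_lit 252) (.e (nat_lit 57383) (nat_lit 4) .nil)))))) (.g (nat_lit 5) .nil .nil))))))) (.nd (nat_lit 2) (.nd (nat_lit 3) (.nd (nat_lit 4) (.nd (nat_lit 5) 
(.lf (nat_lit 233987) (.g (nat_lit 2976) (.e (nat_lit 106534) (nat_lit 11) (.e (nat_lit 16433) (nat_lit 9) (.e (nat_lit 426555) (nat_lit 32) (.e (nat_lit 376860) (nat_lit 21) (.e (nat_lit 57852) (nat_lit 252) (.e (nat_lit 57384) (nat_lit 4) .nil)))))) (.g (nat_lit 4) .nil .nil))) 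
(.lf (nat_lit 234019) (.g (nat_lit 2846) (.e (nat_lit 106534) (nat_lit 11) (.e (nat_lit 16435) (nat_lit 9) (.e (nat_lit 426555) (nat_lit 32) (.e (nat_lit 376859) (nat_lit 21) (.e (nat_lit 57849) (nat_lit 252) (.e (nat_lit 57383) (nat_lit 4) .nil)))))) (.g (nat_lit 5) .nil .nil)))) (.nd (nat_lit 5) 
(.lf (nat_lit 234003) (.g (nat_lit 767) (.e (nat_lit 106534) (nat_lit 11) (.e (nat_lit 16435) (nat_lit 9) (.e (nat_lit 426538) (nat_lit 29) .nil))) .nil)) 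
(.lf (nat_lit 234035) (.g (nat_lit 2449) (.e (nat_lit 106534) (nat_lit 11) (.e (nat_lit 16437) (nat_lit 9) (.e (nat_lit 426538) (nat_lit 29) (.e (nat_lit 352309) (nat_lit 21) (.e (nat_lit 57848) (nat_lit 252) (.e (nat_lit 57385) (nat_lit 4) .nil)))))) (.g (nat_lit 5) .nil .nil))))) (.nd (nat_lit 4) (.nd (nat_lit 5) 
(.lf (nat_lit 233995) (.g (nat_lit 3237) (.e (nat_lit 106534) (nat_lit 11) (.e (nat_lit 16434) (nat_lit 9) (.e (nat_lit 426555) (nat_lit 32) (.e (nat_lit 376857) (nat_lit 21) (.e (nat_lit 57854) (nat_lit 252) (.e (nat_lit 57384) (nat_lit 4) .nil)))))) (.g (nat_lit 5) .nil .nil))) 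
(.lf (nat_lit 234027) (.g (nat_lit 2616) (.e (nat_lit 106534) (nat_lit 11) (.e (nat_lit 16436) (nat_lit 9) (.e (nat_lit 426555) (nat_lit 32) (.e (nat_lit 376857) (nat_lit 21) (.e (nat_lit 57848) (nat_lit 252) (.e (nat_lit 57385) (nat_lit 4) .nil)))))) (.g (nat_lit 5) .nil .nil)))) (.nd (nat_lit 5) 
(.lf (nat_lit 234011) (.g (nat_lit 2920) (.e (nat_lit 106534) (nat_lit 11) (.e (nat_lit 16435) (nat_lit 9) (.e (nat_lit 426555) (nat_lit 32) (.e (nat_lit 376857) (nat_lit 21) (.e (nat_lit 57849) (nat_lit 252) (.e (nat_lit 57383) (nat_lit 4) .nil)))))) (.g (nat_lit 5) .nil .nil))) 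
(.lf (nat_lit 234043) (.g (nat_lit 2662) (.e (nat_lit 106534) (nat_lit 11) (.e (nat_lit 16437) (nat_lit 9) (.e (nat_lit 426555) (nat_lit 32) (.e (nat_lit 376857) (nat_lit 21) (.e (nat_lit 57847) (nat_lit 252) (.e (nat_lit 57383) (nat_lit 4) .nil)))))) (.g (nat_lit 5) .nil .nil)))))) (.nd (nat_lit 3) (.nd (nat_lit 4) (.nd (nat_lit 5) 
(.lf (nat_lit 233991) (.g (nat_lit 2633) (.e (nat_lit 106534) (nat_lit 11) (.e (nat_lit 16434) (nat_lit 9) (.e (nat_lit 426555) (nat_lit 32) (.e (nat_lit 376857) (nat_lit 21) (.e (nat_lit 57848) (nat_lit 252) (.e (nat_lit 57385) (nat_lit 4) .nil)))))) (.g (nat_lit 4) .nil .nil))) 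
(.lf (nat_lit 234023) (.g (nat_lit 2453) (.e (nat_lit 106534) (nat_lit 11) (.e (nat_lit 16435) (nat_lit 9) (.e (nat_lit 426555) (nat_lit 32) (.e (nat_lit 376860) (nat_lit 21) (.e (nat_lit 57851) (nat_lit 252) (.e (nat_lit 57382) (nat_lit 4) .nil)))))) (.g (nat_lit 4) .nil .nil)))) (.nd (nat_lit 5) 
(.lf (nat_lit 234007) (.g (nat_lit 2853) (.e (nat_lit 106534) (nat_lit 11) (.e (nat_lit 16435) (nat_lit 9) (.e (nat_lit 426555) (nat_lit 32) (.e (nat_lit 376857) (nat_lit 21) (.e (nat_lit 57847) (nat_lit 252) (.e (nat_lit 57385) (nat_lit 4) .nil)))))) (.g (nat_lit 5) .nil .nil))) 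
(.lf (nat_lit 234039) (.g (nat_lit 2026) (.e (nat_lit 106534) (nat_lit 11) (.e (nat_lit 16437) (nat_lit 9) (.e (nat_lit 426544) (nat_lit 30) (.e (nat_lit 360453) (nat_lit 0) (.e (nat_lit 5195) (nat_lit 294) (.e (nat_lit 57385) (nat_lit 4) .nil)))))) (.g (nat_lit 5) .nil .nil))))) (.nd (nat_lit 4) (.nd (nat_lit 5) 
(.lf (nat_lit 233999) (.g (nat_lit 2667) (.e (nat_lit 106534) (nat_lit 11) (.e (nat_lit 16434) (nat_lit 9) (.e (nat_lit 426555) (nat_lit 32) (.e (nat_lit 376859) (nat_lit 21) (.e (nat_lit 57848) (nat_lit 252) (.e (nat_lit 57386) (nat_lit 4) .nil)))))) (.g (nat_lit 4) .nil .nil))) 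
(.lf (nat_lit 234031) (.g (nat_lit 3443) (.e (nat_lit 106534) (nat_lit 11) (.e (nat_lit 16436) (nat_lit 9) (.e (nat_lit 426555) (nat_lit 32) (.e (nat_lit 376857) (nat_lit 21) (.e (nat_lit 57854) (nat_lit 252) (.e (nat_lit 57382) (nat_lit 4) .nil)))))) (.g (nat_lit 6) .nil .nil)))) (.nd (nat_lit 5) 
(.lf (nat_lit 234015) (.g (nat_lit 2612) (.e (nat_lit 106534) (nat_lit 11) (.e (nat_lit 16435) (nat_lit 9) (.e (nat_lit 426555) (nat_lit 32) (.e (nat_lit 376859) (nat_lit 21) (.e (nat_lit 57847) (nat_lit 252) (.e (nat_lit 57383) (nat_lit 4) .nil)))))) (.g (nat_lit 5) .nil .nil))) 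
(.lf (nat_lit 234047) (.g (nat_lit 2472) (.e (nat_lit 106534) (nat_lit 11) (.e (nat_lit 16437) (nat_lit 9) (.e (nat_lit 426555) (nat_lit 32) (.e (nat_lit 376859) (nat_lit 21) (.e (nat_lit 57847) (nat_lit 252) (.e (nat_lit 57383) (nat_lit 4) .nil)))))) (.g (nat_lit 5) .nil .nil)))))))))

noncomputable def tv3059 : DT := (.nd (nat_lit 0) (.nd (nat_lit 1) (.nd (nat_lit 2) (.nd (nat_lit 3) (.nd (nat_lit 4) (.nd (nat_lit 5) 
(.lf (nat_lit 234048) (.g (nat_lit 2508) (.e (nat_lit 106534) (nat_lit 11) (.e (nat_lit 16437) (nat_lit 9) (.e (nat_lit 426555) (nat_lit 32) (.e (nat_lit 376859) (nat_lit 21) (.e (nat_lit 57848) (nat_lit 252) (.e (nat_lit 57383) (nat_lit 4) .nil)))))) (.g (nat_lit 5) .nil .nil))) 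
(.lf (nat_lit 234080) (.g (nat_lit 2840) (.e (nat_lit 106534) (nat_lit 11) (.e (nat_lit 16438) (nat_lit 9) (.e (nat_lit 426555) (nat_lit 32) (.e (nat_lit 376859) (nat_lit 21) (.e (nat_lit 57847) (nat_lit 252) (.e (nat_lit 57385) (nat_lit 4) .nil)))))) (.g (nat_lit 6) .nil .nil)))) (.nd (nat_lit 5) 
(.lf (nat_lit 234064) (.g (nat_lit 2528) (.e (nat_lit 106534) (nat_lit 11) (.e (nat_lit 16438) (nat_lit 9) (.e (nat_lit 426544) (nat_lit 30) (.e (nat_lit 360453) (nat_lit 0) (.e (nat_lit 5195) (nat_lit 294) (.e (nat_lit 57386) (nat_lit 4) .nil)))))) (.g (nat_lit 0) .nil .nil))) 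
(.lf (nat_lit 234096) (.g (nat_lit 2943) (.e (nat_lit 106534) (nat_lit 11) (.e (nat_lit 16462) (nat_lit 13) (.e (nat_lit 483383) (nat_lit 23) (.e (nat_lit 336336) (nat_lit 20) (.e (nat_lit 229120) (nat_lit 4) .nil))))) (.g (nat_lit 4) .nil .nil))))) (.nd (nat_lit 4) (.nd (nat_lit 5) 
(.lf (nat_lit 234056) (.g (nat_lit 2845) (.e (nat_lit 106534) (nat_lit 11) (.e (nat_lit 16438) (nat_lit 9) (.e (nat_lit 426542) (nat_lit 29) (.e (nat_lit 352307) (nat_lit 21) (.e (nat_lit 57844) (nat_lit 252) (.e (nat_lit 57382) (nat_lit 4) .nil)))))) (.g (nat_lit 5) .nil .nil))) 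
(.lf (nat_lit 234088) (.g (nat_lit 585) (.e (nat_lit 106534) (nat_lit 11) (.e (nat_lit 16438) (nat_lit 9) (.e (nat_lit 426556) (nat_lit 32) .nil))) .nil))) (.nd (nat_lit 5) 
(.lf (nat_lit 234072) (.g (nat_lit 2993) (.e (nat_lit 106534) (nat_lit 11) (.e (nat_lit 16438) (nat_lit 9) (.e (nat_lit 426555) (nat_lit 32) (.e (nat_lit 376857) (nat_lit 21) (.e (nat_lit 57847) (nat_lit 252) (.e (nat_lit 57385) (nat_lit 4) .nil)))))) (.g (nat_lit 6) .nil .nil))) 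
(.lf (nat_lit 234104) (.g (nat_lit 2019) (.e (nat_lit 106534) (nat_lit 11) (.e (nat_lit 16463) (nat_lit 13) (.e (nat_lit 483393) (nat_lit 23) (.e (nat_lit 335996) (nat_lit 1) (.e (nat_lit 57851) (nat_lit 252) .nil))))) .nil))))) (.nd (nat_lit 3) (.nd (nat_lit 4) (.nd (nat_lit 5) 
(.lf (nat_lit 234052) (.g (nat_lit 557) (.e (nat_lit 106534) (nat_lit 11) (.e (nat_lit 16438) (nat_lit 9) (.e (nat_lit 426482) (nat_lit 27) .nil))) .nil)) 
(.lf (nat_lit 234084) (.g (nat_lit 3173) (.e (nat_lit 106534) (nat_lit 11) (.e (nat_lit 16438) (nat_lit 9) (.e (nat_lit 426555) (nat_lit 32) (.e (nat_lit 376859) (nat_lit 21) (.e (nat_lit 57849) (nat_lit 252) (.e (nat_lit 57386) (nat_lit 4) .nil)))))) (.g (nat_lit 0) .nil .nil)))) (.nd (nat_lit 5) 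
(.lf (nat_lit 234068) (.g (nat_lit 2261) (.e (nat_lit 106534) (nat_lit 11) (.e (nat_lit 16438) (nat_lit 9) (.e (nat_lit 426546) (nat_lit 30) (.e (nat_lit 360452) (nat_lit 0) (.e (nat_lit 5195) (nat_lit 294) (.e (nat_lit 57385) (nat_lit 4) .nil)))))) (.g (nat_lit 0) .nil .nil))) 
(.lf (nat_lit 234100) (.g (nat_lit 472) (.e (nat_lit 106534) (nat_lit 11) (.e (nat_lit 16463) (nat_lit 13) (.e (nat_lit 483385) (nat_lit 23) .nil))) .nil)))) (.nd (nat_lit 4) (.nd (nat_lit 5) 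
(.lf (nat_lit 234060) (.g (nat_lit 2884) (.e (nat_lit 106534) (nat_lit 11) (.e (nat_lit 16438) (nat_lit 9) (.e (nat_lit 426542) (nat_lit 29) (.e (nat_lit 352309) (nat_lit 21) (.e (nat_lit 57848) (nat_lit 252) (.e (nat_lit 57385) (nat_lit 4) .nil)))))) (.g (nat_lit 5) .nil .nil))) 
(.lf (nat_lit 234092) (.g (nat_lit 2209) (.e (nat_lit 106534) (nat_lit 11) (.e (nat_lit 16456) (nat_lit 12) (.e (nat_lit 475214) (nat_lit 42) (.e (nat_lit 720955) (nat_lit 25) .nil)))) .nil))) (.nd (nat_lit 5) 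
(.lf (nat_lit 234076) (.g (nat_lit 3019) (.e (nat_lit 106534) (nat_lit 11) (.e (nat_lit 16438) (nat_lit 9) (.e (nat_lit 426555) (nat_lit 32) (.e (nat_lit 376857) (nat_lit 21) (.e (nat_lit 57852) (nat_lit 252) (.e (nat_lit 57384) (nat_lit 4) .nil)))))) (.g (nat_lit 6) .nil .nil))) 
(.lf (nat_lit 234108) (.g (nat_lit 2291) (.e (nat_lit 106534) (nat_lit 11) (.e (nat_lit 16463) (nat_lit 13) (.e (nat_lit 483408) (nat_lit 26) (.e (nat_lit 385107) (nat_lit 51) (.e (nat_lit 802560) (nat_lit 4) .nil))))) (.g (nat_lit 4) .nil .nil))))))) (.nd (nat_lit 2) (.nd (nat_lit 3) (.nd (nat_lit 4) (.nd (nat_lit 5) 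
(.lf (nat_lit 234050) (.g (nat_lit 1608) (.e (nat_lit 106534) (nat_lit 11) (.e (nat_lit 16437) (nat_lit 9) (.e (nat_lit 426555) (nat_lit 32) (.e (nat_lit 376859) (nat_lit 21) (.e (nat_lit 57851) (nat_lit 252) .nil))))) .nil)) 
(.lf (nat_lit 234082) (.g (nat_lit 2803) (.e (nat_lit 106534) (nat_lit 11) (.e (nat_lit 16438) (nat_lit 9) (.e (nat_lit 426555) (nat_lit 32) (.e (nat_lit 376859) (nat_lit 21) (.e (nat_lit 57848) (nat_lit 252) (.e (nat_lit 57383) (nat_lit 4) .nil)))))) (.g (nat_lit 6) .nil .nil)))) (.nd (nat_lit 5) 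
(.lf (nat_lit 234066) (.g (nat_lit 1087) (.e (nat_lit 106534) (nat_lit 11) (.e (nat_lit 16438) (nat_lit 9) (.e (nat_lit 426546) (nat_lit 30) (.e (nat_lit 360452) (nat_lit 0) (.e (nat_lit 5193) (nat_lit 294) .nil))))) .nil)) 
(.lf (nat_lit 234098) (.g (nat_lit 2807) (.e (nat_lit 106534) (nat_lit 11) (.e (nat_lit 16462) (nat_lit 13) (.e (nat_lit 483406) (nat_lit 26) (.e (nat_lit 385109) (nat_lit 51) (.e (nat_lit 802560) (nat_lit 4) .nil))))) (.g (nat_lit 4) .nil .nil))))) (.nd (nat_lit 4) (.nd (nat_lit 5) 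
(.lf (nat_lit 234058) (.g (nat_lit 2657) (.e (nat_lit 106534) (nat_lit 11) (.e (nat_lit 16438) (nat_lit 9) (.e (nat_lit 426542) (nat_lit 29) (.e (nat_lit 352307) (nat_lit 21) (.e (nat_lit 57848) (nat_lit 252) (.e (nat_lit 57385) (nat_lit 4) .nil)))))) (.g (nat_lit 5) .nil .nil))) 
(.lf (nat_lit 234090) (.g (nat_lit 1894) (.e (nat_lit 106534) (nat_lit 11) (.e (nat_lit 16446) (nat_lit 9) (.e (nat_lit 426500) (nat_lit 27) (.e (nat_lit 336194) (nat_lit 12) (.e (nat_lit 385109) (nat_lit 51) .nil))))) .nil))) (.nd (nat_lit 5) 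
(.lf (nat_lit 234074) (.g (nat_lit 2728) (.e (nat_lit 106534) (nat_lit 11) (.e (nat_lit 16438) (nat_lit 9) (.e (nat_lit 426555) (nat_lit 32) (.e (nat_lit 376857) (nat_lit 21) (.e (nat_lit 57848) (nat_lit 252) (.e (nat_lit 57385) (nat_lit 4) .nil)))))) (.g (nat_lit 5) .nil .nil))) 
(.lf (nat_lit 234106) (.g (nat_lit 952) (.e (nat_lit 106534) (nat_lit 11) (.e (nat_lit 16463) (nat_lit 13) (.e (nat_lit 483405) (nat_lit 26) .nil))) .nil))))) (.nd (nat_lit 3) (.nd (nat_lit 4) (.nd (nat_lit 5) 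
(.lf (nat_lit 234054) (.g (nat_lit 2701) (.e (nat_lit 106534) (nat_lit 11) (.e (nat_lit 16438) (nat_lit 9) (.e (nat_lit 426538) (nat_lit 29) (.e (nat_lit 352309) (nat_lit 21) (.e (nat_lit 57848) (nat_lit 252) (.e (nat_lit 57383) (nat_lit 4) .nil)))))) (.g (nat_lit 5) .nil .nil))) 
(.lf (nat_lit 234086) (.g (nat_lit 3310) (.e (nat_lit 106534) (nat_lit 11) (.e (nat_lit 16438) (nat_lit 9) (.e (nat_lit 426555) (nat_lit 32) (.e (nat_lit 376860) (nat_lit 21) (.e (nat_lit 57852) (nat_lit 252) (.e (nat_lit 57384) (nat_lit 4) .nil)))))) (.g (nat_lit 6) .nil .nil)))) (.nd (nat_lit 5) 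
(.lf (nat_lit 234070) (.g (nat_lit 2521) (.e (nat_lit 106534) (nat_lit 11) (.e (nat_lit 16438) (nat_lit 9) (.e (nat_lit 426555) (nat_lit 32) (.e (nat_lit 376857) (nat_lit 21) (.e (nat_lit 57844) (nat_lit 252) (.e (nat_lit 57382) (nat_lit 4) .nil)))))) (.g (nat_lit 4) .nil .nil))) 
(.lf (nat_lit 234102) (.g (nat_lit 2163) (.e (nat_lit 106534) (nat_lit 11) (.e (nat_lit 16463) (nat_lit 13) (.e (nat_lit 483385) (nat_lit 23) (.e (nat_lit 336336) (nat_lit 20) (.e (nat_lit 229120) (nat_lit 4) .nil))))) (.g (nat_lit 4) .nil .nil))))) (.nd (nat_lit 4) (.nd (nat_lit 5) 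
(.lf (nat_lit 234062) (.g (nat_lit 1219) (.e (nat_lit 106534) (nat_lit 11) (.e (nat_lit 16438) (nat_lit 9) (.e (nat_lit 426544) (nat_lit 30) (.e (nat_lit 360453) (nat_lit 0) (.e (nat_lit 5194) (nat_lit 294) .nil))))) .nil)) 
(.lf (nat_lit 234094) (.g (nat_lit 1382) (.e (nat_lit 106534) (nat_lit 11) (.e (nat_lit 16458) (nat_lit 12) (.e (nat_lit 475214) (nat_lit 42) (.e (nat_lit 728832) (nat_lit 1) .nil)))) .nil))) (.nd (nat_lit 5) 
(.lf (nat_lit 234078) (.g (nat_lit 1680) (.e (nat_lit 106534) (nat_lit 11) (.e (nat_lit 16438) (nat_lit 9) (.e (nat_lit 426555) (nat_lit 32) (.e (nat_lit 376858) (nat_lit 21) .nil)))) .nil)) 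
(.lf (nat_lit 234110) (.g (nat_lit 1786) (.e (nat_lit 106534) (nat_lit 11) (.e (nat_lit 16464) (nat_lit 13) (.e (nat_lit 483380) (nat_lit 23) (.e (nat_lit 336336) (nat_lit 20) (.e (nat_lit 229120) (nat_lit 4) .nil))))) .nil))))))) (.nd (nat_lit 1) (.nd (nat_lit 2) (.nd (nat_lit 3) (.nd (nat_lit 4) (.nd (nat_lit 5) 
(.lf (nat_lit 234049) (.g (nat_lit 2672) (.e (nat_lit 106534) (nat_lit 11) (.e (nat_lit 16437) (nat_lit 9) (.e (nat_lit 426555) (nat_lit 32) (.e (nat_lit 376859) (nat_lit 21) (.e (nat_lit 57849) (nat_lit 252) (.e (nat_lit 57383) (nat_lit 4) .nil)))))) (.g (nat_lit 5) .nil .nil))) 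
(.lf (nat_lit 234081) (.g (nat_lit 2964) (.e (nat_lit 106534) (nat_lit 11) (.e (nat_lit 16438) (nat_lit 9) (.e (nat_lit 426555) (nat_lit 32) (.e (nat_lit 376859) (nat_lit 21) (.e (nat_lit 57847) (nat_lit 252) (.e (nat_lit 57386) (nat_lit 4) .nil)))))) (.g (nat_lit 0) .nil .nil)))) (.nd (nat_lit 5) 
(.lf (nat_lit 234065) (.g (nat_lit 736) (.e (nat_lit 106534) (nat_lit 11) (.e (nat_lit 16438) (nat_lit 9) (.e (nat_lit 426544) (nat_lit 30) (.e (nat_lit 368384) (nat_lit 0) .nil)))) .nil)) 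
(.lf (nat_lit 234097) (.g (nat_lit 1342) (.e (nat_lit 106534) (nat_lit 11) (.e (nat_lit 16462) (nat_lit 13) (.e (nat_lit 483405) (nat_lit 26) (.e (nat_lit 385107) (nat_lit 51) (.e (nat_lit 802560) (nat_lit 4) .nil))))) .nil)))) (.nd (nat_lit 4) (.nd (nat_lit 5) 
(.lf (nat_lit 234057) (.g (nat_lit 2840) (.e (nat_lit 106534) (nat_lit 11) (.e (nat_lit 16438) (nat_lit 9) (.e (nat_lit 426542) (nat_lit 29) (.e (nat_lit 352307) (nat_lit 21) (.e (nat_lit 57848) (nat_lit 252) (.e (nat_lit 57383) (nat_lit 4) .nil)))))) (.g (nat_lit 0) .nil .nil))) 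
(.lf (nat_lit 234089) (.g (nat_lit 1343) (.e (nat_lit 106534) (nat_lit 11) (.e (nat_lit 16439) (nat_lit 9) (.e (nat_lit 426499) (nat_lit 27) (.e (nat_lit 336196) (nat_lit 12) .nil)))) .nil))) (.nd (nat_lit 5) 
(.lf (nat_lit 234073) (.g (nat_lit 2900) (.e (nat_lit 106534) (nat_lit 11) (.e (nat_lit 16438) (nat_lit 9) (.e (nat_lit 426555) (nat_lit 32) (.e (nat_lit 376857) (nat_lit 21) (.e (nat_lit 57848) (nat_lit 252) (.e (nat_lit 57383) (nat_lit 4) .nil)))))) (.g (nat_lit 0) .nil .nil))) 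
(.lf (nat_lit 234105) (.g (nat_lit 1742) (.e (nat_lit 106534) (nat_lit 11) (.e (nat_lit 16463) (nat_lit 13) (.e (nat_lit 483403) (nat_lit 26) (.e (nat_lit 385109) (nat_lit 51) .nil)))) .nil))))) (.nd (nat_lit 3) (.nd (nat_lit 4) (.nd (nat_lit 5) 
(.lf (nat_lit 234053) (.g (nat_lit 3006) (.e (nat_lit 106534) (nat_lit 11) (.e (nat_lit 16438) (nat_lit 9) (.e (nat_lit 426482) (nat_lit 27) (.e (nat_lit 336089) (nat_lit 9) (.e (nat_lit 336336) (nat_lit 20) (.e (nat_lit 229120) (nat_lit 4) .nil)))))) (.g (nat_lit 5) .nil .nil))) 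
(.lf (nat_lit 234085) (.g (nat_lit 1860) (.e (nat_lit 106534) (nat_lit 11) (.e (nat_lit 16438) (nat_lit 9) (.e (nat_lit 426555) (nat_lit 32) (.e (nat_lit 376859) (nat_lit 21) (.e (nat_lit 57851) (nat_lit 252) .nil))))) .nil))) (.nd (nat_lit 5) 
(.lf (nat_lit 234069) (.g (nat_lit 1539) (.e (nat_lit 106534) (nat_lit 11) (.e (nat_lit 16438) (nat_lit 9) (.e (nat_lit 426555) (nat_lit 32) (.e (nat_lit 376856) (nat_lit 21) .nil)))) .nil)) 
(.lf (nat_lit 234101) (.g (nat_lit 1758) (.e (nat_lit 106534) (nat_lit 11) (.e (nat_lit 16463) (nat_lit 13) (.e (nat_lit 483385) (nat_lit 23) (.e (nat_lit 336334) (nat_lit 20) (.e (nat_lit 229120) (nat_lit 4) .nil))))) .nil)))) (.nd (nat_lit 4) (.nd (nat_lit 5) 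
(.lf (nat_lit 234061) (.g (nat_lit 3100) (.e (nat_lit 106534) (nat_lit 11) (.e (nat_lit 16438) (nat_lit 9) (.e (nat_lit 426542) (nat_lit 29) (.e (nat_lit 352309) (nat_lit 21) (.e (nat_lit 57849) (nat_lit 252) (.e (nat_lit 57383) (nat_lit 4) .nil)))))) (.g (nat_lit 6) .nil .nil))) 
(.lf (nat_lit 234093) (.g (nat_lit 1778) (.e (nat_lit 106534) (nat_lit 11) (.e (nat_lit 16456) (nat_lit 12) (.e (nat_lit 475214) (nat_lit 42) (.e (nat_lit 720956) (nat_lit 25) .nil)))) .nil))) (.nd (nat_lit 5) 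
(.lf (nat_lit 234077) (.g (nat_lit 2807) (.e (nat_lit 106534) (nat_lit 11) (.e (nat_lit 16438) (nat_lit 9) (.e (nat_lit 426555) (nat_lit 32) (.e (nat_lit 376857) (nat_lit 21) (.e (nat_lit 57853) (nat_lit 252) (.e (nat_lit 57382) (nat_lit 4) .nil)))))) (.g (nat_lit 5) .nil .nil))) 
(.lf (nat_lit 234109) (.g (nat_lit 1380) (.e (nat_lit 106534) (nat_lit 11) (.e (nat_lit 16463) (nat_lit 13) (.e (nat_lit 483408) (nat_lit 26) (.e (nat_lit 385110) (nat_lit 52) .nil)))) .nil)))))) (.nd (nat_lit 2) (.nd (nat_lit 3) (.nd (nat_lit 4) (.nd (nat_lit 5) 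
(.lf (nat_lit 234051) (.g (nat_lit 3318) (.e (nat_lit 106534) (nat_lit 11) (.e (nat_lit 16437) (nat_lit 9) (.e (nat_lit 426555) (nat_lit 32) (.e (nat_lit 376860) (nat_lit 21) (.e (nat_lit 57854) (nat_lit 252) (.e (nat_lit 57384) (nat_lit 4) .nil)))))) (.g (nat_lit 6) .nil .nil))) 
(.lf (nat_lit 234083) (.g (nat_lit 2627) (.e (nat_lit 106534) (nat_lit 11) (.e (nat_lit 16438) (nat_lit 9) (.e (nat_lit 426555) (nat_lit 32) (.e (nat_lit 376859) (nat_lit 21) (.e (nat_lit 57848) (nat_lit 252) (.e (nat_lit 57385) (nat_lit 4) .nil)))))) (.g (nat_lit 5) .nil .nil)))) (.nd (nat_lit 5) 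
(.lf (nat_lit 234067) (.g (nat_lit 1324) (.e (nat_lit 106534) (nat_lit 11) (.e (nat_lit 16438) (nat_lit 9) (.e (nat_lit 426546) (nat_lit 30) (.e (nat_lit 360452) (nat_lit 0) (.e (nat_lit 5194) (nat_lit 294) (.e (nat_lit 57385) (nat_lit 4) .nil)))))) (.g (nat_lit 4) .nil .nil))) 
(.lf (nat_lit 234099) (.g (nat_lit 1638) (.e (nat_lit 106534) (nat_lit 11) (.e (nat_lit 16463) (nat_lit 13) (.e (nat_lit 483380) (nat_lit 23) (.e (nat_lit 336336) (nat_lit 20) .nil)))) .nil)))) (.nd (nat_lit 4) (.nd (nat_lit 5) 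
(.lf (nat_lit 234059) (.g (nat_lit 1026) (.e (nat_lit 106534) (nat_lit 11) (.e (nat_lit 16438) (nat_lit 9) (.e (nat_lit 426542) (nat_lit 29) (.e (nat_lit 352309) (nat_lit 21) .nil)))) .nil)) 
(.lf (nat_lit 234091) (.g (nat_lit 1516) (.e (nat_lit 106534) (nat_lit 11) (.e (nat_lit 16456) (nat_lit 12) (.e (nat_lit 475214) (nat_lit 42) (.e (nat_lit 728832) (nat_lit 1) .nil)))) .nil))) (.nd (nat_lit 5) 
(.lf (nat_lit 234075) (.g (nat_lit 3198) (.e (nat_lit 106534) (nat_lit 11) (.e (nat_lit 16438) (nat_lit 9) (.e (nat_lit 426555) (nat_lit 32) (.e (nat_lit 376857) (nat_lit 21) (.e (nat_lit 57849) (nat_lit 252) (.e (nat_lit 57386) (nat_lit 4) .nil)))))) (.g (nat_lit 0) .nil .nil))) 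
(.lf (nat_lit 234107) (.g (nat_lit 1431) (.e (nat_lit 106534) (nat_lit 11) (.e (nat_lit 16463) (nat_lit 13) (.e (nat_lit 483408) (nat_lit 26) (.e (nat_lit 385100) (nat_lit 49) .nil)))) .nil))))) (.nd (nat_lit 3) (.nd (nat_lit 4) (.nd (nat_lit 5) 
(.lf (nat_lit 234055) (.g (nat_lit 2869) (.e (nat_lit 106534) (nat_lit 11) (.e (nat_lit 16438) (nat_lit 9) (.e (nat_lit 426538) (nat_lit 29) (.e (nat_lit 352309) (nat_lit 21) (.e (nat_lit 57848) (nat_lit 252) (.e (nat_lit 57386) (nat_lit 4) .nil)))))) (.g (nat_lit 5) .nil .nil))) 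
(.lf (nat_lit 234087) (.g (nat_lit 2929) (.e (nat_lit 106534) (nat_lit 11) (.e (nat_lit 16438) (nat_lit 9) (.e (nat_lit 426555) (nat_lit 32) (.e (nat_lit 376860) (nat_lit 21) (.e (nat_lit 57853) (nat_lit 252) (.e (nat_lit 57382) (nat_lit 4) .nil)))))) (.g (nat_lit 5) .nil .nil)))) (.nd (nat_lit 5) 
(.lf (nat_lit 234071) (.g (nat_lit 2929) (.e (nat_lit 106534) (nat_lit 11) (.e (nat_lit 16438) (nat_lit 9) (.e (nat_lit 426555) (nat_lit 32) (.e (nat_lit 376857) (nat_lit 21) (.e (nat_lit 57847) (nat_lit 252) (.e (nat_lit 57383) (nat_lit 4) .nil)))))) (.g (nat_lit 5) .nil .nil))) 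
(.lf (nat_lit 234103) (.g (nat_lit 2616) (.e (nat_lit 106534) (nat_lit 11) (.e (nat_lit 16463) (nat_lit 13) (.e (nat_lit 483393) (nat_lit 23) (.e (nat_lit 335988) (nat_lit 1) (.e (nat_lit 57854) (nat_lit 252) (.e (nat_lit 57384) (nat_lit 4) .nil)))))) (.g (nat_lit 4) .nil .nil))))) (.nd (nat_lit 4) (.nd (nat_lit 5) 
(.lf (nat_lit 234063) (.g (nat_lit 2419) (.e (nat_lit 106534) (nat_lit 11) (.e (nat_lit 16438) (nat_lit 9) (.e (nat_lit 426544) (nat_lit 30) (.e (nat_lit 360453) (nat_lit 0) (.e (nat_lit 5195) (nat_lit 294) (.e (nat_lit 57385) (nat_lit 4) .nil)))))) (.g (nat_lit 0) .nil .nil))) 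
(.lf (nat_lit 234095) (.g (nat_lit 2695) (.e (nat_lit 106534) (nat_lit 11) (.e (nat_lit 16462) (nat_lit 13) (.e (nat_lit 483380) (nat_lit 23) (.e (nat_lit 336336) (nat_lit 20) (.e (nat_lit 229120) (nat_lit 4) .nil))))) .nil))) (.nd (nat_lit 5) 
(.lf (nat_lit 234079) (.g (nat_lit 2773) (.e (nat_lit 106534) (nat_lit 11) (.e (nat_lit 16438) (nat_lit 9) (.e (nat_lit 426555) (nat_lit 32) (.e (nat_lit 376859) (nat_lit 21) (.e (nat_lit 57847) (nat_lit 252) (.e (nat_lit 57383) (nat_lit 4) .nil)))))) (.g (nat_lit 5) .nil .nil))) 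
(.lf (nat_lit 234111) (.g (nat_lit 2953) (.e (nat_lit 106534) (nat_lit 11) (.e (nat_lit 16464) (nat_lit 13) (.e (nat_lit 483383) (nat_lit 23) (.e (nat_lit 336000) (nat_lit 1) (.e (nat_lit 57849) (nat_lit 252) (.e (nat_lit 57383) (nat_lit 4) .nil)))))) (.g (nat_lit 4) .nil .nil)))))))))

noncomputable def tv3060 : DT := (.nd (nat_lit 0) (.nd (nat_lit 1) (.nd (nat_lit 2) (.nd (nat_lit 3) (.nd (nat_lit 4) (.nd (nat_lit 5) 
(.lf (nat_lit 234112) (.g (nat_lit 2086) (.e (nat_lit 106534) (nat_lit 11) (.e (nat_lit 16464) (nat_lit 13) (.e (nat_lit 483393) (nat_lit 23) (.e (nat_lit 335986) (nat_lit 1) (.e (nat_lit 57847) (nat_lit 252) (.e (nat_lit 57385) (nat_lit 4) .nil)))))) (.g (nat_lit 4) .nil .nil))) 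
(.lf (nat_lit 234144) (.g (nat_lit 978) (.e (nat_lit 106534) (nat_lit 11) (.e (nat_lit 16467) (nat_lit 13) (.e (nat_lit 483386) (nat_lit 23) (.e (nat_lit 335985) (nat_lit 1) (.e (nat_lit 57848) (nat_lit 252) .nil))))) .nil))) (.nd (nat_lit 5) 
(.lf (nat_lit 234128) (.g (nat_lit 1764) (.e (nat_lit 106534) (nat_lit 11) (.e (nat_lit 16465) (nat_lit 13) (.e (nat_lit 483393) (nat_lit 23) (.e (nat_lit 335996) (nat_lit 1) (.e (nat_lit 57851) (nat_lit 252) .nil))))) .nil)) 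
(.lf (nat_lit 234160) (.g (nat_lit 1996) (.e (nat_lit 106534) (nat_lit 11) (.e (nat_lit 16468) (nat_lit 13) (.e (nat_lit 483380) (nat_lit 23) (.e (nat_lit 336336) (nat_lit 20) (.e (nat_lit 229120) (nat_lit 4) .nil))))) (.g (nat_lit 4) .nil .nil))))) (.nd (nat_lit 4) (.nd (nat_lit 5) 
(.lf (nat_lit 234120) (.g (nat_lit 2499) (.e (nat_lit 106534) (nat_lit 11) (.e (nat_lit 16465) (nat_lit 13) (.e (nat_lit 483383) (nat_lit 23) (.e (nat_lit 336000) (nat_lit 1) (.e (nat_lit 57848) (nat_lit 252) (.e (nat_lit 57385) (nat_lit 4) .nil)))))) (.g (nat_lit 4) .nil .nil))) 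
(.lf (nat_lit 234152) (.g (nat_lit 2158) (.e (nat_lit 106534) (nat_lit 11) (.e (nat_lit 16467) (nat_lit 13) (.e (nat_lit 483395) (nat_lit 24) (.e (nat_lit 344097) (nat_lit 18) (.e (nat_lit 5194) (nat_lit 294) (.e (nat_lit 57385) (nat_lit 4) .nil)))))) (.g (nat_lit 5) .nil .nil)))) (.nd (nat_lit 5) 
(.lf (nat_lit 234136) (.g (nat_lit 2243) (.e (nat_lit 106534) (nat_lit 11) (.e (nat_lit 16467) (nat_lit 13) (.e (nat_lit 483380) (nat_lit 23) (.e (nat_lit 336336) (nat_lit 20) (.e (nat_lit 229120) (nat_lit 4) .nil))))) (.g (nat_lit 4) .nil .nil))) 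
(.lf (nat_lit 234168) (.g (nat_lit 1885) (.e (nat_lit 106534) (nat_lit 11) (.e (nat_lit 16468) (nat_lit 13) (.e (nat_lit 483387) (nat_lit 23) (.e (nat_lit 335997) (nat_lit 1) (.e (nat_lit 57848) (nat_lit 252) (.e (nat_lit 57385) (nat_lit 4) .nil)))))) (.g (nat_lit 5) .nil .nil)))))) (.nd (nat_lit 3) (.nd (nat_lit 4) (.nd (nat_lit 5) 
(.lf (nat_lit 234116) (.g (nat_lit 2114) (.e (nat_lit 106534) (nat_lit 11) (.e (nat_lit 16465) (nat_lit 13) (.e (nat_lit 483380) (nat_lit 23) (.e (nat_lit 336336) (nat_lit 20) (.e (nat_lit 229120) (nat_lit 4) .nil))))) (.g (nat_lit 4) .nil .nil))) 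
(.lf (nat_lit 234148) (.g (nat_lit 2423) (.e (nat_lit 106534) (nat_lit 11) (.e (nat_lit 16467) (nat_lit 13) (.e (nat_lit 483393) (nat_lit 23) (.e (nat_lit 335986) (nat_lit 1) (.e (nat_lit 57849) (nat_lit 252) (.e (nat_lit 57385) (nat_lit 4) .nil)))))) (.g (nat_lit 6) .nil .nil)))) (.nd (nat_lit 5) 
(.lf (nat_lit 234132) (.g (nat_lit 465) (.e (nat_lit 106534) (nat_lit 11) (.e (nat_lit 16466) (nat_lit 13) (.e (nat_lit 483393) (nat_lit 23) .nil))) .nil)) 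
(.lf (nat_lit 234164) (.g (nat_lit 2337) (.e (nat_lit 106534) (nat_lit 11) (.e (nat_lit 16468) (nat_lit 13) (.e (nat_lit 483383) (nat_lit 23) (.e (nat_lit 336000) (nat_lit 1) (.e (nat_lit 57848) (nat_lit 252) (.e (nat_lit 57386) (nat_lit 4) .nil)))))) (.g (nat_lit 5) .nil .nil))))) (.nd (nat_lit 4) (.nd (nat_lit 5) 
(.lf (nat_lit 234124) (.g (nat_lit 1957) (.e (nat_lit 106534) (nat_lit 11) (.e (nat_lit 16465) (nat_lit 13) (.e (nat_lit 483383) (nat_lit 23) (.e (nat_lit 336334) (nat_lit 20) (.e (nat_lit 229120) (nat_lit 4) .nil))))) .nil)) 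
(.lf (nat_lit 234156) (.g (nat_lit 1719) (.e (nat_lit 106534) (nat_lit 11) (.e (nat_lit 16467) (nat_lit 13) (.e (nat_lit 483405) (nat_lit 26) (.e (nat_lit 385107) (nat_lit 51) (.e (nat_lit 802560) (nat_lit 4) .nil))))) (.g (nat_lit 4) .nil .nil)))) (.nd (nat_lit 5) 
(.lf (nat_lit 234140) (.g (nat_lit 1846) (.e (nat_lit 106534) (nat_lit 11) (.e (nat_lit 16467) (nat_lit 13) (.e (nat_lit 483383) (nat_lit 23) (.e (nat_lit 336000) (nat_lit 1) (.e (nat_lit 57848) (nat_lit 252) (.e (nat_lit 57385) (nat_lit 4) .nil)))))) (.g (nat_lit 4) .nil .nil))) 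
(.lf (nat_lit 234172) (.g (nat_lit 2121) (.e (nat_lit 106534) (nat_lit 11) (.e (nat_lit 16468) (nat_lit 13) (.e (nat_lit 483394) (nat_lit 24) (.e (nat_lit 344097) (nat_lit 18) (.e (nat_lit 5194) (nat_lit 294) (.e (nat_lit 57385) (nat_lit 4) .nil)))))) (.g (nat_lit 5) .nil .nil))))))) (.nd (nat_lit 2) (.nd (nat_lit 3) (.nd (nat_lit 4) (.nd (nat_lit 5) 
(.lf (nat_lit 234114) (.g (nat_lit 2371) (.e (nat_lit 106534) (nat_lit 11) (.e (nat_lit 16464) (nat_lit 13) (.e (nat_lit 483393) (nat_lit 23) (.e (nat_lit 335988) (nat_lit 1) (.e (nat_lit 57852) (nat_lit 252) (.e (nat_lit 57384) (nat_lit 4) .nil)))))) (.g (nat_lit 4) .nil .nil))) 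
(.lf (nat_lit 234146) (.g (nat_lit 169) (.e (nat_lit 106534) (nat_lit 11) (.e (nat_lit 16467) (nat_lit 13) (.e (nat_lit 483389) (nat_lit 23) .nil))) .nil))) (.nd (nat_lit 5) 
(.lf (nat_lit 234130) (.g (nat_lit 2291) (.e (nat_lit 106534) (nat_lit 11) (.e (nat_lit 16465) (nat_lit 13) (.e (nat_lit 483406) (nat_lit 26) (.e (nat_lit 385107) (nat_lit 51) (.e (nat_lit 802560) (nat_lit 4) .nil))))) (.g (nat_lit 4) .nil .nil))) 
(.lf (nat_lit 234162) (.g (nat_lit 2281) (.e (nat_lit 106534) (nat_lit 11) (.e (nat_lit 16468) (nat_lit 13) (.e (nat_lit 483383) (nat_lit 23) (.e (nat_lit 336000) (nat_lit 1) (.e (nat_lit 57848) (nat_lit 252) (.e (nat_lit 57383) (nat_lit 4) .nil)))))) (.g (nat_lit 5) .nil .nil))))) (.nd (nat_lit 4) (.nd (nat_lit 5) 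
(.lf (nat_lit 234122) (.g (nat_lit 3303) (.e (nat_lit 106534) (nat_lit 11) (.e (nat_lit 16465) (nat_lit 13) (.e (nat_lit 483383) (nat_lit 23) (.e (nat_lit 336000) (nat_lit 1) (.e (nat_lit 57849) (nat_lit 252) (.e (nat_lit 57383) (nat_lit 4) .nil)))))) (.g (nat_lit 5) .nil .nil))) 
(.lf (nat_lit 234154) (.g (nat_lit 1830) (.e (nat_lit 106534) (nat_lit 11) (.e (nat_lit 16467) (nat_lit 13) (.e (nat_lit 483403) (nat_lit 26) (.e (nat_lit 385109) (nat_lit 51) (.e (nat_lit 802560) (nat_lit 4) .nil))))) (.g (nat_lit 4) .nil .nil)))) (.nd (nat_lit 5) 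
(.lf (nat_lit 234138) (.g (nat_lit 1613) (.e (nat_lit 106534) (nat_lit 11) (.e (nat_lit 16467) (nat_lit 13) (.e (nat_lit 483382) (nat_lit 23) (.e (nat_lit 336336) (nat_lit 20) (.e (nat_lit 229120) (nat_lit 4) .nil))))) .nil)) 
(.lf (nat_lit 234170) (.g (nat_lit 1124) (.e (nat_lit 106534) (nat_lit 11) (.e (nat_lit 16468) (nat_lit 13) (.e (nat_lit 483391) (nat_lit 23) (.e (nat_lit 336333) (nat_lit 20) (.e (nat_lit 229120) (nat_lit 4) .nil))))) (.g (nat_lit 4) .nil .nil)))))) (.nd (nat_lit 3) (.nd (nat_lit 4) (.nd (nat_lit 5) 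
(.lf (nat_lit 234118) (.g (nat_lit 1195) (.e (nat_lit 106534) (nat_lit 11) (.e (nat_lit 16465) (nat_lit 13) (.e (nat_lit 483383) (nat_lit 23) (.e (nat_lit 336000) (nat_lit 1) .nil)))) .nil)) 
(.lf (nat_lit 234150) (.g (nat_lit 2935) (.e (nat_lit 106534) (nat_lit 11) (.e (nat_lit 16467) (nat_lit 13) (.e (nat_lit 483393) (nat_lit 23) (.e (nat_lit 335988) (nat_lit 1) (.e (nat_lit 57854) (nat_lit 252) (.e (nat_lit 57384) (nat_lit 4) .nil)))))) (.g (nat_lit 6) .nil .nil)))) (.nd (nat_lit 5) 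
(.lf (nat_lit 234134) (.g (nat_lit 2693) (.e (nat_lit 106534) (nat_lit 11) (.e (nat_lit 16466) (nat_lit 13) (.e (nat_lit 483393) (nat_lit 23) (.e (nat_lit 335986) (nat_lit 1) (.e (nat_lit 57849) (nat_lit 252) (.e (nat_lit 57385) (nat_lit 4) .nil)))))) (.g (nat_lit 0) .nil .nil))) 
(.lf (nat_lit 234166) (.g (nat_lit 743) (.e (nat_lit 106534) (nat_lit 11) (.e (nat_lit 16468) (nat_lit 13) (.e (nat_lit 483386) (nat_lit 23) (.e (nat_lit 335985) (nat_lit 1) .nil)))) .nil)))) (.nd (nat_lit 4) (.nd (nat_lit 5) 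
(.lf (nat_lit 234126) (.g (nat_lit 746) (.e (nat_lit 106534) (nat_lit 11) (.e (nat_lit 16465) (nat_lit 13) (.e (nat_lit 483386) (nat_lit 23) .nil))) .nil)) 
(.lf (nat_lit 234158) (.g (nat_lit 1612) (.e (nat_lit 106534) (nat_lit 11) (.e (nat_lit 16468) (nat_lit 13) (.e (nat_lit 483379) (nat_lit 23) (.e (nat_lit 336334) (nat_lit 20) (.e (nat_lit 229120) (nat_lit 4) .nil))))) (.g (nat_lit 4) .nil .nil)))) (.nd (nat_lit 5) 
(.lf (nat_lit 234142) (.g (nat_lit 2153) (.e (nat_lit 106534) (nat_lit 11) (.e (nat_lit 16467) (nat_lit 13) (.e (nat_lit 483383) (nat_lit 23) (.e (nat_lit 336336) (nat_lit 20) (.e (nat_lit 229120) (nat_lit 4) .nil))))) (.g (nat_lit 4) .nil .nil))) 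
(.lf (nat_lit 234174) (.g (nat_lit 2496) (.e (nat_lit 106534) (nat_lit 11) (.e (nat_lit 16468) (nat_lit 13) (.e (nat_lit 483394) (nat_lit 24) (.e (nat_lit 344097) (nat_lit 18) (.e (nat_lit 5195) (nat_lit 294) (.e (nat_lit 57385) (nat_lit 4) .nil)))))) (.g (nat_lit 0) .nil .nil)))))))) (.nd (nat_lit 1) (.nd (nat_lit 2) (.nd (nat_lit 3) (.nd (nat_lit 4) (.nd (nat_lit 5) 
(.lf (nat_lit 234113) (.g (nat_lit 2084) (.e (nat_lit 106534) (nat_lit 11) (.e (nat_lit 16464) (nat_lit 13) (.e (nat_lit 483393) (nat_lit 23) (.e (nat_lit 335986) (nat_lit 1) (.e (nat_lit 57847) (nat_lit 252) (.e (nat_lit 57386) (nat_lit 4) .nil)))))) (.g (nat_lit 4) .nil .nil))) 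
(.lf (nat_lit 234145) (.g (nat_lit 874) (.e (nat_lit 106534) (nat_lit 11) (.e (nat_lit 16467) (nat_lit 13) (.e (nat_lit 483387) (nat_lit 23) (.e (nat_lit 335997) (nat_lit 1) (.e (nat_lit 57848) (nat_lit 252) .nil))))) .nil))) (.nd (nat_lit 5) 
(.lf (nat_lit 234129) (.g (nat_lit 2177) (.e (nat_lit 106534) (nat_lit 11) (.e (nat_lit 16465) (nat_lit 13) (.e (nat_lit 483403) (nat_lit 26) (.e (nat_lit 385109) (nat_lit 51) (.e (nat_lit 802560) (nat_lit 4) .nil))))) (.g (nat_lit 4) .nil .nil))) 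
(.lf (nat_lit 234161) (.g (nat_lit 1341) (.e (nat_lit 106534) (nat_lit 11) (.e (nat_lit 16468) (nat_lit 13) (.e (nat_lit 483381) (nat_lit 23) (.e (nat_lit 336336) (nat_lit 20) (.e (nat_lit 229120) (nat_lit 4) .nil))))) .nil)))) (.nd (nat_lit 4) (.nd (nat_lit 5) 
(.lf (nat_lit 234121) (.g (nat_lit 2744) (.e (nat_lit 106534) (nat_lit 11) (.e (nat_lit 16465) (nat_lit 13) (.e (nat_lit 483383) (nat_lit 23) (.e (nat_lit 336000) (nat_lit 1) (.e (nat_lit 57848) (nat_lit 252) (.e (nat_lit 57386) (nat_lit 4) .nil)))))) (.g (nat_lit 5) .nil .nil))) 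
(.lf (nat_lit 234153) (.g (nat_lit 2353) (.e (nat_lit 106534) (nat_lit 11) (.e (nat_lit 16467) (nat_lit 13) (.e (nat_lit 483395) (nat_lit 24) (.e (nat_lit 344097) (nat_lit 18) (.e (nat_lit 5195) (nat_lit 294) (.e (nat_lit 57383) (nat_lit 4) .nil)))))) (.g (nat_lit 5) .nil .nil)))) (.nd (nat_lit 5) 
(.lf (nat_lit 234137) (.g (nat_lit 1083) (.e (nat_lit 106534) (nat_lit 11) (.e (nat_lit 16467) (nat_lit 13) (.e (nat_lit 483381) (nat_lit 23) (.e (nat_lit 336336) (nat_lit 20) (.e (nat_lit 229120) (nat_lit 4) .nil))))) .nil)) 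
(.lf (nat_lit 234169) (.g (nat_lit 2537) (.e (nat_lit 106534) (nat_lit 11) (.e (nat_lit 16468) (nat_lit 13) (.e (nat_lit 483391) (nat_lit 23) (.e (nat_lit 335998) (nat_lit 1) (.e (nat_lit 57849) (nat_lit 252) (.e (nat_lit 57386) (nat_lit 4) .nil)))))) (.g (nat_lit 0) .nil .nil)))))) (.nd (nat_lit 3) (.nd (nat_lit 4) (.nd (nat_lit 5) 
(.lf (nat_lit 234117) (.g (nat_lit 917) (.e (nat_lit 106534) (nat_lit 11) (.e (nat_lit 16465) (nat_lit 13) (.e (nat_lit 483381) (nat_lit 23) .nil))) .nil)) 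
(.lf (nat_lit 234149) (.g (nat_lit 2586) (.e (nat_lit 106534) (nat_lit 11) (.e (nat_lit 16467) (nat_lit 13) (.e (nat_lit 483393) (nat_lit 23) (.e (nat_lit 335986) (nat_lit 1) (.e (nat_lit 57849) (nat_lit 252) (.e (nat_lit 57386) (nat_lit 4) .nil)))))) (.g (nat_lit 6) .nil .nil)))) (.nd (nat_lit 5) 
(.lf (nat_lit 234133) (.g (nat_lit 2546) (.e (nat_lit 106534) (nat_lit 11) (.e (nat_lit 16466) (nat_lit 13) (.e (nat_lit 483393) (nat_lit 23) (.e (nat_lit 335986) (nat_lit 1) (.e (nat_lit 57847) (nat_lit 252) (.e (nat_lit 57383) (nat_lit 4) .nil)))))) (.g (nat_lit 5) .nil .nil))) 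
(.lf (nat_lit 234165) (.g (nat_lit 2073) (.e (nat_lit 106534) (nat_lit 11) (.e (nat_lit 16468) (nat_lit 13) (.e (nat_lit 483383) (nat_lit 23) (.e (nat_lit 336336) (nat_lit 20) (.e (nat_lit 229120) (nat_lit 4) .nil))))) (.g (nat_lit 4) .nil .nil))))) (.nd (nat_lit 4) (.nd (nat_lit 5) 
(.lf (nat_lit 234125) (.g (nat_lit 2613) (.e (nat_lit 106534) (nat_lit 11) (.e (nat_lit 16465) (nat_lit 13) (.e (nat_lit 483383) (nat_lit 23) (.e (nat_lit 336336) (nat_lit 20) (.e (nat_lit 229120) (nat_lit 4) .nil))))) (.g (nat_lit 4) .nil .nil))) 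
(.lf (nat_lit 234157) (.g (nat_lit 1938) (.e (nat_lit 106534) (nat_lit 11) (.e (nat_lit 16467) (nat_lit 13) (.e (nat_lit 483406) (nat_lit 26) (.e (nat_lit 385109) (nat_lit 51) (.e (nat_lit 802560) (nat_lit 4) .nil))))) (.g (nat_lit 4) .nil .nil)))) (.nd (nat_lit 5) 
(.lf (nat_lit 234141) (.g (nat_lit 2034) (.e (nat_lit 106534) (nat_lit 11) (.e (nat_lit 16467) (nat_lit 13) (.e (nat_lit 483383) (nat_lit 23) (.e (nat_lit 336000) (nat_lit 1) (.e (nat_lit 57848) (nat_lit 252) (.e (nat_lit 57386) (nat_lit 4) .nil)))))) (.g (nat_lit 5) .nil .nil))) 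
(.lf (nat_lit 234173) (.g (nat_lit 2384) (.e (nat_lit 106534) (nat_lit 11) (.e (nat_lit 16468) (nat_lit 13) (.e (nat_lit 483394) (nat_lit 24) (.e (nat_lit 344097) (nat_lit 18) (.e (nat_lit 5195) (nat_lit 294) (.e (nat_lit 57383) (nat_lit 4) .nil)))))) (.g (nat_lit 5) .nil .nil))))))) (.nd (nat_lit 2) (.nd (nat_lit 3) (.nd (nat_lit 4) (.nd (nat_lit 5) 
(.lf (nat_lit 234115) (.g (nat_lit 1414) (.e (nat_lit 106534) (nat_lit 11) (.e (nat_lit 16464) (nat_lit 13) (.e (nat_lit 483403) (nat_lit 26) (.e (nat_lit 385109) (nat_lit 51) (.e (nat_lit 802560) (nat_lit 4) .nil))))) .nil)) 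
(.lf (nat_lit 234147) (.g (nat_lit 2279) (.e (nat_lit 106534) (nat_lit 11) (.e (nat_lit 16467) (nat_lit 13) (.e (nat_lit 483393) (nat_lit 23) (.e (nat_lit 335986) (nat_lit 1) (.e (nat_lit 57849) (nat_lit 252) (.e (nat_lit 57383) (nat_lit 4) .nil)))))) (.g (nat_lit 5) .nil .nil)))) (.nd (nat_lit 5) 
(.lf (nat_lit 234131) (.g (nat_lit 2638) (.e (nat_lit 106534) (nat_lit 11) (.e (nat_lit 16465) (nat_lit 13) (.e (nat_lit 483406) (nat_lit 26) (.e (nat_lit 385109) (nat_lit 51) (.e (nat_lit 802560) (nat_lit 4) .nil))))) (.g (nat_lit 4) .nil .nil))) 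
(.lf (nat_lit 234163) (.g (nat_lit 2129) (.e (nat_lit 106534) (nat_lit 11) (.e (nat_lit 16468) (nat_lit 13) (.e (nat_lit 483383) (nat_lit 23) (.e (nat_lit 336000) (nat_lit 1) (.e (nat_lit 57848) (nat_lit 252) (.e (nat_lit 57385) (nat_lit 4) .nil)))))) (.g (nat_lit 5) .nil .nil))))) (.nd (nat_lit 4) (.nd (nat_lit 5) 
(.lf (nat_lit 234123) (.g (nat_lit 2973) (.e (nat_lit 106534) (nat_lit 11) (.e (nat_lit 16465) (nat_lit 13) (.e (nat_lit 483383) (nat_lit 23) (.e (nat_lit 336000) (nat_lit 1) (.e (nat_lit 57849) (nat_lit 252) (.e (nat_lit 57385) (nat_lit 4) .nil)))))) (.g (nat_lit 5) .nil .nil))) 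
(.lf (nat_lit 234155) (.g (nat_lit 1164) (.e (nat_lit 106534) (nat_lit 11) (.e (nat_lit 16467) (nat_lit 13) (.e (nat_lit 483404) (nat_lit 26) (.e (nat_lit 385107) (nat_lit 51) (.e (nat_lit 802560) (nat_lit 4) .nil))))) .nil))) (.nd (nat_lit 5) 
(.lf (nat_lit 234139) (.g (nat_lit 1954) (.e (nat_lit 106534) (nat_lit 11) (.e (nat_lit 16467) (nat_lit 13) (.e (nat_lit 483383) (nat_lit 23) (.e (nat_lit 336000) (nat_lit 1) (.e (nat_lit 57848) (nat_lit 252) (.e (nat_lit 57383) (nat_lit 4) .nil)))))) (.g (nat_lit 5) .nil .nil))) 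
(.lf (nat_lit 234171) (.g (nat_lit 1160) (.e (nat_lit 106534) (nat_lit 11) (.e (nat_lit 16468) (nat_lit 13) (.e (nat_lit 483391) (nat_lit 23) (.e (nat_lit 336335) (nat_lit 20) (.e (nat_lit 229120) (nat_lit 4) .nil))))) (.g (nat_lit 4) .nil .nil)))))) (.nd (nat_lit 3) (.nd (nat_lit 4) (.nd (nat_lit 5) 
(.lf (nat_lit 234119) (.g (nat_lit 2757) (.e (nat_lit 106534) (nat_lit 11) (.e (nat_lit 16465) (nat_lit 13) (.e (nat_lit 483383) (nat_lit 23) (.e (nat_lit 336000) (nat_lit 1) (.e (nat_lit 57848) (nat_lit 252) (.e (nat_lit 57383) (nat_lit 4) .nil)))))) (.g (nat_lit 5) .nil .nil))) 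
(.lf (nat_lit 234151) (.g (nat_lit 1437) (.e (nat_lit 106534) (nat_lit 11) (.e (nat_lit 16467) (nat_lit 13) (.e (nat_lit 483394) (nat_lit 24) (.e (nat_lit 344097) (nat_lit 18) (.e (nat_lit 5194) (nat_lit 294) .nil))))) .nil))) (.nd (nat_lit 5) 
(.lf (nat_lit 234135) (.g (nat_lit 1475) (.e (nat_lit 106534) (nat_lit 11) (.e (nat_lit 16467) (nat_lit 13) (.e (nat_lit 483378) (nat_lit 23) (.e (nat_lit 335997) (nat_lit 1) (.e (nat_lit 57848) (nat_lit 252) (.e (nat_lit 57386) (nat_lit 4) .nil)))))) (.g (nat_lit 4) .nil .nil))) 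
(.lf (nat_lit 234167) (.g (nat_lit 2042) (.e (nat_lit 106534) (nat_lit 11) (.e (nat_lit 16468) (nat_lit 13) (.e (nat_lit 483387) (nat_lit 23) (.e (nat_lit 335997) (nat_lit 1) (.e (nat_lit 57848) (nat_lit 252) (.e (nat_lit 57383) (nat_lit 4) .nil)))))) (.g (nat_lit 6) .nil .nil))))) (.nd (nat_lit 4) (.nd (nat_lit 5) 
(.lf (nat_lit 234127) (.g (nat_lit 2438) (.e (nat_lit 106534) (nat_lit 11) (.e (nat_lit 16465) (nat_lit 13) (.e (nat_lit 483393) (nat_lit 23) (.e (nat_lit 335988) (nat_lit 1) (.e (nat_lit 57854) (nat_lit 252) (.e (nat_lit 57384) (nat_lit 4) .nil)))))) (.g (nat_lit 4) .nil .nil))) 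
(.lf (nat_lit 234159) (.g (nat_lit 1804) (.e (nat_lit 106534) (nat_lit 11) (.e (nat_lit 16468) (nat_lit 13) (.e (nat_lit 483379) (nat_lit 23) (.e (nat_lit 336336) (nat_lit 20) (.e (nat_lit 229120) (nat_lit 4) .nil))))) (.g (nat_lit 4) .nil .nil)))) (.nd (nat_lit 5) 
(.lf (nat_lit 234143) (.g (nat_lit 1589) (.e (nat_lit 106534) (nat_lit 11) (.e (nat_lit 16467) (nat_lit 13) (.e (nat_lit 483384) (nat_lit 23) (.e (nat_lit 336336) (nat_lit 20) (.e (nat_lit 229120) (nat_lit 4) .nil))))) (.g (nat_lit 4) .nil .nil))) 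
(.lf (nat_lit 234175) (.g (nat_lit 2582) (.e (nat_lit 106534) (nat_lit 11) (.e (nat_lit 16468) (nat_lit 13) (.e (nat_lit 483394) (nat_lit 24) (.e (nat_lit 344097) (nat_lit 18) (.e (nat_lit 5195) (nat_lit 294) (.e (nat_lit 57386) (nat_lit 4) .nil)))))) (.g (nat_lit 0) .nil .nil)))))))))

noncomputable def tv3061 : DT := (.nd (nat_lit 0) (.nd (nat_lit 1) (.nd (nat_lit 2) (.nd (nat_lit 3) (.nd (nat_lit 4) (.nd (nat_lit 5) 
(.lf (nat_lit 234176) (.g (nat_lit 1964) (.e (nat_lit 106534) (nat_lit 11) (.e (nat_lit 16468) (nat_lit 13) (.e (nat_lit 483395) (nat_lit 24) (.e (nat_lit 344097) (nat_lit 18) (.e (nat_lit 5194) (nat_lit 294) (.e (nat_lit 57385) (nat_lit 4) .nil)))))) (.g (nat_lit 5) .nil .nil))) 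
(.lf (nat_lit 234208) (.g (nat_lit 3320) (.e (nat_lit 106534) (nat_lit 11) (.e (nat_lit 16473) (nat_lit 14) (.e (nat_lit 491546) (nat_lit 9) (.e (nat_lit 336032) (nat_lit 4) (.e (nat_lit 123194) (nat_lit 266) (.e (nat_lit 57390) (nat_lit 5) (.e (nat_lit 114722) (nat_lit 24) .nil))))))) (.g (nat_lit 5) .nil .nil)))) (.nd (nat_lit 5) 
(.lf (nat_lit 234192) (.g (nat_lit 1954) (.e (nat_lit 106534) (nat_lit 11) (.e (nat_lit 16468) (nat_lit 13) (.e (nat_lit 483403) (nat_lit 26) (.e (nat_lit 385109) (nat_lit 51) (.e (nat_lit 802560) (nat_lit 4) .nil))))) (.g (nat_lit 4) .nil .nil))) 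
(.lf (nat_lit 234224) (.g (nat_lit 2407) (.e (nat_lit 106534) (nat_lit 11) (.e (nat_lit 16473) (nat_lit 14) (.e (nat_lit 491559) (nat_lit 10) (.e (nat_lit 344093) (nat_lit 18) .nil)))) .nil)))) (.nd (nat_lit 4) (.nd (nat_lit 5) 
(.lf (nat_lit 234184) (.g (nat_lit 1768) (.e (nat_lit 106534) (nat_lit 11) (.e (nat_lit 16468) (nat_lit 13) (.e (nat_lit 483396) (nat_lit 24) (.e (nat_lit 344097) (nat_lit 18) (.e (nat_lit 5195) (nat_lit 294) (.e (nat_lit 57383) (nat_lit 4) .nil)))))) (.g (nat_lit 4) .nil .nil))) 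
(.lf (nat_lit 234216) (.g (nat_lit 2281) (.e (nat_lit 106534) (nat_lit 11) (.e (nat_lit 16473) (nat_lit 14) (.e (nat_lit 491558) (nat_lit 10) (.e (nat_lit 344093) (nat_lit 18) .nil)))) .nil))) (.nd (nat_lit 5) 
(.lf (nat_lit 234200) (.g (nat_lit 3532) (.e (nat_lit 106534) (nat_lit 11) (.e (nat_lit 16470) (nat_lit 14) (.e (nat_lit 491566) (nat_lit 12) (.e (nat_lit 385092) (nat_lit 49) (.e (nat_lit 778297) (nat_lit 0) .nil))))) .nil)) 
(.lf (nat_lit 234232) (.g (nat_lit 2316) (.e (nat_lit 106534) (nat_lit 11) (.e (nat_lit 16473) (nat_lit 14) (.e (nat_lit 491560) (nat_lit 10) (.e (nat_lit 344089) (nat_lit 18) .nil)))) .nil))))) (.nd (nat_lit 3) (.nd (nat_lit 4) (.nd (nat_lit 5) 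
(.lf (nat_lit 234180) (.g (nat_lit 1615) (.e (nat_lit 106534) (nat_lit 11) (.e (nat_lit 16468) (nat_lit 13) (.e (nat_lit 483395) (nat_lit 24) (.e (nat_lit 344156) (nat_lit 36) (.e (nat_lit 639011) (nat_lit 13) (.e (nat_lit 1270) (nat_lit 93) .nil)))))) (.g (nat_lit 4) .nil .nil))) 
(.lf (nat_lit 234212) (.g (nat_lit 2290) (.e (nat_lit 106534) (nat_lit 11) (.e (nat_lit 16473) (nat_lit 14) (.e (nat_lit 491556) (nat_lit 9) (.e (nat_lit 336035) (nat_lit 4) .nil)))) .nil))) (.nd (nat_lit 5) 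
(.lf (nat_lit 234196) (.g (nat_lit 2803) (.e (nat_lit 106534) (nat_lit 11) (.e (nat_lit 16469) (nat_lit 14) (.e (nat_lit 491566) (nat_lit 12) (.e (nat_lit 385105) (nat_lit 50) .nil)))) .nil)) 
(.lf (nat_lit 234228) (.g (nat_lit 3207) (.e (nat_lit 106534) (nat_lit 11) (.e (nat_lit 16473) (nat_lit 14) (.e (nat_lit 491559) (nat_lit 10) (.e (nat_lit 344169) (nat_lit 40) (.e (nat_lit 671751) (nat_lit 0) .nil))))) .nil)))) (.nd (nat_lit 4) (.nd (nat_lit 5) 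
(.lf (nat_lit 234188) (.g (nat_lit 2083) (.e (nat_lit 106534) (nat_lit 11) (.e (nat_lit 16468) (nat_lit 13) (.e (nat_lit 483398) (nat_lit 25) (.e (nat_lit 368662) (nat_lit 18) (.e (nat_lit 5195) (nat_lit 294) (.e (nat_lit 57386) (nat_lit 4) .nil)))))) (.g (nat_lit 0) .nil .nil))) 
(.lf (nat_lit 234220) (.g (nat_lit 2028) (.e (nat_lit 106534) (nat_lit 11) (.e (nat_lit 16473) (nat_lit 14) (.e (nat_lit 491558) (nat_lit 10) (.e (nat_lit 352000) (nat_lit 18) .nil)))) .nil))) (.nd (nat_lit 5) 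
(.lf (nat_lit 234204) (.g (nat_lit 4116) (.e (nat_lit 106534) (nat_lit 11) (.e (nat_lit 16470) (nat_lit 14) (.e (nat_lit 491566) (nat_lit 12) (.e (nat_lit 385105) (nat_lit 50) (.e (nat_lit 786460) (nat_lit 20) .nil))))) .nil)) 
(.lf (nat_lit 234236) (.g (nat_lit 2273) (.e (nat_lit 106534) (nat_lit 11) (.e (nat_lit 16473) (nat_lit 14) (.e (nat_lit 491560) (nat_lit 10) (.e (nat_lit 344103) (nat_lit 18) (.e (nat_lit 5947) (nat_lit 322) .nil))))) .nil)))))) (.nd (nat_lit 2) (.nd (nat_lit 3) (.nd (nat_lit 4) (.nd (nat_lit 5) 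
(.lf (nat_lit 234178) (.g (nat_lit 2287) (.e (nat_lit 106534) (nat_lit 11) (.e (nat_lit 16468) (nat_lit 13) (.e (nat_lit 483395) (nat_lit 24) (.e (nat_lit 344097) (nat_lit 18) (.e (nat_lit 5195) (nat_lit 294) (.e (nat_lit 57385) (nat_lit 4) .nil)))))) (.g (nat_lit 0) .nil .nil))) 
(.lf (nat_lit 234210) (.g (nat_lit 1529) (.e (nat_lit 106534) (nat_lit 11) (.e (nat_lit 16473) (nat_lit 14) (.e (nat_lit 491552) (nat_lit 9) (.e (nat_lit 336030) (nat_lit 4) .nil)))) .nil))) (.nd (nat_lit 5) 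
(.lf (nat_lit 234194) (.g (nat_lit 2067) (.e (nat_lit 106534) (nat_lit 11) (.e (nat_lit 16468) (nat_lit 13) (.e (nat_lit 483406) (nat_lit 26) (.e (nat_lit 385109) (nat_lit 51) (.e (nat_lit 802560) (nat_lit 4) .nil))))) (.g (nat_lit 4) .nil .nil))) 
(.lf (nat_lit 234226) (.g (nat_lit 2939) (.e (nat_lit 106534) (nat_lit 11) (.e (nat_lit 16473) (nat_lit 14) (.e (nat_lit 491559) (nat_lit 10) (.e (nat_lit 344168) (nat_lit 40) (.e (nat_lit 671744) (nat_lit 0) .nil))))) .nil)))) (.nd (nat_lit 4) (.nd (nat_lit 5) 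
(.lf (nat_lit 234186) (.g (nat_lit 2019) (.e (nat_lit 106534) (nat_lit 11) (.e (nat_lit 16468) (nat_lit 13) (.e (nat_lit 483396) (nat_lit 24) (.e (nat_lit 344097) (nat_lit 18) (.e (nat_lit 5195) (nat_lit 294) (.e (nat_lit 57386) (nat_lit 4) .nil)))))) (.g (nat_lit 4) .nil .nil))) 
(.lf (nat_lit 234218) (.g (nat_lit 2263) (.e (nat_lit 106534) (nat_lit 11) (.e (nat_lit 16473) (nat_lit 14) (.e (nat_lit 491558) (nat_lit 10) (.e (nat_lit 344103) (nat_lit 18) .nil)))) .nil))) (.nd (nat_lit 5) 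
(.lf (nat_lit 234202) (.g (nat_lit 2972) (.e (nat_lit 106534) (nat_lit 11) (.e (nat_lit 16470) (nat_lit 14) (.e (nat_lit 491566) (nat_lit 12) (.e (nat_lit 385104) (nat_lit 50) .nil)))) .nil)) 
(.lf (nat_lit 234234) (.g (nat_lit 2447) (.e (nat_lit 106534) (nat_lit 11) (.e (nat_lit 16473) (nat_lit 14) (.e (nat_lit 491560) (nat_lit 10) (.e (nat_lit 344102) (nat_lit 18) .nil)))) .nil))))) (.nd (nat_lit 3) (.nd (nat_lit 4) (.nd (nat_lit 5) 
(.lf (nat_lit 234182) (.g (nat_lit 1903) (.e (nat_lit 106534) (nat_lit 11) (.e (nat_lit 16468) (nat_lit 13) (.e (nat_lit 483396) (nat_lit 24) (.e (nat_lit 344097) (nat_lit 18) (.e (nat_lit 5194) (nat_lit 294) (.e (nat_lit 57385) (nat_lit 4) .nil)))))) (.g (nat_lit 4) .nil .nil))) 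
(.lf (nat_lit 234214) (.g (nat_lit 2282) (.e (nat_lit 106534) (nat_lit 11) (.e (nat_lit 16473) (nat_lit 14) (.e (nat_lit 491558) (nat_lit 10) (.e (nat_lit 344088) (nat_lit 18) .nil)))) .nil))) (.nd (nat_lit 5) 
(.lf (nat_lit 234198) (.g (nat_lit 3746) (.e (nat_lit 106534) (nat_lit 11) (.e (nat_lit 16470) (nat_lit 14) (.e (nat_lit 491566) (nat_lit 12) (.e (nat_lit 385090) (nat_lit 49) .nil)))) .nil)) 
(.lf (nat_lit 234230) (.g (nat_lit 2121) (.e (nat_lit 106534) (nat_lit 11) (.e (nat_lit 16473) (nat_lit 14) (.e (nat_lit 491560) (nat_lit 10) (.e (nat_lit 344087) (nat_lit 18) .nil)))) .nil)))) (.nd (nat_lit 4) (.nd (nat_lit 5) 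
(.lf (nat_lit 234190) (.g (nat_lit 2142) (.e (nat_lit 106534) (nat_lit 11) (.e (nat_lit 16468) (nat_lit 13) (.e (nat_lit 483399) (nat_lit 25) (.e (nat_lit 368662) (nat_lit 18) (.e (nat_lit 5195) (nat_lit 294) (.e (nat_lit 57386) (nat_lit 4) .nil)))))) (.g (nat_lit 0) .nil .nil))) 
(.lf (nat_lit 234222) (.g (nat_lit 2263) (.e (nat_lit 106534) (nat_lit 11) (.e (nat_lit 16473) (nat_lit 14) (.e (nat_lit 491558) (nat_lit 10) (.e (nat_lit 344169) (nat_lit 40) .nil)))) .nil))) (.nd (nat_lit 5) 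
(.lf (nat_lit 234206) (.g (nat_lit 987) (.e (nat_lit 106534) (nat_lit 11) (.e (nat_lit 16473) (nat_lit 14) (.e (nat_lit 491546) (nat_lit 9) .nil))) .nil)) 
(.lf (nat_lit 234238) (.g (nat_lit 1719) (.e (nat_lit 106534) (nat_lit 11) (.e (nat_lit 16473) (nat_lit 14) (.e (nat_lit 491560) (nat_lit 10) (.e (nat_lit 344168) (nat_lit 40) .nil)))) .nil))))))) (.nd (nat_lit 1) (.nd (nat_lit 2) (.nd (nat_lit 3) (.nd (nat_lit 4) (.nd (nat_lit 5) 
(.lf (nat_lit 234177) (.g (nat_lit 2221) (.e (nat_lit 106534) (nat_lit 11) (.e (nat_lit 16468) (nat_lit 13) (.e (nat_lit 483395) (nat_lit 24) (.e (nat_lit 344097) (nat_lit 18) (.e (nat_lit 5195) (nat_lit 294) (.e (nat_lit 57383) (nat_lit 4) .nil)))))) (.g (nat_lit 5) .nil .nil))) 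
(.lf (nat_lit 234209) (.g (nat_lit 2460) (.e (nat_lit 106534) (nat_lit 11) (.e (nat_lit 16473) (nat_lit 14) (.e (nat_lit 491546) (nat_lit 9) (.e (nat_lit 336032) (nat_lit 4) (.e (nat_lit 123196) (nat_lit 266) .nil))))) .nil))) (.nd (nat_lit 5) 
(.lf (nat_lit 234193) (.g (nat_lit 1719) (.e (nat_lit 106534) (nat_lit 11) (.e (nat_lit 16468) (nat_lit 13) (.e (nat_lit 483404) (nat_lit 26) (.e (nat_lit 385107) (nat_lit 51) (.e (nat_lit 802560) (nat_lit 4) .nil))))) (.g (nat_lit 4) .nil .nil))) 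
(.lf (nat_lit 234225) (.g (nat_lit 2375) (.e (nat_lit 106534) (nat_lit 11) (.e (nat_lit 16473) (nat_lit 14) (.e (nat_lit 491559) (nat_lit 10) (.e (nat_lit 344103) (nat_lit 18) .nil)))) .nil)))) (.nd (nat_lit 4) (.nd (nat_lit 5) 
(.lf (nat_lit 234185) (.g (nat_lit 1920) (.e (nat_lit 106534) (nat_lit 11) (.e (nat_lit 16468) (nat_lit 13) (.e (nat_lit 483396) (nat_lit 24) (.e (nat_lit 344097) (nat_lit 18) (.e (nat_lit 5195) (nat_lit 294) (.e (nat_lit 57385) (nat_lit 4) .nil)))))) (.g (nat_lit 4) .nil .nil))) 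
(.lf (nat_lit 234217) (.g (nat_lit 2263) (.e (nat_lit 106534) (nat_lit 11) (.e (nat_lit 16473) (nat_lit 14) (.e (nat_lit 491558) (nat_lit 10) (.e (nat_lit 344102) (nat_lit 18) .nil)))) .nil))) (.nd (nat_lit 5) 
(.lf (nat_lit 234201) (.g (nat_lit 3191) (.e (nat_lit 106534) (nat_lit 11) (.e (nat_lit 16470) (nat_lit 14) (.e (nat_lit 491566) (nat_lit 12) (.e (nat_lit 385093) (nat_lit 49) .nil)))) .nil)) 
(.lf (nat_lit 234233) (.g (nat_lit 2521) (.e (nat_lit 106534) (nat_lit 11) (.e (nat_lit 16473) (nat_lit 14) (.e (nat_lit 491560) (nat_lit 10) (.e (nat_lit 344093) (nat_lit 18) .nil)))) .nil))))) (.nd (nat_lit 3) (.nd (nat_lit 4) (.nd (nat_lit 5) 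
(.lf (nat_lit 234181) (.g (nat_lit 2150) (.e (nat_lit 106534) (nat_lit 11) (.e (nat_lit 16468) (nat_lit 13) (.e (nat_lit 483396) (nat_lit 24) (.e (nat_lit 344097) (nat_lit 18) (.e (nat_lit 5194) (nat_lit 294) (.e (nat_lit 57383) (nat_lit 4) .nil)))))) (.g (nat_lit 4) .nil .nil))) 
(.lf (nat_lit 234213) (.g (nat_lit 812) (.e (nat_lit 106534) (nat_lit 11) (.e (nat_lit 16473) (nat_lit 14) (.e (nat_lit 491558) (nat_lit 10) .nil))) .nil))) (.nd (nat_lit 5) 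
(.lf (nat_lit 234197) (.g (nat_lit 1349) (.e (nat_lit 106534) (nat_lit 11) (.e (nat_lit 16470) (nat_lit 14) (.e (nat_lit 491566) (nat_lit 12) .nil))) .nil)) 
(.lf (nat_lit 234229) (.g (nat_lit 516) (.e (nat_lit 106534) (nat_lit 11) (.e (nat_lit 16473) (nat_lit 14) (.e (nat_lit 491560) (nat_lit 10) .nil))) .nil)))) (.nd (nat_lit 4) (.nd (nat_lit 5) 
(.lf (nat_lit 234189) (.g (nat_lit 2043) (.e (nat_lit 106534) (nat_lit 11) (.e (nat_lit 16468) (nat_lit 13) (.e (nat_lit 483399) (nat_lit 25) (.e (nat_lit 368662) (nat_lit 18) (.e (nat_lit 5195) (nat_lit 294) (.e (nat_lit 57385) (nat_lit 4) .nil)))))) (.g (nat_lit 0) .nil .nil))) 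
(.lf (nat_lit 234221) (.g (nat_lit 2776) (.e (nat_lit 106534) (nat_lit 11) (.e (nat_lit 16473) (nat_lit 14) (.e (nat_lit 491558) (nat_lit 10) (.e (nat_lit 344168) (nat_lit 40) (.e (nat_lit 671744) (nat_lit 0) .nil))))) .nil))) (.nd (nat_lit 5) 
(.lf (nat_lit 234205) (.g (nat_lit 1668) (.e (nat_lit 106534) (nat_lit 11) (.e (nat_lit 16472) (nat_lit 14) (.e (nat_lit 491572) (nat_lit 14) (.e (nat_lit 401454) (nat_lit 12) .nil)))) .nil)) 
(.lf (nat_lit 234237) (.g (nat_lit 1938) (.e (nat_lit 106534) (nat_lit 11) (.e (nat_lit 16473) (nat_lit 14) (.e (nat_lit 491560) (nat_lit 10) (.e (nat_lit 352000) (nat_lit 18) .nil)))) .nil)))))) (.nd (nat_lit 2) (.nd (nat_lit 3) (.nd (nat_lit 4) (.nd (nat_lit 5) 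
(.lf (nat_lit 234179) (.g (nat_lit 2371) (.e (nat_lit 106534) (nat_lit 11) (.e (nat_lit 16468) (nat_lit 13) (.e (nat_lit 483395) (nat_lit 24) (.e (nat_lit 344097) (nat_lit 18) (.e (nat_lit 5195) (nat_lit 294) (.e (nat_lit 57386) (nat_lit 4) .nil)))))) (.g (nat_lit 0) .nil .nil))) 
(.lf (nat_lit 234211) (.g (nat_lit 1103) (.e (nat_lit 106534) (nat_lit 11) (.e (nat_lit 16473) (nat_lit 14) (.e (nat_lit 491556) (nat_lit 9) .nil))) .nil))) (.nd (nat_lit 5) 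
(.lf (nat_lit 234195) (.g (nat_lit 2440) (.e (nat_lit 106534) (nat_lit 11) (.e (nat_lit 16469) (nat_lit 14) (.e (nat_lit 491566) (nat_lit 12) (.e (nat_lit 385104) (nat_lit 50) .nil)))) .nil)) 
(.lf (nat_lit 234227) (.g (nat_lit 2393) (.e (nat_lit 106534) (nat_lit 11) (.e (nat_lit 16473) (nat_lit 14) (.e (nat_lit 491559) (nat_lit 10) (.e (nat_lit 344169) (nat_lit 40) .nil)))) .nil)))) (.nd (nat_lit 4) (.nd (nat_lit 5) 
(.lf (nat_lit 234187) (.g (nat_lit 1982) (.e (nat_lit 106534) (nat_lit 11) (.e (nat_lit 16468) (nat_lit 13) (.e (nat_lit 483398) (nat_lit 25) (.e (nat_lit 368662) (nat_lit 18) (.e (nat_lit 5195) (nat_lit 294) (.e (nat_lit 57385) (nat_lit 4) .nil)))))) (.g (nat_lit 0) .nil .nil))) 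
(.lf (nat_lit 234219) (.g (nat_lit 2188) (.e (nat_lit 106534) (nat_lit 11) (.e (nat_lit 16473) (nat_lit 14) (.e (nat_lit 491558) (nat_lit 10) (.e (nat_lit 344104) (nat_lit 18) .nil)))) .nil))) (.nd (nat_lit 5) 
(.lf (nat_lit 234203) (.g (nat_lit 4160) (.e (nat_lit 106534) (nat_lit 11) (.e (nat_lit 16470) (nat_lit 14) (.e (nat_lit 491566) (nat_lit 12) (.e (nat_lit 385104) (nat_lit 50) (.e (nat_lit 786460) (nat_lit 20) (.e (nat_lit 114723) (nat_lit 24) .nil)))))) (.g (nat_lit 4) .nil .nil))) 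
(.lf (nat_lit 234235) (.g (nat_lit 2093) (.e (nat_lit 106534) (nat_lit 11) (.e (nat_lit 16473) (nat_lit 14) (.e (nat_lit 491560) (nat_lit 10) (.e (nat_lit 344103) (nat_lit 18) .nil)))) .nil))))) (.nd (nat_lit 3) (.nd (nat_lit 4) (.nd (nat_lit 5) 
(.lf (nat_lit 234183) (.g (nat_lit 2149) (.e (nat_lit 106534) (nat_lit 11) (.e (nat_lit 16468) (nat_lit 13) (.e (nat_lit 483396) (nat_lit 24) (.e (nat_lit 344097) (nat_lit 18) (.e (nat_lit 5194) (nat_lit 294) (.e (nat_lit 57386) (nat_lit 4) .nil)))))) (.g (nat_lit 4) .nil .nil))) 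
(.lf (nat_lit 234215) (.g (nat_lit 2276) (.e (nat_lit 106534) (nat_lit 11) (.e (nat_lit 16473) (nat_lit 14) (.e (nat_lit 491558) (nat_lit 10) (.e (nat_lit 344089) (nat_lit 18) .nil)))) .nil))) (.nd (nat_lit 5) 
(.lf (nat_lit 234199) (.g (nat_lit 4099) (.e (nat_lit 106534) (nat_lit 11) (.e (nat_lit 16470) (nat_lit 14) (.e (nat_lit 491566) (nat_lit 12) (.e (nat_lit 385091) (nat_lit 49) .nil)))) .nil)) 
(.lf (nat_lit 234231) (.g (nat_lit 2187) (.e (nat_lit 106534) (nat_lit 11) (.e (nat_lit 16473) (nat_lit 14) (.e (nat_lit 491560) (nat_lit 10) (.e (nat_lit 344088) (nat_lit 18) .nil)))) .nil)))) (.nd (nat_lit 4) (.nd (nat_lit 5) 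
(.lf (nat_lit 234191) (.g (nat_lit 1443) (.e (nat_lit 106534) (nat_lit 11) (.e (nat_lit 16468) (nat_lit 13) (.e (nat_lit 483402) (nat_lit 26) (.e (nat_lit 385107) (nat_lit 51) (.e (nat_lit 802560) (nat_lit 4) .nil))))) .nil)) 
(.lf (nat_lit 234223) (.g (nat_lit 1015) (.e (nat_lit 106534) (nat_lit 11) (.e (nat_lit 16473) (nat_lit 14) (.e (nat_lit 491559) (nat_lit 10) .nil))) .nil))) (.nd (nat_lit 5) 
(.lf (nat_lit 234207) (.g (nat_lit 2238) (.e (nat_lit 106534) (nat_lit 11) (.e (nat_lit 16473) (nat_lit 14) (.e (nat_lit 491546) (nat_lit 9) (.e (nat_lit 336032) (nat_lit 4) .nil)))) .nil)) 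
(.lf (nat_lit 234239) (.g (nat_lit 1786) (.e (nat_lit 106534) (nat_lit 11) (.e (nat_lit 16473) (nat_lit 14) (.e (nat_lit 491560) (nat_lit 10) (.e (nat_lit 344169) (nat_lit 40) .nil)))) .nil))))))))

noncomputable def tv3062 : DT := (.nd (nat_lit 0) (.nd (nat_lit 1) (.nd (nat_lit 2) (.nd (nat_lit 3) (.nd (nat_lit 4) (.nd (nat_lit 5) (.nd (nat_lit 6) 
(.lf (nat_lit 234240) (.g (nat_lit 1086) (.e (nat_lit 106534) (nat_lit 11) (.e (nat_lit 16473) (nat_lit 14) (.e (nat_lit 491562) (nat_lit 12) .nil))) .nil)) 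
(.lf (nat_lit 234304) (.g (nat_lit 812) (.e (nat_lit 106535) (nat_lit 11) (.e (nat_lit 16433) (nat_lit 9) (.e (nat_lit 426555) (nat_lit 32) .nil))) .nil))) (.nd (nat_lit 6) 
(.lf (nat_lit 234272) (.g (nat_lit 2726) (.e (nat_lit 106534) (nat_lit 11) (.e (nat_lit 16487) (nat_lit 27) (.e (nat_lit 335986) (nat_lit 1) (.e (nat_lit 57847) (nat_lit 252) (.e (nat_lit 57367) (nat_lit 1) .nil))))) .nil)) 
(.lf (nat_lit 234336) (.g (nat_lit 4149) (.e (nat_lit 106535) (nat_lit 11) (.e (nat_lit 16470) (nat_lit 14) (.e (nat_lit 491566) (nat_lit 12) (.e (nat_lit 385091) (nat_lit 49) .nil)))) .nil)))) (.nd (nat_lit 5) (.nd (nat_lit 6) 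
(.lf (nat_lit 234256) (.g (nat_lit 4874) (.e (nat_lit 106534) (nat_lit 11) (.e (nat_lit 16473) (nat_lit 14) (.e (nat_lit 491572) (nat_lit 14) (.e (nat_lit 401454) (nat_lit 12) (.e (nat_lit 475214) (nat_lit 42) (.e (nat_lit 720948) (nat_lit 24) .nil)))))) (.g (nat_lit 5) .nil .nil))) 
(.lf (nat_lit 234320) (.g (nat_lit 763) (.e (nat_lit 106535) (nat_lit 11) (.e (nat_lit 16465) (nat_lit 13) (.e (nat_lit 483380) (nat_lit 23) .nil))) .nil))) (.nd (nat_lit 6) 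
(.lf (nat_lit 234288) (.g (nat_lit 1080) (.e (nat_lit 106535) (nat_lit 11) (.e (nat_lit 16415) (nat_lit 3) (.e (nat_lit 204861) (nat_lit 26) (.e (nat_lit 336076) (nat_lit 9) .nil)))) .nil)) 
(.lf (nat_lit 234352) (.g (nat_lit 2787) (.e (nat_lit 106535) (nat_lit 11) (.e (nat_lit 16473) (nat_lit 14) (.e (nat_lit 491558) (nat_lit 10) (.e (nat_lit 352000) (nat_lit 18) .nil)))) .nil))))) (.nd (nat_lit 4) (.nd (nat_lit 5) (.nd (nat_lit 6) 
(.lf (nat_lit 234248) (.g (nat_lit 1916) (.e (nat_lit 106534) (nat_lit 11) (.e (nat_lit 16473) (nat_lit 14) (.e (nat_lit 491572) (nat_lit 14) (.e (nat_lit 401438) (nat_lit 9) .nil)))) .nil)) 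
(.lf (nat_lit 234312) (.g (nat_lit 1423) (.e (nat_lit 106535) (nat_lit 11) (.e (nat_lit 16463) (nat_lit 13) (.e (nat_lit 483385) (nat_lit 23) (.e (nat_lit 336334) (nat_lit 20) .nil)))) .nil))) (.nd (nat_lit 6) 
(.lf (nat_lit 234280) (.g (nat_lit 4031) (.e (nat_lit 106534) (nat_lit 11) (.e (nat_lit 16487) (nat_lit 27) (.e (nat_lit 335995) (nat_lit 1) (.e (nat_lit 57849) (nat_lit 252) (.e (nat_lit 57368) (nat_lit 1) (.e (nat_lit 57854) (nat_lit 252) (.e (nat_lit 57389) (nat_lit 5) (.e (nat_lit 114723) (nat_lit 24) .nil)))))))) (.g (nat_lit 6) .nil .nil))) 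
(.lf (nat_lit 234344) (.g (nat_lit 2235) (.e (nat_lit 106535) (nat_lit 11) (.e (nat_lit 16473) (nat_lit 14) (.e (nat_lit 491552) (nat_lit 9) (.e (nat_lit 336030) (nat_lit 4) .nil)))) .nil)))) (.nd (nat_lit 5) (.nd (nat_lit 6) 
(.lf (nat_lit 234264) (.g (nat_lit 3466) (.e (nat_lit 106534) (nat_lit 11) (.e (nat_lit 16483) (nat_lit 27) (.e (nat_lit 335995) (nat_lit 1) (.e (nat_lit 57849) (nat_lit 252) (.e (nat_lit 57365) (nat_lit 1) (.e (nat_lit 57854) (nat_lit 252) (.e (nat_lit 57389) (nat_lit 5) (.e (nat_lit 114723) (nat_lit 24) .nil)))))))) (.g (nat_lit 6) .nil .nil))) 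
(.lf (nat_lit 234328) (.g (nat_lit 694) (.e (nat_lit 106535) (nat_lit 11) (.e (nat_lit 16465) (nat_lit 13) (.e (nat_lit 483403) (nat_lit 26) .nil))) .nil))) (.nd (nat_lit 6) 
(.lf (nat_lit 234296) (.g (nat_lit 2148) (.e (nat_lit 106535) (nat_lit 11) (.e (nat_lit 16416) (nat_lit 3) (.e (nat_lit 204861) (nat_lit 26) (.e (nat_lit 336076) (nat_lit 9) (.e (nat_lit 336326) (nat_lit 18) .nil))))) .nil)) 
(.lf (nat_lit 234360) (.g (nat_lit 3342) (.e (nat_lit 106535) (nat_lit 11) (.e (nat_lit 16473) (nat_lit 14) (.e (nat_lit 491560) (nat_lit 10) (.e (nat_lit 344089) (nat_lit 18) .nil)))) .nil)))))) (.nd (nat_lit 3) (.nd (nat_lit 4) (.nd (nat_lit 5) (.nd (nat_lit 6) 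
(.lf (nat_lit 234244) (.g (nat_lit 3438) (.e (nat_lit 106534) (nat_lit 11) (.e (nat_lit 16473) (nat_lit 14) (.e (nat_lit 491563) (nat_lit 12) (.e (nat_lit 385105) (nat_lit 50) .nil)))) .nil)) 
(.lf (nat_lit 234308) (.g (nat_lit 2340) (.e (nat_lit 106535) (nat_lit 11) (.e (nat_lit 16436) (nat_lit 9) (.e (nat_lit 426555) (nat_lit 32) (.e (nat_lit 376860) (nat_lit 21) (.e (nat_lit 57854) (nat_lit 252) .nil))))) .nil))) (.nd (nat_lit 6) 
(.lf (nat_lit 234276) (.g (nat_lit 4256) (.e (nat_lit 106534) (nat_lit 11) (.e (nat_lit 16487) (nat_lit 27) (.e (nat_lit 335995) (nat_lit 1) (.e (nat_lit 57847) (nat_lit 252) (.e (nat_lit 57365) (nat_lit 1) (.e (nat_lit 57854) (nat_lit 252) (.e (nat_lit 57389) (nat_lit 5) (.e (nat_lit 114723) (nat_lit 24) .nil)))))))) (.g (nat_lit 6) .nil .nil))) 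
(.lf (nat_lit 234340) (.g (nat_lit 3334) (.e (nat_lit 106535) (nat_lit 11) (.e (nat_lit 16470) (nat_lit 14) (.e (nat_lit 491566) (nat_lit 12) (.e (nat_lit 385105) (nat_lit 50) .nil)))) .nil)))) (.nd (nat_lit 5) (.nd (nat_lit 6) 
(.lf (nat_lit 234260) (.g (nat_lit 3907) (.e (nat_lit 106534) (nat_lit 11) (.e (nat_lit 16483) (nat_lit 27) (.e (nat_lit 335986) (nat_lit 1) (.e (nat_lit 57847) (nat_lit 252) (.e (nat_lit 57365) (nat_lit 1) (.e (nat_lit 57854) (nat_lit 252) (.e (nat_lit 57389) (nat_lit 5) (.e (nat_lit 114723) (nat_lit 24) .nil)))))))) (.g (nat_lit 6) .nil .nil))) 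
(.lf (nat_lit 234324) (.g (nat_lit 1186) (.e (nat_lit 106535) (nat_lit 11) (.e (nat_lit 16465) (nat_lit 13) (.e (nat_lit 483383) (nat_lit 23) (.e (nat_lit 336336) (nat_lit 20) .nil)))) .nil))) (.nd (nat_lit 6) 
(.lf (nat_lit 234292) (.g (nat_lit 638) (.e (nat_lit 106535) (nat_lit 11) (.e (nat_lit 16416) (nat_lit 3) (.e (nat_lit 204859) (nat_lit 26) .nil))) .nil)) 
(.lf (nat_lit 234356) (.g (nat_lit 3717) (.e (nat_lit 106535) (nat_lit 11) (.e (nat_lit 16473) (nat_lit 14) (.e (nat_lit 491559) (nat_lit 10) (.e (nat_lit 344169) (nat_lit 40) (.e (nat_lit 671748) (nat_lit 0) .nil))))) .nil))))) (.nd (nat_lit 4) (.nd (nat_lit 5) (.nd (nat_lit 6) 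
(.lf (nat_lit 234252) (.g (nat_lit 1842) (.e (nat_lit 106534) (nat_lit 11) (.e (nat_lit 16473) (nat_lit 14) (.e (nat_lit 491572) (nat_lit 14) (.e (nat_lit 401453) (nat_lit 12) .nil)))) .nil)) 
(.lf (nat_lit 234316) (.g (nat_lit 1431) (.e (nat_lit 106535) (nat_lit 11) (.e (nat_lit 16463) (nat_lit 13) (.e (nat_lit 483393) (nat_lit 23) (.e (nat_lit 335986) (nat_lit 1) .nil)))) .nil))) (.nd (nat_lit 6) 
(.lf (nat_lit 234284) (.g (nat_lit 1425) (.e (nat_lit 106534) (nat_lit 11) (.e (nat_lit 24320) (nat_lit 34) (.e (nat_lit 393263) (nat_lit 22) (.e (nat_lit 417815) (nat_lit 10) (.e (nat_lit 604) (nat_lit 45) (.e (nat_lit 532511) (nat_lit 2) .nil)))))) (.g (nat_lit 4) .nil .nil))) 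
(.lf (nat_lit 234348) (.g (nat_lit 1308) (.e (nat_lit 106535) (nat_lit 11) (.e (nat_lit 16473) (nat_lit 14) (.e (nat_lit 491558) (nat_lit 10) .nil))) .nil)))) (.nd (nat_lit 5) (.nd (nat_lit 6) 
(.lf (nat_lit 234268) (.g (nat_lit 1539) (.e (nat_lit 106534) (nat_lit 11) (.e (nat_lit 16486) (nat_lit 27) (.e (nat_lit 335995) (nat_lit 1) (.e (nat_lit 57849) (nat_lit 252) (.e (nat_lit 57365) (nat_lit 1) .nil))))) .nil)) 
(.lf (nat_lit 234332) (.g (nat_lit 1624) (.e (nat_lit 106535) (nat_lit 11) (.e (nat_lit 16468) (nat_lit 13) (.e (nat_lit 483393) (nat_lit 23) (.e (nat_lit 335986) (nat_lit 1) (.e (nat_lit 57847) (nat_lit 252) .nil))))) .nil))) (.nd (nat_lit 6) 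
(.lf (nat_lit 234300) (.g (nat_lit 1752) (.e (nat_lit 106535) (nat_lit 11) (.e (nat_lit 16432) (nat_lit 9) (.e (nat_lit 426555) (nat_lit 32) (.e (nat_lit 376857) (nat_lit 21) (.e (nat_lit 57849) (nat_lit 252) .nil))))) .nil)) 
(.lf (nat_lit 234364) (.g (nat_lit 3028) (.e (nat_lit 106535) (nat_lit 11) (.e (nat_lit 16473) (nat_lit 14) (.e (nat_lit 491560) (nat_lit 10) (.e (nat_lit 344103) (nat_lit 18) (.e (nat_lit 5946) (nat_lit 322) .nil))))) .nil))))))) (.nd (nat_lit 2) (.nd (nat_lit 3) (.nd (nat_lit 4) (.nd (nat_lit 5) (.nd (nat_lit 6) 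
(.lf (nat_lit 234242) (.g (nat_lit 3438) (.e (nat_lit 106534) (nat_lit 11) (.e (nat_lit 16473) (nat_lit 14) (.e (nat_lit 491563) (nat_lit 12) (.e (nat_lit 385092) (nat_lit 49) .nil)))) .nil)) 
(.lf (nat_lit 234306) (.g (nat_lit 1241) (.e (nat_lit 106535) (nat_lit 11) (.e (nat_lit 16435) (nat_lit 9) (.e (nat_lit 426544) (nat_lit 30) (.e (nat_lit 360453) (nat_lit 0) .nil)))) .nil))) (.nd (nat_lit 6) 
(.lf (nat_lit 234274) (.g (nat_lit 2123) (.e (nat_lit 106534) (nat_lit 11) (.e (nat_lit 16487) (nat_lit 27) (.e (nat_lit 335993) (nat_lit 1) (.e (nat_lit 57847) (nat_lit 252) (.e (nat_lit 57368) (nat_lit 1) (.e (nat_lit 57854) (nat_lit 252) (.e (nat_lit 57389) (nat_lit 5) (.e (nat_lit 114723) (nat_lit 24) .nil)))))))) (.g (nat_lit 4) .nil .nil))) 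
(.lf (nat_lit 234338) (.g (nat_lit 3241) (.e (nat_lit 106535) (nat_lit 11) (.e (nat_lit 16470) (nat_lit 14) (.e (nat_lit 491566) (nat_lit 12) (.e (nat_lit 385093) (nat_lit 49) .nil)))) .nil)))) (.nd (nat_lit 5) (.nd (nat_lit 6) 
(.lf (nat_lit 234258) (.g (nat_lit 2319) (.e (nat_lit 106534) (nat_lit 11) (.e (nat_lit 16482) (nat_lit 27) (.e (nat_lit 335995) (nat_lit 1) (.e (nat_lit 57849) (nat_lit 252) (.e (nat_lit 57365) (nat_lit 1) (.e (nat_lit 57854) (nat_lit 252) (.e (nat_lit 57389) (nat_lit 5) (.e (nat_lit 114723) (nat_lit 24) .nil)))))))) (.g (nat_lit 4) .nil .nil))) 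
(.lf (nat_lit 234322) (.g (nat_lit 1761) (.e (nat_lit 106535) (nat_lit 11) (.e (nat_lit 16465) (nat_lit 13) (.e (nat_lit 483383) (nat_lit 23) (.e (nat_lit 336000) (nat_lit 1) (.e (nat_lit 57849) (nat_lit 252) .nil))))) .nil))) (.nd (nat_lit 6) 
(.lf (nat_lit 234290) (.g (nat_lit 1834) (.e (nat_lit 106535) (nat_lit 11) (.e (nat_lit 16415) (nat_lit 3) (.e (nat_lit 204861) (nat_lit 26) (.e (nat_lit 336194) (nat_lit 12) (.e (nat_lit 385064) (nat_lit 26) .nil))))) .nil)) 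
(.lf (nat_lit 234354) (.g (nat_lit 3091) (.e (nat_lit 106535) (nat_lit 11) (.e (nat_lit 16473) (nat_lit 14) (.e (nat_lit 491559) (nat_lit 10) (.e (nat_lit 344168) (nat_lit 40) .nil)))) .nil))))) (.nd (nat_lit 4) (.nd (nat_lit 5) (.nd (nat_lit 6) 
(.lf (nat_lit 234250) (.g (nat_lit 1922) (.e (nat_lit 106534) (nat_lit 11) (.e (nat_lit 16473) (nat_lit 14) (.e (nat_lit 491572) (nat_lit 14) (.e (nat_lit 401444) (nat_lit 9) .nil)))) .nil)) 
(.lf (nat_lit 234314) (.g (nat_lit 1889) (.e (nat_lit 106535) (nat_lit 11) (.e (nat_lit 16463) (nat_lit 13) (.e (nat_lit 483392) (nat_lit 23) (.e (nat_lit 335986) (nat_lit 1) (.e (nat_lit 57847) (nat_lit 252) .nil))))) .nil))) (.nd (nat_lit 6) 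
(.lf (nat_lit 234282) (.g (nat_lit 1390) (.e (nat_lit 106534) (nat_lit 11) (.e (nat_lit 24320) (nat_lit 34) (.e (nat_lit 393259) (nat_lit 21) (.e (nat_lit 409617) (nat_lit 10) (.e (nat_lit 604) (nat_lit 45) (.e (nat_lit 532508) (nat_lit 2) .nil)))))) (.g (nat_lit 4) .nil .nil))) 
(.lf (nat_lit 234346) (.g (nat_lit 1406) (.e (nat_lit 106535) (nat_lit 11) (.e (nat_lit 16473) (nat_lit 14) (.e (nat_lit 491556) (nat_lit 9) .nil))) .nil)))) (.nd (nat_lit 5) (.nd (nat_lit 6) 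
(.lf (nat_lit 234266) (.g (nat_lit 1858) (.e (nat_lit 106534) (nat_lit 11) (.e (nat_lit 16483) (nat_lit 27) (.e (nat_lit 335996) (nat_lit 1) (.e (nat_lit 57854) (nat_lit 252) (.e (nat_lit 57366) (nat_lit 1) .nil))))) .nil)) 
(.lf (nat_lit 234330) (.g (nat_lit 1165) (.e (nat_lit 106535) (nat_lit 11) (.e (nat_lit 16468) (nat_lit 13) (.e (nat_lit 483383) (nat_lit 23) (.e (nat_lit 336000) (nat_lit 1) .nil)))) .nil))) (.nd (nat_lit 6) 
(.lf (nat_lit 234298) (.g (nat_lit 1551) (.e (nat_lit 106535) (nat_lit 11) (.e (nat_lit 16416) (nat_lit 3) (.e (nat_lit 204861) (nat_lit 26) (.e (nat_lit 336195) (nat_lit 12) .nil)))) .nil)) 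
(.lf (nat_lit 234362) (.g (nat_lit 3209) (.e (nat_lit 106535) (nat_lit 11) (.e (nat_lit 16473) (nat_lit 14) (.e (nat_lit 491560) (nat_lit 10) (.e (nat_lit 344102) (nat_lit 18) .nil)))) .nil)))))) (.nd (nat_lit 3) (.nd (nat_lit 4) (.nd (nat_lit 5) (.nd (nat_lit 6) 
(.lf (nat_lit 234246) (.g (nat_lit 942) (.e (nat_lit 106534) (nat_lit 11) (.e (nat_lit 16473) (nat_lit 14) (.e (nat_lit 491572) (nat_lit 14) .nil))) .nil)) 
(.lf (nat_lit 234310) (.g (nat_lit 917) (.e (nat_lit 106535) (nat_lit 11) (.e (nat_lit 16463) (nat_lit 13) (.e (nat_lit 483382) (nat_lit 23) .nil))) .nil))) (.nd (nat_lit 6) 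
(.lf (nat_lit 234278) (.g (nat_lit 3723) (.e (nat_lit 106534) (nat_lit 11) (.e (nat_lit 16487) (nat_lit 27) (.e (nat_lit 335995) (nat_lit 1) (.e (nat_lit 57848) (nat_lit 252) (.e (nat_lit 57368) (nat_lit 1) (.e (nat_lit 57854) (nat_lit 252) (.e (nat_lit 57389) (nat_lit 5) (.e (nat_lit 114723) (nat_lit 24) .nil)))))))) (.g (nat_lit 6) .nil .nil))) 
(.lf (nat_lit 234342) (.g (nat_lit 2989) (.e (nat_lit 106535) (nat_lit 11) (.e (nat_lit 16473) (nat_lit 14) (.e (nat_lit 491546) (nat_lit 9) (.e (nat_lit 336032) (nat_lit 4) .nil)))) .nil)))) (.nd (nat_lit 5) (.nd (nat_lit 6) 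
(.lf (nat_lit 234262) (.g (nat_lit 2761) (.e (nat_lit 106534) (nat_lit 11) (.e (nat_lit 16483) (nat_lit 27) (.e (nat_lit 335988) (nat_lit 1) (.e (nat_lit 57854) (nat_lit 252) (.e (nat_lit 57366) (nat_lit 1) (.e (nat_lit 57854) (nat_lit 252) (.e (nat_lit 57389) (nat_lit 5) (.e (nat_lit 114723) (nat_lit 24) .nil)))))))) (.g (nat_lit 4) .nil .nil))) 
(.lf (nat_lit 234326) (.g (nat_lit 809) (.e (nat_lit 106535) (nat_lit 11) (.e (nat_lit 16465) (nat_lit 13) (.e (nat_lit 483393) (nat_lit 23) .nil))) .nil))) (.nd (nat_lit 6) 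
(.lf (nat_lit 234294) (.g (nat_lit 1762) (.e (nat_lit 106535) (nat_lit 11) (.e (nat_lit 16416) (nat_lit 3) (.e (nat_lit 204861) (nat_lit 26) (.e (nat_lit 336075) (nat_lit 9) (.e (nat_lit 336326) (nat_lit 18) .nil))))) .nil)) 
(.lf (nat_lit 234358) (.g (nat_lit 2883) (.e (nat_lit 106535) (nat_lit 11) (.e (nat_lit 16473) (nat_lit 14) (.e (nat_lit 491560) (nat_lit 10) (.e (nat_lit 344087) (nat_lit 18) .nil)))) .nil))))) (.nd (nat_lit 4) (.nd (nat_lit 5) (.nd (nat_lit 6) 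
(.lf (nat_lit 234254) (.g (nat_lit 3897) (.e (nat_lit 106534) (nat_lit 11) (.e (nat_lit 16473) (nat_lit 14) (.e (nat_lit 491572) (nat_lit 14) (.e (nat_lit 401454) (nat_lit 12) (.e (nat_lit 475213) (nat_lit 42) .nil))))) .nil)) 
(.lf (nat_lit 234318) (.g (nat_lit 931) (.e (nat_lit 106535) (nat_lit 11) (.e (nat_lit 16463) (nat_lit 13) (.e (nat_lit 483395) (nat_lit 24) .nil))) .nil))) (.nd (nat_lit 6) 
(.lf (nat_lit 234286) (.g (nat_lit 1172) (.e (nat_lit 106535) (nat_lit 11) (.e (nat_lit 16412) (nat_lit 2) (.e (nat_lit 196681) (nat_lit 17) (.e (nat_lit 131120) (nat_lit 12) .nil)))) .nil)) 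
(.lf (nat_lit 234350) (.g (nat_lit 3010) (.e (nat_lit 106535) (nat_lit 11) (.e (nat_lit 16473) (nat_lit 14) (.e (nat_lit 491558) (nat_lit 10) (.e (nat_lit 344102) (nat_lit 18) .nil)))) .nil)))) (.nd (nat_lit 5) (.nd (nat_lit 6) 
(.lf (nat_lit 234270) (.g (nat_lit 2544) (.e (nat_lit 106534) (nat_lit 11) (.e (nat_lit 16487) (nat_lit 27) (.e (nat_lit 335986) (nat_lit 1) (.e (nat_lit 57847) (nat_lit 252) (.e (nat_lit 57365) (nat_lit 1) .nil))))) .nil)) 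
(.lf (nat_lit 234334) (.g (nat_lit 1612) (.e (nat_lit 106535) (nat_lit 11) (.e (nat_lit 16468) (nat_lit 13) (.e (nat_lit 483394) (nat_lit 24) (.e (nat_lit 344097) (nat_lit 18) (.e (nat_lit 5195) (nat_lit 294) .nil))))) .nil))) (.nd (nat_lit 6) 
(.lf (nat_lit 234302) (.g (nat_lit 1137) (.e (nat_lit 106535) (nat_lit 11) (.e (nat_lit 16432) (nat_lit 9) (.e (nat_lit 426555) (nat_lit 32) (.e (nat_lit 376860) (nat_lit 21) .nil)))) .nil)) 
(.lf (nat_lit 234366) (.g (nat_lit 2718) (.e (nat_lit 106535) (nat_lit 11) (.e (nat_lit 16473) (nat_lit 14) (.e (nat_lit 491560) (nat_lit 10) (.e (nat_lit 352000) (nat_lit 18) .nil)))) .nil)))))))) (.nd (nat_lit 1) (.nd (nat_lit 2) (.nd (nat_lit 3) (.nd (nat_lit 4) (.nd (nat_lit 5) (.nd (nat_lit 6) 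
(.lf (nat_lit 234241) (.g (nat_lit 2637) (.e (nat_lit 106534) (nat_lit 11) (.e (nat_lit 16473) (nat_lit 14) (.e (nat_lit 491562) (nat_lit 12) (.e (nat_lit 385106) (nat_lit 50) .nil)))) .nil)) 
(.lf (nat_lit 234305) (.g (nat_lit 1082) (.e (nat_lit 106535) (nat_lit 11) (.e (nat_lit 16434) (nat_lit 9) (.e (nat_lit 426555) (nat_lit 32) (.e (nat_lit 376857) (nat_lit 21) .nil)))) .nil))) (.nd (nat_lit 6) 
(.lf (nat_lit 234273) (.g (nat_lit 2997) (.e (nat_lit 106534) (nat_lit 11) (.e (nat_lit 16487) (nat_lit 27) (.e (nat_lit 335986) (nat_lit 1) (.e (nat_lit 57847) (nat_lit 252) (.e (nat_lit 57368) (nat_lit 1) (.e (nat_lit 57854) (nat_lit 252) (.e (nat_lit 57389) (nat_lit 5) (.e (nat_lit 114722) (nat_lit 24) .nil)))))))) (.g (nat_lit 4) .nil .nil))) 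
(.lf (nat_lit 234337) (.g (nat_lit 3172) (.e (nat_lit 106535) (nat_lit 11) (.e (nat_lit 16470) (nat_lit 14) (.e (nat_lit 491566) (nat_lit 12) (.e (nat_lit 385092) (nat_lit 49) .nil)))) .nil)))) (.nd (nat_lit 5) (.nd (nat_lit 6) 
(.lf (nat_lit 234257) (.g (nat_lit 4776) (.e (nat_lit 106534) (nat_lit 11) (.e (nat_lit 16473) (nat_lit 14) (.e (nat_lit 491572) (nat_lit 14) (.e (nat_lit 401454) (nat_lit 12) (.e (nat_lit 475214) (nat_lit 42) (.e (nat_lit 720949) (nat_lit 24) .nil)))))) (.g (nat_lit 5) .nil .nil))) 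
(.lf (nat_lit 234321) (.g (nat_lit 1350) (.e (nat_lit 106535) (nat_lit 11) (.e (nat_lit 16465) (nat_lit 13) (.e (nat_lit 483383) (nat_lit 23) (.e (nat_lit 336000) (nat_lit 1) .nil)))) .nil))) (.nd (nat_lit 6) 
(.lf (nat_lit 234289) (.g (nat_lit 1003) (.e (nat_lit 106535) (nat_lit 11) (.e (nat_lit 16415) (nat_lit 3) (.e (nat_lit 204861) (nat_lit 26) (.e (nat_lit 336194) (nat_lit 12) .nil)))) .nil)) 
(.lf (nat_lit 234353) (.g (nat_lit 2943) (.e (nat_lit 106535) (nat_lit 11) (.e (nat_lit 16473) (nat_lit 14) (.e (nat_lit 491558) (nat_lit 10) (.e (nat_lit 344168) (nat_lit 40) .nil)))) .nil))))) (.nd (nat_lit 4) (.nd (nat_lit 5) (.nd (nat_lit 6) 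
(.lf (nat_lit 234249) (.g (nat_lit 2950) (.e (nat_lit 106534) (nat_lit 11) (.e (nat_lit 16473) (nat_lit 14) (.e (nat_lit 491572) (nat_lit 14) (.e (nat_lit 401438) (nat_lit 9) (.e (nat_lit 426448) (nat_lit 20) .nil))))) .nil)) 
(.lf (nat_lit 234313) (.g (nat_lit 931) (.e (nat_lit 106535) (nat_lit 11) (.e (nat_lit 16463) (nat_lit 13) (.e (nat_lit 483387) (nat_lit 23) .nil))) .nil))) (.nd (nat_lit 6) 
(.lf (nat_lit 234281) (.g (nat_lit 3183) (.e (nat_lit 106534) (nat_lit 11) (.e (nat_lit 16487) (nat_lit 27) (.e (nat_lit 335996) (nat_lit 1) (.e (nat_lit 57854) (nat_lit 252) (.e (nat_lit 57366) (nat_lit 1) .nil))))) .nil)) 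
(.lf (nat_lit 234345) (.g (nat_lit 2235) (.e (nat_lit 106535) (nat_lit 11) (.e (nat_lit 16473) (nat_lit 14) (.e (nat_lit 491552) (nat_lit 9) (.e (nat_lit 336034) (nat_lit 4) .nil)))) .nil)))) (.nd (nat_lit 5) (.nd (nat_lit 6) 
(.lf (nat_lit 234265) (.g (nat_lit 2347) (.e (nat_lit 106534) (nat_lit 11) (.e (nat_lit 16483) (nat_lit 27) (.e (nat_lit 335996) (nat_lit 1) (.e (nat_lit 57854) (nat_lit 252) (.e (nat_lit 57364) (nat_lit 1) (.e (nat_lit 57854) (nat_lit 252) (.e (nat_lit 57389) (nat_lit 5) (.e (nat_lit 114723) (nat_lit 24) .nil)))))))) (.g (nat_lit 4) .nil .nil))) 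
(.lf (nat_lit 234329) (.g (nat_lit 1237) (.e (nat_lit 106535) (nat_lit 11) (.e (nat_lit 16465) (nat_lit 13) (.e (nat_lit 483406) (nat_lit 26) (.e (nat_lit 385109) (nat_lit 51) .nil)))) .nil))) (.nd (nat_lit 6) 
(.lf (nat_lit 234297) (.g (nat_lit 2044) (.e (nat_lit 106535) (nat_lit 11) (.e (nat_lit 16416) (nat_lit 3) (.e (nat_lit 204861) (nat_lit 26) (.e (nat_lit 336194) (nat_lit 12) (.e (nat_lit 385066) (nat_lit 26) .nil))))) .nil)) 
(.lf (nat_lit 234361) (.g (nat_lit 3283) (.e (nat_lit 106535) (nat_lit 11) (.e (nat_lit 16473) (nat_lit 14) (.e (nat_lit 491560) (nat_lit 10) (.e (nat_lit 344093) (nat_lit 18) .nil)))) .nil)))))) (.nd (nat_lit 3) (.nd (nat_lit 4) (.nd (nat_lit 5) (.nd (nat_lit 6) 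
(.lf (nat_lit 234245) (.g (nat_lit 3402) (.e (nat_lit 106534) (nat_lit 11) (.e (nat_lit 16473) (nat_lit 14) (.e (nat_lit 491563) (nat_lit 12) (.e (nat_lit 385106) (nat_lit 50) .nil)))) .nil)) 
(.lf (nat_lit 234309) (.g (nat_lit 931) (.e (nat_lit 106535) (nat_lit 11) (.e (nat_lit 16463) (nat_lit 13) (.e (nat_lit 483378) (nat_lit 23) .nil))) .nil))) (.nd (nat_lit 6) 
(.lf (nat_lit 234277) (.g (nat_lit 2761) (.e (nat_lit 106534) (nat_lit 11) (.e (nat_lit 16487) (nat_lit 27) (.e (nat_lit 335995) (nat_lit 1) (.e (nat_lit 57847) (nat_lit 252) (.e (nat_lit 57368) (nat_lit 1) (.e (nat_lit 57854) (nat_lit 252) (.e (nat_lit 57389) (nat_lit 5) (.e (nat_lit 114722) (nat_lit 24) .nil)))))))) (.g (nat_lit 4) .nil .nil))) 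
(.lf (nat_lit 234341) (.g (nat_lit 1490) (.e (nat_lit 106535) (nat_lit 11) (.e (nat_lit 16473) (nat_lit 14) (.e (nat_lit 491546) (nat_lit 9) .nil))) .nil)))) (.nd (nat_lit 5) (.nd (nat_lit 6) 
(.lf (nat_lit 234261) (.g (nat_lit 2361) (.e (nat_lit 106534) (nat_lit 11) (.e (nat_lit 16483) (nat_lit 27) (.e (nat_lit 335986) (nat_lit 1) (.e (nat_lit 57847) (nat_lit 252) (.e (nat_lit 57368) (nat_lit 1) (.e (nat_lit 57854) (nat_lit 252) (.e (nat_lit 57389) (nat_lit 5) (.e (nat_lit 114722) (nat_lit 24) .nil)))))))) (.g (nat_lit 4) .nil .nil))) 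
(.lf (nat_lit 234325) (.g (nat_lit 896) (.e (nat_lit 106535) (nat_lit 11) (.e (nat_lit 16465) (nat_lit 13) (.e (nat_lit 483386) (nat_lit 23) .nil))) .nil))) (.nd (nat_lit 6) 
(.lf (nat_lit 234293) (.g (nat_lit 1468) (.e (nat_lit 106535) (nat_lit 11) (.e (nat_lit 16416) (nat_lit 3) (.e (nat_lit 204861) (nat_lit 26) (.e (nat_lit 336075) (nat_lit 9) .nil)))) .nil)) 
(.lf (nat_lit 234357) (.g (nat_lit 993) (.e (nat_lit 106535) (nat_lit 11) (.e (nat_lit 16473) (nat_lit 14) (.e (nat_lit 491560) (nat_lit 10) .nil))) .nil))))) (.nd (nat_lit 4) (.nd (nat_lit 5) (.nd (nat_lit 6) 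
(.lf (nat_lit 234253) (.g (nat_lit 1796) (.e (nat_lit 106534) (nat_lit 11) (.e (nat_lit 16473) (nat_lit 14) (.e (nat_lit 491572) (nat_lit 14) (.e (nat_lit 401454) (nat_lit 12) .nil)))) .nil)) 
(.lf (nat_lit 234317) (.g (nat_lit 1573) (.e (nat_lit 106535) (nat_lit 11) (.e (nat_lit 16463) (nat_lit 13) (.e (nat_lit 483393) (nat_lit 23) (.e (nat_lit 335993) (nat_lit 1) .nil)))) .nil))) (.nd (nat_lit 6) 
(.lf (nat_lit 234285) (.g (nat_lit 1387) (.e (nat_lit 106535) (nat_lit 11) (.e (nat_lit 16388) (nat_lit 0) (.e (nat_lit 7587) (nat_lit 406) (.e (nat_lit 65574) (nat_lit 4) .nil)))) .nil)) 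
(.lf (nat_lit 234349) (.g (nat_lit 3028) (.e (nat_lit 106535) (nat_lit 11) (.e (nat_lit 16473) (nat_lit 14) (.e (nat_lit 491558) (nat_lit 10) (.e (nat_lit 344093) (nat_lit 18) .nil)))) .nil)))) (.nd (nat_lit 5) (.nd (nat_lit 6) 
(.lf (nat_lit 234269) (.g (nat_lit 1554) (.e (nat_lit 106534) (nat_lit 11) (.e (nat_lit 16487) (nat_lit 27) (.e (nat_lit 335986) (nat_lit 1) (.e (nat_lit 57847) (nat_lit 252) .nil)))) .nil)) 
(.lf (nat_lit 234333) (.g (nat_lit 1532) (.e (nat_lit 106535) (nat_lit 11) (.e (nat_lit 16468) (nat_lit 13) (.e (nat_lit 483393) (nat_lit 23) (.e (nat_lit 335986) (nat_lit 1) (.e (nat_lit 57849) (nat_lit 252) .nil))))) .nil))) (.nd (nat_lit 6) 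
(.lf (nat_lit 234301) (.g (nat_lit 1649) (.e (nat_lit 106535) (nat_lit 11) (.e (nat_lit 16432) (nat_lit 9) (.e (nat_lit 426555) (nat_lit 32) (.e (nat_lit 376859) (nat_lit 21) (.e (nat_lit 57849) (nat_lit 252) .nil))))) .nil)) 
(.lf (nat_lit 234365) (.g (nat_lit 3003) (.e (nat_lit 106535) (nat_lit 11) (.e (nat_lit 16473) (nat_lit 14) (.e (nat_lit 491560) (nat_lit 10) (.e (nat_lit 344103) (nat_lit 18) (.e (nat_lit 5949) (nat_lit 322) .nil))))) .nil))))))) (.nd (nat_lit 2) (.nd (nat_lit 3) (.nd (nat_lit 4) (.nd (nat_lit 5) (.nd (nat_lit 6) 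
(.lf (nat_lit 234243) (.g (nat_lit 3441) (.e (nat_lit 106534) (nat_lit 11) (.e (nat_lit 16473) (nat_lit 14) (.e (nat_lit 491563) (nat_lit 12) (.e (nat_lit 385102) (nat_lit 50) .nil)))) .nil)) 
(.lf (nat_lit 234307) (.g (nat_lit 2169) (.e (nat_lit 106535) (nat_lit 11) (.e (nat_lit 16436) (nat_lit 9) (.e (nat_lit 426555) (nat_lit 32) (.e (nat_lit 376857) (nat_lit 21) (.e (nat_lit 57854) (nat_lit 252) .nil))))) .nil))) (.nd (nat_lit 6) 
(.lf (nat_lit 234275) (.g (nat_lit 2010) (.e (nat_lit 106534) (nat_lit 11) (.e (nat_lit 16487) (nat_lit 27) (.e (nat_lit 335995) (nat_lit 1) (.e (nat_lit 57846) (nat_lit 252) (.e (nat_lit 57365) (nat_lit 1) .nil))))) .nil)) 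
(.lf (nat_lit 234339) (.g (nat_lit 3643) (.e (nat_lit 106535) (nat_lit 11) (.e (nat_lit 16470) (nat_lit 14) (.e (nat_lit 491566) (nat_lit 12) (.e (nat_lit 385104) (nat_lit 50) (.e (nat_lit 786460) (nat_lit 20) .nil))))) .nil)))) (.nd (nat_lit 5) (.nd (nat_lit 6) 
(.lf (nat_lit 234259) (.g (nat_lit 2853) (.e (nat_lit 106534) (nat_lit 11) (.e (nat_lit 16482) (nat_lit 27) (.e (nat_lit 335995) (nat_lit 1) (.e (nat_lit 57849) (nat_lit 252) (.e (nat_lit 57368) (nat_lit 1) (.e (nat_lit 57854) (nat_lit 252) (.e (nat_lit 57389) (nat_lit 5) (.e (nat_lit 114723) (nat_lit 24) .nil)))))))) (.g (nat_lit 4) .nil .nil))) 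
(.lf (nat_lit 234323) (.g (nat_lit 1610) (.e (nat_lit 106535) (nat_lit 11) (.e (nat_lit 16465) (nat_lit 13) (.e (nat_lit 483383) (nat_lit 23) (.e (nat_lit 336334) (nat_lit 20) .nil)))) .nil))) (.nd (nat_lit 6) 
(.lf (nat_lit 234291) (.g (nat_lit 705) (.e (nat_lit 106535) (nat_lit 11) (.e (nat_lit 16415) (nat_lit 3) (.e (nat_lit 204865) (nat_lit 28) .nil))) .nil)) 
(.lf (nat_lit 234355) (.g (nat_lit 3099) (.e (nat_lit 106535) (nat_lit 11) (.e (nat_lit 16473) (nat_lit 14) (.e (nat_lit 491559) (nat_lit 10) (.e (nat_lit 344169) (nat_lit 40) .nil)))) .nil))))) (.nd (nat_lit 4) (.nd (nat_lit 5) (.nd (nat_lit 6) 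
(.lf (nat_lit 234251) (.g (nat_lit 1882) (.e (nat_lit 106534) (nat_lit 11) (.e (nat_lit 16473) (nat_lit 14) (.e (nat_lit 491572) (nat_lit 14) (.e (nat_lit 401452) (nat_lit 12) .nil)))) .nil)) 
(.lf (nat_lit 234315) (.g (nat_lit 839) (.e (nat_lit 106535) (nat_lit 11) (.e (nat_lit 16463) (nat_lit 13) (.e (nat_lit 483393) (nat_lit 23) .nil))) .nil))) (.nd (nat_lit 6) 
(.lf (nat_lit 234283) (.g (nat_lit 1304) (.e (nat_lit 106534) (nat_lit 11) (.e (nat_lit 24320) (nat_lit 34) (.e (nat_lit 393259) (nat_lit 21) (.e (nat_lit 409617) (nat_lit 10) (.e (nat_lit 604) (nat_lit 45) (.e (nat_lit 532511) (nat_lit 2) .nil)))))) (.g (nat_lit 4) .nil .nil))) 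
(.lf (nat_lit 234347) (.g (nat_lit 2785) (.e (nat_lit 106535) (nat_lit 11) (.e (nat_lit 16473) (nat_lit 14) (.e (nat_lit 491556) (nat_lit 9) (.e (nat_lit 336035) (nat_lit 4) .nil)))) .nil)))) (.nd (nat_lit 5) (.nd (nat_lit 6) 
(.lf (nat_lit 234267) (.g (nat_lit 3350) (.e (nat_lit 106534) (nat_lit 11) (.e (nat_lit 16483) (nat_lit 27) (.e (nat_lit 335996) (nat_lit 1) (.e (nat_lit 57854) (nat_lit 252) (.e (nat_lit 57366) (nat_lit 1) (.e (nat_lit 57854) (nat_lit 252) (.e (nat_lit 57389) (nat_lit 5) (.e (nat_lit 114723) (nat_lit 24) .nil)))))))) (.g (nat_lit 6) .nil .nil))) 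
(.lf (nat_lit 234331) (.g (nat_lit 1677) (.e (nat_lit 106535) (nat_lit 11) (.e (nat_lit 16468) (nat_lit 13) (.e (nat_lit 483383) (nat_lit 23) (.e (nat_lit 336000) (nat_lit 1) (.e (nat_lit 57849) (nat_lit 252) .nil))))) .nil))) (.nd (nat_lit 6) 
(.lf (nat_lit 234299) (.g (nat_lit 782) (.e (nat_lit 106535) (nat_lit 11) (.e (nat_lit 16430) (nat_lit 8) (.e (nat_lit 417820) (nat_lit 10) (.e (nat_lit 5771) (nat_lit 316) .nil)))) .nil)) 
(.lf (nat_lit 234363) (.g (nat_lit 2841) (.e (nat_lit 106535) (nat_lit 11) (.e (nat_lit 16473) (nat_lit 14) (.e (nat_lit 491560) (nat_lit 10) (.e (nat_lit 344103) (nat_lit 18) .nil)))) .nil)))))) (.nd (nat_lit 3) (.nd (nat_lit 4) (.nd (nat_lit 5) (.nd (nat_lit 6) 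
(.lf (nat_lit 234247) (.g (nat_lit 1893) (.e (nat_lit 106534) (nat_lit 11) (.e (nat_lit 16473) (nat_lit 14) (.e (nat_lit 491572) (nat_lit 14) (.e (nat_lit 401436) (nat_lit 9) .nil)))) .nil)) 
(.lf (nat_lit 234311) (.g (nat_lit 2153) (.e (nat_lit 106535) (nat_lit 11) (.e (nat_lit 16463) (nat_lit 13) (.e (nat_lit 483383) (nat_lit 23) (.e (nat_lit 336000) (nat_lit 1) .nil)))) .nil))) (.nd (nat_lit 6) 
(.lf (nat_lit 234279) (.g (nat_lit 2580) (.e (nat_lit 106534) (nat_lit 11) (.e (nat_lit 16487) (nat_lit 27) (.e (nat_lit 335995) (nat_lit 1) (.e (nat_lit 57849) (nat_lit 252) (.e (nat_lit 57367) (nat_lit 1) .nil))))) .nil)) 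
(.lf (nat_lit 234343) (.g (nat_lit 1206) (.e (nat_lit 106535) (nat_lit 11) (.e (nat_lit 16473) (nat_lit 14) (.e (nat_lit 491552) (nat_lit 9) .nil))) .nil)))) (.nd (nat_lit 5) (.nd (nat_lit 6) 
(.lf (nat_lit 234263) (.g (nat_lit 2471) (.e (nat_lit 106534) (nat_lit 11) (.e (nat_lit 16483) (nat_lit 27) (.e (nat_lit 335995) (nat_lit 1) (.e (nat_lit 57848) (nat_lit 252) (.e (nat_lit 57365) (nat_lit 1) (.e (nat_lit 57854) (nat_lit 252) (.e (nat_lit 57389) (nat_lit 5) (.e (nat_lit 114723) (nat_lit 24) .nil)))))))) (.g (nat_lit 5) .nil .nil))) 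
(.lf (nat_lit 234327) (.g (nat_lit 2426) (.e (nat_lit 106535) (nat_lit 11) (.e (nat_lit 16465) (nat_lit 13) (.e (nat_lit 483393) (nat_lit 23) (.e (nat_lit 335986) (nat_lit 1) (.e (nat_lit 57847) (nat_lit 252) (.e (nat_lit 57386) (nat_lit 4) .nil)))))) (.g (nat_lit 5) .nil .nil)))) (.nd (nat_lit 6) 
(.lf (nat_lit 234295) (.g (nat_lit 1433) (.e (nat_lit 106535) (nat_lit 11) (.e (nat_lit 16416) (nat_lit 3) (.e (nat_lit 204861) (nat_lit 26) (.e (nat_lit 336076) (nat_lit 9) .nil)))) .nil)) 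
(.lf (nat_lit 234359) (.g (nat_lit 3029) (.e (nat_lit 106535) (nat_lit 11) (.e (nat_lit 16473) (nat_lit 14) (.e (nat_lit 491560) (nat_lit 10) (.e (nat_lit 344088) (nat_lit 18) .nil)))) .nil))))) (.nd (nat_lit 4) (.nd (nat_lit 5) (.nd (nat_lit 6) 
(.lf (nat_lit 234255) (.g (nat_lit 3178) (.e (nat_lit 106534) (nat_lit 11) (.e (nat_lit 16473) (nat_lit 14) (.e (nat_lit 491572) (nat_lit 14) (.e (nat_lit 401454) (nat_lit 12) (.e (nat_lit 475214) (nat_lit 42) .nil))))) .nil)) 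
(.lf (nat_lit 234319) (.g (nat_lit 1635) (.e (nat_lit 106535) (nat_lit 11) (.e (nat_lit 16463) (nat_lit 13) (.e (nat_lit 483408) (nat_lit 26) (.e (nat_lit 385100) (nat_lit 49) .nil)))) .nil))) (.nd (nat_lit 6) 
(.lf (nat_lit 234287) (.g (nat_lit 655) (.e (nat_lit 106535) (nat_lit 11) (.e (nat_lit 16415) (nat_lit 3) (.e (nat_lit 204859) (nat_lit 26) .nil))) .nil)) 
(.lf (nat_lit 234351) (.g (nat_lit 2935) (.e (nat_lit 106535) (nat_lit 11) (.e (nat_lit 16473) (nat_lit 14) (.e (nat_lit 491558) (nat_lit 10) (.e (nat_lit 344104) (nat_lit 18) .nil)))) .nil)))) (.nd (nat_lit 5) (.nd (nat_lit 6) 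
(.lf (nat_lit 234271) (.g (nat_lit 4568) (.e (nat_lit 106534) (nat_lit 11) (.e (nat_lit 16487) (nat_lit 27) (.e (nat_lit 335986) (nat_lit 1) (.e (nat_lit 57847) (nat_lit 252) (.e (nat_lit 57365) (nat_lit 1) (.e (nat_lit 57854) (nat_lit 252) (.e (nat_lit 57389) (nat_lit 5) (.e (nat_lit 114723) (nat_lit 24) .nil)))))))) (.g (nat_lit 6) .nil .nil))) 
(.lf (nat_lit 234335) (.g (nat_lit 1399) (.e (nat_lit 106535) (nat_lit 11) (.e (nat_lit 16470) (nat_lit 14) (.e (nat_lit 491566) (nat_lit 12) .nil))) .nil))) (.nd (nat_lit 6) 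
(.lf (nat_lit 234303) (.g (nat_lit 910) (.e (nat_lit 106535) (nat_lit 11) (.e (nat_lit 16433) (nat_lit 9) (.e (nat_lit 426538) (nat_lit 29) .nil))) .nil)) 
(.lf (nat_lit 234367) (.g (nat_lit 2772) (.e (nat_lit 106535) (nat_lit 11) (.e (nat_lit 16473) (nat_lit 14) (.e (nat_lit 491560) (nat_lit 10) (.e (nat_lit 344168) (nat_lit 40) .nil)))) .nil)))))))))

noncomputable def tv3063 : DT := (.nd (nat_lit 0) (.nd (nat_lit 1) (.nd (nat_lit 2) (.nd (nat_lit 3) (.nd (nat_lit 4) (.nd (nat_lit 5) (.nd (nat_lit 6) 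
(.lf (nat_lit 234368) (.g (nat_lit 2865) (.e (nat_lit 106535) (nat_lit 11) (.e (nat_lit 16473) (nat_lit 14) (.e (nat_lit 491560) (nat_lit 10) (.e (nat_lit 344169) (nat_lit 40) .nil)))) .nil)) 
(.lf (nat_lit 234432) (.g (nat_lit 1870) (.e (nat_lit 106536) (nat_lit 11) (.e (nat_lit 16412) (nat_lit 2) (.e (nat_lit 196674) (nat_lit 15) (.e (nat_lit 81959) (nat_lit 24) (.e (nat_lit 130816) (nat_lit 145) (.e (nat_lit 237312) (nat_lit 65) .nil)))))) (.g (nat_lit 4) .nil .nil)))) (.nd (nat_lit 6) 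
(.lf (nat_lit 234400) (.g (nat_lit 1531) (.e (nat_lit 106536) (nat_lit 11) (.e (nat_lit 16412) (nat_lit 2) (.e (nat_lit 196665) (nat_lit 13) (.e (nat_lit 65623) (nat_lit 12) (.e (nat_lit 385068) (nat_lit 26) .nil))))) .nil)) 
(.lf (nat_lit 234464) (.g (nat_lit 3613) (.e (nat_lit 106536) (nat_lit 11) (.e (nat_lit 16416) (nat_lit 3) (.e (nat_lit 204852) (nat_lit 26) (.e (nat_lit 336208) (nat_lit 12) (.e (nat_lit 385068) (nat_lit 26) (.e (nat_lit 532508) (nat_lit 2) .nil)))))) (.g (nat_lit 4) .nil .nil))))) (.nd (nat_lit 5) (.nd (nat_lit 6) 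
(.lf (nat_lit 234384) (.g (nat_lit 1992) (.e (nat_lit 106535) (nat_lit 11) (.e (nat_lit 16482) (nat_lit 27) (.e (nat_lit 335986) (nat_lit 1) (.e (nat_lit 57847) (nat_lit 252) (.e (nat_lit 57365) (nat_lit 1) .nil))))) .nil)) 
(.lf (nat_lit 234448) (.g (nat_lit 2709) (.e (nat_lit 106536) (nat_lit 11) (.e (nat_lit 16415) (nat_lit 3) (.e (nat_lit 204861) (nat_lit 26) (.e (nat_lit 336075) (nat_lit 9) (.e (nat_lit 336324) (nat_lit 18) (.e (nat_lit 204834) (nat_lit 19) .nil)))))) (.g (nat_lit 5) .nil .nil)))) (.nd (nat_lit 6) 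
(.lf (nat_lit 234416) (.g (nat_lit 1025) (.e (nat_lit 106536) (nat_lit 11) (.e (nat_lit 16412) (nat_lit 2) (.e (nat_lit 196672) (nat_lit 15) (.e (nat_lit 81934) (nat_lit 20) .nil)))) .nil)) 
(.lf (nat_lit 234480) (.g (nat_lit 2184) (.e (nat_lit 106536) (nat_lit 11) (.e (nat_lit 16416) (nat_lit 3) (.e (nat_lit 204861) (nat_lit 26) (.e (nat_lit 336076) (nat_lit 9) (.e (nat_lit 336324) (nat_lit 18) (.e (nat_lit 212736) (nat_lit 19) .nil)))))) (.g (nat_lit 5) .nil .nil)))))) (.nd (nat_lit 4) (.nd (nat_lit 5) (.nd (nat_lit 6) 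
(.lf (nat_lit 234376) (.g (nat_lit 1410) (.e (nat_lit 106535) (nat_lit 11) (.e (nat_lit 16473) (nat_lit 14) (.e (nat_lit 491572) (nat_lit 14) .nil))) .nil)) 
(.lf (nat_lit 234440) (.g (nat_lit 2823) (.e (nat_lit 106536) (nat_lit 11) (.e (nat_lit 16412) (nat_lit 2) (.e (nat_lit 196681) (nat_lit 17) (.e (nat_lit 131123) (nat_lit 12) (.e (nat_lit 385066) (nat_lit 26) (.e (nat_lit 532506) (nat_lit 2) .nil)))))) (.g (nat_lit 6) .nil .nil)))) (.nd (nat_lit 6) 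
(.lf (nat_lit 234408) (.g (nat_lit 2854) (.e (nat_lit 106536) (nat_lit 11) (.e (nat_lit 16412) (nat_lit 2) (.e (nat_lit 196666) (nat_lit 13) (.e (nat_lit 65624) (nat_lit 12) (.e (nat_lit 385068) (nat_lit 26) (.e (nat_lit 532508) (nat_lit 2) .nil)))))) (.g (nat_lit 4) .nil .nil))) 
(.lf (nat_lit 234472) (.g (nat_lit 699) (.e (nat_lit 106536) (nat_lit 11) (.e (nat_lit 16416) (nat_lit 3) (.e (nat_lit 204859) (nat_lit 26) (.e (nat_lit 336118) (nat_lit 9) .nil)))) .nil)))) (.nd (nat_lit 5) (.nd (nat_lit 6) 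
(.lf (nat_lit 234392) (.g (nat_lit 1387) (.e (nat_lit 106536) (nat_lit 11) (.e (nat_lit 16388) (nat_lit 0) (.e (nat_lit 7587) (nat_lit 406) (.e (nat_lit 65574) (nat_lit 4) .nil)))) .nil)) 
(.lf (nat_lit 234456) (.g (nat_lit 1097) (.e (nat_lit 106536) (nat_lit 11) (.e (nat_lit 16415) (nat_lit 3) (.e (nat_lit 204865) (nat_lit 28) (.e (nat_lit 352262) (nat_lit 0) .nil)))) .nil))) (.nd (nat_lit 6) 
(.lf (nat_lit 234424) (.g (nat_lit 1603) (.e (nat_lit 106536) (nat_lit 11) (.e (nat_lit 16412) (nat_lit 2) (.e (nat_lit 196672) (nat_lit 15) (.e (nat_lit 81959) (nat_lit 24) (.e (nat_lit 130816) (nat_lit 145) .nil))))) .nil)) 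
(.lf (nat_lit 234488) (.g (nat_lit 1943) (.e (nat_lit 106536) (nat_lit 11) (.e (nat_lit 16416) (nat_lit 3) (.e (nat_lit 204863) (nat_lit 27) (.e (nat_lit 344084) (nat_lit 14) .nil)))) .nil)))))) (.nd (nat_lit 3) (.nd (nat_lit 4) (.nd (nat_lit 5) (.nd (nat_lit 6) 
(.lf (nat_lit 234372) (.g (nat_lit 4153) (.e (nat_lit 106535) (nat_lit 11) (.e (nat_lit 16473) (nat_lit 14) (.e (nat_lit 491563) (nat_lit 12) (.e (nat_lit 385092) (nat_lit 49) .nil)))) .nil)) 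
(.lf (nat_lit 234436) (.g (nat_lit 1020) (.e (nat_lit 106536) (nat_lit 11) (.e (nat_lit 16412) (nat_lit 2) (.e (nat_lit 196681) (nat_lit 17) (.e (nat_lit 131109) (nat_lit 9) .nil)))) .nil))) (.nd (nat_lit 6) 
(.lf (nat_lit 234404) (.g (nat_lit 2109) (.e (nat_lit 106536) (nat_lit 11) (.e (nat_lit 16412) (nat_lit 2) (.e (nat_lit 196666) (nat_lit 13) (.e (nat_lit 65622) (nat_lit 12) .nil)))) .nil)) 
(.lf (nat_lit 234468) (.g (nat_lit 1037) (.e (nat_lit 106536) (nat_lit 11) (.e (nat_lit 16416) (nat_lit 3) (.e (nat_lit 204854) (nat_lit 26) .nil))) .nil)))) (.nd (nat_lit 5) (.nd (nat_lit 6) 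
(.lf (nat_lit 234388) (.g (nat_lit 1710) (.e (nat_lit 106535) (nat_lit 11) (.e (nat_lit 16487) (nat_lit 27) (.e (nat_lit 335988) (nat_lit 1) (.e (nat_lit 57854) (nat_lit 252) .nil)))) .nil)) 
(.lf (nat_lit 234452) (.g (nat_lit 3070) (.e (nat_lit 106536) (nat_lit 11) (.e (nat_lit 16415) (nat_lit 3) (.e (nat_lit 204861) (nat_lit 26) (.e (nat_lit 336194) (nat_lit 12) (.e (nat_lit 385066) (nat_lit 26) (.e (nat_lit 532509) (nat_lit 2) .nil)))))) (.g (nat_lit 5) .nil .nil)))) (.nd (nat_lit 6) 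
(.lf (nat_lit 234420) (.g (nat_lit 3348) (.e (nat_lit 106536) (nat_lit 11) (.e (nat_lit 16412) (nat_lit 2) (.e (nat_lit 196672) (nat_lit 15) (.e (nat_lit 81943) (nat_lit 20) (.e (nat_lit 7936) (nat_lit 126) (.e (nat_lit 573458) (nat_lit 9) (.e (nat_lit 1266) (nat_lit 93) .nil))))))) (.g (nat_lit 6) .nil .nil))) 
(.lf (nat_lit 234484) (.g (nat_lit 2147) (.e (nat_lit 106536) (nat_lit 11) (.e (nat_lit 16416) (nat_lit 3) (.e (nat_lit 204861) (nat_lit 26) (.e (nat_lit 336194) (nat_lit 12) (.e (nat_lit 385064) (nat_lit 26) (.e (nat_lit 532508) (nat_lit 2) .nil)))))) (.g (nat_lit 4) .nil .nil)))))) (.nd (nat_lit 4) (.nd (nat_lit 5) (.nd (nat_lit 6) 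
(.lf (nat_lit 234380) (.g (nat_lit 2615) (.e (nat_lit 106535) (nat_lit 11) (.e (nat_lit 16473) (nat_lit 14) (.e (nat_lit 491572) (nat_lit 14) (.e (nat_lit 401452) (nat_lit 12) .nil)))) .nil)) 
(.lf (nat_lit 234444) (.g (nat_lit 2002) (.e (nat_lit 106536) (nat_lit 11) (.e (nat_lit 16413) (nat_lit 2) (.e (nat_lit 196666) (nat_lit 13) (.e (nat_lit 65617) (nat_lit 10) (.e (nat_lit 352000) (nat_lit 28) (.e (nat_lit 573449) (nat_lit 9) (.e (nat_lit 1271) (nat_lit 93) .nil))))))) (.g (nat_lit 4) .nil .nil)))) (.nd (nat_lit 6) 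
(.lf (nat_lit 234412) (.g (nat_lit 314) (.e (nat_lit 106536) (nat_lit 11) (.e (nat_lit 16412) (nat_lit 2) (.e (nat_lit 196672) (nat_lit 15) .nil))) .nil)) 
(.lf (nat_lit 234476) (.g (nat_lit 2690) (.e (nat_lit 106536) (nat_lit 11) (.e (nat_lit 16416) (nat_lit 3) (.e (nat_lit 204861) (nat_lit 26) (.e (nat_lit 336075) (nat_lit 9) (.e (nat_lit 336316) (nat_lit 17) (.e (nat_lit 196630) (nat_lit 9) (.e (nat_lit 7936) (nat_lit 93) .nil))))))) (.g (nat_lit 6) .nil .nil))))) (.nd (nat_lit 5) (.nd (nat_lit 6) 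
(.lf (nat_lit 234396) (.g (nat_lit 3571) (.e (nat_lit 106536) (nat_lit 11) (.e (nat_lit 16407) (nat_lit 1) (.e (nat_lit 164179) (nat_lit 154) (.e (nat_lit 57436) (nat_lit 17) (.e (nat_lit 376860) (nat_lit 21) (.e (nat_lit 57692) (nat_lit 156) (.e (nat_lit 171776) (nat_lit 65) .nil))))))) (.g (nat_lit 5) .nil .nil))) 
(.lf (nat_lit 234460) (.g (nat_lit 944) (.e (nat_lit 106536) (nat_lit 11) (.e (nat_lit 16416) (nat_lit 3) (.e (nat_lit 204851) (nat_lit 26) .nil))) .nil))) (.nd (nat_lit 6) 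
(.lf (nat_lit 234428) (.g (nat_lit 1961) (.e (nat_lit 106536) (nat_lit 11) (.e (nat_lit 16412) (nat_lit 2) (.e (nat_lit 196674) (nat_lit 15) (.e (nat_lit 81959) (nat_lit 24) (.e (nat_lit 123023) (nat_lit 124) .nil))))) .nil)) 
(.lf (nat_lit 234492) (.g (nat_lit 1176) (.e (nat_lit 106536) (nat_lit 11) (.e (nat_lit 16416) (nat_lit 3) (.e (nat_lit 204866) (nat_lit 28) (.e (nat_lit 352318) (nat_lit 24) .nil)))) .nil))))))) (.nd (nat_lit 2) (.nd (nat_lit 3) (.nd (nat_lit 4) (.nd (nat_lit 5) (.nd (nat_lit 6) 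
(.lf (nat_lit 234370) (.g (nat_lit 1452) (.e (nat_lit 106535) (nat_lit 11) (.e (nat_lit 16473) (nat_lit 14) (.e (nat_lit 491562) (nat_lit 12) .nil))) .nil)) 
(.lf (nat_lit 234434) (.g (nat_lit 1848) (.e (nat_lit 106536) (nat_lit 11) (.e (nat_lit 16412) (nat_lit 2) (.e (nat_lit 196681) (nat_lit 17) (.e (nat_lit 131105) (nat_lit 9) (.e (nat_lit 336324) (nat_lit 18) (.e (nat_lit 212736) (nat_lit 19) .nil)))))) (.g (nat_lit 5) .nil .nil)))) (.nd (nat_lit 6) 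
(.lf (nat_lit 234402) (.g (nat_lit 2519) (.e (nat_lit 106536) (nat_lit 11) (.e (nat_lit 16412) (nat_lit 2) (.e (nat_lit 196666) (nat_lit 13) (.e (nat_lit 65610) (nat_lit 10) (.e (nat_lit 344138) (nat_lit 29) .nil))))) .nil)) 
(.lf (nat_lit 234466) (.g (nat_lit 3280) (.e (nat_lit 106536) (nat_lit 11) (.e (nat_lit 16416) (nat_lit 3) (.e (nat_lit 204852) (nat_lit 26) (.e (nat_lit 336208) (nat_lit 12) (.e (nat_lit 385068) (nat_lit 26) (.e (nat_lit 532511) (nat_lit 2) .nil)))))) (.g (nat_lit 4) .nil .nil))))) (.nd (nat_lit 5) (.nd (nat_lit 6) 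
(.lf (nat_lit 234386) (.g (nat_lit 828) (.e (nat_lit 106535) (nat_lit 11) (.e (nat_lit 16483) (nat_lit 27) (.e (nat_lit 335996) (nat_lit 1) (.e (nat_lit 57851) (nat_lit 252) .nil)))) .nil)) 
(.lf (nat_lit 234450) (.g (nat_lit 2932) (.e (nat_lit 106536) (nat_lit 11) (.e (nat_lit 16415) (nat_lit 3) (.e (nat_lit 204861) (nat_lit 26) (.e (nat_lit 336076) (nat_lit 9) (.e (nat_lit 336324) (nat_lit 18) (.e (nat_lit 204834) (nat_lit 19) .nil)))))) (.g (nat_lit 5) .nil .nil)))) (.nd (nat_lit 6) 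
(.lf (nat_lit 234418) (.g (nat_lit 3169) (.e (nat_lit 106536) (nat_lit 11) (.e (nat_lit 16412) (nat_lit 2) (.e (nat_lit 196672) (nat_lit 15) (.e (nat_lit 81943) (nat_lit 20) (.e (nat_lit 7936) (nat_lit 126) (.e (nat_lit 573449) (nat_lit 9) (.e (nat_lit 1262) (nat_lit 93) .nil))))))) (.g (nat_lit 4) .nil .nil))) 
(.lf (nat_lit 234482) (.g (nat_lit 1778) (.e (nat_lit 106536) (nat_lit 11) (.e (nat_lit 16416) (nat_lit 3) (.e (nat_lit 204861) (nat_lit 26) (.e (nat_lit 336194) (nat_lit 12) (.e (nat_lit 385057) (nat_lit 22) .nil))))) .nil))))) (.nd (nat_lit 4) (.nd (nat_lit 5) (.nd (nat_lit 6) 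
(.lf (nat_lit 234378) (.g (nat_lit 2635) (.e (nat_lit 106535) (nat_lit 11) (.e (nat_lit 16473) (nat_lit 14) (.e (nat_lit 491572) (nat_lit 14) (.e (nat_lit 401438) (nat_lit 9) .nil)))) .nil)) 
(.lf (nat_lit 234442) (.g (nat_lit 1271) (.e (nat_lit 106536) (nat_lit 11) (.e (nat_lit 16413) (nat_lit 2) (.e (nat_lit 196665) (nat_lit 13) (.e (nat_lit 65623) (nat_lit 12) (.e (nat_lit 385066) (nat_lit 26) .nil))))) .nil))) (.nd (nat_lit 6) 
(.lf (nat_lit 234410) (.g (nat_lit 1421) (.e (nat_lit 106536) (nat_lit 11) (.e (nat_lit 16412) (nat_lit 2) (.e (nat_lit 196668) (nat_lit 14) (.e (nat_lit 73794) (nat_lit 46) .nil)))) .nil)) 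
(.lf (nat_lit 234474) (.g (nat_lit 1847) (.e (nat_lit 106536) (nat_lit 11) (.e (nat_lit 16416) (nat_lit 3) (.e (nat_lit 204860) (nat_lit 26) (.e (nat_lit 336194) (nat_lit 12) (.e (nat_lit 385066) (nat_lit 26) .nil))))) .nil)))) (.nd (nat_lit 5) (.nd (nat_lit 6) 
(.lf (nat_lit 234394) (.g (nat_lit 3938) (.e (nat_lit 106536) (nat_lit 11) (.e (nat_lit 16405) (nat_lit 1) (.e (nat_lit 164179) (nat_lit 154) (.e (nat_lit 57437) (nat_lit 17) (.e (nat_lit 376860) (nat_lit 21) (.e (nat_lit 57692) (nat_lit 156) (.e (nat_lit 171776) (nat_lit 65) .nil))))))) (.g (nat_lit 6) .nil .nil))) 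
(.lf (nat_lit 234458) (.g (nat_lit 580) (.e (nat_lit 106536) (nat_lit 11) (.e (nat_lit 16416) (nat_lit 3) (.e (nat_lit 204850) (nat_lit 26) .nil))) .nil))) (.nd (nat_lit 6) 
(.lf (nat_lit 234426) (.g (nat_lit 2784) (.e (nat_lit 106536) (nat_lit 11) (.e (nat_lit 16412) (nat_lit 2) (.e (nat_lit 196674) (nat_lit 15) (.e (nat_lit 81922) (nat_lit 0) (.e (nat_lit 3253) (nat_lit 197) (.e (nat_lit 532508) (nat_lit 2) .nil)))))) (.g (nat_lit 6) .nil .nil))) 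
(.lf (nat_lit 234490) (.g (nat_lit 2819) (.e (nat_lit 106536) (nat_lit 11) (.e (nat_lit 16416) (nat_lit 3) (.e (nat_lit 204865) (nat_lit 28) (.e (nat_lit 352262) (nat_lit 0) (.e (nat_lit 3253) (nat_lit 197) (.e (nat_lit 532508) (nat_lit 2) .nil)))))) (.g (nat_lit 6) .nil .nil))))))) (.nd (nat_lit 3) (.nd (nat_lit 4) (.nd (nat_lit 5) (.nd (nat_lit 6) 
(.lf (nat_lit 234374) (.g (nat_lit 4153) (.e (nat_lit 106535) (nat_lit 11) (.e (nat_lit 16473) (nat_lit 14) (.e (nat_lit 491563) (nat_lit 12) (.e (nat_lit 385105) (nat_lit 50) .nil)))) .nil)) 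
(.lf (nat_lit 234438) (.g (nat_lit 2173) (.e (nat_lit 106536) (nat_lit 11) (.e (nat_lit 16412) (nat_lit 2) (.e (nat_lit 196681) (nat_lit 17) (.e (nat_lit 131109) (nat_lit 9) (.e (nat_lit 336326) (nat_lit 18) (.e (nat_lit 204834) (nat_lit 19) .nil)))))) (.g (nat_lit 4) .nil .nil)))) (.nd (nat_lit 6) 
(.lf (nat_lit 234406) (.g (nat_lit 2211) (.e (nat_lit 106536) (nat_lit 11) (.e (nat_lit 16412) (nat_lit 2) (.e (nat_lit 196666) (nat_lit 13) (.e (nat_lit 65624) (nat_lit 12) (.e (nat_lit 385059) (nat_lit 22) .nil))))) .nil)) 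
(.lf (nat_lit 234470) (.g (nat_lit 1218) (.e (nat_lit 106536) (nat_lit 11) (.e (nat_lit 16416) (nat_lit 3) (.e (nat_lit 204858) (nat_lit 26) (.e (nat_lit 336198) (nat_lit 12) .nil)))) .nil)))) (.nd (nat_lit 5) (.nd (nat_lit 6) 
(.lf (nat_lit 234390) (.g (nat_lit 1476) (.e (nat_lit 106535) (nat_lit 11) (.e (nat_lit 16487) (nat_lit 27) (.e (nat_lit 335995) (nat_lit 1) (.e (nat_lit 57848) (nat_lit 252) .nil)))) .nil)) 
(.lf (nat_lit 234454) (.g (nat_lit 3190) (.e (nat_lit 106536) (nat_lit 11) (.e (nat_lit 16415) (nat_lit 3) (.e (nat_lit 204861) (nat_lit 26) (.e (nat_lit 336194) (nat_lit 12) (.e (nat_lit 385068) (nat_lit 26) (.e (nat_lit 532508) (nat_lit 2) .nil)))))) (.g (nat_lit 5) .nil .nil)))) (.nd (nat_lit 6) 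
(.lf (nat_lit 234422) (.g (nat_lit 3379) (.e (nat_lit 106536) (nat_lit 11) (.e (nat_lit 16412) (nat_lit 2) (.e (nat_lit 196672) (nat_lit 15) (.e (nat_lit 81957) (nat_lit 24) (.e (nat_lit 130816) (nat_lit 124) (.e (nat_lit 57384) (nat_lit 4) .nil)))))) (.g (nat_lit 4) .nil .nil))) 
(.lf (nat_lit 234486) (.g (nat_lit 1260) (.e (nat_lit 106536) (nat_lit 11) (.e (nat_lit 16416) (nat_lit 3) (.e (nat_lit 204861) (nat_lit 26) (.e (nat_lit 336195) (nat_lit 12) .nil)))) .nil))))) (.nd (nat_lit 4) (.nd (nat_lit 5) (.nd (nat_lit 6) 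
(.lf (nat_lit 234382) (.g (nat_lit 3897) (.e (nat_lit 106535) (nat_lit 11) (.e (nat_lit 16473) (nat_lit 14) (.e (nat_lit 491572) (nat_lit 14) (.e (nat_lit 401454) (nat_lit 12) (.e (nat_lit 475212) (nat_lit 42) .nil))))) .nil)) 
(.lf (nat_lit 234446) (.g (nat_lit 1356) (.e (nat_lit 106536) (nat_lit 11) (.e (nat_lit 16413) (nat_lit 2) (.e (nat_lit 196681) (nat_lit 17) (.e (nat_lit 131122) (nat_lit 12) .nil)))) .nil))) (.nd (nat_lit 6) 
(.lf (nat_lit 234414) (.g (nat_lit 1311) (.e (nat_lit 106536) (nat_lit 11) (.e (nat_lit 16412) (nat_lit 2) (.e (nat_lit 196672) (nat_lit 15) (.e (nat_lit 89856) (nat_lit 2) (.e (nat_lit 196630) (nat_lit 9) (.e (nat_lit 7936) (nat_lit 93) .nil)))))) (.g (nat_lit 5) .nil .nil))) 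
(.lf (nat_lit 234478) (.g (nat_lit 1844) (.e (nat_lit 106536) (nat_lit 11) (.e (nat_lit 16416) (nat_lit 3) (.e (nat_lit 204861) (nat_lit 26) (.e (nat_lit 336076) (nat_lit 9) (.e (nat_lit 336316) (nat_lit 17) .nil))))) .nil)))) (.nd (nat_lit 5) (.nd (nat_lit 6) 
(.lf (nat_lit 234398) (.g (nat_lit 1862) (.e (nat_lit 106536) (nat_lit 11) (.e (nat_lit 16411) (nat_lit 2) (.e (nat_lit 196681) (nat_lit 17) (.e (nat_lit 131105) (nat_lit 9) (.e (nat_lit 336324) (nat_lit 18) (.e (nat_lit 204834) (nat_lit 19) .nil)))))) (.g (nat_lit 5) .nil .nil))) 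
(.lf (nat_lit 234462) (.g (nat_lit 1573) (.e (nat_lit 106536) (nat_lit 11) (.e (nat_lit 16416) (nat_lit 3) (.e (nat_lit 204852) (nat_lit 26) (.e (nat_lit 336208) (nat_lit 12) .nil)))) .nil))) (.nd (nat_lit 6) 
(.lf (nat_lit 234430) (.g (nat_lit 3351) (.e (nat_lit 106536) (nat_lit 11) (.e (nat_lit 16412) (nat_lit 2) (.e (nat_lit 196674) (nat_lit 15) (.e (nat_lit 81959) (nat_lit 24) (.e (nat_lit 123023) (nat_lit 124) (.e (nat_lit 57386) (nat_lit 4) .nil)))))) (.g (nat_lit 4) .nil .nil))) 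
(.lf (nat_lit 234494) (.g (nat_lit 3259) (.e (nat_lit 106536) (nat_lit 11) (.e (nat_lit 16416) (nat_lit 3) (.e (nat_lit 204866) (nat_lit 28) (.e (nat_lit 352318) (nat_lit 24) (.e (nat_lit 123018) (nat_lit 122) (.e (nat_lit 1086) (nat_lit 81) (.e (nat_lit 1267) (nat_lit 93) .nil))))))) (.g (nat_lit 4) .nil .nil))))))))) 
(.nd (nat_lit 1) (.nd (nat_lit 2) (.nd (nat_lit 3) (.nd (nat_lit 4) (.nd (nat_lit 5) 
(.nd (nat_lit 6) 
(.lf (nat_lit 234369) (.g (nat_lit 3913) (.e (nat_lit 106535) (nat_lit 11) (.e (nat_lit 16473) (nat_lit 14) (.e (nat_lit 491560) (nat_lit 10) (.e (nat_lit 344169) (nat_lit 40) (.e (nat_lit 671744) (nat_lit 0) (.e (nat_lit 1281) (nat_lit 94) (.e (nat_lit 114723) (nat_lit 24) .nil))))))) (.g (nat_lit 5) .nil .nil))) 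
(.lf (nat_lit 234433) (.g (nat_lit 455) (.e (nat_lit 106536) (nat_lit 11) (.e (nat_lit 16412) (nat_lit 2) (.e (nat_lit 196681) (nat_lit 17) .nil))) .nil))) (.nd (nat_lit 6) 
(.lf (nat_lit 234401) (.g (nat_lit 2757) (.e (nat_lit 106536) (nat_lit 11) (.e (nat_lit 16412) (nat_lit 2) (.e (nat_lit 196666) (nat_lit 13) (.e (nat_lit 65610) (nat_lit 10) (.e (nat_lit 344088) (nat_lit 18) .nil))))) .nil)) 
(.lf (nat_lit 234465) (.g (nat_lit 3239) (.e (nat_lit 106536) (nat_lit 11) (.e (nat_lit 16416) (nat_lit 3) (.e (nat_lit 204852) (nat_lit 26) (.e (nat_lit 336208) (nat_lit 12) (.e (nat_lit 385068) (nat_lit 26) (.e (nat_lit 532510) (nat_lit 2) .nil)))))) (.g (nat_lit 4) .nil .nil))))) (.nd (nat_lit 5) (.nd (nat_lit 6) 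
(.lf (nat_lit 234385) (.g (nat_lit 1961) (.e (nat_lit 106535) (nat_lit 11) (.e (nat_lit 16483) (nat_lit 27) (.e (nat_lit 335988) (nat_lit 1) (.e (nat_lit 57854) (nat_lit 252) (.e (nat_lit 57366) (nat_lit 1) .nil))))) .nil)) 
(.lf (nat_lit 234449) (.g (nat_lit 2282) (.e (nat_lit 106536) (nat_lit 11) (.e (nat_lit 16415) (nat_lit 3) (.e (nat_lit 204861) (nat_lit 26) (.e (nat_lit 336076) (nat_lit 9) (.e (nat_lit 336322) (nat_lit 18) (.e (nat_lit 204833) (nat_lit 19) .nil)))))) (.g (nat_lit 4) .nil .nil)))) (.nd (nat_lit 6) 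
(.lf (nat_lit 234417) (.g (nat_lit 2887) (.e (nat_lit 106536) (nat_lit 11) (.e (nat_lit 16412) (nat_lit 2) (.e (nat_lit 196672) (nat_lit 15) (.e (nat_lit 81943) (nat_lit 20) (.e (nat_lit 7936) (nat_lit 126) (.e (nat_lit 573449) (nat_lit 9) (.e (nat_lit 1257) (nat_lit 93) .nil))))))) (.g (nat_lit 4) .nil .nil))) 
(.lf (nat_lit 234481) (.g (nat_lit 1783) (.e (nat_lit 106536) (nat_lit 11) (.e (nat_lit 16416) (nat_lit 3) (.e (nat_lit 204861) (nat_lit 26) (.e (nat_lit 336076) (nat_lit 9) (.e (nat_lit 336326) (nat_lit 18) .nil))))) .nil))))) (.nd (nat_lit 4) (.nd (nat_lit 5) (.nd (nat_lit 6) 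
(.lf (nat_lit 234377) (.g (nat_lit 3874) (.e (nat_lit 106535) (nat_lit 11) (.e (nat_lit 16473) (nat_lit 14) (.e (nat_lit 491572) (nat_lit 14) (.e (nat_lit 401437) (nat_lit 9) (.e (nat_lit 426448) (nat_lit 20) .nil))))) .nil)) 
(.lf (nat_lit 234441) (.g (nat_lit 779) (.e (nat_lit 106536) (nat_lit 11) (.e (nat_lit 16413) (nat_lit 2) (.e (nat_lit 196661) (nat_lit 12) (.e (nat_lit 57741) (nat_lit 187) .nil)))) .nil))) (.nd (nat_lit 6) 
(.lf (nat_lit 234409) (.g (nat_lit 1313) (.e (nat_lit 106536) (nat_lit 11) (.e (nat_lit 16412) (nat_lit 2) (.e (nat_lit 196668) (nat_lit 14) (.e (nat_lit 81664) (nat_lit 35) .nil)))) .nil)) 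
(.lf (nat_lit 234473) (.g (nat_lit 996) (.e (nat_lit 106536) (nat_lit 11) (.e (nat_lit 16416) (nat_lit 3) (.e (nat_lit 204860) (nat_lit 26) .nil))) .nil)))) (.nd (nat_lit 5) (.nd (nat_lit 6) 
(.lf (nat_lit 234393) (.g (nat_lit 3475) (.e (nat_lit 106536) (nat_lit 11) (.e (nat_lit 16405) (nat_lit 1) (.e (nat_lit 164179) (nat_lit 154) (.e (nat_lit 57436) (nat_lit 17) (.e (nat_lit 376860) (nat_lit 21) (.e (nat_lit 57692) (nat_lit 156) (.e (nat_lit 171776) (nat_lit 65) .nil))))))) (.g (nat_lit 5) .nil .nil))) 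
(.lf (nat_lit 234457) (.g (nat_lit 627) (.e (nat_lit 106536) (nat_lit 11) (.e (nat_lit 16415) (nat_lit 3) (.e (nat_lit 204878) (nat_lit 31) .nil))) .nil))) (.nd (nat_lit 6) 
(.lf (nat_lit 234425) (.g (nat_lit 1422) (.e (nat_lit 106536) (nat_lit 11) (.e (nat_lit 16412) (nat_lit 2) (.e (nat_lit 196673) (nat_lit 15) (.e (nat_lit 81959) (nat_lit 24) (.e (nat_lit 130816) (nat_lit 145) .nil))))) .nil)) 
(.lf (nat_lit 234489) (.g (nat_lit 322) (.e (nat_lit 106536) (nat_lit 11) (.e (nat_lit 16416) (nat_lit 3) (.e (nat_lit 204865) (nat_lit 28) .nil))) .nil)))))) (.nd (nat_lit 3) (.nd (nat_lit 4) (.nd (nat_lit 5) (.nd (nat_lit 6) 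
(.lf (nat_lit 234373) (.g (nat_lit 4155) (.e (nat_lit 106535) (nat_lit 11) (.e (nat_lit 16473) (nat_lit 14) (.e (nat_lit 491563) (nat_lit 12) (.e (nat_lit 385102) (nat_lit 50) .nil)))) .nil)) 
(.lf (nat_lit 234437) (.g (nat_lit 1988) (.e (nat_lit 106536) (nat_lit 11) (.e (nat_lit 16412) (nat_lit 2) (.e (nat_lit 196681) (nat_lit 17) (.e (nat_lit 131109) (nat_lit 9) (.e (nat_lit 336324) (nat_lit 18) (.e (nat_lit 212736) (nat_lit 19) .nil)))))) (.g (nat_lit 5) .nil .nil)))) (.nd (nat_lit 6) 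
(.lf (nat_lit 234405) (.g (nat_lit 3208) (.e (nat_lit 106536) (nat_lit 11) (.e (nat_lit 16412) (nat_lit 2) (.e (nat_lit 196666) (nat_lit 13) (.e (nat_lit 65622) (nat_lit 12) (.e (nat_lit 385068) (nat_lit 26) .nil))))) .nil)) 
(.lf (nat_lit 234469) (.g (nat_lit 2134) (.e (nat_lit 106536) (nat_lit 11) (.e (nat_lit 16416) (nat_lit 3) (.e (nat_lit 204854) (nat_lit 26) (.e (nat_lit 336208) (nat_lit 12) .nil)))) .nil)))) (.nd (nat_lit 5) (.nd (nat_lit 6) 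
(.lf (nat_lit 234389) (.g (nat_lit 1387) (.e (nat_lit 106535) (nat_lit 11) (.e (nat_lit 16487) (nat_lit 27) (.e (nat_lit 335995) (nat_lit 1) (.e (nat_lit 57847) (nat_lit 252) .nil)))) .nil)) 
(.lf (nat_lit 234453) (.g (nat_lit 3295) (.e (nat_lit 106536) (nat_lit 11) (.e (nat_lit 16415) (nat_lit 3) (.e (nat_lit 204861) (nat_lit 26) (.e (nat_lit 336194) (nat_lit 12) (.e (nat_lit 385066) (nat_lit 26) (.e (nat_lit 532511) (nat_lit 2) .nil)))))) (.g (nat_lit 0) .nil .nil)))) (.nd (nat_lit 6) 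
(.lf (nat_lit 234421) (.g (nat_lit 3343) (.e (nat_lit 106536) (nat_lit 11) (.e (nat_lit 16412) (nat_lit 2) (.e (nat_lit 196672) (nat_lit 15) (.e (nat_lit 81957) (nat_lit 24) (.e (nat_lit 123023) (nat_lit 124) (.e (nat_lit 57385) (nat_lit 4) .nil)))))) (.g (nat_lit 4) .nil .nil))) 
(.lf (nat_lit 234485) (.g (nat_lit 3350) (.e (nat_lit 106536) (nat_lit 11) (.e (nat_lit 16416) (nat_lit 3) (.e (nat_lit 204861) (nat_lit 26) (.e (nat_lit 336194) (nat_lit 12) (.e (nat_lit 385066) (nat_lit 26) (.e (nat_lit 532505) (nat_lit 2) .nil)))))) (.g (nat_lit 4) .nil .nil)))))) (.nd (nat_lit 4) (.nd (nat_lit 5) (.nd (nat_lit 6) 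
(.lf (nat_lit 234381) (.g (nat_lit 2612) (.e (nat_lit 106535) (nat_lit 11) (.e (nat_lit 16473) (nat_lit 14) (.e (nat_lit 491572) (nat_lit 14) (.e (nat_lit 401453) (nat_lit 12) .nil)))) .nil)) 
(.lf (nat_lit 234445) (.g (nat_lit 1514) (.e (nat_lit 106536) (nat_lit 11) (.e (nat_lit 16413) (nat_lit 2) (.e (nat_lit 196666) (nat_lit 13) (.e (nat_lit 65622) (nat_lit 12) (.e (nat_lit 385066) (nat_lit 26) .nil))))) .nil))) (.nd (nat_lit 6) 
(.lf (nat_lit 234413) (.g (nat_lit 1248) (.e (nat_lit 106536) (nat_lit 11) (.e (nat_lit 16412) (nat_lit 2) (.e (nat_lit 196672) (nat_lit 15) (.e (nat_lit 89856) (nat_lit 2) (.e (nat_lit 196628) (nat_lit 9) (.e (nat_lit 7936) (nat_lit 93) .nil)))))) (.g (nat_lit 5) .nil .nil))) 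
(.lf (nat_lit 234477) (.g (nat_lit 2037) (.e (nat_lit 106536) (nat_lit 11) (.e (nat_lit 16416) (nat_lit 3) (.e (nat_lit 204861) (nat_lit 26) (.e (nat_lit 336075) (nat_lit 9) (.e (nat_lit 336324) (nat_lit 18) (.e (nat_lit 212736) (nat_lit 19) .nil)))))) (.g (nat_lit 5) .nil .nil))))) (.nd (nat_lit 5) (.nd (nat_lit 6) 
(.lf (nat_lit 234397) (.g (nat_lit 4064) (.e (nat_lit 106536) (nat_lit 11) (.e (nat_lit 16407) (nat_lit 1) (.e (nat_lit 164179) (nat_lit 154) (.e (nat_lit 57437) (nat_lit 17) (.e (nat_lit 376860) (nat_lit 21) (.e (nat_lit 57692) (nat_lit 156) (.e (nat_lit 171776) (nat_lit 65) .nil))))))) (.g (nat_lit 6) .nil .nil))) 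
(.lf (nat_lit 234461) (.g (nat_lit 626) (.e (nat_lit 106536) (nat_lit 11) (.e (nat_lit 16416) (nat_lit 3) (.e (nat_lit 204852) (nat_lit 26) .nil))) .nil))) (.nd (nat_lit 6) 
(.lf (nat_lit 234429) (.g (nat_lit 3310) (.e (nat_lit 106536) (nat_lit 11) (.e (nat_lit 16412) (nat_lit 2) (.e (nat_lit 196674) (nat_lit 15) (.e (nat_lit 81959) (nat_lit 24) (.e (nat_lit 123023) (nat_lit 124) (.e (nat_lit 57385) (nat_lit 4) .nil)))))) (.g (nat_lit 4) .nil .nil))) 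
(.lf (nat_lit 234493) (.g (nat_lit 2977) (.e (nat_lit 106536) (nat_lit 11) (.e (nat_lit 16416) (nat_lit 3) (.e (nat_lit 204866) (nat_lit 28) (.e (nat_lit 352318) (nat_lit 24) (.e (nat_lit 123018) (nat_lit 122) (.e (nat_lit 1082) (nat_lit 81) (.e (nat_lit 1267) (nat_lit 93) .nil))))))) (.g (nat_lit 4) .nil .nil)))))))) 
(.nd (nat_lit 2) (.nd (nat_lit 3) (.nd (nat_lit 4) (.nd (nat_lit 5) (.nd (nat_lit 6) 
(.lf (nat_lit 234371) (.g (nat_lit 3153) (.e (nat_lit 106535) (nat_lit 11) (.e (nat_lit 16473) (nat_lit 14) (.e (nat_lit 491562) (nat_lit 12) (.e (nat_lit 385106) (nat_lit 50) .nil)))) .nil)) 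
(.lf (nat_lit 234435) (.g (nat_lit 2308) (.e (nat_lit 106536) (nat_lit 11) (.e (nat_lit 16412) (nat_lit 2) (.e (nat_lit 196681) (nat_lit 17) (.e (nat_lit 131107) (nat_lit 9) .nil)))) .nil))) (.nd (nat_lit 6) 
(.lf (nat_lit 234403) (.g (nat_lit 2761) (.e (nat_lit 106536) (nat_lit 11) (.e (nat_lit 16412) (nat_lit 2) (.e (nat_lit 196666) (nat_lit 13) (.e (nat_lit 65610) (nat_lit 10) (.e (nat_lit 344138) (nat_lit 29) (.e (nat_lit 581661) (nat_lit 9) (.e (nat_lit 1267) (nat_lit 93) .nil))))))) (.g (nat_lit 4) .nil .nil))) 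
(.lf (nat_lit 234467) (.g (nat_lit 1532) (.e (nat_lit 106536) (nat_lit 11) (.e (nat_lit 16416) (nat_lit 3) (.e (nat_lit 204852) (nat_lit 26) (.e (nat_lit 343808) (nat_lit 12) .nil)))) .nil)))) (.nd (nat_lit 5) (.nd (nat_lit 6) 
(.lf (nat_lit 234387) (.g (nat_lit 1565) (.e (nat_lit 106535) (nat_lit 11) (.e (nat_lit 16487) (nat_lit 27) (.e (nat_lit 335986) (nat_lit 1) (.e (nat_lit 57847) (nat_lit 252) .nil)))) .nil)) 
(.lf (nat_lit 234451) (.g (nat_lit 3088) (.e (nat_lit 106536) (nat_lit 11) (.e (nat_lit 16415) (nat_lit 3) (.e (nat_lit 204861) (nat_lit 26) (.e (nat_lit 336194) (nat_lit 12) (.e (nat_lit 385066) (nat_lit 26) (.e (nat_lit 532508) (nat_lit 2) .nil)))))) (.g (nat_lit 5) .nil .nil)))) (.nd (nat_lit 6) 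
(.lf (nat_lit 234419) (.g (nat_lit 1209) (.e (nat_lit 106536) (nat_lit 11) (.e (nat_lit 16412) (nat_lit 2) (.e (nat_lit 196672) (nat_lit 15) (.e (nat_lit 81943) (nat_lit 20) (.e (nat_lit 7936) (nat_lit 126) (.e (nat_lit 573449) (nat_lit 9) (.e (nat_lit 7936) (nat_lit 93) .nil))))))) (.g (nat_lit 4) .nil .nil))) 
(.lf (nat_lit 234483) (.g (nat_lit 1742) (.e (nat_lit 106536) (nat_lit 11) (.e (nat_lit 16416) (nat_lit 3) (.e (nat_lit 204861) (nat_lit 26) (.e (nat_lit 336194) (nat_lit 12) (.e (nat_lit 385064) (nat_lit 26) .nil))))) .nil))))) (.nd (nat_lit 4) (.nd (nat_lit 5) (.nd (nat_lit 6) 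
(.lf (nat_lit 234379) (.g (nat_lit 2641) (.e (nat_lit 106535) (nat_lit 11) (.e (nat_lit 16473) (nat_lit 14) (.e (nat_lit 491572) (nat_lit 14) (.e (nat_lit 401444) (nat_lit 9) .nil)))) .nil)) 
(.lf (nat_lit 234443) (.g (nat_lit 1428) (.e (nat_lit 106536) (nat_lit 11) (.e (nat_lit 16413) (nat_lit 2) (.e (nat_lit 196666) (nat_lit 13) (.e (nat_lit 65596) (nat_lit 9) .nil)))) .nil))) (.nd (nat_lit 6) 
(.lf (nat_lit 234411) (.g (nat_lit 457) (.e (nat_lit 106536) (nat_lit 11) (.e (nat_lit 16412) (nat_lit 2) (.e (nat_lit 196670) (nat_lit 14) .nil))) .nil)) 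
(.lf (nat_lit 234475) (.g (nat_lit 1035) (.e (nat_lit 106536) (nat_lit 11) (.e (nat_lit 16416) (nat_lit 3) (.e (nat_lit 204861) (nat_lit 26) (.e (nat_lit 336075) (nat_lit 9) .nil)))) .nil)))) (.nd (nat_lit 5) (.nd (nat_lit 6) 
(.lf (nat_lit 234395) (.g (nat_lit 2595) (.e (nat_lit 106536) (nat_lit 11) (.e (nat_lit 16407) (nat_lit 1) (.e (nat_lit 164178) (nat_lit 154) (.e (nat_lit 57437) (nat_lit 17) (.e (nat_lit 376860) (nat_lit 21) (.e (nat_lit 57692) (nat_lit 156) (.e (nat_lit 171776) (nat_lit 65) .nil))))))) (.g (nat_lit 4) .nil .nil))) 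
(.lf (nat_lit 234459) (.g (nat_lit 1312) (.e (nat_lit 106536) (nat_lit 11) (.e (nat_lit 16416) (nat_lit 3) (.e (nat_lit 204850) (nat_lit 26) (.e (nat_lit 336205) (nat_lit 12) (.e (nat_lit 385066) (nat_lit 26) .nil))))) .nil))) (.nd (nat_lit 6) 
(.lf (nat_lit 234427) (.g (nat_lit 1202) (.e (nat_lit 106536) (nat_lit 11) (.e (nat_lit 16412) (nat_lit 2) (.e (nat_lit 196674) (nat_lit 15) (.e (nat_lit 89856) (nat_lit 2) (.e (nat_lit 196628) (nat_lit 9) (.e (nat_lit 7936) (nat_lit 93) .nil)))))) (.g (nat_lit 5) .nil .nil))) 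
(.lf (nat_lit 234491) (.g (nat_lit 3099) (.e (nat_lit 106536) (nat_lit 11) (.e (nat_lit 16416) (nat_lit 3) (.e (nat_lit 204866) (nat_lit 28) (.e (nat_lit 352262) (nat_lit 0) (.e (nat_lit 3253) (nat_lit 197) (.e (nat_lit 532508) (nat_lit 2) .nil)))))) (.g (nat_lit 6) .nil .nil))))))) (.nd (nat_lit 3) (.nd (nat_lit 4) (.nd (nat_lit 5) (.nd (nat_lit 6) 
(.lf (nat_lit 234375) (.g (nat_lit 4116) (.e (nat_lit 106535) (nat_lit 11) (.e (nat_lit 16473) (nat_lit 14) (.e (nat_lit 491563) (nat_lit 12) (.e (nat_lit 385106) (nat_lit 50) .nil)))) .nil)) 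
(.lf (nat_lit 234439) (.g (nat_lit 2212) (.e (nat_lit 106536) (nat_lit 11) (.e (nat_lit 16412) (nat_lit 2) (.e (nat_lit 196681) (nat_lit 17) (.e (nat_lit 131122) (nat_lit 12) .nil)))) .nil))) (.nd (nat_lit 6) 
(.lf (nat_lit 234407) (.g (nat_lit 2263) (.e (nat_lit 106536) (nat_lit 11) (.e (nat_lit 16412) (nat_lit 2) (.e (nat_lit 196666) (nat_lit 13) (.e (nat_lit 65624) (nat_lit 12) (.e (nat_lit 385067) (nat_lit 26) .nil))))) .nil)) 
(.lf (nat_lit 234471) (.g (nat_lit 377) (.e (nat_lit 106536) (nat_lit 11) (.e (nat_lit 16416) (nat_lit 3) (.e (nat_lit 204859) (nat_lit 26) .nil))) .nil)))) (.nd (nat_lit 5) (.nd (nat_lit 6) 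
(.lf (nat_lit 234391) (.g (nat_lit 1392) (.e (nat_lit 106535) (nat_lit 11) (.e (nat_lit 16487) (nat_lit 27) (.e (nat_lit 335995) (nat_lit 1) (.e (nat_lit 57849) (nat_lit 252) .nil)))) .nil)) 
(.lf (nat_lit 234455) (.g (nat_lit 1868) (.e (nat_lit 106536) (nat_lit 11) (.e (nat_lit 16415) (nat_lit 3) (.e (nat_lit 204861) (nat_lit 26) (.e (nat_lit 336196) (nat_lit 12) (.e (nat_lit 385066) (nat_lit 26) .nil))))) .nil))) (.nd (nat_lit 6) 
(.lf (nat_lit 234423) (.g (nat_lit 1995) (.e (nat_lit 106536) (nat_lit 11) (.e (nat_lit 16412) (nat_lit 2) (.e (nat_lit 196672) (nat_lit 15) (.e (nat_lit 81957) (nat_lit 24) (.e (nat_lit 130816) (nat_lit 145) (.e (nat_lit 237312) (nat_lit 65) .nil)))))) (.g (nat_lit 4) .nil .nil))) 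
(.lf (nat_lit 234487) (.g (nat_lit 1260) (.e (nat_lit 106536) (nat_lit 11) (.e (nat_lit 16416) (nat_lit 3) (.e (nat_lit 204861) (nat_lit 26) (.e (nat_lit 336196) (nat_lit 12) .nil)))) .nil))))) (.nd (nat_lit 4) (.nd (nat_lit 5) (.nd (nat_lit 6) 
(.lf (nat_lit 234383) (.g (nat_lit 3985) (.e (nat_lit 106535) (nat_lit 11) (.e (nat_lit 16473) (nat_lit 14) (.e (nat_lit 491572) (nat_lit 14) (.e (nat_lit 401454) (nat_lit 12) (.e (nat_lit 475214) (nat_lit 42) .nil))))) .nil)) 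
(.lf (nat_lit 234447) (.g (nat_lit 627) (.e (nat_lit 106536) (nat_lit 11) (.e (nat_lit 16415) (nat_lit 3) (.e (nat_lit 204858) (nat_lit 26) .nil))) .nil))) (.nd (nat_lit 6) 
(.lf (nat_lit 234415) (.g (nat_lit 793) (.e (nat_lit 106536) (nat_lit 11) (.e (nat_lit 16412) (nat_lit 2) (.e (nat_lit 196672) (nat_lit 15) (.e (nat_lit 89856) (nat_lit 3) .nil)))) .nil)) 
(.lf (nat_lit 234479) (.g (nat_lit 3114) (.e (nat_lit 106536) (nat_lit 11) (.e (nat_lit 16416) (nat_lit 3) (.e (nat_lit 204861) (nat_lit 26) (.e (nat_lit 336076) (nat_lit 9) (.e (nat_lit 336316) (nat_lit 17) (.e (nat_lit 196630) (nat_lit 9) (.e (nat_lit 7936) (nat_lit 93) .nil))))))) (.g (nat_lit 6) .nil .nil))))) (.nd (nat_lit 5) (.nd (nat_lit 6) 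
(.lf (nat_lit 234399) (.g (nat_lit 1687) (.e (nat_lit 106536) (nat_lit 11) (.e (nat_lit 16412) (nat_lit 2) (.e (nat_lit 196664) (nat_lit 13) (.e (nat_lit 65624) (nat_lit 12) (.e (nat_lit 385068) (nat_lit 26) .nil))))) .nil)) 
(.lf (nat_lit 234463) (.g (nat_lit 3437) (.e (nat_lit 106536) (nat_lit 11) (.e (nat_lit 16416) (nat_lit 3) (.e (nat_lit 204852) (nat_lit 26) (.e (nat_lit 336208) (nat_lit 12) (.e (nat_lit 385068) (nat_lit 26) (.e (nat_lit 532506) (nat_lit 2) .nil)))))) (.g (nat_lit 4) .nil .nil)))) (.nd (nat_lit 6) 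
(.lf (nat_lit 234431) (.g (nat_lit 3279) (.e (nat_lit 106536) (nat_lit 11) (.e (nat_lit 16412) (nat_lit 2) (.e (nat_lit 196674) (nat_lit 15) (.e (nat_lit 81959) (nat_lit 24) (.e (nat_lit 130816) (nat_lit 124) (.e (nat_lit 57385) (nat_lit 4) .nil)))))) (.g (nat_lit 4) .nil .nil))) 
(.lf (nat_lit 234495) (.g (nat_lit 2924) (.e (nat_lit 106536) (nat_lit 11) (.e (nat_lit 16416) (nat_lit 3) (.e (nat_lit 204866) (nat_lit 28) (.e (nat_lit 352318) (nat_lit 24) (.e (nat_lit 123019) (nat_lit 122) (.e (nat_lit 1082) (nat_lit 81) (.e (nat_lit 1267) (nat_lit 93) .nil))))))) (.g (nat_lit 4) .nil .nil))))))))))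

noncomputable def tv3064 : DT := (.nd (nat_lit 0) (.nd (nat_lit 1) (.nd (nat_lit 2) (.nd (nat_lit 3) (.nd (nat_lit 4) (.nd (nat_lit 5) (.nd (nat_lit 6) 
(.lf (nat_lit 234496) (.g (nat_lit 3548) (.e (nat_lit 106536) (nat_lit 11) (.e (nat_lit 16416) (nat_lit 3) (.e (nat_lit 204866) (nat_lit 28) (.e (nat_lit 352318) (nat_lit 24) (.e (nat_lit 123023) (nat_lit 124) (.e (nat_lit 57384) (nat_lit 4) .nil)))))) (.g (nat_lit 4) .nil .nil))) 
(.lf (nat_lit 234560) (.g (nat_lit 1082) (.e (nat_lit 106536) (nat_lit 11) (.e (nat_lit 16433) (nat_lit 9) (.e (nat_lit 426540) (nat_lit 29) (.e (nat_lit 360192) (nat_lit 5) .nil)))) .nil))) (.nd (nat_lit 6) 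
(.lf (nat_lit 234528) (.g (nat_lit 3183) (.e (nat_lit 106536) (nat_lit 11) (.e (nat_lit 16416) (nat_lit 3) (.e (nat_lit 204877) (nat_lit 31) (.e (nat_lit 376855) (nat_lit 20) (.e (nat_lit 7936) (nat_lit 126) (.e (nat_lit 573449) (nat_lit 9) (.e (nat_lit 1271) (nat_lit 93) .nil))))))) (.g (nat_lit 4) .nil .nil))) 
(.lf (nat_lit 234592) (.g (nat_lit 1098) (.e (nat_lit 106536) (nat_lit 11) (.e (nat_lit 16435) (nat_lit 9) (.e (nat_lit 426538) (nat_lit 29) (.e (nat_lit 352309) (nat_lit 21) .nil)))) .nil)))) (.nd (nat_lit 5) (.nd (nat_lit 6) 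
(.lf (nat_lit 234512) (.g (nat_lit 3712) (.e (nat_lit 106536) (nat_lit 11) (.e (nat_lit 16416) (nat_lit 3) (.e (nat_lit 204869) (nat_lit 29) (.e (nat_lit 360451) (nat_lit 0) (.e (nat_lit 7936) (nat_lit 253) (.e (nat_lit 57385) (nat_lit 4) .nil)))))) (.g (nat_lit 4) .nil .nil))) 
(.lf (nat_lit 234576) (.g (nat_lit 2921) (.e (nat_lit 106536) (nat_lit 11) (.e (nat_lit 16433) (nat_lit 9) (.e (nat_lit 426555) (nat_lit 32) (.e (nat_lit 376859) (nat_lit 21) (.e (nat_lit 57849) (nat_lit 252) (.e (nat_lit 57381) (nat_lit 4) .nil)))))) (.g (nat_lit 5) .nil .nil)))) (.nd (nat_lit 6) 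
(.lf (nat_lit 234544) (.g (nat_lit 2857) (.e (nat_lit 106536) (nat_lit 11) (.e (nat_lit 16417) (nat_lit 3) (.e (nat_lit 204869) (nat_lit 29) (.e (nat_lit 360477) (nat_lit 11) (.e (nat_lit 581659) (nat_lit 9) (.e (nat_lit 1266) (nat_lit 93) .nil)))))) (.g (nat_lit 4) .nil .nil))) 
(.lf (nat_lit 234608) (.g (nat_lit 2789) (.e (nat_lit 106536) (nat_lit 11) (.e (nat_lit 16435) (nat_lit 9) (.e (nat_lit 426555) (nat_lit 32) (.e (nat_lit 376860) (nat_lit 21) (.e (nat_lit 57854) (nat_lit 252) (.e (nat_lit 57381) (nat_lit 4) .nil)))))) (.g (nat_lit 4) .nil .nil)))))) (.nd (nat_lit 4) (.nd (nat_lit 5) (.nd (nat_lit 6) 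
(.lf (nat_lit 234504) (.g (nat_lit 1226) (.e (nat_lit 106536) (nat_lit 11) (.e (nat_lit 16416) (nat_lit 3) (.e (nat_lit 204868) (nat_lit 29) (.e (nat_lit 360477) (nat_lit 11) .nil)))) .nil)) 
(.lf (nat_lit 234568) (.g (nat_lit 2805) (.e (nat_lit 106536) (nat_lit 11) (.e (nat_lit 16433) (nat_lit 9) (.e (nat_lit 426555) (nat_lit 32) (.e (nat_lit 376857) (nat_lit 21) (.e (nat_lit 57848) (nat_lit 252) (.e (nat_lit 57383) (nat_lit 4) .nil)))))) (.g (nat_lit 5) .nil .nil)))) (.nd (nat_lit 6) 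
(.lf (nat_lit 234536) (.g (nat_lit 768) (.e (nat_lit 106536) (nat_lit 11) (.e (nat_lit 16417) (nat_lit 3) (.e (nat_lit 204859) (nat_lit 26) (.e (nat_lit 336206) (nat_lit 12) (.e (nat_lit 385067) (nat_lit 26) .nil))))) .nil)) 
(.lf (nat_lit 234600) (.g (nat_lit 2761) (.e (nat_lit 106536) (nat_lit 11) (.e (nat_lit 16435) (nat_lit 9) (.e (nat_lit 426555) (nat_lit 32) (.e (nat_lit 376857) (nat_lit 21) (.e (nat_lit 57852) (nat_lit 252) (.e (nat_lit 57381) (nat_lit 4) .nil)))))) (.g (nat_lit 4) .nil .nil))))) (.nd (nat_lit 5) (.nd (nat_lit 6) 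
(.lf (nat_lit 234520) (.g (nat_lit 1038) (.e (nat_lit 106536) (nat_lit 11) (.e (nat_lit 16416) (nat_lit 3) (.e (nat_lit 204876) (nat_lit 31) (.e (nat_lit 376835) (nat_lit 0) (.e (nat_lit 3145) (nat_lit 193) .nil))))) .nil)) 
(.lf (nat_lit 234584) (.g (nat_lit 3069) (.e (nat_lit 106536) (nat_lit 11) (.e (nat_lit 16434) (nat_lit 9) (.e (nat_lit 426555) (nat_lit 32) (.e (nat_lit 376857) (nat_lit 21) (.e (nat_lit 57849) (nat_lit 252) (.e (nat_lit 57385) (nat_lit 4) .nil)))))) (.g (nat_lit 5) .nil .nil)))) (.nd (nat_lit 6) 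
(.lf (nat_lit 234552) (.g (nat_lit 2766) (.e (nat_lit 106536) (nat_lit 11) (.e (nat_lit 16432) (nat_lit 9) (.e (nat_lit 426555) (nat_lit 32) (.e (nat_lit 376859) (nat_lit 21) (.e (nat_lit 57847) (nat_lit 252) (.e (nat_lit 57385) (nat_lit 4) .nil)))))) (.g (nat_lit 4) .nil .nil))) 
(.lf (nat_lit 234616) (.g (nat_lit 2462) (.e (nat_lit 106536) (nat_lit 11) (.e (nat_lit 16436) (nat_lit 9) (.e (nat_lit 426482) (nat_lit 27) (.e (nat_lit 336205) (nat_lit 12) (.e (nat_lit 385109) (nat_lit 51) .nil))))) .nil)))))) (.nd (nat_lit 3) (.nd (nat_lit 4) (.nd (nat_lit 5) (.nd (nat_lit 6) 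
(.lf (nat_lit 234500) (.g (nat_lit 814) (.e (nat_lit 106536) (nat_lit 11) (.e (nat_lit 16416) (nat_lit 3) (.e (nat_lit 204867) (nat_lit 28) .nil))) .nil)) 
(.lf (nat_lit 234564) (.g (nat_lit 848) (.e (nat_lit 106536) (nat_lit 11) (.e (nat_lit 16433) (nat_lit 9) (.e (nat_lit 426553) (nat_lit 32) (.e (nat_lit 384768) (nat_lit 5) .nil)))) .nil))) (.nd (nat_lit 6) 
(.lf (nat_lit 234532) (.g (nat_lit 1427) (.e (nat_lit 106536) (nat_lit 11) (.e (nat_lit 16417) (nat_lit 3) (.e (nat_lit 204854) (nat_lit 26) (.e (nat_lit 336182) (nat_lit 11) (.e (nat_lit 376576) (nat_lit 28) .nil))))) .nil)) 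
(.lf (nat_lit 234596) (.g (nat_lit 2548) (.e (nat_lit 106536) (nat_lit 11) (.e (nat_lit 16435) (nat_lit 9) (.e (nat_lit 426555) (nat_lit 32) (.e (nat_lit 376857) (nat_lit 21) (.e (nat_lit 57847) (nat_lit 252) (.e (nat_lit 57381) (nat_lit 4) .nil)))))) (.g (nat_lit 4) .nil .nil))))) (.nd (nat_lit 5) (.nd (nat_lit 6) 
(.lf (nat_lit 234516) (.g (nat_lit 3110) (.e (nat_lit 106536) (nat_lit 11) (.e (nat_lit 16416) (nat_lit 3) (.e (nat_lit 204869) (nat_lit 29) (.e (nat_lit 360477) (nat_lit 11) (.e (nat_lit 581659) (nat_lit 9) (.e (nat_lit 7936) (nat_lit 93) .nil)))))) (.g (nat_lit 5) .nil .nil))) 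
(.lf (nat_lit 234580) (.g (nat_lit 3062) (.e (nat_lit 106536) (nat_lit 11) (.e (nat_lit 16433) (nat_lit 9) (.e (nat_lit 426555) (nat_lit 32) (.e (nat_lit 376860) (nat_lit 21) (.e (nat_lit 57854) (nat_lit 252) (.e (nat_lit 57381) (nat_lit 4) .nil)))))) (.g (nat_lit 6) .nil .nil)))) (.nd (nat_lit 6) 
(.lf (nat_lit 234548) (.g (nat_lit 1830) (.e (nat_lit 106536) (nat_lit 11) (.e (nat_lit 16432) (nat_lit 9) (.e (nat_lit 426555) (nat_lit 32) (.e (nat_lit 376857) (nat_lit 21) (.e (nat_lit 57847) (nat_lit 252) .nil))))) .nil)) 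
(.lf (nat_lit 234612) (.g (nat_lit 2445) (.e (nat_lit 106536) (nat_lit 11) (.e (nat_lit 16436) (nat_lit 9) (.e (nat_lit 426481) (nat_lit 27) (.e (nat_lit 336089) (nat_lit 9) (.e (nat_lit 336336) (nat_lit 20) (.e (nat_lit 229120) (nat_lit 4) .nil)))))) (.g (nat_lit 5) .nil .nil)))))) (.nd (nat_lit 4) (.nd (nat_lit 5) (.nd (nat_lit 6) 
(.lf (nat_lit 234508) (.g (nat_lit 2832) (.e (nat_lit 106536) (nat_lit 11) (.e (nat_lit 16416) (nat_lit 3) (.e (nat_lit 204869) (nat_lit 29) (.e (nat_lit 360450) (nat_lit 0) (.e (nat_lit 7936) (nat_lit 254) .nil))))) .nil)) 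
(.lf (nat_lit 234572) (.g (nat_lit 2802) (.e (nat_lit 106536) (nat_lit 11) (.e (nat_lit 16433) (nat_lit 9) (.e (nat_lit 426555) (nat_lit 32) (.e (nat_lit 376859) (nat_lit 21) (.e (nat_lit 57844) (nat_lit 252) (.e (nat_lit 57382) (nat_lit 4) .nil)))))) (.g (nat_lit 5) .nil .nil)))) (.nd (nat_lit 6) 
(.lf (nat_lit 234540) (.g (nat_lit 1522) (.e (nat_lit 106536) (nat_lit 11) (.e (nat_lit 16417) (nat_lit 3) (.e (nat_lit 204861) (nat_lit 26) (.e (nat_lit 336194) (nat_lit 12) (.e (nat_lit 385067) (nat_lit 26) .nil))))) .nil)) 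
(.lf (nat_lit 234604) (.g (nat_lit 2705) (.e (nat_lit 106536) (nat_lit 11) (.e (nat_lit 16435) (nat_lit 9) (.e (nat_lit 426555) (nat_lit 32) (.e (nat_lit 376859) (nat_lit 21) (.e (nat_lit 57847) (nat_lit 252) (.e (nat_lit 57383) (nat_lit 4) .nil)))))) (.g (nat_lit 4) .nil .nil))))) (.nd (nat_lit 5) (.nd (nat_lit 6) 
(.lf (nat_lit 234524) (.g (nat_lit 1081) (.e (nat_lit 106536) (nat_lit 11) (.e (nat_lit 16416) (nat_lit 3) (.e (nat_lit 204877) (nat_lit 31) (.e (nat_lit 376835) (nat_lit 0) (.e (nat_lit 3145) (nat_lit 193) .nil))))) .nil)) 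
(.lf (nat_lit 234588) (.g (nat_lit 2785) (.e (nat_lit 106536) (nat_lit 11) (.e (nat_lit 16434) (nat_lit 9) (.e (nat_lit 426555) (nat_lit 32) (.e (nat_lit 376859) (nat_lit 21) (.e (nat_lit 57848) (nat_lit 252) (.e (nat_lit 57385) (nat_lit 4) .nil)))))) (.g (nat_lit 4) .nil .nil)))) (.nd (nat_lit 6) 
(.lf (nat_lit 234556) (.g (nat_lit 756) (.e (nat_lit 106536) (nat_lit 11) (.e (nat_lit 16433) (nat_lit 9) (.e (nat_lit 426481) (nat_lit 27) .nil))) .nil)) 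
(.lf (nat_lit 234620) (.g (nat_lit 1258) (.e (nat_lit 106536) (nat_lit 11) (.e (nat_lit 16436) (nat_lit 9) (.e (nat_lit 426494) (nat_lit 27) (.e (nat_lit 336201) (nat_lit 12) .nil)))) .nil))))))) (.nd (nat_lit 2) (.nd (nat_lit 3) (.nd (nat_lit 4) (.nd (nat_lit 5) (.nd (nat_lit 6) 
(.lf (nat_lit 234498) (.g (nat_lit 2008) (.e (nat_lit 106536) (nat_lit 11) (.e (nat_lit 16416) (nat_lit 3) (.e (nat_lit 204866) (nat_lit 28) (.e (nat_lit 352318) (nat_lit 24) (.e (nat_lit 130816) (nat_lit 124) .nil))))) .nil)) 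
(.lf (nat_lit 234562) (.g (nat_lit 2318) (.e (nat_lit 106536) (nat_lit 11) (.e (nat_lit 16433) (nat_lit 9) (.e (nat_lit 426544) (nat_lit 30) (.e (nat_lit 360453) (nat_lit 0) (.e (nat_lit 5195) (nat_lit 294) (.e (nat_lit 57381) (nat_lit 4) .nil)))))) (.g (nat_lit 4) .nil .nil)))) (.nd (nat_lit 6) 
(.lf (nat_lit 234530) (.g (nat_lit 1037) (.e (nat_lit 106536) (nat_lit 11) (.e (nat_lit 16416) (nat_lit 3) (.e (nat_lit 204878) (nat_lit 31) .nil))) .nil)) 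
(.lf (nat_lit 234594) (.g (nat_lit 641) (.e (nat_lit 106536) (nat_lit 11) (.e (nat_lit 16435) (nat_lit 9) (.e (nat_lit 426542) (nat_lit 29) .nil))) .nil)))) (.nd (nat_lit 5) (.nd (nat_lit 6) 
(.lf (nat_lit 234514) (.g (nat_lit 1348) (.e (nat_lit 106536) (nat_lit 11) (.e (nat_lit 16416) (nat_lit 3) (.e (nat_lit 204869) (nat_lit 29) (.e (nat_lit 368384) (nat_lit 10) .nil)))) .nil)) 
(.lf (nat_lit 234578) (.g (nat_lit 1739) (.e (nat_lit 106536) (nat_lit 11) (.e (nat_lit 16433) (nat_lit 9) (.e (nat_lit 426555) (nat_lit 32) (.e (nat_lit 376860) (nat_lit 21) (.e (nat_lit 57851) (nat_lit 252) .nil))))) .nil))) (.nd (nat_lit 6) 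
(.lf (nat_lit 234546) (.g (nat_lit 1705) (.e (nat_lit 106536) (nat_lit 11) (.e (nat_lit 16431) (nat_lit 9) (.e (nat_lit 426555) (nat_lit 32) (.e (nat_lit 376857) (nat_lit 21) .nil)))) .nil)) 
(.lf (nat_lit 234610) (.g (nat_lit 1894) (.e (nat_lit 106536) (nat_lit 11) (.e (nat_lit 16436) (nat_lit 9) (.e (nat_lit 426479) (nat_lit 27) (.e (nat_lit 336208) (nat_lit 12) (.e (nat_lit 385107) (nat_lit 51) .nil))))) .nil))))) (.nd (nat_lit 4) (.nd (nat_lit 5) (.nd (nat_lit 6) 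
(.lf (nat_lit 234506) (.g (nat_lit 2596) (.e (nat_lit 106536) (nat_lit 11) (.e (nat_lit 16416) (nat_lit 3) (.e (nat_lit 204868) (nat_lit 29) (.e (nat_lit 360477) (nat_lit 11) (.e (nat_lit 581659) (nat_lit 9) (.e (nat_lit 7936) (nat_lit 93) .nil)))))) (.g (nat_lit 5) .nil .nil))) 
(.lf (nat_lit 234570) (.g (nat_lit 2980) (.e (nat_lit 106536) (nat_lit 11) (.e (nat_lit 16433) (nat_lit 9) (.e (nat_lit 426555) (nat_lit 32) (.e (nat_lit 376857) (nat_lit 21) (.e (nat_lit 57849) (nat_lit 252) (.e (nat_lit 57383) (nat_lit 4) .nil)))))) (.g (nat_lit 5) .nil .nil)))) (.nd (nat_lit 6) 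
(.lf (nat_lit 234538) (.g (nat_lit 1610) (.e (nat_lit 106536) (nat_lit 11) (.e (nat_lit 16417) (nat_lit 3) (.e (nat_lit 204861) (nat_lit 26) (.e (nat_lit 336086) (nat_lit 9) (.e (nat_lit 336324) (nat_lit 18) .nil))))) .nil)) 
(.lf (nat_lit 234602) (.g (nat_lit 2680) (.e (nat_lit 106536) (nat_lit 11) (.e (nat_lit 16435) (nat_lit 9) (.e (nat_lit 426555) (nat_lit 32) (.e (nat_lit 376857) (nat_lit 21) (.e (nat_lit 57854) (nat_lit 252) (.e (nat_lit 57381) (nat_lit 4) .nil)))))) (.g (nat_lit 4) .nil .nil))))) (.nd (nat_lit 5) (.nd (nat_lit 6) 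
(.lf (nat_lit 234522) (.g (nat_lit 816) (.e (nat_lit 106536) (nat_lit 11) (.e (nat_lit 16416) (nat_lit 3) (.e (nat_lit 204876) (nat_lit 31) (.e (nat_lit 384768) (nat_lit 2) .nil)))) .nil)) 
(.lf (nat_lit 234586) (.g (nat_lit 3466) (.e (nat_lit 106536) (nat_lit 11) (.e (nat_lit 16434) (nat_lit 9) (.e (nat_lit 426555) (nat_lit 32) (.e (nat_lit 376857) (nat_lit 21) (.e (nat_lit 57854) (nat_lit 252) (.e (nat_lit 57382) (nat_lit 4) .nil)))))) (.g (nat_lit 4) .nil .nil)))) (.nd (nat_lit 6) 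
(.lf (nat_lit 234554) (.g (nat_lit 2867) (.e (nat_lit 106536) (nat_lit 11) (.e (nat_lit 16432) (nat_lit 9) (.e (nat_lit 426555) (nat_lit 32) (.e (nat_lit 376859) (nat_lit 21) (.e (nat_lit 57848) (nat_lit 252) (.e (nat_lit 57386) (nat_lit 4) .nil)))))) (.g (nat_lit 4) .nil .nil))) 
(.lf (nat_lit 234618) (.g (nat_lit 1258) (.e (nat_lit 106536) (nat_lit 11) (.e (nat_lit 16436) (nat_lit 9) (.e (nat_lit 426494) (nat_lit 27) (.e (nat_lit 336084) (nat_lit 9) .nil)))) .nil)))))) (.nd (nat_lit 3) (.nd (nat_lit 4) (.nd (nat_lit 5) (.nd (nat_lit 6) 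
(.lf (nat_lit 234502) (.g (nat_lit 1729) (.e (nat_lit 106536) (nat_lit 11) (.e (nat_lit 16416) (nat_lit 3) (.e (nat_lit 204868) (nat_lit 29) (.e (nat_lit 360456) (nat_lit 0) (.e (nat_lit 4278) (nat_lit 253) .nil))))) .nil)) 
(.lf (nat_lit 234566) (.g (nat_lit 2788) (.e (nat_lit 106536) (nat_lit 11) (.e (nat_lit 16433) (nat_lit 9) (.e (nat_lit 426555) (nat_lit 32) (.e (nat_lit 376857) (nat_lit 21) (.e (nat_lit 57847) (nat_lit 252) (.e (nat_lit 57381) (nat_lit 4) .nil)))))) (.g (nat_lit 5) .nil .nil)))) (.nd (nat_lit 6) 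
(.lf (nat_lit 234534) (.g (nat_lit 977) (.e (nat_lit 106536) (nat_lit 11) (.e (nat_lit 16417) (nat_lit 3) (.e (nat_lit 204855) (nat_lit 26) (.e (nat_lit 336193) (nat_lit 12) .nil)))) .nil)) 
(.lf (nat_lit 234598) (.g (nat_lit 2855) (.e (nat_lit 106536) (nat_lit 11) (.e (nat_lit 16435) (nat_lit 9) (.e (nat_lit 426555) (nat_lit 32) (.e (nat_lit 376857) (nat_lit 21) (.e (nat_lit 57848) (nat_lit 252) (.e (nat_lit 57383) (nat_lit 4) .nil)))))) (.g (nat_lit 4) .nil .nil))))) (.nd (nat_lit 5) (.nd (nat_lit 6) 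
(.lf (nat_lit 234518) (.g (nat_lit 2006) (.e (nat_lit 106536) (nat_lit 11) (.e (nat_lit 16416) (nat_lit 3) (.e (nat_lit 204869) (nat_lit 29) (.e (nat_lit 360477) (nat_lit 11) (.e (nat_lit 589568) (nat_lit 9) .nil))))) .nil)) 
(.lf (nat_lit 234582) (.g (nat_lit 3143) (.e (nat_lit 106536) (nat_lit 11) (.e (nat_lit 16434) (nat_lit 9) (.e (nat_lit 426555) (nat_lit 32) (.e (nat_lit 376857) (nat_lit 21) (.e (nat_lit 57847) (nat_lit 252) (.e (nat_lit 57385) (nat_lit 4) .nil)))))) (.g (nat_lit 5) .nil .nil)))) (.nd (nat_lit 6) 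
(.lf (nat_lit 234550) (.g (nat_lit 2993) (.e (nat_lit 106536) (nat_lit 11) (.e (nat_lit 16432) (nat_lit 9) (.e (nat_lit 426555) (nat_lit 32) (.e (nat_lit 376857) (nat_lit 21) (.e (nat_lit 57848) (nat_lit 252) (.e (nat_lit 57386) (nat_lit 4) .nil)))))) (.g (nat_lit 4) .nil .nil))) 
(.lf (nat_lit 234614) (.g (nat_lit 1744) (.e (nat_lit 106536) (nat_lit 11) (.e (nat_lit 16436) (nat_lit 9) (.e (nat_lit 426482) (nat_lit 27) (.e (nat_lit 336089) (nat_lit 9) .nil)))) .nil))))) (.nd (nat_lit 4) (.nd (nat_lit 5) (.nd (nat_lit 6) 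
(.lf (nat_lit 234510) (.g (nat_lit 3100) (.e (nat_lit 106536) (nat_lit 11) (.e (nat_lit 16416) (nat_lit 3) (.e (nat_lit 204869) (nat_lit 29) (.e (nat_lit 360451) (nat_lit 0) (.e (nat_lit 7936) (nat_lit 253) .nil))))) .nil)) 
(.lf (nat_lit 234574) (.g (nat_lit 2673) (.e (nat_lit 106536) (nat_lit 11) (.e (nat_lit 16433) (nat_lit 9) (.e (nat_lit 426555) (nat_lit 32) (.e (nat_lit 376859) (nat_lit 21) (.e (nat_lit 57847) (nat_lit 252) (.e (nat_lit 57383) (nat_lit 4) .nil)))))) (.g (nat_lit 5) .nil .nil)))) (.nd (nat_lit 6) 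
(.lf (nat_lit 234542) (.g (nat_lit 1003) (.e (nat_lit 106536) (nat_lit 11) (.e (nat_lit 16417) (nat_lit 3) (.e (nat_lit 204868) (nat_lit 29) (.e (nat_lit 368384) (nat_lit 0) .nil)))) .nil)) 
(.lf (nat_lit 234606) (.g (nat_lit 2952) (.e (nat_lit 106536) (nat_lit 11) (.e (nat_lit 16435) (nat_lit 9) (.e (nat_lit 426555) (nat_lit 32) (.e (nat_lit 376860) (nat_lit 21) (.e (nat_lit 57852) (nat_lit 252) (.e (nat_lit 57381) (nat_lit 4) .nil)))))) (.g (nat_lit 4) .nil .nil))))) (.nd (nat_lit 5) (.nd (nat_lit 6) 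
(.lf (nat_lit 234526) (.g (nat_lit 903) (.e (nat_lit 106536) (nat_lit 11) (.e (nat_lit 16416) (nat_lit 3) (.e (nat_lit 204877) (nat_lit 31) (.e (nat_lit 384768) (nat_lit 2) .nil)))) .nil)) 
(.lf (nat_lit 234590) (.g (nat_lit 3501) (.e (nat_lit 106536) (nat_lit 11) (.e (nat_lit 16434) (nat_lit 9) (.e (nat_lit 426555) (nat_lit 32) (.e (nat_lit 376860) (nat_lit 21) (.e (nat_lit 57852) (nat_lit 252) (.e (nat_lit 57384) (nat_lit 4) .nil)))))) (.g (nat_lit 5) .nil .nil)))) (.nd (nat_lit 6) 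
(.lf (nat_lit 234558) (.g (nat_lit 756) (.e (nat_lit 106536) (nat_lit 11) (.e (nat_lit 16433) (nat_lit 9) (.e (nat_lit 426502) (nat_lit 27) .nil))) .nil)) 
(.lf (nat_lit 234622) (.g (nat_lit 1965) (.e (nat_lit 106536) (nat_lit 11) (.e (nat_lit 16436) (nat_lit 9) (.e (nat_lit 426496) (nat_lit 27) (.e (nat_lit 336076) (nat_lit 9) (.e (nat_lit 336336) (nat_lit 20) .nil))))) .nil)))))))) (.nd (nat_lit 1) (.nd (nat_lit 2) (.nd (nat_lit 3) (.nd (nat_lit 4) (.nd (nat_lit 5) (.nd (nat_lit 6) 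
(.lf (nat_lit 234497) (.g (nat_lit 4006) (.e (nat_lit 106536) (nat_lit 11) (.e (nat_lit 16416) (nat_lit 3) (.e (nat_lit 204866) (nat_lit 28) (.e (nat_lit 352318) (nat_lit 24) (.e (nat_lit 123023) (nat_lit 124) (.e (nat_lit 57385) (nat_lit 4) .nil)))))) (.g (nat_lit 4) .nil .nil))) 
(.lf (nat_lit 234561) (.g (nat_lit 756) (.e (nat_lit 106536) (nat_lit 11) (.e (nat_lit 16433) (nat_lit 9) (.e (nat_lit 426543) (nat_lit 29) .nil))) .nil))) (.nd (nat_lit 6) 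
(.lf (nat_lit 234529) (.g (nat_lit 1880) (.e (nat_lit 106536) (nat_lit 11) (.e (nat_lit 16416) (nat_lit 3) (.e (nat_lit 204877) (nat_lit 31) (.e (nat_lit 376855) (nat_lit 20) (.e (nat_lit 7936) (nat_lit 126) (.e (nat_lit 573449) (nat_lit 9) (.e (nat_lit 7936) (nat_lit 93) .nil))))))) (.g (nat_lit 6) .nil .nil))) 
(.lf (nat_lit 234593) (.g (nat_lit 641) (.e (nat_lit 106536) (nat_lit 11) (.e (nat_lit 16435) (nat_lit 9) (.e (nat_lit 426540) (nat_lit 29) .nil))) .nil)))) (.nd (nat_lit 5) (.nd (nat_lit 6) 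
(.lf (nat_lit 234513) (.g (nat_lit 1801) (.e (nat_lit 106536) (nat_lit 11) (.e (nat_lit 16416) (nat_lit 3) (.e (nat_lit 204869) (nat_lit 29) (.e (nat_lit 360455) (nat_lit 0) .nil)))) .nil)) 
(.lf (nat_lit 234577) (.g (nat_lit 2950) (.e (nat_lit 106536) (nat_lit 11) (.e (nat_lit 16433) (nat_lit 9) (.e (nat_lit 426555) (nat_lit 32) (.e (nat_lit 376859) (nat_lit 21) (.e (nat_lit 57849) (nat_lit 252) (.e (nat_lit 57383) (nat_lit 4) .nil)))))) (.g (nat_lit 5) .nil .nil)))) (.nd (nat_lit 6) 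
(.lf (nat_lit 234545) (.g (nat_lit 1612) (.e (nat_lit 106536) (nat_lit 11) (.e (nat_lit 16425) (nat_lit 7) (.e (nat_lit 409648) (nat_lit 18) (.e (nat_lit 303127) (nat_lit 9) .nil)))) .nil)) 
(.lf (nat_lit 234609) (.g (nat_lit 1317) (.e (nat_lit 106536) (nat_lit 11) (.e (nat_lit 16436) (nat_lit 9) (.e (nat_lit 426478) (nat_lit 27) (.e (nat_lit 336205) (nat_lit 12) .nil)))) .nil))))) (.nd (nat_lit 4) (.nd (nat_lit 5) (.nd (nat_lit 6) 
(.lf (nat_lit 234505) (.g (nat_lit 2526) (.e (nat_lit 106536) (nat_lit 11) (.e (nat_lit 16416) (nat_lit 3) (.e (nat_lit 204868) (nat_lit 29) (.e (nat_lit 360477) (nat_lit 11) (.e (nat_lit 581659) (nat_lit 9) (.e (nat_lit 1266) (nat_lit 93) .nil)))))) (.g (nat_lit 4) .nil .nil))) 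
(.lf (nat_lit 234569) (.g (nat_lit 2956) (.e (nat_lit 106536) (nat_lit 11) (.e (nat_lit 16433) (nat_lit 9) (.e (nat_lit 426555) (nat_lit 32) (.e (nat_lit 376857) (nat_lit 21) (.e (nat_lit 57849) (nat_lit 252) (.e (nat_lit 57381) (nat_lit 4) .nil)))))) (.g (nat_lit 5) .nil .nil)))) (.nd (nat_lit 6) 
(.lf (nat_lit 234537) (.g (nat_lit 2193) (.e (nat_lit 106536) (nat_lit 11) (.e (nat_lit 16417) (nat_lit 3) (.e (nat_lit 204861) (nat_lit 26) (.e (nat_lit 336076) (nat_lit 9) (.e (nat_lit 336324) (nat_lit 18) (.e (nat_lit 204834) (nat_lit 19) .nil)))))) (.g (nat_lit 4) .nil .nil))) 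
(.lf (nat_lit 234601) (.g (nat_lit 2752) (.e (nat_lit 106536) (nat_lit 11) (.e (nat_lit 16435) (nat_lit 9) (.e (nat_lit 426555) (nat_lit 32) (.e (nat_lit 376857) (nat_lit 21) (.e (nat_lit 57853) (nat_lit 252) (.e (nat_lit 57381) (nat_lit 4) .nil)))))) (.g (nat_lit 4) .nil .nil))))) (.nd (nat_lit 5) (.nd (nat_lit 6) 
(.lf (nat_lit 234521) (.g (nat_lit 1698) (.e (nat_lit 106536) (nat_lit 11) (.e (nat_lit 16416) (nat_lit 3) (.e (nat_lit 204876) (nat_lit 31) (.e (nat_lit 376835) (nat_lit 0) (.e (nat_lit 3253) (nat_lit 197) (.e (nat_lit 540416) (nat_lit 2) .nil)))))) (.g (nat_lit 5) .nil .nil))) 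
(.lf (nat_lit 234585) (.g (nat_lit 3232) (.e (nat_lit 106536) (nat_lit 11) (.e (nat_lit 16434) (nat_lit 9) (.e (nat_lit 426555) (nat_lit 32) (.e (nat_lit 376857) (nat_lit 21) (.e (nat_lit 57852) (nat_lit 252) (.e (nat_lit 57384) (nat_lit 4) .nil)))))) (.g (nat_lit 5) .nil .nil)))) (.nd (nat_lit 6) 
(.lf (nat_lit 234553) (.g (nat_lit 2648) (.e (nat_lit 106536) (nat_lit 11) (.e (nat_lit 16432) (nat_lit 9) (.e (nat_lit 426555) (nat_lit 32) (.e (nat_lit 376859) (nat_lit 21) (.e (nat_lit 57848) (nat_lit 252) (.e (nat_lit 57385) (nat_lit 4) .nil)))))) (.g (nat_lit 4) .nil .nil))) 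
(.lf (nat_lit 234617) (.g (nat_lit 741) (.e (nat_lit 106536) (nat_lit 11) (.e (nat_lit 16436) (nat_lit 9) (.e (nat_lit 426489) (nat_lit 27) .nil))) .nil)))))) (.nd (nat_lit 3) (.nd (nat_lit 4) (.nd (nat_lit 5) (.nd (nat_lit 6) 
(.lf (nat_lit 234501) (.g (nat_lit 220) (.e (nat_lit 106536) (nat_lit 11) (.e (nat_lit 16416) (nat_lit 3) (.e (nat_lit 204868) (nat_lit 29) .nil))) .nil)) 
(.lf (nat_lit 234565) (.g (nat_lit 487) (.e (nat_lit 106536) (nat_lit 11) (.e (nat_lit 16433) (nat_lit 9) (.e (nat_lit 426555) (nat_lit 32) .nil))) .nil))) (.nd (nat_lit 6) 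
(.lf (nat_lit 234533) (.g (nat_lit 1402) (.e (nat_lit 106536) (nat_lit 11) (.e (nat_lit 16417) (nat_lit 3) (.e (nat_lit 204854) (nat_lit 26) (.e (nat_lit 336207) (nat_lit 12) .nil)))) .nil)) 
(.lf (nat_lit 234597) (.g (nat_lit 2894) (.e (nat_lit 106536) (nat_lit 11) (.e (nat_lit 16435) (nat_lit 9) (.e (nat_lit 426555) (nat_lit 32) (.e (nat_lit 376857) (nat_lit 21) (.e (nat_lit 57847) (nat_lit 252) (.e (nat_lit 57383) (nat_lit 4) .nil)))))) (.g (nat_lit 4) .nil .nil))))) (.nd (nat_lit 5) (.nd (nat_lit 6) 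
(.lf (nat_lit 234517) (.g (nat_lit 2006) (.e (nat_lit 106536) (nat_lit 11) (.e (nat_lit 16416) (nat_lit 3) (.e (nat_lit 204869) (nat_lit 29) (.e (nat_lit 360477) (nat_lit 11) (.e (nat_lit 581661) (nat_lit 9) .nil))))) .nil)) 
(.lf (nat_lit 234581) (.g (nat_lit 724) (.e (nat_lit 106536) (nat_lit 11) (.e (nat_lit 16433) (nat_lit 9) (.e (nat_lit 426556) (nat_lit 32) (.e (nat_lit 384768) (nat_lit 5) .nil)))) .nil))) (.nd (nat_lit 6) 
(.lf (nat_lit 234549) (.g (nat_lit 2780) (.e (nat_lit 106536) (nat_lit 11) (.e (nat_lit 16432) (nat_lit 9) (.e (nat_lit 426555) (nat_lit 32) (.e (nat_lit 376857) (nat_lit 21) (.e (nat_lit 57848) (nat_lit 252) (.e (nat_lit 57385) (nat_lit 4) .nil)))))) (.g (nat_lit 4) .nil .nil))) 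
(.lf (nat_lit 234613) (.g (nat_lit 1107) (.e (nat_lit 106536) (nat_lit 11) (.e (nat_lit 16436) (nat_lit 9) (.e (nat_lit 426481) (nat_lit 27) (.e (nat_lit 336205) (nat_lit 12) .nil)))) .nil))))) (.nd (nat_lit 4) (.nd (nat_lit 5) (.nd (nat_lit 6) 
(.lf (nat_lit 234509) (.g (nat_lit 3181) (.e (nat_lit 106536) (nat_lit 11) (.e (nat_lit 16416) (nat_lit 3) (.e (nat_lit 204869) (nat_lit 29) (.e (nat_lit 360451) (nat_lit 0) (.e (nat_lit 3933) (nat_lit 239) .nil))))) .nil)) 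
(.lf (nat_lit 234573) (.g (nat_lit 2655) (.e (nat_lit 106536) (nat_lit 11) (.e (nat_lit 16433) (nat_lit 9) (.e (nat_lit 426555) (nat_lit 32) (.e (nat_lit 376859) (nat_lit 21) (.e (nat_lit 57847) (nat_lit 252) (.e (nat_lit 57381) (nat_lit 4) .nil)))))) (.g (nat_lit 5) .nil .nil)))) (.nd (nat_lit 6) 
(.lf (nat_lit 234541) (.g (nat_lit 1862) (.e (nat_lit 106536) (nat_lit 11) (.e (nat_lit 16417) (nat_lit 3) (.e (nat_lit 204861) (nat_lit 26) (.e (nat_lit 336196) (nat_lit 12) (.e (nat_lit 385066) (nat_lit 26) .nil))))) .nil)) 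
(.lf (nat_lit 234605) (.g (nat_lit 2750) (.e (nat_lit 106536) (nat_lit 11) (.e (nat_lit 16435) (nat_lit 9) (.e (nat_lit 426555) (nat_lit 32) (.e (nat_lit 376859) (nat_lit 21) (.e (nat_lit 57848) (nat_lit 252) (.e (nat_lit 57383) (nat_lit 4) .nil)))))) (.g (nat_lit 4) .nil .nil))))) (.nd (nat_lit 5) (.nd (nat_lit 6) 
(.lf (nat_lit 234525) (.g (nat_lit 1738) (.e (nat_lit 106536) (nat_lit 11) (.e (nat_lit 16416) (nat_lit 3) (.e (nat_lit 204877) (nat_lit 31) (.e (nat_lit 376835) (nat_lit 0) (.e (nat_lit 3253) (nat_lit 197) (.e (nat_lit 540416) (nat_lit 2) .nil)))))) (.g (nat_lit 5) .nil .nil))) 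
(.lf (nat_lit 234589) (.g (nat_lit 2955) (.e (nat_lit 106536) (nat_lit 11) (.e (nat_lit 16434) (nat_lit 9) (.e (nat_lit 426555) (nat_lit 32) (.e (nat_lit 376859) (nat_lit 21) (.e (nat_lit 57849) (nat_lit 252) (.e (nat_lit 57385) (nat_lit 4) .nil)))))) (.g (nat_lit 5) .nil .nil)))) (.nd (nat_lit 6) 
(.lf (nat_lit 234557) (.g (nat_lit 1040) (.e (nat_lit 106536) (nat_lit 11) (.e (nat_lit 16433) (nat_lit 9) (.e (nat_lit 426481) (nat_lit 27) (.e (nat_lit 336089) (nat_lit 9) .nil)))) .nil)) 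
(.lf (nat_lit 234621) (.g (nat_lit 941) (.e (nat_lit 106536) (nat_lit 11) (.e (nat_lit 16436) (nat_lit 9) (.e (nat_lit 426496) (nat_lit 27) (.e (nat_lit 336075) (nat_lit 9) .nil)))) .nil))))))) (.nd (nat_lit 2) (.nd (nat_lit 3) (.nd (nat_lit 4) (.nd (nat_lit 5) (.nd (nat_lit 6) 
(.lf (nat_lit 234499) (.g (nat_lit 3217) (.e (nat_lit 106536) (nat_lit 11) (.e (nat_lit 16416) (nat_lit 3) (.e (nat_lit 204866) (nat_lit 28) (.e (nat_lit 352318) (nat_lit 24) (.e (nat_lit 123024) (nat_lit 125) (.e (nat_lit 122895) (nat_lit 4) .nil)))))) (.g (nat_lit 4) .nil .nil))) 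
(.lf (nat_lit 234563) (.g (nat_lit 1116) (.e (nat_lit 106536) (nat_lit 11) (.e (nat_lit 16433) (nat_lit 9) (.e (nat_lit 426546) (nat_lit 30) (.e (nat_lit 360452) (nat_lit 0) .nil)))) .nil))) (.nd (nat_lit 6) 
(.lf (nat_lit 234531) (.g (nat_lit 1295) (.e (nat_lit 106536) (nat_lit 11) (.e (nat_lit 16417) (nat_lit 3) (.e (nat_lit 204852) (nat_lit 26) (.e (nat_lit 336208) (nat_lit 12) .nil)))) .nil)) 
(.lf (nat_lit 234595) (.g (nat_lit 641) (.e (nat_lit 106536) (nat_lit 11) (.e (nat_lit 16435) (nat_lit 9) (.e (nat_lit 426546) (nat_lit 30) .nil))) .nil)))) (.nd (nat_lit 5) (.nd (nat_lit 6) 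
(.lf (nat_lit 234515) (.g (nat_lit 3449) (.e (nat_lit 106536) (nat_lit 11) (.e (nat_lit 16416) (nat_lit 3) (.e (nat_lit 204869) (nat_lit 29) (.e (nat_lit 360477) (nat_lit 11) (.e (nat_lit 581659) (nat_lit 9) (.e (nat_lit 1266) (nat_lit 93) .nil)))))) (.g (nat_lit 5) .nil .nil))) 
(.lf (nat_lit 234579) (.g (nat_lit 3103) (.e (nat_lit 106536) (nat_lit 11) (.e (nat_lit 16433) (nat_lit 9) (.e (nat_lit 426555) (nat_lit 32) (.e (nat_lit 376860) (nat_lit 21) (.e (nat_lit 57853) (nat_lit 252) (.e (nat_lit 57381) (nat_lit 4) .nil)))))) (.g (nat_lit 5) .nil .nil)))) (.nd (nat_lit 6) 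
(.lf (nat_lit 234547) (.g (nat_lit 1705) (.e (nat_lit 106536) (nat_lit 11) (.e (nat_lit 16431) (nat_lit 9) (.e (nat_lit 426555) (nat_lit 32) (.e (nat_lit 376859) (nat_lit 21) .nil)))) .nil)) 
(.lf (nat_lit 234611) (.g (nat_lit 2370) (.e (nat_lit 106536) (nat_lit 11) (.e (nat_lit 16436) (nat_lit 9) (.e (nat_lit 426481) (nat_lit 27) (.e (nat_lit 336083) (nat_lit 9) (.e (nat_lit 336336) (nat_lit 20) (.e (nat_lit 229120) (nat_lit 4) .nil)))))) (.g (nat_lit 5) .nil .nil)))))) (.nd (nat_lit 4) (.nd (nat_lit 5) (.nd (nat_lit 6) 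
(.lf (nat_lit 234507) (.g (nat_lit 3050) (.e (nat_lit 106536) (nat_lit 11) (.e (nat_lit 16416) (nat_lit 3) (.e (nat_lit 204869) (nat_lit 29) (.e (nat_lit 360450) (nat_lit 0) (.e (nat_lit 4235) (nat_lit 251) .nil))))) .nil)) 
(.lf (nat_lit 234571) (.g (nat_lit 3004) (.e (nat_lit 106536) (nat_lit 11) (.e (nat_lit 16433) (nat_lit 9) (.e (nat_lit 426555) (nat_lit 32) (.e (nat_lit 376857) (nat_lit 21) (.e (nat_lit 57853) (nat_lit 252) (.e (nat_lit 57381) (nat_lit 4) .nil)))))) (.g (nat_lit 5) .nil .nil)))) (.nd (nat_lit 6) 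
(.lf (nat_lit 234539) (.g (nat_lit 1516) (.e (nat_lit 106536) (nat_lit 11) (.e (nat_lit 16417) (nat_lit 3) (.e (nat_lit 204861) (nat_lit 26) (.e (nat_lit 336194) (nat_lit 12) (.e (nat_lit 385064) (nat_lit 26) .nil))))) .nil)) 
(.lf (nat_lit 234603) (.g (nat_lit 3308) (.e (nat_lit 106536) (nat_lit 11) (.e (nat_lit 16435) (nat_lit 9) (.e (nat_lit 426555) (nat_lit 32) (.e (nat_lit 376857) (nat_lit 21) (.e (nat_lit 57854) (nat_lit 252) (.e (nat_lit 57382) (nat_lit 4) .nil)))))) (.g (nat_lit 5) .nil .nil))))) (.nd (nat_lit 5) (.nd (nat_lit 6) 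
(.lf (nat_lit 234523) (.g (nat_lit 440) (.e (nat_lit 106536) (nat_lit 11) (.e (nat_lit 16416) (nat_lit 3) (.e (nat_lit 204877) (nat_lit 31) .nil))) .nil)) 
(.lf (nat_lit 234587) (.g (nat_lit 3474) (.e (nat_lit 106536) (nat_lit 11) (.e (nat_lit 16434) (nat_lit 9) (.e (nat_lit 426555) (nat_lit 32) (.e (nat_lit 376857) (nat_lit 21) (.e (nat_lit 57854) (nat_lit 252) (.e (nat_lit 57384) (nat_lit 4) .nil)))))) (.g (nat_lit 5) .nil .nil)))) (.nd (nat_lit 6) 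
(.lf (nat_lit 234555) (.g (nat_lit 1578) (.e (nat_lit 106536) (nat_lit 11) (.e (nat_lit 16433) (nat_lit 9) (.e (nat_lit 426448) (nat_lit 20) (.e (nat_lit 122624) (nat_lit 1) .nil)))) .nil)) 
(.lf (nat_lit 234619) (.g (nat_lit 2169) (.e (nat_lit 106536) (nat_lit 11) (.e (nat_lit 16436) (nat_lit 9) (.e (nat_lit 426494) (nat_lit 27) (.e (nat_lit 336194) (nat_lit 12) (.e (nat_lit 385109) (nat_lit 51) .nil))))) .nil)))))) (.nd (nat_lit 3) (.nd (nat_lit 4) (.nd (nat_lit 5) (.nd (nat_lit 6) 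
(.lf (nat_lit 234503) (.g (nat_lit 1289) (.e (nat_lit 106536) (nat_lit 11) (.e (nat_lit 16416) (nat_lit 3) (.e (nat_lit 204868) (nat_lit 29) (.e (nat_lit 368384) (nat_lit 10) .nil)))) .nil)) 
(.lf (nat_lit 234567) (.g (nat_lit 2819) (.e (nat_lit 106536) (nat_lit 11) (.e (nat_lit 16433) (nat_lit 9) (.e (nat_lit 426555) (nat_lit 32) (.e (nat_lit 376857) (nat_lit 21) (.e (nat_lit 57847) (nat_lit 252) (.e (nat_lit 57383) (nat_lit 4) .nil)))))) (.g (nat_lit 5) .nil .nil)))) (.nd (nat_lit 6) 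
(.lf (nat_lit 234535) (.g (nat_lit 1152) (.e (nat_lit 106536) (nat_lit 11) (.e (nat_lit 16417) (nat_lit 3) (.e (nat_lit 204855) (nat_lit 26) (.e (nat_lit 336200) (nat_lit 12) .nil)))) .nil)) 
(.lf (nat_lit 234599) (.g (nat_lit 2718) (.e (nat_lit 106536) (nat_lit 11) (.e (nat_lit 16435) (nat_lit 9) (.e (nat_lit 426555) (nat_lit 32) (.e (nat_lit 376857) (nat_lit 21) (.e (nat_lit 57849) (nat_lit 252) (.e (nat_lit 57381) (nat_lit 4) .nil)))))) (.g (nat_lit 4) .nil .nil))))) (.nd (nat_lit 5) (.nd (nat_lit 6) 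
(.lf (nat_lit 234519) (.g (nat_lit 401) (.e (nat_lit 106536) (nat_lit 11) (.e (nat_lit 16416) (nat_lit 3) (.e (nat_lit 204876) (nat_lit 31) .nil))) .nil)) 
(.lf (nat_lit 234583) (.g (nat_lit 2960) (.e (nat_lit 106536) (nat_lit 11) (.e (nat_lit 16434) (nat_lit 9) (.e (nat_lit 426555) (nat_lit 32) (.e (nat_lit 376857) (nat_lit 21) (.e (nat_lit 57848) (nat_lit 252) (.e (nat_lit 57385) (nat_lit 4) .nil)))))) (.g (nat_lit 4) .nil .nil)))) (.nd (nat_lit 6) 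
(.lf (nat_lit 234551) (.g (nat_lit 1769) (.e (nat_lit 106536) (nat_lit 11) (.e (nat_lit 16432) (nat_lit 9) (.e (nat_lit 426555) (nat_lit 32) (.e (nat_lit 376859) (nat_lit 21) (.e (nat_lit 57847) (nat_lit 252) .nil))))) .nil)) 
(.lf (nat_lit 234615) (.g (nat_lit 3201) (.e (nat_lit 106536) (nat_lit 11) (.e (nat_lit 16436) (nat_lit 9) (.e (nat_lit 426482) (nat_lit 27) (.e (nat_lit 336089) (nat_lit 9) (.e (nat_lit 336336) (nat_lit 20) (.e (nat_lit 229120) (nat_lit 4) .nil)))))) (.g (nat_lit 5) .nil .nil)))))) (.nd (nat_lit 4) (.nd (nat_lit 5) (.nd (nat_lit 6) 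
(.lf (nat_lit 234511) (.g (nat_lit 3819) (.e (nat_lit 106536) (nat_lit 11) (.e (nat_lit 16416) (nat_lit 3) (.e (nat_lit 204869) (nat_lit 29) (.e (nat_lit 360451) (nat_lit 0) (.e (nat_lit 7936) (nat_lit 253) (.e (nat_lit 57384) (nat_lit 4) .nil)))))) (.g (nat_lit 4) .nil .nil))) 
(.lf (nat_lit 234575) (.g (nat_lit 2722) (.e (nat_lit 106536) (nat_lit 11) (.e (nat_lit 16433) (nat_lit 9) (.e (nat_lit 426555) (nat_lit 32) (.e (nat_lit 376859) (nat_lit 21) (.e (nat_lit 57848) (nat_lit 252) (.e (nat_lit 57383) (nat_lit 4) .nil)))))) (.g (nat_lit 5) .nil .nil)))) (.nd (nat_lit 6) 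
(.lf (nat_lit 234543) (.g (nat_lit 1161) (.e (nat_lit 106536) (nat_lit 11) (.e (nat_lit 16417) (nat_lit 3) (.e (nat_lit 204869) (nat_lit 29) (.e (nat_lit 368384) (nat_lit 0) .nil)))) .nil)) 
(.lf (nat_lit 234607) (.g (nat_lit 2826) (.e (nat_lit 106536) (nat_lit 11) (.e (nat_lit 16435) (nat_lit 9) (.e (nat_lit 426555) (nat_lit 32) (.e (nat_lit 376860) (nat_lit 21) (.e (nat_lit 57853) (nat_lit 252) (.e (nat_lit 57381) (nat_lit 4) .nil)))))) (.g (nat_lit 4) .nil .nil))))) (.nd (nat_lit 5) (.nd (nat_lit 6) 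
(.lf (nat_lit 234527) (.g (nat_lit 1366) (.e (nat_lit 106536) (nat_lit 11) (.e (nat_lit 16416) (nat_lit 3) (.e (nat_lit 204877) (nat_lit 31) (.e (nat_lit 376855) (nat_lit 20) (.e (nat_lit 7936) (nat_lit 126) .nil))))) .nil)) 
(.lf (nat_lit 234591) (.g (nat_lit 641) (.e (nat_lit 106536) (nat_lit 11) (.e (nat_lit 16435) (nat_lit 9) (.e (nat_lit 426448) (nat_lit 20) .nil))) .nil))) (.nd (nat_lit 6) 
(.lf (nat_lit 234559) (.g (nat_lit 756) (.e (nat_lit 106536) (nat_lit 11) (.e (nat_lit 16433) (nat_lit 9) (.e (nat_lit 426514) (nat_lit 27) .nil))) .nil)) 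
(.lf (nat_lit 234623) (.g (nat_lit 1824) (.e (nat_lit 106536) (nat_lit 11) (.e (nat_lit 16436) (nat_lit 9) (.e (nat_lit 426502) (nat_lit 27) (.e (nat_lit 336075) (nat_lit 9) (.e (nat_lit 336336) (nat_lit 20) .nil))))) .nil)))))))))

noncomputable def tv3065 : DT := (.nd (nat_lit 0) (.nd (nat_lit 1) (.nd (nat_lit 2) (.nd (nat_lit 3) (.nd (nat_lit 4) (.nd (nat_lit 5) (.nd (nat_lit 6) 
(.lf (nat_lit 234624) (.g (nat_lit 1357) (.e (nat_lit 106536) (nat_lit 11) (.e (nat_lit 16436) (nat_lit 9) (.e (nat_lit 426502) (nat_lit 27) (.e (nat_lit 336088) (nat_lit 9) .nil)))) .nil)) 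
(.lf (nat_lit 234688) (.g (nat_lit 1620) (.e (nat_lit 106536) (nat_lit 11) (.e (nat_lit 16438) (nat_lit 9) (.e (nat_lit 426555) (nat_lit 32) (.e (nat_lit 376858) (nat_lit 21) .nil)))) .nil))) (.nd (nat_lit 6) 
(.lf (nat_lit 234656) (.g (nat_lit 2591) (.e (nat_lit 106536) (nat_lit 11) (.e (nat_lit 16436) (nat_lit 9) (.e (nat_lit 426555) (nat_lit 32) (.e (nat_lit 376860) (nat_lit 21) (.e (nat_lit 57851) (nat_lit 252) (.e (nat_lit 57382) (nat_lit 4) .nil)))))) (.g (nat_lit 4) .nil .nil))) 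
(.lf (nat_lit 234720) (.g (nat_lit 2034) (.e (nat_lit 106536) (nat_lit 11) (.e (nat_lit 16463) (nat_lit 13) (.e (nat_lit 483381) (nat_lit 23) (.e (nat_lit 336336) (nat_lit 20) (.e (nat_lit 229120) (nat_lit 4) .nil))))) (.g (nat_lit 4) .nil .nil))))) (.nd (nat_lit 5) (.nd (nat_lit 6) 
(.lf (nat_lit 234640) (.g (nat_lit 905) (.e (nat_lit 106536) (nat_lit 11) (.e (nat_lit 16436) (nat_lit 9) (.e (nat_lit 426543) (nat_lit 29) (.e (nat_lit 360192) (nat_lit 5) .nil)))) .nil)) 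
(.lf (nat_lit 234704) (.g (nat_lit 2171) (.e (nat_lit 106536) (nat_lit 11) (.e (nat_lit 16459) (nat_lit 12) (.e (nat_lit 475214) (nat_lit 42) (.e (nat_lit 720954) (nat_lit 25) (.e (nat_lit 114710) (nat_lit 21) .nil))))) .nil))) (.nd (nat_lit 6) 
(.lf (nat_lit 234672) (.g (nat_lit 2325) (.e (nat_lit 106536) (nat_lit 11) (.e (nat_lit 16437) (nat_lit 9) (.e (nat_lit 426555) (nat_lit 32) (.e (nat_lit 376859) (nat_lit 21) (.e (nat_lit 57848) (nat_lit 252) (.e (nat_lit 57383) (nat_lit 4) .nil)))))) (.g (nat_lit 4) .nil .nil))) 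
(.lf (nat_lit 234736) (.g (nat_lit 2789) (.e (nat_lit 106536) (nat_lit 11) (.e (nat_lit 16463) (nat_lit 13) (.e (nat_lit 483393) (nat_lit 23) (.e (nat_lit 335986) (nat_lit 1) (.e (nat_lit 57849) (nat_lit 252) (.e (nat_lit 57381) (nat_lit 4) .nil)))))) (.g (nat_lit 5) .nil .nil)))))) (.nd (nat_lit 4) (.nd (nat_lit 5) (.nd (nat_lit 6) 
(.lf (nat_lit 234632) (.g (nat_lit 756) (.e (nat_lit 106536) (nat_lit 11) (.e (nat_lit 16436) (nat_lit 9) (.e (nat_lit 426511) (nat_lit 27) .nil))) .nil)) 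
(.lf (nat_lit 234696) (.g (nat_lit 2342) (.e (nat_lit 106536) (nat_lit 11) (.e (nat_lit 16456) (nat_lit 12) (.e (nat_lit 475214) (nat_lit 42) (.e (nat_lit 720955) (nat_lit 25) (.e (nat_lit 114712) (nat_lit 21) .nil))))) .nil))) (.nd (nat_lit 6) 
(.lf (nat_lit 234664) (.g (nat_lit 2027) (.e (nat_lit 106536) (nat_lit 11) (.e (nat_lit 16437) (nat_lit 9) (.e (nat_lit 426546) (nat_lit 30) (.e (nat_lit 360452) (nat_lit 0) (.e (nat_lit 5195) (nat_lit 294) (.e (nat_lit 57383) (nat_lit 4) .nil)))))) (.g (nat_lit 4) .nil .nil))) 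
(.lf (nat_lit 234728) (.g (nat_lit 643) (.e (nat_lit 106536) (nat_lit 11) (.e (nat_lit 16463) (nat_lit 13) (.e (nat_lit 483386) (nat_lit 23) .nil))) .nil)))) (.nd (nat_lit 5) (.nd (nat_lit 6) 
(.lf (nat_lit 234648) (.g (nat_lit 3193) (.e (nat_lit 106536) (nat_lit 11) (.e (nat_lit 16436) (nat_lit 9) (.e (nat_lit 426555) (nat_lit 32) (.e (nat_lit 376857) (nat_lit 21) (.e (nat_lit 57852) (nat_lit 252) (.e (nat_lit 57381) (nat_lit 4) .nil)))))) (.g (nat_lit 6) .nil .nil))) 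
(.lf (nat_lit 234712) (.g (nat_lit 3597) (.e (nat_lit 106536) (nat_lit 11) (.e (nat_lit 16461) (nat_lit 12) (.e (nat_lit 475214) (nat_lit 42) (.e (nat_lit 720956) (nat_lit 25) (.e (nat_lit 114712) (nat_lit 21) (.e (nat_lit 57692) (nat_lit 156) (.e (nat_lit 171776) (nat_lit 65) .nil))))))) (.g (nat_lit 6) .nil .nil)))) (.nd (nat_lit 6) 
(.lf (nat_lit 234680) (.g (nat_lit 2780) (.e (nat_lit 106536) (nat_lit 11) (.e (nat_lit 16438) (nat_lit 9) (.e (nat_lit 426538) (nat_lit 29) (.e (nat_lit 352309) (nat_lit 21) (.e (nat_lit 57848) (nat_lit 252) (.e (nat_lit 57385) (nat_lit 4) .nil)))))) (.g (nat_lit 5) .nil .nil))) 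
(.lf (nat_lit 234744) (.g (nat_lit 2692) (.e (nat_lit 106536) (nat_lit 11) (.e (nat_lit 16463) (nat_lit 13) (.e (nat_lit 483402) (nat_lit 26) (.e (nat_lit 385109) (nat_lit 51) (.e (nat_lit 802560) (nat_lit 4) .nil))))) (.g (nat_lit 4) .nil .nil))))))) (.nd (nat_lit 3) (.nd (nat_lit 4) (.nd (nat_lit 5) (.nd (nat_lit 6) 
(.lf (nat_lit 234628) (.g (nat_lit 2098) (.e (nat_lit 106536) (nat_lit 11) (.e (nat_lit 16436) (nat_lit 9) (.e (nat_lit 426504) (nat_lit 27) (.e (nat_lit 336076) (nat_lit 9) (.e (nat_lit 336336) (nat_lit 20) .nil))))) .nil)) 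
(.lf (nat_lit 234692) (.g (nat_lit 2466) (.e (nat_lit 106536) (nat_lit 11) (.e (nat_lit 16439) (nat_lit 9) (.e (nat_lit 426499) (nat_lit 27) (.e (nat_lit 336076) (nat_lit 9) (.e (nat_lit 336336) (nat_lit 20) .nil))))) .nil))) (.nd (nat_lit 6) 
(.lf (nat_lit 234660) (.g (nat_lit 2621) (.e (nat_lit 106536) (nat_lit 11) (.e (nat_lit 16437) (nat_lit 9) (.e (nat_lit 426543) (nat_lit 29) (.e (nat_lit 352309) (nat_lit 21) (.e (nat_lit 57848) (nat_lit 252) (.e (nat_lit 57385) (nat_lit 4) .nil)))))) (.g (nat_lit 5) .nil .nil))) 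
(.lf (nat_lit 234724) (.g (nat_lit 2046) (.e (nat_lit 106536) (nat_lit 11) (.e (nat_lit 16463) (nat_lit 13) (.e (nat_lit 483384) (nat_lit 23) (.e (nat_lit 336336) (nat_lit 20) (.e (nat_lit 229120) (nat_lit 4) .nil))))) (.g (nat_lit 4) .nil .nil))))) (.nd (nat_lit 5) (.nd (nat_lit 6) 
(.lf (nat_lit 234644) (.g (nat_lit 447) (.e (nat_lit 106536) (nat_lit 11) (.e (nat_lit 16436) (nat_lit 9) (.e (nat_lit 426555) (nat_lit 32) .nil))) .nil)) 
(.lf (nat_lit 234708) (.g (nat_lit 1578) (.e (nat_lit 106536) (nat_lit 11) (.e (nat_lit 16460) (nat_lit 12) (.e (nat_lit 475214) (nat_lit 42) (.e (nat_lit 720955) (nat_lit 25) .nil)))) .nil))) (.nd (nat_lit 6) 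
(.lf (nat_lit 234676) (.g (nat_lit 1406) (.e (nat_lit 106536) (nat_lit 11) (.e (nat_lit 16438) (nat_lit 9) (.e (nat_lit 426448) (nat_lit 20) (.e (nat_lit 122624) (nat_lit 1) .nil)))) .nil)) 
(.lf (nat_lit 234740) (.g (nat_lit 1177) (.e (nat_lit 106536) (nat_lit 11) (.e (nat_lit 16463) (nat_lit 13) (.e (nat_lit 483395) (nat_lit 24) (.e (nat_lit 344097) (nat_lit 18) .nil)))) .nil))))) (.nd (nat_lit 4) (.nd (nat_lit 5) (.nd (nat_lit 6) 
(.lf (nat_lit 234636) (.g (nat_lit 2333) (.e (nat_lit 106536) (nat_lit 11) (.e (nat_lit 16436) (nat_lit 9) (.e (nat_lit 426515) (nat_lit 27) (.e (nat_lit 336194) (nat_lit 12) (.e (nat_lit 385109) (nat_lit 51) .nil))))) .nil)) 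
(.lf (nat_lit 234700) (.g (nat_lit 1603) (.e (nat_lit 106536) (nat_lit 11) (.e (nat_lit 16458) (nat_lit 12) (.e (nat_lit 475214) (nat_lit 42) (.e (nat_lit 720954) (nat_lit 25) .nil)))) .nil))) (.nd (nat_lit 6) 
(.lf (nat_lit 234668) (.g (nat_lit 2612) (.e (nat_lit 106536) (nat_lit 11) (.e (nat_lit 16437) (nat_lit 9) (.e (nat_lit 426555) (nat_lit 32) (.e (nat_lit 376857) (nat_lit 21) (.e (nat_lit 57849) (nat_lit 252) (.e (nat_lit 57383) (nat_lit 4) .nil)))))) (.g (nat_lit 4) .nil .nil))) 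
(.lf (nat_lit 234732) (.g (nat_lit 1791) (.e (nat_lit 106536) (nat_lit 11) (.e (nat_lit 16463) (nat_lit 13) (.e (nat_lit 483392) (nat_lit 23) (.e (nat_lit 335986) (nat_lit 1) (.e (nat_lit 57847) (nat_lit 252) .nil))))) .nil)))) (.nd (nat_lit 5) (.nd (nat_lit 6) 
(.lf (nat_lit 234652) (.g (nat_lit 2884) (.e (nat_lit 106536) (nat_lit 11) (.e (nat_lit 16436) (nat_lit 9) (.e (nat_lit 426555) (nat_lit 32) (.e (nat_lit 376859) (nat_lit 21) (.e (nat_lit 57848) (nat_lit 252) (.e (nat_lit 57383) (nat_lit 4) .nil)))))) (.g (nat_lit 6) .nil .nil))) 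
(.lf (nat_lit 234716) (.g (nat_lit 2692) (.e (nat_lit 106536) (nat_lit 11) (.e (nat_lit 16462) (nat_lit 13) (.e (nat_lit 483406) (nat_lit 26) (.e (nat_lit 385109) (nat_lit 51) (.e (nat_lit 802560) (nat_lit 4) .nil))))) (.g (nat_lit 4) .nil .nil)))) (.nd (nat_lit 6) 
(.lf (nat_lit 234684) (.g (nat_lit 2487) (.e (nat_lit 106536) (nat_lit 11) (.e (nat_lit 16438) (nat_lit 9) (.e (nat_lit 426542) (nat_lit 29) (.e (nat_lit 352309) (nat_lit 21) (.e (nat_lit 57849) (nat_lit 252) (.e (nat_lit 57383) (nat_lit 4) .nil)))))) (.g (nat_lit 4) .nil .nil))) 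
(.lf (nat_lit 234748) (.g (nat_lit 2067) (.e (nat_lit 106536) (nat_lit 11) (.e (nat_lit 16463) (nat_lit 13) (.e (nat_lit 483405) (nat_lit 26) (.e (nat_lit 385107) (nat_lit 51) (.e (nat_lit 802560) (nat_lit 4) .nil))))) (.g (nat_lit 4) .nil .nil)))))))) (.nd (nat_lit 2) (.nd (nat_lit 3) (.nd (nat_lit 4) (.nd (nat_lit 5) (.nd (nat_lit 6) 
(.lf (nat_lit 234626) (.g (nat_lit 729) (.e (nat_lit 106536) (nat_lit 11) (.e (nat_lit 16436) (nat_lit 9) (.e (nat_lit 426504) (nat_lit 27) .nil))) .nil)) 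
(.lf (nat_lit 234690) (.g (nat_lit 2670) (.e (nat_lit 106536) (nat_lit 11) (.e (nat_lit 16438) (nat_lit 9) (.e (nat_lit 426555) (nat_lit 32) (.e (nat_lit 376859) (nat_lit 21) (.e (nat_lit 57844) (nat_lit 252) (.e (nat_lit 57382) (nat_lit 4) .nil)))))) (.g (nat_lit 4) .nil .nil)))) (.nd (nat_lit 6) 
(.lf (nat_lit 234658) (.g (nat_lit 2986) (.e (nat_lit 106536) (nat_lit 11) (.e (nat_lit 16436) (nat_lit 9) (.e (nat_lit 426555) (nat_lit 32) (.e (nat_lit 376860) (nat_lit 21) (.e (nat_lit 57853) (nat_lit 252) (.e (nat_lit 57382) (nat_lit 4) .nil)))))) (.g (nat_lit 5) .nil .nil))) 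
(.lf (nat_lit 234722) (.g (nat_lit 2079) (.e (nat_lit 106536) (nat_lit 11) (.e (nat_lit 16463) (nat_lit 13) (.e (nat_lit 483382) (nat_lit 23) (.e (nat_lit 336336) (nat_lit 20) (.e (nat_lit 229120) (nat_lit 4) .nil))))) (.g (nat_lit 4) .nil .nil))))) (.nd (nat_lit 5) (.nd (nat_lit 6) 
(.lf (nat_lit 234642) (.g (nat_lit 1362) (.e (nat_lit 106536) (nat_lit 11) (.e (nat_lit 16436) (nat_lit 9) (.e (nat_lit 426544) (nat_lit 30) (.e (nat_lit 360453) (nat_lit 0) .nil)))) .nil)) 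
(.lf (nat_lit 234706) (.g (nat_lit 3942) (.e (nat_lit 106536) (nat_lit 11) (.e (nat_lit 16459) (nat_lit 12) (.e (nat_lit 475214) (nat_lit 42) (.e (nat_lit 720955) (nat_lit 25) (.e (nat_lit 114712) (nat_lit 21) (.e (nat_lit 57692) (nat_lit 156) (.e (nat_lit 171776) (nat_lit 65) .nil))))))) (.g (nat_lit 6) .nil .nil)))) (.nd (nat_lit 6) 
(.lf (nat_lit 234674) (.g (nat_lit 2527) (.e (nat_lit 106536) (nat_lit 11) (.e (nat_lit 16437) (nat_lit 9) (.e (nat_lit 426555) (nat_lit 32) (.e (nat_lit 376859) (nat_lit 21) (.e (nat_lit 57849) (nat_lit 252) (.e (nat_lit 57383) (nat_lit 4) .nil)))))) (.g (nat_lit 4) .nil .nil))) 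
(.lf (nat_lit 234738) (.g (nat_lit 3043) (.e (nat_lit 106536) (nat_lit 11) (.e (nat_lit 16463) (nat_lit 13) (.e (nat_lit 483393) (nat_lit 23) (.e (nat_lit 335996) (nat_lit 1) (.e (nat_lit 57852) (nat_lit 252) (.e (nat_lit 57381) (nat_lit 4) .nil)))))) (.g (nat_lit 5) .nil .nil)))))) (.nd (nat_lit 4) (.nd (nat_lit 5) (.nd (nat_lit 6) 
(.lf (nat_lit 234634) (.g (nat_lit 1187) (.e (nat_lit 106536) (nat_lit 11) (.e (nat_lit 16436) (nat_lit 9) (.e (nat_lit 426515) (nat_lit 27) (.e (nat_lit 336075) (nat_lit 9) .nil)))) .nil)) 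
(.lf (nat_lit 234698) (.g (nat_lit 3810) (.e (nat_lit 106536) (nat_lit 11) (.e (nat_lit 16456) (nat_lit 12) (.e (nat_lit 475214) (nat_lit 42) (.e (nat_lit 720956) (nat_lit 25) (.e (nat_lit 114712) (nat_lit 21) (.e (nat_lit 57692) (nat_lit 156) (.e (nat_lit 171776) (nat_lit 65) .nil))))))) (.g (nat_lit 6) .nil .nil)))) (.nd (nat_lit 6) 
(.lf (nat_lit 234666) (.g (nat_lit 2459) (.e (nat_lit 106536) (nat_lit 11) (.e (nat_lit 16437) (nat_lit 9) (.e (nat_lit 426555) (nat_lit 32) (.e (nat_lit 376857) (nat_lit 21) (.e (nat_lit 57848) (nat_lit 252) (.e (nat_lit 57383) (nat_lit 4) .nil)))))) (.g (nat_lit 4) .nil .nil))) 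
(.lf (nat_lit 234730) (.g (nat_lit 819) (.e (nat_lit 106536) (nat_lit 11) (.e (nat_lit 16463) (nat_lit 13) (.e (nat_lit 483390) (nat_lit 23) .nil))) .nil)))) (.nd (nat_lit 5) (.nd (nat_lit 6) 
(.lf (nat_lit 234650) (.g (nat_lit 870) (.e (nat_lit 106536) (nat_lit 11) (.e (nat_lit 16436) (nat_lit 9) (.e (nat_lit 426555) (nat_lit 32) (.e (nat_lit 376859) (nat_lit 21) .nil)))) .nil)) 
(.lf (nat_lit 234714) (.g (nat_lit 275) (.e (nat_lit 106536) (nat_lit 11) (.e (nat_lit 16462) (nat_lit 13) (.e (nat_lit 483382) (nat_lit 23) .nil))) .nil))) (.nd (nat_lit 6) 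
(.lf (nat_lit 234682) (.g (nat_lit 2595) (.e (nat_lit 106536) (nat_lit 11) (.e (nat_lit 16438) (nat_lit 9) (.e (nat_lit 426542) (nat_lit 29) (.e (nat_lit 352307) (nat_lit 21) (.e (nat_lit 57849) (nat_lit 252) (.e (nat_lit 57383) (nat_lit 4) .nil)))))) (.g (nat_lit 4) .nil .nil))) 
(.lf (nat_lit 234746) (.g (nat_lit 1938) (.e (nat_lit 106536) (nat_lit 11) (.e (nat_lit 16463) (nat_lit 13) (.e (nat_lit 483404) (nat_lit 26) (.e (nat_lit 385107) (nat_lit 51) (.e (nat_lit 802560) (nat_lit 4) .nil))))) (.g (nat_lit 4) .nil .nil))))))) (.nd (nat_lit 3) (.nd (nat_lit 4) (.nd (nat_lit 5) (.nd (nat_lit 6) 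
(.lf (nat_lit 234630) (.g (nat_lit 2340) (.e (nat_lit 106536) (nat_lit 11) (.e (nat_lit 16436) (nat_lit 9) (.e (nat_lit 426506) (nat_lit 27) (.e (nat_lit 336089) (nat_lit 9) (.e (nat_lit 336336) (nat_lit 20) (.e (nat_lit 229120) (nat_lit 4) .nil)))))) (.g (nat_lit 5) .nil .nil))) 
(.lf (nat_lit 234694) (.g (nat_lit 610) (.e (nat_lit 106536) (nat_lit 11) (.e (nat_lit 16449) (nat_lit 10) (.e (nat_lit 434276) (nat_lit 39) .nil))) .nil))) (.nd (nat_lit 6) 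
(.lf (nat_lit 234662) (.g (nat_lit 1242) (.e (nat_lit 106536) (nat_lit 11) (.e (nat_lit 16437) (nat_lit 9) (.e (nat_lit 426546) (nat_lit 30) (.e (nat_lit 360452) (nat_lit 0) (.e (nat_lit 5194) (nat_lit 294) (.e (nat_lit 57385) (nat_lit 4) .nil)))))) (.g (nat_lit 4) .nil .nil))) 
(.lf (nat_lit 234726) (.g (nat_lit 2401) (.e (nat_lit 106536) (nat_lit 11) (.e (nat_lit 16463) (nat_lit 13) (.e (nat_lit 483385) (nat_lit 23) (.e (nat_lit 336334) (nat_lit 20) (.e (nat_lit 229120) (nat_lit 4) .nil))))) (.g (nat_lit 4) .nil .nil))))) (.nd (nat_lit 5) (.nd (nat_lit 6) 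
(.lf (nat_lit 234646) (.g (nat_lit 2647) (.e (nat_lit 106536) (nat_lit 11) (.e (nat_lit 16436) (nat_lit 9) (.e (nat_lit 426555) (nat_lit 32) (.e (nat_lit 376857) (nat_lit 21) (.e (nat_lit 57830) (nat_lit 250) (.e (nat_lit 1016) (nat_lit 81) (.e (nat_lit 7936) (nat_lit 93) .nil))))))) (.g (nat_lit 6) .nil .nil))) 
(.lf (nat_lit 234710) (.g (nat_lit 1557) (.e (nat_lit 106536) (nat_lit 11) (.e (nat_lit 16461) (nat_lit 12) (.e (nat_lit 475214) (nat_lit 42) (.e (nat_lit 720954) (nat_lit 25) .nil)))) .nil))) (.nd (nat_lit 6) 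
(.lf (nat_lit 234678) (.g (nat_lit 3288) (.e (nat_lit 106536) (nat_lit 11) (.e (nat_lit 16438) (nat_lit 9) (.e (nat_lit 426482) (nat_lit 27) (.e (nat_lit 336089) (nat_lit 9) (.e (nat_lit 336336) (nat_lit 20) (.e (nat_lit 229120) (nat_lit 4) .nil)))))) (.g (nat_lit 5) .nil .nil))) 
(.lf (nat_lit 234742) (.g (nat_lit 1187) (.e (nat_lit 106536) (nat_lit 11) (.e (nat_lit 16463) (nat_lit 13) (.e (nat_lit 483395) (nat_lit 24) (.e (nat_lit 344156) (nat_lit 36) .nil)))) .nil))))) (.nd (nat_lit 4) (.nd (nat_lit 5) (.nd (nat_lit 6) 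
(.lf (nat_lit 234638) (.g (nat_lit 761) (.e (nat_lit 106536) (nat_lit 11) (.e (nat_lit 16436) (nat_lit 9) (.e (nat_lit 426530) (nat_lit 27) .nil))) .nil)) 
(.lf (nat_lit 234702) (.g (nat_lit 3563) (.e (nat_lit 106536) (nat_lit 11) (.e (nat_lit 16458) (nat_lit 12) (.e (nat_lit 475214) (nat_lit 42) (.e (nat_lit 720956) (nat_lit 25) (.e (nat_lit 114712) (nat_lit 21) (.e (nat_lit 57692) (nat_lit 156) (.e (nat_lit 171776) (nat_lit 65) .nil))))))) (.g (nat_lit 6) .nil .nil)))) (.nd (nat_lit 6) 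
(.lf (nat_lit 234670) (.g (nat_lit 2584) (.e (nat_lit 106536) (nat_lit 11) (.e (nat_lit 16437) (nat_lit 9) (.e (nat_lit 426555) (nat_lit 32) (.e (nat_lit 376859) (nat_lit 21) (.e (nat_lit 57844) (nat_lit 252) (.e (nat_lit 57382) (nat_lit 4) .nil)))))) (.g (nat_lit 4) .nil .nil))) 
(.lf (nat_lit 234734) (.g (nat_lit 386) (.e (nat_lit 106536) (nat_lit 11) (.e (nat_lit 16463) (nat_lit 13) (.e (nat_lit 483393) (nat_lit 23) .nil))) .nil)))) (.nd (nat_lit 5) (.nd (nat_lit 6) 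
(.lf (nat_lit 234654) (.g (nat_lit 2743) (.e (nat_lit 106536) (nat_lit 11) (.e (nat_lit 16436) (nat_lit 9) (.e (nat_lit 426555) (nat_lit 32) (.e (nat_lit 376860) (nat_lit 21) (.e (nat_lit 57844) (nat_lit 252) (.e (nat_lit 57382) (nat_lit 4) .nil)))))) (.g (nat_lit 4) .nil .nil))) 
(.lf (nat_lit 234718) (.g (nat_lit 1551) (.e (nat_lit 106536) (nat_lit 11) (.e (nat_lit 16463) (nat_lit 13) (.e (nat_lit 483379) (nat_lit 23) (.e (nat_lit 336336) (nat_lit 20) (.e (nat_lit 229120) (nat_lit 4) .nil))))) .nil))) (.nd (nat_lit 6) 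
(.lf (nat_lit 234686) (.g (nat_lit 1587) (.e (nat_lit 106536) (nat_lit 11) (.e (nat_lit 16438) (nat_lit 9) (.e (nat_lit 426546) (nat_lit 30) (.e (nat_lit 360452) (nat_lit 0) (.e (nat_lit 5194) (nat_lit 294) (.e (nat_lit 57385) (nat_lit 4) .nil)))))) (.g (nat_lit 4) .nil .nil))) 
(.lf (nat_lit 234750) (.g (nat_lit 2144) (.e (nat_lit 106536) (nat_lit 11) (.e (nat_lit 16463) (nat_lit 13) (.e (nat_lit 483407) (nat_lit 26) (.e (nat_lit 385109) (nat_lit 51) (.e (nat_lit 802560) (nat_lit 4) .nil))))) (.g (nat_lit 4) .nil .nil))))))))) (.nd (nat_lit 1) (.nd (nat_lit 2) (.nd (nat_lit 3) (.nd (nat_lit 4) (.nd (nat_lit 5) (.nd (nat_lit 6) 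
(.lf (nat_lit 234625) (.g (nat_lit 2333) (.e (nat_lit 106536) (nat_lit 11) (.e (nat_lit 16436) (nat_lit 9) (.e (nat_lit 426502) (nat_lit 27) (.e (nat_lit 336194) (nat_lit 12) (.e (nat_lit 385109) (nat_lit 51) .nil))))) .nil)) 
(.lf (nat_lit 234689) (.g (nat_lit 1028) (.e (nat_lit 106536) (nat_lit 11) (.e (nat_lit 16438) (nat_lit 9) (.e (nat_lit 426555) (nat_lit 32) (.e (nat_lit 376859) (nat_lit 21) .nil)))) .nil))) (.nd (nat_lit 6) 
(.lf (nat_lit 234657) (.g (nat_lit 3314) (.e (nat_lit 106536) (nat_lit 11) (.e (nat_lit 16436) (nat_lit 9) (.e (nat_lit 426555) (nat_lit 32) (.e (nat_lit 376860) (nat_lit 21) (.e (nat_lit 57852) (nat_lit 252) (.e (nat_lit 57381) (nat_lit 4) .nil)))))) (.g (nat_lit 6) .nil .nil))) 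
(.lf (nat_lit 234721) (.g (nat_lit 1946) (.e (nat_lit 106536) (nat_lit 11) (.e (nat_lit 16463) (nat_lit 13) (.e (nat_lit 483382) (nat_lit 23) (.e (nat_lit 336334) (nat_lit 20) (.e (nat_lit 229120) (nat_lit 4) .nil))))) (.g (nat_lit 4) .nil .nil))))) (.nd (nat_lit 5) (.nd (nat_lit 6) 
(.lf (nat_lit 234641) (.g (nat_lit 667) (.e (nat_lit 106536) (nat_lit 11) (.e (nat_lit 16436) (nat_lit 9) (.e (nat_lit 426544) (nat_lit 30) .nil))) .nil)) 
(.lf (nat_lit 234705) (.g (nat_lit 2255) (.e (nat_lit 106536) (nat_lit 11) (.e (nat_lit 16459) (nat_lit 12) (.e (nat_lit 475214) (nat_lit 42) (.e (nat_lit 720955) (nat_lit 25) (.e (nat_lit 114712) (nat_lit 21) .nil))))) .nil))) (.nd (nat_lit 6) 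
(.lf (nat_lit 234673) (.g (nat_lit 2537) (.e (nat_lit 106536) (nat_lit 11) (.e (nat_lit 16437) (nat_lit 9) (.e (nat_lit 426555) (nat_lit 32) (.e (nat_lit 376859) (nat_lit 21) (.e (nat_lit 57848) (nat_lit 252) (.e (nat_lit 57385) (nat_lit 4) .nil)))))) (.g (nat_lit 5) .nil .nil))) 
(.lf (nat_lit 234737) (.g (nat_lit 1052) (.e (nat_lit 106536) (nat_lit 11) (.e (nat_lit 16463) (nat_lit 13) (.e (nat_lit 483393) (nat_lit 23) (.e (nat_lit 335993) (nat_lit 1) (.e (nat_lit 57847) (nat_lit 252) .nil))))) .nil))))) (.nd (nat_lit 4) (.nd (nat_lit 5) (.nd (nat_lit 6) 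
(.lf (nat_lit 234633) (.g (nat_lit 2169) (.e (nat_lit 106536) (nat_lit 11) (.e (nat_lit 16436) (nat_lit 9) (.e (nat_lit 426512) (nat_lit 27) (.e (nat_lit 336194) (nat_lit 12) (.e (nat_lit 385109) (nat_lit 51) .nil))))) .nil)) 
(.lf (nat_lit 234697) (.g (nat_lit 4002) (.e (nat_lit 106536) (nat_lit 11) (.e (nat_lit 16456) (nat_lit 12) (.e (nat_lit 475214) (nat_lit 42) (.e (nat_lit 720955) (nat_lit 25) (.e (nat_lit 114712) (nat_lit 21) (.e (nat_lit 57692) (nat_lit 156) (.e (nat_lit 171776) (nat_lit 65) .nil))))))) (.g (nat_lit 6) .nil .nil)))) (.nd (nat_lit 6) 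
(.lf (nat_lit 234665) (.g (nat_lit 2477) (.e (nat_lit 106536) (nat_lit 11) (.e (nat_lit 16437) (nat_lit 9) (.e (nat_lit 426555) (nat_lit 32) (.e (nat_lit 376857) (nat_lit 21) (.e (nat_lit 57847) (nat_lit 252) (.e (nat_lit 57383) (nat_lit 4) .nil)))))) (.g (nat_lit 4) .nil .nil))) 
(.lf (nat_lit 234729) (.g (nat_lit 1469) (.e (nat_lit 106536) (nat_lit 11) (.e (nat_lit 16463) (nat_lit 13) (.e (nat_lit 483387) (nat_lit 23) (.e (nat_lit 335997) (nat_lit 1) (.e (nat_lit 57848) (nat_lit 252) .nil))))) .nil)))) (.nd (nat_lit 5) (.nd (nat_lit 6) 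
(.lf (nat_lit 234649) (.g (nat_lit 2410) (.e (nat_lit 106536) (nat_lit 11) (.e (nat_lit 16436) (nat_lit 9) (.e (nat_lit 426555) (nat_lit 32) (.e (nat_lit 376857) (nat_lit 21) (.e (nat_lit 57854) (nat_lit 252) (.e (nat_lit 65280) (nat_lit 4) .nil)))))) (.g (nat_lit 5) .nil .nil))) 
(.lf (nat_lit 234713) (.g (nat_lit 2653) (.e (nat_lit 106536) (nat_lit 11) (.e (nat_lit 16462) (nat_lit 13) (.e (nat_lit 483380) (nat_lit 23) (.e (nat_lit 336336) (nat_lit 20) (.e (nat_lit 229120) (nat_lit 4) .nil))))) .nil))) (.nd (nat_lit 6) 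
(.lf (nat_lit 234681) (.g (nat_lit 2632) (.e (nat_lit 106536) (nat_lit 11) (.e (nat_lit 16438) (nat_lit 9) (.e (nat_lit 426542) (nat_lit 29) (.e (nat_lit 352307) (nat_lit 21) (.e (nat_lit 57849) (nat_lit 252) (.e (nat_lit 57381) (nat_lit 4) .nil)))))) (.g (nat_lit 4) .nil .nil))) 
(.lf (nat_lit 234745) (.g (nat_lit 2494) (.e (nat_lit 106536) (nat_lit 11) (.e (nat_lit 16463) (nat_lit 13) (.e (nat_lit 483403) (nat_lit 26) (.e (nat_lit 385109) (nat_lit 51) (.e (nat_lit 802560) (nat_lit 4) .nil))))) (.g (nat_lit 4) .nil .nil))))))) (.nd (nat_lit 3) (.nd (nat_lit 4) (.nd (nat_lit 5) (.nd (nat_lit 6) 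
(.lf (nat_lit 234629) (.g (nat_lit 1354) (.e (nat_lit 106536) (nat_lit 11) (.e (nat_lit 16436) (nat_lit 9) (.e (nat_lit 426505) (nat_lit 27) (.e (nat_lit 336088) (nat_lit 9) .nil)))) .nil)) 
(.lf (nat_lit 234693) (.g (nat_lit 2462) (.e (nat_lit 106536) (nat_lit 11) (.e (nat_lit 16439) (nat_lit 9) (.e (nat_lit 426499) (nat_lit 27) (.e (nat_lit 336194) (nat_lit 12) (.e (nat_lit 385109) (nat_lit 51) .nil))))) .nil))) (.nd (nat_lit 6) 
(.lf (nat_lit 234661) (.g (nat_lit 1964) (.e (nat_lit 106536) (nat_lit 11) (.e (nat_lit 16437) (nat_lit 9) (.e (nat_lit 426544) (nat_lit 30) (.e (nat_lit 360453) (nat_lit 0) (.e (nat_lit 5195) (nat_lit 294) (.e (nat_lit 57383) (nat_lit 4) .nil)))))) (.g (nat_lit 4) .nil .nil))) 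
(.lf (nat_lit 234725) (.g (nat_lit 475) (.e (nat_lit 106536) (nat_lit 11) (.e (nat_lit 16463) (nat_lit 13) (.e (nat_lit 483385) (nat_lit 23) .nil))) .nil)))) (.nd (nat_lit 5) (.nd (nat_lit 6) 
(.lf (nat_lit 234645) (.g (nat_lit 936) (.e (nat_lit 106536) (nat_lit 11) (.e (nat_lit 16436) (nat_lit 9) (.e (nat_lit 426555) (nat_lit 32) (.e (nat_lit 376857) (nat_lit 21) .nil)))) .nil)) 
(.lf (nat_lit 234709) (.g (nat_lit 182) (.e (nat_lit 106536) (nat_lit 11) (.e (nat_lit 16461) (nat_lit 12) (.e (nat_lit 483072) (nat_lit 15) .nil))) .nil))) (.nd (nat_lit 6) 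
(.lf (nat_lit 234677) (.g (nat_lit 572) (.e (nat_lit 106536) (nat_lit 11) (.e (nat_lit 16438) (nat_lit 9) (.e (nat_lit 426482) (nat_lit 27) .nil))) .nil)) 
(.lf (nat_lit 234741) (.g (nat_lit 1784) (.e (nat_lit 106536) (nat_lit 11) (.e (nat_lit 16463) (nat_lit 13) (.e (nat_lit 483395) (nat_lit 24) (.e (nat_lit 344097) (nat_lit 18) (.e (nat_lit 5195) (nat_lit 294) .nil))))) .nil))))) (.nd (nat_lit 4) (.nd (nat_lit 5) (.nd (nat_lit 6) 
(.lf (nat_lit 234637) (.g (nat_lit 1089) (.e (nat_lit 106536) (nat_lit 11) (.e (nat_lit 16436) (nat_lit 9) (.e (nat_lit 426516) (nat_lit 27) (.e (nat_lit 336088) (nat_lit 9) .nil)))) .nil)) 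
(.lf (nat_lit 234701) (.g (nat_lit 3500) (.e (nat_lit 106536) (nat_lit 11) (.e (nat_lit 16458) (nat_lit 12) (.e (nat_lit 475214) (nat_lit 42) (.e (nat_lit 720955) (nat_lit 25) (.e (nat_lit 114712) (nat_lit 21) (.e (nat_lit 57692) (nat_lit 156) (.e (nat_lit 171776) (nat_lit 65) .nil))))))) (.g (nat_lit 6) .nil .nil)))) (.nd (nat_lit 6) 
(.lf (nat_lit 234669) (.g (nat_lit 3179) (.e (nat_lit 106536) (nat_lit 11) (.e (nat_lit 16437) (nat_lit 9) (.e (nat_lit 426555) (nat_lit 32) (.e (nat_lit 376857) (nat_lit 21) (.e (nat_lit 57854) (nat_lit 252) (.e (nat_lit 57384) (nat_lit 4) .nil)))))) (.g (nat_lit 6) .nil .nil))) 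
(.lf (nat_lit 234733) (.g (nat_lit 1023) (.e (nat_lit 106536) (nat_lit 11) (.e (nat_lit 16463) (nat_lit 13) (.e (nat_lit 483392) (nat_lit 23) (.e (nat_lit 335988) (nat_lit 1) .nil)))) .nil)))) (.nd (nat_lit 5) (.nd (nat_lit 6) 
(.lf (nat_lit 234653) (.g (nat_lit 1000) (.e (nat_lit 106536) (nat_lit 11) (.e (nat_lit 16436) (nat_lit 9) (.e (nat_lit 426555) (nat_lit 32) (.e (nat_lit 376860) (nat_lit 21) .nil)))) .nil)) 
(.lf (nat_lit 234717) (.g (nat_lit 1542) (.e (nat_lit 106536) (nat_lit 11) (.e (nat_lit 16463) (nat_lit 13) (.e (nat_lit 483378) (nat_lit 23) (.e (nat_lit 335997) (nat_lit 1) (.e (nat_lit 57848) (nat_lit 252) .nil))))) .nil))) (.nd (nat_lit 6) 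
(.lf (nat_lit 234685) (.g (nat_lit 392) (.e (nat_lit 106536) (nat_lit 11) (.e (nat_lit 16438) (nat_lit 9) (.e (nat_lit 426546) (nat_lit 30) .nil))) .nil)) 
(.lf (nat_lit 234749) (.g (nat_lit 2135) (.e (nat_lit 106536) (nat_lit 11) (.e (nat_lit 16463) (nat_lit 13) (.e (nat_lit 483405) (nat_lit 26) (.e (nat_lit 385109) (nat_lit 51) (.e (nat_lit 802560) (nat_lit 4) .nil))))) (.g (nat_lit 4) .nil .nil)))))))) (.nd (nat_lit 2) (.nd (nat_lit 3) (.nd (nat_lit 4) (.nd (nat_lit 5) (.nd (nat_lit 6) 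
(.lf (nat_lit 234627) (.g (nat_lit 1548) (.e (nat_lit 106536) (nat_lit 11) (.e (nat_lit 16436) (nat_lit 9) (.e (nat_lit 426504) (nat_lit 27) (.e (nat_lit 336075) (nat_lit 9) (.e (nat_lit 336336) (nat_lit 20) .nil))))) .nil)) 
(.lf (nat_lit 234691) (.g (nat_lit 614) (.e (nat_lit 106536) (nat_lit 11) (.e (nat_lit 16438) (nat_lit 9) (.e (nat_lit 426556) (nat_lit 32) .nil))) .nil))) (.nd (nat_lit 6) 
(.lf (nat_lit 234659) (.g (nat_lit 2384) (.e (nat_lit 106536) (nat_lit 11) (.e (nat_lit 16436) (nat_lit 9) (.e (nat_lit 426555) (nat_lit 32) (.e (nat_lit 376860) (nat_lit 21) (.e (nat_lit 57854) (nat_lit 252) (.e (nat_lit 65280) (nat_lit 4) .nil)))))) (.g (nat_lit 5) .nil .nil))) 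
(.lf (nat_lit 234723) (.g (nat_lit 1720) (.e (nat_lit 106536) (nat_lit 11) (.e (nat_lit 16463) (nat_lit 13) (.e (nat_lit 483383) (nat_lit 23) (.e (nat_lit 336336) (nat_lit 20) (.e (nat_lit 229120) (nat_lit 4) .nil))))) .nil)))) (.nd (nat_lit 5) (.nd (nat_lit 6) 
(.lf (nat_lit 234643) (.g (nat_lit 733) (.e (nat_lit 106536) (nat_lit 11) (.e (nat_lit 16436) (nat_lit 9) (.e (nat_lit 426546) (nat_lit 30) .nil))) .nil)) 
(.lf (nat_lit 234707) (.g (nat_lit 3628) (.e (nat_lit 106536) (nat_lit 11) (.e (nat_lit 16459) (nat_lit 12) (.e (nat_lit 475214) (nat_lit 42) (.e (nat_lit 720956) (nat_lit 25) (.e (nat_lit 114712) (nat_lit 21) (.e (nat_lit 57692) (nat_lit 156) (.e (nat_lit 171776) (nat_lit 65) .nil))))))) (.g (nat_lit 6) .nil .nil)))) (.nd (nat_lit 6) 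
(.lf (nat_lit 234675) (.g (nat_lit 3273) (.e (nat_lit 106536) (nat_lit 11) (.e (nat_lit 16437) (nat_lit 9) (.e (nat_lit 426555) (nat_lit 32) (.e (nat_lit 376860) (nat_lit 21) (.e (nat_lit 57854) (nat_lit 252) (.e (nat_lit 57384) (nat_lit 4) .nil)))))) (.g (nat_lit 6) .nil .nil))) 
(.lf (nat_lit 234739) (.g (nat_lit 819) (.e (nat_lit 106536) (nat_lit 11) (.e (nat_lit 16463) (nat_lit 13) (.e (nat_lit 483394) (nat_lit 24) .nil))) .nil))))) (.nd (nat_lit 4) (.nd (nat_lit 5) (.nd (nat_lit 6) 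
(.lf (nat_lit 234635) (.g (nat_lit 2349) (.e (nat_lit 106536) (nat_lit 11) (.e (nat_lit 16436) (nat_lit 9) (.e (nat_lit 426515) (nat_lit 27) (.e (nat_lit 336076) (nat_lit 9) (.e (nat_lit 336336) (nat_lit 20) .nil))))) .nil)) 
(.lf (nat_lit 234699) (.g (nat_lit 1660) (.e (nat_lit 106536) (nat_lit 11) (.e (nat_lit 16457) (nat_lit 12) (.e (nat_lit 475214) (nat_lit 42) (.e (nat_lit 720955) (nat_lit 25) .nil)))) .nil))) (.nd (nat_lit 6) 
(.lf (nat_lit 234667) (.g (nat_lit 2678) (.e (nat_lit 106536) (nat_lit 11) (.e (nat_lit 16437) (nat_lit 9) (.e (nat_lit 426555) (nat_lit 32) (.e (nat_lit 376857) (nat_lit 21) (.e (nat_lit 57848) (nat_lit 252) (.e (nat_lit 57385) (nat_lit 4) .nil)))))) (.g (nat_lit 5) .nil .nil))) 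
(.lf (nat_lit 234731) (.g (nat_lit 819) (.e (nat_lit 106536) (nat_lit 11) (.e (nat_lit 16463) (nat_lit 13) (.e (nat_lit 483392) (nat_lit 23) .nil))) .nil)))) (.nd (nat_lit 5) (.nd (nat_lit 6) 
(.lf (nat_lit 234651) (.g (nat_lit 2467) (.e (nat_lit 106536) (nat_lit 11) (.e (nat_lit 16436) (nat_lit 9) (.e (nat_lit 426555) (nat_lit 32) (.e (nat_lit 376859) (nat_lit 21) (.e (nat_lit 57844) (nat_lit 252) (.e (nat_lit 57381) (nat_lit 4) .nil)))))) (.g (nat_lit 5) .nil .nil))) 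
(.lf (nat_lit 234715) (.g (nat_lit 2828) (.e (nat_lit 106536) (nat_lit 11) (.e (nat_lit 16462) (nat_lit 13) (.e (nat_lit 483383) (nat_lit 23) (.e (nat_lit 336336) (nat_lit 20) (.e (nat_lit 229120) (nat_lit 4) .nil))))) (.g (nat_lit 4) .nil .nil)))) (.nd (nat_lit 6) 
(.lf (nat_lit 234683) (.g (nat_lit 1025) (.e (nat_lit 106536) (nat_lit 11) (.e (nat_lit 16438) (nat_lit 9) (.e (nat_lit 426542) (nat_lit 29) (.e (nat_lit 352309) (nat_lit 21) .nil)))) .nil)) 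
(.lf (nat_lit 234747) (.g (nat_lit 2130) (.e (nat_lit 106536) (nat_lit 11) (.e (nat_lit 16463) (nat_lit 13) (.e (nat_lit 483404) (nat_lit 26) (.e (nat_lit 385109) (nat_lit 51) (.e (nat_lit 802560) (nat_lit 4) .nil))))) (.g (nat_lit 4) .nil .nil))))))) (.nd (nat_lit 3) (.nd (nat_lit 4) (.nd (nat_lit 5) (.nd (nat_lit 6) 
(.lf (nat_lit 234631) (.g (nat_lit 755) (.e (nat_lit 106536) (nat_lit 11) (.e (nat_lit 16436) (nat_lit 9) (.e (nat_lit 426507) (nat_lit 27) .nil))) .nil)) 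
(.lf (nat_lit 234695) (.g (nat_lit 2267) (.e (nat_lit 106536) (nat_lit 11) (.e (nat_lit 16456) (nat_lit 12) (.e (nat_lit 475214) (nat_lit 42) (.e (nat_lit 720954) (nat_lit 25) (.e (nat_lit 114710) (nat_lit 21) .nil))))) .nil))) (.nd (nat_lit 6) 
(.lf (nat_lit 234663) (.g (nat_lit 1427) (.e (nat_lit 106536) (nat_lit 11) (.e (nat_lit 16437) (nat_lit 9) (.e (nat_lit 426546) (nat_lit 30) (.e (nat_lit 360452) (nat_lit 0) (.e (nat_lit 5194) (nat_lit 294) (.e (nat_lit 57386) (nat_lit 4) .nil)))))) (.g (nat_lit 4) .nil .nil))) 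
(.lf (nat_lit 234727) (.g (nat_lit 2862) (.e (nat_lit 106536) (nat_lit 11) (.e (nat_lit 16463) (nat_lit 13) (.e (nat_lit 483385) (nat_lit 23) (.e (nat_lit 336336) (nat_lit 20) (.e (nat_lit 229120) (nat_lit 4) .nil))))) (.g (nat_lit 4) .nil .nil))))) (.nd (nat_lit 5) (.nd (nat_lit 6) 
(.lf (nat_lit 234647) (.g (nat_lit 2267) (.e (nat_lit 106536) (nat_lit 11) (.e (nat_lit 16436) (nat_lit 9) (.e (nat_lit 426555) (nat_lit 32) (.e (nat_lit 376857) (nat_lit 21) (.e (nat_lit 57848) (nat_lit 252) (.e (nat_lit 57381) (nat_lit 4) .nil)))))) (.g (nat_lit 4) .nil .nil))) 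
(.lf (nat_lit 234711) (.g (nat_lit 1907) (.e (nat_lit 106536) (nat_lit 11) (.e (nat_lit 16461) (nat_lit 12) (.e (nat_lit 475214) (nat_lit 42) (.e (nat_lit 720955) (nat_lit 25) (.e (nat_lit 114712) (nat_lit 21) .nil))))) .nil))) (.nd (nat_lit 6) 
(.lf (nat_lit 234679) (.g (nat_lit 664) (.e (nat_lit 106536) (nat_lit 11) (.e (nat_lit 16438) (nat_lit 9) (.e (nat_lit 426530) (nat_lit 27) .nil))) .nil)) 
(.lf (nat_lit 234743) (.g (nat_lit 2807) (.e (nat_lit 106536) (nat_lit 11) (.e (nat_lit 16463) (nat_lit 13) (.e (nat_lit 483402) (nat_lit 26) (.e (nat_lit 385107) (nat_lit 51) (.e (nat_lit 802560) (nat_lit 4) .nil))))) (.g (nat_lit 4) .nil .nil)))))) (.nd (nat_lit 4) (.nd (nat_lit 5) (.nd (nat_lit 6) 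
(.lf (nat_lit 234639) (.g (nat_lit 623) (.e (nat_lit 106536) (nat_lit 11) (.e (nat_lit 16436) (nat_lit 9) (.e (nat_lit 426543) (nat_lit 29) .nil))) .nil)) 
(.lf (nat_lit 234703) (.g (nat_lit 497) (.e (nat_lit 106536) (nat_lit 11) (.e (nat_lit 16459) (nat_lit 12) (.e (nat_lit 475142) (nat_lit 8) .nil))) .nil))) (.nd (nat_lit 6) 
(.lf (nat_lit 234671) (.g (nat_lit 2283) (.e (nat_lit 106536) (nat_lit 11) (.e (nat_lit 16437) (nat_lit 9) (.e (nat_lit 426555) (nat_lit 32) (.e (nat_lit 376859) (nat_lit 21) (.e (nat_lit 57847) (nat_lit 252) (.e (nat_lit 57383) (nat_lit 4) .nil)))))) (.g (nat_lit 4) .nil .nil))) 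
(.lf (nat_lit 234735) (.g (nat_lit 2244) (.e (nat_lit 106536) (nat_lit 11) (.e (nat_lit 16463) (nat_lit 13) (.e (nat_lit 483393) (nat_lit 23) (.e (nat_lit 335986) (nat_lit 1) (.e (nat_lit 57847) (nat_lit 252) (.e (nat_lit 57383) (nat_lit 4) .nil)))))) (.g (nat_lit 4) .nil .nil))))) (.nd (nat_lit 5) (.nd (nat_lit 6) 
(.lf (nat_lit 234655) (.g (nat_lit 1710) (.e (nat_lit 106536) (nat_lit 11) (.e (nat_lit 16436) (nat_lit 9) (.e (nat_lit 426555) (nat_lit 32) (.e (nat_lit 376860) (nat_lit 21) (.e (nat_lit 57851) (nat_lit 252) .nil))))) .nil)) 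
(.lf (nat_lit 234719) (.g (nat_lit 2664) (.e (nat_lit 106536) (nat_lit 11) (.e (nat_lit 16463) (nat_lit 13) (.e (nat_lit 483380) (nat_lit 23) (.e (nat_lit 336336) (nat_lit 20) (.e (nat_lit 229120) (nat_lit 4) .nil))))) (.g (nat_lit 4) .nil .nil)))) (.nd (nat_lit 6) 
(.lf (nat_lit 234687) (.g (nat_lit 1538) (.e (nat_lit 106536) (nat_lit 11) (.e (nat_lit 16438) (nat_lit 9) (.e (nat_lit 426555) (nat_lit 32) (.e (nat_lit 376856) (nat_lit 21) .nil)))) .nil)) 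
(.lf (nat_lit 234751) (.g (nat_lit 429) (.e (nat_lit 106536) (nat_lit 11) (.e (nat_lit 16463) (nat_lit 13) (.e (nat_lit 483408) (nat_lit 26) .nil))) .nil)))))))))

noncomputable def tv3066 : DT := (.nd (nat_lit 0) (.nd (nat_lit 1) (.nd (nat_lit 2) (.nd (nat_lit 3) (.nd (nat_lit 4) (.nd (nat_lit 5) (.nd (nat_lit 6) 
(.lf (nat_lit 234752) (.g (nat_lit 1581) (.e (nat_lit 106536) (nat_lit 11) (.e (nat_lit 16463) (nat_lit 13) (.e (nat_lit 483408) (nat_lit 26) (.e (nat_lit 385100) (nat_lit 49) .nil)))) .nil)) 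
(.lf (nat_lit 234816) (.g (nat_lit 2475) (.e (nat_lit 106536) (nat_lit 11) (.e (nat_lit 16466) (nat_lit 13) (.e (nat_lit 483393) (nat_lit 23) (.e (nat_lit 335988) (nat_lit 1) (.e (nat_lit 57852) (nat_lit 252) (.e (nat_lit 65280) (nat_lit 4) .nil)))))) (.g (nat_lit 5) .nil .nil)))) (.nd (nat_lit 6) 
(.lf (nat_lit 234784) (.g (nat_lit 1177) (.e (nat_lit 106536) (nat_lit 11) (.e (nat_lit 16465) (nat_lit 13) (.e (nat_lit 483404) (nat_lit 26) (.e (nat_lit 385109) (nat_lit 51) .nil)))) .nil)) 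
(.lf (nat_lit 234848) (.g (nat_lit 1418) (.e (nat_lit 106536) (nat_lit 11) (.e (nat_lit 16467) (nat_lit 13) (.e (nat_lit 483394) (nat_lit 24) (.e (nat_lit 344097) (nat_lit 18) (.e (nat_lit 5194) (nat_lit 294) .nil))))) .nil)))) (.nd (nat_lit 5) (.nd (nat_lit 6) 
(.lf (nat_lit 234768) (.g (nat_lit 954) (.e (nat_lit 106536) (nat_lit 11) (.e (nat_lit 16465) (nat_lit 13) (.e (nat_lit 483379) (nat_lit 23) .nil))) .nil)) 
(.lf (nat_lit 234832) (.g (nat_lit 1650) (.e (nat_lit 106536) (nat_lit 11) (.e (nat_lit 16466) (nat_lit 13) (.e (nat_lit 483407) (nat_lit 26) (.e (nat_lit 385107) (nat_lit 51) (.e (nat_lit 802560) (nat_lit 4) .nil))))) .nil))) (.nd (nat_lit 6) 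
(.lf (nat_lit 234800) (.g (nat_lit 2051) (.e (nat_lit 106536) (nat_lit 11) (.e (nat_lit 16466) (nat_lit 13) (.e (nat_lit 483384) (nat_lit 23) (.e (nat_lit 336336) (nat_lit 20) (.e (nat_lit 229120) (nat_lit 4) .nil))))) (.g (nat_lit 4) .nil .nil))) 
(.lf (nat_lit 234864) (.g (nat_lit 2357) (.e (nat_lit 106536) (nat_lit 11) (.e (nat_lit 16468) (nat_lit 13) (.e (nat_lit 483383) (nat_lit 23) (.e (nat_lit 336000) (nat_lit 1) (.e (nat_lit 57848) (nat_lit 252) (.e (nat_lit 57385) (nat_lit 4) .nil)))))) (.g (nat_lit 5) .nil .nil)))))) (.nd (nat_lit 4) (.nd (nat_lit 5) (.nd (nat_lit 6) 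
(.lf (nat_lit 234760) (.g (nat_lit 2390) (.e (nat_lit 106536) (nat_lit 11) (.e (nat_lit 16464) (nat_lit 13) (.e (nat_lit 483383) (nat_lit 23) (.e (nat_lit 336336) (nat_lit 20) (.e (nat_lit 229120) (nat_lit 4) .nil))))) (.g (nat_lit 4) .nil .nil))) 
(.lf (nat_lit 234824) (.g (nat_lit 1190) (.e (nat_lit 106536) (nat_lit 11) (.e (nat_lit 16466) (nat_lit 13) (.e (nat_lit 483401) (nat_lit 25) (.e (nat_lit 368662) (nat_lit 18) .nil)))) .nil))) (.nd (nat_lit 6) 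
(.lf (nat_lit 234792) (.g (nat_lit 2353) (.e (nat_lit 106536) (nat_lit 11) (.e (nat_lit 16466) (nat_lit 13) (.e (nat_lit 483379) (nat_lit 23) (.e (nat_lit 336336) (nat_lit 20) (.e (nat_lit 229120) (nat_lit 4) .nil))))) (.g (nat_lit 4) .nil .nil))) 
(.lf (nat_lit 234856) (.g (nat_lit 1092) (.e (nat_lit 106536) (nat_lit 11) (.e (nat_lit 16467) (nat_lit 13) (.e (nat_lit 483404) (nat_lit 26) (.e (nat_lit 385109) (nat_lit 51) (.e (nat_lit 802560) (nat_lit 4) .nil))))) .nil)))) (.nd (nat_lit 5) (.nd (nat_lit 6) 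
(.lf (nat_lit 234776) (.g (nat_lit 742) (.e (nat_lit 106536) (nat_lit 11) (.e (nat_lit 16465) (nat_lit 13) (.e (nat_lit 483386) (nat_lit 23) .nil))) .nil)) 
(.lf (nat_lit 234840) (.g (nat_lit 2383) (.e (nat_lit 106536) (nat_lit 11) (.e (nat_lit 16467) (nat_lit 13) (.e (nat_lit 483380) (nat_lit 23) (.e (nat_lit 336336) (nat_lit 20) (.e (nat_lit 229120) (nat_lit 4) .nil))))) (.g (nat_lit 4) .nil .nil)))) (.nd (nat_lit 6) 
(.lf (nat_lit 234808) (.g (nat_lit 2779) (.e (nat_lit 106536) (nat_lit 11) (.e (nat_lit 16466) (nat_lit 13) (.e (nat_lit 483393) (nat_lit 23) (.e (nat_lit 335986) (nat_lit 1) (.e (nat_lit 57847) (nat_lit 252) (.e (nat_lit 57383) (nat_lit 4) .nil)))))) (.g (nat_lit 5) .nil .nil))) 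
(.lf (nat_lit 234872) (.g (nat_lit 1529) (.e (nat_lit 106536) (nat_lit 11) (.e (nat_lit 16468) (nat_lit 13) (.e (nat_lit 483395) (nat_lit 24) (.e (nat_lit 344156) (nat_lit 36) (.e (nat_lit 646912) (nat_lit 13) (.e (nat_lit 1269) (nat_lit 93) .nil)))))) (.g (nat_lit 4) .nil .nil))))))) (.nd (nat_lit 3) (.nd (nat_lit 4) (.nd (nat_lit 5) (.nd (nat_lit 6) 
(.lf (nat_lit 234756) (.g (nat_lit 1237) (.e (nat_lit 106536) (nat_lit 11) (.e (nat_lit 16463) (nat_lit 13) (.e (nat_lit 483408) (nat_lit 26) (.e (nat_lit 385108) (nat_lit 51) .nil)))) .nil)) 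
(.lf (nat_lit 234820) (.g (nat_lit 2255) (.e (nat_lit 106536) (nat_lit 11) (.e (nat_lit 16466) (nat_lit 13) (.e (nat_lit 483393) (nat_lit 23) (.e (nat_lit 336288) (nat_lit 15) (.e (nat_lit 3711) (nat_lit 227) .nil))))) .nil))) (.nd (nat_lit 6) 
(.lf (nat_lit 234788) (.g (nat_lit 1563) (.e (nat_lit 106536) (nat_lit 11) (.e (nat_lit 16466) (nat_lit 13) (.e (nat_lit 483346) (nat_lit 17) (.e (nat_lit 6445) (nat_lit 343) .nil)))) .nil)) 
(.lf (nat_lit 234852) (.g (nat_lit 1726) (.e (nat_lit 106536) (nat_lit 11) (.e (nat_lit 16467) (nat_lit 13) (.e (nat_lit 483395) (nat_lit 24) (.e (nat_lit 344156) (nat_lit 36) (.e (nat_lit 639004) (nat_lit 13) (.e (nat_lit 1270) (nat_lit 93) .nil)))))) (.g (nat_lit 4) .nil .nil))))) (.nd (nat_lit 5) (.nd (nat_lit 6) 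
(.lf (nat_lit 234772) (.g (nat_lit 2721) (.e (nat_lit 106536) (nat_lit 11) (.e (nat_lit 16465) (nat_lit 13) (.e (nat_lit 483383) (nat_lit 23) (.e (nat_lit 336000) (nat_lit 1) (.e (nat_lit 57849) (nat_lit 252) (.e (nat_lit 57381) (nat_lit 4) .nil)))))) (.g (nat_lit 4) .nil .nil))) 
(.lf (nat_lit 234836) (.g (nat_lit 2341) (.e (nat_lit 106536) (nat_lit 11) (.e (nat_lit 16466) (nat_lit 13) (.e (nat_lit 483408) (nat_lit 26) (.e (nat_lit 385109) (nat_lit 51) (.e (nat_lit 802560) (nat_lit 4) .nil))))) (.g (nat_lit 4) .nil .nil)))) (.nd (nat_lit 6) 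
(.lf (nat_lit 234804) (.g (nat_lit 1757) (.e (nat_lit 106536) (nat_lit 11) (.e (nat_lit 16466) (nat_lit 13) (.e (nat_lit 483391) (nat_lit 23) (.e (nat_lit 336335) (nat_lit 20) (.e (nat_lit 229120) (nat_lit 4) .nil))))) (.g (nat_lit 4) .nil .nil))) 
(.lf (nat_lit 234868) (.g (nat_lit 1812) (.e (nat_lit 106536) (nat_lit 11) (.e (nat_lit 16468) (nat_lit 13) (.e (nat_lit 483395) (nat_lit 24) (.e (nat_lit 344156) (nat_lit 36) (.e (nat_lit 639004) (nat_lit 13) (.e (nat_lit 1270) (nat_lit 93) .nil)))))) (.g (nat_lit 4) .nil .nil)))))) (.nd (nat_lit 4) (.nd (nat_lit 5) (.nd (nat_lit 6) 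
(.lf (nat_lit 234764) (.g (nat_lit 2376) (.e (nat_lit 106536) (nat_lit 11) (.e (nat_lit 16464) (nat_lit 13) (.e (nat_lit 483393) (nat_lit 23) (.e (nat_lit 335988) (nat_lit 1) (.e (nat_lit 57852) (nat_lit 252) (.e (nat_lit 57384) (nat_lit 4) .nil)))))) (.g (nat_lit 4) .nil .nil))) 
(.lf (nat_lit 234828) (.g (nat_lit 1954) (.e (nat_lit 106536) (nat_lit 11) (.e (nat_lit 16466) (nat_lit 13) (.e (nat_lit 483405) (nat_lit 26) (.e (nat_lit 385107) (nat_lit 51) (.e (nat_lit 802560) (nat_lit 4) .nil))))) (.g (nat_lit 4) .nil .nil)))) (.nd (nat_lit 6) 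
(.lf (nat_lit 234796) (.g (nat_lit 1973) (.e (nat_lit 106536) (nat_lit 11) (.e (nat_lit 16466) (nat_lit 13) (.e (nat_lit 483382) (nat_lit 23) (.e (nat_lit 336336) (nat_lit 20) (.e (nat_lit 229120) (nat_lit 4) .nil))))) (.g (nat_lit 4) .nil .nil))) 
(.lf (nat_lit 234860) (.g (nat_lit 1701) (.e (nat_lit 106536) (nat_lit 11) (.e (nat_lit 16468) (nat_lit 13) (.e (nat_lit 483379) (nat_lit 23) (.e (nat_lit 336334) (nat_lit 20) (.e (nat_lit 229120) (nat_lit 4) .nil))))) (.g (nat_lit 4) .nil .nil))))) (.nd (nat_lit 5) (.nd (nat_lit 6) 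
(.lf (nat_lit 234780) (.g (nat_lit 752) (.e (nat_lit 106536) (nat_lit 11) (.e (nat_lit 16465) (nat_lit 13) (.e (nat_lit 491264) (nat_lit 23) (.e (nat_lit 335995) (nat_lit 1) (.e (nat_lit 57848) (nat_lit 252) .nil))))) .nil)) 
(.lf (nat_lit 234844) (.g (nat_lit 1762) (.e (nat_lit 106536) (nat_lit 11) (.e (nat_lit 16467) (nat_lit 13) (.e (nat_lit 483384) (nat_lit 23) (.e (nat_lit 336336) (nat_lit 20) (.e (nat_lit 229120) (nat_lit 4) .nil))))) (.g (nat_lit 4) .nil .nil)))) (.nd (nat_lit 6) 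
(.lf (nat_lit 234812) (.g (nat_lit 1658) (.e (nat_lit 106536) (nat_lit 11) (.e (nat_lit 16466) (nat_lit 13) (.e (nat_lit 483393) (nat_lit 23) (.e (nat_lit 335988) (nat_lit 1) (.e (nat_lit 57830) (nat_lit 250) .nil))))) .nil)) 
(.lf (nat_lit 234876) (.g (nat_lit 1831) (.e (nat_lit 106536) (nat_lit 11) (.e (nat_lit 16468) (nat_lit 13) (.e (nat_lit 483396) (nat_lit 24) (.e (nat_lit 344097) (nat_lit 18) (.e (nat_lit 5195) (nat_lit 294) (.e (nat_lit 57385) (nat_lit 4) .nil)))))) (.g (nat_lit 4) .nil .nil)))))))) (.nd (nat_lit 2) (.nd (nat_lit 3) (.nd (nat_lit 4) (.nd (nat_lit 5) (.nd (nat_lit 6) 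
(.lf (nat_lit 234754) (.g (nat_lit 1766) (.e (nat_lit 106536) (nat_lit 11) (.e (nat_lit 16463) (nat_lit 13) (.e (nat_lit 483408) (nat_lit 26) (.e (nat_lit 385100) (nat_lit 49) (.e (nat_lit 778337) (nat_lit 9) .nil))))) .nil)) 
(.lf (nat_lit 234818) (.g (nat_lit 2951) (.e (nat_lit 106536) (nat_lit 11) (.e (nat_lit 16466) (nat_lit 13) (.e (nat_lit 483393) (nat_lit 23) (.e (nat_lit 335996) (nat_lit 1) (.e (nat_lit 57852) (nat_lit 252) (.e (nat_lit 57381) (nat_lit 4) .nil)))))) (.g (nat_lit 5) .nil .nil)))) (.nd (nat_lit 6) 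
(.lf (nat_lit 234786) (.g (nat_lit 1894) (.e (nat_lit 106536) (nat_lit 11) (.e (nat_lit 16465) (nat_lit 13) (.e (nat_lit 483406) (nat_lit 26) (.e (nat_lit 385107) (nat_lit 51) (.e (nat_lit 802560) (nat_lit 4) .nil))))) .nil)) 
(.lf (nat_lit 234850) (.g (nat_lit 2230) (.e (nat_lit 106536) (nat_lit 11) (.e (nat_lit 16467) (nat_lit 13) (.e (nat_lit 483395) (nat_lit 24) (.e (nat_lit 344097) (nat_lit 18) (.e (nat_lit 5194) (nat_lit 294) (.e (nat_lit 57383) (nat_lit 4) .nil)))))) (.g (nat_lit 4) .nil .nil))))) (.nd (nat_lit 5) (.nd (nat_lit 6) 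
(.lf (nat_lit 234770) (.g (nat_lit 860) (.e (nat_lit 106536) (nat_lit 11) (.e (nat_lit 16465) (nat_lit 13) (.e (nat_lit 483381) (nat_lit 23) .nil))) .nil)) 
(.lf (nat_lit 234834) (.g (nat_lit 578) (.e (nat_lit 106536) (nat_lit 11) (.e (nat_lit 16466) (nat_lit 13) (.e (nat_lit 483408) (nat_lit 26) .nil))) .nil))) (.nd (nat_lit 6) 
(.lf (nat_lit 234802) (.g (nat_lit 2385) (.e (nat_lit 106536) (nat_lit 11) (.e (nat_lit 16466) (nat_lit 13) (.e (nat_lit 483385) (nat_lit 23) (.e (nat_lit 336336) (nat_lit 20) (.e (nat_lit 229120) (nat_lit 4) .nil))))) (.g (nat_lit 4) .nil .nil))) 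
(.lf (nat_lit 234866) (.g (nat_lit 488) (.e (nat_lit 106536) (nat_lit 11) (.e (nat_lit 16468) (nat_lit 13) (.e (nat_lit 483388) (nat_lit 23) .nil))) .nil))))) (.nd (nat_lit 4) (.nd (nat_lit 5) (.nd (nat_lit 6) 
(.lf (nat_lit 234762) (.g (nat_lit 2566) (.e (nat_lit 106536) (nat_lit 11) (.e (nat_lit 16464) (nat_lit 13) (.e (nat_lit 483393) (nat_lit 23) (.e (nat_lit 335986) (nat_lit 1) (.e (nat_lit 57847) (nat_lit 252) (.e (nat_lit 57386) (nat_lit 4) .nil)))))) (.g (nat_lit 5) .nil .nil))) 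
(.lf (nat_lit 234826) (.g (nat_lit 1830) (.e (nat_lit 106536) (nat_lit 11) (.e (nat_lit 16466) (nat_lit 13) (.e (nat_lit 483404) (nat_lit 26) (.e (nat_lit 385107) (nat_lit 51) (.e (nat_lit 802560) (nat_lit 4) .nil))))) (.g (nat_lit 4) .nil .nil)))) (.nd (nat_lit 6) 
(.lf (nat_lit 234794) (.g (nat_lit 2210) (.e (nat_lit 106536) (nat_lit 11) (.e (nat_lit 16466) (nat_lit 13) (.e (nat_lit 483381) (nat_lit 23) (.e (nat_lit 336336) (nat_lit 20) (.e (nat_lit 229120) (nat_lit 4) .nil))))) (.g (nat_lit 4) .nil .nil))) 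
(.lf (nat_lit 234858) (.g (nat_lit 2130) (.e (nat_lit 106536) (nat_lit 11) (.e (nat_lit 16467) (nat_lit 13) (.e (nat_lit 483406) (nat_lit 26) (.e (nat_lit 385109) (nat_lit 51) (.e (nat_lit 802560) (nat_lit 4) .nil))))) (.g (nat_lit 4) .nil .nil))))) (.nd (nat_lit 5) (.nd (nat_lit 6) 
(.lf (nat_lit 234778) (.g (nat_lit 590) (.e (nat_lit 106536) (nat_lit 11) (.e (nat_lit 16465) (nat_lit 13) (.e (nat_lit 483391) (nat_lit 23) .nil))) .nil)) 
(.lf (nat_lit 234842) (.g (nat_lit 2352) (.e (nat_lit 106536) (nat_lit 11) (.e (nat_lit 16467) (nat_lit 13) (.e (nat_lit 483383) (nat_lit 23) (.e (nat_lit 336336) (nat_lit 20) (.e (nat_lit 229120) (nat_lit 4) .nil))))) (.g (nat_lit 4) .nil .nil)))) (.nd (nat_lit 6) 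
(.lf (nat_lit 234810) (.g (nat_lit 1910) (.e (nat_lit 106536) (nat_lit 11) (.e (nat_lit 16466) (nat_lit 13) (.e (nat_lit 483393) (nat_lit 23) (.e (nat_lit 335987) (nat_lit 1) (.e (nat_lit 57852) (nat_lit 252) (.e (nat_lit 65280) (nat_lit 4) .nil)))))) (.g (nat_lit 5) .nil .nil))) 
(.lf (nat_lit 234874) (.g (nat_lit 1951) (.e (nat_lit 106536) (nat_lit 11) (.e (nat_lit 16468) (nat_lit 13) (.e (nat_lit 483396) (nat_lit 24) (.e (nat_lit 344097) (nat_lit 18) (.e (nat_lit 5194) (nat_lit 294) (.e (nat_lit 57385) (nat_lit 4) .nil)))))) (.g (nat_lit 4) .nil .nil))))))) (.nd (nat_lit 3) (.nd (nat_lit 4) (.nd (nat_lit 5) (.nd (nat_lit 6) 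
(.lf (nat_lit 234758) (.g (nat_lit 2272) (.e (nat_lit 106536) (nat_lit 11) (.e (nat_lit 16464) (nat_lit 13) (.e (nat_lit 483380) (nat_lit 23) (.e (nat_lit 336336) (nat_lit 20) (.e (nat_lit 229120) (nat_lit 4) .nil))))) (.g (nat_lit 4) .nil .nil))) 
(.lf (nat_lit 234822) (.g (nat_lit 3086) (.e (nat_lit 106536) (nat_lit 11) (.e (nat_lit 16466) (nat_lit 13) (.e (nat_lit 483393) (nat_lit 23) (.e (nat_lit 336288) (nat_lit 15) (.e (nat_lit 3714) (nat_lit 227) (.e (nat_lit 778337) (nat_lit 9) (.e (nat_lit 7936) (nat_lit 4) .nil))))))) (.g (nat_lit 6) .nil .nil)))) (.nd (nat_lit 6) 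
(.lf (nat_lit 234790) (.g (nat_lit 2695) (.e (nat_lit 106536) (nat_lit 11) (.e (nat_lit 16466) (nat_lit 13) (.e (nat_lit 483378) (nat_lit 23) (.e (nat_lit 336336) (nat_lit 20) (.e (nat_lit 229120) (nat_lit 4) .nil))))) (.g (nat_lit 4) .nil .nil))) 
(.lf (nat_lit 234854) (.g (nat_lit 2493) (.e (nat_lit 106536) (nat_lit 11) (.e (nat_lit 16467) (nat_lit 13) (.e (nat_lit 483395) (nat_lit 24) (.e (nat_lit 344156) (nat_lit 36) (.e (nat_lit 639011) (nat_lit 13) (.e (nat_lit 1270) (nat_lit 93) .nil)))))) (.g (nat_lit 5) .nil .nil))))) (.nd (nat_lit 5) (.nd (nat_lit 6) 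
(.lf (nat_lit 234774) (.g (nat_lit 2012) (.e (nat_lit 106536) (nat_lit 11) (.e (nat_lit 16465) (nat_lit 13) (.e (nat_lit 483383) (nat_lit 23) (.e (nat_lit 336334) (nat_lit 20) (.e (nat_lit 229120) (nat_lit 4) .nil))))) .nil)) 
(.lf (nat_lit 234838) (.g (nat_lit 1443) (.e (nat_lit 106536) (nat_lit 11) (.e (nat_lit 16467) (nat_lit 13) (.e (nat_lit 483378) (nat_lit 23) (.e (nat_lit 335997) (nat_lit 1) (.e (nat_lit 57848) (nat_lit 252) (.e (nat_lit 57385) (nat_lit 4) .nil)))))) (.g (nat_lit 4) .nil .nil)))) (.nd (nat_lit 6) 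
(.lf (nat_lit 234806) (.g (nat_lit 818) (.e (nat_lit 106536) (nat_lit 11) (.e (nat_lit 16466) (nat_lit 13) (.e (nat_lit 483393) (nat_lit 23) (.e (nat_lit 335986) (nat_lit 1) .nil)))) .nil)) 
(.lf (nat_lit 234870) (.g (nat_lit 2163) (.e (nat_lit 106536) (nat_lit 11) (.e (nat_lit 16468) (nat_lit 13) (.e (nat_lit 483395) (nat_lit 24) (.e (nat_lit 344156) (nat_lit 36) (.e (nat_lit 639010) (nat_lit 13) (.e (nat_lit 1270) (nat_lit 93) .nil)))))) (.g (nat_lit 4) .nil .nil)))))) (.nd (nat_lit 4) (.nd (nat_lit 5) (.nd (nat_lit 6) 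
(.lf (nat_lit 234766) (.g (nat_lit 2144) (.e (nat_lit 106536) (nat_lit 11) (.e (nat_lit 16464) (nat_lit 13) (.e (nat_lit 483406) (nat_lit 26) (.e (nat_lit 385109) (nat_lit 51) (.e (nat_lit 802560) (nat_lit 4) .nil))))) (.g (nat_lit 4) .nil .nil))) 
(.lf (nat_lit 234830) (.g (nat_lit 1742) (.e (nat_lit 106536) (nat_lit 11) (.e (nat_lit 16466) (nat_lit 13) (.e (nat_lit 483406) (nat_lit 26) (.e (nat_lit 385107) (nat_lit 51) .nil)))) .nil))) (.nd (nat_lit 6) 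
(.lf (nat_lit 234798) (.g (nat_lit 2638) (.e (nat_lit 106536) (nat_lit 11) (.e (nat_lit 16466) (nat_lit 13) (.e (nat_lit 483383) (nat_lit 23) (.e (nat_lit 336336) (nat_lit 20) (.e (nat_lit 229120) (nat_lit 4) .nil))))) (.g (nat_lit 4) .nil .nil))) 
(.lf (nat_lit 234862) (.g (nat_lit 2063) (.e (nat_lit 106536) (nat_lit 11) (.e (nat_lit 16468) (nat_lit 13) (.e (nat_lit 483380) (nat_lit 23) (.e (nat_lit 336336) (nat_lit 20) (.e (nat_lit 229120) (nat_lit 4) .nil))))) (.g (nat_lit 4) .nil .nil))))) (.nd (nat_lit 5) (.nd (nat_lit 6) 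
(.lf (nat_lit 234782) (.g (nat_lit 2341) (.e (nat_lit 106536) (nat_lit 11) (.e (nat_lit 16465) (nat_lit 13) (.e (nat_lit 483403) (nat_lit 26) (.e (nat_lit 385109) (nat_lit 51) (.e (nat_lit 802560) (nat_lit 4) .nil))))) (.g (nat_lit 4) .nil .nil))) 
(.lf (nat_lit 234846) (.g (nat_lit 2941) (.e (nat_lit 106536) (nat_lit 11) (.e (nat_lit 16467) (nat_lit 13) (.e (nat_lit 483393) (nat_lit 23) (.e (nat_lit 335988) (nat_lit 1) (.e (nat_lit 57854) (nat_lit 252) (.e (nat_lit 57384) (nat_lit 4) .nil)))))) (.g (nat_lit 6) .nil .nil)))) (.nd (nat_lit 6) 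
(.lf (nat_lit 234814) (.g (nat_lit 1621) (.e (nat_lit 106536) (nat_lit 11) (.e (nat_lit 16466) (nat_lit 13) (.e (nat_lit 483393) (nat_lit 23) (.e (nat_lit 335988) (nat_lit 1) (.e (nat_lit 57832) (nat_lit 250) .nil))))) .nil)) 
(.lf (nat_lit 234878) (.g (nat_lit 2024) (.e (nat_lit 106536) (nat_lit 11) (.e (nat_lit 16468) (nat_lit 13) (.e (nat_lit 483403) (nat_lit 26) (.e (nat_lit 385109) (nat_lit 51) (.e (nat_lit 802560) (nat_lit 4) .nil))))) (.g (nat_lit 4) .nil .nil))))))))) (.nd (nat_lit 1) (.nd (nat_lit 2) (.nd (nat_lit 3) (.nd (nat_lit 4) (.nd (nat_lit 5) (.nd (nat_lit 6) 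
(.lf (nat_lit 234753) (.g (nat_lit 2717) (.e (nat_lit 106536) (nat_lit 11) (.e (nat_lit 16463) (nat_lit 13) (.e (nat_lit 483408) (nat_lit 26) (.e (nat_lit 385100) (nat_lit 49) (.e (nat_lit 778334) (nat_lit 9) (.e (nat_lit 7936) (nat_lit 4) .nil)))))) (.g (nat_lit 5) .nil .nil))) 
(.lf (nat_lit 234817) (.g (nat_lit 2278) (.e (nat_lit 106536) (nat_lit 11) (.e (nat_lit 16466) (nat_lit 13) (.e (nat_lit 483393) (nat_lit 23) (.e (nat_lit 335988) (nat_lit 1) (.e (nat_lit 57854) (nat_lit 252) (.e (nat_lit 65280) (nat_lit 4) .nil)))))) (.g (nat_lit 5) .nil .nil)))) (.nd (nat_lit 6) 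
(.lf (nat_lit 234785) (.g (nat_lit 342) (.e (nat_lit 106536) (nat_lit 11) (.e (nat_lit 16465) (nat_lit 13) (.e (nat_lit 483406) (nat_lit 26) .nil))) .nil)) 
(.lf (nat_lit 234849) (.g (nat_lit 1724) (.e (nat_lit 106536) (nat_lit 11) (.e (nat_lit 16467) (nat_lit 13) (.e (nat_lit 483394) (nat_lit 24) (.e (nat_lit 344097) (nat_lit 18) (.e (nat_lit 5195) (nat_lit 294) (.e (nat_lit 57386) (nat_lit 4) .nil)))))) (.g (nat_lit 4) .nil .nil))))) (.nd (nat_lit 5) (.nd (nat_lit 6) 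
(.lf (nat_lit 234769) (.g (nat_lit 2309) (.e (nat_lit 106536) (nat_lit 11) (.e (nat_lit 16465) (nat_lit 13) (.e (nat_lit 483380) (nat_lit 23) (.e (nat_lit 336336) (nat_lit 20) (.e (nat_lit 229120) (nat_lit 4) .nil))))) (.g (nat_lit 4) .nil .nil))) 
(.lf (nat_lit 234833) (.g (nat_lit 1897) (.e (nat_lit 106536) (nat_lit 11) (.e (nat_lit 16466) (nat_lit 13) (.e (nat_lit 483407) (nat_lit 26) (.e (nat_lit 385109) (nat_lit 51) (.e (nat_lit 802560) (nat_lit 4) .nil))))) (.g (nat_lit 4) .nil .nil)))) (.nd (nat_lit 6) 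
(.lf (nat_lit 234801) (.g (nat_lit 1877) (.e (nat_lit 106536) (nat_lit 11) (.e (nat_lit 16466) (nat_lit 13) (.e (nat_lit 483385) (nat_lit 23) (.e (nat_lit 336334) (nat_lit 20) (.e (nat_lit 229120) (nat_lit 4) .nil))))) .nil)) 
(.lf (nat_lit 234865) (.g (nat_lit 2144) (.e (nat_lit 106536) (nat_lit 11) (.e (nat_lit 16468) (nat_lit 13) (.e (nat_lit 483383) (nat_lit 23) (.e (nat_lit 336336) (nat_lit 20) (.e (nat_lit 229120) (nat_lit 4) .nil))))) (.g (nat_lit 4) .nil .nil)))))) (.nd (nat_lit 4) (.nd (nat_lit 5) (.nd (nat_lit 6) 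
(.lf (nat_lit 234761) (.g (nat_lit 2377) (.e (nat_lit 106536) (nat_lit 11) (.e (nat_lit 16464) (nat_lit 13) (.e (nat_lit 483393) (nat_lit 23) (.e (nat_lit 335986) (nat_lit 1) (.e (nat_lit 57847) (nat_lit 252) (.e (nat_lit 57385) (nat_lit 4) .nil)))))) (.g (nat_lit 4) .nil .nil))) 
(.lf (nat_lit 234825) (.g (nat_lit 2305) (.e (nat_lit 106536) (nat_lit 11) (.e (nat_lit 16466) (nat_lit 13) (.e (nat_lit 483403) (nat_lit 26) (.e (nat_lit 385109) (nat_lit 51) (.e (nat_lit 802560) (nat_lit 4) .nil))))) (.g (nat_lit 4) .nil .nil)))) (.nd (nat_lit 6) 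
(.lf (nat_lit 234793) (.g (nat_lit 2503) (.e (nat_lit 106536) (nat_lit 11) (.e (nat_lit 16466) (nat_lit 13) (.e (nat_lit 483380) (nat_lit 23) (.e (nat_lit 336336) (nat_lit 20) (.e (nat_lit 229120) (nat_lit 4) .nil))))) (.g (nat_lit 4) .nil .nil))) 
(.lf (nat_lit 234857) (.g (nat_lit 1268) (.e (nat_lit 106536) (nat_lit 11) (.e (nat_lit 16467) (nat_lit 13) (.e (nat_lit 483405) (nat_lit 26) (.e (nat_lit 385109) (nat_lit 51) (.e (nat_lit 802560) (nat_lit 4) .nil))))) .nil)))) (.nd (nat_lit 5) (.nd (nat_lit 6) 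
(.lf (nat_lit 234777) (.g (nat_lit 1167) (.e (nat_lit 106536) (nat_lit 11) (.e (nat_lit 16465) (nat_lit 13) (.e (nat_lit 483386) (nat_lit 23) (.e (nat_lit 335985) (nat_lit 1) .nil)))) .nil)) 
(.lf (nat_lit 234841) (.g (nat_lit 645) (.e (nat_lit 106536) (nat_lit 11) (.e (nat_lit 16467) (nat_lit 13) (.e (nat_lit 483382) (nat_lit 23) (.e (nat_lit 336334) (nat_lit 20) .nil)))) .nil))) (.nd (nat_lit 6) 
(.lf (nat_lit 234809) (.g (nat_lit 2077) (.e (nat_lit 106536) (nat_lit 11) (.e (nat_lit 16466) (nat_lit 13) (.e (nat_lit 483393) (nat_lit 23) (.e (nat_lit 335987) (nat_lit 1) (.e (nat_lit 57830) (nat_lit 250) (.e (nat_lit 1016) (nat_lit 81) (.e (nat_lit 7936) (nat_lit 93) .nil))))))) (.g (nat_lit 6) .nil .nil))) 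
(.lf (nat_lit 234873) (.g (nat_lit 954) (.e (nat_lit 106536) (nat_lit 11) (.e (nat_lit 16468) (nat_lit 13) (.e (nat_lit 483396) (nat_lit 24) (.e (nat_lit 344097) (nat_lit 18) .nil)))) .nil)))))) (.nd (nat_lit 3) (.nd (nat_lit 4) (.nd (nat_lit 5) (.nd (nat_lit 6) 
(.lf (nat_lit 234757) (.g (nat_lit 2601) (.e (nat_lit 106536) (nat_lit 11) (.e (nat_lit 16463) (nat_lit 13) (.e (nat_lit 483408) (nat_lit 26) (.e (nat_lit 385109) (nat_lit 51) (.e (nat_lit 802560) (nat_lit 4) .nil))))) (.g (nat_lit 4) .nil .nil))) 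
(.lf (nat_lit 234821) (.g (nat_lit 2235) (.e (nat_lit 106536) (nat_lit 11) (.e (nat_lit 16466) (nat_lit 13) (.e (nat_lit 483393) (nat_lit 23) (.e (nat_lit 336288) (nat_lit 15) (.e (nat_lit 3714) (nat_lit 227) .nil))))) .nil))) (.nd (nat_lit 6) 
(.lf (nat_lit 234789) (.g (nat_lit 764) (.e (nat_lit 106536) (nat_lit 11) (.e (nat_lit 16466) (nat_lit 13) (.e (nat_lit 483378) (nat_lit 23) .nil))) .nil)) 
(.lf (nat_lit 234853) (.g (nat_lit 2077) (.e (nat_lit 106536) (nat_lit 11) (.e (nat_lit 16467) (nat_lit 13) (.e (nat_lit 483395) (nat_lit 24) (.e (nat_lit 344156) (nat_lit 36) (.e (nat_lit 639010) (nat_lit 13) (.e (nat_lit 1270) (nat_lit 93) .nil)))))) (.g (nat_lit 4) .nil .nil))))) (.nd (nat_lit 5) (.nd (nat_lit 6) 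
(.lf (nat_lit 234773) (.g (nat_lit 3052) (.e (nat_lit 106536) (nat_lit 11) (.e (nat_lit 16465) (nat_lit 13) (.e (nat_lit 483383) (nat_lit 23) (.e (nat_lit 336000) (nat_lit 1) (.e (nat_lit 57849) (nat_lit 252) (.e (nat_lit 57383) (nat_lit 4) .nil)))))) (.g (nat_lit 4) .nil .nil))) 
(.lf (nat_lit 234837) (.g (nat_lit 1471) (.e (nat_lit 106536) (nat_lit 11) (.e (nat_lit 16466) (nat_lit 13) (.e (nat_lit 483408) (nat_lit 26) (.e (nat_lit 385110) (nat_lit 52) .nil)))) .nil))) (.nd (nat_lit 6) 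
(.lf (nat_lit 234805) (.g (nat_lit 424) (.e (nat_lit 106536) (nat_lit 11) (.e (nat_lit 16466) (nat_lit 13) (.e (nat_lit 483393) (nat_lit 23) .nil))) .nil)) 
(.lf (nat_lit 234869) (.g (nat_lit 1534) (.e (nat_lit 106536) (nat_lit 11) (.e (nat_lit 16468) (nat_lit 13) (.e (nat_lit 483395) (nat_lit 24) (.e (nat_lit 344156) (nat_lit 36) (.e (nat_lit 639010) (nat_lit 13) (.e (nat_lit 1269) (nat_lit 93) .nil)))))) (.g (nat_lit 4) .nil .nil)))))) (.nd (nat_lit 4) (.nd (nat_lit 5) (.nd (nat_lit 6) 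
(.lf (nat_lit 234765) (.g (nat_lit 1897) (.e (nat_lit 106536) (nat_lit 11) (.e (nat_lit 16464) (nat_lit 13) (.e (nat_lit 483403) (nat_lit 26) (.e (nat_lit 385109) (nat_lit 51) (.e (nat_lit 802560) (nat_lit 4) .nil))))) (.g (nat_lit 4) .nil .nil))) 
(.lf (nat_lit 234829) (.g (nat_lit 2024) (.e (nat_lit 106536) (nat_lit 11) (.e (nat_lit 16466) (nat_lit 13) (.e (nat_lit 483405) (nat_lit 26) (.e (nat_lit 385109) (nat_lit 51) (.e (nat_lit 802560) (nat_lit 4) .nil))))) (.g (nat_lit 4) .nil .nil)))) (.nd (nat_lit 6) 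
(.lf (nat_lit 234797) (.g (nat_lit 1832) (.e (nat_lit 106536) (nat_lit 11) (.e (nat_lit 16466) (nat_lit 13) (.e (nat_lit 483383) (nat_lit 23) (.e (nat_lit 336334) (nat_lit 20) .nil)))) .nil)) 
(.lf (nat_lit 234861) (.g (nat_lit 1896) (.e (nat_lit 106536) (nat_lit 11) (.e (nat_lit 16468) (nat_lit 13) (.e (nat_lit 483379) (nat_lit 23) (.e (nat_lit 336336) (nat_lit 20) (.e (nat_lit 229120) (nat_lit 4) .nil))))) (.g (nat_lit 4) .nil .nil))))) (.nd (nat_lit 5) (.nd (nat_lit 6) 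
(.lf (nat_lit 234781) (.g (nat_lit 867) (.e (nat_lit 106536) (nat_lit 11) (.e (nat_lit 16465) (nat_lit 13) (.e (nat_lit 483395) (nat_lit 24) .nil))) .nil)) 
(.lf (nat_lit 234845) (.g (nat_lit 2406) (.e (nat_lit 106536) (nat_lit 11) (.e (nat_lit 16467) (nat_lit 13) (.e (nat_lit 483393) (nat_lit 23) (.e (nat_lit 335986) (nat_lit 1) (.e (nat_lit 57849) (nat_lit 252) (.e (nat_lit 57385) (nat_lit 4) .nil)))))) (.g (nat_lit 6) .nil .nil)))) (.nd (nat_lit 6) 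
(.lf (nat_lit 234813) (.g (nat_lit 2512) (.e (nat_lit 106536) (nat_lit 11) (.e (nat_lit 16466) (nat_lit 13) (.e (nat_lit 483393) (nat_lit 23) (.e (nat_lit 335988) (nat_lit 1) (.e (nat_lit 57830) (nat_lit 250) (.e (nat_lit 1016) (nat_lit 81) (.e (nat_lit 7936) (nat_lit 93) .nil))))))) (.g (nat_lit 6) .nil .nil))) 
(.lf (nat_lit 234877) (.g (nat_lit 2009) (.e (nat_lit 106536) (nat_lit 11) (.e (nat_lit 16468) (nat_lit 13) (.e (nat_lit 483396) (nat_lit 24) (.e (nat_lit 344097) (nat_lit 18) (.e (nat_lit 5195) (nat_lit 294) (.e (nat_lit 57386) (nat_lit 4) .nil)))))) (.g (nat_lit 4) .nil .nil)))))))) (.nd (nat_lit 2) (.nd (nat_lit 3) (.nd (nat_lit 4) (.nd (nat_lit 5) (.nd (nat_lit 6) 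
(.lf (nat_lit 234755) (.g (nat_lit 2638) (.e (nat_lit 106536) (nat_lit 11) (.e (nat_lit 16463) (nat_lit 13) (.e (nat_lit 483408) (nat_lit 26) (.e (nat_lit 385107) (nat_lit 51) (.e (nat_lit 802560) (nat_lit 4) .nil))))) (.g (nat_lit 4) .nil .nil))) 
(.lf (nat_lit 234819) (.g (nat_lit 1407) (.e (nat_lit 106536) (nat_lit 11) (.e (nat_lit 16466) (nat_lit 13) (.e (nat_lit 483393) (nat_lit 23) (.e (nat_lit 336287) (nat_lit 15) .nil)))) .nil))) (.nd (nat_lit 6) 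
(.lf (nat_lit 234787) (.g (nat_lit 2601) (.e (nat_lit 106536) (nat_lit 11) (.e (nat_lit 16465) (nat_lit 13) (.e (nat_lit 483406) (nat_lit 26) (.e (nat_lit 385109) (nat_lit 51) (.e (nat_lit 802560) (nat_lit 4) .nil))))) (.g (nat_lit 4) .nil .nil))) 
(.lf (nat_lit 234851) (.g (nat_lit 2262) (.e (nat_lit 106536) (nat_lit 11) (.e (nat_lit 16467) (nat_lit 13) (.e (nat_lit 483395) (nat_lit 24) (.e (nat_lit 344097) (nat_lit 18) (.e (nat_lit 5195) (nat_lit 294) (.e (nat_lit 57383) (nat_lit 4) .nil)))))) (.g (nat_lit 4) .nil .nil))))) (.nd (nat_lit 5) (.nd (nat_lit 6) 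
(.lf (nat_lit 234771) (.g (nat_lit 1500) (.e (nat_lit 106536) (nat_lit 11) (.e (nat_lit 16465) (nat_lit 13) (.e (nat_lit 483383) (nat_lit 23) (.e (nat_lit 335999) (nat_lit 1) .nil)))) .nil)) 
(.lf (nat_lit 234835) (.g (nat_lit 2177) (.e (nat_lit 106536) (nat_lit 11) (.e (nat_lit 16466) (nat_lit 13) (.e (nat_lit 483408) (nat_lit 26) (.e (nat_lit 385107) (nat_lit 51) (.e (nat_lit 802560) (nat_lit 4) .nil))))) (.g (nat_lit 4) .nil .nil)))) (.nd (nat_lit 6) 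
(.lf (nat_lit 234803) (.g (nat_lit 1565) (.e (nat_lit 106536) (nat_lit 11) (.e (nat_lit 16466) (nat_lit 13) (.e (nat_lit 483391) (nat_lit 23) (.e (nat_lit 336333) (nat_lit 20) (.e (nat_lit 229120) (nat_lit 4) .nil))))) (.g (nat_lit 4) .nil .nil))) 
(.lf (nat_lit 234867) (.g (nat_lit 1223) (.e (nat_lit 106536) (nat_lit 11) (.e (nat_lit 16468) (nat_lit 13) (.e (nat_lit 483391) (nat_lit 23) (.e (nat_lit 336335) (nat_lit 20) (.e (nat_lit 229120) (nat_lit 4) .nil))))) (.g (nat_lit 4) .nil .nil)))))) (.nd (nat_lit 4) (.nd (nat_lit 5) (.nd (nat_lit 6) 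
(.lf (nat_lit 234763) (.g (nat_lit 2216) (.e (nat_lit 106536) (nat_lit 11) (.e (nat_lit 16464) (nat_lit 13) (.e (nat_lit 483393) (nat_lit 23) (.e (nat_lit 335986) (nat_lit 1) (.e (nat_lit 57849) (nat_lit 252) (.e (nat_lit 57385) (nat_lit 4) .nil)))))) (.g (nat_lit 4) .nil .nil))) 
(.lf (nat_lit 234827) (.g (nat_lit 2033) (.e (nat_lit 106536) (nat_lit 11) (.e (nat_lit 16466) (nat_lit 13) (.e (nat_lit 483404) (nat_lit 26) (.e (nat_lit 385109) (nat_lit 51) (.e (nat_lit 802560) (nat_lit 4) .nil))))) (.g (nat_lit 4) .nil .nil)))) (.nd (nat_lit 6) 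
(.lf (nat_lit 234795) (.g (nat_lit 1837) (.e (nat_lit 106536) (nat_lit 11) (.e (nat_lit 16466) (nat_lit 13) (.e (nat_lit 483382) (nat_lit 23) (.e (nat_lit 336334) (nat_lit 20) (.e (nat_lit 229120) (nat_lit 4) .nil))))) (.g (nat_lit 4) .nil .nil))) 
(.lf (nat_lit 234859) (.g (nat_lit 1177) (.e (nat_lit 106536) (nat_lit 11) (.e (nat_lit 16467) (nat_lit 13) (.e (nat_lit 483408) (nat_lit 26) (.e (nat_lit 385109) (nat_lit 51) .nil)))) .nil)))) (.nd (nat_lit 5) (.nd (nat_lit 6) 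
(.lf (nat_lit 234779) (.g (nat_lit 954) (.e (nat_lit 106536) (nat_lit 11) (.e (nat_lit 16465) (nat_lit 13) (.e (nat_lit 483392) (nat_lit 23) .nil))) .nil)) 
(.lf (nat_lit 234843) (.g (nat_lit 188) (.e (nat_lit 106536) (nat_lit 11) (.e (nat_lit 16467) (nat_lit 13) (.e (nat_lit 483384) (nat_lit 23) .nil))) .nil))) (.nd (nat_lit 6) 
(.lf (nat_lit 234811) (.g (nat_lit 1947) (.e (nat_lit 106536) (nat_lit 11) (.e (nat_lit 16466) (nat_lit 13) (.e (nat_lit 483393) (nat_lit 23) (.e (nat_lit 335987) (nat_lit 1) (.e (nat_lit 57854) (nat_lit 252) (.e (nat_lit 65280) (nat_lit 4) .nil)))))) (.g (nat_lit 5) .nil .nil))) 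
(.lf (nat_lit 234875) (.g (nat_lit 2084) (.e (nat_lit 106536) (nat_lit 11) (.e (nat_lit 16468) (nat_lit 13) (.e (nat_lit 483396) (nat_lit 24) (.e (nat_lit 344097) (nat_lit 18) (.e (nat_lit 5194) (nat_lit 294) (.e (nat_lit 57386) (nat_lit 4) .nil)))))) (.g (nat_lit 4) .nil .nil))))))) (.nd (nat_lit 3) (.nd (nat_lit 4) (.nd (nat_lit 5) (.nd (nat_lit 6) 
(.lf (nat_lit 234759) (.g (nat_lit 2822) (.e (nat_lit 106536) (nat_lit 11) (.e (nat_lit 16464) (nat_lit 13) (.e (nat_lit 483383) (nat_lit 23) (.e (nat_lit 336000) (nat_lit 1) (.e (nat_lit 57849) (nat_lit 252) (.e (nat_lit 57385) (nat_lit 4) .nil)))))) (.g (nat_lit 4) .nil .nil))) 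
(.lf (nat_lit 234823) (.g (nat_lit 919) (.e (nat_lit 106536) (nat_lit 11) (.e (nat_lit 16466) (nat_lit 13) (.e (nat_lit 483395) (nat_lit 24) .nil))) .nil))) (.nd (nat_lit 6) 
(.lf (nat_lit 234791) (.g (nat_lit 2226) (.e (nat_lit 106536) (nat_lit 11) (.e (nat_lit 16466) (nat_lit 13) (.e (nat_lit 483379) (nat_lit 23) (.e (nat_lit 336334) (nat_lit 20) (.e (nat_lit 229120) (nat_lit 4) .nil))))) (.g (nat_lit 4) .nil .nil))) 
(.lf (nat_lit 234855) (.g (nat_lit 2033) (.e (nat_lit 106536) (nat_lit 11) (.e (nat_lit 16467) (nat_lit 13) (.e (nat_lit 483403) (nat_lit 26) (.e (nat_lit 385109) (nat_lit 51) (.e (nat_lit 802560) (nat_lit 4) .nil))))) (.g (nat_lit 4) .nil .nil))))) (.nd (nat_lit 5) (.nd (nat_lit 6) 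
(.lf (nat_lit 234775) (.g (nat_lit 2653) (.e (nat_lit 106536) (nat_lit 11) (.e (nat_lit 16465) (nat_lit 13) (.e (nat_lit 483383) (nat_lit 23) (.e (nat_lit 336336) (nat_lit 20) (.e (nat_lit 229120) (nat_lit 4) .nil))))) (.g (nat_lit 4) .nil .nil))) 
(.lf (nat_lit 234839) (.g (nat_lit 1309) (.e (nat_lit 106536) (nat_lit 11) (.e (nat_lit 16467) (nat_lit 13) (.e (nat_lit 483379) (nat_lit 23) (.e (nat_lit 336336) (nat_lit 20) (.e (nat_lit 229120) (nat_lit 4) .nil))))) .nil))) (.nd (nat_lit 6) 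
(.lf (nat_lit 234807) (.g (nat_lit 2895) (.e (nat_lit 106536) (nat_lit 11) (.e (nat_lit 16466) (nat_lit 13) (.e (nat_lit 483393) (nat_lit 23) (.e (nat_lit 335986) (nat_lit 1) (.e (nat_lit 57847) (nat_lit 252) (.e (nat_lit 57381) (nat_lit 4) .nil)))))) (.g (nat_lit 5) .nil .nil))) 
(.lf (nat_lit 234871) (.g (nat_lit 1509) (.e (nat_lit 106536) (nat_lit 11) (.e (nat_lit 16468) (nat_lit 13) (.e (nat_lit 483395) (nat_lit 24) (.e (nat_lit 344156) (nat_lit 36) (.e (nat_lit 639011) (nat_lit 13) (.e (nat_lit 1269) (nat_lit 93) .nil)))))) (.g (nat_lit 4) .nil .nil)))))) (.nd (nat_lit 4) (.nd (nat_lit 5) (.nd (nat_lit 6) 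
(.lf (nat_lit 234767) (.g (nat_lit 952) (.e (nat_lit 106536) (nat_lit 11) (.e (nat_lit 16465) (nat_lit 13) (.e (nat_lit 483378) (nat_lit 23) .nil))) .nil)) 
(.lf (nat_lit 234831) (.g (nat_lit 2494) (.e (nat_lit 106536) (nat_lit 11) (.e (nat_lit 16466) (nat_lit 13) (.e (nat_lit 483406) (nat_lit 26) (.e (nat_lit 385109) (nat_lit 51) (.e (nat_lit 802560) (nat_lit 4) .nil))))) (.g (nat_lit 4) .nil .nil)))) (.nd (nat_lit 6) 
(.lf (nat_lit 234799) (.g (nat_lit 534) (.e (nat_lit 106536) (nat_lit 11) (.e (nat_lit 16466) (nat_lit 13) (.e (nat_lit 483384) (nat_lit 23) .nil))) .nil)) 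
(.lf (nat_lit 234863) (.g (nat_lit 494) (.e (nat_lit 106536) (nat_lit 11) (.e (nat_lit 16468) (nat_lit 13) (.e (nat_lit 483381) (nat_lit 23) .nil))) .nil)))) (.nd (nat_lit 5) (.nd (nat_lit 6) 
(.lf (nat_lit 234783) (.g (nat_lit 954) (.e (nat_lit 106536) (nat_lit 11) (.e (nat_lit 16465) (nat_lit 13) (.e (nat_lit 483404) (nat_lit 26) .nil))) .nil)) 
(.lf (nat_lit 234847) (.g (nat_lit 2692) (.e (nat_lit 106536) (nat_lit 11) (.e (nat_lit 16467) (nat_lit 13) (.e (nat_lit 483393) (nat_lit 23) (.e (nat_lit 335996) (nat_lit 1) (.e (nat_lit 57852) (nat_lit 252) (.e (nat_lit 57384) (nat_lit 4) .nil)))))) (.g (nat_lit 5) .nil .nil)))) (.nd (nat_lit 6) 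
(.lf (nat_lit 234815) (.g (nat_lit 2189) (.e (nat_lit 106536) (nat_lit 11) (.e (nat_lit 16466) (nat_lit 13) (.e (nat_lit 483393) (nat_lit 23) (.e (nat_lit 335988) (nat_lit 1) (.e (nat_lit 57844) (nat_lit 252) (.e (nat_lit 57382) (nat_lit 4) .nil)))))) (.g (nat_lit 4) .nil .nil))) 
(.lf (nat_lit 234879) (.g (nat_lit 1288) (.e (nat_lit 106536) (nat_lit 11) (.e (nat_lit 16468) (nat_lit 13) (.e (nat_lit 483404) (nat_lit 26) (.e (nat_lit 385109) (nat_lit 51) (.e (nat_lit 802560) (nat_lit 4) .nil))))) .nil)))))))))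

noncomputable def tv3067 : DT := (.nd (nat_lit 0) (.nd (nat_lit 1) (.nd (nat_lit 2) (.nd (nat_lit 3) (.nd (nat_lit 4) (.nd (nat_lit 5) (.nd (nat_lit 6) 
(.lf (nat_lit 234880) (.g (nat_lit 2135) (.e (nat_lit 106536) (nat_lit 11) (.e (nat_lit 16468) (nat_lit 13) (.e (nat_lit 483406) (nat_lit 26) (.e (nat_lit 385109) (nat_lit 51) (.e (nat_lit 802560) (nat_lit 4) .nil))))) (.g (nat_lit 4) .nil .nil))) 
(.lf (nat_lit 234944) (.g (nat_lit 4000) (.e (nat_lit 106536) (nat_lit 11) (.e (nat_lit 16473) (nat_lit 14) (.e (nat_lit 491562) (nat_lit 12) (.e (nat_lit 385106) (nat_lit 50) (.e (nat_lit 786460) (nat_lit 20) .nil))))) .nil))) (.nd (nat_lit 6) 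
(.lf (nat_lit 234912) (.g (nat_lit 1273) (.e (nat_lit 106536) (nat_lit 11) (.e (nat_lit 16473) (nat_lit 14) (.e (nat_lit 491546) (nat_lit 9) .nil))) .nil)) 
(.lf (nat_lit 234976) (.g (nat_lit 3003) (.e (nat_lit 106536) (nat_lit 11) (.e (nat_lit 16483) (nat_lit 27) (.e (nat_lit 335986) (nat_lit 1) (.e (nat_lit 57847) (nat_lit 252) (.e (nat_lit 57365) (nat_lit 1) (.e (nat_lit 57854) (nat_lit 252) (.e (nat_lit 57389) (nat_lit 5) (.e (nat_lit 114722) (nat_lit 24) .nil)))))))) (.g (nat_lit 4) .nil .nil))))) (.nd (nat_lit 5) (.nd (nat_lit 6) 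
(.lf (nat_lit 234896) (.g (nat_lit 2922) (.e (nat_lit 106536) (nat_lit 11) (.e (nat_lit 16470) (nat_lit 14) (.e (nat_lit 491566) (nat_lit 12) (.e (nat_lit 385105) (nat_lit 50) .nil)))) .nil)) 
(.lf (nat_lit 234960) (.g (nat_lit 2180) (.e (nat_lit 106536) (nat_lit 11) (.e (nat_lit 16473) (nat_lit 14) (.e (nat_lit 491572) (nat_lit 14) (.e (nat_lit 401444) (nat_lit 9) .nil)))) .nil))) (.nd (nat_lit 6) 
(.lf (nat_lit 234928) (.g (nat_lit 3534) (.e (nat_lit 106536) (nat_lit 11) (.e (nat_lit 16473) (nat_lit 14) (.e (nat_lit 491559) (nat_lit 10) (.e (nat_lit 344169) (nat_lit 40) (.e (nat_lit 671748) (nat_lit 0) .nil))))) .nil)) 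
(.lf (nat_lit 234992) (.g (nat_lit 638) (.e (nat_lit 114432) (nat_lit 11) (.e (nat_lit 16416) (nat_lit 3) (.e (nat_lit 204859) (nat_lit 26) .nil))) .nil))))) (.nd (nat_lit 4) (.nd (nat_lit 5) (.nd (nat_lit 6) 
(.lf (nat_lit 234888) (.g (nat_lit 1038) (.e (nat_lit 106536) (nat_lit 11) (.e (nat_lit 16470) (nat_lit 14) (.e (nat_lit 491566) (nat_lit 12) .nil))) .nil)) 
(.lf (nat_lit 234952) (.g (nat_lit 4028) (.e (nat_lit 106536) (nat_lit 11) (.e (nat_lit 16473) (nat_lit 14) (.e (nat_lit 491563) (nat_lit 12) (.e (nat_lit 385105) (nat_lit 50) .nil)))) .nil))) (.nd (nat_lit 6) 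
(.lf (nat_lit 234920) (.g (nat_lit 2897) (.e (nat_lit 106536) (nat_lit 11) (.e (nat_lit 16473) (nat_lit 14) (.e (nat_lit 491558) (nat_lit 10) (.e (nat_lit 344103) (nat_lit 18) .nil)))) .nil)) 
(.lf (nat_lit 234984) (.g (nat_lit 1656) (.e (nat_lit 106536) (nat_lit 11) (.e (nat_lit 16486) (nat_lit 27) (.e (nat_lit 335995) (nat_lit 1) (.e (nat_lit 57848) (nat_lit 252) (.e (nat_lit 57368) (nat_lit 1) .nil))))) .nil)))) (.nd (nat_lit 5) (.nd (nat_lit 6) 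
(.lf (nat_lit 234904) (.g (nat_lit 2947) (.e (nat_lit 106536) (nat_lit 11) (.e (nat_lit 16471) (nat_lit 14) (.e (nat_lit 491572) (nat_lit 14) (.e (nat_lit 401454) (nat_lit 12) (.e (nat_lit 475214) (nat_lit 42) .nil))))) .nil)) 
(.lf (nat_lit 234968) (.g (nat_lit 3985) (.e (nat_lit 106536) (nat_lit 11) (.e (nat_lit 16473) (nat_lit 14) (.e (nat_lit 491572) (nat_lit 14) (.e (nat_lit 401454) (nat_lit 12) (.e (nat_lit 475213) (nat_lit 42) .nil))))) .nil))) (.nd (nat_lit 6) 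
(.lf (nat_lit 234936) (.g (nat_lit 2317) (.e (nat_lit 106536) (nat_lit 11) (.e (nat_lit 16473) (nat_lit 14) (.e (nat_lit 491560) (nat_lit 10) (.e (nat_lit 352000) (nat_lit 18) .nil)))) .nil)) 
(.lf (nat_lit 235000) (.g (nat_lit 587) (.e (nat_lit 114432) (nat_lit 11) (.e (nat_lit 16416) (nat_lit 3) (.e (nat_lit 204877) (nat_lit 31) .nil))) .nil)))))) (.nd (nat_lit 3) (.nd (nat_lit 4) (.nd (nat_lit 5) (.nd (nat_lit 6) 
(.lf (nat_lit 234884) (.g (nat_lit 2937) (.e (nat_lit 106536) (nat_lit 11) (.e (nat_lit 16469) (nat_lit 14) (.e (nat_lit 491566) (nat_lit 12) (.e (nat_lit 385104) (nat_lit 50) (.e (nat_lit 786444) (nat_lit 15) .nil))))) .nil)) 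
(.lf (nat_lit 234948) (.g (nat_lit 4028) (.e (nat_lit 106536) (nat_lit 11) (.e (nat_lit 16473) (nat_lit 14) (.e (nat_lit 491563) (nat_lit 12) (.e (nat_lit 385093) (nat_lit 49) .nil)))) .nil))) (.nd (nat_lit 6) 
(.lf (nat_lit 234916) (.g (nat_lit 1265) (.e (nat_lit 106536) (nat_lit 11) (.e (nat_lit 16473) (nat_lit 14) (.e (nat_lit 491558) (nat_lit 10) .nil))) .nil)) 
(.lf (nat_lit 234980) (.g (nat_lit 3133) (.e (nat_lit 106536) (nat_lit 11) (.e (nat_lit 16483) (nat_lit 27) (.e (nat_lit 335995) (nat_lit 1) (.e (nat_lit 57849) (nat_lit 252) (.e (nat_lit 57368) (nat_lit 1) (.e (nat_lit 57854) (nat_lit 252) (.e (nat_lit 57389) (nat_lit 5) (.e (nat_lit 114722) (nat_lit 24) .nil)))))))) (.g (nat_lit 4) .nil .nil))))) (.nd (nat_lit 5) (.nd (nat_lit 6) 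
(.lf (nat_lit 234900) (.g (nat_lit 2680) (.e (nat_lit 106536) (nat_lit 11) (.e (nat_lit 16470) (nat_lit 14) (.e (nat_lit 491572) (nat_lit 14) (.e (nat_lit 401454) (nat_lit 12) .nil)))) .nil)) 
(.lf (nat_lit 234964) (.g (nat_lit 3289) (.e (nat_lit 106536) (nat_lit 11) (.e (nat_lit 16473) (nat_lit 14) (.e (nat_lit 491572) (nat_lit 14) (.e (nat_lit 401453) (nat_lit 12) (.e (nat_lit 475214) (nat_lit 42) .nil))))) .nil))) (.nd (nat_lit 6) 
(.lf (nat_lit 234932) (.g (nat_lit 2815) (.e (nat_lit 106536) (nat_lit 11) (.e (nat_lit 16473) (nat_lit 14) (.e (nat_lit 491560) (nat_lit 10) (.e (nat_lit 344087) (nat_lit 18) (.e (nat_lit 5931) (nat_lit 322) .nil))))) .nil)) 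
(.lf (nat_lit 234996) (.g (nat_lit 2090) (.e (nat_lit 114432) (nat_lit 11) (.e (nat_lit 16416) (nat_lit 3) (.e (nat_lit 204861) (nat_lit 26) (.e (nat_lit 336076) (nat_lit 9) (.e (nat_lit 336326) (nat_lit 18) .nil))))) .nil))))) (.nd (nat_lit 4) (.nd (nat_lit 5) (.nd (nat_lit 6) 
(.lf (nat_lit 234892) (.g (nat_lit 3756) (.e (nat_lit 106536) (nat_lit 11) (.e (nat_lit 16470) (nat_lit 14) (.e (nat_lit 491566) (nat_lit 12) (.e (nat_lit 385093) (nat_lit 49) (.e (nat_lit 778297) (nat_lit 0) .nil))))) .nil)) 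
(.lf (nat_lit 234956) (.g (nat_lit 2115) (.e (nat_lit 106536) (nat_lit 11) (.e (nat_lit 16473) (nat_lit 14) (.e (nat_lit 491572) (nat_lit 14) (.e (nat_lit 401437) (nat_lit 9) .nil)))) .nil))) (.nd (nat_lit 6) 
(.lf (nat_lit 234924) (.g (nat_lit 2936) (.e (nat_lit 106536) (nat_lit 11) (.e (nat_lit 16473) (nat_lit 14) (.e (nat_lit 491559) (nat_lit 10) (.e (nat_lit 344093) (nat_lit 18) .nil)))) .nil)) 
(.lf (nat_lit 234988) (.g (nat_lit 2101) (.e (nat_lit 106536) (nat_lit 11) (.e (nat_lit 24320) (nat_lit 34) (.e (nat_lit 393260) (nat_lit 21) (.e (nat_lit 409616) (nat_lit 10) (.e (nat_lit 604) (nat_lit 45) (.e (nat_lit 532508) (nat_lit 2) .nil)))))) (.g (nat_lit 4) .nil .nil))))) (.nd (nat_lit 5) (.nd (nat_lit 6) 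
(.lf (nat_lit 234908) (.g (nat_lit 2900) (.e (nat_lit 106536) (nat_lit 11) (.e (nat_lit 16472) (nat_lit 14) (.e (nat_lit 491572) (nat_lit 14) (.e (nat_lit 401437) (nat_lit 9) (.e (nat_lit 426448) (nat_lit 20) .nil))))) .nil)) 
(.lf (nat_lit 234972) (.g (nat_lit 2625) (.e (nat_lit 106536) (nat_lit 11) (.e (nat_lit 16482) (nat_lit 27) (.e (nat_lit 335988) (nat_lit 1) (.e (nat_lit 57854) (nat_lit 252) (.e (nat_lit 57366) (nat_lit 1) (.e (nat_lit 57854) (nat_lit 252) (.e (nat_lit 57389) (nat_lit 5) (.e (nat_lit 114723) (nat_lit 24) .nil)))))))) (.g (nat_lit 4) .nil .nil)))) (.nd (nat_lit 6) 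
(.lf (nat_lit 234940) (.g (nat_lit 2542) (.e (nat_lit 106536) (nat_lit 11) (.e (nat_lit 16473) (nat_lit 14) (.e (nat_lit 491560) (nat_lit 10) (.e (nat_lit 344169) (nat_lit 40) .nil)))) .nil)) 
(.lf (nat_lit 235004) (.g (nat_lit 2269) (.e (nat_lit 106537) (nat_lit 12) (.e (nat_lit 57464) (nat_lit 23) (.e (nat_lit 516115) (nat_lit 1) (.e (nat_lit 164398) (nat_lit 256) (.e (nat_lit 57373) (nat_lit 2) .nil))))) .nil))))))) (.nd (nat_lit 2) (.nd (nat_lit 3) (.nd (nat_lit 4) (.nd (nat_lit 5) (.nd (nat_lit 6) 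
(.lf (nat_lit 234882) (.g (nat_lit 3583) (.e (nat_lit 106536) (nat_lit 11) (.e (nat_lit 16469) (nat_lit 14) (.e (nat_lit 491566) (nat_lit 12) (.e (nat_lit 385093) (nat_lit 49) (.e (nat_lit 778297) (nat_lit 0) .nil))))) .nil)) 
(.lf (nat_lit 234946) (.g (nat_lit 4028) (.e (nat_lit 106536) (nat_lit 11) (.e (nat_lit 16473) (nat_lit 14) (.e (nat_lit 491563) (nat_lit 12) (.e (nat_lit 385091) (nat_lit 49) .nil)))) .nil))) (.nd (nat_lit 6) 
(.lf (nat_lit 234914) (.g (nat_lit 2358) (.e (nat_lit 106536) (nat_lit 11) (.e (nat_lit 16473) (nat_lit 14) (.e (nat_lit 491556) (nat_lit 9) (.e (nat_lit 335872) (nat_lit 0) .nil)))) .nil)) 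
(.lf (nat_lit 234978) (.g (nat_lit 3660) (.e (nat_lit 106536) (nat_lit 11) (.e (nat_lit 16483) (nat_lit 27) (.e (nat_lit 335995) (nat_lit 1) (.e (nat_lit 57849) (nat_lit 252) (.e (nat_lit 57365) (nat_lit 1) (.e (nat_lit 57854) (nat_lit 252) (.e (nat_lit 57389) (nat_lit 5) (.e (nat_lit 114723) (nat_lit 24) .nil)))))))) (.g (nat_lit 6) .nil .nil))))) (.nd (nat_lit 5) (.nd (nat_lit 6) 
(.lf (nat_lit 234898) (.g (nat_lit 4234) (.e (nat_lit 106536) (nat_lit 11) (.e (nat_lit 16470) (nat_lit 14) (.e (nat_lit 491566) (nat_lit 12) (.e (nat_lit 385105) (nat_lit 50) (.e (nat_lit 786460) (nat_lit 20) (.e (nat_lit 114723) (nat_lit 24) .nil)))))) (.g (nat_lit 4) .nil .nil))) 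
(.lf (nat_lit 234962) (.g (nat_lit 2180) (.e (nat_lit 106536) (nat_lit 11) (.e (nat_lit 16473) (nat_lit 14) (.e (nat_lit 491572) (nat_lit 14) (.e (nat_lit 401450) (nat_lit 12) .nil)))) .nil))) (.nd (nat_lit 6) 
(.lf (nat_lit 234930) (.g (nat_lit 3730) (.e (nat_lit 106536) (nat_lit 11) (.e (nat_lit 16473) (nat_lit 14) (.e (nat_lit 491559) (nat_lit 10) (.e (nat_lit 344169) (nat_lit 40) (.e (nat_lit 671751) (nat_lit 0) .nil))))) .nil)) 
(.lf (nat_lit 234994) (.g (nat_lit 667) (.e (nat_lit 114432) (nat_lit 11) (.e (nat_lit 16416) (nat_lit 3) (.e (nat_lit 204861) (nat_lit 26) .nil))) .nil))))) (.nd (nat_lit 4) (.nd (nat_lit 5) (.nd (nat_lit 6) 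
(.lf (nat_lit 234890) (.g (nat_lit 3737) (.e (nat_lit 106536) (nat_lit 11) (.e (nat_lit 16470) (nat_lit 14) (.e (nat_lit 491566) (nat_lit 12) (.e (nat_lit 385091) (nat_lit 49) .nil)))) .nil)) 
(.lf (nat_lit 234954) (.g (nat_lit 1025) (.e (nat_lit 106536) (nat_lit 11) (.e (nat_lit 16473) (nat_lit 14) (.e (nat_lit 491572) (nat_lit 14) .nil))) .nil))) (.nd (nat_lit 6) 
(.lf (nat_lit 234922) (.g (nat_lit 2671) (.e (nat_lit 106536) (nat_lit 11) (.e (nat_lit 16473) (nat_lit 14) (.e (nat_lit 491558) (nat_lit 10) (.e (nat_lit 352000) (nat_lit 18) .nil)))) .nil)) 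
(.lf (nat_lit 234986) (.g (nat_lit 2445) (.e (nat_lit 106536) (nat_lit 11) (.e (nat_lit 16486) (nat_lit 27) (.e (nat_lit 335995) (nat_lit 1) (.e (nat_lit 57849) (nat_lit 252) (.e (nat_lit 57365) (nat_lit 1) (.e (nat_lit 57854) (nat_lit 252) (.e (nat_lit 57389) (nat_lit 5) (.e (nat_lit 114723) (nat_lit 24) .nil)))))))) (.g (nat_lit 4) .nil .nil))))) (.nd (nat_lit 5) (.nd (nat_lit 6) 
(.lf (nat_lit 234906) (.g (nat_lit 1807) (.e (nat_lit 106536) (nat_lit 11) (.e (nat_lit 16472) (nat_lit 14) (.e (nat_lit 491556) (nat_lit 9) (.e (nat_lit 336035) (nat_lit 4) .nil)))) .nil)) 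
(.lf (nat_lit 234970) (.g (nat_lit 5224) (.e (nat_lit 106536) (nat_lit 11) (.e (nat_lit 16473) (nat_lit 14) (.e (nat_lit 491572) (nat_lit 14) (.e (nat_lit 401454) (nat_lit 12) (.e (nat_lit 475214) (nat_lit 42) (.e (nat_lit 720950) (nat_lit 24) .nil)))))) (.g (nat_lit 5) .nil .nil)))) (.nd (nat_lit 6) 
(.lf (nat_lit 234938) (.g (nat_lit 2807) (.e (nat_lit 106536) (nat_lit 11) (.e (nat_lit 16473) (nat_lit 14) (.e (nat_lit 491560) (nat_lit 10) (.e (nat_lit 344160) (nat_lit 37) .nil)))) .nil)) 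
(.lf (nat_lit 235002) (.g (nat_lit 1325) (.e (nat_lit 106537) (nat_lit 12) (.e (nat_lit 57354) (nat_lit 0) (.e (nat_lit 5195) (nat_lit 294) (.e (nat_lit 57410) (nat_lit 12) .nil)))) .nil)))))) (.nd (nat_lit 3) (.nd (nat_lit 4) (.nd (nat_lit 5) (.nd (nat_lit 6) 
(.lf (nat_lit 234886) (.g (nat_lit 4232) (.e (nat_lit 106536) (nat_lit 11) (.e (nat_lit 16469) (nat_lit 14) (.e (nat_lit 491566) (nat_lit 12) (.e (nat_lit 385105) (nat_lit 50) (.e (nat_lit 786460) (nat_lit 20) (.e (nat_lit 114723) (nat_lit 24) .nil)))))) (.g (nat_lit 4) .nil .nil))) 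
(.lf (nat_lit 234950) (.g (nat_lit 4375) (.e (nat_lit 106536) (nat_lit 11) (.e (nat_lit 16473) (nat_lit 14) (.e (nat_lit 491563) (nat_lit 12) (.e (nat_lit 385102) (nat_lit 50) (.e (nat_lit 786460) (nat_lit 20) .nil))))) .nil))) (.nd (nat_lit 6) 
(.lf (nat_lit 234918) (.g (nat_lit 2910) (.e (nat_lit 106536) (nat_lit 11) (.e (nat_lit 16473) (nat_lit 14) (.e (nat_lit 491558) (nat_lit 10) (.e (nat_lit 344089) (nat_lit 18) .nil)))) .nil)) 
(.lf (nat_lit 234982) (.g (nat_lit 4294) (.e (nat_lit 106536) (nat_lit 11) (.e (nat_lit 16486) (nat_lit 27) (.e (nat_lit 335986) (nat_lit 1) (.e (nat_lit 57847) (nat_lit 252) (.e (nat_lit 57365) (nat_lit 1) (.e (nat_lit 57854) (nat_lit 252) (.e (nat_lit 57389) (nat_lit 5) (.e (nat_lit 114723) (nat_lit 24) .nil)))))))) (.g (nat_lit 6) .nil .nil))))) (.nd (nat_lit 5) (.nd (nat_lit 6) 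
(.lf (nat_lit 234902) (.g (nat_lit 2162) (.e (nat_lit 106536) (nat_lit 11) (.e (nat_lit 16471) (nat_lit 14) (.e (nat_lit 491560) (nat_lit 10) (.e (nat_lit 344168) (nat_lit 40) .nil)))) .nil)) 
(.lf (nat_lit 234966) (.g (nat_lit 4874) (.e (nat_lit 106536) (nat_lit 11) (.e (nat_lit 16473) (nat_lit 14) (.e (nat_lit 491572) (nat_lit 14) (.e (nat_lit 401454) (nat_lit 12) (.e (nat_lit 475212) (nat_lit 42) (.e (nat_lit 720951) (nat_lit 24) .nil)))))) (.g (nat_lit 5) .nil .nil)))) (.nd (nat_lit 6) 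
(.lf (nat_lit 234934) (.g (nat_lit 2974) (.e (nat_lit 106536) (nat_lit 11) (.e (nat_lit 16473) (nat_lit 14) (.e (nat_lit 491560) (nat_lit 10) (.e (nat_lit 344089) (nat_lit 18) .nil)))) .nil)) 
(.lf (nat_lit 234998) (.g (nat_lit 2110) (.e (nat_lit 114432) (nat_lit 11) (.e (nat_lit 16416) (nat_lit 3) (.e (nat_lit 204861) (nat_lit 26) (.e (nat_lit 336194) (nat_lit 12) (.e (nat_lit 385067) (nat_lit 26) .nil))))) .nil))))) (.nd (nat_lit 4) (.nd (nat_lit 5) (.nd (nat_lit 6) 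
(.lf (nat_lit 234894) (.g (nat_lit 3589) (.e (nat_lit 106536) (nat_lit 11) (.e (nat_lit 16470) (nat_lit 14) (.e (nat_lit 491566) (nat_lit 12) (.e (nat_lit 385103) (nat_lit 50) .nil)))) .nil)) 
(.lf (nat_lit 234958) (.g (nat_lit 3208) (.e (nat_lit 106536) (nat_lit 11) (.e (nat_lit 16473) (nat_lit 14) (.e (nat_lit 491572) (nat_lit 14) (.e (nat_lit 401438) (nat_lit 9) (.e (nat_lit 426446) (nat_lit 20) .nil))))) .nil))) (.nd (nat_lit 6) 
(.lf (nat_lit 234926) (.g (nat_lit 2904) (.e (nat_lit 106536) (nat_lit 11) (.e (nat_lit 16473) (nat_lit 14) (.e (nat_lit 491559) (nat_lit 10) (.e (nat_lit 344168) (nat_lit 40) .nil)))) .nil)) 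
(.lf (nat_lit 234990) (.g (nat_lit 1070) (.e (nat_lit 106536) (nat_lit 11) (.e (nat_lit 24320) (nat_lit 34) (.e (nat_lit 393263) (nat_lit 22) (.e (nat_lit 417815) (nat_lit 10) (.e (nat_lit 604) (nat_lit 45) (.e (nat_lit 532511) (nat_lit 2) .nil)))))) (.g (nat_lit 4) .nil .nil))))) (.nd (nat_lit 5) (.nd (nat_lit 6) 
(.lf (nat_lit 234910) (.g (nat_lit 3289) (.e (nat_lit 106536) (nat_lit 11) (.e (nat_lit 16472) (nat_lit 14) (.e (nat_lit 491572) (nat_lit 14) (.e (nat_lit 401454) (nat_lit 12) (.e (nat_lit 475214) (nat_lit 42) .nil))))) .nil)) 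
(.lf (nat_lit 234974) (.g (nat_lit 3750) (.e (nat_lit 106536) (nat_lit 11) (.e (nat_lit 16482) (nat_lit 27) (.e (nat_lit 335995) (nat_lit 1) (.e (nat_lit 57849) (nat_lit 252) (.e (nat_lit 57368) (nat_lit 1) (.e (nat_lit 57854) (nat_lit 252) (.e (nat_lit 57389) (nat_lit 5) (.e (nat_lit 114723) (nat_lit 24) .nil)))))))) (.g (nat_lit 6) .nil .nil)))) (.nd (nat_lit 6) 
(.lf (nat_lit 234942) (.g (nat_lit 2991) (.e (nat_lit 106536) (nat_lit 11) (.e (nat_lit 16473) (nat_lit 14) (.e (nat_lit 491562) (nat_lit 12) (.e (nat_lit 385094) (nat_lit 49) .nil)))) .nil)) 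
(.lf (nat_lit 235006) (.g (nat_lit 4205) (.e (nat_lit 106537) (nat_lit 12) (.e (nat_lit 57464) (nat_lit 23) (.e (nat_lit 516115) (nat_lit 1) (.e (nat_lit 164399) (nat_lit 256) (.e (nat_lit 57373) (nat_lit 2) (.e (nat_lit 90174) (nat_lit 14) (.e (nat_lit 180243) (nat_lit 5) (.e (nat_lit 532511) (nat_lit 2) .nil)))))))) (.g (nat_lit 7) .nil .nil))))))))) 
(.nd (nat_lit 1) (.nd (nat_lit 2) (.nd (nat_lit 3) (.nd (nat_lit 4) (.nd (nat_lit 5) 
(.nd (nat_lit 6) 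
(.lf (nat_lit 234881) (.g (nat_lit 3284) (.e (nat_lit 106536) (nat_lit 11) (.e (nat_lit 16469) (nat_lit 14) (.e (nat_lit 491566) (nat_lit 12) (.e (nat_lit 385091) (nat_lit 49) .nil)))) .nil)) 
(.lf (nat_lit 234945) (.g (nat_lit 1326) (.e (nat_lit 106536) (nat_lit 11) (.e (nat_lit 16473) (nat_lit 14) (.e (nat_lit 491563) (nat_lit 12) .nil))) .nil))) (.nd (nat_lit 6) 
(.lf (nat_lit 234913) (.g (nat_lit 2788) (.e (nat_lit 106536) (nat_lit 11) (.e (nat_lit 16473) (nat_lit 14) (.e (nat_lit 491546) (nat_lit 9) (.e (nat_lit 336032) (nat_lit 4) .nil)))) .nil)) 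
(.lf (nat_lit 234977) (.g (nat_lit 2205) (.e (nat_lit 106536) (nat_lit 11) (.e (nat_lit 16483) (nat_lit 27) (.e (nat_lit 335995) (nat_lit 1) (.e (nat_lit 57849) (nat_lit 252) (.e (nat_lit 57363) (nat_lit 1) .nil))))) .nil)))) (.nd (nat_lit 5) (.nd (nat_lit 6) 
(.lf (nat_lit 234897) (.g (nat_lit 4406) (.e (nat_lit 106536) (nat_lit 11) (.e (nat_lit 16470) (nat_lit 14) (.e (nat_lit 491566) (nat_lit 12) (.e (nat_lit 385105) (nat_lit 50) (.e (nat_lit 786460) (nat_lit 20) (.e (nat_lit 114721) (nat_lit 24) .nil)))))) (.g (nat_lit 4) .nil .nil))) 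
(.lf (nat_lit 234961) (.g (nat_lit 3145) (.e (nat_lit 106536) (nat_lit 11) (.e (nat_lit 16473) (nat_lit 14) (.e (nat_lit 491572) (nat_lit 14) (.e (nat_lit 401444) (nat_lit 9) (.e (nat_lit 426447) (nat_lit 20) .nil))))) .nil))) (.nd (nat_lit 6) 
(.lf (nat_lit 234929) (.g (nat_lit 4469) (.e (nat_lit 106536) (nat_lit 11) (.e (nat_lit 16473) (nat_lit 14) (.e (nat_lit 491559) (nat_lit 10) (.e (nat_lit 344169) (nat_lit 40) (.e (nat_lit 671748) (nat_lit 0) (.e (nat_lit 1278) (nat_lit 94) (.e (nat_lit 114723) (nat_lit 24) .nil))))))) (.g (nat_lit 4) .nil .nil))) 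
(.lf (nat_lit 234993) (.g (nat_lit 1173) (.e (nat_lit 114432) (nat_lit 11) (.e (nat_lit 16416) (nat_lit 3) (.e (nat_lit 204859) (nat_lit 26) (.e (nat_lit 336206) (nat_lit 12) (.e (nat_lit 385068) (nat_lit 26) .nil))))) .nil))))) (.nd (nat_lit 4) (.nd (nat_lit 5) (.nd (nat_lit 6) 
(.lf (nat_lit 234889) (.g (nat_lit 3384) (.e (nat_lit 106536) (nat_lit 11) (.e (nat_lit 16470) (nat_lit 14) (.e (nat_lit 491566) (nat_lit 12) (.e (nat_lit 385090) (nat_lit 49) .nil)))) .nil)) 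
(.lf (nat_lit 234953) (.g (nat_lit 3992) (.e (nat_lit 106536) (nat_lit 11) (.e (nat_lit 16473) (nat_lit 14) (.e (nat_lit 491563) (nat_lit 12) (.e (nat_lit 385106) (nat_lit 50) .nil)))) .nil))) (.nd (nat_lit 6) 
(.lf (nat_lit 234921) (.g (nat_lit 2819) (.e (nat_lit 106536) (nat_lit 11) (.e (nat_lit 16473) (nat_lit 14) (.e (nat_lit 491558) (nat_lit 10) (.e (nat_lit 344104) (nat_lit 18) .nil)))) .nil)) 
(.lf (nat_lit 234985) (.g (nat_lit 3363) (.e (nat_lit 106536) (nat_lit 11) (.e (nat_lit 16486) (nat_lit 27) (.e (nat_lit 335995) (nat_lit 1) (.e (nat_lit 57848) (nat_lit 252) (.e (nat_lit 57368) (nat_lit 1) (.e (nat_lit 57854) (nat_lit 252) (.e (nat_lit 57389) (nat_lit 5) (.e (nat_lit 114723) (nat_lit 24) .nil)))))))) (.g (nat_lit 6) .nil .nil))))) (.nd (nat_lit 5) (.nd (nat_lit 6) 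
(.lf (nat_lit 234905) (.g (nat_lit 1755) (.e (nat_lit 106536) (nat_lit 11) (.e (nat_lit 16472) (nat_lit 14) (.e (nat_lit 491546) (nat_lit 9) (.e (nat_lit 336032) (nat_lit 4) .nil)))) .nil)) 
(.lf (nat_lit 234969) (.g (nat_lit 5224) (.e (nat_lit 106536) (nat_lit 11) (.e (nat_lit 16473) (nat_lit 14) (.e (nat_lit 491572) (nat_lit 14) (.e (nat_lit 401454) (nat_lit 12) (.e (nat_lit 475214) (nat_lit 42) (.e (nat_lit 720947) (nat_lit 24) .nil)))))) (.g (nat_lit 5) .nil .nil)))) (.nd (nat_lit 6) 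
(.lf (nat_lit 234937) (.g (nat_lit 2835) (.e (nat_lit 106536) (nat_lit 11) (.e (nat_lit 16473) (nat_lit 14) (.e (nat_lit 491560) (nat_lit 10) (.e (nat_lit 344159) (nat_lit 37) .nil)))) .nil)) 
(.lf (nat_lit 235001) (.g (nat_lit 627) (.e (nat_lit 114432) (nat_lit 11) (.e (nat_lit 16466) (nat_lit 13) (.e (nat_lit 483393) (nat_lit 23) .nil))) .nil)))))) (.nd (nat_lit 3) (.nd (nat_lit 4) (.nd (nat_lit 5) (.nd (nat_lit 6) 
(.lf (nat_lit 234885) (.g (nat_lit 4394) (.e (nat_lit 106536) (nat_lit 11) (.e (nat_lit 16469) (nat_lit 14) (.e (nat_lit 491566) (nat_lit 12) (.e (nat_lit 385104) (nat_lit 50) (.e (nat_lit 786460) (nat_lit 20) (.e (nat_lit 114721) (nat_lit 24) .nil)))))) (.g (nat_lit 4) .nil .nil))) 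
(.lf (nat_lit 234949) (.g (nat_lit 4028) (.e (nat_lit 106536) (nat_lit 11) (.e (nat_lit 16473) (nat_lit 14) (.e (nat_lit 491563) (nat_lit 12) (.e (nat_lit 385094) (nat_lit 49) .nil)))) .nil))) (.nd (nat_lit 6) 
(.lf (nat_lit 234917) (.g (nat_lit 2916) (.e (nat_lit 106536) (nat_lit 11) (.e (nat_lit 16473) (nat_lit 14) (.e (nat_lit 491558) (nat_lit 10) (.e (nat_lit 344088) (nat_lit 18) .nil)))) .nil)) 
(.lf (nat_lit 234981) (.g (nat_lit 2422) (.e (nat_lit 106536) (nat_lit 11) (.e (nat_lit 16483) (nat_lit 27) (.e (nat_lit 335996) (nat_lit 1) (.e (nat_lit 57854) (nat_lit 252) (.e (nat_lit 57366) (nat_lit 1) (.e (nat_lit 57847) (nat_lit 252) (.e (nat_lit 57390) (nat_lit 5) (.e (nat_lit 114722) (nat_lit 24) .nil)))))))) (.g (nat_lit 4) .nil .nil))))) (.nd (nat_lit 5) (.nd (nat_lit 6) 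
(.lf (nat_lit 234901) (.g (nat_lit 1393) (.e (nat_lit 106536) (nat_lit 11) (.e (nat_lit 16471) (nat_lit 14) (.e (nat_lit 491546) (nat_lit 9) (.e (nat_lit 336032) (nat_lit 4) .nil)))) .nil)) 
(.lf (nat_lit 234965) (.g (nat_lit 3178) (.e (nat_lit 106536) (nat_lit 11) (.e (nat_lit 16473) (nat_lit 14) (.e (nat_lit 491572) (nat_lit 14) (.e (nat_lit 401454) (nat_lit 12) (.e (nat_lit 475212) (nat_lit 42) .nil))))) .nil))) (.nd (nat_lit 6) 
(.lf (nat_lit 234933) (.g (nat_lit 3131) (.e (nat_lit 106536) (nat_lit 11) (.e (nat_lit 16473) (nat_lit 14) (.e (nat_lit 491560) (nat_lit 10) (.e (nat_lit 344088) (nat_lit 18) (.e (nat_lit 5932) (nat_lit 322) .nil))))) .nil)) 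
(.lf (nat_lit 234997) (.g (nat_lit 2104) (.e (nat_lit 114432) (nat_lit 11) (.e (nat_lit 16416) (nat_lit 3) (.e (nat_lit 204861) (nat_lit 26) (.e (nat_lit 336194) (nat_lit 12) (.e (nat_lit 385064) (nat_lit 26) .nil))))) .nil))))) (.nd (nat_lit 4) (.nd (nat_lit 5) (.nd (nat_lit 6) 
(.lf (nat_lit 234893) (.g (nat_lit 2777) (.e (nat_lit 106536) (nat_lit 11) (.e (nat_lit 16470) (nat_lit 14) (.e (nat_lit 491566) (nat_lit 12) (.e (nat_lit 385102) (nat_lit 50) .nil)))) .nil)) 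
(.lf (nat_lit 234957) (.g (nat_lit 3365) (.e (nat_lit 106536) (nat_lit 11) (.e (nat_lit 16473) (nat_lit 14) (.e (nat_lit 491572) (nat_lit 14) (.e (nat_lit 401437) (nat_lit 9) (.e (nat_lit 426448) (nat_lit 20) .nil))))) .nil))) (.nd (nat_lit 6) 
(.lf (nat_lit 234925) (.g (nat_lit 2904) (.e (nat_lit 106536) (nat_lit 11) (.e (nat_lit 16473) (nat_lit 14) (.e (nat_lit 491559) (nat_lit 10) (.e (nat_lit 344103) (nat_lit 18) .nil)))) .nil)) 
(.lf (nat_lit 234989) (.g (nat_lit 2230) (.e (nat_lit 106536) (nat_lit 11) (.e (nat_lit 24320) (nat_lit 34) (.e (nat_lit 393260) (nat_lit 21) (.e (nat_lit 409617) (nat_lit 10) (.e (nat_lit 604) (nat_lit 45) (.e (nat_lit 532508) (nat_lit 2) .nil)))))) (.g (nat_lit 4) .nil .nil))))) (.nd (nat_lit 5) (.nd (nat_lit 6) 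
(.lf (nat_lit 234909) (.g (nat_lit 1633) (.e (nat_lit 106536) (nat_lit 11) (.e (nat_lit 16472) (nat_lit 14) (.e (nat_lit 491572) (nat_lit 14) (.e (nat_lit 401453) (nat_lit 12) .nil)))) .nil)) 
(.lf (nat_lit 234973) (.g (nat_lit 2567) (.e (nat_lit 106536) (nat_lit 11) (.e (nat_lit 16482) (nat_lit 27) (.e (nat_lit 335995) (nat_lit 1) (.e (nat_lit 57848) (nat_lit 252) (.e (nat_lit 57365) (nat_lit 1) (.e (nat_lit 57854) (nat_lit 252) (.e (nat_lit 57389) (nat_lit 5) (.e (nat_lit 114723) (nat_lit 24) .nil)))))))) (.g (nat_lit 4) .nil .nil)))) (.nd (nat_lit 6) 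
(.lf (nat_lit 234941) (.g (nat_lit 4539) (.e (nat_lit 106536) (nat_lit 11) (.e (nat_lit 16473) (nat_lit 14) (.e (nat_lit 491560) (nat_lit 10) (.e (nat_lit 344169) (nat_lit 40) (.e (nat_lit 671744) (nat_lit 0) (.e (nat_lit 1281) (nat_lit 94) (.e (nat_lit 114722) (nat_lit 24) .nil))))))) (.g (nat_lit 5) .nil .nil))) 
(.lf (nat_lit 235005) (.g (nat_lit 1836) (.e (nat_lit 106537) (nat_lit 12) (.e (nat_lit 57464) (nat_lit 23) (.e (nat_lit 516115) (nat_lit 1) (.e (nat_lit 164399) (nat_lit 256) (.e (nat_lit 57373) (nat_lit 2) .nil))))) .nil))))))) (.nd (nat_lit 2) (.nd (nat_lit 3) (.nd (nat_lit 4) (.nd (nat_lit 5) (.nd (nat_lit 6) 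
(.lf (nat_lit 234883) (.g (nat_lit 2366) (.e (nat_lit 106536) (nat_lit 11) (.e (nat_lit 16469) (nat_lit 14) (.e (nat_lit 491566) (nat_lit 12) (.e (nat_lit 385104) (nat_lit 50) .nil)))) .nil)) 
(.lf (nat_lit 234947) (.g (nat_lit 4028) (.e (nat_lit 106536) (nat_lit 11) (.e (nat_lit 16473) (nat_lit 14) (.e (nat_lit 491563) (nat_lit 12) (.e (nat_lit 385092) (nat_lit 49) .nil)))) .nil))) (.nd (nat_lit 6) 
(.lf (nat_lit 234915) (.g (nat_lit 2502) (.e (nat_lit 106536) (nat_lit 11) (.e (nat_lit 16473) (nat_lit 14) (.e (nat_lit 491556) (nat_lit 9) (.e (nat_lit 336035) (nat_lit 4) .nil)))) .nil)) 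
(.lf (nat_lit 234979) (.g (nat_lit 2589) (.e (nat_lit 106536) (nat_lit 11) (.e (nat_lit 16483) (nat_lit 27) (.e (nat_lit 335995) (nat_lit 1) (.e (nat_lit 57849) (nat_lit 252) (.e (nat_lit 57367) (nat_lit 1) (.e (nat_lit 57848) (nat_lit 252) (.e (nat_lit 57390) (nat_lit 5) (.e (nat_lit 114722) (nat_lit 24) .nil)))))))) (.g (nat_lit 4) .nil .nil))))) (.nd (nat_lit 5) (.nd (nat_lit 6) 
(.lf (nat_lit 234899) (.g (nat_lit 1283) (.e (nat_lit 106536) (nat_lit 11) (.e (nat_lit 16470) (nat_lit 14) (.e (nat_lit 491572) (nat_lit 14) .nil))) .nil)) 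
(.lf (nat_lit 234963) (.g (nat_lit 2947) (.e (nat_lit 106536) (nat_lit 11) (.e (nat_lit 16473) (nat_lit 14) (.e (nat_lit 491572) (nat_lit 14) (.e (nat_lit 401452) (nat_lit 12) (.e (nat_lit 475214) (nat_lit 42) .nil))))) .nil))) (.nd (nat_lit 6) 
(.lf (nat_lit 234931) (.g (nat_lit 716) (.e (nat_lit 106536) (nat_lit 11) (.e (nat_lit 16473) (nat_lit 14) (.e (nat_lit 491560) (nat_lit 10) .nil))) .nil)) 
(.lf (nat_lit 234995) (.g (nat_lit 1350) (.e (nat_lit 114432) (nat_lit 11) (.e (nat_lit 16416) (nat_lit 3) (.e (nat_lit 204861) (nat_lit 26) (.e (nat_lit 336075) (nat_lit 9) .nil)))) .nil))))) (.nd (nat_lit 4) (.nd (nat_lit 5) (.nd (nat_lit 6) 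
(.lf (nat_lit 234891) (.g (nat_lit 2829) (.e (nat_lit 106536) (nat_lit 11) (.e (nat_lit 16470) (nat_lit 14) (.e (nat_lit 491566) (nat_lit 12) (.e (nat_lit 385093) (nat_lit 49) .nil)))) .nil)) 
(.lf (nat_lit 234955) (.g (nat_lit 2152) (.e (nat_lit 106536) (nat_lit 11) (.e (nat_lit 16473) (nat_lit 14) (.e (nat_lit 491572) (nat_lit 14) (.e (nat_lit 401436) (nat_lit 9) .nil)))) .nil))) (.nd (nat_lit 6) 
(.lf (nat_lit 234923) (.g (nat_lit 2897) (.e (nat_lit 106536) (nat_lit 11) (.e (nat_lit 16473) (nat_lit 14) (.e (nat_lit 491558) (nat_lit 10) (.e (nat_lit 344169) (nat_lit 40) .nil)))) .nil)) 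
(.lf (nat_lit 234987) (.g (nat_lit 2979) (.e (nat_lit 106536) (nat_lit 11) (.e (nat_lit 16486) (nat_lit 27) (.e (nat_lit 335995) (nat_lit 1) (.e (nat_lit 57849) (nat_lit 252) (.e (nat_lit 57368) (nat_lit 1) (.e (nat_lit 57854) (nat_lit 252) (.e (nat_lit 57389) (nat_lit 5) (.e (nat_lit 114723) (nat_lit 24) .nil)))))))) (.g (nat_lit 4) .nil .nil))))) (.nd (nat_lit 5) (.nd (nat_lit 6) 
(.lf (nat_lit 234907) (.g (nat_lit 827) (.e (nat_lit 106536) (nat_lit 11) (.e (nat_lit 16472) (nat_lit 14) (.e (nat_lit 491572) (nat_lit 14) .nil))) .nil)) 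
(.lf (nat_lit 234971) (.g (nat_lit 3781) (.e (nat_lit 106536) (nat_lit 11) (.e (nat_lit 16473) (nat_lit 14) (.e (nat_lit 491572) (nat_lit 14) (.e (nat_lit 401454) (nat_lit 12) (.e (nat_lit 475215) (nat_lit 43) .nil))))) .nil))) (.nd (nat_lit 6) 
(.lf (nat_lit 234939) (.g (nat_lit 2458) (.e (nat_lit 106536) (nat_lit 11) (.e (nat_lit 16473) (nat_lit 14) (.e (nat_lit 491560) (nat_lit 10) (.e (nat_lit 344168) (nat_lit 40) .nil)))) .nil)) 
(.lf (nat_lit 235003) (.g (nat_lit 1260) (.e (nat_lit 106537) (nat_lit 12) (.e (nat_lit 57354) (nat_lit 0) (.e (nat_lit 5195) (nat_lit 294) (.e (nat_lit 57411) (nat_lit 12) .nil)))) .nil)))))) (.nd (nat_lit 3) (.nd (nat_lit 4) (.nd (nat_lit 5) (.nd (nat_lit 6) 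
(.lf (nat_lit 234887) (.g (nat_lit 1985) (.e (nat_lit 106536) (nat_lit 11) (.e (nat_lit 16469) (nat_lit 14) (.e (nat_lit 491572) (nat_lit 14) (.e (nat_lit 401454) (nat_lit 12) .nil)))) .nil)) 
(.lf (nat_lit 234951) (.g (nat_lit 4028) (.e (nat_lit 106536) (nat_lit 11) (.e (nat_lit 16473) (nat_lit 14) (.e (nat_lit 491563) (nat_lit 12) (.e (nat_lit 385104) (nat_lit 50) .nil)))) .nil))) (.nd (nat_lit 6) 
(.lf (nat_lit 234919) (.g (nat_lit 2897) (.e (nat_lit 106536) (nat_lit 11) (.e (nat_lit 16473) (nat_lit 14) (.e (nat_lit 491558) (nat_lit 10) (.e (nat_lit 344102) (nat_lit 18) .nil)))) .nil)) 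
(.lf (nat_lit 234983) (.g (nat_lit 3116) (.e (nat_lit 106536) (nat_lit 11) (.e (nat_lit 16486) (nat_lit 27) (.e (nat_lit 335986) (nat_lit 1) (.e (nat_lit 57847) (nat_lit 252) (.e (nat_lit 57368) (nat_lit 1) (.e (nat_lit 57854) (nat_lit 252) (.e (nat_lit 57389) (nat_lit 5) (.e (nat_lit 114722) (nat_lit 24) .nil)))))))) (.g (nat_lit 4) .nil .nil))))) (.nd (nat_lit 5) (.nd (nat_lit 6) 
(.lf (nat_lit 234903) (.g (nat_lit 590) (.e (nat_lit 106536) (nat_lit 11) (.e (nat_lit 16471) (nat_lit 14) (.e (nat_lit 491572) (nat_lit 14) .nil))) .nil)) 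
(.lf (nat_lit 234967) (.g (nat_lit 4776) (.e (nat_lit 106536) (nat_lit 11) (.e (nat_lit 16473) (nat_lit 14) (.e (nat_lit 491572) (nat_lit 14) (.e (nat_lit 401454) (nat_lit 12) (.e (nat_lit 475212) (nat_lit 42) (.e (nat_lit 720952) (nat_lit 24) .nil)))))) (.g (nat_lit 5) .nil .nil)))) (.nd (nat_lit 6) 
(.lf (nat_lit 234935) (.g (nat_lit 2916) (.e (nat_lit 106536) (nat_lit 11) (.e (nat_lit 16473) (nat_lit 14) (.e (nat_lit 491560) (nat_lit 10) (.e (nat_lit 344093) (nat_lit 18) .nil)))) .nil)) 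
(.lf (nat_lit 234999) (.g (nat_lit 533) (.e (nat_lit 114432) (nat_lit 11) (.e (nat_lit 16416) (nat_lit 3) (.e (nat_lit 204876) (nat_lit 31) .nil))) .nil))))) (.nd (nat_lit 4) (.nd (nat_lit 5) (.nd (nat_lit 6) 
(.lf (nat_lit 234895) (.g (nat_lit 2604) (.e (nat_lit 106536) (nat_lit 11) (.e (nat_lit 16470) (nat_lit 14) (.e (nat_lit 491566) (nat_lit 12) (.e (nat_lit 385104) (nat_lit 50) .nil)))) .nil)) 
(.lf (nat_lit 234959) (.g (nat_lit 3208) (.e (nat_lit 106536) (nat_lit 11) (.e (nat_lit 16473) (nat_lit 14) (.e (nat_lit 491572) (nat_lit 14) (.e (nat_lit 401438) (nat_lit 9) (.e (nat_lit 426448) (nat_lit 20) .nil))))) .nil))) (.nd (nat_lit 6) 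
(.lf (nat_lit 234927) (.g (nat_lit 2916) (.e (nat_lit 106536) (nat_lit 11) (.e (nat_lit 16473) (nat_lit 14) (.e (nat_lit 491559) (nat_lit 10) (.e (nat_lit 344169) (nat_lit 40) .nil)))) .nil)) 
(.lf (nat_lit 234991) (.g (nat_lit 1810) (.e (nat_lit 114432) (nat_lit 11) (.e (nat_lit 16415) (nat_lit 3) (.e (nat_lit 204861) (nat_lit 26) (.e (nat_lit 336194) (nat_lit 12) (.e (nat_lit 385067) (nat_lit 26) .nil))))) .nil)))) (.nd (nat_lit 5) (.nd (nat_lit 6) 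
(.lf (nat_lit 234911) (.g (nat_lit 1188) (.e (nat_lit 106536) (nat_lit 11) (.e (nat_lit 16473) (nat_lit 14) (.e (nat_lit 491544) (nat_lit 7) .nil))) .nil)) 
(.lf (nat_lit 234975) (.g (nat_lit 3113) (.e (nat_lit 106536) (nat_lit 11) (.e (nat_lit 16482) (nat_lit 27) (.e (nat_lit 335996) (nat_lit 1) (.e (nat_lit 57854) (nat_lit 252) (.e (nat_lit 57366) (nat_lit 1) (.e (nat_lit 57854) (nat_lit 252) (.e (nat_lit 57389) (nat_lit 5) (.e (nat_lit 114723) (nat_lit 24) .nil)))))))) (.g (nat_lit 4) .nil .nil)))) (.nd (nat_lit 6) 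
(.lf (nat_lit 234943) (.g (nat_lit 2983) (.e (nat_lit 106536) (nat_lit 11) (.e (nat_lit 16473) (nat_lit 14) (.e (nat_lit 491562) (nat_lit 12) (.e (nat_lit 385105) (nat_lit 50) .nil)))) .nil)) 
(.lf (nat_lit 235007) (.g (nat_lit 4005) (.e (nat_lit 106537) (nat_lit 12) (.e (nat_lit 57464) (nat_lit 23) (.e (nat_lit 516116) (nat_lit 1) (.e (nat_lit 164398) (nat_lit 256) (.e (nat_lit 57373) (nat_lit 2) (.e (nat_lit 90174) (nat_lit 14) (.e (nat_lit 180243) (nat_lit 5) (.e (nat_lit 532510) (nat_lit 2) .nil)))))))) (.g (nat_lit 7) .nil .nil))))))))))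

noncomputable def tv3068 : DT := (.nd (nat_lit 0) (.nd (nat_lit 1) (.nd (nat_lit 2) (.nd (nat_lit 3) (.nd (nat_lit 4) (.nd (nat_lit 5) (.nd (nat_lit 6) 
(.lf (nat_lit 235008) (.g (nat_lit 2334) (.e (nat_lit 106537) (nat_lit 12) (.e (nat_lit 57476) (nat_lit 28) (.e (nat_lit 557090) (nat_lit 12) (.e (nat_lit 164038) (nat_lit 55) .nil)))) .nil)) 
(.lf (nat_lit 235072) (.g (nat_lit 1379) (.e (nat_lit 106538) (nat_lit 12) (.e (nat_lit 57478) (nat_lit 28) (.e (nat_lit 557093) (nat_lit 12) (.e (nat_lit 164058) (nat_lit 56) .nil)))) .nil))) (.nd (nat_lit 6) 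
(.lf (nat_lit 235040) (.g (nat_lit 3913) (.e (nat_lit 106537) (nat_lit 12) (.e (nat_lit 57480) (nat_lit 28) (.e (nat_lit 557090) (nat_lit 12) (.e (nat_lit 164038) (nat_lit 55) (.e (nat_lit 778246) (nat_lit 0) (.e (nat_lit 1256) (nat_lit 92) (.e (nat_lit 98359) (nat_lit 26) (.e (nat_lit 426132) (nat_lit 3) (.e (nat_lit 204834) (nat_lit 19) .nil))))))))) (.g (nat_lit 5) .nil .nil))) 
(.lf (nat_lit 235104) (.g (nat_lit 3081) (.e (nat_lit 106539) (nat_lit 12) (.e (nat_lit 57479) (nat_lit 28) (.e (nat_lit 557091) (nat_lit 12) (.e (nat_lit 164054) (nat_lit 56) .nil)))) .nil)))) (.nd (nat_lit 5) (.nd (nat_lit 6) 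
(.lf (nat_lit 235024) (.g (nat_lit 2035) (.e (nat_lit 106537) (nat_lit 12) (.e (nat_lit 57478) (nat_lit 28) (.e (nat_lit 557091) (nat_lit 12) (.e (nat_lit 164053) (nat_lit 56) .nil)))) .nil)) 
(.lf (nat_lit 235088) (.g (nat_lit 2118) (.e (nat_lit 106538) (nat_lit 12) (.e (nat_lit 57480) (nat_lit 28) (.e (nat_lit 557091) (nat_lit 12) (.e (nat_lit 164053) (nat_lit 56) .nil)))) .nil))) (.nd (nat_lit 6) 
(.lf (nat_lit 235056) (.g (nat_lit 2253) (.e (nat_lit 106537) (nat_lit 12) (.e (nat_lit 57480) (nat_lit 28) (.e (nat_lit 557091) (nat_lit 12) (.e (nat_lit 164054) (nat_lit 56) (.e (nat_lit 786455) (nat_lit 17) .nil))))) .nil)) 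
(.lf (nat_lit 235120) (.g (nat_lit 3514) (.e (nat_lit 106539) (nat_lit 12) (.e (nat_lit 57480) (nat_lit 28) (.e (nat_lit 557090) (nat_lit 12) (.e (nat_lit 164053) (nat_lit 56) (.e (nat_lit 786455) (nat_lit 17) .nil))))) .nil))))) (.nd (nat_lit 4) (.nd (nat_lit 5) (.nd (nat_lit 6) 
(.lf (nat_lit 235016) (.g (nat_lit 2545) (.e (nat_lit 106537) (nat_lit 12) (.e (nat_lit 57477) (nat_lit 28) (.e (nat_lit 557090) (nat_lit 12) (.e (nat_lit 164038) (nat_lit 55) (.e (nat_lit 778241) (nat_lit 0) .nil))))) .nil)) 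
(.lf (nat_lit 235080) (.g (nat_lit 2335) (.e (nat_lit 106538) (nat_lit 12) (.e (nat_lit 57479) (nat_lit 28) (.e (nat_lit 557094) (nat_lit 12) (.e (nat_lit 164058) (nat_lit 56) (.e (nat_lit 786455) (nat_lit 17) .nil))))) .nil))) (.nd (nat_lit 6) 
(.lf (nat_lit 235048) (.g (nat_lit 3604) (.e (nat_lit 106537) (nat_lit 12) (.e (nat_lit 57480) (nat_lit 28) (.e (nat_lit 557090) (nat_lit 12) (.e (nat_lit 164054) (nat_lit 56) (.e (nat_lit 786455) (nat_lit 17) (.e (nat_lit 90170) (nat_lit 13) (.e (nat_lit 172067) (nat_lit 3) (.e (nat_lit 204834) (nat_lit 19) .nil)))))))) (.g (nat_lit 4) .nil .nil))) 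
(.lf (nat_lit 235112) (.g (nat_lit 2138) (.e (nat_lit 106539) (nat_lit 12) (.e (nat_lit 57479) (nat_lit 28) (.e (nat_lit 557094) (nat_lit 12) (.e (nat_lit 164058) (nat_lit 56) .nil)))) .nil)))) (.nd (nat_lit 5) (.nd (nat_lit 6) 
(.lf (nat_lit 235032) (.g (nat_lit 809) (.e (nat_lit 106537) (nat_lit 12) (.e (nat_lit 57479) (nat_lit 28) (.e (nat_lit 557094) (nat_lit 12) .nil))) .nil)) 
(.lf (nat_lit 235096) (.g (nat_lit 2935) (.e (nat_lit 106539) (nat_lit 12) (.e (nat_lit 57478) (nat_lit 28) (.e (nat_lit 557090) (nat_lit 12) (.e (nat_lit 164038) (nat_lit 55) .nil)))) .nil))) (.nd (nat_lit 6) 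
(.lf (nat_lit 235064) (.g (nat_lit 2036) (.e (nat_lit 106538) (nat_lit 12) (.e (nat_lit 57466) (nat_lit 23) (.e (nat_lit 516117) (nat_lit 1) (.e (nat_lit 164398) (nat_lit 256) (.e (nat_lit 57373) (nat_lit 2) .nil))))) .nil)) 
(.lf (nat_lit 235128) (.g (nat_lit 2038) (.e (nat_lit 106539) (nat_lit 12) (.e (nat_lit 57480) (nat_lit 28) (.e (nat_lit 557091) (nat_lit 12) (.e (nat_lit 164053) (nat_lit 56) .nil)))) .nil)))))) (.nd (nat_lit 3) (.nd (nat_lit 4) (.nd (nat_lit 5) (.nd (nat_lit 6) 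
(.lf (nat_lit 235012) (.g (nat_lit 2089) (.e (nat_lit 106537) (nat_lit 12) (.e (nat_lit 57476) (nat_lit 28) (.e (nat_lit 557090) (nat_lit 12) (.e (nat_lit 164056) (nat_lit 56) (.e (nat_lit 786455) (nat_lit 17) .nil))))) .nil)) 
(.lf (nat_lit 235076) (.g (nat_lit 2329) (.e (nat_lit 106538) (nat_lit 12) (.e (nat_lit 57479) (nat_lit 28) (.e (nat_lit 557093) (nat_lit 12) (.e (nat_lit 164056) (nat_lit 56) .nil)))) .nil))) (.nd (nat_lit 6) 
(.lf (nat_lit 235044) (.g (nat_lit 3090) (.e (nat_lit 106537) (nat_lit 12) (.e (nat_lit 57480) (nat_lit 28) (.e (nat_lit 557090) (nat_lit 12) (.e (nat_lit 164053) (nat_lit 56) .nil)))) .nil)) 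
(.lf (nat_lit 235108) (.g (nat_lit 2218) (.e (nat_lit 106539) (nat_lit 12) (.e (nat_lit 57479) (nat_lit 28) (.e (nat_lit 557093) (nat_lit 12) (.e (nat_lit 164058) (nat_lit 56) .nil)))) .nil)))) (.nd (nat_lit 5) (.nd (nat_lit 6) 
(.lf (nat_lit 235028) (.g (nat_lit 3044) (.e (nat_lit 106537) (nat_lit 12) (.e (nat_lit 57479) (nat_lit 28) (.e (nat_lit 557091) (nat_lit 12) (.e (nat_lit 164054) (nat_lit 56) .nil)))) .nil)) 
(.lf (nat_lit 235092) (.g (nat_lit 2441) (.e (nat_lit 106539) (nat_lit 12) (.e (nat_lit 57465) (nat_lit 23) (.e (nat_lit 516115) (nat_lit 1) (.e (nat_lit 164325) (nat_lit 230) (.e (nat_lit 163866) (nat_lit 2) .nil))))) .nil))) (.nd (nat_lit 6) 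
(.lf (nat_lit 235060) (.g (nat_lit 2024) (.e (nat_lit 106538) (nat_lit 12) (.e (nat_lit 57465) (nat_lit 23) (.e (nat_lit 516115) (nat_lit 1) (.e (nat_lit 164398) (nat_lit 256) (.e (nat_lit 57373) (nat_lit 2) .nil))))) .nil)) 
(.lf (nat_lit 235124) (.g (nat_lit 3099) (.e (nat_lit 106539) (nat_lit 12) (.e (nat_lit 57480) (nat_lit 28) (.e (nat_lit 557090) (nat_lit 12) (.e (nat_lit 164056) (nat_lit 56) .nil)))) .nil))))) (.nd (nat_lit 4) (.nd (nat_lit 5) (.nd (nat_lit 6) 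
(.lf (nat_lit 235020) (.g (nat_lit 1497) (.e (nat_lit 106537) (nat_lit 12) (.e (nat_lit 57477) (nat_lit 28) (.e (nat_lit 557090) (nat_lit 12) (.e (nat_lit 164056) (nat_lit 56) .nil)))) .nil)) 
(.lf (nat_lit 235084) (.g (nat_lit 3605) (.e (nat_lit 106538) (nat_lit 12) (.e (nat_lit 57480) (nat_lit 28) (.e (nat_lit 557090) (nat_lit 12) (.e (nat_lit 164038) (nat_lit 55) (.e (nat_lit 778318) (nat_lit 3) .nil))))) .nil))) (.nd (nat_lit 6) 
(.lf (nat_lit 235052) (.g (nat_lit 2121) (.e (nat_lit 106537) (nat_lit 12) (.e (nat_lit 57480) (nat_lit 28) (.e (nat_lit 557091) (nat_lit 12) (.e (nat_lit 164037) (nat_lit 55) .nil)))) .nil)) 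
(.lf (nat_lit 235116) (.g (nat_lit 3017) (.e (nat_lit 106539) (nat_lit 12) (.e (nat_lit 57480) (nat_lit 28) (.e (nat_lit 557090) (nat_lit 12) (.e (nat_lit 164038) (nat_lit 55) .nil)))) .nil)))) (.nd (nat_lit 5) (.nd (nat_lit 6) 
(.lf (nat_lit 235036) (.g (nat_lit 2153) (.e (nat_lit 106537) (nat_lit 12) (.e (nat_lit 57480) (nat_lit 28) (.e (nat_lit 557089) (nat_lit 12) (.e (nat_lit 164058) (nat_lit 56) (.e (nat_lit 786455) (nat_lit 17) .nil))))) .nil)) 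
(.lf (nat_lit 235100) (.g (nat_lit 2978) (.e (nat_lit 106539) (nat_lit 12) (.e (nat_lit 57479) (nat_lit 28) (.e (nat_lit 557089) (nat_lit 12) (.e (nat_lit 164058) (nat_lit 56) .nil)))) .nil))) (.nd (nat_lit 6) 
(.lf (nat_lit 235068) (.g (nat_lit 2857) (.e (nat_lit 106538) (nat_lit 12) (.e (nat_lit 57478) (nat_lit 28) (.e (nat_lit 557090) (nat_lit 12) (.e (nat_lit 164053) (nat_lit 56) .nil)))) .nil)) 
(.lf (nat_lit 235132) (.g (nat_lit 795) (.e (nat_lit 106539) (nat_lit 12) (.e (nat_lit 57547) (nat_lit 47) (.e (nat_lit 712749) (nat_lit 28) (.e (nat_lit 434289) (nat_lit 43) .nil)))) .nil))))))) (.nd (nat_lit 2) (.nd (nat_lit 3) (.nd (nat_lit 4) (.nd (nat_lit 5) (.nd (nat_lit 6) 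
(.lf (nat_lit 235010) (.g (nat_lit 2357) (.e (nat_lit 106537) (nat_lit 12) (.e (nat_lit 57476) (nat_lit 28) (.e (nat_lit 557090) (nat_lit 12) (.e (nat_lit 164053) (nat_lit 56) (.e (nat_lit 786455) (nat_lit 17) .nil))))) .nil)) 
(.lf (nat_lit 235074) (.g (nat_lit 3098) (.e (nat_lit 106538) (nat_lit 12) (.e (nat_lit 57479) (nat_lit 28) (.e (nat_lit 557091) (nat_lit 12) (.e (nat_lit 164053) (nat_lit 56) .nil)))) .nil))) (.nd (nat_lit 6) 
(.lf (nat_lit 235042) (.g (nat_lit 3605) (.e (nat_lit 106537) (nat_lit 12) (.e (nat_lit 57480) (nat_lit 28) (.e (nat_lit 557090) (nat_lit 12) (.e (nat_lit 164038) (nat_lit 55) (.e (nat_lit 778318) (nat_lit 3) .nil))))) .nil)) 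
(.lf (nat_lit 235106) (.g (nat_lit 977) (.e (nat_lit 106539) (nat_lit 12) (.e (nat_lit 57479) (nat_lit 28) (.e (nat_lit 557093) (nat_lit 12) .nil))) .nil)))) (.nd (nat_lit 5) (.nd (nat_lit 6) 
(.lf (nat_lit 235026) (.g (nat_lit 2571) (.e (nat_lit 106537) (nat_lit 12) (.e (nat_lit 57479) (nat_lit 28) (.e (nat_lit 557089) (nat_lit 12) (.e (nat_lit 164058) (nat_lit 56) .nil)))) .nil)) 
(.lf (nat_lit 235090) (.g (nat_lit 2106) (.e (nat_lit 106538) (nat_lit 12) (.e (nat_lit 57480) (nat_lit 28) (.e (nat_lit 557091) (nat_lit 12) (.e (nat_lit 164056) (nat_lit 56) .nil)))) .nil))) (.nd (nat_lit 6) 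
(.lf (nat_lit 235058) (.g (nat_lit 2270) (.e (nat_lit 106537) (nat_lit 12) (.e (nat_lit 57480) (nat_lit 28) (.e (nat_lit 557091) (nat_lit 12) (.e (nat_lit 164058) (nat_lit 56) (.e (nat_lit 786455) (nat_lit 17) .nil))))) .nil)) 
(.lf (nat_lit 235122) (.g (nat_lit 3471) (.e (nat_lit 106539) (nat_lit 12) (.e (nat_lit 57480) (nat_lit 28) (.e (nat_lit 557090) (nat_lit 12) (.e (nat_lit 164054) (nat_lit 56) (.e (nat_lit 786455) (nat_lit 17) .nil))))) .nil))))) (.nd (nat_lit 4) (.nd (nat_lit 5) (.nd (nat_lit 6) 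
(.lf (nat_lit 235018) (.g (nat_lit 2016) (.e (nat_lit 106537) (nat_lit 12) (.e (nat_lit 57477) (nat_lit 28) (.e (nat_lit 557090) (nat_lit 12) (.e (nat_lit 164053) (nat_lit 56) (.e (nat_lit 786457) (nat_lit 18) .nil))))) .nil)) 
(.lf (nat_lit 235082) (.g (nat_lit 3017) (.e (nat_lit 106538) (nat_lit 12) (.e (nat_lit 57480) (nat_lit 28) (.e (nat_lit 557090) (nat_lit 12) (.e (nat_lit 164038) (nat_lit 55) .nil)))) .nil))) (.nd (nat_lit 6) 
(.lf (nat_lit 235050) (.g (nat_lit 3529) (.e (nat_lit 106537) (nat_lit 12) (.e (nat_lit 57480) (nat_lit 28) (.e (nat_lit 557090) (nat_lit 12) (.e (nat_lit 164056) (nat_lit 56) (.e (nat_lit 786455) (nat_lit 17) .nil))))) .nil)) 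
(.lf (nat_lit 235114) (.g (nat_lit 2153) (.e (nat_lit 106539) (nat_lit 12) (.e (nat_lit 57480) (nat_lit 28) (.e (nat_lit 557089) (nat_lit 12) (.e (nat_lit 164058) (nat_lit 56) (.e (nat_lit 786455) (nat_lit 17) .nil))))) .nil)))) (.nd (nat_lit 5) (.nd (nat_lit 6) 
(.lf (nat_lit 235034) (.g (nat_lit 2034) (.e (nat_lit 106537) (nat_lit 12) (.e (nat_lit 57480) (nat_lit 28) (.e (nat_lit 557089) (nat_lit 12) (.e (nat_lit 164053) (nat_lit 56) .nil)))) .nil)) 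
(.lf (nat_lit 235098) (.g (nat_lit 1321) (.e (nat_lit 106539) (nat_lit 12) (.e (nat_lit 57479) (nat_lit 28) (.e (nat_lit 557060) (nat_lit 0) .nil))) .nil))) (.nd (nat_lit 6) 
(.lf (nat_lit 235066) (.g (nat_lit 1694) (.e (nat_lit 106538) (nat_lit 12) (.e (nat_lit 57478) (nat_lit 28) (.e (nat_lit 557089) (nat_lit 12) (.e (nat_lit 164058) (nat_lit 56) .nil)))) .nil)) 
(.lf (nat_lit 235130) (.g (nat_lit 2025) (.e (nat_lit 106539) (nat_lit 12) (.e (nat_lit 57480) (nat_lit 28) (.e (nat_lit 557091) (nat_lit 12) (.e (nat_lit 164056) (nat_lit 56) .nil)))) .nil)))))) (.nd (nat_lit 3) (.nd (nat_lit 4) (.nd (nat_lit 5) (.nd (nat_lit 6) 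
(.lf (nat_lit 235014) (.g (nat_lit 2214) (.e (nat_lit 106537) (nat_lit 12) (.e (nat_lit 57477) (nat_lit 28) (.e (nat_lit 557090) (nat_lit 12) (.e (nat_lit 164037) (nat_lit 55) (.e (nat_lit 778318) (nat_lit 3) .nil))))) .nil)) 
(.lf (nat_lit 235078) (.g (nat_lit 1099) (.e (nat_lit 106538) (nat_lit 12) (.e (nat_lit 57479) (nat_lit 28) (.e (nat_lit 557094) (nat_lit 12) .nil))) .nil))) (.nd (nat_lit 6) 
(.lf (nat_lit 235046) (.g (nat_lit 3015) (.e (nat_lit 106537) (nat_lit 12) (.e (nat_lit 57480) (nat_lit 28) (.e (nat_lit 557090) (nat_lit 12) (.e (nat_lit 164054) (nat_lit 56) .nil)))) .nil)) 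
(.lf (nat_lit 235110) (.g (nat_lit 2153) (.e (nat_lit 106539) (nat_lit 12) (.e (nat_lit 57479) (nat_lit 28) (.e (nat_lit 557094) (nat_lit 12) (.e (nat_lit 164040) (nat_lit 55) .nil)))) .nil)))) (.nd (nat_lit 5) (.nd (nat_lit 6) 
(.lf (nat_lit 235030) (.g (nat_lit 1850) (.e (nat_lit 106537) (nat_lit 12) (.e (nat_lit 57479) (nat_lit 28) (.e (nat_lit 557093) (nat_lit 12) (.e (nat_lit 164056) (nat_lit 56) .nil)))) .nil)) 
(.lf (nat_lit 235094) (.g (nat_lit 3536) (.e (nat_lit 106539) (nat_lit 12) (.e (nat_lit 57467) (nat_lit 23) (.e (nat_lit 516115) (nat_lit 1) (.e (nat_lit 164399) (nat_lit 256) (.e (nat_lit 57373) (nat_lit 2) (.e (nat_lit 90170) (nat_lit 13) (.e (nat_lit 172065) (nat_lit 3) (.e (nat_lit 204834) (nat_lit 19) .nil)))))))) (.g (nat_lit 8) .nil .nil)))) (.nd (nat_lit 6) 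
(.lf (nat_lit 235062) (.g (nat_lit 2200) (.e (nat_lit 106538) (nat_lit 12) (.e (nat_lit 57465) (nat_lit 23) (.e (nat_lit 516117) (nat_lit 1) (.e (nat_lit 164399) (nat_lit 256) (.e (nat_lit 57373) (nat_lit 2) (.e (nat_lit 90170) (nat_lit 13) (.e (nat_lit 172065) (nat_lit 3) (.e (nat_lit 204834) (nat_lit 19) .nil)))))))) (.g (nat_lit 4) .nil .nil))) 
(.lf (nat_lit 235126) (.g (nat_lit 2411) (.e (nat_lit 106539) (nat_lit 12) (.e (nat_lit 57480) (nat_lit 28) (.e (nat_lit 557091) (nat_lit 12) (.e (nat_lit 164038) (nat_lit 55) (.e (nat_lit 778246) (nat_lit 0) .nil))))) .nil))))) (.nd (nat_lit 4) (.nd (nat_lit 5) (.nd (nat_lit 6) 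
(.lf (nat_lit 235022) (.g (nat_lit 1650) (.e (nat_lit 106537) (nat_lit 12) (.e (nat_lit 57478) (nat_lit 28) (.e (nat_lit 557089) (nat_lit 12) (.e (nat_lit 164054) (nat_lit 56) .nil)))) .nil)) 
(.lf (nat_lit 235086) (.g (nat_lit 3015) (.e (nat_lit 106538) (nat_lit 12) (.e (nat_lit 57480) (nat_lit 28) (.e (nat_lit 557090) (nat_lit 12) (.e (nat_lit 164054) (nat_lit 56) .nil)))) .nil))) (.nd (nat_lit 6) 
(.lf (nat_lit 235054) (.g (nat_lit 2121) (.e (nat_lit 106537) (nat_lit 12) (.e (nat_lit 57480) (nat_lit 28) (.e (nat_lit 557091) (nat_lit 12) (.e (nat_lit 164040) (nat_lit 55) .nil)))) .nil)) 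
(.lf (nat_lit 235118) (.g (nat_lit 3674) (.e (nat_lit 106539) (nat_lit 12) (.e (nat_lit 57480) (nat_lit 28) (.e (nat_lit 557090) (nat_lit 12) (.e (nat_lit 164038) (nat_lit 55) (.e (nat_lit 778246) (nat_lit 0) (.e (nat_lit 1256) (nat_lit 92) (.e (nat_lit 98359) (nat_lit 26) (.e (nat_lit 426132) (nat_lit 3) (.e (nat_lit 204834) (nat_lit 19) .nil))))))))) (.g (nat_lit 4) .nil .nil))))) 
(.nd (nat_lit 5) (.nd (nat_lit 6) 
(.lf (nat_lit 235038) (.g (nat_lit 3097) (.e (nat_lit 106537) (nat_lit 12) (.e (nat_lit 57480) (nat_lit 28) (.e (nat_lit 557090) (nat_lit 12) (.e (nat_lit 164037) (nat_lit 55) .nil)))) .nil)) 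
(.lf (nat_lit 235102) (.g (nat_lit 852) (.e (nat_lit 106539) (nat_lit 12) (.e (nat_lit 57479) (nat_lit 28) (.e (nat_lit 557091) (nat_lit 12) .nil))) .nil))) (.nd (nat_lit 6) 
(.lf (nat_lit 235070) (.g (nat_lit 2527) (.e (nat_lit 106538) (nat_lit 12) (.e (nat_lit 57478) (nat_lit 28) (.e (nat_lit 557090) (nat_lit 12) (.e (nat_lit 164056) (nat_lit 56) .nil)))) .nil)) 
(.lf (nat_lit 235134) (.g (nat_lit 1974) (.e (nat_lit 106540) (nat_lit 13) (.e (nat_lit 122936) (nat_lit 23) (.e (nat_lit 516117) (nat_lit 1) (.e (nat_lit 164398) (nat_lit 256) (.e (nat_lit 57371) (nat_lit 2) .nil))))) .nil)))))))) (.nd (nat_lit 1) (.nd (nat_lit 2) (.nd (nat_lit 3) (.nd (nat_lit 4) (.nd (nat_lit 5) (.nd (nat_lit 6) 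
(.lf (nat_lit 235009) (.g (nat_lit 2768) (.e (nat_lit 106537) (nat_lit 12) (.e (nat_lit 57476) (nat_lit 28) (.e (nat_lit 557090) (nat_lit 12) (.e (nat_lit 164038) (nat_lit 55) (.e (nat_lit 778246) (nat_lit 0) .nil))))) .nil)) 
(.lf (nat_lit 235073) (.g (nat_lit 2971) (.e (nat_lit 106538) (nat_lit 12) (.e (nat_lit 57479) (nat_lit 28) (.e (nat_lit 557089) (nat_lit 12) (.e (nat_lit 164054) (nat_lit 56) .nil)))) .nil))) (.nd (nat_lit 6) 
(.lf (nat_lit 235041) (.g (nat_lit 3629) (.e (nat_lit 106537) (nat_lit 12) (.e (nat_lit 57480) (nat_lit 28) (.e (nat_lit 557090) (nat_lit 12) (.e (nat_lit 164038) (nat_lit 55) (.e (nat_lit 778317) (nat_lit 3) .nil))))) .nil)) 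
(.lf (nat_lit 235105) (.g (nat_lit 3081) (.e (nat_lit 106539) (nat_lit 12) (.e (nat_lit 57479) (nat_lit 28) (.e (nat_lit 557091) (nat_lit 12) (.e (nat_lit 164056) (nat_lit 56) .nil)))) .nil)))) (.nd (nat_lit 5) (.nd (nat_lit 6) 
(.lf (nat_lit 235025) (.g (nat_lit 2528) (.e (nat_lit 106537) (nat_lit 12) (.e (nat_lit 57479) (nat_lit 28) (.e (nat_lit 557089) (nat_lit 12) (.e (nat_lit 164054) (nat_lit 56) .nil)))) .nil)) 
(.lf (nat_lit 235089) (.g (nat_lit 2216) (.e (nat_lit 106538) (nat_lit 12) (.e (nat_lit 57480) (nat_lit 28) (.e (nat_lit 557091) (nat_lit 12) (.e (nat_lit 164054) (nat_lit 56) .nil)))) .nil))) (.nd (nat_lit 6) 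
(.lf (nat_lit 235057) (.g (nat_lit 2012) (.e (nat_lit 106537) (nat_lit 12) (.e (nat_lit 57480) (nat_lit 28) (.e (nat_lit 557091) (nat_lit 12) (.e (nat_lit 164056) (nat_lit 56) .nil)))) .nil)) 
(.lf (nat_lit 235121) (.g (nat_lit 3015) (.e (nat_lit 106539) (nat_lit 12) (.e (nat_lit 57480) (nat_lit 28) (.e (nat_lit 557090) (nat_lit 12) (.e (nat_lit 164054) (nat_lit 56) .nil)))) .nil))))) (.nd (nat_lit 4) (.nd (nat_lit 5) (.nd (nat_lit 6) 
(.lf (nat_lit 235017) (.g (nat_lit 2017) (.e (nat_lit 106537) (nat_lit 12) (.e (nat_lit 57477) (nat_lit 28) (.e (nat_lit 557090) (nat_lit 12) (.e (nat_lit 164053) (nat_lit 56) (.e (nat_lit 786455) (nat_lit 17) .nil))))) .nil)) 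
(.lf (nat_lit 235081) (.g (nat_lit 1976) (.e (nat_lit 106538) (nat_lit 12) (.e (nat_lit 57480) (nat_lit 28) (.e (nat_lit 557089) (nat_lit 12) (.e (nat_lit 164054) (nat_lit 56) .nil)))) .nil))) (.nd (nat_lit 6) 
(.lf (nat_lit 235049) (.g (nat_lit 3099) (.e (nat_lit 106537) (nat_lit 12) (.e (nat_lit 57480) (nat_lit 28) (.e (nat_lit 557090) (nat_lit 12) (.e (nat_lit 164056) (nat_lit 56) .nil)))) .nil)) 
(.lf (nat_lit 235113) (.g (nat_lit 1976) (.e (nat_lit 106539) (nat_lit 12) (.e (nat_lit 57480) (nat_lit 28) (.e (nat_lit 557089) (nat_lit 12) (.e (nat_lit 164054) (nat_lit 56) .nil)))) .nil)))) (.nd (nat_lit 5) (.nd (nat_lit 6) 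
(.lf (nat_lit 235033) (.g (nat_lit 1620) (.e (nat_lit 106537) (nat_lit 12) (.e (nat_lit 57479) (nat_lit 28) (.e (nat_lit 557094) (nat_lit 12) (.e (nat_lit 164056) (nat_lit 56) .nil)))) .nil)) 
(.lf (nat_lit 235097) (.g (nat_lit 2035) (.e (nat_lit 106539) (nat_lit 12) (.e (nat_lit 57478) (nat_lit 28) (.e (nat_lit 557091) (nat_lit 12) (.e (nat_lit 164053) (nat_lit 56) .nil)))) .nil))) (.nd (nat_lit 6) 
(.lf (nat_lit 235065) (.g (nat_lit 1757) (.e (nat_lit 106538) (nat_lit 12) (.e (nat_lit 57478) (nat_lit 28) (.e (nat_lit 557089) (nat_lit 12) (.e (nat_lit 164054) (nat_lit 56) (.e (nat_lit 786455) (nat_lit 17) .nil))))) .nil)) 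
(.lf (nat_lit 235129) (.g (nat_lit 2135) (.e (nat_lit 106539) (nat_lit 12) (.e (nat_lit 57480) (nat_lit 28) (.e (nat_lit 557091) (nat_lit 12) (.e (nat_lit 164054) (nat_lit 56) .nil)))) .nil)))))) (.nd (nat_lit 3) (.nd (nat_lit 4) (.nd (nat_lit 5) (.nd (nat_lit 6) 
(.lf (nat_lit 235013) (.g (nat_lit 2215) (.e (nat_lit 106537) (nat_lit 12) (.e (nat_lit 57477) (nat_lit 28) (.e (nat_lit 557090) (nat_lit 12) (.e (nat_lit 164037) (nat_lit 55) (.e (nat_lit 778246) (nat_lit 0) .nil))))) .nil)) 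
(.lf (nat_lit 235077) (.g (nat_lit 2291) (.e (nat_lit 106538) (nat_lit 12) (.e (nat_lit 57479) (nat_lit 28) (.e (nat_lit 557093) (nat_lit 12) (.e (nat_lit 164058) (nat_lit 56) .nil)))) .nil))) (.nd (nat_lit 6) 
(.lf (nat_lit 235045) (.g (nat_lit 3514) (.e (nat_lit 106537) (nat_lit 12) (.e (nat_lit 57480) (nat_lit 28) (.e (nat_lit 557090) (nat_lit 12) (.e (nat_lit 164053) (nat_lit 56) (.e (nat_lit 786455) (nat_lit 17) .nil))))) .nil)) 
(.lf (nat_lit 235109) (.g (nat_lit 1025) (.e (nat_lit 106539) (nat_lit 12) (.e (nat_lit 57479) (nat_lit 28) (.e (nat_lit 557094) (nat_lit 12) .nil))) .nil)))) (.nd (nat_lit 5) (.nd (nat_lit 6) 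
(.lf (nat_lit 235029) (.g (nat_lit 3044) (.e (nat_lit 106537) (nat_lit 12) (.e (nat_lit 57479) (nat_lit 28) (.e (nat_lit 557091) (nat_lit 12) (.e (nat_lit 164056) (nat_lit 56) .nil)))) .nil)) 
(.lf (nat_lit 235093) (.g (nat_lit 4247) (.e (nat_lit 106539) (nat_lit 12) (.e (nat_lit 57466) (nat_lit 23) (.e (nat_lit 516115) (nat_lit 1) (.e (nat_lit 164399) (nat_lit 256) (.e (nat_lit 57373) (nat_lit 2) (.e (nat_lit 90174) (nat_lit 14) (.e (nat_lit 180243) (nat_lit 5) (.e (nat_lit 532511) (nat_lit 2) .nil)))))))) (.g (nat_lit 8) .nil .nil)))) (.nd (nat_lit 6) 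
(.lf (nat_lit 235061) (.g (nat_lit 3481) (.e (nat_lit 106538) (nat_lit 12) (.e (nat_lit 57465) (nat_lit 23) (.e (nat_lit 516115) (nat_lit 1) (.e (nat_lit 164399) (nat_lit 256) (.e (nat_lit 57373) (nat_lit 2) (.e (nat_lit 90170) (nat_lit 13) (.e (nat_lit 172065) (nat_lit 3) (.e (nat_lit 204834) (nat_lit 19) .nil)))))))) (.g (nat_lit 7) .nil .nil))) 
(.lf (nat_lit 235125) (.g (nat_lit 2135) (.e (nat_lit 106539) (nat_lit 12) (.e (nat_lit 57480) (nat_lit 28) (.e (nat_lit 557091) (nat_lit 12) (.e (nat_lit 164037) (nat_lit 55) .nil)))) .nil))))) (.nd (nat_lit 4) (.nd (nat_lit 5) (.nd (nat_lit 6) 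
(.lf (nat_lit 235021) (.g (nat_lit 2096) (.e (nat_lit 106537) (nat_lit 12) (.e (nat_lit 57477) (nat_lit 28) (.e (nat_lit 557090) (nat_lit 12) (.e (nat_lit 164058) (nat_lit 56) .nil)))) .nil)) 
(.lf (nat_lit 235085) (.g (nat_lit 3090) (.e (nat_lit 106538) (nat_lit 12) (.e (nat_lit 57480) (nat_lit 28) (.e (nat_lit 557090) (nat_lit 12) (.e (nat_lit 164053) (nat_lit 56) .nil)))) .nil))) (.nd (nat_lit 6) 
(.lf (nat_lit 235053) (.g (nat_lit 2138) (.e (nat_lit 106537) (nat_lit 12) (.e (nat_lit 57480) (nat_lit 28) (.e (nat_lit 557091) (nat_lit 12) (.e (nat_lit 164038) (nat_lit 55) .nil)))) .nil)) 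
(.lf (nat_lit 235117) (.g (nat_lit 3599) (.e (nat_lit 106539) (nat_lit 12) (.e (nat_lit 57480) (nat_lit 28) (.e (nat_lit 557090) (nat_lit 12) (.e (nat_lit 164038) (nat_lit 55) (.e (nat_lit 778246) (nat_lit 0) .nil))))) .nil)))) (.nd (nat_lit 5) (.nd (nat_lit 6) 
(.lf (nat_lit 235037) (.g (nat_lit 991) (.e (nat_lit 106537) (nat_lit 12) (.e (nat_lit 57480) (nat_lit 28) (.e (nat_lit 557090) (nat_lit 12) .nil))) .nil)) 
(.lf (nat_lit 235101) (.g (nat_lit 4219) (.e (nat_lit 106539) (nat_lit 12) (.e (nat_lit 57479) (nat_lit 28) (.e (nat_lit 557090) (nat_lit 12) (.e (nat_lit 164054) (nat_lit 56) .nil)))) .nil))) (.nd (nat_lit 6) 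
(.lf (nat_lit 235069) (.g (nat_lit 2938) (.e (nat_lit 106538) (nat_lit 12) (.e (nat_lit 57478) (nat_lit 28) (.e (nat_lit 557090) (nat_lit 12) (.e (nat_lit 164054) (nat_lit 56) .nil)))) .nil)) 
(.lf (nat_lit 235133) (.g (nat_lit 3878) (.e (nat_lit 106540) (nat_lit 13) (.e (nat_lit 122936) (nat_lit 23) (.e (nat_lit 516115) (nat_lit 1) (.e (nat_lit 164399) (nat_lit 256) (.e (nat_lit 57373) (nat_lit 2) (.e (nat_lit 90170) (nat_lit 13) (.e (nat_lit 172065) (nat_lit 3) (.e (nat_lit 204834) (nat_lit 19) .nil)))))))) (.g (nat_lit 8) .nil .nil)))))))) 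
(.nd (nat_lit 2) (.nd (nat_lit 3) (.nd (nat_lit 4) (.nd (nat_lit 5) (.nd (nat_lit 6) 
(.lf (nat_lit 235011) (.g (nat_lit 2644) (.e (nat_lit 106537) (nat_lit 12) (.e (nat_lit 57476) (nat_lit 28) (.e (nat_lit 557090) (nat_lit 12) (.e (nat_lit 164054) (nat_lit 56) (.e (nat_lit 786455) (nat_lit 17) .nil))))) .nil)) 
(.lf (nat_lit 235075) (.g (nat_lit 3097) (.e (nat_lit 106538) (nat_lit 12) (.e (nat_lit 57479) (nat_lit 28) (.e (nat_lit 557091) (nat_lit 12) (.e (nat_lit 164056) (nat_lit 56) .nil)))) .nil))) (.nd (nat_lit 6) 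
(.lf (nat_lit 235043) (.g (nat_lit 4351) (.e (nat_lit 106537) (nat_lit 12) (.e (nat_lit 57480) (nat_lit 28) (.e (nat_lit 557090) (nat_lit 12) (.e (nat_lit 164038) (nat_lit 55) (.e (nat_lit 778318) (nat_lit 3) (.e (nat_lit 57464) (nat_lit 23) (.e (nat_lit 516151) (nat_lit 9) (.e (nat_lit 426132) (nat_lit 3) (.e (nat_lit 204834) (nat_lit 19) .nil))))))))) (.g (nat_lit 5) .nil .nil))) 
(.lf (nat_lit 235107) (.g (nat_lit 2389) (.e (nat_lit 106539) (nat_lit 12) (.e (nat_lit 57479) (nat_lit 28) (.e (nat_lit 557093) (nat_lit 12) (.e (nat_lit 164056) (nat_lit 56) (.e (nat_lit 786455) (nat_lit 17) .nil))))) .nil)))) (.nd (nat_lit 5) (.nd (nat_lit 6) 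
(.lf (nat_lit 235027) (.g (nat_lit 3046) (.e (nat_lit 106537) (nat_lit 12) (.e (nat_lit 57479) (nat_lit 28) (.e (nat_lit 557091) (nat_lit 12) (.e (nat_lit 164053) (nat_lit 56) .nil)))) .nil)) 
(.lf (nat_lit 235091) (.g (nat_lit 2216) (.e (nat_lit 106538) (nat_lit 12) (.e (nat_lit 57480) (nat_lit 28) (.e (nat_lit 557091) (nat_lit 12) (.e (nat_lit 164058) (nat_lit 56) .nil)))) .nil))) (.nd (nat_lit 6) 
(.lf (nat_lit 235059) (.g (nat_lit 2588) (.e (nat_lit 106538) (nat_lit 12) (.e (nat_lit 57465) (nat_lit 23) (.e (nat_lit 516115) (nat_lit 1) (.e (nat_lit 164325) (nat_lit 230) (.e (nat_lit 163866) (nat_lit 2) (.e (nat_lit 196654) (nat_lit 11) (.e (nat_lit 16416) (nat_lit 3) (.e (nat_lit 204833) (nat_lit 19) .nil)))))))) (.g (nat_lit 4) .nil .nil))) 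
(.lf (nat_lit 235123) (.g (nat_lit 3584) (.e (nat_lit 106539) (nat_lit 12) (.e (nat_lit 57480) (nat_lit 28) (.e (nat_lit 557090) (nat_lit 12) (.e (nat_lit 164054) (nat_lit 56) (.e (nat_lit 786455) (nat_lit 17) (.e (nat_lit 90170) (nat_lit 13) (.e (nat_lit 172065) (nat_lit 3) (.e (nat_lit 204834) (nat_lit 19) .nil)))))))) (.g (nat_lit 4) .nil .nil)))))) 
(.nd (nat_lit 4) (.nd (nat_lit 5) (.nd (nat_lit 6) 
(.lf (nat_lit 235019) (.g (nat_lit 2018) (.e (nat_lit 106537) (nat_lit 12) (.e (nat_lit 57477) (nat_lit 28) (.e (nat_lit 557090) (nat_lit 12) (.e (nat_lit 164054) (nat_lit 56) .nil)))) .nil)) 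
(.lf (nat_lit 235083) (.g (nat_lit 3599) (.e (nat_lit 106538) (nat_lit 12) (.e (nat_lit 57480) (nat_lit 28) (.e (nat_lit 557090) (nat_lit 12) (.e (nat_lit 164038) (nat_lit 55) (.e (nat_lit 778246) (nat_lit 0) .nil))))) .nil))) (.nd (nat_lit 6) 
(.lf (nat_lit 235051) (.g (nat_lit 3097) (.e (nat_lit 106537) (nat_lit 12) (.e (nat_lit 57480) (nat_lit 28) (.e (nat_lit 557090) (nat_lit 12) (.e (nat_lit 164058) (nat_lit 56) .nil)))) .nil)) 
(.lf (nat_lit 235115) (.g (nat_lit 991) (.e (nat_lit 106539) (nat_lit 12) (.e (nat_lit 57480) (nat_lit 28) (.e (nat_lit 557090) (nat_lit 12) .nil))) .nil)))) (.nd (nat_lit 5) (.nd (nat_lit 6) 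
(.lf (nat_lit 235035) (.g (nat_lit 1976) (.e (nat_lit 106537) (nat_lit 12) (.e (nat_lit 57480) (nat_lit 28) (.e (nat_lit 557089) (nat_lit 12) (.e (nat_lit 164054) (nat_lit 56) .nil)))) .nil)) 
(.lf (nat_lit 235099) (.g (nat_lit 2935) (.e (nat_lit 106539) (nat_lit 12) (.e (nat_lit 57479) (nat_lit 28) (.e (nat_lit 557089) (nat_lit 12) (.e (nat_lit 164054) (nat_lit 56) .nil)))) .nil))) (.nd (nat_lit 6) 
(.lf (nat_lit 235067) (.g (nat_lit 2934) (.e (nat_lit 106538) (nat_lit 12) (.e (nat_lit 57478) (nat_lit 28) (.e (nat_lit 557090) (nat_lit 12) (.e (nat_lit 164038) (nat_lit 55) .nil)))) .nil)) 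
(.lf (nat_lit 235131) (.g (nat_lit 2284) (.e (nat_lit 106539) (nat_lit 12) (.e (nat_lit 57480) (nat_lit 28) (.e (nat_lit 557091) (nat_lit 12) (.e (nat_lit 164058) (nat_lit 56) (.e (nat_lit 786455) (nat_lit 17) .nil))))) .nil)))))) (.nd (nat_lit 3) (.nd (nat_lit 4) (.nd (nat_lit 5) (.nd (nat_lit 6) 
(.lf (nat_lit 235015) (.g (nat_lit 2040) (.e (nat_lit 106537) (nat_lit 12) (.e (nat_lit 57477) (nat_lit 28) (.e (nat_lit 557090) (nat_lit 12) (.e (nat_lit 164038) (nat_lit 55) .nil)))) .nil)) 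
(.lf (nat_lit 235079) (.g (nat_lit 2205) (.e (nat_lit 106538) (nat_lit 12) (.e (nat_lit 57479) (nat_lit 28) (.e (nat_lit 557094) (nat_lit 12) (.e (nat_lit 164056) (nat_lit 56) (.e (nat_lit 786455) (nat_lit 17) .nil))))) .nil))) (.nd (nat_lit 6) 
(.lf (nat_lit 235047) (.g (nat_lit 3471) (.e (nat_lit 106537) (nat_lit 12) (.e (nat_lit 57480) (nat_lit 28) (.e (nat_lit 557090) (nat_lit 12) (.e (nat_lit 164054) (nat_lit 56) (.e (nat_lit 786455) (nat_lit 17) .nil))))) .nil)) 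
(.lf (nat_lit 235111) (.g (nat_lit 2025) (.e (nat_lit 106539) (nat_lit 12) (.e (nat_lit 57479) (nat_lit 28) (.e (nat_lit 557094) (nat_lit 12) (.e (nat_lit 164056) (nat_lit 56) .nil)))) .nil)))) (.nd (nat_lit 5) (.nd (nat_lit 6) 
(.lf (nat_lit 235031) (.g (nat_lit 1812) (.e (nat_lit 106537) (nat_lit 12) (.e (nat_lit 57479) (nat_lit 28) (.e (nat_lit 557093) (nat_lit 12) (.e (nat_lit 164058) (nat_lit 56) .nil)))) .nil)) 
(.lf (nat_lit 235095) (.g (nat_lit 1757) (.e (nat_lit 106539) (nat_lit 12) (.e (nat_lit 57478) (nat_lit 28) (.e (nat_lit 557089) (nat_lit 12) (.e (nat_lit 164054) (nat_lit 56) (.e (nat_lit 786455) (nat_lit 17) .nil))))) .nil))) (.nd (nat_lit 6) 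
(.lf (nat_lit 235063) (.g (nat_lit 1993) (.e (nat_lit 106538) (nat_lit 12) (.e (nat_lit 57466) (nat_lit 23) (.e (nat_lit 516115) (nat_lit 1) (.e (nat_lit 164398) (nat_lit 256) (.e (nat_lit 57373) (nat_lit 2) .nil))))) .nil)) 
(.lf (nat_lit 235127) (.g (nat_lit 2135) (.e (nat_lit 106539) (nat_lit 12) (.e (nat_lit 57480) (nat_lit 28) (.e (nat_lit 557091) (nat_lit 12) (.e (nat_lit 164040) (nat_lit 55) .nil)))) .nil))))) (.nd (nat_lit 4) (.nd (nat_lit 5) (.nd (nat_lit 6) 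
(.lf (nat_lit 235023) (.g (nat_lit 2934) (.e (nat_lit 106537) (nat_lit 12) (.e (nat_lit 57478) (nat_lit 28) (.e (nat_lit 557090) (nat_lit 12) (.e (nat_lit 164038) (nat_lit 55) .nil)))) .nil)) 
(.lf (nat_lit 235087) (.g (nat_lit 3099) (.e (nat_lit 106538) (nat_lit 12) (.e (nat_lit 57480) (nat_lit 28) (.e (nat_lit 557090) (nat_lit 12) (.e (nat_lit 164056) (nat_lit 56) .nil)))) .nil))) (.nd (nat_lit 6) 
(.lf (nat_lit 235055) (.g (nat_lit 2039) (.e (nat_lit 106537) (nat_lit 12) (.e (nat_lit 57480) (nat_lit 28) (.e (nat_lit 557091) (nat_lit 12) (.e (nat_lit 164053) (nat_lit 56) .nil)))) .nil)) 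
(.lf (nat_lit 235119) (.g (nat_lit 3090) (.e (nat_lit 106539) (nat_lit 12) (.e (nat_lit 57480) (nat_lit 28) (.e (nat_lit 557090) (nat_lit 12) (.e (nat_lit 164053) (nat_lit 56) .nil)))) .nil)))) (.nd (nat_lit 5) (.nd (nat_lit 6) 
(.lf (nat_lit 235039) (.g (nat_lit 3017) (.e (nat_lit 106537) (nat_lit 12) (.e (nat_lit 57480) (nat_lit 28) (.e (nat_lit 557090) (nat_lit 12) (.e (nat_lit 164038) (nat_lit 55) .nil)))) .nil)) 
(.lf (nat_lit 235103) (.g (nat_lit 3083) (.e (nat_lit 106539) (nat_lit 12) (.e (nat_lit 57479) (nat_lit 28) (.e (nat_lit 557091) (nat_lit 12) (.e (nat_lit 164053) (nat_lit 56) .nil)))) .nil))) (.nd (nat_lit 6) 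
(.lf (nat_lit 235071) (.g (nat_lit 2035) (.e (nat_lit 106538) (nat_lit 12) (.e (nat_lit 57478) (nat_lit 28) (.e (nat_lit 557091) (nat_lit 12) (.e (nat_lit 164053) (nat_lit 56) .nil)))) .nil)) 
(.lf (nat_lit 235135) (.g (nat_lit 1202) (.e (nat_lit 106540) (nat_lit 13) (.e (nat_lit 122936) (nat_lit 23) (.e (nat_lit 516117) (nat_lit 1) (.e (nat_lit 164399) (nat_lit 256) .nil)))) .nil)))))))))

noncomputable def tv3069 : DT := (.nd (nat_lit 0) (.nd (nat_lit 1) (.nd (nat_lit 2) (.nd (nat_lit 3) (.nd (nat_lit 4) (.nd (nat_lit 5) 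
(.lf (nat_lit 235136) (.g (nat_lit 4761) (.e (nat_lit 106540) (nat_lit 13) (.e (nat_lit 122936) (nat_lit 23) (.e (nat_lit 516117) (nat_lit 1) (.e (nat_lit 164399) (nat_lit 256) (.e (nat_lit 57373) (nat_lit 2) (.e (nat_lit 90174) (nat_lit 14) (.e (nat_lit 180243) (nat_lit 5) (.e (nat_lit 532511) (nat_lit 2) .nil)))))))) (.g (nat_lit 8) .nil .nil))) 
(.lf (nat_lit 235168) (.g (nat_lit 1745) (.e (nat_lit 106556) (nat_lit 15) (.e (nat_lit 57809) (nat_lit 246) (.e (nat_lit 57902) (nat_lit 277) (.e (nat_lit 131140) (nat_lit 27) (.e (nat_lit 426190) (nat_lit 9) (.e (nat_lit 426444) (nat_lit 19) .nil)))))) (.g (nat_lit 0) .nil .nil)))) (.nd (nat_lit 5) 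
(.lf (nat_lit 235152) (.g (nat_lit 1033) (.e (nat_lit 106556) (nat_lit 15) (.e (nat_lit 57794) (nat_lit 245) (.e (nat_lit 1367) (nat_lit 103) (.e (nat_lit 294939) (nat_lit 9) (.e (nat_lit 336428) (nat_lit 29) (.e (nat_lit 450304) (nat_lit 4) .nil)))))) (.g (nat_lit 5) .nil .nil))) 
(.lf (nat_lit 235184) (.g (nat_lit 1114) (.e (nat_lit 106556) (nat_lit 15) (.e (nat_lit 57813) (nat_lit 246) (.e (nat_lit 57884) (nat_lit 270) (.e (nat_lit 1423) (nat_lit 108) (.e (nat_lit 336426) (nat_lit 29) (.e (nat_lit 450304) (nat_lit 4) .nil)))))) (.g (nat_lit 5) .nil .nil))))) (.nd (nat_lit 4) (.nd (nat_lit 5) 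
(.lf (nat_lit 235144) (.g (nat_lit 2491) (.e (nat_lit 106543) (nat_lit 14) (.e (nat_lit 1374) (nat_lit 104) (.e (nat_lit 303143) (nat_lit 12) (.e (nat_lit 475211) (nat_lit 41) (.e (nat_lit 712751) (nat_lit 29) .nil))))) .nil)) 
(.lf (nat_lit 235176) (.g (nat_lit 490) (.e (nat_lit 106556) (nat_lit 15) (.e (nat_lit 57811) (nat_lit 246) (.e (nat_lit 57821) (nat_lit 249) (.e (nat_lit 229647) (nat_lit 232) (.e (nat_lit 464) (nat_lit 34) (.e (nat_lit 450304) (nat_lit 4) .nil)))))) (.g (nat_lit 4) .nil .nil)))) (.nd (nat_lit 5) 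
(.lf (nat_lit 235160) (.g (nat_lit 1304) (.e (nat_lit 106556) (nat_lit 15) (.e (nat_lit 57808) (nat_lit 246) (.e (nat_lit 57900) (nat_lit 276) (.e (nat_lit 122936) (nat_lit 23) (.e (nat_lit 516131) (nat_lit 3) (.e (nat_lit 221218) (nat_lit 24) (.e (nat_lit 213003) (nat_lit 9) (.e (nat_lit 120) (nat_lit 4) .nil)))))))) (.g (nat_lit 5) .nil .nil))) 
(.lf (nat_lit 235192) (.g (nat_lit 1768) (.e (nat_lit 106556) (nat_lit 15) (.e (nat_lit 57814) (nat_lit 246) (.e (nat_lit 57902) (nat_lit 277) (.e (nat_lit 131140) (nat_lit 27) (.e (nat_lit 426190) (nat_lit 9) (.e (nat_lit 426444) (nat_lit 19) .nil)))))) (.g (nat_lit 0) .nil .nil)))))) (.nd (nat_lit 3) (.nd (nat_lit 4) (.nd (nat_lit 5) 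
(.lf (nat_lit 235140) (.g (nat_lit 1057) (.e (nat_lit 114432) (nat_lit 13) (.e (nat_lit 122936) (nat_lit 23) (.e (nat_lit 516117) (nat_lit 1) (.e (nat_lit 164399) (nat_lit 256) .nil)))) .nil)) 
(.lf (nat_lit 235172) (.g (nat_lit 1690) (.e (nat_lit 106556) (nat_lit 15) (.e (nat_lit 57810) (nat_lit 246) (.e (nat_lit 57902) (nat_lit 277) (.e (nat_lit 131140) (nat_lit 27) (.e (nat_lit 426190) (nat_lit 9) (.e (nat_lit 426442) (nat_lit 19) .nil)))))) (.g (nat_lit 6) .nil .nil)))) (.nd (nat_lit 5) 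
(.lf (nat_lit 235156) (.g (nat_lit 864) (.e (nat_lit 106556) (nat_lit 15) (.e (nat_lit 57794) (nat_lit 245) (.e (nat_lit 1367) (nat_lit 103) (.e (nat_lit 294958) (nat_lit 13) (.e (nat_lit 401152) (nat_lit 23) (.e (nat_lit 426443) (nat_lit 19) .nil)))))) (.g (nat_lit 4) .nil .nil))) 
(.lf (nat_lit 235188) (.g (nat_lit 636) (.e (nat_lit 106556) (nat_lit 15) (.e (nat_lit 57814) (nat_lit 246) (.e (nat_lit 57819) (nat_lit 248) (.e (nat_lit 164340) (nat_lit 232) (.e (nat_lit 463) (nat_lit 34) (.e (nat_lit 450304) (nat_lit 4) .nil)))))) (.g (nat_lit 5) .nil .nil))))) (.nd (nat_lit 4) (.nd (nat_lit 5) 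
(.lf (nat_lit 235148) (.g (nat_lit 1125) (.e (nat_lit 106556) (nat_lit 15) (.e (nat_lit 65280) (nat_lit 84) (.e (nat_lit 516151) (nat_lit 9) (.e (nat_lit 426211) (nat_lit 9) (.e (nat_lit 433920) (nat_lit 34) (.e (nat_lit 401152) (nat_lit 2) .nil)))))) (.g (nat_lit 4) .nil .nil))) 
(.lf (nat_lit 235180) (.g (nat_lit 1916) (.e (nat_lit 106556) (nat_lit 15) (.e (nat_lit 57811) (nat_lit 246) (.e (nat_lit 57902) (nat_lit 277) (.e (nat_lit 131140) (nat_lit 27) (.e (nat_lit 426188) (nat_lit 9) (.e (nat_lit 426444) (nat_lit 19) .nil)))))) (.g (nat_lit 0) .nil .nil)))) (.nd (nat_lit 5) 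
(.lf (nat_lit 235164) (.g (nat_lit 1849) (.e (nat_lit 106556) (nat_lit 15) (.e (nat_lit 57809) (nat_lit 246) (.e (nat_lit 57902) (nat_lit 277) (.e (nat_lit 131140) (nat_lit 27) (.e (nat_lit 426188) (nat_lit 9) (.e (nat_lit 426439) (nat_lit 19) .nil)))))) (.g (nat_lit 6) .nil .nil))) 
(.lf (nat_lit 235196) (.g (nat_lit 1802) (.e (nat_lit 106556) (nat_lit 15) (.e (nat_lit 57815) (nat_lit 246) (.e (nat_lit 57902) (nat_lit 277) (.e (nat_lit 131140) (nat_lit 27) (.e (nat_lit 426188) (nat_lit 9) (.e (nat_lit 426439) (nat_lit 19) .nil)))))) (.g (nat_lit 5) .nil .nil))))))) (.nd (nat_lit 2) (.nd (nat_lit 3) (.nd (nat_lit 4) (.nd (nat_lit 5) 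
(.lf (nat_lit 235138) (.g (nat_lit 1970) (.e (nat_lit 106541) (nat_lit 13) (.e (nat_lit 122936) (nat_lit 23) (.e (nat_lit 516115) (nat_lit 1) (.e (nat_lit 164398) (nat_lit 256) (.e (nat_lit 57375) (nat_lit 2) .nil))))) .nil)) 
(.lf (nat_lit 235170) (.g (nat_lit 1074) (.e (nat_lit 106556) (nat_lit 15) (.e (nat_lit 57810) (nat_lit 246) (.e (nat_lit 57902) (nat_lit 277) (.e (nat_lit 131138) (nat_lit 27) (.e (nat_lit 426234) (nat_lit 9) (.e (nat_lit 426443) (nat_lit 19) .nil)))))) (.g (nat_lit 0) .nil .nil)))) (.nd (nat_lit 5) 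
(.lf (nat_lit 235154) (.g (nat_lit 1522) (.e (nat_lit 106556) (nat_lit 15) (.e (nat_lit 57794) (nat_lit 245) (.e (nat_lit 1367) (nat_lit 103) (.e (nat_lit 294958) (nat_lit 13) (.e (nat_lit 393279) (nat_lit 23) (.e (nat_lit 426443) (nat_lit 19) .nil)))))) (.g (nat_lit 6) .nil .nil))) 
(.lf (nat_lit 235186) (.g (nat_lit 1019) (.e (nat_lit 106556) (nat_lit 15) (.e (nat_lit 57813) (nat_lit 246) (.e (nat_lit 57902) (nat_lit 277) (.e (nat_lit 131140) (nat_lit 27) (.e (nat_lit 426258) (nat_lit 9) (.e (nat_lit 426443) (nat_lit 19) .nil)))))) (.g (nat_lit 4) .nil .nil))))) (.nd (nat_lit 4) (.nd (nat_lit 5) 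
(.lf (nat_lit 235146) (.g (nat_lit 2486) (.e (nat_lit 106543) (nat_lit 14) (.e (nat_lit 1374) (nat_lit 104) (.e (nat_lit 303143) (nat_lit 12) (.e (nat_lit 475211) (nat_lit 41) (.e (nat_lit 712757) (nat_lit 32) .nil))))) .nil)) 
(.lf (nat_lit 235178) (.g (nat_lit 1835) (.e (nat_lit 106556) (nat_lit 15) (.e (nat_lit 57811) (nat_lit 246) (.e (nat_lit 57902) (nat_lit 277) (.e (nat_lit 131140) (nat_lit 27) (.e (nat_lit 426188) (nat_lit 9) (.e (nat_lit 426439) (nat_lit 19) .nil)))))) (.g (nat_lit 6) .nil .nil)))) (.nd (nat_lit 5) 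
(.lf (nat_lit 235162) (.g (nat_lit 1740) (.e (nat_lit 106556) (nat_lit 15) (.e (nat_lit 57808) (nat_lit 246) (.e (nat_lit 57902) (nat_lit 277) (.e (nat_lit 131140) (nat_lit 27) (.e (nat_lit 426198) (nat_lit 9) (.e (nat_lit 426444) (nat_lit 19) .nil)))))) (.g (nat_lit 0) .nil .nil))) 
(.lf (nat_lit 235194) (.g (nat_lit 1884) (.e (nat_lit 106556) (nat_lit 15) (.e (nat_lit 57814) (nat_lit 246) (.e (nat_lit 57902) (nat_lit 277) (.e (nat_lit 131140) (nat_lit 27) (.e (nat_lit 426200) (nat_lit 9) (.e (nat_lit 426444) (nat_lit 19) .nil)))))) (.g (nat_lit 0) .nil .nil)))))) (.nd (nat_lit 3) (.nd (nat_lit 4) (.nd (nat_lit 5) 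
(.lf (nat_lit 235142) (.g (nat_lit 2117) (.e (nat_lit 106543) (nat_lit 14) (.e (nat_lit 1374) (nat_lit 104) (.e (nat_lit 303143) (nat_lit 12) (.e (nat_lit 475199) (nat_lit 40) (.e (nat_lit 704599) (nat_lit 6) .nil))))) .nil)) 
(.lf (nat_lit 235174) (.g (nat_lit 1881) (.e (nat_lit 106556) (nat_lit 15) (.e (nat_lit 57810) (nat_lit 246) (.e (nat_lit 57902) (nat_lit 277) (.e (nat_lit 131140) (nat_lit 27) (.e (nat_lit 426200) (nat_lit 9) (.e (nat_lit 426444) (nat_lit 19) .nil)))))) (.g (nat_lit 0) .nil .nil)))) (.nd (nat_lit 5) 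
(.lf (nat_lit 235158) (.g (nat_lit 603) (.e (nat_lit 106556) (nat_lit 15) (.e (nat_lit 57808) (nat_lit 246) (.e (nat_lit 57820) (nat_lit 249) (.e (nat_lit 229647) (nat_lit 232) (.e (nat_lit 456) (nat_lit 34) (.e (nat_lit 450304) (nat_lit 4) .nil)))))) (.g (nat_lit 5) .nil .nil))) 
(.lf (nat_lit 235190) (.g (nat_lit 613) (.e (nat_lit 106556) (nat_lit 15) (.e (nat_lit 57814) (nat_lit 246) (.e (nat_lit 57821) (nat_lit 249) (.e (nat_lit 229647) (nat_lit 232) (.e (nat_lit 464) (nat_lit 34) (.e (nat_lit 450304) (nat_lit 4) .nil)))))) (.g (nat_lit 4) .nil .nil))))) (.nd (nat_lit 4) (.nd (nat_lit 5) 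
(.lf (nat_lit 235150) (.g (nat_lit 1218) (.e (nat_lit 106556) (nat_lit 15) (.e (nat_lit 57794) (nat_lit 245) (.e (nat_lit 1360) (nat_lit 102) (.e (nat_lit 286760) (nat_lit 13) (.e (nat_lit 393270) (nat_lit 23) .nil))))) .nil)) 
(.lf (nat_lit 235182) (.g (nat_lit 1123) (.e (nat_lit 106556) (nat_lit 15) (.e (nat_lit 57813) (nat_lit 246) (.e (nat_lit 57884) (nat_lit 270) (.e (nat_lit 1413) (nat_lit 108) (.e (nat_lit 336426) (nat_lit 29) (.e (nat_lit 450304) (nat_lit 4) .nil)))))) (.g (nat_lit 5) .nil .nil)))) (.nd (nat_lit 5) 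
(.lf (nat_lit 235166) (.g (nat_lit 1939) (.e (nat_lit 106556) (nat_lit 15) (.e (nat_lit 57809) (nat_lit 246) (.e (nat_lit 57902) (nat_lit 277) (.e (nat_lit 131140) (nat_lit 27) (.e (nat_lit 426188) (nat_lit 9) (.e (nat_lit 426444) (nat_lit 19) .nil)))))) (.g (nat_lit 0) .nil .nil))) 
(.lf (nat_lit 235198) (.g (nat_lit 1887) (.e (nat_lit 106556) (nat_lit 15) (.e (nat_lit 57815) (nat_lit 246) (.e (nat_lit 57902) (nat_lit 277) (.e (nat_lit 131140) (nat_lit 27) (.e (nat_lit 426200) (nat_lit 9) (.e (nat_lit 426444) (nat_lit 19) .nil)))))) (.g (nat_lit 0) .nil .nil)))))))) (.nd (nat_lit 1) (.nd (nat_lit 2) (.nd (nat_lit 3) (.nd (nat_lit 4) (.nd (nat_lit 5) 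
(.lf (nat_lit 235137) (.g (nat_lit 1922) (.e (nat_lit 106541) (nat_lit 13) (.e (nat_lit 122936) (nat_lit 23) (.e (nat_lit 516115) (nat_lit 1) (.e (nat_lit 164398) (nat_lit 256) (.e (nat_lit 57373) (nat_lit 2) .nil))))) .nil)) 
(.lf (nat_lit 235169) (.g (nat_lit 1858) (.e (nat_lit 106556) (nat_lit 15) (.e (nat_lit 57809) (nat_lit 246) (.e (nat_lit 57902) (nat_lit 277) (.e (nat_lit 131140) (nat_lit 27) (.e (nat_lit 426200) (nat_lit 9) (.e (nat_lit 426444) (nat_lit 19) .nil)))))) (.g (nat_lit 0) .nil .nil)))) (.nd (nat_lit 5) 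
(.lf (nat_lit 235153) (.g (nat_lit 1411) (.e (nat_lit 106556) (nat_lit 15) (.e (nat_lit 57794) (nat_lit 245) (.e (nat_lit 1367) (nat_lit 103) (.e (nat_lit 294958) (nat_lit 13) (.e (nat_lit 393274) (nat_lit 23) (.e (nat_lit 433920) (nat_lit 19) .nil)))))) (.g (nat_lit 5) .nil .nil))) 
(.lf (nat_lit 235185) (.g (nat_lit 2348) (.e (nat_lit 106556) (nat_lit 15) (.e (nat_lit 57813) (nat_lit 246) (.e (nat_lit 57884) (nat_lit 270) (.e (nat_lit 1656) (nat_lit 115) (.e (nat_lit 393270) (nat_lit 23) (.e (nat_lit 426442) (nat_lit 19) .nil)))))) (.g (nat_lit 6) .nil .nil))))) (.nd (nat_lit 4) (.nd (nat_lit 5) 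
(.lf (nat_lit 235145) (.g (nat_lit 3374) (.e (nat_lit 106543) (nat_lit 14) (.e (nat_lit 1374) (nat_lit 104) (.e (nat_lit 303143) (nat_lit 12) (.e (nat_lit 475211) (nat_lit 41) (.e (nat_lit 712752) (nat_lit 29) (.e (nat_lit 450304) (nat_lit 4) .nil)))))) (.g (nat_lit 5) .nil .nil))) 
(.lf (nat_lit 235177) (.g (nat_lit 341) (.e (nat_lit 106556) (nat_lit 15) (.e (nat_lit 57811) (nat_lit 246) (.e (nat_lit 57883) (nat_lit 270) (.e (nat_lit 7936) (nat_lit 115) .nil)))) .nil))) (.nd (nat_lit 5) 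
(.lf (nat_lit 235161) (.g (nat_lit 1938) (.e (nat_lit 106556) (nat_lit 15) (.e (nat_lit 57808) (nat_lit 246) (.e (nat_lit 57902) (nat_lit 277) (.e (nat_lit 131140) (nat_lit 27) (.e (nat_lit 426188) (nat_lit 9) (.e (nat_lit 426444) (nat_lit 19) .nil)))))) (.g (nat_lit 0) .nil .nil))) 
(.lf (nat_lit 235193) (.g (nat_lit 1760) (.e (nat_lit 106556) (nat_lit 15) (.e (nat_lit 57814) (nat_lit 246) (.e (nat_lit 57902) (nat_lit 277) (.e (nat_lit 131140) (nat_lit 27) (.e (nat_lit 426198) (nat_lit 9) (.e (nat_lit 426444) (nat_lit 19) .nil)))))) (.g (nat_lit 0) .nil .nil)))))) (.nd (nat_lit 3) (.nd (nat_lit 4) (.nd (nat_lit 5) 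
(.lf (nat_lit 235141) (.g (nat_lit 2934) (.e (nat_lit 106543) (nat_lit 14) (.e (nat_lit 1374) (nat_lit 104) (.e (nat_lit 303143) (nat_lit 12) (.e (nat_lit 475199) (nat_lit 40) (.e (nat_lit 704598) (nat_lit 6) (.e (nat_lit 196352) (nat_lit 4) .nil)))))) (.g (nat_lit 5) .nil .nil))) 
(.lf (nat_lit 235173) (.g (nat_lit 1766) (.e (nat_lit 106556) (nat_lit 15) (.e (nat_lit 57810) (nat_lit 246) (.e (nat_lit 57902) (nat_lit 277) (.e (nat_lit 131140) (nat_lit 27) (.e (nat_lit 426190) (nat_lit 9) (.e (nat_lit 426444) (nat_lit 19) .nil)))))) (.g (nat_lit 0) .nil .nil)))) (.nd (nat_lit 5) 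
(.lf (nat_lit 235157) (.g (nat_lit 963) (.e (nat_lit 106556) (nat_lit 15) (.e (nat_lit 57794) (nat_lit 245) (.e (nat_lit 1367) (nat_lit 103) (.e (nat_lit 294959) (nat_lit 13) (.e (nat_lit 393279) (nat_lit 23) (.e (nat_lit 433920) (nat_lit 19) .nil)))))) (.g (nat_lit 5) .nil .nil))) 
(.lf (nat_lit 235189) (.g (nat_lit 756) (.e (nat_lit 106556) (nat_lit 15) (.e (nat_lit 57814) (nat_lit 246) (.e (nat_lit 57821) (nat_lit 249) (.e (nat_lit 229647) (nat_lit 232) (.e (nat_lit 456) (nat_lit 34) (.e (nat_lit 450304) (nat_lit 4) .nil)))))) (.g (nat_lit 5) .nil .nil))))) (.nd (nat_lit 4) (.nd (nat_lit 5) 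
(.lf (nat_lit 235149) (.g (nat_lit 1543) (.e (nat_lit 106556) (nat_lit 15) (.e (nat_lit 57793) (nat_lit 245) (.e (nat_lit 1360) (nat_lit 102) (.e (nat_lit 286761) (nat_lit 13) (.e (nat_lit 393270) (nat_lit 23) .nil))))) .nil)) 
(.lf (nat_lit 235181) (.g (nat_lit 1835) (.e (nat_lit 106556) (nat_lit 15) (.e (nat_lit 57811) (nat_lit 246) (.e (nat_lit 57902) (nat_lit 277) (.e (nat_lit 131140) (nat_lit 27) (.e (nat_lit 426200) (nat_lit 9) (.e (nat_lit 426444) (nat_lit 19) .nil)))))) (.g (nat_lit 0) .nil .nil)))) (.nd (nat_lit 5) 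
(.lf (nat_lit 235165) (.g (nat_lit 1947) (.e (nat_lit 106556) (nat_lit 15) (.e (nat_lit 57809) (nat_lit 246) (.e (nat_lit 57902) (nat_lit 277) (.e (nat_lit 131140) (nat_lit 27) (.e (nat_lit 426188) (nat_lit 9) (.e (nat_lit 426442) (nat_lit 19) .nil)))))) (.g (nat_lit 6) .nil .nil))) 
(.lf (nat_lit 235197) (.g (nat_lit 1773) (.e (nat_lit 106556) (nat_lit 15) (.e (nat_lit 57815) (nat_lit 246) (.e (nat_lit 57902) (nat_lit 277) (.e (nat_lit 131140) (nat_lit 27) (.e (nat_lit 426190) (nat_lit 9) (.e (nat_lit 426444) (nat_lit 19) .nil)))))) (.g (nat_lit 0) .nil .nil))))))) (.nd (nat_lit 2) (.nd (nat_lit 3) (.nd (nat_lit 4) (.nd (nat_lit 5) 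
(.lf (nat_lit 235139) (.g (nat_lit 3055) (.e (nat_lit 106541) (nat_lit 13) (.e (nat_lit 122936) (nat_lit 23) (.e (nat_lit 516117) (nat_lit 1) (.e (nat_lit 164329) (nat_lit 230) (.e (nat_lit 163873) (nat_lit 3) .nil))))) .nil)) 
(.lf (nat_lit 235171) (.g (nat_lit 1905) (.e (nat_lit 106556) (nat_lit 15) (.e (nat_lit 57810) (nat_lit 246) (.e (nat_lit 57902) (nat_lit 277) (.e (nat_lit 131140) (nat_lit 27) (.e (nat_lit 426188) (nat_lit 9) (.e (nat_lit 426442) (nat_lit 19) .nil)))))) (.g (nat_lit 6) .nil .nil)))) (.nd (nat_lit 5) 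
(.lf (nat_lit 235155) (.g (nat_lit 1261) (.e (nat_lit 106556) (nat_lit 15) (.e (nat_lit 57794) (nat_lit 245) (.e (nat_lit 1367) (nat_lit 103) (.e (nat_lit 294958) (nat_lit 13) (.e (nat_lit 393279) (nat_lit 23) (.e (nat_lit 433920) (nat_lit 19) .nil)))))) (.g (nat_lit 5) .nil .nil))) 
(.lf (nat_lit 235187) (.g (nat_lit 261) (.e (nat_lit 106556) (nat_lit 15) (.e (nat_lit 57814) (nat_lit 246) (.e (nat_lit 57819) (nat_lit 248) (.e (nat_lit 164340) (nat_lit 232) .nil)))) .nil)))) (.nd (nat_lit 4) (.nd (nat_lit 5) 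
(.lf (nat_lit 235147) (.g (nat_lit 3198) (.e (nat_lit 106556) (nat_lit 15) (.e (nat_lit 57599) (nat_lit 84) (.e (nat_lit 516151) (nat_lit 9) (.e (nat_lit 426211) (nat_lit 9) (.e (nat_lit 433920) (nat_lit 34) (.e (nat_lit 401152) (nat_lit 2) .nil)))))) (.g (nat_lit 4) .nil .nil))) 
(.lf (nat_lit 235179) (.g (nat_lit 1919) (.e (nat_lit 106556) (nat_lit 15) (.e (nat_lit 57811) (nat_lit 246) (.e (nat_lit 57902) (nat_lit 277) (.e (nat_lit 131140) (nat_lit 27) (.e (nat_lit 426188) (nat_lit 9) (.e (nat_lit 426442) (nat_lit 19) .nil)))))) (.g (nat_lit 6) .nil .nil)))) (.nd (nat_lit 5) 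
(.lf (nat_lit 235163) (.g (nat_lit 1862) (.e (nat_lit 106556) (nat_lit 15) (.e (nat_lit 57808) (nat_lit 246) (.e (nat_lit 57902) (nat_lit 277) (.e (nat_lit 131140) (nat_lit 27) (.e (nat_lit 426200) (nat_lit 9) (.e (nat_lit 426444) (nat_lit 19) .nil)))))) (.g (nat_lit 0) .nil .nil))) 
(.lf (nat_lit 235195) (.g (nat_lit 1081) (.e (nat_lit 106556) (nat_lit 15) (.e (nat_lit 57815) (nat_lit 246) (.e (nat_lit 57902) (nat_lit 277) (.e (nat_lit 131138) (nat_lit 27) (.e (nat_lit 426234) (nat_lit 9) (.e (nat_lit 426443) (nat_lit 19) .nil)))))) (.g (nat_lit 0) .nil .nil)))))) (.nd (nat_lit 3) (.nd (nat_lit 4) (.nd (nat_lit 5) 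
(.lf (nat_lit 235143) (.g (nat_lit 3446) (.e (nat_lit 106543) (nat_lit 14) (.e (nat_lit 1374) (nat_lit 104) (.e (nat_lit 303143) (nat_lit 12) (.e (nat_lit 475211) (nat_lit 41) (.e (nat_lit 712750) (nat_lit 29) (.e (nat_lit 450304) (nat_lit 4) .nil)))))) (.g (nat_lit 5) .nil .nil))) 
(.lf (nat_lit 235175) (.g (nat_lit 637) (.e (nat_lit 106556) (nat_lit 15) (.e (nat_lit 57811) (nat_lit 246) (.e (nat_lit 57821) (nat_lit 249) (.e (nat_lit 229647) (nat_lit 232) (.e (nat_lit 456) (nat_lit 34) (.e (nat_lit 450304) (nat_lit 4) .nil)))))) (.g (nat_lit 5) .nil .nil)))) (.nd (nat_lit 5) 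
(.lf (nat_lit 235159) (.g (nat_lit 409) (.e (nat_lit 106556) (nat_lit 15) (.e (nat_lit 57808) (nat_lit 246) (.e (nat_lit 57820) (nat_lit 249) (.e (nat_lit 229647) (nat_lit 232) (.e (nat_lit 464) (nat_lit 34) (.e (nat_lit 450304) (nat_lit 4) .nil)))))) (.g (nat_lit 4) .nil .nil))) 
(.lf (nat_lit 235191) (.g (nat_lit 1024) (.e (nat_lit 106556) (nat_lit 15) (.e (nat_lit 57814) (nat_lit 246) (.e (nat_lit 57902) (nat_lit 277) (.e (nat_lit 131138) (nat_lit 27) (.e (nat_lit 426230) (nat_lit 9) (.e (nat_lit 426443) (nat_lit 19) .nil)))))) (.g (nat_lit 0) .nil .nil))))) (.nd (nat_lit 4) (.nd (nat_lit 5) 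
(.lf (nat_lit 235151) (.g (nat_lit 1228) (.e (nat_lit 106556) (nat_lit 15) (.e (nat_lit 57794) (nat_lit 245) (.e (nat_lit 1367) (nat_lit 103) (.e (nat_lit 294938) (nat_lit 9) (.e (nat_lit 336428) (nat_lit 29) (.e (nat_lit 450304) (nat_lit 4) .nil)))))) (.g (nat_lit 5) .nil .nil))) 
(.lf (nat_lit 235183) (.g (nat_lit 1312) (.e (nat_lit 106556) (nat_lit 15) (.e (nat_lit 57813) (nat_lit 246) (.e (nat_lit 57884) (nat_lit 270) (.e (nat_lit 1413) (nat_lit 108) (.e (nat_lit 336428) (nat_lit 29) (.e (nat_lit 450304) (nat_lit 4) .nil)))))) (.g (nat_lit 5) .nil .nil)))) (.nd (nat_lit 5) 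
(.lf (nat_lit 235167) (.g (nat_lit 1736) (.e (nat_lit 106556) (nat_lit 15) (.e (nat_lit 57809) (nat_lit 246) (.e (nat_lit 57902) (nat_lit 277) (.e (nat_lit 131140) (nat_lit 27) (.e (nat_lit 426190) (nat_lit 9) (.e (nat_lit 426442) (nat_lit 19) .nil)))))) (.g (nat_lit 6) .nil .nil))) 
(.lf (nat_lit 235199) (.g (nat_lit 1499) (.e (nat_lit 106556) (nat_lit 15) (.e (nat_lit 57816) (nat_lit 246) (.e (nat_lit 57794) (nat_lit 245) (.e (nat_lit 1114) (nat_lit 82) (.e (nat_lit 8469) (nat_lit 148) (.e (nat_lit 163920) (nat_lit 14) (.e (nat_lit 450304) (nat_lit 4) .nil))))))) (.g (nat_lit 6) .nil .nil)))))))))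

noncomputable def tv3070 : DT := (.nd (nat_lit 0) (.nd (nat_lit 1) (.nd (nat_lit 2) (.nd (nat_lit 3) (.nd (nat_lit 4) (.nd (nat_lit 5) 
(.lf (nat_lit 235200) (.g (nat_lit 782) (.e (nat_lit 106556) (nat_lit 15) (.e (nat_lit 57816) (nat_lit 246) (.e (nat_lit 57881) (nat_lit 270) (.e (nat_lit 7936) (nat_lit 115) .nil)))) .nil)) 
(.lf (nat_lit 235232) (.g (nat_lit 537) (.e (nat_lit 122624) (nat_lit 3) (.e (nat_lit 204810) (nat_lit 9) (.e (nat_lit 426230) (nat_lit 9) (.e (nat_lit 426565) (nat_lit 34) (.e (nat_lit 401152) (nat_lit 3) .nil))))) .nil))) (.nd (nat_lit 5) 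
(.lf (nat_lit 235216) (.g (nat_lit 2039) (.e (nat_lit 122624) (nat_lit 2) (.e (nat_lit 196654) (nat_lit 11) (.e (nat_lit 16436) (nat_lit 9) (.e (nat_lit 426566) (nat_lit 34) (.e (nat_lit 401152) (nat_lit 3) .nil))))) .nil)) 
(.lf (nat_lit 235248) (.g (nat_lit 440) (.e (nat_lit 122624) (nat_lit 5) (.e (nat_lit 221192) (nat_lit 11) (.e (nat_lit 336118) (nat_lit 9) (.e (nat_lit 336442) (nat_lit 32) (.e (nat_lit 474880) (nat_lit 5) .nil))))) .nil)))) (.nd (nat_lit 4) (.nd (nat_lit 5) 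
(.lf (nat_lit 235208) (.g (nat_lit 1000) (.e (nat_lit 114692) (nat_lit 0) (.e (nat_lit 6988) (nat_lit 377) (.e (nat_lit 1374) (nat_lit 104) (.e (nat_lit 303155) (nat_lit 29) .nil)))) .nil)) 
(.lf (nat_lit 235240) (.g (nat_lit 2291) (.e (nat_lit 122624) (nat_lit 4) (.e (nat_lit 213032) (nat_lit 11) (.e (nat_lit 24626) (nat_lit 9) (.e (nat_lit 336443) (nat_lit 32) (.e (nat_lit 474880) (nat_lit 5) .nil))))) .nil))) (.nd (nat_lit 5) 
(.lf (nat_lit 235224) (.g (nat_lit 1171) (.e (nat_lit 122624) (nat_lit 2) (.e (nat_lit 196656) (nat_lit 11) (.e (nat_lit 16465) (nat_lit 13) (.e (nat_lit 483339) (nat_lit 9) .nil)))) .nil)) 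
(.lf (nat_lit 235256) (.g (nat_lit 1421) (.e (nat_lit 122624) (nat_lit 5) (.e (nat_lit 221193) (nat_lit 11) (.e (nat_lit 336086) (nat_lit 9) (.e (nat_lit 336430) (nat_lit 29) (.e (nat_lit 450304) (nat_lit 5) .nil))))) .nil))))) (.nd (nat_lit 3) (.nd (nat_lit 4) (.nd (nat_lit 5) 
(.lf (nat_lit 235204) (.g (nat_lit 689) (.e (nat_lit 106556) (nat_lit 15) (.e (nat_lit 57865) (nat_lit 256) (.e (nat_lit 317) (nat_lit 23) (.e (nat_lit 352313) (nat_lit 23) (.e (nat_lit 98321) (nat_lit 17) (.e (nat_lit 7936) (nat_lit 220) (.e (nat_lit 720948) (nat_lit 24) .nil))))))) (.g (nat_lit 4) .nil .nil))) 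
(.lf (nat_lit 235236) (.g (nat_lit 1618) (.e (nat_lit 122624) (nat_lit 3) (.e (nat_lit 204821) (nat_lit 17) (.e (nat_lit 2281) (nat_lit 150) (.e (nat_lit 770069) (nat_lit 7) (.e (nat_lit 57480) (nat_lit 28) .nil))))) .nil))) (.nd (nat_lit 5) 
(.lf (nat_lit 235220) (.g (nat_lit 998) (.e (nat_lit 122624) (nat_lit 2) (.e (nat_lit 196655) (nat_lit 11) (.e (nat_lit 16465) (nat_lit 13) (.e (nat_lit 483339) (nat_lit 9) .nil)))) .nil)) 
(.lf (nat_lit 235252) (.g (nat_lit 488) (.e (nat_lit 122624) (nat_lit 5) (.e (nat_lit 221192) (nat_lit 11) (.e (nat_lit 336153) (nat_lit 9) (.e (nat_lit 336442) (nat_lit 32) (.e (nat_lit 474880) (nat_lit 5) .nil))))) .nil)))) (.nd (nat_lit 4) (.nd (nat_lit 5) 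
(.lf (nat_lit 235212) (.g (nat_lit 248) (.e (nat_lit 122624) (nat_lit 0) (.e (nat_lit 7089) (nat_lit 379) (.e (nat_lit 123165) (nat_lit 256) (.e (nat_lit 318) (nat_lit 23) (.e (nat_lit 360192) (nat_lit 5) .nil))))) .nil)) 
(.lf (nat_lit 235244) (.g (nat_lit 1386) (.e (nat_lit 122624) (nat_lit 4) (.e (nat_lit 213032) (nat_lit 11) (.e (nat_lit 24659) (nat_lit 13) (.e (nat_lit 393274) (nat_lit 23) (.e (nat_lit 433920) (nat_lit 20) .nil))))) .nil))) (.nd (nat_lit 5) 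
(.lf (nat_lit 235228) (.g (nat_lit 1734) (.e (nat_lit 122624) (nat_lit 2) (.e (nat_lit 196656) (nat_lit 11) (.e (nat_lit 16477) (nat_lit 15) (.e (nat_lit 1800) (nat_lit 119) (.e (nat_lit 516171) (nat_lit 13) .nil))))) .nil)) 
(.lf (nat_lit 235260) (.g (nat_lit 355) (.e (nat_lit 122624) (nat_lit 5) (.e (nat_lit 221193) (nat_lit 11) (.e (nat_lit 336215) (nat_lit 13) .nil))) .nil)))))) (.nd (nat_lit 2) (.nd (nat_lit 3) (.nd (nat_lit 4) (.nd (nat_lit 5) 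
(.lf (nat_lit 235202) (.g (nat_lit 1921) (.e (nat_lit 106556) (nat_lit 15) (.e (nat_lit 57816) (nat_lit 246) (.e (nat_lit 57902) (nat_lit 277) (.e (nat_lit 131140) (nat_lit 27) (.e (nat_lit 426188) (nat_lit 9) (.e (nat_lit 426442) (nat_lit 19) .nil)))))) (.g (nat_lit 6) .nil .nil))) 
(.lf (nat_lit 235234) (.g (nat_lit 531) (.e (nat_lit 122624) (nat_lit 3) (.e (nat_lit 204811) (nat_lit 9) (.e (nat_lit 426230) (nat_lit 9) (.e (nat_lit 426565) (nat_lit 34) (.e (nat_lit 401152) (nat_lit 3) .nil))))) .nil))) (.nd (nat_lit 5) 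
(.lf (nat_lit 235218) (.g (nat_lit 1909) (.e (nat_lit 122624) (nat_lit 2) (.e (nat_lit 196654) (nat_lit 11) (.e (nat_lit 16438) (nat_lit 9) (.e (nat_lit 426566) (nat_lit 34) (.e (nat_lit 401152) (nat_lit 3) .nil))))) .nil)) 
(.lf (nat_lit 235250) (.g (nat_lit 491) (.e (nat_lit 122624) (nat_lit 5) (.e (nat_lit 221192) (nat_lit 11) (.e (nat_lit 336121) (nat_lit 9) (.e (nat_lit 336442) (nat_lit 32) (.e (nat_lit 474880) (nat_lit 5) .nil))))) .nil)))) (.nd (nat_lit 4) (.nd (nat_lit 5) 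
(.lf (nat_lit 235210) (.g (nat_lit 935) (.e (nat_lit 122624) (nat_lit 0) (.e (nat_lit 3268) (nat_lit 199) (.e (nat_lit 548891) (nat_lit 11) (.e (nat_lit 81954) (nat_lit 23) .nil)))) .nil)) 
(.lf (nat_lit 235242) (.g (nat_lit 471) (.e (nat_lit 122624) (nat_lit 4) (.e (nat_lit 213032) (nat_lit 11) (.e (nat_lit 24659) (nat_lit 13) .nil))) .nil))) (.nd (nat_lit 5) 
(.lf (nat_lit 235226) (.g (nat_lit 895) (.e (nat_lit 122624) (nat_lit 2) (.e (nat_lit 196656) (nat_lit 11) (.e (nat_lit 16475) (nat_lit 15) .nil))) .nil)) 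
(.lf (nat_lit 235258) (.g (nat_lit 1127) (.e (nat_lit 122624) (nat_lit 5) (.e (nat_lit 221193) (nat_lit 11) (.e (nat_lit 336213) (nat_lit 13) (.e (nat_lit 393273) (nat_lit 23) .nil)))) .nil))))) (.nd (nat_lit 3) (.nd (nat_lit 4) (.nd (nat_lit 5) 
(.lf (nat_lit 235206) (.g (nat_lit 539) (.e (nat_lit 106556) (nat_lit 15) (.e (nat_lit 57883) (nat_lit 270) (.e (nat_lit 453) (nat_lit 34) .nil))) .nil)) 
(.lf (nat_lit 235238) (.g (nat_lit 536) (.e (nat_lit 122624) (nat_lit 4) (.e (nat_lit 213030) (nat_lit 11) (.e (nat_lit 24654) (nat_lit 13) .nil))) .nil))) (.nd (nat_lit 5) 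
(.lf (nat_lit 235222) (.g (nat_lit 679) (.e (nat_lit 122624) (nat_lit 2) (.e (nat_lit 196656) (nat_lit 11) (.e (nat_lit 16392) (nat_lit 0) .nil))) .nil)) 
(.lf (nat_lit 235254) (.g (nat_lit 511) (.e (nat_lit 122624) (nat_lit 5) (.e (nat_lit 221192) (nat_lit 11) (.e (nat_lit 336154) (nat_lit 9) (.e (nat_lit 336442) (nat_lit 32) (.e (nat_lit 474880) (nat_lit 5) .nil))))) .nil)))) (.nd (nat_lit 4) (.nd (nat_lit 5) 
(.lf (nat_lit 235214) (.g (nat_lit 956) (.e (nat_lit 122624) (nat_lit 2) (.e (nat_lit 196653) (nat_lit 11) (.e (nat_lit 16465) (nat_lit 13) (.e (nat_lit 483339) (nat_lit 9) .nil)))) .nil)) 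
(.lf (nat_lit 235246) (.g (nat_lit 1014) (.e (nat_lit 122624) (nat_lit 4) (.e (nat_lit 213032) (nat_lit 11) (.e (nat_lit 24659) (nat_lit 13) (.e (nat_lit 393279) (nat_lit 23) (.e (nat_lit 426447) (nat_lit 20) .nil))))) .nil))) (.nd (nat_lit 5) 
(.lf (nat_lit 235230) (.g (nat_lit 1262) (.e (nat_lit 122624) (nat_lit 3) (.e (nat_lit 204809) (nat_lit 9) (.e (nat_lit 433920) (nat_lit 18) (.e (nat_lit 98367) (nat_lit 27) (.e (nat_lit 434234) (nat_lit 23) .nil))))) .nil)) 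
(.lf (nat_lit 235262) (.g (nat_lit 562) (.e (nat_lit 122624) (nat_lit 5) (.e (nat_lit 221193) (nat_lit 11) (.e (nat_lit 336222) (nat_lit 13) (.e (nat_lit 393266) (nat_lit 23) .nil)))) .nil))))))) (.nd (nat_lit 1) (.nd (nat_lit 2) (.nd (nat_lit 3) (.nd (nat_lit 4) (.nd (nat_lit 5) 
(.lf (nat_lit 235201) (.g (nat_lit 1036) (.e (nat_lit 106556) (nat_lit 15) (.e (nat_lit 57816) (nat_lit 246) (.e (nat_lit 57902) (nat_lit 277) (.e (nat_lit 131138) (nat_lit 27) (.e (nat_lit 426234) (nat_lit 9) (.e (nat_lit 426443) (nat_lit 19) .nil)))))) (.g (nat_lit 0) .nil .nil))) 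
(.lf (nat_lit 235233) (.g (nat_lit 315) (.e (nat_lit 122624) (nat_lit 3) (.e (nat_lit 204811) (nat_lit 9) (.e (nat_lit 426228) (nat_lit 9) (.e (nat_lit 426565) (nat_lit 34) .nil)))) .nil))) (.nd (nat_lit 5) 
(.lf (nat_lit 235217) (.g (nat_lit 1936) (.e (nat_lit 122624) (nat_lit 2) (.e (nat_lit 196654) (nat_lit 11) (.e (nat_lit 16436) (nat_lit 9) (.e (nat_lit 426568) (nat_lit 34) (.e (nat_lit 401152) (nat_lit 3) .nil))))) .nil)) 
(.lf (nat_lit 235249) (.g (nat_lit 504) (.e (nat_lit 122624) (nat_lit 5) (.e (nat_lit 221192) (nat_lit 11) (.e (nat_lit 336119) (nat_lit 9) (.e (nat_lit 336442) (nat_lit 32) (.e (nat_lit 474880) (nat_lit 5) .nil))))) .nil)))) (.nd (nat_lit 4) (.nd (nat_lit 5) 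
(.lf (nat_lit 235209) (.g (nat_lit 427) (.e (nat_lit 114692) (nat_lit 0) (.e (nat_lit 6988) (nat_lit 377) (.e (nat_lit 1376) (nat_lit 104) .nil))) .nil)) 
(.lf (nat_lit 235241) (.g (nat_lit 1724) (.e (nat_lit 122624) (nat_lit 4) (.e (nat_lit 213032) (nat_lit 11) (.e (nat_lit 24627) (nat_lit 9) (.e (nat_lit 336443) (nat_lit 32) (.e (nat_lit 474880) (nat_lit 5) .nil))))) .nil))) (.nd (nat_lit 5) 
(.lf (nat_lit 235225) (.g (nat_lit 1114) (.e (nat_lit 122624) (nat_lit 2) (.e (nat_lit 196656) (nat_lit 11) (.e (nat_lit 16465) (nat_lit 13) (.e (nat_lit 491264) (nat_lit 9) .nil)))) .nil)) 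
(.lf (nat_lit 235257) (.g (nat_lit 1294) (.e (nat_lit 122624) (nat_lit 5) (.e (nat_lit 221193) (nat_lit 11) (.e (nat_lit 336086) (nat_lit 9) (.e (nat_lit 336443) (nat_lit 32) (.e (nat_lit 474880) (nat_lit 5) .nil))))) .nil))))) (.nd (nat_lit 3) (.nd (nat_lit 4) (.nd (nat_lit 5) 
(.lf (nat_lit 235205) (.g (nat_lit 656) (.e (nat_lit 106556) (nat_lit 15) (.e (nat_lit 57865) (nat_lit 256) (.e (nat_lit 317) (nat_lit 23) (.e (nat_lit 352313) (nat_lit 23) (.e (nat_lit 98321) (nat_lit 17) (.e (nat_lit 7936) (nat_lit 220) (.e (nat_lit 720949) (nat_lit 24) .nil))))))) (.g (nat_lit 4) .nil .nil))) 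
(.lf (nat_lit 235237) (.g (nat_lit 849) (.e (nat_lit 122624) (nat_lit 3) (.e (nat_lit 204842) (nat_lit 22) (.e (nat_lit 147461) (nat_lit 0) (.e (nat_lit 1235) (nat_lit 91) (.e (nat_lit 90170) (nat_lit 13) .nil))))) .nil))) (.nd (nat_lit 5) 
(.lf (nat_lit 235221) (.g (nat_lit 906) (.e (nat_lit 122624) (nat_lit 2) (.e (nat_lit 196655) (nat_lit 11) (.e (nat_lit 16465) (nat_lit 13) (.e (nat_lit 491264) (nat_lit 9) .nil)))) .nil)) 
(.lf (nat_lit 235253) (.g (nat_lit 471) (.e (nat_lit 122624) (nat_lit 5) (.e (nat_lit 221192) (nat_lit 11) (.e (nat_lit 336154) (nat_lit 9) (.e (nat_lit 336429) (nat_lit 29) (.e (nat_lit 450304) (nat_lit 5) .nil))))) .nil)))) (.nd (nat_lit 4) (.nd (nat_lit 5) 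
(.lf (nat_lit 235213) (.g (nat_lit 1373) (.e (nat_lit 122624) (nat_lit 2) (.e (nat_lit 196624) (nat_lit 9) (.e (nat_lit 381) (nat_lit 32) (.e (nat_lit 426438) (nat_lit 18) (.e (nat_lit 98358) (nat_lit 26) .nil))))) .nil)) 
(.lf (nat_lit 235245) (.g (nat_lit 815) (.e (nat_lit 122624) (nat_lit 4) (.e (nat_lit 213032) (nat_lit 11) (.e (nat_lit 24659) (nat_lit 13) (.e (nat_lit 393279) (nat_lit 23) .nil)))) .nil))) (.nd (nat_lit 5) 
(.lf (nat_lit 235229) (.g (nat_lit 552) (.e (nat_lit 122624) (nat_lit 2) (.e (nat_lit 196656) (nat_lit 11) (.e (nat_lit 24320) (nat_lit 17) .nil))) .nil)) 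
(.lf (nat_lit 235261) (.g (nat_lit 1051) (.e (nat_lit 122624) (nat_lit 5) (.e (nat_lit 221193) (nat_lit 11) (.e (nat_lit 336215) (nat_lit 13) (.e (nat_lit 401152) (nat_lit 23) .nil)))) .nil)))))) (.nd (nat_lit 2) (.nd (nat_lit 3) (.nd (nat_lit 4) (.nd (nat_lit 5) 
(.lf (nat_lit 235203) (.g (nat_lit 882) (.e (nat_lit 106556) (nat_lit 15) (.e (nat_lit 57865) (nat_lit 256) (.e (nat_lit 317) (nat_lit 23) (.e (nat_lit 352313) (nat_lit 23) (.e (nat_lit 98321) (nat_lit 17) (.e (nat_lit 7936) (nat_lit 220) (.e (nat_lit 720947) (nat_lit 24) .nil))))))) (.g (nat_lit 5) .nil .nil))) 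
(.lf (nat_lit 235235) (.g (nat_lit 652) (.e (nat_lit 122624) (nat_lit 3) (.e (nat_lit 204813) (nat_lit 9) (.e (nat_lit 426383) (nat_lit 15) .nil))) .nil))) (.nd (nat_lit 5) 
(.lf (nat_lit 235219) (.g (nat_lit 2144) (.e (nat_lit 122624) (nat_lit 2) (.e (nat_lit 196654) (nat_lit 11) (.e (nat_lit 16438) (nat_lit 9) (.e (nat_lit 426568) (nat_lit 34) (.e (nat_lit 401152) (nat_lit 3) .nil))))) .nil)) 
(.lf (nat_lit 235251) (.g (nat_lit 535) (.e (nat_lit 122624) (nat_lit 5) (.e (nat_lit 221192) (nat_lit 11) (.e (nat_lit 336152) (nat_lit 9) (.e (nat_lit 336442) (nat_lit 32) (.e (nat_lit 474880) (nat_lit 5) .nil))))) .nil)))) (.nd (nat_lit 4) (.nd (nat_lit 5) 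
(.lf (nat_lit 235211) (.g (nat_lit 169) (.e (nat_lit 122624) (nat_lit 0) (.e (nat_lit 7089) (nat_lit 379) (.e (nat_lit 123163) (nat_lit 256) (.e (nat_lit 318) (nat_lit 23) (.e (nat_lit 360192) (nat_lit 5) .nil))))) .nil)) 
(.lf (nat_lit 235243) (.g (nat_lit 815) (.e (nat_lit 122624) (nat_lit 4) (.e (nat_lit 213032) (nat_lit 11) (.e (nat_lit 24659) (nat_lit 13) (.e (nat_lit 393267) (nat_lit 23) .nil)))) .nil))) (.nd (nat_lit 5) 
(.lf (nat_lit 235227) (.g (nat_lit 1651) (.e (nat_lit 122624) (nat_lit 2) (.e (nat_lit 196656) (nat_lit 11) (.e (nat_lit 16477) (nat_lit 15) (.e (nat_lit 1800) (nat_lit 119) (.e (nat_lit 516149) (nat_lit 9) .nil))))) .nil)) 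
(.lf (nat_lit 235259) (.g (nat_lit 440) (.e (nat_lit 122624) (nat_lit 5) (.e (nat_lit 221193) (nat_lit 11) (.e (nat_lit 336214) (nat_lit 13) .nil))) .nil))))) (.nd (nat_lit 3) (.nd (nat_lit 4) (.nd (nat_lit 5) 
(.lf (nat_lit 235207) (.g (nat_lit 289) (.e (nat_lit 114690) (nat_lit 0) (.e (nat_lit 7083) (nat_lit 379) (.e (nat_lit 123164) (nat_lit 256) (.e (nat_lit 318) (nat_lit 23) .nil)))) .nil)) 
(.lf (nat_lit 235239) (.g (nat_lit 2165) (.e (nat_lit 122624) (nat_lit 4) (.e (nat_lit 213032) (nat_lit 11) (.e (nat_lit 24624) (nat_lit 9) (.e (nat_lit 336443) (nat_lit 32) (.e (nat_lit 474880) (nat_lit 5) .nil))))) .nil))) (.nd (nat_lit 5) 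
(.lf (nat_lit 235223) (.g (nat_lit 1403) (.e (nat_lit 122624) (nat_lit 2) (.e (nat_lit 196656) (nat_lit 11) (.e (nat_lit 16392) (nat_lit 0) (.e (nat_lit 3279) (nat_lit 200) .nil)))) .nil)) 
(.lf (nat_lit 235255) (.g (nat_lit 1275) (.e (nat_lit 122624) (nat_lit 5) (.e (nat_lit 221193) (nat_lit 11) (.e (nat_lit 336086) (nat_lit 9) (.e (nat_lit 336428) (nat_lit 29) (.e (nat_lit 450304) (nat_lit 5) .nil))))) .nil)))) (.nd (nat_lit 4) (.nd (nat_lit 5) 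
(.lf (nat_lit 235215) (.g (nat_lit 939) (.e (nat_lit 122624) (nat_lit 2) (.e (nat_lit 196653) (nat_lit 11) (.e (nat_lit 16465) (nat_lit 13) (.e (nat_lit 491264) (nat_lit 9) .nil)))) .nil)) 
(.lf (nat_lit 235247) (.g (nat_lit 311) (.e (nat_lit 122624) (nat_lit 5) (.e (nat_lit 221190) (nat_lit 11) (.e (nat_lit 336215) (nat_lit 13) .nil))) .nil))) (.nd (nat_lit 5) 
(.lf (nat_lit 235231) (.g (nat_lit 479) (.e (nat_lit 122624) (nat_lit 3) (.e (nat_lit 204810) (nat_lit 9) (.e (nat_lit 426228) (nat_lit 9) (.e (nat_lit 426565) (nat_lit 34) (.e (nat_lit 401152) (nat_lit 3) .nil))))) .nil)) 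
(.lf (nat_lit 235263) (.g (nat_lit 900) (.e (nat_lit 122624) (nat_lit 5) (.e (nat_lit 221193) (nat_lit 11) (.e (nat_lit 336222) (nat_lit 13) (.e (nat_lit 393279) (nat_lit 23) (.e (nat_lit 433920) (nat_lit 20) .nil))))) .nil))))))))

noncomputable def tv3071 : DT := (.nd (nat_lit 0) (.nd (nat_lit 1) (.nd (nat_lit 2) (.nd (nat_lit 3) (.nd (nat_lit 4) (.nd (nat_lit 5) (.nd (nat_lit 6) 
(.lf (nat_lit 235264) (.g (nat_lit 1723) (.e (nat_lit 122624) (nat_lit 5) (.e (nat_lit 221194) (nat_lit 11) (.e (nat_lit 336074) (nat_lit 9) (.e (nat_lit 336443) (nat_lit 32) (.e (nat_lit 474880) (nat_lit 5) .nil))))) .nil)) 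
(.lf (nat_lit 235328) (.g (nat_lit 1742) (.e (nat_lit 122624) (nat_lit 5) (.e (nat_lit 221194) (nat_lit 11) (.e (nat_lit 336223) (nat_lit 13) (.e (nat_lit 393279) (nat_lit 23) (.e (nat_lit 433920) (nat_lit 20) .nil))))) .nil))) (.nd (nat_lit 6) 
(.lf (nat_lit 235296) (.g (nat_lit 1314) (.e (nat_lit 122624) (nat_lit 5) (.e (nat_lit 221194) (nat_lit 11) (.e (nat_lit 336203) (nat_lit 12) (.e (nat_lit 392960) (nat_lit 8) .nil)))) .nil)) 
(.lf (nat_lit 235360) (.g (nat_lit 1802) (.e (nat_lit 114695) (nat_lit 11) (.e (nat_lit 426261) (nat_lit 9) (.e (nat_lit 426554) (nat_lit 32) (.e (nat_lit 376860) (nat_lit 21) (.e (nat_lit 57851) (nat_lit 252) (.e (nat_lit 57389) (nat_lit 5) .nil)))))) (.g (nat_lit 6) .nil .nil))))) (.nd (nat_lit 5) (.nd (nat_lit 6) 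
(.lf (nat_lit 235280) (.g (nat_lit 1405) (.e (nat_lit 122624) (nat_lit 5) (.e (nat_lit 221194) (nat_lit 11) (.e (nat_lit 336086) (nat_lit 9) (.e (nat_lit 336428) (nat_lit 29) (.e (nat_lit 450304) (nat_lit 5) .nil))))) .nil)) 
(.lf (nat_lit 235344) (.g (nat_lit 1769) (.e (nat_lit 114694) (nat_lit 11) (.e (nat_lit 426190) (nat_lit 9) (.e (nat_lit 426555) (nat_lit 32) (.e (nat_lit 376859) (nat_lit 21) (.e (nat_lit 57847) (nat_lit 252) .nil))))) .nil))) (.nd (nat_lit 6) 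
(.lf (nat_lit 235312) (.g (nat_lit 535) (.e (nat_lit 122624) (nat_lit 5) (.e (nat_lit 221194) (nat_lit 11) (.e (nat_lit 336221) (nat_lit 13) .nil))) .nil)) 
(.lf (nat_lit 235376) (.g (nat_lit 2084) (.e (nat_lit 114696) (nat_lit 11) (.e (nat_lit 426260) (nat_lit 9) (.e (nat_lit 426554) (nat_lit 32) (.e (nat_lit 376860) (nat_lit 21) (.e (nat_lit 57854) (nat_lit 252) (.e (nat_lit 57388) (nat_lit 5) .nil)))))) (.g (nat_lit 6) .nil .nil)))))) (.nd (nat_lit 4) (.nd (nat_lit 5) (.nd (nat_lit 6) 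
(.lf (nat_lit 235272) (.g (nat_lit 1496) (.e (nat_lit 122624) (nat_lit 5) (.e (nat_lit 221194) (nat_lit 11) (.e (nat_lit 336084) (nat_lit 9) (.e (nat_lit 336430) (nat_lit 29) (.e (nat_lit 450304) (nat_lit 5) .nil))))) .nil)) 
(.lf (nat_lit 235336) (.g (nat_lit 1312) (.e (nat_lit 114694) (nat_lit 11) (.e (nat_lit 426124) (nat_lit 2) (.e (nat_lit 196672) (nat_lit 15) (.e (nat_lit 81922) (nat_lit 0) .nil)))) .nil))) (.nd (nat_lit 6) 
(.lf (nat_lit 235304) (.g (nat_lit 828) (.e (nat_lit 122624) (nat_lit 5) (.e (nat_lit 221194) (nat_lit 11) (.e (nat_lit 336214) (nat_lit 13) (.e (nat_lit 393279) (nat_lit 23) .nil)))) .nil)) 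
(.lf (nat_lit 235368) (.g (nat_lit 1669) (.e (nat_lit 114696) (nat_lit 11) (.e (nat_lit 426260) (nat_lit 9) (.e (nat_lit 426554) (nat_lit 32) (.e (nat_lit 376857) (nat_lit 21) (.e (nat_lit 57848) (nat_lit 252) (.e (nat_lit 57388) (nat_lit 5) .nil)))))) (.g (nat_lit 0) .nil .nil))))) (.nd (nat_lit 5) (.nd (nat_lit 6) 
(.lf (nat_lit 235288) (.g (nat_lit 1560) (.e (nat_lit 122624) (nat_lit 5) (.e (nat_lit 221194) (nat_lit 11) (.e (nat_lit 336088) (nat_lit 9) (.e (nat_lit 336392) (nat_lit 27) .nil)))) .nil)) 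
(.lf (nat_lit 235352) (.g (nat_lit 1799) (.e (nat_lit 114695) (nat_lit 11) (.e (nat_lit 426260) (nat_lit 9) (.e (nat_lit 426554) (nat_lit 32) (.e (nat_lit 376857) (nat_lit 21) (.e (nat_lit 57847) (nat_lit 252) (.e (nat_lit 57390) (nat_lit 5) .nil)))))) (.g (nat_lit 6) .nil .nil)))) (.nd (nat_lit 6) 
(.lf (nat_lit 235320) (.g (nat_lit 903) (.e (nat_lit 122624) (nat_lit 5) (.e (nat_lit 221194) (nat_lit 11) (.e (nat_lit 336223) (nat_lit 13) (.e (nat_lit 393234) (nat_lit 17) .nil)))) .nil)) 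
(.lf (nat_lit 235384) (.g (nat_lit 2038) (.e (nat_lit 114696) (nat_lit 11) (.e (nat_lit 426261) (nat_lit 9) (.e (nat_lit 426554) (nat_lit 32) (.e (nat_lit 376857) (nat_lit 21) (.e (nat_lit 57853) (nat_lit 252) (.e (nat_lit 57388) (nat_lit 5) .nil)))))) (.g (nat_lit 6) .nil .nil))))))) (.nd (nat_lit 3) (.nd (nat_lit 4) (.nd (nat_lit 5) (.nd (nat_lit 6) 
(.lf (nat_lit 235268) (.g (nat_lit 1181) (.e (nat_lit 122624) (nat_lit 5) (.e (nat_lit 221194) (nat_lit 11) (.e (nat_lit 336077) (nat_lit 9) (.e (nat_lit 336443) (nat_lit 32) (.e (nat_lit 474880) (nat_lit 5) .nil))))) .nil)) 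
(.lf (nat_lit 235332) (.g (nat_lit 940) (.e (nat_lit 114694) (nat_lit 11) (.e (nat_lit 426114) (nat_lit 2) (.e (nat_lit 196681) (nat_lit 17) (.e (nat_lit 131123) (nat_lit 12) .nil)))) .nil))) (.nd (nat_lit 6) 
(.lf (nat_lit 235300) (.g (nat_lit 1122) (.e (nat_lit 122624) (nat_lit 5) (.e (nat_lit 221194) (nat_lit 11) (.e (nat_lit 336213) (nat_lit 13) (.e (nat_lit 393279) (nat_lit 23) .nil)))) .nil)) 
(.lf (nat_lit 235364) (.g (nat_lit 2518) (.e (nat_lit 114695) (nat_lit 11) (.e (nat_lit 426347) (nat_lit 14) (.e (nat_lit 491566) (nat_lit 12) (.e (nat_lit 385104) (nat_lit 50) (.e (nat_lit 786447) (nat_lit 15) (.e (nat_lit 2191) (nat_lit 144) (.e (nat_lit 720955) (nat_lit 25) .nil))))))) (.g (nat_lit 4) .nil .nil))))) (.nd (nat_lit 5) (.nd (nat_lit 6) 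
(.lf (nat_lit 235284) (.g (nat_lit 1554) (.e (nat_lit 122624) (nat_lit 5) (.e (nat_lit 221194) (nat_lit 11) (.e (nat_lit 336087) (nat_lit 9) (.e (nat_lit 336443) (nat_lit 32) (.e (nat_lit 474880) (nat_lit 5) .nil))))) .nil)) 
(.lf (nat_lit 235348) (.g (nat_lit 1361) (.e (nat_lit 114694) (nat_lit 11) (.e (nat_lit 433920) (nat_lit 34) (.e (nat_lit 393268) (nat_lit 23) (.e (nat_lit 426438) (nat_lit 18) (.e (nat_lit 106240) (nat_lit 3) .nil))))) (.g (nat_lit 4) .nil .nil)))) (.nd (nat_lit 6) 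
(.lf (nat_lit 235316) (.g (nat_lit 1041) (.e (nat_lit 122624) (nat_lit 5) (.e (nat_lit 221194) (nat_lit 11) (.e (nat_lit 336222) (nat_lit 13) (.e (nat_lit 393266) (nat_lit 23) .nil)))) .nil)) 
(.lf (nat_lit 235380) (.g (nat_lit 1901) (.e (nat_lit 114696) (nat_lit 11) (.e (nat_lit 426261) (nat_lit 9) (.e (nat_lit 426554) (nat_lit 32) (.e (nat_lit 376857) (nat_lit 21) (.e (nat_lit 57849) (nat_lit 252) (.e (nat_lit 57388) (nat_lit 5) .nil)))))) (.g (nat_lit 6) .nil .nil)))))) (.nd (nat_lit 4) (.nd (nat_lit 5) (.nd (nat_lit 6) 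
(.lf (nat_lit 235276) (.g (nat_lit 1207) (.e (nat_lit 122624) (nat_lit 5) (.e (nat_lit 221194) (nat_lit 11) (.e (nat_lit 336085) (nat_lit 9) (.e (nat_lit 336428) (nat_lit 29) (.e (nat_lit 450304) (nat_lit 5) .nil))))) .nil)) 
(.lf (nat_lit 235340) (.g (nat_lit 1727) (.e (nat_lit 114694) (nat_lit 11) (.e (nat_lit 426190) (nat_lit 9) (.e (nat_lit 426555) (nat_lit 32) (.e (nat_lit 376856) (nat_lit 21) .nil)))) .nil))) (.nd (nat_lit 6) 
(.lf (nat_lit 235308) (.g (nat_lit 1223) (.e (nat_lit 122624) (nat_lit 5) (.e (nat_lit 221194) (nat_lit 11) (.e (nat_lit 336215) (nat_lit 13) (.e (nat_lit 393279) (nat_lit 23) .nil)))) .nil)) 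
(.lf (nat_lit 235372) (.g (nat_lit 1823) (.e (nat_lit 114696) (nat_lit 11) (.e (nat_lit 426260) (nat_lit 9) (.e (nat_lit 426554) (nat_lit 32) (.e (nat_lit 376859) (nat_lit 21) (.e (nat_lit 57848) (nat_lit 252) (.e (nat_lit 57388) (nat_lit 5) .nil)))))) (.g (nat_lit 6) .nil .nil))))) (.nd (nat_lit 5) (.nd (nat_lit 6) 
(.lf (nat_lit 235292) (.g (nat_lit 1646) (.e (nat_lit 122624) (nat_lit 5) (.e (nat_lit 221194) (nat_lit 11) (.e (nat_lit 336088) (nat_lit 9) (.e (nat_lit 336431) (nat_lit 29) (.e (nat_lit 450304) (nat_lit 5) .nil))))) .nil)) 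
(.lf (nat_lit 235356) (.g (nat_lit 1764) (.e (nat_lit 114695) (nat_lit 11) (.e (nat_lit 426261) (nat_lit 9) (.e (nat_lit 426554) (nat_lit 32) (.e (nat_lit 376857) (nat_lit 21) (.e (nat_lit 57847) (nat_lit 252) (.e (nat_lit 57390) (nat_lit 5) .nil)))))) (.g (nat_lit 6) .nil .nil)))) (.nd (nat_lit 6) 
(.lf (nat_lit 235324) (.g (nat_lit 2158) (.e (nat_lit 122624) (nat_lit 5) (.e (nat_lit 221194) (nat_lit 11) (.e (nat_lit 336223) (nat_lit 13) (.e (nat_lit 393274) (nat_lit 23) (.e (nat_lit 433920) (nat_lit 20) .nil))))) .nil)) 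
(.lf (nat_lit 235388) (.g (nat_lit 1780) (.e (nat_lit 114696) (nat_lit 11) (.e (nat_lit 426261) (nat_lit 9) (.e (nat_lit 426554) (nat_lit 32) (.e (nat_lit 376859) (nat_lit 21) (.e (nat_lit 57849) (nat_lit 252) (.e (nat_lit 57390) (nat_lit 5) .nil)))))) (.g (nat_lit 6) .nil .nil)))))))) (.nd (nat_lit 2) (.nd (nat_lit 3) (.nd (nat_lit 4) (.nd (nat_lit 5) (.nd (nat_lit 6) 
(.lf (nat_lit 235266) (.g (nat_lit 1020) (.e (nat_lit 122624) (nat_lit 5) (.e (nat_lit 221194) (nat_lit 11) (.e (nat_lit 336076) (nat_lit 9) (.e (nat_lit 336441) (nat_lit 32) .nil)))) .nil)) 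
(.lf (nat_lit 235330) (.g (nat_lit 1406) (.e (nat_lit 122624) (nat_lit 5) (.e (nat_lit 221194) (nat_lit 11) (.e (nat_lit 336223) (nat_lit 13) (.e (nat_lit 393281) (nat_lit 23) (.e (nat_lit 433920) (nat_lit 20) .nil))))) .nil))) (.nd (nat_lit 6) 
(.lf (nat_lit 235298) (.g (nat_lit 1825) (.e (nat_lit 122624) (nat_lit 5) (.e (nat_lit 221194) (nat_lit 11) (.e (nat_lit 336213) (nat_lit 13) (.e (nat_lit 393267) (nat_lit 23) (.e (nat_lit 426446) (nat_lit 20) .nil))))) .nil)) 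
(.lf (nat_lit 235362) (.g (nat_lit 2333) (.e (nat_lit 114695) (nat_lit 11) (.e (nat_lit 426261) (nat_lit 9) (.e (nat_lit 426554) (nat_lit 32) (.e (nat_lit 376860) (nat_lit 21) (.e (nat_lit 57854) (nat_lit 252) (.e (nat_lit 57389) (nat_lit 5) .nil)))))) (.g (nat_lit 6) .nil .nil))))) (.nd (nat_lit 5) (.nd (nat_lit 6) 
(.lf (nat_lit 235282) (.g (nat_lit 1426) (.e (nat_lit 122624) (nat_lit 5) (.e (nat_lit 221194) (nat_lit 11) (.e (nat_lit 336086) (nat_lit 9) (.e (nat_lit 336443) (nat_lit 32) (.e (nat_lit 474880) (nat_lit 5) .nil))))) .nil)) 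
(.lf (nat_lit 235346) (.g (nat_lit 1238) (.e (nat_lit 114694) (nat_lit 11) (.e (nat_lit 426190) (nat_lit 9) (.e (nat_lit 426555) (nat_lit 32) (.e (nat_lit 376860) (nat_lit 21) .nil)))) .nil))) (.nd (nat_lit 6) 
(.lf (nat_lit 235314) (.g (nat_lit 1107) (.e (nat_lit 122624) (nat_lit 5) (.e (nat_lit 221194) (nat_lit 11) (.e (nat_lit 336221) (nat_lit 13) (.e (nat_lit 393279) (nat_lit 23) (.e (nat_lit 433920) (nat_lit 20) .nil))))) .nil)) 
(.lf (nat_lit 235378) (.g (nat_lit 1786) (.e (nat_lit 114696) (nat_lit 11) (.e (nat_lit 426261) (nat_lit 9) (.e (nat_lit 426554) (nat_lit 32) (.e (nat_lit 376857) (nat_lit 21) (.e (nat_lit 57847) (nat_lit 252) (.e (nat_lit 57388) (nat_lit 5) .nil)))))) (.g (nat_lit 6) .nil .nil)))))) (.nd (nat_lit 4) (.nd (nat_lit 5) (.nd (nat_lit 6) 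
(.lf (nat_lit 235274) (.g (nat_lit 539) (.e (nat_lit 122624) (nat_lit 5) (.e (nat_lit 221194) (nat_lit 11) (.e (nat_lit 336085) (nat_lit 9) .nil))) .nil)) 
(.lf (nat_lit 235338) (.g (nat_lit 1860) (.e (nat_lit 114694) (nat_lit 11) (.e (nat_lit 426188) (nat_lit 9) (.e (nat_lit 426555) (nat_lit 32) (.e (nat_lit 376860) (nat_lit 21) (.e (nat_lit 57851) (nat_lit 252) .nil))))) .nil))) (.nd (nat_lit 6) 
(.lf (nat_lit 235306) (.g (nat_lit 1391) (.e (nat_lit 122624) (nat_lit 5) (.e (nat_lit 221194) (nat_lit 11) (.e (nat_lit 336215) (nat_lit 13) (.e (nat_lit 393269) (nat_lit 23) .nil)))) .nil)) 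
(.lf (nat_lit 235370) (.g (nat_lit 1998) (.e (nat_lit 114696) (nat_lit 11) (.e (nat_lit 426260) (nat_lit 9) (.e (nat_lit 426554) (nat_lit 32) (.e (nat_lit 376859) (nat_lit 21) (.e (nat_lit 57846) (nat_lit 252) (.e (nat_lit 57388) (nat_lit 5) .nil)))))) (.g (nat_lit 6) .nil .nil))))) (.nd (nat_lit 5) (.nd (nat_lit 6) 
(.lf (nat_lit 235290) (.g (nat_lit 2161) (.e (nat_lit 122624) (nat_lit 5) (.e (nat_lit 221194) (nat_lit 11) (.e (nat_lit 336088) (nat_lit 9) (.e (nat_lit 336395) (nat_lit 27) (.e (nat_lit 426201) (nat_lit 9) .nil))))) .nil)) 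
(.lf (nat_lit 235354) (.g (nat_lit 1874) (.e (nat_lit 114695) (nat_lit 11) (.e (nat_lit 426260) (nat_lit 9) (.e (nat_lit 426554) (nat_lit 32) (.e (nat_lit 376857) (nat_lit 21) (.e (nat_lit 57852) (nat_lit 252) (.e (nat_lit 57389) (nat_lit 5) .nil)))))) (.g (nat_lit 0) .nil .nil)))) (.nd (nat_lit 6) 
(.lf (nat_lit 235322) (.g (nat_lit 2405) (.e (nat_lit 122624) (nat_lit 5) (.e (nat_lit 221194) (nat_lit 11) (.e (nat_lit 336223) (nat_lit 13) (.e (nat_lit 393266) (nat_lit 23) (.e (nat_lit 433920) (nat_lit 20) .nil))))) .nil)) 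
(.lf (nat_lit 235386) (.g (nat_lit 1880) (.e (nat_lit 114696) (nat_lit 11) (.e (nat_lit 426261) (nat_lit 9) (.e (nat_lit 426554) (nat_lit 32) (.e (nat_lit 376859) (nat_lit 21) (.e (nat_lit 57846) (nat_lit 252) (.e (nat_lit 57388) (nat_lit 5) .nil)))))) (.g (nat_lit 6) .nil .nil))))))) (.nd (nat_lit 3) (.nd (nat_lit 4) (.nd (nat_lit 5) (.nd (nat_lit 6) 
(.lf (nat_lit 235270) (.g (nat_lit 1373) (.e (nat_lit 122624) (nat_lit 5) (.e (nat_lit 221194) (nat_lit 11) (.e (nat_lit 336078) (nat_lit 9) (.e (nat_lit 336443) (nat_lit 32) (.e (nat_lit 474880) (nat_lit 5) .nil))))) .nil)) 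
(.lf (nat_lit 235334) (.g (nat_lit 3115) (.e (nat_lit 114694) (nat_lit 11) (.e (nat_lit 426123) (nat_lit 2) (.e (nat_lit 196666) (nat_lit 13) (.e (nat_lit 65622) (nat_lit 12) (.e (nat_lit 385066) (nat_lit 26) (.e (nat_lit 532515) (nat_lit 3) .nil)))))) (.g (nat_lit 4) .nil .nil)))) (.nd (nat_lit 6) 
(.lf (nat_lit 235302) (.g (nat_lit 473) (.e (nat_lit 122624) (nat_lit 5) (.e (nat_lit 221194) (nat_lit 11) (.e (nat_lit 336214) (nat_lit 13) .nil))) .nil)) 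
(.lf (nat_lit 235366) (.g (nat_lit 2285) (.e (nat_lit 114696) (nat_lit 11) (.e (nat_lit 426129) (nat_lit 3) (.e (nat_lit 204861) (nat_lit 26) (.e (nat_lit 336194) (nat_lit 12) (.e (nat_lit 385066) (nat_lit 26) .nil))))) .nil)))) (.nd (nat_lit 5) (.nd (nat_lit 6) 
(.lf (nat_lit 235286) (.g (nat_lit 1837) (.e (nat_lit 122624) (nat_lit 5) (.e (nat_lit 221194) (nat_lit 11) (.e (nat_lit 336088) (nat_lit 9) (.e (nat_lit 336381) (nat_lit 27) (.e (nat_lit 426187) (nat_lit 9) .nil))))) .nil)) 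
(.lf (nat_lit 235350) (.g (nat_lit 1315) (.e (nat_lit 114694) (nat_lit 11) (.e (nat_lit 433920) (nat_lit 34) (.e (nat_lit 393273) (nat_lit 23) (.e (nat_lit 426438) (nat_lit 18) (.e (nat_lit 106240) (nat_lit 3) .nil))))) (.g (nat_lit 4) .nil .nil)))) (.nd (nat_lit 6) 
(.lf (nat_lit 235318) (.g (nat_lit 932) (.e (nat_lit 122624) (nat_lit 5) (.e (nat_lit 221194) (nat_lit 11) (.e (nat_lit 336222) (nat_lit 13) (.e (nat_lit 393279) (nat_lit 23) (.e (nat_lit 426445) (nat_lit 20) .nil))))) .nil)) 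
(.lf (nat_lit 235382) (.g (nat_lit 1559) (.e (nat_lit 114696) (nat_lit 11) (.e (nat_lit 426261) (nat_lit 9) (.e (nat_lit 426554) (nat_lit 32) (.e (nat_lit 376857) (nat_lit 21) (.e (nat_lit 57851) (nat_lit 252) (.e (nat_lit 57388) (nat_lit 5) .nil)))))) (.g (nat_lit 6) .nil .nil)))))) (.nd (nat_lit 4) (.nd (nat_lit 5) (.nd (nat_lit 6) 
(.lf (nat_lit 235278) (.g (nat_lit 1784) (.e (nat_lit 122624) (nat_lit 5) (.e (nat_lit 221194) (nat_lit 11) (.e (nat_lit 336085) (nat_lit 9) (.e (nat_lit 336443) (nat_lit 32) (.e (nat_lit 474880) (nat_lit 5) .nil))))) .nil)) 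
(.lf (nat_lit 235342) (.g (nat_lit 1210) (.e (nat_lit 114694) (nat_lit 11) (.e (nat_lit 426190) (nat_lit 9) (.e (nat_lit 426555) (nat_lit 32) (.e (nat_lit 376859) (nat_lit 21) .nil)))) .nil))) (.nd (nat_lit 6) 
(.lf (nat_lit 235310) (.g (nat_lit 895) (.e (nat_lit 122624) (nat_lit 5) (.e (nat_lit 221194) (nat_lit 11) (.e (nat_lit 336215) (nat_lit 13) (.e (nat_lit 401152) (nat_lit 23) .nil)))) .nil)) 
(.lf (nat_lit 235374) (.g (nat_lit 1771) (.e (nat_lit 114696) (nat_lit 11) (.e (nat_lit 426260) (nat_lit 9) (.e (nat_lit 426554) (nat_lit 32) (.e (nat_lit 376860) (nat_lit 21) (.e (nat_lit 57851) (nat_lit 252) (.e (nat_lit 57388) (nat_lit 5) .nil)))))) (.g (nat_lit 6) .nil .nil))))) (.nd (nat_lit 5) (.nd (nat_lit 6) 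
(.lf (nat_lit 235294) (.g (nat_lit 488) (.e (nat_lit 122624) (nat_lit 5) (.e (nat_lit 221194) (nat_lit 11) (.e (nat_lit 336100) (nat_lit 9) .nil))) .nil)) 
(.lf (nat_lit 235358) (.g (nat_lit 1837) (.e (nat_lit 114695) (nat_lit 11) (.e (nat_lit 426261) (nat_lit 9) (.e (nat_lit 426554) (nat_lit 32) (.e (nat_lit 376857) (nat_lit 21) (.e (nat_lit 57852) (nat_lit 252) (.e (nat_lit 57389) (nat_lit 5) .nil)))))) (.g (nat_lit 0) .nil .nil)))) (.nd (nat_lit 6) 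
(.lf (nat_lit 235326) (.g (nat_lit 2216) (.e (nat_lit 122624) (nat_lit 5) (.e (nat_lit 221194) (nat_lit 11) (.e (nat_lit 336223) (nat_lit 13) (.e (nat_lit 393277) (nat_lit 23) .nil)))) .nil)) 
(.lf (nat_lit 235390) (.g (nat_lit 1971) (.e (nat_lit 114696) (nat_lit 11) (.e (nat_lit 426261) (nat_lit 9) (.e (nat_lit 426554) (nat_lit 32) (.e (nat_lit 376860) (nat_lit 21) (.e (nat_lit 57852) (nat_lit 252) (.e (nat_lit 57388) (nat_lit 5) .nil)))))) (.g (nat_lit 6) .nil .nil))))))))) (.nd (nat_lit 1) (.nd (nat_lit 2) (.nd (nat_lit 3) (.nd (nat_lit 4) (.nd (nat_lit 5) (.nd (nat_lit 6) 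
(.lf (nat_lit 235265) (.g (nat_lit 1383) (.e (nat_lit 122624) (nat_lit 5) (.e (nat_lit 221194) (nat_lit 11) (.e (nat_lit 336076) (nat_lit 9) (.e (nat_lit 336426) (nat_lit 29) (.e (nat_lit 450304) (nat_lit 5) .nil))))) .nil)) 
(.lf (nat_lit 235329) (.g (nat_lit 2516) (.e (nat_lit 122624) (nat_lit 5) (.e (nat_lit 221194) (nat_lit 11) (.e (nat_lit 336223) (nat_lit 13) (.e (nat_lit 393280) (nat_lit 23) (.e (nat_lit 433920) (nat_lit 20) .nil))))) .nil))) (.nd (nat_lit 6) 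
(.lf (nat_lit 235297) (.g (nat_lit 2606) (.e (nat_lit 122624) (nat_lit 5) (.e (nat_lit 221194) (nat_lit 11) (.e (nat_lit 336213) (nat_lit 13) (.e (nat_lit 393266) (nat_lit 23) .nil)))) .nil)) 
(.lf (nat_lit 235361) (.g (nat_lit 2358) (.e (nat_lit 114695) (nat_lit 11) (.e (nat_lit 426261) (nat_lit 9) (.e (nat_lit 426554) (nat_lit 32) (.e (nat_lit 376860) (nat_lit 21) (.e (nat_lit 57853) (nat_lit 252) (.e (nat_lit 57389) (nat_lit 5) .nil)))))) (.g (nat_lit 6) .nil .nil))))) (.nd (nat_lit 5) (.nd (nat_lit 6) 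
(.lf (nat_lit 235281) (.g (nat_lit 1550) (.e (nat_lit 122624) (nat_lit 5) (.e (nat_lit 221194) (nat_lit 11) (.e (nat_lit 336086) (nat_lit 9) (.e (nat_lit 336430) (nat_lit 29) (.e (nat_lit 450304) (nat_lit 5) .nil))))) .nil)) 
(.lf (nat_lit 235345) (.g (nat_lit 2212) (.e (nat_lit 114694) (nat_lit 11) (.e (nat_lit 426190) (nat_lit 9) (.e (nat_lit 426555) (nat_lit 32) (.e (nat_lit 376859) (nat_lit 21) (.e (nat_lit 57849) (nat_lit 252) (.e (nat_lit 57390) (nat_lit 5) .nil)))))) (.g (nat_lit 4) .nil .nil)))) (.nd (nat_lit 6) 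
(.lf (nat_lit 235313) (.g (nat_lit 730) (.e (nat_lit 122624) (nat_lit 5) (.e (nat_lit 221194) (nat_lit 11) (.e (nat_lit 336221) (nat_lit 13) (.e (nat_lit 393279) (nat_lit 23) .nil)))) .nil)) 
(.lf (nat_lit 235377) (.g (nat_lit 1900) (.e (nat_lit 114696) (nat_lit 11) (.e (nat_lit 426261) (nat_lit 9) (.e (nat_lit 426554) (nat_lit 32) (.e (nat_lit 376857) (nat_lit 21) (.e (nat_lit 57846) (nat_lit 252) (.e (nat_lit 57388) (nat_lit 5) .nil)))))) (.g (nat_lit 6) .nil .nil)))))) (.nd (nat_lit 4) (.nd (nat_lit 5) (.nd (nat_lit 6) 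
(.lf (nat_lit 235273) (.g (nat_lit 1667) (.e (nat_lit 122624) (nat_lit 5) (.e (nat_lit 221194) (nat_lit 11) (.e (nat_lit 336084) (nat_lit 9) (.e (nat_lit 336443) (nat_lit 32) (.e (nat_lit 474880) (nat_lit 5) .nil))))) .nil)) 
(.lf (nat_lit 235337) (.g (nat_lit 448) (.e (nat_lit 114694) (nat_lit 11) (.e (nat_lit 426188) (nat_lit 9) (.e (nat_lit 426555) (nat_lit 32) .nil))) .nil))) (.nd (nat_lit 6) 
(.lf (nat_lit 235305) (.g (nat_lit 458) (.e (nat_lit 122624) (nat_lit 5) (.e (nat_lit 221194) (nat_lit 11) (.e (nat_lit 336215) (nat_lit 13) .nil))) .nil)) 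
(.lf (nat_lit 235369) (.g (nat_lit 1963) (.e (nat_lit 114696) (nat_lit 11) (.e (nat_lit 426260) (nat_lit 9) (.e (nat_lit 426554) (nat_lit 32) (.e (nat_lit 376857) (nat_lit 21) (.e (nat_lit 57849) (nat_lit 252) (.e (nat_lit 57388) (nat_lit 5) .nil)))))) (.g (nat_lit 0) .nil .nil))))) (.nd (nat_lit 5) (.nd (nat_lit 6) 
(.lf (nat_lit 235289) (.g (nat_lit 2161) (.e (nat_lit 122624) (nat_lit 5) (.e (nat_lit 221194) (nat_lit 11) (.e (nat_lit 336088) (nat_lit 9) (.e (nat_lit 336395) (nat_lit 27) (.e (nat_lit 426195) (nat_lit 9) .nil))))) .nil)) 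
(.lf (nat_lit 235353) (.g (nat_lit 1887) (.e (nat_lit 114695) (nat_lit 11) (.e (nat_lit 426260) (nat_lit 9) (.e (nat_lit 426554) (nat_lit 32) (.e (nat_lit 376857) (nat_lit 21) (.e (nat_lit 57849) (nat_lit 252) (.e (nat_lit 57390) (nat_lit 5) .nil)))))) (.g (nat_lit 0) .nil .nil)))) (.nd (nat_lit 6) 
(.lf (nat_lit 235321) (.g (nat_lit 2264) (.e (nat_lit 122624) (nat_lit 5) (.e (nat_lit 221194) (nat_lit 11) (.e (nat_lit 336223) (nat_lit 13) (.e (nat_lit 393234) (nat_lit 17) (.e (nat_lit 7309) (nat_lit 388) .nil))))) .nil)) 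
(.lf (nat_lit 235385) (.g (nat_lit 1870) (.e (nat_lit 114696) (nat_lit 11) (.e (nat_lit 426261) (nat_lit 9) (.e (nat_lit 426554) (nat_lit 32) (.e (nat_lit 376857) (nat_lit 21) (.e (nat_lit 57854) (nat_lit 252) (.e (nat_lit 57388) (nat_lit 5) .nil)))))) (.g (nat_lit 6) .nil .nil))))))) (.nd (nat_lit 3) (.nd (nat_lit 4) (.nd (nat_lit 5) (.nd (nat_lit 6) 
(.lf (nat_lit 235269) (.g (nat_lit 463) (.e (nat_lit 122624) (nat_lit 5) (.e (nat_lit 221194) (nat_lit 11) (.e (nat_lit 336078) (nat_lit 9) .nil))) .nil)) 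
(.lf (nat_lit 235333) (.g (nat_lit 2991) (.e (nat_lit 114694) (nat_lit 11) (.e (nat_lit 426123) (nat_lit 2) (.e (nat_lit 196666) (nat_lit 13) (.e (nat_lit 65622) (nat_lit 12) (.e (nat_lit 385066) (nat_lit 26) .nil))))) .nil))) (.nd (nat_lit 6) 
(.lf (nat_lit 235301) (.g (nat_lit 950) (.e (nat_lit 122624) (nat_lit 5) (.e (nat_lit 221194) (nat_lit 11) (.e (nat_lit 336213) (nat_lit 13) (.e (nat_lit 401152) (nat_lit 23) .nil)))) .nil)) 
(.lf (nat_lit 235365) (.g (nat_lit 3278) (.e (nat_lit 114695) (nat_lit 11) (.e (nat_lit 426347) (nat_lit 14) (.e (nat_lit 491566) (nat_lit 12) (.e (nat_lit 385105) (nat_lit 50) (.e (nat_lit 786450) (nat_lit 15) .nil))))) .nil)))) (.nd (nat_lit 5) (.nd (nat_lit 6) 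
(.lf (nat_lit 235285) (.g (nat_lit 322) (.e (nat_lit 122624) (nat_lit 5) (.e (nat_lit 221194) (nat_lit 11) (.e (nat_lit 336088) (nat_lit 9) .nil))) .nil)) 
(.lf (nat_lit 235349) (.g (nat_lit 989) (.e (nat_lit 114694) (nat_lit 11) (.e (nat_lit 433920) (nat_lit 34) (.e (nat_lit 393273) (nat_lit 23) (.e (nat_lit 426437) (nat_lit 18) (.e (nat_lit 106240) (nat_lit 3) .nil))))) (.g (nat_lit 4) .nil .nil)))) (.nd (nat_lit 6) 
(.lf (nat_lit 235317) (.g (nat_lit 1080) (.e (nat_lit 122624) (nat_lit 5) (.e (nat_lit 221194) (nat_lit 11) (.e (nat_lit 336222) (nat_lit 13) (.e (nat_lit 393274) (nat_lit 23) .nil)))) .nil)) 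
(.lf (nat_lit 235381) (.g (nat_lit 1721) (.e (nat_lit 114696) (nat_lit 11) (.e (nat_lit 426261) (nat_lit 9) (.e (nat_lit 426554) (nat_lit 32) (.e (nat_lit 376857) (nat_lit 21) (.e (nat_lit 57849) (nat_lit 252) (.e (nat_lit 57390) (nat_lit 5) .nil)))))) (.g (nat_lit 6) .nil .nil)))))) (.nd (nat_lit 4) (.nd (nat_lit 5) (.nd (nat_lit 6) 
(.lf (nat_lit 235277) (.g (nat_lit 1464) (.e (nat_lit 122624) (nat_lit 5) (.e (nat_lit 221194) (nat_lit 11) (.e (nat_lit 336085) (nat_lit 9) (.e (nat_lit 336430) (nat_lit 29) (.e (nat_lit 450304) (nat_lit 5) .nil))))) .nil)) 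
(.lf (nat_lit 235341) (.g (nat_lit 1900) (.e (nat_lit 114694) (nat_lit 11) (.e (nat_lit 426190) (nat_lit 9) (.e (nat_lit 426555) (nat_lit 32) (.e (nat_lit 376857) (nat_lit 21) (.e (nat_lit 57848) (nat_lit 252) .nil))))) .nil))) (.nd (nat_lit 6) 
(.lf (nat_lit 235309) (.g (nat_lit 1368) (.e (nat_lit 122624) (nat_lit 5) (.e (nat_lit 221194) (nat_lit 11) (.e (nat_lit 336215) (nat_lit 13) (.e (nat_lit 393279) (nat_lit 23) (.e (nat_lit 426447) (nat_lit 20) .nil))))) .nil)) 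
(.lf (nat_lit 235373) (.g (nat_lit 2079) (.e (nat_lit 114696) (nat_lit 11) (.e (nat_lit 426260) (nat_lit 9) (.e (nat_lit 426554) (nat_lit 32) (.e (nat_lit 376859) (nat_lit 21) (.e (nat_lit 57849) (nat_lit 252) (.e (nat_lit 57388) (nat_lit 5) .nil)))))) (.g (nat_lit 6) .nil .nil))))) (.nd (nat_lit 5) (.nd (nat_lit 6) 
(.lf (nat_lit 235293) (.g (nat_lit 1928) (.e (nat_lit 122624) (nat_lit 5) (.e (nat_lit 221194) (nat_lit 11) (.e (nat_lit 336088) (nat_lit 9) (.e (nat_lit 336443) (nat_lit 32) (.e (nat_lit 474880) (nat_lit 5) .nil))))) .nil)) 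
(.lf (nat_lit 235357) (.g (nat_lit 1853) (.e (nat_lit 114695) (nat_lit 11) (.e (nat_lit 426261) (nat_lit 9) (.e (nat_lit 426554) (nat_lit 32) (.e (nat_lit 376857) (nat_lit 21) (.e (nat_lit 57849) (nat_lit 252) (.e (nat_lit 57390) (nat_lit 5) .nil)))))) (.g (nat_lit 0) .nil .nil)))) (.nd (nat_lit 6) 
(.lf (nat_lit 235325) (.g (nat_lit 2539) (.e (nat_lit 122624) (nat_lit 5) (.e (nat_lit 221194) (nat_lit 11) (.e (nat_lit 336223) (nat_lit 13) (.e (nat_lit 393275) (nat_lit 23) (.e (nat_lit 433920) (nat_lit 20) .nil))))) .nil)) 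
(.lf (nat_lit 235389) (.g (nat_lit 1660) (.e (nat_lit 114696) (nat_lit 11) (.e (nat_lit 426261) (nat_lit 9) (.e (nat_lit 426554) (nat_lit 32) (.e (nat_lit 376860) (nat_lit 21) (.e (nat_lit 57851) (nat_lit 252) (.e (nat_lit 57388) (nat_lit 5) .nil)))))) (.g (nat_lit 6) .nil .nil)))))))) (.nd (nat_lit 2) (.nd (nat_lit 3) (.nd (nat_lit 4) (.nd (nat_lit 5) (.nd (nat_lit 6) 
(.lf (nat_lit 235267) (.g (nat_lit 1500) (.e (nat_lit 122624) (nat_lit 5) (.e (nat_lit 221194) (nat_lit 11) (.e (nat_lit 336076) (nat_lit 9) (.e (nat_lit 336443) (nat_lit 32) (.e (nat_lit 474880) (nat_lit 5) .nil))))) .nil)) 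
(.lf (nat_lit 235331) (.g (nat_lit 1093) (.e (nat_lit 122624) (nat_lit 5) (.e (nat_lit 221194) (nat_lit 11) (.e (nat_lit 336223) (nat_lit 13) (.e (nat_lit 401152) (nat_lit 23) .nil)))) .nil))) (.nd (nat_lit 6) 
(.lf (nat_lit 235299) (.g (nat_lit 1414) (.e (nat_lit 122624) (nat_lit 5) (.e (nat_lit 221194) (nat_lit 11) (.e (nat_lit 336213) (nat_lit 13) (.e (nat_lit 393269) (nat_lit 23) .nil)))) .nil)) 
(.lf (nat_lit 235363) (.g (nat_lit 1970) (.e (nat_lit 114695) (nat_lit 11) (.e (nat_lit 426347) (nat_lit 14) (.e (nat_lit 491566) (nat_lit 12) (.e (nat_lit 385104) (nat_lit 50) .nil)))) .nil)))) (.nd (nat_lit 5) (.nd (nat_lit 6) 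
(.lf (nat_lit 235283) (.g (nat_lit 1175) (.e (nat_lit 122624) (nat_lit 5) (.e (nat_lit 221194) (nat_lit 11) (.e (nat_lit 336087) (nat_lit 9) (.e (nat_lit 336431) (nat_lit 29) (.e (nat_lit 450304) (nat_lit 5) .nil))))) .nil)) 
(.lf (nat_lit 235347) (.g (nat_lit 2453) (.e (nat_lit 114694) (nat_lit 11) (.e (nat_lit 426190) (nat_lit 9) (.e (nat_lit 426555) (nat_lit 32) (.e (nat_lit 376860) (nat_lit 21) (.e (nat_lit 57854) (nat_lit 252) (.e (nat_lit 57389) (nat_lit 5) .nil)))))) (.g (nat_lit 4) .nil .nil)))) (.nd (nat_lit 6) 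
(.lf (nat_lit 235315) (.g (nat_lit 447) (.e (nat_lit 122624) (nat_lit 5) (.e (nat_lit 221194) (nat_lit 11) (.e (nat_lit 336222) (nat_lit 13) .nil))) .nil)) 
(.lf (nat_lit 235379) (.g (nat_lit 1607) (.e (nat_lit 114696) (nat_lit 11) (.e (nat_lit 426261) (nat_lit 9) (.e (nat_lit 426554) (nat_lit 32) (.e (nat_lit 376857) (nat_lit 21) (.e (nat_lit 57848) (nat_lit 252) (.e (nat_lit 57388) (nat_lit 5) .nil)))))) (.g (nat_lit 6) .nil .nil)))))) (.nd (nat_lit 4) (.nd (nat_lit 5) (.nd (nat_lit 6) 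
(.lf (nat_lit 235275) (.g (nat_lit 761) (.e (nat_lit 122624) (nat_lit 5) (.e (nat_lit 221194) (nat_lit 11) (.e (nat_lit 336085) (nat_lit 9) (.e (nat_lit 336427) (nat_lit 29) .nil)))) .nil)) 
(.lf (nat_lit 235339) (.g (nat_lit 1432) (.e (nat_lit 114694) (nat_lit 11) (.e (nat_lit 426189) (nat_lit 9) (.e (nat_lit 426555) (nat_lit 32) (.e (nat_lit 376857) (nat_lit 21) (.e (nat_lit 57849) (nat_lit 252) (.e (nat_lit 57390) (nat_lit 5) .nil)))))) (.g (nat_lit 4) .nil .nil)))) (.nd (nat_lit 6) 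
(.lf (nat_lit 235307) (.g (nat_lit 1866) (.e (nat_lit 122624) (nat_lit 5) (.e (nat_lit 221194) (nat_lit 11) (.e (nat_lit 336215) (nat_lit 13) (.e (nat_lit 393274) (nat_lit 23) (.e (nat_lit 433920) (nat_lit 20) .nil))))) .nil)) 
(.lf (nat_lit 235371) (.g (nat_lit 1854) (.e (nat_lit 114696) (nat_lit 11) (.e (nat_lit 426260) (nat_lit 9) (.e (nat_lit 426554) (nat_lit 32) (.e (nat_lit 376859) (nat_lit 21) (.e (nat_lit 57847) (nat_lit 252) (.e (nat_lit 57388) (nat_lit 5) .nil)))))) (.g (nat_lit 6) .nil .nil))))) (.nd (nat_lit 5) (.nd (nat_lit 6) 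
(.lf (nat_lit 235291) (.g (nat_lit 1521) (.e (nat_lit 122624) (nat_lit 5) (.e (nat_lit 221194) (nat_lit 11) (.e (nat_lit 336088) (nat_lit 9) (.e (nat_lit 336419) (nat_lit 27) .nil)))) .nil)) 
(.lf (nat_lit 235355) (.g (nat_lit 2009) (.e (nat_lit 114695) (nat_lit 11) (.e (nat_lit 426260) (nat_lit 9) (.e (nat_lit 426554) (nat_lit 32) (.e (nat_lit 376859) (nat_lit 21) (.e (nat_lit 57849) (nat_lit 252) (.e (nat_lit 57390) (nat_lit 5) .nil)))))) (.g (nat_lit 0) .nil .nil)))) (.nd (nat_lit 6) 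
(.lf (nat_lit 235323) (.g (nat_lit 1600) (.e (nat_lit 122624) (nat_lit 5) (.e (nat_lit 221194) (nat_lit 11) (.e (nat_lit 336223) (nat_lit 13) (.e (nat_lit 393269) (nat_lit 23) .nil)))) .nil)) 
(.lf (nat_lit 235387) (.g (nat_lit 1966) (.e (nat_lit 114696) (nat_lit 11) (.e (nat_lit 426261) (nat_lit 9) (.e (nat_lit 426554) (nat_lit 32) (.e (nat_lit 376859) (nat_lit 21) (.e (nat_lit 57849) (nat_lit 252) (.e (nat_lit 57388) (nat_lit 5) .nil)))))) (.g (nat_lit 6) .nil .nil))))))) (.nd (nat_lit 3) (.nd (nat_lit 4) (.nd (nat_lit 5) (.nd (nat_lit 6) 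
(.lf (nat_lit 235271) (.g (nat_lit 1104) (.e (nat_lit 122624) (nat_lit 5) (.e (nat_lit 221194) (nat_lit 11) (.e (nat_lit 336084) (nat_lit 9) (.e (nat_lit 336428) (nat_lit 29) (.e (nat_lit 450304) (nat_lit 5) .nil))))) .nil)) 
(.lf (nat_lit 235335) (.g (nat_lit 2660) (.e (nat_lit 114694) (nat_lit 11) (.e (nat_lit 426123) (nat_lit 2) (.e (nat_lit 196666) (nat_lit 13) (.e (nat_lit 65624) (nat_lit 12) (.e (nat_lit 385066) (nat_lit 26) (.e (nat_lit 532513) (nat_lit 3) .nil)))))) (.g (nat_lit 4) .nil .nil)))) (.nd (nat_lit 6) 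
(.lf (nat_lit 235303) (.g (nat_lit 828) (.e (nat_lit 122624) (nat_lit 5) (.e (nat_lit 221194) (nat_lit 11) (.e (nat_lit 336214) (nat_lit 13) (.e (nat_lit 393274) (nat_lit 23) .nil)))) .nil)) 
(.lf (nat_lit 235367) (.g (nat_lit 282) (.e (nat_lit 114696) (nat_lit 11) (.e (nat_lit 426234) (nat_lit 9) (.e (nat_lit 426552) (nat_lit 32) (.e (nat_lit 384768) (nat_lit 5) .nil)))) .nil)))) (.nd (nat_lit 5) (.nd (nat_lit 6) 
(.lf (nat_lit 235287) (.g (nat_lit 1338) (.e (nat_lit 122624) (nat_lit 5) (.e (nat_lit 221194) (nat_lit 11) (.e (nat_lit 336088) (nat_lit 9) (.e (nat_lit 336383) (nat_lit 27) .nil)))) .nil)) 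
(.lf (nat_lit 235351) (.g (nat_lit 1259) (.e (nat_lit 114694) (nat_lit 11) (.e (nat_lit 433920) (nat_lit 34) (.e (nat_lit 393296) (nat_lit 26) (.e (nat_lit 475179) (nat_lit 24) (.e (nat_lit 524032) (nat_lit 20) .nil))))) (.g (nat_lit 4) .nil .nil)))) (.nd (nat_lit 6) 
(.lf (nat_lit 235319) (.g (nat_lit 1037) (.e (nat_lit 122624) (nat_lit 5) (.e (nat_lit 221194) (nat_lit 11) (.e (nat_lit 336222) (nat_lit 13) (.e (nat_lit 393279) (nat_lit 23) (.e (nat_lit 433920) (nat_lit 20) .nil))))) .nil)) 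
(.lf (nat_lit 235383) (.g (nat_lit 1724) (.e (nat_lit 114696) (nat_lit 11) (.e (nat_lit 426261) (nat_lit 9) (.e (nat_lit 426554) (nat_lit 32) (.e (nat_lit 376857) (nat_lit 21) (.e (nat_lit 57852) (nat_lit 252) (.e (nat_lit 57388) (nat_lit 5) .nil)))))) (.g (nat_lit 6) .nil .nil)))))) (.nd (nat_lit 4) (.nd (nat_lit 5) (.nd (nat_lit 6) 
(.lf (nat_lit 235279) (.g (nat_lit 2136) (.e (nat_lit 122624) (nat_lit 5) (.e (nat_lit 221194) (nat_lit 11) (.e (nat_lit 336086) (nat_lit 9) (.e (nat_lit 336369) (nat_lit 27) (.e (nat_lit 426201) (nat_lit 9) .nil))))) .nil)) 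
(.lf (nat_lit 235343) (.g (nat_lit 1789) (.e (nat_lit 114694) (nat_lit 11) (.e (nat_lit 426190) (nat_lit 9) (.e (nat_lit 426555) (nat_lit 32) (.e (nat_lit 376859) (nat_lit 21) (.e (nat_lit 57846) (nat_lit 252) .nil))))) .nil))) (.nd (nat_lit 6) 
(.lf (nat_lit 235311) (.g (nat_lit 922) (.e (nat_lit 122624) (nat_lit 5) (.e (nat_lit 221194) (nat_lit 11) (.e (nat_lit 336220) (nat_lit 13) (.e (nat_lit 393269) (nat_lit 23) .nil)))) .nil)) 
(.lf (nat_lit 235375) (.g (nat_lit 2120) (.e (nat_lit 114696) (nat_lit 11) (.e (nat_lit 426260) (nat_lit 9) (.e (nat_lit 426554) (nat_lit 32) (.e (nat_lit 376860) (nat_lit 21) (.e (nat_lit 57853) (nat_lit 252) (.e (nat_lit 57388) (nat_lit 5) .nil)))))) (.g (nat_lit 6) .nil .nil))))) (.nd (nat_lit 5) (.nd (nat_lit 6) 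
(.lf (nat_lit 235295) (.g (nat_lit 692) (.e (nat_lit 122624) (nat_lit 5) (.e (nat_lit 221194) (nat_lit 11) (.e (nat_lit 336203) (nat_lit 12) .nil))) .nil)) 
(.lf (nat_lit 235359) (.g (nat_lit 2306) (.e (nat_lit 114695) (nat_lit 11) (.e (nat_lit 426261) (nat_lit 9) (.e (nat_lit 426554) (nat_lit 32) (.e (nat_lit 376857) (nat_lit 21) (.e (nat_lit 57853) (nat_lit 252) (.e (nat_lit 57389) (nat_lit 5) .nil)))))) (.g (nat_lit 0) .nil .nil)))) (.nd (nat_lit 6) 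
(.lf (nat_lit 235327) (.g (nat_lit 1622) (.e (nat_lit 122624) (nat_lit 5) (.e (nat_lit 221194) (nat_lit 11) (.e (nat_lit 336223) (nat_lit 13) (.e (nat_lit 393279) (nat_lit 23) (.e (nat_lit 426445) (nat_lit 20) .nil))))) .nil)) 
(.lf (nat_lit 235391) (.g (nat_lit 2009) (.e (nat_lit 114696) (nat_lit 11) (.e (nat_lit 426261) (nat_lit 9) (.e (nat_lit 426554) (nat_lit 32) (.e (nat_lit 376860) (nat_lit 21) (.e (nat_lit 57853) (nat_lit 252) (.e (nat_lit 57388) (nat_lit 5) .nil)))))) (.g (nat_lit 6) .nil .nil))))))))))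

noncomputable def tv3072 : DT := (.nd (nat_lit 0) (.nd (nat_lit 1) (.nd (nat_lit 2) (.nd (nat_lit 3) (.nd (nat_lit 4) (.nd (nat_lit 5) 
(.lf (nat_lit 235392) (.g (nat_lit 1973) (.e (nat_lit 114696) (nat_lit 11) (.e (nat_lit 426261) (nat_lit 9) (.e (nat_lit 426554) (nat_lit 32) (.e (nat_lit 376860) (nat_lit 21) (.e (nat_lit 57854) (nat_lit 252) (.e (nat_lit 57388) (nat_lit 5) .nil)))))) (.g (nat_lit 6) .nil .nil))) 
(.lf (nat_lit 235424) (.g (nat_lit 1977) (.e (nat_lit 114697) (nat_lit 11) (.e (nat_lit 426186) (nat_lit 9) (.e (nat_lit 426555) (nat_lit 32) (.e (nat_lit 376860) (nat_lit 21) (.e (nat_lit 57852) (nat_lit 252) .nil))))) .nil))) (.nd (nat_lit 5) 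
(.lf (nat_lit 235408) (.g (nat_lit 2182) (.e (nat_lit 114697) (nat_lit 11) (.e (nat_lit 426139) (nat_lit 3) (.e (nat_lit 204852) (nat_lit 26) (.e (nat_lit 336208) (nat_lit 12) (.e (nat_lit 385068) (nat_lit 26) .nil))))) .nil)) 
(.lf (nat_lit 235440) (.g (nat_lit 3236) (.e (nat_lit 114697) (nat_lit 11) (.e (nat_lit 426189) (nat_lit 9) (.e (nat_lit 426555) (nat_lit 32) (.e (nat_lit 376860) (nat_lit 21) (.e (nat_lit 57854) (nat_lit 252) (.e (nat_lit 57389) (nat_lit 5) .nil)))))) (.g (nat_lit 0) .nil .nil))))) (.nd (nat_lit 4) (.nd (nat_lit 5) 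
(.lf (nat_lit 235400) (.g (nat_lit 85) (.e (nat_lit 114696) (nat_lit 11) (.e (nat_lit 426565) (nat_lit 34) (.e (nat_lit 393270) (nat_lit 23) .nil))) .nil)) 
(.lf (nat_lit 235432) (.g (nat_lit 2417) (.e (nat_lit 114697) (nat_lit 11) (.e (nat_lit 426189) (nat_lit 9) (.e (nat_lit 426555) (nat_lit 32) (.e (nat_lit 376857) (nat_lit 21) (.e (nat_lit 57846) (nat_lit 252) (.e (nat_lit 57390) (nat_lit 5) .nil)))))) (.g (nat_lit 5) .nil .nil)))) (.nd (nat_lit 5) 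
(.lf (nat_lit 235416) (.g (nat_lit 856) (.e (nat_lit 114697) (nat_lit 11) (.e (nat_lit 426139) (nat_lit 3) (.e (nat_lit 204877) (nat_lit 31) (.e (nat_lit 384768) (nat_lit 3) .nil)))) .nil)) 
(.lf (nat_lit 235448) (.g (nat_lit 1545) (.e (nat_lit 114697) (nat_lit 11) (.e (nat_lit 426198) (nat_lit 9) (.e (nat_lit 426556) (nat_lit 32) (.e (nat_lit 376859) (nat_lit 21) (.e (nat_lit 57846) (nat_lit 252) (.e (nat_lit 57390) (nat_lit 5) .nil)))))) (.g (nat_lit 4) .nil .nil)))))) (.nd (nat_lit 3) (.nd (nat_lit 4) (.nd (nat_lit 5) 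
(.lf (nat_lit 235396) (.g (nat_lit 3275) (.e (nat_lit 114696) (nat_lit 11) (.e (nat_lit 426347) (nat_lit 14) (.e (nat_lit 491566) (nat_lit 12) (.e (nat_lit 385105) (nat_lit 50) (.e (nat_lit 786450) (nat_lit 15) .nil))))) .nil)) 
(.lf (nat_lit 235428) (.g (nat_lit 1927) (.e (nat_lit 114697) (nat_lit 11) (.e (nat_lit 426187) (nat_lit 9) (.e (nat_lit 426555) (nat_lit 32) (.e (nat_lit 376860) (nat_lit 21) (.e (nat_lit 57852) (nat_lit 252) .nil))))) .nil))) (.nd (nat_lit 5) 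
(.lf (nat_lit 235412) (.g (nat_lit 3386) (.e (nat_lit 114697) (nat_lit 11) (.e (nat_lit 426139) (nat_lit 3) (.e (nat_lit 204861) (nat_lit 26) (.e (nat_lit 336194) (nat_lit 12) (.e (nat_lit 385068) (nat_lit 26) (.e (nat_lit 532513) (nat_lit 3) .nil)))))) (.g (nat_lit 0) .nil .nil))) 
(.lf (nat_lit 235444) (.g (nat_lit 3172) (.e (nat_lit 114697) (nat_lit 11) (.e (nat_lit 426196) (nat_lit 9) (.e (nat_lit 426555) (nat_lit 32) (.e (nat_lit 376857) (nat_lit 21) (.e (nat_lit 57854) (nat_lit 252) (.e (nat_lit 57389) (nat_lit 5) .nil)))))) (.g (nat_lit 0) .nil .nil))))) (.nd (nat_lit 4) (.nd (nat_lit 5) 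
(.lf (nat_lit 235404) (.g (nat_lit 3137) (.e (nat_lit 114697) (nat_lit 11) (.e (nat_lit 426122) (nat_lit 2) (.e (nat_lit 196666) (nat_lit 13) (.e (nat_lit 65624) (nat_lit 12) (.e (nat_lit 385068) (nat_lit 26) (.e (nat_lit 532513) (nat_lit 3) .nil)))))) (.g (nat_lit 0) .nil .nil))) 
(.lf (nat_lit 235436) (.g (nat_lit 3152) (.e (nat_lit 114697) (nat_lit 11) (.e (nat_lit 426189) (nat_lit 9) (.e (nat_lit 426555) (nat_lit 32) (.e (nat_lit 376857) (nat_lit 21) (.e (nat_lit 57854) (nat_lit 252) (.e (nat_lit 57389) (nat_lit 5) .nil)))))) (.g (nat_lit 0) .nil .nil)))) (.nd (nat_lit 5) 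
(.lf (nat_lit 235420) (.g (nat_lit 1789) (.e (nat_lit 114697) (nat_lit 11) (.e (nat_lit 426186) (nat_lit 9) (.e (nat_lit 426555) (nat_lit 32) (.e (nat_lit 376857) (nat_lit 21) (.e (nat_lit 57852) (nat_lit 252) .nil))))) .nil)) 
(.lf (nat_lit 235452) (.g (nat_lit 1574) (.e (nat_lit 114697) (nat_lit 11) (.e (nat_lit 426199) (nat_lit 9) (.e (nat_lit 426556) (nat_lit 32) (.e (nat_lit 376859) (nat_lit 21) (.e (nat_lit 57846) (nat_lit 252) (.e (nat_lit 57390) (nat_lit 5) .nil)))))) (.g (nat_lit 4) .nil .nil))))))) (.nd (nat_lit 2) (.nd (nat_lit 3) (.nd (nat_lit 4) (.nd (nat_lit 5) 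
(.lf (nat_lit 235394) (.g (nat_lit 2466) (.e (nat_lit 114696) (nat_lit 11) (.e (nat_lit 426347) (nat_lit 14) (.e (nat_lit 491566) (nat_lit 12) (.e (nat_lit 385104) (nat_lit 50) (.e (nat_lit 786447) (nat_lit 15) .nil))))) .nil)) 
(.lf (nat_lit 235426) (.g (nat_lit 2103) (.e (nat_lit 114697) (nat_lit 11) (.e (nat_lit 426187) (nat_lit 9) (.e (nat_lit 426555) (nat_lit 32) (.e (nat_lit 376859) (nat_lit 21) (.e (nat_lit 57854) (nat_lit 252) (.e (nat_lit 57389) (nat_lit 5) .nil)))))) (.g (nat_lit 4) .nil .nil)))) (.nd (nat_lit 5) 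
(.lf (nat_lit 235410) (.g (nat_lit 2945) (.e (nat_lit 114697) (nat_lit 11) (.e (nat_lit 426139) (nat_lit 3) (.e (nat_lit 204859) (nat_lit 26) (.e (nat_lit 336206) (nat_lit 12) (.e (nat_lit 385068) (nat_lit 26) (.e (nat_lit 532513) (nat_lit 3) .nil)))))) (.g (nat_lit 0) .nil .nil))) 
(.lf (nat_lit 235442) (.g (nat_lit 2903) (.e (nat_lit 114697) (nat_lit 11) (.e (nat_lit 426196) (nat_lit 9) (.e (nat_lit 426555) (nat_lit 32) (.e (nat_lit 376857) (nat_lit 21) (.e (nat_lit 57849) (nat_lit 252) (.e (nat_lit 57388) (nat_lit 5) .nil)))))) (.g (nat_lit 0) .nil .nil))))) (.nd (nat_lit 4) (.nd (nat_lit 5) 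
(.lf (nat_lit 235402) (.g (nat_lit 1245) (.e (nat_lit 114696) (nat_lit 11) (.e (nat_lit 433920) (nat_lit 34) (.e (nat_lit 393273) (nat_lit 23) (.e (nat_lit 426438) (nat_lit 18) (.e (nat_lit 106240) (nat_lit 3) .nil))))) (.g (nat_lit 4) .nil .nil))) 
(.lf (nat_lit 235434) (.g (nat_lit 2871) (.e (nat_lit 114697) (nat_lit 11) (.e (nat_lit 426189) (nat_lit 9) (.e (nat_lit 426555) (nat_lit 32) (.e (nat_lit 376857) (nat_lit 21) (.e (nat_lit 57849) (nat_lit 252) (.e (nat_lit 57388) (nat_lit 5) .nil)))))) (.g (nat_lit 0) .nil .nil)))) (.nd (nat_lit 5) 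
(.lf (nat_lit 235418) (.g (nat_lit 1781) (.e (nat_lit 114697) (nat_lit 11) (.e (nat_lit 426186) (nat_lit 9) (.e (nat_lit 426555) (nat_lit 32) (.e (nat_lit 376857) (nat_lit 21) (.e (nat_lit 57848) (nat_lit 252) .nil))))) .nil)) 
(.lf (nat_lit 235450) (.g (nat_lit 1136) (.e (nat_lit 114697) (nat_lit 11) (.e (nat_lit 426199) (nat_lit 9) (.e (nat_lit 426542) (nat_lit 29) (.e (nat_lit 352309) (nat_lit 21) .nil)))) .nil))))) (.nd (nat_lit 3) (.nd (nat_lit 4) (.nd (nat_lit 5) 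
(.lf (nat_lit 235398) (.g (nat_lit 3145) (.e (nat_lit 114696) (nat_lit 11) (.e (nat_lit 426347) (nat_lit 14) (.e (nat_lit 491572) (nat_lit 14) (.e (nat_lit 401454) (nat_lit 12) (.e (nat_lit 475214) (nat_lit 42) .nil))))) .nil)) 
(.lf (nat_lit 235430) (.g (nat_lit 2359) (.e (nat_lit 114697) (nat_lit 11) (.e (nat_lit 426187) (nat_lit 9) (.e (nat_lit 426555) (nat_lit 32) (.e (nat_lit 376860) (nat_lit 21) (.e (nat_lit 57854) (nat_lit 252) (.e (nat_lit 57389) (nat_lit 5) .nil)))))) (.g (nat_lit 4) .nil .nil)))) (.nd (nat_lit 5) 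
(.lf (nat_lit 235414) (.g (nat_lit 826) (.e (nat_lit 114697) (nat_lit 11) (.e (nat_lit 426139) (nat_lit 3) (.e (nat_lit 204867) (nat_lit 28) .nil))) .nil)) 
(.lf (nat_lit 235446) (.g (nat_lit 2561) (.e (nat_lit 114697) (nat_lit 11) (.e (nat_lit 426196) (nat_lit 9) (.e (nat_lit 426555) (nat_lit 32) (.e (nat_lit 376859) (nat_lit 21) (.e (nat_lit 57849) (nat_lit 252) (.e (nat_lit 57390) (nat_lit 5) .nil)))))) (.g (nat_lit 0) .nil .nil))))) (.nd (nat_lit 4) (.nd (nat_lit 5) 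
(.lf (nat_lit 235406) (.g (nat_lit 2089) (.e (nat_lit 114697) (nat_lit 11) (.e (nat_lit 426138) (nat_lit 3) (.e (nat_lit 204859) (nat_lit 26) (.e (nat_lit 336206) (nat_lit 12) (.e (nat_lit 385068) (nat_lit 26) (.e (nat_lit 532515) (nat_lit 3) .nil)))))) (.g (nat_lit 0) .nil .nil))) 
(.lf (nat_lit 235438) (.g (nat_lit 2559) (.e (nat_lit 114697) (nat_lit 11) (.e (nat_lit 426189) (nat_lit 9) (.e (nat_lit 426555) (nat_lit 32) (.e (nat_lit 376859) (nat_lit 21) (.e (nat_lit 57849) (nat_lit 252) (.e (nat_lit 57390) (nat_lit 5) .nil)))))) (.g (nat_lit 0) .nil .nil)))) (.nd (nat_lit 5) 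
(.lf (nat_lit 235422) (.g (nat_lit 1823) (.e (nat_lit 114697) (nat_lit 11) (.e (nat_lit 426186) (nat_lit 9) (.e (nat_lit 426555) (nat_lit 32) (.e (nat_lit 376859) (nat_lit 21) (.e (nat_lit 57853) (nat_lit 252) .nil))))) .nil)) 
(.lf (nat_lit 235454) (.g (nat_lit 898) (.e (nat_lit 114697) (nat_lit 11) (.e (nat_lit 433920) (nat_lit 34) (.e (nat_lit 393270) (nat_lit 23) (.e (nat_lit 426436) (nat_lit 18) (.e (nat_lit 106240) (nat_lit 3) .nil))))) (.g (nat_lit 4) .nil .nil)))))))) (.nd (nat_lit 1) (.nd (nat_lit 2) (.nd (nat_lit 3) (.nd (nat_lit 4) (.nd (nat_lit 5) 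
(.lf (nat_lit 235393) (.g (nat_lit 1969) (.e (nat_lit 114696) (nat_lit 11) (.e (nat_lit 426347) (nat_lit 14) (.e (nat_lit 491566) (nat_lit 12) (.e (nat_lit 385104) (nat_lit 50) .nil)))) .nil)) 
(.lf (nat_lit 235425) (.g (nat_lit 1750) (.e (nat_lit 114697) (nat_lit 11) (.e (nat_lit 426187) (nat_lit 9) (.e (nat_lit 426555) (nat_lit 32) (.e (nat_lit 376859) (nat_lit 21) (.e (nat_lit 57854) (nat_lit 252) .nil))))) .nil))) (.nd (nat_lit 5) 
(.lf (nat_lit 235409) (.g (nat_lit 435) (.e (nat_lit 114697) (nat_lit 11) (.e (nat_lit 426139) (nat_lit 3) (.e (nat_lit 204859) (nat_lit 26) .nil))) .nil)) 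
(.lf (nat_lit 235441) (.g (nat_lit 715) (.e (nat_lit 114697) (nat_lit 11) (.e (nat_lit 426196) (nat_lit 9) (.e (nat_lit 426542) (nat_lit 29) (.e (nat_lit 352309) (nat_lit 21) .nil)))) .nil)))) (.nd (nat_lit 4) (.nd (nat_lit 5) 
(.lf (nat_lit 235401) (.g (nat_lit 1253) (.e (nat_lit 114696) (nat_lit 11) (.e (nat_lit 433920) (nat_lit 34) (.e (nat_lit 393268) (nat_lit 23) (.e (nat_lit 426438) (nat_lit 18) (.e (nat_lit 106240) (nat_lit 3) .nil))))) (.g (nat_lit 4) .nil .nil))) 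
(.lf (nat_lit 235433) (.g (nat_lit 1633) (.e (nat_lit 114697) (nat_lit 11) (.e (nat_lit 426189) (nat_lit 9) (.e (nat_lit 426555) (nat_lit 32) (.e (nat_lit 376857) (nat_lit 21) (.e (nat_lit 57848) (nat_lit 252) (.e (nat_lit 57390) (nat_lit 5) .nil)))))) (.g (nat_lit 4) .nil .nil)))) (.nd (nat_lit 5) 
(.lf (nat_lit 235417) (.g (nat_lit 1883) (.e (nat_lit 114697) (nat_lit 11) (.e (nat_lit 426186) (nat_lit 9) (.e (nat_lit 426555) (nat_lit 32) (.e (nat_lit 376857) (nat_lit 21) (.e (nat_lit 57844) (nat_lit 252) .nil))))) .nil)) 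
(.lf (nat_lit 235449) (.g (nat_lit 1819) (.e (nat_lit 114697) (nat_lit 11) (.e (nat_lit 426199) (nat_lit 9) (.e (nat_lit 426538) (nat_lit 29) (.e (nat_lit 352309) (nat_lit 21) (.e (nat_lit 57846) (nat_lit 252) (.e (nat_lit 57390) (nat_lit 5) .nil)))))) (.g (nat_lit 4) .nil .nil)))))) (.nd (nat_lit 3) (.nd (nat_lit 4) (.nd (nat_lit 5) 
(.lf (nat_lit 235397) (.g (nat_lit 2887) (.e (nat_lit 114696) (nat_lit 11) (.e (nat_lit 426347) (nat_lit 14) (.e (nat_lit 491572) (nat_lit 14) (.e (nat_lit 401454) (nat_lit 12) (.e (nat_lit 475212) (nat_lit 42) .nil))))) .nil)) 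
(.lf (nat_lit 235429) (.g (nat_lit 2253) (.e (nat_lit 114697) (nat_lit 11) (.e (nat_lit 426187) (nat_lit 9) (.e (nat_lit 426555) (nat_lit 32) (.e (nat_lit 376860) (nat_lit 21) (.e (nat_lit 57853) (nat_lit 252) (.e (nat_lit 57389) (nat_lit 5) .nil)))))) (.g (nat_lit 4) .nil .nil)))) (.nd (nat_lit 5) 
(.lf (nat_lit 235413) (.g (nat_lit 752) (.e (nat_lit 114697) (nat_lit 11) (.e (nat_lit 426139) (nat_lit 3) (.e (nat_lit 204865) (nat_lit 28) (.e (nat_lit 360192) (nat_lit 3) .nil)))) .nil)) 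
(.lf (nat_lit 235445) (.g (nat_lit 2823) (.e (nat_lit 114697) (nat_lit 11) (.e (nat_lit 426196) (nat_lit 9) (.e (nat_lit 426555) (nat_lit 32) (.e (nat_lit 376859) (nat_lit 21) (.e (nat_lit 57849) (nat_lit 252) (.e (nat_lit 57388) (nat_lit 5) .nil)))))) (.g (nat_lit 0) .nil .nil))))) (.nd (nat_lit 4) (.nd (nat_lit 5) 
(.lf (nat_lit 235405) (.g (nat_lit 1003) (.e (nat_lit 114697) (nat_lit 11) (.e (nat_lit 426124) (nat_lit 2) (.e (nat_lit 196674) (nat_lit 15) (.e (nat_lit 89856) (nat_lit 3) .nil)))) .nil)) 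
(.lf (nat_lit 235437) (.g (nat_lit 2818) (.e (nat_lit 114697) (nat_lit 11) (.e (nat_lit 426189) (nat_lit 9) (.e (nat_lit 426555) (nat_lit 32) (.e (nat_lit 376859) (nat_lit 21) (.e (nat_lit 57849) (nat_lit 252) (.e (nat_lit 57388) (nat_lit 5) .nil)))))) (.g (nat_lit 0) .nil .nil)))) (.nd (nat_lit 5) 
(.lf (nat_lit 235421) (.g (nat_lit 1785) (.e (nat_lit 114697) (nat_lit 11) (.e (nat_lit 426186) (nat_lit 9) (.e (nat_lit 426555) (nat_lit 32) (.e (nat_lit 376859) (nat_lit 21) (.e (nat_lit 57851) (nat_lit 252) .nil))))) .nil)) 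
(.lf (nat_lit 235453) (.g (nat_lit 1574) (.e (nat_lit 114697) (nat_lit 11) (.e (nat_lit 433920) (nat_lit 34) (.e (nat_lit 393268) (nat_lit 23) (.e (nat_lit 426438) (nat_lit 18) (.e (nat_lit 106240) (nat_lit 3) .nil))))) (.g (nat_lit 4) .nil .nil))))))) (.nd (nat_lit 2) (.nd (nat_lit 3) (.nd (nat_lit 4) (.nd (nat_lit 5) 
(.lf (nat_lit 235395) (.g (nat_lit 2791) (.e (nat_lit 114696) (nat_lit 11) (.e (nat_lit 426347) (nat_lit 14) (.e (nat_lit 491566) (nat_lit 12) (.e (nat_lit 385104) (nat_lit 50) (.e (nat_lit 786447) (nat_lit 15) (.e (nat_lit 2201) (nat_lit 144) (.e (nat_lit 720954) (nat_lit 25) .nil))))))) (.g (nat_lit 5) .nil .nil))) 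
(.lf (nat_lit 235427) (.g (nat_lit 1813) (.e (nat_lit 114697) (nat_lit 11) (.e (nat_lit 426187) (nat_lit 9) (.e (nat_lit 426555) (nat_lit 32) (.e (nat_lit 376860) (nat_lit 21) (.e (nat_lit 57851) (nat_lit 252) .nil))))) .nil))) (.nd (nat_lit 5) 
(.lf (nat_lit 235411) (.g (nat_lit 1788) (.e (nat_lit 114697) (nat_lit 11) (.e (nat_lit 426139) (nat_lit 3) (.e (nat_lit 204861) (nat_lit 26) (.e (nat_lit 336194) (nat_lit 12) (.e (nat_lit 385064) (nat_lit 26) .nil))))) .nil)) 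
(.lf (nat_lit 235443) (.g (nat_lit 2645) (.e (nat_lit 114697) (nat_lit 11) (.e (nat_lit 426196) (nat_lit 9) (.e (nat_lit 426555) (nat_lit 32) (.e (nat_lit 376857) (nat_lit 21) (.e (nat_lit 57849) (nat_lit 252) (.e (nat_lit 57390) (nat_lit 5) .nil)))))) (.g (nat_lit 0) .nil .nil))))) (.nd (nat_lit 4) (.nd (nat_lit 5) 
(.lf (nat_lit 235403) (.g (nat_lit 913) (.e (nat_lit 114697) (nat_lit 11) (.e (nat_lit 426107) (nat_lit 1) (.e (nat_lit 164421) (nat_lit 272) .nil))) .nil)) 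
(.lf (nat_lit 235435) (.g (nat_lit 2616) (.e (nat_lit 114697) (nat_lit 11) (.e (nat_lit 426189) (nat_lit 9) (.e (nat_lit 426555) (nat_lit 32) (.e (nat_lit 376857) (nat_lit 21) (.e (nat_lit 57849) (nat_lit 252) (.e (nat_lit 57390) (nat_lit 5) .nil)))))) (.g (nat_lit 0) .nil .nil)))) (.nd (nat_lit 5) 
(.lf (nat_lit 235419) (.g (nat_lit 2065) (.e (nat_lit 114697) (nat_lit 11) (.e (nat_lit 426186) (nat_lit 9) (.e (nat_lit 426555) (nat_lit 32) (.e (nat_lit 376857) (nat_lit 21) (.e (nat_lit 57851) (nat_lit 252) (.e (nat_lit 57389) (nat_lit 5) .nil)))))) (.g (nat_lit 4) .nil .nil))) 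
(.lf (nat_lit 235451) (.g (nat_lit 2187) (.e (nat_lit 114697) (nat_lit 11) (.e (nat_lit 426199) (nat_lit 9) (.e (nat_lit 426544) (nat_lit 30) (.e (nat_lit 360453) (nat_lit 0) (.e (nat_lit 5195) (nat_lit 294) (.e (nat_lit 57390) (nat_lit 5) .nil)))))) (.g (nat_lit 5) .nil .nil)))))) (.nd (nat_lit 3) (.nd (nat_lit 4) (.nd (nat_lit 5) 
(.lf (nat_lit 235399) (.g (nat_lit 1547) (.e (nat_lit 114696) (nat_lit 11) (.e (nat_lit 426565) (nat_lit 34) (.e (nat_lit 393268) (nat_lit 23) (.e (nat_lit 426438) (nat_lit 18) (.e (nat_lit 106240) (nat_lit 3) .nil))))) .nil)) 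
(.lf (nat_lit 235431) (.g (nat_lit 2202) (.e (nat_lit 114697) (nat_lit 11) (.e (nat_lit 426189) (nat_lit 9) (.e (nat_lit 426555) (nat_lit 32) (.e (nat_lit 376856) (nat_lit 21) (.e (nat_lit 57854) (nat_lit 252) (.e (nat_lit 57389) (nat_lit 5) .nil)))))) (.g (nat_lit 5) .nil .nil)))) (.nd (nat_lit 5) 
(.lf (nat_lit 235415) (.g (nat_lit 811) (.e (nat_lit 114697) (nat_lit 11) (.e (nat_lit 426139) (nat_lit 3) (.e (nat_lit 204876) (nat_lit 31) (.e (nat_lit 384768) (nat_lit 3) .nil)))) .nil)) 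
(.lf (nat_lit 235447) (.g (nat_lit 3291) (.e (nat_lit 114697) (nat_lit 11) (.e (nat_lit 426196) (nat_lit 9) (.e (nat_lit 426555) (nat_lit 32) (.e (nat_lit 376860) (nat_lit 21) (.e (nat_lit 57854) (nat_lit 252) (.e (nat_lit 57389) (nat_lit 5) .nil)))))) (.g (nat_lit 0) .nil .nil))))) (.nd (nat_lit 4) (.nd (nat_lit 5) 
(.lf (nat_lit 235407) (.g (nat_lit 1377) (.e (nat_lit 114697) (nat_lit 11) (.e (nat_lit 426139) (nat_lit 3) (.e (nat_lit 204850) (nat_lit 26) (.e (nat_lit 336205) (nat_lit 12) (.e (nat_lit 385066) (nat_lit 26) .nil))))) .nil)) 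
(.lf (nat_lit 235439) (.g (nat_lit 1880) (.e (nat_lit 114697) (nat_lit 11) (.e (nat_lit 426189) (nat_lit 9) (.e (nat_lit 426555) (nat_lit 32) (.e (nat_lit 376859) (nat_lit 21) (.e (nat_lit 57851) (nat_lit 252) (.e (nat_lit 57388) (nat_lit 5) .nil)))))) (.g (nat_lit 4) .nil .nil)))) (.nd (nat_lit 5) 
(.lf (nat_lit 235423) (.g (nat_lit 2129) (.e (nat_lit 114697) (nat_lit 11) (.e (nat_lit 426186) (nat_lit 9) (.e (nat_lit 426555) (nat_lit 32) (.e (nat_lit 376860) (nat_lit 21) (.e (nat_lit 57851) (nat_lit 252) (.e (nat_lit 57389) (nat_lit 5) .nil)))))) (.g (nat_lit 4) .nil .nil))) 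
(.lf (nat_lit 235455) (.g (nat_lit 1384) (.e (nat_lit 114697) (nat_lit 11) (.e (nat_lit 433920) (nat_lit 34) (.e (nat_lit 393270) (nat_lit 23) (.e (nat_lit 426438) (nat_lit 18) (.e (nat_lit 106240) (nat_lit 3) .nil))))) (.g (nat_lit 4) .nil .nil)))))))))

noncomputable def tv3073 : DT := (.nd (nat_lit 0) (.nd (nat_lit 1) (.nd (nat_lit 2) (.nd (nat_lit 3) (.nd (nat_lit 4) (.nd (nat_lit 5) 
(.lf (nat_lit 235456) (.g (nat_lit 1474) (.e (nat_lit 114697) (nat_lit 11) (.e (nat_lit 433920) (nat_lit 34) (.e (nat_lit 393273) (nat_lit 23) (.e (nat_lit 426436) (nat_lit 18) (.e (nat_lit 106240) (nat_lit 3) .nil))))) (.g (nat_lit 4) .nil .nil))) 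
(.lf (nat_lit 235488) (.g (nat_lit 2797) (.e (nat_lit 114698) (nat_lit 11) (.e (nat_lit 426139) (nat_lit 3) (.e (nat_lit 204854) (nat_lit 26) (.e (nat_lit 336208) (nat_lit 12) (.e (nat_lit 385068) (nat_lit 26) .nil))))) .nil))) (.nd (nat_lit 5) 
(.lf (nat_lit 235472) (.g (nat_lit 2069) (.e (nat_lit 114698) (nat_lit 11) (.e (nat_lit 426124) (nat_lit 2) (.e (nat_lit 196668) (nat_lit 14) (.e (nat_lit 73789) (nat_lit 45) (.e (nat_lit 988) (nat_lit 81) (.e (nat_lit 579) (nat_lit 43) (.e (nat_lit 524032) (nat_lit 20) .nil))))))) (.g (nat_lit 4) .nil .nil))) 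
(.lf (nat_lit 235504) (.g (nat_lit 3871) (.e (nat_lit 114698) (nat_lit 11) (.e (nat_lit 426187) (nat_lit 9) (.e (nat_lit 426555) (nat_lit 32) (.e (nat_lit 376857) (nat_lit 21) (.e (nat_lit 57854) (nat_lit 252) (.e (nat_lit 57389) (nat_lit 5) .nil)))))) (.g (nat_lit 6) .nil .nil))))) (.nd (nat_lit 4) (.nd (nat_lit 5) 
(.lf (nat_lit 235464) (.g (nat_lit 2312) (.e (nat_lit 114698) (nat_lit 11) (.e (nat_lit 426011) (nat_lit 0) (.e (nat_lit 3276) (nat_lit 200) (.e (nat_lit 557109) (nat_lit 15) (.e (nat_lit 188446) (nat_lit 21) .nil))))) .nil)) 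
(.lf (nat_lit 235496) (.g (nat_lit 3165) (.e (nat_lit 114698) (nat_lit 11) (.e (nat_lit 426186) (nat_lit 9) (.e (nat_lit 426555) (nat_lit 32) (.e (nat_lit 376857) (nat_lit 21) (.e (nat_lit 57846) (nat_lit 252) (.e (nat_lit 57389) (nat_lit 5) .nil)))))) (.g (nat_lit 5) .nil .nil)))) (.nd (nat_lit 5) 
(.lf (nat_lit 235480) (.g (nat_lit 2439) (.e (nat_lit 114698) (nat_lit 11) (.e (nat_lit 426124) (nat_lit 2) (.e (nat_lit 196668) (nat_lit 14) (.e (nat_lit 73794) (nat_lit 46) (.e (nat_lit 57600) (nat_lit 84) (.e (nat_lit 524032) (nat_lit 20) .nil)))))) (.g (nat_lit 5) .nil .nil))) 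
(.lf (nat_lit 235512) (.g (nat_lit 1559) (.e (nat_lit 114698) (nat_lit 11) (.e (nat_lit 426189) (nat_lit 9) (.e (nat_lit 426555) (nat_lit 32) (.e (nat_lit 376857) (nat_lit 21) (.e (nat_lit 57848) (nat_lit 252) (.e (nat_lit 57390) (nat_lit 5) .nil)))))) (.g (nat_lit 4) .nil .nil)))))) (.nd (nat_lit 3) (.nd (nat_lit 4) (.nd (nat_lit 5) 
(.lf (nat_lit 235460) (.g (nat_lit 1966) (.e (nat_lit 114697) (nat_lit 11) (.e (nat_lit 433920) (nat_lit 34) (.e (nat_lit 393294) (nat_lit 26) (.e (nat_lit 475177) (nat_lit 24) (.e (nat_lit 524032) (nat_lit 20) .nil))))) (.g (nat_lit 4) .nil .nil))) 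
(.lf (nat_lit 235492) (.g (nat_lit 3471) (.e (nat_lit 114698) (nat_lit 11) (.e (nat_lit 426139) (nat_lit 3) (.e (nat_lit 204869) (nat_lit 29) (.e (nat_lit 360450) (nat_lit 0) (.e (nat_lit 4011) (nat_lit 243) .nil))))) .nil))) (.nd (nat_lit 5) 
(.lf (nat_lit 235476) (.g (nat_lit 1798) (.e (nat_lit 114698) (nat_lit 11) (.e (nat_lit 426124) (nat_lit 2) (.e (nat_lit 196668) (nat_lit 14) (.e (nat_lit 73789) (nat_lit 45) (.e (nat_lit 1138) (nat_lit 84) (.e (nat_lit 32794) (nat_lit 14) (.e (nat_lit 7936) (nat_lit 5) .nil))))))) (.g (nat_lit 4) .nil .nil))) 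
(.lf (nat_lit 235508) (.g (nat_lit 577) (.e (nat_lit 114698) (nat_lit 11) (.e (nat_lit 426188) (nat_lit 9) (.e (nat_lit 426478) (nat_lit 27) .nil))) .nil)))) (.nd (nat_lit 4) (.nd (nat_lit 5) 
(.lf (nat_lit 235468) (.g (nat_lit 901) (.e (nat_lit 114698) (nat_lit 11) (.e (nat_lit 426107) (nat_lit 1) (.e (nat_lit 164422) (nat_lit 272) .nil))) .nil)) 
(.lf (nat_lit 235500) (.g (nat_lit 2996) (.e (nat_lit 114698) (nat_lit 11) (.e (nat_lit 426186) (nat_lit 9) (.e (nat_lit 426555) (nat_lit 32) (.e (nat_lit 376860) (nat_lit 21) (.e (nat_lit 57844) (nat_lit 252) (.e (nat_lit 57389) (nat_lit 5) .nil)))))) (.g (nat_lit 4) .nil .nil)))) (.nd (nat_lit 5) 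
(.lf (nat_lit 235484) (.g (nat_lit 1986) (.e (nat_lit 114698) (nat_lit 11) (.e (nat_lit 426132) (nat_lit 3) (.e (nat_lit 204861) (nat_lit 26) (.e (nat_lit 336076) (nat_lit 9) (.e (nat_lit 336325) (nat_lit 18) .nil))))) .nil)) 
(.lf (nat_lit 235516) (.g (nat_lit 3294) (.e (nat_lit 114698) (nat_lit 11) (.e (nat_lit 426189) (nat_lit 9) (.e (nat_lit 426555) (nat_lit 32) (.e (nat_lit 376859) (nat_lit 21) (.e (nat_lit 57844) (nat_lit 252) (.e (nat_lit 57389) (nat_lit 5) .nil)))))) (.g (nat_lit 0) .nil .nil))))))) (.nd (nat_lit 2) (.nd (nat_lit 3) (.nd (nat_lit 4) (.nd (nat_lit 5) 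
(.lf (nat_lit 235458) (.g (nat_lit 1458) (.e (nat_lit 114697) (nat_lit 11) (.e (nat_lit 433920) (nat_lit 34) (.e (nat_lit 393291) (nat_lit 26) (.e (nat_lit 475177) (nat_lit 24) (.e (nat_lit 524032) (nat_lit 20) .nil))))) (.g (nat_lit 4) .nil .nil))) 
(.lf (nat_lit 235490) (.g (nat_lit 2131) (.e (nat_lit 114698) (nat_lit 11) (.e (nat_lit 426139) (nat_lit 3) (.e (nat_lit 204863) (nat_lit 27) (.e (nat_lit 344084) (nat_lit 14) (.e (nat_lit 57600) (nat_lit 84) .nil))))) .nil))) (.nd (nat_lit 5) 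
(.lf (nat_lit 235474) (.g (nat_lit 2104) (.e (nat_lit 114698) (nat_lit 11) (.e (nat_lit 426124) (nat_lit 2) (.e (nat_lit 196668) (nat_lit 14) (.e (nat_lit 73789) (nat_lit 45) (.e (nat_lit 1033) (nat_lit 81) (.e (nat_lit 578) (nat_lit 43) (.e (nat_lit 524032) (nat_lit 20) .nil))))))) (.g (nat_lit 4) .nil .nil))) 
(.lf (nat_lit 235506) (.g (nat_lit 3383) (.e (nat_lit 114698) (nat_lit 11) (.e (nat_lit 426187) (nat_lit 9) (.e (nat_lit 426555) (nat_lit 32) (.e (nat_lit 376859) (nat_lit 21) (.e (nat_lit 57853) (nat_lit 252) (.e (nat_lit 57388) (nat_lit 5) .nil)))))) (.g (nat_lit 5) .nil .nil))))) (.nd (nat_lit 4) (.nd (nat_lit 5) 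
(.lf (nat_lit 235466) (.g (nat_lit 3364) (.e (nat_lit 114698) (nat_lit 11) (.e (nat_lit 426107) (nat_lit 1) (.e (nat_lit 164179) (nat_lit 154) (.e (nat_lit 57437) (nat_lit 17) (.e (nat_lit 376860) (nat_lit 21) (.e (nat_lit 57692) (nat_lit 156) (.e (nat_lit 171776) (nat_lit 66) .nil))))))) (.g (nat_lit 5) .nil .nil))) 
(.lf (nat_lit 235498) (.g (nat_lit 2853) (.e (nat_lit 114698) (nat_lit 11) (.e (nat_lit 426186) (nat_lit 9) (.e (nat_lit 426555) (nat_lit 32) (.e (nat_lit 376859) (nat_lit 21) (.e (nat_lit 57847) (nat_lit 252) (.e (nat_lit 57390) (nat_lit 5) .nil)))))) (.g (nat_lit 5) .nil .nil)))) (.nd (nat_lit 5) 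
(.lf (nat_lit 235482) (.g (nat_lit 1183) (.e (nat_lit 114698) (nat_lit 11) (.e (nat_lit 426124) (nat_lit 2) (.e (nat_lit 196670) (nat_lit 14) (.e (nat_lit 73792) (nat_lit 45) .nil)))) .nil)) 
(.lf (nat_lit 235514) (.g (nat_lit 3245) (.e (nat_lit 114698) (nat_lit 11) (.e (nat_lit 426189) (nat_lit 9) (.e (nat_lit 426555) (nat_lit 32) (.e (nat_lit 376857) (nat_lit 21) (.e (nat_lit 57853) (nat_lit 252) (.e (nat_lit 57389) (nat_lit 5) .nil)))))) (.g (nat_lit 6) .nil .nil)))))) (.nd (nat_lit 3) (.nd (nat_lit 4) (.nd (nat_lit 5) 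
(.lf (nat_lit 235462) (.g (nat_lit 1067) (.e (nat_lit 114697) (nat_lit 11) (.e (nat_lit 433920) (nat_lit 34) (.e (nat_lit 393296) (nat_lit 26) (.e (nat_lit 475177) (nat_lit 24) (.e (nat_lit 524032) (nat_lit 20) .nil))))) (.g (nat_lit 4) .nil .nil))) 
(.lf (nat_lit 235494) (.g (nat_lit 792) (.e (nat_lit 114698) (nat_lit 11) (.e (nat_lit 426139) (nat_lit 3) (.e (nat_lit 204875) (nat_lit 31) .nil))) .nil))) (.nd (nat_lit 5) 
(.lf (nat_lit 235478) (.g (nat_lit 1835) (.e (nat_lit 114698) (nat_lit 11) (.e (nat_lit 426124) (nat_lit 2) (.e (nat_lit 196668) (nat_lit 14) (.e (nat_lit 73789) (nat_lit 45) (.e (nat_lit 1141) (nat_lit 84) (.e (nat_lit 32796) (nat_lit 14) (.e (nat_lit 7936) (nat_lit 5) .nil))))))) (.g (nat_lit 4) .nil .nil))) 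
(.lf (nat_lit 235510) (.g (nat_lit 919) (.e (nat_lit 114698) (nat_lit 11) (.e (nat_lit 426188) (nat_lit 9) (.e (nat_lit 426540) (nat_lit 29) (.e (nat_lit 360192) (nat_lit 5) .nil)))) .nil)))) (.nd (nat_lit 4) (.nd (nat_lit 5) 
(.lf (nat_lit 235470) (.g (nat_lit 3714) (.e (nat_lit 114698) (nat_lit 11) (.e (nat_lit 426123) (nat_lit 2) (.e (nat_lit 196666) (nat_lit 13) (.e (nat_lit 65622) (nat_lit 12) (.e (nat_lit 385066) (nat_lit 26) (.e (nat_lit 532515) (nat_lit 3) .nil)))))) (.g (nat_lit 4) .nil .nil))) 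
(.lf (nat_lit 235502) (.g (nat_lit 3207) (.e (nat_lit 114698) (nat_lit 11) (.e (nat_lit 426187) (nat_lit 9) (.e (nat_lit 426555) (nat_lit 32) (.e (nat_lit 376857) (nat_lit 21) (.e (nat_lit 57846) (nat_lit 252) (.e (nat_lit 57389) (nat_lit 5) .nil)))))) (.g (nat_lit 5) .nil .nil)))) (.nd (nat_lit 5) 
(.lf (nat_lit 235486) (.g (nat_lit 1694) (.e (nat_lit 114698) (nat_lit 11) (.e (nat_lit 426133) (nat_lit 3) (.e (nat_lit 204866) (nat_lit 28) (.e (nat_lit 360192) (nat_lit 3) .nil)))) .nil)) 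
(.lf (nat_lit 235518) (.g (nat_lit 2898) (.e (nat_lit 114698) (nat_lit 11) (.e (nat_lit 426189) (nat_lit 9) (.e (nat_lit 426555) (nat_lit 32) (.e (nat_lit 376859) (nat_lit 21) (.e (nat_lit 57853) (nat_lit 252) (.e (nat_lit 57389) (nat_lit 5) .nil)))))) (.g (nat_lit 6) .nil .nil)))))))) (.nd (nat_lit 1) (.nd (nat_lit 2) (.nd (nat_lit 3) (.nd (nat_lit 4) (.nd (nat_lit 5) 
(.lf (nat_lit 235457) (.g (nat_lit 1180) (.e (nat_lit 114697) (nat_lit 11) (.e (nat_lit 433920) (nat_lit 34) (.e (nat_lit 393273) (nat_lit 23) (.e (nat_lit 426437) (nat_lit 18) (.e (nat_lit 106240) (nat_lit 3) .nil))))) (.g (nat_lit 4) .nil .nil))) 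
(.lf (nat_lit 235489) (.g (nat_lit 1530) (.e (nat_lit 114698) (nat_lit 11) (.e (nat_lit 426139) (nat_lit 3) (.e (nat_lit 204862) (nat_lit 27) (.e (nat_lit 344084) (nat_lit 14) .nil)))) .nil))) (.nd (nat_lit 5) 
(.lf (nat_lit 235473) (.g (nat_lit 1719) (.e (nat_lit 114698) (nat_lit 11) (.e (nat_lit 426124) (nat_lit 2) (.e (nat_lit 196668) (nat_lit 14) (.e (nat_lit 73789) (nat_lit 45) (.e (nat_lit 995) (nat_lit 81) (.e (nat_lit 579) (nat_lit 43) (.e (nat_lit 524032) (nat_lit 20) .nil))))))) (.g (nat_lit 4) .nil .nil))) 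
(.lf (nat_lit 235505) (.g (nat_lit 2883) (.e (nat_lit 114698) (nat_lit 11) (.e (nat_lit 426187) (nat_lit 9) (.e (nat_lit 426555) (nat_lit 32) (.e (nat_lit 376859) (nat_lit 21) (.e (nat_lit 57847) (nat_lit 252) (.e (nat_lit 57390) (nat_lit 5) .nil)))))) (.g (nat_lit 5) .nil .nil))))) (.nd (nat_lit 4) (.nd (nat_lit 5) 
(.lf (nat_lit 235465) (.g (nat_lit 2202) (.e (nat_lit 114698) (nat_lit 11) (.e (nat_lit 426098) (nat_lit 1) (.e (nat_lit 164179) (nat_lit 154) (.e (nat_lit 57437) (nat_lit 17) (.e (nat_lit 376860) (nat_lit 21) (.e (nat_lit 57692) (nat_lit 156) (.e (nat_lit 171776) (nat_lit 66) .nil))))))) (.g (nat_lit 4) .nil .nil))) 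
(.lf (nat_lit 235497) (.g (nat_lit 3058) (.e (nat_lit 114698) (nat_lit 11) (.e (nat_lit 426186) (nat_lit 9) (.e (nat_lit 426555) (nat_lit 32) (.e (nat_lit 376857) (nat_lit 21) (.e (nat_lit 57847) (nat_lit 252) (.e (nat_lit 57390) (nat_lit 5) .nil)))))) (.g (nat_lit 5) .nil .nil)))) (.nd (nat_lit 5) 
(.lf (nat_lit 235481) (.g (nat_lit 1575) (.e (nat_lit 114698) (nat_lit 11) (.e (nat_lit 426124) (nat_lit 2) (.e (nat_lit 196668) (nat_lit 14) (.e (nat_lit 73795) (nat_lit 47) .nil)))) .nil)) 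
(.lf (nat_lit 235513) (.g (nat_lit 2874) (.e (nat_lit 114698) (nat_lit 11) (.e (nat_lit 426189) (nat_lit 9) (.e (nat_lit 426555) (nat_lit 32) (.e (nat_lit 376857) (nat_lit 21) (.e (nat_lit 57851) (nat_lit 252) (.e (nat_lit 57389) (nat_lit 5) .nil)))))) (.g (nat_lit 0) .nil .nil)))))) (.nd (nat_lit 3) (.nd (nat_lit 4) (.nd (nat_lit 5) 
(.lf (nat_lit 235461) (.g (nat_lit 1097) (.e (nat_lit 114697) (nat_lit 11) (.e (nat_lit 433920) (nat_lit 34) (.e (nat_lit 393296) (nat_lit 26) (.e (nat_lit 475176) (nat_lit 24) (.e (nat_lit 524032) (nat_lit 20) .nil))))) (.g (nat_lit 4) .nil .nil))) 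
(.lf (nat_lit 235493) (.g (nat_lit 2494) (.e (nat_lit 114698) (nat_lit 11) (.e (nat_lit 426139) (nat_lit 3) (.e (nat_lit 204869) (nat_lit 29) (.e (nat_lit 360471) (nat_lit 7) (.e (nat_lit 548900) (nat_lit 14) .nil))))) .nil))) (.nd (nat_lit 5) 
(.lf (nat_lit 235477) (.g (nat_lit 2318) (.e (nat_lit 114698) (nat_lit 11) (.e (nat_lit 426124) (nat_lit 2) (.e (nat_lit 196668) (nat_lit 14) (.e (nat_lit 73789) (nat_lit 45) (.e (nat_lit 1140) (nat_lit 84) (.e (nat_lit 32796) (nat_lit 14) (.e (nat_lit 7936) (nat_lit 5) .nil))))))) (.g (nat_lit 6) .nil .nil))) 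
(.lf (nat_lit 235509) (.g (nat_lit 574) (.e (nat_lit 114698) (nat_lit 11) (.e (nat_lit 426188) (nat_lit 9) (.e (nat_lit 426502) (nat_lit 27) .nil))) .nil)))) (.nd (nat_lit 4) (.nd (nat_lit 5) 
(.lf (nat_lit 235469) (.g (nat_lit 1079) (.e (nat_lit 114698) (nat_lit 11) (.e (nat_lit 426108) (nat_lit 1) (.e (nat_lit 164421) (nat_lit 272) .nil))) .nil)) 
(.lf (nat_lit 235501) (.g (nat_lit 1421) (.e (nat_lit 114698) (nat_lit 11) (.e (nat_lit 426187) (nat_lit 9) (.e (nat_lit 426555) (nat_lit 32) (.e (nat_lit 376856) (nat_lit 21) .nil)))) .nil))) (.nd (nat_lit 5) 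
(.lf (nat_lit 235485) (.g (nat_lit 1077) (.e (nat_lit 114698) (nat_lit 11) (.e (nat_lit 426133) (nat_lit 3) (.e (nat_lit 204816) (nat_lit 17) .nil))) .nil)) 
(.lf (nat_lit 235517) (.g (nat_lit 2323) (.e (nat_lit 114698) (nat_lit 11) (.e (nat_lit 426189) (nat_lit 9) (.e (nat_lit 426555) (nat_lit 32) (.e (nat_lit 376859) (nat_lit 21) (.e (nat_lit 57846) (nat_lit 252) (.e (nat_lit 57390) (nat_lit 5) .nil)))))) (.g (nat_lit 5) .nil .nil))))))) (.nd (nat_lit 2) (.nd (nat_lit 3) (.nd (nat_lit 4) (.nd (nat_lit 5) 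
(.lf (nat_lit 235459) (.g (nat_lit 1104) (.e (nat_lit 114697) (nat_lit 11) (.e (nat_lit 433920) (nat_lit 34) (.e (nat_lit 393293) (nat_lit 26) (.e (nat_lit 475177) (nat_lit 24) (.e (nat_lit 524032) (nat_lit 20) .nil))))) (.g (nat_lit 4) .nil .nil))) 
(.lf (nat_lit 235491) (.g (nat_lit 2116) (.e (nat_lit 114698) (nat_lit 11) (.e (nat_lit 426139) (nat_lit 3) (.e (nat_lit 204869) (nat_lit 29) (.e (nat_lit 360449) (nat_lit 0) .nil)))) .nil))) (.nd (nat_lit 5) 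
(.lf (nat_lit 235475) (.g (nat_lit 2473) (.e (nat_lit 114698) (nat_lit 11) (.e (nat_lit 426124) (nat_lit 2) (.e (nat_lit 196668) (nat_lit 14) (.e (nat_lit 73789) (nat_lit 45) (.e (nat_lit 1138) (nat_lit 84) (.e (nat_lit 32793) (nat_lit 14) (.e (nat_lit 7936) (nat_lit 5) .nil))))))) (.g (nat_lit 5) .nil .nil))) 
(.lf (nat_lit 235507) (.g (nat_lit 3072) (.e (nat_lit 114698) (nat_lit 11) (.e (nat_lit 426187) (nat_lit 9) (.e (nat_lit 426555) (nat_lit 32) (.e (nat_lit 376860) (nat_lit 21) (.e (nat_lit 57844) (nat_lit 252) (.e (nat_lit 57389) (nat_lit 5) .nil)))))) (.g (nat_lit 4) .nil .nil))))) (.nd (nat_lit 4) (.nd (nat_lit 5) 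
(.lf (nat_lit 235467) (.g (nat_lit 913) (.e (nat_lit 114698) (nat_lit 11) (.e (nat_lit 426107) (nat_lit 1) (.e (nat_lit 164421) (nat_lit 272) .nil))) .nil)) 
(.lf (nat_lit 235499) (.g (nat_lit 3308) (.e (nat_lit 114698) (nat_lit 11) (.e (nat_lit 426186) (nat_lit 9) (.e (nat_lit 426555) (nat_lit 32) (.e (nat_lit 376859) (nat_lit 21) (.e (nat_lit 57853) (nat_lit 252) (.e (nat_lit 57388) (nat_lit 5) .nil)))))) (.g (nat_lit 5) .nil .nil)))) (.nd (nat_lit 5) 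
(.lf (nat_lit 235483) (.g (nat_lit 1869) (.e (nat_lit 114698) (nat_lit 11) (.e (nat_lit 426124) (nat_lit 2) (.e (nat_lit 196670) (nat_lit 14) (.e (nat_lit 73792) (nat_lit 45) (.e (nat_lit 1140) (nat_lit 84) (.e (nat_lit 32796) (nat_lit 14) (.e (nat_lit 7936) (nat_lit 5) .nil))))))) (.g (nat_lit 4) .nil .nil))) 
(.lf (nat_lit 235515) (.g (nat_lit 1194) (.e (nat_lit 114698) (nat_lit 11) (.e (nat_lit 426189) (nat_lit 9) (.e (nat_lit 426555) (nat_lit 32) (.e (nat_lit 376858) (nat_lit 21) .nil)))) .nil))))) (.nd (nat_lit 3) (.nd (nat_lit 4) (.nd (nat_lit 5) 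
(.lf (nat_lit 235463) (.g (nat_lit 1478) (.e (nat_lit 114697) (nat_lit 11) (.e (nat_lit 433920) (nat_lit 34) (.e (nat_lit 393296) (nat_lit 26) (.e (nat_lit 475179) (nat_lit 24) (.e (nat_lit 524032) (nat_lit 20) .nil))))) (.g (nat_lit 4) .nil .nil))) 
(.lf (nat_lit 235495) (.g (nat_lit 2687) (.e (nat_lit 114698) (nat_lit 11) (.e (nat_lit 426186) (nat_lit 9) (.e (nat_lit 426555) (nat_lit 32) (.e (nat_lit 376857) (nat_lit 21) (.e (nat_lit 57844) (nat_lit 252) (.e (nat_lit 57388) (nat_lit 5) .nil)))))) (.g (nat_lit 4) .nil .nil)))) (.nd (nat_lit 5) 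
(.lf (nat_lit 235479) (.g (nat_lit 1545) (.e (nat_lit 114698) (nat_lit 11) (.e (nat_lit 426124) (nat_lit 2) (.e (nat_lit 196668) (nat_lit 14) (.e (nat_lit 73794) (nat_lit 46) .nil)))) .nil)) 
(.lf (nat_lit 235511) (.g (nat_lit 2374) (.e (nat_lit 114698) (nat_lit 11) (.e (nat_lit 426189) (nat_lit 9) (.e (nat_lit 426555) (nat_lit 32) (.e (nat_lit 376857) (nat_lit 21) (.e (nat_lit 57846) (nat_lit 252) (.e (nat_lit 57390) (nat_lit 5) .nil)))))) (.g (nat_lit 5) .nil .nil))))) (.nd (nat_lit 4) (.nd (nat_lit 5) 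
(.lf (nat_lit 235471) (.g (nat_lit 2161) (.e (nat_lit 114698) (nat_lit 11) (.e (nat_lit 426124) (nat_lit 2) (.e (nat_lit 196668) (nat_lit 14) (.e (nat_lit 73789) (nat_lit 45) (.e (nat_lit 988) (nat_lit 81) (.e (nat_lit 577) (nat_lit 43) (.e (nat_lit 524032) (nat_lit 20) .nil))))))) (.g (nat_lit 5) .nil .nil))) 
(.lf (nat_lit 235503) (.g (nat_lit 3090) (.e (nat_lit 114698) (nat_lit 11) (.e (nat_lit 426187) (nat_lit 9) (.e (nat_lit 426555) (nat_lit 32) (.e (nat_lit 376857) (nat_lit 21) (.e (nat_lit 57847) (nat_lit 252) (.e (nat_lit 57390) (nat_lit 5) .nil)))))) (.g (nat_lit 5) .nil .nil)))) (.nd (nat_lit 5) 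
(.lf (nat_lit 235487) (.g (nat_lit 1461) (.e (nat_lit 114698) (nat_lit 11) (.e (nat_lit 426139) (nat_lit 3) (.e (nat_lit 204852) (nat_lit 26) (.e (nat_lit 336310) (nat_lit 16) .nil)))) .nil)) 
(.lf (nat_lit 235519) (.g (nat_lit 2176) (.e (nat_lit 114698) (nat_lit 11) (.e (nat_lit 426189) (nat_lit 9) (.e (nat_lit 426555) (nat_lit 32) (.e (nat_lit 376860) (nat_lit 21) (.e (nat_lit 57844) (nat_lit 252) (.e (nat_lit 57388) (nat_lit 5) .nil)))))) (.g (nat_lit 4) .nil .nil)))))))))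

noncomputable def tv3074 : DT := (.nd (nat_lit 0) (.nd (nat_lit 1) (.nd (nat_lit 2) (.nd (nat_lit 3) (.nd (nat_lit 4) (.nd (nat_lit 5) (.nd (nat_lit 6) 
(.lf (nat_lit 235520) (.g (nat_lit 3359) (.e (nat_lit 114698) (nat_lit 11) (.e (nat_lit 426189) (nat_lit 9) (.e (nat_lit 426555) (nat_lit 32) (.e (nat_lit 376860) (nat_lit 21) (.e (nat_lit 57853) (nat_lit 252) (.e (nat_lit 57389) (nat_lit 5) .nil)))))) (.g (nat_lit 6) .nil .nil))) 
(.lf (nat_lit 235584) (.g (nat_lit 768) (.e (nat_lit 122624) (nat_lit 11) (.e (nat_lit 426125) (nat_lit 2) (.e (nat_lit 196630) (nat_lit 9) .nil))) .nil))) (.nd (nat_lit 6) 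
(.lf (nat_lit 235552) (.g (nat_lit 2712) (.e (nat_lit 114698) (nat_lit 11) (.e (nat_lit 426200) (nat_lit 9) (.e (nat_lit 426515) (nat_lit 27) (.e (nat_lit 336194) (nat_lit 12) (.e (nat_lit 385109) (nat_lit 51) (.e (nat_lit 802560) (nat_lit 5) .nil)))))) (.g (nat_lit 4) .nil .nil))) 
(.lf (nat_lit 235616) (.g (nat_lit 2711) (.e (nat_lit 122624) (nat_lit 11) (.e (nat_lit 426438) (nat_lit 18) (.e (nat_lit 98373) (nat_lit 29) (.e (nat_lit 450566) (nat_lit 0) (.e (nat_lit 6393) (nat_lit 339) .nil))))) .nil)))) (.nd (nat_lit 5) (.nd (nat_lit 6) 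
(.lf (nat_lit 235536) (.g (nat_lit 2988) (.e (nat_lit 114698) (nat_lit 11) (.e (nat_lit 426199) (nat_lit 9) (.e (nat_lit 426543) (nat_lit 29) (.e (nat_lit 352309) (nat_lit 21) (.e (nat_lit 57848) (nat_lit 252) (.e (nat_lit 57388) (nat_lit 5) .nil)))))) (.g (nat_lit 5) .nil .nil))) 
(.lf (nat_lit 235600) (.g (nat_lit 1599) (.e (nat_lit 122624) (nat_lit 11) (.e (nat_lit 426428) (nat_lit 17) (.e (nat_lit 90176) (nat_lit 15) (.e (nat_lit 188444) (nat_lit 21) (.e (nat_lit 164177) (nat_lit 154) .nil))))) .nil))) (.nd (nat_lit 6) 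
(.lf (nat_lit 235568) (.g (nat_lit 1628) (.e (nat_lit 114698) (nat_lit 11) (.e (nat_lit 426335) (nat_lit 13) (.e (nat_lit 483346) (nat_lit 17) (.e (nat_lit 6446) (nat_lit 343) .nil)))) .nil)) 
(.lf (nat_lit 235632) (.g (nat_lit 1661) (.e (nat_lit 122624) (nat_lit 11) (.e (nat_lit 426566) (nat_lit 34) (.e (nat_lit 393270) (nat_lit 23) (.e (nat_lit 426436) (nat_lit 18) (.e (nat_lit 106240) (nat_lit 3) .nil))))) .nil))))) (.nd (nat_lit 4) (.nd (nat_lit 5) (.nd (nat_lit 6) 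
(.lf (nat_lit 235528) (.g (nat_lit 726) (.e (nat_lit 114698) (nat_lit 11) (.e (nat_lit 426198) (nat_lit 9) (.e (nat_lit 426556) (nat_lit 32) (.e (nat_lit 376857) (nat_lit 21) .nil)))) .nil)) 
(.lf (nat_lit 235592) (.g (nat_lit 632) (.e (nat_lit 122624) (nat_lit 11) (.e (nat_lit 426140) (nat_lit 3) (.e (nat_lit 204858) (nat_lit 26) .nil))) .nil))) (.nd (nat_lit 6) 
(.lf (nat_lit 235560) (.g (nat_lit 3202) (.e (nat_lit 114698) (nat_lit 11) (.e (nat_lit 426306) (nat_lit 12) (.e (nat_lit 475214) (nat_lit 42) (.e (nat_lit 720955) (nat_lit 25) .nil)))) .nil)) 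
(.lf (nat_lit 235624) (.g (nat_lit 79) (.e (nat_lit 122624) (nat_lit 11) (.e (nat_lit 426565) (nat_lit 34) (.e (nat_lit 393295) (nat_lit 26) .nil))) .nil)))) (.nd (nat_lit 5) (.nd (nat_lit 6) 
(.lf (nat_lit 235544) (.g (nat_lit 2523) (.e (nat_lit 114698) (nat_lit 11) (.e (nat_lit 426200) (nat_lit 9) (.e (nat_lit 426494) (nat_lit 27) (.e (nat_lit 336194) (nat_lit 12) (.e (nat_lit 385109) (nat_lit 51) (.e (nat_lit 802560) (nat_lit 5) .nil)))))) (.g (nat_lit 4) .nil .nil))) 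
(.lf (nat_lit 235608) (.g (nat_lit 2070) (.e (nat_lit 122624) (nat_lit 11) (.e (nat_lit 426438) (nat_lit 18) (.e (nat_lit 98372) (nat_lit 29) (.e (nat_lit 450564) (nat_lit 0) (.e (nat_lit 6391) (nat_lit 339) .nil))))) .nil))) (.nd (nat_lit 6) 
(.lf (nat_lit 235576) (.g (nat_lit 3887) (.e (nat_lit 114698) (nat_lit 11) (.e (nat_lit 426343) (nat_lit 14) (.e (nat_lit 491572) (nat_lit 14) (.e (nat_lit 401454) (nat_lit 12) (.e (nat_lit 475214) (nat_lit 42) (.e (nat_lit 720954) (nat_lit 25) .nil)))))) (.g (nat_lit 4) .nil .nil))) 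
(.lf (nat_lit 235640) (.g (nat_lit 746) (.e (nat_lit 122624) (nat_lit 11) (.e (nat_lit 426566) (nat_lit 34) (.e (nat_lit 393295) (nat_lit 26) .nil))) .nil)))))) (.nd (nat_lit 3) (.nd (nat_lit 4) (.nd (nat_lit 5) (.nd (nat_lit 6) 
(.lf (nat_lit 235524) (.g (nat_lit 2525) (.e (nat_lit 114698) (nat_lit 11) (.e (nat_lit 426196) (nat_lit 9) (.e (nat_lit 426555) (nat_lit 32) (.e (nat_lit 376859) (nat_lit 21) (.e (nat_lit 57846) (nat_lit 252) (.e (nat_lit 57390) (nat_lit 5) .nil)))))) (.g (nat_lit 5) .nil .nil))) 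
(.lf (nat_lit 235588) (.g (nat_lit 1178) (.e (nat_lit 122624) (nat_lit 11) (.e (nat_lit 426131) (nat_lit 3) (.e (nat_lit 204838) (nat_lit 20) (.e (nat_lit 114723) (nat_lit 24) .nil)))) .nil))) (.nd (nat_lit 6) 
(.lf (nat_lit 235556) (.g (nat_lit 2098) (.e (nat_lit 114698) (nat_lit 11) (.e (nat_lit 426200) (nat_lit 9) (.e (nat_lit 426531) (nat_lit 27) (.e (nat_lit 336194) (nat_lit 12) (.e (nat_lit 385109) (nat_lit 51) .nil))))) .nil)) 
(.lf (nat_lit 235620) (.g (nat_lit 957) (.e (nat_lit 122624) (nat_lit 11) (.e (nat_lit 426438) (nat_lit 18) (.e (nat_lit 98381) (nat_lit 31) (.e (nat_lit 466971) (nat_lit 21) .nil)))) .nil)))) (.nd (nat_lit 5) (.nd (nat_lit 6) 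
(.lf (nat_lit 235540) (.g (nat_lit 2219) (.e (nat_lit 114698) (nat_lit 11) (.e (nat_lit 426200) (nat_lit 9) (.e (nat_lit 426481) (nat_lit 27) (.e (nat_lit 336205) (nat_lit 12) (.e (nat_lit 385109) (nat_lit 51) (.e (nat_lit 802560) (nat_lit 5) .nil)))))) (.g (nat_lit 4) .nil .nil))) 
(.lf (nat_lit 235604) (.g (nat_lit 2591) (.e (nat_lit 122624) (nat_lit 11) (.e (nat_lit 426436) (nat_lit 18) (.e (nat_lit 98372) (nat_lit 29) (.e (nat_lit 450564) (nat_lit 0) (.e (nat_lit 6391) (nat_lit 339) .nil))))) .nil))) (.nd (nat_lit 6) 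
(.lf (nat_lit 235572) (.g (nat_lit 3371) (.e (nat_lit 114698) (nat_lit 11) (.e (nat_lit 426343) (nat_lit 14) (.e (nat_lit 491572) (nat_lit 14) (.e (nat_lit 401454) (nat_lit 12) (.e (nat_lit 475212) (nat_lit 42) (.e (nat_lit 720954) (nat_lit 25) .nil)))))) (.g (nat_lit 4) .nil .nil))) 
(.lf (nat_lit 235636) (.g (nat_lit 757) (.e (nat_lit 122624) (nat_lit 11) (.e (nat_lit 426566) (nat_lit 34) (.e (nat_lit 393272) (nat_lit 23) .nil))) .nil))))) (.nd (nat_lit 4) (.nd (nat_lit 5) (.nd (nat_lit 6) 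
(.lf (nat_lit 235532) (.g (nat_lit 575) (.e (nat_lit 114698) (nat_lit 11) (.e (nat_lit 426199) (nat_lit 9) (.e (nat_lit 426480) (nat_lit 27) (.e (nat_lit 336083) (nat_lit 9) .nil)))) .nil)) 
(.lf (nat_lit 235596) (.g (nat_lit 968) (.e (nat_lit 122624) (nat_lit 11) (.e (nat_lit 426187) (nat_lit 9) (.e (nat_lit 426555) (nat_lit 32) (.e (nat_lit 376859) (nat_lit 21) .nil)))) .nil))) (.nd (nat_lit 6) 
(.lf (nat_lit 235564) (.g (nat_lit 1361) (.e (nat_lit 114698) (nat_lit 11) (.e (nat_lit 426316) (nat_lit 12) (.e (nat_lit 475142) (nat_lit 8) (.e (nat_lit 1428) (nat_lit 108) .nil)))) .nil)) 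
(.lf (nat_lit 235628) (.g (nat_lit 2098) (.e (nat_lit 122624) (nat_lit 11) (.e (nat_lit 426566) (nat_lit 34) (.e (nat_lit 393268) (nat_lit 23) (.e (nat_lit 426428) (nat_lit 17) (.e (nat_lit 90125) (nat_lit 9) .nil))))) .nil)))) (.nd (nat_lit 5) (.nd (nat_lit 6) 
(.lf (nat_lit 235548) (.g (nat_lit 1524) (.e (nat_lit 114698) (nat_lit 11) (.e (nat_lit 426200) (nat_lit 9) (.e (nat_lit 426504) (nat_lit 27) (.e (nat_lit 336075) (nat_lit 9) (.e (nat_lit 336336) (nat_lit 20) .nil))))) .nil)) 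
(.lf (nat_lit 235612) (.g (nat_lit 2469) (.e (nat_lit 122624) (nat_lit 11) (.e (nat_lit 426438) (nat_lit 18) (.e (nat_lit 98373) (nat_lit 29) (.e (nat_lit 450560) (nat_lit 0) (.e (nat_lit 6394) (nat_lit 339) .nil))))) .nil))) (.nd (nat_lit 6) 
(.lf (nat_lit 235580) (.g (nat_lit 1255) (.e (nat_lit 114698) (nat_lit 11) (.e (nat_lit 433920) (nat_lit 34) (.e (nat_lit 393273) (nat_lit 23) (.e (nat_lit 426436) (nat_lit 18) (.e (nat_lit 106240) (nat_lit 3) .nil))))) (.g (nat_lit 4) .nil .nil))) 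
(.lf (nat_lit 235644) (.g (nat_lit 2190) (.e (nat_lit 122624) (nat_lit 11) (.e (nat_lit 426568) (nat_lit 34) (.e (nat_lit 393301) (nat_lit 27) (.e (nat_lit 491536) (nat_lit 2) .nil)))) .nil))))))) (.nd (nat_lit 2) (.nd (nat_lit 3) (.nd (nat_lit 4) (.nd (nat_lit 5) (.nd (nat_lit 6) 
(.lf (nat_lit 235522) (.g (nat_lit 2626) (.e (nat_lit 114698) (nat_lit 11) (.e (nat_lit 426196) (nat_lit 9) (.e (nat_lit 426555) (nat_lit 32) (.e (nat_lit 376857) (nat_lit 21) (.e (nat_lit 57846) (nat_lit 252) (.e (nat_lit 57390) (nat_lit 5) .nil)))))) (.g (nat_lit 5) .nil .nil))) 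
(.lf (nat_lit 235586) (.g (nat_lit 2371) (.e (nat_lit 122624) (nat_lit 11) (.e (nat_lit 426125) (nat_lit 2) (.e (nat_lit 196630) (nat_lit 9) (.e (nat_lit 1573) (nat_lit 110) .nil)))) .nil))) (.nd (nat_lit 6) 
(.lf (nat_lit 235554) (.g (nat_lit 666) (.e (nat_lit 114698) (nat_lit 11) (.e (nat_lit 426200) (nat_lit 9) (.e (nat_lit 426531) (nat_lit 27) .nil))) .nil)) 
(.lf (nat_lit 235618) (.g (nat_lit 480) (.e (nat_lit 122624) (nat_lit 11) (.e (nat_lit 426438) (nat_lit 18) (.e (nat_lit 98374) (nat_lit 29) .nil))) .nil)))) (.nd (nat_lit 5) (.nd (nat_lit 6) 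
(.lf (nat_lit 235538) (.g (nat_lit 663) (.e (nat_lit 114698) (nat_lit 11) (.e (nat_lit 426200) (nat_lit 9) (.e (nat_lit 426478) (nat_lit 27) .nil))) .nil)) 
(.lf (nat_lit 235602) (.g (nat_lit 1321) (.e (nat_lit 122624) (nat_lit 11) (.e (nat_lit 426428) (nat_lit 17) (.e (nat_lit 90178) (nat_lit 15) (.e (nat_lit 188445) (nat_lit 21) .nil)))) .nil))) (.nd (nat_lit 6) 
(.lf (nat_lit 235570) (.g (nat_lit 1756) (.e (nat_lit 114698) (nat_lit 11) (.e (nat_lit 426343) (nat_lit 14) (.e (nat_lit 491572) (nat_lit 14) (.e (nat_lit 401452) (nat_lit 12) .nil)))) .nil)) 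
(.lf (nat_lit 235634) (.g (nat_lit 2104) (.e (nat_lit 122624) (nat_lit 11) (.e (nat_lit 426566) (nat_lit 34) (.e (nat_lit 393271) (nat_lit 23) (.e (nat_lit 426436) (nat_lit 18) (.e (nat_lit 106240) (nat_lit 3) .nil))))) .nil))))) (.nd (nat_lit 4) (.nd (nat_lit 5) (.nd (nat_lit 6) 
(.lf (nat_lit 235530) (.g (nat_lit 1445) (.e (nat_lit 114698) (nat_lit 11) (.e (nat_lit 426198) (nat_lit 9) (.e (nat_lit 426556) (nat_lit 32) (.e (nat_lit 376859) (nat_lit 21) (.e (nat_lit 57853) (nat_lit 252) .nil))))) .nil)) 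
(.lf (nat_lit 235594) (.g (nat_lit 1465) (.e (nat_lit 122624) (nat_lit 11) (.e (nat_lit 426140) (nat_lit 3) (.e (nat_lit 204861) (nat_lit 26) (.e (nat_lit 336194) (nat_lit 12) .nil)))) .nil))) (.nd (nat_lit 6) 
(.lf (nat_lit 235562) (.g (nat_lit 798) (.e (nat_lit 114698) (nat_lit 11) (.e (nat_lit 426315) (nat_lit 12) (.e (nat_lit 475142) (nat_lit 8) .nil))) .nil)) 
(.lf (nat_lit 235626) (.g (nat_lit 1589) (.e (nat_lit 122624) (nat_lit 11) (.e (nat_lit 426566) (nat_lit 34) (.e (nat_lit 393263) (nat_lit 22) (.e (nat_lit 417817) (nat_lit 10) (.e (nat_lit 597) (nat_lit 45) .nil))))) .nil)))) (.nd (nat_lit 5) (.nd (nat_lit 6) 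
(.lf (nat_lit 235546) (.g (nat_lit 2416) (.e (nat_lit 114698) (nat_lit 11) (.e (nat_lit 426200) (nat_lit 9) (.e (nat_lit 426495) (nat_lit 27) (.e (nat_lit 336194) (nat_lit 12) (.e (nat_lit 385109) (nat_lit 51) (.e (nat_lit 802560) (nat_lit 5) .nil)))))) (.g (nat_lit 4) .nil .nil))) 
(.lf (nat_lit 235610) (.g (nat_lit 1860) (.e (nat_lit 122624) (nat_lit 11) (.e (nat_lit 426438) (nat_lit 18) (.e (nat_lit 98373) (nat_lit 29) (.e (nat_lit 450560) (nat_lit 0) .nil)))) .nil))) (.nd (nat_lit 6) 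
(.lf (nat_lit 235578) (.g (nat_lit 2950) (.e (nat_lit 114698) (nat_lit 11) (.e (nat_lit 426344) (nat_lit 14) (.e (nat_lit 491572) (nat_lit 14) (.e (nat_lit 401454) (nat_lit 12) (.e (nat_lit 475212) (nat_lit 42) .nil))))) .nil)) 
(.lf (nat_lit 235642) (.g (nat_lit 1637) (.e (nat_lit 122624) (nat_lit 11) (.e (nat_lit 426568) (nat_lit 34) (.e (nat_lit 393294) (nat_lit 26) (.e (nat_lit 475177) (nat_lit 24) .nil)))) .nil)))))) (.nd (nat_lit 3) (.nd (nat_lit 4) (.nd (nat_lit 5) (.nd (nat_lit 6) 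
(.lf (nat_lit 235526) (.g (nat_lit 2426) (.e (nat_lit 114698) (nat_lit 11) (.e (nat_lit 426196) (nat_lit 9) (.e (nat_lit 426555) (nat_lit 32) (.e (nat_lit 376860) (nat_lit 21) (.e (nat_lit 57844) (nat_lit 252) (.e (nat_lit 57388) (nat_lit 5) .nil)))))) (.g (nat_lit 4) .nil .nil))) 
(.lf (nat_lit 235590) (.g (nat_lit 626) (.e (nat_lit 122624) (nat_lit 11) (.e (nat_lit 426132) (nat_lit 3) (.e (nat_lit 204865) (nat_lit 28) (.e (nat_lit 360192) (nat_lit 3) .nil)))) .nil))) (.nd (nat_lit 6) 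
(.lf (nat_lit 235558) (.g (nat_lit 913) (.e (nat_lit 114698) (nat_lit 11) (.e (nat_lit 426306) (nat_lit 12) (.e (nat_lit 475142) (nat_lit 8) .nil))) .nil)) 
(.lf (nat_lit 235622) (.g (nat_lit 1204) (.e (nat_lit 122624) (nat_lit 11) (.e (nat_lit 426563) (nat_lit 34) (.e (nat_lit 393260) (nat_lit 21) (.e (nat_lit 409616) (nat_lit 10) .nil)))) .nil)))) (.nd (nat_lit 5) (.nd (nat_lit 6) 
(.lf (nat_lit 235542) (.g (nat_lit 693) (.e (nat_lit 114698) (nat_lit 11) (.e (nat_lit 426200) (nat_lit 9) (.e (nat_lit 426489) (nat_lit 27) .nil))) .nil)) 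
(.lf (nat_lit 235606) (.g (nat_lit 2250) (.e (nat_lit 122624) (nat_lit 11) (.e (nat_lit 426438) (nat_lit 18) (.e (nat_lit 98370) (nat_lit 28) (.e (nat_lit 442430) (nat_lit 24) (.e (nat_lit 229552) (nat_lit 154) .nil))))) .nil))) (.nd (nat_lit 6) 
(.lf (nat_lit 235574) (.g (nat_lit 3874) (.e (nat_lit 114698) (nat_lit 11) (.e (nat_lit 426343) (nat_lit 14) (.e (nat_lit 491572) (nat_lit 14) (.e (nat_lit 401454) (nat_lit 12) (.e (nat_lit 475213) (nat_lit 42) .nil))))) .nil)) 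
(.lf (nat_lit 235638) (.g (nat_lit 1696) (.e (nat_lit 122624) (nat_lit 11) (.e (nat_lit 426566) (nat_lit 34) (.e (nat_lit 393293) (nat_lit 26) (.e (nat_lit 475177) (nat_lit 24) (.e (nat_lit 524032) (nat_lit 20) .nil))))) .nil))))) (.nd (nat_lit 4) (.nd (nat_lit 5) (.nd (nat_lit 6) 
(.lf (nat_lit 235534) (.g (nat_lit 2322) (.e (nat_lit 114698) (nat_lit 11) (.e (nat_lit 426199) (nat_lit 9) (.e (nat_lit 426496) (nat_lit 27) (.e (nat_lit 336194) (nat_lit 12) (.e (nat_lit 385109) (nat_lit 51) (.e (nat_lit 802560) (nat_lit 5) .nil)))))) (.g (nat_lit 5) .nil .nil))) 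
(.lf (nat_lit 235598) (.g (nat_lit 995) (.e (nat_lit 122624) (nat_lit 11) (.e (nat_lit 426195) (nat_lit 9) (.e (nat_lit 426555) (nat_lit 32) (.e (nat_lit 376860) (nat_lit 21) .nil)))) .nil))) (.nd (nat_lit 6) 
(.lf (nat_lit 235566) (.g (nat_lit 2861) (.e (nat_lit 114698) (nat_lit 11) (.e (nat_lit 426333) (nat_lit 13) (.e (nat_lit 483393) (nat_lit 23) (.e (nat_lit 335987) (nat_lit 1) (.e (nat_lit 57854) (nat_lit 252) (.e (nat_lit 57389) (nat_lit 5) .nil)))))) (.g (nat_lit 6) .nil .nil))) 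
(.lf (nat_lit 235630) (.g (nat_lit 1775) (.e (nat_lit 122624) (nat_lit 11) (.e (nat_lit 426566) (nat_lit 34) (.e (nat_lit 393268) (nat_lit 23) (.e (nat_lit 426438) (nat_lit 18) (.e (nat_lit 106240) (nat_lit 3) .nil))))) .nil)))) (.nd (nat_lit 5) (.nd (nat_lit 6) 
(.lf (nat_lit 235550) (.g (nat_lit 2721) (.e (nat_lit 114698) (nat_lit 11) (.e (nat_lit 426200) (nat_lit 9) (.e (nat_lit 426504) (nat_lit 27) (.e (nat_lit 336194) (nat_lit 12) (.e (nat_lit 385109) (nat_lit 51) (.e (nat_lit 802560) (nat_lit 5) .nil)))))) (.g (nat_lit 4) .nil .nil))) 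
(.lf (nat_lit 235614) (.g (nat_lit 2718) (.e (nat_lit 122624) (nat_lit 11) (.e (nat_lit 426438) (nat_lit 18) (.e (nat_lit 98373) (nat_lit 29) (.e (nat_lit 450566) (nat_lit 0) (.e (nat_lit 6391) (nat_lit 339) .nil))))) .nil))) (.nd (nat_lit 6) 
(.lf (nat_lit 235582) (.g (nat_lit 1461) (.e (nat_lit 114698) (nat_lit 11) (.e (nat_lit 433920) (nat_lit 34) (.e (nat_lit 393273) (nat_lit 23) (.e (nat_lit 426438) (nat_lit 18) (.e (nat_lit 106240) (nat_lit 3) .nil))))) (.g (nat_lit 4) .nil .nil))) 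
(.lf (nat_lit 235646) (.g (nat_lit 500) (.e (nat_lit 122624) (nat_lit 12) (.e (nat_lit 434219) (nat_lit 19) (.e (nat_lit 499952) (nat_lit 14) .nil))) .nil)))))))) (.nd (nat_lit 1) (.nd (nat_lit 2) (.nd (nat_lit 3) (.nd (nat_lit 4) (.nd (nat_lit 5) (.nd (nat_lit 6) 
(.lf (nat_lit 235521) (.g (nat_lit 1512) (.e (nat_lit 114698) (nat_lit 11) (.e (nat_lit 426196) (nat_lit 9) (.e (nat_lit 426555) (nat_lit 32) (.e (nat_lit 376856) (nat_lit 21) (.e (nat_lit 57851) (nat_lit 252) .nil))))) .nil)) 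
(.lf (nat_lit 235585) (.g (nat_lit 2490) (.e (nat_lit 122624) (nat_lit 11) (.e (nat_lit 426125) (nat_lit 2) (.e (nat_lit 196630) (nat_lit 9) (.e (nat_lit 1559) (nat_lit 110) .nil)))) .nil))) (.nd (nat_lit 6) 
(.lf (nat_lit 235553) (.g (nat_lit 687) (.e (nat_lit 114698) (nat_lit 11) (.e (nat_lit 426200) (nat_lit 9) (.e (nat_lit 426530) (nat_lit 27) .nil))) .nil)) 
(.lf (nat_lit 235617) (.g (nat_lit 1633) (.e (nat_lit 122624) (nat_lit 11) (.e (nat_lit 426438) (nat_lit 18) (.e (nat_lit 98373) (nat_lit 29) (.e (nat_lit 458496) (nat_lit 0) .nil)))) .nil)))) (.nd (nat_lit 5) (.nd (nat_lit 6) 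
(.lf (nat_lit 235537) (.g (nat_lit 2217) (.e (nat_lit 114698) (nat_lit 11) (.e (nat_lit 426199) (nat_lit 9) (.e (nat_lit 426546) (nat_lit 30) (.e (nat_lit 360452) (nat_lit 0) (.e (nat_lit 5195) (nat_lit 294) (.e (nat_lit 57390) (nat_lit 5) .nil)))))) (.g (nat_lit 5) .nil .nil))) 
(.lf (nat_lit 235601) (.g (nat_lit 414) (.e (nat_lit 122624) (nat_lit 11) (.e (nat_lit 426428) (nat_lit 17) (.e (nat_lit 90178) (nat_lit 15) .nil))) .nil))) (.nd (nat_lit 6) 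
(.lf (nat_lit 235569) (.g (nat_lit 1645) (.e (nat_lit 114698) (nat_lit 11) (.e (nat_lit 426335) (nat_lit 13) (.e (nat_lit 483346) (nat_lit 17) (.e (nat_lit 6506) (nat_lit 344) .nil)))) .nil)) 
(.lf (nat_lit 235633) (.g (nat_lit 2048) (.e (nat_lit 122624) (nat_lit 11) (.e (nat_lit 426566) (nat_lit 34) (.e (nat_lit 393271) (nat_lit 23) (.e (nat_lit 426428) (nat_lit 17) (.e (nat_lit 90125) (nat_lit 9) .nil))))) .nil))))) (.nd (nat_lit 4) (.nd (nat_lit 5) (.nd (nat_lit 6) 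
(.lf (nat_lit 235529) (.g (nat_lit 1440) (.e (nat_lit 114698) (nat_lit 11) (.e (nat_lit 426198) (nat_lit 9) (.e (nat_lit 426556) (nat_lit 32) (.e (nat_lit 376859) (nat_lit 21) (.e (nat_lit 57851) (nat_lit 252) .nil))))) .nil)) 
(.lf (nat_lit 235593) (.g (nat_lit 632) (.e (nat_lit 122624) (nat_lit 11) (.e (nat_lit 426140) (nat_lit 3) (.e (nat_lit 204861) (nat_lit 26) .nil))) .nil))) (.nd (nat_lit 6) 
(.lf (nat_lit 235561) (.g (nat_lit 530) (.e (nat_lit 114698) (nat_lit 11) (.e (nat_lit 426308) (nat_lit 12) (.e (nat_lit 483072) (nat_lit 15) .nil))) .nil)) 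
(.lf (nat_lit 235625) (.g (nat_lit 1772) (.e (nat_lit 122624) (nat_lit 11) (.e (nat_lit 426566) (nat_lit 34) (.e (nat_lit 393263) (nat_lit 22) (.e (nat_lit 417815) (nat_lit 10) (.e (nat_lit 596) (nat_lit 45) .nil))))) .nil)))) (.nd (nat_lit 5) (.nd (nat_lit 6) 
(.lf (nat_lit 235545) (.g (nat_lit 1125) (.e (nat_lit 114698) (nat_lit 11) (.e (nat_lit 426200) (nat_lit 9) (.e (nat_lit 426495) (nat_lit 27) (.e (nat_lit 336075) (nat_lit 9) .nil)))) .nil)) 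
(.lf (nat_lit 235609) (.g (nat_lit 1294) (.e (nat_lit 122624) (nat_lit 11) (.e (nat_lit 426438) (nat_lit 18) (.e (nat_lit 98372) (nat_lit 29) (.e (nat_lit 458496) (nat_lit 0) .nil)))) .nil))) (.nd (nat_lit 6) 
(.lf (nat_lit 235577) (.g (nat_lit 3980) (.e (nat_lit 114698) (nat_lit 11) (.e (nat_lit 426343) (nat_lit 14) (.e (nat_lit 491572) (nat_lit 14) (.e (nat_lit 401454) (nat_lit 12) (.e (nat_lit 475214) (nat_lit 42) (.e (nat_lit 720955) (nat_lit 25) .nil)))))) (.g (nat_lit 4) .nil .nil))) 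
(.lf (nat_lit 235641) (.g (nat_lit 1290) (.e (nat_lit 122624) (nat_lit 11) (.e (nat_lit 426566) (nat_lit 34) (.e (nat_lit 393296) (nat_lit 26) (.e (nat_lit 475176) (nat_lit 24) .nil)))) .nil)))))) (.nd (nat_lit 3) (.nd (nat_lit 4) (.nd (nat_lit 5) (.nd (nat_lit 6) 
(.lf (nat_lit 235525) (.g (nat_lit 2757) (.e (nat_lit 114698) (nat_lit 11) (.e (nat_lit 426196) (nat_lit 9) (.e (nat_lit 426555) (nat_lit 32) (.e (nat_lit 376859) (nat_lit 21) (.e (nat_lit 57847) (nat_lit 252) (.e (nat_lit 57389) (nat_lit 5) .nil)))))) (.g (nat_lit 5) .nil .nil))) 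
(.lf (nat_lit 235589) (.g (nat_lit 727) (.e (nat_lit 122624) (nat_lit 11) (.e (nat_lit 426131) (nat_lit 3) (.e (nat_lit 204865) (nat_lit 28) .nil))) .nil))) (.nd (nat_lit 6) 
(.lf (nat_lit 235557) (.g (nat_lit 1416) (.e (nat_lit 114698) (nat_lit 11) (.e (nat_lit 426200) (nat_lit 9) (.e (nat_lit 426544) (nat_lit 30) (.e (nat_lit 360453) (nat_lit 0) .nil)))) .nil)) 
(.lf (nat_lit 235621) (.g (nat_lit 1889) (.e (nat_lit 122624) (nat_lit 11) (.e (nat_lit 426483) (nat_lit 27) (.e (nat_lit 336369) (nat_lit 27) (.e (nat_lit 426173) (nat_lit 7) (.e (nat_lit 409617) (nat_lit 10) .nil))))) .nil)))) (.nd (nat_lit 5) (.nd (nat_lit 6) 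
(.lf (nat_lit 235541) (.g (nat_lit 708) (.e (nat_lit 114698) (nat_lit 11) (.e (nat_lit 426200) (nat_lit 9) (.e (nat_lit 426482) (nat_lit 27) .nil))) .nil)) 
(.lf (nat_lit 235605) (.g (nat_lit 465) (.e (nat_lit 122624) (nat_lit 11) (.e (nat_lit 426438) (nat_lit 18) (.e (nat_lit 98370) (nat_lit 28) .nil))) .nil))) (.nd (nat_lit 6) 
(.lf (nat_lit 235573) (.g (nat_lit 3493) (.e (nat_lit 114698) (nat_lit 11) (.e (nat_lit 426343) (nat_lit 14) (.e (nat_lit 491572) (nat_lit 14) (.e (nat_lit 401454) (nat_lit 12) (.e (nat_lit 475212) (nat_lit 42) (.e (nat_lit 720955) (nat_lit 25) .nil)))))) (.g (nat_lit 4) .nil .nil))) 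
(.lf (nat_lit 235637) (.g (nat_lit 1986) (.e (nat_lit 122624) (nat_lit 11) (.e (nat_lit 426566) (nat_lit 34) (.e (nat_lit 393291) (nat_lit 26) (.e (nat_lit 475177) (nat_lit 24) (.e (nat_lit 524032) (nat_lit 20) .nil))))) .nil))))) (.nd (nat_lit 4) (.nd (nat_lit 5) (.nd (nat_lit 6) 
(.lf (nat_lit 235533) (.g (nat_lit 1646) (.e (nat_lit 114698) (nat_lit 11) (.e (nat_lit 426199) (nat_lit 9) (.e (nat_lit 426482) (nat_lit 27) (.e (nat_lit 336089) (nat_lit 9) (.e (nat_lit 336336) (nat_lit 20) .nil))))) .nil)) 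
(.lf (nat_lit 235597) (.g (nat_lit 924) (.e (nat_lit 122624) (nat_lit 11) (.e (nat_lit 426195) (nat_lit 9) (.e (nat_lit 426555) (nat_lit 32) (.e (nat_lit 376859) (nat_lit 21) .nil)))) .nil))) (.nd (nat_lit 6) 
(.lf (nat_lit 235565) (.g (nat_lit 1361) (.e (nat_lit 114698) (nat_lit 11) (.e (nat_lit 426316) (nat_lit 12) (.e (nat_lit 475142) (nat_lit 8) (.e (nat_lit 1636) (nat_lit 114) .nil)))) .nil)) 
(.lf (nat_lit 235629) (.g (nat_lit 1558) (.e (nat_lit 122624) (nat_lit 11) (.e (nat_lit 426566) (nat_lit 34) (.e (nat_lit 393268) (nat_lit 23) (.e (nat_lit 426436) (nat_lit 18) (.e (nat_lit 106240) (nat_lit 3) .nil))))) .nil)))) (.nd (nat_lit 5) (.nd (nat_lit 6) 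
(.lf (nat_lit 235549) (.g (nat_lit 2074) (.e (nat_lit 114698) (nat_lit 11) (.e (nat_lit 426200) (nat_lit 9) (.e (nat_lit 426504) (nat_lit 27) (.e (nat_lit 336076) (nat_lit 9) (.e (nat_lit 336336) (nat_lit 20) .nil))))) .nil)) 
(.lf (nat_lit 235613) (.g (nat_lit 2721) (.e (nat_lit 122624) (nat_lit 11) (.e (nat_lit 426438) (nat_lit 18) (.e (nat_lit 98373) (nat_lit 29) (.e (nat_lit 450566) (nat_lit 0) (.e (nat_lit 6390) (nat_lit 339) .nil))))) .nil))) (.nd (nat_lit 6) 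
(.lf (nat_lit 235581) (.g (nat_lit 1167) (.e (nat_lit 114698) (nat_lit 11) (.e (nat_lit 433920) (nat_lit 34) (.e (nat_lit 393273) (nat_lit 23) (.e (nat_lit 426437) (nat_lit 18) (.e (nat_lit 106240) (nat_lit 3) .nil))))) (.g (nat_lit 4) .nil .nil))) 
(.lf (nat_lit 235645) (.g (nat_lit 1479) (.e (nat_lit 122624) (nat_lit 12) (.e (nat_lit 434202) (nat_lit 18) (.e (nat_lit 4598) (nat_lit 269) (.e (nat_lit 1221) (nat_lit 90) (.e (nat_lit 81948) (nat_lit 21) .nil))))) .nil))))))) (.nd (nat_lit 2) (.nd (nat_lit 3) (.nd (nat_lit 4) (.nd (nat_lit 5) (.nd (nat_lit 6) 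
(.lf (nat_lit 235523) (.g (nat_lit 2819) (.e (nat_lit 114698) (nat_lit 11) (.e (nat_lit 426196) (nat_lit 9) (.e (nat_lit 426555) (nat_lit 32) (.e (nat_lit 376857) (nat_lit 21) (.e (nat_lit 57847) (nat_lit 252) (.e (nat_lit 57389) (nat_lit 5) .nil)))))) (.g (nat_lit 5) .nil .nil))) 
(.lf (nat_lit 235587) (.g (nat_lit 864) (.e (nat_lit 122624) (nat_lit 11) (.e (nat_lit 426125) (nat_lit 2) (.e (nat_lit 196683) (nat_lit 18) .nil))) .nil))) (.nd (nat_lit 6) 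
(.lf (nat_lit 235555) (.g (nat_lit 2074) (.e (nat_lit 114698) (nat_lit 11) (.e (nat_lit 426200) (nat_lit 9) (.e (nat_lit 426531) (nat_lit 27) (.e (nat_lit 336076) (nat_lit 9) (.e (nat_lit 336336) (nat_lit 20) .nil))))) .nil)) 
(.lf (nat_lit 235619) (.g (nat_lit 1490) (.e (nat_lit 122624) (nat_lit 11) (.e (nat_lit 426438) (nat_lit 18) (.e (nat_lit 98374) (nat_lit 29) (.e (nat_lit 450565) (nat_lit 0) (.e (nat_lit 6391) (nat_lit 339) .nil))))) .nil)))) (.nd (nat_lit 5) (.nd (nat_lit 6) 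
(.lf (nat_lit 235539) (.g (nat_lit 625) (.e (nat_lit 114698) (nat_lit 11) (.e (nat_lit 426200) (nat_lit 9) (.e (nat_lit 426481) (nat_lit 27) .nil))) .nil)) 
(.lf (nat_lit 235603) (.g (nat_lit 781) (.e (nat_lit 122624) (nat_lit 11) (.e (nat_lit 426436) (nat_lit 18) (.e (nat_lit 98372) (nat_lit 29) .nil))) .nil))) (.nd (nat_lit 6) 
(.lf (nat_lit 235571) (.g (nat_lit 2900) (.e (nat_lit 114698) (nat_lit 11) (.e (nat_lit 426343) (nat_lit 14) (.e (nat_lit 491572) (nat_lit 14) (.e (nat_lit 401453) (nat_lit 12) (.e (nat_lit 475214) (nat_lit 42) .nil))))) .nil)) 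
(.lf (nat_lit 235635) (.g (nat_lit 1569) (.e (nat_lit 122624) (nat_lit 11) (.e (nat_lit 426566) (nat_lit 34) (.e (nat_lit 393271) (nat_lit 23) (.e (nat_lit 426438) (nat_lit 18) (.e (nat_lit 106240) (nat_lit 3) .nil))))) .nil))))) (.nd (nat_lit 4) (.nd (nat_lit 5) (.nd (nat_lit 6) 
(.lf (nat_lit 235531) (.g (nat_lit 314) (.e (nat_lit 114698) (nat_lit 11) (.e (nat_lit 426199) (nat_lit 9) (.e (nat_lit 426478) (nat_lit 27) .nil))) .nil)) 
(.lf (nat_lit 235595) (.g (nat_lit 946) (.e (nat_lit 122624) (nat_lit 11) (.e (nat_lit 426187) (nat_lit 9) (.e (nat_lit 426555) (nat_lit 32) (.e (nat_lit 376857) (nat_lit 21) .nil)))) .nil))) (.nd (nat_lit 6) 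
(.lf (nat_lit 235563) (.g (nat_lit 641) (.e (nat_lit 114698) (nat_lit 11) (.e (nat_lit 426315) (nat_lit 12) (.e (nat_lit 475214) (nat_lit 42) .nil))) .nil)) 
(.lf (nat_lit 235627) (.g (nat_lit 1783) (.e (nat_lit 122624) (nat_lit 11) (.e (nat_lit 426566) (nat_lit 34) (.e (nat_lit 393265) (nat_lit 22) (.e (nat_lit 417820) (nat_lit 10) (.e (nat_lit 595) (nat_lit 45) .nil))))) .nil)))) (.nd (nat_lit 5) (.nd (nat_lit 6) 
(.lf (nat_lit 235547) (.g (nat_lit 662) (.e (nat_lit 114698) (nat_lit 11) (.e (nat_lit 426200) (nat_lit 9) (.e (nat_lit 426504) (nat_lit 27) .nil))) .nil)) 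
(.lf (nat_lit 235611) (.g (nat_lit 2469) (.e (nat_lit 122624) (nat_lit 11) (.e (nat_lit 426438) (nat_lit 18) (.e (nat_lit 98373) (nat_lit 29) (.e (nat_lit 450560) (nat_lit 0) (.e (nat_lit 6392) (nat_lit 339) .nil))))) .nil))) (.nd (nat_lit 6) 
(.lf (nat_lit 235579) (.g (nat_lit 1491) (.e (nat_lit 114698) (nat_lit 11) (.e (nat_lit 433920) (nat_lit 34) (.e (nat_lit 393268) (nat_lit 23) (.e (nat_lit 426438) (nat_lit 18) (.e (nat_lit 106240) (nat_lit 3) .nil))))) (.g (nat_lit 4) .nil .nil))) 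
(.lf (nat_lit 235643) (.g (nat_lit 2884) (.e (nat_lit 122624) (nat_lit 11) (.e (nat_lit 426568) (nat_lit 34) (.e (nat_lit 393301) (nat_lit 27) (.e (nat_lit 491535) (nat_lit 2) (.e (nat_lit 98048) (nat_lit 0) .nil))))) .nil)))))) (.nd (nat_lit 3) (.nd (nat_lit 4) (.nd (nat_lit 5) (.nd (nat_lit 6) 
(.lf (nat_lit 235527) (.g (nat_lit 2893) (.e (nat_lit 114698) (nat_lit 11) (.e (nat_lit 426198) (nat_lit 9) (.e (nat_lit 426539) (nat_lit 29) (.e (nat_lit 352309) (nat_lit 21) (.e (nat_lit 57848) (nat_lit 252) (.e (nat_lit 57388) (nat_lit 5) .nil)))))) (.g (nat_lit 5) .nil .nil))) 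
(.lf (nat_lit 235591) (.g (nat_lit 1374) (.e (nat_lit 122624) (nat_lit 11) (.e (nat_lit 426140) (nat_lit 3) (.e (nat_lit 204850) (nat_lit 26) (.e (nat_lit 336205) (nat_lit 12) (.e (nat_lit 385066) (nat_lit 26) .nil))))) .nil))) (.nd (nat_lit 6) 
(.lf (nat_lit 235559) (.g (nat_lit 3296) (.e (nat_lit 114698) (nat_lit 11) (.e (nat_lit 426306) (nat_lit 12) (.e (nat_lit 475214) (nat_lit 42) (.e (nat_lit 720954) (nat_lit 25) .nil)))) .nil)) 
(.lf (nat_lit 235623) (.g (nat_lit 1119) (.e (nat_lit 122624) (nat_lit 11) (.e (nat_lit 426565) (nat_lit 34) (.e (nat_lit 393294) (nat_lit 26) (.e (nat_lit 475177) (nat_lit 24) (.e (nat_lit 524032) (nat_lit 20) .nil))))) .nil)))) (.nd (nat_lit 5) (.nd (nat_lit 6) 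
(.lf (nat_lit 235543) (.g (nat_lit 1025) (.e (nat_lit 114698) (nat_lit 11) (.e (nat_lit 426200) (nat_lit 9) (.e (nat_lit 426493) (nat_lit 27) (.e (nat_lit 336084) (nat_lit 9) .nil)))) .nil)) 
(.lf (nat_lit 235607) (.g (nat_lit 494) (.e (nat_lit 122624) (nat_lit 11) (.e (nat_lit 426438) (nat_lit 18) (.e (nat_lit 98372) (nat_lit 29) .nil))) .nil))) (.nd (nat_lit 6) 
(.lf (nat_lit 235575) (.g (nat_lit 3365) (.e (nat_lit 114698) (nat_lit 11) (.e (nat_lit 426343) (nat_lit 14) (.e (nat_lit 491572) (nat_lit 14) (.e (nat_lit 401454) (nat_lit 12) (.e (nat_lit 475214) (nat_lit 42) .nil))))) .nil)) 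
(.lf (nat_lit 235639) (.g (nat_lit 2376) (.e (nat_lit 122624) (nat_lit 11) (.e (nat_lit 426566) (nat_lit 34) (.e (nat_lit 393294) (nat_lit 26) (.e (nat_lit 475177) (nat_lit 24) (.e (nat_lit 524032) (nat_lit 20) .nil))))) .nil))))) (.nd (nat_lit 4) (.nd (nat_lit 5) (.nd (nat_lit 6) 
(.lf (nat_lit 235535) (.g (nat_lit 2930) (.e (nat_lit 114698) (nat_lit 11) (.e (nat_lit 426199) (nat_lit 9) (.e (nat_lit 426538) (nat_lit 29) (.e (nat_lit 352309) (nat_lit 21) (.e (nat_lit 57848) (nat_lit 252) (.e (nat_lit 57388) (nat_lit 5) .nil)))))) (.g (nat_lit 5) .nil .nil))) 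
(.lf (nat_lit 235599) (.g (nat_lit 681) (.e (nat_lit 122624) (nat_lit 11) (.e (nat_lit 426196) (nat_lit 9) (.e (nat_lit 426555) (nat_lit 32) (.e (nat_lit 376859) (nat_lit 21) .nil)))) .nil))) (.nd (nat_lit 6) 
(.lf (nat_lit 235567) (.g (nat_lit 1628) (.e (nat_lit 114698) (nat_lit 11) (.e (nat_lit 426335) (nat_lit 13) (.e (nat_lit 483346) (nat_lit 17) (.e (nat_lit 6434) (nat_lit 343) .nil)))) .nil)) 
(.lf (nat_lit 235631) (.g (nat_lit 601) (.e (nat_lit 122624) (nat_lit 11) (.e (nat_lit 426566) (nat_lit 34) (.e (nat_lit 393270) (nat_lit 23) .nil))) .nil)))) (.nd (nat_lit 5) (.nd (nat_lit 6) 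
(.lf (nat_lit 235551) (.g (nat_lit 711) (.e (nat_lit 114698) (nat_lit 11) (.e (nat_lit 426200) (nat_lit 9) (.e (nat_lit 426515) (nat_lit 27) .nil))) .nil)) 
(.lf (nat_lit 235615) (.g (nat_lit 2717) (.e (nat_lit 122624) (nat_lit 11) (.e (nat_lit 426438) (nat_lit 18) (.e (nat_lit 98373) (nat_lit 29) (.e (nat_lit 450566) (nat_lit 0) (.e (nat_lit 6392) (nat_lit 339) .nil))))) .nil))) (.nd (nat_lit 6) 
(.lf (nat_lit 235583) (.g (nat_lit 1387) (.e (nat_lit 114698) (nat_lit 11) (.e (nat_lit 433920) (nat_lit 34) (.e (nat_lit 393296) (nat_lit 26) (.e (nat_lit 475179) (nat_lit 24) (.e (nat_lit 524032) (nat_lit 20) .nil))))) (.g (nat_lit 4) .nil .nil))) 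
(.lf (nat_lit 235647) (.g (nat_lit 1062) (.e (nat_lit 122624) (nat_lit 12) (.e (nat_lit 434219) (nat_lit 19) (.e (nat_lit 499952) (nat_lit 14) (.e (nat_lit 1575) (nat_lit 110) (.e (nat_lit 360192) (nat_lit 3) .nil))))) .nil)))))))))

noncomputable def tv3075 : DT := (.nd (nat_lit 0) (.nd (nat_lit 1) (.nd (nat_lit 2) (.nd (nat_lit 3) (.nd (nat_lit 4) (.nd (nat_lit 5) (.nd (nat_lit 6) 
(.lf (nat_lit 235648) (.g (nat_lit 485) (.e (nat_lit 122624) (nat_lit 12) (.e (nat_lit 434219) (nat_lit 19) (.e (nat_lit 499984) (nat_lit 14) .nil))) .nil)) 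
(.lf (nat_lit 235712) (.g (nat_lit 1815) (.e (nat_lit 114707) (nat_lit 20) (.e (nat_lit 1800) (nat_lit 119) (.e (nat_lit 516120) (nat_lit 1) (.e (nat_lit 164401) (nat_lit 256) .nil)))) .nil))) (.nd (nat_lit 6) 
(.lf (nat_lit 235680) (.g (nat_lit 1992) (.e (nat_lit 114702) (nat_lit 20) (.e (nat_lit 1794) (nat_lit 119) (.e (nat_lit 516115) (nat_lit 1) (.e (nat_lit 164399) (nat_lit 256) (.e (nat_lit 57379) (nat_lit 3) .nil))))) .nil)) 
(.lf (nat_lit 235744) (.g (nat_lit 1571) (.e (nat_lit 114708) (nat_lit 20) (.e (nat_lit 1800) (nat_lit 119) (.e (nat_lit 516119) (nat_lit 1) (.e (nat_lit 164402) (nat_lit 256) .nil)))) .nil)))) (.nd (nat_lit 5) (.nd (nat_lit 6) 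
(.lf (nat_lit 235664) (.g (nat_lit 1719) (.e (nat_lit 122624) (nat_lit 17) (.e (nat_lit 475179) (nat_lit 24) (.e (nat_lit 516176) (nat_lit 14) (.e (nat_lit 466970) (nat_lit 21) .nil)))) .nil)) 
(.lf (nat_lit 235728) (.g (nat_lit 1975) (.e (nat_lit 114708) (nat_lit 20) (.e (nat_lit 1800) (nat_lit 119) (.e (nat_lit 516115) (nat_lit 1) (.e (nat_lit 164399) (nat_lit 256) (.e (nat_lit 57379) (nat_lit 3) .nil))))) .nil))) (.nd (nat_lit 6) 
(.lf (nat_lit 235696) (.g (nat_lit 2290) (.e (nat_lit 114707) (nat_lit 20) (.e (nat_lit 1800) (nat_lit 119) (.e (nat_lit 516115) (nat_lit 1) (.e (nat_lit 164399) (nat_lit 256) (.e (nat_lit 57372) (nat_lit 2) .nil))))) .nil)) 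
(.lf (nat_lit 235760) (.g (nat_lit 1578) (.e (nat_lit 114709) (nat_lit 21) (.e (nat_lit 57849) (nat_lit 252) (.e (nat_lit 57435) (nat_lit 17) (.e (nat_lit 376842) (nat_lit 11) .nil)))) .nil))))) (.nd (nat_lit 4) (.nd (nat_lit 5) (.nd (nat_lit 6) 
(.lf (nat_lit 235656) (.g (nat_lit 994) (.e (nat_lit 122624) (nat_lit 17) (.e (nat_lit 475177) (nat_lit 24) (.e (nat_lit 516174) (nat_lit 14) (.e (nat_lit 466970) (nat_lit 21) .nil)))) .nil)) 
(.lf (nat_lit 235720) (.g (nat_lit 2125) (.e (nat_lit 114708) (nat_lit 20) (.e (nat_lit 1800) (nat_lit 119) (.e (nat_lit 516115) (nat_lit 1) (.e (nat_lit 164398) (nat_lit 256) (.e (nat_lit 57378) (nat_lit 3) .nil))))) .nil))) (.nd (nat_lit 6) 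
(.lf (nat_lit 235688) (.g (nat_lit 1768) (.e (nat_lit 114705) (nat_lit 20) (.e (nat_lit 1858) (nat_lit 124) (.e (nat_lit 557093) (nat_lit 12) (.e (nat_lit 164058) (nat_lit 56) .nil)))) .nil)) 
(.lf (nat_lit 235752) (.g (nat_lit 1591) (.e (nat_lit 114708) (nat_lit 20) (.e (nat_lit 1800) (nat_lit 119) (.e (nat_lit 516120) (nat_lit 1) (.e (nat_lit 164403) (nat_lit 256) .nil)))) .nil)))) (.nd (nat_lit 5) (.nd (nat_lit 6) 
(.lf (nat_lit 235672) (.g (nat_lit 1740) (.e (nat_lit 114699) (nat_lit 20) (.e (nat_lit 1788) (nat_lit 119) (.e (nat_lit 516116) (nat_lit 1) (.e (nat_lit 164398) (nat_lit 256) .nil)))) .nil)) 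
(.lf (nat_lit 235736) (.g (nat_lit 1232) (.e (nat_lit 114708) (nat_lit 20) (.e (nat_lit 1800) (nat_lit 119) (.e (nat_lit 516117) (nat_lit 1) (.e (nat_lit 164399) (nat_lit 256) .nil)))) .nil))) (.nd (nat_lit 6) 
(.lf (nat_lit 235704) (.g (nat_lit 1673) (.e (nat_lit 114707) (nat_lit 20) (.e (nat_lit 1800) (nat_lit 119) (.e (nat_lit 516117) (nat_lit 1) (.e (nat_lit 164399) (nat_lit 256) .nil)))) .nil)) 
(.lf (nat_lit 235768) (.g (nat_lit 1763) (.e (nat_lit 114710) (nat_lit 21) (.e (nat_lit 57830) (nat_lit 250) (.e (nat_lit 1201) (nat_lit 88) (.e (nat_lit 65599) (nat_lit 9) (.e (nat_lit 343808) (nat_lit 29) .nil))))) .nil)))))) (.nd (nat_lit 3) (.nd (nat_lit 4) (.nd (nat_lit 5) (.nd (nat_lit 6) 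
(.lf (nat_lit 235652) (.g (nat_lit 1828) (.e (nat_lit 122624) (nat_lit 12) (.e (nat_lit 434231) (nat_lit 23) (.e (nat_lit 532483) (nat_lit 0) (.e (nat_lit 6450) (nat_lit 343) (.e (nat_lit 1638) (nat_lit 114) .nil))))) .nil)) 
(.lf (nat_lit 235716) (.g (nat_lit 1456) (.e (nat_lit 114707) (nat_lit 20) (.e (nat_lit 1856) (nat_lit 124) (.e (nat_lit 557093) (nat_lit 12) (.e (nat_lit 164058) (nat_lit 56) .nil)))) .nil))) (.nd (nat_lit 6) 
(.lf (nat_lit 235684) (.g (nat_lit 3522) (.e (nat_lit 114702) (nat_lit 20) (.e (nat_lit 2276) (nat_lit 150) (.e (nat_lit 770071) (nat_lit 8) (.e (nat_lit 65630) (nat_lit 14) (.e (nat_lit 401454) (nat_lit 12) (.e (nat_lit 475212) (nat_lit 42) (.e (nat_lit 720955) (nat_lit 25) .nil))))))) (.g (nat_lit 7) .nil .nil))) 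
(.lf (nat_lit 235748) (.g (nat_lit 2527) (.e (nat_lit 114708) (nat_lit 20) (.e (nat_lit 1800) (nat_lit 119) (.e (nat_lit 516120) (nat_lit 1) (.e (nat_lit 164330) (nat_lit 230) (.e (nat_lit 163869) (nat_lit 2) .nil))))) .nil)))) (.nd (nat_lit 5) (.nd (nat_lit 6) 
(.lf (nat_lit 235668) (.g (nat_lit 2605) (.e (nat_lit 114699) (nat_lit 20) (.e (nat_lit 1788) (nat_lit 119) (.e (nat_lit 516115) (nat_lit 1) (.e (nat_lit 164398) (nat_lit 256) (.e (nat_lit 57373) (nat_lit 2) .nil))))) .nil)) 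
(.lf (nat_lit 235732) (.g (nat_lit 407) (.e (nat_lit 114708) (nat_lit 20) (.e (nat_lit 1800) (nat_lit 119) (.e (nat_lit 516117) (nat_lit 1) .nil))) .nil))) (.nd (nat_lit 6) 
(.lf (nat_lit 235700) (.g (nat_lit 1673) (.e (nat_lit 114707) (nat_lit 20) (.e (nat_lit 1800) (nat_lit 119) (.e (nat_lit 516117) (nat_lit 1) (.e (nat_lit 164398) (nat_lit 256) .nil)))) .nil)) 
(.lf (nat_lit 235764) (.g (nat_lit 1850) (.e (nat_lit 114710) (nat_lit 21) (.e (nat_lit 57830) (nat_lit 250) (.e (nat_lit 1201) (nat_lit 88) (.e (nat_lit 65589) (nat_lit 9) (.e (nat_lit 336427) (nat_lit 29) (.e (nat_lit 450304) (nat_lit 5) .nil)))))) (.g (nat_lit 4) .nil .nil)))))) (.nd (nat_lit 4) (.nd (nat_lit 5) (.nd (nat_lit 6) 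
(.lf (nat_lit 235660) (.g (nat_lit 1281) (.e (nat_lit 122624) (nat_lit 17) (.e (nat_lit 475179) (nat_lit 24) (.e (nat_lit 516174) (nat_lit 14) (.e (nat_lit 466970) (nat_lit 21) .nil)))) .nil)) 
(.lf (nat_lit 235724) (.g (nat_lit 1950) (.e (nat_lit 114708) (nat_lit 20) (.e (nat_lit 1800) (nat_lit 119) (.e (nat_lit 516115) (nat_lit 1) (.e (nat_lit 164399) (nat_lit 256) (.e (nat_lit 57373) (nat_lit 2) .nil))))) .nil))) (.nd (nat_lit 6) 
(.lf (nat_lit 235692) (.g (nat_lit 4621) (.e (nat_lit 114706) (nat_lit 20) (.e (nat_lit 1796) (nat_lit 119) (.e (nat_lit 516115) (nat_lit 1) (.e (nat_lit 164399) (nat_lit 256) (.e (nat_lit 57373) (nat_lit 2) (.e (nat_lit 90174) (nat_lit 14) (.e (nat_lit 180243) (nat_lit 5) (.e (nat_lit 532513) (nat_lit 3) .nil)))))))) (.g (nat_lit 8) .nil .nil))) 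
(.lf (nat_lit 235756) (.g (nat_lit 376) (.e (nat_lit 114708) (nat_lit 20) (.e (nat_lit 2175) (nat_lit 143) (.e (nat_lit 712745) (nat_lit 27) .nil))) .nil)))) (.nd (nat_lit 5) (.nd (nat_lit 6) 
(.lf (nat_lit 235676) (.g (nat_lit 1768) (.e (nat_lit 114699) (nat_lit 20) (.e (nat_lit 1858) (nat_lit 124) (.e (nat_lit 557093) (nat_lit 12) (.e (nat_lit 164058) (nat_lit 56) .nil)))) .nil)) 
(.lf (nat_lit 235740) (.g (nat_lit 1376) (.e (nat_lit 114708) (nat_lit 20) (.e (nat_lit 1800) (nat_lit 119) (.e (nat_lit 516117) (nat_lit 1) (.e (nat_lit 164403) (nat_lit 256) .nil)))) .nil))) (.nd (nat_lit 6) 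
(.lf (nat_lit 235708) (.g (nat_lit 1694) (.e (nat_lit 114707) (nat_lit 20) (.e (nat_lit 1800) (nat_lit 119) (.e (nat_lit 516117) (nat_lit 1) (.e (nat_lit 164401) (nat_lit 256) .nil)))) .nil)) 
(.lf (nat_lit 235772) (.g (nat_lit 2468) (.e (nat_lit 114710) (nat_lit 21) (.e (nat_lit 57830) (nat_lit 250) (.e (nat_lit 1214) (nat_lit 89) (.e (nat_lit 73746) (nat_lit 3) (.e (nat_lit 516129) (nat_lit 3) (.e (nat_lit 221217) (nat_lit 24) (.e (nat_lit 213004) (nat_lit 9) (.e (nat_lit 124) (nat_lit 5) .nil)))))))) (.g (nat_lit 5) .nil .nil)))))))) 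
(.nd (nat_lit 2) (.nd (nat_lit 3) (.nd (nat_lit 4) (.nd (nat_lit 5) (.nd (nat_lit 6) 
(.lf (nat_lit 235650) (.g (nat_lit 1536) (.e (nat_lit 122624) (nat_lit 12) (.e (nat_lit 434219) (nat_lit 19) (.e (nat_lit 500061) (nat_lit 18) (.e (nat_lit 65624) (nat_lit 12) (.e (nat_lit 385068) (nat_lit 26) .nil))))) .nil)) 
(.lf (nat_lit 235714) (.g (nat_lit 2496) (.e (nat_lit 114707) (nat_lit 20) (.e (nat_lit 1800) (nat_lit 119) (.e (nat_lit 516120) (nat_lit 1) (.e (nat_lit 164403) (nat_lit 256) (.e (nat_lit 57370) (nat_lit 2) .nil))))) .nil))) (.nd (nat_lit 6) 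
(.lf (nat_lit 235682) (.g (nat_lit 2086) (.e (nat_lit 114702) (nat_lit 20) (.e (nat_lit 1958) (nat_lit 134) (.e (nat_lit 639020) (nat_lit 16) (.e (nat_lit 65627) (nat_lit 13) (.e (nat_lit 393270) (nat_lit 23) (.e (nat_lit 426446) (nat_lit 20) .nil)))))) (.g (nat_lit 6) .nil .nil))) 
(.lf (nat_lit 235746) (.g (nat_lit 1820) (.e (nat_lit 114708) (nat_lit 20) (.e (nat_lit 1800) (nat_lit 119) (.e (nat_lit 516119) (nat_lit 1) (.e (nat_lit 164403) (nat_lit 256) (.e (nat_lit 57371) (nat_lit 2) .nil))))) .nil)))) (.nd (nat_lit 5) (.nd (nat_lit 6) 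
(.lf (nat_lit 235666) (.g (nat_lit 2075) (.e (nat_lit 122624) (nat_lit 17) (.e (nat_lit 475179) (nat_lit 24) (.e (nat_lit 516176) (nat_lit 14) (.e (nat_lit 466971) (nat_lit 21) (.e (nat_lit 164176) (nat_lit 154) .nil))))) .nil)) 
(.lf (nat_lit 235730) (.g (nat_lit 1423) (.e (nat_lit 114708) (nat_lit 20) (.e (nat_lit 1800) (nat_lit 119) (.e (nat_lit 516115) (nat_lit 1) (.e (nat_lit 164403) (nat_lit 256) .nil)))) .nil))) (.nd (nat_lit 6) 
(.lf (nat_lit 235698) (.g (nat_lit 2259) (.e (nat_lit 114707) (nat_lit 20) (.e (nat_lit 1800) (nat_lit 119) (.e (nat_lit 516115) (nat_lit 1) (.e (nat_lit 164399) (nat_lit 256) (.e (nat_lit 57378) (nat_lit 3) .nil))))) .nil)) 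
(.lf (nat_lit 235762) (.g (nat_lit 3402) (.e (nat_lit 114710) (nat_lit 21) (.e (nat_lit 57655) (nat_lit 152) (.e (nat_lit 1185) (nat_lit 87) (.e (nat_lit 57476) (nat_lit 28) (.e (nat_lit 557108) (nat_lit 15) (.e (nat_lit 188446) (nat_lit 21) (.e (nat_lit 164177) (nat_lit 154) (.e (nat_lit 57390) (nat_lit 5) .nil)))))))) (.g (nat_lit 5) .nil .nil)))))) 
(.nd (nat_lit 4) (.nd (nat_lit 5) (.nd (nat_lit 6) 
(.lf (nat_lit 235658) (.g (nat_lit 1955) (.e (nat_lit 122624) (nat_lit 17) (.e (nat_lit 475177) (nat_lit 24) (.e (nat_lit 516176) (nat_lit 14) (.e (nat_lit 466971) (nat_lit 21) (.e (nat_lit 164177) (nat_lit 154) .nil))))) .nil)) 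
(.lf (nat_lit 235722) (.g (nat_lit 1276) (.e (nat_lit 114708) (nat_lit 20) (.e (nat_lit 1800) (nat_lit 119) (.e (nat_lit 516115) (nat_lit 1) (.e (nat_lit 164399) (nat_lit 256) .nil)))) .nil))) (.nd (nat_lit 6) 
(.lf (nat_lit 235690) (.g (nat_lit 2216) (.e (nat_lit 114706) (nat_lit 20) (.e (nat_lit 1796) (nat_lit 119) (.e (nat_lit 516115) (nat_lit 1) (.e (nat_lit 164398) (nat_lit 256) (.e (nat_lit 57373) (nat_lit 2) .nil))))) .nil)) 
(.lf (nat_lit 235754) (.g (nat_lit 1449) (.e (nat_lit 114708) (nat_lit 20) (.e (nat_lit 1856) (nat_lit 124) (.e (nat_lit 557093) (nat_lit 12) (.e (nat_lit 164058) (nat_lit 56) .nil)))) .nil)))) (.nd (nat_lit 5) (.nd (nat_lit 6) 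
(.lf (nat_lit 235674) (.g (nat_lit 2507) (.e (nat_lit 114699) (nat_lit 20) (.e (nat_lit 1788) (nat_lit 119) (.e (nat_lit 516116) (nat_lit 1) (.e (nat_lit 164399) (nat_lit 256) (.e (nat_lit 57372) (nat_lit 2) .nil))))) .nil)) 
(.lf (nat_lit 235738) (.g (nat_lit 1846) (.e (nat_lit 114708) (nat_lit 20) (.e (nat_lit 1800) (nat_lit 119) (.e (nat_lit 516117) (nat_lit 1) (.e (nat_lit 164399) (nat_lit 256) (.e (nat_lit 57379) (nat_lit 3) .nil))))) .nil))) (.nd (nat_lit 6) 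
(.lf (nat_lit 235706) (.g (nat_lit 2218) (.e (nat_lit 114707) (nat_lit 20) (.e (nat_lit 1800) (nat_lit 119) (.e (nat_lit 516117) (nat_lit 1) (.e (nat_lit 164399) (nat_lit 256) (.e (nat_lit 57378) (nat_lit 3) .nil))))) .nil)) 
(.lf (nat_lit 235770) (.g (nat_lit 1813) (.e (nat_lit 114710) (nat_lit 21) (.e (nat_lit 57830) (nat_lit 250) (.e (nat_lit 1201) (nat_lit 88) (.e (nat_lit 65626) (nat_lit 13) (.e (nat_lit 393274) (nat_lit 23) (.e (nat_lit 433920) (nat_lit 20) .nil)))))) (.g (nat_lit 4) .nil .nil))))))) (.nd (nat_lit 3) (.nd (nat_lit 4) (.nd (nat_lit 5) (.nd (nat_lit 6) 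
(.lf (nat_lit 235654) (.g (nat_lit 1562) (.e (nat_lit 122624) (nat_lit 17) (.e (nat_lit 475176) (nat_lit 24) (.e (nat_lit 516166) (nat_lit 12) (.e (nat_lit 450560) (nat_lit 0) .nil)))) .nil)) 
(.lf (nat_lit 235718) (.g (nat_lit 2144) (.e (nat_lit 114708) (nat_lit 20) (.e (nat_lit 1800) (nat_lit 119) (.e (nat_lit 516115) (nat_lit 1) (.e (nat_lit 164398) (nat_lit 256) (.e (nat_lit 57374) (nat_lit 2) .nil))))) .nil))) (.nd (nat_lit 6) 
(.lf (nat_lit 235686) (.g (nat_lit 393) (.e (nat_lit 114704) (nat_lit 20) (.e (nat_lit 1855) (nat_lit 124) (.e (nat_lit 564992) (nat_lit 6) .nil))) .nil)) 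
(.lf (nat_lit 235750) (.g (nat_lit 1734) (.e (nat_lit 114708) (nat_lit 20) (.e (nat_lit 1800) (nat_lit 119) (.e (nat_lit 516120) (nat_lit 1) (.e (nat_lit 164396) (nat_lit 256) .nil)))) .nil)))) (.nd (nat_lit 5) (.nd (nat_lit 6) 
(.lf (nat_lit 235670) (.g (nat_lit 2231) (.e (nat_lit 114699) (nat_lit 20) (.e (nat_lit 1788) (nat_lit 119) (.e (nat_lit 516115) (nat_lit 1) (.e (nat_lit 164399) (nat_lit 256) (.e (nat_lit 57375) (nat_lit 2) .nil))))) .nil)) 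
(.lf (nat_lit 235734) (.g (nat_lit 1233) (.e (nat_lit 114708) (nat_lit 20) (.e (nat_lit 1800) (nat_lit 119) (.e (nat_lit 516117) (nat_lit 1) (.e (nat_lit 164398) (nat_lit 256) .nil)))) .nil))) (.nd (nat_lit 6) 
(.lf (nat_lit 235702) (.g (nat_lit 2437) (.e (nat_lit 114707) (nat_lit 20) (.e (nat_lit 1800) (nat_lit 119) (.e (nat_lit 516117) (nat_lit 1) (.e (nat_lit 164398) (nat_lit 256) (.e (nat_lit 57378) (nat_lit 3) .nil))))) .nil)) 
(.lf (nat_lit 235766) (.g (nat_lit 1346) (.e (nat_lit 114710) (nat_lit 21) (.e (nat_lit 57830) (nat_lit 250) (.e (nat_lit 1201) (nat_lit 88) (.e (nat_lit 65596) (nat_lit 9) .nil)))) .nil))))) (.nd (nat_lit 4) (.nd (nat_lit 5) (.nd (nat_lit 6) 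
(.lf (nat_lit 235662) (.g (nat_lit 1671) (.e (nat_lit 122624) (nat_lit 17) (.e (nat_lit 475179) (nat_lit 24) (.e (nat_lit 516176) (nat_lit 14) (.e (nat_lit 466969) (nat_lit 21) .nil)))) .nil)) 
(.lf (nat_lit 235726) (.g (nat_lit 4374) (.e (nat_lit 114708) (nat_lit 20) (.e (nat_lit 1800) (nat_lit 119) (.e (nat_lit 516115) (nat_lit 1) (.e (nat_lit 164399) (nat_lit 256) (.e (nat_lit 57378) (nat_lit 3) (.e (nat_lit 98358) (nat_lit 26) (.e (nat_lit 426131) (nat_lit 3) (.e (nat_lit 204837) (nat_lit 20) .nil)))))))) (.g (nat_lit 8) .nil .nil)))) (.nd (nat_lit 6) 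
(.lf (nat_lit 235694) (.g (nat_lit 2400) (.e (nat_lit 114707) (nat_lit 20) (.e (nat_lit 1800) (nat_lit 119) (.e (nat_lit 516115) (nat_lit 1) (.e (nat_lit 164398) (nat_lit 256) (.e (nat_lit 57373) (nat_lit 2) .nil))))) .nil)) 
(.lf (nat_lit 235758) (.g (nat_lit 886) (.e (nat_lit 122624) (nat_lit 20) (.e (nat_lit 1796) (nat_lit 119) (.e (nat_lit 516199) (nat_lit 26) (.e (nat_lit 336087) (nat_lit 9) .nil)))) .nil)))) (.nd (nat_lit 5) (.nd (nat_lit 6) 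
(.lf (nat_lit 235678) (.g (nat_lit 2120) (.e (nat_lit 114700) (nat_lit 20) (.e (nat_lit 1794) (nat_lit 119) (.e (nat_lit 516115) (nat_lit 1) (.e (nat_lit 164399) (nat_lit 256) (.e (nat_lit 57375) (nat_lit 2) .nil))))) .nil)) 
(.lf (nat_lit 235742) (.g (nat_lit 1573) (.e (nat_lit 114708) (nat_lit 20) (.e (nat_lit 1800) (nat_lit 119) (.e (nat_lit 516119) (nat_lit 1) (.e (nat_lit 164396) (nat_lit 256) .nil)))) .nil))) (.nd (nat_lit 6) 
(.lf (nat_lit 235710) (.g (nat_lit 1801) (.e (nat_lit 114707) (nat_lit 20) (.e (nat_lit 1800) (nat_lit 119) (.e (nat_lit 516119) (nat_lit 1) (.e (nat_lit 164401) (nat_lit 256) .nil)))) .nil)) 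
(.lf (nat_lit 235774) (.g (nat_lit 1816) (.e (nat_lit 114710) (nat_lit 21) (.e (nat_lit 57830) (nat_lit 250) (.e (nat_lit 1214) (nat_lit 89) (.e (nat_lit 73746) (nat_lit 3) (.e (nat_lit 516131) (nat_lit 3) (.e (nat_lit 221218) (nat_lit 24) (.e (nat_lit 213001) (nat_lit 9) (.e (nat_lit 124) (nat_lit 5) .nil)))))))) (.g (nat_lit 4) .nil .nil))))))))) 
(.nd (nat_lit 1) (.nd (nat_lit 2) (.nd (nat_lit 3) (.nd (nat_lit 4) (.nd (nat_lit 5) 
(.nd (nat_lit 6) 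
(.lf (nat_lit 235649) (.g (nat_lit 485) (.e (nat_lit 122624) (nat_lit 12) (.e (nat_lit 434219) (nat_lit 19) (.e (nat_lit 499990) (nat_lit 14) .nil))) .nil)) 
(.lf (nat_lit 235713) (.g (nat_lit 1811) (.e (nat_lit 114707) (nat_lit 20) (.e (nat_lit 1800) (nat_lit 119) (.e (nat_lit 516120) (nat_lit 1) (.e (nat_lit 164403) (nat_lit 256) .nil)))) .nil))) (.nd (nat_lit 6) 
(.lf (nat_lit 235681) (.g (nat_lit 56) (.e (nat_lit 114702) (nat_lit 20) (.e (nat_lit 1832) (nat_lit 122) (.e (nat_lit 540690) (nat_lit 9) .nil))) .nil)) 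
(.lf (nat_lit 235745) (.g (nat_lit 1194) (.e (nat_lit 114708) (nat_lit 20) (.e (nat_lit 1800) (nat_lit 119) (.e (nat_lit 516119) (nat_lit 1) (.e (nat_lit 164403) (nat_lit 256) .nil)))) .nil)))) (.nd (nat_lit 5) (.nd (nat_lit 6) 
(.lf (nat_lit 235665) (.g (nat_lit 1277) (.e (nat_lit 122624) (nat_lit 17) (.e (nat_lit 475179) (nat_lit 24) (.e (nat_lit 516176) (nat_lit 14) (.e (nat_lit 466971) (nat_lit 21) .nil)))) .nil)) 
(.lf (nat_lit 235729) (.g (nat_lit 1423) (.e (nat_lit 114708) (nat_lit 20) (.e (nat_lit 1800) (nat_lit 119) (.e (nat_lit 516115) (nat_lit 1) (.e (nat_lit 164400) (nat_lit 256) .nil)))) .nil))) (.nd (nat_lit 6) 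
(.lf (nat_lit 235697) (.g (nat_lit 2379) (.e (nat_lit 114707) (nat_lit 20) (.e (nat_lit 1800) (nat_lit 119) (.e (nat_lit 516115) (nat_lit 1) (.e (nat_lit 164399) (nat_lit 256) (.e (nat_lit 57375) (nat_lit 2) .nil))))) .nil)) 
(.lf (nat_lit 235761) (.g (nat_lit 2637) (.e (nat_lit 114709) (nat_lit 21) (.e (nat_lit 57849) (nat_lit 252) (.e (nat_lit 57437) (nat_lit 17) (.e (nat_lit 376842) (nat_lit 11) (.e (nat_lit 426188) (nat_lit 9) .nil))))) .nil))))) (.nd (nat_lit 4) (.nd (nat_lit 5) (.nd (nat_lit 6) 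
(.lf (nat_lit 235657) (.g (nat_lit 1950) (.e (nat_lit 122624) (nat_lit 17) (.e (nat_lit 475177) (nat_lit 24) (.e (nat_lit 516176) (nat_lit 14) (.e (nat_lit 466971) (nat_lit 21) (.e (nat_lit 164176) (nat_lit 154) .nil))))) .nil)) 
(.lf (nat_lit 235721) (.g (nat_lit 2086) (.e (nat_lit 114708) (nat_lit 20) (.e (nat_lit 1800) (nat_lit 119) (.e (nat_lit 516115) (nat_lit 1) (.e (nat_lit 164398) (nat_lit 256) (.e (nat_lit 57379) (nat_lit 3) .nil))))) .nil))) (.nd (nat_lit 6) 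
(.lf (nat_lit 235689) (.g (nat_lit 1492) (.e (nat_lit 114706) (nat_lit 20) (.e (nat_lit 1796) (nat_lit 119) (.e (nat_lit 516115) (nat_lit 1) (.e (nat_lit 164398) (nat_lit 256) .nil)))) .nil)) 
(.lf (nat_lit 235753) (.g (nat_lit 2275) (.e (nat_lit 114708) (nat_lit 20) (.e (nat_lit 1800) (nat_lit 119) (.e (nat_lit 516120) (nat_lit 1) (.e (nat_lit 164403) (nat_lit 256) (.e (nat_lit 57370) (nat_lit 2) .nil))))) .nil)))) (.nd (nat_lit 5) (.nd (nat_lit 6) 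
(.lf (nat_lit 235673) (.g (nat_lit 2625) (.e (nat_lit 114699) (nat_lit 20) (.e (nat_lit 1788) (nat_lit 119) (.e (nat_lit 516116) (nat_lit 1) (.e (nat_lit 164398) (nat_lit 256) (.e (nat_lit 57373) (nat_lit 2) .nil))))) .nil)) 
(.lf (nat_lit 235737) (.g (nat_lit 1816) (.e (nat_lit 114708) (nat_lit 20) (.e (nat_lit 1800) (nat_lit 119) (.e (nat_lit 516117) (nat_lit 1) (.e (nat_lit 164399) (nat_lit 256) (.e (nat_lit 57373) (nat_lit 2) .nil))))) .nil))) (.nd (nat_lit 6) 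
(.lf (nat_lit 235705) (.g (nat_lit 2344) (.e (nat_lit 114707) (nat_lit 20) (.e (nat_lit 1800) (nat_lit 119) (.e (nat_lit 516117) (nat_lit 1) (.e (nat_lit 164399) (nat_lit 256) (.e (nat_lit 57375) (nat_lit 2) .nil))))) .nil)) 
(.lf (nat_lit 235769) (.g (nat_lit 1650) (.e (nat_lit 114710) (nat_lit 21) (.e (nat_lit 57830) (nat_lit 250) (.e (nat_lit 1201) (nat_lit 88) (.e (nat_lit 65625) (nat_lit 13) (.e (nat_lit 393275) (nat_lit 23) .nil))))) .nil)))))) (.nd (nat_lit 3) (.nd (nat_lit 4) (.nd (nat_lit 5) (.nd (nat_lit 6) 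
(.lf (nat_lit 235653) (.g (nat_lit 1582) (.e (nat_lit 122624) (nat_lit 12) (.e (nat_lit 434231) (nat_lit 23) (.e (nat_lit 532490) (nat_lit 0) (.e (nat_lit 6493) (nat_lit 343) .nil)))) .nil)) 
(.lf (nat_lit 235717) (.g (nat_lit 2068) (.e (nat_lit 114708) (nat_lit 20) (.e (nat_lit 1800) (nat_lit 119) (.e (nat_lit 516115) (nat_lit 1) (.e (nat_lit 164398) (nat_lit 256) (.e (nat_lit 57373) (nat_lit 2) .nil))))) .nil))) (.nd (nat_lit 6) 
(.lf (nat_lit 235685) (.g (nat_lit 4571) (.e (nat_lit 114702) (nat_lit 20) (.e (nat_lit 2276) (nat_lit 150) (.e (nat_lit 770072) (nat_lit 8) (.e (nat_lit 65629) (nat_lit 14) (.e (nat_lit 401454) (nat_lit 12) (.e (nat_lit 475212) (nat_lit 42) (.e (nat_lit 720955) (nat_lit 25) .nil))))))) (.g (nat_lit 7) .nil .nil))) 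
(.lf (nat_lit 235749) (.g (nat_lit 2373) (.e (nat_lit 114708) (nat_lit 20) (.e (nat_lit 1800) (nat_lit 119) (.e (nat_lit 516120) (nat_lit 1) (.e (nat_lit 164330) (nat_lit 230) (.e (nat_lit 163874) (nat_lit 3) .nil))))) .nil)))) (.nd (nat_lit 5) (.nd (nat_lit 6) 
(.lf (nat_lit 235669) (.g (nat_lit 2110) (.e (nat_lit 114699) (nat_lit 20) (.e (nat_lit 1788) (nat_lit 119) (.e (nat_lit 516115) (nat_lit 1) (.e (nat_lit 164399) (nat_lit 256) (.e (nat_lit 57373) (nat_lit 2) .nil))))) .nil)) 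
(.lf (nat_lit 235733) (.g (nat_lit 2355) (.e (nat_lit 114708) (nat_lit 20) (.e (nat_lit 1800) (nat_lit 119) (.e (nat_lit 516117) (nat_lit 1) (.e (nat_lit 164330) (nat_lit 230) (.e (nat_lit 163874) (nat_lit 3) .nil))))) .nil))) (.nd (nat_lit 6) 
(.lf (nat_lit 235701) (.g (nat_lit 2429) (.e (nat_lit 114707) (nat_lit 20) (.e (nat_lit 1800) (nat_lit 119) (.e (nat_lit 516117) (nat_lit 1) (.e (nat_lit 164398) (nat_lit 256) (.e (nat_lit 57375) (nat_lit 2) .nil))))) .nil)) 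
(.lf (nat_lit 235765) (.g (nat_lit 1847) (.e (nat_lit 114710) (nat_lit 21) (.e (nat_lit 57830) (nat_lit 250) (.e (nat_lit 1201) (nat_lit 88) (.e (nat_lit 65589) (nat_lit 9) (.e (nat_lit 336428) (nat_lit 29) (.e (nat_lit 450304) (nat_lit 5) .nil)))))) (.g (nat_lit 4) .nil .nil)))))) (.nd (nat_lit 4) (.nd (nat_lit 5) (.nd (nat_lit 6) 
(.lf (nat_lit 235661) (.g (nat_lit 1757) (.e (nat_lit 122624) (nat_lit 17) (.e (nat_lit 475179) (nat_lit 24) (.e (nat_lit 516176) (nat_lit 14) (.e (nat_lit 466968) (nat_lit 21) .nil)))) .nil)) 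
(.lf (nat_lit 235725) (.g (nat_lit 1948) (.e (nat_lit 114708) (nat_lit 20) (.e (nat_lit 1800) (nat_lit 119) (.e (nat_lit 516115) (nat_lit 1) (.e (nat_lit 164399) (nat_lit 256) (.e (nat_lit 57378) (nat_lit 3) .nil))))) .nil))) (.nd (nat_lit 6) 
(.lf (nat_lit 235693) (.g (nat_lit 1754) (.e (nat_lit 114707) (nat_lit 20) (.e (nat_lit 1800) (nat_lit 119) (.e (nat_lit 516115) (nat_lit 1) (.e (nat_lit 164398) (nat_lit 256) .nil)))) .nil)) 
(.lf (nat_lit 235757) (.g (nat_lit 1295) (.e (nat_lit 122624) (nat_lit 20) (.e (nat_lit 1788) (nat_lit 119) (.e (nat_lit 516195) (nat_lit 26) (.e (nat_lit 336186) (nat_lit 11) (.e (nat_lit 368676) (nat_lit 21) .nil))))) .nil)))) (.nd (nat_lit 5) (.nd (nat_lit 6) 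
(.lf (nat_lit 235677) (.g (nat_lit 1560) (.e (nat_lit 114699) (nat_lit 20) (.e (nat_lit 2040) (nat_lit 141) (.e (nat_lit 696344) (nat_lit 8) (.e (nat_lit 172125) (nat_lit 14) (.e (nat_lit 491566) (nat_lit 12) .nil))))) .nil)) 
(.lf (nat_lit 235741) (.g (nat_lit 2355) (.e (nat_lit 114708) (nat_lit 20) (.e (nat_lit 1800) (nat_lit 119) (.e (nat_lit 516119) (nat_lit 1) (.e (nat_lit 164327) (nat_lit 230) (.e (nat_lit 163871) (nat_lit 2) .nil))))) .nil))) (.nd (nat_lit 6) 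
(.lf (nat_lit 235709) (.g (nat_lit 1719) (.e (nat_lit 114707) (nat_lit 20) (.e (nat_lit 1800) (nat_lit 119) (.e (nat_lit 516117) (nat_lit 1) (.e (nat_lit 164403) (nat_lit 256) .nil)))) .nil)) 
(.lf (nat_lit 235773) (.g (nat_lit 1717) (.e (nat_lit 114710) (nat_lit 21) (.e (nat_lit 57830) (nat_lit 250) (.e (nat_lit 1214) (nat_lit 89) (.e (nat_lit 73746) (nat_lit 3) (.e (nat_lit 516129) (nat_lit 3) (.e (nat_lit 221217) (nat_lit 24) (.e (nat_lit 213007) (nat_lit 9) (.e (nat_lit 124) (nat_lit 5) .nil)))))))) (.g (nat_lit 4) .nil .nil)))))))) 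
(.nd (nat_lit 2) (.nd (nat_lit 3) (.nd (nat_lit 4) (.nd (nat_lit 5) (.nd (nat_lit 6) 
(.lf (nat_lit 235651) (.g (nat_lit 935) (.e (nat_lit 122624) (nat_lit 12) (.e (nat_lit 434219) (nat_lit 19) (.e (nat_lit 500087) (nat_lit 22) (.e (nat_lit 131109) (nat_lit 9) (.e (nat_lit 336326) (nat_lit 18) .nil))))) .nil)) 
(.lf (nat_lit 235715) (.g (nat_lit 2399) (.e (nat_lit 114707) (nat_lit 20) (.e (nat_lit 1800) (nat_lit 119) (.e (nat_lit 516120) (nat_lit 1) (.e (nat_lit 164403) (nat_lit 256) (.e (nat_lit 57378) (nat_lit 3) .nil))))) .nil))) (.nd (nat_lit 6) 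
(.lf (nat_lit 235683) (.g (nat_lit 1752) (.e (nat_lit 114702) (nat_lit 20) (.e (nat_lit 2203) (nat_lit 144) (.e (nat_lit 720940) (nat_lit 22) (.e (nat_lit 90170) (nat_lit 13) (.e (nat_lit 179968) (nat_lit 20) (.e (nat_lit 114710) (nat_lit 21) (.e (nat_lit 57854) (nat_lit 252) (.e (nat_lit 57389) (nat_lit 5) .nil)))))))) (.g (nat_lit 4) .nil .nil))) 
(.lf (nat_lit 235747) (.g (nat_lit 4443) (.e (nat_lit 114708) (nat_lit 20) (.e (nat_lit 1800) (nat_lit 119) (.e (nat_lit 516119) (nat_lit 1) (.e (nat_lit 164403) (nat_lit 256) (.e (nat_lit 57378) (nat_lit 3) (.e (nat_lit 98358) (nat_lit 26) (.e (nat_lit 426131) (nat_lit 3) (.e (nat_lit 204837) (nat_lit 20) .nil)))))))) (.g (nat_lit 8) .nil .nil))))) (.nd (nat_lit 5) (.nd (nat_lit 6) 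
(.lf (nat_lit 235667) (.g (nat_lit 2075) (.e (nat_lit 122624) (nat_lit 17) (.e (nat_lit 475179) (nat_lit 24) (.e (nat_lit 516176) (nat_lit 14) (.e (nat_lit 466972) (nat_lit 21) (.e (nat_lit 164176) (nat_lit 154) .nil))))) .nil)) 
(.lf (nat_lit 235731) (.g (nat_lit 1972) (.e (nat_lit 114708) (nat_lit 20) (.e (nat_lit 1800) (nat_lit 119) (.e (nat_lit 516115) (nat_lit 1) (.e (nat_lit 164403) (nat_lit 256) (.e (nat_lit 57378) (nat_lit 3) .nil))))) .nil))) (.nd (nat_lit 6) 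
(.lf (nat_lit 235699) (.g (nat_lit 1754) (.e (nat_lit 114707) (nat_lit 20) (.e (nat_lit 1800) (nat_lit 119) (.e (nat_lit 516115) (nat_lit 1) (.e (nat_lit 164403) (nat_lit 256) .nil)))) .nil)) 
(.lf (nat_lit 235763) (.g (nat_lit 3080) (.e (nat_lit 114710) (nat_lit 21) (.e (nat_lit 57655) (nat_lit 152) (.e (nat_lit 1185) (nat_lit 87) (.e (nat_lit 57477) (nat_lit 28) (.e (nat_lit 557108) (nat_lit 15) (.e (nat_lit 188446) (nat_lit 21) (.e (nat_lit 164177) (nat_lit 154) (.e (nat_lit 57390) (nat_lit 5) .nil)))))))) (.g (nat_lit 5) .nil .nil)))))) 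
(.nd (nat_lit 4) (.nd (nat_lit 5) (.nd (nat_lit 6) 
(.lf (nat_lit 235659) (.g (nat_lit 520) (.e (nat_lit 122624) (nat_lit 17) (.e (nat_lit 475179) (nat_lit 24) (.e (nat_lit 516174) (nat_lit 14) .nil))) .nil)) 
(.lf (nat_lit 235723) (.g (nat_lit 2044) (.e (nat_lit 114708) (nat_lit 20) (.e (nat_lit 1800) (nat_lit 119) (.e (nat_lit 516115) (nat_lit 1) (.e (nat_lit 164399) (nat_lit 256) (.e (nat_lit 57370) (nat_lit 2) .nil))))) .nil))) (.nd (nat_lit 6) 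
(.lf (nat_lit 235691) (.g (nat_lit 2263) (.e (nat_lit 114706) (nat_lit 20) (.e (nat_lit 1796) (nat_lit 119) (.e (nat_lit 516115) (nat_lit 1) (.e (nat_lit 164398) (nat_lit 256) (.e (nat_lit 57375) (nat_lit 2) .nil))))) .nil)) 
(.lf (nat_lit 235755) (.g (nat_lit 2028) (.e (nat_lit 114708) (nat_lit 20) (.e (nat_lit 2174) (nat_lit 143) (.e (nat_lit 712745) (nat_lit 27) (.e (nat_lit 426163) (nat_lit 6) (.e (nat_lit 253992) (nat_lit 11) .nil))))) .nil)))) (.nd (nat_lit 5) (.nd (nat_lit 6) 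
(.lf (nat_lit 235675) (.g (nat_lit 2502) (.e (nat_lit 114699) (nat_lit 20) (.e (nat_lit 1788) (nat_lit 119) (.e (nat_lit 516116) (nat_lit 1) (.e (nat_lit 164399) (nat_lit 256) (.e (nat_lit 57373) (nat_lit 2) .nil))))) .nil)) 
(.lf (nat_lit 235739) (.g (nat_lit 1290) (.e (nat_lit 114708) (nat_lit 20) (.e (nat_lit 1800) (nat_lit 119) (.e (nat_lit 516117) (nat_lit 1) (.e (nat_lit 164400) (nat_lit 256) .nil)))) .nil))) (.nd (nat_lit 6) 
(.lf (nat_lit 235707) (.g (nat_lit 2287) (.e (nat_lit 114707) (nat_lit 20) (.e (nat_lit 1800) (nat_lit 119) (.e (nat_lit 516117) (nat_lit 1) (.e (nat_lit 164399) (nat_lit 256) (.e (nat_lit 57379) (nat_lit 3) .nil))))) .nil)) 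
(.lf (nat_lit 235771) (.g (nat_lit 1630) (.e (nat_lit 114710) (nat_lit 21) (.e (nat_lit 57830) (nat_lit 250) (.e (nat_lit 1201) (nat_lit 88) (.e (nat_lit 65627) (nat_lit 13) (.e (nat_lit 393275) (nat_lit 23) (.e (nat_lit 433920) (nat_lit 20) .nil)))))) (.g (nat_lit 4) .nil .nil))))))) (.nd (nat_lit 3) (.nd (nat_lit 4) (.nd (nat_lit 5) (.nd (nat_lit 6) 
(.lf (nat_lit 235655) (.g (nat_lit 1553) (.e (nat_lit 122624) (nat_lit 17) (.e (nat_lit 475176) (nat_lit 24) (.e (nat_lit 516166) (nat_lit 12) (.e (nat_lit 450566) (nat_lit 0) .nil)))) .nil)) 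
(.lf (nat_lit 235719) (.g (nat_lit 2116) (.e (nat_lit 114708) (nat_lit 20) (.e (nat_lit 1800) (nat_lit 119) (.e (nat_lit 516115) (nat_lit 1) (.e (nat_lit 164398) (nat_lit 256) (.e (nat_lit 57375) (nat_lit 2) .nil))))) .nil))) (.nd (nat_lit 6) 
(.lf (nat_lit 235687) (.g (nat_lit 1770) (.e (nat_lit 114704) (nat_lit 20) (.e (nat_lit 1858) (nat_lit 124) (.e (nat_lit 557093) (nat_lit 12) (.e (nat_lit 164058) (nat_lit 56) .nil)))) .nil)) 
(.lf (nat_lit 235751) (.g (nat_lit 1594) (.e (nat_lit 114708) (nat_lit 20) (.e (nat_lit 1800) (nat_lit 119) (.e (nat_lit 516120) (nat_lit 1) (.e (nat_lit 164401) (nat_lit 256) .nil)))) .nil)))) (.nd (nat_lit 5) (.nd (nat_lit 6) 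
(.lf (nat_lit 235671) (.g (nat_lit 2086) (.e (nat_lit 114699) (nat_lit 20) (.e (nat_lit 1788) (nat_lit 119) (.e (nat_lit 516115) (nat_lit 1) (.e (nat_lit 164399) (nat_lit 256) (.e (nat_lit 57378) (nat_lit 3) .nil))))) .nil)) 
(.lf (nat_lit 235735) (.g (nat_lit 1953) (.e (nat_lit 114708) (nat_lit 20) (.e (nat_lit 1800) (nat_lit 119) (.e (nat_lit 516117) (nat_lit 1) (.e (nat_lit 164398) (nat_lit 256) (.e (nat_lit 57379) (nat_lit 3) .nil))))) .nil))) (.nd (nat_lit 6) 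
(.lf (nat_lit 235703) (.g (nat_lit 2393) (.e (nat_lit 114707) (nat_lit 20) (.e (nat_lit 1800) (nat_lit 119) (.e (nat_lit 516117) (nat_lit 1) (.e (nat_lit 164398) (nat_lit 256) (.e (nat_lit 57379) (nat_lit 3) .nil))))) .nil)) 
(.lf (nat_lit 235767) (.g (nat_lit 1305) (.e (nat_lit 114710) (nat_lit 21) (.e (nat_lit 57830) (nat_lit 250) (.e (nat_lit 1201) (nat_lit 88) (.e (nat_lit 65599) (nat_lit 9) .nil)))) .nil))))) (.nd (nat_lit 4) (.nd (nat_lit 5) (.nd (nat_lit 6) 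
(.lf (nat_lit 235663) (.g (nat_lit 2446) (.e (nat_lit 122624) (nat_lit 17) (.e (nat_lit 475179) (nat_lit 24) (.e (nat_lit 516176) (nat_lit 14) (.e (nat_lit 466969) (nat_lit 21) (.e (nat_lit 164179) (nat_lit 154) .nil))))) .nil)) 
(.lf (nat_lit 235727) (.g (nat_lit 5085) (.e (nat_lit 114708) (nat_lit 20) (.e (nat_lit 1800) (nat_lit 119) (.e (nat_lit 516115) (nat_lit 1) (.e (nat_lit 164399) (nat_lit 256) (.e (nat_lit 57378) (nat_lit 3) (.e (nat_lit 98367) (nat_lit 27) (.e (nat_lit 434231) (nat_lit 23) (.e (nat_lit 532514) (nat_lit 3) .nil)))))))) (.g (nat_lit 8) .nil .nil)))) (.nd (nat_lit 6) 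
(.lf (nat_lit 235695) (.g (nat_lit 1614) (.e (nat_lit 114707) (nat_lit 20) (.e (nat_lit 1800) (nat_lit 119) (.e (nat_lit 516115) (nat_lit 1) (.e (nat_lit 164399) (nat_lit 256) .nil)))) .nil)) 
(.lf (nat_lit 235759) (.g (nat_lit 1802) (.e (nat_lit 114709) (nat_lit 21) (.e (nat_lit 57849) (nat_lit 252) (.e (nat_lit 57411) (nat_lit 12) (.e (nat_lit 336211) (nat_lit 13) .nil)))) .nil)))) (.nd (nat_lit 5) (.nd (nat_lit 6) 
(.lf (nat_lit 235679) (.g (nat_lit 337) (.e (nat_lit 114700) (nat_lit 20) (.e (nat_lit 2203) (nat_lit 144) (.e (nat_lit 720941) (nat_lit 22) .nil))) .nil)) 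
(.lf (nat_lit 235743) (.g (nat_lit 1506) (.e (nat_lit 114708) (nat_lit 20) (.e (nat_lit 1800) (nat_lit 119) (.e (nat_lit 516119) (nat_lit 1) (.e (nat_lit 164401) (nat_lit 256) .nil)))) .nil))) (.nd (nat_lit 6) 
(.lf (nat_lit 235711) (.g (nat_lit 2272) (.e (nat_lit 114707) (nat_lit 20) (.e (nat_lit 1800) (nat_lit 119) (.e (nat_lit 516119) (nat_lit 1) (.e (nat_lit 164403) (nat_lit 256) (.e (nat_lit 57370) (nat_lit 2) .nil))))) .nil)) 
(.lf (nat_lit 235775) (.g (nat_lit 1976) (.e (nat_lit 114710) (nat_lit 21) (.e (nat_lit 57830) (nat_lit 250) (.e (nat_lit 1214) (nat_lit 89) (.e (nat_lit 73746) (nat_lit 3) (.e (nat_lit 516131) (nat_lit 3) (.e (nat_lit 221218) (nat_lit 24) (.e (nat_lit 213003) (nat_lit 9) (.e (nat_lit 124) (nat_lit 5) .nil)))))))) (.g (nat_lit 4) .nil .nil))))))))))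

noncomputable def tv3076 : DT := (.nd (nat_lit 0) (.nd (nat_lit 1) (.nd (nat_lit 2) (.nd (nat_lit 3) (.nd (nat_lit 4) (.nd (nat_lit 5) 
(.lf (nat_lit 235776) (.g (nat_lit 2004) (.e (nat_lit 114710) (nat_lit 21) (.e (nat_lit 57830) (nat_lit 250) (.e (nat_lit 1214) (nat_lit 89) (.e (nat_lit 73746) (nat_lit 3) (.e (nat_lit 516131) (nat_lit 3) (.e (nat_lit 221218) (nat_lit 24) (.e (nat_lit 213007) (nat_lit 9) (.e (nat_lit 124) (nat_lit 5) .nil)))))))) (.g (nat_lit 4) .nil .nil))) 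
(.lf (nat_lit 235808) (.g (nat_lit 1727) (.e (nat_lit 114710) (nat_lit 21) (.e (nat_lit 57830) (nat_lit 250) (.e (nat_lit 1296) (nat_lit 96) (.e (nat_lit 131127) (nat_lit 13) (.e (nat_lit 393279) (nat_lit 23) (.e (nat_lit 433920) (nat_lit 20) .nil)))))) (.g (nat_lit 5) .nil .nil)))) (.nd (nat_lit 5) 
(.lf (nat_lit 235792) (.g (nat_lit 1289) (.e (nat_lit 114710) (nat_lit 21) (.e (nat_lit 57830) (nat_lit 250) (.e (nat_lit 1296) (nat_lit 96) (.e (nat_lit 131107) (nat_lit 9) (.e (nat_lit 336428) (nat_lit 29) (.e (nat_lit 450304) (nat_lit 5) .nil)))))) (.g (nat_lit 4) .nil .nil))) 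
(.lf (nat_lit 235824) (.g (nat_lit 968) (.e (nat_lit 114710) (nat_lit 21) (.e (nat_lit 57844) (nat_lit 252) (.e (nat_lit 57436) (nat_lit 17) (.e (nat_lit 376840) (nat_lit 11) .nil)))) .nil)))) (.nd (nat_lit 4) (.nd (nat_lit 5) 
(.lf (nat_lit 235784) (.g (nat_lit 1194) (.e (nat_lit 114710) (nat_lit 21) (.e (nat_lit 57830) (nat_lit 250) (.e (nat_lit 1224) (nat_lit 90) (.e (nat_lit 81925) (nat_lit 11) (.e (nat_lit 426186) (nat_lit 9) .nil))))) .nil)) 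
(.lf (nat_lit 235816) (.g (nat_lit 1064) (.e (nat_lit 114710) (nat_lit 21) (.e (nat_lit 57844) (nat_lit 252) (.e (nat_lit 57424) (nat_lit 14) (.e (nat_lit 352276) (nat_lit 11) .nil)))) .nil))) (.nd (nat_lit 5) 
(.lf (nat_lit 235800) (.g (nat_lit 2103) (.e (nat_lit 114710) (nat_lit 21) (.e (nat_lit 57830) (nat_lit 250) (.e (nat_lit 1296) (nat_lit 96) (.e (nat_lit 131109) (nat_lit 9) (.e (nat_lit 336443) (nat_lit 32) (.e (nat_lit 474880) (nat_lit 5) .nil)))))) (.g (nat_lit 5) .nil .nil))) 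
(.lf (nat_lit 235832) (.g (nat_lit 1827) (.e (nat_lit 114710) (nat_lit 21) (.e (nat_lit 57846) (nat_lit 252) (.e (nat_lit 57411) (nat_lit 12) (.e (nat_lit 336211) (nat_lit 13) (.e (nat_lit 393269) (nat_lit 23) .nil))))) .nil))))) (.nd (nat_lit 3) (.nd (nat_lit 4) (.nd (nat_lit 5) 
(.lf (nat_lit 235780) (.g (nat_lit 1895) (.e (nat_lit 114710) (nat_lit 21) (.e (nat_lit 57830) (nat_lit 250) (.e (nat_lit 1214) (nat_lit 89) (.e (nat_lit 73746) (nat_lit 3) (.e (nat_lit 516131) (nat_lit 3) (.e (nat_lit 221219) (nat_lit 24) (.e (nat_lit 213004) (nat_lit 9) (.e (nat_lit 124) (nat_lit 5) .nil)))))))) (.g (nat_lit 4) .nil .nil))) 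
(.lf (nat_lit 235812) (.g (nat_lit 930) (.e (nat_lit 114710) (nat_lit 21) (.e (nat_lit 57844) (nat_lit 252) (.e (nat_lit 57412) (nat_lit 12) (.e (nat_lit 336212) (nat_lit 13) .nil)))) .nil))) (.nd (nat_lit 5) 
(.lf (nat_lit 235796) (.g (nat_lit 1324) (.e (nat_lit 114710) (nat_lit 21) (.e (nat_lit 57830) (nat_lit 250) (.e (nat_lit 1296) (nat_lit 96) (.e (nat_lit 131108) (nat_lit 9) (.e (nat_lit 336430) (nat_lit 29) (.e (nat_lit 450304) (nat_lit 5) .nil)))))) (.g (nat_lit 4) .nil .nil))) 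
(.lf (nat_lit 235828) (.g (nat_lit 1248) (.e (nat_lit 114710) (nat_lit 21) (.e (nat_lit 57844) (nat_lit 252) (.e (nat_lit 57437) (nat_lit 17) (.e (nat_lit 376842) (nat_lit 11) .nil)))) .nil)))) (.nd (nat_lit 4) (.nd (nat_lit 5) 
(.lf (nat_lit 235788) (.g (nat_lit 276) (.e (nat_lit 114710) (nat_lit 21) (.e (nat_lit 57830) (nat_lit 250) (.e (nat_lit 1296) (nat_lit 96) .nil))) .nil)) 
(.lf (nat_lit 235820) (.g (nat_lit 287) (.e (nat_lit 114710) (nat_lit 21) (.e (nat_lit 57844) (nat_lit 252) (.e (nat_lit 57435) (nat_lit 17) .nil))) .nil))) (.nd (nat_lit 5) 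
(.lf (nat_lit 235804) (.g (nat_lit 973) (.e (nat_lit 114710) (nat_lit 21) (.e (nat_lit 57830) (nat_lit 250) (.e (nat_lit 1296) (nat_lit 96) (.e (nat_lit 131126) (nat_lit 13) .nil)))) .nil)) 
(.lf (nat_lit 235836) (.g (nat_lit 2195) (.e (nat_lit 114710) (nat_lit 21) (.e (nat_lit 57846) (nat_lit 252) (.e (nat_lit 57423) (nat_lit 14) (.e (nat_lit 352276) (nat_lit 11) (.e (nat_lit 426234) (nat_lit 9) (.e (nat_lit 426447) (nat_lit 20) .nil)))))) (.g (nat_lit 4) .nil .nil))))))) (.nd (nat_lit 2) (.nd (nat_lit 3) (.nd (nat_lit 4) (.nd (nat_lit 5) 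
(.lf (nat_lit 235778) (.g (nat_lit 2304) (.e (nat_lit 114710) (nat_lit 21) (.e (nat_lit 57830) (nat_lit 250) (.e (nat_lit 1214) (nat_lit 89) (.e (nat_lit 73746) (nat_lit 3) (.e (nat_lit 516131) (nat_lit 3) (.e (nat_lit 221219) (nat_lit 24) (.e (nat_lit 213001) (nat_lit 9) (.e (nat_lit 124) (nat_lit 5) .nil)))))))) (.g (nat_lit 5) .nil .nil))) 
(.lf (nat_lit 235810) (.g (nat_lit 1175) (.e (nat_lit 114710) (nat_lit 21) (.e (nat_lit 57844) (nat_lit 252) (.e (nat_lit 57412) (nat_lit 12) (.e (nat_lit 336073) (nat_lit 9) (.e (nat_lit 336428) (nat_lit 29) .nil))))) .nil))) (.nd (nat_lit 5) 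
(.lf (nat_lit 235794) (.g (nat_lit 1824) (.e (nat_lit 114710) (nat_lit 21) (.e (nat_lit 57830) (nat_lit 250) (.e (nat_lit 1296) (nat_lit 96) (.e (nat_lit 131107) (nat_lit 9) (.e (nat_lit 336443) (nat_lit 32) (.e (nat_lit 474880) (nat_lit 5) .nil)))))) (.g (nat_lit 5) .nil .nil))) 
(.lf (nat_lit 235826) (.g (nat_lit 1962) (.e (nat_lit 114710) (nat_lit 21) (.e (nat_lit 57844) (nat_lit 252) (.e (nat_lit 57436) (nat_lit 17) (.e (nat_lit 376842) (nat_lit 11) (.e (nat_lit 426196) (nat_lit 9) .nil))))) .nil)))) (.nd (nat_lit 4) (.nd (nat_lit 5) 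
(.lf (nat_lit 235786) (.g (nat_lit 1566) (.e (nat_lit 114710) (nat_lit 21) (.e (nat_lit 57830) (nat_lit 250) (.e (nat_lit 1224) (nat_lit 90) (.e (nat_lit 81925) (nat_lit 11) (.e (nat_lit 426213) (nat_lit 9) (.e (nat_lit 433920) (nat_lit 20) .nil)))))) (.g (nat_lit 5) .nil .nil))) 
(.lf (nat_lit 235818) (.g (nat_lit 2788) (.e (nat_lit 114710) (nat_lit 21) (.e (nat_lit 57844) (nat_lit 252) (.e (nat_lit 57427) (nat_lit 15) (.e (nat_lit 360451) (nat_lit 0) (.e (nat_lit 6923) (nat_lit 371) (.e (nat_lit 2628) (nat_lit 164) (.e (nat_lit 179968) (nat_lit 20) .nil))))))) (.g (nat_lit 4) .nil .nil)))) (.nd (nat_lit 5) 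
(.lf (nat_lit 235802) (.g (nat_lit 694) (.e (nat_lit 114710) (nat_lit 21) (.e (nat_lit 57830) (nat_lit 250) (.e (nat_lit 1296) (nat_lit 96) (.e (nat_lit 131125) (nat_lit 13) .nil)))) .nil)) 
(.lf (nat_lit 235834) (.g (nat_lit 1445) (.e (nat_lit 114710) (nat_lit 21) (.e (nat_lit 57846) (nat_lit 252) (.e (nat_lit 57423) (nat_lit 14) (.e (nat_lit 352276) (nat_lit 11) .nil)))) .nil))))) (.nd (nat_lit 3) (.nd (nat_lit 4) (.nd (nat_lit 5) 
(.lf (nat_lit 235782) (.g (nat_lit 1480) (.e (nat_lit 114710) (nat_lit 21) (.e (nat_lit 57830) (nat_lit 250) (.e (nat_lit 1222) (nat_lit 90) (.e (nat_lit 81927) (nat_lit 11) (.e (nat_lit 426204) (nat_lit 9) (.e (nat_lit 433920) (nat_lit 20) .nil)))))) (.g (nat_lit 5) .nil .nil))) 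
(.lf (nat_lit 235814) (.g (nat_lit 1341) (.e (nat_lit 114710) (nat_lit 21) (.e (nat_lit 57844) (nat_lit 252) (.e (nat_lit 57424) (nat_lit 14) (.e (nat_lit 352273) (nat_lit 11) .nil)))) .nil))) (.nd (nat_lit 5) 
(.lf (nat_lit 235798) (.g (nat_lit 1058) (.e (nat_lit 114710) (nat_lit 21) (.e (nat_lit 57830) (nat_lit 250) (.e (nat_lit 1296) (nat_lit 96) (.e (nat_lit 131109) (nat_lit 9) (.e (nat_lit 336427) (nat_lit 29) .nil))))) .nil)) 
(.lf (nat_lit 235830) (.g (nat_lit 2321) (.e (nat_lit 114710) (nat_lit 21) (.e (nat_lit 57846) (nat_lit 252) (.e (nat_lit 57407) (nat_lit 12) (.e (nat_lit 336211) (nat_lit 13) (.e (nat_lit 393271) (nat_lit 23) .nil))))) .nil)))) (.nd (nat_lit 4) (.nd (nat_lit 5) 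
(.lf (nat_lit 235790) (.g (nat_lit 1985) (.e (nat_lit 114710) (nat_lit 21) (.e (nat_lit 57830) (nat_lit 250) (.e (nat_lit 1296) (nat_lit 96) (.e (nat_lit 131105) (nat_lit 9) (.e (nat_lit 336443) (nat_lit 32) (.e (nat_lit 474880) (nat_lit 5) .nil)))))) (.g (nat_lit 5) .nil .nil))) 
(.lf (nat_lit 235822) (.g (nat_lit 1931) (.e (nat_lit 114710) (nat_lit 21) (.e (nat_lit 57844) (nat_lit 252) (.e (nat_lit 57435) (nat_lit 17) (.e (nat_lit 376842) (nat_lit 11) (.e (nat_lit 426186) (nat_lit 9) .nil))))) .nil))) (.nd (nat_lit 5) 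
(.lf (nat_lit 235806) (.g (nat_lit 1390) (.e (nat_lit 114710) (nat_lit 21) (.e (nat_lit 57830) (nat_lit 250) (.e (nat_lit 1296) (nat_lit 96) (.e (nat_lit 131127) (nat_lit 13) (.e (nat_lit 393266) (nat_lit 23) (.e (nat_lit 433920) (nat_lit 20) .nil)))))) (.g (nat_lit 4) .nil .nil))) 
(.lf (nat_lit 235838) (.g (nat_lit 1295) (.e (nat_lit 114710) (nat_lit 21) (.e (nat_lit 57846) (nat_lit 252) (.e (nat_lit 57423) (nat_lit 14) (.e (nat_lit 360192) (nat_lit 13) .nil)))) .nil))))))) (.nd (nat_lit 1) (.nd (nat_lit 2) (.nd (nat_lit 3) (.nd (nat_lit 4) (.nd (nat_lit 5) 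
(.lf (nat_lit 235777) (.g (nat_lit 2387) (.e (nat_lit 114710) (nat_lit 21) (.e (nat_lit 57830) (nat_lit 250) (.e (nat_lit 1214) (nat_lit 89) (.e (nat_lit 73746) (nat_lit 3) (.e (nat_lit 516131) (nat_lit 3) (.e (nat_lit 221219) (nat_lit 24) (.e (nat_lit 213000) (nat_lit 9) (.e (nat_lit 124) (nat_lit 5) .nil)))))))) (.g (nat_lit 5) .nil .nil))) 
(.lf (nat_lit 235809) (.g (nat_lit 1658) (.e (nat_lit 114710) (nat_lit 21) (.e (nat_lit 57830) (nat_lit 250) (.e (nat_lit 1296) (nat_lit 96) (.e (nat_lit 131128) (nat_lit 13) (.e (nat_lit 393281) (nat_lit 23) (.e (nat_lit 433920) (nat_lit 20) .nil)))))) (.g (nat_lit 5) .nil .nil)))) (.nd (nat_lit 5) 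
(.lf (nat_lit 235793) (.g (nat_lit 1751) (.e (nat_lit 114710) (nat_lit 21) (.e (nat_lit 57830) (nat_lit 250) (.e (nat_lit 1296) (nat_lit 96) (.e (nat_lit 131107) (nat_lit 9) (.e (nat_lit 336430) (nat_lit 29) (.e (nat_lit 450304) (nat_lit 5) .nil)))))) (.g (nat_lit 5) .nil .nil))) 
(.lf (nat_lit 235825) (.g (nat_lit 2396) (.e (nat_lit 114710) (nat_lit 21) (.e (nat_lit 57844) (nat_lit 252) (.e (nat_lit 57436) (nat_lit 17) (.e (nat_lit 376842) (nat_lit 11) (.e (nat_lit 426189) (nat_lit 9) (.e (nat_lit 426446) (nat_lit 20) .nil)))))) (.g (nat_lit 4) .nil .nil))))) (.nd (nat_lit 4) (.nd (nat_lit 5) 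
(.lf (nat_lit 235785) (.g (nat_lit 1645) (.e (nat_lit 114710) (nat_lit 21) (.e (nat_lit 57830) (nat_lit 250) (.e (nat_lit 1224) (nat_lit 90) (.e (nat_lit 81925) (nat_lit 11) (.e (nat_lit 426204) (nat_lit 9) (.e (nat_lit 433920) (nat_lit 20) .nil)))))) (.g (nat_lit 5) .nil .nil))) 
(.lf (nat_lit 235817) (.g (nat_lit 1378) (.e (nat_lit 114710) (nat_lit 21) (.e (nat_lit 57844) (nat_lit 252) (.e (nat_lit 57424) (nat_lit 14) (.e (nat_lit 352278) (nat_lit 11) .nil)))) .nil))) (.nd (nat_lit 5) 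
(.lf (nat_lit 235801) (.g (nat_lit 1105) (.e (nat_lit 114710) (nat_lit 21) (.e (nat_lit 57830) (nat_lit 250) (.e (nat_lit 1296) (nat_lit 96) (.e (nat_lit 131109) (nat_lit 9) (.e (nat_lit 336444) (nat_lit 32) .nil))))) .nil)) 
(.lf (nat_lit 235833) (.g (nat_lit 1533) (.e (nat_lit 114710) (nat_lit 21) (.e (nat_lit 57846) (nat_lit 252) (.e (nat_lit 57423) (nat_lit 14) (.e (nat_lit 352273) (nat_lit 11) .nil)))) .nil))))) (.nd (nat_lit 3) (.nd (nat_lit 4) (.nd (nat_lit 5) 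
(.lf (nat_lit 235781) (.g (nat_lit 1796) (.e (nat_lit 114710) (nat_lit 21) (.e (nat_lit 57830) (nat_lit 250) (.e (nat_lit 1214) (nat_lit 89) (.e (nat_lit 73746) (nat_lit 3) (.e (nat_lit 516131) (nat_lit 3) (.e (nat_lit 221219) (nat_lit 24) (.e (nat_lit 213006) (nat_lit 9) (.e (nat_lit 124) (nat_lit 5) .nil)))))))) (.g (nat_lit 4) .nil .nil))) 
(.lf (nat_lit 235813) (.g (nat_lit 868) (.e (nat_lit 114710) (nat_lit 21) (.e (nat_lit 57844) (nat_lit 252) (.e (nat_lit 57412) (nat_lit 12) (.e (nat_lit 336219) (nat_lit 13) .nil)))) .nil))) (.nd (nat_lit 5) 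
(.lf (nat_lit 235797) (.g (nat_lit 1763) (.e (nat_lit 114710) (nat_lit 21) (.e (nat_lit 57830) (nat_lit 250) (.e (nat_lit 1296) (nat_lit 96) (.e (nat_lit 131109) (nat_lit 9) (.e (nat_lit 336426) (nat_lit 29) (.e (nat_lit 450304) (nat_lit 5) .nil)))))) (.g (nat_lit 5) .nil .nil))) 
(.lf (nat_lit 235829) (.g (nat_lit 1545) (.e (nat_lit 114710) (nat_lit 21) (.e (nat_lit 57846) (nat_lit 252) (.e (nat_lit 57407) (nat_lit 12) (.e (nat_lit 336211) (nat_lit 13) .nil)))) .nil)))) (.nd (nat_lit 4) (.nd (nat_lit 5) 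
(.lf (nat_lit 235789) (.g (nat_lit 717) (.e (nat_lit 114710) (nat_lit 21) (.e (nat_lit 57830) (nat_lit 250) (.e (nat_lit 1296) (nat_lit 96) (.e (nat_lit 131105) (nat_lit 9) .nil)))) .nil)) 
(.lf (nat_lit 235821) (.g (nat_lit 1033) (.e (nat_lit 114710) (nat_lit 21) (.e (nat_lit 57844) (nat_lit 252) (.e (nat_lit 57435) (nat_lit 17) (.e (nat_lit 376840) (nat_lit 11) .nil)))) .nil))) (.nd (nat_lit 5) 
(.lf (nat_lit 235805) (.g (nat_lit 924) (.e (nat_lit 114710) (nat_lit 21) (.e (nat_lit 57830) (nat_lit 250) (.e (nat_lit 1296) (nat_lit 96) (.e (nat_lit 131127) (nat_lit 13) .nil)))) .nil)) 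
(.lf (nat_lit 235837) (.g (nat_lit 1435) (.e (nat_lit 114710) (nat_lit 21) (.e (nat_lit 57846) (nat_lit 252) (.e (nat_lit 57423) (nat_lit 14) (.e (nat_lit 352277) (nat_lit 11) .nil)))) .nil)))))) (.nd (nat_lit 2) (.nd (nat_lit 3) (.nd (nat_lit 4) (.nd (nat_lit 5) 
(.lf (nat_lit 235779) (.g (nat_lit 2297) (.e (nat_lit 114710) (nat_lit 21) (.e (nat_lit 57830) (nat_lit 250) (.e (nat_lit 1214) (nat_lit 89) (.e (nat_lit 73746) (nat_lit 3) (.e (nat_lit 516131) (nat_lit 3) (.e (nat_lit 221219) (nat_lit 24) (.e (nat_lit 213003) (nat_lit 9) (.e (nat_lit 124) (nat_lit 5) .nil)))))))) (.g (nat_lit 5) .nil .nil))) 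
(.lf (nat_lit 235811) (.g (nat_lit 1082) (.e (nat_lit 114710) (nat_lit 21) (.e (nat_lit 57844) (nat_lit 252) (.e (nat_lit 57412) (nat_lit 12) (.e (nat_lit 336083) (nat_lit 9) .nil)))) .nil))) (.nd (nat_lit 5) 
(.lf (nat_lit 235795) (.g (nat_lit 976) (.e (nat_lit 114710) (nat_lit 21) (.e (nat_lit 57830) (nat_lit 250) (.e (nat_lit 1296) (nat_lit 96) (.e (nat_lit 131108) (nat_lit 9) .nil)))) .nil)) 
(.lf (nat_lit 235827) (.g (nat_lit 1920) (.e (nat_lit 114710) (nat_lit 21) (.e (nat_lit 57844) (nat_lit 252) (.e (nat_lit 57436) (nat_lit 17) (.e (nat_lit 376842) (nat_lit 11) (.e (nat_lit 426258) (nat_lit 9) .nil))))) .nil)))) (.nd (nat_lit 4) (.nd (nat_lit 5) 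
(.lf (nat_lit 235787) (.g (nat_lit 412) (.e (nat_lit 114710) (nat_lit 21) (.e (nat_lit 57830) (nat_lit 250) (.e (nat_lit 7936) (nat_lit 90) .nil))) .nil)) 
(.lf (nat_lit 235819) (.g (nat_lit 1262) (.e (nat_lit 114710) (nat_lit 21) (.e (nat_lit 57844) (nat_lit 252) (.e (nat_lit 57427) (nat_lit 15) (.e (nat_lit 360487) (nat_lit 19) .nil)))) .nil))) (.nd (nat_lit 5) 
(.lf (nat_lit 235803) (.g (nat_lit 1501) (.e (nat_lit 114710) (nat_lit 21) (.e (nat_lit 57830) (nat_lit 250) (.e (nat_lit 1296) (nat_lit 96) (.e (nat_lit 131125) (nat_lit 13) (.e (nat_lit 393281) (nat_lit 23) (.e (nat_lit 433920) (nat_lit 20) .nil)))))) (.g (nat_lit 5) .nil .nil))) 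
(.lf (nat_lit 235835) (.g (nat_lit 1582) (.e (nat_lit 114710) (nat_lit 21) (.e (nat_lit 57846) (nat_lit 252) (.e (nat_lit 57423) (nat_lit 14) (.e (nat_lit 352276) (nat_lit 11) (.e (nat_lit 426230) (nat_lit 9) .nil))))) .nil))))) (.nd (nat_lit 3) (.nd (nat_lit 4) (.nd (nat_lit 5) 
(.lf (nat_lit 235783) (.g (nat_lit 1401) (.e (nat_lit 114710) (nat_lit 21) (.e (nat_lit 57830) (nat_lit 250) (.e (nat_lit 1222) (nat_lit 90) (.e (nat_lit 81927) (nat_lit 11) (.e (nat_lit 426213) (nat_lit 9) (.e (nat_lit 433920) (nat_lit 20) .nil)))))) (.g (nat_lit 5) .nil .nil))) 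
(.lf (nat_lit 235815) (.g (nat_lit 1384) (.e (nat_lit 114710) (nat_lit 21) (.e (nat_lit 57844) (nat_lit 252) (.e (nat_lit 57424) (nat_lit 14) (.e (nat_lit 352274) (nat_lit 11) .nil)))) .nil))) (.nd (nat_lit 5) 
(.lf (nat_lit 235799) (.g (nat_lit 1910) (.e (nat_lit 114710) (nat_lit 21) (.e (nat_lit 57830) (nat_lit 250) (.e (nat_lit 1296) (nat_lit 96) (.e (nat_lit 131109) (nat_lit 9) (.e (nat_lit 336430) (nat_lit 29) (.e (nat_lit 450304) (nat_lit 5) .nil)))))) (.g (nat_lit 5) .nil .nil))) 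
(.lf (nat_lit 235831) (.g (nat_lit 1850) (.e (nat_lit 114710) (nat_lit 21) (.e (nat_lit 57846) (nat_lit 252) (.e (nat_lit 57411) (nat_lit 12) (.e (nat_lit 336211) (nat_lit 13) (.e (nat_lit 393267) (nat_lit 23) .nil))))) .nil)))) (.nd (nat_lit 4) (.nd (nat_lit 5) 
(.lf (nat_lit 235791) (.g (nat_lit 1342) (.e (nat_lit 114710) (nat_lit 21) (.e (nat_lit 57830) (nat_lit 250) (.e (nat_lit 1296) (nat_lit 96) (.e (nat_lit 131106) (nat_lit 9) (.e (nat_lit 336430) (nat_lit 29) (.e (nat_lit 450304) (nat_lit 5) .nil)))))) (.g (nat_lit 4) .nil .nil))) 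
(.lf (nat_lit 235823) (.g (nat_lit 1697) (.e (nat_lit 114710) (nat_lit 21) (.e (nat_lit 57844) (nat_lit 252) (.e (nat_lit 57435) (nat_lit 17) (.e (nat_lit 376842) (nat_lit 11) (.e (nat_lit 426197) (nat_lit 9) .nil))))) .nil))) (.nd (nat_lit 5) 
(.lf (nat_lit 235807) (.g (nat_lit 1627) (.e (nat_lit 114710) (nat_lit 21) (.e (nat_lit 57830) (nat_lit 250) (.e (nat_lit 1296) (nat_lit 96) (.e (nat_lit 131127) (nat_lit 13) (.e (nat_lit 393279) (nat_lit 23) (.e (nat_lit 426447) (nat_lit 20) .nil)))))) (.g (nat_lit 4) .nil .nil))) 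
(.lf (nat_lit 235839) (.g (nat_lit 1295) (.e (nat_lit 114710) (nat_lit 21) (.e (nat_lit 57846) (nat_lit 252) (.e (nat_lit 57423) (nat_lit 14) (.e (nat_lit 360192) (nat_lit 16) .nil)))) .nil))))))))

noncomputable def tv3077 : DT := (.nd (nat_lit 0) (.nd (nat_lit 1) (.nd (nat_lit 2) (.nd (nat_lit 3) (.nd (nat_lit 4) (.nd (nat_lit 5) 
(.lf (nat_lit 235840) (.g (nat_lit 1669) (.e (nat_lit 114710) (nat_lit 21) (.e (nat_lit 57846) (nat_lit 252) (.e (nat_lit 57424) (nat_lit 14) (.e (nat_lit 352273) (nat_lit 11) .nil)))) .nil)) 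
(.lf (nat_lit 235872) (.g (nat_lit 2626) (.e (nat_lit 114710) (nat_lit 21) (.e (nat_lit 57847) (nat_lit 252) (.e (nat_lit 57348) (nat_lit 0) (.e (nat_lit 2031) (nat_lit 140) (.e (nat_lit 688181) (nat_lit 17) (.e (nat_lit 73754) (nat_lit 8) (.e (nat_lit 557101) (nat_lit 13) (.e (nat_lit 179968) (nat_lit 20) .nil)))))))) (.g (nat_lit 6) .nil .nil)))) (.nd (nat_lit 5) 
(.lf (nat_lit 235856) (.g (nat_lit 2269) (.e (nat_lit 114710) (nat_lit 21) (.e (nat_lit 57846) (nat_lit 252) (.e (nat_lit 57436) (nat_lit 17) (.e (nat_lit 376842) (nat_lit 11) (.e (nat_lit 426189) (nat_lit 9) .nil))))) .nil)) 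
(.lf (nat_lit 235888) (.g (nat_lit 2815) (.e (nat_lit 114710) (nat_lit 21) (.e (nat_lit 57847) (nat_lit 252) (.e (nat_lit 57365) (nat_lit 1) (.e (nat_lit 57731) (nat_lit 181) (.e (nat_lit 1211) (nat_lit 89) (.e (nat_lit 73754) (nat_lit 8) (.e (nat_lit 557101) (nat_lit 13) (.e (nat_lit 179968) (nat_lit 20) .nil)))))))) (.g (nat_lit 7) .nil .nil))))) (.nd (nat_lit 4) (.nd (nat_lit 5) 
(.lf (nat_lit 235848) (.g (nat_lit 2728) (.e (nat_lit 114710) (nat_lit 21) (.e (nat_lit 57846) (nat_lit 252) (.e (nat_lit 57435) (nat_lit 17) (.e (nat_lit 376842) (nat_lit 11) (.e (nat_lit 426189) (nat_lit 9) (.e (nat_lit 426446) (nat_lit 20) .nil)))))) (.g (nat_lit 4) .nil .nil))) 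
(.lf (nat_lit 235880) (.g (nat_lit 2312) (.e (nat_lit 114710) (nat_lit 21) (.e (nat_lit 57847) (nat_lit 252) (.e (nat_lit 57348) (nat_lit 0) (.e (nat_lit 2202) (nat_lit 144) (.e (nat_lit 720956) (nat_lit 25) (.e (nat_lit 114716) (nat_lit 22) (.e (nat_lit 90169) (nat_lit 13) (.e (nat_lit 179968) (nat_lit 20) .nil)))))))) (.g (nat_lit 7) .nil .nil)))) (.nd (nat_lit 5) 
(.lf (nat_lit 235864) (.g (nat_lit 2338) (.e (nat_lit 114710) (nat_lit 21) (.e (nat_lit 57846) (nat_lit 252) (.e (nat_lit 57437) (nat_lit 17) (.e (nat_lit 376842) (nat_lit 11) (.e (nat_lit 426196) (nat_lit 9) .nil))))) .nil)) 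
(.lf (nat_lit 235896) (.g (nat_lit 3078) (.e (nat_lit 114710) (nat_lit 21) (.e (nat_lit 57847) (nat_lit 252) (.e (nat_lit 57407) (nat_lit 12) (.e (nat_lit 336019) (nat_lit 3) (.e (nat_lit 98342) (nat_lit 20) (.e (nat_lit 221219) (nat_lit 24) (.e (nat_lit 213000) (nat_lit 9) (.e (nat_lit 124) (nat_lit 5) .nil)))))))) (.g (nat_lit 4) .nil .nil)))))) 
(.nd (nat_lit 3) (.nd (nat_lit 4) (.nd (nat_lit 5) 
(.lf (nat_lit 235844) (.g (nat_lit 1396) (.e (nat_lit 114710) (nat_lit 21) (.e (nat_lit 57846) (nat_lit 252) (.e (nat_lit 57424) (nat_lit 14) (.e (nat_lit 360192) (nat_lit 16) .nil)))) .nil)) 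
(.lf (nat_lit 235876) (.g (nat_lit 4280) (.e (nat_lit 114710) (nat_lit 21) (.e (nat_lit 57847) (nat_lit 252) (.e (nat_lit 57348) (nat_lit 0) (.e (nat_lit 2031) (nat_lit 140) (.e (nat_lit 688182) (nat_lit 17) (.e (nat_lit 73755) (nat_lit 8) (.e (nat_lit 557098) (nat_lit 13) (.e (nat_lit 179968) (nat_lit 20) .nil)))))))) (.g (nat_lit 7) .nil .nil)))) (.nd (nat_lit 5) 
(.lf (nat_lit 235860) (.g (nat_lit 1159) (.e (nat_lit 114710) (nat_lit 21) (.e (nat_lit 57846) (nat_lit 252) (.e (nat_lit 57436) (nat_lit 17) (.e (nat_lit 384768) (nat_lit 16) .nil)))) .nil)) 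
(.lf (nat_lit 235892) (.g (nat_lit 4038) (.e (nat_lit 114710) (nat_lit 21) (.e (nat_lit 57847) (nat_lit 252) (.e (nat_lit 57407) (nat_lit 12) (.e (nat_lit 336019) (nat_lit 3) (.e (nat_lit 98341) (nat_lit 20) (.e (nat_lit 229120) (nat_lit 1) (.e (nat_lit 57854) (nat_lit 252) (.e (nat_lit 57389) (nat_lit 5) .nil)))))))) (.g (nat_lit 5) .nil .nil))))) (.nd (nat_lit 4) (.nd (nat_lit 5) 
(.lf (nat_lit 235852) (.g (nat_lit 1936) (.e (nat_lit 114710) (nat_lit 21) (.e (nat_lit 57846) (nat_lit 252) (.e (nat_lit 57435) (nat_lit 17) (.e (nat_lit 376842) (nat_lit 11) (.e (nat_lit 426199) (nat_lit 9) .nil))))) .nil)) 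
(.lf (nat_lit 235884) (.g (nat_lit 3336) (.e (nat_lit 114710) (nat_lit 21) (.e (nat_lit 57847) (nat_lit 252) (.e (nat_lit 57365) (nat_lit 1) (.e (nat_lit 57730) (nat_lit 181) (.e (nat_lit 1209) (nat_lit 89) (.e (nat_lit 73753) (nat_lit 8) (.e (nat_lit 557101) (nat_lit 13) (.e (nat_lit 179968) (nat_lit 20) .nil)))))))) (.g (nat_lit 7) .nil .nil)))) (.nd (nat_lit 5) 
(.lf (nat_lit 235868) (.g (nat_lit 3241) (.e (nat_lit 114710) (nat_lit 21) (.e (nat_lit 57847) (nat_lit 252) (.e (nat_lit 57345) (nat_lit 0) (.e (nat_lit 2202) (nat_lit 144) (.e (nat_lit 720956) (nat_lit 25) (.e (nat_lit 114715) (nat_lit 22) (.e (nat_lit 90170) (nat_lit 13) (.e (nat_lit 179968) (nat_lit 20) .nil)))))))) (.g (nat_lit 7) .nil .nil))) 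
(.lf (nat_lit 235900) (.g (nat_lit 1377) (.e (nat_lit 114710) (nat_lit 21) (.e (nat_lit 57847) (nat_lit 252) (.e (nat_lit 57407) (nat_lit 12) (.e (nat_lit 336115) (nat_lit 9) .nil)))) .nil)))))) (.nd (nat_lit 2) (.nd (nat_lit 3) (.nd (nat_lit 4) (.nd (nat_lit 5) 
(.lf (nat_lit 235842) (.g (nat_lit 2783) (.e (nat_lit 114710) (nat_lit 21) (.e (nat_lit 57846) (nat_lit 252) (.e (nat_lit 57424) (nat_lit 14) (.e (nat_lit 352277) (nat_lit 11) (.e (nat_lit 426190) (nat_lit 9) (.e (nat_lit 426446) (nat_lit 20) .nil)))))) (.g (nat_lit 4) .nil .nil))) 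
(.lf (nat_lit 235874) (.g (nat_lit 3484) (.e (nat_lit 114710) (nat_lit 21) (.e (nat_lit 57847) (nat_lit 252) (.e (nat_lit 57348) (nat_lit 0) (.e (nat_lit 2031) (nat_lit 140) (.e (nat_lit 688182) (nat_lit 17) (.e (nat_lit 73754) (nat_lit 8) (.e (nat_lit 557101) (nat_lit 13) (.e (nat_lit 179968) (nat_lit 20) .nil)))))))) (.g (nat_lit 7) .nil .nil)))) (.nd (nat_lit 5) 
(.lf (nat_lit 235858) (.g (nat_lit 3180) (.e (nat_lit 114710) (nat_lit 21) (.e (nat_lit 57846) (nat_lit 252) (.e (nat_lit 57436) (nat_lit 17) (.e (nat_lit 376842) (nat_lit 11) (.e (nat_lit 426198) (nat_lit 9) (.e (nat_lit 426448) (nat_lit 20) .nil)))))) (.g (nat_lit 6) .nil .nil))) 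
(.lf (nat_lit 235890) (.g (nat_lit 2855) (.e (nat_lit 114710) (nat_lit 21) (.e (nat_lit 57847) (nat_lit 252) (.e (nat_lit 57407) (nat_lit 12) (.e (nat_lit 336019) (nat_lit 3) (.e (nat_lit 98341) (nat_lit 20) .nil))))) .nil)))) (.nd (nat_lit 4) (.nd (nat_lit 5) 
(.lf (nat_lit 235850) (.g (nat_lit 2520) (.e (nat_lit 114710) (nat_lit 21) (.e (nat_lit 57846) (nat_lit 252) (.e (nat_lit 57435) (nat_lit 17) (.e (nat_lit 376842) (nat_lit 11) (.e (nat_lit 426197) (nat_lit 9) (.e (nat_lit 426446) (nat_lit 20) .nil)))))) (.g (nat_lit 4) .nil .nil))) 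
(.lf (nat_lit 235882) (.g (nat_lit 3761) (.e (nat_lit 114710) (nat_lit 21) (.e (nat_lit 57847) (nat_lit 252) (.e (nat_lit 57365) (nat_lit 1) (.e (nat_lit 57724) (nat_lit 181) (.e (nat_lit 1211) (nat_lit 89) (.e (nat_lit 73754) (nat_lit 8) (.e (nat_lit 557100) (nat_lit 13) (.e (nat_lit 179968) (nat_lit 20) .nil)))))))) (.g (nat_lit 7) .nil .nil)))) (.nd (nat_lit 5) 
(.lf (nat_lit 235866) (.g (nat_lit 2310) (.e (nat_lit 114710) (nat_lit 21) (.e (nat_lit 57846) (nat_lit 252) (.e (nat_lit 57437) (nat_lit 17) (.e (nat_lit 376842) (nat_lit 11) (.e (nat_lit 426258) (nat_lit 9) .nil))))) .nil)) 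
(.lf (nat_lit 235898) (.g (nat_lit 2984) (.e (nat_lit 114710) (nat_lit 21) (.e (nat_lit 57847) (nat_lit 252) (.e (nat_lit 57407) (nat_lit 12) (.e (nat_lit 336019) (nat_lit 3) (.e (nat_lit 98342) (nat_lit 20) (.e (nat_lit 221219) (nat_lit 24) (.e (nat_lit 213003) (nat_lit 9) (.e (nat_lit 124) (nat_lit 5) .nil)))))))) (.g (nat_lit 4) .nil .nil)))))) 
(.nd (nat_lit 3) (.nd (nat_lit 4) (.nd (nat_lit 5) 
(.lf (nat_lit 235846) (.g (nat_lit 1340) (.e (nat_lit 114710) (nat_lit 21) (.e (nat_lit 57846) (nat_lit 252) (.e (nat_lit 57435) (nat_lit 17) (.e (nat_lit 376838) (nat_lit 11) .nil)))) .nil)) 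
(.lf (nat_lit 235878) (.g (nat_lit 3487) (.e (nat_lit 114710) (nat_lit 21) (.e (nat_lit 57847) (nat_lit 252) (.e (nat_lit 57348) (nat_lit 0) (.e (nat_lit 2202) (nat_lit 144) (.e (nat_lit 720956) (nat_lit 25) (.e (nat_lit 114715) (nat_lit 22) (.e (nat_lit 90170) (nat_lit 13) (.e (nat_lit 179968) (nat_lit 20) .nil)))))))) (.g (nat_lit 7) .nil .nil)))) (.nd (nat_lit 5) 
(.lf (nat_lit 235862) (.g (nat_lit 2839) (.e (nat_lit 114710) (nat_lit 21) (.e (nat_lit 57846) (nat_lit 252) (.e (nat_lit 57437) (nat_lit 17) (.e (nat_lit 376842) (nat_lit 11) (.e (nat_lit 426189) (nat_lit 9) (.e (nat_lit 426446) (nat_lit 20) .nil)))))) (.g (nat_lit 4) .nil .nil))) 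
(.lf (nat_lit 235894) (.g (nat_lit 2843) (.e (nat_lit 114710) (nat_lit 21) (.e (nat_lit 57847) (nat_lit 252) (.e (nat_lit 57407) (nat_lit 12) (.e (nat_lit 336019) (nat_lit 3) (.e (nat_lit 98342) (nat_lit 20) .nil))))) .nil)))) (.nd (nat_lit 4) (.nd (nat_lit 5) 
(.lf (nat_lit 235854) (.g (nat_lit 576) (.e (nat_lit 114710) (nat_lit 21) (.e (nat_lit 57846) (nat_lit 252) (.e (nat_lit 57436) (nat_lit 17) .nil))) .nil)) 
(.lf (nat_lit 235886) (.g (nat_lit 3377) (.e (nat_lit 114710) (nat_lit 21) (.e (nat_lit 57847) (nat_lit 252) (.e (nat_lit 57365) (nat_lit 1) (.e (nat_lit 57731) (nat_lit 181) (.e (nat_lit 1209) (nat_lit 89) (.e (nat_lit 73753) (nat_lit 8) (.e (nat_lit 557101) (nat_lit 13) (.e (nat_lit 179968) (nat_lit 20) .nil)))))))) (.g (nat_lit 7) .nil .nil)))) (.nd (nat_lit 5) 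
(.lf (nat_lit 235870) (.g (nat_lit 4130) (.e (nat_lit 114710) (nat_lit 21) (.e (nat_lit 57847) (nat_lit 252) (.e (nat_lit 57348) (nat_lit 0) (.e (nat_lit 2031) (nat_lit 140) (.e (nat_lit 688180) (nat_lit 17) (.e (nat_lit 73753) (nat_lit 8) (.e (nat_lit 557100) (nat_lit 13) (.e (nat_lit 179968) (nat_lit 20) .nil)))))))) (.g (nat_lit 7) .nil .nil))) 
(.lf (nat_lit 235902) (.g (nat_lit 1940) (.e (nat_lit 114710) (nat_lit 21) (.e (nat_lit 57847) (nat_lit 252) (.e (nat_lit 57407) (nat_lit 12) (.e (nat_lit 336120) (nat_lit 9) .nil)))) .nil))))))) (.nd (nat_lit 1) (.nd (nat_lit 2) (.nd (nat_lit 3) (.nd (nat_lit 4) (.nd (nat_lit 5) 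
(.lf (nat_lit 235841) (.g (nat_lit 1487) (.e (nat_lit 114710) (nat_lit 21) (.e (nat_lit 57846) (nat_lit 252) (.e (nat_lit 57424) (nat_lit 14) (.e (nat_lit 352277) (nat_lit 11) .nil)))) .nil)) 
(.lf (nat_lit 235873) (.g (nat_lit 4372) (.e (nat_lit 114710) (nat_lit 21) (.e (nat_lit 57847) (nat_lit 252) (.e (nat_lit 57348) (nat_lit 0) (.e (nat_lit 2031) (nat_lit 140) (.e (nat_lit 688182) (nat_lit 17) (.e (nat_lit 73754) (nat_lit 8) (.e (nat_lit 557100) (nat_lit 13) (.e (nat_lit 179968) (nat_lit 20) .nil)))))))) (.g (nat_lit 7) .nil .nil)))) (.nd (nat_lit 5) 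
(.lf (nat_lit 235857) (.g (nat_lit 2570) (.e (nat_lit 114710) (nat_lit 21) (.e (nat_lit 57846) (nat_lit 252) (.e (nat_lit 57436) (nat_lit 17) (.e (nat_lit 376842) (nat_lit 11) (.e (nat_lit 426198) (nat_lit 9) (.e (nat_lit 426446) (nat_lit 20) .nil)))))) (.g (nat_lit 4) .nil .nil))) 
(.lf (nat_lit 235889) (.g (nat_lit 3630) (.e (nat_lit 114710) (nat_lit 21) (.e (nat_lit 57847) (nat_lit 252) (.e (nat_lit 57368) (nat_lit 1) (.e (nat_lit 57854) (nat_lit 252) (.e (nat_lit 57447) (nat_lit 19) (.e (nat_lit 393252) (nat_lit 18) (.e (nat_lit 164330) (nat_lit 230) (.e (nat_lit 171776) (nat_lit 66) .nil)))))))) (.g (nat_lit 5) .nil .nil))))) (.nd (nat_lit 4) (.nd (nat_lit 5) 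
(.lf (nat_lit 235849) (.g (nat_lit 2355) (.e (nat_lit 114710) (nat_lit 21) (.e (nat_lit 57846) (nat_lit 252) (.e (nat_lit 57435) (nat_lit 17) (.e (nat_lit 376842) (nat_lit 11) (.e (nat_lit 426196) (nat_lit 9) .nil))))) .nil)) 
(.lf (nat_lit 235881) (.g (nat_lit 540) (.e (nat_lit 114710) (nat_lit 21) (.e (nat_lit 57847) (nat_lit 252) (.e (nat_lit 57353) (nat_lit 0) .nil))) .nil))) (.nd (nat_lit 5) 
(.lf (nat_lit 235865) (.g (nat_lit 2646) (.e (nat_lit 114710) (nat_lit 21) (.e (nat_lit 57846) (nat_lit 252) (.e (nat_lit 57437) (nat_lit 17) (.e (nat_lit 376842) (nat_lit 11) (.e (nat_lit 426197) (nat_lit 9) (.e (nat_lit 426446) (nat_lit 20) .nil)))))) (.g (nat_lit 4) .nil .nil))) 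
(.lf (nat_lit 235897) (.g (nat_lit 2993) (.e (nat_lit 114710) (nat_lit 21) (.e (nat_lit 57847) (nat_lit 252) (.e (nat_lit 57407) (nat_lit 12) (.e (nat_lit 336019) (nat_lit 3) (.e (nat_lit 98342) (nat_lit 20) (.e (nat_lit 221219) (nat_lit 24) (.e (nat_lit 213001) (nat_lit 9) (.e (nat_lit 124) (nat_lit 5) .nil)))))))) (.g (nat_lit 4) .nil .nil)))))) 
(.nd (nat_lit 3) (.nd (nat_lit 4) (.nd (nat_lit 5) 
(.lf (nat_lit 235845) (.g (nat_lit 415) (.e (nat_lit 114710) (nat_lit 21) (.e (nat_lit 57846) (nat_lit 252) (.e (nat_lit 57435) (nat_lit 17) .nil))) .nil)) 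
(.lf (nat_lit 235877) (.g (nat_lit 3377) (.e (nat_lit 114710) (nat_lit 21) (.e (nat_lit 57847) (nat_lit 252) (.e (nat_lit 57348) (nat_lit 0) (.e (nat_lit 2202) (nat_lit 144) (.e (nat_lit 720954) (nat_lit 25) (.e (nat_lit 114714) (nat_lit 22) (.e (nat_lit 90170) (nat_lit 13) (.e (nat_lit 179968) (nat_lit 20) .nil)))))))) (.g (nat_lit 7) .nil .nil)))) (.nd (nat_lit 5) 
(.lf (nat_lit 235861) (.g (nat_lit 2120) (.e (nat_lit 114710) (nat_lit 21) (.e (nat_lit 57846) (nat_lit 252) (.e (nat_lit 57437) (nat_lit 17) (.e (nat_lit 376840) (nat_lit 11) (.e (nat_lit 426230) (nat_lit 9) (.e (nat_lit 426447) (nat_lit 20) .nil)))))) (.g (nat_lit 6) .nil .nil))) 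
(.lf (nat_lit 235893) (.g (nat_lit 3833) (.e (nat_lit 114710) (nat_lit 21) (.e (nat_lit 57847) (nat_lit 252) (.e (nat_lit 57407) (nat_lit 12) (.e (nat_lit 336019) (nat_lit 3) (.e (nat_lit 98341) (nat_lit 20) (.e (nat_lit 221220) (nat_lit 25) (.e (nat_lit 229120) (nat_lit 5) .nil))))))) (.g (nat_lit 5) .nil .nil))))) (.nd (nat_lit 4) (.nd (nat_lit 5) 
(.lf (nat_lit 235853) (.g (nat_lit 2313) (.e (nat_lit 114710) (nat_lit 21) (.e (nat_lit 57846) (nat_lit 252) (.e (nat_lit 57435) (nat_lit 17) (.e (nat_lit 376842) (nat_lit 11) (.e (nat_lit 426258) (nat_lit 9) .nil))))) .nil)) 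
(.lf (nat_lit 235885) (.g (nat_lit 4038) (.e (nat_lit 114710) (nat_lit 21) (.e (nat_lit 57847) (nat_lit 252) (.e (nat_lit 57365) (nat_lit 1) (.e (nat_lit 57731) (nat_lit 181) (.e (nat_lit 1209) (nat_lit 89) (.e (nat_lit 73753) (nat_lit 8) (.e (nat_lit 557100) (nat_lit 13) (.e (nat_lit 179968) (nat_lit 20) .nil)))))))) (.g (nat_lit 7) .nil .nil)))) (.nd (nat_lit 5) 
(.lf (nat_lit 235869) (.g (nat_lit 2028) (.e (nat_lit 114710) (nat_lit 21) (.e (nat_lit 57847) (nat_lit 252) (.e (nat_lit 57345) (nat_lit 0) (.e (nat_lit 2202) (nat_lit 144) (.e (nat_lit 720956) (nat_lit 25) (.e (nat_lit 114716) (nat_lit 22) (.e (nat_lit 90168) (nat_lit 13) (.e (nat_lit 179968) (nat_lit 20) .nil)))))))) (.g (nat_lit 6) .nil .nil))) 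
(.lf (nat_lit 235901) (.g (nat_lit 1652) (.e (nat_lit 114710) (nat_lit 21) (.e (nat_lit 57847) (nat_lit 252) (.e (nat_lit 57407) (nat_lit 12) (.e (nat_lit 336117) (nat_lit 9) .nil)))) .nil)))))) (.nd (nat_lit 2) (.nd (nat_lit 3) (.nd (nat_lit 4) (.nd (nat_lit 5) 
(.lf (nat_lit 235843) (.g (nat_lit 1396) (.e (nat_lit 114710) (nat_lit 21) (.e (nat_lit 57846) (nat_lit 252) (.e (nat_lit 57424) (nat_lit 14) (.e (nat_lit 360192) (nat_lit 13) .nil)))) .nil)) 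
(.lf (nat_lit 235875) (.g (nat_lit 3599) (.e (nat_lit 114710) (nat_lit 21) (.e (nat_lit 57847) (nat_lit 252) (.e (nat_lit 57348) (nat_lit 0) (.e (nat_lit 2031) (nat_lit 140) (.e (nat_lit 688182) (nat_lit 17) (.e (nat_lit 73755) (nat_lit 8) (.e (nat_lit 557097) (nat_lit 13) (.e (nat_lit 179968) (nat_lit 20) .nil)))))))) (.g (nat_lit 7) .nil .nil)))) (.nd (nat_lit 5) 
(.lf (nat_lit 235859) (.g (nat_lit 1159) (.e (nat_lit 114710) (nat_lit 21) (.e (nat_lit 57846) (nat_lit 252) (.e (nat_lit 57436) (nat_lit 17) (.e (nat_lit 384768) (nat_lit 13) .nil)))) .nil)) 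
(.lf (nat_lit 235891) (.g (nat_lit 4028) (.e (nat_lit 114710) (nat_lit 21) (.e (nat_lit 57847) (nat_lit 252) (.e (nat_lit 57407) (nat_lit 12) (.e (nat_lit 336019) (nat_lit 3) (.e (nat_lit 98341) (nat_lit 20) (.e (nat_lit 229120) (nat_lit 1) (.e (nat_lit 57849) (nat_lit 252) (.e (nat_lit 57390) (nat_lit 5) .nil)))))))) (.g (nat_lit 5) .nil .nil))))) (.nd (nat_lit 4) (.nd (nat_lit 5) 
(.lf (nat_lit 235851) (.g (nat_lit 3542) (.e (nat_lit 114710) (nat_lit 21) (.e (nat_lit 57846) (nat_lit 252) (.e (nat_lit 57435) (nat_lit 17) (.e (nat_lit 376842) (nat_lit 11) (.e (nat_lit 426198) (nat_lit 9) (.e (nat_lit 426448) (nat_lit 20) .nil)))))) (.g (nat_lit 0) .nil .nil))) 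
(.lf (nat_lit 235883) (.g (nat_lit 2827) (.e (nat_lit 114710) (nat_lit 21) (.e (nat_lit 57847) (nat_lit 252) (.e (nat_lit 57365) (nat_lit 1) (.e (nat_lit 57724) (nat_lit 181) (.e (nat_lit 1211) (nat_lit 89) (.e (nat_lit 73754) (nat_lit 8) (.e (nat_lit 557101) (nat_lit 13) (.e (nat_lit 179968) (nat_lit 20) .nil)))))))) (.g (nat_lit 7) .nil .nil)))) (.nd (nat_lit 5) 
(.lf (nat_lit 235867) (.g (nat_lit 3010) (.e (nat_lit 114710) (nat_lit 21) (.e (nat_lit 57847) (nat_lit 252) (.e (nat_lit 57345) (nat_lit 0) (.e (nat_lit 2031) (nat_lit 140) (.e (nat_lit 688182) (nat_lit 17) (.e (nat_lit 73755) (nat_lit 8) (.e (nat_lit 557097) (nat_lit 13) (.e (nat_lit 179968) (nat_lit 20) .nil)))))))) (.g (nat_lit 6) .nil .nil))) 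
(.lf (nat_lit 235899) (.g (nat_lit 1642) (.e (nat_lit 114710) (nat_lit 21) (.e (nat_lit 57847) (nat_lit 252) (.e (nat_lit 57407) (nat_lit 12) (.e (nat_lit 336114) (nat_lit 9) .nil)))) .nil))))) (.nd (nat_lit 3) (.nd (nat_lit 4) (.nd (nat_lit 5) 
(.lf (nat_lit 235847) (.g (nat_lit 1365) (.e (nat_lit 114710) (nat_lit 21) (.e (nat_lit 57846) (nat_lit 252) (.e (nat_lit 57435) (nat_lit 17) (.e (nat_lit 376839) (nat_lit 11) .nil)))) .nil)) 
(.lf (nat_lit 235879) (.g (nat_lit 2274) (.e (nat_lit 114710) (nat_lit 21) (.e (nat_lit 57847) (nat_lit 252) (.e (nat_lit 57348) (nat_lit 0) (.e (nat_lit 2202) (nat_lit 144) (.e (nat_lit 720956) (nat_lit 25) (.e (nat_lit 114716) (nat_lit 22) (.e (nat_lit 90168) (nat_lit 13) (.e (nat_lit 179968) (nat_lit 20) .nil)))))))) (.g (nat_lit 7) .nil .nil)))) (.nd (nat_lit 5) 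
(.lf (nat_lit 235863) (.g (nat_lit 3443) (.e (nat_lit 114710) (nat_lit 21) (.e (nat_lit 57846) (nat_lit 252) (.e (nat_lit 57437) (nat_lit 17) (.e (nat_lit 376842) (nat_lit 11) (.e (nat_lit 426190) (nat_lit 9) (.e (nat_lit 426446) (nat_lit 20) .nil)))))) (.g (nat_lit 6) .nil .nil))) 
(.lf (nat_lit 235895) (.g (nat_lit 3919) (.e (nat_lit 114710) (nat_lit 21) (.e (nat_lit 57847) (nat_lit 252) (.e (nat_lit 57407) (nat_lit 12) (.e (nat_lit 336019) (nat_lit 3) (.e (nat_lit 98342) (nat_lit 20) (.e (nat_lit 229120) (nat_lit 1) (.e (nat_lit 57849) (nat_lit 252) (.e (nat_lit 57390) (nat_lit 5) .nil)))))))) (.g (nat_lit 5) .nil .nil))))) (.nd (nat_lit 4) (.nd (nat_lit 5) 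
(.lf (nat_lit 235855) (.g (nat_lit 2502) (.e (nat_lit 114710) (nat_lit 21) (.e (nat_lit 57846) (nat_lit 252) (.e (nat_lit 57436) (nat_lit 17) (.e (nat_lit 376842) (nat_lit 11) (.e (nat_lit 426187) (nat_lit 9) (.e (nat_lit 426446) (nat_lit 20) .nil)))))) (.g (nat_lit 4) .nil .nil))) 
(.lf (nat_lit 235887) (.g (nat_lit 3755) (.e (nat_lit 114710) (nat_lit 21) (.e (nat_lit 57847) (nat_lit 252) (.e (nat_lit 57365) (nat_lit 1) (.e (nat_lit 57731) (nat_lit 181) (.e (nat_lit 1211) (nat_lit 89) (.e (nat_lit 73754) (nat_lit 8) (.e (nat_lit 557100) (nat_lit 13) (.e (nat_lit 179968) (nat_lit 20) .nil)))))))) (.g (nat_lit 7) .nil .nil)))) (.nd (nat_lit 5) 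
(.lf (nat_lit 235871) (.g (nat_lit 3509) (.e (nat_lit 114710) (nat_lit 21) (.e (nat_lit 57847) (nat_lit 252) (.e (nat_lit 57348) (nat_lit 0) (.e (nat_lit 2031) (nat_lit 140) (.e (nat_lit 688180) (nat_lit 17) (.e (nat_lit 73753) (nat_lit 8) (.e (nat_lit 557101) (nat_lit 13) (.e (nat_lit 179968) (nat_lit 20) .nil)))))))) (.g (nat_lit 7) .nil .nil))) 
(.lf (nat_lit 235903) (.g (nat_lit 1933) (.e (nat_lit 114710) (nat_lit 21) (.e (nat_lit 57847) (nat_lit 252) (.e (nat_lit 57407) (nat_lit 12) (.e (nat_lit 336122) (nat_lit 9) .nil)))) .nil))))))))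

noncomputable def tv3078 : DT := (.nd (nat_lit 0) (.nd (nat_lit 1) (.nd (nat_lit 2) (.nd (nat_lit 3) (.nd (nat_lit 4) (.nd (nat_lit 5) (.nd (nat_lit 6) 
(.lf (nat_lit 235904) (.g (nat_lit 1933) (.e (nat_lit 114710) (nat_lit 21) (.e (nat_lit 57847) (nat_lit 252) (.e (nat_lit 57407) (nat_lit 12) (.e (nat_lit 336137) (nat_lit 9) .nil)))) .nil)) 
(.lf (nat_lit 235968) (.g (nat_lit 1412) (.e (nat_lit 114710) (nat_lit 21) (.e (nat_lit 57847) (nat_lit 252) (.e (nat_lit 57435) (nat_lit 17) (.e (nat_lit 376839) (nat_lit 11) (.e (nat_lit 426262) (nat_lit 9) (.e (nat_lit 426447) (nat_lit 20) .nil)))))) (.g (nat_lit 4) .nil .nil)))) (.nd (nat_lit 6) 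
(.lf (nat_lit 235936) (.g (nat_lit 1538) (.e (nat_lit 114710) (nat_lit 21) (.e (nat_lit 57847) (nat_lit 252) (.e (nat_lit 57427) (nat_lit 15) (.e (nat_lit 360487) (nat_lit 19) .nil)))) .nil)) 
(.lf (nat_lit 236000) (.g (nat_lit 2370) (.e (nat_lit 114710) (nat_lit 21) (.e (nat_lit 57848) (nat_lit 252) (.e (nat_lit 57407) (nat_lit 12) (.e (nat_lit 336019) (nat_lit 3) (.e (nat_lit 98341) (nat_lit 20) (.e (nat_lit 221220) (nat_lit 25) (.e (nat_lit 229120) (nat_lit 5) .nil))))))) (.g (nat_lit 4) .nil .nil))))) (.nd (nat_lit 5) (.nd (nat_lit 6) 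
(.lf (nat_lit 235920) (.g (nat_lit 1516) (.e (nat_lit 114710) (nat_lit 21) (.e (nat_lit 57847) (nat_lit 252) (.e (nat_lit 57423) (nat_lit 14) (.e (nat_lit 352273) (nat_lit 11) .nil)))) .nil)) 
(.lf (nat_lit 235984) (.g (nat_lit 406) (.e (nat_lit 114710) (nat_lit 21) (.e (nat_lit 57847) (nat_lit 252) (.e (nat_lit 57437) (nat_lit 17) .nil))) .nil))) (.nd (nat_lit 6) 
(.lf (nat_lit 235952) (.g (nat_lit 1560) (.e (nat_lit 114710) (nat_lit 21) (.e (nat_lit 57847) (nat_lit 252) (.e (nat_lit 57430) (nat_lit 16) (.e (nat_lit 368676) (nat_lit 21) (.e (nat_lit 516131) (nat_lit 3) (.e (nat_lit 221220) (nat_lit 25) (.e (nat_lit 229120) (nat_lit 5) .nil))))))) (.g (nat_lit 4) .nil .nil))) 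
(.lf (nat_lit 236016) (.g (nat_lit 3702) (.e (nat_lit 114710) (nat_lit 21) (.e (nat_lit 57848) (nat_lit 252) (.e (nat_lit 57437) (nat_lit 17) (.e (nat_lit 376842) (nat_lit 11) (.e (nat_lit 426188) (nat_lit 9) (.e (nat_lit 426448) (nat_lit 20) .nil)))))) (.g (nat_lit 0) .nil .nil)))))) (.nd (nat_lit 4) (.nd (nat_lit 5) (.nd (nat_lit 6) 
(.lf (nat_lit 235912) (.g (nat_lit 1206) (.e (nat_lit 114710) (nat_lit 21) (.e (nat_lit 57847) (nat_lit 252) (.e (nat_lit 57409) (nat_lit 12) (.e (nat_lit 336115) (nat_lit 9) .nil)))) .nil)) 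
(.lf (nat_lit 235976) (.g (nat_lit 1663) (.e (nat_lit 114710) (nat_lit 21) (.e (nat_lit 57847) (nat_lit 252) (.e (nat_lit 57436) (nat_lit 17) (.e (nat_lit 376840) (nat_lit 11) (.e (nat_lit 426230) (nat_lit 9) (.e (nat_lit 426447) (nat_lit 20) .nil)))))) (.g (nat_lit 4) .nil .nil)))) (.nd (nat_lit 6) 
(.lf (nat_lit 235944) (.g (nat_lit 2192) (.e (nat_lit 114710) (nat_lit 21) (.e (nat_lit 57847) (nat_lit 252) (.e (nat_lit 57430) (nat_lit 16) (.e (nat_lit 368676) (nat_lit 21) (.e (nat_lit 516131) (nat_lit 3) (.e (nat_lit 221218) (nat_lit 24) (.e (nat_lit 213007) (nat_lit 9) (.e (nat_lit 122) (nat_lit 5) .nil)))))))) (.g (nat_lit 5) .nil .nil))) 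
(.lf (nat_lit 236008) (.g (nat_lit 1434) (.e (nat_lit 114710) (nat_lit 21) (.e (nat_lit 57848) (nat_lit 252) (.e (nat_lit 57435) (nat_lit 17) (.e (nat_lit 376839) (nat_lit 11) (.e (nat_lit 426262) (nat_lit 9) (.e (nat_lit 426447) (nat_lit 20) .nil)))))) (.g (nat_lit 4) .nil .nil))))) (.nd (nat_lit 5) (.nd (nat_lit 6) 
(.lf (nat_lit 235928) (.g (nat_lit 1672) (.e (nat_lit 114710) (nat_lit 21) (.e (nat_lit 57847) (nat_lit 252) (.e (nat_lit 57424) (nat_lit 14) (.e (nat_lit 352274) (nat_lit 11) .nil)))) .nil)) 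
(.lf (nat_lit 235992) (.g (nat_lit 485) (.e (nat_lit 114710) (nat_lit 21) (.e (nat_lit 57847) (nat_lit 252) (.e (nat_lit 57438) (nat_lit 17) .nil))) .nil))) (.nd (nat_lit 6) 
(.lf (nat_lit 235960) (.g (nat_lit 2362) (.e (nat_lit 114710) (nat_lit 21) (.e (nat_lit 57847) (nat_lit 252) (.e (nat_lit 57432) (nat_lit 16) (.e (nat_lit 368676) (nat_lit 21) (.e (nat_lit 516131) (nat_lit 3) (.e (nat_lit 221219) (nat_lit 24) (.e (nat_lit 213000) (nat_lit 9) (.e (nat_lit 122) (nat_lit 5) .nil)))))))) (.g (nat_lit 6) .nil .nil))) 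
(.lf (nat_lit 236024) (.g (nat_lit 3712) (.e (nat_lit 114710) (nat_lit 21) (.e (nat_lit 57849) (nat_lit 252) (.e (nat_lit 57435) (nat_lit 17) (.e (nat_lit 376842) (nat_lit 11) (.e (nat_lit 426188) (nat_lit 9) (.e (nat_lit 426448) (nat_lit 20) .nil)))))) (.g (nat_lit 0) .nil .nil))))))) (.nd (nat_lit 3) (.nd (nat_lit 4) (.nd (nat_lit 5) (.nd (nat_lit 6) 
(.lf (nat_lit 235908) (.g (nat_lit 1320) (.e (nat_lit 114710) (nat_lit 21) (.e (nat_lit 57847) (nat_lit 252) (.e (nat_lit 57407) (nat_lit 12) (.e (nat_lit 336211) (nat_lit 13) .nil)))) .nil)) 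
(.lf (nat_lit 235972) (.g (nat_lit 2244) (.e (nat_lit 114710) (nat_lit 21) (.e (nat_lit 57847) (nat_lit 252) (.e (nat_lit 57435) (nat_lit 17) (.e (nat_lit 376842) (nat_lit 11) (.e (nat_lit 426196) (nat_lit 9) (.e (nat_lit 426446) (nat_lit 20) .nil)))))) (.g (nat_lit 4) .nil .nil)))) (.nd (nat_lit 6) 
(.lf (nat_lit 235940) (.g (nat_lit 2169) (.e (nat_lit 114710) (nat_lit 21) (.e (nat_lit 57847) (nat_lit 252) (.e (nat_lit 57430) (nat_lit 16) (.e (nat_lit 368676) (nat_lit 21) (.e (nat_lit 516131) (nat_lit 3) (.e (nat_lit 221218) (nat_lit 24) (.e (nat_lit 213003) (nat_lit 9) (.e (nat_lit 122) (nat_lit 5) .nil)))))))) (.g (nat_lit 5) .nil .nil))) 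
(.lf (nat_lit 236004) (.g (nat_lit 1677) (.e (nat_lit 114710) (nat_lit 21) (.e (nat_lit 57848) (nat_lit 252) (.e (nat_lit 57407) (nat_lit 12) (.e (nat_lit 336210) (nat_lit 13) (.e (nat_lit 393267) (nat_lit 23) .nil))))) .nil)))) (.nd (nat_lit 5) (.nd (nat_lit 6) 
(.lf (nat_lit 235924) (.g (nat_lit 2089) (.e (nat_lit 114710) (nat_lit 21) (.e (nat_lit 57847) (nat_lit 252) (.e (nat_lit 57423) (nat_lit 14) (.e (nat_lit 352277) (nat_lit 11) (.e (nat_lit 426189) (nat_lit 9) .nil))))) .nil)) 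
(.lf (nat_lit 235988) (.g (nat_lit 3472) (.e (nat_lit 114710) (nat_lit 21) (.e (nat_lit 57847) (nat_lit 252) (.e (nat_lit 57437) (nat_lit 17) (.e (nat_lit 376842) (nat_lit 11) (.e (nat_lit 426188) (nat_lit 9) (.e (nat_lit 426446) (nat_lit 20) .nil)))))) (.g (nat_lit 0) .nil .nil)))) (.nd (nat_lit 6) 
(.lf (nat_lit 235956) (.g (nat_lit 1334) (.e (nat_lit 114710) (nat_lit 21) (.e (nat_lit 57847) (nat_lit 252) (.e (nat_lit 57432) (nat_lit 16) (.e (nat_lit 368676) (nat_lit 21) (.e (nat_lit 516131) (nat_lit 3) (.e (nat_lit 221218) (nat_lit 24) (.e (nat_lit 213001) (nat_lit 9) (.e (nat_lit 125) (nat_lit 5) .nil)))))))) (.g (nat_lit 4) .nil .nil))) 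
(.lf (nat_lit 236020) (.g (nat_lit 1292) (.e (nat_lit 114710) (nat_lit 21) (.e (nat_lit 57849) (nat_lit 252) (.e (nat_lit 57411) (nat_lit 12) (.e (nat_lit 336115) (nat_lit 9) .nil)))) .nil))))) (.nd (nat_lit 4) (.nd (nat_lit 5) (.nd (nat_lit 6) 
(.lf (nat_lit 235916) (.g (nat_lit 584) (.e (nat_lit 114710) (nat_lit 21) (.e (nat_lit 57847) (nat_lit 252) (.e (nat_lit 57412) (nat_lit 12) .nil))) .nil)) 
(.lf (nat_lit 235980) (.g (nat_lit 3782) (.e (nat_lit 114710) (nat_lit 21) (.e (nat_lit 57847) (nat_lit 252) (.e (nat_lit 57436) (nat_lit 17) (.e (nat_lit 376842) (nat_lit 11) (.e (nat_lit 426188) (nat_lit 9) (.e (nat_lit 426448) (nat_lit 20) .nil)))))) (.g (nat_lit 0) .nil .nil)))) (.nd (nat_lit 6) 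
(.lf (nat_lit 235948) (.g (nat_lit 2356) (.e (nat_lit 114710) (nat_lit 21) (.e (nat_lit 57847) (nat_lit 252) (.e (nat_lit 57430) (nat_lit 16) (.e (nat_lit 368676) (nat_lit 21) (.e (nat_lit 516131) (nat_lit 3) (.e (nat_lit 221219) (nat_lit 24) (.e (nat_lit 213003) (nat_lit 9) (.e (nat_lit 122) (nat_lit 5) .nil)))))))) (.g (nat_lit 6) .nil .nil))) 
(.lf (nat_lit 236012) (.g (nat_lit 1914) (.e (nat_lit 114710) (nat_lit 21) (.e (nat_lit 57848) (nat_lit 252) (.e (nat_lit 57436) (nat_lit 17) (.e (nat_lit 376842) (nat_lit 11) (.e (nat_lit 426189) (nat_lit 9) .nil))))) .nil)))) (.nd (nat_lit 5) (.nd (nat_lit 6) 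
(.lf (nat_lit 235932) (.g (nat_lit 1666) (.e (nat_lit 114710) (nat_lit 21) (.e (nat_lit 57847) (nat_lit 252) (.e (nat_lit 57424) (nat_lit 14) (.e (nat_lit 352278) (nat_lit 11) .nil)))) .nil)) 
(.lf (nat_lit 235996) (.g (nat_lit 2962) (.e (nat_lit 114710) (nat_lit 21) (.e (nat_lit 57848) (nat_lit 252) (.e (nat_lit 57390) (nat_lit 5) (.e (nat_lit 114723) (nat_lit 24) (.e (nat_lit 106517) (nat_lit 9) (.e (nat_lit 1237) (nat_lit 91) (.e (nat_lit 90170) (nat_lit 13) (.e (nat_lit 179968) (nat_lit 20) .nil)))))))) (.g (nat_lit 7) .nil .nil)))) (.nd (nat_lit 6) 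
(.lf (nat_lit 235964) (.g (nat_lit 2393) (.e (nat_lit 114710) (nat_lit 21) (.e (nat_lit 57847) (nat_lit 252) (.e (nat_lit 57432) (nat_lit 16) (.e (nat_lit 368676) (nat_lit 21) (.e (nat_lit 516131) (nat_lit 3) (.e (nat_lit 221219) (nat_lit 24) (.e (nat_lit 213004) (nat_lit 9) (.e (nat_lit 124) (nat_lit 5) .nil)))))))) (.g (nat_lit 6) .nil .nil))) 
(.lf (nat_lit 236028) (.g (nat_lit 1277) (.e (nat_lit 114710) (nat_lit 21) (.e (nat_lit 57849) (nat_lit 252) (.e (nat_lit 57437) (nat_lit 17) (.e (nat_lit 376841) (nat_lit 11) .nil)))) .nil))))))) (.nd (nat_lit 2) (.nd (nat_lit 3) (.nd (nat_lit 4) (.nd (nat_lit 5) (.nd (nat_lit 6) 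
(.lf (nat_lit 235906) (.g (nat_lit 1596) (.e (nat_lit 114710) (nat_lit 21) (.e (nat_lit 57847) (nat_lit 252) (.e (nat_lit 57407) (nat_lit 12) (.e (nat_lit 336210) (nat_lit 13) .nil)))) .nil)) 
(.lf (nat_lit 235970) (.g (nat_lit 1901) (.e (nat_lit 114710) (nat_lit 21) (.e (nat_lit 57847) (nat_lit 252) (.e (nat_lit 57435) (nat_lit 17) (.e (nat_lit 376840) (nat_lit 11) (.e (nat_lit 426262) (nat_lit 9) (.e (nat_lit 426447) (nat_lit 20) .nil)))))) (.g (nat_lit 0) .nil .nil)))) (.nd (nat_lit 6) 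
(.lf (nat_lit 235938) (.g (nat_lit 1883) (.e (nat_lit 114710) (nat_lit 21) (.e (nat_lit 57847) (nat_lit 252) (.e (nat_lit 57430) (nat_lit 16) (.e (nat_lit 368676) (nat_lit 21) (.e (nat_lit 516131) (nat_lit 3) (.e (nat_lit 221218) (nat_lit 24) (.e (nat_lit 213001) (nat_lit 9) (.e (nat_lit 122) (nat_lit 5) .nil)))))))) (.g (nat_lit 5) .nil .nil))) 
(.lf (nat_lit 236002) (.g (nat_lit 1158) (.e (nat_lit 114710) (nat_lit 21) (.e (nat_lit 57848) (nat_lit 252) (.e (nat_lit 57407) (nat_lit 12) (.e (nat_lit 336115) (nat_lit 9) .nil)))) .nil)))) (.nd (nat_lit 5) (.nd (nat_lit 6) 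
(.lf (nat_lit 235922) (.g (nat_lit 1556) (.e (nat_lit 114710) (nat_lit 21) (.e (nat_lit 57847) (nat_lit 252) (.e (nat_lit 57423) (nat_lit 14) (.e (nat_lit 352276) (nat_lit 11) (.e (nat_lit 426230) (nat_lit 9) .nil))))) .nil)) 
(.lf (nat_lit 235986) (.g (nat_lit 2084) (.e (nat_lit 114710) (nat_lit 21) (.e (nat_lit 57847) (nat_lit 252) (.e (nat_lit 57437) (nat_lit 17) (.e (nat_lit 376840) (nat_lit 11) (.e (nat_lit 426230) (nat_lit 9) (.e (nat_lit 426447) (nat_lit 20) .nil)))))) (.g (nat_lit 6) .nil .nil)))) (.nd (nat_lit 6) 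
(.lf (nat_lit 235954) (.g (nat_lit 1728) (.e (nat_lit 114710) (nat_lit 21) (.e (nat_lit 57847) (nat_lit 252) (.e (nat_lit 57432) (nat_lit 16) (.e (nat_lit 368676) (nat_lit 21) (.e (nat_lit 516131) (nat_lit 3) (.e (nat_lit 221218) (nat_lit 24) (.e (nat_lit 213001) (nat_lit 9) (.e (nat_lit 122) (nat_lit 5) .nil)))))))) (.g (nat_lit 5) .nil .nil))) 
(.lf (nat_lit 236018) (.g (nat_lit 392) (.e (nat_lit 114710) (nat_lit 21) (.e (nat_lit 57849) (nat_lit 252) (.e (nat_lit 57410) (nat_lit 12) .nil))) .nil))))) (.nd (nat_lit 4) (.nd (nat_lit 5) (.nd (nat_lit 6) 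
(.lf (nat_lit 235914) (.g (nat_lit 1343) (.e (nat_lit 114710) (nat_lit 21) (.e (nat_lit 57847) (nat_lit 252) (.e (nat_lit 57411) (nat_lit 12) (.e (nat_lit 336115) (nat_lit 9) .nil)))) .nil)) 
(.lf (nat_lit 235978) (.g (nat_lit 1618) (.e (nat_lit 114710) (nat_lit 21) (.e (nat_lit 57847) (nat_lit 252) (.e (nat_lit 57436) (nat_lit 17) (.e (nat_lit 376840) (nat_lit 11) (.e (nat_lit 426262) (nat_lit 9) (.e (nat_lit 426447) (nat_lit 20) .nil)))))) (.g (nat_lit 4) .nil .nil)))) (.nd (nat_lit 6) 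
(.lf (nat_lit 235946) (.g (nat_lit 2261) (.e (nat_lit 114710) (nat_lit 21) (.e (nat_lit 57847) (nat_lit 252) (.e (nat_lit 57430) (nat_lit 16) (.e (nat_lit 368676) (nat_lit 21) (.e (nat_lit 516131) (nat_lit 3) (.e (nat_lit 221219) (nat_lit 24) (.e (nat_lit 213001) (nat_lit 9) (.e (nat_lit 122) (nat_lit 5) .nil)))))))) (.g (nat_lit 5) .nil .nil))) 
(.lf (nat_lit 236010) (.g (nat_lit 3593) (.e (nat_lit 114710) (nat_lit 21) (.e (nat_lit 57848) (nat_lit 252) (.e (nat_lit 57435) (nat_lit 17) (.e (nat_lit 376842) (nat_lit 11) (.e (nat_lit 426188) (nat_lit 9) (.e (nat_lit 426448) (nat_lit 20) .nil)))))) (.g (nat_lit 0) .nil .nil))))) (.nd (nat_lit 5) (.nd (nat_lit 6) 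
(.lf (nat_lit 235930) (.g (nat_lit 1728) (.e (nat_lit 114710) (nat_lit 21) (.e (nat_lit 57847) (nat_lit 252) (.e (nat_lit 57424) (nat_lit 14) (.e (nat_lit 352276) (nat_lit 11) (.e (nat_lit 426230) (nat_lit 9) .nil))))) .nil)) 
(.lf (nat_lit 235994) (.g (nat_lit 662) (.e (nat_lit 114710) (nat_lit 21) (.e (nat_lit 57847) (nat_lit 252) (.e (nat_lit 57438) (nat_lit 17) (.e (nat_lit 376841) (nat_lit 11) .nil)))) .nil))) (.nd (nat_lit 6) 
(.lf (nat_lit 235962) (.g (nat_lit 2137) (.e (nat_lit 114710) (nat_lit 21) (.e (nat_lit 57847) (nat_lit 252) (.e (nat_lit 57432) (nat_lit 16) (.e (nat_lit 368676) (nat_lit 21) (.e (nat_lit 516131) (nat_lit 3) (.e (nat_lit 221219) (nat_lit 24) (.e (nat_lit 213001) (nat_lit 9) (.e (nat_lit 122) (nat_lit 5) .nil)))))))) (.g (nat_lit 5) .nil .nil))) 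
(.lf (nat_lit 236026) (.g (nat_lit 1282) (.e (nat_lit 114710) (nat_lit 21) (.e (nat_lit 57849) (nat_lit 252) (.e (nat_lit 57437) (nat_lit 17) (.e (nat_lit 376839) (nat_lit 11) .nil)))) .nil)))))) (.nd (nat_lit 3) (.nd (nat_lit 4) (.nd (nat_lit 5) (.nd (nat_lit 6) 
(.lf (nat_lit 235910) (.g (nat_lit 2059) (.e (nat_lit 114710) (nat_lit 21) (.e (nat_lit 57847) (nat_lit 252) (.e (nat_lit 57407) (nat_lit 12) (.e (nat_lit 336211) (nat_lit 13) (.e (nat_lit 393271) (nat_lit 23) .nil))))) .nil)) 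
(.lf (nat_lit 235974) (.g (nat_lit 2104) (.e (nat_lit 114710) (nat_lit 21) (.e (nat_lit 57847) (nat_lit 252) (.e (nat_lit 57435) (nat_lit 17) (.e (nat_lit 376842) (nat_lit 11) (.e (nat_lit 426258) (nat_lit 9) .nil))))) .nil))) (.nd (nat_lit 6) 
(.lf (nat_lit 235942) (.g (nat_lit 1441) (.e (nat_lit 114710) (nat_lit 21) (.e (nat_lit 57847) (nat_lit 252) (.e (nat_lit 57430) (nat_lit 16) (.e (nat_lit 368676) (nat_lit 21) (.e (nat_lit 516131) (nat_lit 3) (.e (nat_lit 221218) (nat_lit 24) (.e (nat_lit 213006) (nat_lit 9) (.e (nat_lit 122) (nat_lit 5) .nil)))))))) (.g (nat_lit 4) .nil .nil))) 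
(.lf (nat_lit 236006) (.g (nat_lit 2058) (.e (nat_lit 114710) (nat_lit 21) (.e (nat_lit 57848) (nat_lit 252) (.e (nat_lit 57423) (nat_lit 14) (.e (nat_lit 352277) (nat_lit 11) (.e (nat_lit 426190) (nat_lit 9) .nil))))) .nil)))) (.nd (nat_lit 5) (.nd (nat_lit 6) 
(.lf (nat_lit 235926) (.g (nat_lit 1268) (.e (nat_lit 114710) (nat_lit 21) (.e (nat_lit 57847) (nat_lit 252) (.e (nat_lit 57423) (nat_lit 14) (.e (nat_lit 360192) (nat_lit 16) .nil)))) .nil)) 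
(.lf (nat_lit 235990) (.g (nat_lit 2343) (.e (nat_lit 114710) (nat_lit 21) (.e (nat_lit 57847) (nat_lit 252) (.e (nat_lit 57437) (nat_lit 17) (.e (nat_lit 376842) (nat_lit 11) (.e (nat_lit 426196) (nat_lit 9) (.e (nat_lit 426446) (nat_lit 20) .nil)))))) (.g (nat_lit 4) .nil .nil)))) (.nd (nat_lit 6) 
(.lf (nat_lit 235958) (.g (nat_lit 1942) (.e (nat_lit 114710) (nat_lit 21) (.e (nat_lit 57847) (nat_lit 252) (.e (nat_lit 57432) (nat_lit 16) (.e (nat_lit 368676) (nat_lit 21) (.e (nat_lit 516131) (nat_lit 3) (.e (nat_lit 221218) (nat_lit 24) (.e (nat_lit 213006) (nat_lit 9) (.e (nat_lit 124) (nat_lit 5) .nil)))))))) (.g (nat_lit 5) .nil .nil))) 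
(.lf (nat_lit 236022) (.g (nat_lit 1199) (.e (nat_lit 114710) (nat_lit 21) (.e (nat_lit 57849) (nat_lit 252) (.e (nat_lit 57435) (nat_lit 17) (.e (nat_lit 376839) (nat_lit 11) (.e (nat_lit 426262) (nat_lit 9) .nil))))) .nil))))) (.nd (nat_lit 4) (.nd (nat_lit 5) (.nd (nat_lit 6) 
(.lf (nat_lit 235918) (.g (nat_lit 581) (.e (nat_lit 114710) (nat_lit 21) (.e (nat_lit 57847) (nat_lit 252) (.e (nat_lit 57418) (nat_lit 12) .nil))) .nil)) 
(.lf (nat_lit 235982) (.g (nat_lit 1037) (.e (nat_lit 114710) (nat_lit 21) (.e (nat_lit 57847) (nat_lit 252) (.e (nat_lit 57436) (nat_lit 17) (.e (nat_lit 384768) (nat_lit 13) .nil)))) .nil))) (.nd (nat_lit 6) 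
(.lf (nat_lit 235950) (.g (nat_lit 2517) (.e (nat_lit 114710) (nat_lit 21) (.e (nat_lit 57847) (nat_lit 252) (.e (nat_lit 57430) (nat_lit 16) (.e (nat_lit 368676) (nat_lit 21) (.e (nat_lit 516131) (nat_lit 3) (.e (nat_lit 221219) (nat_lit 24) (.e (nat_lit 213004) (nat_lit 9) (.e (nat_lit 124) (nat_lit 5) .nil)))))))) (.g (nat_lit 6) .nil .nil))) 
(.lf (nat_lit 236014) (.g (nat_lit 1771) (.e (nat_lit 114710) (nat_lit 21) (.e (nat_lit 57848) (nat_lit 252) (.e (nat_lit 57437) (nat_lit 17) (.e (nat_lit 376840) (nat_lit 11) (.e (nat_lit 426230) (nat_lit 9) (.e (nat_lit 426447) (nat_lit 20) .nil)))))) (.g (nat_lit 6) .nil .nil))))) (.nd (nat_lit 5) (.nd (nat_lit 6) 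
(.lf (nat_lit 235934) (.g (nat_lit 1616) (.e (nat_lit 114710) (nat_lit 21) (.e (nat_lit 57847) (nat_lit 252) (.e (nat_lit 57426) (nat_lit 15) (.e (nat_lit 360449) (nat_lit 0) (.e (nat_lit 6923) (nat_lit 371) .nil))))) .nil)) 
(.lf (nat_lit 235998) (.g (nat_lit 493) (.e (nat_lit 114710) (nat_lit 21) (.e (nat_lit 57848) (nat_lit 252) (.e (nat_lit 57405) (nat_lit 12) .nil))) .nil))) (.nd (nat_lit 6) 
(.lf (nat_lit 235966) (.g (nat_lit 511) (.e (nat_lit 114710) (nat_lit 21) (.e (nat_lit 57847) (nat_lit 252) (.e (nat_lit 57434) (nat_lit 17) .nil))) .nil)) 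
(.lf (nat_lit 236030) (.g (nat_lit 2321) (.e (nat_lit 114710) (nat_lit 21) (.e (nat_lit 57849) (nat_lit 252) (.e (nat_lit 57437) (nat_lit 17) (.e (nat_lit 376842) (nat_lit 11) (.e (nat_lit 426258) (nat_lit 9) .nil))))) .nil)))))))) (.nd (nat_lit 1) (.nd (nat_lit 2) (.nd (nat_lit 3) (.nd (nat_lit 4) (.nd (nat_lit 5) (.nd (nat_lit 6) 
(.lf (nat_lit 235905) (.g (nat_lit 1928) (.e (nat_lit 114710) (nat_lit 21) (.e (nat_lit 57847) (nat_lit 252) (.e (nat_lit 57407) (nat_lit 12) (.e (nat_lit 336146) (nat_lit 9) .nil)))) .nil)) 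
(.lf (nat_lit 235969) (.g (nat_lit 865) (.e (nat_lit 114710) (nat_lit 21) (.e (nat_lit 57847) (nat_lit 252) (.e (nat_lit 57435) (nat_lit 17) (.e (nat_lit 376840) (nat_lit 11) .nil)))) .nil))) (.nd (nat_lit 6) 
(.lf (nat_lit 235937) (.g (nat_lit 1681) (.e (nat_lit 114710) (nat_lit 21) (.e (nat_lit 57847) (nat_lit 252) (.e (nat_lit 57430) (nat_lit 16) (.e (nat_lit 368676) (nat_lit 21) (.e (nat_lit 516131) (nat_lit 3) (.e (nat_lit 221218) (nat_lit 24) (.e (nat_lit 213000) (nat_lit 9) (.e (nat_lit 124) (nat_lit 5) .nil)))))))) (.g (nat_lit 4) .nil .nil))) 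
(.lf (nat_lit 236001) (.g (nat_lit 2347) (.e (nat_lit 114710) (nat_lit 21) (.e (nat_lit 57848) (nat_lit 252) (.e (nat_lit 57407) (nat_lit 12) (.e (nat_lit 336019) (nat_lit 3) (.e (nat_lit 98342) (nat_lit 20) (.e (nat_lit 229120) (nat_lit 1) (.e (nat_lit 57849) (nat_lit 252) (.e (nat_lit 57390) (nat_lit 5) .nil)))))))) (.g (nat_lit 4) .nil .nil))))) (.nd (nat_lit 5) (.nd (nat_lit 6) 
(.lf (nat_lit 235921) (.g (nat_lit 1420) (.e (nat_lit 114710) (nat_lit 21) (.e (nat_lit 57847) (nat_lit 252) (.e (nat_lit 57423) (nat_lit 14) (.e (nat_lit 352276) (nat_lit 11) .nil)))) .nil)) 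
(.lf (nat_lit 235985) (.g (nat_lit 988) (.e (nat_lit 114710) (nat_lit 21) (.e (nat_lit 57847) (nat_lit 252) (.e (nat_lit 57437) (nat_lit 17) (.e (nat_lit 376840) (nat_lit 11) .nil)))) .nil))) (.nd (nat_lit 6) 
(.lf (nat_lit 235953) (.g (nat_lit 1526) (.e (nat_lit 114710) (nat_lit 21) (.e (nat_lit 57847) (nat_lit 252) (.e (nat_lit 57432) (nat_lit 16) (.e (nat_lit 368676) (nat_lit 21) (.e (nat_lit 516131) (nat_lit 3) (.e (nat_lit 221218) (nat_lit 24) (.e (nat_lit 213000) (nat_lit 9) (.e (nat_lit 124) (nat_lit 5) .nil)))))))) (.g (nat_lit 4) .nil .nil))) 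
(.lf (nat_lit 236017) (.g (nat_lit 1963) (.e (nat_lit 114710) (nat_lit 21) (.e (nat_lit 57848) (nat_lit 252) (.e (nat_lit 57437) (nat_lit 17) (.e (nat_lit 376842) (nat_lit 11) (.e (nat_lit 426258) (nat_lit 9) .nil))))) .nil))))) (.nd (nat_lit 4) (.nd (nat_lit 5) (.nd (nat_lit 6) 
(.lf (nat_lit 235913) (.g (nat_lit 421) (.e (nat_lit 114710) (nat_lit 21) (.e (nat_lit 57847) (nat_lit 252) (.e (nat_lit 57410) (nat_lit 12) .nil))) .nil)) 
(.lf (nat_lit 235977) (.g (nat_lit 1641) (.e (nat_lit 114710) (nat_lit 21) (.e (nat_lit 57847) (nat_lit 252) (.e (nat_lit 57436) (nat_lit 17) (.e (nat_lit 376840) (nat_lit 11) (.e (nat_lit 426234) (nat_lit 9) (.e (nat_lit 426447) (nat_lit 20) .nil)))))) (.g (nat_lit 4) .nil .nil)))) (.nd (nat_lit 6) 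
(.lf (nat_lit 235945) (.g (nat_lit 2486) (.e (nat_lit 114710) (nat_lit 21) (.e (nat_lit 57847) (nat_lit 252) (.e (nat_lit 57430) (nat_lit 16) (.e (nat_lit 368676) (nat_lit 21) (.e (nat_lit 516131) (nat_lit 3) (.e (nat_lit 221219) (nat_lit 24) (.e (nat_lit 213000) (nat_lit 9) (.e (nat_lit 122) (nat_lit 5) .nil)))))))) (.g (nat_lit 6) .nil .nil))) 
(.lf (nat_lit 236009) (.g (nat_lit 1590) (.e (nat_lit 114710) (nat_lit 21) (.e (nat_lit 57848) (nat_lit 252) (.e (nat_lit 57435) (nat_lit 17) (.e (nat_lit 376840) (nat_lit 11) (.e (nat_lit 426262) (nat_lit 9) (.e (nat_lit 426447) (nat_lit 20) .nil)))))) (.g (nat_lit 0) .nil .nil))))) (.nd (nat_lit 5) (.nd (nat_lit 6) 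
(.lf (nat_lit 235929) (.g (nat_lit 1505) (.e (nat_lit 114710) (nat_lit 21) (.e (nat_lit 57847) (nat_lit 252) (.e (nat_lit 57424) (nat_lit 14) (.e (nat_lit 352276) (nat_lit 11) .nil)))) .nil)) 
(.lf (nat_lit 235993) (.g (nat_lit 621) (.e (nat_lit 114710) (nat_lit 21) (.e (nat_lit 57847) (nat_lit 252) (.e (nat_lit 57438) (nat_lit 17) (.e (nat_lit 376839) (nat_lit 11) .nil)))) .nil))) (.nd (nat_lit 6) 
(.lf (nat_lit 235961) (.g (nat_lit 2178) (.e (nat_lit 114710) (nat_lit 21) (.e (nat_lit 57847) (nat_lit 252) (.e (nat_lit 57432) (nat_lit 16) (.e (nat_lit 368676) (nat_lit 21) (.e (nat_lit 516131) (nat_lit 3) (.e (nat_lit 221219) (nat_lit 24) (.e (nat_lit 213000) (nat_lit 9) (.e (nat_lit 125) (nat_lit 5) .nil)))))))) (.g (nat_lit 5) .nil .nil))) 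
(.lf (nat_lit 236025) (.g (nat_lit 1277) (.e (nat_lit 114710) (nat_lit 21) (.e (nat_lit 57849) (nat_lit 252) (.e (nat_lit 57437) (nat_lit 17) (.e (nat_lit 376838) (nat_lit 11) .nil)))) .nil)))))) (.nd (nat_lit 3) (.nd (nat_lit 4) (.nd (nat_lit 5) (.nd (nat_lit 6) 
(.lf (nat_lit 235909) (.g (nat_lit 2309) (.e (nat_lit 114710) (nat_lit 21) (.e (nat_lit 57847) (nat_lit 252) (.e (nat_lit 57407) (nat_lit 12) (.e (nat_lit 336211) (nat_lit 13) (.e (nat_lit 393266) (nat_lit 23) .nil))))) .nil)) 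
(.lf (nat_lit 235973) (.g (nat_lit 3450) (.e (nat_lit 114710) (nat_lit 21) (.e (nat_lit 57847) (nat_lit 252) (.e (nat_lit 57435) (nat_lit 17) (.e (nat_lit 376842) (nat_lit 11) (.e (nat_lit 426200) (nat_lit 9) (.e (nat_lit 426448) (nat_lit 20) .nil)))))) (.g (nat_lit 0) .nil .nil)))) (.nd (nat_lit 6) 
(.lf (nat_lit 235941) (.g (nat_lit 1903) (.e (nat_lit 114710) (nat_lit 21) (.e (nat_lit 57847) (nat_lit 252) (.e (nat_lit 57430) (nat_lit 16) (.e (nat_lit 368676) (nat_lit 21) (.e (nat_lit 516131) (nat_lit 3) (.e (nat_lit 221218) (nat_lit 24) (.e (nat_lit 213004) (nat_lit 9) (.e (nat_lit 124) (nat_lit 5) .nil)))))))) (.g (nat_lit 5) .nil .nil))) 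
(.lf (nat_lit 236005) (.g (nat_lit 1033) (.e (nat_lit 114710) (nat_lit 21) (.e (nat_lit 57848) (nat_lit 252) (.e (nat_lit 57409) (nat_lit 12) (.e (nat_lit 336211) (nat_lit 13) .nil)))) .nil)))) (.nd (nat_lit 5) (.nd (nat_lit 6) 
(.lf (nat_lit 235925) (.g (nat_lit 1268) (.e (nat_lit 114710) (nat_lit 21) (.e (nat_lit 57847) (nat_lit 252) (.e (nat_lit 57423) (nat_lit 14) (.e (nat_lit 360192) (nat_lit 13) .nil)))) .nil)) 
(.lf (nat_lit 235989) (.g (nat_lit 4000) (.e (nat_lit 114710) (nat_lit 21) (.e (nat_lit 57847) (nat_lit 252) (.e (nat_lit 57437) (nat_lit 17) (.e (nat_lit 376842) (nat_lit 11) (.e (nat_lit 426188) (nat_lit 9) (.e (nat_lit 426448) (nat_lit 20) .nil)))))) (.g (nat_lit 0) .nil .nil)))) (.nd (nat_lit 6) 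
(.lf (nat_lit 235957) (.g (nat_lit 2014) (.e (nat_lit 114710) (nat_lit 21) (.e (nat_lit 57847) (nat_lit 252) (.e (nat_lit 57432) (nat_lit 16) (.e (nat_lit 368676) (nat_lit 21) (.e (nat_lit 516131) (nat_lit 3) (.e (nat_lit 221218) (nat_lit 24) (.e (nat_lit 213003) (nat_lit 9) (.e (nat_lit 122) (nat_lit 5) .nil)))))))) (.g (nat_lit 5) .nil .nil))) 
(.lf (nat_lit 236021) (.g (nat_lit 1040) (.e (nat_lit 114710) (nat_lit 21) (.e (nat_lit 57849) (nat_lit 252) (.e (nat_lit 57435) (nat_lit 17) (.e (nat_lit 376839) (nat_lit 11) .nil)))) .nil))))) (.nd (nat_lit 4) (.nd (nat_lit 5) (.nd (nat_lit 6) 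
(.lf (nat_lit 235917) (.g (nat_lit 1553) (.e (nat_lit 114710) (nat_lit 21) (.e (nat_lit 57847) (nat_lit 252) (.e (nat_lit 57412) (nat_lit 12) (.e (nat_lit 336212) (nat_lit 13) (.e (nat_lit 393270) (nat_lit 23) .nil))))) .nil)) 
(.lf (nat_lit 235981) (.g (nat_lit 2309) (.e (nat_lit 114710) (nat_lit 21) (.e (nat_lit 57847) (nat_lit 252) (.e (nat_lit 57436) (nat_lit 17) (.e (nat_lit 376842) (nat_lit 11) (.e (nat_lit 426196) (nat_lit 9) .nil))))) .nil))) (.nd (nat_lit 6) 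
(.lf (nat_lit 235949) (.g (nat_lit 1509) (.e (nat_lit 114710) (nat_lit 21) (.e (nat_lit 57847) (nat_lit 252) (.e (nat_lit 57430) (nat_lit 16) (.e (nat_lit 368676) (nat_lit 21) (.e (nat_lit 516131) (nat_lit 3) (.e (nat_lit 221219) (nat_lit 24) (.e (nat_lit 213004) (nat_lit 9) (.e (nat_lit 122) (nat_lit 5) .nil)))))))) (.g (nat_lit 4) .nil .nil))) 
(.lf (nat_lit 236013) (.g (nat_lit 1243) (.e (nat_lit 114710) (nat_lit 21) (.e (nat_lit 57848) (nat_lit 252) (.e (nat_lit 57437) (nat_lit 17) (.e (nat_lit 376839) (nat_lit 11) .nil)))) .nil)))) (.nd (nat_lit 5) (.nd (nat_lit 6) 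
(.lf (nat_lit 235933) (.g (nat_lit 490) (.e (nat_lit 114710) (nat_lit 21) (.e (nat_lit 57847) (nat_lit 252) (.e (nat_lit 57425) (nat_lit 14) .nil))) .nil)) 
(.lf (nat_lit 235997) (.g (nat_lit 2758) (.e (nat_lit 114710) (nat_lit 21) (.e (nat_lit 57848) (nat_lit 252) (.e (nat_lit 57390) (nat_lit 5) (.e (nat_lit 114723) (nat_lit 24) (.e (nat_lit 106523) (nat_lit 9) (.e (nat_lit 1234) (nat_lit 91) (.e (nat_lit 90170) (nat_lit 13) (.e (nat_lit 179968) (nat_lit 20) .nil)))))))) (.g (nat_lit 7) .nil .nil)))) (.nd (nat_lit 6) 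
(.lf (nat_lit 235965) (.g (nat_lit 1461) (.e (nat_lit 114710) (nat_lit 21) (.e (nat_lit 57847) (nat_lit 252) (.e (nat_lit 57432) (nat_lit 16) (.e (nat_lit 368676) (nat_lit 21) (.e (nat_lit 516131) (nat_lit 3) (.e (nat_lit 221220) (nat_lit 25) (.e (nat_lit 229120) (nat_lit 5) .nil))))))) (.g (nat_lit 4) .nil .nil))) 
(.lf (nat_lit 236029) (.g (nat_lit 4003) (.e (nat_lit 114710) (nat_lit 21) (.e (nat_lit 57849) (nat_lit 252) (.e (nat_lit 57437) (nat_lit 17) (.e (nat_lit 376842) (nat_lit 11) (.e (nat_lit 426188) (nat_lit 9) (.e (nat_lit 426448) (nat_lit 20) .nil)))))) (.g (nat_lit 0) .nil .nil)))))))) (.nd (nat_lit 2) (.nd (nat_lit 3) (.nd (nat_lit 4) (.nd (nat_lit 5) (.nd (nat_lit 6) 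
(.lf (nat_lit 235907) (.g (nat_lit 1752) (.e (nat_lit 114710) (nat_lit 21) (.e (nat_lit 57847) (nat_lit 252) (.e (nat_lit 57407) (nat_lit 12) (.e (nat_lit 336210) (nat_lit 13) (.e (nat_lit 393274) (nat_lit 23) .nil))))) .nil)) 
(.lf (nat_lit 235971) (.g (nat_lit 3873) (.e (nat_lit 114710) (nat_lit 21) (.e (nat_lit 57847) (nat_lit 252) (.e (nat_lit 57435) (nat_lit 17) (.e (nat_lit 376842) (nat_lit 11) (.e (nat_lit 426188) (nat_lit 9) (.e (nat_lit 426448) (nat_lit 20) .nil)))))) (.g (nat_lit 0) .nil .nil)))) (.nd (nat_lit 6) 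
(.lf (nat_lit 235939) (.g (nat_lit 1489) (.e (nat_lit 114710) (nat_lit 21) (.e (nat_lit 57847) (nat_lit 252) (.e (nat_lit 57430) (nat_lit 16) (.e (nat_lit 368676) (nat_lit 21) (.e (nat_lit 516131) (nat_lit 3) (.e (nat_lit 221218) (nat_lit 24) (.e (nat_lit 213001) (nat_lit 9) (.e (nat_lit 125) (nat_lit 5) .nil)))))))) (.g (nat_lit 4) .nil .nil))) 
(.lf (nat_lit 236003) (.g (nat_lit 1376) (.e (nat_lit 114710) (nat_lit 21) (.e (nat_lit 57848) (nat_lit 252) (.e (nat_lit 57407) (nat_lit 12) (.e (nat_lit 336210) (nat_lit 13) .nil)))) .nil)))) (.nd (nat_lit 5) (.nd (nat_lit 6) 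
(.lf (nat_lit 235923) (.g (nat_lit 1431) (.e (nat_lit 114710) (nat_lit 21) (.e (nat_lit 57847) (nat_lit 252) (.e (nat_lit 57423) (nat_lit 14) (.e (nat_lit 352277) (nat_lit 11) .nil)))) .nil)) 
(.lf (nat_lit 235987) (.g (nat_lit 2059) (.e (nat_lit 114710) (nat_lit 21) (.e (nat_lit 57847) (nat_lit 252) (.e (nat_lit 57437) (nat_lit 17) (.e (nat_lit 376840) (nat_lit 11) (.e (nat_lit 426234) (nat_lit 9) (.e (nat_lit 426447) (nat_lit 20) .nil)))))) (.g (nat_lit 6) .nil .nil)))) (.nd (nat_lit 6) 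
(.lf (nat_lit 235955) (.g (nat_lit 2403) (.e (nat_lit 114710) (nat_lit 21) (.e (nat_lit 57847) (nat_lit 252) (.e (nat_lit 57432) (nat_lit 16) (.e (nat_lit 368676) (nat_lit 21) (.e (nat_lit 516131) (nat_lit 3) (.e (nat_lit 221218) (nat_lit 24) (.e (nat_lit 213001) (nat_lit 9) (.e (nat_lit 124) (nat_lit 5) .nil)))))))) (.g (nat_lit 6) .nil .nil))) 
(.lf (nat_lit 236019) (.g (nat_lit 1397) (.e (nat_lit 114710) (nat_lit 21) (.e (nat_lit 57849) (nat_lit 252) (.e (nat_lit 57411) (nat_lit 12) (.e (nat_lit 336019) (nat_lit 3) .nil)))) .nil))))) (.nd (nat_lit 4) (.nd (nat_lit 5) (.nd (nat_lit 6) 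
(.lf (nat_lit 235915) (.g (nat_lit 1657) (.e (nat_lit 114710) (nat_lit 21) (.e (nat_lit 57847) (nat_lit 252) (.e (nat_lit 57411) (nat_lit 12) (.e (nat_lit 336115) (nat_lit 9) (.e (nat_lit 343808) (nat_lit 32) .nil))))) .nil)) 
(.lf (nat_lit 235979) (.g (nat_lit 1044) (.e (nat_lit 114710) (nat_lit 21) (.e (nat_lit 57847) (nat_lit 252) (.e (nat_lit 57436) (nat_lit 17) (.e (nat_lit 376842) (nat_lit 11) .nil)))) .nil))) (.nd (nat_lit 6) 
(.lf (nat_lit 235947) (.g (nat_lit 1867) (.e (nat_lit 114710) (nat_lit 21) (.e (nat_lit 57847) (nat_lit 252) (.e (nat_lit 57430) (nat_lit 16) (.e (nat_lit 368676) (nat_lit 21) (.e (nat_lit 516131) (nat_lit 3) (.e (nat_lit 221219) (nat_lit 24) (.e (nat_lit 213001) (nat_lit 9) (.e (nat_lit 125) (nat_lit 5) .nil)))))))) (.g (nat_lit 5) .nil .nil))) 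
(.lf (nat_lit 236011) (.g (nat_lit 1927) (.e (nat_lit 114710) (nat_lit 21) (.e (nat_lit 57848) (nat_lit 252) (.e (nat_lit 57436) (nat_lit 17) (.e (nat_lit 376842) (nat_lit 11) (.e (nat_lit 426186) (nat_lit 9) (.e (nat_lit 426446) (nat_lit 20) .nil)))))) (.g (nat_lit 4) .nil .nil))))) (.nd (nat_lit 5) (.nd (nat_lit 6) 
(.lf (nat_lit 235931) (.g (nat_lit 1448) (.e (nat_lit 114710) (nat_lit 21) (.e (nat_lit 57847) (nat_lit 252) (.e (nat_lit 57424) (nat_lit 14) (.e (nat_lit 352277) (nat_lit 11) .nil)))) .nil)) 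
(.lf (nat_lit 235995) (.g (nat_lit 534) (.e (nat_lit 114710) (nat_lit 21) (.e (nat_lit 57847) (nat_lit 252) (.e (nat_lit 57440) (nat_lit 18) .nil))) .nil))) (.nd (nat_lit 6) 
(.lf (nat_lit 235963) (.g (nat_lit 1743) (.e (nat_lit 114710) (nat_lit 21) (.e (nat_lit 57847) (nat_lit 252) (.e (nat_lit 57432) (nat_lit 16) (.e (nat_lit 368676) (nat_lit 21) (.e (nat_lit 516131) (nat_lit 3) (.e (nat_lit 221219) (nat_lit 24) (.e (nat_lit 213001) (nat_lit 9) (.e (nat_lit 125) (nat_lit 5) .nil)))))))) (.g (nat_lit 5) .nil .nil))) 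
(.lf (nat_lit 236027) (.g (nat_lit 979) (.e (nat_lit 114710) (nat_lit 21) (.e (nat_lit 57849) (nat_lit 252) (.e (nat_lit 57437) (nat_lit 17) (.e (nat_lit 376840) (nat_lit 11) .nil)))) .nil)))))) (.nd (nat_lit 3) (.nd (nat_lit 4) (.nd (nat_lit 5) (.nd (nat_lit 6) 
(.lf (nat_lit 235911) (.g (nat_lit 1304) (.e (nat_lit 114710) (nat_lit 21) (.e (nat_lit 57847) (nat_lit 252) (.e (nat_lit 57407) (nat_lit 12) (.e (nat_lit 343808) (nat_lit 13) .nil)))) .nil)) 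
(.lf (nat_lit 235975) (.g (nat_lit 1214) (.e (nat_lit 114710) (nat_lit 21) (.e (nat_lit 57847) (nat_lit 252) (.e (nat_lit 57436) (nat_lit 17) (.e (nat_lit 376840) (nat_lit 11) .nil)))) .nil))) (.nd (nat_lit 6) 
(.lf (nat_lit 235943) (.g (nat_lit 2097) (.e (nat_lit 114710) (nat_lit 21) (.e (nat_lit 57847) (nat_lit 252) (.e (nat_lit 57430) (nat_lit 16) (.e (nat_lit 368676) (nat_lit 21) (.e (nat_lit 516131) (nat_lit 3) (.e (nat_lit 221218) (nat_lit 24) (.e (nat_lit 213006) (nat_lit 9) (.e (nat_lit 124) (nat_lit 5) .nil)))))))) (.g (nat_lit 5) .nil .nil))) 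
(.lf (nat_lit 236007) (.g (nat_lit 2079) (.e (nat_lit 114710) (nat_lit 21) (.e (nat_lit 57848) (nat_lit 252) (.e (nat_lit 57424) (nat_lit 14) (.e (nat_lit 352277) (nat_lit 11) (.e (nat_lit 426190) (nat_lit 9) .nil))))) .nil)))) (.nd (nat_lit 5) (.nd (nat_lit 6) 
(.lf (nat_lit 235927) (.g (nat_lit 1655) (.e (nat_lit 114710) (nat_lit 21) (.e (nat_lit 57847) (nat_lit 252) (.e (nat_lit 57424) (nat_lit 14) (.e (nat_lit 352273) (nat_lit 11) .nil)))) .nil)) 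
(.lf (nat_lit 235991) (.g (nat_lit 2211) (.e (nat_lit 114710) (nat_lit 21) (.e (nat_lit 57847) (nat_lit 252) (.e (nat_lit 57437) (nat_lit 17) (.e (nat_lit 376842) (nat_lit 11) (.e (nat_lit 426258) (nat_lit 9) (.e (nat_lit 426447) (nat_lit 20) .nil)))))) (.g (nat_lit 4) .nil .nil)))) (.nd (nat_lit 6) 
(.lf (nat_lit 235959) (.g (nat_lit 2037) (.e (nat_lit 114710) (nat_lit 21) (.e (nat_lit 57847) (nat_lit 252) (.e (nat_lit 57432) (nat_lit 16) (.e (nat_lit 368676) (nat_lit 21) (.e (nat_lit 516131) (nat_lit 3) (.e (nat_lit 221218) (nat_lit 24) (.e (nat_lit 213007) (nat_lit 9) (.e (nat_lit 122) (nat_lit 5) .nil)))))))) (.g (nat_lit 5) .nil .nil))) 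
(.lf (nat_lit 236023) (.g (nat_lit 2307) (.e (nat_lit 114710) (nat_lit 21) (.e (nat_lit 57849) (nat_lit 252) (.e (nat_lit 57435) (nat_lit 17) (.e (nat_lit 376842) (nat_lit 11) (.e (nat_lit 426186) (nat_lit 9) (.e (nat_lit 426446) (nat_lit 20) .nil)))))) (.g (nat_lit 4) .nil .nil)))))) (.nd (nat_lit 4) (.nd (nat_lit 5) (.nd (nat_lit 6) 
(.lf (nat_lit 235919) (.g (nat_lit 2003) (.e (nat_lit 114710) (nat_lit 21) (.e (nat_lit 57847) (nat_lit 252) (.e (nat_lit 57418) (nat_lit 12) (.e (nat_lit 336213) (nat_lit 13) (.e (nat_lit 393270) (nat_lit 23) .nil))))) .nil)) 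
(.lf (nat_lit 235983) (.g (nat_lit 1037) (.e (nat_lit 114710) (nat_lit 21) (.e (nat_lit 57847) (nat_lit 252) (.e (nat_lit 57436) (nat_lit 17) (.e (nat_lit 384768) (nat_lit 16) .nil)))) .nil))) (.nd (nat_lit 6) 
(.lf (nat_lit 235951) (.g (nat_lit 1762) (.e (nat_lit 114710) (nat_lit 21) (.e (nat_lit 57847) (nat_lit 252) (.e (nat_lit 57430) (nat_lit 16) (.e (nat_lit 368676) (nat_lit 21) (.e (nat_lit 516131) (nat_lit 3) (.e (nat_lit 221219) (nat_lit 24) (.e (nat_lit 213006) (nat_lit 9) (.e (nat_lit 122) (nat_lit 5) .nil)))))))) (.g (nat_lit 5) .nil .nil))) 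
(.lf (nat_lit 236015) (.g (nat_lit 1745) (.e (nat_lit 114710) (nat_lit 21) (.e (nat_lit 57848) (nat_lit 252) (.e (nat_lit 57437) (nat_lit 17) (.e (nat_lit 376840) (nat_lit 11) (.e (nat_lit 426234) (nat_lit 9) (.e (nat_lit 426447) (nat_lit 20) .nil)))))) (.g (nat_lit 6) .nil .nil))))) (.nd (nat_lit 5) (.nd (nat_lit 6) 
(.lf (nat_lit 235935) (.g (nat_lit 2740) (.e (nat_lit 114710) (nat_lit 21) (.e (nat_lit 57847) (nat_lit 252) (.e (nat_lit 57427) (nat_lit 15) (.e (nat_lit 360451) (nat_lit 0) (.e (nat_lit 6923) (nat_lit 371) (.e (nat_lit 2628) (nat_lit 164) (.e (nat_lit 179968) (nat_lit 20) .nil))))))) (.g (nat_lit 4) .nil .nil))) 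
(.lf (nat_lit 235999) (.g (nat_lit 2499) (.e (nat_lit 114710) (nat_lit 21) (.e (nat_lit 57848) (nat_lit 252) (.e (nat_lit 57407) (nat_lit 12) (.e (nat_lit 336019) (nat_lit 3) (.e (nat_lit 98341) (nat_lit 20) (.e (nat_lit 229120) (nat_lit 1) (.e (nat_lit 57849) (nat_lit 252) (.e (nat_lit 57390) (nat_lit 5) .nil)))))))) (.g (nat_lit 4) .nil .nil)))) (.nd (nat_lit 6) 
(.lf (nat_lit 235967) (.g (nat_lit 1807) (.e (nat_lit 114710) (nat_lit 21) (.e (nat_lit 57847) (nat_lit 252) (.e (nat_lit 57434) (nat_lit 17) (.e (nat_lit 376842) (nat_lit 11) (.e (nat_lit 426186) (nat_lit 9) .nil))))) .nil)) 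
(.lf (nat_lit 236031) (.g (nat_lit 1253) (.e (nat_lit 114710) (nat_lit 21) (.e (nat_lit 57851) (nat_lit 252) (.e (nat_lit 57347) (nat_lit 0) (.e (nat_lit 2029) (nat_lit 140) .nil)))) .nil)))))))))

noncomputable def tv3079 : DT := (.nd (nat_lit 0) (.nd (nat_lit 1) (.nd (nat_lit 2) (.nd (nat_lit 3) (.nd (nat_lit 4) (.nd (nat_lit 5) (.nd (nat_lit 6) 
(.lf (nat_lit 236032) (.g (nat_lit 1902) (.e (nat_lit 114710) (nat_lit 21) (.e (nat_lit 57851) (nat_lit 252) (.e (nat_lit 57347) (nat_lit 0) (.e (nat_lit 2029) (nat_lit 140) (.e (nat_lit 688181) (nat_lit 17) (.e (nat_lit 73755) (nat_lit 8) (.e (nat_lit 557097) (nat_lit 13) (.e (nat_lit 179968) (nat_lit 20) .nil)))))))) (.g (nat_lit 4) .nil .nil))) 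
(.lf (nat_lit 236096) (.g (nat_lit 763) (.e (nat_lit 114710) (nat_lit 21) (.e (nat_lit 57852) (nat_lit 252) (.e (nat_lit 57413) (nat_lit 12) .nil))) .nil))) (.nd (nat_lit 6) 
(.lf (nat_lit 236064) (.g (nat_lit 2117) (.e (nat_lit 114710) (nat_lit 21) (.e (nat_lit 57851) (nat_lit 252) (.e (nat_lit 57427) (nat_lit 15) (.e (nat_lit 360487) (nat_lit 19) (.e (nat_lit 753688) (nat_lit 9) (.e (nat_lit 179968) (nat_lit 20) .nil)))))) (.g (nat_lit 5) .nil .nil))) 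
(.lf (nat_lit 236128) (.g (nat_lit 373) (.e (nat_lit 114710) (nat_lit 21) (.e (nat_lit 57852) (nat_lit 252) (.e (nat_lit 57423) (nat_lit 14) .nil))) .nil)))) (.nd (nat_lit 5) (.nd (nat_lit 6) 
(.lf (nat_lit 236048) (.g (nat_lit 755) (.e (nat_lit 114710) (nat_lit 21) (.e (nat_lit 57851) (nat_lit 252) (.e (nat_lit 57421) (nat_lit 13) (.e (nat_lit 344149) (nat_lit 33) .nil)))) .nil)) 
(.lf (nat_lit 236112) (.g (nat_lit 1402) (.e (nat_lit 114710) (nat_lit 21) (.e (nat_lit 57852) (nat_lit 252) (.e (nat_lit 57419) (nat_lit 12) (.e (nat_lit 336076) (nat_lit 9) (.e (nat_lit 336427) (nat_lit 29) .nil))))) .nil))) (.nd (nat_lit 6) 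
(.lf (nat_lit 236080) (.g (nat_lit 843) (.e (nat_lit 114710) (nat_lit 21) (.e (nat_lit 57852) (nat_lit 252) (.e (nat_lit 57409) (nat_lit 12) (.e (nat_lit 336019) (nat_lit 3) .nil)))) .nil)) 
(.lf (nat_lit 236144) (.g (nat_lit 1531) (.e (nat_lit 114710) (nat_lit 21) (.e (nat_lit 57852) (nat_lit 252) (.e (nat_lit 57427) (nat_lit 15) (.e (nat_lit 360487) (nat_lit 19) .nil)))) .nil))))) (.nd (nat_lit 4) (.nd (nat_lit 5) (.nd (nat_lit 6) 
(.lf (nat_lit 236040) (.g (nat_lit 2563) (.e (nat_lit 114710) (nat_lit 21) (.e (nat_lit 57851) (nat_lit 252) (.e (nat_lit 57347) (nat_lit 0) (.e (nat_lit 2203) (nat_lit 144) (.e (nat_lit 720956) (nat_lit 25) (.e (nat_lit 114716) (nat_lit 22) (.e (nat_lit 90168) (nat_lit 13) (.e (nat_lit 179968) (nat_lit 20) .nil)))))))) (.g (nat_lit 6) .nil .nil))) 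
(.lf (nat_lit 236104) (.g (nat_lit 2891) (.e (nat_lit 114710) (nat_lit 21) (.e (nat_lit 57852) (nat_lit 252) (.e (nat_lit 57417) (nat_lit 12) (.e (nat_lit 336209) (nat_lit 13) (.e (nat_lit 393270) (nat_lit 23) (.e (nat_lit 426448) (nat_lit 20) .nil)))))) (.g (nat_lit 0) .nil .nil)))) (.nd (nat_lit 6) 
(.lf (nat_lit 236072) (.g (nat_lit 3091) (.e (nat_lit 114710) (nat_lit 21) (.e (nat_lit 57851) (nat_lit 252) (.e (nat_lit 57436) (nat_lit 17) (.e (nat_lit 376842) (nat_lit 11) (.e (nat_lit 426190) (nat_lit 9) (.e (nat_lit 426448) (nat_lit 20) .nil)))))) (.g (nat_lit 0) .nil .nil))) 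
(.lf (nat_lit 236136) (.g (nat_lit 780) (.e (nat_lit 114710) (nat_lit 21) (.e (nat_lit 57852) (nat_lit 252) (.e (nat_lit 57426) (nat_lit 15) .nil))) .nil)))) (.nd (nat_lit 5) (.nd (nat_lit 6) 
(.lf (nat_lit 236056) (.g (nat_lit 1255) (.e (nat_lit 114710) (nat_lit 21) (.e (nat_lit 57851) (nat_lit 252) (.e (nat_lit 57424) (nat_lit 14) (.e (nat_lit 352277) (nat_lit 11) .nil)))) .nil)) 
(.lf (nat_lit 236120) (.g (nat_lit 2502) (.e (nat_lit 114710) (nat_lit 21) (.e (nat_lit 57852) (nat_lit 252) (.e (nat_lit 57419) (nat_lit 12) (.e (nat_lit 336213) (nat_lit 13) (.e (nat_lit 393279) (nat_lit 23) (.e (nat_lit 433920) (nat_lit 20) .nil)))))) (.g (nat_lit 5) .nil .nil)))) (.nd (nat_lit 6) 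
(.lf (nat_lit 236088) (.g (nat_lit 2946) (.e (nat_lit 114710) (nat_lit 21) (.e (nat_lit 57852) (nat_lit 252) (.e (nat_lit 57409) (nat_lit 12) (.e (nat_lit 336211) (nat_lit 13) (.e (nat_lit 393268) (nat_lit 23) (.e (nat_lit 433920) (nat_lit 20) .nil)))))) (.g (nat_lit 5) .nil .nil))) 
(.lf (nat_lit 236152) (.g (nat_lit 973) (.e (nat_lit 114710) (nat_lit 21) (.e (nat_lit 57852) (nat_lit 252) (.e (nat_lit 57434) (nat_lit 17) (.e (nat_lit 384768) (nat_lit 13) .nil)))) .nil)))))) (.nd (nat_lit 3) (.nd (nat_lit 4) (.nd (nat_lit 5) (.nd (nat_lit 6) 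
(.lf (nat_lit 236036) (.g (nat_lit 1529) (.e (nat_lit 114710) (nat_lit 21) (.e (nat_lit 57851) (nat_lit 252) (.e (nat_lit 57347) (nat_lit 0) (.e (nat_lit 2202) (nat_lit 144) (.e (nat_lit 720956) (nat_lit 25) .nil))))) .nil)) 
(.lf (nat_lit 236100) (.g (nat_lit 1010) (.e (nat_lit 114710) (nat_lit 21) (.e (nat_lit 57852) (nat_lit 252) (.e (nat_lit 57417) (nat_lit 12) (.e (nat_lit 336116) (nat_lit 9) .nil)))) .nil))) (.nd (nat_lit 6) 
(.lf (nat_lit 236068) (.g (nat_lit 3207) (.e (nat_lit 114710) (nat_lit 21) (.e (nat_lit 57851) (nat_lit 252) (.e (nat_lit 57435) (nat_lit 17) (.e (nat_lit 376842) (nat_lit 11) (.e (nat_lit 426190) (nat_lit 9) (.e (nat_lit 426448) (nat_lit 20) .nil)))))) (.g (nat_lit 0) .nil .nil))) 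
(.lf (nat_lit 236132) (.g (nat_lit 2018) (.e (nat_lit 114710) (nat_lit 21) (.e (nat_lit 57852) (nat_lit 252) (.e (nat_lit 57424) (nat_lit 14) (.e (nat_lit 352273) (nat_lit 11) (.e (nat_lit 426190) (nat_lit 9) .nil))))) .nil)))) (.nd (nat_lit 5) (.nd (nat_lit 6) 
(.lf (nat_lit 236052) (.g (nat_lit 1425) (.e (nat_lit 114710) (nat_lit 21) (.e (nat_lit 57851) (nat_lit 252) (.e (nat_lit 57424) (nat_lit 14) (.e (nat_lit 352273) (nat_lit 11) .nil)))) .nil)) 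
(.lf (nat_lit 236116) (.g (nat_lit 1725) (.e (nat_lit 114710) (nat_lit 21) (.e (nat_lit 57852) (nat_lit 252) (.e (nat_lit 57419) (nat_lit 12) (.e (nat_lit 336077) (nat_lit 9) (.e (nat_lit 336443) (nat_lit 32) (.e (nat_lit 474880) (nat_lit 5) .nil)))))) (.g (nat_lit 5) .nil .nil)))) (.nd (nat_lit 6) 
(.lf (nat_lit 236084) (.g (nat_lit 1523) (.e (nat_lit 114710) (nat_lit 21) (.e (nat_lit 57852) (nat_lit 252) (.e (nat_lit 57409) (nat_lit 12) (.e (nat_lit 336115) (nat_lit 9) (.e (nat_lit 343808) (nat_lit 29) (.e (nat_lit 450304) (nat_lit 5) .nil)))))) (.g (nat_lit 4) .nil .nil))) 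
(.lf (nat_lit 236148) (.g (nat_lit 2084) (.e (nat_lit 114710) (nat_lit 21) (.e (nat_lit 57852) (nat_lit 252) (.e (nat_lit 57431) (nat_lit 16) (.e (nat_lit 368676) (nat_lit 21) (.e (nat_lit 516131) (nat_lit 3) (.e (nat_lit 221219) (nat_lit 24) (.e (nat_lit 213000) (nat_lit 9) (.e (nat_lit 124) (nat_lit 5) .nil)))))))) (.g (nat_lit 4) .nil .nil)))))) 
(.nd (nat_lit 4) (.nd (nat_lit 5) (.nd (nat_lit 6) 
(.lf (nat_lit 236044) (.g (nat_lit 1283) (.e (nat_lit 114710) (nat_lit 21) (.e (nat_lit 57851) (nat_lit 252) (.e (nat_lit 57406) (nat_lit 12) (.e (nat_lit 336211) (nat_lit 13) .nil)))) .nil)) 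
(.lf (nat_lit 236108) (.g (nat_lit 1068) (.e (nat_lit 114710) (nat_lit 21) (.e (nat_lit 57852) (nat_lit 252) (.e (nat_lit 57419) (nat_lit 12) (.e (nat_lit 336075) (nat_lit 9) (.e (nat_lit 336427) (nat_lit 29) .nil))))) .nil))) (.nd (nat_lit 6) 
(.lf (nat_lit 236076) (.g (nat_lit 1183) (.e (nat_lit 114710) (nat_lit 21) (.e (nat_lit 57852) (nat_lit 252) (.e (nat_lit 57406) (nat_lit 12) (.e (nat_lit 336114) (nat_lit 9) .nil)))) .nil)) 
(.lf (nat_lit 236140) (.g (nat_lit 3070) (.e (nat_lit 114710) (nat_lit 21) (.e (nat_lit 57852) (nat_lit 252) (.e (nat_lit 57427) (nat_lit 15) (.e (nat_lit 360450) (nat_lit 0) (.e (nat_lit 6923) (nat_lit 371) (.e (nat_lit 2628) (nat_lit 164) (.e (nat_lit 179968) (nat_lit 20) .nil))))))) (.g (nat_lit 4) .nil .nil))))) (.nd (nat_lit 5) (.nd (nat_lit 6) 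
(.lf (nat_lit 236060) (.g (nat_lit 2876) (.e (nat_lit 114710) (nat_lit 21) (.e (nat_lit 57851) (nat_lit 252) (.e (nat_lit 57427) (nat_lit 15) (.e (nat_lit 360451) (nat_lit 0) (.e (nat_lit 6923) (nat_lit 371) (.e (nat_lit 2618) (nat_lit 164) (.e (nat_lit 179968) (nat_lit 20) .nil))))))) (.g (nat_lit 4) .nil .nil))) 
(.lf (nat_lit 236124) (.g (nat_lit 682) (.e (nat_lit 114710) (nat_lit 21) (.e (nat_lit 57852) (nat_lit 252) (.e (nat_lit 57421) (nat_lit 13) .nil))) .nil))) (.nd (nat_lit 6) 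
(.lf (nat_lit 236092) (.g (nat_lit 2055) (.e (nat_lit 114710) (nat_lit 21) (.e (nat_lit 57852) (nat_lit 252) (.e (nat_lit 57409) (nat_lit 12) (.e (nat_lit 336211) (nat_lit 13) (.e (nat_lit 393275) (nat_lit 23) (.e (nat_lit 433920) (nat_lit 20) .nil)))))) (.g (nat_lit 5) .nil .nil))) 
(.lf (nat_lit 236156) (.g (nat_lit 1157) (.e (nat_lit 114710) (nat_lit 21) (.e (nat_lit 57852) (nat_lit 252) (.e (nat_lit 57435) (nat_lit 17) (.e (nat_lit 376840) (nat_lit 11) (.e (nat_lit 426234) (nat_lit 9) (.e (nat_lit 433920) (nat_lit 20) .nil)))))) (.g (nat_lit 4) .nil .nil)))))))) (.nd (nat_lit 2) (.nd (nat_lit 3) (.nd (nat_lit 4) (.nd (nat_lit 5) (.nd (nat_lit 6) 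
(.lf (nat_lit 236034) (.g (nat_lit 1963) (.e (nat_lit 114710) (nat_lit 21) (.e (nat_lit 57851) (nat_lit 252) (.e (nat_lit 57347) (nat_lit 0) (.e (nat_lit 2031) (nat_lit 140) (.e (nat_lit 688182) (nat_lit 17) .nil))))) .nil)) 
(.lf (nat_lit 236098) (.g (nat_lit 412) (.e (nat_lit 114710) (nat_lit 21) (.e (nat_lit 57852) (nat_lit 252) (.e (nat_lit 57417) (nat_lit 12) .nil))) .nil))) (.nd (nat_lit 6) 
(.lf (nat_lit 236066) (.g (nat_lit 920) (.e (nat_lit 114710) (nat_lit 21) (.e (nat_lit 57851) (nat_lit 252) (.e (nat_lit 57435) (nat_lit 17) (.e (nat_lit 376839) (nat_lit 11) .nil)))) .nil)) 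
(.lf (nat_lit 236130) (.g (nat_lit 2022) (.e (nat_lit 114710) (nat_lit 21) (.e (nat_lit 57852) (nat_lit 252) (.e (nat_lit 57423) (nat_lit 14) (.e (nat_lit 352273) (nat_lit 11) (.e (nat_lit 426190) (nat_lit 9) .nil))))) .nil)))) (.nd (nat_lit 5) (.nd (nat_lit 6) 
(.lf (nat_lit 236050) (.g (nat_lit 866) (.e (nat_lit 114710) (nat_lit 21) (.e (nat_lit 57851) (nat_lit 252) (.e (nat_lit 57423) (nat_lit 14) (.e (nat_lit 352276) (nat_lit 11) .nil)))) .nil)) 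
(.lf (nat_lit 236114) (.g (nat_lit 2327) (.e (nat_lit 114710) (nat_lit 21) (.e (nat_lit 57852) (nat_lit 252) (.e (nat_lit 57419) (nat_lit 12) (.e (nat_lit 336076) (nat_lit 9) (.e (nat_lit 336443) (nat_lit 32) (.e (nat_lit 474880) (nat_lit 5) .nil)))))) (.g (nat_lit 5) .nil .nil)))) (.nd (nat_lit 6) 
(.lf (nat_lit 236082) (.g (nat_lit 1353) (.e (nat_lit 114710) (nat_lit 21) (.e (nat_lit 57852) (nat_lit 252) (.e (nat_lit 57409) (nat_lit 12) (.e (nat_lit 336115) (nat_lit 9) (.e (nat_lit 336427) (nat_lit 29) .nil))))) .nil)) 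
(.lf (nat_lit 236146) (.g (nat_lit 2136) (.e (nat_lit 114710) (nat_lit 21) (.e (nat_lit 57852) (nat_lit 252) (.e (nat_lit 57427) (nat_lit 15) (.e (nat_lit 360487) (nat_lit 19) (.e (nat_lit 753689) (nat_lit 9) (.e (nat_lit 179968) (nat_lit 20) .nil)))))) (.g (nat_lit 5) .nil .nil)))))) (.nd (nat_lit 4) (.nd (nat_lit 5) (.nd (nat_lit 6) 
(.lf (nat_lit 236042) (.g (nat_lit 1059) (.e (nat_lit 114710) (nat_lit 21) (.e (nat_lit 57851) (nat_lit 252) (.e (nat_lit 57354) (nat_lit 0) (.e (nat_lit 2201) (nat_lit 144) .nil)))) .nil)) 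
(.lf (nat_lit 236106) (.g (nat_lit 373) (.e (nat_lit 114710) (nat_lit 21) (.e (nat_lit 57852) (nat_lit 252) (.e (nat_lit 57419) (nat_lit 12) .nil))) .nil))) (.nd (nat_lit 6) 
(.lf (nat_lit 236074) (.g (nat_lit 691) (.e (nat_lit 114710) (nat_lit 21) (.e (nat_lit 57852) (nat_lit 252) (.e (nat_lit 57404) (nat_lit 12) .nil))) .nil)) 
(.lf (nat_lit 236138) (.g (nat_lit 1499) (.e (nat_lit 114710) (nat_lit 21) (.e (nat_lit 57852) (nat_lit 252) (.e (nat_lit 57426) (nat_lit 15) (.e (nat_lit 360490) (nat_lit 22) (.e (nat_lit 778314) (nat_lit 2) .nil))))) .nil)))) (.nd (nat_lit 5) (.nd (nat_lit 6) 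
(.lf (nat_lit 236058) (.g (nat_lit 1728) (.e (nat_lit 114710) (nat_lit 21) (.e (nat_lit 57851) (nat_lit 252) (.e (nat_lit 57424) (nat_lit 14) (.e (nat_lit 352278) (nat_lit 11) .nil)))) .nil)) 
(.lf (nat_lit 236122) (.g (nat_lit 875) (.e (nat_lit 114710) (nat_lit 21) (.e (nat_lit 57852) (nat_lit 252) (.e (nat_lit 57420) (nat_lit 13) .nil))) .nil))) (.nd (nat_lit 6) 
(.lf (nat_lit 236090) (.g (nat_lit 2983) (.e (nat_lit 114710) (nat_lit 21) (.e (nat_lit 57852) (nat_lit 252) (.e (nat_lit 57409) (nat_lit 12) (.e (nat_lit 336211) (nat_lit 13) (.e (nat_lit 393270) (nat_lit 23) (.e (nat_lit 426448) (nat_lit 20) .nil)))))) (.g (nat_lit 0) .nil .nil))) 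
(.lf (nat_lit 236154) (.g (nat_lit 1245) (.e (nat_lit 114710) (nat_lit 21) (.e (nat_lit 57852) (nat_lit 252) (.e (nat_lit 57435) (nat_lit 17) (.e (nat_lit 376839) (nat_lit 11) .nil)))) .nil)))))) (.nd (nat_lit 3) (.nd (nat_lit 4) (.nd (nat_lit 5) (.nd (nat_lit 6) 
(.lf (nat_lit 236038) (.g (nat_lit 3857) (.e (nat_lit 114710) (nat_lit 21) (.e (nat_lit 57851) (nat_lit 252) (.e (nat_lit 57347) (nat_lit 0) (.e (nat_lit 2203) (nat_lit 144) (.e (nat_lit 720956) (nat_lit 25) (.e (nat_lit 114715) (nat_lit 22) (.e (nat_lit 90170) (nat_lit 13) (.e (nat_lit 179968) (nat_lit 20) .nil)))))))) (.g (nat_lit 7) .nil .nil))) 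
(.lf (nat_lit 236102) (.g (nat_lit 1502) (.e (nat_lit 114710) (nat_lit 21) (.e (nat_lit 57852) (nat_lit 252) (.e (nat_lit 57417) (nat_lit 12) (.e (nat_lit 336118) (nat_lit 9) (.e (nat_lit 336440) (nat_lit 32) (.e (nat_lit 474880) (nat_lit 5) .nil)))))) (.g (nat_lit 4) .nil .nil)))) (.nd (nat_lit 6) 
(.lf (nat_lit 236070) (.g (nat_lit 1823) (.e (nat_lit 114710) (nat_lit 21) (.e (nat_lit 57851) (nat_lit 252) (.e (nat_lit 57436) (nat_lit 17) (.e (nat_lit 376840) (nat_lit 11) (.e (nat_lit 426230) (nat_lit 9) (.e (nat_lit 426447) (nat_lit 20) .nil)))))) (.g (nat_lit 6) .nil .nil))) 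
(.lf (nat_lit 236134) (.g (nat_lit 1392) (.e (nat_lit 114710) (nat_lit 21) (.e (nat_lit 57852) (nat_lit 252) (.e (nat_lit 57424) (nat_lit 14) (.e (nat_lit 352277) (nat_lit 11) (.e (nat_lit 426189) (nat_lit 9) .nil))))) .nil)))) (.nd (nat_lit 5) (.nd (nat_lit 6) 
(.lf (nat_lit 236054) (.g (nat_lit 1523) (.e (nat_lit 114710) (nat_lit 21) (.e (nat_lit 57851) (nat_lit 252) (.e (nat_lit 57424) (nat_lit 14) (.e (nat_lit 352274) (nat_lit 11) .nil)))) .nil)) 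
(.lf (nat_lit 236118) (.g (nat_lit 1976) (.e (nat_lit 114710) (nat_lit 21) (.e (nat_lit 57852) (nat_lit 252) (.e (nat_lit 57419) (nat_lit 12) (.e (nat_lit 336213) (nat_lit 13) (.e (nat_lit 393279) (nat_lit 23) .nil))))) .nil))) (.nd (nat_lit 6) 
(.lf (nat_lit 236086) (.g (nat_lit 888) (.e (nat_lit 114710) (nat_lit 21) (.e (nat_lit 57852) (nat_lit 252) (.e (nat_lit 57409) (nat_lit 12) (.e (nat_lit 336211) (nat_lit 13) .nil)))) .nil)) 
(.lf (nat_lit 236150) (.g (nat_lit 1967) (.e (nat_lit 114710) (nat_lit 21) (.e (nat_lit 57852) (nat_lit 252) (.e (nat_lit 57431) (nat_lit 16) (.e (nat_lit 368676) (nat_lit 21) (.e (nat_lit 516131) (nat_lit 3) (.e (nat_lit 221219) (nat_lit 24) (.e (nat_lit 213003) (nat_lit 9) (.e (nat_lit 124) (nat_lit 5) .nil)))))))) (.g (nat_lit 4) .nil .nil)))))) 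
(.nd (nat_lit 4) (.nd (nat_lit 5) (.nd (nat_lit 6) 
(.lf (nat_lit 236046) (.g (nat_lit 762) (.e (nat_lit 114710) (nat_lit 21) (.e (nat_lit 57851) (nat_lit 252) (.e (nat_lit 57412) (nat_lit 12) (.e (nat_lit 336219) (nat_lit 13) .nil)))) .nil)) 
(.lf (nat_lit 236110) (.g (nat_lit 1996) (.e (nat_lit 114710) (nat_lit 21) (.e (nat_lit 57852) (nat_lit 252) (.e (nat_lit 57419) (nat_lit 12) (.e (nat_lit 336075) (nat_lit 9) (.e (nat_lit 336443) (nat_lit 32) (.e (nat_lit 474880) (nat_lit 5) .nil)))))) (.g (nat_lit 5) .nil .nil)))) (.nd (nat_lit 6) 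
(.lf (nat_lit 236078) (.g (nat_lit 1110) (.e (nat_lit 114710) (nat_lit 21) (.e (nat_lit 57852) (nat_lit 252) (.e (nat_lit 57406) (nat_lit 12) (.e (nat_lit 343808) (nat_lit 13) .nil)))) .nil)) 
(.lf (nat_lit 236142) (.g (nat_lit 3025) (.e (nat_lit 114710) (nat_lit 21) (.e (nat_lit 57852) (nat_lit 252) (.e (nat_lit 57427) (nat_lit 15) (.e (nat_lit 360451) (nat_lit 0) (.e (nat_lit 6923) (nat_lit 371) (.e (nat_lit 2619) (nat_lit 164) (.e (nat_lit 179968) (nat_lit 20) .nil))))))) (.g (nat_lit 4) .nil .nil))))) (.nd (nat_lit 5) (.nd (nat_lit 6) 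
(.lf (nat_lit 236062) (.g (nat_lit 3715) (.e (nat_lit 114710) (nat_lit 21) (.e (nat_lit 57851) (nat_lit 252) (.e (nat_lit 57427) (nat_lit 15) (.e (nat_lit 360451) (nat_lit 0) (.e (nat_lit 6923) (nat_lit 371) (.e (nat_lit 2628) (nat_lit 164) (.e (nat_lit 179968) (nat_lit 20) .nil))))))) (.g (nat_lit 6) .nil .nil))) 
(.lf (nat_lit 236126) (.g (nat_lit 3623) (.e (nat_lit 114710) (nat_lit 21) (.e (nat_lit 57852) (nat_lit 252) (.e (nat_lit 57421) (nat_lit 13) (.e (nat_lit 344133) (nat_lit 26) (.e (nat_lit 557098) (nat_lit 13) (.e (nat_lit 172061) (nat_lit 1) (.e (nat_lit 164319) (nat_lit 228) (.e (nat_lit 57388) (nat_lit 5) .nil)))))))) (.g (nat_lit 5) .nil .nil)))) (.nd (nat_lit 6) 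
(.lf (nat_lit 236094) (.g (nat_lit 846) (.e (nat_lit 114710) (nat_lit 21) (.e (nat_lit 57852) (nat_lit 252) (.e (nat_lit 57412) (nat_lit 12) .nil))) .nil)) 
(.lf (nat_lit 236158) (.g (nat_lit 1878) (.e (nat_lit 114710) (nat_lit 21) (.e (nat_lit 57852) (nat_lit 252) (.e (nat_lit 57435) (nat_lit 17) (.e (nat_lit 376840) (nat_lit 11) (.e (nat_lit 426260) (nat_lit 9) (.e (nat_lit 426447) (nat_lit 20) .nil)))))) (.g (nat_lit 0) .nil .nil))))))))) (.nd (nat_lit 1) (.nd (nat_lit 2) (.nd (nat_lit 3) (.nd (nat_lit 4) (.nd (nat_lit 5) (.nd (nat_lit 6) 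
(.lf (nat_lit 236033) (.g (nat_lit 1959) (.e (nat_lit 114710) (nat_lit 21) (.e (nat_lit 57851) (nat_lit 252) (.e (nat_lit 57347) (nat_lit 0) (.e (nat_lit 2031) (nat_lit 140) (.e (nat_lit 688181) (nat_lit 17) .nil))))) .nil)) 
(.lf (nat_lit 236097) (.g (nat_lit 657) (.e (nat_lit 114710) (nat_lit 21) (.e (nat_lit 57852) (nat_lit 252) (.e (nat_lit 57415) (nat_lit 12) (.e (nat_lit 336216) (nat_lit 13) .nil)))) .nil))) (.nd (nat_lit 6) 
(.lf (nat_lit 236065) (.g (nat_lit 2106) (.e (nat_lit 114710) (nat_lit 21) (.e (nat_lit 57851) (nat_lit 252) (.e (nat_lit 57427) (nat_lit 15) (.e (nat_lit 360487) (nat_lit 19) (.e (nat_lit 753689) (nat_lit 9) (.e (nat_lit 179968) (nat_lit 20) .nil)))))) (.g (nat_lit 5) .nil .nil))) 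
(.lf (nat_lit 236129) (.g (nat_lit 1727) (.e (nat_lit 114710) (nat_lit 21) (.e (nat_lit 57852) (nat_lit 252) (.e (nat_lit 57423) (nat_lit 14) (.e (nat_lit 352273) (nat_lit 11) .nil)))) .nil)))) (.nd (nat_lit 5) (.nd (nat_lit 6) 
(.lf (nat_lit 236049) (.g (nat_lit 1418) (.e (nat_lit 114710) (nat_lit 21) (.e (nat_lit 57851) (nat_lit 252) (.e (nat_lit 57423) (nat_lit 14) (.e (nat_lit 352273) (nat_lit 11) .nil)))) .nil)) 
(.lf (nat_lit 236113) (.g (nat_lit 1805) (.e (nat_lit 114710) (nat_lit 21) (.e (nat_lit 57852) (nat_lit 252) (.e (nat_lit 57419) (nat_lit 12) (.e (nat_lit 336076) (nat_lit 9) (.e (nat_lit 336441) (nat_lit 32) (.e (nat_lit 474880) (nat_lit 5) .nil)))))) (.g (nat_lit 4) .nil .nil)))) (.nd (nat_lit 6) 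
(.lf (nat_lit 236081) (.g (nat_lit 956) (.e (nat_lit 114710) (nat_lit 21) (.e (nat_lit 57852) (nat_lit 252) (.e (nat_lit 57409) (nat_lit 12) (.e (nat_lit 336115) (nat_lit 9) .nil)))) .nil)) 
(.lf (nat_lit 236145) (.g (nat_lit 2147) (.e (nat_lit 114710) (nat_lit 21) (.e (nat_lit 57852) (nat_lit 252) (.e (nat_lit 57427) (nat_lit 15) (.e (nat_lit 360487) (nat_lit 19) (.e (nat_lit 753688) (nat_lit 9) (.e (nat_lit 179968) (nat_lit 20) .nil)))))) (.g (nat_lit 5) .nil .nil)))))) (.nd (nat_lit 4) (.nd (nat_lit 5) (.nd (nat_lit 6) 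
(.lf (nat_lit 236041) (.g (nat_lit 2601) (.e (nat_lit 114710) (nat_lit 21) (.e (nat_lit 57851) (nat_lit 252) (.e (nat_lit 57347) (nat_lit 0) (.e (nat_lit 2203) (nat_lit 144) (.e (nat_lit 720956) (nat_lit 25) (.e (nat_lit 114716) (nat_lit 22) (.e (nat_lit 90169) (nat_lit 13) (.e (nat_lit 179968) (nat_lit 20) .nil)))))))) (.g (nat_lit 6) .nil .nil))) 
(.lf (nat_lit 236105) (.g (nat_lit 875) (.e (nat_lit 114710) (nat_lit 21) (.e (nat_lit 57852) (nat_lit 252) (.e (nat_lit 57418) (nat_lit 12) .nil))) .nil))) (.nd (nat_lit 6) 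
(.lf (nat_lit 236073) (.g (nat_lit 1244) (.e (nat_lit 114710) (nat_lit 21) (.e (nat_lit 57852) (nat_lit 252) (.e (nat_lit 57350) (nat_lit 0) (.e (nat_lit 6113) (nat_lit 332) (.e (nat_lit 2406) (nat_lit 157) .nil))))) .nil)) 
(.lf (nat_lit 236137) (.g (nat_lit 1753) (.e (nat_lit 114710) (nat_lit 21) (.e (nat_lit 57852) (nat_lit 252) (.e (nat_lit 57426) (nat_lit 15) (.e (nat_lit 360449) (nat_lit 0) (.e (nat_lit 6923) (nat_lit 371) .nil))))) .nil)))) (.nd (nat_lit 5) (.nd (nat_lit 6) 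
(.lf (nat_lit 236057) (.g (nat_lit 3447) (.e (nat_lit 114710) (nat_lit 21) (.e (nat_lit 57851) (nat_lit 252) (.e (nat_lit 57424) (nat_lit 14) (.e (nat_lit 352277) (nat_lit 11) (.e (nat_lit 426190) (nat_lit 9) (.e (nat_lit 426448) (nat_lit 20) .nil)))))) (.g (nat_lit 0) .nil .nil))) 
(.lf (nat_lit 236121) (.g (nat_lit 902) (.e (nat_lit 114710) (nat_lit 21) (.e (nat_lit 57852) (nat_lit 252) (.e (nat_lit 57419) (nat_lit 12) (.e (nat_lit 336214) (nat_lit 13) .nil)))) .nil))) (.nd (nat_lit 6) 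
(.lf (nat_lit 236089) (.g (nat_lit 2779) (.e (nat_lit 114710) (nat_lit 21) (.e (nat_lit 57852) (nat_lit 252) (.e (nat_lit 57409) (nat_lit 12) (.e (nat_lit 336211) (nat_lit 13) (.e (nat_lit 393270) (nat_lit 23) (.e (nat_lit 426446) (nat_lit 20) .nil)))))) (.g (nat_lit 0) .nil .nil))) 
(.lf (nat_lit 236153) (.g (nat_lit 388) (.e (nat_lit 114710) (nat_lit 21) (.e (nat_lit 57852) (nat_lit 252) (.e (nat_lit 57435) (nat_lit 17) .nil))) .nil)))))) (.nd (nat_lit 3) (.nd (nat_lit 4) (.nd (nat_lit 5) (.nd (nat_lit 6) 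
(.lf (nat_lit 236037) (.g (nat_lit 4106) (.e (nat_lit 114710) (nat_lit 21) (.e (nat_lit 57851) (nat_lit 252) (.e (nat_lit 57347) (nat_lit 0) (.e (nat_lit 2203) (nat_lit 144) (.e (nat_lit 720954) (nat_lit 25) (.e (nat_lit 114714) (nat_lit 22) (.e (nat_lit 90170) (nat_lit 13) (.e (nat_lit 179968) (nat_lit 20) .nil)))))))) (.g (nat_lit 7) .nil .nil))) 
(.lf (nat_lit 236101) (.g (nat_lit 2107) (.e (nat_lit 114710) (nat_lit 21) (.e (nat_lit 57852) (nat_lit 252) (.e (nat_lit 57417) (nat_lit 12) (.e (nat_lit 336116) (nat_lit 9) (.e (nat_lit 336442) (nat_lit 32) (.e (nat_lit 474880) (nat_lit 5) .nil)))))) (.g (nat_lit 5) .nil .nil)))) (.nd (nat_lit 6) 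
(.lf (nat_lit 236069) (.g (nat_lit 3222) (.e (nat_lit 114710) (nat_lit 21) (.e (nat_lit 57851) (nat_lit 252) (.e (nat_lit 57435) (nat_lit 17) (.e (nat_lit 376842) (nat_lit 11) (.e (nat_lit 426200) (nat_lit 9) (.e (nat_lit 426448) (nat_lit 20) .nil)))))) (.g (nat_lit 0) .nil .nil))) 
(.lf (nat_lit 236133) (.g (nat_lit 2086) (.e (nat_lit 114710) (nat_lit 21) (.e (nat_lit 57852) (nat_lit 252) (.e (nat_lit 57424) (nat_lit 14) (.e (nat_lit 352274) (nat_lit 11) .nil)))) .nil)))) (.nd (nat_lit 5) (.nd (nat_lit 6) 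
(.lf (nat_lit 236053) (.g (nat_lit 1796) (.e (nat_lit 114710) (nat_lit 21) (.e (nat_lit 57851) (nat_lit 252) (.e (nat_lit 57424) (nat_lit 14) (.e (nat_lit 352273) (nat_lit 11) (.e (nat_lit 426189) (nat_lit 9) .nil))))) .nil)) 
(.lf (nat_lit 236117) (.g (nat_lit 3275) (.e (nat_lit 114710) (nat_lit 21) (.e (nat_lit 57852) (nat_lit 252) (.e (nat_lit 57419) (nat_lit 12) (.e (nat_lit 336213) (nat_lit 13) (.e (nat_lit 393270) (nat_lit 23) (.e (nat_lit 426448) (nat_lit 20) .nil)))))) (.g (nat_lit 0) .nil .nil)))) (.nd (nat_lit 6) 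
(.lf (nat_lit 236085) (.g (nat_lit 1509) (.e (nat_lit 114710) (nat_lit 21) (.e (nat_lit 57852) (nat_lit 252) (.e (nat_lit 57409) (nat_lit 12) (.e (nat_lit 336115) (nat_lit 9) (.e (nat_lit 343808) (nat_lit 32) (.e (nat_lit 474880) (nat_lit 5) .nil)))))) (.g (nat_lit 4) .nil .nil))) 
(.lf (nat_lit 236149) (.g (nat_lit 1974) (.e (nat_lit 114710) (nat_lit 21) (.e (nat_lit 57852) (nat_lit 252) (.e (nat_lit 57431) (nat_lit 16) (.e (nat_lit 368676) (nat_lit 21) (.e (nat_lit 516131) (nat_lit 3) (.e (nat_lit 221219) (nat_lit 24) (.e (nat_lit 213001) (nat_lit 9) (.e (nat_lit 124) (nat_lit 5) .nil)))))))) (.g (nat_lit 4) .nil .nil)))))) 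
(.nd (nat_lit 4) (.nd (nat_lit 5) (.nd (nat_lit 6) 
(.lf (nat_lit 236045) (.g (nat_lit 977) (.e (nat_lit 114710) (nat_lit 21) (.e (nat_lit 57851) (nat_lit 252) (.e (nat_lit 57406) (nat_lit 12) (.e (nat_lit 343808) (nat_lit 13) .nil)))) .nil)) 
(.lf (nat_lit 236109) (.g (nat_lit 1823) (.e (nat_lit 114710) (nat_lit 21) (.e (nat_lit 57852) (nat_lit 252) (.e (nat_lit 57419) (nat_lit 12) (.e (nat_lit 336075) (nat_lit 9) (.e (nat_lit 336428) (nat_lit 29) (.e (nat_lit 450304) (nat_lit 5) .nil)))))) (.g (nat_lit 5) .nil .nil)))) (.nd (nat_lit 6) 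
(.lf (nat_lit 236077) (.g (nat_lit 1183) (.e (nat_lit 114710) (nat_lit 21) (.e (nat_lit 57852) (nat_lit 252) (.e (nat_lit 57406) (nat_lit 12) (.e (nat_lit 336117) (nat_lit 9) .nil)))) .nil)) 
(.lf (nat_lit 236141) (.g (nat_lit 3077) (.e (nat_lit 114710) (nat_lit 21) (.e (nat_lit 57852) (nat_lit 252) (.e (nat_lit 57427) (nat_lit 15) (.e (nat_lit 360451) (nat_lit 0) (.e (nat_lit 6923) (nat_lit 371) (.e (nat_lit 2618) (nat_lit 164) (.e (nat_lit 179968) (nat_lit 20) .nil))))))) (.g (nat_lit 4) .nil .nil))))) (.nd (nat_lit 5) (.nd (nat_lit 6) 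
(.lf (nat_lit 236061) (.g (nat_lit 2824) (.e (nat_lit 114710) (nat_lit 21) (.e (nat_lit 57851) (nat_lit 252) (.e (nat_lit 57427) (nat_lit 15) (.e (nat_lit 360451) (nat_lit 0) (.e (nat_lit 6923) (nat_lit 371) (.e (nat_lit 2619) (nat_lit 164) (.e (nat_lit 179968) (nat_lit 20) .nil))))))) (.g (nat_lit 4) .nil .nil))) 
(.lf (nat_lit 236125) (.g (nat_lit 1064) (.e (nat_lit 114710) (nat_lit 21) (.e (nat_lit 57852) (nat_lit 252) (.e (nat_lit 57421) (nat_lit 13) (.e (nat_lit 344071) (nat_lit 8) .nil)))) .nil))) (.nd (nat_lit 6) 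
(.lf (nat_lit 236093) (.g (nat_lit 1433) (.e (nat_lit 114710) (nat_lit 21) (.e (nat_lit 57852) (nat_lit 252) (.e (nat_lit 57409) (nat_lit 12) (.e (nat_lit 336211) (nat_lit 13) (.e (nat_lit 393279) (nat_lit 23) .nil))))) .nil)) 
(.lf (nat_lit 236157) (.g (nat_lit 1484) (.e (nat_lit 114710) (nat_lit 21) (.e (nat_lit 57852) (nat_lit 252) (.e (nat_lit 57435) (nat_lit 17) (.e (nat_lit 376840) (nat_lit 11) (.e (nat_lit 426259) (nat_lit 9) (.e (nat_lit 433920) (nat_lit 20) .nil)))))) (.g (nat_lit 5) .nil .nil)))))))) (.nd (nat_lit 2) (.nd (nat_lit 3) (.nd (nat_lit 4) (.nd (nat_lit 5) (.nd (nat_lit 6) 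
(.lf (nat_lit 236035) (.g (nat_lit 1360) (.e (nat_lit 114710) (nat_lit 21) (.e (nat_lit 57851) (nat_lit 252) (.e (nat_lit 57347) (nat_lit 0) (.e (nat_lit 2198) (nat_lit 144) (.e (nat_lit 720956) (nat_lit 25) .nil))))) .nil)) 
(.lf (nat_lit 236099) (.g (nat_lit 1784) (.e (nat_lit 114710) (nat_lit 21) (.e (nat_lit 57852) (nat_lit 252) (.e (nat_lit 57417) (nat_lit 12) (.e (nat_lit 336113) (nat_lit 9) .nil)))) .nil))) (.nd (nat_lit 6) 
(.lf (nat_lit 236067) (.g (nat_lit 1079) (.e (nat_lit 114710) (nat_lit 21) (.e (nat_lit 57851) (nat_lit 252) (.e (nat_lit 57435) (nat_lit 17) (.e (nat_lit 376839) (nat_lit 11) (.e (nat_lit 426262) (nat_lit 9) .nil))))) .nil)) 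
(.lf (nat_lit 236131) (.g (nat_lit 1636) (.e (nat_lit 114710) (nat_lit 21) (.e (nat_lit 57852) (nat_lit 252) (.e (nat_lit 57424) (nat_lit 14) (.e (nat_lit 352273) (nat_lit 11) .nil)))) .nil)))) (.nd (nat_lit 5) (.nd (nat_lit 6) 
(.lf (nat_lit 236051) (.g (nat_lit 3183) (.e (nat_lit 114710) (nat_lit 21) (.e (nat_lit 57851) (nat_lit 252) (.e (nat_lit 57423) (nat_lit 14) (.e (nat_lit 352277) (nat_lit 11) (.e (nat_lit 426190) (nat_lit 9) (.e (nat_lit 426448) (nat_lit 20) .nil)))))) (.g (nat_lit 0) .nil .nil))) 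
(.lf (nat_lit 236115) (.g (nat_lit 1465) (.e (nat_lit 114710) (nat_lit 21) (.e (nat_lit 57852) (nat_lit 252) (.e (nat_lit 57419) (nat_lit 12) (.e (nat_lit 336076) (nat_lit 9) (.e (nat_lit 336444) (nat_lit 32) .nil))))) .nil))) (.nd (nat_lit 6) 
(.lf (nat_lit 236083) (.g (nat_lit 1403) (.e (nat_lit 114710) (nat_lit 21) (.e (nat_lit 57852) (nat_lit 252) (.e (nat_lit 57409) (nat_lit 12) (.e (nat_lit 336115) (nat_lit 9) (.e (nat_lit 336428) (nat_lit 29) (.e (nat_lit 450304) (nat_lit 5) .nil)))))) (.g (nat_lit 4) .nil .nil))) 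
(.lf (nat_lit 236147) (.g (nat_lit 1681) (.e (nat_lit 114710) (nat_lit 21) (.e (nat_lit 57852) (nat_lit 252) (.e (nat_lit 57431) (nat_lit 16) (.e (nat_lit 368676) (nat_lit 21) (.e (nat_lit 516131) (nat_lit 3) .nil))))) .nil))))) (.nd (nat_lit 4) (.nd (nat_lit 5) (.nd (nat_lit 6) 
(.lf (nat_lit 236043) (.g (nat_lit 381) (.e (nat_lit 114710) (nat_lit 21) (.e (nat_lit 57851) (nat_lit 252) (.e (nat_lit 57404) (nat_lit 12) .nil))) .nil)) 
(.lf (nat_lit 236107) (.g (nat_lit 1737) (.e (nat_lit 114710) (nat_lit 21) (.e (nat_lit 57852) (nat_lit 252) (.e (nat_lit 57419) (nat_lit 12) (.e (nat_lit 336075) (nat_lit 9) (.e (nat_lit 336426) (nat_lit 29) (.e (nat_lit 450304) (nat_lit 5) .nil)))))) (.g (nat_lit 5) .nil .nil)))) (.nd (nat_lit 6) 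
(.lf (nat_lit 236075) (.g (nat_lit 916) (.e (nat_lit 114710) (nat_lit 21) (.e (nat_lit 57852) (nat_lit 252) (.e (nat_lit 57404) (nat_lit 12) (.e (nat_lit 336089) (nat_lit 9) .nil)))) .nil)) 
(.lf (nat_lit 236139) (.g (nat_lit 2739) (.e (nat_lit 114710) (nat_lit 21) (.e (nat_lit 57852) (nat_lit 252) (.e (nat_lit 57427) (nat_lit 15) (.e (nat_lit 360450) (nat_lit 0) (.e (nat_lit 6923) (nat_lit 371) .nil))))) .nil)))) (.nd (nat_lit 5) (.nd (nat_lit 6) 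
(.lf (nat_lit 236059) (.g (nat_lit 2736) (.e (nat_lit 114710) (nat_lit 21) (.e (nat_lit 57851) (nat_lit 252) (.e (nat_lit 57427) (nat_lit 15) (.e (nat_lit 360450) (nat_lit 0) (.e (nat_lit 6923) (nat_lit 371) (.e (nat_lit 2628) (nat_lit 164) (.e (nat_lit 179968) (nat_lit 20) .nil))))))) (.g (nat_lit 4) .nil .nil))) 
(.lf (nat_lit 236123) (.g (nat_lit 2103) (.e (nat_lit 114710) (nat_lit 21) (.e (nat_lit 57852) (nat_lit 252) (.e (nat_lit 57420) (nat_lit 13) (.e (nat_lit 344117) (nat_lit 21) (.e (nat_lit 516130) (nat_lit 3) .nil))))) .nil))) (.nd (nat_lit 6) 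
(.lf (nat_lit 236091) (.g (nat_lit 1482) (.e (nat_lit 114710) (nat_lit 21) (.e (nat_lit 57852) (nat_lit 252) (.e (nat_lit 57409) (nat_lit 12) (.e (nat_lit 336211) (nat_lit 13) (.e (nat_lit 393274) (nat_lit 23) .nil))))) .nil)) 
(.lf (nat_lit 236155) (.g (nat_lit 939) (.e (nat_lit 114710) (nat_lit 21) (.e (nat_lit 57852) (nat_lit 252) (.e (nat_lit 57435) (nat_lit 17) (.e (nat_lit 376840) (nat_lit 11) .nil)))) .nil)))))) (.nd (nat_lit 3) (.nd (nat_lit 4) (.nd (nat_lit 5) (.nd (nat_lit 6) 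
(.lf (nat_lit 236039) (.g (nat_lit 2176) (.e (nat_lit 114710) (nat_lit 21) (.e (nat_lit 57851) (nat_lit 252) (.e (nat_lit 57347) (nat_lit 0) (.e (nat_lit 2203) (nat_lit 144) (.e (nat_lit 720956) (nat_lit 25) (.e (nat_lit 114716) (nat_lit 22) (.e (nat_lit 90167) (nat_lit 13) (.e (nat_lit 179968) (nat_lit 20) .nil)))))))) (.g (nat_lit 5) .nil .nil))) 
(.lf (nat_lit 236103) (.g (nat_lit 1929) (.e (nat_lit 114710) (nat_lit 21) (.e (nat_lit 57852) (nat_lit 252) (.e (nat_lit 57417) (nat_lit 12) (.e (nat_lit 336118) (nat_lit 9) (.e (nat_lit 336442) (nat_lit 32) (.e (nat_lit 474880) (nat_lit 5) .nil)))))) (.g (nat_lit 5) .nil .nil)))) (.nd (nat_lit 6) 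
(.lf (nat_lit 236071) (.g (nat_lit 979) (.e (nat_lit 114710) (nat_lit 21) (.e (nat_lit 57851) (nat_lit 252) (.e (nat_lit 57436) (nat_lit 17) (.e (nat_lit 376841) (nat_lit 11) .nil)))) .nil)) 
(.lf (nat_lit 236135) (.g (nat_lit 2039) (.e (nat_lit 114710) (nat_lit 21) (.e (nat_lit 57852) (nat_lit 252) (.e (nat_lit 57424) (nat_lit 14) (.e (nat_lit 352278) (nat_lit 11) .nil)))) .nil)))) (.nd (nat_lit 5) (.nd (nat_lit 6) 
(.lf (nat_lit 236055) (.g (nat_lit 1275) (.e (nat_lit 114710) (nat_lit 21) (.e (nat_lit 57851) (nat_lit 252) (.e (nat_lit 57424) (nat_lit 14) (.e (nat_lit 352276) (nat_lit 11) .nil)))) .nil)) 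
(.lf (nat_lit 236119) (.g (nat_lit 2672) (.e (nat_lit 114710) (nat_lit 21) (.e (nat_lit 57852) (nat_lit 252) (.e (nat_lit 57419) (nat_lit 12) (.e (nat_lit 336213) (nat_lit 13) (.e (nat_lit 393279) (nat_lit 23) (.e (nat_lit 426447) (nat_lit 20) .nil)))))) (.g (nat_lit 5) .nil .nil)))) (.nd (nat_lit 6) 
(.lf (nat_lit 236087) (.g (nat_lit 2102) (.e (nat_lit 114710) (nat_lit 21) (.e (nat_lit 57852) (nat_lit 252) (.e (nat_lit 57409) (nat_lit 12) (.e (nat_lit 336211) (nat_lit 13) (.e (nat_lit 393266) (nat_lit 23) (.e (nat_lit 433920) (nat_lit 20) .nil)))))) (.g (nat_lit 5) .nil .nil))) 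
(.lf (nat_lit 236151) (.g (nat_lit 875) (.e (nat_lit 114710) (nat_lit 21) (.e (nat_lit 57852) (nat_lit 252) (.e (nat_lit 57434) (nat_lit 17) .nil))) .nil))))) (.nd (nat_lit 4) (.nd (nat_lit 5) (.nd (nat_lit 6) 
(.lf (nat_lit 236047) (.g (nat_lit 1367) (.e (nat_lit 114710) (nat_lit 21) (.e (nat_lit 57851) (nat_lit 252) (.e (nat_lit 57419) (nat_lit 12) (.e (nat_lit 336213) (nat_lit 13) (.e (nat_lit 393269) (nat_lit 23) .nil))))) .nil)) 
(.lf (nat_lit 236111) (.g (nat_lit 2485) (.e (nat_lit 114710) (nat_lit 21) (.e (nat_lit 57852) (nat_lit 252) (.e (nat_lit 57419) (nat_lit 12) (.e (nat_lit 336076) (nat_lit 9) (.e (nat_lit 336426) (nat_lit 29) (.e (nat_lit 450304) (nat_lit 5) .nil)))))) (.g (nat_lit 5) .nil .nil)))) (.nd (nat_lit 6) 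
(.lf (nat_lit 236079) (.g (nat_lit 340) (.e (nat_lit 114710) (nat_lit 21) (.e (nat_lit 57852) (nat_lit 252) (.e (nat_lit 57409) (nat_lit 12) .nil))) .nil)) 
(.lf (nat_lit 236143) (.g (nat_lit 3916) (.e (nat_lit 114710) (nat_lit 21) (.e (nat_lit 57852) (nat_lit 252) (.e (nat_lit 57427) (nat_lit 15) (.e (nat_lit 360451) (nat_lit 0) (.e (nat_lit 6923) (nat_lit 371) (.e (nat_lit 2628) (nat_lit 164) (.e (nat_lit 179968) (nat_lit 20) .nil))))))) (.g (nat_lit 6) .nil .nil))))) (.nd (nat_lit 5) (.nd (nat_lit 6) 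
(.lf (nat_lit 236063) (.g (nat_lit 1353) (.e (nat_lit 114710) (nat_lit 21) (.e (nat_lit 57851) (nat_lit 252) (.e (nat_lit 57427) (nat_lit 15) (.e (nat_lit 360487) (nat_lit 19) .nil)))) .nil)) 
(.lf (nat_lit 236127) (.g (nat_lit 2763) (.e (nat_lit 114710) (nat_lit 21) (.e (nat_lit 57852) (nat_lit 252) (.e (nat_lit 57421) (nat_lit 13) (.e (nat_lit 344133) (nat_lit 26) (.e (nat_lit 557098) (nat_lit 13) (.e (nat_lit 172061) (nat_lit 1) (.e (nat_lit 164319) (nat_lit 228) (.e (nat_lit 57389) (nat_lit 5) .nil)))))))) (.g (nat_lit 4) .nil .nil)))) (.nd (nat_lit 6) 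
(.lf (nat_lit 236095) (.g (nat_lit 1370) (.e (nat_lit 114710) (nat_lit 21) (.e (nat_lit 57852) (nat_lit 252) (.e (nat_lit 57412) (nat_lit 12) (.e (nat_lit 336212) (nat_lit 13) .nil)))) .nil)) 
(.lf (nat_lit 236159) (.g (nat_lit 1466) (.e (nat_lit 114710) (nat_lit 21) (.e (nat_lit 57852) (nat_lit 252) (.e (nat_lit 57435) (nat_lit 17) (.e (nat_lit 376840) (nat_lit 11) (.e (nat_lit 426260) (nat_lit 9) (.e (nat_lit 433920) (nat_lit 20) .nil)))))) (.g (nat_lit 5) .nil .nil))))))))))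

noncomputable def tv3080 : DT := (.nd (nat_lit 0) (.nd (nat_lit 1) (.nd (nat_lit 2) (.nd (nat_lit 3) (.nd (nat_lit 4) (.nd (nat_lit 5) (.nd (nat_lit 6) 
(.lf (nat_lit 236160) (.g (nat_lit 1926) (.e (nat_lit 114710) (nat_lit 21) (.e (nat_lit 57852) (nat_lit 252) (.e (nat_lit 57435) (nat_lit 17) (.e (nat_lit 376840) (nat_lit 11) (.e (nat_lit 426262) (nat_lit 9) (.e (nat_lit 426447) (nat_lit 20) .nil)))))) (.g (nat_lit 0) .nil .nil))) 
(.lf (nat_lit 236224) (.g (nat_lit 3319) (.e (nat_lit 114710) (nat_lit 21) (.e (nat_lit 57854) (nat_lit 252) (.e (nat_lit 57409) (nat_lit 12) (.e (nat_lit 336019) (nat_lit 3) (.e (nat_lit 98342) (nat_lit 20) (.e (nat_lit 221219) (nat_lit 24) (.e (nat_lit 213003) (nat_lit 9) (.e (nat_lit 124) (nat_lit 5) .nil)))))))) (.g (nat_lit 4) .nil .nil)))) (.nd (nat_lit 6) 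
(.lf (nat_lit 236192) (.g (nat_lit 638) (.e (nat_lit 114710) (nat_lit 21) (.e (nat_lit 57853) (nat_lit 252) (.e (nat_lit 57423) (nat_lit 14) .nil))) .nil)) 
(.lf (nat_lit 236256) (.g (nat_lit 3247) (.e (nat_lit 114710) (nat_lit 21) (.e (nat_lit 57854) (nat_lit 252) (.e (nat_lit 57436) (nat_lit 17) (.e (nat_lit 376842) (nat_lit 11) (.e (nat_lit 426190) (nat_lit 9) (.e (nat_lit 426448) (nat_lit 20) .nil)))))) (.g (nat_lit 0) .nil .nil))))) (.nd (nat_lit 5) (.nd (nat_lit 6) 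
(.lf (nat_lit 236176) (.g (nat_lit 2801) (.e (nat_lit 114710) (nat_lit 21) (.e (nat_lit 57852) (nat_lit 252) (.e (nat_lit 57436) (nat_lit 17) (.e (nat_lit 376842) (nat_lit 11) (.e (nat_lit 426188) (nat_lit 9) (.e (nat_lit 433920) (nat_lit 20) .nil)))))) (.g (nat_lit 5) .nil .nil))) 
(.lf (nat_lit 236240) (.g (nat_lit 1178) (.e (nat_lit 114710) (nat_lit 21) (.e (nat_lit 57854) (nat_lit 252) (.e (nat_lit 57409) (nat_lit 12) (.e (nat_lit 343808) (nat_lit 13) .nil)))) .nil))) (.nd (nat_lit 6) 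
(.lf (nat_lit 236208) (.g (nat_lit 1998) (.e (nat_lit 114710) (nat_lit 21) (.e (nat_lit 57853) (nat_lit 252) (.e (nat_lit 57436) (nat_lit 17) (.e (nat_lit 376840) (nat_lit 11) (.e (nat_lit 426230) (nat_lit 9) (.e (nat_lit 426447) (nat_lit 20) .nil)))))) (.g (nat_lit 6) .nil .nil))) 
(.lf (nat_lit 236272) (.g (nat_lit 439) (.e (nat_lit 114711) (nat_lit 21) (.e (nat_lit 57688) (nat_lit 156) (.e (nat_lit 171776) (nat_lit 65) .nil))) .nil))))) (.nd (nat_lit 4) (.nd (nat_lit 5) (.nd (nat_lit 6) 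
(.lf (nat_lit 236168) (.g (nat_lit 1445) (.e (nat_lit 114710) (nat_lit 21) (.e (nat_lit 57852) (nat_lit 252) (.e (nat_lit 57436) (nat_lit 17) (.e (nat_lit 376838) (nat_lit 11) (.e (nat_lit 426204) (nat_lit 9) .nil))))) .nil)) 
(.lf (nat_lit 236232) (.g (nat_lit 1654) (.e (nat_lit 114710) (nat_lit 21) (.e (nat_lit 57854) (nat_lit 252) (.e (nat_lit 57409) (nat_lit 12) (.e (nat_lit 336117) (nat_lit 9) .nil)))) .nil))) (.nd (nat_lit 6) 
(.lf (nat_lit 236200) (.g (nat_lit 2670) (.e (nat_lit 114710) (nat_lit 21) (.e (nat_lit 57853) (nat_lit 252) (.e (nat_lit 57427) (nat_lit 15) (.e (nat_lit 360451) (nat_lit 0) (.e (nat_lit 6923) (nat_lit 371) .nil))))) .nil)) 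
(.lf (nat_lit 236264) (.g (nat_lit 1888) (.e (nat_lit 114710) (nat_lit 21) (.e (nat_lit 57870) (nat_lit 264) (.e (nat_lit 1220) (nat_lit 90) (.e (nat_lit 81954) (nat_lit 23) (.e (nat_lit 98321) (nat_lit 17) .nil))))) .nil)))) (.nd (nat_lit 5) (.nd (nat_lit 6) 
(.lf (nat_lit 236184) (.g (nat_lit 2073) (.e (nat_lit 114710) (nat_lit 21) (.e (nat_lit 57852) (nat_lit 252) (.e (nat_lit 65280) (nat_lit 66) (.e (nat_lit 221210) (nat_lit 22) (.e (nat_lit 196681) (nat_lit 17) (.e (nat_lit 131086) (nat_lit 1) (.e (nat_lit 57854) (nat_lit 252) (.e (nat_lit 57388) (nat_lit 5) .nil)))))))) (.g (nat_lit 4) .nil .nil))) 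
(.lf (nat_lit 236248) (.g (nat_lit 1840) (.e (nat_lit 114710) (nat_lit 21) (.e (nat_lit 57854) (nat_lit 252) (.e (nat_lit 57424) (nat_lit 14) (.e (nat_lit 352277) (nat_lit 11) .nil)))) .nil))) (.nd (nat_lit 6) 
(.lf (nat_lit 236216) (.g (nat_lit 1326) (.e (nat_lit 114710) (nat_lit 21) (.e (nat_lit 57854) (nat_lit 252) (.e (nat_lit 57406) (nat_lit 12) (.e (nat_lit 343808) (nat_lit 13) .nil)))) .nil)) 
(.lf (nat_lit 236280) (.g (nat_lit 170) (.e (nat_lit 114711) (nat_lit 21) (.e (nat_lit 57844) (nat_lit 252) (.e (nat_lit 57412) (nat_lit 12) .nil))) .nil)))))) (.nd (nat_lit 3) (.nd (nat_lit 4) (.nd (nat_lit 5) (.nd (nat_lit 6) 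
(.lf (nat_lit 236164) (.g (nat_lit 2229) (.e (nat_lit 114710) (nat_lit 21) (.e (nat_lit 57852) (nat_lit 252) (.e (nat_lit 57435) (nat_lit 17) (.e (nat_lit 376842) (nat_lit 11) (.e (nat_lit 426204) (nat_lit 9) (.e (nat_lit 433920) (nat_lit 20) .nil)))))) (.g (nat_lit 5) .nil .nil))) 
(.lf (nat_lit 236228) (.g (nat_lit 1606) (.e (nat_lit 114710) (nat_lit 21) (.e (nat_lit 57854) (nat_lit 252) (.e (nat_lit 57409) (nat_lit 12) (.e (nat_lit 336115) (nat_lit 9) (.e (nat_lit 336427) (nat_lit 29) (.e (nat_lit 450304) (nat_lit 5) .nil)))))) (.g (nat_lit 4) .nil .nil)))) (.nd (nat_lit 6) 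
(.lf (nat_lit 236196) (.g (nat_lit 1324) (.e (nat_lit 114710) (nat_lit 21) (.e (nat_lit 57853) (nat_lit 252) (.e (nat_lit 57424) (nat_lit 14) (.e (nat_lit 352276) (nat_lit 11) .nil)))) .nil)) 
(.lf (nat_lit 236260) (.g (nat_lit 872) (.e (nat_lit 114710) (nat_lit 21) (.e (nat_lit 57854) (nat_lit 252) (.e (nat_lit 57438) (nat_lit 17) (.e (nat_lit 384768) (nat_lit 13) .nil)))) .nil)))) (.nd (nat_lit 5) (.nd (nat_lit 6) 
(.lf (nat_lit 236180) (.g (nat_lit 2139) (.e (nat_lit 114710) (nat_lit 21) (.e (nat_lit 57852) (nat_lit 252) (.e (nat_lit 57436) (nat_lit 17) (.e (nat_lit 376842) (nat_lit 11) (.e (nat_lit 426213) (nat_lit 9) (.e (nat_lit 433920) (nat_lit 20) .nil)))))) (.g (nat_lit 5) .nil .nil))) 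
(.lf (nat_lit 236244) (.g (nat_lit 1805) (.e (nat_lit 114710) (nat_lit 21) (.e (nat_lit 57854) (nat_lit 252) (.e (nat_lit 57423) (nat_lit 14) (.e (nat_lit 352276) (nat_lit 11) (.e (nat_lit 426234) (nat_lit 9) .nil))))) .nil))) (.nd (nat_lit 6) 
(.lf (nat_lit 236212) (.g (nat_lit 1612) (.e (nat_lit 114710) (nat_lit 21) (.e (nat_lit 57853) (nat_lit 252) (.e (nat_lit 57436) (nat_lit 17) (.e (nat_lit 376842) (nat_lit 11) (.e (nat_lit 426199) (nat_lit 9) .nil))))) .nil)) 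
(.lf (nat_lit 236276) (.g (nat_lit 2104) (.e (nat_lit 114711) (nat_lit 21) (.e (nat_lit 57844) (nat_lit 252) (.e (nat_lit 57411) (nat_lit 12) (.e (nat_lit 336211) (nat_lit 13) (.e (nat_lit 393267) (nat_lit 23) (.e (nat_lit 426446) (nat_lit 20) .nil)))))) (.g (nat_lit 4) .nil .nil)))))) (.nd (nat_lit 4) (.nd (nat_lit 5) (.nd (nat_lit 6) 
(.lf (nat_lit 236172) (.g (nat_lit 2068) (.e (nat_lit 114710) (nat_lit 21) (.e (nat_lit 57852) (nat_lit 252) (.e (nat_lit 57436) (nat_lit 17) (.e (nat_lit 376840) (nat_lit 11) (.e (nat_lit 426234) (nat_lit 9) (.e (nat_lit 426447) (nat_lit 20) .nil)))))) (.g (nat_lit 6) .nil .nil))) 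
(.lf (nat_lit 236236) (.g (nat_lit 925) (.e (nat_lit 114710) (nat_lit 21) (.e (nat_lit 57854) (nat_lit 252) (.e (nat_lit 57409) (nat_lit 12) (.e (nat_lit 336211) (nat_lit 13) .nil)))) .nil))) (.nd (nat_lit 6) 
(.lf (nat_lit 236204) (.g (nat_lit 2169) (.e (nat_lit 114710) (nat_lit 21) (.e (nat_lit 57853) (nat_lit 252) (.e (nat_lit 57435) (nat_lit 17) (.e (nat_lit 376842) (nat_lit 11) (.e (nat_lit 426196) (nat_lit 9) .nil))))) .nil)) 
(.lf (nat_lit 236268) (.g (nat_lit 3161) (.e (nat_lit 114710) (nat_lit 21) (.e (nat_lit 57873) (nat_lit 264) (.e (nat_lit 1221) (nat_lit 90) (.e (nat_lit 81956) (nat_lit 23) (.e (nat_lit 98321) (nat_lit 17) .nil))))) .nil)))) (.nd (nat_lit 5) (.nd (nat_lit 6) 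
(.lf (nat_lit 236188) (.g (nat_lit 1253) (.e (nat_lit 114710) (nat_lit 21) (.e (nat_lit 57853) (nat_lit 252) (.e (nat_lit 57412) (nat_lit 12) (.e (nat_lit 336219) (nat_lit 13) .nil)))) .nil)) 
(.lf (nat_lit 236252) (.g (nat_lit 1223) (.e (nat_lit 114710) (nat_lit 21) (.e (nat_lit 57854) (nat_lit 252) (.e (nat_lit 57435) (nat_lit 17) (.e (nat_lit 376839) (nat_lit 11) (.e (nat_lit 426262) (nat_lit 9) .nil))))) .nil))) (.nd (nat_lit 6) 
(.lf (nat_lit 236220) (.g (nat_lit 2861) (.e (nat_lit 114710) (nat_lit 21) (.e (nat_lit 57854) (nat_lit 252) (.e (nat_lit 57409) (nat_lit 12) (.e (nat_lit 336019) (nat_lit 3) (.e (nat_lit 98342) (nat_lit 20) .nil))))) .nil)) 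
(.lf (nat_lit 236284) (.g (nat_lit 1419) (.e (nat_lit 114711) (nat_lit 21) (.e (nat_lit 57844) (nat_lit 252) (.e (nat_lit 57412) (nat_lit 12) (.e (nat_lit 336083) (nat_lit 9) (.e (nat_lit 336428) (nat_lit 29) (.e (nat_lit 450304) (nat_lit 5) .nil)))))) (.g (nat_lit 4) .nil .nil)))))))) (.nd (nat_lit 2) (.nd (nat_lit 3) (.nd (nat_lit 4) (.nd (nat_lit 5) (.nd (nat_lit 6) 
(.lf (nat_lit 236162) (.g (nat_lit 2259) (.e (nat_lit 114710) (nat_lit 21) (.e (nat_lit 57852) (nat_lit 252) (.e (nat_lit 57435) (nat_lit 17) (.e (nat_lit 376842) (nat_lit 11) (.e (nat_lit 426196) (nat_lit 9) (.e (nat_lit 426446) (nat_lit 20) .nil)))))) (.g (nat_lit 4) .nil .nil))) 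
(.lf (nat_lit 236226) (.g (nat_lit 1682) (.e (nat_lit 114710) (nat_lit 21) (.e (nat_lit 57854) (nat_lit 252) (.e (nat_lit 57409) (nat_lit 12) (.e (nat_lit 336114) (nat_lit 9) (.e (nat_lit 336442) (nat_lit 32) (.e (nat_lit 474880) (nat_lit 5) .nil)))))) (.g (nat_lit 4) .nil .nil)))) (.nd (nat_lit 6) 
(.lf (nat_lit 236194) (.g (nat_lit 1490) (.e (nat_lit 114710) (nat_lit 21) (.e (nat_lit 57853) (nat_lit 252) (.e (nat_lit 57424) (nat_lit 14) (.e (nat_lit 352273) (nat_lit 11) .nil)))) .nil)) 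
(.lf (nat_lit 236258) (.g (nat_lit 1847) (.e (nat_lit 114710) (nat_lit 21) (.e (nat_lit 57854) (nat_lit 252) (.e (nat_lit 57436) (nat_lit 17) (.e (nat_lit 376842) (nat_lit 11) (.e (nat_lit 426258) (nat_lit 9) .nil))))) .nil)))) (.nd (nat_lit 5) (.nd (nat_lit 6) 
(.lf (nat_lit 236178) (.g (nat_lit 2296) (.e (nat_lit 114710) (nat_lit 21) (.e (nat_lit 57852) (nat_lit 252) (.e (nat_lit 57436) (nat_lit 17) (.e (nat_lit 376842) (nat_lit 11) (.e (nat_lit 426200) (nat_lit 9) (.e (nat_lit 433920) (nat_lit 20) .nil)))))) (.g (nat_lit 5) .nil .nil))) 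
(.lf (nat_lit 236242) (.g (nat_lit 838) (.e (nat_lit 114710) (nat_lit 21) (.e (nat_lit 57854) (nat_lit 252) (.e (nat_lit 57417) (nat_lit 12) .nil))) .nil))) (.nd (nat_lit 6) 
(.lf (nat_lit 236210) (.g (nat_lit 2531) (.e (nat_lit 114710) (nat_lit 21) (.e (nat_lit 57853) (nat_lit 252) (.e (nat_lit 57436) (nat_lit 17) (.e (nat_lit 376842) (nat_lit 11) (.e (nat_lit 426189) (nat_lit 9) (.e (nat_lit 426446) (nat_lit 20) .nil)))))) (.g (nat_lit 4) .nil .nil))) 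
(.lf (nat_lit 236274) (.g (nat_lit 1056) (.e (nat_lit 114711) (nat_lit 21) (.e (nat_lit 57844) (nat_lit 252) (.e (nat_lit 57409) (nat_lit 12) (.e (nat_lit 336211) (nat_lit 13) .nil)))) .nil))))) (.nd (nat_lit 4) (.nd (nat_lit 5) (.nd (nat_lit 6) 
(.lf (nat_lit 236170) (.g (nat_lit 1060) (.e (nat_lit 114710) (nat_lit 21) (.e (nat_lit 57852) (nat_lit 252) (.e (nat_lit 57436) (nat_lit 17) (.e (nat_lit 376840) (nat_lit 11) .nil)))) .nil)) 
(.lf (nat_lit 236234) (.g (nat_lit 1039) (.e (nat_lit 114710) (nat_lit 21) (.e (nat_lit 57854) (nat_lit 252) (.e (nat_lit 57409) (nat_lit 12) (.e (nat_lit 336210) (nat_lit 13) .nil)))) .nil))) (.nd (nat_lit 6) 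
(.lf (nat_lit 236202) (.g (nat_lit 2815) (.e (nat_lit 114710) (nat_lit 21) (.e (nat_lit 57853) (nat_lit 252) (.e (nat_lit 57427) (nat_lit 15) (.e (nat_lit 360451) (nat_lit 0) (.e (nat_lit 6938) (nat_lit 375) .nil))))) .nil)) 
(.lf (nat_lit 236266) (.g (nat_lit 2124) (.e (nat_lit 114710) (nat_lit 21) (.e (nat_lit 57872) (nat_lit 264) (.e (nat_lit 1219) (nat_lit 90) (.e (nat_lit 81956) (nat_lit 23) (.e (nat_lit 98321) (nat_lit 17) (.e (nat_lit 7936) (nat_lit 220) (.e (nat_lit 720954) (nat_lit 25) .nil))))))) (.g (nat_lit 4) .nil .nil))))) (.nd (nat_lit 5) (.nd (nat_lit 6) 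
(.lf (nat_lit 236186) (.g (nat_lit 665) (.e (nat_lit 114710) (nat_lit 21) (.e (nat_lit 57853) (nat_lit 252) (.e (nat_lit 57412) (nat_lit 12) .nil))) .nil)) 
(.lf (nat_lit 236250) (.g (nat_lit 838) (.e (nat_lit 114710) (nat_lit 21) (.e (nat_lit 57854) (nat_lit 252) (.e (nat_lit 57434) (nat_lit 17) .nil))) .nil))) (.nd (nat_lit 6) 
(.lf (nat_lit 236218) (.g (nat_lit 4172) (.e (nat_lit 114710) (nat_lit 21) (.e (nat_lit 57854) (nat_lit 252) (.e (nat_lit 57409) (nat_lit 12) (.e (nat_lit 336019) (nat_lit 3) (.e (nat_lit 98341) (nat_lit 20) (.e (nat_lit 229120) (nat_lit 1) (.e (nat_lit 57849) (nat_lit 252) (.e (nat_lit 57390) (nat_lit 5) .nil)))))))) (.g (nat_lit 5) .nil .nil))) 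
(.lf (nat_lit 236282) (.g (nat_lit 864) (.e (nat_lit 114711) (nat_lit 21) (.e (nat_lit 57844) (nat_lit 252) (.e (nat_lit 57412) (nat_lit 12) (.e (nat_lit 336083) (nat_lit 9) .nil)))) .nil)))))) (.nd (nat_lit 3) (.nd (nat_lit 4) (.nd (nat_lit 5) (.nd (nat_lit 6) 
(.lf (nat_lit 236166) (.g (nat_lit 1772) (.e (nat_lit 114710) (nat_lit 21) (.e (nat_lit 57852) (nat_lit 252) (.e (nat_lit 57435) (nat_lit 17) (.e (nat_lit 376842) (nat_lit 11) (.e (nat_lit 426258) (nat_lit 9) .nil))))) .nil)) 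
(.lf (nat_lit 236230) (.g (nat_lit 1694) (.e (nat_lit 114710) (nat_lit 21) (.e (nat_lit 57854) (nat_lit 252) (.e (nat_lit 57409) (nat_lit 12) (.e (nat_lit 336115) (nat_lit 9) (.e (nat_lit 343808) (nat_lit 29) (.e (nat_lit 450304) (nat_lit 5) .nil)))))) (.g (nat_lit 4) .nil .nil)))) (.nd (nat_lit 6) 
(.lf (nat_lit 236198) (.g (nat_lit 1888) (.e (nat_lit 114710) (nat_lit 21) (.e (nat_lit 57853) (nat_lit 252) (.e (nat_lit 57424) (nat_lit 14) (.e (nat_lit 352277) (nat_lit 11) (.e (nat_lit 426189) (nat_lit 9) .nil))))) .nil)) 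
(.lf (nat_lit 236262) (.g (nat_lit 1788) (.e (nat_lit 114710) (nat_lit 21) (.e (nat_lit 57855) (nat_lit 253) (.e (nat_lit 122919) (nat_lit 15) (.e (nat_lit 360451) (nat_lit 0) (.e (nat_lit 6923) (nat_lit 371) (.e (nat_lit 2619) (nat_lit 164) (.e (nat_lit 179968) (nat_lit 20) .nil))))))) (.g (nat_lit 4) .nil .nil))))) (.nd (nat_lit 5) (.nd (nat_lit 6) 
(.lf (nat_lit 236182) (.g (nat_lit 588) (.e (nat_lit 114710) (nat_lit 21) (.e (nat_lit 57852) (nat_lit 252) (.e (nat_lit 57438) (nat_lit 17) .nil))) .nil)) 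
(.lf (nat_lit 236246) (.g (nat_lit 1547) (.e (nat_lit 114710) (nat_lit 21) (.e (nat_lit 57854) (nat_lit 252) (.e (nat_lit 57423) (nat_lit 14) (.e (nat_lit 360192) (nat_lit 16) .nil)))) .nil))) (.nd (nat_lit 6) 
(.lf (nat_lit 236214) (.g (nat_lit 552) (.e (nat_lit 114710) (nat_lit 21) (.e (nat_lit 57853) (nat_lit 252) (.e (nat_lit 57438) (nat_lit 17) .nil))) .nil)) 
(.lf (nat_lit 236278) (.g (nat_lit 2013) (.e (nat_lit 114711) (nat_lit 21) (.e (nat_lit 57844) (nat_lit 252) (.e (nat_lit 57411) (nat_lit 12) (.e (nat_lit 336211) (nat_lit 13) (.e (nat_lit 393270) (nat_lit 23) (.e (nat_lit 426446) (nat_lit 20) .nil)))))) (.g (nat_lit 4) .nil .nil)))))) (.nd (nat_lit 4) (.nd (nat_lit 5) (.nd (nat_lit 6) 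
(.lf (nat_lit 236174) (.g (nat_lit 1557) (.e (nat_lit 114710) (nat_lit 21) (.e (nat_lit 57852) (nat_lit 252) (.e (nat_lit 57436) (nat_lit 17) (.e (nat_lit 376840) (nat_lit 11) (.e (nat_lit 426259) (nat_lit 9) (.e (nat_lit 433920) (nat_lit 20) .nil)))))) (.g (nat_lit 5) .nil .nil))) 
(.lf (nat_lit 236238) (.g (nat_lit 2960) (.e (nat_lit 114710) (nat_lit 21) (.e (nat_lit 57854) (nat_lit 252) (.e (nat_lit 57409) (nat_lit 12) (.e (nat_lit 336211) (nat_lit 13) (.e (nat_lit 393270) (nat_lit 23) (.e (nat_lit 426448) (nat_lit 20) .nil)))))) (.g (nat_lit 0) .nil .nil)))) (.nd (nat_lit 6) 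
(.lf (nat_lit 236206) (.g (nat_lit 435) (.e (nat_lit 114710) (nat_lit 21) (.e (nat_lit 57853) (nat_lit 252) (.e (nat_lit 57436) (nat_lit 17) .nil))) .nil)) 
(.lf (nat_lit 236270) (.g (nat_lit 1940) (.e (nat_lit 114710) (nat_lit 21) (.e (nat_lit 57931) (nat_lit 282) (.e (nat_lit 163931) (nat_lit 17) (.e (nat_lit 466980) (nat_lit 23) .nil)))) .nil)))) (.nd (nat_lit 5) (.nd (nat_lit 6) 
(.lf (nat_lit 236190) (.g (nat_lit 535) (.e (nat_lit 114710) (nat_lit 21) (.e (nat_lit 57853) (nat_lit 252) (.e (nat_lit 57419) (nat_lit 12) .nil))) .nil)) 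
(.lf (nat_lit 236254) (.g (nat_lit 2058) (.e (nat_lit 114710) (nat_lit 21) (.e (nat_lit 57854) (nat_lit 252) (.e (nat_lit 57435) (nat_lit 17) (.e (nat_lit 376842) (nat_lit 11) (.e (nat_lit 426258) (nat_lit 9) .nil))))) .nil))) (.nd (nat_lit 6) 
(.lf (nat_lit 236222) (.g (nat_lit 3411) (.e (nat_lit 114710) (nat_lit 21) (.e (nat_lit 57854) (nat_lit 252) (.e (nat_lit 57409) (nat_lit 12) (.e (nat_lit 336019) (nat_lit 3) (.e (nat_lit 98342) (nat_lit 20) (.e (nat_lit 221219) (nat_lit 24) (.e (nat_lit 213000) (nat_lit 9) (.e (nat_lit 124) (nat_lit 5) .nil)))))))) (.g (nat_lit 4) .nil .nil))) 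
(.lf (nat_lit 236286) (.g (nat_lit 762) (.e (nat_lit 114711) (nat_lit 21) (.e (nat_lit 57844) (nat_lit 252) (.e (nat_lit 57421) (nat_lit 13) (.e (nat_lit 344149) (nat_lit 33) .nil)))) .nil)))))))) (.nd (nat_lit 1) (.nd (nat_lit 2) (.nd (nat_lit 3) (.nd (nat_lit 4) (.nd (nat_lit 5) (.nd (nat_lit 6) 
(.lf (nat_lit 236161) (.g (nat_lit 2858) (.e (nat_lit 114710) (nat_lit 21) (.e (nat_lit 57852) (nat_lit 252) (.e (nat_lit 57435) (nat_lit 17) (.e (nat_lit 376842) (nat_lit 11) (.e (nat_lit 426188) (nat_lit 9) (.e (nat_lit 433920) (nat_lit 20) .nil)))))) (.g (nat_lit 5) .nil .nil))) 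
(.lf (nat_lit 236225) (.g (nat_lit 2917) (.e (nat_lit 114710) (nat_lit 21) (.e (nat_lit 57854) (nat_lit 252) (.e (nat_lit 57409) (nat_lit 12) (.e (nat_lit 336019) (nat_lit 3) (.e (nat_lit 98342) (nat_lit 20) (.e (nat_lit 221219) (nat_lit 24) (.e (nat_lit 213004) (nat_lit 9) (.e (nat_lit 124) (nat_lit 5) .nil)))))))) (.g (nat_lit 4) .nil .nil)))) (.nd (nat_lit 6) 
(.lf (nat_lit 236193) (.g (nat_lit 1571) (.e (nat_lit 114710) (nat_lit 21) (.e (nat_lit 57853) (nat_lit 252) (.e (nat_lit 57423) (nat_lit 14) (.e (nat_lit 352276) (nat_lit 11) .nil)))) .nil)) 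
(.lf (nat_lit 236257) (.g (nat_lit 1903) (.e (nat_lit 114710) (nat_lit 21) (.e (nat_lit 57854) (nat_lit 252) (.e (nat_lit 57436) (nat_lit 17) (.e (nat_lit 376842) (nat_lit 11) (.e (nat_lit 426196) (nat_lit 9) .nil))))) .nil)))) (.nd (nat_lit 5) (.nd (nat_lit 6) 
(.lf (nat_lit 236177) (.g (nat_lit 2177) (.e (nat_lit 114710) (nat_lit 21) (.e (nat_lit 57852) (nat_lit 252) (.e (nat_lit 57436) (nat_lit 17) (.e (nat_lit 376842) (nat_lit 11) (.e (nat_lit 426196) (nat_lit 9) (.e (nat_lit 426446) (nat_lit 20) .nil)))))) (.g (nat_lit 4) .nil .nil))) 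
(.lf (nat_lit 236241) (.g (nat_lit 657) (.e (nat_lit 114710) (nat_lit 21) (.e (nat_lit 57854) (nat_lit 252) (.e (nat_lit 57414) (nat_lit 12) .nil))) .nil))) (.nd (nat_lit 6) 
(.lf (nat_lit 236209) (.g (nat_lit 1979) (.e (nat_lit 114710) (nat_lit 21) (.e (nat_lit 57853) (nat_lit 252) (.e (nat_lit 57436) (nat_lit 17) (.e (nat_lit 376840) (nat_lit 11) (.e (nat_lit 426234) (nat_lit 9) (.e (nat_lit 426447) (nat_lit 20) .nil)))))) (.g (nat_lit 6) .nil .nil))) 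
(.lf (nat_lit 236273) (.g (nat_lit 2010) (.e (nat_lit 114711) (nat_lit 21) (.e (nat_lit 57691) (nat_lit 156) (.e (nat_lit 163871) (nat_lit 2) (.e (nat_lit 196691) (nat_lit 18) (.e (nat_lit 1348) (nat_lit 102) .nil))))) .nil))))) (.nd (nat_lit 4) (.nd (nat_lit 5) (.nd (nat_lit 6) 
(.lf (nat_lit 236169) (.g (nat_lit 1308) (.e (nat_lit 114710) (nat_lit 21) (.e (nat_lit 57852) (nat_lit 252) (.e (nat_lit 57436) (nat_lit 17) (.e (nat_lit 376839) (nat_lit 11) .nil)))) .nil)) 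
(.lf (nat_lit 236233) (.g (nat_lit 1594) (.e (nat_lit 114710) (nat_lit 21) (.e (nat_lit 57854) (nat_lit 252) (.e (nat_lit 57409) (nat_lit 12) (.e (nat_lit 336122) (nat_lit 9) .nil)))) .nil))) (.nd (nat_lit 6) 
(.lf (nat_lit 236201) (.g (nat_lit 3217) (.e (nat_lit 114710) (nat_lit 21) (.e (nat_lit 57853) (nat_lit 252) (.e (nat_lit 57427) (nat_lit 15) (.e (nat_lit 360451) (nat_lit 0) (.e (nat_lit 6923) (nat_lit 371) (.e (nat_lit 2628) (nat_lit 164) (.e (nat_lit 179968) (nat_lit 20) .nil))))))) (.g (nat_lit 5) .nil .nil))) 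
(.lf (nat_lit 236265) (.g (nat_lit 2145) (.e (nat_lit 114710) (nat_lit 21) (.e (nat_lit 57870) (nat_lit 264) (.e (nat_lit 1221) (nat_lit 90) (.e (nat_lit 81954) (nat_lit 23) (.e (nat_lit 98321) (nat_lit 17) (.e (nat_lit 7936) (nat_lit 220) (.e (nat_lit 720954) (nat_lit 25) .nil))))))) (.g (nat_lit 4) .nil .nil))))) (.nd (nat_lit 5) (.nd (nat_lit 6) 
(.lf (nat_lit 236185) (.g (nat_lit 1692) (.e (nat_lit 114710) (nat_lit 21) (.e (nat_lit 57853) (nat_lit 252) (.e (nat_lit 57409) (nat_lit 12) (.e (nat_lit 336211) (nat_lit 13) (.e (nat_lit 393269) (nat_lit 23) .nil))))) .nil)) 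
(.lf (nat_lit 236249) (.g (nat_lit 697) (.e (nat_lit 114710) (nat_lit 21) (.e (nat_lit 57854) (nat_lit 252) (.e (nat_lit 57425) (nat_lit 14) .nil))) .nil))) (.nd (nat_lit 6) 
(.lf (nat_lit 236217) (.g (nat_lit 2872) (.e (nat_lit 114710) (nat_lit 21) (.e (nat_lit 57854) (nat_lit 252) (.e (nat_lit 57409) (nat_lit 12) (.e (nat_lit 336019) (nat_lit 3) (.e (nat_lit 98341) (nat_lit 20) .nil))))) .nil)) 
(.lf (nat_lit 236281) (.g (nat_lit 1815) (.e (nat_lit 114711) (nat_lit 21) (.e (nat_lit 57844) (nat_lit 252) (.e (nat_lit 57412) (nat_lit 12) (.e (nat_lit 336073) (nat_lit 9) (.e (nat_lit 336428) (nat_lit 29) (.e (nat_lit 450304) (nat_lit 5) .nil)))))) (.g (nat_lit 5) .nil .nil))))))) (.nd (nat_lit 3) (.nd (nat_lit 4) (.nd (nat_lit 5) (.nd (nat_lit 6) 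
(.lf (nat_lit 236165) (.g (nat_lit 2218) (.e (nat_lit 114710) (nat_lit 21) (.e (nat_lit 57852) (nat_lit 252) (.e (nat_lit 57435) (nat_lit 17) (.e (nat_lit 376842) (nat_lit 11) (.e (nat_lit 426213) (nat_lit 9) (.e (nat_lit 433920) (nat_lit 20) .nil)))))) (.g (nat_lit 5) .nil .nil))) 
(.lf (nat_lit 236229) (.g (nat_lit 1723) (.e (nat_lit 114710) (nat_lit 21) (.e (nat_lit 57854) (nat_lit 252) (.e (nat_lit 57409) (nat_lit 12) (.e (nat_lit 336115) (nat_lit 9) (.e (nat_lit 336428) (nat_lit 29) (.e (nat_lit 450304) (nat_lit 5) .nil)))))) (.g (nat_lit 4) .nil .nil)))) (.nd (nat_lit 6) 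
(.lf (nat_lit 236197) (.g (nat_lit 1293) (.e (nat_lit 114710) (nat_lit 21) (.e (nat_lit 57853) (nat_lit 252) (.e (nat_lit 57424) (nat_lit 14) (.e (nat_lit 352277) (nat_lit 11) .nil)))) .nil)) 
(.lf (nat_lit 236261) (.g (nat_lit 1840) (.e (nat_lit 114710) (nat_lit 21) (.e (nat_lit 57855) (nat_lit 253) (.e (nat_lit 122919) (nat_lit 15) (.e (nat_lit 360451) (nat_lit 0) (.e (nat_lit 6923) (nat_lit 371) (.e (nat_lit 2618) (nat_lit 164) (.e (nat_lit 179968) (nat_lit 20) .nil))))))) (.g (nat_lit 4) .nil .nil))))) (.nd (nat_lit 5) (.nd (nat_lit 6) 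
(.lf (nat_lit 236181) (.g (nat_lit 1709) (.e (nat_lit 114710) (nat_lit 21) (.e (nat_lit 57852) (nat_lit 252) (.e (nat_lit 57436) (nat_lit 17) (.e (nat_lit 376842) (nat_lit 11) (.e (nat_lit 426258) (nat_lit 9) .nil))))) .nil)) 
(.lf (nat_lit 236245) (.g (nat_lit 1547) (.e (nat_lit 114710) (nat_lit 21) (.e (nat_lit 57854) (nat_lit 252) (.e (nat_lit 57423) (nat_lit 14) (.e (nat_lit 360192) (nat_lit 13) .nil)))) .nil))) (.nd (nat_lit 6) 
(.lf (nat_lit 236213) (.g (nat_lit 1981) (.e (nat_lit 114710) (nat_lit 21) (.e (nat_lit 57853) (nat_lit 252) (.e (nat_lit 57436) (nat_lit 17) (.e (nat_lit 376842) (nat_lit 11) (.e (nat_lit 426258) (nat_lit 9) .nil))))) .nil)) 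
(.lf (nat_lit 236277) (.g (nat_lit 1880) (.e (nat_lit 114711) (nat_lit 21) (.e (nat_lit 57844) (nat_lit 252) (.e (nat_lit 57411) (nat_lit 12) (.e (nat_lit 336211) (nat_lit 13) (.e (nat_lit 393269) (nat_lit 23) (.e (nat_lit 426446) (nat_lit 20) .nil)))))) (.g (nat_lit 4) .nil .nil)))))) (.nd (nat_lit 4) (.nd (nat_lit 5) (.nd (nat_lit 6) 
(.lf (nat_lit 236173) (.g (nat_lit 1280) (.e (nat_lit 114710) (nat_lit 21) (.e (nat_lit 57852) (nat_lit 252) (.e (nat_lit 57436) (nat_lit 17) (.e (nat_lit 376840) (nat_lit 11) (.e (nat_lit 426234) (nat_lit 9) (.e (nat_lit 433920) (nat_lit 20) .nil)))))) (.g (nat_lit 4) .nil .nil))) 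
(.lf (nat_lit 236237) (.g (nat_lit 1744) (.e (nat_lit 114710) (nat_lit 21) (.e (nat_lit 57854) (nat_lit 252) (.e (nat_lit 57409) (nat_lit 12) (.e (nat_lit 336211) (nat_lit 13) (.e (nat_lit 393266) (nat_lit 23) .nil))))) .nil))) (.nd (nat_lit 6) 
(.lf (nat_lit 236205) (.g (nat_lit 2131) (.e (nat_lit 114710) (nat_lit 21) (.e (nat_lit 57853) (nat_lit 252) (.e (nat_lit 57435) (nat_lit 17) (.e (nat_lit 376842) (nat_lit 11) (.e (nat_lit 426258) (nat_lit 9) (.e (nat_lit 426447) (nat_lit 20) .nil)))))) (.g (nat_lit 4) .nil .nil))) 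
(.lf (nat_lit 236269) (.g (nat_lit 1940) (.e (nat_lit 114710) (nat_lit 21) (.e (nat_lit 57931) (nat_lit 282) (.e (nat_lit 163931) (nat_lit 17) (.e (nat_lit 466975) (nat_lit 22) .nil)))) .nil)))) (.nd (nat_lit 5) (.nd (nat_lit 6) 
(.lf (nat_lit 236189) (.g (nat_lit 638) (.e (nat_lit 114710) (nat_lit 21) (.e (nat_lit 57853) (nat_lit 252) (.e (nat_lit 57417) (nat_lit 12) .nil))) .nil)) 
(.lf (nat_lit 236253) (.g (nat_lit 2107) (.e (nat_lit 114710) (nat_lit 21) (.e (nat_lit 57854) (nat_lit 252) (.e (nat_lit 57435) (nat_lit 17) (.e (nat_lit 376842) (nat_lit 11) (.e (nat_lit 426196) (nat_lit 9) .nil))))) .nil))) (.nd (nat_lit 6) 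
(.lf (nat_lit 236221) (.g (nat_lit 4080) (.e (nat_lit 114710) (nat_lit 21) (.e (nat_lit 57854) (nat_lit 252) (.e (nat_lit 57409) (nat_lit 12) (.e (nat_lit 336019) (nat_lit 3) (.e (nat_lit 98342) (nat_lit 20) (.e (nat_lit 229120) (nat_lit 1) (.e (nat_lit 57849) (nat_lit 252) (.e (nat_lit 57390) (nat_lit 5) .nil)))))))) (.g (nat_lit 5) .nil .nil))) 
(.lf (nat_lit 236285) (.g (nat_lit 1335) (.e (nat_lit 114711) (nat_lit 21) (.e (nat_lit 57844) (nat_lit 252) (.e (nat_lit 57412) (nat_lit 12) (.e (nat_lit 336219) (nat_lit 13) (.e (nat_lit 393274) (nat_lit 23) (.e (nat_lit 433920) (nat_lit 20) .nil)))))) (.g (nat_lit 4) .nil .nil)))))))) (.nd (nat_lit 2) (.nd (nat_lit 3) (.nd (nat_lit 4) (.nd (nat_lit 5) (.nd (nat_lit 6) 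
(.lf (nat_lit 236163) (.g (nat_lit 2334) (.e (nat_lit 114710) (nat_lit 21) (.e (nat_lit 57852) (nat_lit 252) (.e (nat_lit 57435) (nat_lit 17) (.e (nat_lit 376842) (nat_lit 11) (.e (nat_lit 426200) (nat_lit 9) (.e (nat_lit 433920) (nat_lit 20) .nil)))))) (.g (nat_lit 5) .nil .nil))) 
(.lf (nat_lit 236227) (.g (nat_lit 1191) (.e (nat_lit 114710) (nat_lit 21) (.e (nat_lit 57854) (nat_lit 252) (.e (nat_lit 57409) (nat_lit 12) (.e (nat_lit 336115) (nat_lit 9) .nil)))) .nil))) (.nd (nat_lit 6) 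
(.lf (nat_lit 236195) (.g (nat_lit 1504) (.e (nat_lit 114710) (nat_lit 21) (.e (nat_lit 57853) (nat_lit 252) (.e (nat_lit 57424) (nat_lit 14) (.e (nat_lit 352274) (nat_lit 11) .nil)))) .nil)) 
(.lf (nat_lit 236259) (.g (nat_lit 659) (.e (nat_lit 114710) (nat_lit 21) (.e (nat_lit 57854) (nat_lit 252) (.e (nat_lit 57438) (nat_lit 17) .nil))) .nil)))) (.nd (nat_lit 5) (.nd (nat_lit 6) 
(.lf (nat_lit 236179) (.g (nat_lit 2108) (.e (nat_lit 114710) (nat_lit 21) (.e (nat_lit 57852) (nat_lit 252) (.e (nat_lit 57436) (nat_lit 17) (.e (nat_lit 376842) (nat_lit 11) (.e (nat_lit 426204) (nat_lit 9) (.e (nat_lit 433920) (nat_lit 20) .nil)))))) (.g (nat_lit 5) .nil .nil))) 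
(.lf (nat_lit 236243) (.g (nat_lit 1695) (.e (nat_lit 114710) (nat_lit 21) (.e (nat_lit 57854) (nat_lit 252) (.e (nat_lit 57423) (nat_lit 14) (.e (nat_lit 352276) (nat_lit 11) .nil)))) .nil))) (.nd (nat_lit 6) 
(.lf (nat_lit 236211) (.g (nat_lit 2023) (.e (nat_lit 114710) (nat_lit 21) (.e (nat_lit 57853) (nat_lit 252) (.e (nat_lit 57436) (nat_lit 17) (.e (nat_lit 376842) (nat_lit 11) (.e (nat_lit 426196) (nat_lit 9) .nil))))) .nil)) 
(.lf (nat_lit 236275) (.g (nat_lit 1215) (.e (nat_lit 114711) (nat_lit 21) (.e (nat_lit 57844) (nat_lit 252) (.e (nat_lit 57410) (nat_lit 12) (.e (nat_lit 336211) (nat_lit 13) (.e (nat_lit 393269) (nat_lit 23) .nil))))) .nil))))) (.nd (nat_lit 4) (.nd (nat_lit 5) (.nd (nat_lit 6) 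
(.lf (nat_lit 236171) (.g (nat_lit 2079) (.e (nat_lit 114710) (nat_lit 21) (.e (nat_lit 57852) (nat_lit 252) (.e (nat_lit 57436) (nat_lit 17) (.e (nat_lit 376840) (nat_lit 11) (.e (nat_lit 426230) (nat_lit 9) (.e (nat_lit 426447) (nat_lit 20) .nil)))))) (.g (nat_lit 6) .nil .nil))) 
(.lf (nat_lit 236235) (.g (nat_lit 1364) (.e (nat_lit 114710) (nat_lit 21) (.e (nat_lit 57854) (nat_lit 252) (.e (nat_lit 57409) (nat_lit 12) (.e (nat_lit 336210) (nat_lit 13) (.e (nat_lit 393270) (nat_lit 23) .nil))))) .nil))) (.nd (nat_lit 6) 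
(.lf (nat_lit 236203) (.g (nat_lit 428) (.e (nat_lit 114710) (nat_lit 21) (.e (nat_lit 57853) (nat_lit 252) (.e (nat_lit 57435) (nat_lit 17) .nil))) .nil)) 
(.lf (nat_lit 236267) (.g (nat_lit 2992) (.e (nat_lit 114710) (nat_lit 21) (.e (nat_lit 57872) (nat_lit 264) (.e (nat_lit 1221) (nat_lit 90) (.e (nat_lit 81954) (nat_lit 23) (.e (nat_lit 98321) (nat_lit 17) (.e (nat_lit 7936) (nat_lit 220) (.e (nat_lit 720954) (nat_lit 25) .nil))))))) (.g (nat_lit 5) .nil .nil))))) (.nd (nat_lit 5) (.nd (nat_lit 6) 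
(.lf (nat_lit 236187) (.g (nat_lit 1636) (.e (nat_lit 114710) (nat_lit 21) (.e (nat_lit 57853) (nat_lit 252) (.e (nat_lit 57412) (nat_lit 12) (.e (nat_lit 336212) (nat_lit 13) (.e (nat_lit 393270) (nat_lit 23) .nil))))) .nil)) 
(.lf (nat_lit 236251) (.g (nat_lit 1065) (.e (nat_lit 114710) (nat_lit 21) (.e (nat_lit 57854) (nat_lit 252) (.e (nat_lit 57435) (nat_lit 17) (.e (nat_lit 376839) (nat_lit 11) .nil)))) .nil))) (.nd (nat_lit 6) 
(.lf (nat_lit 236219) (.g (nat_lit 4182) (.e (nat_lit 114710) (nat_lit 21) (.e (nat_lit 57854) (nat_lit 252) (.e (nat_lit 57409) (nat_lit 12) (.e (nat_lit 336019) (nat_lit 3) (.e (nat_lit 98341) (nat_lit 20) (.e (nat_lit 229120) (nat_lit 1) (.e (nat_lit 57854) (nat_lit 252) (.e (nat_lit 57389) (nat_lit 5) .nil)))))))) (.g (nat_lit 5) .nil .nil))) 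
(.lf (nat_lit 236283) (.g (nat_lit 1637) (.e (nat_lit 114711) (nat_lit 21) (.e (nat_lit 57844) (nat_lit 252) (.e (nat_lit 57412) (nat_lit 12) (.e (nat_lit 336083) (nat_lit 9) (.e (nat_lit 336426) (nat_lit 29) (.e (nat_lit 450304) (nat_lit 5) .nil)))))) (.g (nat_lit 5) .nil .nil))))))) (.nd (nat_lit 3) (.nd (nat_lit 4) (.nd (nat_lit 5) (.nd (nat_lit 6) 
(.lf (nat_lit 236167) (.g (nat_lit 1325) (.e (nat_lit 114710) (nat_lit 21) (.e (nat_lit 57852) (nat_lit 252) (.e (nat_lit 57436) (nat_lit 17) (.e (nat_lit 376838) (nat_lit 11) .nil)))) .nil)) 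
(.lf (nat_lit 236231) (.g (nat_lit 1680) (.e (nat_lit 114710) (nat_lit 21) (.e (nat_lit 57854) (nat_lit 252) (.e (nat_lit 57409) (nat_lit 12) (.e (nat_lit 336115) (nat_lit 9) (.e (nat_lit 343808) (nat_lit 32) (.e (nat_lit 474880) (nat_lit 5) .nil)))))) (.g (nat_lit 4) .nil .nil)))) (.nd (nat_lit 6) 
(.lf (nat_lit 236199) (.g (nat_lit 1498) (.e (nat_lit 114710) (nat_lit 21) (.e (nat_lit 57853) (nat_lit 252) (.e (nat_lit 57424) (nat_lit 14) (.e (nat_lit 352278) (nat_lit 11) .nil)))) .nil)) 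
(.lf (nat_lit 236263) (.g (nat_lit 2670) (.e (nat_lit 114710) (nat_lit 21) (.e (nat_lit 57856) (nat_lit 253) (.e (nat_lit 122919) (nat_lit 15) (.e (nat_lit 360451) (nat_lit 0) (.e (nat_lit 6923) (nat_lit 371) (.e (nat_lit 2628) (nat_lit 164) (.e (nat_lit 179968) (nat_lit 20) .nil))))))) (.g (nat_lit 4) .nil .nil))))) (.nd (nat_lit 5) (.nd (nat_lit 6) 
(.lf (nat_lit 236183) (.g (nat_lit 722) (.e (nat_lit 114710) (nat_lit 21) (.e (nat_lit 57852) (nat_lit 252) (.e (nat_lit 57438) (nat_lit 17) (.e (nat_lit 384768) (nat_lit 16) .nil)))) .nil)) 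
(.lf (nat_lit 236247) (.g (nat_lit 838) (.e (nat_lit 114710) (nat_lit 21) (.e (nat_lit 57854) (nat_lit 252) (.e (nat_lit 57424) (nat_lit 14) .nil))) .nil))) (.nd (nat_lit 6) 
(.lf (nat_lit 236215) (.g (nat_lit 2616) (.e (nat_lit 114710) (nat_lit 21) (.e (nat_lit 57854) (nat_lit 252) (.e (nat_lit 57389) (nat_lit 5) (.e (nat_lit 114702) (nat_lit 20) (.e (nat_lit 2198) (nat_lit 144) (.e (nat_lit 720940) (nat_lit 22) (.e (nat_lit 90170) (nat_lit 13) (.e (nat_lit 179968) (nat_lit 20) .nil)))))))) (.g (nat_lit 7) .nil .nil))) 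
(.lf (nat_lit 236279) (.g (nat_lit 2101) (.e (nat_lit 114711) (nat_lit 21) (.e (nat_lit 57844) (nat_lit 252) (.e (nat_lit 57411) (nat_lit 12) (.e (nat_lit 336211) (nat_lit 13) (.e (nat_lit 393272) (nat_lit 23) (.e (nat_lit 426446) (nat_lit 20) .nil)))))) (.g (nat_lit 4) .nil .nil)))))) (.nd (nat_lit 4) (.nd (nat_lit 5) (.nd (nat_lit 6) 
(.lf (nat_lit 236175) (.g (nat_lit 1552) (.e (nat_lit 114710) (nat_lit 21) (.e (nat_lit 57852) (nat_lit 252) (.e (nat_lit 57436) (nat_lit 17) (.e (nat_lit 376840) (nat_lit 11) (.e (nat_lit 426260) (nat_lit 9) (.e (nat_lit 433920) (nat_lit 20) .nil)))))) (.g (nat_lit 5) .nil .nil))) 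
(.lf (nat_lit 236239) (.g (nat_lit 1739) (.e (nat_lit 114710) (nat_lit 21) (.e (nat_lit 57854) (nat_lit 252) (.e (nat_lit 57409) (nat_lit 12) (.e (nat_lit 336211) (nat_lit 13) (.e (nat_lit 393275) (nat_lit 23) .nil))))) .nil))) (.nd (nat_lit 6) 
(.lf (nat_lit 236207) (.g (nat_lit 1112) (.e (nat_lit 114710) (nat_lit 21) (.e (nat_lit 57853) (nat_lit 252) (.e (nat_lit 57436) (nat_lit 17) (.e (nat_lit 376838) (nat_lit 11) .nil)))) .nil)) 
(.lf (nat_lit 236271) (.g (nat_lit 2341) (.e (nat_lit 114711) (nat_lit 21) (.e (nat_lit 57688) (nat_lit 156) (.e (nat_lit 163867) (nat_lit 2) (.e (nat_lit 196656) (nat_lit 11) (.e (nat_lit 16446) (nat_lit 9) .nil))))) .nil)))) (.nd (nat_lit 5) (.nd (nat_lit 6) 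
(.lf (nat_lit 236191) (.g (nat_lit 1640) (.e (nat_lit 114710) (nat_lit 21) (.e (nat_lit 57853) (nat_lit 252) (.e (nat_lit 57419) (nat_lit 12) (.e (nat_lit 336213) (nat_lit 13) (.e (nat_lit 393269) (nat_lit 23) .nil))))) .nil)) 
(.lf (nat_lit 236255) (.g (nat_lit 1003) (.e (nat_lit 114710) (nat_lit 21) (.e (nat_lit 57854) (nat_lit 252) (.e (nat_lit 57436) (nat_lit 17) (.e (nat_lit 376838) (nat_lit 11) .nil)))) .nil))) (.nd (nat_lit 6) 
(.lf (nat_lit 236223) (.g (nat_lit 3328) (.e (nat_lit 114710) (nat_lit 21) (.e (nat_lit 57854) (nat_lit 252) (.e (nat_lit 57409) (nat_lit 12) (.e (nat_lit 336019) (nat_lit 3) (.e (nat_lit 98342) (nat_lit 20) (.e (nat_lit 221219) (nat_lit 24) (.e (nat_lit 213001) (nat_lit 9) (.e (nat_lit 124) (nat_lit 5) .nil)))))))) (.g (nat_lit 4) .nil .nil))) 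
(.lf (nat_lit 236287) (.g (nat_lit 1311) (.e (nat_lit 114711) (nat_lit 21) (.e (nat_lit 57844) (nat_lit 252) (.e (nat_lit 57423) (nat_lit 14) (.e (nat_lit 352273) (nat_lit 11) .nil)))) .nil)))))))))

noncomputable def tv3081 : DT := (.nd (nat_lit 0) (.nd (nat_lit 1) (.nd (nat_lit 2) (.nd (nat_lit 3) (.nd (nat_lit 4) (.nd (nat_lit 5) 
(.lf (nat_lit 236288) (.g (nat_lit 1202) (.e (nat_lit 114711) (nat_lit 21) (.e (nat_lit 57844) (nat_lit 252) (.e (nat_lit 57423) (nat_lit 14) (.e (nat_lit 352276) (nat_lit 11) .nil)))) .nil)) 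
(.lf (nat_lit 236320) (.g (nat_lit 549) (.e (nat_lit 114711) (nat_lit 21) (.e (nat_lit 57846) (nat_lit 252) (.e (nat_lit 57423) (nat_lit 14) .nil))) .nil))) (.nd (nat_lit 5) 
(.lf (nat_lit 236304) (.g (nat_lit 944) (.e (nat_lit 114711) (nat_lit 21) (.e (nat_lit 57844) (nat_lit 252) (.e (nat_lit 57435) (nat_lit 17) (.e (nat_lit 384768) (nat_lit 13) .nil)))) .nil)) 
(.lf (nat_lit 236336) (.g (nat_lit 1391) (.e (nat_lit 114711) (nat_lit 21) (.e (nat_lit 57846) (nat_lit 252) (.e (nat_lit 57435) (nat_lit 17) (.e (nat_lit 376839) (nat_lit 11) .nil)))) .nil)))) (.nd (nat_lit 4) (.nd (nat_lit 5) 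
(.lf (nat_lit 236296) (.g (nat_lit 1387) (.e (nat_lit 114711) (nat_lit 21) (.e (nat_lit 57844) (nat_lit 252) (.e (nat_lit 57424) (nat_lit 14) (.e (nat_lit 352278) (nat_lit 11) .nil)))) .nil)) 
(.lf (nat_lit 236328) (.g (nat_lit 1523) (.e (nat_lit 114711) (nat_lit 21) (.e (nat_lit 57846) (nat_lit 252) (.e (nat_lit 57424) (nat_lit 14) (.e (nat_lit 352276) (nat_lit 11) .nil)))) .nil))) (.nd (nat_lit 5) 
(.lf (nat_lit 236312) (.g (nat_lit 2771) (.e (nat_lit 114711) (nat_lit 21) (.e (nat_lit 57844) (nat_lit 252) (.e (nat_lit 57437) (nat_lit 17) (.e (nat_lit 376842) (nat_lit 11) (.e (nat_lit 426187) (nat_lit 9) (.e (nat_lit 426446) (nat_lit 20) .nil)))))) (.g (nat_lit 4) .nil .nil))) 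
(.lf (nat_lit 236344) (.g (nat_lit 3333) (.e (nat_lit 114711) (nat_lit 21) (.e (nat_lit 57846) (nat_lit 252) (.e (nat_lit 57435) (nat_lit 17) (.e (nat_lit 376842) (nat_lit 11) (.e (nat_lit 426198) (nat_lit 9) (.e (nat_lit 426446) (nat_lit 20) .nil)))))) (.g (nat_lit 5) .nil .nil)))))) (.nd (nat_lit 3) (.nd (nat_lit 4) (.nd (nat_lit 5) 
(.lf (nat_lit 236292) (.g (nat_lit 1647) (.e (nat_lit 114711) (nat_lit 21) (.e (nat_lit 57844) (nat_lit 252) (.e (nat_lit 57424) (nat_lit 14) (.e (nat_lit 352273) (nat_lit 11) (.e (nat_lit 426189) (nat_lit 9) .nil))))) .nil)) 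
(.lf (nat_lit 236324) (.g (nat_lit 2102) (.e (nat_lit 114711) (nat_lit 21) (.e (nat_lit 57846) (nat_lit 252) (.e (nat_lit 57423) (nat_lit 14) (.e (nat_lit 352277) (nat_lit 11) (.e (nat_lit 426189) (nat_lit 9) .nil))))) .nil))) (.nd (nat_lit 5) 
(.lf (nat_lit 236308) (.g (nat_lit 2094) (.e (nat_lit 114711) (nat_lit 21) (.e (nat_lit 57844) (nat_lit 252) (.e (nat_lit 57436) (nat_lit 17) (.e (nat_lit 376842) (nat_lit 11) (.e (nat_lit 426196) (nat_lit 9) (.e (nat_lit 426446) (nat_lit 20) .nil)))))) (.g (nat_lit 4) .nil .nil))) 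
(.lf (nat_lit 236340) (.g (nat_lit 2984) (.e (nat_lit 114711) (nat_lit 21) (.e (nat_lit 57846) (nat_lit 252) (.e (nat_lit 57435) (nat_lit 17) (.e (nat_lit 376842) (nat_lit 11) (.e (nat_lit 426189) (nat_lit 9) (.e (nat_lit 426446) (nat_lit 20) .nil)))))) (.g (nat_lit 4) .nil .nil))))) (.nd (nat_lit 4) (.nd (nat_lit 5) 
(.lf (nat_lit 236300) (.g (nat_lit 983) (.e (nat_lit 114711) (nat_lit 21) (.e (nat_lit 57844) (nat_lit 252) (.e (nat_lit 57435) (nat_lit 17) (.e (nat_lit 376840) (nat_lit 11) .nil)))) .nil)) 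
(.lf (nat_lit 236332) (.g (nat_lit 2914) (.e (nat_lit 114711) (nat_lit 21) (.e (nat_lit 57846) (nat_lit 252) (.e (nat_lit 57424) (nat_lit 14) (.e (nat_lit 352277) (nat_lit 11) (.e (nat_lit 426190) (nat_lit 9) (.e (nat_lit 426446) (nat_lit 20) .nil)))))) (.g (nat_lit 4) .nil .nil)))) (.nd (nat_lit 5) 
(.lf (nat_lit 236316) (.g (nat_lit 2981) (.e (nat_lit 114711) (nat_lit 21) (.e (nat_lit 57844) (nat_lit 252) (.e (nat_lit 57437) (nat_lit 17) (.e (nat_lit 376842) (nat_lit 11) (.e (nat_lit 426198) (nat_lit 9) (.e (nat_lit 426448) (nat_lit 20) .nil)))))) (.g (nat_lit 4) .nil .nil))) 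
(.lf (nat_lit 236348) (.g (nat_lit 1200) (.e (nat_lit 114711) (nat_lit 21) (.e (nat_lit 57846) (nat_lit 252) (.e (nat_lit 57436) (nat_lit 17) (.e (nat_lit 376840) (nat_lit 11) .nil)))) .nil)))))) (.nd (nat_lit 2) (.nd (nat_lit 3) (.nd (nat_lit 4) (.nd (nat_lit 5) 
(.lf (nat_lit 236290) (.g (nat_lit 1069) (.e (nat_lit 114711) (nat_lit 21) (.e (nat_lit 57844) (nat_lit 252) (.e (nat_lit 57423) (nat_lit 14) (.e (nat_lit 360192) (nat_lit 16) .nil)))) .nil)) 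
(.lf (nat_lit 236322) (.g (nat_lit 1457) (.e (nat_lit 114711) (nat_lit 21) (.e (nat_lit 57846) (nat_lit 252) (.e (nat_lit 57423) (nat_lit 14) (.e (nat_lit 352276) (nat_lit 11) .nil)))) .nil))) (.nd (nat_lit 5) 
(.lf (nat_lit 236306) (.g (nat_lit 1427) (.e (nat_lit 114711) (nat_lit 21) (.e (nat_lit 57844) (nat_lit 252) (.e (nat_lit 57436) (nat_lit 17) (.e (nat_lit 376838) (nat_lit 11) (.e (nat_lit 426204) (nat_lit 9) .nil))))) .nil)) 
(.lf (nat_lit 236338) (.g (nat_lit 1084) (.e (nat_lit 114711) (nat_lit 21) (.e (nat_lit 57846) (nat_lit 252) (.e (nat_lit 57435) (nat_lit 17) (.e (nat_lit 376842) (nat_lit 11) .nil)))) .nil)))) (.nd (nat_lit 4) (.nd (nat_lit 5) 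
(.lf (nat_lit 236298) (.g (nat_lit 2984) (.e (nat_lit 114711) (nat_lit 21) (.e (nat_lit 57844) (nat_lit 252) (.e (nat_lit 57427) (nat_lit 15) (.e (nat_lit 360451) (nat_lit 0) (.e (nat_lit 6923) (nat_lit 371) (.e (nat_lit 2628) (nat_lit 164) (.e (nat_lit 179968) (nat_lit 20) .nil))))))) (.g (nat_lit 4) .nil .nil))) 
(.lf (nat_lit 236330) (.g (nat_lit 1485) (.e (nat_lit 114711) (nat_lit 21) (.e (nat_lit 57846) (nat_lit 252) (.e (nat_lit 57424) (nat_lit 14) (.e (nat_lit 352277) (nat_lit 11) .nil)))) .nil))) (.nd (nat_lit 5) 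
(.lf (nat_lit 236314) (.g (nat_lit 3088) (.e (nat_lit 114711) (nat_lit 21) (.e (nat_lit 57844) (nat_lit 252) (.e (nat_lit 57437) (nat_lit 17) (.e (nat_lit 376842) (nat_lit 11) (.e (nat_lit 426189) (nat_lit 9) (.e (nat_lit 426448) (nat_lit 20) .nil)))))) (.g (nat_lit 4) .nil .nil))) 
(.lf (nat_lit 236346) (.g (nat_lit 2316) (.e (nat_lit 114711) (nat_lit 21) (.e (nat_lit 57846) (nat_lit 252) (.e (nat_lit 57435) (nat_lit 17) (.e (nat_lit 376842) (nat_lit 11) (.e (nat_lit 426258) (nat_lit 9) .nil))))) .nil))))) (.nd (nat_lit 3) (.nd (nat_lit 4) (.nd (nat_lit 5) 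
(.lf (nat_lit 236294) (.g (nat_lit 1115) (.e (nat_lit 114711) (nat_lit 21) (.e (nat_lit 57844) (nat_lit 252) (.e (nat_lit 57424) (nat_lit 14) (.e (nat_lit 352276) (nat_lit 11) .nil)))) .nil)) 
(.lf (nat_lit 236326) (.g (nat_lit 1307) (.e (nat_lit 114711) (nat_lit 21) (.e (nat_lit 57846) (nat_lit 252) (.e (nat_lit 57423) (nat_lit 14) (.e (nat_lit 360192) (nat_lit 16) .nil)))) .nil))) (.nd (nat_lit 5) 
(.lf (nat_lit 236310) (.g (nat_lit 1154) (.e (nat_lit 114711) (nat_lit 21) (.e (nat_lit 57844) (nat_lit 252) (.e (nat_lit 57437) (nat_lit 17) (.e (nat_lit 376840) (nat_lit 11) .nil)))) .nil)) 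
(.lf (nat_lit 236342) (.g (nat_lit 2757) (.e (nat_lit 114711) (nat_lit 21) (.e (nat_lit 57846) (nat_lit 252) (.e (nat_lit 57435) (nat_lit 17) (.e (nat_lit 376842) (nat_lit 11) (.e (nat_lit 426197) (nat_lit 9) (.e (nat_lit 426446) (nat_lit 20) .nil)))))) (.g (nat_lit 4) .nil .nil))))) (.nd (nat_lit 4) (.nd (nat_lit 5) 
(.lf (nat_lit 236302) (.g (nat_lit 2473) (.e (nat_lit 114711) (nat_lit 21) (.e (nat_lit 57844) (nat_lit 252) (.e (nat_lit 57435) (nat_lit 17) (.e (nat_lit 376842) (nat_lit 11) (.e (nat_lit 426189) (nat_lit 9) (.e (nat_lit 426446) (nat_lit 20) .nil)))))) (.g (nat_lit 4) .nil .nil))) 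
(.lf (nat_lit 236334) (.g (nat_lit 1394) (.e (nat_lit 114711) (nat_lit 21) (.e (nat_lit 57846) (nat_lit 252) (.e (nat_lit 57424) (nat_lit 14) (.e (nat_lit 360192) (nat_lit 16) .nil)))) .nil))) (.nd (nat_lit 5) 
(.lf (nat_lit 236318) (.g (nat_lit 1138) (.e (nat_lit 114711) (nat_lit 21) (.e (nat_lit 57846) (nat_lit 252) (.e (nat_lit 57409) (nat_lit 12) (.e (nat_lit 336211) (nat_lit 13) .nil)))) .nil)) 
(.lf (nat_lit 236350) (.g (nat_lit 2710) (.e (nat_lit 114711) (nat_lit 21) (.e (nat_lit 57846) (nat_lit 252) (.e (nat_lit 57436) (nat_lit 17) (.e (nat_lit 376842) (nat_lit 11) (.e (nat_lit 426187) (nat_lit 9) (.e (nat_lit 426446) (nat_lit 20) .nil)))))) (.g (nat_lit 4) .nil .nil)))))))) (.nd (nat_lit 1) (.nd (nat_lit 2) (.nd (nat_lit 3) (.nd (nat_lit 4) (.nd (nat_lit 5) 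
(.lf (nat_lit 236289) (.g (nat_lit 1069) (.e (nat_lit 114711) (nat_lit 21) (.e (nat_lit 57844) (nat_lit 252) (.e (nat_lit 57423) (nat_lit 14) (.e (nat_lit 360192) (nat_lit 13) .nil)))) .nil)) 
(.lf (nat_lit 236321) (.g (nat_lit 1545) (.e (nat_lit 114711) (nat_lit 21) (.e (nat_lit 57846) (nat_lit 252) (.e (nat_lit 57423) (nat_lit 14) (.e (nat_lit 352273) (nat_lit 11) .nil)))) .nil))) (.nd (nat_lit 5) 
(.lf (nat_lit 236305) (.g (nat_lit 944) (.e (nat_lit 114711) (nat_lit 21) (.e (nat_lit 57844) (nat_lit 252) (.e (nat_lit 57435) (nat_lit 17) (.e (nat_lit 384768) (nat_lit 16) .nil)))) .nil)) 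
(.lf (nat_lit 236337) (.g (nat_lit 1550) (.e (nat_lit 114711) (nat_lit 21) (.e (nat_lit 57846) (nat_lit 252) (.e (nat_lit 57435) (nat_lit 17) (.e (nat_lit 376839) (nat_lit 11) (.e (nat_lit 426262) (nat_lit 9) .nil))))) .nil)))) (.nd (nat_lit 4) (.nd (nat_lit 5) 
(.lf (nat_lit 236297) (.g (nat_lit 2451) (.e (nat_lit 114711) (nat_lit 21) (.e (nat_lit 57844) (nat_lit 252) (.e (nat_lit 57427) (nat_lit 15) (.e (nat_lit 360451) (nat_lit 0) (.e (nat_lit 6923) (nat_lit 371) .nil))))) .nil)) 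
(.lf (nat_lit 236329) (.g (nat_lit 1750) (.e (nat_lit 114711) (nat_lit 21) (.e (nat_lit 57846) (nat_lit 252) (.e (nat_lit 57424) (nat_lit 14) (.e (nat_lit 352276) (nat_lit 11) (.e (nat_lit 426234) (nat_lit 9) .nil))))) .nil))) (.nd (nat_lit 5) 
(.lf (nat_lit 236313) (.g (nat_lit 2494) (.e (nat_lit 114711) (nat_lit 21) (.e (nat_lit 57844) (nat_lit 252) (.e (nat_lit 57437) (nat_lit 17) (.e (nat_lit 376842) (nat_lit 11) (.e (nat_lit 426189) (nat_lit 9) .nil))))) .nil)) 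
(.lf (nat_lit 236345) (.g (nat_lit 2271) (.e (nat_lit 114711) (nat_lit 21) (.e (nat_lit 57846) (nat_lit 252) (.e (nat_lit 57435) (nat_lit 17) (.e (nat_lit 376842) (nat_lit 11) (.e (nat_lit 426204) (nat_lit 9) .nil))))) .nil))))) (.nd (nat_lit 3) (.nd (nat_lit 4) (.nd (nat_lit 5) 
(.lf (nat_lit 236293) (.g (nat_lit 1393) (.e (nat_lit 114711) (nat_lit 21) (.e (nat_lit 57844) (nat_lit 252) (.e (nat_lit 57424) (nat_lit 14) (.e (nat_lit 352274) (nat_lit 11) .nil)))) .nil)) 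
(.lf (nat_lit 236325) (.g (nat_lit 1307) (.e (nat_lit 114711) (nat_lit 21) (.e (nat_lit 57846) (nat_lit 252) (.e (nat_lit 57423) (nat_lit 14) (.e (nat_lit 360192) (nat_lit 13) .nil)))) .nil))) (.nd (nat_lit 5) 
(.lf (nat_lit 236309) (.g (nat_lit 2021) (.e (nat_lit 114711) (nat_lit 21) (.e (nat_lit 57844) (nat_lit 252) (.e (nat_lit 57436) (nat_lit 17) (.e (nat_lit 376842) (nat_lit 11) (.e (nat_lit 426258) (nat_lit 9) .nil))))) .nil)) 
(.lf (nat_lit 236341) (.g (nat_lit 2358) (.e (nat_lit 114711) (nat_lit 21) (.e (nat_lit 57846) (nat_lit 252) (.e (nat_lit 57435) (nat_lit 17) (.e (nat_lit 376842) (nat_lit 11) (.e (nat_lit 426196) (nat_lit 9) .nil))))) .nil)))) (.nd (nat_lit 4) (.nd (nat_lit 5) 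
(.lf (nat_lit 236301) (.g (nat_lit 2471) (.e (nat_lit 114711) (nat_lit 21) (.e (nat_lit 57844) (nat_lit 252) (.e (nat_lit 57435) (nat_lit 17) (.e (nat_lit 376842) (nat_lit 11) (.e (nat_lit 426186) (nat_lit 9) (.e (nat_lit 426446) (nat_lit 20) .nil)))))) (.g (nat_lit 4) .nil .nil))) 
(.lf (nat_lit 236333) (.g (nat_lit 1394) (.e (nat_lit 114711) (nat_lit 21) (.e (nat_lit 57846) (nat_lit 252) (.e (nat_lit 57424) (nat_lit 14) (.e (nat_lit 360192) (nat_lit 13) .nil)))) .nil))) (.nd (nat_lit 5) 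
(.lf (nat_lit 236317) (.g (nat_lit 1557) (.e (nat_lit 114711) (nat_lit 21) (.e (nat_lit 57846) (nat_lit 252) (.e (nat_lit 57407) (nat_lit 12) (.e (nat_lit 336211) (nat_lit 13) .nil)))) .nil)) 
(.lf (nat_lit 236349) (.g (nat_lit 2385) (.e (nat_lit 114711) (nat_lit 21) (.e (nat_lit 57846) (nat_lit 252) (.e (nat_lit 57436) (nat_lit 17) (.e (nat_lit 376842) (nat_lit 11) (.e (nat_lit 426186) (nat_lit 9) (.e (nat_lit 426446) (nat_lit 20) .nil)))))) (.g (nat_lit 4) .nil .nil))))))) (.nd (nat_lit 2) (.nd (nat_lit 3) (.nd (nat_lit 4) (.nd (nat_lit 5) 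
(.lf (nat_lit 236291) (.g (nat_lit 1351) (.e (nat_lit 114711) (nat_lit 21) (.e (nat_lit 57844) (nat_lit 252) (.e (nat_lit 57424) (nat_lit 14) (.e (nat_lit 352273) (nat_lit 11) .nil)))) .nil)) 
(.lf (nat_lit 236323) (.g (nat_lit 1444) (.e (nat_lit 114711) (nat_lit 21) (.e (nat_lit 57846) (nat_lit 252) (.e (nat_lit 57423) (nat_lit 14) (.e (nat_lit 352277) (nat_lit 11) .nil)))) .nil))) (.nd (nat_lit 5) 
(.lf (nat_lit 236307) (.g (nat_lit 1090) (.e (nat_lit 114711) (nat_lit 21) (.e (nat_lit 57844) (nat_lit 252) (.e (nat_lit 57436) (nat_lit 17) (.e (nat_lit 376840) (nat_lit 11) .nil)))) .nil)) 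
(.lf (nat_lit 236339) (.g (nat_lit 2584) (.e (nat_lit 114711) (nat_lit 21) (.e (nat_lit 57846) (nat_lit 252) (.e (nat_lit 57435) (nat_lit 17) (.e (nat_lit 376842) (nat_lit 11) (.e (nat_lit 426188) (nat_lit 9) (.e (nat_lit 426449) (nat_lit 20) .nil)))))) (.g (nat_lit 4) .nil .nil))))) (.nd (nat_lit 4) (.nd (nat_lit 5) 
(.lf (nat_lit 236299) (.g (nat_lit 1100) (.e (nat_lit 114711) (nat_lit 21) (.e (nat_lit 57844) (nat_lit 252) (.e (nat_lit 57435) (nat_lit 17) (.e (nat_lit 376839) (nat_lit 11) .nil)))) .nil)) 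
(.lf (nat_lit 236331) (.g (nat_lit 2215) (.e (nat_lit 114711) (nat_lit 21) (.e (nat_lit 57846) (nat_lit 252) (.e (nat_lit 57424) (nat_lit 14) (.e (nat_lit 352277) (nat_lit 11) (.e (nat_lit 426189) (nat_lit 9) .nil))))) .nil))) (.nd (nat_lit 5) 
(.lf (nat_lit 236315) (.g (nat_lit 2329) (.e (nat_lit 114711) (nat_lit 21) (.e (nat_lit 57844) (nat_lit 252) (.e (nat_lit 57437) (nat_lit 17) (.e (nat_lit 376842) (nat_lit 11) (.e (nat_lit 426197) (nat_lit 9) (.e (nat_lit 426446) (nat_lit 20) .nil)))))) (.g (nat_lit 4) .nil .nil))) 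
(.lf (nat_lit 236347) (.g (nat_lit 552) (.e (nat_lit 114711) (nat_lit 21) (.e (nat_lit 57846) (nat_lit 252) (.e (nat_lit 57436) (nat_lit 17) .nil))) .nil))))) (.nd (nat_lit 3) (.nd (nat_lit 4) (.nd (nat_lit 5) 
(.lf (nat_lit 236295) (.g (nat_lit 1557) (.e (nat_lit 114711) (nat_lit 21) (.e (nat_lit 57844) (nat_lit 252) (.e (nat_lit 57424) (nat_lit 14) (.e (nat_lit 352277) (nat_lit 11) (.e (nat_lit 426189) (nat_lit 9) .nil))))) .nil)) 
(.lf (nat_lit 236327) (.g (nat_lit 1668) (.e (nat_lit 114711) (nat_lit 21) (.e (nat_lit 57846) (nat_lit 252) (.e (nat_lit 57424) (nat_lit 14) (.e (nat_lit 352273) (nat_lit 11) .nil)))) .nil))) (.nd (nat_lit 5) 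
(.lf (nat_lit 236311) (.g (nat_lit 2423) (.e (nat_lit 114711) (nat_lit 21) (.e (nat_lit 57844) (nat_lit 252) (.e (nat_lit 57437) (nat_lit 17) (.e (nat_lit 376842) (nat_lit 11) (.e (nat_lit 426186) (nat_lit 9) (.e (nat_lit 426446) (nat_lit 20) .nil)))))) (.g (nat_lit 4) .nil .nil))) 
(.lf (nat_lit 236343) (.g (nat_lit 3245) (.e (nat_lit 114711) (nat_lit 21) (.e (nat_lit 57846) (nat_lit 252) (.e (nat_lit 57435) (nat_lit 17) (.e (nat_lit 376842) (nat_lit 11) (.e (nat_lit 426197) (nat_lit 9) (.e (nat_lit 426448) (nat_lit 20) .nil)))))) (.g (nat_lit 6) .nil .nil))))) (.nd (nat_lit 4) (.nd (nat_lit 5) 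
(.lf (nat_lit 236303) (.g (nat_lit 1764) (.e (nat_lit 114711) (nat_lit 21) (.e (nat_lit 57844) (nat_lit 252) (.e (nat_lit 57435) (nat_lit 17) (.e (nat_lit 376842) (nat_lit 11) (.e (nat_lit 426199) (nat_lit 9) .nil))))) .nil)) 
(.lf (nat_lit 236335) (.g (nat_lit 1366) (.e (nat_lit 114711) (nat_lit 21) (.e (nat_lit 57846) (nat_lit 252) (.e (nat_lit 57435) (nat_lit 17) (.e (nat_lit 376838) (nat_lit 11) .nil)))) .nil))) (.nd (nat_lit 5) 
(.lf (nat_lit 236319) (.g (nat_lit 2351) (.e (nat_lit 114711) (nat_lit 21) (.e (nat_lit 57846) (nat_lit 252) (.e (nat_lit 57411) (nat_lit 12) (.e (nat_lit 336211) (nat_lit 13) (.e (nat_lit 393268) (nat_lit 23) (.e (nat_lit 426446) (nat_lit 20) .nil)))))) (.g (nat_lit 4) .nil .nil))) 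
(.lf (nat_lit 236351) (.g (nat_lit 3064) (.e (nat_lit 114711) (nat_lit 21) (.e (nat_lit 57846) (nat_lit 252) (.e (nat_lit 57436) (nat_lit 17) (.e (nat_lit 376842) (nat_lit 11) (.e (nat_lit 426188) (nat_lit 9) (.e (nat_lit 426446) (nat_lit 20) .nil)))))) (.g (nat_lit 5) .nil .nil)))))))))

noncomputable def tv3082 : DT := (.nd (nat_lit 0) (.nd (nat_lit 1) (.nd (nat_lit 2) (.nd (nat_lit 3) (.nd (nat_lit 4) (.nd (nat_lit 5) 
(.lf (nat_lit 236352) (.g (nat_lit 2321) (.e (nat_lit 114711) (nat_lit 21) (.e (nat_lit 57846) (nat_lit 252) (.e (nat_lit 57436) (nat_lit 17) (.e (nat_lit 376842) (nat_lit 11) (.e (nat_lit 426197) (nat_lit 9) (.e (nat_lit 426446) (nat_lit 20) .nil)))))) (.g (nat_lit 4) .nil .nil))) 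
(.lf (nat_lit 236384) (.g (nat_lit 2965) (.e (nat_lit 114711) (nat_lit 21) (.e (nat_lit 57847) (nat_lit 252) (.e (nat_lit 57365) (nat_lit 1) (.e (nat_lit 57852) (nat_lit 252) (.e (nat_lit 57406) (nat_lit 12) (.e (nat_lit 336446) (nat_lit 33) (.e (nat_lit 475213) (nat_lit 42) (.e (nat_lit 720956) (nat_lit 25) .nil)))))))) (.g (nat_lit 5) .nil .nil)))) (.nd (nat_lit 5) 
(.lf (nat_lit 236368) (.g (nat_lit 4098) (.e (nat_lit 114711) (nat_lit 21) (.e (nat_lit 57847) (nat_lit 252) (.e (nat_lit 57348) (nat_lit 0) (.e (nat_lit 2031) (nat_lit 140) (.e (nat_lit 688182) (nat_lit 17) (.e (nat_lit 73755) (nat_lit 8) (.e (nat_lit 557097) (nat_lit 13) (.e (nat_lit 179968) (nat_lit 20) .nil)))))))) (.g (nat_lit 7) .nil .nil))) 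
(.lf (nat_lit 236400) (.g (nat_lit 582) (.e (nat_lit 114711) (nat_lit 21) (.e (nat_lit 57847) (nat_lit 252) (.e (nat_lit 57367) (nat_lit 1) .nil))) .nil)))) (.nd (nat_lit 4) (.nd (nat_lit 5) 
(.lf (nat_lit 236360) (.g (nat_lit 2433) (.e (nat_lit 114711) (nat_lit 21) (.e (nat_lit 57846) (nat_lit 252) (.e (nat_lit 57437) (nat_lit 17) (.e (nat_lit 376842) (nat_lit 11) (.e (nat_lit 426204) (nat_lit 9) (.e (nat_lit 433920) (nat_lit 20) .nil)))))) (.g (nat_lit 4) .nil .nil))) 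
(.lf (nat_lit 236392) (.g (nat_lit 2772) (.e (nat_lit 114711) (nat_lit 21) (.e (nat_lit 57847) (nat_lit 252) (.e (nat_lit 57365) (nat_lit 1) (.e (nat_lit 57854) (nat_lit 252) (.e (nat_lit 57445) (nat_lit 19) (.e (nat_lit 393223) (nat_lit 0) (.e (nat_lit 2187) (nat_lit 144) (.e (nat_lit 720956) (nat_lit 25) .nil)))))))) (.g (nat_lit 5) .nil .nil)))) (.nd (nat_lit 5) 
(.lf (nat_lit 236376) (.g (nat_lit 4055) (.e (nat_lit 114711) (nat_lit 21) (.e (nat_lit 57847) (nat_lit 252) (.e (nat_lit 57365) (nat_lit 1) (.e (nat_lit 57724) (nat_lit 181) (.e (nat_lit 1211) (nat_lit 89) (.e (nat_lit 73754) (nat_lit 8) (.e (nat_lit 557100) (nat_lit 13) (.e (nat_lit 179968) (nat_lit 20) .nil)))))))) (.g (nat_lit 7) .nil .nil))) 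
(.lf (nat_lit 236408) (.g (nat_lit 3446) (.e (nat_lit 114711) (nat_lit 21) (.e (nat_lit 57847) (nat_lit 252) (.e (nat_lit 57368) (nat_lit 1) (.e (nat_lit 57854) (nat_lit 252) (.e (nat_lit 57409) (nat_lit 12) (.e (nat_lit 336445) (nat_lit 33) (.e (nat_lit 475212) (nat_lit 42) (.e (nat_lit 720956) (nat_lit 25) .nil)))))))) (.g (nat_lit 5) .nil .nil)))))) 
(.nd (nat_lit 3) (.nd (nat_lit 4) (.nd (nat_lit 5) 
(.lf (nat_lit 236356) (.g (nat_lit 3359) (.e (nat_lit 114711) (nat_lit 21) (.e (nat_lit 57846) (nat_lit 252) (.e (nat_lit 57437) (nat_lit 17) (.e (nat_lit 376842) (nat_lit 11) (.e (nat_lit 426197) (nat_lit 9) (.e (nat_lit 426448) (nat_lit 20) .nil)))))) (.g (nat_lit 6) .nil .nil))) 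
(.lf (nat_lit 236388) (.g (nat_lit 1493) (.e (nat_lit 114711) (nat_lit 21) (.e (nat_lit 57847) (nat_lit 252) (.e (nat_lit 57365) (nat_lit 1) (.e (nat_lit 57854) (nat_lit 252) (.e (nat_lit 57445) (nat_lit 19) .nil))))) .nil))) (.nd (nat_lit 5) 
(.lf (nat_lit 236372) (.g (nat_lit 2614) (.e (nat_lit 114711) (nat_lit 21) (.e (nat_lit 57847) (nat_lit 252) (.e (nat_lit 57348) (nat_lit 0) (.e (nat_lit 2202) (nat_lit 144) (.e (nat_lit 720956) (nat_lit 25) (.e (nat_lit 114716) (nat_lit 22) (.e (nat_lit 90168) (nat_lit 13) (.e (nat_lit 179968) (nat_lit 20) .nil)))))))) (.g (nat_lit 7) .nil .nil))) 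
(.lf (nat_lit 236404) (.g (nat_lit 1823) (.e (nat_lit 114711) (nat_lit 21) (.e (nat_lit 57847) (nat_lit 252) (.e (nat_lit 57368) (nat_lit 1) (.e (nat_lit 57854) (nat_lit 252) (.e (nat_lit 57405) (nat_lit 12) .nil))))) .nil)))) (.nd (nat_lit 4) (.nd (nat_lit 5) 
(.lf (nat_lit 236364) (.g (nat_lit 1498) (.e (nat_lit 114711) (nat_lit 21) (.e (nat_lit 57847) (nat_lit 252) (.e (nat_lit 57348) (nat_lit 0) (.e (nat_lit 2031) (nat_lit 140) (.e (nat_lit 688180) (nat_lit 17) .nil))))) .nil)) 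
(.lf (nat_lit 236396) (.g (nat_lit 2701) (.e (nat_lit 114711) (nat_lit 21) (.e (nat_lit 57847) (nat_lit 252) (.e (nat_lit 57365) (nat_lit 1) (.e (nat_lit 57854) (nat_lit 252) (.e (nat_lit 57447) (nat_lit 19) (.e (nat_lit 393222) (nat_lit 0) (.e (nat_lit 2184) (nat_lit 144) (.e (nat_lit 720956) (nat_lit 25) .nil)))))))) (.g (nat_lit 5) .nil .nil)))) (.nd (nat_lit 5) 
(.lf (nat_lit 236380) (.g (nat_lit 2703) (.e (nat_lit 114711) (nat_lit 21) (.e (nat_lit 57847) (nat_lit 252) (.e (nat_lit 57365) (nat_lit 1) (.e (nat_lit 57731) (nat_lit 181) (.e (nat_lit 1211) (nat_lit 89) (.e (nat_lit 73755) (nat_lit 8) (.e (nat_lit 557097) (nat_lit 13) (.e (nat_lit 179968) (nat_lit 20) .nil)))))))) (.g (nat_lit 6) .nil .nil))) 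
(.lf (nat_lit 236412) (.g (nat_lit 2225) (.e (nat_lit 114711) (nat_lit 21) (.e (nat_lit 57847) (nat_lit 252) (.e (nat_lit 57368) (nat_lit 1) (.e (nat_lit 57854) (nat_lit 252) (.e (nat_lit 57445) (nat_lit 19) (.e (nat_lit 393217) (nat_lit 0) (.e (nat_lit 2186) (nat_lit 144) (.e (nat_lit 720955) (nat_lit 25) .nil)))))))) (.g (nat_lit 4) .nil .nil))))))) 
(.nd (nat_lit 2) (.nd (nat_lit 3) (.nd (nat_lit 4) (.nd (nat_lit 5) 
(.lf (nat_lit 236354) (.g (nat_lit 2594) (.e (nat_lit 114711) (nat_lit 21) (.e (nat_lit 57846) (nat_lit 252) (.e (nat_lit 57437) (nat_lit 17) (.e (nat_lit 376842) (nat_lit 11) (.e (nat_lit 426196) (nat_lit 9) (.e (nat_lit 426446) (nat_lit 20) .nil)))))) (.g (nat_lit 4) .nil .nil))) 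
(.lf (nat_lit 236386) (.g (nat_lit 1670) (.e (nat_lit 114711) (nat_lit 21) (.e (nat_lit 57847) (nat_lit 252) (.e (nat_lit 57365) (nat_lit 1) (.e (nat_lit 57854) (nat_lit 252) (.e (nat_lit 57405) (nat_lit 12) .nil))))) .nil))) (.nd (nat_lit 5) 
(.lf (nat_lit 236370) (.g (nat_lit 3691) (.e (nat_lit 114711) (nat_lit 21) (.e (nat_lit 57847) (nat_lit 252) (.e (nat_lit 57348) (nat_lit 0) (.e (nat_lit 2202) (nat_lit 144) (.e (nat_lit 720954) (nat_lit 25) (.e (nat_lit 114714) (nat_lit 22) (.e (nat_lit 90170) (nat_lit 13) (.e (nat_lit 179968) (nat_lit 20) .nil)))))))) (.g (nat_lit 7) .nil .nil))) 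
(.lf (nat_lit 236402) (.g (nat_lit 2610) (.e (nat_lit 114711) (nat_lit 21) (.e (nat_lit 57847) (nat_lit 252) (.e (nat_lit 57368) (nat_lit 1) (.e (nat_lit 57852) (nat_lit 252) (.e (nat_lit 57406) (nat_lit 12) (.e (nat_lit 336450) (nat_lit 33) (.e (nat_lit 475213) (nat_lit 42) (.e (nat_lit 720956) (nat_lit 25) .nil)))))))) (.g (nat_lit 5) .nil .nil))))) (.nd (nat_lit 4) (.nd (nat_lit 5) 
(.lf (nat_lit 236362) (.g (nat_lit 870) (.e (nat_lit 114711) (nat_lit 21) (.e (nat_lit 57847) (nat_lit 252) (.e (nat_lit 57346) (nat_lit 0) (.e (nat_lit 6437) (nat_lit 343) .nil)))) .nil)) 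
(.lf (nat_lit 236394) (.g (nat_lit 2722) (.e (nat_lit 114711) (nat_lit 21) (.e (nat_lit 57847) (nat_lit 252) (.e (nat_lit 57365) (nat_lit 1) (.e (nat_lit 57854) (nat_lit 252) (.e (nat_lit 57447) (nat_lit 19) (.e (nat_lit 393217) (nat_lit 0) (.e (nat_lit 2184) (nat_lit 144) (.e (nat_lit 720956) (nat_lit 25) .nil)))))))) (.g (nat_lit 5) .nil .nil)))) (.nd (nat_lit 5) 
(.lf (nat_lit 236378) (.g (nat_lit 4331) (.e (nat_lit 114711) (nat_lit 21) (.e (nat_lit 57847) (nat_lit 252) (.e (nat_lit 57365) (nat_lit 1) (.e (nat_lit 57731) (nat_lit 181) (.e (nat_lit 1209) (nat_lit 89) (.e (nat_lit 73753) (nat_lit 8) (.e (nat_lit 557100) (nat_lit 13) (.e (nat_lit 179968) (nat_lit 20) .nil)))))))) (.g (nat_lit 7) .nil .nil))) 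
(.lf (nat_lit 236410) (.g (nat_lit 1808) (.e (nat_lit 114711) (nat_lit 21) (.e (nat_lit 57847) (nat_lit 252) (.e (nat_lit 57368) (nat_lit 1) (.e (nat_lit 57854) (nat_lit 252) (.e (nat_lit 57445) (nat_lit 19) .nil))))) .nil))))) (.nd (nat_lit 3) (.nd (nat_lit 4) (.nd (nat_lit 5) 
(.lf (nat_lit 236358) (.g (nat_lit 3525) (.e (nat_lit 114711) (nat_lit 21) (.e (nat_lit 57846) (nat_lit 252) (.e (nat_lit 57437) (nat_lit 17) (.e (nat_lit 376842) (nat_lit 11) (.e (nat_lit 426198) (nat_lit 9) (.e (nat_lit 426448) (nat_lit 20) .nil)))))) (.g (nat_lit 6) .nil .nil))) 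
(.lf (nat_lit 236390) (.g (nat_lit 1915) (.e (nat_lit 114711) (nat_lit 21) (.e (nat_lit 57847) (nat_lit 252) (.e (nat_lit 57365) (nat_lit 1) (.e (nat_lit 57854) (nat_lit 252) (.e (nat_lit 57445) (nat_lit 19) (.e (nat_lit 393219) (nat_lit 0) (.e (nat_lit 2184) (nat_lit 144) (.e (nat_lit 720956) (nat_lit 25) .nil)))))))) (.g (nat_lit 4) .nil .nil)))) (.nd (nat_lit 5) 
(.lf (nat_lit 236374) (.g (nat_lit 450) (.e (nat_lit 114711) (nat_lit 21) (.e (nat_lit 57847) (nat_lit 252) (.e (nat_lit 57363) (nat_lit 1) .nil))) .nil)) 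
(.lf (nat_lit 236406) (.g (nat_lit 3057) (.e (nat_lit 114711) (nat_lit 21) (.e (nat_lit 57847) (nat_lit 252) (.e (nat_lit 57368) (nat_lit 1) (.e (nat_lit 57854) (nat_lit 252) (.e (nat_lit 57406) (nat_lit 12) (.e (nat_lit 336445) (nat_lit 33) (.e (nat_lit 475212) (nat_lit 42) (.e (nat_lit 720956) (nat_lit 25) .nil)))))))) (.g (nat_lit 5) .nil .nil))))) (.nd (nat_lit 4) (.nd (nat_lit 5) 
(.lf (nat_lit 236366) (.g (nat_lit 4668) (.e (nat_lit 114711) (nat_lit 21) (.e (nat_lit 57847) (nat_lit 252) (.e (nat_lit 57348) (nat_lit 0) (.e (nat_lit 2031) (nat_lit 140) (.e (nat_lit 688182) (nat_lit 17) (.e (nat_lit 73754) (nat_lit 8) (.e (nat_lit 557100) (nat_lit 13) (.e (nat_lit 179968) (nat_lit 20) .nil)))))))) (.g (nat_lit 7) .nil .nil))) 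
(.lf (nat_lit 236398) (.g (nat_lit 2287) (.e (nat_lit 114711) (nat_lit 21) (.e (nat_lit 57847) (nat_lit 252) (.e (nat_lit 57365) (nat_lit 1) (.e (nat_lit 57854) (nat_lit 252) (.e (nat_lit 57447) (nat_lit 19) (.e (nat_lit 393223) (nat_lit 0) (.e (nat_lit 2185) (nat_lit 144) (.e (nat_lit 720955) (nat_lit 25) .nil)))))))) (.g (nat_lit 4) .nil .nil)))) (.nd (nat_lit 5) 
(.lf (nat_lit 236382) (.g (nat_lit 1255) (.e (nat_lit 114711) (nat_lit 21) (.e (nat_lit 57847) (nat_lit 252) (.e (nat_lit 57365) (nat_lit 1) (.e (nat_lit 57851) (nat_lit 252) (.e (nat_lit 57445) (nat_lit 19) .nil))))) .nil)) 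
(.lf (nat_lit 236414) (.g (nat_lit 1921) (.e (nat_lit 114711) (nat_lit 21) (.e (nat_lit 57847) (nat_lit 252) (.e (nat_lit 57368) (nat_lit 1) (.e (nat_lit 57854) (nat_lit 252) (.e (nat_lit 57447) (nat_lit 19) .nil))))) .nil))))))) (.nd (nat_lit 1) (.nd (nat_lit 2) (.nd (nat_lit 3) (.nd (nat_lit 4) (.nd (nat_lit 5) 
(.lf (nat_lit 236353) (.g (nat_lit 2898) (.e (nat_lit 114711) (nat_lit 21) (.e (nat_lit 57846) (nat_lit 252) (.e (nat_lit 57436) (nat_lit 17) (.e (nat_lit 376842) (nat_lit 11) (.e (nat_lit 426197) (nat_lit 9) (.e (nat_lit 426448) (nat_lit 20) .nil)))))) (.g (nat_lit 6) .nil .nil))) 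
(.lf (nat_lit 236385) (.g (nat_lit 1519) (.e (nat_lit 114711) (nat_lit 21) (.e (nat_lit 57847) (nat_lit 252) (.e (nat_lit 57365) (nat_lit 1) (.e (nat_lit 57852) (nat_lit 252) (.e (nat_lit 57445) (nat_lit 19) .nil))))) .nil))) (.nd (nat_lit 5) 
(.lf (nat_lit 236369) (.g (nat_lit 4842) (.e (nat_lit 114711) (nat_lit 21) (.e (nat_lit 57847) (nat_lit 252) (.e (nat_lit 57348) (nat_lit 0) (.e (nat_lit 2031) (nat_lit 140) (.e (nat_lit 688182) (nat_lit 17) (.e (nat_lit 73755) (nat_lit 8) (.e (nat_lit 557098) (nat_lit 13) (.e (nat_lit 179968) (nat_lit 20) .nil)))))))) (.g (nat_lit 7) .nil .nil))) 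
(.lf (nat_lit 236401) (.g (nat_lit 2431) (.e (nat_lit 114711) (nat_lit 21) (.e (nat_lit 57847) (nat_lit 252) (.e (nat_lit 57368) (nat_lit 1) (.e (nat_lit 57852) (nat_lit 252) (.e (nat_lit 57406) (nat_lit 12) (.e (nat_lit 336446) (nat_lit 33) (.e (nat_lit 475213) (nat_lit 42) (.e (nat_lit 720956) (nat_lit 25) .nil)))))))) (.g (nat_lit 5) .nil .nil))))) (.nd (nat_lit 4) (.nd (nat_lit 5) 
(.lf (nat_lit 236361) (.g (nat_lit 2344) (.e (nat_lit 114711) (nat_lit 21) (.e (nat_lit 57846) (nat_lit 252) (.e (nat_lit 57437) (nat_lit 17) (.e (nat_lit 376842) (nat_lit 11) (.e (nat_lit 426258) (nat_lit 9) .nil))))) .nil)) 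
(.lf (nat_lit 236393) (.g (nat_lit 1526) (.e (nat_lit 114711) (nat_lit 21) (.e (nat_lit 57847) (nat_lit 252) (.e (nat_lit 57365) (nat_lit 1) (.e (nat_lit 57854) (nat_lit 252) (.e (nat_lit 57447) (nat_lit 19) .nil))))) .nil))) (.nd (nat_lit 5) 
(.lf (nat_lit 236377) (.g (nat_lit 2724) (.e (nat_lit 114711) (nat_lit 21) (.e (nat_lit 57847) (nat_lit 252) (.e (nat_lit 57365) (nat_lit 1) (.e (nat_lit 57724) (nat_lit 181) (.e (nat_lit 1211) (nat_lit 89) (.e (nat_lit 73755) (nat_lit 8) (.e (nat_lit 557097) (nat_lit 13) (.e (nat_lit 179968) (nat_lit 20) .nil)))))))) (.g (nat_lit 6) .nil .nil))) 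
(.lf (nat_lit 236409) (.g (nat_lit 2847) (.e (nat_lit 114711) (nat_lit 21) (.e (nat_lit 57847) (nat_lit 252) (.e (nat_lit 57368) (nat_lit 1) (.e (nat_lit 57854) (nat_lit 252) (.e (nat_lit 57409) (nat_lit 12) (.e (nat_lit 336446) (nat_lit 33) (.e (nat_lit 475213) (nat_lit 42) (.e (nat_lit 720956) (nat_lit 25) .nil)))))))) (.g (nat_lit 5) .nil .nil)))))) 
(.nd (nat_lit 3) (.nd (nat_lit 4) (.nd (nat_lit 5) 
(.lf (nat_lit 236357) (.g (nat_lit 3448) (.e (nat_lit 114711) (nat_lit 21) (.e (nat_lit 57846) (nat_lit 252) (.e (nat_lit 57437) (nat_lit 17) (.e (nat_lit 376842) (nat_lit 11) (.e (nat_lit 426198) (nat_lit 9) (.e (nat_lit 426446) (nat_lit 20) .nil)))))) (.g (nat_lit 5) .nil .nil))) 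
(.lf (nat_lit 236389) (.g (nat_lit 1935) (.e (nat_lit 114711) (nat_lit 21) (.e (nat_lit 57847) (nat_lit 252) (.e (nat_lit 57365) (nat_lit 1) (.e (nat_lit 57854) (nat_lit 252) (.e (nat_lit 57445) (nat_lit 19) (.e (nat_lit 393217) (nat_lit 0) (.e (nat_lit 2189) (nat_lit 144) (.e (nat_lit 720955) (nat_lit 25) .nil)))))))) (.g (nat_lit 4) .nil .nil)))) (.nd (nat_lit 5) 
(.lf (nat_lit 236373) (.g (nat_lit 2766) (.e (nat_lit 114711) (nat_lit 21) (.e (nat_lit 57847) (nat_lit 252) (.e (nat_lit 57348) (nat_lit 0) (.e (nat_lit 2202) (nat_lit 144) (.e (nat_lit 720956) (nat_lit 25) (.e (nat_lit 114716) (nat_lit 22) (.e (nat_lit 90169) (nat_lit 13) (.e (nat_lit 179968) (nat_lit 20) .nil)))))))) (.g (nat_lit 7) .nil .nil))) 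
(.lf (nat_lit 236405) (.g (nat_lit 1807) (.e (nat_lit 114711) (nat_lit 21) (.e (nat_lit 57847) (nat_lit 252) (.e (nat_lit 57368) (nat_lit 1) (.e (nat_lit 57854) (nat_lit 252) (.e (nat_lit 57406) (nat_lit 12) .nil))))) .nil)))) (.nd (nat_lit 4) (.nd (nat_lit 5) 
(.lf (nat_lit 236365) (.g (nat_lit 1930) (.e (nat_lit 114711) (nat_lit 21) (.e (nat_lit 57847) (nat_lit 252) (.e (nat_lit 57348) (nat_lit 0) (.e (nat_lit 2031) (nat_lit 140) (.e (nat_lit 688182) (nat_lit 17) (.e (nat_lit 73754) (nat_lit 8) (.e (nat_lit 557095) (nat_lit 13) (.e (nat_lit 179968) (nat_lit 20) .nil)))))))) (.g (nat_lit 4) .nil .nil))) 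
(.lf (nat_lit 236397) (.g (nat_lit 2768) (.e (nat_lit 114711) (nat_lit 21) (.e (nat_lit 57847) (nat_lit 252) (.e (nat_lit 57365) (nat_lit 1) (.e (nat_lit 57854) (nat_lit 252) (.e (nat_lit 57447) (nat_lit 19) (.e (nat_lit 393222) (nat_lit 0) (.e (nat_lit 2185) (nat_lit 144) (.e (nat_lit 720956) (nat_lit 25) .nil)))))))) (.g (nat_lit 5) .nil .nil)))) (.nd (nat_lit 5) 
(.lf (nat_lit 236381) (.g (nat_lit 2836) (.e (nat_lit 114711) (nat_lit 21) (.e (nat_lit 57847) (nat_lit 252) (.e (nat_lit 57365) (nat_lit 1) (.e (nat_lit 57851) (nat_lit 252) (.e (nat_lit 57406) (nat_lit 12) (.e (nat_lit 336450) (nat_lit 33) (.e (nat_lit 475213) (nat_lit 42) (.e (nat_lit 720956) (nat_lit 25) .nil)))))))) (.g (nat_lit 5) .nil .nil))) 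
(.lf (nat_lit 236413) (.g (nat_lit 2810) (.e (nat_lit 114711) (nat_lit 21) (.e (nat_lit 57847) (nat_lit 252) (.e (nat_lit 57368) (nat_lit 1) (.e (nat_lit 57854) (nat_lit 252) (.e (nat_lit 57445) (nat_lit 19) (.e (nat_lit 393223) (nat_lit 0) (.e (nat_lit 2184) (nat_lit 144) (.e (nat_lit 720956) (nat_lit 25) .nil)))))))) (.g (nat_lit 5) .nil .nil))))))) 
(.nd (nat_lit 2) (.nd (nat_lit 3) (.nd (nat_lit 4) (.nd (nat_lit 5) 
(.lf (nat_lit 236355) (.g (nat_lit 2898) (.e (nat_lit 114711) (nat_lit 21) (.e (nat_lit 57846) (nat_lit 252) (.e (nat_lit 57437) (nat_lit 17) (.e (nat_lit 376842) (nat_lit 11) (.e (nat_lit 426197) (nat_lit 9) (.e (nat_lit 426446) (nat_lit 20) .nil)))))) (.g (nat_lit 4) .nil .nil))) 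
(.lf (nat_lit 236387) (.g (nat_lit 2666) (.e (nat_lit 114711) (nat_lit 21) (.e (nat_lit 57847) (nat_lit 252) (.e (nat_lit 57365) (nat_lit 1) (.e (nat_lit 57854) (nat_lit 252) (.e (nat_lit 57406) (nat_lit 12) (.e (nat_lit 336448) (nat_lit 33) (.e (nat_lit 475212) (nat_lit 42) (.e (nat_lit 720956) (nat_lit 25) .nil)))))))) (.g (nat_lit 5) .nil .nil)))) (.nd (nat_lit 5) 
(.lf (nat_lit 236371) (.g (nat_lit 3801) (.e (nat_lit 114711) (nat_lit 21) (.e (nat_lit 57847) (nat_lit 252) (.e (nat_lit 57348) (nat_lit 0) (.e (nat_lit 2202) (nat_lit 144) (.e (nat_lit 720956) (nat_lit 25) (.e (nat_lit 114715) (nat_lit 22) (.e (nat_lit 90170) (nat_lit 13) (.e (nat_lit 179968) (nat_lit 20) .nil)))))))) (.g (nat_lit 7) .nil .nil))) 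
(.lf (nat_lit 236403) (.g (nat_lit 1858) (.e (nat_lit 114711) (nat_lit 21) (.e (nat_lit 57847) (nat_lit 252) (.e (nat_lit 57368) (nat_lit 1) (.e (nat_lit 57854) (nat_lit 252) (.e (nat_lit 57378) (nat_lit 3) .nil))))) .nil)))) (.nd (nat_lit 4) (.nd (nat_lit 5) 
(.lf (nat_lit 236363) (.g (nat_lit 1594) (.e (nat_lit 114711) (nat_lit 21) (.e (nat_lit 57847) (nat_lit 252) (.e (nat_lit 57347) (nat_lit 0) (.e (nat_lit 2203) (nat_lit 144) (.e (nat_lit 720956) (nat_lit 25) .nil))))) .nil)) 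
(.lf (nat_lit 236395) (.g (nat_lit 2210) (.e (nat_lit 114711) (nat_lit 21) (.e (nat_lit 57847) (nat_lit 252) (.e (nat_lit 57365) (nat_lit 1) (.e (nat_lit 57854) (nat_lit 252) (.e (nat_lit 57447) (nat_lit 19) (.e (nat_lit 393217) (nat_lit 0) (.e (nat_lit 2189) (nat_lit 144) (.e (nat_lit 720955) (nat_lit 25) .nil)))))))) (.g (nat_lit 4) .nil .nil)))) (.nd (nat_lit 5) 
(.lf (nat_lit 236379) (.g (nat_lit 4048) (.e (nat_lit 114711) (nat_lit 21) (.e (nat_lit 57847) (nat_lit 252) (.e (nat_lit 57365) (nat_lit 1) (.e (nat_lit 57731) (nat_lit 181) (.e (nat_lit 1211) (nat_lit 89) (.e (nat_lit 73754) (nat_lit 8) (.e (nat_lit 557100) (nat_lit 13) (.e (nat_lit 179968) (nat_lit 20) .nil)))))))) (.g (nat_lit 7) .nil .nil))) 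
(.lf (nat_lit 236411) (.g (nat_lit 2904) (.e (nat_lit 114711) (nat_lit 21) (.e (nat_lit 57847) (nat_lit 252) (.e (nat_lit 57368) (nat_lit 1) (.e (nat_lit 57854) (nat_lit 252) (.e (nat_lit 57445) (nat_lit 19) (.e (nat_lit 393217) (nat_lit 0) (.e (nat_lit 2185) (nat_lit 144) (.e (nat_lit 720956) (nat_lit 25) .nil)))))))) (.g (nat_lit 5) .nil .nil)))))) 
(.nd (nat_lit 3) (.nd (nat_lit 4) (.nd (nat_lit 5) 
(.lf (nat_lit 236359) (.g (nat_lit 1877) (.e (nat_lit 114711) (nat_lit 21) (.e (nat_lit 57846) (nat_lit 252) (.e (nat_lit 57437) (nat_lit 17) (.e (nat_lit 376842) (nat_lit 11) (.e (nat_lit 426200) (nat_lit 9) .nil))))) .nil)) 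
(.lf (nat_lit 236391) (.g (nat_lit 2833) (.e (nat_lit 114711) (nat_lit 21) (.e (nat_lit 57847) (nat_lit 252) (.e (nat_lit 57365) (nat_lit 1) (.e (nat_lit 57854) (nat_lit 252) (.e (nat_lit 57445) (nat_lit 19) (.e (nat_lit 393223) (nat_lit 0) (.e (nat_lit 2185) (nat_lit 144) (.e (nat_lit 720956) (nat_lit 25) .nil)))))))) (.g (nat_lit 5) .nil .nil)))) (.nd (nat_lit 5) 
(.lf (nat_lit 236375) (.g (nat_lit 2290) (.e (nat_lit 114711) (nat_lit 21) (.e (nat_lit 57847) (nat_lit 252) (.e (nat_lit 57363) (nat_lit 1) (.e (nat_lit 57847) (nat_lit 252) (.e (nat_lit 57407) (nat_lit 12) (.e (nat_lit 336446) (nat_lit 33) (.e (nat_lit 475213) (nat_lit 42) (.e (nat_lit 720956) (nat_lit 25) .nil)))))))) (.g (nat_lit 5) .nil .nil))) 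
(.lf (nat_lit 236407) (.g (nat_lit 2711) (.e (nat_lit 114711) (nat_lit 21) (.e (nat_lit 57847) (nat_lit 252) (.e (nat_lit 57368) (nat_lit 1) (.e (nat_lit 57854) (nat_lit 252) (.e (nat_lit 57406) (nat_lit 12) (.e (nat_lit 336446) (nat_lit 33) (.e (nat_lit 475213) (nat_lit 42) (.e (nat_lit 720956) (nat_lit 25) .nil)))))))) (.g (nat_lit 5) .nil .nil))))) (.nd (nat_lit 4) (.nd (nat_lit 5) 
(.lf (nat_lit 236367) (.g (nat_lit 2810) (.e (nat_lit 114711) (nat_lit 21) (.e (nat_lit 57847) (nat_lit 252) (.e (nat_lit 57348) (nat_lit 0) (.e (nat_lit 2031) (nat_lit 140) (.e (nat_lit 688182) (nat_lit 17) (.e (nat_lit 73755) (nat_lit 8) (.e (nat_lit 557096) (nat_lit 13) (.e (nat_lit 179968) (nat_lit 20) .nil)))))))) (.g (nat_lit 6) .nil .nil))) 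
(.lf (nat_lit 236399) (.g (nat_lit 3747) (.e (nat_lit 114711) (nat_lit 21) (.e (nat_lit 57847) (nat_lit 252) (.e (nat_lit 57365) (nat_lit 1) (.e (nat_lit 57854) (nat_lit 252) (.e (nat_lit 57447) (nat_lit 19) (.e (nat_lit 393238) (nat_lit 17) (.e (nat_lit 2400) (nat_lit 157) (.e (nat_lit 5570) (nat_lit 308) (.e (nat_lit 57390) (nat_lit 5) .nil))))))))) (.g (nat_lit 6) .nil .nil)))) 
(.nd (nat_lit 5) 
(.lf (nat_lit 236383) (.g (nat_lit 1619) (.e (nat_lit 114711) (nat_lit 21) (.e (nat_lit 57847) (nat_lit 252) (.e (nat_lit 57365) (nat_lit 1) (.e (nat_lit 57851) (nat_lit 252) (.e (nat_lit 57445) (nat_lit 19) (.e (nat_lit 393217) (nat_lit 0) (.e (nat_lit 2185) (nat_lit 144) (.e (nat_lit 720956) (nat_lit 25) .nil)))))))) (.g (nat_lit 4) .nil .nil))) 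
(.lf (nat_lit 236415) (.g (nat_lit 3447) (.e (nat_lit 114711) (nat_lit 21) (.e (nat_lit 57847) (nat_lit 252) (.e (nat_lit 57368) (nat_lit 1) (.e (nat_lit 57854) (nat_lit 252) (.e (nat_lit 57447) (nat_lit 19) (.e (nat_lit 393217) (nat_lit 0) (.e (nat_lit 2185) (nat_lit 144) (.e (nat_lit 720956) (nat_lit 25) .nil)))))))) (.g (nat_lit 5) .nil .nil)))))))))

noncomputable def tv3083 : DT := (.nd (nat_lit 0) (.nd (nat_lit 1) (.nd (nat_lit 2) (.nd (nat_lit 3) (.nd (nat_lit 4) (.nd (nat_lit 5) 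
(.lf (nat_lit 236416) (.g (nat_lit 2762) (.e (nat_lit 114711) (nat_lit 21) (.e (nat_lit 57847) (nat_lit 252) (.e (nat_lit 57368) (nat_lit 1) (.e (nat_lit 57854) (nat_lit 252) (.e (nat_lit 57447) (nat_lit 19) (.e (nat_lit 393217) (nat_lit 0) (.e (nat_lit 2186) (nat_lit 144) (.e (nat_lit 720955) (nat_lit 25) .nil)))))))) (.g (nat_lit 4) .nil .nil))) 
(.lf (nat_lit 236448) (.g (nat_lit 2011) (.e (nat_lit 114711) (nat_lit 21) (.e (nat_lit 57847) (nat_lit 252) (.e (nat_lit 57407) (nat_lit 12) (.e (nat_lit 336122) (nat_lit 9) .nil)))) .nil))) (.nd (nat_lit 5) 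
(.lf (nat_lit 236432) (.g (nat_lit 3541) (.e (nat_lit 114711) (nat_lit 21) (.e (nat_lit 57847) (nat_lit 252) (.e (nat_lit 57407) (nat_lit 12) (.e (nat_lit 336019) (nat_lit 3) (.e (nat_lit 98342) (nat_lit 20) (.e (nat_lit 229120) (nat_lit 1) (.e (nat_lit 57846) (nat_lit 252) (.e (nat_lit 57390) (nat_lit 5) .nil)))))))) (.g (nat_lit 4) .nil .nil))) 
(.lf (nat_lit 236464) (.g (nat_lit 2792) (.e (nat_lit 114711) (nat_lit 21) (.e (nat_lit 57847) (nat_lit 252) (.e (nat_lit 57409) (nat_lit 12) (.e (nat_lit 336019) (nat_lit 3) (.e (nat_lit 98341) (nat_lit 20) (.e (nat_lit 229120) (nat_lit 1) (.e (nat_lit 57849) (nat_lit 252) (.e (nat_lit 57390) (nat_lit 5) .nil)))))))) (.g (nat_lit 4) .nil .nil))))) (.nd (nat_lit 4) (.nd (nat_lit 5) 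
(.lf (nat_lit 236424) (.g (nat_lit 3922) (.e (nat_lit 114711) (nat_lit 21) (.e (nat_lit 57847) (nat_lit 252) (.e (nat_lit 57368) (nat_lit 1) (.e (nat_lit 57854) (nat_lit 252) (.e (nat_lit 57447) (nat_lit 19) (.e (nat_lit 393252) (nat_lit 18) (.e (nat_lit 164330) (nat_lit 230) (.e (nat_lit 171776) (nat_lit 66) .nil)))))))) (.g (nat_lit 5) .nil .nil))) 
(.lf (nat_lit 236456) (.g (nat_lit 2288) (.e (nat_lit 114711) (nat_lit 21) (.e (nat_lit 57847) (nat_lit 252) (.e (nat_lit 57407) (nat_lit 12) (.e (nat_lit 336211) (nat_lit 13) (.e (nat_lit 393266) (nat_lit 23) .nil))))) .nil))) (.nd (nat_lit 5) 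
(.lf (nat_lit 236440) (.g (nat_lit 3418) (.e (nat_lit 114711) (nat_lit 21) (.e (nat_lit 57847) (nat_lit 252) (.e (nat_lit 57407) (nat_lit 12) (.e (nat_lit 336019) (nat_lit 3) (.e (nat_lit 98342) (nat_lit 20) (.e (nat_lit 221219) (nat_lit 24) (.e (nat_lit 213003) (nat_lit 9) (.e (nat_lit 124) (nat_lit 5) .nil)))))))) (.g (nat_lit 4) .nil .nil))) 
(.lf (nat_lit 236472) (.g (nat_lit 1690) (.e (nat_lit 114711) (nat_lit 21) (.e (nat_lit 57847) (nat_lit 252) (.e (nat_lit 57411) (nat_lit 12) (.e (nat_lit 336114) (nat_lit 9) .nil)))) .nil))))) (.nd (nat_lit 3) (.nd (nat_lit 4) (.nd (nat_lit 5) 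
(.lf (nat_lit 236420) (.g (nat_lit 2493) (.e (nat_lit 114711) (nat_lit 21) (.e (nat_lit 57847) (nat_lit 252) (.e (nat_lit 57368) (nat_lit 1) (.e (nat_lit 57854) (nat_lit 252) (.e (nat_lit 57447) (nat_lit 19) (.e (nat_lit 393234) (nat_lit 17) (.e (nat_lit 2411) (nat_lit 157) (.e (nat_lit 5568) (nat_lit 308) (.e (nat_lit 57390) (nat_lit 5) .nil))))))))) (.g (nat_lit 4) .nil .nil))) 
(.lf (nat_lit 236452) (.g (nat_lit 2023) (.e (nat_lit 114711) (nat_lit 21) (.e (nat_lit 57847) (nat_lit 252) (.e (nat_lit 57407) (nat_lit 12) (.e (nat_lit 336208) (nat_lit 12) .nil)))) .nil))) (.nd (nat_lit 5) 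
(.lf (nat_lit 236436) (.g (nat_lit 3492) (.e (nat_lit 114711) (nat_lit 21) (.e (nat_lit 57847) (nat_lit 252) (.e (nat_lit 57407) (nat_lit 12) (.e (nat_lit 336019) (nat_lit 3) (.e (nat_lit 98342) (nat_lit 20) (.e (nat_lit 221219) (nat_lit 24) (.e (nat_lit 213000) (nat_lit 9) (.e (nat_lit 124) (nat_lit 5) .nil)))))))) (.g (nat_lit 4) .nil .nil))) 
(.lf (nat_lit 236468) (.g (nat_lit 2127) (.e (nat_lit 114711) (nat_lit 21) (.e (nat_lit 57847) (nat_lit 252) (.e (nat_lit 57410) (nat_lit 12) (.e (nat_lit 336019) (nat_lit 3) (.e (nat_lit 98341) (nat_lit 20) (.e (nat_lit 229120) (nat_lit 1) (.e (nat_lit 57849) (nat_lit 252) (.e (nat_lit 57390) (nat_lit 5) .nil)))))))) (.g (nat_lit 4) .nil .nil))))) (.nd (nat_lit 4) (.nd (nat_lit 5) 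
(.lf (nat_lit 236428) (.g (nat_lit 3650) (.e (nat_lit 114711) (nat_lit 21) (.e (nat_lit 57847) (nat_lit 252) (.e (nat_lit 57407) (nat_lit 12) (.e (nat_lit 336019) (nat_lit 3) (.e (nat_lit 98341) (nat_lit 20) (.e (nat_lit 229120) (nat_lit 1) (.e (nat_lit 57846) (nat_lit 252) (.e (nat_lit 57390) (nat_lit 5) .nil)))))))) (.g (nat_lit 4) .nil .nil))) 
(.lf (nat_lit 236460) (.g (nat_lit 2296) (.e (nat_lit 114711) (nat_lit 21) (.e (nat_lit 57847) (nat_lit 252) (.e (nat_lit 57407) (nat_lit 12) (.e (nat_lit 336211) (nat_lit 13) (.e (nat_lit 393274) (nat_lit 23) .nil))))) .nil))) (.nd (nat_lit 5) 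
(.lf (nat_lit 236444) (.g (nat_lit 2249) (.e (nat_lit 114711) (nat_lit 21) (.e (nat_lit 57847) (nat_lit 252) (.e (nat_lit 57407) (nat_lit 12) (.e (nat_lit 336115) (nat_lit 9) (.e (nat_lit 336428) (nat_lit 29) (.e (nat_lit 450304) (nat_lit 5) .nil)))))) (.g (nat_lit 5) .nil .nil))) 
(.lf (nat_lit 236476) (.g (nat_lit 1690) (.e (nat_lit 114711) (nat_lit 21) (.e (nat_lit 57847) (nat_lit 252) (.e (nat_lit 57411) (nat_lit 12) (.e (nat_lit 336210) (nat_lit 13) .nil)))) .nil)))))) (.nd (nat_lit 2) (.nd (nat_lit 3) (.nd (nat_lit 4) (.nd (nat_lit 5) 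
(.lf (nat_lit 236418) (.g (nat_lit 2401) (.e (nat_lit 114711) (nat_lit 21) (.e (nat_lit 57847) (nat_lit 252) (.e (nat_lit 57368) (nat_lit 1) (.e (nat_lit 57854) (nat_lit 252) (.e (nat_lit 57447) (nat_lit 19) (.e (nat_lit 393223) (nat_lit 0) (.e (nat_lit 2185) (nat_lit 144) (.e (nat_lit 720955) (nat_lit 25) .nil)))))))) (.g (nat_lit 4) .nil .nil))) 
(.lf (nat_lit 236450) (.g (nat_lit 2016) (.e (nat_lit 114711) (nat_lit 21) (.e (nat_lit 57847) (nat_lit 252) (.e (nat_lit 57407) (nat_lit 12) (.e (nat_lit 336146) (nat_lit 9) .nil)))) .nil))) (.nd (nat_lit 5) 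
(.lf (nat_lit 236434) (.g (nat_lit 3982) (.e (nat_lit 114711) (nat_lit 21) (.e (nat_lit 57847) (nat_lit 252) (.e (nat_lit 57407) (nat_lit 12) (.e (nat_lit 336019) (nat_lit 3) (.e (nat_lit 98342) (nat_lit 20) (.e (nat_lit 229120) (nat_lit 1) (.e (nat_lit 57854) (nat_lit 252) (.e (nat_lit 57388) (nat_lit 5) .nil)))))))) (.g (nat_lit 4) .nil .nil))) 
(.lf (nat_lit 236466) (.g (nat_lit 1206) (.e (nat_lit 114711) (nat_lit 21) (.e (nat_lit 57847) (nat_lit 252) (.e (nat_lit 57409) (nat_lit 12) (.e (nat_lit 336115) (nat_lit 9) .nil)))) .nil)))) (.nd (nat_lit 4) (.nd (nat_lit 5) 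
(.lf (nat_lit 236426) (.g (nat_lit 500) (.e (nat_lit 114711) (nat_lit 21) (.e (nat_lit 57847) (nat_lit 252) (.e (nat_lit 57404) (nat_lit 12) .nil))) .nil)) 
(.lf (nat_lit 236458) (.g (nat_lit 3183) (.e (nat_lit 114711) (nat_lit 21) (.e (nat_lit 57847) (nat_lit 252) (.e (nat_lit 57407) (nat_lit 12) (.e (nat_lit 336211) (nat_lit 13) (.e (nat_lit 393269) (nat_lit 23) (.e (nat_lit 426446) (nat_lit 20) .nil)))))) (.g (nat_lit 6) .nil .nil)))) (.nd (nat_lit 5) 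
(.lf (nat_lit 236442) (.g (nat_lit 2236) (.e (nat_lit 114711) (nat_lit 21) (.e (nat_lit 57847) (nat_lit 252) (.e (nat_lit 57407) (nat_lit 12) (.e (nat_lit 336115) (nat_lit 9) (.e (nat_lit 336426) (nat_lit 29) (.e (nat_lit 450304) (nat_lit 5) .nil)))))) (.g (nat_lit 5) .nil .nil))) 
(.lf (nat_lit 236474) (.g (nat_lit 2325) (.e (nat_lit 114711) (nat_lit 21) (.e (nat_lit 57847) (nat_lit 252) (.e (nat_lit 57411) (nat_lit 12) (.e (nat_lit 336115) (nat_lit 9) (.e (nat_lit 336426) (nat_lit 29) (.e (nat_lit 450304) (nat_lit 5) .nil)))))) (.g (nat_lit 4) .nil .nil)))))) (.nd (nat_lit 3) (.nd (nat_lit 4) (.nd (nat_lit 5) 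
(.lf (nat_lit 236422) (.g (nat_lit 3860) (.e (nat_lit 114711) (nat_lit 21) (.e (nat_lit 57847) (nat_lit 252) (.e (nat_lit 57368) (nat_lit 1) (.e (nat_lit 57854) (nat_lit 252) (.e (nat_lit 57447) (nat_lit 19) (.e (nat_lit 393238) (nat_lit 17) (.e (nat_lit 2400) (nat_lit 157) (.e (nat_lit 5570) (nat_lit 308) (.e (nat_lit 57390) (nat_lit 5) .nil))))))))) (.g (nat_lit 5) .nil .nil))) 
(.lf (nat_lit 236454) (.g (nat_lit 2693) (.e (nat_lit 114711) (nat_lit 21) (.e (nat_lit 57847) (nat_lit 252) (.e (nat_lit 57407) (nat_lit 12) (.e (nat_lit 336210) (nat_lit 13) (.e (nat_lit 393274) (nat_lit 23) (.e (nat_lit 433920) (nat_lit 20) .nil)))))) (.g (nat_lit 5) .nil .nil)))) (.nd (nat_lit 5) 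
(.lf (nat_lit 236438) (.g (nat_lit 3406) (.e (nat_lit 114711) (nat_lit 21) (.e (nat_lit 57847) (nat_lit 252) (.e (nat_lit 57407) (nat_lit 12) (.e (nat_lit 336019) (nat_lit 3) (.e (nat_lit 98342) (nat_lit 20) (.e (nat_lit 221219) (nat_lit 24) (.e (nat_lit 213001) (nat_lit 9) (.e (nat_lit 124) (nat_lit 5) .nil)))))))) (.g (nat_lit 4) .nil .nil))) 
(.lf (nat_lit 236470) (.g (nat_lit 2811) (.e (nat_lit 114711) (nat_lit 21) (.e (nat_lit 57847) (nat_lit 252) (.e (nat_lit 57410) (nat_lit 12) (.e (nat_lit 336211) (nat_lit 13) (.e (nat_lit 393267) (nat_lit 23) (.e (nat_lit 426446) (nat_lit 20) .nil)))))) (.g (nat_lit 6) .nil .nil))))) (.nd (nat_lit 4) (.nd (nat_lit 5) 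
(.lf (nat_lit 236430) (.g (nat_lit 4012) (.e (nat_lit 114711) (nat_lit 21) (.e (nat_lit 57847) (nat_lit 252) (.e (nat_lit 57407) (nat_lit 12) (.e (nat_lit 336019) (nat_lit 3) (.e (nat_lit 98341) (nat_lit 20) (.e (nat_lit 221220) (nat_lit 25) (.e (nat_lit 229120) (nat_lit 5) .nil))))))) (.g (nat_lit 5) .nil .nil))) 
(.lf (nat_lit 236462) (.g (nat_lit 2623) (.e (nat_lit 114711) (nat_lit 21) (.e (nat_lit 57847) (nat_lit 252) (.e (nat_lit 57407) (nat_lit 12) (.e (nat_lit 336324) (nat_lit 18) (.e (nat_lit 204854) (nat_lit 26) .nil))))) .nil))) (.nd (nat_lit 5) 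
(.lf (nat_lit 236446) (.g (nat_lit 2822) (.e (nat_lit 114711) (nat_lit 21) (.e (nat_lit 57847) (nat_lit 252) (.e (nat_lit 57407) (nat_lit 12) (.e (nat_lit 336120) (nat_lit 9) (.e (nat_lit 336440) (nat_lit 32) (.e (nat_lit 474880) (nat_lit 5) .nil)))))) (.g (nat_lit 5) .nil .nil))) 
(.lf (nat_lit 236478) (.g (nat_lit 3043) (.e (nat_lit 114711) (nat_lit 21) (.e (nat_lit 57847) (nat_lit 252) (.e (nat_lit 57411) (nat_lit 12) (.e (nat_lit 336211) (nat_lit 13) (.e (nat_lit 393268) (nat_lit 23) (.e (nat_lit 426449) (nat_lit 20) .nil)))))) (.g (nat_lit 5) .nil .nil)))))))) (.nd (nat_lit 1) (.nd (nat_lit 2) (.nd (nat_lit 3) (.nd (nat_lit 4) (.nd (nat_lit 5) 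
(.lf (nat_lit 236417) (.g (nat_lit 3388) (.e (nat_lit 114711) (nat_lit 21) (.e (nat_lit 57847) (nat_lit 252) (.e (nat_lit 57368) (nat_lit 1) (.e (nat_lit 57854) (nat_lit 252) (.e (nat_lit 57447) (nat_lit 19) (.e (nat_lit 393222) (nat_lit 0) (.e (nat_lit 2187) (nat_lit 144) (.e (nat_lit 720956) (nat_lit 25) .nil)))))))) (.g (nat_lit 5) .nil .nil))) 
(.lf (nat_lit 236449) (.g (nat_lit 2011) (.e (nat_lit 114711) (nat_lit 21) (.e (nat_lit 57847) (nat_lit 252) (.e (nat_lit 57407) (nat_lit 12) (.e (nat_lit 336137) (nat_lit 9) .nil)))) .nil))) (.nd (nat_lit 5) 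
(.lf (nat_lit 236433) (.g (nat_lit 4400) (.e (nat_lit 114711) (nat_lit 21) (.e (nat_lit 57847) (nat_lit 252) (.e (nat_lit 57407) (nat_lit 12) (.e (nat_lit 336019) (nat_lit 3) (.e (nat_lit 98342) (nat_lit 20) (.e (nat_lit 229120) (nat_lit 1) (.e (nat_lit 57848) (nat_lit 252) (.e (nat_lit 57390) (nat_lit 5) .nil)))))))) (.g (nat_lit 5) .nil .nil))) 
(.lf (nat_lit 236465) (.g (nat_lit 2653) (.e (nat_lit 114711) (nat_lit 21) (.e (nat_lit 57847) (nat_lit 252) (.e (nat_lit 57409) (nat_lit 12) (.e (nat_lit 336019) (nat_lit 3) (.e (nat_lit 98342) (nat_lit 20) (.e (nat_lit 229120) (nat_lit 1) (.e (nat_lit 57849) (nat_lit 252) (.e (nat_lit 57390) (nat_lit 5) .nil)))))))) (.g (nat_lit 4) .nil .nil))))) (.nd (nat_lit 4) (.nd (nat_lit 5) 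
(.lf (nat_lit 236425) (.g (nat_lit 2643) (.e (nat_lit 114711) (nat_lit 21) (.e (nat_lit 57847) (nat_lit 252) (.e (nat_lit 57368) (nat_lit 1) (.e (nat_lit 57854) (nat_lit 252) (.e (nat_lit 57447) (nat_lit 19) (.e (nat_lit 393256) (nat_lit 19) (.e (nat_lit 229675) (nat_lit 242) (.e (nat_lit 57390) (nat_lit 5) .nil)))))))) (.g (nat_lit 4) .nil .nil))) 
(.lf (nat_lit 236457) (.g (nat_lit 3287) (.e (nat_lit 114711) (nat_lit 21) (.e (nat_lit 57847) (nat_lit 252) (.e (nat_lit 57407) (nat_lit 12) (.e (nat_lit 336211) (nat_lit 13) (.e (nat_lit 393267) (nat_lit 23) (.e (nat_lit 426446) (nat_lit 20) .nil)))))) (.g (nat_lit 6) .nil .nil)))) (.nd (nat_lit 5) 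
(.lf (nat_lit 236441) (.g (nat_lit 1982) (.e (nat_lit 114711) (nat_lit 21) (.e (nat_lit 57847) (nat_lit 252) (.e (nat_lit 57407) (nat_lit 12) (.e (nat_lit 336114) (nat_lit 9) (.e (nat_lit 336442) (nat_lit 32) (.e (nat_lit 474880) (nat_lit 5) .nil)))))) (.g (nat_lit 5) .nil .nil))) 
(.lf (nat_lit 236473) (.g (nat_lit 1306) (.e (nat_lit 114711) (nat_lit 21) (.e (nat_lit 57847) (nat_lit 252) (.e (nat_lit 57411) (nat_lit 12) (.e (nat_lit 336115) (nat_lit 9) .nil)))) .nil))))) (.nd (nat_lit 3) (.nd (nat_lit 4) (.nd (nat_lit 5) 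
(.lf (nat_lit 236421) (.g (nat_lit 3240) (.e (nat_lit 114711) (nat_lit 21) (.e (nat_lit 57847) (nat_lit 252) (.e (nat_lit 57368) (nat_lit 1) (.e (nat_lit 57854) (nat_lit 252) (.e (nat_lit 57447) (nat_lit 19) (.e (nat_lit 393234) (nat_lit 17) (.e (nat_lit 2411) (nat_lit 157) (.e (nat_lit 5570) (nat_lit 308) (.e (nat_lit 57390) (nat_lit 5) .nil))))))))) (.g (nat_lit 5) .nil .nil))) 
(.lf (nat_lit 236453) (.g (nat_lit 1678) (.e (nat_lit 114711) (nat_lit 21) (.e (nat_lit 57847) (nat_lit 252) (.e (nat_lit 57407) (nat_lit 12) (.e (nat_lit 336210) (nat_lit 13) .nil)))) .nil))) (.nd (nat_lit 5) 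
(.lf (nat_lit 236437) (.g (nat_lit 3298) (.e (nat_lit 114711) (nat_lit 21) (.e (nat_lit 57847) (nat_lit 252) (.e (nat_lit 57407) (nat_lit 12) (.e (nat_lit 336019) (nat_lit 3) (.e (nat_lit 98342) (nat_lit 20) (.e (nat_lit 221219) (nat_lit 24) (.e (nat_lit 213001) (nat_lit 9) (.e (nat_lit 122) (nat_lit 5) .nil)))))))) (.g (nat_lit 4) .nil .nil))) 
(.lf (nat_lit 236469) (.g (nat_lit 817) (.e (nat_lit 114711) (nat_lit 21) (.e (nat_lit 57847) (nat_lit 252) (.e (nat_lit 57410) (nat_lit 12) (.e (nat_lit 336211) (nat_lit 13) .nil)))) .nil)))) (.nd (nat_lit 4) (.nd (nat_lit 5) 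
(.lf (nat_lit 236429) (.g (nat_lit 4509) (.e (nat_lit 114711) (nat_lit 21) (.e (nat_lit 57847) (nat_lit 252) (.e (nat_lit 57407) (nat_lit 12) (.e (nat_lit 336019) (nat_lit 3) (.e (nat_lit 98341) (nat_lit 20) (.e (nat_lit 229120) (nat_lit 1) (.e (nat_lit 57848) (nat_lit 252) (.e (nat_lit 57390) (nat_lit 5) .nil)))))))) (.g (nat_lit 5) .nil .nil))) 
(.lf (nat_lit 236461) (.g (nat_lit 1186) (.e (nat_lit 114711) (nat_lit 21) (.e (nat_lit 57847) (nat_lit 252) (.e (nat_lit 57407) (nat_lit 12) (.e (nat_lit 343808) (nat_lit 13) .nil)))) .nil))) (.nd (nat_lit 5) 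
(.lf (nat_lit 236445) (.g (nat_lit 1416) (.e (nat_lit 114711) (nat_lit 21) (.e (nat_lit 57847) (nat_lit 252) (.e (nat_lit 57407) (nat_lit 12) (.e (nat_lit 336117) (nat_lit 9) .nil)))) .nil)) 
(.lf (nat_lit 236477) (.g (nat_lit 3203) (.e (nat_lit 114711) (nat_lit 21) (.e (nat_lit 57847) (nat_lit 252) (.e (nat_lit 57411) (nat_lit 12) (.e (nat_lit 336211) (nat_lit 13) (.e (nat_lit 393267) (nat_lit 23) (.e (nat_lit 426446) (nat_lit 20) .nil)))))) (.g (nat_lit 6) .nil .nil))))))) (.nd (nat_lit 2) (.nd (nat_lit 3) (.nd (nat_lit 4) (.nd (nat_lit 5) 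
(.lf (nat_lit 236419) (.g (nat_lit 2691) (.e (nat_lit 114711) (nat_lit 21) (.e (nat_lit 57847) (nat_lit 252) (.e (nat_lit 57368) (nat_lit 1) (.e (nat_lit 57854) (nat_lit 252) (.e (nat_lit 57447) (nat_lit 19) (.e (nat_lit 393234) (nat_lit 17) (.e (nat_lit 2398) (nat_lit 157) (.e (nat_lit 5570) (nat_lit 308) (.e (nat_lit 57390) (nat_lit 5) .nil))))))))) (.g (nat_lit 4) .nil .nil))) 
(.lf (nat_lit 236451) (.g (nat_lit 2959) (.e (nat_lit 114711) (nat_lit 21) (.e (nat_lit 57847) (nat_lit 252) (.e (nat_lit 57407) (nat_lit 12) (.e (nat_lit 336146) (nat_lit 9) (.e (nat_lit 336429) (nat_lit 29) (.e (nat_lit 450304) (nat_lit 5) .nil)))))) (.g (nat_lit 5) .nil .nil)))) (.nd (nat_lit 5) 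
(.lf (nat_lit 236435) (.g (nat_lit 3483) (.e (nat_lit 114711) (nat_lit 21) (.e (nat_lit 57847) (nat_lit 252) (.e (nat_lit 57407) (nat_lit 12) (.e (nat_lit 336019) (nat_lit 3) (.e (nat_lit 98342) (nat_lit 20) (.e (nat_lit 221219) (nat_lit 24) (.e (nat_lit 213000) (nat_lit 9) (.e (nat_lit 122) (nat_lit 5) .nil)))))))) (.g (nat_lit 4) .nil .nil))) 
(.lf (nat_lit 236467) (.g (nat_lit 874) (.e (nat_lit 114711) (nat_lit 21) (.e (nat_lit 57847) (nat_lit 252) (.e (nat_lit 57409) (nat_lit 12) (.e (nat_lit 336211) (nat_lit 13) .nil)))) .nil)))) (.nd (nat_lit 4) (.nd (nat_lit 5) 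
(.lf (nat_lit 236427) (.g (nat_lit 2071) (.e (nat_lit 114711) (nat_lit 21) (.e (nat_lit 57847) (nat_lit 252) (.e (nat_lit 57407) (nat_lit 12) (.e (nat_lit 336019) (nat_lit 3) .nil)))) .nil)) 
(.lf (nat_lit 236459) (.g (nat_lit 2888) (.e (nat_lit 114711) (nat_lit 21) (.e (nat_lit 57847) (nat_lit 252) (.e (nat_lit 57407) (nat_lit 12) (.e (nat_lit 336211) (nat_lit 13) (.e (nat_lit 393273) (nat_lit 23) (.e (nat_lit 426449) (nat_lit 20) .nil)))))) (.g (nat_lit 4) .nil .nil)))) (.nd (nat_lit 5) 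
(.lf (nat_lit 236443) (.g (nat_lit 2133) (.e (nat_lit 114711) (nat_lit 21) (.e (nat_lit 57847) (nat_lit 252) (.e (nat_lit 57407) (nat_lit 12) (.e (nat_lit 336115) (nat_lit 9) (.e (nat_lit 336427) (nat_lit 29) (.e (nat_lit 450304) (nat_lit 5) .nil)))))) (.g (nat_lit 5) .nil .nil))) 
(.lf (nat_lit 236475) (.g (nat_lit 2348) (.e (nat_lit 114711) (nat_lit 21) (.e (nat_lit 57847) (nat_lit 252) (.e (nat_lit 57411) (nat_lit 12) (.e (nat_lit 336115) (nat_lit 9) (.e (nat_lit 336428) (nat_lit 29) (.e (nat_lit 450304) (nat_lit 5) .nil)))))) (.g (nat_lit 4) .nil .nil)))))) (.nd (nat_lit 3) (.nd (nat_lit 4) (.nd (nat_lit 5) 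
(.lf (nat_lit 236423) (.g (nat_lit 2990) (.e (nat_lit 114711) (nat_lit 21) (.e (nat_lit 57847) (nat_lit 252) (.e (nat_lit 57368) (nat_lit 1) (.e (nat_lit 57854) (nat_lit 252) (.e (nat_lit 57447) (nat_lit 19) (.e (nat_lit 393238) (nat_lit 17) (.e (nat_lit 2400) (nat_lit 157) (.e (nat_lit 5573) (nat_lit 308) (.e (nat_lit 57389) (nat_lit 5) .nil))))))))) (.g (nat_lit 4) .nil .nil))) 
(.lf (nat_lit 236455) (.g (nat_lit 1312) (.e (nat_lit 114711) (nat_lit 21) (.e (nat_lit 57847) (nat_lit 252) (.e (nat_lit 57407) (nat_lit 12) (.e (nat_lit 336211) (nat_lit 13) .nil)))) .nil))) (.nd (nat_lit 5) 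
(.lf (nat_lit 236439) (.g (nat_lit 3372) (.e (nat_lit 114711) (nat_lit 21) (.e (nat_lit 57847) (nat_lit 252) (.e (nat_lit 57407) (nat_lit 12) (.e (nat_lit 336019) (nat_lit 3) (.e (nat_lit 98342) (nat_lit 20) (.e (nat_lit 221219) (nat_lit 24) (.e (nat_lit 213003) (nat_lit 9) (.e (nat_lit 122) (nat_lit 5) .nil)))))))) (.g (nat_lit 4) .nil .nil))) 
(.lf (nat_lit 236471) (.g (nat_lit 1492) (.e (nat_lit 114711) (nat_lit 21) (.e (nat_lit 57847) (nat_lit 252) (.e (nat_lit 57411) (nat_lit 12) (.e (nat_lit 336019) (nat_lit 3) .nil)))) .nil)))) (.nd (nat_lit 4) (.nd (nat_lit 5) 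
(.lf (nat_lit 236431) (.g (nat_lit 2973) (.e (nat_lit 114711) (nat_lit 21) (.e (nat_lit 57847) (nat_lit 252) (.e (nat_lit 57407) (nat_lit 12) (.e (nat_lit 336019) (nat_lit 3) (.e (nat_lit 98342) (nat_lit 20) .nil))))) .nil)) 
(.lf (nat_lit 236463) (.g (nat_lit 677) (.e (nat_lit 114711) (nat_lit 21) (.e (nat_lit 57847) (nat_lit 252) (.e (nat_lit 57408) (nat_lit 12) (.e (nat_lit 336211) (nat_lit 13) .nil)))) .nil))) (.nd (nat_lit 5) 
(.lf (nat_lit 236447) (.g (nat_lit 2852) (.e (nat_lit 114711) (nat_lit 21) (.e (nat_lit 57847) (nat_lit 252) (.e (nat_lit 57407) (nat_lit 12) (.e (nat_lit 336120) (nat_lit 9) (.e (nat_lit 336442) (nat_lit 32) (.e (nat_lit 474880) (nat_lit 5) .nil)))))) (.g (nat_lit 5) .nil .nil))) 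
(.lf (nat_lit 236479) (.g (nat_lit 3250) (.e (nat_lit 114711) (nat_lit 21) (.e (nat_lit 57847) (nat_lit 252) (.e (nat_lit 57411) (nat_lit 12) (.e (nat_lit 336211) (nat_lit 13) (.e (nat_lit 393272) (nat_lit 23) (.e (nat_lit 426446) (nat_lit 20) .nil)))))) (.g (nat_lit 6) .nil .nil)))))))))

noncomputable def tv3084 : DT := (.nd (nat_lit 0) (.nd (nat_lit 1) (.nd (nat_lit 2) (.nd (nat_lit 3) (.nd (nat_lit 4) (.nd (nat_lit 5) 
(.lf (nat_lit 236480) (.g (nat_lit 585) (.e (nat_lit 114711) (nat_lit 21) (.e (nat_lit 57847) (nat_lit 252) (.e (nat_lit 57412) (nat_lit 12) .nil))) .nil)) 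
(.lf (nat_lit 236512) (.g (nat_lit 1653) (.e (nat_lit 114711) (nat_lit 21) (.e (nat_lit 57847) (nat_lit 252) (.e (nat_lit 57430) (nat_lit 16) (.e (nat_lit 368676) (nat_lit 21) (.e (nat_lit 516131) (nat_lit 3) (.e (nat_lit 221219) (nat_lit 24) (.e (nat_lit 213002) (nat_lit 9) (.e (nat_lit 127) (nat_lit 5) .nil)))))))) (.g (nat_lit 4) .nil .nil)))) (.nd (nat_lit 5) 
(.lf (nat_lit 236496) (.g (nat_lit 2214) (.e (nat_lit 114711) (nat_lit 21) (.e (nat_lit 57847) (nat_lit 252) (.e (nat_lit 57430) (nat_lit 16) (.e (nat_lit 368676) (nat_lit 21) (.e (nat_lit 516129) (nat_lit 3) (.e (nat_lit 221217) (nat_lit 24) (.e (nat_lit 213004) (nat_lit 9) (.e (nat_lit 124) (nat_lit 5) .nil)))))))) (.g (nat_lit 4) .nil .nil))) 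
(.lf (nat_lit 236528) (.g (nat_lit 2281) (.e (nat_lit 114711) (nat_lit 21) (.e (nat_lit 57847) (nat_lit 252) (.e (nat_lit 57432) (nat_lit 16) (.e (nat_lit 368676) (nat_lit 21) (.e (nat_lit 516131) (nat_lit 3) (.e (nat_lit 221218) (nat_lit 24) (.e (nat_lit 213006) (nat_lit 9) (.e (nat_lit 124) (nat_lit 5) .nil)))))))) (.g (nat_lit 5) .nil .nil))))) (.nd (nat_lit 4) (.nd (nat_lit 5) 
(.lf (nat_lit 236488) (.g (nat_lit 1271) (.e (nat_lit 114711) (nat_lit 21) (.e (nat_lit 57847) (nat_lit 252) (.e (nat_lit 57423) (nat_lit 14) (.e (nat_lit 360192) (nat_lit 16) .nil)))) .nil)) 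
(.lf (nat_lit 236520) (.g (nat_lit 1871) (.e (nat_lit 114711) (nat_lit 21) (.e (nat_lit 57847) (nat_lit 252) (.e (nat_lit 57432) (nat_lit 16) (.e (nat_lit 368676) (nat_lit 21) (.e (nat_lit 516131) (nat_lit 3) (.e (nat_lit 221218) (nat_lit 24) (.e (nat_lit 213000) (nat_lit 9) (.e (nat_lit 122) (nat_lit 5) .nil)))))))) (.g (nat_lit 4) .nil .nil)))) (.nd (nat_lit 5) 
(.lf (nat_lit 236504) (.g (nat_lit 1625) (.e (nat_lit 114711) (nat_lit 21) (.e (nat_lit 57847) (nat_lit 252) (.e (nat_lit 57430) (nat_lit 16) (.e (nat_lit 368676) (nat_lit 21) (.e (nat_lit 516131) (nat_lit 3) (.e (nat_lit 221218) (nat_lit 24) (.e (nat_lit 213004) (nat_lit 9) (.e (nat_lit 122) (nat_lit 5) .nil)))))))) (.g (nat_lit 4) .nil .nil))) 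
(.lf (nat_lit 236536) (.g (nat_lit 2298) (.e (nat_lit 114711) (nat_lit 21) (.e (nat_lit 57847) (nat_lit 252) (.e (nat_lit 57432) (nat_lit 16) (.e (nat_lit 368676) (nat_lit 21) (.e (nat_lit 516131) (nat_lit 3) (.e (nat_lit 221219) (nat_lit 24) (.e (nat_lit 213004) (nat_lit 9) (.e (nat_lit 122) (nat_lit 5) .nil)))))))) (.g (nat_lit 5) .nil .nil)))))) 
(.nd (nat_lit 3) (.nd (nat_lit 4) (.nd (nat_lit 5) 
(.lf (nat_lit 236484) (.g (nat_lit 582) (.e (nat_lit 114711) (nat_lit 21) (.e (nat_lit 57847) (nat_lit 252) (.e (nat_lit 57421) (nat_lit 13) .nil))) .nil)) 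
(.lf (nat_lit 236516) (.g (nat_lit 1543) (.e (nat_lit 114711) (nat_lit 21) (.e (nat_lit 57847) (nat_lit 252) (.e (nat_lit 57430) (nat_lit 16) (.e (nat_lit 368676) (nat_lit 21) (.e (nat_lit 516131) (nat_lit 3) (.e (nat_lit 221220) (nat_lit 25) (.e (nat_lit 229120) (nat_lit 5) .nil))))))) (.g (nat_lit 4) .nil .nil)))) (.nd (nat_lit 5) 
(.lf (nat_lit 236500) (.g (nat_lit 2613) (.e (nat_lit 114711) (nat_lit 21) (.e (nat_lit 57847) (nat_lit 252) (.e (nat_lit 57430) (nat_lit 16) (.e (nat_lit 368676) (nat_lit 21) (.e (nat_lit 516131) (nat_lit 3) (.e (nat_lit 221218) (nat_lit 24) (.e (nat_lit 213001) (nat_lit 9) (.e (nat_lit 122) (nat_lit 5) .nil)))))))) (.g (nat_lit 5) .nil .nil))) 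
(.lf (nat_lit 236532) (.g (nat_lit 3050) (.e (nat_lit 114711) (nat_lit 21) (.e (nat_lit 57847) (nat_lit 252) (.e (nat_lit 57432) (nat_lit 16) (.e (nat_lit 368676) (nat_lit 21) (.e (nat_lit 516131) (nat_lit 3) (.e (nat_lit 221219) (nat_lit 24) (.e (nat_lit 213001) (nat_lit 9) (.e (nat_lit 122) (nat_lit 5) .nil)))))))) (.g (nat_lit 6) .nil .nil))))) (.nd (nat_lit 4) (.nd (nat_lit 5) 
(.lf (nat_lit 236492) (.g (nat_lit 2587) (.e (nat_lit 114711) (nat_lit 21) (.e (nat_lit 57847) (nat_lit 252) (.e (nat_lit 57427) (nat_lit 15) (.e (nat_lit 360451) (nat_lit 0) (.e (nat_lit 6923) (nat_lit 371) .nil))))) .nil)) 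
(.lf (nat_lit 236524) (.g (nat_lit 1867) (.e (nat_lit 114711) (nat_lit 21) (.e (nat_lit 57847) (nat_lit 252) (.e (nat_lit 57432) (nat_lit 16) (.e (nat_lit 368676) (nat_lit 21) (.e (nat_lit 516131) (nat_lit 3) (.e (nat_lit 221218) (nat_lit 24) (.e (nat_lit 213001) (nat_lit 9) (.e (nat_lit 125) (nat_lit 5) .nil)))))))) (.g (nat_lit 4) .nil .nil)))) (.nd (nat_lit 5) 
(.lf (nat_lit 236508) (.g (nat_lit 2648) (.e (nat_lit 114711) (nat_lit 21) (.e (nat_lit 57847) (nat_lit 252) (.e (nat_lit 57430) (nat_lit 16) (.e (nat_lit 368676) (nat_lit 21) (.e (nat_lit 516131) (nat_lit 3) (.e (nat_lit 221219) (nat_lit 24) (.e (nat_lit 213000) (nat_lit 9) (.e (nat_lit 125) (nat_lit 5) .nil)))))))) (.g (nat_lit 5) .nil .nil))) 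
(.lf (nat_lit 236540) (.g (nat_lit 388) (.e (nat_lit 114711) (nat_lit 21) (.e (nat_lit 57847) (nat_lit 252) (.e (nat_lit 57435) (nat_lit 17) .nil))) .nil)))))) (.nd (nat_lit 2) (.nd (nat_lit 3) (.nd (nat_lit 4) (.nd (nat_lit 5) 
(.lf (nat_lit 236482) (.g (nat_lit 3366) (.e (nat_lit 114711) (nat_lit 21) (.e (nat_lit 57847) (nat_lit 252) (.e (nat_lit 57420) (nat_lit 13) (.e (nat_lit 344117) (nat_lit 21) (.e (nat_lit 516129) (nat_lit 3) (.e (nat_lit 229120) (nat_lit 1) (.e (nat_lit 57849) (nat_lit 252) (.e (nat_lit 57390) (nat_lit 5) .nil)))))))) (.g (nat_lit 5) .nil .nil))) 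
(.lf (nat_lit 236514) (.g (nat_lit 2492) (.e (nat_lit 114711) (nat_lit 21) (.e (nat_lit 57847) (nat_lit 252) (.e (nat_lit 57430) (nat_lit 16) (.e (nat_lit 368676) (nat_lit 21) (.e (nat_lit 516131) (nat_lit 3) (.e (nat_lit 221219) (nat_lit 24) (.e (nat_lit 213006) (nat_lit 9) (.e (nat_lit 122) (nat_lit 5) .nil)))))))) (.g (nat_lit 5) .nil .nil)))) (.nd (nat_lit 5) 
(.lf (nat_lit 236498) (.g (nat_lit 1843) (.e (nat_lit 114711) (nat_lit 21) (.e (nat_lit 57847) (nat_lit 252) (.e (nat_lit 57430) (nat_lit 16) (.e (nat_lit 368676) (nat_lit 21) (.e (nat_lit 516131) (nat_lit 3) (.e (nat_lit 221218) (nat_lit 24) (.e (nat_lit 213000) (nat_lit 9) (.e (nat_lit 122) (nat_lit 5) .nil)))))))) (.g (nat_lit 4) .nil .nil))) 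
(.lf (nat_lit 236530) (.g (nat_lit 2711) (.e (nat_lit 114711) (nat_lit 21) (.e (nat_lit 57847) (nat_lit 252) (.e (nat_lit 57432) (nat_lit 16) (.e (nat_lit 368676) (nat_lit 21) (.e (nat_lit 516131) (nat_lit 3) (.e (nat_lit 221219) (nat_lit 24) (.e (nat_lit 213000) (nat_lit 9) (.e (nat_lit 125) (nat_lit 5) .nil)))))))) (.g (nat_lit 5) .nil .nil))))) (.nd (nat_lit 4) (.nd (nat_lit 5) 
(.lf (nat_lit 236490) (.g (nat_lit 809) (.e (nat_lit 114711) (nat_lit 21) (.e (nat_lit 57847) (nat_lit 252) (.e (nat_lit 57425) (nat_lit 14) (.e (nat_lit 352275) (nat_lit 11) .nil)))) .nil)) 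
(.lf (nat_lit 236522) (.g (nat_lit 2641) (.e (nat_lit 114711) (nat_lit 21) (.e (nat_lit 57847) (nat_lit 252) (.e (nat_lit 57432) (nat_lit 16) (.e (nat_lit 368676) (nat_lit 21) (.e (nat_lit 516131) (nat_lit 3) (.e (nat_lit 221218) (nat_lit 24) (.e (nat_lit 213001) (nat_lit 9) (.e (nat_lit 122) (nat_lit 5) .nil)))))))) (.g (nat_lit 5) .nil .nil)))) (.nd (nat_lit 5) 
(.lf (nat_lit 236506) (.g (nat_lit 2249) (.e (nat_lit 114711) (nat_lit 21) (.e (nat_lit 57847) (nat_lit 252) (.e (nat_lit 57430) (nat_lit 16) (.e (nat_lit 368676) (nat_lit 21) (.e (nat_lit 516131) (nat_lit 3) (.e (nat_lit 221218) (nat_lit 24) (.e (nat_lit 213006) (nat_lit 9) (.e (nat_lit 124) (nat_lit 5) .nil)))))))) (.g (nat_lit 5) .nil .nil))) 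
(.lf (nat_lit 236538) (.g (nat_lit 2633) (.e (nat_lit 114711) (nat_lit 21) (.e (nat_lit 57847) (nat_lit 252) (.e (nat_lit 57432) (nat_lit 16) (.e (nat_lit 368676) (nat_lit 21) (.e (nat_lit 516131) (nat_lit 3) (.e (nat_lit 221219) (nat_lit 24) (.e (nat_lit 213006) (nat_lit 9) (.e (nat_lit 124) (nat_lit 5) .nil)))))))) (.g (nat_lit 5) .nil .nil)))))) 
(.nd (nat_lit 3) (.nd (nat_lit 4) (.nd (nat_lit 5) 
(.lf (nat_lit 236486) (.g (nat_lit 1423) (.e (nat_lit 114711) (nat_lit 21) (.e (nat_lit 57847) (nat_lit 252) (.e (nat_lit 57423) (nat_lit 14) (.e (nat_lit 352276) (nat_lit 11) .nil)))) .nil)) 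
(.lf (nat_lit 236518) (.g (nat_lit 2130) (.e (nat_lit 114711) (nat_lit 21) (.e (nat_lit 57847) (nat_lit 252) (.e (nat_lit 57432) (nat_lit 16) (.e (nat_lit 368676) (nat_lit 21) (.e (nat_lit 516129) (nat_lit 3) (.e (nat_lit 229120) (nat_lit 1) (.e (nat_lit 57854) (nat_lit 252) (.e (nat_lit 57388) (nat_lit 5) .nil)))))))) (.g (nat_lit 4) .nil .nil)))) (.nd (nat_lit 5) 
(.lf (nat_lit 236502) (.g (nat_lit 1835) (.e (nat_lit 114711) (nat_lit 21) (.e (nat_lit 57847) (nat_lit 252) (.e (nat_lit 57430) (nat_lit 16) (.e (nat_lit 368676) (nat_lit 21) (.e (nat_lit 516131) (nat_lit 3) (.e (nat_lit 221218) (nat_lit 24) (.e (nat_lit 213001) (nat_lit 9) (.e (nat_lit 125) (nat_lit 5) .nil)))))))) (.g (nat_lit 4) .nil .nil))) 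
(.lf (nat_lit 236534) (.g (nat_lit 2276) (.e (nat_lit 114711) (nat_lit 21) (.e (nat_lit 57847) (nat_lit 252) (.e (nat_lit 57432) (nat_lit 16) (.e (nat_lit 368676) (nat_lit 21) (.e (nat_lit 516131) (nat_lit 3) (.e (nat_lit 221219) (nat_lit 24) (.e (nat_lit 213001) (nat_lit 9) (.e (nat_lit 125) (nat_lit 5) .nil)))))))) (.g (nat_lit 5) .nil .nil))))) (.nd (nat_lit 4) (.nd (nat_lit 5) 
(.lf (nat_lit 236494) (.g (nat_lit 1538) (.e (nat_lit 114711) (nat_lit 21) (.e (nat_lit 57847) (nat_lit 252) (.e (nat_lit 57427) (nat_lit 15) (.e (nat_lit 360487) (nat_lit 19) .nil)))) .nil)) 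
(.lf (nat_lit 236526) (.g (nat_lit 1653) (.e (nat_lit 114711) (nat_lit 21) (.e (nat_lit 57847) (nat_lit 252) (.e (nat_lit 57432) (nat_lit 16) (.e (nat_lit 368676) (nat_lit 21) (.e (nat_lit 516131) (nat_lit 3) (.e (nat_lit 221218) (nat_lit 24) (.e (nat_lit 213004) (nat_lit 9) (.e (nat_lit 122) (nat_lit 5) .nil)))))))) (.g (nat_lit 4) .nil .nil)))) (.nd (nat_lit 5) 
(.lf (nat_lit 236510) (.g (nat_lit 2991) (.e (nat_lit 114711) (nat_lit 21) (.e (nat_lit 57847) (nat_lit 252) (.e (nat_lit 57430) (nat_lit 16) (.e (nat_lit 368676) (nat_lit 21) (.e (nat_lit 516131) (nat_lit 3) (.e (nat_lit 221219) (nat_lit 24) (.e (nat_lit 213001) (nat_lit 9) (.e (nat_lit 122) (nat_lit 5) .nil)))))))) (.g (nat_lit 6) .nil .nil))) 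
(.lf (nat_lit 236542) (.g (nat_lit 2575) (.e (nat_lit 114711) (nat_lit 21) (.e (nat_lit 57847) (nat_lit 252) (.e (nat_lit 57435) (nat_lit 17) (.e (nat_lit 376842) (nat_lit 11) (.e (nat_lit 426196) (nat_lit 9) (.e (nat_lit 426446) (nat_lit 20) .nil)))))) (.g (nat_lit 4) .nil .nil)))))))) (.nd (nat_lit 1) (.nd (nat_lit 2) (.nd (nat_lit 3) (.nd (nat_lit 4) (.nd (nat_lit 5) 
(.lf (nat_lit 236481) (.g (nat_lit 543) (.e (nat_lit 114711) (nat_lit 21) (.e (nat_lit 57847) (nat_lit 252) (.e (nat_lit 57413) (nat_lit 12) .nil))) .nil)) 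
(.lf (nat_lit 236513) (.g (nat_lit 2239) (.e (nat_lit 114711) (nat_lit 21) (.e (nat_lit 57847) (nat_lit 252) (.e (nat_lit 57430) (nat_lit 16) (.e (nat_lit 368676) (nat_lit 21) (.e (nat_lit 516131) (nat_lit 3) (.e (nat_lit 221219) (nat_lit 24) (.e (nat_lit 213004) (nat_lit 9) (.e (nat_lit 122) (nat_lit 5) .nil)))))))) (.g (nat_lit 5) .nil .nil)))) (.nd (nat_lit 5) 
(.lf (nat_lit 236497) (.g (nat_lit 1669) (.e (nat_lit 114711) (nat_lit 21) (.e (nat_lit 57847) (nat_lit 252) (.e (nat_lit 57430) (nat_lit 16) (.e (nat_lit 368676) (nat_lit 21) (.e (nat_lit 516131) (nat_lit 3) (.e (nat_lit 229120) (nat_lit 1) (.e (nat_lit 57848) (nat_lit 252) (.e (nat_lit 57390) (nat_lit 5) .nil)))))))) (.g (nat_lit 4) .nil .nil))) 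
(.lf (nat_lit 236529) (.g (nat_lit 2924) (.e (nat_lit 114711) (nat_lit 21) (.e (nat_lit 57847) (nat_lit 252) (.e (nat_lit 57432) (nat_lit 16) (.e (nat_lit 368676) (nat_lit 21) (.e (nat_lit 516131) (nat_lit 3) (.e (nat_lit 221218) (nat_lit 24) (.e (nat_lit 213007) (nat_lit 9) (.e (nat_lit 122) (nat_lit 5) .nil)))))))) (.g (nat_lit 8) .nil .nil))))) (.nd (nat_lit 4) (.nd (nat_lit 5) 
(.lf (nat_lit 236489) (.g (nat_lit 1529) (.e (nat_lit 114711) (nat_lit 21) (.e (nat_lit 57847) (nat_lit 252) (.e (nat_lit 57424) (nat_lit 14) (.e (nat_lit 352276) (nat_lit 11) .nil)))) .nil)) 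
(.lf (nat_lit 236521) (.g (nat_lit 1887) (.e (nat_lit 114711) (nat_lit 21) (.e (nat_lit 57847) (nat_lit 252) (.e (nat_lit 57432) (nat_lit 16) (.e (nat_lit 368676) (nat_lit 21) (.e (nat_lit 516131) (nat_lit 3) (.e (nat_lit 221218) (nat_lit 24) (.e (nat_lit 213000) (nat_lit 9) (.e (nat_lit 124) (nat_lit 5) .nil)))))))) (.g (nat_lit 4) .nil .nil)))) (.nd (nat_lit 5) 
(.lf (nat_lit 236505) (.g (nat_lit 2171) (.e (nat_lit 114711) (nat_lit 21) (.e (nat_lit 57847) (nat_lit 252) (.e (nat_lit 57430) (nat_lit 16) (.e (nat_lit 368676) (nat_lit 21) (.e (nat_lit 516131) (nat_lit 3) (.e (nat_lit 221218) (nat_lit 24) (.e (nat_lit 213006) (nat_lit 9) (.e (nat_lit 122) (nat_lit 5) .nil)))))))) (.g (nat_lit 5) .nil .nil))) 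
(.lf (nat_lit 236537) (.g (nat_lit 2551) (.e (nat_lit 114711) (nat_lit 21) (.e (nat_lit 57847) (nat_lit 252) (.e (nat_lit 57432) (nat_lit 16) (.e (nat_lit 368676) (nat_lit 21) (.e (nat_lit 516131) (nat_lit 3) (.e (nat_lit 221219) (nat_lit 24) (.e (nat_lit 213006) (nat_lit 9) (.e (nat_lit 122) (nat_lit 5) .nil)))))))) (.g (nat_lit 5) .nil .nil)))))) 
(.nd (nat_lit 3) (.nd (nat_lit 4) (.nd (nat_lit 5) 
(.lf (nat_lit 236485) (.g (nat_lit 1509) (.e (nat_lit 114711) (nat_lit 21) (.e (nat_lit 57847) (nat_lit 252) (.e (nat_lit 57423) (nat_lit 14) (.e (nat_lit 352271) (nat_lit 9) .nil)))) .nil)) 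
(.lf (nat_lit 236517) (.g (nat_lit 2563) (.e (nat_lit 114711) (nat_lit 21) (.e (nat_lit 57847) (nat_lit 252) (.e (nat_lit 57432) (nat_lit 16) (.e (nat_lit 368676) (nat_lit 21) (.e (nat_lit 516129) (nat_lit 3) (.e (nat_lit 229120) (nat_lit 1) (.e (nat_lit 57848) (nat_lit 252) (.e (nat_lit 57390) (nat_lit 5) .nil)))))))) (.g (nat_lit 5) .nil .nil)))) (.nd (nat_lit 5) 
(.lf (nat_lit 236501) (.g (nat_lit 2394) (.e (nat_lit 114711) (nat_lit 21) (.e (nat_lit 57847) (nat_lit 252) (.e (nat_lit 57430) (nat_lit 16) (.e (nat_lit 368676) (nat_lit 21) (.e (nat_lit 516131) (nat_lit 3) (.e (nat_lit 221218) (nat_lit 24) (.e (nat_lit 213001) (nat_lit 9) (.e (nat_lit 123) (nat_lit 5) .nil)))))))) (.g (nat_lit 5) .nil .nil))) 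
(.lf (nat_lit 236533) (.g (nat_lit 2835) (.e (nat_lit 114711) (nat_lit 21) (.e (nat_lit 57847) (nat_lit 252) (.e (nat_lit 57432) (nat_lit 16) (.e (nat_lit 368676) (nat_lit 21) (.e (nat_lit 516131) (nat_lit 3) (.e (nat_lit 221219) (nat_lit 24) (.e (nat_lit 213001) (nat_lit 9) (.e (nat_lit 123) (nat_lit 5) .nil)))))))) (.g (nat_lit 6) .nil .nil))))) (.nd (nat_lit 4) (.nd (nat_lit 5) 
(.lf (nat_lit 236493) (.g (nat_lit 3032) (.e (nat_lit 114711) (nat_lit 21) (.e (nat_lit 57847) (nat_lit 252) (.e (nat_lit 57427) (nat_lit 15) (.e (nat_lit 360451) (nat_lit 0) (.e (nat_lit 6923) (nat_lit 371) (.e (nat_lit 2628) (nat_lit 164) (.e (nat_lit 179968) (nat_lit 20) .nil))))))) (.g (nat_lit 4) .nil .nil))) 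
(.lf (nat_lit 236525) (.g (nat_lit 2908) (.e (nat_lit 114711) (nat_lit 21) (.e (nat_lit 57847) (nat_lit 252) (.e (nat_lit 57432) (nat_lit 16) (.e (nat_lit 368676) (nat_lit 21) (.e (nat_lit 516131) (nat_lit 3) (.e (nat_lit 221218) (nat_lit 24) (.e (nat_lit 213003) (nat_lit 9) (.e (nat_lit 122) (nat_lit 5) .nil)))))))) (.g (nat_lit 7) .nil .nil)))) (.nd (nat_lit 5) 
(.lf (nat_lit 236509) (.g (nat_lit 2059) (.e (nat_lit 114711) (nat_lit 21) (.e (nat_lit 57847) (nat_lit 252) (.e (nat_lit 57430) (nat_lit 16) (.e (nat_lit 368676) (nat_lit 21) (.e (nat_lit 516131) (nat_lit 3) (.e (nat_lit 221219) (nat_lit 24) (.e (nat_lit 213000) (nat_lit 9) (.e (nat_lit 127) (nat_lit 5) .nil)))))))) (.g (nat_lit 4) .nil .nil))) 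
(.lf (nat_lit 236541) (.g (nat_lit 3774) (.e (nat_lit 114711) (nat_lit 21) (.e (nat_lit 57847) (nat_lit 252) (.e (nat_lit 57435) (nat_lit 17) (.e (nat_lit 376842) (nat_lit 11) (.e (nat_lit 426190) (nat_lit 9) (.e (nat_lit 426448) (nat_lit 20) .nil)))))) (.g (nat_lit 0) .nil .nil))))))) (.nd (nat_lit 2) (.nd (nat_lit 3) (.nd (nat_lit 4) (.nd (nat_lit 5) 
(.lf (nat_lit 236483) (.g (nat_lit 3224) (.e (nat_lit 114711) (nat_lit 21) (.e (nat_lit 57847) (nat_lit 252) (.e (nat_lit 57420) (nat_lit 13) (.e (nat_lit 344117) (nat_lit 21) (.e (nat_lit 516130) (nat_lit 3) (.e (nat_lit 229120) (nat_lit 1) (.e (nat_lit 57849) (nat_lit 252) (.e (nat_lit 57390) (nat_lit 5) .nil)))))))) (.g (nat_lit 5) .nil .nil))) 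
(.lf (nat_lit 236515) (.g (nat_lit 2570) (.e (nat_lit 114711) (nat_lit 21) (.e (nat_lit 57847) (nat_lit 252) (.e (nat_lit 57430) (nat_lit 16) (.e (nat_lit 368676) (nat_lit 21) (.e (nat_lit 516131) (nat_lit 3) (.e (nat_lit 221219) (nat_lit 24) (.e (nat_lit 213006) (nat_lit 9) (.e (nat_lit 124) (nat_lit 5) .nil)))))))) (.g (nat_lit 5) .nil .nil)))) (.nd (nat_lit 5) 
(.lf (nat_lit 236499) (.g (nat_lit 1855) (.e (nat_lit 114711) (nat_lit 21) (.e (nat_lit 57847) (nat_lit 252) (.e (nat_lit 57430) (nat_lit 16) (.e (nat_lit 368676) (nat_lit 21) (.e (nat_lit 516131) (nat_lit 3) (.e (nat_lit 221218) (nat_lit 24) (.e (nat_lit 213000) (nat_lit 9) (.e (nat_lit 124) (nat_lit 5) .nil)))))))) (.g (nat_lit 4) .nil .nil))) 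
(.lf (nat_lit 236531) (.g (nat_lit 2122) (.e (nat_lit 114711) (nat_lit 21) (.e (nat_lit 57847) (nat_lit 252) (.e (nat_lit 57432) (nat_lit 16) (.e (nat_lit 368676) (nat_lit 21) (.e (nat_lit 516131) (nat_lit 3) (.e (nat_lit 221219) (nat_lit 24) (.e (nat_lit 213000) (nat_lit 9) (.e (nat_lit 127) (nat_lit 5) .nil)))))))) (.g (nat_lit 4) .nil .nil))))) (.nd (nat_lit 4) (.nd (nat_lit 5) 
(.lf (nat_lit 236491) (.g (nat_lit 1616) (.e (nat_lit 114711) (nat_lit 21) (.e (nat_lit 57847) (nat_lit 252) (.e (nat_lit 57426) (nat_lit 15) (.e (nat_lit 360449) (nat_lit 0) (.e (nat_lit 6923) (nat_lit 371) .nil))))) .nil)) 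
(.lf (nat_lit 236523) (.g (nat_lit 2426) (.e (nat_lit 114711) (nat_lit 21) (.e (nat_lit 57847) (nat_lit 252) (.e (nat_lit 57432) (nat_lit 16) (.e (nat_lit 368676) (nat_lit 21) (.e (nat_lit 516131) (nat_lit 3) (.e (nat_lit 221218) (nat_lit 24) (.e (nat_lit 213001) (nat_lit 9) (.e (nat_lit 123) (nat_lit 5) .nil)))))))) (.g (nat_lit 5) .nil .nil)))) (.nd (nat_lit 5) 
(.lf (nat_lit 236507) (.g (nat_lit 2896) (.e (nat_lit 114711) (nat_lit 21) (.e (nat_lit 57847) (nat_lit 252) (.e (nat_lit 57430) (nat_lit 16) (.e (nat_lit 368676) (nat_lit 21) (.e (nat_lit 516131) (nat_lit 3) (.e (nat_lit 221218) (nat_lit 24) (.e (nat_lit 213007) (nat_lit 9) (.e (nat_lit 122) (nat_lit 5) .nil)))))))) (.g (nat_lit 8) .nil .nil))) 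
(.lf (nat_lit 236539) (.g (nat_lit 1631) (.e (nat_lit 114711) (nat_lit 21) (.e (nat_lit 57847) (nat_lit 252) (.e (nat_lit 57432) (nat_lit 16) (.e (nat_lit 368676) (nat_lit 21) (.e (nat_lit 516131) (nat_lit 3) (.e (nat_lit 221220) (nat_lit 25) (.e (nat_lit 229120) (nat_lit 5) .nil))))))) (.g (nat_lit 4) .nil .nil)))))) (.nd (nat_lit 3) (.nd (nat_lit 4) (.nd (nat_lit 5) 
(.lf (nat_lit 236487) (.g (nat_lit 1271) (.e (nat_lit 114711) (nat_lit 21) (.e (nat_lit 57847) (nat_lit 252) (.e (nat_lit 57423) (nat_lit 14) (.e (nat_lit 360192) (nat_lit 13) .nil)))) .nil)) 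
(.lf (nat_lit 236519) (.g (nat_lit 1991) (.e (nat_lit 114711) (nat_lit 21) (.e (nat_lit 57847) (nat_lit 252) (.e (nat_lit 57432) (nat_lit 16) (.e (nat_lit 368676) (nat_lit 21) (.e (nat_lit 516129) (nat_lit 3) (.e (nat_lit 221217) (nat_lit 24) (.e (nat_lit 213004) (nat_lit 9) (.e (nat_lit 124) (nat_lit 5) .nil)))))))) (.g (nat_lit 4) .nil .nil)))) (.nd (nat_lit 5) 
(.lf (nat_lit 236503) (.g (nat_lit 2880) (.e (nat_lit 114711) (nat_lit 21) (.e (nat_lit 57847) (nat_lit 252) (.e (nat_lit 57430) (nat_lit 16) (.e (nat_lit 368676) (nat_lit 21) (.e (nat_lit 516131) (nat_lit 3) (.e (nat_lit 221218) (nat_lit 24) (.e (nat_lit 213003) (nat_lit 9) (.e (nat_lit 122) (nat_lit 5) .nil)))))))) (.g (nat_lit 7) .nil .nil))) 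
(.lf (nat_lit 236535) (.g (nat_lit 1716) (.e (nat_lit 114711) (nat_lit 21) (.e (nat_lit 57847) (nat_lit 252) (.e (nat_lit 57432) (nat_lit 16) (.e (nat_lit 368676) (nat_lit 21) (.e (nat_lit 516131) (nat_lit 3) (.e (nat_lit 221219) (nat_lit 24) (.e (nat_lit 213002) (nat_lit 9) (.e (nat_lit 127) (nat_lit 5) .nil)))))))) (.g (nat_lit 4) .nil .nil))))) (.nd (nat_lit 4) (.nd (nat_lit 5) 
(.lf (nat_lit 236495) (.g (nat_lit 1900) (.e (nat_lit 114711) (nat_lit 21) (.e (nat_lit 57847) (nat_lit 252) (.e (nat_lit 57430) (nat_lit 16) (.e (nat_lit 368676) (nat_lit 21) (.e (nat_lit 516129) (nat_lit 3) (.e (nat_lit 229120) (nat_lit 1) (.e (nat_lit 57846) (nat_lit 252) (.e (nat_lit 57390) (nat_lit 5) .nil)))))))) (.g (nat_lit 4) .nil .nil))) 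
(.lf (nat_lit 236527) (.g (nat_lit 2199) (.e (nat_lit 114711) (nat_lit 21) (.e (nat_lit 57847) (nat_lit 252) (.e (nat_lit 57432) (nat_lit 16) (.e (nat_lit 368676) (nat_lit 21) (.e (nat_lit 516131) (nat_lit 3) (.e (nat_lit 221218) (nat_lit 24) (.e (nat_lit 213006) (nat_lit 9) (.e (nat_lit 122) (nat_lit 5) .nil)))))))) (.g (nat_lit 5) .nil .nil)))) (.nd (nat_lit 5) 
(.lf (nat_lit 236511) (.g (nat_lit 2213) (.e (nat_lit 114711) (nat_lit 21) (.e (nat_lit 57847) (nat_lit 252) (.e (nat_lit 57430) (nat_lit 16) (.e (nat_lit 368676) (nat_lit 21) (.e (nat_lit 516131) (nat_lit 3) (.e (nat_lit 221219) (nat_lit 24) (.e (nat_lit 213001) (nat_lit 9) (.e (nat_lit 125) (nat_lit 5) .nil)))))))) (.g (nat_lit 5) .nil .nil))) 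
(.lf (nat_lit 236543) (.g (nat_lit 2483) (.e (nat_lit 114711) (nat_lit 21) (.e (nat_lit 57847) (nat_lit 252) (.e (nat_lit 57435) (nat_lit 17) (.e (nat_lit 376842) (nat_lit 11) (.e (nat_lit 426198) (nat_lit 9) (.e (nat_lit 426449) (nat_lit 20) .nil)))))) (.g (nat_lit 4) .nil .nil)))))))))

noncomputable def tv3085 : DT := (.nd (nat_lit 0) (.nd (nat_lit 1) (.nd (nat_lit 2) (.nd (nat_lit 3) (.nd (nat_lit 4) (.nd (nat_lit 5) (.nd (nat_lit 6) 
(.lf (nat_lit 236544) (.g (nat_lit 2258) (.e (nat_lit 114711) (nat_lit 21) (.e (nat_lit 57847) (nat_lit 252) (.e (nat_lit 57435) (nat_lit 17) (.e (nat_lit 376842) (nat_lit 11) (.e (nat_lit 426199) (nat_lit 9) (.e (nat_lit 426446) (nat_lit 20) .nil)))))) (.g (nat_lit 4) .nil .nil))) 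
(.lf (nat_lit 236608) (.g (nat_lit 989) (.e (nat_lit 114711) (nat_lit 21) (.e (nat_lit 57849) (nat_lit 252) (.e (nat_lit 57411) (nat_lit 12) (.e (nat_lit 336211) (nat_lit 13) .nil)))) .nil))) (.nd (nat_lit 6) 
(.lf (nat_lit 236576) (.g (nat_lit 1396) (.e (nat_lit 114711) (nat_lit 21) (.e (nat_lit 57848) (nat_lit 252) (.e (nat_lit 57407) (nat_lit 12) (.e (nat_lit 336210) (nat_lit 13) .nil)))) .nil)) 
(.lf (nat_lit 236640) (.g (nat_lit 1930) (.e (nat_lit 114711) (nat_lit 21) (.e (nat_lit 57853) (nat_lit 252) (.e (nat_lit 57424) (nat_lit 14) (.e (nat_lit 352277) (nat_lit 11) (.e (nat_lit 426189) (nat_lit 9) .nil))))) .nil)))) (.nd (nat_lit 5) (.nd (nat_lit 6) 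
(.lf (nat_lit 236560) (.g (nat_lit 3770) (.e (nat_lit 114711) (nat_lit 21) (.e (nat_lit 57847) (nat_lit 252) (.e (nat_lit 57437) (nat_lit 17) (.e (nat_lit 376842) (nat_lit 11) (.e (nat_lit 426198) (nat_lit 9) (.e (nat_lit 426446) (nat_lit 20) .nil)))))) (.g (nat_lit 6) .nil .nil))) 
(.lf (nat_lit 236624) (.g (nat_lit 2370) (.e (nat_lit 114711) (nat_lit 21) (.e (nat_lit 57849) (nat_lit 252) (.e (nat_lit 57437) (nat_lit 17) (.e (nat_lit 376842) (nat_lit 11) (.e (nat_lit 426196) (nat_lit 9) .nil))))) .nil))) (.nd (nat_lit 6) 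
(.lf (nat_lit 236592) (.g (nat_lit 1303) (.e (nat_lit 114711) (nat_lit 21) (.e (nat_lit 57848) (nat_lit 252) (.e (nat_lit 57417) (nat_lit 12) (.e (nat_lit 336209) (nat_lit 13) (.e (nat_lit 393270) (nat_lit 23) .nil))))) .nil)) 
(.lf (nat_lit 236656) (.g (nat_lit 1019) (.e (nat_lit 114711) (nat_lit 21) (.e (nat_lit 57853) (nat_lit 252) (.e (nat_lit 57436) (nat_lit 17) (.e (nat_lit 376840) (nat_lit 11) .nil)))) .nil))))) (.nd (nat_lit 4) (.nd (nat_lit 5) (.nd (nat_lit 6) 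
(.lf (nat_lit 236552) (.g (nat_lit 1363) (.e (nat_lit 114711) (nat_lit 21) (.e (nat_lit 57847) (nat_lit 252) (.e (nat_lit 57436) (nat_lit 17) (.e (nat_lit 376840) (nat_lit 11) (.e (nat_lit 426260) (nat_lit 9) .nil))))) .nil)) 
(.lf (nat_lit 236616) (.g (nat_lit 1765) (.e (nat_lit 114711) (nat_lit 21) (.e (nat_lit 57849) (nat_lit 252) (.e (nat_lit 57435) (nat_lit 17) (.e (nat_lit 376842) (nat_lit 11) (.e (nat_lit 426199) (nat_lit 9) .nil))))) .nil))) (.nd (nat_lit 6) 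
(.lf (nat_lit 236584) (.g (nat_lit 930) (.e (nat_lit 114711) (nat_lit 21) (.e (nat_lit 57848) (nat_lit 252) (.e (nat_lit 57411) (nat_lit 12) (.e (nat_lit 336019) (nat_lit 3) .nil)))) .nil)) 
(.lf (nat_lit 236648) (.g (nat_lit 2605) (.e (nat_lit 114711) (nat_lit 21) (.e (nat_lit 57853) (nat_lit 252) (.e (nat_lit 57435) (nat_lit 17) (.e (nat_lit 376842) (nat_lit 11) (.e (nat_lit 426189) (nat_lit 9) (.e (nat_lit 426446) (nat_lit 20) .nil)))))) (.g (nat_lit 4) .nil .nil))))) (.nd (nat_lit 5) (.nd (nat_lit 6) 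
(.lf (nat_lit 236568) (.g (nat_lit 1581) (.e (nat_lit 114711) (nat_lit 21) (.e (nat_lit 57848) (nat_lit 252) (.e (nat_lit 57368) (nat_lit 1) (.e (nat_lit 57854) (nat_lit 252) (.e (nat_lit 57447) (nat_lit 19) .nil))))) .nil)) 
(.lf (nat_lit 236632) (.g (nat_lit 566) (.e (nat_lit 114711) (nat_lit 21) (.e (nat_lit 57853) (nat_lit 252) (.e (nat_lit 57419) (nat_lit 12) .nil))) .nil))) (.nd (nat_lit 6) 
(.lf (nat_lit 236600) (.g (nat_lit 1538) (.e (nat_lit 114711) (nat_lit 21) (.e (nat_lit 57848) (nat_lit 252) (.e (nat_lit 57437) (nat_lit 17) (.e (nat_lit 376842) (nat_lit 11) (.e (nat_lit 426200) (nat_lit 9) .nil))))) .nil)) 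
(.lf (nat_lit 236664) (.g (nat_lit 992) (.e (nat_lit 114711) (nat_lit 21) (.e (nat_lit 57853) (nat_lit 252) (.e (nat_lit 57436) (nat_lit 17) (.e (nat_lit 384768) (nat_lit 16) .nil)))) .nil)))))) (.nd (nat_lit 3) (.nd (nat_lit 4) (.nd (nat_lit 5) (.nd (nat_lit 6) 
(.lf (nat_lit 236548) (.g (nat_lit 2012) (.e (nat_lit 114711) (nat_lit 21) (.e (nat_lit 57847) (nat_lit 252) (.e (nat_lit 57435) (nat_lit 17) (.e (nat_lit 376842) (nat_lit 11) (.e (nat_lit 426204) (nat_lit 9) .nil))))) .nil)) 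
(.lf (nat_lit 236612) (.g (nat_lit 3119) (.e (nat_lit 114711) (nat_lit 21) (.e (nat_lit 57849) (nat_lit 252) (.e (nat_lit 57435) (nat_lit 17) (.e (nat_lit 376842) (nat_lit 11) (.e (nat_lit 426188) (nat_lit 9) (.e (nat_lit 426446) (nat_lit 20) .nil)))))) (.g (nat_lit 5) .nil .nil)))) (.nd (nat_lit 6) 
(.lf (nat_lit 236580) (.g (nat_lit 2750) (.e (nat_lit 114711) (nat_lit 21) (.e (nat_lit 57848) (nat_lit 252) (.e (nat_lit 57407) (nat_lit 12) (.e (nat_lit 336211) (nat_lit 13) (.e (nat_lit 393267) (nat_lit 23) (.e (nat_lit 426446) (nat_lit 20) .nil)))))) (.g (nat_lit 6) .nil .nil))) 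
(.lf (nat_lit 236644) (.g (nat_lit 1262) (.e (nat_lit 114711) (nat_lit 21) (.e (nat_lit 57853) (nat_lit 252) (.e (nat_lit 57435) (nat_lit 17) (.e (nat_lit 376839) (nat_lit 11) .nil)))) .nil)))) (.nd (nat_lit 5) (.nd (nat_lit 6) 
(.lf (nat_lit 236564) (.g (nat_lit 2135) (.e (nat_lit 114711) (nat_lit 21) (.e (nat_lit 57847) (nat_lit 252) (.e (nat_lit 57437) (nat_lit 17) (.e (nat_lit 376842) (nat_lit 11) (.e (nat_lit 426258) (nat_lit 9) (.e (nat_lit 426447) (nat_lit 20) .nil)))))) (.g (nat_lit 4) .nil .nil))) 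
(.lf (nat_lit 236628) (.g (nat_lit 765) (.e (nat_lit 114711) (nat_lit 21) (.e (nat_lit 57852) (nat_lit 252) (.e (nat_lit 57409) (nat_lit 12) .nil))) .nil))) (.nd (nat_lit 6) 
(.lf (nat_lit 236596) (.g (nat_lit 1874) (.e (nat_lit 114711) (nat_lit 21) (.e (nat_lit 57848) (nat_lit 252) (.e (nat_lit 57435) (nat_lit 17) (.e (nat_lit 376842) (nat_lit 11) (.e (nat_lit 426258) (nat_lit 9) .nil))))) .nil)) 
(.lf (nat_lit 236660) (.g (nat_lit 2794) (.e (nat_lit 114711) (nat_lit 21) (.e (nat_lit 57853) (nat_lit 252) (.e (nat_lit 57436) (nat_lit 17) (.e (nat_lit 376842) (nat_lit 11) (.e (nat_lit 426190) (nat_lit 9) (.e (nat_lit 426446) (nat_lit 20) .nil)))))) (.g (nat_lit 5) .nil .nil)))))) (.nd (nat_lit 4) (.nd (nat_lit 5) (.nd (nat_lit 6) 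
(.lf (nat_lit 236556) (.g (nat_lit 1059) (.e (nat_lit 114711) (nat_lit 21) (.e (nat_lit 57847) (nat_lit 252) (.e (nat_lit 57436) (nat_lit 17) (.e (nat_lit 384768) (nat_lit 16) .nil)))) .nil)) 
(.lf (nat_lit 236620) (.g (nat_lit 3223) (.e (nat_lit 114711) (nat_lit 21) (.e (nat_lit 57849) (nat_lit 252) (.e (nat_lit 57437) (nat_lit 17) (.e (nat_lit 376842) (nat_lit 11) (.e (nat_lit 426187) (nat_lit 9) (.e (nat_lit 426446) (nat_lit 20) .nil)))))) (.g (nat_lit 5) .nil .nil)))) (.nd (nat_lit 6) 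
(.lf (nat_lit 236588) (.g (nat_lit 914) (.e (nat_lit 114711) (nat_lit 21) (.e (nat_lit 57848) (nat_lit 252) (.e (nat_lit 57411) (nat_lit 12) (.e (nat_lit 336210) (nat_lit 13) .nil)))) .nil)) 
(.lf (nat_lit 236652) (.g (nat_lit 1786) (.e (nat_lit 114711) (nat_lit 21) (.e (nat_lit 57853) (nat_lit 252) (.e (nat_lit 57435) (nat_lit 17) (.e (nat_lit 376842) (nat_lit 11) (.e (nat_lit 426199) (nat_lit 9) .nil))))) .nil)))) (.nd (nat_lit 5) (.nd (nat_lit 6) 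
(.lf (nat_lit 236572) (.g (nat_lit 1254) (.e (nat_lit 114711) (nat_lit 21) (.e (nat_lit 57848) (nat_lit 252) (.e (nat_lit 57407) (nat_lit 12) (.e (nat_lit 336114) (nat_lit 9) .nil)))) .nil)) 
(.lf (nat_lit 236636) (.g (nat_lit 1498) (.e (nat_lit 114711) (nat_lit 21) (.e (nat_lit 57853) (nat_lit 252) (.e (nat_lit 57424) (nat_lit 14) (.e (nat_lit 352273) (nat_lit 11) .nil)))) .nil))) (.nd (nat_lit 6) 
(.lf (nat_lit 236604) (.g (nat_lit 2218) (.e (nat_lit 114711) (nat_lit 21) (.e (nat_lit 57849) (nat_lit 252) (.e (nat_lit 57407) (nat_lit 12) (.e (nat_lit 336211) (nat_lit 13) (.e (nat_lit 393267) (nat_lit 23) (.e (nat_lit 426446) (nat_lit 20) .nil)))))) (.g (nat_lit 4) .nil .nil))) 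
(.lf (nat_lit 236668) (.g (nat_lit 2019) (.e (nat_lit 114711) (nat_lit 21) (.e (nat_lit 57854) (nat_lit 252) (.e (nat_lit 57409) (nat_lit 12) (.e (nat_lit 336120) (nat_lit 9) .nil)))) .nil))))))) (.nd (nat_lit 2) (.nd (nat_lit 3) (.nd (nat_lit 4) (.nd (nat_lit 5) (.nd (nat_lit 6) 
(.lf (nat_lit 236546) (.g (nat_lit 3628) (.e (nat_lit 114711) (nat_lit 21) (.e (nat_lit 57847) (nat_lit 252) (.e (nat_lit 57435) (nat_lit 17) (.e (nat_lit 376842) (nat_lit 11) (.e (nat_lit 426200) (nat_lit 9) (.e (nat_lit 426446) (nat_lit 20) .nil)))))) (.g (nat_lit 6) .nil .nil))) 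
(.lf (nat_lit 236610) (.g (nat_lit 2731) (.e (nat_lit 114711) (nat_lit 21) (.e (nat_lit 57849) (nat_lit 252) (.e (nat_lit 57411) (nat_lit 12) (.e (nat_lit 336211) (nat_lit 13) (.e (nat_lit 393268) (nat_lit 23) (.e (nat_lit 426446) (nat_lit 20) .nil)))))) (.g (nat_lit 5) .nil .nil)))) (.nd (nat_lit 6) 
(.lf (nat_lit 236578) (.g (nat_lit 1702) (.e (nat_lit 114711) (nat_lit 21) (.e (nat_lit 57848) (nat_lit 252) (.e (nat_lit 57407) (nat_lit 12) (.e (nat_lit 336210) (nat_lit 13) (.e (nat_lit 393270) (nat_lit 23) .nil))))) .nil)) 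
(.lf (nat_lit 236642) (.g (nat_lit 1294) (.e (nat_lit 114711) (nat_lit 21) (.e (nat_lit 57853) (nat_lit 252) (.e (nat_lit 57424) (nat_lit 14) (.e (nat_lit 360192) (nat_lit 13) .nil)))) .nil)))) (.nd (nat_lit 5) (.nd (nat_lit 6) 
(.lf (nat_lit 236562) (.g (nat_lit 2623) (.e (nat_lit 114711) (nat_lit 21) (.e (nat_lit 57847) (nat_lit 252) (.e (nat_lit 57437) (nat_lit 17) (.e (nat_lit 376842) (nat_lit 11) (.e (nat_lit 426204) (nat_lit 9) (.e (nat_lit 433920) (nat_lit 20) .nil)))))) (.g (nat_lit 4) .nil .nil))) 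
(.lf (nat_lit 236626) (.g (nat_lit 2342) (.e (nat_lit 114711) (nat_lit 21) (.e (nat_lit 57849) (nat_lit 252) (.e (nat_lit 57437) (nat_lit 17) (.e (nat_lit 376842) (nat_lit 11) (.e (nat_lit 426258) (nat_lit 9) .nil))))) .nil))) (.nd (nat_lit 6) 
(.lf (nat_lit 236594) (.g (nat_lit 2046) (.e (nat_lit 114711) (nat_lit 21) (.e (nat_lit 57848) (nat_lit 252) (.e (nat_lit 57424) (nat_lit 14) (.e (nat_lit 352277) (nat_lit 11) (.e (nat_lit 426190) (nat_lit 9) .nil))))) .nil)) 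
(.lf (nat_lit 236658) (.g (nat_lit 3141) (.e (nat_lit 114711) (nat_lit 21) (.e (nat_lit 57853) (nat_lit 252) (.e (nat_lit 57436) (nat_lit 17) (.e (nat_lit 376842) (nat_lit 11) (.e (nat_lit 426188) (nat_lit 9) (.e (nat_lit 426446) (nat_lit 20) .nil)))))) (.g (nat_lit 5) .nil .nil)))))) (.nd (nat_lit 4) (.nd (nat_lit 5) (.nd (nat_lit 6) 
(.lf (nat_lit 236554) (.g (nat_lit 2284) (.e (nat_lit 114711) (nat_lit 21) (.e (nat_lit 57847) (nat_lit 252) (.e (nat_lit 57436) (nat_lit 17) (.e (nat_lit 376842) (nat_lit 11) (.e (nat_lit 426258) (nat_lit 9) .nil))))) .nil)) 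
(.lf (nat_lit 236618) (.g (nat_lit 1391) (.e (nat_lit 114711) (nat_lit 21) (.e (nat_lit 57849) (nat_lit 252) (.e (nat_lit 57437) (nat_lit 17) (.e (nat_lit 376839) (nat_lit 11) .nil)))) .nil))) (.nd (nat_lit 6) 
(.lf (nat_lit 236586) (.g (nat_lit 1671) (.e (nat_lit 114711) (nat_lit 21) (.e (nat_lit 57848) (nat_lit 252) (.e (nat_lit 57411) (nat_lit 12) (.e (nat_lit 336115) (nat_lit 9) (.e (nat_lit 336427) (nat_lit 29) (.e (nat_lit 450304) (nat_lit 5) .nil)))))) (.g (nat_lit 4) .nil .nil))) 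
(.lf (nat_lit 236650) (.g (nat_lit 2221) (.e (nat_lit 114711) (nat_lit 21) (.e (nat_lit 57853) (nat_lit 252) (.e (nat_lit 57435) (nat_lit 17) (.e (nat_lit 376842) (nat_lit 11) (.e (nat_lit 426196) (nat_lit 9) .nil))))) .nil)))) (.nd (nat_lit 5) (.nd (nat_lit 6) 
(.lf (nat_lit 236570) (.g (nat_lit 2775) (.e (nat_lit 114711) (nat_lit 21) (.e (nat_lit 57848) (nat_lit 252) (.e (nat_lit 57390) (nat_lit 5) (.e (nat_lit 114723) (nat_lit 24) (.e (nat_lit 106523) (nat_lit 9) (.e (nat_lit 1234) (nat_lit 91) (.e (nat_lit 90170) (nat_lit 13) (.e (nat_lit 179968) (nat_lit 20) .nil)))))))) (.g (nat_lit 7) .nil .nil))) 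
(.lf (nat_lit 236634) (.g (nat_lit 1716) (.e (nat_lit 114711) (nat_lit 21) (.e (nat_lit 57853) (nat_lit 252) (.e (nat_lit 57419) (nat_lit 12) (.e (nat_lit 336213) (nat_lit 13) (.e (nat_lit 393270) (nat_lit 23) .nil))))) .nil))) (.nd (nat_lit 6) 
(.lf (nat_lit 236602) (.g (nat_lit 1975) (.e (nat_lit 114711) (nat_lit 21) (.e (nat_lit 57848) (nat_lit 252) (.e (nat_lit 57437) (nat_lit 17) (.e (nat_lit 376842) (nat_lit 11) (.e (nat_lit 426258) (nat_lit 9) .nil))))) .nil)) 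
(.lf (nat_lit 236666) (.g (nat_lit 2522) (.e (nat_lit 114711) (nat_lit 21) (.e (nat_lit 57854) (nat_lit 252) (.e (nat_lit 57409) (nat_lit 12) (.e (nat_lit 336019) (nat_lit 3) .nil)))) .nil)))))) (.nd (nat_lit 3) (.nd (nat_lit 4) (.nd (nat_lit 5) (.nd (nat_lit 6) 
(.lf (nat_lit 236550) (.g (nat_lit 1251) (.e (nat_lit 114711) (nat_lit 21) (.e (nat_lit 57847) (nat_lit 252) (.e (nat_lit 57436) (nat_lit 17) (.e (nat_lit 376838) (nat_lit 11) .nil)))) .nil)) 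
(.lf (nat_lit 236614) (.g (nat_lit 2605) (.e (nat_lit 114711) (nat_lit 21) (.e (nat_lit 57849) (nat_lit 252) (.e (nat_lit 57435) (nat_lit 17) (.e (nat_lit 376842) (nat_lit 11) (.e (nat_lit 426189) (nat_lit 9) (.e (nat_lit 426446) (nat_lit 20) .nil)))))) (.g (nat_lit 4) .nil .nil)))) (.nd (nat_lit 6) 
(.lf (nat_lit 236582) (.g (nat_lit 1731) (.e (nat_lit 114711) (nat_lit 21) (.e (nat_lit 57848) (nat_lit 252) (.e (nat_lit 57407) (nat_lit 12) (.e (nat_lit 336211) (nat_lit 13) (.e (nat_lit 393274) (nat_lit 23) .nil))))) .nil)) 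
(.lf (nat_lit 236646) (.g (nat_lit 2604) (.e (nat_lit 114711) (nat_lit 21) (.e (nat_lit 57853) (nat_lit 252) (.e (nat_lit 57435) (nat_lit 17) (.e (nat_lit 376842) (nat_lit 11) (.e (nat_lit 426186) (nat_lit 9) (.e (nat_lit 426446) (nat_lit 20) .nil)))))) (.g (nat_lit 4) .nil .nil))))) (.nd (nat_lit 5) (.nd (nat_lit 6) 
(.lf (nat_lit 236566) (.g (nat_lit 1922) (.e (nat_lit 114711) (nat_lit 21) (.e (nat_lit 57847) (nat_lit 252) (.e (nat_lit 57438) (nat_lit 17) (.e (nat_lit 376842) (nat_lit 11) (.e (nat_lit 426187) (nat_lit 9) .nil))))) .nil)) 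
(.lf (nat_lit 236630) (.g (nat_lit 1701) (.e (nat_lit 114711) (nat_lit 21) (.e (nat_lit 57853) (nat_lit 252) (.e (nat_lit 57409) (nat_lit 12) (.e (nat_lit 336211) (nat_lit 13) (.e (nat_lit 393272) (nat_lit 23) .nil))))) .nil))) (.nd (nat_lit 6) 
(.lf (nat_lit 236598) (.g (nat_lit 763) (.e (nat_lit 114711) (nat_lit 21) (.e (nat_lit 57848) (nat_lit 252) (.e (nat_lit 57437) (nat_lit 17) (.e (nat_lit 376840) (nat_lit 11) .nil)))) .nil)) 
(.lf (nat_lit 236662) (.g (nat_lit 2310) (.e (nat_lit 114711) (nat_lit 21) (.e (nat_lit 57853) (nat_lit 252) (.e (nat_lit 57436) (nat_lit 17) (.e (nat_lit 376842) (nat_lit 11) (.e (nat_lit 426197) (nat_lit 9) (.e (nat_lit 426446) (nat_lit 20) .nil)))))) (.g (nat_lit 4) .nil .nil)))))) (.nd (nat_lit 4) (.nd (nat_lit 5) (.nd (nat_lit 6) 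
(.lf (nat_lit 236558) (.g (nat_lit 2333) (.e (nat_lit 114711) (nat_lit 21) (.e (nat_lit 57847) (nat_lit 252) (.e (nat_lit 57437) (nat_lit 17) (.e (nat_lit 376840) (nat_lit 11) (.e (nat_lit 426232) (nat_lit 9) (.e (nat_lit 426445) (nat_lit 20) .nil)))))) (.g (nat_lit 6) .nil .nil))) 
(.lf (nat_lit 236622) (.g (nat_lit 2770) (.e (nat_lit 114711) (nat_lit 21) (.e (nat_lit 57849) (nat_lit 252) (.e (nat_lit 57437) (nat_lit 17) (.e (nat_lit 376842) (nat_lit 11) (.e (nat_lit 426189) (nat_lit 9) (.e (nat_lit 426446) (nat_lit 20) .nil)))))) (.g (nat_lit 4) .nil .nil)))) (.nd (nat_lit 6) 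
(.lf (nat_lit 236590) (.g (nat_lit 2673) (.e (nat_lit 114711) (nat_lit 21) (.e (nat_lit 57848) (nat_lit 252) (.e (nat_lit 57411) (nat_lit 12) (.e (nat_lit 336211) (nat_lit 13) (.e (nat_lit 393272) (nat_lit 23) (.e (nat_lit 426446) (nat_lit 20) .nil)))))) (.g (nat_lit 6) .nil .nil))) 
(.lf (nat_lit 236654) (.g (nat_lit 976) (.e (nat_lit 114711) (nat_lit 21) (.e (nat_lit 57853) (nat_lit 252) (.e (nat_lit 57435) (nat_lit 17) (.e (nat_lit 384768) (nat_lit 16) .nil)))) .nil)))) (.nd (nat_lit 5) (.nd (nat_lit 6) 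
(.lf (nat_lit 236574) (.g (nat_lit 1303) (.e (nat_lit 114711) (nat_lit 21) (.e (nat_lit 57848) (nat_lit 252) (.e (nat_lit 57407) (nat_lit 12) (.e (nat_lit 336117) (nat_lit 9) .nil)))) .nil)) 
(.lf (nat_lit 236638) (.g (nat_lit 1398) (.e (nat_lit 114711) (nat_lit 21) (.e (nat_lit 57853) (nat_lit 252) (.e (nat_lit 57424) (nat_lit 14) (.e (nat_lit 352276) (nat_lit 11) .nil)))) .nil))) (.nd (nat_lit 6) 
(.lf (nat_lit 236606) (.g (nat_lit 1411) (.e (nat_lit 114711) (nat_lit 21) (.e (nat_lit 57849) (nat_lit 252) (.e (nat_lit 57411) (nat_lit 12) (.e (nat_lit 336019) (nat_lit 3) .nil)))) .nil)) 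
(.lf (nat_lit 236670) (.g (nat_lit 1680) (.e (nat_lit 114711) (nat_lit 21) (.e (nat_lit 57854) (nat_lit 252) (.e (nat_lit 57409) (nat_lit 12) (.e (nat_lit 336211) (nat_lit 13) .nil)))) .nil)))))))) (.nd (nat_lit 1) (.nd (nat_lit 2) (.nd (nat_lit 3) (.nd (nat_lit 4) (.nd (nat_lit 5) (.nd (nat_lit 6) 
(.lf (nat_lit 236545) (.g (nat_lit 1569) (.e (nat_lit 114711) (nat_lit 21) (.e (nat_lit 57847) (nat_lit 252) (.e (nat_lit 57435) (nat_lit 17) (.e (nat_lit 376842) (nat_lit 11) (.e (nat_lit 426200) (nat_lit 9) .nil))))) .nil)) 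
(.lf (nat_lit 236609) (.g (nat_lit 2557) (.e (nat_lit 114711) (nat_lit 21) (.e (nat_lit 57849) (nat_lit 252) (.e (nat_lit 57411) (nat_lit 12) (.e (nat_lit 336211) (nat_lit 13) (.e (nat_lit 393267) (nat_lit 23) (.e (nat_lit 426446) (nat_lit 20) .nil)))))) (.g (nat_lit 5) .nil .nil)))) (.nd (nat_lit 6) 
(.lf (nat_lit 236577) (.g (nat_lit 2143) (.e (nat_lit 114711) (nat_lit 21) (.e (nat_lit 57848) (nat_lit 252) (.e (nat_lit 57407) (nat_lit 12) (.e (nat_lit 336210) (nat_lit 13) (.e (nat_lit 393267) (nat_lit 23) (.e (nat_lit 426446) (nat_lit 20) .nil)))))) (.g (nat_lit 4) .nil .nil))) 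
(.lf (nat_lit 236641) (.g (nat_lit 1506) (.e (nat_lit 114711) (nat_lit 21) (.e (nat_lit 57853) (nat_lit 252) (.e (nat_lit 57424) (nat_lit 14) (.e (nat_lit 352278) (nat_lit 11) .nil)))) .nil)))) (.nd (nat_lit 5) (.nd (nat_lit 6) 
(.lf (nat_lit 236561) (.g (nat_lit 3723) (.e (nat_lit 114711) (nat_lit 21) (.e (nat_lit 57847) (nat_lit 252) (.e (nat_lit 57437) (nat_lit 17) (.e (nat_lit 376842) (nat_lit 11) (.e (nat_lit 426200) (nat_lit 9) (.e (nat_lit 426446) (nat_lit 20) .nil)))))) (.g (nat_lit 6) .nil .nil))) 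
(.lf (nat_lit 236625) (.g (nat_lit 2386) (.e (nat_lit 114711) (nat_lit 21) (.e (nat_lit 57849) (nat_lit 252) (.e (nat_lit 57437) (nat_lit 17) (.e (nat_lit 376842) (nat_lit 11) (.e (nat_lit 426204) (nat_lit 9) .nil))))) .nil))) (.nd (nat_lit 6) 
(.lf (nat_lit 236593) (.g (nat_lit 1871) (.e (nat_lit 114711) (nat_lit 21) (.e (nat_lit 57848) (nat_lit 252) (.e (nat_lit 57423) (nat_lit 14) (.e (nat_lit 352277) (nat_lit 11) (.e (nat_lit 426190) (nat_lit 9) .nil))))) .nil)) 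
(.lf (nat_lit 236657) (.g (nat_lit 2477) (.e (nat_lit 114711) (nat_lit 21) (.e (nat_lit 57853) (nat_lit 252) (.e (nat_lit 57436) (nat_lit 17) (.e (nat_lit 376842) (nat_lit 11) (.e (nat_lit 426186) (nat_lit 9) (.e (nat_lit 426446) (nat_lit 20) .nil)))))) (.g (nat_lit 4) .nil .nil)))))) (.nd (nat_lit 4) (.nd (nat_lit 5) (.nd (nat_lit 6) 
(.lf (nat_lit 236553) (.g (nat_lit 2429) (.e (nat_lit 114711) (nat_lit 21) (.e (nat_lit 57847) (nat_lit 252) (.e (nat_lit 57436) (nat_lit 17) (.e (nat_lit 376842) (nat_lit 11) (.e (nat_lit 426196) (nat_lit 9) (.e (nat_lit 426446) (nat_lit 20) .nil)))))) (.g (nat_lit 4) .nil .nil))) 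
(.lf (nat_lit 236617) (.g (nat_lit 1386) (.e (nat_lit 114711) (nat_lit 21) (.e (nat_lit 57849) (nat_lit 252) (.e (nat_lit 57437) (nat_lit 17) (.e (nat_lit 376838) (nat_lit 11) .nil)))) .nil))) (.nd (nat_lit 6) 
(.lf (nat_lit 236585) (.g (nat_lit 1885) (.e (nat_lit 114711) (nat_lit 21) (.e (nat_lit 57848) (nat_lit 252) (.e (nat_lit 57411) (nat_lit 12) (.e (nat_lit 336115) (nat_lit 9) (.e (nat_lit 336426) (nat_lit 29) (.e (nat_lit 450304) (nat_lit 5) .nil)))))) (.g (nat_lit 5) .nil .nil))) 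
(.lf (nat_lit 236649) (.g (nat_lit 2939) (.e (nat_lit 114711) (nat_lit 21) (.e (nat_lit 57853) (nat_lit 252) (.e (nat_lit 57435) (nat_lit 17) (.e (nat_lit 376842) (nat_lit 11) (.e (nat_lit 426190) (nat_lit 9) (.e (nat_lit 426446) (nat_lit 20) .nil)))))) (.g (nat_lit 5) .nil .nil))))) (.nd (nat_lit 5) (.nd (nat_lit 6) 
(.lf (nat_lit 236569) (.g (nat_lit 2979) (.e (nat_lit 114711) (nat_lit 21) (.e (nat_lit 57848) (nat_lit 252) (.e (nat_lit 57390) (nat_lit 5) (.e (nat_lit 114723) (nat_lit 24) (.e (nat_lit 106517) (nat_lit 9) (.e (nat_lit 1237) (nat_lit 91) (.e (nat_lit 90170) (nat_lit 13) (.e (nat_lit 179968) (nat_lit 20) .nil)))))))) (.g (nat_lit 7) .nil .nil))) 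
(.lf (nat_lit 236633) (.g (nat_lit 2311) (.e (nat_lit 114711) (nat_lit 21) (.e (nat_lit 57853) (nat_lit 252) (.e (nat_lit 57419) (nat_lit 12) (.e (nat_lit 336213) (nat_lit 13) (.e (nat_lit 393267) (nat_lit 23) .nil))))) .nil))) (.nd (nat_lit 6) 
(.lf (nat_lit 236601) (.g (nat_lit 2046) (.e (nat_lit 114711) (nat_lit 21) (.e (nat_lit 57848) (nat_lit 252) (.e (nat_lit 57437) (nat_lit 17) (.e (nat_lit 376842) (nat_lit 11) (.e (nat_lit 426204) (nat_lit 9) .nil))))) .nil)) 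
(.lf (nat_lit 236665) (.g (nat_lit 1200) (.e (nat_lit 114711) (nat_lit 21) (.e (nat_lit 57854) (nat_lit 252) (.e (nat_lit 57389) (nat_lit 5) (.e (nat_lit 114702) (nat_lit 20) .nil)))) .nil)))))) (.nd (nat_lit 3) (.nd (nat_lit 4) (.nd (nat_lit 5) (.nd (nat_lit 6) 
(.lf (nat_lit 236549) (.g (nat_lit 2069) (.e (nat_lit 114711) (nat_lit 21) (.e (nat_lit 57847) (nat_lit 252) (.e (nat_lit 57435) (nat_lit 17) (.e (nat_lit 376842) (nat_lit 11) (.e (nat_lit 426258) (nat_lit 9) .nil))))) .nil)) 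
(.lf (nat_lit 236613) (.g (nat_lit 3797) (.e (nat_lit 114711) (nat_lit 21) (.e (nat_lit 57849) (nat_lit 252) (.e (nat_lit 57435) (nat_lit 17) (.e (nat_lit 376842) (nat_lit 11) (.e (nat_lit 426188) (nat_lit 9) (.e (nat_lit 426448) (nat_lit 20) .nil)))))) (.g (nat_lit 0) .nil .nil)))) (.nd (nat_lit 6) 
(.lf (nat_lit 236581) (.g (nat_lit 3291) (.e (nat_lit 114711) (nat_lit 21) (.e (nat_lit 57848) (nat_lit 252) (.e (nat_lit 57407) (nat_lit 12) (.e (nat_lit 336211) (nat_lit 13) (.e (nat_lit 393273) (nat_lit 23) (.e (nat_lit 426446) (nat_lit 20) .nil)))))) (.g (nat_lit 6) .nil .nil))) 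
(.lf (nat_lit 236645) (.g (nat_lit 988) (.e (nat_lit 114711) (nat_lit 21) (.e (nat_lit 57853) (nat_lit 252) (.e (nat_lit 57435) (nat_lit 17) (.e (nat_lit 376840) (nat_lit 11) .nil)))) .nil)))) (.nd (nat_lit 5) (.nd (nat_lit 6) 
(.lf (nat_lit 236565) (.g (nat_lit 666) (.e (nat_lit 114711) (nat_lit 21) (.e (nat_lit 57847) (nat_lit 252) (.e (nat_lit 57438) (nat_lit 17) (.e (nat_lit 376841) (nat_lit 11) .nil)))) .nil)) 
(.lf (nat_lit 236629) (.g (nat_lit 1148) (.e (nat_lit 114711) (nat_lit 21) (.e (nat_lit 57853) (nat_lit 252) (.e (nat_lit 57409) (nat_lit 12) (.e (nat_lit 336211) (nat_lit 13) .nil)))) .nil))) (.nd (nat_lit 6) 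
(.lf (nat_lit 236597) (.g (nat_lit 1245) (.e (nat_lit 114711) (nat_lit 21) (.e (nat_lit 57848) (nat_lit 252) (.e (nat_lit 57437) (nat_lit 17) (.e (nat_lit 376839) (nat_lit 11) .nil)))) .nil)) 
(.lf (nat_lit 236661) (.g (nat_lit 2056) (.e (nat_lit 114711) (nat_lit 21) (.e (nat_lit 57853) (nat_lit 252) (.e (nat_lit 57436) (nat_lit 17) (.e (nat_lit 376842) (nat_lit 11) (.e (nat_lit 426196) (nat_lit 9) .nil))))) .nil))))) (.nd (nat_lit 4) (.nd (nat_lit 5) (.nd (nat_lit 6) 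
(.lf (nat_lit 236557) (.g (nat_lit 1019) (.e (nat_lit 114711) (nat_lit 21) (.e (nat_lit 57847) (nat_lit 252) (.e (nat_lit 57437) (nat_lit 17) (.e (nat_lit 376839) (nat_lit 11) .nil)))) .nil)) 
(.lf (nat_lit 236621) (.g (nat_lit 4089) (.e (nat_lit 114711) (nat_lit 21) (.e (nat_lit 57849) (nat_lit 252) (.e (nat_lit 57437) (nat_lit 17) (.e (nat_lit 376842) (nat_lit 11) (.e (nat_lit 426188) (nat_lit 9) (.e (nat_lit 426448) (nat_lit 20) .nil)))))) (.g (nat_lit 0) .nil .nil)))) (.nd (nat_lit 6) 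
(.lf (nat_lit 236589) (.g (nat_lit 2579) (.e (nat_lit 114711) (nat_lit 21) (.e (nat_lit 57848) (nat_lit 252) (.e (nat_lit 57411) (nat_lit 12) (.e (nat_lit 336211) (nat_lit 13) (.e (nat_lit 393267) (nat_lit 23) (.e (nat_lit 426446) (nat_lit 20) .nil)))))) (.g (nat_lit 6) .nil .nil))) 
(.lf (nat_lit 236653) (.g (nat_lit 976) (.e (nat_lit 114711) (nat_lit 21) (.e (nat_lit 57853) (nat_lit 252) (.e (nat_lit 57435) (nat_lit 17) (.e (nat_lit 384768) (nat_lit 13) .nil)))) .nil)))) (.nd (nat_lit 5) (.nd (nat_lit 6) 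
(.lf (nat_lit 236573) (.g (nat_lit 1177) (.e (nat_lit 114711) (nat_lit 21) (.e (nat_lit 57848) (nat_lit 252) (.e (nat_lit 57407) (nat_lit 12) (.e (nat_lit 336115) (nat_lit 9) .nil)))) .nil)) 
(.lf (nat_lit 236637) (.g (nat_lit 1512) (.e (nat_lit 114711) (nat_lit 21) (.e (nat_lit 57853) (nat_lit 252) (.e (nat_lit 57424) (nat_lit 14) (.e (nat_lit 352274) (nat_lit 11) .nil)))) .nil))) (.nd (nat_lit 6) 
(.lf (nat_lit 236605) (.g (nat_lit 2314) (.e (nat_lit 114711) (nat_lit 21) (.e (nat_lit 57849) (nat_lit 252) (.e (nat_lit 57407) (nat_lit 12) (.e (nat_lit 336211) (nat_lit 13) (.e (nat_lit 393270) (nat_lit 23) (.e (nat_lit 426446) (nat_lit 20) .nil)))))) (.g (nat_lit 4) .nil .nil))) 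
(.lf (nat_lit 236669) (.g (nat_lit 1723) (.e (nat_lit 114711) (nat_lit 21) (.e (nat_lit 57854) (nat_lit 252) (.e (nat_lit 57409) (nat_lit 12) (.e (nat_lit 336210) (nat_lit 13) .nil)))) .nil))))))) (.nd (nat_lit 2) (.nd (nat_lit 3) (.nd (nat_lit 4) (.nd (nat_lit 5) (.nd (nat_lit 6) 
(.lf (nat_lit 236547) (.g (nat_lit 3764) (.e (nat_lit 114711) (nat_lit 21) (.e (nat_lit 57847) (nat_lit 252) (.e (nat_lit 57435) (nat_lit 17) (.e (nat_lit 376842) (nat_lit 11) (.e (nat_lit 426200) (nat_lit 9) (.e (nat_lit 426448) (nat_lit 20) .nil)))))) (.g (nat_lit 0) .nil .nil))) 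
(.lf (nat_lit 236611) (.g (nat_lit 1044) (.e (nat_lit 114711) (nat_lit 21) (.e (nat_lit 57849) (nat_lit 252) (.e (nat_lit 57435) (nat_lit 17) (.e (nat_lit 376839) (nat_lit 11) .nil)))) .nil))) (.nd (nat_lit 6) 
(.lf (nat_lit 236579) (.g (nat_lit 1944) (.e (nat_lit 114711) (nat_lit 21) (.e (nat_lit 57848) (nat_lit 252) (.e (nat_lit 57407) (nat_lit 12) (.e (nat_lit 336210) (nat_lit 13) (.e (nat_lit 393274) (nat_lit 23) (.e (nat_lit 433920) (nat_lit 20) .nil)))))) (.g (nat_lit 4) .nil .nil))) 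
(.lf (nat_lit 236643) (.g (nat_lit 1294) (.e (nat_lit 114711) (nat_lit 21) (.e (nat_lit 57853) (nat_lit 252) (.e (nat_lit 57424) (nat_lit 14) (.e (nat_lit 360192) (nat_lit 16) .nil)))) .nil)))) (.nd (nat_lit 5) (.nd (nat_lit 6) 
(.lf (nat_lit 236563) (.g (nat_lit 2247) (.e (nat_lit 114711) (nat_lit 21) (.e (nat_lit 57847) (nat_lit 252) (.e (nat_lit 57437) (nat_lit 17) (.e (nat_lit 376842) (nat_lit 11) (.e (nat_lit 426258) (nat_lit 9) (.e (nat_lit 426445) (nat_lit 20) .nil)))))) (.g (nat_lit 4) .nil .nil))) 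
(.lf (nat_lit 236627) (.g (nat_lit 1541) (.e (nat_lit 114711) (nat_lit 21) (.e (nat_lit 57850) (nat_lit 252) (.e (nat_lit 57423) (nat_lit 14) (.e (nat_lit 352277) (nat_lit 11) (.e (nat_lit 426190) (nat_lit 9) .nil))))) .nil))) (.nd (nat_lit 6) 
(.lf (nat_lit 236595) (.g (nat_lit 611) (.e (nat_lit 114711) (nat_lit 21) (.e (nat_lit 57848) (nat_lit 252) (.e (nat_lit 57435) (nat_lit 17) (.e (nat_lit 376840) (nat_lit 11) .nil)))) .nil)) 
(.lf (nat_lit 236659) (.g (nat_lit 2425) (.e (nat_lit 114711) (nat_lit 21) (.e (nat_lit 57853) (nat_lit 252) (.e (nat_lit 57436) (nat_lit 17) (.e (nat_lit 376842) (nat_lit 11) (.e (nat_lit 426189) (nat_lit 9) (.e (nat_lit 426446) (nat_lit 20) .nil)))))) (.g (nat_lit 4) .nil .nil)))))) (.nd (nat_lit 4) (.nd (nat_lit 5) (.nd (nat_lit 6) 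
(.lf (nat_lit 236555) (.g (nat_lit 1059) (.e (nat_lit 114711) (nat_lit 21) (.e (nat_lit 57847) (nat_lit 252) (.e (nat_lit 57436) (nat_lit 17) (.e (nat_lit 384768) (nat_lit 13) .nil)))) .nil)) 
(.lf (nat_lit 236619) (.g (nat_lit 1386) (.e (nat_lit 114711) (nat_lit 21) (.e (nat_lit 57849) (nat_lit 252) (.e (nat_lit 57437) (nat_lit 17) (.e (nat_lit 376841) (nat_lit 11) .nil)))) .nil))) (.nd (nat_lit 6) 
(.lf (nat_lit 236587) (.g (nat_lit 1937) (.e (nat_lit 114711) (nat_lit 21) (.e (nat_lit 57848) (nat_lit 252) (.e (nat_lit 57411) (nat_lit 12) (.e (nat_lit 336115) (nat_lit 9) (.e (nat_lit 336428) (nat_lit 29) (.e (nat_lit 450304) (nat_lit 5) .nil)))))) (.g (nat_lit 5) .nil .nil))) 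
(.lf (nat_lit 236651) (.g (nat_lit 2403) (.e (nat_lit 114711) (nat_lit 21) (.e (nat_lit 57853) (nat_lit 252) (.e (nat_lit 57435) (nat_lit 17) (.e (nat_lit 376842) (nat_lit 11) (.e (nat_lit 426197) (nat_lit 9) (.e (nat_lit 426446) (nat_lit 20) .nil)))))) (.g (nat_lit 4) .nil .nil))))) (.nd (nat_lit 5) (.nd (nat_lit 6) 
(.lf (nat_lit 236571) (.g (nat_lit 2807) (.e (nat_lit 114711) (nat_lit 21) (.e (nat_lit 57848) (nat_lit 252) (.e (nat_lit 57407) (nat_lit 12) (.e (nat_lit 336019) (nat_lit 3) (.e (nat_lit 98342) (nat_lit 20) (.e (nat_lit 229120) (nat_lit 1) (.e (nat_lit 57849) (nat_lit 252) (.e (nat_lit 57388) (nat_lit 5) .nil)))))))) (.g (nat_lit 4) .nil .nil))) 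
(.lf (nat_lit 236635) (.g (nat_lit 2140) (.e (nat_lit 114711) (nat_lit 21) (.e (nat_lit 57853) (nat_lit 252) (.e (nat_lit 57423) (nat_lit 14) (.e (nat_lit 352277) (nat_lit 11) (.e (nat_lit 426190) (nat_lit 9) .nil))))) .nil))) (.nd (nat_lit 6) 
(.lf (nat_lit 236603) (.g (nat_lit 520) (.e (nat_lit 114711) (nat_lit 21) (.e (nat_lit 57849) (nat_lit 252) (.e (nat_lit 57407) (nat_lit 12) .nil))) .nil)) 
(.lf (nat_lit 236667) (.g (nat_lit 2017) (.e (nat_lit 114711) (nat_lit 21) (.e (nat_lit 57854) (nat_lit 252) (.e (nat_lit 57409) (nat_lit 12) (.e (nat_lit 336114) (nat_lit 9) .nil)))) .nil)))))) (.nd (nat_lit 3) (.nd (nat_lit 4) (.nd (nat_lit 5) (.nd (nat_lit 6) 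
(.lf (nat_lit 236551) (.g (nat_lit 1237) (.e (nat_lit 114711) (nat_lit 21) (.e (nat_lit 57847) (nat_lit 252) (.e (nat_lit 57436) (nat_lit 17) (.e (nat_lit 376840) (nat_lit 11) .nil)))) .nil)) 
(.lf (nat_lit 236615) (.g (nat_lit 2212) (.e (nat_lit 114711) (nat_lit 21) (.e (nat_lit 57849) (nat_lit 252) (.e (nat_lit 57435) (nat_lit 17) (.e (nat_lit 376842) (nat_lit 11) (.e (nat_lit 426196) (nat_lit 9) .nil))))) .nil))) (.nd (nat_lit 6) 
(.lf (nat_lit 236583) (.g (nat_lit 1082) (.e (nat_lit 114711) (nat_lit 21) (.e (nat_lit 57848) (nat_lit 252) (.e (nat_lit 57407) (nat_lit 12) (.e (nat_lit 343808) (nat_lit 13) .nil)))) .nil)) 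
(.lf (nat_lit 236647) (.g (nat_lit 3226) (.e (nat_lit 114711) (nat_lit 21) (.e (nat_lit 57853) (nat_lit 252) (.e (nat_lit 57435) (nat_lit 17) (.e (nat_lit 376842) (nat_lit 11) (.e (nat_lit 426188) (nat_lit 9) (.e (nat_lit 426446) (nat_lit 20) .nil)))))) (.g (nat_lit 5) .nil .nil))))) (.nd (nat_lit 5) (.nd (nat_lit 6) 
(.lf (nat_lit 236567) (.g (nat_lit 1488) (.e (nat_lit 114711) (nat_lit 21) (.e (nat_lit 57848) (nat_lit 252) (.e (nat_lit 57368) (nat_lit 1) (.e (nat_lit 57854) (nat_lit 252) (.e (nat_lit 57406) (nat_lit 12) .nil))))) .nil)) 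
(.lf (nat_lit 236631) (.g (nat_lit 1698) (.e (nat_lit 114711) (nat_lit 21) (.e (nat_lit 57853) (nat_lit 252) (.e (nat_lit 57409) (nat_lit 12) (.e (nat_lit 336211) (nat_lit 13) (.e (nat_lit 393273) (nat_lit 23) .nil))))) .nil))) (.nd (nat_lit 6) 
(.lf (nat_lit 236599) (.g (nat_lit 1862) (.e (nat_lit 114711) (nat_lit 21) (.e (nat_lit 57848) (nat_lit 252) (.e (nat_lit 57437) (nat_lit 17) (.e (nat_lit 376840) (nat_lit 11) (.e (nat_lit 426234) (nat_lit 9) (.e (nat_lit 426445) (nat_lit 20) .nil)))))) (.g (nat_lit 6) .nil .nil))) 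
(.lf (nat_lit 236663) (.g (nat_lit 992) (.e (nat_lit 114711) (nat_lit 21) (.e (nat_lit 57853) (nat_lit 252) (.e (nat_lit 57436) (nat_lit 17) (.e (nat_lit 384768) (nat_lit 13) .nil)))) .nil))))) (.nd (nat_lit 4) (.nd (nat_lit 5) (.nd (nat_lit 6) 
(.lf (nat_lit 236559) (.g (nat_lit 2675) (.e (nat_lit 114711) (nat_lit 21) (.e (nat_lit 57847) (nat_lit 252) (.e (nat_lit 57437) (nat_lit 17) (.e (nat_lit 376842) (nat_lit 11) (.e (nat_lit 426196) (nat_lit 9) (.e (nat_lit 426446) (nat_lit 20) .nil)))))) (.g (nat_lit 4) .nil .nil))) 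
(.lf (nat_lit 236623) (.g (nat_lit 3698) (.e (nat_lit 114711) (nat_lit 21) (.e (nat_lit 57849) (nat_lit 252) (.e (nat_lit 57437) (nat_lit 17) (.e (nat_lit 376842) (nat_lit 11) (.e (nat_lit 426190) (nat_lit 9) (.e (nat_lit 426448) (nat_lit 20) .nil)))))) (.g (nat_lit 0) .nil .nil)))) (.nd (nat_lit 6) 
(.lf (nat_lit 236591) (.g (nat_lit 3050) (.e (nat_lit 114711) (nat_lit 21) (.e (nat_lit 57848) (nat_lit 252) (.e (nat_lit 57411) (nat_lit 12) (.e (nat_lit 336211) (nat_lit 13) (.e (nat_lit 393273) (nat_lit 23) (.e (nat_lit 426446) (nat_lit 20) .nil)))))) (.g (nat_lit 6) .nil .nil))) 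
(.lf (nat_lit 236655) (.g (nat_lit 1138) (.e (nat_lit 114711) (nat_lit 21) (.e (nat_lit 57853) (nat_lit 252) (.e (nat_lit 57436) (nat_lit 17) (.e (nat_lit 376838) (nat_lit 11) .nil)))) .nil)))) (.nd (nat_lit 5) (.nd (nat_lit 6) 
(.lf (nat_lit 236575) (.g (nat_lit 1397) (.e (nat_lit 114711) (nat_lit 21) (.e (nat_lit 57848) (nat_lit 252) (.e (nat_lit 57407) (nat_lit 12) (.e (nat_lit 336120) (nat_lit 9) .nil)))) .nil)) 
(.lf (nat_lit 236639) (.g (nat_lit 1335) (.e (nat_lit 114711) (nat_lit 21) (.e (nat_lit 57853) (nat_lit 252) (.e (nat_lit 57424) (nat_lit 14) (.e (nat_lit 352277) (nat_lit 11) .nil)))) .nil))) (.nd (nat_lit 6) 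
(.lf (nat_lit 236607) (.g (nat_lit 1307) (.e (nat_lit 114711) (nat_lit 21) (.e (nat_lit 57849) (nat_lit 252) (.e (nat_lit 57411) (nat_lit 12) (.e (nat_lit 336115) (nat_lit 9) .nil)))) .nil)) 
(.lf (nat_lit 236671) (.g (nat_lit 2332) (.e (nat_lit 114711) (nat_lit 21) (.e (nat_lit 57854) (nat_lit 252) (.e (nat_lit 57409) (nat_lit 12) (.e (nat_lit 336211) (nat_lit 13) (.e (nat_lit 393267) (nat_lit 23) .nil))))) .nil)))))))))

noncomputable def tv3086 : DT := (.nd (nat_lit 0) (.nd (nat_lit 1) (.nd (nat_lit 2) (.nd (nat_lit 3) (.nd (nat_lit 4) (.nd (nat_lit 5) 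
(.lf (nat_lit 236672) (.g (nat_lit 2925) (.e (nat_lit 114711) (nat_lit 21) (.e (nat_lit 57854) (nat_lit 252) (.e (nat_lit 57409) (nat_lit 12) (.e (nat_lit 336211) (nat_lit 13) (.e (nat_lit 393268) (nat_lit 23) (.e (nat_lit 426446) (nat_lit 20) .nil)))))) (.g (nat_lit 4) .nil .nil))) 
(.lf (nat_lit 236704) (.g (nat_lit 3028) (.e (nat_lit 114711) (nat_lit 21) (.e (nat_lit 57870) (nat_lit 264) (.e (nat_lit 1221) (nat_lit 90) (.e (nat_lit 81956) (nat_lit 23) (.e (nat_lit 98346) (nat_lit 22) .nil))))) .nil))) (.nd (nat_lit 5) 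
(.lf (nat_lit 236688) (.g (nat_lit 2226) (.e (nat_lit 114711) (nat_lit 21) (.e (nat_lit 57870) (nat_lit 264) (.e (nat_lit 992) (nat_lit 81) (.e (nat_lit 1595) (nat_lit 111) (.e (nat_lit 360467) (nat_lit 3) (.e (nat_lit 516100) (nat_lit 0) (.e (nat_lit 7936) (nat_lit 220) (.e (nat_lit 720956) (nat_lit 25) .nil)))))))) (.g (nat_lit 5) .nil .nil))) 
(.lf (nat_lit 236720) (.g (nat_lit 2026) (.e (nat_lit 114711) (nat_lit 21) (.e (nat_lit 57872) (nat_lit 264) (.e (nat_lit 1221) (nat_lit 90) (.e (nat_lit 81953) (nat_lit 22) (.e (nat_lit 90165) (nat_lit 12) .nil))))) .nil)))) (.nd (nat_lit 4) (.nd (nat_lit 5) 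
(.lf (nat_lit 236680) (.g (nat_lit 2515) (.e (nat_lit 114711) (nat_lit 21) (.e (nat_lit 57854) (nat_lit 252) (.e (nat_lit 57435) (nat_lit 17) (.e (nat_lit 376842) (nat_lit 11) (.e (nat_lit 426190) (nat_lit 9) (.e (nat_lit 426446) (nat_lit 20) .nil)))))) (.g (nat_lit 4) .nil .nil))) 
(.lf (nat_lit 236712) (.g (nat_lit 4467) (.e (nat_lit 114711) (nat_lit 21) (.e (nat_lit 57872) (nat_lit 264) (.e (nat_lit 1200) (nat_lit 88) (.e (nat_lit 65619) (nat_lit 10) (.e (nat_lit 344129) (nat_lit 26) (.e (nat_lit 557084) (nat_lit 10) (.e (nat_lit 8361) (nat_lit 89) (.e (nat_lit 720956) (nat_lit 25) .nil)))))))) (.g (nat_lit 6) .nil .nil)))) (.nd (nat_lit 5) 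
(.lf (nat_lit 236696) (.g (nat_lit 4371) (.e (nat_lit 114711) (nat_lit 21) (.e (nat_lit 57870) (nat_lit 264) (.e (nat_lit 1220) (nat_lit 90) (.e (nat_lit 81956) (nat_lit 23) (.e (nat_lit 98320) (nat_lit 17) (.e (nat_lit 3555) (nat_lit 220) (.e (nat_lit 720956) (nat_lit 25) .nil))))))) (.g (nat_lit 5) .nil .nil))) 
(.lf (nat_lit 236728) (.g (nat_lit 2667) (.e (nat_lit 114711) (nat_lit 21) (.e (nat_lit 57872) (nat_lit 264) (.e (nat_lit 1221) (nat_lit 90) (.e (nat_lit 81956) (nat_lit 23) (.e (nat_lit 98325) (nat_lit 17) (.e (nat_lit 7936) (nat_lit 220) (.e (nat_lit 720956) (nat_lit 25) .nil))))))) (.g (nat_lit 4) .nil .nil)))))) (.nd (nat_lit 3) (.nd (nat_lit 4) (.nd (nat_lit 5) 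
(.lf (nat_lit 236676) (.g (nat_lit 667) (.e (nat_lit 114711) (nat_lit 21) (.e (nat_lit 57854) (nat_lit 252) (.e (nat_lit 57435) (nat_lit 17) .nil))) .nil)) 
(.lf (nat_lit 236708) (.g (nat_lit 2628) (.e (nat_lit 114711) (nat_lit 21) (.e (nat_lit 57872) (nat_lit 264) (.e (nat_lit 1199) (nat_lit 88) (.e (nat_lit 65610) (nat_lit 10) (.e (nat_lit 344117) (nat_lit 21) (.e (nat_lit 516099) (nat_lit 0) (.e (nat_lit 7936) (nat_lit 220) (.e (nat_lit 720955) (nat_lit 25) .nil)))))))) (.g (nat_lit 5) .nil .nil)))) (.nd (nat_lit 5) 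
(.lf (nat_lit 236692) (.g (nat_lit 3686) (.e (nat_lit 114711) (nat_lit 21) (.e (nat_lit 57870) (nat_lit 264) (.e (nat_lit 1199) (nat_lit 88) (.e (nat_lit 65610) (nat_lit 10) (.e (nat_lit 344129) (nat_lit 26) (.e (nat_lit 557084) (nat_lit 10) (.e (nat_lit 8362) (nat_lit 89) (.e (nat_lit 720956) (nat_lit 25) .nil)))))))) (.g (nat_lit 6) .nil .nil))) 
(.lf (nat_lit 236724) (.g (nat_lit 3178) (.e (nat_lit 114711) (nat_lit 21) (.e (nat_lit 57872) (nat_lit 264) (.e (nat_lit 1221) (nat_lit 90) (.e (nat_lit 81956) (nat_lit 23) (.e (nat_lit 98319) (nat_lit 17) (.e (nat_lit 3555) (nat_lit 220) (.e (nat_lit 720956) (nat_lit 25) .nil))))))) (.g (nat_lit 4) .nil .nil))))) (.nd (nat_lit 4) (.nd (nat_lit 5) 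
(.lf (nat_lit 236684) (.g (nat_lit 2186) (.e (nat_lit 114711) (nat_lit 21) (.e (nat_lit 57854) (nat_lit 252) (.e (nat_lit 57436) (nat_lit 17) (.e (nat_lit 376842) (nat_lit 11) (.e (nat_lit 426189) (nat_lit 9) .nil))))) .nil)) 
(.lf (nat_lit 236716) (.g (nat_lit 3346) (.e (nat_lit 114711) (nat_lit 21) (.e (nat_lit 57872) (nat_lit 264) (.e (nat_lit 1219) (nat_lit 90) (.e (nat_lit 81956) (nat_lit 23) (.e (nat_lit 98320) (nat_lit 17) .nil))))) .nil))) (.nd (nat_lit 5) 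
(.lf (nat_lit 236700) (.g (nat_lit 2189) (.e (nat_lit 114711) (nat_lit 21) (.e (nat_lit 57870) (nat_lit 264) (.e (nat_lit 1221) (nat_lit 90) (.e (nat_lit 81953) (nat_lit 22) (.e (nat_lit 90133) (nat_lit 9) (.e (nat_lit 2397) (nat_lit 157) (.e (nat_lit 3555) (nat_lit 220) (.e (nat_lit 720956) (nat_lit 25) .nil)))))))) (.g (nat_lit 4) .nil .nil))) 
(.lf (nat_lit 236732) (.g (nat_lit 4266) (.e (nat_lit 114711) (nat_lit 21) (.e (nat_lit 57872) (nat_lit 264) (.e (nat_lit 1221) (nat_lit 90) (.e (nat_lit 81956) (nat_lit 23) (.e (nat_lit 98346) (nat_lit 22) (.e (nat_lit 253959) (nat_lit 9) (.e (nat_lit 1281) (nat_lit 94) .nil))))))) (.g (nat_lit 5) .nil .nil))))))) (.nd (nat_lit 2) (.nd (nat_lit 3) (.nd (nat_lit 4) (.nd (nat_lit 5) 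
(.lf (nat_lit 236674) (.g (nat_lit 1686) (.e (nat_lit 114711) (nat_lit 21) (.e (nat_lit 57854) (nat_lit 252) (.e (nat_lit 57409) (nat_lit 12) (.e (nat_lit 343808) (nat_lit 13) .nil)))) .nil)) 
(.lf (nat_lit 236706) (.g (nat_lit 2503) (.e (nat_lit 114711) (nat_lit 21) (.e (nat_lit 57872) (nat_lit 264) (.e (nat_lit 1190) (nat_lit 88) (.e (nat_lit 65619) (nat_lit 10) (.e (nat_lit 344117) (nat_lit 21) (.e (nat_lit 516135) (nat_lit 5) (.e (nat_lit 253975) (nat_lit 9) (.e (nat_lit 1281) (nat_lit 94) .nil)))))))) (.g (nat_lit 5) .nil .nil)))) (.nd (nat_lit 5) 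
(.lf (nat_lit 236690) (.g (nat_lit 4391) (.e (nat_lit 114711) (nat_lit 21) (.e (nat_lit 57870) (nat_lit 264) (.e (nat_lit 1190) (nat_lit 88) (.e (nat_lit 65619) (nat_lit 10) (.e (nat_lit 344129) (nat_lit 26) (.e (nat_lit 557084) (nat_lit 10) (.e (nat_lit 8361) (nat_lit 89) (.e (nat_lit 720956) (nat_lit 25) .nil)))))))) (.g (nat_lit 6) .nil .nil))) 
(.lf (nat_lit 236722) (.g (nat_lit 1336) (.e (nat_lit 114711) (nat_lit 21) (.e (nat_lit 57872) (nat_lit 264) (.e (nat_lit 1221) (nat_lit 90) (.e (nat_lit 81954) (nat_lit 23) .nil)))) .nil)))) (.nd (nat_lit 4) (.nd (nat_lit 5) 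
(.lf (nat_lit 236682) (.g (nat_lit 1330) (.e (nat_lit 114711) (nat_lit 21) (.e (nat_lit 57854) (nat_lit 252) (.e (nat_lit 57436) (nat_lit 17) (.e (nat_lit 376838) (nat_lit 11) .nil)))) .nil)) 
(.lf (nat_lit 236714) (.g (nat_lit 2015) (.e (nat_lit 114711) (nat_lit 21) (.e (nat_lit 57872) (nat_lit 264) (.e (nat_lit 1219) (nat_lit 90) (.e (nat_lit 81954) (nat_lit 23) (.e (nat_lit 98345) (nat_lit 22) .nil))))) .nil))) (.nd (nat_lit 5) 
(.lf (nat_lit 236698) (.g (nat_lit 2861) (.e (nat_lit 114711) (nat_lit 21) (.e (nat_lit 57870) (nat_lit 264) (.e (nat_lit 1220) (nat_lit 90) (.e (nat_lit 81956) (nat_lit 23) (.e (nat_lit 98346) (nat_lit 22) .nil))))) .nil)) 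
(.lf (nat_lit 236730) (.g (nat_lit 3851) (.e (nat_lit 114711) (nat_lit 21) (.e (nat_lit 57872) (nat_lit 264) (.e (nat_lit 1221) (nat_lit 90) (.e (nat_lit 81956) (nat_lit 23) (.e (nat_lit 98345) (nat_lit 22) .nil))))) .nil))))) (.nd (nat_lit 3) (.nd (nat_lit 4) (.nd (nat_lit 5) 
(.lf (nat_lit 236678) (.g (nat_lit 2654) (.e (nat_lit 114711) (nat_lit 21) (.e (nat_lit 57854) (nat_lit 252) (.e (nat_lit 57435) (nat_lit 17) (.e (nat_lit 376842) (nat_lit 11) (.e (nat_lit 426187) (nat_lit 9) (.e (nat_lit 426446) (nat_lit 20) .nil)))))) (.g (nat_lit 4) .nil .nil))) 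
(.lf (nat_lit 236710) (.g (nat_lit 2959) (.e (nat_lit 114711) (nat_lit 21) (.e (nat_lit 57872) (nat_lit 264) (.e (nat_lit 1199) (nat_lit 88) (.e (nat_lit 65610) (nat_lit 10) (.e (nat_lit 344117) (nat_lit 21) (.e (nat_lit 516135) (nat_lit 5) (.e (nat_lit 253975) (nat_lit 9) (.e (nat_lit 1281) (nat_lit 94) .nil)))))))) (.g (nat_lit 5) .nil .nil)))) (.nd (nat_lit 5) 
(.lf (nat_lit 236694) (.g (nat_lit 4359) (.e (nat_lit 114711) (nat_lit 21) (.e (nat_lit 57870) (nat_lit 264) (.e (nat_lit 1200) (nat_lit 88) (.e (nat_lit 65619) (nat_lit 10) (.e (nat_lit 344129) (nat_lit 26) (.e (nat_lit 557084) (nat_lit 10) (.e (nat_lit 8361) (nat_lit 89) (.e (nat_lit 720956) (nat_lit 25) .nil)))))))) (.g (nat_lit 6) .nil .nil))) 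
(.lf (nat_lit 236726) (.g (nat_lit 2816) (.e (nat_lit 114711) (nat_lit 21) (.e (nat_lit 57872) (nat_lit 264) (.e (nat_lit 1221) (nat_lit 90) (.e (nat_lit 81956) (nat_lit 23) (.e (nat_lit 98321) (nat_lit 17) (.e (nat_lit 7936) (nat_lit 220) (.e (nat_lit 720954) (nat_lit 25) .nil))))))) (.g (nat_lit 4) .nil .nil))))) (.nd (nat_lit 4) (.nd (nat_lit 5) 
(.lf (nat_lit 236686) (.g (nat_lit 2259) (.e (nat_lit 114711) (nat_lit 21) (.e (nat_lit 57854) (nat_lit 252) (.e (nat_lit 57436) (nat_lit 17) (.e (nat_lit 376842) (nat_lit 11) (.e (nat_lit 426196) (nat_lit 9) .nil))))) .nil)) 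
(.lf (nat_lit 236718) (.g (nat_lit 2316) (.e (nat_lit 114711) (nat_lit 21) (.e (nat_lit 57872) (nat_lit 264) (.e (nat_lit 1219) (nat_lit 90) (.e (nat_lit 81956) (nat_lit 23) (.e (nat_lit 98321) (nat_lit 17) (.e (nat_lit 7936) (nat_lit 220) (.e (nat_lit 720956) (nat_lit 25) .nil))))))) (.g (nat_lit 4) .nil .nil)))) (.nd (nat_lit 5) 
(.lf (nat_lit 236702) (.g (nat_lit 2166) (.e (nat_lit 114711) (nat_lit 21) (.e (nat_lit 57870) (nat_lit 264) (.e (nat_lit 1221) (nat_lit 90) (.e (nat_lit 81954) (nat_lit 23) (.e (nat_lit 98321) (nat_lit 17) (.e (nat_lit 7936) (nat_lit 220) (.e (nat_lit 720956) (nat_lit 25) .nil))))))) (.g (nat_lit 4) .nil .nil))) 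
(.lf (nat_lit 236734) (.g (nat_lit 3493) (.e (nat_lit 114711) (nat_lit 21) (.e (nat_lit 57872) (nat_lit 264) (.e (nat_lit 1221) (nat_lit 90) (.e (nat_lit 81956) (nat_lit 23) (.e (nat_lit 98346) (nat_lit 22) (.e (nat_lit 253963) (nat_lit 9) (.e (nat_lit 1277) (nat_lit 94) .nil))))))) (.g (nat_lit 4) .nil .nil)))))))) 
(.nd (nat_lit 1) (.nd (nat_lit 2) (.nd (nat_lit 3) (.nd (nat_lit 4) (.nd (nat_lit 5) 
(.lf (nat_lit 236673) (.g (nat_lit 3049) (.e (nat_lit 114711) (nat_lit 21) (.e (nat_lit 57854) (nat_lit 252) (.e (nat_lit 57409) (nat_lit 12) (.e (nat_lit 336211) (nat_lit 13) (.e (nat_lit 393273) (nat_lit 23) (.e (nat_lit 426446) (nat_lit 20) .nil)))))) (.g (nat_lit 4) .nil .nil))) 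
(.lf (nat_lit 236705) (.g (nat_lit 3600) (.e (nat_lit 114711) (nat_lit 21) (.e (nat_lit 57870) (nat_lit 264) (.e (nat_lit 1221) (nat_lit 90) (.e (nat_lit 81956) (nat_lit 23) (.e (nat_lit 98346) (nat_lit 22) (.e (nat_lit 253959) (nat_lit 9) (.e (nat_lit 1281) (nat_lit 94) .nil))))))) (.g (nat_lit 4) .nil .nil)))) (.nd (nat_lit 5) 
(.lf (nat_lit 236689) (.g (nat_lit 4067) (.e (nat_lit 114711) (nat_lit 21) (.e (nat_lit 57870) (nat_lit 264) (.e (nat_lit 1189) (nat_lit 88) (.e (nat_lit 65619) (nat_lit 10) (.e (nat_lit 344129) (nat_lit 26) (.e (nat_lit 557084) (nat_lit 10) (.e (nat_lit 8361) (nat_lit 89) (.e (nat_lit 720956) (nat_lit 25) .nil)))))))) (.g (nat_lit 6) .nil .nil))) 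
(.lf (nat_lit 236721) (.g (nat_lit 2438) (.e (nat_lit 114711) (nat_lit 21) (.e (nat_lit 57872) (nat_lit 264) (.e (nat_lit 1221) (nat_lit 90) (.e (nat_lit 81953) (nat_lit 22) (.e (nat_lit 90165) (nat_lit 12) (.e (nat_lit 171776) (nat_lit 48) (.e (nat_lit 720953) (nat_lit 25) .nil))))))) (.g (nat_lit 4) .nil .nil))))) (.nd (nat_lit 4) (.nd (nat_lit 5) 
(.lf (nat_lit 236681) (.g (nat_lit 701) (.e (nat_lit 114711) (nat_lit 21) (.e (nat_lit 57854) (nat_lit 252) (.e (nat_lit 57436) (nat_lit 17) .nil))) .nil)) 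
(.lf (nat_lit 236713) (.g (nat_lit 1157) (.e (nat_lit 114711) (nat_lit 21) (.e (nat_lit 57872) (nat_lit 264) (.e (nat_lit 1219) (nat_lit 90) (.e (nat_lit 81954) (nat_lit 23) .nil)))) .nil))) (.nd (nat_lit 5) 
(.lf (nat_lit 236697) (.g (nat_lit 2322) (.e (nat_lit 114711) (nat_lit 21) (.e (nat_lit 57870) (nat_lit 264) (.e (nat_lit 1220) (nat_lit 90) (.e (nat_lit 81956) (nat_lit 23) (.e (nat_lit 98321) (nat_lit 17) (.e (nat_lit 7936) (nat_lit 220) (.e (nat_lit 720954) (nat_lit 25) .nil))))))) (.g (nat_lit 4) .nil .nil))) 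
(.lf (nat_lit 236729) (.g (nat_lit 3034) (.e (nat_lit 114711) (nat_lit 21) (.e (nat_lit 57872) (nat_lit 264) (.e (nat_lit 1221) (nat_lit 90) (.e (nat_lit 81956) (nat_lit 23) (.e (nat_lit 106240) (nat_lit 17) .nil))))) .nil))))) (.nd (nat_lit 3) (.nd (nat_lit 4) (.nd (nat_lit 5) 
(.lf (nat_lit 236677) (.g (nat_lit 2261) (.e (nat_lit 114711) (nat_lit 21) (.e (nat_lit 57854) (nat_lit 252) (.e (nat_lit 57435) (nat_lit 17) (.e (nat_lit 376842) (nat_lit 11) (.e (nat_lit 426186) (nat_lit 9) (.e (nat_lit 426446) (nat_lit 20) .nil)))))) (.g (nat_lit 4) .nil .nil))) 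
(.lf (nat_lit 236709) (.g (nat_lit 3371) (.e (nat_lit 114711) (nat_lit 21) (.e (nat_lit 57872) (nat_lit 264) (.e (nat_lit 1199) (nat_lit 88) (.e (nat_lit 65610) (nat_lit 10) (.e (nat_lit 344117) (nat_lit 21) (.e (nat_lit 516134) (nat_lit 5) (.e (nat_lit 253975) (nat_lit 9) (.e (nat_lit 1281) (nat_lit 94) .nil)))))))) (.g (nat_lit 5) .nil .nil)))) (.nd (nat_lit 5) 
(.lf (nat_lit 236693) (.g (nat_lit 3428) (.e (nat_lit 114711) (nat_lit 21) (.e (nat_lit 57870) (nat_lit 264) (.e (nat_lit 1199) (nat_lit 88) (.e (nat_lit 65610) (nat_lit 10) (.e (nat_lit 344129) (nat_lit 26) (.e (nat_lit 557084) (nat_lit 10) (.e (nat_lit 8363) (nat_lit 89) (.e (nat_lit 720956) (nat_lit 25) .nil)))))))) (.g (nat_lit 6) .nil .nil))) 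
(.lf (nat_lit 236725) (.g (nat_lit 2926) (.e (nat_lit 114711) (nat_lit 21) (.e (nat_lit 57872) (nat_lit 264) (.e (nat_lit 1221) (nat_lit 90) (.e (nat_lit 81956) (nat_lit 23) (.e (nat_lit 98319) (nat_lit 17) (.e (nat_lit 7936) (nat_lit 220) (.e (nat_lit 720956) (nat_lit 25) .nil))))))) (.g (nat_lit 4) .nil .nil))))) (.nd (nat_lit 4) (.nd (nat_lit 5) 
(.lf (nat_lit 236685) (.g (nat_lit 2474) (.e (nat_lit 114711) (nat_lit 21) (.e (nat_lit 57854) (nat_lit 252) (.e (nat_lit 57436) (nat_lit 17) (.e (nat_lit 376842) (nat_lit 11) (.e (nat_lit 426190) (nat_lit 9) (.e (nat_lit 426446) (nat_lit 20) .nil)))))) (.g (nat_lit 4) .nil .nil))) 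
(.lf (nat_lit 236717) (.g (nat_lit 2107) (.e (nat_lit 114711) (nat_lit 21) (.e (nat_lit 57872) (nat_lit 264) (.e (nat_lit 1219) (nat_lit 90) (.e (nat_lit 81956) (nat_lit 23) (.e (nat_lit 98321) (nat_lit 17) (.e (nat_lit 7936) (nat_lit 220) (.e (nat_lit 720955) (nat_lit 25) .nil))))))) (.g (nat_lit 4) .nil .nil)))) (.nd (nat_lit 5) 
(.lf (nat_lit 236701) (.g (nat_lit 1981) (.e (nat_lit 114711) (nat_lit 21) (.e (nat_lit 57870) (nat_lit 264) (.e (nat_lit 1221) (nat_lit 90) (.e (nat_lit 81954) (nat_lit 23) (.e (nat_lit 98321) (nat_lit 17) (.e (nat_lit 7936) (nat_lit 220) (.e (nat_lit 720955) (nat_lit 25) .nil))))))) (.g (nat_lit 4) .nil .nil))) 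
(.lf (nat_lit 236733) (.g (nat_lit 3632) (.e (nat_lit 114711) (nat_lit 21) (.e (nat_lit 57872) (nat_lit 264) (.e (nat_lit 1221) (nat_lit 90) (.e (nat_lit 81956) (nat_lit 23) (.e (nat_lit 98346) (nat_lit 22) (.e (nat_lit 253961) (nat_lit 9) (.e (nat_lit 1277) (nat_lit 94) .nil))))))) (.g (nat_lit 4) .nil .nil))))))) (.nd (nat_lit 2) (.nd (nat_lit 3) (.nd (nat_lit 4) (.nd (nat_lit 5) 
(.lf (nat_lit 236675) (.g (nat_lit 2462) (.e (nat_lit 114711) (nat_lit 21) (.e (nat_lit 57854) (nat_lit 252) (.e (nat_lit 57423) (nat_lit 14) (.e (nat_lit 352277) (nat_lit 11) (.e (nat_lit 426190) (nat_lit 9) .nil))))) .nil)) 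
(.lf (nat_lit 236707) (.g (nat_lit 4484) (.e (nat_lit 114711) (nat_lit 21) (.e (nat_lit 57872) (nat_lit 264) (.e (nat_lit 1190) (nat_lit 88) (.e (nat_lit 65619) (nat_lit 10) (.e (nat_lit 344129) (nat_lit 26) (.e (nat_lit 557084) (nat_lit 10) (.e (nat_lit 8361) (nat_lit 89) (.e (nat_lit 720956) (nat_lit 25) .nil)))))))) (.g (nat_lit 6) .nil .nil)))) (.nd (nat_lit 5) 
(.lf (nat_lit 236691) (.g (nat_lit 2537) (.e (nat_lit 114711) (nat_lit 21) (.e (nat_lit 57870) (nat_lit 264) (.e (nat_lit 1199) (nat_lit 88) (.e (nat_lit 65610) (nat_lit 10) (.e (nat_lit 344117) (nat_lit 21) (.e (nat_lit 516099) (nat_lit 0) (.e (nat_lit 7936) (nat_lit 220) (.e (nat_lit 720955) (nat_lit 25) .nil)))))))) (.g (nat_lit 5) .nil .nil))) 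
(.lf (nat_lit 236723) (.g (nat_lit 2969) (.e (nat_lit 114711) (nat_lit 21) (.e (nat_lit 57872) (nat_lit 264) (.e (nat_lit 1221) (nat_lit 90) (.e (nat_lit 81954) (nat_lit 23) (.e (nat_lit 98321) (nat_lit 17) (.e (nat_lit 7936) (nat_lit 220) (.e (nat_lit 720955) (nat_lit 25) .nil))))))) (.g (nat_lit 5) .nil .nil))))) (.nd (nat_lit 4) (.nd (nat_lit 5) 
(.lf (nat_lit 236683) (.g (nat_lit 2522) (.e (nat_lit 114711) (nat_lit 21) (.e (nat_lit 57854) (nat_lit 252) (.e (nat_lit 57436) (nat_lit 17) (.e (nat_lit 376842) (nat_lit 11) (.e (nat_lit 426187) (nat_lit 9) (.e (nat_lit 426446) (nat_lit 20) .nil)))))) (.g (nat_lit 4) .nil .nil))) 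
(.lf (nat_lit 236715) (.g (nat_lit 2025) (.e (nat_lit 114711) (nat_lit 21) (.e (nat_lit 57872) (nat_lit 264) (.e (nat_lit 1219) (nat_lit 90) (.e (nat_lit 81954) (nat_lit 23) (.e (nat_lit 98346) (nat_lit 22) .nil))))) .nil))) (.nd (nat_lit 5) 
(.lf (nat_lit 236699) (.g (nat_lit 3447) (.e (nat_lit 114711) (nat_lit 21) (.e (nat_lit 57870) (nat_lit 264) (.e (nat_lit 1220) (nat_lit 90) (.e (nat_lit 81956) (nat_lit 23) (.e (nat_lit 98346) (nat_lit 22) (.e (nat_lit 253959) (nat_lit 9) (.e (nat_lit 1281) (nat_lit 94) .nil))))))) (.g (nat_lit 4) .nil .nil))) 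
(.lf (nat_lit 236731) (.g (nat_lit 3277) (.e (nat_lit 114711) (nat_lit 21) (.e (nat_lit 57872) (nat_lit 264) (.e (nat_lit 1221) (nat_lit 90) (.e (nat_lit 81956) (nat_lit 23) (.e (nat_lit 98346) (nat_lit 22) .nil))))) .nil))))) (.nd (nat_lit 3) (.nd (nat_lit 4) (.nd (nat_lit 5) 
(.lf (nat_lit 236679) (.g (nat_lit 2325) (.e (nat_lit 114711) (nat_lit 21) (.e (nat_lit 57854) (nat_lit 252) (.e (nat_lit 57435) (nat_lit 17) (.e (nat_lit 376842) (nat_lit 11) (.e (nat_lit 426189) (nat_lit 9) .nil))))) .nil)) 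
(.lf (nat_lit 236711) (.g (nat_lit 3544) (.e (nat_lit 114711) (nat_lit 21) (.e (nat_lit 57872) (nat_lit 264) (.e (nat_lit 1199) (nat_lit 88) (.e (nat_lit 65610) (nat_lit 10) (.e (nat_lit 344129) (nat_lit 26) (.e (nat_lit 557084) (nat_lit 10) (.e (nat_lit 8363) (nat_lit 89) (.e (nat_lit 720956) (nat_lit 25) .nil)))))))) (.g (nat_lit 6) .nil .nil)))) (.nd (nat_lit 5) 
(.lf (nat_lit 236695) (.g (nat_lit 2977) (.e (nat_lit 114711) (nat_lit 21) (.e (nat_lit 57870) (nat_lit 264) (.e (nat_lit 1219) (nat_lit 90) (.e (nat_lit 81956) (nat_lit 23) (.e (nat_lit 98320) (nat_lit 17) .nil))))) .nil)) 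
(.lf (nat_lit 236727) (.g (nat_lit 2599) (.e (nat_lit 114711) (nat_lit 21) (.e (nat_lit 57872) (nat_lit 264) (.e (nat_lit 1221) (nat_lit 90) (.e (nat_lit 81956) (nat_lit 23) (.e (nat_lit 98325) (nat_lit 17) .nil))))) .nil)))) (.nd (nat_lit 4) (.nd (nat_lit 5) 
(.lf (nat_lit 236687) (.g (nat_lit 2425) (.e (nat_lit 114711) (nat_lit 21) (.e (nat_lit 57855) (nat_lit 253) (.e (nat_lit 122919) (nat_lit 15) (.e (nat_lit 360451) (nat_lit 0) (.e (nat_lit 6923) (nat_lit 371) (.e (nat_lit 2628) (nat_lit 164) (.e (nat_lit 179968) (nat_lit 20) .nil))))))) (.g (nat_lit 5) .nil .nil))) 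
(.lf (nat_lit 236719) (.g (nat_lit 2576) (.e (nat_lit 114711) (nat_lit 21) (.e (nat_lit 57872) (nat_lit 264) (.e (nat_lit 1221) (nat_lit 90) (.e (nat_lit 81953) (nat_lit 22) (.e (nat_lit 90133) (nat_lit 9) (.e (nat_lit 2744) (nat_lit 174) (.e (nat_lit 253975) (nat_lit 9) (.e (nat_lit 1281) (nat_lit 94) .nil)))))))) (.g (nat_lit 4) .nil .nil)))) (.nd (nat_lit 5) 
(.lf (nat_lit 236703) (.g (nat_lit 4896) (.e (nat_lit 114711) (nat_lit 21) (.e (nat_lit 57870) (nat_lit 264) (.e (nat_lit 1221) (nat_lit 90) (.e (nat_lit 81956) (nat_lit 23) (.e (nat_lit 98320) (nat_lit 17) (.e (nat_lit 3555) (nat_lit 220) (.e (nat_lit 720956) (nat_lit 25) .nil))))))) (.g (nat_lit 5) .nil .nil))) 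
(.lf (nat_lit 236735) (.g (nat_lit 1096) (.e (nat_lit 114711) (nat_lit 21) (.e (nat_lit 57872) (nat_lit 264) (.e (nat_lit 1221) (nat_lit 90) (.e (nat_lit 81962) (nat_lit 25) .nil)))) .nil))))))))

noncomputable def tv3087 : DT := (.nd (nat_lit 0) (.nd (nat_lit 1) (.nd (nat_lit 2) (.nd (nat_lit 3) (.nd (nat_lit 4) (.nd (nat_lit 5) 
(.lf (nat_lit 236736) (.g (nat_lit 1581) (.e (nat_lit 114711) (nat_lit 21) (.e (nat_lit 57873) (nat_lit 264) (.e (nat_lit 1221) (nat_lit 90) (.e (nat_lit 81956) (nat_lit 23) .nil)))) .nil)) 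
(.lf (nat_lit 236768) (.g (nat_lit 2173) (.e (nat_lit 114712) (nat_lit 21) (.e (nat_lit 57830) (nat_lit 250) (.e (nat_lit 1214) (nat_lit 89) (.e (nat_lit 73746) (nat_lit 3) (.e (nat_lit 516131) (nat_lit 3) (.e (nat_lit 221219) (nat_lit 24) (.e (nat_lit 213000) (nat_lit 9) (.e (nat_lit 124) (nat_lit 5) .nil)))))))) (.g (nat_lit 5) .nil .nil)))) (.nd (nat_lit 5) 
(.lf (nat_lit 236752) (.g (nat_lit 1732) (.e (nat_lit 114712) (nat_lit 21) (.e (nat_lit 57830) (nat_lit 250) (.e (nat_lit 1201) (nat_lit 88) (.e (nat_lit 65626) (nat_lit 13) (.e (nat_lit 393270) (nat_lit 23) .nil))))) .nil)) 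
(.lf (nat_lit 236784) (.g (nat_lit 1417) (.e (nat_lit 114712) (nat_lit 21) (.e (nat_lit 57830) (nat_lit 250) (.e (nat_lit 1296) (nat_lit 96) (.e (nat_lit 131105) (nat_lit 9) (.e (nat_lit 336444) (nat_lit 32) (.e (nat_lit 474880) (nat_lit 5) .nil)))))) (.g (nat_lit 5) .nil .nil))))) (.nd (nat_lit 4) (.nd (nat_lit 5) 
(.lf (nat_lit 236744) (.g (nat_lit 404) (.e (nat_lit 114712) (nat_lit 21) (.e (nat_lit 57692) (nat_lit 156) (.e (nat_lit 171776) (nat_lit 65) .nil))) .nil)) 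
(.lf (nat_lit 236776) (.g (nat_lit 1309) (.e (nat_lit 114712) (nat_lit 21) (.e (nat_lit 57830) (nat_lit 250) (.e (nat_lit 1222) (nat_lit 90) (.e (nat_lit 81927) (nat_lit 11) (.e (nat_lit 426213) (nat_lit 9) (.e (nat_lit 433920) (nat_lit 20) .nil)))))) (.g (nat_lit 5) .nil .nil)))) (.nd (nat_lit 5) 
(.lf (nat_lit 236760) (.g (nat_lit 1681) (.e (nat_lit 114712) (nat_lit 21) (.e (nat_lit 57830) (nat_lit 250) (.e (nat_lit 1214) (nat_lit 89) (.e (nat_lit 73746) (nat_lit 3) (.e (nat_lit 516129) (nat_lit 3) (.e (nat_lit 221217) (nat_lit 24) (.e (nat_lit 213004) (nat_lit 9) (.e (nat_lit 122) (nat_lit 5) .nil)))))))) (.g (nat_lit 4) .nil .nil))) 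
(.lf (nat_lit 236792) (.g (nat_lit 1321) (.e (nat_lit 114712) (nat_lit 21) (.e (nat_lit 57830) (nat_lit 250) (.e (nat_lit 1296) (nat_lit 96) (.e (nat_lit 131109) (nat_lit 9) (.e (nat_lit 336427) (nat_lit 29) (.e (nat_lit 450304) (nat_lit 5) .nil)))))) (.g (nat_lit 4) .nil .nil)))))) (.nd (nat_lit 3) (.nd (nat_lit 4) (.nd (nat_lit 5) 
(.lf (nat_lit 236740) (.g (nat_lit 3862) (.e (nat_lit 114712) (nat_lit 21) (.e (nat_lit 57680) (nat_lit 155) (.e (nat_lit 122906) (nat_lit 12) (.e (nat_lit 336226) (nat_lit 14) (.e (nat_lit 401454) (nat_lit 12) (.e (nat_lit 475213) (nat_lit 42) (.e (nat_lit 720956) (nat_lit 25) .nil))))))) (.g (nat_lit 5) .nil .nil))) 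
(.lf (nat_lit 236772) (.g (nat_lit 1071) (.e (nat_lit 114712) (nat_lit 21) (.e (nat_lit 57830) (nat_lit 250) (.e (nat_lit 1214) (nat_lit 89) (.e (nat_lit 73754) (nat_lit 8) .nil)))) .nil))) (.nd (nat_lit 5) 
(.lf (nat_lit 236756) (.g (nat_lit 2080) (.e (nat_lit 114712) (nat_lit 21) (.e (nat_lit 57830) (nat_lit 250) (.e (nat_lit 1201) (nat_lit 88) (.e (nat_lit 65627) (nat_lit 13) (.e (nat_lit 393274) (nat_lit 23) (.e (nat_lit 433920) (nat_lit 20) .nil)))))) (.g (nat_lit 5) .nil .nil))) 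
(.lf (nat_lit 236788) (.g (nat_lit 968) (.e (nat_lit 114712) (nat_lit 21) (.e (nat_lit 57830) (nat_lit 250) (.e (nat_lit 1296) (nat_lit 96) (.e (nat_lit 131108) (nat_lit 9) .nil)))) .nil)))) (.nd (nat_lit 4) (.nd (nat_lit 5) 
(.lf (nat_lit 236748) (.g (nat_lit 1770) (.e (nat_lit 114712) (nat_lit 21) (.e (nat_lit 57830) (nat_lit 250) (.e (nat_lit 1201) (nat_lit 88) (.e (nat_lit 65589) (nat_lit 9) (.e (nat_lit 336428) (nat_lit 29) (.e (nat_lit 450304) (nat_lit 5) .nil)))))) (.g (nat_lit 4) .nil .nil))) 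
(.lf (nat_lit 236780) (.g (nat_lit 1475) (.e (nat_lit 114712) (nat_lit 21) (.e (nat_lit 57830) (nat_lit 250) (.e (nat_lit 1224) (nat_lit 90) (.e (nat_lit 81925) (nat_lit 11) (.e (nat_lit 426213) (nat_lit 9) (.e (nat_lit 433920) (nat_lit 20) .nil)))))) (.g (nat_lit 5) .nil .nil)))) (.nd (nat_lit 5) 
(.lf (nat_lit 236764) (.g (nat_lit 1781) (.e (nat_lit 114712) (nat_lit 21) (.e (nat_lit 57830) (nat_lit 250) (.e (nat_lit 1214) (nat_lit 89) (.e (nat_lit 73746) (nat_lit 3) (.e (nat_lit 516131) (nat_lit 3) (.e (nat_lit 221218) (nat_lit 24) (.e (nat_lit 213003) (nat_lit 9) (.e (nat_lit 124) (nat_lit 5) .nil)))))))) (.g (nat_lit 4) .nil .nil))) 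
(.lf (nat_lit 236796) (.g (nat_lit 1403) (.e (nat_lit 114712) (nat_lit 21) (.e (nat_lit 57830) (nat_lit 250) (.e (nat_lit 1296) (nat_lit 96) (.e (nat_lit 131125) (nat_lit 13) (.e (nat_lit 393281) (nat_lit 23) (.e (nat_lit 433920) (nat_lit 20) .nil)))))) (.g (nat_lit 5) .nil .nil))))))) (.nd (nat_lit 2) (.nd (nat_lit 3) (.nd (nat_lit 4) (.nd (nat_lit 5) 
(.lf (nat_lit 236738) (.g (nat_lit 2981) (.e (nat_lit 114711) (nat_lit 21) (.e (nat_lit 57931) (nat_lit 282) (.e (nat_lit 164084) (nat_lit 73) (.e (nat_lit 336021) (nat_lit 3) (.e (nat_lit 98313) (nat_lit 9) (.e (nat_lit 335996) (nat_lit 1) (.e (nat_lit 57854) (nat_lit 252) (.e (nat_lit 57389) (nat_lit 5) .nil)))))))) (.g (nat_lit 4) .nil .nil))) 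
(.lf (nat_lit 236770) (.g (nat_lit 1657) (.e (nat_lit 114712) (nat_lit 21) (.e (nat_lit 57830) (nat_lit 250) (.e (nat_lit 1214) (nat_lit 89) (.e (nat_lit 73746) (nat_lit 3) (.e (nat_lit 516131) (nat_lit 3) (.e (nat_lit 221219) (nat_lit 24) (.e (nat_lit 213004) (nat_lit 9) (.e (nat_lit 124) (nat_lit 5) .nil)))))))) (.g (nat_lit 4) .nil .nil)))) (.nd (nat_lit 5) 
(.lf (nat_lit 236754) (.g (nat_lit 850) (.e (nat_lit 114712) (nat_lit 21) (.e (nat_lit 57830) (nat_lit 250) (.e (nat_lit 1201) (nat_lit 88) (.e (nat_lit 65627) (nat_lit 13) .nil)))) .nil)) 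
(.lf (nat_lit 236786) (.g (nat_lit 1832) (.e (nat_lit 114712) (nat_lit 21) (.e (nat_lit 57830) (nat_lit 250) (.e (nat_lit 1296) (nat_lit 96) (.e (nat_lit 131107) (nat_lit 9) (.e (nat_lit 336430) (nat_lit 29) (.e (nat_lit 450304) (nat_lit 5) .nil)))))) (.g (nat_lit 5) .nil .nil))))) (.nd (nat_lit 4) (.nd (nat_lit 5) 
(.lf (nat_lit 236746) (.g (nat_lit 714) (.e (nat_lit 114712) (nat_lit 21) (.e (nat_lit 57829) (nat_lit 250) (.e (nat_lit 1222) (nat_lit 90) (.e (nat_lit 81927) (nat_lit 11) (.e (nat_lit 426190) (nat_lit 9) .nil))))) .nil)) 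
(.lf (nat_lit 236778) (.g (nat_lit 1187) (.e (nat_lit 114712) (nat_lit 21) (.e (nat_lit 57830) (nat_lit 250) (.e (nat_lit 1224) (nat_lit 90) (.e (nat_lit 81925) (nat_lit 11) (.e (nat_lit 426186) (nat_lit 9) .nil))))) .nil))) (.nd (nat_lit 5) 
(.lf (nat_lit 236762) (.g (nat_lit 1598) (.e (nat_lit 114712) (nat_lit 21) (.e (nat_lit 57830) (nat_lit 250) (.e (nat_lit 1214) (nat_lit 89) (.e (nat_lit 73746) (nat_lit 3) (.e (nat_lit 516131) (nat_lit 3) (.e (nat_lit 221218) (nat_lit 24) (.e (nat_lit 213001) (nat_lit 9) (.e (nat_lit 124) (nat_lit 5) .nil)))))))) (.g (nat_lit 4) .nil .nil))) 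
(.lf (nat_lit 236794) (.g (nat_lit 2013) (.e (nat_lit 114712) (nat_lit 21) (.e (nat_lit 57830) (nat_lit 250) (.e (nat_lit 1296) (nat_lit 96) (.e (nat_lit 131109) (nat_lit 9) (.e (nat_lit 336443) (nat_lit 32) (.e (nat_lit 474880) (nat_lit 5) .nil)))))) (.g (nat_lit 5) .nil .nil)))))) (.nd (nat_lit 3) (.nd (nat_lit 4) (.nd (nat_lit 5) 
(.lf (nat_lit 236742) (.g (nat_lit 1935) (.e (nat_lit 114712) (nat_lit 21) (.e (nat_lit 57691) (nat_lit 156) (.e (nat_lit 163869) (nat_lit 2) (.e (nat_lit 196683) (nat_lit 18) (.e (nat_lit 1348) (nat_lit 102) .nil))))) .nil)) 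
(.lf (nat_lit 236774) (.g (nat_lit 1280) (.e (nat_lit 114712) (nat_lit 21) (.e (nat_lit 57830) (nat_lit 250) (.e (nat_lit 1222) (nat_lit 90) (.e (nat_lit 81925) (nat_lit 11) .nil)))) .nil))) (.nd (nat_lit 5) 
(.lf (nat_lit 236758) (.g (nat_lit 1220) (.e (nat_lit 114712) (nat_lit 21) (.e (nat_lit 57830) (nat_lit 250) (.e (nat_lit 1212) (nat_lit 89) (.e (nat_lit 73753) (nat_lit 8) .nil)))) .nil)) 
(.lf (nat_lit 236790) (.g (nat_lit 1237) (.e (nat_lit 114712) (nat_lit 21) (.e (nat_lit 57830) (nat_lit 250) (.e (nat_lit 1296) (nat_lit 96) (.e (nat_lit 131108) (nat_lit 9) (.e (nat_lit 336444) (nat_lit 32) (.e (nat_lit 474880) (nat_lit 5) .nil)))))) (.g (nat_lit 4) .nil .nil))))) (.nd (nat_lit 4) (.nd (nat_lit 5) 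
(.lf (nat_lit 236750) (.g (nat_lit 1754) (.e (nat_lit 114712) (nat_lit 21) (.e (nat_lit 57830) (nat_lit 250) (.e (nat_lit 1201) (nat_lit 88) (.e (nat_lit 65599) (nat_lit 9) (.e (nat_lit 343808) (nat_lit 29) .nil))))) .nil)) 
(.lf (nat_lit 236782) (.g (nat_lit 266) (.e (nat_lit 114712) (nat_lit 21) (.e (nat_lit 57830) (nat_lit 250) (.e (nat_lit 1296) (nat_lit 96) .nil))) .nil))) (.nd (nat_lit 5) 
(.lf (nat_lit 236766) (.g (nat_lit 1773) (.e (nat_lit 114712) (nat_lit 21) (.e (nat_lit 57830) (nat_lit 250) (.e (nat_lit 1214) (nat_lit 89) (.e (nat_lit 73746) (nat_lit 3) (.e (nat_lit 516131) (nat_lit 3) (.e (nat_lit 221218) (nat_lit 24) (.e (nat_lit 213007) (nat_lit 9) (.e (nat_lit 124) (nat_lit 5) .nil)))))))) (.g (nat_lit 4) .nil .nil))) 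
(.lf (nat_lit 236798) (.g (nat_lit 1857) (.e (nat_lit 114712) (nat_lit 21) (.e (nat_lit 57830) (nat_lit 250) (.e (nat_lit 1296) (nat_lit 96) (.e (nat_lit 131126) (nat_lit 13) (.e (nat_lit 393274) (nat_lit 23) (.e (nat_lit 433920) (nat_lit 20) .nil)))))) (.g (nat_lit 5) .nil .nil)))))))) (.nd (nat_lit 1) (.nd (nat_lit 2) (.nd (nat_lit 3) (.nd (nat_lit 4) (.nd (nat_lit 5) 
(.lf (nat_lit 236737) (.g (nat_lit 758) (.e (nat_lit 114711) (nat_lit 21) (.e (nat_lit 57931) (nat_lit 282) (.e (nat_lit 164084) (nat_lit 73) .nil))) .nil)) 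
(.lf (nat_lit 236769) (.g (nat_lit 1860) (.e (nat_lit 114712) (nat_lit 21) (.e (nat_lit 57830) (nat_lit 250) (.e (nat_lit 1214) (nat_lit 89) (.e (nat_lit 73746) (nat_lit 3) (.e (nat_lit 516131) (nat_lit 3) (.e (nat_lit 221219) (nat_lit 24) (.e (nat_lit 213001) (nat_lit 9) (.e (nat_lit 122) (nat_lit 5) .nil)))))))) (.g (nat_lit 4) .nil .nil)))) (.nd (nat_lit 5) 
(.lf (nat_lit 236753) (.g (nat_lit 2652) (.e (nat_lit 114712) (nat_lit 21) (.e (nat_lit 57830) (nat_lit 250) (.e (nat_lit 1201) (nat_lit 88) (.e (nat_lit 65626) (nat_lit 13) (.e (nat_lit 393274) (nat_lit 23) (.e (nat_lit 433920) (nat_lit 20) .nil)))))) (.g (nat_lit 5) .nil .nil))) 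
(.lf (nat_lit 236785) (.g (nat_lit 1229) (.e (nat_lit 114712) (nat_lit 21) (.e (nat_lit 57830) (nat_lit 250) (.e (nat_lit 1296) (nat_lit 96) (.e (nat_lit 131107) (nat_lit 9) (.e (nat_lit 336428) (nat_lit 29) (.e (nat_lit 450304) (nat_lit 5) .nil)))))) (.g (nat_lit 4) .nil .nil))))) (.nd (nat_lit 4) (.nd (nat_lit 5) 
(.lf (nat_lit 236745) (.g (nat_lit 3493) (.e (nat_lit 114712) (nat_lit 21) (.e (nat_lit 57692) (nat_lit 156) (.e (nat_lit 171776) (nat_lit 65) (.e (nat_lit 106536) (nat_lit 11) (.e (nat_lit 16461) (nat_lit 12) (.e (nat_lit 475214) (nat_lit 42) (.e (nat_lit 720955) (nat_lit 25) .nil))))))) (.g (nat_lit 6) .nil .nil))) 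
(.lf (nat_lit 236777) (.g (nat_lit 1029) (.e (nat_lit 114712) (nat_lit 21) (.e (nat_lit 57830) (nat_lit 250) (.e (nat_lit 1222) (nat_lit 90) (.e (nat_lit 81927) (nat_lit 11) (.e (nat_lit 426258) (nat_lit 9) .nil))))) .nil))) (.nd (nat_lit 5) 
(.lf (nat_lit 236761) (.g (nat_lit 2230) (.e (nat_lit 114712) (nat_lit 21) (.e (nat_lit 57830) (nat_lit 250) (.e (nat_lit 1214) (nat_lit 89) (.e (nat_lit 73746) (nat_lit 3) (.e (nat_lit 516129) (nat_lit 3) (.e (nat_lit 221217) (nat_lit 24) (.e (nat_lit 213004) (nat_lit 9) (.e (nat_lit 124) (nat_lit 5) .nil)))))))) (.g (nat_lit 5) .nil .nil))) 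
(.lf (nat_lit 236793) (.g (nat_lit 2002) (.e (nat_lit 114712) (nat_lit 21) (.e (nat_lit 57830) (nat_lit 250) (.e (nat_lit 1296) (nat_lit 96) (.e (nat_lit 131109) (nat_lit 9) (.e (nat_lit 336430) (nat_lit 29) (.e (nat_lit 450304) (nat_lit 5) .nil)))))) (.g (nat_lit 5) .nil .nil)))))) (.nd (nat_lit 3) (.nd (nat_lit 4) (.nd (nat_lit 5) 
(.lf (nat_lit 236741) (.g (nat_lit 1475) (.e (nat_lit 114712) (nat_lit 21) (.e (nat_lit 57689) (nat_lit 156) (.e (nat_lit 163871) (nat_lit 2) (.e (nat_lit 196691) (nat_lit 18) (.e (nat_lit 1348) (nat_lit 102) .nil))))) .nil)) 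
(.lf (nat_lit 236773) (.g (nat_lit 1495) (.e (nat_lit 114712) (nat_lit 21) (.e (nat_lit 57830) (nat_lit 250) (.e (nat_lit 1214) (nat_lit 89) (.e (nat_lit 73754) (nat_lit 8) (.e (nat_lit 557105) (nat_lit 14) .nil))))) .nil))) (.nd (nat_lit 5) 
(.lf (nat_lit 236757) (.g (nat_lit 1525) (.e (nat_lit 114712) (nat_lit 21) (.e (nat_lit 57830) (nat_lit 250) (.e (nat_lit 1201) (nat_lit 88) (.e (nat_lit 65627) (nat_lit 13) (.e (nat_lit 393275) (nat_lit 23) (.e (nat_lit 433920) (nat_lit 20) .nil)))))) (.g (nat_lit 4) .nil .nil))) 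
(.lf (nat_lit 236789) (.g (nat_lit 1020) (.e (nat_lit 114712) (nat_lit 21) (.e (nat_lit 57830) (nat_lit 250) (.e (nat_lit 1296) (nat_lit 96) (.e (nat_lit 131108) (nat_lit 9) (.e (nat_lit 336427) (nat_lit 29) .nil))))) .nil)))) (.nd (nat_lit 4) (.nd (nat_lit 5) 
(.lf (nat_lit 236749) (.g (nat_lit 1786) (.e (nat_lit 114712) (nat_lit 21) (.e (nat_lit 57830) (nat_lit 250) (.e (nat_lit 1201) (nat_lit 88) (.e (nat_lit 65599) (nat_lit 9) (.e (nat_lit 336417) (nat_lit 27) .nil))))) .nil)) 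
(.lf (nat_lit 236781) (.g (nat_lit 405) (.e (nat_lit 114712) (nat_lit 21) (.e (nat_lit 57830) (nat_lit 250) (.e (nat_lit 7936) (nat_lit 90) .nil))) .nil))) (.nd (nat_lit 5) 
(.lf (nat_lit 236765) (.g (nat_lit 1674) (.e (nat_lit 114712) (nat_lit 21) (.e (nat_lit 57830) (nat_lit 250) (.e (nat_lit 1214) (nat_lit 89) (.e (nat_lit 73746) (nat_lit 3) (.e (nat_lit 516131) (nat_lit 3) (.e (nat_lit 221218) (nat_lit 24) (.e (nat_lit 213007) (nat_lit 9) (.e (nat_lit 122) (nat_lit 5) .nil)))))))) (.g (nat_lit 4) .nil .nil))) 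
(.lf (nat_lit 236797) (.g (nat_lit 927) (.e (nat_lit 114712) (nat_lit 21) (.e (nat_lit 57830) (nat_lit 250) (.e (nat_lit 1296) (nat_lit 96) (.e (nat_lit 131126) (nat_lit 13) .nil)))) .nil)))))) (.nd (nat_lit 2) (.nd (nat_lit 3) (.nd (nat_lit 4) (.nd (nat_lit 5) 
(.lf (nat_lit 236739) (.g (nat_lit 959) (.e (nat_lit 114712) (nat_lit 21) (.e (nat_lit 57640) (nat_lit 140) (.e (nat_lit 2619) (nat_lit 164) (.e (nat_lit 179968) (nat_lit 18) .nil)))) .nil)) 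
(.lf (nat_lit 236771) (.g (nat_lit 967) (.e (nat_lit 114712) (nat_lit 21) (.e (nat_lit 57830) (nat_lit 250) (.e (nat_lit 1214) (nat_lit 89) (.e (nat_lit 73753) (nat_lit 8) .nil)))) .nil))) (.nd (nat_lit 5) 
(.lf (nat_lit 236755) (.g (nat_lit 2015) (.e (nat_lit 114712) (nat_lit 21) (.e (nat_lit 57830) (nat_lit 250) (.e (nat_lit 1201) (nat_lit 88) (.e (nat_lit 65627) (nat_lit 13) (.e (nat_lit 393267) (nat_lit 23) (.e (nat_lit 426446) (nat_lit 20) .nil)))))) (.g (nat_lit 5) .nil .nil))) 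
(.lf (nat_lit 236787) (.g (nat_lit 1723) (.e (nat_lit 114712) (nat_lit 21) (.e (nat_lit 57830) (nat_lit 250) (.e (nat_lit 1296) (nat_lit 96) (.e (nat_lit 131107) (nat_lit 9) (.e (nat_lit 336443) (nat_lit 32) (.e (nat_lit 474880) (nat_lit 5) .nil)))))) (.g (nat_lit 5) .nil .nil))))) (.nd (nat_lit 4) (.nd (nat_lit 5) 
(.lf (nat_lit 236747) (.g (nat_lit 2132) (.e (nat_lit 114712) (nat_lit 21) (.e (nat_lit 57830) (nat_lit 250) (.e (nat_lit 1201) (nat_lit 88) (.e (nat_lit 65589) (nat_lit 9) (.e (nat_lit 336427) (nat_lit 29) (.e (nat_lit 450304) (nat_lit 5) .nil)))))) (.g (nat_lit 5) .nil .nil))) 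
(.lf (nat_lit 236779) (.g (nat_lit 1559) (.e (nat_lit 114712) (nat_lit 21) (.e (nat_lit 57830) (nat_lit 250) (.e (nat_lit 1224) (nat_lit 90) (.e (nat_lit 81925) (nat_lit 11) (.e (nat_lit 426204) (nat_lit 9) (.e (nat_lit 433920) (nat_lit 20) .nil)))))) (.g (nat_lit 5) .nil .nil)))) (.nd (nat_lit 5) 
(.lf (nat_lit 236763) (.g (nat_lit 1649) (.e (nat_lit 114712) (nat_lit 21) (.e (nat_lit 57830) (nat_lit 250) (.e (nat_lit 1214) (nat_lit 89) (.e (nat_lit 73746) (nat_lit 3) (.e (nat_lit 516131) (nat_lit 3) (.e (nat_lit 221218) (nat_lit 24) (.e (nat_lit 213003) (nat_lit 9) (.e (nat_lit 122) (nat_lit 5) .nil)))))))) (.g (nat_lit 4) .nil .nil))) 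
(.lf (nat_lit 236795) (.g (nat_lit 1703) (.e (nat_lit 114712) (nat_lit 21) (.e (nat_lit 57830) (nat_lit 250) (.e (nat_lit 1296) (nat_lit 96) (.e (nat_lit 131109) (nat_lit 9) (.e (nat_lit 336444) (nat_lit 32) (.e (nat_lit 474880) (nat_lit 5) .nil)))))) (.g (nat_lit 5) .nil .nil)))))) (.nd (nat_lit 3) (.nd (nat_lit 4) (.nd (nat_lit 5) 
(.lf (nat_lit 236743) (.g (nat_lit 404) (.e (nat_lit 114712) (nat_lit 21) (.e (nat_lit 57692) (nat_lit 156) (.e (nat_lit 171776) (nat_lit 63) .nil))) .nil)) 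
(.lf (nat_lit 236775) (.g (nat_lit 1393) (.e (nat_lit 114712) (nat_lit 21) (.e (nat_lit 57830) (nat_lit 250) (.e (nat_lit 1222) (nat_lit 90) (.e (nat_lit 81927) (nat_lit 11) (.e (nat_lit 426204) (nat_lit 9) (.e (nat_lit 433920) (nat_lit 20) .nil)))))) (.g (nat_lit 5) .nil .nil)))) (.nd (nat_lit 5) 
(.lf (nat_lit 236759) (.g (nat_lit 2711) (.e (nat_lit 114712) (nat_lit 21) (.e (nat_lit 57830) (nat_lit 250) (.e (nat_lit 1214) (nat_lit 89) (.e (nat_lit 73746) (nat_lit 3) (.e (nat_lit 516129) (nat_lit 3) (.e (nat_lit 229120) (nat_lit 1) (.e (nat_lit 57848) (nat_lit 252) (.e (nat_lit 57390) (nat_lit 5) .nil)))))))) (.g (nat_lit 5) .nil .nil))) 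
(.lf (nat_lit 236791) (.g (nat_lit 1737) (.e (nat_lit 114712) (nat_lit 21) (.e (nat_lit 57830) (nat_lit 250) (.e (nat_lit 1296) (nat_lit 96) (.e (nat_lit 131109) (nat_lit 9) (.e (nat_lit 336426) (nat_lit 29) (.e (nat_lit 450304) (nat_lit 5) .nil)))))) (.g (nat_lit 5) .nil .nil))))) (.nd (nat_lit 4) (.nd (nat_lit 5) 
(.lf (nat_lit 236751) (.g (nat_lit 1644) (.e (nat_lit 114712) (nat_lit 21) (.e (nat_lit 57830) (nat_lit 250) (.e (nat_lit 1201) (nat_lit 88) (.e (nat_lit 65625) (nat_lit 13) (.e (nat_lit 393275) (nat_lit 23) .nil))))) .nil)) 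
(.lf (nat_lit 236783) (.g (nat_lit 1895) (.e (nat_lit 114712) (nat_lit 21) (.e (nat_lit 57830) (nat_lit 250) (.e (nat_lit 1296) (nat_lit 96) (.e (nat_lit 131105) (nat_lit 9) (.e (nat_lit 336443) (nat_lit 32) (.e (nat_lit 474880) (nat_lit 5) .nil)))))) (.g (nat_lit 5) .nil .nil)))) (.nd (nat_lit 5) 
(.lf (nat_lit 236767) (.g (nat_lit 2058) (.e (nat_lit 114712) (nat_lit 21) (.e (nat_lit 57830) (nat_lit 250) (.e (nat_lit 1214) (nat_lit 89) (.e (nat_lit 73746) (nat_lit 3) (.e (nat_lit 516131) (nat_lit 3) (.e (nat_lit 221219) (nat_lit 24) (.e (nat_lit 213000) (nat_lit 9) (.e (nat_lit 122) (nat_lit 5) .nil)))))))) (.g (nat_lit 5) .nil .nil))) 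
(.lf (nat_lit 236799) (.g (nat_lit 1294) (.e (nat_lit 114712) (nat_lit 21) (.e (nat_lit 57830) (nat_lit 250) (.e (nat_lit 1296) (nat_lit 96) (.e (nat_lit 131127) (nat_lit 13) (.e (nat_lit 393266) (nat_lit 23) (.e (nat_lit 433920) (nat_lit 20) .nil)))))) (.g (nat_lit 4) .nil .nil)))))))))

noncomputable def tv3088 : DT := (.nd (nat_lit 0) (.nd (nat_lit 1) (.nd (nat_lit 2) (.nd (nat_lit 3) (.nd (nat_lit 4) (.nd (nat_lit 5) (.nd (nat_lit 6) 
(.lf (nat_lit 236800) (.g (nat_lit 1459) (.e (nat_lit 114712) (nat_lit 21) (.e (nat_lit 57830) (nat_lit 250) (.e (nat_lit 1296) (nat_lit 96) (.e (nat_lit 131127) (nat_lit 13) (.e (nat_lit 393279) (nat_lit 23) (.e (nat_lit 426445) (nat_lit 20) .nil)))))) (.g (nat_lit 4) .nil .nil))) 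
(.lf (nat_lit 236864) (.g (nat_lit 1163) (.e (nat_lit 114712) (nat_lit 21) (.e (nat_lit 57852) (nat_lit 252) (.e (nat_lit 57406) (nat_lit 12) (.e (nat_lit 336114) (nat_lit 9) .nil)))) .nil))) (.nd (nat_lit 6) 
(.lf (nat_lit 236832) (.g (nat_lit 322) (.e (nat_lit 114712) (nat_lit 21) (.e (nat_lit 57851) (nat_lit 252) (.e (nat_lit 57424) (nat_lit 14) .nil))) .nil)) 
(.lf (nat_lit 236896) (.g (nat_lit 1022) (.e (nat_lit 114712) (nat_lit 21) (.e (nat_lit 57852) (nat_lit 252) (.e (nat_lit 57417) (nat_lit 12) (.e (nat_lit 336116) (nat_lit 9) .nil)))) .nil)))) (.nd (nat_lit 5) (.nd (nat_lit 6) 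
(.lf (nat_lit 236816) (.g (nat_lit 1432) (.e (nat_lit 114712) (nat_lit 21) (.e (nat_lit 57851) (nat_lit 252) (.e (nat_lit 57347) (nat_lit 0) (.e (nat_lit 2202) (nat_lit 144) .nil)))) .nil)) 
(.lf (nat_lit 236880) (.g (nat_lit 1370) (.e (nat_lit 114712) (nat_lit 21) (.e (nat_lit 57852) (nat_lit 252) (.e (nat_lit 57409) (nat_lit 12) (.e (nat_lit 336115) (nat_lit 9) (.e (nat_lit 336444) (nat_lit 32) .nil))))) .nil))) (.nd (nat_lit 6) 
(.lf (nat_lit 236848) (.g (nat_lit 1081) (.e (nat_lit 114712) (nat_lit 21) (.e (nat_lit 57851) (nat_lit 252) (.e (nat_lit 57436) (nat_lit 17) (.e (nat_lit 376840) (nat_lit 11) (.e (nat_lit 426230) (nat_lit 9) .nil))))) .nil)) 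
(.lf (nat_lit 236912) (.g (nat_lit 2153) (.e (nat_lit 114712) (nat_lit 21) (.e (nat_lit 57852) (nat_lit 252) (.e (nat_lit 57419) (nat_lit 12) (.e (nat_lit 336076) (nat_lit 9) (.e (nat_lit 336441) (nat_lit 32) (.e (nat_lit 474880) (nat_lit 5) .nil)))))) (.g (nat_lit 5) .nil .nil)))))) (.nd (nat_lit 4) (.nd (nat_lit 5) (.nd (nat_lit 6) 
(.lf (nat_lit 236808) (.g (nat_lit 2429) (.e (nat_lit 114712) (nat_lit 21) (.e (nat_lit 57851) (nat_lit 252) (.e (nat_lit 57347) (nat_lit 0) (.e (nat_lit 2031) (nat_lit 140) (.e (nat_lit 688180) (nat_lit 17) (.e (nat_lit 73753) (nat_lit 8) (.e (nat_lit 557101) (nat_lit 13) (.e (nat_lit 179968) (nat_lit 20) .nil)))))))) (.g (nat_lit 4) .nil .nil))) 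
(.lf (nat_lit 236872) (.g (nat_lit 1867) (.e (nat_lit 114712) (nat_lit 21) (.e (nat_lit 57852) (nat_lit 252) (.e (nat_lit 57406) (nat_lit 12) (.e (nat_lit 336211) (nat_lit 13) (.e (nat_lit 393271) (nat_lit 23) .nil))))) .nil))) (.nd (nat_lit 6) 
(.lf (nat_lit 236840) (.g (nat_lit 2482) (.e (nat_lit 114712) (nat_lit 21) (.e (nat_lit 57851) (nat_lit 252) (.e (nat_lit 57427) (nat_lit 15) (.e (nat_lit 360451) (nat_lit 0) (.e (nat_lit 6923) (nat_lit 371) .nil))))) .nil)) 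
(.lf (nat_lit 236904) (.g (nat_lit 385) (.e (nat_lit 114712) (nat_lit 21) (.e (nat_lit 57852) (nat_lit 252) (.e (nat_lit 57419) (nat_lit 12) .nil))) .nil)))) (.nd (nat_lit 5) (.nd (nat_lit 6) 
(.lf (nat_lit 236824) (.g (nat_lit 1039) (.e (nat_lit 114712) (nat_lit 21) (.e (nat_lit 57851) (nat_lit 252) (.e (nat_lit 57412) (nat_lit 12) (.e (nat_lit 336073) (nat_lit 9) .nil)))) .nil)) 
(.lf (nat_lit 236888) (.g (nat_lit 2219) (.e (nat_lit 114712) (nat_lit 21) (.e (nat_lit 57852) (nat_lit 252) (.e (nat_lit 57409) (nat_lit 12) (.e (nat_lit 336211) (nat_lit 13) (.e (nat_lit 393274) (nat_lit 23) (.e (nat_lit 433920) (nat_lit 20) .nil)))))) (.g (nat_lit 5) .nil .nil)))) (.nd (nat_lit 6) 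
(.lf (nat_lit 236856) (.g (nat_lit 709) (.e (nat_lit 114712) (nat_lit 21) (.e (nat_lit 57851) (nat_lit 252) (.e (nat_lit 57436) (nat_lit 17) (.e (nat_lit 384768) (nat_lit 16) .nil)))) .nil)) 
(.lf (nat_lit 236920) (.g (nat_lit 1354) (.e (nat_lit 114712) (nat_lit 21) (.e (nat_lit 57852) (nat_lit 252) (.e (nat_lit 57419) (nat_lit 12) (.e (nat_lit 336214) (nat_lit 13) (.e (nat_lit 393274) (nat_lit 23) (.e (nat_lit 433920) (nat_lit 20) .nil)))))) (.g (nat_lit 4) .nil .nil))))))) (.nd (nat_lit 3) (.nd (nat_lit 4) (.nd (nat_lit 5) (.nd (nat_lit 6) 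
(.lf (nat_lit 236804) (.g (nat_lit 1016) (.e (nat_lit 114712) (nat_lit 21) (.e (nat_lit 57844) (nat_lit 252) (.e (nat_lit 57436) (nat_lit 17) (.e (nat_lit 376842) (nat_lit 11) .nil)))) .nil)) 
(.lf (nat_lit 236868) (.g (nat_lit 1598) (.e (nat_lit 114712) (nat_lit 21) (.e (nat_lit 57852) (nat_lit 252) (.e (nat_lit 57406) (nat_lit 12) (.e (nat_lit 336120) (nat_lit 9) (.e (nat_lit 336440) (nat_lit 32) (.e (nat_lit 474880) (nat_lit 5) .nil)))))) (.g (nat_lit 4) .nil .nil)))) (.nd (nat_lit 6) 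
(.lf (nat_lit 236836) (.g (nat_lit 1424) (.e (nat_lit 114712) (nat_lit 21) (.e (nat_lit 57851) (nat_lit 252) (.e (nat_lit 57424) (nat_lit 14) (.e (nat_lit 352276) (nat_lit 11) .nil)))) .nil)) 
(.lf (nat_lit 236900) (.g (nat_lit 1869) (.e (nat_lit 114712) (nat_lit 21) (.e (nat_lit 57852) (nat_lit 252) (.e (nat_lit 57417) (nat_lit 12) (.e (nat_lit 336118) (nat_lit 9) (.e (nat_lit 336442) (nat_lit 32) (.e (nat_lit 474880) (nat_lit 5) .nil)))))) (.g (nat_lit 5) .nil .nil))))) (.nd (nat_lit 5) (.nd (nat_lit 6) 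
(.lf (nat_lit 236820) (.g (nat_lit 2241) (.e (nat_lit 114712) (nat_lit 21) (.e (nat_lit 57851) (nat_lit 252) (.e (nat_lit 57347) (nat_lit 0) (.e (nat_lit 2203) (nat_lit 144) (.e (nat_lit 720956) (nat_lit 25) (.e (nat_lit 114716) (nat_lit 22) (.e (nat_lit 90169) (nat_lit 13) (.e (nat_lit 179968) (nat_lit 20) .nil)))))))) (.g (nat_lit 5) .nil .nil))) 
(.lf (nat_lit 236884) (.g (nat_lit 2076) (.e (nat_lit 114712) (nat_lit 21) (.e (nat_lit 57852) (nat_lit 252) (.e (nat_lit 57409) (nat_lit 12) (.e (nat_lit 336211) (nat_lit 13) (.e (nat_lit 393266) (nat_lit 23) (.e (nat_lit 433920) (nat_lit 20) .nil)))))) (.g (nat_lit 5) .nil .nil)))) (.nd (nat_lit 6) 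
(.lf (nat_lit 236852) (.g (nat_lit 1655) (.e (nat_lit 114712) (nat_lit 21) (.e (nat_lit 57851) (nat_lit 252) (.e (nat_lit 57436) (nat_lit 17) (.e (nat_lit 376842) (nat_lit 11) (.e (nat_lit 426197) (nat_lit 9) .nil))))) .nil)) 
(.lf (nat_lit 236916) (.g (nat_lit 2469) (.e (nat_lit 114712) (nat_lit 21) (.e (nat_lit 57852) (nat_lit 252) (.e (nat_lit 57419) (nat_lit 12) (.e (nat_lit 336213) (nat_lit 13) (.e (nat_lit 393279) (nat_lit 23) (.e (nat_lit 426445) (nat_lit 20) .nil)))))) (.g (nat_lit 4) .nil .nil)))))) (.nd (nat_lit 4) (.nd (nat_lit 5) (.nd (nat_lit 6) 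
(.lf (nat_lit 236812) (.g (nat_lit 4757) (.e (nat_lit 114712) (nat_lit 21) (.e (nat_lit 57851) (nat_lit 252) (.e (nat_lit 57347) (nat_lit 0) (.e (nat_lit 2031) (nat_lit 140) (.e (nat_lit 688182) (nat_lit 17) (.e (nat_lit 73755) (nat_lit 8) (.e (nat_lit 557098) (nat_lit 13) (.e (nat_lit 179968) (nat_lit 20) .nil)))))))) (.g (nat_lit 7) .nil .nil))) 
(.lf (nat_lit 236876) (.g (nat_lit 965) (.e (nat_lit 114712) (nat_lit 21) (.e (nat_lit 57852) (nat_lit 252) (.e (nat_lit 57409) (nat_lit 12) (.e (nat_lit 336115) (nat_lit 9) .nil)))) .nil))) (.nd (nat_lit 6) 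
(.lf (nat_lit 236844) (.g (nat_lit 2012) (.e (nat_lit 114712) (nat_lit 21) (.e (nat_lit 57851) (nat_lit 252) (.e (nat_lit 57435) (nat_lit 17) (.e (nat_lit 376842) (nat_lit 11) (.e (nat_lit 426189) (nat_lit 9) .nil))))) .nil)) 
(.lf (nat_lit 236908) (.g (nat_lit 1937) (.e (nat_lit 114712) (nat_lit 21) (.e (nat_lit 57852) (nat_lit 252) (.e (nat_lit 57419) (nat_lit 12) (.e (nat_lit 336075) (nat_lit 9) (.e (nat_lit 336443) (nat_lit 32) (.e (nat_lit 474880) (nat_lit 5) .nil)))))) (.g (nat_lit 5) .nil .nil))))) (.nd (nat_lit 5) (.nd (nat_lit 6) 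
(.lf (nat_lit 236828) (.g (nat_lit 430) (.e (nat_lit 114712) (nat_lit 21) (.e (nat_lit 57851) (nat_lit 252) (.e (nat_lit 57421) (nat_lit 13) .nil))) .nil)) 
(.lf (nat_lit 236892) (.g (nat_lit 1105) (.e (nat_lit 114712) (nat_lit 21) (.e (nat_lit 57852) (nat_lit 252) (.e (nat_lit 57414) (nat_lit 12) (.e (nat_lit 336217) (nat_lit 13) (.e (nat_lit 393270) (nat_lit 23) .nil))))) .nil))) (.nd (nat_lit 6) 
(.lf (nat_lit 236860) (.g (nat_lit 1450) (.e (nat_lit 114712) (nat_lit 21) (.e (nat_lit 57852) (nat_lit 252) (.e (nat_lit 57350) (nat_lit 0) (.e (nat_lit 6113) (nat_lit 332) (.e (nat_lit 2406) (nat_lit 157) (.e (nat_lit 5259) (nat_lit 298) (.e (nat_lit 456) (nat_lit 34) (.e (nat_lit 450304) (nat_lit 5) .nil)))))))) (.g (nat_lit 4) .nil .nil))) 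
(.lf (nat_lit 236924) (.g (nat_lit 2356) (.e (nat_lit 114712) (nat_lit 21) (.e (nat_lit 57852) (nat_lit 252) (.e (nat_lit 57420) (nat_lit 13) (.e (nat_lit 344117) (nat_lit 21) (.e (nat_lit 516130) (nat_lit 3) (.e (nat_lit 229120) (nat_lit 1) (.e (nat_lit 57849) (nat_lit 252) (.e (nat_lit 57388) (nat_lit 5) .nil)))))))) (.g (nat_lit 4) .nil .nil)))))))) 
(.nd (nat_lit 2) (.nd (nat_lit 3) (.nd (nat_lit 4) (.nd (nat_lit 5) (.nd (nat_lit 6) 
(.lf (nat_lit 236802) (.g (nat_lit 1560) (.e (nat_lit 114712) (nat_lit 21) (.e (nat_lit 57830) (nat_lit 250) (.e (nat_lit 1296) (nat_lit 96) (.e (nat_lit 131128) (nat_lit 13) (.e (nat_lit 393281) (nat_lit 23) (.e (nat_lit 433920) (nat_lit 20) .nil)))))) (.g (nat_lit 5) .nil .nil))) 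
(.lf (nat_lit 236866) (.g (nat_lit 1163) (.e (nat_lit 114712) (nat_lit 21) (.e (nat_lit 57852) (nat_lit 252) (.e (nat_lit 57406) (nat_lit 12) (.e (nat_lit 336117) (nat_lit 9) .nil)))) .nil))) (.nd (nat_lit 6) 
(.lf (nat_lit 236834) (.g (nat_lit 2010) (.e (nat_lit 114712) (nat_lit 21) (.e (nat_lit 57851) (nat_lit 252) (.e (nat_lit 57424) (nat_lit 14) (.e (nat_lit 352273) (nat_lit 11) (.e (nat_lit 426187) (nat_lit 9) .nil))))) .nil)) 
(.lf (nat_lit 236898) (.g (nat_lit 2047) (.e (nat_lit 114712) (nat_lit 21) (.e (nat_lit 57852) (nat_lit 252) (.e (nat_lit 57417) (nat_lit 12) (.e (nat_lit 336116) (nat_lit 9) (.e (nat_lit 336442) (nat_lit 32) (.e (nat_lit 474880) (nat_lit 5) .nil)))))) (.g (nat_lit 5) .nil .nil))))) (.nd (nat_lit 5) (.nd (nat_lit 6) 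
(.lf (nat_lit 236818) (.g (nat_lit 1587) (.e (nat_lit 114712) (nat_lit 21) (.e (nat_lit 57851) (nat_lit 252) (.e (nat_lit 57347) (nat_lit 0) (.e (nat_lit 2203) (nat_lit 144) (.e (nat_lit 720956) (nat_lit 25) .nil))))) .nil)) 
(.lf (nat_lit 236882) (.g (nat_lit 1763) (.e (nat_lit 114712) (nat_lit 21) (.e (nat_lit 57852) (nat_lit 252) (.e (nat_lit 57409) (nat_lit 12) (.e (nat_lit 336210) (nat_lit 13) .nil)))) .nil))) (.nd (nat_lit 6) 
(.lf (nat_lit 236850) (.g (nat_lit 1800) (.e (nat_lit 114712) (nat_lit 21) (.e (nat_lit 57851) (nat_lit 252) (.e (nat_lit 57436) (nat_lit 17) (.e (nat_lit 376842) (nat_lit 11) (.e (nat_lit 426187) (nat_lit 9) .nil))))) .nil)) 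
(.lf (nat_lit 236914) (.g (nat_lit 2231) (.e (nat_lit 114712) (nat_lit 21) (.e (nat_lit 57852) (nat_lit 252) (.e (nat_lit 57419) (nat_lit 12) (.e (nat_lit 336076) (nat_lit 9) (.e (nat_lit 336444) (nat_lit 32) (.e (nat_lit 474880) (nat_lit 5) .nil)))))) (.g (nat_lit 5) .nil .nil)))))) (.nd (nat_lit 4) (.nd (nat_lit 5) (.nd (nat_lit 6) 
(.lf (nat_lit 236810) (.g (nat_lit 2292) (.e (nat_lit 114712) (nat_lit 21) (.e (nat_lit 57851) (nat_lit 252) (.e (nat_lit 57347) (nat_lit 0) (.e (nat_lit 2031) (nat_lit 140) (.e (nat_lit 688182) (nat_lit 17) (.e (nat_lit 73754) (nat_lit 8) (.e (nat_lit 557101) (nat_lit 13) (.e (nat_lit 179968) (nat_lit 20) .nil)))))))) (.g (nat_lit 4) .nil .nil))) 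
(.lf (nat_lit 236874) (.g (nat_lit 353) (.e (nat_lit 114712) (nat_lit 21) (.e (nat_lit 57852) (nat_lit 252) (.e (nat_lit 57409) (nat_lit 12) .nil))) .nil))) (.nd (nat_lit 6) 
(.lf (nat_lit 236842) (.g (nat_lit 763) (.e (nat_lit 114712) (nat_lit 21) (.e (nat_lit 57851) (nat_lit 252) (.e (nat_lit 57435) (nat_lit 17) (.e (nat_lit 376842) (nat_lit 11) .nil)))) .nil)) 
(.lf (nat_lit 236906) (.g (nat_lit 1181) (.e (nat_lit 114712) (nat_lit 21) (.e (nat_lit 57852) (nat_lit 252) (.e (nat_lit 57419) (nat_lit 12) (.e (nat_lit 336075) (nat_lit 9) (.e (nat_lit 336427) (nat_lit 29) (.e (nat_lit 450304) (nat_lit 5) .nil)))))) (.g (nat_lit 4) .nil .nil))))) (.nd (nat_lit 5) (.nd (nat_lit 6) 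
(.lf (nat_lit 236826) (.g (nat_lit 1176) (.e (nat_lit 114712) (nat_lit 21) (.e (nat_lit 57851) (nat_lit 252) (.e (nat_lit 57412) (nat_lit 12) (.e (nat_lit 336219) (nat_lit 13) (.e (nat_lit 393270) (nat_lit 23) .nil))))) .nil)) 
(.lf (nat_lit 236890) (.g (nat_lit 1442) (.e (nat_lit 114712) (nat_lit 21) (.e (nat_lit 57852) (nat_lit 252) (.e (nat_lit 57409) (nat_lit 12) (.e (nat_lit 336211) (nat_lit 13) (.e (nat_lit 393279) (nat_lit 23) .nil))))) .nil))) (.nd (nat_lit 6) 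
(.lf (nat_lit 236858) (.g (nat_lit 1885) (.e (nat_lit 114712) (nat_lit 21) (.e (nat_lit 57852) (nat_lit 252) (.e (nat_lit 57347) (nat_lit 0) (.e (nat_lit 2032) (nat_lit 140) (.e (nat_lit 688180) (nat_lit 17) .nil))))) .nil)) 
(.lf (nat_lit 236922) (.g (nat_lit 2498) (.e (nat_lit 114712) (nat_lit 21) (.e (nat_lit 57852) (nat_lit 252) (.e (nat_lit 57420) (nat_lit 13) (.e (nat_lit 344117) (nat_lit 21) (.e (nat_lit 516129) (nat_lit 3) (.e (nat_lit 229120) (nat_lit 1) (.e (nat_lit 57849) (nat_lit 252) (.e (nat_lit 57388) (nat_lit 5) .nil)))))))) (.g (nat_lit 4) .nil .nil))))))) 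
(.nd (nat_lit 3) (.nd (nat_lit 4) (.nd (nat_lit 5) (.nd (nat_lit 6) 
(.lf (nat_lit 236806) (.g (nat_lit 4244) (.e (nat_lit 114712) (nat_lit 21) (.e (nat_lit 57851) (nat_lit 252) (.e (nat_lit 57347) (nat_lit 0) (.e (nat_lit 2029) (nat_lit 140) (.e (nat_lit 688181) (nat_lit 17) (.e (nat_lit 73755) (nat_lit 8) (.e (nat_lit 557098) (nat_lit 13) (.e (nat_lit 179968) (nat_lit 20) .nil)))))))) (.g (nat_lit 7) .nil .nil))) 
(.lf (nat_lit 236870) (.g (nat_lit 1173) (.e (nat_lit 114712) (nat_lit 21) (.e (nat_lit 57852) (nat_lit 252) (.e (nat_lit 57406) (nat_lit 12) (.e (nat_lit 336210) (nat_lit 13) .nil)))) .nil))) (.nd (nat_lit 6) 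
(.lf (nat_lit 236838) (.g (nat_lit 2327) (.e (nat_lit 114712) (nat_lit 21) (.e (nat_lit 57851) (nat_lit 252) (.e (nat_lit 57424) (nat_lit 14) (.e (nat_lit 352277) (nat_lit 11) (.e (nat_lit 426190) (nat_lit 9) (.e (nat_lit 426446) (nat_lit 20) .nil)))))) (.g (nat_lit 4) .nil .nil))) 
(.lf (nat_lit 236902) (.g (nat_lit 886) (.e (nat_lit 114712) (nat_lit 21) (.e (nat_lit 57852) (nat_lit 252) (.e (nat_lit 57417) (nat_lit 12) (.e (nat_lit 336209) (nat_lit 13) .nil)))) .nil)))) (.nd (nat_lit 5) (.nd (nat_lit 6) 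
(.lf (nat_lit 236822) (.g (nat_lit 1111) (.e (nat_lit 114712) (nat_lit 21) (.e (nat_lit 57851) (nat_lit 252) (.e (nat_lit 57364) (nat_lit 1) (.e (nat_lit 57851) (nat_lit 252) (.e (nat_lit 57406) (nat_lit 12) .nil))))) .nil)) 
(.lf (nat_lit 236886) (.g (nat_lit 2944) (.e (nat_lit 114712) (nat_lit 21) (.e (nat_lit 57852) (nat_lit 252) (.e (nat_lit 57409) (nat_lit 12) (.e (nat_lit 336211) (nat_lit 13) (.e (nat_lit 393268) (nat_lit 23) (.e (nat_lit 433920) (nat_lit 20) .nil)))))) (.g (nat_lit 5) .nil .nil)))) (.nd (nat_lit 6) 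
(.lf (nat_lit 236854) (.g (nat_lit 1685) (.e (nat_lit 114712) (nat_lit 21) (.e (nat_lit 57851) (nat_lit 252) (.e (nat_lit 57436) (nat_lit 17) (.e (nat_lit 376842) (nat_lit 11) (.e (nat_lit 426199) (nat_lit 9) .nil))))) .nil)) 
(.lf (nat_lit 236918) (.g (nat_lit 2451) (.e (nat_lit 114712) (nat_lit 21) (.e (nat_lit 57852) (nat_lit 252) (.e (nat_lit 57419) (nat_lit 12) (.e (nat_lit 336213) (nat_lit 13) (.e (nat_lit 393279) (nat_lit 23) (.e (nat_lit 433920) (nat_lit 20) .nil)))))) (.g (nat_lit 5) .nil .nil)))))) (.nd (nat_lit 4) (.nd (nat_lit 5) (.nd (nat_lit 6) 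
(.lf (nat_lit 236814) (.g (nat_lit 1917) (.e (nat_lit 114712) (nat_lit 21) (.e (nat_lit 57851) (nat_lit 252) (.e (nat_lit 57347) (nat_lit 0) (.e (nat_lit 2032) (nat_lit 140) (.e (nat_lit 688182) (nat_lit 17) (.e (nat_lit 73754) (nat_lit 8) (.e (nat_lit 557101) (nat_lit 13) (.e (nat_lit 179968) (nat_lit 20) .nil)))))))) (.g (nat_lit 4) .nil .nil))) 
(.lf (nat_lit 236878) (.g (nat_lit 1426) (.e (nat_lit 114712) (nat_lit 21) (.e (nat_lit 57852) (nat_lit 252) (.e (nat_lit 57409) (nat_lit 12) (.e (nat_lit 336115) (nat_lit 9) (.e (nat_lit 336428) (nat_lit 29) (.e (nat_lit 450304) (nat_lit 5) .nil)))))) (.g (nat_lit 4) .nil .nil)))) (.nd (nat_lit 6) 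
(.lf (nat_lit 236846) (.g (nat_lit 963) (.e (nat_lit 114712) (nat_lit 21) (.e (nat_lit 57851) (nat_lit 252) (.e (nat_lit 57436) (nat_lit 17) (.e (nat_lit 376838) (nat_lit 11) .nil)))) .nil)) 
(.lf (nat_lit 236910) (.g (nat_lit 2494) (.e (nat_lit 114712) (nat_lit 21) (.e (nat_lit 57852) (nat_lit 252) (.e (nat_lit 57419) (nat_lit 12) (.e (nat_lit 336076) (nat_lit 9) (.e (nat_lit 336426) (nat_lit 29) (.e (nat_lit 450304) (nat_lit 5) .nil)))))) (.g (nat_lit 5) .nil .nil))))) (.nd (nat_lit 5) (.nd (nat_lit 6) 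
(.lf (nat_lit 236830) (.g (nat_lit 1380) (.e (nat_lit 114712) (nat_lit 21) (.e (nat_lit 57851) (nat_lit 252) (.e (nat_lit 57423) (nat_lit 14) (.e (nat_lit 352273) (nat_lit 11) .nil)))) .nil)) 
(.lf (nat_lit 236894) (.g (nat_lit 427) (.e (nat_lit 114712) (nat_lit 21) (.e (nat_lit 57852) (nat_lit 252) (.e (nat_lit 57417) (nat_lit 12) .nil))) .nil))) (.nd (nat_lit 6) 
(.lf (nat_lit 236862) (.g (nat_lit 911) (.e (nat_lit 114712) (nat_lit 21) (.e (nat_lit 57852) (nat_lit 252) (.e (nat_lit 57404) (nat_lit 12) (.e (nat_lit 336089) (nat_lit 9) .nil)))) .nil)) 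
(.lf (nat_lit 236926) (.g (nat_lit 2576) (.e (nat_lit 114712) (nat_lit 21) (.e (nat_lit 57852) (nat_lit 252) (.e (nat_lit 57420) (nat_lit 13) (.e (nat_lit 344129) (nat_lit 26) (.e (nat_lit 557097) (nat_lit 13) (.e (nat_lit 172061) (nat_lit 1) (.e (nat_lit 164319) (nat_lit 228) (.e (nat_lit 57389) (nat_lit 5) .nil)))))))) (.g (nat_lit 4) .nil .nil))))))))) 
(.nd (nat_lit 1) (.nd (nat_lit 2) (.nd (nat_lit 3) (.nd (nat_lit 4) (.nd (nat_lit 5) 
(.nd (nat_lit 6) 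
(.lf (nat_lit 236801) (.g (nat_lit 1636) (.e (nat_lit 114712) (nat_lit 21) (.e (nat_lit 57830) (nat_lit 250) (.e (nat_lit 1296) (nat_lit 96) (.e (nat_lit 131127) (nat_lit 13) (.e (nat_lit 393279) (nat_lit 23) (.e (nat_lit 433920) (nat_lit 20) .nil)))))) (.g (nat_lit 5) .nil .nil))) 
(.lf (nat_lit 236865) (.g (nat_lit 1403) (.e (nat_lit 114712) (nat_lit 21) (.e (nat_lit 57852) (nat_lit 252) (.e (nat_lit 57406) (nat_lit 12) (.e (nat_lit 336114) (nat_lit 9) (.e (nat_lit 336440) (nat_lit 32) .nil))))) .nil))) (.nd (nat_lit 6) 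
(.lf (nat_lit 236833) (.g (nat_lit 1594) (.e (nat_lit 114712) (nat_lit 21) (.e (nat_lit 57851) (nat_lit 252) (.e (nat_lit 57424) (nat_lit 14) (.e (nat_lit 352273) (nat_lit 11) .nil)))) .nil)) 
(.lf (nat_lit 236897) (.g (nat_lit 1526) (.e (nat_lit 114712) (nat_lit 21) (.e (nat_lit 57852) (nat_lit 252) (.e (nat_lit 57417) (nat_lit 12) (.e (nat_lit 336116) (nat_lit 9) (.e (nat_lit 336440) (nat_lit 32) .nil))))) .nil)))) (.nd (nat_lit 5) (.nd (nat_lit 6) 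
(.lf (nat_lit 236817) (.g (nat_lit 2039) (.e (nat_lit 114712) (nat_lit 21) (.e (nat_lit 57851) (nat_lit 252) (.e (nat_lit 57347) (nat_lit 0) (.e (nat_lit 2202) (nat_lit 144) (.e (nat_lit 720956) (nat_lit 25) (.e (nat_lit 114715) (nat_lit 22) (.e (nat_lit 90170) (nat_lit 13) (.e (nat_lit 179968) (nat_lit 20) .nil)))))))) (.g (nat_lit 4) .nil .nil))) 
(.lf (nat_lit 236881) (.g (nat_lit 1491) (.e (nat_lit 114712) (nat_lit 21) (.e (nat_lit 57852) (nat_lit 252) (.e (nat_lit 57409) (nat_lit 12) (.e (nat_lit 336115) (nat_lit 9) (.e (nat_lit 343808) (nat_lit 32) (.e (nat_lit 474880) (nat_lit 5) .nil)))))) (.g (nat_lit 4) .nil .nil)))) (.nd (nat_lit 6) 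
(.lf (nat_lit 236849) (.g (nat_lit 1841) (.e (nat_lit 114712) (nat_lit 21) (.e (nat_lit 57851) (nat_lit 252) (.e (nat_lit 57436) (nat_lit 17) (.e (nat_lit 376842) (nat_lit 11) (.e (nat_lit 426186) (nat_lit 9) .nil))))) .nil)) 
(.lf (nat_lit 236913) (.g (nat_lit 2272) (.e (nat_lit 114712) (nat_lit 21) (.e (nat_lit 57852) (nat_lit 252) (.e (nat_lit 57419) (nat_lit 12) (.e (nat_lit 336076) (nat_lit 9) (.e (nat_lit 336443) (nat_lit 32) (.e (nat_lit 474880) (nat_lit 5) .nil)))))) (.g (nat_lit 5) .nil .nil)))))) (.nd (nat_lit 4) (.nd (nat_lit 5) (.nd (nat_lit 6) 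
(.lf (nat_lit 236809) (.g (nat_lit 2086) (.e (nat_lit 114712) (nat_lit 21) (.e (nat_lit 57851) (nat_lit 252) (.e (nat_lit 57347) (nat_lit 0) (.e (nat_lit 2031) (nat_lit 140) (.e (nat_lit 688181) (nat_lit 17) .nil))))) .nil)) 
(.lf (nat_lit 236873) (.g (nat_lit 1869) (.e (nat_lit 114712) (nat_lit 21) (.e (nat_lit 57852) (nat_lit 252) (.e (nat_lit 57406) (nat_lit 12) (.e (nat_lit 336211) (nat_lit 13) (.e (nat_lit 393273) (nat_lit 23) .nil))))) .nil))) (.nd (nat_lit 6) 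
(.lf (nat_lit 236841) (.g (nat_lit 669) (.e (nat_lit 114712) (nat_lit 21) (.e (nat_lit 57851) (nat_lit 252) (.e (nat_lit 57435) (nat_lit 17) (.e (nat_lit 376840) (nat_lit 11) .nil)))) .nil)) 
(.lf (nat_lit 236905) (.g (nat_lit 1742) (.e (nat_lit 114712) (nat_lit 21) (.e (nat_lit 57852) (nat_lit 252) (.e (nat_lit 57419) (nat_lit 12) (.e (nat_lit 336075) (nat_lit 9) (.e (nat_lit 336426) (nat_lit 29) (.e (nat_lit 450304) (nat_lit 5) .nil)))))) (.g (nat_lit 5) .nil .nil))))) (.nd (nat_lit 5) (.nd (nat_lit 6) 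
(.lf (nat_lit 236825) (.g (nat_lit 1223) (.e (nat_lit 114712) (nat_lit 21) (.e (nat_lit 57851) (nat_lit 252) (.e (nat_lit 57412) (nat_lit 12) (.e (nat_lit 336212) (nat_lit 13) (.e (nat_lit 393270) (nat_lit 23) .nil))))) .nil)) 
(.lf (nat_lit 236889) (.g (nat_lit 2041) (.e (nat_lit 114712) (nat_lit 21) (.e (nat_lit 57852) (nat_lit 252) (.e (nat_lit 57409) (nat_lit 12) (.e (nat_lit 336211) (nat_lit 13) (.e (nat_lit 393275) (nat_lit 23) (.e (nat_lit 433920) (nat_lit 20) .nil)))))) (.g (nat_lit 5) .nil .nil)))) (.nd (nat_lit 6) 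
(.lf (nat_lit 236857) (.g (nat_lit 1737) (.e (nat_lit 114712) (nat_lit 21) (.e (nat_lit 57852) (nat_lit 252) (.e (nat_lit 57347) (nat_lit 0) (.e (nat_lit 2029) (nat_lit 140) .nil)))) .nil)) 
(.lf (nat_lit 236921) (.g (nat_lit 875) (.e (nat_lit 114712) (nat_lit 21) (.e (nat_lit 57852) (nat_lit 252) (.e (nat_lit 57420) (nat_lit 13) .nil))) .nil)))))) (.nd (nat_lit 3) (.nd (nat_lit 4) (.nd (nat_lit 5) (.nd (nat_lit 6) 
(.lf (nat_lit 236805) (.g (nat_lit 3544) (.e (nat_lit 114712) (nat_lit 21) (.e (nat_lit 57851) (nat_lit 252) (.e (nat_lit 57347) (nat_lit 0) (.e (nat_lit 2029) (nat_lit 140) (.e (nat_lit 688180) (nat_lit 17) (.e (nat_lit 73753) (nat_lit 8) (.e (nat_lit 557098) (nat_lit 13) (.e (nat_lit 179968) (nat_lit 20) .nil)))))))) (.g (nat_lit 7) .nil .nil))) 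
(.lf (nat_lit 236869) (.g (nat_lit 1163) (.e (nat_lit 114712) (nat_lit 21) (.e (nat_lit 57852) (nat_lit 252) (.e (nat_lit 57406) (nat_lit 12) (.e (nat_lit 336146) (nat_lit 9) .nil)))) .nil))) (.nd (nat_lit 6) 
(.lf (nat_lit 236837) (.g (nat_lit 1423) (.e (nat_lit 114712) (nat_lit 21) (.e (nat_lit 57851) (nat_lit 252) (.e (nat_lit 57424) (nat_lit 14) (.e (nat_lit 352277) (nat_lit 11) .nil)))) .nil)) 
(.lf (nat_lit 236901) (.g (nat_lit 1778) (.e (nat_lit 114712) (nat_lit 21) (.e (nat_lit 57852) (nat_lit 252) (.e (nat_lit 57417) (nat_lit 12) (.e (nat_lit 336154) (nat_lit 9) .nil)))) .nil)))) (.nd (nat_lit 5) (.nd (nat_lit 6) 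
(.lf (nat_lit 236821) (.g (nat_lit 407) (.e (nat_lit 114712) (nat_lit 21) (.e (nat_lit 57851) (nat_lit 252) (.e (nat_lit 57364) (nat_lit 1) .nil))) .nil)) 
(.lf (nat_lit 236885) (.g (nat_lit 2460) (.e (nat_lit 114712) (nat_lit 21) (.e (nat_lit 57852) (nat_lit 252) (.e (nat_lit 57409) (nat_lit 12) (.e (nat_lit 336211) (nat_lit 13) (.e (nat_lit 393267) (nat_lit 23) (.e (nat_lit 426446) (nat_lit 20) .nil)))))) (.g (nat_lit 0) .nil .nil)))) (.nd (nat_lit 6) 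
(.lf (nat_lit 236853) (.g (nat_lit 1606) (.e (nat_lit 114712) (nat_lit 21) (.e (nat_lit 57851) (nat_lit 252) (.e (nat_lit 57436) (nat_lit 17) (.e (nat_lit 376842) (nat_lit 11) (.e (nat_lit 426198) (nat_lit 9) .nil))))) .nil)) 
(.lf (nat_lit 236917) (.g (nat_lit 2438) (.e (nat_lit 114712) (nat_lit 21) (.e (nat_lit 57852) (nat_lit 252) (.e (nat_lit 57419) (nat_lit 12) (.e (nat_lit 336213) (nat_lit 13) (.e (nat_lit 393279) (nat_lit 23) (.e (nat_lit 426447) (nat_lit 20) .nil)))))) (.g (nat_lit 4) .nil .nil)))))) (.nd (nat_lit 4) (.nd (nat_lit 5) (.nd (nat_lit 6) 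
(.lf (nat_lit 236813) (.g (nat_lit 3589) (.e (nat_lit 114712) (nat_lit 21) (.e (nat_lit 57851) (nat_lit 252) (.e (nat_lit 57347) (nat_lit 0) (.e (nat_lit 2032) (nat_lit 140) (.e (nat_lit 688180) (nat_lit 17) (.e (nat_lit 73753) (nat_lit 8) (.e (nat_lit 557098) (nat_lit 13) (.e (nat_lit 179968) (nat_lit 20) .nil)))))))) (.g (nat_lit 7) .nil .nil))) 
(.lf (nat_lit 236877) (.g (nat_lit 1670) (.e (nat_lit 114712) (nat_lit 21) (.e (nat_lit 57852) (nat_lit 252) (.e (nat_lit 57409) (nat_lit 12) (.e (nat_lit 336115) (nat_lit 9) (.e (nat_lit 336427) (nat_lit 29) (.e (nat_lit 450304) (nat_lit 5) .nil)))))) (.g (nat_lit 4) .nil .nil)))) (.nd (nat_lit 6) 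
(.lf (nat_lit 236845) (.g (nat_lit 2083) (.e (nat_lit 114712) (nat_lit 21) (.e (nat_lit 57851) (nat_lit 252) (.e (nat_lit 57435) (nat_lit 17) (.e (nat_lit 376842) (nat_lit 11) (.e (nat_lit 426196) (nat_lit 9) .nil))))) .nil)) 
(.lf (nat_lit 236909) (.g (nat_lit 1224) (.e (nat_lit 114712) (nat_lit 21) (.e (nat_lit 57852) (nat_lit 252) (.e (nat_lit 57419) (nat_lit 12) (.e (nat_lit 336075) (nat_lit 9) (.e (nat_lit 336444) (nat_lit 32) (.e (nat_lit 474880) (nat_lit 5) .nil)))))) (.g (nat_lit 4) .nil .nil))))) (.nd (nat_lit 5) (.nd (nat_lit 6) 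
(.lf (nat_lit 236829) (.g (nat_lit 3409) (.e (nat_lit 114712) (nat_lit 21) (.e (nat_lit 57851) (nat_lit 252) (.e (nat_lit 57421) (nat_lit 13) (.e (nat_lit 344133) (nat_lit 26) (.e (nat_lit 557098) (nat_lit 13) (.e (nat_lit 172061) (nat_lit 1) (.e (nat_lit 164319) (nat_lit 228) (.e (nat_lit 57389) (nat_lit 5) .nil)))))))) (.g (nat_lit 5) .nil .nil))) 
(.lf (nat_lit 236893) (.g (nat_lit 397) (.e (nat_lit 114712) (nat_lit 21) (.e (nat_lit 57852) (nat_lit 252) (.e (nat_lit 57415) (nat_lit 12) .nil))) .nil))) (.nd (nat_lit 6) 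
(.lf (nat_lit 236861) (.g (nat_lit 691) (.e (nat_lit 114712) (nat_lit 21) (.e (nat_lit 57852) (nat_lit 252) (.e (nat_lit 57404) (nat_lit 12) .nil))) .nil)) 
(.lf (nat_lit 236925) (.g (nat_lit 3290) (.e (nat_lit 114712) (nat_lit 21) (.e (nat_lit 57852) (nat_lit 252) (.e (nat_lit 57420) (nat_lit 13) (.e (nat_lit 344117) (nat_lit 21) (.e (nat_lit 516130) (nat_lit 3) (.e (nat_lit 229120) (nat_lit 1) (.e (nat_lit 57849) (nat_lit 252) (.e (nat_lit 57390) (nat_lit 5) .nil)))))))) (.g (nat_lit 5) .nil .nil)))))))) 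
(.nd (nat_lit 2) (.nd (nat_lit 3) (.nd (nat_lit 4) (.nd (nat_lit 5) (.nd (nat_lit 6) 
(.lf (nat_lit 236803) (.g (nat_lit 1056) (.e (nat_lit 114712) (nat_lit 21) (.e (nat_lit 57844) (nat_lit 252) (.e (nat_lit 57424) (nat_lit 14) (.e (nat_lit 352277) (nat_lit 11) .nil)))) .nil)) 
(.lf (nat_lit 236867) (.g (nat_lit 1175) (.e (nat_lit 114712) (nat_lit 21) (.e (nat_lit 57852) (nat_lit 252) (.e (nat_lit 57406) (nat_lit 12) (.e (nat_lit 336120) (nat_lit 9) .nil)))) .nil))) (.nd (nat_lit 6) 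
(.lf (nat_lit 236835) (.g (nat_lit 1726) (.e (nat_lit 114712) (nat_lit 21) (.e (nat_lit 57851) (nat_lit 252) (.e (nat_lit 57424) (nat_lit 14) (.e (nat_lit 352274) (nat_lit 11) .nil)))) .nil)) 
(.lf (nat_lit 236899) (.g (nat_lit 1948) (.e (nat_lit 114712) (nat_lit 21) (.e (nat_lit 57852) (nat_lit 252) (.e (nat_lit 57417) (nat_lit 12) (.e (nat_lit 336118) (nat_lit 9) (.e (nat_lit 336440) (nat_lit 32) (.e (nat_lit 474880) (nat_lit 5) .nil)))))) (.g (nat_lit 5) .nil .nil))))) (.nd (nat_lit 5) (.nd (nat_lit 6) 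
(.lf (nat_lit 236819) (.g (nat_lit 1962) (.e (nat_lit 114712) (nat_lit 21) (.e (nat_lit 57851) (nat_lit 252) (.e (nat_lit 57347) (nat_lit 0) (.e (nat_lit 2203) (nat_lit 144) (.e (nat_lit 720956) (nat_lit 25) (.e (nat_lit 114716) (nat_lit 22) (.e (nat_lit 90168) (nat_lit 13) (.e (nat_lit 179968) (nat_lit 20) .nil)))))))) (.g (nat_lit 4) .nil .nil))) 
(.lf (nat_lit 236883) (.g (nat_lit 897) (.e (nat_lit 114712) (nat_lit 21) (.e (nat_lit 57852) (nat_lit 252) (.e (nat_lit 57409) (nat_lit 12) (.e (nat_lit 336211) (nat_lit 13) .nil)))) .nil))) (.nd (nat_lit 6) 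
(.lf (nat_lit 236851) (.g (nat_lit 2027) (.e (nat_lit 114712) (nat_lit 21) (.e (nat_lit 57851) (nat_lit 252) (.e (nat_lit 57436) (nat_lit 17) (.e (nat_lit 376842) (nat_lit 11) (.e (nat_lit 426189) (nat_lit 9) .nil))))) .nil)) 
(.lf (nat_lit 236915) (.g (nat_lit 1667) (.e (nat_lit 114712) (nat_lit 21) (.e (nat_lit 57852) (nat_lit 252) (.e (nat_lit 57419) (nat_lit 12) (.e (nat_lit 336077) (nat_lit 9) (.e (nat_lit 336443) (nat_lit 32) (.e (nat_lit 474880) (nat_lit 5) .nil)))))) (.g (nat_lit 5) .nil .nil)))))) (.nd (nat_lit 4) (.nd (nat_lit 5) (.nd (nat_lit 6) 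
(.lf (nat_lit 236811) (.g (nat_lit 2398) (.e (nat_lit 114712) (nat_lit 21) (.e (nat_lit 57851) (nat_lit 252) (.e (nat_lit 57347) (nat_lit 0) (.e (nat_lit 2031) (nat_lit 140) (.e (nat_lit 688182) (nat_lit 17) (.e (nat_lit 73755) (nat_lit 8) (.e (nat_lit 557097) (nat_lit 13) (.e (nat_lit 179968) (nat_lit 20) .nil)))))))) (.g (nat_lit 4) .nil .nil))) 
(.lf (nat_lit 236875) (.g (nat_lit 845) (.e (nat_lit 114712) (nat_lit 21) (.e (nat_lit 57852) (nat_lit 252) (.e (nat_lit 57409) (nat_lit 12) (.e (nat_lit 336019) (nat_lit 3) .nil)))) .nil))) (.nd (nat_lit 6) 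
(.lf (nat_lit 236843) (.g (nat_lit 1792) (.e (nat_lit 114712) (nat_lit 21) (.e (nat_lit 57851) (nat_lit 252) (.e (nat_lit 57435) (nat_lit 17) (.e (nat_lit 376842) (nat_lit 11) (.e (nat_lit 426186) (nat_lit 9) .nil))))) .nil)) 
(.lf (nat_lit 236907) (.g (nat_lit 1805) (.e (nat_lit 114712) (nat_lit 21) (.e (nat_lit 57852) (nat_lit 252) (.e (nat_lit 57419) (nat_lit 12) (.e (nat_lit 336075) (nat_lit 9) (.e (nat_lit 336428) (nat_lit 29) (.e (nat_lit 450304) (nat_lit 5) .nil)))))) (.g (nat_lit 5) .nil .nil))))) (.nd (nat_lit 5) (.nd (nat_lit 6) 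
(.lf (nat_lit 236827) (.g (nat_lit 1508) (.e (nat_lit 114712) (nat_lit 21) (.e (nat_lit 57851) (nat_lit 252) (.e (nat_lit 57419) (nat_lit 12) (.e (nat_lit 336213) (nat_lit 13) (.e (nat_lit 393270) (nat_lit 23) .nil))))) .nil)) 
(.lf (nat_lit 236891) (.g (nat_lit 856) (.e (nat_lit 114712) (nat_lit 21) (.e (nat_lit 57852) (nat_lit 252) (.e (nat_lit 57412) (nat_lit 12) .nil))) .nil))) (.nd (nat_lit 6) 
(.lf (nat_lit 236859) (.g (nat_lit 835) (.e (nat_lit 114712) (nat_lit 21) (.e (nat_lit 57852) (nat_lit 252) (.e (nat_lit 57350) (nat_lit 0) .nil))) .nil)) 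
(.lf (nat_lit 236923) (.g (nat_lit 3432) (.e (nat_lit 114712) (nat_lit 21) (.e (nat_lit 57852) (nat_lit 252) (.e (nat_lit 57420) (nat_lit 13) (.e (nat_lit 344117) (nat_lit 21) (.e (nat_lit 516129) (nat_lit 3) (.e (nat_lit 229120) (nat_lit 1) (.e (nat_lit 57849) (nat_lit 252) (.e (nat_lit 57390) (nat_lit 5) .nil)))))))) (.g (nat_lit 5) .nil .nil))))))) 
(.nd (nat_lit 3) (.nd (nat_lit 4) (.nd (nat_lit 5) (.nd (nat_lit 6) 
(.lf (nat_lit 236807) (.g (nat_lit 1857) (.e (nat_lit 114712) (nat_lit 21) (.e (nat_lit 57851) (nat_lit 252) (.e (nat_lit 57347) (nat_lit 0) (.e (nat_lit 2029) (nat_lit 140) (.e (nat_lit 688182) (nat_lit 17) (.e (nat_lit 73755) (nat_lit 8) (.e (nat_lit 557097) (nat_lit 13) (.e (nat_lit 179968) (nat_lit 20) .nil)))))))) (.g (nat_lit 4) .nil .nil))) 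
(.lf (nat_lit 236871) (.g (nat_lit 1162) (.e (nat_lit 114712) (nat_lit 21) (.e (nat_lit 57852) (nat_lit 252) (.e (nat_lit 57406) (nat_lit 12) (.e (nat_lit 336211) (nat_lit 13) .nil)))) .nil))) (.nd (nat_lit 6) 
(.lf (nat_lit 236839) (.g (nat_lit 1815) (.e (nat_lit 114712) (nat_lit 21) (.e (nat_lit 57851) (nat_lit 252) (.e (nat_lit 57424) (nat_lit 14) (.e (nat_lit 352278) (nat_lit 11) .nil)))) .nil)) 
(.lf (nat_lit 236903) (.g (nat_lit 875) (.e (nat_lit 114712) (nat_lit 21) (.e (nat_lit 57852) (nat_lit 252) (.e (nat_lit 57418) (nat_lit 12) .nil))) .nil)))) (.nd (nat_lit 5) (.nd (nat_lit 6) 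
(.lf (nat_lit 236823) (.g (nat_lit 312) (.e (nat_lit 114712) (nat_lit 21) (.e (nat_lit 57851) (nat_lit 252) (.e (nat_lit 57412) (nat_lit 12) .nil))) .nil)) 
(.lf (nat_lit 236887) (.g (nat_lit 2371) (.e (nat_lit 114712) (nat_lit 21) (.e (nat_lit 57852) (nat_lit 252) (.e (nat_lit 57409) (nat_lit 12) (.e (nat_lit 336211) (nat_lit 13) (.e (nat_lit 393269) (nat_lit 23) (.e (nat_lit 426448) (nat_lit 20) .nil)))))) (.g (nat_lit 6) .nil .nil)))) (.nd (nat_lit 6) 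
(.lf (nat_lit 236855) (.g (nat_lit 709) (.e (nat_lit 114712) (nat_lit 21) (.e (nat_lit 57851) (nat_lit 252) (.e (nat_lit 57436) (nat_lit 17) (.e (nat_lit 384768) (nat_lit 13) .nil)))) .nil)) 
(.lf (nat_lit 236919) (.g (nat_lit 914) (.e (nat_lit 114712) (nat_lit 21) (.e (nat_lit 57852) (nat_lit 252) (.e (nat_lit 57419) (nat_lit 12) (.e (nat_lit 336214) (nat_lit 13) .nil)))) .nil))))) (.nd (nat_lit 4) (.nd (nat_lit 5) (.nd (nat_lit 6) 
(.lf (nat_lit 236815) (.g (nat_lit 4303) (.e (nat_lit 114712) (nat_lit 21) (.e (nat_lit 57851) (nat_lit 252) (.e (nat_lit 57347) (nat_lit 0) (.e (nat_lit 2032) (nat_lit 140) (.e (nat_lit 688182) (nat_lit 17) (.e (nat_lit 73755) (nat_lit 8) (.e (nat_lit 557098) (nat_lit 13) (.e (nat_lit 179968) (nat_lit 20) .nil)))))))) (.g (nat_lit 7) .nil .nil))) 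
(.lf (nat_lit 236879) (.g (nat_lit 1505) (.e (nat_lit 114712) (nat_lit 21) (.e (nat_lit 57852) (nat_lit 252) (.e (nat_lit 57409) (nat_lit 12) (.e (nat_lit 336115) (nat_lit 9) (.e (nat_lit 343808) (nat_lit 29) (.e (nat_lit 450304) (nat_lit 5) .nil)))))) (.g (nat_lit 4) .nil .nil)))) (.nd (nat_lit 6) 
(.lf (nat_lit 236847) (.g (nat_lit 971) (.e (nat_lit 114712) (nat_lit 21) (.e (nat_lit 57851) (nat_lit 252) (.e (nat_lit 57436) (nat_lit 17) (.e (nat_lit 376840) (nat_lit 11) .nil)))) .nil)) 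
(.lf (nat_lit 236911) (.g (nat_lit 1485) (.e (nat_lit 114712) (nat_lit 21) (.e (nat_lit 57852) (nat_lit 252) (.e (nat_lit 57419) (nat_lit 12) (.e (nat_lit 336076) (nat_lit 9) (.e (nat_lit 336427) (nat_lit 29) (.e (nat_lit 450304) (nat_lit 5) .nil)))))) (.g (nat_lit 4) .nil .nil))))) (.nd (nat_lit 5) (.nd (nat_lit 6) 
(.lf (nat_lit 236831) (.g (nat_lit 872) (.e (nat_lit 114712) (nat_lit 21) (.e (nat_lit 57851) (nat_lit 252) (.e (nat_lit 57423) (nat_lit 14) (.e (nat_lit 352276) (nat_lit 11) .nil)))) .nil)) 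
(.lf (nat_lit 236895) (.g (nat_lit 1778) (.e (nat_lit 114712) (nat_lit 21) (.e (nat_lit 57852) (nat_lit 252) (.e (nat_lit 57417) (nat_lit 12) (.e (nat_lit 336113) (nat_lit 9) .nil)))) .nil))) (.nd (nat_lit 6) 
(.lf (nat_lit 236863) (.g (nat_lit 1595) (.e (nat_lit 114712) (nat_lit 21) (.e (nat_lit 57852) (nat_lit 252) (.e (nat_lit 57404) (nat_lit 12) (.e (nat_lit 336089) (nat_lit 9) (.e (nat_lit 336444) (nat_lit 32) (.e (nat_lit 474880) (nat_lit 5) .nil)))))) (.g (nat_lit 5) .nil .nil))) 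
(.lf (nat_lit 236927) (.g (nat_lit 2017) (.e (nat_lit 114712) (nat_lit 21) (.e (nat_lit 57852) (nat_lit 252) (.e (nat_lit 57420) (nat_lit 13) (.e (nat_lit 344129) (nat_lit 26) (.e (nat_lit 557104) (nat_lit 14) .nil))))) .nil)))))))))

noncomputable def tv3089 : DT := (.nd (nat_lit 0) (.nd (nat_lit 1) (.nd (nat_lit 2) (.nd (nat_lit 3) (.nd (nat_lit 4) (.nd (nat_lit 5) (.nd (nat_lit 6) 
(.lf (nat_lit 236928) (.g (nat_lit 2458) (.e (nat_lit 114712) (nat_lit 21) (.e (nat_lit 57852) (nat_lit 252) (.e (nat_lit 57420) (nat_lit 13) (.e (nat_lit 344129) (nat_lit 26) (.e (nat_lit 557104) (nat_lit 14) (.e (nat_lit 188160) (nat_lit 0) (.e (nat_lit 5195) (nat_lit 294) (.e (nat_lit 57390) (nat_lit 5) .nil)))))))) (.g (nat_lit 4) .nil .nil))) 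
(.lf (nat_lit 236992) (.g (nat_lit 1302) (.e (nat_lit 114712) (nat_lit 21) (.e (nat_lit 57852) (nat_lit 252) (.e (nat_lit 57436) (nat_lit 17) (.e (nat_lit 376839) (nat_lit 11) .nil)))) .nil))) (.nd (nat_lit 6) 
(.lf (nat_lit 236960) (.g (nat_lit 1554) (.e (nat_lit 114712) (nat_lit 21) (.e (nat_lit 57852) (nat_lit 252) (.e (nat_lit 57426) (nat_lit 15) (.e (nat_lit 360490) (nat_lit 22) (.e (nat_lit 778314) (nat_lit 2) .nil))))) .nil)) 
(.lf (nat_lit 237024) (.g (nat_lit 2309) (.e (nat_lit 114712) (nat_lit 21) (.e (nat_lit 57853) (nat_lit 252) (.e (nat_lit 57423) (nat_lit 14) (.e (nat_lit 352277) (nat_lit 11) (.e (nat_lit 426190) (nat_lit 9) (.e (nat_lit 426446) (nat_lit 20) .nil)))))) (.g (nat_lit 4) .nil .nil))))) (.nd (nat_lit 5) (.nd (nat_lit 6) 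
(.lf (nat_lit 236944) (.g (nat_lit 1582) (.e (nat_lit 114712) (nat_lit 21) (.e (nat_lit 57852) (nat_lit 252) (.e (nat_lit 57423) (nat_lit 14) (.e (nat_lit 352258) (nat_lit 0) .nil)))) .nil)) 
(.lf (nat_lit 237008) (.g (nat_lit 588) (.e (nat_lit 114712) (nat_lit 21) (.e (nat_lit 57852) (nat_lit 252) (.e (nat_lit 57438) (nat_lit 17) .nil))) .nil))) (.nd (nat_lit 6) 
(.lf (nat_lit 236976) (.g (nat_lit 399) (.e (nat_lit 114712) (nat_lit 21) (.e (nat_lit 57852) (nat_lit 252) (.e (nat_lit 57435) (nat_lit 17) .nil))) .nil)) 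
(.lf (nat_lit 237040) (.g (nat_lit 2119) (.e (nat_lit 114712) (nat_lit 21) (.e (nat_lit 57853) (nat_lit 252) (.e (nat_lit 57435) (nat_lit 17) (.e (nat_lit 376842) (nat_lit 11) (.e (nat_lit 426258) (nat_lit 9) .nil))))) .nil))))) (.nd (nat_lit 4) (.nd (nat_lit 5) (.nd (nat_lit 6) 
(.lf (nat_lit 236936) (.g (nat_lit 1688) (.e (nat_lit 114712) (nat_lit 21) (.e (nat_lit 57852) (nat_lit 252) (.e (nat_lit 57421) (nat_lit 13) (.e (nat_lit 344130) (nat_lit 26) (.e (nat_lit 557104) (nat_lit 14) .nil))))) .nil)) 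
(.lf (nat_lit 237000) (.g (nat_lit 2746) (.e (nat_lit 114712) (nat_lit 21) (.e (nat_lit 57852) (nat_lit 252) (.e (nat_lit 57436) (nat_lit 17) (.e (nat_lit 376842) (nat_lit 11) (.e (nat_lit 426188) (nat_lit 9) (.e (nat_lit 433920) (nat_lit 20) .nil)))))) (.g (nat_lit 5) .nil .nil)))) (.nd (nat_lit 6) 
(.lf (nat_lit 236968) (.g (nat_lit 2124) (.e (nat_lit 114712) (nat_lit 21) (.e (nat_lit 57852) (nat_lit 252) (.e (nat_lit 57427) (nat_lit 15) (.e (nat_lit 360487) (nat_lit 19) (.e (nat_lit 753689) (nat_lit 9) (.e (nat_lit 179968) (nat_lit 20) .nil)))))) (.g (nat_lit 5) .nil .nil))) 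
(.lf (nat_lit 237032) (.g (nat_lit 3163) (.e (nat_lit 114712) (nat_lit 21) (.e (nat_lit 57853) (nat_lit 252) (.e (nat_lit 57427) (nat_lit 15) (.e (nat_lit 360451) (nat_lit 0) (.e (nat_lit 6923) (nat_lit 371) (.e (nat_lit 2628) (nat_lit 164) (.e (nat_lit 179968) (nat_lit 20) .nil))))))) (.g (nat_lit 5) .nil .nil))))) (.nd (nat_lit 5) (.nd (nat_lit 6) 
(.lf (nat_lit 236952) (.g (nat_lit 2173) (.e (nat_lit 114712) (nat_lit 21) (.e (nat_lit 57852) (nat_lit 252) (.e (nat_lit 57424) (nat_lit 14) (.e (nat_lit 352273) (nat_lit 11) (.e (nat_lit 426190) (nat_lit 9) .nil))))) .nil)) 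
(.lf (nat_lit 237016) (.g (nat_lit 636) (.e (nat_lit 114712) (nat_lit 21) (.e (nat_lit 57853) (nat_lit 252) (.e (nat_lit 57417) (nat_lit 12) .nil))) .nil))) (.nd (nat_lit 6) 
(.lf (nat_lit 236984) (.g (nat_lit 1892) (.e (nat_lit 114712) (nat_lit 21) (.e (nat_lit 57852) (nat_lit 252) (.e (nat_lit 57435) (nat_lit 17) (.e (nat_lit 376842) (nat_lit 11) (.e (nat_lit 426196) (nat_lit 9) .nil))))) .nil)) 
(.lf (nat_lit 237048) (.g (nat_lit 789) (.e (nat_lit 114712) (nat_lit 21) (.e (nat_lit 57853) (nat_lit 252) (.e (nat_lit 57438) (nat_lit 17) (.e (nat_lit 384768) (nat_lit 16) .nil)))) .nil)))))) (.nd (nat_lit 3) (.nd (nat_lit 4) (.nd (nat_lit 5) (.nd (nat_lit 6) 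
(.lf (nat_lit 236932) (.g (nat_lit 3022) (.e (nat_lit 114712) (nat_lit 21) (.e (nat_lit 57852) (nat_lit 252) (.e (nat_lit 57421) (nat_lit 13) (.e (nat_lit 344117) (nat_lit 21) (.e (nat_lit 516129) (nat_lit 3) (.e (nat_lit 229120) (nat_lit 1) (.e (nat_lit 57849) (nat_lit 252) (.e (nat_lit 57390) (nat_lit 5) .nil)))))))) (.g (nat_lit 5) .nil .nil))) 
(.lf (nat_lit 236996) (.g (nat_lit 1496) (.e (nat_lit 114712) (nat_lit 21) (.e (nat_lit 57852) (nat_lit 252) (.e (nat_lit 57436) (nat_lit 17) (.e (nat_lit 376840) (nat_lit 11) (.e (nat_lit 426260) (nat_lit 9) (.e (nat_lit 433920) (nat_lit 20) .nil)))))) (.g (nat_lit 5) .nil .nil)))) (.nd (nat_lit 6) 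
(.lf (nat_lit 236964) (.g (nat_lit 3024) (.e (nat_lit 114712) (nat_lit 21) (.e (nat_lit 57852) (nat_lit 252) (.e (nat_lit 57427) (nat_lit 15) (.e (nat_lit 360451) (nat_lit 0) (.e (nat_lit 6923) (nat_lit 371) (.e (nat_lit 2619) (nat_lit 164) (.e (nat_lit 179968) (nat_lit 20) .nil))))))) (.g (nat_lit 4) .nil .nil))) 
(.lf (nat_lit 237028) (.g (nat_lit 1467) (.e (nat_lit 114712) (nat_lit 21) (.e (nat_lit 57853) (nat_lit 252) (.e (nat_lit 57424) (nat_lit 14) (.e (nat_lit 352276) (nat_lit 11) (.e (nat_lit 426230) (nat_lit 9) .nil))))) .nil)))) (.nd (nat_lit 5) (.nd (nat_lit 6) 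
(.lf (nat_lit 236948) (.g (nat_lit 1234) (.e (nat_lit 114712) (nat_lit 21) (.e (nat_lit 57852) (nat_lit 252) (.e (nat_lit 57423) (nat_lit 14) (.e (nat_lit 352276) (nat_lit 11) (.e (nat_lit 426230) (nat_lit 9) .nil))))) .nil)) 
(.lf (nat_lit 237012) (.g (nat_lit 1721) (.e (nat_lit 114712) (nat_lit 21) (.e (nat_lit 57853) (nat_lit 252) (.e (nat_lit 57409) (nat_lit 12) (.e (nat_lit 336211) (nat_lit 13) (.e (nat_lit 393269) (nat_lit 23) .nil))))) .nil))) (.nd (nat_lit 6) 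
(.lf (nat_lit 236980) (.g (nat_lit 1417) (.e (nat_lit 114712) (nat_lit 21) (.e (nat_lit 57852) (nat_lit 252) (.e (nat_lit 57435) (nat_lit 17) (.e (nat_lit 376840) (nat_lit 11) (.e (nat_lit 426260) (nat_lit 9) (.e (nat_lit 433920) (nat_lit 20) .nil)))))) (.g (nat_lit 5) .nil .nil))) 
(.lf (nat_lit 237044) (.g (nat_lit 3043) (.e (nat_lit 114712) (nat_lit 21) (.e (nat_lit 57853) (nat_lit 252) (.e (nat_lit 57436) (nat_lit 17) (.e (nat_lit 376842) (nat_lit 11) (.e (nat_lit 426188) (nat_lit 9) (.e (nat_lit 426446) (nat_lit 20) .nil)))))) (.g (nat_lit 0) .nil .nil)))))) (.nd (nat_lit 4) (.nd (nat_lit 5) (.nd (nat_lit 6) 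
(.lf (nat_lit 236940) (.g (nat_lit 2083) (.e (nat_lit 114712) (nat_lit 21) (.e (nat_lit 57852) (nat_lit 252) (.e (nat_lit 57421) (nat_lit 13) (.e (nat_lit 344133) (nat_lit 26) (.e (nat_lit 557105) (nat_lit 14) (.e (nat_lit 188160) (nat_lit 0) (.e (nat_lit 5199) (nat_lit 294) (.e (nat_lit 57390) (nat_lit 5) .nil)))))))) (.g (nat_lit 4) .nil .nil))) 
(.lf (nat_lit 237004) (.g (nat_lit 2238) (.e (nat_lit 114712) (nat_lit 21) (.e (nat_lit 57852) (nat_lit 252) (.e (nat_lit 57436) (nat_lit 17) (.e (nat_lit 376842) (nat_lit 11) (.e (nat_lit 426200) (nat_lit 9) (.e (nat_lit 433920) (nat_lit 20) .nil)))))) (.g (nat_lit 5) .nil .nil)))) (.nd (nat_lit 6) 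
(.lf (nat_lit 236972) (.g (nat_lit 1820) (.e (nat_lit 114712) (nat_lit 21) (.e (nat_lit 57852) (nat_lit 252) (.e (nat_lit 57431) (nat_lit 16) (.e (nat_lit 368676) (nat_lit 21) (.e (nat_lit 516131) (nat_lit 3) (.e (nat_lit 221219) (nat_lit 24) (.e (nat_lit 213001) (nat_lit 9) (.e (nat_lit 124) (nat_lit 5) .nil)))))))) (.g (nat_lit 4) .nil .nil))) 
(.lf (nat_lit 237036) (.g (nat_lit 1354) (.e (nat_lit 114712) (nat_lit 21) (.e (nat_lit 57853) (nat_lit 252) (.e (nat_lit 57435) (nat_lit 17) (.e (nat_lit 376839) (nat_lit 11) (.e (nat_lit 426262) (nat_lit 9) .nil))))) .nil)))) (.nd (nat_lit 5) (.nd (nat_lit 6) 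
(.lf (nat_lit 236956) (.g (nat_lit 1393) (.e (nat_lit 114712) (nat_lit 21) (.e (nat_lit 57852) (nat_lit 252) (.e (nat_lit 57424) (nat_lit 14) (.e (nat_lit 352277) (nat_lit 11) (.e (nat_lit 426189) (nat_lit 9) .nil))))) .nil)) 
(.lf (nat_lit 237020) (.g (nat_lit 2033) (.e (nat_lit 114712) (nat_lit 21) (.e (nat_lit 57853) (nat_lit 252) (.e (nat_lit 57419) (nat_lit 12) (.e (nat_lit 336213) (nat_lit 13) (.e (nat_lit 393270) (nat_lit 23) (.e (nat_lit 426448) (nat_lit 20) .nil)))))) (.g (nat_lit 4) .nil .nil)))) (.nd (nat_lit 6) 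
(.lf (nat_lit 236988) (.g (nat_lit 2149) (.e (nat_lit 114712) (nat_lit 21) (.e (nat_lit 57852) (nat_lit 252) (.e (nat_lit 57435) (nat_lit 17) (.e (nat_lit 376842) (nat_lit 11) (.e (nat_lit 426213) (nat_lit 9) (.e (nat_lit 433920) (nat_lit 20) .nil)))))) (.g (nat_lit 5) .nil .nil))) 
(.lf (nat_lit 237052) (.g (nat_lit 2742) (.e (nat_lit 114712) (nat_lit 21) (.e (nat_lit 57854) (nat_lit 252) (.e (nat_lit 57389) (nat_lit 5) (.e (nat_lit 114702) (nat_lit 20) (.e (nat_lit 2200) (nat_lit 144) (.e (nat_lit 720939) (nat_lit 22) (.e (nat_lit 90170) (nat_lit 13) (.e (nat_lit 179968) (nat_lit 20) .nil)))))))) (.g (nat_lit 7) .nil .nil)))))))) 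
(.nd (nat_lit 2) (.nd (nat_lit 3) (.nd (nat_lit 4) (.nd (nat_lit 5) (.nd (nat_lit 6) 
(.lf (nat_lit 236930) (.g (nat_lit 753) (.e (nat_lit 114712) (nat_lit 21) (.e (nat_lit 57852) (nat_lit 252) (.e (nat_lit 57421) (nat_lit 13) .nil))) .nil)) 
(.lf (nat_lit 236994) (.g (nat_lit 1206) (.e (nat_lit 114712) (nat_lit 21) (.e (nat_lit 57852) (nat_lit 252) (.e (nat_lit 57436) (nat_lit 17) (.e (nat_lit 376840) (nat_lit 11) (.e (nat_lit 426234) (nat_lit 9) (.e (nat_lit 433920) (nat_lit 20) .nil)))))) (.g (nat_lit 4) .nil .nil)))) (.nd (nat_lit 6) 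
(.lf (nat_lit 236962) (.g (nat_lit 3052) (.e (nat_lit 114712) (nat_lit 21) (.e (nat_lit 57852) (nat_lit 252) (.e (nat_lit 57427) (nat_lit 15) (.e (nat_lit 360450) (nat_lit 0) (.e (nat_lit 6923) (nat_lit 371) (.e (nat_lit 2628) (nat_lit 164) (.e (nat_lit 179968) (nat_lit 20) .nil))))))) (.g (nat_lit 4) .nil .nil))) 
(.lf (nat_lit 237026) (.g (nat_lit 1517) (.e (nat_lit 114712) (nat_lit 21) (.e (nat_lit 57853) (nat_lit 252) (.e (nat_lit 57424) (nat_lit 14) (.e (nat_lit 352274) (nat_lit 11) .nil)))) .nil)))) (.nd (nat_lit 5) (.nd (nat_lit 6) 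
(.lf (nat_lit 236946) (.g (nat_lit 1716) (.e (nat_lit 114712) (nat_lit 21) (.e (nat_lit 57852) (nat_lit 252) (.e (nat_lit 57423) (nat_lit 14) (.e (nat_lit 352273) (nat_lit 11) .nil)))) .nil)) 
(.lf (nat_lit 237010) (.g (nat_lit 607) (.e (nat_lit 114712) (nat_lit 21) (.e (nat_lit 57853) (nat_lit 252) (.e (nat_lit 57409) (nat_lit 12) .nil))) .nil))) (.nd (nat_lit 6) 
(.lf (nat_lit 236978) (.g (nat_lit 1090) (.e (nat_lit 114712) (nat_lit 21) (.e (nat_lit 57852) (nat_lit 252) (.e (nat_lit 57435) (nat_lit 17) (.e (nat_lit 376840) (nat_lit 11) (.e (nat_lit 426234) (nat_lit 9) (.e (nat_lit 433920) (nat_lit 20) .nil)))))) (.g (nat_lit 4) .nil .nil))) 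
(.lf (nat_lit 237042) (.g (nat_lit 1109) (.e (nat_lit 114712) (nat_lit 21) (.e (nat_lit 57853) (nat_lit 252) (.e (nat_lit 57436) (nat_lit 17) (.e (nat_lit 376838) (nat_lit 11) .nil)))) .nil))))) (.nd (nat_lit 4) (.nd (nat_lit 5) (.nd (nat_lit 6) 
(.lf (nat_lit 236938) (.g (nat_lit 2028) (.e (nat_lit 114712) (nat_lit 21) (.e (nat_lit 57852) (nat_lit 252) (.e (nat_lit 57421) (nat_lit 13) (.e (nat_lit 344133) (nat_lit 26) (.e (nat_lit 557103) (nat_lit 14) .nil))))) .nil)) 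
(.lf (nat_lit 237002) (.g (nat_lit 1782) (.e (nat_lit 114712) (nat_lit 21) (.e (nat_lit 57852) (nat_lit 252) (.e (nat_lit 57436) (nat_lit 17) (.e (nat_lit 376842) (nat_lit 11) (.e (nat_lit 426196) (nat_lit 9) .nil))))) .nil))) (.nd (nat_lit 6) 
(.lf (nat_lit 236970) (.g (nat_lit 1856) (.e (nat_lit 114712) (nat_lit 21) (.e (nat_lit 57852) (nat_lit 252) (.e (nat_lit 57431) (nat_lit 16) (.e (nat_lit 368676) (nat_lit 21) (.e (nat_lit 516131) (nat_lit 3) (.e (nat_lit 221219) (nat_lit 24) (.e (nat_lit 213000) (nat_lit 9) (.e (nat_lit 122) (nat_lit 5) .nil)))))))) (.g (nat_lit 4) .nil .nil))) 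
(.lf (nat_lit 237034) (.g (nat_lit 425) (.e (nat_lit 114712) (nat_lit 21) (.e (nat_lit 57853) (nat_lit 252) (.e (nat_lit 57435) (nat_lit 17) .nil))) .nil)))) (.nd (nat_lit 5) (.nd (nat_lit 6) 
(.lf (nat_lit 236954) (.g (nat_lit 1161) (.e (nat_lit 114712) (nat_lit 21) (.e (nat_lit 57852) (nat_lit 252) (.e (nat_lit 57424) (nat_lit 14) (.e (nat_lit 352276) (nat_lit 11) .nil)))) .nil)) 
(.lf (nat_lit 237018) (.g (nat_lit 2343) (.e (nat_lit 114712) (nat_lit 21) (.e (nat_lit 57853) (nat_lit 252) (.e (nat_lit 57419) (nat_lit 12) (.e (nat_lit 336213) (nat_lit 13) (.e (nat_lit 393267) (nat_lit 23) (.e (nat_lit 426446) (nat_lit 20) .nil)))))) (.g (nat_lit 4) .nil .nil)))) (.nd (nat_lit 6) 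
(.lf (nat_lit 236986) (.g (nat_lit 2281) (.e (nat_lit 114712) (nat_lit 21) (.e (nat_lit 57852) (nat_lit 252) (.e (nat_lit 57435) (nat_lit 17) (.e (nat_lit 376842) (nat_lit 11) (.e (nat_lit 426200) (nat_lit 9) (.e (nat_lit 433920) (nat_lit 20) .nil)))))) (.g (nat_lit 5) .nil .nil))) 
(.lf (nat_lit 237050) (.g (nat_lit 1403) (.e (nat_lit 114712) (nat_lit 21) (.e (nat_lit 57854) (nat_lit 252) (.e (nat_lit 57389) (nat_lit 5) (.e (nat_lit 114702) (nat_lit 20) (.e (nat_lit 2184) (nat_lit 144) (.e (nat_lit 720940) (nat_lit 22) (.e (nat_lit 90170) (nat_lit 13) (.e (nat_lit 179968) (nat_lit 20) .nil)))))))) (.g (nat_lit 4) .nil .nil))))))) 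
(.nd (nat_lit 3) (.nd (nat_lit 4) (.nd (nat_lit 5) (.nd (nat_lit 6) 
(.lf (nat_lit 236934) (.g (nat_lit 2220) (.e (nat_lit 114712) (nat_lit 21) (.e (nat_lit 57852) (nat_lit 252) (.e (nat_lit 57421) (nat_lit 13) (.e (nat_lit 344117) (nat_lit 21) (.e (nat_lit 516130) (nat_lit 3) (.e (nat_lit 229120) (nat_lit 1) (.e (nat_lit 57849) (nat_lit 252) (.e (nat_lit 57388) (nat_lit 5) .nil)))))))) (.g (nat_lit 4) .nil .nil))) 
(.lf (nat_lit 236998) (.g (nat_lit 1533) (.e (nat_lit 114712) (nat_lit 21) (.e (nat_lit 57852) (nat_lit 252) (.e (nat_lit 57436) (nat_lit 17) (.e (nat_lit 376842) (nat_lit 11) (.e (nat_lit 426186) (nat_lit 9) .nil))))) .nil))) (.nd (nat_lit 6) 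
(.lf (nat_lit 236966) (.g (nat_lit 1543) (.e (nat_lit 114712) (nat_lit 21) (.e (nat_lit 57852) (nat_lit 252) (.e (nat_lit 57427) (nat_lit 15) (.e (nat_lit 360487) (nat_lit 19) .nil)))) .nil)) 
(.lf (nat_lit 237030) (.g (nat_lit 1511) (.e (nat_lit 114712) (nat_lit 21) (.e (nat_lit 57853) (nat_lit 252) (.e (nat_lit 57424) (nat_lit 14) (.e (nat_lit 352278) (nat_lit 11) .nil)))) .nil)))) (.nd (nat_lit 5) (.nd (nat_lit 6) 
(.lf (nat_lit 236950) (.g (nat_lit 397) (.e (nat_lit 114712) (nat_lit 21) (.e (nat_lit 57852) (nat_lit 252) (.e (nat_lit 57424) (nat_lit 14) .nil))) .nil)) 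
(.lf (nat_lit 237014) (.g (nat_lit 1636) (.e (nat_lit 114712) (nat_lit 21) (.e (nat_lit 57853) (nat_lit 252) (.e (nat_lit 57412) (nat_lit 12) (.e (nat_lit 336212) (nat_lit 13) (.e (nat_lit 393270) (nat_lit 23) .nil))))) .nil))) (.nd (nat_lit 6) 
(.lf (nat_lit 236982) (.g (nat_lit 2808) (.e (nat_lit 114712) (nat_lit 21) (.e (nat_lit 57852) (nat_lit 252) (.e (nat_lit 57435) (nat_lit 17) (.e (nat_lit 376842) (nat_lit 11) (.e (nat_lit 426188) (nat_lit 9) (.e (nat_lit 433920) (nat_lit 20) .nil)))))) (.g (nat_lit 5) .nil .nil))) 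
(.lf (nat_lit 237046) (.g (nat_lit 1976) (.e (nat_lit 114712) (nat_lit 21) (.e (nat_lit 57853) (nat_lit 252) (.e (nat_lit 57436) (nat_lit 17) (.e (nat_lit 376842) (nat_lit 11) (.e (nat_lit 426258) (nat_lit 9) .nil))))) .nil))))) (.nd (nat_lit 4) (.nd (nat_lit 5) (.nd (nat_lit 6) 
(.lf (nat_lit 236942) (.g (nat_lit 875) (.e (nat_lit 114712) (nat_lit 21) (.e (nat_lit 57852) (nat_lit 252) (.e (nat_lit 57422) (nat_lit 13) .nil))) .nil)) 
(.lf (nat_lit 237006) (.g (nat_lit 2065) (.e (nat_lit 114712) (nat_lit 21) (.e (nat_lit 57852) (nat_lit 252) (.e (nat_lit 57436) (nat_lit 17) (.e (nat_lit 376842) (nat_lit 11) (.e (nat_lit 426213) (nat_lit 9) (.e (nat_lit 433920) (nat_lit 20) .nil)))))) (.g (nat_lit 5) .nil .nil)))) (.nd (nat_lit 6) 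
(.lf (nat_lit 236974) (.g (nat_lit 1834) (.e (nat_lit 114712) (nat_lit 21) (.e (nat_lit 57852) (nat_lit 252) (.e (nat_lit 57431) (nat_lit 16) (.e (nat_lit 368676) (nat_lit 21) (.e (nat_lit 516131) (nat_lit 3) (.e (nat_lit 221219) (nat_lit 24) (.e (nat_lit 213003) (nat_lit 9) (.e (nat_lit 124) (nat_lit 5) .nil)))))))) (.g (nat_lit 4) .nil .nil))) 
(.lf (nat_lit 237038) (.g (nat_lit 1730) (.e (nat_lit 114712) (nat_lit 21) (.e (nat_lit 57853) (nat_lit 252) (.e (nat_lit 57435) (nat_lit 17) (.e (nat_lit 376842) (nat_lit 11) (.e (nat_lit 426199) (nat_lit 9) .nil))))) .nil)))) (.nd (nat_lit 5) (.nd (nat_lit 6) 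
(.lf (nat_lit 236958) (.g (nat_lit 840) (.e (nat_lit 114712) (nat_lit 21) (.e (nat_lit 57852) (nat_lit 252) (.e (nat_lit 57426) (nat_lit 15) .nil))) .nil)) 
(.lf (nat_lit 237022) (.g (nat_lit 636) (.e (nat_lit 114712) (nat_lit 21) (.e (nat_lit 57853) (nat_lit 252) (.e (nat_lit 57423) (nat_lit 14) .nil))) .nil))) (.nd (nat_lit 6) 
(.lf (nat_lit 236990) (.g (nat_lit 1319) (.e (nat_lit 114712) (nat_lit 21) (.e (nat_lit 57852) (nat_lit 252) (.e (nat_lit 57436) (nat_lit 17) (.e (nat_lit 376838) (nat_lit 11) .nil)))) .nil)) 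
(.lf (nat_lit 237054) (.g (nat_lit 2969) (.e (nat_lit 114712) (nat_lit 21) (.e (nat_lit 57854) (nat_lit 252) (.e (nat_lit 57409) (nat_lit 12) (.e (nat_lit 336019) (nat_lit 3) (.e (nat_lit 98341) (nat_lit 20) .nil))))) .nil)))))))) (.nd (nat_lit 1) (.nd (nat_lit 2) (.nd (nat_lit 3) (.nd (nat_lit 4) (.nd (nat_lit 5) (.nd (nat_lit 6) 
(.lf (nat_lit 236929) (.g (nat_lit 1786) (.e (nat_lit 114712) (nat_lit 21) (.e (nat_lit 57852) (nat_lit 252) (.e (nat_lit 57420) (nat_lit 13) (.e (nat_lit 344133) (nat_lit 26) (.e (nat_lit 557105) (nat_lit 14) .nil))))) .nil)) 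
(.lf (nat_lit 236993) (.g (nat_lit 1047) (.e (nat_lit 114712) (nat_lit 21) (.e (nat_lit 57852) (nat_lit 252) (.e (nat_lit 57436) (nat_lit 17) (.e (nat_lit 376840) (nat_lit 11) .nil)))) .nil))) (.nd (nat_lit 6) 
(.lf (nat_lit 236961) (.g (nat_lit 2746) (.e (nat_lit 114712) (nat_lit 21) (.e (nat_lit 57852) (nat_lit 252) (.e (nat_lit 57427) (nat_lit 15) (.e (nat_lit 360450) (nat_lit 0) (.e (nat_lit 6923) (nat_lit 371) .nil))))) .nil)) 
(.lf (nat_lit 237025) (.g (nat_lit 1482) (.e (nat_lit 114712) (nat_lit 21) (.e (nat_lit 57853) (nat_lit 252) (.e (nat_lit 57424) (nat_lit 14) (.e (nat_lit 352273) (nat_lit 11) .nil)))) .nil)))) (.nd (nat_lit 5) (.nd (nat_lit 6) 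
(.lf (nat_lit 236945) (.g (nat_lit 1779) (.e (nat_lit 114712) (nat_lit 21) (.e (nat_lit 57852) (nat_lit 252) (.e (nat_lit 57423) (nat_lit 14) (.e (nat_lit 352271) (nat_lit 9) (.e (nat_lit 409603) (nat_lit 0) (.e (nat_lit 5629) (nat_lit 312) (.e (nat_lit 126) (nat_lit 5) .nil))))))) (.g (nat_lit 4) .nil .nil))) 
(.lf (nat_lit 237009) (.g (nat_lit 636) (.e (nat_lit 114712) (nat_lit 21) (.e (nat_lit 57853) (nat_lit 252) (.e (nat_lit 57405) (nat_lit 12) .nil))) .nil))) (.nd (nat_lit 6) 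
(.lf (nat_lit 236977) (.g (nat_lit 931) (.e (nat_lit 114712) (nat_lit 21) (.e (nat_lit 57852) (nat_lit 252) (.e (nat_lit 57435) (nat_lit 17) (.e (nat_lit 376840) (nat_lit 11) .nil)))) .nil)) 
(.lf (nat_lit 237041) (.g (nat_lit 430) (.e (nat_lit 114712) (nat_lit 21) (.e (nat_lit 57853) (nat_lit 252) (.e (nat_lit 57436) (nat_lit 17) .nil))) .nil))))) (.nd (nat_lit 4) (.nd (nat_lit 5) (.nd (nat_lit 6) 
(.lf (nat_lit 236937) (.g (nat_lit 2648) (.e (nat_lit 114712) (nat_lit 21) (.e (nat_lit 57852) (nat_lit 252) (.e (nat_lit 57421) (nat_lit 13) (.e (nat_lit 344130) (nat_lit 26) (.e (nat_lit 557104) (nat_lit 14) (.e (nat_lit 188160) (nat_lit 0) (.e (nat_lit 5195) (nat_lit 294) (.e (nat_lit 57390) (nat_lit 5) .nil)))))))) (.g (nat_lit 5) .nil .nil))) 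
(.lf (nat_lit 237001) (.g (nat_lit 3065) (.e (nat_lit 114712) (nat_lit 21) (.e (nat_lit 57852) (nat_lit 252) (.e (nat_lit 57436) (nat_lit 17) (.e (nat_lit 376842) (nat_lit 11) (.e (nat_lit 426189) (nat_lit 9) (.e (nat_lit 426448) (nat_lit 20) .nil)))))) (.g (nat_lit 6) .nil .nil)))) (.nd (nat_lit 6) 
(.lf (nat_lit 236969) (.g (nat_lit 1675) (.e (nat_lit 114712) (nat_lit 21) (.e (nat_lit 57852) (nat_lit 252) (.e (nat_lit 57431) (nat_lit 16) (.e (nat_lit 368676) (nat_lit 21) (.e (nat_lit 516131) (nat_lit 3) .nil))))) .nil)) 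
(.lf (nat_lit 237033) (.g (nat_lit 1621) (.e (nat_lit 114712) (nat_lit 21) (.e (nat_lit 57853) (nat_lit 252) (.e (nat_lit 57427) (nat_lit 15) (.e (nat_lit 360487) (nat_lit 19) .nil)))) .nil)))) (.nd (nat_lit 5) (.nd (nat_lit 6) 
(.lf (nat_lit 236953) (.g (nat_lit 2086) (.e (nat_lit 114712) (nat_lit 21) (.e (nat_lit 57852) (nat_lit 252) (.e (nat_lit 57424) (nat_lit 14) (.e (nat_lit 352274) (nat_lit 11) .nil)))) .nil)) 
(.lf (nat_lit 237017) (.g (nat_lit 523) (.e (nat_lit 114712) (nat_lit 21) (.e (nat_lit 57853) (nat_lit 252) (.e (nat_lit 57419) (nat_lit 12) .nil))) .nil))) (.nd (nat_lit 6) 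
(.lf (nat_lit 236985) (.g (nat_lit 2098) (.e (nat_lit 114712) (nat_lit 21) (.e (nat_lit 57852) (nat_lit 252) (.e (nat_lit 57435) (nat_lit 17) (.e (nat_lit 376842) (nat_lit 11) (.e (nat_lit 426196) (nat_lit 9) (.e (nat_lit 426446) (nat_lit 20) .nil)))))) (.g (nat_lit 4) .nil .nil))) 
(.lf (nat_lit 237049) (.g (nat_lit 513) (.e (nat_lit 114712) (nat_lit 21) (.e (nat_lit 57854) (nat_lit 252) (.e (nat_lit 57366) (nat_lit 1) .nil))) .nil)))))) (.nd (nat_lit 3) (.nd (nat_lit 4) (.nd (nat_lit 5) (.nd (nat_lit 6) 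
(.lf (nat_lit 236933) (.g (nat_lit 3422) (.e (nat_lit 114712) (nat_lit 21) (.e (nat_lit 57852) (nat_lit 252) (.e (nat_lit 57421) (nat_lit 13) (.e (nat_lit 344117) (nat_lit 21) (.e (nat_lit 516129) (nat_lit 3) (.e (nat_lit 229120) (nat_lit 1) (.e (nat_lit 57854) (nat_lit 252) (.e (nat_lit 57389) (nat_lit 5) .nil)))))))) (.g (nat_lit 5) .nil .nil))) 
(.lf (nat_lit 236997) (.g (nat_lit 1919) (.e (nat_lit 114712) (nat_lit 21) (.e (nat_lit 57852) (nat_lit 252) (.e (nat_lit 57436) (nat_lit 17) (.e (nat_lit 376840) (nat_lit 11) (.e (nat_lit 426262) (nat_lit 9) (.e (nat_lit 426447) (nat_lit 20) .nil)))))) (.g (nat_lit 6) .nil .nil)))) (.nd (nat_lit 6) 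
(.lf (nat_lit 236965) (.g (nat_lit 3915) (.e (nat_lit 114712) (nat_lit 21) (.e (nat_lit 57852) (nat_lit 252) (.e (nat_lit 57427) (nat_lit 15) (.e (nat_lit 360451) (nat_lit 0) (.e (nat_lit 6923) (nat_lit 371) (.e (nat_lit 2628) (nat_lit 164) (.e (nat_lit 179968) (nat_lit 20) .nil))))))) (.g (nat_lit 6) .nil .nil))) 
(.lf (nat_lit 237029) (.g (nat_lit 1899) (.e (nat_lit 114712) (nat_lit 21) (.e (nat_lit 57853) (nat_lit 252) (.e (nat_lit 57424) (nat_lit 14) (.e (nat_lit 352277) (nat_lit 11) (.e (nat_lit 426189) (nat_lit 9) .nil))))) .nil)))) (.nd (nat_lit 5) (.nd (nat_lit 6) 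
(.lf (nat_lit 236949) (.g (nat_lit 1497) (.e (nat_lit 114712) (nat_lit 21) (.e (nat_lit 57852) (nat_lit 252) (.e (nat_lit 57423) (nat_lit 14) (.e (nat_lit 352277) (nat_lit 11) (.e (nat_lit 426189) (nat_lit 9) .nil))))) .nil)) 
(.lf (nat_lit 237013) (.g (nat_lit 663) (.e (nat_lit 114712) (nat_lit 21) (.e (nat_lit 57853) (nat_lit 252) (.e (nat_lit 57412) (nat_lit 12) .nil))) .nil))) (.nd (nat_lit 6) 
(.lf (nat_lit 236981) (.g (nat_lit 1607) (.e (nat_lit 114712) (nat_lit 21) (.e (nat_lit 57852) (nat_lit 252) (.e (nat_lit 57435) (nat_lit 17) (.e (nat_lit 376842) (nat_lit 11) (.e (nat_lit 426186) (nat_lit 9) .nil))))) .nil)) 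
(.lf (nat_lit 237045) (.g (nat_lit 2018) (.e (nat_lit 114712) (nat_lit 21) (.e (nat_lit 57853) (nat_lit 252) (.e (nat_lit 57436) (nat_lit 17) (.e (nat_lit 376842) (nat_lit 11) (.e (nat_lit 426196) (nat_lit 9) .nil))))) .nil))))) (.nd (nat_lit 4) (.nd (nat_lit 5) (.nd (nat_lit 6) 
(.lf (nat_lit 236941) (.g (nat_lit 1787) (.e (nat_lit 114712) (nat_lit 21) (.e (nat_lit 57852) (nat_lit 252) (.e (nat_lit 57421) (nat_lit 13) (.e (nat_lit 344149) (nat_lit 33) (.e (nat_lit 614420) (nat_lit 6) (.e (nat_lit 196352) (nat_lit 5) .nil)))))) (.g (nat_lit 5) .nil .nil))) 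
(.lf (nat_lit 237005) (.g (nat_lit 2039) (.e (nat_lit 114712) (nat_lit 21) (.e (nat_lit 57852) (nat_lit 252) (.e (nat_lit 57436) (nat_lit 17) (.e (nat_lit 376842) (nat_lit 11) (.e (nat_lit 426204) (nat_lit 9) (.e (nat_lit 433920) (nat_lit 20) .nil)))))) (.g (nat_lit 5) .nil .nil)))) (.nd (nat_lit 6) 
(.lf (nat_lit 236973) (.g (nat_lit 1726) (.e (nat_lit 114712) (nat_lit 21) (.e (nat_lit 57852) (nat_lit 252) (.e (nat_lit 57431) (nat_lit 16) (.e (nat_lit 368676) (nat_lit 21) (.e (nat_lit 516131) (nat_lit 3) (.e (nat_lit 221219) (nat_lit 24) (.e (nat_lit 213003) (nat_lit 9) (.e (nat_lit 122) (nat_lit 5) .nil)))))))) (.g (nat_lit 4) .nil .nil))) 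
(.lf (nat_lit 237037) (.g (nat_lit 2165) (.e (nat_lit 114712) (nat_lit 21) (.e (nat_lit 57853) (nat_lit 252) (.e (nat_lit 57435) (nat_lit 17) (.e (nat_lit 376842) (nat_lit 11) (.e (nat_lit 426196) (nat_lit 9) .nil))))) .nil)))) (.nd (nat_lit 5) (.nd (nat_lit 6) 
(.lf (nat_lit 236957) (.g (nat_lit 2028) (.e (nat_lit 114712) (nat_lit 21) (.e (nat_lit 57852) (nat_lit 252) (.e (nat_lit 57424) (nat_lit 14) (.e (nat_lit 352278) (nat_lit 11) .nil)))) .nil)) 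
(.lf (nat_lit 237021) (.g (nat_lit 636) (.e (nat_lit 114712) (nat_lit 21) (.e (nat_lit 57853) (nat_lit 252) (.e (nat_lit 57422) (nat_lit 13) .nil))) .nil))) (.nd (nat_lit 6) 
(.lf (nat_lit 236989) (.g (nat_lit 2251) (.e (nat_lit 114712) (nat_lit 21) (.e (nat_lit 57852) (nat_lit 252) (.e (nat_lit 57435) (nat_lit 17) (.e (nat_lit 376842) (nat_lit 11) (.e (nat_lit 426258) (nat_lit 9) (.e (nat_lit 426445) (nat_lit 20) .nil)))))) (.g (nat_lit 5) .nil .nil))) 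
(.lf (nat_lit 237053) (.g (nat_lit 477) (.e (nat_lit 114712) (nat_lit 21) (.e (nat_lit 57854) (nat_lit 252) (.e (nat_lit 57405) (nat_lit 12) .nil))) .nil))))))) (.nd (nat_lit 2) (.nd (nat_lit 3) (.nd (nat_lit 4) (.nd (nat_lit 5) (.nd (nat_lit 6) 
(.lf (nat_lit 236931) (.g (nat_lit 1131) (.e (nat_lit 114712) (nat_lit 21) (.e (nat_lit 57852) (nat_lit 252) (.e (nat_lit 57421) (nat_lit 13) (.e (nat_lit 344071) (nat_lit 8) .nil)))) .nil)) 
(.lf (nat_lit 236995) (.g (nat_lit 1490) (.e (nat_lit 114712) (nat_lit 21) (.e (nat_lit 57852) (nat_lit 252) (.e (nat_lit 57436) (nat_lit 17) (.e (nat_lit 376840) (nat_lit 11) (.e (nat_lit 426259) (nat_lit 9) (.e (nat_lit 433920) (nat_lit 20) .nil)))))) (.g (nat_lit 5) .nil .nil)))) (.nd (nat_lit 6) 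
(.lf (nat_lit 236963) (.g (nat_lit 3076) (.e (nat_lit 114712) (nat_lit 21) (.e (nat_lit 57852) (nat_lit 252) (.e (nat_lit 57427) (nat_lit 15) (.e (nat_lit 360451) (nat_lit 0) (.e (nat_lit 6923) (nat_lit 371) (.e (nat_lit 2618) (nat_lit 164) (.e (nat_lit 179968) (nat_lit 20) .nil))))))) (.g (nat_lit 4) .nil .nil))) 
(.lf (nat_lit 237027) (.g (nat_lit 1343) (.e (nat_lit 114712) (nat_lit 21) (.e (nat_lit 57853) (nat_lit 252) (.e (nat_lit 57424) (nat_lit 14) (.e (nat_lit 352276) (nat_lit 11) .nil)))) .nil)))) (.nd (nat_lit 5) (.nd (nat_lit 6) 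
(.lf (nat_lit 236947) (.g (nat_lit 1134) (.e (nat_lit 114712) (nat_lit 21) (.e (nat_lit 57852) (nat_lit 252) (.e (nat_lit 57423) (nat_lit 14) (.e (nat_lit 352276) (nat_lit 11) .nil)))) .nil)) 
(.lf (nat_lit 237011) (.g (nat_lit 1902) (.e (nat_lit 114712) (nat_lit 21) (.e (nat_lit 57853) (nat_lit 252) (.e (nat_lit 57409) (nat_lit 12) (.e (nat_lit 336211) (nat_lit 13) (.e (nat_lit 393267) (nat_lit 23) (.e (nat_lit 426446) (nat_lit 20) .nil)))))) (.g (nat_lit 4) .nil .nil)))) (.nd (nat_lit 6) 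
(.lf (nat_lit 236979) (.g (nat_lit 1424) (.e (nat_lit 114712) (nat_lit 21) (.e (nat_lit 57852) (nat_lit 252) (.e (nat_lit 57435) (nat_lit 17) (.e (nat_lit 376840) (nat_lit 11) (.e (nat_lit 426259) (nat_lit 9) (.e (nat_lit 433920) (nat_lit 20) .nil)))))) (.g (nat_lit 5) .nil .nil))) 
(.lf (nat_lit 237043) (.g (nat_lit 1313) (.e (nat_lit 114712) (nat_lit 21) (.e (nat_lit 57853) (nat_lit 252) (.e (nat_lit 57436) (nat_lit 17) (.e (nat_lit 376838) (nat_lit 11) (.e (nat_lit 426189) (nat_lit 9) .nil))))) .nil))))) (.nd (nat_lit 4) (.nd (nat_lit 5) (.nd (nat_lit 6) 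
(.lf (nat_lit 236939) (.g (nat_lit 2542) (.e (nat_lit 114712) (nat_lit 21) (.e (nat_lit 57852) (nat_lit 252) (.e (nat_lit 57421) (nat_lit 13) (.e (nat_lit 344133) (nat_lit 26) (.e (nat_lit 557103) (nat_lit 14) (.e (nat_lit 188160) (nat_lit 0) (.e (nat_lit 5199) (nat_lit 294) (.e (nat_lit 57390) (nat_lit 5) .nil)))))))) (.g (nat_lit 4) .nil .nil))) 
(.lf (nat_lit 237003) (.g (nat_lit 2012) (.e (nat_lit 114712) (nat_lit 21) (.e (nat_lit 57852) (nat_lit 252) (.e (nat_lit 57436) (nat_lit 17) (.e (nat_lit 376842) (nat_lit 11) (.e (nat_lit 426196) (nat_lit 9) (.e (nat_lit 426446) (nat_lit 20) .nil)))))) (.g (nat_lit 4) .nil .nil)))) (.nd (nat_lit 6) 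
(.lf (nat_lit 236971) (.g (nat_lit 1933) (.e (nat_lit 114712) (nat_lit 21) (.e (nat_lit 57852) (nat_lit 252) (.e (nat_lit 57431) (nat_lit 16) (.e (nat_lit 368676) (nat_lit 21) (.e (nat_lit 516131) (nat_lit 3) (.e (nat_lit 221219) (nat_lit 24) (.e (nat_lit 213000) (nat_lit 9) (.e (nat_lit 124) (nat_lit 5) .nil)))))))) (.g (nat_lit 4) .nil .nil))) 
(.lf (nat_lit 237035) (.g (nat_lit 1196) (.e (nat_lit 114712) (nat_lit 21) (.e (nat_lit 57853) (nat_lit 252) (.e (nat_lit 57435) (nat_lit 17) (.e (nat_lit 376839) (nat_lit 11) .nil)))) .nil)))) (.nd (nat_lit 5) (.nd (nat_lit 6) 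
(.lf (nat_lit 236955) (.g (nat_lit 1239) (.e (nat_lit 114712) (nat_lit 21) (.e (nat_lit 57852) (nat_lit 252) (.e (nat_lit 57424) (nat_lit 14) (.e (nat_lit 352276) (nat_lit 11) (.e (nat_lit 426230) (nat_lit 9) .nil))))) .nil)) 
(.lf (nat_lit 237019) (.g (nat_lit 1636) (.e (nat_lit 114712) (nat_lit 21) (.e (nat_lit 57853) (nat_lit 252) (.e (nat_lit 57419) (nat_lit 12) (.e (nat_lit 336213) (nat_lit 13) (.e (nat_lit 393269) (nat_lit 23) .nil))))) .nil))) (.nd (nat_lit 6) 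
(.lf (nat_lit 236987) (.g (nat_lit 2165) (.e (nat_lit 114712) (nat_lit 21) (.e (nat_lit 57852) (nat_lit 252) (.e (nat_lit 57435) (nat_lit 17) (.e (nat_lit 376842) (nat_lit 11) (.e (nat_lit 426204) (nat_lit 9) (.e (nat_lit 433920) (nat_lit 20) .nil)))))) (.g (nat_lit 5) .nil .nil))) 
(.lf (nat_lit 237051) (.g (nat_lit 2666) (.e (nat_lit 114712) (nat_lit 21) (.e (nat_lit 57854) (nat_lit 252) (.e (nat_lit 57389) (nat_lit 5) (.e (nat_lit 114702) (nat_lit 20) (.e (nat_lit 2198) (nat_lit 144) (.e (nat_lit 720940) (nat_lit 22) (.e (nat_lit 90170) (nat_lit 13) (.e (nat_lit 179968) (nat_lit 20) .nil)))))))) (.g (nat_lit 7) .nil .nil))))))) 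
(.nd (nat_lit 3) (.nd (nat_lit 4) (.nd (nat_lit 5) (.nd (nat_lit 6) 
(.lf (nat_lit 236935) (.g (nat_lit 1608) (.e (nat_lit 114712) (nat_lit 21) (.e (nat_lit 57852) (nat_lit 252) (.e (nat_lit 57421) (nat_lit 13) (.e (nat_lit 344129) (nat_lit 26) (.e (nat_lit 557104) (nat_lit 14) .nil))))) .nil)) 
(.lf (nat_lit 236999) (.g (nat_lit 2934) (.e (nat_lit 114712) (nat_lit 21) (.e (nat_lit 57852) (nat_lit 252) (.e (nat_lit 57436) (nat_lit 17) (.e (nat_lit 376842) (nat_lit 11) (.e (nat_lit 426187) (nat_lit 9) (.e (nat_lit 426446) (nat_lit 20) .nil)))))) (.g (nat_lit 6) .nil .nil)))) (.nd (nat_lit 6) 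
(.lf (nat_lit 236967) (.g (nat_lit 2136) (.e (nat_lit 114712) (nat_lit 21) (.e (nat_lit 57852) (nat_lit 252) (.e (nat_lit 57427) (nat_lit 15) (.e (nat_lit 360487) (nat_lit 19) (.e (nat_lit 753688) (nat_lit 9) (.e (nat_lit 179968) (nat_lit 20) .nil)))))) (.g (nat_lit 5) .nil .nil))) 
(.lf (nat_lit 237031) (.g (nat_lit 2670) (.e (nat_lit 114712) (nat_lit 21) (.e (nat_lit 57853) (nat_lit 252) (.e (nat_lit 57427) (nat_lit 15) (.e (nat_lit 360451) (nat_lit 0) (.e (nat_lit 6923) (nat_lit 371) .nil))))) .nil)))) (.nd (nat_lit 5) (.nd (nat_lit 6) 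
(.lf (nat_lit 236951) (.g (nat_lit 1792) (.e (nat_lit 114712) (nat_lit 21) (.e (nat_lit 57852) (nat_lit 252) (.e (nat_lit 57424) (nat_lit 14) (.e (nat_lit 352273) (nat_lit 11) .nil)))) .nil)) 
(.lf (nat_lit 237015) (.g (nat_lit 1253) (.e (nat_lit 114712) (nat_lit 21) (.e (nat_lit 57853) (nat_lit 252) (.e (nat_lit 57412) (nat_lit 12) (.e (nat_lit 336219) (nat_lit 13) .nil)))) .nil))) (.nd (nat_lit 6) 
(.lf (nat_lit 236983) (.g (nat_lit 3186) (.e (nat_lit 114712) (nat_lit 21) (.e (nat_lit 57852) (nat_lit 252) (.e (nat_lit 57435) (nat_lit 17) (.e (nat_lit 376842) (nat_lit 11) (.e (nat_lit 426189) (nat_lit 9) (.e (nat_lit 426448) (nat_lit 20) .nil)))))) (.g (nat_lit 6) .nil .nil))) 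
(.lf (nat_lit 237047) (.g (nat_lit 605) (.e (nat_lit 114712) (nat_lit 21) (.e (nat_lit 57853) (nat_lit 252) (.e (nat_lit 57438) (nat_lit 17) .nil))) .nil))))) (.nd (nat_lit 4) (.nd (nat_lit 5) (.nd (nat_lit 6) 
(.lf (nat_lit 236943) (.g (nat_lit 380) (.e (nat_lit 114712) (nat_lit 21) (.e (nat_lit 57852) (nat_lit 252) (.e (nat_lit 57423) (nat_lit 14) .nil))) .nil)) 
(.lf (nat_lit 237007) (.g (nat_lit 2231) (.e (nat_lit 114712) (nat_lit 21) (.e (nat_lit 57852) (nat_lit 252) (.e (nat_lit 57436) (nat_lit 17) (.e (nat_lit 376842) (nat_lit 11) (.e (nat_lit 426258) (nat_lit 9) (.e (nat_lit 426445) (nat_lit 20) .nil)))))) (.g (nat_lit 5) .nil .nil)))) (.nd (nat_lit 6) 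
(.lf (nat_lit 236975) (.g (nat_lit 875) (.e (nat_lit 114712) (nat_lit 21) (.e (nat_lit 57852) (nat_lit 252) (.e (nat_lit 57434) (nat_lit 17) .nil))) .nil)) 
(.lf (nat_lit 237039) (.g (nat_lit 3054) (.e (nat_lit 114712) (nat_lit 21) (.e (nat_lit 57853) (nat_lit 252) (.e (nat_lit 57435) (nat_lit 17) (.e (nat_lit 376842) (nat_lit 11) (.e (nat_lit 426200) (nat_lit 9) (.e (nat_lit 426446) (nat_lit 20) .nil)))))) (.g (nat_lit 6) .nil .nil))))) (.nd (nat_lit 5) (.nd (nat_lit 6) 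
(.lf (nat_lit 236959) (.g (nat_lit 1808) (.e (nat_lit 114712) (nat_lit 21) (.e (nat_lit 57852) (nat_lit 252) (.e (nat_lit 57426) (nat_lit 15) (.e (nat_lit 360449) (nat_lit 0) (.e (nat_lit 6923) (nat_lit 371) .nil))))) .nil)) 
(.lf (nat_lit 237023) (.g (nat_lit 1571) (.e (nat_lit 114712) (nat_lit 21) (.e (nat_lit 57853) (nat_lit 252) (.e (nat_lit 57423) (nat_lit 14) (.e (nat_lit 352276) (nat_lit 11) .nil)))) .nil))) (.nd (nat_lit 6) 
(.lf (nat_lit 236991) (.g (nat_lit 1442) (.e (nat_lit 114712) (nat_lit 21) (.e (nat_lit 57852) (nat_lit 252) (.e (nat_lit 57436) (nat_lit 17) (.e (nat_lit 376838) (nat_lit 11) (.e (nat_lit 426189) (nat_lit 9) .nil))))) .nil)) 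
(.lf (nat_lit 237055) (.g (nat_lit 3706) (.e (nat_lit 114712) (nat_lit 21) (.e (nat_lit 57854) (nat_lit 252) (.e (nat_lit 57409) (nat_lit 12) (.e (nat_lit 336019) (nat_lit 3) (.e (nat_lit 98341) (nat_lit 20) (.e (nat_lit 229120) (nat_lit 1) (.e (nat_lit 57848) (nat_lit 252) (.e (nat_lit 57390) (nat_lit 5) .nil)))))))) (.g (nat_lit 5) .nil .nil))))))))))

noncomputable def tv3090 : DT := (.nd (nat_lit 0) (.nd (nat_lit 1) (.nd (nat_lit 2) (.nd (nat_lit 3) (.nd (nat_lit 4) (.nd (nat_lit 5) 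
(.lf (nat_lit 237056) (.g (nat_lit 4168) (.e (nat_lit 114712) (nat_lit 21) (.e (nat_lit 57854) (nat_lit 252) (.e (nat_lit 57409) (nat_lit 12) (.e (nat_lit 336019) (nat_lit 3) (.e (nat_lit 98341) (nat_lit 20) (.e (nat_lit 229120) (nat_lit 1) (.e (nat_lit 57849) (nat_lit 252) (.e (nat_lit 57388) (nat_lit 5) .nil)))))))) (.g (nat_lit 5) .nil .nil))) 
(.lf (nat_lit 237088) (.g (nat_lit 1065) (.e (nat_lit 114712) (nat_lit 21) (.e (nat_lit 57854) (nat_lit 252) (.e (nat_lit 57435) (nat_lit 17) (.e (nat_lit 376839) (nat_lit 11) .nil)))) .nil))) (.nd (nat_lit 5) 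
(.lf (nat_lit 237072) (.g (nat_lit 1533) (.e (nat_lit 114712) (nat_lit 21) (.e (nat_lit 57854) (nat_lit 252) (.e (nat_lit 57409) (nat_lit 12) (.e (nat_lit 336148) (nat_lit 9) .nil)))) .nil)) 
(.lf (nat_lit 237104) (.g (nat_lit 1790) (.e (nat_lit 114712) (nat_lit 21) (.e (nat_lit 57870) (nat_lit 264) (.e (nat_lit 1221) (nat_lit 90) (.e (nat_lit 81954) (nat_lit 23) (.e (nat_lit 98321) (nat_lit 17) (.e (nat_lit 7936) (nat_lit 220) (.e (nat_lit 720955) (nat_lit 25) .nil))))))) (.g (nat_lit 4) .nil .nil))))) (.nd (nat_lit 4) (.nd (nat_lit 5) 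
(.lf (nat_lit 237064) (.g (nat_lit 2002) (.e (nat_lit 114712) (nat_lit 21) (.e (nat_lit 57854) (nat_lit 252) (.e (nat_lit 57409) (nat_lit 12) (.e (nat_lit 336115) (nat_lit 9) (.e (nat_lit 336427) (nat_lit 29) (.e (nat_lit 450304) (nat_lit 5) .nil)))))) (.g (nat_lit 5) .nil .nil))) 
(.lf (nat_lit 237096) (.g (nat_lit 1627) (.e (nat_lit 114712) (nat_lit 21) (.e (nat_lit 57854) (nat_lit 252) (.e (nat_lit 57436) (nat_lit 17) (.e (nat_lit 376840) (nat_lit 11) (.e (nat_lit 426260) (nat_lit 9) (.e (nat_lit 426445) (nat_lit 20) .nil)))))) (.g (nat_lit 5) .nil .nil)))) (.nd (nat_lit 5) 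
(.lf (nat_lit 237080) (.g (nat_lit 1771) (.e (nat_lit 114712) (nat_lit 21) (.e (nat_lit 57854) (nat_lit 252) (.e (nat_lit 57409) (nat_lit 12) (.e (nat_lit 336211) (nat_lit 13) (.e (nat_lit 393274) (nat_lit 23) .nil))))) .nil)) 
(.lf (nat_lit 237112) (.g (nat_lit 1479) (.e (nat_lit 114712) (nat_lit 21) (.e (nat_lit 57930) (nat_lit 282) (.e (nat_lit 163920) (nat_lit 14) (.e (nat_lit 442427) (nat_lit 23) .nil)))) .nil))))) (.nd (nat_lit 3) (.nd (nat_lit 4) (.nd (nat_lit 5) 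
(.lf (nat_lit 237060) (.g (nat_lit 3198) (.e (nat_lit 114712) (nat_lit 21) (.e (nat_lit 57854) (nat_lit 252) (.e (nat_lit 57409) (nat_lit 12) (.e (nat_lit 336019) (nat_lit 3) (.e (nat_lit 98342) (nat_lit 20) (.e (nat_lit 221220) (nat_lit 25) (.e (nat_lit 229120) (nat_lit 5) .nil))))))) (.g (nat_lit 4) .nil .nil))) 
(.lf (nat_lit 237092) (.g (nat_lit 3000) (.e (nat_lit 114712) (nat_lit 21) (.e (nat_lit 57854) (nat_lit 252) (.e (nat_lit 57435) (nat_lit 17) (.e (nat_lit 376842) (nat_lit 11) (.e (nat_lit 426198) (nat_lit 9) (.e (nat_lit 426446) (nat_lit 20) .nil)))))) (.g (nat_lit 6) .nil .nil)))) (.nd (nat_lit 5) 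
(.lf (nat_lit 237076) (.g (nat_lit 1745) (.e (nat_lit 114712) (nat_lit 21) (.e (nat_lit 57854) (nat_lit 252) (.e (nat_lit 57409) (nat_lit 12) (.e (nat_lit 336211) (nat_lit 13) (.e (nat_lit 393266) (nat_lit 23) .nil))))) .nil)) 
(.lf (nat_lit 237108) (.g (nat_lit 3726) (.e (nat_lit 114712) (nat_lit 21) (.e (nat_lit 57929) (nat_lit 282) (.e (nat_lit 163923) (nat_lit 15) (.e (nat_lit 450587) (nat_lit 10) (.e (nat_lit 573475) (nat_lit 12) (.e (nat_lit 57516) (nat_lit 42) (.e (nat_lit 671744) (nat_lit 0) (.e (nat_lit 1281) (nat_lit 94) .nil)))))))) (.g (nat_lit 6) .nil .nil))))) (.nd (nat_lit 4) (.nd (nat_lit 5) 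
(.lf (nat_lit 237068) (.g (nat_lit 1676) (.e (nat_lit 114712) (nat_lit 21) (.e (nat_lit 57854) (nat_lit 252) (.e (nat_lit 57409) (nat_lit 12) (.e (nat_lit 336115) (nat_lit 9) (.e (nat_lit 343808) (nat_lit 32) (.e (nat_lit 474880) (nat_lit 5) .nil)))))) (.g (nat_lit 4) .nil .nil))) 
(.lf (nat_lit 237100) (.g (nat_lit 1850) (.e (nat_lit 114712) (nat_lit 21) (.e (nat_lit 57854) (nat_lit 252) (.e (nat_lit 57436) (nat_lit 17) (.e (nat_lit 376842) (nat_lit 11) (.e (nat_lit 426258) (nat_lit 9) .nil))))) .nil))) (.nd (nat_lit 5) 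
(.lf (nat_lit 237084) (.g (nat_lit 1622) (.e (nat_lit 114712) (nat_lit 21) (.e (nat_lit 57854) (nat_lit 252) (.e (nat_lit 57423) (nat_lit 14) (.e (nat_lit 352276) (nat_lit 11) .nil)))) .nil)) 
(.lf (nat_lit 237116) (.g (nat_lit 1245) (.e (nat_lit 114712) (nat_lit 21) (.e (nat_lit 57930) (nat_lit 282) (.e (nat_lit 163923) (nat_lit 15) (.e (nat_lit 450581) (nat_lit 5) .nil)))) .nil)))))) (.nd (nat_lit 2) (.nd (nat_lit 3) (.nd (nat_lit 4) (.nd (nat_lit 5) 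
(.lf (nat_lit 237058) (.g (nat_lit 2963) (.e (nat_lit 114712) (nat_lit 21) (.e (nat_lit 57854) (nat_lit 252) (.e (nat_lit 57409) (nat_lit 12) (.e (nat_lit 336019) (nat_lit 3) (.e (nat_lit 98342) (nat_lit 20) .nil))))) .nil)) 
(.lf (nat_lit 237090) (.g (nat_lit 2827) (.e (nat_lit 114712) (nat_lit 21) (.e (nat_lit 57854) (nat_lit 252) (.e (nat_lit 57435) (nat_lit 17) (.e (nat_lit 376842) (nat_lit 11) (.e (nat_lit 426190) (nat_lit 9) (.e (nat_lit 426446) (nat_lit 20) .nil)))))) (.g (nat_lit 6) .nil .nil)))) (.nd (nat_lit 5) 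
(.lf (nat_lit 237074) (.g (nat_lit 1993) (.e (nat_lit 114712) (nat_lit 21) (.e (nat_lit 57854) (nat_lit 252) (.e (nat_lit 57409) (nat_lit 12) (.e (nat_lit 336210) (nat_lit 13) (.e (nat_lit 393274) (nat_lit 23) (.e (nat_lit 433920) (nat_lit 20) .nil)))))) (.g (nat_lit 5) .nil .nil))) 
(.lf (nat_lit 237106) (.g (nat_lit 3179) (.e (nat_lit 114712) (nat_lit 21) (.e (nat_lit 57929) (nat_lit 282) (.e (nat_lit 163923) (nat_lit 15) (.e (nat_lit 450587) (nat_lit 10) (.e (nat_lit 573456) (nat_lit 9) (.e (nat_lit 1288) (nat_lit 95) (.e (nat_lit 123195) (nat_lit 266) (.e (nat_lit 57389) (nat_lit 5) .nil)))))))) (.g (nat_lit 5) .nil .nil))))) (.nd (nat_lit 4) (.nd (nat_lit 5) 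
(.lf (nat_lit 237066) (.g (nat_lit 1690) (.e (nat_lit 114712) (nat_lit 21) (.e (nat_lit 57854) (nat_lit 252) (.e (nat_lit 57409) (nat_lit 12) (.e (nat_lit 336115) (nat_lit 9) (.e (nat_lit 343808) (nat_lit 29) (.e (nat_lit 450304) (nat_lit 5) .nil)))))) (.g (nat_lit 4) .nil .nil))) 
(.lf (nat_lit 237098) (.g (nat_lit 2814) (.e (nat_lit 114712) (nat_lit 21) (.e (nat_lit 57854) (nat_lit 252) (.e (nat_lit 57436) (nat_lit 17) (.e (nat_lit 376842) (nat_lit 11) (.e (nat_lit 426190) (nat_lit 9) (.e (nat_lit 426448) (nat_lit 20) .nil)))))) (.g (nat_lit 0) .nil .nil)))) (.nd (nat_lit 5) 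
(.lf (nat_lit 237082) (.g (nat_lit 1204) (.e (nat_lit 114712) (nat_lit 21) (.e (nat_lit 57854) (nat_lit 252) (.e (nat_lit 57409) (nat_lit 12) (.e (nat_lit 343808) (nat_lit 13) .nil)))) .nil)) 
(.lf (nat_lit 237114) (.g (nat_lit 2563) (.e (nat_lit 114712) (nat_lit 21) (.e (nat_lit 57930) (nat_lit 282) (.e (nat_lit 163920) (nat_lit 14) (.e (nat_lit 442433) (nat_lit 25) (.e (nat_lit 245788) (nat_lit 11) (.e (nat_lit 24320) (nat_lit 20) .nil)))))) (.g (nat_lit 5) .nil .nil)))))) (.nd (nat_lit 3) (.nd (nat_lit 4) (.nd (nat_lit 5) 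
(.lf (nat_lit 237062) (.g (nat_lit 1975) (.e (nat_lit 114712) (nat_lit 21) (.e (nat_lit 57854) (nat_lit 252) (.e (nat_lit 57409) (nat_lit 12) (.e (nat_lit 336114) (nat_lit 9) (.e (nat_lit 336440) (nat_lit 32) (.e (nat_lit 474880) (nat_lit 5) .nil)))))) (.g (nat_lit 5) .nil .nil))) 
(.lf (nat_lit 237094) (.g (nat_lit 2070) (.e (nat_lit 114712) (nat_lit 21) (.e (nat_lit 57854) (nat_lit 252) (.e (nat_lit 57435) (nat_lit 17) (.e (nat_lit 376842) (nat_lit 11) (.e (nat_lit 426258) (nat_lit 9) .nil))))) .nil))) (.nd (nat_lit 5) 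
(.lf (nat_lit 237078) (.g (nat_lit 2363) (.e (nat_lit 114712) (nat_lit 21) (.e (nat_lit 57854) (nat_lit 252) (.e (nat_lit 57409) (nat_lit 12) (.e (nat_lit 336211) (nat_lit 13) (.e (nat_lit 393268) (nat_lit 23) (.e (nat_lit 426449) (nat_lit 20) .nil)))))) (.g (nat_lit 5) .nil .nil))) 
(.lf (nat_lit 237110) (.g (nat_lit 3364) (.e (nat_lit 114712) (nat_lit 21) (.e (nat_lit 57930) (nat_lit 282) (.e (nat_lit 163920) (nat_lit 14) (.e (nat_lit 442424) (nat_lit 22) (.e (nat_lit 196653) (nat_lit 11) (.e (nat_lit 24320) (nat_lit 20) .nil)))))) (.g (nat_lit 5) .nil .nil))))) (.nd (nat_lit 4) (.nd (nat_lit 5) 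
(.lf (nat_lit 237070) (.g (nat_lit 1779) (.e (nat_lit 114712) (nat_lit 21) (.e (nat_lit 57854) (nat_lit 252) (.e (nat_lit 57409) (nat_lit 12) (.e (nat_lit 336120) (nat_lit 9) (.e (nat_lit 336440) (nat_lit 32) (.e (nat_lit 474880) (nat_lit 5) .nil)))))) (.g (nat_lit 4) .nil .nil))) 
(.lf (nat_lit 237102) (.g (nat_lit 2402) (.e (nat_lit 114712) (nat_lit 21) (.e (nat_lit 57870) (nat_lit 264) (.e (nat_lit 1199) (nat_lit 88) (.e (nat_lit 65610) (nat_lit 10) (.e (nat_lit 344117) (nat_lit 21) (.e (nat_lit 516099) (nat_lit 0) (.e (nat_lit 7936) (nat_lit 220) (.e (nat_lit 720955) (nat_lit 25) .nil)))))))) (.g (nat_lit 5) .nil .nil)))) (.nd (nat_lit 5) 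
(.lf (nat_lit 237086) (.g (nat_lit 633) (.e (nat_lit 114712) (nat_lit 21) (.e (nat_lit 57854) (nat_lit 252) (.e (nat_lit 57425) (nat_lit 14) .nil))) .nil)) 
(.lf (nat_lit 237118) (.g (nat_lit 1518) (.e (nat_lit 114712) (nat_lit 21) (.e (nat_lit 57930) (nat_lit 282) (.e (nat_lit 163923) (nat_lit 15) (.e (nat_lit 450581) (nat_lit 5) (.e (nat_lit 532582) (nat_lit 26) .nil))))) .nil))))))) (.nd (nat_lit 1) (.nd (nat_lit 2) (.nd (nat_lit 3) (.nd (nat_lit 4) (.nd (nat_lit 5) 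
(.lf (nat_lit 237057) (.g (nat_lit 2998) (.e (nat_lit 114712) (nat_lit 21) (.e (nat_lit 57854) (nat_lit 252) (.e (nat_lit 57409) (nat_lit 12) (.e (nat_lit 336019) (nat_lit 3) (.e (nat_lit 98341) (nat_lit 20) (.e (nat_lit 229120) (nat_lit 1) (.e (nat_lit 57854) (nat_lit 252) (.e (nat_lit 57388) (nat_lit 5) .nil)))))))) (.g (nat_lit 4) .nil .nil))) 
(.lf (nat_lit 237089) (.g (nat_lit 840) (.e (nat_lit 114712) (nat_lit 21) (.e (nat_lit 57854) (nat_lit 252) (.e (nat_lit 57435) (nat_lit 17) (.e (nat_lit 376840) (nat_lit 11) .nil)))) .nil))) (.nd (nat_lit 5) 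
(.lf (nat_lit 237073) (.g (nat_lit 1027) (.e (nat_lit 114712) (nat_lit 21) (.e (nat_lit 57854) (nat_lit 252) (.e (nat_lit 57409) (nat_lit 12) (.e (nat_lit 336210) (nat_lit 13) .nil)))) .nil)) 
(.lf (nat_lit 237105) (.g (nat_lit 1088) (.e (nat_lit 114712) (nat_lit 21) (.e (nat_lit 57929) (nat_lit 282) (.e (nat_lit 163923) (nat_lit 15) (.e (nat_lit 450581) (nat_lit 5) .nil)))) .nil)))) (.nd (nat_lit 4) (.nd (nat_lit 5) 
(.lf (nat_lit 237065) (.g (nat_lit 1760) (.e (nat_lit 114712) (nat_lit 21) (.e (nat_lit 57854) (nat_lit 252) (.e (nat_lit 57409) (nat_lit 12) (.e (nat_lit 336115) (nat_lit 9) (.e (nat_lit 336428) (nat_lit 29) (.e (nat_lit 450304) (nat_lit 5) .nil)))))) (.g (nat_lit 4) .nil .nil))) 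
(.lf (nat_lit 237097) (.g (nat_lit 1717) (.e (nat_lit 114712) (nat_lit 21) (.e (nat_lit 57854) (nat_lit 252) (.e (nat_lit 57436) (nat_lit 17) (.e (nat_lit 376840) (nat_lit 11) (.e (nat_lit 426262) (nat_lit 9) (.e (nat_lit 426445) (nat_lit 20) .nil)))))) (.g (nat_lit 5) .nil .nil)))) (.nd (nat_lit 5) 
(.lf (nat_lit 237081) (.g (nat_lit 1741) (.e (nat_lit 114712) (nat_lit 21) (.e (nat_lit 57854) (nat_lit 252) (.e (nat_lit 57409) (nat_lit 12) (.e (nat_lit 336211) (nat_lit 13) (.e (nat_lit 393275) (nat_lit 23) .nil))))) .nil)) 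
(.lf (nat_lit 237113) (.g (nat_lit 2341) (.e (nat_lit 114712) (nat_lit 21) (.e (nat_lit 57930) (nat_lit 282) (.e (nat_lit 163920) (nat_lit 14) (.e (nat_lit 442427) (nat_lit 23) (.e (nat_lit 204810) (nat_lit 9) .nil))))) .nil))))) (.nd (nat_lit 3) (.nd (nat_lit 4) (.nd (nat_lit 5) 
(.lf (nat_lit 237061) (.g (nat_lit 1380) (.e (nat_lit 114712) (nat_lit 21) (.e (nat_lit 57854) (nat_lit 252) (.e (nat_lit 57409) (nat_lit 12) (.e (nat_lit 336114) (nat_lit 9) .nil)))) .nil)) 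
(.lf (nat_lit 237093) (.g (nat_lit 1683) (.e (nat_lit 114712) (nat_lit 21) (.e (nat_lit 57854) (nat_lit 252) (.e (nat_lit 57435) (nat_lit 17) (.e (nat_lit 376842) (nat_lit 11) (.e (nat_lit 426199) (nat_lit 9) .nil))))) .nil))) (.nd (nat_lit 5) 
(.lf (nat_lit 237077) (.g (nat_lit 1568) (.e (nat_lit 114712) (nat_lit 21) (.e (nat_lit 57854) (nat_lit 252) (.e (nat_lit 57409) (nat_lit 12) (.e (nat_lit 336211) (nat_lit 13) (.e (nat_lit 393267) (nat_lit 23) .nil))))) .nil)) 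
(.lf (nat_lit 237109) (.g (nat_lit 2144) (.e (nat_lit 114712) (nat_lit 21) (.e (nat_lit 57930) (nat_lit 282) (.e (nat_lit 163920) (nat_lit 14) (.e (nat_lit 442424) (nat_lit 22) (.e (nat_lit 196628) (nat_lit 9) .nil))))) .nil)))) (.nd (nat_lit 4) (.nd (nat_lit 5) 
(.lf (nat_lit 237069) (.g (nat_lit 1321) (.e (nat_lit 114712) (nat_lit 21) (.e (nat_lit 57854) (nat_lit 252) (.e (nat_lit 57409) (nat_lit 12) (.e (nat_lit 336120) (nat_lit 9) .nil)))) .nil)) 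
(.lf (nat_lit 237101) (.g (nat_lit 595) (.e (nat_lit 114712) (nat_lit 21) (.e (nat_lit 57854) (nat_lit 252) (.e (nat_lit 57438) (nat_lit 17) .nil))) .nil))) (.nd (nat_lit 5) 
(.lf (nat_lit 237085) (.g (nat_lit 2429) (.e (nat_lit 114712) (nat_lit 21) (.e (nat_lit 57854) (nat_lit 252) (.e (nat_lit 57423) (nat_lit 14) (.e (nat_lit 352277) (nat_lit 11) (.e (nat_lit 426190) (nat_lit 9) (.e (nat_lit 426448) (nat_lit 20) .nil)))))) (.g (nat_lit 4) .nil .nil))) 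
(.lf (nat_lit 237117) (.g (nat_lit 1518) (.e (nat_lit 114712) (nat_lit 21) (.e (nat_lit 57930) (nat_lit 282) (.e (nat_lit 163923) (nat_lit 15) (.e (nat_lit 450581) (nat_lit 5) (.e (nat_lit 532580) (nat_lit 26) .nil))))) .nil)))))) (.nd (nat_lit 2) (.nd (nat_lit 3) (.nd (nat_lit 4) (.nd (nat_lit 5) 
(.lf (nat_lit 237059) (.g (nat_lit 2969) (.e (nat_lit 114712) (nat_lit 21) (.e (nat_lit 57854) (nat_lit 252) (.e (nat_lit 57409) (nat_lit 12) (.e (nat_lit 336019) (nat_lit 3) (.e (nat_lit 98342) (nat_lit 20) (.e (nat_lit 221219) (nat_lit 24) (.e (nat_lit 213000) (nat_lit 9) (.e (nat_lit 124) (nat_lit 5) .nil)))))))) (.g (nat_lit 4) .nil .nil))) 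
(.lf (nat_lit 237091) (.g (nat_lit 2120) (.e (nat_lit 114712) (nat_lit 21) (.e (nat_lit 57854) (nat_lit 252) (.e (nat_lit 57435) (nat_lit 17) (.e (nat_lit 376842) (nat_lit 11) (.e (nat_lit 426196) (nat_lit 9) .nil))))) .nil))) (.nd (nat_lit 5) 
(.lf (nat_lit 237075) (.g (nat_lit 928) (.e (nat_lit 114712) (nat_lit 21) (.e (nat_lit 57854) (nat_lit 252) (.e (nat_lit 57409) (nat_lit 12) (.e (nat_lit 336211) (nat_lit 13) .nil)))) .nil)) 
(.lf (nat_lit 237107) (.g (nat_lit 2818) (.e (nat_lit 114712) (nat_lit 21) (.e (nat_lit 57929) (nat_lit 282) (.e (nat_lit 163923) (nat_lit 15) (.e (nat_lit 450587) (nat_lit 10) (.e (nat_lit 573475) (nat_lit 12) (.e (nat_lit 57515) (nat_lit 42) (.e (nat_lit 671744) (nat_lit 0) (.e (nat_lit 1281) (nat_lit 94) .nil)))))))) (.g (nat_lit 5) .nil .nil))))) (.nd (nat_lit 4) (.nd (nat_lit 5) 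
(.lf (nat_lit 237067) (.g (nat_lit 1698) (.e (nat_lit 114712) (nat_lit 21) (.e (nat_lit 57854) (nat_lit 252) (.e (nat_lit 57409) (nat_lit 12) (.e (nat_lit 336115) (nat_lit 9) (.e (nat_lit 336444) (nat_lit 32) (.e (nat_lit 474880) (nat_lit 5) .nil)))))) (.g (nat_lit 4) .nil .nil))) 
(.lf (nat_lit 237099) (.g (nat_lit 1906) (.e (nat_lit 114712) (nat_lit 21) (.e (nat_lit 57854) (nat_lit 252) (.e (nat_lit 57436) (nat_lit 17) (.e (nat_lit 376842) (nat_lit 11) (.e (nat_lit 426196) (nat_lit 9) .nil))))) .nil))) (.nd (nat_lit 5) 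
(.lf (nat_lit 237083) (.g (nat_lit 656) (.e (nat_lit 114712) (nat_lit 21) (.e (nat_lit 57854) (nat_lit 252) (.e (nat_lit 57423) (nat_lit 14) .nil))) .nil)) 
(.lf (nat_lit 237115) (.g (nat_lit 1245) (.e (nat_lit 114712) (nat_lit 21) (.e (nat_lit 57930) (nat_lit 282) (.e (nat_lit 163923) (nat_lit 15) (.e (nat_lit 450571) (nat_lit 1) .nil)))) .nil))))) (.nd (nat_lit 3) (.nd (nat_lit 4) (.nd (nat_lit 5) 
(.lf (nat_lit 237063) (.g (nat_lit 1570) (.e (nat_lit 114712) (nat_lit 21) (.e (nat_lit 57854) (nat_lit 252) (.e (nat_lit 57409) (nat_lit 12) (.e (nat_lit 336115) (nat_lit 9) (.e (nat_lit 336426) (nat_lit 29) .nil))))) .nil)) 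
(.lf (nat_lit 237095) (.g (nat_lit 1661) (.e (nat_lit 114712) (nat_lit 21) (.e (nat_lit 57854) (nat_lit 252) (.e (nat_lit 57436) (nat_lit 17) (.e (nat_lit 376840) (nat_lit 11) (.e (nat_lit 426232) (nat_lit 9) (.e (nat_lit 426445) (nat_lit 20) .nil)))))) (.g (nat_lit 5) .nil .nil)))) (.nd (nat_lit 5) 
(.lf (nat_lit 237079) (.g (nat_lit 3034) (.e (nat_lit 114712) (nat_lit 21) (.e (nat_lit 57854) (nat_lit 252) (.e (nat_lit 57409) (nat_lit 12) (.e (nat_lit 336211) (nat_lit 13) (.e (nat_lit 393271) (nat_lit 23) (.e (nat_lit 426448) (nat_lit 20) .nil)))))) (.g (nat_lit 0) .nil .nil))) 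
(.lf (nat_lit 237111) (.g (nat_lit 3855) (.e (nat_lit 114712) (nat_lit 21) (.e (nat_lit 57930) (nat_lit 282) (.e (nat_lit 163920) (nat_lit 14) (.e (nat_lit 442424) (nat_lit 22) (.e (nat_lit 196656) (nat_lit 11) (.e (nat_lit 24320) (nat_lit 20) .nil)))))) (.g (nat_lit 5) .nil .nil))))) (.nd (nat_lit 4) (.nd (nat_lit 5) 
(.lf (nat_lit 237071) (.g (nat_lit 1552) (.e (nat_lit 114712) (nat_lit 21) (.e (nat_lit 57854) (nat_lit 252) (.e (nat_lit 57409) (nat_lit 12) (.e (nat_lit 336120) (nat_lit 9) (.e (nat_lit 336442) (nat_lit 32) .nil))))) .nil)) 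
(.lf (nat_lit 237103) (.g (nat_lit 1417) (.e (nat_lit 114712) (nat_lit 21) (.e (nat_lit 57870) (nat_lit 264) (.e (nat_lit 1219) (nat_lit 90) (.e (nat_lit 81954) (nat_lit 23) (.e (nat_lit 98321) (nat_lit 17) (.e (nat_lit 7936) (nat_lit 220) (.e (nat_lit 720956) (nat_lit 25) .nil))))))) (.g (nat_lit 4) .nil .nil)))) (.nd (nat_lit 5) 
(.lf (nat_lit 237087) (.g (nat_lit 774) (.e (nat_lit 114712) (nat_lit 21) (.e (nat_lit 57854) (nat_lit 252) (.e (nat_lit 57434) (nat_lit 17) .nil))) .nil)) 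
(.lf (nat_lit 237119) (.g (nat_lit 1056) (.e (nat_lit 114712) (nat_lit 21) (.e (nat_lit 57930) (nat_lit 282) (.e (nat_lit 163923) (nat_lit 15) (.e (nat_lit 450587) (nat_lit 10) .nil)))) .nil))))))))

noncomputable def tv3091 : DT := (.nd (nat_lit 0) (.nd (nat_lit 1) (.nd (nat_lit 2) (.nd (nat_lit 3) (.nd (nat_lit 4) (.nd (nat_lit 5) 
(.lf (nat_lit 237120) (.g (nat_lit 3460) (.e (nat_lit 114712) (nat_lit 21) (.e (nat_lit 57930) (nat_lit 282) (.e (nat_lit 163923) (nat_lit 15) (.e (nat_lit 450587) (nat_lit 10) (.e (nat_lit 573456) (nat_lit 9) (.e (nat_lit 1288) (nat_lit 95) (.e (nat_lit 123197) (nat_lit 266) (.e (nat_lit 57389) (nat_lit 5) .nil)))))))) (.g (nat_lit 5) .nil .nil))) 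
(.lf (nat_lit 237152) (.g (nat_lit 1590) (.e (nat_lit 114714) (nat_lit 22) (.e (nat_lit 90122) (nat_lit 9) (.e (nat_lit 333) (nat_lit 26) (.e (nat_lit 376862) (nat_lit 22) (.e (nat_lit 90169) (nat_lit 13) (.e (nat_lit 179968) (nat_lit 20) .nil)))))) (.g (nat_lit 5) .nil .nil)))) (.nd (nat_lit 5) 
(.lf (nat_lit 237136) (.g (nat_lit 2395) (.e (nat_lit 114714) (nat_lit 22) (.e (nat_lit 90113) (nat_lit 0) (.e (nat_lit 1638) (nat_lit 114) (.e (nat_lit 385105) (nat_lit 50) (.e (nat_lit 786489) (nat_lit 34) (.e (nat_lit 401152) (nat_lit 3) .nil)))))) (.g (nat_lit 5) .nil .nil))) 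
(.lf (nat_lit 237168) (.g (nat_lit 1474) (.e (nat_lit 114714) (nat_lit 22) (.e (nat_lit 90125) (nat_lit 9) (.e (nat_lit 333) (nat_lit 26) (.e (nat_lit 376862) (nat_lit 22) (.e (nat_lit 90169) (nat_lit 13) (.e (nat_lit 179968) (nat_lit 20) .nil)))))) (.g (nat_lit 5) .nil .nil))))) (.nd (nat_lit 4) (.nd (nat_lit 5) 
(.lf (nat_lit 237128) (.g (nat_lit 536) (.e (nat_lit 114713) (nat_lit 22) (.e (nat_lit 90172) (nat_lit 14) (.e (nat_lit 180244) (nat_lit 5) .nil))) .nil)) 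
(.lf (nat_lit 237160) (.g (nat_lit 1385) (.e (nat_lit 114714) (nat_lit 22) (.e (nat_lit 90124) (nat_lit 9) (.e (nat_lit 333) (nat_lit 26) (.e (nat_lit 376862) (nat_lit 22) (.e (nat_lit 90169) (nat_lit 13) (.e (nat_lit 179968) (nat_lit 20) .nil)))))) (.g (nat_lit 5) .nil .nil)))) (.nd (nat_lit 5) 
(.lf (nat_lit 237144) (.g (nat_lit 2127) (.e (nat_lit 114714) (nat_lit 22) (.e (nat_lit 90118) (nat_lit 0) (.e (nat_lit 1638) (nat_lit 114) (.e (nat_lit 385104) (nat_lit 50) (.e (nat_lit 786489) (nat_lit 34) (.e (nat_lit 401152) (nat_lit 3) .nil)))))) (.g (nat_lit 5) .nil .nil))) 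
(.lf (nat_lit 237176) (.g (nat_lit 2418) (.e (nat_lit 114714) (nat_lit 22) (.e (nat_lit 90128) (nat_lit 9) (.e (nat_lit 314) (nat_lit 23) (.e (nat_lit 352310) (nat_lit 22) (.e (nat_lit 90170) (nat_lit 13) (.e (nat_lit 179968) (nat_lit 20) .nil)))))) (.g (nat_lit 5) .nil .nil)))))) (.nd (nat_lit 3) (.nd (nat_lit 4) (.nd (nat_lit 5) 
(.lf (nat_lit 237124) (.g (nat_lit 2471) (.e (nat_lit 114712) (nat_lit 21) (.e (nat_lit 57930) (nat_lit 282) (.e (nat_lit 163923) (nat_lit 15) (.e (nat_lit 450588) (nat_lit 10) (.e (nat_lit 573452) (nat_lit 9) .nil))))) .nil)) 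
(.lf (nat_lit 237156) (.g (nat_lit 1458) (.e (nat_lit 114714) (nat_lit 22) (.e (nat_lit 90122) (nat_lit 9) (.e (nat_lit 333) (nat_lit 26) (.e (nat_lit 376865) (nat_lit 22) (.e (nat_lit 90169) (nat_lit 13) (.e (nat_lit 179968) (nat_lit 20) .nil)))))) (.g (nat_lit 5) .nil .nil)))) (.nd (nat_lit 5) 
(.lf (nat_lit 237140) (.g (nat_lit 2358) (.e (nat_lit 114714) (nat_lit 22) (.e (nat_lit 90115) (nat_lit 0) (.e (nat_lit 1638) (nat_lit 114) (.e (nat_lit 385105) (nat_lit 50) (.e (nat_lit 786489) (nat_lit 34) (.e (nat_lit 401152) (nat_lit 3) .nil)))))) (.g (nat_lit 5) .nil .nil))) 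
(.lf (nat_lit 237172) (.g (nat_lit 1363) (.e (nat_lit 114714) (nat_lit 22) (.e (nat_lit 90125) (nat_lit 9) (.e (nat_lit 333) (nat_lit 26) (.e (nat_lit 376865) (nat_lit 22) (.e (nat_lit 90169) (nat_lit 13) (.e (nat_lit 179968) (nat_lit 20) .nil)))))) (.g (nat_lit 5) .nil .nil))))) (.nd (nat_lit 4) (.nd (nat_lit 5) 
(.lf (nat_lit 237132) (.g (nat_lit 2091) (.e (nat_lit 114714) (nat_lit 22) (.e (nat_lit 90112) (nat_lit 0) (.e (nat_lit 1638) (nat_lit 114) (.e (nat_lit 385105) (nat_lit 50) (.e (nat_lit 786489) (nat_lit 34) (.e (nat_lit 401152) (nat_lit 3) .nil)))))) (.g (nat_lit 4) .nil .nil))) 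
(.lf (nat_lit 237164) (.g (nat_lit 1271) (.e (nat_lit 114714) (nat_lit 22) (.e (nat_lit 90124) (nat_lit 9) (.e (nat_lit 333) (nat_lit 26) (.e (nat_lit 376865) (nat_lit 22) (.e (nat_lit 90169) (nat_lit 13) (.e (nat_lit 179968) (nat_lit 20) .nil)))))) (.g (nat_lit 5) .nil .nil)))) (.nd (nat_lit 5) 
(.lf (nat_lit 237148) (.g (nat_lit 2074) (.e (nat_lit 114714) (nat_lit 22) (.e (nat_lit 90120) (nat_lit 0) (.e (nat_lit 1638) (nat_lit 114) (.e (nat_lit 385104) (nat_lit 50) (.e (nat_lit 786489) (nat_lit 34) (.e (nat_lit 401152) (nat_lit 3) .nil)))))) (.g (nat_lit 5) .nil .nil))) 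
(.lf (nat_lit 237180) (.g (nat_lit 2526) (.e (nat_lit 114714) (nat_lit 22) (.e (nat_lit 90128) (nat_lit 9) (.e (nat_lit 314) (nat_lit 23) (.e (nat_lit 352313) (nat_lit 23) (.e (nat_lit 98356) (nat_lit 26) (.e (nat_lit 426446) (nat_lit 20) .nil)))))) (.g (nat_lit 0) .nil .nil))))))) (.nd (nat_lit 2) (.nd (nat_lit 3) (.nd (nat_lit 4) (.nd (nat_lit 5) 
(.lf (nat_lit 237122) (.g (nat_lit 4648) (.e (nat_lit 114712) (nat_lit 21) (.e (nat_lit 57930) (nat_lit 282) (.e (nat_lit 163923) (nat_lit 15) (.e (nat_lit 450587) (nat_lit 10) (.e (nat_lit 573475) (nat_lit 12) (.e (nat_lit 57516) (nat_lit 42) (.e (nat_lit 671748) (nat_lit 0) (.e (nat_lit 1278) (nat_lit 94) .nil)))))))) (.g (nat_lit 7) .nil .nil))) 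
(.lf (nat_lit 237154) (.g (nat_lit 1870) (.e (nat_lit 114714) (nat_lit 22) (.e (nat_lit 90122) (nat_lit 9) (.e (nat_lit 333) (nat_lit 26) (.e (nat_lit 376862) (nat_lit 22) (.e (nat_lit 90185) (nat_lit 17) (.e (nat_lit 245504) (nat_lit 20) .nil)))))) (.g (nat_lit 5) .nil .nil)))) (.nd (nat_lit 5) 
(.lf (nat_lit 237138) (.g (nat_lit 2066) (.e (nat_lit 114714) (nat_lit 22) (.e (nat_lit 90115) (nat_lit 0) (.e (nat_lit 1638) (nat_lit 114) (.e (nat_lit 385104) (nat_lit 50) (.e (nat_lit 786489) (nat_lit 34) (.e (nat_lit 401152) (nat_lit 3) .nil)))))) (.g (nat_lit 5) .nil .nil))) 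
(.lf (nat_lit 237170) (.g (nat_lit 1760) (.e (nat_lit 114714) (nat_lit 22) (.e (nat_lit 90125) (nat_lit 9) (.e (nat_lit 333) (nat_lit 26) (.e (nat_lit 376862) (nat_lit 22) (.e (nat_lit 90185) (nat_lit 17) (.e (nat_lit 245504) (nat_lit 20) .nil)))))) (.g (nat_lit 5) .nil .nil))))) (.nd (nat_lit 4) (.nd (nat_lit 5) 
(.lf (nat_lit 237130) (.g (nat_lit 1790) (.e (nat_lit 114714) (nat_lit 22) (.e (nat_lit 90112) (nat_lit 0) (.e (nat_lit 1638) (nat_lit 114) (.e (nat_lit 385104) (nat_lit 50) (.e (nat_lit 786489) (nat_lit 34) (.e (nat_lit 401152) (nat_lit 3) .nil)))))) (.g (nat_lit 4) .nil .nil))) 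
(.lf (nat_lit 237162) (.g (nat_lit 1671) (.e (nat_lit 114714) (nat_lit 22) (.e (nat_lit 90124) (nat_lit 9) (.e (nat_lit 333) (nat_lit 26) (.e (nat_lit 376862) (nat_lit 22) (.e (nat_lit 90185) (nat_lit 17) (.e (nat_lit 245504) (nat_lit 20) .nil)))))) (.g (nat_lit 5) .nil .nil)))) (.nd (nat_lit 5) 
(.lf (nat_lit 237146) (.g (nat_lit 2432) (.e (nat_lit 114714) (nat_lit 22) (.e (nat_lit 90118) (nat_lit 0) (.e (nat_lit 1638) (nat_lit 114) (.e (nat_lit 385105) (nat_lit 50) (.e (nat_lit 786489) (nat_lit 34) (.e (nat_lit 401152) (nat_lit 3) .nil)))))) (.g (nat_lit 5) .nil .nil))) 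
(.lf (nat_lit 237178) (.g (nat_lit 2752) (.e (nat_lit 114714) (nat_lit 22) (.e (nat_lit 90128) (nat_lit 9) (.e (nat_lit 314) (nat_lit 23) (.e (nat_lit 352312) (nat_lit 22) (.e (nat_lit 90170) (nat_lit 13) (.e (nat_lit 179968) (nat_lit 20) .nil)))))) (.g (nat_lit 5) .nil .nil)))))) (.nd (nat_lit 3) (.nd (nat_lit 4) (.nd (nat_lit 5) 
(.lf (nat_lit 237126) (.g (nat_lit 1932) (.e (nat_lit 114712) (nat_lit 21) (.e (nat_lit 57931) (nat_lit 282) (.e (nat_lit 163931) (nat_lit 17) (.e (nat_lit 466975) (nat_lit 22) .nil)))) .nil)) 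
(.lf (nat_lit 237158) (.g (nat_lit 1921) (.e (nat_lit 114714) (nat_lit 22) (.e (nat_lit 90122) (nat_lit 9) (.e (nat_lit 333) (nat_lit 26) (.e (nat_lit 376865) (nat_lit 22) (.e (nat_lit 90185) (nat_lit 17) (.e (nat_lit 245504) (nat_lit 20) .nil)))))) (.g (nat_lit 5) .nil .nil)))) (.nd (nat_lit 5) 
(.lf (nat_lit 237142) (.g (nat_lit 1614) (.e (nat_lit 114714) (nat_lit 22) (.e (nat_lit 90118) (nat_lit 0) (.e (nat_lit 1638) (nat_lit 114) (.e (nat_lit 385103) (nat_lit 50) (.e (nat_lit 786489) (nat_lit 34) (.e (nat_lit 401152) (nat_lit 3) .nil)))))) (.g (nat_lit 5) .nil .nil))) 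
(.lf (nat_lit 237174) (.g (nat_lit 1826) (.e (nat_lit 114714) (nat_lit 22) (.e (nat_lit 90125) (nat_lit 9) (.e (nat_lit 333) (nat_lit 26) (.e (nat_lit 376865) (nat_lit 22) (.e (nat_lit 90185) (nat_lit 17) (.e (nat_lit 245504) (nat_lit 20) .nil)))))) (.g (nat_lit 5) .nil .nil))))) (.nd (nat_lit 4) (.nd (nat_lit 5) 
(.lf (nat_lit 237134) (.g (nat_lit 2092) (.e (nat_lit 114714) (nat_lit 22) (.e (nat_lit 90113) (nat_lit 0) (.e (nat_lit 1638) (nat_lit 114) (.e (nat_lit 385104) (nat_lit 50) (.e (nat_lit 786489) (nat_lit 34) (.e (nat_lit 401152) (nat_lit 3) .nil)))))) (.g (nat_lit 5) .nil .nil))) 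
(.lf (nat_lit 237166) (.g (nat_lit 1735) (.e (nat_lit 114714) (nat_lit 22) (.e (nat_lit 90124) (nat_lit 9) (.e (nat_lit 333) (nat_lit 26) (.e (nat_lit 376865) (nat_lit 22) (.e (nat_lit 90185) (nat_lit 17) (.e (nat_lit 245504) (nat_lit 20) .nil)))))) (.g (nat_lit 5) .nil .nil)))) (.nd (nat_lit 5) 
(.lf (nat_lit 237150) (.g (nat_lit 2375) (.e (nat_lit 114714) (nat_lit 22) (.e (nat_lit 90120) (nat_lit 0) (.e (nat_lit 1638) (nat_lit 114) (.e (nat_lit 385105) (nat_lit 50) (.e (nat_lit 786489) (nat_lit 34) (.e (nat_lit 401152) (nat_lit 3) .nil)))))) (.g (nat_lit 5) .nil .nil))) 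
(.lf (nat_lit 237182) (.g (nat_lit 2400) (.e (nat_lit 114714) (nat_lit 22) (.e (nat_lit 90128) (nat_lit 9) (.e (nat_lit 314) (nat_lit 23) (.e (nat_lit 352313) (nat_lit 23) (.e (nat_lit 98359) (nat_lit 26) (.e (nat_lit 433920) (nat_lit 20) .nil)))))) (.g (nat_lit 5) .nil .nil)))))))) (.nd (nat_lit 1) (.nd (nat_lit 2) (.nd (nat_lit 3) (.nd (nat_lit 4) (.nd (nat_lit 5) 
(.lf (nat_lit 237121) (.g (nat_lit 3790) (.e (nat_lit 114712) (nat_lit 21) (.e (nat_lit 57930) (nat_lit 282) (.e (nat_lit 163923) (nat_lit 15) (.e (nat_lit 450587) (nat_lit 10) (.e (nat_lit 573475) (nat_lit 12) (.e (nat_lit 57515) (nat_lit 42) (.e (nat_lit 671744) (nat_lit 0) (.e (nat_lit 1281) (nat_lit 94) .nil)))))))) (.g (nat_lit 5) .nil .nil))) 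
(.lf (nat_lit 237153) (.g (nat_lit 2079) (.e (nat_lit 114714) (nat_lit 22) (.e (nat_lit 90122) (nat_lit 9) (.e (nat_lit 333) (nat_lit 26) (.e (nat_lit 376862) (nat_lit 22) (.e (nat_lit 90170) (nat_lit 13) (.e (nat_lit 179968) (nat_lit 20) .nil)))))) (.g (nat_lit 5) .nil .nil)))) (.nd (nat_lit 5) 
(.lf (nat_lit 237137) (.g (nat_lit 1577) (.e (nat_lit 114714) (nat_lit 22) (.e (nat_lit 90115) (nat_lit 0) (.e (nat_lit 1638) (nat_lit 114) (.e (nat_lit 385103) (nat_lit 50) (.e (nat_lit 786489) (nat_lit 34) (.e (nat_lit 401152) (nat_lit 3) .nil)))))) (.g (nat_lit 5) .nil .nil))) 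
(.lf (nat_lit 237169) (.g (nat_lit 1960) (.e (nat_lit 114714) (nat_lit 22) (.e (nat_lit 90125) (nat_lit 9) (.e (nat_lit 333) (nat_lit 26) (.e (nat_lit 376862) (nat_lit 22) (.e (nat_lit 90170) (nat_lit 13) (.e (nat_lit 179968) (nat_lit 20) .nil)))))) (.g (nat_lit 5) .nil .nil))))) (.nd (nat_lit 4) (.nd (nat_lit 5) 
(.lf (nat_lit 237129) (.g (nat_lit 2979) (.e (nat_lit 114713) (nat_lit 22) (.e (nat_lit 90203) (nat_lit 21) (.e (nat_lit 164358) (nat_lit 246) (.e (nat_lit 112) (nat_lit 3) (.e (nat_lit 98358) (nat_lit 26) (.e (nat_lit 426131) (nat_lit 3) (.e (nat_lit 204838) (nat_lit 20) .nil))))))) (.g (nat_lit 7) .nil .nil))) 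
(.lf (nat_lit 237161) (.g (nat_lit 1872) (.e (nat_lit 114714) (nat_lit 22) (.e (nat_lit 90124) (nat_lit 9) (.e (nat_lit 333) (nat_lit 26) (.e (nat_lit 376862) (nat_lit 22) (.e (nat_lit 90170) (nat_lit 13) (.e (nat_lit 179968) (nat_lit 20) .nil)))))) (.g (nat_lit 5) .nil .nil)))) (.nd (nat_lit 5) 
(.lf (nat_lit 237145) (.g (nat_lit 2053) (.e (nat_lit 114714) (nat_lit 22) (.e (nat_lit 90118) (nat_lit 0) (.e (nat_lit 1638) (nat_lit 114) (.e (nat_lit 385105) (nat_lit 50) (.e (nat_lit 786488) (nat_lit 34) (.e (nat_lit 401152) (nat_lit 3) .nil)))))) (.g (nat_lit 4) .nil .nil))) 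
(.lf (nat_lit 237177) (.g (nat_lit 817) (.e (nat_lit 114714) (nat_lit 22) (.e (nat_lit 90128) (nat_lit 9) (.e (nat_lit 314) (nat_lit 23) (.e (nat_lit 352312) (nat_lit 22) .nil)))) .nil))))) (.nd (nat_lit 3) (.nd (nat_lit 4) (.nd (nat_lit 5) 
(.lf (nat_lit 237125) (.g (nat_lit 2162) (.e (nat_lit 114712) (nat_lit 21) (.e (nat_lit 57931) (nat_lit 282) (.e (nat_lit 163885) (nat_lit 5) (.e (nat_lit 221214) (nat_lit 23) (.e (nat_lit 204829) (nat_lit 18) (.e (nat_lit 57847) (nat_lit 252) (.e (nat_lit 57368) (nat_lit 1) (.e (nat_lit 57854) (nat_lit 252) (.e (nat_lit 57389) (nat_lit 5) .nil))))))))) (.g (nat_lit 4) .nil .nil))) 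
(.lf (nat_lit 237157) (.g (nat_lit 1787) (.e (nat_lit 114714) (nat_lit 22) (.e (nat_lit 90122) (nat_lit 9) (.e (nat_lit 333) (nat_lit 26) (.e (nat_lit 376865) (nat_lit 22) (.e (nat_lit 90170) (nat_lit 13) (.e (nat_lit 179968) (nat_lit 20) .nil)))))) (.g (nat_lit 5) .nil .nil)))) (.nd (nat_lit 5) 
(.lf (nat_lit 237141) (.g (nat_lit 2412) (.e (nat_lit 114714) (nat_lit 22) (.e (nat_lit 90117) (nat_lit 0) (.e (nat_lit 1633) (nat_lit 114) (.e (nat_lit 385106) (nat_lit 50) (.e (nat_lit 786489) (nat_lit 34) (.e (nat_lit 401152) (nat_lit 3) .nil)))))) (.g (nat_lit 4) .nil .nil))) 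
(.lf (nat_lit 237173) (.g (nat_lit 1691) (.e (nat_lit 114714) (nat_lit 22) (.e (nat_lit 90125) (nat_lit 9) (.e (nat_lit 333) (nat_lit 26) (.e (nat_lit 376865) (nat_lit 22) (.e (nat_lit 90170) (nat_lit 13) (.e (nat_lit 179968) (nat_lit 20) .nil)))))) (.g (nat_lit 5) .nil .nil))))) (.nd (nat_lit 4) (.nd (nat_lit 5) 
(.lf (nat_lit 237133) (.g (nat_lit 1561) (.e (nat_lit 114714) (nat_lit 22) (.e (nat_lit 90113) (nat_lit 0) (.e (nat_lit 1638) (nat_lit 114) (.e (nat_lit 385103) (nat_lit 50) (.e (nat_lit 786489) (nat_lit 34) (.e (nat_lit 401152) (nat_lit 3) .nil)))))) (.g (nat_lit 4) .nil .nil))) 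
(.lf (nat_lit 237165) (.g (nat_lit 1601) (.e (nat_lit 114714) (nat_lit 22) (.e (nat_lit 90124) (nat_lit 9) (.e (nat_lit 333) (nat_lit 26) (.e (nat_lit 376865) (nat_lit 22) (.e (nat_lit 90170) (nat_lit 13) (.e (nat_lit 179968) (nat_lit 20) .nil)))))) (.g (nat_lit 5) .nil .nil)))) (.nd (nat_lit 5) 
(.lf (nat_lit 237149) (.g (nat_lit 1996) (.e (nat_lit 114714) (nat_lit 22) (.e (nat_lit 90120) (nat_lit 0) (.e (nat_lit 1638) (nat_lit 114) (.e (nat_lit 385105) (nat_lit 50) (.e (nat_lit 786488) (nat_lit 34) (.e (nat_lit 401152) (nat_lit 3) .nil)))))) (.g (nat_lit 4) .nil .nil))) 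
(.lf (nat_lit 237181) (.g (nat_lit 2208) (.e (nat_lit 114714) (nat_lit 22) (.e (nat_lit 90128) (nat_lit 9) (.e (nat_lit 314) (nat_lit 23) (.e (nat_lit 352313) (nat_lit 23) (.e (nat_lit 98356) (nat_lit 26) (.e (nat_lit 433920) (nat_lit 20) .nil)))))) (.g (nat_lit 5) .nil .nil))))))) (.nd (nat_lit 2) (.nd (nat_lit 3) (.nd (nat_lit 4) (.nd (nat_lit 5) 
(.lf (nat_lit 237123) (.g (nat_lit 1069) (.e (nat_lit 114712) (nat_lit 21) (.e (nat_lit 57930) (nat_lit 282) (.e (nat_lit 163923) (nat_lit 15) (.e (nat_lit 450588) (nat_lit 10) .nil)))) .nil)) 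
(.lf (nat_lit 237155) (.g (nat_lit 1254) (.e (nat_lit 114714) (nat_lit 22) (.e (nat_lit 90122) (nat_lit 9) (.e (nat_lit 333) (nat_lit 26) (.e (nat_lit 376865) (nat_lit 22) (.e (nat_lit 90168) (nat_lit 13) (.e (nat_lit 179968) (nat_lit 20) .nil)))))) (.g (nat_lit 5) .nil .nil)))) (.nd (nat_lit 5) 
(.lf (nat_lit 237139) (.g (nat_lit 1979) (.e (nat_lit 114714) (nat_lit 22) (.e (nat_lit 90115) (nat_lit 0) (.e (nat_lit 1638) (nat_lit 114) (.e (nat_lit 385105) (nat_lit 50) (.e (nat_lit 786488) (nat_lit 34) (.e (nat_lit 401152) (nat_lit 3) .nil)))))) (.g (nat_lit 4) .nil .nil))) 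
(.lf (nat_lit 237171) (.g (nat_lit 1157) (.e (nat_lit 114714) (nat_lit 22) (.e (nat_lit 90125) (nat_lit 9) (.e (nat_lit 333) (nat_lit 26) (.e (nat_lit 376865) (nat_lit 22) (.e (nat_lit 90168) (nat_lit 13) (.e (nat_lit 179968) (nat_lit 20) .nil)))))) (.g (nat_lit 5) .nil .nil))))) (.nd (nat_lit 4) (.nd (nat_lit 5) 
(.lf (nat_lit 237131) (.g (nat_lit 1712) (.e (nat_lit 114714) (nat_lit 22) (.e (nat_lit 90112) (nat_lit 0) (.e (nat_lit 1638) (nat_lit 114) (.e (nat_lit 385105) (nat_lit 50) (.e (nat_lit 786488) (nat_lit 34) (.e (nat_lit 401152) (nat_lit 3) .nil)))))) (.g (nat_lit 4) .nil .nil))) 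
(.lf (nat_lit 237163) (.g (nat_lit 1066) (.e (nat_lit 114714) (nat_lit 22) (.e (nat_lit 90124) (nat_lit 9) (.e (nat_lit 333) (nat_lit 26) (.e (nat_lit 376865) (nat_lit 22) (.e (nat_lit 90168) (nat_lit 13) (.e (nat_lit 179968) (nat_lit 20) .nil)))))) (.g (nat_lit 5) .nil .nil)))) (.nd (nat_lit 5) 
(.lf (nat_lit 237147) (.g (nat_lit 1546) (.e (nat_lit 114714) (nat_lit 22) (.e (nat_lit 90120) (nat_lit 0) (.e (nat_lit 1638) (nat_lit 114) (.e (nat_lit 385103) (nat_lit 50) (.e (nat_lit 786489) (nat_lit 34) (.e (nat_lit 401152) (nat_lit 3) .nil)))))) (.g (nat_lit 5) .nil .nil))) 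
(.lf (nat_lit 237179) (.g (nat_lit 1819) (.e (nat_lit 114714) (nat_lit 22) (.e (nat_lit 90128) (nat_lit 9) (.e (nat_lit 314) (nat_lit 23) (.e (nat_lit 352313) (nat_lit 23) (.e (nat_lit 98354) (nat_lit 26) (.e (nat_lit 433920) (nat_lit 20) .nil)))))) (.g (nat_lit 4) .nil .nil)))))) (.nd (nat_lit 3) (.nd (nat_lit 4) (.nd (nat_lit 5) 
(.lf (nat_lit 237127) (.g (nat_lit 1763) (.e (nat_lit 122624) (nat_lit 21) (.e (nat_lit 57847) (nat_lit 252) (.e (nat_lit 57435) (nat_lit 17) (.e (nat_lit 376842) (nat_lit 11) (.e (nat_lit 426188) (nat_lit 9) .nil))))) .nil)) 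
(.lf (nat_lit 237159) (.g (nat_lit 1162) (.e (nat_lit 114714) (nat_lit 22) (.e (nat_lit 90124) (nat_lit 9) (.e (nat_lit 333) (nat_lit 26) (.e (nat_lit 376862) (nat_lit 22) (.e (nat_lit 90168) (nat_lit 13) (.e (nat_lit 179968) (nat_lit 20) .nil)))))) (.g (nat_lit 5) .nil .nil)))) (.nd (nat_lit 5) 
(.lf (nat_lit 237143) (.g (nat_lit 1278) (.e (nat_lit 114714) (nat_lit 22) (.e (nat_lit 90118) (nat_lit 0) (.e (nat_lit 1638) (nat_lit 114) (.e (nat_lit 385104) (nat_lit 50) (.e (nat_lit 786488) (nat_lit 34) .nil))))) .nil)) 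
(.lf (nat_lit 237175) (.g (nat_lit 583) (.e (nat_lit 114714) (nat_lit 22) (.e (nat_lit 90128) (nat_lit 9) (.e (nat_lit 268) (nat_lit 21) .nil))) .nil)))) (.nd (nat_lit 4) (.nd (nat_lit 5) 
(.lf (nat_lit 237135) (.g (nat_lit 2016) (.e (nat_lit 114714) (nat_lit 22) (.e (nat_lit 90113) (nat_lit 0) (.e (nat_lit 1638) (nat_lit 114) (.e (nat_lit 385105) (nat_lit 50) (.e (nat_lit 786488) (nat_lit 34) (.e (nat_lit 401152) (nat_lit 3) .nil)))))) (.g (nat_lit 4) .nil .nil))) 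
(.lf (nat_lit 237167) (.g (nat_lit 1250) (.e (nat_lit 114714) (nat_lit 22) (.e (nat_lit 90125) (nat_lit 9) (.e (nat_lit 333) (nat_lit 26) (.e (nat_lit 376862) (nat_lit 22) (.e (nat_lit 90168) (nat_lit 13) (.e (nat_lit 179968) (nat_lit 20) .nil)))))) (.g (nat_lit 5) .nil .nil)))) (.nd (nat_lit 5) 
(.lf (nat_lit 237151) (.g (nat_lit 1366) (.e (nat_lit 114714) (nat_lit 22) (.e (nat_lit 90122) (nat_lit 9) (.e (nat_lit 333) (nat_lit 26) (.e (nat_lit 376862) (nat_lit 22) (.e (nat_lit 90168) (nat_lit 13) (.e (nat_lit 179968) (nat_lit 20) .nil)))))) (.g (nat_lit 5) .nil .nil))) 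
(.lf (nat_lit 237183) (.g (nat_lit 1678) (.e (nat_lit 114714) (nat_lit 22) (.e (nat_lit 90128) (nat_lit 9) (.e (nat_lit 314) (nat_lit 23) (.e (nat_lit 352313) (nat_lit 23) (.e (nat_lit 98363) (nat_lit 26) (.e (nat_lit 426447) (nat_lit 20) .nil)))))) (.g (nat_lit 4) .nil .nil)))))))))

noncomputable def tv3092 : DT := (.nd (nat_lit 0) (.nd (nat_lit 1) (.nd (nat_lit 2) (.nd (nat_lit 3) (.nd (nat_lit 4) (.nd (nat_lit 5) 
(.lf (nat_lit 237184) (.g (nat_lit 2463) (.e (nat_lit 114714) (nat_lit 22) (.e (nat_lit 90128) (nat_lit 9) (.e (nat_lit 314) (nat_lit 23) (.e (nat_lit 352315) (nat_lit 23) (.e (nat_lit 98354) (nat_lit 26) (.e (nat_lit 433920) (nat_lit 20) .nil)))))) (.g (nat_lit 5) .nil .nil))) 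
(.lf (nat_lit 237216) (.g (nat_lit 464) (.e (nat_lit 114714) (nat_lit 22) (.e (nat_lit 90128) (nat_lit 9) (.e (nat_lit 7936) (nat_lit 26) .nil))) .nil))) (.nd (nat_lit 5) 
(.lf (nat_lit 237200) (.g (nat_lit 2321) (.e (nat_lit 114714) (nat_lit 22) (.e (nat_lit 90128) (nat_lit 9) (.e (nat_lit 334) (nat_lit 26) (.e (nat_lit 376864) (nat_lit 22) (.e (nat_lit 90170) (nat_lit 13) (.e (nat_lit 179968) (nat_lit 20) .nil)))))) (.g (nat_lit 5) .nil .nil))) 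
(.lf (nat_lit 237232) (.g (nat_lit 1475) (.e (nat_lit 114714) (nat_lit 22) (.e (nat_lit 90157) (nat_lit 11) (.e (nat_lit 24640) (nat_lit 10) (.e (nat_lit 344118) (nat_lit 21) .nil)))) .nil)))) (.nd (nat_lit 4) (.nd (nat_lit 5) 
(.lf (nat_lit 237192) (.g (nat_lit 1719) (.e (nat_lit 114714) (nat_lit 22) (.e (nat_lit 90128) (nat_lit 9) (.e (nat_lit 324) (nat_lit 24) (.e (nat_lit 360466) (nat_lit 3) (.e (nat_lit 516150) (nat_lit 9) (.e (nat_lit 433920) (nat_lit 20) .nil)))))) (.g (nat_lit 5) .nil .nil))) 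
(.lf (nat_lit 237224) (.g (nat_lit 3805) (.e (nat_lit 114714) (nat_lit 22) (.e (nat_lit 90157) (nat_lit 11) (.e (nat_lit 24623) (nat_lit 9) (.e (nat_lit 336013) (nat_lit 2) (.e (nat_lit 90170) (nat_lit 13) (.e (nat_lit 179968) (nat_lit 20) .nil)))))) (.g (nat_lit 5) .nil .nil)))) (.nd (nat_lit 5) 
(.lf (nat_lit 237208) (.g (nat_lit 2226) (.e (nat_lit 114714) (nat_lit 22) (.e (nat_lit 90128) (nat_lit 9) (.e (nat_lit 334) (nat_lit 26) (.e (nat_lit 376867) (nat_lit 23) (.e (nat_lit 98363) (nat_lit 26) (.e (nat_lit 426447) (nat_lit 20) .nil)))))) (.g (nat_lit 0) .nil .nil))) 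
(.lf (nat_lit 237240) (.g (nat_lit 3252) (.e (nat_lit 114714) (nat_lit 22) (.e (nat_lit 90158) (nat_lit 11) (.e (nat_lit 24623) (nat_lit 9) (.e (nat_lit 336028) (nat_lit 3) (.e (nat_lit 98359) (nat_lit 26) (.e (nat_lit 433920) (nat_lit 20) .nil)))))) (.g (nat_lit 5) .nil .nil)))))) (.nd (nat_lit 3) (.nd (nat_lit 4) (.nd (nat_lit 5) 
(.lf (nat_lit 237188) (.g (nat_lit 1676) (.e (nat_lit 114714) (nat_lit 22) (.e (nat_lit 90128) (nat_lit 9) (.e (nat_lit 314) (nat_lit 23) (.e (nat_lit 352315) (nat_lit 23) (.e (nat_lit 98363) (nat_lit 26) (.e (nat_lit 426445) (nat_lit 20) .nil)))))) (.g (nat_lit 4) .nil .nil))) 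
(.lf (nat_lit 237220) (.g (nat_lit 1249) (.e (nat_lit 114714) (nat_lit 22) (.e (nat_lit 90133) (nat_lit 9) (.e (nat_lit 333) (nat_lit 26) (.e (nat_lit 376862) (nat_lit 22) (.e (nat_lit 90169) (nat_lit 13) (.e (nat_lit 179968) (nat_lit 20) .nil)))))) (.g (nat_lit 4) .nil .nil)))) (.nd (nat_lit 5) 
(.lf (nat_lit 237204) (.g (nat_lit 2419) (.e (nat_lit 114714) (nat_lit 22) (.e (nat_lit 90128) (nat_lit 9) (.e (nat_lit 334) (nat_lit 26) (.e (nat_lit 376865) (nat_lit 22) (.e (nat_lit 90170) (nat_lit 13) (.e (nat_lit 179968) (nat_lit 20) .nil)))))) (.g (nat_lit 5) .nil .nil))) 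
(.lf (nat_lit 237236) (.g (nat_lit 5467) (.e (nat_lit 114714) (nat_lit 22) (.e (nat_lit 90157) (nat_lit 11) (.e (nat_lit 24665) (nat_lit 14) (.e (nat_lit 401463) (nat_lit 15) (.e (nat_lit 1858) (nat_lit 124) (.e (nat_lit 557100) (nat_lit 13) (.e (nat_lit 179968) (nat_lit 20) .nil))))))) (.g (nat_lit 6) .nil .nil))))) (.nd (nat_lit 4) (.nd (nat_lit 5) 
(.lf (nat_lit 237196) (.g (nat_lit 1965) (.e (nat_lit 114714) (nat_lit 22) (.e (nat_lit 90128) (nat_lit 9) (.e (nat_lit 334) (nat_lit 26) (.e (nat_lit 376862) (nat_lit 22) (.e (nat_lit 90168) (nat_lit 13) (.e (nat_lit 179968) (nat_lit 20) .nil)))))) (.g (nat_lit 5) .nil .nil))) 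
(.lf (nat_lit 237228) (.g (nat_lit 2696) (.e (nat_lit 114714) (nat_lit 22) (.e (nat_lit 90157) (nat_lit 11) (.e (nat_lit 24632) (nat_lit 9) (.e (nat_lit 336028) (nat_lit 3) (.e (nat_lit 98359) (nat_lit 26) (.e (nat_lit 433920) (nat_lit 20) .nil)))))) (.g (nat_lit 5) .nil .nil)))) (.nd (nat_lit 5) 
(.lf (nat_lit 237212) (.g (nat_lit 2411) (.e (nat_lit 114714) (nat_lit 22) (.e (nat_lit 90128) (nat_lit 9) (.e (nat_lit 334) (nat_lit 26) (.e (nat_lit 376869) (nat_lit 23) (.e (nat_lit 98359) (nat_lit 26) (.e (nat_lit 433920) (nat_lit 20) .nil)))))) (.g (nat_lit 5) .nil .nil))) 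
(.lf (nat_lit 237244) (.g (nat_lit 2112) (.e (nat_lit 114714) (nat_lit 22) (.e (nat_lit 90158) (nat_lit 11) (.e (nat_lit 24628) (nat_lit 9) (.e (nat_lit 335878) (nat_lit 0) (.e (nat_lit 1705) (nat_lit 117) (.e (nat_lit 499919) (nat_lit 9) (.e (nat_lit 179968) (nat_lit 20) .nil))))))) (.g (nat_lit 4) .nil .nil))))))) (.nd (nat_lit 2) (.nd (nat_lit 3) (.nd (nat_lit 4) (.nd (nat_lit 5) 
(.lf (nat_lit 237186) (.g (nat_lit 2683) (.e (nat_lit 114714) (nat_lit 22) (.e (nat_lit 90128) (nat_lit 9) (.e (nat_lit 314) (nat_lit 23) (.e (nat_lit 352315) (nat_lit 23) (.e (nat_lit 98359) (nat_lit 26) (.e (nat_lit 433920) (nat_lit 20) .nil)))))) (.g (nat_lit 5) .nil .nil))) 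
(.lf (nat_lit 237218) (.g (nat_lit 2271) (.e (nat_lit 114714) (nat_lit 22) (.e (nat_lit 90133) (nat_lit 9) (.e (nat_lit 313) (nat_lit 23) (.e (nat_lit 352312) (nat_lit 22) (.e (nat_lit 90170) (nat_lit 13) (.e (nat_lit 179968) (nat_lit 20) .nil)))))) (.g (nat_lit 5) .nil .nil)))) (.nd (nat_lit 5) 
(.lf (nat_lit 237202) (.g (nat_lit 1861) (.e (nat_lit 114714) (nat_lit 22) (.e (nat_lit 90128) (nat_lit 9) (.e (nat_lit 334) (nat_lit 26) (.e (nat_lit 376865) (nat_lit 22) (.e (nat_lit 90168) (nat_lit 13) (.e (nat_lit 179968) (nat_lit 20) .nil)))))) (.g (nat_lit 5) .nil .nil))) 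
(.lf (nat_lit 237234) (.g (nat_lit 2454) (.e (nat_lit 114714) (nat_lit 22) (.e (nat_lit 90157) (nat_lit 11) (.e (nat_lit 24664) (nat_lit 14) (.e (nat_lit 401463) (nat_lit 15) (.e (nat_lit 1859) (nat_lit 124) (.e (nat_lit 557098) (nat_lit 13) (.e (nat_lit 179968) (nat_lit 20) .nil))))))) (.g (nat_lit 5) .nil .nil))))) (.nd (nat_lit 4) (.nd (nat_lit 5) 
(.lf (nat_lit 237194) (.g (nat_lit 1092) (.e (nat_lit 114714) (nat_lit 22) (.e (nat_lit 90128) (nat_lit 9) (.e (nat_lit 334) (nat_lit 26) (.e (nat_lit 376861) (nat_lit 22) .nil)))) .nil)) 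
(.lf (nat_lit 237226) (.g (nat_lit 2265) (.e (nat_lit 114714) (nat_lit 22) (.e (nat_lit 90157) (nat_lit 11) (.e (nat_lit 24628) (nat_lit 9) (.e (nat_lit 336019) (nat_lit 3) (.e (nat_lit 98357) (nat_lit 26) (.e (nat_lit 426446) (nat_lit 20) .nil)))))) (.g (nat_lit 4) .nil .nil)))) (.nd (nat_lit 5) 
(.lf (nat_lit 237210) (.g (nat_lit 2142) (.e (nat_lit 114714) (nat_lit 22) (.e (nat_lit 90128) (nat_lit 9) (.e (nat_lit 334) (nat_lit 26) (.e (nat_lit 376867) (nat_lit 23) (.e (nat_lit 98365) (nat_lit 26) (.e (nat_lit 433920) (nat_lit 20) .nil)))))) (.g (nat_lit 5) .nil .nil))) 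
(.lf (nat_lit 237242) (.g (nat_lit 1251) (.e (nat_lit 114714) (nat_lit 22) (.e (nat_lit 90158) (nat_lit 11) (.e (nat_lit 24628) (nat_lit 9) (.e (nat_lit 335878) (nat_lit 0) .nil)))) .nil))))) (.nd (nat_lit 3) (.nd (nat_lit 4) (.nd (nat_lit 5) 
(.lf (nat_lit 237190) (.g (nat_lit 1933) (.e (nat_lit 114714) (nat_lit 22) (.e (nat_lit 90128) (nat_lit 9) (.e (nat_lit 324) (nat_lit 24) (.e (nat_lit 360458) (nat_lit 1) (.e (nat_lit 499919) (nat_lit 9) (.e (nat_lit 179968) (nat_lit 20) .nil)))))) (.g (nat_lit 5) .nil .nil))) 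
(.lf (nat_lit 237222) (.g (nat_lit 422) (.e (nat_lit 114714) (nat_lit 22) (.e (nat_lit 90134) (nat_lit 9) (.e (nat_lit 7936) (nat_lit 26) .nil))) .nil))) (.nd (nat_lit 5) 
(.lf (nat_lit 237206) (.g (nat_lit 1558) (.e (nat_lit 114714) (nat_lit 22) (.e (nat_lit 90128) (nat_lit 9) (.e (nat_lit 334) (nat_lit 26) (.e (nat_lit 376867) (nat_lit 23) (.e (nat_lit 98354) (nat_lit 26) (.e (nat_lit 433920) (nat_lit 20) .nil)))))) (.g (nat_lit 5) .nil .nil))) 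
(.lf (nat_lit 237238) (.g (nat_lit 4272) (.e (nat_lit 114714) (nat_lit 22) (.e (nat_lit 90157) (nat_lit 11) (.e (nat_lit 24665) (nat_lit 14) (.e (nat_lit 401463) (nat_lit 15) (.e (nat_lit 1859) (nat_lit 124) (.e (nat_lit 557098) (nat_lit 13) (.e (nat_lit 179968) (nat_lit 20) .nil))))))) (.g (nat_lit 6) .nil .nil))))) (.nd (nat_lit 4) (.nd (nat_lit 5) 
(.lf (nat_lit 237198) (.g (nat_lit 2652) (.e (nat_lit 114714) (nat_lit 22) (.e (nat_lit 90128) (nat_lit 9) (.e (nat_lit 334) (nat_lit 26) (.e (nat_lit 376862) (nat_lit 22) (.e (nat_lit 90170) (nat_lit 13) (.e (nat_lit 179968) (nat_lit 20) .nil)))))) (.g (nat_lit 5) .nil .nil))) 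
(.lf (nat_lit 237230) (.g (nat_lit 2557) (.e (nat_lit 114714) (nat_lit 22) (.e (nat_lit 90157) (nat_lit 11) (.e (nat_lit 24640) (nat_lit 10) (.e (nat_lit 344117) (nat_lit 21) (.e (nat_lit 516145) (nat_lit 9) (.e (nat_lit 433920) (nat_lit 20) .nil)))))) (.g (nat_lit 4) .nil .nil)))) (.nd (nat_lit 5) 
(.lf (nat_lit 237214) (.g (nat_lit 1789) (.e (nat_lit 114714) (nat_lit 22) (.e (nat_lit 90128) (nat_lit 9) (.e (nat_lit 334) (nat_lit 26) (.e (nat_lit 376869) (nat_lit 23) (.e (nat_lit 98363) (nat_lit 26) (.e (nat_lit 433920) (nat_lit 20) .nil)))))) (.g (nat_lit 5) .nil .nil))) 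
(.lf (nat_lit 237246) (.g (nat_lit 2646) (.e (nat_lit 114714) (nat_lit 22) (.e (nat_lit 90158) (nat_lit 11) (.e (nat_lit 24628) (nat_lit 9) (.e (nat_lit 336016) (nat_lit 2) (.e (nat_lit 90133) (nat_lit 9) (.e (nat_lit 2898) (nat_lit 184) (.e (nat_lit 426447) (nat_lit 20) .nil))))))) (.g (nat_lit 5) .nil .nil)))))))) 
(.nd (nat_lit 1) (.nd (nat_lit 2) (.nd (nat_lit 3) (.nd (nat_lit 4) (.nd (nat_lit 5) 
(.lf (nat_lit 237185) (.g (nat_lit 2039) (.e (nat_lit 114714) (nat_lit 22) (.e (nat_lit 90128) (nat_lit 9) (.e (nat_lit 314) (nat_lit 23) (.e (nat_lit 352315) (nat_lit 23) (.e (nat_lit 98356) (nat_lit 26) (.e (nat_lit 433920) (nat_lit 20) .nil)))))) (.g (nat_lit 5) .nil .nil))) 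
(.lf (nat_lit 237217) (.g (nat_lit 1891) (.e (nat_lit 114714) (nat_lit 22) (.e (nat_lit 90133) (nat_lit 9) (.e (nat_lit 313) (nat_lit 23) (.e (nat_lit 352310) (nat_lit 22) (.e (nat_lit 90170) (nat_lit 13) (.e (nat_lit 179968) (nat_lit 20) .nil)))))) (.g (nat_lit 5) .nil .nil)))) (.nd (nat_lit 5) 
(.lf (nat_lit 237201) (.g (nat_lit 2020) (.e (nat_lit 114714) (nat_lit 22) (.e (nat_lit 90128) (nat_lit 9) (.e (nat_lit 334) (nat_lit 26) (.e (nat_lit 376865) (nat_lit 22) (.e (nat_lit 90167) (nat_lit 13) (.e (nat_lit 179968) (nat_lit 20) .nil)))))) (.g (nat_lit 5) .nil .nil))) 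
(.lf (nat_lit 237233) (.g (nat_lit 1226) (.e (nat_lit 114714) (nat_lit 22) (.e (nat_lit 90157) (nat_lit 11) (.e (nat_lit 24641) (nat_lit 10) (.e (nat_lit 344119) (nat_lit 21) (.e (nat_lit 516147) (nat_lit 9) .nil))))) .nil)))) (.nd (nat_lit 4) (.nd (nat_lit 5) 
(.lf (nat_lit 237193) (.g (nat_lit 352) (.e (nat_lit 114714) (nat_lit 22) (.e (nat_lit 90128) (nat_lit 9) (.e (nat_lit 334) (nat_lit 26) .nil))) .nil)) 
(.lf (nat_lit 237225) (.g (nat_lit 3176) (.e (nat_lit 114714) (nat_lit 22) (.e (nat_lit 90157) (nat_lit 11) (.e (nat_lit 24623) (nat_lit 9) (.e (nat_lit 336028) (nat_lit 3) (.e (nat_lit 98359) (nat_lit 26) (.e (nat_lit 433920) (nat_lit 20) .nil)))))) (.g (nat_lit 5) .nil .nil)))) (.nd (nat_lit 5) 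
(.lf (nat_lit 237209) (.g (nat_lit 1728) (.e (nat_lit 114714) (nat_lit 22) (.e (nat_lit 90128) (nat_lit 9) (.e (nat_lit 334) (nat_lit 26) (.e (nat_lit 376867) (nat_lit 23) (.e (nat_lit 98363) (nat_lit 26) (.e (nat_lit 433920) (nat_lit 20) .nil)))))) (.g (nat_lit 5) .nil .nil))) 
(.lf (nat_lit 237241) (.g (nat_lit 377) (.e (nat_lit 114714) (nat_lit 22) (.e (nat_lit 90158) (nat_lit 11) (.e (nat_lit 24628) (nat_lit 9) .nil))) .nil))))) (.nd (nat_lit 3) (.nd (nat_lit 4) (.nd (nat_lit 5) 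
(.lf (nat_lit 237189) (.g (nat_lit 1585) (.e (nat_lit 114714) (nat_lit 22) (.e (nat_lit 90128) (nat_lit 9) (.e (nat_lit 314) (nat_lit 23) (.e (nat_lit 352315) (nat_lit 23) (.e (nat_lit 98363) (nat_lit 26) (.e (nat_lit 433920) (nat_lit 20) .nil)))))) (.g (nat_lit 4) .nil .nil))) 
(.lf (nat_lit 237221) (.g (nat_lit 422) (.e (nat_lit 114714) (nat_lit 22) (.e (nat_lit 90134) (nat_lit 9) (.e (nat_lit 7936) (nat_lit 23) .nil))) .nil))) (.nd (nat_lit 5) 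
(.lf (nat_lit 237205) (.g (nat_lit 2532) (.e (nat_lit 114714) (nat_lit 22) (.e (nat_lit 90128) (nat_lit 9) (.e (nat_lit 334) (nat_lit 26) (.e (nat_lit 376865) (nat_lit 22) (.e (nat_lit 90185) (nat_lit 17) (.e (nat_lit 245504) (nat_lit 20) .nil)))))) (.g (nat_lit 5) .nil .nil))) 
(.lf (nat_lit 237237) (.g (nat_lit 2695) (.e (nat_lit 114714) (nat_lit 22) (.e (nat_lit 90157) (nat_lit 11) (.e (nat_lit 24665) (nat_lit 14) (.e (nat_lit 401463) (nat_lit 15) (.e (nat_lit 1858) (nat_lit 124) (.e (nat_lit 557101) (nat_lit 13) (.e (nat_lit 179968) (nat_lit 20) .nil))))))) (.g (nat_lit 4) .nil .nil))))) (.nd (nat_lit 4) (.nd (nat_lit 5) 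
(.lf (nat_lit 237197) (.g (nat_lit 2190) (.e (nat_lit 114714) (nat_lit 22) (.e (nat_lit 90128) (nat_lit 9) (.e (nat_lit 334) (nat_lit 26) (.e (nat_lit 376862) (nat_lit 22) (.e (nat_lit 90169) (nat_lit 13) (.e (nat_lit 179968) (nat_lit 20) .nil)))))) (.g (nat_lit 5) .nil .nil))) 
(.lf (nat_lit 237229) (.g (nat_lit 2150) (.e (nat_lit 114714) (nat_lit 22) (.e (nat_lit 90157) (nat_lit 11) (.e (nat_lit 24638) (nat_lit 9) (.e (nat_lit 336021) (nat_lit 3) (.e (nat_lit 98357) (nat_lit 26) (.e (nat_lit 426446) (nat_lit 20) .nil)))))) (.g (nat_lit 4) .nil .nil)))) (.nd (nat_lit 5) 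
(.lf (nat_lit 237213) (.g (nat_lit 2279) (.e (nat_lit 114714) (nat_lit 22) (.e (nat_lit 90128) (nat_lit 9) (.e (nat_lit 334) (nat_lit 26) (.e (nat_lit 376869) (nat_lit 23) (.e (nat_lit 98363) (nat_lit 26) (.e (nat_lit 426447) (nat_lit 20) .nil)))))) (.g (nat_lit 0) .nil .nil))) 
(.lf (nat_lit 237245) (.g (nat_lit 1224) (.e (nat_lit 114714) (nat_lit 22) (.e (nat_lit 90158) (nat_lit 11) (.e (nat_lit 24628) (nat_lit 9) (.e (nat_lit 336016) (nat_lit 2) .nil)))) .nil)))))) (.nd (nat_lit 2) (.nd (nat_lit 3) (.nd (nat_lit 4) (.nd (nat_lit 5) 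
(.lf (nat_lit 237187) (.g (nat_lit 1597) (.e (nat_lit 114714) (nat_lit 22) (.e (nat_lit 90128) (nat_lit 9) (.e (nat_lit 314) (nat_lit 23) (.e (nat_lit 352315) (nat_lit 23) (.e (nat_lit 98362) (nat_lit 26) .nil))))) .nil)) 
(.lf (nat_lit 237219) (.g (nat_lit 1025) (.e (nat_lit 114714) (nat_lit 22) (.e (nat_lit 90133) (nat_lit 9) (.e (nat_lit 333) (nat_lit 26) (.e (nat_lit 376862) (nat_lit 22) (.e (nat_lit 90168) (nat_lit 13) (.e (nat_lit 179968) (nat_lit 20) .nil)))))) (.g (nat_lit 4) .nil .nil)))) (.nd (nat_lit 5) 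
(.lf (nat_lit 237203) (.g (nat_lit 2067) (.e (nat_lit 114714) (nat_lit 22) (.e (nat_lit 90128) (nat_lit 9) (.e (nat_lit 334) (nat_lit 26) (.e (nat_lit 376865) (nat_lit 22) (.e (nat_lit 90169) (nat_lit 13) (.e (nat_lit 179968) (nat_lit 20) .nil)))))) (.g (nat_lit 5) .nil .nil))) 
(.lf (nat_lit 237235) (.g (nat_lit 5745) (.e (nat_lit 114714) (nat_lit 22) (.e (nat_lit 90157) (nat_lit 11) (.e (nat_lit 24665) (nat_lit 14) (.e (nat_lit 401414) (nat_lit 0) (.e (nat_lit 3272) (nat_lit 199) (.e (nat_lit 548913) (nat_lit 18) (.e (nat_lit 179968) (nat_lit 20) .nil))))))) (.g (nat_lit 6) .nil .nil))))) (.nd (nat_lit 4) (.nd (nat_lit 5) 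
(.lf (nat_lit 237195) (.g (nat_lit 2124) (.e (nat_lit 114714) (nat_lit 22) (.e (nat_lit 90128) (nat_lit 9) (.e (nat_lit 334) (nat_lit 26) (.e (nat_lit 376862) (nat_lit 22) (.e (nat_lit 90167) (nat_lit 13) (.e (nat_lit 179968) (nat_lit 20) .nil)))))) (.g (nat_lit 5) .nil .nil))) 
(.lf (nat_lit 237227) (.g (nat_lit 3378) (.e (nat_lit 114714) (nat_lit 22) (.e (nat_lit 90157) (nat_lit 11) (.e (nat_lit 24632) (nat_lit 9) (.e (nat_lit 336013) (nat_lit 2) (.e (nat_lit 90170) (nat_lit 13) (.e (nat_lit 179968) (nat_lit 20) .nil)))))) (.g (nat_lit 5) .nil .nil)))) (.nd (nat_lit 5) 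
(.lf (nat_lit 237211) (.g (nat_lit 2044) (.e (nat_lit 114714) (nat_lit 22) (.e (nat_lit 90128) (nat_lit 9) (.e (nat_lit 334) (nat_lit 26) (.e (nat_lit 376869) (nat_lit 23) (.e (nat_lit 98354) (nat_lit 26) (.e (nat_lit 433920) (nat_lit 20) .nil)))))) (.g (nat_lit 5) .nil .nil))) 
(.lf (nat_lit 237243) (.g (nat_lit 2810) (.e (nat_lit 114714) (nat_lit 22) (.e (nat_lit 90158) (nat_lit 11) (.e (nat_lit 24628) (nat_lit 9) (.e (nat_lit 335878) (nat_lit 0) (.e (nat_lit 1703) (nat_lit 117) (.e (nat_lit 499919) (nat_lit 9) (.e (nat_lit 179968) (nat_lit 20) .nil))))))) (.g (nat_lit 6) .nil .nil)))))) (.nd (nat_lit 3) (.nd (nat_lit 4) (.nd (nat_lit 5) 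
(.lf (nat_lit 237191) (.g (nat_lit 1816) (.e (nat_lit 114714) (nat_lit 22) (.e (nat_lit 90128) (nat_lit 9) (.e (nat_lit 324) (nat_lit 24) (.e (nat_lit 360466) (nat_lit 3) (.e (nat_lit 516146) (nat_lit 9) (.e (nat_lit 433920) (nat_lit 20) .nil)))))) (.g (nat_lit 5) .nil .nil))) 
(.lf (nat_lit 237223) (.g (nat_lit 1767) (.e (nat_lit 114714) (nat_lit 22) (.e (nat_lit 90156) (nat_lit 11) (.e (nat_lit 24640) (nat_lit 10) (.e (nat_lit 344117) (nat_lit 21) (.e (nat_lit 516147) (nat_lit 9) .nil))))) .nil))) (.nd (nat_lit 5) 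
(.lf (nat_lit 237207) (.g (nat_lit 2252) (.e (nat_lit 114714) (nat_lit 22) (.e (nat_lit 90128) (nat_lit 9) (.e (nat_lit 334) (nat_lit 26) (.e (nat_lit 376867) (nat_lit 23) (.e (nat_lit 98359) (nat_lit 26) (.e (nat_lit 433920) (nat_lit 20) .nil)))))) (.g (nat_lit 5) .nil .nil))) 
(.lf (nat_lit 237239) (.g (nat_lit 3962) (.e (nat_lit 114714) (nat_lit 22) (.e (nat_lit 90158) (nat_lit 11) (.e (nat_lit 24623) (nat_lit 9) (.e (nat_lit 336013) (nat_lit 2) (.e (nat_lit 90170) (nat_lit 13) (.e (nat_lit 179968) (nat_lit 20) .nil)))))) (.g (nat_lit 5) .nil .nil))))) (.nd (nat_lit 4) (.nd (nat_lit 5) 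
(.lf (nat_lit 237199) (.g (nat_lit 2476) (.e (nat_lit 114714) (nat_lit 22) (.e (nat_lit 90128) (nat_lit 9) (.e (nat_lit 334) (nat_lit 26) (.e (nat_lit 376862) (nat_lit 22) (.e (nat_lit 90185) (nat_lit 17) (.e (nat_lit 245504) (nat_lit 20) .nil)))))) (.g (nat_lit 5) .nil .nil))) 
(.lf (nat_lit 237231) (.g (nat_lit 2393) (.e (nat_lit 114714) (nat_lit 22) (.e (nat_lit 90157) (nat_lit 11) (.e (nat_lit 24640) (nat_lit 10) (.e (nat_lit 344117) (nat_lit 21) (.e (nat_lit 516147) (nat_lit 9) (.e (nat_lit 426446) (nat_lit 20) .nil)))))) (.g (nat_lit 4) .nil .nil)))) (.nd (nat_lit 5) 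
(.lf (nat_lit 237215) (.g (nat_lit 2227) (.e (nat_lit 114714) (nat_lit 22) (.e (nat_lit 90128) (nat_lit 9) (.e (nat_lit 334) (nat_lit 26) (.e (nat_lit 376869) (nat_lit 23) (.e (nat_lit 98365) (nat_lit 26) (.e (nat_lit 433920) (nat_lit 20) .nil)))))) (.g (nat_lit 5) .nil .nil))) 
(.lf (nat_lit 237247) (.g (nat_lit 2684) (.e (nat_lit 114714) (nat_lit 22) (.e (nat_lit 90158) (nat_lit 11) (.e (nat_lit 24628) (nat_lit 9) (.e (nat_lit 336016) (nat_lit 2) (.e (nat_lit 90133) (nat_lit 9) (.e (nat_lit 2900) (nat_lit 184) (.e (nat_lit 426447) (nat_lit 20) .nil))))))) (.g (nat_lit 5) .nil .nil)))))))))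

noncomputable def tv3093 : DT := (.nd (nat_lit 0) (.nd (nat_lit 1) (.nd (nat_lit 2) (.nd (nat_lit 3) (.nd (nat_lit 4) (.nd (nat_lit 5) 
(.lf (nat_lit 237248) (.g (nat_lit 2170) (.e (nat_lit 114714) (nat_lit 22) (.e (nat_lit 90158) (nat_lit 11) (.e (nat_lit 24628) (nat_lit 9) (.e (nat_lit 336016) (nat_lit 2) (.e (nat_lit 90133) (nat_lit 9) (.e (nat_lit 2943) (nat_lit 184) (.e (nat_lit 426447) (nat_lit 20) .nil))))))) (.g (nat_lit 4) .nil .nil))) 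
(.lf (nat_lit 237280) (.g (nat_lit 5676) (.e (nat_lit 114714) (nat_lit 22) (.e (nat_lit 90159) (nat_lit 11) (.e (nat_lit 24665) (nat_lit 14) (.e (nat_lit 401414) (nat_lit 0) (.e (nat_lit 3272) (nat_lit 199) (.e (nat_lit 548913) (nat_lit 18) (.e (nat_lit 179968) (nat_lit 20) .nil))))))) (.g (nat_lit 6) .nil .nil)))) (.nd (nat_lit 5) 
(.lf (nat_lit 237264) (.g (nat_lit 1880) (.e (nat_lit 114714) (nat_lit 22) (.e (nat_lit 90158) (nat_lit 11) (.e (nat_lit 24644) (nat_lit 11) (.e (nat_lit 368676) (nat_lit 21) (.e (nat_lit 516146) (nat_lit 9) (.e (nat_lit 433920) (nat_lit 20) .nil)))))) (.g (nat_lit 4) .nil .nil))) 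
(.lf (nat_lit 237296) (.g (nat_lit 3687) (.e (nat_lit 114714) (nat_lit 22) (.e (nat_lit 90160) (nat_lit 11) (.e (nat_lit 24623) (nat_lit 9) (.e (nat_lit 336013) (nat_lit 2) (.e (nat_lit 90170) (nat_lit 13) (.e (nat_lit 179968) (nat_lit 20) .nil)))))) (.g (nat_lit 5) .nil .nil))))) (.nd (nat_lit 4) (.nd (nat_lit 5) 
(.lf (nat_lit 237256) (.g (nat_lit 3466) (.e (nat_lit 114714) (nat_lit 22) (.e (nat_lit 90158) (nat_lit 11) (.e (nat_lit 24632) (nat_lit 9) (.e (nat_lit 336013) (nat_lit 2) (.e (nat_lit 90170) (nat_lit 13) (.e (nat_lit 179968) (nat_lit 20) .nil)))))) (.g (nat_lit 5) .nil .nil))) 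
(.lf (nat_lit 237288) (.g (nat_lit 2469) (.e (nat_lit 114714) (nat_lit 22) (.e (nat_lit 90160) (nat_lit 11) (.e (nat_lit 24617) (nat_lit 7) (.e (nat_lit 319505) (nat_lit 10) (.e (nat_lit 577) (nat_lit 43) .nil))))) .nil))) (.nd (nat_lit 5) 
(.lf (nat_lit 237272) (.g (nat_lit 2286) (.e (nat_lit 114714) (nat_lit 22) (.e (nat_lit 90159) (nat_lit 11) (.e (nat_lit 24623) (nat_lit 9) (.e (nat_lit 336028) (nat_lit 3) (.e (nat_lit 98359) (nat_lit 26) (.e (nat_lit 433920) (nat_lit 20) .nil)))))) (.g (nat_lit 4) .nil .nil))) 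
(.lf (nat_lit 237304) (.g (nat_lit 2766) (.e (nat_lit 114714) (nat_lit 22) (.e (nat_lit 90160) (nat_lit 11) (.e (nat_lit 24631) (nat_lit 9) (.e (nat_lit 336001) (nat_lit 2) (.e (nat_lit 90170) (nat_lit 13) (.e (nat_lit 179968) (nat_lit 20) .nil)))))) (.g (nat_lit 5) .nil .nil)))))) (.nd (nat_lit 3) (.nd (nat_lit 4) (.nd (nat_lit 5) 
(.lf (nat_lit 237252) (.g (nat_lit 2514) (.e (nat_lit 114714) (nat_lit 22) (.e (nat_lit 90158) (nat_lit 11) (.e (nat_lit 24628) (nat_lit 9) (.e (nat_lit 336019) (nat_lit 3) (.e (nat_lit 98354) (nat_lit 26) .nil))))) .nil)) 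
(.lf (nat_lit 237284) (.g (nat_lit 690) (.e (nat_lit 114714) (nat_lit 22) (.e (nat_lit 90160) (nat_lit 11) (.e (nat_lit 24580) (nat_lit 0) .nil))) .nil))) (.nd (nat_lit 5) 
(.lf (nat_lit 237268) (.g (nat_lit 5766) (.e (nat_lit 114714) (nat_lit 22) (.e (nat_lit 90158) (nat_lit 11) (.e (nat_lit 24665) (nat_lit 14) (.e (nat_lit 401414) (nat_lit 0) (.e (nat_lit 3272) (nat_lit 199) (.e (nat_lit 548913) (nat_lit 18) (.e (nat_lit 179968) (nat_lit 20) .nil))))))) (.g (nat_lit 6) .nil .nil))) 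
(.lf (nat_lit 237300) (.g (nat_lit 3351) (.e (nat_lit 114714) (nat_lit 22) (.e (nat_lit 90160) (nat_lit 11) (.e (nat_lit 24628) (nat_lit 9) (.e (nat_lit 336019) (nat_lit 3) (.e (nat_lit 98356) (nat_lit 26) (.e (nat_lit 426449) (nat_lit 20) .nil)))))) (.g (nat_lit 6) .nil .nil))))) (.nd (nat_lit 4) (.nd (nat_lit 5) 
(.lf (nat_lit 237260) (.g (nat_lit 2700) (.e (nat_lit 114714) (nat_lit 22) (.e (nat_lit 90158) (nat_lit 11) (.e (nat_lit 24639) (nat_lit 10) (.e (nat_lit 344117) (nat_lit 21) (.e (nat_lit 516151) (nat_lit 9) (.e (nat_lit 433920) (nat_lit 20) .nil)))))) (.g (nat_lit 5) .nil .nil))) 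
(.lf (nat_lit 237292) (.g (nat_lit 2965) (.e (nat_lit 114714) (nat_lit 22) (.e (nat_lit 90160) (nat_lit 11) (.e (nat_lit 24617) (nat_lit 7) (.e (nat_lit 319505) (nat_lit 10) (.e (nat_lit 584) (nat_lit 43) (.e (nat_lit 516117) (nat_lit 1) (.e (nat_lit 164403) (nat_lit 256) (.e (nat_lit 57389) (nat_lit 5) .nil)))))))) (.g (nat_lit 4) .nil .nil)))) (.nd (nat_lit 5) 
(.lf (nat_lit 237276) (.g (nat_lit 2437) (.e (nat_lit 114714) (nat_lit 22) (.e (nat_lit 90159) (nat_lit 11) (.e (nat_lit 24640) (nat_lit 10) (.e (nat_lit 344117) (nat_lit 21) (.e (nat_lit 516145) (nat_lit 9) (.e (nat_lit 433920) (nat_lit 20) .nil)))))) (.g (nat_lit 4) .nil .nil))) 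
(.lf (nat_lit 237308) (.g (nat_lit 2670) (.e (nat_lit 114714) (nat_lit 22) (.e (nat_lit 90160) (nat_lit 11) (.e (nat_lit 24632) (nat_lit 9) (.e (nat_lit 336028) (nat_lit 3) (.e (nat_lit 98359) (nat_lit 26) (.e (nat_lit 433920) (nat_lit 20) .nil)))))) (.g (nat_lit 5) .nil .nil))))))) (.nd (nat_lit 2) (.nd (nat_lit 3) (.nd (nat_lit 4) (.nd (nat_lit 5) 
(.lf (nat_lit 237250) (.g (nat_lit 2464) (.e (nat_lit 114714) (nat_lit 22) (.e (nat_lit 90158) (nat_lit 11) (.e (nat_lit 24628) (nat_lit 9) (.e (nat_lit 336016) (nat_lit 2) (.e (nat_lit 90169) (nat_lit 13) (.e (nat_lit 179968) (nat_lit 20) .nil)))))) (.g (nat_lit 5) .nil .nil))) 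
(.lf (nat_lit 237282) (.g (nat_lit 2482) (.e (nat_lit 114714) (nat_lit 22) (.e (nat_lit 90159) (nat_lit 11) (.e (nat_lit 24665) (nat_lit 14) (.e (nat_lit 401463) (nat_lit 15) (.e (nat_lit 1858) (nat_lit 124) (.e (nat_lit 557101) (nat_lit 13) (.e (nat_lit 179968) (nat_lit 20) .nil))))))) (.g (nat_lit 4) .nil .nil)))) (.nd (nat_lit 5) 
(.lf (nat_lit 237266) (.g (nat_lit 2004) (.e (nat_lit 114714) (nat_lit 22) (.e (nat_lit 90158) (nat_lit 11) (.e (nat_lit 24651) (nat_lit 12) (.e (nat_lit 385066) (nat_lit 26) (.e (nat_lit 540416) (nat_lit 18) .nil))))) .nil)) 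
(.lf (nat_lit 237298) (.g (nat_lit 1932) (.e (nat_lit 114714) (nat_lit 22) (.e (nat_lit 90160) (nat_lit 11) (.e (nat_lit 24628) (nat_lit 9) (.e (nat_lit 336019) (nat_lit 3) (.e (nat_lit 98354) (nat_lit 26) .nil))))) .nil)))) (.nd (nat_lit 4) (.nd (nat_lit 5) 
(.lf (nat_lit 237258) (.g (nat_lit 1898) (.e (nat_lit 114714) (nat_lit 22) (.e (nat_lit 90158) (nat_lit 11) (.e (nat_lit 24635) (nat_lit 9) (.e (nat_lit 336028) (nat_lit 3) (.e (nat_lit 98359) (nat_lit 26) (.e (nat_lit 433920) (nat_lit 20) .nil)))))) (.g (nat_lit 4) .nil .nil))) 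
(.lf (nat_lit 237290) (.g (nat_lit 2493) (.e (nat_lit 114714) (nat_lit 22) (.e (nat_lit 90160) (nat_lit 11) (.e (nat_lit 24617) (nat_lit 7) (.e (nat_lit 319505) (nat_lit 10) (.e (nat_lit 584) (nat_lit 43) (.e (nat_lit 516115) (nat_lit 1) (.e (nat_lit 164399) (nat_lit 256) (.e (nat_lit 57390) (nat_lit 5) .nil)))))))) (.g (nat_lit 4) .nil .nil)))) (.nd (nat_lit 5) 
(.lf (nat_lit 237274) (.g (nat_lit 2179) (.e (nat_lit 114714) (nat_lit 22) (.e (nat_lit 90159) (nat_lit 11) (.e (nat_lit 24638) (nat_lit 9) (.e (nat_lit 336021) (nat_lit 3) (.e (nat_lit 98357) (nat_lit 26) (.e (nat_lit 426446) (nat_lit 20) .nil)))))) (.g (nat_lit 4) .nil .nil))) 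
(.lf (nat_lit 237306) (.g (nat_lit 2145) (.e (nat_lit 114714) (nat_lit 22) (.e (nat_lit 90160) (nat_lit 11) (.e (nat_lit 24631) (nat_lit 9) (.e (nat_lit 336020) (nat_lit 3) (.e (nat_lit 98359) (nat_lit 26) (.e (nat_lit 433920) (nat_lit 20) .nil)))))) (.g (nat_lit 4) .nil .nil)))))) (.nd (nat_lit 3) (.nd (nat_lit 4) (.nd (nat_lit 5) 
(.lf (nat_lit 237254) (.g (nat_lit 2254) (.e (nat_lit 114714) (nat_lit 22) (.e (nat_lit 90158) (nat_lit 11) (.e (nat_lit 24630) (nat_lit 9) (.e (nat_lit 336019) (nat_lit 3) (.e (nat_lit 98357) (nat_lit 26) .nil))))) .nil)) 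
(.lf (nat_lit 237286) (.g (nat_lit 1069) (.e (nat_lit 114714) (nat_lit 22) (.e (nat_lit 90160) (nat_lit 11) (.e (nat_lit 24616) (nat_lit 7) (.e (nat_lit 319505) (nat_lit 10) .nil)))) .nil))) (.nd (nat_lit 5) 
(.lf (nat_lit 237270) (.g (nat_lit 4403) (.e (nat_lit 114714) (nat_lit 22) (.e (nat_lit 90158) (nat_lit 11) (.e (nat_lit 24665) (nat_lit 14) (.e (nat_lit 401463) (nat_lit 15) (.e (nat_lit 1859) (nat_lit 124) (.e (nat_lit 557098) (nat_lit 13) (.e (nat_lit 179968) (nat_lit 20) .nil))))))) (.g (nat_lit 6) .nil .nil))) 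
(.lf (nat_lit 237302) (.g (nat_lit 2118) (.e (nat_lit 114714) (nat_lit 22) (.e (nat_lit 90160) (nat_lit 11) (.e (nat_lit 24628) (nat_lit 9) (.e (nat_lit 336019) (nat_lit 3) (.e (nat_lit 98363) (nat_lit 26) (.e (nat_lit 426447) (nat_lit 20) .nil)))))) (.g (nat_lit 4) .nil .nil))))) (.nd (nat_lit 4) (.nd (nat_lit 5) 
(.lf (nat_lit 237262) (.g (nat_lit 3145) (.e (nat_lit 114714) (nat_lit 22) (.e (nat_lit 90158) (nat_lit 11) (.e (nat_lit 24640) (nat_lit 10) (.e (nat_lit 344117) (nat_lit 21) (.e (nat_lit 516151) (nat_lit 9) (.e (nat_lit 433920) (nat_lit 20) .nil)))))) (.g (nat_lit 5) .nil .nil))) 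
(.lf (nat_lit 237294) (.g (nat_lit 2469) (.e (nat_lit 114714) (nat_lit 22) (.e (nat_lit 90160) (nat_lit 11) (.e (nat_lit 24617) (nat_lit 7) (.e (nat_lit 319505) (nat_lit 10) (.e (nat_lit 586) (nat_lit 43) .nil))))) .nil))) (.nd (nat_lit 5) 
(.lf (nat_lit 237278) (.g (nat_lit 3266) (.e (nat_lit 114714) (nat_lit 22) (.e (nat_lit 90159) (nat_lit 11) (.e (nat_lit 24640) (nat_lit 10) (.e (nat_lit 344117) (nat_lit 21) (.e (nat_lit 516151) (nat_lit 9) (.e (nat_lit 433920) (nat_lit 20) .nil)))))) (.g (nat_lit 5) .nil .nil))) 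
(.lf (nat_lit 237310) (.g (nat_lit 2100) (.e (nat_lit 114714) (nat_lit 22) (.e (nat_lit 90160) (nat_lit 11) (.e (nat_lit 24633) (nat_lit 9) (.e (nat_lit 336028) (nat_lit 3) (.e (nat_lit 98359) (nat_lit 26) (.e (nat_lit 433920) (nat_lit 20) .nil)))))) (.g (nat_lit 4) .nil .nil)))))))) (.nd (nat_lit 1) (.nd (nat_lit 2) (.nd (nat_lit 3) (.nd (nat_lit 4) (.nd (nat_lit 5) 
(.lf (nat_lit 237249) (.g (nat_lit 1925) (.e (nat_lit 114714) (nat_lit 22) (.e (nat_lit 90158) (nat_lit 11) (.e (nat_lit 24628) (nat_lit 9) (.e (nat_lit 336016) (nat_lit 2) (.e (nat_lit 90168) (nat_lit 13) (.e (nat_lit 179968) (nat_lit 20) .nil)))))) (.g (nat_lit 4) .nil .nil))) 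
(.lf (nat_lit 237281) (.g (nat_lit 5254) (.e (nat_lit 114714) (nat_lit 22) (.e (nat_lit 90159) (nat_lit 11) (.e (nat_lit 24665) (nat_lit 14) (.e (nat_lit 401463) (nat_lit 15) (.e (nat_lit 1858) (nat_lit 124) (.e (nat_lit 557100) (nat_lit 13) (.e (nat_lit 179968) (nat_lit 20) .nil))))))) (.g (nat_lit 6) .nil .nil)))) (.nd (nat_lit 5) 
(.lf (nat_lit 237265) (.g (nat_lit 1974) (.e (nat_lit 114714) (nat_lit 22) (.e (nat_lit 90158) (nat_lit 11) (.e (nat_lit 24648) (nat_lit 12) (.e (nat_lit 385066) (nat_lit 26) (.e (nat_lit 540416) (nat_lit 18) .nil))))) .nil)) 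
(.lf (nat_lit 237297) (.g (nat_lit 3010) (.e (nat_lit 114714) (nat_lit 22) (.e (nat_lit 90160) (nat_lit 11) (.e (nat_lit 24623) (nat_lit 9) (.e (nat_lit 336028) (nat_lit 3) (.e (nat_lit 98359) (nat_lit 26) (.e (nat_lit 433920) (nat_lit 20) .nil)))))) (.g (nat_lit 5) .nil .nil))))) (.nd (nat_lit 4) (.nd (nat_lit 5) 
(.lf (nat_lit 237257) (.g (nat_lit 2725) (.e (nat_lit 114714) (nat_lit 22) (.e (nat_lit 90158) (nat_lit 11) (.e (nat_lit 24632) (nat_lit 9) (.e (nat_lit 336028) (nat_lit 3) (.e (nat_lit 98359) (nat_lit 26) (.e (nat_lit 433920) (nat_lit 20) .nil)))))) (.g (nat_lit 5) .nil .nil))) 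
(.lf (nat_lit 237289) (.g (nat_lit 2086) (.e (nat_lit 114714) (nat_lit 22) (.e (nat_lit 90160) (nat_lit 11) (.e (nat_lit 24617) (nat_lit 7) (.e (nat_lit 319505) (nat_lit 10) (.e (nat_lit 584) (nat_lit 43) .nil))))) .nil))) (.nd (nat_lit 5) 
(.lf (nat_lit 237273) (.g (nat_lit 1824) (.e (nat_lit 114714) (nat_lit 22) (.e (nat_lit 90159) (nat_lit 11) (.e (nat_lit 24632) (nat_lit 9) (.e (nat_lit 336028) (nat_lit 3) (.e (nat_lit 98359) (nat_lit 26) (.e (nat_lit 433920) (nat_lit 20) .nil)))))) (.g (nat_lit 4) .nil .nil))) 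
(.lf (nat_lit 237305) (.g (nat_lit 1150) (.e (nat_lit 114714) (nat_lit 22) (.e (nat_lit 90160) (nat_lit 11) (.e (nat_lit 24631) (nat_lit 9) (.e (nat_lit 336020) (nat_lit 3) .nil)))) .nil))))) (.nd (nat_lit 3) (.nd (nat_lit 4) (.nd (nat_lit 5) 
(.lf (nat_lit 237253) (.g (nat_lit 3118) (.e (nat_lit 114714) (nat_lit 22) (.e (nat_lit 90158) (nat_lit 11) (.e (nat_lit 24628) (nat_lit 9) (.e (nat_lit 336019) (nat_lit 3) (.e (nat_lit 98358) (nat_lit 26) (.e (nat_lit 426449) (nat_lit 20) .nil)))))) (.g (nat_lit 5) .nil .nil))) 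
(.lf (nat_lit 237285) (.g (nat_lit 714) (.e (nat_lit 114714) (nat_lit 22) (.e (nat_lit 90160) (nat_lit 11) (.e (nat_lit 24584) (nat_lit 0) .nil))) .nil))) (.nd (nat_lit 5) 
(.lf (nat_lit 237269) (.g (nat_lit 5599) (.e (nat_lit 114714) (nat_lit 22) (.e (nat_lit 90158) (nat_lit 11) (.e (nat_lit 24665) (nat_lit 14) (.e (nat_lit 401463) (nat_lit 15) (.e (nat_lit 1858) (nat_lit 124) (.e (nat_lit 557100) (nat_lit 13) (.e (nat_lit 179968) (nat_lit 20) .nil))))))) (.g (nat_lit 6) .nil .nil))) 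
(.lf (nat_lit 237301) (.g (nat_lit 2965) (.e (nat_lit 114714) (nat_lit 22) (.e (nat_lit 90160) (nat_lit 11) (.e (nat_lit 24628) (nat_lit 9) (.e (nat_lit 336019) (nat_lit 3) (.e (nat_lit 98356) (nat_lit 26) (.e (nat_lit 433920) (nat_lit 20) .nil)))))) (.g (nat_lit 5) .nil .nil))))) (.nd (nat_lit 4) (.nd (nat_lit 5) 
(.lf (nat_lit 237261) (.g (nat_lit 2389) (.e (nat_lit 114714) (nat_lit 22) (.e (nat_lit 90158) (nat_lit 11) (.e (nat_lit 24640) (nat_lit 10) (.e (nat_lit 344117) (nat_lit 21) (.e (nat_lit 516145) (nat_lit 9) (.e (nat_lit 433920) (nat_lit 20) .nil)))))) (.g (nat_lit 4) .nil .nil))) 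
(.lf (nat_lit 237293) (.g (nat_lit 2747) (.e (nat_lit 114714) (nat_lit 22) (.e (nat_lit 90160) (nat_lit 11) (.e (nat_lit 24617) (nat_lit 7) (.e (nat_lit 319505) (nat_lit 10) (.e (nat_lit 584) (nat_lit 43) (.e (nat_lit 516119) (nat_lit 1) (.e (nat_lit 164401) (nat_lit 256) (.e (nat_lit 57388) (nat_lit 5) .nil)))))))) (.g (nat_lit 4) .nil .nil)))) (.nd (nat_lit 5) 
(.lf (nat_lit 237277) (.g (nat_lit 2587) (.e (nat_lit 114714) (nat_lit 22) (.e (nat_lit 90159) (nat_lit 11) (.e (nat_lit 24640) (nat_lit 10) (.e (nat_lit 344117) (nat_lit 21) (.e (nat_lit 516147) (nat_lit 9) (.e (nat_lit 426446) (nat_lit 20) .nil)))))) (.g (nat_lit 4) .nil .nil))) 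
(.lf (nat_lit 237309) (.g (nat_lit 688) (.e (nat_lit 114714) (nat_lit 22) (.e (nat_lit 90160) (nat_lit 11) (.e (nat_lit 24633) (nat_lit 9) .nil))) .nil)))))) (.nd (nat_lit 2) (.nd (nat_lit 3) (.nd (nat_lit 4) (.nd (nat_lit 5) 
(.lf (nat_lit 237251) (.g (nat_lit 1292) (.e (nat_lit 114714) (nat_lit 22) (.e (nat_lit 90158) (nat_lit 11) (.e (nat_lit 24628) (nat_lit 9) (.e (nat_lit 336018) (nat_lit 3) .nil)))) .nil)) 
(.lf (nat_lit 237283) (.g (nat_lit 4059) (.e (nat_lit 114714) (nat_lit 22) (.e (nat_lit 90159) (nat_lit 11) (.e (nat_lit 24665) (nat_lit 14) (.e (nat_lit 401463) (nat_lit 15) (.e (nat_lit 1859) (nat_lit 124) (.e (nat_lit 557098) (nat_lit 13) (.e (nat_lit 179968) (nat_lit 20) .nil))))))) (.g (nat_lit 6) .nil .nil)))) (.nd (nat_lit 5) 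
(.lf (nat_lit 237267) (.g (nat_lit 2446) (.e (nat_lit 114714) (nat_lit 22) (.e (nat_lit 90158) (nat_lit 11) (.e (nat_lit 24651) (nat_lit 12) (.e (nat_lit 385068) (nat_lit 26) (.e (nat_lit 540416) (nat_lit 18) .nil))))) .nil)) 
(.lf (nat_lit 237299) (.g (nat_lit 2203) (.e (nat_lit 114714) (nat_lit 22) (.e (nat_lit 90160) (nat_lit 11) (.e (nat_lit 24628) (nat_lit 9) (.e (nat_lit 336019) (nat_lit 3) (.e (nat_lit 98354) (nat_lit 26) (.e (nat_lit 433920) (nat_lit 20) .nil)))))) (.g (nat_lit 4) .nil .nil))))) (.nd (nat_lit 4) (.nd (nat_lit 5) 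
(.lf (nat_lit 237259) (.g (nat_lit 1741) (.e (nat_lit 114714) (nat_lit 22) (.e (nat_lit 90158) (nat_lit 11) (.e (nat_lit 24639) (nat_lit 10) (.e (nat_lit 344107) (nat_lit 19) (.e (nat_lit 499825) (nat_lit 5) .nil))))) .nil)) 
(.lf (nat_lit 237291) (.g (nat_lit 2923) (.e (nat_lit 114714) (nat_lit 22) (.e (nat_lit 90160) (nat_lit 11) (.e (nat_lit 24617) (nat_lit 7) (.e (nat_lit 319505) (nat_lit 10) (.e (nat_lit 584) (nat_lit 43) (.e (nat_lit 516117) (nat_lit 1) (.e (nat_lit 164401) (nat_lit 256) (.e (nat_lit 57388) (nat_lit 5) .nil)))))))) (.g (nat_lit 4) .nil .nil)))) (.nd (nat_lit 5) 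
(.lf (nat_lit 237275) (.g (nat_lit 2183) (.e (nat_lit 114714) (nat_lit 22) (.e (nat_lit 90159) (nat_lit 11) (.e (nat_lit 24639) (nat_lit 10) (.e (nat_lit 344117) (nat_lit 21) (.e (nat_lit 516147) (nat_lit 9) (.e (nat_lit 426448) (nat_lit 20) .nil)))))) (.g (nat_lit 4) .nil .nil))) 
(.lf (nat_lit 237307) (.g (nat_lit 3595) (.e (nat_lit 114714) (nat_lit 22) (.e (nat_lit 90160) (nat_lit 11) (.e (nat_lit 24632) (nat_lit 9) (.e (nat_lit 336013) (nat_lit 2) (.e (nat_lit 90170) (nat_lit 13) (.e (nat_lit 179968) (nat_lit 20) .nil)))))) (.g (nat_lit 5) .nil .nil)))))) (.nd (nat_lit 3) (.nd (nat_lit 4) (.nd (nat_lit 5) 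
(.lf (nat_lit 237255) (.g (nat_lit 1961) (.e (nat_lit 114714) (nat_lit 22) (.e (nat_lit 90158) (nat_lit 11) (.e (nat_lit 24630) (nat_lit 9) (.e (nat_lit 336019) (nat_lit 3) (.e (nat_lit 98358) (nat_lit 26) .nil))))) .nil)) 
(.lf (nat_lit 237287) (.g (nat_lit 2873) (.e (nat_lit 114714) (nat_lit 22) (.e (nat_lit 90160) (nat_lit 11) (.e (nat_lit 24617) (nat_lit 7) (.e (nat_lit 319504) (nat_lit 10) (.e (nat_lit 586) (nat_lit 43) (.e (nat_lit 516119) (nat_lit 1) (.e (nat_lit 164403) (nat_lit 256) (.e (nat_lit 57388) (nat_lit 5) .nil)))))))) (.g (nat_lit 4) .nil .nil)))) (.nd (nat_lit 5) 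
(.lf (nat_lit 237271) (.g (nat_lit 2326) (.e (nat_lit 114714) (nat_lit 22) (.e (nat_lit 90159) (nat_lit 11) (.e (nat_lit 24580) (nat_lit 0) (.e (nat_lit 6479) (nat_lit 343) (.e (nat_lit 1237) (nat_lit 91) (.e (nat_lit 90170) (nat_lit 13) (.e (nat_lit 179968) (nat_lit 20) .nil))))))) (.g (nat_lit 4) .nil .nil))) 
(.lf (nat_lit 237303) (.g (nat_lit 648) (.e (nat_lit 114714) (nat_lit 22) (.e (nat_lit 90160) (nat_lit 11) (.e (nat_lit 24631) (nat_lit 9) .nil))) .nil)))) (.nd (nat_lit 4) (.nd (nat_lit 5) 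
(.lf (nat_lit 237263) (.g (nat_lit 1784) (.e (nat_lit 114714) (nat_lit 22) (.e (nat_lit 90158) (nat_lit 11) (.e (nat_lit 24643) (nat_lit 11) (.e (nat_lit 368676) (nat_lit 21) (.e (nat_lit 516146) (nat_lit 9) (.e (nat_lit 433920) (nat_lit 20) .nil)))))) (.g (nat_lit 4) .nil .nil))) 
(.lf (nat_lit 237295) (.g (nat_lit 688) (.e (nat_lit 114714) (nat_lit 22) (.e (nat_lit 90160) (nat_lit 11) (.e (nat_lit 24622) (nat_lit 8) .nil))) .nil))) (.nd (nat_lit 5) 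
(.lf (nat_lit 237279) (.g (nat_lit 3140) (.e (nat_lit 114714) (nat_lit 22) (.e (nat_lit 90159) (nat_lit 11) (.e (nat_lit 24662) (nat_lit 14) (.e (nat_lit 401463) (nat_lit 15) (.e (nat_lit 1859) (nat_lit 124) (.e (nat_lit 557098) (nat_lit 13) (.e (nat_lit 179968) (nat_lit 20) .nil))))))) (.g (nat_lit 4) .nil .nil))) 
(.lf (nat_lit 237311) (.g (nat_lit 410) (.e (nat_lit 114714) (nat_lit 22) (.e (nat_lit 90160) (nat_lit 11) (.e (nat_lit 24634) (nat_lit 9) .nil))) .nil))))))))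

noncomputable def tv3094 : DT := (.nd (nat_lit 0) (.nd (nat_lit 1) (.nd (nat_lit 2) (.nd (nat_lit 3) (.nd (nat_lit 4) (.nd (nat_lit 5) 
(.lf (nat_lit 237312) (.g (nat_lit 1770) (.e (nat_lit 114714) (nat_lit 22) (.e (nat_lit 90160) (nat_lit 11) (.e (nat_lit 24634) (nat_lit 9) (.e (nat_lit 336028) (nat_lit 3) (.e (nat_lit 98359) (nat_lit 26) (.e (nat_lit 433920) (nat_lit 20) .nil)))))) (.g (nat_lit 4) .nil .nil))) 
(.lf (nat_lit 237344) (.g (nat_lit 1874) (.e (nat_lit 114714) (nat_lit 22) (.e (nat_lit 90160) (nat_lit 11) (.e (nat_lit 24640) (nat_lit 10) (.e (nat_lit 344120) (nat_lit 21) .nil)))) .nil))) (.nd (nat_lit 5) 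
(.lf (nat_lit 237328) (.g (nat_lit 2343) (.e (nat_lit 114714) (nat_lit 22) (.e (nat_lit 90160) (nat_lit 11) (.e (nat_lit 24638) (nat_lit 9) (.e (nat_lit 336027) (nat_lit 3) (.e (nat_lit 98357) (nat_lit 26) .nil))))) .nil)) 
(.lf (nat_lit 237360) (.g (nat_lit 2387) (.e (nat_lit 114714) (nat_lit 22) (.e (nat_lit 90160) (nat_lit 11) (.e (nat_lit 24644) (nat_lit 11) (.e (nat_lit 368676) (nat_lit 21) (.e (nat_lit 516146) (nat_lit 9) (.e (nat_lit 433920) (nat_lit 20) .nil)))))) (.g (nat_lit 5) .nil .nil))))) (.nd (nat_lit 4) (.nd (nat_lit 5) 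
(.lf (nat_lit 237320) (.g (nat_lit 2323) (.e (nat_lit 114714) (nat_lit 22) (.e (nat_lit 90160) (nat_lit 11) (.e (nat_lit 24638) (nat_lit 9) (.e (nat_lit 336004) (nat_lit 2) (.e (nat_lit 90169) (nat_lit 13) (.e (nat_lit 179968) (nat_lit 20) .nil)))))) (.g (nat_lit 5) .nil .nil))) 
(.lf (nat_lit 237352) (.g (nat_lit 2226) (.e (nat_lit 114714) (nat_lit 22) (.e (nat_lit 90160) (nat_lit 11) (.e (nat_lit 24643) (nat_lit 11) (.e (nat_lit 368670) (nat_lit 19) (.e (nat_lit 499919) (nat_lit 9) (.e (nat_lit 179968) (nat_lit 20) .nil)))))) (.g (nat_lit 5) .nil .nil)))) (.nd (nat_lit 5) 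
(.lf (nat_lit 237336) (.g (nat_lit 3181) (.e (nat_lit 114714) (nat_lit 22) (.e (nat_lit 90160) (nat_lit 11) (.e (nat_lit 24639) (nat_lit 10) (.e (nat_lit 344117) (nat_lit 21) (.e (nat_lit 516151) (nat_lit 9) (.e (nat_lit 433920) (nat_lit 20) .nil)))))) (.g (nat_lit 5) .nil .nil))) 
(.lf (nat_lit 237368) (.g (nat_lit 2578) (.e (nat_lit 114714) (nat_lit 22) (.e (nat_lit 90165) (nat_lit 12) (.e (nat_lit 164238) (nat_lit 187) (.e (nat_lit 1661) (nat_lit 115) (.e (nat_lit 393238) (nat_lit 17) (.e (nat_lit 7936) (nat_lit 220) (.e (nat_lit 720954) (nat_lit 25) .nil))))))) (.g (nat_lit 5) .nil .nil)))))) (.nd (nat_lit 3) (.nd (nat_lit 4) (.nd (nat_lit 5) 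
(.lf (nat_lit 237316) (.g (nat_lit 2024) (.e (nat_lit 114714) (nat_lit 22) (.e (nat_lit 90160) (nat_lit 11) (.e (nat_lit 24637) (nat_lit 9) (.e (nat_lit 336021) (nat_lit 3) (.e (nat_lit 98357) (nat_lit 26) .nil))))) .nil)) 
(.lf (nat_lit 237348) (.g (nat_lit 2290) (.e (nat_lit 114714) (nat_lit 22) (.e (nat_lit 90160) (nat_lit 11) (.e (nat_lit 24641) (nat_lit 10) (.e (nat_lit 344117) (nat_lit 21) (.e (nat_lit 516147) (nat_lit 9) .nil))))) .nil))) (.nd (nat_lit 5) 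
(.lf (nat_lit 237332) (.g (nat_lit 1061) (.e (nat_lit 114714) (nat_lit 22) (.e (nat_lit 90160) (nat_lit 11) (.e (nat_lit 24639) (nat_lit 10) (.e (nat_lit 344107) (nat_lit 19) .nil)))) .nil)) 
(.lf (nat_lit 237364) (.g (nat_lit 3043) (.e (nat_lit 114714) (nat_lit 22) (.e (nat_lit 90160) (nat_lit 11) (.e (nat_lit 24662) (nat_lit 14) (.e (nat_lit 401463) (nat_lit 15) (.e (nat_lit 1859) (nat_lit 124) (.e (nat_lit 557098) (nat_lit 13) (.e (nat_lit 179968) (nat_lit 20) .nil))))))) (.g (nat_lit 4) .nil .nil))))) (.nd (nat_lit 4) (.nd (nat_lit 5) 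
(.lf (nat_lit 237324) (.g (nat_lit 1762) (.e (nat_lit 114714) (nat_lit 22) (.e (nat_lit 90160) (nat_lit 11) (.e (nat_lit 24638) (nat_lit 9) (.e (nat_lit 336012) (nat_lit 2) (.e (nat_lit 90168) (nat_lit 13) (.e (nat_lit 179968) (nat_lit 20) .nil)))))) (.g (nat_lit 4) .nil .nil))) 
(.lf (nat_lit 237356) (.g (nat_lit 870) (.e (nat_lit 114714) (nat_lit 22) (.e (nat_lit 90160) (nat_lit 11) (.e (nat_lit 24644) (nat_lit 11) (.e (nat_lit 368669) (nat_lit 19) .nil)))) .nil))) (.nd (nat_lit 5) 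
(.lf (nat_lit 237340) (.g (nat_lit 3293) (.e (nat_lit 114714) (nat_lit 22) (.e (nat_lit 90160) (nat_lit 11) (.e (nat_lit 24640) (nat_lit 10) (.e (nat_lit 344117) (nat_lit 21) (.e (nat_lit 516145) (nat_lit 9) (.e (nat_lit 433920) (nat_lit 20) .nil)))))) (.g (nat_lit 5) .nil .nil))) 
(.lf (nat_lit 237372) (.g (nat_lit 3432) (.e (nat_lit 114714) (nat_lit 22) (.e (nat_lit 90170) (nat_lit 13) (.e (nat_lit 172059) (nat_lit 1) (.e (nat_lit 164327) (nat_lit 230) (.e (nat_lit 163886) (nat_lit 5) (.e (nat_lit 221208) (nat_lit 21) (.e (nat_lit 164330) (nat_lit 230) (.e (nat_lit 171776) (nat_lit 66) .nil)))))))) (.g (nat_lit 5) .nil .nil))))))) 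
(.nd (nat_lit 2) (.nd (nat_lit 3) (.nd (nat_lit 4) (.nd (nat_lit 5) 
(.lf (nat_lit 237314) (.g (nat_lit 2597) (.e (nat_lit 114714) (nat_lit 22) (.e (nat_lit 90160) (nat_lit 11) (.e (nat_lit 24636) (nat_lit 9) (.e (nat_lit 336017) (nat_lit 3) (.e (nat_lit 98357) (nat_lit 26) (.e (nat_lit 426448) (nat_lit 20) .nil)))))) (.g (nat_lit 0) .nil .nil))) 
(.lf (nat_lit 237346) (.g (nat_lit 2569) (.e (nat_lit 114714) (nat_lit 22) (.e (nat_lit 90160) (nat_lit 11) (.e (nat_lit 24641) (nat_lit 10) (.e (nat_lit 344108) (nat_lit 19) (.e (nat_lit 499919) (nat_lit 9) (.e (nat_lit 179968) (nat_lit 20) .nil)))))) (.g (nat_lit 5) .nil .nil)))) (.nd (nat_lit 5) 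
(.lf (nat_lit 237330) (.g (nat_lit 2198) (.e (nat_lit 114714) (nat_lit 22) (.e (nat_lit 90160) (nat_lit 11) (.e (nat_lit 24638) (nat_lit 9) (.e (nat_lit 336027) (nat_lit 3) (.e (nat_lit 98363) (nat_lit 26) (.e (nat_lit 433920) (nat_lit 20) .nil)))))) (.g (nat_lit 4) .nil .nil))) 
(.lf (nat_lit 237362) (.g (nat_lit 688) (.e (nat_lit 114714) (nat_lit 22) (.e (nat_lit 90160) (nat_lit 11) (.e (nat_lit 24645) (nat_lit 11) .nil))) .nil)))) (.nd (nat_lit 4) (.nd (nat_lit 5) 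
(.lf (nat_lit 237322) (.g (nat_lit 2598) (.e (nat_lit 114714) (nat_lit 22) (.e (nat_lit 90160) (nat_lit 11) (.e (nat_lit 24638) (nat_lit 9) (.e (nat_lit 336004) (nat_lit 2) (.e (nat_lit 90185) (nat_lit 17) (.e (nat_lit 245504) (nat_lit 20) .nil)))))) (.g (nat_lit 5) .nil .nil))) 
(.lf (nat_lit 237354) (.g (nat_lit 2282) (.e (nat_lit 114714) (nat_lit 22) (.e (nat_lit 90160) (nat_lit 11) (.e (nat_lit 24643) (nat_lit 11) (.e (nat_lit 368676) (nat_lit 21) (.e (nat_lit 516146) (nat_lit 9) (.e (nat_lit 433920) (nat_lit 20) .nil)))))) (.g (nat_lit 5) .nil .nil)))) (.nd (nat_lit 5) 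
(.lf (nat_lit 237338) (.g (nat_lit 2659) (.e (nat_lit 114714) (nat_lit 22) (.e (nat_lit 90160) (nat_lit 11) (.e (nat_lit 24640) (nat_lit 10) (.e (nat_lit 344117) (nat_lit 21) (.e (nat_lit 516144) (nat_lit 9) (.e (nat_lit 426446) (nat_lit 20) .nil)))))) (.g (nat_lit 4) .nil .nil))) 
(.lf (nat_lit 237370) (.g (nat_lit 630) (.e (nat_lit 114714) (nat_lit 22) (.e (nat_lit 90170) (nat_lit 13) (.e (nat_lit 172042) (nat_lit 0) .nil))) .nil))))) (.nd (nat_lit 3) (.nd (nat_lit 4) (.nd (nat_lit 5) 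
(.lf (nat_lit 237318) (.g (nat_lit 2255) (.e (nat_lit 114714) (nat_lit 22) (.e (nat_lit 90160) (nat_lit 11) (.e (nat_lit 24638) (nat_lit 9) (.e (nat_lit 336003) (nat_lit 2) (.e (nat_lit 90185) (nat_lit 17) (.e (nat_lit 245504) (nat_lit 20) .nil)))))) (.g (nat_lit 5) .nil .nil))) 
(.lf (nat_lit 237350) (.g (nat_lit 384) (.e (nat_lit 114714) (nat_lit 22) (.e (nat_lit 90160) (nat_lit 11) (.e (nat_lit 24643) (nat_lit 11) .nil))) .nil))) (.nd (nat_lit 5) 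
(.lf (nat_lit 237334) (.g (nat_lit 2575) (.e (nat_lit 114714) (nat_lit 22) (.e (nat_lit 90160) (nat_lit 11) (.e (nat_lit 24639) (nat_lit 10) (.e (nat_lit 344107) (nat_lit 19) (.e (nat_lit 499825) (nat_lit 5) (.e (nat_lit 2943) (nat_lit 184) (.e (nat_lit 426447) (nat_lit 20) .nil))))))) (.g (nat_lit 4) .nil .nil))) 
(.lf (nat_lit 237366) (.g (nat_lit 4962) (.e (nat_lit 114714) (nat_lit 22) (.e (nat_lit 90160) (nat_lit 11) (.e (nat_lit 24665) (nat_lit 14) (.e (nat_lit 401463) (nat_lit 15) (.e (nat_lit 1858) (nat_lit 124) (.e (nat_lit 557100) (nat_lit 13) (.e (nat_lit 179968) (nat_lit 20) .nil))))))) (.g (nat_lit 6) .nil .nil))))) (.nd (nat_lit 4) (.nd (nat_lit 5) 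
(.lf (nat_lit 237326) (.g (nat_lit 3172) (.e (nat_lit 114714) (nat_lit 22) (.e (nat_lit 90160) (nat_lit 11) (.e (nat_lit 24638) (nat_lit 9) (.e (nat_lit 336012) (nat_lit 2) (.e (nat_lit 90185) (nat_lit 17) (.e (nat_lit 245504) (nat_lit 20) .nil)))))) (.g (nat_lit 5) .nil .nil))) 
(.lf (nat_lit 237358) (.g (nat_lit 1722) (.e (nat_lit 114714) (nat_lit 22) (.e (nat_lit 90160) (nat_lit 11) (.e (nat_lit 24644) (nat_lit 11) (.e (nat_lit 368676) (nat_lit 21) (.e (nat_lit 516143) (nat_lit 9) .nil))))) .nil))) (.nd (nat_lit 5) 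
(.lf (nat_lit 237342) (.g (nat_lit 1813) (.e (nat_lit 114714) (nat_lit 22) (.e (nat_lit 90160) (nat_lit 11) (.e (nat_lit 24640) (nat_lit 10) (.e (nat_lit 344118) (nat_lit 21) .nil)))) .nil)) 
(.lf (nat_lit 237374) (.g (nat_lit 1384) (.e (nat_lit 114714) (nat_lit 22) (.e (nat_lit 90170) (nat_lit 13) (.e (nat_lit 172064) (nat_lit 2) (.e (nat_lit 204544) (nat_lit 2) .nil)))) .nil))))))) (.nd (nat_lit 1) (.nd (nat_lit 2) (.nd (nat_lit 3) (.nd (nat_lit 4) (.nd (nat_lit 5) 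
(.lf (nat_lit 237313) (.g (nat_lit 2527) (.e (nat_lit 114714) (nat_lit 22) (.e (nat_lit 90160) (nat_lit 11) (.e (nat_lit 24636) (nat_lit 9) (.e (nat_lit 336017) (nat_lit 3) (.e (nat_lit 98356) (nat_lit 26) (.e (nat_lit 433920) (nat_lit 20) .nil)))))) (.g (nat_lit 5) .nil .nil))) 
(.lf (nat_lit 237345) (.g (nat_lit 2724) (.e (nat_lit 114714) (nat_lit 22) (.e (nat_lit 90160) (nat_lit 11) (.e (nat_lit 24641) (nat_lit 10) (.e (nat_lit 344105) (nat_lit 19) (.e (nat_lit 499919) (nat_lit 9) (.e (nat_lit 179968) (nat_lit 20) .nil)))))) (.g (nat_lit 5) .nil .nil)))) (.nd (nat_lit 5) 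
(.lf (nat_lit 237329) (.g (nat_lit 2487) (.e (nat_lit 114714) (nat_lit 22) (.e (nat_lit 90160) (nat_lit 11) (.e (nat_lit 24638) (nat_lit 9) (.e (nat_lit 336027) (nat_lit 3) (.e (nat_lit 98363) (nat_lit 26) (.e (nat_lit 426445) (nat_lit 20) .nil)))))) (.g (nat_lit 4) .nil .nil))) 
(.lf (nat_lit 237361) (.g (nat_lit 1784) (.e (nat_lit 114714) (nat_lit 22) (.e (nat_lit 90160) (nat_lit 11) (.e (nat_lit 24644) (nat_lit 11) (.e (nat_lit 368676) (nat_lit 21) (.e (nat_lit 516156) (nat_lit 9) (.e (nat_lit 426447) (nat_lit 20) .nil)))))) (.g (nat_lit 4) .nil .nil))))) (.nd (nat_lit 4) (.nd (nat_lit 5) 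
(.lf (nat_lit 237321) (.g (nat_lit 1687) (.e (nat_lit 114714) (nat_lit 22) (.e (nat_lit 90160) (nat_lit 11) (.e (nat_lit 24638) (nat_lit 9) (.e (nat_lit 336004) (nat_lit 2) (.e (nat_lit 90184) (nat_lit 17) .nil))))) .nil)) 
(.lf (nat_lit 237353) (.g (nat_lit 1576) (.e (nat_lit 114714) (nat_lit 22) (.e (nat_lit 90160) (nat_lit 11) (.e (nat_lit 24643) (nat_lit 11) (.e (nat_lit 368676) (nat_lit 21) (.e (nat_lit 516143) (nat_lit 9) (.e (nat_lit 433920) (nat_lit 20) .nil)))))) (.g (nat_lit 4) .nil .nil)))) (.nd (nat_lit 5) 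
(.lf (nat_lit 237337) (.g (nat_lit 1915) (.e (nat_lit 114714) (nat_lit 22) (.e (nat_lit 90160) (nat_lit 11) (.e (nat_lit 24640) (nat_lit 10) (.e (nat_lit 344107) (nat_lit 19) .nil)))) .nil)) 
(.lf (nat_lit 237369) (.g (nat_lit 2126) (.e (nat_lit 114714) (nat_lit 22) (.e (nat_lit 90167) (nat_lit 13) (.e (nat_lit 172067) (nat_lit 3) (.e (nat_lit 204829) (nat_lit 18) (.e (nat_lit 57691) (nat_lit 156) .nil))))) .nil))))) (.nd (nat_lit 3) (.nd (nat_lit 4) (.nd (nat_lit 5) 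
(.lf (nat_lit 237317) (.g (nat_lit 1949) (.e (nat_lit 114714) (nat_lit 22) (.e (nat_lit 90160) (nat_lit 11) (.e (nat_lit 24638) (nat_lit 9) (.e (nat_lit 336002) (nat_lit 2) (.e (nat_lit 90185) (nat_lit 17) (.e (nat_lit 245504) (nat_lit 20) .nil)))))) (.g (nat_lit 4) .nil .nil))) 
(.lf (nat_lit 237349) (.g (nat_lit 1161) (.e (nat_lit 114714) (nat_lit 22) (.e (nat_lit 90160) (nat_lit 11) (.e (nat_lit 24641) (nat_lit 10) (.e (nat_lit 344119) (nat_lit 21) .nil)))) .nil))) (.nd (nat_lit 5) 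
(.lf (nat_lit 237333) (.g (nat_lit 2183) (.e (nat_lit 114714) (nat_lit 22) (.e (nat_lit 90160) (nat_lit 11) (.e (nat_lit 24639) (nat_lit 10) (.e (nat_lit 344107) (nat_lit 19) (.e (nat_lit 499825) (nat_lit 5) (.e (nat_lit 2902) (nat_lit 184) (.e (nat_lit 426447) (nat_lit 20) .nil))))))) (.g (nat_lit 4) .nil .nil))) 
(.lf (nat_lit 237365) (.g (nat_lit 3046) (.e (nat_lit 114714) (nat_lit 22) (.e (nat_lit 90160) (nat_lit 11) (.e (nat_lit 24665) (nat_lit 14) (.e (nat_lit 401414) (nat_lit 0) (.e (nat_lit 3297) (nat_lit 202) .nil))))) .nil)))) (.nd (nat_lit 4) (.nd (nat_lit 5) 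
(.lf (nat_lit 237325) (.g (nat_lit 2887) (.e (nat_lit 114714) (nat_lit 22) (.e (nat_lit 90160) (nat_lit 11) (.e (nat_lit 24638) (nat_lit 9) (.e (nat_lit 336012) (nat_lit 2) (.e (nat_lit 90169) (nat_lit 13) (.e (nat_lit 179968) (nat_lit 20) .nil)))))) (.g (nat_lit 5) .nil .nil))) 
(.lf (nat_lit 237357) (.g (nat_lit 2219) (.e (nat_lit 114714) (nat_lit 22) (.e (nat_lit 90160) (nat_lit 11) (.e (nat_lit 24644) (nat_lit 11) (.e (nat_lit 368670) (nat_lit 19) (.e (nat_lit 499919) (nat_lit 9) (.e (nat_lit 179968) (nat_lit 20) .nil)))))) (.g (nat_lit 5) .nil .nil)))) (.nd (nat_lit 5) 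
(.lf (nat_lit 237341) (.g (nat_lit 3690) (.e (nat_lit 114714) (nat_lit 22) (.e (nat_lit 90160) (nat_lit 11) (.e (nat_lit 24640) (nat_lit 10) (.e (nat_lit 344117) (nat_lit 21) (.e (nat_lit 516151) (nat_lit 9) (.e (nat_lit 433920) (nat_lit 20) .nil)))))) (.g (nat_lit 5) .nil .nil))) 
(.lf (nat_lit 237373) (.g (nat_lit 1776) (.e (nat_lit 114714) (nat_lit 22) (.e (nat_lit 90170) (nat_lit 13) (.e (nat_lit 172061) (nat_lit 1) (.e (nat_lit 164326) (nat_lit 230) (.e (nat_lit 163886) (nat_lit 5) .nil))))) .nil)))))) (.nd (nat_lit 2) (.nd (nat_lit 3) (.nd (nat_lit 4) (.nd (nat_lit 5) 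
(.lf (nat_lit 237315) (.g (nat_lit 687) (.e (nat_lit 114714) (nat_lit 22) (.e (nat_lit 90160) (nat_lit 11) (.e (nat_lit 24637) (nat_lit 9) .nil))) .nil)) 
(.lf (nat_lit 237347) (.g (nat_lit 2600) (.e (nat_lit 114714) (nat_lit 22) (.e (nat_lit 90160) (nat_lit 11) (.e (nat_lit 24641) (nat_lit 10) (.e (nat_lit 344110) (nat_lit 19) (.e (nat_lit 499919) (nat_lit 9) (.e (nat_lit 179968) (nat_lit 20) .nil)))))) (.g (nat_lit 5) .nil .nil)))) (.nd (nat_lit 5) 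
(.lf (nat_lit 237331) (.g (nat_lit 1738) (.e (nat_lit 114714) (nat_lit 22) (.e (nat_lit 90160) (nat_lit 11) (.e (nat_lit 24639) (nat_lit 10) (.e (nat_lit 344105) (nat_lit 19) (.e (nat_lit 499919) (nat_lit 9) (.e (nat_lit 179968) (nat_lit 20) .nil)))))) (.g (nat_lit 4) .nil .nil))) 
(.lf (nat_lit 237363) (.g (nat_lit 2281) (.e (nat_lit 114714) (nat_lit 22) (.e (nat_lit 90160) (nat_lit 11) (.e (nat_lit 24651) (nat_lit 12) (.e (nat_lit 385066) (nat_lit 26) (.e (nat_lit 540416) (nat_lit 18) .nil))))) .nil)))) (.nd (nat_lit 4) (.nd (nat_lit 5) 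
(.lf (nat_lit 237323) (.g (nat_lit 2435) (.e (nat_lit 114714) (nat_lit 22) (.e (nat_lit 90160) (nat_lit 11) (.e (nat_lit 24638) (nat_lit 9) (.e (nat_lit 336012) (nat_lit 2) (.e (nat_lit 90167) (nat_lit 13) (.e (nat_lit 179968) (nat_lit 20) .nil)))))) (.g (nat_lit 5) .nil .nil))) 
(.lf (nat_lit 237355) (.g (nat_lit 1760) (.e (nat_lit 114714) (nat_lit 22) (.e (nat_lit 90160) (nat_lit 11) (.e (nat_lit 24643) (nat_lit 11) (.e (nat_lit 368676) (nat_lit 21) (.e (nat_lit 516156) (nat_lit 9) (.e (nat_lit 426447) (nat_lit 20) .nil)))))) (.g (nat_lit 4) .nil .nil)))) (.nd (nat_lit 5) 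
(.lf (nat_lit 237339) (.g (nat_lit 3476) (.e (nat_lit 114714) (nat_lit 22) (.e (nat_lit 90160) (nat_lit 11) (.e (nat_lit 24640) (nat_lit 10) (.e (nat_lit 344117) (nat_lit 21) (.e (nat_lit 516145) (nat_lit 9) (.e (nat_lit 426449) (nat_lit 20) .nil)))))) (.g (nat_lit 5) .nil .nil))) 
(.lf (nat_lit 237371) (.g (nat_lit 875) (.e (nat_lit 114714) (nat_lit 22) (.e (nat_lit 90170) (nat_lit 13) (.e (nat_lit 172049) (nat_lit 0) .nil))) .nil))))) (.nd (nat_lit 3) (.nd (nat_lit 4) (.nd (nat_lit 5) 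
(.lf (nat_lit 237319) (.g (nat_lit 2441) (.e (nat_lit 114714) (nat_lit 22) (.e (nat_lit 90160) (nat_lit 11) (.e (nat_lit 24638) (nat_lit 9) (.e (nat_lit 336004) (nat_lit 2) (.e (nat_lit 90167) (nat_lit 13) (.e (nat_lit 179968) (nat_lit 20) .nil)))))) (.g (nat_lit 5) .nil .nil))) 
(.lf (nat_lit 237351) (.g (nat_lit 2149) (.e (nat_lit 114714) (nat_lit 22) (.e (nat_lit 90160) (nat_lit 11) (.e (nat_lit 24643) (nat_lit 11) (.e (nat_lit 368667) (nat_lit 19) (.e (nat_lit 499919) (nat_lit 9) (.e (nat_lit 179968) (nat_lit 20) .nil)))))) (.g (nat_lit 5) .nil .nil)))) (.nd (nat_lit 5) 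
(.lf (nat_lit 237335) (.g (nat_lit 3027) (.e (nat_lit 114714) (nat_lit 22) (.e (nat_lit 90160) (nat_lit 11) (.e (nat_lit 24639) (nat_lit 10) (.e (nat_lit 344117) (nat_lit 21) (.e (nat_lit 516145) (nat_lit 9) (.e (nat_lit 433920) (nat_lit 20) .nil)))))) (.g (nat_lit 5) .nil .nil))) 
(.lf (nat_lit 237367) (.g (nat_lit 3766) (.e (nat_lit 114714) (nat_lit 22) (.e (nat_lit 90160) (nat_lit 11) (.e (nat_lit 24665) (nat_lit 14) (.e (nat_lit 401463) (nat_lit 15) (.e (nat_lit 1859) (nat_lit 124) (.e (nat_lit 557098) (nat_lit 13) (.e (nat_lit 179968) (nat_lit 20) .nil))))))) (.g (nat_lit 6) .nil .nil))))) (.nd (nat_lit 4) (.nd (nat_lit 5) 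
(.lf (nat_lit 237327) (.g (nat_lit 2334) (.e (nat_lit 114714) (nat_lit 22) (.e (nat_lit 90160) (nat_lit 11) (.e (nat_lit 24638) (nat_lit 9) (.e (nat_lit 336027) (nat_lit 3) (.e (nat_lit 98355) (nat_lit 26) .nil))))) .nil)) 
(.lf (nat_lit 237359) (.g (nat_lit 2975) (.e (nat_lit 114714) (nat_lit 22) (.e (nat_lit 90160) (nat_lit 11) (.e (nat_lit 24644) (nat_lit 11) (.e (nat_lit 368676) (nat_lit 21) (.e (nat_lit 516146) (nat_lit 9) (.e (nat_lit 426446) (nat_lit 20) .nil)))))) (.g (nat_lit 0) .nil .nil)))) (.nd (nat_lit 5) 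
(.lf (nat_lit 237343) (.g (nat_lit 2224) (.e (nat_lit 114714) (nat_lit 22) (.e (nat_lit 90160) (nat_lit 11) (.e (nat_lit 24640) (nat_lit 10) (.e (nat_lit 344118) (nat_lit 21) (.e (nat_lit 516147) (nat_lit 9) .nil))))) .nil)) 
(.lf (nat_lit 237375) (.g (nat_lit 517) (.e (nat_lit 114714) (nat_lit 22) (.e (nat_lit 90170) (nat_lit 13) (.e (nat_lit 172065) (nat_lit 3) .nil))) .nil))))))))

noncomputable def tv3095 : DT := (.nd (nat_lit 0) (.nd (nat_lit 1) (.nd (nat_lit 2) (.nd (nat_lit 3) (.nd (nat_lit 4) (.nd (nat_lit 5) 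
(.lf (nat_lit 237376) (.g (nat_lit 2603) (.e (nat_lit 114714) (nat_lit 22) (.e (nat_lit 90170) (nat_lit 13) (.e (nat_lit 172065) (nat_lit 3) (.e (nat_lit 204819) (nat_lit 17) (.e (nat_lit 2355) (nat_lit 152) (.e (nat_lit 786457) (nat_lit 18) (.e (nat_lit 106240) (nat_lit 3) .nil))))))) (.g (nat_lit 4) .nil .nil))) 
(.lf (nat_lit 237408) (.g (nat_lit 1837) (.e (nat_lit 114714) (nat_lit 22) (.e (nat_lit 90170) (nat_lit 13) (.e (nat_lit 172067) (nat_lit 3) (.e (nat_lit 212736) (nat_lit 10) .nil)))) .nil))) (.nd (nat_lit 5) 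
(.lf (nat_lit 237392) (.g (nat_lit 2829) (.e (nat_lit 114714) (nat_lit 22) (.e (nat_lit 90170) (nat_lit 13) (.e (nat_lit 172065) (nat_lit 3) (.e (nat_lit 204829) (nat_lit 18) (.e (nat_lit 57692) (nat_lit 156) (.e (nat_lit 163871) (nat_lit 2) (.e (nat_lit 196624) (nat_lit 9) (.e (nat_lit 1277) (nat_lit 94) .nil)))))))) (.g (nat_lit 4) .nil .nil))) 
(.lf (nat_lit 237424) (.g (nat_lit 2705) (.e (nat_lit 114714) (nat_lit 22) (.e (nat_lit 90170) (nat_lit 13) (.e (nat_lit 172067) (nat_lit 3) (.e (nat_lit 204830) (nat_lit 18) (.e (nat_lit 57691) (nat_lit 156) (.e (nat_lit 163875) (nat_lit 3) (.e (nat_lit 204836) (nat_lit 20) .nil))))))) (.g (nat_lit 4) .nil .nil))))) (.nd (nat_lit 4) (.nd (nat_lit 5) 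
(.lf (nat_lit 237384) (.g (nat_lit 3103) (.e (nat_lit 114714) (nat_lit 22) (.e (nat_lit 90170) (nat_lit 13) (.e (nat_lit 172065) (nat_lit 3) (.e (nat_lit 204829) (nat_lit 18) (.e (nat_lit 57688) (nat_lit 156) (.e (nat_lit 163867) (nat_lit 2) (.e (nat_lit 196628) (nat_lit 9) (.e (nat_lit 1275) (nat_lit 94) .nil)))))))) (.g (nat_lit 4) .nil .nil))) 
(.lf (nat_lit 237416) (.g (nat_lit 2747) (.e (nat_lit 114714) (nat_lit 22) (.e (nat_lit 90170) (nat_lit 13) (.e (nat_lit 172067) (nat_lit 3) (.e (nat_lit 204829) (nat_lit 18) (.e (nat_lit 57688) (nat_lit 156) (.e (nat_lit 163867) (nat_lit 2) (.e (nat_lit 196628) (nat_lit 9) (.e (nat_lit 1275) (nat_lit 94) .nil)))))))) (.g (nat_lit 4) .nil .nil)))) (.nd (nat_lit 5) 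
(.lf (nat_lit 237400) (.g (nat_lit 2617) (.e (nat_lit 114714) (nat_lit 22) (.e (nat_lit 90170) (nat_lit 13) (.e (nat_lit 172065) (nat_lit 3) (.e (nat_lit 204830) (nat_lit 18) (.e (nat_lit 57692) (nat_lit 156) (.e (nat_lit 163869) (nat_lit 2) (.e (nat_lit 196628) (nat_lit 9) (.e (nat_lit 1275) (nat_lit 94) .nil)))))))) (.g (nat_lit 4) .nil .nil))) 
(.lf (nat_lit 237432) (.g (nat_lit 2335) (.e (nat_lit 114714) (nat_lit 22) (.e (nat_lit 90170) (nat_lit 13) (.e (nat_lit 179968) (nat_lit 20) (.e (nat_lit 114710) (nat_lit 21) (.e (nat_lit 57847) (nat_lit 252) (.e (nat_lit 57349) (nat_lit 0) (.e (nat_lit 2202) (nat_lit 144) (.e (nat_lit 720954) (nat_lit 25) .nil)))))))) (.g (nat_lit 5) .nil .nil)))))) 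
(.nd (nat_lit 3) (.nd (nat_lit 4) (.nd (nat_lit 5) 
(.lf (nat_lit 237380) (.g (nat_lit 2708) (.e (nat_lit 114714) (nat_lit 22) (.e (nat_lit 90170) (nat_lit 13) (.e (nat_lit 172065) (nat_lit 3) (.e (nat_lit 204829) (nat_lit 18) (.e (nat_lit 57686) (nat_lit 156) (.e (nat_lit 163868) (nat_lit 2) (.e (nat_lit 196624) (nat_lit 9) (.e (nat_lit 1277) (nat_lit 94) .nil)))))))) (.g (nat_lit 4) .nil .nil))) 
(.lf (nat_lit 237412) (.g (nat_lit 2336) (.e (nat_lit 114714) (nat_lit 22) (.e (nat_lit 90170) (nat_lit 13) (.e (nat_lit 172067) (nat_lit 3) (.e (nat_lit 204828) (nat_lit 18) (.e (nat_lit 57691) (nat_lit 156) .nil))))) .nil))) (.nd (nat_lit 5) 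
(.lf (nat_lit 237396) (.g (nat_lit 2431) (.e (nat_lit 114714) (nat_lit 22) (.e (nat_lit 90170) (nat_lit 13) (.e (nat_lit 172065) (nat_lit 3) (.e (nat_lit 204830) (nat_lit 18) (.e (nat_lit 57691) (nat_lit 156) (.e (nat_lit 163871) (nat_lit 2) (.e (nat_lit 196624) (nat_lit 9) (.e (nat_lit 1276) (nat_lit 94) .nil)))))))) (.g (nat_lit 4) .nil .nil))) 
(.lf (nat_lit 237428) (.g (nat_lit 704) (.e (nat_lit 114714) (nat_lit 22) (.e (nat_lit 90170) (nat_lit 13) (.e (nat_lit 172073) (nat_lit 5) .nil))) .nil)))) (.nd (nat_lit 4) (.nd (nat_lit 5) 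
(.lf (nat_lit 237388) (.g (nat_lit 3931) (.e (nat_lit 114714) (nat_lit 22) (.e (nat_lit 90170) (nat_lit 13) (.e (nat_lit 172065) (nat_lit 3) (.e (nat_lit 204829) (nat_lit 18) (.e (nat_lit 57688) (nat_lit 156) (.e (nat_lit 163874) (nat_lit 3) (.e (nat_lit 204838) (nat_lit 20) .nil))))))) (.g (nat_lit 5) .nil .nil))) 
(.lf (nat_lit 237420) (.g (nat_lit 2698) (.e (nat_lit 114714) (nat_lit 22) (.e (nat_lit 90170) (nat_lit 13) (.e (nat_lit 172067) (nat_lit 3) (.e (nat_lit 204829) (nat_lit 18) (.e (nat_lit 57692) (nat_lit 156) (.e (nat_lit 163869) (nat_lit 2) (.e (nat_lit 196628) (nat_lit 9) (.e (nat_lit 1275) (nat_lit 94) .nil)))))))) (.g (nat_lit 4) .nil .nil)))) (.nd (nat_lit 5) 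
(.lf (nat_lit 237404) (.g (nat_lit 1548) (.e (nat_lit 114714) (nat_lit 22) (.e (nat_lit 90170) (nat_lit 13) (.e (nat_lit 172066) (nat_lit 3) (.e (nat_lit 204829) (nat_lit 18) .nil)))) .nil)) 
(.lf (nat_lit 237436) (.g (nat_lit 2260) (.e (nat_lit 114714) (nat_lit 22) (.e (nat_lit 90170) (nat_lit 13) (.e (nat_lit 179968) (nat_lit 20) (.e (nat_lit 114711) (nat_lit 21) (.e (nat_lit 57847) (nat_lit 252) (.e (nat_lit 57349) (nat_lit 0) (.e (nat_lit 2202) (nat_lit 144) (.e (nat_lit 720954) (nat_lit 25) .nil)))))))) (.g (nat_lit 5) .nil .nil))))))) 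
(.nd (nat_lit 2) (.nd (nat_lit 3) (.nd (nat_lit 4) (.nd (nat_lit 5) 
(.lf (nat_lit 237378) (.g (nat_lit 2531) (.e (nat_lit 114714) (nat_lit 22) (.e (nat_lit 90170) (nat_lit 13) (.e (nat_lit 172065) (nat_lit 3) (.e (nat_lit 204819) (nat_lit 17) (.e (nat_lit 2359) (nat_lit 152) (.e (nat_lit 786457) (nat_lit 18) (.e (nat_lit 106240) (nat_lit 3) .nil))))))) (.g (nat_lit 4) .nil .nil))) 
(.lf (nat_lit 237410) (.g (nat_lit 2361) (.e (nat_lit 114714) (nat_lit 22) (.e (nat_lit 90170) (nat_lit 13) (.e (nat_lit 172067) (nat_lit 3) (.e (nat_lit 204821) (nat_lit 17) (.e (nat_lit 7936) (nat_lit 152) .nil))))) .nil))) (.nd (nat_lit 5) 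
(.lf (nat_lit 237394) (.g (nat_lit 2512) (.e (nat_lit 114714) (nat_lit 22) (.e (nat_lit 90170) (nat_lit 13) (.e (nat_lit 172065) (nat_lit 3) (.e (nat_lit 204830) (nat_lit 18) (.e (nat_lit 57690) (nat_lit 156) (.e (nat_lit 163871) (nat_lit 2) (.e (nat_lit 196624) (nat_lit 9) (.e (nat_lit 1277) (nat_lit 94) .nil)))))))) (.g (nat_lit 4) .nil .nil))) 
(.lf (nat_lit 237426) (.g (nat_lit 2524) (.e (nat_lit 114714) (nat_lit 22) (.e (nat_lit 90170) (nat_lit 13) (.e (nat_lit 172067) (nat_lit 3) (.e (nat_lit 204830) (nat_lit 18) (.e (nat_lit 57692) (nat_lit 156) (.e (nat_lit 163869) (nat_lit 2) (.e (nat_lit 196624) (nat_lit 9) (.e (nat_lit 1277) (nat_lit 94) .nil)))))))) (.g (nat_lit 4) .nil .nil))))) (.nd (nat_lit 4) (.nd (nat_lit 5) 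
(.lf (nat_lit 237386) (.g (nat_lit 3257) (.e (nat_lit 114714) (nat_lit 22) (.e (nat_lit 90170) (nat_lit 13) (.e (nat_lit 172065) (nat_lit 3) (.e (nat_lit 204829) (nat_lit 18) (.e (nat_lit 57688) (nat_lit 156) (.e (nat_lit 163868) (nat_lit 2) (.e (nat_lit 196624) (nat_lit 9) (.e (nat_lit 1277) (nat_lit 94) .nil)))))))) (.g (nat_lit 4) .nil .nil))) 
(.lf (nat_lit 237418) (.g (nat_lit 3067) (.e (nat_lit 114714) (nat_lit 22) (.e (nat_lit 90170) (nat_lit 13) (.e (nat_lit 172067) (nat_lit 3) (.e (nat_lit 204829) (nat_lit 18) (.e (nat_lit 57688) (nat_lit 156) (.e (nat_lit 163868) (nat_lit 2) (.e (nat_lit 196624) (nat_lit 9) (.e (nat_lit 1277) (nat_lit 94) .nil)))))))) (.g (nat_lit 4) .nil .nil)))) (.nd (nat_lit 5) 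
(.lf (nat_lit 237402) (.g (nat_lit 2266) (.e (nat_lit 114714) (nat_lit 22) (.e (nat_lit 90170) (nat_lit 13) (.e (nat_lit 172065) (nat_lit 3) (.e (nat_lit 204831) (nat_lit 18) (.e (nat_lit 57688) (nat_lit 156) .nil))))) .nil)) 
(.lf (nat_lit 237434) (.g (nat_lit 2949) (.e (nat_lit 114714) (nat_lit 22) (.e (nat_lit 90170) (nat_lit 13) (.e (nat_lit 179968) (nat_lit 20) (.e (nat_lit 114711) (nat_lit 21) (.e (nat_lit 57847) (nat_lit 252) (.e (nat_lit 57345) (nat_lit 0) (.e (nat_lit 2202) (nat_lit 144) (.e (nat_lit 720954) (nat_lit 25) .nil)))))))) (.g (nat_lit 5) .nil .nil)))))) 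
(.nd (nat_lit 3) (.nd (nat_lit 4) (.nd (nat_lit 5) 
(.lf (nat_lit 237382) (.g (nat_lit 2635) (.e (nat_lit 114714) (nat_lit 22) (.e (nat_lit 90170) (nat_lit 13) (.e (nat_lit 172065) (nat_lit 3) (.e (nat_lit 204829) (nat_lit 18) (.e (nat_lit 57688) (nat_lit 156) (.e (nat_lit 163867) (nat_lit 2) (.e (nat_lit 196624) (nat_lit 9) (.e (nat_lit 1276) (nat_lit 94) .nil)))))))) (.g (nat_lit 4) .nil .nil))) 
(.lf (nat_lit 237414) (.g (nat_lit 2571) (.e (nat_lit 114714) (nat_lit 22) (.e (nat_lit 90170) (nat_lit 13) (.e (nat_lit 172067) (nat_lit 3) (.e (nat_lit 204829) (nat_lit 18) (.e (nat_lit 57686) (nat_lit 156) (.e (nat_lit 163868) (nat_lit 2) (.e (nat_lit 196624) (nat_lit 9) (.e (nat_lit 1277) (nat_lit 94) .nil)))))))) (.g (nat_lit 4) .nil .nil)))) (.nd (nat_lit 5) 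
(.lf (nat_lit 237398) (.g (nat_lit 3277) (.e (nat_lit 114714) (nat_lit 22) (.e (nat_lit 90170) (nat_lit 13) (.e (nat_lit 172065) (nat_lit 3) (.e (nat_lit 204830) (nat_lit 18) (.e (nat_lit 57691) (nat_lit 156) (.e (nat_lit 163875) (nat_lit 3) (.e (nat_lit 204836) (nat_lit 20) .nil))))))) (.g (nat_lit 5) .nil .nil))) 
(.lf (nat_lit 237430) (.g (nat_lit 3323) (.e (nat_lit 114714) (nat_lit 22) (.e (nat_lit 90170) (nat_lit 13) (.e (nat_lit 172138) (nat_lit 15) (.e (nat_lit 2174) (nat_lit 143) (.e (nat_lit 712745) (nat_lit 27) (.e (nat_lit 426163) (nat_lit 6) (.e (nat_lit 253962) (nat_lit 9) (.e (nat_lit 1277) (nat_lit 94) .nil)))))))) (.g (nat_lit 4) .nil .nil))))) (.nd (nat_lit 4) (.nd (nat_lit 5) 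
(.lf (nat_lit 237390) (.g (nat_lit 3040) (.e (nat_lit 114714) (nat_lit 22) (.e (nat_lit 90170) (nat_lit 13) (.e (nat_lit 172065) (nat_lit 3) (.e (nat_lit 204829) (nat_lit 18) (.e (nat_lit 57692) (nat_lit 156) (.e (nat_lit 163869) (nat_lit 2) (.e (nat_lit 196624) (nat_lit 9) (.e (nat_lit 1277) (nat_lit 94) .nil)))))))) (.g (nat_lit 4) .nil .nil))) 
(.lf (nat_lit 237422) (.g (nat_lit 1507) (.e (nat_lit 114714) (nat_lit 22) (.e (nat_lit 90170) (nat_lit 13) (.e (nat_lit 172067) (nat_lit 3) (.e (nat_lit 204830) (nat_lit 18) .nil)))) .nil))) (.nd (nat_lit 5) 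
(.lf (nat_lit 237406) (.g (nat_lit 1585) (.e (nat_lit 114714) (nat_lit 22) (.e (nat_lit 90170) (nat_lit 13) (.e (nat_lit 172067) (nat_lit 3) (.e (nat_lit 204809) (nat_lit 9) .nil)))) .nil)) 
(.lf (nat_lit 237438) (.g (nat_lit 428) (.e (nat_lit 114714) (nat_lit 22) (.e (nat_lit 90172) (nat_lit 14) (.e (nat_lit 180229) (nat_lit 0) .nil))) .nil))))))) (.nd (nat_lit 1) (.nd (nat_lit 2) (.nd (nat_lit 3) (.nd (nat_lit 4) (.nd (nat_lit 5) 
(.lf (nat_lit 237377) (.g (nat_lit 3092) (.e (nat_lit 114714) (nat_lit 22) (.e (nat_lit 90170) (nat_lit 13) (.e (nat_lit 172065) (nat_lit 3) (.e (nat_lit 204819) (nat_lit 17) (.e (nat_lit 2357) (nat_lit 152) (.e (nat_lit 786457) (nat_lit 18) (.e (nat_lit 106240) (nat_lit 3) .nil))))))) (.g (nat_lit 6) .nil .nil))) 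
(.lf (nat_lit 237409) (.g (nat_lit 2127) (.e (nat_lit 114714) (nat_lit 22) (.e (nat_lit 90170) (nat_lit 13) (.e (nat_lit 172067) (nat_lit 3) (.e (nat_lit 204814) (nat_lit 17) .nil)))) .nil))) (.nd (nat_lit 5) 
(.lf (nat_lit 237393) (.g (nat_lit 2531) (.e (nat_lit 114714) (nat_lit 22) (.e (nat_lit 90170) (nat_lit 13) (.e (nat_lit 172065) (nat_lit 3) (.e (nat_lit 204830) (nat_lit 18) (.e (nat_lit 57685) (nat_lit 156) (.e (nat_lit 163867) (nat_lit 2) (.e (nat_lit 196624) (nat_lit 9) (.e (nat_lit 1277) (nat_lit 94) .nil)))))))) (.g (nat_lit 4) .nil .nil))) 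
(.lf (nat_lit 237425) (.g (nat_lit 2179) (.e (nat_lit 114714) (nat_lit 22) (.e (nat_lit 90170) (nat_lit 13) (.e (nat_lit 172067) (nat_lit 3) (.e (nat_lit 204830) (nat_lit 18) (.e (nat_lit 57692) (nat_lit 156) .nil))))) .nil)))) (.nd (nat_lit 4) (.nd (nat_lit 5) 
(.lf (nat_lit 237385) (.g (nat_lit 2982) (.e (nat_lit 114714) (nat_lit 22) (.e (nat_lit 90170) (nat_lit 13) (.e (nat_lit 172065) (nat_lit 3) (.e (nat_lit 204829) (nat_lit 18) (.e (nat_lit 57688) (nat_lit 156) (.e (nat_lit 163867) (nat_lit 2) (.e (nat_lit 196635) (nat_lit 9) (.e (nat_lit 1279) (nat_lit 94) .nil)))))))) (.g (nat_lit 4) .nil .nil))) 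
(.lf (nat_lit 237417) (.g (nat_lit 2626) (.e (nat_lit 114714) (nat_lit 22) (.e (nat_lit 90170) (nat_lit 13) (.e (nat_lit 172067) (nat_lit 3) (.e (nat_lit 204829) (nat_lit 18) (.e (nat_lit 57688) (nat_lit 156) (.e (nat_lit 163867) (nat_lit 2) (.e (nat_lit 196635) (nat_lit 9) (.e (nat_lit 1279) (nat_lit 94) .nil)))))))) (.g (nat_lit 4) .nil .nil)))) (.nd (nat_lit 5) 
(.lf (nat_lit 237401) (.g (nat_lit 2537) (.e (nat_lit 114714) (nat_lit 22) (.e (nat_lit 90170) (nat_lit 13) (.e (nat_lit 172065) (nat_lit 3) (.e (nat_lit 204830) (nat_lit 18) (.e (nat_lit 57692) (nat_lit 156) (.e (nat_lit 163874) (nat_lit 3) (.e (nat_lit 204836) (nat_lit 20) .nil))))))) (.g (nat_lit 4) .nil .nil))) 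
(.lf (nat_lit 237433) (.g (nat_lit 2397) (.e (nat_lit 114714) (nat_lit 22) (.e (nat_lit 90170) (nat_lit 13) (.e (nat_lit 179968) (nat_lit 20) (.e (nat_lit 114710) (nat_lit 21) (.e (nat_lit 57851) (nat_lit 252) (.e (nat_lit 57347) (nat_lit 0) (.e (nat_lit 2202) (nat_lit 144) (.e (nat_lit 720954) (nat_lit 25) .nil)))))))) (.g (nat_lit 5) .nil .nil)))))) 
(.nd (nat_lit 3) (.nd (nat_lit 4) (.nd (nat_lit 5) 
(.lf (nat_lit 237381) (.g (nat_lit 2981) (.e (nat_lit 114714) (nat_lit 22) (.e (nat_lit 90170) (nat_lit 13) (.e (nat_lit 172065) (nat_lit 3) (.e (nat_lit 204829) (nat_lit 18) (.e (nat_lit 57688) (nat_lit 156) (.e (nat_lit 163867) (nat_lit 2) (.e (nat_lit 196617) (nat_lit 9) (.e (nat_lit 1279) (nat_lit 94) .nil)))))))) (.g (nat_lit 4) .nil .nil))) 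
(.lf (nat_lit 237413) (.g (nat_lit 1589) (.e (nat_lit 114714) (nat_lit 22) (.e (nat_lit 90170) (nat_lit 13) (.e (nat_lit 172067) (nat_lit 3) (.e (nat_lit 204829) (nat_lit 18) .nil)))) .nil))) (.nd (nat_lit 5) 
(.lf (nat_lit 237397) (.g (nat_lit 3054) (.e (nat_lit 114714) (nat_lit 22) (.e (nat_lit 90170) (nat_lit 13) (.e (nat_lit 172065) (nat_lit 3) (.e (nat_lit 204830) (nat_lit 18) (.e (nat_lit 57691) (nat_lit 156) (.e (nat_lit 163871) (nat_lit 2) (.e (nat_lit 196624) (nat_lit 9) (.e (nat_lit 1277) (nat_lit 94) .nil)))))))) (.g (nat_lit 5) .nil .nil))) 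
(.lf (nat_lit 237429) (.g (nat_lit 2388) (.e (nat_lit 114714) (nat_lit 22) (.e (nat_lit 90170) (nat_lit 13) (.e (nat_lit 172138) (nat_lit 15) (.e (nat_lit 2174) (nat_lit 143) (.e (nat_lit 712745) (nat_lit 27) .nil))))) .nil)))) (.nd (nat_lit 4) (.nd (nat_lit 5) 
(.lf (nat_lit 237389) (.g (nat_lit 2457) (.e (nat_lit 114714) (nat_lit 22) (.e (nat_lit 90170) (nat_lit 13) (.e (nat_lit 172065) (nat_lit 3) (.e (nat_lit 204829) (nat_lit 18) (.e (nat_lit 57691) (nat_lit 156) (.e (nat_lit 163871) (nat_lit 2) (.e (nat_lit 196624) (nat_lit 9) (.e (nat_lit 1277) (nat_lit 94) .nil)))))))) (.g (nat_lit 4) .nil .nil))) 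
(.lf (nat_lit 237421) (.g (nat_lit 3039) (.e (nat_lit 114714) (nat_lit 22) (.e (nat_lit 90170) (nat_lit 13) (.e (nat_lit 172067) (nat_lit 3) (.e (nat_lit 204829) (nat_lit 18) (.e (nat_lit 57692) (nat_lit 156) (.e (nat_lit 163871) (nat_lit 2) (.e (nat_lit 196624) (nat_lit 9) (.e (nat_lit 1277) (nat_lit 94) .nil)))))))) (.g (nat_lit 4) .nil .nil)))) (.nd (nat_lit 5) 
(.lf (nat_lit 237405) (.g (nat_lit 1469) (.e (nat_lit 114714) (nat_lit 22) (.e (nat_lit 90170) (nat_lit 13) (.e (nat_lit 172067) (nat_lit 3) (.e (nat_lit 204805) (nat_lit 0) .nil)))) .nil)) 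
(.lf (nat_lit 237437) (.g (nat_lit 2315) (.e (nat_lit 114714) (nat_lit 22) (.e (nat_lit 90170) (nat_lit 13) (.e (nat_lit 179968) (nat_lit 20) (.e (nat_lit 114712) (nat_lit 21) (.e (nat_lit 57851) (nat_lit 252) (.e (nat_lit 57347) (nat_lit 0) (.e (nat_lit 2198) (nat_lit 144) (.e (nat_lit 720954) (nat_lit 25) .nil)))))))) (.g (nat_lit 5) .nil .nil))))))) 
(.nd (nat_lit 2) (.nd (nat_lit 3) (.nd (nat_lit 4) (.nd (nat_lit 5) 
(.lf (nat_lit 237379) (.g (nat_lit 2625) (.e (nat_lit 114714) (nat_lit 22) (.e (nat_lit 90170) (nat_lit 13) (.e (nat_lit 172065) (nat_lit 3) (.e (nat_lit 204821) (nat_lit 17) (.e (nat_lit 7936) (nat_lit 152) (.e (nat_lit 786457) (nat_lit 18) (.e (nat_lit 106240) (nat_lit 3) .nil))))))) (.g (nat_lit 4) .nil .nil))) 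
(.lf (nat_lit 237411) (.g (nat_lit 2127) (.e (nat_lit 114714) (nat_lit 22) (.e (nat_lit 90170) (nat_lit 13) (.e (nat_lit 172067) (nat_lit 3) (.e (nat_lit 204828) (nat_lit 18) .nil)))) .nil))) (.nd (nat_lit 5) 
(.lf (nat_lit 237395) (.g (nat_lit 2626) (.e (nat_lit 114714) (nat_lit 22) (.e (nat_lit 90170) (nat_lit 13) (.e (nat_lit 172065) (nat_lit 3) (.e (nat_lit 204830) (nat_lit 18) (.e (nat_lit 57691) (nat_lit 156) (.e (nat_lit 163869) (nat_lit 2) (.e (nat_lit 196624) (nat_lit 9) (.e (nat_lit 1277) (nat_lit 94) .nil)))))))) (.g (nat_lit 4) .nil .nil))) 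
(.lf (nat_lit 237427) (.g (nat_lit 2046) (.e (nat_lit 114714) (nat_lit 22) (.e (nat_lit 90170) (nat_lit 13) (.e (nat_lit 172067) (nat_lit 3) (.e (nat_lit 204831) (nat_lit 18) .nil)))) .nil)))) (.nd (nat_lit 4) (.nd (nat_lit 5) 
(.lf (nat_lit 237387) (.g (nat_lit 4234) (.e (nat_lit 114714) (nat_lit 22) (.e (nat_lit 90170) (nat_lit 13) (.e (nat_lit 172065) (nat_lit 3) (.e (nat_lit 204829) (nat_lit 18) (.e (nat_lit 57688) (nat_lit 156) (.e (nat_lit 163874) (nat_lit 3) (.e (nat_lit 204837) (nat_lit 20) .nil))))))) (.g (nat_lit 5) .nil .nil))) 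
(.lf (nat_lit 237419) (.g (nat_lit 3126) (.e (nat_lit 114714) (nat_lit 22) (.e (nat_lit 90170) (nat_lit 13) (.e (nat_lit 172067) (nat_lit 3) (.e (nat_lit 204829) (nat_lit 18) (.e (nat_lit 57688) (nat_lit 156) (.e (nat_lit 163875) (nat_lit 3) (.e (nat_lit 204838) (nat_lit 20) .nil))))))) (.g (nat_lit 4) .nil .nil)))) (.nd (nat_lit 5) 
(.lf (nat_lit 237403) (.g (nat_lit 2167) (.e (nat_lit 114714) (nat_lit 22) (.e (nat_lit 90170) (nat_lit 13) (.e (nat_lit 172065) (nat_lit 3) (.e (nat_lit 204831) (nat_lit 18) (.e (nat_lit 57692) (nat_lit 156) .nil))))) .nil)) 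
(.lf (nat_lit 237435) (.g (nat_lit 2859) (.e (nat_lit 114714) (nat_lit 22) (.e (nat_lit 90170) (nat_lit 13) (.e (nat_lit 179968) (nat_lit 20) (.e (nat_lit 114711) (nat_lit 21) (.e (nat_lit 57847) (nat_lit 252) (.e (nat_lit 57347) (nat_lit 0) (.e (nat_lit 2203) (nat_lit 144) (.e (nat_lit 720954) (nat_lit 25) .nil)))))))) (.g (nat_lit 5) .nil .nil)))))) 
(.nd (nat_lit 3) (.nd (nat_lit 4) (.nd (nat_lit 5) 
(.lf (nat_lit 237383) (.g (nat_lit 3434) (.e (nat_lit 114714) (nat_lit 22) (.e (nat_lit 90170) (nat_lit 13) (.e (nat_lit 172065) (nat_lit 3) (.e (nat_lit 204829) (nat_lit 18) (.e (nat_lit 57688) (nat_lit 156) (.e (nat_lit 163867) (nat_lit 2) (.e (nat_lit 196624) (nat_lit 9) (.e (nat_lit 1277) (nat_lit 94) .nil)))))))) (.g (nat_lit 5) .nil .nil))) 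
(.lf (nat_lit 237415) (.g (nat_lit 2625) (.e (nat_lit 114714) (nat_lit 22) (.e (nat_lit 90170) (nat_lit 13) (.e (nat_lit 172067) (nat_lit 3) (.e (nat_lit 204829) (nat_lit 18) (.e (nat_lit 57688) (nat_lit 156) (.e (nat_lit 163867) (nat_lit 2) (.e (nat_lit 196617) (nat_lit 9) (.e (nat_lit 1279) (nat_lit 94) .nil)))))))) (.g (nat_lit 4) .nil .nil)))) (.nd (nat_lit 5) 
(.lf (nat_lit 237399) (.g (nat_lit 4139) (.e (nat_lit 114714) (nat_lit 22) (.e (nat_lit 90170) (nat_lit 13) (.e (nat_lit 172065) (nat_lit 3) (.e (nat_lit 204830) (nat_lit 18) (.e (nat_lit 57691) (nat_lit 156) (.e (nat_lit 163875) (nat_lit 3) (.e (nat_lit 204838) (nat_lit 20) .nil))))))) (.g (nat_lit 6) .nil .nil))) 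
(.lf (nat_lit 237431) (.g (nat_lit 2745) (.e (nat_lit 114714) (nat_lit 22) (.e (nat_lit 90170) (nat_lit 13) (.e (nat_lit 179968) (nat_lit 20) (.e (nat_lit 114710) (nat_lit 21) (.e (nat_lit 57847) (nat_lit 252) (.e (nat_lit 57347) (nat_lit 0) (.e (nat_lit 2203) (nat_lit 144) (.e (nat_lit 720954) (nat_lit 25) .nil)))))))) (.g (nat_lit 5) .nil .nil))))) (.nd (nat_lit 4) (.nd (nat_lit 5) 
(.lf (nat_lit 237391) (.g (nat_lit 2733) (.e (nat_lit 114714) (nat_lit 22) (.e (nat_lit 90170) (nat_lit 13) (.e (nat_lit 172065) (nat_lit 3) (.e (nat_lit 204829) (nat_lit 18) (.e (nat_lit 57692) (nat_lit 156) (.e (nat_lit 163869) (nat_lit 2) (.e (nat_lit 196628) (nat_lit 9) (.e (nat_lit 1275) (nat_lit 94) .nil)))))))) (.g (nat_lit 4) .nil .nil))) 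
(.lf (nat_lit 237423) (.g (nat_lit 2641) (.e (nat_lit 114714) (nat_lit 22) (.e (nat_lit 90170) (nat_lit 13) (.e (nat_lit 172067) (nat_lit 3) (.e (nat_lit 204830) (nat_lit 18) (.e (nat_lit 57691) (nat_lit 156) (.e (nat_lit 163871) (nat_lit 2) (.e (nat_lit 196624) (nat_lit 9) (.e (nat_lit 1277) (nat_lit 94) .nil)))))))) (.g (nat_lit 4) .nil .nil)))) (.nd (nat_lit 5) 
(.lf (nat_lit 237407) (.g (nat_lit 2140) (.e (nat_lit 114714) (nat_lit 22) (.e (nat_lit 90170) (nat_lit 13) (.e (nat_lit 172067) (nat_lit 3) (.e (nat_lit 204810) (nat_lit 9) .nil)))) .nil)) 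
(.lf (nat_lit 237439) (.g (nat_lit 2468) (.e (nat_lit 114714) (nat_lit 22) (.e (nat_lit 90172) (nat_lit 14) (.e (nat_lit 180229) (nat_lit 0) (.e (nat_lit 5224) (nat_lit 296) (.e (nat_lit 163884) (nat_lit 5) (.e (nat_lit 221185) (nat_lit 0) (.e (nat_lit 2189) (nat_lit 144) (.e (nat_lit 720954) (nat_lit 25) .nil)))))))) (.g (nat_lit 5) .nil .nil)))))))))

noncomputable def tv3096 : DT := (.nd (nat_lit 0) (.nd (nat_lit 1) (.nd (nat_lit 2) (.nd (nat_lit 3) (.nd (nat_lit 4) (.nd (nat_lit 5) 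
(.lf (nat_lit 237440) (.g (nat_lit 4910) (.e (nat_lit 114714) (nat_lit 22) (.e (nat_lit 90172) (nat_lit 14) (.e (nat_lit 180229) (nat_lit 0) (.e (nat_lit 5224) (nat_lit 296) (.e (nat_lit 163886) (nat_lit 5) (.e (nat_lit 221207) (nat_lit 21) (.e (nat_lit 164325) (nat_lit 230) (.e (nat_lit 171776) (nat_lit 66) .nil)))))))) (.g (nat_lit 7) .nil .nil))) 
(.lf (nat_lit 237472) (.g (nat_lit 2394) (.e (nat_lit 114714) (nat_lit 22) (.e (nat_lit 90172) (nat_lit 14) (.e (nat_lit 180243) (nat_lit 5) (.e (nat_lit 532499) (nat_lit 1) (.e (nat_lit 57686) (nat_lit 156) (.e (nat_lit 163868) (nat_lit 2) (.e (nat_lit 196624) (nat_lit 9) (.e (nat_lit 1276) (nat_lit 94) .nil)))))))) (.g (nat_lit 4) .nil .nil)))) (.nd (nat_lit 5) 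
(.lf (nat_lit 237456) (.g (nat_lit 2136) (.e (nat_lit 114714) (nat_lit 22) (.e (nat_lit 90172) (nat_lit 14) (.e (nat_lit 188160) (nat_lit 3) (.e (nat_lit 516195) (nat_lit 26) (.e (nat_lit 336011) (nat_lit 2) (.e (nat_lit 98048) (nat_lit 0) (.e (nat_lit 1281) (nat_lit 94) .nil))))))) (.g (nat_lit 5) .nil .nil))) 
(.lf (nat_lit 237488) (.g (nat_lit 4478) (.e (nat_lit 114714) (nat_lit 22) (.e (nat_lit 90172) (nat_lit 14) (.e (nat_lit 180243) (nat_lit 5) (.e (nat_lit 532499) (nat_lit 1) (.e (nat_lit 57688) (nat_lit 156) (.e (nat_lit 163875) (nat_lit 3) (.e (nat_lit 204838) (nat_lit 20) .nil))))))) (.g (nat_lit 5) .nil .nil))))) (.nd (nat_lit 4) (.nd (nat_lit 5) 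
(.lf (nat_lit 237448) (.g (nat_lit 457) (.e (nat_lit 114714) (nat_lit 22) (.e (nat_lit 90172) (nat_lit 14) (.e (nat_lit 180239) (nat_lit 1) .nil))) .nil)) 
(.lf (nat_lit 237480) (.g (nat_lit 3275) (.e (nat_lit 114714) (nat_lit 22) (.e (nat_lit 90172) (nat_lit 14) (.e (nat_lit 180243) (nat_lit 5) (.e (nat_lit 532499) (nat_lit 1) (.e (nat_lit 57688) (nat_lit 156) (.e (nat_lit 163867) (nat_lit 2) (.e (nat_lit 196617) (nat_lit 9) (.e (nat_lit 1280) (nat_lit 94) .nil)))))))) (.g (nat_lit 4) .nil .nil)))) (.nd (nat_lit 5) 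
(.lf (nat_lit 237464) (.g (nat_lit 1516) (.e (nat_lit 114714) (nat_lit 22) (.e (nat_lit 90172) (nat_lit 14) (.e (nat_lit 188160) (nat_lit 3) (.e (nat_lit 516199) (nat_lit 26) (.e (nat_lit 336011) (nat_lit 2) (.e (nat_lit 98048) (nat_lit 0) (.e (nat_lit 1284) (nat_lit 94) .nil))))))) (.g (nat_lit 4) .nil .nil))) 
(.lf (nat_lit 237496) (.g (nat_lit 2917) (.e (nat_lit 114714) (nat_lit 22) (.e (nat_lit 90172) (nat_lit 14) (.e (nat_lit 180243) (nat_lit 5) (.e (nat_lit 532499) (nat_lit 1) (.e (nat_lit 57692) (nat_lit 156) (.e (nat_lit 163869) (nat_lit 2) (.e (nat_lit 196630) (nat_lit 9) (.e (nat_lit 1278) (nat_lit 94) .nil)))))))) (.g (nat_lit 4) .nil .nil)))))) 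
(.nd (nat_lit 3) (.nd (nat_lit 4) (.nd (nat_lit 5) 
(.lf (nat_lit 237444) (.g (nat_lit 2017) (.e (nat_lit 114714) (nat_lit 22) (.e (nat_lit 90172) (nat_lit 14) (.e (nat_lit 180229) (nat_lit 0) (.e (nat_lit 5548) (nat_lit 306) (.e (nat_lit 2640) (nat_lit 165) (.e (nat_lit 180271) (nat_lit 26) (.e (nat_lit 704626) (nat_lit 9) (.e (nat_lit 1283) (nat_lit 94) .nil)))))))) (.g (nat_lit 4) .nil .nil))) 
(.lf (nat_lit 237476) (.g (nat_lit 2514) (.e (nat_lit 114714) (nat_lit 22) (.e (nat_lit 90172) (nat_lit 14) (.e (nat_lit 180243) (nat_lit 5) (.e (nat_lit 532499) (nat_lit 1) (.e (nat_lit 57687) (nat_lit 156) .nil))))) .nil))) (.nd (nat_lit 5) 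
(.lf (nat_lit 237460) (.g (nat_lit 2431) (.e (nat_lit 114714) (nat_lit 22) (.e (nat_lit 90172) (nat_lit 14) (.e (nat_lit 188160) (nat_lit 3) (.e (nat_lit 516199) (nat_lit 26) (.e (nat_lit 335894) (nat_lit 0) (.e (nat_lit 1818) (nat_lit 121) (.e (nat_lit 532513) (nat_lit 3) .nil))))))) (.g (nat_lit 5) .nil .nil))) 
(.lf (nat_lit 237492) (.g (nat_lit 2930) (.e (nat_lit 114714) (nat_lit 22) (.e (nat_lit 90172) (nat_lit 14) (.e (nat_lit 180243) (nat_lit 5) (.e (nat_lit 532499) (nat_lit 1) (.e (nat_lit 57691) (nat_lit 156) (.e (nat_lit 163875) (nat_lit 3) (.e (nat_lit 204836) (nat_lit 20) .nil))))))) (.g (nat_lit 4) .nil .nil))))) (.nd (nat_lit 4) (.nd (nat_lit 5) 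
(.lf (nat_lit 237452) (.g (nat_lit 1746) (.e (nat_lit 114714) (nat_lit 22) (.e (nat_lit 90172) (nat_lit 14) (.e (nat_lit 188160) (nat_lit 1) (.e (nat_lit 499900) (nat_lit 7) (.e (nat_lit 24604) (nat_lit 2) (.e (nat_lit 98048) (nat_lit 0) (.e (nat_lit 1280) (nat_lit 94) .nil))))))) (.g (nat_lit 5) .nil .nil))) 
(.lf (nat_lit 237484) (.g (nat_lit 3208) (.e (nat_lit 114714) (nat_lit 22) (.e (nat_lit 90172) (nat_lit 14) (.e (nat_lit 180243) (nat_lit 5) (.e (nat_lit 532499) (nat_lit 1) (.e (nat_lit 57688) (nat_lit 156) (.e (nat_lit 163867) (nat_lit 2) (.e (nat_lit 196633) (nat_lit 9) (.e (nat_lit 1279) (nat_lit 94) .nil)))))))) (.g (nat_lit 4) .nil .nil)))) (.nd (nat_lit 5) 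
(.lf (nat_lit 237468) (.g (nat_lit 1990) (.e (nat_lit 114714) (nat_lit 22) (.e (nat_lit 90172) (nat_lit 14) (.e (nat_lit 180241) (nat_lit 4) (.e (nat_lit 532224) (nat_lit 26) (.e (nat_lit 336013) (nat_lit 2) (.e (nat_lit 98048) (nat_lit 0) (.e (nat_lit 1279) (nat_lit 94) .nil))))))) (.g (nat_lit 5) .nil .nil))) 
(.lf (nat_lit 237500) (.g (nat_lit 1999) (.e (nat_lit 114714) (nat_lit 22) (.e (nat_lit 90172) (nat_lit 14) (.e (nat_lit 180243) (nat_lit 5) (.e (nat_lit 532501) (nat_lit 1) (.e (nat_lit 57685) (nat_lit 156) .nil))))) .nil)))))) (.nd (nat_lit 2) (.nd (nat_lit 3) (.nd (nat_lit 4) (.nd (nat_lit 5) 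
(.lf (nat_lit 237442) (.g (nat_lit 4503) (.e (nat_lit 114714) (nat_lit 22) (.e (nat_lit 90172) (nat_lit 14) (.e (nat_lit 180229) (nat_lit 0) (.e (nat_lit 5224) (nat_lit 296) (.e (nat_lit 163886) (nat_lit 5) (.e (nat_lit 221208) (nat_lit 21) (.e (nat_lit 164330) (nat_lit 230) (.e (nat_lit 171776) (nat_lit 66) .nil)))))))) (.g (nat_lit 7) .nil .nil))) 
(.lf (nat_lit 237474) (.g (nat_lit 2735) (.e (nat_lit 114714) (nat_lit 22) (.e (nat_lit 90172) (nat_lit 14) (.e (nat_lit 180243) (nat_lit 5) (.e (nat_lit 532499) (nat_lit 1) (.e (nat_lit 57686) (nat_lit 156) (.e (nat_lit 163871) (nat_lit 2) (.e (nat_lit 196624) (nat_lit 9) (.e (nat_lit 1277) (nat_lit 94) .nil)))))))) (.g (nat_lit 4) .nil .nil)))) (.nd (nat_lit 5) 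
(.lf (nat_lit 237458) (.g (nat_lit 1732) (.e (nat_lit 114714) (nat_lit 22) (.e (nat_lit 90172) (nat_lit 14) (.e (nat_lit 188160) (nat_lit 3) (.e (nat_lit 516195) (nat_lit 26) (.e (nat_lit 336012) (nat_lit 2) (.e (nat_lit 98048) (nat_lit 0) (.e (nat_lit 1279) (nat_lit 94) .nil))))))) (.g (nat_lit 5) .nil .nil))) 
(.lf (nat_lit 237490) (.g (nat_lit 2775) (.e (nat_lit 114714) (nat_lit 22) (.e (nat_lit 90172) (nat_lit 14) (.e (nat_lit 180243) (nat_lit 5) (.e (nat_lit 532499) (nat_lit 1) (.e (nat_lit 57691) (nat_lit 156) (.e (nat_lit 163871) (nat_lit 2) (.e (nat_lit 196624) (nat_lit 9) (.e (nat_lit 1276) (nat_lit 94) .nil)))))))) (.g (nat_lit 4) .nil .nil))))) (.nd (nat_lit 4) (.nd (nat_lit 5) 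
(.lf (nat_lit 237450) (.g (nat_lit 1814) (.e (nat_lit 114714) (nat_lit 22) (.e (nat_lit 90172) (nat_lit 14) (.e (nat_lit 188160) (nat_lit 1) (.e (nat_lit 499900) (nat_lit 7) (.e (nat_lit 24604) (nat_lit 2) (.e (nat_lit 98048) (nat_lit 0) (.e (nat_lit 1277) (nat_lit 94) .nil))))))) (.g (nat_lit 5) .nil .nil))) 
(.lf (nat_lit 237482) (.g (nat_lit 4280) (.e (nat_lit 114714) (nat_lit 22) (.e (nat_lit 90172) (nat_lit 14) (.e (nat_lit 180243) (nat_lit 5) (.e (nat_lit 532499) (nat_lit 1) (.e (nat_lit 57688) (nat_lit 156) (.e (nat_lit 163867) (nat_lit 2) (.e (nat_lit 196624) (nat_lit 9) (.e (nat_lit 1277) (nat_lit 94) .nil)))))))) (.g (nat_lit 5) .nil .nil)))) (.nd (nat_lit 5) 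
(.lf (nat_lit 237466) (.g (nat_lit 1861) (.e (nat_lit 114714) (nat_lit 22) (.e (nat_lit 90172) (nat_lit 14) (.e (nat_lit 180241) (nat_lit 4) (.e (nat_lit 524335) (nat_lit 26) (.e (nat_lit 336013) (nat_lit 2) (.e (nat_lit 98048) (nat_lit 0) (.e (nat_lit 1280) (nat_lit 94) .nil))))))) (.g (nat_lit 5) .nil .nil))) 
(.lf (nat_lit 237498) (.g (nat_lit 3134) (.e (nat_lit 114714) (nat_lit 22) (.e (nat_lit 90172) (nat_lit 14) (.e (nat_lit 180243) (nat_lit 5) (.e (nat_lit 532499) (nat_lit 1) (.e (nat_lit 57692) (nat_lit 156) (.e (nat_lit 163874) (nat_lit 3) (.e (nat_lit 204836) (nat_lit 20) .nil))))))) (.g (nat_lit 4) .nil .nil)))))) (.nd (nat_lit 3) (.nd (nat_lit 4) (.nd (nat_lit 5) 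
(.lf (nat_lit 237446) (.g (nat_lit 2297) (.e (nat_lit 114714) (nat_lit 22) (.e (nat_lit 90172) (nat_lit 14) (.e (nat_lit 180229) (nat_lit 0) (.e (nat_lit 5548) (nat_lit 306) (.e (nat_lit 2640) (nat_lit 165) (.e (nat_lit 180271) (nat_lit 26) (.e (nat_lit 704628) (nat_lit 9) (.e (nat_lit 1276) (nat_lit 94) .nil)))))))) (.g (nat_lit 4) .nil .nil))) 
(.lf (nat_lit 237478) (.g (nat_lit 2261) (.e (nat_lit 114714) (nat_lit 22) (.e (nat_lit 90172) (nat_lit 14) (.e (nat_lit 180243) (nat_lit 5) (.e (nat_lit 532499) (nat_lit 1) (.e (nat_lit 57688) (nat_lit 156) .nil))))) .nil))) (.nd (nat_lit 5) 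
(.lf (nat_lit 237462) (.g (nat_lit 1840) (.e (nat_lit 114714) (nat_lit 22) (.e (nat_lit 90172) (nat_lit 14) (.e (nat_lit 188160) (nat_lit 3) (.e (nat_lit 516199) (nat_lit 26) (.e (nat_lit 336011) (nat_lit 2) (.e (nat_lit 98048) (nat_lit 0) (.e (nat_lit 1280) (nat_lit 94) .nil))))))) (.g (nat_lit 5) .nil .nil))) 
(.lf (nat_lit 237494) (.g (nat_lit 2607) (.e (nat_lit 114714) (nat_lit 22) (.e (nat_lit 90172) (nat_lit 14) (.e (nat_lit 180243) (nat_lit 5) (.e (nat_lit 532499) (nat_lit 1) (.e (nat_lit 57692) (nat_lit 156) (.e (nat_lit 163869) (nat_lit 2) (.e (nat_lit 196626) (nat_lit 9) (.e (nat_lit 1282) (nat_lit 94) .nil)))))))) (.g (nat_lit 4) .nil .nil))))) (.nd (nat_lit 4) (.nd (nat_lit 5) 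
(.lf (nat_lit 237454) (.g (nat_lit 2622) (.e (nat_lit 114714) (nat_lit 22) (.e (nat_lit 90172) (nat_lit 14) (.e (nat_lit 188160) (nat_lit 3) (.e (nat_lit 516195) (nat_lit 26) (.e (nat_lit 336011) (nat_lit 2) (.e (nat_lit 98048) (nat_lit 0) (.e (nat_lit 1279) (nat_lit 94) .nil))))))) (.g (nat_lit 5) .nil .nil))) 
(.lf (nat_lit 237486) (.g (nat_lit 4435) (.e (nat_lit 114714) (nat_lit 22) (.e (nat_lit 90172) (nat_lit 14) (.e (nat_lit 180243) (nat_lit 5) (.e (nat_lit 532499) (nat_lit 1) (.e (nat_lit 57688) (nat_lit 156) (.e (nat_lit 163868) (nat_lit 2) (.e (nat_lit 196624) (nat_lit 9) (.e (nat_lit 1277) (nat_lit 94) .nil)))))))) (.g (nat_lit 5) .nil .nil)))) (.nd (nat_lit 5) 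
(.lf (nat_lit 237470) (.g (nat_lit 2324) (.e (nat_lit 114714) (nat_lit 22) (.e (nat_lit 90172) (nat_lit 14) (.e (nat_lit 180243) (nat_lit 5) (.e (nat_lit 532499) (nat_lit 1) (.e (nat_lit 57686) (nat_lit 156) (.e (nat_lit 163867) (nat_lit 2) (.e (nat_lit 196624) (nat_lit 9) (.e (nat_lit 1276) (nat_lit 94) .nil)))))))) (.g (nat_lit 4) .nil .nil))) 
(.lf (nat_lit 237502) (.g (nat_lit 2235) (.e (nat_lit 114714) (nat_lit 22) (.e (nat_lit 90172) (nat_lit 14) (.e (nat_lit 180243) (nat_lit 5) (.e (nat_lit 532501) (nat_lit 1) (.e (nat_lit 57685) (nat_lit 156) (.e (nat_lit 163868) (nat_lit 2) (.e (nat_lit 196624) (nat_lit 9) (.e (nat_lit 1277) (nat_lit 94) .nil)))))))) (.g (nat_lit 4) .nil .nil)))))))) 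
(.nd (nat_lit 1) (.nd (nat_lit 2) (.nd (nat_lit 3) (.nd (nat_lit 4) (.nd (nat_lit 5) 
(.lf (nat_lit 237441) (.g (nat_lit 2711) (.e (nat_lit 114714) (nat_lit 22) (.e (nat_lit 90172) (nat_lit 14) (.e (nat_lit 180229) (nat_lit 0) (.e (nat_lit 5224) (nat_lit 296) (.e (nat_lit 163886) (nat_lit 5) (.e (nat_lit 221208) (nat_lit 21) (.e (nat_lit 164329) (nat_lit 230) (.e (nat_lit 171776) (nat_lit 66) .nil)))))))) (.g (nat_lit 5) .nil .nil))) 
(.lf (nat_lit 237473) (.g (nat_lit 3400) (.e (nat_lit 114714) (nat_lit 22) (.e (nat_lit 90172) (nat_lit 14) (.e (nat_lit 180243) (nat_lit 5) (.e (nat_lit 532499) (nat_lit 1) (.e (nat_lit 57686) (nat_lit 156) (.e (nat_lit 163868) (nat_lit 2) (.e (nat_lit 196624) (nat_lit 9) (.e (nat_lit 1277) (nat_lit 94) .nil)))))))) (.g (nat_lit 5) .nil .nil)))) (.nd (nat_lit 5) 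
(.lf (nat_lit 237457) (.g (nat_lit 1836) (.e (nat_lit 114714) (nat_lit 22) (.e (nat_lit 90172) (nat_lit 14) (.e (nat_lit 188160) (nat_lit 3) (.e (nat_lit 516195) (nat_lit 26) (.e (nat_lit 336011) (nat_lit 2) (.e (nat_lit 98048) (nat_lit 0) (.e (nat_lit 1284) (nat_lit 94) .nil))))))) (.g (nat_lit 5) .nil .nil))) 
(.lf (nat_lit 237489) (.g (nat_lit 3026) (.e (nat_lit 114714) (nat_lit 22) (.e (nat_lit 90172) (nat_lit 14) (.e (nat_lit 180243) (nat_lit 5) (.e (nat_lit 532499) (nat_lit 1) (.e (nat_lit 57691) (nat_lit 156) (.e (nat_lit 163869) (nat_lit 2) (.e (nat_lit 196624) (nat_lit 9) (.e (nat_lit 1277) (nat_lit 94) .nil)))))))) (.g (nat_lit 4) .nil .nil))))) (.nd (nat_lit 4) (.nd (nat_lit 5) 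
(.lf (nat_lit 237449) (.g (nat_lit 1895) (.e (nat_lit 114714) (nat_lit 22) (.e (nat_lit 90172) (nat_lit 14) (.e (nat_lit 188160) (nat_lit 1) (.e (nat_lit 499900) (nat_lit 7) (.e (nat_lit 24604) (nat_lit 2) (.e (nat_lit 98048) (nat_lit 0) (.e (nat_lit 1276) (nat_lit 94) .nil))))))) (.g (nat_lit 5) .nil .nil))) 
(.lf (nat_lit 237481) (.g (nat_lit 3563) (.e (nat_lit 114714) (nat_lit 22) (.e (nat_lit 90172) (nat_lit 14) (.e (nat_lit 180243) (nat_lit 5) (.e (nat_lit 532499) (nat_lit 1) (.e (nat_lit 57688) (nat_lit 156) (.e (nat_lit 163867) (nat_lit 2) (.e (nat_lit 196624) (nat_lit 9) (.e (nat_lit 1276) (nat_lit 94) .nil)))))))) (.g (nat_lit 5) .nil .nil)))) (.nd (nat_lit 5) 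
(.lf (nat_lit 237465) (.g (nat_lit 2395) (.e (nat_lit 114714) (nat_lit 22) (.e (nat_lit 90172) (nat_lit 14) (.e (nat_lit 180241) (nat_lit 4) (.e (nat_lit 524335) (nat_lit 26) (.e (nat_lit 336013) (nat_lit 2) (.e (nat_lit 98048) (nat_lit 0) (.e (nat_lit 1279) (nat_lit 94) .nil))))))) (.g (nat_lit 5) .nil .nil))) 
(.lf (nat_lit 237497) (.g (nat_lit 3875) (.e (nat_lit 114714) (nat_lit 22) (.e (nat_lit 90172) (nat_lit 14) (.e (nat_lit 180243) (nat_lit 5) (.e (nat_lit 532499) (nat_lit 1) (.e (nat_lit 57692) (nat_lit 156) (.e (nat_lit 163871) (nat_lit 2) (.e (nat_lit 196624) (nat_lit 9) (.e (nat_lit 1277) (nat_lit 94) .nil)))))))) (.g (nat_lit 5) .nil .nil)))))) 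
(.nd (nat_lit 3) (.nd (nat_lit 4) (.nd (nat_lit 5) 
(.lf (nat_lit 237445) (.g (nat_lit 2716) (.e (nat_lit 114714) (nat_lit 22) (.e (nat_lit 90172) (nat_lit 14) (.e (nat_lit 180229) (nat_lit 0) (.e (nat_lit 5548) (nat_lit 306) (.e (nat_lit 2640) (nat_lit 165) (.e (nat_lit 180271) (nat_lit 26) (.e (nat_lit 704626) (nat_lit 9) (.e (nat_lit 1284) (nat_lit 94) .nil)))))))) (.g (nat_lit 5) .nil .nil))) 
(.lf (nat_lit 237477) (.g (nat_lit 2686) (.e (nat_lit 114714) (nat_lit 22) (.e (nat_lit 90172) (nat_lit 14) (.e (nat_lit 180243) (nat_lit 5) (.e (nat_lit 532499) (nat_lit 1) (.e (nat_lit 57687) (nat_lit 156) (.e (nat_lit 163867) (nat_lit 2) (.e (nat_lit 196624) (nat_lit 9) (.e (nat_lit 1277) (nat_lit 94) .nil)))))))) (.g (nat_lit 4) .nil .nil)))) (.nd (nat_lit 5) 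
(.lf (nat_lit 237461) (.g (nat_lit 2302) (.e (nat_lit 114714) (nat_lit 22) (.e (nat_lit 90172) (nat_lit 14) (.e (nat_lit 188160) (nat_lit 3) (.e (nat_lit 516199) (nat_lit 26) (.e (nat_lit 336011) (nat_lit 2) (.e (nat_lit 98048) (nat_lit 0) (.e (nat_lit 1279) (nat_lit 94) .nil))))))) (.g (nat_lit 5) .nil .nil))) 
(.lf (nat_lit 237493) (.g (nat_lit 3224) (.e (nat_lit 114714) (nat_lit 22) (.e (nat_lit 90172) (nat_lit 14) (.e (nat_lit 180243) (nat_lit 5) (.e (nat_lit 532499) (nat_lit 1) (.e (nat_lit 57692) (nat_lit 156) (.e (nat_lit 163869) (nat_lit 2) (.e (nat_lit 196626) (nat_lit 9) (.e (nat_lit 1278) (nat_lit 94) .nil)))))))) (.g (nat_lit 4) .nil .nil))))) (.nd (nat_lit 4) (.nd (nat_lit 5) 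
(.lf (nat_lit 237453) (.g (nat_lit 1991) (.e (nat_lit 114714) (nat_lit 22) (.e (nat_lit 90172) (nat_lit 14) (.e (nat_lit 188160) (nat_lit 1) (.e (nat_lit 499900) (nat_lit 7) (.e (nat_lit 24604) (nat_lit 2) (.e (nat_lit 98048) (nat_lit 0) (.e (nat_lit 1281) (nat_lit 94) .nil))))))) (.g (nat_lit 5) .nil .nil))) 
(.lf (nat_lit 237485) (.g (nat_lit 3082) (.e (nat_lit 114714) (nat_lit 22) (.e (nat_lit 90172) (nat_lit 14) (.e (nat_lit 180243) (nat_lit 5) (.e (nat_lit 532499) (nat_lit 1) (.e (nat_lit 57688) (nat_lit 156) (.e (nat_lit 163867) (nat_lit 2) (.e (nat_lit 196635) (nat_lit 9) (.e (nat_lit 1280) (nat_lit 94) .nil)))))))) (.g (nat_lit 4) .nil .nil)))) (.nd (nat_lit 5) 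
(.lf (nat_lit 237469) (.g (nat_lit 2335) (.e (nat_lit 114714) (nat_lit 22) (.e (nat_lit 90172) (nat_lit 14) (.e (nat_lit 180243) (nat_lit 5) (.e (nat_lit 532499) (nat_lit 1) (.e (nat_lit 57657) (nat_lit 152) .nil))))) .nil)) 
(.lf (nat_lit 237501) (.g (nat_lit 2693) (.e (nat_lit 114714) (nat_lit 22) (.e (nat_lit 90172) (nat_lit 14) (.e (nat_lit 180243) (nat_lit 5) (.e (nat_lit 532501) (nat_lit 1) (.e (nat_lit 57685) (nat_lit 156) (.e (nat_lit 163867) (nat_lit 2) (.e (nat_lit 196624) (nat_lit 9) (.e (nat_lit 1277) (nat_lit 94) .nil)))))))) (.g (nat_lit 4) .nil .nil))))))) 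
(.nd (nat_lit 2) (.nd (nat_lit 3) (.nd (nat_lit 4) (.nd (nat_lit 5) 
(.lf (nat_lit 237443) (.g (nat_lit 3526) (.e (nat_lit 114714) (nat_lit 22) (.e (nat_lit 90172) (nat_lit 14) (.e (nat_lit 180229) (nat_lit 0) (.e (nat_lit 5548) (nat_lit 306) (.e (nat_lit 2640) (nat_lit 165) (.e (nat_lit 180227) (nat_lit 0) (.e (nat_lit 6421) (nat_lit 341) (.e (nat_lit 171776) (nat_lit 66) .nil)))))))) (.g (nat_lit 6) .nil .nil))) 
(.lf (nat_lit 237475) (.g (nat_lit 2454) (.e (nat_lit 114714) (nat_lit 22) (.e (nat_lit 90172) (nat_lit 14) (.e (nat_lit 180243) (nat_lit 5) (.e (nat_lit 532499) (nat_lit 1) (.e (nat_lit 57686) (nat_lit 156) (.e (nat_lit 163875) (nat_lit 3) (.e (nat_lit 204836) (nat_lit 20) .nil))))))) (.g (nat_lit 4) .nil .nil)))) (.nd (nat_lit 5) 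
(.lf (nat_lit 237459) (.g (nat_lit 1426) (.e (nat_lit 114714) (nat_lit 22) (.e (nat_lit 90172) (nat_lit 14) (.e (nat_lit 188160) (nat_lit 3) (.e (nat_lit 516195) (nat_lit 26) (.e (nat_lit 336012) (nat_lit 2) (.e (nat_lit 98048) (nat_lit 0) (.e (nat_lit 1281) (nat_lit 94) .nil))))))) (.g (nat_lit 4) .nil .nil))) 
(.lf (nat_lit 237491) (.g (nat_lit 3316) (.e (nat_lit 114714) (nat_lit 22) (.e (nat_lit 90172) (nat_lit 14) (.e (nat_lit 180243) (nat_lit 5) (.e (nat_lit 532499) (nat_lit 1) (.e (nat_lit 57691) (nat_lit 156) (.e (nat_lit 163871) (nat_lit 2) (.e (nat_lit 196624) (nat_lit 9) (.e (nat_lit 1277) (nat_lit 94) .nil)))))))) (.g (nat_lit 5) .nil .nil))))) (.nd (nat_lit 4) (.nd (nat_lit 5) 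
(.lf (nat_lit 237451) (.g (nat_lit 2276) (.e (nat_lit 114714) (nat_lit 22) (.e (nat_lit 90172) (nat_lit 14) (.e (nat_lit 188160) (nat_lit 1) (.e (nat_lit 499900) (nat_lit 7) (.e (nat_lit 24604) (nat_lit 2) (.e (nat_lit 98048) (nat_lit 0) (.e (nat_lit 1279) (nat_lit 94) .nil))))))) (.g (nat_lit 5) .nil .nil))) 
(.lf (nat_lit 237483) (.g (nat_lit 3040) (.e (nat_lit 114714) (nat_lit 22) (.e (nat_lit 90172) (nat_lit 14) (.e (nat_lit 180243) (nat_lit 5) (.e (nat_lit 532499) (nat_lit 1) (.e (nat_lit 57688) (nat_lit 156) (.e (nat_lit 163867) (nat_lit 2) (.e (nat_lit 196632) (nat_lit 9) (.e (nat_lit 1279) (nat_lit 94) .nil)))))))) (.g (nat_lit 4) .nil .nil)))) (.nd (nat_lit 5) 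
(.lf (nat_lit 237467) (.g (nat_lit 2163) (.e (nat_lit 114714) (nat_lit 22) (.e (nat_lit 90172) (nat_lit 14) (.e (nat_lit 180241) (nat_lit 4) (.e (nat_lit 524335) (nat_lit 26) (.e (nat_lit 336013) (nat_lit 2) (.e (nat_lit 98048) (nat_lit 0) (.e (nat_lit 1281) (nat_lit 94) .nil))))))) (.g (nat_lit 5) .nil .nil))) 
(.lf (nat_lit 237499) (.g (nat_lit 2840) (.e (nat_lit 114714) (nat_lit 22) (.e (nat_lit 90172) (nat_lit 14) (.e (nat_lit 180243) (nat_lit 5) (.e (nat_lit 532499) (nat_lit 1) (.e (nat_lit 57692) (nat_lit 156) (.e (nat_lit 163875) (nat_lit 3) (.e (nat_lit 204836) (nat_lit 20) .nil))))))) (.g (nat_lit 4) .nil .nil)))))) (.nd (nat_lit 3) (.nd (nat_lit 4) (.nd (nat_lit 5) 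
(.lf (nat_lit 237447) (.g (nat_lit 1619) (.e (nat_lit 114714) (nat_lit 22) (.e (nat_lit 90172) (nat_lit 14) (.e (nat_lit 180236) (nat_lit 1) (.e (nat_lit 500048) (nat_lit 16) (.e (nat_lit 24320) (nat_lit 18) (.e (nat_lit 106240) (nat_lit 3) .nil)))))) (.g (nat_lit 4) .nil .nil))) 
(.lf (nat_lit 237479) (.g (nat_lit 3860) (.e (nat_lit 114714) (nat_lit 22) (.e (nat_lit 90172) (nat_lit 14) (.e (nat_lit 180243) (nat_lit 5) (.e (nat_lit 532499) (nat_lit 1) (.e (nat_lit 57688) (nat_lit 156) (.e (nat_lit 163867) (nat_lit 2) (.e (nat_lit 196617) (nat_lit 9) (.e (nat_lit 1279) (nat_lit 94) .nil)))))))) (.g (nat_lit 5) .nil .nil)))) (.nd (nat_lit 5) 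
(.lf (nat_lit 237463) (.g (nat_lit 1816) (.e (nat_lit 114714) (nat_lit 22) (.e (nat_lit 90172) (nat_lit 14) (.e (nat_lit 188160) (nat_lit 3) (.e (nat_lit 516199) (nat_lit 26) (.e (nat_lit 336011) (nat_lit 2) (.e (nat_lit 98048) (nat_lit 0) (.e (nat_lit 1281) (nat_lit 94) .nil))))))) (.g (nat_lit 5) .nil .nil))) 
(.lf (nat_lit 237495) (.g (nat_lit 3528) (.e (nat_lit 114714) (nat_lit 22) (.e (nat_lit 90172) (nat_lit 14) (.e (nat_lit 180243) (nat_lit 5) (.e (nat_lit 532499) (nat_lit 1) (.e (nat_lit 57692) (nat_lit 156) (.e (nat_lit 163869) (nat_lit 2) (.e (nat_lit 196628) (nat_lit 9) (.e (nat_lit 1275) (nat_lit 94) .nil)))))))) (.g (nat_lit 5) .nil .nil))))) (.nd (nat_lit 4) (.nd (nat_lit 5) 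
(.lf (nat_lit 237455) (.g (nat_lit 2160) (.e (nat_lit 114714) (nat_lit 22) (.e (nat_lit 90172) (nat_lit 14) (.e (nat_lit 188160) (nat_lit 3) (.e (nat_lit 516195) (nat_lit 26) (.e (nat_lit 336011) (nat_lit 2) (.e (nat_lit 98048) (nat_lit 0) (.e (nat_lit 1280) (nat_lit 94) .nil))))))) (.g (nat_lit 5) .nil .nil))) 
(.lf (nat_lit 237487) (.g (nat_lit 4082) (.e (nat_lit 114714) (nat_lit 22) (.e (nat_lit 90172) (nat_lit 14) (.e (nat_lit 180243) (nat_lit 5) (.e (nat_lit 532499) (nat_lit 1) (.e (nat_lit 57688) (nat_lit 156) (.e (nat_lit 163871) (nat_lit 2) (.e (nat_lit 196624) (nat_lit 9) (.e (nat_lit 1277) (nat_lit 94) .nil)))))))) (.g (nat_lit 5) .nil .nil)))) (.nd (nat_lit 5) 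
(.lf (nat_lit 237471) (.g (nat_lit 3067) (.e (nat_lit 114714) (nat_lit 22) (.e (nat_lit 90172) (nat_lit 14) (.e (nat_lit 180243) (nat_lit 5) (.e (nat_lit 532499) (nat_lit 1) (.e (nat_lit 57686) (nat_lit 156) (.e (nat_lit 163867) (nat_lit 2) (.e (nat_lit 196624) (nat_lit 9) (.e (nat_lit 1277) (nat_lit 94) .nil)))))))) (.g (nat_lit 4) .nil .nil))) 
(.lf (nat_lit 237503) (.g (nat_lit 2035) (.e (nat_lit 114714) (nat_lit 22) (.e (nat_lit 90172) (nat_lit 14) (.e (nat_lit 180243) (nat_lit 5) (.e (nat_lit 532501) (nat_lit 1) (.e (nat_lit 57685) (nat_lit 156) (.e (nat_lit 163871) (nat_lit 2) (.e (nat_lit 196624) (nat_lit 9) (.e (nat_lit 1277) (nat_lit 94) .nil)))))))) (.g (nat_lit 4) .nil .nil)))))))))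


end

end Pool.Agent.Lib.MP_5854e1_co.Cz
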