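import Pool.Agent.Lib.MP_5854e1_co.DtD

/-!
# Windows and cells of the rings
-/

set_option autoImplicit false
set_option maxRecDepth 100000
set_option deprecated.oldSectionVars true

namespace Pool.Agent.Lib.MP_5854e1_co.Cz

open Pool.Agent.Lib.MP_5854e1_co

noncomputable section

noncomputable def tv5515 : DT := (.nd (nat_lit 0) (.nd (nat_lit 1) (.nd (nat_lit 2) (.nd (nat_lit 3) (.nd (nat_lit 4) (.nd (nat_lit 5) (.nd (nat_lit 6) (.nd (nat_lit 7) (.nd (nat_lit 8) (.nd (nat_lit 9) 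
(.lf (nat_lit 465920) (.g (nat_lit 5227) (.e (nat_lit 3242) (nat_lit 197) (.e (nat_lit 532550) (nat_lit 12) (.e (nat_lit 360474) (nat_lit 8) (.e (nat_lit 557093) (nat_lit 12) (.e (nat_lit 164022) (nat_lit 46) (.e (nat_lit 704737) (nat_lit 11) (.e (nat_lit 16384) (nat_lit 0) .nil))))))) (.g (nat_lit 1) (.e (nat_lit 75643) (nat_lit 0) .nil) .nil))) 
(.lf (nat_lit 466432) (.g (nat_lit 1816) (.e (nat_lit 3249) (nat_lit 197) (.e (nat_lit 532569) (nat_lit 16) (.e (nat_lit 401448) (nat_lit 10) (.e (nat_lit 434244) (nat_lit 28) .nil)))) (.g (nat_lit 0) (.e (nat_lit 76549) (nat_lit 0) .nil) .nil)))) (.nd (nat_lit 9) 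
(.lf (nat_lit 466176) (.g (nat_lit 2041) (.e (nat_lit 3249) (nat_lit 197) (.e (nat_lit 532504) (nat_lit 1) (.e (nat_lit 57852) (nat_lit 252) (.e (nat_lit 57376) (nat_lit 3) .nil)))) (.g (nat_lit 0) (.e (nat_lit 75956) (nat_lit 0) .nil) .nil))) 
(.lf (nat_lit 466688) (.g (nat_lit 2810) (.e (nat_lit 3252) (nat_lit 197) (.e (nat_lit 532535) (nat_lit 9) (.e (nat_lit 336099) (nat_lit 9) (.e (nat_lit 336028) (nat_lit 3) .nil)))) (.g (nat_lit 0) (.e (nat_lit 76999) (nat_lit 0) .nil) .nil))))) (.nd (nat_lit 8) (.nd (nat_lit 9) 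
(.lf (nat_lit 466048) (.g (nat_lit 1675) (.e (nat_lit 3248) (nat_lit 197) (.e (nat_lit 532515) (nat_lit 3) (.e (nat_lit 114716) (nat_lit 22) (.e (nat_lit 90169) (nat_lit 13) (.e (nat_lit 172132) (nat_lit 15) .nil))))) (.g (nat_lit 0) (.e (nat_lit 75784) (nat_lit 0) .nil) .nil))) 
(.lf (nat_lit 466560) (.g (nat_lit 3967) (.e (nat_lit 3251) (nat_lit 197) (.e (nat_lit 532550) (nat_lit 12) (.e (nat_lit 360474) (nat_lit 8) (.e (nat_lit 557072) (nat_lit 9) .nil)))) (.g (nat_lit 0) (.e (nat_lit 76796) (nat_lit 0) .nil) .nil)))) (.nd (nat_lit 9) 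
(.lf (nat_lit 466304) (.g (nat_lit 2554) (.e (nat_lit 3249) (nat_lit 197) (.e (nat_lit 532549) (nat_lit 12) (.e (nat_lit 360473) (nat_lit 8) (.e (nat_lit 557093) (nat_lit 12) (.e (nat_lit 164022) (nat_lit 46) (.e (nat_lit 704738) (nat_lit 11) (.e (nat_lit 16401) (nat_lit 0) .nil))))))) (.g (nat_lit 1) (.e (nat_lit 76305) (nat_lit 0) .nil) .nil))) 
(.lf (nat_lit 466816) (.g (nat_lit 3332) (.e (nat_lit 3252) (nat_lit 197) (.e (nat_lit 532560) (nat_lit 14) (.e (nat_lit 376869) (nat_lit 23) (.e (nat_lit 98349) (nat_lit 24) (.e (nat_lit 409644) (nat_lit 18) (.e (nat_lit 303112) (nat_lit 0) .nil)))))) (.g (nat_lit 1) (.e (nat_lit 77150) (nat_lit 0) .nil) .nil)))))) (.nd (nat_lit 7) (.nd (nat_lit 8) (.nd (nat_lit 9) 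
(.lf (nat_lit 465984) (.g (nat_lit 3059) (.e (nat_lit 3248) (nat_lit 197) (.e (nat_lit 532503) (nat_lit 1) (.e (nat_lit 57930) (nat_lit 282) (.e (nat_lit 163867) (nat_lit 2) (.e (nat_lit 196670) (nat_lit 14) (.e (nat_lit 73746) (nat_lit 3) (.e (nat_lit 516129) (nat_lit 3) (.e (nat_lit 221196) (nat_lit 20) .nil)))))))) (.g (nat_lit 1) (.e (nat_lit 75713) (nat_lit 0) .nil) .nil))) 
(.lf (nat_lit 466496) (.g (nat_lit 1630) (.e (nat_lit 3251) (nat_lit 197) (.e (nat_lit 532501) (nat_lit 1) (.e (nat_lit 57851) (nat_lit 252) (.e (nat_lit 57406) (nat_lit 12) (.e (nat_lit 336456) (nat_lit 34) (.e (nat_lit 483379) (nat_lit 23) (.e (nat_lit 336257) (nat_lit 15) .nil))))))) (.g (nat_lit 1) (.e (nat_lit 76682) (nat_lit 0) .nil) .nil)))) (.nd (nat_lit 9) 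
(.lf (nat_lit 466240) (.g (nat_lit 3431) (.e (nat_lit 3249) (nat_lit 197) (.e (nat_lit 532523) (nat_lit 7) (.e (nat_lit 319530) (nat_lit 16) (.e (nat_lit 286735) (nat_lit 3) (.e (nat_lit 98363) (nat_lit 26) (.e (nat_lit 426230) (nat_lit 9) (.e (nat_lit 426073) (nat_lit 0) .nil))))))) (.g (nat_lit 1) (.e (nat_lit 76117) (nat_lit 0) .nil) .nil))) 
(.lf (nat_lit 466752) (.g (nat_lit 5829) (.e (nat_lit 3252) (nat_lit 197) (.e (nat_lit 532550) (nat_lit 12) (.e (nat_lit 360474) (nat_lit 8) (.e (nat_lit 557093) (nat_lit 12) (.e (nat_lit 164022) (nat_lit 46) (.e (nat_lit 704737) (nat_lit 11) (.e (nat_lit 16396) (nat_lit 0) .nil))))))) (.g (nat_lit 1) (.e (nat_lit 77083) (nat_lit 0) .nil) .nil))))) (.nd (nat_lit 8) (.nd (nat_lit 9) 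
(.lf (nat_lit 466112) (.g (nat_lit 3523) (.e (nat_lit 3249) (nat_lit 197) (.e (nat_lit 532499) (nat_lit 1) (.e (nat_lit 57931) (nat_lit 282) (.e (nat_lit 163869) (nat_lit 2) (.e (nat_lit 196668) (nat_lit 14) (.e (nat_lit 73747) (nat_lit 3) (.e (nat_lit 516129) (nat_lit 3) (.e (nat_lit 221202) (nat_lit 20) .nil)))))))) (.g (nat_lit 1) (.e (nat_lit 75885) (nat_lit 0) .nil) .nil))) 
(.lf (nat_lit 466624) (.g (nat_lit 2962) (.e (nat_lit 3252) (nat_lit 197) (.e (nat_lit 532499) (nat_lit 1) (.e (nat_lit 57931) (nat_lit 282) (.e (nat_lit 163869) (nat_lit 2) (.e (nat_lit 196670) (nat_lit 14) (.e (nat_lit 73746) (nat_lit 3) (.e (nat_lit 516129) (nat_lit 3) (.e (nat_lit 221199) (nat_lit 20) .nil)))))))) (.g (nat_lit 1) (.e (nat_lit 76896) (nat_lit 0) .nil) .nil)))) (.nd (nat_lit 9) 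
(.lf (nat_lit 466368) (.g (nat_lit 2306) (.e (nat_lit 3249) (nat_lit 197) (.e (nat_lit 532550) (nat_lit 12) (.e (nat_lit 360475) (nat_lit 8) (.e (nat_lit 557089) (nat_lit 12) .nil)))) (.g (nat_lit 0) (.e (nat_lit 76401) (nat_lit 0) .nil) .nil))) 
(.lf (nat_lit 466880) (.g (nat_lit 2359) (.e (nat_lit 3253) (nat_lit 197) (.e (nat_lit 532499) (nat_lit 1) (.e (nat_lit 57927) (nat_lit 282) (.e (nat_lit 163866) (nat_lit 2) (.e (nat_lit 196664) (nat_lit 13) (.e (nat_lit 65571) (nat_lit 3) (.e (nat_lit 98341) (nat_lit 20) (.e (nat_lit 221204) (nat_lit 20) .nil)))))))) (.g (nat_lit 1) (.e (nat_lit 77255) (nat_lit 0) .nil) .nil))))))) 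
(.nd (nat_lit 6) (.nd (nat_lit 7) (.nd (nat_lit 8) (.nd (nat_lit 9) 
(.lf (nat_lit 465952) (.g (nat_lit 4267) (.e (nat_lit 3242) (nat_lit 197) (.e (nat_lit 532550) (nat_lit 12) (.e (nat_lit 360475) (nat_lit 8) (.e (nat_lit 557091) (nat_lit 12) (.e (nat_lit 164022) (nat_lit 46) (.e (nat_lit 704735) (nat_lit 11) (.e (nat_lit 16390) (nat_lit 0) .nil))))))) (.g (nat_lit 1) (.e (nat_lit 75676) (nat_lit 0) .nil) .nil))) 
(.lf (nat_lit 466464) (.g (nat_lit 2773) (.e (nat_lit 3250) (nat_lit 197) (.e (nat_lit 532501) (nat_lit 1) (.e (nat_lit 57851) (nat_lit 252) (.e (nat_lit 57406) (nat_lit 12) (.e (nat_lit 336456) (nat_lit 34) (.e (nat_lit 483383) (nat_lit 23) (.e (nat_lit 336258) (nat_lit 15) .nil))))))) (.g (nat_lit 1) (.e (nat_lit 76639) (nat_lit 0) .nil) .nil)))) (.nd (nat_lit 9) 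
(.lf (nat_lit 466208) (.g (nat_lit 1658) (.e (nat_lit 3249) (nat_lit 197) (.e (nat_lit 532511) (nat_lit 2) (.e (nat_lit 106536) (nat_lit 11) (.e (nat_lit 16412) (nat_lit 2) (.e (nat_lit 196674) (nat_lit 15) (.e (nat_lit 89856) (nat_lit 0) .nil)))))) (.g (nat_lit 1) (.e (nat_lit 75993) (nat_lit 0) .nil) .nil))) 
(.lf (nat_lit 466720) (.g (nat_lit 5121) (.e (nat_lit 3252) (nat_lit 197) (.e (nat_lit 532550) (nat_lit 12) (.e (nat_lit 360466) (nat_lit 3) (.e (nat_lit 516138) (nat_lit 7) (.e (nat_lit 409646) (nat_lit 18) (.e (nat_lit 303112) (nat_lit 0) .nil)))))) (.g (nat_lit 1) (.e (nat_lit 77043) (nat_lit 0) .nil) .nil))))) (.nd (nat_lit 8) (.nd (nat_lit 9) 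
(.lf (nat_lit 466080) (.g (nat_lit 3168) (.e (nat_lit 3249) (nat_lit 197) (.e (nat_lit 532486) (nat_lit 0) (.e (nat_lit 6113) (nat_lit 332) (.e (nat_lit 1374) (nat_lit 104) (.e (nat_lit 303119) (nat_lit 3) (.e (nat_lit 204846) (nat_lit 24) (.e (nat_lit 319505) (nat_lit 10) (.e (nat_lit 5712) (nat_lit 312) (.e (nat_lit 2505) (nat_lit 157) .nil))))))))) (.g (nat_lit 1) (.e (nat_lit 75843) (nat_lit 0) .nil) .nil))) 
(.lf (nat_lit 466592) (.g (nat_lit 2354) (.e (nat_lit 3252) (nat_lit 197) (.e (nat_lit 532499) (nat_lit 1) (.e (nat_lit 57854) (nat_lit 252) (.e (nat_lit 57406) (nat_lit 12) (.e (nat_lit 336454) (nat_lit 34) (.e (nat_lit 483385) (nat_lit 23) (.e (nat_lit 336260) (nat_lit 15) .nil))))))) (.g (nat_lit 1) (.e (nat_lit 76830) (nat_lit 0) .nil) .nil)))) (.nd (nat_lit 9) 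
(.lf (nat_lit 466336) (.g (nat_lit 4114) (.e (nat_lit 3249) (nat_lit 197) (.e (nat_lit 532550) (nat_lit 12) (.e (nat_lit 360474) (nat_lit 8) (.e (nat_lit 557093) (nat_lit 12) (.e (nat_lit 164023) (nat_lit 46) (.e (nat_lit 704737) (nat_lit 11) (.e (nat_lit 16401) (nat_lit 0) .nil))))))) (.g (nat_lit 1) (.e (nat_lit 76369) (nat_lit 0) .nil) .nil))) 
(.lf (nat_lit 466848) (.g (nat_lit 3015) (.e (nat_lit 3253) (nat_lit 197) (.e (nat_lit 532499) (nat_lit 1) (.e (nat_lit 57926) (nat_lit 282) (.e (nat_lit 163868) (nat_lit 2) (.e (nat_lit 196663) (nat_lit 13) (.e (nat_lit 65571) (nat_lit 3) (.e (nat_lit 98342) (nat_lit 20) (.e (nat_lit 221204) (nat_lit 20) .nil)))))))) (.g (nat_lit 1) (.e (nat_lit 77215) (nat_lit 0) .nil) .nil)))))) 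
(.nd (nat_lit 7) (.nd (nat_lit 8) (.nd (nat_lit 9) 
(.lf (nat_lit 466016) (.g (nat_lit 3732) (.e (nat_lit 3248) (nat_lit 197) (.e (nat_lit 532504) (nat_lit 1) (.e (nat_lit 57851) (nat_lit 252) (.e (nat_lit 57406) (nat_lit 12) (.e (nat_lit 336456) (nat_lit 34) (.e (nat_lit 483383) (nat_lit 23) (.e (nat_lit 336240) (nat_lit 15) .nil))))))) (.g (nat_lit 1) (.e (nat_lit 75749) (nat_lit 0) .nil) .nil))) 
(.lf (nat_lit 466528) (.g (nat_lit 1493) (.e (nat_lit 3251) (nat_lit 197) (.e (nat_lit 532510) (nat_lit 2) (.e (nat_lit 106534) (nat_lit 11) (.e (nat_lit 16412) (nat_lit 2) (.e (nat_lit 196672) (nat_lit 15) (.e (nat_lit 81924) (nat_lit 0) .nil)))))) (.g (nat_lit 1) (.e (nat_lit 76728) (nat_lit 0) .nil) .nil)))) (.nd (nat_lit 9) 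
(.lf (nat_lit 466272) (.g (nat_lit 2642) (.e (nat_lit 3249) (nat_lit 197) (.e (nat_lit 532523) (nat_lit 7) (.e (nat_lit 319534) (nat_lit 16) (.e (nat_lit 286734) (nat_lit 3) (.e (nat_lit 98380) (nat_lit 31) .nil))))) (.g (nat_lit 0) (.e (nat_lit 76149) (nat_lit 0) .nil) .nil))) 
(.lf (nat_lit 466784) (.g (nat_lit 3943) (.e (nat_lit 3252) (nat_lit 197) (.e (nat_lit 532550) (nat_lit 12) (.e (nat_lit 360475) (nat_lit 8) (.e (nat_lit 557091) (nat_lit 12) (.e (nat_lit 164022) (nat_lit 46) (.e (nat_lit 704736) (nat_lit 11) (.e (nat_lit 16400) (nat_lit 0) .nil))))))) (.g (nat_lit 1) (.e (nat_lit 77116) (nat_lit 0) .nil) .nil))))) (.nd (nat_lit 8) (.nd (nat_lit 9) 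
(.lf (nat_lit 466144) (.g (nat_lit 2910) (.e (nat_lit 3249) (nat_lit 197) (.e (nat_lit 532503) (nat_lit 1) (.e (nat_lit 57931) (nat_lit 282) (.e (nat_lit 163866) (nat_lit 2) (.e (nat_lit 196668) (nat_lit 14) (.e (nat_lit 73747) (nat_lit 3) (.e (nat_lit 516129) (nat_lit 3) (.e (nat_lit 221202) (nat_lit 20) .nil)))))))) (.g (nat_lit 1) (.e (nat_lit 75918) (nat_lit 0) .nil) .nil))) 
(.lf (nat_lit 466656) (.g (nat_lit 1338) (.e (nat_lit 3252) (nat_lit 197) (.e (nat_lit 532504) (nat_lit 1) (.e (nat_lit 57851) (nat_lit 252) (.e (nat_lit 57446) (nat_lit 19) .nil)))) (.g (nat_lit 0) (.e (nat_lit 76937) (nat_lit 0) .nil) .nil)))) (.nd (nat_lit 9) 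
(.lf (nat_lit 466400) (.g (nat_lit 1463) (.e (nat_lit 3249) (nat_lit 197) (.e (nat_lit 532563) (nat_lit 15) (.e (nat_lit 385066) (nat_lit 26) (.e (nat_lit 532564) (nat_lit 15) .nil)))) (.g (nat_lit 0) (.e (nat_lit 76472) (nat_lit 0) .nil) .nil))) 
(.lf (nat_lit 466912) (.g (nat_lit 4305) (.e (nat_lit 3253) (nat_lit 197) (.e (nat_lit 532499) (nat_lit 1) (.e (nat_lit 57927) (nat_lit 282) (.e (nat_lit 163869) (nat_lit 2) (.e (nat_lit 196666) (nat_lit 13) (.e (nat_lit 65569) (nat_lit 3) (.e (nat_lit 98341) (nat_lit 20) (.e (nat_lit 221204) (nat_lit 20) .nil)))))))) (.g (nat_lit 1) (.e (nat_lit 77291) (nat_lit 0) .nil) .nil)))))))) 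
(.nd (nat_lit 5) (.nd (nat_lit 6) (.nd (nat_lit 7) (.nd (nat_lit 8) (.nd (nat_lit 9) 
(.lf (nat_lit 465936) (.g (nat_lit 4735) (.e (nat_lit 3242) (nat_lit 197) (.e (nat_lit 532550) (nat_lit 12) (.e (nat_lit 360474) (nat_lit 8) (.e (nat_lit 557094) (nat_lit 12) (.e (nat_lit 164022) (nat_lit 46) (.e (nat_lit 704736) (nat_lit 11) (.e (nat_lit 16385) (nat_lit 0) .nil))))))) (.g (nat_lit 1) (.e (nat_lit 75659) (nat_lit 0) .nil) .nil))) 
(.lf (nat_lit 466448) (.g (nat_lit 2127) (.e (nat_lit 3250) (nat_lit 197) (.e (nat_lit 532499) (nat_lit 1) (.e (nat_lit 57926) (nat_lit 282) (.e (nat_lit 163869) (nat_lit 2) (.e (nat_lit 196670) (nat_lit 14) (.e (nat_lit 73746) (nat_lit 3) (.e (nat_lit 516131) (nat_lit 3) (.e (nat_lit 221198) (nat_lit 20) .nil)))))))) (.g (nat_lit 1) (.e (nat_lit 76622) (nat_lit 0) .nil) .nil)))) (.nd (nat_lit 9) 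
(.lf (nat_lit 466192) (.g (nat_lit 2573) (.e (nat_lit 3249) (nat_lit 197) (.e (nat_lit 532507) (nat_lit 2) (.e (nat_lit 106536) (nat_lit 11) (.e (nat_lit 16416) (nat_lit 3) (.e (nat_lit 204876) (nat_lit 31) (.e (nat_lit 376833) (nat_lit 0) .nil)))))) (.g (nat_lit 1) (.e (nat_lit 75975) (nat_lit 0) .nil) .nil))) 
(.lf (nat_lit 466704) (.g (nat_lit 4301) (.e (nat_lit 3252) (nat_lit 197) (.e (nat_lit 532547) (nat_lit 11) (.e (nat_lit 352315) (nat_lit 23) (.e (nat_lit 98349) (nat_lit 24) (.e (nat_lit 409646) (nat_lit 18) (.e (nat_lit 303112) (nat_lit 0) .nil)))))) (.g (nat_lit 1) (.e (nat_lit 77019) (nat_lit 0) .nil) .nil))))) (.nd (nat_lit 8) (.nd (nat_lit 9) 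
(.lf (nat_lit 466064) (.g (nat_lit 2498) (.e (nat_lit 3248) (nat_lit 197) (.e (nat_lit 532515) (nat_lit 3) (.e (nat_lit 114719) (nat_lit 23) (.e (nat_lit 98384) (nat_lit 32) (.e (nat_lit 475179) (nat_lit 24) .nil))))) (.g (nat_lit 0) (.e (nat_lit 75811) (nat_lit 0) .nil) .nil))) 
(.lf (nat_lit 466576) (.g (nat_lit 1317) (.e (nat_lit 3251) (nat_lit 197) (.e (nat_lit 532560) (nat_lit 14) (.e (nat_lit 376869) (nat_lit 23) (.e (nat_lit 98350) (nat_lit 24) .nil)))) (.g (nat_lit 0) (.e (nat_lit 76812) (nat_lit 0) .nil) .nil)))) (.nd (nat_lit 9) 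
(.lf (nat_lit 466320) (.g (nat_lit 763) (.e (nat_lit 3249) (nat_lit 197) (.e (nat_lit 532550) (nat_lit 12) (.e (nat_lit 360473) (nat_lit 8) .nil))) (.g (nat_lit 0) (.e (nat_lit 76352) (nat_lit 0) .nil) .nil))) 
(.lf (nat_lit 466832) (.g (nat_lit 4321) (.e (nat_lit 3252) (nat_lit 197) (.e (nat_lit 532569) (nat_lit 16) (.e (nat_lit 401451) (nat_lit 12) (.e (nat_lit 475185) (nat_lit 29) (.e (nat_lit 557109) (nat_lit 15) .nil))))) (.g (nat_lit 0) (.e (nat_lit 77175) (nat_lit 0) .nil) .nil)))))) (.nd (nat_lit 7) (.nd (nat_lit 8) (.nd (nat_lit 9) 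
(.lf (nat_lit 466000) (.g (nat_lit 5021) (.e (nat_lit 3248) (nat_lit 197) (.e (nat_lit 532503) (nat_lit 1) (.e (nat_lit 57931) (nat_lit 282) (.e (nat_lit 163869) (nat_lit 2) (.e (nat_lit 196670) (nat_lit 14) (.e (nat_lit 73746) (nat_lit 3) (.e (nat_lit 516129) (nat_lit 3) (.e (nat_lit 221196) (nat_lit 20) .nil)))))))) (.g (nat_lit 1) (.e (nat_lit 75731) (nat_lit 0) .nil) .nil))) 
(.lf (nat_lit 466512) (.g (nat_lit 3332) (.e (nat_lit 3251) (nat_lit 197) (.e (nat_lit 532504) (nat_lit 1) (.e (nat_lit 57851) (nat_lit 252) (.e (nat_lit 57406) (nat_lit 12) (.e (nat_lit 336367) (nat_lit 27) (.e (nat_lit 426542) (nat_lit 29) (.e (nat_lit 352267) (nat_lit 0) .nil))))))) (.g (nat_lit 1) (.e (nat_lit 76710) (nat_lit 0) .nil) .nil)))) (.nd (nat_lit 9) 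
(.lf (nat_lit 466256) (.g (nat_lit 2713) (.e (nat_lit 3249) (nat_lit 197) (.e (nat_lit 532523) (nat_lit 7) (.e (nat_lit 319531) (nat_lit 16) (.e (nat_lit 286735) (nat_lit 3) (.e (nat_lit 98371) (nat_lit 28) (.e (nat_lit 450304) (nat_lit 20) .nil)))))) (.g (nat_lit 1) (.e (nat_lit 76133) (nat_lit 0) .nil) .nil))) 
(.lf (nat_lit 466768) (.g (nat_lit 5536) (.e (nat_lit 3252) (nat_lit 197) (.e (nat_lit 532550) (nat_lit 12) (.e (nat_lit 360474) (nat_lit 8) (.e (nat_lit 557094) (nat_lit 12) (.e (nat_lit 164022) (nat_lit 46) (.e (nat_lit 704737) (nat_lit 11) (.e (nat_lit 16396) (nat_lit 0) .nil))))))) (.g (nat_lit 1) (.e (nat_lit 77099) (nat_lit 0) .nil) .nil))))) (.nd (nat_lit 8) (.nd (nat_lit 9) 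
(.lf (nat_lit 466128) (.g (nat_lit 683) (.e (nat_lit 3249) (nat_lit 197) (.e (nat_lit 532503) (nat_lit 1) (.e (nat_lit 57844) (nat_lit 252) .nil))) (.g (nat_lit 0) (.e (nat_lit 75901) (nat_lit 0) .nil) .nil))) 
(.lf (nat_lit 466640) (.g (nat_lit 2376) (.e (nat_lit 3252) (nat_lit 197) (.e (nat_lit 532501) (nat_lit 1) (.e (nat_lit 57927) (nat_lit 282) (.e (nat_lit 163869) (nat_lit 2) (.e (nat_lit 196670) (nat_lit 14) .nil))))) (.g (nat_lit 0) (.e (nat_lit 76915) (nat_lit 0) .nil) .nil)))) (.nd (nat_lit 9) 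
(.lf (nat_lit 466384) (.g (nat_lit 2419) (.e (nat_lit 3249) (nat_lit 197) (.e (nat_lit 532559) (nat_lit 14) (.e (nat_lit 376865) (nat_lit 22) (.e (nat_lit 90185) (nat_lit 17) (.e (nat_lit 237582) (nat_lit 1) (.e (nat_lit 164403) (nat_lit 256) (.e (nat_lit 65280) (nat_lit 61) .nil))))))) (.g (nat_lit 1) (.e (nat_lit 76445) (nat_lit 0) .nil) .nil))) 
(.lf (nat_lit 466896) (.g (nat_lit 3236) (.e (nat_lit 3253) (nat_lit 197) (.e (nat_lit 532499) (nat_lit 1) (.e (nat_lit 57927) (nat_lit 282) (.e (nat_lit 163868) (nat_lit 2) (.e (nat_lit 196664) (nat_lit 13) (.e (nat_lit 65571) (nat_lit 3) (.e (nat_lit 98342) (nat_lit 20) (.e (nat_lit 221204) (nat_lit 20) .nil)))))))) (.g (nat_lit 1) (.e (nat_lit 77274) (nat_lit 0) .nil) .nil))))))) 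
(.nd (nat_lit 6) (.nd (nat_lit 7) (.nd (nat_lit 8) (.nd (nat_lit 9) 
(.lf (nat_lit 465968) (.g (nat_lit 1586) (.e (nat_lit 3248) (nat_lit 197) (.e (nat_lit 532501) (nat_lit 1) (.e (nat_lit 57851) (nat_lit 252) (.e (nat_lit 57446) (nat_lit 19) (.e (nat_lit 393229) (nat_lit 9) (.e (nat_lit 336088) (nat_lit 9) (.e (nat_lit 336240) (nat_lit 15) .nil))))))) (.g (nat_lit 1) (.e (nat_lit 75692) (nat_lit 0) .nil) .nil))) 
(.lf (nat_lit 466480) (.g (nat_lit 4244) (.e (nat_lit 3250) (nat_lit 197) (.e (nat_lit 532550) (nat_lit 12) (.e (nat_lit 360474) (nat_lit 8) (.e (nat_lit 557093) (nat_lit 12) .nil)))) (.g (nat_lit 0) (.e (nat_lit 76664) (nat_lit 0) .nil) .nil)))) (.nd (nat_lit 9) 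
(.lf (nat_lit 466224) (.g (nat_lit 3902) (.e (nat_lit 3249) (nat_lit 197) (.e (nat_lit 532523) (nat_lit 7) (.e (nat_lit 319538) (nat_lit 19) (.e (nat_lit 311315) (nat_lit 3) (.e (nat_lit 204846) (nat_lit 24) (.e (nat_lit 319504) (nat_lit 10) (.e (nat_lit 5712) (nat_lit 312) (.e (nat_lit 2508) (nat_lit 157) .nil)))))))) (.g (nat_lit 1) (.e (nat_lit 76101) (nat_lit 0) .nil) .nil))) 
(.lf (nat_lit 466736) (.g (nat_lit 3942) (.e (nat_lit 3252) (nat_lit 197) (.e (nat_lit 532550) (nat_lit 12) (.e (nat_lit 360467) (nat_lit 3) (.e (nat_lit 516139) (nat_lit 7) (.e (nat_lit 417536) (nat_lit 18) (.e (nat_lit 303112) (nat_lit 0) .nil)))))) (.g (nat_lit 1) (.e (nat_lit 77062) (nat_lit 0) .nil) .nil))))) (.nd (nat_lit 8) (.nd (nat_lit 9) 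
(.lf (nat_lit 466096) (.g (nat_lit 2185) (.e (nat_lit 3249) (nat_lit 197) (.e (nat_lit 532499) (nat_lit 1) (.e (nat_lit 57927) (nat_lit 282) (.e (nat_lit 163868) (nat_lit 2) (.e (nat_lit 196670) (nat_lit 14) (.e (nat_lit 73746) (nat_lit 3) (.e (nat_lit 516129) (nat_lit 3) (.e (nat_lit 229120) (nat_lit 20) .nil)))))))) (.g (nat_lit 1) (.e (nat_lit 75863) (nat_lit 0) .nil) .nil))) 
(.lf (nat_lit 466608) (.g (nat_lit 4447) (.e (nat_lit 3252) (nat_lit 197) (.e (nat_lit 532499) (nat_lit 1) (.e (nat_lit 57927) (nat_lit 282) (.e (nat_lit 163869) (nat_lit 2) (.e (nat_lit 196670) (nat_lit 14) (.e (nat_lit 73746) (nat_lit 3) (.e (nat_lit 516129) (nat_lit 3) (.e (nat_lit 221195) (nat_lit 20) .nil)))))))) (.g (nat_lit 1) (.e (nat_lit 76865) (nat_lit 0) .nil) .nil)))) (.nd (nat_lit 9) 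
(.lf (nat_lit 466352) (.g (nat_lit 2739) (.e (nat_lit 3249) (nat_lit 197) (.e (nat_lit 532550) (nat_lit 12) (.e (nat_lit 360475) (nat_lit 8) (.e (nat_lit 557068) (nat_lit 9) (.e (nat_lit 7936) (nat_lit 22) .nil))))) (.g (nat_lit 0) (.e (nat_lit 76385) (nat_lit 0) .nil) .nil))) 
(.lf (nat_lit 466864) (.g (nat_lit 4065) (.e (nat_lit 3253) (nat_lit 197) (.e (nat_lit 532499) (nat_lit 1) (.e (nat_lit 57926) (nat_lit 282) (.e (nat_lit 163869) (nat_lit 2) (.e (nat_lit 196670) (nat_lit 14) (.e (nat_lit 73746) (nat_lit 3) (.e (nat_lit 516129) (nat_lit 3) (.e (nat_lit 221203) (nat_lit 20) .nil)))))))) (.g (nat_lit 1) (.e (nat_lit 77231) (nat_lit 0) .nil) .nil)))))) 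
(.nd (nat_lit 7) (.nd (nat_lit 8) (.nd (nat_lit 9) 
(.lf (nat_lit 466032) (.g (nat_lit 2014) (.e (nat_lit 3248) (nat_lit 197) (.e (nat_lit 532504) (nat_lit 1) (.e (nat_lit 57931) (nat_lit 282) (.e (nat_lit 163874) (nat_lit 3) .nil)))) (.g (nat_lit 0) (.e (nat_lit 75766) (nat_lit 0) .nil) .nil))) 
(.lf (nat_lit 466544) (.g (nat_lit 2490) (.e (nat_lit 3251) (nat_lit 197) (.e (nat_lit 532511) (nat_lit 2) (.e (nat_lit 106536) (nat_lit 11) (.e (nat_lit 16412) (nat_lit 2) (.e (nat_lit 196672) (nat_lit 15) (.e (nat_lit 81924) (nat_lit 0) .nil)))))) (.g (nat_lit 1) (.e (nat_lit 76744) (nat_lit 0) .nil) .nil)))) (.nd (nat_lit 9) 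
(.lf (nat_lit 466288) (.g (nat_lit 2470) (.e (nat_lit 3249) (nat_lit 197) (.e (nat_lit 532535) (nat_lit 9) (.e (nat_lit 336099) (nat_lit 9) (.e (nat_lit 336013) (nat_lit 2) .nil)))) (.g (nat_lit 0) (.e (nat_lit 76196) (nat_lit 0) .nil) .nil))) 
(.lf (nat_lit 466800) (.g (nat_lit 1369) (.e (nat_lit 3252) (nat_lit 197) (.e (nat_lit 532559) (nat_lit 14) (.e (nat_lit 376868) (nat_lit 23) (.e (nat_lit 98350) (nat_lit 24) (.e (nat_lit 417536) (nat_lit 18) .nil))))) (.g (nat_lit 0) (.e (nat_lit 77132) (nat_lit 0) .nil) .nil))))) (.nd (nat_lit 8) (.nd (nat_lit 9) 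
(.lf (nat_lit 466160) (.g (nat_lit 2747) (.e (nat_lit 3249) (nat_lit 197) (.e (nat_lit 532503) (nat_lit 1) (.e (nat_lit 57931) (nat_lit 282) (.e (nat_lit 163874) (nat_lit 3) (.e (nat_lit 204863) (nat_lit 27) (.e (nat_lit 344117) (nat_lit 21) (.e (nat_lit 516129) (nat_lit 3) (.e (nat_lit 221202) (nat_lit 20) .nil)))))))) (.g (nat_lit 1) (.e (nat_lit 75940) (nat_lit 0) .nil) .nil))) 
(.lf (nat_lit 466672) (.g (nat_lit 2866) (.e (nat_lit 3252) (nat_lit 197) (.e (nat_lit 532530) (nat_lit 9) (.e (nat_lit 336129) (nat_lit 9) (.e (nat_lit 336027) (nat_lit 3) (.e (nat_lit 98350) (nat_lit 24) (.e (nat_lit 409646) (nat_lit 18) (.e (nat_lit 303112) (nat_lit 0) .nil))))))) (.g (nat_lit 1) (.e (nat_lit 76982) (nat_lit 0) .nil) .nil)))) (.nd (nat_lit 9) 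
(.lf (nat_lit 466416) (.g (nat_lit 192) (.e (nat_lit 3249) (nat_lit 197) (.e (nat_lit 532569) (nat_lit 16) (.e (nat_lit 401448) (nat_lit 10) .nil))) (.g (nat_lit 0) (.e (nat_lit 76519) (nat_lit 0) .nil) .nil))) 
(.lf (nat_lit 466928) (.g (nat_lit 2723) (.e (nat_lit 3253) (nat_lit 197) (.e (nat_lit 532499) (nat_lit 1) (.e (nat_lit 57927) (nat_lit 282) (.e (nat_lit 163870) (nat_lit 2) (.e (nat_lit 196670) (nat_lit 14) (.e (nat_lit 73746) (nat_lit 3) (.e (nat_lit 516129) (nat_lit 3) (.e (nat_lit 221204) (nat_lit 20) .nil)))))))) (.g (nat_lit 1) (.e (nat_lit 77316) (nat_lit 0) .nil) .nil))))))))) 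
(.nd (nat_lit 4) (.nd (nat_lit 5) (.nd (nat_lit 6) (.nd (nat_lit 7) (.nd (nat_lit 8) 
(.nd (nat_lit 9) 
(.lf (nat_lit 465928) (.g (nat_lit 4662) (.e (nat_lit 3242) (nat_lit 197) (.e (nat_lit 532550) (nat_lit 12) (.e (nat_lit 360474) (nat_lit 8) (.e (nat_lit 557093) (nat_lit 12) (.e (nat_lit 164023) (nat_lit 46) (.e (nat_lit 704737) (nat_lit 11) (.e (nat_lit 16385) (nat_lit 0) .nil))))))) (.g (nat_lit 1) (.e (nat_lit 75651) (nat_lit 0) .nil) .nil))) 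
(.lf (nat_lit 466440) (.g (nat_lit 642) (.e (nat_lit 3249) (nat_lit 197) (.e (nat_lit 532569) (nat_lit 16) (.e (nat_lit 401450) (nat_lit 12) .nil))) (.g (nat_lit 0) (.e (nat_lit 76560) (nat_lit 0) .nil) .nil)))) (.nd (nat_lit 9) 
(.lf (nat_lit 466184) (.g (nat_lit 3374) (.e (nat_lit 3249) (nat_lit 197) (.e (nat_lit 532504) (nat_lit 1) (.e (nat_lit 57854) (nat_lit 252) (.e (nat_lit 57406) (nat_lit 12) (.e (nat_lit 336454) (nat_lit 34) (.e (nat_lit 483385) (nat_lit 23) (.e (nat_lit 336284) (nat_lit 15) .nil))))))) (.g (nat_lit 1) (.e (nat_lit 75967) (nat_lit 0) .nil) .nil))) 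
(.lf (nat_lit 466696) (.g (nat_lit 2982) (.e (nat_lit 3252) (nat_lit 197) (.e (nat_lit 532535) (nat_lit 9) (.e (nat_lit 336173) (nat_lit 10) (.e (nat_lit 344119) (nat_lit 21) (.e (nat_lit 516139) (nat_lit 7) (.e (nat_lit 409646) (nat_lit 18) (.e (nat_lit 303112) (nat_lit 0) .nil))))))) (.g (nat_lit 1) (.e (nat_lit 77007) (nat_lit 0) .nil) .nil))))) (.nd (nat_lit 8) (.nd (nat_lit 9) 
(.lf (nat_lit 466056) (.g (nat_lit 1505) (.e (nat_lit 3248) (nat_lit 197) (.e (nat_lit 532515) (nat_lit 3) (.e (nat_lit 114716) (nat_lit 22) (.e (nat_lit 90173) (nat_lit 14) (.e (nat_lit 180244) (nat_lit 5) .nil))))) (.g (nat_lit 0) (.e (nat_lit 75792) (nat_lit 0) .nil) .nil))) 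
(.lf (nat_lit 466568) (.g (nat_lit 4925) (.e (nat_lit 3251) (nat_lit 197) (.e (nat_lit 532550) (nat_lit 12) (.e (nat_lit 360475) (nat_lit 8) (.e (nat_lit 557068) (nat_lit 9) .nil)))) (.g (nat_lit 0) (.e (nat_lit 76804) (nat_lit 0) .nil) .nil)))) (.nd (nat_lit 9) 
(.lf (nat_lit 466312) (.g (nat_lit 2149) (.e (nat_lit 3249) (nat_lit 197) (.e (nat_lit 532549) (nat_lit 12) (.e (nat_lit 360475) (nat_lit 8) (.e (nat_lit 557086) (nat_lit 11) .nil)))) (.g (nat_lit 0) (.e (nat_lit 76321) (nat_lit 0) .nil) .nil))) 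
(.lf (nat_lit 466824) (.g (nat_lit 2767) (.e (nat_lit 3252) (nat_lit 197) (.e (nat_lit 532561) (nat_lit 14) (.e (nat_lit 376869) (nat_lit 23) (.e (nat_lit 98350) (nat_lit 24) (.e (nat_lit 409646) (nat_lit 18) (.e (nat_lit 303112) (nat_lit 0) .nil)))))) (.g (nat_lit 1) (.e (nat_lit 77164) (nat_lit 0) .nil) .nil)))))) (.nd (nat_lit 7) (.nd (nat_lit 8) (.nd (nat_lit 9) 
(.lf (nat_lit 465992) (.g (nat_lit 2203) (.e (nat_lit 3248) (nat_lit 197) (.e (nat_lit 532503) (nat_lit 1) (.e (nat_lit 57931) (nat_lit 282) (.e (nat_lit 163866) (nat_lit 2) (.e (nat_lit 196670) (nat_lit 14) (.e (nat_lit 73746) (nat_lit 3) (.e (nat_lit 516131) (nat_lit 3) (.e (nat_lit 221198) (nat_lit 20) .nil)))))))) (.g (nat_lit 1) (.e (nat_lit 75721) (nat_lit 0) .nil) .nil))) 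
(.lf (nat_lit 466504) (.g (nat_lit 3011) (.e (nat_lit 3251) (nat_lit 197) (.e (nat_lit 532503) (nat_lit 1) (.e (nat_lit 57847) (nat_lit 252) (.e (nat_lit 57407) (nat_lit 12) (.e (nat_lit 336454) (nat_lit 34) (.e (nat_lit 483385) (nat_lit 23) (.e (nat_lit 336260) (nat_lit 15) .nil))))))) (.g (nat_lit 1) (.e (nat_lit 76700) (nat_lit 0) .nil) .nil)))) (.nd (nat_lit 9) 
(.lf (nat_lit 466248) (.g (nat_lit 1371) (.e (nat_lit 3249) (nat_lit 197) (.e (nat_lit 532523) (nat_lit 7) (.e (nat_lit 319531) (nat_lit 16) (.e (nat_lit 286734) (nat_lit 3) .nil)))) (.g (nat_lit 0) (.e (nat_lit 76125) (nat_lit 0) .nil) .nil))) 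
(.lf (nat_lit 466760) (.g (nat_lit 5730) (.e (nat_lit 3252) (nat_lit 197) (.e (nat_lit 532550) (nat_lit 12) (.e (nat_lit 360474) (nat_lit 8) (.e (nat_lit 557093) (nat_lit 12) (.e (nat_lit 164023) (nat_lit 46) (.e (nat_lit 704737) (nat_lit 11) (.e (nat_lit 16396) (nat_lit 0) .nil))))))) (.g (nat_lit 1) (.e (nat_lit 77091) (nat_lit 0) .nil) .nil))))) (.nd (nat_lit 8) (.nd (nat_lit 9) 
(.lf (nat_lit 466120) (.g (nat_lit 3658) (.e (nat_lit 3249) (nat_lit 197) (.e (nat_lit 532500) (nat_lit 1) (.e (nat_lit 57851) (nat_lit 252) (.e (nat_lit 57406) (nat_lit 12) (.e (nat_lit 336456) (nat_lit 34) (.e (nat_lit 483387) (nat_lit 23) (.e (nat_lit 336280) (nat_lit 15) .nil))))))) (.g (nat_lit 1) (.e (nat_lit 75893) (nat_lit 0) .nil) .nil))) 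
(.lf (nat_lit 466632) (.g (nat_lit 1931) (.e (nat_lit 3252) (nat_lit 197) (.e (nat_lit 532501) (nat_lit 1) (.e (nat_lit 57851) (nat_lit 252) (.e (nat_lit 57406) (nat_lit 12) (.e (nat_lit 336456) (nat_lit 34) (.e (nat_lit 483383) (nat_lit 23) (.e (nat_lit 336257) (nat_lit 15) .nil))))))) (.g (nat_lit 1) (.e (nat_lit 76905) (nat_lit 0) .nil) .nil)))) (.nd (nat_lit 9) 
(.lf (nat_lit 466376) (.g (nat_lit 3202) (.e (nat_lit 3249) (nat_lit 197) (.e (nat_lit 532550) (nat_lit 12) (.e (nat_lit 360475) (nat_lit 8) (.e (nat_lit 557091) (nat_lit 12) (.e (nat_lit 163843) (nat_lit 0) (.e (nat_lit 6420) (nat_lit 341) (.e (nat_lit 163902) (nat_lit 12) (.e (nat_lit 425992) (nat_lit 0) .nil)))))))) (.g (nat_lit 1) (.e (nat_lit 76409) (nat_lit 0) .nil) .nil))) 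
(.lf (nat_lit 466888) (.g (nat_lit 2840) (.e (nat_lit 3253) (nat_lit 197) (.e (nat_lit 532499) (nat_lit 1) (.e (nat_lit 57927) (nat_lit 282) (.e (nat_lit 163867) (nat_lit 2) (.e (nat_lit 196668) (nat_lit 14) (.e (nat_lit 73747) (nat_lit 3) (.e (nat_lit 516129) (nat_lit 3) (.e (nat_lit 221204) (nat_lit 20) .nil)))))))) (.g (nat_lit 1) (.e (nat_lit 77266) (nat_lit 0) .nil) .nil))))))) 
(.nd (nat_lit 6) (.nd (nat_lit 7) (.nd (nat_lit 8) (.nd (nat_lit 9) 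
(.lf (nat_lit 465960) (.g (nat_lit 5404) (.e (nat_lit 3242) (nat_lit 197) (.e (nat_lit 532550) (nat_lit 12) (.e (nat_lit 360475) (nat_lit 8) (.e (nat_lit 557091) (nat_lit 12) (.e (nat_lit 164022) (nat_lit 46) (.e (nat_lit 704738) (nat_lit 11) (.e (nat_lit 16384) (nat_lit 0) .nil))))))) (.g (nat_lit 1) (.e (nat_lit 75684) (nat_lit 0) .nil) .nil))) 
(.lf (nat_lit 466472) (.g (nat_lit 2198) (.e (nat_lit 3250) (nat_lit 197) (.e (nat_lit 532504) (nat_lit 1) (.e (nat_lit 57851) (nat_lit 252) (.e (nat_lit 57446) (nat_lit 19) .nil)))) (.g (nat_lit 0) (.e (nat_lit 76648) (nat_lit 0) .nil) .nil)))) (.nd (nat_lit 9) 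
(.lf (nat_lit 466216) (.g (nat_lit 4462) (.e (nat_lit 3249) (nat_lit 197) (.e (nat_lit 532523) (nat_lit 7) (.e (nat_lit 319490) (nat_lit 0) (.e (nat_lit 5664) (nat_lit 312) (.e (nat_lit 2661) (nat_lit 167) (.e (nat_lit 196668) (nat_lit 14) (.e (nat_lit 73780) (nat_lit 32) (.e (nat_lit 2508) (nat_lit 157) .nil)))))))) (.g (nat_lit 1) (.e (nat_lit 76085) (nat_lit 0) .nil) .nil))) 
(.lf (nat_lit 466728) (.g (nat_lit 3614) (.e (nat_lit 3252) (nat_lit 197) (.e (nat_lit 532550) (nat_lit 12) (.e (nat_lit 360467) (nat_lit 3) (.e (nat_lit 516138) (nat_lit 7) (.e (nat_lit 417536) (nat_lit 18) .nil))))) (.g (nat_lit 0) (.e (nat_lit 77054) (nat_lit 0) .nil) .nil))))) (.nd (nat_lit 8) (.nd (nat_lit 9) 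
(.lf (nat_lit 466088) (.g (nat_lit 2854) (.e (nat_lit 3249) (nat_lit 197) (.e (nat_lit 532499) (nat_lit 1) (.e (nat_lit 57926) (nat_lit 282) (.e (nat_lit 163869) (nat_lit 2) (.e (nat_lit 196668) (nat_lit 14) (.e (nat_lit 73747) (nat_lit 3) (.e (nat_lit 516129) (nat_lit 3) (.e (nat_lit 221202) (nat_lit 20) .nil)))))))) (.g (nat_lit 1) (.e (nat_lit 75852) (nat_lit 0) .nil) .nil))) 
(.lf (nat_lit 466600) (.g (nat_lit 2611) (.e (nat_lit 3252) (nat_lit 197) (.e (nat_lit 532499) (nat_lit 1) (.e (nat_lit 57927) (nat_lit 282) (.e (nat_lit 163866) (nat_lit 2) (.e (nat_lit 196670) (nat_lit 14) (.e (nat_lit 73746) (nat_lit 3) (.e (nat_lit 516129) (nat_lit 3) (.e (nat_lit 221195) (nat_lit 20) .nil)))))))) (.g (nat_lit 1) (.e (nat_lit 76843) (nat_lit 0) .nil) .nil)))) (.nd (nat_lit 9) 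
(.lf (nat_lit 466344) (.g (nat_lit 562) (.e (nat_lit 3249) (nat_lit 197) (.e (nat_lit 532550) (nat_lit 12) (.e (nat_lit 360475) (nat_lit 8) .nil))) (.g (nat_lit 0) (.e (nat_lit 76377) (nat_lit 0) .nil) .nil))) 
(.lf (nat_lit 466856) (.g (nat_lit 3481) (.e (nat_lit 3253) (nat_lit 197) (.e (nat_lit 532499) (nat_lit 1) (.e (nat_lit 57926) (nat_lit 282) (.e (nat_lit 163868) (nat_lit 2) (.e (nat_lit 196670) (nat_lit 14) (.e (nat_lit 73746) (nat_lit 3) (.e (nat_lit 516129) (nat_lit 3) (.e (nat_lit 221204) (nat_lit 20) .nil)))))))) (.g (nat_lit 1) (.e (nat_lit 77223) (nat_lit 0) .nil) .nil)))))) 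
(.nd (nat_lit 7) (.nd (nat_lit 8) (.nd (nat_lit 9) 
(.lf (nat_lit 466024) (.g (nat_lit 2466) (.e (nat_lit 3248) (nat_lit 197) (.e (nat_lit 532504) (nat_lit 1) (.e (nat_lit 57929) (nat_lit 282) (.e (nat_lit 163869) (nat_lit 2) (.e (nat_lit 196670) (nat_lit 14) .nil))))) (.g (nat_lit 0) (.e (nat_lit 75757) (nat_lit 0) .nil) .nil))) 
(.lf (nat_lit 466536) (.g (nat_lit 1630) (.e (nat_lit 3251) (nat_lit 197) (.e (nat_lit 532510) (nat_lit 2) (.e (nat_lit 106536) (nat_lit 11) (.e (nat_lit 16416) (nat_lit 3) (.e (nat_lit 204876) (nat_lit 31) (.e (nat_lit 376835) (nat_lit 0) .nil)))))) (.g (nat_lit 1) (.e (nat_lit 76736) (nat_lit 0) .nil) .nil)))) (.nd (nat_lit 9) 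
(.lf (nat_lit 466280) (.g (nat_lit 2537) (.e (nat_lit 3249) (nat_lit 197) (.e (nat_lit 532526) (nat_lit 8) (.e (nat_lit 327699) (nat_lit 8) (.e (nat_lit 303117) (nat_lit 2) (.e (nat_lit 196668) (nat_lit 14) .nil))))) (.g (nat_lit 0) (.e (nat_lit 76159) (nat_lit 0) .nil) .nil))) 
(.lf (nat_lit 466792) (.g (nat_lit 609) (.e (nat_lit 3252) (nat_lit 197) (.e (nat_lit 532558) (nat_lit 14) (.e (nat_lit 376867) (nat_lit 23) .nil))) (.g (nat_lit 0) (.e (nat_lit 77124) (nat_lit 0) .nil) .nil))))) (.nd (nat_lit 8) (.nd (nat_lit 9) 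
(.lf (nat_lit 466152) (.g (nat_lit 4554) (.e (nat_lit 3249) (nat_lit 197) (.e (nat_lit 532503) (nat_lit 1) (.e (nat_lit 57931) (nat_lit 282) (.e (nat_lit 163869) (nat_lit 2) (.e (nat_lit 196668) (nat_lit 14) (.e (nat_lit 73747) (nat_lit 3) (.e (nat_lit 516129) (nat_lit 3) (.e (nat_lit 221202) (nat_lit 20) .nil)))))))) (.g (nat_lit 1) (.e (nat_lit 75932) (nat_lit 0) .nil) .nil))) 
(.lf (nat_lit 466664) (.g (nat_lit 3912) (.e (nat_lit 3252) (nat_lit 197) (.e (nat_lit 532513) (nat_lit 3) (.e (nat_lit 114714) (nat_lit 22) (.e (nat_lit 90172) (nat_lit 14) (.e (nat_lit 180244) (nat_lit 5) (.e (nat_lit 532503) (nat_lit 1) (.e (nat_lit 57685) (nat_lit 156) (.e (nat_lit 163850) (nat_lit 0) .nil)))))))) (.g (nat_lit 1) (.e (nat_lit 76954) (nat_lit 0) .nil) .nil)))) (.nd (nat_lit 9) 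
(.lf (nat_lit 466408) (.g (nat_lit 2261) (.e (nat_lit 3249) (nat_lit 197) (.e (nat_lit 532569) (nat_lit 16) (.e (nat_lit 401434) (nat_lit 9) (.e (nat_lit 426125) (nat_lit 2) (.e (nat_lit 196661) (nat_lit 12) (.e (nat_lit 57749) (nat_lit 201) (.e (nat_lit 2936) (nat_lit 184) (.e (nat_lit 425995) (nat_lit 0) .nil)))))))) (.g (nat_lit 1) (.e (nat_lit 76483) (nat_lit 0) .nil) .nil))) 
(.lf (nat_lit 466920) (.g (nat_lit 3285) (.e (nat_lit 3253) (nat_lit 197) (.e (nat_lit 532499) (nat_lit 1) (.e (nat_lit 57927) (nat_lit 282) (.e (nat_lit 163869) (nat_lit 2) (.e (nat_lit 196668) (nat_lit 14) (.e (nat_lit 73747) (nat_lit 3) (.e (nat_lit 516130) (nat_lit 3) (.e (nat_lit 221204) (nat_lit 20) .nil)))))))) (.g (nat_lit 1) (.e (nat_lit 77302) (nat_lit 0) .nil) .nil)))))))) 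
(.nd (nat_lit 5) (.nd (nat_lit 6) (.nd (nat_lit 7) (.nd (nat_lit 8) (.nd (nat_lit 9) 
(.lf (nat_lit 465944) (.g (nat_lit 4666) (.e (nat_lit 3242) (nat_lit 197) (.e (nat_lit 532550) (nat_lit 12) (.e (nat_lit 360474) (nat_lit 8) (.e (nat_lit 557094) (nat_lit 12) (.e (nat_lit 164022) (nat_lit 46) (.e (nat_lit 704738) (nat_lit 11) (.e (nat_lit 16389) (nat_lit 0) .nil))))))) (.g (nat_lit 1) (.e (nat_lit 75667) (nat_lit 0) .nil) .nil))) 
(.lf (nat_lit 466456) (.g (nat_lit 2831) (.e (nat_lit 3250) (nat_lit 197) (.e (nat_lit 532499) (nat_lit 1) (.e (nat_lit 57927) (nat_lit 282) (.e (nat_lit 163869) (nat_lit 2) (.e (nat_lit 196668) (nat_lit 14) (.e (nat_lit 73747) (nat_lit 3) (.e (nat_lit 516131) (nat_lit 3) (.e (nat_lit 221197) (nat_lit 20) .nil)))))))) (.g (nat_lit 1) (.e (nat_lit 76630) (nat_lit 0) .nil) .nil)))) (.nd (nat_lit 9) 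
(.lf (nat_lit 466200) (.g (nat_lit 1087) (.e (nat_lit 3249) (nat_lit 197) (.e (nat_lit 532508) (nat_lit 2) (.e (nat_lit 106536) (nat_lit 11) (.e (nat_lit 16413) (nat_lit 2) .nil)))) (.g (nat_lit 0) (.e (nat_lit 75985) (nat_lit 0) .nil) .nil))) 
(.lf (nat_lit 466712) (.g (nat_lit 3910) (.e (nat_lit 3252) (nat_lit 197) (.e (nat_lit 532549) (nat_lit 12) (.e (nat_lit 360466) (nat_lit 3) (.e (nat_lit 516139) (nat_lit 7) (.e (nat_lit 409645) (nat_lit 18) (.e (nat_lit 303112) (nat_lit 0) .nil)))))) (.g (nat_lit 1) (.e (nat_lit 77027) (nat_lit 0) .nil) .nil))))) (.nd (nat_lit 8) (.nd (nat_lit 9) 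
(.lf (nat_lit 466072) (.g (nat_lit 4496) (.e (nat_lit 3248) (nat_lit 197) (.e (nat_lit 532550) (nat_lit 12) (.e (nat_lit 360474) (nat_lit 8) (.e (nat_lit 557094) (nat_lit 12) (.e (nat_lit 164022) (nat_lit 46) .nil))))) (.g (nat_lit 0) (.e (nat_lit 75827) (nat_lit 0) .nil) .nil))) 
(.lf (nat_lit 466584) (.g (nat_lit 2523) (.e (nat_lit 3252) (nat_lit 197) (.e (nat_lit 532499) (nat_lit 1) (.e (nat_lit 57847) (nat_lit 252) (.e (nat_lit 57411) (nat_lit 12) (.e (nat_lit 336454) (nat_lit 34) .nil))))) (.g (nat_lit 0) (.e (nat_lit 76821) (nat_lit 0) .nil) .nil)))) (.nd (nat_lit 9) 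
(.lf (nat_lit 466328) (.g (nat_lit 1723) (.e (nat_lit 3249) (nat_lit 197) (.e (nat_lit 532550) (nat_lit 12) (.e (nat_lit 360474) (nat_lit 8) (.e (nat_lit 557073) (nat_lit 9) (.e (nat_lit 7936) (nat_lit 22) .nil))))) (.g (nat_lit 0) (.e (nat_lit 76361) (nat_lit 0) .nil) .nil))) 
(.lf (nat_lit 466840) (.g (nat_lit 3066) (.e (nat_lit 3253) (nat_lit 197) (.e (nat_lit 532499) (nat_lit 1) (.e (nat_lit 57847) (nat_lit 252) (.e (nat_lit 57354) (nat_lit 0) (.e (nat_lit 1855) (nat_lit 124) (.e (nat_lit 557105) (nat_lit 14) (.e (nat_lit 180252) (nat_lit 10) (.e (nat_lit 573481) (nat_lit 13) (.e (nat_lit 65637) (nat_lit 15) .nil))))))))) (.g (nat_lit 1) (.e (nat_lit 77206) (nat_lit 0) .nil) .nil)))))) 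
(.nd (nat_lit 7) (.nd (nat_lit 8) (.nd (nat_lit 9) 
(.lf (nat_lit 466008) (.g (nat_lit 2457) (.e (nat_lit 3248) (nat_lit 197) (.e (nat_lit 532503) (nat_lit 1) (.e (nat_lit 57931) (nat_lit 282) (.e (nat_lit 163874) (nat_lit 3) (.e (nat_lit 204863) (nat_lit 27) (.e (nat_lit 344117) (nat_lit 21) (.e (nat_lit 516130) (nat_lit 3) (.e (nat_lit 221196) (nat_lit 20) .nil)))))))) (.g (nat_lit 1) (.e (nat_lit 75739) (nat_lit 0) .nil) .nil))) 
(.lf (nat_lit 466520) (.g (nat_lit 2978) (.e (nat_lit 3251) (nat_lit 197) (.e (nat_lit 532504) (nat_lit 1) (.e (nat_lit 57852) (nat_lit 252) (.e (nat_lit 57409) (nat_lit 12) (.e (nat_lit 336454) (nat_lit 34) (.e (nat_lit 483385) (nat_lit 23) (.e (nat_lit 336260) (nat_lit 15) .nil))))))) (.g (nat_lit 1) (.e (nat_lit 76718) (nat_lit 0) .nil) .nil)))) (.nd (nat_lit 9) 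
(.lf (nat_lit 466264) (.g (nat_lit 3282) (.e (nat_lit 3249) (nat_lit 197) (.e (nat_lit 532523) (nat_lit 7) (.e (nat_lit 319533) (nat_lit 16) (.e (nat_lit 286734) (nat_lit 3) (.e (nat_lit 98370) (nat_lit 28) (.e (nat_lit 450304) (nat_lit 20) .nil)))))) (.g (nat_lit 1) (.e (nat_lit 76141) (nat_lit 0) .nil) .nil))) 
(.lf (nat_lit 466776) (.g (nat_lit 5172) (.e (nat_lit 3252) (nat_lit 197) (.e (nat_lit 532550) (nat_lit 12) (.e (nat_lit 360475) (nat_lit 8) (.e (nat_lit 557086) (nat_lit 11) (.e (nat_lit 24665) (nat_lit 14) (.e (nat_lit 401415) (nat_lit 0) .nil)))))) (.g (nat_lit 1) (.e (nat_lit 77108) (nat_lit 0) .nil) .nil))))) (.nd (nat_lit 8) (.nd (nat_lit 9) 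
(.lf (nat_lit 466136) (.g (nat_lit 3138) (.e (nat_lit 3249) (nat_lit 197) (.e (nat_lit 532503) (nat_lit 1) (.e (nat_lit 57848) (nat_lit 252) (.e (nat_lit 57407) (nat_lit 12) (.e (nat_lit 336456) (nat_lit 34) (.e (nat_lit 483387) (nat_lit 23) (.e (nat_lit 336280) (nat_lit 15) .nil))))))) (.g (nat_lit 1) (.e (nat_lit 75909) (nat_lit 0) .nil) .nil))) 
(.lf (nat_lit 466648) (.g (nat_lit 2038) (.e (nat_lit 3252) (nat_lit 197) (.e (nat_lit 532504) (nat_lit 1) (.e (nat_lit 57851) (nat_lit 252) (.e (nat_lit 57406) (nat_lit 12) (.e (nat_lit 336456) (nat_lit 34) (.e (nat_lit 483378) (nat_lit 23) (.e (nat_lit 336259) (nat_lit 15) .nil))))))) (.g (nat_lit 1) (.e (nat_lit 76928) (nat_lit 0) .nil) .nil)))) (.nd (nat_lit 9) 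
(.lf (nat_lit 466392) (.g (nat_lit 647) (.e (nat_lit 3249) (nat_lit 197) (.e (nat_lit 532563) (nat_lit 15) (.e (nat_lit 385066) (nat_lit 26) .nil))) (.g (nat_lit 0) (.e (nat_lit 76464) (nat_lit 0) .nil) .nil))) 
(.lf (nat_lit 466904) (.g (nat_lit 2969) (.e (nat_lit 3253) (nat_lit 197) (.e (nat_lit 532499) (nat_lit 1) (.e (nat_lit 57927) (nat_lit 282) (.e (nat_lit 163868) (nat_lit 2) (.e (nat_lit 196668) (nat_lit 14) (.e (nat_lit 73747) (nat_lit 3) (.e (nat_lit 516131) (nat_lit 3) (.e (nat_lit 221203) (nat_lit 20) .nil)))))))) (.g (nat_lit 1) (.e (nat_lit 77282) (nat_lit 0) .nil) .nil))))))) 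
(.nd (nat_lit 6) (.nd (nat_lit 7) (.nd (nat_lit 8) (.nd (nat_lit 9) 
(.lf (nat_lit 465976) (.g (nat_lit 861) (.e (nat_lit 3248) (nat_lit 197) (.e (nat_lit 532503) (nat_lit 1) (.e (nat_lit 57924) (nat_lit 282) .nil))) (.g (nat_lit 0) (.e (nat_lit 75703) (nat_lit 0) .nil) .nil))) 
(.lf (nat_lit 466488) (.g (nat_lit 4650) (.e (nat_lit 3250) (nat_lit 197) (.e (nat_lit 532550) (nat_lit 12) (.e (nat_lit 360475) (nat_lit 8) (.e (nat_lit 557089) (nat_lit 12) .nil)))) (.g (nat_lit 0) (.e (nat_lit 76673) (nat_lit 0) .nil) .nil)))) (.nd (nat_lit 9) 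
(.lf (nat_lit 466232) (.g (nat_lit 484) (.e (nat_lit 3249) (nat_lit 197) (.e (nat_lit 532523) (nat_lit 7) (.e (nat_lit 319530) (nat_lit 16) .nil))) (.g (nat_lit 0) (.e (nat_lit 76109) (nat_lit 0) .nil) .nil))) 
(.lf (nat_lit 466744) (.g (nat_lit 998) (.e (nat_lit 3252) (nat_lit 197) (.e (nat_lit 532550) (nat_lit 12) (.e (nat_lit 368384) (nat_lit 3) .nil))) (.g (nat_lit 0) (.e (nat_lit 77072) (nat_lit 0) .nil) .nil))))) (.nd (nat_lit 8) (.nd (nat_lit 9) 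
(.lf (nat_lit 466104) (.g (nat_lit 1922) (.e (nat_lit 3249) (nat_lit 197) (.e (nat_lit 532499) (nat_lit 1) (.e (nat_lit 57927) (nat_lit 282) (.e (nat_lit 163871) (nat_lit 2) (.e (nat_lit 196670) (nat_lit 14) .nil))))) (.g (nat_lit 0) (.e (nat_lit 75875) (nat_lit 0) .nil) .nil))) 
(.lf (nat_lit 466616) (.g (nat_lit 2387) (.e (nat_lit 3252) (nat_lit 197) (.e (nat_lit 532499) (nat_lit 1) (.e (nat_lit 57927) (nat_lit 282) (.e (nat_lit 163874) (nat_lit 3) (.e (nat_lit 204862) (nat_lit 27) .nil))))) (.g (nat_lit 0) (.e (nat_lit 76882) (nat_lit 0) .nil) .nil)))) (.nd (nat_lit 9) 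
(.lf (nat_lit 466360) (.g (nat_lit 2821) (.e (nat_lit 3249) (nat_lit 197) (.e (nat_lit 532550) (nat_lit 12) (.e (nat_lit 360475) (nat_lit 8) (.e (nat_lit 557087) (nat_lit 11) (.e (nat_lit 24581) (nat_lit 0) .nil))))) (.g (nat_lit 0) (.e (nat_lit 76393) (nat_lit 0) .nil) .nil))) 
(.lf (nat_lit 466872) (.g (nat_lit 2700) (.e (nat_lit 3253) (nat_lit 197) (.e (nat_lit 532499) (nat_lit 1) (.e (nat_lit 57926) (nat_lit 282) (.e (nat_lit 163874) (nat_lit 3) (.e (nat_lit 204854) (nat_lit 26) (.e (nat_lit 336019) (nat_lit 3) (.e (nat_lit 98341) (nat_lit 20) (.e (nat_lit 221204) (nat_lit 20) .nil)))))))) (.g (nat_lit 1) (.e (nat_lit 77244) (nat_lit 0) .nil) .nil)))))) 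
(.nd (nat_lit 7) (.nd (nat_lit 8) (.nd (nat_lit 9) 
(.lf (nat_lit 466040) (.g (nat_lit 2793) (.e (nat_lit 3248) (nat_lit 197) (.e (nat_lit 532513) (nat_lit 3) (.e (nat_lit 114714) (nat_lit 22) (.e (nat_lit 90172) (nat_lit 14) (.e (nat_lit 180244) (nat_lit 5) (.e (nat_lit 532503) (nat_lit 1) (.e (nat_lit 57685) (nat_lit 156) (.e (nat_lit 163843) (nat_lit 0) .nil)))))))) (.g (nat_lit 1) (.e (nat_lit 75774) (nat_lit 0) .nil) .nil))) 
(.lf (nat_lit 466552) (.g (nat_lit 5242) (.e (nat_lit 3251) (nat_lit 197) (.e (nat_lit 532535) (nat_lit 9) (.e (nat_lit 336099) (nat_lit 9) (.e (nat_lit 336013) (nat_lit 2) (.e (nat_lit 90121) (nat_lit 9) .nil))))) (.g (nat_lit 0) (.e (nat_lit 76787) (nat_lit 0) .nil) .nil)))) (.nd (nat_lit 9) 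
(.lf (nat_lit 466296) (.g (nat_lit 2446) (.e (nat_lit 3249) (nat_lit 197) (.e (nat_lit 532542) (nat_lit 9) (.e (nat_lit 336194) (nat_lit 12) (.e (nat_lit 385066) (nat_lit 26) (.e (nat_lit 532515) (nat_lit 3) (.e (nat_lit 114696) (nat_lit 11) (.e (nat_lit 426071) (nat_lit 0) .nil))))))) (.g (nat_lit 1) (.e (nat_lit 76217) (nat_lit 0) .nil) .nil))) 
(.lf (nat_lit 466808) (.g (nat_lit 1899) (.e (nat_lit 3252) (nat_lit 197) (.e (nat_lit 532560) (nat_lit 14) (.e (nat_lit 376867) (nat_lit 23) (.e (nat_lit 98350) (nat_lit 24) (.e (nat_lit 409646) (nat_lit 18) (.e (nat_lit 303112) (nat_lit 0) .nil)))))) (.g (nat_lit 1) (.e (nat_lit 77142) (nat_lit 0) .nil) .nil))))) (.nd (nat_lit 8) (.nd (nat_lit 9) 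
(.lf (nat_lit 466168) (.g (nat_lit 1706) (.e (nat_lit 3249) (nat_lit 197) (.e (nat_lit 532504) (nat_lit 1) (.e (nat_lit 57851) (nat_lit 252) (.e (nat_lit 57406) (nat_lit 12) (.e (nat_lit 336456) (nat_lit 34) (.e (nat_lit 483379) (nat_lit 23) (.e (nat_lit 336281) (nat_lit 15) .nil))))))) (.g (nat_lit 1) (.e (nat_lit 75948) (nat_lit 0) .nil) .nil))) 
(.lf (nat_lit 466680) (.g (nat_lit 5447) (.e (nat_lit 3252) (nat_lit 197) (.e (nat_lit 532535) (nat_lit 9) (.e (nat_lit 336099) (nat_lit 9) (.e (nat_lit 336013) (nat_lit 2) (.e (nat_lit 90138) (nat_lit 9) .nil))))) (.g (nat_lit 0) (.e (nat_lit 76991) (nat_lit 0) .nil) .nil)))) (.nd (nat_lit 9) 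
(.lf (nat_lit 466424) (.g (nat_lit 2331) (.e (nat_lit 3249) (nat_lit 197) (.e (nat_lit 532569) (nat_lit 16) (.e (nat_lit 401448) (nat_lit 10) (.e (nat_lit 434232) (nat_lit 23) (.e (nat_lit 532488) (nat_lit 0) (.e (nat_lit 6684) (nat_lit 357) (.e (nat_lit 2936) (nat_lit 184) (.e (nat_lit 425984) (nat_lit 0) .nil)))))))) (.g (nat_lit 1) (.e (nat_lit 76537) (nat_lit 0) .nil) .nil))) 
(.lf (nat_lit 466936) (.g (nat_lit 3111) (.e (nat_lit 3253) (nat_lit 197) (.e (nat_lit 532499) (nat_lit 1) (.e (nat_lit 57927) (nat_lit 282) (.e (nat_lit 163873) (nat_lit 3) (.e (nat_lit 204851) (nat_lit 26) (.e (nat_lit 336019) (nat_lit 3) (.e (nat_lit 98342) (nat_lit 20) (.e (nat_lit 221204) (nat_lit 20) .nil)))))))) (.g (nat_lit 1) (.e (nat_lit 77332) (nat_lit 0) .nil) .nil)))))))))) 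
(.nd (nat_lit 3) (.nd (nat_lit 4) (.nd (nat_lit 5) (.nd (nat_lit 6) (.nd (nat_lit 7) 
(.nd (nat_lit 8) (.nd (nat_lit 9) 
(.lf (nat_lit 465924) (.g (nat_lit 5682) (.e (nat_lit 3242) (nat_lit 197) (.e (nat_lit 532550) (nat_lit 12) (.e (nat_lit 360474) (nat_lit 8) (.e (nat_lit 557093) (nat_lit 12) (.e (nat_lit 164022) (nat_lit 46) (.e (nat_lit 704738) (nat_lit 11) (.e (nat_lit 16384) (nat_lit 0) .nil))))))) (.g (nat_lit 1) (.e (nat_lit 75647) (nat_lit 0) .nil) .nil))) 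
(.lf (nat_lit 466436) (.g (nat_lit 3497) (.e (nat_lit 3249) (nat_lit 197) (.e (nat_lit 532569) (nat_lit 16) (.e (nat_lit 401448) (nat_lit 10) (.e (nat_lit 434246) (nat_lit 28) (.e (nat_lit 573471) (nat_lit 11) (.e (nat_lit 16433) (nat_lit 9) (.e (nat_lit 425992) (nat_lit 0) .nil))))))) (.g (nat_lit 1) (.e (nat_lit 76554) (nat_lit 0) .nil) .nil)))) (.nd (nat_lit 9) 
(.lf (nat_lit 466180) (.g (nat_lit 3942) (.e (nat_lit 3249) (nat_lit 197) (.e (nat_lit 532504) (nat_lit 1) (.e (nat_lit 57852) (nat_lit 252) (.e (nat_lit 57406) (nat_lit 12) (.e (nat_lit 336454) (nat_lit 34) (.e (nat_lit 483385) (nat_lit 23) (.e (nat_lit 336284) (nat_lit 15) .nil))))))) (.g (nat_lit 1) (.e (nat_lit 75960) (nat_lit 0) .nil) .nil))) 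
(.lf (nat_lit 466692) (.g (nat_lit 2603) (.e (nat_lit 3252) (nat_lit 197) (.e (nat_lit 532535) (nat_lit 9) (.e (nat_lit 336173) (nat_lit 10) (.e (nat_lit 344117) (nat_lit 21) .nil)))) (.g (nat_lit 0) (.e (nat_lit 77003) (nat_lit 0) .nil) .nil))))) (.nd (nat_lit 8) (.nd (nat_lit 9) 
(.lf (nat_lit 466052) (.g (nat_lit 4343) (.e (nat_lit 3248) (nat_lit 197) (.e (nat_lit 532515) (nat_lit 3) (.e (nat_lit 114716) (nat_lit 22) (.e (nat_lit 90172) (nat_lit 14) (.e (nat_lit 180244) (nat_lit 5) (.e (nat_lit 532499) (nat_lit 1) (.e (nat_lit 57687) (nat_lit 156) (.e (nat_lit 163844) (nat_lit 0) .nil)))))))) (.g (nat_lit 1) (.e (nat_lit 75788) (nat_lit 0) .nil) .nil))) 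
(.lf (nat_lit 466564) (.g (nat_lit 4909) (.e (nat_lit 3251) (nat_lit 197) (.e (nat_lit 532550) (nat_lit 12) (.e (nat_lit 360474) (nat_lit 8) (.e (nat_lit 557093) (nat_lit 12) (.e (nat_lit 164023) (nat_lit 46) .nil))))) (.g (nat_lit 0) (.e (nat_lit 76800) (nat_lit 0) .nil) .nil)))) (.nd (nat_lit 9) 
(.lf (nat_lit 466308) (.g (nat_lit 1550) (.e (nat_lit 3249) (nat_lit 197) (.e (nat_lit 532549) (nat_lit 12) (.e (nat_lit 360474) (nat_lit 8) (.e (nat_lit 557093) (nat_lit 12) .nil)))) (.g (nat_lit 0) (.e (nat_lit 76311) (nat_lit 0) .nil) .nil))) 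
(.lf (nat_lit 466820) (.g (nat_lit 2584) (.e (nat_lit 3252) (nat_lit 197) (.e (nat_lit 532561) (nat_lit 14) (.e (nat_lit 376855) (nat_lit 20) (.e (nat_lit 1800) (nat_lit 119) (.e (nat_lit 516139) (nat_lit 7) (.e (nat_lit 409648) (nat_lit 18) (.e (nat_lit 303108) (nat_lit 0) .nil))))))) (.g (nat_lit 1) (.e (nat_lit 77154) (nat_lit 0) .nil) .nil)))))) 
(.nd (nat_lit 7) (.nd (nat_lit 8) (.nd (nat_lit 9) 
(.lf (nat_lit 465988) (.g (nat_lit 2764) (.e (nat_lit 3248) (nat_lit 197) (.e (nat_lit 532503) (nat_lit 1) (.e (nat_lit 57931) (nat_lit 282) (.e (nat_lit 163866) (nat_lit 2) (.e (nat_lit 196668) (nat_lit 14) (.e (nat_lit 73747) (nat_lit 3) (.e (nat_lit 516131) (nat_lit 3) (.e (nat_lit 221197) (nat_lit 20) .nil)))))))) (.g (nat_lit 1) (.e (nat_lit 75717) (nat_lit 0) .nil) .nil))) 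
(.lf (nat_lit 466500) (.g (nat_lit 1651) (.e (nat_lit 3251) (nat_lit 197) (.e (nat_lit 532501) (nat_lit 1) (.e (nat_lit 57851) (nat_lit 252) (.e (nat_lit 57406) (nat_lit 12) (.e (nat_lit 336456) (nat_lit 34) (.e (nat_lit 483387) (nat_lit 23) (.e (nat_lit 336294) (nat_lit 15) .nil))))))) (.g (nat_lit 1) (.e (nat_lit 76686) (nat_lit 0) .nil) .nil)))) (.nd (nat_lit 9) 
(.lf (nat_lit 466244) (.g (nat_lit 2675) (.e (nat_lit 3249) (nat_lit 197) (.e (nat_lit 532523) (nat_lit 7) (.e (nat_lit 319530) (nat_lit 16) (.e (nat_lit 286735) (nat_lit 3) (.e (nat_lit 98380) (nat_lit 31) .nil))))) (.g (nat_lit 0) (.e (nat_lit 76121) (nat_lit 0) .nil) .nil))) 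
(.lf (nat_lit 466756) (.g (nat_lit 6183) (.e (nat_lit 3252) (nat_lit 197) (.e (nat_lit 532550) (nat_lit 12) (.e (nat_lit 360474) (nat_lit 8) (.e (nat_lit 557093) (nat_lit 12) (.e (nat_lit 164022) (nat_lit 46) (.e (nat_lit 704738) (nat_lit 11) (.e (nat_lit 16396) (nat_lit 0) .nil))))))) (.g (nat_lit 1) (.e (nat_lit 77087) (nat_lit 0) .nil) .nil))))) (.nd (nat_lit 8) (.nd (nat_lit 9) 
(.lf (nat_lit 466116) (.g (nat_lit 2609) (.e (nat_lit 3249) (nat_lit 197) (.e (nat_lit 532500) (nat_lit 1) (.e (nat_lit 57851) (nat_lit 252) (.e (nat_lit 57354) (nat_lit 0) (.e (nat_lit 1855) (nat_lit 124) (.e (nat_lit 557105) (nat_lit 14) (.e (nat_lit 180252) (nat_lit 10) (.e (nat_lit 573480) (nat_lit 13) (.e (nat_lit 65636) (nat_lit 15) .nil))))))))) (.g (nat_lit 1) (.e (nat_lit 75889) (nat_lit 0) .nil) .nil))) 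
(.lf (nat_lit 466628) (.g (nat_lit 1897) (.e (nat_lit 3252) (nat_lit 197) (.e (nat_lit 532501) (nat_lit 1) (.e (nat_lit 57851) (nat_lit 252) (.e (nat_lit 57406) (nat_lit 12) (.e (nat_lit 336456) (nat_lit 34) (.e (nat_lit 483379) (nat_lit 23) (.e (nat_lit 336257) (nat_lit 15) .nil))))))) (.g (nat_lit 1) (.e (nat_lit 76901) (nat_lit 0) .nil) .nil)))) (.nd (nat_lit 9) 
(.lf (nat_lit 466372) (.g (nat_lit 3628) (.e (nat_lit 3249) (nat_lit 197) (.e (nat_lit 532550) (nat_lit 12) (.e (nat_lit 360475) (nat_lit 8) (.e (nat_lit 557089) (nat_lit 12) (.e (nat_lit 171776) (nat_lit 48) (.e (nat_lit 720907) (nat_lit 11) (.e (nat_lit 426073) (nat_lit 0) .nil))))))) (.g (nat_lit 1) (.e (nat_lit 76405) (nat_lit 0) .nil) .nil))) 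
(.lf (nat_lit 466884) (.g (nat_lit 2559) (.e (nat_lit 3253) (nat_lit 197) (.e (nat_lit 532499) (nat_lit 1) (.e (nat_lit 57927) (nat_lit 282) (.e (nat_lit 163866) (nat_lit 2) (.e (nat_lit 196668) (nat_lit 14) (.e (nat_lit 73747) (nat_lit 3) (.e (nat_lit 516131) (nat_lit 3) (.e (nat_lit 221204) (nat_lit 20) .nil)))))))) (.g (nat_lit 1) (.e (nat_lit 77262) (nat_lit 0) .nil) .nil))))))) 
(.nd (nat_lit 6) (.nd (nat_lit 7) (.nd (nat_lit 8) (.nd (nat_lit 9) 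
(.lf (nat_lit 465956) (.g (nat_lit 4963) (.e (nat_lit 3242) (nat_lit 197) (.e (nat_lit 532550) (nat_lit 12) (.e (nat_lit 360475) (nat_lit 8) (.e (nat_lit 557091) (nat_lit 12) (.e (nat_lit 164022) (nat_lit 46) (.e (nat_lit 704737) (nat_lit 11) (.e (nat_lit 16384) (nat_lit 0) .nil))))))) (.g (nat_lit 1) (.e (nat_lit 75680) (nat_lit 0) .nil) .nil))) 
(.lf (nat_lit 466468) (.g (nat_lit 2805) (.e (nat_lit 3250) (nat_lit 197) (.e (nat_lit 532503) (nat_lit 1) (.e (nat_lit 57931) (nat_lit 282) (.e (nat_lit 163873) (nat_lit 3) (.e (nat_lit 204853) (nat_lit 26) .nil))))) (.g (nat_lit 0) (.e (nat_lit 76643) (nat_lit 0) .nil) .nil)))) (.nd (nat_lit 9) 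
(.lf (nat_lit 466212) (.g (nat_lit 1527) (.e (nat_lit 3249) (nat_lit 197) (.e (nat_lit 532511) (nat_lit 2) (.e (nat_lit 106536) (nat_lit 11) (.e (nat_lit 16416) (nat_lit 3) (.e (nat_lit 204876) (nat_lit 31) (.e (nat_lit 376833) (nat_lit 0) .nil)))))) (.g (nat_lit 1) (.e (nat_lit 75997) (nat_lit 0) .nil) .nil))) 
(.lf (nat_lit 466724) (.g (nat_lit 5126) (.e (nat_lit 3252) (nat_lit 197) (.e (nat_lit 532550) (nat_lit 12) (.e (nat_lit 360466) (nat_lit 3) (.e (nat_lit 516139) (nat_lit 7) (.e (nat_lit 409646) (nat_lit 18) (.e (nat_lit 303112) (nat_lit 0) .nil)))))) (.g (nat_lit 1) (.e (nat_lit 77047) (nat_lit 0) .nil) .nil))))) (.nd (nat_lit 8) (.nd (nat_lit 9) 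
(.lf (nat_lit 466084) (.g (nat_lit 2511) (.e (nat_lit 3249) (nat_lit 197) (.e (nat_lit 532499) (nat_lit 1) (.e (nat_lit 57847) (nat_lit 252) (.e (nat_lit 57405) (nat_lit 12) .nil)))) (.g (nat_lit 0) (.e (nat_lit 75847) (nat_lit 0) .nil) .nil))) 
(.lf (nat_lit 466596) (.g (nat_lit 3298) (.e (nat_lit 3252) (nat_lit 197) (.e (nat_lit 532499) (nat_lit 1) (.e (nat_lit 57926) (nat_lit 282) (.e (nat_lit 163869) (nat_lit 2) (.e (nat_lit 196670) (nat_lit 14) (.e (nat_lit 73746) (nat_lit 3) (.e (nat_lit 516129) (nat_lit 3) (.e (nat_lit 221195) (nat_lit 20) .nil)))))))) (.g (nat_lit 1) (.e (nat_lit 76837) (nat_lit 0) .nil) .nil)))) (.nd (nat_lit 9) 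
(.lf (nat_lit 466340) (.g (nat_lit 2937) (.e (nat_lit 3249) (nat_lit 197) (.e (nat_lit 532550) (nat_lit 12) (.e (nat_lit 360474) (nat_lit 8) (.e (nat_lit 557093) (nat_lit 12) (.e (nat_lit 171776) (nat_lit 48) (.e (nat_lit 720907) (nat_lit 11) (.e (nat_lit 426073) (nat_lit 0) .nil))))))) (.g (nat_lit 1) (.e (nat_lit 76373) (nat_lit 0) .nil) .nil))) 
(.lf (nat_lit 466852) (.g (nat_lit 3846) (.e (nat_lit 3253) (nat_lit 197) (.e (nat_lit 532499) (nat_lit 1) (.e (nat_lit 57926) (nat_lit 282) (.e (nat_lit 163868) (nat_lit 2) (.e (nat_lit 196668) (nat_lit 14) (.e (nat_lit 73747) (nat_lit 3) (.e (nat_lit 516129) (nat_lit 3) (.e (nat_lit 221204) (nat_lit 20) .nil)))))))) (.g (nat_lit 1) (.e (nat_lit 77219) (nat_lit 0) .nil) .nil)))))) 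
(.nd (nat_lit 7) (.nd (nat_lit 8) (.nd (nat_lit 9) 
(.lf (nat_lit 466020) (.g (nat_lit 1075) (.e (nat_lit 3248) (nat_lit 197) (.e (nat_lit 532504) (nat_lit 1) (.e (nat_lit 57854) (nat_lit 252) .nil))) (.g (nat_lit 0) (.e (nat_lit 75753) (nat_lit 0) .nil) .nil))) 
(.lf (nat_lit 466532) (.g (nat_lit 2415) (.e (nat_lit 3251) (nat_lit 197) (.e (nat_lit 532510) (nat_lit 2) (.e (nat_lit 106536) (nat_lit 11) (.e (nat_lit 16412) (nat_lit 2) (.e (nat_lit 196672) (nat_lit 15) (.e (nat_lit 81924) (nat_lit 0) .nil)))))) (.g (nat_lit 1) (.e (nat_lit 76732) (nat_lit 0) .nil) .nil)))) (.nd (nat_lit 9) 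
(.lf (nat_lit 466276) (.g (nat_lit 3189) (.e (nat_lit 3249) (nat_lit 197) (.e (nat_lit 532523) (nat_lit 7) (.e (nat_lit 319534) (nat_lit 16) (.e (nat_lit 286735) (nat_lit 3) (.e (nat_lit 98371) (nat_lit 28) (.e (nat_lit 450304) (nat_lit 20) .nil)))))) (.g (nat_lit 1) (.e (nat_lit 76153) (nat_lit 0) .nil) .nil))) 
(.lf (nat_lit 466788) (.g (nat_lit 1600) (.e (nat_lit 3252) (nat_lit 197) (.e (nat_lit 532551) (nat_lit 12) (.e (nat_lit 360467) (nat_lit 3) (.e (nat_lit 516138) (nat_lit 7) (.e (nat_lit 417536) (nat_lit 18) .nil))))) (.g (nat_lit 0) (.e (nat_lit 77120) (nat_lit 0) .nil) .nil))))) (.nd (nat_lit 8) (.nd (nat_lit 9) 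
(.lf (nat_lit 466148) (.g (nat_lit 3960) (.e (nat_lit 3249) (nat_lit 197) (.e (nat_lit 532503) (nat_lit 1) (.e (nat_lit 57931) (nat_lit 282) (.e (nat_lit 163867) (nat_lit 2) (.e (nat_lit 196668) (nat_lit 14) (.e (nat_lit 73746) (nat_lit 3) (.e (nat_lit 516129) (nat_lit 3) (.e (nat_lit 221202) (nat_lit 20) .nil)))))))) (.g (nat_lit 1) (.e (nat_lit 75923) (nat_lit 0) .nil) .nil))) 
(.lf (nat_lit 466660) (.g (nat_lit 2895) (.e (nat_lit 3252) (nat_lit 197) (.e (nat_lit 532504) (nat_lit 1) (.e (nat_lit 57854) (nat_lit 252) (.e (nat_lit 57409) (nat_lit 12) (.e (nat_lit 336454) (nat_lit 34) (.e (nat_lit 483385) (nat_lit 23) (.e (nat_lit 336260) (nat_lit 15) .nil))))))) (.g (nat_lit 1) (.e (nat_lit 76943) (nat_lit 0) .nil) .nil)))) (.nd (nat_lit 9) 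
(.lf (nat_lit 466404) (.g (nat_lit 2608) (.e (nat_lit 3249) (nat_lit 197) (.e (nat_lit 532563) (nat_lit 15) (.e (nat_lit 385068) (nat_lit 26) (.e (nat_lit 532530) (nat_lit 9) (.e (nat_lit 336324) (nat_lit 18) (.e (nat_lit 204854) (nat_lit 26) (.e (nat_lit 336284) (nat_lit 15) .nil))))))) (.g (nat_lit 1) (.e (nat_lit 76476) (nat_lit 0) .nil) .nil))) 
(.lf (nat_lit 466916) (.g (nat_lit 4013) (.e (nat_lit 3253) (nat_lit 197) (.e (nat_lit 532499) (nat_lit 1) (.e (nat_lit 57927) (nat_lit 282) (.e (nat_lit 163869) (nat_lit 2) (.e (nat_lit 196668) (nat_lit 14) (.e (nat_lit 73746) (nat_lit 3) (.e (nat_lit 516129) (nat_lit 3) (.e (nat_lit 221204) (nat_lit 20) .nil)))))))) (.g (nat_lit 1) (.e (nat_lit 77298) (nat_lit 0) .nil) .nil)))))))) 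
(.nd (nat_lit 5) (.nd (nat_lit 6) (.nd (nat_lit 7) (.nd (nat_lit 8) (.nd (nat_lit 9) 
(.lf (nat_lit 465940) (.g (nat_lit 4723) (.e (nat_lit 3242) (nat_lit 197) (.e (nat_lit 532550) (nat_lit 12) (.e (nat_lit 360474) (nat_lit 8) (.e (nat_lit 557094) (nat_lit 12) (.e (nat_lit 164022) (nat_lit 46) (.e (nat_lit 704737) (nat_lit 11) (.e (nat_lit 16389) (nat_lit 0) .nil))))))) (.g (nat_lit 1) (.e (nat_lit 75663) (nat_lit 0) .nil) .nil))) 
(.lf (nat_lit 466452) (.g (nat_lit 2195) (.e (nat_lit 3250) (nat_lit 197) (.e (nat_lit 532499) (nat_lit 1) (.e (nat_lit 57927) (nat_lit 282) (.e (nat_lit 163868) (nat_lit 2) (.e (nat_lit 196670) (nat_lit 14) (.e (nat_lit 73746) (nat_lit 3) (.e (nat_lit 516129) (nat_lit 3) (.e (nat_lit 221197) (nat_lit 20) .nil)))))))) (.g (nat_lit 1) (.e (nat_lit 76626) (nat_lit 0) .nil) .nil)))) (.nd (nat_lit 9) 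
(.lf (nat_lit 466196) (.g (nat_lit 1421) (.e (nat_lit 3249) (nat_lit 197) (.e (nat_lit 532508) (nat_lit 2) (.e (nat_lit 106534) (nat_lit 11) (.e (nat_lit 16413) (nat_lit 2) (.e (nat_lit 196674) (nat_lit 15) (.e (nat_lit 89856) (nat_lit 0) .nil)))))) (.g (nat_lit 1) (.e (nat_lit 75981) (nat_lit 0) .nil) .nil))) 
(.lf (nat_lit 466708) (.g (nat_lit 1665) (.e (nat_lit 3252) (nat_lit 197) (.e (nat_lit 532549) (nat_lit 12) (.e (nat_lit 360466) (nat_lit 3) (.e (nat_lit 516138) (nat_lit 7) .nil)))) (.g (nat_lit 0) (.e (nat_lit 77023) (nat_lit 0) .nil) .nil))))) (.nd (nat_lit 8) (.nd (nat_lit 9) 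
(.lf (nat_lit 466068) (.g (nat_lit 1553) (.e (nat_lit 3248) (nat_lit 197) (.e (nat_lit 532534) (nat_lit 9) (.e (nat_lit 336211) (nat_lit 13) (.e (nat_lit 393225) (nat_lit 9) (.e (nat_lit 335986) (nat_lit 1) .nil))))) (.g (nat_lit 0) (.e (nat_lit 75816) (nat_lit 0) .nil) .nil))) 
(.lf (nat_lit 466580) (.g (nat_lit 2822) (.e (nat_lit 3252) (nat_lit 197) (.e (nat_lit 532499) (nat_lit 1) (.e (nat_lit 57847) (nat_lit 252) (.e (nat_lit 57407) (nat_lit 12) (.e (nat_lit 336454) (nat_lit 34) .nil))))) (.g (nat_lit 0) (.e (nat_lit 76817) (nat_lit 0) .nil) .nil)))) (.nd (nat_lit 9) 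
(.lf (nat_lit 466324) (.g (nat_lit 2643) (.e (nat_lit 3249) (nat_lit 197) (.e (nat_lit 532550) (nat_lit 12) (.e (nat_lit 360474) (nat_lit 8) (.e (nat_lit 557070) (nat_lit 9) (.e (nat_lit 296) (nat_lit 22) (.e (nat_lit 344067) (nat_lit 0) (.e (nat_lit 2505) (nat_lit 157) .nil))))))) (.g (nat_lit 1) (.e (nat_lit 76356) (nat_lit 0) .nil) .nil))) 
(.lf (nat_lit 466836) (.g (nat_lit 3412) (.e (nat_lit 3253) (nat_lit 197) (.e (nat_lit 532499) (nat_lit 1) (.e (nat_lit 57847) (nat_lit 252) (.e (nat_lit 57345) (nat_lit 0) (.e (nat_lit 1860) (nat_lit 124) (.e (nat_lit 557105) (nat_lit 14) (.e (nat_lit 180252) (nat_lit 10) (.e (nat_lit 573480) (nat_lit 13) (.e (nat_lit 65637) (nat_lit 15) .nil))))))))) (.g (nat_lit 1) (.e (nat_lit 77202) (nat_lit 0) .nil) .nil)))))) 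
(.nd (nat_lit 7) (.nd (nat_lit 8) (.nd (nat_lit 9) 
(.lf (nat_lit 466004) (.g (nat_lit 2380) (.e (nat_lit 3248) (nat_lit 197) (.e (nat_lit 532503) (nat_lit 1) (.e (nat_lit 57931) (nat_lit 282) (.e (nat_lit 163874) (nat_lit 3) (.e (nat_lit 204854) (nat_lit 26) (.e (nat_lit 336019) (nat_lit 3) (.e (nat_lit 98341) (nat_lit 20) (.e (nat_lit 221196) (nat_lit 20) .nil)))))))) (.g (nat_lit 1) (.e (nat_lit 75735) (nat_lit 0) .nil) .nil))) 
(.lf (nat_lit 466516) (.g (nat_lit 1680) (.e (nat_lit 3251) (nat_lit 197) (.e (nat_lit 532504) (nat_lit 1) (.e (nat_lit 57851) (nat_lit 252) (.e (nat_lit 57406) (nat_lit 12) (.e (nat_lit 336456) (nat_lit 34) (.e (nat_lit 483387) (nat_lit 23) (.e (nat_lit 336291) (nat_lit 15) .nil))))))) (.g (nat_lit 1) (.e (nat_lit 76714) (nat_lit 0) .nil) .nil)))) (.nd (nat_lit 9) 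
(.lf (nat_lit 466260) (.g (nat_lit 2259) (.e (nat_lit 3249) (nat_lit 197) (.e (nat_lit 532523) (nat_lit 7) (.e (nat_lit 319532) (nat_lit 16) (.e (nat_lit 286734) (nat_lit 3) (.e (nat_lit 98371) (nat_lit 28) .nil))))) (.g (nat_lit 0) (.e (nat_lit 76137) (nat_lit 0) .nil) .nil))) 
(.lf (nat_lit 466772) (.g (nat_lit 4743) (.e (nat_lit 3252) (nat_lit 197) (.e (nat_lit 532550) (nat_lit 12) (.e (nat_lit 360475) (nat_lit 8) (.e (nat_lit 557068) (nat_lit 9) .nil)))) (.g (nat_lit 0) (.e (nat_lit 77103) (nat_lit 0) .nil) .nil))))) (.nd (nat_lit 8) (.nd (nat_lit 9) 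
(.lf (nat_lit 466132) (.g (nat_lit 3062) (.e (nat_lit 3249) (nat_lit 197) (.e (nat_lit 532503) (nat_lit 1) (.e (nat_lit 57847) (nat_lit 252) (.e (nat_lit 57445) (nat_lit 19) (.e (nat_lit 393229) (nat_lit 9) (.e (nat_lit 336086) (nat_lit 9) (.e (nat_lit 336284) (nat_lit 15) .nil))))))) (.g (nat_lit 1) (.e (nat_lit 75905) (nat_lit 0) .nil) .nil))) 
(.lf (nat_lit 466644) (.g (nat_lit 2521) (.e (nat_lit 3252) (nat_lit 197) (.e (nat_lit 532503) (nat_lit 1) (.e (nat_lit 57931) (nat_lit 282) (.e (nat_lit 163869) (nat_lit 2) (.e (nat_lit 196670) (nat_lit 14) .nil))))) (.g (nat_lit 0) (.e (nat_lit 76923) (nat_lit 0) .nil) .nil)))) (.nd (nat_lit 9) 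
(.lf (nat_lit 466388) (.g (nat_lit 2981) (.e (nat_lit 3249) (nat_lit 197) (.e (nat_lit 532559) (nat_lit 14) (.e (nat_lit 376865) (nat_lit 22) (.e (nat_lit 90185) (nat_lit 17) (.e (nat_lit 237585) (nat_lit 1) (.e (nat_lit 164402) (nat_lit 256) (.e (nat_lit 57580) (nat_lit 61) .nil))))))) (.g (nat_lit 1) (.e (nat_lit 76449) (nat_lit 0) .nil) .nil))) 
(.lf (nat_lit 466900) (.g (nat_lit 3249) (.e (nat_lit 3253) (nat_lit 197) (.e (nat_lit 532499) (nat_lit 1) (.e (nat_lit 57927) (nat_lit 282) (.e (nat_lit 163868) (nat_lit 2) (.e (nat_lit 196668) (nat_lit 14) (.e (nat_lit 73746) (nat_lit 3) (.e (nat_lit 516131) (nat_lit 3) (.e (nat_lit 221204) (nat_lit 20) .nil)))))))) (.g (nat_lit 1) (.e (nat_lit 77278) (nat_lit 0) .nil) .nil))))))) 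
(.nd (nat_lit 6) (.nd (nat_lit 7) (.nd (nat_lit 8) (.nd (nat_lit 9) 
(.lf (nat_lit 465972) (.g (nat_lit 2090) (.e (nat_lit 3248) (nat_lit 197) (.e (nat_lit 532503) (nat_lit 1) (.e (nat_lit 57847) (nat_lit 252) (.e (nat_lit 57407) (nat_lit 12) (.e (nat_lit 336454) (nat_lit 34) .nil))))) (.g (nat_lit 0) (.e (nat_lit 75699) (nat_lit 0) .nil) .nil))) 
(.lf (nat_lit 466484) (.g (nat_lit 5259) (.e (nat_lit 3250) (nat_lit 197) (.e (nat_lit 532550) (nat_lit 12) (.e (nat_lit 360474) (nat_lit 8) (.e (nat_lit 557094) (nat_lit 12) (.e (nat_lit 164022) (nat_lit 46) (.e (nat_lit 704738) (nat_lit 11) (.e (nat_lit 16385) (nat_lit 0) .nil))))))) (.g (nat_lit 1) (.e (nat_lit 76668) (nat_lit 0) .nil) .nil)))) (.nd (nat_lit 9) 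
(.lf (nat_lit 466228) (.g (nat_lit 1150) (.e (nat_lit 3249) (nat_lit 197) (.e (nat_lit 532523) (nat_lit 7) (.e (nat_lit 319528) (nat_lit 16) (.e (nat_lit 286735) (nat_lit 3) .nil)))) (.g (nat_lit 0) (.e (nat_lit 76105) (nat_lit 0) .nil) .nil))) 
(.lf (nat_lit 466740) (.g (nat_lit 3062) (.e (nat_lit 3252) (nat_lit 197) (.e (nat_lit 532550) (nat_lit 12) (.e (nat_lit 360468) (nat_lit 3) (.e (nat_lit 516139) (nat_lit 7) (.e (nat_lit 409644) (nat_lit 18) .nil))))) (.g (nat_lit 0) (.e (nat_lit 77068) (nat_lit 0) .nil) .nil))))) (.nd (nat_lit 8) (.nd (nat_lit 9) 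
(.lf (nat_lit 466100) (.g (nat_lit 2858) (.e (nat_lit 3249) (nat_lit 197) (.e (nat_lit 532499) (nat_lit 1) (.e (nat_lit 57927) (nat_lit 282) (.e (nat_lit 163869) (nat_lit 2) (.e (nat_lit 196668) (nat_lit 14) (.e (nat_lit 73747) (nat_lit 3) (.e (nat_lit 516131) (nat_lit 3) (.e (nat_lit 221202) (nat_lit 20) .nil)))))))) (.g (nat_lit 1) (.e (nat_lit 75869) (nat_lit 0) .nil) .nil))) 
(.lf (nat_lit 466612) (.g (nat_lit 3343) (.e (nat_lit 3252) (nat_lit 197) (.e (nat_lit 532499) (nat_lit 1) (.e (nat_lit 57927) (nat_lit 282) (.e (nat_lit 163871) (nat_lit 2) (.e (nat_lit 196670) (nat_lit 14) (.e (nat_lit 73746) (nat_lit 3) (.e (nat_lit 516129) (nat_lit 3) (.e (nat_lit 221195) (nat_lit 20) .nil)))))))) (.g (nat_lit 1) (.e (nat_lit 76874) (nat_lit 0) .nil) .nil)))) (.nd (nat_lit 9) 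
(.lf (nat_lit 466356) (.g (nat_lit 3643) (.e (nat_lit 3249) (nat_lit 197) (.e (nat_lit 532550) (nat_lit 12) (.e (nat_lit 360475) (nat_lit 8) (.e (nat_lit 564992) (nat_lit 9) .nil)))) (.g (nat_lit 0) (.e (nat_lit 76389) (nat_lit 0) .nil) .nil))) 
(.lf (nat_lit 466868) (.g (nat_lit 2575) (.e (nat_lit 3253) (nat_lit 197) (.e (nat_lit 532499) (nat_lit 1) (.e (nat_lit 57926) (nat_lit 282) (.e (nat_lit 163871) (nat_lit 2) (.e (nat_lit 196670) (nat_lit 14) (.e (nat_lit 73746) (nat_lit 3) (.e (nat_lit 516129) (nat_lit 3) (.e (nat_lit 221203) (nat_lit 20) .nil)))))))) (.g (nat_lit 1) (.e (nat_lit 77239) (nat_lit 0) .nil) .nil)))))) 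
(.nd (nat_lit 7) (.nd (nat_lit 8) (.nd (nat_lit 9) 
(.lf (nat_lit 466036) (.g (nat_lit 1480) (.e (nat_lit 3248) (nat_lit 197) (.e (nat_lit 532510) (nat_lit 2) (.e (nat_lit 106536) (nat_lit 11) (.e (nat_lit 16413) (nat_lit 2) (.e (nat_lit 196674) (nat_lit 15) (.e (nat_lit 89856) (nat_lit 0) .nil)))))) (.g (nat_lit 1) (.e (nat_lit 75770) (nat_lit 0) .nil) .nil))) 
(.lf (nat_lit 466548) (.g (nat_lit 1660) (.e (nat_lit 3251) (nat_lit 197) (.e (nat_lit 532511) (nat_lit 2) (.e (nat_lit 106536) (nat_lit 11) (.e (nat_lit 16416) (nat_lit 3) (.e (nat_lit 204876) (nat_lit 31) (.e (nat_lit 376835) (nat_lit 0) .nil)))))) (.g (nat_lit 1) (.e (nat_lit 76748) (nat_lit 0) .nil) .nil)))) (.nd (nat_lit 9) 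
(.lf (nat_lit 466292) (.g (nat_lit 2646) (.e (nat_lit 3249) (nat_lit 197) (.e (nat_lit 532542) (nat_lit 9) (.e (nat_lit 336194) (nat_lit 12) (.e (nat_lit 385066) (nat_lit 26) (.e (nat_lit 532513) (nat_lit 3) (.e (nat_lit 114696) (nat_lit 11) (.e (nat_lit 426071) (nat_lit 0) .nil))))))) (.g (nat_lit 1) (.e (nat_lit 76213) (nat_lit 0) .nil) .nil))) 
(.lf (nat_lit 466804) (.g (nat_lit 2804) (.e (nat_lit 3252) (nat_lit 197) (.e (nat_lit 532559) (nat_lit 14) (.e (nat_lit 376869) (nat_lit 23) (.e (nat_lit 98350) (nat_lit 24) (.e (nat_lit 409646) (nat_lit 18) (.e (nat_lit 303112) (nat_lit 0) .nil)))))) (.g (nat_lit 1) (.e (nat_lit 77136) (nat_lit 0) .nil) .nil))))) (.nd (nat_lit 8) (.nd (nat_lit 9) 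
(.lf (nat_lit 466164) (.g (nat_lit 3673) (.e (nat_lit 3249) (nat_lit 197) (.e (nat_lit 532504) (nat_lit 1) (.e (nat_lit 57851) (nat_lit 252) (.e (nat_lit 57354) (nat_lit 0) (.e (nat_lit 1799) (nat_lit 119) (.e (nat_lit 516131) (nat_lit 3) (.e (nat_lit 221212) (nat_lit 22) (.e (nat_lit 196665) (nat_lit 13) (.e (nat_lit 65636) (nat_lit 15) .nil))))))))) (.g (nat_lit 1) (.e (nat_lit 75944) (nat_lit 0) .nil) .nil))) 
(.lf (nat_lit 466676) (.g (nat_lit 5447) (.e (nat_lit 3252) (nat_lit 197) (.e (nat_lit 532535) (nat_lit 9) (.e (nat_lit 336099) (nat_lit 9) (.e (nat_lit 336013) (nat_lit 2) (.e (nat_lit 90129) (nat_lit 9) .nil))))) (.g (nat_lit 0) (.e (nat_lit 76987) (nat_lit 0) .nil) .nil)))) (.nd (nat_lit 9) 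
(.lf (nat_lit 466420) (.g (nat_lit 3252) (.e (nat_lit 3249) (nat_lit 197) (.e (nat_lit 532569) (nat_lit 16) (.e (nat_lit 401448) (nat_lit 10) (.e (nat_lit 434231) (nat_lit 23) (.e (nat_lit 532526) (nat_lit 8) (.e (nat_lit 327703) (nat_lit 10) (.e (nat_lit 5712) (nat_lit 312) (.e (nat_lit 2508) (nat_lit 157) .nil)))))))) (.g (nat_lit 1) (.e (nat_lit 76533) (nat_lit 0) .nil) .nil))) 
(.lf (nat_lit 466932) (.g (nat_lit 3506) (.e (nat_lit 3253) (nat_lit 197) (.e (nat_lit 532499) (nat_lit 1) (.e (nat_lit 57927) (nat_lit 282) (.e (nat_lit 163871) (nat_lit 2) (.e (nat_lit 196670) (nat_lit 14) (.e (nat_lit 73746) (nat_lit 3) (.e (nat_lit 516129) (nat_lit 3) (.e (nat_lit 221203) (nat_lit 20) .nil)))))))) (.g (nat_lit 1) (.e (nat_lit 77328) (nat_lit 0) .nil) .nil))))))))) 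
(.nd (nat_lit 4) (.nd (nat_lit 5) (.nd (nat_lit 6) (.nd (nat_lit 7) (.nd (nat_lit 8) 
(.nd (nat_lit 9) 
(.lf (nat_lit 465932) (.g (nat_lit 4486) (.e (nat_lit 3242) (nat_lit 197) (.e (nat_lit 532550) (nat_lit 12) (.e (nat_lit 360474) (nat_lit 8) (.e (nat_lit 557093) (nat_lit 12) (.e (nat_lit 164023) (nat_lit 46) (.e (nat_lit 704738) (nat_lit 11) (.e (nat_lit 16389) (nat_lit 0) .nil))))))) (.g (nat_lit 1) (.e (nat_lit 75655) (nat_lit 0) .nil) .nil))) 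
(.lf (nat_lit 466444) (.g (nat_lit 642) (.e (nat_lit 3249) (nat_lit 197) (.e (nat_lit 532569) (nat_lit 16) (.e (nat_lit 401452) (nat_lit 12) .nil))) (.g (nat_lit 0) (.e (nat_lit 76564) (nat_lit 0) .nil) .nil)))) (.nd (nat_lit 9) 
(.lf (nat_lit 466188) (.g (nat_lit 2476) (.e (nat_lit 3249) (nat_lit 197) (.e (nat_lit 532504) (nat_lit 1) (.e (nat_lit 57929) (nat_lit 282) (.e (nat_lit 163869) (nat_lit 2) (.e (nat_lit 196670) (nat_lit 14) .nil))))) (.g (nat_lit 0) (.e (nat_lit 75971) (nat_lit 0) .nil) .nil))) 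
(.lf (nat_lit 466700) (.g (nat_lit 2371) (.e (nat_lit 3252) (nat_lit 197) (.e (nat_lit 532547) (nat_lit 11) (.e (nat_lit 352312) (nat_lit 22) (.e (nat_lit 90165) (nat_lit 12) (.e (nat_lit 164210) (nat_lit 176) (.e (nat_lit 2797) (nat_lit 180) (.e (nat_lit 303112) (nat_lit 0) .nil))))))) (.g (nat_lit 1) (.e (nat_lit 77014) (nat_lit 0) .nil) .nil))))) (.nd (nat_lit 8) (.nd (nat_lit 9) 
(.lf (nat_lit 466060) (.g (nat_lit 4420) (.e (nat_lit 3248) (nat_lit 197) (.e (nat_lit 532515) (nat_lit 3) (.e (nat_lit 114716) (nat_lit 22) (.e (nat_lit 90174) (nat_lit 14) (.e (nat_lit 180243) (nat_lit 5) (.e (nat_lit 532503) (nat_lit 1) (.e (nat_lit 57687) (nat_lit 156) (.e (nat_lit 163844) (nat_lit 0) .nil)))))))) (.g (nat_lit 1) (.e (nat_lit 75796) (nat_lit 0) .nil) .nil))) 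
(.lf (nat_lit 466572) (.g (nat_lit 5035) (.e (nat_lit 3251) (nat_lit 197) (.e (nat_lit 532550) (nat_lit 12) (.e (nat_lit 360475) (nat_lit 8) (.e (nat_lit 557091) (nat_lit 12) (.e (nat_lit 164022) (nat_lit 46) .nil))))) (.g (nat_lit 0) (.e (nat_lit 76808) (nat_lit 0) .nil) .nil)))) (.nd (nat_lit 9) 
(.lf (nat_lit 466316) (.g (nat_lit 3671) (.e (nat_lit 3249) (nat_lit 197) (.e (nat_lit 532549) (nat_lit 12) (.e (nat_lit 360475) (nat_lit 8) (.e (nat_lit 557087) (nat_lit 11) (.e (nat_lit 24663) (nat_lit 14) .nil))))) (.g (nat_lit 0) (.e (nat_lit 76326) (nat_lit 0) .nil) .nil))) 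
(.lf (nat_lit 466828) (.g (nat_lit 2423) (.e (nat_lit 3252) (nat_lit 197) (.e (nat_lit 532563) (nat_lit 15) (.e (nat_lit 385066) (nat_lit 26) (.e (nat_lit 532563) (nat_lit 15) (.e (nat_lit 385066) (nat_lit 26) (.e (nat_lit 532534) (nat_lit 9) (.e (nat_lit 336257) (nat_lit 15) .nil))))))) (.g (nat_lit 1) (.e (nat_lit 77168) (nat_lit 0) .nil) .nil)))))) 
(.nd (nat_lit 7) (.nd (nat_lit 8) (.nd (nat_lit 9) 
(.lf (nat_lit 465996) (.g (nat_lit 3920) (.e (nat_lit 3248) (nat_lit 197) (.e (nat_lit 532503) (nat_lit 1) (.e (nat_lit 57931) (nat_lit 282) (.e (nat_lit 163867) (nat_lit 2) (.e (nat_lit 196670) (nat_lit 14) (.e (nat_lit 73746) (nat_lit 3) (.e (nat_lit 516129) (nat_lit 3) (.e (nat_lit 221197) (nat_lit 20) .nil)))))))) (.g (nat_lit 1) (.e (nat_lit 75725) (nat_lit 0) .nil) .nil))) 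
(.lf (nat_lit 466508) (.g (nat_lit 2555) (.e (nat_lit 3251) (nat_lit 197) (.e (nat_lit 532503) (nat_lit 1) (.e (nat_lit 57931) (nat_lit 282) (.e (nat_lit 163867) (nat_lit 2) (.e (nat_lit 196670) (nat_lit 14) (.e (nat_lit 73746) (nat_lit 3) (.e (nat_lit 516129) (nat_lit 3) (.e (nat_lit 221200) (nat_lit 20) .nil)))))))) (.g (nat_lit 1) (.e (nat_lit 76704) (nat_lit 0) .nil) .nil)))) (.nd (nat_lit 9) 
(.lf (nat_lit 466252) (.g (nat_lit 2712) (.e (nat_lit 3249) (nat_lit 197) (.e (nat_lit 532523) (nat_lit 7) (.e (nat_lit 319531) (nat_lit 16) (.e (nat_lit 286735) (nat_lit 3) (.e (nat_lit 98363) (nat_lit 26) (.e (nat_lit 426230) (nat_lit 9) (.e (nat_lit 425997) (nat_lit 0) .nil))))))) (.g (nat_lit 1) (.e (nat_lit 76129) (nat_lit 0) .nil) .nil))) 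
(.lf (nat_lit 466764) (.g (nat_lit 4169) (.e (nat_lit 3252) (nat_lit 197) (.e (nat_lit 532550) (nat_lit 12) (.e (nat_lit 360474) (nat_lit 8) (.e (nat_lit 557094) (nat_lit 12) (.e (nat_lit 164022) (nat_lit 46) (.e (nat_lit 704735) (nat_lit 11) (.e (nat_lit 16396) (nat_lit 0) .nil))))))) (.g (nat_lit 1) (.e (nat_lit 77095) (nat_lit 0) .nil) .nil))))) (.nd (nat_lit 8) (.nd (nat_lit 9) 
(.lf (nat_lit 466124) (.g (nat_lit 2745) (.e (nat_lit 3249) (nat_lit 197) (.e (nat_lit 532500) (nat_lit 1) (.e (nat_lit 57854) (nat_lit 252) (.e (nat_lit 57406) (nat_lit 12) (.e (nat_lit 336454) (nat_lit 34) (.e (nat_lit 483385) (nat_lit 23) (.e (nat_lit 336284) (nat_lit 15) .nil))))))) (.g (nat_lit 1) (.e (nat_lit 75897) (nat_lit 0) .nil) .nil))) 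
(.lf (nat_lit 466636) (.g (nat_lit 3372) (.e (nat_lit 3252) (nat_lit 197) (.e (nat_lit 532501) (nat_lit 1) (.e (nat_lit 57852) (nat_lit 252) (.e (nat_lit 57406) (nat_lit 12) (.e (nat_lit 336454) (nat_lit 34) (.e (nat_lit 483385) (nat_lit 23) (.e (nat_lit 336260) (nat_lit 15) .nil))))))) (.g (nat_lit 1) (.e (nat_lit 76909) (nat_lit 0) .nil) .nil)))) (.nd (nat_lit 9) 
(.lf (nat_lit 466380) (.g (nat_lit 4945) (.e (nat_lit 3249) (nat_lit 197) (.e (nat_lit 532550) (nat_lit 12) (.e (nat_lit 360475) (nat_lit 8) (.e (nat_lit 557091) (nat_lit 12) (.e (nat_lit 164022) (nat_lit 46) (.e (nat_lit 704738) (nat_lit 11) (.e (nat_lit 16401) (nat_lit 0) .nil))))))) (.g (nat_lit 1) (.e (nat_lit 76413) (nat_lit 0) .nil) .nil))) 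
(.lf (nat_lit 466892) (.g (nat_lit 3313) (.e (nat_lit 3253) (nat_lit 197) (.e (nat_lit 532499) (nat_lit 1) (.e (nat_lit 57927) (nat_lit 282) (.e (nat_lit 163868) (nat_lit 2) (.e (nat_lit 196663) (nat_lit 13) (.e (nat_lit 65569) (nat_lit 3) (.e (nat_lit 98342) (nat_lit 20) (.e (nat_lit 221204) (nat_lit 20) .nil)))))))) (.g (nat_lit 1) (.e (nat_lit 77270) (nat_lit 0) .nil) .nil))))))) 
(.nd (nat_lit 6) (.nd (nat_lit 7) (.nd (nat_lit 8) (.nd (nat_lit 9) 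
(.lf (nat_lit 465964) (.g (nat_lit 1771) (.e (nat_lit 3248) (nat_lit 197) (.e (nat_lit 532501) (nat_lit 1) (.e (nat_lit 57851) (nat_lit 252) (.e (nat_lit 57406) (nat_lit 12) (.e (nat_lit 336456) (nat_lit 34) .nil))))) (.g (nat_lit 0) (.e (nat_lit 75688) (nat_lit 0) .nil) .nil))) 
(.lf (nat_lit 466476) (.g (nat_lit 3052) (.e (nat_lit 3250) (nat_lit 197) (.e (nat_lit 532535) (nat_lit 9) (.e (nat_lit 336099) (nat_lit 9) (.e (nat_lit 336028) (nat_lit 3) .nil)))) (.g (nat_lit 0) (.e (nat_lit 76654) (nat_lit 0) .nil) .nil)))) (.nd (nat_lit 9) 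
(.lf (nat_lit 466220) (.g (nat_lit 3340) (.e (nat_lit 3249) (nat_lit 197) (.e (nat_lit 532523) (nat_lit 7) (.e (nat_lit 319490) (nat_lit 0) (.e (nat_lit 5664) (nat_lit 312) (.e (nat_lit 2661) (nat_lit 167) (.e (nat_lit 196670) (nat_lit 14) (.e (nat_lit 73779) (nat_lit 32) (.e (nat_lit 2508) (nat_lit 157) .nil)))))))) (.g (nat_lit 1) (.e (nat_lit 76089) (nat_lit 0) .nil) .nil))) 
(.lf (nat_lit 466732) (.g (nat_lit 2981) (.e (nat_lit 3252) (nat_lit 197) (.e (nat_lit 532550) (nat_lit 12) (.e (nat_lit 360467) (nat_lit 3) (.e (nat_lit 516139) (nat_lit 7) (.e (nat_lit 409648) (nat_lit 18) .nil))))) (.g (nat_lit 0) (.e (nat_lit 77058) (nat_lit 0) .nil) .nil))))) (.nd (nat_lit 8) (.nd (nat_lit 9) 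
(.lf (nat_lit 466092) (.g (nat_lit 2766) (.e (nat_lit 3249) (nat_lit 197) (.e (nat_lit 532499) (nat_lit 1) (.e (nat_lit 57927) (nat_lit 282) (.e (nat_lit 163866) (nat_lit 2) (.e (nat_lit 196670) (nat_lit 14) (.e (nat_lit 73746) (nat_lit 3) (.e (nat_lit 516129) (nat_lit 3) (.e (nat_lit 221202) (nat_lit 20) .nil)))))))) (.g (nat_lit 1) (.e (nat_lit 75857) (nat_lit 0) .nil) .nil))) 
(.lf (nat_lit 466604) (.g (nat_lit 2099) (.e (nat_lit 3252) (nat_lit 197) (.e (nat_lit 532499) (nat_lit 1) (.e (nat_lit 57927) (nat_lit 282) (.e (nat_lit 163868) (nat_lit 2) (.e (nat_lit 196670) (nat_lit 14) .nil))))) (.g (nat_lit 0) (.e (nat_lit 76853) (nat_lit 0) .nil) .nil)))) (.nd (nat_lit 9) 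
(.lf (nat_lit 466348) (.g (nat_lit 3408) (.e (nat_lit 3249) (nat_lit 197) (.e (nat_lit 532550) (nat_lit 12) (.e (nat_lit 360475) (nat_lit 8) (.e (nat_lit 557065) (nat_lit 9) (.e (nat_lit 7936) (nat_lit 22) .nil))))) (.g (nat_lit 0) (.e (nat_lit 76381) (nat_lit 0) .nil) .nil))) 
(.lf (nat_lit 466860) (.g (nat_lit 3015) (.e (nat_lit 3253) (nat_lit 197) (.e (nat_lit 532499) (nat_lit 1) (.e (nat_lit 57926) (nat_lit 282) (.e (nat_lit 163869) (nat_lit 2) (.e (nat_lit 196668) (nat_lit 14) (.e (nat_lit 73747) (nat_lit 3) (.e (nat_lit 516129) (nat_lit 3) (.e (nat_lit 221203) (nat_lit 20) .nil)))))))) (.g (nat_lit 1) (.e (nat_lit 77227) (nat_lit 0) .nil) .nil)))))) 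
(.nd (nat_lit 7) (.nd (nat_lit 8) (.nd (nat_lit 9) 
(.lf (nat_lit 466028) (.g (nat_lit 1169) (.e (nat_lit 3248) (nat_lit 197) (.e (nat_lit 532504) (nat_lit 1) (.e (nat_lit 57931) (nat_lit 282) .nil))) (.g (nat_lit 0) (.e (nat_lit 75761) (nat_lit 0) .nil) .nil))) 
(.lf (nat_lit 466540) (.g (nat_lit 1629) (.e (nat_lit 3251) (nat_lit 197) (.e (nat_lit 532511) (nat_lit 2) (.e (nat_lit 106534) (nat_lit 11) (.e (nat_lit 16413) (nat_lit 2) (.e (nat_lit 196672) (nat_lit 15) (.e (nat_lit 81924) (nat_lit 0) .nil)))))) (.g (nat_lit 1) (.e (nat_lit 76740) (nat_lit 0) .nil) .nil)))) (.nd (nat_lit 9) 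
(.lf (nat_lit 466284) (.g (nat_lit 886) (.e (nat_lit 3249) (nat_lit 197) (.e (nat_lit 532530) (nat_lit 9) (.e (nat_lit 336326) (nat_lit 18) .nil))) (.g (nat_lit 0) (.e (nat_lit 76186) (nat_lit 0) .nil) .nil))) 
(.lf (nat_lit 466796) (.g (nat_lit 2983) (.e (nat_lit 3252) (nat_lit 197) (.e (nat_lit 532558) (nat_lit 14) (.e (nat_lit 376868) (nat_lit 23) (.e (nat_lit 98350) (nat_lit 24) (.e (nat_lit 409648) (nat_lit 18) (.e (nat_lit 303109) (nat_lit 0) .nil)))))) (.g (nat_lit 1) (.e (nat_lit 77128) (nat_lit 0) .nil) .nil))))) (.nd (nat_lit 8) (.nd (nat_lit 9) 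
(.lf (nat_lit 466156) (.g (nat_lit 2205) (.e (nat_lit 3249) (nat_lit 197) (.e (nat_lit 532503) (nat_lit 1) (.e (nat_lit 57931) (nat_lit 282) (.e (nat_lit 163874) (nat_lit 3) (.e (nat_lit 204854) (nat_lit 26) .nil))))) (.g (nat_lit 0) (.e (nat_lit 75936) (nat_lit 0) .nil) .nil))) 
(.lf (nat_lit 466668) (.g (nat_lit 2505) (.e (nat_lit 3252) (nat_lit 197) (.e (nat_lit 532515) (nat_lit 3) (.e (nat_lit 114719) (nat_lit 23) (.e (nat_lit 98384) (nat_lit 32) (.e (nat_lit 475178) (nat_lit 24) .nil))))) (.g (nat_lit 0) (.e (nat_lit 76975) (nat_lit 0) .nil) .nil)))) (.nd (nat_lit 9) 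
(.lf (nat_lit 466412) (.g (nat_lit 3917) (.e (nat_lit 3249) (nat_lit 197) (.e (nat_lit 532569) (nat_lit 16) (.e (nat_lit 401434) (nat_lit 9) (.e (nat_lit 426140) (nat_lit 3) (.e (nat_lit 204846) (nat_lit 24) (.e (nat_lit 319504) (nat_lit 10) (.e (nat_lit 5712) (nat_lit 312) (.e (nat_lit 2508) (nat_lit 157) .nil)))))))) (.g (nat_lit 1) (.e (nat_lit 76491) (nat_lit 0) .nil) .nil))) 
(.lf (nat_lit 466924) (.g (nat_lit 2272) (.e (nat_lit 3253) (nat_lit 197) (.e (nat_lit 532499) (nat_lit 1) (.e (nat_lit 57927) (nat_lit 282) (.e (nat_lit 163869) (nat_lit 2) (.e (nat_lit 196670) (nat_lit 14) (.e (nat_lit 73746) (nat_lit 3) (.e (nat_lit 516129) (nat_lit 3) (.e (nat_lit 229120) (nat_lit 20) .nil)))))))) (.g (nat_lit 1) (.e (nat_lit 77306) (nat_lit 0) .nil) .nil)))))))) 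
(.nd (nat_lit 5) (.nd (nat_lit 6) (.nd (nat_lit 7) (.nd (nat_lit 8) (.nd (nat_lit 9) 
(.lf (nat_lit 465948) (.g (nat_lit 4037) (.e (nat_lit 3242) (nat_lit 197) (.e (nat_lit 532550) (nat_lit 12) (.e (nat_lit 360475) (nat_lit 8) (.e (nat_lit 557089) (nat_lit 12) .nil)))) (.g (nat_lit 0) (.e (nat_lit 75672) (nat_lit 0) .nil) .nil))) 
(.lf (nat_lit 466460) (.g (nat_lit 2690) (.e (nat_lit 3250) (nat_lit 197) (.e (nat_lit 532499) (nat_lit 1) (.e (nat_lit 57927) (nat_lit 282) (.e (nat_lit 163873) (nat_lit 3) (.e (nat_lit 204853) (nat_lit 26) (.e (nat_lit 336019) (nat_lit 3) (.e (nat_lit 98342) (nat_lit 20) (.e (nat_lit 221198) (nat_lit 20) .nil)))))))) (.g (nat_lit 1) (.e (nat_lit 76635) (nat_lit 0) .nil) .nil)))) 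
(.nd (nat_lit 9) 
(.lf (nat_lit 466204) (.g (nat_lit 1156) (.e (nat_lit 3249) (nat_lit 197) (.e (nat_lit 532510) (nat_lit 2) (.e (nat_lit 106536) (nat_lit 11) (.e (nat_lit 16413) (nat_lit 2) (.e (nat_lit 196672) (nat_lit 15) (.e (nat_lit 89856) (nat_lit 0) .nil)))))) (.g (nat_lit 1) (.e (nat_lit 75989) (nat_lit 0) .nil) .nil))) 
(.lf (nat_lit 466716) (.g (nat_lit 3005) (.e (nat_lit 3252) (nat_lit 197) (.e (nat_lit 532550) (nat_lit 12) (.e (nat_lit 360465) (nat_lit 3) (.e (nat_lit 516139) (nat_lit 7) (.e (nat_lit 409644) (nat_lit 18) .nil))))) (.g (nat_lit 0) (.e (nat_lit 77038) (nat_lit 0) .nil) .nil))))) (.nd (nat_lit 8) (.nd (nat_lit 9) 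
(.lf (nat_lit 466076) (.g (nat_lit 3402) (.e (nat_lit 3249) (nat_lit 197) (.e (nat_lit 532482) (nat_lit 0) (.e (nat_lit 6722) (nat_lit 362) (.e (nat_lit 180244) (nat_lit 5) (.e (nat_lit 532523) (nat_lit 7) (.e (nat_lit 319505) (nat_lit 10) (.e (nat_lit 5712) (nat_lit 312) (.e (nat_lit 2508) (nat_lit 157) .nil)))))))) (.g (nat_lit 1) (.e (nat_lit 75839) (nat_lit 0) .nil) .nil))) 
(.lf (nat_lit 466588) (.g (nat_lit 4252) (.e (nat_lit 3252) (nat_lit 197) (.e (nat_lit 532499) (nat_lit 1) (.e (nat_lit 57849) (nat_lit 252) (.e (nat_lit 57407) (nat_lit 12) (.e (nat_lit 336454) (nat_lit 34) (.e (nat_lit 483385) (nat_lit 23) (.e (nat_lit 336260) (nat_lit 15) .nil))))))) (.g (nat_lit 1) (.e (nat_lit 76826) (nat_lit 0) .nil) .nil)))) (.nd (nat_lit 9) 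
(.lf (nat_lit 466332) (.g (nat_lit 1787) (.e (nat_lit 3249) (nat_lit 197) (.e (nat_lit 532550) (nat_lit 12) (.e (nat_lit 360474) (nat_lit 8) (.e (nat_lit 557093) (nat_lit 12) .nil)))) (.g (nat_lit 0) (.e (nat_lit 76365) (nat_lit 0) .nil) .nil))) 
(.lf (nat_lit 466844) (.g (nat_lit 3675) (.e (nat_lit 3253) (nat_lit 197) (.e (nat_lit 532499) (nat_lit 1) (.e (nat_lit 57847) (nat_lit 252) (.e (nat_lit 57355) (nat_lit 0) (.e (nat_lit 1858) (nat_lit 124) (.e (nat_lit 557105) (nat_lit 14) (.e (nat_lit 180252) (nat_lit 10) (.e (nat_lit 573482) (nat_lit 13) (.e (nat_lit 65640) (nat_lit 15) .nil))))))))) (.g (nat_lit 1) (.e (nat_lit 77210) (nat_lit 0) .nil) .nil)))))) 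
(.nd (nat_lit 7) (.nd (nat_lit 8) (.nd (nat_lit 9) 
(.lf (nat_lit 466012) (.g (nat_lit 3180) (.e (nat_lit 3248) (nat_lit 197) (.e (nat_lit 532503) (nat_lit 1) (.e (nat_lit 57931) (nat_lit 282) (.e (nat_lit 163874) (nat_lit 3) (.e (nat_lit 204872) (nat_lit 30) (.e (nat_lit 368676) (nat_lit 21) (.e (nat_lit 516131) (nat_lit 3) (.e (nat_lit 221198) (nat_lit 20) .nil)))))))) (.g (nat_lit 1) (.e (nat_lit 75743) (nat_lit 0) .nil) .nil))) 
(.lf (nat_lit 466524) (.g (nat_lit 2187) (.e (nat_lit 3251) (nat_lit 197) (.e (nat_lit 532508) (nat_lit 2) (.e (nat_lit 106536) (nat_lit 11) (.e (nat_lit 16412) (nat_lit 2) (.e (nat_lit 196672) (nat_lit 15) (.e (nat_lit 81924) (nat_lit 0) .nil)))))) (.g (nat_lit 1) (.e (nat_lit 76724) (nat_lit 0) .nil) .nil)))) (.nd (nat_lit 9) 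
(.lf (nat_lit 466268) (.g (nat_lit 1511) (.e (nat_lit 3249) (nat_lit 197) (.e (nat_lit 532523) (nat_lit 7) (.e (nat_lit 319533) (nat_lit 16) (.e (nat_lit 286735) (nat_lit 3) .nil)))) (.g (nat_lit 0) (.e (nat_lit 76145) (nat_lit 0) .nil) .nil))) 
(.lf (nat_lit 466780) (.g (nat_lit 6255) (.e (nat_lit 3252) (nat_lit 197) (.e (nat_lit 532550) (nat_lit 12) (.e (nat_lit 360475) (nat_lit 8) (.e (nat_lit 557090) (nat_lit 12) .nil)))) (.g (nat_lit 0) (.e (nat_lit 77112) (nat_lit 0) .nil) .nil))))) (.nd (nat_lit 8) (.nd (nat_lit 9) 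
(.lf (nat_lit 466140) (.g (nat_lit 1234) (.e (nat_lit 3249) (nat_lit 197) (.e (nat_lit 532503) (nat_lit 1) (.e (nat_lit 57848) (nat_lit 252) (.e (nat_lit 57445) (nat_lit 19) .nil)))) (.g (nat_lit 0) (.e (nat_lit 75913) (nat_lit 0) .nil) .nil))) 
(.lf (nat_lit 466652) (.g (nat_lit 1817) (.e (nat_lit 3252) (nat_lit 197) (.e (nat_lit 532504) (nat_lit 1) (.e (nat_lit 57851) (nat_lit 252) (.e (nat_lit 57406) (nat_lit 12) (.e (nat_lit 336456) (nat_lit 34) (.e (nat_lit 483380) (nat_lit 23) (.e (nat_lit 336261) (nat_lit 15) .nil))))))) (.g (nat_lit 1) (.e (nat_lit 76932) (nat_lit 0) .nil) .nil)))) (.nd (nat_lit 9) 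
(.lf (nat_lit 466396) (.g (nat_lit 3297) (.e (nat_lit 3249) (nat_lit 197) (.e (nat_lit 532563) (nat_lit 15) (.e (nat_lit 385066) (nat_lit 26) (.e (nat_lit 532534) (nat_lit 9) (.e (nat_lit 336316) (nat_lit 17) (.e (nat_lit 196665) (nat_lit 13) (.e (nat_lit 65636) (nat_lit 15) .nil))))))) (.g (nat_lit 1) (.e (nat_lit 76468) (nat_lit 0) .nil) .nil))) 
(.lf (nat_lit 466908) (.g (nat_lit 2434) (.e (nat_lit 3253) (nat_lit 197) (.e (nat_lit 532499) (nat_lit 1) (.e (nat_lit 57927) (nat_lit 282) (.e (nat_lit 163868) (nat_lit 2) (.e (nat_lit 196670) (nat_lit 14) (.e (nat_lit 73746) (nat_lit 3) (.e (nat_lit 516131) (nat_lit 3) (.e (nat_lit 221203) (nat_lit 20) .nil)))))))) (.g (nat_lit 1) (.e (nat_lit 77286) (nat_lit 0) .nil) .nil))))))) 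
(.nd (nat_lit 6) (.nd (nat_lit 7) (.nd (nat_lit 8) (.nd (nat_lit 9) 
(.lf (nat_lit 465980) (.g (nat_lit 1973) (.e (nat_lit 3248) (nat_lit 197) (.e (nat_lit 532503) (nat_lit 1) (.e (nat_lit 57929) (nat_lit 282) (.e (nat_lit 163869) (nat_lit 2) (.e (nat_lit 196670) (nat_lit 14) (.e (nat_lit 73746) (nat_lit 3) (.e (nat_lit 516129) (nat_lit 3) (.e (nat_lit 221198) (nat_lit 20) .nil)))))))) (.g (nat_lit 1) (.e (nat_lit 75709) (nat_lit 0) .nil) .nil))) 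
(.lf (nat_lit 466492) (.g (nat_lit 2453) (.e (nat_lit 3250) (nat_lit 197) (.e (nat_lit 532563) (nat_lit 15) (.e (nat_lit 385066) (nat_lit 26) (.e (nat_lit 532563) (nat_lit 15) (.e (nat_lit 385066) (nat_lit 26) .nil))))) (.g (nat_lit 0) (.e (nat_lit 76677) (nat_lit 0) .nil) .nil)))) (.nd (nat_lit 9) 
(.lf (nat_lit 466236) (.g (nat_lit 2715) (.e (nat_lit 3249) (nat_lit 197) (.e (nat_lit 532523) (nat_lit 7) (.e (nat_lit 319530) (nat_lit 16) (.e (nat_lit 286735) (nat_lit 3) (.e (nat_lit 98363) (nat_lit 26) (.e (nat_lit 426225) (nat_lit 9) (.e (nat_lit 426072) (nat_lit 0) .nil))))))) (.g (nat_lit 1) (.e (nat_lit 76113) (nat_lit 0) .nil) .nil))) 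
(.lf (nat_lit 466748) (.g (nat_lit 5027) (.e (nat_lit 3252) (nat_lit 197) (.e (nat_lit 532550) (nat_lit 12) (.e (nat_lit 360474) (nat_lit 8) (.e (nat_lit 557085) (nat_lit 11) (.e (nat_lit 24665) (nat_lit 14) (.e (nat_lit 401413) (nat_lit 0) .nil)))))) (.g (nat_lit 1) (.e (nat_lit 77079) (nat_lit 0) .nil) .nil))))) (.nd (nat_lit 8) (.nd (nat_lit 9) 
(.lf (nat_lit 466108) (.g (nat_lit 2733) (.e (nat_lit 3249) (nat_lit 197) (.e (nat_lit 532499) (nat_lit 1) (.e (nat_lit 57927) (nat_lit 282) (.e (nat_lit 163874) (nat_lit 3) (.e (nat_lit 204862) (nat_lit 27) (.e (nat_lit 344117) (nat_lit 21) (.e (nat_lit 516129) (nat_lit 3) (.e (nat_lit 221202) (nat_lit 20) .nil)))))))) (.g (nat_lit 1) (.e (nat_lit 75880) (nat_lit 0) .nil) .nil))) 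
(.lf (nat_lit 466620) (.g (nat_lit 2140) (.e (nat_lit 3252) (nat_lit 197) (.e (nat_lit 532499) (nat_lit 1) (.e (nat_lit 57927) (nat_lit 282) (.e (nat_lit 163875) (nat_lit 3) (.e (nat_lit 204862) (nat_lit 27) .nil))))) (.g (nat_lit 0) (.e (nat_lit 76888) (nat_lit 0) .nil) .nil)))) (.nd (nat_lit 9) 
(.lf (nat_lit 466364) (.g (nat_lit 2556) (.e (nat_lit 3249) (nat_lit 197) (.e (nat_lit 532550) (nat_lit 12) (.e (nat_lit 360475) (nat_lit 8) (.e (nat_lit 557087) (nat_lit 11) (.e (nat_lit 24661) (nat_lit 14) .nil))))) (.g (nat_lit 0) (.e (nat_lit 76397) (nat_lit 0) .nil) .nil))) 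
(.lf (nat_lit 466876) (.g (nat_lit 2626) (.e (nat_lit 3253) (nat_lit 197) (.e (nat_lit 532499) (nat_lit 1) (.e (nat_lit 57926) (nat_lit 282) (.e (nat_lit 163875) (nat_lit 3) (.e (nat_lit 204862) (nat_lit 27) (.e (nat_lit 344117) (nat_lit 21) (.e (nat_lit 516129) (nat_lit 3) (.e (nat_lit 221204) (nat_lit 20) .nil)))))))) (.g (nat_lit 1) (.e (nat_lit 77250) (nat_lit 0) .nil) .nil)))))) 
(.nd (nat_lit 7) (.nd (nat_lit 8) (.nd (nat_lit 9) 
(.lf (nat_lit 466044) (.g (nat_lit 2308) (.e (nat_lit 3248) (nat_lit 197) (.e (nat_lit 532513) (nat_lit 3) (.e (nat_lit 114714) (nat_lit 22) (.e (nat_lit 90174) (nat_lit 14) (.e (nat_lit 180243) (nat_lit 5) (.e (nat_lit 532503) (nat_lit 1) (.e (nat_lit 57688) (nat_lit 156) (.e (nat_lit 163844) (nat_lit 0) .nil)))))))) (.g (nat_lit 1) (.e (nat_lit 75778) (nat_lit 0) .nil) .nil))) 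
(.lf (nat_lit 466556) (.g (nat_lit 4063) (.e (nat_lit 3251) (nat_lit 197) (.e (nat_lit 532535) (nat_lit 9) (.e (nat_lit 336176) (nat_lit 10) (.e (nat_lit 344130) (nat_lit 26) .nil)))) (.g (nat_lit 0) (.e (nat_lit 76791) (nat_lit 0) .nil) .nil)))) (.nd (nat_lit 9) 
(.lf (nat_lit 466300) (.g (nat_lit 3352) (.e (nat_lit 3249) (nat_lit 197) (.e (nat_lit 532549) (nat_lit 12) (.e (nat_lit 360473) (nat_lit 8) (.e (nat_lit 557087) (nat_lit 11) (.e (nat_lit 24663) (nat_lit 14) (.e (nat_lit 401418) (nat_lit 0) .nil)))))) (.g (nat_lit 1) (.e (nat_lit 76299) (nat_lit 0) .nil) .nil))) 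
(.lf (nat_lit 466812) (.g (nat_lit 2487) (.e (nat_lit 3252) (nat_lit 197) (.e (nat_lit 532560) (nat_lit 14) (.e (nat_lit 376868) (nat_lit 23) (.e (nat_lit 98350) (nat_lit 24) (.e (nat_lit 409648) (nat_lit 18) (.e (nat_lit 303108) (nat_lit 0) .nil)))))) (.g (nat_lit 1) (.e (nat_lit 77146) (nat_lit 0) .nil) .nil))))) (.nd (nat_lit 8) (.nd (nat_lit 9) 
(.lf (nat_lit 466172) (.g (nat_lit 1588) (.e (nat_lit 3249) (nat_lit 197) (.e (nat_lit 532504) (nat_lit 1) (.e (nat_lit 57851) (nat_lit 252) (.e (nat_lit 57406) (nat_lit 12) (.e (nat_lit 336456) (nat_lit 34) (.e (nat_lit 483391) (nat_lit 23) (.e (nat_lit 336272) (nat_lit 15) .nil))))))) (.g (nat_lit 1) (.e (nat_lit 75952) (nat_lit 0) .nil) .nil))) 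
(.lf (nat_lit 466684) (.g (nat_lit 4920) (.e (nat_lit 3252) (nat_lit 197) (.e (nat_lit 532535) (nat_lit 9) (.e (nat_lit 336099) (nat_lit 9) (.e (nat_lit 336013) (nat_lit 2) (.e (nat_lit 90144) (nat_lit 9) .nil))))) (.g (nat_lit 0) (.e (nat_lit 76995) (nat_lit 0) .nil) .nil)))) (.nd (nat_lit 9) 
(.lf (nat_lit 466428) (.g (nat_lit 2077) (.e (nat_lit 3249) (nat_lit 197) (.e (nat_lit 532569) (nat_lit 16) (.e (nat_lit 401448) (nat_lit 10) (.e (nat_lit 434232) (nat_lit 23) (.e (nat_lit 532568) (nat_lit 16) (.e (nat_lit 401444) (nat_lit 9) (.e (nat_lit 425984) (nat_lit 0) .nil))))))) (.g (nat_lit 1) (.e (nat_lit 76545) (nat_lit 0) .nil) .nil))) 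
(.lf (nat_lit 466940) (.g (nat_lit 4127) (.e (nat_lit 3253) (nat_lit 197) (.e (nat_lit 532499) (nat_lit 1) (.e (nat_lit 57927) (nat_lit 282) (.e (nat_lit 163874) (nat_lit 3) (.e (nat_lit 204851) (nat_lit 26) (.e (nat_lit 336019) (nat_lit 3) (.e (nat_lit 98342) (nat_lit 20) (.e (nat_lit 221204) (nat_lit 20) .nil)))))))) (.g (nat_lit 1) (.e (nat_lit 77336) (nat_lit 0) .nil) .nil))))))))))) 
(.nd (nat_lit 2) (.nd (nat_lit 3) (.nd (nat_lit 4) (.nd (nat_lit 5) (.nd (nat_lit 6) 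
(.nd (nat_lit 7) (.nd (nat_lit 8) (.nd (nat_lit 9) 
(.lf (nat_lit 465922) (.g (nat_lit 5162) (.e (nat_lit 3242) (nat_lit 197) (.e (nat_lit 532550) (nat_lit 12) (.e (nat_lit 360474) (nat_lit 8) (.e (nat_lit 557093) (nat_lit 12) (.e (nat_lit 164022) (nat_lit 46) (.e (nat_lit 704737) (nat_lit 11) (.e (nat_lit 16389) (nat_lit 0) .nil))))))) (.g (nat_lit 1) (.e (nat_lit 75645) (nat_lit 0) .nil) .nil))) 
(.lf (nat_lit 466434) (.g (nat_lit 1762) (.e (nat_lit 3249) (nat_lit 197) (.e (nat_lit 532569) (nat_lit 16) (.e (nat_lit 401448) (nat_lit 10) (.e (nat_lit 434245) (nat_lit 28) .nil)))) (.g (nat_lit 0) (.e (nat_lit 76552) (nat_lit 0) .nil) .nil)))) (.nd (nat_lit 9) 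
(.lf (nat_lit 466178) (.g (nat_lit 2817) (.e (nat_lit 3249) (nat_lit 197) (.e (nat_lit 532504) (nat_lit 1) (.e (nat_lit 57852) (nat_lit 252) (.e (nat_lit 57406) (nat_lit 12) (.e (nat_lit 336367) (nat_lit 27) .nil))))) (.g (nat_lit 0) (.e (nat_lit 75958) (nat_lit 0) .nil) .nil))) 
(.lf (nat_lit 466690) (.g (nat_lit 3791) (.e (nat_lit 3252) (nat_lit 197) (.e (nat_lit 532535) (nat_lit 9) (.e (nat_lit 336099) (nat_lit 9) (.e (nat_lit 336028) (nat_lit 3) (.e (nat_lit 98350) (nat_lit 24) (.e (nat_lit 409646) (nat_lit 18) (.e (nat_lit 303112) (nat_lit 0) .nil))))))) (.g (nat_lit 1) (.e (nat_lit 77001) (nat_lit 0) .nil) .nil))))) (.nd (nat_lit 8) (.nd (nat_lit 9) 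
(.lf (nat_lit 466050) (.g (nat_lit 3811) (.e (nat_lit 3248) (nat_lit 197) (.e (nat_lit 532515) (nat_lit 3) (.e (nat_lit 114716) (nat_lit 22) (.e (nat_lit 90172) (nat_lit 14) (.e (nat_lit 180243) (nat_lit 5) (.e (nat_lit 532503) (nat_lit 1) (.e (nat_lit 57688) (nat_lit 156) (.e (nat_lit 163844) (nat_lit 0) .nil)))))))) (.g (nat_lit 1) (.e (nat_lit 75786) (nat_lit 0) .nil) .nil))) 
(.lf (nat_lit 466562) (.g (nat_lit 4646) (.e (nat_lit 3251) (nat_lit 197) (.e (nat_lit 532550) (nat_lit 12) (.e (nat_lit 360474) (nat_lit 8) (.e (nat_lit 557093) (nat_lit 12) (.e (nat_lit 164022) (nat_lit 46) .nil))))) (.g (nat_lit 0) (.e (nat_lit 76798) (nat_lit 0) .nil) .nil)))) (.nd (nat_lit 9) 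
(.lf (nat_lit 466306) (.g (nat_lit 2344) (.e (nat_lit 3249) (nat_lit 197) (.e (nat_lit 532549) (nat_lit 12) (.e (nat_lit 360473) (nat_lit 8) (.e (nat_lit 557094) (nat_lit 12) (.e (nat_lit 164022) (nat_lit 46) (.e (nat_lit 704738) (nat_lit 11) (.e (nat_lit 16401) (nat_lit 0) .nil))))))) (.g (nat_lit 1) (.e (nat_lit 76307) (nat_lit 0) .nil) .nil))) 
(.lf (nat_lit 466818) (.g (nat_lit 3366) (.e (nat_lit 3252) (nat_lit 197) (.e (nat_lit 532560) (nat_lit 14) (.e (nat_lit 376869) (nat_lit 23) (.e (nat_lit 98350) (nat_lit 24) (.e (nat_lit 409646) (nat_lit 18) (.e (nat_lit 303112) (nat_lit 0) .nil)))))) (.g (nat_lit 1) (.e (nat_lit 77152) (nat_lit 0) .nil) .nil)))))) (.nd (nat_lit 7) (.nd (nat_lit 8) (.nd (nat_lit 9) 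
(.lf (nat_lit 465986) (.g (nat_lit 627) (.e (nat_lit 3248) (nat_lit 197) (.e (nat_lit 532503) (nat_lit 1) (.e (nat_lit 57931) (nat_lit 282) .nil))) (.g (nat_lit 0) (.e (nat_lit 75715) (nat_lit 0) .nil) .nil))) 
(.lf (nat_lit 466498) (.g (nat_lit 2468) (.e (nat_lit 3251) (nat_lit 197) (.e (nat_lit 532501) (nat_lit 1) (.e (nat_lit 57851) (nat_lit 252) (.e (nat_lit 57406) (nat_lit 12) (.e (nat_lit 336456) (nat_lit 34) (.e (nat_lit 483379) (nat_lit 23) (.e (nat_lit 336261) (nat_lit 15) .nil))))))) (.g (nat_lit 1) (.e (nat_lit 76684) (nat_lit 0) .nil) .nil)))) (.nd (nat_lit 9) 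
(.lf (nat_lit 466242) (.g (nat_lit 2478) (.e (nat_lit 3249) (nat_lit 197) (.e (nat_lit 532523) (nat_lit 7) (.e (nat_lit 319530) (nat_lit 16) (.e (nat_lit 286735) (nat_lit 3) (.e (nat_lit 98370) (nat_lit 28) .nil))))) (.g (nat_lit 0) (.e (nat_lit 76119) (nat_lit 0) .nil) .nil))) 
(.lf (nat_lit 466754) (.g (nat_lit 4188) (.e (nat_lit 3252) (nat_lit 197) (.e (nat_lit 532550) (nat_lit 12) (.e (nat_lit 360474) (nat_lit 8) (.e (nat_lit 557093) (nat_lit 12) (.e (nat_lit 164022) (nat_lit 46) (.e (nat_lit 704737) (nat_lit 11) (.e (nat_lit 16400) (nat_lit 0) .nil))))))) (.g (nat_lit 1) (.e (nat_lit 77085) (nat_lit 0) .nil) .nil))))) (.nd (nat_lit 8) (.nd (nat_lit 9) 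
(.lf (nat_lit 466114) (.g (nat_lit 2598) (.e (nat_lit 3249) (nat_lit 197) (.e (nat_lit 532500) (nat_lit 1) (.e (nat_lit 57851) (nat_lit 252) (.e (nat_lit 57354) (nat_lit 0) (.e (nat_lit 1799) (nat_lit 119) (.e (nat_lit 516129) (nat_lit 3) (.e (nat_lit 221210) (nat_lit 22) (.e (nat_lit 196665) (nat_lit 13) (.e (nat_lit 65636) (nat_lit 15) .nil))))))))) (.g (nat_lit 1) (.e (nat_lit 75887) (nat_lit 0) .nil) .nil))) 
(.lf (nat_lit 466626) (.g (nat_lit 2214) (.e (nat_lit 3252) (nat_lit 197) (.e (nat_lit 532500) (nat_lit 1) (.e (nat_lit 57854) (nat_lit 252) (.e (nat_lit 57409) (nat_lit 12) (.e (nat_lit 336454) (nat_lit 34) (.e (nat_lit 483385) (nat_lit 23) (.e (nat_lit 336260) (nat_lit 15) .nil))))))) (.g (nat_lit 1) (.e (nat_lit 76898) (nat_lit 0) .nil) .nil)))) (.nd (nat_lit 9) 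
(.lf (nat_lit 466370) (.g (nat_lit 3421) (.e (nat_lit 3249) (nat_lit 197) (.e (nat_lit 532550) (nat_lit 12) (.e (nat_lit 360475) (nat_lit 8) (.e (nat_lit 557089) (nat_lit 12) (.e (nat_lit 171776) (nat_lit 48) (.e (nat_lit 720907) (nat_lit 11) (.e (nat_lit 426071) (nat_lit 0) .nil))))))) (.g (nat_lit 1) (.e (nat_lit 76403) (nat_lit 0) .nil) .nil))) 
(.lf (nat_lit 466882) (.g (nat_lit 2658) (.e (nat_lit 3253) (nat_lit 197) (.e (nat_lit 532499) (nat_lit 1) (.e (nat_lit 57927) (nat_lit 282) (.e (nat_lit 163866) (nat_lit 2) (.e (nat_lit 196668) (nat_lit 14) (.e (nat_lit 73747) (nat_lit 3) (.e (nat_lit 516129) (nat_lit 3) (.e (nat_lit 221203) (nat_lit 20) .nil)))))))) (.g (nat_lit 1) (.e (nat_lit 77260) (nat_lit 0) .nil) .nil))))))) 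
(.nd (nat_lit 6) (.nd (nat_lit 7) (.nd (nat_lit 8) (.nd (nat_lit 9) 
(.lf (nat_lit 465954) (.g (nat_lit 4587) (.e (nat_lit 3242) (nat_lit 197) (.e (nat_lit 532550) (nat_lit 12) (.e (nat_lit 360475) (nat_lit 8) (.e (nat_lit 557091) (nat_lit 12) (.e (nat_lit 164022) (nat_lit 46) (.e (nat_lit 704736) (nat_lit 11) (.e (nat_lit 16389) (nat_lit 0) .nil))))))) (.g (nat_lit 1) (.e (nat_lit 75678) (nat_lit 0) .nil) .nil))) 
(.lf (nat_lit 466466) (.g (nat_lit 2391) (.e (nat_lit 3250) (nat_lit 197) (.e (nat_lit 532503) (nat_lit 1) (.e (nat_lit 57931) (nat_lit 282) (.e (nat_lit 163867) (nat_lit 2) (.e (nat_lit 196668) (nat_lit 14) (.e (nat_lit 73747) (nat_lit 3) (.e (nat_lit 516131) (nat_lit 3) (.e (nat_lit 221197) (nat_lit 20) .nil)))))))) (.g (nat_lit 1) (.e (nat_lit 76641) (nat_lit 0) .nil) .nil)))) (.nd (nat_lit 9) 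
(.lf (nat_lit 466210) (.g (nat_lit 1521) (.e (nat_lit 3249) (nat_lit 197) (.e (nat_lit 532511) (nat_lit 2) (.e (nat_lit 106536) (nat_lit 11) (.e (nat_lit 16413) (nat_lit 2) (.e (nat_lit 196674) (nat_lit 15) (.e (nat_lit 89856) (nat_lit 0) .nil)))))) (.g (nat_lit 1) (.e (nat_lit 75995) (nat_lit 0) .nil) .nil))) 
(.lf (nat_lit 466722) (.g (nat_lit 3424) (.e (nat_lit 3252) (nat_lit 197) (.e (nat_lit 532550) (nat_lit 12) (.e (nat_lit 360466) (nat_lit 3) (.e (nat_lit 516139) (nat_lit 7) (.e (nat_lit 409644) (nat_lit 18) .nil))))) (.g (nat_lit 0) (.e (nat_lit 77045) (nat_lit 0) .nil) .nil))))) (.nd (nat_lit 8) (.nd (nat_lit 9) 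
(.lf (nat_lit 466082) (.g (nat_lit 850) (.e (nat_lit 3249) (nat_lit 197) (.e (nat_lit 532490) (nat_lit 0) (.e (nat_lit 2143) (nat_lit 142) .nil))) (.g (nat_lit 0) (.e (nat_lit 75845) (nat_lit 0) .nil) .nil))) 
(.lf (nat_lit 466594) (.g (nat_lit 1519) (.e (nat_lit 3252) (nat_lit 197) (.e (nat_lit 532499) (nat_lit 1) (.e (nat_lit 57926) (nat_lit 282) (.e (nat_lit 163867) (nat_lit 2) .nil)))) (.g (nat_lit 0) (.e (nat_lit 76832) (nat_lit 0) .nil) .nil)))) (.nd (nat_lit 9) 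
(.lf (nat_lit 466338) (.g (nat_lit 2636) (.e (nat_lit 3249) (nat_lit 197) (.e (nat_lit 532550) (nat_lit 12) (.e (nat_lit 360474) (nat_lit 8) (.e (nat_lit 557093) (nat_lit 12) (.e (nat_lit 171776) (nat_lit 48) (.e (nat_lit 720907) (nat_lit 11) (.e (nat_lit 426071) (nat_lit 0) .nil))))))) (.g (nat_lit 1) (.e (nat_lit 76371) (nat_lit 0) .nil) .nil))) 
(.lf (nat_lit 466850) (.g (nat_lit 3624) (.e (nat_lit 3253) (nat_lit 197) (.e (nat_lit 532499) (nat_lit 1) (.e (nat_lit 57926) (nat_lit 282) (.e (nat_lit 163868) (nat_lit 2) (.e (nat_lit 196668) (nat_lit 14) (.e (nat_lit 73746) (nat_lit 3) (.e (nat_lit 516129) (nat_lit 3) (.e (nat_lit 221204) (nat_lit 20) .nil)))))))) (.g (nat_lit 1) (.e (nat_lit 77217) (nat_lit 0) .nil) .nil)))))) 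
(.nd (nat_lit 7) (.nd (nat_lit 8) (.nd (nat_lit 9) 
(.lf (nat_lit 466018) (.g (nat_lit 1767) (.e (nat_lit 3248) (nat_lit 197) (.e (nat_lit 532504) (nat_lit 1) (.e (nat_lit 57851) (nat_lit 252) (.e (nat_lit 57408) (nat_lit 12) (.e (nat_lit 336454) (nat_lit 34) (.e (nat_lit 483380) (nat_lit 23) (.e (nat_lit 336258) (nat_lit 15) .nil))))))) (.g (nat_lit 1) (.e (nat_lit 75751) (nat_lit 0) .nil) .nil))) 
(.lf (nat_lit 466530) (.g (nat_lit 1125) (.e (nat_lit 3251) (nat_lit 197) (.e (nat_lit 532510) (nat_lit 2) (.e (nat_lit 106534) (nat_lit 11) (.e (nat_lit 16413) (nat_lit 2) (.e (nat_lit 196672) (nat_lit 15) (.e (nat_lit 81924) (nat_lit 0) .nil)))))) (.g (nat_lit 1) (.e (nat_lit 76730) (nat_lit 0) .nil) .nil)))) (.nd (nat_lit 9) 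
(.lf (nat_lit 466274) (.g (nat_lit 1432) (.e (nat_lit 3249) (nat_lit 197) (.e (nat_lit 532523) (nat_lit 7) (.e (nat_lit 319534) (nat_lit 16) (.e (nat_lit 286735) (nat_lit 3) .nil)))) (.g (nat_lit 0) (.e (nat_lit 76151) (nat_lit 0) .nil) .nil))) 
(.lf (nat_lit 466786) (.g (nat_lit 4137) (.e (nat_lit 3252) (nat_lit 197) (.e (nat_lit 532550) (nat_lit 12) (.e (nat_lit 360475) (nat_lit 8) (.e (nat_lit 557091) (nat_lit 12) (.e (nat_lit 164022) (nat_lit 46) (.e (nat_lit 704737) (nat_lit 11) (.e (nat_lit 16399) (nat_lit 0) .nil))))))) (.g (nat_lit 1) (.e (nat_lit 77118) (nat_lit 0) .nil) .nil))))) (.nd (nat_lit 8) (.nd (nat_lit 9) 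
(.lf (nat_lit 466146) (.g (nat_lit 2347) (.e (nat_lit 3249) (nat_lit 197) (.e (nat_lit 532503) (nat_lit 1) (.e (nat_lit 57931) (nat_lit 282) (.e (nat_lit 163867) (nat_lit 2) (.e (nat_lit 196663) (nat_lit 13) (.e (nat_lit 65571) (nat_lit 3) (.e (nat_lit 98341) (nat_lit 20) (.e (nat_lit 221202) (nat_lit 20) .nil)))))))) (.g (nat_lit 1) (.e (nat_lit 75921) (nat_lit 0) .nil) .nil))) 
(.lf (nat_lit 466658) (.g (nat_lit 2433) (.e (nat_lit 3252) (nat_lit 197) (.e (nat_lit 532504) (nat_lit 1) (.e (nat_lit 57852) (nat_lit 252) (.e (nat_lit 57409) (nat_lit 12) (.e (nat_lit 336454) (nat_lit 34) (.e (nat_lit 483385) (nat_lit 23) (.e (nat_lit 336260) (nat_lit 15) .nil))))))) (.g (nat_lit 1) (.e (nat_lit 76939) (nat_lit 0) .nil) .nil)))) (.nd (nat_lit 9) 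
(.lf (nat_lit 466402) (.g (nat_lit 1428) (.e (nat_lit 3249) (nat_lit 197) (.e (nat_lit 532563) (nat_lit 15) (.e (nat_lit 385066) (nat_lit 26) (.e (nat_lit 532566) (nat_lit 15) .nil)))) (.g (nat_lit 0) (.e (nat_lit 76474) (nat_lit 0) .nil) .nil))) 
(.lf (nat_lit 466914) (.g (nat_lit 5018) (.e (nat_lit 3253) (nat_lit 197) (.e (nat_lit 532499) (nat_lit 1) (.e (nat_lit 57927) (nat_lit 282) (.e (nat_lit 163869) (nat_lit 2) (.e (nat_lit 196666) (nat_lit 13) (.e (nat_lit 65571) (nat_lit 3) (.e (nat_lit 98341) (nat_lit 20) (.e (nat_lit 221204) (nat_lit 20) .nil)))))))) (.g (nat_lit 1) (.e (nat_lit 77295) (nat_lit 0) .nil) .nil)))))))) 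
(.nd (nat_lit 5) (.nd (nat_lit 6) (.nd (nat_lit 7) (.nd (nat_lit 8) (.nd (nat_lit 9) 
(.lf (nat_lit 465938) (.g (nat_lit 4852) (.e (nat_lit 3242) (nat_lit 197) (.e (nat_lit 532550) (nat_lit 12) (.e (nat_lit 360474) (nat_lit 8) (.e (nat_lit 557094) (nat_lit 12) (.e (nat_lit 164022) (nat_lit 46) (.e (nat_lit 704737) (nat_lit 11) (.e (nat_lit 16384) (nat_lit 0) .nil))))))) (.g (nat_lit 1) (.e (nat_lit 75661) (nat_lit 0) .nil) .nil))) 
(.lf (nat_lit 466450) (.g (nat_lit 2430) (.e (nat_lit 3250) (nat_lit 197) (.e (nat_lit 532499) (nat_lit 1) (.e (nat_lit 57927) (nat_lit 282) (.e (nat_lit 163868) (nat_lit 2) (.e (nat_lit 196663) (nat_lit 13) (.e (nat_lit 65571) (nat_lit 3) (.e (nat_lit 98342) (nat_lit 20) (.e (nat_lit 221198) (nat_lit 20) .nil)))))))) (.g (nat_lit 1) (.e (nat_lit 76624) (nat_lit 0) .nil) .nil)))) (.nd (nat_lit 9) 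
(.lf (nat_lit 466194) (.g (nat_lit 1528) (.e (nat_lit 3249) (nat_lit 197) (.e (nat_lit 532508) (nat_lit 2) (.e (nat_lit 106534) (nat_lit 11) (.e (nat_lit 16412) (nat_lit 2) (.e (nat_lit 196672) (nat_lit 15) (.e (nat_lit 89856) (nat_lit 0) .nil)))))) (.g (nat_lit 1) (.e (nat_lit 75979) (nat_lit 0) .nil) .nil))) 
(.lf (nat_lit 466706) (.g (nat_lit 4537) (.e (nat_lit 3252) (nat_lit 197) (.e (nat_lit 532548) (nat_lit 11) (.e (nat_lit 352315) (nat_lit 23) (.e (nat_lit 98350) (nat_lit 24) (.e (nat_lit 409645) (nat_lit 18) (.e (nat_lit 303112) (nat_lit 0) .nil)))))) (.g (nat_lit 1) (.e (nat_lit 77021) (nat_lit 0) .nil) .nil))))) (.nd (nat_lit 8) (.nd (nat_lit 9) 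
(.lf (nat_lit 466066) (.g (nat_lit 1847) (.e (nat_lit 3248) (nat_lit 197) (.e (nat_lit 532534) (nat_lit 9) (.e (nat_lit 336019) (nat_lit 3) (.e (nat_lit 98341) (nat_lit 20) .nil)))) (.g (nat_lit 0) (.e (nat_lit 75814) (nat_lit 0) .nil) .nil))) 
(.lf (nat_lit 466578) (.g (nat_lit 998) (.e (nat_lit 3251) (nat_lit 197) (.e (nat_lit 532563) (nat_lit 15) (.e (nat_lit 385066) (nat_lit 26) .nil))) (.g (nat_lit 0) (.e (nat_lit 76814) (nat_lit 0) .nil) .nil)))) (.nd (nat_lit 9) 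
(.lf (nat_lit 466322) (.g (nat_lit 2188) (.e (nat_lit 3249) (nat_lit 197) (.e (nat_lit 532550) (nat_lit 12) (.e (nat_lit 360474) (nat_lit 8) (.e (nat_lit 557070) (nat_lit 9) (.e (nat_lit 253) (nat_lit 21) .nil))))) (.g (nat_lit 0) (.e (nat_lit 76354) (nat_lit 0) .nil) .nil))) 
(.lf (nat_lit 466834) (.g (nat_lit 3075) (.e (nat_lit 3252) (nat_lit 197) (.e (nat_lit 532579) (nat_lit 26) (.e (nat_lit 426188) (nat_lit 9) (.e (nat_lit 426566) (nat_lit 34) (.e (nat_lit 393253) (nat_lit 18) (.e (nat_lit 164329) (nat_lit 230) (.e (nat_lit 163850) (nat_lit 0) .nil))))))) (.g (nat_lit 1) (.e (nat_lit 77192) (nat_lit 0) .nil) .nil)))))) 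
(.nd (nat_lit 7) (.nd (nat_lit 8) (.nd (nat_lit 9) 
(.lf (nat_lit 466002) (.g (nat_lit 2994) (.e (nat_lit 3248) (nat_lit 197) (.e (nat_lit 532503) (nat_lit 1) (.e (nat_lit 57931) (nat_lit 282) (.e (nat_lit 163873) (nat_lit 3) (.e (nat_lit 204853) (nat_lit 26) (.e (nat_lit 336019) (nat_lit 3) (.e (nat_lit 98342) (nat_lit 20) (.e (nat_lit 221198) (nat_lit 20) .nil)))))))) (.g (nat_lit 1) (.e (nat_lit 75733) (nat_lit 0) .nil) .nil))) 
(.lf (nat_lit 466514) (.g (nat_lit 2445) (.e (nat_lit 3251) (nat_lit 197) (.e (nat_lit 532504) (nat_lit 1) (.e (nat_lit 57851) (nat_lit 252) (.e (nat_lit 57406) (nat_lit 12) (.e (nat_lit 336456) (nat_lit 34) (.e (nat_lit 483379) (nat_lit 23) (.e (nat_lit 336259) (nat_lit 15) .nil))))))) (.g (nat_lit 1) (.e (nat_lit 76712) (nat_lit 0) .nil) .nil)))) (.nd (nat_lit 9) 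
(.lf (nat_lit 466258) (.g (nat_lit 2082) (.e (nat_lit 3249) (nat_lit 197) (.e (nat_lit 532523) (nat_lit 7) (.e (nat_lit 319531) (nat_lit 16) (.e (nat_lit 286735) (nat_lit 3) (.e (nat_lit 98382) (nat_lit 31) .nil))))) (.g (nat_lit 0) (.e (nat_lit 76135) (nat_lit 0) .nil) .nil))) 
(.lf (nat_lit 466770) (.g (nat_lit 5850) (.e (nat_lit 3252) (nat_lit 197) (.e (nat_lit 532550) (nat_lit 12) (.e (nat_lit 360474) (nat_lit 8) (.e (nat_lit 557094) (nat_lit 12) (.e (nat_lit 164022) (nat_lit 46) (.e (nat_lit 704738) (nat_lit 11) (.e (nat_lit 16396) (nat_lit 0) .nil))))))) (.g (nat_lit 1) (.e (nat_lit 77101) (nat_lit 0) .nil) .nil))))) (.nd (nat_lit 8) (.nd (nat_lit 9) 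
(.lf (nat_lit 466130) (.g (nat_lit 2653) (.e (nat_lit 3249) (nat_lit 197) (.e (nat_lit 532503) (nat_lit 1) (.e (nat_lit 57844) (nat_lit 252) (.e (nat_lit 57406) (nat_lit 12) (.e (nat_lit 336456) (nat_lit 34) (.e (nat_lit 483387) (nat_lit 23) (.e (nat_lit 336280) (nat_lit 15) .nil))))))) (.g (nat_lit 1) (.e (nat_lit 75903) (nat_lit 0) .nil) .nil))) 
(.lf (nat_lit 466642) (.g (nat_lit 2077) (.e (nat_lit 3252) (nat_lit 197) (.e (nat_lit 532503) (nat_lit 1) (.e (nat_lit 57847) (nat_lit 252) (.e (nat_lit 57411) (nat_lit 12) (.e (nat_lit 336454) (nat_lit 34) (.e (nat_lit 483385) (nat_lit 23) (.e (nat_lit 336260) (nat_lit 15) .nil))))))) (.g (nat_lit 1) (.e (nat_lit 76918) (nat_lit 0) .nil) .nil)))) (.nd (nat_lit 9) 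
(.lf (nat_lit 466386) (.g (nat_lit 2098) (.e (nat_lit 3249) (nat_lit 197) (.e (nat_lit 532559) (nat_lit 14) (.e (nat_lit 376865) (nat_lit 22) (.e (nat_lit 90185) (nat_lit 17) (.e (nat_lit 237584) (nat_lit 1) (.e (nat_lit 164403) (nat_lit 256) (.e (nat_lit 65280) (nat_lit 61) .nil))))))) (.g (nat_lit 1) (.e (nat_lit 76447) (nat_lit 0) .nil) .nil))) 
(.lf (nat_lit 466898) (.g (nat_lit 4602) (.e (nat_lit 3253) (nat_lit 197) (.e (nat_lit 532499) (nat_lit 1) (.e (nat_lit 57927) (nat_lit 282) (.e (nat_lit 163868) (nat_lit 2) (.e (nat_lit 196668) (nat_lit 14) (.e (nat_lit 73746) (nat_lit 3) (.e (nat_lit 516129) (nat_lit 3) (.e (nat_lit 221204) (nat_lit 20) .nil)))))))) (.g (nat_lit 1) (.e (nat_lit 77276) (nat_lit 0) .nil) .nil))))))) 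
(.nd (nat_lit 6) (.nd (nat_lit 7) (.nd (nat_lit 8) (.nd (nat_lit 9) 
(.lf (nat_lit 465970) (.g (nat_lit 2682) (.e (nat_lit 3248) (nat_lit 197) (.e (nat_lit 532501) (nat_lit 1) (.e (nat_lit 57927) (nat_lit 282) (.e (nat_lit 163869) (nat_lit 2) (.e (nat_lit 196670) (nat_lit 14) (.e (nat_lit 73746) (nat_lit 3) (.e (nat_lit 516129) (nat_lit 3) (.e (nat_lit 221196) (nat_lit 20) .nil)))))))) (.g (nat_lit 1) (.e (nat_lit 75694) (nat_lit 0) .nil) .nil))) 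
(.lf (nat_lit 466482) (.g (nat_lit 4198) (.e (nat_lit 3250) (nat_lit 197) (.e (nat_lit 532550) (nat_lit 12) (.e (nat_lit 360474) (nat_lit 8) (.e (nat_lit 557094) (nat_lit 12) .nil)))) (.g (nat_lit 0) (.e (nat_lit 76666) (nat_lit 0) .nil) .nil)))) (.nd (nat_lit 9) 
(.lf (nat_lit 466226) (.g (nat_lit 2529) (.e (nat_lit 3249) (nat_lit 197) (.e (nat_lit 532523) (nat_lit 7) (.e (nat_lit 319539) (nat_lit 19) (.e (nat_lit 311315) (nat_lit 3) (.e (nat_lit 204846) (nat_lit 24) (.e (nat_lit 319505) (nat_lit 10) (.e (nat_lit 5712) (nat_lit 312) (.e (nat_lit 2508) (nat_lit 157) .nil)))))))) (.g (nat_lit 1) (.e (nat_lit 76103) (nat_lit 0) .nil) .nil))) 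
(.lf (nat_lit 466738) (.g (nat_lit 1878) (.e (nat_lit 3252) (nat_lit 197) (.e (nat_lit 532550) (nat_lit 12) (.e (nat_lit 360468) (nat_lit 3) (.e (nat_lit 516139) (nat_lit 7) .nil)))) (.g (nat_lit 0) (.e (nat_lit 77066) (nat_lit 0) .nil) .nil))))) (.nd (nat_lit 8) (.nd (nat_lit 9) 
(.lf (nat_lit 466098) (.g (nat_lit 3528) (.e (nat_lit 3249) (nat_lit 197) (.e (nat_lit 532499) (nat_lit 1) (.e (nat_lit 57927) (nat_lit 282) (.e (nat_lit 163869) (nat_lit 2) (.e (nat_lit 196668) (nat_lit 14) (.e (nat_lit 73746) (nat_lit 3) (.e (nat_lit 516129) (nat_lit 3) (.e (nat_lit 221202) (nat_lit 20) .nil)))))))) (.g (nat_lit 1) (.e (nat_lit 75866) (nat_lit 0) .nil) .nil))) 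
(.lf (nat_lit 466610) (.g (nat_lit 3487) (.e (nat_lit 3252) (nat_lit 197) (.e (nat_lit 532499) (nat_lit 1) (.e (nat_lit 57927) (nat_lit 282) (.e (nat_lit 163869) (nat_lit 2) (.e (nat_lit 196670) (nat_lit 14) (.e (nat_lit 73746) (nat_lit 3) (.e (nat_lit 516131) (nat_lit 3) (.e (nat_lit 221195) (nat_lit 20) .nil)))))))) (.g (nat_lit 1) (.e (nat_lit 76867) (nat_lit 0) .nil) .nil)))) (.nd (nat_lit 9) 
(.lf (nat_lit 466354) (.g (nat_lit 4089) (.e (nat_lit 3249) (nat_lit 197) (.e (nat_lit 532550) (nat_lit 12) (.e (nat_lit 360475) (nat_lit 8) (.e (nat_lit 557071) (nat_lit 9) .nil)))) (.g (nat_lit 0) (.e (nat_lit 76387) (nat_lit 0) .nil) .nil))) 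
(.lf (nat_lit 466866) (.g (nat_lit 2654) (.e (nat_lit 3253) (nat_lit 197) (.e (nat_lit 532499) (nat_lit 1) (.e (nat_lit 57926) (nat_lit 282) (.e (nat_lit 163869) (nat_lit 2) (.e (nat_lit 196670) (nat_lit 14) (.e (nat_lit 73746) (nat_lit 3) (.e (nat_lit 516131) (nat_lit 3) (.e (nat_lit 221203) (nat_lit 20) .nil)))))))) (.g (nat_lit 1) (.e (nat_lit 77233) (nat_lit 0) .nil) .nil)))))) 
(.nd (nat_lit 7) (.nd (nat_lit 8) (.nd (nat_lit 9) 
(.lf (nat_lit 466034) (.g (nat_lit 1306) (.e (nat_lit 3248) (nat_lit 197) (.e (nat_lit 532510) (nat_lit 2) (.e (nat_lit 106534) (nat_lit 11) (.e (nat_lit 16412) (nat_lit 2) (.e (nat_lit 196672) (nat_lit 15) .nil))))) (.g (nat_lit 0) (.e (nat_lit 75768) (nat_lit 0) .nil) .nil))) 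
(.lf (nat_lit 466546) (.g (nat_lit 1855) (.e (nat_lit 3251) (nat_lit 197) (.e (nat_lit 532511) (nat_lit 2) (.e (nat_lit 106536) (nat_lit 11) (.e (nat_lit 16413) (nat_lit 2) (.e (nat_lit 196672) (nat_lit 15) (.e (nat_lit 81924) (nat_lit 0) .nil)))))) (.g (nat_lit 1) (.e (nat_lit 76746) (nat_lit 0) .nil) .nil)))) (.nd (nat_lit 9) 
(.lf (nat_lit 466290) (.g (nat_lit 2117) (.e (nat_lit 3249) (nat_lit 197) (.e (nat_lit 532535) (nat_lit 9) (.e (nat_lit 336176) (nat_lit 10) .nil))) (.g (nat_lit 0) (.e (nat_lit 76202) (nat_lit 0) .nil) .nil))) 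
(.lf (nat_lit 466802) (.g (nat_lit 3585) (.e (nat_lit 3252) (nat_lit 197) (.e (nat_lit 532559) (nat_lit 14) (.e (nat_lit 376869) (nat_lit 23) (.e (nat_lit 98349) (nat_lit 24) (.e (nat_lit 409645) (nat_lit 18) (.e (nat_lit 303112) (nat_lit 0) .nil)))))) (.g (nat_lit 1) (.e (nat_lit 77134) (nat_lit 0) .nil) .nil))))) (.nd (nat_lit 8) (.nd (nat_lit 9) 
(.lf (nat_lit 466162) (.g (nat_lit 1939) (.e (nat_lit 3249) (nat_lit 197) (.e (nat_lit 532504) (nat_lit 1) (.e (nat_lit 57851) (nat_lit 252) (.e (nat_lit 57354) (nat_lit 0) (.e (nat_lit 1799) (nat_lit 119) .nil))))) (.g (nat_lit 0) (.e (nat_lit 75942) (nat_lit 0) .nil) .nil))) 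
(.lf (nat_lit 466674) (.g (nat_lit 5087) (.e (nat_lit 3252) (nat_lit 197) (.e (nat_lit 532535) (nat_lit 9) (.e (nat_lit 336099) (nat_lit 9) (.e (nat_lit 336013) (nat_lit 2) (.e (nat_lit 90121) (nat_lit 9) .nil))))) (.g (nat_lit 0) (.e (nat_lit 76985) (nat_lit 0) .nil) .nil)))) (.nd (nat_lit 9) 
(.lf (nat_lit 466418) (.g (nat_lit 3397) (.e (nat_lit 3249) (nat_lit 197) (.e (nat_lit 532569) (nat_lit 16) (.e (nat_lit 401448) (nat_lit 10) (.e (nat_lit 434231) (nat_lit 23) (.e (nat_lit 532483) (nat_lit 0) .nil))))) (.g (nat_lit 0) (.e (nat_lit 76531) (nat_lit 0) .nil) .nil))) 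
(.lf (nat_lit 466930) (.g (nat_lit 2952) (.e (nat_lit 3253) (nat_lit 197) (.e (nat_lit 532499) (nat_lit 1) (.e (nat_lit 57927) (nat_lit 282) (.e (nat_lit 163871) (nat_lit 2) (.e (nat_lit 196663) (nat_lit 13) (.e (nat_lit 65571) (nat_lit 3) (.e (nat_lit 98342) (nat_lit 20) (.e (nat_lit 221204) (nat_lit 20) .nil)))))))) (.g (nat_lit 1) (.e (nat_lit 77318) (nat_lit 0) .nil) .nil))))))))) 
(.nd (nat_lit 4) (.nd (nat_lit 5) (.nd (nat_lit 6) (.nd (nat_lit 7) (.nd (nat_lit 8) 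
(.nd (nat_lit 9) 
(.lf (nat_lit 465930) (.g (nat_lit 5000) (.e (nat_lit 3242) (nat_lit 197) (.e (nat_lit 532550) (nat_lit 12) (.e (nat_lit 360474) (nat_lit 8) (.e (nat_lit 557093) (nat_lit 12) (.e (nat_lit 164023) (nat_lit 46) (.e (nat_lit 704738) (nat_lit 11) (.e (nat_lit 16384) (nat_lit 0) .nil))))))) (.g (nat_lit 1) (.e (nat_lit 75653) (nat_lit 0) .nil) .nil))) 
(.lf (nat_lit 466442) (.g (nat_lit 5187) (.e (nat_lit 3249) (nat_lit 197) (.e (nat_lit 532569) (nat_lit 16) (.e (nat_lit 401451) (nat_lit 12) (.e (nat_lit 475185) (nat_lit 29) (.e (nat_lit 557107) (nat_lit 15) (.e (nat_lit 196352) (nat_lit 20) .nil)))))) (.g (nat_lit 1) (.e (nat_lit 76562) (nat_lit 0) .nil) .nil)))) (.nd (nat_lit 9) 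
(.lf (nat_lit 466186) (.g (nat_lit 1901) (.e (nat_lit 3249) (nat_lit 197) (.e (nat_lit 532504) (nat_lit 1) (.e (nat_lit 57854) (nat_lit 252) (.e (nat_lit 57445) (nat_lit 19) .nil)))) (.g (nat_lit 0) (.e (nat_lit 75969) (nat_lit 0) .nil) .nil))) 
(.lf (nat_lit 466698) (.g (nat_lit 3290) (.e (nat_lit 3252) (nat_lit 197) (.e (nat_lit 532535) (nat_lit 9) (.e (nat_lit 336176) (nat_lit 10) (.e (nat_lit 344117) (nat_lit 21) .nil)))) (.g (nat_lit 0) (.e (nat_lit 77009) (nat_lit 0) .nil) .nil))))) (.nd (nat_lit 8) (.nd (nat_lit 9) 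
(.lf (nat_lit 466058) (.g (nat_lit 4836) (.e (nat_lit 3248) (nat_lit 197) (.e (nat_lit 532515) (nat_lit 3) (.e (nat_lit 114716) (nat_lit 22) (.e (nat_lit 90174) (nat_lit 14) (.e (nat_lit 180243) (nat_lit 5) (.e (nat_lit 532499) (nat_lit 1) (.e (nat_lit 57688) (nat_lit 156) (.e (nat_lit 163844) (nat_lit 0) .nil)))))))) (.g (nat_lit 1) (.e (nat_lit 75794) (nat_lit 0) .nil) .nil))) 
(.lf (nat_lit 466570) (.g (nat_lit 5229) (.e (nat_lit 3251) (nat_lit 197) (.e (nat_lit 532550) (nat_lit 12) (.e (nat_lit 360475) (nat_lit 8) (.e (nat_lit 557087) (nat_lit 11) .nil)))) (.g (nat_lit 0) (.e (nat_lit 76806) (nat_lit 0) .nil) .nil)))) (.nd (nat_lit 9) 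
(.lf (nat_lit 466314) (.g (nat_lit 4026) (.e (nat_lit 3249) (nat_lit 197) (.e (nat_lit 532549) (nat_lit 12) (.e (nat_lit 360475) (nat_lit 8) (.e (nat_lit 557086) (nat_lit 11) (.e (nat_lit 24665) (nat_lit 14) (.e (nat_lit 401418) (nat_lit 0) .nil)))))) (.g (nat_lit 1) (.e (nat_lit 76323) (nat_lit 0) .nil) .nil))) 
(.lf (nat_lit 466826) (.g (nat_lit 2551) (.e (nat_lit 3252) (nat_lit 197) (.e (nat_lit 532563) (nat_lit 15) (.e (nat_lit 385066) (nat_lit 26) (.e (nat_lit 532530) (nat_lit 9) (.e (nat_lit 336326) (nat_lit 18) (.e (nat_lit 204854) (nat_lit 26) (.e (nat_lit 336260) (nat_lit 15) .nil))))))) (.g (nat_lit 1) (.e (nat_lit 77166) (nat_lit 0) .nil) .nil)))))) 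
(.nd (nat_lit 7) (.nd (nat_lit 8) (.nd (nat_lit 9) 
(.lf (nat_lit 465994) (.g (nat_lit 2907) (.e (nat_lit 3248) (nat_lit 197) (.e (nat_lit 532503) (nat_lit 1) (.e (nat_lit 57931) (nat_lit 282) (.e (nat_lit 163867) (nat_lit 2) (.e (nat_lit 196663) (nat_lit 13) (.e (nat_lit 65571) (nat_lit 3) (.e (nat_lit 98342) (nat_lit 20) (.e (nat_lit 221198) (nat_lit 20) .nil)))))))) (.g (nat_lit 1) (.e (nat_lit 75723) (nat_lit 0) .nil) .nil))) 
(.lf (nat_lit 466506) (.g (nat_lit 2206) (.e (nat_lit 3251) (nat_lit 197) (.e (nat_lit 532503) (nat_lit 1) (.e (nat_lit 57849) (nat_lit 252) (.e (nat_lit 57407) (nat_lit 12) (.e (nat_lit 336454) (nat_lit 34) .nil))))) (.g (nat_lit 0) (.e (nat_lit 76702) (nat_lit 0) .nil) .nil)))) (.nd (nat_lit 9) 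
(.lf (nat_lit 466250) (.g (nat_lit 2492) (.e (nat_lit 3249) (nat_lit 197) (.e (nat_lit 532523) (nat_lit 7) (.e (nat_lit 319531) (nat_lit 16) (.e (nat_lit 286735) (nat_lit 3) (.e (nat_lit 98363) (nat_lit 26) (.e (nat_lit 426225) (nat_lit 9) (.e (nat_lit 426072) (nat_lit 0) .nil))))))) (.g (nat_lit 1) (.e (nat_lit 76127) (nat_lit 0) .nil) .nil))) 
(.lf (nat_lit 466762) (.g (nat_lit 3422) (.e (nat_lit 3252) (nat_lit 197) (.e (nat_lit 532550) (nat_lit 12) (.e (nat_lit 360474) (nat_lit 8) (.e (nat_lit 557093) (nat_lit 12) (.e (nat_lit 164023) (nat_lit 46) (.e (nat_lit 704737) (nat_lit 11) (.e (nat_lit 16400) (nat_lit 0) .nil))))))) (.g (nat_lit 1) (.e (nat_lit 77093) (nat_lit 0) .nil) .nil))))) (.nd (nat_lit 8) (.nd (nat_lit 9) 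
(.lf (nat_lit 466122) (.g (nat_lit 3344) (.e (nat_lit 3249) (nat_lit 197) (.e (nat_lit 532500) (nat_lit 1) (.e (nat_lit 57851) (nat_lit 252) (.e (nat_lit 57406) (nat_lit 12) (.e (nat_lit 336456) (nat_lit 34) (.e (nat_lit 483393) (nat_lit 23) (.e (nat_lit 336271) (nat_lit 15) .nil))))))) (.g (nat_lit 1) (.e (nat_lit 75895) (nat_lit 0) .nil) .nil))) 
(.lf (nat_lit 466634) (.g (nat_lit 1946) (.e (nat_lit 3252) (nat_lit 197) (.e (nat_lit 532501) (nat_lit 1) (.e (nat_lit 57851) (nat_lit 252) (.e (nat_lit 57406) (nat_lit 12) (.e (nat_lit 336456) (nat_lit 34) (.e (nat_lit 483383) (nat_lit 23) (.e (nat_lit 336303) (nat_lit 15) .nil))))))) (.g (nat_lit 1) (.e (nat_lit 76907) (nat_lit 0) .nil) .nil)))) (.nd (nat_lit 9) 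
(.lf (nat_lit 466378) (.g (nat_lit 3447) (.e (nat_lit 3249) (nat_lit 197) (.e (nat_lit 532550) (nat_lit 12) (.e (nat_lit 360475) (nat_lit 8) (.e (nat_lit 557091) (nat_lit 12) (.e (nat_lit 164022) (nat_lit 46) (.e (nat_lit 704736) (nat_lit 11) (.e (nat_lit 16401) (nat_lit 0) .nil))))))) (.g (nat_lit 1) (.e (nat_lit 76411) (nat_lit 0) .nil) .nil))) 
(.lf (nat_lit 466890) (.g (nat_lit 3180) (.e (nat_lit 3253) (nat_lit 197) (.e (nat_lit 532499) (nat_lit 1) (.e (nat_lit 57927) (nat_lit 282) (.e (nat_lit 163867) (nat_lit 2) (.e (nat_lit 196670) (nat_lit 14) (.e (nat_lit 73746) (nat_lit 3) (.e (nat_lit 516129) (nat_lit 3) (.e (nat_lit 221204) (nat_lit 20) .nil)))))))) (.g (nat_lit 1) (.e (nat_lit 77268) (nat_lit 0) .nil) .nil))))))) 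
(.nd (nat_lit 6) (.nd (nat_lit 7) (.nd (nat_lit 8) (.nd (nat_lit 9) 
(.lf (nat_lit 465962) (.g (nat_lit 4782) (.e (nat_lit 3242) (nat_lit 197) (.e (nat_lit 532550) (nat_lit 12) (.e (nat_lit 360475) (nat_lit 8) (.e (nat_lit 557091) (nat_lit 12) (.e (nat_lit 164022) (nat_lit 46) (.e (nat_lit 704738) (nat_lit 11) (.e (nat_lit 16389) (nat_lit 0) .nil))))))) (.g (nat_lit 1) (.e (nat_lit 75686) (nat_lit 0) .nil) .nil))) 
(.lf (nat_lit 466474) (.g (nat_lit 1735) (.e (nat_lit 3250) (nat_lit 197) (.e (nat_lit 532523) (nat_lit 7) (.e (nat_lit 319533) (nat_lit 16) (.e (nat_lit 286734) (nat_lit 3) .nil)))) (.g (nat_lit 0) (.e (nat_lit 76651) (nat_lit 0) .nil) .nil)))) (.nd (nat_lit 9) 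
(.lf (nat_lit 466218) (.g (nat_lit 3103) (.e (nat_lit 3249) (nat_lit 197) (.e (nat_lit 532523) (nat_lit 7) (.e (nat_lit 319490) (nat_lit 0) (.e (nat_lit 5664) (nat_lit 312) (.e (nat_lit 2661) (nat_lit 167) (.e (nat_lit 196669) (nat_lit 14) (.e (nat_lit 73779) (nat_lit 32) (.e (nat_lit 2508) (nat_lit 157) .nil)))))))) (.g (nat_lit 1) (.e (nat_lit 76087) (nat_lit 0) .nil) .nil))) 
(.lf (nat_lit 466730) (.g (nat_lit 4757) (.e (nat_lit 3252) (nat_lit 197) (.e (nat_lit 532550) (nat_lit 12) (.e (nat_lit 360467) (nat_lit 3) (.e (nat_lit 516139) (nat_lit 7) (.e (nat_lit 409646) (nat_lit 18) (.e (nat_lit 303112) (nat_lit 0) .nil)))))) (.g (nat_lit 1) (.e (nat_lit 77056) (nat_lit 0) .nil) .nil))))) (.nd (nat_lit 8) (.nd (nat_lit 9) 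
(.lf (nat_lit 466090) (.g (nat_lit 3701) (.e (nat_lit 3249) (nat_lit 197) (.e (nat_lit 532499) (nat_lit 1) (.e (nat_lit 57926) (nat_lit 282) (.e (nat_lit 163869) (nat_lit 2) (.e (nat_lit 196670) (nat_lit 14) (.e (nat_lit 73746) (nat_lit 3) (.e (nat_lit 516129) (nat_lit 3) (.e (nat_lit 221202) (nat_lit 20) .nil)))))))) (.g (nat_lit 1) (.e (nat_lit 75854) (nat_lit 0) .nil) .nil))) 
(.lf (nat_lit 466602) (.g (nat_lit 2454) (.e (nat_lit 3252) (nat_lit 197) (.e (nat_lit 532499) (nat_lit 1) (.e (nat_lit 57927) (nat_lit 282) (.e (nat_lit 163867) (nat_lit 2) (.e (nat_lit 196670) (nat_lit 14) (.e (nat_lit 73746) (nat_lit 3) (.e (nat_lit 516129) (nat_lit 3) (.e (nat_lit 221195) (nat_lit 20) .nil)))))))) (.g (nat_lit 1) (.e (nat_lit 76845) (nat_lit 0) .nil) .nil)))) (.nd (nat_lit 9) 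
(.lf (nat_lit 466346) (.g (nat_lit 2806) (.e (nat_lit 3249) (nat_lit 197) (.e (nat_lit 532550) (nat_lit 12) (.e (nat_lit 360475) (nat_lit 8) (.e (nat_lit 557065) (nat_lit 9) .nil)))) (.g (nat_lit 0) (.e (nat_lit 76379) (nat_lit 0) .nil) .nil))) 
(.lf (nat_lit 466858) (.g (nat_lit 3545) (.e (nat_lit 3253) (nat_lit 197) (.e (nat_lit 532499) (nat_lit 1) (.e (nat_lit 57926) (nat_lit 282) (.e (nat_lit 163869) (nat_lit 2) (.e (nat_lit 196666) (nat_lit 13) (.e (nat_lit 65571) (nat_lit 3) (.e (nat_lit 98341) (nat_lit 20) (.e (nat_lit 221204) (nat_lit 20) .nil)))))))) (.g (nat_lit 1) (.e (nat_lit 77225) (nat_lit 0) .nil) .nil)))))) 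
(.nd (nat_lit 7) (.nd (nat_lit 8) (.nd (nat_lit 9) 
(.lf (nat_lit 466026) (.g (nat_lit 2528) (.e (nat_lit 3248) (nat_lit 197) (.e (nat_lit 532504) (nat_lit 1) (.e (nat_lit 57929) (nat_lit 282) (.e (nat_lit 163869) (nat_lit 2) (.e (nat_lit 196670) (nat_lit 14) (.e (nat_lit 73746) (nat_lit 3) (.e (nat_lit 516129) (nat_lit 3) (.e (nat_lit 221197) (nat_lit 20) .nil)))))))) (.g (nat_lit 1) (.e (nat_lit 75759) (nat_lit 0) .nil) .nil))) 
(.lf (nat_lit 466538) (.g (nat_lit 1996) (.e (nat_lit 3251) (nat_lit 197) (.e (nat_lit 532511) (nat_lit 2) (.e (nat_lit 106534) (nat_lit 11) (.e (nat_lit 16412) (nat_lit 2) (.e (nat_lit 196672) (nat_lit 15) (.e (nat_lit 81924) (nat_lit 0) .nil)))))) (.g (nat_lit 1) (.e (nat_lit 76738) (nat_lit 0) .nil) .nil)))) (.nd (nat_lit 9) 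
(.lf (nat_lit 466282) (.g (nat_lit 2755) (.e (nat_lit 3249) (nat_lit 197) (.e (nat_lit 532526) (nat_lit 8) (.e (nat_lit 327699) (nat_lit 8) (.e (nat_lit 303117) (nat_lit 2) (.e (nat_lit 196669) (nat_lit 14) (.e (nat_lit 73780) (nat_lit 32) (.e (nat_lit 2505) (nat_lit 157) .nil))))))) (.g (nat_lit 1) (.e (nat_lit 76161) (nat_lit 0) .nil) .nil))) 
(.lf (nat_lit 466794) (.g (nat_lit 2213) (.e (nat_lit 3252) (nat_lit 197) (.e (nat_lit 532558) (nat_lit 14) (.e (nat_lit 376868) (nat_lit 23) (.e (nat_lit 98350) (nat_lit 24) (.e (nat_lit 409644) (nat_lit 18) (.e (nat_lit 303112) (nat_lit 0) .nil)))))) (.g (nat_lit 1) (.e (nat_lit 77126) (nat_lit 0) .nil) .nil))))) (.nd (nat_lit 8) (.nd (nat_lit 9) 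
(.lf (nat_lit 466154) (.g (nat_lit 4924) (.e (nat_lit 3249) (nat_lit 197) (.e (nat_lit 532503) (nat_lit 1) (.e (nat_lit 57931) (nat_lit 282) (.e (nat_lit 163869) (nat_lit 2) (.e (nat_lit 196670) (nat_lit 14) (.e (nat_lit 73746) (nat_lit 3) (.e (nat_lit 516129) (nat_lit 3) (.e (nat_lit 221202) (nat_lit 20) .nil)))))))) (.g (nat_lit 1) (.e (nat_lit 75934) (nat_lit 0) .nil) .nil))) 
(.lf (nat_lit 466666) (.g (nat_lit 2146) (.e (nat_lit 3252) (nat_lit 197) (.e (nat_lit 532513) (nat_lit 3) (.e (nat_lit 114714) (nat_lit 22) (.e (nat_lit 90174) (nat_lit 14) (.e (nat_lit 180243) (nat_lit 5) .nil))))) (.g (nat_lit 0) (.e (nat_lit 76958) (nat_lit 0) .nil) .nil)))) (.nd (nat_lit 9) 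
(.lf (nat_lit 466410) (.g (nat_lit 1176) (.e (nat_lit 3249) (nat_lit 197) (.e (nat_lit 532569) (nat_lit 16) (.e (nat_lit 401434) (nat_lit 9) (.e (nat_lit 426140) (nat_lit 3) .nil)))) (.g (nat_lit 0) (.e (nat_lit 76486) (nat_lit 0) .nil) .nil))) 
(.lf (nat_lit 466922) (.g (nat_lit 3903) (.e (nat_lit 3253) (nat_lit 197) (.e (nat_lit 532499) (nat_lit 1) (.e (nat_lit 57927) (nat_lit 282) (.e (nat_lit 163869) (nat_lit 2) (.e (nat_lit 196668) (nat_lit 14) (.e (nat_lit 73747) (nat_lit 3) (.e (nat_lit 516131) (nat_lit 3) (.e (nat_lit 221204) (nat_lit 20) .nil)))))))) (.g (nat_lit 1) (.e (nat_lit 77304) (nat_lit 0) .nil) .nil)))))))) 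
(.nd (nat_lit 5) (.nd (nat_lit 6) (.nd (nat_lit 7) (.nd (nat_lit 8) (.nd (nat_lit 9) 
(.lf (nat_lit 465946) (.g (nat_lit 4276) (.e (nat_lit 3242) (nat_lit 197) (.e (nat_lit 532550) (nat_lit 12) (.e (nat_lit 360475) (nat_lit 8) (.e (nat_lit 557086) (nat_lit 11) .nil)))) (.g (nat_lit 0) (.e (nat_lit 75670) (nat_lit 0) .nil) .nil))) 
(.lf (nat_lit 466458) (.g (nat_lit 2917) (.e (nat_lit 3250) (nat_lit 197) (.e (nat_lit 532499) (nat_lit 1) (.e (nat_lit 57927) (nat_lit 282) (.e (nat_lit 163869) (nat_lit 2) (.e (nat_lit 196670) (nat_lit 14) (.e (nat_lit 73746) (nat_lit 3) (.e (nat_lit 516131) (nat_lit 3) (.e (nat_lit 221197) (nat_lit 20) .nil)))))))) (.g (nat_lit 1) (.e (nat_lit 76632) (nat_lit 0) .nil) .nil)))) (.nd (nat_lit 9) 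
(.lf (nat_lit 466202) (.g (nat_lit 1765) (.e (nat_lit 3249) (nat_lit 197) (.e (nat_lit 532508) (nat_lit 2) (.e (nat_lit 106536) (nat_lit 11) (.e (nat_lit 16416) (nat_lit 3) (.e (nat_lit 204876) (nat_lit 31) (.e (nat_lit 376833) (nat_lit 0) .nil)))))) (.g (nat_lit 1) (.e (nat_lit 75987) (nat_lit 0) .nil) .nil))) 
(.lf (nat_lit 466714) (.g (nat_lit 4462) (.e (nat_lit 3252) (nat_lit 197) (.e (nat_lit 532550) (nat_lit 12) (.e (nat_lit 360465) (nat_lit 3) (.e (nat_lit 516138) (nat_lit 7) (.e (nat_lit 409645) (nat_lit 18) (.e (nat_lit 303112) (nat_lit 0) .nil)))))) (.g (nat_lit 1) (.e (nat_lit 77036) (nat_lit 0) .nil) .nil))))) (.nd (nat_lit 8) (.nd (nat_lit 9) 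
(.lf (nat_lit 466074) (.g (nat_lit 4993) (.e (nat_lit 3248) (nat_lit 197) (.e (nat_lit 532550) (nat_lit 12) (.e (nat_lit 360475) (nat_lit 8) (.e (nat_lit 557091) (nat_lit 12) (.e (nat_lit 164022) (nat_lit 46) (.e (nat_lit 704736) (nat_lit 11) (.e (nat_lit 16389) (nat_lit 0) .nil))))))) (.g (nat_lit 1) (.e (nat_lit 75829) (nat_lit 0) .nil) .nil))) 
(.lf (nat_lit 466586) (.g (nat_lit 1251) (.e (nat_lit 3252) (nat_lit 197) (.e (nat_lit 532499) (nat_lit 1) (.e (nat_lit 57847) (nat_lit 252) (.e (nat_lit 57446) (nat_lit 19) .nil)))) (.g (nat_lit 0) (.e (nat_lit 76824) (nat_lit 0) .nil) .nil)))) (.nd (nat_lit 9) 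
(.lf (nat_lit 466330) (.g (nat_lit 3163) (.e (nat_lit 3249) (nat_lit 197) (.e (nat_lit 532550) (nat_lit 12) (.e (nat_lit 360474) (nat_lit 8) (.e (nat_lit 557085) (nat_lit 11) (.e (nat_lit 24664) (nat_lit 14) (.e (nat_lit 401418) (nat_lit 0) .nil)))))) (.g (nat_lit 1) (.e (nat_lit 76363) (nat_lit 0) .nil) .nil))) 
(.lf (nat_lit 466842) (.g (nat_lit 4350) (.e (nat_lit 3253) (nat_lit 197) (.e (nat_lit 532499) (nat_lit 1) (.e (nat_lit 57847) (nat_lit 252) (.e (nat_lit 57355) (nat_lit 0) (.e (nat_lit 1858) (nat_lit 124) (.e (nat_lit 557105) (nat_lit 14) (.e (nat_lit 180252) (nat_lit 10) (.e (nat_lit 573480) (nat_lit 13) (.e (nat_lit 65637) (nat_lit 15) .nil))))))))) (.g (nat_lit 1) (.e (nat_lit 77208) (nat_lit 0) .nil) .nil)))))) 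
(.nd (nat_lit 7) (.nd (nat_lit 8) (.nd (nat_lit 9) 
(.lf (nat_lit 466010) (.g (nat_lit 2369) (.e (nat_lit 3248) (nat_lit 197) (.e (nat_lit 532503) (nat_lit 1) (.e (nat_lit 57931) (nat_lit 282) (.e (nat_lit 163874) (nat_lit 3) (.e (nat_lit 204872) (nat_lit 30) .nil))))) (.g (nat_lit 0) (.e (nat_lit 75741) (nat_lit 0) .nil) .nil))) 
(.lf (nat_lit 466522) (.g (nat_lit 1394) (.e (nat_lit 3251) (nat_lit 197) (.e (nat_lit 532508) (nat_lit 2) (.e (nat_lit 106534) (nat_lit 11) (.e (nat_lit 16413) (nat_lit 2) (.e (nat_lit 196672) (nat_lit 15) (.e (nat_lit 81924) (nat_lit 0) .nil)))))) (.g (nat_lit 1) (.e (nat_lit 76722) (nat_lit 0) .nil) .nil)))) (.nd (nat_lit 9) 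
(.lf (nat_lit 466266) (.g (nat_lit 2234) (.e (nat_lit 3249) (nat_lit 197) (.e (nat_lit 532523) (nat_lit 7) (.e (nat_lit 319533) (nat_lit 16) (.e (nat_lit 286734) (nat_lit 3) (.e (nat_lit 98380) (nat_lit 31) .nil))))) (.g (nat_lit 0) (.e (nat_lit 76143) (nat_lit 0) .nil) .nil))) 
(.lf (nat_lit 466778) (.g (nat_lit 4458) (.e (nat_lit 3252) (nat_lit 197) (.e (nat_lit 532550) (nat_lit 12) (.e (nat_lit 360475) (nat_lit 8) (.e (nat_lit 557087) (nat_lit 11) (.e (nat_lit 24665) (nat_lit 14) .nil))))) (.g (nat_lit 0) (.e (nat_lit 77110) (nat_lit 0) .nil) .nil))))) (.nd (nat_lit 8) (.nd (nat_lit 9) 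
(.lf (nat_lit 466138) (.g (nat_lit 2424) (.e (nat_lit 3249) (nat_lit 197) (.e (nat_lit 532503) (nat_lit 1) (.e (nat_lit 57848) (nat_lit 252) (.e (nat_lit 57407) (nat_lit 12) (.e (nat_lit 336456) (nat_lit 34) (.e (nat_lit 483393) (nat_lit 23) (.e (nat_lit 336271) (nat_lit 15) .nil))))))) (.g (nat_lit 1) (.e (nat_lit 75911) (nat_lit 0) .nil) .nil))) 
(.lf (nat_lit 466650) (.g (nat_lit 3180) (.e (nat_lit 3252) (nat_lit 197) (.e (nat_lit 532504) (nat_lit 1) (.e (nat_lit 57851) (nat_lit 252) (.e (nat_lit 57406) (nat_lit 12) (.e (nat_lit 336456) (nat_lit 34) (.e (nat_lit 483379) (nat_lit 23) (.e (nat_lit 336261) (nat_lit 15) .nil))))))) (.g (nat_lit 1) (.e (nat_lit 76930) (nat_lit 0) .nil) .nil)))) (.nd (nat_lit 9) 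
(.lf (nat_lit 466394) (.g (nat_lit 2412) (.e (nat_lit 3249) (nat_lit 197) (.e (nat_lit 532563) (nat_lit 15) (.e (nat_lit 385066) (nat_lit 26) (.e (nat_lit 532530) (nat_lit 9) (.e (nat_lit 336326) (nat_lit 18) (.e (nat_lit 204854) (nat_lit 26) (.e (nat_lit 336247) (nat_lit 15) .nil))))))) (.g (nat_lit 1) (.e (nat_lit 76466) (nat_lit 0) .nil) .nil))) 
(.lf (nat_lit 466906) (.g (nat_lit 3849) (.e (nat_lit 3253) (nat_lit 197) (.e (nat_lit 532499) (nat_lit 1) (.e (nat_lit 57927) (nat_lit 282) (.e (nat_lit 163868) (nat_lit 2) (.e (nat_lit 196670) (nat_lit 14) (.e (nat_lit 73746) (nat_lit 3) (.e (nat_lit 516129) (nat_lit 3) (.e (nat_lit 221203) (nat_lit 20) .nil)))))))) (.g (nat_lit 1) (.e (nat_lit 77284) (nat_lit 0) .nil) .nil))))))) 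
(.nd (nat_lit 6) (.nd (nat_lit 7) (.nd (nat_lit 8) (.nd (nat_lit 9) 
(.lf (nat_lit 465978) (.g (nat_lit 2869) (.e (nat_lit 3248) (nat_lit 197) (.e (nat_lit 532503) (nat_lit 1) (.e (nat_lit 57924) (nat_lit 282) (.e (nat_lit 163867) (nat_lit 2) (.e (nat_lit 196668) (nat_lit 14) (.e (nat_lit 73747) (nat_lit 3) (.e (nat_lit 516131) (nat_lit 3) (.e (nat_lit 221198) (nat_lit 20) .nil)))))))) (.g (nat_lit 1) (.e (nat_lit 75705) (nat_lit 0) .nil) .nil))) 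
(.lf (nat_lit 466490) (.g (nat_lit 4157) (.e (nat_lit 3250) (nat_lit 197) (.e (nat_lit 532550) (nat_lit 12) (.e (nat_lit 360475) (nat_lit 8) (.e (nat_lit 557091) (nat_lit 12) .nil)))) (.g (nat_lit 0) (.e (nat_lit 76675) (nat_lit 0) .nil) .nil)))) (.nd (nat_lit 9) 
(.lf (nat_lit 466234) (.g (nat_lit 3681) (.e (nat_lit 3249) (nat_lit 197) (.e (nat_lit 532523) (nat_lit 7) (.e (nat_lit 319530) (nat_lit 16) (.e (nat_lit 286733) (nat_lit 2) (.e (nat_lit 90178) (nat_lit 15) (.e (nat_lit 196352) (nat_lit 20) .nil)))))) (.g (nat_lit 1) (.e (nat_lit 76111) (nat_lit 0) .nil) .nil))) 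
(.lf (nat_lit 466746) (.g (nat_lit 618) (.e (nat_lit 3252) (nat_lit 197) (.e (nat_lit 532550) (nat_lit 12) (.e (nat_lit 360474) (nat_lit 8) .nil))) (.g (nat_lit 0) (.e (nat_lit 77074) (nat_lit 0) .nil) .nil))))) (.nd (nat_lit 8) (.nd (nat_lit 9) 
(.lf (nat_lit 466106) (.g (nat_lit 1947) (.e (nat_lit 3249) (nat_lit 197) (.e (nat_lit 532499) (nat_lit 1) (.e (nat_lit 57927) (nat_lit 282) (.e (nat_lit 163871) (nat_lit 2) (.e (nat_lit 196670) (nat_lit 14) (.e (nat_lit 73746) (nat_lit 3) (.e (nat_lit 516131) (nat_lit 3) (.e (nat_lit 221202) (nat_lit 20) .nil)))))))) (.g (nat_lit 1) (.e (nat_lit 75878) (nat_lit 0) .nil) .nil))) 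
(.lf (nat_lit 466618) (.g (nat_lit 2206) (.e (nat_lit 3252) (nat_lit 197) (.e (nat_lit 532499) (nat_lit 1) (.e (nat_lit 57927) (nat_lit 282) (.e (nat_lit 163874) (nat_lit 3) (.e (nat_lit 204863) (nat_lit 27) .nil))))) (.g (nat_lit 0) (.e (nat_lit 76884) (nat_lit 0) .nil) .nil)))) (.nd (nat_lit 9) 
(.lf (nat_lit 466362) (.g (nat_lit 2759) (.e (nat_lit 3249) (nat_lit 197) (.e (nat_lit 532550) (nat_lit 12) (.e (nat_lit 360475) (nat_lit 8) (.e (nat_lit 557087) (nat_lit 11) (.e (nat_lit 24588) (nat_lit 0) .nil))))) (.g (nat_lit 0) (.e (nat_lit 76395) (nat_lit 0) .nil) .nil))) 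
(.lf (nat_lit 466874) (.g (nat_lit 3990) (.e (nat_lit 3253) (nat_lit 197) (.e (nat_lit 532499) (nat_lit 1) (.e (nat_lit 57926) (nat_lit 282) (.e (nat_lit 163874) (nat_lit 3) (.e (nat_lit 204862) (nat_lit 27) (.e (nat_lit 344117) (nat_lit 21) (.e (nat_lit 516130) (nat_lit 3) (.e (nat_lit 221204) (nat_lit 20) .nil)))))))) (.g (nat_lit 1) (.e (nat_lit 77246) (nat_lit 0) .nil) .nil)))))) 
(.nd (nat_lit 7) (.nd (nat_lit 8) (.nd (nat_lit 9) 
(.lf (nat_lit 466042) (.g (nat_lit 2236) (.e (nat_lit 3248) (nat_lit 197) (.e (nat_lit 532513) (nat_lit 3) (.e (nat_lit 114714) (nat_lit 22) (.e (nat_lit 90174) (nat_lit 14) (.e (nat_lit 180243) (nat_lit 5) (.e (nat_lit 532499) (nat_lit 1) (.e (nat_lit 57687) (nat_lit 156) (.e (nat_lit 163844) (nat_lit 0) .nil)))))))) (.g (nat_lit 1) (.e (nat_lit 75776) (nat_lit 0) .nil) .nil))) 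
(.lf (nat_lit 466554) (.g (nat_lit 3052) (.e (nat_lit 3251) (nat_lit 197) (.e (nat_lit 532535) (nat_lit 9) (.e (nat_lit 336099) (nat_lit 9) (.e (nat_lit 336028) (nat_lit 3) .nil)))) (.g (nat_lit 0) (.e (nat_lit 76789) (nat_lit 0) .nil) .nil)))) (.nd (nat_lit 9) 
(.lf (nat_lit 466298) (.g (nat_lit 1335) (.e (nat_lit 3249) (nat_lit 197) (.e (nat_lit 532542) (nat_lit 9) (.e (nat_lit 336213) (nat_lit 13) (.e (nat_lit 393251) (nat_lit 18) .nil)))) (.g (nat_lit 0) (.e (nat_lit 76219) (nat_lit 0) .nil) .nil))) 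
(.lf (nat_lit 466810) (.g (nat_lit 3696) (.e (nat_lit 3252) (nat_lit 197) (.e (nat_lit 532560) (nat_lit 14) (.e (nat_lit 376868) (nat_lit 23) (.e (nat_lit 98350) (nat_lit 24) (.e (nat_lit 409645) (nat_lit 18) (.e (nat_lit 303112) (nat_lit 0) .nil)))))) (.g (nat_lit 1) (.e (nat_lit 77144) (nat_lit 0) .nil) .nil))))) (.nd (nat_lit 8) (.nd (nat_lit 9) 
(.lf (nat_lit 466170) (.g (nat_lit 2423) (.e (nat_lit 3249) (nat_lit 197) (.e (nat_lit 532504) (nat_lit 1) (.e (nat_lit 57851) (nat_lit 252) (.e (nat_lit 57406) (nat_lit 12) (.e (nat_lit 336456) (nat_lit 34) (.e (nat_lit 483391) (nat_lit 23) (.e (nat_lit 336246) (nat_lit 15) .nil))))))) (.g (nat_lit 1) (.e (nat_lit 75950) (nat_lit 0) .nil) .nil))) 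
(.lf (nat_lit 466682) (.g (nat_lit 5447) (.e (nat_lit 3252) (nat_lit 197) (.e (nat_lit 532535) (nat_lit 9) (.e (nat_lit 336099) (nat_lit 9) (.e (nat_lit 336013) (nat_lit 2) (.e (nat_lit 90146) (nat_lit 9) .nil))))) (.g (nat_lit 0) (.e (nat_lit 76993) (nat_lit 0) .nil) .nil)))) (.nd (nat_lit 9) 
(.lf (nat_lit 466426) (.g (nat_lit 2817) (.e (nat_lit 3249) (nat_lit 197) (.e (nat_lit 532569) (nat_lit 16) (.e (nat_lit 401448) (nat_lit 10) (.e (nat_lit 434232) (nat_lit 23) (.e (nat_lit 532490) (nat_lit 0) (.e (nat_lit 6674) (nat_lit 357) (.e (nat_lit 2939) (nat_lit 184) (.e (nat_lit 425984) (nat_lit 0) .nil)))))))) (.g (nat_lit 1) (.e (nat_lit 76539) (nat_lit 0) .nil) .nil))) 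
(.lf (nat_lit 466938) (.g (nat_lit 3182) (.e (nat_lit 3253) (nat_lit 197) (.e (nat_lit 532499) (nat_lit 1) (.e (nat_lit 57927) (nat_lit 282) (.e (nat_lit 163873) (nat_lit 3) (.e (nat_lit 204854) (nat_lit 26) (.e (nat_lit 336019) (nat_lit 3) (.e (nat_lit 98341) (nat_lit 20) (.e (nat_lit 221204) (nat_lit 20) .nil)))))))) (.g (nat_lit 1) (.e (nat_lit 77334) (nat_lit 0) .nil) .nil)))))))))) 
(.nd (nat_lit 3) (.nd (nat_lit 4) (.nd (nat_lit 5) (.nd (nat_lit 6) (.nd (nat_lit 7) 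
(.nd (nat_lit 8) (.nd (nat_lit 9) 
(.lf (nat_lit 465926) (.g (nat_lit 4933) (.e (nat_lit 3242) (nat_lit 197) (.e (nat_lit 532550) (nat_lit 12) (.e (nat_lit 360474) (nat_lit 8) (.e (nat_lit 557093) (nat_lit 12) (.e (nat_lit 164023) (nat_lit 46) (.e (nat_lit 704735) (nat_lit 11) (.e (nat_lit 16389) (nat_lit 0) .nil))))))) (.g (nat_lit 1) (.e (nat_lit 75649) (nat_lit 0) .nil) .nil))) 
(.lf (nat_lit 466438) (.g (nat_lit 1625) (.e (nat_lit 3249) (nat_lit 197) (.e (nat_lit 532569) (nat_lit 16) (.e (nat_lit 401448) (nat_lit 10) (.e (nat_lit 434248) (nat_lit 28) .nil)))) (.g (nat_lit 0) (.e (nat_lit 76557) (nat_lit 0) .nil) .nil)))) (.nd (nat_lit 9) 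
(.lf (nat_lit 466182) (.g (nat_lit 2639) (.e (nat_lit 3249) (nat_lit 197) (.e (nat_lit 532504) (nat_lit 1) (.e (nat_lit 57852) (nat_lit 252) (.e (nat_lit 57447) (nat_lit 19) (.e (nat_lit 393229) (nat_lit 9) (.e (nat_lit 336086) (nat_lit 9) (.e (nat_lit 336284) (nat_lit 15) .nil))))))) (.g (nat_lit 1) (.e (nat_lit 75965) (nat_lit 0) .nil) .nil))) 
(.lf (nat_lit 466694) (.g (nat_lit 2341) (.e (nat_lit 3252) (nat_lit 197) (.e (nat_lit 532535) (nat_lit 9) (.e (nat_lit 336173) (nat_lit 10) (.e (nat_lit 344119) (nat_lit 21) .nil)))) (.g (nat_lit 0) (.e (nat_lit 77005) (nat_lit 0) .nil) .nil))))) (.nd (nat_lit 8) (.nd (nat_lit 9) 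
(.lf (nat_lit 466054) (.g (nat_lit 4643) (.e (nat_lit 3248) (nat_lit 197) (.e (nat_lit 532515) (nat_lit 3) (.e (nat_lit 114716) (nat_lit 22) (.e (nat_lit 90172) (nat_lit 14) (.e (nat_lit 180244) (nat_lit 5) (.e (nat_lit 532503) (nat_lit 1) (.e (nat_lit 57687) (nat_lit 156) (.e (nat_lit 163844) (nat_lit 0) .nil)))))))) (.g (nat_lit 1) (.e (nat_lit 75790) (nat_lit 0) .nil) .nil))) 
(.lf (nat_lit 466566) (.g (nat_lit 4611) (.e (nat_lit 3251) (nat_lit 197) (.e (nat_lit 532550) (nat_lit 12) (.e (nat_lit 360474) (nat_lit 8) (.e (nat_lit 557094) (nat_lit 12) (.e (nat_lit 164022) (nat_lit 46) (.e (nat_lit 704737) (nat_lit 11) (.e (nat_lit 16397) (nat_lit 0) .nil))))))) (.g (nat_lit 1) (.e (nat_lit 76802) (nat_lit 0) .nil) .nil)))) (.nd (nat_lit 9) 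
(.lf (nat_lit 466310) (.g (nat_lit 3029) (.e (nat_lit 3249) (nat_lit 197) (.e (nat_lit 532549) (nat_lit 12) (.e (nat_lit 360475) (nat_lit 8) (.e (nat_lit 557085) (nat_lit 11) .nil)))) (.g (nat_lit 0) (.e (nat_lit 76319) (nat_lit 0) .nil) .nil))) 
(.lf (nat_lit 466822) (.g (nat_lit 1877) (.e (nat_lit 3252) (nat_lit 197) (.e (nat_lit 532561) (nat_lit 14) (.e (nat_lit 376865) (nat_lit 22) (.e (nat_lit 90128) (nat_lit 9) (.e (nat_lit 7936) (nat_lit 182) (.e (nat_lit 409646) (nat_lit 18) (.e (nat_lit 303112) (nat_lit 0) .nil))))))) (.g (nat_lit 1) (.e (nat_lit 77158) (nat_lit 0) .nil) .nil)))))) 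
(.nd (nat_lit 7) (.nd (nat_lit 8) (.nd (nat_lit 9) 
(.lf (nat_lit 465990) (.g (nat_lit 2308) (.e (nat_lit 3248) (nat_lit 197) (.e (nat_lit 532503) (nat_lit 1) (.e (nat_lit 57931) (nat_lit 282) (.e (nat_lit 163866) (nat_lit 2) (.e (nat_lit 196670) (nat_lit 14) (.e (nat_lit 73746) (nat_lit 3) (.e (nat_lit 516129) (nat_lit 3) (.e (nat_lit 221197) (nat_lit 20) .nil)))))))) (.g (nat_lit 1) (.e (nat_lit 75719) (nat_lit 0) .nil) .nil))) 
(.lf (nat_lit 466502) (.g (nat_lit 3251) (.e (nat_lit 3251) (nat_lit 197) (.e (nat_lit 532501) (nat_lit 1) (.e (nat_lit 57852) (nat_lit 252) (.e (nat_lit 57406) (nat_lit 12) (.e (nat_lit 336454) (nat_lit 34) (.e (nat_lit 483385) (nat_lit 23) (.e (nat_lit 336260) (nat_lit 15) .nil))))))) (.g (nat_lit 1) (.e (nat_lit 76689) (nat_lit 0) .nil) .nil)))) (.nd (nat_lit 9) 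
(.lf (nat_lit 466246) (.g (nat_lit 2796) (.e (nat_lit 3249) (nat_lit 197) (.e (nat_lit 532523) (nat_lit 7) (.e (nat_lit 319531) (nat_lit 16) (.e (nat_lit 286733) (nat_lit 2) (.e (nat_lit 90176) (nat_lit 15) .nil))))) (.g (nat_lit 0) (.e (nat_lit 76123) (nat_lit 0) .nil) .nil))) 
(.lf (nat_lit 466758) (.g (nat_lit 3565) (.e (nat_lit 3252) (nat_lit 197) (.e (nat_lit 532550) (nat_lit 12) (.e (nat_lit 360474) (nat_lit 8) (.e (nat_lit 557093) (nat_lit 12) (.e (nat_lit 164023) (nat_lit 46) (.e (nat_lit 704735) (nat_lit 11) (.e (nat_lit 16399) (nat_lit 0) .nil))))))) (.g (nat_lit 1) (.e (nat_lit 77089) (nat_lit 0) .nil) .nil))))) (.nd (nat_lit 8) (.nd (nat_lit 9) 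
(.lf (nat_lit 466118) (.g (nat_lit 2143) (.e (nat_lit 3249) (nat_lit 197) (.e (nat_lit 532500) (nat_lit 1) (.e (nat_lit 57851) (nat_lit 252) (.e (nat_lit 57406) (nat_lit 12) (.e (nat_lit 336456) (nat_lit 34) .nil))))) (.g (nat_lit 0) (.e (nat_lit 75891) (nat_lit 0) .nil) .nil))) 
(.lf (nat_lit 466630) (.g (nat_lit 2684) (.e (nat_lit 3252) (nat_lit 197) (.e (nat_lit 532501) (nat_lit 1) (.e (nat_lit 57851) (nat_lit 252) (.e (nat_lit 57406) (nat_lit 12) (.e (nat_lit 336456) (nat_lit 34) (.e (nat_lit 483379) (nat_lit 23) (.e (nat_lit 336261) (nat_lit 15) .nil))))))) (.g (nat_lit 1) (.e (nat_lit 76903) (nat_lit 0) .nil) .nil)))) (.nd (nat_lit 9) 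
(.lf (nat_lit 466374) (.g (nat_lit 2212) (.e (nat_lit 3249) (nat_lit 197) (.e (nat_lit 532550) (nat_lit 12) (.e (nat_lit 360475) (nat_lit 8) (.e (nat_lit 557091) (nat_lit 12) .nil)))) (.g (nat_lit 0) (.e (nat_lit 76407) (nat_lit 0) .nil) .nil))) 
(.lf (nat_lit 466886) (.g (nat_lit 3337) (.e (nat_lit 3253) (nat_lit 197) (.e (nat_lit 532499) (nat_lit 1) (.e (nat_lit 57927) (nat_lit 282) (.e (nat_lit 163866) (nat_lit 2) (.e (nat_lit 196670) (nat_lit 14) (.e (nat_lit 73746) (nat_lit 3) (.e (nat_lit 516129) (nat_lit 3) (.e (nat_lit 221204) (nat_lit 20) .nil)))))))) (.g (nat_lit 1) (.e (nat_lit 77264) (nat_lit 0) .nil) .nil))))))) 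
(.nd (nat_lit 6) (.nd (nat_lit 7) (.nd (nat_lit 8) (.nd (nat_lit 9) 
(.lf (nat_lit 465958) (.g (nat_lit 4845) (.e (nat_lit 3242) (nat_lit 197) (.e (nat_lit 532550) (nat_lit 12) (.e (nat_lit 360475) (nat_lit 8) (.e (nat_lit 557091) (nat_lit 12) (.e (nat_lit 164022) (nat_lit 46) (.e (nat_lit 704737) (nat_lit 11) (.e (nat_lit 16389) (nat_lit 0) .nil))))))) (.g (nat_lit 1) (.e (nat_lit 75682) (nat_lit 0) .nil) .nil))) 
(.lf (nat_lit 466470) (.g (nat_lit 2629) (.e (nat_lit 3250) (nat_lit 197) (.e (nat_lit 532504) (nat_lit 1) (.e (nat_lit 57851) (nat_lit 252) (.e (nat_lit 57406) (nat_lit 12) (.e (nat_lit 336456) (nat_lit 34) (.e (nat_lit 483379) (nat_lit 23) (.e (nat_lit 336258) (nat_lit 15) .nil))))))) (.g (nat_lit 1) (.e (nat_lit 76646) (nat_lit 0) .nil) .nil)))) (.nd (nat_lit 9) 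
(.lf (nat_lit 466214) (.g (nat_lit 2027) (.e (nat_lit 3249) (nat_lit 197) (.e (nat_lit 532513) (nat_lit 3) (.e (nat_lit 114714) (nat_lit 22) (.e (nat_lit 90172) (nat_lit 14) (.e (nat_lit 180244) (nat_lit 5) (.e (nat_lit 532499) (nat_lit 1) (.e (nat_lit 57691) (nat_lit 156) (.e (nat_lit 163855) (nat_lit 0) .nil)))))))) (.g (nat_lit 1) (.e (nat_lit 76026) (nat_lit 0) .nil) .nil))) 
(.lf (nat_lit 466726) (.g (nat_lit 3547) (.e (nat_lit 3252) (nat_lit 197) (.e (nat_lit 532550) (nat_lit 12) (.e (nat_lit 360466) (nat_lit 3) (.e (nat_lit 516139) (nat_lit 7) (.e (nat_lit 417536) (nat_lit 18) .nil))))) (.g (nat_lit 0) (.e (nat_lit 77049) (nat_lit 0) .nil) .nil))))) (.nd (nat_lit 8) (.nd (nat_lit 9) 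
(.lf (nat_lit 466086) (.g (nat_lit 2716) (.e (nat_lit 3249) (nat_lit 197) (.e (nat_lit 532499) (nat_lit 1) (.e (nat_lit 57926) (nat_lit 282) (.e (nat_lit 163868) (nat_lit 2) (.e (nat_lit 196668) (nat_lit 14) (.e (nat_lit 73746) (nat_lit 3) (.e (nat_lit 516129) (nat_lit 3) (.e (nat_lit 221202) (nat_lit 20) .nil)))))))) (.g (nat_lit 1) (.e (nat_lit 75850) (nat_lit 0) .nil) .nil))) 
(.lf (nat_lit 466598) (.g (nat_lit 2338) (.e (nat_lit 3252) (nat_lit 197) (.e (nat_lit 532499) (nat_lit 1) (.e (nat_lit 57926) (nat_lit 282) (.e (nat_lit 163869) (nat_lit 2) (.e (nat_lit 196670) (nat_lit 14) (.e (nat_lit 73746) (nat_lit 3) (.e (nat_lit 516131) (nat_lit 3) (.e (nat_lit 221195) (nat_lit 20) .nil)))))))) (.g (nat_lit 1) (.e (nat_lit 76839) (nat_lit 0) .nil) .nil)))) (.nd (nat_lit 9) 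
(.lf (nat_lit 466342) (.g (nat_lit 3660) (.e (nat_lit 3249) (nat_lit 197) (.e (nat_lit 532550) (nat_lit 12) (.e (nat_lit 360474) (nat_lit 8) (.e (nat_lit 557094) (nat_lit 12) (.e (nat_lit 164022) (nat_lit 46) (.e (nat_lit 704738) (nat_lit 11) (.e (nat_lit 16401) (nat_lit 0) .nil))))))) (.g (nat_lit 1) (.e (nat_lit 76375) (nat_lit 0) .nil) .nil))) 
(.lf (nat_lit 466854) (.g (nat_lit 2964) (.e (nat_lit 3253) (nat_lit 197) (.e (nat_lit 532499) (nat_lit 1) (.e (nat_lit 57926) (nat_lit 282) (.e (nat_lit 163868) (nat_lit 2) (.e (nat_lit 196668) (nat_lit 14) (.e (nat_lit 73747) (nat_lit 3) (.e (nat_lit 516131) (nat_lit 3) (.e (nat_lit 221204) (nat_lit 20) .nil)))))))) (.g (nat_lit 1) (.e (nat_lit 77221) (nat_lit 0) .nil) .nil)))))) 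
(.nd (nat_lit 7) (.nd (nat_lit 8) (.nd (nat_lit 9) 
(.lf (nat_lit 466022) (.g (nat_lit 1802) (.e (nat_lit 3248) (nat_lit 197) (.e (nat_lit 532504) (nat_lit 1) (.e (nat_lit 57854) (nat_lit 252) (.e (nat_lit 57447) (nat_lit 19) .nil)))) (.g (nat_lit 0) (.e (nat_lit 75755) (nat_lit 0) .nil) .nil))) 
(.lf (nat_lit 466534) (.g (nat_lit 1830) (.e (nat_lit 3251) (nat_lit 197) (.e (nat_lit 532510) (nat_lit 2) (.e (nat_lit 106536) (nat_lit 11) (.e (nat_lit 16413) (nat_lit 2) (.e (nat_lit 196672) (nat_lit 15) (.e (nat_lit 81924) (nat_lit 0) .nil)))))) (.g (nat_lit 1) (.e (nat_lit 76734) (nat_lit 0) .nil) .nil)))) (.nd (nat_lit 9) 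
(.lf (nat_lit 466278) (.g (nat_lit 2571) (.e (nat_lit 3249) (nat_lit 197) (.e (nat_lit 532526) (nat_lit 8) (.e (nat_lit 327698) (nat_lit 8) (.e (nat_lit 303117) (nat_lit 2) (.e (nat_lit 196669) (nat_lit 14) (.e (nat_lit 73779) (nat_lit 32) (.e (nat_lit 2505) (nat_lit 157) .nil))))))) (.g (nat_lit 1) (.e (nat_lit 76155) (nat_lit 0) .nil) .nil))) 
(.lf (nat_lit 466790) (.g (nat_lit 3185) (.e (nat_lit 3252) (nat_lit 197) (.e (nat_lit 532551) (nat_lit 12) (.e (nat_lit 360467) (nat_lit 3) (.e (nat_lit 516139) (nat_lit 7) (.e (nat_lit 409648) (nat_lit 18) (.e (nat_lit 303109) (nat_lit 0) .nil)))))) (.g (nat_lit 1) (.e (nat_lit 77122) (nat_lit 0) .nil) .nil))))) (.nd (nat_lit 8) (.nd (nat_lit 9) 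
(.lf (nat_lit 466150) (.g (nat_lit 2623) (.e (nat_lit 3249) (nat_lit 197) (.e (nat_lit 532503) (nat_lit 1) (.e (nat_lit 57931) (nat_lit 282) (.e (nat_lit 163867) (nat_lit 2) (.e (nat_lit 196668) (nat_lit 14) (.e (nat_lit 73747) (nat_lit 3) (.e (nat_lit 516131) (nat_lit 3) (.e (nat_lit 221202) (nat_lit 20) .nil)))))))) (.g (nat_lit 1) (.e (nat_lit 75925) (nat_lit 0) .nil) .nil))) 
(.lf (nat_lit 466662) (.g (nat_lit 4743) (.e (nat_lit 3252) (nat_lit 197) (.e (nat_lit 532513) (nat_lit 3) (.e (nat_lit 114714) (nat_lit 22) (.e (nat_lit 90172) (nat_lit 14) (.e (nat_lit 180244) (nat_lit 5) (.e (nat_lit 532499) (nat_lit 1) (.e (nat_lit 57688) (nat_lit 156) (.e (nat_lit 163850) (nat_lit 0) .nil)))))))) (.g (nat_lit 1) (.e (nat_lit 76952) (nat_lit 0) .nil) .nil)))) (.nd (nat_lit 9) 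
(.lf (nat_lit 466406) (.g (nat_lit 1987) (.e (nat_lit 3249) (nat_lit 197) (.e (nat_lit 532569) (nat_lit 16) (.e (nat_lit 401434) (nat_lit 9) (.e (nat_lit 426125) (nat_lit 2) (.e (nat_lit 196661) (nat_lit 12) .nil))))) (.g (nat_lit 0) (.e (nat_lit 76480) (nat_lit 0) .nil) .nil))) 
(.lf (nat_lit 466918) (.g (nat_lit 3917) (.e (nat_lit 3253) (nat_lit 197) (.e (nat_lit 532499) (nat_lit 1) (.e (nat_lit 57927) (nat_lit 282) (.e (nat_lit 163869) (nat_lit 2) (.e (nat_lit 196668) (nat_lit 14) (.e (nat_lit 73747) (nat_lit 3) (.e (nat_lit 516129) (nat_lit 3) (.e (nat_lit 221203) (nat_lit 20) .nil)))))))) (.g (nat_lit 1) (.e (nat_lit 77300) (nat_lit 0) .nil) .nil)))))))) 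
(.nd (nat_lit 5) (.nd (nat_lit 6) (.nd (nat_lit 7) (.nd (nat_lit 8) (.nd (nat_lit 9) 
(.lf (nat_lit 465942) (.g (nat_lit 4371) (.e (nat_lit 3242) (nat_lit 197) (.e (nat_lit 532550) (nat_lit 12) (.e (nat_lit 360474) (nat_lit 8) (.e (nat_lit 557094) (nat_lit 12) (.e (nat_lit 164022) (nat_lit 46) (.e (nat_lit 704737) (nat_lit 11) (.e (nat_lit 16391) (nat_lit 0) .nil))))))) (.g (nat_lit 1) (.e (nat_lit 75665) (nat_lit 0) .nil) .nil))) 
(.lf (nat_lit 466454) (.g (nat_lit 2884) (.e (nat_lit 3250) (nat_lit 197) (.e (nat_lit 532499) (nat_lit 1) (.e (nat_lit 57927) (nat_lit 282) (.e (nat_lit 163869) (nat_lit 2) (.e (nat_lit 196668) (nat_lit 14) (.e (nat_lit 73747) (nat_lit 3) (.e (nat_lit 516129) (nat_lit 3) (.e (nat_lit 221196) (nat_lit 20) .nil)))))))) (.g (nat_lit 1) (.e (nat_lit 76628) (nat_lit 0) .nil) .nil)))) (.nd (nat_lit 9) 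
(.lf (nat_lit 466198) (.g (nat_lit 1478) (.e (nat_lit 3249) (nat_lit 197) (.e (nat_lit 532508) (nat_lit 2) (.e (nat_lit 106534) (nat_lit 11) (.e (nat_lit 16416) (nat_lit 3) (.e (nat_lit 204876) (nat_lit 31) (.e (nat_lit 376833) (nat_lit 0) .nil)))))) (.g (nat_lit 1) (.e (nat_lit 75983) (nat_lit 0) .nil) .nil))) 
(.lf (nat_lit 466710) (.g (nat_lit 4578) (.e (nat_lit 3252) (nat_lit 197) (.e (nat_lit 532549) (nat_lit 12) (.e (nat_lit 360466) (nat_lit 3) (.e (nat_lit 516138) (nat_lit 7) (.e (nat_lit 409646) (nat_lit 18) (.e (nat_lit 303112) (nat_lit 0) .nil)))))) (.g (nat_lit 1) (.e (nat_lit 77025) (nat_lit 0) .nil) .nil))))) (.nd (nat_lit 8) (.nd (nat_lit 9) 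
(.lf (nat_lit 466070) (.g (nat_lit 4664) (.e (nat_lit 3248) (nat_lit 197) (.e (nat_lit 532550) (nat_lit 12) (.e (nat_lit 360474) (nat_lit 8) (.e (nat_lit 557093) (nat_lit 12) (.e (nat_lit 164022) (nat_lit 46) .nil))))) (.g (nat_lit 0) (.e (nat_lit 75825) (nat_lit 0) .nil) .nil))) 
(.lf (nat_lit 466582) (.g (nat_lit 1885) (.e (nat_lit 3252) (nat_lit 197) (.e (nat_lit 532499) (nat_lit 1) (.e (nat_lit 57847) (nat_lit 252) (.e (nat_lit 57408) (nat_lit 12) .nil)))) (.g (nat_lit 0) (.e (nat_lit 76819) (nat_lit 0) .nil) .nil)))) (.nd (nat_lit 9) 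
(.lf (nat_lit 466326) (.g (nat_lit 2736) (.e (nat_lit 3249) (nat_lit 197) (.e (nat_lit 532550) (nat_lit 12) (.e (nat_lit 360474) (nat_lit 8) (.e (nat_lit 557070) (nat_lit 9) (.e (nat_lit 7936) (nat_lit 22) (.e (nat_lit 344067) (nat_lit 0) (.e (nat_lit 2505) (nat_lit 157) .nil))))))) (.g (nat_lit 1) (.e (nat_lit 76358) (nat_lit 0) .nil) .nil))) 
(.lf (nat_lit 466838) (.g (nat_lit 2082) (.e (nat_lit 3253) (nat_lit 197) (.e (nat_lit 532499) (nat_lit 1) (.e (nat_lit 57847) (nat_lit 252) (.e (nat_lit 57354) (nat_lit 0) .nil)))) (.g (nat_lit 0) (.e (nat_lit 77204) (nat_lit 0) .nil) .nil)))))) (.nd (nat_lit 7) (.nd (nat_lit 8) (.nd (nat_lit 9) 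
(.lf (nat_lit 466006) (.g (nat_lit 2738) (.e (nat_lit 3248) (nat_lit 197) (.e (nat_lit 532503) (nat_lit 1) (.e (nat_lit 57931) (nat_lit 282) (.e (nat_lit 163874) (nat_lit 3) (.e (nat_lit 204862) (nat_lit 27) .nil))))) (.g (nat_lit 0) (.e (nat_lit 75737) (nat_lit 0) .nil) .nil))) 
(.lf (nat_lit 466518) (.g (nat_lit 2767) (.e (nat_lit 3251) (nat_lit 197) (.e (nat_lit 532504) (nat_lit 1) (.e (nat_lit 57851) (nat_lit 252) (.e (nat_lit 57406) (nat_lit 12) (.e (nat_lit 336456) (nat_lit 34) (.e (nat_lit 483393) (nat_lit 23) (.e (nat_lit 336291) (nat_lit 15) .nil))))))) (.g (nat_lit 1) (.e (nat_lit 76716) (nat_lit 0) .nil) .nil)))) (.nd (nat_lit 9) 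
(.lf (nat_lit 466262) (.g (nat_lit 1446) (.e (nat_lit 3249) (nat_lit 197) (.e (nat_lit 532523) (nat_lit 7) (.e (nat_lit 319532) (nat_lit 16) (.e (nat_lit 286735) (nat_lit 3) .nil)))) (.g (nat_lit 0) (.e (nat_lit 76139) (nat_lit 0) .nil) .nil))) 
(.lf (nat_lit 466774) (.g (nat_lit 4479) (.e (nat_lit 3252) (nat_lit 197) (.e (nat_lit 532550) (nat_lit 12) (.e (nat_lit 360475) (nat_lit 8) (.e (nat_lit 557085) (nat_lit 11) .nil)))) (.g (nat_lit 0) (.e (nat_lit 77106) (nat_lit 0) .nil) .nil))))) (.nd (nat_lit 8) (.nd (nat_lit 9) 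
(.lf (nat_lit 466134) (.g (nat_lit 2608) (.e (nat_lit 3249) (nat_lit 197) (.e (nat_lit 532503) (nat_lit 1) (.e (nat_lit 57847) (nat_lit 252) (.e (nat_lit 57448) (nat_lit 19) (.e (nat_lit 393229) (nat_lit 9) (.e (nat_lit 336086) (nat_lit 9) (.e (nat_lit 336284) (nat_lit 15) .nil))))))) (.g (nat_lit 1) (.e (nat_lit 75907) (nat_lit 0) .nil) .nil))) 
(.lf (nat_lit 466646) (.g (nat_lit 1256) (.e (nat_lit 3252) (nat_lit 197) (.e (nat_lit 532504) (nat_lit 1) (.e (nat_lit 57851) (nat_lit 252) (.e (nat_lit 57406) (nat_lit 12) .nil)))) (.g (nat_lit 0) (.e (nat_lit 76925) (nat_lit 0) .nil) .nil)))) (.nd (nat_lit 9) 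
(.lf (nat_lit 466390) (.g (nat_lit 3037) (.e (nat_lit 3249) (nat_lit 197) (.e (nat_lit 532559) (nat_lit 14) (.e (nat_lit 376865) (nat_lit 22) (.e (nat_lit 90185) (nat_lit 17) (.e (nat_lit 237585) (nat_lit 1) (.e (nat_lit 164403) (nat_lit 256) (.e (nat_lit 65280) (nat_lit 61) .nil))))))) (.g (nat_lit 1) (.e (nat_lit 76451) (nat_lit 0) .nil) .nil))) 
(.lf (nat_lit 466902) (.g (nat_lit 4736) (.e (nat_lit 3253) (nat_lit 197) (.e (nat_lit 532499) (nat_lit 1) (.e (nat_lit 57927) (nat_lit 282) (.e (nat_lit 163868) (nat_lit 2) (.e (nat_lit 196668) (nat_lit 14) (.e (nat_lit 73747) (nat_lit 3) (.e (nat_lit 516129) (nat_lit 3) (.e (nat_lit 221204) (nat_lit 20) .nil)))))))) (.g (nat_lit 1) (.e (nat_lit 77280) (nat_lit 0) .nil) .nil))))))) 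
(.nd (nat_lit 6) (.nd (nat_lit 7) (.nd (nat_lit 8) (.nd (nat_lit 9) 
(.lf (nat_lit 465974) (.g (nat_lit 514) (.e (nat_lit 3248) (nat_lit 197) (.e (nat_lit 532503) (nat_lit 1) (.e (nat_lit 57848) (nat_lit 252) .nil))) (.g (nat_lit 0) (.e (nat_lit 75701) (nat_lit 0) .nil) .nil))) 
(.lf (nat_lit 466486) (.g (nat_lit 4610) (.e (nat_lit 3250) (nat_lit 197) (.e (nat_lit 532550) (nat_lit 12) (.e (nat_lit 360475) (nat_lit 8) (.e (nat_lit 557085) (nat_lit 11) .nil)))) (.g (nat_lit 0) (.e (nat_lit 76671) (nat_lit 0) .nil) .nil)))) (.nd (nat_lit 9) 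
(.lf (nat_lit 466230) (.g (nat_lit 1326) (.e (nat_lit 3249) (nat_lit 197) (.e (nat_lit 532523) (nat_lit 7) (.e (nat_lit 319529) (nat_lit 16) (.e (nat_lit 286735) (nat_lit 3) .nil)))) (.g (nat_lit 0) (.e (nat_lit 76107) (nat_lit 0) .nil) .nil))) 
(.lf (nat_lit 466742) (.g (nat_lit 2758) (.e (nat_lit 3252) (nat_lit 197) (.e (nat_lit 532550) (nat_lit 12) (.e (nat_lit 360468) (nat_lit 3) (.e (nat_lit 516139) (nat_lit 7) (.e (nat_lit 409647) (nat_lit 18) .nil))))) (.g (nat_lit 0) (.e (nat_lit 77070) (nat_lit 0) .nil) .nil))))) (.nd (nat_lit 8) (.nd (nat_lit 9) 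
(.lf (nat_lit 466102) (.g (nat_lit 3093) (.e (nat_lit 3249) (nat_lit 197) (.e (nat_lit 532499) (nat_lit 1) (.e (nat_lit 57927) (nat_lit 282) (.e (nat_lit 163869) (nat_lit 2) (.e (nat_lit 196670) (nat_lit 14) (.e (nat_lit 73746) (nat_lit 3) (.e (nat_lit 516131) (nat_lit 3) (.e (nat_lit 221202) (nat_lit 20) .nil)))))))) (.g (nat_lit 1) (.e (nat_lit 75871) (nat_lit 0) .nil) .nil))) 
(.lf (nat_lit 466614) (.g (nat_lit 3335) (.e (nat_lit 3252) (nat_lit 197) (.e (nat_lit 532499) (nat_lit 1) (.e (nat_lit 57927) (nat_lit 282) (.e (nat_lit 163871) (nat_lit 2) (.e (nat_lit 196670) (nat_lit 14) (.e (nat_lit 73746) (nat_lit 3) (.e (nat_lit 516129) (nat_lit 3) (.e (nat_lit 221200) (nat_lit 20) .nil)))))))) (.g (nat_lit 1) (.e (nat_lit 76876) (nat_lit 0) .nil) .nil)))) (.nd (nat_lit 9) 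
(.lf (nat_lit 466358) (.g (nat_lit 1980) (.e (nat_lit 3249) (nat_lit 197) (.e (nat_lit 532550) (nat_lit 12) (.e (nat_lit 360475) (nat_lit 8) (.e (nat_lit 557086) (nat_lit 11) .nil)))) (.g (nat_lit 0) (.e (nat_lit 76391) (nat_lit 0) .nil) .nil))) 
(.lf (nat_lit 466870) (.g (nat_lit 2495) (.e (nat_lit 3253) (nat_lit 197) (.e (nat_lit 532499) (nat_lit 1) (.e (nat_lit 57926) (nat_lit 282) (.e (nat_lit 163873) (nat_lit 3) (.e (nat_lit 204853) (nat_lit 26) .nil))))) (.g (nat_lit 0) (.e (nat_lit 77241) (nat_lit 0) .nil) .nil)))))) (.nd (nat_lit 7) (.nd (nat_lit 8) (.nd (nat_lit 9) 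
(.lf (nat_lit 466038) (.g (nat_lit 2302) (.e (nat_lit 3248) (nat_lit 197) (.e (nat_lit 532513) (nat_lit 3) (.e (nat_lit 114714) (nat_lit 22) (.e (nat_lit 90172) (nat_lit 14) (.e (nat_lit 180243) (nat_lit 5) (.e (nat_lit 532503) (nat_lit 1) (.e (nat_lit 57687) (nat_lit 156) (.e (nat_lit 163844) (nat_lit 0) .nil)))))))) (.g (nat_lit 1) (.e (nat_lit 75772) (nat_lit 0) .nil) .nil))) 
(.lf (nat_lit 466550) (.g (nat_lit 879) (.e (nat_lit 3251) (nat_lit 197) (.e (nat_lit 532530) (nat_lit 9) (.e (nat_lit 336326) (nat_lit 18) .nil))) (.g (nat_lit 0) (.e (nat_lit 76784) (nat_lit 0) .nil) .nil)))) (.nd (nat_lit 9) 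
(.lf (nat_lit 466294) (.g (nat_lit 1697) (.e (nat_lit 3249) (nat_lit 197) (.e (nat_lit 532542) (nat_lit 9) (.e (nat_lit 336194) (nat_lit 12) (.e (nat_lit 385066) (nat_lit 26) (.e (nat_lit 532515) (nat_lit 3) (.e (nat_lit 114695) (nat_lit 11) (.e (nat_lit 426072) (nat_lit 0) .nil))))))) (.g (nat_lit 1) (.e (nat_lit 76215) (nat_lit 0) .nil) .nil))) 
(.lf (nat_lit 466806) (.g (nat_lit 1449) (.e (nat_lit 3252) (nat_lit 197) (.e (nat_lit 532560) (nat_lit 14) (.e (nat_lit 376865) (nat_lit 22) (.e (nat_lit 90130) (nat_lit 9) .nil)))) (.g (nat_lit 0) (.e (nat_lit 77139) (nat_lit 0) .nil) .nil))))) (.nd (nat_lit 8) (.nd (nat_lit 9) 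
(.lf (nat_lit 466166) (.g (nat_lit 1439) (.e (nat_lit 3249) (nat_lit 197) (.e (nat_lit 532504) (nat_lit 1) (.e (nat_lit 57851) (nat_lit 252) (.e (nat_lit 57406) (nat_lit 12) (.e (nat_lit 336456) (nat_lit 34) .nil))))) (.g (nat_lit 0) (.e (nat_lit 75946) (nat_lit 0) .nil) .nil))) 
(.lf (nat_lit 466678) (.g (nat_lit 5447) (.e (nat_lit 3252) (nat_lit 197) (.e (nat_lit 532535) (nat_lit 9) (.e (nat_lit 336099) (nat_lit 9) (.e (nat_lit 336013) (nat_lit 2) (.e (nat_lit 90131) (nat_lit 9) .nil))))) (.g (nat_lit 0) (.e (nat_lit 76989) (nat_lit 0) .nil) .nil)))) (.nd (nat_lit 9) 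
(.lf (nat_lit 466422) (.g (nat_lit 1576) (.e (nat_lit 3249) (nat_lit 197) (.e (nat_lit 532569) (nat_lit 16) (.e (nat_lit 401448) (nat_lit 10) (.e (nat_lit 434232) (nat_lit 23) .nil)))) (.g (nat_lit 0) (.e (nat_lit 76535) (nat_lit 0) .nil) .nil))) 
(.lf (nat_lit 466934) (.g (nat_lit 2893) (.e (nat_lit 3253) (nat_lit 197) (.e (nat_lit 532499) (nat_lit 1) (.e (nat_lit 57927) (nat_lit 282) (.e (nat_lit 163871) (nat_lit 2) (.e (nat_lit 196670) (nat_lit 14) (.e (nat_lit 73746) (nat_lit 3) (.e (nat_lit 516131) (nat_lit 3) (.e (nat_lit 221204) (nat_lit 20) .nil)))))))) (.g (nat_lit 1) (.e (nat_lit 77330) (nat_lit 0) .nil) .nil))))))))) 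
(.nd (nat_lit 4) (.nd (nat_lit 5) (.nd (nat_lit 6) (.nd (nat_lit 7) (.nd (nat_lit 8) 
(.nd (nat_lit 9) 
(.lf (nat_lit 465934) (.g (nat_lit 4010) (.e (nat_lit 3242) (nat_lit 197) (.e (nat_lit 532550) (nat_lit 12) (.e (nat_lit 360474) (nat_lit 8) (.e (nat_lit 557094) (nat_lit 12) (.e (nat_lit 164022) (nat_lit 46) .nil))))) (.g (nat_lit 0) (.e (nat_lit 75657) (nat_lit 0) .nil) .nil))) 
(.lf (nat_lit 466446) (.g (nat_lit 1536) (.e (nat_lit 3249) (nat_lit 197) (.e (nat_lit 532569) (nat_lit 16) (.e (nat_lit 401453) (nat_lit 12) (.e (nat_lit 475185) (nat_lit 29) .nil)))) (.g (nat_lit 0) (.e (nat_lit 76566) (nat_lit 0) .nil) .nil)))) (.nd (nat_lit 9) 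
(.lf (nat_lit 466190) (.g (nat_lit 1423) (.e (nat_lit 3249) (nat_lit 197) (.e (nat_lit 532506) (nat_lit 2) (.e (nat_lit 106536) (nat_lit 11) (.e (nat_lit 16412) (nat_lit 2) (.e (nat_lit 196674) (nat_lit 15) .nil))))) (.g (nat_lit 0) (.e (nat_lit 75973) (nat_lit 0) .nil) .nil))) 
(.lf (nat_lit 466702) (.g (nat_lit 3520) (.e (nat_lit 3252) (nat_lit 197) (.e (nat_lit 532547) (nat_lit 11) (.e (nat_lit 352315) (nat_lit 23) (.e (nat_lit 98349) (nat_lit 24) (.e (nat_lit 409644) (nat_lit 18) (.e (nat_lit 303112) (nat_lit 0) .nil)))))) (.g (nat_lit 1) (.e (nat_lit 77017) (nat_lit 0) .nil) .nil))))) (.nd (nat_lit 8) (.nd (nat_lit 9) 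
(.lf (nat_lit 466062) (.g (nat_lit 3346) (.e (nat_lit 3248) (nat_lit 197) (.e (nat_lit 532515) (nat_lit 3) (.e (nat_lit 114719) (nat_lit 23) (.e (nat_lit 98365) (nat_lit 26) (.e (nat_lit 426133) (nat_lit 3) (.e (nat_lit 204829) (nat_lit 18) (.e (nat_lit 57688) (nat_lit 156) (.e (nat_lit 163844) (nat_lit 0) .nil)))))))) (.g (nat_lit 1) (.e (nat_lit 75804) (nat_lit 0) .nil) .nil))) 
(.lf (nat_lit 466574) (.g (nat_lit 6761) (.e (nat_lit 3251) (nat_lit 197) (.e (nat_lit 532550) (nat_lit 12) (.e (nat_lit 360475) (nat_lit 8) (.e (nat_lit 557091) (nat_lit 12) (.e (nat_lit 164022) (nat_lit 46) (.e (nat_lit 704738) (nat_lit 11) (.e (nat_lit 16397) (nat_lit 0) .nil))))))) (.g (nat_lit 1) (.e (nat_lit 76810) (nat_lit 0) .nil) .nil)))) (.nd (nat_lit 9) 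
(.lf (nat_lit 466318) (.g (nat_lit 800) (.e (nat_lit 3249) (nat_lit 197) (.e (nat_lit 532550) (nat_lit 12) (.e (nat_lit 360451) (nat_lit 0) .nil))) (.g (nat_lit 0) (.e (nat_lit 76333) (nat_lit 0) .nil) .nil))) 
(.lf (nat_lit 466830) (.g (nat_lit 2445) (.e (nat_lit 3252) (nat_lit 197) (.e (nat_lit 532569) (nat_lit 16) (.e (nat_lit 401448) (nat_lit 10) (.e (nat_lit 434232) (nat_lit 23) .nil)))) (.g (nat_lit 0) (.e (nat_lit 77172) (nat_lit 0) .nil) .nil)))))) (.nd (nat_lit 7) (.nd (nat_lit 8) (.nd (nat_lit 9) 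
(.lf (nat_lit 465998) (.g (nat_lit 3836) (.e (nat_lit 3248) (nat_lit 197) (.e (nat_lit 532503) (nat_lit 1) (.e (nat_lit 57931) (nat_lit 282) (.e (nat_lit 163867) (nat_lit 2) (.e (nat_lit 196670) (nat_lit 14) (.e (nat_lit 73746) (nat_lit 3) (.e (nat_lit 516131) (nat_lit 3) (.e (nat_lit 221198) (nat_lit 20) .nil)))))))) (.g (nat_lit 1) (.e (nat_lit 75727) (nat_lit 0) .nil) .nil))) 
(.lf (nat_lit 466510) (.g (nat_lit 2591) (.e (nat_lit 3251) (nat_lit 197) (.e (nat_lit 532503) (nat_lit 1) (.e (nat_lit 57931) (nat_lit 282) (.e (nat_lit 163869) (nat_lit 2) (.e (nat_lit 196670) (nat_lit 14) (.e (nat_lit 73746) (nat_lit 3) (.e (nat_lit 516129) (nat_lit 3) (.e (nat_lit 221195) (nat_lit 20) .nil)))))))) (.g (nat_lit 1) (.e (nat_lit 76706) (nat_lit 0) .nil) .nil)))) (.nd (nat_lit 9) 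
(.lf (nat_lit 466254) (.g (nat_lit 3191) (.e (nat_lit 3249) (nat_lit 197) (.e (nat_lit 532523) (nat_lit 7) (.e (nat_lit 319531) (nat_lit 16) (.e (nat_lit 286735) (nat_lit 3) (.e (nat_lit 98363) (nat_lit 26) (.e (nat_lit 426230) (nat_lit 9) (.e (nat_lit 426073) (nat_lit 0) .nil))))))) (.g (nat_lit 1) (.e (nat_lit 76131) (nat_lit 0) .nil) .nil))) 
(.lf (nat_lit 466766) (.g (nat_lit 3193) (.e (nat_lit 3252) (nat_lit 197) (.e (nat_lit 532550) (nat_lit 12) (.e (nat_lit 360474) (nat_lit 8) (.e (nat_lit 557094) (nat_lit 12) (.e (nat_lit 164022) (nat_lit 46) (.e (nat_lit 704736) (nat_lit 11) (.e (nat_lit 16399) (nat_lit 0) .nil))))))) (.g (nat_lit 1) (.e (nat_lit 77097) (nat_lit 0) .nil) .nil))))) (.nd (nat_lit 8) (.nd (nat_lit 9) 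
(.lf (nat_lit 466126) (.g (nat_lit 1781) (.e (nat_lit 3249) (nat_lit 197) (.e (nat_lit 532501) (nat_lit 1) (.e (nat_lit 57851) (nat_lit 252) (.e (nat_lit 57406) (nat_lit 12) .nil)))) (.g (nat_lit 0) (.e (nat_lit 75899) (nat_lit 0) .nil) .nil))) 
(.lf (nat_lit 466638) (.g (nat_lit 921) (.e (nat_lit 3252) (nat_lit 197) (.e (nat_lit 532501) (nat_lit 1) (.e (nat_lit 57926) (nat_lit 282) .nil))) (.g (nat_lit 0) (.e (nat_lit 76913) (nat_lit 0) .nil) .nil)))) (.nd (nat_lit 9) 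
(.lf (nat_lit 466382) (.g (nat_lit 4107) (.e (nat_lit 3249) (nat_lit 197) (.e (nat_lit 532550) (nat_lit 12) (.e (nat_lit 360475) (nat_lit 8) (.e (nat_lit 557092) (nat_lit 12) .nil)))) (.g (nat_lit 0) (.e (nat_lit 76415) (nat_lit 0) .nil) .nil))) 
(.lf (nat_lit 466894) (.g (nat_lit 4644) (.e (nat_lit 3253) (nat_lit 197) (.e (nat_lit 532499) (nat_lit 1) (.e (nat_lit 57927) (nat_lit 282) (.e (nat_lit 163868) (nat_lit 2) (.e (nat_lit 196663) (nat_lit 13) (.e (nat_lit 65571) (nat_lit 3) (.e (nat_lit 98341) (nat_lit 20) (.e (nat_lit 221204) (nat_lit 20) .nil)))))))) (.g (nat_lit 1) (.e (nat_lit 77272) (nat_lit 0) .nil) .nil))))))) 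
(.nd (nat_lit 6) (.nd (nat_lit 7) (.nd (nat_lit 8) (.nd (nat_lit 9) 
(.lf (nat_lit 465966) (.g (nat_lit 2463) (.e (nat_lit 3248) (nat_lit 197) (.e (nat_lit 532501) (nat_lit 1) (.e (nat_lit 57851) (nat_lit 252) (.e (nat_lit 57406) (nat_lit 12) (.e (nat_lit 336456) (nat_lit 34) (.e (nat_lit 483391) (nat_lit 23) (.e (nat_lit 336239) (nat_lit 15) .nil))))))) (.g (nat_lit 1) (.e (nat_lit 75690) (nat_lit 0) .nil) .nil))) 
(.lf (nat_lit 466478) (.g (nat_lit 6464) (.e (nat_lit 3250) (nat_lit 197) (.e (nat_lit 532535) (nat_lit 9) (.e (nat_lit 336173) (nat_lit 10) (.e (nat_lit 344126) (nat_lit 25) (.e (nat_lit 548889) (nat_lit 9) (.e (nat_lit 65630) (nat_lit 14) (.e (nat_lit 401412) (nat_lit 0) .nil))))))) (.g (nat_lit 1) (.e (nat_lit 76657) (nat_lit 0) .nil) .nil)))) (.nd (nat_lit 9) 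
(.lf (nat_lit 466222) (.g (nat_lit 2077) (.e (nat_lit 3249) (nat_lit 197) (.e (nat_lit 532523) (nat_lit 7) (.e (nat_lit 319505) (nat_lit 10) (.e (nat_lit 5714) (nat_lit 312) (.e (nat_lit 2682) (nat_lit 168) .nil))))) (.g (nat_lit 0) (.e (nat_lit 76096) (nat_lit 0) .nil) .nil))) 
(.lf (nat_lit 466734) (.g (nat_lit 4720) (.e (nat_lit 3252) (nat_lit 197) (.e (nat_lit 532550) (nat_lit 12) (.e (nat_lit 360467) (nat_lit 3) (.e (nat_lit 516139) (nat_lit 7) (.e (nat_lit 409648) (nat_lit 18) (.e (nat_lit 303109) (nat_lit 0) .nil)))))) (.g (nat_lit 1) (.e (nat_lit 77060) (nat_lit 0) .nil) .nil))))) (.nd (nat_lit 8) (.nd (nat_lit 9) 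
(.lf (nat_lit 466094) (.g (nat_lit 2398) (.e (nat_lit 3249) (nat_lit 197) (.e (nat_lit 532499) (nat_lit 1) (.e (nat_lit 57927) (nat_lit 282) (.e (nat_lit 163868) (nat_lit 2) (.e (nat_lit 196663) (nat_lit 13) (.e (nat_lit 65571) (nat_lit 3) (.e (nat_lit 98342) (nat_lit 20) (.e (nat_lit 221202) (nat_lit 20) .nil)))))))) (.g (nat_lit 1) (.e (nat_lit 75859) (nat_lit 0) .nil) .nil))) 
(.lf (nat_lit 466606) (.g (nat_lit 3688) (.e (nat_lit 3252) (nat_lit 197) (.e (nat_lit 532499) (nat_lit 1) (.e (nat_lit 57927) (nat_lit 282) (.e (nat_lit 163868) (nat_lit 2) (.e (nat_lit 196670) (nat_lit 14) (.e (nat_lit 73746) (nat_lit 3) (.e (nat_lit 516129) (nat_lit 3) (.e (nat_lit 221200) (nat_lit 20) .nil)))))))) (.g (nat_lit 1) (.e (nat_lit 76856) (nat_lit 0) .nil) .nil)))) (.nd (nat_lit 9) 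
(.lf (nat_lit 466350) (.g (nat_lit 3887) (.e (nat_lit 3249) (nat_lit 197) (.e (nat_lit 532550) (nat_lit 12) (.e (nat_lit 360475) (nat_lit 8) (.e (nat_lit 557067) (nat_lit 9) (.e (nat_lit 7936) (nat_lit 22) .nil))))) (.g (nat_lit 0) (.e (nat_lit 76383) (nat_lit 0) .nil) .nil))) 
(.lf (nat_lit 466862) (.g (nat_lit 2406) (.e (nat_lit 3253) (nat_lit 197) (.e (nat_lit 532499) (nat_lit 1) (.e (nat_lit 57926) (nat_lit 282) (.e (nat_lit 163869) (nat_lit 2) (.e (nat_lit 196668) (nat_lit 14) (.e (nat_lit 73747) (nat_lit 3) (.e (nat_lit 516130) (nat_lit 3) (.e (nat_lit 221204) (nat_lit 20) .nil)))))))) (.g (nat_lit 1) (.e (nat_lit 77229) (nat_lit 0) .nil) .nil)))))) 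
(.nd (nat_lit 7) (.nd (nat_lit 8) (.nd (nat_lit 9) 
(.lf (nat_lit 466030) (.g (nat_lit 3519) (.e (nat_lit 3248) (nat_lit 197) (.e (nat_lit 532504) (nat_lit 1) (.e (nat_lit 57931) (nat_lit 282) (.e (nat_lit 163869) (nat_lit 2) (.e (nat_lit 196668) (nat_lit 14) (.e (nat_lit 73747) (nat_lit 3) (.e (nat_lit 516131) (nat_lit 3) (.e (nat_lit 221198) (nat_lit 20) .nil)))))))) (.g (nat_lit 1) (.e (nat_lit 75764) (nat_lit 0) .nil) .nil))) 
(.lf (nat_lit 466542) (.g (nat_lit 1374) (.e (nat_lit 3251) (nat_lit 197) (.e (nat_lit 532511) (nat_lit 2) (.e (nat_lit 106534) (nat_lit 11) (.e (nat_lit 16416) (nat_lit 3) (.e (nat_lit 204876) (nat_lit 31) .nil))))) (.g (nat_lit 0) (.e (nat_lit 76742) (nat_lit 0) .nil) .nil)))) (.nd (nat_lit 9) 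
(.lf (nat_lit 466286) (.g (nat_lit 2700) (.e (nat_lit 3249) (nat_lit 197) (.e (nat_lit 532530) (nat_lit 9) (.e (nat_lit 336326) (nat_lit 18) (.e (nat_lit 204854) (nat_lit 26) (.e (nat_lit 336324) (nat_lit 18) (.e (nat_lit 204854) (nat_lit 26) (.e (nat_lit 336284) (nat_lit 15) .nil))))))) (.g (nat_lit 1) (.e (nat_lit 76189) (nat_lit 0) .nil) .nil))) 
(.lf (nat_lit 466798) (.g (nat_lit 1799) (.e (nat_lit 3252) (nat_lit 197) (.e (nat_lit 532558) (nat_lit 14) (.e (nat_lit 376869) (nat_lit 23) (.e (nat_lit 98349) (nat_lit 24) (.e (nat_lit 409644) (nat_lit 18) (.e (nat_lit 303112) (nat_lit 0) .nil)))))) (.g (nat_lit 1) (.e (nat_lit 77130) (nat_lit 0) .nil) .nil))))) (.nd (nat_lit 8) (.nd (nat_lit 9) 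
(.lf (nat_lit 466158) (.g (nat_lit 3103) (.e (nat_lit 3249) (nat_lit 197) (.e (nat_lit 532503) (nat_lit 1) (.e (nat_lit 57931) (nat_lit 282) (.e (nat_lit 163874) (nat_lit 3) (.e (nat_lit 204862) (nat_lit 27) (.e (nat_lit 344117) (nat_lit 21) (.e (nat_lit 516129) (nat_lit 3) (.e (nat_lit 221202) (nat_lit 20) .nil)))))))) (.g (nat_lit 1) (.e (nat_lit 75938) (nat_lit 0) .nil) .nil))) 
(.lf (nat_lit 466670) (.g (nat_lit 1070) (.e (nat_lit 3252) (nat_lit 197) (.e (nat_lit 532526) (nat_lit 8) (.e (nat_lit 327698) (nat_lit 8) (.e (nat_lit 303119) (nat_lit 3) .nil)))) (.g (nat_lit 0) (.e (nat_lit 76977) (nat_lit 0) .nil) .nil)))) (.nd (nat_lit 9) 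
(.lf (nat_lit 466414) (.g (nat_lit 1430) (.e (nat_lit 3249) (nat_lit 197) (.e (nat_lit 532569) (nat_lit 16) (.e (nat_lit 401440) (nat_lit 9) (.e (nat_lit 426136) (nat_lit 3) .nil)))) (.g (nat_lit 0) (.e (nat_lit 76494) (nat_lit 0) .nil) .nil))) 
(.lf (nat_lit 466926) (.g (nat_lit 3174) (.e (nat_lit 3253) (nat_lit 197) (.e (nat_lit 532499) (nat_lit 1) (.e (nat_lit 57927) (nat_lit 282) (.e (nat_lit 163869) (nat_lit 2) (.e (nat_lit 196670) (nat_lit 14) (.e (nat_lit 73746) (nat_lit 3) (.e (nat_lit 516131) (nat_lit 3) (.e (nat_lit 221203) (nat_lit 20) .nil)))))))) (.g (nat_lit 1) (.e (nat_lit 77308) (nat_lit 0) .nil) .nil)))))))) 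
(.nd (nat_lit 5) (.nd (nat_lit 6) (.nd (nat_lit 7) (.nd (nat_lit 8) (.nd (nat_lit 9) 
(.lf (nat_lit 465950) (.g (nat_lit 3536) (.e (nat_lit 3242) (nat_lit 197) (.e (nat_lit 532550) (nat_lit 12) (.e (nat_lit 360475) (nat_lit 8) (.e (nat_lit 557091) (nat_lit 12) .nil)))) (.g (nat_lit 0) (.e (nat_lit 75674) (nat_lit 0) .nil) .nil))) 
(.lf (nat_lit 466462) (.g (nat_lit 2005) (.e (nat_lit 3250) (nat_lit 197) (.e (nat_lit 532499) (nat_lit 1) (.e (nat_lit 57927) (nat_lit 282) (.e (nat_lit 163875) (nat_lit 3) (.e (nat_lit 204872) (nat_lit 30) (.e (nat_lit 368676) (nat_lit 21) (.e (nat_lit 516131) (nat_lit 3) (.e (nat_lit 221198) (nat_lit 20) .nil)))))))) (.g (nat_lit 1) (.e (nat_lit 76637) (nat_lit 0) .nil) .nil)))) 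
(.nd (nat_lit 9) 
(.lf (nat_lit 466206) (.g (nat_lit 1492) (.e (nat_lit 3249) (nat_lit 197) (.e (nat_lit 532510) (nat_lit 2) (.e (nat_lit 106536) (nat_lit 11) (.e (nat_lit 16416) (nat_lit 3) (.e (nat_lit 204865) (nat_lit 28) .nil))))) (.g (nat_lit 0) (.e (nat_lit 75991) (nat_lit 0) .nil) .nil))) 
(.lf (nat_lit 466718) (.g (nat_lit 3040) (.e (nat_lit 3252) (nat_lit 197) (.e (nat_lit 532550) (nat_lit 12) (.e (nat_lit 360465) (nat_lit 3) (.e (nat_lit 516139) (nat_lit 7) (.e (nat_lit 417536) (nat_lit 18) .nil))))) (.g (nat_lit 0) (.e (nat_lit 77040) (nat_lit 0) .nil) .nil))))) (.nd (nat_lit 8) (.nd (nat_lit 9) 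
(.lf (nat_lit 466078) (.g (nat_lit 1036) (.e (nat_lit 3249) (nat_lit 197) (.e (nat_lit 532486) (nat_lit 0) (.e (nat_lit 6113) (nat_lit 332) (.e (nat_lit 2810) (nat_lit 180) .nil)))) (.g (nat_lit 0) (.e (nat_lit 75841) (nat_lit 0) .nil) .nil))) 
(.lf (nat_lit 466590) (.g (nat_lit 3773) (.e (nat_lit 3252) (nat_lit 197) (.e (nat_lit 532499) (nat_lit 1) (.e (nat_lit 57849) (nat_lit 252) (.e (nat_lit 57411) (nat_lit 12) (.e (nat_lit 336454) (nat_lit 34) (.e (nat_lit 483385) (nat_lit 23) (.e (nat_lit 336260) (nat_lit 15) .nil))))))) (.g (nat_lit 1) (.e (nat_lit 76828) (nat_lit 0) .nil) .nil)))) (.nd (nat_lit 9) 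
(.lf (nat_lit 466334) (.g (nat_lit 4028) (.e (nat_lit 3249) (nat_lit 197) (.e (nat_lit 532550) (nat_lit 12) (.e (nat_lit 360474) (nat_lit 8) (.e (nat_lit 557093) (nat_lit 12) (.e (nat_lit 164022) (nat_lit 46) (.e (nat_lit 704738) (nat_lit 11) (.e (nat_lit 16401) (nat_lit 0) .nil))))))) (.g (nat_lit 1) (.e (nat_lit 76367) (nat_lit 0) .nil) .nil))) 
(.lf (nat_lit 466846) (.g (nat_lit 2728) (.e (nat_lit 3253) (nat_lit 197) (.e (nat_lit 532499) (nat_lit 1) (.e (nat_lit 57926) (nat_lit 282) (.e (nat_lit 163867) (nat_lit 2) (.e (nat_lit 196670) (nat_lit 14) (.e (nat_lit 73746) (nat_lit 3) (.e (nat_lit 516129) (nat_lit 3) (.e (nat_lit 221204) (nat_lit 20) .nil)))))))) (.g (nat_lit 1) (.e (nat_lit 77213) (nat_lit 0) .nil) .nil)))))) 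
(.nd (nat_lit 7) (.nd (nat_lit 8) (.nd (nat_lit 9) 
(.lf (nat_lit 466014) (.g (nat_lit 1869) (.e (nat_lit 3248) (nat_lit 197) (.e (nat_lit 532504) (nat_lit 1) (.e (nat_lit 57851) (nat_lit 252) (.e (nat_lit 57406) (nat_lit 12) (.e (nat_lit 336456) (nat_lit 34) .nil))))) (.g (nat_lit 0) (.e (nat_lit 75747) (nat_lit 0) .nil) .nil))) 
(.lf (nat_lit 466526) (.g (nat_lit 1663) (.e (nat_lit 3251) (nat_lit 197) (.e (nat_lit 532508) (nat_lit 2) (.e (nat_lit 106536) (nat_lit 11) (.e (nat_lit 16416) (nat_lit 3) (.e (nat_lit 204876) (nat_lit 31) (.e (nat_lit 376835) (nat_lit 0) .nil)))))) (.g (nat_lit 1) (.e (nat_lit 76726) (nat_lit 0) .nil) .nil)))) (.nd (nat_lit 9) 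
(.lf (nat_lit 466270) (.g (nat_lit 3399) (.e (nat_lit 3249) (nat_lit 197) (.e (nat_lit 532523) (nat_lit 7) (.e (nat_lit 319534) (nat_lit 16) (.e (nat_lit 286734) (nat_lit 3) (.e (nat_lit 98370) (nat_lit 28) (.e (nat_lit 450304) (nat_lit 20) .nil)))))) (.g (nat_lit 1) (.e (nat_lit 76147) (nat_lit 0) .nil) .nil))) 
(.lf (nat_lit 466782) (.g (nat_lit 3856) (.e (nat_lit 3252) (nat_lit 197) (.e (nat_lit 532550) (nat_lit 12) (.e (nat_lit 360475) (nat_lit 8) (.e (nat_lit 557091) (nat_lit 12) (.e (nat_lit 164022) (nat_lit 46) .nil))))) (.g (nat_lit 0) (.e (nat_lit 77114) (nat_lit 0) .nil) .nil))))) (.nd (nat_lit 8) (.nd (nat_lit 9) 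
(.lf (nat_lit 466142) (.g (nat_lit 2169) (.e (nat_lit 3249) (nat_lit 197) (.e (nat_lit 532503) (nat_lit 1) (.e (nat_lit 57849) (nat_lit 252) (.e (nat_lit 57411) (nat_lit 12) (.e (nat_lit 336454) (nat_lit 34) (.e (nat_lit 483385) (nat_lit 23) (.e (nat_lit 336284) (nat_lit 15) .nil))))))) (.g (nat_lit 1) (.e (nat_lit 75915) (nat_lit 0) .nil) .nil))) 
(.lf (nat_lit 466654) (.g (nat_lit 2446) (.e (nat_lit 3252) (nat_lit 197) (.e (nat_lit 532504) (nat_lit 1) (.e (nat_lit 57851) (nat_lit 252) (.e (nat_lit 57406) (nat_lit 12) (.e (nat_lit 336456) (nat_lit 34) (.e (nat_lit 483383) (nat_lit 23) (.e (nat_lit 336259) (nat_lit 15) .nil))))))) (.g (nat_lit 1) (.e (nat_lit 76934) (nat_lit 0) .nil) .nil)))) (.nd (nat_lit 9) 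
(.lf (nat_lit 466398) (.g (nat_lit 3706) (.e (nat_lit 3249) (nat_lit 197) (.e (nat_lit 532563) (nat_lit 15) (.e (nat_lit 385066) (nat_lit 26) (.e (nat_lit 532534) (nat_lit 9) (.e (nat_lit 336326) (nat_lit 18) (.e (nat_lit 204854) (nat_lit 26) (.e (nat_lit 336284) (nat_lit 15) .nil))))))) (.g (nat_lit 1) (.e (nat_lit 76470) (nat_lit 0) .nil) .nil))) 
(.lf (nat_lit 466910) (.g (nat_lit 3230) (.e (nat_lit 3253) (nat_lit 197) (.e (nat_lit 532499) (nat_lit 1) (.e (nat_lit 57927) (nat_lit 282) (.e (nat_lit 163869) (nat_lit 2) (.e (nat_lit 196663) (nat_lit 13) (.e (nat_lit 65571) (nat_lit 3) (.e (nat_lit 98342) (nat_lit 20) (.e (nat_lit 221204) (nat_lit 20) .nil)))))))) (.g (nat_lit 1) (.e (nat_lit 77288) (nat_lit 0) .nil) .nil))))))) 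
(.nd (nat_lit 6) (.nd (nat_lit 7) (.nd (nat_lit 8) (.nd (nat_lit 9) 
(.lf (nat_lit 465982) (.g (nat_lit 2124) (.e (nat_lit 3248) (nat_lit 197) (.e (nat_lit 532503) (nat_lit 1) (.e (nat_lit 57929) (nat_lit 282) (.e (nat_lit 163874) (nat_lit 3) (.e (nat_lit 204872) (nat_lit 30) .nil))))) (.g (nat_lit 0) (.e (nat_lit 75711) (nat_lit 0) .nil) .nil))) 
(.lf (nat_lit 466494) (.g (nat_lit 2373) (.e (nat_lit 3251) (nat_lit 197) (.e (nat_lit 532501) (nat_lit 1) (.e (nat_lit 57851) (nat_lit 252) (.e (nat_lit 57406) (nat_lit 12) (.e (nat_lit 336367) (nat_lit 27) (.e (nat_lit 426542) (nat_lit 29) (.e (nat_lit 352266) (nat_lit 0) .nil))))))) (.g (nat_lit 1) (.e (nat_lit 76680) (nat_lit 0) .nil) .nil)))) (.nd (nat_lit 9) 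
(.lf (nat_lit 466238) (.g (nat_lit 2952) (.e (nat_lit 3249) (nat_lit 197) (.e (nat_lit 532523) (nat_lit 7) (.e (nat_lit 319530) (nat_lit 16) (.e (nat_lit 286735) (nat_lit 3) (.e (nat_lit 98363) (nat_lit 26) (.e (nat_lit 426230) (nat_lit 9) (.e (nat_lit 425997) (nat_lit 0) .nil))))))) (.g (nat_lit 1) (.e (nat_lit 76115) (nat_lit 0) .nil) .nil))) 
(.lf (nat_lit 466750) (.g (nat_lit 5199) (.e (nat_lit 3252) (nat_lit 197) (.e (nat_lit 532550) (nat_lit 12) (.e (nat_lit 360474) (nat_lit 8) (.e (nat_lit 557093) (nat_lit 12) (.e (nat_lit 164022) (nat_lit 46) (.e (nat_lit 704736) (nat_lit 11) (.e (nat_lit 16396) (nat_lit 0) .nil))))))) (.g (nat_lit 1) (.e (nat_lit 77081) (nat_lit 0) .nil) .nil))))) (.nd (nat_lit 8) (.nd (nat_lit 9) 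
(.lf (nat_lit 466110) (.g (nat_lit 2354) (.e (nat_lit 3249) (nat_lit 197) (.e (nat_lit 532499) (nat_lit 1) (.e (nat_lit 57931) (nat_lit 282) (.e (nat_lit 163867) (nat_lit 2) (.e (nat_lit 196668) (nat_lit 14) .nil))))) (.g (nat_lit 0) (.e (nat_lit 75882) (nat_lit 0) .nil) .nil))) 
(.lf (nat_lit 466622) (.g (nat_lit 2338) (.e (nat_lit 3252) (nat_lit 197) (.e (nat_lit 532499) (nat_lit 1) (.e (nat_lit 57931) (nat_lit 282) (.e (nat_lit 163867) (nat_lit 2) (.e (nat_lit 196670) (nat_lit 14) (.e (nat_lit 73746) (nat_lit 3) (.e (nat_lit 516129) (nat_lit 3) (.e (nat_lit 221195) (nat_lit 20) .nil)))))))) (.g (nat_lit 1) (.e (nat_lit 76892) (nat_lit 0) .nil) .nil)))) (.nd (nat_lit 9) 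
(.lf (nat_lit 466366) (.g (nat_lit 3693) (.e (nat_lit 3249) (nat_lit 197) (.e (nat_lit 532550) (nat_lit 12) (.e (nat_lit 360475) (nat_lit 8) (.e (nat_lit 557087) (nat_lit 11) (.e (nat_lit 24664) (nat_lit 14) (.e (nat_lit 401418) (nat_lit 0) .nil)))))) (.g (nat_lit 1) (.e (nat_lit 76399) (nat_lit 0) .nil) .nil))) 
(.lf (nat_lit 466878) (.g (nat_lit 4159) (.e (nat_lit 3253) (nat_lit 197) (.e (nat_lit 532499) (nat_lit 1) (.e (nat_lit 57926) (nat_lit 282) (.e (nat_lit 163875) (nat_lit 3) (.e (nat_lit 204863) (nat_lit 27) (.e (nat_lit 344117) (nat_lit 21) (.e (nat_lit 516130) (nat_lit 3) (.e (nat_lit 221204) (nat_lit 20) .nil)))))))) (.g (nat_lit 1) (.e (nat_lit 77252) (nat_lit 0) .nil) .nil)))))) 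
(.nd (nat_lit 7) (.nd (nat_lit 8) (.nd (nat_lit 9) 
(.lf (nat_lit 466046) (.g (nat_lit 464) (.e (nat_lit 3248) (nat_lit 197) (.e (nat_lit 532515) (nat_lit 3) (.e (nat_lit 114716) (nat_lit 22) .nil))) (.g (nat_lit 0) (.e (nat_lit 75781) (nat_lit 0) .nil) .nil))) 
(.lf (nat_lit 466558) (.g (nat_lit 1691) (.e (nat_lit 3251) (nat_lit 197) (.e (nat_lit 532549) (nat_lit 12) (.e (nat_lit 360473) (nat_lit 8) (.e (nat_lit 557085) (nat_lit 11) .nil)))) (.g (nat_lit 0) (.e (nat_lit 76793) (nat_lit 0) .nil) .nil)))) (.nd (nat_lit 9) 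
(.lf (nat_lit 466302) (.g (nat_lit 2897) (.e (nat_lit 3249) (nat_lit 197) (.e (nat_lit 532549) (nat_lit 12) (.e (nat_lit 360473) (nat_lit 8) (.e (nat_lit 557091) (nat_lit 12) (.e (nat_lit 164022) (nat_lit 46) (.e (nat_lit 704738) (nat_lit 11) (.e (nat_lit 16401) (nat_lit 0) .nil))))))) (.g (nat_lit 1) (.e (nat_lit 76303) (nat_lit 0) .nil) .nil))) 
(.lf (nat_lit 466814) (.g (nat_lit 3550) (.e (nat_lit 3252) (nat_lit 197) (.e (nat_lit 532560) (nat_lit 14) (.e (nat_lit 376868) (nat_lit 23) (.e (nat_lit 98350) (nat_lit 24) (.e (nat_lit 409649) (nat_lit 18) (.e (nat_lit 303112) (nat_lit 0) .nil)))))) (.g (nat_lit 1) (.e (nat_lit 77148) (nat_lit 0) .nil) .nil))))) (.nd (nat_lit 8) (.nd (nat_lit 9) 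
(.lf (nat_lit 466174) (.g (nat_lit 912) (.e (nat_lit 3249) (nat_lit 197) (.e (nat_lit 532504) (nat_lit 1) (.e (nat_lit 57851) (nat_lit 252) (.e (nat_lit 57446) (nat_lit 19) .nil)))) (.g (nat_lit 0) (.e (nat_lit 75954) (nat_lit 0) .nil) .nil))) 
(.lf (nat_lit 466686) (.g (nat_lit 5241) (.e (nat_lit 3252) (nat_lit 197) (.e (nat_lit 532535) (nat_lit 9) (.e (nat_lit 336099) (nat_lit 9) (.e (nat_lit 336013) (nat_lit 2) (.e (nat_lit 90150) (nat_lit 9) .nil))))) (.g (nat_lit 0) (.e (nat_lit 76997) (nat_lit 0) .nil) .nil)))) (.nd (nat_lit 9) 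
(.lf (nat_lit 466430) (.g (nat_lit 2379) (.e (nat_lit 3249) (nat_lit 197) (.e (nat_lit 532569) (nat_lit 16) (.e (nat_lit 401448) (nat_lit 10) (.e (nat_lit 434234) (nat_lit 23) (.e (nat_lit 532523) (nat_lit 7) .nil))))) (.g (nat_lit 0) (.e (nat_lit 76547) (nat_lit 0) .nil) .nil))) 
(.lf (nat_lit 466942) (.g (nat_lit 3624) (.e (nat_lit 3253) (nat_lit 197) (.e (nat_lit 532499) (nat_lit 1) (.e (nat_lit 57927) (nat_lit 282) (.e (nat_lit 163874) (nat_lit 3) (.e (nat_lit 204853) (nat_lit 26) (.e (nat_lit 336019) (nat_lit 3) (.e (nat_lit 98342) (nat_lit 20) (.e (nat_lit 221204) (nat_lit 20) .nil)))))))) (.g (nat_lit 1) (.e (nat_lit 77340) (nat_lit 0) .nil) .nil)))))))))))) 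
(.nd (nat_lit 1) (.nd (nat_lit 2) (.nd (nat_lit 3) (.nd (nat_lit 4) (.nd (nat_lit 5) 
(.nd (nat_lit 6) (.nd (nat_lit 7) (.nd (nat_lit 8) (.nd (nat_lit 9) 
(.lf (nat_lit 465921) (.g (nat_lit 5155) (.e (nat_lit 3242) (nat_lit 197) (.e (nat_lit 532550) (nat_lit 12) (.e (nat_lit 360474) (nat_lit 8) (.e (nat_lit 557093) (nat_lit 12) (.e (nat_lit 164022) (nat_lit 46) (.e (nat_lit 704737) (nat_lit 11) (.e (nat_lit 16385) (nat_lit 0) .nil))))))) (.g (nat_lit 1) (.e (nat_lit 75644) (nat_lit 0) .nil) .nil))) 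
(.lf (nat_lit 466433) (.g (nat_lit 2464) (.e (nat_lit 3249) (nat_lit 197) (.e (nat_lit 532569) (nat_lit 16) (.e (nat_lit 401448) (nat_lit 10) (.e (nat_lit 434244) (nat_lit 28) (.e (nat_lit 573471) (nat_lit 11) (.e (nat_lit 16444) (nat_lit 9) (.e (nat_lit 426072) (nat_lit 0) .nil))))))) (.g (nat_lit 1) (.e (nat_lit 76551) (nat_lit 0) .nil) .nil)))) (.nd (nat_lit 9) 
(.lf (nat_lit 466177) (.g (nat_lit 1959) (.e (nat_lit 3249) (nat_lit 197) (.e (nat_lit 532504) (nat_lit 1) (.e (nat_lit 57852) (nat_lit 252) (.e (nat_lit 57378) (nat_lit 3) .nil)))) (.g (nat_lit 0) (.e (nat_lit 75957) (nat_lit 0) .nil) .nil))) 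
(.lf (nat_lit 466689) (.g (nat_lit 5466) (.e (nat_lit 3252) (nat_lit 197) (.e (nat_lit 532535) (nat_lit 9) (.e (nat_lit 336099) (nat_lit 9) (.e (nat_lit 336028) (nat_lit 3) (.e (nat_lit 98349) (nat_lit 24) (.e (nat_lit 409644) (nat_lit 18) (.e (nat_lit 303112) (nat_lit 0) .nil))))))) (.g (nat_lit 1) (.e (nat_lit 77000) (nat_lit 0) .nil) .nil))))) (.nd (nat_lit 8) (.nd (nat_lit 9) 
(.lf (nat_lit 466049) (.g (nat_lit 2778) (.e (nat_lit 3248) (nat_lit 197) (.e (nat_lit 532515) (nat_lit 3) (.e (nat_lit 114716) (nat_lit 22) (.e (nat_lit 90172) (nat_lit 14) (.e (nat_lit 180243) (nat_lit 5) (.e (nat_lit 532503) (nat_lit 1) (.e (nat_lit 57685) (nat_lit 156) (.e (nat_lit 163844) (nat_lit 0) .nil)))))))) (.g (nat_lit 1) (.e (nat_lit 75785) (nat_lit 0) .nil) .nil))) 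
(.lf (nat_lit 466561) (.g (nat_lit 4638) (.e (nat_lit 3251) (nat_lit 197) (.e (nat_lit 532550) (nat_lit 12) (.e (nat_lit 360474) (nat_lit 8) (.e (nat_lit 557085) (nat_lit 11) (.e (nat_lit 24665) (nat_lit 14) (.e (nat_lit 401413) (nat_lit 0) .nil)))))) (.g (nat_lit 1) (.e (nat_lit 76797) (nat_lit 0) .nil) .nil)))) (.nd (nat_lit 9) 
(.lf (nat_lit 466305) (.g (nat_lit 1443) (.e (nat_lit 3249) (nat_lit 197) (.e (nat_lit 532549) (nat_lit 12) (.e (nat_lit 360473) (nat_lit 8) (.e (nat_lit 557094) (nat_lit 12) .nil)))) (.g (nat_lit 0) (.e (nat_lit 76306) (nat_lit 0) .nil) .nil))) 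
(.lf (nat_lit 466817) (.g (nat_lit 2133) (.e (nat_lit 3252) (nat_lit 197) (.e (nat_lit 532560) (nat_lit 14) (.e (nat_lit 376869) (nat_lit 23) (.e (nat_lit 98350) (nat_lit 24) (.e (nat_lit 409644) (nat_lit 18) .nil))))) (.g (nat_lit 0) (.e (nat_lit 77151) (nat_lit 0) .nil) .nil)))))) (.nd (nat_lit 7) (.nd (nat_lit 8) (.nd (nat_lit 9) 
(.lf (nat_lit 465985) (.g (nat_lit 2337) (.e (nat_lit 3248) (nat_lit 197) (.e (nat_lit 532503) (nat_lit 1) (.e (nat_lit 57930) (nat_lit 282) (.e (nat_lit 163867) (nat_lit 2) (.e (nat_lit 196670) (nat_lit 14) (.e (nat_lit 73746) (nat_lit 3) (.e (nat_lit 516129) (nat_lit 3) (.e (nat_lit 221197) (nat_lit 20) .nil)))))))) (.g (nat_lit 1) (.e (nat_lit 75714) (nat_lit 0) .nil) .nil))) 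
(.lf (nat_lit 466497) (.g (nat_lit 2459) (.e (nat_lit 3251) (nat_lit 197) (.e (nat_lit 532501) (nat_lit 1) (.e (nat_lit 57851) (nat_lit 252) (.e (nat_lit 57406) (nat_lit 12) (.e (nat_lit 336456) (nat_lit 34) (.e (nat_lit 483379) (nat_lit 23) (.e (nat_lit 336259) (nat_lit 15) .nil))))))) (.g (nat_lit 1) (.e (nat_lit 76683) (nat_lit 0) .nil) .nil)))) (.nd (nat_lit 9) 
(.lf (nat_lit 466241) (.g (nat_lit 3194) (.e (nat_lit 3249) (nat_lit 197) (.e (nat_lit 532523) (nat_lit 7) (.e (nat_lit 319530) (nat_lit 16) (.e (nat_lit 286735) (nat_lit 3) (.e (nat_lit 98363) (nat_lit 26) (.e (nat_lit 426230) (nat_lit 9) (.e (nat_lit 426074) (nat_lit 0) .nil))))))) (.g (nat_lit 1) (.e (nat_lit 76118) (nat_lit 0) .nil) .nil))) 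
(.lf (nat_lit 466753) (.g (nat_lit 4033) (.e (nat_lit 3252) (nat_lit 197) (.e (nat_lit 532550) (nat_lit 12) (.e (nat_lit 360474) (nat_lit 8) (.e (nat_lit 557093) (nat_lit 12) (.e (nat_lit 164022) (nat_lit 46) (.e (nat_lit 704737) (nat_lit 11) (.e (nat_lit 16399) (nat_lit 0) .nil))))))) (.g (nat_lit 1) (.e (nat_lit 77084) (nat_lit 0) .nil) .nil))))) (.nd (nat_lit 8) (.nd (nat_lit 9) 
(.lf (nat_lit 466113) (.g (nat_lit 3904) (.e (nat_lit 3249) (nat_lit 197) (.e (nat_lit 532499) (nat_lit 1) (.e (nat_lit 57931) (nat_lit 282) (.e (nat_lit 163869) (nat_lit 2) (.e (nat_lit 196670) (nat_lit 14) (.e (nat_lit 73746) (nat_lit 3) (.e (nat_lit 516129) (nat_lit 3) (.e (nat_lit 221202) (nat_lit 20) .nil)))))))) (.g (nat_lit 1) (.e (nat_lit 75886) (nat_lit 0) .nil) .nil))) 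
(.lf (nat_lit 466625) (.g (nat_lit 2850) (.e (nat_lit 3252) (nat_lit 197) (.e (nat_lit 532500) (nat_lit 1) (.e (nat_lit 57852) (nat_lit 252) (.e (nat_lit 57406) (nat_lit 12) (.e (nat_lit 336454) (nat_lit 34) (.e (nat_lit 483385) (nat_lit 23) (.e (nat_lit 336260) (nat_lit 15) .nil))))))) (.g (nat_lit 1) (.e (nat_lit 76897) (nat_lit 0) .nil) .nil)))) (.nd (nat_lit 9) 
(.lf (nat_lit 466369) (.g (nat_lit 2941) (.e (nat_lit 3249) (nat_lit 197) (.e (nat_lit 532550) (nat_lit 12) (.e (nat_lit 360475) (nat_lit 8) (.e (nat_lit 557089) (nat_lit 12) (.e (nat_lit 163844) (nat_lit 0) .nil))))) (.g (nat_lit 0) (.e (nat_lit 76402) (nat_lit 0) .nil) .nil))) 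
(.lf (nat_lit 466881) (.g (nat_lit 2389) (.e (nat_lit 3253) (nat_lit 197) (.e (nat_lit 532499) (nat_lit 1) (.e (nat_lit 57927) (nat_lit 282) (.e (nat_lit 163866) (nat_lit 2) (.e (nat_lit 196668) (nat_lit 14) (.e (nat_lit 73746) (nat_lit 3) (.e (nat_lit 516129) (nat_lit 3) (.e (nat_lit 221204) (nat_lit 20) .nil)))))))) (.g (nat_lit 1) (.e (nat_lit 77259) (nat_lit 0) .nil) .nil))))))) 
(.nd (nat_lit 6) (.nd (nat_lit 7) (.nd (nat_lit 8) (.nd (nat_lit 9) 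
(.lf (nat_lit 465953) (.g (nat_lit 4697) (.e (nat_lit 3242) (nat_lit 197) (.e (nat_lit 532550) (nat_lit 12) (.e (nat_lit 360475) (nat_lit 8) (.e (nat_lit 557091) (nat_lit 12) (.e (nat_lit 164022) (nat_lit 46) (.e (nat_lit 704736) (nat_lit 11) (.e (nat_lit 16385) (nat_lit 0) .nil))))))) (.g (nat_lit 1) (.e (nat_lit 75677) (nat_lit 0) .nil) .nil))) 
(.lf (nat_lit 466465) (.g (nat_lit 2482) (.e (nat_lit 3250) (nat_lit 197) (.e (nat_lit 532503) (nat_lit 1) (.e (nat_lit 57931) (nat_lit 282) (.e (nat_lit 163867) (nat_lit 2) (.e (nat_lit 196668) (nat_lit 14) (.e (nat_lit 73747) (nat_lit 3) (.e (nat_lit 516129) (nat_lit 3) (.e (nat_lit 221196) (nat_lit 20) .nil)))))))) (.g (nat_lit 1) (.e (nat_lit 76640) (nat_lit 0) .nil) .nil)))) (.nd (nat_lit 9) 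
(.lf (nat_lit 466209) (.g (nat_lit 1456) (.e (nat_lit 3249) (nat_lit 197) (.e (nat_lit 532511) (nat_lit 2) (.e (nat_lit 106536) (nat_lit 11) (.e (nat_lit 16413) (nat_lit 2) (.e (nat_lit 196672) (nat_lit 15) (.e (nat_lit 89856) (nat_lit 0) .nil)))))) (.g (nat_lit 1) (.e (nat_lit 75994) (nat_lit 0) .nil) .nil))) 
(.lf (nat_lit 466721) (.g (nat_lit 2069) (.e (nat_lit 3252) (nat_lit 197) (.e (nat_lit 532550) (nat_lit 12) (.e (nat_lit 360466) (nat_lit 3) (.e (nat_lit 516139) (nat_lit 7) .nil)))) (.g (nat_lit 0) (.e (nat_lit 77044) (nat_lit 0) .nil) .nil))))) (.nd (nat_lit 8) (.nd (nat_lit 9) 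
(.lf (nat_lit 466081) (.g (nat_lit 3829) (.e (nat_lit 3249) (nat_lit 197) (.e (nat_lit 532486) (nat_lit 0) (.e (nat_lit 6113) (nat_lit 332) (.e (nat_lit 1374) (nat_lit 104) (.e (nat_lit 303119) (nat_lit 3) (.e (nat_lit 204846) (nat_lit 24) (.e (nat_lit 319505) (nat_lit 10) (.e (nat_lit 5712) (nat_lit 312) (.e (nat_lit 2508) (nat_lit 157) .nil))))))))) (.g (nat_lit 1) (.e (nat_lit 75844) (nat_lit 0) .nil) .nil))) 
(.lf (nat_lit 466593) (.g (nat_lit 2275) (.e (nat_lit 3252) (nat_lit 197) (.e (nat_lit 532499) (nat_lit 1) (.e (nat_lit 57854) (nat_lit 252) (.e (nat_lit 57409) (nat_lit 12) (.e (nat_lit 336454) (nat_lit 34) (.e (nat_lit 483385) (nat_lit 23) (.e (nat_lit 336260) (nat_lit 15) .nil))))))) (.g (nat_lit 1) (.e (nat_lit 76831) (nat_lit 0) .nil) .nil)))) (.nd (nat_lit 9) 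
(.lf (nat_lit 466337) (.g (nat_lit 3811) (.e (nat_lit 3249) (nat_lit 197) (.e (nat_lit 532550) (nat_lit 12) (.e (nat_lit 360474) (nat_lit 8) (.e (nat_lit 557093) (nat_lit 12) (.e (nat_lit 164023) (nat_lit 46) (.e (nat_lit 704738) (nat_lit 11) (.e (nat_lit 16401) (nat_lit 0) .nil))))))) (.g (nat_lit 1) (.e (nat_lit 76370) (nat_lit 0) .nil) .nil))) 
(.lf (nat_lit 466849) (.g (nat_lit 2872) (.e (nat_lit 3253) (nat_lit 197) (.e (nat_lit 532499) (nat_lit 1) (.e (nat_lit 57926) (nat_lit 282) (.e (nat_lit 163868) (nat_lit 2) (.e (nat_lit 196668) (nat_lit 14) (.e (nat_lit 73746) (nat_lit 3) (.e (nat_lit 516129) (nat_lit 3) (.e (nat_lit 221203) (nat_lit 20) .nil)))))))) (.g (nat_lit 1) (.e (nat_lit 77216) (nat_lit 0) .nil) .nil)))))) 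
(.nd (nat_lit 7) (.nd (nat_lit 8) (.nd (nat_lit 9) 
(.lf (nat_lit 466017) (.g (nat_lit 3019) (.e (nat_lit 3248) (nat_lit 197) (.e (nat_lit 532504) (nat_lit 1) (.e (nat_lit 57851) (nat_lit 252) (.e (nat_lit 57406) (nat_lit 12) (.e (nat_lit 336456) (nat_lit 34) (.e (nat_lit 483391) (nat_lit 23) (.e (nat_lit 336239) (nat_lit 15) .nil))))))) (.g (nat_lit 1) (.e (nat_lit 75750) (nat_lit 0) .nil) .nil))) 
(.lf (nat_lit 466529) (.g (nat_lit 1401) (.e (nat_lit 3251) (nat_lit 197) (.e (nat_lit 532510) (nat_lit 2) (.e (nat_lit 106534) (nat_lit 11) (.e (nat_lit 16412) (nat_lit 2) (.e (nat_lit 196674) (nat_lit 15) (.e (nat_lit 81922) (nat_lit 0) .nil)))))) (.g (nat_lit 1) (.e (nat_lit 76729) (nat_lit 0) .nil) .nil)))) (.nd (nat_lit 9) 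
(.lf (nat_lit 466273) (.g (nat_lit 2456) (.e (nat_lit 3249) (nat_lit 197) (.e (nat_lit 532523) (nat_lit 7) (.e (nat_lit 319534) (nat_lit 16) (.e (nat_lit 286734) (nat_lit 3) (.e (nat_lit 98381) (nat_lit 31) (.e (nat_lit 474880) (nat_lit 20) .nil)))))) (.g (nat_lit 1) (.e (nat_lit 76150) (nat_lit 0) .nil) .nil))) 
(.lf (nat_lit 466785) (.g (nat_lit 6077) (.e (nat_lit 3252) (nat_lit 197) (.e (nat_lit 532550) (nat_lit 12) (.e (nat_lit 360475) (nat_lit 8) (.e (nat_lit 557091) (nat_lit 12) (.e (nat_lit 164022) (nat_lit 46) (.e (nat_lit 704737) (nat_lit 11) (.e (nat_lit 16396) (nat_lit 0) .nil))))))) (.g (nat_lit 1) (.e (nat_lit 77117) (nat_lit 0) .nil) .nil))))) (.nd (nat_lit 8) (.nd (nat_lit 9) 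
(.lf (nat_lit 466145) (.g (nat_lit 2344) (.e (nat_lit 3249) (nat_lit 197) (.e (nat_lit 532503) (nat_lit 1) (.e (nat_lit 57931) (nat_lit 282) (.e (nat_lit 163867) (nat_lit 2) (.e (nat_lit 196663) (nat_lit 13) .nil))))) (.g (nat_lit 0) (.e (nat_lit 75920) (nat_lit 0) .nil) .nil))) 
(.lf (nat_lit 466657) (.g (nat_lit 1742) (.e (nat_lit 3252) (nat_lit 197) (.e (nat_lit 532504) (nat_lit 1) (.e (nat_lit 57851) (nat_lit 252) (.e (nat_lit 57446) (nat_lit 19) (.e (nat_lit 393229) (nat_lit 9) (.e (nat_lit 336087) (nat_lit 9) (.e (nat_lit 336303) (nat_lit 15) .nil))))))) (.g (nat_lit 1) (.e (nat_lit 76938) (nat_lit 0) .nil) .nil)))) (.nd (nat_lit 9) 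
(.lf (nat_lit 466401) (.g (nat_lit 1483) (.e (nat_lit 3249) (nat_lit 197) (.e (nat_lit 532563) (nat_lit 15) (.e (nat_lit 385066) (nat_lit 26) (.e (nat_lit 532565) (nat_lit 15) .nil)))) (.g (nat_lit 0) (.e (nat_lit 76473) (nat_lit 0) .nil) .nil))) 
(.lf (nat_lit 466913) (.g (nat_lit 4455) (.e (nat_lit 3253) (nat_lit 197) (.e (nat_lit 532499) (nat_lit 1) (.e (nat_lit 57927) (nat_lit 282) (.e (nat_lit 163869) (nat_lit 2) (.e (nat_lit 196666) (nat_lit 13) (.e (nat_lit 65569) (nat_lit 3) (.e (nat_lit 98342) (nat_lit 20) (.e (nat_lit 221204) (nat_lit 20) .nil)))))))) (.g (nat_lit 1) (.e (nat_lit 77293) (nat_lit 0) .nil) .nil)))))))) 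
(.nd (nat_lit 5) (.nd (nat_lit 6) (.nd (nat_lit 7) (.nd (nat_lit 8) (.nd (nat_lit 9) 
(.lf (nat_lit 465937) (.g (nat_lit 4574) (.e (nat_lit 3242) (nat_lit 197) (.e (nat_lit 532550) (nat_lit 12) (.e (nat_lit 360474) (nat_lit 8) (.e (nat_lit 557094) (nat_lit 12) (.e (nat_lit 164022) (nat_lit 46) (.e (nat_lit 704736) (nat_lit 11) (.e (nat_lit 16389) (nat_lit 0) .nil))))))) (.g (nat_lit 1) (.e (nat_lit 75660) (nat_lit 0) .nil) .nil))) 
(.lf (nat_lit 466449) (.g (nat_lit 1974) (.e (nat_lit 3250) (nat_lit 197) (.e (nat_lit 532499) (nat_lit 1) (.e (nat_lit 57927) (nat_lit 282) (.e (nat_lit 163866) (nat_lit 2) (.e (nat_lit 196668) (nat_lit 14) (.e (nat_lit 73747) (nat_lit 3) (.e (nat_lit 516131) (nat_lit 3) (.e (nat_lit 221198) (nat_lit 20) .nil)))))))) (.g (nat_lit 1) (.e (nat_lit 76623) (nat_lit 0) .nil) .nil)))) (.nd (nat_lit 9) 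
(.lf (nat_lit 466193) (.g (nat_lit 2608) (.e (nat_lit 3249) (nat_lit 197) (.e (nat_lit 532507) (nat_lit 2) (.e (nat_lit 106536) (nat_lit 11) (.e (nat_lit 16416) (nat_lit 3) (.e (nat_lit 204877) (nat_lit 31) (.e (nat_lit 376833) (nat_lit 0) .nil)))))) (.g (nat_lit 1) (.e (nat_lit 75976) (nat_lit 0) .nil) .nil))) 
(.lf (nat_lit 466705) (.g (nat_lit 2304) (.e (nat_lit 3252) (nat_lit 197) (.e (nat_lit 532547) (nat_lit 11) (.e (nat_lit 352315) (nat_lit 23) (.e (nat_lit 98349) (nat_lit 24) (.e (nat_lit 417536) (nat_lit 18) (.e (nat_lit 303112) (nat_lit 0) .nil)))))) (.g (nat_lit 1) (.e (nat_lit 77020) (nat_lit 0) .nil) .nil))))) (.nd (nat_lit 8) (.nd (nat_lit 9) 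
(.lf (nat_lit 466065) (.g (nat_lit 880) (.e (nat_lit 3248) (nat_lit 197) (.e (nat_lit 532530) (nat_lit 9) (.e (nat_lit 336326) (nat_lit 18) .nil))) (.g (nat_lit 0) (.e (nat_lit 75812) (nat_lit 0) .nil) .nil))) 
(.lf (nat_lit 466577) (.g (nat_lit 2204) (.e (nat_lit 3251) (nat_lit 197) (.e (nat_lit 532560) (nat_lit 14) (.e (nat_lit 376869) (nat_lit 23) (.e (nat_lit 98350) (nat_lit 24) (.e (nat_lit 409649) (nat_lit 18) .nil))))) (.g (nat_lit 0) (.e (nat_lit 76813) (nat_lit 0) .nil) .nil)))) (.nd (nat_lit 9) 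
(.lf (nat_lit 466321) (.g (nat_lit 2727) (.e (nat_lit 3249) (nat_lit 197) (.e (nat_lit 532550) (nat_lit 12) (.e (nat_lit 360474) (nat_lit 8) (.e (nat_lit 557064) (nat_lit 9) .nil)))) (.g (nat_lit 0) (.e (nat_lit 76353) (nat_lit 0) .nil) .nil))) 
(.lf (nat_lit 466833) (.g (nat_lit 4428) (.e (nat_lit 3252) (nat_lit 197) (.e (nat_lit 532569) (nat_lit 16) (.e (nat_lit 401451) (nat_lit 12) (.e (nat_lit 475185) (nat_lit 29) (.e (nat_lit 557109) (nat_lit 15) (.e (nat_lit 188434) (nat_lit 20) .nil)))))) (.g (nat_lit 1) (.e (nat_lit 77176) (nat_lit 0) .nil) .nil)))))) (.nd (nat_lit 7) (.nd (nat_lit 8) (.nd (nat_lit 9) 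
(.lf (nat_lit 466001) (.g (nat_lit 2675) (.e (nat_lit 3248) (nat_lit 197) (.e (nat_lit 532503) (nat_lit 1) (.e (nat_lit 57931) (nat_lit 282) (.e (nat_lit 163873) (nat_lit 3) (.e (nat_lit 204853) (nat_lit 26) .nil))))) (.g (nat_lit 0) (.e (nat_lit 75732) (nat_lit 0) .nil) .nil))) 
(.lf (nat_lit 466513) (.g (nat_lit 1616) (.e (nat_lit 3251) (nat_lit 197) (.e (nat_lit 532504) (nat_lit 1) (.e (nat_lit 57851) (nat_lit 252) (.e (nat_lit 57406) (nat_lit 12) (.e (nat_lit 336456) (nat_lit 34) (.e (nat_lit 483379) (nat_lit 23) (.e (nat_lit 336257) (nat_lit 15) .nil))))))) (.g (nat_lit 1) (.e (nat_lit 76711) (nat_lit 0) .nil) .nil)))) (.nd (nat_lit 9) 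
(.lf (nat_lit 466257) (.g (nat_lit 2355) (.e (nat_lit 3249) (nat_lit 197) (.e (nat_lit 532523) (nat_lit 7) (.e (nat_lit 319531) (nat_lit 16) (.e (nat_lit 286735) (nat_lit 3) (.e (nat_lit 98380) (nat_lit 31) (.e (nat_lit 466965) (nat_lit 20) .nil)))))) (.g (nat_lit 1) (.e (nat_lit 76134) (nat_lit 0) .nil) .nil))) 
(.lf (nat_lit 466769) (.g (nat_lit 3843) (.e (nat_lit 3252) (nat_lit 197) (.e (nat_lit 532550) (nat_lit 12) (.e (nat_lit 360474) (nat_lit 8) (.e (nat_lit 557094) (nat_lit 12) (.e (nat_lit 164022) (nat_lit 46) (.e (nat_lit 704737) (nat_lit 11) (.e (nat_lit 16399) (nat_lit 0) .nil))))))) (.g (nat_lit 1) (.e (nat_lit 77100) (nat_lit 0) .nil) .nil))))) (.nd (nat_lit 8) (.nd (nat_lit 9) 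
(.lf (nat_lit 466129) (.g (nat_lit 2158) (.e (nat_lit 3249) (nat_lit 197) (.e (nat_lit 532503) (nat_lit 1) (.e (nat_lit 57844) (nat_lit 252) (.e (nat_lit 57406) (nat_lit 12) (.e (nat_lit 336367) (nat_lit 27) .nil))))) (.g (nat_lit 0) (.e (nat_lit 75902) (nat_lit 0) .nil) .nil))) 
(.lf (nat_lit 466641) (.g (nat_lit 2590) (.e (nat_lit 3252) (nat_lit 197) (.e (nat_lit 532503) (nat_lit 1) (.e (nat_lit 57847) (nat_lit 252) (.e (nat_lit 57407) (nat_lit 12) (.e (nat_lit 336454) (nat_lit 34) (.e (nat_lit 483385) (nat_lit 23) (.e (nat_lit 336260) (nat_lit 15) .nil))))))) (.g (nat_lit 1) (.e (nat_lit 76917) (nat_lit 0) .nil) .nil)))) (.nd (nat_lit 9) 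
(.lf (nat_lit 466385) (.g (nat_lit 2070) (.e (nat_lit 3249) (nat_lit 197) (.e (nat_lit 532559) (nat_lit 14) (.e (nat_lit 376865) (nat_lit 22) (.e (nat_lit 90185) (nat_lit 17) (.e (nat_lit 237584) (nat_lit 1) .nil))))) (.g (nat_lit 0) (.e (nat_lit 76446) (nat_lit 0) .nil) .nil))) 
(.lf (nat_lit 466897) (.g (nat_lit 3873) (.e (nat_lit 3253) (nat_lit 197) (.e (nat_lit 532499) (nat_lit 1) (.e (nat_lit 57927) (nat_lit 282) (.e (nat_lit 163868) (nat_lit 2) (.e (nat_lit 196668) (nat_lit 14) (.e (nat_lit 73746) (nat_lit 3) (.e (nat_lit 516129) (nat_lit 3) (.e (nat_lit 221203) (nat_lit 20) .nil)))))))) (.g (nat_lit 1) (.e (nat_lit 77275) (nat_lit 0) .nil) .nil))))))) 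
(.nd (nat_lit 6) (.nd (nat_lit 7) (.nd (nat_lit 8) (.nd (nat_lit 9) 
(.lf (nat_lit 465969) (.g (nat_lit 2619) (.e (nat_lit 3248) (nat_lit 197) (.e (nat_lit 532501) (nat_lit 1) (.e (nat_lit 57926) (nat_lit 282) (.e (nat_lit 163869) (nat_lit 2) (.e (nat_lit 196670) (nat_lit 14) (.e (nat_lit 73746) (nat_lit 3) (.e (nat_lit 516129) (nat_lit 3) (.e (nat_lit 221196) (nat_lit 20) .nil)))))))) (.g (nat_lit 1) (.e (nat_lit 75693) (nat_lit 0) .nil) .nil))) 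
(.lf (nat_lit 466481) (.g (nat_lit 4853) (.e (nat_lit 3250) (nat_lit 197) (.e (nat_lit 532550) (nat_lit 12) (.e (nat_lit 360474) (nat_lit 8) (.e (nat_lit 557093) (nat_lit 12) (.e (nat_lit 164022) (nat_lit 46) .nil))))) (.g (nat_lit 0) (.e (nat_lit 76665) (nat_lit 0) .nil) .nil)))) (.nd (nat_lit 9) 
(.lf (nat_lit 466225) (.g (nat_lit 3740) (.e (nat_lit 3249) (nat_lit 197) (.e (nat_lit 532523) (nat_lit 7) (.e (nat_lit 319538) (nat_lit 19) (.e (nat_lit 311315) (nat_lit 3) (.e (nat_lit 204846) (nat_lit 24) (.e (nat_lit 319505) (nat_lit 10) (.e (nat_lit 5712) (nat_lit 312) (.e (nat_lit 2505) (nat_lit 157) .nil)))))))) (.g (nat_lit 1) (.e (nat_lit 76102) (nat_lit 0) .nil) .nil))) 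
(.lf (nat_lit 466737) (.g (nat_lit 2821) (.e (nat_lit 3252) (nat_lit 197) (.e (nat_lit 532550) (nat_lit 12) (.e (nat_lit 360468) (nat_lit 3) (.e (nat_lit 516138) (nat_lit 7) (.e (nat_lit 409646) (nat_lit 18) (.e (nat_lit 303112) (nat_lit 0) .nil)))))) (.g (nat_lit 1) (.e (nat_lit 77065) (nat_lit 0) .nil) .nil))))) (.nd (nat_lit 8) (.nd (nat_lit 9) 
(.lf (nat_lit 466097) (.g (nat_lit 2319) (.e (nat_lit 3249) (nat_lit 197) (.e (nat_lit 532499) (nat_lit 1) (.e (nat_lit 57927) (nat_lit 282) (.e (nat_lit 163868) (nat_lit 2) (.e (nat_lit 196670) (nat_lit 14) (.e (nat_lit 73746) (nat_lit 3) (.e (nat_lit 516131) (nat_lit 3) (.e (nat_lit 221202) (nat_lit 20) .nil)))))))) (.g (nat_lit 1) (.e (nat_lit 75864) (nat_lit 0) .nil) .nil))) 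
(.lf (nat_lit 466609) (.g (nat_lit 4439) (.e (nat_lit 3252) (nat_lit 197) (.e (nat_lit 532499) (nat_lit 1) (.e (nat_lit 57927) (nat_lit 282) (.e (nat_lit 163869) (nat_lit 2) (.e (nat_lit 196670) (nat_lit 14) (.e (nat_lit 73746) (nat_lit 3) (.e (nat_lit 516129) (nat_lit 3) (.e (nat_lit 221200) (nat_lit 20) .nil)))))))) (.g (nat_lit 1) (.e (nat_lit 76866) (nat_lit 0) .nil) .nil)))) (.nd (nat_lit 9) 
(.lf (nat_lit 466353) (.g (nat_lit 3301) (.e (nat_lit 3249) (nat_lit 197) (.e (nat_lit 532550) (nat_lit 12) (.e (nat_lit 360475) (nat_lit 8) (.e (nat_lit 557070) (nat_lit 9) .nil)))) (.g (nat_lit 0) (.e (nat_lit 76386) (nat_lit 0) .nil) .nil))) 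
(.lf (nat_lit 466865) (.g (nat_lit 4651) (.e (nat_lit 3253) (nat_lit 197) (.e (nat_lit 532499) (nat_lit 1) (.e (nat_lit 57926) (nat_lit 282) (.e (nat_lit 163869) (nat_lit 2) (.e (nat_lit 196670) (nat_lit 14) (.e (nat_lit 73746) (nat_lit 3) (.e (nat_lit 516129) (nat_lit 3) (.e (nat_lit 221204) (nat_lit 20) .nil)))))))) (.g (nat_lit 1) (.e (nat_lit 77232) (nat_lit 0) .nil) .nil)))))) 
(.nd (nat_lit 7) (.nd (nat_lit 8) (.nd (nat_lit 9) 
(.lf (nat_lit 466033) (.g (nat_lit 2772) (.e (nat_lit 3248) (nat_lit 197) (.e (nat_lit 532504) (nat_lit 1) (.e (nat_lit 57931) (nat_lit 282) (.e (nat_lit 163874) (nat_lit 3) (.e (nat_lit 204854) (nat_lit 26) .nil))))) (.g (nat_lit 0) (.e (nat_lit 75767) (nat_lit 0) .nil) .nil))) 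
(.lf (nat_lit 466545) (.g (nat_lit 2429) (.e (nat_lit 3251) (nat_lit 197) (.e (nat_lit 532511) (nat_lit 2) (.e (nat_lit 106536) (nat_lit 11) (.e (nat_lit 16412) (nat_lit 2) (.e (nat_lit 196674) (nat_lit 15) (.e (nat_lit 81922) (nat_lit 0) .nil)))))) (.g (nat_lit 1) (.e (nat_lit 76745) (nat_lit 0) .nil) .nil)))) (.nd (nat_lit 9) 
(.lf (nat_lit 466289) (.g (nat_lit 3145) (.e (nat_lit 3249) (nat_lit 197) (.e (nat_lit 532535) (nat_lit 9) (.e (nat_lit 336099) (nat_lit 9) (.e (nat_lit 336013) (nat_lit 2) (.e (nat_lit 90165) (nat_lit 12) .nil))))) (.g (nat_lit 0) (.e (nat_lit 76198) (nat_lit 0) .nil) .nil))) 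
(.lf (nat_lit 466801) (.g (nat_lit 2691) (.e (nat_lit 3252) (nat_lit 197) (.e (nat_lit 532559) (nat_lit 14) (.e (nat_lit 376869) (nat_lit 23) (.e (nat_lit 98349) (nat_lit 24) (.e (nat_lit 409644) (nat_lit 18) (.e (nat_lit 303112) (nat_lit 0) .nil)))))) (.g (nat_lit 1) (.e (nat_lit 77133) (nat_lit 0) .nil) .nil))))) (.nd (nat_lit 8) (.nd (nat_lit 9) 
(.lf (nat_lit 466161) (.g (nat_lit 2843) (.e (nat_lit 3249) (nat_lit 197) (.e (nat_lit 532503) (nat_lit 1) (.e (nat_lit 57931) (nat_lit 282) (.e (nat_lit 163874) (nat_lit 3) (.e (nat_lit 204863) (nat_lit 27) (.e (nat_lit 344117) (nat_lit 21) (.e (nat_lit 516130) (nat_lit 3) (.e (nat_lit 221202) (nat_lit 20) .nil)))))))) (.g (nat_lit 1) (.e (nat_lit 75941) (nat_lit 0) .nil) .nil))) 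
(.lf (nat_lit 466673) (.g (nat_lit 2828) (.e (nat_lit 3252) (nat_lit 197) (.e (nat_lit 532535) (nat_lit 9) (.e (nat_lit 336099) (nat_lit 9) (.e (nat_lit 336013) (nat_lit 2) .nil)))) (.g (nat_lit 0) (.e (nat_lit 76984) (nat_lit 0) .nil) .nil)))) (.nd (nat_lit 9) 
(.lf (nat_lit 466417) (.g (nat_lit 1417) (.e (nat_lit 3249) (nat_lit 197) (.e (nat_lit 532569) (nat_lit 16) (.e (nat_lit 401448) (nat_lit 10) (.e (nat_lit 434231) (nat_lit 23) .nil)))) (.g (nat_lit 0) (.e (nat_lit 76530) (nat_lit 0) .nil) .nil))) 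
(.lf (nat_lit 466929) (.g (nat_lit 3171) (.e (nat_lit 3253) (nat_lit 197) (.e (nat_lit 532499) (nat_lit 1) (.e (nat_lit 57927) (nat_lit 282) (.e (nat_lit 163871) (nat_lit 2) (.e (nat_lit 196663) (nat_lit 13) (.e (nat_lit 65571) (nat_lit 3) (.e (nat_lit 98341) (nat_lit 20) (.e (nat_lit 221204) (nat_lit 20) .nil)))))))) (.g (nat_lit 1) (.e (nat_lit 77317) (nat_lit 0) .nil) .nil))))))))) 
(.nd (nat_lit 4) (.nd (nat_lit 5) (.nd (nat_lit 6) (.nd (nat_lit 7) (.nd (nat_lit 8) 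
(.nd (nat_lit 9) 
(.lf (nat_lit 465929) (.g (nat_lit 4549) (.e (nat_lit 3242) (nat_lit 197) (.e (nat_lit 532550) (nat_lit 12) (.e (nat_lit 360474) (nat_lit 8) (.e (nat_lit 557093) (nat_lit 12) (.e (nat_lit 164023) (nat_lit 46) (.e (nat_lit 704737) (nat_lit 11) (.e (nat_lit 16389) (nat_lit 0) .nil))))))) (.g (nat_lit 1) (.e (nat_lit 75652) (nat_lit 0) .nil) .nil))) 
(.lf (nat_lit 466441) (.g (nat_lit 3508) (.e (nat_lit 3249) (nat_lit 197) (.e (nat_lit 532569) (nat_lit 16) (.e (nat_lit 401451) (nat_lit 12) (.e (nat_lit 475184) (nat_lit 29) (.e (nat_lit 557109) (nat_lit 15) .nil))))) (.g (nat_lit 0) (.e (nat_lit 76561) (nat_lit 0) .nil) .nil)))) (.nd (nat_lit 9) 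
(.lf (nat_lit 466185) (.g (nat_lit 3222) (.e (nat_lit 3249) (nat_lit 197) (.e (nat_lit 532504) (nat_lit 1) (.e (nat_lit 57854) (nat_lit 252) (.e (nat_lit 57409) (nat_lit 12) (.e (nat_lit 336454) (nat_lit 34) (.e (nat_lit 483385) (nat_lit 23) (.e (nat_lit 336284) (nat_lit 15) .nil))))))) (.g (nat_lit 1) (.e (nat_lit 75968) (nat_lit 0) .nil) .nil))) 
(.lf (nat_lit 466697) (.g (nat_lit 1616) (.e (nat_lit 3252) (nat_lit 197) (.e (nat_lit 532535) (nat_lit 9) (.e (nat_lit 336176) (nat_lit 10) .nil))) (.g (nat_lit 0) (.e (nat_lit 77008) (nat_lit 0) .nil) .nil))))) (.nd (nat_lit 8) (.nd (nat_lit 9) 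
(.lf (nat_lit 466057) (.g (nat_lit 4179) (.e (nat_lit 3248) (nat_lit 197) (.e (nat_lit 532515) (nat_lit 3) (.e (nat_lit 114716) (nat_lit 22) (.e (nat_lit 90174) (nat_lit 14) (.e (nat_lit 180243) (nat_lit 5) (.e (nat_lit 532499) (nat_lit 1) (.e (nat_lit 57687) (nat_lit 156) (.e (nat_lit 163844) (nat_lit 0) .nil)))))))) (.g (nat_lit 1) (.e (nat_lit 75793) (nat_lit 0) .nil) .nil))) 
(.lf (nat_lit 466569) (.g (nat_lit 4940) (.e (nat_lit 3251) (nat_lit 197) (.e (nat_lit 532550) (nat_lit 12) (.e (nat_lit 360475) (nat_lit 8) (.e (nat_lit 557086) (nat_lit 11) .nil)))) (.g (nat_lit 0) (.e (nat_lit 76805) (nat_lit 0) .nil) .nil)))) (.nd (nat_lit 9) 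
(.lf (nat_lit 466313) (.g (nat_lit 3506) (.e (nat_lit 3249) (nat_lit 197) (.e (nat_lit 532549) (nat_lit 12) (.e (nat_lit 360475) (nat_lit 8) (.e (nat_lit 557086) (nat_lit 11) (.e (nat_lit 24664) (nat_lit 14) (.e (nat_lit 401418) (nat_lit 0) .nil)))))) (.g (nat_lit 1) (.e (nat_lit 76322) (nat_lit 0) .nil) .nil))) 
(.lf (nat_lit 466825) (.g (nat_lit 1584) (.e (nat_lit 3252) (nat_lit 197) (.e (nat_lit 532561) (nat_lit 14) (.e (nat_lit 376869) (nat_lit 23) (.e (nat_lit 98350) (nat_lit 24) (.e (nat_lit 417536) (nat_lit 18) .nil))))) (.g (nat_lit 0) (.e (nat_lit 77165) (nat_lit 0) .nil) .nil)))))) (.nd (nat_lit 7) (.nd (nat_lit 8) (.nd (nat_lit 9) 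
(.lf (nat_lit 465993) (.g (nat_lit 2278) (.e (nat_lit 3248) (nat_lit 197) (.e (nat_lit 532503) (nat_lit 1) (.e (nat_lit 57931) (nat_lit 282) (.e (nat_lit 163867) (nat_lit 2) (.e (nat_lit 196663) (nat_lit 13) (.e (nat_lit 65571) (nat_lit 3) (.e (nat_lit 98342) (nat_lit 20) (.e (nat_lit 221197) (nat_lit 20) .nil)))))))) (.g (nat_lit 1) (.e (nat_lit 75722) (nat_lit 0) .nil) .nil))) 
(.lf (nat_lit 466505) (.g (nat_lit 2498) (.e (nat_lit 3251) (nat_lit 197) (.e (nat_lit 532503) (nat_lit 1) (.e (nat_lit 57847) (nat_lit 252) (.e (nat_lit 57411) (nat_lit 12) (.e (nat_lit 336454) (nat_lit 34) (.e (nat_lit 483385) (nat_lit 23) (.e (nat_lit 336260) (nat_lit 15) .nil))))))) (.g (nat_lit 1) (.e (nat_lit 76701) (nat_lit 0) .nil) .nil)))) (.nd (nat_lit 9) 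
(.lf (nat_lit 466249) (.g (nat_lit 2331) (.e (nat_lit 3249) (nat_lit 197) (.e (nat_lit 532523) (nat_lit 7) (.e (nat_lit 319531) (nat_lit 16) (.e (nat_lit 286735) (nat_lit 3) (.e (nat_lit 98363) (nat_lit 26) .nil))))) (.g (nat_lit 0) (.e (nat_lit 76126) (nat_lit 0) .nil) .nil))) 
(.lf (nat_lit 466761) (.g (nat_lit 3423) (.e (nat_lit 3252) (nat_lit 197) (.e (nat_lit 532550) (nat_lit 12) (.e (nat_lit 360474) (nat_lit 8) (.e (nat_lit 557093) (nat_lit 12) (.e (nat_lit 164023) (nat_lit 46) (.e (nat_lit 704737) (nat_lit 11) (.e (nat_lit 16399) (nat_lit 0) .nil))))))) (.g (nat_lit 1) (.e (nat_lit 77092) (nat_lit 0) .nil) .nil))))) (.nd (nat_lit 8) (.nd (nat_lit 9) 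
(.lf (nat_lit 466121) (.g (nat_lit 2713) (.e (nat_lit 3249) (nat_lit 197) (.e (nat_lit 532500) (nat_lit 1) (.e (nat_lit 57851) (nat_lit 252) (.e (nat_lit 57406) (nat_lit 12) (.e (nat_lit 336456) (nat_lit 34) (.e (nat_lit 483391) (nat_lit 23) (.e (nat_lit 336246) (nat_lit 15) .nil))))))) (.g (nat_lit 1) (.e (nat_lit 75894) (nat_lit 0) .nil) .nil))) 
(.lf (nat_lit 466633) (.g (nat_lit 1950) (.e (nat_lit 3252) (nat_lit 197) (.e (nat_lit 532501) (nat_lit 1) (.e (nat_lit 57851) (nat_lit 252) (.e (nat_lit 57406) (nat_lit 12) (.e (nat_lit 336456) (nat_lit 34) (.e (nat_lit 483383) (nat_lit 23) (.e (nat_lit 336259) (nat_lit 15) .nil))))))) (.g (nat_lit 1) (.e (nat_lit 76906) (nat_lit 0) .nil) .nil)))) (.nd (nat_lit 9) 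
(.lf (nat_lit 466377) (.g (nat_lit 3381) (.e (nat_lit 3249) (nat_lit 197) (.e (nat_lit 532550) (nat_lit 12) (.e (nat_lit 360475) (nat_lit 8) (.e (nat_lit 557091) (nat_lit 12) (.e (nat_lit 164022) (nat_lit 46) (.e (nat_lit 704735) (nat_lit 11) (.e (nat_lit 16401) (nat_lit 0) .nil))))))) (.g (nat_lit 1) (.e (nat_lit 76410) (nat_lit 0) .nil) .nil))) 
(.lf (nat_lit 466889) (.g (nat_lit 2617) (.e (nat_lit 3253) (nat_lit 197) (.e (nat_lit 532499) (nat_lit 1) (.e (nat_lit 57927) (nat_lit 282) (.e (nat_lit 163867) (nat_lit 2) (.e (nat_lit 196670) (nat_lit 14) (.e (nat_lit 73746) (nat_lit 3) (.e (nat_lit 516129) (nat_lit 3) (.e (nat_lit 221203) (nat_lit 20) .nil)))))))) (.g (nat_lit 1) (.e (nat_lit 77267) (nat_lit 0) .nil) .nil))))))) 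
(.nd (nat_lit 6) (.nd (nat_lit 7) (.nd (nat_lit 8) (.nd (nat_lit 9) 
(.lf (nat_lit 465961) (.g (nat_lit 5415) (.e (nat_lit 3242) (nat_lit 197) (.e (nat_lit 532550) (nat_lit 12) (.e (nat_lit 360475) (nat_lit 8) (.e (nat_lit 557091) (nat_lit 12) (.e (nat_lit 164022) (nat_lit 46) (.e (nat_lit 704738) (nat_lit 11) (.e (nat_lit 16385) (nat_lit 0) .nil))))))) (.g (nat_lit 1) (.e (nat_lit 75685) (nat_lit 0) .nil) .nil))) 
(.lf (nat_lit 466473) (.g (nat_lit 2462) (.e (nat_lit 3250) (nat_lit 197) (.e (nat_lit 532504) (nat_lit 1) (.e (nat_lit 57929) (nat_lit 282) (.e (nat_lit 163869) (nat_lit 2) (.e (nat_lit 196670) (nat_lit 14) .nil))))) (.g (nat_lit 0) (.e (nat_lit 76649) (nat_lit 0) .nil) .nil)))) (.nd (nat_lit 9) 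
(.lf (nat_lit 466217) (.g (nat_lit 3249) (.e (nat_lit 3249) (nat_lit 197) (.e (nat_lit 532523) (nat_lit 7) (.e (nat_lit 319490) (nat_lit 0) (.e (nat_lit 5664) (nat_lit 312) (.e (nat_lit 2661) (nat_lit 167) (.e (nat_lit 196669) (nat_lit 14) (.e (nat_lit 73779) (nat_lit 32) (.e (nat_lit 2505) (nat_lit 157) .nil)))))))) (.g (nat_lit 1) (.e (nat_lit 76086) (nat_lit 0) .nil) .nil))) 
(.lf (nat_lit 466729) (.g (nat_lit 3958) (.e (nat_lit 3252) (nat_lit 197) (.e (nat_lit 532550) (nat_lit 12) (.e (nat_lit 360467) (nat_lit 3) (.e (nat_lit 516139) (nat_lit 7) (.e (nat_lit 409644) (nat_lit 18) (.e (nat_lit 303112) (nat_lit 0) .nil)))))) (.g (nat_lit 1) (.e (nat_lit 77055) (nat_lit 0) .nil) .nil))))) (.nd (nat_lit 8) (.nd (nat_lit 9) 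
(.lf (nat_lit 466089) (.g (nat_lit 2456) (.e (nat_lit 3249) (nat_lit 197) (.e (nat_lit 532499) (nat_lit 1) (.e (nat_lit 57926) (nat_lit 282) (.e (nat_lit 163869) (nat_lit 2) (.e (nat_lit 196670) (nat_lit 14) (.e (nat_lit 73746) (nat_lit 3) (.e (nat_lit 516127) (nat_lit 2) (.e (nat_lit 213019) (nat_lit 9) (.e (nat_lit 2505) (nat_lit 157) .nil))))))))) (.g (nat_lit 1) (.e (nat_lit 75853) (nat_lit 0) .nil) .nil))) 
(.lf (nat_lit 466601) (.g (nat_lit 2603) (.e (nat_lit 3252) (nat_lit 197) (.e (nat_lit 532499) (nat_lit 1) (.e (nat_lit 57927) (nat_lit 282) (.e (nat_lit 163866) (nat_lit 2) (.e (nat_lit 196670) (nat_lit 14) (.e (nat_lit 73746) (nat_lit 3) (.e (nat_lit 516129) (nat_lit 3) (.e (nat_lit 221200) (nat_lit 20) .nil)))))))) (.g (nat_lit 1) (.e (nat_lit 76844) (nat_lit 0) .nil) .nil)))) (.nd (nat_lit 9) 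
(.lf (nat_lit 466345) (.g (nat_lit 3692) (.e (nat_lit 3249) (nat_lit 197) (.e (nat_lit 532550) (nat_lit 12) (.e (nat_lit 360475) (nat_lit 8) (.e (nat_lit 557064) (nat_lit 9) .nil)))) (.g (nat_lit 0) (.e (nat_lit 76378) (nat_lit 0) .nil) .nil))) 
(.lf (nat_lit 466857) (.g (nat_lit 2930) (.e (nat_lit 3253) (nat_lit 197) (.e (nat_lit 532499) (nat_lit 1) (.e (nat_lit 57926) (nat_lit 282) (.e (nat_lit 163869) (nat_lit 2) (.e (nat_lit 196666) (nat_lit 13) (.e (nat_lit 65569) (nat_lit 3) (.e (nat_lit 98342) (nat_lit 20) (.e (nat_lit 221204) (nat_lit 20) .nil)))))))) (.g (nat_lit 1) (.e (nat_lit 77224) (nat_lit 0) .nil) .nil)))))) 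
(.nd (nat_lit 7) (.nd (nat_lit 8) (.nd (nat_lit 9) 
(.lf (nat_lit 466025) (.g (nat_lit 3301) (.e (nat_lit 3248) (nat_lit 197) (.e (nat_lit 532504) (nat_lit 1) (.e (nat_lit 57929) (nat_lit 282) (.e (nat_lit 163869) (nat_lit 2) (.e (nat_lit 196670) (nat_lit 14) (.e (nat_lit 73746) (nat_lit 3) (.e (nat_lit 516129) (nat_lit 3) (.e (nat_lit 221196) (nat_lit 20) .nil)))))))) (.g (nat_lit 1) (.e (nat_lit 75758) (nat_lit 0) .nil) .nil))) 
(.lf (nat_lit 466537) (.g (nat_lit 1624) (.e (nat_lit 3251) (nat_lit 197) (.e (nat_lit 532510) (nat_lit 2) (.e (nat_lit 106536) (nat_lit 11) (.e (nat_lit 16416) (nat_lit 3) (.e (nat_lit 204877) (nat_lit 31) (.e (nat_lit 376835) (nat_lit 0) .nil)))))) (.g (nat_lit 1) (.e (nat_lit 76737) (nat_lit 0) .nil) .nil)))) (.nd (nat_lit 9) 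
(.lf (nat_lit 466281) (.g (nat_lit 3663) (.e (nat_lit 3249) (nat_lit 197) (.e (nat_lit 532526) (nat_lit 8) (.e (nat_lit 327699) (nat_lit 8) (.e (nat_lit 303117) (nat_lit 2) (.e (nat_lit 196669) (nat_lit 14) (.e (nat_lit 73779) (nat_lit 32) (.e (nat_lit 2508) (nat_lit 157) .nil))))))) (.g (nat_lit 1) (.e (nat_lit 76160) (nat_lit 0) .nil) .nil))) 
(.lf (nat_lit 466793) (.g (nat_lit 1769) (.e (nat_lit 3252) (nat_lit 197) (.e (nat_lit 532558) (nat_lit 14) (.e (nat_lit 376867) (nat_lit 23) (.e (nat_lit 98349) (nat_lit 24) (.e (nat_lit 409644) (nat_lit 18) (.e (nat_lit 303112) (nat_lit 0) .nil)))))) (.g (nat_lit 1) (.e (nat_lit 77125) (nat_lit 0) .nil) .nil))))) (.nd (nat_lit 8) (.nd (nat_lit 9) 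
(.lf (nat_lit 466153) (.g (nat_lit 3479) (.e (nat_lit 3249) (nat_lit 197) (.e (nat_lit 532503) (nat_lit 1) (.e (nat_lit 57931) (nat_lit 282) (.e (nat_lit 163869) (nat_lit 2) (.e (nat_lit 196670) (nat_lit 14) (.e (nat_lit 73746) (nat_lit 3) (.e (nat_lit 516124) (nat_lit 2) (.e (nat_lit 213013) (nat_lit 9) (.e (nat_lit 2505) (nat_lit 157) .nil))))))))) (.g (nat_lit 1) (.e (nat_lit 75933) (nat_lit 0) .nil) .nil))) 
(.lf (nat_lit 466665) (.g (nat_lit 3620) (.e (nat_lit 3252) (nat_lit 197) (.e (nat_lit 532513) (nat_lit 3) (.e (nat_lit 114714) (nat_lit 22) (.e (nat_lit 90172) (nat_lit 14) (.e (nat_lit 180244) (nat_lit 5) (.e (nat_lit 532503) (nat_lit 1) (.e (nat_lit 57687) (nat_lit 156) (.e (nat_lit 163850) (nat_lit 0) .nil)))))))) (.g (nat_lit 1) (.e (nat_lit 76955) (nat_lit 0) .nil) .nil)))) (.nd (nat_lit 9) 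
(.lf (nat_lit 466409) (.g (nat_lit 2711) (.e (nat_lit 3249) (nat_lit 197) (.e (nat_lit 532569) (nat_lit 16) (.e (nat_lit 401434) (nat_lit 9) (.e (nat_lit 426125) (nat_lit 2) (.e (nat_lit 196661) (nat_lit 12) (.e (nat_lit 57749) (nat_lit 201) (.e (nat_lit 2939) (nat_lit 184) (.e (nat_lit 425995) (nat_lit 0) .nil)))))))) (.g (nat_lit 1) (.e (nat_lit 76484) (nat_lit 0) .nil) .nil))) 
(.lf (nat_lit 466921) (.g (nat_lit 3018) (.e (nat_lit 3253) (nat_lit 197) (.e (nat_lit 532499) (nat_lit 1) (.e (nat_lit 57927) (nat_lit 282) (.e (nat_lit 163869) (nat_lit 2) (.e (nat_lit 196668) (nat_lit 14) (.e (nat_lit 73747) (nat_lit 3) (.e (nat_lit 516131) (nat_lit 3) (.e (nat_lit 221203) (nat_lit 20) .nil)))))))) (.g (nat_lit 1) (.e (nat_lit 77303) (nat_lit 0) .nil) .nil)))))))) 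
(.nd (nat_lit 5) (.nd (nat_lit 6) (.nd (nat_lit 7) (.nd (nat_lit 8) (.nd (nat_lit 9) 
(.lf (nat_lit 465945) (.g (nat_lit 3997) (.e (nat_lit 3242) (nat_lit 197) (.e (nat_lit 532550) (nat_lit 12) (.e (nat_lit 360475) (nat_lit 8) (.e (nat_lit 557085) (nat_lit 11) .nil)))) (.g (nat_lit 0) (.e (nat_lit 75669) (nat_lit 0) .nil) .nil))) 
(.lf (nat_lit 466457) (.g (nat_lit 2040) (.e (nat_lit 3250) (nat_lit 197) (.e (nat_lit 532499) (nat_lit 1) (.e (nat_lit 57927) (nat_lit 282) (.e (nat_lit 163869) (nat_lit 2) (.e (nat_lit 196670) (nat_lit 14) (.e (nat_lit 73746) (nat_lit 3) (.e (nat_lit 516131) (nat_lit 3) (.e (nat_lit 221196) (nat_lit 20) .nil)))))))) (.g (nat_lit 1) (.e (nat_lit 76631) (nat_lit 0) .nil) .nil)))) (.nd (nat_lit 9) 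
(.lf (nat_lit 466201) (.g (nat_lit 2037) (.e (nat_lit 3249) (nat_lit 197) (.e (nat_lit 532508) (nat_lit 2) (.e (nat_lit 106536) (nat_lit 11) (.e (nat_lit 16416) (nat_lit 3) (.e (nat_lit 204865) (nat_lit 28) (.e (nat_lit 352261) (nat_lit 0) .nil)))))) (.g (nat_lit 1) (.e (nat_lit 75986) (nat_lit 0) .nil) .nil))) 
(.lf (nat_lit 466713) (.g (nat_lit 2482) (.e (nat_lit 3252) (nat_lit 197) (.e (nat_lit 532549) (nat_lit 12) (.e (nat_lit 360466) (nat_lit 3) (.e (nat_lit 516142) (nat_lit 8) (.e (nat_lit 417829) (nat_lit 18) (.e (nat_lit 303112) (nat_lit 0) .nil)))))) (.g (nat_lit 1) (.e (nat_lit 77028) (nat_lit 0) .nil) .nil))))) (.nd (nat_lit 8) (.nd (nat_lit 9) 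
(.lf (nat_lit 466073) (.g (nat_lit 907) (.e (nat_lit 3248) (nat_lit 197) (.e (nat_lit 532550) (nat_lit 12) (.e (nat_lit 360475) (nat_lit 8) .nil))) (.g (nat_lit 0) (.e (nat_lit 75828) (nat_lit 0) .nil) .nil))) 
(.lf (nat_lit 466585) (.g (nat_lit 4635) (.e (nat_lit 3252) (nat_lit 197) (.e (nat_lit 532499) (nat_lit 1) (.e (nat_lit 57847) (nat_lit 252) (.e (nat_lit 57411) (nat_lit 12) (.e (nat_lit 336454) (nat_lit 34) (.e (nat_lit 483385) (nat_lit 23) (.e (nat_lit 336260) (nat_lit 15) .nil))))))) (.g (nat_lit 1) (.e (nat_lit 76822) (nat_lit 0) .nil) .nil)))) (.nd (nat_lit 9) 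
(.lf (nat_lit 466329) (.g (nat_lit 1963) (.e (nat_lit 3249) (nat_lit 197) (.e (nat_lit 532550) (nat_lit 12) (.e (nat_lit 360474) (nat_lit 8) (.e (nat_lit 557085) (nat_lit 11) .nil)))) (.g (nat_lit 0) (.e (nat_lit 76362) (nat_lit 0) .nil) .nil))) 
(.lf (nat_lit 466841) (.g (nat_lit 3010) (.e (nat_lit 3253) (nat_lit 197) (.e (nat_lit 532499) (nat_lit 1) (.e (nat_lit 57847) (nat_lit 252) (.e (nat_lit 57354) (nat_lit 0) (.e (nat_lit 1855) (nat_lit 124) (.e (nat_lit 557105) (nat_lit 14) (.e (nat_lit 180252) (nat_lit 10) (.e (nat_lit 573482) (nat_lit 13) (.e (nat_lit 65637) (nat_lit 15) .nil))))))))) (.g (nat_lit 1) (.e (nat_lit 77207) (nat_lit 0) .nil) .nil)))))) 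
(.nd (nat_lit 7) (.nd (nat_lit 8) (.nd (nat_lit 9) 
(.lf (nat_lit 466009) (.g (nat_lit 2437) (.e (nat_lit 3248) (nat_lit 197) (.e (nat_lit 532503) (nat_lit 1) (.e (nat_lit 57931) (nat_lit 282) (.e (nat_lit 163874) (nat_lit 3) (.e (nat_lit 204863) (nat_lit 27) (.e (nat_lit 344117) (nat_lit 21) (.e (nat_lit 516130) (nat_lit 3) (.e (nat_lit 221198) (nat_lit 20) .nil)))))))) (.g (nat_lit 1) (.e (nat_lit 75740) (nat_lit 0) .nil) .nil))) 
(.lf (nat_lit 466521) (.g (nat_lit 1768) (.e (nat_lit 3251) (nat_lit 197) (.e (nat_lit 532508) (nat_lit 2) (.e (nat_lit 106534) (nat_lit 11) (.e (nat_lit 16412) (nat_lit 2) (.e (nat_lit 196672) (nat_lit 15) (.e (nat_lit 81924) (nat_lit 0) .nil)))))) (.g (nat_lit 1) (.e (nat_lit 76721) (nat_lit 0) .nil) .nil)))) (.nd (nat_lit 9) 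
(.lf (nat_lit 466265) (.g (nat_lit 3014) (.e (nat_lit 3249) (nat_lit 197) (.e (nat_lit 532523) (nat_lit 7) (.e (nat_lit 319533) (nat_lit 16) (.e (nat_lit 286734) (nat_lit 3) (.e (nat_lit 98371) (nat_lit 28) (.e (nat_lit 450304) (nat_lit 20) .nil)))))) (.g (nat_lit 1) (.e (nat_lit 76142) (nat_lit 0) .nil) .nil))) 
(.lf (nat_lit 466777) (.g (nat_lit 4784) (.e (nat_lit 3252) (nat_lit 197) (.e (nat_lit 532550) (nat_lit 12) (.e (nat_lit 360475) (nat_lit 8) (.e (nat_lit 557087) (nat_lit 11) (.e (nat_lit 24662) (nat_lit 14) .nil))))) (.g (nat_lit 0) (.e (nat_lit 77109) (nat_lit 0) .nil) .nil))))) (.nd (nat_lit 8) (.nd (nat_lit 9) 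
(.lf (nat_lit 466137) (.g (nat_lit 1839) (.e (nat_lit 3249) (nat_lit 197) (.e (nat_lit 532503) (nat_lit 1) (.e (nat_lit 57848) (nat_lit 252) (.e (nat_lit 57407) (nat_lit 12) (.e (nat_lit 336456) (nat_lit 34) (.e (nat_lit 483391) (nat_lit 23) (.e (nat_lit 336246) (nat_lit 15) .nil))))))) (.g (nat_lit 1) (.e (nat_lit 75910) (nat_lit 0) .nil) .nil))) 
(.lf (nat_lit 466649) (.g (nat_lit 3199) (.e (nat_lit 3252) (nat_lit 197) (.e (nat_lit 532504) (nat_lit 1) (.e (nat_lit 57851) (nat_lit 252) (.e (nat_lit 57406) (nat_lit 12) (.e (nat_lit 336456) (nat_lit 34) (.e (nat_lit 483379) (nat_lit 23) (.e (nat_lit 336259) (nat_lit 15) .nil))))))) (.g (nat_lit 1) (.e (nat_lit 76929) (nat_lit 0) .nil) .nil)))) (.nd (nat_lit 9) 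
(.lf (nat_lit 466393) (.g (nat_lit 2792) (.e (nat_lit 3249) (nat_lit 197) (.e (nat_lit 532563) (nat_lit 15) (.e (nat_lit 385066) (nat_lit 26) (.e (nat_lit 532530) (nat_lit 9) (.e (nat_lit 336316) (nat_lit 17) (.e (nat_lit 196665) (nat_lit 13) (.e (nat_lit 65636) (nat_lit 15) .nil))))))) (.g (nat_lit 1) (.e (nat_lit 76465) (nat_lit 0) .nil) .nil))) 
(.lf (nat_lit 466905) (.g (nat_lit 3854) (.e (nat_lit 3253) (nat_lit 197) (.e (nat_lit 532499) (nat_lit 1) (.e (nat_lit 57927) (nat_lit 282) (.e (nat_lit 163868) (nat_lit 2) (.e (nat_lit 196668) (nat_lit 14) (.e (nat_lit 73747) (nat_lit 3) (.e (nat_lit 516131) (nat_lit 3) (.e (nat_lit 221204) (nat_lit 20) .nil)))))))) (.g (nat_lit 1) (.e (nat_lit 77283) (nat_lit 0) .nil) .nil))))))) 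
(.nd (nat_lit 6) (.nd (nat_lit 7) (.nd (nat_lit 8) (.nd (nat_lit 9) 
(.lf (nat_lit 465977) (.g (nat_lit 2758) (.e (nat_lit 3248) (nat_lit 197) (.e (nat_lit 532503) (nat_lit 1) (.e (nat_lit 57924) (nat_lit 282) (.e (nat_lit 163867) (nat_lit 2) (.e (nat_lit 196668) (nat_lit 14) (.e (nat_lit 73747) (nat_lit 3) (.e (nat_lit 516131) (nat_lit 3) (.e (nat_lit 221197) (nat_lit 20) .nil)))))))) (.g (nat_lit 1) (.e (nat_lit 75704) (nat_lit 0) .nil) .nil))) 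
(.lf (nat_lit 466489) (.g (nat_lit 7205) (.e (nat_lit 3250) (nat_lit 197) (.e (nat_lit 532550) (nat_lit 12) (.e (nat_lit 360475) (nat_lit 8) (.e (nat_lit 557090) (nat_lit 12) .nil)))) (.g (nat_lit 0) (.e (nat_lit 76674) (nat_lit 0) .nil) .nil)))) (.nd (nat_lit 9) 
(.lf (nat_lit 466233) (.g (nat_lit 2731) (.e (nat_lit 3249) (nat_lit 197) (.e (nat_lit 532523) (nat_lit 7) (.e (nat_lit 319530) (nat_lit 16) (.e (nat_lit 286733) (nat_lit 2) (.e (nat_lit 90176) (nat_lit 15) .nil))))) (.g (nat_lit 0) (.e (nat_lit 76110) (nat_lit 0) .nil) .nil))) 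
(.lf (nat_lit 466745) (.g (nat_lit 1055) (.e (nat_lit 3252) (nat_lit 197) (.e (nat_lit 532550) (nat_lit 12) (.e (nat_lit 360473) (nat_lit 8) .nil))) (.g (nat_lit 0) (.e (nat_lit 77073) (nat_lit 0) .nil) .nil))))) (.nd (nat_lit 8) (.nd (nat_lit 9) 
(.lf (nat_lit 466105) (.g (nat_lit 3498) (.e (nat_lit 3249) (nat_lit 197) (.e (nat_lit 532499) (nat_lit 1) (.e (nat_lit 57927) (nat_lit 282) (.e (nat_lit 163871) (nat_lit 2) (.e (nat_lit 196670) (nat_lit 14) (.e (nat_lit 73746) (nat_lit 3) (.e (nat_lit 516129) (nat_lit 3) (.e (nat_lit 221202) (nat_lit 20) .nil)))))))) (.g (nat_lit 1) (.e (nat_lit 75877) (nat_lit 0) .nil) .nil))) 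
(.lf (nat_lit 466617) (.g (nat_lit 2443) (.e (nat_lit 3252) (nat_lit 197) (.e (nat_lit 532499) (nat_lit 1) (.e (nat_lit 57927) (nat_lit 282) (.e (nat_lit 163874) (nat_lit 3) (.e (nat_lit 204862) (nat_lit 27) (.e (nat_lit 344117) (nat_lit 21) (.e (nat_lit 516130) (nat_lit 3) (.e (nat_lit 221195) (nat_lit 20) .nil)))))))) (.g (nat_lit 1) (.e (nat_lit 76883) (nat_lit 0) .nil) .nil)))) 
(.nd (nat_lit 9) 
(.lf (nat_lit 466361) (.g (nat_lit 2823) (.e (nat_lit 3249) (nat_lit 197) (.e (nat_lit 532550) (nat_lit 12) (.e (nat_lit 360475) (nat_lit 8) (.e (nat_lit 557087) (nat_lit 11) (.e (nat_lit 24584) (nat_lit 0) .nil))))) (.g (nat_lit 0) (.e (nat_lit 76394) (nat_lit 0) .nil) .nil))) 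
(.lf (nat_lit 466873) (.g (nat_lit 2996) (.e (nat_lit 3253) (nat_lit 197) (.e (nat_lit 532499) (nat_lit 1) (.e (nat_lit 57926) (nat_lit 282) (.e (nat_lit 163874) (nat_lit 3) (.e (nat_lit 204854) (nat_lit 26) (.e (nat_lit 336019) (nat_lit 3) (.e (nat_lit 98342) (nat_lit 20) (.e (nat_lit 221204) (nat_lit 20) .nil)))))))) (.g (nat_lit 1) (.e (nat_lit 77245) (nat_lit 0) .nil) .nil)))))) 
(.nd (nat_lit 7) (.nd (nat_lit 8) (.nd (nat_lit 9) 
(.lf (nat_lit 466041) (.g (nat_lit 2134) (.e (nat_lit 3248) (nat_lit 197) (.e (nat_lit 532513) (nat_lit 3) (.e (nat_lit 114714) (nat_lit 22) (.e (nat_lit 90174) (nat_lit 14) (.e (nat_lit 180243) (nat_lit 5) .nil))))) (.g (nat_lit 0) (.e (nat_lit 75775) (nat_lit 0) .nil) .nil))) 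
(.lf (nat_lit 466553) (.g (nat_lit 5603) (.e (nat_lit 3251) (nat_lit 197) (.e (nat_lit 532535) (nat_lit 9) (.e (nat_lit 336099) (nat_lit 9) (.e (nat_lit 336013) (nat_lit 2) (.e (nat_lit 90129) (nat_lit 9) .nil))))) (.g (nat_lit 0) (.e (nat_lit 76788) (nat_lit 0) .nil) .nil)))) (.nd (nat_lit 9) 
(.lf (nat_lit 466297) (.g (nat_lit 2484) (.e (nat_lit 3249) (nat_lit 197) (.e (nat_lit 532542) (nat_lit 9) (.e (nat_lit 336194) (nat_lit 12) (.e (nat_lit 385066) (nat_lit 26) (.e (nat_lit 532515) (nat_lit 3) (.e (nat_lit 114696) (nat_lit 11) (.e (nat_lit 426072) (nat_lit 0) .nil))))))) (.g (nat_lit 1) (.e (nat_lit 76218) (nat_lit 0) .nil) .nil))) 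
(.lf (nat_lit 466809) (.g (nat_lit 351) (.e (nat_lit 3252) (nat_lit 197) (.e (nat_lit 532560) (nat_lit 14) (.e (nat_lit 376868) (nat_lit 23) .nil))) (.g (nat_lit 0) (.e (nat_lit 77143) (nat_lit 0) .nil) .nil))))) (.nd (nat_lit 8) (.nd (nat_lit 9) 
(.lf (nat_lit 466169) (.g (nat_lit 3284) (.e (nat_lit 3249) (nat_lit 197) (.e (nat_lit 532504) (nat_lit 1) (.e (nat_lit 57851) (nat_lit 252) (.e (nat_lit 57406) (nat_lit 12) (.e (nat_lit 336456) (nat_lit 34) (.e (nat_lit 483387) (nat_lit 23) (.e (nat_lit 336280) (nat_lit 15) .nil))))))) (.g (nat_lit 1) (.e (nat_lit 75949) (nat_lit 0) .nil) .nil))) 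
(.lf (nat_lit 466681) (.g (nat_lit 4850) (.e (nat_lit 3252) (nat_lit 197) (.e (nat_lit 532535) (nat_lit 9) (.e (nat_lit 336099) (nat_lit 9) (.e (nat_lit 336013) (nat_lit 2) (.e (nat_lit 90141) (nat_lit 9) .nil))))) (.g (nat_lit 0) (.e (nat_lit 76992) (nat_lit 0) .nil) .nil)))) (.nd (nat_lit 9) 
(.lf (nat_lit 466425) (.g (nat_lit 2808) (.e (nat_lit 3249) (nat_lit 197) (.e (nat_lit 532569) (nat_lit 16) (.e (nat_lit 401448) (nat_lit 10) (.e (nat_lit 434232) (nat_lit 23) (.e (nat_lit 532490) (nat_lit 0) (.e (nat_lit 6674) (nat_lit 357) (.e (nat_lit 2936) (nat_lit 184) (.e (nat_lit 425984) (nat_lit 0) .nil)))))))) (.g (nat_lit 1) (.e (nat_lit 76538) (nat_lit 0) .nil) .nil))) 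
(.lf (nat_lit 466937) (.g (nat_lit 3897) (.e (nat_lit 3253) (nat_lit 197) (.e (nat_lit 532499) (nat_lit 1) (.e (nat_lit 57927) (nat_lit 282) (.e (nat_lit 163873) (nat_lit 3) (.e (nat_lit 204853) (nat_lit 26) (.e (nat_lit 336019) (nat_lit 3) (.e (nat_lit 98341) (nat_lit 20) (.e (nat_lit 221204) (nat_lit 20) .nil)))))))) (.g (nat_lit 1) (.e (nat_lit 77333) (nat_lit 0) .nil) .nil)))))))))) 
(.nd (nat_lit 3) (.nd (nat_lit 4) (.nd (nat_lit 5) (.nd (nat_lit 6) (.nd (nat_lit 7) 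
(.nd (nat_lit 8) (.nd (nat_lit 9) 
(.lf (nat_lit 465925) (.g (nat_lit 4799) (.e (nat_lit 3242) (nat_lit 197) (.e (nat_lit 532550) (nat_lit 12) (.e (nat_lit 360474) (nat_lit 8) (.e (nat_lit 557093) (nat_lit 12) (.e (nat_lit 164023) (nat_lit 46) (.e (nat_lit 704735) (nat_lit 11) (.e (nat_lit 16385) (nat_lit 0) .nil))))))) (.g (nat_lit 1) (.e (nat_lit 75648) (nat_lit 0) .nil) .nil))) 
(.lf (nat_lit 466437) (.g (nat_lit 3690) (.e (nat_lit 3249) (nat_lit 197) (.e (nat_lit 532569) (nat_lit 16) (.e (nat_lit 401448) (nat_lit 10) (.e (nat_lit 434246) (nat_lit 28) (.e (nat_lit 573471) (nat_lit 11) (.e (nat_lit 16433) (nat_lit 9) (.e (nat_lit 425996) (nat_lit 0) .nil))))))) (.g (nat_lit 1) (.e (nat_lit 76555) (nat_lit 0) .nil) .nil)))) (.nd (nat_lit 9) 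
(.lf (nat_lit 466181) (.g (nat_lit 2669) (.e (nat_lit 3249) (nat_lit 197) (.e (nat_lit 532504) (nat_lit 1) (.e (nat_lit 57852) (nat_lit 252) (.e (nat_lit 57409) (nat_lit 12) (.e (nat_lit 336454) (nat_lit 34) (.e (nat_lit 483385) (nat_lit 23) (.e (nat_lit 336284) (nat_lit 15) .nil))))))) (.g (nat_lit 1) (.e (nat_lit 75961) (nat_lit 0) .nil) .nil))) 
(.lf (nat_lit 466693) (.g (nat_lit 3320) (.e (nat_lit 3252) (nat_lit 197) (.e (nat_lit 532535) (nat_lit 9) (.e (nat_lit 336173) (nat_lit 10) (.e (nat_lit 344117) (nat_lit 21) (.e (nat_lit 516138) (nat_lit 7) (.e (nat_lit 409646) (nat_lit 18) (.e (nat_lit 303112) (nat_lit 0) .nil))))))) (.g (nat_lit 1) (.e (nat_lit 77004) (nat_lit 0) .nil) .nil))))) (.nd (nat_lit 8) (.nd (nat_lit 9) 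
(.lf (nat_lit 466053) (.g (nat_lit 4270) (.e (nat_lit 3248) (nat_lit 197) (.e (nat_lit 532515) (nat_lit 3) (.e (nat_lit 114716) (nat_lit 22) (.e (nat_lit 90172) (nat_lit 14) (.e (nat_lit 180244) (nat_lit 5) (.e (nat_lit 532503) (nat_lit 1) (.e (nat_lit 57685) (nat_lit 156) (.e (nat_lit 163844) (nat_lit 0) .nil)))))))) (.g (nat_lit 1) (.e (nat_lit 75789) (nat_lit 0) .nil) .nil))) 
(.lf (nat_lit 466565) (.g (nat_lit 4563) (.e (nat_lit 3251) (nat_lit 197) (.e (nat_lit 532550) (nat_lit 12) (.e (nat_lit 360474) (nat_lit 8) (.e (nat_lit 557094) (nat_lit 12) (.e (nat_lit 164022) (nat_lit 46) .nil))))) (.g (nat_lit 0) (.e (nat_lit 76801) (nat_lit 0) .nil) .nil)))) (.nd (nat_lit 9) 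
(.lf (nat_lit 466309) (.g (nat_lit 1532) (.e (nat_lit 3249) (nat_lit 197) (.e (nat_lit 532549) (nat_lit 12) (.e (nat_lit 360474) (nat_lit 8) (.e (nat_lit 557094) (nat_lit 12) .nil)))) (.g (nat_lit 0) (.e (nat_lit 76312) (nat_lit 0) .nil) .nil))) 
(.lf (nat_lit 466821) (.g (nat_lit 1828) (.e (nat_lit 3252) (nat_lit 197) (.e (nat_lit 532561) (nat_lit 14) (.e (nat_lit 376865) (nat_lit 22) (.e (nat_lit 90128) (nat_lit 9) (.e (nat_lit 7936) (nat_lit 182) .nil))))) (.g (nat_lit 0) (.e (nat_lit 77157) (nat_lit 0) .nil) .nil)))))) (.nd (nat_lit 7) (.nd (nat_lit 8) (.nd (nat_lit 9) 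
(.lf (nat_lit 465989) (.g (nat_lit 2870) (.e (nat_lit 3248) (nat_lit 197) (.e (nat_lit 532503) (nat_lit 1) (.e (nat_lit 57931) (nat_lit 282) (.e (nat_lit 163866) (nat_lit 2) (.e (nat_lit 196668) (nat_lit 14) (.e (nat_lit 73747) (nat_lit 3) (.e (nat_lit 516131) (nat_lit 3) (.e (nat_lit 221198) (nat_lit 20) .nil)))))))) (.g (nat_lit 1) (.e (nat_lit 75718) (nat_lit 0) .nil) .nil))) 
(.lf (nat_lit 466501) (.g (nat_lit 2781) (.e (nat_lit 3251) (nat_lit 197) (.e (nat_lit 532501) (nat_lit 1) (.e (nat_lit 57851) (nat_lit 252) (.e (nat_lit 57406) (nat_lit 12) (.e (nat_lit 336456) (nat_lit 34) (.e (nat_lit 483393) (nat_lit 23) (.e (nat_lit 336291) (nat_lit 15) .nil))))))) (.g (nat_lit 1) (.e (nat_lit 76687) (nat_lit 0) .nil) .nil)))) (.nd (nat_lit 9) 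
(.lf (nat_lit 466245) (.g (nat_lit 1578) (.e (nat_lit 3249) (nat_lit 197) (.e (nat_lit 532523) (nat_lit 7) (.e (nat_lit 319531) (nat_lit 16) (.e (nat_lit 286727) (nat_lit 0) .nil)))) (.g (nat_lit 0) (.e (nat_lit 76122) (nat_lit 0) .nil) .nil))) 
(.lf (nat_lit 466757) (.g (nat_lit 3181) (.e (nat_lit 3252) (nat_lit 197) (.e (nat_lit 532550) (nat_lit 12) (.e (nat_lit 360474) (nat_lit 8) (.e (nat_lit 557093) (nat_lit 12) (.e (nat_lit 164023) (nat_lit 46) .nil))))) (.g (nat_lit 0) (.e (nat_lit 77088) (nat_lit 0) .nil) .nil))))) (.nd (nat_lit 8) (.nd (nat_lit 9) 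
(.lf (nat_lit 466117) (.g (nat_lit 3384) (.e (nat_lit 3249) (nat_lit 197) (.e (nat_lit 532500) (nat_lit 1) (.e (nat_lit 57851) (nat_lit 252) (.e (nat_lit 57354) (nat_lit 0) (.e (nat_lit 1855) (nat_lit 124) (.e (nat_lit 557105) (nat_lit 14) (.e (nat_lit 180252) (nat_lit 10) (.e (nat_lit 573481) (nat_lit 13) (.e (nat_lit 65636) (nat_lit 15) .nil))))))))) (.g (nat_lit 1) (.e (nat_lit 75890) (nat_lit 0) .nil) .nil))) 
(.lf (nat_lit 466629) (.g (nat_lit 2703) (.e (nat_lit 3252) (nat_lit 197) (.e (nat_lit 532501) (nat_lit 1) (.e (nat_lit 57851) (nat_lit 252) (.e (nat_lit 57406) (nat_lit 12) (.e (nat_lit 336456) (nat_lit 34) (.e (nat_lit 483379) (nat_lit 23) (.e (nat_lit 336259) (nat_lit 15) .nil))))))) (.g (nat_lit 1) (.e (nat_lit 76902) (nat_lit 0) .nil) .nil)))) (.nd (nat_lit 9) 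
(.lf (nat_lit 466373) (.g (nat_lit 4428) (.e (nat_lit 3249) (nat_lit 197) (.e (nat_lit 532550) (nat_lit 12) (.e (nat_lit 360475) (nat_lit 8) (.e (nat_lit 557090) (nat_lit 12) .nil)))) (.g (nat_lit 0) (.e (nat_lit 76406) (nat_lit 0) .nil) .nil))) 
(.lf (nat_lit 466885) (.g (nat_lit 2774) (.e (nat_lit 3253) (nat_lit 197) (.e (nat_lit 532499) (nat_lit 1) (.e (nat_lit 57927) (nat_lit 282) (.e (nat_lit 163866) (nat_lit 2) (.e (nat_lit 196670) (nat_lit 14) (.e (nat_lit 73746) (nat_lit 3) (.e (nat_lit 516129) (nat_lit 3) (.e (nat_lit 221203) (nat_lit 20) .nil)))))))) (.g (nat_lit 1) (.e (nat_lit 77263) (nat_lit 0) .nil) .nil))))))) 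
(.nd (nat_lit 6) (.nd (nat_lit 7) (.nd (nat_lit 8) (.nd (nat_lit 9) 
(.lf (nat_lit 465957) (.g (nat_lit 4829) (.e (nat_lit 3242) (nat_lit 197) (.e (nat_lit 532550) (nat_lit 12) (.e (nat_lit 360475) (nat_lit 8) (.e (nat_lit 557091) (nat_lit 12) (.e (nat_lit 164022) (nat_lit 46) (.e (nat_lit 704737) (nat_lit 11) (.e (nat_lit 16385) (nat_lit 0) .nil))))))) (.g (nat_lit 1) (.e (nat_lit 75681) (nat_lit 0) .nil) .nil))) 
(.lf (nat_lit 466469) (.g (nat_lit 2561) (.e (nat_lit 3250) (nat_lit 197) (.e (nat_lit 532504) (nat_lit 1) (.e (nat_lit 57851) (nat_lit 252) (.e (nat_lit 57406) (nat_lit 12) (.e (nat_lit 336456) (nat_lit 34) .nil))))) (.g (nat_lit 0) (.e (nat_lit 76645) (nat_lit 0) .nil) .nil)))) (.nd (nat_lit 9) 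
(.lf (nat_lit 466213) (.g (nat_lit 1559) (.e (nat_lit 3249) (nat_lit 197) (.e (nat_lit 532511) (nat_lit 2) (.e (nat_lit 106536) (nat_lit 11) (.e (nat_lit 16416) (nat_lit 3) (.e (nat_lit 204877) (nat_lit 31) .nil))))) (.g (nat_lit 0) (.e (nat_lit 75998) (nat_lit 0) .nil) .nil))) 
(.lf (nat_lit 466725) (.g (nat_lit 2924) (.e (nat_lit 3252) (nat_lit 197) (.e (nat_lit 532550) (nat_lit 12) (.e (nat_lit 360466) (nat_lit 3) (.e (nat_lit 516139) (nat_lit 7) (.e (nat_lit 409648) (nat_lit 18) .nil))))) (.g (nat_lit 0) (.e (nat_lit 77048) (nat_lit 0) .nil) .nil))))) (.nd (nat_lit 8) (.nd (nat_lit 9) 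
(.lf (nat_lit 466085) (.g (nat_lit 2585) (.e (nat_lit 3249) (nat_lit 197) (.e (nat_lit 532499) (nat_lit 1) (.e (nat_lit 57847) (nat_lit 252) (.e (nat_lit 57406) (nat_lit 12) .nil)))) (.g (nat_lit 0) (.e (nat_lit 75848) (nat_lit 0) .nil) .nil))) 
(.lf (nat_lit 466597) (.g (nat_lit 3290) (.e (nat_lit 3252) (nat_lit 197) (.e (nat_lit 532499) (nat_lit 1) (.e (nat_lit 57926) (nat_lit 282) (.e (nat_lit 163869) (nat_lit 2) (.e (nat_lit 196670) (nat_lit 14) (.e (nat_lit 73746) (nat_lit 3) (.e (nat_lit 516129) (nat_lit 3) (.e (nat_lit 221200) (nat_lit 20) .nil)))))))) (.g (nat_lit 1) (.e (nat_lit 76838) (nat_lit 0) .nil) .nil)))) (.nd (nat_lit 9) 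
(.lf (nat_lit 466341) (.g (nat_lit 1743) (.e (nat_lit 3249) (nat_lit 197) (.e (nat_lit 532550) (nat_lit 12) (.e (nat_lit 360474) (nat_lit 8) (.e (nat_lit 557094) (nat_lit 12) .nil)))) (.g (nat_lit 0) (.e (nat_lit 76374) (nat_lit 0) .nil) .nil))) 
(.lf (nat_lit 466853) (.g (nat_lit 2434) (.e (nat_lit 3253) (nat_lit 197) (.e (nat_lit 532499) (nat_lit 1) (.e (nat_lit 57926) (nat_lit 282) (.e (nat_lit 163868) (nat_lit 2) (.e (nat_lit 196668) (nat_lit 14) (.e (nat_lit 73747) (nat_lit 3) (.e (nat_lit 516130) (nat_lit 3) (.e (nat_lit 221204) (nat_lit 20) .nil)))))))) (.g (nat_lit 1) (.e (nat_lit 77220) (nat_lit 0) .nil) .nil)))))) 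
(.nd (nat_lit 7) (.nd (nat_lit 8) (.nd (nat_lit 9) 
(.lf (nat_lit 466021) (.g (nat_lit 1787) (.e (nat_lit 3248) (nat_lit 197) (.e (nat_lit 532504) (nat_lit 1) (.e (nat_lit 57854) (nat_lit 252) (.e (nat_lit 57445) (nat_lit 19) .nil)))) (.g (nat_lit 0) (.e (nat_lit 75754) (nat_lit 0) .nil) .nil))) 
(.lf (nat_lit 466533) (.g (nat_lit 2332) (.e (nat_lit 3251) (nat_lit 197) (.e (nat_lit 532510) (nat_lit 2) (.e (nat_lit 106536) (nat_lit 11) (.e (nat_lit 16412) (nat_lit 2) (.e (nat_lit 196674) (nat_lit 15) (.e (nat_lit 81922) (nat_lit 0) .nil)))))) (.g (nat_lit 1) (.e (nat_lit 76733) (nat_lit 0) .nil) .nil)))) (.nd (nat_lit 9) 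
(.lf (nat_lit 466277) (.g (nat_lit 628) (.e (nat_lit 3249) (nat_lit 197) (.e (nat_lit 532523) (nat_lit 7) (.e (nat_lit 327424) (nat_lit 16) .nil))) (.g (nat_lit 0) (.e (nat_lit 76154) (nat_lit 0) .nil) .nil))) 
(.lf (nat_lit 466789) (.g (nat_lit 3179) (.e (nat_lit 3252) (nat_lit 197) (.e (nat_lit 532551) (nat_lit 12) (.e (nat_lit 360467) (nat_lit 3) (.e (nat_lit 516139) (nat_lit 7) (.e (nat_lit 409648) (nat_lit 18) (.e (nat_lit 303108) (nat_lit 0) .nil)))))) (.g (nat_lit 1) (.e (nat_lit 77121) (nat_lit 0) .nil) .nil))))) (.nd (nat_lit 8) (.nd (nat_lit 9) 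
(.lf (nat_lit 466149) (.g (nat_lit 3959) (.e (nat_lit 3249) (nat_lit 197) (.e (nat_lit 532503) (nat_lit 1) (.e (nat_lit 57931) (nat_lit 282) (.e (nat_lit 163867) (nat_lit 2) (.e (nat_lit 196668) (nat_lit 14) (.e (nat_lit 73747) (nat_lit 3) (.e (nat_lit 516129) (nat_lit 3) (.e (nat_lit 221202) (nat_lit 20) .nil)))))))) (.g (nat_lit 1) (.e (nat_lit 75924) (nat_lit 0) .nil) .nil))) 
(.lf (nat_lit 466661) (.g (nat_lit 1551) (.e (nat_lit 3252) (nat_lit 197) (.e (nat_lit 532513) (nat_lit 3) (.e (nat_lit 114714) (nat_lit 22) (.e (nat_lit 90169) (nat_lit 13) .nil)))) (.g (nat_lit 0) (.e (nat_lit 76949) (nat_lit 0) .nil) .nil)))) (.nd (nat_lit 9) 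
(.lf (nat_lit 466405) (.g (nat_lit 3042) (.e (nat_lit 3249) (nat_lit 197) (.e (nat_lit 532563) (nat_lit 15) (.e (nat_lit 385068) (nat_lit 26) (.e (nat_lit 532530) (nat_lit 9) (.e (nat_lit 336326) (nat_lit 18) (.e (nat_lit 204854) (nat_lit 26) (.e (nat_lit 336284) (nat_lit 15) .nil))))))) (.g (nat_lit 1) (.e (nat_lit 76477) (nat_lit 0) .nil) .nil))) 
(.lf (nat_lit 466917) (.g (nat_lit 2661) (.e (nat_lit 3253) (nat_lit 197) (.e (nat_lit 532499) (nat_lit 1) (.e (nat_lit 57927) (nat_lit 282) (.e (nat_lit 163869) (nat_lit 2) (.e (nat_lit 196668) (nat_lit 14) (.e (nat_lit 73746) (nat_lit 3) (.e (nat_lit 516131) (nat_lit 3) (.e (nat_lit 221204) (nat_lit 20) .nil)))))))) (.g (nat_lit 1) (.e (nat_lit 77299) (nat_lit 0) .nil) .nil)))))))) 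
(.nd (nat_lit 5) (.nd (nat_lit 6) (.nd (nat_lit 7) (.nd (nat_lit 8) (.nd (nat_lit 9) 
(.lf (nat_lit 465941) (.g (nat_lit 4827) (.e (nat_lit 3242) (nat_lit 197) (.e (nat_lit 532550) (nat_lit 12) (.e (nat_lit 360474) (nat_lit 8) (.e (nat_lit 557094) (nat_lit 12) (.e (nat_lit 164022) (nat_lit 46) (.e (nat_lit 704737) (nat_lit 11) (.e (nat_lit 16390) (nat_lit 0) .nil))))))) (.g (nat_lit 1) (.e (nat_lit 75664) (nat_lit 0) .nil) .nil))) 
(.lf (nat_lit 466453) (.g (nat_lit 2162) (.e (nat_lit 3250) (nat_lit 197) (.e (nat_lit 532499) (nat_lit 1) (.e (nat_lit 57927) (nat_lit 282) (.e (nat_lit 163868) (nat_lit 2) (.e (nat_lit 196670) (nat_lit 14) (.e (nat_lit 73746) (nat_lit 3) (.e (nat_lit 516131) (nat_lit 3) (.e (nat_lit 221197) (nat_lit 20) .nil)))))))) (.g (nat_lit 1) (.e (nat_lit 76627) (nat_lit 0) .nil) .nil)))) (.nd (nat_lit 9) 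
(.lf (nat_lit 466197) (.g (nat_lit 1435) (.e (nat_lit 3249) (nat_lit 197) (.e (nat_lit 532508) (nat_lit 2) (.e (nat_lit 106534) (nat_lit 11) (.e (nat_lit 16416) (nat_lit 3) (.e (nat_lit 204865) (nat_lit 28) (.e (nat_lit 352261) (nat_lit 0) .nil)))))) (.g (nat_lit 1) (.e (nat_lit 75982) (nat_lit 0) .nil) .nil))) 
(.lf (nat_lit 466709) (.g (nat_lit 5158) (.e (nat_lit 3252) (nat_lit 197) (.e (nat_lit 532549) (nat_lit 12) (.e (nat_lit 360466) (nat_lit 3) (.e (nat_lit 516138) (nat_lit 7) (.e (nat_lit 409645) (nat_lit 18) (.e (nat_lit 303112) (nat_lit 0) .nil)))))) (.g (nat_lit 1) (.e (nat_lit 77024) (nat_lit 0) .nil) .nil))))) (.nd (nat_lit 8) (.nd (nat_lit 9) 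
(.lf (nat_lit 466069) (.g (nat_lit 1571) (.e (nat_lit 3248) (nat_lit 197) (.e (nat_lit 532534) (nat_lit 9) (.e (nat_lit 336211) (nat_lit 13) (.e (nat_lit 393225) (nat_lit 9) (.e (nat_lit 335988) (nat_lit 1) .nil))))) (.g (nat_lit 0) (.e (nat_lit 75817) (nat_lit 0) .nil) .nil))) 
(.lf (nat_lit 466581) (.g (nat_lit 5130) (.e (nat_lit 3252) (nat_lit 197) (.e (nat_lit 532499) (nat_lit 1) (.e (nat_lit 57847) (nat_lit 252) (.e (nat_lit 57407) (nat_lit 12) (.e (nat_lit 336454) (nat_lit 34) (.e (nat_lit 483385) (nat_lit 23) (.e (nat_lit 336260) (nat_lit 15) .nil))))))) (.g (nat_lit 1) (.e (nat_lit 76818) (nat_lit 0) .nil) .nil)))) (.nd (nat_lit 9) 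
(.lf (nat_lit 466325) (.g (nat_lit 2347) (.e (nat_lit 3249) (nat_lit 197) (.e (nat_lit 532550) (nat_lit 12) (.e (nat_lit 360474) (nat_lit 8) (.e (nat_lit 557070) (nat_lit 9) (.e (nat_lit 7936) (nat_lit 22) .nil))))) (.g (nat_lit 0) (.e (nat_lit 76357) (nat_lit 0) .nil) .nil))) 
(.lf (nat_lit 466837) (.g (nat_lit 3140) (.e (nat_lit 3253) (nat_lit 197) (.e (nat_lit 532499) (nat_lit 1) (.e (nat_lit 57847) (nat_lit 252) (.e (nat_lit 57345) (nat_lit 0) (.e (nat_lit 1860) (nat_lit 124) (.e (nat_lit 557105) (nat_lit 14) (.e (nat_lit 180252) (nat_lit 10) (.e (nat_lit 573482) (nat_lit 13) (.e (nat_lit 65640) (nat_lit 15) .nil))))))))) (.g (nat_lit 1) (.e (nat_lit 77203) (nat_lit 0) .nil) .nil)))))) 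
(.nd (nat_lit 7) (.nd (nat_lit 8) (.nd (nat_lit 9) 
(.lf (nat_lit 466005) (.g (nat_lit 2066) (.e (nat_lit 3248) (nat_lit 197) (.e (nat_lit 532503) (nat_lit 1) (.e (nat_lit 57931) (nat_lit 282) (.e (nat_lit 163874) (nat_lit 3) (.e (nat_lit 204854) (nat_lit 26) (.e (nat_lit 336019) (nat_lit 3) (.e (nat_lit 98341) (nat_lit 20) (.e (nat_lit 221197) (nat_lit 20) .nil)))))))) (.g (nat_lit 1) (.e (nat_lit 75736) (nat_lit 0) .nil) .nil))) 
(.lf (nat_lit 466517) (.g (nat_lit 1637) (.e (nat_lit 3251) (nat_lit 197) (.e (nat_lit 532504) (nat_lit 1) (.e (nat_lit 57851) (nat_lit 252) (.e (nat_lit 57406) (nat_lit 12) (.e (nat_lit 336456) (nat_lit 34) (.e (nat_lit 483387) (nat_lit 23) (.e (nat_lit 336294) (nat_lit 15) .nil))))))) (.g (nat_lit 1) (.e (nat_lit 76715) (nat_lit 0) .nil) .nil)))) (.nd (nat_lit 9) 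
(.lf (nat_lit 466261) (.g (nat_lit 2107) (.e (nat_lit 3249) (nat_lit 197) (.e (nat_lit 532523) (nat_lit 7) (.e (nat_lit 319532) (nat_lit 16) (.e (nat_lit 286734) (nat_lit 3) (.e (nat_lit 98380) (nat_lit 31) .nil))))) (.g (nat_lit 0) (.e (nat_lit 76138) (nat_lit 0) .nil) .nil))) 
(.lf (nat_lit 466773) (.g (nat_lit 3925) (.e (nat_lit 3252) (nat_lit 197) (.e (nat_lit 532550) (nat_lit 12) (.e (nat_lit 360475) (nat_lit 8) (.e (nat_lit 557084) (nat_lit 10) .nil)))) (.g (nat_lit 0) (.e (nat_lit 77105) (nat_lit 0) .nil) .nil))))) (.nd (nat_lit 8) (.nd (nat_lit 9) 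
(.lf (nat_lit 466133) (.g (nat_lit 2177) (.e (nat_lit 3249) (nat_lit 197) (.e (nat_lit 532503) (nat_lit 1) (.e (nat_lit 57847) (nat_lit 252) (.e (nat_lit 57447) (nat_lit 19) (.e (nat_lit 393229) (nat_lit 9) (.e (nat_lit 336086) (nat_lit 9) (.e (nat_lit 336284) (nat_lit 15) .nil))))))) (.g (nat_lit 1) (.e (nat_lit 75906) (nat_lit 0) .nil) .nil))) 
(.lf (nat_lit 466645) (.g (nat_lit 2750) (.e (nat_lit 3252) (nat_lit 197) (.e (nat_lit 532503) (nat_lit 1) (.e (nat_lit 57931) (nat_lit 282) (.e (nat_lit 163869) (nat_lit 2) (.e (nat_lit 196670) (nat_lit 14) (.e (nat_lit 73746) (nat_lit 3) (.e (nat_lit 516129) (nat_lit 3) (.e (nat_lit 221199) (nat_lit 20) .nil)))))))) (.g (nat_lit 1) (.e (nat_lit 76924) (nat_lit 0) .nil) .nil)))) (.nd (nat_lit 9) 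
(.lf (nat_lit 466389) (.g (nat_lit 3196) (.e (nat_lit 3249) (nat_lit 197) (.e (nat_lit 532559) (nat_lit 14) (.e (nat_lit 376865) (nat_lit 22) (.e (nat_lit 90185) (nat_lit 17) (.e (nat_lit 237585) (nat_lit 1) (.e (nat_lit 164403) (nat_lit 256) (.e (nat_lit 57579) (nat_lit 61) .nil))))))) (.g (nat_lit 1) (.e (nat_lit 76450) (nat_lit 0) .nil) .nil))) 
(.lf (nat_lit 466901) (.g (nat_lit 3872) (.e (nat_lit 3253) (nat_lit 197) (.e (nat_lit 532499) (nat_lit 1) (.e (nat_lit 57927) (nat_lit 282) (.e (nat_lit 163868) (nat_lit 2) (.e (nat_lit 196668) (nat_lit 14) (.e (nat_lit 73747) (nat_lit 3) (.e (nat_lit 516129) (nat_lit 3) (.e (nat_lit 221203) (nat_lit 20) .nil)))))))) (.g (nat_lit 1) (.e (nat_lit 77279) (nat_lit 0) .nil) .nil))))))) 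
(.nd (nat_lit 6) (.nd (nat_lit 7) (.nd (nat_lit 8) (.nd (nat_lit 9) 
(.lf (nat_lit 465973) (.g (nat_lit 1875) (.e (nat_lit 3248) (nat_lit 197) (.e (nat_lit 532503) (nat_lit 1) (.e (nat_lit 57847) (nat_lit 252) (.e (nat_lit 57445) (nat_lit 19) (.e (nat_lit 393229) (nat_lit 9) .nil))))) (.g (nat_lit 0) (.e (nat_lit 75700) (nat_lit 0) .nil) .nil))) 
(.lf (nat_lit 466485) (.g (nat_lit 4676) (.e (nat_lit 3250) (nat_lit 197) (.e (nat_lit 532550) (nat_lit 12) (.e (nat_lit 360474) (nat_lit 8) (.e (nat_lit 557094) (nat_lit 12) (.e (nat_lit 164022) (nat_lit 46) (.e (nat_lit 704738) (nat_lit 11) (.e (nat_lit 16390) (nat_lit 0) .nil))))))) (.g (nat_lit 1) (.e (nat_lit 76669) (nat_lit 0) .nil) .nil)))) (.nd (nat_lit 9) 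
(.lf (nat_lit 466229) (.g (nat_lit 2184) (.e (nat_lit 3249) (nat_lit 197) (.e (nat_lit 532523) (nat_lit 7) (.e (nat_lit 319528) (nat_lit 16) (.e (nat_lit 286735) (nat_lit 3) (.e (nat_lit 98371) (nat_lit 28) .nil))))) (.g (nat_lit 0) (.e (nat_lit 76106) (nat_lit 0) .nil) .nil))) 
(.lf (nat_lit 466741) (.g (nat_lit 5107) (.e (nat_lit 3252) (nat_lit 197) (.e (nat_lit 532550) (nat_lit 12) (.e (nat_lit 360468) (nat_lit 3) (.e (nat_lit 516139) (nat_lit 7) (.e (nat_lit 409645) (nat_lit 18) (.e (nat_lit 303112) (nat_lit 0) .nil)))))) (.g (nat_lit 1) (.e (nat_lit 77069) (nat_lit 0) .nil) .nil))))) (.nd (nat_lit 8) (.nd (nat_lit 9) 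
(.lf (nat_lit 466101) (.g (nat_lit 2955) (.e (nat_lit 3249) (nat_lit 197) (.e (nat_lit 532499) (nat_lit 1) (.e (nat_lit 57927) (nat_lit 282) (.e (nat_lit 163869) (nat_lit 2) (.e (nat_lit 196670) (nat_lit 14) (.e (nat_lit 73746) (nat_lit 3) (.e (nat_lit 516129) (nat_lit 3) (.e (nat_lit 229120) (nat_lit 20) .nil)))))))) (.g (nat_lit 1) (.e (nat_lit 75870) (nat_lit 0) .nil) .nil))) 
(.lf (nat_lit 466613) (.g (nat_lit 2804) (.e (nat_lit 3252) (nat_lit 197) (.e (nat_lit 532499) (nat_lit 1) (.e (nat_lit 57927) (nat_lit 282) (.e (nat_lit 163871) (nat_lit 2) (.e (nat_lit 196670) (nat_lit 14) (.e (nat_lit 73746) (nat_lit 3) (.e (nat_lit 516129) (nat_lit 3) (.e (nat_lit 221199) (nat_lit 20) .nil)))))))) (.g (nat_lit 1) (.e (nat_lit 76875) (nat_lit 0) .nil) .nil)))) (.nd (nat_lit 9) 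
(.lf (nat_lit 466357) (.g (nat_lit 3159) (.e (nat_lit 3249) (nat_lit 197) (.e (nat_lit 532550) (nat_lit 12) (.e (nat_lit 360475) (nat_lit 8) (.e (nat_lit 557085) (nat_lit 11) .nil)))) (.g (nat_lit 0) (.e (nat_lit 76390) (nat_lit 0) .nil) .nil))) 
(.lf (nat_lit 466869) (.g (nat_lit 3161) (.e (nat_lit 3253) (nat_lit 197) (.e (nat_lit 532499) (nat_lit 1) (.e (nat_lit 57926) (nat_lit 282) (.e (nat_lit 163871) (nat_lit 2) (.e (nat_lit 196670) (nat_lit 14) (.e (nat_lit 73746) (nat_lit 3) (.e (nat_lit 516129) (nat_lit 3) (.e (nat_lit 221204) (nat_lit 20) .nil)))))))) (.g (nat_lit 1) (.e (nat_lit 77240) (nat_lit 0) .nil) .nil)))))) 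
(.nd (nat_lit 7) (.nd (nat_lit 8) (.nd (nat_lit 9) 
(.lf (nat_lit 466037) (.g (nat_lit 1350) (.e (nat_lit 3248) (nat_lit 197) (.e (nat_lit 532513) (nat_lit 3) (.e (nat_lit 114714) (nat_lit 22) (.e (nat_lit 90172) (nat_lit 14) .nil)))) (.g (nat_lit 0) (.e (nat_lit 75771) (nat_lit 0) .nil) .nil))) 
(.lf (nat_lit 466549) (.g (nat_lit 1655) (.e (nat_lit 3251) (nat_lit 197) (.e (nat_lit 532511) (nat_lit 2) (.e (nat_lit 106536) (nat_lit 11) (.e (nat_lit 16416) (nat_lit 3) (.e (nat_lit 204877) (nat_lit 31) (.e (nat_lit 376835) (nat_lit 0) .nil)))))) (.g (nat_lit 1) (.e (nat_lit 76749) (nat_lit 0) .nil) .nil)))) (.nd (nat_lit 9) 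
(.lf (nat_lit 466293) (.g (nat_lit 2684) (.e (nat_lit 3249) (nat_lit 197) (.e (nat_lit 532542) (nat_lit 9) (.e (nat_lit 336194) (nat_lit 12) (.e (nat_lit 385066) (nat_lit 26) (.e (nat_lit 532513) (nat_lit 3) (.e (nat_lit 114696) (nat_lit 11) (.e (nat_lit 426072) (nat_lit 0) .nil))))))) (.g (nat_lit 1) (.e (nat_lit 76214) (nat_lit 0) .nil) .nil))) 
(.lf (nat_lit 466805) (.g (nat_lit 1618) (.e (nat_lit 3252) (nat_lit 197) (.e (nat_lit 532559) (nat_lit 14) (.e (nat_lit 376869) (nat_lit 23) (.e (nat_lit 98350) (nat_lit 24) (.e (nat_lit 417536) (nat_lit 18) .nil))))) (.g (nat_lit 0) (.e (nat_lit 77137) (nat_lit 0) .nil) .nil))))) (.nd (nat_lit 8) (.nd (nat_lit 9) 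
(.lf (nat_lit 466165) (.g (nat_lit 925) (.e (nat_lit 3249) (nat_lit 197) (.e (nat_lit 532504) (nat_lit 1) (.e (nat_lit 57851) (nat_lit 252) (.e (nat_lit 57406) (nat_lit 12) .nil)))) (.g (nat_lit 0) (.e (nat_lit 75945) (nat_lit 0) .nil) .nil))) 
(.lf (nat_lit 466677) (.g (nat_lit 5292) (.e (nat_lit 3252) (nat_lit 197) (.e (nat_lit 532535) (nat_lit 9) (.e (nat_lit 336099) (nat_lit 9) (.e (nat_lit 336013) (nat_lit 2) (.e (nat_lit 90130) (nat_lit 9) .nil))))) (.g (nat_lit 0) (.e (nat_lit 76988) (nat_lit 0) .nil) .nil)))) (.nd (nat_lit 9) 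
(.lf (nat_lit 466421) (.g (nat_lit 3525) (.e (nat_lit 3249) (nat_lit 197) (.e (nat_lit 532569) (nat_lit 16) (.e (nat_lit 401448) (nat_lit 10) (.e (nat_lit 434231) (nat_lit 23) (.e (nat_lit 532569) (nat_lit 16) (.e (nat_lit 401444) (nat_lit 9) (.e (nat_lit 425984) (nat_lit 0) .nil))))))) (.g (nat_lit 1) (.e (nat_lit 76534) (nat_lit 0) .nil) .nil))) 
(.lf (nat_lit 466933) (.g (nat_lit 4069) (.e (nat_lit 3253) (nat_lit 197) (.e (nat_lit 532499) (nat_lit 1) (.e (nat_lit 57927) (nat_lit 282) (.e (nat_lit 163871) (nat_lit 2) (.e (nat_lit 196670) (nat_lit 14) (.e (nat_lit 73746) (nat_lit 3) (.e (nat_lit 516129) (nat_lit 3) (.e (nat_lit 221204) (nat_lit 20) .nil)))))))) (.g (nat_lit 1) (.e (nat_lit 77329) (nat_lit 0) .nil) .nil))))))))) 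
(.nd (nat_lit 4) (.nd (nat_lit 5) (.nd (nat_lit 6) (.nd (nat_lit 7) (.nd (nat_lit 8) 
(.nd (nat_lit 9) 
(.lf (nat_lit 465933) (.g (nat_lit 3540) (.e (nat_lit 3242) (nat_lit 197) (.e (nat_lit 532550) (nat_lit 12) (.e (nat_lit 360474) (nat_lit 8) (.e (nat_lit 557094) (nat_lit 12) .nil)))) (.g (nat_lit 0) (.e (nat_lit 75656) (nat_lit 0) .nil) .nil))) 
(.lf (nat_lit 466445) (.g (nat_lit 2873) (.e (nat_lit 3249) (nat_lit 197) (.e (nat_lit 532569) (nat_lit 16) (.e (nat_lit 401453) (nat_lit 12) (.e (nat_lit 475184) (nat_lit 29) (.e (nat_lit 557109) (nat_lit 15) (.e (nat_lit 196352) (nat_lit 20) .nil)))))) (.g (nat_lit 1) (.e (nat_lit 76565) (nat_lit 0) .nil) .nil)))) (.nd (nat_lit 9) 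
(.lf (nat_lit 466189) (.g (nat_lit 3463) (.e (nat_lit 3249) (nat_lit 197) (.e (nat_lit 532504) (nat_lit 1) (.e (nat_lit 57931) (nat_lit 282) (.e (nat_lit 163869) (nat_lit 2) (.e (nat_lit 196668) (nat_lit 14) .nil))))) (.g (nat_lit 0) (.e (nat_lit 75972) (nat_lit 0) .nil) .nil))) 
(.lf (nat_lit 466701) (.g (nat_lit 2471) (.e (nat_lit 3252) (nat_lit 197) (.e (nat_lit 532547) (nat_lit 11) (.e (nat_lit 352312) (nat_lit 22) (.e (nat_lit 90165) (nat_lit 12) (.e (nat_lit 171776) (nat_lit 176) (.e (nat_lit 2798) (nat_lit 180) (.e (nat_lit 303112) (nat_lit 0) .nil))))))) (.g (nat_lit 1) (.e (nat_lit 77015) (nat_lit 0) .nil) .nil))))) (.nd (nat_lit 8) (.nd (nat_lit 9) 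
(.lf (nat_lit 466061) (.g (nat_lit 4123) (.e (nat_lit 3248) (nat_lit 197) (.e (nat_lit 532515) (nat_lit 3) (.e (nat_lit 114716) (nat_lit 22) (.e (nat_lit 90174) (nat_lit 14) (.e (nat_lit 180243) (nat_lit 5) (.e (nat_lit 532503) (nat_lit 1) (.e (nat_lit 57688) (nat_lit 156) (.e (nat_lit 163843) (nat_lit 0) .nil)))))))) (.g (nat_lit 1) (.e (nat_lit 75797) (nat_lit 0) .nil) .nil))) 
(.lf (nat_lit 466573) (.g (nat_lit 5812) (.e (nat_lit 3251) (nat_lit 197) (.e (nat_lit 532550) (nat_lit 12) (.e (nat_lit 360475) (nat_lit 8) (.e (nat_lit 557091) (nat_lit 12) (.e (nat_lit 164022) (nat_lit 46) (.e (nat_lit 704738) (nat_lit 11) (.e (nat_lit 16396) (nat_lit 0) .nil))))))) (.g (nat_lit 1) (.e (nat_lit 76809) (nat_lit 0) .nil) .nil)))) (.nd (nat_lit 9) 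
(.lf (nat_lit 466317) (.g (nat_lit 3386) (.e (nat_lit 3249) (nat_lit 197) (.e (nat_lit 532549) (nat_lit 12) (.e (nat_lit 360475) (nat_lit 8) (.e (nat_lit 557087) (nat_lit 11) (.e (nat_lit 24664) (nat_lit 14) (.e (nat_lit 401418) (nat_lit 0) .nil)))))) (.g (nat_lit 1) (.e (nat_lit 76327) (nat_lit 0) .nil) .nil))) 
(.lf (nat_lit 466829) (.g (nat_lit 2890) (.e (nat_lit 3252) (nat_lit 197) (.e (nat_lit 532569) (nat_lit 16) (.e (nat_lit 401448) (nat_lit 10) (.e (nat_lit 434231) (nat_lit 23) (.e (nat_lit 532490) (nat_lit 0) .nil))))) (.g (nat_lit 0) (.e (nat_lit 77171) (nat_lit 0) .nil) .nil)))))) (.nd (nat_lit 7) (.nd (nat_lit 8) (.nd (nat_lit 9) 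
(.lf (nat_lit 465997) (.g (nat_lit 3857) (.e (nat_lit 3248) (nat_lit 197) (.e (nat_lit 532503) (nat_lit 1) (.e (nat_lit 57931) (nat_lit 282) (.e (nat_lit 163867) (nat_lit 2) (.e (nat_lit 196670) (nat_lit 14) (.e (nat_lit 73746) (nat_lit 3) (.e (nat_lit 516131) (nat_lit 3) (.e (nat_lit 221197) (nat_lit 20) .nil)))))))) (.g (nat_lit 1) (.e (nat_lit 75726) (nat_lit 0) .nil) .nil))) 
(.lf (nat_lit 466509) (.g (nat_lit 2582) (.e (nat_lit 3251) (nat_lit 197) (.e (nat_lit 532503) (nat_lit 1) (.e (nat_lit 57931) (nat_lit 282) (.e (nat_lit 163869) (nat_lit 2) (.e (nat_lit 196670) (nat_lit 14) .nil))))) (.g (nat_lit 0) (.e (nat_lit 76705) (nat_lit 0) .nil) .nil)))) (.nd (nat_lit 9) 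
(.lf (nat_lit 466253) (.g (nat_lit 2719) (.e (nat_lit 3249) (nat_lit 197) (.e (nat_lit 532523) (nat_lit 7) (.e (nat_lit 319531) (nat_lit 16) (.e (nat_lit 286735) (nat_lit 3) (.e (nat_lit 98363) (nat_lit 26) (.e (nat_lit 426230) (nat_lit 9) (.e (nat_lit 426070) (nat_lit 0) .nil))))))) (.g (nat_lit 1) (.e (nat_lit 76130) (nat_lit 0) .nil) .nil))) 
(.lf (nat_lit 466765) (.g (nat_lit 4852) (.e (nat_lit 3252) (nat_lit 197) (.e (nat_lit 532550) (nat_lit 12) (.e (nat_lit 360474) (nat_lit 8) (.e (nat_lit 557094) (nat_lit 12) (.e (nat_lit 164022) (nat_lit 46) (.e (nat_lit 704736) (nat_lit 11) (.e (nat_lit 16396) (nat_lit 0) .nil))))))) (.g (nat_lit 1) (.e (nat_lit 77096) (nat_lit 0) .nil) .nil))))) (.nd (nat_lit 8) (.nd (nat_lit 9) 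
(.lf (nat_lit 466125) (.g (nat_lit 2858) (.e (nat_lit 3249) (nat_lit 197) (.e (nat_lit 532501) (nat_lit 1) (.e (nat_lit 57851) (nat_lit 252) (.e (nat_lit 57354) (nat_lit 0) (.e (nat_lit 1799) (nat_lit 119) (.e (nat_lit 516131) (nat_lit 3) (.e (nat_lit 221212) (nat_lit 22) (.e (nat_lit 196665) (nat_lit 13) (.e (nat_lit 65636) (nat_lit 15) .nil))))))))) (.g (nat_lit 1) (.e (nat_lit 75898) (nat_lit 0) .nil) .nil))) 
(.lf (nat_lit 466637) (.g (nat_lit 2248) (.e (nat_lit 3252) (nat_lit 197) (.e (nat_lit 532501) (nat_lit 1) (.e (nat_lit 57852) (nat_lit 252) (.e (nat_lit 57409) (nat_lit 12) (.e (nat_lit 336454) (nat_lit 34) (.e (nat_lit 483385) (nat_lit 23) (.e (nat_lit 336260) (nat_lit 15) .nil))))))) (.g (nat_lit 1) (.e (nat_lit 76910) (nat_lit 0) .nil) .nil)))) (.nd (nat_lit 9) 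
(.lf (nat_lit 466381) (.g (nat_lit 3296) (.e (nat_lit 3249) (nat_lit 197) (.e (nat_lit 532550) (nat_lit 12) (.e (nat_lit 360475) (nat_lit 8) (.e (nat_lit 557091) (nat_lit 12) (.e (nat_lit 171776) (nat_lit 48) (.e (nat_lit 720906) (nat_lit 11) (.e (nat_lit 426073) (nat_lit 0) .nil))))))) (.g (nat_lit 1) (.e (nat_lit 76414) (nat_lit 0) .nil) .nil))) 
(.lf (nat_lit 466893) (.g (nat_lit 3054) (.e (nat_lit 3253) (nat_lit 197) (.e (nat_lit 532499) (nat_lit 1) (.e (nat_lit 57927) (nat_lit 282) (.e (nat_lit 163868) (nat_lit 2) (.e (nat_lit 196663) (nat_lit 13) (.e (nat_lit 65571) (nat_lit 3) (.e (nat_lit 98341) (nat_lit 20) (.e (nat_lit 221203) (nat_lit 20) .nil)))))))) (.g (nat_lit 1) (.e (nat_lit 77271) (nat_lit 0) .nil) .nil))))))) 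
(.nd (nat_lit 6) (.nd (nat_lit 7) (.nd (nat_lit 8) (.nd (nat_lit 9) 
(.lf (nat_lit 465965) (.g (nat_lit 3235) (.e (nat_lit 3248) (nat_lit 197) (.e (nat_lit 532501) (nat_lit 1) (.e (nat_lit 57851) (nat_lit 252) (.e (nat_lit 57406) (nat_lit 12) (.e (nat_lit 336456) (nat_lit 34) (.e (nat_lit 483383) (nat_lit 23) (.e (nat_lit 336240) (nat_lit 15) .nil))))))) (.g (nat_lit 1) (.e (nat_lit 75689) (nat_lit 0) .nil) .nil))) 
(.lf (nat_lit 466477) (.g (nat_lit 3554) (.e (nat_lit 3250) (nat_lit 197) (.e (nat_lit 532535) (nat_lit 9) (.e (nat_lit 336173) (nat_lit 10) (.e (nat_lit 344126) (nat_lit 25) (.e (nat_lit 548889) (nat_lit 9) (.e (nat_lit 65628) (nat_lit 14) (.e (nat_lit 401412) (nat_lit 0) .nil))))))) (.g (nat_lit 1) (.e (nat_lit 76656) (nat_lit 0) .nil) .nil)))) (.nd (nat_lit 9) 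
(.lf (nat_lit 466221) (.g (nat_lit 2177) (.e (nat_lit 3249) (nat_lit 197) (.e (nat_lit 532523) (nat_lit 7) (.e (nat_lit 319504) (nat_lit 10) (.e (nat_lit 5714) (nat_lit 312) (.e (nat_lit 2682) (nat_lit 168) .nil))))) (.g (nat_lit 0) (.e (nat_lit 76095) (nat_lit 0) .nil) .nil))) 
(.lf (nat_lit 466733) (.g (nat_lit 4778) (.e (nat_lit 3252) (nat_lit 197) (.e (nat_lit 532550) (nat_lit 12) (.e (nat_lit 360467) (nat_lit 3) (.e (nat_lit 516139) (nat_lit 7) (.e (nat_lit 409648) (nat_lit 18) (.e (nat_lit 303108) (nat_lit 0) .nil)))))) (.g (nat_lit 1) (.e (nat_lit 77059) (nat_lit 0) .nil) .nil))))) (.nd (nat_lit 8) (.nd (nat_lit 9) 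
(.lf (nat_lit 466093) (.g (nat_lit 2609) (.e (nat_lit 3249) (nat_lit 197) (.e (nat_lit 532499) (nat_lit 1) (.e (nat_lit 57927) (nat_lit 282) (.e (nat_lit 163867) (nat_lit 2) (.e (nat_lit 196670) (nat_lit 14) (.e (nat_lit 73746) (nat_lit 3) (.e (nat_lit 516129) (nat_lit 3) (.e (nat_lit 221202) (nat_lit 20) .nil)))))))) (.g (nat_lit 1) (.e (nat_lit 75858) (nat_lit 0) .nil) .nil))) 
(.lf (nat_lit 466605) (.g (nat_lit 3696) (.e (nat_lit 3252) (nat_lit 197) (.e (nat_lit 532499) (nat_lit 1) (.e (nat_lit 57927) (nat_lit 282) (.e (nat_lit 163868) (nat_lit 2) (.e (nat_lit 196670) (nat_lit 14) (.e (nat_lit 73746) (nat_lit 3) (.e (nat_lit 516129) (nat_lit 3) (.e (nat_lit 221195) (nat_lit 20) .nil)))))))) (.g (nat_lit 1) (.e (nat_lit 76855) (nat_lit 0) .nil) .nil)))) (.nd (nat_lit 9) 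
(.lf (nat_lit 466349) (.g (nat_lit 3048) (.e (nat_lit 3249) (nat_lit 197) (.e (nat_lit 532550) (nat_lit 12) (.e (nat_lit 360475) (nat_lit 8) (.e (nat_lit 557067) (nat_lit 9) .nil)))) (.g (nat_lit 0) (.e (nat_lit 76382) (nat_lit 0) .nil) .nil))) 
(.lf (nat_lit 466861) (.g (nat_lit 3902) (.e (nat_lit 3253) (nat_lit 197) (.e (nat_lit 532499) (nat_lit 1) (.e (nat_lit 57926) (nat_lit 282) (.e (nat_lit 163869) (nat_lit 2) (.e (nat_lit 196668) (nat_lit 14) (.e (nat_lit 73747) (nat_lit 3) (.e (nat_lit 516129) (nat_lit 3) (.e (nat_lit 221204) (nat_lit 20) .nil)))))))) (.g (nat_lit 1) (.e (nat_lit 77228) (nat_lit 0) .nil) .nil)))))) 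
(.nd (nat_lit 7) (.nd (nat_lit 8) (.nd (nat_lit 9) 
(.lf (nat_lit 466029) (.g (nat_lit 3684) (.e (nat_lit 3248) (nat_lit 197) (.e (nat_lit 532504) (nat_lit 1) (.e (nat_lit 57931) (nat_lit 282) (.e (nat_lit 163869) (nat_lit 2) (.e (nat_lit 196668) (nat_lit 14) (.e (nat_lit 73747) (nat_lit 3) (.e (nat_lit 516129) (nat_lit 3) (.e (nat_lit 221196) (nat_lit 20) .nil)))))))) (.g (nat_lit 1) (.e (nat_lit 75763) (nat_lit 0) .nil) .nil))) 
(.lf (nat_lit 466541) (.g (nat_lit 1887) (.e (nat_lit 3251) (nat_lit 197) (.e (nat_lit 532511) (nat_lit 2) (.e (nat_lit 106534) (nat_lit 11) (.e (nat_lit 16413) (nat_lit 2) (.e (nat_lit 196674) (nat_lit 15) (.e (nat_lit 81922) (nat_lit 0) .nil)))))) (.g (nat_lit 1) (.e (nat_lit 76741) (nat_lit 0) .nil) .nil)))) (.nd (nat_lit 9) 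
(.lf (nat_lit 466285) (.g (nat_lit 2322) (.e (nat_lit 3249) (nat_lit 197) (.e (nat_lit 532530) (nat_lit 9) (.e (nat_lit 336326) (nat_lit 18) (.e (nat_lit 204852) (nat_lit 26) (.e (nat_lit 336326) (nat_lit 18) (.e (nat_lit 204854) (nat_lit 26) (.e (nat_lit 336284) (nat_lit 15) .nil))))))) (.g (nat_lit 1) (.e (nat_lit 76187) (nat_lit 0) .nil) .nil))) 
(.lf (nat_lit 466797) (.g (nat_lit 3597) (.e (nat_lit 3252) (nat_lit 197) (.e (nat_lit 532558) (nat_lit 14) (.e (nat_lit 376868) (nat_lit 23) (.e (nat_lit 98350) (nat_lit 24) (.e (nat_lit 409649) (nat_lit 18) (.e (nat_lit 303112) (nat_lit 0) .nil)))))) (.g (nat_lit 1) (.e (nat_lit 77129) (nat_lit 0) .nil) .nil))))) (.nd (nat_lit 8) (.nd (nat_lit 9) 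
(.lf (nat_lit 466157) (.g (nat_lit 2722) (.e (nat_lit 3249) (nat_lit 197) (.e (nat_lit 532503) (nat_lit 1) (.e (nat_lit 57931) (nat_lit 282) (.e (nat_lit 163874) (nat_lit 3) (.e (nat_lit 204854) (nat_lit 26) (.e (nat_lit 336019) (nat_lit 3) (.e (nat_lit 98342) (nat_lit 20) (.e (nat_lit 221202) (nat_lit 20) .nil)))))))) (.g (nat_lit 1) (.e (nat_lit 75937) (nat_lit 0) .nil) .nil))) 
(.lf (nat_lit 466669) (.g (nat_lit 1542) (.e (nat_lit 3252) (nat_lit 197) (.e (nat_lit 532523) (nat_lit 7) (.e (nat_lit 319533) (nat_lit 16) (.e (nat_lit 286734) (nat_lit 3) .nil)))) (.g (nat_lit 0) (.e (nat_lit 76976) (nat_lit 0) .nil) .nil)))) (.nd (nat_lit 9) 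
(.lf (nat_lit 466413) (.g (nat_lit 2828) (.e (nat_lit 3249) (nat_lit 197) (.e (nat_lit 532569) (nat_lit 16) (.e (nat_lit 401440) (nat_lit 9) (.e (nat_lit 426132) (nat_lit 3) (.e (nat_lit 204846) (nat_lit 24) (.e (nat_lit 319505) (nat_lit 10) (.e (nat_lit 5712) (nat_lit 312) (.e (nat_lit 2505) (nat_lit 157) .nil)))))))) (.g (nat_lit 1) (.e (nat_lit 76493) (nat_lit 0) .nil) .nil))) 
(.lf (nat_lit 466925) (.g (nat_lit 2211) (.e (nat_lit 3253) (nat_lit 197) (.e (nat_lit 532499) (nat_lit 1) (.e (nat_lit 57927) (nat_lit 282) (.e (nat_lit 163869) (nat_lit 2) (.e (nat_lit 196670) (nat_lit 14) (.e (nat_lit 73746) (nat_lit 3) (.e (nat_lit 516130) (nat_lit 3) (.e (nat_lit 221204) (nat_lit 20) .nil)))))))) (.g (nat_lit 1) (.e (nat_lit 77307) (nat_lit 0) .nil) .nil)))))))) 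
(.nd (nat_lit 5) (.nd (nat_lit 6) (.nd (nat_lit 7) (.nd (nat_lit 8) (.nd (nat_lit 9) 
(.lf (nat_lit 465949) (.g (nat_lit 7260) (.e (nat_lit 3242) (nat_lit 197) (.e (nat_lit 532550) (nat_lit 12) (.e (nat_lit 360475) (nat_lit 8) (.e (nat_lit 557090) (nat_lit 12) .nil)))) (.g (nat_lit 0) (.e (nat_lit 75673) (nat_lit 0) .nil) .nil))) 
(.lf (nat_lit 466461) (.g (nat_lit 2323) (.e (nat_lit 3250) (nat_lit 197) (.e (nat_lit 532499) (nat_lit 1) (.e (nat_lit 57927) (nat_lit 282) (.e (nat_lit 163874) (nat_lit 3) (.e (nat_lit 204872) (nat_lit 30) (.e (nat_lit 368676) (nat_lit 21) (.e (nat_lit 516131) (nat_lit 3) (.e (nat_lit 221198) (nat_lit 20) .nil)))))))) (.g (nat_lit 1) (.e (nat_lit 76636) (nat_lit 0) .nil) .nil)))) 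
(.nd (nat_lit 9) 
(.lf (nat_lit 466205) (.g (nat_lit 1220) (.e (nat_lit 3249) (nat_lit 197) (.e (nat_lit 532510) (nat_lit 2) (.e (nat_lit 106536) (nat_lit 11) (.e (nat_lit 16413) (nat_lit 2) (.e (nat_lit 196674) (nat_lit 15) (.e (nat_lit 89856) (nat_lit 0) .nil)))))) (.g (nat_lit 1) (.e (nat_lit 75990) (nat_lit 0) .nil) .nil))) 
(.lf (nat_lit 466717) (.g (nat_lit 2836) (.e (nat_lit 3252) (nat_lit 197) (.e (nat_lit 532550) (nat_lit 12) (.e (nat_lit 360465) (nat_lit 3) (.e (nat_lit 516139) (nat_lit 7) (.e (nat_lit 409649) (nat_lit 18) (.e (nat_lit 303112) (nat_lit 0) .nil)))))) (.g (nat_lit 1) (.e (nat_lit 77039) (nat_lit 0) .nil) .nil))))) (.nd (nat_lit 8) (.nd (nat_lit 9) 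
(.lf (nat_lit 466077) (.g (nat_lit 2964) (.e (nat_lit 3249) (nat_lit 197) (.e (nat_lit 532482) (nat_lit 0) (.e (nat_lit 6722) (nat_lit 362) (.e (nat_lit 180245) (nat_lit 5) (.e (nat_lit 532523) (nat_lit 7) (.e (nat_lit 319505) (nat_lit 10) (.e (nat_lit 5712) (nat_lit 312) (.e (nat_lit 2508) (nat_lit 157) .nil)))))))) (.g (nat_lit 1) (.e (nat_lit 75840) (nat_lit 0) .nil) .nil))) 
(.lf (nat_lit 466589) (.g (nat_lit 1288) (.e (nat_lit 3252) (nat_lit 197) (.e (nat_lit 532499) (nat_lit 1) (.e (nat_lit 57849) (nat_lit 252) (.e (nat_lit 57411) (nat_lit 12) .nil)))) (.g (nat_lit 0) (.e (nat_lit 76827) (nat_lit 0) .nil) .nil)))) (.nd (nat_lit 9) 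
(.lf (nat_lit 466333) (.g (nat_lit 3858) (.e (nat_lit 3249) (nat_lit 197) (.e (nat_lit 532550) (nat_lit 12) (.e (nat_lit 360474) (nat_lit 8) (.e (nat_lit 557093) (nat_lit 12) (.e (nat_lit 164022) (nat_lit 46) (.e (nat_lit 704737) (nat_lit 11) (.e (nat_lit 16401) (nat_lit 0) .nil))))))) (.g (nat_lit 1) (.e (nat_lit 76366) (nat_lit 0) .nil) .nil))) 
(.lf (nat_lit 466845) (.g (nat_lit 2388) (.e (nat_lit 3253) (nat_lit 197) (.e (nat_lit 532499) (nat_lit 1) (.e (nat_lit 57926) (nat_lit 282) (.e (nat_lit 163867) (nat_lit 2) (.e (nat_lit 196668) (nat_lit 14) (.e (nat_lit 73747) (nat_lit 3) (.e (nat_lit 516129) (nat_lit 3) (.e (nat_lit 221204) (nat_lit 20) .nil)))))))) (.g (nat_lit 1) (.e (nat_lit 77212) (nat_lit 0) .nil) .nil)))))) 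
(.nd (nat_lit 7) (.nd (nat_lit 8) (.nd (nat_lit 9) 
(.lf (nat_lit 466013) (.g (nat_lit 861) (.e (nat_lit 3248) (nat_lit 197) (.e (nat_lit 532504) (nat_lit 1) (.e (nat_lit 57851) (nat_lit 252) .nil))) (.g (nat_lit 0) (.e (nat_lit 75746) (nat_lit 0) .nil) .nil))) 
(.lf (nat_lit 466525) (.g (nat_lit 2225) (.e (nat_lit 3251) (nat_lit 197) (.e (nat_lit 532508) (nat_lit 2) (.e (nat_lit 106536) (nat_lit 11) (.e (nat_lit 16412) (nat_lit 2) (.e (nat_lit 196674) (nat_lit 15) (.e (nat_lit 81922) (nat_lit 0) .nil)))))) (.g (nat_lit 1) (.e (nat_lit 76725) (nat_lit 0) .nil) .nil)))) (.nd (nat_lit 9) 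
(.lf (nat_lit 466269) (.g (nat_lit 2886) (.e (nat_lit 3249) (nat_lit 197) (.e (nat_lit 532523) (nat_lit 7) (.e (nat_lit 319533) (nat_lit 16) (.e (nat_lit 286735) (nat_lit 3) (.e (nat_lit 98371) (nat_lit 28) (.e (nat_lit 450304) (nat_lit 20) .nil)))))) (.g (nat_lit 1) (.e (nat_lit 76146) (nat_lit 0) .nil) .nil))) 
(.lf (nat_lit 466781) (.g (nat_lit 3129) (.e (nat_lit 3252) (nat_lit 197) (.e (nat_lit 532550) (nat_lit 12) (.e (nat_lit 360475) (nat_lit 8) (.e (nat_lit 557091) (nat_lit 12) .nil)))) (.g (nat_lit 0) (.e (nat_lit 77113) (nat_lit 0) .nil) .nil))))) (.nd (nat_lit 8) (.nd (nat_lit 9) 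
(.lf (nat_lit 466141) (.g (nat_lit 3261) (.e (nat_lit 3249) (nat_lit 197) (.e (nat_lit 532503) (nat_lit 1) (.e (nat_lit 57848) (nat_lit 252) (.e (nat_lit 57445) (nat_lit 19) (.e (nat_lit 393229) (nat_lit 9) (.e (nat_lit 336086) (nat_lit 9) (.e (nat_lit 336284) (nat_lit 15) .nil))))))) (.g (nat_lit 1) (.e (nat_lit 75914) (nat_lit 0) .nil) .nil))) 
(.lf (nat_lit 466653) (.g (nat_lit 2425) (.e (nat_lit 3252) (nat_lit 197) (.e (nat_lit 532504) (nat_lit 1) (.e (nat_lit 57851) (nat_lit 252) (.e (nat_lit 57406) (nat_lit 12) (.e (nat_lit 336456) (nat_lit 34) (.e (nat_lit 483383) (nat_lit 23) (.e (nat_lit 336257) (nat_lit 15) .nil))))))) (.g (nat_lit 1) (.e (nat_lit 76933) (nat_lit 0) .nil) .nil)))) (.nd (nat_lit 9) 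
(.lf (nat_lit 466397) (.g (nat_lit 2408) (.e (nat_lit 3249) (nat_lit 197) (.e (nat_lit 532563) (nat_lit 15) (.e (nat_lit 385066) (nat_lit 26) (.e (nat_lit 532534) (nat_lit 9) (.e (nat_lit 336326) (nat_lit 18) (.e (nat_lit 204854) (nat_lit 26) (.e (nat_lit 336247) (nat_lit 15) .nil))))))) (.g (nat_lit 1) (.e (nat_lit 76469) (nat_lit 0) .nil) .nil))) 
(.lf (nat_lit 466909) (.g (nat_lit 3255) (.e (nat_lit 3253) (nat_lit 197) (.e (nat_lit 532499) (nat_lit 1) (.e (nat_lit 57927) (nat_lit 282) (.e (nat_lit 163868) (nat_lit 2) (.e (nat_lit 196670) (nat_lit 14) (.e (nat_lit 73746) (nat_lit 3) (.e (nat_lit 516131) (nat_lit 3) (.e (nat_lit 221204) (nat_lit 20) .nil)))))))) (.g (nat_lit 1) (.e (nat_lit 77287) (nat_lit 0) .nil) .nil))))))) 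
(.nd (nat_lit 6) (.nd (nat_lit 7) (.nd (nat_lit 8) (.nd (nat_lit 9) 
(.lf (nat_lit 465981) (.g (nat_lit 1947) (.e (nat_lit 3248) (nat_lit 197) (.e (nat_lit 532503) (nat_lit 1) (.e (nat_lit 57929) (nat_lit 282) (.e (nat_lit 163869) (nat_lit 2) (.e (nat_lit 196670) (nat_lit 14) (.e (nat_lit 73746) (nat_lit 3) (.e (nat_lit 516131) (nat_lit 3) (.e (nat_lit 221196) (nat_lit 20) .nil)))))))) (.g (nat_lit 1) (.e (nat_lit 75710) (nat_lit 0) .nil) .nil))) 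
(.lf (nat_lit 466493) (.g (nat_lit 3099) (.e (nat_lit 3251) (nat_lit 197) (.e (nat_lit 532499) (nat_lit 1) (.e (nat_lit 57847) (nat_lit 252) (.e (nat_lit 57410) (nat_lit 12) (.e (nat_lit 336454) (nat_lit 34) (.e (nat_lit 483385) (nat_lit 23) (.e (nat_lit 336260) (nat_lit 15) .nil))))))) (.g (nat_lit 1) (.e (nat_lit 76678) (nat_lit 0) .nil) .nil)))) (.nd (nat_lit 9) 
(.lf (nat_lit 466237) (.g (nat_lit 3006) (.e (nat_lit 3249) (nat_lit 197) (.e (nat_lit 532523) (nat_lit 7) (.e (nat_lit 319530) (nat_lit 16) (.e (nat_lit 286735) (nat_lit 3) (.e (nat_lit 98363) (nat_lit 26) (.e (nat_lit 426228) (nat_lit 9) (.e (nat_lit 426073) (nat_lit 0) .nil))))))) (.g (nat_lit 1) (.e (nat_lit 76114) (nat_lit 0) .nil) .nil))) 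
(.lf (nat_lit 466749) (.g (nat_lit 2967) (.e (nat_lit 3252) (nat_lit 197) (.e (nat_lit 532550) (nat_lit 12) (.e (nat_lit 360474) (nat_lit 8) (.e (nat_lit 557093) (nat_lit 12) (.e (nat_lit 164022) (nat_lit 46) .nil))))) (.g (nat_lit 0) (.e (nat_lit 77080) (nat_lit 0) .nil) .nil))))) (.nd (nat_lit 8) (.nd (nat_lit 9) 
(.lf (nat_lit 466109) (.g (nat_lit 2165) (.e (nat_lit 3249) (nat_lit 197) (.e (nat_lit 532499) (nat_lit 1) (.e (nat_lit 57927) (nat_lit 282) (.e (nat_lit 163875) (nat_lit 3) (.e (nat_lit 204863) (nat_lit 27) (.e (nat_lit 344117) (nat_lit 21) (.e (nat_lit 516130) (nat_lit 3) (.e (nat_lit 221202) (nat_lit 20) .nil)))))))) (.g (nat_lit 1) (.e (nat_lit 75881) (nat_lit 0) .nil) .nil))) 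
(.lf (nat_lit 466621) (.g (nat_lit 2294) (.e (nat_lit 3252) (nat_lit 197) (.e (nat_lit 532499) (nat_lit 1) (.e (nat_lit 57927) (nat_lit 282) (.e (nat_lit 163875) (nat_lit 3) (.e (nat_lit 204862) (nat_lit 27) (.e (nat_lit 344117) (nat_lit 21) (.e (nat_lit 516130) (nat_lit 3) (.e (nat_lit 221195) (nat_lit 20) .nil)))))))) (.g (nat_lit 1) (.e (nat_lit 76889) (nat_lit 0) .nil) .nil)))) 
(.nd (nat_lit 9) 
(.lf (nat_lit 466365) (.g (nat_lit 3554) (.e (nat_lit 3249) (nat_lit 197) (.e (nat_lit 532550) (nat_lit 12) (.e (nat_lit 360475) (nat_lit 8) (.e (nat_lit 557087) (nat_lit 11) (.e (nat_lit 24663) (nat_lit 14) (.e (nat_lit 401418) (nat_lit 0) .nil)))))) (.g (nat_lit 1) (.e (nat_lit 76398) (nat_lit 0) .nil) .nil))) 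
(.lf (nat_lit 466877) (.g (nat_lit 4570) (.e (nat_lit 3253) (nat_lit 197) (.e (nat_lit 532499) (nat_lit 1) (.e (nat_lit 57926) (nat_lit 282) (.e (nat_lit 163875) (nat_lit 3) (.e (nat_lit 204862) (nat_lit 27) (.e (nat_lit 344117) (nat_lit 21) (.e (nat_lit 516130) (nat_lit 3) (.e (nat_lit 221204) (nat_lit 20) .nil)))))))) (.g (nat_lit 1) (.e (nat_lit 77251) (nat_lit 0) .nil) .nil)))))) 
(.nd (nat_lit 7) (.nd (nat_lit 8) (.nd (nat_lit 9) 
(.lf (nat_lit 466045) (.g (nat_lit 2124) (.e (nat_lit 3248) (nat_lit 197) (.e (nat_lit 532515) (nat_lit 3) (.e (nat_lit 114714) (nat_lit 22) (.e (nat_lit 90172) (nat_lit 14) (.e (nat_lit 180244) (nat_lit 5) .nil))))) (.g (nat_lit 0) (.e (nat_lit 75779) (nat_lit 0) .nil) .nil))) 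
(.lf (nat_lit 466557) (.g (nat_lit 3822) (.e (nat_lit 3251) (nat_lit 197) (.e (nat_lit 532535) (nat_lit 9) (.e (nat_lit 336176) (nat_lit 10) (.e (nat_lit 344133) (nat_lit 26) .nil)))) (.g (nat_lit 0) (.e (nat_lit 76792) (nat_lit 0) .nil) .nil)))) (.nd (nat_lit 9) 
(.lf (nat_lit 466301) (.g (nat_lit 3856) (.e (nat_lit 3249) (nat_lit 197) (.e (nat_lit 532549) (nat_lit 12) (.e (nat_lit 360473) (nat_lit 8) (.e (nat_lit 557087) (nat_lit 11) (.e (nat_lit 24665) (nat_lit 14) (.e (nat_lit 401418) (nat_lit 0) .nil)))))) (.g (nat_lit 1) (.e (nat_lit 76300) (nat_lit 0) .nil) .nil))) 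
(.lf (nat_lit 466813) (.g (nat_lit 3044) (.e (nat_lit 3252) (nat_lit 197) (.e (nat_lit 532560) (nat_lit 14) (.e (nat_lit 376868) (nat_lit 23) (.e (nat_lit 98350) (nat_lit 24) (.e (nat_lit 409648) (nat_lit 18) (.e (nat_lit 303109) (nat_lit 0) .nil)))))) (.g (nat_lit 1) (.e (nat_lit 77147) (nat_lit 0) .nil) .nil))))) (.nd (nat_lit 8) (.nd (nat_lit 9) 
(.lf (nat_lit 466173) (.g (nat_lit 3028) (.e (nat_lit 3249) (nat_lit 197) (.e (nat_lit 532504) (nat_lit 1) (.e (nat_lit 57851) (nat_lit 252) (.e (nat_lit 57406) (nat_lit 12) (.e (nat_lit 336456) (nat_lit 34) (.e (nat_lit 483393) (nat_lit 23) (.e (nat_lit 336271) (nat_lit 15) .nil))))))) (.g (nat_lit 1) (.e (nat_lit 75953) (nat_lit 0) .nil) .nil))) 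
(.lf (nat_lit 466685) (.g (nat_lit 5447) (.e (nat_lit 3252) (nat_lit 197) (.e (nat_lit 532535) (nat_lit 9) (.e (nat_lit 336099) (nat_lit 9) (.e (nat_lit 336013) (nat_lit 2) (.e (nat_lit 90145) (nat_lit 9) .nil))))) (.g (nat_lit 0) (.e (nat_lit 76996) (nat_lit 0) .nil) .nil)))) (.nd (nat_lit 9) 
(.lf (nat_lit 466429) (.g (nat_lit 2754) (.e (nat_lit 3249) (nat_lit 197) (.e (nat_lit 532569) (nat_lit 16) (.e (nat_lit 401448) (nat_lit 10) (.e (nat_lit 434232) (nat_lit 23) (.e (nat_lit 532569) (nat_lit 16) (.e (nat_lit 401444) (nat_lit 9) (.e (nat_lit 425984) (nat_lit 0) .nil))))))) (.g (nat_lit 1) (.e (nat_lit 76546) (nat_lit 0) .nil) .nil))) 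
(.lf (nat_lit 466941) (.g (nat_lit 3353) (.e (nat_lit 3253) (nat_lit 197) (.e (nat_lit 532499) (nat_lit 1) (.e (nat_lit 57927) (nat_lit 282) (.e (nat_lit 163874) (nat_lit 3) (.e (nat_lit 204853) (nat_lit 26) (.e (nat_lit 336019) (nat_lit 3) (.e (nat_lit 98341) (nat_lit 20) (.e (nat_lit 221204) (nat_lit 20) .nil)))))))) (.g (nat_lit 1) (.e (nat_lit 77339) (nat_lit 0) .nil) .nil))))))))))) 
(.nd (nat_lit 2) (.nd (nat_lit 3) (.nd (nat_lit 4) (.nd (nat_lit 5) (.nd (nat_lit 6) 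
(.nd (nat_lit 7) (.nd (nat_lit 8) (.nd (nat_lit 9) 
(.lf (nat_lit 465923) (.g (nat_lit 4534) (.e (nat_lit 3242) (nat_lit 197) (.e (nat_lit 532550) (nat_lit 12) (.e (nat_lit 360474) (nat_lit 8) (.e (nat_lit 557093) (nat_lit 12) (.e (nat_lit 164022) (nat_lit 46) (.e (nat_lit 704737) (nat_lit 11) (.e (nat_lit 16391) (nat_lit 0) .nil))))))) (.g (nat_lit 1) (.e (nat_lit 75646) (nat_lit 0) .nil) .nil))) 
(.lf (nat_lit 466435) (.g (nat_lit 1626) (.e (nat_lit 3249) (nat_lit 197) (.e (nat_lit 532569) (nat_lit 16) (.e (nat_lit 401448) (nat_lit 10) (.e (nat_lit 434246) (nat_lit 28) .nil)))) (.g (nat_lit 0) (.e (nat_lit 76553) (nat_lit 0) .nil) .nil)))) (.nd (nat_lit 9) 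
(.lf (nat_lit 466179) (.g (nat_lit 1872) (.e (nat_lit 3249) (nat_lit 197) (.e (nat_lit 532504) (nat_lit 1) (.e (nat_lit 57852) (nat_lit 252) (.e (nat_lit 57406) (nat_lit 12) (.e (nat_lit 336454) (nat_lit 34) (.e (nat_lit 483385) (nat_lit 23) (.e (nat_lit 336247) (nat_lit 15) .nil))))))) (.g (nat_lit 1) (.e (nat_lit 75959) (nat_lit 0) .nil) .nil))) 
(.lf (nat_lit 466691) (.g (nat_lit 2579) (.e (nat_lit 3252) (nat_lit 197) (.e (nat_lit 532535) (nat_lit 9) (.e (nat_lit 336173) (nat_lit 10) (.e (nat_lit 344116) (nat_lit 21) .nil)))) (.g (nat_lit 0) (.e (nat_lit 77002) (nat_lit 0) .nil) .nil))))) (.nd (nat_lit 8) (.nd (nat_lit 9) 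
(.lf (nat_lit 466051) (.g (nat_lit 3302) (.e (nat_lit 3248) (nat_lit 197) (.e (nat_lit 532515) (nat_lit 3) (.e (nat_lit 114716) (nat_lit 22) (.e (nat_lit 90172) (nat_lit 14) (.e (nat_lit 180244) (nat_lit 5) (.e (nat_lit 532499) (nat_lit 1) (.e (nat_lit 57686) (nat_lit 156) (.e (nat_lit 163844) (nat_lit 0) .nil)))))))) (.g (nat_lit 1) (.e (nat_lit 75787) (nat_lit 0) .nil) .nil))) 
(.lf (nat_lit 466563) (.g (nat_lit 4882) (.e (nat_lit 3251) (nat_lit 197) (.e (nat_lit 532550) (nat_lit 12) (.e (nat_lit 360474) (nat_lit 8) (.e (nat_lit 557093) (nat_lit 12) (.e (nat_lit 164022) (nat_lit 46) (.e (nat_lit 704738) (nat_lit 11) (.e (nat_lit 16396) (nat_lit 0) .nil))))))) (.g (nat_lit 1) (.e (nat_lit 76799) (nat_lit 0) .nil) .nil)))) (.nd (nat_lit 9) 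
(.lf (nat_lit 466307) (.g (nat_lit 497) (.e (nat_lit 3249) (nat_lit 197) (.e (nat_lit 532549) (nat_lit 12) (.e (nat_lit 360474) (nat_lit 8) .nil))) (.g (nat_lit 0) (.e (nat_lit 76308) (nat_lit 0) .nil) .nil))) 
(.lf (nat_lit 466819) (.g (nat_lit 2164) (.e (nat_lit 3252) (nat_lit 197) (.e (nat_lit 532560) (nat_lit 14) (.e (nat_lit 376869) (nat_lit 23) (.e (nat_lit 98350) (nat_lit 24) (.e (nat_lit 417536) (nat_lit 18) .nil))))) (.g (nat_lit 0) (.e (nat_lit 77153) (nat_lit 0) .nil) .nil)))))) (.nd (nat_lit 7) (.nd (nat_lit 8) (.nd (nat_lit 9) 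
(.lf (nat_lit 465987) (.g (nat_lit 2284) (.e (nat_lit 3248) (nat_lit 197) (.e (nat_lit 532503) (nat_lit 1) (.e (nat_lit 57931) (nat_lit 282) (.e (nat_lit 163866) (nat_lit 2) (.e (nat_lit 196668) (nat_lit 14) (.e (nat_lit 73747) (nat_lit 3) (.e (nat_lit 516129) (nat_lit 3) (.e (nat_lit 221197) (nat_lit 20) .nil)))))))) (.g (nat_lit 1) (.e (nat_lit 75716) (nat_lit 0) .nil) .nil))) 
(.lf (nat_lit 466499) (.g (nat_lit 1694) (.e (nat_lit 3251) (nat_lit 197) (.e (nat_lit 532501) (nat_lit 1) (.e (nat_lit 57851) (nat_lit 252) (.e (nat_lit 57406) (nat_lit 12) (.e (nat_lit 336456) (nat_lit 34) (.e (nat_lit 483387) (nat_lit 23) (.e (nat_lit 336291) (nat_lit 15) .nil))))))) (.g (nat_lit 1) (.e (nat_lit 76685) (nat_lit 0) .nil) .nil)))) (.nd (nat_lit 9) 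
(.lf (nat_lit 466243) (.g (nat_lit 2916) (.e (nat_lit 3249) (nat_lit 197) (.e (nat_lit 532523) (nat_lit 7) (.e (nat_lit 319530) (nat_lit 16) (.e (nat_lit 286735) (nat_lit 3) (.e (nat_lit 98371) (nat_lit 28) (.e (nat_lit 450304) (nat_lit 20) .nil)))))) (.g (nat_lit 1) (.e (nat_lit 76120) (nat_lit 0) .nil) .nil))) 
(.lf (nat_lit 466755) (.g (nat_lit 3187) (.e (nat_lit 3252) (nat_lit 197) (.e (nat_lit 532550) (nat_lit 12) (.e (nat_lit 360474) (nat_lit 8) (.e (nat_lit 557093) (nat_lit 12) (.e (nat_lit 164022) (nat_lit 46) (.e (nat_lit 704738) (nat_lit 11) (.e (nat_lit 16384) (nat_lit 0) .nil))))))) (.g (nat_lit 1) (.e (nat_lit 77086) (nat_lit 0) .nil) .nil))))) (.nd (nat_lit 8) (.nd (nat_lit 9) 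
(.lf (nat_lit 466115) (.g (nat_lit 3723) (.e (nat_lit 3249) (nat_lit 197) (.e (nat_lit 532500) (nat_lit 1) (.e (nat_lit 57851) (nat_lit 252) (.e (nat_lit 57354) (nat_lit 0) (.e (nat_lit 1799) (nat_lit 119) (.e (nat_lit 516131) (nat_lit 3) (.e (nat_lit 221212) (nat_lit 22) (.e (nat_lit 196665) (nat_lit 13) (.e (nat_lit 65636) (nat_lit 15) .nil))))))))) (.g (nat_lit 1) (.e (nat_lit 75888) (nat_lit 0) .nil) .nil))) 
(.lf (nat_lit 466627) (.g (nat_lit 1046) (.e (nat_lit 3252) (nat_lit 197) (.e (nat_lit 532501) (nat_lit 1) (.e (nat_lit 57851) (nat_lit 252) (.e (nat_lit 57406) (nat_lit 12) .nil)))) (.g (nat_lit 0) (.e (nat_lit 76900) (nat_lit 0) .nil) .nil)))) (.nd (nat_lit 9) 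
(.lf (nat_lit 466371) (.g (nat_lit 3489) (.e (nat_lit 3249) (nat_lit 197) (.e (nat_lit 532550) (nat_lit 12) (.e (nat_lit 360475) (nat_lit 8) (.e (nat_lit 557089) (nat_lit 12) (.e (nat_lit 171776) (nat_lit 48) (.e (nat_lit 720907) (nat_lit 11) (.e (nat_lit 426072) (nat_lit 0) .nil))))))) (.g (nat_lit 1) (.e (nat_lit 76404) (nat_lit 0) .nil) .nil))) 
(.lf (nat_lit 466883) (.g (nat_lit 3522) (.e (nat_lit 3253) (nat_lit 197) (.e (nat_lit 532499) (nat_lit 1) (.e (nat_lit 57927) (nat_lit 282) (.e (nat_lit 163866) (nat_lit 2) (.e (nat_lit 196668) (nat_lit 14) (.e (nat_lit 73747) (nat_lit 3) (.e (nat_lit 516129) (nat_lit 3) (.e (nat_lit 221204) (nat_lit 20) .nil)))))))) (.g (nat_lit 1) (.e (nat_lit 77261) (nat_lit 0) .nil) .nil))))))) 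
(.nd (nat_lit 6) (.nd (nat_lit 7) (.nd (nat_lit 8) (.nd (nat_lit 9) 
(.lf (nat_lit 465955) (.g (nat_lit 4578) (.e (nat_lit 3242) (nat_lit 197) (.e (nat_lit 532550) (nat_lit 12) (.e (nat_lit 360475) (nat_lit 8) (.e (nat_lit 557091) (nat_lit 12) (.e (nat_lit 164022) (nat_lit 46) (.e (nat_lit 704736) (nat_lit 11) (.e (nat_lit 16390) (nat_lit 0) .nil))))))) (.g (nat_lit 1) (.e (nat_lit 75679) (nat_lit 0) .nil) .nil))) 
(.lf (nat_lit 466467) (.g (nat_lit 3468) (.e (nat_lit 3250) (nat_lit 197) (.e (nat_lit 532503) (nat_lit 1) (.e (nat_lit 57931) (nat_lit 282) (.e (nat_lit 163869) (nat_lit 2) (.e (nat_lit 196668) (nat_lit 14) (.e (nat_lit 73747) (nat_lit 3) (.e (nat_lit 516131) (nat_lit 3) (.e (nat_lit 221198) (nat_lit 20) .nil)))))))) (.g (nat_lit 1) (.e (nat_lit 76642) (nat_lit 0) .nil) .nil)))) (.nd (nat_lit 9) 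
(.lf (nat_lit 466211) (.g (nat_lit 1661) (.e (nat_lit 3249) (nat_lit 197) (.e (nat_lit 532511) (nat_lit 2) (.e (nat_lit 106536) (nat_lit 11) (.e (nat_lit 16416) (nat_lit 3) (.e (nat_lit 204865) (nat_lit 28) (.e (nat_lit 352261) (nat_lit 0) .nil)))))) (.g (nat_lit 1) (.e (nat_lit 75996) (nat_lit 0) .nil) .nil))) 
(.lf (nat_lit 466723) (.g (nat_lit 5251) (.e (nat_lit 3252) (nat_lit 197) (.e (nat_lit 532550) (nat_lit 12) (.e (nat_lit 360466) (nat_lit 3) (.e (nat_lit 516139) (nat_lit 7) (.e (nat_lit 409645) (nat_lit 18) (.e (nat_lit 303112) (nat_lit 0) .nil)))))) (.g (nat_lit 1) (.e (nat_lit 77046) (nat_lit 0) .nil) .nil))))) (.nd (nat_lit 8) (.nd (nat_lit 9) 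
(.lf (nat_lit 466083) (.g (nat_lit 847) (.e (nat_lit 3249) (nat_lit 197) (.e (nat_lit 532490) (nat_lit 0) (.e (nat_lit 2155) (nat_lit 142) .nil))) (.g (nat_lit 0) (.e (nat_lit 75846) (nat_lit 0) .nil) .nil))) 
(.lf (nat_lit 466595) (.g (nat_lit 2574) (.e (nat_lit 3252) (nat_lit 197) (.e (nat_lit 532499) (nat_lit 1) (.e (nat_lit 57926) (nat_lit 282) (.e (nat_lit 163868) (nat_lit 2) (.e (nat_lit 196670) (nat_lit 14) .nil))))) (.g (nat_lit 0) (.e (nat_lit 76834) (nat_lit 0) .nil) .nil)))) (.nd (nat_lit 9) 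
(.lf (nat_lit 466339) (.g (nat_lit 2796) (.e (nat_lit 3249) (nat_lit 197) (.e (nat_lit 532550) (nat_lit 12) (.e (nat_lit 360474) (nat_lit 8) (.e (nat_lit 557093) (nat_lit 12) (.e (nat_lit 171776) (nat_lit 48) (.e (nat_lit 720907) (nat_lit 11) (.e (nat_lit 426072) (nat_lit 0) .nil))))))) (.g (nat_lit 1) (.e (nat_lit 76372) (nat_lit 0) .nil) .nil))) 
(.lf (nat_lit 466851) (.g (nat_lit 2959) (.e (nat_lit 3253) (nat_lit 197) (.e (nat_lit 532499) (nat_lit 1) (.e (nat_lit 57926) (nat_lit 282) (.e (nat_lit 163868) (nat_lit 2) (.e (nat_lit 196668) (nat_lit 14) (.e (nat_lit 73747) (nat_lit 3) (.e (nat_lit 516129) (nat_lit 3) (.e (nat_lit 221203) (nat_lit 20) .nil)))))))) (.g (nat_lit 1) (.e (nat_lit 77218) (nat_lit 0) .nil) .nil)))))) 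
(.nd (nat_lit 7) (.nd (nat_lit 8) (.nd (nat_lit 9) 
(.lf (nat_lit 466019) (.g (nat_lit 1623) (.e (nat_lit 3248) (nat_lit 197) (.e (nat_lit 532504) (nat_lit 1) (.e (nat_lit 57851) (nat_lit 252) (.e (nat_lit 57446) (nat_lit 19) (.e (nat_lit 393229) (nat_lit 9) (.e (nat_lit 336088) (nat_lit 9) (.e (nat_lit 336238) (nat_lit 15) .nil))))))) (.g (nat_lit 1) (.e (nat_lit 75752) (nat_lit 0) .nil) .nil))) 
(.lf (nat_lit 466531) (.g (nat_lit 624) (.e (nat_lit 3251) (nat_lit 197) (.e (nat_lit 532510) (nat_lit 2) (.e (nat_lit 106534) (nat_lit 11) (.e (nat_lit 16417) (nat_lit 3) .nil)))) (.g (nat_lit 0) (.e (nat_lit 76731) (nat_lit 0) .nil) .nil)))) (.nd (nat_lit 9) 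
(.lf (nat_lit 466275) (.g (nat_lit 2663) (.e (nat_lit 3249) (nat_lit 197) (.e (nat_lit 532523) (nat_lit 7) (.e (nat_lit 319534) (nat_lit 16) (.e (nat_lit 286735) (nat_lit 3) (.e (nat_lit 98369) (nat_lit 28) .nil))))) (.g (nat_lit 0) (.e (nat_lit 76152) (nat_lit 0) .nil) .nil))) 
(.lf (nat_lit 466787) (.g (nat_lit 6405) (.e (nat_lit 3252) (nat_lit 197) (.e (nat_lit 532550) (nat_lit 12) (.e (nat_lit 360475) (nat_lit 8) (.e (nat_lit 557091) (nat_lit 12) (.e (nat_lit 164022) (nat_lit 46) (.e (nat_lit 704738) (nat_lit 11) (.e (nat_lit 16396) (nat_lit 0) .nil))))))) (.g (nat_lit 1) (.e (nat_lit 77119) (nat_lit 0) .nil) .nil))))) (.nd (nat_lit 8) (.nd (nat_lit 9) 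
(.lf (nat_lit 466147) (.g (nat_lit 2396) (.e (nat_lit 3249) (nat_lit 197) (.e (nat_lit 532503) (nat_lit 1) (.e (nat_lit 57931) (nat_lit 282) (.e (nat_lit 163867) (nat_lit 2) (.e (nat_lit 196668) (nat_lit 14) .nil))))) (.g (nat_lit 0) (.e (nat_lit 75922) (nat_lit 0) .nil) .nil))) 
(.lf (nat_lit 466659) (.g (nat_lit 2976) (.e (nat_lit 3252) (nat_lit 197) (.e (nat_lit 532504) (nat_lit 1) (.e (nat_lit 57854) (nat_lit 252) (.e (nat_lit 57406) (nat_lit 12) (.e (nat_lit 336454) (nat_lit 34) (.e (nat_lit 483385) (nat_lit 23) (.e (nat_lit 336260) (nat_lit 15) .nil))))))) (.g (nat_lit 1) (.e (nat_lit 76942) (nat_lit 0) .nil) .nil)))) (.nd (nat_lit 9) 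
(.lf (nat_lit 466403) (.g (nat_lit 804) (.e (nat_lit 3249) (nat_lit 197) (.e (nat_lit 532563) (nat_lit 15) (.e (nat_lit 385068) (nat_lit 26) .nil))) (.g (nat_lit 0) (.e (nat_lit 76475) (nat_lit 0) .nil) .nil))) 
(.lf (nat_lit 466915) (.g (nat_lit 4792) (.e (nat_lit 3253) (nat_lit 197) (.e (nat_lit 532499) (nat_lit 1) (.e (nat_lit 57927) (nat_lit 282) (.e (nat_lit 163869) (nat_lit 2) (.e (nat_lit 196666) (nat_lit 13) (.e (nat_lit 65571) (nat_lit 3) (.e (nat_lit 98342) (nat_lit 20) (.e (nat_lit 221204) (nat_lit 20) .nil)))))))) (.g (nat_lit 1) (.e (nat_lit 77297) (nat_lit 0) .nil) .nil)))))))) 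
(.nd (nat_lit 5) (.nd (nat_lit 6) (.nd (nat_lit 7) (.nd (nat_lit 8) (.nd (nat_lit 9) 
(.lf (nat_lit 465939) (.g (nat_lit 4714) (.e (nat_lit 3242) (nat_lit 197) (.e (nat_lit 532550) (nat_lit 12) (.e (nat_lit 360474) (nat_lit 8) (.e (nat_lit 557094) (nat_lit 12) (.e (nat_lit 164022) (nat_lit 46) (.e (nat_lit 704737) (nat_lit 11) (.e (nat_lit 16385) (nat_lit 0) .nil))))))) (.g (nat_lit 1) (.e (nat_lit 75662) (nat_lit 0) .nil) .nil))) 
(.lf (nat_lit 466451) (.g (nat_lit 2206) (.e (nat_lit 3250) (nat_lit 197) (.e (nat_lit 532499) (nat_lit 1) (.e (nat_lit 57927) (nat_lit 282) (.e (nat_lit 163868) (nat_lit 2) (.e (nat_lit 196668) (nat_lit 14) (.e (nat_lit 73747) (nat_lit 3) (.e (nat_lit 516129) (nat_lit 3) (.e (nat_lit 221197) (nat_lit 20) .nil)))))))) (.g (nat_lit 1) (.e (nat_lit 76625) (nat_lit 0) .nil) .nil)))) (.nd (nat_lit 9) 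
(.lf (nat_lit 466195) (.g (nat_lit 1340) (.e (nat_lit 3249) (nat_lit 197) (.e (nat_lit 532508) (nat_lit 2) (.e (nat_lit 106534) (nat_lit 11) (.e (nat_lit 16413) (nat_lit 2) (.e (nat_lit 196672) (nat_lit 15) (.e (nat_lit 89856) (nat_lit 0) .nil)))))) (.g (nat_lit 1) (.e (nat_lit 75980) (nat_lit 0) .nil) .nil))) 
(.lf (nat_lit 466707) (.g (nat_lit 3556) (.e (nat_lit 3252) (nat_lit 197) (.e (nat_lit 532548) (nat_lit 11) (.e (nat_lit 352315) (nat_lit 23) (.e (nat_lit 98350) (nat_lit 24) (.e (nat_lit 409646) (nat_lit 18) (.e (nat_lit 303112) (nat_lit 0) .nil)))))) (.g (nat_lit 1) (.e (nat_lit 77022) (nat_lit 0) .nil) .nil))))) (.nd (nat_lit 8) (.nd (nat_lit 9) 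
(.lf (nat_lit 466067) (.g (nat_lit 1874) (.e (nat_lit 3248) (nat_lit 197) (.e (nat_lit 532534) (nat_lit 9) (.e (nat_lit 336019) (nat_lit 3) (.e (nat_lit 98342) (nat_lit 20) .nil)))) (.g (nat_lit 0) (.e (nat_lit 75815) (nat_lit 0) .nil) .nil))) 
(.lf (nat_lit 466579) (.g (nat_lit 3319) (.e (nat_lit 3252) (nat_lit 197) (.e (nat_lit 532499) (nat_lit 1) (.e (nat_lit 57847) (nat_lit 252) (.e (nat_lit 57406) (nat_lit 12) (.e (nat_lit 336454) (nat_lit 34) .nil))))) (.g (nat_lit 0) (.e (nat_lit 76816) (nat_lit 0) .nil) .nil)))) (.nd (nat_lit 9) 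
(.lf (nat_lit 466323) (.g (nat_lit 2389) (.e (nat_lit 3249) (nat_lit 197) (.e (nat_lit 532550) (nat_lit 12) (.e (nat_lit 360474) (nat_lit 8) (.e (nat_lit 557070) (nat_lit 9) (.e (nat_lit 296) (nat_lit 22) .nil))))) (.g (nat_lit 0) (.e (nat_lit 76355) (nat_lit 0) .nil) .nil))) 
(.lf (nat_lit 466835) (.g (nat_lit 3159) (.e (nat_lit 3253) (nat_lit 197) (.e (nat_lit 532486) (nat_lit 0) (.e (nat_lit 6113) (nat_lit 332) (.e (nat_lit 1374) (nat_lit 104) (.e (nat_lit 303117) (nat_lit 2) (.e (nat_lit 196661) (nat_lit 12) (.e (nat_lit 65280) (nat_lit 208) (.e (nat_lit 237580) (nat_lit 0) .nil)))))))) (.g (nat_lit 1) (.e (nat_lit 77200) (nat_lit 0) .nil) .nil)))))) 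
(.nd (nat_lit 7) (.nd (nat_lit 8) (.nd (nat_lit 9) 
(.lf (nat_lit 466003) (.g (nat_lit 2991) (.e (nat_lit 3248) (nat_lit 197) (.e (nat_lit 532503) (nat_lit 1) (.e (nat_lit 57931) (nat_lit 282) (.e (nat_lit 163874) (nat_lit 3) (.e (nat_lit 204853) (nat_lit 26) .nil))))) (.g (nat_lit 0) (.e (nat_lit 75734) (nat_lit 0) .nil) .nil))) 
(.lf (nat_lit 466515) (.g (nat_lit 2454) (.e (nat_lit 3251) (nat_lit 197) (.e (nat_lit 532504) (nat_lit 1) (.e (nat_lit 57851) (nat_lit 252) (.e (nat_lit 57406) (nat_lit 12) (.e (nat_lit 336456) (nat_lit 34) (.e (nat_lit 483379) (nat_lit 23) (.e (nat_lit 336261) (nat_lit 15) .nil))))))) (.g (nat_lit 1) (.e (nat_lit 76713) (nat_lit 0) .nil) .nil)))) (.nd (nat_lit 9) 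
(.lf (nat_lit 466259) (.g (nat_lit 1413) (.e (nat_lit 3249) (nat_lit 197) (.e (nat_lit 532523) (nat_lit 7) (.e (nat_lit 319532) (nat_lit 16) (.e (nat_lit 286734) (nat_lit 3) .nil)))) (.g (nat_lit 0) (.e (nat_lit 76136) (nat_lit 0) .nil) .nil))) 
(.lf (nat_lit 466771) (.g (nat_lit 532) (.e (nat_lit 3252) (nat_lit 197) (.e (nat_lit 532550) (nat_lit 12) (.e (nat_lit 360475) (nat_lit 8) .nil))) (.g (nat_lit 0) (.e (nat_lit 77102) (nat_lit 0) .nil) .nil))))) (.nd (nat_lit 8) (.nd (nat_lit 9) 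
(.lf (nat_lit 466131) (.g (nat_lit 3680) (.e (nat_lit 3249) (nat_lit 197) (.e (nat_lit 532503) (nat_lit 1) (.e (nat_lit 57847) (nat_lit 252) (.e (nat_lit 57407) (nat_lit 12) (.e (nat_lit 336454) (nat_lit 34) (.e (nat_lit 483385) (nat_lit 23) (.e (nat_lit 336284) (nat_lit 15) .nil))))))) (.g (nat_lit 1) (.e (nat_lit 75904) (nat_lit 0) .nil) .nil))) 
(.lf (nat_lit 466643) (.g (nat_lit 2979) (.e (nat_lit 3252) (nat_lit 197) (.e (nat_lit 532503) (nat_lit 1) (.e (nat_lit 57848) (nat_lit 252) (.e (nat_lit 57407) (nat_lit 12) (.e (nat_lit 336454) (nat_lit 34) (.e (nat_lit 483385) (nat_lit 23) (.e (nat_lit 336260) (nat_lit 15) .nil))))))) (.g (nat_lit 1) (.e (nat_lit 76919) (nat_lit 0) .nil) .nil)))) (.nd (nat_lit 9) 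
(.lf (nat_lit 466387) (.g (nat_lit 2897) (.e (nat_lit 3249) (nat_lit 197) (.e (nat_lit 532559) (nat_lit 14) (.e (nat_lit 376865) (nat_lit 22) (.e (nat_lit 90185) (nat_lit 17) (.e (nat_lit 237585) (nat_lit 1) (.e (nat_lit 164402) (nat_lit 256) (.e (nat_lit 57579) (nat_lit 61) .nil))))))) (.g (nat_lit 1) (.e (nat_lit 76448) (nat_lit 0) .nil) .nil))) 
(.lf (nat_lit 466899) (.g (nat_lit 2395) (.e (nat_lit 3253) (nat_lit 197) (.e (nat_lit 532499) (nat_lit 1) (.e (nat_lit 57927) (nat_lit 282) (.e (nat_lit 163868) (nat_lit 2) (.e (nat_lit 196668) (nat_lit 14) (.e (nat_lit 73746) (nat_lit 3) (.e (nat_lit 516131) (nat_lit 3) (.e (nat_lit 221203) (nat_lit 20) .nil)))))))) (.g (nat_lit 1) (.e (nat_lit 77277) (nat_lit 0) .nil) .nil))))))) 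
(.nd (nat_lit 6) (.nd (nat_lit 7) (.nd (nat_lit 8) (.nd (nat_lit 9) 
(.lf (nat_lit 465971) (.g (nat_lit 1414) (.e (nat_lit 3248) (nat_lit 197) (.e (nat_lit 532503) (nat_lit 1) (.e (nat_lit 57844) (nat_lit 252) (.e (nat_lit 57408) (nat_lit 12) .nil)))) (.g (nat_lit 0) (.e (nat_lit 75698) (nat_lit 0) .nil) .nil))) 
(.lf (nat_lit 466483) (.g (nat_lit 4668) (.e (nat_lit 3250) (nat_lit 197) (.e (nat_lit 532550) (nat_lit 12) (.e (nat_lit 360474) (nat_lit 8) (.e (nat_lit 557094) (nat_lit 12) (.e (nat_lit 164022) (nat_lit 46) .nil))))) (.g (nat_lit 0) (.e (nat_lit 76667) (nat_lit 0) .nil) .nil)))) (.nd (nat_lit 9) 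
(.lf (nat_lit 466227) (.g (nat_lit 596) (.e (nat_lit 3249) (nat_lit 197) (.e (nat_lit 532523) (nat_lit 7) (.e (nat_lit 319528) (nat_lit 16) .nil))) (.g (nat_lit 0) (.e (nat_lit 76104) (nat_lit 0) .nil) .nil))) 
(.lf (nat_lit 466739) (.g (nat_lit 2872) (.e (nat_lit 3252) (nat_lit 197) (.e (nat_lit 532550) (nat_lit 12) (.e (nat_lit 360468) (nat_lit 3) (.e (nat_lit 516139) (nat_lit 7) (.e (nat_lit 409643) (nat_lit 18) .nil))))) (.g (nat_lit 0) (.e (nat_lit 77067) (nat_lit 0) .nil) .nil))))) (.nd (nat_lit 8) (.nd (nat_lit 9) 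
(.lf (nat_lit 466099) (.g (nat_lit 2254) (.e (nat_lit 3249) (nat_lit 197) (.e (nat_lit 532499) (nat_lit 1) (.e (nat_lit 57927) (nat_lit 282) (.e (nat_lit 163869) (nat_lit 2) (.e (nat_lit 196668) (nat_lit 14) (.e (nat_lit 73747) (nat_lit 3) (.e (nat_lit 516129) (nat_lit 3) (.e (nat_lit 229120) (nat_lit 20) .nil)))))))) (.g (nat_lit 1) (.e (nat_lit 75868) (nat_lit 0) .nil) .nil))) 
(.lf (nat_lit 466611) (.g (nat_lit 2010) (.e (nat_lit 3252) (nat_lit 197) (.e (nat_lit 532499) (nat_lit 1) (.e (nat_lit 57927) (nat_lit 282) (.e (nat_lit 163871) (nat_lit 2) (.e (nat_lit 196670) (nat_lit 14) .nil))))) (.g (nat_lit 0) (.e (nat_lit 76873) (nat_lit 0) .nil) .nil)))) (.nd (nat_lit 9) 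
(.lf (nat_lit 466355) (.g (nat_lit 2629) (.e (nat_lit 3249) (nat_lit 197) (.e (nat_lit 532550) (nat_lit 12) (.e (nat_lit 360475) (nat_lit 8) (.e (nat_lit 557073) (nat_lit 9) .nil)))) (.g (nat_lit 0) (.e (nat_lit 76388) (nat_lit 0) .nil) .nil))) 
(.lf (nat_lit 466867) (.g (nat_lit 3498) (.e (nat_lit 3253) (nat_lit 197) (.e (nat_lit 532499) (nat_lit 1) (.e (nat_lit 57926) (nat_lit 282) (.e (nat_lit 163869) (nat_lit 2) (.e (nat_lit 196670) (nat_lit 14) (.e (nat_lit 73746) (nat_lit 3) (.e (nat_lit 516131) (nat_lit 3) (.e (nat_lit 221204) (nat_lit 20) .nil)))))))) (.g (nat_lit 1) (.e (nat_lit 77234) (nat_lit 0) .nil) .nil)))))) 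
(.nd (nat_lit 7) (.nd (nat_lit 8) (.nd (nat_lit 9) 
(.lf (nat_lit 466035) (.g (nat_lit 1294) (.e (nat_lit 3248) (nat_lit 197) (.e (nat_lit 532510) (nat_lit 2) (.e (nat_lit 106536) (nat_lit 11) (.e (nat_lit 16413) (nat_lit 2) (.e (nat_lit 196672) (nat_lit 15) (.e (nat_lit 89856) (nat_lit 0) .nil)))))) (.g (nat_lit 1) (.e (nat_lit 75769) (nat_lit 0) .nil) .nil))) 
(.lf (nat_lit 466547) (.g (nat_lit 2112) (.e (nat_lit 3251) (nat_lit 197) (.e (nat_lit 532511) (nat_lit 2) (.e (nat_lit 106536) (nat_lit 11) (.e (nat_lit 16413) (nat_lit 2) (.e (nat_lit 196674) (nat_lit 15) (.e (nat_lit 81922) (nat_lit 0) .nil)))))) (.g (nat_lit 1) (.e (nat_lit 76747) (nat_lit 0) .nil) .nil)))) (.nd (nat_lit 9) 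
(.lf (nat_lit 466291) (.g (nat_lit 1397) (.e (nat_lit 3249) (nat_lit 197) (.e (nat_lit 532542) (nat_lit 9) (.e (nat_lit 336186) (nat_lit 11) (.e (nat_lit 368676) (nat_lit 21) (.e (nat_lit 516097) (nat_lit 0) .nil))))) (.g (nat_lit 0) (.e (nat_lit 76212) (nat_lit 0) .nil) .nil))) 
(.lf (nat_lit 466803) (.g (nat_lit 3191) (.e (nat_lit 3252) (nat_lit 197) (.e (nat_lit 532559) (nat_lit 14) (.e (nat_lit 376869) (nat_lit 23) (.e (nat_lit 98349) (nat_lit 24) (.e (nat_lit 409646) (nat_lit 18) (.e (nat_lit 303112) (nat_lit 0) .nil)))))) (.g (nat_lit 1) (.e (nat_lit 77135) (nat_lit 0) .nil) .nil))))) (.nd (nat_lit 8) (.nd (nat_lit 9) 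
(.lf (nat_lit 466163) (.g (nat_lit 2548) (.e (nat_lit 3249) (nat_lit 197) (.e (nat_lit 532504) (nat_lit 1) (.e (nat_lit 57851) (nat_lit 252) (.e (nat_lit 57354) (nat_lit 0) (.e (nat_lit 1799) (nat_lit 119) (.e (nat_lit 516129) (nat_lit 3) (.e (nat_lit 221210) (nat_lit 22) (.e (nat_lit 196665) (nat_lit 13) (.e (nat_lit 65636) (nat_lit 15) .nil))))))))) (.g (nat_lit 1) (.e (nat_lit 75943) (nat_lit 0) .nil) .nil))) 
(.lf (nat_lit 466675) (.g (nat_lit 5447) (.e (nat_lit 3252) (nat_lit 197) (.e (nat_lit 532535) (nat_lit 9) (.e (nat_lit 336099) (nat_lit 9) (.e (nat_lit 336013) (nat_lit 2) (.e (nat_lit 90127) (nat_lit 9) .nil))))) (.g (nat_lit 0) (.e (nat_lit 76986) (nat_lit 0) .nil) .nil)))) (.nd (nat_lit 9) 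
(.lf (nat_lit 466419) (.g (nat_lit 3123) (.e (nat_lit 3249) (nat_lit 197) (.e (nat_lit 532569) (nat_lit 16) (.e (nat_lit 401448) (nat_lit 10) (.e (nat_lit 434231) (nat_lit 23) (.e (nat_lit 532522) (nat_lit 7) .nil))))) (.g (nat_lit 0) (.e (nat_lit 76532) (nat_lit 0) .nil) .nil))) 
(.lf (nat_lit 466931) (.g (nat_lit 2561) (.e (nat_lit 3253) (nat_lit 197) (.e (nat_lit 532499) (nat_lit 1) (.e (nat_lit 57927) (nat_lit 282) (.e (nat_lit 163871) (nat_lit 2) (.e (nat_lit 196664) (nat_lit 13) (.e (nat_lit 65571) (nat_lit 3) (.e (nat_lit 98341) (nat_lit 20) (.e (nat_lit 221204) (nat_lit 20) .nil)))))))) (.g (nat_lit 1) (.e (nat_lit 77319) (nat_lit 0) .nil) .nil))))))))) 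
(.nd (nat_lit 4) (.nd (nat_lit 5) (.nd (nat_lit 6) (.nd (nat_lit 7) (.nd (nat_lit 8) 
(.nd (nat_lit 9) 
(.lf (nat_lit 465931) (.g (nat_lit 4700) (.e (nat_lit 3242) (nat_lit 197) (.e (nat_lit 532550) (nat_lit 12) (.e (nat_lit 360474) (nat_lit 8) (.e (nat_lit 557093) (nat_lit 12) (.e (nat_lit 164023) (nat_lit 46) (.e (nat_lit 704738) (nat_lit 11) (.e (nat_lit 16385) (nat_lit 0) .nil))))))) (.g (nat_lit 1) (.e (nat_lit 75654) (nat_lit 0) .nil) .nil))) 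
(.lf (nat_lit 466443) (.g (nat_lit 5055) (.e (nat_lit 3249) (nat_lit 197) (.e (nat_lit 532569) (nat_lit 16) (.e (nat_lit 401451) (nat_lit 12) (.e (nat_lit 475185) (nat_lit 29) (.e (nat_lit 557109) (nat_lit 15) (.e (nat_lit 196352) (nat_lit 20) .nil)))))) (.g (nat_lit 1) (.e (nat_lit 76563) (nat_lit 0) .nil) .nil)))) (.nd (nat_lit 9) 
(.lf (nat_lit 466187) (.g (nat_lit 3135) (.e (nat_lit 3249) (nat_lit 197) (.e (nat_lit 532504) (nat_lit 1) (.e (nat_lit 57854) (nat_lit 252) (.e (nat_lit 57445) (nat_lit 19) (.e (nat_lit 393229) (nat_lit 9) (.e (nat_lit 336086) (nat_lit 9) (.e (nat_lit 336284) (nat_lit 15) .nil))))))) (.g (nat_lit 1) (.e (nat_lit 75970) (nat_lit 0) .nil) .nil))) 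
(.lf (nat_lit 466699) (.g (nat_lit 2200) (.e (nat_lit 3252) (nat_lit 197) (.e (nat_lit 532547) (nat_lit 11) (.e (nat_lit 352312) (nat_lit 22) (.e (nat_lit 90165) (nat_lit 12) (.e (nat_lit 164209) (nat_lit 176) (.e (nat_lit 2797) (nat_lit 180) (.e (nat_lit 303112) (nat_lit 0) .nil))))))) (.g (nat_lit 1) (.e (nat_lit 77013) (nat_lit 0) .nil) .nil))))) (.nd (nat_lit 8) (.nd (nat_lit 9) 
(.lf (nat_lit 466059) (.g (nat_lit 2885) (.e (nat_lit 3248) (nat_lit 197) (.e (nat_lit 532515) (nat_lit 3) (.e (nat_lit 114716) (nat_lit 22) (.e (nat_lit 90174) (nat_lit 14) (.e (nat_lit 180243) (nat_lit 5) (.e (nat_lit 532502) (nat_lit 1) (.e (nat_lit 57688) (nat_lit 156) (.e (nat_lit 163844) (nat_lit 0) .nil)))))))) (.g (nat_lit 1) (.e (nat_lit 75795) (nat_lit 0) .nil) .nil))) 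
(.lf (nat_lit 466571) (.g (nat_lit 7301) (.e (nat_lit 3251) (nat_lit 197) (.e (nat_lit 532550) (nat_lit 12) (.e (nat_lit 360475) (nat_lit 8) (.e (nat_lit 557090) (nat_lit 12) .nil)))) (.g (nat_lit 0) (.e (nat_lit 76807) (nat_lit 0) .nil) .nil)))) (.nd (nat_lit 9) 
(.lf (nat_lit 466315) (.g (nat_lit 1966) (.e (nat_lit 3249) (nat_lit 197) (.e (nat_lit 532549) (nat_lit 12) (.e (nat_lit 360475) (nat_lit 8) (.e (nat_lit 557087) (nat_lit 11) .nil)))) (.g (nat_lit 0) (.e (nat_lit 76324) (nat_lit 0) .nil) .nil))) 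
(.lf (nat_lit 466827) (.g (nat_lit 2505) (.e (nat_lit 3252) (nat_lit 197) (.e (nat_lit 532563) (nat_lit 15) (.e (nat_lit 385066) (nat_lit 26) (.e (nat_lit 532534) (nat_lit 9) (.e (nat_lit 336326) (nat_lit 18) (.e (nat_lit 204854) (nat_lit 26) (.e (nat_lit 336260) (nat_lit 15) .nil))))))) (.g (nat_lit 1) (.e (nat_lit 77167) (nat_lit 0) .nil) .nil)))))) 
(.nd (nat_lit 7) (.nd (nat_lit 8) (.nd (nat_lit 9) 
(.lf (nat_lit 465995) (.g (nat_lit 3759) (.e (nat_lit 3248) (nat_lit 197) (.e (nat_lit 532503) (nat_lit 1) (.e (nat_lit 57931) (nat_lit 282) (.e (nat_lit 163867) (nat_lit 2) (.e (nat_lit 196668) (nat_lit 14) (.e (nat_lit 73747) (nat_lit 3) (.e (nat_lit 516131) (nat_lit 3) (.e (nat_lit 221197) (nat_lit 20) .nil)))))))) (.g (nat_lit 1) (.e (nat_lit 75724) (nat_lit 0) .nil) .nil))) 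
(.lf (nat_lit 466507) (.g (nat_lit 2487) (.e (nat_lit 3251) (nat_lit 197) (.e (nat_lit 532503) (nat_lit 1) (.e (nat_lit 57931) (nat_lit 282) (.e (nat_lit 163867) (nat_lit 2) (.e (nat_lit 196670) (nat_lit 14) (.e (nat_lit 73746) (nat_lit 3) (.e (nat_lit 516129) (nat_lit 3) (.e (nat_lit 221199) (nat_lit 20) .nil)))))))) (.g (nat_lit 1) (.e (nat_lit 76703) (nat_lit 0) .nil) .nil)))) (.nd (nat_lit 9) 
(.lf (nat_lit 466251) (.g (nat_lit 2743) (.e (nat_lit 3249) (nat_lit 197) (.e (nat_lit 532523) (nat_lit 7) (.e (nat_lit 319531) (nat_lit 16) (.e (nat_lit 286735) (nat_lit 3) (.e (nat_lit 98363) (nat_lit 26) (.e (nat_lit 426228) (nat_lit 9) (.e (nat_lit 426073) (nat_lit 0) .nil))))))) (.g (nat_lit 1) (.e (nat_lit 76128) (nat_lit 0) .nil) .nil))) 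
(.lf (nat_lit 466763) (.g (nat_lit 2752) (.e (nat_lit 3252) (nat_lit 197) (.e (nat_lit 532550) (nat_lit 12) (.e (nat_lit 360474) (nat_lit 8) (.e (nat_lit 557094) (nat_lit 12) (.e (nat_lit 164022) (nat_lit 46) .nil))))) (.g (nat_lit 0) (.e (nat_lit 77094) (nat_lit 0) .nil) .nil))))) (.nd (nat_lit 8) (.nd (nat_lit 9) 
(.lf (nat_lit 466123) (.g (nat_lit 3384) (.e (nat_lit 3249) (nat_lit 197) (.e (nat_lit 532500) (nat_lit 1) (.e (nat_lit 57852) (nat_lit 252) (.e (nat_lit 57406) (nat_lit 12) (.e (nat_lit 336454) (nat_lit 34) (.e (nat_lit 483385) (nat_lit 23) (.e (nat_lit 336284) (nat_lit 15) .nil))))))) (.g (nat_lit 1) (.e (nat_lit 75896) (nat_lit 0) .nil) .nil))) 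
(.lf (nat_lit 466635) (.g (nat_lit 664) (.e (nat_lit 3252) (nat_lit 197) (.e (nat_lit 532501) (nat_lit 1) (.e (nat_lit 57852) (nat_lit 252) .nil))) (.g (nat_lit 0) (.e (nat_lit 76908) (nat_lit 0) .nil) .nil)))) (.nd (nat_lit 9) 
(.lf (nat_lit 466379) (.g (nat_lit 4825) (.e (nat_lit 3249) (nat_lit 197) (.e (nat_lit 532550) (nat_lit 12) (.e (nat_lit 360475) (nat_lit 8) (.e (nat_lit 557091) (nat_lit 12) (.e (nat_lit 164022) (nat_lit 46) (.e (nat_lit 704737) (nat_lit 11) (.e (nat_lit 16401) (nat_lit 0) .nil))))))) (.g (nat_lit 1) (.e (nat_lit 76412) (nat_lit 0) .nil) .nil))) 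
(.lf (nat_lit 466891) (.g (nat_lit 2910) (.e (nat_lit 3253) (nat_lit 197) (.e (nat_lit 532499) (nat_lit 1) (.e (nat_lit 57927) (nat_lit 282) (.e (nat_lit 163868) (nat_lit 2) (.e (nat_lit 196663) (nat_lit 13) (.e (nat_lit 65569) (nat_lit 3) (.e (nat_lit 98341) (nat_lit 20) (.e (nat_lit 221204) (nat_lit 20) .nil)))))))) (.g (nat_lit 1) (.e (nat_lit 77269) (nat_lit 0) .nil) .nil))))))) 
(.nd (nat_lit 6) (.nd (nat_lit 7) (.nd (nat_lit 8) (.nd (nat_lit 9) 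
(.lf (nat_lit 465963) (.g (nat_lit 5271) (.e (nat_lit 3242) (nat_lit 197) (.e (nat_lit 532550) (nat_lit 12) (.e (nat_lit 360475) (nat_lit 8) (.e (nat_lit 557091) (nat_lit 12) (.e (nat_lit 164022) (nat_lit 46) (.e (nat_lit 704738) (nat_lit 11) (.e (nat_lit 16390) (nat_lit 0) .nil))))))) (.g (nat_lit 1) (.e (nat_lit 75687) (nat_lit 0) .nil) .nil))) 
(.lf (nat_lit 466475) (.g (nat_lit 3006) (.e (nat_lit 3250) (nat_lit 197) (.e (nat_lit 532535) (nat_lit 9) (.e (nat_lit 336099) (nat_lit 9) (.e (nat_lit 336013) (nat_lit 2) .nil)))) (.g (nat_lit 0) (.e (nat_lit 76653) (nat_lit 0) .nil) .nil)))) (.nd (nat_lit 9) 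
(.lf (nat_lit 466219) (.g (nat_lit 3472) (.e (nat_lit 3249) (nat_lit 197) (.e (nat_lit 532523) (nat_lit 7) (.e (nat_lit 319490) (nat_lit 0) (.e (nat_lit 5664) (nat_lit 312) (.e (nat_lit 2661) (nat_lit 167) (.e (nat_lit 196670) (nat_lit 14) (.e (nat_lit 73779) (nat_lit 32) (.e (nat_lit 2505) (nat_lit 157) .nil)))))))) (.g (nat_lit 1) (.e (nat_lit 76088) (nat_lit 0) .nil) .nil))) 
(.lf (nat_lit 466731) (.g (nat_lit 3804) (.e (nat_lit 3252) (nat_lit 197) (.e (nat_lit 532550) (nat_lit 12) (.e (nat_lit 360467) (nat_lit 3) (.e (nat_lit 516139) (nat_lit 7) (.e (nat_lit 409647) (nat_lit 18) .nil))))) (.g (nat_lit 0) (.e (nat_lit 77057) (nat_lit 0) .nil) .nil))))) (.nd (nat_lit 8) (.nd (nat_lit 9) 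
(.lf (nat_lit 466091) (.g (nat_lit 2458) (.e (nat_lit 3249) (nat_lit 197) (.e (nat_lit 532499) (nat_lit 1) (.e (nat_lit 57926) (nat_lit 282) (.e (nat_lit 163875) (nat_lit 3) (.e (nat_lit 204862) (nat_lit 27) .nil))))) (.g (nat_lit 0) (.e (nat_lit 75856) (nat_lit 0) .nil) .nil))) 
(.lf (nat_lit 466603) (.g (nat_lit 2446) (.e (nat_lit 3252) (nat_lit 197) (.e (nat_lit 532499) (nat_lit 1) (.e (nat_lit 57927) (nat_lit 282) (.e (nat_lit 163867) (nat_lit 2) (.e (nat_lit 196670) (nat_lit 14) (.e (nat_lit 73746) (nat_lit 3) (.e (nat_lit 516129) (nat_lit 3) (.e (nat_lit 221200) (nat_lit 20) .nil)))))))) (.g (nat_lit 1) (.e (nat_lit 76846) (nat_lit 0) .nil) .nil)))) (.nd (nat_lit 9) 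
(.lf (nat_lit 466347) (.g (nat_lit 3644) (.e (nat_lit 3249) (nat_lit 197) (.e (nat_lit 532550) (nat_lit 12) (.e (nat_lit 360475) (nat_lit 8) (.e (nat_lit 557065) (nat_lit 9) (.e (nat_lit 297) (nat_lit 22) .nil))))) (.g (nat_lit 0) (.e (nat_lit 76380) (nat_lit 0) .nil) .nil))) 
(.lf (nat_lit 466859) (.g (nat_lit 3319) (.e (nat_lit 3253) (nat_lit 197) (.e (nat_lit 532499) (nat_lit 1) (.e (nat_lit 57926) (nat_lit 282) (.e (nat_lit 163869) (nat_lit 2) (.e (nat_lit 196666) (nat_lit 13) (.e (nat_lit 65571) (nat_lit 3) (.e (nat_lit 98342) (nat_lit 20) (.e (nat_lit 221204) (nat_lit 20) .nil)))))))) (.g (nat_lit 1) (.e (nat_lit 77226) (nat_lit 0) .nil) .nil)))))) 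
(.nd (nat_lit 7) (.nd (nat_lit 8) (.nd (nat_lit 9) 
(.lf (nat_lit 466027) (.g (nat_lit 1681) (.e (nat_lit 3248) (nat_lit 197) (.e (nat_lit 532504) (nat_lit 1) (.e (nat_lit 57929) (nat_lit 282) (.e (nat_lit 163874) (nat_lit 3) .nil)))) (.g (nat_lit 0) (.e (nat_lit 75760) (nat_lit 0) .nil) .nil))) 
(.lf (nat_lit 466539) (.g (nat_lit 1926) (.e (nat_lit 3251) (nat_lit 197) (.e (nat_lit 532511) (nat_lit 2) (.e (nat_lit 106534) (nat_lit 11) (.e (nat_lit 16412) (nat_lit 2) (.e (nat_lit 196674) (nat_lit 15) (.e (nat_lit 81922) (nat_lit 0) .nil)))))) (.g (nat_lit 1) (.e (nat_lit 76739) (nat_lit 0) .nil) .nil)))) (.nd (nat_lit 9) 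
(.lf (nat_lit 466283) (.g (nat_lit 1978) (.e (nat_lit 3249) (nat_lit 197) (.e (nat_lit 532529) (nat_lit 9) (.e (nat_lit 336316) (nat_lit 17) (.e (nat_lit 196628) (nat_lit 9) .nil)))) (.g (nat_lit 0) (.e (nat_lit 76165) (nat_lit 0) .nil) .nil))) 
(.lf (nat_lit 466795) (.g (nat_lit 3737) (.e (nat_lit 3252) (nat_lit 197) (.e (nat_lit 532558) (nat_lit 14) (.e (nat_lit 376868) (nat_lit 23) (.e (nat_lit 98350) (nat_lit 24) (.e (nat_lit 409645) (nat_lit 18) (.e (nat_lit 303112) (nat_lit 0) .nil)))))) (.g (nat_lit 1) (.e (nat_lit 77127) (nat_lit 0) .nil) .nil))))) (.nd (nat_lit 8) (.nd (nat_lit 9) 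
(.lf (nat_lit 466155) (.g (nat_lit 3396) (.e (nat_lit 3249) (nat_lit 197) (.e (nat_lit 532503) (nat_lit 1) (.e (nat_lit 57931) (nat_lit 282) (.e (nat_lit 163869) (nat_lit 2) (.e (nat_lit 196670) (nat_lit 14) (.e (nat_lit 73746) (nat_lit 3) (.e (nat_lit 516131) (nat_lit 3) (.e (nat_lit 221202) (nat_lit 20) .nil)))))))) (.g (nat_lit 1) (.e (nat_lit 75935) (nat_lit 0) .nil) .nil))) 
(.lf (nat_lit 466667) (.g (nat_lit 1265) (.e (nat_lit 3252) (nat_lit 197) (.e (nat_lit 532515) (nat_lit 3) (.e (nat_lit 114716) (nat_lit 22) (.e (nat_lit 90169) (nat_lit 13) (.e (nat_lit 172132) (nat_lit 15) .nil))))) (.g (nat_lit 0) (.e (nat_lit 76961) (nat_lit 0) .nil) .nil)))) (.nd (nat_lit 9) 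
(.lf (nat_lit 466411) (.g (nat_lit 2511) (.e (nat_lit 3249) (nat_lit 197) (.e (nat_lit 532569) (nat_lit 16) (.e (nat_lit 401434) (nat_lit 9) (.e (nat_lit 426140) (nat_lit 3) (.e (nat_lit 204845) (nat_lit 24) (.e (nat_lit 319505) (nat_lit 10) (.e (nat_lit 5712) (nat_lit 312) (.e (nat_lit 2505) (nat_lit 157) .nil)))))))) (.g (nat_lit 1) (.e (nat_lit 76490) (nat_lit 0) .nil) .nil))) 
(.lf (nat_lit 466923) (.g (nat_lit 4585) (.e (nat_lit 3253) (nat_lit 197) (.e (nat_lit 532499) (nat_lit 1) (.e (nat_lit 57927) (nat_lit 282) (.e (nat_lit 163869) (nat_lit 2) (.e (nat_lit 196670) (nat_lit 14) (.e (nat_lit 73746) (nat_lit 3) (.e (nat_lit 516129) (nat_lit 3) (.e (nat_lit 221203) (nat_lit 20) .nil)))))))) (.g (nat_lit 1) (.e (nat_lit 77305) (nat_lit 0) .nil) .nil)))))))) 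
(.nd (nat_lit 5) (.nd (nat_lit 6) (.nd (nat_lit 7) (.nd (nat_lit 8) (.nd (nat_lit 9) 
(.lf (nat_lit 465947) (.g (nat_lit 5188) (.e (nat_lit 3242) (nat_lit 197) (.e (nat_lit 532550) (nat_lit 12) (.e (nat_lit 360475) (nat_lit 8) (.e (nat_lit 557087) (nat_lit 11) .nil)))) (.g (nat_lit 0) (.e (nat_lit 75671) (nat_lit 0) .nil) .nil))) 
(.lf (nat_lit 466459) (.g (nat_lit 2056) (.e (nat_lit 3250) (nat_lit 197) (.e (nat_lit 532499) (nat_lit 1) (.e (nat_lit 57927) (nat_lit 282) (.e (nat_lit 163871) (nat_lit 2) (.e (nat_lit 196670) (nat_lit 14) (.e (nat_lit 73746) (nat_lit 3) (.e (nat_lit 516131) (nat_lit 3) (.e (nat_lit 221198) (nat_lit 20) .nil)))))))) (.g (nat_lit 1) (.e (nat_lit 76634) (nat_lit 0) .nil) .nil)))) (.nd (nat_lit 9) 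
(.lf (nat_lit 466203) (.g (nat_lit 1803) (.e (nat_lit 3249) (nat_lit 197) (.e (nat_lit 532508) (nat_lit 2) (.e (nat_lit 106536) (nat_lit 11) (.e (nat_lit 16416) (nat_lit 3) (.e (nat_lit 204877) (nat_lit 31) (.e (nat_lit 376833) (nat_lit 0) .nil)))))) (.g (nat_lit 1) (.e (nat_lit 75988) (nat_lit 0) .nil) .nil))) 
(.lf (nat_lit 466715) (.g (nat_lit 2141) (.e (nat_lit 3252) (nat_lit 197) (.e (nat_lit 532550) (nat_lit 12) (.e (nat_lit 360465) (nat_lit 3) (.e (nat_lit 516139) (nat_lit 7) .nil)))) (.g (nat_lit 0) (.e (nat_lit 77037) (nat_lit 0) .nil) .nil))))) (.nd (nat_lit 8) (.nd (nat_lit 9) 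
(.lf (nat_lit 466075) (.g (nat_lit 5018) (.e (nat_lit 3248) (nat_lit 197) (.e (nat_lit 532550) (nat_lit 12) (.e (nat_lit 360475) (nat_lit 8) (.e (nat_lit 557091) (nat_lit 12) (.e (nat_lit 164022) (nat_lit 46) (.e (nat_lit 704737) (nat_lit 11) (.e (nat_lit 16389) (nat_lit 0) .nil))))))) (.g (nat_lit 1) (.e (nat_lit 75830) (nat_lit 0) .nil) .nil))) 
(.lf (nat_lit 466587) (.g (nat_lit 2601) (.e (nat_lit 3252) (nat_lit 197) (.e (nat_lit 532499) (nat_lit 1) (.e (nat_lit 57847) (nat_lit 252) (.e (nat_lit 57448) (nat_lit 19) (.e (nat_lit 393229) (nat_lit 9) .nil))))) (.g (nat_lit 0) (.e (nat_lit 76825) (nat_lit 0) .nil) .nil)))) (.nd (nat_lit 9) 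
(.lf (nat_lit 466331) (.g (nat_lit 4358) (.e (nat_lit 3249) (nat_lit 197) (.e (nat_lit 532550) (nat_lit 12) (.e (nat_lit 360474) (nat_lit 8) (.e (nat_lit 557085) (nat_lit 11) (.e (nat_lit 24665) (nat_lit 14) (.e (nat_lit 401418) (nat_lit 0) .nil)))))) (.g (nat_lit 1) (.e (nat_lit 76364) (nat_lit 0) .nil) .nil))) 
(.lf (nat_lit 466843) (.g (nat_lit 3200) (.e (nat_lit 3253) (nat_lit 197) (.e (nat_lit 532499) (nat_lit 1) (.e (nat_lit 57847) (nat_lit 252) (.e (nat_lit 57355) (nat_lit 0) (.e (nat_lit 1858) (nat_lit 124) (.e (nat_lit 557105) (nat_lit 14) (.e (nat_lit 180252) (nat_lit 10) (.e (nat_lit 573482) (nat_lit 13) (.e (nat_lit 65635) (nat_lit 15) .nil))))))))) (.g (nat_lit 1) (.e (nat_lit 77209) (nat_lit 0) .nil) .nil)))))) 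
(.nd (nat_lit 7) (.nd (nat_lit 8) (.nd (nat_lit 9) 
(.lf (nat_lit 466011) (.g (nat_lit 2789) (.e (nat_lit 3248) (nat_lit 197) (.e (nat_lit 532503) (nat_lit 1) (.e (nat_lit 57931) (nat_lit 282) (.e (nat_lit 163874) (nat_lit 3) (.e (nat_lit 204872) (nat_lit 30) (.e (nat_lit 368676) (nat_lit 21) (.e (nat_lit 516131) (nat_lit 3) (.e (nat_lit 221197) (nat_lit 20) .nil)))))))) (.g (nat_lit 1) (.e (nat_lit 75742) (nat_lit 0) .nil) .nil))) 
(.lf (nat_lit 466523) (.g (nat_lit 1459) (.e (nat_lit 3251) (nat_lit 197) (.e (nat_lit 532508) (nat_lit 2) (.e (nat_lit 106534) (nat_lit 11) (.e (nat_lit 16416) (nat_lit 3) (.e (nat_lit 204876) (nat_lit 31) .nil))))) (.g (nat_lit 0) (.e (nat_lit 76723) (nat_lit 0) .nil) .nil)))) (.nd (nat_lit 9) 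
(.lf (nat_lit 466267) (.g (nat_lit 2375) (.e (nat_lit 3249) (nat_lit 197) (.e (nat_lit 532523) (nat_lit 7) (.e (nat_lit 319533) (nat_lit 16) (.e (nat_lit 286734) (nat_lit 3) (.e (nat_lit 98381) (nat_lit 31) (.e (nat_lit 474880) (nat_lit 20) .nil)))))) (.g (nat_lit 1) (.e (nat_lit 76144) (nat_lit 0) .nil) .nil))) 
(.lf (nat_lit 466779) (.g (nat_lit 4519) (.e (nat_lit 3252) (nat_lit 197) (.e (nat_lit 532550) (nat_lit 12) (.e (nat_lit 360475) (nat_lit 8) (.e (nat_lit 557089) (nat_lit 12) .nil)))) (.g (nat_lit 0) (.e (nat_lit 77111) (nat_lit 0) .nil) .nil))))) (.nd (nat_lit 8) (.nd (nat_lit 9) 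
(.lf (nat_lit 466139) (.g (nat_lit 1559) (.e (nat_lit 3249) (nat_lit 197) (.e (nat_lit 532503) (nat_lit 1) (.e (nat_lit 57848) (nat_lit 252) (.e (nat_lit 57411) (nat_lit 12) .nil)))) (.g (nat_lit 0) (.e (nat_lit 75912) (nat_lit 0) .nil) .nil))) 
(.lf (nat_lit 466651) (.g (nat_lit 2918) (.e (nat_lit 3252) (nat_lit 197) (.e (nat_lit 532504) (nat_lit 1) (.e (nat_lit 57851) (nat_lit 252) (.e (nat_lit 57406) (nat_lit 12) (.e (nat_lit 336456) (nat_lit 34) (.e (nat_lit 483379) (nat_lit 23) (.e (nat_lit 336303) (nat_lit 15) .nil))))))) (.g (nat_lit 1) (.e (nat_lit 76931) (nat_lit 0) .nil) .nil)))) (.nd (nat_lit 9) 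
(.lf (nat_lit 466395) (.g (nat_lit 3730) (.e (nat_lit 3249) (nat_lit 197) (.e (nat_lit 532563) (nat_lit 15) (.e (nat_lit 385066) (nat_lit 26) (.e (nat_lit 532530) (nat_lit 9) (.e (nat_lit 336326) (nat_lit 18) (.e (nat_lit 204854) (nat_lit 26) (.e (nat_lit 336284) (nat_lit 15) .nil))))))) (.g (nat_lit 1) (.e (nat_lit 76467) (nat_lit 0) .nil) .nil))) 
(.lf (nat_lit 466907) (.g (nat_lit 4412) (.e (nat_lit 3253) (nat_lit 197) (.e (nat_lit 532499) (nat_lit 1) (.e (nat_lit 57927) (nat_lit 282) (.e (nat_lit 163868) (nat_lit 2) (.e (nat_lit 196670) (nat_lit 14) (.e (nat_lit 73746) (nat_lit 3) (.e (nat_lit 516129) (nat_lit 3) (.e (nat_lit 221204) (nat_lit 20) .nil)))))))) (.g (nat_lit 1) (.e (nat_lit 77285) (nat_lit 0) .nil) .nil))))))) 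
(.nd (nat_lit 6) (.nd (nat_lit 7) (.nd (nat_lit 8) (.nd (nat_lit 9) 
(.lf (nat_lit 465979) (.g (nat_lit 2273) (.e (nat_lit 3248) (nat_lit 197) (.e (nat_lit 532503) (nat_lit 1) (.e (nat_lit 57924) (nat_lit 282) (.e (nat_lit 163871) (nat_lit 2) (.e (nat_lit 196670) (nat_lit 14) (.e (nat_lit 73746) (nat_lit 3) (.e (nat_lit 516129) (nat_lit 3) (.e (nat_lit 221196) (nat_lit 20) .nil)))))))) (.g (nat_lit 1) (.e (nat_lit 75708) (nat_lit 0) .nil) .nil))) 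
(.lf (nat_lit 466491) (.g (nat_lit 4884) (.e (nat_lit 3250) (nat_lit 197) (.e (nat_lit 532550) (nat_lit 12) (.e (nat_lit 360475) (nat_lit 8) (.e (nat_lit 557091) (nat_lit 12) (.e (nat_lit 164022) (nat_lit 46) .nil))))) (.g (nat_lit 0) (.e (nat_lit 76676) (nat_lit 0) .nil) .nil)))) (.nd (nat_lit 9) 
(.lf (nat_lit 466235) (.g (nat_lit 1602) (.e (nat_lit 3249) (nat_lit 197) (.e (nat_lit 532523) (nat_lit 7) (.e (nat_lit 319530) (nat_lit 16) (.e (nat_lit 286735) (nat_lit 3) .nil)))) (.g (nat_lit 0) (.e (nat_lit 76112) (nat_lit 0) .nil) .nil))) 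
(.lf (nat_lit 466747) (.g (nat_lit 3473) (.e (nat_lit 3252) (nat_lit 197) (.e (nat_lit 532550) (nat_lit 12) (.e (nat_lit 360474) (nat_lit 8) (.e (nat_lit 557085) (nat_lit 11) (.e (nat_lit 24665) (nat_lit 14) .nil))))) (.g (nat_lit 0) (.e (nat_lit 77078) (nat_lit 0) .nil) .nil))))) (.nd (nat_lit 8) (.nd (nat_lit 9) 
(.lf (nat_lit 466107) (.g (nat_lit 1799) (.e (nat_lit 3249) (nat_lit 197) (.e (nat_lit 532499) (nat_lit 1) (.e (nat_lit 57927) (nat_lit 282) (.e (nat_lit 163874) (nat_lit 3) (.e (nat_lit 204854) (nat_lit 26) .nil))))) (.g (nat_lit 0) (.e (nat_lit 75879) (nat_lit 0) .nil) .nil))) 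
(.lf (nat_lit 466619) (.g (nat_lit 2291) (.e (nat_lit 3252) (nat_lit 197) (.e (nat_lit 532499) (nat_lit 1) (.e (nat_lit 57927) (nat_lit 282) (.e (nat_lit 163874) (nat_lit 3) (.e (nat_lit 204863) (nat_lit 27) (.e (nat_lit 344117) (nat_lit 21) (.e (nat_lit 516130) (nat_lit 3) (.e (nat_lit 221195) (nat_lit 20) .nil)))))))) (.g (nat_lit 1) (.e (nat_lit 76885) (nat_lit 0) .nil) .nil)))) 
(.nd (nat_lit 9) 
(.lf (nat_lit 466363) (.g (nat_lit 2821) (.e (nat_lit 3249) (nat_lit 197) (.e (nat_lit 532550) (nat_lit 12) (.e (nat_lit 360475) (nat_lit 8) (.e (nat_lit 557087) (nat_lit 11) (.e (nat_lit 24588) (nat_lit 0) (.e (nat_lit 6671) (nat_lit 357) (.e (nat_lit 2508) (nat_lit 157) .nil))))))) (.g (nat_lit 1) (.e (nat_lit 76396) (nat_lit 0) .nil) .nil))) 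
(.lf (nat_lit 466875) (.g (nat_lit 3875) (.e (nat_lit 3253) (nat_lit 197) (.e (nat_lit 532499) (nat_lit 1) (.e (nat_lit 57926) (nat_lit 282) (.e (nat_lit 163874) (nat_lit 3) (.e (nat_lit 204863) (nat_lit 27) (.e (nat_lit 344117) (nat_lit 21) (.e (nat_lit 516130) (nat_lit 3) (.e (nat_lit 221204) (nat_lit 20) .nil)))))))) (.g (nat_lit 1) (.e (nat_lit 77247) (nat_lit 0) .nil) .nil)))))) 
(.nd (nat_lit 7) (.nd (nat_lit 8) (.nd (nat_lit 9) 
(.lf (nat_lit 466043) (.g (nat_lit 2180) (.e (nat_lit 3248) (nat_lit 197) (.e (nat_lit 532513) (nat_lit 3) (.e (nat_lit 114714) (nat_lit 22) (.e (nat_lit 90174) (nat_lit 14) (.e (nat_lit 180243) (nat_lit 5) (.e (nat_lit 532503) (nat_lit 1) (.e (nat_lit 57687) (nat_lit 156) (.e (nat_lit 163843) (nat_lit 0) .nil)))))))) (.g (nat_lit 1) (.e (nat_lit 75777) (nat_lit 0) .nil) .nil))) 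
(.lf (nat_lit 466555) (.g (nat_lit 3713) (.e (nat_lit 3251) (nat_lit 197) (.e (nat_lit 532535) (nat_lit 9) (.e (nat_lit 336099) (nat_lit 9) (.e (nat_lit 336028) (nat_lit 3) (.e (nat_lit 98349) (nat_lit 24) (.e (nat_lit 409644) (nat_lit 18) (.e (nat_lit 303112) (nat_lit 0) .nil))))))) (.g (nat_lit 1) (.e (nat_lit 76790) (nat_lit 0) .nil) .nil)))) (.nd (nat_lit 9) 
(.lf (nat_lit 466299) (.g (nat_lit 1452) (.e (nat_lit 3249) (nat_lit 197) (.e (nat_lit 532549) (nat_lit 12) (.e (nat_lit 360473) (nat_lit 8) (.e (nat_lit 557087) (nat_lit 11) .nil)))) (.g (nat_lit 0) (.e (nat_lit 76298) (nat_lit 0) .nil) .nil))) 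
(.lf (nat_lit 466811) (.g (nat_lit 2562) (.e (nat_lit 3252) (nat_lit 197) (.e (nat_lit 532560) (nat_lit 14) (.e (nat_lit 376868) (nat_lit 23) (.e (nat_lit 98350) (nat_lit 24) (.e (nat_lit 409646) (nat_lit 18) (.e (nat_lit 303112) (nat_lit 0) .nil)))))) (.g (nat_lit 1) (.e (nat_lit 77145) (nat_lit 0) .nil) .nil))))) (.nd (nat_lit 8) (.nd (nat_lit 9) 
(.lf (nat_lit 466171) (.g (nat_lit 1610) (.e (nat_lit 3249) (nat_lit 197) (.e (nat_lit 532504) (nat_lit 1) (.e (nat_lit 57851) (nat_lit 252) (.e (nat_lit 57406) (nat_lit 12) (.e (nat_lit 336456) (nat_lit 34) (.e (nat_lit 483391) (nat_lit 23) (.e (nat_lit 336271) (nat_lit 15) .nil))))))) (.g (nat_lit 1) (.e (nat_lit 75951) (nat_lit 0) .nil) .nil))) 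
(.lf (nat_lit 466683) (.g (nat_lit 5426) (.e (nat_lit 3252) (nat_lit 197) (.e (nat_lit 532535) (nat_lit 9) (.e (nat_lit 336099) (nat_lit 9) (.e (nat_lit 336013) (nat_lit 2) (.e (nat_lit 90147) (nat_lit 9) .nil))))) (.g (nat_lit 0) (.e (nat_lit 76994) (nat_lit 0) .nil) .nil)))) (.nd (nat_lit 9) 
(.lf (nat_lit 466427) (.g (nat_lit 2703) (.e (nat_lit 3249) (nat_lit 197) (.e (nat_lit 532569) (nat_lit 16) (.e (nat_lit 401448) (nat_lit 10) (.e (nat_lit 434232) (nat_lit 23) (.e (nat_lit 532567) (nat_lit 16) (.e (nat_lit 401444) (nat_lit 9) (.e (nat_lit 425984) (nat_lit 0) .nil))))))) (.g (nat_lit 1) (.e (nat_lit 76544) (nat_lit 0) .nil) .nil))) 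
(.lf (nat_lit 466939) (.g (nat_lit 3856) (.e (nat_lit 3253) (nat_lit 197) (.e (nat_lit 532499) (nat_lit 1) (.e (nat_lit 57927) (nat_lit 282) (.e (nat_lit 163874) (nat_lit 3) (.e (nat_lit 204851) (nat_lit 26) (.e (nat_lit 336019) (nat_lit 3) (.e (nat_lit 98341) (nat_lit 20) (.e (nat_lit 221204) (nat_lit 20) .nil)))))))) (.g (nat_lit 1) (.e (nat_lit 77335) (nat_lit 0) .nil) .nil)))))))))) 
(.nd (nat_lit 3) (.nd (nat_lit 4) (.nd (nat_lit 5) (.nd (nat_lit 6) (.nd (nat_lit 7) 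
(.nd (nat_lit 8) (.nd (nat_lit 9) 
(.lf (nat_lit 465927) (.g (nat_lit 4635) (.e (nat_lit 3242) (nat_lit 197) (.e (nat_lit 532550) (nat_lit 12) (.e (nat_lit 360474) (nat_lit 8) (.e (nat_lit 557093) (nat_lit 12) (.e (nat_lit 164023) (nat_lit 46) (.e (nat_lit 704737) (nat_lit 11) (.e (nat_lit 16384) (nat_lit 0) .nil))))))) (.g (nat_lit 1) (.e (nat_lit 75650) (nat_lit 0) .nil) .nil))) 
(.lf (nat_lit 466439) (.g (nat_lit 2911) (.e (nat_lit 3249) (nat_lit 197) (.e (nat_lit 532569) (nat_lit 16) (.e (nat_lit 401448) (nat_lit 10) (.e (nat_lit 434248) (nat_lit 28) (.e (nat_lit 573470) (nat_lit 11) .nil))))) (.g (nat_lit 0) (.e (nat_lit 76559) (nat_lit 0) .nil) .nil)))) (.nd (nat_lit 9) 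
(.lf (nat_lit 466183) (.g (nat_lit 1087) (.e (nat_lit 3249) (nat_lit 197) (.e (nat_lit 532504) (nat_lit 1) (.e (nat_lit 57854) (nat_lit 252) .nil))) (.g (nat_lit 0) (.e (nat_lit 75966) (nat_lit 0) .nil) .nil))) 
(.lf (nat_lit 466695) (.g (nat_lit 3693) (.e (nat_lit 3252) (nat_lit 197) (.e (nat_lit 532535) (nat_lit 9) (.e (nat_lit 336173) (nat_lit 10) (.e (nat_lit 344119) (nat_lit 21) (.e (nat_lit 516139) (nat_lit 7) (.e (nat_lit 409645) (nat_lit 18) (.e (nat_lit 303112) (nat_lit 0) .nil))))))) (.g (nat_lit 1) (.e (nat_lit 77006) (nat_lit 0) .nil) .nil))))) (.nd (nat_lit 8) (.nd (nat_lit 9) 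
(.lf (nat_lit 466055) (.g (nat_lit 4408) (.e (nat_lit 3248) (nat_lit 197) (.e (nat_lit 532515) (nat_lit 3) (.e (nat_lit 114716) (nat_lit 22) (.e (nat_lit 90172) (nat_lit 14) (.e (nat_lit 180244) (nat_lit 5) (.e (nat_lit 532503) (nat_lit 1) (.e (nat_lit 57688) (nat_lit 156) (.e (nat_lit 163844) (nat_lit 0) .nil)))))))) (.g (nat_lit 1) (.e (nat_lit 75791) (nat_lit 0) .nil) .nil))) 
(.lf (nat_lit 466567) (.g (nat_lit 4803) (.e (nat_lit 3251) (nat_lit 197) (.e (nat_lit 532550) (nat_lit 12) (.e (nat_lit 360474) (nat_lit 8) (.e (nat_lit 557094) (nat_lit 12) (.e (nat_lit 164022) (nat_lit 46) (.e (nat_lit 704738) (nat_lit 11) (.e (nat_lit 16396) (nat_lit 0) .nil))))))) (.g (nat_lit 1) (.e (nat_lit 76803) (nat_lit 0) .nil) .nil)))) (.nd (nat_lit 9) 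
(.lf (nat_lit 466311) (.g (nat_lit 4020) (.e (nat_lit 3249) (nat_lit 197) (.e (nat_lit 532549) (nat_lit 12) (.e (nat_lit 360475) (nat_lit 8) (.e (nat_lit 557085) (nat_lit 11) (.e (nat_lit 24665) (nat_lit 14) .nil))))) (.g (nat_lit 0) (.e (nat_lit 76320) (nat_lit 0) .nil) .nil))) 
(.lf (nat_lit 466823) (.g (nat_lit 1532) (.e (nat_lit 3252) (nat_lit 197) (.e (nat_lit 532561) (nat_lit 14) (.e (nat_lit 376867) (nat_lit 23) (.e (nat_lit 98350) (nat_lit 24) (.e (nat_lit 417536) (nat_lit 18) .nil))))) (.g (nat_lit 0) (.e (nat_lit 77163) (nat_lit 0) .nil) .nil)))))) (.nd (nat_lit 7) (.nd (nat_lit 8) (.nd (nat_lit 9) 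
(.lf (nat_lit 465991) (.g (nat_lit 2224) (.e (nat_lit 3248) (nat_lit 197) (.e (nat_lit 532503) (nat_lit 1) (.e (nat_lit 57931) (nat_lit 282) (.e (nat_lit 163866) (nat_lit 2) (.e (nat_lit 196670) (nat_lit 14) (.e (nat_lit 73746) (nat_lit 3) (.e (nat_lit 516131) (nat_lit 3) (.e (nat_lit 221197) (nat_lit 20) .nil)))))))) (.g (nat_lit 1) (.e (nat_lit 75720) (nat_lit 0) .nil) .nil))) 
(.lf (nat_lit 466503) (.g (nat_lit 2141) (.e (nat_lit 3251) (nat_lit 197) (.e (nat_lit 532501) (nat_lit 1) (.e (nat_lit 57852) (nat_lit 252) (.e (nat_lit 57409) (nat_lit 12) (.e (nat_lit 336454) (nat_lit 34) .nil))))) (.g (nat_lit 0) (.e (nat_lit 76690) (nat_lit 0) .nil) .nil)))) (.nd (nat_lit 9) 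
(.lf (nat_lit 466247) (.g (nat_lit 3528) (.e (nat_lit 3249) (nat_lit 197) (.e (nat_lit 532523) (nat_lit 7) (.e (nat_lit 319531) (nat_lit 16) (.e (nat_lit 286733) (nat_lit 2) (.e (nat_lit 90178) (nat_lit 15) (.e (nat_lit 196352) (nat_lit 20) .nil)))))) (.g (nat_lit 1) (.e (nat_lit 76124) (nat_lit 0) .nil) .nil))) 
(.lf (nat_lit 466759) (.g (nat_lit 3490) (.e (nat_lit 3252) (nat_lit 197) (.e (nat_lit 532550) (nat_lit 12) (.e (nat_lit 360474) (nat_lit 8) (.e (nat_lit 557093) (nat_lit 12) (.e (nat_lit 164023) (nat_lit 46) (.e (nat_lit 704735) (nat_lit 11) (.e (nat_lit 16400) (nat_lit 0) .nil))))))) (.g (nat_lit 1) (.e (nat_lit 77090) (nat_lit 0) .nil) .nil))))) (.nd (nat_lit 8) (.nd (nat_lit 9) 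
(.lf (nat_lit 466119) (.g (nat_lit 2219) (.e (nat_lit 3249) (nat_lit 197) (.e (nat_lit 532500) (nat_lit 1) (.e (nat_lit 57851) (nat_lit 252) (.e (nat_lit 57406) (nat_lit 12) (.e (nat_lit 336456) (nat_lit 34) (.e (nat_lit 483386) (nat_lit 23) (.e (nat_lit 336280) (nat_lit 15) .nil))))))) (.g (nat_lit 1) (.e (nat_lit 75892) (nat_lit 0) .nil) .nil))) 
(.lf (nat_lit 466631) (.g (nat_lit 2425) (.e (nat_lit 3252) (nat_lit 197) (.e (nat_lit 532501) (nat_lit 1) (.e (nat_lit 57851) (nat_lit 252) (.e (nat_lit 57406) (nat_lit 12) (.e (nat_lit 336456) (nat_lit 34) (.e (nat_lit 483379) (nat_lit 23) (.e (nat_lit 336303) (nat_lit 15) .nil))))))) (.g (nat_lit 1) (.e (nat_lit 76904) (nat_lit 0) .nil) .nil)))) (.nd (nat_lit 9) 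
(.lf (nat_lit 466375) (.g (nat_lit 2936) (.e (nat_lit 3249) (nat_lit 197) (.e (nat_lit 532550) (nat_lit 12) (.e (nat_lit 360475) (nat_lit 8) (.e (nat_lit 557091) (nat_lit 12) (.e (nat_lit 163843) (nat_lit 0) .nil))))) (.g (nat_lit 0) (.e (nat_lit 76408) (nat_lit 0) .nil) .nil))) 
(.lf (nat_lit 466887) (.g (nat_lit 2181) (.e (nat_lit 3253) (nat_lit 197) (.e (nat_lit 532499) (nat_lit 1) (.e (nat_lit 57927) (nat_lit 282) (.e (nat_lit 163866) (nat_lit 2) (.e (nat_lit 196670) (nat_lit 14) (.e (nat_lit 73746) (nat_lit 3) (.e (nat_lit 516131) (nat_lit 3) (.e (nat_lit 221204) (nat_lit 20) .nil)))))))) (.g (nat_lit 1) (.e (nat_lit 77265) (nat_lit 0) .nil) .nil))))))) 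
(.nd (nat_lit 6) (.nd (nat_lit 7) (.nd (nat_lit 8) (.nd (nat_lit 9) 
(.lf (nat_lit 465959) (.g (nat_lit 4678) (.e (nat_lit 3242) (nat_lit 197) (.e (nat_lit 532550) (nat_lit 12) (.e (nat_lit 360475) (nat_lit 8) (.e (nat_lit 557091) (nat_lit 12) (.e (nat_lit 164022) (nat_lit 46) (.e (nat_lit 704737) (nat_lit 11) (.e (nat_lit 16390) (nat_lit 0) .nil))))))) (.g (nat_lit 1) (.e (nat_lit 75683) (nat_lit 0) .nil) .nil))) 
(.lf (nat_lit 466471) (.g (nat_lit 2228) (.e (nat_lit 3250) (nat_lit 197) (.e (nat_lit 532504) (nat_lit 1) (.e (nat_lit 57851) (nat_lit 252) (.e (nat_lit 57408) (nat_lit 12) .nil)))) (.g (nat_lit 0) (.e (nat_lit 76647) (nat_lit 0) .nil) .nil)))) (.nd (nat_lit 9) 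
(.lf (nat_lit 466215) (.g (nat_lit 4709) (.e (nat_lit 3249) (nat_lit 197) (.e (nat_lit 532523) (nat_lit 7) (.e (nat_lit 319490) (nat_lit 0) (.e (nat_lit 5664) (nat_lit 312) (.e (nat_lit 2661) (nat_lit 167) (.e (nat_lit 196668) (nat_lit 14) (.e (nat_lit 73780) (nat_lit 32) (.e (nat_lit 2505) (nat_lit 157) .nil)))))))) (.g (nat_lit 1) (.e (nat_lit 76084) (nat_lit 0) .nil) .nil))) 
(.lf (nat_lit 466727) (.g (nat_lit 3404) (.e (nat_lit 3252) (nat_lit 197) (.e (nat_lit 532550) (nat_lit 12) (.e (nat_lit 360467) (nat_lit 3) (.e (nat_lit 516138) (nat_lit 7) (.e (nat_lit 409644) (nat_lit 18) (.e (nat_lit 303112) (nat_lit 0) .nil)))))) (.g (nat_lit 1) (.e (nat_lit 77053) (nat_lit 0) .nil) .nil))))) (.nd (nat_lit 8) (.nd (nat_lit 9) 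
(.lf (nat_lit 466087) (.g (nat_lit 2798) (.e (nat_lit 3249) (nat_lit 197) (.e (nat_lit 532499) (nat_lit 1) (.e (nat_lit 57926) (nat_lit 282) (.e (nat_lit 163868) (nat_lit 2) (.e (nat_lit 196668) (nat_lit 14) (.e (nat_lit 73747) (nat_lit 3) (.e (nat_lit 516129) (nat_lit 3) (.e (nat_lit 221202) (nat_lit 20) .nil)))))))) (.g (nat_lit 1) (.e (nat_lit 75851) (nat_lit 0) .nil) .nil))) 
(.lf (nat_lit 466599) (.g (nat_lit 2067) (.e (nat_lit 3252) (nat_lit 197) (.e (nat_lit 532499) (nat_lit 1) (.e (nat_lit 57926) (nat_lit 282) (.e (nat_lit 163871) (nat_lit 2) (.e (nat_lit 196670) (nat_lit 14) .nil))))) (.g (nat_lit 0) (.e (nat_lit 76840) (nat_lit 0) .nil) .nil)))) (.nd (nat_lit 9) 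
(.lf (nat_lit 466343) (.g (nat_lit 3379) (.e (nat_lit 3249) (nat_lit 197) (.e (nat_lit 532550) (nat_lit 12) (.e (nat_lit 360474) (nat_lit 8) (.e (nat_lit 557094) (nat_lit 12) (.e (nat_lit 164022) (nat_lit 46) (.e (nat_lit 704738) (nat_lit 11) (.e (nat_lit 24320) (nat_lit 0) .nil))))))) (.g (nat_lit 1) (.e (nat_lit 76376) (nat_lit 0) .nil) .nil))) 
(.lf (nat_lit 466855) (.g (nat_lit 2895) (.e (nat_lit 3253) (nat_lit 197) (.e (nat_lit 532499) (nat_lit 1) (.e (nat_lit 57926) (nat_lit 282) (.e (nat_lit 163868) (nat_lit 2) (.e (nat_lit 196670) (nat_lit 14) (.e (nat_lit 73746) (nat_lit 3) (.e (nat_lit 516129) (nat_lit 3) (.e (nat_lit 221203) (nat_lit 20) .nil)))))))) (.g (nat_lit 1) (.e (nat_lit 77222) (nat_lit 0) .nil) .nil)))))) 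
(.nd (nat_lit 7) (.nd (nat_lit 8) (.nd (nat_lit 9) 
(.lf (nat_lit 466023) (.g (nat_lit 2501) (.e (nat_lit 3248) (nat_lit 197) (.e (nat_lit 532504) (nat_lit 1) (.e (nat_lit 57924) (nat_lit 282) (.e (nat_lit 163867) (nat_lit 2) (.e (nat_lit 196670) (nat_lit 14) (.e (nat_lit 73746) (nat_lit 3) (.e (nat_lit 516129) (nat_lit 3) (.e (nat_lit 221196) (nat_lit 20) .nil)))))))) (.g (nat_lit 1) (.e (nat_lit 75756) (nat_lit 0) .nil) .nil))) 
(.lf (nat_lit 466535) (.g (nat_lit 2063) (.e (nat_lit 3251) (nat_lit 197) (.e (nat_lit 532510) (nat_lit 2) (.e (nat_lit 106536) (nat_lit 11) (.e (nat_lit 16413) (nat_lit 2) (.e (nat_lit 196674) (nat_lit 15) (.e (nat_lit 81922) (nat_lit 0) .nil)))))) (.g (nat_lit 1) (.e (nat_lit 76735) (nat_lit 0) .nil) .nil)))) (.nd (nat_lit 9) 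
(.lf (nat_lit 466279) (.g (nat_lit 2434) (.e (nat_lit 3249) (nat_lit 197) (.e (nat_lit 532526) (nat_lit 8) (.e (nat_lit 327698) (nat_lit 8) (.e (nat_lit 303117) (nat_lit 2) (.e (nat_lit 196669) (nat_lit 14) (.e (nat_lit 73779) (nat_lit 32) (.e (nat_lit 2508) (nat_lit 157) .nil))))))) (.g (nat_lit 1) (.e (nat_lit 76156) (nat_lit 0) .nil) .nil))) 
(.lf (nat_lit 466791) (.g (nat_lit 3835) (.e (nat_lit 3252) (nat_lit 197) (.e (nat_lit 532551) (nat_lit 12) (.e (nat_lit 360467) (nat_lit 3) (.e (nat_lit 516139) (nat_lit 7) (.e (nat_lit 409648) (nat_lit 18) (.e (nat_lit 303112) (nat_lit 0) .nil)))))) (.g (nat_lit 1) (.e (nat_lit 77123) (nat_lit 0) .nil) .nil))))) (.nd (nat_lit 8) (.nd (nat_lit 9) 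
(.lf (nat_lit 466151) (.g (nat_lit 2729) (.e (nat_lit 3249) (nat_lit 197) (.e (nat_lit 532503) (nat_lit 1) (.e (nat_lit 57931) (nat_lit 282) (.e (nat_lit 163869) (nat_lit 2) (.e (nat_lit 196668) (nat_lit 14) .nil))))) (.g (nat_lit 0) (.e (nat_lit 75930) (nat_lit 0) .nil) .nil))) 
(.lf (nat_lit 466663) (.g (nat_lit 2056) (.e (nat_lit 3252) (nat_lit 197) (.e (nat_lit 532513) (nat_lit 3) (.e (nat_lit 114714) (nat_lit 22) (.e (nat_lit 90172) (nat_lit 14) (.e (nat_lit 180244) (nat_lit 5) (.e (nat_lit 532502) (nat_lit 1) (.e (nat_lit 57688) (nat_lit 156) (.e (nat_lit 163850) (nat_lit 0) .nil)))))))) (.g (nat_lit 1) (.e (nat_lit 76953) (nat_lit 0) .nil) .nil)))) (.nd (nat_lit 9) 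
(.lf (nat_lit 466407) (.g (nat_lit 2430) (.e (nat_lit 3249) (nat_lit 197) (.e (nat_lit 532569) (nat_lit 16) (.e (nat_lit 401434) (nat_lit 9) (.e (nat_lit 426125) (nat_lit 2) (.e (nat_lit 196661) (nat_lit 12) (.e (nat_lit 57748) (nat_lit 201) (.e (nat_lit 2936) (nat_lit 184) (.e (nat_lit 425995) (nat_lit 0) .nil)))))))) (.g (nat_lit 1) (.e (nat_lit 76482) (nat_lit 0) .nil) .nil))) 
(.lf (nat_lit 466919) (.g (nat_lit 4781) (.e (nat_lit 3253) (nat_lit 197) (.e (nat_lit 532499) (nat_lit 1) (.e (nat_lit 57927) (nat_lit 282) (.e (nat_lit 163869) (nat_lit 2) (.e (nat_lit 196668) (nat_lit 14) (.e (nat_lit 73747) (nat_lit 3) (.e (nat_lit 516129) (nat_lit 3) (.e (nat_lit 221204) (nat_lit 20) .nil)))))))) (.g (nat_lit 1) (.e (nat_lit 77301) (nat_lit 0) .nil) .nil)))))))) 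
(.nd (nat_lit 5) (.nd (nat_lit 6) (.nd (nat_lit 7) (.nd (nat_lit 8) (.nd (nat_lit 9) 
(.lf (nat_lit 465943) (.g (nat_lit 5288) (.e (nat_lit 3242) (nat_lit 197) (.e (nat_lit 532550) (nat_lit 12) (.e (nat_lit 360474) (nat_lit 8) (.e (nat_lit 557094) (nat_lit 12) (.e (nat_lit 164022) (nat_lit 46) (.e (nat_lit 704738) (nat_lit 11) (.e (nat_lit 16384) (nat_lit 0) .nil))))))) (.g (nat_lit 1) (.e (nat_lit 75666) (nat_lit 0) .nil) .nil))) 
(.lf (nat_lit 466455) (.g (nat_lit 2266) (.e (nat_lit 3250) (nat_lit 197) (.e (nat_lit 532499) (nat_lit 1) (.e (nat_lit 57927) (nat_lit 282) (.e (nat_lit 163869) (nat_lit 2) (.e (nat_lit 196668) (nat_lit 14) (.e (nat_lit 73747) (nat_lit 3) (.e (nat_lit 516129) (nat_lit 3) (.e (nat_lit 221197) (nat_lit 20) .nil)))))))) (.g (nat_lit 1) (.e (nat_lit 76629) (nat_lit 0) .nil) .nil)))) (.nd (nat_lit 9) 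
(.lf (nat_lit 466199) (.g (nat_lit 1957) (.e (nat_lit 3249) (nat_lit 197) (.e (nat_lit 532508) (nat_lit 2) (.e (nat_lit 106536) (nat_lit 11) (.e (nat_lit 16412) (nat_lit 2) (.e (nat_lit 196672) (nat_lit 15) (.e (nat_lit 89856) (nat_lit 0) .nil)))))) (.g (nat_lit 1) (.e (nat_lit 75984) (nat_lit 0) .nil) .nil))) 
(.lf (nat_lit 466711) (.g (nat_lit 1615) (.e (nat_lit 3252) (nat_lit 197) (.e (nat_lit 532549) (nat_lit 12) (.e (nat_lit 360466) (nat_lit 3) (.e (nat_lit 516139) (nat_lit 7) .nil)))) (.g (nat_lit 0) (.e (nat_lit 77026) (nat_lit 0) .nil) .nil))))) (.nd (nat_lit 8) (.nd (nat_lit 9) 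
(.lf (nat_lit 466071) (.g (nat_lit 4927) (.e (nat_lit 3248) (nat_lit 197) (.e (nat_lit 532550) (nat_lit 12) (.e (nat_lit 360474) (nat_lit 8) (.e (nat_lit 557093) (nat_lit 12) (.e (nat_lit 164023) (nat_lit 46) .nil))))) (.g (nat_lit 0) (.e (nat_lit 75826) (nat_lit 0) .nil) .nil))) 
(.lf (nat_lit 466583) (.g (nat_lit 3913) (.e (nat_lit 3252) (nat_lit 197) (.e (nat_lit 532499) (nat_lit 1) (.e (nat_lit 57847) (nat_lit 252) (.e (nat_lit 57410) (nat_lit 12) (.e (nat_lit 336454) (nat_lit 34) (.e (nat_lit 483385) (nat_lit 23) (.e (nat_lit 336260) (nat_lit 15) .nil))))))) (.g (nat_lit 1) (.e (nat_lit 76820) (nat_lit 0) .nil) .nil)))) (.nd (nat_lit 9) 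
(.lf (nat_lit 466327) (.g (nat_lit 1946) (.e (nat_lit 3249) (nat_lit 197) (.e (nat_lit 532550) (nat_lit 12) (.e (nat_lit 360474) (nat_lit 8) (.e (nat_lit 557072) (nat_lit 9) (.e (nat_lit 7936) (nat_lit 22) .nil))))) (.g (nat_lit 0) (.e (nat_lit 76360) (nat_lit 0) .nil) .nil))) 
(.lf (nat_lit 466839) (.g (nat_lit 2746) (.e (nat_lit 3253) (nat_lit 197) (.e (nat_lit 532499) (nat_lit 1) (.e (nat_lit 57847) (nat_lit 252) (.e (nat_lit 57354) (nat_lit 0) (.e (nat_lit 1799) (nat_lit 119) .nil))))) (.g (nat_lit 0) (.e (nat_lit 77205) (nat_lit 0) .nil) .nil)))))) (.nd (nat_lit 7) (.nd (nat_lit 8) (.nd (nat_lit 9) 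
(.lf (nat_lit 466007) (.g (nat_lit 2408) (.e (nat_lit 3248) (nat_lit 197) (.e (nat_lit 532503) (nat_lit 1) (.e (nat_lit 57931) (nat_lit 282) (.e (nat_lit 163874) (nat_lit 3) (.e (nat_lit 204863) (nat_lit 27) .nil))))) (.g (nat_lit 0) (.e (nat_lit 75738) (nat_lit 0) .nil) .nil))) 
(.lf (nat_lit 466519) (.g (nat_lit 4180) (.e (nat_lit 3251) (nat_lit 197) (.e (nat_lit 532504) (nat_lit 1) (.e (nat_lit 57852) (nat_lit 252) (.e (nat_lit 57406) (nat_lit 12) (.e (nat_lit 336454) (nat_lit 34) (.e (nat_lit 483385) (nat_lit 23) (.e (nat_lit 336260) (nat_lit 15) .nil))))))) (.g (nat_lit 1) (.e (nat_lit 76717) (nat_lit 0) .nil) .nil)))) (.nd (nat_lit 9) 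
(.lf (nat_lit 466263) (.g (nat_lit 2269) (.e (nat_lit 3249) (nat_lit 197) (.e (nat_lit 532523) (nat_lit 7) (.e (nat_lit 319532) (nat_lit 16) (.e (nat_lit 286735) (nat_lit 3) (.e (nat_lit 98371) (nat_lit 28) .nil))))) (.g (nat_lit 0) (.e (nat_lit 76140) (nat_lit 0) .nil) .nil))) 
(.lf (nat_lit 466775) (.g (nat_lit 5389) (.e (nat_lit 3252) (nat_lit 197) (.e (nat_lit 532550) (nat_lit 12) (.e (nat_lit 360475) (nat_lit 8) (.e (nat_lit 557085) (nat_lit 11) (.e (nat_lit 24665) (nat_lit 14) .nil))))) (.g (nat_lit 0) (.e (nat_lit 77107) (nat_lit 0) .nil) .nil))))) (.nd (nat_lit 8) (.nd (nat_lit 9) 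
(.lf (nat_lit 466135) (.g (nat_lit 4071) (.e (nat_lit 3249) (nat_lit 197) (.e (nat_lit 532503) (nat_lit 1) (.e (nat_lit 57848) (nat_lit 252) (.e (nat_lit 57407) (nat_lit 12) (.e (nat_lit 336454) (nat_lit 34) (.e (nat_lit 483385) (nat_lit 23) (.e (nat_lit 336284) (nat_lit 15) .nil))))))) (.g (nat_lit 1) (.e (nat_lit 75908) (nat_lit 0) .nil) .nil))) 
(.lf (nat_lit 466647) (.g (nat_lit 1770) (.e (nat_lit 3252) (nat_lit 197) (.e (nat_lit 532504) (nat_lit 1) (.e (nat_lit 57851) (nat_lit 252) (.e (nat_lit 57406) (nat_lit 12) (.e (nat_lit 336456) (nat_lit 34) .nil))))) (.g (nat_lit 0) (.e (nat_lit 76927) (nat_lit 0) .nil) .nil)))) (.nd (nat_lit 9) 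
(.lf (nat_lit 466391) (.g (nat_lit 1359) (.e (nat_lit 3249) (nat_lit 197) (.e (nat_lit 532561) (nat_lit 14) (.e (nat_lit 376862) (nat_lit 22) (.e (nat_lit 90185) (nat_lit 17) (.e (nat_lit 237585) (nat_lit 1) (.e (nat_lit 164403) (nat_lit 256) (.e (nat_lit 57579) (nat_lit 61) .nil))))))) (.g (nat_lit 1) (.e (nat_lit 76463) (nat_lit 0) .nil) .nil))) 
(.lf (nat_lit 466903) (.g (nat_lit 3324) (.e (nat_lit 3253) (nat_lit 197) (.e (nat_lit 532499) (nat_lit 1) (.e (nat_lit 57927) (nat_lit 282) (.e (nat_lit 163868) (nat_lit 2) (.e (nat_lit 196668) (nat_lit 14) (.e (nat_lit 73747) (nat_lit 3) (.e (nat_lit 516130) (nat_lit 3) (.e (nat_lit 221204) (nat_lit 20) .nil)))))))) (.g (nat_lit 1) (.e (nat_lit 77281) (nat_lit 0) .nil) .nil))))))) 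
(.nd (nat_lit 6) (.nd (nat_lit 7) (.nd (nat_lit 8) (.nd (nat_lit 9) 
(.lf (nat_lit 465975) (.g (nat_lit 1487) (.e (nat_lit 3248) (nat_lit 197) (.e (nat_lit 532503) (nat_lit 1) (.e (nat_lit 57848) (nat_lit 252) (.e (nat_lit 57407) (nat_lit 12) (.e (nat_lit 336456) (nat_lit 34) .nil))))) (.g (nat_lit 0) (.e (nat_lit 75702) (nat_lit 0) .nil) .nil))) 
(.lf (nat_lit 466487) (.g (nat_lit 4890) (.e (nat_lit 3250) (nat_lit 197) (.e (nat_lit 532550) (nat_lit 12) (.e (nat_lit 360475) (nat_lit 8) (.e (nat_lit 557086) (nat_lit 11) .nil)))) (.g (nat_lit 0) (.e (nat_lit 76672) (nat_lit 0) .nil) .nil)))) (.nd (nat_lit 9) 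
(.lf (nat_lit 466231) (.g (nat_lit 2442) (.e (nat_lit 3249) (nat_lit 197) (.e (nat_lit 532523) (nat_lit 7) (.e (nat_lit 319529) (nat_lit 16) (.e (nat_lit 286735) (nat_lit 3) (.e (nat_lit 98371) (nat_lit 28) .nil))))) (.g (nat_lit 0) (.e (nat_lit 76108) (nat_lit 0) .nil) .nil))) 
(.lf (nat_lit 466743) (.g (nat_lit 2758) (.e (nat_lit 3252) (nat_lit 197) (.e (nat_lit 532550) (nat_lit 12) (.e (nat_lit 360468) (nat_lit 3) (.e (nat_lit 516139) (nat_lit 7) (.e (nat_lit 409649) (nat_lit 18) .nil))))) (.g (nat_lit 0) (.e (nat_lit 77071) (nat_lit 0) .nil) .nil))))) (.nd (nat_lit 8) (.nd (nat_lit 9) 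
(.lf (nat_lit 466103) (.g (nat_lit 2178) (.e (nat_lit 3249) (nat_lit 197) (.e (nat_lit 532499) (nat_lit 1) (.e (nat_lit 57927) (nat_lit 282) (.e (nat_lit 163870) (nat_lit 2) (.e (nat_lit 196670) (nat_lit 14) .nil))))) (.g (nat_lit 0) (.e (nat_lit 75872) (nat_lit 0) .nil) .nil))) 
(.lf (nat_lit 466615) (.g (nat_lit 2360) (.e (nat_lit 3252) (nat_lit 197) (.e (nat_lit 532499) (nat_lit 1) (.e (nat_lit 57927) (nat_lit 282) (.e (nat_lit 163871) (nat_lit 2) (.e (nat_lit 196670) (nat_lit 14) (.e (nat_lit 73746) (nat_lit 3) (.e (nat_lit 516131) (nat_lit 3) (.e (nat_lit 221195) (nat_lit 20) .nil)))))))) (.g (nat_lit 1) (.e (nat_lit 76877) (nat_lit 0) .nil) .nil)))) (.nd (nat_lit 9) 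
(.lf (nat_lit 466359) (.g (nat_lit 1313) (.e (nat_lit 3249) (nat_lit 197) (.e (nat_lit 532550) (nat_lit 12) (.e (nat_lit 360475) (nat_lit 8) (.e (nat_lit 557087) (nat_lit 11) .nil)))) (.g (nat_lit 0) (.e (nat_lit 76392) (nat_lit 0) .nil) .nil))) 
(.lf (nat_lit 466871) (.g (nat_lit 2641) (.e (nat_lit 3253) (nat_lit 197) (.e (nat_lit 532499) (nat_lit 1) (.e (nat_lit 57926) (nat_lit 282) (.e (nat_lit 163874) (nat_lit 3) (.e (nat_lit 204851) (nat_lit 26) (.e (nat_lit 336019) (nat_lit 3) (.e (nat_lit 98342) (nat_lit 20) (.e (nat_lit 221204) (nat_lit 20) .nil)))))))) (.g (nat_lit 1) (.e (nat_lit 77242) (nat_lit 0) .nil) .nil)))))) 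
(.nd (nat_lit 7) (.nd (nat_lit 8) (.nd (nat_lit 9) 
(.lf (nat_lit 466039) (.g (nat_lit 2083) (.e (nat_lit 3248) (nat_lit 197) (.e (nat_lit 532513) (nat_lit 3) (.e (nat_lit 114714) (nat_lit 22) (.e (nat_lit 90172) (nat_lit 14) (.e (nat_lit 180244) (nat_lit 5) (.e (nat_lit 532499) (nat_lit 1) (.e (nat_lit 57686) (nat_lit 156) (.e (nat_lit 163844) (nat_lit 0) .nil)))))))) (.g (nat_lit 1) (.e (nat_lit 75773) (nat_lit 0) .nil) .nil))) 
(.lf (nat_lit 466551) (.g (nat_lit 2210) (.e (nat_lit 3251) (nat_lit 197) (.e (nat_lit 532530) (nat_lit 9) (.e (nat_lit 336326) (nat_lit 18) (.e (nat_lit 204880) (nat_lit 32) (.e (nat_lit 385066) (nat_lit 26) .nil))))) (.g (nat_lit 0) (.e (nat_lit 76785) (nat_lit 0) .nil) .nil)))) (.nd (nat_lit 9) 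
(.lf (nat_lit 466295) (.g (nat_lit 1970) (.e (nat_lit 3249) (nat_lit 197) (.e (nat_lit 532542) (nat_lit 9) (.e (nat_lit 336194) (nat_lit 12) (.e (nat_lit 385066) (nat_lit 26) (.e (nat_lit 532515) (nat_lit 3) (.e (nat_lit 114696) (nat_lit 11) (.e (nat_lit 425997) (nat_lit 0) .nil))))))) (.g (nat_lit 1) (.e (nat_lit 76216) (nat_lit 0) .nil) .nil))) 
(.lf (nat_lit 466807) (.g (nat_lit 2788) (.e (nat_lit 3252) (nat_lit 197) (.e (nat_lit 532560) (nat_lit 14) (.e (nat_lit 376867) (nat_lit 23) (.e (nat_lit 98350) (nat_lit 24) (.e (nat_lit 409645) (nat_lit 18) (.e (nat_lit 303112) (nat_lit 0) .nil)))))) (.g (nat_lit 1) (.e (nat_lit 77141) (nat_lit 0) .nil) .nil))))) (.nd (nat_lit 8) (.nd (nat_lit 9) 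
(.lf (nat_lit 466167) (.g (nat_lit 1613) (.e (nat_lit 3249) (nat_lit 197) (.e (nat_lit 532504) (nat_lit 1) (.e (nat_lit 57851) (nat_lit 252) (.e (nat_lit 57406) (nat_lit 12) (.e (nat_lit 336456) (nat_lit 34) (.e (nat_lit 483379) (nat_lit 23) (.e (nat_lit 336284) (nat_lit 15) .nil))))))) (.g (nat_lit 1) (.e (nat_lit 75947) (nat_lit 0) .nil) .nil))) 
(.lf (nat_lit 466679) (.g (nat_lit 5447) (.e (nat_lit 3252) (nat_lit 197) (.e (nat_lit 532535) (nat_lit 9) (.e (nat_lit 336099) (nat_lit 9) (.e (nat_lit 336013) (nat_lit 2) (.e (nat_lit 90137) (nat_lit 9) .nil))))) (.g (nat_lit 0) (.e (nat_lit 76990) (nat_lit 0) .nil) .nil)))) (.nd (nat_lit 9) 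
(.lf (nat_lit 466423) (.g (nat_lit 2607) (.e (nat_lit 3249) (nat_lit 197) (.e (nat_lit 532569) (nat_lit 16) (.e (nat_lit 401448) (nat_lit 10) (.e (nat_lit 434232) (nat_lit 23) (.e (nat_lit 532484) (nat_lit 0) (.e (nat_lit 6684) (nat_lit 357) (.e (nat_lit 2936) (nat_lit 184) (.e (nat_lit 425984) (nat_lit 0) .nil)))))))) (.g (nat_lit 1) (.e (nat_lit 76536) (nat_lit 0) .nil) .nil))) 
(.lf (nat_lit 466935) (.g (nat_lit 2840) (.e (nat_lit 3253) (nat_lit 197) (.e (nat_lit 532499) (nat_lit 1) (.e (nat_lit 57927) (nat_lit 282) (.e (nat_lit 163873) (nat_lit 3) (.e (nat_lit 204851) (nat_lit 26) (.e (nat_lit 336019) (nat_lit 3) (.e (nat_lit 98341) (nat_lit 20) (.e (nat_lit 221204) (nat_lit 20) .nil)))))))) (.g (nat_lit 1) (.e (nat_lit 77331) (nat_lit 0) .nil) .nil))))))))) 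
(.nd (nat_lit 4) (.nd (nat_lit 5) (.nd (nat_lit 6) (.nd (nat_lit 7) (.nd (nat_lit 8) 
(.nd (nat_lit 9) 
(.lf (nat_lit 465935) (.g (nat_lit 4172) (.e (nat_lit 3242) (nat_lit 197) (.e (nat_lit 532550) (nat_lit 12) (.e (nat_lit 360474) (nat_lit 8) (.e (nat_lit 557094) (nat_lit 12) (.e (nat_lit 164022) (nat_lit 46) (.e (nat_lit 704735) (nat_lit 11) (.e (nat_lit 16390) (nat_lit 0) .nil))))))) (.g (nat_lit 1) (.e (nat_lit 75658) (nat_lit 0) .nil) .nil))) 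
(.lf (nat_lit 466447) (.g (nat_lit 2365) (.e (nat_lit 3250) (nat_lit 197) (.e (nat_lit 532499) (nat_lit 1) (.e (nat_lit 57926) (nat_lit 282) (.e (nat_lit 163869) (nat_lit 2) (.e (nat_lit 196670) (nat_lit 14) (.e (nat_lit 73746) (nat_lit 3) (.e (nat_lit 516129) (nat_lit 3) (.e (nat_lit 221196) (nat_lit 20) .nil)))))))) (.g (nat_lit 1) (.e (nat_lit 76621) (nat_lit 0) .nil) .nil)))) (.nd (nat_lit 9) 
(.lf (nat_lit 466191) (.g (nat_lit 2051) (.e (nat_lit 3249) (nat_lit 197) (.e (nat_lit 532506) (nat_lit 2) (.e (nat_lit 106536) (nat_lit 11) (.e (nat_lit 16416) (nat_lit 3) (.e (nat_lit 204876) (nat_lit 31) (.e (nat_lit 376833) (nat_lit 0) .nil)))))) (.g (nat_lit 1) (.e (nat_lit 75974) (nat_lit 0) .nil) .nil))) 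
(.lf (nat_lit 466703) (.g (nat_lit 4718) (.e (nat_lit 3252) (nat_lit 197) (.e (nat_lit 532547) (nat_lit 11) (.e (nat_lit 352315) (nat_lit 23) (.e (nat_lit 98349) (nat_lit 24) (.e (nat_lit 409645) (nat_lit 18) (.e (nat_lit 303112) (nat_lit 0) .nil)))))) (.g (nat_lit 1) (.e (nat_lit 77018) (nat_lit 0) .nil) .nil))))) (.nd (nat_lit 8) (.nd (nat_lit 9) 
(.lf (nat_lit 466063) (.g (nat_lit 2927) (.e (nat_lit 3248) (nat_lit 197) (.e (nat_lit 532515) (nat_lit 3) (.e (nat_lit 114719) (nat_lit 23) (.e (nat_lit 98365) (nat_lit 26) (.e (nat_lit 426139) (nat_lit 3) (.e (nat_lit 204829) (nat_lit 18) (.e (nat_lit 57688) (nat_lit 156) (.e (nat_lit 163843) (nat_lit 0) .nil)))))))) (.g (nat_lit 1) (.e (nat_lit 75805) (nat_lit 0) .nil) .nil))) 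
(.lf (nat_lit 466575) (.g (nat_lit 743) (.e (nat_lit 3251) (nat_lit 197) (.e (nat_lit 532560) (nat_lit 14) (.e (nat_lit 376868) (nat_lit 23) .nil))) (.g (nat_lit 0) (.e (nat_lit 76811) (nat_lit 0) .nil) .nil)))) (.nd (nat_lit 9) 
(.lf (nat_lit 466319) (.g (nat_lit 829) (.e (nat_lit 3249) (nat_lit 197) (.e (nat_lit 532550) (nat_lit 12) (.e (nat_lit 360472) (nat_lit 8) .nil))) (.g (nat_lit 0) (.e (nat_lit 76351) (nat_lit 0) .nil) .nil))) 
(.lf (nat_lit 466831) (.g (nat_lit 3957) (.e (nat_lit 3252) (nat_lit 197) (.e (nat_lit 532569) (nat_lit 16) (.e (nat_lit 401451) (nat_lit 12) (.e (nat_lit 475185) (nat_lit 29) (.e (nat_lit 557107) (nat_lit 15) .nil))))) (.g (nat_lit 0) (.e (nat_lit 77174) (nat_lit 0) .nil) .nil)))))) (.nd (nat_lit 7) (.nd (nat_lit 8) (.nd (nat_lit 9) 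
(.lf (nat_lit 465999) (.g (nat_lit 4392) (.e (nat_lit 3248) (nat_lit 197) (.e (nat_lit 532503) (nat_lit 1) (.e (nat_lit 57931) (nat_lit 282) (.e (nat_lit 163869) (nat_lit 2) (.e (nat_lit 196668) (nat_lit 14) (.e (nat_lit 73747) (nat_lit 3) (.e (nat_lit 516131) (nat_lit 3) (.e (nat_lit 221198) (nat_lit 20) .nil)))))))) (.g (nat_lit 1) (.e (nat_lit 75730) (nat_lit 0) .nil) .nil))) 
(.lf (nat_lit 466511) (.g (nat_lit 2355) (.e (nat_lit 3251) (nat_lit 197) (.e (nat_lit 532504) (nat_lit 1) (.e (nat_lit 57851) (nat_lit 252) (.e (nat_lit 57406) (nat_lit 12) (.e (nat_lit 336367) (nat_lit 27) (.e (nat_lit 426542) (nat_lit 29) (.e (nat_lit 352266) (nat_lit 0) .nil))))))) (.g (nat_lit 1) (.e (nat_lit 76709) (nat_lit 0) .nil) .nil)))) (.nd (nat_lit 9) 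
(.lf (nat_lit 466255) (.g (nat_lit 2968) (.e (nat_lit 3249) (nat_lit 197) (.e (nat_lit 532523) (nat_lit 7) (.e (nat_lit 319531) (nat_lit 16) (.e (nat_lit 286735) (nat_lit 3) (.e (nat_lit 98363) (nat_lit 26) (.e (nat_lit 426230) (nat_lit 9) (.e (nat_lit 426074) (nat_lit 0) .nil))))))) (.g (nat_lit 1) (.e (nat_lit 76132) (nat_lit 0) .nil) .nil))) 
(.lf (nat_lit 466767) (.g (nat_lit 3408) (.e (nat_lit 3252) (nat_lit 197) (.e (nat_lit 532550) (nat_lit 12) (.e (nat_lit 360474) (nat_lit 8) (.e (nat_lit 557094) (nat_lit 12) (.e (nat_lit 164022) (nat_lit 46) (.e (nat_lit 704736) (nat_lit 11) (.e (nat_lit 16400) (nat_lit 0) .nil))))))) (.g (nat_lit 1) (.e (nat_lit 77098) (nat_lit 0) .nil) .nil))))) (.nd (nat_lit 8) (.nd (nat_lit 9) 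
(.lf (nat_lit 466127) (.g (nat_lit 2539) (.e (nat_lit 3249) (nat_lit 197) (.e (nat_lit 532501) (nat_lit 1) (.e (nat_lit 57851) (nat_lit 252) (.e (nat_lit 57406) (nat_lit 12) (.e (nat_lit 336456) (nat_lit 34) (.e (nat_lit 483387) (nat_lit 23) (.e (nat_lit 336280) (nat_lit 15) .nil))))))) (.g (nat_lit 1) (.e (nat_lit 75900) (nat_lit 0) .nil) .nil))) 
(.lf (nat_lit 466639) (.g (nat_lit 2290) (.e (nat_lit 3252) (nat_lit 197) (.e (nat_lit 532501) (nat_lit 1) (.e (nat_lit 57926) (nat_lit 282) (.e (nat_lit 163869) (nat_lit 2) (.e (nat_lit 196670) (nat_lit 14) .nil))))) (.g (nat_lit 0) (.e (nat_lit 76914) (nat_lit 0) .nil) .nil)))) (.nd (nat_lit 9) 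
(.lf (nat_lit 466383) (.g (nat_lit 2231) (.e (nat_lit 3249) (nat_lit 197) (.e (nat_lit 532559) (nat_lit 14) (.e (nat_lit 376865) (nat_lit 22) (.e (nat_lit 90185) (nat_lit 17) (.e (nat_lit 237582) (nat_lit 1) (.e (nat_lit 164403) (nat_lit 256) (.e (nat_lit 57579) (nat_lit 61) .nil))))))) (.g (nat_lit 1) (.e (nat_lit 76444) (nat_lit 0) .nil) .nil))) 
(.lf (nat_lit 466895) (.g (nat_lit 4371) (.e (nat_lit 3253) (nat_lit 197) (.e (nat_lit 532499) (nat_lit 1) (.e (nat_lit 57927) (nat_lit 282) (.e (nat_lit 163868) (nat_lit 2) (.e (nat_lit 196663) (nat_lit 13) (.e (nat_lit 65571) (nat_lit 3) (.e (nat_lit 98342) (nat_lit 20) (.e (nat_lit 221204) (nat_lit 20) .nil)))))))) (.g (nat_lit 1) (.e (nat_lit 77273) (nat_lit 0) .nil) .nil))))))) 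
(.nd (nat_lit 6) (.nd (nat_lit 7) (.nd (nat_lit 8) (.nd (nat_lit 9) 
(.lf (nat_lit 465967) (.g (nat_lit 1258) (.e (nat_lit 3248) (nat_lit 197) (.e (nat_lit 532501) (nat_lit 1) (.e (nat_lit 57851) (nat_lit 252) (.e (nat_lit 57446) (nat_lit 19) .nil)))) (.g (nat_lit 0) (.e (nat_lit 75691) (nat_lit 0) .nil) .nil))) 
(.lf (nat_lit 466479) (.g (nat_lit 4403) (.e (nat_lit 3250) (nat_lit 197) (.e (nat_lit 532550) (nat_lit 12) (.e (nat_lit 360474) (nat_lit 8) (.e (nat_lit 557085) (nat_lit 11) .nil)))) (.g (nat_lit 0) (.e (nat_lit 76663) (nat_lit 0) .nil) .nil)))) (.nd (nat_lit 9) 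
(.lf (nat_lit 466223) (.g (nat_lit 3133) (.e (nat_lit 3249) (nat_lit 197) (.e (nat_lit 532523) (nat_lit 7) (.e (nat_lit 319538) (nat_lit 19) (.e (nat_lit 311315) (nat_lit 3) (.e (nat_lit 204846) (nat_lit 24) (.e (nat_lit 319504) (nat_lit 10) (.e (nat_lit 5712) (nat_lit 312) (.e (nat_lit 2505) (nat_lit 157) .nil)))))))) (.g (nat_lit 1) (.e (nat_lit 76100) (nat_lit 0) .nil) .nil))) 
(.lf (nat_lit 466735) (.g (nat_lit 5358) (.e (nat_lit 3252) (nat_lit 197) (.e (nat_lit 532550) (nat_lit 12) (.e (nat_lit 360467) (nat_lit 3) (.e (nat_lit 516139) (nat_lit 7) (.e (nat_lit 409648) (nat_lit 18) (.e (nat_lit 303112) (nat_lit 0) .nil)))))) (.g (nat_lit 1) (.e (nat_lit 77061) (nat_lit 0) .nil) .nil))))) (.nd (nat_lit 8) (.nd (nat_lit 9) 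
(.lf (nat_lit 466095) (.g (nat_lit 2175) (.e (nat_lit 3249) (nat_lit 197) (.e (nat_lit 532499) (nat_lit 1) (.e (nat_lit 57927) (nat_lit 282) (.e (nat_lit 163868) (nat_lit 2) (.e (nat_lit 196668) (nat_lit 14) (.e (nat_lit 73747) (nat_lit 3) (.e (nat_lit 516129) (nat_lit 3) (.e (nat_lit 229120) (nat_lit 20) .nil)))))))) (.g (nat_lit 1) (.e (nat_lit 75862) (nat_lit 0) .nil) .nil))) 
(.lf (nat_lit 466607) (.g (nat_lit 2732) (.e (nat_lit 3252) (nat_lit 197) (.e (nat_lit 532499) (nat_lit 1) (.e (nat_lit 57927) (nat_lit 282) (.e (nat_lit 163868) (nat_lit 2) (.e (nat_lit 196670) (nat_lit 14) (.e (nat_lit 73746) (nat_lit 3) (.e (nat_lit 516131) (nat_lit 3) (.e (nat_lit 221195) (nat_lit 20) .nil)))))))) (.g (nat_lit 1) (.e (nat_lit 76857) (nat_lit 0) .nil) .nil)))) (.nd (nat_lit 9) 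
(.lf (nat_lit 466351) (.g (nat_lit 2759) (.e (nat_lit 3249) (nat_lit 197) (.e (nat_lit 532550) (nat_lit 12) (.e (nat_lit 360475) (nat_lit 8) (.e (nat_lit 557068) (nat_lit 9) (.e (nat_lit 290) (nat_lit 21) .nil))))) (.g (nat_lit 0) (.e (nat_lit 76384) (nat_lit 0) .nil) .nil))) 
(.lf (nat_lit 466863) (.g (nat_lit 3024) (.e (nat_lit 3253) (nat_lit 197) (.e (nat_lit 532499) (nat_lit 1) (.e (nat_lit 57926) (nat_lit 282) (.e (nat_lit 163869) (nat_lit 2) (.e (nat_lit 196668) (nat_lit 14) (.e (nat_lit 73747) (nat_lit 3) (.e (nat_lit 516131) (nat_lit 3) (.e (nat_lit 221204) (nat_lit 20) .nil)))))))) (.g (nat_lit 1) (.e (nat_lit 77230) (nat_lit 0) .nil) .nil)))))) 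
(.nd (nat_lit 7) (.nd (nat_lit 8) (.nd (nat_lit 9) 
(.lf (nat_lit 466031) (.g (nat_lit 3339) (.e (nat_lit 3248) (nat_lit 197) (.e (nat_lit 532504) (nat_lit 1) (.e (nat_lit 57931) (nat_lit 282) (.e (nat_lit 163869) (nat_lit 2) (.e (nat_lit 196670) (nat_lit 14) (.e (nat_lit 73746) (nat_lit 3) (.e (nat_lit 516129) (nat_lit 3) (.e (nat_lit 221197) (nat_lit 20) .nil)))))))) (.g (nat_lit 1) (.e (nat_lit 75765) (nat_lit 0) .nil) .nil))) 
(.lf (nat_lit 466543) (.g (nat_lit 1381) (.e (nat_lit 3251) (nat_lit 197) (.e (nat_lit 532511) (nat_lit 2) (.e (nat_lit 106534) (nat_lit 11) (.e (nat_lit 16416) (nat_lit 3) (.e (nat_lit 204877) (nat_lit 31) .nil))))) (.g (nat_lit 0) (.e (nat_lit 76743) (nat_lit 0) .nil) .nil)))) (.nd (nat_lit 9) 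
(.lf (nat_lit 466287) (.g (nat_lit 1117) (.e (nat_lit 3249) (nat_lit 197) (.e (nat_lit 532535) (nat_lit 9) (.e (nat_lit 336099) (nat_lit 9) .nil))) (.g (nat_lit 0) (.e (nat_lit 76195) (nat_lit 0) .nil) .nil))) 
(.lf (nat_lit 466799) (.g (nat_lit 1109) (.e (nat_lit 3252) (nat_lit 197) (.e (nat_lit 532558) (nat_lit 14) (.e (nat_lit 376869) (nat_lit 23) (.e (nat_lit 98350) (nat_lit 24) .nil)))) (.g (nat_lit 0) (.e (nat_lit 77131) (nat_lit 0) .nil) .nil))))) (.nd (nat_lit 8) (.nd (nat_lit 9) 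
(.lf (nat_lit 466159) (.g (nat_lit 3269) (.e (nat_lit 3249) (nat_lit 197) (.e (nat_lit 532503) (nat_lit 1) (.e (nat_lit 57931) (nat_lit 282) (.e (nat_lit 163874) (nat_lit 3) (.e (nat_lit 204862) (nat_lit 27) (.e (nat_lit 344117) (nat_lit 21) (.e (nat_lit 516130) (nat_lit 3) (.e (nat_lit 221202) (nat_lit 20) .nil)))))))) (.g (nat_lit 1) (.e (nat_lit 75939) (nat_lit 0) .nil) .nil))) 
(.lf (nat_lit 466671) (.g (nat_lit 1183) (.e (nat_lit 3252) (nat_lit 197) (.e (nat_lit 532529) (nat_lit 9) (.e (nat_lit 336160) (nat_lit 10) (.e (nat_lit 344119) (nat_lit 21) (.e (nat_lit 516139) (nat_lit 7) .nil))))) (.g (nat_lit 0) (.e (nat_lit 76978) (nat_lit 0) .nil) .nil)))) (.nd (nat_lit 9) 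
(.lf (nat_lit 466415) (.g (nat_lit 2856) (.e (nat_lit 3249) (nat_lit 197) (.e (nat_lit 532569) (nat_lit 16) (.e (nat_lit 401440) (nat_lit 9) (.e (nat_lit 426136) (nat_lit 3) (.e (nat_lit 204846) (nat_lit 24) (.e (nat_lit 319504) (nat_lit 10) (.e (nat_lit 5712) (nat_lit 312) (.e (nat_lit 2505) (nat_lit 157) .nil)))))))) (.g (nat_lit 1) (.e (nat_lit 76495) (nat_lit 0) .nil) .nil))) 
(.lf (nat_lit 466927) (.g (nat_lit 3995) (.e (nat_lit 3253) (nat_lit 197) (.e (nat_lit 532499) (nat_lit 1) (.e (nat_lit 57927) (nat_lit 282) (.e (nat_lit 163869) (nat_lit 2) (.e (nat_lit 196670) (nat_lit 14) (.e (nat_lit 73746) (nat_lit 3) (.e (nat_lit 516131) (nat_lit 3) (.e (nat_lit 221204) (nat_lit 20) .nil)))))))) (.g (nat_lit 1) (.e (nat_lit 77309) (nat_lit 0) .nil) .nil)))))))) 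
(.nd (nat_lit 5) (.nd (nat_lit 6) (.nd (nat_lit 7) (.nd (nat_lit 8) (.nd (nat_lit 9) 
(.lf (nat_lit 465951) (.g (nat_lit 4263) (.e (nat_lit 3242) (nat_lit 197) (.e (nat_lit 532550) (nat_lit 12) (.e (nat_lit 360475) (nat_lit 8) (.e (nat_lit 557091) (nat_lit 12) (.e (nat_lit 164022) (nat_lit 46) .nil))))) (.g (nat_lit 0) (.e (nat_lit 75675) (nat_lit 0) .nil) .nil))) 
(.lf (nat_lit 466463) (.g (nat_lit 2150) (.e (nat_lit 3250) (nat_lit 197) (.e (nat_lit 532501) (nat_lit 1) (.e (nat_lit 57851) (nat_lit 252) (.e (nat_lit 57406) (nat_lit 12) .nil)))) (.g (nat_lit 0) (.e (nat_lit 76638) (nat_lit 0) .nil) .nil)))) (.nd (nat_lit 9) 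
(.lf (nat_lit 466207) (.g (nat_lit 1251) (.e (nat_lit 3249) (nat_lit 197) (.e (nat_lit 532511) (nat_lit 2) (.e (nat_lit 106534) (nat_lit 11) (.e (nat_lit 16413) (nat_lit 2) (.e (nat_lit 196672) (nat_lit 15) (.e (nat_lit 89856) (nat_lit 0) .nil)))))) (.g (nat_lit 1) (.e (nat_lit 75992) (nat_lit 0) .nil) .nil))) 
(.lf (nat_lit 466719) (.g (nat_lit 2335) (.e (nat_lit 3252) (nat_lit 197) (.e (nat_lit 532550) (nat_lit 12) (.e (nat_lit 360466) (nat_lit 3) (.e (nat_lit 516138) (nat_lit 7) .nil)))) (.g (nat_lit 0) (.e (nat_lit 77042) (nat_lit 0) .nil) .nil))))) (.nd (nat_lit 8) (.nd (nat_lit 9) 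
(.lf (nat_lit 466079) (.g (nat_lit 2473) (.e (nat_lit 3249) (nat_lit 197) (.e (nat_lit 532486) (nat_lit 0) (.e (nat_lit 6113) (nat_lit 332) (.e (nat_lit 1374) (nat_lit 104) (.e (nat_lit 303119) (nat_lit 3) .nil))))) (.g (nat_lit 0) (.e (nat_lit 75842) (nat_lit 0) .nil) .nil))) 
(.lf (nat_lit 466591) (.g (nat_lit 1306) (.e (nat_lit 3252) (nat_lit 197) (.e (nat_lit 532499) (nat_lit 1) (.e (nat_lit 57849) (nat_lit 252) (.e (nat_lit 57448) (nat_lit 19) .nil)))) (.g (nat_lit 0) (.e (nat_lit 76829) (nat_lit 0) .nil) .nil)))) (.nd (nat_lit 9) 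
(.lf (nat_lit 466335) (.g (nat_lit 3024) (.e (nat_lit 3249) (nat_lit 197) (.e (nat_lit 532550) (nat_lit 12) (.e (nat_lit 360474) (nat_lit 8) (.e (nat_lit 557093) (nat_lit 12) (.e (nat_lit 164023) (nat_lit 46) (.e (nat_lit 704735) (nat_lit 11) (.e (nat_lit 16401) (nat_lit 0) .nil))))))) (.g (nat_lit 1) (.e (nat_lit 76368) (nat_lit 0) .nil) .nil))) 
(.lf (nat_lit 466847) (.g (nat_lit 3288) (.e (nat_lit 3253) (nat_lit 197) (.e (nat_lit 532499) (nat_lit 1) (.e (nat_lit 57926) (nat_lit 282) (.e (nat_lit 163868) (nat_lit 2) (.e (nat_lit 196663) (nat_lit 13) (.e (nat_lit 65571) (nat_lit 3) (.e (nat_lit 98341) (nat_lit 20) (.e (nat_lit 221204) (nat_lit 20) .nil)))))))) (.g (nat_lit 1) (.e (nat_lit 77214) (nat_lit 0) .nil) .nil)))))) 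
(.nd (nat_lit 7) (.nd (nat_lit 8) (.nd (nat_lit 9) 
(.lf (nat_lit 466015) (.g (nat_lit 1968) (.e (nat_lit 3248) (nat_lit 197) (.e (nat_lit 532504) (nat_lit 1) (.e (nat_lit 57851) (nat_lit 252) (.e (nat_lit 57406) (nat_lit 12) (.e (nat_lit 336456) (nat_lit 34) (.e (nat_lit 483379) (nat_lit 23) (.e (nat_lit 336257) (nat_lit 15) .nil))))))) (.g (nat_lit 1) (.e (nat_lit 75748) (nat_lit 0) .nil) .nil))) 
(.lf (nat_lit 466527) (.g (nat_lit 1672) (.e (nat_lit 3251) (nat_lit 197) (.e (nat_lit 532508) (nat_lit 2) (.e (nat_lit 106536) (nat_lit 11) (.e (nat_lit 16416) (nat_lit 3) (.e (nat_lit 204877) (nat_lit 31) (.e (nat_lit 376835) (nat_lit 0) .nil)))))) (.g (nat_lit 1) (.e (nat_lit 76727) (nat_lit 0) .nil) .nil)))) (.nd (nat_lit 9) 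
(.lf (nat_lit 466271) (.g (nat_lit 2925) (.e (nat_lit 3249) (nat_lit 197) (.e (nat_lit 532523) (nat_lit 7) (.e (nat_lit 319534) (nat_lit 16) (.e (nat_lit 286734) (nat_lit 3) (.e (nat_lit 98371) (nat_lit 28) (.e (nat_lit 450304) (nat_lit 20) .nil)))))) (.g (nat_lit 1) (.e (nat_lit 76148) (nat_lit 0) .nil) .nil))) 
(.lf (nat_lit 466783) (.g (nat_lit 4743) (.e (nat_lit 3252) (nat_lit 197) (.e (nat_lit 532550) (nat_lit 12) (.e (nat_lit 360475) (nat_lit 8) (.e (nat_lit 557091) (nat_lit 12) (.e (nat_lit 164022) (nat_lit 46) (.e (nat_lit 704735) (nat_lit 11) (.e (nat_lit 16396) (nat_lit 0) .nil))))))) (.g (nat_lit 1) (.e (nat_lit 77115) (nat_lit 0) .nil) .nil))))) (.nd (nat_lit 8) (.nd (nat_lit 9) 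
(.lf (nat_lit 466143) (.g (nat_lit 2056) (.e (nat_lit 3249) (nat_lit 197) (.e (nat_lit 532503) (nat_lit 1) (.e (nat_lit 57929) (nat_lit 282) (.e (nat_lit 163869) (nat_lit 2) (.e (nat_lit 196670) (nat_lit 14) (.e (nat_lit 73746) (nat_lit 3) (.e (nat_lit 516129) (nat_lit 3) (.e (nat_lit 221202) (nat_lit 20) .nil)))))))) (.g (nat_lit 1) (.e (nat_lit 75916) (nat_lit 0) .nil) .nil))) 
(.lf (nat_lit 466655) (.g (nat_lit 2439) (.e (nat_lit 3252) (nat_lit 197) (.e (nat_lit 532504) (nat_lit 1) (.e (nat_lit 57851) (nat_lit 252) (.e (nat_lit 57406) (nat_lit 12) (.e (nat_lit 336456) (nat_lit 34) (.e (nat_lit 483383) (nat_lit 23) (.e (nat_lit 336303) (nat_lit 15) .nil))))))) (.g (nat_lit 1) (.e (nat_lit 76935) (nat_lit 0) .nil) .nil)))) (.nd (nat_lit 9) 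
(.lf (nat_lit 466399) (.g (nat_lit 2187) (.e (nat_lit 3249) (nat_lit 197) (.e (nat_lit 532563) (nat_lit 15) (.e (nat_lit 385066) (nat_lit 26) (.e (nat_lit 532563) (nat_lit 15) (.e (nat_lit 385066) (nat_lit 26) (.e (nat_lit 532532) (nat_lit 9) (.e (nat_lit 336284) (nat_lit 15) .nil))))))) (.g (nat_lit 1) (.e (nat_lit 76471) (nat_lit 0) .nil) .nil))) 
(.lf (nat_lit 466911) (.g (nat_lit 2993) (.e (nat_lit 3253) (nat_lit 197) (.e (nat_lit 532499) (nat_lit 1) (.e (nat_lit 57927) (nat_lit 282) (.e (nat_lit 163869) (nat_lit 2) (.e (nat_lit 196664) (nat_lit 13) (.e (nat_lit 65571) (nat_lit 3) (.e (nat_lit 98342) (nat_lit 20) (.e (nat_lit 221204) (nat_lit 20) .nil)))))))) (.g (nat_lit 1) (.e (nat_lit 77289) (nat_lit 0) .nil) .nil))))))) 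
(.nd (nat_lit 6) (.nd (nat_lit 7) (.nd (nat_lit 8) (.nd (nat_lit 9) 
(.lf (nat_lit 465983) (.g (nat_lit 2420) (.e (nat_lit 3248) (nat_lit 197) (.e (nat_lit 532503) (nat_lit 1) (.e (nat_lit 57930) (nat_lit 282) (.e (nat_lit 163867) (nat_lit 2) (.e (nat_lit 196668) (nat_lit 14) (.e (nat_lit 73747) (nat_lit 3) (.e (nat_lit 516129) (nat_lit 3) (.e (nat_lit 221196) (nat_lit 20) .nil)))))))) (.g (nat_lit 1) (.e (nat_lit 75712) (nat_lit 0) .nil) .nil))) 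
(.lf (nat_lit 466495) (.g (nat_lit 3429) (.e (nat_lit 3251) (nat_lit 197) (.e (nat_lit 532501) (nat_lit 1) (.e (nat_lit 57851) (nat_lit 252) (.e (nat_lit 57406) (nat_lit 12) (.e (nat_lit 336367) (nat_lit 27) (.e (nat_lit 426542) (nat_lit 29) (.e (nat_lit 352267) (nat_lit 0) .nil))))))) (.g (nat_lit 1) (.e (nat_lit 76681) (nat_lit 0) .nil) .nil)))) (.nd (nat_lit 9) 
(.lf (nat_lit 466239) (.g (nat_lit 2945) (.e (nat_lit 3249) (nat_lit 197) (.e (nat_lit 532523) (nat_lit 7) (.e (nat_lit 319530) (nat_lit 16) (.e (nat_lit 286735) (nat_lit 3) (.e (nat_lit 98363) (nat_lit 26) (.e (nat_lit 426230) (nat_lit 9) (.e (nat_lit 426070) (nat_lit 0) .nil))))))) (.g (nat_lit 1) (.e (nat_lit 76116) (nat_lit 0) .nil) .nil))) 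
(.lf (nat_lit 466751) (.g (nat_lit 3405) (.e (nat_lit 3252) (nat_lit 197) (.e (nat_lit 532550) (nat_lit 12) (.e (nat_lit 360474) (nat_lit 8) (.e (nat_lit 557093) (nat_lit 12) (.e (nat_lit 164022) (nat_lit 46) (.e (nat_lit 704736) (nat_lit 11) (.e (nat_lit 16399) (nat_lit 0) .nil))))))) (.g (nat_lit 1) (.e (nat_lit 77082) (nat_lit 0) .nil) .nil))))) (.nd (nat_lit 8) (.nd (nat_lit 9) 
(.lf (nat_lit 466111) (.g (nat_lit 2741) (.e (nat_lit 3249) (nat_lit 197) (.e (nat_lit 532499) (nat_lit 1) (.e (nat_lit 57931) (nat_lit 282) (.e (nat_lit 163867) (nat_lit 2) (.e (nat_lit 196670) (nat_lit 14) (.e (nat_lit 73746) (nat_lit 3) (.e (nat_lit 516129) (nat_lit 3) (.e (nat_lit 221202) (nat_lit 20) .nil)))))))) (.g (nat_lit 1) (.e (nat_lit 75884) (nat_lit 0) .nil) .nil))) 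
(.lf (nat_lit 466623) (.g (nat_lit 2330) (.e (nat_lit 3252) (nat_lit 197) (.e (nat_lit 532499) (nat_lit 1) (.e (nat_lit 57931) (nat_lit 282) (.e (nat_lit 163867) (nat_lit 2) (.e (nat_lit 196670) (nat_lit 14) (.e (nat_lit 73746) (nat_lit 3) (.e (nat_lit 516129) (nat_lit 3) (.e (nat_lit 221200) (nat_lit 20) .nil)))))))) (.g (nat_lit 1) (.e (nat_lit 76893) (nat_lit 0) .nil) .nil)))) (.nd (nat_lit 9) 
(.lf (nat_lit 466367) (.g (nat_lit 1846) (.e (nat_lit 3249) (nat_lit 197) (.e (nat_lit 532550) (nat_lit 12) (.e (nat_lit 360475) (nat_lit 8) (.e (nat_lit 557087) (nat_lit 11) (.e (nat_lit 24665) (nat_lit 14) (.e (nat_lit 409344) (nat_lit 0) .nil)))))) (.g (nat_lit 1) (.e (nat_lit 76400) (nat_lit 0) .nil) .nil))) 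
(.lf (nat_lit 466879) (.g (nat_lit 2134) (.e (nat_lit 3253) (nat_lit 197) (.e (nat_lit 532499) (nat_lit 1) (.e (nat_lit 57927) (nat_lit 282) (.e (nat_lit 163866) (nat_lit 2) (.e (nat_lit 196663) (nat_lit 13) (.e (nat_lit 65571) (nat_lit 3) (.e (nat_lit 98341) (nat_lit 20) (.e (nat_lit 221204) (nat_lit 20) .nil)))))))) (.g (nat_lit 1) (.e (nat_lit 77254) (nat_lit 0) .nil) .nil)))))) 
(.nd (nat_lit 7) (.nd (nat_lit 8) (.nd (nat_lit 9) 
(.lf (nat_lit 466047) (.g (nat_lit 1196) (.e (nat_lit 3248) (nat_lit 197) (.e (nat_lit 532515) (nat_lit 3) (.e (nat_lit 114716) (nat_lit 22) (.e (nat_lit 90169) (nat_lit 13) .nil)))) (.g (nat_lit 0) (.e (nat_lit 75783) (nat_lit 0) .nil) .nil))) 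
(.lf (nat_lit 466559) (.g (nat_lit 1025) (.e (nat_lit 3251) (nat_lit 197) (.e (nat_lit 532550) (nat_lit 12) (.e (nat_lit 360474) (nat_lit 8) .nil))) (.g (nat_lit 0) (.e (nat_lit 76794) (nat_lit 0) .nil) .nil)))) (.nd (nat_lit 9) 
(.lf (nat_lit 466303) (.g (nat_lit 1447) (.e (nat_lit 3249) (nat_lit 197) (.e (nat_lit 532549) (nat_lit 12) (.e (nat_lit 360473) (nat_lit 8) (.e (nat_lit 557093) (nat_lit 12) .nil)))) (.g (nat_lit 0) (.e (nat_lit 76304) (nat_lit 0) .nil) .nil))) 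
(.lf (nat_lit 466815) (.g (nat_lit 392) (.e (nat_lit 3252) (nat_lit 197) (.e (nat_lit 532560) (nat_lit 14) (.e (nat_lit 376869) (nat_lit 23) .nil))) (.g (nat_lit 0) (.e (nat_lit 77149) (nat_lit 0) .nil) .nil))))) (.nd (nat_lit 8) (.nd (nat_lit 9) 
(.lf (nat_lit 466175) (.g (nat_lit 2054) (.e (nat_lit 3249) (nat_lit 197) (.e (nat_lit 532504) (nat_lit 1) (.e (nat_lit 57852) (nat_lit 252) (.e (nat_lit 57354) (nat_lit 0) .nil)))) (.g (nat_lit 0) (.e (nat_lit 75955) (nat_lit 0) .nil) .nil))) 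
(.lf (nat_lit 466687) (.g (nat_lit 3796) (.e (nat_lit 3252) (nat_lit 197) (.e (nat_lit 532535) (nat_lit 9) (.e (nat_lit 336099) (nat_lit 9) (.e (nat_lit 336013) (nat_lit 2) (.e (nat_lit 90165) (nat_lit 12) (.e (nat_lit 171776) (nat_lit 176) (.e (nat_lit 2798) (nat_lit 180) (.e (nat_lit 303112) (nat_lit 0) .nil)))))))) (.g (nat_lit 1) (.e (nat_lit 76998) (nat_lit 0) .nil) .nil)))) (.nd (nat_lit 9) 
(.lf (nat_lit 466431) (.g (nat_lit 3985) (.e (nat_lit 3249) (nat_lit 197) (.e (nat_lit 532569) (nat_lit 16) (.e (nat_lit 401448) (nat_lit 10) (.e (nat_lit 434234) (nat_lit 23) (.e (nat_lit 532523) (nat_lit 7) (.e (nat_lit 319505) (nat_lit 10) (.e (nat_lit 5712) (nat_lit 312) (.e (nat_lit 2508) (nat_lit 157) .nil)))))))) (.g (nat_lit 1) (.e (nat_lit 76548) (nat_lit 0) .nil) .nil))) 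
(.lf (nat_lit 466943) (.g (nat_lit 2564) (.e (nat_lit 3253) (nat_lit 197) (.e (nat_lit 532499) (nat_lit 1) (.e (nat_lit 57927) (nat_lit 282) (.e (nat_lit 163874) (nat_lit 3) (.e (nat_lit 204854) (nat_lit 26) (.e (nat_lit 336019) (nat_lit 3) (.e (nat_lit 98342) (nat_lit 20) (.e (nat_lit 221203) (nat_lit 20) .nil)))))))) (.g (nat_lit 1) (.e (nat_lit 77341) (nat_lit 0) .nil) .nil)))))))))))))

noncomputable def tv5516 : DT := (.nd (nat_lit 0) (.nd (nat_lit 1) (.nd (nat_lit 2) (.nd (nat_lit 3) (.nd (nat_lit 4) (.nd (nat_lit 5) (.nd (nat_lit 6) (.nd (nat_lit 7) (.nd (nat_lit 8) (.nd (nat_lit 9) 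
(.lf (nat_lit 466944) (.g (nat_lit 4670) (.e (nat_lit 3253) (nat_lit 197) (.e (nat_lit 532499) (nat_lit 1) (.e (nat_lit 57927) (nat_lit 282) (.e (nat_lit 163874) (nat_lit 3) (.e (nat_lit 204854) (nat_lit 26) (.e (nat_lit 336019) (nat_lit 3) (.e (nat_lit 98342) (nat_lit 20) (.e (nat_lit 221204) (nat_lit 20) .nil)))))))) (.g (nat_lit 1) (.e (nat_lit 77342) (nat_lit 0) .nil) .nil))) 
(.lf (nat_lit 467456) (.g (nat_lit 3563) (.e (nat_lit 3253) (nat_lit 197) (.e (nat_lit 532503) (nat_lit 1) (.e (nat_lit 57931) (nat_lit 282) (.e (nat_lit 163869) (nat_lit 2) (.e (nat_lit 196668) (nat_lit 14) (.e (nat_lit 73746) (nat_lit 3) (.e (nat_lit 516129) (nat_lit 3) (.e (nat_lit 221203) (nat_lit 20) .nil)))))))) (.g (nat_lit 1) (.e (nat_lit 77930) (nat_lit 0) .nil) .nil)))) (.nd (nat_lit 9) 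
(.lf (nat_lit 467200) (.g (nat_lit 4146) (.e (nat_lit 3253) (nat_lit 197) (.e (nat_lit 532501) (nat_lit 1) (.e (nat_lit 57928) (nat_lit 282) (.e (nat_lit 163868) (nat_lit 2) (.e (nat_lit 196668) (nat_lit 14) (.e (nat_lit 73747) (nat_lit 3) (.e (nat_lit 516129) (nat_lit 3) (.e (nat_lit 221204) (nat_lit 20) .nil)))))))) (.g (nat_lit 1) (.e (nat_lit 77647) (nat_lit 0) .nil) .nil))) 
(.lf (nat_lit 467712) (.g (nat_lit 2058) (.e (nat_lit 3253) (nat_lit 197) (.e (nat_lit 532513) (nat_lit 3) (.e (nat_lit 114697) (nat_lit 11) (.e (nat_lit 426122) (nat_lit 2) (.e (nat_lit 196672) (nat_lit 15) (.e (nat_lit 81924) (nat_lit 0) .nil)))))) (.g (nat_lit 1) (.e (nat_lit 78203) (nat_lit 0) .nil) .nil))))) (.nd (nat_lit 8) (.nd (nat_lit 9) 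
(.lf (nat_lit 467072) (.g (nat_lit 2799) (.e (nat_lit 3253) (nat_lit 197) (.e (nat_lit 532501) (nat_lit 1) (.e (nat_lit 57926) (nat_lit 282) (.e (nat_lit 163867) (nat_lit 2) (.e (nat_lit 196670) (nat_lit 14) (.e (nat_lit 73746) (nat_lit 3) (.e (nat_lit 516129) (nat_lit 3) (.e (nat_lit 221203) (nat_lit 20) .nil)))))))) (.g (nat_lit 1) (.e (nat_lit 77486) (nat_lit 0) .nil) .nil))) 
(.lf (nat_lit 467584) (.g (nat_lit 2847) (.e (nat_lit 3253) (nat_lit 197) (.e (nat_lit 532504) (nat_lit 1) (.e (nat_lit 57854) (nat_lit 252) (.e (nat_lit 57445) (nat_lit 19) (.e (nat_lit 393229) (nat_lit 9) (.e (nat_lit 336086) (nat_lit 9) (.e (nat_lit 336270) (nat_lit 15) .nil))))))) (.g (nat_lit 1) (.e (nat_lit 78060) (nat_lit 0) .nil) .nil)))) (.nd (nat_lit 9) 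
(.lf (nat_lit 467328) (.g (nat_lit 2867) (.e (nat_lit 3253) (nat_lit 197) (.e (nat_lit 532503) (nat_lit 1) (.e (nat_lit 57848) (nat_lit 252) (.e (nat_lit 57407) (nat_lit 12) (.e (nat_lit 336456) (nat_lit 34) (.e (nat_lit 483379) (nat_lit 23) (.e (nat_lit 336270) (nat_lit 15) .nil))))))) (.g (nat_lit 1) (.e (nat_lit 77789) (nat_lit 0) .nil) .nil))) 
(.lf (nat_lit 467840) (.g (nat_lit 1360) (.e (nat_lit 3254) (nat_lit 197) (.e (nat_lit 532535) (nat_lit 9) (.e (nat_lit 336099) (nat_lit 9) .nil))) (.g (nat_lit 0) (.e (nat_lit 78505) (nat_lit 0) .nil) .nil)))))) (.nd (nat_lit 7) (.nd (nat_lit 8) (.nd (nat_lit 9) 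
(.lf (nat_lit 467008) (.g (nat_lit 2134) (.e (nat_lit 3253) (nat_lit 197) (.e (nat_lit 532501) (nat_lit 1) (.e (nat_lit 57851) (nat_lit 252) (.e (nat_lit 57406) (nat_lit 12) (.e (nat_lit 336456) (nat_lit 34) (.e (nat_lit 483387) (nat_lit 23) (.e (nat_lit 336291) (nat_lit 15) .nil))))))) (.g (nat_lit 1) (.e (nat_lit 77415) (nat_lit 0) .nil) .nil))) 
(.lf (nat_lit 467520) (.g (nat_lit 5251) (.e (nat_lit 3253) (nat_lit 197) (.e (nat_lit 532504) (nat_lit 1) (.e (nat_lit 57852) (nat_lit 252) (.e (nat_lit 57357) (nat_lit 0) (.e (nat_lit 1858) (nat_lit 124) (.e (nat_lit 557105) (nat_lit 14) (.e (nat_lit 180252) (nat_lit 10) (.e (nat_lit 573482) (nat_lit 13) (.e (nat_lit 65637) (nat_lit 15) .nil))))))))) (.g (nat_lit 1) (.e (nat_lit 77996) (nat_lit 0) .nil) .nil)))) 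
(.nd (nat_lit 9) 
(.lf (nat_lit 467264) (.g (nat_lit 2118) (.e (nat_lit 3253) (nat_lit 197) (.e (nat_lit 532501) (nat_lit 1) (.e (nat_lit 57931) (nat_lit 282) (.e (nat_lit 163874) (nat_lit 3) (.e (nat_lit 204873) (nat_lit 30) .nil))))) (.g (nat_lit 0) (.e (nat_lit 77724) (nat_lit 0) .nil) .nil))) 
(.lf (nat_lit 467776) (.g (nat_lit 2804) (.e (nat_lit 3253) (nat_lit 197) (.e (nat_lit 532550) (nat_lit 12) (.e (nat_lit 360474) (nat_lit 8) (.e (nat_lit 557073) (nat_lit 9) .nil)))) (.g (nat_lit 0) (.e (nat_lit 78365) (nat_lit 0) .nil) .nil))))) (.nd (nat_lit 8) (.nd (nat_lit 9) 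
(.lf (nat_lit 467136) (.g (nat_lit 4490) (.e (nat_lit 3253) (nat_lit 197) (.e (nat_lit 532501) (nat_lit 1) (.e (nat_lit 57927) (nat_lit 282) (.e (nat_lit 163868) (nat_lit 2) (.e (nat_lit 196668) (nat_lit 14) (.e (nat_lit 73746) (nat_lit 3) (.e (nat_lit 516129) (nat_lit 3) (.e (nat_lit 221204) (nat_lit 20) .nil)))))))) (.g (nat_lit 1) (.e (nat_lit 77565) (nat_lit 0) .nil) .nil))) 
(.lf (nat_lit 467648) (.g (nat_lit 570) (.e (nat_lit 3253) (nat_lit 197) (.e (nat_lit 532504) (nat_lit 1) (.e (nat_lit 57931) (nat_lit 282) .nil))) (.g (nat_lit 0) (.e (nat_lit 78130) (nat_lit 0) .nil) .nil)))) (.nd (nat_lit 9) 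
(.lf (nat_lit 467392) (.g (nat_lit 3067) (.e (nat_lit 3253) (nat_lit 197) (.e (nat_lit 532503) (nat_lit 1) (.e (nat_lit 57929) (nat_lit 282) (.e (nat_lit 163869) (nat_lit 2) (.e (nat_lit 196668) (nat_lit 14) (.e (nat_lit 73747) (nat_lit 3) (.e (nat_lit 516131) (nat_lit 3) (.e (nat_lit 221204) (nat_lit 20) .nil)))))))) (.g (nat_lit 1) (.e (nat_lit 77858) (nat_lit 0) .nil) .nil))) 
(.lf (nat_lit 467904) (.g (nat_lit 7345) (.e (nat_lit 3255) (nat_lit 197) (.e (nat_lit 532550) (nat_lit 12) (.e (nat_lit 360475) (nat_lit 8) (.e (nat_lit 557090) (nat_lit 12) .nil)))) (.g (nat_lit 0) (.e (nat_lit 78620) (nat_lit 0) .nil) .nil))))))) (.nd (nat_lit 6) (.nd (nat_lit 7) (.nd (nat_lit 8) (.nd (nat_lit 9) 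
(.lf (nat_lit 466976) (.g (nat_lit 4435) (.e (nat_lit 3253) (nat_lit 197) (.e (nat_lit 532499) (nat_lit 1) (.e (nat_lit 57931) (nat_lit 282) (.e (nat_lit 163869) (nat_lit 2) (.e (nat_lit 196666) (nat_lit 13) (.e (nat_lit 65571) (nat_lit 3) (.e (nat_lit 98341) (nat_lit 20) (.e (nat_lit 221204) (nat_lit 20) .nil)))))))) (.g (nat_lit 1) (.e (nat_lit 77382) (nat_lit 0) .nil) .nil))) 
(.lf (nat_lit 467488) (.g (nat_lit 3722) (.e (nat_lit 3253) (nat_lit 197) (.e (nat_lit 532504) (nat_lit 1) (.e (nat_lit 57851) (nat_lit 252) (.e (nat_lit 57354) (nat_lit 0) (.e (nat_lit 1855) (nat_lit 124) (.e (nat_lit 557105) (nat_lit 14) (.e (nat_lit 180252) (nat_lit 10) (.e (nat_lit 573480) (nat_lit 13) (.e (nat_lit 65637) (nat_lit 15) .nil))))))))) (.g (nat_lit 1) (.e (nat_lit 77964) (nat_lit 0) .nil) .nil)))) 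
(.nd (nat_lit 9) 
(.lf (nat_lit 467232) (.g (nat_lit 2900) (.e (nat_lit 3253) (nat_lit 197) (.e (nat_lit 532501) (nat_lit 1) (.e (nat_lit 57931) (nat_lit 282) (.e (nat_lit 163867) (nat_lit 2) (.e (nat_lit 196663) (nat_lit 13) (.e (nat_lit 65571) (nat_lit 3) (.e (nat_lit 98342) (nat_lit 20) (.e (nat_lit 221204) (nat_lit 20) .nil)))))))) (.g (nat_lit 1) (.e (nat_lit 77689) (nat_lit 0) .nil) .nil))) 
(.lf (nat_lit 467744) (.g (nat_lit 2938) (.e (nat_lit 3253) (nat_lit 197) (.e (nat_lit 532523) (nat_lit 7) (.e (nat_lit 319532) (nat_lit 16) (.e (nat_lit 286735) (nat_lit 3) (.e (nat_lit 98382) (nat_lit 31) (.e (nat_lit 466967) (nat_lit 20) .nil)))))) (.g (nat_lit 1) (.e (nat_lit 78288) (nat_lit 0) .nil) .nil))))) (.nd (nat_lit 8) (.nd (nat_lit 9) 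
(.lf (nat_lit 467104) (.g (nat_lit 3607) (.e (nat_lit 3253) (nat_lit 197) (.e (nat_lit 532501) (nat_lit 1) (.e (nat_lit 57926) (nat_lit 282) (.e (nat_lit 163871) (nat_lit 2) (.e (nat_lit 196670) (nat_lit 14) (.e (nat_lit 73746) (nat_lit 3) (.e (nat_lit 516129) (nat_lit 3) (.e (nat_lit 221204) (nat_lit 20) .nil)))))))) (.g (nat_lit 1) (.e (nat_lit 77527) (nat_lit 0) .nil) .nil))) 
(.lf (nat_lit 467616) (.g (nat_lit 2359) (.e (nat_lit 3253) (nat_lit 197) (.e (nat_lit 532504) (nat_lit 1) (.e (nat_lit 57929) (nat_lit 282) (.e (nat_lit 163869) (nat_lit 2) (.e (nat_lit 196663) (nat_lit 13) (.e (nat_lit 65571) (nat_lit 3) (.e (nat_lit 98341) (nat_lit 20) (.e (nat_lit 221204) (nat_lit 20) .nil)))))))) (.g (nat_lit 1) (.e (nat_lit 78096) (nat_lit 0) .nil) .nil)))) (.nd (nat_lit 9) 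
(.lf (nat_lit 467360) (.g (nat_lit 3545) (.e (nat_lit 3253) (nat_lit 197) (.e (nat_lit 532503) (nat_lit 1) (.e (nat_lit 57924) (nat_lit 282) (.e (nat_lit 163867) (nat_lit 2) (.e (nat_lit 196668) (nat_lit 14) (.e (nat_lit 73746) (nat_lit 3) (.e (nat_lit 516129) (nat_lit 3) (.e (nat_lit 221204) (nat_lit 20) .nil)))))))) (.g (nat_lit 1) (.e (nat_lit 77821) (nat_lit 0) .nil) .nil))) 
(.lf (nat_lit 467872) (.g (nat_lit 3105) (.e (nat_lit 3255) (nat_lit 197) (.e (nat_lit 532535) (nat_lit 9) (.e (nat_lit 336099) (nat_lit 9) (.e (nat_lit 335916) (nat_lit 0) .nil)))) (.g (nat_lit 0) (.e (nat_lit 78588) (nat_lit 0) .nil) .nil)))))) (.nd (nat_lit 7) (.nd (nat_lit 8) (.nd (nat_lit 9) 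
(.lf (nat_lit 467040) (.g (nat_lit 2175) (.e (nat_lit 3253) (nat_lit 197) (.e (nat_lit 532501) (nat_lit 1) (.e (nat_lit 57854) (nat_lit 252) (.e (nat_lit 57409) (nat_lit 12) (.e (nat_lit 336374) (nat_lit 27) .nil))))) (.g (nat_lit 0) (.e (nat_lit 77447) (nat_lit 0) .nil) .nil))) 
(.lf (nat_lit 467552) (.g (nat_lit 2096) (.e (nat_lit 3253) (nat_lit 197) (.e (nat_lit 532504) (nat_lit 1) (.e (nat_lit 57852) (nat_lit 252) (.e (nat_lit 57409) (nat_lit 12) (.e (nat_lit 336374) (nat_lit 27) (.e (nat_lit 426540) (nat_lit 29) (.e (nat_lit 352262) (nat_lit 0) .nil))))))) (.g (nat_lit 1) (.e (nat_lit 78028) (nat_lit 0) .nil) .nil)))) (.nd (nat_lit 9) 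
(.lf (nat_lit 467296) (.g (nat_lit 1974) (.e (nat_lit 3253) (nat_lit 197) (.e (nat_lit 532503) (nat_lit 1) (.e (nat_lit 57847) (nat_lit 252) (.e (nat_lit 57407) (nat_lit 12) (.e (nat_lit 336456) (nat_lit 34) (.e (nat_lit 483393) (nat_lit 23) (.e (nat_lit 336293) (nat_lit 15) .nil))))))) (.g (nat_lit 1) (.e (nat_lit 77757) (nat_lit 0) .nil) .nil))) 
(.lf (nat_lit 467808) (.g (nat_lit 3195) (.e (nat_lit 3253) (nat_lit 197) (.e (nat_lit 532563) (nat_lit 15) (.e (nat_lit 385066) (nat_lit 26) (.e (nat_lit 532530) (nat_lit 9) (.e (nat_lit 336316) (nat_lit 17) (.e (nat_lit 196665) (nat_lit 13) (.e (nat_lit 65637) (nat_lit 15) .nil))))))) (.g (nat_lit 1) (.e (nat_lit 78462) (nat_lit 0) .nil) .nil))))) (.nd (nat_lit 8) (.nd (nat_lit 9) 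
(.lf (nat_lit 467168) (.g (nat_lit 2418) (.e (nat_lit 3253) (nat_lit 197) (.e (nat_lit 532501) (nat_lit 1) (.e (nat_lit 57927) (nat_lit 282) (.e (nat_lit 163871) (nat_lit 2) (.e (nat_lit 196664) (nat_lit 13) (.e (nat_lit 65571) (nat_lit 3) (.e (nat_lit 98341) (nat_lit 20) (.e (nat_lit 221204) (nat_lit 20) .nil)))))))) (.g (nat_lit 1) (.e (nat_lit 77606) (nat_lit 0) .nil) .nil))) 
(.lf (nat_lit 467680) (.g (nat_lit 4571) (.e (nat_lit 3253) (nat_lit 197) (.e (nat_lit 532504) (nat_lit 1) (.e (nat_lit 57931) (nat_lit 282) (.e (nat_lit 163869) (nat_lit 2) (.e (nat_lit 196670) (nat_lit 14) (.e (nat_lit 73746) (nat_lit 3) (.e (nat_lit 516129) (nat_lit 3) (.e (nat_lit 221203) (nat_lit 20) .nil)))))))) (.g (nat_lit 1) (.e (nat_lit 78166) (nat_lit 0) .nil) .nil)))) (.nd (nat_lit 9) 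
(.lf (nat_lit 467424) (.g (nat_lit 2248) (.e (nat_lit 3253) (nat_lit 197) (.e (nat_lit 532503) (nat_lit 1) (.e (nat_lit 57931) (nat_lit 282) (.e (nat_lit 163866) (nat_lit 2) (.e (nat_lit 196663) (nat_lit 13) (.e (nat_lit 65571) (nat_lit 3) (.e (nat_lit 98341) (nat_lit 20) (.e (nat_lit 221204) (nat_lit 20) .nil)))))))) (.g (nat_lit 1) (.e (nat_lit 77891) (nat_lit 0) .nil) .nil))) 
(.lf (nat_lit 467936) (.g (nat_lit 4235) (.e (nat_lit 3256) (nat_lit 197) (.e (nat_lit 532503) (nat_lit 1) (.e (nat_lit 57931) (nat_lit 282) (.e (nat_lit 163869) (nat_lit 2) (.e (nat_lit 196670) (nat_lit 14) (.e (nat_lit 73746) (nat_lit 3) (.e (nat_lit 516129) (nat_lit 3) (.e (nat_lit 221196) (nat_lit 20) .nil)))))))) (.g (nat_lit 1) (.e (nat_lit 78655) (nat_lit 0) .nil) .nil)))))))) 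
(.nd (nat_lit 5) (.nd (nat_lit 6) (.nd (nat_lit 7) (.nd (nat_lit 8) (.nd (nat_lit 9) 
(.lf (nat_lit 466960) (.g (nat_lit 4470) (.e (nat_lit 3253) (nat_lit 197) (.e (nat_lit 532499) (nat_lit 1) (.e (nat_lit 57927) (nat_lit 282) (.e (nat_lit 163875) (nat_lit 3) (.e (nat_lit 204863) (nat_lit 27) (.e (nat_lit 344117) (nat_lit 21) (.e (nat_lit 516130) (nat_lit 3) (.e (nat_lit 221204) (nat_lit 20) .nil)))))))) (.g (nat_lit 1) (.e (nat_lit 77362) (nat_lit 0) .nil) .nil))) 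
(.lf (nat_lit 467472) (.g (nat_lit 3579) (.e (nat_lit 3253) (nat_lit 197) (.e (nat_lit 532503) (nat_lit 1) (.e (nat_lit 57931) (nat_lit 282) (.e (nat_lit 163874) (nat_lit 3) (.e (nat_lit 204851) (nat_lit 26) (.e (nat_lit 336019) (nat_lit 3) (.e (nat_lit 98341) (nat_lit 20) (.e (nat_lit 221204) (nat_lit 20) .nil)))))))) (.g (nat_lit 1) (.e (nat_lit 77946) (nat_lit 0) .nil) .nil)))) 
(.nd (nat_lit 9) 
(.lf (nat_lit 467216) (.g (nat_lit 2925) (.e (nat_lit 3253) (nat_lit 197) (.e (nat_lit 532501) (nat_lit 1) (.e (nat_lit 57929) (nat_lit 282) (.e (nat_lit 163869) (nat_lit 2) (.e (nat_lit 196668) (nat_lit 14) (.e (nat_lit 73747) (nat_lit 3) (.e (nat_lit 516129) (nat_lit 3) (.e (nat_lit 221203) (nat_lit 20) .nil)))))))) (.g (nat_lit 1) (.e (nat_lit 77673) (nat_lit 0) .nil) .nil))) 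
(.lf (nat_lit 467728) (.g (nat_lit 2273) (.e (nat_lit 3253) (nat_lit 197) (.e (nat_lit 532515) (nat_lit 3) (.e (nat_lit 114718) (nat_lit 23) (.e (nat_lit 98356) (nat_lit 26) (.e (nat_lit 426438) (nat_lit 18) (.e (nat_lit 98334) (nat_lit 18) (.e (nat_lit 164330) (nat_lit 230) (.e (nat_lit 163857) (nat_lit 0) .nil)))))))) (.g (nat_lit 1) (.e (nat_lit 78268) (nat_lit 0) .nil) .nil))))) 
(.nd (nat_lit 8) (.nd (nat_lit 9) 
(.lf (nat_lit 467088) (.g (nat_lit 3220) (.e (nat_lit 3253) (nat_lit 197) (.e (nat_lit 532501) (nat_lit 1) (.e (nat_lit 57926) (nat_lit 282) (.e (nat_lit 163869) (nat_lit 2) (.e (nat_lit 196666) (nat_lit 13) (.e (nat_lit 65569) (nat_lit 3) (.e (nat_lit 98342) (nat_lit 20) (.e (nat_lit 221204) (nat_lit 20) .nil)))))))) (.g (nat_lit 1) (.e (nat_lit 77502) (nat_lit 0) .nil) .nil))) 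
(.lf (nat_lit 467600) (.g (nat_lit 2355) (.e (nat_lit 3253) (nat_lit 197) (.e (nat_lit 532504) (nat_lit 1) (.e (nat_lit 57924) (nat_lit 282) (.e (nat_lit 163867) (nat_lit 2) (.e (nat_lit 196668) (nat_lit 14) (.e (nat_lit 73747) (nat_lit 3) (.e (nat_lit 516130) (nat_lit 3) (.e (nat_lit 221204) (nat_lit 20) .nil)))))))) (.g (nat_lit 1) (.e (nat_lit 78076) (nat_lit 0) .nil) .nil)))) (.nd (nat_lit 9) 
(.lf (nat_lit 467344) (.g (nat_lit 2866) (.e (nat_lit 3253) (nat_lit 197) (.e (nat_lit 532503) (nat_lit 1) (.e (nat_lit 57849) (nat_lit 252) (.e (nat_lit 57377) (nat_lit 3) (.e (nat_lit 98313) (nat_lit 9) (.e (nat_lit 336027) (nat_lit 3) (.e (nat_lit 98341) (nat_lit 20) (.e (nat_lit 221204) (nat_lit 20) .nil)))))))) (.g (nat_lit 1) (.e (nat_lit 77805) (nat_lit 0) .nil) .nil))) 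
(.lf (nat_lit 467856) (.g (nat_lit 2765) (.e (nat_lit 3254) (nat_lit 197) (.e (nat_lit 532560) (nat_lit 14) (.e (nat_lit 376868) (nat_lit 23) (.e (nat_lit 98350) (nat_lit 24) (.e (nat_lit 409648) (nat_lit 18) (.e (nat_lit 303108) (nat_lit 0) .nil)))))) (.g (nat_lit 1) (.e (nat_lit 78526) (nat_lit 0) .nil) .nil)))))) (.nd (nat_lit 7) (.nd (nat_lit 8) (.nd (nat_lit 9) 
(.lf (nat_lit 467024) (.g (nat_lit 3134) (.e (nat_lit 3253) (nat_lit 197) (.e (nat_lit 532501) (nat_lit 1) (.e (nat_lit 57852) (nat_lit 252) (.e (nat_lit 57406) (nat_lit 12) (.e (nat_lit 336367) (nat_lit 27) .nil))))) (.g (nat_lit 0) (.e (nat_lit 77431) (nat_lit 0) .nil) .nil))) 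
(.lf (nat_lit 467536) (.g (nat_lit 2740) (.e (nat_lit 3253) (nat_lit 197) (.e (nat_lit 532504) (nat_lit 1) (.e (nat_lit 57852) (nat_lit 252) (.e (nat_lit 57406) (nat_lit 12) (.e (nat_lit 336367) (nat_lit 27) (.e (nat_lit 426542) (nat_lit 29) (.e (nat_lit 352265) (nat_lit 0) .nil))))))) (.g (nat_lit 1) (.e (nat_lit 78012) (nat_lit 0) .nil) .nil)))) (.nd (nat_lit 9) 
(.lf (nat_lit 467280) (.g (nat_lit 1868) (.e (nat_lit 3253) (nat_lit 197) (.e (nat_lit 532503) (nat_lit 1) (.e (nat_lit 57846) (nat_lit 252) (.e (nat_lit 57407) (nat_lit 12) (.e (nat_lit 336367) (nat_lit 27) .nil))))) (.g (nat_lit 0) (.e (nat_lit 77741) (nat_lit 0) .nil) .nil))) 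
(.lf (nat_lit 467792) (.g (nat_lit 4665) (.e (nat_lit 3253) (nat_lit 197) (.e (nat_lit 532550) (nat_lit 12) (.e (nat_lit 360475) (nat_lit 8) (.e (nat_lit 557086) (nat_lit 11) .nil)))) (.g (nat_lit 0) (.e (nat_lit 78381) (nat_lit 0) .nil) .nil))))) (.nd (nat_lit 8) (.nd (nat_lit 9) 
(.lf (nat_lit 467152) (.g (nat_lit 4826) (.e (nat_lit 3253) (nat_lit 197) (.e (nat_lit 532501) (nat_lit 1) (.e (nat_lit 57927) (nat_lit 282) (.e (nat_lit 163869) (nat_lit 2) (.e (nat_lit 196666) (nat_lit 13) (.e (nat_lit 65571) (nat_lit 3) (.e (nat_lit 98341) (nat_lit 20) (.e (nat_lit 221204) (nat_lit 20) .nil)))))))) (.g (nat_lit 1) (.e (nat_lit 77584) (nat_lit 0) .nil) .nil))) 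
(.lf (nat_lit 467664) (.g (nat_lit 3492) (.e (nat_lit 3253) (nat_lit 197) (.e (nat_lit 532504) (nat_lit 1) (.e (nat_lit 57931) (nat_lit 282) (.e (nat_lit 163867) (nat_lit 2) (.e (nat_lit 196670) (nat_lit 14) (.e (nat_lit 73746) (nat_lit 3) (.e (nat_lit 516131) (nat_lit 3) (.e (nat_lit 221204) (nat_lit 20) .nil)))))))) (.g (nat_lit 1) (.e (nat_lit 78148) (nat_lit 0) .nil) .nil)))) (.nd (nat_lit 9) 
(.lf (nat_lit 467408) (.g (nat_lit 2994) (.e (nat_lit 3253) (nat_lit 197) (.e (nat_lit 532503) (nat_lit 1) (.e (nat_lit 57930) (nat_lit 282) (.e (nat_lit 163867) (nat_lit 2) (.e (nat_lit 196668) (nat_lit 14) (.e (nat_lit 73747) (nat_lit 3) (.e (nat_lit 516129) (nat_lit 3) (.e (nat_lit 221203) (nat_lit 20) .nil)))))))) (.g (nat_lit 1) (.e (nat_lit 77875) (nat_lit 0) .nil) .nil))) 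
(.lf (nat_lit 467920) (.g (nat_lit 2407) (.e (nat_lit 3256) (nat_lit 197) (.e (nat_lit 532499) (nat_lit 1) (.e (nat_lit 57927) (nat_lit 282) (.e (nat_lit 163869) (nat_lit 2) (.e (nat_lit 196668) (nat_lit 14) (.e (nat_lit 73747) (nat_lit 3) (.e (nat_lit 516131) (nat_lit 3) (.e (nat_lit 221197) (nat_lit 20) .nil)))))))) (.g (nat_lit 1) (.e (nat_lit 78637) (nat_lit 0) .nil) .nil))))))) 
(.nd (nat_lit 6) (.nd (nat_lit 7) (.nd (nat_lit 8) (.nd (nat_lit 9) 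
(.lf (nat_lit 466992) (.g (nat_lit 598) (.e (nat_lit 3253) (nat_lit 197) (.e (nat_lit 532501) (nat_lit 1) (.e (nat_lit 57844) (nat_lit 252) .nil))) (.g (nat_lit 0) (.e (nat_lit 77399) (nat_lit 0) .nil) .nil))) 
(.lf (nat_lit 467504) (.g (nat_lit 2671) (.e (nat_lit 3253) (nat_lit 197) (.e (nat_lit 532504) (nat_lit 1) (.e (nat_lit 57851) (nat_lit 252) (.e (nat_lit 57406) (nat_lit 12) (.e (nat_lit 336456) (nat_lit 34) (.e (nat_lit 483393) (nat_lit 23) (.e (nat_lit 336275) (nat_lit 15) .nil))))))) (.g (nat_lit 1) (.e (nat_lit 77980) (nat_lit 0) .nil) .nil)))) (.nd (nat_lit 9) 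
(.lf (nat_lit 467248) (.g (nat_lit 3343) (.e (nat_lit 3253) (nat_lit 197) (.e (nat_lit 532501) (nat_lit 1) (.e (nat_lit 57931) (nat_lit 282) (.e (nat_lit 163869) (nat_lit 2) (.e (nat_lit 196668) (nat_lit 14) (.e (nat_lit 73746) (nat_lit 3) (.e (nat_lit 516129) (nat_lit 3) (.e (nat_lit 221203) (nat_lit 20) .nil)))))))) (.g (nat_lit 1) (.e (nat_lit 77706) (nat_lit 0) .nil) .nil))) 
(.lf (nat_lit 467760) (.g (nat_lit 4014) (.e (nat_lit 3253) (nat_lit 197) (.e (nat_lit 532530) (nat_lit 9) (.e (nat_lit 336326) (nat_lit 18) (.e (nat_lit 204854) (nat_lit 26) (.e (nat_lit 336316) (nat_lit 17) (.e (nat_lit 196666) (nat_lit 13) (.e (nat_lit 65642) (nat_lit 15) .nil))))))) (.g (nat_lit 1) (.e (nat_lit 78324) (nat_lit 0) .nil) .nil))))) (.nd (nat_lit 8) (.nd (nat_lit 9) 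
(.lf (nat_lit 467120) (.g (nat_lit 2132) (.e (nat_lit 3253) (nat_lit 197) (.e (nat_lit 532501) (nat_lit 1) (.e (nat_lit 57927) (nat_lit 282) (.e (nat_lit 163866) (nat_lit 2) (.e (nat_lit 196664) (nat_lit 13) (.e (nat_lit 65571) (nat_lit 3) (.e (nat_lit 98341) (nat_lit 20) (.e (nat_lit 221204) (nat_lit 20) .nil)))))))) (.g (nat_lit 1) (.e (nat_lit 77548) (nat_lit 0) .nil) .nil))) 
(.lf (nat_lit 467632) (.g (nat_lit 4765) (.e (nat_lit 3253) (nat_lit 197) (.e (nat_lit 532504) (nat_lit 1) (.e (nat_lit 57929) (nat_lit 282) (.e (nat_lit 163869) (nat_lit 2) (.e (nat_lit 196670) (nat_lit 14) (.e (nat_lit 73746) (nat_lit 3) (.e (nat_lit 516129) (nat_lit 3) (.e (nat_lit 221204) (nat_lit 20) .nil)))))))) (.g (nat_lit 1) (.e (nat_lit 78112) (nat_lit 0) .nil) .nil)))) (.nd (nat_lit 9) 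
(.lf (nat_lit 467376) (.g (nat_lit 2267) (.e (nat_lit 3253) (nat_lit 197) (.e (nat_lit 532503) (nat_lit 1) (.e (nat_lit 57924) (nat_lit 282) (.e (nat_lit 163873) (nat_lit 3) (.e (nat_lit 204853) (nat_lit 26) .nil))))) (.g (nat_lit 0) (.e (nat_lit 77842) (nat_lit 0) .nil) .nil))) 
(.lf (nat_lit 467888) (.g (nat_lit 5242) (.e (nat_lit 3255) (nat_lit 197) (.e (nat_lit 532535) (nat_lit 9) (.e (nat_lit 336099) (nat_lit 9) (.e (nat_lit 336028) (nat_lit 3) (.e (nat_lit 98350) (nat_lit 24) (.e (nat_lit 409649) (nat_lit 18) (.e (nat_lit 303111) (nat_lit 0) .nil))))))) (.g (nat_lit 1) (.e (nat_lit 78604) (nat_lit 0) .nil) .nil)))))) 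
(.nd (nat_lit 7) (.nd (nat_lit 8) (.nd (nat_lit 9) 
(.lf (nat_lit 467056) (.g (nat_lit 3620) (.e (nat_lit 3253) (nat_lit 197) (.e (nat_lit 532501) (nat_lit 1) (.e (nat_lit 57924) (nat_lit 282) (.e (nat_lit 163867) (nat_lit 2) (.e (nat_lit 196668) (nat_lit 14) (.e (nat_lit 73747) (nat_lit 3) (.e (nat_lit 516129) (nat_lit 3) (.e (nat_lit 221204) (nat_lit 20) .nil)))))))) (.g (nat_lit 1) (.e (nat_lit 77463) (nat_lit 0) .nil) .nil))) 
(.lf (nat_lit 467568) (.g (nat_lit 2758) (.e (nat_lit 3253) (nat_lit 197) (.e (nat_lit 532504) (nat_lit 1) (.e (nat_lit 57854) (nat_lit 252) (.e (nat_lit 57406) (nat_lit 12) (.e (nat_lit 336367) (nat_lit 27) (.e (nat_lit 426542) (nat_lit 29) (.e (nat_lit 352266) (nat_lit 0) .nil))))))) (.g (nat_lit 1) (.e (nat_lit 78044) (nat_lit 0) .nil) .nil)))) (.nd (nat_lit 9) 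
(.lf (nat_lit 467312) (.g (nat_lit 1653) (.e (nat_lit 3253) (nat_lit 197) (.e (nat_lit 532503) (nat_lit 1) (.e (nat_lit 57847) (nat_lit 252) (.e (nat_lit 57446) (nat_lit 19) (.e (nat_lit 401152) (nat_lit 11) (.e (nat_lit 360192) (nat_lit 0) .nil)))))) (.g (nat_lit 1) (.e (nat_lit 77773) (nat_lit 0) .nil) .nil))) 
(.lf (nat_lit 467824) (.g (nat_lit 2017) (.e (nat_lit 3254) (nat_lit 197) (.e (nat_lit 532501) (nat_lit 1) (.e (nat_lit 57852) (nat_lit 252) (.e (nat_lit 57406) (nat_lit 12) .nil)))) (.g (nat_lit 0) (.e (nat_lit 78482) (nat_lit 0) .nil) .nil))))) (.nd (nat_lit 8) (.nd (nat_lit 9) 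
(.lf (nat_lit 467184) (.g (nat_lit 2696) (.e (nat_lit 3253) (nat_lit 197) (.e (nat_lit 532501) (nat_lit 1) (.e (nat_lit 57927) (nat_lit 282) (.e (nat_lit 163874) (nat_lit 3) (.e (nat_lit 204872) (nat_lit 30) (.e (nat_lit 368676) (nat_lit 21) (.e (nat_lit 516131) (nat_lit 3) (.e (nat_lit 221204) (nat_lit 20) .nil)))))))) (.g (nat_lit 1) (.e (nat_lit 77628) (nat_lit 0) .nil) .nil))) 
(.lf (nat_lit 467696) (.g (nat_lit 1763) (.e (nat_lit 3253) (nat_lit 197) (.e (nat_lit 532510) (nat_lit 2) (.e (nat_lit 106534) (nat_lit 11) (.e (nat_lit 16412) (nat_lit 2) (.e (nat_lit 196672) (nat_lit 15) (.e (nat_lit 89856) (nat_lit 0) .nil)))))) (.g (nat_lit 1) (.e (nat_lit 78184) (nat_lit 0) .nil) .nil)))) (.nd (nat_lit 9) 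
(.lf (nat_lit 467440) (.g (nat_lit 2978) (.e (nat_lit 3253) (nat_lit 197) (.e (nat_lit 532503) (nat_lit 1) (.e (nat_lit 57931) (nat_lit 282) (.e (nat_lit 163867) (nat_lit 2) (.e (nat_lit 196664) (nat_lit 13) (.e (nat_lit 65571) (nat_lit 3) (.e (nat_lit 98342) (nat_lit 20) (.e (nat_lit 221204) (nat_lit 20) .nil)))))))) (.g (nat_lit 1) (.e (nat_lit 77910) (nat_lit 0) .nil) .nil))) 
(.lf (nat_lit 467952) (.g (nat_lit 3562) (.e (nat_lit 3256) (nat_lit 197) (.e (nat_lit 532535) (nat_lit 9) (.e (nat_lit 336173) (nat_lit 10) (.e (nat_lit 344126) (nat_lit 25) (.e (nat_lit 548889) (nat_lit 9) (.e (nat_lit 65628) (nat_lit 14) (.e (nat_lit 401412) (nat_lit 0) .nil))))))) (.g (nat_lit 1) (.e (nat_lit 78730) (nat_lit 0) .nil) .nil))))))))) 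
(.nd (nat_lit 4) (.nd (nat_lit 5) (.nd (nat_lit 6) (.nd (nat_lit 7) (.nd (nat_lit 8) 
(.nd (nat_lit 9) 
(.lf (nat_lit 466952) (.g (nat_lit 2944) (.e (nat_lit 3253) (nat_lit 197) (.e (nat_lit 532499) (nat_lit 1) (.e (nat_lit 57927) (nat_lit 282) (.e (nat_lit 163874) (nat_lit 3) (.e (nat_lit 204872) (nat_lit 30) (.e (nat_lit 368676) (nat_lit 21) (.e (nat_lit 516131) (nat_lit 3) (.e (nat_lit 221204) (nat_lit 20) .nil)))))))) (.g (nat_lit 1) (.e (nat_lit 77350) (nat_lit 0) .nil) .nil))) 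
(.lf (nat_lit 467464) (.g (nat_lit 2431) (.e (nat_lit 3253) (nat_lit 197) (.e (nat_lit 532503) (nat_lit 1) (.e (nat_lit 57931) (nat_lit 282) (.e (nat_lit 163869) (nat_lit 2) (.e (nat_lit 196670) (nat_lit 14) (.e (nat_lit 73746) (nat_lit 3) (.e (nat_lit 516129) (nat_lit 3) (.e (nat_lit 229120) (nat_lit 20) .nil)))))))) (.g (nat_lit 1) (.e (nat_lit 77938) (nat_lit 0) .nil) .nil)))) (.nd (nat_lit 9) 
(.lf (nat_lit 467208) (.g (nat_lit 2053) (.e (nat_lit 3253) (nat_lit 197) (.e (nat_lit 532501) (nat_lit 1) (.e (nat_lit 57928) (nat_lit 282) (.e (nat_lit 163871) (nat_lit 2) (.e (nat_lit 196670) (nat_lit 14) (.e (nat_lit 73746) (nat_lit 3) (.e (nat_lit 516131) (nat_lit 3) (.e (nat_lit 221203) (nat_lit 20) .nil)))))))) (.g (nat_lit 1) (.e (nat_lit 77665) (nat_lit 0) .nil) .nil))) 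
(.lf (nat_lit 467720) (.g (nat_lit 2488) (.e (nat_lit 3253) (nat_lit 197) (.e (nat_lit 532513) (nat_lit 3) (.e (nat_lit 114714) (nat_lit 22) (.e (nat_lit 90172) (nat_lit 14) (.e (nat_lit 180244) (nat_lit 5) (.e (nat_lit 532499) (nat_lit 1) (.e (nat_lit 57691) (nat_lit 156) (.e (nat_lit 163857) (nat_lit 0) .nil)))))))) (.g (nat_lit 1) (.e (nat_lit 78225) (nat_lit 0) .nil) .nil))))) 
(.nd (nat_lit 8) (.nd (nat_lit 9) 
(.lf (nat_lit 467080) (.g (nat_lit 2713) (.e (nat_lit 3253) (nat_lit 197) (.e (nat_lit 532501) (nat_lit 1) (.e (nat_lit 57926) (nat_lit 282) (.e (nat_lit 163868) (nat_lit 2) (.e (nat_lit 196668) (nat_lit 14) (.e (nat_lit 73747) (nat_lit 3) (.e (nat_lit 516131) (nat_lit 3) (.e (nat_lit 221203) (nat_lit 20) .nil)))))))) (.g (nat_lit 1) (.e (nat_lit 77494) (nat_lit 0) .nil) .nil))) 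
(.lf (nat_lit 467592) (.g (nat_lit 2084) (.e (nat_lit 3253) (nat_lit 197) (.e (nat_lit 532504) (nat_lit 1) (.e (nat_lit 57854) (nat_lit 252) (.e (nat_lit 57447) (nat_lit 19) (.e (nat_lit 393229) (nat_lit 9) (.e (nat_lit 336086) (nat_lit 9) (.e (nat_lit 336265) (nat_lit 15) .nil))))))) (.g (nat_lit 1) (.e (nat_lit 78068) (nat_lit 0) .nil) .nil)))) (.nd (nat_lit 9) 
(.lf (nat_lit 467336) (.g (nat_lit 2932) (.e (nat_lit 3253) (nat_lit 197) (.e (nat_lit 532503) (nat_lit 1) (.e (nat_lit 57848) (nat_lit 252) (.e (nat_lit 57407) (nat_lit 12) (.e (nat_lit 336456) (nat_lit 34) (.e (nat_lit 483393) (nat_lit 23) (.e (nat_lit 336293) (nat_lit 15) .nil))))))) (.g (nat_lit 1) (.e (nat_lit 77797) (nat_lit 0) .nil) .nil))) 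
(.lf (nat_lit 467848) (.g (nat_lit 4667) (.e (nat_lit 3254) (nat_lit 197) (.e (nat_lit 532550) (nat_lit 12) (.e (nat_lit 360474) (nat_lit 8) (.e (nat_lit 557094) (nat_lit 12) (.e (nat_lit 164022) (nat_lit 46) .nil))))) (.g (nat_lit 0) (.e (nat_lit 78518) (nat_lit 0) .nil) .nil)))))) (.nd (nat_lit 7) (.nd (nat_lit 8) (.nd (nat_lit 9) 
(.lf (nat_lit 467016) (.g (nat_lit 2997) (.e (nat_lit 3253) (nat_lit 197) (.e (nat_lit 532501) (nat_lit 1) (.e (nat_lit 57852) (nat_lit 252) (.e (nat_lit 57354) (nat_lit 0) (.e (nat_lit 1855) (nat_lit 124) (.e (nat_lit 557105) (nat_lit 14) (.e (nat_lit 180252) (nat_lit 10) (.e (nat_lit 573480) (nat_lit 13) (.e (nat_lit 65637) (nat_lit 15) .nil))))))))) (.g (nat_lit 1) (.e (nat_lit 77423) (nat_lit 0) .nil) .nil))) 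
(.lf (nat_lit 467528) (.g (nat_lit 2385) (.e (nat_lit 3253) (nat_lit 197) (.e (nat_lit 532504) (nat_lit 1) (.e (nat_lit 57852) (nat_lit 252) (.e (nat_lit 57377) (nat_lit 3) (.e (nat_lit 98313) (nat_lit 9) .nil))))) (.g (nat_lit 0) (.e (nat_lit 78004) (nat_lit 0) .nil) .nil)))) (.nd (nat_lit 9) 
(.lf (nat_lit 467272) (.g (nat_lit 3027) (.e (nat_lit 3253) (nat_lit 197) (.e (nat_lit 532503) (nat_lit 1) (.e (nat_lit 57844) (nat_lit 252) (.e (nat_lit 57406) (nat_lit 12) (.e (nat_lit 336456) (nat_lit 34) (.e (nat_lit 483391) (nat_lit 23) (.e (nat_lit 336300) (nat_lit 15) .nil))))))) (.g (nat_lit 1) (.e (nat_lit 77733) (nat_lit 0) .nil) .nil))) 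
(.lf (nat_lit 467784) (.g (nat_lit 2761) (.e (nat_lit 3253) (nat_lit 197) (.e (nat_lit 532550) (nat_lit 12) (.e (nat_lit 360474) (nat_lit 8) (.e (nat_lit 557094) (nat_lit 12) .nil)))) (.g (nat_lit 0) (.e (nat_lit 78373) (nat_lit 0) .nil) .nil))))) (.nd (nat_lit 8) (.nd (nat_lit 9) 
(.lf (nat_lit 467144) (.g (nat_lit 3970) (.e (nat_lit 3253) (nat_lit 197) (.e (nat_lit 532501) (nat_lit 1) (.e (nat_lit 57927) (nat_lit 282) (.e (nat_lit 163868) (nat_lit 2) (.e (nat_lit 196670) (nat_lit 14) (.e (nat_lit 73746) (nat_lit 3) (.e (nat_lit 516129) (nat_lit 3) (.e (nat_lit 221203) (nat_lit 20) .nil)))))))) (.g (nat_lit 1) (.e (nat_lit 77573) (nat_lit 0) .nil) .nil))) 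
(.lf (nat_lit 467656) (.g (nat_lit 4115) (.e (nat_lit 3253) (nat_lit 197) (.e (nat_lit 532504) (nat_lit 1) (.e (nat_lit 57931) (nat_lit 282) (.e (nat_lit 163867) (nat_lit 2) (.e (nat_lit 196668) (nat_lit 14) (.e (nat_lit 73746) (nat_lit 3) (.e (nat_lit 516129) (nat_lit 3) (.e (nat_lit 221204) (nat_lit 20) .nil)))))))) (.g (nat_lit 1) (.e (nat_lit 78140) (nat_lit 0) .nil) .nil)))) (.nd (nat_lit 9) 
(.lf (nat_lit 467400) (.g (nat_lit 3237) (.e (nat_lit 3253) (nat_lit 197) (.e (nat_lit 532503) (nat_lit 1) (.e (nat_lit 57929) (nat_lit 282) (.e (nat_lit 163874) (nat_lit 3) (.e (nat_lit 204854) (nat_lit 26) (.e (nat_lit 336019) (nat_lit 3) (.e (nat_lit 98342) (nat_lit 20) (.e (nat_lit 221204) (nat_lit 20) .nil)))))))) (.g (nat_lit 1) (.e (nat_lit 77867) (nat_lit 0) .nil) .nil))) 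
(.lf (nat_lit 467912) (.g (nat_lit 2603) (.e (nat_lit 3255) (nat_lit 197) (.e (nat_lit 532563) (nat_lit 15) (.e (nat_lit 385094) (nat_lit 49) (.e (nat_lit 778318) (nat_lit 3) (.e (nat_lit 57476) (nat_lit 28) (.e (nat_lit 557107) (nat_lit 15) (.e (nat_lit 188440) (nat_lit 20) .nil))))))) (.g (nat_lit 1) (.e (nat_lit 78628) (nat_lit 0) .nil) .nil))))))) 
(.nd (nat_lit 6) (.nd (nat_lit 7) (.nd (nat_lit 8) (.nd (nat_lit 9) 
(.lf (nat_lit 466984) (.g (nat_lit 4854) (.e (nat_lit 3253) (nat_lit 197) (.e (nat_lit 532499) (nat_lit 1) (.e (nat_lit 57931) (nat_lit 282) (.e (nat_lit 163869) (nat_lit 2) (.e (nat_lit 196670) (nat_lit 14) (.e (nat_lit 73746) (nat_lit 3) (.e (nat_lit 516129) (nat_lit 3) (.e (nat_lit 221204) (nat_lit 20) .nil)))))))) (.g (nat_lit 1) (.e (nat_lit 77390) (nat_lit 0) .nil) .nil))) 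
(.lf (nat_lit 467496) (.g (nat_lit 2023) (.e (nat_lit 3253) (nat_lit 197) (.e (nat_lit 532504) (nat_lit 1) (.e (nat_lit 57851) (nat_lit 252) (.e (nat_lit 57406) (nat_lit 12) (.e (nat_lit 336367) (nat_lit 27) (.e (nat_lit 426555) (nat_lit 32) (.e (nat_lit 384768) (nat_lit 0) .nil))))))) (.g (nat_lit 1) (.e (nat_lit 77972) (nat_lit 0) .nil) .nil)))) (.nd (nat_lit 9) 
(.lf (nat_lit 467240) (.g (nat_lit 3443) (.e (nat_lit 3253) (nat_lit 197) (.e (nat_lit 532501) (nat_lit 1) (.e (nat_lit 57931) (nat_lit 282) (.e (nat_lit 163869) (nat_lit 2) (.e (nat_lit 196663) (nat_lit 13) (.e (nat_lit 65571) (nat_lit 3) (.e (nat_lit 98341) (nat_lit 20) (.e (nat_lit 221204) (nat_lit 20) .nil)))))))) (.g (nat_lit 1) (.e (nat_lit 77697) (nat_lit 0) .nil) .nil))) 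
(.lf (nat_lit 467752) (.g (nat_lit 3303) (.e (nat_lit 3253) (nat_lit 197) (.e (nat_lit 532523) (nat_lit 7) (.e (nat_lit 319534) (nat_lit 16) (.e (nat_lit 286734) (nat_lit 3) (.e (nat_lit 98382) (nat_lit 31) (.e (nat_lit 466967) (nat_lit 20) .nil)))))) (.g (nat_lit 1) (.e (nat_lit 78297) (nat_lit 0) .nil) .nil))))) (.nd (nat_lit 8) (.nd (nat_lit 9) 
(.lf (nat_lit 467112) (.g (nat_lit 2312) (.e (nat_lit 3253) (nat_lit 197) (.e (nat_lit 532501) (nat_lit 1) (.e (nat_lit 57926) (nat_lit 282) (.e (nat_lit 163875) (nat_lit 3) (.e (nat_lit 204851) (nat_lit 26) (.e (nat_lit 336019) (nat_lit 3) (.e (nat_lit 98342) (nat_lit 20) (.e (nat_lit 221204) (nat_lit 20) .nil)))))))) (.g (nat_lit 1) (.e (nat_lit 77537) (nat_lit 0) .nil) .nil))) 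
(.lf (nat_lit 467624) (.g (nat_lit 2394) (.e (nat_lit 3253) (nat_lit 197) (.e (nat_lit 532504) (nat_lit 1) (.e (nat_lit 57929) (nat_lit 282) (.e (nat_lit 163869) (nat_lit 2) (.e (nat_lit 196668) (nat_lit 14) (.e (nat_lit 73746) (nat_lit 3) (.e (nat_lit 516129) (nat_lit 3) (.e (nat_lit 221203) (nat_lit 20) .nil)))))))) (.g (nat_lit 1) (.e (nat_lit 78104) (nat_lit 0) .nil) .nil)))) (.nd (nat_lit 9) 
(.lf (nat_lit 467368) (.g (nat_lit 2926) (.e (nat_lit 3253) (nat_lit 197) (.e (nat_lit 532503) (nat_lit 1) (.e (nat_lit 57924) (nat_lit 282) (.e (nat_lit 163867) (nat_lit 2) (.e (nat_lit 196670) (nat_lit 14) (.e (nat_lit 73746) (nat_lit 3) (.e (nat_lit 516131) (nat_lit 3) (.e (nat_lit 221203) (nat_lit 20) .nil)))))))) (.g (nat_lit 1) (.e (nat_lit 77829) (nat_lit 0) .nil) .nil))) 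
(.lf (nat_lit 467880) (.g (nat_lit 5242) (.e (nat_lit 3255) (nat_lit 197) (.e (nat_lit 532535) (nat_lit 9) (.e (nat_lit 336099) (nat_lit 9) (.e (nat_lit 336013) (nat_lit 2) (.e (nat_lit 90121) (nat_lit 9) .nil))))) (.g (nat_lit 0) (.e (nat_lit 78596) (nat_lit 0) .nil) .nil)))))) (.nd (nat_lit 7) (.nd (nat_lit 8) (.nd (nat_lit 9) 
(.lf (nat_lit 467048) (.g (nat_lit 1314) (.e (nat_lit 3253) (nat_lit 197) (.e (nat_lit 532501) (nat_lit 1) (.e (nat_lit 57854) (nat_lit 252) (.e (nat_lit 57446) (nat_lit 19) (.e (nat_lit 401152) (nat_lit 11) (.e (nat_lit 360192) (nat_lit 0) .nil)))))) (.g (nat_lit 1) (.e (nat_lit 77455) (nat_lit 0) .nil) .nil))) 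
(.lf (nat_lit 467560) (.g (nat_lit 2362) (.e (nat_lit 3253) (nat_lit 197) (.e (nat_lit 532504) (nat_lit 1) (.e (nat_lit 57852) (nat_lit 252) (.e (nat_lit 57447) (nat_lit 19) (.e (nat_lit 401152) (nat_lit 11) (.e (nat_lit 352267) (nat_lit 0) .nil)))))) (.g (nat_lit 1) (.e (nat_lit 78036) (nat_lit 0) .nil) .nil)))) (.nd (nat_lit 9) 
(.lf (nat_lit 467304) (.g (nat_lit 1782) (.e (nat_lit 3253) (nat_lit 197) (.e (nat_lit 532503) (nat_lit 1) (.e (nat_lit 57847) (nat_lit 252) (.e (nat_lit 57445) (nat_lit 19) (.e (nat_lit 393229) (nat_lit 9) (.e (nat_lit 336086) (nat_lit 9) (.e (nat_lit 336263) (nat_lit 15) .nil))))))) (.g (nat_lit 1) (.e (nat_lit 77765) (nat_lit 0) .nil) .nil))) 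
(.lf (nat_lit 467816) (.g (nat_lit 2822) (.e (nat_lit 3253) (nat_lit 197) (.e (nat_lit 532566) (nat_lit 15) (.e (nat_lit 385093) (nat_lit 49) (.e (nat_lit 778318) (nat_lit 3) (.e (nat_lit 57476) (nat_lit 28) (.e (nat_lit 557107) (nat_lit 15) (.e (nat_lit 196352) (nat_lit 20) .nil))))))) (.g (nat_lit 1) (.e (nat_lit 78471) (nat_lit 0) .nil) .nil))))) (.nd (nat_lit 8) (.nd (nat_lit 9) 
(.lf (nat_lit 467176) (.g (nat_lit 3134) (.e (nat_lit 3253) (nat_lit 197) (.e (nat_lit 532501) (nat_lit 1) (.e (nat_lit 57927) (nat_lit 282) (.e (nat_lit 163874) (nat_lit 3) (.e (nat_lit 204853) (nat_lit 26) (.e (nat_lit 336019) (nat_lit 3) (.e (nat_lit 98341) (nat_lit 20) (.e (nat_lit 221204) (nat_lit 20) .nil)))))))) (.g (nat_lit 1) (.e (nat_lit 77620) (nat_lit 0) .nil) .nil))) 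
(.lf (nat_lit 467688) (.g (nat_lit 3095) (.e (nat_lit 3253) (nat_lit 197) (.e (nat_lit 532504) (nat_lit 1) (.e (nat_lit 57931) (nat_lit 282) (.e (nat_lit 163874) (nat_lit 3) (.e (nat_lit 204853) (nat_lit 26) (.e (nat_lit 336019) (nat_lit 3) (.e (nat_lit 98342) (nat_lit 20) (.e (nat_lit 221204) (nat_lit 20) .nil)))))))) (.g (nat_lit 1) (.e (nat_lit 78176) (nat_lit 0) .nil) .nil)))) 
(.nd (nat_lit 9) 
(.lf (nat_lit 467432) (.g (nat_lit 2769) (.e (nat_lit 3253) (nat_lit 197) (.e (nat_lit 532503) (nat_lit 1) (.e (nat_lit 57931) (nat_lit 282) (.e (nat_lit 163866) (nat_lit 2) (.e (nat_lit 196668) (nat_lit 14) (.e (nat_lit 73747) (nat_lit 3) (.e (nat_lit 516131) (nat_lit 3) (.e (nat_lit 221204) (nat_lit 20) .nil)))))))) (.g (nat_lit 1) (.e (nat_lit 77902) (nat_lit 0) .nil) .nil))) 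
(.lf (nat_lit 467944) (.g (nat_lit 3546) (.e (nat_lit 3256) (nat_lit 197) (.e (nat_lit 532504) (nat_lit 1) (.e (nat_lit 57851) (nat_lit 252) (.e (nat_lit 57406) (nat_lit 12) (.e (nat_lit 336456) (nat_lit 34) (.e (nat_lit 483383) (nat_lit 23) (.e (nat_lit 336258) (nat_lit 15) .nil))))))) (.g (nat_lit 1) (.e (nat_lit 78663) (nat_lit 0) .nil) .nil)))))))) 
(.nd (nat_lit 5) (.nd (nat_lit 6) (.nd (nat_lit 7) (.nd (nat_lit 8) (.nd (nat_lit 9) 
(.lf (nat_lit 466968) (.g (nat_lit 2402) (.e (nat_lit 3253) (nat_lit 197) (.e (nat_lit 532499) (nat_lit 1) (.e (nat_lit 57931) (nat_lit 282) (.e (nat_lit 163867) (nat_lit 2) (.e (nat_lit 196668) (nat_lit 14) (.e (nat_lit 73747) (nat_lit 3) (.e (nat_lit 516131) (nat_lit 3) (.e (nat_lit 221204) (nat_lit 20) .nil)))))))) (.g (nat_lit 1) (.e (nat_lit 77373) (nat_lit 0) .nil) .nil))) 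
(.lf (nat_lit 467480) (.g (nat_lit 2635) (.e (nat_lit 3253) (nat_lit 197) (.e (nat_lit 532503) (nat_lit 1) (.e (nat_lit 57931) (nat_lit 282) (.e (nat_lit 163874) (nat_lit 3) (.e (nat_lit 204862) (nat_lit 27) (.e (nat_lit 344117) (nat_lit 21) (.e (nat_lit 516129) (nat_lit 3) (.e (nat_lit 221203) (nat_lit 20) .nil)))))))) (.g (nat_lit 1) (.e (nat_lit 77956) (nat_lit 0) .nil) .nil)))) 
(.nd (nat_lit 9) 
(.lf (nat_lit 467224) (.g (nat_lit 2947) (.e (nat_lit 3253) (nat_lit 197) (.e (nat_lit 532501) (nat_lit 1) (.e (nat_lit 57929) (nat_lit 282) (.e (nat_lit 163869) (nat_lit 2) (.e (nat_lit 196670) (nat_lit 14) (.e (nat_lit 73746) (nat_lit 3) (.e (nat_lit 516131) (nat_lit 3) (.e (nat_lit 221204) (nat_lit 20) .nil)))))))) (.g (nat_lit 1) (.e (nat_lit 77681) (nat_lit 0) .nil) .nil))) 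
(.lf (nat_lit 467736) (.g (nat_lit 2667) (.e (nat_lit 3253) (nat_lit 197) (.e (nat_lit 532523) (nat_lit 7) (.e (nat_lit 319528) (nat_lit 16) (.e (nat_lit 286735) (nat_lit 3) (.e (nat_lit 98382) (nat_lit 31) (.e (nat_lit 466967) (nat_lit 20) .nil)))))) (.g (nat_lit 1) (.e (nat_lit 78280) (nat_lit 0) .nil) .nil))))) (.nd (nat_lit 8) (.nd (nat_lit 9) 
(.lf (nat_lit 467096) (.g (nat_lit 3314) (.e (nat_lit 3253) (nat_lit 197) (.e (nat_lit 532501) (nat_lit 1) (.e (nat_lit 57926) (nat_lit 282) (.e (nat_lit 163869) (nat_lit 2) (.e (nat_lit 196668) (nat_lit 14) (.e (nat_lit 73747) (nat_lit 3) (.e (nat_lit 516131) (nat_lit 3) (.e (nat_lit 221204) (nat_lit 20) .nil)))))))) (.g (nat_lit 1) (.e (nat_lit 77511) (nat_lit 0) .nil) .nil))) 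
(.lf (nat_lit 467608) (.g (nat_lit 4017) (.e (nat_lit 3253) (nat_lit 197) (.e (nat_lit 532504) (nat_lit 1) (.e (nat_lit 57924) (nat_lit 282) (.e (nat_lit 163875) (nat_lit 3) (.e (nat_lit 204862) (nat_lit 27) (.e (nat_lit 344117) (nat_lit 21) (.e (nat_lit 516130) (nat_lit 3) (.e (nat_lit 221204) (nat_lit 20) .nil)))))))) (.g (nat_lit 1) (.e (nat_lit 78088) (nat_lit 0) .nil) .nil)))) 
(.nd (nat_lit 9) 
(.lf (nat_lit 467352) (.g (nat_lit 2125) (.e (nat_lit 3253) (nat_lit 197) (.e (nat_lit 532503) (nat_lit 1) (.e (nat_lit 57849) (nat_lit 252) (.e (nat_lit 57407) (nat_lit 12) (.e (nat_lit 336456) (nat_lit 34) .nil))))) (.g (nat_lit 0) (.e (nat_lit 77813) (nat_lit 0) .nil) .nil))) 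
(.lf (nat_lit 467864) (.g (nat_lit 2606) (.e (nat_lit 3255) (nat_lit 197) (.e (nat_lit 532504) (nat_lit 1) (.e (nat_lit 57851) (nat_lit 252) (.e (nat_lit 57406) (nat_lit 12) (.e (nat_lit 336456) (nat_lit 34) .nil))))) (.g (nat_lit 0) (.e (nat_lit 78551) (nat_lit 0) .nil) .nil)))))) (.nd (nat_lit 7) (.nd (nat_lit 8) (.nd (nat_lit 9) 
(.lf (nat_lit 467032) (.g (nat_lit 2509) (.e (nat_lit 3253) (nat_lit 197) (.e (nat_lit 532501) (nat_lit 1) (.e (nat_lit 57854) (nat_lit 252) (.e (nat_lit 57406) (nat_lit 12) (.e (nat_lit 336367) (nat_lit 27) (.e (nat_lit 426542) (nat_lit 29) (.e (nat_lit 360192) (nat_lit 0) .nil))))))) (.g (nat_lit 1) (.e (nat_lit 77439) (nat_lit 0) .nil) .nil))) 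
(.lf (nat_lit 467544) (.g (nat_lit 2522) (.e (nat_lit 3253) (nat_lit 197) (.e (nat_lit 532504) (nat_lit 1) (.e (nat_lit 57852) (nat_lit 252) (.e (nat_lit 57406) (nat_lit 12) (.e (nat_lit 336454) (nat_lit 34) (.e (nat_lit 483385) (nat_lit 23) (.e (nat_lit 336270) (nat_lit 15) .nil))))))) (.g (nat_lit 1) (.e (nat_lit 78020) (nat_lit 0) .nil) .nil)))) (.nd (nat_lit 9) 
(.lf (nat_lit 467288) (.g (nat_lit 2789) (.e (nat_lit 3253) (nat_lit 197) (.e (nat_lit 532503) (nat_lit 1) (.e (nat_lit 57847) (nat_lit 252) (.e (nat_lit 57407) (nat_lit 12) (.e (nat_lit 336367) (nat_lit 27) (.e (nat_lit 426542) (nat_lit 29) (.e (nat_lit 352266) (nat_lit 0) .nil))))))) (.g (nat_lit 1) (.e (nat_lit 77749) (nat_lit 0) .nil) .nil))) 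
(.lf (nat_lit 467800) (.g (nat_lit 6387) (.e (nat_lit 3253) (nat_lit 197) (.e (nat_lit 532550) (nat_lit 12) (.e (nat_lit 360475) (nat_lit 8) (.e (nat_lit 557091) (nat_lit 12) (.e (nat_lit 164022) (nat_lit 46) (.e (nat_lit 704738) (nat_lit 11) (.e (nat_lit 16403) (nat_lit 0) .nil))))))) (.g (nat_lit 1) (.e (nat_lit 78389) (nat_lit 0) .nil) .nil))))) (.nd (nat_lit 8) (.nd (nat_lit 9) 
(.lf (nat_lit 467160) (.g (nat_lit 4653) (.e (nat_lit 3253) (nat_lit 197) (.e (nat_lit 532501) (nat_lit 1) (.e (nat_lit 57927) (nat_lit 282) (.e (nat_lit 163869) (nat_lit 2) (.e (nat_lit 196670) (nat_lit 14) (.e (nat_lit 73746) (nat_lit 3) (.e (nat_lit 516129) (nat_lit 3) (.e (nat_lit 221203) (nat_lit 20) .nil)))))))) (.g (nat_lit 1) (.e (nat_lit 77593) (nat_lit 0) .nil) .nil))) 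
(.lf (nat_lit 467672) (.g (nat_lit 4832) (.e (nat_lit 3253) (nat_lit 197) (.e (nat_lit 532504) (nat_lit 1) (.e (nat_lit 57931) (nat_lit 282) (.e (nat_lit 163869) (nat_lit 2) (.e (nat_lit 196666) (nat_lit 13) (.e (nat_lit 65571) (nat_lit 3) (.e (nat_lit 98342) (nat_lit 20) (.e (nat_lit 221204) (nat_lit 20) .nil)))))))) (.g (nat_lit 1) (.e (nat_lit 78158) (nat_lit 0) .nil) .nil)))) (.nd (nat_lit 9) 
(.lf (nat_lit 467416) (.g (nat_lit 2716) (.e (nat_lit 3253) (nat_lit 197) (.e (nat_lit 532503) (nat_lit 1) (.e (nat_lit 57930) (nat_lit 282) (.e (nat_lit 163869) (nat_lit 2) (.e (nat_lit 196668) (nat_lit 14) (.e (nat_lit 73747) (nat_lit 3) (.e (nat_lit 516129) (nat_lit 3) (.e (nat_lit 221203) (nat_lit 20) .nil)))))))) (.g (nat_lit 1) (.e (nat_lit 77883) (nat_lit 0) .nil) .nil))) 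
(.lf (nat_lit 467928) (.g (nat_lit 2735) (.e (nat_lit 3256) (nat_lit 197) (.e (nat_lit 532501) (nat_lit 1) (.e (nat_lit 57926) (nat_lit 282) (.e (nat_lit 163869) (nat_lit 2) (.e (nat_lit 196670) (nat_lit 14) (.e (nat_lit 73746) (nat_lit 3) (.e (nat_lit 516129) (nat_lit 3) (.e (nat_lit 221196) (nat_lit 20) .nil)))))))) (.g (nat_lit 1) (.e (nat_lit 78647) (nat_lit 0) .nil) .nil))))))) 
(.nd (nat_lit 6) (.nd (nat_lit 7) (.nd (nat_lit 8) (.nd (nat_lit 9) 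
(.lf (nat_lit 467000) (.g (nat_lit 3107) (.e (nat_lit 3253) (nat_lit 197) (.e (nat_lit 532501) (nat_lit 1) (.e (nat_lit 57851) (nat_lit 252) (.e (nat_lit 57406) (nat_lit 12) (.e (nat_lit 336367) (nat_lit 27) (.e (nat_lit 426542) (nat_lit 29) (.e (nat_lit 360192) (nat_lit 0) .nil))))))) (.g (nat_lit 1) (.e (nat_lit 77407) (nat_lit 0) .nil) .nil))) 
(.lf (nat_lit 467512) (.g (nat_lit 2285) (.e (nat_lit 3253) (nat_lit 197) (.e (nat_lit 532504) (nat_lit 1) (.e (nat_lit 57852) (nat_lit 252) (.e (nat_lit 57354) (nat_lit 0) (.e (nat_lit 1855) (nat_lit 124) .nil))))) (.g (nat_lit 0) (.e (nat_lit 77988) (nat_lit 0) .nil) .nil)))) (.nd (nat_lit 9) 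
(.lf (nat_lit 467256) (.g (nat_lit 5155) (.e (nat_lit 3253) (nat_lit 197) (.e (nat_lit 532501) (nat_lit 1) (.e (nat_lit 57931) (nat_lit 282) (.e (nat_lit 163869) (nat_lit 2) (.e (nat_lit 196670) (nat_lit 14) (.e (nat_lit 73746) (nat_lit 3) (.e (nat_lit 516129) (nat_lit 3) (.e (nat_lit 221204) (nat_lit 20) .nil)))))))) (.g (nat_lit 1) (.e (nat_lit 77714) (nat_lit 0) .nil) .nil))) 
(.lf (nat_lit 467768) (.g (nat_lit 517) (.e (nat_lit 3253) (nat_lit 197) (.e (nat_lit 532534) (nat_lit 9) (.e (nat_lit 336211) (nat_lit 13) .nil))) (.g (nat_lit 0) (.e (nat_lit 78347) (nat_lit 0) .nil) .nil))))) (.nd (nat_lit 8) (.nd (nat_lit 9) 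
(.lf (nat_lit 467128) (.g (nat_lit 2480) (.e (nat_lit 3253) (nat_lit 197) (.e (nat_lit 532501) (nat_lit 1) (.e (nat_lit 57927) (nat_lit 282) (.e (nat_lit 163867) (nat_lit 2) (.e (nat_lit 196670) (nat_lit 14) (.e (nat_lit 73746) (nat_lit 3) (.e (nat_lit 516129) (nat_lit 3) (.e (nat_lit 221203) (nat_lit 20) .nil)))))))) (.g (nat_lit 1) (.e (nat_lit 77557) (nat_lit 0) .nil) .nil))) 
(.lf (nat_lit 467640) (.g (nat_lit 2816) (.e (nat_lit 3253) (nat_lit 197) (.e (nat_lit 532504) (nat_lit 1) (.e (nat_lit 57929) (nat_lit 282) (.e (nat_lit 163874) (nat_lit 3) (.e (nat_lit 204853) (nat_lit 26) (.e (nat_lit 336019) (nat_lit 3) (.e (nat_lit 98342) (nat_lit 20) (.e (nat_lit 221204) (nat_lit 20) .nil)))))))) (.g (nat_lit 1) (.e (nat_lit 78122) (nat_lit 0) .nil) .nil)))) 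
(.nd (nat_lit 9) 
(.lf (nat_lit 467384) (.g (nat_lit 1994) (.e (nat_lit 3253) (nat_lit 197) (.e (nat_lit 532503) (nat_lit 1) (.e (nat_lit 57929) (nat_lit 282) (.e (nat_lit 163869) (nat_lit 2) (.e (nat_lit 196664) (nat_lit 13) (.e (nat_lit 65571) (nat_lit 3) (.e (nat_lit 98341) (nat_lit 20) (.e (nat_lit 221204) (nat_lit 20) .nil)))))))) (.g (nat_lit 1) (.e (nat_lit 77850) (nat_lit 0) .nil) .nil))) 
(.lf (nat_lit 467896) (.g (nat_lit 3143) (.e (nat_lit 3255) (nat_lit 197) (.e (nat_lit 532549) (nat_lit 12) (.e (nat_lit 360466) (nat_lit 3) (.e (nat_lit 516139) (nat_lit 7) (.e (nat_lit 409649) (nat_lit 18) (.e (nat_lit 303111) (nat_lit 0) .nil)))))) (.g (nat_lit 1) (.e (nat_lit 78612) (nat_lit 0) .nil) .nil)))))) (.nd (nat_lit 7) (.nd (nat_lit 8) (.nd (nat_lit 9) 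
(.lf (nat_lit 467064) (.g (nat_lit 3817) (.e (nat_lit 3253) (nat_lit 197) (.e (nat_lit 532501) (nat_lit 1) (.e (nat_lit 57924) (nat_lit 282) (.e (nat_lit 163875) (nat_lit 3) (.e (nat_lit 204862) (nat_lit 27) (.e (nat_lit 344117) (nat_lit 21) (.e (nat_lit 516130) (nat_lit 3) (.e (nat_lit 221204) (nat_lit 20) .nil)))))))) (.g (nat_lit 1) (.e (nat_lit 77473) (nat_lit 0) .nil) .nil))) 
(.lf (nat_lit 467576) (.g (nat_lit 1028) (.e (nat_lit 3253) (nat_lit 197) (.e (nat_lit 532504) (nat_lit 1) (.e (nat_lit 57854) (nat_lit 252) (.e (nat_lit 57409) (nat_lit 12) .nil)))) (.g (nat_lit 0) (.e (nat_lit 78052) (nat_lit 0) .nil) .nil)))) (.nd (nat_lit 9) 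
(.lf (nat_lit 467320) (.g (nat_lit 3641) (.e (nat_lit 3253) (nat_lit 197) (.e (nat_lit 532503) (nat_lit 1) (.e (nat_lit 57848) (nat_lit 252) (.e (nat_lit 57355) (nat_lit 0) (.e (nat_lit 1858) (nat_lit 124) (.e (nat_lit 557105) (nat_lit 14) (.e (nat_lit 180252) (nat_lit 10) (.e (nat_lit 573481) (nat_lit 13) (.e (nat_lit 65637) (nat_lit 15) .nil))))))))) (.g (nat_lit 1) (.e (nat_lit 77781) (nat_lit 0) .nil) .nil))) 
(.lf (nat_lit 467832) (.g (nat_lit 1834) (.e (nat_lit 3254) (nat_lit 197) (.e (nat_lit 532504) (nat_lit 1) (.e (nat_lit 57851) (nat_lit 252) (.e (nat_lit 57406) (nat_lit 12) .nil)))) (.g (nat_lit 0) (.e (nat_lit 78495) (nat_lit 0) .nil) .nil))))) (.nd (nat_lit 8) (.nd (nat_lit 9) 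
(.lf (nat_lit 467192) (.g (nat_lit 2397) (.e (nat_lit 3253) (nat_lit 197) (.e (nat_lit 532501) (nat_lit 1) (.e (nat_lit 57927) (nat_lit 282) (.e (nat_lit 163875) (nat_lit 3) (.e (nat_lit 204863) (nat_lit 27) (.e (nat_lit 344117) (nat_lit 21) (.e (nat_lit 516129) (nat_lit 3) (.e (nat_lit 221204) (nat_lit 20) .nil)))))))) (.g (nat_lit 1) (.e (nat_lit 77638) (nat_lit 0) .nil) .nil))) 
(.lf (nat_lit 467704) (.g (nat_lit 1603) (.e (nat_lit 3253) (nat_lit 197) (.e (nat_lit 532511) (nat_lit 2) (.e (nat_lit 106534) (nat_lit 11) (.e (nat_lit 16413) (nat_lit 2) (.e (nat_lit 196672) (nat_lit 15) (.e (nat_lit 89856) (nat_lit 0) .nil)))))) (.g (nat_lit 1) (.e (nat_lit 78192) (nat_lit 0) .nil) .nil)))) (.nd (nat_lit 9) 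
(.lf (nat_lit 467448) (.g (nat_lit 4900) (.e (nat_lit 3253) (nat_lit 197) (.e (nat_lit 532503) (nat_lit 1) (.e (nat_lit 57931) (nat_lit 282) (.e (nat_lit 163867) (nat_lit 2) (.e (nat_lit 196670) (nat_lit 14) (.e (nat_lit 73746) (nat_lit 3) (.e (nat_lit 516129) (nat_lit 3) (.e (nat_lit 221204) (nat_lit 20) .nil)))))))) (.g (nat_lit 1) (.e (nat_lit 77918) (nat_lit 0) .nil) .nil))) 
(.lf (nat_lit 467960) (.g (nat_lit 5267) (.e (nat_lit 3256) (nat_lit 197) (.e (nat_lit 532550) (nat_lit 12) (.e (nat_lit 360474) (nat_lit 8) (.e (nat_lit 557093) (nat_lit 12) (.e (nat_lit 164022) (nat_lit 46) (.e (nat_lit 704738) (nat_lit 11) (.e (nat_lit 16385) (nat_lit 0) .nil))))))) (.g (nat_lit 1) (.e (nat_lit 78740) (nat_lit 0) .nil) .nil)))))))))) 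
(.nd (nat_lit 3) (.nd (nat_lit 4) (.nd (nat_lit 5) (.nd (nat_lit 6) (.nd (nat_lit 7) 
(.nd (nat_lit 8) (.nd (nat_lit 9) 
(.lf (nat_lit 466948) (.g (nat_lit 5017) (.e (nat_lit 3253) (nat_lit 197) (.e (nat_lit 532499) (nat_lit 1) (.e (nat_lit 57927) (nat_lit 282) (.e (nat_lit 163874) (nat_lit 3) (.e (nat_lit 204862) (nat_lit 27) (.e (nat_lit 344117) (nat_lit 21) (.e (nat_lit 516130) (nat_lit 3) (.e (nat_lit 221204) (nat_lit 20) .nil)))))))) (.g (nat_lit 1) (.e (nat_lit 77346) (nat_lit 0) .nil) .nil))) 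
(.lf (nat_lit 467460) (.g (nat_lit 3579) (.e (nat_lit 3253) (nat_lit 197) (.e (nat_lit 532503) (nat_lit 1) (.e (nat_lit 57931) (nat_lit 282) (.e (nat_lit 163869) (nat_lit 2) (.e (nat_lit 196668) (nat_lit 14) (.e (nat_lit 73747) (nat_lit 3) (.e (nat_lit 516130) (nat_lit 3) (.e (nat_lit 221204) (nat_lit 20) .nil)))))))) (.g (nat_lit 1) (.e (nat_lit 77934) (nat_lit 0) .nil) .nil)))) (.nd (nat_lit 9) 
(.lf (nat_lit 467204) (.g (nat_lit 3030) (.e (nat_lit 3253) (nat_lit 197) (.e (nat_lit 532501) (nat_lit 1) (.e (nat_lit 57928) (nat_lit 282) (.e (nat_lit 163868) (nat_lit 2) (.e (nat_lit 196670) (nat_lit 14) (.e (nat_lit 73746) (nat_lit 3) (.e (nat_lit 516129) (nat_lit 3) (.e (nat_lit 221203) (nat_lit 20) .nil)))))))) (.g (nat_lit 1) (.e (nat_lit 77651) (nat_lit 0) .nil) .nil))) 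
(.lf (nat_lit 467716) (.g (nat_lit 2576) (.e (nat_lit 3253) (nat_lit 197) (.e (nat_lit 532513) (nat_lit 3) (.e (nat_lit 114698) (nat_lit 11) (.e (nat_lit 426116) (nat_lit 2) (.e (nat_lit 196672) (nat_lit 15) (.e (nat_lit 81924) (nat_lit 0) .nil)))))) (.g (nat_lit 1) (.e (nat_lit 78212) (nat_lit 0) .nil) .nil))))) (.nd (nat_lit 8) (.nd (nat_lit 9) 
(.lf (nat_lit 467076) (.g (nat_lit 4070) (.e (nat_lit 3253) (nat_lit 197) (.e (nat_lit 532501) (nat_lit 1) (.e (nat_lit 57926) (nat_lit 282) (.e (nat_lit 163868) (nat_lit 2) (.e (nat_lit 196668) (nat_lit 14) (.e (nat_lit 73746) (nat_lit 3) (.e (nat_lit 516129) (nat_lit 3) (.e (nat_lit 221204) (nat_lit 20) .nil)))))))) (.g (nat_lit 1) (.e (nat_lit 77490) (nat_lit 0) .nil) .nil))) 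
(.lf (nat_lit 467588) (.g (nat_lit 1864) (.e (nat_lit 3253) (nat_lit 197) (.e (nat_lit 532504) (nat_lit 1) (.e (nat_lit 57854) (nat_lit 252) (.e (nat_lit 57445) (nat_lit 19) (.e (nat_lit 401152) (nat_lit 11) (.e (nat_lit 360192) (nat_lit 0) .nil)))))) (.g (nat_lit 1) (.e (nat_lit 78064) (nat_lit 0) .nil) .nil)))) (.nd (nat_lit 9) 
(.lf (nat_lit 467332) (.g (nat_lit 2109) (.e (nat_lit 3253) (nat_lit 197) (.e (nat_lit 532503) (nat_lit 1) (.e (nat_lit 57848) (nat_lit 252) (.e (nat_lit 57407) (nat_lit 12) (.e (nat_lit 336456) (nat_lit 34) (.e (nat_lit 483387) (nat_lit 23) (.e (nat_lit 336294) (nat_lit 15) .nil))))))) (.g (nat_lit 1) (.e (nat_lit 77793) (nat_lit 0) .nil) .nil))) 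
(.lf (nat_lit 467844) (.g (nat_lit 2887) (.e (nat_lit 3254) (nat_lit 197) (.e (nat_lit 532535) (nat_lit 9) (.e (nat_lit 336173) (nat_lit 10) (.e (nat_lit 344119) (nat_lit 21) (.e (nat_lit 516139) (nat_lit 7) .nil))))) (.g (nat_lit 0) (.e (nat_lit 78512) (nat_lit 0) .nil) .nil)))))) (.nd (nat_lit 7) (.nd (nat_lit 8) (.nd (nat_lit 9) 
(.lf (nat_lit 467012) (.g (nat_lit 3059) (.e (nat_lit 3253) (nat_lit 197) (.e (nat_lit 532501) (nat_lit 1) (.e (nat_lit 57851) (nat_lit 252) (.e (nat_lit 57406) (nat_lit 12) (.e (nat_lit 336456) (nat_lit 34) (.e (nat_lit 483393) (nat_lit 23) (.e (nat_lit 336293) (nat_lit 15) .nil))))))) (.g (nat_lit 1) (.e (nat_lit 77419) (nat_lit 0) .nil) .nil))) 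
(.lf (nat_lit 467524) (.g (nat_lit 3376) (.e (nat_lit 3253) (nat_lit 197) (.e (nat_lit 532504) (nat_lit 1) (.e (nat_lit 57852) (nat_lit 252) (.e (nat_lit 57373) (nat_lit 2) (.e (nat_lit 90158) (nat_lit 11) (.e (nat_lit 24608) (nat_lit 3) (.e (nat_lit 98341) (nat_lit 20) (.e (nat_lit 221204) (nat_lit 20) .nil)))))))) (.g (nat_lit 1) (.e (nat_lit 78000) (nat_lit 0) .nil) .nil)))) (.nd (nat_lit 9) 
(.lf (nat_lit 467268) (.g (nat_lit 3102) (.e (nat_lit 3253) (nat_lit 197) (.e (nat_lit 532503) (nat_lit 1) (.e (nat_lit 57844) (nat_lit 252) (.e (nat_lit 57406) (nat_lit 12) (.e (nat_lit 336367) (nat_lit 27) (.e (nat_lit 426542) (nat_lit 29) (.e (nat_lit 352267) (nat_lit 0) .nil))))))) (.g (nat_lit 1) (.e (nat_lit 77729) (nat_lit 0) .nil) .nil))) 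
(.lf (nat_lit 467780) (.g (nat_lit 4442) (.e (nat_lit 3253) (nat_lit 197) (.e (nat_lit 532550) (nat_lit 12) (.e (nat_lit 360474) (nat_lit 8) (.e (nat_lit 557093) (nat_lit 12) (.e (nat_lit 164022) (nat_lit 46) (.e (nat_lit 704738) (nat_lit 11) (.e (nat_lit 16402) (nat_lit 0) .nil))))))) (.g (nat_lit 1) (.e (nat_lit 78369) (nat_lit 0) .nil) .nil))))) (.nd (nat_lit 8) (.nd (nat_lit 9) 
(.lf (nat_lit 467140) (.g (nat_lit 4624) (.e (nat_lit 3253) (nat_lit 197) (.e (nat_lit 532501) (nat_lit 1) (.e (nat_lit 57927) (nat_lit 282) (.e (nat_lit 163868) (nat_lit 2) (.e (nat_lit 196668) (nat_lit 14) (.e (nat_lit 73747) (nat_lit 3) (.e (nat_lit 516129) (nat_lit 3) (.e (nat_lit 221204) (nat_lit 20) .nil)))))))) (.g (nat_lit 1) (.e (nat_lit 77569) (nat_lit 0) .nil) .nil))) 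
(.lf (nat_lit 467652) (.g (nat_lit 4027) (.e (nat_lit 3253) (nat_lit 197) (.e (nat_lit 532504) (nat_lit 1) (.e (nat_lit 57931) (nat_lit 282) (.e (nat_lit 163867) (nat_lit 2) (.e (nat_lit 196663) (nat_lit 13) (.e (nat_lit 65571) (nat_lit 3) (.e (nat_lit 98341) (nat_lit 20) (.e (nat_lit 221204) (nat_lit 20) .nil)))))))) (.g (nat_lit 1) (.e (nat_lit 78136) (nat_lit 0) .nil) .nil)))) (.nd (nat_lit 9) 
(.lf (nat_lit 467396) (.g (nat_lit 3288) (.e (nat_lit 3253) (nat_lit 197) (.e (nat_lit 532503) (nat_lit 1) (.e (nat_lit 57929) (nat_lit 282) (.e (nat_lit 163869) (nat_lit 2) (.e (nat_lit 196670) (nat_lit 14) (.e (nat_lit 73746) (nat_lit 3) (.e (nat_lit 516131) (nat_lit 3) (.e (nat_lit 221204) (nat_lit 20) .nil)))))))) (.g (nat_lit 1) (.e (nat_lit 77862) (nat_lit 0) .nil) .nil))) 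
(.lf (nat_lit 467908) (.g (nat_lit 2180) (.e (nat_lit 3255) (nat_lit 197) (.e (nat_lit 532560) (nat_lit 14) (.e (nat_lit 376867) (nat_lit 23) (.e (nat_lit 98350) (nat_lit 24) (.e (nat_lit 409649) (nat_lit 18) (.e (nat_lit 303111) (nat_lit 0) .nil)))))) (.g (nat_lit 1) (.e (nat_lit 78624) (nat_lit 0) .nil) .nil))))))) (.nd (nat_lit 6) (.nd (nat_lit 7) (.nd (nat_lit 8) (.nd (nat_lit 9) 
(.lf (nat_lit 466980) (.g (nat_lit 3075) (.e (nat_lit 3253) (nat_lit 197) (.e (nat_lit 532499) (nat_lit 1) (.e (nat_lit 57931) (nat_lit 282) (.e (nat_lit 163869) (nat_lit 2) (.e (nat_lit 196668) (nat_lit 14) (.e (nat_lit 73747) (nat_lit 3) (.e (nat_lit 516130) (nat_lit 3) (.e (nat_lit 221204) (nat_lit 20) .nil)))))))) (.g (nat_lit 1) (.e (nat_lit 77386) (nat_lit 0) .nil) .nil))) 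
(.lf (nat_lit 467492) (.g (nat_lit 2109) (.e (nat_lit 3253) (nat_lit 197) (.e (nat_lit 532504) (nat_lit 1) (.e (nat_lit 57851) (nat_lit 252) (.e (nat_lit 57406) (nat_lit 12) (.e (nat_lit 336367) (nat_lit 27) (.e (nat_lit 426542) (nat_lit 29) (.e (nat_lit 352265) (nat_lit 0) .nil))))))) (.g (nat_lit 1) (.e (nat_lit 77968) (nat_lit 0) .nil) .nil)))) (.nd (nat_lit 9) 
(.lf (nat_lit 467236) (.g (nat_lit 2513) (.e (nat_lit 3253) (nat_lit 197) (.e (nat_lit 532501) (nat_lit 1) (.e (nat_lit 57931) (nat_lit 282) (.e (nat_lit 163867) (nat_lit 2) (.e (nat_lit 196668) (nat_lit 14) (.e (nat_lit 73747) (nat_lit 3) (.e (nat_lit 516131) (nat_lit 3) (.e (nat_lit 221204) (nat_lit 20) .nil)))))))) (.g (nat_lit 1) (.e (nat_lit 77693) (nat_lit 0) .nil) .nil))) 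
(.lf (nat_lit 467748) (.g (nat_lit 3054) (.e (nat_lit 3253) (nat_lit 197) (.e (nat_lit 532523) (nat_lit 7) (.e (nat_lit 319533) (nat_lit 16) (.e (nat_lit 286735) (nat_lit 3) (.e (nat_lit 98382) (nat_lit 31) (.e (nat_lit 466967) (nat_lit 20) .nil)))))) (.g (nat_lit 1) (.e (nat_lit 78292) (nat_lit 0) .nil) .nil))))) (.nd (nat_lit 8) (.nd (nat_lit 9) 
(.lf (nat_lit 467108) (.g (nat_lit 3173) (.e (nat_lit 3253) (nat_lit 197) (.e (nat_lit 532501) (nat_lit 1) (.e (nat_lit 57926) (nat_lit 282) (.e (nat_lit 163874) (nat_lit 3) (.e (nat_lit 204854) (nat_lit 26) (.e (nat_lit 336019) (nat_lit 3) (.e (nat_lit 98341) (nat_lit 20) (.e (nat_lit 221204) (nat_lit 20) .nil)))))))) (.g (nat_lit 1) (.e (nat_lit 77533) (nat_lit 0) .nil) .nil))) 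
(.lf (nat_lit 467620) (.g (nat_lit 3502) (.e (nat_lit 3253) (nat_lit 197) (.e (nat_lit 532504) (nat_lit 1) (.e (nat_lit 57929) (nat_lit 282) (.e (nat_lit 163869) (nat_lit 2) (.e (nat_lit 196666) (nat_lit 13) (.e (nat_lit 65569) (nat_lit 3) (.e (nat_lit 98341) (nat_lit 20) (.e (nat_lit 221204) (nat_lit 20) .nil)))))))) (.g (nat_lit 1) (.e (nat_lit 78100) (nat_lit 0) .nil) .nil)))) (.nd (nat_lit 9) 
(.lf (nat_lit 467364) (.g (nat_lit 2822) (.e (nat_lit 3253) (nat_lit 197) (.e (nat_lit 532503) (nat_lit 1) (.e (nat_lit 57924) (nat_lit 282) (.e (nat_lit 163867) (nat_lit 2) (.e (nat_lit 196668) (nat_lit 14) (.e (nat_lit 73747) (nat_lit 3) (.e (nat_lit 516130) (nat_lit 3) (.e (nat_lit 221204) (nat_lit 20) .nil)))))))) (.g (nat_lit 1) (.e (nat_lit 77825) (nat_lit 0) .nil) .nil))) 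
(.lf (nat_lit 467876) (.g (nat_lit 3088) (.e (nat_lit 3255) (nat_lit 197) (.e (nat_lit 532535) (nat_lit 9) (.e (nat_lit 336099) (nat_lit 9) (.e (nat_lit 335925) (nat_lit 0) .nil)))) (.g (nat_lit 0) (.e (nat_lit 78592) (nat_lit 0) .nil) .nil)))))) (.nd (nat_lit 7) (.nd (nat_lit 8) (.nd (nat_lit 9) 
(.lf (nat_lit 467044) (.g (nat_lit 2580) (.e (nat_lit 3253) (nat_lit 197) (.e (nat_lit 532501) (nat_lit 1) (.e (nat_lit 57854) (nat_lit 252) (.e (nat_lit 57445) (nat_lit 19) (.e (nat_lit 393229) (nat_lit 9) (.e (nat_lit 336086) (nat_lit 9) (.e (nat_lit 336270) (nat_lit 15) .nil))))))) (.g (nat_lit 1) (.e (nat_lit 77451) (nat_lit 0) .nil) .nil))) 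
(.lf (nat_lit 467556) (.g (nat_lit 1824) (.e (nat_lit 3253) (nat_lit 197) (.e (nat_lit 532504) (nat_lit 1) (.e (nat_lit 57852) (nat_lit 252) (.e (nat_lit 57446) (nat_lit 19) (.e (nat_lit 401152) (nat_lit 11) (.e (nat_lit 360192) (nat_lit 0) .nil)))))) (.g (nat_lit 1) (.e (nat_lit 78032) (nat_lit 0) .nil) .nil)))) (.nd (nat_lit 9) 
(.lf (nat_lit 467300) (.g (nat_lit 1323) (.e (nat_lit 3253) (nat_lit 197) (.e (nat_lit 532503) (nat_lit 1) (.e (nat_lit 57847) (nat_lit 252) (.e (nat_lit 57411) (nat_lit 12) (.e (nat_lit 336367) (nat_lit 27) (.e (nat_lit 426555) (nat_lit 32) (.e (nat_lit 384768) (nat_lit 0) .nil))))))) (.g (nat_lit 1) (.e (nat_lit 77761) (nat_lit 0) .nil) .nil))) 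
(.lf (nat_lit 467812) (.g (nat_lit 1806) (.e (nat_lit 3253) (nat_lit 197) (.e (nat_lit 532563) (nat_lit 15) (.e (nat_lit 385066) (nat_lit 26) (.e (nat_lit 532534) (nat_lit 9) (.e (nat_lit 336316) (nat_lit 17) (.e (nat_lit 196666) (nat_lit 13) (.e (nat_lit 73472) (nat_lit 15) .nil))))))) (.g (nat_lit 1) (.e (nat_lit 78466) (nat_lit 0) .nil) .nil))))) (.nd (nat_lit 8) (.nd (nat_lit 9) 
(.lf (nat_lit 467172) (.g (nat_lit 2624) (.e (nat_lit 3253) (nat_lit 197) (.e (nat_lit 532501) (nat_lit 1) (.e (nat_lit 57927) (nat_lit 282) (.e (nat_lit 163873) (nat_lit 3) (.e (nat_lit 204851) (nat_lit 26) (.e (nat_lit 336019) (nat_lit 3) (.e (nat_lit 98341) (nat_lit 20) (.e (nat_lit 221204) (nat_lit 20) .nil)))))))) (.g (nat_lit 1) (.e (nat_lit 77615) (nat_lit 0) .nil) .nil))) 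
(.lf (nat_lit 467684) (.g (nat_lit 3180) (.e (nat_lit 3253) (nat_lit 197) (.e (nat_lit 532504) (nat_lit 1) (.e (nat_lit 57931) (nat_lit 282) (.e (nat_lit 163873) (nat_lit 3) (.e (nat_lit 204853) (nat_lit 26) (.e (nat_lit 336019) (nat_lit 3) (.e (nat_lit 98341) (nat_lit 20) (.e (nat_lit 221204) (nat_lit 20) .nil)))))))) (.g (nat_lit 1) (.e (nat_lit 78170) (nat_lit 0) .nil) .nil)))) 
(.nd (nat_lit 9) 
(.lf (nat_lit 467428) (.g (nat_lit 2479) (.e (nat_lit 3253) (nat_lit 197) (.e (nat_lit 532503) (nat_lit 1) (.e (nat_lit 57931) (nat_lit 282) (.e (nat_lit 163866) (nat_lit 2) (.e (nat_lit 196668) (nat_lit 14) (.e (nat_lit 73746) (nat_lit 3) (.e (nat_lit 516129) (nat_lit 3) (.e (nat_lit 221204) (nat_lit 20) .nil)))))))) (.g (nat_lit 1) (.e (nat_lit 77898) (nat_lit 0) .nil) .nil))) 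
(.lf (nat_lit 467940) (.g (nat_lit 1511) (.e (nat_lit 3256) (nat_lit 197) (.e (nat_lit 532503) (nat_lit 1) (.e (nat_lit 57931) (nat_lit 282) (.e (nat_lit 163874) (nat_lit 3) .nil)))) (.g (nat_lit 0) (.e (nat_lit 78659) (nat_lit 0) .nil) .nil)))))))) (.nd (nat_lit 5) (.nd (nat_lit 6) (.nd (nat_lit 7) (.nd (nat_lit 8) (.nd (nat_lit 9) 
(.lf (nat_lit 466964) (.g (nat_lit 3062) (.e (nat_lit 3253) (nat_lit 197) (.e (nat_lit 532499) (nat_lit 1) (.e (nat_lit 57931) (nat_lit 282) (.e (nat_lit 163867) (nat_lit 2) (.e (nat_lit 196663) (nat_lit 13) (.e (nat_lit 65571) (nat_lit 3) (.e (nat_lit 98341) (nat_lit 20) (.e (nat_lit 221204) (nat_lit 20) .nil)))))))) (.g (nat_lit 1) (.e (nat_lit 77369) (nat_lit 0) .nil) .nil))) 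
(.lf (nat_lit 467476) (.g (nat_lit 2217) (.e (nat_lit 3253) (nat_lit 197) (.e (nat_lit 532503) (nat_lit 1) (.e (nat_lit 57931) (nat_lit 282) (.e (nat_lit 163874) (nat_lit 3) (.e (nat_lit 204854) (nat_lit 26) (.e (nat_lit 336019) (nat_lit 3) (.e (nat_lit 98341) (nat_lit 20) (.e (nat_lit 221203) (nat_lit 20) .nil)))))))) (.g (nat_lit 1) (.e (nat_lit 77952) (nat_lit 0) .nil) .nil)))) 
(.nd (nat_lit 9) 
(.lf (nat_lit 467220) (.g (nat_lit 2726) (.e (nat_lit 3253) (nat_lit 197) (.e (nat_lit 532501) (nat_lit 1) (.e (nat_lit 57929) (nat_lit 282) (.e (nat_lit 163869) (nat_lit 2) (.e (nat_lit 196668) (nat_lit 14) (.e (nat_lit 73747) (nat_lit 3) (.e (nat_lit 516131) (nat_lit 3) (.e (nat_lit 221204) (nat_lit 20) .nil)))))))) (.g (nat_lit 1) (.e (nat_lit 77677) (nat_lit 0) .nil) .nil))) 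
(.lf (nat_lit 467732) (.g (nat_lit 2511) (.e (nat_lit 3253) (nat_lit 197) (.e (nat_lit 532522) (nat_lit 7) (.e (nat_lit 319530) (nat_lit 16) (.e (nat_lit 286735) (nat_lit 3) (.e (nat_lit 98381) (nat_lit 31) (.e (nat_lit 466967) (nat_lit 20) .nil)))))) (.g (nat_lit 1) (.e (nat_lit 78272) (nat_lit 0) .nil) .nil))))) (.nd (nat_lit 8) (.nd (nat_lit 9) 
(.lf (nat_lit 467092) (.g (nat_lit 3516) (.e (nat_lit 3253) (nat_lit 197) (.e (nat_lit 532501) (nat_lit 1) (.e (nat_lit 57926) (nat_lit 282) (.e (nat_lit 163869) (nat_lit 2) (.e (nat_lit 196668) (nat_lit 14) (.e (nat_lit 73747) (nat_lit 3) (.e (nat_lit 516129) (nat_lit 3) (.e (nat_lit 221203) (nat_lit 20) .nil)))))))) (.g (nat_lit 1) (.e (nat_lit 77507) (nat_lit 0) .nil) .nil))) 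
(.lf (nat_lit 467604) (.g (nat_lit 2261) (.e (nat_lit 3253) (nat_lit 197) (.e (nat_lit 532504) (nat_lit 1) (.e (nat_lit 57924) (nat_lit 282) (.e (nat_lit 163867) (nat_lit 2) (.e (nat_lit 196670) (nat_lit 14) (.e (nat_lit 73746) (nat_lit 3) (.e (nat_lit 516131) (nat_lit 3) (.e (nat_lit 221203) (nat_lit 20) .nil)))))))) (.g (nat_lit 1) (.e (nat_lit 78080) (nat_lit 0) .nil) .nil)))) (.nd (nat_lit 9) 
(.lf (nat_lit 467348) (.g (nat_lit 2981) (.e (nat_lit 3253) (nat_lit 197) (.e (nat_lit 532503) (nat_lit 1) (.e (nat_lit 57849) (nat_lit 252) (.e (nat_lit 57379) (nat_lit 3) (.e (nat_lit 98342) (nat_lit 20) (.e (nat_lit 221210) (nat_lit 22) (.e (nat_lit 196665) (nat_lit 13) (.e (nat_lit 65637) (nat_lit 15) .nil)))))))) (.g (nat_lit 1) (.e (nat_lit 77809) (nat_lit 0) .nil) .nil))) 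
(.lf (nat_lit 467860) (.g (nat_lit 2438) (.e (nat_lit 3254) (nat_lit 197) (.e (nat_lit 532563) (nat_lit 15) (.e (nat_lit 385066) (nat_lit 26) (.e (nat_lit 532563) (nat_lit 15) (.e (nat_lit 385066) (nat_lit 26) .nil))))) (.g (nat_lit 0) (.e (nat_lit 78530) (nat_lit 0) .nil) .nil)))))) (.nd (nat_lit 7) (.nd (nat_lit 8) (.nd (nat_lit 9) 
(.lf (nat_lit 467028) (.g (nat_lit 352) (.e (nat_lit 3253) (nat_lit 197) (.e (nat_lit 532501) (nat_lit 1) (.e (nat_lit 57854) (nat_lit 252) .nil))) (.g (nat_lit 0) (.e (nat_lit 77435) (nat_lit 0) .nil) .nil))) 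
(.lf (nat_lit 467540) (.g (nat_lit 2838) (.e (nat_lit 3253) (nat_lit 197) (.e (nat_lit 532504) (nat_lit 1) (.e (nat_lit 57852) (nat_lit 252) (.e (nat_lit 57406) (nat_lit 12) (.e (nat_lit 336367) (nat_lit 27) (.e (nat_lit 426555) (nat_lit 32) (.e (nat_lit 376837) (nat_lit 0) .nil))))))) (.g (nat_lit 1) (.e (nat_lit 78016) (nat_lit 0) .nil) .nil)))) (.nd (nat_lit 9) 
(.lf (nat_lit 467284) (.g (nat_lit 1667) (.e (nat_lit 3253) (nat_lit 197) (.e (nat_lit 532503) (nat_lit 1) (.e (nat_lit 57847) (nat_lit 252) (.e (nat_lit 57348) (nat_lit 0) (.e (nat_lit 1795) (nat_lit 119) .nil))))) (.g (nat_lit 0) (.e (nat_lit 77745) (nat_lit 0) .nil) .nil))) 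
(.lf (nat_lit 467796) (.g (nat_lit 7033) (.e (nat_lit 3253) (nat_lit 197) (.e (nat_lit 532550) (nat_lit 12) (.e (nat_lit 360475) (nat_lit 8) (.e (nat_lit 557090) (nat_lit 12) .nil)))) (.g (nat_lit 0) (.e (nat_lit 78385) (nat_lit 0) .nil) .nil))))) (.nd (nat_lit 8) (.nd (nat_lit 9) 
(.lf (nat_lit 467156) (.g (nat_lit 4643) (.e (nat_lit 3253) (nat_lit 197) (.e (nat_lit 532501) (nat_lit 1) (.e (nat_lit 57927) (nat_lit 282) (.e (nat_lit 163869) (nat_lit 2) (.e (nat_lit 196668) (nat_lit 14) (.e (nat_lit 73747) (nat_lit 3) (.e (nat_lit 516129) (nat_lit 3) (.e (nat_lit 221204) (nat_lit 20) .nil)))))))) (.g (nat_lit 1) (.e (nat_lit 77589) (nat_lit 0) .nil) .nil))) 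
(.lf (nat_lit 467668) (.g (nat_lit 3152) (.e (nat_lit 3253) (nat_lit 197) (.e (nat_lit 532504) (nat_lit 1) (.e (nat_lit 57931) (nat_lit 282) (.e (nat_lit 163869) (nat_lit 2) (.e (nat_lit 196664) (nat_lit 13) (.e (nat_lit 65571) (nat_lit 3) (.e (nat_lit 98342) (nat_lit 20) (.e (nat_lit 221204) (nat_lit 20) .nil)))))))) (.g (nat_lit 1) (.e (nat_lit 78152) (nat_lit 0) .nil) .nil)))) (.nd (nat_lit 9) 
(.lf (nat_lit 467412) (.g (nat_lit 3696) (.e (nat_lit 3253) (nat_lit 197) (.e (nat_lit 532503) (nat_lit 1) (.e (nat_lit 57930) (nat_lit 282) (.e (nat_lit 163867) (nat_lit 2) (.e (nat_lit 196670) (nat_lit 14) (.e (nat_lit 73746) (nat_lit 3) (.e (nat_lit 516129) (nat_lit 3) (.e (nat_lit 221203) (nat_lit 20) .nil)))))))) (.g (nat_lit 1) (.e (nat_lit 77879) (nat_lit 0) .nil) .nil))) 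
(.lf (nat_lit 467924) (.g (nat_lit 3070) (.e (nat_lit 3256) (nat_lit 197) (.e (nat_lit 532501) (nat_lit 1) (.e (nat_lit 57851) (nat_lit 252) (.e (nat_lit 57406) (nat_lit 12) (.e (nat_lit 336456) (nat_lit 34) (.e (nat_lit 483383) (nat_lit 23) (.e (nat_lit 336240) (nat_lit 15) .nil))))))) (.g (nat_lit 1) (.e (nat_lit 78642) (nat_lit 0) .nil) .nil))))))) 
(.nd (nat_lit 6) (.nd (nat_lit 7) (.nd (nat_lit 8) (.nd (nat_lit 9) 
(.lf (nat_lit 466996) (.g (nat_lit 3765) (.e (nat_lit 3253) (nat_lit 197) (.e (nat_lit 532501) (nat_lit 1) (.e (nat_lit 57851) (nat_lit 252) (.e (nat_lit 57354) (nat_lit 0) (.e (nat_lit 1855) (nat_lit 124) (.e (nat_lit 557105) (nat_lit 14) (.e (nat_lit 180252) (nat_lit 10) (.e (nat_lit 573480) (nat_lit 13) (.e (nat_lit 65637) (nat_lit 15) .nil))))))))) (.g (nat_lit 1) (.e (nat_lit 77403) (nat_lit 0) .nil) .nil))) 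
(.lf (nat_lit 467508) (.g (nat_lit 1940) (.e (nat_lit 3253) (nat_lit 197) (.e (nat_lit 532504) (nat_lit 1) (.e (nat_lit 57852) (nat_lit 252) (.e (nat_lit 57344) (nat_lit 0) .nil)))) (.g (nat_lit 0) (.e (nat_lit 77984) (nat_lit 0) .nil) .nil)))) (.nd (nat_lit 9) 
(.lf (nat_lit 467252) (.g (nat_lit 3372) (.e (nat_lit 3253) (nat_lit 197) (.e (nat_lit 532501) (nat_lit 1) (.e (nat_lit 57931) (nat_lit 282) (.e (nat_lit 163869) (nat_lit 2) (.e (nat_lit 196668) (nat_lit 14) (.e (nat_lit 73747) (nat_lit 3) (.e (nat_lit 516130) (nat_lit 3) (.e (nat_lit 221204) (nat_lit 20) .nil)))))))) (.g (nat_lit 1) (.e (nat_lit 77710) (nat_lit 0) .nil) .nil))) 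
(.lf (nat_lit 467764) (.g (nat_lit 1807) (.e (nat_lit 3253) (nat_lit 197) (.e (nat_lit 532534) (nat_lit 9) (.e (nat_lit 336019) (nat_lit 3) (.e (nat_lit 98341) (nat_lit 20) .nil)))) (.g (nat_lit 0) (.e (nat_lit 78332) (nat_lit 0) .nil) .nil))))) (.nd (nat_lit 8) (.nd (nat_lit 9) 
(.lf (nat_lit 467124) (.g (nat_lit 2703) (.e (nat_lit 3253) (nat_lit 197) (.e (nat_lit 532501) (nat_lit 1) (.e (nat_lit 57927) (nat_lit 282) (.e (nat_lit 163866) (nat_lit 2) (.e (nat_lit 196670) (nat_lit 14) (.e (nat_lit 73746) (nat_lit 3) (.e (nat_lit 516129) (nat_lit 3) (.e (nat_lit 221203) (nat_lit 20) .nil)))))))) (.g (nat_lit 1) (.e (nat_lit 77553) (nat_lit 0) .nil) .nil))) 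
(.lf (nat_lit 467636) (.g (nat_lit 2668) (.e (nat_lit 3253) (nat_lit 197) (.e (nat_lit 532504) (nat_lit 1) (.e (nat_lit 57929) (nat_lit 282) (.e (nat_lit 163873) (nat_lit 3) (.e (nat_lit 204853) (nat_lit 26) (.e (nat_lit 336019) (nat_lit 3) (.e (nat_lit 98342) (nat_lit 20) (.e (nat_lit 221204) (nat_lit 20) .nil)))))))) (.g (nat_lit 1) (.e (nat_lit 78116) (nat_lit 0) .nil) .nil)))) 
(.nd (nat_lit 9) 
(.lf (nat_lit 467380) (.g (nat_lit 3710) (.e (nat_lit 3253) (nat_lit 197) (.e (nat_lit 532503) (nat_lit 1) (.e (nat_lit 57924) (nat_lit 282) (.e (nat_lit 163875) (nat_lit 3) (.e (nat_lit 204863) (nat_lit 27) (.e (nat_lit 344117) (nat_lit 21) (.e (nat_lit 516130) (nat_lit 3) (.e (nat_lit 221204) (nat_lit 20) .nil)))))))) (.g (nat_lit 1) (.e (nat_lit 77846) (nat_lit 0) .nil) .nil))) 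
(.lf (nat_lit 467892) (.g (nat_lit 3721) (.e (nat_lit 3255) (nat_lit 197) (.e (nat_lit 532535) (nat_lit 9) (.e (nat_lit 336173) (nat_lit 10) (.e (nat_lit 344119) (nat_lit 21) (.e (nat_lit 516139) (nat_lit 7) (.e (nat_lit 409649) (nat_lit 18) (.e (nat_lit 303111) (nat_lit 0) .nil))))))) (.g (nat_lit 1) (.e (nat_lit 78608) (nat_lit 0) .nil) .nil)))))) 
(.nd (nat_lit 7) (.nd (nat_lit 8) (.nd (nat_lit 9) 
(.lf (nat_lit 467060) (.g (nat_lit 4294) (.e (nat_lit 3253) (nat_lit 197) (.e (nat_lit 532501) (nat_lit 1) (.e (nat_lit 57924) (nat_lit 282) (.e (nat_lit 163867) (nat_lit 2) (.e (nat_lit 196670) (nat_lit 14) (.e (nat_lit 73746) (nat_lit 3) (.e (nat_lit 516129) (nat_lit 3) (.e (nat_lit 221204) (nat_lit 20) .nil)))))))) (.g (nat_lit 1) (.e (nat_lit 77467) (nat_lit 0) .nil) .nil))) 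
(.lf (nat_lit 467572) (.g (nat_lit 2887) (.e (nat_lit 3253) (nat_lit 197) (.e (nat_lit 532504) (nat_lit 1) (.e (nat_lit 57854) (nat_lit 252) (.e (nat_lit 57406) (nat_lit 12) (.e (nat_lit 336456) (nat_lit 34) (.e (nat_lit 483387) (nat_lit 23) (.e (nat_lit 336282) (nat_lit 15) .nil))))))) (.g (nat_lit 1) (.e (nat_lit 78048) (nat_lit 0) .nil) .nil)))) (.nd (nat_lit 9) 
(.lf (nat_lit 467316) (.g (nat_lit 1753) (.e (nat_lit 3253) (nat_lit 197) (.e (nat_lit 532503) (nat_lit 1) (.e (nat_lit 57847) (nat_lit 252) (.e (nat_lit 57448) (nat_lit 19) (.e (nat_lit 393227) (nat_lit 9) (.e (nat_lit 336151) (nat_lit 9) (.e (nat_lit 336300) (nat_lit 15) .nil))))))) (.g (nat_lit 1) (.e (nat_lit 77777) (nat_lit 0) .nil) .nil))) 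
(.lf (nat_lit 467828) (.g (nat_lit 1910) (.e (nat_lit 3254) (nat_lit 197) (.e (nat_lit 532503) (nat_lit 1) (.e (nat_lit 57849) (nat_lit 252) (.e (nat_lit 57411) (nat_lit 12) (.e (nat_lit 336454) (nat_lit 34) .nil))))) (.g (nat_lit 0) (.e (nat_lit 78489) (nat_lit 0) .nil) .nil))))) (.nd (nat_lit 8) (.nd (nat_lit 9) 
(.lf (nat_lit 467188) (.g (nat_lit 2376) (.e (nat_lit 3253) (nat_lit 197) (.e (nat_lit 532501) (nat_lit 1) (.e (nat_lit 57927) (nat_lit 282) (.e (nat_lit 163875) (nat_lit 3) (.e (nat_lit 204859) (nat_lit 26) (.e (nat_lit 336017) (nat_lit 3) (.e (nat_lit 98341) (nat_lit 20) (.e (nat_lit 221204) (nat_lit 20) .nil)))))))) (.g (nat_lit 1) (.e (nat_lit 77634) (nat_lit 0) .nil) .nil))) 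
(.lf (nat_lit 467700) (.g (nat_lit 1641) (.e (nat_lit 3253) (nat_lit 197) (.e (nat_lit 532510) (nat_lit 2) (.e (nat_lit 106536) (nat_lit 11) (.e (nat_lit 16413) (nat_lit 2) (.e (nat_lit 196672) (nat_lit 15) (.e (nat_lit 89856) (nat_lit 0) .nil)))))) (.g (nat_lit 1) (.e (nat_lit 78188) (nat_lit 0) .nil) .nil)))) (.nd (nat_lit 9) 
(.lf (nat_lit 467444) (.g (nat_lit 3069) (.e (nat_lit 3253) (nat_lit 197) (.e (nat_lit 532503) (nat_lit 1) (.e (nat_lit 57931) (nat_lit 282) (.e (nat_lit 163867) (nat_lit 2) (.e (nat_lit 196668) (nat_lit 14) (.e (nat_lit 73747) (nat_lit 3) (.e (nat_lit 516130) (nat_lit 3) (.e (nat_lit 221204) (nat_lit 20) .nil)))))))) (.g (nat_lit 1) (.e (nat_lit 77914) (nat_lit 0) .nil) .nil))) 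
(.lf (nat_lit 467956) (.g (nat_lit 4172) (.e (nat_lit 3256) (nat_lit 197) (.e (nat_lit 532550) (nat_lit 12) (.e (nat_lit 360474) (nat_lit 8) (.e (nat_lit 557085) (nat_lit 11) .nil)))) (.g (nat_lit 0) (.e (nat_lit 78736) (nat_lit 0) .nil) .nil))))))))) (.nd (nat_lit 4) (.nd (nat_lit 5) (.nd (nat_lit 6) (.nd (nat_lit 7) (.nd (nat_lit 8) (.nd (nat_lit 9) 
(.lf (nat_lit 466956) (.g (nat_lit 2938) (.e (nat_lit 3253) (nat_lit 197) (.e (nat_lit 532499) (nat_lit 1) (.e (nat_lit 57927) (nat_lit 282) (.e (nat_lit 163875) (nat_lit 3) (.e (nat_lit 204862) (nat_lit 27) (.e (nat_lit 344117) (nat_lit 21) (.e (nat_lit 516129) (nat_lit 3) (.e (nat_lit 221204) (nat_lit 20) .nil)))))))) (.g (nat_lit 1) (.e (nat_lit 77358) (nat_lit 0) .nil) .nil))) 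
(.lf (nat_lit 467468) (.g (nat_lit 2492) (.e (nat_lit 3253) (nat_lit 197) (.e (nat_lit 532503) (nat_lit 1) (.e (nat_lit 57931) (nat_lit 282) (.e (nat_lit 163873) (nat_lit 3) (.e (nat_lit 204851) (nat_lit 26) .nil))))) (.g (nat_lit 0) (.e (nat_lit 77942) (nat_lit 0) .nil) .nil)))) (.nd (nat_lit 9) 
(.lf (nat_lit 467212) (.g (nat_lit 2194) (.e (nat_lit 3253) (nat_lit 197) (.e (nat_lit 532501) (nat_lit 1) (.e (nat_lit 57929) (nat_lit 282) (.e (nat_lit 163867) (nat_lit 2) (.e (nat_lit 196668) (nat_lit 14) (.e (nat_lit 73747) (nat_lit 3) (.e (nat_lit 516129) (nat_lit 3) (.e (nat_lit 221204) (nat_lit 20) .nil)))))))) (.g (nat_lit 1) (.e (nat_lit 77669) (nat_lit 0) .nil) .nil))) 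
(.lf (nat_lit 467724) (.g (nat_lit 1851) (.e (nat_lit 3253) (nat_lit 197) (.e (nat_lit 532515) (nat_lit 3) (.e (nat_lit 114694) (nat_lit 11) (.e (nat_lit 426139) (nat_lit 3) (.e (nat_lit 204877) (nat_lit 31) (.e (nat_lit 376835) (nat_lit 0) .nil)))))) (.g (nat_lit 1) (.e (nat_lit 78230) (nat_lit 0) .nil) .nil))))) (.nd (nat_lit 8) (.nd (nat_lit 9) 
(.lf (nat_lit 467084) (.g (nat_lit 2770) (.e (nat_lit 3253) (nat_lit 197) (.e (nat_lit 532501) (nat_lit 1) (.e (nat_lit 57926) (nat_lit 282) (.e (nat_lit 163868) (nat_lit 2) (.e (nat_lit 196670) (nat_lit 14) (.e (nat_lit 73746) (nat_lit 3) (.e (nat_lit 516131) (nat_lit 3) (.e (nat_lit 221204) (nat_lit 20) .nil)))))))) (.g (nat_lit 1) (.e (nat_lit 77498) (nat_lit 0) .nil) .nil))) 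
(.lf (nat_lit 467596) (.g (nat_lit 2811) (.e (nat_lit 3253) (nat_lit 197) (.e (nat_lit 532504) (nat_lit 1) (.e (nat_lit 57924) (nat_lit 282) (.e (nat_lit 163867) (nat_lit 2) (.e (nat_lit 196663) (nat_lit 13) (.e (nat_lit 65571) (nat_lit 3) (.e (nat_lit 98342) (nat_lit 20) (.e (nat_lit 221204) (nat_lit 20) .nil)))))))) (.g (nat_lit 1) (.e (nat_lit 78072) (nat_lit 0) .nil) .nil)))) (.nd (nat_lit 9) 
(.lf (nat_lit 467340) (.g (nat_lit 2250) (.e (nat_lit 3253) (nat_lit 197) (.e (nat_lit 532503) (nat_lit 1) (.e (nat_lit 57848) (nat_lit 252) (.e (nat_lit 57446) (nat_lit 19) (.e (nat_lit 401152) (nat_lit 11) (.e (nat_lit 352265) (nat_lit 0) .nil)))))) (.g (nat_lit 1) (.e (nat_lit 77801) (nat_lit 0) .nil) .nil))) 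
(.lf (nat_lit 467852) (.g (nat_lit 5279) (.e (nat_lit 3254) (nat_lit 197) (.e (nat_lit 532550) (nat_lit 12) (.e (nat_lit 360475) (nat_lit 8) (.e (nat_lit 557087) (nat_lit 11) .nil)))) (.g (nat_lit 0) (.e (nat_lit 78522) (nat_lit 0) .nil) .nil)))))) (.nd (nat_lit 7) (.nd (nat_lit 8) (.nd (nat_lit 9) 
(.lf (nat_lit 467020) (.g (nat_lit 2716) (.e (nat_lit 3253) (nat_lit 197) (.e (nat_lit 532501) (nat_lit 1) (.e (nat_lit 57852) (nat_lit 252) (.e (nat_lit 57377) (nat_lit 3) (.e (nat_lit 98313) (nat_lit 9) (.e (nat_lit 336027) (nat_lit 3) (.e (nat_lit 98341) (nat_lit 20) (.e (nat_lit 221204) (nat_lit 20) .nil)))))))) (.g (nat_lit 1) (.e (nat_lit 77427) (nat_lit 0) .nil) .nil))) 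
(.lf (nat_lit 467532) (.g (nat_lit 2301) (.e (nat_lit 3253) (nat_lit 197) (.e (nat_lit 532504) (nat_lit 1) (.e (nat_lit 57852) (nat_lit 252) (.e (nat_lit 57378) (nat_lit 3) (.e (nat_lit 98340) (nat_lit 20) .nil))))) (.g (nat_lit 0) (.e (nat_lit 78008) (nat_lit 0) .nil) .nil)))) (.nd (nat_lit 9) 
(.lf (nat_lit 467276) (.g (nat_lit 2186) (.e (nat_lit 3253) (nat_lit 197) (.e (nat_lit 532503) (nat_lit 1) (.e (nat_lit 57844) (nat_lit 252) (.e (nat_lit 57446) (nat_lit 19) (.e (nat_lit 401152) (nat_lit 11) (.e (nat_lit 352266) (nat_lit 0) .nil)))))) (.g (nat_lit 1) (.e (nat_lit 77737) (nat_lit 0) .nil) .nil))) 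
(.lf (nat_lit 467788) (.g (nat_lit 4693) (.e (nat_lit 3253) (nat_lit 197) (.e (nat_lit 532550) (nat_lit 12) (.e (nat_lit 360475) (nat_lit 8) (.e (nat_lit 557065) (nat_lit 9) .nil)))) (.g (nat_lit 0) (.e (nat_lit 78377) (nat_lit 0) .nil) .nil))))) (.nd (nat_lit 8) (.nd (nat_lit 9) 
(.lf (nat_lit 467148) (.g (nat_lit 2986) (.e (nat_lit 3253) (nat_lit 197) (.e (nat_lit 532501) (nat_lit 1) (.e (nat_lit 57927) (nat_lit 282) (.e (nat_lit 163869) (nat_lit 2) (.e (nat_lit 196663) (nat_lit 13) (.e (nat_lit 65571) (nat_lit 3) (.e (nat_lit 98342) (nat_lit 20) (.e (nat_lit 221204) (nat_lit 20) .nil)))))))) (.g (nat_lit 1) (.e (nat_lit 77577) (nat_lit 0) .nil) .nil))) 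
(.lf (nat_lit 467660) (.g (nat_lit 2789) (.e (nat_lit 3253) (nat_lit 197) (.e (nat_lit 532504) (nat_lit 1) (.e (nat_lit 57931) (nat_lit 282) (.e (nat_lit 163867) (nat_lit 2) (.e (nat_lit 196668) (nat_lit 14) (.e (nat_lit 73747) (nat_lit 3) (.e (nat_lit 516130) (nat_lit 3) (.e (nat_lit 221204) (nat_lit 20) .nil)))))))) (.g (nat_lit 1) (.e (nat_lit 78144) (nat_lit 0) .nil) .nil)))) (.nd (nat_lit 9) 
(.lf (nat_lit 467404) (.g (nat_lit 2604) (.e (nat_lit 3253) (nat_lit 197) (.e (nat_lit 532503) (nat_lit 1) (.e (nat_lit 57930) (nat_lit 282) (.e (nat_lit 163867) (nat_lit 2) (.e (nat_lit 196663) (nat_lit 13) (.e (nat_lit 65571) (nat_lit 3) (.e (nat_lit 98342) (nat_lit 20) (.e (nat_lit 221204) (nat_lit 20) .nil)))))))) (.g (nat_lit 1) (.e (nat_lit 77871) (nat_lit 0) .nil) .nil))) 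
(.lf (nat_lit 467916) (.g (nat_lit 2466) (.e (nat_lit 3256) (nat_lit 197) (.e (nat_lit 532499) (nat_lit 1) (.e (nat_lit 57927) (nat_lit 282) (.e (nat_lit 163868) (nat_lit 2) (.e (nat_lit 196668) (nat_lit 14) (.e (nat_lit 73747) (nat_lit 3) (.e (nat_lit 516129) (nat_lit 3) (.e (nat_lit 221196) (nat_lit 20) .nil)))))))) (.g (nat_lit 1) (.e (nat_lit 78633) (nat_lit 0) .nil) .nil))))))) 
(.nd (nat_lit 6) (.nd (nat_lit 7) (.nd (nat_lit 8) (.nd (nat_lit 9) 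
(.lf (nat_lit 466988) (.g (nat_lit 3121) (.e (nat_lit 3253) (nat_lit 197) (.e (nat_lit 532499) (nat_lit 1) (.e (nat_lit 57931) (nat_lit 282) (.e (nat_lit 163874) (nat_lit 3) (.e (nat_lit 204854) (nat_lit 26) (.e (nat_lit 336019) (nat_lit 3) (.e (nat_lit 98341) (nat_lit 20) (.e (nat_lit 221204) (nat_lit 20) .nil)))))))) (.g (nat_lit 1) (.e (nat_lit 77395) (nat_lit 0) .nil) .nil))) 
(.lf (nat_lit 467500) (.g (nat_lit 2090) (.e (nat_lit 3253) (nat_lit 197) (.e (nat_lit 532504) (nat_lit 1) (.e (nat_lit 57851) (nat_lit 252) (.e (nat_lit 57406) (nat_lit 12) (.e (nat_lit 336456) (nat_lit 34) (.e (nat_lit 483386) (nat_lit 23) (.e (nat_lit 336295) (nat_lit 15) .nil))))))) (.g (nat_lit 1) (.e (nat_lit 77976) (nat_lit 0) .nil) .nil)))) (.nd (nat_lit 9) 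
(.lf (nat_lit 467244) (.g (nat_lit 4039) (.e (nat_lit 3253) (nat_lit 197) (.e (nat_lit 532501) (nat_lit 1) (.e (nat_lit 57931) (nat_lit 282) (.e (nat_lit 163869) (nat_lit 2) (.e (nat_lit 196666) (nat_lit 13) (.e (nat_lit 65569) (nat_lit 3) (.e (nat_lit 98341) (nat_lit 20) (.e (nat_lit 221204) (nat_lit 20) .nil)))))))) (.g (nat_lit 1) (.e (nat_lit 77701) (nat_lit 0) .nil) .nil))) 
(.lf (nat_lit 467756) (.g (nat_lit 1952) (.e (nat_lit 3253) (nat_lit 197) (.e (nat_lit 532523) (nat_lit 7) (.e (nat_lit 319535) (nat_lit 17) (.e (nat_lit 294931) (nat_lit 3) .nil)))) (.g (nat_lit 0) (.e (nat_lit 78301) (nat_lit 0) .nil) .nil))))) (.nd (nat_lit 8) (.nd (nat_lit 9) 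
(.lf (nat_lit 467116) (.g (nat_lit 4998) (.e (nat_lit 3253) (nat_lit 197) (.e (nat_lit 532501) (nat_lit 1) (.e (nat_lit 57926) (nat_lit 282) (.e (nat_lit 163875) (nat_lit 3) (.e (nat_lit 204862) (nat_lit 27) (.e (nat_lit 344117) (nat_lit 21) (.e (nat_lit 516130) (nat_lit 3) (.e (nat_lit 221204) (nat_lit 20) .nil)))))))) (.g (nat_lit 1) (.e (nat_lit 77543) (nat_lit 0) .nil) .nil))) 
(.lf (nat_lit 467628) (.g (nat_lit 2773) (.e (nat_lit 3253) (nat_lit 197) (.e (nat_lit 532504) (nat_lit 1) (.e (nat_lit 57929) (nat_lit 282) (.e (nat_lit 163869) (nat_lit 2) (.e (nat_lit 196668) (nat_lit 14) (.e (nat_lit 73747) (nat_lit 3) (.e (nat_lit 516130) (nat_lit 3) (.e (nat_lit 221204) (nat_lit 20) .nil)))))))) (.g (nat_lit 1) (.e (nat_lit 78108) (nat_lit 0) .nil) .nil)))) (.nd (nat_lit 9) 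
(.lf (nat_lit 467372) (.g (nat_lit 2429) (.e (nat_lit 3253) (nat_lit 197) (.e (nat_lit 532503) (nat_lit 1) (.e (nat_lit 57924) (nat_lit 282) (.e (nat_lit 163868) (nat_lit 2) (.e (nat_lit 196668) (nat_lit 14) (.e (nat_lit 73747) (nat_lit 3) (.e (nat_lit 516131) (nat_lit 3) (.e (nat_lit 221204) (nat_lit 20) .nil)))))))) (.g (nat_lit 1) (.e (nat_lit 77833) (nat_lit 0) .nil) .nil))) 
(.lf (nat_lit 467884) (.g (nat_lit 3204) (.e (nat_lit 3255) (nat_lit 197) (.e (nat_lit 532535) (nat_lit 9) (.e (nat_lit 336099) (nat_lit 9) (.e (nat_lit 336013) (nat_lit 2) (.e (nat_lit 98048) (nat_lit 19) .nil))))) (.g (nat_lit 0) (.e (nat_lit 78600) (nat_lit 0) .nil) .nil)))))) (.nd (nat_lit 7) (.nd (nat_lit 8) (.nd (nat_lit 9) 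
(.lf (nat_lit 467052) (.g (nat_lit 2611) (.e (nat_lit 3253) (nat_lit 197) (.e (nat_lit 532501) (nat_lit 1) (.e (nat_lit 57924) (nat_lit 282) (.e (nat_lit 163867) (nat_lit 2) (.e (nat_lit 196663) (nat_lit 13) (.e (nat_lit 65571) (nat_lit 3) (.e (nat_lit 98342) (nat_lit 20) (.e (nat_lit 221204) (nat_lit 20) .nil)))))))) (.g (nat_lit 1) (.e (nat_lit 77459) (nat_lit 0) .nil) .nil))) 
(.lf (nat_lit 467564) (.g (nat_lit 1868) (.e (nat_lit 3253) (nat_lit 197) (.e (nat_lit 532504) (nat_lit 1) (.e (nat_lit 57853) (nat_lit 252) (.e (nat_lit 57446) (nat_lit 19) (.e (nat_lit 401152) (nat_lit 11) (.e (nat_lit 360192) (nat_lit 0) .nil)))))) (.g (nat_lit 1) (.e (nat_lit 78040) (nat_lit 0) .nil) .nil)))) (.nd (nat_lit 9) 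
(.lf (nat_lit 467308) (.g (nat_lit 2246) (.e (nat_lit 3253) (nat_lit 197) (.e (nat_lit 532503) (nat_lit 1) (.e (nat_lit 57847) (nat_lit 252) (.e (nat_lit 57445) (nat_lit 19) (.e (nat_lit 401152) (nat_lit 11) (.e (nat_lit 352266) (nat_lit 0) .nil)))))) (.g (nat_lit 1) (.e (nat_lit 77769) (nat_lit 0) .nil) .nil))) 
(.lf (nat_lit 467820) (.g (nat_lit 2441) (.e (nat_lit 3253) (nat_lit 197) (.e (nat_lit 532569) (nat_lit 16) (.e (nat_lit 401448) (nat_lit 10) (.e (nat_lit 434232) (nat_lit 23) .nil)))) (.g (nat_lit 0) (.e (nat_lit 78475) (nat_lit 0) .nil) .nil))))) (.nd (nat_lit 8) (.nd (nat_lit 9) 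
(.lf (nat_lit 467180) (.g (nat_lit 4422) (.e (nat_lit 3253) (nat_lit 197) (.e (nat_lit 532501) (nat_lit 1) (.e (nat_lit 57927) (nat_lit 282) (.e (nat_lit 163874) (nat_lit 3) (.e (nat_lit 204854) (nat_lit 26) (.e (nat_lit 336019) (nat_lit 3) (.e (nat_lit 98342) (nat_lit 20) (.e (nat_lit 221204) (nat_lit 20) .nil)))))))) (.g (nat_lit 1) (.e (nat_lit 77624) (nat_lit 0) .nil) .nil))) 
(.lf (nat_lit 467692) (.g (nat_lit 2918) (.e (nat_lit 3253) (nat_lit 197) (.e (nat_lit 532504) (nat_lit 1) (.e (nat_lit 57931) (nat_lit 282) (.e (nat_lit 163874) (nat_lit 3) (.e (nat_lit 204872) (nat_lit 30) (.e (nat_lit 368676) (nat_lit 21) (.e (nat_lit 516131) (nat_lit 3) (.e (nat_lit 221204) (nat_lit 20) .nil)))))))) (.g (nat_lit 1) (.e (nat_lit 78180) (nat_lit 0) .nil) .nil)))) 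
(.nd (nat_lit 9) 
(.lf (nat_lit 467436) (.g (nat_lit 2311) (.e (nat_lit 3253) (nat_lit 197) (.e (nat_lit 532503) (nat_lit 1) (.e (nat_lit 57931) (nat_lit 282) (.e (nat_lit 163867) (nat_lit 2) (.e (nat_lit 196663) (nat_lit 13) (.e (nat_lit 65569) (nat_lit 3) (.e (nat_lit 98341) (nat_lit 20) (.e (nat_lit 221204) (nat_lit 20) .nil)))))))) (.g (nat_lit 1) (.e (nat_lit 77906) (nat_lit 0) .nil) .nil))) 
(.lf (nat_lit 467948) (.g (nat_lit 2405) (.e (nat_lit 3256) (nat_lit 197) (.e (nat_lit 532530) (nat_lit 9) (.e (nat_lit 336326) (nat_lit 18) (.e (nat_lit 204852) (nat_lit 26) (.e (nat_lit 336326) (nat_lit 18) (.e (nat_lit 204854) (nat_lit 26) (.e (nat_lit 336258) (nat_lit 15) .nil))))))) (.g (nat_lit 1) (.e (nat_lit 78722) (nat_lit 0) .nil) .nil)))))))) 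
(.nd (nat_lit 5) (.nd (nat_lit 6) (.nd (nat_lit 7) (.nd (nat_lit 8) (.nd (nat_lit 9) 
(.lf (nat_lit 466972) (.g (nat_lit 2900) (.e (nat_lit 3253) (nat_lit 197) (.e (nat_lit 532499) (nat_lit 1) (.e (nat_lit 57931) (nat_lit 282) (.e (nat_lit 163869) (nat_lit 2) (.e (nat_lit 196663) (nat_lit 13) (.e (nat_lit 65571) (nat_lit 3) (.e (nat_lit 98342) (nat_lit 20) (.e (nat_lit 221204) (nat_lit 20) .nil)))))))) (.g (nat_lit 1) (.e (nat_lit 77377) (nat_lit 0) .nil) .nil))) 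
(.lf (nat_lit 467484) (.g (nat_lit 2967) (.e (nat_lit 3253) (nat_lit 197) (.e (nat_lit 532503) (nat_lit 1) (.e (nat_lit 57931) (nat_lit 282) (.e (nat_lit 163874) (nat_lit 3) (.e (nat_lit 204873) (nat_lit 30) (.e (nat_lit 368676) (nat_lit 21) (.e (nat_lit 516131) (nat_lit 3) (.e (nat_lit 221204) (nat_lit 20) .nil)))))))) (.g (nat_lit 1) (.e (nat_lit 77960) (nat_lit 0) .nil) .nil)))) 
(.nd (nat_lit 9) 
(.lf (nat_lit 467228) (.g (nat_lit 1779) (.e (nat_lit 3253) (nat_lit 197) (.e (nat_lit 532501) (nat_lit 1) (.e (nat_lit 57929) (nat_lit 282) (.e (nat_lit 163874) (nat_lit 3) (.e (nat_lit 204872) (nat_lit 30) (.e (nat_lit 368676) (nat_lit 21) (.e (nat_lit 516131) (nat_lit 3) (.e (nat_lit 221204) (nat_lit 20) .nil)))))))) (.g (nat_lit 1) (.e (nat_lit 77685) (nat_lit 0) .nil) .nil))) 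
(.lf (nat_lit 467740) (.g (nat_lit 2862) (.e (nat_lit 3253) (nat_lit 197) (.e (nat_lit 532523) (nat_lit 7) (.e (nat_lit 319532) (nat_lit 16) (.e (nat_lit 286734) (nat_lit 3) (.e (nat_lit 98381) (nat_lit 31) (.e (nat_lit 466967) (nat_lit 20) .nil)))))) (.g (nat_lit 1) (.e (nat_lit 78284) (nat_lit 0) .nil) .nil))))) (.nd (nat_lit 8) (.nd (nat_lit 9) 
(.lf (nat_lit 467100) (.g (nat_lit 3143) (.e (nat_lit 3253) (nat_lit 197) (.e (nat_lit 532501) (nat_lit 1) (.e (nat_lit 57926) (nat_lit 282) (.e (nat_lit 163869) (nat_lit 2) (.e (nat_lit 196670) (nat_lit 14) (.e (nat_lit 73746) (nat_lit 3) (.e (nat_lit 516131) (nat_lit 3) (.e (nat_lit 221203) (nat_lit 20) .nil)))))))) (.g (nat_lit 1) (.e (nat_lit 77515) (nat_lit 0) .nil) .nil))) 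
(.lf (nat_lit 467612) (.g (nat_lit 2037) (.e (nat_lit 3253) (nat_lit 197) (.e (nat_lit 532504) (nat_lit 1) (.e (nat_lit 57929) (nat_lit 282) (.e (nat_lit 163867) (nat_lit 2) (.e (nat_lit 196668) (nat_lit 14) (.e (nat_lit 73747) (nat_lit 3) (.e (nat_lit 516131) (nat_lit 3) (.e (nat_lit 221204) (nat_lit 20) .nil)))))))) (.g (nat_lit 1) (.e (nat_lit 78092) (nat_lit 0) .nil) .nil)))) (.nd (nat_lit 9) 
(.lf (nat_lit 467356) (.g (nat_lit 2001) (.e (nat_lit 3253) (nat_lit 197) (.e (nat_lit 532503) (nat_lit 1) (.e (nat_lit 57924) (nat_lit 282) (.e (nat_lit 163867) (nat_lit 2) (.e (nat_lit 196663) (nat_lit 13) .nil))))) (.g (nat_lit 0) (.e (nat_lit 77817) (nat_lit 0) .nil) .nil))) 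
(.lf (nat_lit 467868) (.g (nat_lit 564) (.e (nat_lit 3255) (nat_lit 197) (.e (nat_lit 532515) (nat_lit 3) (.e (nat_lit 114722) (nat_lit 24) (.e (nat_lit 106533) (nat_lit 10) .nil)))) (.g (nat_lit 0) (.e (nat_lit 78580) (nat_lit 0) .nil) .nil)))))) (.nd (nat_lit 7) (.nd (nat_lit 8) (.nd (nat_lit 9) 
(.lf (nat_lit 467036) (.g (nat_lit 2587) (.e (nat_lit 3253) (nat_lit 197) (.e (nat_lit 532501) (nat_lit 1) (.e (nat_lit 57854) (nat_lit 252) (.e (nat_lit 57406) (nat_lit 12) (.e (nat_lit 336456) (nat_lit 34) (.e (nat_lit 483393) (nat_lit 23) (.e (nat_lit 336291) (nat_lit 15) .nil))))))) (.g (nat_lit 1) (.e (nat_lit 77443) (nat_lit 0) .nil) .nil))) 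
(.lf (nat_lit 467548) (.g (nat_lit 3012) (.e (nat_lit 3253) (nat_lit 197) (.e (nat_lit 532504) (nat_lit 1) (.e (nat_lit 57852) (nat_lit 252) (.e (nat_lit 57406) (nat_lit 12) (.e (nat_lit 336456) (nat_lit 34) (.e (nat_lit 483393) (nat_lit 23) (.e (nat_lit 336293) (nat_lit 15) .nil))))))) (.g (nat_lit 1) (.e (nat_lit 78024) (nat_lit 0) .nil) .nil)))) (.nd (nat_lit 9) 
(.lf (nat_lit 467292) (.g (nat_lit 2284) (.e (nat_lit 3253) (nat_lit 197) (.e (nat_lit 532503) (nat_lit 1) (.e (nat_lit 57847) (nat_lit 252) (.e (nat_lit 57407) (nat_lit 12) (.e (nat_lit 336454) (nat_lit 34) (.e (nat_lit 483385) (nat_lit 23) (.e (nat_lit 336270) (nat_lit 15) .nil))))))) (.g (nat_lit 1) (.e (nat_lit 77753) (nat_lit 0) .nil) .nil))) 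
(.lf (nat_lit 467804) (.g (nat_lit 1343) (.e (nat_lit 3253) (nat_lit 197) (.e (nat_lit 532560) (nat_lit 14) (.e (nat_lit 376842) (nat_lit 11) (.e (nat_lit 426100) (nat_lit 1) .nil)))) (.g (nat_lit 0) (.e (nat_lit 78415) (nat_lit 0) .nil) .nil))))) (.nd (nat_lit 8) (.nd (nat_lit 9) 
(.lf (nat_lit 467164) (.g (nat_lit 3878) (.e (nat_lit 3253) (nat_lit 197) (.e (nat_lit 532501) (nat_lit 1) (.e (nat_lit 57927) (nat_lit 282) (.e (nat_lit 163869) (nat_lit 2) (.e (nat_lit 196670) (nat_lit 14) (.e (nat_lit 73746) (nat_lit 3) (.e (nat_lit 516131) (nat_lit 3) (.e (nat_lit 221204) (nat_lit 20) .nil)))))))) (.g (nat_lit 1) (.e (nat_lit 77597) (nat_lit 0) .nil) .nil))) 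
(.lf (nat_lit 467676) (.g (nat_lit 5221) (.e (nat_lit 3253) (nat_lit 197) (.e (nat_lit 532504) (nat_lit 1) (.e (nat_lit 57931) (nat_lit 282) (.e (nat_lit 163869) (nat_lit 2) (.e (nat_lit 196668) (nat_lit 14) (.e (nat_lit 73747) (nat_lit 3) (.e (nat_lit 516129) (nat_lit 3) (.e (nat_lit 221204) (nat_lit 20) .nil)))))))) (.g (nat_lit 1) (.e (nat_lit 78162) (nat_lit 0) .nil) .nil)))) (.nd (nat_lit 9) 
(.lf (nat_lit 467420) (.g (nat_lit 4068) (.e (nat_lit 3253) (nat_lit 197) (.e (nat_lit 532503) (nat_lit 1) (.e (nat_lit 57930) (nat_lit 282) (.e (nat_lit 163869) (nat_lit 2) (.e (nat_lit 196670) (nat_lit 14) (.e (nat_lit 73746) (nat_lit 3) (.e (nat_lit 516129) (nat_lit 3) (.e (nat_lit 221204) (nat_lit 20) .nil)))))))) (.g (nat_lit 1) (.e (nat_lit 77887) (nat_lit 0) .nil) .nil))) 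
(.lf (nat_lit 467932) (.g (nat_lit 3040) (.e (nat_lit 3256) (nat_lit 197) (.e (nat_lit 532503) (nat_lit 1) (.e (nat_lit 57931) (nat_lit 282) (.e (nat_lit 163869) (nat_lit 2) (.e (nat_lit 196668) (nat_lit 14) (.e (nat_lit 73746) (nat_lit 3) (.e (nat_lit 516129) (nat_lit 3) (.e (nat_lit 221196) (nat_lit 20) .nil)))))))) (.g (nat_lit 1) (.e (nat_lit 78651) (nat_lit 0) .nil) .nil))))))) 
(.nd (nat_lit 6) (.nd (nat_lit 7) (.nd (nat_lit 8) (.nd (nat_lit 9) 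
(.lf (nat_lit 467004) (.g (nat_lit 2858) (.e (nat_lit 3253) (nat_lit 197) (.e (nat_lit 532501) (nat_lit 1) (.e (nat_lit 57851) (nat_lit 252) (.e (nat_lit 57406) (nat_lit 12) (.e (nat_lit 336456) (nat_lit 34) (.e (nat_lit 483379) (nat_lit 23) (.e (nat_lit 336270) (nat_lit 15) .nil))))))) (.g (nat_lit 1) (.e (nat_lit 77411) (nat_lit 0) .nil) .nil))) 
(.lf (nat_lit 467516) (.g (nat_lit 5171) (.e (nat_lit 3253) (nat_lit 197) (.e (nat_lit 532504) (nat_lit 1) (.e (nat_lit 57852) (nat_lit 252) (.e (nat_lit 57355) (nat_lit 0) (.e (nat_lit 1858) (nat_lit 124) (.e (nat_lit 557105) (nat_lit 14) (.e (nat_lit 180252) (nat_lit 10) (.e (nat_lit 573482) (nat_lit 13) (.e (nat_lit 65637) (nat_lit 15) .nil))))))))) (.g (nat_lit 1) (.e (nat_lit 77992) (nat_lit 0) .nil) .nil)))) 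
(.nd (nat_lit 9) 
(.lf (nat_lit 467260) (.g (nat_lit 2400) (.e (nat_lit 3253) (nat_lit 197) (.e (nat_lit 532501) (nat_lit 1) (.e (nat_lit 57931) (nat_lit 282) (.e (nat_lit 163873) (nat_lit 3) (.e (nat_lit 204853) (nat_lit 26) (.e (nat_lit 336019) (nat_lit 3) (.e (nat_lit 98342) (nat_lit 20) (.e (nat_lit 221204) (nat_lit 20) .nil)))))))) (.g (nat_lit 1) (.e (nat_lit 77719) (nat_lit 0) .nil) .nil))) 
(.lf (nat_lit 467772) (.g (nat_lit 3776) (.e (nat_lit 3253) (nat_lit 197) (.e (nat_lit 532535) (nat_lit 9) (.e (nat_lit 336176) (nat_lit 10) (.e (nat_lit 344133) (nat_lit 26) .nil)))) (.g (nat_lit 0) (.e (nat_lit 78358) (nat_lit 0) .nil) .nil))))) (.nd (nat_lit 8) (.nd (nat_lit 9) 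
(.lf (nat_lit 467132) (.g (nat_lit 2338) (.e (nat_lit 3253) (nat_lit 197) (.e (nat_lit 532501) (nat_lit 1) (.e (nat_lit 57927) (nat_lit 282) (.e (nat_lit 163868) (nat_lit 2) (.e (nat_lit 196663) (nat_lit 13) (.e (nat_lit 65571) (nat_lit 3) (.e (nat_lit 98342) (nat_lit 20) (.e (nat_lit 221203) (nat_lit 20) .nil)))))))) (.g (nat_lit 1) (.e (nat_lit 77561) (nat_lit 0) .nil) .nil))) 
(.lf (nat_lit 467644) (.g (nat_lit 2518) (.e (nat_lit 3253) (nat_lit 197) (.e (nat_lit 532504) (nat_lit 1) (.e (nat_lit 57929) (nat_lit 282) (.e (nat_lit 163874) (nat_lit 3) (.e (nat_lit 204873) (nat_lit 30) (.e (nat_lit 368676) (nat_lit 21) (.e (nat_lit 516131) (nat_lit 3) (.e (nat_lit 221204) (nat_lit 20) .nil)))))))) (.g (nat_lit 1) (.e (nat_lit 78126) (nat_lit 0) .nil) .nil)))) 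
(.nd (nat_lit 9) 
(.lf (nat_lit 467388) (.g (nat_lit 2324) (.e (nat_lit 3253) (nat_lit 197) (.e (nat_lit 532503) (nat_lit 1) (.e (nat_lit 57929) (nat_lit 282) (.e (nat_lit 163869) (nat_lit 2) (.e (nat_lit 196668) (nat_lit 14) (.e (nat_lit 73746) (nat_lit 3) (.e (nat_lit 516129) (nat_lit 3) (.e (nat_lit 221203) (nat_lit 20) .nil)))))))) (.g (nat_lit 1) (.e (nat_lit 77854) (nat_lit 0) .nil) .nil))) 
(.lf (nat_lit 467900) (.g (nat_lit 5766) (.e (nat_lit 3255) (nat_lit 197) (.e (nat_lit 532550) (nat_lit 12) (.e (nat_lit 360474) (nat_lit 8) (.e (nat_lit 557091) (nat_lit 12) .nil)))) (.g (nat_lit 0) (.e (nat_lit 78616) (nat_lit 0) .nil) .nil)))))) (.nd (nat_lit 7) (.nd (nat_lit 8) (.nd (nat_lit 9) 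
(.lf (nat_lit 467068) (.g (nat_lit 2260) (.e (nat_lit 3253) (nat_lit 197) (.e (nat_lit 532501) (nat_lit 1) (.e (nat_lit 57925) (nat_lit 282) (.e (nat_lit 163871) (nat_lit 2) (.e (nat_lit 196670) (nat_lit 14) (.e (nat_lit 73746) (nat_lit 3) (.e (nat_lit 516129) (nat_lit 3) (.e (nat_lit 221203) (nat_lit 20) .nil)))))))) (.g (nat_lit 1) (.e (nat_lit 77482) (nat_lit 0) .nil) .nil))) 
(.lf (nat_lit 467580) (.g (nat_lit 2407) (.e (nat_lit 3253) (nat_lit 197) (.e (nat_lit 532504) (nat_lit 1) (.e (nat_lit 57854) (nat_lit 252) (.e (nat_lit 57409) (nat_lit 12) (.e (nat_lit 336374) (nat_lit 27) .nil))))) (.g (nat_lit 0) (.e (nat_lit 78056) (nat_lit 0) .nil) .nil)))) (.nd (nat_lit 9) 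
(.lf (nat_lit 467324) (.g (nat_lit 2170) (.e (nat_lit 3253) (nat_lit 197) (.e (nat_lit 532503) (nat_lit 1) (.e (nat_lit 57848) (nat_lit 252) (.e (nat_lit 57407) (nat_lit 12) (.e (nat_lit 336367) (nat_lit 27) (.e (nat_lit 426555) (nat_lit 32) (.e (nat_lit 376837) (nat_lit 0) .nil))))))) (.g (nat_lit 1) (.e (nat_lit 77785) (nat_lit 0) .nil) .nil))) 
(.lf (nat_lit 467836) (.g (nat_lit 2813) (.e (nat_lit 3254) (nat_lit 197) (.e (nat_lit 532504) (nat_lit 1) (.e (nat_lit 57852) (nat_lit 252) (.e (nat_lit 57409) (nat_lit 12) (.e (nat_lit 336454) (nat_lit 34) (.e (nat_lit 483385) (nat_lit 23) (.e (nat_lit 336260) (nat_lit 15) .nil))))))) (.g (nat_lit 1) (.e (nat_lit 78499) (nat_lit 0) .nil) .nil))))) (.nd (nat_lit 8) (.nd (nat_lit 9) 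
(.lf (nat_lit 467196) (.g (nat_lit 3281) (.e (nat_lit 3253) (nat_lit 197) (.e (nat_lit 532501) (nat_lit 1) (.e (nat_lit 57928) (nat_lit 282) (.e (nat_lit 163868) (nat_lit 2) (.e (nat_lit 196663) (nat_lit 13) (.e (nat_lit 65571) (nat_lit 3) (.e (nat_lit 98341) (nat_lit 20) (.e (nat_lit 221204) (nat_lit 20) .nil)))))))) (.g (nat_lit 1) (.e (nat_lit 77643) (nat_lit 0) .nil) .nil))) 
(.lf (nat_lit 467708) (.g (nat_lit 1990) (.e (nat_lit 3253) (nat_lit 197) (.e (nat_lit 532513) (nat_lit 3) (.e (nat_lit 114694) (nat_lit 11) (.e (nat_lit 426124) (nat_lit 2) (.e (nat_lit 196672) (nat_lit 15) (.e (nat_lit 81924) (nat_lit 0) .nil)))))) (.g (nat_lit 1) (.e (nat_lit 78196) (nat_lit 0) .nil) .nil)))) (.nd (nat_lit 9) 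
(.lf (nat_lit 467452) (.g (nat_lit 4233) (.e (nat_lit 3253) (nat_lit 197) (.e (nat_lit 532503) (nat_lit 1) (.e (nat_lit 57931) (nat_lit 282) (.e (nat_lit 163869) (nat_lit 2) (.e (nat_lit 196666) (nat_lit 13) (.e (nat_lit 65569) (nat_lit 3) (.e (nat_lit 98341) (nat_lit 20) (.e (nat_lit 221204) (nat_lit 20) .nil)))))))) (.g (nat_lit 1) (.e (nat_lit 77923) (nat_lit 0) .nil) .nil))) 
(.lf (nat_lit 467964) (.g (nat_lit 4727) (.e (nat_lit 3256) (nat_lit 197) (.e (nat_lit 532550) (nat_lit 12) (.e (nat_lit 360474) (nat_lit 8) (.e (nat_lit 557094) (nat_lit 12) (.e (nat_lit 164022) (nat_lit 46) (.e (nat_lit 704738) (nat_lit 11) (.e (nat_lit 16385) (nat_lit 0) .nil))))))) (.g (nat_lit 1) (.e (nat_lit 78744) (nat_lit 0) .nil) .nil))))))))))) 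
(.nd (nat_lit 2) (.nd (nat_lit 3) (.nd (nat_lit 4) (.nd (nat_lit 5) (.nd (nat_lit 6) 
(.nd (nat_lit 7) (.nd (nat_lit 8) (.nd (nat_lit 9) 
(.lf (nat_lit 466946) (.g (nat_lit 3040) (.e (nat_lit 3253) (nat_lit 197) (.e (nat_lit 532499) (nat_lit 1) (.e (nat_lit 57927) (nat_lit 282) (.e (nat_lit 163874) (nat_lit 3) (.e (nat_lit 204862) (nat_lit 27) (.e (nat_lit 344117) (nat_lit 21) (.e (nat_lit 516129) (nat_lit 3) (.e (nat_lit 221204) (nat_lit 20) .nil)))))))) (.g (nat_lit 1) (.e (nat_lit 77344) (nat_lit 0) .nil) .nil))) 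
(.lf (nat_lit 467458) (.g (nat_lit 4214) (.e (nat_lit 3253) (nat_lit 197) (.e (nat_lit 532503) (nat_lit 1) (.e (nat_lit 57931) (nat_lit 282) (.e (nat_lit 163869) (nat_lit 2) (.e (nat_lit 196668) (nat_lit 14) (.e (nat_lit 73747) (nat_lit 3) (.e (nat_lit 516129) (nat_lit 3) (.e (nat_lit 221203) (nat_lit 20) .nil)))))))) (.g (nat_lit 1) (.e (nat_lit 77932) (nat_lit 0) .nil) .nil)))) (.nd (nat_lit 9) 
(.lf (nat_lit 467202) (.g (nat_lit 2573) (.e (nat_lit 3253) (nat_lit 197) (.e (nat_lit 532501) (nat_lit 1) (.e (nat_lit 57928) (nat_lit 282) (.e (nat_lit 163868) (nat_lit 2) (.e (nat_lit 196668) (nat_lit 14) (.e (nat_lit 73747) (nat_lit 3) (.e (nat_lit 516131) (nat_lit 3) (.e (nat_lit 221203) (nat_lit 20) .nil)))))))) (.g (nat_lit 1) (.e (nat_lit 77649) (nat_lit 0) .nil) .nil))) 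
(.lf (nat_lit 467714) (.g (nat_lit 2476) (.e (nat_lit 3253) (nat_lit 197) (.e (nat_lit 532513) (nat_lit 3) (.e (nat_lit 114697) (nat_lit 11) (.e (nat_lit 426124) (nat_lit 2) (.e (nat_lit 196672) (nat_lit 15) (.e (nat_lit 81924) (nat_lit 0) .nil)))))) (.g (nat_lit 1) (.e (nat_lit 78207) (nat_lit 0) .nil) .nil))))) (.nd (nat_lit 8) (.nd (nat_lit 9) 
(.lf (nat_lit 467074) (.g (nat_lit 3763) (.e (nat_lit 3253) (nat_lit 197) (.e (nat_lit 532501) (nat_lit 1) (.e (nat_lit 57926) (nat_lit 282) (.e (nat_lit 163868) (nat_lit 2) (.e (nat_lit 196663) (nat_lit 13) (.e (nat_lit 65571) (nat_lit 3) (.e (nat_lit 98341) (nat_lit 20) (.e (nat_lit 221204) (nat_lit 20) .nil)))))))) (.g (nat_lit 1) (.e (nat_lit 77488) (nat_lit 0) .nil) .nil))) 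
(.lf (nat_lit 467586) (.g (nat_lit 2153) (.e (nat_lit 3253) (nat_lit 197) (.e (nat_lit 532504) (nat_lit 1) (.e (nat_lit 57854) (nat_lit 252) (.e (nat_lit 57445) (nat_lit 19) (.e (nat_lit 401152) (nat_lit 11) (.e (nat_lit 352265) (nat_lit 0) .nil)))))) (.g (nat_lit 1) (.e (nat_lit 78062) (nat_lit 0) .nil) .nil)))) (.nd (nat_lit 9) 
(.lf (nat_lit 467330) (.g (nat_lit 2625) (.e (nat_lit 3253) (nat_lit 197) (.e (nat_lit 532503) (nat_lit 1) (.e (nat_lit 57848) (nat_lit 252) (.e (nat_lit 57407) (nat_lit 12) (.e (nat_lit 336456) (nat_lit 34) (.e (nat_lit 483387) (nat_lit 23) (.e (nat_lit 336267) (nat_lit 15) .nil))))))) (.g (nat_lit 1) (.e (nat_lit 77791) (nat_lit 0) .nil) .nil))) 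
(.lf (nat_lit 467842) (.g (nat_lit 3052) (.e (nat_lit 3254) (nat_lit 197) (.e (nat_lit 532535) (nat_lit 9) (.e (nat_lit 336099) (nat_lit 9) (.e (nat_lit 336028) (nat_lit 3) .nil)))) (.g (nat_lit 0) (.e (nat_lit 78510) (nat_lit 0) .nil) .nil)))))) (.nd (nat_lit 7) (.nd (nat_lit 8) (.nd (nat_lit 9) 
(.lf (nat_lit 467010) (.g (nat_lit 2732) (.e (nat_lit 3253) (nat_lit 197) (.e (nat_lit 532501) (nat_lit 1) (.e (nat_lit 57851) (nat_lit 252) (.e (nat_lit 57406) (nat_lit 12) (.e (nat_lit 336456) (nat_lit 34) (.e (nat_lit 483393) (nat_lit 23) (.e (nat_lit 336275) (nat_lit 15) .nil))))))) (.g (nat_lit 1) (.e (nat_lit 77417) (nat_lit 0) .nil) .nil))) 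
(.lf (nat_lit 467522) (.g (nat_lit 1959) (.e (nat_lit 3253) (nat_lit 197) (.e (nat_lit 532504) (nat_lit 1) (.e (nat_lit 57852) (nat_lit 252) (.e (nat_lit 57371) (nat_lit 2) .nil)))) (.g (nat_lit 0) (.e (nat_lit 77998) (nat_lit 0) .nil) .nil)))) (.nd (nat_lit 9) 
(.lf (nat_lit 467266) (.g (nat_lit 450) (.e (nat_lit 3253) (nat_lit 197) (.e (nat_lit 532503) (nat_lit 1) (.e (nat_lit 57844) (nat_lit 252) .nil))) (.g (nat_lit 0) (.e (nat_lit 77727) (nat_lit 0) .nil) .nil))) 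
(.lf (nat_lit 467778) (.g (nat_lit 2482) (.e (nat_lit 3253) (nat_lit 197) (.e (nat_lit 532550) (nat_lit 12) (.e (nat_lit 360474) (nat_lit 8) (.e (nat_lit 557093) (nat_lit 12) .nil)))) (.g (nat_lit 0) (.e (nat_lit 78367) (nat_lit 0) .nil) .nil))))) (.nd (nat_lit 8) (.nd (nat_lit 9) 
(.lf (nat_lit 467138) (.g (nat_lit 3137) (.e (nat_lit 3253) (nat_lit 197) (.e (nat_lit 532501) (nat_lit 1) (.e (nat_lit 57927) (nat_lit 282) (.e (nat_lit 163868) (nat_lit 2) (.e (nat_lit 196668) (nat_lit 14) (.e (nat_lit 73746) (nat_lit 3) (.e (nat_lit 516131) (nat_lit 3) (.e (nat_lit 221204) (nat_lit 20) .nil)))))))) (.g (nat_lit 1) (.e (nat_lit 77567) (nat_lit 0) .nil) .nil))) 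
(.lf (nat_lit 467650) (.g (nat_lit 2818) (.e (nat_lit 3253) (nat_lit 197) (.e (nat_lit 532504) (nat_lit 1) (.e (nat_lit 57931) (nat_lit 282) (.e (nat_lit 163866) (nat_lit 2) (.e (nat_lit 196670) (nat_lit 14) (.e (nat_lit 73746) (nat_lit 3) (.e (nat_lit 516129) (nat_lit 3) (.e (nat_lit 221204) (nat_lit 20) .nil)))))))) (.g (nat_lit 1) (.e (nat_lit 78134) (nat_lit 0) .nil) .nil)))) (.nd (nat_lit 9) 
(.lf (nat_lit 467394) (.g (nat_lit 4432) (.e (nat_lit 3253) (nat_lit 197) (.e (nat_lit 532503) (nat_lit 1) (.e (nat_lit 57929) (nat_lit 282) (.e (nat_lit 163869) (nat_lit 2) (.e (nat_lit 196670) (nat_lit 14) (.e (nat_lit 73746) (nat_lit 3) (.e (nat_lit 516129) (nat_lit 3) (.e (nat_lit 221204) (nat_lit 20) .nil)))))))) (.g (nat_lit 1) (.e (nat_lit 77860) (nat_lit 0) .nil) .nil))) 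
(.lf (nat_lit 467906) (.g (nat_lit 6123) (.e (nat_lit 3255) (nat_lit 197) (.e (nat_lit 532550) (nat_lit 12) (.e (nat_lit 360475) (nat_lit 8) (.e (nat_lit 557091) (nat_lit 12) (.e (nat_lit 164022) (nat_lit 46) (.e (nat_lit 704738) (nat_lit 11) (.e (nat_lit 16397) (nat_lit 0) .nil))))))) (.g (nat_lit 1) (.e (nat_lit 78622) (nat_lit 0) .nil) .nil))))))) 
(.nd (nat_lit 6) (.nd (nat_lit 7) (.nd (nat_lit 8) (.nd (nat_lit 9) 
(.lf (nat_lit 466978) (.g (nat_lit 3684) (.e (nat_lit 3253) (nat_lit 197) (.e (nat_lit 532499) (nat_lit 1) (.e (nat_lit 57931) (nat_lit 282) (.e (nat_lit 163869) (nat_lit 2) (.e (nat_lit 196668) (nat_lit 14) (.e (nat_lit 73747) (nat_lit 3) (.e (nat_lit 516129) (nat_lit 3) (.e (nat_lit 221203) (nat_lit 20) .nil)))))))) (.g (nat_lit 1) (.e (nat_lit 77384) (nat_lit 0) .nil) .nil))) 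
(.lf (nat_lit 467490) (.g (nat_lit 3406) (.e (nat_lit 3253) (nat_lit 197) (.e (nat_lit 532504) (nat_lit 1) (.e (nat_lit 57851) (nat_lit 252) (.e (nat_lit 57354) (nat_lit 0) (.e (nat_lit 1855) (nat_lit 124) (.e (nat_lit 557105) (nat_lit 14) (.e (nat_lit 180252) (nat_lit 10) (.e (nat_lit 573482) (nat_lit 13) (.e (nat_lit 65640) (nat_lit 15) .nil))))))))) (.g (nat_lit 1) (.e (nat_lit 77966) (nat_lit 0) .nil) .nil)))) 
(.nd (nat_lit 9) 
(.lf (nat_lit 467234) (.g (nat_lit 2555) (.e (nat_lit 3253) (nat_lit 197) (.e (nat_lit 532501) (nat_lit 1) (.e (nat_lit 57931) (nat_lit 282) (.e (nat_lit 163867) (nat_lit 2) (.e (nat_lit 196668) (nat_lit 14) (.e (nat_lit 73747) (nat_lit 3) (.e (nat_lit 516129) (nat_lit 3) (.e (nat_lit 221203) (nat_lit 20) .nil)))))))) (.g (nat_lit 1) (.e (nat_lit 77691) (nat_lit 0) .nil) .nil))) 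
(.lf (nat_lit 467746) (.g (nat_lit 2674) (.e (nat_lit 3253) (nat_lit 197) (.e (nat_lit 532523) (nat_lit 7) (.e (nat_lit 319533) (nat_lit 16) (.e (nat_lit 286734) (nat_lit 3) (.e (nat_lit 98379) (nat_lit 31) .nil))))) (.g (nat_lit 0) (.e (nat_lit 78290) (nat_lit 0) .nil) .nil))))) (.nd (nat_lit 8) (.nd (nat_lit 9) 
(.lf (nat_lit 467106) (.g (nat_lit 2843) (.e (nat_lit 3253) (nat_lit 197) (.e (nat_lit 532501) (nat_lit 1) (.e (nat_lit 57926) (nat_lit 282) (.e (nat_lit 163874) (nat_lit 3) (.e (nat_lit 204851) (nat_lit 26) (.e (nat_lit 336019) (nat_lit 3) (.e (nat_lit 98341) (nat_lit 20) (.e (nat_lit 221204) (nat_lit 20) .nil)))))))) (.g (nat_lit 1) (.e (nat_lit 77529) (nat_lit 0) .nil) .nil))) 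
(.lf (nat_lit 467618) (.g (nat_lit 2332) (.e (nat_lit 3253) (nat_lit 197) (.e (nat_lit 532504) (nat_lit 1) (.e (nat_lit 57929) (nat_lit 282) (.e (nat_lit 163869) (nat_lit 2) (.e (nat_lit 196664) (nat_lit 13) (.e (nat_lit 65571) (nat_lit 3) (.e (nat_lit 98341) (nat_lit 20) (.e (nat_lit 221204) (nat_lit 20) .nil)))))))) (.g (nat_lit 1) (.e (nat_lit 78098) (nat_lit 0) .nil) .nil)))) (.nd (nat_lit 9) 
(.lf (nat_lit 467362) (.g (nat_lit 3344) (.e (nat_lit 3253) (nat_lit 197) (.e (nat_lit 532503) (nat_lit 1) (.e (nat_lit 57924) (nat_lit 282) (.e (nat_lit 163867) (nat_lit 2) (.e (nat_lit 196668) (nat_lit 14) (.e (nat_lit 73747) (nat_lit 3) (.e (nat_lit 516129) (nat_lit 3) (.e (nat_lit 221203) (nat_lit 20) .nil)))))))) (.g (nat_lit 1) (.e (nat_lit 77823) (nat_lit 0) .nil) .nil))) 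
(.lf (nat_lit 467874) (.g (nat_lit 3105) (.e (nat_lit 3255) (nat_lit 197) (.e (nat_lit 532535) (nat_lit 9) (.e (nat_lit 336099) (nat_lit 9) (.e (nat_lit 335921) (nat_lit 0) .nil)))) (.g (nat_lit 0) (.e (nat_lit 78590) (nat_lit 0) .nil) .nil)))))) (.nd (nat_lit 7) (.nd (nat_lit 8) (.nd (nat_lit 9) 
(.lf (nat_lit 467042) (.g (nat_lit 1791) (.e (nat_lit 3253) (nat_lit 197) (.e (nat_lit 532501) (nat_lit 1) (.e (nat_lit 57854) (nat_lit 252) (.e (nat_lit 57409) (nat_lit 12) (.e (nat_lit 336456) (nat_lit 34) (.e (nat_lit 483393) (nat_lit 23) (.e (nat_lit 336291) (nat_lit 15) .nil))))))) (.g (nat_lit 1) (.e (nat_lit 77449) (nat_lit 0) .nil) .nil))) 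
(.lf (nat_lit 467554) (.g (nat_lit 2235) (.e (nat_lit 3253) (nat_lit 197) (.e (nat_lit 532504) (nat_lit 1) (.e (nat_lit 57852) (nat_lit 252) (.e (nat_lit 57446) (nat_lit 19) (.e (nat_lit 401152) (nat_lit 11) (.e (nat_lit 352265) (nat_lit 0) .nil)))))) (.g (nat_lit 1) (.e (nat_lit 78030) (nat_lit 0) .nil) .nil)))) (.nd (nat_lit 9) 
(.lf (nat_lit 467298) (.g (nat_lit 2477) (.e (nat_lit 3253) (nat_lit 197) (.e (nat_lit 532503) (nat_lit 1) (.e (nat_lit 57847) (nat_lit 252) (.e (nat_lit 57411) (nat_lit 12) (.e (nat_lit 336367) (nat_lit 27) (.e (nat_lit 426542) (nat_lit 29) (.e (nat_lit 352267) (nat_lit 0) .nil))))))) (.g (nat_lit 1) (.e (nat_lit 77759) (nat_lit 0) .nil) .nil))) 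
(.lf (nat_lit 467810) (.g (nat_lit 2674) (.e (nat_lit 3253) (nat_lit 197) (.e (nat_lit 532563) (nat_lit 15) (.e (nat_lit 385066) (nat_lit 26) (.e (nat_lit 532530) (nat_lit 9) (.e (nat_lit 336326) (nat_lit 18) (.e (nat_lit 204854) (nat_lit 26) (.e (nat_lit 336270) (nat_lit 15) .nil))))))) (.g (nat_lit 1) (.e (nat_lit 78464) (nat_lit 0) .nil) .nil))))) (.nd (nat_lit 8) (.nd (nat_lit 9) 
(.lf (nat_lit 467170) (.g (nat_lit 3896) (.e (nat_lit 3253) (nat_lit 197) (.e (nat_lit 532501) (nat_lit 1) (.e (nat_lit 57927) (nat_lit 282) (.e (nat_lit 163871) (nat_lit 2) (.e (nat_lit 196670) (nat_lit 14) (.e (nat_lit 73746) (nat_lit 3) (.e (nat_lit 516129) (nat_lit 3) (.e (nat_lit 221204) (nat_lit 20) .nil)))))))) (.g (nat_lit 1) (.e (nat_lit 77613) (nat_lit 0) .nil) .nil))) 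
(.lf (nat_lit 467682) (.g (nat_lit 3160) (.e (nat_lit 3253) (nat_lit 197) (.e (nat_lit 532504) (nat_lit 1) (.e (nat_lit 57931) (nat_lit 282) (.e (nat_lit 163869) (nat_lit 2) (.e (nat_lit 196670) (nat_lit 14) (.e (nat_lit 73746) (nat_lit 3) (.e (nat_lit 516131) (nat_lit 3) (.e (nat_lit 221203) (nat_lit 20) .nil)))))))) (.g (nat_lit 1) (.e (nat_lit 78168) (nat_lit 0) .nil) .nil)))) (.nd (nat_lit 9) 
(.lf (nat_lit 467426) (.g (nat_lit 2473) (.e (nat_lit 3253) (nat_lit 197) (.e (nat_lit 532503) (nat_lit 1) (.e (nat_lit 57931) (nat_lit 282) (.e (nat_lit 163866) (nat_lit 2) (.e (nat_lit 196664) (nat_lit 13) (.e (nat_lit 65571) (nat_lit 3) (.e (nat_lit 98341) (nat_lit 20) (.e (nat_lit 221204) (nat_lit 20) .nil)))))))) (.g (nat_lit 1) (.e (nat_lit 77893) (nat_lit 0) .nil) .nil))) 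
(.lf (nat_lit 467938) (.g (nat_lit 2781) (.e (nat_lit 3256) (nat_lit 197) (.e (nat_lit 532503) (nat_lit 1) (.e (nat_lit 57931) (nat_lit 282) (.e (nat_lit 163869) (nat_lit 2) (.e (nat_lit 196670) (nat_lit 14) (.e (nat_lit 73746) (nat_lit 3) (.e (nat_lit 516131) (nat_lit 3) (.e (nat_lit 221196) (nat_lit 20) .nil)))))))) (.g (nat_lit 1) (.e (nat_lit 78657) (nat_lit 0) .nil) .nil)))))))) 
(.nd (nat_lit 5) (.nd (nat_lit 6) (.nd (nat_lit 7) (.nd (nat_lit 8) (.nd (nat_lit 9) 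
(.lf (nat_lit 466962) (.g (nat_lit 2239) (.e (nat_lit 3253) (nat_lit 197) (.e (nat_lit 532499) (nat_lit 1) (.e (nat_lit 57928) (nat_lit 282) (.e (nat_lit 163868) (nat_lit 2) (.e (nat_lit 196668) (nat_lit 14) (.e (nat_lit 73746) (nat_lit 3) (.e (nat_lit 516129) (nat_lit 3) (.e (nat_lit 221204) (nat_lit 20) .nil)))))))) (.g (nat_lit 1) (.e (nat_lit 77366) (nat_lit 0) .nil) .nil))) 
(.lf (nat_lit 467474) (.g (nat_lit 3149) (.e (nat_lit 3253) (nat_lit 197) (.e (nat_lit 532503) (nat_lit 1) (.e (nat_lit 57931) (nat_lit 282) (.e (nat_lit 163874) (nat_lit 3) (.e (nat_lit 204853) (nat_lit 26) (.e (nat_lit 336019) (nat_lit 3) (.e (nat_lit 98341) (nat_lit 20) (.e (nat_lit 221204) (nat_lit 20) .nil)))))))) (.g (nat_lit 1) (.e (nat_lit 77950) (nat_lit 0) .nil) .nil)))) 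
(.nd (nat_lit 9) 
(.lf (nat_lit 467218) (.g (nat_lit 2108) (.e (nat_lit 3253) (nat_lit 197) (.e (nat_lit 532501) (nat_lit 1) (.e (nat_lit 57929) (nat_lit 282) (.e (nat_lit 163869) (nat_lit 2) (.e (nat_lit 196668) (nat_lit 14) (.e (nat_lit 73747) (nat_lit 3) (.e (nat_lit 516130) (nat_lit 3) (.e (nat_lit 221204) (nat_lit 20) .nil)))))))) (.g (nat_lit 1) (.e (nat_lit 77675) (nat_lit 0) .nil) .nil))) 
(.lf (nat_lit 467730) (.g (nat_lit 2392) (.e (nat_lit 3253) (nat_lit 197) (.e (nat_lit 532515) (nat_lit 3) (.e (nat_lit 114719) (nat_lit 23) (.e (nat_lit 98384) (nat_lit 32) (.e (nat_lit 475177) (nat_lit 24) (.e (nat_lit 516117) (nat_lit 1) (.e (nat_lit 164330) (nat_lit 230) (.e (nat_lit 163857) (nat_lit 0) .nil)))))))) (.g (nat_lit 1) (.e (nat_lit 78270) (nat_lit 0) .nil) .nil))))) 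
(.nd (nat_lit 8) (.nd (nat_lit 9) 
(.lf (nat_lit 467090) (.g (nat_lit 2775) (.e (nat_lit 3253) (nat_lit 197) (.e (nat_lit 532501) (nat_lit 1) (.e (nat_lit 57926) (nat_lit 282) (.e (nat_lit 163869) (nat_lit 2) (.e (nat_lit 196668) (nat_lit 14) (.e (nat_lit 73746) (nat_lit 3) (.e (nat_lit 516129) (nat_lit 3) (.e (nat_lit 221203) (nat_lit 20) .nil)))))))) (.g (nat_lit 1) (.e (nat_lit 77505) (nat_lit 0) .nil) .nil))) 
(.lf (nat_lit 467602) (.g (nat_lit 3654) (.e (nat_lit 3253) (nat_lit 197) (.e (nat_lit 532504) (nat_lit 1) (.e (nat_lit 57924) (nat_lit 282) (.e (nat_lit 163867) (nat_lit 2) (.e (nat_lit 196670) (nat_lit 14) (.e (nat_lit 73746) (nat_lit 3) (.e (nat_lit 516129) (nat_lit 3) (.e (nat_lit 221203) (nat_lit 20) .nil)))))))) (.g (nat_lit 1) (.e (nat_lit 78078) (nat_lit 0) .nil) .nil)))) (.nd (nat_lit 9) 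
(.lf (nat_lit 467346) (.g (nat_lit 3340) (.e (nat_lit 3253) (nat_lit 197) (.e (nat_lit 532503) (nat_lit 1) (.e (nat_lit 57849) (nat_lit 252) (.e (nat_lit 57379) (nat_lit 3) (.e (nat_lit 98341) (nat_lit 20) (.e (nat_lit 221211) (nat_lit 22) (.e (nat_lit 196666) (nat_lit 13) (.e (nat_lit 65642) (nat_lit 15) .nil)))))))) (.g (nat_lit 1) (.e (nat_lit 77807) (nat_lit 0) .nil) .nil))) 
(.lf (nat_lit 467858) (.g (nat_lit 1340) (.e (nat_lit 3254) (nat_lit 197) (.e (nat_lit 532560) (nat_lit 14) (.e (nat_lit 376869) (nat_lit 23) (.e (nat_lit 98350) (nat_lit 24) .nil)))) (.g (nat_lit 0) (.e (nat_lit 78528) (nat_lit 0) .nil) .nil)))))) (.nd (nat_lit 7) (.nd (nat_lit 8) (.nd (nat_lit 9) 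
(.lf (nat_lit 467026) (.g (nat_lit 1362) (.e (nat_lit 3253) (nat_lit 197) (.e (nat_lit 532501) (nat_lit 1) (.e (nat_lit 57852) (nat_lit 252) (.e (nat_lit 57409) (nat_lit 12) .nil)))) (.g (nat_lit 0) (.e (nat_lit 77433) (nat_lit 0) .nil) .nil))) 
(.lf (nat_lit 467538) (.g (nat_lit 4011) (.e (nat_lit 3253) (nat_lit 197) (.e (nat_lit 532504) (nat_lit 1) (.e (nat_lit 57852) (nat_lit 252) (.e (nat_lit 57406) (nat_lit 12) (.e (nat_lit 336367) (nat_lit 27) (.e (nat_lit 426542) (nat_lit 29) (.e (nat_lit 352267) (nat_lit 0) .nil))))))) (.g (nat_lit 1) (.e (nat_lit 78014) (nat_lit 0) .nil) .nil)))) (.nd (nat_lit 9) 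
(.lf (nat_lit 467282) (.g (nat_lit 2298) (.e (nat_lit 3253) (nat_lit 197) (.e (nat_lit 532503) (nat_lit 1) (.e (nat_lit 57846) (nat_lit 252) (.e (nat_lit 57445) (nat_lit 19) (.e (nat_lit 401152) (nat_lit 11) .nil))))) (.g (nat_lit 0) (.e (nat_lit 77743) (nat_lit 0) .nil) .nil))) 
(.lf (nat_lit 467794) (.g (nat_lit 4450) (.e (nat_lit 3253) (nat_lit 197) (.e (nat_lit 532550) (nat_lit 12) (.e (nat_lit 360475) (nat_lit 8) (.e (nat_lit 557087) (nat_lit 11) .nil)))) (.g (nat_lit 0) (.e (nat_lit 78383) (nat_lit 0) .nil) .nil))))) (.nd (nat_lit 8) (.nd (nat_lit 9) 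
(.lf (nat_lit 467154) (.g (nat_lit 3875) (.e (nat_lit 3253) (nat_lit 197) (.e (nat_lit 532501) (nat_lit 1) (.e (nat_lit 57927) (nat_lit 282) (.e (nat_lit 163869) (nat_lit 2) (.e (nat_lit 196668) (nat_lit 14) (.e (nat_lit 73746) (nat_lit 3) (.e (nat_lit 516129) (nat_lit 3) (.e (nat_lit 221204) (nat_lit 20) .nil)))))))) (.g (nat_lit 1) (.e (nat_lit 77587) (nat_lit 0) .nil) .nil))) 
(.lf (nat_lit 467666) (.g (nat_lit 3548) (.e (nat_lit 3253) (nat_lit 197) (.e (nat_lit 532504) (nat_lit 1) (.e (nat_lit 57931) (nat_lit 282) (.e (nat_lit 163869) (nat_lit 2) (.e (nat_lit 196663) (nat_lit 13) (.e (nat_lit 65571) (nat_lit 3) (.e (nat_lit 98342) (nat_lit 20) (.e (nat_lit 221204) (nat_lit 20) .nil)))))))) (.g (nat_lit 1) (.e (nat_lit 78150) (nat_lit 0) .nil) .nil)))) (.nd (nat_lit 9) 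
(.lf (nat_lit 467410) (.g (nat_lit 2492) (.e (nat_lit 3253) (nat_lit 197) (.e (nat_lit 532503) (nat_lit 1) (.e (nat_lit 57930) (nat_lit 282) (.e (nat_lit 163867) (nat_lit 2) (.e (nat_lit 196668) (nat_lit 14) (.e (nat_lit 73747) (nat_lit 3) (.e (nat_lit 516130) (nat_lit 3) (.e (nat_lit 221204) (nat_lit 20) .nil)))))))) (.g (nat_lit 1) (.e (nat_lit 77877) (nat_lit 0) .nil) .nil))) 
(.lf (nat_lit 467922) (.g (nat_lit 2032) (.e (nat_lit 3256) (nat_lit 197) (.e (nat_lit 532499) (nat_lit 1) (.e (nat_lit 57927) (nat_lit 282) (.e (nat_lit 163871) (nat_lit 2) (.e (nat_lit 196670) (nat_lit 14) (.e (nat_lit 73746) (nat_lit 3) (.e (nat_lit 516129) (nat_lit 3) (.e (nat_lit 221196) (nat_lit 20) .nil)))))))) (.g (nat_lit 1) (.e (nat_lit 78640) (nat_lit 0) .nil) .nil))))))) 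
(.nd (nat_lit 6) (.nd (nat_lit 7) (.nd (nat_lit 8) (.nd (nat_lit 9) 
(.lf (nat_lit 466994) (.g (nat_lit 1407) (.e (nat_lit 3253) (nat_lit 197) (.e (nat_lit 532501) (nat_lit 1) (.e (nat_lit 57851) (nat_lit 252) (.e (nat_lit 57354) (nat_lit 0) .nil)))) (.g (nat_lit 0) (.e (nat_lit 77401) (nat_lit 0) .nil) .nil))) 
(.lf (nat_lit 467506) (.g (nat_lit 2770) (.e (nat_lit 3253) (nat_lit 197) (.e (nat_lit 532504) (nat_lit 1) (.e (nat_lit 57851) (nat_lit 252) (.e (nat_lit 57406) (nat_lit 12) (.e (nat_lit 336456) (nat_lit 34) (.e (nat_lit 483393) (nat_lit 23) (.e (nat_lit 336293) (nat_lit 15) .nil))))))) (.g (nat_lit 1) (.e (nat_lit 77982) (nat_lit 0) .nil) .nil)))) (.nd (nat_lit 9) 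
(.lf (nat_lit 467250) (.g (nat_lit 3994) (.e (nat_lit 3253) (nat_lit 197) (.e (nat_lit 532501) (nat_lit 1) (.e (nat_lit 57931) (nat_lit 282) (.e (nat_lit 163869) (nat_lit 2) (.e (nat_lit 196668) (nat_lit 14) (.e (nat_lit 73747) (nat_lit 3) (.e (nat_lit 516129) (nat_lit 3) (.e (nat_lit 221203) (nat_lit 20) .nil)))))))) (.g (nat_lit 1) (.e (nat_lit 77708) (nat_lit 0) .nil) .nil))) 
(.lf (nat_lit 467762) (.g (nat_lit 1757) (.e (nat_lit 3253) (nat_lit 197) (.e (nat_lit 532530) (nat_lit 9) (.e (nat_lit 336326) (nat_lit 18) (.e (nat_lit 204854) (nat_lit 26) (.e (nat_lit 336326) (nat_lit 18) .nil))))) (.g (nat_lit 0) (.e (nat_lit 78327) (nat_lit 0) .nil) .nil))))) (.nd (nat_lit 8) (.nd (nat_lit 9) 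
(.lf (nat_lit 467122) (.g (nat_lit 3266) (.e (nat_lit 3253) (nat_lit 197) (.e (nat_lit 532501) (nat_lit 1) (.e (nat_lit 57927) (nat_lit 282) (.e (nat_lit 163866) (nat_lit 2) (.e (nat_lit 196668) (nat_lit 14) (.e (nat_lit 73747) (nat_lit 3) (.e (nat_lit 516129) (nat_lit 3) (.e (nat_lit 221204) (nat_lit 20) .nil)))))))) (.g (nat_lit 1) (.e (nat_lit 77551) (nat_lit 0) .nil) .nil))) 
(.lf (nat_lit 467634) (.g (nat_lit 3612) (.e (nat_lit 3253) (nat_lit 197) (.e (nat_lit 532504) (nat_lit 1) (.e (nat_lit 57929) (nat_lit 282) (.e (nat_lit 163869) (nat_lit 2) (.e (nat_lit 196670) (nat_lit 14) (.e (nat_lit 73746) (nat_lit 3) (.e (nat_lit 516131) (nat_lit 3) (.e (nat_lit 221204) (nat_lit 20) .nil)))))))) (.g (nat_lit 1) (.e (nat_lit 78114) (nat_lit 0) .nil) .nil)))) (.nd (nat_lit 9) 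
(.lf (nat_lit 467378) (.g (nat_lit 2531) (.e (nat_lit 3253) (nat_lit 197) (.e (nat_lit 532503) (nat_lit 1) (.e (nat_lit 57924) (nat_lit 282) (.e (nat_lit 163875) (nat_lit 3) (.e (nat_lit 204862) (nat_lit 27) (.e (nat_lit 344117) (nat_lit 21) (.e (nat_lit 516129) (nat_lit 3) (.e (nat_lit 221204) (nat_lit 20) .nil)))))))) (.g (nat_lit 1) (.e (nat_lit 77844) (nat_lit 0) .nil) .nil))) 
(.lf (nat_lit 467890) (.g (nat_lit 1361) (.e (nat_lit 3255) (nat_lit 197) (.e (nat_lit 532535) (nat_lit 9) (.e (nat_lit 336111) (nat_lit 9) .nil))) (.g (nat_lit 0) (.e (nat_lit 78606) (nat_lit 0) .nil) .nil)))))) (.nd (nat_lit 7) (.nd (nat_lit 8) (.nd (nat_lit 9) 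
(.lf (nat_lit 467058) (.g (nat_lit 2704) (.e (nat_lit 3253) (nat_lit 197) (.e (nat_lit 532501) (nat_lit 1) (.e (nat_lit 57924) (nat_lit 282) (.e (nat_lit 163867) (nat_lit 2) (.e (nat_lit 196668) (nat_lit 14) (.e (nat_lit 73747) (nat_lit 3) (.e (nat_lit 516131) (nat_lit 3) (.e (nat_lit 221204) (nat_lit 20) .nil)))))))) (.g (nat_lit 1) (.e (nat_lit 77465) (nat_lit 0) .nil) .nil))) 
(.lf (nat_lit 467570) (.g (nat_lit 1843) (.e (nat_lit 3253) (nat_lit 197) (.e (nat_lit 532504) (nat_lit 1) (.e (nat_lit 57854) (nat_lit 252) (.e (nat_lit 57406) (nat_lit 12) (.e (nat_lit 336367) (nat_lit 27) (.e (nat_lit 426555) (nat_lit 32) (.e (nat_lit 384768) (nat_lit 0) .nil))))))) (.g (nat_lit 1) (.e (nat_lit 78046) (nat_lit 0) .nil) .nil)))) (.nd (nat_lit 9) 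
(.lf (nat_lit 467314) (.g (nat_lit 2083) (.e (nat_lit 3253) (nat_lit 197) (.e (nat_lit 532503) (nat_lit 1) (.e (nat_lit 57847) (nat_lit 252) (.e (nat_lit 57447) (nat_lit 19) (.e (nat_lit 401152) (nat_lit 11) (.e (nat_lit 352266) (nat_lit 0) .nil)))))) (.g (nat_lit 1) (.e (nat_lit 77775) (nat_lit 0) .nil) .nil))) 
(.lf (nat_lit 467826) (.g (nat_lit 1760) (.e (nat_lit 3254) (nat_lit 197) (.e (nat_lit 532501) (nat_lit 1) (.e (nat_lit 57854) (nat_lit 252) (.e (nat_lit 57409) (nat_lit 12) (.e (nat_lit 336454) (nat_lit 34) .nil))))) (.g (nat_lit 0) (.e (nat_lit 78484) (nat_lit 0) .nil) .nil))))) (.nd (nat_lit 8) (.nd (nat_lit 9) 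
(.lf (nat_lit 467186) (.g (nat_lit 2165) (.e (nat_lit 3253) (nat_lit 197) (.e (nat_lit 532501) (nat_lit 1) (.e (nat_lit 57927) (nat_lit 282) (.e (nat_lit 163875) (nat_lit 3) (.e (nat_lit 204851) (nat_lit 26) (.e (nat_lit 336019) (nat_lit 3) (.e (nat_lit 98341) (nat_lit 20) (.e (nat_lit 221204) (nat_lit 20) .nil)))))))) (.g (nat_lit 1) (.e (nat_lit 77630) (nat_lit 0) .nil) .nil))) 
(.lf (nat_lit 467698) (.g (nat_lit 1589) (.e (nat_lit 3253) (nat_lit 197) (.e (nat_lit 532510) (nat_lit 2) (.e (nat_lit 106534) (nat_lit 11) (.e (nat_lit 16413) (nat_lit 2) (.e (nat_lit 196672) (nat_lit 15) (.e (nat_lit 89856) (nat_lit 0) .nil)))))) (.g (nat_lit 1) (.e (nat_lit 78186) (nat_lit 0) .nil) .nil)))) (.nd (nat_lit 9) 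
(.lf (nat_lit 467442) (.g (nat_lit 3673) (.e (nat_lit 3253) (nat_lit 197) (.e (nat_lit 532503) (nat_lit 1) (.e (nat_lit 57931) (nat_lit 282) (.e (nat_lit 163867) (nat_lit 2) (.e (nat_lit 196668) (nat_lit 14) (.e (nat_lit 73747) (nat_lit 3) (.e (nat_lit 516129) (nat_lit 3) (.e (nat_lit 221203) (nat_lit 20) .nil)))))))) (.g (nat_lit 1) (.e (nat_lit 77912) (nat_lit 0) .nil) .nil))) 
(.lf (nat_lit 467954) (.g (nat_lit 917) (.e (nat_lit 3256) (nat_lit 197) (.e (nat_lit 532550) (nat_lit 12) (.e (nat_lit 360474) (nat_lit 8) .nil))) (.g (nat_lit 0) (.e (nat_lit 78734) (nat_lit 0) .nil) .nil))))))))) (.nd (nat_lit 4) (.nd (nat_lit 5) (.nd (nat_lit 6) (.nd (nat_lit 7) (.nd (nat_lit 8) (.nd (nat_lit 9) 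
(.lf (nat_lit 466954) (.g (nat_lit 2469) (.e (nat_lit 3253) (nat_lit 197) (.e (nat_lit 532499) (nat_lit 1) (.e (nat_lit 57927) (nat_lit 282) (.e (nat_lit 163875) (nat_lit 3) (.e (nat_lit 204851) (nat_lit 26) (.e (nat_lit 336019) (nat_lit 3) (.e (nat_lit 98342) (nat_lit 20) (.e (nat_lit 221204) (nat_lit 20) .nil)))))))) (.g (nat_lit 1) (.e (nat_lit 77354) (nat_lit 0) .nil) .nil))) 
(.lf (nat_lit 467466) (.g (nat_lit 3376) (.e (nat_lit 3253) (nat_lit 197) (.e (nat_lit 532503) (nat_lit 1) (.e (nat_lit 57931) (nat_lit 282) (.e (nat_lit 163869) (nat_lit 2) (.e (nat_lit 196670) (nat_lit 14) (.e (nat_lit 73746) (nat_lit 3) (.e (nat_lit 516131) (nat_lit 3) (.e (nat_lit 221203) (nat_lit 20) .nil)))))))) (.g (nat_lit 1) (.e (nat_lit 77940) (nat_lit 0) .nil) .nil)))) (.nd (nat_lit 9) 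
(.lf (nat_lit 467210) (.g (nat_lit 2102) (.e (nat_lit 3253) (nat_lit 197) (.e (nat_lit 532501) (nat_lit 1) (.e (nat_lit 57928) (nat_lit 282) (.e (nat_lit 163875) (nat_lit 3) (.e (nat_lit 204862) (nat_lit 27) (.e (nat_lit 344117) (nat_lit 21) (.e (nat_lit 516130) (nat_lit 3) (.e (nat_lit 221203) (nat_lit 20) .nil)))))))) (.g (nat_lit 1) (.e (nat_lit 77667) (nat_lit 0) .nil) .nil))) 
(.lf (nat_lit 467722) (.g (nat_lit 2178) (.e (nat_lit 3253) (nat_lit 197) (.e (nat_lit 532515) (nat_lit 3) (.e (nat_lit 114694) (nat_lit 11) (.e (nat_lit 426124) (nat_lit 2) (.e (nat_lit 196674) (nat_lit 15) (.e (nat_lit 81922) (nat_lit 0) .nil)))))) (.g (nat_lit 1) (.e (nat_lit 78227) (nat_lit 0) .nil) .nil))))) (.nd (nat_lit 8) (.nd (nat_lit 9) 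
(.lf (nat_lit 467082) (.g (nat_lit 3552) (.e (nat_lit 3253) (nat_lit 197) (.e (nat_lit 532501) (nat_lit 1) (.e (nat_lit 57926) (nat_lit 282) (.e (nat_lit 163868) (nat_lit 2) (.e (nat_lit 196670) (nat_lit 14) (.e (nat_lit 73746) (nat_lit 3) (.e (nat_lit 516129) (nat_lit 3) (.e (nat_lit 221203) (nat_lit 20) .nil)))))))) (.g (nat_lit 1) (.e (nat_lit 77496) (nat_lit 0) .nil) .nil))) 
(.lf (nat_lit 467594) (.g (nat_lit 1989) (.e (nat_lit 3253) (nat_lit 197) (.e (nat_lit 532504) (nat_lit 1) (.e (nat_lit 57854) (nat_lit 252) (.e (nat_lit 57447) (nat_lit 19) (.e (nat_lit 401152) (nat_lit 11) (.e (nat_lit 360192) (nat_lit 0) .nil)))))) (.g (nat_lit 1) (.e (nat_lit 78070) (nat_lit 0) .nil) .nil)))) (.nd (nat_lit 9) 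
(.lf (nat_lit 467338) (.g (nat_lit 2046) (.e (nat_lit 3253) (nat_lit 197) (.e (nat_lit 532503) (nat_lit 1) (.e (nat_lit 57848) (nat_lit 252) (.e (nat_lit 57445) (nat_lit 19) (.e (nat_lit 401152) (nat_lit 11) (.e (nat_lit 360192) (nat_lit 0) .nil)))))) (.g (nat_lit 1) (.e (nat_lit 77799) (nat_lit 0) .nil) .nil))) 
(.lf (nat_lit 467850) (.g (nat_lit 4711) (.e (nat_lit 3254) (nat_lit 197) (.e (nat_lit 532550) (nat_lit 12) (.e (nat_lit 360475) (nat_lit 8) (.e (nat_lit 557085) (nat_lit 11) .nil)))) (.g (nat_lit 0) (.e (nat_lit 78520) (nat_lit 0) .nil) .nil)))))) (.nd (nat_lit 7) (.nd (nat_lit 8) (.nd (nat_lit 9) 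
(.lf (nat_lit 467018) (.g (nat_lit 3810) (.e (nat_lit 3253) (nat_lit 197) (.e (nat_lit 532501) (nat_lit 1) (.e (nat_lit 57852) (nat_lit 252) (.e (nat_lit 57355) (nat_lit 0) (.e (nat_lit 1858) (nat_lit 124) (.e (nat_lit 557105) (nat_lit 14) (.e (nat_lit 180252) (nat_lit 10) (.e (nat_lit 573481) (nat_lit 13) (.e (nat_lit 65637) (nat_lit 15) .nil))))))))) (.g (nat_lit 1) (.e (nat_lit 77425) (nat_lit 0) .nil) .nil))) 
(.lf (nat_lit 467530) (.g (nat_lit 1612) (.e (nat_lit 3253) (nat_lit 197) (.e (nat_lit 532504) (nat_lit 1) (.e (nat_lit 57852) (nat_lit 252) (.e (nat_lit 57378) (nat_lit 3) .nil)))) (.g (nat_lit 0) (.e (nat_lit 78006) (nat_lit 0) .nil) .nil)))) (.nd (nat_lit 9) 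
(.lf (nat_lit 467274) (.g (nat_lit 2670) (.e (nat_lit 3253) (nat_lit 197) (.e (nat_lit 532503) (nat_lit 1) (.e (nat_lit 57844) (nat_lit 252) (.e (nat_lit 57406) (nat_lit 12) (.e (nat_lit 336456) (nat_lit 34) (.e (nat_lit 483393) (nat_lit 23) (.e (nat_lit 336293) (nat_lit 15) .nil))))))) (.g (nat_lit 1) (.e (nat_lit 77735) (nat_lit 0) .nil) .nil))) 
(.lf (nat_lit 467786) (.g (nat_lit 5116) (.e (nat_lit 3253) (nat_lit 197) (.e (nat_lit 532550) (nat_lit 12) (.e (nat_lit 360474) (nat_lit 8) (.e (nat_lit 557094) (nat_lit 12) (.e (nat_lit 164022) (nat_lit 46) (.e (nat_lit 704737) (nat_lit 11) (.e (nat_lit 16403) (nat_lit 0) .nil))))))) (.g (nat_lit 1) (.e (nat_lit 78375) (nat_lit 0) .nil) .nil))))) (.nd (nat_lit 8) (.nd (nat_lit 9) 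
(.lf (nat_lit 467146) (.g (nat_lit 2555) (.e (nat_lit 3253) (nat_lit 197) (.e (nat_lit 532501) (nat_lit 1) (.e (nat_lit 57927) (nat_lit 282) (.e (nat_lit 163868) (nat_lit 2) (.e (nat_lit 196670) (nat_lit 14) (.e (nat_lit 73746) (nat_lit 3) (.e (nat_lit 516131) (nat_lit 3) (.e (nat_lit 221203) (nat_lit 20) .nil)))))))) (.g (nat_lit 1) (.e (nat_lit 77575) (nat_lit 0) .nil) .nil))) 
(.lf (nat_lit 467658) (.g (nat_lit 3113) (.e (nat_lit 3253) (nat_lit 197) (.e (nat_lit 532504) (nat_lit 1) (.e (nat_lit 57931) (nat_lit 282) (.e (nat_lit 163867) (nat_lit 2) (.e (nat_lit 196668) (nat_lit 14) (.e (nat_lit 73747) (nat_lit 3) (.e (nat_lit 516129) (nat_lit 3) (.e (nat_lit 221203) (nat_lit 20) .nil)))))))) (.g (nat_lit 1) (.e (nat_lit 78142) (nat_lit 0) .nil) .nil)))) (.nd (nat_lit 9) 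
(.lf (nat_lit 467402) (.g (nat_lit 2198) (.e (nat_lit 3253) (nat_lit 197) (.e (nat_lit 532503) (nat_lit 1) (.e (nat_lit 57929) (nat_lit 282) (.e (nat_lit 163874) (nat_lit 3) (.e (nat_lit 204873) (nat_lit 30) (.e (nat_lit 368676) (nat_lit 21) (.e (nat_lit 516131) (nat_lit 3) (.e (nat_lit 221204) (nat_lit 20) .nil)))))))) (.g (nat_lit 1) (.e (nat_lit 77869) (nat_lit 0) .nil) .nil))) 
(.lf (nat_lit 467914) (.g (nat_lit 2112) (.e (nat_lit 3256) (nat_lit 197) (.e (nat_lit 532499) (nat_lit 1) (.e (nat_lit 57926) (nat_lit 282) (.e (nat_lit 163869) (nat_lit 2) (.e (nat_lit 196670) (nat_lit 14) .nil))))) (.g (nat_lit 0) (.e (nat_lit 78631) (nat_lit 0) .nil) .nil))))))) (.nd (nat_lit 6) (.nd (nat_lit 7) (.nd (nat_lit 8) (.nd (nat_lit 9) 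
(.lf (nat_lit 466986) (.g (nat_lit 3701) (.e (nat_lit 3253) (nat_lit 197) (.e (nat_lit 532499) (nat_lit 1) (.e (nat_lit 57931) (nat_lit 282) (.e (nat_lit 163869) (nat_lit 2) (.e (nat_lit 196670) (nat_lit 14) (.e (nat_lit 73746) (nat_lit 3) (.e (nat_lit 516131) (nat_lit 3) (.e (nat_lit 221204) (nat_lit 20) .nil)))))))) (.g (nat_lit 1) (.e (nat_lit 77392) (nat_lit 0) .nil) .nil))) 
(.lf (nat_lit 467498) (.g (nat_lit 1979) (.e (nat_lit 3253) (nat_lit 197) (.e (nat_lit 532504) (nat_lit 1) (.e (nat_lit 57851) (nat_lit 252) (.e (nat_lit 57406) (nat_lit 12) (.e (nat_lit 336456) (nat_lit 34) (.e (nat_lit 483378) (nat_lit 23) (.e (nat_lit 336282) (nat_lit 15) .nil))))))) (.g (nat_lit 1) (.e (nat_lit 77974) (nat_lit 0) .nil) .nil)))) (.nd (nat_lit 9) 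
(.lf (nat_lit 467242) (.g (nat_lit 3193) (.e (nat_lit 3253) (nat_lit 197) (.e (nat_lit 532501) (nat_lit 1) (.e (nat_lit 57931) (nat_lit 282) (.e (nat_lit 163869) (nat_lit 2) (.e (nat_lit 196664) (nat_lit 13) (.e (nat_lit 65571) (nat_lit 3) (.e (nat_lit 98341) (nat_lit 20) (.e (nat_lit 221204) (nat_lit 20) .nil)))))))) (.g (nat_lit 1) (.e (nat_lit 77699) (nat_lit 0) .nil) .nil))) 
(.lf (nat_lit 467754) (.g (nat_lit 2222) (.e (nat_lit 3253) (nat_lit 197) (.e (nat_lit 532523) (nat_lit 7) (.e (nat_lit 319534) (nat_lit 16) (.e (nat_lit 286735) (nat_lit 3) (.e (nat_lit 98379) (nat_lit 31) .nil))))) (.g (nat_lit 0) (.e (nat_lit 78299) (nat_lit 0) .nil) .nil))))) (.nd (nat_lit 8) (.nd (nat_lit 9) 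
(.lf (nat_lit 467114) (.g (nat_lit 3054) (.e (nat_lit 3253) (nat_lit 197) (.e (nat_lit 532501) (nat_lit 1) (.e (nat_lit 57926) (nat_lit 282) (.e (nat_lit 163875) (nat_lit 3) (.e (nat_lit 204862) (nat_lit 27) (.e (nat_lit 344117) (nat_lit 21) (.e (nat_lit 516129) (nat_lit 3) (.e (nat_lit 221204) (nat_lit 20) .nil)))))))) (.g (nat_lit 1) (.e (nat_lit 77541) (nat_lit 0) .nil) .nil))) 
(.lf (nat_lit 467626) (.g (nat_lit 3128) (.e (nat_lit 3253) (nat_lit 197) (.e (nat_lit 532504) (nat_lit 1) (.e (nat_lit 57929) (nat_lit 282) (.e (nat_lit 163869) (nat_lit 2) (.e (nat_lit 196668) (nat_lit 14) (.e (nat_lit 73747) (nat_lit 3) (.e (nat_lit 516129) (nat_lit 3) (.e (nat_lit 221203) (nat_lit 20) .nil)))))))) (.g (nat_lit 1) (.e (nat_lit 78106) (nat_lit 0) .nil) .nil)))) (.nd (nat_lit 9) 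
(.lf (nat_lit 467370) (.g (nat_lit 2368) (.e (nat_lit 3253) (nat_lit 197) (.e (nat_lit 532503) (nat_lit 1) (.e (nat_lit 57924) (nat_lit 282) (.e (nat_lit 163868) (nat_lit 2) (.e (nat_lit 196668) (nat_lit 14) (.e (nat_lit 73747) (nat_lit 3) (.e (nat_lit 516129) (nat_lit 3) (.e (nat_lit 221203) (nat_lit 20) .nil)))))))) (.g (nat_lit 1) (.e (nat_lit 77831) (nat_lit 0) .nil) .nil))) 
(.lf (nat_lit 467882) (.g (nat_lit 5447) (.e (nat_lit 3255) (nat_lit 197) (.e (nat_lit 532535) (nat_lit 9) (.e (nat_lit 336099) (nat_lit 9) (.e (nat_lit 336013) (nat_lit 2) (.e (nat_lit 90130) (nat_lit 9) .nil))))) (.g (nat_lit 0) (.e (nat_lit 78598) (nat_lit 0) .nil) .nil)))))) (.nd (nat_lit 7) (.nd (nat_lit 8) (.nd (nat_lit 9) 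
(.lf (nat_lit 467050) (.g (nat_lit 1738) (.e (nat_lit 3253) (nat_lit 197) (.e (nat_lit 532501) (nat_lit 1) (.e (nat_lit 57854) (nat_lit 252) (.e (nat_lit 57447) (nat_lit 19) (.e (nat_lit 401152) (nat_lit 11) (.e (nat_lit 360192) (nat_lit 0) .nil)))))) (.g (nat_lit 1) (.e (nat_lit 77457) (nat_lit 0) .nil) .nil))) 
(.lf (nat_lit 467562) (.g (nat_lit 2143) (.e (nat_lit 3253) (nat_lit 197) (.e (nat_lit 532504) (nat_lit 1) (.e (nat_lit 57853) (nat_lit 252) (.e (nat_lit 57445) (nat_lit 19) (.e (nat_lit 401152) (nat_lit 11) (.e (nat_lit 360192) (nat_lit 0) .nil)))))) (.g (nat_lit 1) (.e (nat_lit 78038) (nat_lit 0) .nil) .nil)))) (.nd (nat_lit 9) 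
(.lf (nat_lit 467306) (.g (nat_lit 1960) (.e (nat_lit 3253) (nat_lit 197) (.e (nat_lit 532503) (nat_lit 1) (.e (nat_lit 57847) (nat_lit 252) (.e (nat_lit 57445) (nat_lit 19) (.e (nat_lit 393229) (nat_lit 9) (.e (nat_lit 336086) (nat_lit 9) (.e (nat_lit 336286) (nat_lit 15) .nil))))))) (.g (nat_lit 1) (.e (nat_lit 77767) (nat_lit 0) .nil) .nil))) 
(.lf (nat_lit 467818) (.g (nat_lit 1803) (.e (nat_lit 3253) (nat_lit 197) (.e (nat_lit 532569) (nat_lit 16) (.e (nat_lit 401434) (nat_lit 9) (.e (nat_lit 426140) (nat_lit 3) .nil)))) (.g (nat_lit 0) (.e (nat_lit 78473) (nat_lit 0) .nil) .nil))))) (.nd (nat_lit 8) (.nd (nat_lit 9) 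
(.lf (nat_lit 467178) (.g (nat_lit 4155) (.e (nat_lit 3253) (nat_lit 197) (.e (nat_lit 532501) (nat_lit 1) (.e (nat_lit 57927) (nat_lit 282) (.e (nat_lit 163874) (nat_lit 3) (.e (nat_lit 204854) (nat_lit 26) (.e (nat_lit 336019) (nat_lit 3) (.e (nat_lit 98341) (nat_lit 20) (.e (nat_lit 221204) (nat_lit 20) .nil)))))))) (.g (nat_lit 1) (.e (nat_lit 77622) (nat_lit 0) .nil) .nil))) 
(.lf (nat_lit 467690) (.g (nat_lit 4414) (.e (nat_lit 3253) (nat_lit 197) (.e (nat_lit 532504) (nat_lit 1) (.e (nat_lit 57931) (nat_lit 282) (.e (nat_lit 163874) (nat_lit 3) (.e (nat_lit 204854) (nat_lit 26) (.e (nat_lit 336019) (nat_lit 3) (.e (nat_lit 98342) (nat_lit 20) (.e (nat_lit 221204) (nat_lit 20) .nil)))))))) (.g (nat_lit 1) (.e (nat_lit 78178) (nat_lit 0) .nil) .nil)))) 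
(.nd (nat_lit 9) 
(.lf (nat_lit 467434) (.g (nat_lit 3434) (.e (nat_lit 3253) (nat_lit 197) (.e (nat_lit 532503) (nat_lit 1) (.e (nat_lit 57931) (nat_lit 282) (.e (nat_lit 163866) (nat_lit 2) (.e (nat_lit 196670) (nat_lit 14) (.e (nat_lit 73746) (nat_lit 3) (.e (nat_lit 516129) (nat_lit 3) (.e (nat_lit 221204) (nat_lit 20) .nil)))))))) (.g (nat_lit 1) (.e (nat_lit 77904) (nat_lit 0) .nil) .nil))) 
(.lf (nat_lit 467946) (.g (nat_lit 2241) (.e (nat_lit 3256) (nat_lit 197) (.e (nat_lit 532515) (nat_lit 3) (.e (nat_lit 114719) (nat_lit 23) (.e (nat_lit 98384) (nat_lit 32) (.e (nat_lit 475179) (nat_lit 24) .nil))))) (.g (nat_lit 0) (.e (nat_lit 78720) (nat_lit 0) .nil) .nil)))))))) (.nd (nat_lit 5) (.nd (nat_lit 6) (.nd (nat_lit 7) (.nd (nat_lit 8) (.nd (nat_lit 9) 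
(.lf (nat_lit 466970) (.g (nat_lit 2556) (.e (nat_lit 3253) (nat_lit 197) (.e (nat_lit 532499) (nat_lit 1) (.e (nat_lit 57931) (nat_lit 282) (.e (nat_lit 163867) (nat_lit 2) (.e (nat_lit 196670) (nat_lit 14) (.e (nat_lit 73746) (nat_lit 3) (.e (nat_lit 516131) (nat_lit 3) (.e (nat_lit 221204) (nat_lit 20) .nil)))))))) (.g (nat_lit 1) (.e (nat_lit 77375) (nat_lit 0) .nil) .nil))) 
(.lf (nat_lit 467482) (.g (nat_lit 2402) (.e (nat_lit 3253) (nat_lit 197) (.e (nat_lit 532503) (nat_lit 1) (.e (nat_lit 57931) (nat_lit 282) (.e (nat_lit 163874) (nat_lit 3) (.e (nat_lit 204863) (nat_lit 27) (.e (nat_lit 344117) (nat_lit 21) (.e (nat_lit 516130) (nat_lit 3) (.e (nat_lit 221203) (nat_lit 20) .nil)))))))) (.g (nat_lit 1) (.e (nat_lit 77958) (nat_lit 0) .nil) .nil)))) 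
(.nd (nat_lit 9) 
(.lf (nat_lit 467226) (.g (nat_lit 2324) (.e (nat_lit 3253) (nat_lit 197) (.e (nat_lit 532501) (nat_lit 1) (.e (nat_lit 57929) (nat_lit 282) (.e (nat_lit 163874) (nat_lit 3) (.e (nat_lit 204851) (nat_lit 26) (.e (nat_lit 336019) (nat_lit 3) (.e (nat_lit 98341) (nat_lit 20) (.e (nat_lit 221204) (nat_lit 20) .nil)))))))) (.g (nat_lit 1) (.e (nat_lit 77683) (nat_lit 0) .nil) .nil))) 
(.lf (nat_lit 467738) (.g (nat_lit 2323) (.e (nat_lit 3253) (nat_lit 197) (.e (nat_lit 532523) (nat_lit 7) (.e (nat_lit 319531) (nat_lit 16) (.e (nat_lit 286735) (nat_lit 3) (.e (nat_lit 98381) (nat_lit 31) .nil))))) (.g (nat_lit 0) (.e (nat_lit 78282) (nat_lit 0) .nil) .nil))))) (.nd (nat_lit 8) (.nd (nat_lit 9) 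
(.lf (nat_lit 467098) (.g (nat_lit 2191) (.e (nat_lit 3253) (nat_lit 197) (.e (nat_lit 532501) (nat_lit 1) (.e (nat_lit 57926) (nat_lit 282) (.e (nat_lit 163869) (nat_lit 2) (.e (nat_lit 196670) (nat_lit 14) (.e (nat_lit 73746) (nat_lit 3) (.e (nat_lit 516129) (nat_lit 3) (.e (nat_lit 229120) (nat_lit 20) .nil)))))))) (.g (nat_lit 1) (.e (nat_lit 77513) (nat_lit 0) .nil) .nil))) 
(.lf (nat_lit 467610) (.g (nat_lit 2197) (.e (nat_lit 3253) (nat_lit 197) (.e (nat_lit 532504) (nat_lit 1) (.e (nat_lit 57929) (nat_lit 282) (.e (nat_lit 163867) (nat_lit 2) (.e (nat_lit 196668) (nat_lit 14) (.e (nat_lit 73746) (nat_lit 3) (.e (nat_lit 516129) (nat_lit 3) (.e (nat_lit 221204) (nat_lit 20) .nil)))))))) (.g (nat_lit 1) (.e (nat_lit 78090) (nat_lit 0) .nil) .nil)))) (.nd (nat_lit 9) 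
(.lf (nat_lit 467354) (.g (nat_lit 778) (.e (nat_lit 3253) (nat_lit 197) (.e (nat_lit 532503) (nat_lit 1) (.e (nat_lit 57854) (nat_lit 252) .nil))) (.g (nat_lit 0) (.e (nat_lit 77815) (nat_lit 0) .nil) .nil))) 
(.lf (nat_lit 467866) (.g (nat_lit 1744) (.e (nat_lit 3255) (nat_lit 197) (.e (nat_lit 532504) (nat_lit 1) (.e (nat_lit 57852) (nat_lit 252) (.e (nat_lit 57409) (nat_lit 12) .nil)))) (.g (nat_lit 0) (.e (nat_lit 78553) (nat_lit 0) .nil) .nil)))))) (.nd (nat_lit 7) (.nd (nat_lit 8) (.nd (nat_lit 9) 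
(.lf (nat_lit 467034) (.g (nat_lit 2789) (.e (nat_lit 3253) (nat_lit 197) (.e (nat_lit 532501) (nat_lit 1) (.e (nat_lit 57854) (nat_lit 252) (.e (nat_lit 57406) (nat_lit 12) (.e (nat_lit 336456) (nat_lit 34) (.e (nat_lit 483387) (nat_lit 23) (.e (nat_lit 336282) (nat_lit 15) .nil))))))) (.g (nat_lit 1) (.e (nat_lit 77441) (nat_lit 0) .nil) .nil))) 
(.lf (nat_lit 467546) (.g (nat_lit 2997) (.e (nat_lit 3253) (nat_lit 197) (.e (nat_lit 532504) (nat_lit 1) (.e (nat_lit 57852) (nat_lit 252) (.e (nat_lit 57406) (nat_lit 12) (.e (nat_lit 336456) (nat_lit 34) (.e (nat_lit 483391) (nat_lit 23) (.e (nat_lit 336300) (nat_lit 15) .nil))))))) (.g (nat_lit 1) (.e (nat_lit 78022) (nat_lit 0) .nil) .nil)))) (.nd (nat_lit 9) 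
(.lf (nat_lit 467290) (.g (nat_lit 1778) (.e (nat_lit 3253) (nat_lit 197) (.e (nat_lit 532503) (nat_lit 1) (.e (nat_lit 57847) (nat_lit 252) (.e (nat_lit 57407) (nat_lit 12) (.e (nat_lit 336367) (nat_lit 27) (.e (nat_lit 426555) (nat_lit 32) (.e (nat_lit 376837) (nat_lit 0) .nil))))))) (.g (nat_lit 1) (.e (nat_lit 77751) (nat_lit 0) .nil) .nil))) 
(.lf (nat_lit 467802) (.g (nat_lit 426) (.e (nat_lit 3253) (nat_lit 197) (.e (nat_lit 532560) (nat_lit 14) (.e (nat_lit 376842) (nat_lit 11) .nil))) (.g (nat_lit 0) (.e (nat_lit 78405) (nat_lit 0) .nil) .nil))))) (.nd (nat_lit 8) (.nd (nat_lit 9) 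
(.lf (nat_lit 467162) (.g (nat_lit 2290) (.e (nat_lit 3253) (nat_lit 197) (.e (nat_lit 532501) (nat_lit 1) (.e (nat_lit 57927) (nat_lit 282) (.e (nat_lit 163869) (nat_lit 2) (.e (nat_lit 196670) (nat_lit 14) (.e (nat_lit 73746) (nat_lit 3) (.e (nat_lit 516129) (nat_lit 3) (.e (nat_lit 229120) (nat_lit 20) .nil)))))))) (.g (nat_lit 1) (.e (nat_lit 77595) (nat_lit 0) .nil) .nil))) 
(.lf (nat_lit 467674) (.g (nat_lit 4435) (.e (nat_lit 3253) (nat_lit 197) (.e (nat_lit 532504) (nat_lit 1) (.e (nat_lit 57931) (nat_lit 282) (.e (nat_lit 163869) (nat_lit 2) (.e (nat_lit 196668) (nat_lit 14) (.e (nat_lit 73746) (nat_lit 3) (.e (nat_lit 516129) (nat_lit 3) (.e (nat_lit 221204) (nat_lit 20) .nil)))))))) (.g (nat_lit 1) (.e (nat_lit 78160) (nat_lit 0) .nil) .nil)))) (.nd (nat_lit 9) 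
(.lf (nat_lit 467418) (.g (nat_lit 2801) (.e (nat_lit 3253) (nat_lit 197) (.e (nat_lit 532503) (nat_lit 1) (.e (nat_lit 57930) (nat_lit 282) (.e (nat_lit 163869) (nat_lit 2) (.e (nat_lit 196668) (nat_lit 14) (.e (nat_lit 73747) (nat_lit 3) (.e (nat_lit 516131) (nat_lit 3) (.e (nat_lit 221204) (nat_lit 20) .nil)))))))) (.g (nat_lit 1) (.e (nat_lit 77885) (nat_lit 0) .nil) .nil))) 
(.lf (nat_lit 467930) (.g (nat_lit 2798) (.e (nat_lit 3256) (nat_lit 197) (.e (nat_lit 532501) (nat_lit 1) (.e (nat_lit 57927) (nat_lit 282) (.e (nat_lit 163869) (nat_lit 2) (.e (nat_lit 196670) (nat_lit 14) (.e (nat_lit 73746) (nat_lit 3) (.e (nat_lit 516129) (nat_lit 3) (.e (nat_lit 221196) (nat_lit 20) .nil)))))))) (.g (nat_lit 1) (.e (nat_lit 78649) (nat_lit 0) .nil) .nil))))))) 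
(.nd (nat_lit 6) (.nd (nat_lit 7) (.nd (nat_lit 8) (.nd (nat_lit 9) 
(.lf (nat_lit 467002) (.g (nat_lit 1459) (.e (nat_lit 3253) (nat_lit 197) (.e (nat_lit 532501) (nat_lit 1) (.e (nat_lit 57851) (nat_lit 252) (.e (nat_lit 57406) (nat_lit 12) (.e (nat_lit 336456) (nat_lit 34) .nil))))) (.g (nat_lit 0) (.e (nat_lit 77409) (nat_lit 0) .nil) .nil))) 
(.lf (nat_lit 467514) (.g (nat_lit 3510) (.e (nat_lit 3253) (nat_lit 197) (.e (nat_lit 532504) (nat_lit 1) (.e (nat_lit 57852) (nat_lit 252) (.e (nat_lit 57354) (nat_lit 0) (.e (nat_lit 1855) (nat_lit 124) (.e (nat_lit 557105) (nat_lit 14) (.e (nat_lit 180252) (nat_lit 10) (.e (nat_lit 573482) (nat_lit 13) (.e (nat_lit 65640) (nat_lit 15) .nil))))))))) (.g (nat_lit 1) (.e (nat_lit 77990) (nat_lit 0) .nil) .nil)))) 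
(.nd (nat_lit 9) 
(.lf (nat_lit 467258) (.g (nat_lit 4002) (.e (nat_lit 3253) (nat_lit 197) (.e (nat_lit 532501) (nat_lit 1) (.e (nat_lit 57931) (nat_lit 282) (.e (nat_lit 163869) (nat_lit 2) (.e (nat_lit 196670) (nat_lit 14) (.e (nat_lit 73746) (nat_lit 3) (.e (nat_lit 516131) (nat_lit 3) (.e (nat_lit 221204) (nat_lit 20) .nil)))))))) (.g (nat_lit 1) (.e (nat_lit 77716) (nat_lit 0) .nil) .nil))) 
(.lf (nat_lit 467770) (.g (nat_lit 1282) (.e (nat_lit 3253) (nat_lit 197) (.e (nat_lit 532535) (nat_lit 9) (.e (nat_lit 336173) (nat_lit 10) .nil))) (.g (nat_lit 0) (.e (nat_lit 78356) (nat_lit 0) .nil) .nil))))) (.nd (nat_lit 8) (.nd (nat_lit 9) 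
(.lf (nat_lit 467130) (.g (nat_lit 3127) (.e (nat_lit 3253) (nat_lit 197) (.e (nat_lit 532501) (nat_lit 1) (.e (nat_lit 57927) (nat_lit 282) (.e (nat_lit 163868) (nat_lit 2) (.e (nat_lit 196663) (nat_lit 13) (.e (nat_lit 65571) (nat_lit 3) (.e (nat_lit 98341) (nat_lit 20) (.e (nat_lit 221203) (nat_lit 20) .nil)))))))) (.g (nat_lit 1) (.e (nat_lit 77559) (nat_lit 0) .nil) .nil))) 
(.lf (nat_lit 467642) (.g (nat_lit 3557) (.e (nat_lit 3253) (nat_lit 197) (.e (nat_lit 532504) (nat_lit 1) (.e (nat_lit 57929) (nat_lit 282) (.e (nat_lit 163874) (nat_lit 3) (.e (nat_lit 204854) (nat_lit 26) (.e (nat_lit 336019) (nat_lit 3) (.e (nat_lit 98342) (nat_lit 20) (.e (nat_lit 221204) (nat_lit 20) .nil)))))))) (.g (nat_lit 1) (.e (nat_lit 78124) (nat_lit 0) .nil) .nil)))) 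
(.nd (nat_lit 9) 
(.lf (nat_lit 467386) (.g (nat_lit 3299) (.e (nat_lit 3253) (nat_lit 197) (.e (nat_lit 532503) (nat_lit 1) (.e (nat_lit 57929) (nat_lit 282) (.e (nat_lit 163869) (nat_lit 2) (.e (nat_lit 196666) (nat_lit 13) (.e (nat_lit 65569) (nat_lit 3) (.e (nat_lit 98342) (nat_lit 20) (.e (nat_lit 221204) (nat_lit 20) .nil)))))))) (.g (nat_lit 1) (.e (nat_lit 77852) (nat_lit 0) .nil) .nil))) 
(.lf (nat_lit 467898) (.g (nat_lit 3986) (.e (nat_lit 3255) (nat_lit 197) (.e (nat_lit 532550) (nat_lit 12) (.e (nat_lit 360467) (nat_lit 3) (.e (nat_lit 516139) (nat_lit 7) .nil)))) (.g (nat_lit 0) (.e (nat_lit 78614) (nat_lit 0) .nil) .nil)))))) (.nd (nat_lit 7) (.nd (nat_lit 8) (.nd (nat_lit 9) 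
(.lf (nat_lit 467066) (.g (nat_lit 2631) (.e (nat_lit 3253) (nat_lit 197) (.e (nat_lit 532501) (nat_lit 1) (.e (nat_lit 57925) (nat_lit 282) (.e (nat_lit 163867) (nat_lit 2) (.e (nat_lit 196670) (nat_lit 14) (.e (nat_lit 73746) (nat_lit 3) (.e (nat_lit 516129) (nat_lit 3) (.e (nat_lit 221203) (nat_lit 20) .nil)))))))) (.g (nat_lit 1) (.e (nat_lit 77475) (nat_lit 0) .nil) .nil))) 
(.lf (nat_lit 467578) (.g (nat_lit 2498) (.e (nat_lit 3253) (nat_lit 197) (.e (nat_lit 532504) (nat_lit 1) (.e (nat_lit 57854) (nat_lit 252) (.e (nat_lit 57409) (nat_lit 12) (.e (nat_lit 336367) (nat_lit 27) (.e (nat_lit 426542) (nat_lit 29) (.e (nat_lit 360192) (nat_lit 0) .nil))))))) (.g (nat_lit 1) (.e (nat_lit 78054) (nat_lit 0) .nil) .nil)))) (.nd (nat_lit 9) 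
(.lf (nat_lit 467322) (.g (nat_lit 3190) (.e (nat_lit 3253) (nat_lit 197) (.e (nat_lit 532503) (nat_lit 1) (.e (nat_lit 57848) (nat_lit 252) (.e (nat_lit 57407) (nat_lit 12) (.e (nat_lit 336367) (nat_lit 27) (.e (nat_lit 426542) (nat_lit 29) (.e (nat_lit 352266) (nat_lit 0) .nil))))))) (.g (nat_lit 1) (.e (nat_lit 77783) (nat_lit 0) .nil) .nil))) 
(.lf (nat_lit 467834) (.g (nat_lit 2130) (.e (nat_lit 3254) (nat_lit 197) (.e (nat_lit 532504) (nat_lit 1) (.e (nat_lit 57851) (nat_lit 252) (.e (nat_lit 57446) (nat_lit 19) (.e (nat_lit 393229) (nat_lit 9) (.e (nat_lit 336088) (nat_lit 9) (.e (nat_lit 336257) (nat_lit 15) .nil))))))) (.g (nat_lit 1) (.e (nat_lit 78497) (nat_lit 0) .nil) .nil))))) (.nd (nat_lit 8) (.nd (nat_lit 9) 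
(.lf (nat_lit 467194) (.g (nat_lit 2578) (.e (nat_lit 3253) (nat_lit 197) (.e (nat_lit 532501) (nat_lit 1) (.e (nat_lit 57927) (nat_lit 282) (.e (nat_lit 163875) (nat_lit 3) (.e (nat_lit 204872) (nat_lit 30) (.e (nat_lit 368676) (nat_lit 21) (.e (nat_lit 516131) (nat_lit 3) (.e (nat_lit 221204) (nat_lit 20) .nil)))))))) (.g (nat_lit 1) (.e (nat_lit 77640) (nat_lit 0) .nil) .nil))) 
(.lf (nat_lit 467706) (.g (nat_lit 1696) (.e (nat_lit 3253) (nat_lit 197) (.e (nat_lit 532511) (nat_lit 2) (.e (nat_lit 106536) (nat_lit 11) (.e (nat_lit 16413) (nat_lit 2) (.e (nat_lit 196672) (nat_lit 15) (.e (nat_lit 89856) (nat_lit 0) .nil)))))) (.g (nat_lit 1) (.e (nat_lit 78194) (nat_lit 0) .nil) .nil)))) (.nd (nat_lit 9) 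
(.lf (nat_lit 467450) (.g (nat_lit 3774) (.e (nat_lit 3253) (nat_lit 197) (.e (nat_lit 532503) (nat_lit 1) (.e (nat_lit 57931) (nat_lit 282) (.e (nat_lit 163867) (nat_lit 2) (.e (nat_lit 196670) (nat_lit 14) (.e (nat_lit 73746) (nat_lit 3) (.e (nat_lit 516131) (nat_lit 3) (.e (nat_lit 221204) (nat_lit 20) .nil)))))))) (.g (nat_lit 1) (.e (nat_lit 77920) (nat_lit 0) .nil) .nil))) 
(.lf (nat_lit 467962) (.g (nat_lit 4788) (.e (nat_lit 3256) (nat_lit 197) (.e (nat_lit 532550) (nat_lit 12) (.e (nat_lit 360474) (nat_lit 8) (.e (nat_lit 557094) (nat_lit 12) (.e (nat_lit 164022) (nat_lit 46) (.e (nat_lit 704737) (nat_lit 11) (.e (nat_lit 16391) (nat_lit 0) .nil))))))) (.g (nat_lit 1) (.e (nat_lit 78742) (nat_lit 0) .nil) .nil)))))))))) 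
(.nd (nat_lit 3) (.nd (nat_lit 4) (.nd (nat_lit 5) (.nd (nat_lit 6) (.nd (nat_lit 7) 
(.nd (nat_lit 8) (.nd (nat_lit 9) 
(.lf (nat_lit 466950) (.g (nat_lit 2317) (.e (nat_lit 3253) (nat_lit 197) (.e (nat_lit 532499) (nat_lit 1) (.e (nat_lit 57927) (nat_lit 282) (.e (nat_lit 163874) (nat_lit 3) (.e (nat_lit 204863) (nat_lit 27) (.e (nat_lit 344117) (nat_lit 21) (.e (nat_lit 516130) (nat_lit 3) (.e (nat_lit 221203) (nat_lit 20) .nil)))))))) (.g (nat_lit 1) (.e (nat_lit 77348) (nat_lit 0) .nil) .nil))) 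
(.lf (nat_lit 467462) (.g (nat_lit 4197) (.e (nat_lit 3253) (nat_lit 197) (.e (nat_lit 532503) (nat_lit 1) (.e (nat_lit 57931) (nat_lit 282) (.e (nat_lit 163869) (nat_lit 2) (.e (nat_lit 196668) (nat_lit 14) (.e (nat_lit 73747) (nat_lit 3) (.e (nat_lit 516131) (nat_lit 3) (.e (nat_lit 221204) (nat_lit 20) .nil)))))))) (.g (nat_lit 1) (.e (nat_lit 77936) (nat_lit 0) .nil) .nil)))) (.nd (nat_lit 9) 
(.lf (nat_lit 467206) (.g (nat_lit 3487) (.e (nat_lit 3253) (nat_lit 197) (.e (nat_lit 532501) (nat_lit 1) (.e (nat_lit 57928) (nat_lit 282) (.e (nat_lit 163871) (nat_lit 2) (.e (nat_lit 196670) (nat_lit 14) (.e (nat_lit 73746) (nat_lit 3) (.e (nat_lit 516129) (nat_lit 3) (.e (nat_lit 221203) (nat_lit 20) .nil)))))))) (.g (nat_lit 1) (.e (nat_lit 77663) (nat_lit 0) .nil) .nil))) 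
(.lf (nat_lit 467718) (.g (nat_lit 1868) (.e (nat_lit 3253) (nat_lit 197) (.e (nat_lit 532513) (nat_lit 3) (.e (nat_lit 114698) (nat_lit 11) (.e (nat_lit 426132) (nat_lit 3) (.e (nat_lit 204877) (nat_lit 31) (.e (nat_lit 376835) (nat_lit 0) .nil)))))) (.g (nat_lit 1) (.e (nat_lit 78220) (nat_lit 0) .nil) .nil))))) (.nd (nat_lit 8) (.nd (nat_lit 9) 
(.lf (nat_lit 467078) (.g (nat_lit 3616) (.e (nat_lit 3253) (nat_lit 197) (.e (nat_lit 532501) (nat_lit 1) (.e (nat_lit 57926) (nat_lit 282) (.e (nat_lit 163868) (nat_lit 2) (.e (nat_lit 196668) (nat_lit 14) (.e (nat_lit 73747) (nat_lit 3) (.e (nat_lit 516129) (nat_lit 3) (.e (nat_lit 221203) (nat_lit 20) .nil)))))))) (.g (nat_lit 1) (.e (nat_lit 77492) (nat_lit 0) .nil) .nil))) 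
(.lf (nat_lit 467590) (.g (nat_lit 1538) (.e (nat_lit 3253) (nat_lit 197) (.e (nat_lit 532504) (nat_lit 1) (.e (nat_lit 57854) (nat_lit 252) (.e (nat_lit 57446) (nat_lit 19) (.e (nat_lit 401152) (nat_lit 11) (.e (nat_lit 360192) (nat_lit 0) .nil)))))) (.g (nat_lit 1) (.e (nat_lit 78066) (nat_lit 0) .nil) .nil)))) (.nd (nat_lit 9) 
(.lf (nat_lit 467334) (.g (nat_lit 2604) (.e (nat_lit 3253) (nat_lit 197) (.e (nat_lit 532503) (nat_lit 1) (.e (nat_lit 57848) (nat_lit 252) (.e (nat_lit 57407) (nat_lit 12) (.e (nat_lit 336456) (nat_lit 34) (.e (nat_lit 483393) (nat_lit 23) (.e (nat_lit 336275) (nat_lit 15) .nil))))))) (.g (nat_lit 1) (.e (nat_lit 77795) (nat_lit 0) .nil) .nil))) 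
(.lf (nat_lit 467846) (.g (nat_lit 4411) (.e (nat_lit 3254) (nat_lit 197) (.e (nat_lit 532550) (nat_lit 12) (.e (nat_lit 360474) (nat_lit 8) (.e (nat_lit 557085) (nat_lit 11) .nil)))) (.g (nat_lit 0) (.e (nat_lit 78516) (nat_lit 0) .nil) .nil)))))) (.nd (nat_lit 7) (.nd (nat_lit 8) (.nd (nat_lit 9) 
(.lf (nat_lit 467014) (.g (nat_lit 1980) (.e (nat_lit 3253) (nat_lit 197) (.e (nat_lit 532501) (nat_lit 1) (.e (nat_lit 57851) (nat_lit 252) (.e (nat_lit 57446) (nat_lit 19) (.e (nat_lit 401152) (nat_lit 11) (.e (nat_lit 360192) (nat_lit 0) .nil)))))) (.g (nat_lit 1) (.e (nat_lit 77421) (nat_lit 0) .nil) .nil))) 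
(.lf (nat_lit 467526) (.g (nat_lit 3059) (.e (nat_lit 3253) (nat_lit 197) (.e (nat_lit 532504) (nat_lit 1) (.e (nat_lit 57852) (nat_lit 252) (.e (nat_lit 57376) (nat_lit 3) (.e (nat_lit 98341) (nat_lit 20) (.e (nat_lit 221210) (nat_lit 22) (.e (nat_lit 196665) (nat_lit 13) (.e (nat_lit 65637) (nat_lit 15) .nil)))))))) (.g (nat_lit 1) (.e (nat_lit 78002) (nat_lit 0) .nil) .nil)))) (.nd (nat_lit 9) 
(.lf (nat_lit 467270) (.g (nat_lit 2051) (.e (nat_lit 3253) (nat_lit 197) (.e (nat_lit 532503) (nat_lit 1) (.e (nat_lit 57844) (nat_lit 252) (.e (nat_lit 57406) (nat_lit 12) (.e (nat_lit 336456) (nat_lit 34) .nil))))) (.g (nat_lit 0) (.e (nat_lit 77731) (nat_lit 0) .nil) .nil))) 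
(.lf (nat_lit 467782) (.g (nat_lit 3907) (.e (nat_lit 3253) (nat_lit 197) (.e (nat_lit 532550) (nat_lit 12) (.e (nat_lit 360474) (nat_lit 8) (.e (nat_lit 557093) (nat_lit 12) (.e (nat_lit 164023) (nat_lit 46) (.e (nat_lit 704737) (nat_lit 11) (.e (nat_lit 16403) (nat_lit 0) .nil))))))) (.g (nat_lit 1) (.e (nat_lit 78371) (nat_lit 0) .nil) .nil))))) (.nd (nat_lit 8) (.nd (nat_lit 9) 
(.lf (nat_lit 467142) (.g (nat_lit 3042) (.e (nat_lit 3253) (nat_lit 197) (.e (nat_lit 532501) (nat_lit 1) (.e (nat_lit 57927) (nat_lit 282) (.e (nat_lit 163868) (nat_lit 2) (.e (nat_lit 196668) (nat_lit 14) (.e (nat_lit 73747) (nat_lit 3) (.e (nat_lit 516131) (nat_lit 3) (.e (nat_lit 221203) (nat_lit 20) .nil)))))))) (.g (nat_lit 1) (.e (nat_lit 77571) (nat_lit 0) .nil) .nil))) 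
(.lf (nat_lit 467654) (.g (nat_lit 2696) (.e (nat_lit 3253) (nat_lit 197) (.e (nat_lit 532504) (nat_lit 1) (.e (nat_lit 57931) (nat_lit 282) (.e (nat_lit 163867) (nat_lit 2) (.e (nat_lit 196664) (nat_lit 13) (.e (nat_lit 65571) (nat_lit 3) (.e (nat_lit 98342) (nat_lit 20) (.e (nat_lit 221204) (nat_lit 20) .nil)))))))) (.g (nat_lit 1) (.e (nat_lit 78138) (nat_lit 0) .nil) .nil)))) (.nd (nat_lit 9) 
(.lf (nat_lit 467398) (.g (nat_lit 2907) (.e (nat_lit 3253) (nat_lit 197) (.e (nat_lit 532503) (nat_lit 1) (.e (nat_lit 57929) (nat_lit 282) (.e (nat_lit 163874) (nat_lit 3) (.e (nat_lit 204851) (nat_lit 26) (.e (nat_lit 336019) (nat_lit 3) (.e (nat_lit 98342) (nat_lit 20) (.e (nat_lit 221204) (nat_lit 20) .nil)))))))) (.g (nat_lit 1) (.e (nat_lit 77864) (nat_lit 0) .nil) .nil))) 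
(.lf (nat_lit 467910) (.g (nat_lit 3915) (.e (nat_lit 3255) (nat_lit 197) (.e (nat_lit 532560) (nat_lit 14) (.e (nat_lit 376869) (nat_lit 23) (.e (nat_lit 98350) (nat_lit 24) (.e (nat_lit 409649) (nat_lit 18) (.e (nat_lit 303111) (nat_lit 0) .nil)))))) (.g (nat_lit 1) (.e (nat_lit 78626) (nat_lit 0) .nil) .nil))))))) (.nd (nat_lit 6) (.nd (nat_lit 7) (.nd (nat_lit 8) (.nd (nat_lit 9) 
(.lf (nat_lit 466982) (.g (nat_lit 3693) (.e (nat_lit 3253) (nat_lit 197) (.e (nat_lit 532499) (nat_lit 1) (.e (nat_lit 57931) (nat_lit 282) (.e (nat_lit 163869) (nat_lit 2) (.e (nat_lit 196668) (nat_lit 14) (.e (nat_lit 73747) (nat_lit 3) (.e (nat_lit 516131) (nat_lit 3) (.e (nat_lit 221204) (nat_lit 20) .nil)))))))) (.g (nat_lit 1) (.e (nat_lit 77388) (nat_lit 0) .nil) .nil))) 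
(.lf (nat_lit 467494) (.g (nat_lit 2983) (.e (nat_lit 3253) (nat_lit 197) (.e (nat_lit 532504) (nat_lit 1) (.e (nat_lit 57851) (nat_lit 252) (.e (nat_lit 57406) (nat_lit 12) (.e (nat_lit 336367) (nat_lit 27) (.e (nat_lit 426542) (nat_lit 29) (.e (nat_lit 360192) (nat_lit 0) .nil))))))) (.g (nat_lit 1) (.e (nat_lit 77970) (nat_lit 0) .nil) .nil)))) (.nd (nat_lit 9) 
(.lf (nat_lit 467238) (.g (nat_lit 3802) (.e (nat_lit 3253) (nat_lit 197) (.e (nat_lit 532501) (nat_lit 1) (.e (nat_lit 57931) (nat_lit 282) (.e (nat_lit 163867) (nat_lit 2) (.e (nat_lit 196670) (nat_lit 14) (.e (nat_lit 73746) (nat_lit 3) (.e (nat_lit 516129) (nat_lit 3) (.e (nat_lit 221204) (nat_lit 20) .nil)))))))) (.g (nat_lit 1) (.e (nat_lit 77695) (nat_lit 0) .nil) .nil))) 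
(.lf (nat_lit 467750) (.g (nat_lit 3061) (.e (nat_lit 3253) (nat_lit 197) (.e (nat_lit 532523) (nat_lit 7) (.e (nat_lit 319534) (nat_lit 16) (.e (nat_lit 286732) (nat_lit 2) (.e (nat_lit 90176) (nat_lit 15) (.e (nat_lit 196352) (nat_lit 20) .nil)))))) (.g (nat_lit 1) (.e (nat_lit 78295) (nat_lit 0) .nil) .nil))))) (.nd (nat_lit 8) (.nd (nat_lit 9) 
(.lf (nat_lit 467110) (.g (nat_lit 2296) (.e (nat_lit 3253) (nat_lit 197) (.e (nat_lit 532501) (nat_lit 1) (.e (nat_lit 57926) (nat_lit 282) (.e (nat_lit 163874) (nat_lit 3) (.e (nat_lit 204872) (nat_lit 30) (.e (nat_lit 368676) (nat_lit 21) (.e (nat_lit 516131) (nat_lit 3) (.e (nat_lit 221204) (nat_lit 20) .nil)))))))) (.g (nat_lit 1) (.e (nat_lit 77535) (nat_lit 0) .nil) .nil))) 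
(.lf (nat_lit 467622) (.g (nat_lit 4132) (.e (nat_lit 3253) (nat_lit 197) (.e (nat_lit 532504) (nat_lit 1) (.e (nat_lit 57929) (nat_lit 282) (.e (nat_lit 163869) (nat_lit 2) (.e (nat_lit 196666) (nat_lit 13) (.e (nat_lit 65571) (nat_lit 3) (.e (nat_lit 98341) (nat_lit 20) (.e (nat_lit 221204) (nat_lit 20) .nil)))))))) (.g (nat_lit 1) (.e (nat_lit 78102) (nat_lit 0) .nil) .nil)))) (.nd (nat_lit 9) 
(.lf (nat_lit 467366) (.g (nat_lit 3371) (.e (nat_lit 3253) (nat_lit 197) (.e (nat_lit 532503) (nat_lit 1) (.e (nat_lit 57924) (nat_lit 282) (.e (nat_lit 163867) (nat_lit 2) (.e (nat_lit 196668) (nat_lit 14) (.e (nat_lit 73747) (nat_lit 3) (.e (nat_lit 516131) (nat_lit 3) (.e (nat_lit 221204) (nat_lit 20) .nil)))))))) (.g (nat_lit 1) (.e (nat_lit 77827) (nat_lit 0) .nil) .nil))) 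
(.lf (nat_lit 467878) (.g (nat_lit 3105) (.e (nat_lit 3255) (nat_lit 197) (.e (nat_lit 532535) (nat_lit 9) (.e (nat_lit 336099) (nat_lit 9) (.e (nat_lit 335937) (nat_lit 0) .nil)))) (.g (nat_lit 0) (.e (nat_lit 78594) (nat_lit 0) .nil) .nil)))))) (.nd (nat_lit 7) (.nd (nat_lit 8) (.nd (nat_lit 9) 
(.lf (nat_lit 467046) (.g (nat_lit 2016) (.e (nat_lit 3253) (nat_lit 197) (.e (nat_lit 532501) (nat_lit 1) (.e (nat_lit 57854) (nat_lit 252) (.e (nat_lit 57445) (nat_lit 19) (.e (nat_lit 401152) (nat_lit 11) (.e (nat_lit 352266) (nat_lit 0) .nil)))))) (.g (nat_lit 1) (.e (nat_lit 77453) (nat_lit 0) .nil) .nil))) 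
(.lf (nat_lit 467558) (.g (nat_lit 2455) (.e (nat_lit 3253) (nat_lit 197) (.e (nat_lit 532504) (nat_lit 1) (.e (nat_lit 57852) (nat_lit 252) (.e (nat_lit 57447) (nat_lit 19) (.e (nat_lit 401152) (nat_lit 11) (.e (nat_lit 352265) (nat_lit 0) .nil)))))) (.g (nat_lit 1) (.e (nat_lit 78034) (nat_lit 0) .nil) .nil)))) (.nd (nat_lit 9) 
(.lf (nat_lit 467302) (.g (nat_lit 2017) (.e (nat_lit 3253) (nat_lit 197) (.e (nat_lit 532503) (nat_lit 1) (.e (nat_lit 57847) (nat_lit 252) (.e (nat_lit 57411) (nat_lit 12) (.e (nat_lit 336456) (nat_lit 34) (.e (nat_lit 483393) (nat_lit 23) (.e (nat_lit 336291) (nat_lit 15) .nil))))))) (.g (nat_lit 1) (.e (nat_lit 77763) (nat_lit 0) .nil) .nil))) 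
(.lf (nat_lit 467814) (.g (nat_lit 2618) (.e (nat_lit 3253) (nat_lit 197) (.e (nat_lit 532563) (nat_lit 15) (.e (nat_lit 385066) (nat_lit 26) (.e (nat_lit 532534) (nat_lit 9) (.e (nat_lit 336326) (nat_lit 18) (.e (nat_lit 204854) (nat_lit 26) (.e (nat_lit 336270) (nat_lit 15) .nil))))))) (.g (nat_lit 1) (.e (nat_lit 78468) (nat_lit 0) .nil) .nil))))) (.nd (nat_lit 8) (.nd (nat_lit 9) 
(.lf (nat_lit 467174) (.g (nat_lit 3681) (.e (nat_lit 3253) (nat_lit 197) (.e (nat_lit 532501) (nat_lit 1) (.e (nat_lit 57927) (nat_lit 282) (.e (nat_lit 163873) (nat_lit 3) (.e (nat_lit 204853) (nat_lit 26) (.e (nat_lit 336019) (nat_lit 3) (.e (nat_lit 98341) (nat_lit 20) (.e (nat_lit 221204) (nat_lit 20) .nil)))))))) (.g (nat_lit 1) (.e (nat_lit 77617) (nat_lit 0) .nil) .nil))) 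
(.lf (nat_lit 467686) (.g (nat_lit 3283) (.e (nat_lit 3253) (nat_lit 197) (.e (nat_lit 532504) (nat_lit 1) (.e (nat_lit 57931) (nat_lit 282) (.e (nat_lit 163874) (nat_lit 3) (.e (nat_lit 204851) (nat_lit 26) (.e (nat_lit 336019) (nat_lit 3) (.e (nat_lit 98341) (nat_lit 20) (.e (nat_lit 221204) (nat_lit 20) .nil)))))))) (.g (nat_lit 1) (.e (nat_lit 78172) (nat_lit 0) .nil) .nil)))) 
(.nd (nat_lit 9) 
(.lf (nat_lit 467430) (.g (nat_lit 3723) (.e (nat_lit 3253) (nat_lit 197) (.e (nat_lit 532503) (nat_lit 1) (.e (nat_lit 57931) (nat_lit 282) (.e (nat_lit 163866) (nat_lit 2) (.e (nat_lit 196668) (nat_lit 14) (.e (nat_lit 73747) (nat_lit 3) (.e (nat_lit 516129) (nat_lit 3) (.e (nat_lit 221204) (nat_lit 20) .nil)))))))) (.g (nat_lit 1) (.e (nat_lit 77900) (nat_lit 0) .nil) .nil))) 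
(.lf (nat_lit 467942) (.g (nat_lit 2711) (.e (nat_lit 3256) (nat_lit 197) (.e (nat_lit 532504) (nat_lit 1) (.e (nat_lit 57851) (nat_lit 252) (.e (nat_lit 57406) (nat_lit 12) (.e (nat_lit 336456) (nat_lit 34) .nil))))) (.g (nat_lit 0) (.e (nat_lit 78661) (nat_lit 0) .nil) .nil)))))))) (.nd (nat_lit 5) (.nd (nat_lit 6) (.nd (nat_lit 7) (.nd (nat_lit 8) (.nd (nat_lit 9) 
(.lf (nat_lit 466966) (.g (nat_lit 2431) (.e (nat_lit 3253) (nat_lit 197) (.e (nat_lit 532499) (nat_lit 1) (.e (nat_lit 57931) (nat_lit 282) (.e (nat_lit 163867) (nat_lit 2) (.e (nat_lit 196668) (nat_lit 14) (.e (nat_lit 73747) (nat_lit 3) (.e (nat_lit 516129) (nat_lit 3) (.e (nat_lit 221203) (nat_lit 20) .nil)))))))) (.g (nat_lit 1) (.e (nat_lit 77371) (nat_lit 0) .nil) .nil))) 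
(.lf (nat_lit 467478) (.g (nat_lit 4724) (.e (nat_lit 3253) (nat_lit 197) (.e (nat_lit 532503) (nat_lit 1) (.e (nat_lit 57931) (nat_lit 282) (.e (nat_lit 163874) (nat_lit 3) (.e (nat_lit 204854) (nat_lit 26) (.e (nat_lit 336019) (nat_lit 3) (.e (nat_lit 98342) (nat_lit 20) (.e (nat_lit 221204) (nat_lit 20) .nil)))))))) (.g (nat_lit 1) (.e (nat_lit 77954) (nat_lit 0) .nil) .nil)))) 
(.nd (nat_lit 9) 
(.lf (nat_lit 467222) (.g (nat_lit 4100) (.e (nat_lit 3253) (nat_lit 197) (.e (nat_lit 532501) (nat_lit 1) (.e (nat_lit 57929) (nat_lit 282) (.e (nat_lit 163869) (nat_lit 2) (.e (nat_lit 196670) (nat_lit 14) (.e (nat_lit 73746) (nat_lit 3) (.e (nat_lit 516129) (nat_lit 3) (.e (nat_lit 221204) (nat_lit 20) .nil)))))))) (.g (nat_lit 1) (.e (nat_lit 77679) (nat_lit 0) .nil) .nil))) 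
(.lf (nat_lit 467734) (.g (nat_lit 2884) (.e (nat_lit 3253) (nat_lit 197) (.e (nat_lit 532523) (nat_lit 7) (.e (nat_lit 319537) (nat_lit 19) (.e (nat_lit 311312) (nat_lit 2) (.e (nat_lit 196661) (nat_lit 12) (.e (nat_lit 65280) (nat_lit 208) (.e (nat_lit 237580) (nat_lit 0) .nil))))))) (.g (nat_lit 1) (.e (nat_lit 78278) (nat_lit 0) .nil) .nil))))) (.nd (nat_lit 8) (.nd (nat_lit 9) 
(.lf (nat_lit 467094) (.g (nat_lit 2696) (.e (nat_lit 3253) (nat_lit 197) (.e (nat_lit 532501) (nat_lit 1) (.e (nat_lit 57926) (nat_lit 282) (.e (nat_lit 163869) (nat_lit 2) (.e (nat_lit 196668) (nat_lit 14) (.e (nat_lit 73747) (nat_lit 3) (.e (nat_lit 516130) (nat_lit 3) (.e (nat_lit 221204) (nat_lit 20) .nil)))))))) (.g (nat_lit 1) (.e (nat_lit 77509) (nat_lit 0) .nil) .nil))) 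
(.lf (nat_lit 467606) (.g (nat_lit 2271) (.e (nat_lit 3253) (nat_lit 197) (.e (nat_lit 532504) (nat_lit 1) (.e (nat_lit 57924) (nat_lit 282) (.e (nat_lit 163868) (nat_lit 2) (.e (nat_lit 196668) (nat_lit 14) (.e (nat_lit 73746) (nat_lit 3) (.e (nat_lit 516129) (nat_lit 3) (.e (nat_lit 221204) (nat_lit 20) .nil)))))))) (.g (nat_lit 1) (.e (nat_lit 78082) (nat_lit 0) .nil) .nil)))) (.nd (nat_lit 9) 
(.lf (nat_lit 467350) (.g (nat_lit 2820) (.e (nat_lit 3253) (nat_lit 197) (.e (nat_lit 532503) (nat_lit 1) (.e (nat_lit 57849) (nat_lit 252) (.e (nat_lit 57379) (nat_lit 3) (.e (nat_lit 98342) (nat_lit 20) (.e (nat_lit 221212) (nat_lit 22) (.e (nat_lit 196665) (nat_lit 13) (.e (nat_lit 65637) (nat_lit 15) .nil)))))))) (.g (nat_lit 1) (.e (nat_lit 77811) (nat_lit 0) .nil) .nil))) 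
(.lf (nat_lit 467862) (.g (nat_lit 2017) (.e (nat_lit 3255) (nat_lit 197) (.e (nat_lit 532501) (nat_lit 1) (.e (nat_lit 57852) (nat_lit 252) (.e (nat_lit 57406) (nat_lit 12) .nil)))) (.g (nat_lit 0) (.e (nat_lit 78537) (nat_lit 0) .nil) .nil)))))) (.nd (nat_lit 7) (.nd (nat_lit 8) (.nd (nat_lit 9) 
(.lf (nat_lit 467030) (.g (nat_lit 2417) (.e (nat_lit 3253) (nat_lit 197) (.e (nat_lit 532501) (nat_lit 1) (.e (nat_lit 57854) (nat_lit 252) (.e (nat_lit 57406) (nat_lit 12) (.e (nat_lit 336367) (nat_lit 27) (.e (nat_lit 426542) (nat_lit 29) (.e (nat_lit 352266) (nat_lit 0) .nil))))))) (.g (nat_lit 1) (.e (nat_lit 77437) (nat_lit 0) .nil) .nil))) 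
(.lf (nat_lit 467542) (.g (nat_lit 2669) (.e (nat_lit 3253) (nat_lit 197) (.e (nat_lit 532504) (nat_lit 1) (.e (nat_lit 57852) (nat_lit 252) (.e (nat_lit 57406) (nat_lit 12) (.e (nat_lit 336372) (nat_lit 27) .nil))))) (.g (nat_lit 0) (.e (nat_lit 78018) (nat_lit 0) .nil) .nil)))) (.nd (nat_lit 9) 
(.lf (nat_lit 467286) (.g (nat_lit 3051) (.e (nat_lit 3253) (nat_lit 197) (.e (nat_lit 532503) (nat_lit 1) (.e (nat_lit 57847) (nat_lit 252) (.e (nat_lit 57377) (nat_lit 3) (.e (nat_lit 98313) (nat_lit 9) (.e (nat_lit 336027) (nat_lit 3) (.e (nat_lit 98341) (nat_lit 20) (.e (nat_lit 221204) (nat_lit 20) .nil)))))))) (.g (nat_lit 1) (.e (nat_lit 77747) (nat_lit 0) .nil) .nil))) 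
(.lf (nat_lit 467798) (.g (nat_lit 4577) (.e (nat_lit 3253) (nat_lit 197) (.e (nat_lit 532550) (nat_lit 12) (.e (nat_lit 360475) (nat_lit 8) (.e (nat_lit 557091) (nat_lit 12) (.e (nat_lit 164022) (nat_lit 46) (.e (nat_lit 704737) (nat_lit 11) (.e (nat_lit 16402) (nat_lit 0) .nil))))))) (.g (nat_lit 1) (.e (nat_lit 78387) (nat_lit 0) .nil) .nil))))) (.nd (nat_lit 8) (.nd (nat_lit 9) 
(.lf (nat_lit 467158) (.g (nat_lit 3065) (.e (nat_lit 3253) (nat_lit 197) (.e (nat_lit 532501) (nat_lit 1) (.e (nat_lit 57927) (nat_lit 282) (.e (nat_lit 163869) (nat_lit 2) (.e (nat_lit 196668) (nat_lit 14) (.e (nat_lit 73747) (nat_lit 3) (.e (nat_lit 516131) (nat_lit 3) (.e (nat_lit 221203) (nat_lit 20) .nil)))))))) (.g (nat_lit 1) (.e (nat_lit 77591) (nat_lit 0) .nil) .nil))) 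
(.lf (nat_lit 467670) (.g (nat_lit 4488) (.e (nat_lit 3253) (nat_lit 197) (.e (nat_lit 532504) (nat_lit 1) (.e (nat_lit 57931) (nat_lit 282) (.e (nat_lit 163869) (nat_lit 2) (.e (nat_lit 196666) (nat_lit 13) (.e (nat_lit 65569) (nat_lit 3) (.e (nat_lit 98342) (nat_lit 20) (.e (nat_lit 221204) (nat_lit 20) .nil)))))))) (.g (nat_lit 1) (.e (nat_lit 78154) (nat_lit 0) .nil) .nil)))) (.nd (nat_lit 9) 
(.lf (nat_lit 467414) (.g (nat_lit 3223) (.e (nat_lit 3253) (nat_lit 197) (.e (nat_lit 532503) (nat_lit 1) (.e (nat_lit 57930) (nat_lit 282) (.e (nat_lit 163867) (nat_lit 2) (.e (nat_lit 196670) (nat_lit 14) (.e (nat_lit 73746) (nat_lit 3) (.e (nat_lit 516131) (nat_lit 3) (.e (nat_lit 221204) (nat_lit 20) .nil)))))))) (.g (nat_lit 1) (.e (nat_lit 77881) (nat_lit 0) .nil) .nil))) 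
(.lf (nat_lit 467926) (.g (nat_lit 2668) (.e (nat_lit 3256) (nat_lit 197) (.e (nat_lit 532501) (nat_lit 1) (.e (nat_lit 57851) (nat_lit 252) (.e (nat_lit 57406) (nat_lit 12) (.e (nat_lit 336456) (nat_lit 34) (.e (nat_lit 483391) (nat_lit 23) (.e (nat_lit 336239) (nat_lit 15) .nil))))))) (.g (nat_lit 1) (.e (nat_lit 78644) (nat_lit 0) .nil) .nil))))))) 
(.nd (nat_lit 6) (.nd (nat_lit 7) (.nd (nat_lit 8) (.nd (nat_lit 9) 
(.lf (nat_lit 466998) (.g (nat_lit 3118) (.e (nat_lit 3253) (nat_lit 197) (.e (nat_lit 532501) (nat_lit 1) (.e (nat_lit 57851) (nat_lit 252) (.e (nat_lit 57406) (nat_lit 12) (.e (nat_lit 336367) (nat_lit 27) (.e (nat_lit 426542) (nat_lit 29) (.e (nat_lit 352266) (nat_lit 0) .nil))))))) (.g (nat_lit 1) (.e (nat_lit 77405) (nat_lit 0) .nil) .nil))) 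
(.lf (nat_lit 467510) (.g (nat_lit 3595) (.e (nat_lit 3253) (nat_lit 197) (.e (nat_lit 532504) (nat_lit 1) (.e (nat_lit 57852) (nat_lit 252) (.e (nat_lit 57349) (nat_lit 0) (.e (nat_lit 1860) (nat_lit 124) (.e (nat_lit 557105) (nat_lit 14) (.e (nat_lit 180252) (nat_lit 10) (.e (nat_lit 573481) (nat_lit 13) (.e (nat_lit 65637) (nat_lit 15) .nil))))))))) (.g (nat_lit 1) (.e (nat_lit 77986) (nat_lit 0) .nil) .nil)))) 
(.nd (nat_lit 9) 
(.lf (nat_lit 467254) (.g (nat_lit 3990) (.e (nat_lit 3253) (nat_lit 197) (.e (nat_lit 532501) (nat_lit 1) (.e (nat_lit 57931) (nat_lit 282) (.e (nat_lit 163869) (nat_lit 2) (.e (nat_lit 196668) (nat_lit 14) (.e (nat_lit 73747) (nat_lit 3) (.e (nat_lit 516131) (nat_lit 3) (.e (nat_lit 221204) (nat_lit 20) .nil)))))))) (.g (nat_lit 1) (.e (nat_lit 77712) (nat_lit 0) .nil) .nil))) 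
(.lf (nat_lit 467766) (.g (nat_lit 3016) (.e (nat_lit 3253) (nat_lit 197) (.e (nat_lit 532534) (nat_lit 9) (.e (nat_lit 336019) (nat_lit 3) (.e (nat_lit 98341) (nat_lit 20) (.e (nat_lit 221198) (nat_lit 20) (.e (nat_lit 3266) (nat_lit 199) (.e (nat_lit 548889) (nat_lit 9) (.e (nat_lit 65642) (nat_lit 15) .nil)))))))) (.g (nat_lit 1) (.e (nat_lit 78338) (nat_lit 0) .nil) .nil))))) 
(.nd (nat_lit 8) (.nd (nat_lit 9) 
(.lf (nat_lit 467126) (.g (nat_lit 1925) (.e (nat_lit 3253) (nat_lit 197) (.e (nat_lit 532501) (nat_lit 1) (.e (nat_lit 57927) (nat_lit 282) (.e (nat_lit 163866) (nat_lit 2) (.e (nat_lit 196670) (nat_lit 14) (.e (nat_lit 73746) (nat_lit 3) (.e (nat_lit 516131) (nat_lit 3) (.e (nat_lit 221204) (nat_lit 20) .nil)))))))) (.g (nat_lit 1) (.e (nat_lit 77555) (nat_lit 0) .nil) .nil))) 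
(.lf (nat_lit 467638) (.g (nat_lit 3227) (.e (nat_lit 3253) (nat_lit 197) (.e (nat_lit 532504) (nat_lit 1) (.e (nat_lit 57929) (nat_lit 282) (.e (nat_lit 163874) (nat_lit 3) (.e (nat_lit 204851) (nat_lit 26) (.e (nat_lit 336019) (nat_lit 3) (.e (nat_lit 98342) (nat_lit 20) (.e (nat_lit 221204) (nat_lit 20) .nil)))))))) (.g (nat_lit 1) (.e (nat_lit 78118) (nat_lit 0) .nil) .nil)))) 
(.nd (nat_lit 9) 
(.lf (nat_lit 467382) (.g (nat_lit 2289) (.e (nat_lit 3253) (nat_lit 197) (.e (nat_lit 532503) (nat_lit 1) (.e (nat_lit 57929) (nat_lit 282) (.e (nat_lit 163867) (nat_lit 2) (.e (nat_lit 196670) (nat_lit 14) (.e (nat_lit 73746) (nat_lit 3) (.e (nat_lit 516129) (nat_lit 3) (.e (nat_lit 221203) (nat_lit 20) .nil)))))))) (.g (nat_lit 1) (.e (nat_lit 77848) (nat_lit 0) .nil) .nil))) 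
(.lf (nat_lit 467894) (.g (nat_lit 2168) (.e (nat_lit 3255) (nat_lit 197) (.e (nat_lit 532547) (nat_lit 11) (.e (nat_lit 352312) (nat_lit 22) (.e (nat_lit 90130) (nat_lit 9) (.e (nat_lit 2830) (nat_lit 182) .nil))))) (.g (nat_lit 0) (.e (nat_lit 78610) (nat_lit 0) .nil) .nil)))))) (.nd (nat_lit 7) (.nd (nat_lit 8) (.nd (nat_lit 9) 
(.lf (nat_lit 467062) (.g (nat_lit 3159) (.e (nat_lit 3253) (nat_lit 197) (.e (nat_lit 532501) (nat_lit 1) (.e (nat_lit 57924) (nat_lit 282) (.e (nat_lit 163867) (nat_lit 2) (.e (nat_lit 196670) (nat_lit 14) (.e (nat_lit 73746) (nat_lit 3) (.e (nat_lit 516131) (nat_lit 3) (.e (nat_lit 221204) (nat_lit 20) .nil)))))))) (.g (nat_lit 1) (.e (nat_lit 77469) (nat_lit 0) .nil) .nil))) 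
(.lf (nat_lit 467574) (.g (nat_lit 2247) (.e (nat_lit 3253) (nat_lit 197) (.e (nat_lit 532504) (nat_lit 1) (.e (nat_lit 57854) (nat_lit 252) (.e (nat_lit 57406) (nat_lit 12) (.e (nat_lit 336456) (nat_lit 34) (.e (nat_lit 483393) (nat_lit 23) (.e (nat_lit 336275) (nat_lit 15) .nil))))))) (.g (nat_lit 1) (.e (nat_lit 78050) (nat_lit 0) .nil) .nil)))) (.nd (nat_lit 9) 
(.lf (nat_lit 467318) (.g (nat_lit 1405) (.e (nat_lit 3253) (nat_lit 197) (.e (nat_lit 532503) (nat_lit 1) (.e (nat_lit 57847) (nat_lit 252) (.e (nat_lit 57448) (nat_lit 19) (.e (nat_lit 401152) (nat_lit 11) (.e (nat_lit 360192) (nat_lit 0) .nil)))))) (.g (nat_lit 1) (.e (nat_lit 77779) (nat_lit 0) .nil) .nil))) 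
(.lf (nat_lit 467830) (.g (nat_lit 2779) (.e (nat_lit 3254) (nat_lit 197) (.e (nat_lit 532503) (nat_lit 1) (.e (nat_lit 57931) (nat_lit 282) (.e (nat_lit 163869) (nat_lit 2) (.e (nat_lit 196668) (nat_lit 14) .nil))))) (.g (nat_lit 0) (.e (nat_lit 78491) (nat_lit 0) .nil) .nil))))) (.nd (nat_lit 8) (.nd (nat_lit 9) 
(.lf (nat_lit 467190) (.g (nat_lit 2445) (.e (nat_lit 3253) (nat_lit 197) (.e (nat_lit 532501) (nat_lit 1) (.e (nat_lit 57927) (nat_lit 282) (.e (nat_lit 163875) (nat_lit 3) (.e (nat_lit 204862) (nat_lit 27) (.e (nat_lit 344117) (nat_lit 21) (.e (nat_lit 516130) (nat_lit 3) (.e (nat_lit 221203) (nat_lit 20) .nil)))))))) (.g (nat_lit 1) (.e (nat_lit 77636) (nat_lit 0) .nil) .nil))) 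
(.lf (nat_lit 467702) (.g (nat_lit 1780) (.e (nat_lit 3253) (nat_lit 197) (.e (nat_lit 532511) (nat_lit 2) (.e (nat_lit 106534) (nat_lit 11) (.e (nat_lit 16412) (nat_lit 2) (.e (nat_lit 196672) (nat_lit 15) (.e (nat_lit 89856) (nat_lit 0) .nil)))))) (.g (nat_lit 1) (.e (nat_lit 78190) (nat_lit 0) .nil) .nil)))) (.nd (nat_lit 9) 
(.lf (nat_lit 467446) (.g (nat_lit 3618) (.e (nat_lit 3253) (nat_lit 197) (.e (nat_lit 532503) (nat_lit 1) (.e (nat_lit 57931) (nat_lit 282) (.e (nat_lit 163867) (nat_lit 2) (.e (nat_lit 196668) (nat_lit 14) (.e (nat_lit 73747) (nat_lit 3) (.e (nat_lit 516131) (nat_lit 3) (.e (nat_lit 221204) (nat_lit 20) .nil)))))))) (.g (nat_lit 1) (.e (nat_lit 77916) (nat_lit 0) .nil) .nil))) 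
(.lf (nat_lit 467958) (.g (nat_lit 4712) (.e (nat_lit 3256) (nat_lit 197) (.e (nat_lit 532550) (nat_lit 12) (.e (nat_lit 360474) (nat_lit 8) (.e (nat_lit 557093) (nat_lit 12) (.e (nat_lit 164022) (nat_lit 46) (.e (nat_lit 704737) (nat_lit 11) (.e (nat_lit 16384) (nat_lit 0) .nil))))))) (.g (nat_lit 1) (.e (nat_lit 78738) (nat_lit 0) .nil) .nil))))))))) 
(.nd (nat_lit 4) (.nd (nat_lit 5) (.nd (nat_lit 6) (.nd (nat_lit 7) (.nd (nat_lit 8) 
(.nd (nat_lit 9) 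
(.lf (nat_lit 466958) (.g (nat_lit 4882) (.e (nat_lit 3253) (nat_lit 197) (.e (nat_lit 532499) (nat_lit 1) (.e (nat_lit 57927) (nat_lit 282) (.e (nat_lit 163875) (nat_lit 3) (.e (nat_lit 204862) (nat_lit 27) (.e (nat_lit 344117) (nat_lit 21) (.e (nat_lit 516130) (nat_lit 3) (.e (nat_lit 221204) (nat_lit 20) .nil)))))))) (.g (nat_lit 1) (.e (nat_lit 77360) (nat_lit 0) .nil) .nil))) 
(.lf (nat_lit 467470) (.g (nat_lit 3461) (.e (nat_lit 3253) (nat_lit 197) (.e (nat_lit 532503) (nat_lit 1) (.e (nat_lit 57931) (nat_lit 282) (.e (nat_lit 163873) (nat_lit 3) (.e (nat_lit 204853) (nat_lit 26) (.e (nat_lit 336019) (nat_lit 3) (.e (nat_lit 98341) (nat_lit 20) (.e (nat_lit 221204) (nat_lit 20) .nil)))))))) (.g (nat_lit 1) (.e (nat_lit 77944) (nat_lit 0) .nil) .nil)))) 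
(.nd (nat_lit 9) 
(.lf (nat_lit 467214) (.g (nat_lit 2958) (.e (nat_lit 3253) (nat_lit 197) (.e (nat_lit 532501) (nat_lit 1) (.e (nat_lit 57929) (nat_lit 282) (.e (nat_lit 163869) (nat_lit 2) (.e (nat_lit 196666) (nat_lit 13) (.e (nat_lit 65569) (nat_lit 3) (.e (nat_lit 98342) (nat_lit 20) (.e (nat_lit 221204) (nat_lit 20) .nil)))))))) (.g (nat_lit 1) (.e (nat_lit 77671) (nat_lit 0) .nil) .nil))) 
(.lf (nat_lit 467726) (.g (nat_lit 2265) (.e (nat_lit 3253) (nat_lit 197) (.e (nat_lit 532515) (nat_lit 3) (.e (nat_lit 114697) (nat_lit 11) (.e (nat_lit 426124) (nat_lit 2) (.e (nat_lit 196672) (nat_lit 15) (.e (nat_lit 81924) (nat_lit 0) .nil)))))) (.g (nat_lit 1) (.e (nat_lit 78237) (nat_lit 0) .nil) .nil))))) (.nd (nat_lit 8) (.nd (nat_lit 9) 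
(.lf (nat_lit 467086) (.g (nat_lit 2282) (.e (nat_lit 3253) (nat_lit 197) (.e (nat_lit 532501) (nat_lit 1) (.e (nat_lit 57926) (nat_lit 282) (.e (nat_lit 163869) (nat_lit 2) (.e (nat_lit 196664) (nat_lit 13) (.e (nat_lit 65571) (nat_lit 3) (.e (nat_lit 98341) (nat_lit 20) (.e (nat_lit 221204) (nat_lit 20) .nil)))))))) (.g (nat_lit 1) (.e (nat_lit 77500) (nat_lit 0) .nil) .nil))) 
(.lf (nat_lit 467598) (.g (nat_lit 2679) (.e (nat_lit 3253) (nat_lit 197) (.e (nat_lit 532504) (nat_lit 1) (.e (nat_lit 57924) (nat_lit 282) (.e (nat_lit 163867) (nat_lit 2) (.e (nat_lit 196668) (nat_lit 14) (.e (nat_lit 73747) (nat_lit 3) (.e (nat_lit 516129) (nat_lit 3) (.e (nat_lit 221203) (nat_lit 20) .nil)))))))) (.g (nat_lit 1) (.e (nat_lit 78074) (nat_lit 0) .nil) .nil)))) (.nd (nat_lit 9) 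
(.lf (nat_lit 467342) (.g (nat_lit 529) (.e (nat_lit 3253) (nat_lit 197) (.e (nat_lit 532503) (nat_lit 1) (.e (nat_lit 57849) (nat_lit 252) .nil))) (.g (nat_lit 0) (.e (nat_lit 77803) (nat_lit 0) .nil) .nil))) 
(.lf (nat_lit 467854) (.g (nat_lit 5041) (.e (nat_lit 3254) (nat_lit 197) (.e (nat_lit 532550) (nat_lit 12) (.e (nat_lit 360475) (nat_lit 8) (.e (nat_lit 557091) (nat_lit 12) (.e (nat_lit 164022) (nat_lit 46) .nil))))) (.g (nat_lit 0) (.e (nat_lit 78524) (nat_lit 0) .nil) .nil)))))) (.nd (nat_lit 7) (.nd (nat_lit 8) (.nd (nat_lit 9) 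
(.lf (nat_lit 467022) (.g (nat_lit 2357) (.e (nat_lit 3253) (nat_lit 197) (.e (nat_lit 532501) (nat_lit 1) (.e (nat_lit 57852) (nat_lit 252) (.e (nat_lit 57378) (nat_lit 3) (.e (nat_lit 98342) (nat_lit 20) (.e (nat_lit 221212) (nat_lit 22) (.e (nat_lit 196665) (nat_lit 13) (.e (nat_lit 65637) (nat_lit 15) .nil)))))))) (.g (nat_lit 1) (.e (nat_lit 77429) (nat_lit 0) .nil) .nil))) 
(.lf (nat_lit 467534) (.g (nat_lit 3062) (.e (nat_lit 3253) (nat_lit 197) (.e (nat_lit 532504) (nat_lit 1) (.e (nat_lit 57852) (nat_lit 252) (.e (nat_lit 57378) (nat_lit 3) (.e (nat_lit 98341) (nat_lit 20) (.e (nat_lit 221212) (nat_lit 22) (.e (nat_lit 196665) (nat_lit 13) (.e (nat_lit 65637) (nat_lit 15) .nil)))))))) (.g (nat_lit 1) (.e (nat_lit 78010) (nat_lit 0) .nil) .nil)))) (.nd (nat_lit 9) 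
(.lf (nat_lit 467278) (.g (nat_lit 563) (.e (nat_lit 3253) (nat_lit 197) (.e (nat_lit 532503) (nat_lit 1) (.e (nat_lit 57846) (nat_lit 252) .nil))) (.g (nat_lit 0) (.e (nat_lit 77739) (nat_lit 0) .nil) .nil))) 
(.lf (nat_lit 467790) (.g (nat_lit 4988) (.e (nat_lit 3253) (nat_lit 197) (.e (nat_lit 532550) (nat_lit 12) (.e (nat_lit 360475) (nat_lit 8) (.e (nat_lit 557073) (nat_lit 9) .nil)))) (.g (nat_lit 0) (.e (nat_lit 78379) (nat_lit 0) .nil) .nil))))) (.nd (nat_lit 8) (.nd (nat_lit 9) 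
(.lf (nat_lit 467150) (.g (nat_lit 4113) (.e (nat_lit 3253) (nat_lit 197) (.e (nat_lit 532501) (nat_lit 1) (.e (nat_lit 57927) (nat_lit 282) (.e (nat_lit 163869) (nat_lit 2) (.e (nat_lit 196666) (nat_lit 13) (.e (nat_lit 65569) (nat_lit 3) (.e (nat_lit 98341) (nat_lit 20) (.e (nat_lit 221204) (nat_lit 20) .nil)))))))) (.g (nat_lit 1) (.e (nat_lit 77580) (nat_lit 0) .nil) .nil))) 
(.lf (nat_lit 467662) (.g (nat_lit 3787) (.e (nat_lit 3253) (nat_lit 197) (.e (nat_lit 532504) (nat_lit 1) (.e (nat_lit 57931) (nat_lit 282) (.e (nat_lit 163867) (nat_lit 2) (.e (nat_lit 196670) (nat_lit 14) (.e (nat_lit 73746) (nat_lit 3) (.e (nat_lit 516129) (nat_lit 3) (.e (nat_lit 221203) (nat_lit 20) .nil)))))))) (.g (nat_lit 1) (.e (nat_lit 78146) (nat_lit 0) .nil) .nil)))) (.nd (nat_lit 9) 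
(.lf (nat_lit 467406) (.g (nat_lit 2383) (.e (nat_lit 3253) (nat_lit 197) (.e (nat_lit 532503) (nat_lit 1) (.e (nat_lit 57930) (nat_lit 282) (.e (nat_lit 163867) (nat_lit 2) (.e (nat_lit 196668) (nat_lit 14) (.e (nat_lit 73746) (nat_lit 3) (.e (nat_lit 516129) (nat_lit 3) (.e (nat_lit 221203) (nat_lit 20) .nil)))))))) (.g (nat_lit 1) (.e (nat_lit 77873) (nat_lit 0) .nil) .nil))) 
(.lf (nat_lit 467918) (.g (nat_lit 2385) (.e (nat_lit 3256) (nat_lit 197) (.e (nat_lit 532499) (nat_lit 1) (.e (nat_lit 57927) (nat_lit 282) (.e (nat_lit 163868) (nat_lit 2) (.e (nat_lit 196670) (nat_lit 14) (.e (nat_lit 73746) (nat_lit 3) (.e (nat_lit 516129) (nat_lit 3) (.e (nat_lit 221196) (nat_lit 20) .nil)))))))) (.g (nat_lit 1) (.e (nat_lit 78635) (nat_lit 0) .nil) .nil))))))) 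
(.nd (nat_lit 6) (.nd (nat_lit 7) (.nd (nat_lit 8) (.nd (nat_lit 9) 
(.lf (nat_lit 466990) (.g (nat_lit 4237) (.e (nat_lit 3253) (nat_lit 197) (.e (nat_lit 532499) (nat_lit 1) (.e (nat_lit 57931) (nat_lit 282) (.e (nat_lit 163874) (nat_lit 3) (.e (nat_lit 204862) (nat_lit 27) (.e (nat_lit 344117) (nat_lit 21) (.e (nat_lit 516130) (nat_lit 3) (.e (nat_lit 221204) (nat_lit 20) .nil)))))))) (.g (nat_lit 1) (.e (nat_lit 77397) (nat_lit 0) .nil) .nil))) 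
(.lf (nat_lit 467502) (.g (nat_lit 2002) (.e (nat_lit 3253) (nat_lit 197) (.e (nat_lit 532504) (nat_lit 1) (.e (nat_lit 57851) (nat_lit 252) (.e (nat_lit 57406) (nat_lit 12) (.e (nat_lit 336456) (nat_lit 34) (.e (nat_lit 483387) (nat_lit 23) (.e (nat_lit 336291) (nat_lit 15) .nil))))))) (.g (nat_lit 1) (.e (nat_lit 77978) (nat_lit 0) .nil) .nil)))) (.nd (nat_lit 9) 
(.lf (nat_lit 467246) (.g (nat_lit 4759) (.e (nat_lit 3253) (nat_lit 197) (.e (nat_lit 532501) (nat_lit 1) (.e (nat_lit 57931) (nat_lit 282) (.e (nat_lit 163869) (nat_lit 2) (.e (nat_lit 196666) (nat_lit 13) (.e (nat_lit 65571) (nat_lit 3) (.e (nat_lit 98341) (nat_lit 20) (.e (nat_lit 221204) (nat_lit 20) .nil)))))))) (.g (nat_lit 1) (.e (nat_lit 77704) (nat_lit 0) .nil) .nil))) 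
(.lf (nat_lit 467758) (.g (nat_lit 1810) (.e (nat_lit 3253) (nat_lit 197) (.e (nat_lit 532530) (nat_lit 9) (.e (nat_lit 336326) (nat_lit 18) (.e (nat_lit 204852) (nat_lit 26) (.e (nat_lit 336326) (nat_lit 18) .nil))))) (.g (nat_lit 0) (.e (nat_lit 78322) (nat_lit 0) .nil) .nil))))) (.nd (nat_lit 8) (.nd (nat_lit 9) 
(.lf (nat_lit 467118) (.g (nat_lit 4587) (.e (nat_lit 3253) (nat_lit 197) (.e (nat_lit 532501) (nat_lit 1) (.e (nat_lit 57926) (nat_lit 282) (.e (nat_lit 163875) (nat_lit 3) (.e (nat_lit 204863) (nat_lit 27) (.e (nat_lit 344117) (nat_lit 21) (.e (nat_lit 516130) (nat_lit 3) (.e (nat_lit 221204) (nat_lit 20) .nil)))))))) (.g (nat_lit 1) (.e (nat_lit 77545) (nat_lit 0) .nil) .nil))) 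
(.lf (nat_lit 467630) (.g (nat_lit 3391) (.e (nat_lit 3253) (nat_lit 197) (.e (nat_lit 532504) (nat_lit 1) (.e (nat_lit 57929) (nat_lit 282) (.e (nat_lit 163869) (nat_lit 2) (.e (nat_lit 196668) (nat_lit 14) (.e (nat_lit 73747) (nat_lit 3) (.e (nat_lit 516131) (nat_lit 3) (.e (nat_lit 221204) (nat_lit 20) .nil)))))))) (.g (nat_lit 1) (.e (nat_lit 78110) (nat_lit 0) .nil) .nil)))) (.nd (nat_lit 9) 
(.lf (nat_lit 467374) (.g (nat_lit 3285) (.e (nat_lit 3253) (nat_lit 197) (.e (nat_lit 532503) (nat_lit 1) (.e (nat_lit 57924) (nat_lit 282) (.e (nat_lit 163871) (nat_lit 2) (.e (nat_lit 196670) (nat_lit 14) (.e (nat_lit 73746) (nat_lit 3) (.e (nat_lit 516129) (nat_lit 3) (.e (nat_lit 221204) (nat_lit 20) .nil)))))))) (.g (nat_lit 1) (.e (nat_lit 77840) (nat_lit 0) .nil) .nil))) 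
(.lf (nat_lit 467886) (.g (nat_lit 3105) (.e (nat_lit 3255) (nat_lit 197) (.e (nat_lit 532535) (nat_lit 9) (.e (nat_lit 336099) (nat_lit 9) (.e (nat_lit 336023) (nat_lit 3) .nil)))) (.g (nat_lit 0) (.e (nat_lit 78602) (nat_lit 0) .nil) .nil)))))) (.nd (nat_lit 7) (.nd (nat_lit 8) (.nd (nat_lit 9) 
(.lf (nat_lit 467054) (.g (nat_lit 2887) (.e (nat_lit 3253) (nat_lit 197) (.e (nat_lit 532501) (nat_lit 1) (.e (nat_lit 57924) (nat_lit 282) (.e (nat_lit 163867) (nat_lit 2) (.e (nat_lit 196668) (nat_lit 14) (.e (nat_lit 73746) (nat_lit 3) (.e (nat_lit 516129) (nat_lit 3) (.e (nat_lit 221204) (nat_lit 20) .nil)))))))) (.g (nat_lit 1) (.e (nat_lit 77461) (nat_lit 0) .nil) .nil))) 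
(.lf (nat_lit 467566) (.g (nat_lit 2598) (.e (nat_lit 3253) (nat_lit 197) (.e (nat_lit 532504) (nat_lit 1) (.e (nat_lit 57854) (nat_lit 252) (.e (nat_lit 57378) (nat_lit 3) (.e (nat_lit 98341) (nat_lit 20) (.e (nat_lit 221212) (nat_lit 22) (.e (nat_lit 196665) (nat_lit 13) (.e (nat_lit 65637) (nat_lit 15) .nil)))))))) (.g (nat_lit 1) (.e (nat_lit 78042) (nat_lit 0) .nil) .nil)))) (.nd (nat_lit 9) 
(.lf (nat_lit 467310) (.g (nat_lit 1888) (.e (nat_lit 3253) (nat_lit 197) (.e (nat_lit 532503) (nat_lit 1) (.e (nat_lit 57847) (nat_lit 252) (.e (nat_lit 57446) (nat_lit 19) (.e (nat_lit 401152) (nat_lit 11) (.e (nat_lit 352265) (nat_lit 0) .nil)))))) (.g (nat_lit 1) (.e (nat_lit 77771) (nat_lit 0) .nil) .nil))) 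
(.lf (nat_lit 467822) (.g (nat_lit 2589) (.e (nat_lit 3254) (nat_lit 197) (.e (nat_lit 532501) (nat_lit 1) (.e (nat_lit 57851) (nat_lit 252) (.e (nat_lit 57406) (nat_lit 12) (.e (nat_lit 336456) (nat_lit 34) .nil))))) (.g (nat_lit 0) (.e (nat_lit 78480) (nat_lit 0) .nil) .nil))))) (.nd (nat_lit 8) (.nd (nat_lit 9) 
(.lf (nat_lit 467182) (.g (nat_lit 2443) (.e (nat_lit 3253) (nat_lit 197) (.e (nat_lit 532501) (nat_lit 1) (.e (nat_lit 57927) (nat_lit 282) (.e (nat_lit 163874) (nat_lit 3) (.e (nat_lit 204862) (nat_lit 27) (.e (nat_lit 344117) (nat_lit 21) (.e (nat_lit 516130) (nat_lit 3) (.e (nat_lit 221203) (nat_lit 20) .nil)))))))) (.g (nat_lit 1) (.e (nat_lit 77626) (nat_lit 0) .nil) .nil))) 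
(.lf (nat_lit 467694) (.g (nat_lit 1429) (.e (nat_lit 3253) (nat_lit 197) (.e (nat_lit 532508) (nat_lit 2) (.e (nat_lit 106534) (nat_lit 11) (.e (nat_lit 16413) (nat_lit 2) (.e (nat_lit 196674) (nat_lit 15) (.e (nat_lit 89856) (nat_lit 0) .nil)))))) (.g (nat_lit 1) (.e (nat_lit 78182) (nat_lit 0) .nil) .nil)))) (.nd (nat_lit 9) 
(.lf (nat_lit 467438) (.g (nat_lit 2693) (.e (nat_lit 3253) (nat_lit 197) (.e (nat_lit 532503) (nat_lit 1) (.e (nat_lit 57931) (nat_lit 282) (.e (nat_lit 163867) (nat_lit 2) (.e (nat_lit 196663) (nat_lit 13) (.e (nat_lit 65571) (nat_lit 3) (.e (nat_lit 98341) (nat_lit 20) (.e (nat_lit 221203) (nat_lit 20) .nil)))))))) (.g (nat_lit 1) (.e (nat_lit 77908) (nat_lit 0) .nil) .nil))) 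
(.lf (nat_lit 467950) (.g (nat_lit 2274) (.e (nat_lit 3256) (nat_lit 197) (.e (nat_lit 532530) (nat_lit 9) (.e (nat_lit 336326) (nat_lit 18) (.e (nat_lit 204880) (nat_lit 32) (.e (nat_lit 385066) (nat_lit 26) (.e (nat_lit 532534) (nat_lit 9) (.e (nat_lit 336257) (nat_lit 15) .nil))))))) (.g (nat_lit 1) (.e (nat_lit 78724) (nat_lit 0) .nil) .nil)))))))) 
(.nd (nat_lit 5) (.nd (nat_lit 6) (.nd (nat_lit 7) (.nd (nat_lit 8) (.nd (nat_lit 9) 
(.lf (nat_lit 466974) (.g (nat_lit 3715) (.e (nat_lit 3253) (nat_lit 197) (.e (nat_lit 532499) (nat_lit 1) (.e (nat_lit 57931) (nat_lit 282) (.e (nat_lit 163869) (nat_lit 2) (.e (nat_lit 196666) (nat_lit 13) (.e (nat_lit 65569) (nat_lit 3) (.e (nat_lit 98341) (nat_lit 20) (.e (nat_lit 221204) (nat_lit 20) .nil)))))))) (.g (nat_lit 1) (.e (nat_lit 77379) (nat_lit 0) .nil) .nil))) 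
(.lf (nat_lit 467486) (.g (nat_lit 2109) (.e (nat_lit 3253) (nat_lit 197) (.e (nat_lit 532504) (nat_lit 1) (.e (nat_lit 57692) (nat_lit 156) (.e (nat_lit 163874) (nat_lit 3) (.e (nat_lit 204838) (nat_lit 20) (.e (nat_lit 114716) (nat_lit 22) (.e (nat_lit 90169) (nat_lit 13) (.e (nat_lit 172057) (nat_lit 0) .nil)))))))) (.g (nat_lit 1) (.e (nat_lit 77962) (nat_lit 0) .nil) .nil)))) 
(.nd (nat_lit 9) 
(.lf (nat_lit 467230) (.g (nat_lit 2085) (.e (nat_lit 3253) (nat_lit 197) (.e (nat_lit 532501) (nat_lit 1) (.e (nat_lit 57931) (nat_lit 282) (.e (nat_lit 163866) (nat_lit 2) (.e (nat_lit 196668) (nat_lit 14) (.e (nat_lit 73747) (nat_lit 3) (.e (nat_lit 516129) (nat_lit 3) (.e (nat_lit 221204) (nat_lit 20) .nil)))))))) (.g (nat_lit 1) (.e (nat_lit 77687) (nat_lit 0) .nil) .nil))) 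
(.lf (nat_lit 467742) (.g (nat_lit 2466) (.e (nat_lit 3253) (nat_lit 197) (.e (nat_lit 532523) (nat_lit 7) (.e (nat_lit 319532) (nat_lit 16) (.e (nat_lit 286735) (nat_lit 3) (.e (nat_lit 98380) (nat_lit 31) (.e (nat_lit 466967) (nat_lit 20) .nil)))))) (.g (nat_lit 1) (.e (nat_lit 78286) (nat_lit 0) .nil) .nil))))) (.nd (nat_lit 8) (.nd (nat_lit 9) 
(.lf (nat_lit 467102) (.g (nat_lit 2386) (.e (nat_lit 3253) (nat_lit 197) (.e (nat_lit 532501) (nat_lit 1) (.e (nat_lit 57926) (nat_lit 282) (.e (nat_lit 163870) (nat_lit 2) (.e (nat_lit 196670) (nat_lit 14) .nil))))) (.g (nat_lit 0) (.e (nat_lit 77519) (nat_lit 0) .nil) .nil))) 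
(.lf (nat_lit 467614) (.g (nat_lit 3293) (.e (nat_lit 3253) (nat_lit 197) (.e (nat_lit 532504) (nat_lit 1) (.e (nat_lit 57929) (nat_lit 282) (.e (nat_lit 163867) (nat_lit 2) (.e (nat_lit 196670) (nat_lit 14) (.e (nat_lit 73746) (nat_lit 3) (.e (nat_lit 516129) (nat_lit 3) (.e (nat_lit 221204) (nat_lit 20) .nil)))))))) (.g (nat_lit 1) (.e (nat_lit 78094) (nat_lit 0) .nil) .nil)))) (.nd (nat_lit 9) 
(.lf (nat_lit 467358) (.g (nat_lit 2180) (.e (nat_lit 3253) (nat_lit 197) (.e (nat_lit 532503) (nat_lit 1) (.e (nat_lit 57924) (nat_lit 282) (.e (nat_lit 163867) (nat_lit 2) (.e (nat_lit 196664) (nat_lit 13) (.e (nat_lit 65571) (nat_lit 3) (.e (nat_lit 98341) (nat_lit 20) (.e (nat_lit 221204) (nat_lit 20) .nil)))))))) (.g (nat_lit 1) (.e (nat_lit 77819) (nat_lit 0) .nil) .nil))) 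
(.lf (nat_lit 467870) (.g (nat_lit 886) (.e (nat_lit 3255) (nat_lit 197) (.e (nat_lit 532530) (nat_lit 9) (.e (nat_lit 336326) (nat_lit 18) .nil))) (.g (nat_lit 0) (.e (nat_lit 78582) (nat_lit 0) .nil) .nil)))))) (.nd (nat_lit 7) (.nd (nat_lit 8) (.nd (nat_lit 9) 
(.lf (nat_lit 467038) (.g (nat_lit 2258) (.e (nat_lit 3253) (nat_lit 197) (.e (nat_lit 532501) (nat_lit 1) (.e (nat_lit 57854) (nat_lit 252) (.e (nat_lit 57409) (nat_lit 12) (.e (nat_lit 336367) (nat_lit 27) (.e (nat_lit 426542) (nat_lit 29) (.e (nat_lit 360192) (nat_lit 0) .nil))))))) (.g (nat_lit 1) (.e (nat_lit 77445) (nat_lit 0) .nil) .nil))) 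
(.lf (nat_lit 467550) (.g (nat_lit 2277) (.e (nat_lit 3253) (nat_lit 197) (.e (nat_lit 532504) (nat_lit 1) (.e (nat_lit 57852) (nat_lit 252) (.e (nat_lit 57409) (nat_lit 12) (.e (nat_lit 336367) (nat_lit 27) .nil))))) (.g (nat_lit 0) (.e (nat_lit 78026) (nat_lit 0) .nil) .nil)))) (.nd (nat_lit 9) 
(.lf (nat_lit 467294) (.g (nat_lit 2196) (.e (nat_lit 3253) (nat_lit 197) (.e (nat_lit 532503) (nat_lit 1) (.e (nat_lit 57847) (nat_lit 252) (.e (nat_lit 57407) (nat_lit 12) (.e (nat_lit 336456) (nat_lit 34) (.e (nat_lit 483391) (nat_lit 23) (.e (nat_lit 336300) (nat_lit 15) .nil))))))) (.g (nat_lit 1) (.e (nat_lit 77755) (nat_lit 0) .nil) .nil))) 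
(.lf (nat_lit 467806) (.g (nat_lit 3408) (.e (nat_lit 3253) (nat_lit 197) (.e (nat_lit 532560) (nat_lit 14) (.e (nat_lit 376842) (nat_lit 11) (.e (nat_lit 426107) (nat_lit 1) (.e (nat_lit 164179) (nat_lit 154) (.e (nat_lit 57412) (nat_lit 12) (.e (nat_lit 336295) (nat_lit 15) .nil))))))) (.g (nat_lit 1) (.e (nat_lit 78420) (nat_lit 0) .nil) .nil))))) (.nd (nat_lit 8) (.nd (nat_lit 9) 
(.lf (nat_lit 467166) (.g (nat_lit 3028) (.e (nat_lit 3253) (nat_lit 197) (.e (nat_lit 532501) (nat_lit 1) (.e (nat_lit 57927) (nat_lit 282) (.e (nat_lit 163871) (nat_lit 2) (.e (nat_lit 196663) (nat_lit 13) (.e (nat_lit 65571) (nat_lit 3) (.e (nat_lit 98341) (nat_lit 20) (.e (nat_lit 221204) (nat_lit 20) .nil)))))))) (.g (nat_lit 1) (.e (nat_lit 77604) (nat_lit 0) .nil) .nil))) 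
(.lf (nat_lit 467678) (.g (nat_lit 3181) (.e (nat_lit 3253) (nat_lit 197) (.e (nat_lit 532504) (nat_lit 1) (.e (nat_lit 57931) (nat_lit 282) (.e (nat_lit 163869) (nat_lit 2) (.e (nat_lit 196668) (nat_lit 14) (.e (nat_lit 73747) (nat_lit 3) (.e (nat_lit 516131) (nat_lit 3) (.e (nat_lit 221203) (nat_lit 20) .nil)))))))) (.g (nat_lit 1) (.e (nat_lit 78164) (nat_lit 0) .nil) .nil)))) (.nd (nat_lit 9) 
(.lf (nat_lit 467422) (.g (nat_lit 2625) (.e (nat_lit 3253) (nat_lit 197) (.e (nat_lit 532503) (nat_lit 1) (.e (nat_lit 57930) (nat_lit 282) (.e (nat_lit 163873) (nat_lit 3) (.e (nat_lit 204853) (nat_lit 26) (.e (nat_lit 336019) (nat_lit 3) (.e (nat_lit 98341) (nat_lit 20) (.e (nat_lit 221204) (nat_lit 20) .nil)))))))) (.g (nat_lit 1) (.e (nat_lit 77889) (nat_lit 0) .nil) .nil))) 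
(.lf (nat_lit 467934) (.g (nat_lit 3017) (.e (nat_lit 3256) (nat_lit 197) (.e (nat_lit 532503) (nat_lit 1) (.e (nat_lit 57931) (nat_lit 282) (.e (nat_lit 163869) (nat_lit 2) (.e (nat_lit 196668) (nat_lit 14) (.e (nat_lit 73747) (nat_lit 3) (.e (nat_lit 516129) (nat_lit 3) (.e (nat_lit 221197) (nat_lit 20) .nil)))))))) (.g (nat_lit 1) (.e (nat_lit 78653) (nat_lit 0) .nil) .nil))))))) 
(.nd (nat_lit 6) (.nd (nat_lit 7) (.nd (nat_lit 8) (.nd (nat_lit 9) 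
(.lf (nat_lit 467006) (.g (nat_lit 2223) (.e (nat_lit 3253) (nat_lit 197) (.e (nat_lit 532501) (nat_lit 1) (.e (nat_lit 57851) (nat_lit 252) (.e (nat_lit 57406) (nat_lit 12) (.e (nat_lit 336456) (nat_lit 34) (.e (nat_lit 483386) (nat_lit 23) (.e (nat_lit 336295) (nat_lit 15) .nil))))))) (.g (nat_lit 1) (.e (nat_lit 77413) (nat_lit 0) .nil) .nil))) 
(.lf (nat_lit 467518) (.g (nat_lit 3743) (.e (nat_lit 3253) (nat_lit 197) (.e (nat_lit 532504) (nat_lit 1) (.e (nat_lit 57852) (nat_lit 252) (.e (nat_lit 57357) (nat_lit 0) (.e (nat_lit 1855) (nat_lit 124) (.e (nat_lit 557105) (nat_lit 14) (.e (nat_lit 180252) (nat_lit 10) (.e (nat_lit 573481) (nat_lit 13) (.e (nat_lit 65637) (nat_lit 15) .nil))))))))) (.g (nat_lit 1) (.e (nat_lit 77994) (nat_lit 0) .nil) .nil)))) 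
(.nd (nat_lit 9) 
(.lf (nat_lit 467262) (.g (nat_lit 3261) (.e (nat_lit 3253) (nat_lit 197) (.e (nat_lit 532501) (nat_lit 1) (.e (nat_lit 57931) (nat_lit 282) (.e (nat_lit 163874) (nat_lit 3) (.e (nat_lit 204854) (nat_lit 26) (.e (nat_lit 336019) (nat_lit 3) (.e (nat_lit 98341) (nat_lit 20) (.e (nat_lit 221204) (nat_lit 20) .nil)))))))) (.g (nat_lit 1) (.e (nat_lit 77722) (nat_lit 0) .nil) .nil))) 
(.lf (nat_lit 467774) (.g (nat_lit 2741) (.e (nat_lit 3253) (nat_lit 197) (.e (nat_lit 532549) (nat_lit 12) (.e (nat_lit 360473) (nat_lit 8) (.e (nat_lit 557094) (nat_lit 12) (.e (nat_lit 164022) (nat_lit 46) (.e (nat_lit 704738) (nat_lit 11) (.e (nat_lit 16403) (nat_lit 0) .nil))))))) (.g (nat_lit 1) (.e (nat_lit 78361) (nat_lit 0) .nil) .nil))))) (.nd (nat_lit 8) (.nd (nat_lit 9) 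
(.lf (nat_lit 467134) (.g (nat_lit 3090) (.e (nat_lit 3253) (nat_lit 197) (.e (nat_lit 532501) (nat_lit 1) (.e (nat_lit 57927) (nat_lit 282) (.e (nat_lit 163868) (nat_lit 2) (.e (nat_lit 196664) (nat_lit 13) (.e (nat_lit 65571) (nat_lit 3) (.e (nat_lit 98342) (nat_lit 20) (.e (nat_lit 221204) (nat_lit 20) .nil)))))))) (.g (nat_lit 1) (.e (nat_lit 77563) (nat_lit 0) .nil) .nil))) 
(.lf (nat_lit 467646) (.g (nat_lit 2612) (.e (nat_lit 3253) (nat_lit 197) (.e (nat_lit 532504) (nat_lit 1) (.e (nat_lit 57930) (nat_lit 282) (.e (nat_lit 163867) (nat_lit 2) (.e (nat_lit 196670) (nat_lit 14) (.e (nat_lit 73746) (nat_lit 3) (.e (nat_lit 516129) (nat_lit 3) (.e (nat_lit 221204) (nat_lit 20) .nil)))))))) (.g (nat_lit 1) (.e (nat_lit 78128) (nat_lit 0) .nil) .nil)))) (.nd (nat_lit 9) 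
(.lf (nat_lit 467390) (.g (nat_lit 2449) (.e (nat_lit 3253) (nat_lit 197) (.e (nat_lit 532503) (nat_lit 1) (.e (nat_lit 57929) (nat_lit 282) (.e (nat_lit 163869) (nat_lit 2) (.e (nat_lit 196668) (nat_lit 14) (.e (nat_lit 73747) (nat_lit 3) (.e (nat_lit 516130) (nat_lit 3) (.e (nat_lit 221204) (nat_lit 20) .nil)))))))) (.g (nat_lit 1) (.e (nat_lit 77856) (nat_lit 0) .nil) .nil))) 
(.lf (nat_lit 467902) (.g (nat_lit 4242) (.e (nat_lit 3255) (nat_lit 197) (.e (nat_lit 532550) (nat_lit 12) (.e (nat_lit 360474) (nat_lit 8) (.e (nat_lit 557094) (nat_lit 12) .nil)))) (.g (nat_lit 0) (.e (nat_lit 78618) (nat_lit 0) .nil) .nil)))))) (.nd (nat_lit 7) (.nd (nat_lit 8) (.nd (nat_lit 9) 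
(.lf (nat_lit 467070) (.g (nat_lit 3164) (.e (nat_lit 3253) (nat_lit 197) (.e (nat_lit 532501) (nat_lit 1) (.e (nat_lit 57925) (nat_lit 282) (.e (nat_lit 163875) (nat_lit 3) (.e (nat_lit 204863) (nat_lit 27) (.e (nat_lit 344117) (nat_lit 21) (.e (nat_lit 516130) (nat_lit 3) (.e (nat_lit 221204) (nat_lit 20) .nil)))))))) (.g (nat_lit 1) (.e (nat_lit 77484) (nat_lit 0) .nil) .nil))) 
(.lf (nat_lit 467582) (.g (nat_lit 2020) (.e (nat_lit 3253) (nat_lit 197) (.e (nat_lit 532504) (nat_lit 1) (.e (nat_lit 57854) (nat_lit 252) (.e (nat_lit 57409) (nat_lit 12) (.e (nat_lit 336456) (nat_lit 34) (.e (nat_lit 483393) (nat_lit 23) (.e (nat_lit 336291) (nat_lit 15) .nil))))))) (.g (nat_lit 1) (.e (nat_lit 78058) (nat_lit 0) .nil) .nil)))) (.nd (nat_lit 9) 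
(.lf (nat_lit 467326) (.g (nat_lit 1324) (.e (nat_lit 3253) (nat_lit 197) (.e (nat_lit 532503) (nat_lit 1) (.e (nat_lit 57848) (nat_lit 252) (.e (nat_lit 57407) (nat_lit 12) (.e (nat_lit 336456) (nat_lit 34) .nil))))) (.g (nat_lit 0) (.e (nat_lit 77787) (nat_lit 0) .nil) .nil))) 
(.lf (nat_lit 467838) (.g (nat_lit 1363) (.e (nat_lit 3254) (nat_lit 197) (.e (nat_lit 532523) (nat_lit 7) (.e (nat_lit 319531) (nat_lit 16) (.e (nat_lit 286722) (nat_lit 0) .nil)))) (.g (nat_lit 0) (.e (nat_lit 78503) (nat_lit 0) .nil) .nil))))) (.nd (nat_lit 8) (.nd (nat_lit 9) 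
(.lf (nat_lit 467198) (.g (nat_lit 3569) (.e (nat_lit 3253) (nat_lit 197) (.e (nat_lit 532501) (nat_lit 1) (.e (nat_lit 57928) (nat_lit 282) (.e (nat_lit 163868) (nat_lit 2) (.e (nat_lit 196668) (nat_lit 14) (.e (nat_lit 73746) (nat_lit 3) (.e (nat_lit 516129) (nat_lit 3) (.e (nat_lit 221204) (nat_lit 20) .nil)))))))) (.g (nat_lit 1) (.e (nat_lit 77645) (nat_lit 0) .nil) .nil))) 
(.lf (nat_lit 467710) (.g (nat_lit 1828) (.e (nat_lit 3253) (nat_lit 197) (.e (nat_lit 532513) (nat_lit 3) (.e (nat_lit 114694) (nat_lit 11) (.e (nat_lit 426139) (nat_lit 3) (.e (nat_lit 204876) (nat_lit 31) (.e (nat_lit 376835) (nat_lit 0) .nil)))))) (.g (nat_lit 1) (.e (nat_lit 78199) (nat_lit 0) .nil) .nil)))) (.nd (nat_lit 9) 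
(.lf (nat_lit 467454) (.g (nat_lit 4953) (.e (nat_lit 3253) (nat_lit 197) (.e (nat_lit 532503) (nat_lit 1) (.e (nat_lit 57931) (nat_lit 282) (.e (nat_lit 163869) (nat_lit 2) (.e (nat_lit 196666) (nat_lit 13) (.e (nat_lit 65571) (nat_lit 3) (.e (nat_lit 98341) (nat_lit 20) (.e (nat_lit 221204) (nat_lit 20) .nil)))))))) (.g (nat_lit 1) (.e (nat_lit 77927) (nat_lit 0) .nil) .nil))) 
(.lf (nat_lit 467966) (.g (nat_lit 824) (.e (nat_lit 3256) (nat_lit 197) (.e (nat_lit 532550) (nat_lit 12) (.e (nat_lit 360475) (nat_lit 8) .nil))) (.g (nat_lit 0) (.e (nat_lit 78746) (nat_lit 0) .nil) .nil)))))))))))) (.nd (nat_lit 1) (.nd (nat_lit 2) (.nd (nat_lit 3) (.nd (nat_lit 4) (.nd (nat_lit 5) (.nd (nat_lit 6) (.nd (nat_lit 7) (.nd (nat_lit 8) (.nd (nat_lit 9) 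
(.lf (nat_lit 466945) (.g (nat_lit 2561) (.e (nat_lit 3253) (nat_lit 197) (.e (nat_lit 532499) (nat_lit 1) (.e (nat_lit 57927) (nat_lit 282) (.e (nat_lit 163874) (nat_lit 3) (.e (nat_lit 204859) (nat_lit 26) (.e (nat_lit 336017) (nat_lit 3) (.e (nat_lit 98341) (nat_lit 20) (.e (nat_lit 221204) (nat_lit 20) .nil)))))))) (.g (nat_lit 1) (.e (nat_lit 77343) (nat_lit 0) .nil) .nil))) 
(.lf (nat_lit 467457) (.g (nat_lit 4280) (.e (nat_lit 3253) (nat_lit 197) (.e (nat_lit 532503) (nat_lit 1) (.e (nat_lit 57931) (nat_lit 282) (.e (nat_lit 163869) (nat_lit 2) (.e (nat_lit 196668) (nat_lit 14) (.e (nat_lit 73746) (nat_lit 3) (.e (nat_lit 516129) (nat_lit 3) (.e (nat_lit 221204) (nat_lit 20) .nil)))))))) (.g (nat_lit 1) (.e (nat_lit 77931) (nat_lit 0) .nil) .nil)))) (.nd (nat_lit 9) 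
(.lf (nat_lit 467201) (.g (nat_lit 2734) (.e (nat_lit 3253) (nat_lit 197) (.e (nat_lit 532501) (nat_lit 1) (.e (nat_lit 57928) (nat_lit 282) (.e (nat_lit 163868) (nat_lit 2) (.e (nat_lit 196668) (nat_lit 14) (.e (nat_lit 73747) (nat_lit 3) (.e (nat_lit 516130) (nat_lit 3) (.e (nat_lit 221204) (nat_lit 20) .nil)))))))) (.g (nat_lit 1) (.e (nat_lit 77648) (nat_lit 0) .nil) .nil))) 
(.lf (nat_lit 467713) (.g (nat_lit 1696) (.e (nat_lit 3253) (nat_lit 197) (.e (nat_lit 532513) (nat_lit 3) (.e (nat_lit 114697) (nat_lit 11) (.e (nat_lit 426124) (nat_lit 2) (.e (nat_lit 196672) (nat_lit 15) (.e (nat_lit 81922) (nat_lit 0) .nil)))))) (.g (nat_lit 1) (.e (nat_lit 78206) (nat_lit 0) .nil) .nil))))) (.nd (nat_lit 8) (.nd (nat_lit 9) 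
(.lf (nat_lit 467073) (.g (nat_lit 3174) (.e (nat_lit 3253) (nat_lit 197) (.e (nat_lit 532501) (nat_lit 1) (.e (nat_lit 57926) (nat_lit 282) (.e (nat_lit 163867) (nat_lit 2) (.e (nat_lit 196670) (nat_lit 14) (.e (nat_lit 73746) (nat_lit 3) (.e (nat_lit 516129) (nat_lit 3) (.e (nat_lit 221204) (nat_lit 20) .nil)))))))) (.g (nat_lit 1) (.e (nat_lit 77487) (nat_lit 0) .nil) .nil))) 
(.lf (nat_lit 467585) (.g (nat_lit 2055) (.e (nat_lit 3253) (nat_lit 197) (.e (nat_lit 532504) (nat_lit 1) (.e (nat_lit 57854) (nat_lit 252) (.e (nat_lit 57445) (nat_lit 19) (.e (nat_lit 393229) (nat_lit 9) (.e (nat_lit 336086) (nat_lit 9) (.e (nat_lit 336286) (nat_lit 15) .nil))))))) (.g (nat_lit 1) (.e (nat_lit 78061) (nat_lit 0) .nil) .nil)))) (.nd (nat_lit 9) 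
(.lf (nat_lit 467329) (.g (nat_lit 1893) (.e (nat_lit 3253) (nat_lit 197) (.e (nat_lit 532503) (nat_lit 1) (.e (nat_lit 57848) (nat_lit 252) (.e (nat_lit 57407) (nat_lit 12) (.e (nat_lit 336456) (nat_lit 34) (.e (nat_lit 483386) (nat_lit 23) (.e (nat_lit 336295) (nat_lit 15) .nil))))))) (.g (nat_lit 1) (.e (nat_lit 77790) (nat_lit 0) .nil) .nil))) 
(.lf (nat_lit 467841) (.g (nat_lit 4631) (.e (nat_lit 3254) (nat_lit 197) (.e (nat_lit 532535) (nat_lit 9) (.e (nat_lit 336099) (nat_lit 9) (.e (nat_lit 336013) (nat_lit 2) (.e (nat_lit 90134) (nat_lit 9) (.e (nat_lit 2828) (nat_lit 182) (.e (nat_lit 409646) (nat_lit 18) (.e (nat_lit 303112) (nat_lit 0) .nil)))))))) (.g (nat_lit 1) (.e (nat_lit 78509) (nat_lit 0) .nil) .nil)))))) 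
(.nd (nat_lit 7) (.nd (nat_lit 8) (.nd (nat_lit 9) 
(.lf (nat_lit 467009) (.g (nat_lit 3081) (.e (nat_lit 3253) (nat_lit 197) (.e (nat_lit 532501) (nat_lit 1) (.e (nat_lit 57851) (nat_lit 252) (.e (nat_lit 57406) (nat_lit 12) (.e (nat_lit 336456) (nat_lit 34) (.e (nat_lit 483391) (nat_lit 23) (.e (nat_lit 336300) (nat_lit 15) .nil))))))) (.g (nat_lit 1) (.e (nat_lit 77416) (nat_lit 0) .nil) .nil))) 
(.lf (nat_lit 467521) (.g (nat_lit 3956) (.e (nat_lit 3253) (nat_lit 197) (.e (nat_lit 532504) (nat_lit 1) (.e (nat_lit 57852) (nat_lit 252) (.e (nat_lit 57357) (nat_lit 0) (.e (nat_lit 1858) (nat_lit 124) (.e (nat_lit 557105) (nat_lit 14) (.e (nat_lit 180252) (nat_lit 10) (.e (nat_lit 573482) (nat_lit 13) (.e (nat_lit 65640) (nat_lit 15) .nil))))))))) (.g (nat_lit 1) (.e (nat_lit 77997) (nat_lit 0) .nil) .nil)))) 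
(.nd (nat_lit 9) 
(.lf (nat_lit 467265) (.g (nat_lit 2175) (.e (nat_lit 3253) (nat_lit 197) (.e (nat_lit 532503) (nat_lit 1) (.e (nat_lit 57688) (nat_lit 156) (.e (nat_lit 163873) (nat_lit 3) (.e (nat_lit 204838) (nat_lit 20) (.e (nat_lit 114716) (nat_lit 22) (.e (nat_lit 90169) (nat_lit 13) (.e (nat_lit 172057) (nat_lit 0) .nil)))))))) (.g (nat_lit 1) (.e (nat_lit 77725) (nat_lit 0) .nil) .nil))) 
(.lf (nat_lit 467777) (.g (nat_lit 3988) (.e (nat_lit 3253) (nat_lit 197) (.e (nat_lit 532550) (nat_lit 12) (.e (nat_lit 360474) (nat_lit 8) (.e (nat_lit 557091) (nat_lit 12) .nil)))) (.g (nat_lit 0) (.e (nat_lit 78366) (nat_lit 0) .nil) .nil))))) (.nd (nat_lit 8) (.nd (nat_lit 9) 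
(.lf (nat_lit 467137) (.g (nat_lit 2468) (.e (nat_lit 3253) (nat_lit 197) (.e (nat_lit 532501) (nat_lit 1) (.e (nat_lit 57927) (nat_lit 282) (.e (nat_lit 163868) (nat_lit 2) (.e (nat_lit 196668) (nat_lit 14) (.e (nat_lit 73746) (nat_lit 3) (.e (nat_lit 516131) (nat_lit 3) (.e (nat_lit 221203) (nat_lit 20) .nil)))))))) (.g (nat_lit 1) (.e (nat_lit 77566) (nat_lit 0) .nil) .nil))) 
(.lf (nat_lit 467649) (.g (nat_lit 3107) (.e (nat_lit 3253) (nat_lit 197) (.e (nat_lit 532504) (nat_lit 1) (.e (nat_lit 57931) (nat_lit 282) (.e (nat_lit 163866) (nat_lit 2) (.e (nat_lit 196668) (nat_lit 14) (.e (nat_lit 73747) (nat_lit 3) (.e (nat_lit 516129) (nat_lit 3) (.e (nat_lit 221204) (nat_lit 20) .nil)))))))) (.g (nat_lit 1) (.e (nat_lit 78133) (nat_lit 0) .nil) .nil)))) (.nd (nat_lit 9) 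
(.lf (nat_lit 467393) (.g (nat_lit 3855) (.e (nat_lit 3253) (nat_lit 197) (.e (nat_lit 532503) (nat_lit 1) (.e (nat_lit 57929) (nat_lit 282) (.e (nat_lit 163869) (nat_lit 2) (.e (nat_lit 196670) (nat_lit 14) (.e (nat_lit 73746) (nat_lit 3) (.e (nat_lit 516129) (nat_lit 3) (.e (nat_lit 221203) (nat_lit 20) .nil)))))))) (.g (nat_lit 1) (.e (nat_lit 77859) (nat_lit 0) .nil) .nil))) 
(.lf (nat_lit 467905) (.g (nat_lit 5539) (.e (nat_lit 3255) (nat_lit 197) (.e (nat_lit 532550) (nat_lit 12) (.e (nat_lit 360475) (nat_lit 8) (.e (nat_lit 557091) (nat_lit 12) (.e (nat_lit 164022) (nat_lit 46) .nil))))) (.g (nat_lit 0) (.e (nat_lit 78621) (nat_lit 0) .nil) .nil))))))) (.nd (nat_lit 6) (.nd (nat_lit 7) (.nd (nat_lit 8) (.nd (nat_lit 9) 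
(.lf (nat_lit 466977) (.g (nat_lit 4209) (.e (nat_lit 3253) (nat_lit 197) (.e (nat_lit 532499) (nat_lit 1) (.e (nat_lit 57931) (nat_lit 282) (.e (nat_lit 163869) (nat_lit 2) (.e (nat_lit 196666) (nat_lit 13) (.e (nat_lit 65571) (nat_lit 3) (.e (nat_lit 98342) (nat_lit 20) (.e (nat_lit 221204) (nat_lit 20) .nil)))))))) (.g (nat_lit 1) (.e (nat_lit 77383) (nat_lit 0) .nil) .nil))) 
(.lf (nat_lit 467489) (.g (nat_lit 4758) (.e (nat_lit 3253) (nat_lit 197) (.e (nat_lit 532504) (nat_lit 1) (.e (nat_lit 57851) (nat_lit 252) (.e (nat_lit 57354) (nat_lit 0) (.e (nat_lit 1855) (nat_lit 124) (.e (nat_lit 557105) (nat_lit 14) (.e (nat_lit 180252) (nat_lit 10) (.e (nat_lit 573481) (nat_lit 13) (.e (nat_lit 65637) (nat_lit 15) .nil))))))))) (.g (nat_lit 1) (.e (nat_lit 77965) (nat_lit 0) .nil) .nil)))) 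
(.nd (nat_lit 9) 
(.lf (nat_lit 467233) (.g (nat_lit 3290) (.e (nat_lit 3253) (nat_lit 197) (.e (nat_lit 532501) (nat_lit 1) (.e (nat_lit 57931) (nat_lit 282) (.e (nat_lit 163867) (nat_lit 2) (.e (nat_lit 196668) (nat_lit 14) (.e (nat_lit 73746) (nat_lit 3) (.e (nat_lit 516129) (nat_lit 3) (.e (nat_lit 221204) (nat_lit 20) .nil)))))))) (.g (nat_lit 1) (.e (nat_lit 77690) (nat_lit 0) .nil) .nil))) 
(.lf (nat_lit 467745) (.g (nat_lit 3032) (.e (nat_lit 3253) (nat_lit 197) (.e (nat_lit 532523) (nat_lit 7) (.e (nat_lit 319533) (nat_lit 16) (.e (nat_lit 286732) (nat_lit 2) (.e (nat_lit 90176) (nat_lit 15) (.e (nat_lit 196352) (nat_lit 20) .nil)))))) (.g (nat_lit 1) (.e (nat_lit 78289) (nat_lit 0) .nil) .nil))))) (.nd (nat_lit 8) (.nd (nat_lit 9) 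
(.lf (nat_lit 467105) (.g (nat_lit 2431) (.e (nat_lit 3253) (nat_lit 197) (.e (nat_lit 532501) (nat_lit 1) (.e (nat_lit 57926) (nat_lit 282) (.e (nat_lit 163871) (nat_lit 2) (.e (nat_lit 196670) (nat_lit 14) (.e (nat_lit 73746) (nat_lit 3) (.e (nat_lit 516131) (nat_lit 3) (.e (nat_lit 221204) (nat_lit 20) .nil)))))))) (.g (nat_lit 1) (.e (nat_lit 77528) (nat_lit 0) .nil) .nil))) 
(.lf (nat_lit 467617) (.g (nat_lit 2111) (.e (nat_lit 3253) (nat_lit 197) (.e (nat_lit 532504) (nat_lit 1) (.e (nat_lit 57929) (nat_lit 282) (.e (nat_lit 163869) (nat_lit 2) (.e (nat_lit 196663) (nat_lit 13) (.e (nat_lit 65571) (nat_lit 3) (.e (nat_lit 98342) (nat_lit 20) (.e (nat_lit 221204) (nat_lit 20) .nil)))))))) (.g (nat_lit 1) (.e (nat_lit 78097) (nat_lit 0) .nil) .nil)))) (.nd (nat_lit 9) 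
(.lf (nat_lit 467361) (.g (nat_lit 2202) (.e (nat_lit 3253) (nat_lit 197) (.e (nat_lit 532503) (nat_lit 1) (.e (nat_lit 57924) (nat_lit 282) (.e (nat_lit 163867) (nat_lit 2) (.e (nat_lit 196668) (nat_lit 14) (.e (nat_lit 73746) (nat_lit 3) (.e (nat_lit 516131) (nat_lit 3) (.e (nat_lit 221204) (nat_lit 20) .nil)))))))) (.g (nat_lit 1) (.e (nat_lit 77822) (nat_lit 0) .nil) .nil))) 
(.lf (nat_lit 467873) (.g (nat_lit 3105) (.e (nat_lit 3255) (nat_lit 197) (.e (nat_lit 532535) (nat_lit 9) (.e (nat_lit 336099) (nat_lit 9) (.e (nat_lit 335918) (nat_lit 0) .nil)))) (.g (nat_lit 0) (.e (nat_lit 78589) (nat_lit 0) .nil) .nil)))))) (.nd (nat_lit 7) (.nd (nat_lit 8) (.nd (nat_lit 9) 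
(.lf (nat_lit 467041) (.g (nat_lit 2442) (.e (nat_lit 3253) (nat_lit 197) (.e (nat_lit 532501) (nat_lit 1) (.e (nat_lit 57854) (nat_lit 252) (.e (nat_lit 57409) (nat_lit 12) (.e (nat_lit 336456) (nat_lit 34) (.e (nat_lit 483387) (nat_lit 23) (.e (nat_lit 336282) (nat_lit 15) .nil))))))) (.g (nat_lit 1) (.e (nat_lit 77448) (nat_lit 0) .nil) .nil))) 
(.lf (nat_lit 467553) (.g (nat_lit 2249) (.e (nat_lit 3253) (nat_lit 197) (.e (nat_lit 532504) (nat_lit 1) (.e (nat_lit 57852) (nat_lit 252) (.e (nat_lit 57446) (nat_lit 19) (.e (nat_lit 393227) (nat_lit 9) (.e (nat_lit 336151) (nat_lit 9) (.e (nat_lit 336300) (nat_lit 15) .nil))))))) (.g (nat_lit 1) (.e (nat_lit 78029) (nat_lit 0) .nil) .nil)))) (.nd (nat_lit 9) 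
(.lf (nat_lit 467297) (.g (nat_lit 760) (.e (nat_lit 3253) (nat_lit 197) (.e (nat_lit 532503) (nat_lit 1) (.e (nat_lit 57847) (nat_lit 252) (.e (nat_lit 57411) (nat_lit 12) .nil)))) (.g (nat_lit 0) (.e (nat_lit 77758) (nat_lit 0) .nil) .nil))) 
(.lf (nat_lit 467809) (.g (nat_lit 3480) (.e (nat_lit 3253) (nat_lit 197) (.e (nat_lit 532563) (nat_lit 15) (.e (nat_lit 385066) (nat_lit 26) (.e (nat_lit 532530) (nat_lit 9) (.e (nat_lit 336316) (nat_lit 17) (.e (nat_lit 196666) (nat_lit 13) (.e (nat_lit 65642) (nat_lit 15) .nil))))))) (.g (nat_lit 1) (.e (nat_lit 78463) (nat_lit 0) .nil) .nil))))) (.nd (nat_lit 8) (.nd (nat_lit 9) 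
(.lf (nat_lit 467169) (.g (nat_lit 3518) (.e (nat_lit 3253) (nat_lit 197) (.e (nat_lit 532501) (nat_lit 1) (.e (nat_lit 57927) (nat_lit 282) (.e (nat_lit 163871) (nat_lit 2) (.e (nat_lit 196670) (nat_lit 14) (.e (nat_lit 73746) (nat_lit 3) (.e (nat_lit 516129) (nat_lit 3) (.e (nat_lit 221203) (nat_lit 20) .nil)))))))) (.g (nat_lit 1) (.e (nat_lit 77612) (nat_lit 0) .nil) .nil))) 
(.lf (nat_lit 467681) (.g (nat_lit 5411) (.e (nat_lit 3253) (nat_lit 197) (.e (nat_lit 532504) (nat_lit 1) (.e (nat_lit 57931) (nat_lit 282) (.e (nat_lit 163869) (nat_lit 2) (.e (nat_lit 196670) (nat_lit 14) (.e (nat_lit 73746) (nat_lit 3) (.e (nat_lit 516129) (nat_lit 3) (.e (nat_lit 221204) (nat_lit 20) .nil)))))))) (.g (nat_lit 1) (.e (nat_lit 78167) (nat_lit 0) .nil) .nil)))) (.nd (nat_lit 9) 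
(.lf (nat_lit 467425) (.g (nat_lit 2014) (.e (nat_lit 3253) (nat_lit 197) (.e (nat_lit 532503) (nat_lit 1) (.e (nat_lit 57931) (nat_lit 282) (.e (nat_lit 163866) (nat_lit 2) (.e (nat_lit 196663) (nat_lit 13) (.e (nat_lit 65571) (nat_lit 3) (.e (nat_lit 98342) (nat_lit 20) (.e (nat_lit 221204) (nat_lit 20) .nil)))))))) (.g (nat_lit 1) (.e (nat_lit 77892) (nat_lit 0) .nil) .nil))) 
(.lf (nat_lit 467937) (.g (nat_lit 3602) (.e (nat_lit 3256) (nat_lit 197) (.e (nat_lit 532503) (nat_lit 1) (.e (nat_lit 57931) (nat_lit 282) (.e (nat_lit 163869) (nat_lit 2) (.e (nat_lit 196670) (nat_lit 14) (.e (nat_lit 73746) (nat_lit 3) (.e (nat_lit 516129) (nat_lit 3) (.e (nat_lit 221197) (nat_lit 20) .nil)))))))) (.g (nat_lit 1) (.e (nat_lit 78656) (nat_lit 0) .nil) .nil)))))))) 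
(.nd (nat_lit 5) (.nd (nat_lit 6) (.nd (nat_lit 7) (.nd (nat_lit 8) (.nd (nat_lit 9) 
(.lf (nat_lit 466961) (.g (nat_lit 2640) (.e (nat_lit 3253) (nat_lit 197) (.e (nat_lit 532499) (nat_lit 1) (.e (nat_lit 57927) (nat_lit 282) (.e (nat_lit 163875) (nat_lit 3) (.e (nat_lit 204872) (nat_lit 30) (.e (nat_lit 368676) (nat_lit 21) (.e (nat_lit 516131) (nat_lit 3) (.e (nat_lit 221204) (nat_lit 20) .nil)))))))) (.g (nat_lit 1) (.e (nat_lit 77363) (nat_lit 0) .nil) .nil))) 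
(.lf (nat_lit 467473) (.g (nat_lit 3835) (.e (nat_lit 3253) (nat_lit 197) (.e (nat_lit 532503) (nat_lit 1) (.e (nat_lit 57931) (nat_lit 282) (.e (nat_lit 163874) (nat_lit 3) (.e (nat_lit 204851) (nat_lit 26) (.e (nat_lit 336019) (nat_lit 3) (.e (nat_lit 98342) (nat_lit 20) (.e (nat_lit 221204) (nat_lit 20) .nil)))))))) (.g (nat_lit 1) (.e (nat_lit 77947) (nat_lit 0) .nil) .nil)))) 
(.nd (nat_lit 9) 
(.lf (nat_lit 467217) (.g (nat_lit 3604) (.e (nat_lit 3253) (nat_lit 197) (.e (nat_lit 532501) (nat_lit 1) (.e (nat_lit 57929) (nat_lit 282) (.e (nat_lit 163869) (nat_lit 2) (.e (nat_lit 196668) (nat_lit 14) (.e (nat_lit 73747) (nat_lit 3) (.e (nat_lit 516129) (nat_lit 3) (.e (nat_lit 221204) (nat_lit 20) .nil)))))))) (.g (nat_lit 1) (.e (nat_lit 77674) (nat_lit 0) .nil) .nil))) 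
(.lf (nat_lit 467729) (.g (nat_lit 2158) (.e (nat_lit 3253) (nat_lit 197) (.e (nat_lit 532515) (nat_lit 3) (.e (nat_lit 114718) (nat_lit 23) (.e (nat_lit 98356) (nat_lit 26) (.e (nat_lit 426438) (nat_lit 18) (.e (nat_lit 98335) (nat_lit 18) (.e (nat_lit 164330) (nat_lit 230) (.e (nat_lit 163857) (nat_lit 0) .nil)))))))) (.g (nat_lit 1) (.e (nat_lit 78269) (nat_lit 0) .nil) .nil))))) 
(.nd (nat_lit 8) (.nd (nat_lit 9) 
(.lf (nat_lit 467089) (.g (nat_lit 3609) (.e (nat_lit 3253) (nat_lit 197) (.e (nat_lit 532501) (nat_lit 1) (.e (nat_lit 57926) (nat_lit 282) (.e (nat_lit 163869) (nat_lit 2) (.e (nat_lit 196666) (nat_lit 13) (.e (nat_lit 65571) (nat_lit 3) (.e (nat_lit 98342) (nat_lit 20) (.e (nat_lit 221204) (nat_lit 20) .nil)))))))) (.g (nat_lit 1) (.e (nat_lit 77504) (nat_lit 0) .nil) .nil))) 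
(.lf (nat_lit 467601) (.g (nat_lit 2904) (.e (nat_lit 3253) (nat_lit 197) (.e (nat_lit 532504) (nat_lit 1) (.e (nat_lit 57924) (nat_lit 282) (.e (nat_lit 163867) (nat_lit 2) (.e (nat_lit 196668) (nat_lit 14) (.e (nat_lit 73747) (nat_lit 3) (.e (nat_lit 516131) (nat_lit 3) (.e (nat_lit 221204) (nat_lit 20) .nil)))))))) (.g (nat_lit 1) (.e (nat_lit 78077) (nat_lit 0) .nil) .nil)))) (.nd (nat_lit 9) 
(.lf (nat_lit 467345) (.g (nat_lit 1414) (.e (nat_lit 3253) (nat_lit 197) (.e (nat_lit 532503) (nat_lit 1) (.e (nat_lit 57849) (nat_lit 252) (.e (nat_lit 57379) (nat_lit 3) .nil)))) (.g (nat_lit 0) (.e (nat_lit 77806) (nat_lit 0) .nil) .nil))) 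
(.lf (nat_lit 467857) (.g (nat_lit 645) (.e (nat_lit 3254) (nat_lit 197) (.e (nat_lit 532560) (nat_lit 14) (.e (nat_lit 376869) (nat_lit 23) .nil))) (.g (nat_lit 0) (.e (nat_lit 78527) (nat_lit 0) .nil) .nil)))))) (.nd (nat_lit 7) (.nd (nat_lit 8) (.nd (nat_lit 9) 
(.lf (nat_lit 467025) (.g (nat_lit 3168) (.e (nat_lit 3253) (nat_lit 197) (.e (nat_lit 532501) (nat_lit 1) (.e (nat_lit 57852) (nat_lit 252) (.e (nat_lit 57406) (nat_lit 12) (.e (nat_lit 336367) (nat_lit 27) (.e (nat_lit 426540) (nat_lit 29) (.e (nat_lit 352262) (nat_lit 0) .nil))))))) (.g (nat_lit 1) (.e (nat_lit 77432) (nat_lit 0) .nil) .nil))) 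
(.lf (nat_lit 467537) (.g (nat_lit 3816) (.e (nat_lit 3253) (nat_lit 197) (.e (nat_lit 532504) (nat_lit 1) (.e (nat_lit 57852) (nat_lit 252) (.e (nat_lit 57406) (nat_lit 12) (.e (nat_lit 336367) (nat_lit 27) (.e (nat_lit 426542) (nat_lit 29) (.e (nat_lit 352266) (nat_lit 0) .nil))))))) (.g (nat_lit 1) (.e (nat_lit 78013) (nat_lit 0) .nil) .nil)))) (.nd (nat_lit 9) 
(.lf (nat_lit 467281) (.g (nat_lit 2336) (.e (nat_lit 3253) (nat_lit 197) (.e (nat_lit 532503) (nat_lit 1) (.e (nat_lit 57846) (nat_lit 252) (.e (nat_lit 57407) (nat_lit 12) (.e (nat_lit 336367) (nat_lit 27) (.e (nat_lit 426540) (nat_lit 29) (.e (nat_lit 352262) (nat_lit 0) .nil))))))) (.g (nat_lit 1) (.e (nat_lit 77742) (nat_lit 0) .nil) .nil))) 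
(.lf (nat_lit 467793) (.g (nat_lit 6463) (.e (nat_lit 3253) (nat_lit 197) (.e (nat_lit 532550) (nat_lit 12) (.e (nat_lit 360475) (nat_lit 8) (.e (nat_lit 557086) (nat_lit 11) (.e (nat_lit 24665) (nat_lit 14) (.e (nat_lit 401417) (nat_lit 0) .nil)))))) (.g (nat_lit 1) (.e (nat_lit 78382) (nat_lit 0) .nil) .nil))))) (.nd (nat_lit 8) (.nd (nat_lit 9) 
(.lf (nat_lit 467153) (.g (nat_lit 4571) (.e (nat_lit 3253) (nat_lit 197) (.e (nat_lit 532501) (nat_lit 1) (.e (nat_lit 57927) (nat_lit 282) (.e (nat_lit 163869) (nat_lit 2) (.e (nat_lit 196666) (nat_lit 13) (.e (nat_lit 65571) (nat_lit 3) (.e (nat_lit 98342) (nat_lit 20) (.e (nat_lit 221204) (nat_lit 20) .nil)))))))) (.g (nat_lit 1) (.e (nat_lit 77586) (nat_lit 0) .nil) .nil))) 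
(.lf (nat_lit 467665) (.g (nat_lit 3796) (.e (nat_lit 3253) (nat_lit 197) (.e (nat_lit 532504) (nat_lit 1) (.e (nat_lit 57931) (nat_lit 282) (.e (nat_lit 163869) (nat_lit 2) (.e (nat_lit 196663) (nat_lit 13) (.e (nat_lit 65571) (nat_lit 3) (.e (nat_lit 98341) (nat_lit 20) (.e (nat_lit 221204) (nat_lit 20) .nil)))))))) (.g (nat_lit 1) (.e (nat_lit 78149) (nat_lit 0) .nil) .nil)))) (.nd (nat_lit 9) 
(.lf (nat_lit 467409) (.g (nat_lit 3948) (.e (nat_lit 3253) (nat_lit 197) (.e (nat_lit 532503) (nat_lit 1) (.e (nat_lit 57930) (nat_lit 282) (.e (nat_lit 163867) (nat_lit 2) (.e (nat_lit 196668) (nat_lit 14) (.e (nat_lit 73747) (nat_lit 3) (.e (nat_lit 516129) (nat_lit 3) (.e (nat_lit 221204) (nat_lit 20) .nil)))))))) (.g (nat_lit 1) (.e (nat_lit 77876) (nat_lit 0) .nil) .nil))) 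
(.lf (nat_lit 467921) (.g (nat_lit 3155) (.e (nat_lit 3256) (nat_lit 197) (.e (nat_lit 532499) (nat_lit 1) (.e (nat_lit 57927) (nat_lit 282) (.e (nat_lit 163869) (nat_lit 2) (.e (nat_lit 196670) (nat_lit 14) (.e (nat_lit 73746) (nat_lit 3) (.e (nat_lit 516129) (nat_lit 3) (.e (nat_lit 221196) (nat_lit 20) .nil)))))))) (.g (nat_lit 1) (.e (nat_lit 78638) (nat_lit 0) .nil) .nil))))))) 
(.nd (nat_lit 6) (.nd (nat_lit 7) (.nd (nat_lit 8) (.nd (nat_lit 9) 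
(.lf (nat_lit 466993) (.g (nat_lit 2411) (.e (nat_lit 3253) (nat_lit 197) (.e (nat_lit 532501) (nat_lit 1) (.e (nat_lit 57851) (nat_lit 252) (.e (nat_lit 57347) (nat_lit 0) (.e (nat_lit 1795) (nat_lit 119) .nil))))) (.g (nat_lit 0) (.e (nat_lit 77400) (nat_lit 0) .nil) .nil))) 
(.lf (nat_lit 467505) (.g (nat_lit 3075) (.e (nat_lit 3253) (nat_lit 197) (.e (nat_lit 532504) (nat_lit 1) (.e (nat_lit 57851) (nat_lit 252) (.e (nat_lit 57406) (nat_lit 12) (.e (nat_lit 336456) (nat_lit 34) (.e (nat_lit 483393) (nat_lit 23) (.e (nat_lit 336291) (nat_lit 15) .nil))))))) (.g (nat_lit 1) (.e (nat_lit 77981) (nat_lit 0) .nil) .nil)))) (.nd (nat_lit 9) 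
(.lf (nat_lit 467249) (.g (nat_lit 4082) (.e (nat_lit 3253) (nat_lit 197) (.e (nat_lit 532501) (nat_lit 1) (.e (nat_lit 57931) (nat_lit 282) (.e (nat_lit 163869) (nat_lit 2) (.e (nat_lit 196668) (nat_lit 14) (.e (nat_lit 73746) (nat_lit 3) (.e (nat_lit 516129) (nat_lit 3) (.e (nat_lit 221204) (nat_lit 20) .nil)))))))) (.g (nat_lit 1) (.e (nat_lit 77707) (nat_lit 0) .nil) .nil))) 
(.lf (nat_lit 467761) (.g (nat_lit 2671) (.e (nat_lit 3253) (nat_lit 197) (.e (nat_lit 532530) (nat_lit 9) (.e (nat_lit 336326) (nat_lit 18) (.e (nat_lit 204854) (nat_lit 26) (.e (nat_lit 336320) (nat_lit 17) (.e (nat_lit 196665) (nat_lit 13) (.e (nat_lit 65637) (nat_lit 15) .nil))))))) (.g (nat_lit 1) (.e (nat_lit 78326) (nat_lit 0) .nil) .nil))))) (.nd (nat_lit 8) (.nd (nat_lit 9) 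
(.lf (nat_lit 467121) (.g (nat_lit 2587) (.e (nat_lit 3253) (nat_lit 197) (.e (nat_lit 532501) (nat_lit 1) (.e (nat_lit 57927) (nat_lit 282) (.e (nat_lit 163866) (nat_lit 2) (.e (nat_lit 196668) (nat_lit 14) (.e (nat_lit 73747) (nat_lit 3) (.e (nat_lit 516129) (nat_lit 3) (.e (nat_lit 221203) (nat_lit 20) .nil)))))))) (.g (nat_lit 1) (.e (nat_lit 77550) (nat_lit 0) .nil) .nil))) 
(.lf (nat_lit 467633) (.g (nat_lit 2514) (.e (nat_lit 3253) (nat_lit 197) (.e (nat_lit 532504) (nat_lit 1) (.e (nat_lit 57929) (nat_lit 282) (.e (nat_lit 163869) (nat_lit 2) (.e (nat_lit 196670) (nat_lit 14) (.e (nat_lit 73746) (nat_lit 3) (.e (nat_lit 516131) (nat_lit 3) (.e (nat_lit 221203) (nat_lit 20) .nil)))))))) (.g (nat_lit 1) (.e (nat_lit 78113) (nat_lit 0) .nil) .nil)))) (.nd (nat_lit 9) 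
(.lf (nat_lit 467377) (.g (nat_lit 2278) (.e (nat_lit 3253) (nat_lit 197) (.e (nat_lit 532503) (nat_lit 1) (.e (nat_lit 57924) (nat_lit 282) (.e (nat_lit 163873) (nat_lit 3) (.e (nat_lit 204853) (nat_lit 26) (.e (nat_lit 336019) (nat_lit 3) (.e (nat_lit 98342) (nat_lit 20) (.e (nat_lit 221204) (nat_lit 20) .nil)))))))) (.g (nat_lit 1) (.e (nat_lit 77843) (nat_lit 0) .nil) .nil))) 
(.lf (nat_lit 467889) (.g (nat_lit 3141) (.e (nat_lit 3255) (nat_lit 197) (.e (nat_lit 532535) (nat_lit 9) (.e (nat_lit 336099) (nat_lit 9) (.e (nat_lit 343808) (nat_lit 3) .nil)))) (.g (nat_lit 0) (.e (nat_lit 78605) (nat_lit 0) .nil) .nil)))))) (.nd (nat_lit 7) (.nd (nat_lit 8) (.nd (nat_lit 9) 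
(.lf (nat_lit 467057) (.g (nat_lit 2155) (.e (nat_lit 3253) (nat_lit 197) (.e (nat_lit 532501) (nat_lit 1) (.e (nat_lit 57924) (nat_lit 282) (.e (nat_lit 163867) (nat_lit 2) (.e (nat_lit 196668) (nat_lit 14) (.e (nat_lit 73747) (nat_lit 3) (.e (nat_lit 516130) (nat_lit 3) (.e (nat_lit 221204) (nat_lit 20) .nil)))))))) (.g (nat_lit 1) (.e (nat_lit 77464) (nat_lit 0) .nil) .nil))) 
(.lf (nat_lit 467569) (.g (nat_lit 2797) (.e (nat_lit 3253) (nat_lit 197) (.e (nat_lit 532504) (nat_lit 1) (.e (nat_lit 57854) (nat_lit 252) (.e (nat_lit 57406) (nat_lit 12) (.e (nat_lit 336367) (nat_lit 27) (.e (nat_lit 426542) (nat_lit 29) (.e (nat_lit 360192) (nat_lit 0) .nil))))))) (.g (nat_lit 1) (.e (nat_lit 78045) (nat_lit 0) .nil) .nil)))) (.nd (nat_lit 9) 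
(.lf (nat_lit 467313) (.g (nat_lit 1990) (.e (nat_lit 3253) (nat_lit 197) (.e (nat_lit 532503) (nat_lit 1) (.e (nat_lit 57847) (nat_lit 252) (.e (nat_lit 57447) (nat_lit 19) (.e (nat_lit 401152) (nat_lit 11) (.e (nat_lit 352265) (nat_lit 0) .nil)))))) (.g (nat_lit 1) (.e (nat_lit 77774) (nat_lit 0) .nil) .nil))) 
(.lf (nat_lit 467825) (.g (nat_lit 1783) (.e (nat_lit 3254) (nat_lit 197) (.e (nat_lit 532501) (nat_lit 1) (.e (nat_lit 57854) (nat_lit 252) (.e (nat_lit 57406) (nat_lit 12) (.e (nat_lit 336454) (nat_lit 34) .nil))))) (.g (nat_lit 0) (.e (nat_lit 78483) (nat_lit 0) .nil) .nil))))) (.nd (nat_lit 8) (.nd (nat_lit 9) 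
(.lf (nat_lit 467185) (.g (nat_lit 2903) (.e (nat_lit 3253) (nat_lit 197) (.e (nat_lit 532501) (nat_lit 1) (.e (nat_lit 57927) (nat_lit 282) (.e (nat_lit 163874) (nat_lit 3) (.e (nat_lit 204873) (nat_lit 30) (.e (nat_lit 368676) (nat_lit 21) (.e (nat_lit 516131) (nat_lit 3) (.e (nat_lit 221204) (nat_lit 20) .nil)))))))) (.g (nat_lit 1) (.e (nat_lit 77629) (nat_lit 0) .nil) .nil))) 
(.lf (nat_lit 467697) (.g (nat_lit 1741) (.e (nat_lit 3253) (nat_lit 197) (.e (nat_lit 532510) (nat_lit 2) (.e (nat_lit 106534) (nat_lit 11) (.e (nat_lit 16412) (nat_lit 2) (.e (nat_lit 196674) (nat_lit 15) (.e (nat_lit 89856) (nat_lit 0) .nil)))))) (.g (nat_lit 1) (.e (nat_lit 78185) (nat_lit 0) .nil) .nil)))) (.nd (nat_lit 9) 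
(.lf (nat_lit 467441) (.g (nat_lit 3669) (.e (nat_lit 3253) (nat_lit 197) (.e (nat_lit 532503) (nat_lit 1) (.e (nat_lit 57931) (nat_lit 282) (.e (nat_lit 163867) (nat_lit 2) (.e (nat_lit 196668) (nat_lit 14) (.e (nat_lit 73746) (nat_lit 3) (.e (nat_lit 516129) (nat_lit 3) (.e (nat_lit 221203) (nat_lit 20) .nil)))))))) (.g (nat_lit 1) (.e (nat_lit 77911) (nat_lit 0) .nil) .nil))) 
(.lf (nat_lit 467953) (.g (nat_lit 6472) (.e (nat_lit 3256) (nat_lit 197) (.e (nat_lit 532535) (nat_lit 9) (.e (nat_lit 336173) (nat_lit 10) (.e (nat_lit 344126) (nat_lit 25) (.e (nat_lit 548889) (nat_lit 9) (.e (nat_lit 65630) (nat_lit 14) (.e (nat_lit 401412) (nat_lit 0) .nil))))))) (.g (nat_lit 1) (.e (nat_lit 78731) (nat_lit 0) .nil) .nil))))))))) 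
(.nd (nat_lit 4) (.nd (nat_lit 5) (.nd (nat_lit 6) (.nd (nat_lit 7) (.nd (nat_lit 8) 
(.nd (nat_lit 9) 
(.lf (nat_lit 466953) (.g (nat_lit 2198) (.e (nat_lit 3253) (nat_lit 197) (.e (nat_lit 532499) (nat_lit 1) (.e (nat_lit 57927) (nat_lit 282) (.e (nat_lit 163875) (nat_lit 3) (.e (nat_lit 204851) (nat_lit 26) (.e (nat_lit 336019) (nat_lit 3) (.e (nat_lit 98341) (nat_lit 20) (.e (nat_lit 221204) (nat_lit 20) .nil)))))))) (.g (nat_lit 1) (.e (nat_lit 77353) (nat_lit 0) .nil) .nil))) 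
(.lf (nat_lit 467465) (.g (nat_lit 2410) (.e (nat_lit 3253) (nat_lit 197) (.e (nat_lit 532503) (nat_lit 1) (.e (nat_lit 57931) (nat_lit 282) (.e (nat_lit 163869) (nat_lit 2) (.e (nat_lit 196670) (nat_lit 14) (.e (nat_lit 73746) (nat_lit 3) (.e (nat_lit 516130) (nat_lit 3) (.e (nat_lit 221204) (nat_lit 20) .nil)))))))) (.g (nat_lit 1) (.e (nat_lit 77939) (nat_lit 0) .nil) .nil)))) (.nd (nat_lit 9) 
(.lf (nat_lit 467209) (.g (nat_lit 2680) (.e (nat_lit 3253) (nat_lit 197) (.e (nat_lit 532501) (nat_lit 1) (.e (nat_lit 57928) (nat_lit 282) (.e (nat_lit 163871) (nat_lit 2) (.e (nat_lit 196670) (nat_lit 14) (.e (nat_lit 73746) (nat_lit 3) (.e (nat_lit 516131) (nat_lit 3) (.e (nat_lit 221204) (nat_lit 20) .nil)))))))) (.g (nat_lit 1) (.e (nat_lit 77666) (nat_lit 0) .nil) .nil))) 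
(.lf (nat_lit 467721) (.g (nat_lit 1999) (.e (nat_lit 3253) (nat_lit 197) (.e (nat_lit 532515) (nat_lit 3) (.e (nat_lit 114694) (nat_lit 11) (.e (nat_lit 426124) (nat_lit 2) (.e (nat_lit 196672) (nat_lit 15) (.e (nat_lit 81924) (nat_lit 0) .nil)))))) (.g (nat_lit 1) (.e (nat_lit 78226) (nat_lit 0) .nil) .nil))))) (.nd (nat_lit 8) (.nd (nat_lit 9) 
(.lf (nat_lit 467081) (.g (nat_lit 3410) (.e (nat_lit 3253) (nat_lit 197) (.e (nat_lit 532501) (nat_lit 1) (.e (nat_lit 57926) (nat_lit 282) (.e (nat_lit 163868) (nat_lit 2) (.e (nat_lit 196668) (nat_lit 14) (.e (nat_lit 73747) (nat_lit 3) (.e (nat_lit 516131) (nat_lit 3) (.e (nat_lit 221204) (nat_lit 20) .nil)))))))) (.g (nat_lit 1) (.e (nat_lit 77495) (nat_lit 0) .nil) .nil))) 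
(.lf (nat_lit 467593) (.g (nat_lit 2724) (.e (nat_lit 3253) (nat_lit 197) (.e (nat_lit 532504) (nat_lit 1) (.e (nat_lit 57854) (nat_lit 252) (.e (nat_lit 57447) (nat_lit 19) (.e (nat_lit 393229) (nat_lit 9) (.e (nat_lit 336086) (nat_lit 9) (.e (nat_lit 336270) (nat_lit 15) .nil))))))) (.g (nat_lit 1) (.e (nat_lit 78069) (nat_lit 0) .nil) .nil)))) (.nd (nat_lit 9) 
(.lf (nat_lit 467337) (.g (nat_lit 2402) (.e (nat_lit 3253) (nat_lit 197) (.e (nat_lit 532503) (nat_lit 1) (.e (nat_lit 57848) (nat_lit 252) (.e (nat_lit 57445) (nat_lit 19) (.e (nat_lit 401152) (nat_lit 11) (.e (nat_lit 352265) (nat_lit 0) .nil)))))) (.g (nat_lit 1) (.e (nat_lit 77798) (nat_lit 0) .nil) .nil))) 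
(.lf (nat_lit 467849) (.g (nat_lit 4975) (.e (nat_lit 3254) (nat_lit 197) (.e (nat_lit 532550) (nat_lit 12) (.e (nat_lit 360475) (nat_lit 8) (.e (nat_lit 557068) (nat_lit 9) .nil)))) (.g (nat_lit 0) (.e (nat_lit 78519) (nat_lit 0) .nil) .nil)))))) (.nd (nat_lit 7) (.nd (nat_lit 8) (.nd (nat_lit 9) 
(.lf (nat_lit 467017) (.g (nat_lit 4028) (.e (nat_lit 3253) (nat_lit 197) (.e (nat_lit 532501) (nat_lit 1) (.e (nat_lit 57852) (nat_lit 252) (.e (nat_lit 57354) (nat_lit 0) (.e (nat_lit 1855) (nat_lit 124) (.e (nat_lit 557105) (nat_lit 14) (.e (nat_lit 180252) (nat_lit 10) (.e (nat_lit 573481) (nat_lit 13) (.e (nat_lit 65637) (nat_lit 15) .nil))))))))) (.g (nat_lit 1) (.e (nat_lit 77424) (nat_lit 0) .nil) .nil))) 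
(.lf (nat_lit 467529) (.g (nat_lit 3800) (.e (nat_lit 3253) (nat_lit 197) (.e (nat_lit 532504) (nat_lit 1) (.e (nat_lit 57852) (nat_lit 252) (.e (nat_lit 57377) (nat_lit 3) (.e (nat_lit 98313) (nat_lit 9) (.e (nat_lit 336027) (nat_lit 3) (.e (nat_lit 98341) (nat_lit 20) (.e (nat_lit 221204) (nat_lit 20) .nil)))))))) (.g (nat_lit 1) (.e (nat_lit 78005) (nat_lit 0) .nil) .nil)))) (.nd (nat_lit 9) 
(.lf (nat_lit 467273) (.g (nat_lit 2343) (.e (nat_lit 3253) (nat_lit 197) (.e (nat_lit 532503) (nat_lit 1) (.e (nat_lit 57844) (nat_lit 252) (.e (nat_lit 57406) (nat_lit 12) (.e (nat_lit 336456) (nat_lit 34) (.e (nat_lit 483393) (nat_lit 23) (.e (nat_lit 336275) (nat_lit 15) .nil))))))) (.g (nat_lit 1) (.e (nat_lit 77734) (nat_lit 0) .nil) .nil))) 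
(.lf (nat_lit 467785) (.g (nat_lit 3832) (.e (nat_lit 3253) (nat_lit 197) (.e (nat_lit 532550) (nat_lit 12) (.e (nat_lit 360474) (nat_lit 8) (.e (nat_lit 557094) (nat_lit 12) (.e (nat_lit 164022) (nat_lit 46) (.e (nat_lit 704737) (nat_lit 11) (.e (nat_lit 16402) (nat_lit 0) .nil))))))) (.g (nat_lit 1) (.e (nat_lit 78374) (nat_lit 0) .nil) .nil))))) (.nd (nat_lit 8) (.nd (nat_lit 9) 
(.lf (nat_lit 467145) (.g (nat_lit 4348) (.e (nat_lit 3253) (nat_lit 197) (.e (nat_lit 532501) (nat_lit 1) (.e (nat_lit 57927) (nat_lit 282) (.e (nat_lit 163868) (nat_lit 2) (.e (nat_lit 196670) (nat_lit 14) (.e (nat_lit 73746) (nat_lit 3) (.e (nat_lit 516129) (nat_lit 3) (.e (nat_lit 221204) (nat_lit 20) .nil)))))))) (.g (nat_lit 1) (.e (nat_lit 77574) (nat_lit 0) .nil) .nil))) 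
(.lf (nat_lit 467657) (.g (nat_lit 2763) (.e (nat_lit 3253) (nat_lit 197) (.e (nat_lit 532504) (nat_lit 1) (.e (nat_lit 57931) (nat_lit 282) (.e (nat_lit 163867) (nat_lit 2) (.e (nat_lit 196668) (nat_lit 14) (.e (nat_lit 73746) (nat_lit 3) (.e (nat_lit 516131) (nat_lit 3) (.e (nat_lit 221204) (nat_lit 20) .nil)))))))) (.g (nat_lit 1) (.e (nat_lit 78141) (nat_lit 0) .nil) .nil)))) (.nd (nat_lit 9) 
(.lf (nat_lit 467401) (.g (nat_lit 2120) (.e (nat_lit 3253) (nat_lit 197) (.e (nat_lit 532503) (nat_lit 1) (.e (nat_lit 57929) (nat_lit 282) (.e (nat_lit 163874) (nat_lit 3) (.e (nat_lit 204872) (nat_lit 30) (.e (nat_lit 368676) (nat_lit 21) (.e (nat_lit 516131) (nat_lit 3) (.e (nat_lit 221204) (nat_lit 20) .nil)))))))) (.g (nat_lit 1) (.e (nat_lit 77868) (nat_lit 0) .nil) .nil))) 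
(.lf (nat_lit 467913) (.g (nat_lit 4073) (.e (nat_lit 3255) (nat_lit 197) (.e (nat_lit 532569) (nat_lit 16) (.e (nat_lit 401451) (nat_lit 12) (.e (nat_lit 475185) (nat_lit 29) (.e (nat_lit 557107) (nat_lit 15) .nil))))) (.g (nat_lit 0) (.e (nat_lit 78630) (nat_lit 0) .nil) .nil))))))) (.nd (nat_lit 6) (.nd (nat_lit 7) (.nd (nat_lit 8) (.nd (nat_lit 9) 
(.lf (nat_lit 466985) (.g (nat_lit 2857) (.e (nat_lit 3253) (nat_lit 197) (.e (nat_lit 532499) (nat_lit 1) (.e (nat_lit 57931) (nat_lit 282) (.e (nat_lit 163869) (nat_lit 2) (.e (nat_lit 196670) (nat_lit 14) (.e (nat_lit 73746) (nat_lit 3) (.e (nat_lit 516131) (nat_lit 3) (.e (nat_lit 221203) (nat_lit 20) .nil)))))))) (.g (nat_lit 1) (.e (nat_lit 77391) (nat_lit 0) .nil) .nil))) 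
(.lf (nat_lit 467497) (.g (nat_lit 1376) (.e (nat_lit 3253) (nat_lit 197) (.e (nat_lit 532504) (nat_lit 1) (.e (nat_lit 57851) (nat_lit 252) (.e (nat_lit 57406) (nat_lit 12) (.e (nat_lit 336456) (nat_lit 34) .nil))))) (.g (nat_lit 0) (.e (nat_lit 77973) (nat_lit 0) .nil) .nil)))) (.nd (nat_lit 9) 
(.lf (nat_lit 467241) (.g (nat_lit 3195) (.e (nat_lit 3253) (nat_lit 197) (.e (nat_lit 532501) (nat_lit 1) (.e (nat_lit 57931) (nat_lit 282) (.e (nat_lit 163869) (nat_lit 2) (.e (nat_lit 196663) (nat_lit 13) (.e (nat_lit 65571) (nat_lit 3) (.e (nat_lit 98342) (nat_lit 20) (.e (nat_lit 221204) (nat_lit 20) .nil)))))))) (.g (nat_lit 1) (.e (nat_lit 77698) (nat_lit 0) .nil) .nil))) 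
(.lf (nat_lit 467753) (.g (nat_lit 2520) (.e (nat_lit 3253) (nat_lit 197) (.e (nat_lit 532523) (nat_lit 7) (.e (nat_lit 319534) (nat_lit 16) (.e (nat_lit 286735) (nat_lit 3) (.e (nat_lit 98369) (nat_lit 28) (.e (nat_lit 442417) (nat_lit 20) .nil)))))) (.g (nat_lit 1) (.e (nat_lit 78298) (nat_lit 0) .nil) .nil))))) (.nd (nat_lit 8) (.nd (nat_lit 9) 
(.lf (nat_lit 467113) (.g (nat_lit 2431) (.e (nat_lit 3253) (nat_lit 197) (.e (nat_lit 532501) (nat_lit 1) (.e (nat_lit 57926) (nat_lit 282) (.e (nat_lit 163875) (nat_lit 3) (.e (nat_lit 204862) (nat_lit 27) (.e (nat_lit 344117) (nat_lit 21) (.e (nat_lit 516129) (nat_lit 3) (.e (nat_lit 221203) (nat_lit 20) .nil)))))))) (.g (nat_lit 1) (.e (nat_lit 77540) (nat_lit 0) .nil) .nil))) 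
(.lf (nat_lit 467625) (.g (nat_lit 3400) (.e (nat_lit 3253) (nat_lit 197) (.e (nat_lit 532504) (nat_lit 1) (.e (nat_lit 57929) (nat_lit 282) (.e (nat_lit 163869) (nat_lit 2) (.e (nat_lit 196668) (nat_lit 14) (.e (nat_lit 73746) (nat_lit 3) (.e (nat_lit 516129) (nat_lit 3) (.e (nat_lit 221204) (nat_lit 20) .nil)))))))) (.g (nat_lit 1) (.e (nat_lit 78105) (nat_lit 0) .nil) .nil)))) (.nd (nat_lit 9) 
(.lf (nat_lit 467369) (.g (nat_lit 3826) (.e (nat_lit 3253) (nat_lit 197) (.e (nat_lit 532503) (nat_lit 1) (.e (nat_lit 57924) (nat_lit 282) (.e (nat_lit 163867) (nat_lit 2) (.e (nat_lit 196670) (nat_lit 14) (.e (nat_lit 73746) (nat_lit 3) (.e (nat_lit 516131) (nat_lit 3) (.e (nat_lit 221204) (nat_lit 20) .nil)))))))) (.g (nat_lit 1) (.e (nat_lit 77830) (nat_lit 0) .nil) .nil))) 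
(.lf (nat_lit 467881) (.g (nat_lit 5603) (.e (nat_lit 3255) (nat_lit 197) (.e (nat_lit 532535) (nat_lit 9) (.e (nat_lit 336099) (nat_lit 9) (.e (nat_lit 336013) (nat_lit 2) (.e (nat_lit 90127) (nat_lit 9) .nil))))) (.g (nat_lit 0) (.e (nat_lit 78597) (nat_lit 0) .nil) .nil)))))) (.nd (nat_lit 7) (.nd (nat_lit 8) (.nd (nat_lit 9) 
(.lf (nat_lit 467049) (.g (nat_lit 2232) (.e (nat_lit 3253) (nat_lit 197) (.e (nat_lit 532501) (nat_lit 1) (.e (nat_lit 57854) (nat_lit 252) (.e (nat_lit 57447) (nat_lit 19) (.e (nat_lit 401152) (nat_lit 11) (.e (nat_lit 352265) (nat_lit 0) .nil)))))) (.g (nat_lit 1) (.e (nat_lit 77456) (nat_lit 0) .nil) .nil))) 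
(.lf (nat_lit 467561) (.g (nat_lit 2001) (.e (nat_lit 3253) (nat_lit 197) (.e (nat_lit 532504) (nat_lit 1) (.e (nat_lit 57853) (nat_lit 252) (.e (nat_lit 57406) (nat_lit 12) (.e (nat_lit 336367) (nat_lit 27) .nil))))) (.g (nat_lit 0) (.e (nat_lit 78037) (nat_lit 0) .nil) .nil)))) (.nd (nat_lit 9) 
(.lf (nat_lit 467305) (.g (nat_lit 1781) (.e (nat_lit 3253) (nat_lit 197) (.e (nat_lit 532503) (nat_lit 1) (.e (nat_lit 57847) (nat_lit 252) (.e (nat_lit 57445) (nat_lit 19) (.e (nat_lit 393229) (nat_lit 9) (.e (nat_lit 336086) (nat_lit 9) (.e (nat_lit 336265) (nat_lit 15) .nil))))))) (.g (nat_lit 1) (.e (nat_lit 77766) (nat_lit 0) .nil) .nil))) 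
(.lf (nat_lit 467817) (.g (nat_lit 2029) (.e (nat_lit 3253) (nat_lit 197) (.e (nat_lit 532566) (nat_lit 15) (.e (nat_lit 385094) (nat_lit 49) (.e (nat_lit 778318) (nat_lit 3) (.e (nat_lit 57476) (nat_lit 28) (.e (nat_lit 557107) (nat_lit 15) (.e (nat_lit 196352) (nat_lit 20) .nil))))))) (.g (nat_lit 1) (.e (nat_lit 78472) (nat_lit 0) .nil) .nil))))) (.nd (nat_lit 8) (.nd (nat_lit 9) 
(.lf (nat_lit 467177) (.g (nat_lit 3376) (.e (nat_lit 3253) (nat_lit 197) (.e (nat_lit 532501) (nat_lit 1) (.e (nat_lit 57927) (nat_lit 282) (.e (nat_lit 163874) (nat_lit 3) (.e (nat_lit 204853) (nat_lit 26) (.e (nat_lit 336019) (nat_lit 3) (.e (nat_lit 98342) (nat_lit 20) (.e (nat_lit 221204) (nat_lit 20) .nil)))))))) (.g (nat_lit 1) (.e (nat_lit 77621) (nat_lit 0) .nil) .nil))) 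
(.lf (nat_lit 467689) (.g (nat_lit 4147) (.e (nat_lit 3253) (nat_lit 197) (.e (nat_lit 532504) (nat_lit 1) (.e (nat_lit 57931) (nat_lit 282) (.e (nat_lit 163874) (nat_lit 3) (.e (nat_lit 204854) (nat_lit 26) (.e (nat_lit 336019) (nat_lit 3) (.e (nat_lit 98341) (nat_lit 20) (.e (nat_lit 221204) (nat_lit 20) .nil)))))))) (.g (nat_lit 1) (.e (nat_lit 78177) (nat_lit 0) .nil) .nil)))) 
(.nd (nat_lit 9) 
(.lf (nat_lit 467433) (.g (nat_lit 2883) (.e (nat_lit 3253) (nat_lit 197) (.e (nat_lit 532503) (nat_lit 1) (.e (nat_lit 57931) (nat_lit 282) (.e (nat_lit 163866) (nat_lit 2) (.e (nat_lit 196670) (nat_lit 14) (.e (nat_lit 73746) (nat_lit 3) (.e (nat_lit 516129) (nat_lit 3) (.e (nat_lit 221203) (nat_lit 20) .nil)))))))) (.g (nat_lit 1) (.e (nat_lit 77903) (nat_lit 0) .nil) .nil))) 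
(.lf (nat_lit 467945) (.g (nat_lit 2972) (.e (nat_lit 3256) (nat_lit 197) (.e (nat_lit 532504) (nat_lit 1) (.e (nat_lit 57851) (nat_lit 252) (.e (nat_lit 57406) (nat_lit 12) (.e (nat_lit 336456) (nat_lit 34) (.e (nat_lit 483391) (nat_lit 23) (.e (nat_lit 336239) (nat_lit 15) .nil))))))) (.g (nat_lit 1) (.e (nat_lit 78664) (nat_lit 0) .nil) .nil)))))))) 
(.nd (nat_lit 5) (.nd (nat_lit 6) (.nd (nat_lit 7) (.nd (nat_lit 8) (.nd (nat_lit 9) 
(.lf (nat_lit 466969) (.g (nat_lit 3105) (.e (nat_lit 3253) (nat_lit 197) (.e (nat_lit 532499) (nat_lit 1) (.e (nat_lit 57931) (nat_lit 282) (.e (nat_lit 163867) (nat_lit 2) (.e (nat_lit 196670) (nat_lit 14) (.e (nat_lit 73746) (nat_lit 3) (.e (nat_lit 516129) (nat_lit 3) (.e (nat_lit 221203) (nat_lit 20) .nil)))))))) (.g (nat_lit 1) (.e (nat_lit 77374) (nat_lit 0) .nil) .nil))) 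
(.lf (nat_lit 467481) (.g (nat_lit 2875) (.e (nat_lit 3253) (nat_lit 197) (.e (nat_lit 532503) (nat_lit 1) (.e (nat_lit 57931) (nat_lit 282) (.e (nat_lit 163874) (nat_lit 3) (.e (nat_lit 204862) (nat_lit 27) (.e (nat_lit 344117) (nat_lit 21) (.e (nat_lit 516130) (nat_lit 3) (.e (nat_lit 221203) (nat_lit 20) .nil)))))))) (.g (nat_lit 1) (.e (nat_lit 77957) (nat_lit 0) .nil) .nil)))) 
(.nd (nat_lit 9) 
(.lf (nat_lit 467225) (.g (nat_lit 2017) (.e (nat_lit 3253) (nat_lit 197) (.e (nat_lit 532501) (nat_lit 1) (.e (nat_lit 57929) (nat_lit 282) (.e (nat_lit 163873) (nat_lit 3) (.e (nat_lit 204853) (nat_lit 26) .nil))))) (.g (nat_lit 0) (.e (nat_lit 77682) (nat_lit 0) .nil) .nil))) 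
(.lf (nat_lit 467737) (.g (nat_lit 3225) (.e (nat_lit 3253) (nat_lit 197) (.e (nat_lit 532523) (nat_lit 7) (.e (nat_lit 319530) (nat_lit 16) (.e (nat_lit 286735) (nat_lit 3) (.e (nat_lit 98382) (nat_lit 31) (.e (nat_lit 466967) (nat_lit 20) .nil)))))) (.g (nat_lit 1) (.e (nat_lit 78281) (nat_lit 0) .nil) .nil))))) (.nd (nat_lit 8) (.nd (nat_lit 9) 
(.lf (nat_lit 467097) (.g (nat_lit 4554) (.e (nat_lit 3253) (nat_lit 197) (.e (nat_lit 532501) (nat_lit 1) (.e (nat_lit 57926) (nat_lit 282) (.e (nat_lit 163869) (nat_lit 2) (.e (nat_lit 196670) (nat_lit 14) (.e (nat_lit 73746) (nat_lit 3) (.e (nat_lit 516129) (nat_lit 3) (.e (nat_lit 221203) (nat_lit 20) .nil)))))))) (.g (nat_lit 1) (.e (nat_lit 77512) (nat_lit 0) .nil) .nil))) 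
(.lf (nat_lit 467609) (.g (nat_lit 3243) (.e (nat_lit 3253) (nat_lit 197) (.e (nat_lit 532504) (nat_lit 1) (.e (nat_lit 57924) (nat_lit 282) (.e (nat_lit 163875) (nat_lit 3) (.e (nat_lit 204863) (nat_lit 27) (.e (nat_lit 344117) (nat_lit 21) (.e (nat_lit 516130) (nat_lit 3) (.e (nat_lit 221204) (nat_lit 20) .nil)))))))) (.g (nat_lit 1) (.e (nat_lit 78089) (nat_lit 0) .nil) .nil)))) 
(.nd (nat_lit 9) 
(.lf (nat_lit 467353) (.g (nat_lit 778) (.e (nat_lit 3253) (nat_lit 197) (.e (nat_lit 532503) (nat_lit 1) (.e (nat_lit 57851) (nat_lit 252) .nil))) (.g (nat_lit 0) (.e (nat_lit 77814) (nat_lit 0) .nil) .nil))) 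
(.lf (nat_lit 467865) (.g (nat_lit 2785) (.e (nat_lit 3255) (nat_lit 197) (.e (nat_lit 532504) (nat_lit 1) (.e (nat_lit 57851) (nat_lit 252) (.e (nat_lit 57406) (nat_lit 12) (.e (nat_lit 336456) (nat_lit 34) (.e (nat_lit 483379) (nat_lit 23) (.e (nat_lit 336261) (nat_lit 15) .nil))))))) (.g (nat_lit 1) (.e (nat_lit 78552) (nat_lit 0) .nil) .nil)))))) 
(.nd (nat_lit 7) (.nd (nat_lit 8) (.nd (nat_lit 9) 
(.lf (nat_lit 467033) (.g (nat_lit 1555) (.e (nat_lit 3253) (nat_lit 197) (.e (nat_lit 532501) (nat_lit 1) (.e (nat_lit 57854) (nat_lit 252) (.e (nat_lit 57406) (nat_lit 12) (.e (nat_lit 336367) (nat_lit 27) (.e (nat_lit 426555) (nat_lit 32) (.e (nat_lit 384768) (nat_lit 0) .nil))))))) (.g (nat_lit 1) (.e (nat_lit 77440) (nat_lit 0) .nil) .nil))) 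
(.lf (nat_lit 467545) (.g (nat_lit 2205) (.e (nat_lit 3253) (nat_lit 197) (.e (nat_lit 532504) (nat_lit 1) (.e (nat_lit 57852) (nat_lit 252) (.e (nat_lit 57406) (nat_lit 12) (.e (nat_lit 336456) (nat_lit 34) .nil))))) (.g (nat_lit 0) (.e (nat_lit 78021) (nat_lit 0) .nil) .nil)))) (.nd (nat_lit 9) 
(.lf (nat_lit 467289) (.g (nat_lit 2872) (.e (nat_lit 3253) (nat_lit 197) (.e (nat_lit 532503) (nat_lit 1) (.e (nat_lit 57847) (nat_lit 252) (.e (nat_lit 57407) (nat_lit 12) (.e (nat_lit 336367) (nat_lit 27) (.e (nat_lit 426542) (nat_lit 29) (.e (nat_lit 360192) (nat_lit 0) .nil))))))) (.g (nat_lit 1) (.e (nat_lit 77750) (nat_lit 0) .nil) .nil))) 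
(.lf (nat_lit 467801) (.g (nat_lit 2752) (.e (nat_lit 3253) (nat_lit 197) (.e (nat_lit 532558) (nat_lit 14) (.e (nat_lit 376842) (nat_lit 11) (.e (nat_lit 426107) (nat_lit 1) (.e (nat_lit 164179) (nat_lit 154) (.e (nat_lit 57412) (nat_lit 12) (.e (nat_lit 336295) (nat_lit 15) .nil))))))) (.g (nat_lit 1) (.e (nat_lit 78400) (nat_lit 0) .nil) .nil))))) (.nd (nat_lit 8) (.nd (nat_lit 9) 
(.lf (nat_lit 467161) (.g (nat_lit 5031) (.e (nat_lit 3253) (nat_lit 197) (.e (nat_lit 532501) (nat_lit 1) (.e (nat_lit 57927) (nat_lit 282) (.e (nat_lit 163869) (nat_lit 2) (.e (nat_lit 196670) (nat_lit 14) (.e (nat_lit 73746) (nat_lit 3) (.e (nat_lit 516129) (nat_lit 3) (.e (nat_lit 221204) (nat_lit 20) .nil)))))))) (.g (nat_lit 1) (.e (nat_lit 77594) (nat_lit 0) .nil) .nil))) 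
(.lf (nat_lit 467673) (.g (nat_lit 3429) (.e (nat_lit 3253) (nat_lit 197) (.e (nat_lit 532504) (nat_lit 1) (.e (nat_lit 57931) (nat_lit 282) (.e (nat_lit 163869) (nat_lit 2) (.e (nat_lit 196668) (nat_lit 14) (.e (nat_lit 73746) (nat_lit 3) (.e (nat_lit 516129) (nat_lit 3) (.e (nat_lit 221203) (nat_lit 20) .nil)))))))) (.g (nat_lit 1) (.e (nat_lit 78159) (nat_lit 0) .nil) .nil)))) (.nd (nat_lit 9) 
(.lf (nat_lit 467417) (.g (nat_lit 3670) (.e (nat_lit 3253) (nat_lit 197) (.e (nat_lit 532503) (nat_lit 1) (.e (nat_lit 57930) (nat_lit 282) (.e (nat_lit 163869) (nat_lit 2) (.e (nat_lit 196668) (nat_lit 14) (.e (nat_lit 73747) (nat_lit 3) (.e (nat_lit 516129) (nat_lit 3) (.e (nat_lit 221204) (nat_lit 20) .nil)))))))) (.g (nat_lit 1) (.e (nat_lit 77884) (nat_lit 0) .nil) .nil))) 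
(.lf (nat_lit 467929) (.g (nat_lit 919) (.e (nat_lit 3256) (nat_lit 197) (.e (nat_lit 532501) (nat_lit 1) (.e (nat_lit 57927) (nat_lit 282) .nil))) (.g (nat_lit 0) (.e (nat_lit 78648) (nat_lit 0) .nil) .nil))))))) (.nd (nat_lit 6) (.nd (nat_lit 7) (.nd (nat_lit 8) (.nd (nat_lit 9) 
(.lf (nat_lit 467001) (.g (nat_lit 2147) (.e (nat_lit 3253) (nat_lit 197) (.e (nat_lit 532501) (nat_lit 1) (.e (nat_lit 57851) (nat_lit 252) (.e (nat_lit 57406) (nat_lit 12) (.e (nat_lit 336367) (nat_lit 27) (.e (nat_lit 426555) (nat_lit 32) (.e (nat_lit 384768) (nat_lit 0) .nil))))))) (.g (nat_lit 1) (.e (nat_lit 77408) (nat_lit 0) .nil) .nil))) 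
(.lf (nat_lit 467513) (.g (nat_lit 3837) (.e (nat_lit 3253) (nat_lit 197) (.e (nat_lit 532504) (nat_lit 1) (.e (nat_lit 57852) (nat_lit 252) (.e (nat_lit 57354) (nat_lit 0) (.e (nat_lit 1855) (nat_lit 124) (.e (nat_lit 557105) (nat_lit 14) (.e (nat_lit 180252) (nat_lit 10) (.e (nat_lit 573480) (nat_lit 13) (.e (nat_lit 65637) (nat_lit 15) .nil))))))))) (.g (nat_lit 1) (.e (nat_lit 77989) (nat_lit 0) .nil) .nil)))) 
(.nd (nat_lit 9) 
(.lf (nat_lit 467257) (.g (nat_lit 3171) (.e (nat_lit 3253) (nat_lit 197) (.e (nat_lit 532501) (nat_lit 1) (.e (nat_lit 57931) (nat_lit 282) (.e (nat_lit 163869) (nat_lit 2) (.e (nat_lit 196670) (nat_lit 14) (.e (nat_lit 73746) (nat_lit 3) (.e (nat_lit 516131) (nat_lit 3) (.e (nat_lit 221203) (nat_lit 20) .nil)))))))) (.g (nat_lit 1) (.e (nat_lit 77715) (nat_lit 0) .nil) .nil))) 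
(.lf (nat_lit 467769) (.g (nat_lit 3370) (.e (nat_lit 3253) (nat_lit 197) (.e (nat_lit 532534) (nat_lit 9) (.e (nat_lit 336211) (nat_lit 13) (.e (nat_lit 393251) (nat_lit 18) (.e (nat_lit 164179) (nat_lit 154) (.e (nat_lit 57412) (nat_lit 12) (.e (nat_lit 336295) (nat_lit 15) .nil))))))) (.g (nat_lit 1) (.e (nat_lit 78350) (nat_lit 0) .nil) .nil))))) (.nd (nat_lit 8) (.nd (nat_lit 9) 
(.lf (nat_lit 467129) (.g (nat_lit 2827) (.e (nat_lit 3253) (nat_lit 197) (.e (nat_lit 532501) (nat_lit 1) (.e (nat_lit 57927) (nat_lit 282) (.e (nat_lit 163868) (nat_lit 2) (.e (nat_lit 196663) (nat_lit 13) (.e (nat_lit 65569) (nat_lit 3) (.e (nat_lit 98341) (nat_lit 20) (.e (nat_lit 221204) (nat_lit 20) .nil)))))))) (.g (nat_lit 1) (.e (nat_lit 77558) (nat_lit 0) .nil) .nil))) 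
(.lf (nat_lit 467641) (.g (nat_lit 3290) (.e (nat_lit 3253) (nat_lit 197) (.e (nat_lit 532504) (nat_lit 1) (.e (nat_lit 57929) (nat_lit 282) (.e (nat_lit 163874) (nat_lit 3) (.e (nat_lit 204854) (nat_lit 26) (.e (nat_lit 336019) (nat_lit 3) (.e (nat_lit 98341) (nat_lit 20) (.e (nat_lit 221204) (nat_lit 20) .nil)))))))) (.g (nat_lit 1) (.e (nat_lit 78123) (nat_lit 0) .nil) .nil)))) 
(.nd (nat_lit 9) 
(.lf (nat_lit 467385) (.g (nat_lit 3164) (.e (nat_lit 3253) (nat_lit 197) (.e (nat_lit 532503) (nat_lit 1) (.e (nat_lit 57929) (nat_lit 282) (.e (nat_lit 163869) (nat_lit 2) (.e (nat_lit 196666) (nat_lit 13) (.e (nat_lit 65569) (nat_lit 3) (.e (nat_lit 98341) (nat_lit 20) (.e (nat_lit 221204) (nat_lit 20) .nil)))))))) (.g (nat_lit 1) (.e (nat_lit 77851) (nat_lit 0) .nil) .nil))) 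
(.lf (nat_lit 467897) (.g (nat_lit 2501) (.e (nat_lit 3255) (nat_lit 197) (.e (nat_lit 532549) (nat_lit 12) (.e (nat_lit 360467) (nat_lit 3) (.e (nat_lit 516139) (nat_lit 7) (.e (nat_lit 409649) (nat_lit 18) .nil))))) (.g (nat_lit 0) (.e (nat_lit 78613) (nat_lit 0) .nil) .nil)))))) (.nd (nat_lit 7) (.nd (nat_lit 8) (.nd (nat_lit 9) 
(.lf (nat_lit 467065) (.g (nat_lit 3043) (.e (nat_lit 3253) (nat_lit 197) (.e (nat_lit 532501) (nat_lit 1) (.e (nat_lit 57924) (nat_lit 282) (.e (nat_lit 163875) (nat_lit 3) (.e (nat_lit 204863) (nat_lit 27) (.e (nat_lit 344117) (nat_lit 21) (.e (nat_lit 516130) (nat_lit 3) (.e (nat_lit 221204) (nat_lit 20) .nil)))))))) (.g (nat_lit 1) (.e (nat_lit 77474) (nat_lit 0) .nil) .nil))) 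
(.lf (nat_lit 467577) (.g (nat_lit 2787) (.e (nat_lit 3253) (nat_lit 197) (.e (nat_lit 532504) (nat_lit 1) (.e (nat_lit 57854) (nat_lit 252) (.e (nat_lit 57409) (nat_lit 12) (.e (nat_lit 336367) (nat_lit 27) (.e (nat_lit 426542) (nat_lit 29) (.e (nat_lit 352267) (nat_lit 0) .nil))))))) (.g (nat_lit 1) (.e (nat_lit 78053) (nat_lit 0) .nil) .nil)))) (.nd (nat_lit 9) 
(.lf (nat_lit 467321) (.g (nat_lit 2111) (.e (nat_lit 3253) (nat_lit 197) (.e (nat_lit 532503) (nat_lit 1) (.e (nat_lit 57848) (nat_lit 252) (.e (nat_lit 57407) (nat_lit 12) (.e (nat_lit 336367) (nat_lit 27) (.e (nat_lit 426542) (nat_lit 29) (.e (nat_lit 352265) (nat_lit 0) .nil))))))) (.g (nat_lit 1) (.e (nat_lit 77782) (nat_lit 0) .nil) .nil))) 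
(.lf (nat_lit 467833) (.g (nat_lit 2432) (.e (nat_lit 3254) (nat_lit 197) (.e (nat_lit 532504) (nat_lit 1) (.e (nat_lit 57851) (nat_lit 252) (.e (nat_lit 57406) (nat_lit 12) (.e (nat_lit 336456) (nat_lit 34) (.e (nat_lit 483383) (nat_lit 23) (.e (nat_lit 336261) (nat_lit 15) .nil))))))) (.g (nat_lit 1) (.e (nat_lit 78496) (nat_lit 0) .nil) .nil))))) (.nd (nat_lit 8) (.nd (nat_lit 9) 
(.lf (nat_lit 467193) (.g (nat_lit 4343) (.e (nat_lit 3253) (nat_lit 197) (.e (nat_lit 532501) (nat_lit 1) (.e (nat_lit 57927) (nat_lit 282) (.e (nat_lit 163875) (nat_lit 3) (.e (nat_lit 204863) (nat_lit 27) (.e (nat_lit 344117) (nat_lit 21) (.e (nat_lit 516130) (nat_lit 3) (.e (nat_lit 221204) (nat_lit 20) .nil)))))))) (.g (nat_lit 1) (.e (nat_lit 77639) (nat_lit 0) .nil) .nil))) 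
(.lf (nat_lit 467705) (.g (nat_lit 1833) (.e (nat_lit 3253) (nat_lit 197) (.e (nat_lit 532511) (nat_lit 2) (.e (nat_lit 106534) (nat_lit 11) (.e (nat_lit 16413) (nat_lit 2) (.e (nat_lit 196674) (nat_lit 15) (.e (nat_lit 89856) (nat_lit 0) .nil)))))) (.g (nat_lit 1) (.e (nat_lit 78193) (nat_lit 0) .nil) .nil)))) (.nd (nat_lit 9) 
(.lf (nat_lit 467449) (.g (nat_lit 2956) (.e (nat_lit 3253) (nat_lit 197) (.e (nat_lit 532503) (nat_lit 1) (.e (nat_lit 57931) (nat_lit 282) (.e (nat_lit 163867) (nat_lit 2) (.e (nat_lit 196670) (nat_lit 14) (.e (nat_lit 73746) (nat_lit 3) (.e (nat_lit 516131) (nat_lit 3) (.e (nat_lit 221203) (nat_lit 20) .nil)))))))) (.g (nat_lit 1) (.e (nat_lit 77919) (nat_lit 0) .nil) .nil))) 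
(.lf (nat_lit 467961) (.g (nat_lit 5532) (.e (nat_lit 3256) (nat_lit 197) (.e (nat_lit 532550) (nat_lit 12) (.e (nat_lit 360474) (nat_lit 8) (.e (nat_lit 557093) (nat_lit 12) (.e (nat_lit 164022) (nat_lit 46) (.e (nat_lit 704738) (nat_lit 11) (.e (nat_lit 16390) (nat_lit 0) .nil))))))) (.g (nat_lit 1) (.e (nat_lit 78741) (nat_lit 0) .nil) .nil)))))))))) 
(.nd (nat_lit 3) (.nd (nat_lit 4) (.nd (nat_lit 5) (.nd (nat_lit 6) (.nd (nat_lit 7) 
(.nd (nat_lit 8) (.nd (nat_lit 9) 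
(.lf (nat_lit 466949) (.g (nat_lit 3163) (.e (nat_lit 3253) (nat_lit 197) (.e (nat_lit 532499) (nat_lit 1) (.e (nat_lit 57927) (nat_lit 282) (.e (nat_lit 163874) (nat_lit 3) (.e (nat_lit 204863) (nat_lit 27) (.e (nat_lit 344117) (nat_lit 21) (.e (nat_lit 516129) (nat_lit 3) (.e (nat_lit 221204) (nat_lit 20) .nil)))))))) (.g (nat_lit 1) (.e (nat_lit 77347) (nat_lit 0) .nil) .nil))) 
(.lf (nat_lit 467461) (.g (nat_lit 3315) (.e (nat_lit 3253) (nat_lit 197) (.e (nat_lit 532503) (nat_lit 1) (.e (nat_lit 57931) (nat_lit 282) (.e (nat_lit 163869) (nat_lit 2) (.e (nat_lit 196668) (nat_lit 14) (.e (nat_lit 73747) (nat_lit 3) (.e (nat_lit 516131) (nat_lit 3) (.e (nat_lit 221203) (nat_lit 20) .nil)))))))) (.g (nat_lit 1) (.e (nat_lit 77935) (nat_lit 0) .nil) .nil)))) (.nd (nat_lit 9) 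
(.lf (nat_lit 467205) (.g (nat_lit 3399) (.e (nat_lit 3253) (nat_lit 197) (.e (nat_lit 532501) (nat_lit 1) (.e (nat_lit 57928) (nat_lit 282) (.e (nat_lit 163868) (nat_lit 2) (.e (nat_lit 196670) (nat_lit 14) (.e (nat_lit 73746) (nat_lit 3) (.e (nat_lit 516129) (nat_lit 3) (.e (nat_lit 221204) (nat_lit 20) .nil)))))))) (.g (nat_lit 1) (.e (nat_lit 77652) (nat_lit 0) .nil) .nil))) 
(.lf (nat_lit 467717) (.g (nat_lit 2021) (.e (nat_lit 3253) (nat_lit 197) (.e (nat_lit 532513) (nat_lit 3) (.e (nat_lit 114698) (nat_lit 11) (.e (nat_lit 426124) (nat_lit 2) (.e (nat_lit 196672) (nat_lit 15) (.e (nat_lit 81922) (nat_lit 0) .nil)))))) (.g (nat_lit 1) (.e (nat_lit 78216) (nat_lit 0) .nil) .nil))))) (.nd (nat_lit 8) (.nd (nat_lit 9) 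
(.lf (nat_lit 467077) (.g (nat_lit 2717) (.e (nat_lit 3253) (nat_lit 197) (.e (nat_lit 532501) (nat_lit 1) (.e (nat_lit 57926) (nat_lit 282) (.e (nat_lit 163868) (nat_lit 2) (.e (nat_lit 196668) (nat_lit 14) (.e (nat_lit 73746) (nat_lit 3) (.e (nat_lit 516131) (nat_lit 3) (.e (nat_lit 221204) (nat_lit 20) .nil)))))))) (.g (nat_lit 1) (.e (nat_lit 77491) (nat_lit 0) .nil) .nil))) 
(.lf (nat_lit 467589) (.g (nat_lit 1936) (.e (nat_lit 3253) (nat_lit 197) (.e (nat_lit 532504) (nat_lit 1) (.e (nat_lit 57854) (nat_lit 252) (.e (nat_lit 57446) (nat_lit 19) (.e (nat_lit 401152) (nat_lit 11) (.e (nat_lit 352266) (nat_lit 0) .nil)))))) (.g (nat_lit 1) (.e (nat_lit 78065) (nat_lit 0) .nil) .nil)))) (.nd (nat_lit 9) 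
(.lf (nat_lit 467333) (.g (nat_lit 3198) (.e (nat_lit 3253) (nat_lit 197) (.e (nat_lit 532503) (nat_lit 1) (.e (nat_lit 57848) (nat_lit 252) (.e (nat_lit 57407) (nat_lit 12) (.e (nat_lit 336456) (nat_lit 34) (.e (nat_lit 483391) (nat_lit 23) (.e (nat_lit 336300) (nat_lit 15) .nil))))))) (.g (nat_lit 1) (.e (nat_lit 77794) (nat_lit 0) .nil) .nil))) 
(.lf (nat_lit 467845) (.g (nat_lit 1156) (.e (nat_lit 3254) (nat_lit 197) (.e (nat_lit 532550) (nat_lit 12) (.e (nat_lit 360474) (nat_lit 8) .nil))) (.g (nat_lit 0) (.e (nat_lit 78514) (nat_lit 0) .nil) .nil)))))) (.nd (nat_lit 7) (.nd (nat_lit 8) (.nd (nat_lit 9) 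
(.lf (nat_lit 467013) (.g (nat_lit 2319) (.e (nat_lit 3253) (nat_lit 197) (.e (nat_lit 532501) (nat_lit 1) (.e (nat_lit 57851) (nat_lit 252) (.e (nat_lit 57446) (nat_lit 19) (.e (nat_lit 401152) (nat_lit 11) (.e (nat_lit 352265) (nat_lit 0) .nil)))))) (.g (nat_lit 1) (.e (nat_lit 77420) (nat_lit 0) .nil) .nil))) 
(.lf (nat_lit 467525) (.g (nat_lit 3850) (.e (nat_lit 3253) (nat_lit 197) (.e (nat_lit 532504) (nat_lit 1) (.e (nat_lit 57852) (nat_lit 252) (.e (nat_lit 57373) (nat_lit 2) (.e (nat_lit 90160) (nat_lit 11) (.e (nat_lit 24608) (nat_lit 3) (.e (nat_lit 98341) (nat_lit 20) (.e (nat_lit 221204) (nat_lit 20) .nil)))))))) (.g (nat_lit 1) (.e (nat_lit 78001) (nat_lit 0) .nil) .nil)))) (.nd (nat_lit 9) 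
(.lf (nat_lit 467269) (.g (nat_lit 2861) (.e (nat_lit 3253) (nat_lit 197) (.e (nat_lit 532503) (nat_lit 1) (.e (nat_lit 57844) (nat_lit 252) (.e (nat_lit 57406) (nat_lit 12) (.e (nat_lit 336367) (nat_lit 27) (.e (nat_lit 426542) (nat_lit 29) (.e (nat_lit 360192) (nat_lit 0) .nil))))))) (.g (nat_lit 1) (.e (nat_lit 77730) (nat_lit 0) .nil) .nil))) 
(.lf (nat_lit 467781) (.g (nat_lit 5287) (.e (nat_lit 3253) (nat_lit 197) (.e (nat_lit 532550) (nat_lit 12) (.e (nat_lit 360474) (nat_lit 8) (.e (nat_lit 557093) (nat_lit 12) (.e (nat_lit 164022) (nat_lit 46) (.e (nat_lit 704738) (nat_lit 11) (.e (nat_lit 16403) (nat_lit 0) .nil))))))) (.g (nat_lit 1) (.e (nat_lit 78370) (nat_lit 0) .nil) .nil))))) (.nd (nat_lit 8) (.nd (nat_lit 9) 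
(.lf (nat_lit 467141) (.g (nat_lit 3212) (.e (nat_lit 3253) (nat_lit 197) (.e (nat_lit 532501) (nat_lit 1) (.e (nat_lit 57927) (nat_lit 282) (.e (nat_lit 163868) (nat_lit 2) (.e (nat_lit 196668) (nat_lit 14) (.e (nat_lit 73747) (nat_lit 3) (.e (nat_lit 516130) (nat_lit 3) (.e (nat_lit 221204) (nat_lit 20) .nil)))))))) (.g (nat_lit 1) (.e (nat_lit 77570) (nat_lit 0) .nil) .nil))) 
(.lf (nat_lit 467653) (.g (nat_lit 3058) (.e (nat_lit 3253) (nat_lit 197) (.e (nat_lit 532504) (nat_lit 1) (.e (nat_lit 57931) (nat_lit 282) (.e (nat_lit 163867) (nat_lit 2) (.e (nat_lit 196664) (nat_lit 13) (.e (nat_lit 65571) (nat_lit 3) (.e (nat_lit 98341) (nat_lit 20) (.e (nat_lit 221204) (nat_lit 20) .nil)))))))) (.g (nat_lit 1) (.e (nat_lit 78137) (nat_lit 0) .nil) .nil)))) (.nd (nat_lit 9) 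
(.lf (nat_lit 467397) (.g (nat_lit 2651) (.e (nat_lit 3253) (nat_lit 197) (.e (nat_lit 532503) (nat_lit 1) (.e (nat_lit 57929) (nat_lit 282) (.e (nat_lit 163874) (nat_lit 3) (.e (nat_lit 204851) (nat_lit 26) (.e (nat_lit 336019) (nat_lit 3) (.e (nat_lit 98341) (nat_lit 20) (.e (nat_lit 221204) (nat_lit 20) .nil)))))))) (.g (nat_lit 1) (.e (nat_lit 77863) (nat_lit 0) .nil) .nil))) 
(.lf (nat_lit 467909) (.g (nat_lit 3505) (.e (nat_lit 3255) (nat_lit 197) (.e (nat_lit 532560) (nat_lit 14) (.e (nat_lit 376868) (nat_lit 23) (.e (nat_lit 98350) (nat_lit 24) (.e (nat_lit 409649) (nat_lit 18) (.e (nat_lit 303111) (nat_lit 0) .nil)))))) (.g (nat_lit 1) (.e (nat_lit 78625) (nat_lit 0) .nil) .nil))))))) (.nd (nat_lit 6) (.nd (nat_lit 7) (.nd (nat_lit 8) (.nd (nat_lit 9) 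
(.lf (nat_lit 466981) (.g (nat_lit 2785) (.e (nat_lit 3253) (nat_lit 197) (.e (nat_lit 532499) (nat_lit 1) (.e (nat_lit 57931) (nat_lit 282) (.e (nat_lit 163869) (nat_lit 2) (.e (nat_lit 196668) (nat_lit 14) (.e (nat_lit 73747) (nat_lit 3) (.e (nat_lit 516131) (nat_lit 3) (.e (nat_lit 221203) (nat_lit 20) .nil)))))))) (.g (nat_lit 1) (.e (nat_lit 77387) (nat_lit 0) .nil) .nil))) 
(.lf (nat_lit 467493) (.g (nat_lit 3185) (.e (nat_lit 3253) (nat_lit 197) (.e (nat_lit 532504) (nat_lit 1) (.e (nat_lit 57851) (nat_lit 252) (.e (nat_lit 57406) (nat_lit 12) (.e (nat_lit 336367) (nat_lit 27) (.e (nat_lit 426542) (nat_lit 29) (.e (nat_lit 352266) (nat_lit 0) .nil))))))) (.g (nat_lit 1) (.e (nat_lit 77969) (nat_lit 0) .nil) .nil)))) (.nd (nat_lit 9) 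
(.lf (nat_lit 467237) (.g (nat_lit 3229) (.e (nat_lit 3253) (nat_lit 197) (.e (nat_lit 532501) (nat_lit 1) (.e (nat_lit 57931) (nat_lit 282) (.e (nat_lit 163867) (nat_lit 2) (.e (nat_lit 196670) (nat_lit 14) (.e (nat_lit 73746) (nat_lit 3) (.e (nat_lit 516129) (nat_lit 3) (.e (nat_lit 221203) (nat_lit 20) .nil)))))))) (.g (nat_lit 1) (.e (nat_lit 77694) (nat_lit 0) .nil) .nil))) 
(.lf (nat_lit 467749) (.g (nat_lit 1858) (.e (nat_lit 3253) (nat_lit 197) (.e (nat_lit 532523) (nat_lit 7) (.e (nat_lit 319534) (nat_lit 16) (.e (nat_lit 286720) (nat_lit 0) .nil)))) (.g (nat_lit 0) (.e (nat_lit 78293) (nat_lit 0) .nil) .nil))))) (.nd (nat_lit 8) (.nd (nat_lit 9) 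
(.lf (nat_lit 467109) (.g (nat_lit 3440) (.e (nat_lit 3253) (nat_lit 197) (.e (nat_lit 532501) (nat_lit 1) (.e (nat_lit 57926) (nat_lit 282) (.e (nat_lit 163874) (nat_lit 3) (.e (nat_lit 204854) (nat_lit 26) (.e (nat_lit 336019) (nat_lit 3) (.e (nat_lit 98342) (nat_lit 20) (.e (nat_lit 221204) (nat_lit 20) .nil)))))))) (.g (nat_lit 1) (.e (nat_lit 77534) (nat_lit 0) .nil) .nil))) 
(.lf (nat_lit 467621) (.g (nat_lit 3623) (.e (nat_lit 3253) (nat_lit 197) (.e (nat_lit 532504) (nat_lit 1) (.e (nat_lit 57929) (nat_lit 282) (.e (nat_lit 163869) (nat_lit 2) (.e (nat_lit 196666) (nat_lit 13) (.e (nat_lit 65569) (nat_lit 3) (.e (nat_lit 98342) (nat_lit 20) (.e (nat_lit 221204) (nat_lit 20) .nil)))))))) (.g (nat_lit 1) (.e (nat_lit 78101) (nat_lit 0) .nil) .nil)))) (.nd (nat_lit 9) 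
(.lf (nat_lit 467365) (.g (nat_lit 2407) (.e (nat_lit 3253) (nat_lit 197) (.e (nat_lit 532503) (nat_lit 1) (.e (nat_lit 57924) (nat_lit 282) (.e (nat_lit 163867) (nat_lit 2) (.e (nat_lit 196668) (nat_lit 14) (.e (nat_lit 73747) (nat_lit 3) (.e (nat_lit 516131) (nat_lit 3) (.e (nat_lit 221203) (nat_lit 20) .nil)))))))) (.g (nat_lit 1) (.e (nat_lit 77826) (nat_lit 0) .nil) .nil))) 
(.lf (nat_lit 467877) (.g (nat_lit 3105) (.e (nat_lit 3255) (nat_lit 197) (.e (nat_lit 532535) (nat_lit 9) (.e (nat_lit 336099) (nat_lit 9) (.e (nat_lit 335936) (nat_lit 0) .nil)))) (.g (nat_lit 0) (.e (nat_lit 78593) (nat_lit 0) .nil) .nil)))))) (.nd (nat_lit 7) (.nd (nat_lit 8) (.nd (nat_lit 9) 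
(.lf (nat_lit 467045) (.g (nat_lit 1908) (.e (nat_lit 3253) (nat_lit 197) (.e (nat_lit 532501) (nat_lit 1) (.e (nat_lit 57854) (nat_lit 252) (.e (nat_lit 57445) (nat_lit 19) (.e (nat_lit 401152) (nat_lit 11) (.e (nat_lit 352265) (nat_lit 0) .nil)))))) (.g (nat_lit 1) (.e (nat_lit 77452) (nat_lit 0) .nil) .nil))) 
(.lf (nat_lit 467557) (.g (nat_lit 2036) (.e (nat_lit 3253) (nat_lit 197) (.e (nat_lit 532504) (nat_lit 1) (.e (nat_lit 57852) (nat_lit 252) (.e (nat_lit 57447) (nat_lit 19) (.e (nat_lit 393229) (nat_lit 9) .nil))))) (.g (nat_lit 0) (.e (nat_lit 78033) (nat_lit 0) .nil) .nil)))) (.nd (nat_lit 9) 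
(.lf (nat_lit 467301) (.g (nat_lit 1777) (.e (nat_lit 3253) (nat_lit 197) (.e (nat_lit 532503) (nat_lit 1) (.e (nat_lit 57847) (nat_lit 252) (.e (nat_lit 57411) (nat_lit 12) (.e (nat_lit 336456) (nat_lit 34) (.e (nat_lit 483391) (nat_lit 23) (.e (nat_lit 336300) (nat_lit 15) .nil))))))) (.g (nat_lit 1) (.e (nat_lit 77762) (nat_lit 0) .nil) .nil))) 
(.lf (nat_lit 467813) (.g (nat_lit 2461) (.e (nat_lit 3253) (nat_lit 197) (.e (nat_lit 532563) (nat_lit 15) (.e (nat_lit 385066) (nat_lit 26) (.e (nat_lit 532534) (nat_lit 9) (.e (nat_lit 336326) (nat_lit 18) (.e (nat_lit 204854) (nat_lit 26) (.e (nat_lit 336263) (nat_lit 15) .nil))))))) (.g (nat_lit 1) (.e (nat_lit 78467) (nat_lit 0) .nil) .nil))))) (.nd (nat_lit 8) (.nd (nat_lit 9) 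
(.lf (nat_lit 467173) (.g (nat_lit 2866) (.e (nat_lit 3253) (nat_lit 197) (.e (nat_lit 532501) (nat_lit 1) (.e (nat_lit 57927) (nat_lit 282) (.e (nat_lit 163873) (nat_lit 3) (.e (nat_lit 204851) (nat_lit 26) (.e (nat_lit 336019) (nat_lit 3) (.e (nat_lit 98342) (nat_lit 20) (.e (nat_lit 221204) (nat_lit 20) .nil)))))))) (.g (nat_lit 1) (.e (nat_lit 77616) (nat_lit 0) .nil) .nil))) 
(.lf (nat_lit 467685) (.g (nat_lit 3422) (.e (nat_lit 3253) (nat_lit 197) (.e (nat_lit 532504) (nat_lit 1) (.e (nat_lit 57931) (nat_lit 282) (.e (nat_lit 163873) (nat_lit 3) (.e (nat_lit 204853) (nat_lit 26) (.e (nat_lit 336019) (nat_lit 3) (.e (nat_lit 98342) (nat_lit 20) (.e (nat_lit 221204) (nat_lit 20) .nil)))))))) (.g (nat_lit 1) (.e (nat_lit 78171) (nat_lit 0) .nil) .nil)))) 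
(.nd (nat_lit 9) 
(.lf (nat_lit 467429) (.g (nat_lit 2871) (.e (nat_lit 3253) (nat_lit 197) (.e (nat_lit 532503) (nat_lit 1) (.e (nat_lit 57931) (nat_lit 282) (.e (nat_lit 163866) (nat_lit 2) (.e (nat_lit 196668) (nat_lit 14) (.e (nat_lit 73747) (nat_lit 3) (.e (nat_lit 516129) (nat_lit 3) (.e (nat_lit 221203) (nat_lit 20) .nil)))))))) (.g (nat_lit 1) (.e (nat_lit 77899) (nat_lit 0) .nil) .nil))) 
(.lf (nat_lit 467941) (.g (nat_lit 2749) (.e (nat_lit 3256) (nat_lit 197) (.e (nat_lit 532504) (nat_lit 1) (.e (nat_lit 57851) (nat_lit 252) (.e (nat_lit 57406) (nat_lit 12) (.e (nat_lit 336454) (nat_lit 34) (.e (nat_lit 483383) (nat_lit 23) (.e (nat_lit 336240) (nat_lit 15) .nil))))))) (.g (nat_lit 1) (.e (nat_lit 78660) (nat_lit 0) .nil) .nil)))))))) 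
(.nd (nat_lit 5) (.nd (nat_lit 6) (.nd (nat_lit 7) (.nd (nat_lit 8) (.nd (nat_lit 9) 
(.lf (nat_lit 466965) (.g (nat_lit 2789) (.e (nat_lit 3253) (nat_lit 197) (.e (nat_lit 532499) (nat_lit 1) (.e (nat_lit 57931) (nat_lit 282) (.e (nat_lit 163867) (nat_lit 2) (.e (nat_lit 196663) (nat_lit 13) (.e (nat_lit 65571) (nat_lit 3) (.e (nat_lit 98342) (nat_lit 20) (.e (nat_lit 221204) (nat_lit 20) .nil)))))))) (.g (nat_lit 1) (.e (nat_lit 77370) (nat_lit 0) .nil) .nil))) 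
(.lf (nat_lit 467477) (.g (nat_lit 2621) (.e (nat_lit 3253) (nat_lit 197) (.e (nat_lit 532503) (nat_lit 1) (.e (nat_lit 57931) (nat_lit 282) (.e (nat_lit 163874) (nat_lit 3) (.e (nat_lit 204854) (nat_lit 26) (.e (nat_lit 336019) (nat_lit 3) (.e (nat_lit 98342) (nat_lit 20) (.e (nat_lit 221203) (nat_lit 20) .nil)))))))) (.g (nat_lit 1) (.e (nat_lit 77953) (nat_lit 0) .nil) .nil)))) 
(.nd (nat_lit 9) 
(.lf (nat_lit 467221) (.g (nat_lit 3722) (.e (nat_lit 3253) (nat_lit 197) (.e (nat_lit 532501) (nat_lit 1) (.e (nat_lit 57929) (nat_lit 282) (.e (nat_lit 163869) (nat_lit 2) (.e (nat_lit 196670) (nat_lit 14) (.e (nat_lit 73746) (nat_lit 3) (.e (nat_lit 516129) (nat_lit 3) (.e (nat_lit 221203) (nat_lit 20) .nil)))))))) (.g (nat_lit 1) (.e (nat_lit 77678) (nat_lit 0) .nil) .nil))) 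
(.lf (nat_lit 467733) (.g (nat_lit 2533) (.e (nat_lit 3253) (nat_lit 197) (.e (nat_lit 532522) (nat_lit 7) (.e (nat_lit 319531) (nat_lit 16) (.e (nat_lit 286735) (nat_lit 3) (.e (nat_lit 98381) (nat_lit 31) .nil))))) (.g (nat_lit 0) (.e (nat_lit 78273) (nat_lit 0) .nil) .nil))))) (.nd (nat_lit 8) (.nd (nat_lit 9) 
(.lf (nat_lit 467093) (.g (nat_lit 4192) (.e (nat_lit 3253) (nat_lit 197) (.e (nat_lit 532501) (nat_lit 1) (.e (nat_lit 57926) (nat_lit 282) (.e (nat_lit 163869) (nat_lit 2) (.e (nat_lit 196668) (nat_lit 14) (.e (nat_lit 73747) (nat_lit 3) (.e (nat_lit 516129) (nat_lit 3) (.e (nat_lit 221204) (nat_lit 20) .nil)))))))) (.g (nat_lit 1) (.e (nat_lit 77508) (nat_lit 0) .nil) .nil))) 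
(.lf (nat_lit 467605) (.g (nat_lit 3359) (.e (nat_lit 3253) (nat_lit 197) (.e (nat_lit 532504) (nat_lit 1) (.e (nat_lit 57924) (nat_lit 282) (.e (nat_lit 163867) (nat_lit 2) (.e (nat_lit 196670) (nat_lit 14) (.e (nat_lit 73746) (nat_lit 3) (.e (nat_lit 516131) (nat_lit 3) (.e (nat_lit 221204) (nat_lit 20) .nil)))))))) (.g (nat_lit 1) (.e (nat_lit 78081) (nat_lit 0) .nil) .nil)))) (.nd (nat_lit 9) 
(.lf (nat_lit 467349) (.g (nat_lit 3264) (.e (nat_lit 3253) (nat_lit 197) (.e (nat_lit 532503) (nat_lit 1) (.e (nat_lit 57849) (nat_lit 252) (.e (nat_lit 57379) (nat_lit 3) (.e (nat_lit 98342) (nat_lit 20) (.e (nat_lit 221211) (nat_lit 22) (.e (nat_lit 196666) (nat_lit 13) (.e (nat_lit 65642) (nat_lit 15) .nil)))))))) (.g (nat_lit 1) (.e (nat_lit 77810) (nat_lit 0) .nil) .nil))) 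
(.lf (nat_lit 467861) (.g (nat_lit 2517) (.e (nat_lit 3255) (nat_lit 197) (.e (nat_lit 532501) (nat_lit 1) (.e (nat_lit 57851) (nat_lit 252) (.e (nat_lit 57406) (nat_lit 12) (.e (nat_lit 336456) (nat_lit 34) .nil))))) (.g (nat_lit 0) (.e (nat_lit 78536) (nat_lit 0) .nil) .nil)))))) (.nd (nat_lit 7) (.nd (nat_lit 8) (.nd (nat_lit 9) 
(.lf (nat_lit 467029) (.g (nat_lit 1977) (.e (nat_lit 3253) (nat_lit 197) (.e (nat_lit 532501) (nat_lit 1) (.e (nat_lit 57854) (nat_lit 252) (.e (nat_lit 57378) (nat_lit 3) (.e (nat_lit 98341) (nat_lit 20) (.e (nat_lit 221212) (nat_lit 22) (.e (nat_lit 196665) (nat_lit 13) (.e (nat_lit 65637) (nat_lit 15) .nil)))))))) (.g (nat_lit 1) (.e (nat_lit 77436) (nat_lit 0) .nil) .nil))) 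
(.lf (nat_lit 467541) (.g (nat_lit 2798) (.e (nat_lit 3253) (nat_lit 197) (.e (nat_lit 532504) (nat_lit 1) (.e (nat_lit 57852) (nat_lit 252) (.e (nat_lit 57406) (nat_lit 12) (.e (nat_lit 336367) (nat_lit 27) (.e (nat_lit 426555) (nat_lit 32) (.e (nat_lit 384768) (nat_lit 0) .nil))))))) (.g (nat_lit 1) (.e (nat_lit 78017) (nat_lit 0) .nil) .nil)))) (.nd (nat_lit 9) 
(.lf (nat_lit 467285) (.g (nat_lit 2014) (.e (nat_lit 3253) (nat_lit 197) (.e (nat_lit 532503) (nat_lit 1) (.e (nat_lit 57847) (nat_lit 252) (.e (nat_lit 57377) (nat_lit 3) .nil)))) (.g (nat_lit 0) (.e (nat_lit 77746) (nat_lit 0) .nil) .nil))) 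
(.lf (nat_lit 467797) (.g (nat_lit 3251) (.e (nat_lit 3253) (nat_lit 197) (.e (nat_lit 532550) (nat_lit 12) (.e (nat_lit 360475) (nat_lit 8) (.e (nat_lit 557091) (nat_lit 12) .nil)))) (.g (nat_lit 0) (.e (nat_lit 78386) (nat_lit 0) .nil) .nil))))) (.nd (nat_lit 8) (.nd (nat_lit 9) 
(.lf (nat_lit 467157) (.g (nat_lit 3147) (.e (nat_lit 3253) (nat_lit 197) (.e (nat_lit 532501) (nat_lit 1) (.e (nat_lit 57927) (nat_lit 282) (.e (nat_lit 163869) (nat_lit 2) (.e (nat_lit 196668) (nat_lit 14) (.e (nat_lit 73747) (nat_lit 3) (.e (nat_lit 516130) (nat_lit 3) (.e (nat_lit 221204) (nat_lit 20) .nil)))))))) (.g (nat_lit 1) (.e (nat_lit 77590) (nat_lit 0) .nil) .nil))) 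
(.lf (nat_lit 467669) (.g (nat_lit 4367) (.e (nat_lit 3253) (nat_lit 197) (.e (nat_lit 532504) (nat_lit 1) (.e (nat_lit 57931) (nat_lit 282) (.e (nat_lit 163869) (nat_lit 2) (.e (nat_lit 196666) (nat_lit 13) (.e (nat_lit 65569) (nat_lit 3) (.e (nat_lit 98341) (nat_lit 20) (.e (nat_lit 221204) (nat_lit 20) .nil)))))))) (.g (nat_lit 1) (.e (nat_lit 78153) (nat_lit 0) .nil) .nil)))) (.nd (nat_lit 9) 
(.lf (nat_lit 467413) (.g (nat_lit 2303) (.e (nat_lit 3253) (nat_lit 197) (.e (nat_lit 532503) (nat_lit 1) (.e (nat_lit 57930) (nat_lit 282) (.e (nat_lit 163867) (nat_lit 2) (.e (nat_lit 196670) (nat_lit 14) (.e (nat_lit 73746) (nat_lit 3) (.e (nat_lit 516131) (nat_lit 3) (.e (nat_lit 221203) (nat_lit 20) .nil)))))))) (.g (nat_lit 1) (.e (nat_lit 77880) (nat_lit 0) .nil) .nil))) 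
(.lf (nat_lit 467925) (.g (nat_lit 3321) (.e (nat_lit 3256) (nat_lit 197) (.e (nat_lit 532501) (nat_lit 1) (.e (nat_lit 57851) (nat_lit 252) (.e (nat_lit 57406) (nat_lit 12) (.e (nat_lit 336456) (nat_lit 34) (.e (nat_lit 483383) (nat_lit 23) (.e (nat_lit 336258) (nat_lit 15) .nil))))))) (.g (nat_lit 1) (.e (nat_lit 78643) (nat_lit 0) .nil) .nil))))))) 
(.nd (nat_lit 6) (.nd (nat_lit 7) (.nd (nat_lit 8) (.nd (nat_lit 9) 
(.lf (nat_lit 466997) (.g (nat_lit 3788) (.e (nat_lit 3253) (nat_lit 197) (.e (nat_lit 532501) (nat_lit 1) (.e (nat_lit 57851) (nat_lit 252) (.e (nat_lit 57354) (nat_lit 0) (.e (nat_lit 1855) (nat_lit 124) (.e (nat_lit 557105) (nat_lit 14) (.e (nat_lit 180252) (nat_lit 10) (.e (nat_lit 573482) (nat_lit 13) (.e (nat_lit 65640) (nat_lit 15) .nil))))))))) (.g (nat_lit 1) (.e (nat_lit 77404) (nat_lit 0) .nil) .nil))) 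
(.lf (nat_lit 467509) (.g (nat_lit 4434) (.e (nat_lit 3253) (nat_lit 197) (.e (nat_lit 532504) (nat_lit 1) (.e (nat_lit 57852) (nat_lit 252) (.e (nat_lit 57344) (nat_lit 0) (.e (nat_lit 1858) (nat_lit 124) (.e (nat_lit 557105) (nat_lit 14) (.e (nat_lit 180252) (nat_lit 10) (.e (nat_lit 573480) (nat_lit 13) (.e (nat_lit 65637) (nat_lit 15) .nil))))))))) (.g (nat_lit 1) (.e (nat_lit 77985) (nat_lit 0) .nil) .nil)))) 
(.nd (nat_lit 9) 
(.lf (nat_lit 467253) (.g (nat_lit 3095) (.e (nat_lit 3253) (nat_lit 197) (.e (nat_lit 532501) (nat_lit 1) (.e (nat_lit 57931) (nat_lit 282) (.e (nat_lit 163869) (nat_lit 2) (.e (nat_lit 196668) (nat_lit 14) (.e (nat_lit 73747) (nat_lit 3) (.e (nat_lit 516131) (nat_lit 3) (.e (nat_lit 221203) (nat_lit 20) .nil)))))))) (.g (nat_lit 1) (.e (nat_lit 77711) (nat_lit 0) .nil) .nil))) 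
(.lf (nat_lit 467765) (.g (nat_lit 2951) (.e (nat_lit 3253) (nat_lit 197) (.e (nat_lit 532534) (nat_lit 9) (.e (nat_lit 336019) (nat_lit 3) (.e (nat_lit 98341) (nat_lit 20) (.e (nat_lit 221197) (nat_lit 20) (.e (nat_lit 3268) (nat_lit 199) (.e (nat_lit 548889) (nat_lit 9) (.e (nat_lit 65642) (nat_lit 15) .nil)))))))) (.g (nat_lit 1) (.e (nat_lit 78337) (nat_lit 0) .nil) .nil))))) 
(.nd (nat_lit 8) (.nd (nat_lit 9) 
(.lf (nat_lit 467125) (.g (nat_lit 3081) (.e (nat_lit 3253) (nat_lit 197) (.e (nat_lit 532501) (nat_lit 1) (.e (nat_lit 57927) (nat_lit 282) (.e (nat_lit 163866) (nat_lit 2) (.e (nat_lit 196670) (nat_lit 14) (.e (nat_lit 73746) (nat_lit 3) (.e (nat_lit 516129) (nat_lit 3) (.e (nat_lit 221204) (nat_lit 20) .nil)))))))) (.g (nat_lit 1) (.e (nat_lit 77554) (nat_lit 0) .nil) .nil))) 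
(.lf (nat_lit 467637) (.g (nat_lit 2985) (.e (nat_lit 3253) (nat_lit 197) (.e (nat_lit 532504) (nat_lit 1) (.e (nat_lit 57929) (nat_lit 282) (.e (nat_lit 163874) (nat_lit 3) (.e (nat_lit 204851) (nat_lit 26) (.e (nat_lit 336019) (nat_lit 3) (.e (nat_lit 98341) (nat_lit 20) (.e (nat_lit 221204) (nat_lit 20) .nil)))))))) (.g (nat_lit 1) (.e (nat_lit 78117) (nat_lit 0) .nil) .nil)))) 
(.nd (nat_lit 9) 
(.lf (nat_lit 467381) (.g (nat_lit 2526) (.e (nat_lit 3253) (nat_lit 197) (.e (nat_lit 532503) (nat_lit 1) (.e (nat_lit 57929) (nat_lit 282) (.e (nat_lit 163867) (nat_lit 2) (.e (nat_lit 196668) (nat_lit 14) (.e (nat_lit 73747) (nat_lit 3) (.e (nat_lit 516129) (nat_lit 3) (.e (nat_lit 221204) (nat_lit 20) .nil)))))))) (.g (nat_lit 1) (.e (nat_lit 77847) (nat_lit 0) .nil) .nil))) 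
(.lf (nat_lit 467893) (.g (nat_lit 2152) (.e (nat_lit 3255) (nat_lit 197) (.e (nat_lit 532535) (nat_lit 9) (.e (nat_lit 336176) (nat_lit 10) .nil))) (.g (nat_lit 0) (.e (nat_lit 78609) (nat_lit 0) .nil) .nil)))))) (.nd (nat_lit 7) (.nd (nat_lit 8) (.nd (nat_lit 9) 
(.lf (nat_lit 467061) (.g (nat_lit 2300) (.e (nat_lit 3253) (nat_lit 197) (.e (nat_lit 532501) (nat_lit 1) (.e (nat_lit 57924) (nat_lit 282) (.e (nat_lit 163867) (nat_lit 2) (.e (nat_lit 196670) (nat_lit 14) (.e (nat_lit 73746) (nat_lit 3) (.e (nat_lit 516131) (nat_lit 3) (.e (nat_lit 221203) (nat_lit 20) .nil)))))))) (.g (nat_lit 1) (.e (nat_lit 77468) (nat_lit 0) .nil) .nil))) 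
(.lf (nat_lit 467573) (.g (nat_lit 2188) (.e (nat_lit 3253) (nat_lit 197) (.e (nat_lit 532504) (nat_lit 1) (.e (nat_lit 57854) (nat_lit 252) (.e (nat_lit 57406) (nat_lit 12) (.e (nat_lit 336456) (nat_lit 34) (.e (nat_lit 483391) (nat_lit 23) (.e (nat_lit 336300) (nat_lit 15) .nil))))))) (.g (nat_lit 1) (.e (nat_lit 78049) (nat_lit 0) .nil) .nil)))) (.nd (nat_lit 9) 
(.lf (nat_lit 467317) (.g (nat_lit 2140) (.e (nat_lit 3253) (nat_lit 197) (.e (nat_lit 532503) (nat_lit 1) (.e (nat_lit 57847) (nat_lit 252) (.e (nat_lit 57448) (nat_lit 19) (.e (nat_lit 393229) (nat_lit 9) (.e (nat_lit 336086) (nat_lit 9) (.e (nat_lit 336270) (nat_lit 15) .nil))))))) (.g (nat_lit 1) (.e (nat_lit 77778) (nat_lit 0) .nil) .nil))) 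
(.lf (nat_lit 467829) (.g (nat_lit 3245) (.e (nat_lit 3254) (nat_lit 197) (.e (nat_lit 532503) (nat_lit 1) (.e (nat_lit 57931) (nat_lit 282) (.e (nat_lit 163867) (nat_lit 2) (.e (nat_lit 196670) (nat_lit 14) (.e (nat_lit 73746) (nat_lit 3) (.e (nat_lit 516129) (nat_lit 3) (.e (nat_lit 221200) (nat_lit 20) .nil)))))))) (.g (nat_lit 1) (.e (nat_lit 78490) (nat_lit 0) .nil) .nil))))) 
(.nd (nat_lit 8) (.nd (nat_lit 9) 
(.lf (nat_lit 467189) (.g (nat_lit 2864) (.e (nat_lit 3253) (nat_lit 197) (.e (nat_lit 532501) (nat_lit 1) (.e (nat_lit 57927) (nat_lit 282) (.e (nat_lit 163875) (nat_lit 3) (.e (nat_lit 204862) (nat_lit 27) (.e (nat_lit 344117) (nat_lit 21) (.e (nat_lit 516129) (nat_lit 3) (.e (nat_lit 221204) (nat_lit 20) .nil)))))))) (.g (nat_lit 1) (.e (nat_lit 77635) (nat_lit 0) .nil) .nil))) 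
(.lf (nat_lit 467701) (.g (nat_lit 1873) (.e (nat_lit 3253) (nat_lit 197) (.e (nat_lit 532510) (nat_lit 2) (.e (nat_lit 106536) (nat_lit 11) (.e (nat_lit 16413) (nat_lit 2) (.e (nat_lit 196674) (nat_lit 15) (.e (nat_lit 89856) (nat_lit 0) .nil)))))) (.g (nat_lit 1) (.e (nat_lit 78189) (nat_lit 0) .nil) .nil)))) (.nd (nat_lit 9) 
(.lf (nat_lit 467445) (.g (nat_lit 2736) (.e (nat_lit 3253) (nat_lit 197) (.e (nat_lit 532503) (nat_lit 1) (.e (nat_lit 57931) (nat_lit 282) (.e (nat_lit 163867) (nat_lit 2) (.e (nat_lit 196668) (nat_lit 14) (.e (nat_lit 73747) (nat_lit 3) (.e (nat_lit 516131) (nat_lit 3) (.e (nat_lit 221203) (nat_lit 20) .nil)))))))) (.g (nat_lit 1) (.e (nat_lit 77915) (nat_lit 0) .nil) .nil))) 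
(.lf (nat_lit 467957) (.g (nat_lit 4655) (.e (nat_lit 3256) (nat_lit 197) (.e (nat_lit 532550) (nat_lit 12) (.e (nat_lit 360474) (nat_lit 8) (.e (nat_lit 557093) (nat_lit 12) (.e (nat_lit 164022) (nat_lit 46) .nil))))) (.g (nat_lit 0) (.e (nat_lit 78737) (nat_lit 0) .nil) .nil))))))))) (.nd (nat_lit 4) (.nd (nat_lit 5) (.nd (nat_lit 6) (.nd (nat_lit 7) (.nd (nat_lit 8) (.nd (nat_lit 9) 
(.lf (nat_lit 466957) (.g (nat_lit 2334) (.e (nat_lit 3253) (nat_lit 197) (.e (nat_lit 532499) (nat_lit 1) (.e (nat_lit 57927) (nat_lit 282) (.e (nat_lit 163875) (nat_lit 3) (.e (nat_lit 204862) (nat_lit 27) (.e (nat_lit 344117) (nat_lit 21) (.e (nat_lit 516130) (nat_lit 3) (.e (nat_lit 221203) (nat_lit 20) .nil)))))))) (.g (nat_lit 1) (.e (nat_lit 77359) (nat_lit 0) .nil) .nil))) 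
(.lf (nat_lit 467469) (.g (nat_lit 2602) (.e (nat_lit 3253) (nat_lit 197) (.e (nat_lit 532503) (nat_lit 1) (.e (nat_lit 57931) (nat_lit 282) (.e (nat_lit 163873) (nat_lit 3) (.e (nat_lit 204851) (nat_lit 26) (.e (nat_lit 336019) (nat_lit 3) (.e (nat_lit 98342) (nat_lit 20) (.e (nat_lit 221204) (nat_lit 20) .nil)))))))) (.g (nat_lit 1) (.e (nat_lit 77943) (nat_lit 0) .nil) .nil)))) 
(.nd (nat_lit 9) 
(.lf (nat_lit 467213) (.g (nat_lit 2837) (.e (nat_lit 3253) (nat_lit 197) (.e (nat_lit 532501) (nat_lit 1) (.e (nat_lit 57929) (nat_lit 282) (.e (nat_lit 163869) (nat_lit 2) (.e (nat_lit 196666) (nat_lit 13) (.e (nat_lit 65569) (nat_lit 3) (.e (nat_lit 98341) (nat_lit 20) (.e (nat_lit 221204) (nat_lit 20) .nil)))))))) (.g (nat_lit 1) (.e (nat_lit 77670) (nat_lit 0) .nil) .nil))) 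
(.lf (nat_lit 467725) (.g (nat_lit 1847) (.e (nat_lit 3253) (nat_lit 197) (.e (nat_lit 532515) (nat_lit 3) (.e (nat_lit 114697) (nat_lit 11) (.e (nat_lit 426122) (nat_lit 2) (.e (nat_lit 196672) (nat_lit 15) (.e (nat_lit 81924) (nat_lit 0) .nil)))))) (.g (nat_lit 1) (.e (nat_lit 78234) (nat_lit 0) .nil) .nil))))) (.nd (nat_lit 8) (.nd (nat_lit 9) 
(.lf (nat_lit 467085) (.g (nat_lit 2291) (.e (nat_lit 3253) (nat_lit 197) (.e (nat_lit 532501) (nat_lit 1) (.e (nat_lit 57926) (nat_lit 282) (.e (nat_lit 163869) (nat_lit 2) (.e (nat_lit 196663) (nat_lit 13) (.e (nat_lit 65571) (nat_lit 3) (.e (nat_lit 98341) (nat_lit 20) (.e (nat_lit 221204) (nat_lit 20) .nil)))))))) (.g (nat_lit 1) (.e (nat_lit 77499) (nat_lit 0) .nil) .nil))) 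
(.lf (nat_lit 467597) (.g (nat_lit 3087) (.e (nat_lit 3253) (nat_lit 197) (.e (nat_lit 532504) (nat_lit 1) (.e (nat_lit 57924) (nat_lit 282) (.e (nat_lit 163867) (nat_lit 2) (.e (nat_lit 196668) (nat_lit 14) (.e (nat_lit 73746) (nat_lit 3) (.e (nat_lit 516129) (nat_lit 3) (.e (nat_lit 221204) (nat_lit 20) .nil)))))))) (.g (nat_lit 1) (.e (nat_lit 78073) (nat_lit 0) .nil) .nil)))) (.nd (nat_lit 9) 
(.lf (nat_lit 467341) (.g (nat_lit 1894) (.e (nat_lit 3253) (nat_lit 197) (.e (nat_lit 532503) (nat_lit 1) (.e (nat_lit 57848) (nat_lit 252) (.e (nat_lit 57446) (nat_lit 19) (.e (nat_lit 401152) (nat_lit 11) (.e (nat_lit 360192) (nat_lit 0) .nil)))))) (.g (nat_lit 1) (.e (nat_lit 77802) (nat_lit 0) .nil) .nil))) 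
(.lf (nat_lit 467853) (.g (nat_lit 7348) (.e (nat_lit 3254) (nat_lit 197) (.e (nat_lit 532550) (nat_lit 12) (.e (nat_lit 360475) (nat_lit 8) (.e (nat_lit 557090) (nat_lit 12) .nil)))) (.g (nat_lit 0) (.e (nat_lit 78523) (nat_lit 0) .nil) .nil)))))) (.nd (nat_lit 7) (.nd (nat_lit 8) (.nd (nat_lit 9) 
(.lf (nat_lit 467021) (.g (nat_lit 2540) (.e (nat_lit 3253) (nat_lit 197) (.e (nat_lit 532501) (nat_lit 1) (.e (nat_lit 57852) (nat_lit 252) (.e (nat_lit 57378) (nat_lit 3) (.e (nat_lit 98341) (nat_lit 20) (.e (nat_lit 221210) (nat_lit 22) (.e (nat_lit 196665) (nat_lit 13) (.e (nat_lit 65637) (nat_lit 15) .nil)))))))) (.g (nat_lit 1) (.e (nat_lit 77428) (nat_lit 0) .nil) .nil))) 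
(.lf (nat_lit 467533) (.g (nat_lit 3513) (.e (nat_lit 3253) (nat_lit 197) (.e (nat_lit 532504) (nat_lit 1) (.e (nat_lit 57852) (nat_lit 252) (.e (nat_lit 57378) (nat_lit 3) (.e (nat_lit 98341) (nat_lit 20) (.e (nat_lit 221211) (nat_lit 22) (.e (nat_lit 196666) (nat_lit 13) (.e (nat_lit 65642) (nat_lit 15) .nil)))))))) (.g (nat_lit 1) (.e (nat_lit 78009) (nat_lit 0) .nil) .nil)))) (.nd (nat_lit 9) 
(.lf (nat_lit 467277) (.g (nat_lit 1842) (.e (nat_lit 3253) (nat_lit 197) (.e (nat_lit 532503) (nat_lit 1) (.e (nat_lit 57844) (nat_lit 252) (.e (nat_lit 57446) (nat_lit 19) (.e (nat_lit 401152) (nat_lit 11) (.e (nat_lit 360192) (nat_lit 0) .nil)))))) (.g (nat_lit 1) (.e (nat_lit 77738) (nat_lit 0) .nil) .nil))) 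
(.lf (nat_lit 467789) (.g (nat_lit 4601) (.e (nat_lit 3253) (nat_lit 197) (.e (nat_lit 532550) (nat_lit 12) (.e (nat_lit 360475) (nat_lit 8) (.e (nat_lit 557068) (nat_lit 9) .nil)))) (.g (nat_lit 0) (.e (nat_lit 78378) (nat_lit 0) .nil) .nil))))) (.nd (nat_lit 8) (.nd (nat_lit 9) 
(.lf (nat_lit 467149) (.g (nat_lit 2749) (.e (nat_lit 3253) (nat_lit 197) (.e (nat_lit 532501) (nat_lit 1) (.e (nat_lit 57927) (nat_lit 282) (.e (nat_lit 163869) (nat_lit 2) (.e (nat_lit 196664) (nat_lit 13) (.e (nat_lit 65571) (nat_lit 3) (.e (nat_lit 98342) (nat_lit 20) (.e (nat_lit 221204) (nat_lit 20) .nil)))))))) (.g (nat_lit 1) (.e (nat_lit 77578) (nat_lit 0) .nil) .nil))) 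
(.lf (nat_lit 467661) (.g (nat_lit 3338) (.e (nat_lit 3253) (nat_lit 197) (.e (nat_lit 532504) (nat_lit 1) (.e (nat_lit 57931) (nat_lit 282) (.e (nat_lit 163867) (nat_lit 2) (.e (nat_lit 196668) (nat_lit 14) (.e (nat_lit 73747) (nat_lit 3) (.e (nat_lit 516131) (nat_lit 3) (.e (nat_lit 221204) (nat_lit 20) .nil)))))))) (.g (nat_lit 1) (.e (nat_lit 78145) (nat_lit 0) .nil) .nil)))) (.nd (nat_lit 9) 
(.lf (nat_lit 467405) (.g (nat_lit 2139) (.e (nat_lit 3253) (nat_lit 197) (.e (nat_lit 532503) (nat_lit 1) (.e (nat_lit 57930) (nat_lit 282) (.e (nat_lit 163867) (nat_lit 2) (.e (nat_lit 196668) (nat_lit 14) .nil))))) (.g (nat_lit 0) (.e (nat_lit 77872) (nat_lit 0) .nil) .nil))) 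
(.lf (nat_lit 467917) (.g (nat_lit 2324) (.e (nat_lit 3256) (nat_lit 197) (.e (nat_lit 532499) (nat_lit 1) (.e (nat_lit 57927) (nat_lit 282) (.e (nat_lit 163868) (nat_lit 2) (.e (nat_lit 196668) (nat_lit 14) (.e (nat_lit 73747) (nat_lit 3) (.e (nat_lit 516131) (nat_lit 3) (.e (nat_lit 221197) (nat_lit 20) .nil)))))))) (.g (nat_lit 1) (.e (nat_lit 78634) (nat_lit 0) .nil) .nil))))))) 
(.nd (nat_lit 6) (.nd (nat_lit 7) (.nd (nat_lit 8) (.nd (nat_lit 9) 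
(.lf (nat_lit 466989) (.g (nat_lit 3417) (.e (nat_lit 3253) (nat_lit 197) (.e (nat_lit 532499) (nat_lit 1) (.e (nat_lit 57931) (nat_lit 282) (.e (nat_lit 163874) (nat_lit 3) (.e (nat_lit 204854) (nat_lit 26) (.e (nat_lit 336019) (nat_lit 3) (.e (nat_lit 98342) (nat_lit 20) (.e (nat_lit 221204) (nat_lit 20) .nil)))))))) (.g (nat_lit 1) (.e (nat_lit 77396) (nat_lit 0) .nil) .nil))) 
(.lf (nat_lit 467501) (.g (nat_lit 2420) (.e (nat_lit 3253) (nat_lit 197) (.e (nat_lit 532504) (nat_lit 1) (.e (nat_lit 57851) (nat_lit 252) (.e (nat_lit 57406) (nat_lit 12) (.e (nat_lit 336456) (nat_lit 34) (.e (nat_lit 483387) (nat_lit 23) (.e (nat_lit 336267) (nat_lit 15) .nil))))))) (.g (nat_lit 1) (.e (nat_lit 77977) (nat_lit 0) .nil) .nil)))) (.nd (nat_lit 9) 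
(.lf (nat_lit 467245) (.g (nat_lit 4160) (.e (nat_lit 3253) (nat_lit 197) (.e (nat_lit 532501) (nat_lit 1) (.e (nat_lit 57931) (nat_lit 282) (.e (nat_lit 163869) (nat_lit 2) (.e (nat_lit 196666) (nat_lit 13) (.e (nat_lit 65569) (nat_lit 3) (.e (nat_lit 98342) (nat_lit 20) (.e (nat_lit 221204) (nat_lit 20) .nil)))))))) (.g (nat_lit 1) (.e (nat_lit 77702) (nat_lit 0) .nil) .nil))) 
(.lf (nat_lit 467757) (.g (nat_lit 2743) (.e (nat_lit 3253) (nat_lit 197) (.e (nat_lit 532530) (nat_lit 9) (.e (nat_lit 336326) (nat_lit 18) (.e (nat_lit 204852) (nat_lit 26) (.e (nat_lit 336316) (nat_lit 17) (.e (nat_lit 196666) (nat_lit 13) (.e (nat_lit 65642) (nat_lit 15) .nil))))))) (.g (nat_lit 1) (.e (nat_lit 78321) (nat_lit 0) .nil) .nil))))) (.nd (nat_lit 8) (.nd (nat_lit 9) 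
(.lf (nat_lit 467117) (.g (nat_lit 2641) (.e (nat_lit 3253) (nat_lit 197) (.e (nat_lit 532501) (nat_lit 1) (.e (nat_lit 57926) (nat_lit 282) (.e (nat_lit 163875) (nat_lit 3) (.e (nat_lit 204863) (nat_lit 27) (.e (nat_lit 344117) (nat_lit 21) (.e (nat_lit 516129) (nat_lit 3) (.e (nat_lit 221204) (nat_lit 20) .nil)))))))) (.g (nat_lit 1) (.e (nat_lit 77544) (nat_lit 0) .nil) .nil))) 
(.lf (nat_lit 467629) (.g (nat_lit 2229) (.e (nat_lit 3253) (nat_lit 197) (.e (nat_lit 532504) (nat_lit 1) (.e (nat_lit 57929) (nat_lit 282) (.e (nat_lit 163869) (nat_lit 2) (.e (nat_lit 196668) (nat_lit 14) (.e (nat_lit 73747) (nat_lit 3) (.e (nat_lit 516131) (nat_lit 3) (.e (nat_lit 221203) (nat_lit 20) .nil)))))))) (.g (nat_lit 1) (.e (nat_lit 78109) (nat_lit 0) .nil) .nil)))) (.nd (nat_lit 9) 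
(.lf (nat_lit 467373) (.g (nat_lit 2652) (.e (nat_lit 3253) (nat_lit 197) (.e (nat_lit 532503) (nat_lit 1) (.e (nat_lit 57924) (nat_lit 282) (.e (nat_lit 163871) (nat_lit 2) (.e (nat_lit 196670) (nat_lit 14) (.e (nat_lit 73746) (nat_lit 3) (.e (nat_lit 516129) (nat_lit 3) (.e (nat_lit 221203) (nat_lit 20) .nil)))))))) (.g (nat_lit 1) (.e (nat_lit 77839) (nat_lit 0) .nil) .nil))) 
(.lf (nat_lit 467885) (.g (nat_lit 3106) (.e (nat_lit 3255) (nat_lit 197) (.e (nat_lit 532535) (nat_lit 9) (.e (nat_lit 336099) (nat_lit 9) (.e (nat_lit 336020) (nat_lit 3) .nil)))) (.g (nat_lit 0) (.e (nat_lit 78601) (nat_lit 0) .nil) .nil)))))) (.nd (nat_lit 7) (.nd (nat_lit 8) (.nd (nat_lit 9) 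
(.lf (nat_lit 467053) (.g (nat_lit 2120) (.e (nat_lit 3253) (nat_lit 197) (.e (nat_lit 532501) (nat_lit 1) (.e (nat_lit 57924) (nat_lit 282) (.e (nat_lit 163867) (nat_lit 2) (.e (nat_lit 196668) (nat_lit 14) (.e (nat_lit 73746) (nat_lit 3) (.e (nat_lit 516129) (nat_lit 3) (.e (nat_lit 221203) (nat_lit 20) .nil)))))))) (.g (nat_lit 1) (.e (nat_lit 77460) (nat_lit 0) .nil) .nil))) 
(.lf (nat_lit 467565) (.g (nat_lit 437) (.e (nat_lit 3253) (nat_lit 197) (.e (nat_lit 532504) (nat_lit 1) (.e (nat_lit 57854) (nat_lit 252) .nil))) (.g (nat_lit 0) (.e (nat_lit 78041) (nat_lit 0) .nil) .nil)))) (.nd (nat_lit 9) 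
(.lf (nat_lit 467309) (.g (nat_lit 1903) (.e (nat_lit 3253) (nat_lit 197) (.e (nat_lit 532503) (nat_lit 1) (.e (nat_lit 57847) (nat_lit 252) (.e (nat_lit 57445) (nat_lit 19) (.e (nat_lit 401152) (nat_lit 11) (.e (nat_lit 360192) (nat_lit 0) .nil)))))) (.g (nat_lit 1) (.e (nat_lit 77770) (nat_lit 0) .nil) .nil))) 
(.lf (nat_lit 467821) (.g (nat_lit 2801) (.e (nat_lit 3254) (nat_lit 197) (.e (nat_lit 532499) (nat_lit 1) (.e (nat_lit 57847) (nat_lit 252) (.e (nat_lit 57410) (nat_lit 12) (.e (nat_lit 336454) (nat_lit 34) (.e (nat_lit 483385) (nat_lit 23) (.e (nat_lit 336260) (nat_lit 15) .nil))))))) (.g (nat_lit 1) (.e (nat_lit 78478) (nat_lit 0) .nil) .nil))))) (.nd (nat_lit 8) (.nd (nat_lit 9) 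
(.lf (nat_lit 467181) (.g (nat_lit 2342) (.e (nat_lit 3253) (nat_lit 197) (.e (nat_lit 532501) (nat_lit 1) (.e (nat_lit 57927) (nat_lit 282) (.e (nat_lit 163874) (nat_lit 3) (.e (nat_lit 204859) (nat_lit 26) (.e (nat_lit 336017) (nat_lit 3) (.e (nat_lit 98341) (nat_lit 20) (.e (nat_lit 221204) (nat_lit 20) .nil)))))))) (.g (nat_lit 1) (.e (nat_lit 77625) (nat_lit 0) .nil) .nil))) 
(.lf (nat_lit 467693) (.g (nat_lit 2780) (.e (nat_lit 3253) (nat_lit 197) (.e (nat_lit 532504) (nat_lit 1) (.e (nat_lit 57931) (nat_lit 282) (.e (nat_lit 163874) (nat_lit 3) (.e (nat_lit 204873) (nat_lit 30) (.e (nat_lit 368676) (nat_lit 21) (.e (nat_lit 516131) (nat_lit 3) (.e (nat_lit 221204) (nat_lit 20) .nil)))))))) (.g (nat_lit 1) (.e (nat_lit 78181) (nat_lit 0) .nil) .nil)))) 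
(.nd (nat_lit 9) 
(.lf (nat_lit 467437) (.g (nat_lit 2699) (.e (nat_lit 3253) (nat_lit 197) (.e (nat_lit 532503) (nat_lit 1) (.e (nat_lit 57931) (nat_lit 282) (.e (nat_lit 163867) (nat_lit 2) (.e (nat_lit 196663) (nat_lit 13) (.e (nat_lit 65569) (nat_lit 3) (.e (nat_lit 98342) (nat_lit 20) (.e (nat_lit 221204) (nat_lit 20) .nil)))))))) (.g (nat_lit 1) (.e (nat_lit 77907) (nat_lit 0) .nil) .nil))) 
(.lf (nat_lit 467949) (.g (nat_lit 2495) (.e (nat_lit 3256) (nat_lit 197) (.e (nat_lit 532530) (nat_lit 9) (.e (nat_lit 336326) (nat_lit 18) (.e (nat_lit 204854) (nat_lit 26) (.e (nat_lit 336326) (nat_lit 18) (.e (nat_lit 204854) (nat_lit 26) (.e (nat_lit 336258) (nat_lit 15) .nil))))))) (.g (nat_lit 1) (.e (nat_lit 78723) (nat_lit 0) .nil) .nil)))))))) 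
(.nd (nat_lit 5) (.nd (nat_lit 6) (.nd (nat_lit 7) (.nd (nat_lit 8) (.nd (nat_lit 9) 
(.lf (nat_lit 466973) (.g (nat_lit 2869) (.e (nat_lit 3253) (nat_lit 197) (.e (nat_lit 532499) (nat_lit 1) (.e (nat_lit 57931) (nat_lit 282) (.e (nat_lit 163869) (nat_lit 2) (.e (nat_lit 196664) (nat_lit 13) (.e (nat_lit 65571) (nat_lit 3) (.e (nat_lit 98341) (nat_lit 20) (.e (nat_lit 221204) (nat_lit 20) .nil)))))))) (.g (nat_lit 1) (.e (nat_lit 77378) (nat_lit 0) .nil) .nil))) 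
(.lf (nat_lit 467485) (.g (nat_lit 1622) (.e (nat_lit 3253) (nat_lit 197) (.e (nat_lit 532504) (nat_lit 1) (.e (nat_lit 57692) (nat_lit 156) (.e (nat_lit 163874) (nat_lit 3) (.e (nat_lit 204836) (nat_lit 20) .nil))))) (.g (nat_lit 0) (.e (nat_lit 77961) (nat_lit 0) .nil) .nil)))) (.nd (nat_lit 9) 
(.lf (nat_lit 467229) (.g (nat_lit 1857) (.e (nat_lit 3253) (nat_lit 197) (.e (nat_lit 532501) (nat_lit 1) (.e (nat_lit 57929) (nat_lit 282) (.e (nat_lit 163874) (nat_lit 3) (.e (nat_lit 204873) (nat_lit 30) (.e (nat_lit 368676) (nat_lit 21) (.e (nat_lit 516131) (nat_lit 3) (.e (nat_lit 221204) (nat_lit 20) .nil)))))))) (.g (nat_lit 1) (.e (nat_lit 77686) (nat_lit 0) .nil) .nil))) 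
(.lf (nat_lit 467741) (.g (nat_lit 2229) (.e (nat_lit 3253) (nat_lit 197) (.e (nat_lit 532523) (nat_lit 7) (.e (nat_lit 319532) (nat_lit 16) (.e (nat_lit 286734) (nat_lit 3) (.e (nat_lit 98382) (nat_lit 31) (.e (nat_lit 466967) (nat_lit 20) .nil)))))) (.g (nat_lit 1) (.e (nat_lit 78285) (nat_lit 0) .nil) .nil))))) (.nd (nat_lit 8) (.nd (nat_lit 9) 
(.lf (nat_lit 467101) (.g (nat_lit 3776) (.e (nat_lit 3253) (nat_lit 197) (.e (nat_lit 532501) (nat_lit 1) (.e (nat_lit 57926) (nat_lit 282) (.e (nat_lit 163869) (nat_lit 2) (.e (nat_lit 196670) (nat_lit 14) (.e (nat_lit 73746) (nat_lit 3) (.e (nat_lit 516131) (nat_lit 3) (.e (nat_lit 221204) (nat_lit 20) .nil)))))))) (.g (nat_lit 1) (.e (nat_lit 77516) (nat_lit 0) .nil) .nil))) 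
(.lf (nat_lit 467613) (.g (nat_lit 2453) (.e (nat_lit 3253) (nat_lit 197) (.e (nat_lit 532504) (nat_lit 1) (.e (nat_lit 57929) (nat_lit 282) (.e (nat_lit 163867) (nat_lit 2) (.e (nat_lit 196670) (nat_lit 14) (.e (nat_lit 73746) (nat_lit 3) (.e (nat_lit 516129) (nat_lit 3) (.e (nat_lit 221203) (nat_lit 20) .nil)))))))) (.g (nat_lit 1) (.e (nat_lit 78093) (nat_lit 0) .nil) .nil)))) (.nd (nat_lit 9) 
(.lf (nat_lit 467357) (.g (nat_lit 3566) (.e (nat_lit 3253) (nat_lit 197) (.e (nat_lit 532503) (nat_lit 1) (.e (nat_lit 57924) (nat_lit 282) (.e (nat_lit 163867) (nat_lit 2) (.e (nat_lit 196663) (nat_lit 13) (.e (nat_lit 65571) (nat_lit 3) (.e (nat_lit 98341) (nat_lit 20) (.e (nat_lit 221204) (nat_lit 20) .nil)))))))) (.g (nat_lit 1) (.e (nat_lit 77818) (nat_lit 0) .nil) .nil))) 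
(.lf (nat_lit 467869) (.g (nat_lit 1081) (.e (nat_lit 3255) (nat_lit 197) (.e (nat_lit 532523) (nat_lit 7) (.e (nat_lit 319511) (nat_lit 10) (.e (nat_lit 5293) (nat_lit 298) .nil)))) (.g (nat_lit 0) (.e (nat_lit 78581) (nat_lit 0) .nil) .nil)))))) (.nd (nat_lit 7) (.nd (nat_lit 8) (.nd (nat_lit 9) 
(.lf (nat_lit 467037) (.g (nat_lit 2590) (.e (nat_lit 3253) (nat_lit 197) (.e (nat_lit 532501) (nat_lit 1) (.e (nat_lit 57854) (nat_lit 252) (.e (nat_lit 57409) (nat_lit 12) (.e (nat_lit 336367) (nat_lit 27) (.e (nat_lit 426542) (nat_lit 29) (.e (nat_lit 352267) (nat_lit 0) .nil))))))) (.g (nat_lit 1) (.e (nat_lit 77444) (nat_lit 0) .nil) .nil))) 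
(.lf (nat_lit 467549) (.g (nat_lit 1396) (.e (nat_lit 3253) (nat_lit 197) (.e (nat_lit 532504) (nat_lit 1) (.e (nat_lit 57852) (nat_lit 252) (.e (nat_lit 57409) (nat_lit 12) .nil)))) (.g (nat_lit 0) (.e (nat_lit 78025) (nat_lit 0) .nil) .nil)))) (.nd (nat_lit 9) 
(.lf (nat_lit 467293) (.g (nat_lit 2623) (.e (nat_lit 3253) (nat_lit 197) (.e (nat_lit 532503) (nat_lit 1) (.e (nat_lit 57847) (nat_lit 252) (.e (nat_lit 57407) (nat_lit 12) (.e (nat_lit 336456) (nat_lit 34) (.e (nat_lit 483387) (nat_lit 23) (.e (nat_lit 336282) (nat_lit 15) .nil))))))) (.g (nat_lit 1) (.e (nat_lit 77754) (nat_lit 0) .nil) .nil))) 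
(.lf (nat_lit 467805) (.g (nat_lit 2909) (.e (nat_lit 3253) (nat_lit 197) (.e (nat_lit 532560) (nat_lit 14) (.e (nat_lit 376842) (nat_lit 11) (.e (nat_lit 426106) (nat_lit 1) (.e (nat_lit 164179) (nat_lit 154) (.e (nat_lit 57412) (nat_lit 12) (.e (nat_lit 336295) (nat_lit 15) .nil))))))) (.g (nat_lit 1) (.e (nat_lit 78416) (nat_lit 0) .nil) .nil))))) (.nd (nat_lit 8) (.nd (nat_lit 9) 
(.lf (nat_lit 467165) (.g (nat_lit 2573) (.e (nat_lit 3253) (nat_lit 197) (.e (nat_lit 532501) (nat_lit 1) (.e (nat_lit 57927) (nat_lit 282) (.e (nat_lit 163870) (nat_lit 2) (.e (nat_lit 196670) (nat_lit 14) (.e (nat_lit 73746) (nat_lit 3) (.e (nat_lit 516129) (nat_lit 3) (.e (nat_lit 221204) (nat_lit 20) .nil)))))))) (.g (nat_lit 1) (.e (nat_lit 77603) (nat_lit 0) .nil) .nil))) 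
(.lf (nat_lit 467677) (.g (nat_lit 3725) (.e (nat_lit 3253) (nat_lit 197) (.e (nat_lit 532504) (nat_lit 1) (.e (nat_lit 57931) (nat_lit 282) (.e (nat_lit 163869) (nat_lit 2) (.e (nat_lit 196668) (nat_lit 14) (.e (nat_lit 73747) (nat_lit 3) (.e (nat_lit 516130) (nat_lit 3) (.e (nat_lit 221204) (nat_lit 20) .nil)))))))) (.g (nat_lit 1) (.e (nat_lit 78163) (nat_lit 0) .nil) .nil)))) (.nd (nat_lit 9) 
(.lf (nat_lit 467421) (.g (nat_lit 2924) (.e (nat_lit 3253) (nat_lit 197) (.e (nat_lit 532503) (nat_lit 1) (.e (nat_lit 57930) (nat_lit 282) (.e (nat_lit 163869) (nat_lit 2) (.e (nat_lit 196670) (nat_lit 14) (.e (nat_lit 73746) (nat_lit 3) (.e (nat_lit 516131) (nat_lit 3) (.e (nat_lit 221204) (nat_lit 20) .nil)))))))) (.g (nat_lit 1) (.e (nat_lit 77888) (nat_lit 0) .nil) .nil))) 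
(.lf (nat_lit 467933) (.g (nat_lit 3720) (.e (nat_lit 3256) (nat_lit 197) (.e (nat_lit 532503) (nat_lit 1) (.e (nat_lit 57931) (nat_lit 282) (.e (nat_lit 163869) (nat_lit 2) (.e (nat_lit 196668) (nat_lit 14) (.e (nat_lit 73747) (nat_lit 3) (.e (nat_lit 516129) (nat_lit 3) (.e (nat_lit 221196) (nat_lit 20) .nil)))))))) (.g (nat_lit 1) (.e (nat_lit 78652) (nat_lit 0) .nil) .nil))))))) 
(.nd (nat_lit 6) (.nd (nat_lit 7) (.nd (nat_lit 8) (.nd (nat_lit 9) 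
(.lf (nat_lit 467005) (.g (nat_lit 2013) (.e (nat_lit 3253) (nat_lit 197) (.e (nat_lit 532501) (nat_lit 1) (.e (nat_lit 57851) (nat_lit 252) (.e (nat_lit 57406) (nat_lit 12) (.e (nat_lit 336456) (nat_lit 34) (.e (nat_lit 483386) (nat_lit 23) (.e (nat_lit 336282) (nat_lit 15) .nil))))))) (.g (nat_lit 1) (.e (nat_lit 77412) (nat_lit 0) .nil) .nil))) 
(.lf (nat_lit 467517) (.g (nat_lit 3876) (.e (nat_lit 3253) (nat_lit 197) (.e (nat_lit 532504) (nat_lit 1) (.e (nat_lit 57852) (nat_lit 252) (.e (nat_lit 57355) (nat_lit 0) (.e (nat_lit 1858) (nat_lit 124) (.e (nat_lit 557105) (nat_lit 14) (.e (nat_lit 180252) (nat_lit 10) (.e (nat_lit 573482) (nat_lit 13) (.e (nat_lit 65640) (nat_lit 15) .nil))))))))) (.g (nat_lit 1) (.e (nat_lit 77993) (nat_lit 0) .nil) .nil)))) 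
(.nd (nat_lit 9) 
(.lf (nat_lit 467261) (.g (nat_lit 2678) (.e (nat_lit 3253) (nat_lit 197) (.e (nat_lit 532501) (nat_lit 1) (.e (nat_lit 57931) (nat_lit 282) (.e (nat_lit 163874) (nat_lit 3) (.e (nat_lit 204851) (nat_lit 26) .nil))))) (.g (nat_lit 0) (.e (nat_lit 77720) (nat_lit 0) .nil) .nil))) 
(.lf (nat_lit 467773) (.g (nat_lit 2771) (.e (nat_lit 3253) (nat_lit 197) (.e (nat_lit 532549) (nat_lit 12) (.e (nat_lit 360473) (nat_lit 8) (.e (nat_lit 557091) (nat_lit 12) (.e (nat_lit 164022) (nat_lit 46) (.e (nat_lit 704738) (nat_lit 11) (.e (nat_lit 16403) (nat_lit 0) .nil))))))) (.g (nat_lit 1) (.e (nat_lit 78360) (nat_lit 0) .nil) .nil))))) (.nd (nat_lit 8) (.nd (nat_lit 9) 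
(.lf (nat_lit 467133) (.g (nat_lit 4259) (.e (nat_lit 3253) (nat_lit 197) (.e (nat_lit 532501) (nat_lit 1) (.e (nat_lit 57927) (nat_lit 282) (.e (nat_lit 163868) (nat_lit 2) (.e (nat_lit 196663) (nat_lit 13) (.e (nat_lit 65571) (nat_lit 3) (.e (nat_lit 98342) (nat_lit 20) (.e (nat_lit 221204) (nat_lit 20) .nil)))))))) (.g (nat_lit 1) (.e (nat_lit 77562) (nat_lit 0) .nil) .nil))) 
(.lf (nat_lit 467645) (.g (nat_lit 2211) (.e (nat_lit 3253) (nat_lit 197) (.e (nat_lit 532504) (nat_lit 1) (.e (nat_lit 57930) (nat_lit 282) (.e (nat_lit 163867) (nat_lit 2) (.e (nat_lit 196668) (nat_lit 14) (.e (nat_lit 73747) (nat_lit 3) (.e (nat_lit 516129) (nat_lit 3) (.e (nat_lit 221204) (nat_lit 20) .nil)))))))) (.g (nat_lit 1) (.e (nat_lit 78127) (nat_lit 0) .nil) .nil)))) (.nd (nat_lit 9) 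
(.lf (nat_lit 467389) (.g (nat_lit 3058) (.e (nat_lit 3253) (nat_lit 197) (.e (nat_lit 532503) (nat_lit 1) (.e (nat_lit 57929) (nat_lit 282) (.e (nat_lit 163869) (nat_lit 2) (.e (nat_lit 196668) (nat_lit 14) (.e (nat_lit 73747) (nat_lit 3) (.e (nat_lit 516129) (nat_lit 3) (.e (nat_lit 221203) (nat_lit 20) .nil)))))))) (.g (nat_lit 1) (.e (nat_lit 77855) (nat_lit 0) .nil) .nil))) 
(.lf (nat_lit 467901) (.g (nat_lit 4304) (.e (nat_lit 3255) (nat_lit 197) (.e (nat_lit 532550) (nat_lit 12) (.e (nat_lit 360474) (nat_lit 8) (.e (nat_lit 557093) (nat_lit 12) .nil)))) (.g (nat_lit 0) (.e (nat_lit 78617) (nat_lit 0) .nil) .nil)))))) (.nd (nat_lit 7) (.nd (nat_lit 8) (.nd (nat_lit 9) 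
(.lf (nat_lit 467069) (.g (nat_lit 3789) (.e (nat_lit 3253) (nat_lit 197) (.e (nat_lit 532501) (nat_lit 1) (.e (nat_lit 57925) (nat_lit 282) (.e (nat_lit 163875) (nat_lit 3) (.e (nat_lit 204862) (nat_lit 27) (.e (nat_lit 344117) (nat_lit 21) (.e (nat_lit 516130) (nat_lit 3) (.e (nat_lit 221204) (nat_lit 20) .nil)))))))) (.g (nat_lit 1) (.e (nat_lit 77483) (nat_lit 0) .nil) .nil))) 
(.lf (nat_lit 467581) (.g (nat_lit 2518) (.e (nat_lit 3253) (nat_lit 197) (.e (nat_lit 532504) (nat_lit 1) (.e (nat_lit 57854) (nat_lit 252) (.e (nat_lit 57409) (nat_lit 12) (.e (nat_lit 336456) (nat_lit 34) (.e (nat_lit 483387) (nat_lit 23) (.e (nat_lit 336282) (nat_lit 15) .nil))))))) (.g (nat_lit 1) (.e (nat_lit 78057) (nat_lit 0) .nil) .nil)))) (.nd (nat_lit 9) 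
(.lf (nat_lit 467325) (.g (nat_lit 2185) (.e (nat_lit 3253) (nat_lit 197) (.e (nat_lit 532503) (nat_lit 1) (.e (nat_lit 57848) (nat_lit 252) (.e (nat_lit 57407) (nat_lit 12) (.e (nat_lit 336367) (nat_lit 27) (.e (nat_lit 426555) (nat_lit 32) (.e (nat_lit 384768) (nat_lit 0) .nil))))))) (.g (nat_lit 1) (.e (nat_lit 77786) (nat_lit 0) .nil) .nil))) 
(.lf (nat_lit 467837) (.g (nat_lit 908) (.e (nat_lit 3254) (nat_lit 197) (.e (nat_lit 532511) (nat_lit 2) (.e (nat_lit 106536) (nat_lit 11) (.e (nat_lit 16413) (nat_lit 2) (.e (nat_lit 196672) (nat_lit 15) .nil))))) (.g (nat_lit 0) (.e (nat_lit 78502) (nat_lit 0) .nil) .nil))))) (.nd (nat_lit 8) (.nd (nat_lit 9) 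
(.lf (nat_lit 467197) (.g (nat_lit 3034) (.e (nat_lit 3253) (nat_lit 197) (.e (nat_lit 532501) (nat_lit 1) (.e (nat_lit 57928) (nat_lit 282) (.e (nat_lit 163868) (nat_lit 2) (.e (nat_lit 196668) (nat_lit 14) (.e (nat_lit 73746) (nat_lit 3) (.e (nat_lit 516129) (nat_lit 3) (.e (nat_lit 221203) (nat_lit 20) .nil)))))))) (.g (nat_lit 1) (.e (nat_lit 77644) (nat_lit 0) .nil) .nil))) 
(.lf (nat_lit 467709) (.g (nat_lit 2232) (.e (nat_lit 3253) (nat_lit 197) (.e (nat_lit 532513) (nat_lit 3) (.e (nat_lit 114694) (nat_lit 11) (.e (nat_lit 426124) (nat_lit 2) (.e (nat_lit 196674) (nat_lit 15) (.e (nat_lit 81922) (nat_lit 0) .nil)))))) (.g (nat_lit 1) (.e (nat_lit 78197) (nat_lit 0) .nil) .nil)))) (.nd (nat_lit 9) 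
(.lf (nat_lit 467453) (.g (nat_lit 4368) (.e (nat_lit 3253) (nat_lit 197) (.e (nat_lit 532503) (nat_lit 1) (.e (nat_lit 57931) (nat_lit 282) (.e (nat_lit 163869) (nat_lit 2) (.e (nat_lit 196666) (nat_lit 13) (.e (nat_lit 65569) (nat_lit 3) (.e (nat_lit 98342) (nat_lit 20) (.e (nat_lit 221204) (nat_lit 20) .nil)))))))) (.g (nat_lit 1) (.e (nat_lit 77925) (nat_lit 0) .nil) .nil))) 
(.lf (nat_lit 467965) (.g (nat_lit 4758) (.e (nat_lit 3256) (nat_lit 197) (.e (nat_lit 532550) (nat_lit 12) (.e (nat_lit 360474) (nat_lit 8) (.e (nat_lit 557094) (nat_lit 12) (.e (nat_lit 164022) (nat_lit 46) (.e (nat_lit 704738) (nat_lit 11) (.e (nat_lit 16390) (nat_lit 0) .nil))))))) (.g (nat_lit 1) (.e (nat_lit 78745) (nat_lit 0) .nil) .nil))))))))))) 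
(.nd (nat_lit 2) (.nd (nat_lit 3) (.nd (nat_lit 4) (.nd (nat_lit 5) (.nd (nat_lit 6) 
(.nd (nat_lit 7) (.nd (nat_lit 8) (.nd (nat_lit 9) 
(.lf (nat_lit 466947) (.g (nat_lit 2469) (.e (nat_lit 3253) (nat_lit 197) (.e (nat_lit 532499) (nat_lit 1) (.e (nat_lit 57927) (nat_lit 282) (.e (nat_lit 163874) (nat_lit 3) (.e (nat_lit 204862) (nat_lit 27) (.e (nat_lit 344117) (nat_lit 21) (.e (nat_lit 516130) (nat_lit 3) (.e (nat_lit 221203) (nat_lit 20) .nil)))))))) (.g (nat_lit 1) (.e (nat_lit 77345) (nat_lit 0) .nil) .nil))) 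
(.lf (nat_lit 467459) (.g (nat_lit 5066) (.e (nat_lit 3253) (nat_lit 197) (.e (nat_lit 532503) (nat_lit 1) (.e (nat_lit 57931) (nat_lit 282) (.e (nat_lit 163869) (nat_lit 2) (.e (nat_lit 196668) (nat_lit 14) (.e (nat_lit 73747) (nat_lit 3) (.e (nat_lit 516129) (nat_lit 3) (.e (nat_lit 221204) (nat_lit 20) .nil)))))))) (.g (nat_lit 1) (.e (nat_lit 77933) (nat_lit 0) .nil) .nil)))) (.nd (nat_lit 9) 
(.lf (nat_lit 467203) (.g (nat_lit 3264) (.e (nat_lit 3253) (nat_lit 197) (.e (nat_lit 532501) (nat_lit 1) (.e (nat_lit 57928) (nat_lit 282) (.e (nat_lit 163868) (nat_lit 2) (.e (nat_lit 196668) (nat_lit 14) (.e (nat_lit 73747) (nat_lit 3) (.e (nat_lit 516131) (nat_lit 3) (.e (nat_lit 221204) (nat_lit 20) .nil)))))))) (.g (nat_lit 1) (.e (nat_lit 77650) (nat_lit 0) .nil) .nil))) 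
(.lf (nat_lit 467715) (.g (nat_lit 2446) (.e (nat_lit 3253) (nat_lit 197) (.e (nat_lit 532513) (nat_lit 3) (.e (nat_lit 114697) (nat_lit 11) (.e (nat_lit 426137) (nat_lit 3) (.e (nat_lit 204865) (nat_lit 28) (.e (nat_lit 352262) (nat_lit 0) .nil)))))) (.g (nat_lit 1) (.e (nat_lit 78210) (nat_lit 0) .nil) .nil))))) (.nd (nat_lit 8) (.nd (nat_lit 9) 
(.lf (nat_lit 467075) (.g (nat_lit 3529) (.e (nat_lit 3253) (nat_lit 197) (.e (nat_lit 532501) (nat_lit 1) (.e (nat_lit 57926) (nat_lit 282) (.e (nat_lit 163868) (nat_lit 2) (.e (nat_lit 196668) (nat_lit 14) (.e (nat_lit 73746) (nat_lit 3) (.e (nat_lit 516129) (nat_lit 3) (.e (nat_lit 221203) (nat_lit 20) .nil)))))))) (.g (nat_lit 1) (.e (nat_lit 77489) (nat_lit 0) .nil) .nil))) 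
(.lf (nat_lit 467587) (.g (nat_lit 2261) (.e (nat_lit 3253) (nat_lit 197) (.e (nat_lit 532504) (nat_lit 1) (.e (nat_lit 57854) (nat_lit 252) (.e (nat_lit 57445) (nat_lit 19) (.e (nat_lit 401152) (nat_lit 11) (.e (nat_lit 352266) (nat_lit 0) .nil)))))) (.g (nat_lit 1) (.e (nat_lit 78063) (nat_lit 0) .nil) .nil)))) (.nd (nat_lit 9) 
(.lf (nat_lit 467331) (.g (nat_lit 2479) (.e (nat_lit 3253) (nat_lit 197) (.e (nat_lit 532503) (nat_lit 1) (.e (nat_lit 57848) (nat_lit 252) (.e (nat_lit 57407) (nat_lit 12) (.e (nat_lit 336456) (nat_lit 34) (.e (nat_lit 483387) (nat_lit 23) (.e (nat_lit 336291) (nat_lit 15) .nil))))))) (.g (nat_lit 1) (.e (nat_lit 77792) (nat_lit 0) .nil) .nil))) 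
(.lf (nat_lit 467843) (.g (nat_lit 1282) (.e (nat_lit 3254) (nat_lit 197) (.e (nat_lit 532535) (nat_lit 9) (.e (nat_lit 336173) (nat_lit 10) .nil))) (.g (nat_lit 0) (.e (nat_lit 78511) (nat_lit 0) .nil) .nil)))))) (.nd (nat_lit 7) (.nd (nat_lit 8) (.nd (nat_lit 9) 
(.lf (nat_lit 467011) (.g (nat_lit 3207) (.e (nat_lit 3253) (nat_lit 197) (.e (nat_lit 532501) (nat_lit 1) (.e (nat_lit 57851) (nat_lit 252) (.e (nat_lit 57406) (nat_lit 12) (.e (nat_lit 336456) (nat_lit 34) (.e (nat_lit 483393) (nat_lit 23) (.e (nat_lit 336291) (nat_lit 15) .nil))))))) (.g (nat_lit 1) (.e (nat_lit 77418) (nat_lit 0) .nil) .nil))) 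
(.lf (nat_lit 467523) (.g (nat_lit 3329) (.e (nat_lit 3253) (nat_lit 197) (.e (nat_lit 532504) (nat_lit 1) (.e (nat_lit 57852) (nat_lit 252) (.e (nat_lit 57371) (nat_lit 2) (.e (nat_lit 90158) (nat_lit 11) (.e (nat_lit 24608) (nat_lit 3) (.e (nat_lit 98341) (nat_lit 20) (.e (nat_lit 221204) (nat_lit 20) .nil)))))))) (.g (nat_lit 1) (.e (nat_lit 77999) (nat_lit 0) .nil) .nil)))) (.nd (nat_lit 9) 
(.lf (nat_lit 467267) (.g (nat_lit 2768) (.e (nat_lit 3253) (nat_lit 197) (.e (nat_lit 532503) (nat_lit 1) (.e (nat_lit 57844) (nat_lit 252) (.e (nat_lit 57406) (nat_lit 12) (.e (nat_lit 336367) (nat_lit 27) (.e (nat_lit 426542) (nat_lit 29) (.e (nat_lit 352266) (nat_lit 0) .nil))))))) (.g (nat_lit 1) (.e (nat_lit 77728) (nat_lit 0) .nil) .nil))) 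
(.lf (nat_lit 467779) (.g (nat_lit 4604) (.e (nat_lit 3253) (nat_lit 197) (.e (nat_lit 532550) (nat_lit 12) (.e (nat_lit 360474) (nat_lit 8) (.e (nat_lit 557093) (nat_lit 12) (.e (nat_lit 164022) (nat_lit 46) (.e (nat_lit 704737) (nat_lit 11) (.e (nat_lit 16403) (nat_lit 0) .nil))))))) (.g (nat_lit 1) (.e (nat_lit 78368) (nat_lit 0) .nil) .nil))))) (.nd (nat_lit 8) (.nd (nat_lit 9) 
(.lf (nat_lit 467139) (.g (nat_lit 3945) (.e (nat_lit 3253) (nat_lit 197) (.e (nat_lit 532501) (nat_lit 1) (.e (nat_lit 57927) (nat_lit 282) (.e (nat_lit 163868) (nat_lit 2) (.e (nat_lit 196668) (nat_lit 14) (.e (nat_lit 73747) (nat_lit 3) (.e (nat_lit 516129) (nat_lit 3) (.e (nat_lit 221203) (nat_lit 20) .nil)))))))) (.g (nat_lit 1) (.e (nat_lit 77568) (nat_lit 0) .nil) .nil))) 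
(.lf (nat_lit 467651) (.g (nat_lit 2417) (.e (nat_lit 3253) (nat_lit 197) (.e (nat_lit 532504) (nat_lit 1) (.e (nat_lit 57931) (nat_lit 282) (.e (nat_lit 163867) (nat_lit 2) (.e (nat_lit 196663) (nat_lit 13) (.e (nat_lit 65569) (nat_lit 3) (.e (nat_lit 98342) (nat_lit 20) (.e (nat_lit 221204) (nat_lit 20) .nil)))))))) (.g (nat_lit 1) (.e (nat_lit 78135) (nat_lit 0) .nil) .nil)))) (.nd (nat_lit 9) 
(.lf (nat_lit 467395) (.g (nat_lit 2444) (.e (nat_lit 3253) (nat_lit 197) (.e (nat_lit 532503) (nat_lit 1) (.e (nat_lit 57929) (nat_lit 282) (.e (nat_lit 163869) (nat_lit 2) (.e (nat_lit 196670) (nat_lit 14) (.e (nat_lit 73746) (nat_lit 3) (.e (nat_lit 516131) (nat_lit 3) (.e (nat_lit 221203) (nat_lit 20) .nil)))))))) (.g (nat_lit 1) (.e (nat_lit 77861) (nat_lit 0) .nil) .nil))) 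
(.lf (nat_lit 467907) (.g (nat_lit 3336) (.e (nat_lit 3255) (nat_lit 197) (.e (nat_lit 532558) (nat_lit 14) (.e (nat_lit 376868) (nat_lit 23) (.e (nat_lit 98350) (nat_lit 24) (.e (nat_lit 409649) (nat_lit 18) (.e (nat_lit 303111) (nat_lit 0) .nil)))))) (.g (nat_lit 1) (.e (nat_lit 78623) (nat_lit 0) .nil) .nil))))))) (.nd (nat_lit 6) (.nd (nat_lit 7) (.nd (nat_lit 8) (.nd (nat_lit 9) 
(.lf (nat_lit 466979) (.g (nat_lit 4571) (.e (nat_lit 3253) (nat_lit 197) (.e (nat_lit 532499) (nat_lit 1) (.e (nat_lit 57931) (nat_lit 282) (.e (nat_lit 163869) (nat_lit 2) (.e (nat_lit 196668) (nat_lit 14) (.e (nat_lit 73747) (nat_lit 3) (.e (nat_lit 516129) (nat_lit 3) (.e (nat_lit 221204) (nat_lit 20) .nil)))))))) (.g (nat_lit 1) (.e (nat_lit 77385) (nat_lit 0) .nil) .nil))) 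
(.lf (nat_lit 467491) (.g (nat_lit 3089) (.e (nat_lit 3253) (nat_lit 197) (.e (nat_lit 532504) (nat_lit 1) (.e (nat_lit 57851) (nat_lit 252) (.e (nat_lit 57355) (nat_lit 0) (.e (nat_lit 1858) (nat_lit 124) (.e (nat_lit 557105) (nat_lit 14) (.e (nat_lit 180252) (nat_lit 10) (.e (nat_lit 573481) (nat_lit 13) (.e (nat_lit 65637) (nat_lit 15) .nil))))))))) (.g (nat_lit 1) (.e (nat_lit 77967) (nat_lit 0) .nil) .nil)))) 
(.nd (nat_lit 9) 
(.lf (nat_lit 467235) (.g (nat_lit 3429) (.e (nat_lit 3253) (nat_lit 197) (.e (nat_lit 532501) (nat_lit 1) (.e (nat_lit 57931) (nat_lit 282) (.e (nat_lit 163867) (nat_lit 2) (.e (nat_lit 196668) (nat_lit 14) (.e (nat_lit 73747) (nat_lit 3) (.e (nat_lit 516129) (nat_lit 3) (.e (nat_lit 221204) (nat_lit 20) .nil)))))))) (.g (nat_lit 1) (.e (nat_lit 77692) (nat_lit 0) .nil) .nil))) 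
(.lf (nat_lit 467747) (.g (nat_lit 3203) (.e (nat_lit 3253) (nat_lit 197) (.e (nat_lit 532523) (nat_lit 7) (.e (nat_lit 319533) (nat_lit 16) (.e (nat_lit 286734) (nat_lit 3) (.e (nat_lit 98382) (nat_lit 31) (.e (nat_lit 466967) (nat_lit 20) .nil)))))) (.g (nat_lit 1) (.e (nat_lit 78291) (nat_lit 0) .nil) .nil))))) (.nd (nat_lit 8) (.nd (nat_lit 9) 
(.lf (nat_lit 467107) (.g (nat_lit 3085) (.e (nat_lit 3253) (nat_lit 197) (.e (nat_lit 532501) (nat_lit 1) (.e (nat_lit 57926) (nat_lit 282) (.e (nat_lit 163874) (nat_lit 3) (.e (nat_lit 204851) (nat_lit 26) (.e (nat_lit 336019) (nat_lit 3) (.e (nat_lit 98342) (nat_lit 20) (.e (nat_lit 221204) (nat_lit 20) .nil)))))))) (.g (nat_lit 1) (.e (nat_lit 77530) (nat_lit 0) .nil) .nil))) 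
(.lf (nat_lit 467619) (.g (nat_lit 1938) (.e (nat_lit 3253) (nat_lit 197) (.e (nat_lit 532504) (nat_lit 1) (.e (nat_lit 57929) (nat_lit 282) (.e (nat_lit 163869) (nat_lit 2) (.e (nat_lit 196664) (nat_lit 13) (.e (nat_lit 65571) (nat_lit 3) (.e (nat_lit 98342) (nat_lit 20) (.e (nat_lit 221204) (nat_lit 20) .nil)))))))) (.g (nat_lit 1) (.e (nat_lit 78099) (nat_lit 0) .nil) .nil)))) (.nd (nat_lit 9) 
(.lf (nat_lit 467363) (.g (nat_lit 4278) (.e (nat_lit 3253) (nat_lit 197) (.e (nat_lit 532503) (nat_lit 1) (.e (nat_lit 57924) (nat_lit 282) (.e (nat_lit 163867) (nat_lit 2) (.e (nat_lit 196668) (nat_lit 14) (.e (nat_lit 73747) (nat_lit 3) (.e (nat_lit 516129) (nat_lit 3) (.e (nat_lit 221204) (nat_lit 20) .nil)))))))) (.g (nat_lit 1) (.e (nat_lit 77824) (nat_lit 0) .nil) .nil))) 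
(.lf (nat_lit 467875) (.g (nat_lit 3105) (.e (nat_lit 3255) (nat_lit 197) (.e (nat_lit 532535) (nat_lit 9) (.e (nat_lit 336099) (nat_lit 9) (.e (nat_lit 335924) (nat_lit 0) .nil)))) (.g (nat_lit 0) (.e (nat_lit 78591) (nat_lit 0) .nil) .nil)))))) (.nd (nat_lit 7) (.nd (nat_lit 8) (.nd (nat_lit 9) 
(.lf (nat_lit 467043) (.g (nat_lit 1791) (.e (nat_lit 3253) (nat_lit 197) (.e (nat_lit 532501) (nat_lit 1) (.e (nat_lit 57854) (nat_lit 252) (.e (nat_lit 57445) (nat_lit 19) (.e (nat_lit 393227) (nat_lit 9) (.e (nat_lit 336151) (nat_lit 9) (.e (nat_lit 336300) (nat_lit 15) .nil))))))) (.g (nat_lit 1) (.e (nat_lit 77450) (nat_lit 0) .nil) .nil))) 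
(.lf (nat_lit 467555) (.g (nat_lit 2344) (.e (nat_lit 3253) (nat_lit 197) (.e (nat_lit 532504) (nat_lit 1) (.e (nat_lit 57852) (nat_lit 252) (.e (nat_lit 57446) (nat_lit 19) (.e (nat_lit 401152) (nat_lit 11) (.e (nat_lit 352266) (nat_lit 0) .nil)))))) (.g (nat_lit 1) (.e (nat_lit 78031) (nat_lit 0) .nil) .nil)))) (.nd (nat_lit 9) 
(.lf (nat_lit 467299) (.g (nat_lit 2280) (.e (nat_lit 3253) (nat_lit 197) (.e (nat_lit 532503) (nat_lit 1) (.e (nat_lit 57847) (nat_lit 252) (.e (nat_lit 57411) (nat_lit 12) (.e (nat_lit 336367) (nat_lit 27) (.e (nat_lit 426542) (nat_lit 29) (.e (nat_lit 360192) (nat_lit 0) .nil))))))) (.g (nat_lit 1) (.e (nat_lit 77760) (nat_lit 0) .nil) .nil))) 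
(.lf (nat_lit 467811) (.g (nat_lit 3951) (.e (nat_lit 3253) (nat_lit 197) (.e (nat_lit 532563) (nat_lit 15) (.e (nat_lit 385066) (nat_lit 26) (.e (nat_lit 532534) (nat_lit 9) (.e (nat_lit 336316) (nat_lit 17) (.e (nat_lit 196666) (nat_lit 13) (.e (nat_lit 65642) (nat_lit 15) .nil))))))) (.g (nat_lit 1) (.e (nat_lit 78465) (nat_lit 0) .nil) .nil))))) (.nd (nat_lit 8) (.nd (nat_lit 9) 
(.lf (nat_lit 467171) (.g (nat_lit 2720) (.e (nat_lit 3253) (nat_lit 197) (.e (nat_lit 532501) (nat_lit 1) (.e (nat_lit 57927) (nat_lit 282) (.e (nat_lit 163871) (nat_lit 2) (.e (nat_lit 196670) (nat_lit 14) (.e (nat_lit 73746) (nat_lit 3) (.e (nat_lit 516131) (nat_lit 3) (.e (nat_lit 221204) (nat_lit 20) .nil)))))))) (.g (nat_lit 1) (.e (nat_lit 77614) (nat_lit 0) .nil) .nil))) 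
(.lf (nat_lit 467683) (.g (nat_lit 4258) (.e (nat_lit 3253) (nat_lit 197) (.e (nat_lit 532504) (nat_lit 1) (.e (nat_lit 57931) (nat_lit 282) (.e (nat_lit 163869) (nat_lit 2) (.e (nat_lit 196670) (nat_lit 14) (.e (nat_lit 73746) (nat_lit 3) (.e (nat_lit 516131) (nat_lit 3) (.e (nat_lit 221204) (nat_lit 20) .nil)))))))) (.g (nat_lit 1) (.e (nat_lit 78169) (nat_lit 0) .nil) .nil)))) (.nd (nat_lit 9) 
(.lf (nat_lit 467427) (.g (nat_lit 2125) (.e (nat_lit 3253) (nat_lit 197) (.e (nat_lit 532503) (nat_lit 1) (.e (nat_lit 57931) (nat_lit 282) (.e (nat_lit 163866) (nat_lit 2) (.e (nat_lit 196664) (nat_lit 13) (.e (nat_lit 65571) (nat_lit 3) (.e (nat_lit 98342) (nat_lit 20) (.e (nat_lit 221204) (nat_lit 20) .nil)))))))) (.g (nat_lit 1) (.e (nat_lit 77894) (nat_lit 0) .nil) .nil))) 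
(.lf (nat_lit 467939) (.g (nat_lit 3569) (.e (nat_lit 3256) (nat_lit 197) (.e (nat_lit 532503) (nat_lit 1) (.e (nat_lit 57931) (nat_lit 282) (.e (nat_lit 163869) (nat_lit 2) (.e (nat_lit 196670) (nat_lit 14) (.e (nat_lit 73746) (nat_lit 3) (.e (nat_lit 516131) (nat_lit 3) (.e (nat_lit 221197) (nat_lit 20) .nil)))))))) (.g (nat_lit 1) (.e (nat_lit 78658) (nat_lit 0) .nil) .nil)))))))) 
(.nd (nat_lit 5) (.nd (nat_lit 6) (.nd (nat_lit 7) (.nd (nat_lit 8) (.nd (nat_lit 9) 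
(.lf (nat_lit 466963) (.g (nat_lit 3126) (.e (nat_lit 3253) (nat_lit 197) (.e (nat_lit 532499) (nat_lit 1) (.e (nat_lit 57928) (nat_lit 282) (.e (nat_lit 163875) (nat_lit 3) (.e (nat_lit 204862) (nat_lit 27) (.e (nat_lit 344117) (nat_lit 21) (.e (nat_lit 516130) (nat_lit 3) (.e (nat_lit 221204) (nat_lit 20) .nil)))))))) (.g (nat_lit 1) (.e (nat_lit 77368) (nat_lit 0) .nil) .nil))) 
(.lf (nat_lit 467475) (.g (nat_lit 3405) (.e (nat_lit 3253) (nat_lit 197) (.e (nat_lit 532503) (nat_lit 1) (.e (nat_lit 57931) (nat_lit 282) (.e (nat_lit 163874) (nat_lit 3) (.e (nat_lit 204853) (nat_lit 26) (.e (nat_lit 336019) (nat_lit 3) (.e (nat_lit 98342) (nat_lit 20) (.e (nat_lit 221204) (nat_lit 20) .nil)))))))) (.g (nat_lit 1) (.e (nat_lit 77951) (nat_lit 0) .nil) .nil)))) 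
(.nd (nat_lit 9) 
(.lf (nat_lit 467219) (.g (nat_lit 2026) (.e (nat_lit 3253) (nat_lit 197) (.e (nat_lit 532501) (nat_lit 1) (.e (nat_lit 57929) (nat_lit 282) (.e (nat_lit 163869) (nat_lit 2) (.e (nat_lit 196668) (nat_lit 14) (.e (nat_lit 73747) (nat_lit 3) (.e (nat_lit 516131) (nat_lit 3) (.e (nat_lit 221203) (nat_lit 20) .nil)))))))) (.g (nat_lit 1) (.e (nat_lit 77676) (nat_lit 0) .nil) .nil))) 
(.lf (nat_lit 467731) (.g (nat_lit 2442) (.e (nat_lit 3253) (nat_lit 197) (.e (nat_lit 532515) (nat_lit 3) (.e (nat_lit 114719) (nat_lit 23) (.e (nat_lit 98384) (nat_lit 32) (.e (nat_lit 475177) (nat_lit 24) (.e (nat_lit 516120) (nat_lit 1) (.e (nat_lit 164330) (nat_lit 230) (.e (nat_lit 163857) (nat_lit 0) .nil)))))))) (.g (nat_lit 1) (.e (nat_lit 78271) (nat_lit 0) .nil) .nil))))) 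
(.nd (nat_lit 8) (.nd (nat_lit 9) 
(.lf (nat_lit 467091) (.g (nat_lit 3316) (.e (nat_lit 3253) (nat_lit 197) (.e (nat_lit 532501) (nat_lit 1) (.e (nat_lit 57926) (nat_lit 282) (.e (nat_lit 163869) (nat_lit 2) (.e (nat_lit 196668) (nat_lit 14) (.e (nat_lit 73746) (nat_lit 3) (.e (nat_lit 516129) (nat_lit 3) (.e (nat_lit 221204) (nat_lit 20) .nil)))))))) (.g (nat_lit 1) (.e (nat_lit 77506) (nat_lit 0) .nil) .nil))) 
(.lf (nat_lit 467603) (.g (nat_lit 4494) (.e (nat_lit 3253) (nat_lit 197) (.e (nat_lit 532504) (nat_lit 1) (.e (nat_lit 57924) (nat_lit 282) (.e (nat_lit 163867) (nat_lit 2) (.e (nat_lit 196670) (nat_lit 14) (.e (nat_lit 73746) (nat_lit 3) (.e (nat_lit 516129) (nat_lit 3) (.e (nat_lit 221204) (nat_lit 20) .nil)))))))) (.g (nat_lit 1) (.e (nat_lit 78079) (nat_lit 0) .nil) .nil)))) (.nd (nat_lit 9) 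
(.lf (nat_lit 467347) (.g (nat_lit 2549) (.e (nat_lit 3253) (nat_lit 197) (.e (nat_lit 532503) (nat_lit 1) (.e (nat_lit 57849) (nat_lit 252) (.e (nat_lit 57379) (nat_lit 3) (.e (nat_lit 98341) (nat_lit 20) (.e (nat_lit 221212) (nat_lit 22) (.e (nat_lit 196665) (nat_lit 13) (.e (nat_lit 65637) (nat_lit 15) .nil)))))))) (.g (nat_lit 1) (.e (nat_lit 77808) (nat_lit 0) .nil) .nil))) 
(.lf (nat_lit 467859) (.g (nat_lit 3423) (.e (nat_lit 3254) (nat_lit 197) (.e (nat_lit 532560) (nat_lit 14) (.e (nat_lit 376869) (nat_lit 23) (.e (nat_lit 98350) (nat_lit 24) (.e (nat_lit 409648) (nat_lit 18) (.e (nat_lit 303108) (nat_lit 0) .nil)))))) (.g (nat_lit 1) (.e (nat_lit 78529) (nat_lit 0) .nil) .nil)))))) (.nd (nat_lit 7) (.nd (nat_lit 8) (.nd (nat_lit 9) 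
(.lf (nat_lit 467027) (.g (nat_lit 1659) (.e (nat_lit 3253) (nat_lit 197) (.e (nat_lit 532501) (nat_lit 1) (.e (nat_lit 57852) (nat_lit 252) (.e (nat_lit 57446) (nat_lit 19) .nil)))) (.g (nat_lit 0) (.e (nat_lit 77434) (nat_lit 0) .nil) .nil))) 
(.lf (nat_lit 467539) (.g (nat_lit 3733) (.e (nat_lit 3253) (nat_lit 197) (.e (nat_lit 532504) (nat_lit 1) (.e (nat_lit 57852) (nat_lit 252) (.e (nat_lit 57406) (nat_lit 12) (.e (nat_lit 336367) (nat_lit 27) (.e (nat_lit 426542) (nat_lit 29) (.e (nat_lit 360192) (nat_lit 0) .nil))))))) (.g (nat_lit 1) (.e (nat_lit 78015) (nat_lit 0) .nil) .nil)))) (.nd (nat_lit 9) 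
(.lf (nat_lit 467283) (.g (nat_lit 373) (.e (nat_lit 3253) (nat_lit 197) (.e (nat_lit 532503) (nat_lit 1) (.e (nat_lit 57847) (nat_lit 252) .nil))) (.g (nat_lit 0) (.e (nat_lit 77744) (nat_lit 0) .nil) .nil))) 
(.lf (nat_lit 467795) (.g (nat_lit 4457) (.e (nat_lit 3253) (nat_lit 197) (.e (nat_lit 532550) (nat_lit 12) (.e (nat_lit 360475) (nat_lit 8) (.e (nat_lit 557089) (nat_lit 12) .nil)))) (.g (nat_lit 0) (.e (nat_lit 78384) (nat_lit 0) .nil) .nil))))) (.nd (nat_lit 8) (.nd (nat_lit 9) 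
(.lf (nat_lit 467155) (.g (nat_lit 3964) (.e (nat_lit 3253) (nat_lit 197) (.e (nat_lit 532501) (nat_lit 1) (.e (nat_lit 57927) (nat_lit 282) (.e (nat_lit 163869) (nat_lit 2) (.e (nat_lit 196668) (nat_lit 14) (.e (nat_lit 73747) (nat_lit 3) (.e (nat_lit 516129) (nat_lit 3) (.e (nat_lit 221203) (nat_lit 20) .nil)))))))) (.g (nat_lit 1) (.e (nat_lit 77588) (nat_lit 0) .nil) .nil))) 
(.lf (nat_lit 467667) (.g (nat_lit 3546) (.e (nat_lit 3253) (nat_lit 197) (.e (nat_lit 532504) (nat_lit 1) (.e (nat_lit 57931) (nat_lit 282) (.e (nat_lit 163869) (nat_lit 2) (.e (nat_lit 196664) (nat_lit 13) (.e (nat_lit 65571) (nat_lit 3) (.e (nat_lit 98341) (nat_lit 20) (.e (nat_lit 221204) (nat_lit 20) .nil)))))))) (.g (nat_lit 1) (.e (nat_lit 78151) (nat_lit 0) .nil) .nil)))) (.nd (nat_lit 9) 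
(.lf (nat_lit 467411) (.g (nat_lit 3041) (.e (nat_lit 3253) (nat_lit 197) (.e (nat_lit 532503) (nat_lit 1) (.e (nat_lit 57930) (nat_lit 282) (.e (nat_lit 163867) (nat_lit 2) (.e (nat_lit 196668) (nat_lit 14) (.e (nat_lit 73747) (nat_lit 3) (.e (nat_lit 516131) (nat_lit 3) (.e (nat_lit 221204) (nat_lit 20) .nil)))))))) (.g (nat_lit 1) (.e (nat_lit 77878) (nat_lit 0) .nil) .nil))) 
(.lf (nat_lit 467923) (.g (nat_lit 2587) (.e (nat_lit 3256) (nat_lit 197) (.e (nat_lit 532501) (nat_lit 1) (.e (nat_lit 57851) (nat_lit 252) (.e (nat_lit 57406) (nat_lit 12) (.e (nat_lit 336456) (nat_lit 34) .nil))))) (.g (nat_lit 0) (.e (nat_lit 78641) (nat_lit 0) .nil) .nil))))))) (.nd (nat_lit 6) (.nd (nat_lit 7) (.nd (nat_lit 8) (.nd (nat_lit 9) 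
(.lf (nat_lit 466995) (.g (nat_lit 2139) (.e (nat_lit 3253) (nat_lit 197) (.e (nat_lit 532501) (nat_lit 1) (.e (nat_lit 57851) (nat_lit 252) (.e (nat_lit 57354) (nat_lit 0) (.e (nat_lit 1798) (nat_lit 119) .nil))))) (.g (nat_lit 0) (.e (nat_lit 77402) (nat_lit 0) .nil) .nil))) 
(.lf (nat_lit 467507) (.g (nat_lit 1857) (.e (nat_lit 3253) (nat_lit 197) (.e (nat_lit 532504) (nat_lit 1) (.e (nat_lit 57851) (nat_lit 252) (.e (nat_lit 57446) (nat_lit 19) (.e (nat_lit 401152) (nat_lit 11) (.e (nat_lit 360192) (nat_lit 0) .nil)))))) (.g (nat_lit 1) (.e (nat_lit 77983) (nat_lit 0) .nil) .nil)))) (.nd (nat_lit 9) 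
(.lf (nat_lit 467251) (.g (nat_lit 4868) (.e (nat_lit 3253) (nat_lit 197) (.e (nat_lit 532501) (nat_lit 1) (.e (nat_lit 57931) (nat_lit 282) (.e (nat_lit 163869) (nat_lit 2) (.e (nat_lit 196668) (nat_lit 14) (.e (nat_lit 73747) (nat_lit 3) (.e (nat_lit 516129) (nat_lit 3) (.e (nat_lit 221204) (nat_lit 20) .nil)))))))) (.g (nat_lit 1) (.e (nat_lit 77709) (nat_lit 0) .nil) .nil))) 
(.lf (nat_lit 467763) (.g (nat_lit 2968) (.e (nat_lit 3253) (nat_lit 197) (.e (nat_lit 532533) (nat_lit 9) (.e (nat_lit 336019) (nat_lit 3) (.e (nat_lit 98342) (nat_lit 20) (.e (nat_lit 221198) (nat_lit 20) (.e (nat_lit 3266) (nat_lit 199) (.e (nat_lit 548889) (nat_lit 9) (.e (nat_lit 65642) (nat_lit 15) .nil)))))))) (.g (nat_lit 1) (.e (nat_lit 78331) (nat_lit 0) .nil) .nil))))) 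
(.nd (nat_lit 8) (.nd (nat_lit 9) 
(.lf (nat_lit 467123) (.g (nat_lit 2303) (.e (nat_lit 3253) (nat_lit 197) (.e (nat_lit 532501) (nat_lit 1) (.e (nat_lit 57927) (nat_lit 282) (.e (nat_lit 163866) (nat_lit 2) (.e (nat_lit 196668) (nat_lit 14) (.e (nat_lit 73747) (nat_lit 3) (.e (nat_lit 516131) (nat_lit 3) (.e (nat_lit 221204) (nat_lit 20) .nil)))))))) (.g (nat_lit 1) (.e (nat_lit 77552) (nat_lit 0) .nil) .nil))) 
(.lf (nat_lit 467635) (.g (nat_lit 2426) (.e (nat_lit 3253) (nat_lit 197) (.e (nat_lit 532504) (nat_lit 1) (.e (nat_lit 57929) (nat_lit 282) (.e (nat_lit 163873) (nat_lit 3) (.e (nat_lit 204853) (nat_lit 26) (.e (nat_lit 336019) (nat_lit 3) (.e (nat_lit 98341) (nat_lit 20) (.e (nat_lit 221204) (nat_lit 20) .nil)))))))) (.g (nat_lit 1) (.e (nat_lit 78115) (nat_lit 0) .nil) .nil)))) 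
(.nd (nat_lit 9) 
(.lf (nat_lit 467379) (.g (nat_lit 4484) (.e (nat_lit 3253) (nat_lit 197) (.e (nat_lit 532503) (nat_lit 1) (.e (nat_lit 57924) (nat_lit 282) (.e (nat_lit 163875) (nat_lit 3) (.e (nat_lit 204862) (nat_lit 27) (.e (nat_lit 344117) (nat_lit 21) (.e (nat_lit 516130) (nat_lit 3) (.e (nat_lit 221204) (nat_lit 20) .nil)))))))) (.g (nat_lit 1) (.e (nat_lit 77845) (nat_lit 0) .nil) .nil))) 
(.lf (nat_lit 467891) (.g (nat_lit 1282) (.e (nat_lit 3255) (nat_lit 197) (.e (nat_lit 532535) (nat_lit 9) (.e (nat_lit 336173) (nat_lit 10) .nil))) (.g (nat_lit 0) (.e (nat_lit 78607) (nat_lit 0) .nil) .nil)))))) (.nd (nat_lit 7) (.nd (nat_lit 8) (.nd (nat_lit 9) 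
(.lf (nat_lit 467059) (.g (nat_lit 3693) (.e (nat_lit 3253) (nat_lit 197) (.e (nat_lit 532501) (nat_lit 1) (.e (nat_lit 57924) (nat_lit 282) (.e (nat_lit 163867) (nat_lit 2) (.e (nat_lit 196670) (nat_lit 14) (.e (nat_lit 73746) (nat_lit 3) (.e (nat_lit 516129) (nat_lit 3) (.e (nat_lit 221203) (nat_lit 20) .nil)))))))) (.g (nat_lit 1) (.e (nat_lit 77466) (nat_lit 0) .nil) .nil))) 
(.lf (nat_lit 467571) (.g (nat_lit 2084) (.e (nat_lit 3253) (nat_lit 197) (.e (nat_lit 532504) (nat_lit 1) (.e (nat_lit 57854) (nat_lit 252) (.e (nat_lit 57406) (nat_lit 12) (.e (nat_lit 336456) (nat_lit 34) (.e (nat_lit 483379) (nat_lit 23) (.e (nat_lit 336270) (nat_lit 15) .nil))))))) (.g (nat_lit 1) (.e (nat_lit 78047) (nat_lit 0) .nil) .nil)))) (.nd (nat_lit 9) 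
(.lf (nat_lit 467315) (.g (nat_lit 1497) (.e (nat_lit 3253) (nat_lit 197) (.e (nat_lit 532503) (nat_lit 1) (.e (nat_lit 57847) (nat_lit 252) (.e (nat_lit 57447) (nat_lit 19) (.e (nat_lit 401152) (nat_lit 11) (.e (nat_lit 360192) (nat_lit 0) .nil)))))) (.g (nat_lit 1) (.e (nat_lit 77776) (nat_lit 0) .nil) .nil))) 
(.lf (nat_lit 467827) (.g (nat_lit 2287) (.e (nat_lit 3254) (nat_lit 197) (.e (nat_lit 532503) (nat_lit 1) (.e (nat_lit 57849) (nat_lit 252) (.e (nat_lit 57407) (nat_lit 12) (.e (nat_lit 336454) (nat_lit 34) (.e (nat_lit 483385) (nat_lit 23) (.e (nat_lit 336260) (nat_lit 15) .nil))))))) (.g (nat_lit 1) (.e (nat_lit 78488) (nat_lit 0) .nil) .nil))))) (.nd (nat_lit 8) (.nd (nat_lit 9) 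
(.lf (nat_lit 467187) (.g (nat_lit 2407) (.e (nat_lit 3253) (nat_lit 197) (.e (nat_lit 532501) (nat_lit 1) (.e (nat_lit 57927) (nat_lit 282) (.e (nat_lit 163875) (nat_lit 3) (.e (nat_lit 204851) (nat_lit 26) (.e (nat_lit 336019) (nat_lit 3) (.e (nat_lit 98342) (nat_lit 20) (.e (nat_lit 221204) (nat_lit 20) .nil)))))))) (.g (nat_lit 1) (.e (nat_lit 77631) (nat_lit 0) .nil) .nil))) 
(.lf (nat_lit 467699) (.g (nat_lit 1819) (.e (nat_lit 3253) (nat_lit 197) (.e (nat_lit 532510) (nat_lit 2) (.e (nat_lit 106534) (nat_lit 11) (.e (nat_lit 16413) (nat_lit 2) (.e (nat_lit 196674) (nat_lit 15) (.e (nat_lit 89856) (nat_lit 0) .nil)))))) (.g (nat_lit 1) (.e (nat_lit 78187) (nat_lit 0) .nil) .nil)))) (.nd (nat_lit 9) 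
(.lf (nat_lit 467443) (.g (nat_lit 4525) (.e (nat_lit 3253) (nat_lit 197) (.e (nat_lit 532503) (nat_lit 1) (.e (nat_lit 57931) (nat_lit 282) (.e (nat_lit 163867) (nat_lit 2) (.e (nat_lit 196668) (nat_lit 14) (.e (nat_lit 73747) (nat_lit 3) (.e (nat_lit 516129) (nat_lit 3) (.e (nat_lit 221204) (nat_lit 20) .nil)))))))) (.g (nat_lit 1) (.e (nat_lit 77913) (nat_lit 0) .nil) .nil))) 
(.lf (nat_lit 467955) (.g (nat_lit 3780) (.e (nat_lit 3256) (nat_lit 197) (.e (nat_lit 532550) (nat_lit 12) (.e (nat_lit 360474) (nat_lit 8) (.e (nat_lit 557070) (nat_lit 9) .nil)))) (.g (nat_lit 0) (.e (nat_lit 78735) (nat_lit 0) .nil) .nil))))))))) (.nd (nat_lit 4) (.nd (nat_lit 5) (.nd (nat_lit 6) (.nd (nat_lit 7) (.nd (nat_lit 8) (.nd (nat_lit 9) 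
(.lf (nat_lit 466955) (.g (nat_lit 2409) (.e (nat_lit 3253) (nat_lit 197) (.e (nat_lit 532499) (nat_lit 1) (.e (nat_lit 57927) (nat_lit 282) (.e (nat_lit 163875) (nat_lit 3) (.e (nat_lit 204859) (nat_lit 26) (.e (nat_lit 336017) (nat_lit 3) (.e (nat_lit 98341) (nat_lit 20) (.e (nat_lit 221204) (nat_lit 20) .nil)))))))) (.g (nat_lit 1) (.e (nat_lit 77357) (nat_lit 0) .nil) .nil))) 
(.lf (nat_lit 467467) (.g (nat_lit 4194) (.e (nat_lit 3253) (nat_lit 197) (.e (nat_lit 532503) (nat_lit 1) (.e (nat_lit 57931) (nat_lit 282) (.e (nat_lit 163869) (nat_lit 2) (.e (nat_lit 196670) (nat_lit 14) (.e (nat_lit 73746) (nat_lit 3) (.e (nat_lit 516131) (nat_lit 3) (.e (nat_lit 221204) (nat_lit 20) .nil)))))))) (.g (nat_lit 1) (.e (nat_lit 77941) (nat_lit 0) .nil) .nil)))) (.nd (nat_lit 9) 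
(.lf (nat_lit 467211) (.g (nat_lit 3703) (.e (nat_lit 3253) (nat_lit 197) (.e (nat_lit 532501) (nat_lit 1) (.e (nat_lit 57928) (nat_lit 282) (.e (nat_lit 163875) (nat_lit 3) (.e (nat_lit 204863) (nat_lit 27) (.e (nat_lit 344117) (nat_lit 21) (.e (nat_lit 516130) (nat_lit 3) (.e (nat_lit 221204) (nat_lit 20) .nil)))))))) (.g (nat_lit 1) (.e (nat_lit 77668) (nat_lit 0) .nil) .nil))) 
(.lf (nat_lit 467723) (.g (nat_lit 1808) (.e (nat_lit 3253) (nat_lit 197) (.e (nat_lit 532515) (nat_lit 3) (.e (nat_lit 114694) (nat_lit 11) (.e (nat_lit 426139) (nat_lit 3) (.e (nat_lit 204876) (nat_lit 31) (.e (nat_lit 376835) (nat_lit 0) .nil)))))) (.g (nat_lit 1) (.e (nat_lit 78229) (nat_lit 0) .nil) .nil))))) (.nd (nat_lit 8) (.nd (nat_lit 9) 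
(.lf (nat_lit 467083) (.g (nat_lit 3927) (.e (nat_lit 3253) (nat_lit 197) (.e (nat_lit 532501) (nat_lit 1) (.e (nat_lit 57926) (nat_lit 282) (.e (nat_lit 163868) (nat_lit 2) (.e (nat_lit 196670) (nat_lit 14) (.e (nat_lit 73746) (nat_lit 3) (.e (nat_lit 516129) (nat_lit 3) (.e (nat_lit 221204) (nat_lit 20) .nil)))))))) (.g (nat_lit 1) (.e (nat_lit 77497) (nat_lit 0) .nil) .nil))) 
(.lf (nat_lit 467595) (.g (nat_lit 3113) (.e (nat_lit 3253) (nat_lit 197) (.e (nat_lit 532504) (nat_lit 1) (.e (nat_lit 57924) (nat_lit 282) (.e (nat_lit 163867) (nat_lit 2) (.e (nat_lit 196663) (nat_lit 13) (.e (nat_lit 65571) (nat_lit 3) (.e (nat_lit 98341) (nat_lit 20) (.e (nat_lit 221204) (nat_lit 20) .nil)))))))) (.g (nat_lit 1) (.e (nat_lit 78071) (nat_lit 0) .nil) .nil)))) (.nd (nat_lit 9) 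
(.lf (nat_lit 467339) (.g (nat_lit 2532) (.e (nat_lit 3253) (nat_lit 197) (.e (nat_lit 532503) (nat_lit 1) (.e (nat_lit 57848) (nat_lit 252) (.e (nat_lit 57446) (nat_lit 19) (.e (nat_lit 393227) (nat_lit 9) (.e (nat_lit 336151) (nat_lit 9) (.e (nat_lit 336300) (nat_lit 15) .nil))))))) (.g (nat_lit 1) (.e (nat_lit 77800) (nat_lit 0) .nil) .nil))) 
(.lf (nat_lit 467851) (.g (nat_lit 4990) (.e (nat_lit 3254) (nat_lit 197) (.e (nat_lit 532550) (nat_lit 12) (.e (nat_lit 360475) (nat_lit 8) (.e (nat_lit 557086) (nat_lit 11) .nil)))) (.g (nat_lit 0) (.e (nat_lit 78521) (nat_lit 0) .nil) .nil)))))) (.nd (nat_lit 7) (.nd (nat_lit 8) (.nd (nat_lit 9) 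
(.lf (nat_lit 467019) (.g (nat_lit 3361) (.e (nat_lit 3253) (nat_lit 197) (.e (nat_lit 532501) (nat_lit 1) (.e (nat_lit 57852) (nat_lit 252) (.e (nat_lit 57376) (nat_lit 3) (.e (nat_lit 98342) (nat_lit 20) (.e (nat_lit 221212) (nat_lit 22) (.e (nat_lit 196665) (nat_lit 13) (.e (nat_lit 65637) (nat_lit 15) .nil)))))))) (.g (nat_lit 1) (.e (nat_lit 77426) (nat_lit 0) .nil) .nil))) 
(.lf (nat_lit 467531) (.g (nat_lit 3416) (.e (nat_lit 3253) (nat_lit 197) (.e (nat_lit 532504) (nat_lit 1) (.e (nat_lit 57852) (nat_lit 252) (.e (nat_lit 57378) (nat_lit 3) (.e (nat_lit 98313) (nat_lit 9) (.e (nat_lit 336027) (nat_lit 3) (.e (nat_lit 98341) (nat_lit 20) (.e (nat_lit 221204) (nat_lit 20) .nil)))))))) (.g (nat_lit 1) (.e (nat_lit 78007) (nat_lit 0) .nil) .nil)))) (.nd (nat_lit 9) 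
(.lf (nat_lit 467275) (.g (nat_lit 2161) (.e (nat_lit 3253) (nat_lit 197) (.e (nat_lit 532503) (nat_lit 1) (.e (nat_lit 57844) (nat_lit 252) (.e (nat_lit 57446) (nat_lit 19) (.e (nat_lit 393227) (nat_lit 9) (.e (nat_lit 336151) (nat_lit 9) (.e (nat_lit 336300) (nat_lit 15) .nil))))))) (.g (nat_lit 1) (.e (nat_lit 77736) (nat_lit 0) .nil) .nil))) 
(.lf (nat_lit 467787) (.g (nat_lit 6088) (.e (nat_lit 3253) (nat_lit 197) (.e (nat_lit 532550) (nat_lit 12) (.e (nat_lit 360474) (nat_lit 8) (.e (nat_lit 557094) (nat_lit 12) (.e (nat_lit 164022) (nat_lit 46) (.e (nat_lit 704738) (nat_lit 11) (.e (nat_lit 16403) (nat_lit 0) .nil))))))) (.g (nat_lit 1) (.e (nat_lit 78376) (nat_lit 0) .nil) .nil))))) (.nd (nat_lit 8) (.nd (nat_lit 9) 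
(.lf (nat_lit 467147) (.g (nat_lit 3191) (.e (nat_lit 3253) (nat_lit 197) (.e (nat_lit 532501) (nat_lit 1) (.e (nat_lit 57927) (nat_lit 282) (.e (nat_lit 163868) (nat_lit 2) (.e (nat_lit 196670) (nat_lit 14) (.e (nat_lit 73746) (nat_lit 3) (.e (nat_lit 516131) (nat_lit 3) (.e (nat_lit 221204) (nat_lit 20) .nil)))))))) (.g (nat_lit 1) (.e (nat_lit 77576) (nat_lit 0) .nil) .nil))) 
(.lf (nat_lit 467659) (.g (nat_lit 4254) (.e (nat_lit 3253) (nat_lit 197) (.e (nat_lit 532504) (nat_lit 1) (.e (nat_lit 57931) (nat_lit 282) (.e (nat_lit 163867) (nat_lit 2) (.e (nat_lit 196668) (nat_lit 14) (.e (nat_lit 73747) (nat_lit 3) (.e (nat_lit 516129) (nat_lit 3) (.e (nat_lit 221204) (nat_lit 20) .nil)))))))) (.g (nat_lit 1) (.e (nat_lit 78143) (nat_lit 0) .nil) .nil)))) (.nd (nat_lit 9) 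
(.lf (nat_lit 467403) (.g (nat_lit 2892) (.e (nat_lit 3253) (nat_lit 197) (.e (nat_lit 532503) (nat_lit 1) (.e (nat_lit 57930) (nat_lit 282) (.e (nat_lit 163867) (nat_lit 2) (.e (nat_lit 196663) (nat_lit 13) (.e (nat_lit 65571) (nat_lit 3) (.e (nat_lit 98341) (nat_lit 20) (.e (nat_lit 221204) (nat_lit 20) .nil)))))))) (.g (nat_lit 1) (.e (nat_lit 77870) (nat_lit 0) .nil) .nil))) 
(.lf (nat_lit 467915) (.g (nat_lit 2438) (.e (nat_lit 3256) (nat_lit 197) (.e (nat_lit 532499) (nat_lit 1) (.e (nat_lit 57927) (nat_lit 282) (.e (nat_lit 163868) (nat_lit 2) (.e (nat_lit 196668) (nat_lit 14) (.e (nat_lit 73746) (nat_lit 3) (.e (nat_lit 516129) (nat_lit 3) (.e (nat_lit 221196) (nat_lit 20) .nil)))))))) (.g (nat_lit 1) (.e (nat_lit 78632) (nat_lit 0) .nil) .nil))))))) 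
(.nd (nat_lit 6) (.nd (nat_lit 7) (.nd (nat_lit 8) (.nd (nat_lit 9) 
(.lf (nat_lit 466987) (.g (nat_lit 2525) (.e (nat_lit 3253) (nat_lit 197) (.e (nat_lit 532499) (nat_lit 1) (.e (nat_lit 57931) (nat_lit 282) (.e (nat_lit 163873) (nat_lit 3) (.e (nat_lit 204853) (nat_lit 26) .nil))))) (.g (nat_lit 0) (.e (nat_lit 77393) (nat_lit 0) .nil) .nil))) 
(.lf (nat_lit 467499) (.g (nat_lit 2855) (.e (nat_lit 3253) (nat_lit 197) (.e (nat_lit 532504) (nat_lit 1) (.e (nat_lit 57851) (nat_lit 252) (.e (nat_lit 57406) (nat_lit 12) (.e (nat_lit 336456) (nat_lit 34) (.e (nat_lit 483379) (nat_lit 23) (.e (nat_lit 336270) (nat_lit 15) .nil))))))) (.g (nat_lit 1) (.e (nat_lit 77975) (nat_lit 0) .nil) .nil)))) (.nd (nat_lit 9) 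
(.lf (nat_lit 467243) (.g (nat_lit 2799) (.e (nat_lit 3253) (nat_lit 197) (.e (nat_lit 532501) (nat_lit 1) (.e (nat_lit 57931) (nat_lit 282) (.e (nat_lit 163869) (nat_lit 2) (.e (nat_lit 196664) (nat_lit 13) (.e (nat_lit 65571) (nat_lit 3) (.e (nat_lit 98342) (nat_lit 20) (.e (nat_lit 221204) (nat_lit 20) .nil)))))))) (.g (nat_lit 1) (.e (nat_lit 77700) (nat_lit 0) .nil) .nil))) 
(.lf (nat_lit 467755) (.g (nat_lit 3116) (.e (nat_lit 3253) (nat_lit 197) (.e (nat_lit 532523) (nat_lit 7) (.e (nat_lit 319534) (nat_lit 16) (.e (nat_lit 286735) (nat_lit 3) (.e (nat_lit 98382) (nat_lit 31) (.e (nat_lit 466967) (nat_lit 20) .nil)))))) (.g (nat_lit 1) (.e (nat_lit 78300) (nat_lit 0) .nil) .nil))))) (.nd (nat_lit 8) (.nd (nat_lit 9) 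
(.lf (nat_lit 467115) (.g (nat_lit 2638) (.e (nat_lit 3253) (nat_lit 197) (.e (nat_lit 532501) (nat_lit 1) (.e (nat_lit 57926) (nat_lit 282) (.e (nat_lit 163875) (nat_lit 3) (.e (nat_lit 204862) (nat_lit 27) (.e (nat_lit 344117) (nat_lit 21) (.e (nat_lit 516130) (nat_lit 3) (.e (nat_lit 221203) (nat_lit 20) .nil)))))))) (.g (nat_lit 1) (.e (nat_lit 77542) (nat_lit 0) .nil) .nil))) 
(.lf (nat_lit 467627) (.g (nat_lit 4269) (.e (nat_lit 3253) (nat_lit 197) (.e (nat_lit 532504) (nat_lit 1) (.e (nat_lit 57929) (nat_lit 282) (.e (nat_lit 163869) (nat_lit 2) (.e (nat_lit 196668) (nat_lit 14) (.e (nat_lit 73747) (nat_lit 3) (.e (nat_lit 516129) (nat_lit 3) (.e (nat_lit 221204) (nat_lit 20) .nil)))))))) (.g (nat_lit 1) (.e (nat_lit 78107) (nat_lit 0) .nil) .nil)))) (.nd (nat_lit 9) 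
(.lf (nat_lit 467371) (.g (nat_lit 3302) (.e (nat_lit 3253) (nat_lit 197) (.e (nat_lit 532503) (nat_lit 1) (.e (nat_lit 57924) (nat_lit 282) (.e (nat_lit 163868) (nat_lit 2) (.e (nat_lit 196668) (nat_lit 14) (.e (nat_lit 73747) (nat_lit 3) (.e (nat_lit 516129) (nat_lit 3) (.e (nat_lit 221204) (nat_lit 20) .nil)))))))) (.g (nat_lit 1) (.e (nat_lit 77832) (nat_lit 0) .nil) .nil))) 
(.lf (nat_lit 467883) (.g (nat_lit 5603) (.e (nat_lit 3255) (nat_lit 197) (.e (nat_lit 532535) (nat_lit 9) (.e (nat_lit 336099) (nat_lit 9) (.e (nat_lit 336013) (nat_lit 2) (.e (nat_lit 90131) (nat_lit 9) .nil))))) (.g (nat_lit 0) (.e (nat_lit 78599) (nat_lit 0) .nil) .nil)))))) (.nd (nat_lit 7) (.nd (nat_lit 8) (.nd (nat_lit 9) 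
(.lf (nat_lit 467051) (.g (nat_lit 2913) (.e (nat_lit 3253) (nat_lit 197) (.e (nat_lit 532501) (nat_lit 1) (.e (nat_lit 57924) (nat_lit 282) (.e (nat_lit 163867) (nat_lit 2) (.e (nat_lit 196663) (nat_lit 13) (.e (nat_lit 65571) (nat_lit 3) (.e (nat_lit 98341) (nat_lit 20) (.e (nat_lit 221204) (nat_lit 20) .nil)))))))) (.g (nat_lit 1) (.e (nat_lit 77458) (nat_lit 0) .nil) .nil))) 
(.lf (nat_lit 467563) (.g (nat_lit 2157) (.e (nat_lit 3253) (nat_lit 197) (.e (nat_lit 532504) (nat_lit 1) (.e (nat_lit 57853) (nat_lit 252) (.e (nat_lit 57446) (nat_lit 19) (.e (nat_lit 401152) (nat_lit 11) (.e (nat_lit 352265) (nat_lit 0) .nil)))))) (.g (nat_lit 1) (.e (nat_lit 78039) (nat_lit 0) .nil) .nil)))) (.nd (nat_lit 9) 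
(.lf (nat_lit 467307) (.g (nat_lit 2138) (.e (nat_lit 3253) (nat_lit 197) (.e (nat_lit 532503) (nat_lit 1) (.e (nat_lit 57847) (nat_lit 252) (.e (nat_lit 57445) (nat_lit 19) (.e (nat_lit 401152) (nat_lit 11) (.e (nat_lit 352265) (nat_lit 0) .nil)))))) (.g (nat_lit 1) (.e (nat_lit 77768) (nat_lit 0) .nil) .nil))) 
(.lf (nat_lit 467819) (.g (nat_lit 2084) (.e (nat_lit 3253) (nat_lit 197) (.e (nat_lit 532569) (nat_lit 16) (.e (nat_lit 401448) (nat_lit 10) (.e (nat_lit 434231) (nat_lit 23) .nil)))) (.g (nat_lit 0) (.e (nat_lit 78474) (nat_lit 0) .nil) .nil))))) (.nd (nat_lit 8) (.nd (nat_lit 9) 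
(.lf (nat_lit 467179) (.g (nat_lit 2501) (.e (nat_lit 3253) (nat_lit 197) (.e (nat_lit 532501) (nat_lit 1) (.e (nat_lit 57927) (nat_lit 282) (.e (nat_lit 163874) (nat_lit 3) (.e (nat_lit 204854) (nat_lit 26) (.e (nat_lit 336019) (nat_lit 3) (.e (nat_lit 98342) (nat_lit 20) (.e (nat_lit 221203) (nat_lit 20) .nil)))))))) (.g (nat_lit 1) (.e (nat_lit 77623) (nat_lit 0) .nil) .nil))) 
(.lf (nat_lit 467691) (.g (nat_lit 2306) (.e (nat_lit 3253) (nat_lit 197) (.e (nat_lit 532504) (nat_lit 1) (.e (nat_lit 57931) (nat_lit 282) (.e (nat_lit 163874) (nat_lit 3) (.e (nat_lit 204859) (nat_lit 26) (.e (nat_lit 336017) (nat_lit 3) (.e (nat_lit 98341) (nat_lit 20) (.e (nat_lit 221204) (nat_lit 20) .nil)))))))) (.g (nat_lit 1) (.e (nat_lit 78179) (nat_lit 0) .nil) .nil)))) 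
(.nd (nat_lit 9) 
(.lf (nat_lit 467435) (.g (nat_lit 2287) (.e (nat_lit 3253) (nat_lit 197) (.e (nat_lit 532503) (nat_lit 1) (.e (nat_lit 57931) (nat_lit 282) (.e (nat_lit 163866) (nat_lit 2) (.e (nat_lit 196670) (nat_lit 14) (.e (nat_lit 73746) (nat_lit 3) (.e (nat_lit 516131) (nat_lit 3) (.e (nat_lit 221204) (nat_lit 20) .nil)))))))) (.g (nat_lit 1) (.e (nat_lit 77905) (nat_lit 0) .nil) .nil))) 
(.lf (nat_lit 467947) (.g (nat_lit 884) (.e (nat_lit 3256) (nat_lit 197) (.e (nat_lit 532530) (nat_lit 9) (.e (nat_lit 336326) (nat_lit 18) .nil))) (.g (nat_lit 0) (.e (nat_lit 78721) (nat_lit 0) .nil) .nil)))))))) (.nd (nat_lit 5) (.nd (nat_lit 6) (.nd (nat_lit 7) (.nd (nat_lit 8) (.nd (nat_lit 9) 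
(.lf (nat_lit 466971) (.g (nat_lit 3119) (.e (nat_lit 3253) (nat_lit 197) (.e (nat_lit 532499) (nat_lit 1) (.e (nat_lit 57931) (nat_lit 282) (.e (nat_lit 163869) (nat_lit 2) (.e (nat_lit 196663) (nat_lit 13) (.e (nat_lit 65571) (nat_lit 3) (.e (nat_lit 98341) (nat_lit 20) (.e (nat_lit 221204) (nat_lit 20) .nil)))))))) (.g (nat_lit 1) (.e (nat_lit 77376) (nat_lit 0) .nil) .nil))) 
(.lf (nat_lit 467483) (.g (nat_lit 3104) (.e (nat_lit 3253) (nat_lit 197) (.e (nat_lit 532503) (nat_lit 1) (.e (nat_lit 57931) (nat_lit 282) (.e (nat_lit 163874) (nat_lit 3) (.e (nat_lit 204872) (nat_lit 30) (.e (nat_lit 368676) (nat_lit 21) (.e (nat_lit 516131) (nat_lit 3) (.e (nat_lit 221204) (nat_lit 20) .nil)))))))) (.g (nat_lit 1) (.e (nat_lit 77959) (nat_lit 0) .nil) .nil)))) 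
(.nd (nat_lit 9) 
(.lf (nat_lit 467227) (.g (nat_lit 2566) (.e (nat_lit 3253) (nat_lit 197) (.e (nat_lit 532501) (nat_lit 1) (.e (nat_lit 57929) (nat_lit 282) (.e (nat_lit 163874) (nat_lit 3) (.e (nat_lit 204851) (nat_lit 26) (.e (nat_lit 336019) (nat_lit 3) (.e (nat_lit 98342) (nat_lit 20) (.e (nat_lit 221204) (nat_lit 20) .nil)))))))) (.g (nat_lit 1) (.e (nat_lit 77684) (nat_lit 0) .nil) .nil))) 
(.lf (nat_lit 467739) (.g (nat_lit 2861) (.e (nat_lit 3253) (nat_lit 197) (.e (nat_lit 532523) (nat_lit 7) (.e (nat_lit 319532) (nat_lit 16) (.e (nat_lit 286734) (nat_lit 3) (.e (nat_lit 98380) (nat_lit 31) (.e (nat_lit 466967) (nat_lit 20) .nil)))))) (.g (nat_lit 1) (.e (nat_lit 78283) (nat_lit 0) .nil) .nil))))) (.nd (nat_lit 8) (.nd (nat_lit 9) 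
(.lf (nat_lit 467099) (.g (nat_lit 1992) (.e (nat_lit 3253) (nat_lit 197) (.e (nat_lit 532501) (nat_lit 1) (.e (nat_lit 57926) (nat_lit 282) (.e (nat_lit 163869) (nat_lit 2) (.e (nat_lit 196670) (nat_lit 14) (.e (nat_lit 73746) (nat_lit 3) (.e (nat_lit 516130) (nat_lit 3) (.e (nat_lit 221204) (nat_lit 20) .nil)))))))) (.g (nat_lit 1) (.e (nat_lit 77514) (nat_lit 0) .nil) .nil))) 
(.lf (nat_lit 467611) (.g (nat_lit 2953) (.e (nat_lit 3253) (nat_lit 197) (.e (nat_lit 532504) (nat_lit 1) (.e (nat_lit 57929) (nat_lit 282) (.e (nat_lit 163867) (nat_lit 2) (.e (nat_lit 196668) (nat_lit 14) (.e (nat_lit 73747) (nat_lit 3) (.e (nat_lit 516129) (nat_lit 3) (.e (nat_lit 221204) (nat_lit 20) .nil)))))))) (.g (nat_lit 1) (.e (nat_lit 78091) (nat_lit 0) .nil) .nil)))) (.nd (nat_lit 9) 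
(.lf (nat_lit 467355) (.g (nat_lit 565) (.e (nat_lit 3253) (nat_lit 197) (.e (nat_lit 532503) (nat_lit 1) (.e (nat_lit 57870) (nat_lit 264) .nil))) (.g (nat_lit 0) (.e (nat_lit 77816) (nat_lit 0) .nil) .nil))) 
(.lf (nat_lit 467867) (.g (nat_lit 2362) (.e (nat_lit 3255) (nat_lit 197) (.e (nat_lit 532504) (nat_lit 1) (.e (nat_lit 57854) (nat_lit 252) (.e (nat_lit 57406) (nat_lit 12) (.e (nat_lit 336454) (nat_lit 34) .nil))))) (.g (nat_lit 0) (.e (nat_lit 78554) (nat_lit 0) .nil) .nil)))))) (.nd (nat_lit 7) (.nd (nat_lit 8) (.nd (nat_lit 9) 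
(.lf (nat_lit 467035) (.g (nat_lit 2020) (.e (nat_lit 3253) (nat_lit 197) (.e (nat_lit 532501) (nat_lit 1) (.e (nat_lit 57854) (nat_lit 252) (.e (nat_lit 57406) (nat_lit 12) (.e (nat_lit 336456) (nat_lit 34) (.e (nat_lit 483391) (nat_lit 23) (.e (nat_lit 336300) (nat_lit 15) .nil))))))) (.g (nat_lit 1) (.e (nat_lit 77442) (nat_lit 0) .nil) .nil))) 
(.lf (nat_lit 467547) (.g (nat_lit 2712) (.e (nat_lit 3253) (nat_lit 197) (.e (nat_lit 532504) (nat_lit 1) (.e (nat_lit 57852) (nat_lit 252) (.e (nat_lit 57406) (nat_lit 12) (.e (nat_lit 336456) (nat_lit 34) (.e (nat_lit 483393) (nat_lit 23) (.e (nat_lit 336275) (nat_lit 15) .nil))))))) (.g (nat_lit 1) (.e (nat_lit 78023) (nat_lit 0) .nil) .nil)))) (.nd (nat_lit 9) 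
(.lf (nat_lit 467291) (.g (nat_lit 1914) (.e (nat_lit 3253) (nat_lit 197) (.e (nat_lit 532503) (nat_lit 1) (.e (nat_lit 57847) (nat_lit 252) (.e (nat_lit 57407) (nat_lit 12) (.e (nat_lit 336367) (nat_lit 27) (.e (nat_lit 426555) (nat_lit 32) (.e (nat_lit 384768) (nat_lit 0) .nil))))))) (.g (nat_lit 1) (.e (nat_lit 77752) (nat_lit 0) .nil) .nil))) 
(.lf (nat_lit 467803) (.g (nat_lit 1241) (.e (nat_lit 3253) (nat_lit 197) (.e (nat_lit 532560) (nat_lit 14) (.e (nat_lit 376842) (nat_lit 11) (.e (nat_lit 426098) (nat_lit 1) .nil)))) (.g (nat_lit 0) (.e (nat_lit 78408) (nat_lit 0) .nil) .nil))))) (.nd (nat_lit 8) (.nd (nat_lit 9) 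
(.lf (nat_lit 467163) (.g (nat_lit 3242) (.e (nat_lit 3253) (nat_lit 197) (.e (nat_lit 532501) (nat_lit 1) (.e (nat_lit 57927) (nat_lit 282) (.e (nat_lit 163869) (nat_lit 2) (.e (nat_lit 196670) (nat_lit 14) (.e (nat_lit 73746) (nat_lit 3) (.e (nat_lit 516131) (nat_lit 3) (.e (nat_lit 221203) (nat_lit 20) .nil)))))))) (.g (nat_lit 1) (.e (nat_lit 77596) (nat_lit 0) .nil) .nil))) 
(.lf (nat_lit 467675) (.g (nat_lit 4080) (.e (nat_lit 3253) (nat_lit 197) (.e (nat_lit 532504) (nat_lit 1) (.e (nat_lit 57931) (nat_lit 282) (.e (nat_lit 163869) (nat_lit 2) (.e (nat_lit 196668) (nat_lit 14) (.e (nat_lit 73747) (nat_lit 3) (.e (nat_lit 516129) (nat_lit 3) (.e (nat_lit 221203) (nat_lit 20) .nil)))))))) (.g (nat_lit 1) (.e (nat_lit 78161) (nat_lit 0) .nil) .nil)))) (.nd (nat_lit 9) 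
(.lf (nat_lit 467419) (.g (nat_lit 3415) (.e (nat_lit 3253) (nat_lit 197) (.e (nat_lit 532503) (nat_lit 1) (.e (nat_lit 57930) (nat_lit 282) (.e (nat_lit 163869) (nat_lit 2) (.e (nat_lit 196670) (nat_lit 14) (.e (nat_lit 73746) (nat_lit 3) (.e (nat_lit 516129) (nat_lit 3) (.e (nat_lit 221203) (nat_lit 20) .nil)))))))) (.g (nat_lit 1) (.e (nat_lit 77886) (nat_lit 0) .nil) .nil))) 
(.lf (nat_lit 467931) (.g (nat_lit 2623) (.e (nat_lit 3256) (nat_lit 197) (.e (nat_lit 532503) (nat_lit 1) (.e (nat_lit 57931) (nat_lit 282) (.e (nat_lit 163869) (nat_lit 2) (.e (nat_lit 196666) (nat_lit 13) (.e (nat_lit 65571) (nat_lit 3) (.e (nat_lit 98341) (nat_lit 20) (.e (nat_lit 221197) (nat_lit 20) .nil)))))))) (.g (nat_lit 1) (.e (nat_lit 78650) (nat_lit 0) .nil) .nil))))))) 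
(.nd (nat_lit 6) (.nd (nat_lit 7) (.nd (nat_lit 8) (.nd (nat_lit 9) 
(.lf (nat_lit 467003) (.g (nat_lit 2177) (.e (nat_lit 3253) (nat_lit 197) (.e (nat_lit 532501) (nat_lit 1) (.e (nat_lit 57851) (nat_lit 252) (.e (nat_lit 57406) (nat_lit 12) (.e (nat_lit 336456) (nat_lit 34) (.e (nat_lit 483378) (nat_lit 23) (.e (nat_lit 336282) (nat_lit 15) .nil))))))) (.g (nat_lit 1) (.e (nat_lit 77410) (nat_lit 0) .nil) .nil))) 
(.lf (nat_lit 467515) (.g (nat_lit 5252) (.e (nat_lit 3253) (nat_lit 197) (.e (nat_lit 532504) (nat_lit 1) (.e (nat_lit 57852) (nat_lit 252) (.e (nat_lit 57355) (nat_lit 0) (.e (nat_lit 1858) (nat_lit 124) (.e (nat_lit 557105) (nat_lit 14) (.e (nat_lit 180252) (nat_lit 10) (.e (nat_lit 573481) (nat_lit 13) (.e (nat_lit 65637) (nat_lit 15) .nil))))))))) (.g (nat_lit 1) (.e (nat_lit 77991) (nat_lit 0) .nil) .nil)))) 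
(.nd (nat_lit 9) 
(.lf (nat_lit 467259) (.g (nat_lit 2396) (.e (nat_lit 3253) (nat_lit 197) (.e (nat_lit 532501) (nat_lit 1) (.e (nat_lit 57931) (nat_lit 282) (.e (nat_lit 163873) (nat_lit 3) (.e (nat_lit 204853) (nat_lit 26) .nil))))) (.g (nat_lit 0) (.e (nat_lit 77718) (nat_lit 0) .nil) .nil))) 
(.lf (nat_lit 467771) (.g (nat_lit 3775) (.e (nat_lit 3253) (nat_lit 197) (.e (nat_lit 532535) (nat_lit 9) (.e (nat_lit 336176) (nat_lit 10) (.e (nat_lit 344132) (nat_lit 26) .nil)))) (.g (nat_lit 0) (.e (nat_lit 78357) (nat_lit 0) .nil) .nil))))) (.nd (nat_lit 8) (.nd (nat_lit 9) 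
(.lf (nat_lit 467131) (.g (nat_lit 4561) (.e (nat_lit 3253) (nat_lit 197) (.e (nat_lit 532501) (nat_lit 1) (.e (nat_lit 57927) (nat_lit 282) (.e (nat_lit 163868) (nat_lit 2) (.e (nat_lit 196663) (nat_lit 13) (.e (nat_lit 65571) (nat_lit 3) (.e (nat_lit 98341) (nat_lit 20) (.e (nat_lit 221204) (nat_lit 20) .nil)))))))) (.g (nat_lit 1) (.e (nat_lit 77560) (nat_lit 0) .nil) .nil))) 
(.lf (nat_lit 467643) (.g (nat_lit 2440) (.e (nat_lit 3253) (nat_lit 197) (.e (nat_lit 532504) (nat_lit 1) (.e (nat_lit 57929) (nat_lit 282) (.e (nat_lit 163874) (nat_lit 3) (.e (nat_lit 204872) (nat_lit 30) (.e (nat_lit 368676) (nat_lit 21) (.e (nat_lit 516131) (nat_lit 3) (.e (nat_lit 221204) (nat_lit 20) .nil)))))))) (.g (nat_lit 1) (.e (nat_lit 78125) (nat_lit 0) .nil) .nil)))) 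
(.nd (nat_lit 9) 
(.lf (nat_lit 467387) (.g (nat_lit 3794) (.e (nat_lit 3253) (nat_lit 197) (.e (nat_lit 532503) (nat_lit 1) (.e (nat_lit 57929) (nat_lit 282) (.e (nat_lit 163869) (nat_lit 2) (.e (nat_lit 196666) (nat_lit 13) (.e (nat_lit 65571) (nat_lit 3) (.e (nat_lit 98341) (nat_lit 20) (.e (nat_lit 221204) (nat_lit 20) .nil)))))))) (.g (nat_lit 1) (.e (nat_lit 77853) (nat_lit 0) .nil) .nil))) 
(.lf (nat_lit 467899) (.g (nat_lit 3711) (.e (nat_lit 3255) (nat_lit 197) (.e (nat_lit 532550) (nat_lit 12) (.e (nat_lit 360468) (nat_lit 3) (.e (nat_lit 516139) (nat_lit 7) .nil)))) (.g (nat_lit 0) (.e (nat_lit 78615) (nat_lit 0) .nil) .nil)))))) (.nd (nat_lit 7) (.nd (nat_lit 8) (.nd (nat_lit 9) 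
(.lf (nat_lit 467067) (.g (nat_lit 3009) (.e (nat_lit 3253) (nat_lit 197) (.e (nat_lit 532501) (nat_lit 1) (.e (nat_lit 57925) (nat_lit 282) (.e (nat_lit 163867) (nat_lit 2) (.e (nat_lit 196670) (nat_lit 14) (.e (nat_lit 73746) (nat_lit 3) (.e (nat_lit 516129) (nat_lit 3) (.e (nat_lit 221204) (nat_lit 20) .nil)))))))) (.g (nat_lit 1) (.e (nat_lit 77476) (nat_lit 0) .nil) .nil))) 
(.lf (nat_lit 467579) (.g (nat_lit 1536) (.e (nat_lit 3253) (nat_lit 197) (.e (nat_lit 532504) (nat_lit 1) (.e (nat_lit 57854) (nat_lit 252) (.e (nat_lit 57409) (nat_lit 12) (.e (nat_lit 336367) (nat_lit 27) (.e (nat_lit 426555) (nat_lit 32) (.e (nat_lit 384768) (nat_lit 0) .nil))))))) (.g (nat_lit 1) (.e (nat_lit 78055) (nat_lit 0) .nil) .nil)))) (.nd (nat_lit 9) 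
(.lf (nat_lit 467323) (.g (nat_lit 3152) (.e (nat_lit 3253) (nat_lit 197) (.e (nat_lit 532503) (nat_lit 1) (.e (nat_lit 57848) (nat_lit 252) (.e (nat_lit 57407) (nat_lit 12) (.e (nat_lit 336367) (nat_lit 27) (.e (nat_lit 426542) (nat_lit 29) (.e (nat_lit 360192) (nat_lit 0) .nil))))))) (.g (nat_lit 1) (.e (nat_lit 77784) (nat_lit 0) .nil) .nil))) 
(.lf (nat_lit 467835) (.g (nat_lit 4015) (.e (nat_lit 3254) (nat_lit 197) (.e (nat_lit 532504) (nat_lit 1) (.e (nat_lit 57852) (nat_lit 252) (.e (nat_lit 57406) (nat_lit 12) (.e (nat_lit 336454) (nat_lit 34) (.e (nat_lit 483385) (nat_lit 23) (.e (nat_lit 336260) (nat_lit 15) .nil))))))) (.g (nat_lit 1) (.e (nat_lit 78498) (nat_lit 0) .nil) .nil))))) (.nd (nat_lit 8) (.nd (nat_lit 9) 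
(.lf (nat_lit 467195) (.g (nat_lit 2140) (.e (nat_lit 3253) (nat_lit 197) (.e (nat_lit 532501) (nat_lit 1) (.e (nat_lit 57928) (nat_lit 282) (.e (nat_lit 163868) (nat_lit 2) (.e (nat_lit 196663) (nat_lit 13) .nil))))) (.g (nat_lit 0) (.e (nat_lit 77642) (nat_lit 0) .nil) .nil))) 
(.lf (nat_lit 467707) (.g (nat_lit 1929) (.e (nat_lit 3253) (nat_lit 197) (.e (nat_lit 532511) (nat_lit 2) (.e (nat_lit 106536) (nat_lit 11) (.e (nat_lit 16413) (nat_lit 2) (.e (nat_lit 196674) (nat_lit 15) (.e (nat_lit 89856) (nat_lit 0) .nil)))))) (.g (nat_lit 1) (.e (nat_lit 78195) (nat_lit 0) .nil) .nil)))) (.nd (nat_lit 9) 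
(.lf (nat_lit 467451) (.g (nat_lit 3415) (.e (nat_lit 3253) (nat_lit 197) (.e (nat_lit 532503) (nat_lit 1) (.e (nat_lit 57931) (nat_lit 282) (.e (nat_lit 163869) (nat_lit 2) (.e (nat_lit 196664) (nat_lit 13) (.e (nat_lit 65571) (nat_lit 3) (.e (nat_lit 98342) (nat_lit 20) (.e (nat_lit 221204) (nat_lit 20) .nil)))))))) (.g (nat_lit 1) (.e (nat_lit 77921) (nat_lit 0) .nil) .nil))) 
(.lf (nat_lit 467963) (.g (nat_lit 4768) (.e (nat_lit 3256) (nat_lit 197) (.e (nat_lit 532550) (nat_lit 12) (.e (nat_lit 360474) (nat_lit 8) (.e (nat_lit 557094) (nat_lit 12) (.e (nat_lit 164022) (nat_lit 46) (.e (nat_lit 704738) (nat_lit 11) (.e (nat_lit 16384) (nat_lit 0) .nil))))))) (.g (nat_lit 1) (.e (nat_lit 78743) (nat_lit 0) .nil) .nil)))))))))) 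
(.nd (nat_lit 3) (.nd (nat_lit 4) (.nd (nat_lit 5) (.nd (nat_lit 6) (.nd (nat_lit 7) 
(.nd (nat_lit 8) (.nd (nat_lit 9) 
(.lf (nat_lit 466951) (.g (nat_lit 3148) (.e (nat_lit 3253) (nat_lit 197) (.e (nat_lit 532499) (nat_lit 1) (.e (nat_lit 57927) (nat_lit 282) (.e (nat_lit 163874) (nat_lit 3) (.e (nat_lit 204864) (nat_lit 27) (.e (nat_lit 344117) (nat_lit 21) (.e (nat_lit 516130) (nat_lit 3) (.e (nat_lit 221204) (nat_lit 20) .nil)))))))) (.g (nat_lit 1) (.e (nat_lit 77349) (nat_lit 0) .nil) .nil))) 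
(.lf (nat_lit 467463) (.g (nat_lit 4787) (.e (nat_lit 3253) (nat_lit 197) (.e (nat_lit 532503) (nat_lit 1) (.e (nat_lit 57931) (nat_lit 282) (.e (nat_lit 163869) (nat_lit 2) (.e (nat_lit 196670) (nat_lit 14) (.e (nat_lit 73746) (nat_lit 3) (.e (nat_lit 516129) (nat_lit 3) (.e (nat_lit 221203) (nat_lit 20) .nil)))))))) (.g (nat_lit 1) (.e (nat_lit 77937) (nat_lit 0) .nil) .nil)))) (.nd (nat_lit 9) 
(.lf (nat_lit 467207) (.g (nat_lit 3856) (.e (nat_lit 3253) (nat_lit 197) (.e (nat_lit 532501) (nat_lit 1) (.e (nat_lit 57928) (nat_lit 282) (.e (nat_lit 163871) (nat_lit 2) (.e (nat_lit 196670) (nat_lit 14) (.e (nat_lit 73746) (nat_lit 3) (.e (nat_lit 516129) (nat_lit 3) (.e (nat_lit 221204) (nat_lit 20) .nil)))))))) (.g (nat_lit 1) (.e (nat_lit 77664) (nat_lit 0) .nil) .nil))) 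
(.lf (nat_lit 467719) (.g (nat_lit 2658) (.e (nat_lit 3253) (nat_lit 197) (.e (nat_lit 532513) (nat_lit 3) (.e (nat_lit 114698) (nat_lit 11) (.e (nat_lit 426133) (nat_lit 3) (.e (nat_lit 204877) (nat_lit 31) .nil))))) (.g (nat_lit 0) (.e (nat_lit 78221) (nat_lit 0) .nil) .nil))))) (.nd (nat_lit 8) (.nd (nat_lit 9) 
(.lf (nat_lit 467079) (.g (nat_lit 2880) (.e (nat_lit 3253) (nat_lit 197) (.e (nat_lit 532501) (nat_lit 1) (.e (nat_lit 57926) (nat_lit 282) (.e (nat_lit 163868) (nat_lit 2) (.e (nat_lit 196668) (nat_lit 14) (.e (nat_lit 73747) (nat_lit 3) (.e (nat_lit 516130) (nat_lit 3) (.e (nat_lit 221204) (nat_lit 20) .nil)))))))) (.g (nat_lit 1) (.e (nat_lit 77493) (nat_lit 0) .nil) .nil))) 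
(.lf (nat_lit 467591) (.g (nat_lit 2084) (.e (nat_lit 3253) (nat_lit 197) (.e (nat_lit 532504) (nat_lit 1) (.e (nat_lit 57854) (nat_lit 252) (.e (nat_lit 57447) (nat_lit 19) (.e (nat_lit 393229) (nat_lit 9) (.e (nat_lit 336086) (nat_lit 9) (.e (nat_lit 336263) (nat_lit 15) .nil))))))) (.g (nat_lit 1) (.e (nat_lit 78067) (nat_lit 0) .nil) .nil)))) (.nd (nat_lit 9) 
(.lf (nat_lit 467335) (.g (nat_lit 3361) (.e (nat_lit 3253) (nat_lit 197) (.e (nat_lit 532503) (nat_lit 1) (.e (nat_lit 57848) (nat_lit 252) (.e (nat_lit 57407) (nat_lit 12) (.e (nat_lit 336456) (nat_lit 34) (.e (nat_lit 483393) (nat_lit 23) (.e (nat_lit 336291) (nat_lit 15) .nil))))))) (.g (nat_lit 1) (.e (nat_lit 77796) (nat_lit 0) .nil) .nil))) 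
(.lf (nat_lit 467847) (.g (nat_lit 4880) (.e (nat_lit 3254) (nat_lit 197) (.e (nat_lit 532550) (nat_lit 12) (.e (nat_lit 360474) (nat_lit 8) (.e (nat_lit 557093) (nat_lit 12) (.e (nat_lit 164022) (nat_lit 46) .nil))))) (.g (nat_lit 0) (.e (nat_lit 78517) (nat_lit 0) .nil) .nil)))))) (.nd (nat_lit 7) (.nd (nat_lit 8) (.nd (nat_lit 9) 
(.lf (nat_lit 467015) (.g (nat_lit 491) (.e (nat_lit 3253) (nat_lit 197) (.e (nat_lit 532501) (nat_lit 1) (.e (nat_lit 57852) (nat_lit 252) .nil))) (.g (nat_lit 0) (.e (nat_lit 77422) (nat_lit 0) .nil) .nil))) 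
(.lf (nat_lit 467527) (.g (nat_lit 1801) (.e (nat_lit 3253) (nat_lit 197) (.e (nat_lit 532504) (nat_lit 1) (.e (nat_lit 57852) (nat_lit 252) (.e (nat_lit 57377) (nat_lit 3) .nil)))) (.g (nat_lit 0) (.e (nat_lit 78003) (nat_lit 0) .nil) .nil)))) (.nd (nat_lit 9) 
(.lf (nat_lit 467271) (.g (nat_lit 2260) (.e (nat_lit 3253) (nat_lit 197) (.e (nat_lit 532503) (nat_lit 1) (.e (nat_lit 57844) (nat_lit 252) (.e (nat_lit 57406) (nat_lit 12) (.e (nat_lit 336456) (nat_lit 34) (.e (nat_lit 483379) (nat_lit 23) (.e (nat_lit 336270) (nat_lit 15) .nil))))))) (.g (nat_lit 1) (.e (nat_lit 77732) (nat_lit 0) .nil) .nil))) 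
(.lf (nat_lit 467783) (.g (nat_lit 3704) (.e (nat_lit 3253) (nat_lit 197) (.e (nat_lit 532550) (nat_lit 12) (.e (nat_lit 360474) (nat_lit 8) (.e (nat_lit 557093) (nat_lit 12) (.e (nat_lit 164023) (nat_lit 46) (.e (nat_lit 704738) (nat_lit 11) (.e (nat_lit 16403) (nat_lit 0) .nil))))))) (.g (nat_lit 1) (.e (nat_lit 78372) (nat_lit 0) .nil) .nil))))) (.nd (nat_lit 8) (.nd (nat_lit 9) 
(.lf (nat_lit 467143) (.g (nat_lit 3742) (.e (nat_lit 3253) (nat_lit 197) (.e (nat_lit 532501) (nat_lit 1) (.e (nat_lit 57927) (nat_lit 282) (.e (nat_lit 163868) (nat_lit 2) (.e (nat_lit 196668) (nat_lit 14) (.e (nat_lit 73747) (nat_lit 3) (.e (nat_lit 516131) (nat_lit 3) (.e (nat_lit 221204) (nat_lit 20) .nil)))))))) (.g (nat_lit 1) (.e (nat_lit 77572) (nat_lit 0) .nil) .nil))) 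
(.lf (nat_lit 467655) (.g (nat_lit 3109) (.e (nat_lit 3253) (nat_lit 197) (.e (nat_lit 532504) (nat_lit 1) (.e (nat_lit 57931) (nat_lit 282) (.e (nat_lit 163867) (nat_lit 2) (.e (nat_lit 196668) (nat_lit 14) (.e (nat_lit 73746) (nat_lit 3) (.e (nat_lit 516129) (nat_lit 3) (.e (nat_lit 221203) (nat_lit 20) .nil)))))))) (.g (nat_lit 1) (.e (nat_lit 78139) (nat_lit 0) .nil) .nil)))) (.nd (nat_lit 9) 
(.lf (nat_lit 467399) (.g (nat_lit 2956) (.e (nat_lit 3253) (nat_lit 197) (.e (nat_lit 532503) (nat_lit 1) (.e (nat_lit 57929) (nat_lit 282) (.e (nat_lit 163874) (nat_lit 3) (.e (nat_lit 204854) (nat_lit 26) (.e (nat_lit 336019) (nat_lit 3) (.e (nat_lit 98341) (nat_lit 20) (.e (nat_lit 221204) (nat_lit 20) .nil)))))))) (.g (nat_lit 1) (.e (nat_lit 77866) (nat_lit 0) .nil) .nil))) 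
(.lf (nat_lit 467911) (.g (nat_lit 3534) (.e (nat_lit 3255) (nat_lit 197) (.e (nat_lit 532563) (nat_lit 15) (.e (nat_lit 385093) (nat_lit 49) (.e (nat_lit 778318) (nat_lit 3) (.e (nat_lit 57476) (nat_lit 28) (.e (nat_lit 557107) (nat_lit 15) (.e (nat_lit 188440) (nat_lit 20) .nil))))))) (.g (nat_lit 1) (.e (nat_lit 78627) (nat_lit 0) .nil) .nil))))))) 
(.nd (nat_lit 6) (.nd (nat_lit 7) (.nd (nat_lit 8) (.nd (nat_lit 9) 
(.lf (nat_lit 466983) (.g (nat_lit 4268) (.e (nat_lit 3253) (nat_lit 197) (.e (nat_lit 532499) (nat_lit 1) (.e (nat_lit 57931) (nat_lit 282) (.e (nat_lit 163869) (nat_lit 2) (.e (nat_lit 196670) (nat_lit 14) (.e (nat_lit 73746) (nat_lit 3) (.e (nat_lit 516129) (nat_lit 3) (.e (nat_lit 221203) (nat_lit 20) .nil)))))))) (.g (nat_lit 1) (.e (nat_lit 77389) (nat_lit 0) .nil) .nil))) 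
(.lf (nat_lit 467495) (.g (nat_lit 2150) (.e (nat_lit 3253) (nat_lit 197) (.e (nat_lit 532504) (nat_lit 1) (.e (nat_lit 57851) (nat_lit 252) (.e (nat_lit 57406) (nat_lit 12) (.e (nat_lit 336367) (nat_lit 27) (.e (nat_lit 426555) (nat_lit 32) (.e (nat_lit 376837) (nat_lit 0) .nil))))))) (.g (nat_lit 1) (.e (nat_lit 77971) (nat_lit 0) .nil) .nil)))) (.nd (nat_lit 9) 
(.lf (nat_lit 467239) (.g (nat_lit 2667) (.e (nat_lit 3253) (nat_lit 197) (.e (nat_lit 532501) (nat_lit 1) (.e (nat_lit 57931) (nat_lit 282) (.e (nat_lit 163867) (nat_lit 2) (.e (nat_lit 196670) (nat_lit 14) (.e (nat_lit 73746) (nat_lit 3) (.e (nat_lit 516131) (nat_lit 3) (.e (nat_lit 221204) (nat_lit 20) .nil)))))))) (.g (nat_lit 1) (.e (nat_lit 77696) (nat_lit 0) .nil) .nil))) 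
(.lf (nat_lit 467751) (.g (nat_lit 2584) (.e (nat_lit 3253) (nat_lit 197) (.e (nat_lit 532523) (nat_lit 7) (.e (nat_lit 319534) (nat_lit 16) (.e (nat_lit 286734) (nat_lit 3) (.e (nat_lit 98379) (nat_lit 31) .nil))))) (.g (nat_lit 0) (.e (nat_lit 78296) (nat_lit 0) .nil) .nil))))) (.nd (nat_lit 8) (.nd (nat_lit 9) 
(.lf (nat_lit 467111) (.g (nat_lit 2428) (.e (nat_lit 3253) (nat_lit 197) (.e (nat_lit 532501) (nat_lit 1) (.e (nat_lit 57926) (nat_lit 282) (.e (nat_lit 163874) (nat_lit 3) (.e (nat_lit 204873) (nat_lit 30) (.e (nat_lit 368676) (nat_lit 21) (.e (nat_lit 516131) (nat_lit 3) (.e (nat_lit 221204) (nat_lit 20) .nil)))))))) (.g (nat_lit 1) (.e (nat_lit 77536) (nat_lit 0) .nil) .nil))) 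
(.lf (nat_lit 467623) (.g (nat_lit 3877) (.e (nat_lit 3253) (nat_lit 197) (.e (nat_lit 532504) (nat_lit 1) (.e (nat_lit 57929) (nat_lit 282) (.e (nat_lit 163869) (nat_lit 2) (.e (nat_lit 196666) (nat_lit 13) (.e (nat_lit 65571) (nat_lit 3) (.e (nat_lit 98342) (nat_lit 20) (.e (nat_lit 221204) (nat_lit 20) .nil)))))))) (.g (nat_lit 1) (.e (nat_lit 78103) (nat_lit 0) .nil) .nil)))) (.nd (nat_lit 9) 
(.lf (nat_lit 467367) (.g (nat_lit 4319) (.e (nat_lit 3253) (nat_lit 197) (.e (nat_lit 532503) (nat_lit 1) (.e (nat_lit 57924) (nat_lit 282) (.e (nat_lit 163867) (nat_lit 2) (.e (nat_lit 196670) (nat_lit 14) (.e (nat_lit 73746) (nat_lit 3) (.e (nat_lit 516129) (nat_lit 3) (.e (nat_lit 221203) (nat_lit 20) .nil)))))))) (.g (nat_lit 1) (.e (nat_lit 77828) (nat_lit 0) .nil) .nil))) 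
(.lf (nat_lit 467879) (.g (nat_lit 3105) (.e (nat_lit 3255) (nat_lit 197) (.e (nat_lit 532535) (nat_lit 9) (.e (nat_lit 336099) (nat_lit 9) (.e (nat_lit 335938) (nat_lit 0) .nil)))) (.g (nat_lit 0) (.e (nat_lit 78595) (nat_lit 0) .nil) .nil)))))) (.nd (nat_lit 7) (.nd (nat_lit 8) (.nd (nat_lit 9) 
(.lf (nat_lit 467047) (.g (nat_lit 1672) (.e (nat_lit 3253) (nat_lit 197) (.e (nat_lit 532501) (nat_lit 1) (.e (nat_lit 57854) (nat_lit 252) (.e (nat_lit 57445) (nat_lit 19) (.e (nat_lit 401152) (nat_lit 11) (.e (nat_lit 360192) (nat_lit 0) .nil)))))) (.g (nat_lit 1) (.e (nat_lit 77454) (nat_lit 0) .nil) .nil))) 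
(.lf (nat_lit 467559) (.g (nat_lit 2548) (.e (nat_lit 3253) (nat_lit 197) (.e (nat_lit 532504) (nat_lit 1) (.e (nat_lit 57852) (nat_lit 252) (.e (nat_lit 57447) (nat_lit 19) (.e (nat_lit 401152) (nat_lit 11) (.e (nat_lit 352266) (nat_lit 0) .nil)))))) (.g (nat_lit 1) (.e (nat_lit 78035) (nat_lit 0) .nil) .nil)))) (.nd (nat_lit 9) 
(.lf (nat_lit 467303) (.g (nat_lit 2029) (.e (nat_lit 3253) (nat_lit 197) (.e (nat_lit 532503) (nat_lit 1) (.e (nat_lit 57847) (nat_lit 252) (.e (nat_lit 57445) (nat_lit 19) (.e (nat_lit 393227) (nat_lit 9) (.e (nat_lit 336151) (nat_lit 9) (.e (nat_lit 336300) (nat_lit 15) .nil))))))) (.g (nat_lit 1) (.e (nat_lit 77764) (nat_lit 0) .nil) .nil))) 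
(.lf (nat_lit 467815) (.g (nat_lit 2599) (.e (nat_lit 3253) (nat_lit 197) (.e (nat_lit 532563) (nat_lit 15) (.e (nat_lit 385068) (nat_lit 26) (.e (nat_lit 532530) (nat_lit 9) (.e (nat_lit 336326) (nat_lit 18) .nil))))) (.g (nat_lit 0) (.e (nat_lit 78469) (nat_lit 0) .nil) .nil))))) (.nd (nat_lit 8) (.nd (nat_lit 9) 
(.lf (nat_lit 467175) (.g (nat_lit 3637) (.e (nat_lit 3253) (nat_lit 197) (.e (nat_lit 532501) (nat_lit 1) (.e (nat_lit 57927) (nat_lit 282) (.e (nat_lit 163874) (nat_lit 3) (.e (nat_lit 204851) (nat_lit 26) (.e (nat_lit 336019) (nat_lit 3) (.e (nat_lit 98341) (nat_lit 20) (.e (nat_lit 221204) (nat_lit 20) .nil)))))))) (.g (nat_lit 1) (.e (nat_lit 77618) (nat_lit 0) .nil) .nil))) 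
(.lf (nat_lit 467687) (.g (nat_lit 3525) (.e (nat_lit 3253) (nat_lit 197) (.e (nat_lit 532504) (nat_lit 1) (.e (nat_lit 57931) (nat_lit 282) (.e (nat_lit 163874) (nat_lit 3) (.e (nat_lit 204851) (nat_lit 26) (.e (nat_lit 336019) (nat_lit 3) (.e (nat_lit 98342) (nat_lit 20) (.e (nat_lit 221204) (nat_lit 20) .nil)))))))) (.g (nat_lit 1) (.e (nat_lit 78173) (nat_lit 0) .nil) .nil)))) 
(.nd (nat_lit 9) 
(.lf (nat_lit 467431) (.g (nat_lit 2196) (.e (nat_lit 3253) (nat_lit 197) (.e (nat_lit 532503) (nat_lit 1) (.e (nat_lit 57931) (nat_lit 282) (.e (nat_lit 163866) (nat_lit 2) (.e (nat_lit 196668) (nat_lit 14) (.e (nat_lit 73747) (nat_lit 3) (.e (nat_lit 516130) (nat_lit 3) (.e (nat_lit 221204) (nat_lit 20) .nil)))))))) (.g (nat_lit 1) (.e (nat_lit 77901) (nat_lit 0) .nil) .nil))) 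
(.lf (nat_lit 467943) (.g (nat_lit 3590) (.e (nat_lit 3256) (nat_lit 197) (.e (nat_lit 532504) (nat_lit 1) (.e (nat_lit 57851) (nat_lit 252) (.e (nat_lit 57406) (nat_lit 12) (.e (nat_lit 336456) (nat_lit 34) (.e (nat_lit 483383) (nat_lit 23) (.e (nat_lit 336240) (nat_lit 15) .nil))))))) (.g (nat_lit 1) (.e (nat_lit 78662) (nat_lit 0) .nil) .nil)))))))) 
(.nd (nat_lit 5) (.nd (nat_lit 6) (.nd (nat_lit 7) (.nd (nat_lit 8) (.nd (nat_lit 9) 
(.lf (nat_lit 466967) (.g (nat_lit 3318) (.e (nat_lit 3253) (nat_lit 197) (.e (nat_lit 532499) (nat_lit 1) (.e (nat_lit 57931) (nat_lit 282) (.e (nat_lit 163867) (nat_lit 2) (.e (nat_lit 196668) (nat_lit 14) (.e (nat_lit 73747) (nat_lit 3) (.e (nat_lit 516129) (nat_lit 3) (.e (nat_lit 221204) (nat_lit 20) .nil)))))))) (.g (nat_lit 1) (.e (nat_lit 77372) (nat_lit 0) .nil) .nil))) 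
(.lf (nat_lit 467479) (.g (nat_lit 2602) (.e (nat_lit 3253) (nat_lit 197) (.e (nat_lit 532503) (nat_lit 1) (.e (nat_lit 57931) (nat_lit 282) (.e (nat_lit 163874) (nat_lit 3) (.e (nat_lit 204859) (nat_lit 26) (.e (nat_lit 336017) (nat_lit 3) (.e (nat_lit 98341) (nat_lit 20) (.e (nat_lit 221204) (nat_lit 20) .nil)))))))) (.g (nat_lit 1) (.e (nat_lit 77955) (nat_lit 0) .nil) .nil)))) 
(.nd (nat_lit 9) 
(.lf (nat_lit 467223) (.g (nat_lit 2311) (.e (nat_lit 3253) (nat_lit 197) (.e (nat_lit 532501) (nat_lit 1) (.e (nat_lit 57929) (nat_lit 282) (.e (nat_lit 163869) (nat_lit 2) (.e (nat_lit 196670) (nat_lit 14) (.e (nat_lit 73746) (nat_lit 3) (.e (nat_lit 516131) (nat_lit 3) (.e (nat_lit 221203) (nat_lit 20) .nil)))))))) (.g (nat_lit 1) (.e (nat_lit 77680) (nat_lit 0) .nil) .nil))) 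
(.lf (nat_lit 467735) (.g (nat_lit 3819) (.e (nat_lit 3253) (nat_lit 197) (.e (nat_lit 532523) (nat_lit 7) (.e (nat_lit 319538) (nat_lit 19) (.e (nat_lit 311312) (nat_lit 2) (.e (nat_lit 196661) (nat_lit 12) (.e (nat_lit 65280) (nat_lit 208) (.e (nat_lit 237580) (nat_lit 0) .nil))))))) (.g (nat_lit 1) (.e (nat_lit 78279) (nat_lit 0) .nil) .nil))))) (.nd (nat_lit 8) (.nd (nat_lit 9) 
(.lf (nat_lit 467095) (.g (nat_lit 2617) (.e (nat_lit 3253) (nat_lit 197) (.e (nat_lit 532501) (nat_lit 1) (.e (nat_lit 57926) (nat_lit 282) (.e (nat_lit 163869) (nat_lit 2) (.e (nat_lit 196668) (nat_lit 14) (.e (nat_lit 73747) (nat_lit 3) (.e (nat_lit 516131) (nat_lit 3) (.e (nat_lit 221203) (nat_lit 20) .nil)))))))) (.g (nat_lit 1) (.e (nat_lit 77510) (nat_lit 0) .nil) .nil))) 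
(.lf (nat_lit 467607) (.g (nat_lit 2827) (.e (nat_lit 3253) (nat_lit 197) (.e (nat_lit 532504) (nat_lit 1) (.e (nat_lit 57924) (nat_lit 282) (.e (nat_lit 163871) (nat_lit 2) (.e (nat_lit 196670) (nat_lit 14) (.e (nat_lit 73746) (nat_lit 3) (.e (nat_lit 516129) (nat_lit 3) (.e (nat_lit 221204) (nat_lit 20) .nil)))))))) (.g (nat_lit 1) (.e (nat_lit 78087) (nat_lit 0) .nil) .nil)))) (.nd (nat_lit 9) 
(.lf (nat_lit 467351) (.g (nat_lit 2204) (.e (nat_lit 3253) (nat_lit 197) (.e (nat_lit 532503) (nat_lit 1) (.e (nat_lit 57849) (nat_lit 252) (.e (nat_lit 57407) (nat_lit 12) (.e (nat_lit 336367) (nat_lit 27) .nil))))) (.g (nat_lit 0) (.e (nat_lit 77812) (nat_lit 0) .nil) .nil))) 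
(.lf (nat_lit 467863) (.g (nat_lit 2200) (.e (nat_lit 3255) (nat_lit 197) (.e (nat_lit 532503) (nat_lit 1) (.e (nat_lit 57847) (nat_lit 252) (.e (nat_lit 57407) (nat_lit 12) (.e (nat_lit 336454) (nat_lit 34) (.e (nat_lit 483385) (nat_lit 23) (.e (nat_lit 336260) (nat_lit 15) .nil))))))) (.g (nat_lit 1) (.e (nat_lit 78548) (nat_lit 0) .nil) .nil)))))) 
(.nd (nat_lit 7) (.nd (nat_lit 8) (.nd (nat_lit 9) 
(.lf (nat_lit 467031) (.g (nat_lit 2833) (.e (nat_lit 3253) (nat_lit 197) (.e (nat_lit 532501) (nat_lit 1) (.e (nat_lit 57854) (nat_lit 252) (.e (nat_lit 57406) (nat_lit 12) (.e (nat_lit 336367) (nat_lit 27) (.e (nat_lit 426542) (nat_lit 29) (.e (nat_lit 352267) (nat_lit 0) .nil))))))) (.g (nat_lit 1) (.e (nat_lit 77438) (nat_lit 0) .nil) .nil))) 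
(.lf (nat_lit 467543) (.g (nat_lit 1855) (.e (nat_lit 3253) (nat_lit 197) (.e (nat_lit 532504) (nat_lit 1) (.e (nat_lit 57852) (nat_lit 252) (.e (nat_lit 57406) (nat_lit 12) (.e (nat_lit 336454) (nat_lit 34) (.e (nat_lit 483384) (nat_lit 23) (.e (nat_lit 336270) (nat_lit 15) .nil))))))) (.g (nat_lit 1) (.e (nat_lit 78019) (nat_lit 0) .nil) .nil)))) (.nd (nat_lit 9) 
(.lf (nat_lit 467287) (.g (nat_lit 2468) (.e (nat_lit 3253) (nat_lit 197) (.e (nat_lit 532503) (nat_lit 1) (.e (nat_lit 57847) (nat_lit 252) (.e (nat_lit 57379) (nat_lit 3) (.e (nat_lit 98342) (nat_lit 20) (.e (nat_lit 221212) (nat_lit 22) (.e (nat_lit 196665) (nat_lit 13) (.e (nat_lit 65637) (nat_lit 15) .nil)))))))) (.g (nat_lit 1) (.e (nat_lit 77748) (nat_lit 0) .nil) .nil))) 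
(.lf (nat_lit 467799) (.g (nat_lit 5722) (.e (nat_lit 3253) (nat_lit 197) (.e (nat_lit 532550) (nat_lit 12) (.e (nat_lit 360475) (nat_lit 8) (.e (nat_lit 557091) (nat_lit 12) (.e (nat_lit 164022) (nat_lit 46) (.e (nat_lit 704737) (nat_lit 11) (.e (nat_lit 16403) (nat_lit 0) .nil))))))) (.g (nat_lit 1) (.e (nat_lit 78388) (nat_lit 0) .nil) .nil))))) (.nd (nat_lit 8) (.nd (nat_lit 9) 
(.lf (nat_lit 467159) (.g (nat_lit 3765) (.e (nat_lit 3253) (nat_lit 197) (.e (nat_lit 532501) (nat_lit 1) (.e (nat_lit 57927) (nat_lit 282) (.e (nat_lit 163869) (nat_lit 2) (.e (nat_lit 196668) (nat_lit 14) (.e (nat_lit 73747) (nat_lit 3) (.e (nat_lit 516131) (nat_lit 3) (.e (nat_lit 221204) (nat_lit 20) .nil)))))))) (.g (nat_lit 1) (.e (nat_lit 77592) (nat_lit 0) .nil) .nil))) 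
(.lf (nat_lit 467671) (.g (nat_lit 5087) (.e (nat_lit 3253) (nat_lit 197) (.e (nat_lit 532504) (nat_lit 1) (.e (nat_lit 57931) (nat_lit 282) (.e (nat_lit 163869) (nat_lit 2) (.e (nat_lit 196666) (nat_lit 13) (.e (nat_lit 65571) (nat_lit 3) (.e (nat_lit 98341) (nat_lit 20) (.e (nat_lit 221204) (nat_lit 20) .nil)))))))) (.g (nat_lit 1) (.e (nat_lit 78156) (nat_lit 0) .nil) .nil)))) (.nd (nat_lit 9) 
(.lf (nat_lit 467415) (.g (nat_lit 2686) (.e (nat_lit 3253) (nat_lit 197) (.e (nat_lit 532503) (nat_lit 1) (.e (nat_lit 57930) (nat_lit 282) (.e (nat_lit 163869) (nat_lit 2) (.e (nat_lit 196668) (nat_lit 14) (.e (nat_lit 73746) (nat_lit 3) (.e (nat_lit 516129) (nat_lit 3) (.e (nat_lit 221204) (nat_lit 20) .nil)))))))) (.g (nat_lit 1) (.e (nat_lit 77882) (nat_lit 0) .nil) .nil))) 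
(.lf (nat_lit 467927) (.g (nat_lit 2291) (.e (nat_lit 3256) (nat_lit 197) (.e (nat_lit 532501) (nat_lit 1) (.e (nat_lit 57926) (nat_lit 282) (.e (nat_lit 163869) (nat_lit 2) (.e (nat_lit 196670) (nat_lit 14) .nil))))) (.g (nat_lit 0) (.e (nat_lit 78646) (nat_lit 0) .nil) .nil))))))) (.nd (nat_lit 6) (.nd (nat_lit 7) (.nd (nat_lit 8) (.nd (nat_lit 9) 
(.lf (nat_lit 466999) (.g (nat_lit 2803) (.e (nat_lit 3253) (nat_lit 197) (.e (nat_lit 532501) (nat_lit 1) (.e (nat_lit 57851) (nat_lit 252) (.e (nat_lit 57406) (nat_lit 12) (.e (nat_lit 336367) (nat_lit 27) (.e (nat_lit 426542) (nat_lit 29) (.e (nat_lit 352267) (nat_lit 0) .nil))))))) (.g (nat_lit 1) (.e (nat_lit 77406) (nat_lit 0) .nil) .nil))) 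
(.lf (nat_lit 467511) (.g (nat_lit 1706) (.e (nat_lit 3253) (nat_lit 197) (.e (nat_lit 532504) (nat_lit 1) (.e (nat_lit 57852) (nat_lit 252) (.e (nat_lit 57354) (nat_lit 0) .nil)))) (.g (nat_lit 0) (.e (nat_lit 77987) (nat_lit 0) .nil) .nil)))) (.nd (nat_lit 9) 
(.lf (nat_lit 467255) (.g (nat_lit 4582) (.e (nat_lit 3253) (nat_lit 197) (.e (nat_lit 532501) (nat_lit 1) (.e (nat_lit 57931) (nat_lit 282) (.e (nat_lit 163869) (nat_lit 2) (.e (nat_lit 196670) (nat_lit 14) (.e (nat_lit 73746) (nat_lit 3) (.e (nat_lit 516129) (nat_lit 3) (.e (nat_lit 221203) (nat_lit 20) .nil)))))))) (.g (nat_lit 1) (.e (nat_lit 77713) (nat_lit 0) .nil) .nil))) 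
(.lf (nat_lit 467767) (.g (nat_lit 3740) (.e (nat_lit 3253) (nat_lit 197) (.e (nat_lit 532534) (nat_lit 9) (.e (nat_lit 336019) (nat_lit 3) (.e (nat_lit 98342) (nat_lit 20) (.e (nat_lit 221197) (nat_lit 20) (.e (nat_lit 3268) (nat_lit 199) (.e (nat_lit 548889) (nat_lit 9) (.e (nat_lit 65642) (nat_lit 15) .nil)))))))) (.g (nat_lit 1) (.e (nat_lit 78344) (nat_lit 0) .nil) .nil))))) 
(.nd (nat_lit 8) (.nd (nat_lit 9) 
(.lf (nat_lit 467127) (.g (nat_lit 2518) (.e (nat_lit 3253) (nat_lit 197) (.e (nat_lit 532501) (nat_lit 1) (.e (nat_lit 57927) (nat_lit 282) (.e (nat_lit 163867) (nat_lit 2) (.e (nat_lit 196668) (nat_lit 14) (.e (nat_lit 73747) (nat_lit 3) (.e (nat_lit 516129) (nat_lit 3) (.e (nat_lit 221204) (nat_lit 20) .nil)))))))) (.g (nat_lit 1) (.e (nat_lit 77556) (nat_lit 0) .nil) .nil))) 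
(.lf (nat_lit 467639) (.g (nat_lit 2574) (.e (nat_lit 3253) (nat_lit 197) (.e (nat_lit 532504) (nat_lit 1) (.e (nat_lit 57929) (nat_lit 282) (.e (nat_lit 163874) (nat_lit 3) (.e (nat_lit 204853) (nat_lit 26) (.e (nat_lit 336019) (nat_lit 3) (.e (nat_lit 98341) (nat_lit 20) (.e (nat_lit 221204) (nat_lit 20) .nil)))))))) (.g (nat_lit 1) (.e (nat_lit 78121) (nat_lit 0) .nil) .nil)))) 
(.nd (nat_lit 9) 
(.lf (nat_lit 467383) (.g (nat_lit 2021) (.e (nat_lit 3253) (nat_lit 197) (.e (nat_lit 532503) (nat_lit 1) (.e (nat_lit 57929) (nat_lit 282) (.e (nat_lit 163869) (nat_lit 2) (.e (nat_lit 196663) (nat_lit 13) (.e (nat_lit 65571) (nat_lit 3) (.e (nat_lit 98341) (nat_lit 20) (.e (nat_lit 221204) (nat_lit 20) .nil)))))))) (.g (nat_lit 1) (.e (nat_lit 77849) (nat_lit 0) .nil) .nil))) 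
(.lf (nat_lit 467895) (.g (nat_lit 460) (.e (nat_lit 3255) (nat_lit 197) (.e (nat_lit 532549) (nat_lit 12) (.e (nat_lit 360466) (nat_lit 3) .nil))) (.g (nat_lit 0) (.e (nat_lit 78611) (nat_lit 0) .nil) .nil)))))) (.nd (nat_lit 7) (.nd (nat_lit 8) (.nd (nat_lit 9) 
(.lf (nat_lit 467063) (.g (nat_lit 2026) (.e (nat_lit 3253) (nat_lit 197) (.e (nat_lit 532501) (nat_lit 1) (.e (nat_lit 57924) (nat_lit 282) (.e (nat_lit 163871) (nat_lit 2) (.e (nat_lit 196670) (nat_lit 14) (.e (nat_lit 73746) (nat_lit 3) (.e (nat_lit 516129) (nat_lit 3) (.e (nat_lit 221203) (nat_lit 20) .nil)))))))) (.g (nat_lit 1) (.e (nat_lit 77472) (nat_lit 0) .nil) .nil))) 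
(.lf (nat_lit 467575) (.g (nat_lit 2838) (.e (nat_lit 3253) (nat_lit 197) (.e (nat_lit 532504) (nat_lit 1) (.e (nat_lit 57854) (nat_lit 252) (.e (nat_lit 57406) (nat_lit 12) (.e (nat_lit 336456) (nat_lit 34) (.e (nat_lit 483393) (nat_lit 23) (.e (nat_lit 336291) (nat_lit 15) .nil))))))) (.g (nat_lit 1) (.e (nat_lit 78051) (nat_lit 0) .nil) .nil)))) (.nd (nat_lit 9) 
(.lf (nat_lit 467319) (.g (nat_lit 344) (.e (nat_lit 3253) (nat_lit 197) (.e (nat_lit 532503) (nat_lit 1) (.e (nat_lit 57848) (nat_lit 252) .nil))) (.g (nat_lit 0) (.e (nat_lit 77780) (nat_lit 0) .nil) .nil))) 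
(.lf (nat_lit 467831) (.g (nat_lit 976) (.e (nat_lit 3254) (nat_lit 197) (.e (nat_lit 532504) (nat_lit 1) (.e (nat_lit 57851) (nat_lit 252) .nil))) (.g (nat_lit 0) (.e (nat_lit 78494) (nat_lit 0) .nil) .nil))))) (.nd (nat_lit 8) (.nd (nat_lit 9) 
(.lf (nat_lit 467191) (.g (nat_lit 4808) (.e (nat_lit 3253) (nat_lit 197) (.e (nat_lit 532501) (nat_lit 1) (.e (nat_lit 57927) (nat_lit 282) (.e (nat_lit 163875) (nat_lit 3) (.e (nat_lit 204862) (nat_lit 27) (.e (nat_lit 344117) (nat_lit 21) (.e (nat_lit 516130) (nat_lit 3) (.e (nat_lit 221204) (nat_lit 20) .nil)))))))) (.g (nat_lit 1) (.e (nat_lit 77637) (nat_lit 0) .nil) .nil))) 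
(.lf (nat_lit 467703) (.g (nat_lit 1758) (.e (nat_lit 3253) (nat_lit 197) (.e (nat_lit 532511) (nat_lit 2) (.e (nat_lit 106534) (nat_lit 11) (.e (nat_lit 16412) (nat_lit 2) (.e (nat_lit 196674) (nat_lit 15) (.e (nat_lit 89856) (nat_lit 0) .nil)))))) (.g (nat_lit 1) (.e (nat_lit 78191) (nat_lit 0) .nil) .nil)))) (.nd (nat_lit 9) 
(.lf (nat_lit 467447) (.g (nat_lit 4349) (.e (nat_lit 3253) (nat_lit 197) (.e (nat_lit 532503) (nat_lit 1) (.e (nat_lit 57931) (nat_lit 282) (.e (nat_lit 163867) (nat_lit 2) (.e (nat_lit 196670) (nat_lit 14) (.e (nat_lit 73746) (nat_lit 3) (.e (nat_lit 516129) (nat_lit 3) (.e (nat_lit 221203) (nat_lit 20) .nil)))))))) (.g (nat_lit 1) (.e (nat_lit 77917) (nat_lit 0) .nil) .nil))) 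
(.lf (nat_lit 467959) (.g (nat_lit 4958) (.e (nat_lit 3256) (nat_lit 197) (.e (nat_lit 532550) (nat_lit 12) (.e (nat_lit 360474) (nat_lit 8) (.e (nat_lit 557093) (nat_lit 12) (.e (nat_lit 164022) (nat_lit 46) (.e (nat_lit 704737) (nat_lit 11) (.e (nat_lit 16391) (nat_lit 0) .nil))))))) (.g (nat_lit 1) (.e (nat_lit 78739) (nat_lit 0) .nil) .nil))))))))) 
(.nd (nat_lit 4) (.nd (nat_lit 5) (.nd (nat_lit 6) (.nd (nat_lit 7) (.nd (nat_lit 8) 
(.nd (nat_lit 9) 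
(.lf (nat_lit 466959) (.g (nat_lit 2524) (.e (nat_lit 3253) (nat_lit 197) (.e (nat_lit 532499) (nat_lit 1) (.e (nat_lit 57927) (nat_lit 282) (.e (nat_lit 163875) (nat_lit 3) (.e (nat_lit 204863) (nat_lit 27) (.e (nat_lit 344117) (nat_lit 21) (.e (nat_lit 516129) (nat_lit 3) (.e (nat_lit 221204) (nat_lit 20) .nil)))))))) (.g (nat_lit 1) (.e (nat_lit 77361) (nat_lit 0) .nil) .nil))) 
(.lf (nat_lit 467471) (.g (nat_lit 3717) (.e (nat_lit 3253) (nat_lit 197) (.e (nat_lit 532503) (nat_lit 1) (.e (nat_lit 57931) (nat_lit 282) (.e (nat_lit 163873) (nat_lit 3) (.e (nat_lit 204853) (nat_lit 26) (.e (nat_lit 336019) (nat_lit 3) (.e (nat_lit 98342) (nat_lit 20) (.e (nat_lit 221204) (nat_lit 20) .nil)))))))) (.g (nat_lit 1) (.e (nat_lit 77945) (nat_lit 0) .nil) .nil)))) 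
(.nd (nat_lit 9) 
(.lf (nat_lit 467215) (.g (nat_lit 3467) (.e (nat_lit 3253) (nat_lit 197) (.e (nat_lit 532501) (nat_lit 1) (.e (nat_lit 57929) (nat_lit 282) (.e (nat_lit 163869) (nat_lit 2) (.e (nat_lit 196666) (nat_lit 13) (.e (nat_lit 65571) (nat_lit 3) (.e (nat_lit 98341) (nat_lit 20) (.e (nat_lit 221204) (nat_lit 20) .nil)))))))) (.g (nat_lit 1) (.e (nat_lit 77672) (nat_lit 0) .nil) .nil))) 
(.lf (nat_lit 467727) (.g (nat_lit 2229) (.e (nat_lit 3253) (nat_lit 197) (.e (nat_lit 532515) (nat_lit 3) (.e (nat_lit 114698) (nat_lit 11) (.e (nat_lit 426116) (nat_lit 2) (.e (nat_lit 196672) (nat_lit 15) (.e (nat_lit 81924) (nat_lit 0) .nil)))))) (.g (nat_lit 1) (.e (nat_lit 78240) (nat_lit 0) .nil) .nil))))) (.nd (nat_lit 8) (.nd (nat_lit 9) 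
(.lf (nat_lit 467087) (.g (nat_lit 3099) (.e (nat_lit 3253) (nat_lit 197) (.e (nat_lit 532501) (nat_lit 1) (.e (nat_lit 57926) (nat_lit 282) (.e (nat_lit 163869) (nat_lit 2) (.e (nat_lit 196666) (nat_lit 13) (.e (nat_lit 65569) (nat_lit 3) (.e (nat_lit 98341) (nat_lit 20) (.e (nat_lit 221204) (nat_lit 20) .nil)))))))) (.g (nat_lit 1) (.e (nat_lit 77501) (nat_lit 0) .nil) .nil))) 
(.lf (nat_lit 467599) (.g (nat_lit 3820) (.e (nat_lit 3253) (nat_lit 197) (.e (nat_lit 532504) (nat_lit 1) (.e (nat_lit 57924) (nat_lit 282) (.e (nat_lit 163867) (nat_lit 2) (.e (nat_lit 196668) (nat_lit 14) (.e (nat_lit 73747) (nat_lit 3) (.e (nat_lit 516129) (nat_lit 3) (.e (nat_lit 221204) (nat_lit 20) .nil)))))))) (.g (nat_lit 1) (.e (nat_lit 78075) (nat_lit 0) .nil) .nil)))) (.nd (nat_lit 9) 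
(.lf (nat_lit 467343) (.g (nat_lit 1607) (.e (nat_lit 3253) (nat_lit 197) (.e (nat_lit 532503) (nat_lit 1) (.e (nat_lit 57849) (nat_lit 252) (.e (nat_lit 57377) (nat_lit 3) .nil)))) (.g (nat_lit 0) (.e (nat_lit 77804) (nat_lit 0) .nil) .nil))) 
(.lf (nat_lit 467855) (.g (nat_lit 2617) (.e (nat_lit 3254) (nat_lit 197) (.e (nat_lit 532558) (nat_lit 14) (.e (nat_lit 376868) (nat_lit 23) (.e (nat_lit 98350) (nat_lit 24) (.e (nat_lit 409648) (nat_lit 18) (.e (nat_lit 303108) (nat_lit 0) .nil)))))) (.g (nat_lit 1) (.e (nat_lit 78525) (nat_lit 0) .nil) .nil)))))) (.nd (nat_lit 7) (.nd (nat_lit 8) (.nd (nat_lit 9) 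
(.lf (nat_lit 467023) (.g (nat_lit 1764) (.e (nat_lit 3253) (nat_lit 197) (.e (nat_lit 532501) (nat_lit 1) (.e (nat_lit 57852) (nat_lit 252) (.e (nat_lit 57406) (nat_lit 12) .nil)))) (.g (nat_lit 0) (.e (nat_lit 77430) (nat_lit 0) .nil) .nil))) 
(.lf (nat_lit 467535) (.g (nat_lit 3601) (.e (nat_lit 3253) (nat_lit 197) (.e (nat_lit 532504) (nat_lit 1) (.e (nat_lit 57852) (nat_lit 252) (.e (nat_lit 57378) (nat_lit 3) (.e (nat_lit 98342) (nat_lit 20) (.e (nat_lit 221212) (nat_lit 22) (.e (nat_lit 196665) (nat_lit 13) (.e (nat_lit 65637) (nat_lit 15) .nil)))))))) (.g (nat_lit 1) (.e (nat_lit 78011) (nat_lit 0) .nil) .nil)))) (.nd (nat_lit 9) 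
(.lf (nat_lit 467279) (.g (nat_lit 1397) (.e (nat_lit 3253) (nat_lit 197) (.e (nat_lit 532503) (nat_lit 1) (.e (nat_lit 57846) (nat_lit 252) (.e (nat_lit 57407) (nat_lit 12) .nil)))) (.g (nat_lit 0) (.e (nat_lit 77740) (nat_lit 0) .nil) .nil))) 
(.lf (nat_lit 467791) (.g (nat_lit 5327) (.e (nat_lit 3253) (nat_lit 197) (.e (nat_lit 532550) (nat_lit 12) (.e (nat_lit 360475) (nat_lit 8) (.e (nat_lit 557085) (nat_lit 11) (.e (nat_lit 24665) (nat_lit 14) .nil))))) (.g (nat_lit 0) (.e (nat_lit 78380) (nat_lit 0) .nil) .nil))))) (.nd (nat_lit 8) (.nd (nat_lit 9) 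
(.lf (nat_lit 467151) (.g (nat_lit 4234) (.e (nat_lit 3253) (nat_lit 197) (.e (nat_lit 532501) (nat_lit 1) (.e (nat_lit 57927) (nat_lit 282) (.e (nat_lit 163869) (nat_lit 2) (.e (nat_lit 196666) (nat_lit 13) (.e (nat_lit 65569) (nat_lit 3) (.e (nat_lit 98342) (nat_lit 20) (.e (nat_lit 221204) (nat_lit 20) .nil)))))))) (.g (nat_lit 1) (.e (nat_lit 77582) (nat_lit 0) .nil) .nil))) 
(.lf (nat_lit 467663) (.g (nat_lit 4627) (.e (nat_lit 3253) (nat_lit 197) (.e (nat_lit 532504) (nat_lit 1) (.e (nat_lit 57931) (nat_lit 282) (.e (nat_lit 163867) (nat_lit 2) (.e (nat_lit 196670) (nat_lit 14) (.e (nat_lit 73746) (nat_lit 3) (.e (nat_lit 516129) (nat_lit 3) (.e (nat_lit 221204) (nat_lit 20) .nil)))))))) (.g (nat_lit 1) (.e (nat_lit 78147) (nat_lit 0) .nil) .nil)))) (.nd (nat_lit 9) 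
(.lf (nat_lit 467407) (.g (nat_lit 3202) (.e (nat_lit 3253) (nat_lit 197) (.e (nat_lit 532503) (nat_lit 1) (.e (nat_lit 57930) (nat_lit 282) (.e (nat_lit 163867) (nat_lit 2) (.e (nat_lit 196668) (nat_lit 14) (.e (nat_lit 73746) (nat_lit 3) (.e (nat_lit 516129) (nat_lit 3) (.e (nat_lit 221204) (nat_lit 20) .nil)))))))) (.g (nat_lit 1) (.e (nat_lit 77874) (nat_lit 0) .nil) .nil))) 
(.lf (nat_lit 467919) (.g (nat_lit 2545) (.e (nat_lit 3256) (nat_lit 197) (.e (nat_lit 532499) (nat_lit 1) (.e (nat_lit 57927) (nat_lit 282) (.e (nat_lit 163869) (nat_lit 2) (.e (nat_lit 196668) (nat_lit 14) (.e (nat_lit 73747) (nat_lit 3) (.e (nat_lit 516129) (nat_lit 3) (.e (nat_lit 221196) (nat_lit 20) .nil)))))))) (.g (nat_lit 1) (.e (nat_lit 78636) (nat_lit 0) .nil) .nil))))))) 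
(.nd (nat_lit 6) (.nd (nat_lit 7) (.nd (nat_lit 8) (.nd (nat_lit 9) 
(.lf (nat_lit 466991) (.g (nat_lit 3992) (.e (nat_lit 3253) (nat_lit 197) (.e (nat_lit 532499) (nat_lit 1) (.e (nat_lit 57931) (nat_lit 282) (.e (nat_lit 163874) (nat_lit 3) (.e (nat_lit 204863) (nat_lit 27) (.e (nat_lit 344117) (nat_lit 21) (.e (nat_lit 516130) (nat_lit 3) (.e (nat_lit 221204) (nat_lit 20) .nil)))))))) (.g (nat_lit 1) (.e (nat_lit 77398) (nat_lit 0) .nil) .nil))) 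
(.lf (nat_lit 467503) (.g (nat_lit 2806) (.e (nat_lit 3253) (nat_lit 197) (.e (nat_lit 532504) (nat_lit 1) (.e (nat_lit 57851) (nat_lit 252) (.e (nat_lit 57406) (nat_lit 12) (.e (nat_lit 336456) (nat_lit 34) (.e (nat_lit 483391) (nat_lit 23) (.e (nat_lit 336300) (nat_lit 15) .nil))))))) (.g (nat_lit 1) (.e (nat_lit 77979) (nat_lit 0) .nil) .nil)))) (.nd (nat_lit 9) 
(.lf (nat_lit 467247) (.g (nat_lit 4504) (.e (nat_lit 3253) (nat_lit 197) (.e (nat_lit 532501) (nat_lit 1) (.e (nat_lit 57931) (nat_lit 282) (.e (nat_lit 163869) (nat_lit 2) (.e (nat_lit 196666) (nat_lit 13) (.e (nat_lit 65571) (nat_lit 3) (.e (nat_lit 98342) (nat_lit 20) (.e (nat_lit 221204) (nat_lit 20) .nil)))))))) (.g (nat_lit 1) (.e (nat_lit 77705) (nat_lit 0) .nil) .nil))) 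
(.lf (nat_lit 467759) (.g (nat_lit 3704) (.e (nat_lit 3253) (nat_lit 197) (.e (nat_lit 532530) (nat_lit 9) (.e (nat_lit 336326) (nat_lit 18) (.e (nat_lit 204854) (nat_lit 26) (.e (nat_lit 336316) (nat_lit 17) (.e (nat_lit 196665) (nat_lit 13) (.e (nat_lit 65637) (nat_lit 15) .nil))))))) (.g (nat_lit 1) (.e (nat_lit 78323) (nat_lit 0) .nil) .nil))))) (.nd (nat_lit 8) (.nd (nat_lit 9) 
(.lf (nat_lit 467119) (.g (nat_lit 2453) (.e (nat_lit 3253) (nat_lit 197) (.e (nat_lit 532501) (nat_lit 1) (.e (nat_lit 57926) (nat_lit 282) (.e (nat_lit 163875) (nat_lit 3) (.e (nat_lit 204872) (nat_lit 30) (.e (nat_lit 368676) (nat_lit 21) (.e (nat_lit 516131) (nat_lit 3) (.e (nat_lit 221204) (nat_lit 20) .nil)))))))) (.g (nat_lit 1) (.e (nat_lit 77546) (nat_lit 0) .nil) .nil))) 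
(.lf (nat_lit 467631) (.g (nat_lit 3925) (.e (nat_lit 3253) (nat_lit 197) (.e (nat_lit 532504) (nat_lit 1) (.e (nat_lit 57929) (nat_lit 282) (.e (nat_lit 163869) (nat_lit 2) (.e (nat_lit 196670) (nat_lit 14) (.e (nat_lit 73746) (nat_lit 3) (.e (nat_lit 516129) (nat_lit 3) (.e (nat_lit 221203) (nat_lit 20) .nil)))))))) (.g (nat_lit 1) (.e (nat_lit 78111) (nat_lit 0) .nil) .nil)))) (.nd (nat_lit 9) 
(.lf (nat_lit 467375) (.g (nat_lit 2118) (.e (nat_lit 3253) (nat_lit 197) (.e (nat_lit 532503) (nat_lit 1) (.e (nat_lit 57924) (nat_lit 282) (.e (nat_lit 163871) (nat_lit 2) (.e (nat_lit 196670) (nat_lit 14) (.e (nat_lit 73746) (nat_lit 3) (.e (nat_lit 516131) (nat_lit 3) (.e (nat_lit 221204) (nat_lit 20) .nil)))))))) (.g (nat_lit 1) (.e (nat_lit 77841) (nat_lit 0) .nil) .nil))) 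
(.lf (nat_lit 467887) (.g (nat_lit 3052) (.e (nat_lit 3255) (nat_lit 197) (.e (nat_lit 532535) (nat_lit 9) (.e (nat_lit 336099) (nat_lit 9) (.e (nat_lit 336028) (nat_lit 3) .nil)))) (.g (nat_lit 0) (.e (nat_lit 78603) (nat_lit 0) .nil) .nil)))))) (.nd (nat_lit 7) (.nd (nat_lit 8) (.nd (nat_lit 9) 
(.lf (nat_lit 467055) (.g (nat_lit 2718) (.e (nat_lit 3253) (nat_lit 197) (.e (nat_lit 532501) (nat_lit 1) (.e (nat_lit 57924) (nat_lit 282) (.e (nat_lit 163867) (nat_lit 2) (.e (nat_lit 196668) (nat_lit 14) (.e (nat_lit 73747) (nat_lit 3) (.e (nat_lit 516129) (nat_lit 3) (.e (nat_lit 221203) (nat_lit 20) .nil)))))))) (.g (nat_lit 1) (.e (nat_lit 77462) (nat_lit 0) .nil) .nil))) 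
(.lf (nat_lit 467567) (.g (nat_lit 998) (.e (nat_lit 3253) (nat_lit 197) (.e (nat_lit 532504) (nat_lit 1) (.e (nat_lit 57854) (nat_lit 252) (.e (nat_lit 57406) (nat_lit 12) .nil)))) (.g (nat_lit 0) (.e (nat_lit 78043) (nat_lit 0) .nil) .nil)))) (.nd (nat_lit 9) 
(.lf (nat_lit 467311) (.g (nat_lit 1997) (.e (nat_lit 3253) (nat_lit 197) (.e (nat_lit 532503) (nat_lit 1) (.e (nat_lit 57847) (nat_lit 252) (.e (nat_lit 57446) (nat_lit 19) (.e (nat_lit 401152) (nat_lit 11) (.e (nat_lit 352266) (nat_lit 0) .nil)))))) (.g (nat_lit 1) (.e (nat_lit 77772) (nat_lit 0) .nil) .nil))) 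
(.lf (nat_lit 467823) (.g (nat_lit 2275) (.e (nat_lit 3254) (nat_lit 197) (.e (nat_lit 532501) (nat_lit 1) (.e (nat_lit 57851) (nat_lit 252) (.e (nat_lit 57446) (nat_lit 19) .nil)))) (.g (nat_lit 0) (.e (nat_lit 78481) (nat_lit 0) .nil) .nil))))) (.nd (nat_lit 8) (.nd (nat_lit 9) 
(.lf (nat_lit 467183) (.g (nat_lit 2378) (.e (nat_lit 3253) (nat_lit 197) (.e (nat_lit 532501) (nat_lit 1) (.e (nat_lit 57927) (nat_lit 282) (.e (nat_lit 163874) (nat_lit 3) (.e (nat_lit 204863) (nat_lit 27) (.e (nat_lit 344117) (nat_lit 21) (.e (nat_lit 516130) (nat_lit 3) (.e (nat_lit 221203) (nat_lit 20) .nil)))))))) (.g (nat_lit 1) (.e (nat_lit 77627) (nat_lit 0) .nil) .nil))) 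
(.lf (nat_lit 467695) (.g (nat_lit 2454) (.e (nat_lit 3253) (nat_lit 197) (.e (nat_lit 532508) (nat_lit 2) (.e (nat_lit 106534) (nat_lit 11) (.e (nat_lit 16416) (nat_lit 3) (.e (nat_lit 204866) (nat_lit 28) (.e (nat_lit 352262) (nat_lit 0) .nil)))))) (.g (nat_lit 1) (.e (nat_lit 78183) (nat_lit 0) .nil) .nil)))) (.nd (nat_lit 9) 
(.lf (nat_lit 467439) (.g (nat_lit 4295) (.e (nat_lit 3253) (nat_lit 197) (.e (nat_lit 532503) (nat_lit 1) (.e (nat_lit 57931) (nat_lit 282) (.e (nat_lit 163867) (nat_lit 2) (.e (nat_lit 196663) (nat_lit 13) (.e (nat_lit 65571) (nat_lit 3) (.e (nat_lit 98341) (nat_lit 20) (.e (nat_lit 221204) (nat_lit 20) .nil)))))))) (.g (nat_lit 1) (.e (nat_lit 77909) (nat_lit 0) .nil) .nil))) 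
(.lf (nat_lit 467951) (.g (nat_lit 3052) (.e (nat_lit 3256) (nat_lit 197) (.e (nat_lit 532535) (nat_lit 9) (.e (nat_lit 336099) (nat_lit 9) (.e (nat_lit 336028) (nat_lit 3) .nil)))) (.g (nat_lit 0) (.e (nat_lit 78729) (nat_lit 0) .nil) .nil)))))))) (.nd (nat_lit 5) (.nd (nat_lit 6) (.nd (nat_lit 7) (.nd (nat_lit 8) (.nd (nat_lit 9) 
(.lf (nat_lit 466975) (.g (nat_lit 3865) (.e (nat_lit 3253) (nat_lit 197) (.e (nat_lit 532499) (nat_lit 1) (.e (nat_lit 57931) (nat_lit 282) (.e (nat_lit 163869) (nat_lit 2) (.e (nat_lit 196666) (nat_lit 13) (.e (nat_lit 65569) (nat_lit 3) (.e (nat_lit 98342) (nat_lit 20) (.e (nat_lit 221204) (nat_lit 20) .nil)))))))) (.g (nat_lit 1) (.e (nat_lit 77380) (nat_lit 0) .nil) .nil))) 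
(.lf (nat_lit 467487) (.g (nat_lit 2349) (.e (nat_lit 3253) (nat_lit 197) (.e (nat_lit 532504) (nat_lit 1) (.e (nat_lit 57844) (nat_lit 252) (.e (nat_lit 57406) (nat_lit 12) (.e (nat_lit 336367) (nat_lit 27) .nil))))) (.g (nat_lit 0) (.e (nat_lit 77963) (nat_lit 0) .nil) .nil)))) (.nd (nat_lit 9) 
(.lf (nat_lit 467231) (.g (nat_lit 3202) (.e (nat_lit 3253) (nat_lit 197) (.e (nat_lit 532501) (nat_lit 1) (.e (nat_lit 57931) (nat_lit 282) (.e (nat_lit 163867) (nat_lit 2) (.e (nat_lit 196663) (nat_lit 13) (.e (nat_lit 65571) (nat_lit 3) (.e (nat_lit 98341) (nat_lit 20) (.e (nat_lit 221204) (nat_lit 20) .nil)))))))) (.g (nat_lit 1) (.e (nat_lit 77688) (nat_lit 0) .nil) .nil))) 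
(.lf (nat_lit 467743) (.g (nat_lit 2867) (.e (nat_lit 3253) (nat_lit 197) (.e (nat_lit 532523) (nat_lit 7) (.e (nat_lit 319532) (nat_lit 16) (.e (nat_lit 286735) (nat_lit 3) (.e (nat_lit 98381) (nat_lit 31) (.e (nat_lit 466967) (nat_lit 20) .nil)))))) (.g (nat_lit 1) (.e (nat_lit 78287) (nat_lit 0) .nil) .nil))))) (.nd (nat_lit 8) (.nd (nat_lit 9) 
(.lf (nat_lit 467103) (.g (nat_lit 3232) (.e (nat_lit 3253) (nat_lit 197) (.e (nat_lit 532501) (nat_lit 1) (.e (nat_lit 57926) (nat_lit 282) (.e (nat_lit 163871) (nat_lit 2) (.e (nat_lit 196670) (nat_lit 14) (.e (nat_lit 73746) (nat_lit 3) (.e (nat_lit 516129) (nat_lit 3) (.e (nat_lit 221203) (nat_lit 20) .nil)))))))) (.g (nat_lit 1) (.e (nat_lit 77526) (nat_lit 0) .nil) .nil))) 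
(.lf (nat_lit 467615) (.g (nat_lit 2158) (.e (nat_lit 3253) (nat_lit 197) (.e (nat_lit 532504) (nat_lit 1) (.e (nat_lit 57929) (nat_lit 282) (.e (nat_lit 163867) (nat_lit 2) (.e (nat_lit 196670) (nat_lit 14) (.e (nat_lit 73746) (nat_lit 3) (.e (nat_lit 516131) (nat_lit 3) (.e (nat_lit 221204) (nat_lit 20) .nil)))))))) (.g (nat_lit 1) (.e (nat_lit 78095) (nat_lit 0) .nil) .nil)))) (.nd (nat_lit 9) 
(.lf (nat_lit 467359) (.g (nat_lit 2746) (.e (nat_lit 3253) (nat_lit 197) (.e (nat_lit 532503) (nat_lit 1) (.e (nat_lit 57924) (nat_lit 282) (.e (nat_lit 163867) (nat_lit 2) (.e (nat_lit 196668) (nat_lit 14) (.e (nat_lit 73746) (nat_lit 3) (.e (nat_lit 516129) (nat_lit 3) (.e (nat_lit 221203) (nat_lit 20) .nil)))))))) (.g (nat_lit 1) (.e (nat_lit 77820) (nat_lit 0) .nil) .nil))) 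
(.lf (nat_lit 467871) (.g (nat_lit 1378) (.e (nat_lit 3255) (nat_lit 197) (.e (nat_lit 532535) (nat_lit 9) (.e (nat_lit 336073) (nat_lit 9) .nil))) (.g (nat_lit 0) (.e (nat_lit 78587) (nat_lit 0) .nil) .nil)))))) (.nd (nat_lit 7) (.nd (nat_lit 8) (.nd (nat_lit 9) 
(.lf (nat_lit 467039) (.g (nat_lit 1296) (.e (nat_lit 3253) (nat_lit 197) (.e (nat_lit 532501) (nat_lit 1) (.e (nat_lit 57854) (nat_lit 252) (.e (nat_lit 57409) (nat_lit 12) (.e (nat_lit 336367) (nat_lit 27) (.e (nat_lit 426555) (nat_lit 32) (.e (nat_lit 384768) (nat_lit 0) .nil))))))) (.g (nat_lit 1) (.e (nat_lit 77446) (nat_lit 0) .nil) .nil))) 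
(.lf (nat_lit 467551) (.g (nat_lit 2488) (.e (nat_lit 3253) (nat_lit 197) (.e (nat_lit 532504) (nat_lit 1) (.e (nat_lit 57852) (nat_lit 252) (.e (nat_lit 57409) (nat_lit 12) (.e (nat_lit 336367) (nat_lit 27) (.e (nat_lit 426540) (nat_lit 29) (.e (nat_lit 352262) (nat_lit 0) .nil))))))) (.g (nat_lit 1) (.e (nat_lit 78027) (nat_lit 0) .nil) .nil)))) (.nd (nat_lit 9) 
(.lf (nat_lit 467295) (.g (nat_lit 2403) (.e (nat_lit 3253) (nat_lit 197) (.e (nat_lit 532503) (nat_lit 1) (.e (nat_lit 57847) (nat_lit 252) (.e (nat_lit 57407) (nat_lit 12) (.e (nat_lit 336456) (nat_lit 34) (.e (nat_lit 483393) (nat_lit 23) (.e (nat_lit 336291) (nat_lit 15) .nil))))))) (.g (nat_lit 1) (.e (nat_lit 77756) (nat_lit 0) .nil) .nil))) 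
(.lf (nat_lit 467807) (.g (nat_lit 1294) (.e (nat_lit 3253) (nat_lit 197) (.e (nat_lit 532560) (nat_lit 14) (.e (nat_lit 376842) (nat_lit 11) (.e (nat_lit 426108) (nat_lit 1) .nil)))) (.g (nat_lit 0) (.e (nat_lit 78421) (nat_lit 0) .nil) .nil))))) (.nd (nat_lit 8) (.nd (nat_lit 9) 
(.lf (nat_lit 467167) (.g (nat_lit 2780) (.e (nat_lit 3253) (nat_lit 197) (.e (nat_lit 532501) (nat_lit 1) (.e (nat_lit 57927) (nat_lit 282) (.e (nat_lit 163871) (nat_lit 2) (.e (nat_lit 196663) (nat_lit 13) (.e (nat_lit 65571) (nat_lit 3) (.e (nat_lit 98342) (nat_lit 20) (.e (nat_lit 221204) (nat_lit 20) .nil)))))))) (.g (nat_lit 1) (.e (nat_lit 77605) (nat_lit 0) .nil) .nil))) 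
(.lf (nat_lit 467679) (.g (nat_lit 4343) (.e (nat_lit 3253) (nat_lit 197) (.e (nat_lit 532504) (nat_lit 1) (.e (nat_lit 57931) (nat_lit 282) (.e (nat_lit 163869) (nat_lit 2) (.e (nat_lit 196668) (nat_lit 14) (.e (nat_lit 73747) (nat_lit 3) (.e (nat_lit 516131) (nat_lit 3) (.e (nat_lit 221204) (nat_lit 20) .nil)))))))) (.g (nat_lit 1) (.e (nat_lit 78165) (nat_lit 0) .nil) .nil)))) (.nd (nat_lit 9) 
(.lf (nat_lit 467423) (.g (nat_lit 2881) (.e (nat_lit 3253) (nat_lit 197) (.e (nat_lit 532503) (nat_lit 1) (.e (nat_lit 57930) (nat_lit 282) (.e (nat_lit 163873) (nat_lit 3) (.e (nat_lit 204853) (nat_lit 26) (.e (nat_lit 336019) (nat_lit 3) (.e (nat_lit 98342) (nat_lit 20) (.e (nat_lit 221204) (nat_lit 20) .nil)))))))) (.g (nat_lit 1) (.e (nat_lit 77890) (nat_lit 0) .nil) .nil))) 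
(.lf (nat_lit 467935) (.g (nat_lit 3582) (.e (nat_lit 3256) (nat_lit 197) (.e (nat_lit 532503) (nat_lit 1) (.e (nat_lit 57931) (nat_lit 282) (.e (nat_lit 163869) (nat_lit 2) (.e (nat_lit 196668) (nat_lit 14) (.e (nat_lit 73747) (nat_lit 3) (.e (nat_lit 516131) (nat_lit 3) (.e (nat_lit 221197) (nat_lit 20) .nil)))))))) (.g (nat_lit 1) (.e (nat_lit 78654) (nat_lit 0) .nil) .nil))))))) 
(.nd (nat_lit 6) (.nd (nat_lit 7) (.nd (nat_lit 8) (.nd (nat_lit 9) 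
(.lf (nat_lit 467007) (.g (nat_lit 2424) (.e (nat_lit 3253) (nat_lit 197) (.e (nat_lit 532501) (nat_lit 1) (.e (nat_lit 57851) (nat_lit 252) (.e (nat_lit 57406) (nat_lit 12) (.e (nat_lit 336456) (nat_lit 34) (.e (nat_lit 483387) (nat_lit 23) (.e (nat_lit 336267) (nat_lit 15) .nil))))))) (.g (nat_lit 1) (.e (nat_lit 77414) (nat_lit 0) .nil) .nil))) 
(.lf (nat_lit 467519) (.g (nat_lit 5332) (.e (nat_lit 3253) (nat_lit 197) (.e (nat_lit 532504) (nat_lit 1) (.e (nat_lit 57852) (nat_lit 252) (.e (nat_lit 57357) (nat_lit 0) (.e (nat_lit 1858) (nat_lit 124) (.e (nat_lit 557105) (nat_lit 14) (.e (nat_lit 180252) (nat_lit 10) (.e (nat_lit 573481) (nat_lit 13) (.e (nat_lit 65637) (nat_lit 15) .nil))))))))) (.g (nat_lit 1) (.e (nat_lit 77995) (nat_lit 0) .nil) .nil)))) 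
(.nd (nat_lit 9) 
(.lf (nat_lit 467263) (.g (nat_lit 3528) (.e (nat_lit 3253) (nat_lit 197) (.e (nat_lit 532501) (nat_lit 1) (.e (nat_lit 57931) (nat_lit 282) (.e (nat_lit 163874) (nat_lit 3) (.e (nat_lit 204854) (nat_lit 26) (.e (nat_lit 336019) (nat_lit 3) (.e (nat_lit 98342) (nat_lit 20) (.e (nat_lit 221204) (nat_lit 20) .nil)))))))) (.g (nat_lit 1) (.e (nat_lit 77723) (nat_lit 0) .nil) .nil))) 
(.lf (nat_lit 467775) (.g (nat_lit 2830) (.e (nat_lit 3253) (nat_lit 197) (.e (nat_lit 532550) (nat_lit 12) (.e (nat_lit 360474) (nat_lit 8) (.e (nat_lit 557072) (nat_lit 9) .nil)))) (.g (nat_lit 0) (.e (nat_lit 78364) (nat_lit 0) .nil) .nil))))) (.nd (nat_lit 8) (.nd (nat_lit 9) 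
(.lf (nat_lit 467135) (.g (nat_lit 3946) (.e (nat_lit 3253) (nat_lit 197) (.e (nat_lit 532501) (nat_lit 1) (.e (nat_lit 57927) (nat_lit 282) (.e (nat_lit 163868) (nat_lit 2) (.e (nat_lit 196668) (nat_lit 14) (.e (nat_lit 73746) (nat_lit 3) (.e (nat_lit 516129) (nat_lit 3) (.e (nat_lit 221203) (nat_lit 20) .nil)))))))) (.g (nat_lit 1) (.e (nat_lit 77564) (nat_lit 0) .nil) .nil))) 
(.lf (nat_lit 467647) (.g (nat_lit 2331) (.e (nat_lit 3253) (nat_lit 197) (.e (nat_lit 532504) (nat_lit 1) (.e (nat_lit 57930) (nat_lit 282) (.e (nat_lit 163869) (nat_lit 2) (.e (nat_lit 196670) (nat_lit 14) (.e (nat_lit 73746) (nat_lit 3) (.e (nat_lit 516129) (nat_lit 3) (.e (nat_lit 221204) (nat_lit 20) .nil)))))))) (.g (nat_lit 1) (.e (nat_lit 78129) (nat_lit 0) .nil) .nil)))) (.nd (nat_lit 9) 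
(.lf (nat_lit 467391) (.g (nat_lit 2159) (.e (nat_lit 3253) (nat_lit 197) (.e (nat_lit 532503) (nat_lit 1) (.e (nat_lit 57929) (nat_lit 282) (.e (nat_lit 163869) (nat_lit 2) (.e (nat_lit 196668) (nat_lit 14) (.e (nat_lit 73747) (nat_lit 3) (.e (nat_lit 516131) (nat_lit 3) (.e (nat_lit 221203) (nat_lit 20) .nil)))))))) (.g (nat_lit 1) (.e (nat_lit 77857) (nat_lit 0) .nil) .nil))) 
(.lf (nat_lit 467903) (.g (nat_lit 5014) (.e (nat_lit 3255) (nat_lit 197) (.e (nat_lit 532550) (nat_lit 12) (.e (nat_lit 360475) (nat_lit 8) (.e (nat_lit 557086) (nat_lit 11) .nil)))) (.g (nat_lit 0) (.e (nat_lit 78619) (nat_lit 0) .nil) .nil)))))) (.nd (nat_lit 7) (.nd (nat_lit 8) (.nd (nat_lit 9) 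
(.lf (nat_lit 467071) (.g (nat_lit 2834) (.e (nat_lit 3253) (nat_lit 197) (.e (nat_lit 532501) (nat_lit 1) (.e (nat_lit 57926) (nat_lit 282) (.e (nat_lit 163867) (nat_lit 2) (.e (nat_lit 196668) (nat_lit 14) (.e (nat_lit 73747) (nat_lit 3) (.e (nat_lit 516129) (nat_lit 3) (.e (nat_lit 221204) (nat_lit 20) .nil)))))))) (.g (nat_lit 1) (.e (nat_lit 77485) (nat_lit 0) .nil) .nil))) 
(.lf (nat_lit 467583) (.g (nat_lit 1866) (.e (nat_lit 3253) (nat_lit 197) (.e (nat_lit 532504) (nat_lit 1) (.e (nat_lit 57854) (nat_lit 252) (.e (nat_lit 57445) (nat_lit 19) (.e (nat_lit 393227) (nat_lit 9) (.e (nat_lit 336151) (nat_lit 9) (.e (nat_lit 336300) (nat_lit 15) .nil))))))) (.g (nat_lit 1) (.e (nat_lit 78059) (nat_lit 0) .nil) .nil)))) (.nd (nat_lit 9) 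
(.lf (nat_lit 467327) (.g (nat_lit 2104) (.e (nat_lit 3253) (nat_lit 197) (.e (nat_lit 532503) (nat_lit 1) (.e (nat_lit 57848) (nat_lit 252) (.e (nat_lit 57407) (nat_lit 12) (.e (nat_lit 336456) (nat_lit 34) (.e (nat_lit 483378) (nat_lit 23) (.e (nat_lit 336282) (nat_lit 15) .nil))))))) (.g (nat_lit 1) (.e (nat_lit 77788) (nat_lit 0) .nil) .nil))) 
(.lf (nat_lit 467839) (.g (nat_lit 2437) (.e (nat_lit 3254) (nat_lit 197) (.e (nat_lit 532523) (nat_lit 7) (.e (nat_lit 319531) (nat_lit 16) (.e (nat_lit 286735) (nat_lit 3) (.e (nat_lit 98382) (nat_lit 31) .nil))))) (.g (nat_lit 0) (.e (nat_lit 78504) (nat_lit 0) .nil) .nil))))) (.nd (nat_lit 8) (.nd (nat_lit 9) 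
(.lf (nat_lit 467199) (.g (nat_lit 3476) (.e (nat_lit 3253) (nat_lit 197) (.e (nat_lit 532501) (nat_lit 1) (.e (nat_lit 57928) (nat_lit 282) (.e (nat_lit 163868) (nat_lit 2) (.e (nat_lit 196668) (nat_lit 14) (.e (nat_lit 73747) (nat_lit 3) (.e (nat_lit 516129) (nat_lit 3) (.e (nat_lit 221203) (nat_lit 20) .nil)))))))) (.g (nat_lit 1) (.e (nat_lit 77646) (nat_lit 0) .nil) .nil))) 
(.lf (nat_lit 467711) (.g (nat_lit 1872) (.e (nat_lit 3253) (nat_lit 197) (.e (nat_lit 532513) (nat_lit 3) (.e (nat_lit 114694) (nat_lit 11) (.e (nat_lit 426139) (nat_lit 3) (.e (nat_lit 204877) (nat_lit 31) (.e (nat_lit 376835) (nat_lit 0) .nil)))))) (.g (nat_lit 1) (.e (nat_lit 78200) (nat_lit 0) .nil) .nil)))) (.nd (nat_lit 9) 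
(.lf (nat_lit 467455) (.g (nat_lit 4712) (.e (nat_lit 3253) (nat_lit 197) (.e (nat_lit 532503) (nat_lit 1) (.e (nat_lit 57931) (nat_lit 282) (.e (nat_lit 163869) (nat_lit 2) (.e (nat_lit 196666) (nat_lit 13) (.e (nat_lit 65571) (nat_lit 3) (.e (nat_lit 98342) (nat_lit 20) (.e (nat_lit 221204) (nat_lit 20) .nil)))))))) (.g (nat_lit 1) (.e (nat_lit 77929) (nat_lit 0) .nil) .nil))) 
(.lf (nat_lit 467967) (.g (nat_lit 4824) (.e (nat_lit 3256) (nat_lit 197) (.e (nat_lit 532550) (nat_lit 12) (.e (nat_lit 360475) (nat_lit 8) (.e (nat_lit 557068) (nat_lit 9) .nil)))) (.g (nat_lit 0) (.e (nat_lit 78747) (nat_lit 0) .nil) .nil)))))))))))))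

noncomputable def tv5517 : DT := (.nd (nat_lit 0) (.nd (nat_lit 1) (.nd (nat_lit 2) (.nd (nat_lit 3) (.nd (nat_lit 4) (.nd (nat_lit 5) (.nd (nat_lit 6) (.nd (nat_lit 7) (.nd (nat_lit 8) (.nd (nat_lit 9) 
(.lf (nat_lit 467968) (.g (nat_lit 4560) (.e (nat_lit 3256) (nat_lit 197) (.e (nat_lit 532550) (nat_lit 12) (.e (nat_lit 360475) (nat_lit 8) (.e (nat_lit 557085) (nat_lit 11) .nil)))) (.g (nat_lit 0) (.e (nat_lit 78748) (nat_lit 0) .nil) .nil))) 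
(.lf (nat_lit 468480) (.g (nat_lit 3160) (.e (nat_lit 3274) (nat_lit 199) (.e (nat_lit 548913) (nat_lit 18) (.e (nat_lit 172124) (nat_lit 14) (.e (nat_lit 491537) (nat_lit 2) (.e (nat_lit 90185) (nat_lit 17) (.e (nat_lit 237605) (nat_lit 9) (.e (nat_lit 425986) (nat_lit 0) .nil))))))) (.g (nat_lit 1) (.e (nat_lit 80114) (nat_lit 0) .nil) .nil)))) (.nd (nat_lit 9) 
(.lf (nat_lit 468224) (.g (nat_lit 2205) (.e (nat_lit 3209) (nat_lit 195) (.e (nat_lit 516145) (nat_lit 9) (.e (nat_lit 426428) (nat_lit 17) (.e (nat_lit 90174) (nat_lit 14) (.e (nat_lit 180251) (nat_lit 10) .nil))))) (.g (nat_lit 0) (.e (nat_lit 79134) (nat_lit 0) .nil) .nil))) 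
(.lf (nat_lit 468736) (.g (nat_lit 3866) (.e (nat_lit 3297) (nat_lit 202) (.e (nat_lit 573492) (nat_lit 15) (.e (nat_lit 81956) (nat_lit 23) (.e (nat_lit 98384) (nat_lit 32) (.e (nat_lit 475208) (nat_lit 41) (.e (nat_lit 712719) (nat_lit 15) .nil)))))) (.g (nat_lit 1) (.e (nat_lit 80950) (nat_lit 0) .nil) .nil))))) (.nd (nat_lit 8) (.nd (nat_lit 9) 
(.lf (nat_lit 468096) (.g (nat_lit 3526) (.e (nat_lit 3262) (nat_lit 198) (.e (nat_lit 540706) (nat_lit 12) (.e (nat_lit 360474) (nat_lit 8) (.e (nat_lit 557093) (nat_lit 12) (.e (nat_lit 164022) (nat_lit 46) (.e (nat_lit 704738) (nat_lit 11) (.e (nat_lit 16384) (nat_lit 0) .nil))))))) (.g (nat_lit 1) (.e (nat_lit 78935) (nat_lit 0) .nil) .nil))) 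
(.lf (nat_lit 468608) (.g (nat_lit 3457) (.e (nat_lit 3297) (nat_lit 202) (.e (nat_lit 573481) (nat_lit 13) (.e (nat_lit 65619) (nat_lit 10) (.e (nat_lit 344117) (nat_lit 21) (.e (nat_lit 516097) (nat_lit 0) (.e (nat_lit 7589) (nat_lit 406) (.e (nat_lit 73472) (nat_lit 15) .nil))))))) (.g (nat_lit 1) (.e (nat_lit 80471) (nat_lit 0) .nil) .nil)))) (.nd (nat_lit 9) 
(.lf (nat_lit 468352) (.g (nat_lit 3135) (.e (nat_lit 3271) (nat_lit 199) (.e (nat_lit 548913) (nat_lit 18) (.e (nat_lit 172120) (nat_lit 12) (.e (nat_lit 475185) (nat_lit 29) (.e (nat_lit 557109) (nat_lit 15) (.e (nat_lit 188435) (nat_lit 20) .nil)))))) (.g (nat_lit 1) (.e (nat_lit 79587) (nat_lit 0) .nil) .nil))) 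
(.lf (nat_lit 468864) (.g (nat_lit 233) (.e (nat_lit 3298) (nat_lit 202) (.e (nat_lit 573492) (nat_lit 15) (.e (nat_lit 81953) (nat_lit 22) .nil))) (.g (nat_lit 0) (.e (nat_lit 81358) (nat_lit 0) .nil) .nil)))))) (.nd (nat_lit 7) (.nd (nat_lit 8) (.nd (nat_lit 9) 
(.lf (nat_lit 468032) (.g (nat_lit 2838) (.e (nat_lit 3257) (nat_lit 198) (.e (nat_lit 540706) (nat_lit 12) (.e (nat_lit 360475) (nat_lit 8) (.e (nat_lit 557091) (nat_lit 12) (.e (nat_lit 164022) (nat_lit 46) (.e (nat_lit 704738) (nat_lit 11) (.e (nat_lit 16386) (nat_lit 0) .nil))))))) (.g (nat_lit 1) (.e (nat_lit 78820) (nat_lit 0) .nil) .nil))) 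
(.lf (nat_lit 468544) (.g (nat_lit 2474) (.e (nat_lit 3295) (nat_lit 202) (.e (nat_lit 573493) (nat_lit 15) (.e (nat_lit 81962) (nat_lit 25) (.e (nat_lit 139299) (nat_lit 18) .nil)))) (.g (nat_lit 0) (.e (nat_lit 80278) (nat_lit 0) .nil) .nil)))) (.nd (nat_lit 9) 
(.lf (nat_lit 468288) (.g (nat_lit 2438) (.e (nat_lit 7936) (nat_lit 195) (.e (nat_lit 516179) (nat_lit 15) (.e (nat_lit 475179) (nat_lit 24) (.e (nat_lit 516171) (nat_lit 13) (.e (nat_lit 458795) (nat_lit 28) .nil))))) (.g (nat_lit 0) (.e (nat_lit 79231) (nat_lit 0) .nil) .nil))) 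
(.lf (nat_lit 468800) (.g (nat_lit 4275) (.e (nat_lit 3298) (nat_lit 202) (.e (nat_lit 573481) (nat_lit 13) (.e (nat_lit 65619) (nat_lit 10) (.e (nat_lit 344117) (nat_lit 21) (.e (nat_lit 516185) (nat_lit 16) (.e (nat_lit 491549) (nat_lit 9) (.e (nat_lit 336306) (nat_lit 15) .nil))))))) (.g (nat_lit 1) (.e (nat_lit 81060) (nat_lit 0) .nil) .nil))))) (.nd (nat_lit 8) (.nd (nat_lit 9) 
(.lf (nat_lit 468160) (.g (nat_lit 2317) (.e (nat_lit 3262) (nat_lit 198) (.e (nat_lit 540706) (nat_lit 12) (.e (nat_lit 360475) (nat_lit 8) (.e (nat_lit 557090) (nat_lit 12) (.e (nat_lit 164020) (nat_lit 45) (.e (nat_lit 696328) (nat_lit 5) (.e (nat_lit 2878) (nat_lit 184) (.e (nat_lit 426032) (nat_lit 0) .nil)))))))) (.g (nat_lit 1) (.e (nat_lit 79059) (nat_lit 0) .nil) .nil))) 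
(.lf (nat_lit 468672) (.g (nat_lit 2674) (.e (nat_lit 3297) (nat_lit 202) (.e (nat_lit 573484) (nat_lit 13) (.e (nat_lit 65617) (nat_lit 10) (.e (nat_lit 344130) (nat_lit 26) (.e (nat_lit 557087) (nat_lit 11) (.e (nat_lit 24630) (nat_lit 9) (.e (nat_lit 336306) (nat_lit 15) .nil))))))) (.g (nat_lit 1) (.e (nat_lit 80552) (nat_lit 0) .nil) .nil)))) (.nd (nat_lit 9) 
(.lf (nat_lit 468416) (.g (nat_lit 4610) (.e (nat_lit 3272) (nat_lit 199) (.e (nat_lit 548913) (nat_lit 18) (.e (nat_lit 172120) (nat_lit 12) (.e (nat_lit 475183) (nat_lit 29) (.e (nat_lit 557108) (nat_lit 15) (.e (nat_lit 188435) (nat_lit 20) .nil)))))) (.g (nat_lit 1) (.e (nat_lit 80018) (nat_lit 0) .nil) .nil))) 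
(.lf (nat_lit 468928) (.g (nat_lit 3795) (.e (nat_lit 3298) (nat_lit 202) (.e (nat_lit 573493) (nat_lit 15) (.e (nat_lit 81956) (nat_lit 23) (.e (nat_lit 98319) (nat_lit 17) (.e (nat_lit 7587) (nat_lit 406) .nil))))) (.g (nat_lit 0) (.e (nat_lit 81535) (nat_lit 0) .nil) .nil))))))) (.nd (nat_lit 6) (.nd (nat_lit 7) (.nd (nat_lit 8) (.nd (nat_lit 9) 
(.lf (nat_lit 468000) (.g (nat_lit 1244) (.e (nat_lit 3245) (nat_lit 197) (.e (nat_lit 532510) (nat_lit 2) (.e (nat_lit 106536) (nat_lit 11) (.e (nat_lit 16413) (nat_lit 2) (.e (nat_lit 196672) (nat_lit 15) (.e (nat_lit 89856) (nat_lit 0) .nil)))))) (.g (nat_lit 1) (.e (nat_lit 78781) (nat_lit 0) .nil) .nil))) 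
(.lf (nat_lit 468512) (.g (nat_lit 3674) (.e (nat_lit 3295) (nat_lit 202) (.e (nat_lit 573485) (nat_lit 13) (.e (nat_lit 65619) (nat_lit 10) (.e (nat_lit 344129) (nat_lit 26) (.e (nat_lit 557087) (nat_lit 11) (.e (nat_lit 24632) (nat_lit 9) (.e (nat_lit 336267) (nat_lit 15) .nil))))))) (.g (nat_lit 1) (.e (nat_lit 80183) (nat_lit 0) .nil) .nil)))) (.nd (nat_lit 9) 
(.lf (nat_lit 468256) (.g (nat_lit 1145) (.e (nat_lit 7936) (nat_lit 195) (.e (nat_lit 516160) (nat_lit 10) (.e (nat_lit 434244) (nat_lit 28) (.e (nat_lit 573481) (nat_lit 13) .nil)))) (.g (nat_lit 0) (.e (nat_lit 79199) (nat_lit 0) .nil) .nil))) 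
(.lf (nat_lit 468768) (.g (nat_lit 1724) (.e (nat_lit 3298) (nat_lit 202) (.e (nat_lit 573450) (nat_lit 9) (.e (nat_lit 375) (nat_lit 32) (.e (nat_lit 426173) (nat_lit 7) .nil)))) (.g (nat_lit 0) (.e (nat_lit 80987) (nat_lit 0) .nil) .nil))))) (.nd (nat_lit 8) (.nd (nat_lit 9) 
(.lf (nat_lit 468128) (.g (nat_lit 2965) (.e (nat_lit 3262) (nat_lit 198) (.e (nat_lit 540706) (nat_lit 12) (.e (nat_lit 360475) (nat_lit 8) (.e (nat_lit 557086) (nat_lit 11) (.e (nat_lit 24665) (nat_lit 14) (.e (nat_lit 409344) (nat_lit 0) .nil)))))) (.g (nat_lit 1) (.e (nat_lit 79019) (nat_lit 0) .nil) .nil))) 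
(.lf (nat_lit 468640) (.g (nat_lit 3039) (.e (nat_lit 3297) (nat_lit 202) (.e (nat_lit 573481) (nat_lit 13) (.e (nat_lit 65619) (nat_lit 10) (.e (nat_lit 344129) (nat_lit 26) (.e (nat_lit 557086) (nat_lit 11) (.e (nat_lit 24627) (nat_lit 9) (.e (nat_lit 336306) (nat_lit 15) .nil))))))) (.g (nat_lit 1) (.e (nat_lit 80518) (nat_lit 0) .nil) .nil)))) (.nd (nat_lit 9) 
(.lf (nat_lit 468384) (.g (nat_lit 2065) (.e (nat_lit 3271) (nat_lit 199) (.e (nat_lit 548913) (nat_lit 18) (.e (nat_lit 172126) (nat_lit 14) (.e (nat_lit 491537) (nat_lit 2) (.e (nat_lit 90176) (nat_lit 15) .nil))))) (.g (nat_lit 0) (.e (nat_lit 79619) (nat_lit 0) .nil) .nil))) 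
(.lf (nat_lit 468896) (.g (nat_lit 2936) (.e (nat_lit 3298) (nat_lit 202) (.e (nat_lit 573492) (nat_lit 15) (.e (nat_lit 81956) (nat_lit 23) (.e (nat_lit 98388) (nat_lit 33) (.e (nat_lit 491548) (nat_lit 9) (.e (nat_lit 336306) (nat_lit 15) .nil)))))) (.g (nat_lit 1) (.e (nat_lit 81483) (nat_lit 0) .nil) .nil)))))) (.nd (nat_lit 7) (.nd (nat_lit 8) (.nd (nat_lit 9) 
(.lf (nat_lit 468064) (.g (nat_lit 3862) (.e (nat_lit 3259) (nat_lit 198) (.e (nat_lit 540706) (nat_lit 12) (.e (nat_lit 360475) (nat_lit 8) (.e (nat_lit 557090) (nat_lit 12) (.e (nat_lit 164020) (nat_lit 45) (.e (nat_lit 696344) (nat_lit 8) (.e (nat_lit 172040) (nat_lit 0) .nil))))))) (.g (nat_lit 1) (.e (nat_lit 78873) (nat_lit 0) .nil) .nil))) 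
(.lf (nat_lit 468576) (.g (nat_lit 3034) (.e (nat_lit 3297) (nat_lit 202) (.e (nat_lit 573471) (nat_lit 11) (.e (nat_lit 16425) (nat_lit 7) (.e (nat_lit 409617) (nat_lit 10) (.e (nat_lit 7936) (nat_lit 43) (.e (nat_lit 516164) (nat_lit 11) (.e (nat_lit 442407) (nat_lit 20) .nil))))))) (.g (nat_lit 1) (.e (nat_lit 80379) (nat_lit 0) .nil) .nil)))) (.nd (nat_lit 9) 
(.lf (nat_lit 468320) (.g (nat_lit 1481) (.e (nat_lit 3270) (nat_lit 199) (.e (nat_lit 548913) (nat_lit 18) (.e (nat_lit 172124) (nat_lit 14) (.e (nat_lit 491540) (nat_lit 3) .nil)))) (.g (nat_lit 0) (.e (nat_lit 79388) (nat_lit 0) .nil) .nil))) 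
(.lf (nat_lit 468832) (.g (nat_lit 2227) (.e (nat_lit 3298) (nat_lit 202) (.e (nat_lit 573482) (nat_lit 13) (.e (nat_lit 65619) (nat_lit 10) (.e (nat_lit 344117) (nat_lit 21) (.e (nat_lit 516183) (nat_lit 16) .nil))))) (.g (nat_lit 0) (.e (nat_lit 81112) (nat_lit 0) .nil) .nil))))) (.nd (nat_lit 8) (.nd (nat_lit 9) 
(.lf (nat_lit 468192) (.g (nat_lit 3483) (.e (nat_lit 3262) (nat_lit 198) (.e (nat_lit 540706) (nat_lit 12) (.e (nat_lit 360475) (nat_lit 8) (.e (nat_lit 557091) (nat_lit 12) (.e (nat_lit 163849) (nat_lit 0) (.e (nat_lit 6420) (nat_lit 341) (.e (nat_lit 163902) (nat_lit 12) (.e (nat_lit 425985) (nat_lit 0) .nil)))))))) (.g (nat_lit 1) (.e (nat_lit 79094) (nat_lit 0) .nil) .nil))) 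
(.lf (nat_lit 468704) (.g (nat_lit 3424) (.e (nat_lit 3297) (nat_lit 202) (.e (nat_lit 573491) (nat_lit 15) (.e (nat_lit 81956) (nat_lit 23) (.e (nat_lit 98388) (nat_lit 33) (.e (nat_lit 491548) (nat_lit 9) .nil))))) (.g (nat_lit 0) (.e (nat_lit 80785) (nat_lit 0) .nil) .nil)))) (.nd (nat_lit 9) 
(.lf (nat_lit 468448) (.g (nat_lit 3898) (.e (nat_lit 3272) (nat_lit 199) (.e (nat_lit 548913) (nat_lit 18) (.e (nat_lit 172125) (nat_lit 14) (.e (nat_lit 491536) (nat_lit 2) (.e (nat_lit 90178) (nat_lit 15) (.e (nat_lit 188441) (nat_lit 20) .nil)))))) (.g (nat_lit 1) (.e (nat_lit 80051) (nat_lit 0) .nil) .nil))) 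
(.lf (nat_lit 468960) (.g (nat_lit 3270) (.e (nat_lit 3302) (nat_lit 202) (.e (nat_lit 573471) (nat_lit 11) (.e (nat_lit 16425) (nat_lit 7) (.e (nat_lit 409616) (nat_lit 10) (.e (nat_lit 7936) (nat_lit 43) .nil))))) (.g (nat_lit 0) (.e (nat_lit 81640) (nat_lit 0) .nil) .nil)))))))) (.nd (nat_lit 5) (.nd (nat_lit 6) (.nd (nat_lit 7) (.nd (nat_lit 8) (.nd (nat_lit 9) 
(.lf (nat_lit 467984) (.g (nat_lit 2555) (.e (nat_lit 3244) (nat_lit 197) (.e (nat_lit 532503) (nat_lit 1) (.e (nat_lit 57931) (nat_lit 282) (.e (nat_lit 163867) (nat_lit 2) (.e (nat_lit 196670) (nat_lit 14) (.e (nat_lit 73746) (nat_lit 3) (.e (nat_lit 516129) (nat_lit 3) (.e (nat_lit 221198) (nat_lit 20) .nil)))))))) (.g (nat_lit 1) (.e (nat_lit 78764) (nat_lit 0) .nil) .nil))) 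
(.lf (nat_lit 468496) (.g (nat_lit 2028) (.e (nat_lit 3295) (nat_lit 202) (.e (nat_lit 573484) (nat_lit 13) (.e (nat_lit 65610) (nat_lit 10) (.e (nat_lit 344117) (nat_lit 21) .nil)))) (.g (nat_lit 0) (.e (nat_lit 80148) (nat_lit 0) .nil) .nil)))) (.nd (nat_lit 9) 
(.lf (nat_lit 468240) (.g (nat_lit 1495) (.e (nat_lit 3214) (nat_lit 195) (.e (nat_lit 516129) (nat_lit 3) (.e (nat_lit 221210) (nat_lit 22) (.e (nat_lit 196663) (nat_lit 13) .nil)))) (.g (nat_lit 0) (.e (nat_lit 79172) (nat_lit 0) .nil) .nil))) 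
(.lf (nat_lit 468752) (.g (nat_lit 3618) (.e (nat_lit 3297) (nat_lit 202) (.e (nat_lit 573492) (nat_lit 15) (.e (nat_lit 81956) (nat_lit 23) (.e (nat_lit 98388) (nat_lit 33) (.e (nat_lit 491550) (nat_lit 9) (.e (nat_lit 336306) (nat_lit 15) .nil)))))) (.g (nat_lit 1) (.e (nat_lit 80966) (nat_lit 0) .nil) .nil))))) (.nd (nat_lit 8) (.nd (nat_lit 9) 
(.lf (nat_lit 468112) (.g (nat_lit 163) (.e (nat_lit 3262) (nat_lit 198) (.e (nat_lit 540706) (nat_lit 12) (.e (nat_lit 360475) (nat_lit 8) .nil))) (.g (nat_lit 0) (.e (nat_lit 78952) (nat_lit 0) .nil) .nil))) 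
(.lf (nat_lit 468624) (.g (nat_lit 3994) (.e (nat_lit 3297) (nat_lit 202) (.e (nat_lit 573481) (nat_lit 13) (.e (nat_lit 65619) (nat_lit 10) (.e (nat_lit 344117) (nat_lit 21) (.e (nat_lit 516183) (nat_lit 16) (.e (nat_lit 491549) (nat_lit 9) (.e (nat_lit 336306) (nat_lit 15) .nil))))))) (.g (nat_lit 1) (.e (nat_lit 80493) (nat_lit 0) .nil) .nil)))) (.nd (nat_lit 9) 
(.lf (nat_lit 468368) (.g (nat_lit 2940) (.e (nat_lit 3271) (nat_lit 199) (.e (nat_lit 548913) (nat_lit 18) (.e (nat_lit 172125) (nat_lit 14) (.e (nat_lit 491535) (nat_lit 2) (.e (nat_lit 90176) (nat_lit 15) (.e (nat_lit 188439) (nat_lit 20) .nil)))))) (.g (nat_lit 1) (.e (nat_lit 79603) (nat_lit 0) .nil) .nil))) 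
(.lf (nat_lit 468880) (.g (nat_lit 1358) (.e (nat_lit 3298) (nat_lit 202) (.e (nat_lit 573492) (nat_lit 15) (.e (nat_lit 81956) (nat_lit 23) (.e (nat_lit 98325) (nat_lit 17) .nil)))) (.g (nat_lit 0) (.e (nat_lit 81419) (nat_lit 0) .nil) .nil)))))) (.nd (nat_lit 7) (.nd (nat_lit 8) (.nd (nat_lit 9) 
(.lf (nat_lit 468048) (.g (nat_lit 2145) (.e (nat_lit 3258) (nat_lit 198) (.e (nat_lit 540706) (nat_lit 12) (.e (nat_lit 360475) (nat_lit 8) (.e (nat_lit 557090) (nat_lit 12) (.e (nat_lit 164020) (nat_lit 45) (.e (nat_lit 696343) (nat_lit 8) (.e (nat_lit 172043) (nat_lit 0) .nil))))))) (.g (nat_lit 1) (.e (nat_lit 78847) (nat_lit 0) .nil) .nil))) 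
(.lf (nat_lit 468560) (.g (nat_lit 4081) (.e (nat_lit 3296) (nat_lit 202) (.e (nat_lit 573492) (nat_lit 15) (.e (nat_lit 81956) (nat_lit 23) (.e (nat_lit 98388) (nat_lit 33) .nil)))) (.g (nat_lit 0) (.e (nat_lit 80334) (nat_lit 0) .nil) .nil)))) (.nd (nat_lit 9) 
(.lf (nat_lit 468304) (.g (nat_lit 4143) (.e (nat_lit 3270) (nat_lit 199) (.e (nat_lit 548913) (nat_lit 18) (.e (nat_lit 172120) (nat_lit 12) (.e (nat_lit 475183) (nat_lit 29) (.e (nat_lit 557108) (nat_lit 15) (.e (nat_lit 188434) (nat_lit 20) .nil)))))) (.g (nat_lit 1) (.e (nat_lit 79372) (nat_lit 0) .nil) .nil))) 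
(.lf (nat_lit 468816) (.g (nat_lit 1866) (.e (nat_lit 3298) (nat_lit 202) (.e (nat_lit 573481) (nat_lit 13) (.e (nat_lit 65628) (nat_lit 14) (.e (nat_lit 401428) (nat_lit 3) (.e (nat_lit 204876) (nat_lit 31) (.e (nat_lit 384768) (nat_lit 0) .nil)))))) (.g (nat_lit 1) (.e (nat_lit 81094) (nat_lit 0) .nil) .nil))))) (.nd (nat_lit 8) (.nd (nat_lit 9) 
(.lf (nat_lit 468176) (.g (nat_lit 1556) (.e (nat_lit 3262) (nat_lit 198) (.e (nat_lit 540706) (nat_lit 12) (.e (nat_lit 360475) (nat_lit 8) (.e (nat_lit 557091) (nat_lit 12) .nil)))) (.g (nat_lit 0) (.e (nat_lit 79076) (nat_lit 0) .nil) .nil))) 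
(.lf (nat_lit 468688) (.g (nat_lit 2311) (.e (nat_lit 3297) (nat_lit 202) (.e (nat_lit 573491) (nat_lit 15) (.e (nat_lit 81954) (nat_lit 23) (.e (nat_lit 98386) (nat_lit 32) (.e (nat_lit 475208) (nat_lit 41) .nil))))) (.g (nat_lit 0) (.e (nat_lit 80768) (nat_lit 0) .nil) .nil)))) (.nd (nat_lit 9) 
(.lf (nat_lit 468432) (.g (nat_lit 3050) (.e (nat_lit 3272) (nat_lit 199) (.e (nat_lit 548913) (nat_lit 18) (.e (nat_lit 172124) (nat_lit 14) (.e (nat_lit 491537) (nat_lit 2) (.e (nat_lit 90175) (nat_lit 15) .nil))))) (.g (nat_lit 0) (.e (nat_lit 80035) (nat_lit 0) .nil) .nil))) 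
(.lf (nat_lit 468944) (.g (nat_lit 3498) (.e (nat_lit 3298) (nat_lit 202) (.e (nat_lit 573493) (nat_lit 15) (.e (nat_lit 81956) (nat_lit 23) (.e (nat_lit 98387) (nat_lit 33) (.e (nat_lit 491548) (nat_lit 9) (.e (nat_lit 336306) (nat_lit 15) .nil)))))) (.g (nat_lit 1) (.e (nat_lit 81569) (nat_lit 0) .nil) .nil))))))) (.nd (nat_lit 6) (.nd (nat_lit 7) (.nd (nat_lit 8) (.nd (nat_lit 9) 
(.lf (nat_lit 468016) (.g (nat_lit 2174) (.e (nat_lit 3247) (nat_lit 197) (.e (nat_lit 532504) (nat_lit 1) (.e (nat_lit 57851) (nat_lit 252) (.e (nat_lit 57406) (nat_lit 12) (.e (nat_lit 336454) (nat_lit 34) .nil))))) (.g (nat_lit 0) (.e (nat_lit 78799) (nat_lit 0) .nil) .nil))) 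
(.lf (nat_lit 468528) (.g (nat_lit 3422) (.e (nat_lit 3295) (nat_lit 202) (.e (nat_lit 573492) (nat_lit 15) (.e (nat_lit 81956) (nat_lit 23) (.e (nat_lit 98389) (nat_lit 33) (.e (nat_lit 491552) (nat_lit 9) .nil))))) (.g (nat_lit 0) (.e (nat_lit 80236) (nat_lit 0) .nil) .nil)))) (.nd (nat_lit 9) 
(.lf (nat_lit 468272) (.g (nat_lit 1718) (.e (nat_lit 7936) (nat_lit 195) (.e (nat_lit 516160) (nat_lit 10) (.e (nat_lit 434247) (nat_lit 28) (.e (nat_lit 573485) (nat_lit 13) (.e (nat_lit 65558) (nat_lit 0) .nil))))) (.g (nat_lit 0) (.e (nat_lit 79215) (nat_lit 0) .nil) .nil))) 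
(.lf (nat_lit 468784) (.g (nat_lit 2939) (.e (nat_lit 3298) (nat_lit 202) (.e (nat_lit 573481) (nat_lit 13) (.e (nat_lit 65604) (nat_lit 9) (.e (nat_lit 336028) (nat_lit 3) (.e (nat_lit 98325) (nat_lit 17) (.e (nat_lit 6986) (nat_lit 377) (.e (nat_lit 2781) (nat_lit 178) (.e (nat_lit 294656) (nat_lit 15) .nil)))))))) (.g (nat_lit 1) (.e (nat_lit 81019) (nat_lit 0) .nil) .nil))))) 
(.nd (nat_lit 8) (.nd (nat_lit 9) 
(.lf (nat_lit 468144) (.g (nat_lit 4245) (.e (nat_lit 3262) (nat_lit 198) (.e (nat_lit 540706) (nat_lit 12) (.e (nat_lit 360475) (nat_lit 8) (.e (nat_lit 557089) (nat_lit 12) (.e (nat_lit 163849) (nat_lit 0) (.e (nat_lit 6416) (nat_lit 341) (.e (nat_lit 163908) (nat_lit 12) (.e (nat_lit 426003) (nat_lit 0) .nil)))))))) (.g (nat_lit 1) (.e (nat_lit 79035) (nat_lit 0) .nil) .nil))) 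
(.lf (nat_lit 468656) (.g (nat_lit 2111) (.e (nat_lit 3297) (nat_lit 202) (.e (nat_lit 573481) (nat_lit 13) (.e (nat_lit 65628) (nat_lit 14) (.e (nat_lit 401428) (nat_lit 3) (.e (nat_lit 204877) (nat_lit 31) (.e (nat_lit 384768) (nat_lit 0) .nil)))))) (.g (nat_lit 1) (.e (nat_lit 80534) (nat_lit 0) .nil) .nil)))) (.nd (nat_lit 9) 
(.lf (nat_lit 468400) (.g (nat_lit 3332) (.e (nat_lit 3272) (nat_lit 199) (.e (nat_lit 548898) (nat_lit 14) (.e (nat_lit 3004) (nat_lit 186) (.e (nat_lit 442374) (nat_lit 0) (.e (nat_lit 1856) (nat_lit 124) (.e (nat_lit 557107) (nat_lit 15) (.e (nat_lit 188440) (nat_lit 20) .nil))))))) (.g (nat_lit 1) (.e (nat_lit 79722) (nat_lit 0) .nil) .nil))) 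
(.lf (nat_lit 468912) (.g (nat_lit 5676) (.e (nat_lit 3298) (nat_lit 202) (.e (nat_lit 573493) (nat_lit 15) (.e (nat_lit 81953) (nat_lit 22) (.e (nat_lit 90123) (nat_lit 9) .nil)))) (.g (nat_lit 0) (.e (nat_lit 81512) (nat_lit 0) .nil) .nil)))))) (.nd (nat_lit 7) (.nd (nat_lit 8) (.nd (nat_lit 9) 
(.lf (nat_lit 468080) (.g (nat_lit 2102) (.e (nat_lit 3262) (nat_lit 198) (.e (nat_lit 540706) (nat_lit 12) (.e (nat_lit 360474) (nat_lit 8) (.e (nat_lit 557091) (nat_lit 12) .nil)))) (.g (nat_lit 0) (.e (nat_lit 78919) (nat_lit 0) .nil) .nil))) 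
(.lf (nat_lit 468592) (.g (nat_lit 2146) (.e (nat_lit 3297) (nat_lit 202) (.e (nat_lit 573477) (nat_lit 12) (.e (nat_lit 57574) (nat_lit 55) (.e (nat_lit 778466) (nat_lit 11) (.e (nat_lit 24604) (nat_lit 2) (.e (nat_lit 90176) (nat_lit 15) (.e (nat_lit 188439) (nat_lit 20) .nil))))))) (.g (nat_lit 1) (.e (nat_lit 80409) (nat_lit 0) .nil) .nil)))) (.nd (nat_lit 9) 
(.lf (nat_lit 468336) (.g (nat_lit 2544) (.e (nat_lit 3270) (nat_lit 199) (.e (nat_lit 548915) (nat_lit 20) (.e (nat_lit 188418) (nat_lit 0) (.e (nat_lit 1856) (nat_lit 124) (.e (nat_lit 557107) (nat_lit 15) (.e (nat_lit 188439) (nat_lit 20) .nil)))))) (.g (nat_lit 1) (.e (nat_lit 79404) (nat_lit 0) .nil) .nil))) 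
(.lf (nat_lit 468848) (.g (nat_lit 2203) (.e (nat_lit 3298) (nat_lit 202) (.e (nat_lit 573491) (nat_lit 15) (.e (nat_lit 81954) (nat_lit 23) (.e (nat_lit 98325) (nat_lit 17) (.e (nat_lit 6986) (nat_lit 377) (.e (nat_lit 2781) (nat_lit 178) (.e (nat_lit 294656) (nat_lit 15) .nil))))))) (.g (nat_lit 1) (.e (nat_lit 81296) (nat_lit 0) .nil) .nil))))) (.nd (nat_lit 8) (.nd (nat_lit 9) 
(.lf (nat_lit 468208) (.g (nat_lit 4023) (.e (nat_lit 3262) (nat_lit 198) (.e (nat_lit 540706) (nat_lit 12) (.e (nat_lit 360475) (nat_lit 8) (.e (nat_lit 557091) (nat_lit 12) (.e (nat_lit 164022) (nat_lit 46) (.e (nat_lit 704737) (nat_lit 11) (.e (nat_lit 16391) (nat_lit 0) .nil))))))) (.g (nat_lit 1) (.e (nat_lit 79112) (nat_lit 0) .nil) .nil))) 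
(.lf (nat_lit 468720) (.g (nat_lit 3511) (.e (nat_lit 3297) (nat_lit 202) (.e (nat_lit 573492) (nat_lit 15) (.e (nat_lit 81956) (nat_lit 23) (.e (nat_lit 98320) (nat_lit 17) (.e (nat_lit 7589) (nat_lit 406) (.e (nat_lit 73472) (nat_lit 15) .nil)))))) (.g (nat_lit 1) (.e (nat_lit 80885) (nat_lit 0) .nil) .nil)))) (.nd (nat_lit 9) 
(.lf (nat_lit 468464) (.g (nat_lit 3366) (.e (nat_lit 3272) (nat_lit 199) (.e (nat_lit 548913) (nat_lit 18) (.e (nat_lit 172126) (nat_lit 14) (.e (nat_lit 491536) (nat_lit 2) (.e (nat_lit 90178) (nat_lit 15) (.e (nat_lit 188441) (nat_lit 20) .nil)))))) (.g (nat_lit 1) (.e (nat_lit 80072) (nat_lit 0) .nil) .nil))) 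
(.lf (nat_lit 468976) (.g (nat_lit 1438) (.e (nat_lit 3302) (nat_lit 202) (.e (nat_lit 573481) (nat_lit 13) (.e (nat_lit 65619) (nat_lit 10) (.e (nat_lit 344129) (nat_lit 26) .nil)))) (.g (nat_lit 0) (.e (nat_lit 81677) (nat_lit 0) .nil) .nil))))))))) (.nd (nat_lit 4) (.nd (nat_lit 5) (.nd (nat_lit 6) (.nd (nat_lit 7) (.nd (nat_lit 8) (.nd (nat_lit 9) 
(.lf (nat_lit 467976) (.g (nat_lit 5501) (.e (nat_lit 3256) (nat_lit 197) (.e (nat_lit 532550) (nat_lit 12) (.e (nat_lit 360475) (nat_lit 8) (.e (nat_lit 557091) (nat_lit 12) (.e (nat_lit 164022) (nat_lit 46) (.e (nat_lit 704737) (nat_lit 11) (.e (nat_lit 16391) (nat_lit 0) .nil))))))) (.g (nat_lit 1) (.e (nat_lit 78756) (nat_lit 0) .nil) .nil))) 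
(.lf (nat_lit 468488) (.g (nat_lit 674) (.e (nat_lit 3295) (nat_lit 202) (.e (nat_lit 573481) (nat_lit 13) (.e (nat_lit 65619) (nat_lit 10) .nil))) (.g (nat_lit 0) (.e (nat_lit 80137) (nat_lit 0) .nil) .nil)))) (.nd (nat_lit 9) 
(.lf (nat_lit 468232) (.g (nat_lit 2184) (.e (nat_lit 3212) (nat_lit 195) (.e (nat_lit 516130) (nat_lit 3) (.e (nat_lit 221211) (nat_lit 22) (.e (nat_lit 196666) (nat_lit 13) (.e (nat_lit 65566) (nat_lit 2) (.e (nat_lit 98048) (nat_lit 2) (.e (nat_lit 16388) (nat_lit 0) .nil))))))) (.g (nat_lit 1) (.e (nat_lit 79149) (nat_lit 0) .nil) .nil))) 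
(.lf (nat_lit 468744) (.g (nat_lit 3405) (.e (nat_lit 3297) (nat_lit 202) (.e (nat_lit 573492) (nat_lit 15) (.e (nat_lit 81956) (nat_lit 23) (.e (nat_lit 98386) (nat_lit 32) (.e (nat_lit 475208) (nat_lit 41) .nil))))) (.g (nat_lit 0) (.e (nat_lit 80958) (nat_lit 0) .nil) .nil))))) (.nd (nat_lit 8) (.nd (nat_lit 9) 
(.lf (nat_lit 468104) (.g (nat_lit 1447) (.e (nat_lit 3262) (nat_lit 198) (.e (nat_lit 540706) (nat_lit 12) (.e (nat_lit 360474) (nat_lit 8) (.e (nat_lit 557094) (nat_lit 12) (.e (nat_lit 164016) (nat_lit 44) .nil))))) (.g (nat_lit 0) (.e (nat_lit 78943) (nat_lit 0) .nil) .nil))) 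
(.lf (nat_lit 468616) (.g (nat_lit 4731) (.e (nat_lit 3297) (nat_lit 202) (.e (nat_lit 573481) (nat_lit 13) (.e (nat_lit 65619) (nat_lit 10) (.e (nat_lit 344117) (nat_lit 21) (.e (nat_lit 516145) (nat_lit 9) (.e (nat_lit 426364) (nat_lit 15) (.e (nat_lit 2160) (nat_lit 143) (.e (nat_lit 712719) (nat_lit 15) .nil)))))))) (.g (nat_lit 1) (.e (nat_lit 80485) (nat_lit 0) .nil) .nil)))) 
(.nd (nat_lit 9) 
(.lf (nat_lit 468360) (.g (nat_lit 3913) (.e (nat_lit 3271) (nat_lit 199) (.e (nat_lit 548913) (nat_lit 18) (.e (nat_lit 172124) (nat_lit 14) (.e (nat_lit 491537) (nat_lit 2) (.e (nat_lit 90178) (nat_lit 15) (.e (nat_lit 188440) (nat_lit 20) .nil)))))) (.g (nat_lit 1) (.e (nat_lit 79595) (nat_lit 0) .nil) .nil))) 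
(.lf (nat_lit 468872) (.g (nat_lit 2630) (.e (nat_lit 3298) (nat_lit 202) (.e (nat_lit 573492) (nat_lit 15) (.e (nat_lit 81956) (nat_lit 23) (.e (nat_lit 98319) (nat_lit 17) (.e (nat_lit 7589) (nat_lit 406) (.e (nat_lit 73472) (nat_lit 15) .nil)))))) (.g (nat_lit 1) (.e (nat_lit 81407) (nat_lit 0) .nil) .nil)))))) (.nd (nat_lit 7) (.nd (nat_lit 8) (.nd (nat_lit 9) 
(.lf (nat_lit 468040) (.g (nat_lit 2423) (.e (nat_lit 3258) (nat_lit 198) (.e (nat_lit 540706) (nat_lit 12) (.e (nat_lit 360475) (nat_lit 8) (.e (nat_lit 557086) (nat_lit 11) (.e (nat_lit 24664) (nat_lit 14) (.e (nat_lit 401414) (nat_lit 0) .nil)))))) (.g (nat_lit 1) (.e (nat_lit 78835) (nat_lit 0) .nil) .nil))) 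
(.lf (nat_lit 468552) (.g (nat_lit 1780) (.e (nat_lit 3296) (nat_lit 202) (.e (nat_lit 573477) (nat_lit 12) (.e (nat_lit 57575) (nat_lit 55) (.e (nat_lit 778466) (nat_lit 11) (.e (nat_lit 24603) (nat_lit 2) .nil))))) (.g (nat_lit 0) (.e (nat_lit 80292) (nat_lit 0) .nil) .nil)))) (.nd (nat_lit 9) 
(.lf (nat_lit 468296) (.g (nat_lit 2710) (.e (nat_lit 3266) (nat_lit 199) (.e (nat_lit 548913) (nat_lit 18) (.e (nat_lit 172126) (nat_lit 14) (.e (nat_lit 491539) (nat_lit 3) (.e (nat_lit 98381) (nat_lit 31) .nil))))) (.g (nat_lit 0) (.e (nat_lit 79251) (nat_lit 0) .nil) .nil))) 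
(.lf (nat_lit 468808) (.g (nat_lit 4107) (.e (nat_lit 3298) (nat_lit 202) (.e (nat_lit 573481) (nat_lit 13) (.e (nat_lit 65619) (nat_lit 10) (.e (nat_lit 344129) (nat_lit 26) (.e (nat_lit 557087) (nat_lit 11) (.e (nat_lit 24628) (nat_lit 9) (.e (nat_lit 336306) (nat_lit 15) .nil))))))) (.g (nat_lit 1) (.e (nat_lit 81086) (nat_lit 0) .nil) .nil))))) (.nd (nat_lit 8) (.nd (nat_lit 9) 
(.lf (nat_lit 468168) (.g (nat_lit 2271) (.e (nat_lit 3262) (nat_lit 198) (.e (nat_lit 540706) (nat_lit 12) (.e (nat_lit 360475) (nat_lit 8) (.e (nat_lit 557090) (nat_lit 12) (.e (nat_lit 164020) (nat_lit 45) (.e (nat_lit 696329) (nat_lit 5) (.e (nat_lit 2885) (nat_lit 184) (.e (nat_lit 426032) (nat_lit 0) .nil)))))))) (.g (nat_lit 1) (.e (nat_lit 79068) (nat_lit 0) .nil) .nil))) 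
(.lf (nat_lit 468680) (.g (nat_lit 1226) (.e (nat_lit 3297) (nat_lit 202) (.e (nat_lit 573491) (nat_lit 15) (.e (nat_lit 81951) (nat_lit 22) (.e (nat_lit 90165) (nat_lit 12) .nil)))) (.g (nat_lit 0) (.e (nat_lit 80722) (nat_lit 0) .nil) .nil)))) (.nd (nat_lit 9) 
(.lf (nat_lit 468424) (.g (nat_lit 3757) (.e (nat_lit 3272) (nat_lit 199) (.e (nat_lit 548913) (nat_lit 18) (.e (nat_lit 172120) (nat_lit 12) (.e (nat_lit 475185) (nat_lit 29) (.e (nat_lit 557109) (nat_lit 15) (.e (nat_lit 188435) (nat_lit 20) .nil)))))) (.g (nat_lit 1) (.e (nat_lit 80026) (nat_lit 0) .nil) .nil))) 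
(.lf (nat_lit 468936) (.g (nat_lit 2791) (.e (nat_lit 3298) (nat_lit 202) (.e (nat_lit 573493) (nat_lit 15) (.e (nat_lit 81956) (nat_lit 23) (.e (nat_lit 98325) (nat_lit 17) (.e (nat_lit 6986) (nat_lit 377) .nil))))) (.g (nat_lit 0) (.e (nat_lit 81544) (nat_lit 0) .nil) .nil))))))) (.nd (nat_lit 6) (.nd (nat_lit 7) (.nd (nat_lit 8) (.nd (nat_lit 9) 
(.lf (nat_lit 468008) (.g (nat_lit 2229) (.e (nat_lit 3246) (nat_lit 197) (.e (nat_lit 532504) (nat_lit 1) (.e (nat_lit 57851) (nat_lit 252) (.e (nat_lit 57446) (nat_lit 19) .nil)))) (.g (nat_lit 0) (.e (nat_lit 78791) (nat_lit 0) .nil) .nil))) 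
(.lf (nat_lit 468520) (.g (nat_lit 2683) (.e (nat_lit 3295) (nat_lit 202) (.e (nat_lit 573489) (nat_lit 14) (.e (nat_lit 73755) (nat_lit 8) (.e (nat_lit 557098) (nat_lit 13) .nil)))) (.g (nat_lit 0) (.e (nat_lit 80200) (nat_lit 0) .nil) .nil)))) (.nd (nat_lit 9) 
(.lf (nat_lit 468264) (.g (nat_lit 1777) (.e (nat_lit 7936) (nat_lit 195) (.e (nat_lit 516160) (nat_lit 10) (.e (nat_lit 434245) (nat_lit 28) (.e (nat_lit 573481) (nat_lit 13) (.e (nat_lit 65567) (nat_lit 2) .nil))))) (.g (nat_lit 0) (.e (nat_lit 79207) (nat_lit 0) .nil) .nil))) 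
(.lf (nat_lit 468776) (.g (nat_lit 2804) (.e (nat_lit 3298) (nat_lit 202) (.e (nat_lit 573481) (nat_lit 13) (.e (nat_lit 65604) (nat_lit 9) (.e (nat_lit 336013) (nat_lit 2) (.e (nat_lit 90134) (nat_lit 9) (.e (nat_lit 3096) (nat_lit 192) (.e (nat_lit 491549) (nat_lit 9) (.e (nat_lit 336306) (nat_lit 15) .nil)))))))) (.g (nat_lit 1) (.e (nat_lit 81009) (nat_lit 0) .nil) .nil))))) 
(.nd (nat_lit 8) (.nd (nat_lit 9) 
(.lf (nat_lit 468136) (.g (nat_lit 4290) (.e (nat_lit 3262) (nat_lit 198) (.e (nat_lit 540706) (nat_lit 12) (.e (nat_lit 360475) (nat_lit 8) (.e (nat_lit 557089) (nat_lit 12) (.e (nat_lit 163843) (nat_lit 0) (.e (nat_lit 6420) (nat_lit 341) (.e (nat_lit 163902) (nat_lit 12) (.e (nat_lit 425986) (nat_lit 0) .nil)))))))) (.g (nat_lit 1) (.e (nat_lit 79027) (nat_lit 0) .nil) .nil))) 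
(.lf (nat_lit 468648) (.g (nat_lit 2790) (.e (nat_lit 3297) (nat_lit 202) (.e (nat_lit 573481) (nat_lit 13) (.e (nat_lit 65624) (nat_lit 12) (.e (nat_lit 385074) (nat_lit 31) (.e (nat_lit 573493) (nat_lit 15) (.e (nat_lit 89856) (nat_lit 0) .nil)))))) (.g (nat_lit 1) (.e (nat_lit 80526) (nat_lit 0) .nil) .nil)))) (.nd (nat_lit 9) 
(.lf (nat_lit 468392) (.g (nat_lit 2812) (.e (nat_lit 3271) (nat_lit 199) (.e (nat_lit 548915) (nat_lit 20) (.e (nat_lit 188418) (nat_lit 0) (.e (nat_lit 1856) (nat_lit 124) (.e (nat_lit 557107) (nat_lit 15) (.e (nat_lit 188440) (nat_lit 20) .nil)))))) (.g (nat_lit 1) (.e (nat_lit 79629) (nat_lit 0) .nil) .nil))) 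
(.lf (nat_lit 468904) (.g (nat_lit 3049) (.e (nat_lit 3298) (nat_lit 202) (.e (nat_lit 573492) (nat_lit 15) (.e (nat_lit 81956) (nat_lit 23) (.e (nat_lit 98389) (nat_lit 33) (.e (nat_lit 491552) (nat_lit 9) (.e (nat_lit 343808) (nat_lit 15) .nil)))))) (.g (nat_lit 1) (.e (nat_lit 81491) (nat_lit 0) .nil) .nil)))))) (.nd (nat_lit 7) (.nd (nat_lit 8) (.nd (nat_lit 9) 
(.lf (nat_lit 468072) (.g (nat_lit 2773) (.e (nat_lit 3260) (nat_lit 198) (.e (nat_lit 540706) (nat_lit 12) (.e (nat_lit 360475) (nat_lit 8) (.e (nat_lit 557091) (nat_lit 12) (.e (nat_lit 164022) (nat_lit 46) (.e (nat_lit 704736) (nat_lit 11) (.e (nat_lit 16391) (nat_lit 0) .nil))))))) (.g (nat_lit 1) (.e (nat_lit 78892) (nat_lit 0) .nil) .nil))) 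
(.lf (nat_lit 468584) (.g (nat_lit 7049) (.e (nat_lit 3297) (nat_lit 202) (.e (nat_lit 573471) (nat_lit 11) (.e (nat_lit 16470) (nat_lit 14) (.e (nat_lit 491537) (nat_lit 2) (.e (nat_lit 90178) (nat_lit 15) .nil))))) (.g (nat_lit 0) (.e (nat_lit 80395) (nat_lit 0) .nil) .nil)))) (.nd (nat_lit 9) 
(.lf (nat_lit 468328) (.g (nat_lit 1875) (.e (nat_lit 3270) (nat_lit 199) (.e (nat_lit 548913) (nat_lit 18) (.e (nat_lit 172126) (nat_lit 14) (.e (nat_lit 491524) (nat_lit 0) .nil)))) (.g (nat_lit 0) (.e (nat_lit 79396) (nat_lit 0) .nil) .nil))) 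
(.lf (nat_lit 468840) (.g (nat_lit 923) (.e (nat_lit 3298) (nat_lit 202) (.e (nat_lit 573484) (nat_lit 13) (.e (nat_lit 65610) (nat_lit 10) .nil))) (.g (nat_lit 0) (.e (nat_lit 81120) (nat_lit 0) .nil) .nil))))) (.nd (nat_lit 8) (.nd (nat_lit 9) 
(.lf (nat_lit 468200) (.g (nat_lit 3982) (.e (nat_lit 3262) (nat_lit 198) (.e (nat_lit 540706) (nat_lit 12) (.e (nat_lit 360475) (nat_lit 8) (.e (nat_lit 557091) (nat_lit 12) (.e (nat_lit 164022) (nat_lit 46) (.e (nat_lit 704629) (nat_lit 9) (.e (nat_lit 411) (nat_lit 32) (.e (nat_lit 426032) (nat_lit 0) .nil)))))))) (.g (nat_lit 1) (.e (nat_lit 79104) (nat_lit 0) .nil) .nil))) 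
(.lf (nat_lit 468712) (.g (nat_lit 3497) (.e (nat_lit 3297) (nat_lit 202) (.e (nat_lit 573492) (nat_lit 15) (.e (nat_lit 81953) (nat_lit 22) (.e (nat_lit 90161) (nat_lit 12) .nil)))) (.g (nat_lit 0) (.e (nat_lit 80857) (nat_lit 0) .nil) .nil)))) (.nd (nat_lit 9) 
(.lf (nat_lit 468456) (.g (nat_lit 1681) (.e (nat_lit 3272) (nat_lit 199) (.e (nat_lit 548913) (nat_lit 18) (.e (nat_lit 172126) (nat_lit 14) (.e (nat_lit 491522) (nat_lit 0) .nil)))) (.g (nat_lit 0) (.e (nat_lit 80059) (nat_lit 0) .nil) .nil))) 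
(.lf (nat_lit 468968) (.g (nat_lit 2066) (.e (nat_lit 3302) (nat_lit 202) (.e (nat_lit 573480) (nat_lit 13) (.e (nat_lit 65630) (nat_lit 14) (.e (nat_lit 401428) (nat_lit 3) (.e (nat_lit 204877) (nat_lit 31) (.e (nat_lit 376833) (nat_lit 0) .nil)))))) (.g (nat_lit 1) (.e (nat_lit 81665) (nat_lit 0) .nil) .nil)))))))) 
(.nd (nat_lit 5) (.nd (nat_lit 6) (.nd (nat_lit 7) (.nd (nat_lit 8) (.nd (nat_lit 9) 
(.lf (nat_lit 467992) (.g (nat_lit 1571) (.e (nat_lit 3244) (nat_lit 197) (.e (nat_lit 532511) (nat_lit 2) (.e (nat_lit 106536) (nat_lit 11) (.e (nat_lit 16412) (nat_lit 2) (.e (nat_lit 196672) (nat_lit 15) (.e (nat_lit 89856) (nat_lit 0) .nil)))))) (.g (nat_lit 1) (.e (nat_lit 78772) (nat_lit 0) .nil) .nil))) 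
(.lf (nat_lit 468504) (.g (nat_lit 1769) (.e (nat_lit 3295) (nat_lit 202) (.e (nat_lit 573485) (nat_lit 13) (.e (nat_lit 65604) (nat_lit 9) (.e (nat_lit 336028) (nat_lit 3) (.e (nat_lit 98325) (nat_lit 17) .nil))))) (.g (nat_lit 0) (.e (nat_lit 80166) (nat_lit 0) .nil) .nil)))) (.nd (nat_lit 9) 
(.lf (nat_lit 468248) (.g (nat_lit 2079) (.e (nat_lit 3214) (nat_lit 195) (.e (nat_lit 516129) (nat_lit 3) (.e (nat_lit 221210) (nat_lit 22) (.e (nat_lit 196668) (nat_lit 14) (.e (nat_lit 81664) (nat_lit 5) (.e (nat_lit 532583) (nat_lit 26) (.e (nat_lit 426012) (nat_lit 0) .nil))))))) (.g (nat_lit 1) (.e (nat_lit 79180) (nat_lit 0) .nil) .nil))) 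
(.lf (nat_lit 468760) (.g (nat_lit 2535) (.e (nat_lit 3297) (nat_lit 202) (.e (nat_lit 573492) (nat_lit 15) (.e (nat_lit 81956) (nat_lit 23) (.e (nat_lit 98389) (nat_lit 33) (.e (nat_lit 499456) (nat_lit 9) .nil))))) (.g (nat_lit 0) (.e (nat_lit 80974) (nat_lit 0) .nil) .nil))))) (.nd (nat_lit 8) (.nd (nat_lit 9) 
(.lf (nat_lit 468120) (.g (nat_lit 1143) (.e (nat_lit 3262) (nat_lit 198) (.e (nat_lit 540706) (nat_lit 12) (.e (nat_lit 360475) (nat_lit 8) (.e (nat_lit 557086) (nat_lit 11) .nil)))) (.g (nat_lit 0) (.e (nat_lit 79001) (nat_lit 0) .nil) .nil))) 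
(.lf (nat_lit 468632) (.g (nat_lit 4595) (.e (nat_lit 3297) (nat_lit 202) (.e (nat_lit 573481) (nat_lit 13) (.e (nat_lit 65619) (nat_lit 10) (.e (nat_lit 344117) (nat_lit 21) (.e (nat_lit 516185) (nat_lit 16) (.e (nat_lit 491549) (nat_lit 9) (.e (nat_lit 336306) (nat_lit 15) .nil))))))) (.g (nat_lit 1) (.e (nat_lit 80501) (nat_lit 0) .nil) .nil)))) (.nd (nat_lit 9) 
(.lf (nat_lit 468376) (.g (nat_lit 2674) (.e (nat_lit 3271) (nat_lit 199) (.e (nat_lit 548913) (nat_lit 18) (.e (nat_lit 172126) (nat_lit 14) (.e (nat_lit 491523) (nat_lit 0) (.e (nat_lit 1691) (nat_lit 117) .nil))))) (.g (nat_lit 0) (.e (nat_lit 79611) (nat_lit 0) .nil) .nil))) 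
(.lf (nat_lit 468888) (.g (nat_lit 4001) (.e (nat_lit 3298) (nat_lit 202) (.e (nat_lit 573492) (nat_lit 15) (.e (nat_lit 81956) (nat_lit 23) (.e (nat_lit 98350) (nat_lit 24) (.e (nat_lit 409641) (nat_lit 17) .nil))))) (.g (nat_lit 0) (.e (nat_lit 81461) (nat_lit 0) .nil) .nil)))))) (.nd (nat_lit 7) (.nd (nat_lit 8) (.nd (nat_lit 9) 
(.lf (nat_lit 468056) (.g (nat_lit 2570) (.e (nat_lit 3258) (nat_lit 198) (.e (nat_lit 540706) (nat_lit 12) (.e (nat_lit 360475) (nat_lit 8) (.e (nat_lit 557091) (nat_lit 12) (.e (nat_lit 164022) (nat_lit 46) (.e (nat_lit 704736) (nat_lit 11) (.e (nat_lit 16400) (nat_lit 0) .nil))))))) (.g (nat_lit 1) (.e (nat_lit 78856) (nat_lit 0) .nil) .nil))) 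
(.lf (nat_lit 468568) (.g (nat_lit 903) (.e (nat_lit 3297) (nat_lit 202) (.e (nat_lit 573450) (nat_lit 9) (.e (nat_lit 1309) (nat_lit 98) (.e (nat_lit 147496) (nat_lit 11) .nil)))) (.g (nat_lit 0) (.e (nat_lit 80365) (nat_lit 0) .nil) .nil)))) (.nd (nat_lit 9) 
(.lf (nat_lit 468312) (.g (nat_lit 3275) (.e (nat_lit 3270) (nat_lit 199) (.e (nat_lit 548913) (nat_lit 18) (.e (nat_lit 172120) (nat_lit 12) (.e (nat_lit 475185) (nat_lit 29) (.e (nat_lit 557107) (nat_lit 15) (.e (nat_lit 188439) (nat_lit 20) .nil)))))) (.g (nat_lit 1) (.e (nat_lit 79380) (nat_lit 0) .nil) .nil))) 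
(.lf (nat_lit 468824) (.g (nat_lit 2166) (.e (nat_lit 3298) (nat_lit 202) (.e (nat_lit 573482) (nat_lit 13) (.e (nat_lit 65604) (nat_lit 9) (.e (nat_lit 336028) (nat_lit 3) (.e (nat_lit 98325) (nat_lit 17) .nil))))) (.g (nat_lit 0) (.e (nat_lit 81104) (nat_lit 0) .nil) .nil))))) (.nd (nat_lit 8) (.nd (nat_lit 9) 
(.lf (nat_lit 468184) (.g (nat_lit 3006) (.e (nat_lit 3262) (nat_lit 198) (.e (nat_lit 540706) (nat_lit 12) (.e (nat_lit 360475) (nat_lit 8) (.e (nat_lit 557091) (nat_lit 12) (.e (nat_lit 163843) (nat_lit 0) (.e (nat_lit 6420) (nat_lit 341) (.e (nat_lit 163908) (nat_lit 12) (.e (nat_lit 426017) (nat_lit 0) .nil)))))))) (.g (nat_lit 1) (.e (nat_lit 79086) (nat_lit 0) .nil) .nil))) 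
(.lf (nat_lit 468696) (.g (nat_lit 2597) (.e (nat_lit 3297) (nat_lit 202) (.e (nat_lit 573491) (nat_lit 15) (.e (nat_lit 81954) (nat_lit 23) (.e (nat_lit 98389) (nat_lit 33) (.e (nat_lit 491546) (nat_lit 9) (.e (nat_lit 336306) (nat_lit 15) .nil)))))) (.g (nat_lit 1) (.e (nat_lit 80776) (nat_lit 0) .nil) .nil)))) (.nd (nat_lit 9) 
(.lf (nat_lit 468440) (.g (nat_lit 3555) (.e (nat_lit 3272) (nat_lit 199) (.e (nat_lit 548913) (nat_lit 18) (.e (nat_lit 172124) (nat_lit 14) (.e (nat_lit 491540) (nat_lit 3) (.e (nat_lit 98370) (nat_lit 28) (.e (nat_lit 442411) (nat_lit 20) .nil)))))) (.g (nat_lit 1) (.e (nat_lit 80043) (nat_lit 0) .nil) .nil))) 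
(.lf (nat_lit 468952) (.g (nat_lit 4247) (.e (nat_lit 3298) (nat_lit 202) (.e (nat_lit 573493) (nat_lit 15) (.e (nat_lit 81956) (nat_lit 23) (.e (nat_lit 98389) (nat_lit 33) (.e (nat_lit 491548) (nat_lit 9) (.e (nat_lit 336306) (nat_lit 15) .nil)))))) (.g (nat_lit 1) (.e (nat_lit 81577) (nat_lit 0) .nil) .nil))))))) (.nd (nat_lit 6) (.nd (nat_lit 7) (.nd (nat_lit 8) (.nd (nat_lit 9) 
(.lf (nat_lit 468024) (.g (nat_lit 3375) (.e (nat_lit 3257) (nat_lit 198) (.e (nat_lit 540704) (nat_lit 12) (.e (nat_lit 360473) (nat_lit 8) (.e (nat_lit 557090) (nat_lit 12) (.e (nat_lit 164020) (nat_lit 45) (.e (nat_lit 696344) (nat_lit 8) (.e (nat_lit 172034) (nat_lit 0) .nil))))))) (.g (nat_lit 1) (.e (nat_lit 78810) (nat_lit 0) .nil) .nil))) 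
(.lf (nat_lit 468536) (.g (nat_lit 5819) (.e (nat_lit 3295) (nat_lit 202) (.e (nat_lit 573493) (nat_lit 15) (.e (nat_lit 81956) (nat_lit 23) (.e (nat_lit 98320) (nat_lit 17) (.e (nat_lit 7589) (nat_lit 406) (.e (nat_lit 65637) (nat_lit 15) .nil)))))) (.g (nat_lit 1) (.e (nat_lit 80258) (nat_lit 0) .nil) .nil)))) (.nd (nat_lit 9) 
(.lf (nat_lit 468280) (.g (nat_lit 2487) (.e (nat_lit 7936) (nat_lit 195) (.e (nat_lit 516160) (nat_lit 10) (.e (nat_lit 434248) (nat_lit 28) (.e (nat_lit 573489) (nat_lit 14) (.e (nat_lit 73754) (nat_lit 8) .nil))))) (.g (nat_lit 0) (.e (nat_lit 79223) (nat_lit 0) .nil) .nil))) 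
(.lf (nat_lit 468792) (.g (nat_lit 2834) (.e (nat_lit 3298) (nat_lit 202) (.e (nat_lit 573481) (nat_lit 13) (.e (nat_lit 65619) (nat_lit 10) (.e (nat_lit 344117) (nat_lit 21) (.e (nat_lit 516098) (nat_lit 0) (.e (nat_lit 7589) (nat_lit 406) (.e (nat_lit 73472) (nat_lit 15) .nil))))))) (.g (nat_lit 1) (.e (nat_lit 81042) (nat_lit 0) .nil) .nil))))) (.nd (nat_lit 8) (.nd (nat_lit 9) 
(.lf (nat_lit 468152) (.g (nat_lit 3507) (.e (nat_lit 3262) (nat_lit 198) (.e (nat_lit 540706) (nat_lit 12) (.e (nat_lit 360475) (nat_lit 8) (.e (nat_lit 557090) (nat_lit 12) (.e (nat_lit 163843) (nat_lit 0) (.e (nat_lit 6416) (nat_lit 341) (.e (nat_lit 163908) (nat_lit 12) (.e (nat_lit 426003) (nat_lit 0) .nil)))))))) (.g (nat_lit 1) (.e (nat_lit 79051) (nat_lit 0) .nil) .nil))) 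
(.lf (nat_lit 468664) (.g (nat_lit 2109) (.e (nat_lit 3297) (nat_lit 202) (.e (nat_lit 573481) (nat_lit 13) (.e (nat_lit 65630) (nat_lit 14) (.e (nat_lit 401428) (nat_lit 3) (.e (nat_lit 204877) (nat_lit 31) (.e (nat_lit 384768) (nat_lit 0) .nil)))))) (.g (nat_lit 1) (.e (nat_lit 80543) (nat_lit 0) .nil) .nil)))) (.nd (nat_lit 9) 
(.lf (nat_lit 468408) (.g (nat_lit 4354) (.e (nat_lit 3272) (nat_lit 199) (.e (nat_lit 548913) (nat_lit 18) (.e (nat_lit 172118) (nat_lit 12) (.e (nat_lit 475185) (nat_lit 29) (.e (nat_lit 557109) (nat_lit 15) (.e (nat_lit 188434) (nat_lit 20) .nil)))))) (.g (nat_lit 1) (.e (nat_lit 80010) (nat_lit 0) .nil) .nil))) 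
(.lf (nat_lit 468920) (.g (nat_lit 5543) (.e (nat_lit 3298) (nat_lit 202) (.e (nat_lit 573493) (nat_lit 15) (.e (nat_lit 81953) (nat_lit 22) (.e (nat_lit 90161) (nat_lit 12) .nil)))) (.g (nat_lit 0) (.e (nat_lit 81521) (nat_lit 0) .nil) .nil)))))) (.nd (nat_lit 7) (.nd (nat_lit 8) (.nd (nat_lit 9) 
(.lf (nat_lit 468088) (.g (nat_lit 2493) (.e (nat_lit 3262) (nat_lit 198) (.e (nat_lit 540706) (nat_lit 12) (.e (nat_lit 360474) (nat_lit 8) (.e (nat_lit 557093) (nat_lit 12) (.e (nat_lit 164022) (nat_lit 46) (.e (nat_lit 704626) (nat_lit 9) (.e (nat_lit 375) (nat_lit 32) (.e (nat_lit 426032) (nat_lit 0) .nil)))))))) (.g (nat_lit 1) (.e (nat_lit 78927) (nat_lit 0) .nil) .nil))) 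
(.lf (nat_lit 468600) (.g (nat_lit 2712) (.e (nat_lit 3297) (nat_lit 202) (.e (nat_lit 573481) (nat_lit 13) (.e (nat_lit 65604) (nat_lit 9) (.e (nat_lit 336013) (nat_lit 2) (.e (nat_lit 90165) (nat_lit 12) (.e (nat_lit 171776) (nat_lit 191) (.e (nat_lit 73472) (nat_lit 15) .nil))))))) (.g (nat_lit 1) (.e (nat_lit 80425) (nat_lit 0) .nil) .nil)))) (.nd (nat_lit 9) 
(.lf (nat_lit 468344) (.g (nat_lit 4241) (.e (nat_lit 3271) (nat_lit 199) (.e (nat_lit 548913) (nat_lit 18) (.e (nat_lit 172119) (nat_lit 12) (.e (nat_lit 475185) (nat_lit 29) (.e (nat_lit 557109) (nat_lit 15) (.e (nat_lit 188434) (nat_lit 20) .nil)))))) (.g (nat_lit 1) (.e (nat_lit 79579) (nat_lit 0) .nil) .nil))) 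
(.lf (nat_lit 468856) (.g (nat_lit 3421) (.e (nat_lit 3298) (nat_lit 202) (.e (nat_lit 573491) (nat_lit 15) (.e (nat_lit 81956) (nat_lit 23) (.e (nat_lit 98388) (nat_lit 33) (.e (nat_lit 491548) (nat_lit 9) .nil))))) (.g (nat_lit 0) (.e (nat_lit 81315) (nat_lit 0) .nil) .nil))))) (.nd (nat_lit 8) (.nd (nat_lit 9) 
(.lf (nat_lit 468216) (.g (nat_lit 1907) (.e (nat_lit 3207) (nat_lit 195) (.e (nat_lit 516145) (nat_lit 9) (.e (nat_lit 426428) (nat_lit 17) (.e (nat_lit 90134) (nat_lit 9) .nil)))) (.g (nat_lit 0) (.e (nat_lit 79125) (nat_lit 0) .nil) .nil))) 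
(.lf (nat_lit 468728) (.g (nat_lit 510) (.e (nat_lit 3297) (nat_lit 202) (.e (nat_lit 573492) (nat_lit 15) (.e (nat_lit 81956) (nat_lit 23) (.e (nat_lit 98350) (nat_lit 24) .nil)))) (.g (nat_lit 0) (.e (nat_lit 80918) (nat_lit 0) .nil) .nil)))) (.nd (nat_lit 9) 
(.lf (nat_lit 468472) (.g (nat_lit 1784) (.e (nat_lit 3272) (nat_lit 199) (.e (nat_lit 548913) (nat_lit 18) (.e (nat_lit 172126) (nat_lit 14) (.e (nat_lit 491539) (nat_lit 3) .nil)))) (.g (nat_lit 0) (.e (nat_lit 80081) (nat_lit 0) .nil) .nil))) 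
(.lf (nat_lit 468984) (.g (nat_lit 2716) (.e (nat_lit 3302) (nat_lit 202) (.e (nat_lit 573481) (nat_lit 13) (.e (nat_lit 65628) (nat_lit 14) (.e (nat_lit 401428) (nat_lit 3) (.e (nat_lit 204866) (nat_lit 28) (.e (nat_lit 360192) (nat_lit 0) .nil)))))) (.g (nat_lit 1) (.e (nat_lit 81689) (nat_lit 0) .nil) .nil)))))))))) 
(.nd (nat_lit 3) (.nd (nat_lit 4) (.nd (nat_lit 5) (.nd (nat_lit 6) (.nd (nat_lit 7) 
(.nd (nat_lit 8) (.nd (nat_lit 9) 
(.lf (nat_lit 467972) (.g (nat_lit 4818) (.e (nat_lit 3256) (nat_lit 197) (.e (nat_lit 532550) (nat_lit 12) (.e (nat_lit 360475) (nat_lit 8) (.e (nat_lit 557091) (nat_lit 12) (.e (nat_lit 164022) (nat_lit 46) .nil))))) (.g (nat_lit 0) (.e (nat_lit 78752) (nat_lit 0) .nil) .nil))) 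
(.lf (nat_lit 468484) (.g (nat_lit 3673) (.e (nat_lit 3295) (nat_lit 202) (.e (nat_lit 573471) (nat_lit 11) (.e (nat_lit 16425) (nat_lit 7) (.e (nat_lit 409617) (nat_lit 10) .nil)))) (.g (nat_lit 0) (.e (nat_lit 80129) (nat_lit 0) .nil) .nil)))) (.nd (nat_lit 9) 
(.lf (nat_lit 468228) (.g (nat_lit 1935) (.e (nat_lit 3211) (nat_lit 195) (.e (nat_lit 516129) (nat_lit 3) (.e (nat_lit 221210) (nat_lit 22) (.e (nat_lit 196668) (nat_lit 14) (.e (nat_lit 81664) (nat_lit 5) .nil))))) (.g (nat_lit 0) (.e (nat_lit 79144) (nat_lit 0) .nil) .nil))) 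
(.lf (nat_lit 468740) (.g (nat_lit 3842) (.e (nat_lit 3297) (nat_lit 202) (.e (nat_lit 573492) (nat_lit 15) (.e (nat_lit 81956) (nat_lit 23) (.e (nat_lit 98385) (nat_lit 32) (.e (nat_lit 475208) (nat_lit 41) (.e (nat_lit 712719) (nat_lit 15) .nil)))))) (.g (nat_lit 1) (.e (nat_lit 80954) (nat_lit 0) .nil) .nil))))) (.nd (nat_lit 8) (.nd (nat_lit 9) 
(.lf (nat_lit 468100) (.g (nat_lit 2892) (.e (nat_lit 3262) (nat_lit 198) (.e (nat_lit 540706) (nat_lit 12) (.e (nat_lit 360474) (nat_lit 8) (.e (nat_lit 557093) (nat_lit 12) (.e (nat_lit 164023) (nat_lit 46) (.e (nat_lit 704735) (nat_lit 11) (.e (nat_lit 16394) (nat_lit 0) .nil))))))) (.g (nat_lit 1) (.e (nat_lit 78939) (nat_lit 0) .nil) .nil))) 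
(.lf (nat_lit 468612) (.g (nat_lit 3021) (.e (nat_lit 3297) (nat_lit 202) (.e (nat_lit 573481) (nat_lit 13) (.e (nat_lit 65619) (nat_lit 10) (.e (nat_lit 344117) (nat_lit 21) (.e (nat_lit 516106) (nat_lit 0) (.e (nat_lit 7936) (nat_lit 406) (.e (nat_lit 73472) (nat_lit 15) .nil))))))) (.g (nat_lit 1) (.e (nat_lit 80479) (nat_lit 0) .nil) .nil)))) (.nd (nat_lit 9) 
(.lf (nat_lit 468356) (.g (nat_lit 2426) (.e (nat_lit 3271) (nat_lit 199) (.e (nat_lit 548913) (nat_lit 18) (.e (nat_lit 172124) (nat_lit 14) (.e (nat_lit 491535) (nat_lit 2) (.e (nat_lit 90176) (nat_lit 15) .nil))))) (.g (nat_lit 0) (.e (nat_lit 79591) (nat_lit 0) .nil) .nil))) 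
(.lf (nat_lit 468868) (.g (nat_lit 528) (.e (nat_lit 3298) (nat_lit 202) (.e (nat_lit 573492) (nat_lit 15) (.e (nat_lit 81954) (nat_lit 23) .nil))) (.g (nat_lit 0) (.e (nat_lit 81403) (nat_lit 0) .nil) .nil)))))) (.nd (nat_lit 7) (.nd (nat_lit 8) (.nd (nat_lit 9) 
(.lf (nat_lit 468036) (.g (nat_lit 3552) (.e (nat_lit 3258) (nat_lit 198) (.e (nat_lit 540704) (nat_lit 12) (.e (nat_lit 360466) (nat_lit 3) (.e (nat_lit 516139) (nat_lit 7) (.e (nat_lit 409646) (nat_lit 18) (.e (nat_lit 303112) (nat_lit 0) .nil)))))) (.g (nat_lit 1) (.e (nat_lit 78824) (nat_lit 0) .nil) .nil))) 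
(.lf (nat_lit 468548) (.g (nat_lit 1315) (.e (nat_lit 3296) (nat_lit 202) (.e (nat_lit 573477) (nat_lit 12) (.e (nat_lit 57574) (nat_lit 55) (.e (nat_lit 778464) (nat_lit 11) .nil)))) (.g (nat_lit 0) (.e (nat_lit 80288) (nat_lit 0) .nil) .nil)))) (.nd (nat_lit 9) 
(.lf (nat_lit 468292) (.g (nat_lit 707) (.e (nat_lit 3266) (nat_lit 199) (.e (nat_lit 548913) (nat_lit 18) (.e (nat_lit 172120) (nat_lit 12) .nil))) (.g (nat_lit 0) (.e (nat_lit 79247) (nat_lit 0) .nil) .nil))) 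
(.lf (nat_lit 468804) (.g (nat_lit 4190) (.e (nat_lit 3298) (nat_lit 202) (.e (nat_lit 573481) (nat_lit 13) (.e (nat_lit 65619) (nat_lit 10) (.e (nat_lit 344129) (nat_lit 26) (.e (nat_lit 557085) (nat_lit 11) (.e (nat_lit 24630) (nat_lit 9) (.e (nat_lit 336306) (nat_lit 15) .nil))))))) (.g (nat_lit 1) (.e (nat_lit 81082) (nat_lit 0) .nil) .nil))))) (.nd (nat_lit 8) (.nd (nat_lit 9) 
(.lf (nat_lit 468164) (.g (nat_lit 2359) (.e (nat_lit 3262) (nat_lit 198) (.e (nat_lit 540706) (nat_lit 12) (.e (nat_lit 360475) (nat_lit 8) (.e (nat_lit 557090) (nat_lit 12) (.e (nat_lit 164020) (nat_lit 45) (.e (nat_lit 696329) (nat_lit 5) (.e (nat_lit 2874) (nat_lit 184) (.e (nat_lit 426032) (nat_lit 0) .nil)))))))) (.g (nat_lit 1) (.e (nat_lit 79064) (nat_lit 0) .nil) .nil))) 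
(.lf (nat_lit 468676) (.g (nat_lit 362) (.e (nat_lit 3297) (nat_lit 202) (.e (nat_lit 573488) (nat_lit 14) (.e (nat_lit 81664) (nat_lit 32) .nil))) (.g (nat_lit 0) (.e (nat_lit 80635) (nat_lit 0) .nil) .nil)))) (.nd (nat_lit 9) 
(.lf (nat_lit 468420) (.g (nat_lit 4512) (.e (nat_lit 3272) (nat_lit 199) (.e (nat_lit 548913) (nat_lit 18) (.e (nat_lit 172120) (nat_lit 12) (.e (nat_lit 475184) (nat_lit 29) (.e (nat_lit 557109) (nat_lit 15) (.e (nat_lit 188435) (nat_lit 20) .nil)))))) (.g (nat_lit 1) (.e (nat_lit 80022) (nat_lit 0) .nil) .nil))) 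
(.lf (nat_lit 468932) (.g (nat_lit 4153) (.e (nat_lit 3298) (nat_lit 202) (.e (nat_lit 573493) (nat_lit 15) (.e (nat_lit 81956) (nat_lit 23) (.e (nat_lit 98320) (nat_lit 17) (.e (nat_lit 7589) (nat_lit 406) (.e (nat_lit 73472) (nat_lit 15) .nil)))))) (.g (nat_lit 1) (.e (nat_lit 81539) (nat_lit 0) .nil) .nil))))))) (.nd (nat_lit 6) (.nd (nat_lit 7) (.nd (nat_lit 8) (.nd (nat_lit 9) 
(.lf (nat_lit 468004) (.g (nat_lit 2824) (.e (nat_lit 3246) (nat_lit 197) (.e (nat_lit 532503) (nat_lit 1) (.e (nat_lit 57931) (nat_lit 282) (.e (nat_lit 163869) (nat_lit 2) (.e (nat_lit 196668) (nat_lit 14) (.e (nat_lit 73747) (nat_lit 3) (.e (nat_lit 516131) (nat_lit 3) (.e (nat_lit 221198) (nat_lit 20) .nil)))))))) (.g (nat_lit 1) (.e (nat_lit 78787) (nat_lit 0) .nil) .nil))) 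
(.lf (nat_lit 468516) (.g (nat_lit 2301) (.e (nat_lit 3295) (nat_lit 202) (.e (nat_lit 573485) (nat_lit 13) (.e (nat_lit 65628) (nat_lit 14) (.e (nat_lit 401428) (nat_lit 3) (.e (nat_lit 204866) (nat_lit 28) (.e (nat_lit 352260) (nat_lit 0) .nil)))))) (.g (nat_lit 1) (.e (nat_lit 80187) (nat_lit 0) .nil) .nil)))) (.nd (nat_lit 9) 
(.lf (nat_lit 468260) (.g (nat_lit 2310) (.e (nat_lit 7936) (nat_lit 195) (.e (nat_lit 516160) (nat_lit 10) (.e (nat_lit 434244) (nat_lit 28) (.e (nat_lit 573488) (nat_lit 14) (.e (nat_lit 73740) (nat_lit 1) .nil))))) (.g (nat_lit 0) (.e (nat_lit 79203) (nat_lit 0) .nil) .nil))) 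
(.lf (nat_lit 468772) (.g (nat_lit 4791) (.e (nat_lit 3298) (nat_lit 202) (.e (nat_lit 573471) (nat_lit 11) (.e (nat_lit 16470) (nat_lit 14) (.e (nat_lit 491537) (nat_lit 2) .nil)))) (.g (nat_lit 0) (.e (nat_lit 80994) (nat_lit 0) .nil) .nil))))) (.nd (nat_lit 8) (.nd (nat_lit 9) 
(.lf (nat_lit 468132) (.g (nat_lit 2356) (.e (nat_lit 3262) (nat_lit 198) (.e (nat_lit 540706) (nat_lit 12) (.e (nat_lit 360475) (nat_lit 8) (.e (nat_lit 557087) (nat_lit 11) (.e (nat_lit 24663) (nat_lit 14) .nil))))) (.g (nat_lit 0) (.e (nat_lit 79023) (nat_lit 0) .nil) .nil))) 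
(.lf (nat_lit 468644) (.g (nat_lit 4150) (.e (nat_lit 3297) (nat_lit 202) (.e (nat_lit 573481) (nat_lit 13) (.e (nat_lit 65619) (nat_lit 10) (.e (nat_lit 344129) (nat_lit 26) (.e (nat_lit 557087) (nat_lit 11) (.e (nat_lit 24630) (nat_lit 9) (.e (nat_lit 336306) (nat_lit 15) .nil))))))) (.g (nat_lit 1) (.e (nat_lit 80522) (nat_lit 0) .nil) .nil)))) (.nd (nat_lit 9) 
(.lf (nat_lit 468388) (.g (nat_lit 2774) (.e (nat_lit 3271) (nat_lit 199) (.e (nat_lit 548913) (nat_lit 18) (.e (nat_lit 172126) (nat_lit 14) (.e (nat_lit 491539) (nat_lit 3) (.e (nat_lit 98370) (nat_lit 28) .nil))))) (.g (nat_lit 0) (.e (nat_lit 79623) (nat_lit 0) .nil) .nil))) 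
(.lf (nat_lit 468900) (.g (nat_lit 3624) (.e (nat_lit 3298) (nat_lit 202) (.e (nat_lit 573492) (nat_lit 15) (.e (nat_lit 81956) (nat_lit 23) (.e (nat_lit 98389) (nat_lit 33) (.e (nat_lit 491546) (nat_lit 9) (.e (nat_lit 336306) (nat_lit 15) .nil)))))) (.g (nat_lit 1) (.e (nat_lit 81487) (nat_lit 0) .nil) .nil)))))) (.nd (nat_lit 7) (.nd (nat_lit 8) (.nd (nat_lit 9) 
(.lf (nat_lit 468068) (.g (nat_lit 3260) (.e (nat_lit 3260) (nat_lit 198) (.e (nat_lit 540706) (nat_lit 12) (.e (nat_lit 360475) (nat_lit 8) (.e (nat_lit 557086) (nat_lit 11) (.e (nat_lit 24665) (nat_lit 14) (.e (nat_lit 401408) (nat_lit 0) .nil)))))) (.g (nat_lit 1) (.e (nat_lit 78886) (nat_lit 0) .nil) .nil))) 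
(.lf (nat_lit 468580) (.g (nat_lit 3498) (.e (nat_lit 3297) (nat_lit 202) (.e (nat_lit 573471) (nat_lit 11) (.e (nat_lit 16459) (nat_lit 12) (.e (nat_lit 475185) (nat_lit 29) (.e (nat_lit 557107) (nat_lit 15) .nil))))) (.g (nat_lit 0) (.e (nat_lit 80391) (nat_lit 0) .nil) .nil)))) (.nd (nat_lit 9) 
(.lf (nat_lit 468324) (.g (nat_lit 978) (.e (nat_lit 3270) (nat_lit 199) (.e (nat_lit 548913) (nat_lit 18) (.e (nat_lit 172125) (nat_lit 14) (.e (nat_lit 491524) (nat_lit 0) .nil)))) (.g (nat_lit 0) (.e (nat_lit 79392) (nat_lit 0) .nil) .nil))) 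
(.lf (nat_lit 468836) (.g (nat_lit 1931) (.e (nat_lit 3298) (nat_lit 202) (.e (nat_lit 573482) (nat_lit 13) (.e (nat_lit 65619) (nat_lit 10) (.e (nat_lit 344126) (nat_lit 25) (.e (nat_lit 548874) (nat_lit 5) .nil))))) (.g (nat_lit 0) (.e (nat_lit 81116) (nat_lit 0) .nil) .nil))))) (.nd (nat_lit 8) (.nd (nat_lit 9) 
(.lf (nat_lit 468196) (.g (nat_lit 3193) (.e (nat_lit 3262) (nat_lit 198) (.e (nat_lit 540706) (nat_lit 12) (.e (nat_lit 360475) (nat_lit 8) (.e (nat_lit 557091) (nat_lit 12) (.e (nat_lit 164017) (nat_lit 44) .nil))))) (.g (nat_lit 0) (.e (nat_lit 79100) (nat_lit 0) .nil) .nil))) 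
(.lf (nat_lit 468708) (.g (nat_lit 3518) (.e (nat_lit 3297) (nat_lit 202) (.e (nat_lit 573491) (nat_lit 15) (.e (nat_lit 81956) (nat_lit 23) (.e (nat_lit 98389) (nat_lit 33) (.e (nat_lit 491548) (nat_lit 9) .nil))))) (.g (nat_lit 0) (.e (nat_lit 80789) (nat_lit 0) .nil) .nil)))) (.nd (nat_lit 9) 
(.lf (nat_lit 468452) (.g (nat_lit 4919) (.e (nat_lit 3272) (nat_lit 199) (.e (nat_lit 548913) (nat_lit 18) (.e (nat_lit 172125) (nat_lit 14) (.e (nat_lit 491537) (nat_lit 2) (.e (nat_lit 90178) (nat_lit 15) (.e (nat_lit 188440) (nat_lit 20) .nil)))))) (.g (nat_lit 1) (.e (nat_lit 80055) (nat_lit 0) .nil) .nil))) 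
(.lf (nat_lit 468964) (.g (nat_lit 1731) (.e (nat_lit 3302) (nat_lit 202) (.e (nat_lit 573480) (nat_lit 13) (.e (nat_lit 65630) (nat_lit 14) (.e (nat_lit 401428) (nat_lit 3) (.e (nat_lit 204865) (nat_lit 28) (.e (nat_lit 360192) (nat_lit 0) .nil)))))) (.g (nat_lit 1) (.e (nat_lit 81661) (nat_lit 0) .nil) .nil)))))))) 
(.nd (nat_lit 5) (.nd (nat_lit 6) (.nd (nat_lit 7) (.nd (nat_lit 8) (.nd (nat_lit 9) 
(.lf (nat_lit 467988) (.g (nat_lit 2412) (.e (nat_lit 3244) (nat_lit 197) (.e (nat_lit 532504) (nat_lit 1) (.e (nat_lit 57851) (nat_lit 252) (.e (nat_lit 57406) (nat_lit 12) (.e (nat_lit 336456) (nat_lit 34) .nil))))) (.g (nat_lit 0) (.e (nat_lit 78768) (nat_lit 0) .nil) .nil))) 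
(.lf (nat_lit 468500) (.g (nat_lit 1426) (.e (nat_lit 3295) (nat_lit 202) (.e (nat_lit 573484) (nat_lit 13) (.e (nat_lit 65617) (nat_lit 10) (.e (nat_lit 344130) (nat_lit 26) .nil)))) (.g (nat_lit 0) (.e (nat_lit 80157) (nat_lit 0) .nil) .nil)))) (.nd (nat_lit 9) 
(.lf (nat_lit 468244) (.g (nat_lit 1914) (.e (nat_lit 3214) (nat_lit 195) (.e (nat_lit 516129) (nat_lit 3) (.e (nat_lit 221210) (nat_lit 22) (.e (nat_lit 196668) (nat_lit 14) (.e (nat_lit 81664) (nat_lit 1) .nil))))) (.g (nat_lit 0) (.e (nat_lit 79176) (nat_lit 0) .nil) .nil))) 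
(.lf (nat_lit 468756) (.g (nat_lit 4297) (.e (nat_lit 3297) (nat_lit 202) (.e (nat_lit 573492) (nat_lit 15) (.e (nat_lit 81956) (nat_lit 23) (.e (nat_lit 98389) (nat_lit 33) (.e (nat_lit 491549) (nat_lit 9) (.e (nat_lit 336306) (nat_lit 15) .nil)))))) (.g (nat_lit 1) (.e (nat_lit 80970) (nat_lit 0) .nil) .nil))))) (.nd (nat_lit 8) (.nd (nat_lit 9) 
(.lf (nat_lit 468116) (.g (nat_lit 2376) (.e (nat_lit 3262) (nat_lit 198) (.e (nat_lit 540706) (nat_lit 12) (.e (nat_lit 360475) (nat_lit 8) (.e (nat_lit 557068) (nat_lit 9) (.e (nat_lit 214) (nat_lit 19) .nil))))) (.g (nat_lit 0) (.e (nat_lit 78979) (nat_lit 0) .nil) .nil))) 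
(.lf (nat_lit 468628) (.g (nat_lit 3932) (.e (nat_lit 3297) (nat_lit 202) (.e (nat_lit 573481) (nat_lit 13) (.e (nat_lit 65619) (nat_lit 10) (.e (nat_lit 344117) (nat_lit 21) (.e (nat_lit 516184) (nat_lit 16) (.e (nat_lit 491550) (nat_lit 9) (.e (nat_lit 336306) (nat_lit 15) .nil))))))) (.g (nat_lit 1) (.e (nat_lit 80497) (nat_lit 0) .nil) .nil)))) (.nd (nat_lit 9) 
(.lf (nat_lit 468372) (.g (nat_lit 3064) (.e (nat_lit 3271) (nat_lit 199) (.e (nat_lit 548913) (nat_lit 18) (.e (nat_lit 172125) (nat_lit 14) (.e (nat_lit 491537) (nat_lit 2) (.e (nat_lit 90177) (nat_lit 15) .nil))))) (.g (nat_lit 0) (.e (nat_lit 79607) (nat_lit 0) .nil) .nil))) 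
(.lf (nat_lit 468884) (.g (nat_lit 2097) (.e (nat_lit 3298) (nat_lit 202) (.e (nat_lit 573492) (nat_lit 15) (.e (nat_lit 81956) (nat_lit 23) (.e (nat_lit 98325) (nat_lit 17) (.e (nat_lit 7936) (nat_lit 406) (.e (nat_lit 73472) (nat_lit 15) .nil)))))) (.g (nat_lit 1) (.e (nat_lit 81443) (nat_lit 0) .nil) .nil)))))) (.nd (nat_lit 7) (.nd (nat_lit 8) (.nd (nat_lit 9) 
(.lf (nat_lit 468052) (.g (nat_lit 2898) (.e (nat_lit 3258) (nat_lit 198) (.e (nat_lit 540706) (nat_lit 12) (.e (nat_lit 360475) (nat_lit 8) (.e (nat_lit 557090) (nat_lit 12) (.e (nat_lit 164020) (nat_lit 45) (.e (nat_lit 696344) (nat_lit 8) (.e (nat_lit 172032) (nat_lit 0) .nil))))))) (.g (nat_lit 1) (.e (nat_lit 78851) (nat_lit 0) .nil) .nil))) 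
(.lf (nat_lit 468564) (.g (nat_lit 1728) (.e (nat_lit 3297) (nat_lit 202) (.e (nat_lit 573450) (nat_lit 9) (.e (nat_lit 375) (nat_lit 32) (.e (nat_lit 426173) (nat_lit 7) .nil)))) (.g (nat_lit 0) (.e (nat_lit 80356) (nat_lit 0) .nil) .nil)))) (.nd (nat_lit 9) 
(.lf (nat_lit 468308) (.g (nat_lit 1798) (.e (nat_lit 3270) (nat_lit 199) (.e (nat_lit 548913) (nat_lit 18) (.e (nat_lit 172120) (nat_lit 12) (.e (nat_lit 475184) (nat_lit 29) .nil)))) (.g (nat_lit 0) (.e (nat_lit 79376) (nat_lit 0) .nil) .nil))) 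
(.lf (nat_lit 468820) (.g (nat_lit 1849) (.e (nat_lit 3298) (nat_lit 202) (.e (nat_lit 573481) (nat_lit 13) (.e (nat_lit 65630) (nat_lit 14) (.e (nat_lit 401428) (nat_lit 3) (.e (nat_lit 204865) (nat_lit 28) (.e (nat_lit 360192) (nat_lit 0) .nil)))))) (.g (nat_lit 1) (.e (nat_lit 81100) (nat_lit 0) .nil) .nil))))) (.nd (nat_lit 8) (.nd (nat_lit 9) 
(.lf (nat_lit 468180) (.g (nat_lit 2993) (.e (nat_lit 3262) (nat_lit 198) (.e (nat_lit 540706) (nat_lit 12) (.e (nat_lit 360475) (nat_lit 8) (.e (nat_lit 557091) (nat_lit 12) (.e (nat_lit 163843) (nat_lit 0) (.e (nat_lit 6416) (nat_lit 341) (.e (nat_lit 163903) (nat_lit 12) (.e (nat_lit 425986) (nat_lit 0) .nil)))))))) (.g (nat_lit 1) (.e (nat_lit 79082) (nat_lit 0) .nil) .nil))) 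
(.lf (nat_lit 468692) (.g (nat_lit 2407) (.e (nat_lit 3297) (nat_lit 202) (.e (nat_lit 573491) (nat_lit 15) (.e (nat_lit 81954) (nat_lit 23) (.e (nat_lit 98387) (nat_lit 33) (.e (nat_lit 491550) (nat_lit 9) (.e (nat_lit 336306) (nat_lit 15) .nil)))))) (.g (nat_lit 1) (.e (nat_lit 80772) (nat_lit 0) .nil) .nil)))) (.nd (nat_lit 9) 
(.lf (nat_lit 468436) (.g (nat_lit 4392) (.e (nat_lit 3272) (nat_lit 199) (.e (nat_lit 548913) (nat_lit 18) (.e (nat_lit 172124) (nat_lit 14) (.e (nat_lit 491537) (nat_lit 2) (.e (nat_lit 90178) (nat_lit 15) (.e (nat_lit 188440) (nat_lit 20) .nil)))))) (.g (nat_lit 1) (.e (nat_lit 80039) (nat_lit 0) .nil) .nil))) 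
(.lf (nat_lit 468948) (.g (nat_lit 4955) (.e (nat_lit 3298) (nat_lit 202) (.e (nat_lit 573493) (nat_lit 15) (.e (nat_lit 81956) (nat_lit 23) (.e (nat_lit 98388) (nat_lit 33) (.e (nat_lit 491549) (nat_lit 9) (.e (nat_lit 336306) (nat_lit 15) .nil)))))) (.g (nat_lit 1) (.e (nat_lit 81573) (nat_lit 0) .nil) .nil))))))) (.nd (nat_lit 6) (.nd (nat_lit 7) (.nd (nat_lit 8) (.nd (nat_lit 9) 
(.lf (nat_lit 468020) (.g (nat_lit 718) (.e (nat_lit 7936) (nat_lit 197) (.e (nat_lit 532547) (nat_lit 11) (.e (nat_lit 352314) (nat_lit 23) .nil))) (.g (nat_lit 0) (.e (nat_lit 78803) (nat_lit 0) .nil) .nil))) 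
(.lf (nat_lit 468532) (.g (nat_lit 1195) (.e (nat_lit 3295) (nat_lit 202) (.e (nat_lit 573493) (nat_lit 15) (.e (nat_lit 81954) (nat_lit 23) .nil))) (.g (nat_lit 0) (.e (nat_lit 80254) (nat_lit 0) .nil) .nil)))) (.nd (nat_lit 9) 
(.lf (nat_lit 468276) (.g (nat_lit 2583) (.e (nat_lit 7936) (nat_lit 195) (.e (nat_lit 516160) (nat_lit 10) (.e (nat_lit 434248) (nat_lit 28) (.e (nat_lit 573487) (nat_lit 14) (.e (nat_lit 73739) (nat_lit 1) .nil))))) (.g (nat_lit 0) (.e (nat_lit 79219) (nat_lit 0) .nil) .nil))) 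
(.lf (nat_lit 468788) (.g (nat_lit 3082) (.e (nat_lit 3298) (nat_lit 202) (.e (nat_lit 573481) (nat_lit 13) (.e (nat_lit 65619) (nat_lit 10) (.e (nat_lit 344117) (nat_lit 21) (.e (nat_lit 516097) (nat_lit 0) (.e (nat_lit 7587) (nat_lit 406) (.e (nat_lit 73472) (nat_lit 15) .nil))))))) (.g (nat_lit 1) (.e (nat_lit 81038) (nat_lit 0) .nil) .nil))))) (.nd (nat_lit 8) (.nd (nat_lit 9) 
(.lf (nat_lit 468148) (.g (nat_lit 3054) (.e (nat_lit 3262) (nat_lit 198) (.e (nat_lit 540706) (nat_lit 12) (.e (nat_lit 360475) (nat_lit 8) (.e (nat_lit 557089) (nat_lit 12) (.e (nat_lit 164017) (nat_lit 44) (.e (nat_lit 688138) (nat_lit 5) (.e (nat_lit 2887) (nat_lit 184) (.e (nat_lit 426017) (nat_lit 0) .nil)))))))) (.g (nat_lit 1) (.e (nat_lit 79043) (nat_lit 0) .nil) .nil))) 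
(.lf (nat_lit 468660) (.g (nat_lit 2109) (.e (nat_lit 3297) (nat_lit 202) (.e (nat_lit 573481) (nat_lit 13) (.e (nat_lit 65630) (nat_lit 14) (.e (nat_lit 401428) (nat_lit 3) (.e (nat_lit 204861) (nat_lit 26) (.e (nat_lit 336086) (nat_lit 9) (.e (nat_lit 336306) (nat_lit 15) .nil))))))) (.g (nat_lit 1) (.e (nat_lit 80539) (nat_lit 0) .nil) .nil)))) (.nd (nat_lit 9) 
(.lf (nat_lit 468404) (.g (nat_lit 416) (.e (nat_lit 3272) (nat_lit 199) (.e (nat_lit 548913) (nat_lit 18) (.e (nat_lit 172038) (nat_lit 0) .nil))) (.g (nat_lit 0) (.e (nat_lit 79822) (nat_lit 0) .nil) .nil))) 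
(.lf (nat_lit 468916) (.g (nat_lit 2282) (.e (nat_lit 3298) (nat_lit 202) (.e (nat_lit 573493) (nat_lit 15) (.e (nat_lit 81953) (nat_lit 22) (.e (nat_lit 90134) (nat_lit 9) .nil)))) (.g (nat_lit 0) (.e (nat_lit 81517) (nat_lit 0) .nil) .nil)))))) (.nd (nat_lit 7) (.nd (nat_lit 8) (.nd (nat_lit 9) 
(.lf (nat_lit 468084) (.g (nat_lit 1497) (.e (nat_lit 3262) (nat_lit 198) (.e (nat_lit 540706) (nat_lit 12) (.e (nat_lit 360474) (nat_lit 8) (.e (nat_lit 557093) (nat_lit 12) (.e (nat_lit 163849) (nat_lit 0) .nil))))) (.g (nat_lit 0) (.e (nat_lit 78923) (nat_lit 0) .nil) .nil))) 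
(.lf (nat_lit 468596) (.g (nat_lit 3134) (.e (nat_lit 3297) (nat_lit 202) (.e (nat_lit 573481) (nat_lit 13) (.e (nat_lit 65604) (nat_lit 9) (.e (nat_lit 336013) (nat_lit 2) (.e (nat_lit 90134) (nat_lit 9) (.e (nat_lit 3096) (nat_lit 192) (.e (nat_lit 491549) (nat_lit 9) (.e (nat_lit 336306) (nat_lit 15) .nil)))))))) (.g (nat_lit 1) (.e (nat_lit 80415) (nat_lit 0) .nil) .nil)))) (.nd (nat_lit 9) 
(.lf (nat_lit 468340) (.g (nat_lit 3341) (.e (nat_lit 3271) (nat_lit 199) (.e (nat_lit 548913) (nat_lit 18) (.e (nat_lit 172118) (nat_lit 12) (.e (nat_lit 475185) (nat_lit 29) (.e (nat_lit 557107) (nat_lit 15) (.e (nat_lit 188440) (nat_lit 20) .nil)))))) (.g (nat_lit 1) (.e (nat_lit 79575) (nat_lit 0) .nil) .nil))) 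
(.lf (nat_lit 468852) (.g (nat_lit 2364) (.e (nat_lit 3298) (nat_lit 202) (.e (nat_lit 573491) (nat_lit 15) (.e (nat_lit 81954) (nat_lit 23) (.e (nat_lit 98389) (nat_lit 33) (.e (nat_lit 491548) (nat_lit 9) (.e (nat_lit 336306) (nat_lit 15) .nil)))))) (.g (nat_lit 1) (.e (nat_lit 81310) (nat_lit 0) .nil) .nil))))) (.nd (nat_lit 8) (.nd (nat_lit 9) 
(.lf (nat_lit 468212) (.g (nat_lit 2980) (.e (nat_lit 3262) (nat_lit 198) (.e (nat_lit 540706) (nat_lit 12) (.e (nat_lit 360475) (nat_lit 8) (.e (nat_lit 557093) (nat_lit 12) .nil)))) (.g (nat_lit 0) (.e (nat_lit 79118) (nat_lit 0) .nil) .nil))) 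
(.lf (nat_lit 468724) (.g (nat_lit 2381) (.e (nat_lit 3297) (nat_lit 202) (.e (nat_lit 573492) (nat_lit 15) (.e (nat_lit 81956) (nat_lit 23) (.e (nat_lit 98325) (nat_lit 17) (.e (nat_lit 7936) (nat_lit 406) (.e (nat_lit 73472) (nat_lit 15) .nil)))))) (.g (nat_lit 1) (.e (nat_lit 80911) (nat_lit 0) .nil) .nil)))) (.nd (nat_lit 9) 
(.lf (nat_lit 468468) (.g (nat_lit 2261) (.e (nat_lit 3272) (nat_lit 199) (.e (nat_lit 548913) (nat_lit 18) (.e (nat_lit 172126) (nat_lit 14) (.e (nat_lit 491537) (nat_lit 2) (.e (nat_lit 90176) (nat_lit 15) (.e (nat_lit 188435) (nat_lit 20) .nil)))))) (.g (nat_lit 1) (.e (nat_lit 80076) (nat_lit 0) .nil) .nil))) 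
(.lf (nat_lit 468980) (.g (nat_lit 3087) (.e (nat_lit 3302) (nat_lit 202) (.e (nat_lit 573481) (nat_lit 13) (.e (nat_lit 65624) (nat_lit 12) (.e (nat_lit 385074) (nat_lit 31) (.e (nat_lit 573493) (nat_lit 15) (.e (nat_lit 89856) (nat_lit 0) .nil)))))) (.g (nat_lit 1) (.e (nat_lit 81685) (nat_lit 0) .nil) .nil))))))))) 
(.nd (nat_lit 4) (.nd (nat_lit 5) (.nd (nat_lit 6) (.nd (nat_lit 7) (.nd (nat_lit 8) 
(.nd (nat_lit 9) 
(.lf (nat_lit 467980) (.g (nat_lit 1799) (.e (nat_lit 3256) (nat_lit 197) (.e (nat_lit 532563) (nat_lit 15) (.e (nat_lit 385066) (nat_lit 26) (.e (nat_lit 532566) (nat_lit 15) .nil)))) (.g (nat_lit 0) (.e (nat_lit 78760) (nat_lit 0) .nil) .nil))) 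
(.lf (nat_lit 468492) (.g (nat_lit 1956) (.e (nat_lit 3295) (nat_lit 202) (.e (nat_lit 573482) (nat_lit 13) (.e (nat_lit 65619) (nat_lit 10) (.e (nat_lit 344129) (nat_lit 26) (.e (nat_lit 557074) (nat_lit 9) .nil))))) (.g (nat_lit 0) (.e (nat_lit 80143) (nat_lit 0) .nil) .nil)))) (.nd (nat_lit 9) 
(.lf (nat_lit 468236) (.g (nat_lit 1923) (.e (nat_lit 3213) (nat_lit 195) (.e (nat_lit 516129) (nat_lit 3) (.e (nat_lit 221210) (nat_lit 22) (.e (nat_lit 196668) (nat_lit 14) (.e (nat_lit 81664) (nat_lit 5) .nil))))) (.g (nat_lit 0) (.e (nat_lit 79157) (nat_lit 0) .nil) .nil))) 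
(.lf (nat_lit 468748) (.g (nat_lit 3200) (.e (nat_lit 3297) (nat_lit 202) (.e (nat_lit 573492) (nat_lit 15) (.e (nat_lit 81956) (nat_lit 23) (.e (nat_lit 98387) (nat_lit 33) (.e (nat_lit 491550) (nat_lit 9) (.e (nat_lit 336306) (nat_lit 15) .nil)))))) (.g (nat_lit 1) (.e (nat_lit 80962) (nat_lit 0) .nil) .nil))))) (.nd (nat_lit 8) (.nd (nat_lit 9) 
(.lf (nat_lit 468108) (.g (nat_lit 2898) (.e (nat_lit 3262) (nat_lit 198) (.e (nat_lit 540706) (nat_lit 12) (.e (nat_lit 360474) (nat_lit 8) (.e (nat_lit 557094) (nat_lit 12) (.e (nat_lit 164022) (nat_lit 46) (.e (nat_lit 704736) (nat_lit 11) (.e (nat_lit 16394) (nat_lit 0) .nil))))))) (.g (nat_lit 1) (.e (nat_lit 78947) (nat_lit 0) .nil) .nil))) 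
(.lf (nat_lit 468620) (.g (nat_lit 4077) (.e (nat_lit 3297) (nat_lit 202) (.e (nat_lit 573481) (nat_lit 13) (.e (nat_lit 65619) (nat_lit 10) (.e (nat_lit 344117) (nat_lit 21) (.e (nat_lit 516180) (nat_lit 15) (.e (nat_lit 475209) (nat_lit 41) (.e (nat_lit 712719) (nat_lit 15) .nil))))))) (.g (nat_lit 1) (.e (nat_lit 80489) (nat_lit 0) .nil) .nil)))) (.nd (nat_lit 9) 
(.lf (nat_lit 468364) (.g (nat_lit 366) (.e (nat_lit 3271) (nat_lit 199) (.e (nat_lit 548913) (nat_lit 18) (.e (nat_lit 172125) (nat_lit 14) .nil))) (.g (nat_lit 0) (.e (nat_lit 79599) (nat_lit 0) .nil) .nil))) 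
(.lf (nat_lit 468876) (.g (nat_lit 2418) (.e (nat_lit 3298) (nat_lit 202) (.e (nat_lit 573492) (nat_lit 15) (.e (nat_lit 81956) (nat_lit 23) (.e (nat_lit 98321) (nat_lit 17) (.e (nat_lit 7936) (nat_lit 406) (.e (nat_lit 73472) (nat_lit 15) .nil)))))) (.g (nat_lit 1) (.e (nat_lit 81412) (nat_lit 0) .nil) .nil)))))) (.nd (nat_lit 7) (.nd (nat_lit 8) (.nd (nat_lit 9) 
(.lf (nat_lit 468044) (.g (nat_lit 3317) (.e (nat_lit 3258) (nat_lit 198) (.e (nat_lit 540706) (nat_lit 12) (.e (nat_lit 360475) (nat_lit 8) (.e (nat_lit 557086) (nat_lit 11) (.e (nat_lit 24665) (nat_lit 14) (.e (nat_lit 401417) (nat_lit 0) .nil)))))) (.g (nat_lit 1) (.e (nat_lit 78839) (nat_lit 0) .nil) .nil))) 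
(.lf (nat_lit 468556) (.g (nat_lit 875) (.e (nat_lit 3296) (nat_lit 202) (.e (nat_lit 573482) (nat_lit 13) (.e (nat_lit 65619) (nat_lit 10) (.e (nat_lit 344117) (nat_lit 21) .nil)))) (.g (nat_lit 0) (.e (nat_lit 80300) (nat_lit 0) .nil) .nil)))) (.nd (nat_lit 9) 
(.lf (nat_lit 468300) (.g (nat_lit 1871) (.e (nat_lit 3269) (nat_lit 199) (.e (nat_lit 548913) (nat_lit 18) (.e (nat_lit 172120) (nat_lit 12) (.e (nat_lit 475185) (nat_lit 29) .nil)))) (.g (nat_lit 0) (.e (nat_lit 79261) (nat_lit 0) .nil) .nil))) 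
(.lf (nat_lit 468812) (.g (nat_lit 2281) (.e (nat_lit 3298) (nat_lit 202) (.e (nat_lit 573481) (nat_lit 13) (.e (nat_lit 65624) (nat_lit 12) (.e (nat_lit 385074) (nat_lit 31) (.e (nat_lit 573493) (nat_lit 15) (.e (nat_lit 89856) (nat_lit 0) .nil)))))) (.g (nat_lit 1) (.e (nat_lit 81090) (nat_lit 0) .nil) .nil))))) (.nd (nat_lit 8) (.nd (nat_lit 9) 
(.lf (nat_lit 468172) (.g (nat_lit 3385) (.e (nat_lit 3262) (nat_lit 198) (.e (nat_lit 540706) (nat_lit 12) (.e (nat_lit 360475) (nat_lit 8) (.e (nat_lit 557090) (nat_lit 12) (.e (nat_lit 164020) (nat_lit 45) (.e (nat_lit 696343) (nat_lit 8) (.e (nat_lit 172032) (nat_lit 0) .nil))))))) (.g (nat_lit 1) (.e (nat_lit 79072) (nat_lit 0) .nil) .nil))) 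
(.lf (nat_lit 468684) (.g (nat_lit 3970) (.e (nat_lit 3297) (nat_lit 202) (.e (nat_lit 573491) (nat_lit 15) (.e (nat_lit 81954) (nat_lit 23) (.e (nat_lit 98384) (nat_lit 32) (.e (nat_lit 475210) (nat_lit 41) (.e (nat_lit 712719) (nat_lit 15) .nil)))))) (.g (nat_lit 1) (.e (nat_lit 80764) (nat_lit 0) .nil) .nil)))) (.nd (nat_lit 9) 
(.lf (nat_lit 468428) (.g (nat_lit 3588) (.e (nat_lit 3272) (nat_lit 199) (.e (nat_lit 548913) (nat_lit 18) (.e (nat_lit 172124) (nat_lit 14) (.e (nat_lit 491536) (nat_lit 2) (.e (nat_lit 90176) (nat_lit 15) (.e (nat_lit 188439) (nat_lit 20) .nil)))))) (.g (nat_lit 1) (.e (nat_lit 80031) (nat_lit 0) .nil) .nil))) 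
(.lf (nat_lit 468940) (.g (nat_lit 2934) (.e (nat_lit 3298) (nat_lit 202) (.e (nat_lit 573493) (nat_lit 15) (.e (nat_lit 81956) (nat_lit 23) (.e (nat_lit 98349) (nat_lit 24) .nil)))) (.g (nat_lit 0) (.e (nat_lit 81554) (nat_lit 0) .nil) .nil))))))) (.nd (nat_lit 6) (.nd (nat_lit 7) (.nd (nat_lit 8) (.nd (nat_lit 9) 
(.lf (nat_lit 468012) (.g (nat_lit 541) (.e (nat_lit 3246) (nat_lit 197) (.e (nat_lit 532549) (nat_lit 12) (.e (nat_lit 360471) (nat_lit 7) .nil))) (.g (nat_lit 0) (.e (nat_lit 78795) (nat_lit 0) .nil) .nil))) 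
(.lf (nat_lit 468524) (.g (nat_lit 4516) (.e (nat_lit 3295) (nat_lit 202) (.e (nat_lit 573492) (nat_lit 15) (.e (nat_lit 81956) (nat_lit 23) (.e (nat_lit 98320) (nat_lit 17) (.e (nat_lit 7589) (nat_lit 406) (.e (nat_lit 65637) (nat_lit 15) .nil)))))) (.g (nat_lit 1) (.e (nat_lit 80223) (nat_lit 0) .nil) .nil)))) (.nd (nat_lit 9) 
(.lf (nat_lit 468268) (.g (nat_lit 1968) (.e (nat_lit 7936) (nat_lit 195) (.e (nat_lit 516160) (nat_lit 10) (.e (nat_lit 434245) (nat_lit 28) (.e (nat_lit 573488) (nat_lit 14) (.e (nat_lit 73741) (nat_lit 1) .nil))))) (.g (nat_lit 0) (.e (nat_lit 79211) (nat_lit 0) .nil) .nil))) 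
(.lf (nat_lit 468780) (.g (nat_lit 2663) (.e (nat_lit 3298) (nat_lit 202) (.e (nat_lit 573481) (nat_lit 13) (.e (nat_lit 65604) (nat_lit 9) (.e (nat_lit 336013) (nat_lit 2) (.e (nat_lit 90165) (nat_lit 12) (.e (nat_lit 164208) (nat_lit 176) (.e (nat_lit 2781) (nat_lit 178) (.e (nat_lit 294656) (nat_lit 15) .nil)))))))) (.g (nat_lit 1) (.e (nat_lit 81013) (nat_lit 0) .nil) .nil))))) 
(.nd (nat_lit 8) (.nd (nat_lit 9) 
(.lf (nat_lit 468140) (.g (nat_lit 3375) (.e (nat_lit 3262) (nat_lit 198) (.e (nat_lit 540706) (nat_lit 12) (.e (nat_lit 360475) (nat_lit 8) (.e (nat_lit 557089) (nat_lit 12) (.e (nat_lit 163847) (nat_lit 0) .nil))))) (.g (nat_lit 0) (.e (nat_lit 79031) (nat_lit 0) .nil) .nil))) 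
(.lf (nat_lit 468652) (.g (nat_lit 2029) (.e (nat_lit 3297) (nat_lit 202) (.e (nat_lit 573481) (nat_lit 13) (.e (nat_lit 65628) (nat_lit 14) (.e (nat_lit 401428) (nat_lit 3) (.e (nat_lit 204861) (nat_lit 26) (.e (nat_lit 336086) (nat_lit 9) (.e (nat_lit 336306) (nat_lit 15) .nil))))))) (.g (nat_lit 1) (.e (nat_lit 80530) (nat_lit 0) .nil) .nil)))) (.nd (nat_lit 9) 
(.lf (nat_lit 468396) (.g (nat_lit 2826) (.e (nat_lit 3271) (nat_lit 199) (.e (nat_lit 548915) (nat_lit 20) (.e (nat_lit 188420) (nat_lit 0) (.e (nat_lit 1856) (nat_lit 124) (.e (nat_lit 557107) (nat_lit 15) (.e (nat_lit 188440) (nat_lit 20) .nil)))))) (.g (nat_lit 1) (.e (nat_lit 79633) (nat_lit 0) .nil) .nil))) 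
(.lf (nat_lit 468908) (.g (nat_lit 2544) (.e (nat_lit 3298) (nat_lit 202) (.e (nat_lit 573493) (nat_lit 15) (.e (nat_lit 81951) (nat_lit 22) (.e (nat_lit 90133) (nat_lit 9) .nil)))) (.g (nat_lit 0) (.e (nat_lit 81508) (nat_lit 0) .nil) .nil)))))) (.nd (nat_lit 7) (.nd (nat_lit 8) (.nd (nat_lit 9) 
(.lf (nat_lit 468076) (.g (nat_lit 4325) (.e (nat_lit 3262) (nat_lit 198) (.e (nat_lit 540704) (nat_lit 12) (.e (nat_lit 360471) (nat_lit 7) (.e (nat_lit 548889) (nat_lit 9) (.e (nat_lit 65630) (nat_lit 14) (.e (nat_lit 401412) (nat_lit 0) .nil)))))) (.g (nat_lit 1) (.e (nat_lit 78899) (nat_lit 0) .nil) .nil))) 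
(.lf (nat_lit 468588) (.g (nat_lit 3050) (.e (nat_lit 3297) (nat_lit 202) (.e (nat_lit 573471) (nat_lit 11) (.e (nat_lit 16473) (nat_lit 14) (.e (nat_lit 491535) (nat_lit 2) (.e (nat_lit 90178) (nat_lit 15) .nil))))) (.g (nat_lit 0) (.e (nat_lit 80400) (nat_lit 0) .nil) .nil)))) (.nd (nat_lit 9) 
(.lf (nat_lit 468332) (.g (nat_lit 3389) (.e (nat_lit 3270) (nat_lit 199) (.e (nat_lit 548913) (nat_lit 18) (.e (nat_lit 172126) (nat_lit 14) (.e (nat_lit 491537) (nat_lit 2) (.e (nat_lit 90176) (nat_lit 15) (.e (nat_lit 188439) (nat_lit 20) .nil)))))) (.g (nat_lit 1) (.e (nat_lit 79400) (nat_lit 0) .nil) .nil))) 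
(.lf (nat_lit 468844) (.g (nat_lit 414) (.e (nat_lit 3298) (nat_lit 202) (.e (nat_lit 573491) (nat_lit 15) (.e (nat_lit 81954) (nat_lit 23) .nil))) (.g (nat_lit 0) (.e (nat_lit 81284) (nat_lit 0) .nil) .nil))))) (.nd (nat_lit 8) (.nd (nat_lit 9) 
(.lf (nat_lit 468204) (.g (nat_lit 3791) (.e (nat_lit 3262) (nat_lit 198) (.e (nat_lit 540706) (nat_lit 12) (.e (nat_lit 360475) (nat_lit 8) (.e (nat_lit 557091) (nat_lit 12) (.e (nat_lit 164022) (nat_lit 46) (.e (nat_lit 704736) (nat_lit 11) (.e (nat_lit 16391) (nat_lit 0) .nil))))))) (.g (nat_lit 1) (.e (nat_lit 79108) (nat_lit 0) .nil) .nil))) 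
(.lf (nat_lit 468716) (.g (nat_lit 2840) (.e (nat_lit 3297) (nat_lit 202) (.e (nat_lit 573492) (nat_lit 15) (.e (nat_lit 81956) (nat_lit 23) (.e (nat_lit 98319) (nat_lit 17) (.e (nat_lit 7587) (nat_lit 406) (.e (nat_lit 73472) (nat_lit 15) .nil)))))) (.g (nat_lit 1) (.e (nat_lit 80881) (nat_lit 0) .nil) .nil)))) (.nd (nat_lit 9) 
(.lf (nat_lit 468460) (.g (nat_lit 1503) (.e (nat_lit 3272) (nat_lit 199) (.e (nat_lit 548913) (nat_lit 18) (.e (nat_lit 172126) (nat_lit 14) (.e (nat_lit 491535) (nat_lit 2) .nil)))) (.g (nat_lit 0) (.e (nat_lit 80068) (nat_lit 0) .nil) .nil))) 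
(.lf (nat_lit 468972) (.g (nat_lit 2438) (.e (nat_lit 3302) (nat_lit 202) (.e (nat_lit 573481) (nat_lit 13) (.e (nat_lit 65619) (nat_lit 10) (.e (nat_lit 344117) (nat_lit 21) (.e (nat_lit 516106) (nat_lit 0) (.e (nat_lit 7936) (nat_lit 406) (.e (nat_lit 65636) (nat_lit 15) .nil))))))) (.g (nat_lit 1) (.e (nat_lit 81673) (nat_lit 0) .nil) .nil)))))))) 
(.nd (nat_lit 5) (.nd (nat_lit 6) (.nd (nat_lit 7) (.nd (nat_lit 8) (.nd (nat_lit 9) 
(.lf (nat_lit 467996) (.g (nat_lit 2437) (.e (nat_lit 3245) (nat_lit 197) (.e (nat_lit 532503) (nat_lit 1) (.e (nat_lit 57931) (nat_lit 282) (.e (nat_lit 163867) (nat_lit 2) (.e (nat_lit 196670) (nat_lit 14) .nil))))) (.g (nat_lit 0) (.e (nat_lit 78776) (nat_lit 0) .nil) .nil))) 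
(.lf (nat_lit 468508) (.g (nat_lit 1991) (.e (nat_lit 3295) (nat_lit 202) (.e (nat_lit 573485) (nat_lit 13) (.e (nat_lit 65619) (nat_lit 10) (.e (nat_lit 344117) (nat_lit 21) (.e (nat_lit 516106) (nat_lit 0) (.e (nat_lit 7936) (nat_lit 409) (.e (nat_lit 131131) (nat_lit 15) .nil))))))) (.g (nat_lit 1) (.e (nat_lit 80178) (nat_lit 0) .nil) .nil)))) (.nd (nat_lit 9) 
(.lf (nat_lit 468252) (.g (nat_lit 1759) (.e (nat_lit 3214) (nat_lit 195) (.e (nat_lit 516146) (nat_lit 9) (.e (nat_lit 426438) (nat_lit 18) (.e (nat_lit 98367) (nat_lit 27) (.e (nat_lit 434244) (nat_lit 28) .nil))))) (.g (nat_lit 0) (.e (nat_lit 79184) (nat_lit 0) .nil) .nil))) 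
(.lf (nat_lit 468764) (.g (nat_lit 3607) (.e (nat_lit 3297) (nat_lit 202) (.e (nat_lit 573493) (nat_lit 15) (.e (nat_lit 81953) (nat_lit 22) (.e (nat_lit 90165) (nat_lit 12) .nil)))) (.g (nat_lit 0) (.e (nat_lit 80981) (nat_lit 0) .nil) .nil))))) (.nd (nat_lit 8) (.nd (nat_lit 9) 
(.lf (nat_lit 468124) (.g (nat_lit 2450) (.e (nat_lit 3262) (nat_lit 198) (.e (nat_lit 540706) (nat_lit 12) (.e (nat_lit 360475) (nat_lit 8) (.e (nat_lit 557086) (nat_lit 11) (.e (nat_lit 24664) (nat_lit 14) (.e (nat_lit 401408) (nat_lit 0) .nil)))))) (.g (nat_lit 1) (.e (nat_lit 79015) (nat_lit 0) .nil) .nil))) 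
(.lf (nat_lit 468636) (.g (nat_lit 2203) (.e (nat_lit 3297) (nat_lit 202) (.e (nat_lit 573481) (nat_lit 13) (.e (nat_lit 65619) (nat_lit 10) (.e (nat_lit 344117) (nat_lit 21) (.e (nat_lit 516185) (nat_lit 16) (.e (nat_lit 499456) (nat_lit 9) (.e (nat_lit 336306) (nat_lit 15) .nil))))))) (.g (nat_lit 1) (.e (nat_lit 80505) (nat_lit 0) .nil) .nil)))) (.nd (nat_lit 9) 
(.lf (nat_lit 468380) (.g (nat_lit 2648) (.e (nat_lit 3271) (nat_lit 199) (.e (nat_lit 548913) (nat_lit 18) (.e (nat_lit 172126) (nat_lit 14) (.e (nat_lit 491530) (nat_lit 0) .nil)))) (.g (nat_lit 0) (.e (nat_lit 79615) (nat_lit 0) .nil) .nil))) 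
(.lf (nat_lit 468892) (.g (nat_lit 1325) (.e (nat_lit 3298) (nat_lit 202) (.e (nat_lit 573492) (nat_lit 15) (.e (nat_lit 81956) (nat_lit 23) (.e (nat_lit 98387) (nat_lit 33) .nil)))) (.g (nat_lit 0) (.e (nat_lit 81479) (nat_lit 0) .nil) .nil)))))) (.nd (nat_lit 7) (.nd (nat_lit 8) (.nd (nat_lit 9) 
(.lf (nat_lit 468060) (.g (nat_lit 917) (.e (nat_lit 3259) (nat_lit 198) (.e (nat_lit 540704) (nat_lit 12) (.e (nat_lit 360466) (nat_lit 3) (.e (nat_lit 516138) (nat_lit 7) .nil)))) (.g (nat_lit 0) (.e (nat_lit 78860) (nat_lit 0) .nil) .nil))) 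
(.lf (nat_lit 468572) (.g (nat_lit 3350) (.e (nat_lit 3297) (nat_lit 202) (.e (nat_lit 573471) (nat_lit 11) (.e (nat_lit 16425) (nat_lit 7) (.e (nat_lit 409616) (nat_lit 10) (.e (nat_lit 7936) (nat_lit 43) (.e (nat_lit 516164) (nat_lit 11) (.e (nat_lit 442406) (nat_lit 20) .nil))))))) (.g (nat_lit 1) (.e (nat_lit 80373) (nat_lit 0) .nil) .nil)))) (.nd (nat_lit 9) 
(.lf (nat_lit 468316) (.g (nat_lit 3948) (.e (nat_lit 3270) (nat_lit 199) (.e (nat_lit 548913) (nat_lit 18) (.e (nat_lit 172120) (nat_lit 12) (.e (nat_lit 475185) (nat_lit 29) (.e (nat_lit 557109) (nat_lit 15) (.e (nat_lit 188441) (nat_lit 20) .nil)))))) (.g (nat_lit 1) (.e (nat_lit 79384) (nat_lit 0) .nil) .nil))) 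
(.lf (nat_lit 468828) (.g (nat_lit 1442) (.e (nat_lit 3298) (nat_lit 202) (.e (nat_lit 573482) (nat_lit 13) (.e (nat_lit 65619) (nat_lit 10) (.e (nat_lit 344117) (nat_lit 21) .nil)))) (.g (nat_lit 0) (.e (nat_lit 81108) (nat_lit 0) .nil) .nil))))) (.nd (nat_lit 8) (.nd (nat_lit 9) 
(.lf (nat_lit 468188) (.g (nat_lit 4208) (.e (nat_lit 3262) (nat_lit 198) (.e (nat_lit 540706) (nat_lit 12) (.e (nat_lit 360475) (nat_lit 8) (.e (nat_lit 557091) (nat_lit 12) (.e (nat_lit 163844) (nat_lit 0) (.e (nat_lit 6420) (nat_lit 341) (.e (nat_lit 163902) (nat_lit 12) (.e (nat_lit 425985) (nat_lit 0) .nil)))))))) (.g (nat_lit 1) (.e (nat_lit 79090) (nat_lit 0) .nil) .nil))) 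
(.lf (nat_lit 468700) (.g (nat_lit 1899) (.e (nat_lit 3297) (nat_lit 202) (.e (nat_lit 573491) (nat_lit 15) (.e (nat_lit 81954) (nat_lit 23) (.e (nat_lit 98389) (nat_lit 33) (.e (nat_lit 491552) (nat_lit 9) (.e (nat_lit 343808) (nat_lit 15) .nil)))))) (.g (nat_lit 1) (.e (nat_lit 80780) (nat_lit 0) .nil) .nil)))) (.nd (nat_lit 9) 
(.lf (nat_lit 468444) (.g (nat_lit 3549) (.e (nat_lit 3272) (nat_lit 199) (.e (nat_lit 548913) (nat_lit 18) (.e (nat_lit 172125) (nat_lit 14) (.e (nat_lit 491535) (nat_lit 2) (.e (nat_lit 90176) (nat_lit 15) (.e (nat_lit 188439) (nat_lit 20) .nil)))))) (.g (nat_lit 1) (.e (nat_lit 80047) (nat_lit 0) .nil) .nil))) 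
(.lf (nat_lit 468956) (.g (nat_lit 3656) (.e (nat_lit 3299) (nat_lit 202) (.e (nat_lit 573477) (nat_lit 12) (.e (nat_lit 57574) (nat_lit 55) (.e (nat_lit 778466) (nat_lit 11) (.e (nat_lit 24604) (nat_lit 2) (.e (nat_lit 90185) (nat_lit 17) (.e (nat_lit 237605) (nat_lit 9) (.e (nat_lit 425986) (nat_lit 0) .nil)))))))) (.g (nat_lit 1) (.e (nat_lit 81586) (nat_lit 0) .nil) .nil))))))) 
(.nd (nat_lit 6) (.nd (nat_lit 7) (.nd (nat_lit 8) (.nd (nat_lit 9) 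
(.lf (nat_lit 468028) (.g (nat_lit 1879) (.e (nat_lit 3257) (nat_lit 198) (.e (nat_lit 540706) (nat_lit 12) (.e (nat_lit 360475) (nat_lit 8) (.e (nat_lit 557090) (nat_lit 12) .nil)))) (.g (nat_lit 0) (.e (nat_lit 78816) (nat_lit 0) .nil) .nil))) 
(.lf (nat_lit 468540) (.g (nat_lit 3657) (.e (nat_lit 3295) (nat_lit 202) (.e (nat_lit 573493) (nat_lit 15) (.e (nat_lit 81956) (nat_lit 23) (.e (nat_lit 106240) (nat_lit 17) .nil)))) (.g (nat_lit 0) (.e (nat_lit 80264) (nat_lit 0) .nil) .nil)))) (.nd (nat_lit 9) 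
(.lf (nat_lit 468284) (.g (nat_lit 1535) (.e (nat_lit 7936) (nat_lit 195) (.e (nat_lit 516179) (nat_lit 15) (.e (nat_lit 475177) (nat_lit 24) (.e (nat_lit 516161) (nat_lit 10) .nil)))) (.g (nat_lit 0) (.e (nat_lit 79227) (nat_lit 0) .nil) .nil))) 
(.lf (nat_lit 468796) (.g (nat_lit 2711) (.e (nat_lit 3298) (nat_lit 202) (.e (nat_lit 573481) (nat_lit 13) (.e (nat_lit 65619) (nat_lit 10) (.e (nat_lit 344117) (nat_lit 21) (.e (nat_lit 516106) (nat_lit 0) (.e (nat_lit 7936) (nat_lit 406) (.e (nat_lit 73472) (nat_lit 15) .nil))))))) (.g (nat_lit 1) (.e (nat_lit 81053) (nat_lit 0) .nil) .nil))))) (.nd (nat_lit 8) (.nd (nat_lit 9) 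
(.lf (nat_lit 468156) (.g (nat_lit 2516) (.e (nat_lit 3262) (nat_lit 198) (.e (nat_lit 540706) (nat_lit 12) (.e (nat_lit 360475) (nat_lit 8) (.e (nat_lit 557090) (nat_lit 12) (.e (nat_lit 164020) (nat_lit 45) (.e (nat_lit 696327) (nat_lit 5) (.e (nat_lit 2842) (nat_lit 184) (.e (nat_lit 426032) (nat_lit 0) .nil)))))))) (.g (nat_lit 1) (.e (nat_lit 79055) (nat_lit 0) .nil) .nil))) 
(.lf (nat_lit 468668) (.g (nat_lit 2398) (.e (nat_lit 3297) (nat_lit 202) (.e (nat_lit 573484) (nat_lit 13) (.e (nat_lit 65610) (nat_lit 10) (.e (nat_lit 344117) (nat_lit 21) .nil)))) (.g (nat_lit 0) (.e (nat_lit 80547) (nat_lit 0) .nil) .nil)))) (.nd (nat_lit 9) 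
(.lf (nat_lit 468412) (.g (nat_lit 3774) (.e (nat_lit 3272) (nat_lit 199) (.e (nat_lit 548913) (nat_lit 18) (.e (nat_lit 172119) (nat_lit 12) (.e (nat_lit 475185) (nat_lit 29) (.e (nat_lit 557109) (nat_lit 15) (.e (nat_lit 188441) (nat_lit 20) .nil)))))) (.g (nat_lit 1) (.e (nat_lit 80014) (nat_lit 0) .nil) .nil))) 
(.lf (nat_lit 468924) (.g (nat_lit 2582) (.e (nat_lit 3298) (nat_lit 202) (.e (nat_lit 573493) (nat_lit 15) (.e (nat_lit 81953) (nat_lit 22) (.e (nat_lit 90165) (nat_lit 12) (.e (nat_lit 164208) (nat_lit 176) (.e (nat_lit 2781) (nat_lit 178) (.e (nat_lit 294656) (nat_lit 15) .nil))))))) (.g (nat_lit 1) (.e (nat_lit 81525) (nat_lit 0) .nil) .nil)))))) 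
(.nd (nat_lit 7) (.nd (nat_lit 8) (.nd (nat_lit 9) 
(.lf (nat_lit 468092) (.g (nat_lit 3159) (.e (nat_lit 3262) (nat_lit 198) (.e (nat_lit 540706) (nat_lit 12) (.e (nat_lit 360474) (nat_lit 8) (.e (nat_lit 557093) (nat_lit 12) (.e (nat_lit 164022) (nat_lit 46) (.e (nat_lit 704736) (nat_lit 11) (.e (nat_lit 16391) (nat_lit 0) .nil))))))) (.g (nat_lit 1) (.e (nat_lit 78931) (nat_lit 0) .nil) .nil))) 
(.lf (nat_lit 468604) (.g (nat_lit 534) (.e (nat_lit 3297) (nat_lit 202) (.e (nat_lit 573481) (nat_lit 13) (.e (nat_lit 65619) (nat_lit 10) .nil))) (.g (nat_lit 0) (.e (nat_lit 80456) (nat_lit 0) .nil) .nil)))) (.nd (nat_lit 9) 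
(.lf (nat_lit 468348) (.g (nat_lit 1682) (.e (nat_lit 3271) (nat_lit 199) (.e (nat_lit 548913) (nat_lit 18) (.e (nat_lit 172120) (nat_lit 12) (.e (nat_lit 475184) (nat_lit 29) .nil)))) (.g (nat_lit 0) (.e (nat_lit 79583) (nat_lit 0) .nil) .nil))) 
(.lf (nat_lit 468860) (.g (nat_lit 3101) (.e (nat_lit 3298) (nat_lit 202) (.e (nat_lit 573491) (nat_lit 15) (.e (nat_lit 81956) (nat_lit 23) (.e (nat_lit 98389) (nat_lit 33) (.e (nat_lit 491547) (nat_lit 9) .nil))))) (.g (nat_lit 0) (.e (nat_lit 81319) (nat_lit 0) .nil) .nil))))) (.nd (nat_lit 8) (.nd (nat_lit 9) 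
(.lf (nat_lit 468220) (.g (nat_lit 2031) (.e (nat_lit 3208) (nat_lit 195) (.e (nat_lit 516129) (nat_lit 3) (.e (nat_lit 221210) (nat_lit 22) (.e (nat_lit 196668) (nat_lit 14) (.e (nat_lit 81664) (nat_lit 5) (.e (nat_lit 532583) (nat_lit 26) (.e (nat_lit 426012) (nat_lit 0) .nil))))))) (.g (nat_lit 1) (.e (nat_lit 79129) (nat_lit 0) .nil) .nil))) 
(.lf (nat_lit 468732) (.g (nat_lit 4073) (.e (nat_lit 3297) (nat_lit 202) (.e (nat_lit 573492) (nat_lit 15) (.e (nat_lit 81956) (nat_lit 23) (.e (nat_lit 98350) (nat_lit 24) (.e (nat_lit 409642) (nat_lit 17) .nil))))) (.g (nat_lit 0) (.e (nat_lit 80926) (nat_lit 0) .nil) .nil)))) (.nd (nat_lit 9) 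
(.lf (nat_lit 468476) (.g (nat_lit 2269) (.e (nat_lit 3272) (nat_lit 199) (.e (nat_lit 548913) (nat_lit 18) (.e (nat_lit 172126) (nat_lit 14) (.e (nat_lit 491540) (nat_lit 3) (.e (nat_lit 98369) (nat_lit 28) .nil))))) (.g (nat_lit 0) (.e (nat_lit 80085) (nat_lit 0) .nil) .nil))) 
(.lf (nat_lit 468988) (.g (nat_lit 3140) (.e (nat_lit 3302) (nat_lit 202) (.e (nat_lit 573481) (nat_lit 13) (.e (nat_lit 65630) (nat_lit 14) (.e (nat_lit 401425) (nat_lit 2) (.e (nat_lit 196672) (nat_lit 15) (.e (nat_lit 89856) (nat_lit 0) .nil)))))) (.g (nat_lit 1) (.e (nat_lit 81693) (nat_lit 0) .nil) .nil))))))))))) 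
(.nd (nat_lit 2) (.nd (nat_lit 3) (.nd (nat_lit 4) (.nd (nat_lit 5) (.nd (nat_lit 6) 
(.nd (nat_lit 7) (.nd (nat_lit 8) (.nd (nat_lit 9) 
(.lf (nat_lit 467970) (.g (nat_lit 4600) (.e (nat_lit 3256) (nat_lit 197) (.e (nat_lit 532550) (nat_lit 12) (.e (nat_lit 360475) (nat_lit 8) (.e (nat_lit 557089) (nat_lit 12) .nil)))) (.g (nat_lit 0) (.e (nat_lit 78750) (nat_lit 0) .nil) .nil))) 
(.lf (nat_lit 468482) (.g (nat_lit 688) (.e (nat_lit 7936) (nat_lit 199) (.e (nat_lit 548913) (nat_lit 18) (.e (nat_lit 172120) (nat_lit 12) .nil))) (.g (nat_lit 0) (.e (nat_lit 80123) (nat_lit 0) .nil) .nil)))) (.nd (nat_lit 9) 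
(.lf (nat_lit 468226) (.g (nat_lit 1022) (.e (nat_lit 3209) (nat_lit 195) (.e (nat_lit 516179) (nat_lit 15) (.e (nat_lit 475177) (nat_lit 24) .nil))) (.g (nat_lit 0) (.e (nat_lit 79136) (nat_lit 0) .nil) .nil))) 
(.lf (nat_lit 468738) (.g (nat_lit 3767) (.e (nat_lit 3297) (nat_lit 202) (.e (nat_lit 573492) (nat_lit 15) (.e (nat_lit 81956) (nat_lit 23) (.e (nat_lit 98384) (nat_lit 32) (.e (nat_lit 475210) (nat_lit 41) (.e (nat_lit 712719) (nat_lit 15) .nil)))))) (.g (nat_lit 1) (.e (nat_lit 80952) (nat_lit 0) .nil) .nil))))) (.nd (nat_lit 8) (.nd (nat_lit 9) 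
(.lf (nat_lit 468098) (.g (nat_lit 2877) (.e (nat_lit 3262) (nat_lit 198) (.e (nat_lit 540706) (nat_lit 12) (.e (nat_lit 360474) (nat_lit 8) (.e (nat_lit 557093) (nat_lit 12) (.e (nat_lit 164023) (nat_lit 46) (.e (nat_lit 704735) (nat_lit 11) (.e (nat_lit 16390) (nat_lit 0) .nil))))))) (.g (nat_lit 1) (.e (nat_lit 78937) (nat_lit 0) .nil) .nil))) 
(.lf (nat_lit 468610) (.g (nat_lit 3144) (.e (nat_lit 3297) (nat_lit 202) (.e (nat_lit 573481) (nat_lit 13) (.e (nat_lit 65619) (nat_lit 10) (.e (nat_lit 344117) (nat_lit 21) (.e (nat_lit 516098) (nat_lit 0) (.e (nat_lit 7589) (nat_lit 406) (.e (nat_lit 73472) (nat_lit 15) .nil))))))) (.g (nat_lit 1) (.e (nat_lit 80473) (nat_lit 0) .nil) .nil)))) (.nd (nat_lit 9) 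
(.lf (nat_lit 468354) (.g (nat_lit 1665) (.e (nat_lit 3271) (nat_lit 199) (.e (nat_lit 548913) (nat_lit 18) (.e (nat_lit 172124) (nat_lit 14) (.e (nat_lit 491523) (nat_lit 0) .nil)))) (.g (nat_lit 0) (.e (nat_lit 79589) (nat_lit 0) .nil) .nil))) 
(.lf (nat_lit 468866) (.g (nat_lit 4090) (.e (nat_lit 3298) (nat_lit 202) (.e (nat_lit 573492) (nat_lit 15) (.e (nat_lit 81953) (nat_lit 22) (.e (nat_lit 90162) (nat_lit 12) .nil)))) (.g (nat_lit 0) (.e (nat_lit 81380) (nat_lit 0) .nil) .nil)))))) (.nd (nat_lit 7) (.nd (nat_lit 8) (.nd (nat_lit 9) 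
(.lf (nat_lit 468034) (.g (nat_lit 1755) (.e (nat_lit 3258) (nat_lit 198) (.e (nat_lit 540703) (nat_lit 11) (.e (nat_lit 352315) (nat_lit 23) (.e (nat_lit 98349) (nat_lit 24) (.e (nat_lit 417536) (nat_lit 18) .nil))))) (.g (nat_lit 0) (.e (nat_lit 78822) (nat_lit 0) .nil) .nil))) 
(.lf (nat_lit 468546) (.g (nat_lit 916) (.e (nat_lit 3296) (nat_lit 202) (.e (nat_lit 573476) (nat_lit 12) (.e (nat_lit 57574) (nat_lit 55) (.e (nat_lit 778466) (nat_lit 11) .nil)))) (.g (nat_lit 0) (.e (nat_lit 80286) (nat_lit 0) .nil) .nil)))) (.nd (nat_lit 9) 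
(.lf (nat_lit 468290) (.g (nat_lit 222) (.e (nat_lit 3222) (nat_lit 196) (.e (nat_lit 524319) (nat_lit 11) (.e (nat_lit 450304) (nat_lit 18) .nil))) (.g (nat_lit 0) (.e (nat_lit 79235) (nat_lit 0) .nil) .nil))) 
(.lf (nat_lit 468802) (.g (nat_lit 1900) (.e (nat_lit 3298) (nat_lit 202) (.e (nat_lit 573481) (nat_lit 13) (.e (nat_lit 65619) (nat_lit 10) (.e (nat_lit 344117) (nat_lit 21) (.e (nat_lit 516185) (nat_lit 16) (.e (nat_lit 499456) (nat_lit 9) (.e (nat_lit 336306) (nat_lit 15) .nil))))))) (.g (nat_lit 1) (.e (nat_lit 81062) (nat_lit 0) .nil) .nil))))) (.nd (nat_lit 8) (.nd (nat_lit 9) 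
(.lf (nat_lit 468162) (.g (nat_lit 2240) (.e (nat_lit 3262) (nat_lit 198) (.e (nat_lit 540706) (nat_lit 12) (.e (nat_lit 360475) (nat_lit 8) (.e (nat_lit 557090) (nat_lit 12) (.e (nat_lit 164020) (nat_lit 45) (.e (nat_lit 696328) (nat_lit 5) (.e (nat_lit 2888) (nat_lit 184) (.e (nat_lit 426032) (nat_lit 0) .nil)))))))) (.g (nat_lit 1) (.e (nat_lit 79061) (nat_lit 0) .nil) .nil))) 
(.lf (nat_lit 468674) (.g (nat_lit 3211) (.e (nat_lit 3297) (nat_lit 202) (.e (nat_lit 573484) (nat_lit 13) (.e (nat_lit 65617) (nat_lit 10) (.e (nat_lit 344133) (nat_lit 26) (.e (nat_lit 557085) (nat_lit 11) (.e (nat_lit 24630) (nat_lit 9) (.e (nat_lit 336306) (nat_lit 15) .nil))))))) (.g (nat_lit 1) (.e (nat_lit 80554) (nat_lit 0) .nil) .nil)))) (.nd (nat_lit 9) 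
(.lf (nat_lit 468418) (.g (nat_lit 2088) (.e (nat_lit 3272) (nat_lit 199) (.e (nat_lit 548913) (nat_lit 18) (.e (nat_lit 172120) (nat_lit 12) (.e (nat_lit 475184) (nat_lit 29) (.e (nat_lit 557107) (nat_lit 15) .nil))))) (.g (nat_lit 0) (.e (nat_lit 80020) (nat_lit 0) .nil) .nil))) 
(.lf (nat_lit 468930) (.g (nat_lit 3251) (.e (nat_lit 3298) (nat_lit 202) (.e (nat_lit 573493) (nat_lit 15) (.e (nat_lit 81956) (nat_lit 23) (.e (nat_lit 98320) (nat_lit 17) .nil)))) (.g (nat_lit 0) (.e (nat_lit 81537) (nat_lit 0) .nil) .nil))))))) (.nd (nat_lit 6) (.nd (nat_lit 7) (.nd (nat_lit 8) (.nd (nat_lit 9) 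
(.lf (nat_lit 468002) (.g (nat_lit 3351) (.e (nat_lit 3246) (nat_lit 197) (.e (nat_lit 532503) (nat_lit 1) (.e (nat_lit 57931) (nat_lit 282) (.e (nat_lit 163867) (nat_lit 2) (.e (nat_lit 196670) (nat_lit 14) (.e (nat_lit 73746) (nat_lit 3) (.e (nat_lit 516129) (nat_lit 3) (.e (nat_lit 221196) (nat_lit 20) .nil)))))))) (.g (nat_lit 1) (.e (nat_lit 78783) (nat_lit 0) .nil) .nil))) 
(.lf (nat_lit 468514) (.g (nat_lit 2904) (.e (nat_lit 3295) (nat_lit 202) (.e (nat_lit 573485) (nat_lit 13) (.e (nat_lit 65619) (nat_lit 10) (.e (nat_lit 344129) (nat_lit 26) (.e (nat_lit 557087) (nat_lit 11) (.e (nat_lit 24636) (nat_lit 9) (.e (nat_lit 336272) (nat_lit 15) .nil))))))) (.g (nat_lit 1) (.e (nat_lit 80185) (nat_lit 0) .nil) .nil)))) (.nd (nat_lit 9) 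
(.lf (nat_lit 468258) (.g (nat_lit 2024) (.e (nat_lit 7936) (nat_lit 195) (.e (nat_lit 516160) (nat_lit 10) (.e (nat_lit 434244) (nat_lit 28) (.e (nat_lit 573481) (nat_lit 13) (.e (nat_lit 65567) (nat_lit 2) .nil))))) (.g (nat_lit 0) (.e (nat_lit 79201) (nat_lit 0) .nil) .nil))) 
(.lf (nat_lit 468770) (.g (nat_lit 851) (.e (nat_lit 3298) (nat_lit 202) (.e (nat_lit 573471) (nat_lit 11) (.e (nat_lit 16455) (nat_lit 12) .nil))) (.g (nat_lit 0) (.e (nat_lit 80992) (nat_lit 0) .nil) .nil))))) (.nd (nat_lit 8) (.nd (nat_lit 9) 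
(.lf (nat_lit 468130) (.g (nat_lit 3383) (.e (nat_lit 3262) (nat_lit 198) (.e (nat_lit 540706) (nat_lit 12) (.e (nat_lit 360475) (nat_lit 8) (.e (nat_lit 557087) (nat_lit 11) (.e (nat_lit 24661) (nat_lit 14) (.e (nat_lit 401412) (nat_lit 0) .nil)))))) (.g (nat_lit 1) (.e (nat_lit 79021) (nat_lit 0) .nil) .nil))) 
(.lf (nat_lit 468642) (.g (nat_lit 4400) (.e (nat_lit 3297) (nat_lit 202) (.e (nat_lit 573481) (nat_lit 13) (.e (nat_lit 65619) (nat_lit 10) (.e (nat_lit 344129) (nat_lit 26) (.e (nat_lit 557087) (nat_lit 11) (.e (nat_lit 24627) (nat_lit 9) (.e (nat_lit 336306) (nat_lit 15) .nil))))))) (.g (nat_lit 1) (.e (nat_lit 80520) (nat_lit 0) .nil) .nil)))) (.nd (nat_lit 9) 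
(.lf (nat_lit 468386) (.g (nat_lit 4293) (.e (nat_lit 3271) (nat_lit 199) (.e (nat_lit 548913) (nat_lit 18) (.e (nat_lit 172126) (nat_lit 14) (.e (nat_lit 491537) (nat_lit 2) (.e (nat_lit 90178) (nat_lit 15) (.e (nat_lit 188440) (nat_lit 20) .nil)))))) (.g (nat_lit 1) (.e (nat_lit 79621) (nat_lit 0) .nil) .nil))) 
(.lf (nat_lit 468898) (.g (nat_lit 3396) (.e (nat_lit 3298) (nat_lit 202) (.e (nat_lit 573492) (nat_lit 15) (.e (nat_lit 81956) (nat_lit 23) (.e (nat_lit 98388) (nat_lit 33) (.e (nat_lit 491550) (nat_lit 9) (.e (nat_lit 336306) (nat_lit 15) .nil)))))) (.g (nat_lit 1) (.e (nat_lit 81485) (nat_lit 0) .nil) .nil)))))) (.nd (nat_lit 7) (.nd (nat_lit 8) (.nd (nat_lit 9) 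
(.lf (nat_lit 468066) (.g (nat_lit 3215) (.e (nat_lit 3260) (nat_lit 198) (.e (nat_lit 540706) (nat_lit 12) (.e (nat_lit 360475) (nat_lit 8) (.e (nat_lit 557085) (nat_lit 11) (.e (nat_lit 24665) (nat_lit 14) .nil))))) (.g (nat_lit 0) (.e (nat_lit 78884) (nat_lit 0) .nil) .nil))) 
(.lf (nat_lit 468578) (.g (nat_lit 2380) (.e (nat_lit 3297) (nat_lit 202) (.e (nat_lit 573471) (nat_lit 11) (.e (nat_lit 16455) (nat_lit 12) (.e (nat_lit 475185) (nat_lit 29) (.e (nat_lit 557107) (nat_lit 15) .nil))))) (.g (nat_lit 0) (.e (nat_lit 80389) (nat_lit 0) .nil) .nil)))) (.nd (nat_lit 9) 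
(.lf (nat_lit 468322) (.g (nat_lit 2092) (.e (nat_lit 3270) (nat_lit 199) (.e (nat_lit 548913) (nat_lit 18) (.e (nat_lit 172124) (nat_lit 14) (.e (nat_lit 491540) (nat_lit 3) (.e (nat_lit 98370) (nat_lit 28) .nil))))) (.g (nat_lit 0) (.e (nat_lit 79390) (nat_lit 0) .nil) .nil))) 
(.lf (nat_lit 468834) (.g (nat_lit 2957) (.e (nat_lit 3298) (nat_lit 202) (.e (nat_lit 573482) (nat_lit 13) (.e (nat_lit 65619) (nat_lit 10) (.e (nat_lit 344117) (nat_lit 21) (.e (nat_lit 516185) (nat_lit 16) (.e (nat_lit 491549) (nat_lit 9) (.e (nat_lit 336306) (nat_lit 15) .nil))))))) (.g (nat_lit 1) (.e (nat_lit 81114) (nat_lit 0) .nil) .nil))))) (.nd (nat_lit 8) (.nd (nat_lit 9) 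
(.lf (nat_lit 468194) (.g (nat_lit 2932) (.e (nat_lit 3262) (nat_lit 198) (.e (nat_lit 540706) (nat_lit 12) (.e (nat_lit 360475) (nat_lit 8) (.e (nat_lit 557091) (nat_lit 12) (.e (nat_lit 164016) (nat_lit 44) .nil))))) (.g (nat_lit 0) (.e (nat_lit 79098) (nat_lit 0) .nil) .nil))) 
(.lf (nat_lit 468706) (.g (nat_lit 3216) (.e (nat_lit 3297) (nat_lit 202) (.e (nat_lit 573491) (nat_lit 15) (.e (nat_lit 81956) (nat_lit 23) (.e (nat_lit 98388) (nat_lit 33) (.e (nat_lit 491550) (nat_lit 9) (.e (nat_lit 336306) (nat_lit 15) .nil)))))) (.g (nat_lit 1) (.e (nat_lit 80787) (nat_lit 0) .nil) .nil)))) (.nd (nat_lit 9) 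
(.lf (nat_lit 468450) (.g (nat_lit 4408) (.e (nat_lit 3272) (nat_lit 199) (.e (nat_lit 548913) (nat_lit 18) (.e (nat_lit 172125) (nat_lit 14) (.e (nat_lit 491537) (nat_lit 2) (.e (nat_lit 90176) (nat_lit 15) (.e (nat_lit 188439) (nat_lit 20) .nil)))))) (.g (nat_lit 1) (.e (nat_lit 80053) (nat_lit 0) .nil) .nil))) 
(.lf (nat_lit 468962) (.g (nat_lit 620) (.e (nat_lit 3302) (nat_lit 202) (.e (nat_lit 573471) (nat_lit 11) (.e (nat_lit 16470) (nat_lit 14) .nil))) (.g (nat_lit 0) (.e (nat_lit 81659) (nat_lit 0) .nil) .nil)))))))) (.nd (nat_lit 5) (.nd (nat_lit 6) (.nd (nat_lit 7) (.nd (nat_lit 8) (.nd (nat_lit 9) 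
(.lf (nat_lit 467986) (.g (nat_lit 2805) (.e (nat_lit 3244) (nat_lit 197) (.e (nat_lit 532503) (nat_lit 1) (.e (nat_lit 57931) (nat_lit 282) (.e (nat_lit 163873) (nat_lit 3) (.e (nat_lit 204853) (nat_lit 26) .nil))))) (.g (nat_lit 0) (.e (nat_lit 78766) (nat_lit 0) .nil) .nil))) 
(.lf (nat_lit 468498) (.g (nat_lit 3437) (.e (nat_lit 3295) (nat_lit 202) (.e (nat_lit 573484) (nat_lit 13) (.e (nat_lit 65610) (nat_lit 10) (.e (nat_lit 344117) (nat_lit 21) (.e (nat_lit 516180) (nat_lit 15) (.e (nat_lit 475210) (nat_lit 41) (.e (nat_lit 712722) (nat_lit 15) .nil))))))) (.g (nat_lit 1) (.e (nat_lit 80150) (nat_lit 0) .nil) .nil)))) (.nd (nat_lit 9) 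
(.lf (nat_lit 468242) (.g (nat_lit 2343) (.e (nat_lit 3214) (nat_lit 195) (.e (nat_lit 516129) (nat_lit 3) (.e (nat_lit 221210) (nat_lit 22) (.e (nat_lit 196666) (nat_lit 13) (.e (nat_lit 65568) (nat_lit 2) .nil))))) (.g (nat_lit 0) (.e (nat_lit 79174) (nat_lit 0) .nil) .nil))) 
(.lf (nat_lit 468754) (.g (nat_lit 3842) (.e (nat_lit 3297) (nat_lit 202) (.e (nat_lit 573492) (nat_lit 15) (.e (nat_lit 81956) (nat_lit 23) (.e (nat_lit 98389) (nat_lit 33) (.e (nat_lit 491547) (nat_lit 9) (.e (nat_lit 336306) (nat_lit 15) .nil)))))) (.g (nat_lit 1) (.e (nat_lit 80968) (nat_lit 0) .nil) .nil))))) (.nd (nat_lit 8) (.nd (nat_lit 9) 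
(.lf (nat_lit 468114) (.g (nat_lit 2546) (.e (nat_lit 3262) (nat_lit 198) (.e (nat_lit 540706) (nat_lit 12) (.e (nat_lit 360475) (nat_lit 8) (.e (nat_lit 557065) (nat_lit 9) (.e (nat_lit 214) (nat_lit 19) .nil))))) (.g (nat_lit 0) (.e (nat_lit 78955) (nat_lit 0) .nil) .nil))) 
(.lf (nat_lit 468626) (.g (nat_lit 3581) (.e (nat_lit 3297) (nat_lit 202) (.e (nat_lit 573481) (nat_lit 13) (.e (nat_lit 65619) (nat_lit 10) (.e (nat_lit 344117) (nat_lit 21) (.e (nat_lit 516184) (nat_lit 16) (.e (nat_lit 491548) (nat_lit 9) (.e (nat_lit 336306) (nat_lit 15) .nil))))))) (.g (nat_lit 1) (.e (nat_lit 80495) (nat_lit 0) .nil) .nil)))) (.nd (nat_lit 9) 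
(.lf (nat_lit 468370) (.g (nat_lit 3113) (.e (nat_lit 3271) (nat_lit 199) (.e (nat_lit 548913) (nat_lit 18) (.e (nat_lit 172125) (nat_lit 14) (.e (nat_lit 491536) (nat_lit 2) (.e (nat_lit 90178) (nat_lit 15) (.e (nat_lit 188441) (nat_lit 20) .nil)))))) (.g (nat_lit 1) (.e (nat_lit 79605) (nat_lit 0) .nil) .nil))) 
(.lf (nat_lit 468882) (.g (nat_lit 2777) (.e (nat_lit 3298) (nat_lit 202) (.e (nat_lit 573492) (nat_lit 15) (.e (nat_lit 81956) (nat_lit 23) (.e (nat_lit 98325) (nat_lit 17) (.e (nat_lit 6986) (nat_lit 377) (.e (nat_lit 2781) (nat_lit 178) (.e (nat_lit 294656) (nat_lit 15) .nil))))))) (.g (nat_lit 1) (.e (nat_lit 81421) (nat_lit 0) .nil) .nil)))))) 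
(.nd (nat_lit 7) (.nd (nat_lit 8) (.nd (nat_lit 9) 
(.lf (nat_lit 468050) (.g (nat_lit 2092) (.e (nat_lit 3258) (nat_lit 198) (.e (nat_lit 540706) (nat_lit 12) (.e (nat_lit 360475) (nat_lit 8) (.e (nat_lit 557090) (nat_lit 12) (.e (nat_lit 164020) (nat_lit 45) (.e (nat_lit 696343) (nat_lit 8) (.e (nat_lit 172055) (nat_lit 0) .nil))))))) (.g (nat_lit 1) (.e (nat_lit 78849) (nat_lit 0) .nil) .nil))) 
(.lf (nat_lit 468562) (.g (nat_lit 3373) (.e (nat_lit 3296) (nat_lit 202) (.e (nat_lit 573492) (nat_lit 15) (.e (nat_lit 81956) (nat_lit 23) (.e (nat_lit 98389) (nat_lit 33) (.e (nat_lit 491549) (nat_lit 9) .nil))))) (.g (nat_lit 0) (.e (nat_lit 80336) (nat_lit 0) .nil) .nil)))) (.nd (nat_lit 9) 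
(.lf (nat_lit 468306) (.g (nat_lit 5029) (.e (nat_lit 3270) (nat_lit 199) (.e (nat_lit 548913) (nat_lit 18) (.e (nat_lit 172120) (nat_lit 12) (.e (nat_lit 475183) (nat_lit 29) (.e (nat_lit 557109) (nat_lit 15) (.e (nat_lit 188434) (nat_lit 20) .nil)))))) (.g (nat_lit 1) (.e (nat_lit 79374) (nat_lit 0) .nil) .nil))) 
(.lf (nat_lit 468818) (.g (nat_lit 1951) (.e (nat_lit 3298) (nat_lit 202) (.e (nat_lit 573481) (nat_lit 13) (.e (nat_lit 65630) (nat_lit 14) (.e (nat_lit 401425) (nat_lit 2) (.e (nat_lit 196672) (nat_lit 15) .nil))))) (.g (nat_lit 0) (.e (nat_lit 81096) (nat_lit 0) .nil) .nil))))) (.nd (nat_lit 8) (.nd (nat_lit 9) 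
(.lf (nat_lit 468178) (.g (nat_lit 2929) (.e (nat_lit 3262) (nat_lit 198) (.e (nat_lit 540706) (nat_lit 12) (.e (nat_lit 360475) (nat_lit 8) (.e (nat_lit 557091) (nat_lit 12) (.e (nat_lit 163843) (nat_lit 0) .nil))))) (.g (nat_lit 0) (.e (nat_lit 79078) (nat_lit 0) .nil) .nil))) 
(.lf (nat_lit 468690) (.g (nat_lit 2087) (.e (nat_lit 3297) (nat_lit 202) (.e (nat_lit 573491) (nat_lit 15) (.e (nat_lit 81954) (nat_lit 23) (.e (nat_lit 98387) (nat_lit 33) (.e (nat_lit 491548) (nat_lit 9) (.e (nat_lit 336306) (nat_lit 15) .nil)))))) (.g (nat_lit 1) (.e (nat_lit 80770) (nat_lit 0) .nil) .nil)))) (.nd (nat_lit 9) 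
(.lf (nat_lit 468434) (.g (nat_lit 4062) (.e (nat_lit 3272) (nat_lit 199) (.e (nat_lit 548913) (nat_lit 18) (.e (nat_lit 172124) (nat_lit 14) (.e (nat_lit 491537) (nat_lit 2) (.e (nat_lit 90176) (nat_lit 15) (.e (nat_lit 188439) (nat_lit 20) .nil)))))) (.g (nat_lit 1) (.e (nat_lit 80037) (nat_lit 0) .nil) .nil))) 
(.lf (nat_lit 468946) (.g (nat_lit 3817) (.e (nat_lit 3298) (nat_lit 202) (.e (nat_lit 573493) (nat_lit 15) (.e (nat_lit 81956) (nat_lit 23) (.e (nat_lit 98387) (nat_lit 33) (.e (nat_lit 491550) (nat_lit 9) (.e (nat_lit 336306) (nat_lit 15) .nil)))))) (.g (nat_lit 1) (.e (nat_lit 81571) (nat_lit 0) .nil) .nil))))))) (.nd (nat_lit 6) (.nd (nat_lit 7) (.nd (nat_lit 8) (.nd (nat_lit 9) 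
(.lf (nat_lit 468018) (.g (nat_lit 2171) (.e (nat_lit 3247) (nat_lit 197) (.e (nat_lit 532504) (nat_lit 1) (.e (nat_lit 57851) (nat_lit 252) (.e (nat_lit 57408) (nat_lit 12) .nil)))) (.g (nat_lit 0) (.e (nat_lit 78801) (nat_lit 0) .nil) .nil))) 
(.lf (nat_lit 468530) (.g (nat_lit 3511) (.e (nat_lit 3295) (nat_lit 202) (.e (nat_lit 573492) (nat_lit 15) (.e (nat_lit 81956) (nat_lit 23) (.e (nat_lit 98389) (nat_lit 33) (.e (nat_lit 491556) (nat_lit 9) (.e (nat_lit 336244) (nat_lit 15) .nil)))))) (.g (nat_lit 1) (.e (nat_lit 80238) (nat_lit 0) .nil) .nil)))) (.nd (nat_lit 9) 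
(.lf (nat_lit 468274) (.g (nat_lit 1722) (.e (nat_lit 7936) (nat_lit 195) (.e (nat_lit 516160) (nat_lit 10) (.e (nat_lit 434247) (nat_lit 28) (.e (nat_lit 573485) (nat_lit 13) (.e (nat_lit 65568) (nat_lit 2) .nil))))) (.g (nat_lit 0) (.e (nat_lit 79217) (nat_lit 0) .nil) .nil))) 
(.lf (nat_lit 468786) (.g (nat_lit 1279) (.e (nat_lit 3298) (nat_lit 202) (.e (nat_lit 573481) (nat_lit 13) (.e (nat_lit 65619) (nat_lit 10) (.e (nat_lit 344117) (nat_lit 21) .nil)))) (.g (nat_lit 0) (.e (nat_lit 81036) (nat_lit 0) .nil) .nil))))) (.nd (nat_lit 8) (.nd (nat_lit 9) 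
(.lf (nat_lit 468146) (.g (nat_lit 4300) (.e (nat_lit 3262) (nat_lit 198) (.e (nat_lit 540706) (nat_lit 12) (.e (nat_lit 360475) (nat_lit 8) (.e (nat_lit 557089) (nat_lit 12) (.e (nat_lit 163849) (nat_lit 0) (.e (nat_lit 6420) (nat_lit 341) (.e (nat_lit 163908) (nat_lit 12) (.e (nat_lit 426003) (nat_lit 0) .nil)))))))) (.g (nat_lit 1) (.e (nat_lit 79037) (nat_lit 0) .nil) .nil))) 
(.lf (nat_lit 468658) (.g (nat_lit 2179) (.e (nat_lit 3297) (nat_lit 202) (.e (nat_lit 573481) (nat_lit 13) (.e (nat_lit 65630) (nat_lit 14) (.e (nat_lit 401425) (nat_lit 2) (.e (nat_lit 196674) (nat_lit 15) (.e (nat_lit 89856) (nat_lit 0) .nil)))))) (.g (nat_lit 1) (.e (nat_lit 80536) (nat_lit 0) .nil) .nil)))) (.nd (nat_lit 9) 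
(.lf (nat_lit 468402) (.g (nat_lit 2128) (.e (nat_lit 3272) (nat_lit 199) (.e (nat_lit 548898) (nat_lit 14) (.e (nat_lit 3098) (nat_lit 192) (.e (nat_lit 491556) (nat_lit 9) (.e (nat_lit 336017) (nat_lit 3) .nil))))) (.g (nat_lit 0) (.e (nat_lit 79813) (nat_lit 0) .nil) .nil))) 
(.lf (nat_lit 468914) (.g (nat_lit 4988) (.e (nat_lit 3298) (nat_lit 202) (.e (nat_lit 573493) (nat_lit 15) (.e (nat_lit 81953) (nat_lit 22) (.e (nat_lit 90128) (nat_lit 9) .nil)))) (.g (nat_lit 0) (.e (nat_lit 81514) (nat_lit 0) .nil) .nil)))))) (.nd (nat_lit 7) (.nd (nat_lit 8) (.nd (nat_lit 9) 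
(.lf (nat_lit 468082) (.g (nat_lit 4315) (.e (nat_lit 3262) (nat_lit 198) (.e (nat_lit 540706) (nat_lit 12) (.e (nat_lit 360474) (nat_lit 8) (.e (nat_lit 557091) (nat_lit 12) (.e (nat_lit 164022) (nat_lit 46) .nil))))) (.g (nat_lit 0) (.e (nat_lit 78921) (nat_lit 0) .nil) .nil))) 
(.lf (nat_lit 468594) (.g (nat_lit 1854) (.e (nat_lit 3297) (nat_lit 202) (.e (nat_lit 573480) (nat_lit 13) (.e (nat_lit 65630) (nat_lit 14) (.e (nat_lit 401428) (nat_lit 3) (.e (nat_lit 204865) (nat_lit 28) (.e (nat_lit 360192) (nat_lit 0) .nil)))))) (.g (nat_lit 1) (.e (nat_lit 80412) (nat_lit 0) .nil) .nil)))) (.nd (nat_lit 9) 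
(.lf (nat_lit 468338) (.g (nat_lit 271) (.e (nat_lit 3271) (nat_lit 199) (.e (nat_lit 548913) (nat_lit 18) (.e (nat_lit 172082) (nat_lit 7) .nil))) (.g (nat_lit 0) (.e (nat_lit 79491) (nat_lit 0) .nil) .nil))) 
(.lf (nat_lit 468850) (.g (nat_lit 2698) (.e (nat_lit 3298) (nat_lit 202) (.e (nat_lit 573491) (nat_lit 15) (.e (nat_lit 81954) (nat_lit 23) (.e (nat_lit 98388) (nat_lit 33) (.e (nat_lit 491549) (nat_lit 9) (.e (nat_lit 336306) (nat_lit 15) .nil)))))) (.g (nat_lit 1) (.e (nat_lit 81308) (nat_lit 0) .nil) .nil))))) (.nd (nat_lit 8) (.nd (nat_lit 9) 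
(.lf (nat_lit 468210) (.g (nat_lit 4156) (.e (nat_lit 3262) (nat_lit 198) (.e (nat_lit 540706) (nat_lit 12) (.e (nat_lit 360475) (nat_lit 8) (.e (nat_lit 557091) (nat_lit 12) (.e (nat_lit 164022) (nat_lit 46) (.e (nat_lit 704738) (nat_lit 11) (.e (nat_lit 16393) (nat_lit 0) .nil))))))) (.g (nat_lit 1) (.e (nat_lit 79114) (nat_lit 0) .nil) .nil))) 
(.lf (nat_lit 468722) (.g (nat_lit 3719) (.e (nat_lit 3297) (nat_lit 202) (.e (nat_lit 573492) (nat_lit 15) (.e (nat_lit 81956) (nat_lit 23) (.e (nat_lit 98322) (nat_lit 17) .nil)))) (.g (nat_lit 0) (.e (nat_lit 80888) (nat_lit 0) .nil) .nil)))) (.nd (nat_lit 9) 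
(.lf (nat_lit 468466) (.g (nat_lit 2062) (.e (nat_lit 3272) (nat_lit 199) (.e (nat_lit 548913) (nat_lit 18) (.e (nat_lit 172126) (nat_lit 14) (.e (nat_lit 491537) (nat_lit 2) (.e (nat_lit 90176) (nat_lit 15) .nil))))) (.g (nat_lit 0) (.e (nat_lit 80074) (nat_lit 0) .nil) .nil))) 
(.lf (nat_lit 468978) (.g (nat_lit 2316) (.e (nat_lit 3302) (nat_lit 202) (.e (nat_lit 573481) (nat_lit 13) (.e (nat_lit 65619) (nat_lit 10) (.e (nat_lit 344129) (nat_lit 26) (.e (nat_lit 557087) (nat_lit 11) (.e (nat_lit 24632) (nat_lit 9) (.e (nat_lit 336280) (nat_lit 15) .nil))))))) (.g (nat_lit 1) (.e (nat_lit 81679) (nat_lit 0) .nil) .nil))))))))) 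
(.nd (nat_lit 4) (.nd (nat_lit 5) (.nd (nat_lit 6) (.nd (nat_lit 7) (.nd (nat_lit 8) 
(.nd (nat_lit 9) 
(.lf (nat_lit 467978) (.g (nat_lit 5574) (.e (nat_lit 3256) (nat_lit 197) (.e (nat_lit 532550) (nat_lit 12) (.e (nat_lit 360475) (nat_lit 8) (.e (nat_lit 557091) (nat_lit 12) (.e (nat_lit 164022) (nat_lit 46) (.e (nat_lit 704738) (nat_lit 11) (.e (nat_lit 16385) (nat_lit 0) .nil))))))) (.g (nat_lit 1) (.e (nat_lit 78758) (nat_lit 0) .nil) .nil))) 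
(.lf (nat_lit 468490) (.g (nat_lit 2304) (.e (nat_lit 3295) (nat_lit 202) (.e (nat_lit 573481) (nat_lit 13) (.e (nat_lit 65619) (nat_lit 10) (.e (nat_lit 344129) (nat_lit 26) (.e (nat_lit 557087) (nat_lit 11) (.e (nat_lit 24632) (nat_lit 9) (.e (nat_lit 336267) (nat_lit 15) .nil))))))) (.g (nat_lit 1) (.e (nat_lit 80141) (nat_lit 0) .nil) .nil)))) (.nd (nat_lit 9) 
(.lf (nat_lit 468234) (.g (nat_lit 3248) (.e (nat_lit 3213) (nat_lit 195) (.e (nat_lit 516129) (nat_lit 3) (.e (nat_lit 221210) (nat_lit 22) (.e (nat_lit 196666) (nat_lit 13) (.e (nat_lit 65566) (nat_lit 2) (.e (nat_lit 98048) (nat_lit 2) (.e (nat_lit 16388) (nat_lit 0) .nil))))))) (.g (nat_lit 1) (.e (nat_lit 79155) (nat_lit 0) .nil) .nil))) 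
(.lf (nat_lit 468746) (.g (nat_lit 2865) (.e (nat_lit 3297) (nat_lit 202) (.e (nat_lit 573492) (nat_lit 15) (.e (nat_lit 81956) (nat_lit 23) (.e (nat_lit 98387) (nat_lit 33) (.e (nat_lit 491548) (nat_lit 9) (.e (nat_lit 336306) (nat_lit 15) .nil)))))) (.g (nat_lit 1) (.e (nat_lit 80960) (nat_lit 0) .nil) .nil))))) (.nd (nat_lit 8) (.nd (nat_lit 9) 
(.lf (nat_lit 468106) (.g (nat_lit 1722) (.e (nat_lit 3262) (nat_lit 198) (.e (nat_lit 540706) (nat_lit 12) (.e (nat_lit 360474) (nat_lit 8) (.e (nat_lit 557094) (nat_lit 12) (.e (nat_lit 164022) (nat_lit 46) (.e (nat_lit 704735) (nat_lit 11) (.e (nat_lit 16395) (nat_lit 0) .nil))))))) (.g (nat_lit 1) (.e (nat_lit 78945) (nat_lit 0) .nil) .nil))) 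
(.lf (nat_lit 468618) (.g (nat_lit 2966) (.e (nat_lit 3297) (nat_lit 202) (.e (nat_lit 573481) (nat_lit 13) (.e (nat_lit 65619) (nat_lit 10) (.e (nat_lit 344117) (nat_lit 21) (.e (nat_lit 516180) (nat_lit 15) (.e (nat_lit 475207) (nat_lit 41) (.e (nat_lit 712719) (nat_lit 15) .nil))))))) (.g (nat_lit 1) (.e (nat_lit 80487) (nat_lit 0) .nil) .nil)))) (.nd (nat_lit 9) 
(.lf (nat_lit 468362) (.g (nat_lit 2699) (.e (nat_lit 3271) (nat_lit 199) (.e (nat_lit 548913) (nat_lit 18) (.e (nat_lit 172124) (nat_lit 14) (.e (nat_lit 491540) (nat_lit 3) (.e (nat_lit 98370) (nat_lit 28) (.e (nat_lit 442411) (nat_lit 20) .nil)))))) (.g (nat_lit 1) (.e (nat_lit 79597) (nat_lit 0) .nil) .nil))) 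
(.lf (nat_lit 468874) (.g (nat_lit 3285) (.e (nat_lit 3298) (nat_lit 202) (.e (nat_lit 573492) (nat_lit 15) (.e (nat_lit 81956) (nat_lit 23) (.e (nat_lit 98320) (nat_lit 17) (.e (nat_lit 7587) (nat_lit 406) (.e (nat_lit 73472) (nat_lit 15) .nil)))))) (.g (nat_lit 1) (.e (nat_lit 81409) (nat_lit 0) .nil) .nil)))))) (.nd (nat_lit 7) (.nd (nat_lit 8) (.nd (nat_lit 9) 
(.lf (nat_lit 468042) (.g (nat_lit 3623) (.e (nat_lit 3258) (nat_lit 198) (.e (nat_lit 540706) (nat_lit 12) (.e (nat_lit 360475) (nat_lit 8) (.e (nat_lit 557086) (nat_lit 11) (.e (nat_lit 24665) (nat_lit 14) (.e (nat_lit 401414) (nat_lit 0) .nil)))))) (.g (nat_lit 1) (.e (nat_lit 78837) (nat_lit 0) .nil) .nil))) 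
(.lf (nat_lit 468554) (.g (nat_lit 1784) (.e (nat_lit 3296) (nat_lit 202) (.e (nat_lit 573482) (nat_lit 13) (.e (nat_lit 65604) (nat_lit 9) (.e (nat_lit 336013) (nat_lit 2) (.e (nat_lit 90165) (nat_lit 12) .nil))))) (.g (nat_lit 0) (.e (nat_lit 80296) (nat_lit 0) .nil) .nil)))) (.nd (nat_lit 9) 
(.lf (nat_lit 468298) (.g (nat_lit 1418) (.e (nat_lit 3268) (nat_lit 199) (.e (nat_lit 548873) (nat_lit 5) (.e (nat_lit 1401) (nat_lit 106) (.e (nat_lit 319531) (nat_lit 16) (.e (nat_lit 294656) (nat_lit 34) .nil))))) (.g (nat_lit 0) (.e (nat_lit 79259) (nat_lit 0) .nil) .nil))) 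
(.lf (nat_lit 468810) (.g (nat_lit 2907) (.e (nat_lit 3298) (nat_lit 202) (.e (nat_lit 573481) (nat_lit 13) (.e (nat_lit 65619) (nat_lit 10) (.e (nat_lit 344129) (nat_lit 26) (.e (nat_lit 557087) (nat_lit 11) (.e (nat_lit 24631) (nat_lit 9) (.e (nat_lit 343808) (nat_lit 15) .nil))))))) (.g (nat_lit 1) (.e (nat_lit 81088) (nat_lit 0) .nil) .nil))))) (.nd (nat_lit 8) (.nd (nat_lit 9) 
(.lf (nat_lit 468170) (.g (nat_lit 2505) (.e (nat_lit 3262) (nat_lit 198) (.e (nat_lit 540706) (nat_lit 12) (.e (nat_lit 360475) (nat_lit 8) (.e (nat_lit 557090) (nat_lit 12) (.e (nat_lit 164020) (nat_lit 45) (.e (nat_lit 696330) (nat_lit 5) (.e (nat_lit 2878) (nat_lit 184) (.e (nat_lit 426020) (nat_lit 0) .nil)))))))) (.g (nat_lit 1) (.e (nat_lit 79070) (nat_lit 0) .nil) .nil))) 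
(.lf (nat_lit 468682) (.g (nat_lit 3254) (.e (nat_lit 3297) (nat_lit 202) (.e (nat_lit 573491) (nat_lit 15) (.e (nat_lit 81954) (nat_lit 23) (.e (nat_lit 98384) (nat_lit 32) (.e (nat_lit 475208) (nat_lit 41) (.e (nat_lit 712719) (nat_lit 15) .nil)))))) (.g (nat_lit 1) (.e (nat_lit 80762) (nat_lit 0) .nil) .nil)))) (.nd (nat_lit 9) 
(.lf (nat_lit 468426) (.g (nat_lit 1783) (.e (nat_lit 3272) (nat_lit 199) (.e (nat_lit 548913) (nat_lit 18) (.e (nat_lit 172124) (nat_lit 14) (.e (nat_lit 491523) (nat_lit 0) .nil)))) (.g (nat_lit 0) (.e (nat_lit 80029) (nat_lit 0) .nil) .nil))) 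
(.lf (nat_lit 468938) (.g (nat_lit 2731) (.e (nat_lit 3298) (nat_lit 202) (.e (nat_lit 573493) (nat_lit 15) (.e (nat_lit 81956) (nat_lit 23) (.e (nat_lit 98325) (nat_lit 17) (.e (nat_lit 7936) (nat_lit 406) .nil))))) (.g (nat_lit 0) (.e (nat_lit 81550) (nat_lit 0) .nil) .nil))))))) (.nd (nat_lit 6) (.nd (nat_lit 7) (.nd (nat_lit 8) (.nd (nat_lit 9) 
(.lf (nat_lit 468010) (.g (nat_lit 1625) (.e (nat_lit 3246) (nat_lit 197) (.e (nat_lit 532510) (nat_lit 2) (.e (nat_lit 106536) (nat_lit 11) (.e (nat_lit 16412) (nat_lit 2) (.e (nat_lit 196672) (nat_lit 15) (.e (nat_lit 89856) (nat_lit 0) .nil)))))) (.g (nat_lit 1) (.e (nat_lit 78793) (nat_lit 0) .nil) .nil))) 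
(.lf (nat_lit 468522) (.g (nat_lit 3213) (.e (nat_lit 3295) (nat_lit 202) (.e (nat_lit 573492) (nat_lit 15) (.e (nat_lit 81956) (nat_lit 23) (.e (nat_lit 98320) (nat_lit 17) .nil)))) (.g (nat_lit 0) (.e (nat_lit 80221) (nat_lit 0) .nil) .nil)))) (.nd (nat_lit 9) 
(.lf (nat_lit 468266) (.g (nat_lit 958) (.e (nat_lit 7936) (nat_lit 195) (.e (nat_lit 516160) (nat_lit 10) (.e (nat_lit 434245) (nat_lit 28) (.e (nat_lit 573488) (nat_lit 14) .nil)))) (.g (nat_lit 0) (.e (nat_lit 79209) (nat_lit 0) .nil) .nil))) 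
(.lf (nat_lit 468778) (.g (nat_lit 4505) (.e (nat_lit 3298) (nat_lit 202) (.e (nat_lit 573481) (nat_lit 13) (.e (nat_lit 65604) (nat_lit 9) (.e (nat_lit 336013) (nat_lit 2) (.e (nat_lit 90134) (nat_lit 9) (.e (nat_lit 3098) (nat_lit 192) (.e (nat_lit 491549) (nat_lit 9) (.e (nat_lit 336306) (nat_lit 15) .nil)))))))) (.g (nat_lit 1) (.e (nat_lit 81011) (nat_lit 0) .nil) .nil))))) 
(.nd (nat_lit 8) (.nd (nat_lit 9) 
(.lf (nat_lit 468138) (.g (nat_lit 4357) (.e (nat_lit 3262) (nat_lit 198) (.e (nat_lit 540706) (nat_lit 12) (.e (nat_lit 360475) (nat_lit 8) (.e (nat_lit 557089) (nat_lit 12) (.e (nat_lit 163844) (nat_lit 0) (.e (nat_lit 6416) (nat_lit 341) (.e (nat_lit 163908) (nat_lit 12) (.e (nat_lit 426003) (nat_lit 0) .nil)))))))) (.g (nat_lit 1) (.e (nat_lit 79029) (nat_lit 0) .nil) .nil))) 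
(.lf (nat_lit 468650) (.g (nat_lit 2152) (.e (nat_lit 3297) (nat_lit 202) (.e (nat_lit 573481) (nat_lit 13) (.e (nat_lit 65628) (nat_lit 14) (.e (nat_lit 401425) (nat_lit 2) (.e (nat_lit 196681) (nat_lit 17) .nil))))) (.g (nat_lit 0) (.e (nat_lit 80528) (nat_lit 0) .nil) .nil)))) (.nd (nat_lit 9) 
(.lf (nat_lit 468394) (.g (nat_lit 1593) (.e (nat_lit 3271) (nat_lit 199) (.e (nat_lit 548915) (nat_lit 20) (.e (nat_lit 188419) (nat_lit 0) (.e (nat_lit 1856) (nat_lit 124) (.e (nat_lit 557107) (nat_lit 15) (.e (nat_lit 188439) (nat_lit 20) .nil)))))) (.g (nat_lit 1) (.e (nat_lit 79631) (nat_lit 0) .nil) .nil))) 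
(.lf (nat_lit 468906) (.g (nat_lit 2417) (.e (nat_lit 3298) (nat_lit 202) (.e (nat_lit 573492) (nat_lit 15) (.e (nat_lit 81956) (nat_lit 23) (.e (nat_lit 106240) (nat_lit 33) .nil)))) (.g (nat_lit 0) (.e (nat_lit 81493) (nat_lit 0) .nil) .nil)))))) (.nd (nat_lit 7) (.nd (nat_lit 8) (.nd (nat_lit 9) 
(.lf (nat_lit 468074) (.g (nat_lit 2405) (.e (nat_lit 3262) (nat_lit 198) (.e (nat_lit 540704) (nat_lit 12) (.e (nat_lit 360466) (nat_lit 3) (.e (nat_lit 516138) (nat_lit 7) (.e (nat_lit 409646) (nat_lit 18) (.e (nat_lit 303106) (nat_lit 0) .nil)))))) (.g (nat_lit 1) (.e (nat_lit 78897) (nat_lit 0) .nil) .nil))) 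
(.lf (nat_lit 468586) (.g (nat_lit 2944) (.e (nat_lit 3297) (nat_lit 202) (.e (nat_lit 573471) (nat_lit 11) (.e (nat_lit 16473) (nat_lit 14) (.e (nat_lit 491535) (nat_lit 2) (.e (nat_lit 90176) (nat_lit 15) .nil))))) (.g (nat_lit 0) (.e (nat_lit 80398) (nat_lit 0) .nil) .nil)))) (.nd (nat_lit 9) 
(.lf (nat_lit 468330) (.g (nat_lit 2946) (.e (nat_lit 3270) (nat_lit 199) (.e (nat_lit 548913) (nat_lit 18) (.e (nat_lit 172126) (nat_lit 14) (.e (nat_lit 491535) (nat_lit 2) (.e (nat_lit 90176) (nat_lit 15) (.e (nat_lit 188439) (nat_lit 20) .nil)))))) (.g (nat_lit 1) (.e (nat_lit 79398) (nat_lit 0) .nil) .nil))) 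
(.lf (nat_lit 468842) (.g (nat_lit 359) (.e (nat_lit 3298) (nat_lit 202) (.e (nat_lit 573488) (nat_lit 14) (.e (nat_lit 81664) (nat_lit 32) .nil))) (.g (nat_lit 0) (.e (nat_lit 81207) (nat_lit 0) .nil) .nil))))) (.nd (nat_lit 8) (.nd (nat_lit 9) 
(.lf (nat_lit 468202) (.g (nat_lit 3064) (.e (nat_lit 3262) (nat_lit 198) (.e (nat_lit 540706) (nat_lit 12) (.e (nat_lit 360475) (nat_lit 8) (.e (nat_lit 557091) (nat_lit 12) (.e (nat_lit 164022) (nat_lit 46) (.e (nat_lit 704736) (nat_lit 11) (.e (nat_lit 16385) (nat_lit 0) .nil))))))) (.g (nat_lit 1) (.e (nat_lit 79106) (nat_lit 0) .nil) .nil))) 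
(.lf (nat_lit 468714) (.g (nat_lit 4116) (.e (nat_lit 3297) (nat_lit 202) (.e (nat_lit 573492) (nat_lit 15) (.e (nat_lit 81953) (nat_lit 22) (.e (nat_lit 90164) (nat_lit 12) .nil)))) (.g (nat_lit 0) (.e (nat_lit 80859) (nat_lit 0) .nil) .nil)))) (.nd (nat_lit 9) 
(.lf (nat_lit 468458) (.g (nat_lit 1593) (.e (nat_lit 3272) (nat_lit 199) (.e (nat_lit 548913) (nat_lit 18) (.e (nat_lit 172126) (nat_lit 14) (.e (nat_lit 491524) (nat_lit 0) .nil)))) (.g (nat_lit 0) (.e (nat_lit 80061) (nat_lit 0) .nil) .nil))) 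
(.lf (nat_lit 468970) (.g (nat_lit 1689) (.e (nat_lit 3302) (nat_lit 202) (.e (nat_lit 573481) (nat_lit 13) (.e (nat_lit 65604) (nat_lit 9) (.e (nat_lit 336013) (nat_lit 2) (.e (nat_lit 90165) (nat_lit 12) .nil))))) (.g (nat_lit 0) (.e (nat_lit 81667) (nat_lit 0) .nil) .nil)))))))) (.nd (nat_lit 5) (.nd (nat_lit 6) (.nd (nat_lit 7) (.nd (nat_lit 8) (.nd (nat_lit 9) 
(.lf (nat_lit 467994) (.g (nat_lit 2274) (.e (nat_lit 3245) (nat_lit 197) (.e (nat_lit 532503) (nat_lit 1) (.e (nat_lit 57931) (nat_lit 282) (.e (nat_lit 163866) (nat_lit 2) (.e (nat_lit 196670) (nat_lit 14) .nil))))) (.g (nat_lit 0) (.e (nat_lit 78774) (nat_lit 0) .nil) .nil))) 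
(.lf (nat_lit 468506) (.g (nat_lit 1887) (.e (nat_lit 3295) (nat_lit 202) (.e (nat_lit 573485) (nat_lit 13) (.e (nat_lit 65619) (nat_lit 10) (.e (nat_lit 344117) (nat_lit 21) (.e (nat_lit 516097) (nat_lit 0) (.e (nat_lit 7589) (nat_lit 406) (.e (nat_lit 65637) (nat_lit 15) .nil))))))) (.g (nat_lit 1) (.e (nat_lit 80176) (nat_lit 0) .nil) .nil)))) (.nd (nat_lit 9) 
(.lf (nat_lit 468250) (.g (nat_lit 844) (.e (nat_lit 3214) (nat_lit 195) (.e (nat_lit 516131) (nat_lit 3) (.e (nat_lit 221212) (nat_lit 22) (.e (nat_lit 196664) (nat_lit 13) .nil)))) (.g (nat_lit 0) (.e (nat_lit 79182) (nat_lit 0) .nil) .nil))) 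
(.lf (nat_lit 468762) (.g (nat_lit 1107) (.e (nat_lit 3297) (nat_lit 202) (.e (nat_lit 573492) (nat_lit 15) (.e (nat_lit 81959) (nat_lit 24) (.e (nat_lit 130816) (nat_lit 140) .nil)))) (.g (nat_lit 0) (.e (nat_lit 80976) (nat_lit 0) .nil) .nil))))) (.nd (nat_lit 8) (.nd (nat_lit 9) 
(.lf (nat_lit 468122) (.g (nat_lit 3742) (.e (nat_lit 3262) (nat_lit 198) (.e (nat_lit 540706) (nat_lit 12) (.e (nat_lit 360475) (nat_lit 8) (.e (nat_lit 557086) (nat_lit 11) (.e (nat_lit 24662) (nat_lit 14) (.e (nat_lit 401412) (nat_lit 0) .nil)))))) (.g (nat_lit 1) (.e (nat_lit 79013) (nat_lit 0) .nil) .nil))) 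
(.lf (nat_lit 468634) (.g (nat_lit 3366) (.e (nat_lit 3297) (nat_lit 202) (.e (nat_lit 573481) (nat_lit 13) (.e (nat_lit 65619) (nat_lit 10) (.e (nat_lit 344117) (nat_lit 21) (.e (nat_lit 516185) (nat_lit 16) (.e (nat_lit 491556) (nat_lit 9) (.e (nat_lit 336305) (nat_lit 15) .nil))))))) (.g (nat_lit 1) (.e (nat_lit 80503) (nat_lit 0) .nil) .nil)))) (.nd (nat_lit 9) 
(.lf (nat_lit 468378) (.g (nat_lit 3274) (.e (nat_lit 3271) (nat_lit 199) (.e (nat_lit 548913) (nat_lit 18) (.e (nat_lit 172126) (nat_lit 14) (.e (nat_lit 491524) (nat_lit 0) (.e (nat_lit 1685) (nat_lit 117) .nil))))) (.g (nat_lit 0) (.e (nat_lit 79613) (nat_lit 0) .nil) .nil))) 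
(.lf (nat_lit 468890) (.g (nat_lit 4025) (.e (nat_lit 3298) (nat_lit 202) (.e (nat_lit 573492) (nat_lit 15) (.e (nat_lit 81956) (nat_lit 23) (.e (nat_lit 98350) (nat_lit 24) (.e (nat_lit 409642) (nat_lit 17) .nil))))) (.g (nat_lit 0) (.e (nat_lit 81463) (nat_lit 0) .nil) .nil)))))) (.nd (nat_lit 7) (.nd (nat_lit 8) (.nd (nat_lit 9) 
(.lf (nat_lit 468058) (.g (nat_lit 2622) (.e (nat_lit 3258) (nat_lit 198) (.e (nat_lit 540706) (nat_lit 12) (.e (nat_lit 360475) (nat_lit 8) (.e (nat_lit 557091) (nat_lit 12) (.e (nat_lit 164022) (nat_lit 46) (.e (nat_lit 704738) (nat_lit 11) (.e (nat_lit 16390) (nat_lit 0) .nil))))))) (.g (nat_lit 1) (.e (nat_lit 78858) (nat_lit 0) .nil) .nil))) 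
(.lf (nat_lit 468570) (.g (nat_lit 2202) (.e (nat_lit 3297) (nat_lit 202) (.e (nat_lit 573471) (nat_lit 11) (.e (nat_lit 16425) (nat_lit 7) (.e (nat_lit 409616) (nat_lit 10) (.e (nat_lit 7936) (nat_lit 43) .nil))))) (.g (nat_lit 0) (.e (nat_lit 80371) (nat_lit 0) .nil) .nil)))) (.nd (nat_lit 9) 
(.lf (nat_lit 468314) (.g (nat_lit 4959) (.e (nat_lit 3270) (nat_lit 199) (.e (nat_lit 548913) (nat_lit 18) (.e (nat_lit 172120) (nat_lit 12) (.e (nat_lit 475185) (nat_lit 29) (.e (nat_lit 557109) (nat_lit 15) (.e (nat_lit 188434) (nat_lit 20) .nil)))))) (.g (nat_lit 1) (.e (nat_lit 79382) (nat_lit 0) .nil) .nil))) 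
(.lf (nat_lit 468826) (.g (nat_lit 2208) (.e (nat_lit 3298) (nat_lit 202) (.e (nat_lit 573482) (nat_lit 13) (.e (nat_lit 65604) (nat_lit 9) (.e (nat_lit 336028) (nat_lit 3) (.e (nat_lit 98387) (nat_lit 33) .nil))))) (.g (nat_lit 0) (.e (nat_lit 81106) (nat_lit 0) .nil) .nil))))) (.nd (nat_lit 8) (.nd (nat_lit 9) 
(.lf (nat_lit 468186) (.g (nat_lit 4225) (.e (nat_lit 3262) (nat_lit 198) (.e (nat_lit 540706) (nat_lit 12) (.e (nat_lit 360475) (nat_lit 8) (.e (nat_lit 557091) (nat_lit 12) (.e (nat_lit 163844) (nat_lit 0) (.e (nat_lit 6416) (nat_lit 341) (.e (nat_lit 163908) (nat_lit 12) (.e (nat_lit 426003) (nat_lit 0) .nil)))))))) (.g (nat_lit 1) (.e (nat_lit 79088) (nat_lit 0) .nil) .nil))) 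
(.lf (nat_lit 468698) (.g (nat_lit 2544) (.e (nat_lit 3297) (nat_lit 202) (.e (nat_lit 573491) (nat_lit 15) (.e (nat_lit 81954) (nat_lit 23) (.e (nat_lit 98389) (nat_lit 33) (.e (nat_lit 491548) (nat_lit 9) (.e (nat_lit 336306) (nat_lit 15) .nil)))))) (.g (nat_lit 1) (.e (nat_lit 80778) (nat_lit 0) .nil) .nil)))) (.nd (nat_lit 9) 
(.lf (nat_lit 468442) (.g (nat_lit 365) (.e (nat_lit 3272) (nat_lit 199) (.e (nat_lit 548913) (nat_lit 18) (.e (nat_lit 172125) (nat_lit 14) .nil))) (.g (nat_lit 0) (.e (nat_lit 80045) (nat_lit 0) .nil) .nil))) 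
(.lf (nat_lit 468954) (.g (nat_lit 3784) (.e (nat_lit 3298) (nat_lit 202) (.e (nat_lit 573493) (nat_lit 15) (.e (nat_lit 81956) (nat_lit 23) (.e (nat_lit 98389) (nat_lit 33) (.e (nat_lit 491556) (nat_lit 9) .nil))))) (.g (nat_lit 0) (.e (nat_lit 81579) (nat_lit 0) .nil) .nil))))))) (.nd (nat_lit 6) (.nd (nat_lit 7) (.nd (nat_lit 8) (.nd (nat_lit 9) 
(.lf (nat_lit 468026) (.g (nat_lit 914) (.e (nat_lit 3257) (nat_lit 198) (.e (nat_lit 540704) (nat_lit 12) (.e (nat_lit 360473) (nat_lit 8) (.e (nat_lit 557093) (nat_lit 12) .nil)))) (.g (nat_lit 0) (.e (nat_lit 78812) (nat_lit 0) .nil) .nil))) 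
(.lf (nat_lit 468538) (.g (nat_lit 3166) (.e (nat_lit 3295) (nat_lit 202) (.e (nat_lit 573493) (nat_lit 15) (.e (nat_lit 81956) (nat_lit 23) (.e (nat_lit 98323) (nat_lit 17) .nil)))) (.g (nat_lit 0) (.e (nat_lit 80260) (nat_lit 0) .nil) .nil)))) (.nd (nat_lit 9) 
(.lf (nat_lit 468282) (.g (nat_lit 718) (.e (nat_lit 7936) (nat_lit 195) (.e (nat_lit 516179) (nat_lit 15) (.e (nat_lit 475169) (nat_lit 22) .nil))) (.g (nat_lit 0) (.e (nat_lit 79225) (nat_lit 0) .nil) .nil))) 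
(.lf (nat_lit 468794) (.g (nat_lit 2075) (.e (nat_lit 3298) (nat_lit 202) (.e (nat_lit 573481) (nat_lit 13) (.e (nat_lit 65619) (nat_lit 10) (.e (nat_lit 344117) (nat_lit 21) (.e (nat_lit 516106) (nat_lit 0) (.e (nat_lit 6966) (nat_lit 377) (.e (nat_lit 2779) (nat_lit 178) (.e (nat_lit 286765) (nat_lit 15) .nil)))))))) (.g (nat_lit 1) (.e (nat_lit 81047) (nat_lit 0) .nil) .nil))))) 
(.nd (nat_lit 8) (.nd (nat_lit 9) 
(.lf (nat_lit 468154) (.g (nat_lit 3506) (.e (nat_lit 3262) (nat_lit 198) (.e (nat_lit 540706) (nat_lit 12) (.e (nat_lit 360475) (nat_lit 8) (.e (nat_lit 557090) (nat_lit 12) (.e (nat_lit 163843) (nat_lit 0) (.e (nat_lit 6420) (nat_lit 341) (.e (nat_lit 163908) (nat_lit 12) (.e (nat_lit 426003) (nat_lit 0) .nil)))))))) (.g (nat_lit 1) (.e (nat_lit 79053) (nat_lit 0) .nil) .nil))) 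
(.lf (nat_lit 468666) (.g (nat_lit 2523) (.e (nat_lit 3297) (nat_lit 202) (.e (nat_lit 573482) (nat_lit 13) (.e (nat_lit 65619) (nat_lit 10) (.e (nat_lit 344117) (nat_lit 21) (.e (nat_lit 516185) (nat_lit 16) .nil))))) (.g (nat_lit 0) (.e (nat_lit 80545) (nat_lit 0) .nil) .nil)))) (.nd (nat_lit 9) 
(.lf (nat_lit 468410) (.g (nat_lit 3714) (.e (nat_lit 3272) (nat_lit 199) (.e (nat_lit 548913) (nat_lit 18) (.e (nat_lit 172119) (nat_lit 12) (.e (nat_lit 475185) (nat_lit 29) (.e (nat_lit 557107) (nat_lit 15) (.e (nat_lit 188441) (nat_lit 20) .nil)))))) (.g (nat_lit 1) (.e (nat_lit 80012) (nat_lit 0) .nil) .nil))) 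
(.lf (nat_lit 468922) (.g (nat_lit 5732) (.e (nat_lit 3298) (nat_lit 202) (.e (nat_lit 573493) (nat_lit 15) (.e (nat_lit 81953) (nat_lit 22) (.e (nat_lit 90164) (nat_lit 12) .nil)))) (.g (nat_lit 0) (.e (nat_lit 81523) (nat_lit 0) .nil) .nil)))))) (.nd (nat_lit 7) (.nd (nat_lit 8) (.nd (nat_lit 9) 
(.lf (nat_lit 468090) (.g (nat_lit 2456) (.e (nat_lit 3262) (nat_lit 198) (.e (nat_lit 540706) (nat_lit 12) (.e (nat_lit 360474) (nat_lit 8) (.e (nat_lit 557093) (nat_lit 12) (.e (nat_lit 164022) (nat_lit 46) (.e (nat_lit 704735) (nat_lit 11) (.e (nat_lit 16391) (nat_lit 0) .nil))))))) (.g (nat_lit 1) (.e (nat_lit 78929) (nat_lit 0) .nil) .nil))) 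
(.lf (nat_lit 468602) (.g (nat_lit 3433) (.e (nat_lit 3297) (nat_lit 202) (.e (nat_lit 573481) (nat_lit 13) (.e (nat_lit 65604) (nat_lit 9) (.e (nat_lit 336028) (nat_lit 3) (.e (nat_lit 98387) (nat_lit 33) (.e (nat_lit 491549) (nat_lit 9) (.e (nat_lit 336306) (nat_lit 15) .nil))))))) (.g (nat_lit 1) (.e (nat_lit 80454) (nat_lit 0) .nil) .nil)))) (.nd (nat_lit 9) 
(.lf (nat_lit 468346) (.g (nat_lit 3895) (.e (nat_lit 3271) (nat_lit 199) (.e (nat_lit 548913) (nat_lit 18) (.e (nat_lit 172120) (nat_lit 12) (.e (nat_lit 475183) (nat_lit 29) (.e (nat_lit 557108) (nat_lit 15) (.e (nat_lit 188435) (nat_lit 20) .nil)))))) (.g (nat_lit 1) (.e (nat_lit 79581) (nat_lit 0) .nil) .nil))) 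
(.lf (nat_lit 468858) (.g (nat_lit 3105) (.e (nat_lit 3298) (nat_lit 202) (.e (nat_lit 573491) (nat_lit 15) (.e (nat_lit 81956) (nat_lit 23) (.e (nat_lit 98388) (nat_lit 33) (.e (nat_lit 491550) (nat_lit 9) (.e (nat_lit 336306) (nat_lit 15) .nil)))))) (.g (nat_lit 1) (.e (nat_lit 81317) (nat_lit 0) .nil) .nil))))) (.nd (nat_lit 8) (.nd (nat_lit 9) 
(.lf (nat_lit 468218) (.g (nat_lit 1579) (.e (nat_lit 3208) (nat_lit 195) (.e (nat_lit 516129) (nat_lit 3) (.e (nat_lit 221210) (nat_lit 22) (.e (nat_lit 196664) (nat_lit 13) .nil)))) (.g (nat_lit 0) (.e (nat_lit 79127) (nat_lit 0) .nil) .nil))) 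
(.lf (nat_lit 468730) (.g (nat_lit 4049) (.e (nat_lit 3297) (nat_lit 202) (.e (nat_lit 573492) (nat_lit 15) (.e (nat_lit 81956) (nat_lit 23) (.e (nat_lit 98350) (nat_lit 24) (.e (nat_lit 409641) (nat_lit 17) .nil))))) (.g (nat_lit 0) (.e (nat_lit 80924) (nat_lit 0) .nil) .nil)))) (.nd (nat_lit 9) 
(.lf (nat_lit 468474) (.g (nat_lit 3767) (.e (nat_lit 3272) (nat_lit 199) (.e (nat_lit 548913) (nat_lit 18) (.e (nat_lit 172126) (nat_lit 14) (.e (nat_lit 491539) (nat_lit 3) (.e (nat_lit 98370) (nat_lit 28) (.e (nat_lit 442412) (nat_lit 20) .nil)))))) (.g (nat_lit 1) (.e (nat_lit 80083) (nat_lit 0) .nil) .nil))) 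
(.lf (nat_lit 468986) (.g (nat_lit 2352) (.e (nat_lit 3302) (nat_lit 202) (.e (nat_lit 573481) (nat_lit 13) (.e (nat_lit 65628) (nat_lit 14) (.e (nat_lit 401428) (nat_lit 3) (.e (nat_lit 204877) (nat_lit 31) (.e (nat_lit 376833) (nat_lit 0) .nil)))))) (.g (nat_lit 1) (.e (nat_lit 81691) (nat_lit 0) .nil) .nil)))))))))) 
(.nd (nat_lit 3) (.nd (nat_lit 4) (.nd (nat_lit 5) (.nd (nat_lit 6) (.nd (nat_lit 7) 
(.nd (nat_lit 8) (.nd (nat_lit 9) 
(.lf (nat_lit 467974) (.g (nat_lit 5038) (.e (nat_lit 3256) (nat_lit 197) (.e (nat_lit 532550) (nat_lit 12) (.e (nat_lit 360475) (nat_lit 8) (.e (nat_lit 557091) (nat_lit 12) (.e (nat_lit 164022) (nat_lit 46) (.e (nat_lit 704737) (nat_lit 11) (.e (nat_lit 16385) (nat_lit 0) .nil))))))) (.g (nat_lit 1) (.e (nat_lit 78754) (nat_lit 0) .nil) .nil))) 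
(.lf (nat_lit 468486) (.g (nat_lit 969) (.e (nat_lit 3295) (nat_lit 202) (.e (nat_lit 573474) (nat_lit 12) (.e (nat_lit 57572) (nat_lit 54) .nil))) (.g (nat_lit 0) (.e (nat_lit 80131) (nat_lit 0) .nil) .nil)))) (.nd (nat_lit 9) 
(.lf (nat_lit 468230) (.g (nat_lit 1458) (.e (nat_lit 3211) (nat_lit 195) (.e (nat_lit 516130) (nat_lit 3) (.e (nat_lit 221212) (nat_lit 22) (.e (nat_lit 196681) (nat_lit 17) (.e (nat_lit 131091) (nat_lit 2) .nil))))) (.g (nat_lit 0) (.e (nat_lit 79146) (nat_lit 0) .nil) .nil))) 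
(.lf (nat_lit 468742) (.g (nat_lit 2448) (.e (nat_lit 3297) (nat_lit 202) (.e (nat_lit 573492) (nat_lit 15) (.e (nat_lit 81956) (nat_lit 23) (.e (nat_lit 98386) (nat_lit 32) .nil)))) (.g (nat_lit 0) (.e (nat_lit 80956) (nat_lit 0) .nil) .nil))))) (.nd (nat_lit 8) (.nd (nat_lit 9) 
(.lf (nat_lit 468102) (.g (nat_lit 1608) (.e (nat_lit 3262) (nat_lit 198) (.e (nat_lit 540706) (nat_lit 12) (.e (nat_lit 360474) (nat_lit 8) (.e (nat_lit 557094) (nat_lit 12) (.e (nat_lit 163847) (nat_lit 0) (.e (nat_lit 6420) (nat_lit 341) (.e (nat_lit 163902) (nat_lit 12) (.e (nat_lit 425985) (nat_lit 0) .nil)))))))) (.g (nat_lit 1) (.e (nat_lit 78941) (nat_lit 0) .nil) .nil))) 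
(.lf (nat_lit 468614) (.g (nat_lit 4547) (.e (nat_lit 3297) (nat_lit 202) (.e (nat_lit 573481) (nat_lit 13) (.e (nat_lit 65619) (nat_lit 10) (.e (nat_lit 344117) (nat_lit 21) (.e (nat_lit 516139) (nat_lit 7) (.e (nat_lit 409641) (nat_lit 17) (.e (nat_lit 294966) (nat_lit 15) .nil))))))) (.g (nat_lit 1) (.e (nat_lit 80482) (nat_lit 0) .nil) .nil)))) (.nd (nat_lit 9) 
(.lf (nat_lit 468358) (.g (nat_lit 2329) (.e (nat_lit 3271) (nat_lit 199) (.e (nat_lit 548913) (nat_lit 18) (.e (nat_lit 172124) (nat_lit 14) (.e (nat_lit 491536) (nat_lit 2) (.e (nat_lit 90177) (nat_lit 15) .nil))))) (.g (nat_lit 0) (.e (nat_lit 79593) (nat_lit 0) .nil) .nil))) 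
(.lf (nat_lit 468870) (.g (nat_lit 2541) (.e (nat_lit 3298) (nat_lit 202) (.e (nat_lit 573492) (nat_lit 15) (.e (nat_lit 81956) (nat_lit 23) (.e (nat_lit 98318) (nat_lit 17) .nil)))) (.g (nat_lit 0) (.e (nat_lit 81405) (nat_lit 0) .nil) .nil)))))) (.nd (nat_lit 7) (.nd (nat_lit 8) (.nd (nat_lit 9) 
(.lf (nat_lit 468038) (.g (nat_lit 3416) (.e (nat_lit 3258) (nat_lit 198) (.e (nat_lit 540704) (nat_lit 12) (.e (nat_lit 360467) (nat_lit 3) (.e (nat_lit 516139) (nat_lit 7) (.e (nat_lit 409649) (nat_lit 18) (.e (nat_lit 303111) (nat_lit 0) .nil)))))) (.g (nat_lit 1) (.e (nat_lit 78826) (nat_lit 0) .nil) .nil))) 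
(.lf (nat_lit 468550) (.g (nat_lit 2403) (.e (nat_lit 3296) (nat_lit 202) (.e (nat_lit 573477) (nat_lit 12) (.e (nat_lit 57575) (nat_lit 55) (.e (nat_lit 778465) (nat_lit 11) (.e (nat_lit 24603) (nat_lit 2) (.e (nat_lit 90176) (nat_lit 15) (.e (nat_lit 188439) (nat_lit 20) .nil))))))) (.g (nat_lit 1) (.e (nat_lit 80290) (nat_lit 0) .nil) .nil)))) (.nd (nat_lit 9) 
(.lf (nat_lit 468294) (.g (nat_lit 2131) (.e (nat_lit 3266) (nat_lit 199) (.e (nat_lit 548913) (nat_lit 18) (.e (nat_lit 172125) (nat_lit 14) (.e (nat_lit 491540) (nat_lit 3) (.e (nat_lit 98381) (nat_lit 31) .nil))))) (.g (nat_lit 0) (.e (nat_lit 79249) (nat_lit 0) .nil) .nil))) 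
(.lf (nat_lit 468806) (.g (nat_lit 4055) (.e (nat_lit 3298) (nat_lit 202) (.e (nat_lit 573481) (nat_lit 13) (.e (nat_lit 65619) (nat_lit 10) (.e (nat_lit 344129) (nat_lit 26) (.e (nat_lit 557086) (nat_lit 11) (.e (nat_lit 24630) (nat_lit 9) (.e (nat_lit 336306) (nat_lit 15) .nil))))))) (.g (nat_lit 1) (.e (nat_lit 81084) (nat_lit 0) .nil) .nil))))) (.nd (nat_lit 8) (.nd (nat_lit 9) 
(.lf (nat_lit 468166) (.g (nat_lit 2345) (.e (nat_lit 3262) (nat_lit 198) (.e (nat_lit 540706) (nat_lit 12) (.e (nat_lit 360475) (nat_lit 8) (.e (nat_lit 557090) (nat_lit 12) (.e (nat_lit 164020) (nat_lit 45) (.e (nat_lit 696329) (nat_lit 5) (.e (nat_lit 2888) (nat_lit 184) (.e (nat_lit 426032) (nat_lit 0) .nil)))))))) (.g (nat_lit 1) (.e (nat_lit 79066) (nat_lit 0) .nil) .nil))) 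
(.lf (nat_lit 468678) (.g (nat_lit 2691) (.e (nat_lit 3297) (nat_lit 202) (.e (nat_lit 573490) (nat_lit 15) (.e (nat_lit 81956) (nat_lit 23) (.e (nat_lit 98388) (nat_lit 33) .nil)))) (.g (nat_lit 0) (.e (nat_lit 80652) (nat_lit 0) .nil) .nil)))) (.nd (nat_lit 9) 
(.lf (nat_lit 468422) (.g (nat_lit 4120) (.e (nat_lit 3272) (nat_lit 199) (.e (nat_lit 548913) (nat_lit 18) (.e (nat_lit 172120) (nat_lit 12) (.e (nat_lit 475185) (nat_lit 29) (.e (nat_lit 557107) (nat_lit 15) (.e (nat_lit 188440) (nat_lit 20) .nil)))))) (.g (nat_lit 1) (.e (nat_lit 80024) (nat_lit 0) .nil) .nil))) 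
(.lf (nat_lit 468934) (.g (nat_lit 2963) (.e (nat_lit 3298) (nat_lit 202) (.e (nat_lit 573493) (nat_lit 15) (.e (nat_lit 81956) (nat_lit 23) (.e (nat_lit 98323) (nat_lit 17) .nil)))) (.g (nat_lit 0) (.e (nat_lit 81542) (nat_lit 0) .nil) .nil))))))) (.nd (nat_lit 6) (.nd (nat_lit 7) (.nd (nat_lit 8) (.nd (nat_lit 9) 
(.lf (nat_lit 468006) (.g (nat_lit 2440) (.e (nat_lit 3246) (nat_lit 197) (.e (nat_lit 532504) (nat_lit 1) (.e (nat_lit 57851) (nat_lit 252) (.e (nat_lit 57406) (nat_lit 12) (.e (nat_lit 336456) (nat_lit 34) (.e (nat_lit 483379) (nat_lit 23) (.e (nat_lit 336258) (nat_lit 15) .nil))))))) (.g (nat_lit 1) (.e (nat_lit 78789) (nat_lit 0) .nil) .nil))) 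
(.lf (nat_lit 468518) (.g (nat_lit 1802) (.e (nat_lit 3295) (nat_lit 202) (.e (nat_lit 573485) (nat_lit 13) (.e (nat_lit 65630) (nat_lit 14) (.e (nat_lit 401428) (nat_lit 3) (.e (nat_lit 204866) (nat_lit 28) (.e (nat_lit 352260) (nat_lit 0) .nil)))))) (.g (nat_lit 1) (.e (nat_lit 80189) (nat_lit 0) .nil) .nil)))) (.nd (nat_lit 9) 
(.lf (nat_lit 468262) (.g (nat_lit 1034) (.e (nat_lit 7936) (nat_lit 195) (.e (nat_lit 516160) (nat_lit 10) (.e (nat_lit 434245) (nat_lit 28) (.e (nat_lit 573481) (nat_lit 13) .nil)))) (.g (nat_lit 0) (.e (nat_lit 79205) (nat_lit 0) .nil) .nil))) 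
(.lf (nat_lit 468774) (.g (nat_lit 1646) (.e (nat_lit 3298) (nat_lit 202) (.e (nat_lit 573480) (nat_lit 13) (.e (nat_lit 65630) (nat_lit 14) (.e (nat_lit 401428) (nat_lit 3) (.e (nat_lit 204865) (nat_lit 28) (.e (nat_lit 360192) (nat_lit 0) .nil)))))) (.g (nat_lit 1) (.e (nat_lit 81007) (nat_lit 0) .nil) .nil))))) (.nd (nat_lit 8) (.nd (nat_lit 9) 
(.lf (nat_lit 468134) (.g (nat_lit 3120) (.e (nat_lit 3262) (nat_lit 198) (.e (nat_lit 540706) (nat_lit 12) (.e (nat_lit 360475) (nat_lit 8) (.e (nat_lit 557089) (nat_lit 12) (.e (nat_lit 163843) (nat_lit 0) .nil))))) (.g (nat_lit 0) (.e (nat_lit 79025) (nat_lit 0) .nil) .nil))) 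
(.lf (nat_lit 468646) (.g (nat_lit 1795) (.e (nat_lit 3297) (nat_lit 202) (.e (nat_lit 573481) (nat_lit 13) (.e (nat_lit 65619) (nat_lit 10) (.e (nat_lit 344129) (nat_lit 26) (.e (nat_lit 557087) (nat_lit 11) (.e (nat_lit 24632) (nat_lit 9) (.e (nat_lit 343808) (nat_lit 15) .nil))))))) (.g (nat_lit 1) (.e (nat_lit 80524) (nat_lit 0) .nil) .nil)))) (.nd (nat_lit 9) 
(.lf (nat_lit 468390) (.g (nat_lit 2779) (.e (nat_lit 3271) (nat_lit 199) (.e (nat_lit 548913) (nat_lit 18) (.e (nat_lit 172126) (nat_lit 14) (.e (nat_lit 491540) (nat_lit 3) (.e (nat_lit 98370) (nat_lit 28) (.e (nat_lit 442411) (nat_lit 20) .nil)))))) (.g (nat_lit 1) (.e (nat_lit 79625) (nat_lit 0) .nil) .nil))) 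
(.lf (nat_lit 468902) (.g (nat_lit 3723) (.e (nat_lit 3298) (nat_lit 202) (.e (nat_lit 573492) (nat_lit 15) (.e (nat_lit 81956) (nat_lit 23) (.e (nat_lit 98389) (nat_lit 33) (.e (nat_lit 491548) (nat_lit 9) (.e (nat_lit 336306) (nat_lit 15) .nil)))))) (.g (nat_lit 1) (.e (nat_lit 81489) (nat_lit 0) .nil) .nil)))))) (.nd (nat_lit 7) (.nd (nat_lit 8) (.nd (nat_lit 9) 
(.lf (nat_lit 468070) (.g (nat_lit 3957) (.e (nat_lit 3260) (nat_lit 198) (.e (nat_lit 540706) (nat_lit 12) (.e (nat_lit 360475) (nat_lit 8) (.e (nat_lit 557090) (nat_lit 12) (.e (nat_lit 164020) (nat_lit 45) (.e (nat_lit 696344) (nat_lit 8) (.e (nat_lit 172032) (nat_lit 0) .nil))))))) (.g (nat_lit 1) (.e (nat_lit 78889) (nat_lit 0) .nil) .nil))) 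
(.lf (nat_lit 468582) (.g (nat_lit 3836) (.e (nat_lit 3297) (nat_lit 202) (.e (nat_lit 573471) (nat_lit 11) (.e (nat_lit 16470) (nat_lit 14) (.e (nat_lit 491535) (nat_lit 2) .nil)))) (.g (nat_lit 0) (.e (nat_lit 80393) (nat_lit 0) .nil) .nil)))) (.nd (nat_lit 9) 
(.lf (nat_lit 468326) (.g (nat_lit 3535) (.e (nat_lit 3270) (nat_lit 199) (.e (nat_lit 548913) (nat_lit 18) (.e (nat_lit 172125) (nat_lit 14) (.e (nat_lit 491536) (nat_lit 2) (.e (nat_lit 90176) (nat_lit 15) (.e (nat_lit 188439) (nat_lit 20) .nil)))))) (.g (nat_lit 1) (.e (nat_lit 79394) (nat_lit 0) .nil) .nil))) 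
(.lf (nat_lit 468838) (.g (nat_lit 793) (.e (nat_lit 3298) (nat_lit 202) (.e (nat_lit 573482) (nat_lit 13) (.e (nat_lit 65624) (nat_lit 12) .nil))) (.g (nat_lit 0) (.e (nat_lit 81118) (nat_lit 0) .nil) .nil))))) (.nd (nat_lit 8) (.nd (nat_lit 9) 
(.lf (nat_lit 468198) (.g (nat_lit 2429) (.e (nat_lit 3262) (nat_lit 198) (.e (nat_lit 540706) (nat_lit 12) (.e (nat_lit 360475) (nat_lit 8) (.e (nat_lit 557091) (nat_lit 12) (.e (nat_lit 164022) (nat_lit 46) .nil))))) (.g (nat_lit 0) (.e (nat_lit 79102) (nat_lit 0) .nil) .nil))) 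
(.lf (nat_lit 468710) (.g (nat_lit 1552) (.e (nat_lit 3297) (nat_lit 202) (.e (nat_lit 573491) (nat_lit 15) (.e (nat_lit 89856) (nat_lit 23) (.e (nat_lit 98386) (nat_lit 32) (.e (nat_lit 475209) (nat_lit 41) (.e (nat_lit 712719) (nat_lit 15) .nil)))))) (.g (nat_lit 1) (.e (nat_lit 80791) (nat_lit 0) .nil) .nil)))) (.nd (nat_lit 9) 
(.lf (nat_lit 468454) (.g (nat_lit 2662) (.e (nat_lit 3272) (nat_lit 199) (.e (nat_lit 548913) (nat_lit 18) (.e (nat_lit 172125) (nat_lit 14) (.e (nat_lit 491540) (nat_lit 3) (.e (nat_lit 98370) (nat_lit 28) (.e (nat_lit 442412) (nat_lit 20) .nil)))))) (.g (nat_lit 1) (.e (nat_lit 80057) (nat_lit 0) .nil) .nil))) 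
(.lf (nat_lit 468966) (.g (nat_lit 2491) (.e (nat_lit 3302) (nat_lit 202) (.e (nat_lit 573480) (nat_lit 13) (.e (nat_lit 65630) (nat_lit 14) (.e (nat_lit 401428) (nat_lit 3) (.e (nat_lit 204866) (nat_lit 28) (.e (nat_lit 360192) (nat_lit 0) .nil)))))) (.g (nat_lit 1) (.e (nat_lit 81663) (nat_lit 0) .nil) .nil)))))))) 
(.nd (nat_lit 5) (.nd (nat_lit 6) (.nd (nat_lit 7) (.nd (nat_lit 8) (.nd (nat_lit 9) 
(.lf (nat_lit 467990) (.g (nat_lit 1360) (.e (nat_lit 3244) (nat_lit 197) (.e (nat_lit 532510) (nat_lit 2) (.e (nat_lit 106536) (nat_lit 11) (.e (nat_lit 16413) (nat_lit 2) (.e (nat_lit 196672) (nat_lit 15) (.e (nat_lit 89856) (nat_lit 0) .nil)))))) (.g (nat_lit 1) (.e (nat_lit 78770) (nat_lit 0) .nil) .nil))) 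
(.lf (nat_lit 468502) (.g (nat_lit 1349) (.e (nat_lit 3295) (nat_lit 202) (.e (nat_lit 573484) (nat_lit 13) (.e (nat_lit 65617) (nat_lit 10) (.e (nat_lit 344133) (nat_lit 26) .nil)))) (.g (nat_lit 0) (.e (nat_lit 80159) (nat_lit 0) .nil) .nil)))) (.nd (nat_lit 9) 
(.lf (nat_lit 468246) (.g (nat_lit 2051) (.e (nat_lit 3214) (nat_lit 195) (.e (nat_lit 516129) (nat_lit 3) (.e (nat_lit 221210) (nat_lit 22) (.e (nat_lit 196668) (nat_lit 14) (.e (nat_lit 81664) (nat_lit 5) (.e (nat_lit 532578) (nat_lit 26) (.e (nat_lit 426011) (nat_lit 0) .nil))))))) (.g (nat_lit 1) (.e (nat_lit 79178) (nat_lit 0) .nil) .nil))) 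
(.lf (nat_lit 468758) (.g (nat_lit 3687) (.e (nat_lit 3297) (nat_lit 202) (.e (nat_lit 573492) (nat_lit 15) (.e (nat_lit 81956) (nat_lit 23) (.e (nat_lit 98389) (nat_lit 33) (.e (nat_lit 491556) (nat_lit 9) (.e (nat_lit 336305) (nat_lit 15) .nil)))))) (.g (nat_lit 1) (.e (nat_lit 80972) (nat_lit 0) .nil) .nil))))) (.nd (nat_lit 8) (.nd (nat_lit 9) 
(.lf (nat_lit 468118) (.g (nat_lit 1765) (.e (nat_lit 3262) (nat_lit 198) (.e (nat_lit 540706) (nat_lit 12) (.e (nat_lit 360475) (nat_lit 8) (.e (nat_lit 557085) (nat_lit 11) .nil)))) (.g (nat_lit 0) (.e (nat_lit 78999) (nat_lit 0) .nil) .nil))) 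
(.lf (nat_lit 468630) (.g (nat_lit 4754) (.e (nat_lit 3297) (nat_lit 202) (.e (nat_lit 573481) (nat_lit 13) (.e (nat_lit 65619) (nat_lit 10) (.e (nat_lit 344117) (nat_lit 21) (.e (nat_lit 516185) (nat_lit 16) (.e (nat_lit 491547) (nat_lit 9) (.e (nat_lit 336306) (nat_lit 15) .nil))))))) (.g (nat_lit 1) (.e (nat_lit 80499) (nat_lit 0) .nil) .nil)))) (.nd (nat_lit 9) 
(.lf (nat_lit 468374) (.g (nat_lit 245) (.e (nat_lit 3271) (nat_lit 199) (.e (nat_lit 548913) (nat_lit 18) (.e (nat_lit 172126) (nat_lit 14) .nil))) (.g (nat_lit 0) (.e (nat_lit 79609) (nat_lit 0) .nil) .nil))) 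
(.lf (nat_lit 468886) (.g (nat_lit 3681) (.e (nat_lit 3298) (nat_lit 202) (.e (nat_lit 573492) (nat_lit 15) (.e (nat_lit 81956) (nat_lit 23) (.e (nat_lit 98349) (nat_lit 24) (.e (nat_lit 409642) (nat_lit 17) (.e (nat_lit 294966) (nat_lit 15) .nil)))))) (.g (nat_lit 1) (.e (nat_lit 81448) (nat_lit 0) .nil) .nil)))))) (.nd (nat_lit 7) (.nd (nat_lit 8) (.nd (nat_lit 9) 
(.lf (nat_lit 468054) (.g (nat_lit 2825) (.e (nat_lit 3258) (nat_lit 198) (.e (nat_lit 540706) (nat_lit 12) (.e (nat_lit 360475) (nat_lit 8) (.e (nat_lit 557090) (nat_lit 12) (.e (nat_lit 164020) (nat_lit 45) (.e (nat_lit 696344) (nat_lit 8) (.e (nat_lit 172046) (nat_lit 0) .nil))))))) (.g (nat_lit 1) (.e (nat_lit 78853) (nat_lit 0) .nil) .nil))) 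
(.lf (nat_lit 468566) (.g (nat_lit 2589) (.e (nat_lit 3297) (nat_lit 202) (.e (nat_lit 573450) (nat_lit 9) (.e (nat_lit 375) (nat_lit 32) (.e (nat_lit 426173) (nat_lit 7) (.e (nat_lit 409616) (nat_lit 10) (.e (nat_lit 7936) (nat_lit 43) (.e (nat_lit 516151) (nat_lit 9) (.e (nat_lit 426211) (nat_lit 9) (.e (nat_lit 426040) (nat_lit 0) .nil))))))))) (.g (nat_lit 1) (.e (nat_lit 80359) (nat_lit 0) .nil) .nil)))) 
(.nd (nat_lit 9) 
(.lf (nat_lit 468310) (.g (nat_lit 4141) (.e (nat_lit 3270) (nat_lit 199) (.e (nat_lit 548913) (nat_lit 18) (.e (nat_lit 172120) (nat_lit 12) (.e (nat_lit 475184) (nat_lit 29) (.e (nat_lit 557109) (nat_lit 15) (.e (nat_lit 188435) (nat_lit 20) .nil)))))) (.g (nat_lit 1) (.e (nat_lit 79378) (nat_lit 0) .nil) .nil))) 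
(.lf (nat_lit 468822) (.g (nat_lit 2005) (.e (nat_lit 3298) (nat_lit 202) (.e (nat_lit 573481) (nat_lit 13) (.e (nat_lit 65630) (nat_lit 14) (.e (nat_lit 401428) (nat_lit 3) (.e (nat_lit 204877) (nat_lit 31) (.e (nat_lit 384768) (nat_lit 0) .nil)))))) (.g (nat_lit 1) (.e (nat_lit 81102) (nat_lit 0) .nil) .nil))))) (.nd (nat_lit 8) (.nd (nat_lit 9) 
(.lf (nat_lit 468182) (.g (nat_lit 2991) (.e (nat_lit 3262) (nat_lit 198) (.e (nat_lit 540706) (nat_lit 12) (.e (nat_lit 360475) (nat_lit 8) (.e (nat_lit 557091) (nat_lit 12) (.e (nat_lit 163843) (nat_lit 0) (.e (nat_lit 6416) (nat_lit 341) (.e (nat_lit 163908) (nat_lit 12) (.e (nat_lit 426017) (nat_lit 0) .nil)))))))) (.g (nat_lit 1) (.e (nat_lit 79084) (nat_lit 0) .nil) .nil))) 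
(.lf (nat_lit 468694) (.g (nat_lit 2809) (.e (nat_lit 3297) (nat_lit 202) (.e (nat_lit 573491) (nat_lit 15) (.e (nat_lit 81954) (nat_lit 23) (.e (nat_lit 98388) (nat_lit 33) (.e (nat_lit 491549) (nat_lit 9) (.e (nat_lit 336306) (nat_lit 15) .nil)))))) (.g (nat_lit 1) (.e (nat_lit 80774) (nat_lit 0) .nil) .nil)))) (.nd (nat_lit 9) 
(.lf (nat_lit 468438) (.g (nat_lit 2405) (.e (nat_lit 3272) (nat_lit 199) (.e (nat_lit 548913) (nat_lit 18) (.e (nat_lit 172124) (nat_lit 14) (.e (nat_lit 491539) (nat_lit 3) (.e (nat_lit 98370) (nat_lit 28) .nil))))) (.g (nat_lit 0) (.e (nat_lit 80041) (nat_lit 0) .nil) .nil))) 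
(.lf (nat_lit 468950) (.g (nat_lit 3190) (.e (nat_lit 3298) (nat_lit 202) (.e (nat_lit 573493) (nat_lit 15) (.e (nat_lit 81956) (nat_lit 23) (.e (nat_lit 98389) (nat_lit 33) .nil)))) (.g (nat_lit 0) (.e (nat_lit 81575) (nat_lit 0) .nil) .nil))))))) (.nd (nat_lit 6) (.nd (nat_lit 7) (.nd (nat_lit 8) (.nd (nat_lit 9) 
(.lf (nat_lit 468022) (.g (nat_lit 3738) (.e (nat_lit 7936) (nat_lit 197) (.e (nat_lit 532569) (nat_lit 16) (.e (nat_lit 401451) (nat_lit 12) (.e (nat_lit 475185) (nat_lit 29) (.e (nat_lit 557107) (nat_lit 15) .nil))))) (.g (nat_lit 0) (.e (nat_lit 78808) (nat_lit 0) .nil) .nil))) 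
(.lf (nat_lit 468534) (.g (nat_lit 4361) (.e (nat_lit 3295) (nat_lit 202) (.e (nat_lit 573493) (nat_lit 15) (.e (nat_lit 81956) (nat_lit 23) (.e (nat_lit 98320) (nat_lit 17) .nil)))) (.g (nat_lit 0) (.e (nat_lit 80256) (nat_lit 0) .nil) .nil)))) (.nd (nat_lit 9) 
(.lf (nat_lit 468278) (.g (nat_lit 2772) (.e (nat_lit 7936) (nat_lit 195) (.e (nat_lit 516160) (nat_lit 10) (.e (nat_lit 434248) (nat_lit 28) (.e (nat_lit 573489) (nat_lit 14) (.e (nat_lit 73738) (nat_lit 1) .nil))))) (.g (nat_lit 0) (.e (nat_lit 79221) (nat_lit 0) .nil) .nil))) 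
(.lf (nat_lit 468790) (.g (nat_lit 1776) (.e (nat_lit 3298) (nat_lit 202) (.e (nat_lit 573481) (nat_lit 13) (.e (nat_lit 65619) (nat_lit 10) (.e (nat_lit 344117) (nat_lit 21) (.e (nat_lit 516098) (nat_lit 0) .nil))))) (.g (nat_lit 0) (.e (nat_lit 81040) (nat_lit 0) .nil) .nil))))) (.nd (nat_lit 8) (.nd (nat_lit 9) 
(.lf (nat_lit 468150) (.g (nat_lit 3107) (.e (nat_lit 3262) (nat_lit 198) (.e (nat_lit 540706) (nat_lit 12) (.e (nat_lit 360475) (nat_lit 8) (.e (nat_lit 557089) (nat_lit 12) (.e (nat_lit 164017) (nat_lit 44) (.e (nat_lit 688139) (nat_lit 5) (.e (nat_lit 2887) (nat_lit 184) (.e (nat_lit 426026) (nat_lit 0) .nil)))))))) (.g (nat_lit 1) (.e (nat_lit 79046) (nat_lit 0) .nil) .nil))) 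
(.lf (nat_lit 468662) (.g (nat_lit 2544) (.e (nat_lit 3297) (nat_lit 202) (.e (nat_lit 573481) (nat_lit 13) (.e (nat_lit 65630) (nat_lit 14) (.e (nat_lit 401428) (nat_lit 3) (.e (nat_lit 204866) (nat_lit 28) (.e (nat_lit 360192) (nat_lit 0) .nil)))))) (.g (nat_lit 1) (.e (nat_lit 80541) (nat_lit 0) .nil) .nil)))) (.nd (nat_lit 9) 
(.lf (nat_lit 468406) (.g (nat_lit 3765) (.e (nat_lit 3272) (nat_lit 199) (.e (nat_lit 548913) (nat_lit 18) (.e (nat_lit 172118) (nat_lit 12) (.e (nat_lit 475185) (nat_lit 29) (.e (nat_lit 557107) (nat_lit 15) (.e (nat_lit 188440) (nat_lit 20) .nil)))))) (.g (nat_lit 1) (.e (nat_lit 80008) (nat_lit 0) .nil) .nil))) 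
(.lf (nat_lit 468918) (.g (nat_lit 3933) (.e (nat_lit 3298) (nat_lit 202) (.e (nat_lit 573493) (nat_lit 15) (.e (nat_lit 81953) (nat_lit 22) (.e (nat_lit 90134) (nat_lit 9) (.e (nat_lit 3098) (nat_lit 192) (.e (nat_lit 491548) (nat_lit 9) (.e (nat_lit 336306) (nat_lit 15) .nil))))))) (.g (nat_lit 1) (.e (nat_lit 81519) (nat_lit 0) .nil) .nil)))))) 
(.nd (nat_lit 7) (.nd (nat_lit 8) (.nd (nat_lit 9) 
(.lf (nat_lit 468086) (.g (nat_lit 1591) (.e (nat_lit 3262) (nat_lit 198) (.e (nat_lit 540706) (nat_lit 12) (.e (nat_lit 360474) (nat_lit 8) (.e (nat_lit 557093) (nat_lit 12) (.e (nat_lit 163849) (nat_lit 0) (.e (nat_lit 6420) (nat_lit 341) (.e (nat_lit 163902) (nat_lit 12) (.e (nat_lit 425985) (nat_lit 0) .nil)))))))) (.g (nat_lit 1) (.e (nat_lit 78925) (nat_lit 0) .nil) .nil))) 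
(.lf (nat_lit 468598) (.g (nat_lit 4535) (.e (nat_lit 3297) (nat_lit 202) (.e (nat_lit 573481) (nat_lit 13) (.e (nat_lit 65604) (nat_lit 9) (.e (nat_lit 336013) (nat_lit 2) (.e (nat_lit 90134) (nat_lit 9) (.e (nat_lit 3098) (nat_lit 192) (.e (nat_lit 491550) (nat_lit 9) (.e (nat_lit 336306) (nat_lit 15) .nil)))))))) (.g (nat_lit 1) (.e (nat_lit 80417) (nat_lit 0) .nil) .nil)))) (.nd (nat_lit 9) 
(.lf (nat_lit 468342) (.g (nat_lit 1400) (.e (nat_lit 3271) (nat_lit 199) (.e (nat_lit 548913) (nat_lit 18) (.e (nat_lit 172119) (nat_lit 12) (.e (nat_lit 475184) (nat_lit 29) (.e (nat_lit 557107) (nat_lit 15) .nil))))) (.g (nat_lit 0) (.e (nat_lit 79577) (nat_lit 0) .nil) .nil))) 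
(.lf (nat_lit 468854) (.g (nat_lit 1713) (.e (nat_lit 3298) (nat_lit 202) (.e (nat_lit 573491) (nat_lit 15) (.e (nat_lit 81954) (nat_lit 23) (.e (nat_lit 98389) (nat_lit 33) (.e (nat_lit 491552) (nat_lit 9) (.e (nat_lit 343808) (nat_lit 15) .nil)))))) (.g (nat_lit 1) (.e (nat_lit 81312) (nat_lit 0) .nil) .nil))))) (.nd (nat_lit 8) (.nd (nat_lit 9) 
(.lf (nat_lit 468214) (.g (nat_lit 1937) (.e (nat_lit 3207) (nat_lit 195) (.e (nat_lit 516129) (nat_lit 3) (.e (nat_lit 221210) (nat_lit 22) (.e (nat_lit 196668) (nat_lit 14) (.e (nat_lit 81664) (nat_lit 5) .nil))))) (.g (nat_lit 0) (.e (nat_lit 79123) (nat_lit 0) .nil) .nil))) 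
(.lf (nat_lit 468726) (.g (nat_lit 2484) (.e (nat_lit 3297) (nat_lit 202) (.e (nat_lit 573492) (nat_lit 15) (.e (nat_lit 81956) (nat_lit 23) (.e (nat_lit 106240) (nat_lit 17) .nil)))) (.g (nat_lit 0) (.e (nat_lit 80915) (nat_lit 0) .nil) .nil)))) (.nd (nat_lit 9) 
(.lf (nat_lit 468470) (.g (nat_lit 2582) (.e (nat_lit 3272) (nat_lit 199) (.e (nat_lit 548913) (nat_lit 18) (.e (nat_lit 172126) (nat_lit 14) (.e (nat_lit 491537) (nat_lit 2) (.e (nat_lit 90176) (nat_lit 15) (.e (nat_lit 188441) (nat_lit 20) .nil)))))) (.g (nat_lit 1) (.e (nat_lit 80078) (nat_lit 0) .nil) .nil))) 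
(.lf (nat_lit 468982) (.g (nat_lit 1969) (.e (nat_lit 3302) (nat_lit 202) (.e (nat_lit 573481) (nat_lit 13) (.e (nat_lit 65628) (nat_lit 14) (.e (nat_lit 401428) (nat_lit 3) (.e (nat_lit 204865) (nat_lit 28) (.e (nat_lit 360192) (nat_lit 0) .nil)))))) (.g (nat_lit 1) (.e (nat_lit 81687) (nat_lit 0) .nil) .nil))))))))) 
(.nd (nat_lit 4) (.nd (nat_lit 5) (.nd (nat_lit 6) (.nd (nat_lit 7) (.nd (nat_lit 8) 
(.nd (nat_lit 9) 
(.lf (nat_lit 467982) (.g (nat_lit 2563) (.e (nat_lit 3244) (nat_lit 197) (.e (nat_lit 532503) (nat_lit 1) (.e (nat_lit 57931) (nat_lit 282) (.e (nat_lit 163867) (nat_lit 2) (.e (nat_lit 196668) (nat_lit 14) (.e (nat_lit 73747) (nat_lit 3) (.e (nat_lit 516131) (nat_lit 3) (.e (nat_lit 221197) (nat_lit 20) .nil)))))))) (.g (nat_lit 1) (.e (nat_lit 78762) (nat_lit 0) .nil) .nil))) 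
(.lf (nat_lit 468494) (.g (nat_lit 1337) (.e (nat_lit 3295) (nat_lit 202) (.e (nat_lit 573482) (nat_lit 13) (.e (nat_lit 65628) (nat_lit 14) (.e (nat_lit 401428) (nat_lit 3) .nil)))) (.g (nat_lit 0) (.e (nat_lit 80145) (nat_lit 0) .nil) .nil)))) (.nd (nat_lit 9) 
(.lf (nat_lit 468238) (.g (nat_lit 1947) (.e (nat_lit 3213) (nat_lit 195) (.e (nat_lit 516129) (nat_lit 3) (.e (nat_lit 221210) (nat_lit 22) (.e (nat_lit 196668) (nat_lit 14) (.e (nat_lit 81664) (nat_lit 5) (.e (nat_lit 532583) (nat_lit 26) (.e (nat_lit 426012) (nat_lit 0) .nil))))))) (.g (nat_lit 1) (.e (nat_lit 79159) (nat_lit 0) .nil) .nil))) 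
(.lf (nat_lit 468750) (.g (nat_lit 3087) (.e (nat_lit 3297) (nat_lit 202) (.e (nat_lit 573492) (nat_lit 15) (.e (nat_lit 81956) (nat_lit 23) (.e (nat_lit 98388) (nat_lit 33) (.e (nat_lit 491548) (nat_lit 9) (.e (nat_lit 336306) (nat_lit 15) .nil)))))) (.g (nat_lit 1) (.e (nat_lit 80964) (nat_lit 0) .nil) .nil))))) (.nd (nat_lit 8) (.nd (nat_lit 9) 
(.lf (nat_lit 468110) (.g (nat_lit 3044) (.e (nat_lit 3262) (nat_lit 198) (.e (nat_lit 540706) (nat_lit 12) (.e (nat_lit 360474) (nat_lit 8) (.e (nat_lit 557094) (nat_lit 12) (.e (nat_lit 164022) (nat_lit 46) (.e (nat_lit 704737) (nat_lit 11) (.e (nat_lit 16393) (nat_lit 0) .nil))))))) (.g (nat_lit 1) (.e (nat_lit 78949) (nat_lit 0) .nil) .nil))) 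
(.lf (nat_lit 468622) (.g (nat_lit 2723) (.e (nat_lit 3297) (nat_lit 202) (.e (nat_lit 573481) (nat_lit 13) (.e (nat_lit 65619) (nat_lit 10) (.e (nat_lit 344117) (nat_lit 21) (.e (nat_lit 516181) (nat_lit 15) (.e (nat_lit 475209) (nat_lit 41) (.e (nat_lit 712719) (nat_lit 15) .nil))))))) (.g (nat_lit 1) (.e (nat_lit 80491) (nat_lit 0) .nil) .nil)))) (.nd (nat_lit 9) 
(.lf (nat_lit 468366) (.g (nat_lit 1291) (.e (nat_lit 3271) (nat_lit 199) (.e (nat_lit 548913) (nat_lit 18) (.e (nat_lit 172125) (nat_lit 14) (.e (nat_lit 491524) (nat_lit 0) (.e (nat_lit 1685) (nat_lit 117) .nil))))) (.g (nat_lit 0) (.e (nat_lit 79601) (nat_lit 0) .nil) .nil))) 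
(.lf (nat_lit 468878) (.g (nat_lit 1497) (.e (nat_lit 3298) (nat_lit 202) (.e (nat_lit 573492) (nat_lit 15) (.e (nat_lit 81956) (nat_lit 23) (.e (nat_lit 98323) (nat_lit 17) .nil)))) (.g (nat_lit 0) (.e (nat_lit 81414) (nat_lit 0) .nil) .nil)))))) (.nd (nat_lit 7) (.nd (nat_lit 8) (.nd (nat_lit 9) 
(.lf (nat_lit 468046) (.g (nat_lit 2549) (.e (nat_lit 3258) (nat_lit 198) (.e (nat_lit 540706) (nat_lit 12) (.e (nat_lit 360475) (nat_lit 8) (.e (nat_lit 564992) (nat_lit 11) .nil)))) (.g (nat_lit 0) (.e (nat_lit 78841) (nat_lit 0) .nil) .nil))) 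
(.lf (nat_lit 468558) (.g (nat_lit 1616) (.e (nat_lit 3296) (nat_lit 202) (.e (nat_lit 573482) (nat_lit 13) (.e (nat_lit 65619) (nat_lit 10) (.e (nat_lit 344117) (nat_lit 21) (.e (nat_lit 516106) (nat_lit 0) .nil))))) (.g (nat_lit 0) (.e (nat_lit 80302) (nat_lit 0) .nil) .nil)))) (.nd (nat_lit 9) 
(.lf (nat_lit 468302) (.g (nat_lit 3800) (.e (nat_lit 3270) (nat_lit 199) (.e (nat_lit 548913) (nat_lit 18) (.e (nat_lit 172119) (nat_lit 12) (.e (nat_lit 475185) (nat_lit 29) (.e (nat_lit 557107) (nat_lit 15) (.e (nat_lit 188439) (nat_lit 20) .nil)))))) (.g (nat_lit 1) (.e (nat_lit 79370) (nat_lit 0) .nil) .nil))) 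
(.lf (nat_lit 468814) (.g (nat_lit 1880) (.e (nat_lit 3298) (nat_lit 202) (.e (nat_lit 573481) (nat_lit 13) (.e (nat_lit 65628) (nat_lit 14) (.e (nat_lit 401428) (nat_lit 3) (.e (nat_lit 204865) (nat_lit 28) (.e (nat_lit 360192) (nat_lit 0) .nil)))))) (.g (nat_lit 1) (.e (nat_lit 81092) (nat_lit 0) .nil) .nil))))) (.nd (nat_lit 8) (.nd (nat_lit 9) 
(.lf (nat_lit 468174) (.g (nat_lit 3331) (.e (nat_lit 3262) (nat_lit 198) (.e (nat_lit 540706) (nat_lit 12) (.e (nat_lit 360475) (nat_lit 8) (.e (nat_lit 557090) (nat_lit 12) (.e (nat_lit 164020) (nat_lit 45) (.e (nat_lit 696344) (nat_lit 8) (.e (nat_lit 172032) (nat_lit 0) .nil))))))) (.g (nat_lit 1) (.e (nat_lit 79074) (nat_lit 0) .nil) .nil))) 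
(.lf (nat_lit 468686) (.g (nat_lit 2317) (.e (nat_lit 3297) (nat_lit 202) (.e (nat_lit 573491) (nat_lit 15) (.e (nat_lit 81954) (nat_lit 23) (.e (nat_lit 98385) (nat_lit 32) (.e (nat_lit 475209) (nat_lit 41) (.e (nat_lit 712719) (nat_lit 15) .nil)))))) (.g (nat_lit 1) (.e (nat_lit 80766) (nat_lit 0) .nil) .nil)))) (.nd (nat_lit 9) 
(.lf (nat_lit 468430) (.g (nat_lit 2818) (.e (nat_lit 3272) (nat_lit 199) (.e (nat_lit 548913) (nat_lit 18) (.e (nat_lit 172124) (nat_lit 14) (.e (nat_lit 491536) (nat_lit 2) (.e (nat_lit 90178) (nat_lit 15) (.e (nat_lit 188440) (nat_lit 20) .nil)))))) (.g (nat_lit 1) (.e (nat_lit 80033) (nat_lit 0) .nil) .nil))) 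
(.lf (nat_lit 468942) (.g (nat_lit 2329) (.e (nat_lit 3298) (nat_lit 202) (.e (nat_lit 573493) (nat_lit 15) (.e (nat_lit 81956) (nat_lit 23) (.e (nat_lit 98350) (nat_lit 24) .nil)))) (.g (nat_lit 0) (.e (nat_lit 81556) (nat_lit 0) .nil) .nil))))))) (.nd (nat_lit 6) (.nd (nat_lit 7) (.nd (nat_lit 8) (.nd (nat_lit 9) 
(.lf (nat_lit 468014) (.g (nat_lit 2815) (.e (nat_lit 3247) (nat_lit 197) (.e (nat_lit 532503) (nat_lit 1) (.e (nat_lit 57931) (nat_lit 282) (.e (nat_lit 163869) (nat_lit 2) (.e (nat_lit 196668) (nat_lit 14) (.e (nat_lit 73747) (nat_lit 3) (.e (nat_lit 516131) (nat_lit 3) (.e (nat_lit 221196) (nat_lit 20) .nil)))))))) (.g (nat_lit 1) (.e (nat_lit 78797) (nat_lit 0) .nil) .nil))) 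
(.lf (nat_lit 468526) (.g (nat_lit 2528) (.e (nat_lit 3295) (nat_lit 202) (.e (nat_lit 573492) (nat_lit 15) (.e (nat_lit 81956) (nat_lit 23) (.e (nat_lit 98323) (nat_lit 17) .nil)))) (.g (nat_lit 0) (.e (nat_lit 80225) (nat_lit 0) .nil) .nil)))) (.nd (nat_lit 9) 
(.lf (nat_lit 468270) (.g (nat_lit 1888) (.e (nat_lit 7936) (nat_lit 195) (.e (nat_lit 516160) (nat_lit 10) (.e (nat_lit 434246) (nat_lit 28) (.e (nat_lit 573482) (nat_lit 13) (.e (nat_lit 65567) (nat_lit 2) .nil))))) (.g (nat_lit 0) (.e (nat_lit 79213) (nat_lit 0) .nil) .nil))) 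
(.lf (nat_lit 468782) (.g (nat_lit 1697) (.e (nat_lit 3298) (nat_lit 202) (.e (nat_lit 573481) (nat_lit 13) (.e (nat_lit 65604) (nat_lit 9) (.e (nat_lit 336028) (nat_lit 3) (.e (nat_lit 98325) (nat_lit 17) .nil))))) (.g (nat_lit 0) (.e (nat_lit 81017) (nat_lit 0) .nil) .nil))))) (.nd (nat_lit 8) (.nd (nat_lit 9) 
(.lf (nat_lit 468142) (.g (nat_lit 4077) (.e (nat_lit 3262) (nat_lit 198) (.e (nat_lit 540706) (nat_lit 12) (.e (nat_lit 360475) (nat_lit 8) (.e (nat_lit 557089) (nat_lit 12) (.e (nat_lit 163848) (nat_lit 0) (.e (nat_lit 6418) (nat_lit 341) (.e (nat_lit 163908) (nat_lit 12) (.e (nat_lit 426003) (nat_lit 0) .nil)))))))) (.g (nat_lit 1) (.e (nat_lit 79033) (nat_lit 0) .nil) .nil))) 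
(.lf (nat_lit 468654) (.g (nat_lit 2594) (.e (nat_lit 3297) (nat_lit 202) (.e (nat_lit 573481) (nat_lit 13) (.e (nat_lit 65628) (nat_lit 14) (.e (nat_lit 401428) (nat_lit 3) (.e (nat_lit 204866) (nat_lit 28) (.e (nat_lit 360192) (nat_lit 0) .nil)))))) (.g (nat_lit 1) (.e (nat_lit 80532) (nat_lit 0) .nil) .nil)))) (.nd (nat_lit 9) 
(.lf (nat_lit 468398) (.g (nat_lit 2495) (.e (nat_lit 3272) (nat_lit 199) (.e (nat_lit 548898) (nat_lit 14) (.e (nat_lit 2842) (nat_lit 184) (.e (nat_lit 426340) (nat_lit 14) (.e (nat_lit 491537) (nat_lit 2) (.e (nat_lit 90176) (nat_lit 15) (.e (nat_lit 188439) (nat_lit 20) .nil))))))) (.g (nat_lit 1) (.e (nat_lit 79720) (nat_lit 0) .nil) .nil))) 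
(.lf (nat_lit 468910) (.g (nat_lit 2242) (.e (nat_lit 3298) (nat_lit 202) (.e (nat_lit 573493) (nat_lit 15) (.e (nat_lit 81951) (nat_lit 22) (.e (nat_lit 90165) (nat_lit 12) .nil)))) (.g (nat_lit 0) (.e (nat_lit 81510) (nat_lit 0) .nil) .nil)))))) (.nd (nat_lit 7) (.nd (nat_lit 8) (.nd (nat_lit 9) 
(.lf (nat_lit 468078) (.g (nat_lit 6031) (.e (nat_lit 3262) (nat_lit 198) (.e (nat_lit 540706) (nat_lit 12) (.e (nat_lit 360474) (nat_lit 8) (.e (nat_lit 557085) (nat_lit 11) (.e (nat_lit 24662) (nat_lit 14) (.e (nat_lit 401410) (nat_lit 0) .nil)))))) (.g (nat_lit 1) (.e (nat_lit 78917) (nat_lit 0) .nil) .nil))) 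
(.lf (nat_lit 468590) (.g (nat_lit 3213) (.e (nat_lit 3297) (nat_lit 202) (.e (nat_lit 573471) (nat_lit 11) (.e (nat_lit 16473) (nat_lit 14) (.e (nat_lit 491536) (nat_lit 2) (.e (nat_lit 90178) (nat_lit 15) (.e (nat_lit 188440) (nat_lit 20) .nil)))))) (.g (nat_lit 1) (.e (nat_lit 80402) (nat_lit 0) .nil) .nil)))) (.nd (nat_lit 9) 
(.lf (nat_lit 468334) (.g (nat_lit 1594) (.e (nat_lit 3270) (nat_lit 199) (.e (nat_lit 548913) (nat_lit 18) (.e (nat_lit 172126) (nat_lit 14) (.e (nat_lit 491540) (nat_lit 3) .nil)))) (.g (nat_lit 0) (.e (nat_lit 79402) (nat_lit 0) .nil) .nil))) 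
(.lf (nat_lit 468846) (.g (nat_lit 1610) (.e (nat_lit 3298) (nat_lit 202) (.e (nat_lit 573491) (nat_lit 15) (.e (nat_lit 81954) (nat_lit 23) (.e (nat_lit 98325) (nat_lit 17) (.e (nat_lit 6966) (nat_lit 377) (.e (nat_lit 2777) (nat_lit 178) (.e (nat_lit 286765) (nat_lit 15) .nil))))))) (.g (nat_lit 1) (.e (nat_lit 81294) (nat_lit 0) .nil) .nil))))) (.nd (nat_lit 8) (.nd (nat_lit 9) 
(.lf (nat_lit 468206) (.g (nat_lit 3231) (.e (nat_lit 3262) (nat_lit 198) (.e (nat_lit 540706) (nat_lit 12) (.e (nat_lit 360475) (nat_lit 8) (.e (nat_lit 557091) (nat_lit 12) (.e (nat_lit 164022) (nat_lit 46) (.e (nat_lit 704737) (nat_lit 11) (.e (nat_lit 16385) (nat_lit 0) .nil))))))) (.g (nat_lit 1) (.e (nat_lit 79110) (nat_lit 0) .nil) .nil))) 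
(.lf (nat_lit 468718) (.g (nat_lit 1973) (.e (nat_lit 3297) (nat_lit 202) (.e (nat_lit 573492) (nat_lit 15) (.e (nat_lit 81956) (nat_lit 23) (.e (nat_lit 98320) (nat_lit 17) .nil)))) (.g (nat_lit 0) (.e (nat_lit 80883) (nat_lit 0) .nil) .nil)))) (.nd (nat_lit 9) 
(.lf (nat_lit 468462) (.g (nat_lit 3766) (.e (nat_lit 3272) (nat_lit 199) (.e (nat_lit 548913) (nat_lit 18) (.e (nat_lit 172126) (nat_lit 14) (.e (nat_lit 491536) (nat_lit 2) (.e (nat_lit 90176) (nat_lit 15) (.e (nat_lit 188439) (nat_lit 20) .nil)))))) (.g (nat_lit 1) (.e (nat_lit 80070) (nat_lit 0) .nil) .nil))) 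
(.lf (nat_lit 468974) (.g (nat_lit 1171) (.e (nat_lit 3302) (nat_lit 202) (.e (nat_lit 573481) (nat_lit 13) (.e (nat_lit 65619) (nat_lit 10) (.e (nat_lit 344126) (nat_lit 25) .nil)))) (.g (nat_lit 0) (.e (nat_lit 81675) (nat_lit 0) .nil) .nil)))))))) (.nd (nat_lit 5) (.nd (nat_lit 6) (.nd (nat_lit 7) (.nd (nat_lit 8) (.nd (nat_lit 9) 
(.lf (nat_lit 467998) (.g (nat_lit 2328) (.e (nat_lit 3245) (nat_lit 197) (.e (nat_lit 532504) (nat_lit 1) (.e (nat_lit 57851) (nat_lit 252) (.e (nat_lit 57406) (nat_lit 12) (.e (nat_lit 336456) (nat_lit 34) (.e (nat_lit 483379) (nat_lit 23) (.e (nat_lit 336238) (nat_lit 15) .nil))))))) (.g (nat_lit 1) (.e (nat_lit 78779) (nat_lit 0) .nil) .nil))) 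
(.lf (nat_lit 468510) (.g (nat_lit 2422) (.e (nat_lit 3295) (nat_lit 202) (.e (nat_lit 573485) (nat_lit 13) (.e (nat_lit 65619) (nat_lit 10) (.e (nat_lit 344117) (nat_lit 21) (.e (nat_lit 516185) (nat_lit 16) (.e (nat_lit 491552) (nat_lit 9) (.e (nat_lit 336282) (nat_lit 15) .nil))))))) (.g (nat_lit 1) (.e (nat_lit 80180) (nat_lit 0) .nil) .nil)))) (.nd (nat_lit 9) 
(.lf (nat_lit 468254) (.g (nat_lit 1473) (.e (nat_lit 7936) (nat_lit 195) (.e (nat_lit 516145) (nat_lit 9) (.e (nat_lit 426428) (nat_lit 17) (.e (nat_lit 90134) (nat_lit 9) .nil)))) (.g (nat_lit 0) (.e (nat_lit 79197) (nat_lit 0) .nil) .nil))) 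
(.lf (nat_lit 468766) (.g (nat_lit 5806) (.e (nat_lit 3297) (nat_lit 202) (.e (nat_lit 573493) (nat_lit 15) (.e (nat_lit 81956) (nat_lit 23) (.e (nat_lit 98320) (nat_lit 17) .nil)))) (.g (nat_lit 0) (.e (nat_lit 80983) (nat_lit 0) .nil) .nil))))) (.nd (nat_lit 8) (.nd (nat_lit 9) 
(.lf (nat_lit 468126) (.g (nat_lit 3078) (.e (nat_lit 3262) (nat_lit 198) (.e (nat_lit 540706) (nat_lit 12) (.e (nat_lit 360475) (nat_lit 8) (.e (nat_lit 557086) (nat_lit 11) (.e (nat_lit 24665) (nat_lit 14) (.e (nat_lit 401408) (nat_lit 0) .nil)))))) (.g (nat_lit 1) (.e (nat_lit 79017) (nat_lit 0) .nil) .nil))) 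
(.lf (nat_lit 468638) (.g (nat_lit 1123) (.e (nat_lit 3297) (nat_lit 202) (.e (nat_lit 573481) (nat_lit 13) (.e (nat_lit 65619) (nat_lit 10) (.e (nat_lit 344129) (nat_lit 26) .nil)))) (.g (nat_lit 0) (.e (nat_lit 80513) (nat_lit 0) .nil) .nil)))) (.nd (nat_lit 9) 
(.lf (nat_lit 468382) (.g (nat_lit 1904) (.e (nat_lit 3271) (nat_lit 199) (.e (nat_lit 548913) (nat_lit 18) (.e (nat_lit 172126) (nat_lit 14) (.e (nat_lit 491536) (nat_lit 2) .nil)))) (.g (nat_lit 0) (.e (nat_lit 79617) (nat_lit 0) .nil) .nil))) 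
(.lf (nat_lit 468894) (.g (nat_lit 2892) (.e (nat_lit 3298) (nat_lit 202) (.e (nat_lit 573492) (nat_lit 15) (.e (nat_lit 81956) (nat_lit 23) (.e (nat_lit 98387) (nat_lit 33) (.e (nat_lit 491550) (nat_lit 9) (.e (nat_lit 336306) (nat_lit 15) .nil)))))) (.g (nat_lit 1) (.e (nat_lit 81481) (nat_lit 0) .nil) .nil)))))) (.nd (nat_lit 7) (.nd (nat_lit 8) (.nd (nat_lit 9) 
(.lf (nat_lit 468062) (.g (nat_lit 3976) (.e (nat_lit 3259) (nat_lit 198) (.e (nat_lit 540706) (nat_lit 12) (.e (nat_lit 360475) (nat_lit 8) (.e (nat_lit 557090) (nat_lit 12) (.e (nat_lit 164020) (nat_lit 45) (.e (nat_lit 696343) (nat_lit 8) (.e (nat_lit 172040) (nat_lit 0) .nil))))))) (.g (nat_lit 1) (.e (nat_lit 78871) (nat_lit 0) .nil) .nil))) 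
(.lf (nat_lit 468574) (.g (nat_lit 1325) (.e (nat_lit 3297) (nat_lit 202) (.e (nat_lit 573471) (nat_lit 11) (.e (nat_lit 16425) (nat_lit 7) (.e (nat_lit 409617) (nat_lit 10) .nil)))) (.g (nat_lit 0) (.e (nat_lit 80375) (nat_lit 0) .nil) .nil)))) (.nd (nat_lit 9) 
(.lf (nat_lit 468318) (.g (nat_lit 3188) (.e (nat_lit 3270) (nat_lit 199) (.e (nat_lit 548913) (nat_lit 18) (.e (nat_lit 172124) (nat_lit 14) (.e (nat_lit 491536) (nat_lit 2) (.e (nat_lit 90176) (nat_lit 15) (.e (nat_lit 188439) (nat_lit 20) .nil)))))) (.g (nat_lit 1) (.e (nat_lit 79386) (nat_lit 0) .nil) .nil))) 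
(.lf (nat_lit 468830) (.g (nat_lit 2346) (.e (nat_lit 3298) (nat_lit 202) (.e (nat_lit 573482) (nat_lit 13) (.e (nat_lit 65619) (nat_lit 10) (.e (nat_lit 344117) (nat_lit 21) (.e (nat_lit 516106) (nat_lit 0) (.e (nat_lit 7008) (nat_lit 377) (.e (nat_lit 2789) (nat_lit 179) (.e (nat_lit 294966) (nat_lit 15) .nil)))))))) (.g (nat_lit 1) (.e (nat_lit 81110) (nat_lit 0) .nil) .nil))))) 
(.nd (nat_lit 8) (.nd (nat_lit 9) 
(.lf (nat_lit 468190) (.g (nat_lit 3105) (.e (nat_lit 3262) (nat_lit 198) (.e (nat_lit 540706) (nat_lit 12) (.e (nat_lit 360475) (nat_lit 8) (.e (nat_lit 557091) (nat_lit 12) (.e (nat_lit 163847) (nat_lit 0) .nil))))) (.g (nat_lit 0) (.e (nat_lit 79092) (nat_lit 0) .nil) .nil))) 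
(.lf (nat_lit 468702) (.g (nat_lit 638) (.e (nat_lit 3297) (nat_lit 202) (.e (nat_lit 573491) (nat_lit 15) (.e (nat_lit 81955) (nat_lit 23) .nil))) (.g (nat_lit 0) (.e (nat_lit 80782) (nat_lit 0) .nil) .nil)))) (.nd (nat_lit 9) 
(.lf (nat_lit 468446) (.g (nat_lit 3029) (.e (nat_lit 3272) (nat_lit 199) (.e (nat_lit 548913) (nat_lit 18) (.e (nat_lit 172125) (nat_lit 14) (.e (nat_lit 491536) (nat_lit 2) (.e (nat_lit 90177) (nat_lit 15) (.e (nat_lit 188434) (nat_lit 20) .nil)))))) (.g (nat_lit 1) (.e (nat_lit 80049) (nat_lit 0) .nil) .nil))) 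
(.lf (nat_lit 468958) (.g (nat_lit 2725) (.e (nat_lit 3301) (nat_lit 202) (.e (nat_lit 573476) (nat_lit 12) (.e (nat_lit 57574) (nat_lit 55) (.e (nat_lit 778466) (nat_lit 11) (.e (nat_lit 24604) (nat_lit 2) (.e (nat_lit 90185) (nat_lit 17) (.e (nat_lit 237605) (nat_lit 9) (.e (nat_lit 425986) (nat_lit 0) .nil)))))))) (.g (nat_lit 1) (.e (nat_lit 81616) (nat_lit 0) .nil) .nil))))))) 
(.nd (nat_lit 6) (.nd (nat_lit 7) (.nd (nat_lit 8) (.nd (nat_lit 9) 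
(.lf (nat_lit 468030) (.g (nat_lit 4258) (.e (nat_lit 3257) (nat_lit 198) (.e (nat_lit 540706) (nat_lit 12) (.e (nat_lit 360475) (nat_lit 8) (.e (nat_lit 557090) (nat_lit 12) (.e (nat_lit 164020) (nat_lit 45) (.e (nat_lit 696344) (nat_lit 8) (.e (nat_lit 172034) (nat_lit 0) .nil))))))) (.g (nat_lit 1) (.e (nat_lit 78818) (nat_lit 0) .nil) .nil))) 
(.lf (nat_lit 468542) (.g (nat_lit 4654) (.e (nat_lit 3295) (nat_lit 202) (.e (nat_lit 573493) (nat_lit 15) (.e (nat_lit 81956) (nat_lit 23) (.e (nat_lit 98389) (nat_lit 33) (.e (nat_lit 491556) (nat_lit 9) .nil))))) (.g (nat_lit 0) (.e (nat_lit 80273) (nat_lit 0) .nil) .nil)))) (.nd (nat_lit 9) 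
(.lf (nat_lit 468286) (.g (nat_lit 1866) (.e (nat_lit 7936) (nat_lit 195) (.e (nat_lit 516179) (nat_lit 15) (.e (nat_lit 475177) (nat_lit 24) (.e (nat_lit 516171) (nat_lit 13) (.e (nat_lit 458795) (nat_lit 28) .nil))))) (.g (nat_lit 0) (.e (nat_lit 79229) (nat_lit 0) .nil) .nil))) 
(.lf (nat_lit 468798) (.g (nat_lit 3965) (.e (nat_lit 3298) (nat_lit 202) (.e (nat_lit 573481) (nat_lit 13) (.e (nat_lit 65619) (nat_lit 10) (.e (nat_lit 344117) (nat_lit 21) (.e (nat_lit 516184) (nat_lit 16) (.e (nat_lit 491549) (nat_lit 9) (.e (nat_lit 336306) (nat_lit 15) .nil))))))) (.g (nat_lit 1) (.e (nat_lit 81058) (nat_lit 0) .nil) .nil))))) (.nd (nat_lit 8) (.nd (nat_lit 9) 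
(.lf (nat_lit 468158) (.g (nat_lit 2342) (.e (nat_lit 3262) (nat_lit 198) (.e (nat_lit 540706) (nat_lit 12) (.e (nat_lit 360475) (nat_lit 8) (.e (nat_lit 557090) (nat_lit 12) (.e (nat_lit 164020) (nat_lit 45) (.e (nat_lit 696328) (nat_lit 5) (.e (nat_lit 2842) (nat_lit 184) (.e (nat_lit 426032) (nat_lit 0) .nil)))))))) (.g (nat_lit 1) (.e (nat_lit 79057) (nat_lit 0) .nil) .nil))) 
(.lf (nat_lit 468670) (.g (nat_lit 3127) (.e (nat_lit 3297) (nat_lit 202) (.e (nat_lit 573484) (nat_lit 13) (.e (nat_lit 65617) (nat_lit 10) (.e (nat_lit 344130) (nat_lit 26) (.e (nat_lit 557085) (nat_lit 11) (.e (nat_lit 24630) (nat_lit 9) (.e (nat_lit 336306) (nat_lit 15) .nil))))))) (.g (nat_lit 1) (.e (nat_lit 80550) (nat_lit 0) .nil) .nil)))) (.nd (nat_lit 9) 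
(.lf (nat_lit 468414) (.g (nat_lit 2941) (.e (nat_lit 3272) (nat_lit 199) (.e (nat_lit 548913) (nat_lit 18) (.e (nat_lit 172120) (nat_lit 12) (.e (nat_lit 475183) (nat_lit 29) (.e (nat_lit 557107) (nat_lit 15) (.e (nat_lit 188441) (nat_lit 20) .nil)))))) (.g (nat_lit 1) (.e (nat_lit 80016) (nat_lit 0) .nil) .nil))) 
(.lf (nat_lit 468926) (.g (nat_lit 2327) (.e (nat_lit 3298) (nat_lit 202) (.e (nat_lit 573493) (nat_lit 15) (.e (nat_lit 81954) (nat_lit 23) (.e (nat_lit 98325) (nat_lit 17) .nil)))) (.g (nat_lit 0) (.e (nat_lit 81532) (nat_lit 0) .nil) .nil)))))) (.nd (nat_lit 7) (.nd (nat_lit 8) (.nd (nat_lit 9) 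
(.lf (nat_lit 468094) (.g (nat_lit 3430) (.e (nat_lit 3262) (nat_lit 198) (.e (nat_lit 540706) (nat_lit 12) (.e (nat_lit 360474) (nat_lit 8) (.e (nat_lit 557093) (nat_lit 12) (.e (nat_lit 164022) (nat_lit 46) (.e (nat_lit 704737) (nat_lit 11) (.e (nat_lit 16391) (nat_lit 0) .nil))))))) (.g (nat_lit 1) (.e (nat_lit 78933) (nat_lit 0) .nil) .nil))) 
(.lf (nat_lit 468606) (.g (nat_lit 2006) (.e (nat_lit 3297) (nat_lit 202) (.e (nat_lit 573481) (nat_lit 13) (.e (nat_lit 65619) (nat_lit 10) (.e (nat_lit 344117) (nat_lit 21) (.e (nat_lit 516097) (nat_lit 0) .nil))))) (.g (nat_lit 0) (.e (nat_lit 80469) (nat_lit 0) .nil) .nil)))) (.nd (nat_lit 9) 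
(.lf (nat_lit 468350) (.g (nat_lit 3577) (.e (nat_lit 3271) (nat_lit 199) (.e (nat_lit 548913) (nat_lit 18) (.e (nat_lit 172120) (nat_lit 12) (.e (nat_lit 475185) (nat_lit 29) (.e (nat_lit 557107) (nat_lit 15) (.e (nat_lit 188440) (nat_lit 20) .nil)))))) (.g (nat_lit 1) (.e (nat_lit 79585) (nat_lit 0) .nil) .nil))) 
(.lf (nat_lit 468862) (.g (nat_lit 3343) (.e (nat_lit 3298) (nat_lit 202) (.e (nat_lit 573491) (nat_lit 15) (.e (nat_lit 81956) (nat_lit 23) (.e (nat_lit 98389) (nat_lit 33) (.e (nat_lit 491549) (nat_lit 9) .nil))))) (.g (nat_lit 0) (.e (nat_lit 81321) (nat_lit 0) .nil) .nil))))) (.nd (nat_lit 8) (.nd (nat_lit 9) 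
(.lf (nat_lit 468222) (.g (nat_lit 1064) (.e (nat_lit 3208) (nat_lit 195) (.e (nat_lit 516130) (nat_lit 3) (.e (nat_lit 221215) (nat_lit 23) (.e (nat_lit 204861) (nat_lit 26) .nil)))) (.g (nat_lit 0) (.e (nat_lit 79131) (nat_lit 0) .nil) .nil))) 
(.lf (nat_lit 468734) (.g (nat_lit 2746) (.e (nat_lit 3297) (nat_lit 202) (.e (nat_lit 573492) (nat_lit 15) (.e (nat_lit 81956) (nat_lit 23) (.e (nat_lit 98383) (nat_lit 32) .nil)))) (.g (nat_lit 0) (.e (nat_lit 80948) (nat_lit 0) .nil) .nil)))) (.nd (nat_lit 9) 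
(.lf (nat_lit 468478) (.g (nat_lit 3906) (.e (nat_lit 3272) (nat_lit 199) (.e (nat_lit 548913) (nat_lit 18) (.e (nat_lit 172126) (nat_lit 14) (.e (nat_lit 491540) (nat_lit 3) (.e (nat_lit 98370) (nat_lit 28) (.e (nat_lit 442412) (nat_lit 20) .nil)))))) (.g (nat_lit 1) (.e (nat_lit 80087) (nat_lit 0) .nil) .nil))) 
(.lf (nat_lit 468990) (.g (nat_lit 2770) (.e (nat_lit 3302) (nat_lit 202) (.e (nat_lit 573481) (nat_lit 13) (.e (nat_lit 65630) (nat_lit 14) (.e (nat_lit 401428) (nat_lit 3) (.e (nat_lit 204865) (nat_lit 28) (.e (nat_lit 352261) (nat_lit 0) .nil)))))) (.g (nat_lit 1) (.e (nat_lit 81697) (nat_lit 0) .nil) .nil)))))))))))) 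
(.nd (nat_lit 1) (.nd (nat_lit 2) (.nd (nat_lit 3) (.nd (nat_lit 4) (.nd (nat_lit 5) 
(.nd (nat_lit 6) (.nd (nat_lit 7) (.nd (nat_lit 8) (.nd (nat_lit 9) 
(.lf (nat_lit 467969) (.g (nat_lit 4542) (.e (nat_lit 3256) (nat_lit 197) (.e (nat_lit 532550) (nat_lit 12) (.e (nat_lit 360475) (nat_lit 8) (.e (nat_lit 557087) (nat_lit 11) .nil)))) (.g (nat_lit 0) (.e (nat_lit 78749) (nat_lit 0) .nil) .nil))) 
(.lf (nat_lit 468481) (.g (nat_lit 3818) (.e (nat_lit 3274) (nat_lit 199) (.e (nat_lit 548913) (nat_lit 18) (.e (nat_lit 172126) (nat_lit 14) (.e (nat_lit 491537) (nat_lit 2) (.e (nat_lit 90185) (nat_lit 17) (.e (nat_lit 237605) (nat_lit 9) (.e (nat_lit 425986) (nat_lit 0) .nil))))))) (.g (nat_lit 1) (.e (nat_lit 80115) (nat_lit 0) .nil) .nil)))) (.nd (nat_lit 9) 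
(.lf (nat_lit 468225) (.g (nat_lit 2028) (.e (nat_lit 3209) (nat_lit 195) (.e (nat_lit 516145) (nat_lit 9) (.e (nat_lit 426438) (nat_lit 18) (.e (nat_lit 98366) (nat_lit 27) (.e (nat_lit 434247) (nat_lit 28) .nil))))) (.g (nat_lit 0) (.e (nat_lit 79135) (nat_lit 0) .nil) .nil))) 
(.lf (nat_lit 468737) (.g (nat_lit 3873) (.e (nat_lit 3297) (nat_lit 202) (.e (nat_lit 573492) (nat_lit 15) (.e (nat_lit 81956) (nat_lit 23) (.e (nat_lit 98384) (nat_lit 32) (.e (nat_lit 475209) (nat_lit 41) (.e (nat_lit 712719) (nat_lit 15) .nil)))))) (.g (nat_lit 1) (.e (nat_lit 80951) (nat_lit 0) .nil) .nil))))) (.nd (nat_lit 8) (.nd (nat_lit 9) 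
(.lf (nat_lit 468097) (.g (nat_lit 3543) (.e (nat_lit 3262) (nat_lit 198) (.e (nat_lit 540706) (nat_lit 12) (.e (nat_lit 360474) (nat_lit 8) (.e (nat_lit 557093) (nat_lit 12) (.e (nat_lit 164022) (nat_lit 46) (.e (nat_lit 704738) (nat_lit 11) (.e (nat_lit 16393) (nat_lit 0) .nil))))))) (.g (nat_lit 1) (.e (nat_lit 78936) (nat_lit 0) .nil) .nil))) 
(.lf (nat_lit 468609) (.g (nat_lit 3092) (.e (nat_lit 3297) (nat_lit 202) (.e (nat_lit 573481) (nat_lit 13) (.e (nat_lit 65619) (nat_lit 10) (.e (nat_lit 344117) (nat_lit 21) (.e (nat_lit 516098) (nat_lit 0) (.e (nat_lit 7587) (nat_lit 406) (.e (nat_lit 73472) (nat_lit 15) .nil))))))) (.g (nat_lit 1) (.e (nat_lit 80472) (nat_lit 0) .nil) .nil)))) (.nd (nat_lit 9) 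
(.lf (nat_lit 468353) (.g (nat_lit 3390) (.e (nat_lit 3271) (nat_lit 199) (.e (nat_lit 548913) (nat_lit 18) (.e (nat_lit 172120) (nat_lit 12) (.e (nat_lit 475185) (nat_lit 29) (.e (nat_lit 557109) (nat_lit 15) (.e (nat_lit 188441) (nat_lit 20) .nil)))))) (.g (nat_lit 1) (.e (nat_lit 79588) (nat_lit 0) .nil) .nil))) 
(.lf (nat_lit 468865) (.g (nat_lit 3471) (.e (nat_lit 3298) (nat_lit 202) (.e (nat_lit 573492) (nat_lit 15) (.e (nat_lit 81953) (nat_lit 22) (.e (nat_lit 90161) (nat_lit 12) .nil)))) (.g (nat_lit 0) (.e (nat_lit 81379) (nat_lit 0) .nil) .nil)))))) (.nd (nat_lit 7) (.nd (nat_lit 8) (.nd (nat_lit 9) 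
(.lf (nat_lit 468033) (.g (nat_lit 3595) (.e (nat_lit 3258) (nat_lit 198) (.e (nat_lit 540703) (nat_lit 11) (.e (nat_lit 352315) (nat_lit 23) (.e (nat_lit 98349) (nat_lit 24) (.e (nat_lit 409646) (nat_lit 18) (.e (nat_lit 303112) (nat_lit 0) .nil)))))) (.g (nat_lit 1) (.e (nat_lit 78821) (nat_lit 0) .nil) .nil))) 
(.lf (nat_lit 468545) (.g (nat_lit 2478) (.e (nat_lit 3295) (nat_lit 202) (.e (nat_lit 573493) (nat_lit 15) (.e (nat_lit 81962) (nat_lit 25) (.e (nat_lit 147200) (nat_lit 18) .nil)))) (.g (nat_lit 0) (.e (nat_lit 80279) (nat_lit 0) .nil) .nil)))) (.nd (nat_lit 9) 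
(.lf (nat_lit 468289) (.g (nat_lit 2884) (.e (nat_lit 7936) (nat_lit 195) (.e (nat_lit 516183) (nat_lit 16) (.e (nat_lit 491571) (nat_lit 13) (.e (nat_lit 393225) (nat_lit 9) (.e (nat_lit 343808) (nat_lit 20) .nil))))) (.g (nat_lit 0) (.e (nat_lit 79232) (nat_lit 0) .nil) .nil))) 
(.lf (nat_lit 468801) (.g (nat_lit 3064) (.e (nat_lit 3298) (nat_lit 202) (.e (nat_lit 573481) (nat_lit 13) (.e (nat_lit 65619) (nat_lit 10) (.e (nat_lit 344117) (nat_lit 21) (.e (nat_lit 516185) (nat_lit 16) (.e (nat_lit 491552) (nat_lit 9) (.e (nat_lit 343808) (nat_lit 15) .nil))))))) (.g (nat_lit 1) (.e (nat_lit 81061) (nat_lit 0) .nil) .nil))))) (.nd (nat_lit 8) (.nd (nat_lit 9) 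
(.lf (nat_lit 468161) (.g (nat_lit 1801) (.e (nat_lit 3262) (nat_lit 198) (.e (nat_lit 540706) (nat_lit 12) (.e (nat_lit 360475) (nat_lit 8) (.e (nat_lit 557090) (nat_lit 12) (.e (nat_lit 164020) (nat_lit 45) (.e (nat_lit 696328) (nat_lit 5) (.e (nat_lit 2886) (nat_lit 184) (.e (nat_lit 426032) (nat_lit 0) .nil)))))))) (.g (nat_lit 1) (.e (nat_lit 79060) (nat_lit 0) .nil) .nil))) 
(.lf (nat_lit 468673) (.g (nat_lit 3840) (.e (nat_lit 3297) (nat_lit 202) (.e (nat_lit 573484) (nat_lit 13) (.e (nat_lit 65617) (nat_lit 10) (.e (nat_lit 344132) (nat_lit 26) (.e (nat_lit 557085) (nat_lit 11) (.e (nat_lit 24630) (nat_lit 9) (.e (nat_lit 336306) (nat_lit 15) .nil))))))) (.g (nat_lit 1) (.e (nat_lit 80553) (nat_lit 0) .nil) .nil)))) (.nd (nat_lit 9) 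
(.lf (nat_lit 468417) (.g (nat_lit 4181) (.e (nat_lit 3272) (nat_lit 199) (.e (nat_lit 548913) (nat_lit 18) (.e (nat_lit 172120) (nat_lit 12) (.e (nat_lit 475183) (nat_lit 29) (.e (nat_lit 557109) (nat_lit 15) (.e (nat_lit 188435) (nat_lit 20) .nil)))))) (.g (nat_lit 1) (.e (nat_lit 80019) (nat_lit 0) .nil) .nil))) 
(.lf (nat_lit 468929) (.g (nat_lit 3789) (.e (nat_lit 3298) (nat_lit 202) (.e (nat_lit 573493) (nat_lit 15) (.e (nat_lit 81956) (nat_lit 23) (.e (nat_lit 98319) (nat_lit 17) (.e (nat_lit 7589) (nat_lit 406) .nil))))) (.g (nat_lit 0) (.e (nat_lit 81536) (nat_lit 0) .nil) .nil))))))) (.nd (nat_lit 6) (.nd (nat_lit 7) (.nd (nat_lit 8) (.nd (nat_lit 9) 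
(.lf (nat_lit 468001) (.g (nat_lit 1215) (.e (nat_lit 3245) (nat_lit 197) (.e (nat_lit 532511) (nat_lit 2) (.e (nat_lit 106536) (nat_lit 11) (.e (nat_lit 16413) (nat_lit 2) (.e (nat_lit 196672) (nat_lit 15) (.e (nat_lit 89856) (nat_lit 0) .nil)))))) (.g (nat_lit 1) (.e (nat_lit 78782) (nat_lit 0) .nil) .nil))) 
(.lf (nat_lit 468513) (.g (nat_lit 2539) (.e (nat_lit 3295) (nat_lit 202) (.e (nat_lit 573485) (nat_lit 13) (.e (nat_lit 65619) (nat_lit 10) (.e (nat_lit 344129) (nat_lit 26) (.e (nat_lit 557087) (nat_lit 11) (.e (nat_lit 24632) (nat_lit 9) (.e (nat_lit 336294) (nat_lit 15) .nil))))))) (.g (nat_lit 1) (.e (nat_lit 80184) (nat_lit 0) .nil) .nil)))) (.nd (nat_lit 9) 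
(.lf (nat_lit 468257) (.g (nat_lit 2001) (.e (nat_lit 7936) (nat_lit 195) (.e (nat_lit 516160) (nat_lit 10) (.e (nat_lit 434244) (nat_lit 28) (.e (nat_lit 573481) (nat_lit 13) (.e (nat_lit 65566) (nat_lit 2) .nil))))) (.g (nat_lit 0) (.e (nat_lit 79200) (nat_lit 0) .nil) .nil))) 
(.lf (nat_lit 468769) (.g (nat_lit 2332) (.e (nat_lit 3298) (nat_lit 202) (.e (nat_lit 573450) (nat_lit 9) (.e (nat_lit 375) (nat_lit 32) (.e (nat_lit 426173) (nat_lit 7) (.e (nat_lit 409617) (nat_lit 10) (.e (nat_lit 7936) (nat_lit 43) (.e (nat_lit 516151) (nat_lit 9) (.e (nat_lit 426211) (nat_lit 9) (.e (nat_lit 426042) (nat_lit 0) .nil))))))))) (.g (nat_lit 1) (.e (nat_lit 80988) (nat_lit 0) .nil) .nil))))) 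
(.nd (nat_lit 8) (.nd (nat_lit 9) 
(.lf (nat_lit 468129) (.g (nat_lit 821) (.e (nat_lit 3262) (nat_lit 198) (.e (nat_lit 540706) (nat_lit 12) (.e (nat_lit 360475) (nat_lit 8) (.e (nat_lit 557087) (nat_lit 11) .nil)))) (.g (nat_lit 0) (.e (nat_lit 79020) (nat_lit 0) .nil) .nil))) 
(.lf (nat_lit 468641) (.g (nat_lit 4309) (.e (nat_lit 3297) (nat_lit 202) (.e (nat_lit 573481) (nat_lit 13) (.e (nat_lit 65619) (nat_lit 10) (.e (nat_lit 344129) (nat_lit 26) (.e (nat_lit 557086) (nat_lit 11) (.e (nat_lit 24630) (nat_lit 9) (.e (nat_lit 336306) (nat_lit 15) .nil))))))) (.g (nat_lit 1) (.e (nat_lit 80519) (nat_lit 0) .nil) .nil)))) (.nd (nat_lit 9) 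
(.lf (nat_lit 468385) (.g (nat_lit 3312) (.e (nat_lit 3271) (nat_lit 199) (.e (nat_lit 548913) (nat_lit 18) (.e (nat_lit 172126) (nat_lit 14) (.e (nat_lit 491537) (nat_lit 2) (.e (nat_lit 90177) (nat_lit 15) (.e (nat_lit 188434) (nat_lit 20) .nil)))))) (.g (nat_lit 1) (.e (nat_lit 79620) (nat_lit 0) .nil) .nil))) 
(.lf (nat_lit 468897) (.g (nat_lit 3826) (.e (nat_lit 3298) (nat_lit 202) (.e (nat_lit 573492) (nat_lit 15) (.e (nat_lit 81956) (nat_lit 23) (.e (nat_lit 98388) (nat_lit 33) (.e (nat_lit 491549) (nat_lit 9) (.e (nat_lit 336306) (nat_lit 15) .nil)))))) (.g (nat_lit 1) (.e (nat_lit 81484) (nat_lit 0) .nil) .nil)))))) (.nd (nat_lit 7) (.nd (nat_lit 8) (.nd (nat_lit 9) 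
(.lf (nat_lit 468065) (.g (nat_lit 1946) (.e (nat_lit 3259) (nat_lit 198) (.e (nat_lit 540706) (nat_lit 12) (.e (nat_lit 360475) (nat_lit 8) (.e (nat_lit 557091) (nat_lit 12) .nil)))) (.g (nat_lit 0) (.e (nat_lit 78874) (nat_lit 0) .nil) .nil))) 
(.lf (nat_lit 468577) (.g (nat_lit 2598) (.e (nat_lit 3297) (nat_lit 202) (.e (nat_lit 573471) (nat_lit 11) (.e (nat_lit 16425) (nat_lit 7) (.e (nat_lit 409617) (nat_lit 10) (.e (nat_lit 7936) (nat_lit 43) (.e (nat_lit 516164) (nat_lit 11) (.e (nat_lit 442410) (nat_lit 20) .nil))))))) (.g (nat_lit 1) (.e (nat_lit 80380) (nat_lit 0) .nil) .nil)))) (.nd (nat_lit 9) 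
(.lf (nat_lit 468321) (.g (nat_lit 2190) (.e (nat_lit 3270) (nat_lit 199) (.e (nat_lit 548913) (nat_lit 18) (.e (nat_lit 172124) (nat_lit 14) (.e (nat_lit 491540) (nat_lit 3) (.e (nat_lit 98369) (nat_lit 28) .nil))))) (.g (nat_lit 0) (.e (nat_lit 79389) (nat_lit 0) .nil) .nil))) 
(.lf (nat_lit 468833) (.g (nat_lit 2307) (.e (nat_lit 3298) (nat_lit 202) (.e (nat_lit 573482) (nat_lit 13) (.e (nat_lit 65619) (nat_lit 10) (.e (nat_lit 344117) (nat_lit 21) (.e (nat_lit 516183) (nat_lit 16) (.e (nat_lit 491549) (nat_lit 9) (.e (nat_lit 336306) (nat_lit 15) .nil))))))) (.g (nat_lit 1) (.e (nat_lit 81113) (nat_lit 0) .nil) .nil))))) (.nd (nat_lit 8) (.nd (nat_lit 9) 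
(.lf (nat_lit 468193) (.g (nat_lit 3476) (.e (nat_lit 3262) (nat_lit 198) (.e (nat_lit 540706) (nat_lit 12) (.e (nat_lit 360475) (nat_lit 8) (.e (nat_lit 557091) (nat_lit 12) (.e (nat_lit 163849) (nat_lit 0) (.e (nat_lit 6420) (nat_lit 341) (.e (nat_lit 163908) (nat_lit 12) (.e (nat_lit 426003) (nat_lit 0) .nil)))))))) (.g (nat_lit 1) (.e (nat_lit 79095) (nat_lit 0) .nil) .nil))) 
(.lf (nat_lit 468705) (.g (nat_lit 3572) (.e (nat_lit 3297) (nat_lit 202) (.e (nat_lit 573491) (nat_lit 15) (.e (nat_lit 81956) (nat_lit 23) (.e (nat_lit 98388) (nat_lit 33) (.e (nat_lit 491549) (nat_lit 9) (.e (nat_lit 336306) (nat_lit 15) .nil)))))) (.g (nat_lit 1) (.e (nat_lit 80786) (nat_lit 0) .nil) .nil)))) (.nd (nat_lit 9) 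
(.lf (nat_lit 468449) (.g (nat_lit 2323) (.e (nat_lit 3272) (nat_lit 199) (.e (nat_lit 548913) (nat_lit 18) (.e (nat_lit 172125) (nat_lit 14) (.e (nat_lit 491537) (nat_lit 2) (.e (nat_lit 90176) (nat_lit 15) .nil))))) (.g (nat_lit 0) (.e (nat_lit 80052) (nat_lit 0) .nil) .nil))) 
(.lf (nat_lit 468961) (.g (nat_lit 3458) (.e (nat_lit 3302) (nat_lit 202) (.e (nat_lit 573471) (nat_lit 11) (.e (nat_lit 16425) (nat_lit 7) (.e (nat_lit 409617) (nat_lit 10) (.e (nat_lit 7936) (nat_lit 43) .nil))))) (.g (nat_lit 0) (.e (nat_lit 81641) (nat_lit 0) .nil) .nil)))))))) (.nd (nat_lit 5) (.nd (nat_lit 6) (.nd (nat_lit 7) (.nd (nat_lit 8) (.nd (nat_lit 9) 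
(.lf (nat_lit 467985) (.g (nat_lit 3526) (.e (nat_lit 3244) (nat_lit 197) (.e (nat_lit 532503) (nat_lit 1) (.e (nat_lit 57931) (nat_lit 282) (.e (nat_lit 163869) (nat_lit 2) (.e (nat_lit 196670) (nat_lit 14) (.e (nat_lit 73746) (nat_lit 3) (.e (nat_lit 516129) (nat_lit 3) (.e (nat_lit 221196) (nat_lit 20) .nil)))))))) (.g (nat_lit 1) (.e (nat_lit 78765) (nat_lit 0) .nil) .nil))) 
(.lf (nat_lit 468497) (.g (nat_lit 4056) (.e (nat_lit 3295) (nat_lit 202) (.e (nat_lit 573484) (nat_lit 13) (.e (nat_lit 65610) (nat_lit 10) (.e (nat_lit 344117) (nat_lit 21) (.e (nat_lit 516179) (nat_lit 15) (.e (nat_lit 475210) (nat_lit 41) (.e (nat_lit 712722) (nat_lit 15) .nil))))))) (.g (nat_lit 1) (.e (nat_lit 80149) (nat_lit 0) .nil) .nil)))) (.nd (nat_lit 9) 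
(.lf (nat_lit 468241) (.g (nat_lit 3116) (.e (nat_lit 3214) (nat_lit 195) (.e (nat_lit 516129) (nat_lit 3) (.e (nat_lit 221210) (nat_lit 22) (.e (nat_lit 196666) (nat_lit 13) (.e (nat_lit 65566) (nat_lit 2) (.e (nat_lit 98048) (nat_lit 2) (.e (nat_lit 16388) (nat_lit 0) .nil))))))) (.g (nat_lit 1) (.e (nat_lit 79173) (nat_lit 0) .nil) .nil))) 
(.lf (nat_lit 468753) (.g (nat_lit 3773) (.e (nat_lit 3297) (nat_lit 202) (.e (nat_lit 573492) (nat_lit 15) (.e (nat_lit 81956) (nat_lit 23) (.e (nat_lit 98389) (nat_lit 33) (.e (nat_lit 491546) (nat_lit 9) (.e (nat_lit 336306) (nat_lit 15) .nil)))))) (.g (nat_lit 1) (.e (nat_lit 80967) (nat_lit 0) .nil) .nil))))) (.nd (nat_lit 8) (.nd (nat_lit 9) 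
(.lf (nat_lit 468113) (.g (nat_lit 2575) (.e (nat_lit 3262) (nat_lit 198) (.e (nat_lit 540706) (nat_lit 12) (.e (nat_lit 360475) (nat_lit 8) (.e (nat_lit 557064) (nat_lit 9) .nil)))) (.g (nat_lit 0) (.e (nat_lit 78953) (nat_lit 0) .nil) .nil))) 
(.lf (nat_lit 468625) (.g (nat_lit 3767) (.e (nat_lit 3297) (nat_lit 202) (.e (nat_lit 573481) (nat_lit 13) (.e (nat_lit 65619) (nat_lit 10) (.e (nat_lit 344117) (nat_lit 21) (.e (nat_lit 516183) (nat_lit 16) (.e (nat_lit 491550) (nat_lit 9) (.e (nat_lit 336306) (nat_lit 15) .nil))))))) (.g (nat_lit 1) (.e (nat_lit 80494) (nat_lit 0) .nil) .nil)))) (.nd (nat_lit 9) 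
(.lf (nat_lit 468369) (.g (nat_lit 2978) (.e (nat_lit 3271) (nat_lit 199) (.e (nat_lit 548913) (nat_lit 18) (.e (nat_lit 172125) (nat_lit 14) (.e (nat_lit 491536) (nat_lit 2) (.e (nat_lit 90178) (nat_lit 15) (.e (nat_lit 188440) (nat_lit 20) .nil)))))) (.g (nat_lit 1) (.e (nat_lit 79604) (nat_lit 0) .nil) .nil))) 
(.lf (nat_lit 468881) (.g (nat_lit 2108) (.e (nat_lit 3298) (nat_lit 202) (.e (nat_lit 573492) (nat_lit 15) (.e (nat_lit 81956) (nat_lit 23) (.e (nat_lit 98325) (nat_lit 17) (.e (nat_lit 6986) (nat_lit 377) (.e (nat_lit 2779) (nat_lit 178) (.e (nat_lit 294656) (nat_lit 15) .nil))))))) (.g (nat_lit 1) (.e (nat_lit 81420) (nat_lit 0) .nil) .nil)))))) 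
(.nd (nat_lit 7) (.nd (nat_lit 8) (.nd (nat_lit 9) 
(.lf (nat_lit 468049) (.g (nat_lit 3041) (.e (nat_lit 3258) (nat_lit 198) (.e (nat_lit 540706) (nat_lit 12) (.e (nat_lit 360475) (nat_lit 8) (.e (nat_lit 557090) (nat_lit 12) (.e (nat_lit 164020) (nat_lit 45) (.e (nat_lit 696343) (nat_lit 8) (.e (nat_lit 172049) (nat_lit 0) .nil))))))) (.g (nat_lit 1) (.e (nat_lit 78848) (nat_lit 0) .nil) .nil))) 
(.lf (nat_lit 468561) (.g (nat_lit 4365) (.e (nat_lit 3296) (nat_lit 202) (.e (nat_lit 573492) (nat_lit 15) (.e (nat_lit 81956) (nat_lit 23) (.e (nat_lit 98388) (nat_lit 33) (.e (nat_lit 491549) (nat_lit 9) .nil))))) (.g (nat_lit 0) (.e (nat_lit 80335) (nat_lit 0) .nil) .nil)))) (.nd (nat_lit 9) 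
(.lf (nat_lit 468305) (.g (nat_lit 4222) (.e (nat_lit 3270) (nat_lit 199) (.e (nat_lit 548913) (nat_lit 18) (.e (nat_lit 172120) (nat_lit 12) (.e (nat_lit 475183) (nat_lit 29) (.e (nat_lit 557108) (nat_lit 15) (.e (nat_lit 188435) (nat_lit 20) .nil)))))) (.g (nat_lit 1) (.e (nat_lit 79373) (nat_lit 0) .nil) .nil))) 
(.lf (nat_lit 468817) (.g (nat_lit 1974) (.e (nat_lit 3298) (nat_lit 202) (.e (nat_lit 573481) (nat_lit 13) (.e (nat_lit 65628) (nat_lit 14) (.e (nat_lit 401428) (nat_lit 3) (.e (nat_lit 204877) (nat_lit 31) (.e (nat_lit 384768) (nat_lit 0) .nil)))))) (.g (nat_lit 1) (.e (nat_lit 81095) (nat_lit 0) .nil) .nil))))) (.nd (nat_lit 8) (.nd (nat_lit 9) 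
(.lf (nat_lit 468177) (.g (nat_lit 3281) (.e (nat_lit 3262) (nat_lit 198) (.e (nat_lit 540706) (nat_lit 12) (.e (nat_lit 360475) (nat_lit 8) (.e (nat_lit 557091) (nat_lit 12) (.e (nat_lit 163840) (nat_lit 0) .nil))))) (.g (nat_lit 0) (.e (nat_lit 79077) (nat_lit 0) .nil) .nil))) 
(.lf (nat_lit 468689) (.g (nat_lit 3329) (.e (nat_lit 3297) (nat_lit 202) (.e (nat_lit 573491) (nat_lit 15) (.e (nat_lit 81954) (nat_lit 23) (.e (nat_lit 98386) (nat_lit 32) (.e (nat_lit 475209) (nat_lit 41) (.e (nat_lit 712719) (nat_lit 15) .nil)))))) (.g (nat_lit 1) (.e (nat_lit 80769) (nat_lit 0) .nil) .nil)))) (.nd (nat_lit 9) 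
(.lf (nat_lit 468433) (.g (nat_lit 2106) (.e (nat_lit 3272) (nat_lit 199) (.e (nat_lit 548913) (nat_lit 18) (.e (nat_lit 172124) (nat_lit 14) (.e (nat_lit 491537) (nat_lit 2) (.e (nat_lit 90176) (nat_lit 15) .nil))))) (.g (nat_lit 0) (.e (nat_lit 80036) (nat_lit 0) .nil) .nil))) 
(.lf (nat_lit 468945) (.g (nat_lit 3939) (.e (nat_lit 3298) (nat_lit 202) (.e (nat_lit 573493) (nat_lit 15) (.e (nat_lit 81956) (nat_lit 23) (.e (nat_lit 98387) (nat_lit 33) (.e (nat_lit 491549) (nat_lit 9) (.e (nat_lit 336306) (nat_lit 15) .nil)))))) (.g (nat_lit 1) (.e (nat_lit 81570) (nat_lit 0) .nil) .nil))))))) (.nd (nat_lit 6) (.nd (nat_lit 7) (.nd (nat_lit 8) (.nd (nat_lit 9) 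
(.lf (nat_lit 468017) (.g (nat_lit 2426) (.e (nat_lit 3247) (nat_lit 197) (.e (nat_lit 532504) (nat_lit 1) (.e (nat_lit 57851) (nat_lit 252) (.e (nat_lit 57406) (nat_lit 12) (.e (nat_lit 336456) (nat_lit 34) .nil))))) (.g (nat_lit 0) (.e (nat_lit 78800) (nat_lit 0) .nil) .nil))) 
(.lf (nat_lit 468529) (.g (nat_lit 4706) (.e (nat_lit 3295) (nat_lit 202) (.e (nat_lit 573492) (nat_lit 15) (.e (nat_lit 81956) (nat_lit 23) (.e (nat_lit 98389) (nat_lit 33) (.e (nat_lit 491552) (nat_lit 9) (.e (nat_lit 336282) (nat_lit 15) .nil)))))) (.g (nat_lit 1) (.e (nat_lit 80237) (nat_lit 0) .nil) .nil)))) (.nd (nat_lit 9) 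
(.lf (nat_lit 468273) (.g (nat_lit 1717) (.e (nat_lit 7936) (nat_lit 195) (.e (nat_lit 516160) (nat_lit 10) (.e (nat_lit 434247) (nat_lit 28) (.e (nat_lit 573485) (nat_lit 13) (.e (nat_lit 65566) (nat_lit 2) .nil))))) (.g (nat_lit 0) (.e (nat_lit 79216) (nat_lit 0) .nil) .nil))) 
(.lf (nat_lit 468785) (.g (nat_lit 885) (.e (nat_lit 3298) (nat_lit 202) (.e (nat_lit 573481) (nat_lit 13) (.e (nat_lit 65609) (nat_lit 10) (.e (nat_lit 344132) (nat_lit 26) (.e (nat_lit 557072) (nat_lit 9) .nil))))) (.g (nat_lit 0) (.e (nat_lit 81024) (nat_lit 0) .nil) .nil))))) (.nd (nat_lit 8) (.nd (nat_lit 9) 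
(.lf (nat_lit 468145) (.g (nat_lit 3109) (.e (nat_lit 3262) (nat_lit 198) (.e (nat_lit 540706) (nat_lit 12) (.e (nat_lit 360475) (nat_lit 8) (.e (nat_lit 557089) (nat_lit 12) (.e (nat_lit 163849) (nat_lit 0) (.e (nat_lit 6418) (nat_lit 341) (.e (nat_lit 163908) (nat_lit 12) (.e (nat_lit 426003) (nat_lit 0) .nil)))))))) (.g (nat_lit 1) (.e (nat_lit 79036) (nat_lit 0) .nil) .nil))) 
(.lf (nat_lit 468657) (.g (nat_lit 1958) (.e (nat_lit 3297) (nat_lit 202) (.e (nat_lit 573481) (nat_lit 13) (.e (nat_lit 65630) (nat_lit 14) (.e (nat_lit 401425) (nat_lit 2) (.e (nat_lit 196672) (nat_lit 15) .nil))))) (.g (nat_lit 0) (.e (nat_lit 80535) (nat_lit 0) .nil) .nil)))) (.nd (nat_lit 9) 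
(.lf (nat_lit 468401) (.g (nat_lit 5503) (.e (nat_lit 3272) (nat_lit 199) (.e (nat_lit 548898) (nat_lit 14) (.e (nat_lit 3098) (nat_lit 192) (.e (nat_lit 491546) (nat_lit 9) (.e (nat_lit 336028) (nat_lit 3) (.e (nat_lit 98350) (nat_lit 24) (.e (nat_lit 409648) (nat_lit 18) (.e (nat_lit 303108) (nat_lit 0) .nil)))))))) (.g (nat_lit 1) (.e (nat_lit 79812) (nat_lit 0) .nil) .nil))) 
(.lf (nat_lit 468913) (.g (nat_lit 5352) (.e (nat_lit 3298) (nat_lit 202) (.e (nat_lit 573493) (nat_lit 15) (.e (nat_lit 81953) (nat_lit 22) (.e (nat_lit 90124) (nat_lit 9) .nil)))) (.g (nat_lit 0) (.e (nat_lit 81513) (nat_lit 0) .nil) .nil)))))) (.nd (nat_lit 7) (.nd (nat_lit 8) (.nd (nat_lit 9) 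
(.lf (nat_lit 468081) (.g (nat_lit 3781) (.e (nat_lit 3262) (nat_lit 198) (.e (nat_lit 540706) (nat_lit 12) (.e (nat_lit 360474) (nat_lit 8) (.e (nat_lit 557091) (nat_lit 12) (.e (nat_lit 164017) (nat_lit 44) .nil))))) (.g (nat_lit 0) (.e (nat_lit 78920) (nat_lit 0) .nil) .nil))) 
(.lf (nat_lit 468593) (.g (nat_lit 2244) (.e (nat_lit 3297) (nat_lit 202) (.e (nat_lit 573480) (nat_lit 13) (.e (nat_lit 65630) (nat_lit 14) (.e (nat_lit 401425) (nat_lit 2) (.e (nat_lit 196666) (nat_lit 13) (.e (nat_lit 65599) (nat_lit 9) (.e (nat_lit 343808) (nat_lit 15) .nil))))))) (.g (nat_lit 1) (.e (nat_lit 80411) (nat_lit 0) .nil) .nil)))) (.nd (nat_lit 9) 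
(.lf (nat_lit 468337) (.g (nat_lit 897) (.e (nat_lit 3271) (nat_lit 199) (.e (nat_lit 548913) (nat_lit 18) (.e (nat_lit 172079) (nat_lit 7) (.e (nat_lit 409611) (nat_lit 10) .nil)))) (.g (nat_lit 0) (.e (nat_lit 79480) (nat_lit 0) .nil) .nil))) 
(.lf (nat_lit 468849) (.g (nat_lit 1982) (.e (nat_lit 3298) (nat_lit 202) (.e (nat_lit 573491) (nat_lit 15) (.e (nat_lit 81954) (nat_lit 23) (.e (nat_lit 98388) (nat_lit 33) (.e (nat_lit 491548) (nat_lit 9) (.e (nat_lit 336306) (nat_lit 15) .nil)))))) (.g (nat_lit 1) (.e (nat_lit 81307) (nat_lit 0) .nil) .nil))))) (.nd (nat_lit 8) (.nd (nat_lit 9) 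
(.lf (nat_lit 468209) (.g (nat_lit 4036) (.e (nat_lit 3262) (nat_lit 198) (.e (nat_lit 540706) (nat_lit 12) (.e (nat_lit 360475) (nat_lit 8) (.e (nat_lit 557091) (nat_lit 12) (.e (nat_lit 164022) (nat_lit 46) (.e (nat_lit 704737) (nat_lit 11) (.e (nat_lit 16393) (nat_lit 0) .nil))))))) (.g (nat_lit 1) (.e (nat_lit 79113) (nat_lit 0) .nil) .nil))) 
(.lf (nat_lit 468721) (.g (nat_lit 2606) (.e (nat_lit 3297) (nat_lit 202) (.e (nat_lit 573492) (nat_lit 15) (.e (nat_lit 81956) (nat_lit 23) (.e (nat_lit 98321) (nat_lit 17) (.e (nat_lit 7936) (nat_lit 406) (.e (nat_lit 73472) (nat_lit 15) .nil)))))) (.g (nat_lit 1) (.e (nat_lit 80887) (nat_lit 0) .nil) .nil)))) (.nd (nat_lit 9) 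
(.lf (nat_lit 468465) (.g (nat_lit 3450) (.e (nat_lit 3272) (nat_lit 199) (.e (nat_lit 548913) (nat_lit 18) (.e (nat_lit 172126) (nat_lit 14) (.e (nat_lit 491537) (nat_lit 2) (.e (nat_lit 90175) (nat_lit 15) .nil))))) (.g (nat_lit 0) (.e (nat_lit 80073) (nat_lit 0) .nil) .nil))) 
(.lf (nat_lit 468977) (.g (nat_lit 2011) (.e (nat_lit 3302) (nat_lit 202) (.e (nat_lit 573481) (nat_lit 13) (.e (nat_lit 65619) (nat_lit 10) (.e (nat_lit 344129) (nat_lit 26) (.e (nat_lit 557066) (nat_lit 9) .nil))))) (.g (nat_lit 0) (.e (nat_lit 81678) (nat_lit 0) .nil) .nil))))))))) (.nd (nat_lit 4) (.nd (nat_lit 5) (.nd (nat_lit 6) (.nd (nat_lit 7) (.nd (nat_lit 8) (.nd (nat_lit 9) 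
(.lf (nat_lit 467977) (.g (nat_lit 5666) (.e (nat_lit 3256) (nat_lit 197) (.e (nat_lit 532550) (nat_lit 12) (.e (nat_lit 360475) (nat_lit 8) (.e (nat_lit 557091) (nat_lit 12) (.e (nat_lit 164022) (nat_lit 46) (.e (nat_lit 704738) (nat_lit 11) (.e (nat_lit 16384) (nat_lit 0) .nil))))))) (.g (nat_lit 1) (.e (nat_lit 78757) (nat_lit 0) .nil) .nil))) 
(.lf (nat_lit 468489) (.g (nat_lit 1516) (.e (nat_lit 3295) (nat_lit 202) (.e (nat_lit 573481) (nat_lit 13) (.e (nat_lit 65619) (nat_lit 10) (.e (nat_lit 344129) (nat_lit 26) .nil)))) (.g (nat_lit 0) (.e (nat_lit 80140) (nat_lit 0) .nil) .nil)))) (.nd (nat_lit 9) 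
(.lf (nat_lit 468233) (.g (nat_lit 1570) (.e (nat_lit 3213) (nat_lit 195) (.e (nat_lit 516129) (nat_lit 3) (.e (nat_lit 221210) (nat_lit 22) (.e (nat_lit 196664) (nat_lit 13) .nil)))) (.g (nat_lit 0) (.e (nat_lit 79154) (nat_lit 0) .nil) .nil))) 
(.lf (nat_lit 468745) (.g (nat_lit 4211) (.e (nat_lit 3297) (nat_lit 202) (.e (nat_lit 573492) (nat_lit 15) (.e (nat_lit 81956) (nat_lit 23) (.e (nat_lit 98386) (nat_lit 32) (.e (nat_lit 475209) (nat_lit 41) (.e (nat_lit 712719) (nat_lit 15) .nil)))))) (.g (nat_lit 1) (.e (nat_lit 80959) (nat_lit 0) .nil) .nil))))) (.nd (nat_lit 8) (.nd (nat_lit 9) 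
(.lf (nat_lit 468105) (.g (nat_lit 2165) (.e (nat_lit 3262) (nat_lit 198) (.e (nat_lit 540706) (nat_lit 12) (.e (nat_lit 360474) (nat_lit 8) (.e (nat_lit 557094) (nat_lit 12) (.e (nat_lit 164022) (nat_lit 46) (.e (nat_lit 704735) (nat_lit 11) (.e (nat_lit 16391) (nat_lit 0) .nil))))))) (.g (nat_lit 1) (.e (nat_lit 78944) (nat_lit 0) .nil) .nil))) 
(.lf (nat_lit 468617) (.g (nat_lit 2666) (.e (nat_lit 3297) (nat_lit 202) (.e (nat_lit 573481) (nat_lit 13) (.e (nat_lit 65619) (nat_lit 10) (.e (nat_lit 344117) (nat_lit 21) (.e (nat_lit 516147) (nat_lit 9) (.e (nat_lit 426364) (nat_lit 15) (.e (nat_lit 2160) (nat_lit 143) (.e (nat_lit 712719) (nat_lit 15) .nil)))))))) (.g (nat_lit 1) (.e (nat_lit 80486) (nat_lit 0) .nil) .nil)))) 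
(.nd (nat_lit 9) 
(.lf (nat_lit 468361) (.g (nat_lit 1665) (.e (nat_lit 3271) (nat_lit 199) (.e (nat_lit 548913) (nat_lit 18) (.e (nat_lit 172124) (nat_lit 14) (.e (nat_lit 491539) (nat_lit 3) .nil)))) (.g (nat_lit 0) (.e (nat_lit 79596) (nat_lit 0) .nil) .nil))) 
(.lf (nat_lit 468873) (.g (nat_lit 2010) (.e (nat_lit 3298) (nat_lit 202) (.e (nat_lit 573492) (nat_lit 15) (.e (nat_lit 81956) (nat_lit 23) (.e (nat_lit 98320) (nat_lit 17) .nil)))) (.g (nat_lit 0) (.e (nat_lit 81408) (nat_lit 0) .nil) .nil)))))) (.nd (nat_lit 7) (.nd (nat_lit 8) (.nd (nat_lit 9) 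
(.lf (nat_lit 468041) (.g (nat_lit 3476) (.e (nat_lit 3258) (nat_lit 198) (.e (nat_lit 540706) (nat_lit 12) (.e (nat_lit 360475) (nat_lit 8) (.e (nat_lit 557086) (nat_lit 11) (.e (nat_lit 24665) (nat_lit 14) (.e (nat_lit 401413) (nat_lit 0) .nil)))))) (.g (nat_lit 1) (.e (nat_lit 78836) (nat_lit 0) .nil) .nil))) 
(.lf (nat_lit 468553) (.g (nat_lit 1678) (.e (nat_lit 3296) (nat_lit 202) (.e (nat_lit 573478) (nat_lit 12) (.e (nat_lit 57574) (nat_lit 55) (.e (nat_lit 778466) (nat_lit 11) (.e (nat_lit 24603) (nat_lit 2) .nil))))) (.g (nat_lit 0) (.e (nat_lit 80293) (nat_lit 0) .nil) .nil)))) (.nd (nat_lit 9) 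
(.lf (nat_lit 468297) (.g (nat_lit 1427) (.e (nat_lit 3266) (nat_lit 199) (.e (nat_lit 548913) (nat_lit 18) (.e (nat_lit 172126) (nat_lit 14) (.e (nat_lit 491540) (nat_lit 3) .nil)))) (.g (nat_lit 0) (.e (nat_lit 79252) (nat_lit 0) .nil) .nil))) 
(.lf (nat_lit 468809) (.g (nat_lit 3895) (.e (nat_lit 3298) (nat_lit 202) (.e (nat_lit 573481) (nat_lit 13) (.e (nat_lit 65619) (nat_lit 10) (.e (nat_lit 344129) (nat_lit 26) (.e (nat_lit 557087) (nat_lit 11) (.e (nat_lit 24630) (nat_lit 9) (.e (nat_lit 336306) (nat_lit 15) .nil))))))) (.g (nat_lit 1) (.e (nat_lit 81087) (nat_lit 0) .nil) .nil))))) (.nd (nat_lit 8) (.nd (nat_lit 9) 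
(.lf (nat_lit 468169) (.g (nat_lit 3139) (.e (nat_lit 3262) (nat_lit 198) (.e (nat_lit 540706) (nat_lit 12) (.e (nat_lit 360475) (nat_lit 8) (.e (nat_lit 557090) (nat_lit 12) (.e (nat_lit 164020) (nat_lit 45) (.e (nat_lit 696330) (nat_lit 5) (.e (nat_lit 2842) (nat_lit 184) (.e (nat_lit 426032) (nat_lit 0) .nil)))))))) (.g (nat_lit 1) (.e (nat_lit 79069) (nat_lit 0) .nil) .nil))) 
(.lf (nat_lit 468681) (.g (nat_lit 3604) (.e (nat_lit 3297) (nat_lit 202) (.e (nat_lit 573491) (nat_lit 15) (.e (nat_lit 81954) (nat_lit 23) (.e (nat_lit 98384) (nat_lit 32) (.e (nat_lit 475207) (nat_lit 41) (.e (nat_lit 712719) (nat_lit 15) .nil)))))) (.g (nat_lit 1) (.e (nat_lit 80761) (nat_lit 0) .nil) .nil)))) (.nd (nat_lit 9) 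
(.lf (nat_lit 468425) (.g (nat_lit 4156) (.e (nat_lit 3272) (nat_lit 199) (.e (nat_lit 548913) (nat_lit 18) (.e (nat_lit 172120) (nat_lit 12) (.e (nat_lit 475185) (nat_lit 29) (.e (nat_lit 557109) (nat_lit 15) (.e (nat_lit 188441) (nat_lit 20) .nil)))))) (.g (nat_lit 1) (.e (nat_lit 80027) (nat_lit 0) .nil) .nil))) 
(.lf (nat_lit 468937) (.g (nat_lit 3408) (.e (nat_lit 3298) (nat_lit 202) (.e (nat_lit 573493) (nat_lit 15) (.e (nat_lit 81956) (nat_lit 23) (.e (nat_lit 98325) (nat_lit 17) (.e (nat_lit 6986) (nat_lit 377) (.e (nat_lit 2781) (nat_lit 178) (.e (nat_lit 294656) (nat_lit 15) .nil))))))) (.g (nat_lit 1) (.e (nat_lit 81545) (nat_lit 0) .nil) .nil))))))) 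
(.nd (nat_lit 6) (.nd (nat_lit 7) (.nd (nat_lit 8) (.nd (nat_lit 9) 
(.lf (nat_lit 468009) (.g (nat_lit 2462) (.e (nat_lit 3246) (nat_lit 197) (.e (nat_lit 532504) (nat_lit 1) (.e (nat_lit 57929) (nat_lit 282) (.e (nat_lit 163869) (nat_lit 2) (.e (nat_lit 196670) (nat_lit 14) .nil))))) (.g (nat_lit 0) (.e (nat_lit 78792) (nat_lit 0) .nil) .nil))) 
(.lf (nat_lit 468521) (.g (nat_lit 577) (.e (nat_lit 3295) (nat_lit 202) (.e (nat_lit 573492) (nat_lit 15) (.e (nat_lit 81956) (nat_lit 23) .nil))) (.g (nat_lit 0) (.e (nat_lit 80220) (nat_lit 0) .nil) .nil)))) (.nd (nat_lit 9) 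
(.lf (nat_lit 468265) (.g (nat_lit 1852) (.e (nat_lit 7936) (nat_lit 195) (.e (nat_lit 516160) (nat_lit 10) (.e (nat_lit 434245) (nat_lit 28) (.e (nat_lit 573481) (nat_lit 13) (.e (nat_lit 65568) (nat_lit 2) .nil))))) (.g (nat_lit 0) (.e (nat_lit 79208) (nat_lit 0) .nil) .nil))) 
(.lf (nat_lit 468777) (.g (nat_lit 3332) (.e (nat_lit 3298) (nat_lit 202) (.e (nat_lit 573481) (nat_lit 13) (.e (nat_lit 65604) (nat_lit 9) (.e (nat_lit 336013) (nat_lit 2) (.e (nat_lit 90134) (nat_lit 9) (.e (nat_lit 3098) (nat_lit 192) (.e (nat_lit 491548) (nat_lit 9) (.e (nat_lit 336306) (nat_lit 15) .nil)))))))) (.g (nat_lit 1) (.e (nat_lit 81010) (nat_lit 0) .nil) .nil))))) 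
(.nd (nat_lit 8) (.nd (nat_lit 9) 
(.lf (nat_lit 468137) (.g (nat_lit 3017) (.e (nat_lit 3262) (nat_lit 198) (.e (nat_lit 540706) (nat_lit 12) (.e (nat_lit 360475) (nat_lit 8) (.e (nat_lit 557089) (nat_lit 12) (.e (nat_lit 163844) (nat_lit 0) .nil))))) (.g (nat_lit 0) (.e (nat_lit 79028) (nat_lit 0) .nil) .nil))) 
(.lf (nat_lit 468649) (.g (nat_lit 527) (.e (nat_lit 3297) (nat_lit 202) (.e (nat_lit 573481) (nat_lit 13) (.e (nat_lit 65628) (nat_lit 14) .nil))) (.g (nat_lit 0) (.e (nat_lit 80527) (nat_lit 0) .nil) .nil)))) (.nd (nat_lit 9) 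
(.lf (nat_lit 468393) (.g (nat_lit 2169) (.e (nat_lit 3271) (nat_lit 199) (.e (nat_lit 548915) (nat_lit 20) (.e (nat_lit 188418) (nat_lit 0) (.e (nat_lit 1856) (nat_lit 124) (.e (nat_lit 557107) (nat_lit 15) (.e (nat_lit 188441) (nat_lit 20) .nil)))))) (.g (nat_lit 1) (.e (nat_lit 79630) (nat_lit 0) .nil) .nil))) 
(.lf (nat_lit 468905) (.g (nat_lit 2661) (.e (nat_lit 3298) (nat_lit 202) (.e (nat_lit 573492) (nat_lit 15) (.e (nat_lit 81956) (nat_lit 23) (.e (nat_lit 98389) (nat_lit 33) (.e (nat_lit 499456) (nat_lit 9) .nil))))) (.g (nat_lit 0) (.e (nat_lit 81492) (nat_lit 0) .nil) .nil)))))) (.nd (nat_lit 7) (.nd (nat_lit 8) (.nd (nat_lit 9) 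
(.lf (nat_lit 468073) (.g (nat_lit 2349) (.e (nat_lit 3262) (nat_lit 198) (.e (nat_lit 540704) (nat_lit 12) (.e (nat_lit 360466) (nat_lit 3) (.e (nat_lit 516138) (nat_lit 7) (.e (nat_lit 409645) (nat_lit 18) (.e (nat_lit 303106) (nat_lit 0) .nil)))))) (.g (nat_lit 1) (.e (nat_lit 78896) (nat_lit 0) .nil) .nil))) 
(.lf (nat_lit 468585) (.g (nat_lit 755) (.e (nat_lit 3297) (nat_lit 202) (.e (nat_lit 573471) (nat_lit 11) (.e (nat_lit 16472) (nat_lit 14) .nil))) (.g (nat_lit 0) (.e (nat_lit 80396) (nat_lit 0) .nil) .nil)))) (.nd (nat_lit 9) 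
(.lf (nat_lit 468329) (.g (nat_lit 2538) (.e (nat_lit 3270) (nat_lit 199) (.e (nat_lit 548913) (nat_lit 18) (.e (nat_lit 172126) (nat_lit 14) (.e (nat_lit 491524) (nat_lit 0) (.e (nat_lit 1812) (nat_lit 120) .nil))))) (.g (nat_lit 0) (.e (nat_lit 79397) (nat_lit 0) .nil) .nil))) 
(.lf (nat_lit 468841) (.g (nat_lit 2694) (.e (nat_lit 3298) (nat_lit 202) (.e (nat_lit 573484) (nat_lit 13) (.e (nat_lit 65617) (nat_lit 10) (.e (nat_lit 344132) (nat_lit 26) (.e (nat_lit 557085) (nat_lit 11) (.e (nat_lit 24630) (nat_lit 9) (.e (nat_lit 336306) (nat_lit 15) .nil))))))) (.g (nat_lit 1) (.e (nat_lit 81121) (nat_lit 0) .nil) .nil))))) (.nd (nat_lit 8) (.nd (nat_lit 9) 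
(.lf (nat_lit 468201) (.g (nat_lit 3069) (.e (nat_lit 3262) (nat_lit 198) (.e (nat_lit 540706) (nat_lit 12) (.e (nat_lit 360475) (nat_lit 8) (.e (nat_lit 557091) (nat_lit 12) (.e (nat_lit 164022) (nat_lit 46) (.e (nat_lit 704735) (nat_lit 11) (.e (nat_lit 16391) (nat_lit 0) .nil))))))) (.g (nat_lit 1) (.e (nat_lit 79105) (nat_lit 0) .nil) .nil))) 
(.lf (nat_lit 468713) (.g (nat_lit 4116) (.e (nat_lit 3297) (nat_lit 202) (.e (nat_lit 573492) (nat_lit 15) (.e (nat_lit 81953) (nat_lit 22) (.e (nat_lit 90162) (nat_lit 12) .nil)))) (.g (nat_lit 0) (.e (nat_lit 80858) (nat_lit 0) .nil) .nil)))) (.nd (nat_lit 9) 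
(.lf (nat_lit 468457) (.g (nat_lit 2660) (.e (nat_lit 3272) (nat_lit 199) (.e (nat_lit 548913) (nat_lit 18) (.e (nat_lit 172126) (nat_lit 14) (.e (nat_lit 491523) (nat_lit 0) (.e (nat_lit 1691) (nat_lit 117) .nil))))) (.g (nat_lit 0) (.e (nat_lit 80060) (nat_lit 0) .nil) .nil))) 
(.lf (nat_lit 468969) (.g (nat_lit 1567) (.e (nat_lit 3302) (nat_lit 202) (.e (nat_lit 573480) (nat_lit 13) (.e (nat_lit 65630) (nat_lit 14) (.e (nat_lit 401428) (nat_lit 3) (.e (nat_lit 204877) (nat_lit 31) (.e (nat_lit 384768) (nat_lit 0) .nil)))))) (.g (nat_lit 1) (.e (nat_lit 81666) (nat_lit 0) .nil) .nil)))))))) 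
(.nd (nat_lit 5) (.nd (nat_lit 6) (.nd (nat_lit 7) (.nd (nat_lit 8) (.nd (nat_lit 9) 
(.lf (nat_lit 467993) (.g (nat_lit 1013) (.e (nat_lit 3244) (nat_lit 197) (.e (nat_lit 532511) (nat_lit 2) (.e (nat_lit 106536) (nat_lit 11) (.e (nat_lit 16413) (nat_lit 2) (.e (nat_lit 196674) (nat_lit 15) (.e (nat_lit 89856) (nat_lit 0) .nil)))))) (.g (nat_lit 1) (.e (nat_lit 78773) (nat_lit 0) .nil) .nil))) 
(.lf (nat_lit 468505) (.g (nat_lit 1864) (.e (nat_lit 3295) (nat_lit 202) (.e (nat_lit 573485) (nat_lit 13) (.e (nat_lit 65619) (nat_lit 10) (.e (nat_lit 344117) (nat_lit 21) (.e (nat_lit 516097) (nat_lit 0) (.e (nat_lit 7587) (nat_lit 406) (.e (nat_lit 65637) (nat_lit 15) .nil))))))) (.g (nat_lit 1) (.e (nat_lit 80175) (nat_lit 0) .nil) .nil)))) (.nd (nat_lit 9) 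
(.lf (nat_lit 468249) (.g (nat_lit 1435) (.e (nat_lit 3214) (nat_lit 195) (.e (nat_lit 516131) (nat_lit 3) (.e (nat_lit 221212) (nat_lit 22) (.e (nat_lit 196663) (nat_lit 13) (.e (nat_lit 65568) (nat_lit 2) (.e (nat_lit 98048) (nat_lit 2) (.e (nat_lit 16386) (nat_lit 0) .nil))))))) (.g (nat_lit 1) (.e (nat_lit 79181) (nat_lit 0) .nil) .nil))) 
(.lf (nat_lit 468761) (.g (nat_lit 2484) (.e (nat_lit 3297) (nat_lit 202) (.e (nat_lit 573492) (nat_lit 15) (.e (nat_lit 81956) (nat_lit 23) (.e (nat_lit 106240) (nat_lit 33) .nil)))) (.g (nat_lit 0) (.e (nat_lit 80975) (nat_lit 0) .nil) .nil))))) (.nd (nat_lit 8) (.nd (nat_lit 9) 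
(.lf (nat_lit 468121) (.g (nat_lit 4451) (.e (nat_lit 3262) (nat_lit 198) (.e (nat_lit 540706) (nat_lit 12) (.e (nat_lit 360475) (nat_lit 8) (.e (nat_lit 557086) (nat_lit 11) (.e (nat_lit 24662) (nat_lit 14) (.e (nat_lit 401410) (nat_lit 0) .nil)))))) (.g (nat_lit 1) (.e (nat_lit 79012) (nat_lit 0) .nil) .nil))) 
(.lf (nat_lit 468633) (.g (nat_lit 3374) (.e (nat_lit 3297) (nat_lit 202) (.e (nat_lit 573481) (nat_lit 13) (.e (nat_lit 65619) (nat_lit 10) (.e (nat_lit 344117) (nat_lit 21) (.e (nat_lit 516185) (nat_lit 16) (.e (nat_lit 491552) (nat_lit 9) (.e (nat_lit 343808) (nat_lit 15) .nil))))))) (.g (nat_lit 1) (.e (nat_lit 80502) (nat_lit 0) .nil) .nil)))) (.nd (nat_lit 9) 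
(.lf (nat_lit 468377) (.g (nat_lit 2234) (.e (nat_lit 3271) (nat_lit 199) (.e (nat_lit 548913) (nat_lit 18) (.e (nat_lit 172126) (nat_lit 14) (.e (nat_lit 491524) (nat_lit 0) .nil)))) (.g (nat_lit 0) (.e (nat_lit 79612) (nat_lit 0) .nil) .nil))) 
(.lf (nat_lit 468889) (.g (nat_lit 5778) (.e (nat_lit 3298) (nat_lit 202) (.e (nat_lit 573492) (nat_lit 15) (.e (nat_lit 81956) (nat_lit 23) (.e (nat_lit 98350) (nat_lit 24) (.e (nat_lit 409641) (nat_lit 17) (.e (nat_lit 294966) (nat_lit 15) .nil)))))) (.g (nat_lit 1) (.e (nat_lit 81462) (nat_lit 0) .nil) .nil)))))) (.nd (nat_lit 7) (.nd (nat_lit 8) (.nd (nat_lit 9) 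
(.lf (nat_lit 468057) (.g (nat_lit 3276) (.e (nat_lit 3258) (nat_lit 198) (.e (nat_lit 540706) (nat_lit 12) (.e (nat_lit 360475) (nat_lit 8) (.e (nat_lit 557091) (nat_lit 12) (.e (nat_lit 164022) (nat_lit 46) (.e (nat_lit 704737) (nat_lit 11) (.e (nat_lit 16396) (nat_lit 0) .nil))))))) (.g (nat_lit 1) (.e (nat_lit 78857) (nat_lit 0) .nil) .nil))) 
(.lf (nat_lit 468569) (.g (nat_lit 1592) (.e (nat_lit 3297) (nat_lit 202) (.e (nat_lit 573471) (nat_lit 11) (.e (nat_lit 16425) (nat_lit 7) (.e (nat_lit 409616) (nat_lit 10) .nil)))) (.g (nat_lit 0) (.e (nat_lit 80367) (nat_lit 0) .nil) .nil)))) (.nd (nat_lit 9) 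
(.lf (nat_lit 468313) (.g (nat_lit 2794) (.e (nat_lit 3270) (nat_lit 199) (.e (nat_lit 548913) (nat_lit 18) (.e (nat_lit 172120) (nat_lit 12) (.e (nat_lit 475185) (nat_lit 29) (.e (nat_lit 557107) (nat_lit 15) (.e (nat_lit 188441) (nat_lit 20) .nil)))))) (.g (nat_lit 1) (.e (nat_lit 79381) (nat_lit 0) .nil) .nil))) 
(.lf (nat_lit 468825) (.g (nat_lit 2390) (.e (nat_lit 3298) (nat_lit 202) (.e (nat_lit 573482) (nat_lit 13) (.e (nat_lit 65604) (nat_lit 9) (.e (nat_lit 336028) (nat_lit 3) (.e (nat_lit 98325) (nat_lit 17) (.e (nat_lit 6986) (nat_lit 377) (.e (nat_lit 2777) (nat_lit 178) (.e (nat_lit 286765) (nat_lit 15) .nil)))))))) (.g (nat_lit 1) (.e (nat_lit 81105) (nat_lit 0) .nil) .nil))))) 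
(.nd (nat_lit 8) (.nd (nat_lit 9) 
(.lf (nat_lit 468185) (.g (nat_lit 3237) (.e (nat_lit 3262) (nat_lit 198) (.e (nat_lit 540706) (nat_lit 12) (.e (nat_lit 360475) (nat_lit 8) (.e (nat_lit 557091) (nat_lit 12) (.e (nat_lit 163844) (nat_lit 0) .nil))))) (.g (nat_lit 0) (.e (nat_lit 79087) (nat_lit 0) .nil) .nil))) 
(.lf (nat_lit 468697) (.g (nat_lit 2543) (.e (nat_lit 3297) (nat_lit 202) (.e (nat_lit 573491) (nat_lit 15) (.e (nat_lit 81954) (nat_lit 23) (.e (nat_lit 98389) (nat_lit 33) (.e (nat_lit 491547) (nat_lit 9) (.e (nat_lit 336306) (nat_lit 15) .nil)))))) (.g (nat_lit 1) (.e (nat_lit 80777) (nat_lit 0) .nil) .nil)))) (.nd (nat_lit 9) 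
(.lf (nat_lit 468441) (.g (nat_lit 1347) (.e (nat_lit 3272) (nat_lit 199) (.e (nat_lit 548913) (nat_lit 18) (.e (nat_lit 172124) (nat_lit 14) (.e (nat_lit 491540) (nat_lit 3) (.e (nat_lit 98381) (nat_lit 31) (.e (nat_lit 466955) (nat_lit 20) .nil)))))) (.g (nat_lit 1) (.e (nat_lit 80044) (nat_lit 0) .nil) .nil))) 
(.lf (nat_lit 468953) (.g (nat_lit 4705) (.e (nat_lit 3298) (nat_lit 202) (.e (nat_lit 573493) (nat_lit 15) (.e (nat_lit 81956) (nat_lit 23) (.e (nat_lit 98389) (nat_lit 33) (.e (nat_lit 491549) (nat_lit 9) (.e (nat_lit 336306) (nat_lit 15) .nil)))))) (.g (nat_lit 1) (.e (nat_lit 81578) (nat_lit 0) .nil) .nil))))))) (.nd (nat_lit 6) (.nd (nat_lit 7) (.nd (nat_lit 8) (.nd (nat_lit 9) 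
(.lf (nat_lit 468025) (.g (nat_lit 1355) (.e (nat_lit 3257) (nat_lit 198) (.e (nat_lit 540704) (nat_lit 12) (.e (nat_lit 360473) (nat_lit 8) (.e (nat_lit 557091) (nat_lit 12) (.e (nat_lit 164022) (nat_lit 46) .nil))))) (.g (nat_lit 0) (.e (nat_lit 78811) (nat_lit 0) .nil) .nil))) 
(.lf (nat_lit 468537) (.g (nat_lit 4227) (.e (nat_lit 3295) (nat_lit 202) (.e (nat_lit 573493) (nat_lit 15) (.e (nat_lit 81956) (nat_lit 23) (.e (nat_lit 98321) (nat_lit 17) .nil)))) (.g (nat_lit 0) (.e (nat_lit 80259) (nat_lit 0) .nil) .nil)))) (.nd (nat_lit 9) 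
(.lf (nat_lit 468281) (.g (nat_lit 1604) (.e (nat_lit 7936) (nat_lit 195) (.e (nat_lit 516160) (nat_lit 10) (.e (nat_lit 434248) (nat_lit 28) (.e (nat_lit 573497) (nat_lit 17) .nil)))) (.g (nat_lit 0) (.e (nat_lit 79224) (nat_lit 0) .nil) .nil))) 
(.lf (nat_lit 468793) (.g (nat_lit 2039) (.e (nat_lit 3298) (nat_lit 202) (.e (nat_lit 573481) (nat_lit 13) (.e (nat_lit 65619) (nat_lit 10) (.e (nat_lit 344117) (nat_lit 21) (.e (nat_lit 516106) (nat_lit 0) .nil))))) (.g (nat_lit 0) (.e (nat_lit 81046) (nat_lit 0) .nil) .nil))))) (.nd (nat_lit 8) (.nd (nat_lit 9) 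
(.lf (nat_lit 468153) (.g (nat_lit 3616) (.e (nat_lit 3262) (nat_lit 198) (.e (nat_lit 540706) (nat_lit 12) (.e (nat_lit 360475) (nat_lit 8) (.e (nat_lit 557090) (nat_lit 12) (.e (nat_lit 163843) (nat_lit 0) (.e (nat_lit 6420) (nat_lit 341) (.e (nat_lit 163902) (nat_lit 12) (.e (nat_lit 425985) (nat_lit 0) .nil)))))))) (.g (nat_lit 1) (.e (nat_lit 79052) (nat_lit 0) .nil) .nil))) 
(.lf (nat_lit 468665) (.g (nat_lit 2698) (.e (nat_lit 3297) (nat_lit 202) (.e (nat_lit 573482) (nat_lit 13) (.e (nat_lit 65619) (nat_lit 10) (.e (nat_lit 344117) (nat_lit 21) (.e (nat_lit 516106) (nat_lit 0) .nil))))) (.g (nat_lit 0) (.e (nat_lit 80544) (nat_lit 0) .nil) .nil)))) (.nd (nat_lit 9) 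
(.lf (nat_lit 468409) (.g (nat_lit 4295) (.e (nat_lit 3272) (nat_lit 199) (.e (nat_lit 548913) (nat_lit 18) (.e (nat_lit 172119) (nat_lit 12) (.e (nat_lit 475185) (nat_lit 29) (.e (nat_lit 557107) (nat_lit 15) (.e (nat_lit 188440) (nat_lit 20) .nil)))))) (.g (nat_lit 1) (.e (nat_lit 80011) (nat_lit 0) .nil) .nil))) 
(.lf (nat_lit 468921) (.g (nat_lit 5828) (.e (nat_lit 3298) (nat_lit 202) (.e (nat_lit 573493) (nat_lit 15) (.e (nat_lit 81953) (nat_lit 22) (.e (nat_lit 90162) (nat_lit 12) .nil)))) (.g (nat_lit 0) (.e (nat_lit 81522) (nat_lit 0) .nil) .nil)))))) (.nd (nat_lit 7) (.nd (nat_lit 8) (.nd (nat_lit 9) 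
(.lf (nat_lit 468089) (.g (nat_lit 2371) (.e (nat_lit 3262) (nat_lit 198) (.e (nat_lit 540706) (nat_lit 12) (.e (nat_lit 360474) (nat_lit 8) (.e (nat_lit 557093) (nat_lit 12) (.e (nat_lit 164022) (nat_lit 46) (.e (nat_lit 704627) (nat_lit 9) (.e (nat_lit 375) (nat_lit 32) (.e (nat_lit 426032) (nat_lit 0) .nil)))))))) (.g (nat_lit 1) (.e (nat_lit 78928) (nat_lit 0) .nil) .nil))) 
(.lf (nat_lit 468601) (.g (nat_lit 2984) (.e (nat_lit 3297) (nat_lit 202) (.e (nat_lit 573481) (nat_lit 13) (.e (nat_lit 65604) (nat_lit 9) (.e (nat_lit 336028) (nat_lit 3) (.e (nat_lit 98387) (nat_lit 33) (.e (nat_lit 491548) (nat_lit 9) (.e (nat_lit 336306) (nat_lit 15) .nil))))))) (.g (nat_lit 1) (.e (nat_lit 80453) (nat_lit 0) .nil) .nil)))) (.nd (nat_lit 9) 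
(.lf (nat_lit 468345) (.g (nat_lit 2660) (.e (nat_lit 3271) (nat_lit 199) (.e (nat_lit 548913) (nat_lit 18) (.e (nat_lit 172120) (nat_lit 12) (.e (nat_lit 475183) (nat_lit 29) (.e (nat_lit 557107) (nat_lit 15) (.e (nat_lit 188440) (nat_lit 20) .nil)))))) (.g (nat_lit 1) (.e (nat_lit 79580) (nat_lit 0) .nil) .nil))) 
(.lf (nat_lit 468857) (.g (nat_lit 3558) (.e (nat_lit 3298) (nat_lit 202) (.e (nat_lit 573491) (nat_lit 15) (.e (nat_lit 81956) (nat_lit 23) (.e (nat_lit 98388) (nat_lit 33) (.e (nat_lit 491549) (nat_lit 9) (.e (nat_lit 336306) (nat_lit 15) .nil)))))) (.g (nat_lit 1) (.e (nat_lit 81316) (nat_lit 0) .nil) .nil))))) (.nd (nat_lit 8) (.nd (nat_lit 9) 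
(.lf (nat_lit 468217) (.g (nat_lit 1022) (.e (nat_lit 3207) (nat_lit 195) (.e (nat_lit 516179) (nat_lit 15) (.e (nat_lit 475177) (nat_lit 24) .nil))) (.g (nat_lit 0) (.e (nat_lit 79126) (nat_lit 0) .nil) .nil))) 
(.lf (nat_lit 468729) (.g (nat_lit 3117) (.e (nat_lit 3297) (nat_lit 202) (.e (nat_lit 573492) (nat_lit 15) (.e (nat_lit 81956) (nat_lit 23) (.e (nat_lit 98350) (nat_lit 24) (.e (nat_lit 409640) (nat_lit 17) (.e (nat_lit 294966) (nat_lit 15) .nil)))))) (.g (nat_lit 1) (.e (nat_lit 80923) (nat_lit 0) .nil) .nil)))) (.nd (nat_lit 9) 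
(.lf (nat_lit 468473) (.g (nat_lit 3320) (.e (nat_lit 3272) (nat_lit 199) (.e (nat_lit 548913) (nat_lit 18) (.e (nat_lit 172126) (nat_lit 14) (.e (nat_lit 491539) (nat_lit 3) (.e (nat_lit 98370) (nat_lit 28) (.e (nat_lit 442411) (nat_lit 20) .nil)))))) (.g (nat_lit 1) (.e (nat_lit 80082) (nat_lit 0) .nil) .nil))) 
(.lf (nat_lit 468985) (.g (nat_lit 2406) (.e (nat_lit 3302) (nat_lit 202) (.e (nat_lit 573481) (nat_lit 13) (.e (nat_lit 65628) (nat_lit 14) (.e (nat_lit 401428) (nat_lit 3) (.e (nat_lit 204876) (nat_lit 31) (.e (nat_lit 376833) (nat_lit 0) .nil)))))) (.g (nat_lit 1) (.e (nat_lit 81690) (nat_lit 0) .nil) .nil)))))))))) 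
(.nd (nat_lit 3) (.nd (nat_lit 4) (.nd (nat_lit 5) (.nd (nat_lit 6) (.nd (nat_lit 7) 
(.nd (nat_lit 8) (.nd (nat_lit 9) 
(.lf (nat_lit 467973) (.g (nat_lit 4906) (.e (nat_lit 3256) (nat_lit 197) (.e (nat_lit 532550) (nat_lit 12) (.e (nat_lit 360475) (nat_lit 8) (.e (nat_lit 557091) (nat_lit 12) (.e (nat_lit 164022) (nat_lit 46) (.e (nat_lit 704736) (nat_lit 11) (.e (nat_lit 16390) (nat_lit 0) .nil))))))) (.g (nat_lit 1) (.e (nat_lit 78753) (nat_lit 0) .nil) .nil))) 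
(.lf (nat_lit 468485) (.g (nat_lit 4725) (.e (nat_lit 3295) (nat_lit 202) (.e (nat_lit 573471) (nat_lit 11) (.e (nat_lit 16470) (nat_lit 14) (.e (nat_lit 491537) (nat_lit 2) .nil)))) (.g (nat_lit 0) (.e (nat_lit 80130) (nat_lit 0) .nil) .nil)))) (.nd (nat_lit 9) 
(.lf (nat_lit 468229) (.g (nat_lit 1994) (.e (nat_lit 3211) (nat_lit 195) (.e (nat_lit 516129) (nat_lit 3) (.e (nat_lit 221210) (nat_lit 22) (.e (nat_lit 196668) (nat_lit 14) (.e (nat_lit 81664) (nat_lit 5) (.e (nat_lit 532583) (nat_lit 26) (.e (nat_lit 426012) (nat_lit 0) .nil))))))) (.g (nat_lit 1) (.e (nat_lit 79145) (nat_lit 0) .nil) .nil))) 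
(.lf (nat_lit 468741) (.g (nat_lit 4276) (.e (nat_lit 3297) (nat_lit 202) (.e (nat_lit 573492) (nat_lit 15) (.e (nat_lit 81956) (nat_lit 23) (.e (nat_lit 98385) (nat_lit 32) (.e (nat_lit 475209) (nat_lit 41) (.e (nat_lit 712719) (nat_lit 15) .nil)))))) (.g (nat_lit 1) (.e (nat_lit 80955) (nat_lit 0) .nil) .nil))))) (.nd (nat_lit 8) (.nd (nat_lit 9) 
(.lf (nat_lit 468101) (.g (nat_lit 851) (.e (nat_lit 3262) (nat_lit 198) (.e (nat_lit 540706) (nat_lit 12) (.e (nat_lit 360474) (nat_lit 8) (.e (nat_lit 557094) (nat_lit 12) .nil)))) (.g (nat_lit 0) (.e (nat_lit 78940) (nat_lit 0) .nil) .nil))) 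
(.lf (nat_lit 468613) (.g (nat_lit 3381) (.e (nat_lit 3297) (nat_lit 202) (.e (nat_lit 573481) (nat_lit 13) (.e (nat_lit 65619) (nat_lit 10) (.e (nat_lit 344117) (nat_lit 21) (.e (nat_lit 516138) (nat_lit 7) (.e (nat_lit 409642) (nat_lit 17) (.e (nat_lit 294966) (nat_lit 15) .nil))))))) (.g (nat_lit 1) (.e (nat_lit 80481) (nat_lit 0) .nil) .nil)))) (.nd (nat_lit 9) 
(.lf (nat_lit 468357) (.g (nat_lit 2922) (.e (nat_lit 3271) (nat_lit 199) (.e (nat_lit 548913) (nat_lit 18) (.e (nat_lit 172124) (nat_lit 14) (.e (nat_lit 491536) (nat_lit 2) (.e (nat_lit 90176) (nat_lit 15) (.e (nat_lit 188439) (nat_lit 20) .nil)))))) (.g (nat_lit 1) (.e (nat_lit 79592) (nat_lit 0) .nil) .nil))) 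
(.lf (nat_lit 468869) (.g (nat_lit 169) (.e (nat_lit 3298) (nat_lit 202) (.e (nat_lit 573492) (nat_lit 15) (.e (nat_lit 81956) (nat_lit 23) .nil))) (.g (nat_lit 0) (.e (nat_lit 81404) (nat_lit 0) .nil) .nil)))))) (.nd (nat_lit 7) (.nd (nat_lit 8) (.nd (nat_lit 9) 
(.lf (nat_lit 468037) (.g (nat_lit 2820) (.e (nat_lit 3258) (nat_lit 198) (.e (nat_lit 540704) (nat_lit 12) (.e (nat_lit 360467) (nat_lit 3) (.e (nat_lit 516139) (nat_lit 7) (.e (nat_lit 409648) (nat_lit 18) (.e (nat_lit 303108) (nat_lit 0) .nil)))))) (.g (nat_lit 1) (.e (nat_lit 78825) (nat_lit 0) .nil) .nil))) 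
(.lf (nat_lit 468549) (.g (nat_lit 1132) (.e (nat_lit 3296) (nat_lit 202) (.e (nat_lit 573477) (nat_lit 12) (.e (nat_lit 57575) (nat_lit 55) (.e (nat_lit 778464) (nat_lit 11) .nil)))) (.g (nat_lit 0) (.e (nat_lit 80289) (nat_lit 0) .nil) .nil)))) (.nd (nat_lit 9) 
(.lf (nat_lit 468293) (.g (nat_lit 1270) (.e (nat_lit 3266) (nat_lit 199) (.e (nat_lit 548913) (nat_lit 18) (.e (nat_lit 172124) (nat_lit 14) (.e (nat_lit 491540) (nat_lit 3) .nil)))) (.g (nat_lit 0) (.e (nat_lit 79248) (nat_lit 0) .nil) .nil))) 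
(.lf (nat_lit 468805) (.g (nat_lit 2748) (.e (nat_lit 3298) (nat_lit 202) (.e (nat_lit 573481) (nat_lit 13) (.e (nat_lit 65619) (nat_lit 10) (.e (nat_lit 344129) (nat_lit 26) (.e (nat_lit 557086) (nat_lit 11) (.e (nat_lit 24627) (nat_lit 9) (.e (nat_lit 336306) (nat_lit 15) .nil))))))) (.g (nat_lit 1) (.e (nat_lit 81083) (nat_lit 0) .nil) .nil))))) (.nd (nat_lit 8) (.nd (nat_lit 9) 
(.lf (nat_lit 468165) (.g (nat_lit 2327) (.e (nat_lit 3262) (nat_lit 198) (.e (nat_lit 540706) (nat_lit 12) (.e (nat_lit 360475) (nat_lit 8) (.e (nat_lit 557090) (nat_lit 12) (.e (nat_lit 164020) (nat_lit 45) (.e (nat_lit 696329) (nat_lit 5) (.e (nat_lit 2878) (nat_lit 184) (.e (nat_lit 426032) (nat_lit 0) .nil)))))))) (.g (nat_lit 1) (.e (nat_lit 79065) (nat_lit 0) .nil) .nil))) 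
(.lf (nat_lit 468677) (.g (nat_lit 2704) (.e (nat_lit 3297) (nat_lit 202) (.e (nat_lit 573490) (nat_lit 15) (.e (nat_lit 81956) (nat_lit 23) (.e (nat_lit 98320) (nat_lit 17) .nil)))) (.g (nat_lit 0) (.e (nat_lit 80651) (nat_lit 0) .nil) .nil)))) (.nd (nat_lit 9) 
(.lf (nat_lit 468421) (.g (nat_lit 3333) (.e (nat_lit 3272) (nat_lit 199) (.e (nat_lit 548913) (nat_lit 18) (.e (nat_lit 172120) (nat_lit 12) (.e (nat_lit 475185) (nat_lit 29) (.e (nat_lit 557107) (nat_lit 15) (.e (nat_lit 188438) (nat_lit 20) .nil)))))) (.g (nat_lit 1) (.e (nat_lit 80023) (nat_lit 0) .nil) .nil))) 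
(.lf (nat_lit 468933) (.g (nat_lit 3335) (.e (nat_lit 3298) (nat_lit 202) (.e (nat_lit 573493) (nat_lit 15) (.e (nat_lit 81956) (nat_lit 23) (.e (nat_lit 98321) (nat_lit 17) .nil)))) (.g (nat_lit 0) (.e (nat_lit 81540) (nat_lit 0) .nil) .nil))))))) (.nd (nat_lit 6) (.nd (nat_lit 7) (.nd (nat_lit 8) (.nd (nat_lit 9) 
(.lf (nat_lit 468005) (.g (nat_lit 2583) (.e (nat_lit 3246) (nat_lit 197) (.e (nat_lit 532503) (nat_lit 1) (.e (nat_lit 57931) (nat_lit 282) (.e (nat_lit 163869) (nat_lit 2) (.e (nat_lit 196670) (nat_lit 14) (.e (nat_lit 73746) (nat_lit 3) (.e (nat_lit 516131) (nat_lit 3) (.e (nat_lit 221198) (nat_lit 20) .nil)))))))) (.g (nat_lit 1) (.e (nat_lit 78788) (nat_lit 0) .nil) .nil))) 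
(.lf (nat_lit 468517) (.g (nat_lit 1959) (.e (nat_lit 3295) (nat_lit 202) (.e (nat_lit 573485) (nat_lit 13) (.e (nat_lit 65628) (nat_lit 14) (.e (nat_lit 401428) (nat_lit 3) (.e (nat_lit 204866) (nat_lit 28) (.e (nat_lit 352262) (nat_lit 0) .nil)))))) (.g (nat_lit 1) (.e (nat_lit 80188) (nat_lit 0) .nil) .nil)))) (.nd (nat_lit 9) 
(.lf (nat_lit 468261) (.g (nat_lit 1602) (.e (nat_lit 7936) (nat_lit 195) (.e (nat_lit 516160) (nat_lit 10) (.e (nat_lit 434244) (nat_lit 28) (.e (nat_lit 573497) (nat_lit 17) .nil)))) (.g (nat_lit 0) (.e (nat_lit 79204) (nat_lit 0) .nil) .nil))) 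
(.lf (nat_lit 468773) (.g (nat_lit 2104) (.e (nat_lit 3298) (nat_lit 202) (.e (nat_lit 573480) (nat_lit 13) (.e (nat_lit 65630) (nat_lit 14) (.e (nat_lit 401425) (nat_lit 2) (.e (nat_lit 196666) (nat_lit 13) (.e (nat_lit 65599) (nat_lit 9) (.e (nat_lit 343808) (nat_lit 15) .nil))))))) (.g (nat_lit 1) (.e (nat_lit 81006) (nat_lit 0) .nil) .nil))))) (.nd (nat_lit 8) (.nd (nat_lit 9) 
(.lf (nat_lit 468133) (.g (nat_lit 2041) (.e (nat_lit 3262) (nat_lit 198) (.e (nat_lit 540706) (nat_lit 12) (.e (nat_lit 360475) (nat_lit 8) (.e (nat_lit 557089) (nat_lit 12) .nil)))) (.g (nat_lit 0) (.e (nat_lit 79024) (nat_lit 0) .nil) .nil))) 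
(.lf (nat_lit 468645) (.g (nat_lit 3087) (.e (nat_lit 3297) (nat_lit 202) (.e (nat_lit 573481) (nat_lit 13) (.e (nat_lit 65619) (nat_lit 10) (.e (nat_lit 344129) (nat_lit 26) (.e (nat_lit 557087) (nat_lit 11) (.e (nat_lit 24631) (nat_lit 9) (.e (nat_lit 343808) (nat_lit 15) .nil))))))) (.g (nat_lit 1) (.e (nat_lit 80523) (nat_lit 0) .nil) .nil)))) (.nd (nat_lit 9) 
(.lf (nat_lit 468389) (.g (nat_lit 1203) (.e (nat_lit 3271) (nat_lit 199) (.e (nat_lit 548913) (nat_lit 18) (.e (nat_lit 172126) (nat_lit 14) (.e (nat_lit 491540) (nat_lit 3) .nil)))) (.g (nat_lit 0) (.e (nat_lit 79624) (nat_lit 0) .nil) .nil))) 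
(.lf (nat_lit 468901) (.g (nat_lit 3646) (.e (nat_lit 3298) (nat_lit 202) (.e (nat_lit 573492) (nat_lit 15) (.e (nat_lit 81956) (nat_lit 23) (.e (nat_lit 98389) (nat_lit 33) (.e (nat_lit 491547) (nat_lit 9) (.e (nat_lit 336306) (nat_lit 15) .nil)))))) (.g (nat_lit 1) (.e (nat_lit 81488) (nat_lit 0) .nil) .nil)))))) (.nd (nat_lit 7) (.nd (nat_lit 8) (.nd (nat_lit 9) 
(.lf (nat_lit 468069) (.g (nat_lit 2445) (.e (nat_lit 3260) (nat_lit 198) (.e (nat_lit 540706) (nat_lit 12) (.e (nat_lit 360475) (nat_lit 8) (.e (nat_lit 557090) (nat_lit 12) (.e (nat_lit 164020) (nat_lit 45) .nil))))) (.g (nat_lit 0) (.e (nat_lit 78888) (nat_lit 0) .nil) .nil))) 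
(.lf (nat_lit 468581) (.g (nat_lit 590) (.e (nat_lit 3297) (nat_lit 202) (.e (nat_lit 573471) (nat_lit 11) (.e (nat_lit 16470) (nat_lit 14) .nil))) (.g (nat_lit 0) (.e (nat_lit 80392) (nat_lit 0) .nil) .nil)))) (.nd (nat_lit 9) 
(.lf (nat_lit 468325) (.g (nat_lit 3248) (.e (nat_lit 3270) (nat_lit 199) (.e (nat_lit 548913) (nat_lit 18) (.e (nat_lit 172125) (nat_lit 14) (.e (nat_lit 491535) (nat_lit 2) (.e (nat_lit 90176) (nat_lit 15) (.e (nat_lit 188439) (nat_lit 20) .nil)))))) (.g (nat_lit 1) (.e (nat_lit 79393) (nat_lit 0) .nil) .nil))) 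
(.lf (nat_lit 468837) (.g (nat_lit 1910) (.e (nat_lit 3298) (nat_lit 202) (.e (nat_lit 573482) (nat_lit 13) (.e (nat_lit 65619) (nat_lit 10) (.e (nat_lit 344129) (nat_lit 26) (.e (nat_lit 557087) (nat_lit 11) .nil))))) (.g (nat_lit 0) (.e (nat_lit 81117) (nat_lit 0) .nil) .nil))))) (.nd (nat_lit 8) (.nd (nat_lit 9) 
(.lf (nat_lit 468197) (.g (nat_lit 3770) (.e (nat_lit 3262) (nat_lit 198) (.e (nat_lit 540706) (nat_lit 12) (.e (nat_lit 360475) (nat_lit 8) (.e (nat_lit 557091) (nat_lit 12) (.e (nat_lit 164017) (nat_lit 44) (.e (nat_lit 688139) (nat_lit 5) (.e (nat_lit 2887) (nat_lit 184) (.e (nat_lit 426032) (nat_lit 0) .nil)))))))) (.g (nat_lit 1) (.e (nat_lit 79101) (nat_lit 0) .nil) .nil))) 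
(.lf (nat_lit 468709) (.g (nat_lit 3345) (.e (nat_lit 3297) (nat_lit 202) (.e (nat_lit 573491) (nat_lit 15) (.e (nat_lit 81956) (nat_lit 23) (.e (nat_lit 98389) (nat_lit 33) (.e (nat_lit 491549) (nat_lit 9) .nil))))) (.g (nat_lit 0) (.e (nat_lit 80790) (nat_lit 0) .nil) .nil)))) (.nd (nat_lit 9) 
(.lf (nat_lit 468453) (.g (nat_lit 4082) (.e (nat_lit 3272) (nat_lit 199) (.e (nat_lit 548913) (nat_lit 18) (.e (nat_lit 172125) (nat_lit 14) (.e (nat_lit 491537) (nat_lit 2) (.e (nat_lit 90178) (nat_lit 15) (.e (nat_lit 188441) (nat_lit 20) .nil)))))) (.g (nat_lit 1) (.e (nat_lit 80056) (nat_lit 0) .nil) .nil))) 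
(.lf (nat_lit 468965) (.g (nat_lit 2520) (.e (nat_lit 3302) (nat_lit 202) (.e (nat_lit 573480) (nat_lit 13) (.e (nat_lit 65630) (nat_lit 14) (.e (nat_lit 401428) (nat_lit 3) (.e (nat_lit 204866) (nat_lit 28) (.e (nat_lit 352261) (nat_lit 0) .nil)))))) (.g (nat_lit 1) (.e (nat_lit 81662) (nat_lit 0) .nil) .nil)))))))) 
(.nd (nat_lit 5) (.nd (nat_lit 6) (.nd (nat_lit 7) (.nd (nat_lit 8) (.nd (nat_lit 9) 
(.lf (nat_lit 467989) (.g (nat_lit 3006) (.e (nat_lit 3244) (nat_lit 197) (.e (nat_lit 532504) (nat_lit 1) (.e (nat_lit 57851) (nat_lit 252) (.e (nat_lit 57406) (nat_lit 12) (.e (nat_lit 336456) (nat_lit 34) (.e (nat_lit 483383) (nat_lit 23) (.e (nat_lit 336240) (nat_lit 15) .nil))))))) (.g (nat_lit 1) (.e (nat_lit 78769) (nat_lit 0) .nil) .nil))) 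
(.lf (nat_lit 468501) (.g (nat_lit 2881) (.e (nat_lit 3295) (nat_lit 202) (.e (nat_lit 573484) (nat_lit 13) (.e (nat_lit 65617) (nat_lit 10) (.e (nat_lit 344132) (nat_lit 26) (.e (nat_lit 557085) (nat_lit 11) (.e (nat_lit 24630) (nat_lit 9) (.e (nat_lit 336306) (nat_lit 15) .nil))))))) (.g (nat_lit 1) (.e (nat_lit 80158) (nat_lit 0) .nil) .nil)))) (.nd (nat_lit 9) 
(.lf (nat_lit 468245) (.g (nat_lit 1914) (.e (nat_lit 3214) (nat_lit 195) (.e (nat_lit 516129) (nat_lit 3) (.e (nat_lit 221210) (nat_lit 22) (.e (nat_lit 196668) (nat_lit 14) (.e (nat_lit 81664) (nat_lit 5) .nil))))) (.g (nat_lit 0) (.e (nat_lit 79177) (nat_lit 0) .nil) .nil))) 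
(.lf (nat_lit 468757) (.g (nat_lit 3164) (.e (nat_lit 3297) (nat_lit 202) (.e (nat_lit 573492) (nat_lit 15) (.e (nat_lit 81956) (nat_lit 23) (.e (nat_lit 98389) (nat_lit 33) (.e (nat_lit 491552) (nat_lit 9) (.e (nat_lit 343808) (nat_lit 15) .nil)))))) (.g (nat_lit 1) (.e (nat_lit 80971) (nat_lit 0) .nil) .nil))))) (.nd (nat_lit 8) (.nd (nat_lit 9) 
(.lf (nat_lit 468117) (.g (nat_lit 2020) (.e (nat_lit 3262) (nat_lit 198) (.e (nat_lit 540706) (nat_lit 12) (.e (nat_lit 360475) (nat_lit 8) (.e (nat_lit 557073) (nat_lit 9) .nil)))) (.g (nat_lit 0) (.e (nat_lit 78990) (nat_lit 0) .nil) .nil))) 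
(.lf (nat_lit 468629) (.g (nat_lit 2180) (.e (nat_lit 3297) (nat_lit 202) (.e (nat_lit 573481) (nat_lit 13) (.e (nat_lit 65619) (nat_lit 10) (.e (nat_lit 344117) (nat_lit 21) (.e (nat_lit 516185) (nat_lit 16) (.e (nat_lit 491546) (nat_lit 9) (.e (nat_lit 336306) (nat_lit 15) .nil))))))) (.g (nat_lit 1) (.e (nat_lit 80498) (nat_lit 0) .nil) .nil)))) (.nd (nat_lit 9) 
(.lf (nat_lit 468373) (.g (nat_lit 4578) (.e (nat_lit 3271) (nat_lit 199) (.e (nat_lit 548913) (nat_lit 18) (.e (nat_lit 172125) (nat_lit 14) (.e (nat_lit 491537) (nat_lit 2) (.e (nat_lit 90178) (nat_lit 15) (.e (nat_lit 188440) (nat_lit 20) .nil)))))) (.g (nat_lit 1) (.e (nat_lit 79608) (nat_lit 0) .nil) .nil))) 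
(.lf (nat_lit 468885) (.g (nat_lit 2417) (.e (nat_lit 3298) (nat_lit 202) (.e (nat_lit 573492) (nat_lit 15) (.e (nat_lit 81956) (nat_lit 23) (.e (nat_lit 106240) (nat_lit 17) .nil)))) (.g (nat_lit 0) (.e (nat_lit 81446) (nat_lit 0) .nil) .nil)))))) (.nd (nat_lit 7) (.nd (nat_lit 8) (.nd (nat_lit 9) 
(.lf (nat_lit 468053) (.g (nat_lit 4054) (.e (nat_lit 3258) (nat_lit 198) (.e (nat_lit 540706) (nat_lit 12) (.e (nat_lit 360475) (nat_lit 8) (.e (nat_lit 557090) (nat_lit 12) (.e (nat_lit 164020) (nat_lit 45) (.e (nat_lit 696344) (nat_lit 8) (.e (nat_lit 172042) (nat_lit 0) .nil))))))) (.g (nat_lit 1) (.e (nat_lit 78852) (nat_lit 0) .nil) .nil))) 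
(.lf (nat_lit 468565) (.g (nat_lit 2563) (.e (nat_lit 3297) (nat_lit 202) (.e (nat_lit 573450) (nat_lit 9) (.e (nat_lit 375) (nat_lit 32) (.e (nat_lit 426173) (nat_lit 7) (.e (nat_lit 409616) (nat_lit 10) (.e (nat_lit 7936) (nat_lit 43) (.e (nat_lit 516151) (nat_lit 9) (.e (nat_lit 426211) (nat_lit 9) (.e (nat_lit 426036) (nat_lit 0) .nil))))))))) (.g (nat_lit 1) (.e (nat_lit 80358) (nat_lit 0) .nil) .nil)))) 
(.nd (nat_lit 9) 
(.lf (nat_lit 468309) (.g (nat_lit 4486) (.e (nat_lit 3270) (nat_lit 199) (.e (nat_lit 548913) (nat_lit 18) (.e (nat_lit 172120) (nat_lit 12) (.e (nat_lit 475184) (nat_lit 29) (.e (nat_lit 557109) (nat_lit 15) (.e (nat_lit 188434) (nat_lit 20) .nil)))))) (.g (nat_lit 1) (.e (nat_lit 79377) (nat_lit 0) .nil) .nil))) 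
(.lf (nat_lit 468821) (.g (nat_lit 1962) (.e (nat_lit 3298) (nat_lit 202) (.e (nat_lit 573481) (nat_lit 13) (.e (nat_lit 65630) (nat_lit 14) (.e (nat_lit 401428) (nat_lit 3) (.e (nat_lit 204876) (nat_lit 31) .nil))))) (.g (nat_lit 0) (.e (nat_lit 81101) (nat_lit 0) .nil) .nil))))) (.nd (nat_lit 8) (.nd (nat_lit 9) 
(.lf (nat_lit 468181) (.g (nat_lit 4427) (.e (nat_lit 3262) (nat_lit 198) (.e (nat_lit 540706) (nat_lit 12) (.e (nat_lit 360475) (nat_lit 8) (.e (nat_lit 557091) (nat_lit 12) (.e (nat_lit 163843) (nat_lit 0) (.e (nat_lit 6416) (nat_lit 341) (.e (nat_lit 163908) (nat_lit 12) (.e (nat_lit 426003) (nat_lit 0) .nil)))))))) (.g (nat_lit 1) (.e (nat_lit 79083) (nat_lit 0) .nil) .nil))) 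
(.lf (nat_lit 468693) (.g (nat_lit 2125) (.e (nat_lit 3297) (nat_lit 202) (.e (nat_lit 573491) (nat_lit 15) (.e (nat_lit 81954) (nat_lit 23) (.e (nat_lit 98388) (nat_lit 33) (.e (nat_lit 491548) (nat_lit 9) (.e (nat_lit 336306) (nat_lit 15) .nil)))))) (.g (nat_lit 1) (.e (nat_lit 80773) (nat_lit 0) .nil) .nil)))) (.nd (nat_lit 9) 
(.lf (nat_lit 468437) (.g (nat_lit 3720) (.e (nat_lit 3272) (nat_lit 199) (.e (nat_lit 548913) (nat_lit 18) (.e (nat_lit 172124) (nat_lit 14) (.e (nat_lit 491537) (nat_lit 2) (.e (nat_lit 90178) (nat_lit 15) (.e (nat_lit 188441) (nat_lit 20) .nil)))))) (.g (nat_lit 1) (.e (nat_lit 80040) (nat_lit 0) .nil) .nil))) 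
(.lf (nat_lit 468949) (.g (nat_lit 4491) (.e (nat_lit 3298) (nat_lit 202) (.e (nat_lit 573493) (nat_lit 15) (.e (nat_lit 81956) (nat_lit 23) (.e (nat_lit 98388) (nat_lit 33) (.e (nat_lit 491550) (nat_lit 9) (.e (nat_lit 336306) (nat_lit 15) .nil)))))) (.g (nat_lit 1) (.e (nat_lit 81574) (nat_lit 0) .nil) .nil))))))) (.nd (nat_lit 6) (.nd (nat_lit 7) (.nd (nat_lit 8) (.nd (nat_lit 9) 
(.lf (nat_lit 468021) (.g (nat_lit 5304) (.e (nat_lit 7936) (nat_lit 197) (.e (nat_lit 532550) (nat_lit 12) (.e (nat_lit 360475) (nat_lit 8) (.e (nat_lit 557090) (nat_lit 12) .nil)))) (.g (nat_lit 0) (.e (nat_lit 78807) (nat_lit 0) .nil) .nil))) 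
(.lf (nat_lit 468533) (.g (nat_lit 591) (.e (nat_lit 3295) (nat_lit 202) (.e (nat_lit 573493) (nat_lit 15) (.e (nat_lit 81956) (nat_lit 23) .nil))) (.g (nat_lit 0) (.e (nat_lit 80255) (nat_lit 0) .nil) .nil)))) (.nd (nat_lit 9) 
(.lf (nat_lit 468277) (.g (nat_lit 2343) (.e (nat_lit 7936) (nat_lit 195) (.e (nat_lit 516160) (nat_lit 10) (.e (nat_lit 434248) (nat_lit 28) (.e (nat_lit 573487) (nat_lit 14) (.e (nat_lit 73747) (nat_lit 3) .nil))))) (.g (nat_lit 0) (.e (nat_lit 79220) (nat_lit 0) .nil) .nil))) 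
(.lf (nat_lit 468789) (.g (nat_lit 3147) (.e (nat_lit 3298) (nat_lit 202) (.e (nat_lit 573481) (nat_lit 13) (.e (nat_lit 65619) (nat_lit 10) (.e (nat_lit 344117) (nat_lit 21) (.e (nat_lit 516097) (nat_lit 0) (.e (nat_lit 7589) (nat_lit 406) (.e (nat_lit 73472) (nat_lit 15) .nil))))))) (.g (nat_lit 1) (.e (nat_lit 81039) (nat_lit 0) .nil) .nil))))) (.nd (nat_lit 8) (.nd (nat_lit 9) 
(.lf (nat_lit 468149) (.g (nat_lit 2955) (.e (nat_lit 3262) (nat_lit 198) (.e (nat_lit 540706) (nat_lit 12) (.e (nat_lit 360475) (nat_lit 8) (.e (nat_lit 557089) (nat_lit 12) (.e (nat_lit 164017) (nat_lit 44) (.e (nat_lit 688139) (nat_lit 5) (.e (nat_lit 2887) (nat_lit 184) (.e (nat_lit 426003) (nat_lit 0) .nil)))))))) (.g (nat_lit 1) (.e (nat_lit 79044) (nat_lit 0) .nil) .nil))) 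
(.lf (nat_lit 468661) (.g (nat_lit 2160) (.e (nat_lit 3297) (nat_lit 202) (.e (nat_lit 573481) (nat_lit 13) (.e (nat_lit 65630) (nat_lit 14) (.e (nat_lit 401428) (nat_lit 3) (.e (nat_lit 204865) (nat_lit 28) (.e (nat_lit 360192) (nat_lit 0) .nil)))))) (.g (nat_lit 1) (.e (nat_lit 80540) (nat_lit 0) .nil) .nil)))) (.nd (nat_lit 9) 
(.lf (nat_lit 468405) (.g (nat_lit 744) (.e (nat_lit 3272) (nat_lit 199) (.e (nat_lit 548913) (nat_lit 18) (.e (nat_lit 172079) (nat_lit 7) (.e (nat_lit 409611) (nat_lit 10) .nil)))) (.g (nat_lit 0) (.e (nat_lit 79826) (nat_lit 0) .nil) .nil))) 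
(.lf (nat_lit 468917) (.g (nat_lit 3468) (.e (nat_lit 3298) (nat_lit 202) (.e (nat_lit 573493) (nat_lit 15) (.e (nat_lit 81953) (nat_lit 22) (.e (nat_lit 90134) (nat_lit 9) (.e (nat_lit 3096) (nat_lit 192) (.e (nat_lit 491549) (nat_lit 9) (.e (nat_lit 336306) (nat_lit 15) .nil))))))) (.g (nat_lit 1) (.e (nat_lit 81518) (nat_lit 0) .nil) .nil)))))) 
(.nd (nat_lit 7) (.nd (nat_lit 8) (.nd (nat_lit 9) 
(.lf (nat_lit 468085) (.g (nat_lit 1498) (.e (nat_lit 3262) (nat_lit 198) (.e (nat_lit 540706) (nat_lit 12) (.e (nat_lit 360474) (nat_lit 8) (.e (nat_lit 557093) (nat_lit 12) (.e (nat_lit 163849) (nat_lit 0) (.e (nat_lit 6416) (nat_lit 341) (.e (nat_lit 163908) (nat_lit 12) (.e (nat_lit 426003) (nat_lit 0) .nil)))))))) (.g (nat_lit 1) (.e (nat_lit 78924) (nat_lit 0) .nil) .nil))) 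
(.lf (nat_lit 468597) (.g (nat_lit 3675) (.e (nat_lit 3297) (nat_lit 202) (.e (nat_lit 573481) (nat_lit 13) (.e (nat_lit 65604) (nat_lit 9) (.e (nat_lit 336013) (nat_lit 2) (.e (nat_lit 90134) (nat_lit 9) (.e (nat_lit 3098) (nat_lit 192) (.e (nat_lit 491548) (nat_lit 9) (.e (nat_lit 336306) (nat_lit 15) .nil)))))))) (.g (nat_lit 1) (.e (nat_lit 80416) (nat_lit 0) .nil) .nil)))) (.nd (nat_lit 9) 
(.lf (nat_lit 468341) (.g (nat_lit 2987) (.e (nat_lit 3271) (nat_lit 199) (.e (nat_lit 548913) (nat_lit 18) (.e (nat_lit 172118) (nat_lit 12) (.e (nat_lit 475185) (nat_lit 29) (.e (nat_lit 557109) (nat_lit 15) (.e (nat_lit 188441) (nat_lit 20) .nil)))))) (.g (nat_lit 1) (.e (nat_lit 79576) (nat_lit 0) .nil) .nil))) 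
(.lf (nat_lit 468853) (.g (nat_lit 2788) (.e (nat_lit 3298) (nat_lit 202) (.e (nat_lit 573491) (nat_lit 15) (.e (nat_lit 81954) (nat_lit 23) (.e (nat_lit 98389) (nat_lit 33) (.e (nat_lit 491549) (nat_lit 9) (.e (nat_lit 336306) (nat_lit 15) .nil)))))) (.g (nat_lit 1) (.e (nat_lit 81311) (nat_lit 0) .nil) .nil))))) (.nd (nat_lit 8) (.nd (nat_lit 9) 
(.lf (nat_lit 468213) (.g (nat_lit 2684) (.e (nat_lit 3262) (nat_lit 198) (.e (nat_lit 540706) (nat_lit 12) (.e (nat_lit 360475) (nat_lit 8) (.e (nat_lit 557094) (nat_lit 12) .nil)))) (.g (nat_lit 0) (.e (nat_lit 79119) (nat_lit 0) .nil) .nil))) 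
(.lf (nat_lit 468725) (.g (nat_lit 3586) (.e (nat_lit 3297) (nat_lit 202) (.e (nat_lit 573492) (nat_lit 15) (.e (nat_lit 81956) (nat_lit 23) (.e (nat_lit 98328) (nat_lit 17) .nil)))) (.g (nat_lit 0) (.e (nat_lit 80914) (nat_lit 0) .nil) .nil)))) (.nd (nat_lit 9) 
(.lf (nat_lit 468469) (.g (nat_lit 4613) (.e (nat_lit 3272) (nat_lit 199) (.e (nat_lit 548913) (nat_lit 18) (.e (nat_lit 172126) (nat_lit 14) (.e (nat_lit 491537) (nat_lit 2) (.e (nat_lit 90176) (nat_lit 15) (.e (nat_lit 188439) (nat_lit 20) .nil)))))) (.g (nat_lit 1) (.e (nat_lit 80077) (nat_lit 0) .nil) .nil))) 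
(.lf (nat_lit 468981) (.g (nat_lit 2453) (.e (nat_lit 3302) (nat_lit 202) (.e (nat_lit 573481) (nat_lit 13) (.e (nat_lit 65628) (nat_lit 14) (.e (nat_lit 401428) (nat_lit 3) (.e (nat_lit 204865) (nat_lit 28) (.e (nat_lit 352261) (nat_lit 0) .nil)))))) (.g (nat_lit 1) (.e (nat_lit 81686) (nat_lit 0) .nil) .nil))))))))) 
(.nd (nat_lit 4) (.nd (nat_lit 5) (.nd (nat_lit 6) (.nd (nat_lit 7) (.nd (nat_lit 8) 
(.nd (nat_lit 9) 
(.lf (nat_lit 467981) (.g (nat_lit 2447) (.e (nat_lit 3244) (nat_lit 197) (.e (nat_lit 532503) (nat_lit 1) (.e (nat_lit 57931) (nat_lit 282) (.e (nat_lit 163867) (nat_lit 2) (.e (nat_lit 196668) (nat_lit 14) (.e (nat_lit 73747) (nat_lit 3) (.e (nat_lit 516129) (nat_lit 3) (.e (nat_lit 221196) (nat_lit 20) .nil)))))))) (.g (nat_lit 1) (.e (nat_lit 78761) (nat_lit 0) .nil) .nil))) 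
(.lf (nat_lit 468493) (.g (nat_lit 2636) (.e (nat_lit 3295) (nat_lit 202) (.e (nat_lit 573482) (nat_lit 13) (.e (nat_lit 65619) (nat_lit 10) (.e (nat_lit 344129) (nat_lit 26) (.e (nat_lit 557087) (nat_lit 11) (.e (nat_lit 24632) (nat_lit 9) (.e (nat_lit 336267) (nat_lit 15) .nil))))))) (.g (nat_lit 1) (.e (nat_lit 80144) (nat_lit 0) .nil) .nil)))) (.nd (nat_lit 9) 
(.lf (nat_lit 468237) (.g (nat_lit 1924) (.e (nat_lit 3213) (nat_lit 195) (.e (nat_lit 516129) (nat_lit 3) (.e (nat_lit 221210) (nat_lit 22) (.e (nat_lit 196668) (nat_lit 14) (.e (nat_lit 81664) (nat_lit 5) (.e (nat_lit 532578) (nat_lit 26) (.e (nat_lit 426011) (nat_lit 0) .nil))))))) (.g (nat_lit 1) (.e (nat_lit 79158) (nat_lit 0) .nil) .nil))) 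
(.lf (nat_lit 468749) (.g (nat_lit 1765) (.e (nat_lit 3297) (nat_lit 202) (.e (nat_lit 573492) (nat_lit 15) (.e (nat_lit 81956) (nat_lit 23) (.e (nat_lit 98388) (nat_lit 33) .nil)))) (.g (nat_lit 0) (.e (nat_lit 80963) (nat_lit 0) .nil) .nil))))) (.nd (nat_lit 8) (.nd (nat_lit 9) 
(.lf (nat_lit 468109) (.g (nat_lit 3280) (.e (nat_lit 3262) (nat_lit 198) (.e (nat_lit 540706) (nat_lit 12) (.e (nat_lit 360474) (nat_lit 8) (.e (nat_lit 557094) (nat_lit 12) (.e (nat_lit 164022) (nat_lit 46) (.e (nat_lit 704737) (nat_lit 11) (.e (nat_lit 16391) (nat_lit 0) .nil))))))) (.g (nat_lit 1) (.e (nat_lit 78948) (nat_lit 0) .nil) .nil))) 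
(.lf (nat_lit 468621) (.g (nat_lit 3086) (.e (nat_lit 3297) (nat_lit 202) (.e (nat_lit 573481) (nat_lit 13) (.e (nat_lit 65619) (nat_lit 10) (.e (nat_lit 344117) (nat_lit 21) (.e (nat_lit 516180) (nat_lit 15) (.e (nat_lit 475210) (nat_lit 41) (.e (nat_lit 712719) (nat_lit 15) .nil))))))) (.g (nat_lit 1) (.e (nat_lit 80490) (nat_lit 0) .nil) .nil)))) (.nd (nat_lit 9) 
(.lf (nat_lit 468365) (.g (nat_lit 813) (.e (nat_lit 3271) (nat_lit 199) (.e (nat_lit 548913) (nat_lit 18) (.e (nat_lit 172125) (nat_lit 14) (.e (nat_lit 491524) (nat_lit 0) .nil)))) (.g (nat_lit 0) (.e (nat_lit 79600) (nat_lit 0) .nil) .nil))) 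
(.lf (nat_lit 468877) (.g (nat_lit 3671) (.e (nat_lit 3298) (nat_lit 202) (.e (nat_lit 573492) (nat_lit 15) (.e (nat_lit 81956) (nat_lit 23) (.e (nat_lit 98322) (nat_lit 17) .nil)))) (.g (nat_lit 0) (.e (nat_lit 81413) (nat_lit 0) .nil) .nil)))))) (.nd (nat_lit 7) (.nd (nat_lit 8) (.nd (nat_lit 9) 
(.lf (nat_lit 468045) (.g (nat_lit 2737) (.e (nat_lit 3258) (nat_lit 198) (.e (nat_lit 540706) (nat_lit 12) (.e (nat_lit 360475) (nat_lit 8) (.e (nat_lit 557087) (nat_lit 11) (.e (nat_lit 24665) (nat_lit 14) .nil))))) (.g (nat_lit 0) (.e (nat_lit 78840) (nat_lit 0) .nil) .nil))) 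
(.lf (nat_lit 468557) (.g (nat_lit 1450) (.e (nat_lit 3296) (nat_lit 202) (.e (nat_lit 573482) (nat_lit 13) (.e (nat_lit 65619) (nat_lit 10) (.e (nat_lit 344117) (nat_lit 21) (.e (nat_lit 516098) (nat_lit 0) (.e (nat_lit 7587) (nat_lit 406) (.e (nat_lit 73472) (nat_lit 15) .nil))))))) (.g (nat_lit 1) (.e (nat_lit 80301) (nat_lit 0) .nil) .nil)))) (.nd (nat_lit 9) 
(.lf (nat_lit 468301) (.g (nat_lit 3095) (.e (nat_lit 3270) (nat_lit 199) (.e (nat_lit 548913) (nat_lit 18) (.e (nat_lit 172118) (nat_lit 12) (.e (nat_lit 475185) (nat_lit 29) (.e (nat_lit 557107) (nat_lit 15) (.e (nat_lit 188439) (nat_lit 20) .nil)))))) (.g (nat_lit 1) (.e (nat_lit 79369) (nat_lit 0) .nil) .nil))) 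
(.lf (nat_lit 468813) (.g (nat_lit 2164) (.e (nat_lit 3298) (nat_lit 202) (.e (nat_lit 573481) (nat_lit 13) (.e (nat_lit 65628) (nat_lit 14) (.e (nat_lit 401425) (nat_lit 2) (.e (nat_lit 196681) (nat_lit 17) (.e (nat_lit 131109) (nat_lit 9) (.e (nat_lit 336306) (nat_lit 15) .nil))))))) (.g (nat_lit 1) (.e (nat_lit 81091) (nat_lit 0) .nil) .nil))))) (.nd (nat_lit 8) (.nd (nat_lit 9) 
(.lf (nat_lit 468173) (.g (nat_lit 3543) (.e (nat_lit 3262) (nat_lit 198) (.e (nat_lit 540706) (nat_lit 12) (.e (nat_lit 360475) (nat_lit 8) (.e (nat_lit 557090) (nat_lit 12) (.e (nat_lit 164020) (nat_lit 45) (.e (nat_lit 696343) (nat_lit 8) (.e (nat_lit 172040) (nat_lit 0) .nil))))))) (.g (nat_lit 1) (.e (nat_lit 79073) (nat_lit 0) .nil) .nil))) 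
(.lf (nat_lit 468685) (.g (nat_lit 1842) (.e (nat_lit 3297) (nat_lit 202) (.e (nat_lit 573491) (nat_lit 15) (.e (nat_lit 81954) (nat_lit 23) (.e (nat_lit 98385) (nat_lit 32) (.e (nat_lit 475208) (nat_lit 41) (.e (nat_lit 712719) (nat_lit 15) .nil)))))) (.g (nat_lit 1) (.e (nat_lit 80765) (nat_lit 0) .nil) .nil)))) (.nd (nat_lit 9) 
(.lf (nat_lit 468429) (.g (nat_lit 2746) (.e (nat_lit 3272) (nat_lit 199) (.e (nat_lit 548913) (nat_lit 18) (.e (nat_lit 172124) (nat_lit 14) (.e (nat_lit 491536) (nat_lit 2) (.e (nat_lit 90177) (nat_lit 15) (.e (nat_lit 188434) (nat_lit 20) .nil)))))) (.g (nat_lit 1) (.e (nat_lit 80032) (nat_lit 0) .nil) .nil))) 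
(.lf (nat_lit 468941) (.g (nat_lit 4113) (.e (nat_lit 3298) (nat_lit 202) (.e (nat_lit 573493) (nat_lit 15) (.e (nat_lit 81956) (nat_lit 23) (.e (nat_lit 98349) (nat_lit 24) (.e (nat_lit 409641) (nat_lit 17) .nil))))) (.g (nat_lit 0) (.e (nat_lit 81555) (nat_lit 0) .nil) .nil))))))) (.nd (nat_lit 6) (.nd (nat_lit 7) (.nd (nat_lit 8) (.nd (nat_lit 9) 
(.lf (nat_lit 468013) (.g (nat_lit 3201) (.e (nat_lit 3247) (nat_lit 197) (.e (nat_lit 532503) (nat_lit 1) (.e (nat_lit 57931) (nat_lit 282) (.e (nat_lit 163867) (nat_lit 2) (.e (nat_lit 196668) (nat_lit 14) (.e (nat_lit 73747) (nat_lit 3) (.e (nat_lit 516129) (nat_lit 3) (.e (nat_lit 221196) (nat_lit 20) .nil)))))))) (.g (nat_lit 1) (.e (nat_lit 78796) (nat_lit 0) .nil) .nil))) 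
(.lf (nat_lit 468525) (.g (nat_lit 3304) (.e (nat_lit 3295) (nat_lit 202) (.e (nat_lit 573492) (nat_lit 15) (.e (nat_lit 81956) (nat_lit 23) (.e (nat_lit 98321) (nat_lit 17) .nil)))) (.g (nat_lit 0) (.e (nat_lit 80224) (nat_lit 0) .nil) .nil)))) (.nd (nat_lit 9) 
(.lf (nat_lit 468269) (.g (nat_lit 1756) (.e (nat_lit 7936) (nat_lit 195) (.e (nat_lit 516160) (nat_lit 10) (.e (nat_lit 434246) (nat_lit 28) (.e (nat_lit 573482) (nat_lit 13) (.e (nat_lit 65566) (nat_lit 2) .nil))))) (.g (nat_lit 0) (.e (nat_lit 79212) (nat_lit 0) .nil) .nil))) 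
(.lf (nat_lit 468781) (.g (nat_lit 2413) (.e (nat_lit 3298) (nat_lit 202) (.e (nat_lit 573481) (nat_lit 13) (.e (nat_lit 65604) (nat_lit 9) (.e (nat_lit 336013) (nat_lit 2) (.e (nat_lit 90165) (nat_lit 12) (.e (nat_lit 171776) (nat_lit 191) (.e (nat_lit 73472) (nat_lit 15) .nil))))))) (.g (nat_lit 1) (.e (nat_lit 81015) (nat_lit 0) .nil) .nil))))) (.nd (nat_lit 8) (.nd (nat_lit 9) 
(.lf (nat_lit 468141) (.g (nat_lit 2890) (.e (nat_lit 3262) (nat_lit 198) (.e (nat_lit 540706) (nat_lit 12) (.e (nat_lit 360475) (nat_lit 8) (.e (nat_lit 557089) (nat_lit 12) (.e (nat_lit 163848) (nat_lit 0) .nil))))) (.g (nat_lit 0) (.e (nat_lit 79032) (nat_lit 0) .nil) .nil))) 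
(.lf (nat_lit 468653) (.g (nat_lit 2224) (.e (nat_lit 3297) (nat_lit 202) (.e (nat_lit 573481) (nat_lit 13) (.e (nat_lit 65628) (nat_lit 14) (.e (nat_lit 401428) (nat_lit 3) (.e (nat_lit 204865) (nat_lit 28) (.e (nat_lit 360192) (nat_lit 0) .nil)))))) (.g (nat_lit 1) (.e (nat_lit 80531) (nat_lit 0) .nil) .nil)))) (.nd (nat_lit 9) 
(.lf (nat_lit 468397) (.g (nat_lit 2160) (.e (nat_lit 3271) (nat_lit 199) (.e (nat_lit 548915) (nat_lit 20) (.e (nat_lit 188420) (nat_lit 0) (.e (nat_lit 1856) (nat_lit 124) (.e (nat_lit 557107) (nat_lit 15) (.e (nat_lit 188441) (nat_lit 20) .nil)))))) (.g (nat_lit 1) (.e (nat_lit 79634) (nat_lit 0) .nil) .nil))) 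
(.lf (nat_lit 468909) (.g (nat_lit 2953) (.e (nat_lit 3298) (nat_lit 202) (.e (nat_lit 573493) (nat_lit 15) (.e (nat_lit 81951) (nat_lit 22) (.e (nat_lit 90134) (nat_lit 9) (.e (nat_lit 3098) (nat_lit 192) .nil))))) (.g (nat_lit 0) (.e (nat_lit 81509) (nat_lit 0) .nil) .nil)))))) (.nd (nat_lit 7) (.nd (nat_lit 8) (.nd (nat_lit 9) 
(.lf (nat_lit 468077) (.g (nat_lit 833) (.e (nat_lit 3262) (nat_lit 198) (.e (nat_lit 540706) (nat_lit 12) (.e (nat_lit 360474) (nat_lit 8) (.e (nat_lit 557073) (nat_lit 9) .nil)))) (.g (nat_lit 0) (.e (nat_lit 78916) (nat_lit 0) .nil) .nil))) 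
(.lf (nat_lit 468589) (.g (nat_lit 2882) (.e (nat_lit 3297) (nat_lit 202) (.e (nat_lit 573471) (nat_lit 11) (.e (nat_lit 16473) (nat_lit 14) (.e (nat_lit 491536) (nat_lit 2) (.e (nat_lit 90176) (nat_lit 15) (.e (nat_lit 188439) (nat_lit 20) .nil)))))) (.g (nat_lit 1) (.e (nat_lit 80401) (nat_lit 0) .nil) .nil)))) (.nd (nat_lit 9) 
(.lf (nat_lit 468333) (.g (nat_lit 2049) (.e (nat_lit 3270) (nat_lit 199) (.e (nat_lit 548913) (nat_lit 18) (.e (nat_lit 172126) (nat_lit 14) (.e (nat_lit 491539) (nat_lit 3) .nil)))) (.g (nat_lit 0) (.e (nat_lit 79401) (nat_lit 0) .nil) .nil))) 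
(.lf (nat_lit 468845) (.g (nat_lit 1002) (.e (nat_lit 3298) (nat_lit 202) (.e (nat_lit 573491) (nat_lit 15) (.e (nat_lit 81954) (nat_lit 23) (.e (nat_lit 98325) (nat_lit 17) .nil)))) (.g (nat_lit 0) (.e (nat_lit 81293) (nat_lit 0) .nil) .nil))))) (.nd (nat_lit 8) (.nd (nat_lit 9) 
(.lf (nat_lit 468205) (.g (nat_lit 3759) (.e (nat_lit 3262) (nat_lit 198) (.e (nat_lit 540706) (nat_lit 12) (.e (nat_lit 360475) (nat_lit 8) (.e (nat_lit 557091) (nat_lit 12) (.e (nat_lit 164022) (nat_lit 46) (.e (nat_lit 704736) (nat_lit 11) (.e (nat_lit 16394) (nat_lit 0) .nil))))))) (.g (nat_lit 1) (.e (nat_lit 79109) (nat_lit 0) .nil) .nil))) 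
(.lf (nat_lit 468717) (.g (nat_lit 2871) (.e (nat_lit 3297) (nat_lit 202) (.e (nat_lit 573492) (nat_lit 15) (.e (nat_lit 81956) (nat_lit 23) (.e (nat_lit 98319) (nat_lit 17) (.e (nat_lit 7589) (nat_lit 406) (.e (nat_lit 73472) (nat_lit 15) .nil)))))) (.g (nat_lit 1) (.e (nat_lit 80882) (nat_lit 0) .nil) .nil)))) (.nd (nat_lit 9) 
(.lf (nat_lit 468461) (.g (nat_lit 3832) (.e (nat_lit 3272) (nat_lit 199) (.e (nat_lit 548913) (nat_lit 18) (.e (nat_lit 172126) (nat_lit 14) (.e (nat_lit 491535) (nat_lit 2) (.e (nat_lit 90176) (nat_lit 15) (.e (nat_lit 188439) (nat_lit 20) .nil)))))) (.g (nat_lit 1) (.e (nat_lit 80069) (nat_lit 0) .nil) .nil))) 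
(.lf (nat_lit 468973) (.g (nat_lit 2375) (.e (nat_lit 3302) (nat_lit 202) (.e (nat_lit 573481) (nat_lit 13) (.e (nat_lit 65619) (nat_lit 10) (.e (nat_lit 344117) (nat_lit 21) (.e (nat_lit 516185) (nat_lit 16) (.e (nat_lit 491552) (nat_lit 9) (.e (nat_lit 336280) (nat_lit 15) .nil))))))) (.g (nat_lit 1) (.e (nat_lit 81674) (nat_lit 0) .nil) .nil)))))))) 
(.nd (nat_lit 5) (.nd (nat_lit 6) (.nd (nat_lit 7) (.nd (nat_lit 8) (.nd (nat_lit 9) 
(.lf (nat_lit 467997) (.g (nat_lit 2199) (.e (nat_lit 3245) (nat_lit 197) (.e (nat_lit 532504) (nat_lit 1) (.e (nat_lit 57851) (nat_lit 252) (.e (nat_lit 57406) (nat_lit 12) (.e (nat_lit 336367) (nat_lit 27) .nil))))) (.g (nat_lit 0) (.e (nat_lit 78778) (nat_lit 0) .nil) .nil))) 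
(.lf (nat_lit 468509) (.g (nat_lit 1684) (.e (nat_lit 3295) (nat_lit 202) (.e (nat_lit 573485) (nat_lit 13) (.e (nat_lit 65619) (nat_lit 10) (.e (nat_lit 344117) (nat_lit 21) (.e (nat_lit 516185) (nat_lit 16) .nil))))) (.g (nat_lit 0) (.e (nat_lit 80179) (nat_lit 0) .nil) .nil)))) (.nd (nat_lit 9) 
(.lf (nat_lit 468253) (.g (nat_lit 1171) (.e (nat_lit 7936) (nat_lit 195) (.e (nat_lit 516129) (nat_lit 3) (.e (nat_lit 221210) (nat_lit 22) (.e (nat_lit 196668) (nat_lit 14) .nil)))) (.g (nat_lit 0) (.e (nat_lit 79196) (nat_lit 0) .nil) .nil))) 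
(.lf (nat_lit 468765) (.g (nat_lit 1038) (.e (nat_lit 3297) (nat_lit 202) (.e (nat_lit 573493) (nat_lit 15) (.e (nat_lit 81956) (nat_lit 23) .nil))) (.g (nat_lit 0) (.e (nat_lit 80982) (nat_lit 0) .nil) .nil))))) (.nd (nat_lit 8) (.nd (nat_lit 9) 
(.lf (nat_lit 468125) (.g (nat_lit 3151) (.e (nat_lit 3262) (nat_lit 198) (.e (nat_lit 540706) (nat_lit 12) (.e (nat_lit 360475) (nat_lit 8) (.e (nat_lit 557086) (nat_lit 11) (.e (nat_lit 24664) (nat_lit 14) (.e (nat_lit 401410) (nat_lit 0) .nil)))))) (.g (nat_lit 1) (.e (nat_lit 79016) (nat_lit 0) .nil) .nil))) 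
(.lf (nat_lit 468637) (.g (nat_lit 1344) (.e (nat_lit 3297) (nat_lit 202) (.e (nat_lit 573481) (nat_lit 13) (.e (nat_lit 65619) (nat_lit 10) (.e (nat_lit 344126) (nat_lit 25) .nil)))) (.g (nat_lit 0) (.e (nat_lit 80506) (nat_lit 0) .nil) .nil)))) (.nd (nat_lit 9) 
(.lf (nat_lit 468381) (.g (nat_lit 2974) (.e (nat_lit 3271) (nat_lit 199) (.e (nat_lit 548913) (nat_lit 18) (.e (nat_lit 172126) (nat_lit 14) (.e (nat_lit 491535) (nat_lit 2) (.e (nat_lit 90176) (nat_lit 15) .nil))))) (.g (nat_lit 0) (.e (nat_lit 79616) (nat_lit 0) .nil) .nil))) 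
(.lf (nat_lit 468893) (.g (nat_lit 3029) (.e (nat_lit 3298) (nat_lit 202) (.e (nat_lit 573492) (nat_lit 15) (.e (nat_lit 81956) (nat_lit 23) (.e (nat_lit 98387) (nat_lit 33) (.e (nat_lit 491549) (nat_lit 9) (.e (nat_lit 336306) (nat_lit 15) .nil)))))) (.g (nat_lit 1) (.e (nat_lit 81480) (nat_lit 0) .nil) .nil)))))) (.nd (nat_lit 7) (.nd (nat_lit 8) (.nd (nat_lit 9) 
(.lf (nat_lit 468061) (.g (nat_lit 1660) (.e (nat_lit 3259) (nat_lit 198) (.e (nat_lit 540706) (nat_lit 12) (.e (nat_lit 360475) (nat_lit 8) (.e (nat_lit 557087) (nat_lit 11) .nil)))) (.g (nat_lit 0) (.e (nat_lit 78863) (nat_lit 0) .nil) .nil))) 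
(.lf (nat_lit 468573) (.g (nat_lit 3181) (.e (nat_lit 3297) (nat_lit 202) (.e (nat_lit 573471) (nat_lit 11) (.e (nat_lit 16425) (nat_lit 7) (.e (nat_lit 409616) (nat_lit 10) (.e (nat_lit 7936) (nat_lit 43) (.e (nat_lit 516164) (nat_lit 11) (.e (nat_lit 442407) (nat_lit 20) .nil))))))) (.g (nat_lit 1) (.e (nat_lit 80374) (nat_lit 0) .nil) .nil)))) (.nd (nat_lit 9) 
(.lf (nat_lit 468317) (.g (nat_lit 2594) (.e (nat_lit 3270) (nat_lit 199) (.e (nat_lit 548913) (nat_lit 18) (.e (nat_lit 172124) (nat_lit 14) (.e (nat_lit 491535) (nat_lit 2) (.e (nat_lit 90176) (nat_lit 15) .nil))))) (.g (nat_lit 0) (.e (nat_lit 79385) (nat_lit 0) .nil) .nil))) 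
(.lf (nat_lit 468829) (.g (nat_lit 3426) (.e (nat_lit 3298) (nat_lit 202) (.e (nat_lit 573482) (nat_lit 13) (.e (nat_lit 65619) (nat_lit 10) (.e (nat_lit 344117) (nat_lit 21) (.e (nat_lit 516106) (nat_lit 0) (.e (nat_lit 6986) (nat_lit 377) (.e (nat_lit 2781) (nat_lit 178) (.e (nat_lit 286765) (nat_lit 15) .nil)))))))) (.g (nat_lit 1) (.e (nat_lit 81109) (nat_lit 0) .nil) .nil))))) 
(.nd (nat_lit 8) (.nd (nat_lit 9) 
(.lf (nat_lit 468189) (.g (nat_lit 4244) (.e (nat_lit 3262) (nat_lit 198) (.e (nat_lit 540706) (nat_lit 12) (.e (nat_lit 360475) (nat_lit 8) (.e (nat_lit 557091) (nat_lit 12) (.e (nat_lit 163844) (nat_lit 0) (.e (nat_lit 6420) (nat_lit 341) (.e (nat_lit 163908) (nat_lit 12) (.e (nat_lit 426003) (nat_lit 0) .nil)))))))) (.g (nat_lit 1) (.e (nat_lit 79091) (nat_lit 0) .nil) .nil))) 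
(.lf (nat_lit 468701) (.g (nat_lit 2315) (.e (nat_lit 3297) (nat_lit 202) (.e (nat_lit 573491) (nat_lit 15) (.e (nat_lit 81954) (nat_lit 23) (.e (nat_lit 98389) (nat_lit 33) (.e (nat_lit 491556) (nat_lit 9) (.e (nat_lit 336305) (nat_lit 15) .nil)))))) (.g (nat_lit 1) (.e (nat_lit 80781) (nat_lit 0) .nil) .nil)))) (.nd (nat_lit 9) 
(.lf (nat_lit 468445) (.g (nat_lit 3801) (.e (nat_lit 3272) (nat_lit 199) (.e (nat_lit 548913) (nat_lit 18) (.e (nat_lit 172125) (nat_lit 14) (.e (nat_lit 491536) (nat_lit 2) (.e (nat_lit 90176) (nat_lit 15) (.e (nat_lit 188439) (nat_lit 20) .nil)))))) (.g (nat_lit 1) (.e (nat_lit 80048) (nat_lit 0) .nil) .nil))) 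
(.lf (nat_lit 468957) (.g (nat_lit 2681) (.e (nat_lit 3300) (nat_lit 202) (.e (nat_lit 573489) (nat_lit 14) (.e (nat_lit 73755) (nat_lit 8) (.e (nat_lit 557097) (nat_lit 13) .nil)))) (.g (nat_lit 0) (.e (nat_lit 81606) (nat_lit 0) .nil) .nil))))))) (.nd (nat_lit 6) (.nd (nat_lit 7) (.nd (nat_lit 8) (.nd (nat_lit 9) 
(.lf (nat_lit 468029) (.g (nat_lit 4352) (.e (nat_lit 3257) (nat_lit 198) (.e (nat_lit 540706) (nat_lit 12) (.e (nat_lit 360475) (nat_lit 8) (.e (nat_lit 557090) (nat_lit 12) (.e (nat_lit 164020) (nat_lit 45) (.e (nat_lit 696344) (nat_lit 8) (.e (nat_lit 172033) (nat_lit 0) .nil))))))) (.g (nat_lit 1) (.e (nat_lit 78817) (nat_lit 0) .nil) .nil))) 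
(.lf (nat_lit 468541) (.g (nat_lit 4084) (.e (nat_lit 3295) (nat_lit 202) (.e (nat_lit 573493) (nat_lit 15) (.e (nat_lit 81956) (nat_lit 23) (.e (nat_lit 98389) (nat_lit 33) .nil)))) (.g (nat_lit 0) (.e (nat_lit 80272) (nat_lit 0) .nil) .nil)))) (.nd (nat_lit 9) 
(.lf (nat_lit 468285) (.g (nat_lit 1409) (.e (nat_lit 7936) (nat_lit 195) (.e (nat_lit 516179) (nat_lit 15) (.e (nat_lit 475177) (nat_lit 24) (.e (nat_lit 524032) (nat_lit 10) .nil)))) (.g (nat_lit 0) (.e (nat_lit 79228) (nat_lit 0) .nil) .nil))) 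
(.lf (nat_lit 468797) (.g (nat_lit 4210) (.e (nat_lit 3298) (nat_lit 202) (.e (nat_lit 573481) (nat_lit 13) (.e (nat_lit 65619) (nat_lit 10) (.e (nat_lit 344117) (nat_lit 21) (.e (nat_lit 516139) (nat_lit 7) (.e (nat_lit 409641) (nat_lit 17) (.e (nat_lit 294966) (nat_lit 15) .nil))))))) (.g (nat_lit 1) (.e (nat_lit 81055) (nat_lit 0) .nil) .nil))))) (.nd (nat_lit 8) (.nd (nat_lit 9) 
(.lf (nat_lit 468157) (.g (nat_lit 2431) (.e (nat_lit 3262) (nat_lit 198) (.e (nat_lit 540706) (nat_lit 12) (.e (nat_lit 360475) (nat_lit 8) (.e (nat_lit 557090) (nat_lit 12) (.e (nat_lit 164020) (nat_lit 45) (.e (nat_lit 696327) (nat_lit 5) (.e (nat_lit 2873) (nat_lit 184) (.e (nat_lit 426026) (nat_lit 0) .nil)))))))) (.g (nat_lit 1) (.e (nat_lit 79056) (nat_lit 0) .nil) .nil))) 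
(.lf (nat_lit 468669) (.g (nat_lit 2536) (.e (nat_lit 3297) (nat_lit 202) (.e (nat_lit 573484) (nat_lit 13) (.e (nat_lit 65610) (nat_lit 10) (.e (nat_lit 344129) (nat_lit 26) .nil)))) (.g (nat_lit 0) (.e (nat_lit 80549) (nat_lit 0) .nil) .nil)))) (.nd (nat_lit 9) 
(.lf (nat_lit 468413) (.g (nat_lit 3704) (.e (nat_lit 3272) (nat_lit 199) (.e (nat_lit 548913) (nat_lit 18) (.e (nat_lit 172120) (nat_lit 12) (.e (nat_lit 475183) (nat_lit 29) (.e (nat_lit 557107) (nat_lit 15) (.e (nat_lit 188439) (nat_lit 20) .nil)))))) (.g (nat_lit 1) (.e (nat_lit 80015) (nat_lit 0) .nil) .nil))) 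
(.lf (nat_lit 468925) (.g (nat_lit 933) (.e (nat_lit 3298) (nat_lit 202) (.e (nat_lit 573493) (nat_lit 15) (.e (nat_lit 81954) (nat_lit 23) .nil))) (.g (nat_lit 0) (.e (nat_lit 81531) (nat_lit 0) .nil) .nil)))))) (.nd (nat_lit 7) (.nd (nat_lit 8) (.nd (nat_lit 9) 
(.lf (nat_lit 468093) (.g (nat_lit 3070) (.e (nat_lit 3262) (nat_lit 198) (.e (nat_lit 540706) (nat_lit 12) (.e (nat_lit 360474) (nat_lit 8) (.e (nat_lit 557093) (nat_lit 12) (.e (nat_lit 164022) (nat_lit 46) (.e (nat_lit 704736) (nat_lit 11) (.e (nat_lit 16394) (nat_lit 0) .nil))))))) (.g (nat_lit 1) (.e (nat_lit 78932) (nat_lit 0) .nil) .nil))) 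
(.lf (nat_lit 468605) (.g (nat_lit 1399) (.e (nat_lit 3297) (nat_lit 202) (.e (nat_lit 573481) (nat_lit 13) (.e (nat_lit 65619) (nat_lit 10) (.e (nat_lit 344117) (nat_lit 21) .nil)))) (.g (nat_lit 0) (.e (nat_lit 80468) (nat_lit 0) .nil) .nil)))) (.nd (nat_lit 9) 
(.lf (nat_lit 468349) (.g (nat_lit 3298) (.e (nat_lit 3271) (nat_lit 199) (.e (nat_lit 548913) (nat_lit 18) (.e (nat_lit 172120) (nat_lit 12) (.e (nat_lit 475185) (nat_lit 29) (.e (nat_lit 557107) (nat_lit 15) (.e (nat_lit 188438) (nat_lit 20) .nil)))))) (.g (nat_lit 1) (.e (nat_lit 79584) (nat_lit 0) .nil) .nil))) 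
(.lf (nat_lit 468861) (.g (nat_lit 3516) (.e (nat_lit 3298) (nat_lit 202) (.e (nat_lit 573491) (nat_lit 15) (.e (nat_lit 81956) (nat_lit 23) (.e (nat_lit 98389) (nat_lit 33) (.e (nat_lit 491548) (nat_lit 9) .nil))))) (.g (nat_lit 0) (.e (nat_lit 81320) (nat_lit 0) .nil) .nil))))) (.nd (nat_lit 8) (.nd (nat_lit 9) 
(.lf (nat_lit 468221) (.g (nat_lit 1406) (.e (nat_lit 3208) (nat_lit 195) (.e (nat_lit 516130) (nat_lit 3) (.e (nat_lit 221212) (nat_lit 22) (.e (nat_lit 196681) (nat_lit 17) (.e (nat_lit 131094) (nat_lit 2) (.e (nat_lit 98048) (nat_lit 2) (.e (nat_lit 16388) (nat_lit 0) .nil))))))) (.g (nat_lit 1) (.e (nat_lit 79130) (nat_lit 0) .nil) .nil))) 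
(.lf (nat_lit 468733) (.g (nat_lit 6021) (.e (nat_lit 3297) (nat_lit 202) (.e (nat_lit 573492) (nat_lit 15) (.e (nat_lit 81956) (nat_lit 23) (.e (nat_lit 98350) (nat_lit 24) (.e (nat_lit 409642) (nat_lit 17) (.e (nat_lit 294966) (nat_lit 15) .nil)))))) (.g (nat_lit 1) (.e (nat_lit 80927) (nat_lit 0) .nil) .nil)))) (.nd (nat_lit 9) 
(.lf (nat_lit 468477) (.g (nat_lit 3501) (.e (nat_lit 3272) (nat_lit 199) (.e (nat_lit 548913) (nat_lit 18) (.e (nat_lit 172126) (nat_lit 14) (.e (nat_lit 491540) (nat_lit 3) (.e (nat_lit 98370) (nat_lit 28) (.e (nat_lit 442411) (nat_lit 20) .nil)))))) (.g (nat_lit 1) (.e (nat_lit 80086) (nat_lit 0) .nil) .nil))) 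
(.lf (nat_lit 468989) (.g (nat_lit 3399) (.e (nat_lit 3302) (nat_lit 202) (.e (nat_lit 573481) (nat_lit 13) (.e (nat_lit 65630) (nat_lit 14) (.e (nat_lit 401425) (nat_lit 2) (.e (nat_lit 196674) (nat_lit 15) (.e (nat_lit 89856) (nat_lit 0) .nil)))))) (.g (nat_lit 1) (.e (nat_lit 81694) (nat_lit 0) .nil) .nil))))))))))) 
(.nd (nat_lit 2) (.nd (nat_lit 3) (.nd (nat_lit 4) (.nd (nat_lit 5) (.nd (nat_lit 6) 
(.nd (nat_lit 7) (.nd (nat_lit 8) (.nd (nat_lit 9) 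
(.lf (nat_lit 467971) (.g (nat_lit 4091) (.e (nat_lit 3256) (nat_lit 197) (.e (nat_lit 532550) (nat_lit 12) (.e (nat_lit 360475) (nat_lit 8) (.e (nat_lit 557091) (nat_lit 12) .nil)))) (.g (nat_lit 0) (.e (nat_lit 78751) (nat_lit 0) .nil) .nil))) 
(.lf (nat_lit 468483) (.g (nat_lit 1226) (.e (nat_lit 3295) (nat_lit 202) (.e (nat_lit 573471) (nat_lit 11) (.e (nat_lit 16425) (nat_lit 7) .nil))) (.g (nat_lit 0) (.e (nat_lit 80128) (nat_lit 0) .nil) .nil)))) (.nd (nat_lit 9) 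
(.lf (nat_lit 468227) (.g (nat_lit 1582) (.e (nat_lit 3211) (nat_lit 195) (.e (nat_lit 516129) (nat_lit 3) (.e (nat_lit 221210) (nat_lit 22) (.e (nat_lit 196664) (nat_lit 13) .nil)))) (.g (nat_lit 0) (.e (nat_lit 79143) (nat_lit 0) .nil) .nil))) 
(.lf (nat_lit 468739) (.g (nat_lit 2733) (.e (nat_lit 3297) (nat_lit 202) (.e (nat_lit 573492) (nat_lit 15) (.e (nat_lit 81956) (nat_lit 23) (.e (nat_lit 98385) (nat_lit 32) .nil)))) (.g (nat_lit 0) (.e (nat_lit 80953) (nat_lit 0) .nil) .nil))))) (.nd (nat_lit 8) (.nd (nat_lit 9) 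
(.lf (nat_lit 468099) (.g (nat_lit 3090) (.e (nat_lit 3262) (nat_lit 198) (.e (nat_lit 540706) (nat_lit 12) (.e (nat_lit 360474) (nat_lit 8) (.e (nat_lit 557093) (nat_lit 12) (.e (nat_lit 164023) (nat_lit 46) (.e (nat_lit 704735) (nat_lit 11) (.e (nat_lit 16391) (nat_lit 0) .nil))))))) (.g (nat_lit 1) (.e (nat_lit 78938) (nat_lit 0) .nil) .nil))) 
(.lf (nat_lit 468611) (.g (nat_lit 2159) (.e (nat_lit 3297) (nat_lit 202) (.e (nat_lit 573481) (nat_lit 13) (.e (nat_lit 65619) (nat_lit 10) (.e (nat_lit 344117) (nat_lit 21) (.e (nat_lit 516106) (nat_lit 0) .nil))))) (.g (nat_lit 0) (.e (nat_lit 80474) (nat_lit 0) .nil) .nil)))) (.nd (nat_lit 9) 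
(.lf (nat_lit 468355) (.g (nat_lit 1563) (.e (nat_lit 3271) (nat_lit 199) (.e (nat_lit 548913) (nat_lit 18) (.e (nat_lit 172124) (nat_lit 14) (.e (nat_lit 491524) (nat_lit 0) .nil)))) (.g (nat_lit 0) (.e (nat_lit 79590) (nat_lit 0) .nil) .nil))) 
(.lf (nat_lit 468867) (.g (nat_lit 4090) (.e (nat_lit 3298) (nat_lit 202) (.e (nat_lit 573492) (nat_lit 15) (.e (nat_lit 81953) (nat_lit 22) (.e (nat_lit 90164) (nat_lit 12) .nil)))) (.g (nat_lit 0) (.e (nat_lit 81381) (nat_lit 0) .nil) .nil)))))) (.nd (nat_lit 7) (.nd (nat_lit 8) (.nd (nat_lit 9) 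
(.lf (nat_lit 468035) (.g (nat_lit 2090) (.e (nat_lit 3258) (nat_lit 198) (.e (nat_lit 540703) (nat_lit 11) (.e (nat_lit 352315) (nat_lit 23) (.e (nat_lit 98350) (nat_lit 24) (.e (nat_lit 409649) (nat_lit 18) (.e (nat_lit 303111) (nat_lit 0) .nil)))))) (.g (nat_lit 1) (.e (nat_lit 78823) (nat_lit 0) .nil) .nil))) 
(.lf (nat_lit 468547) (.g (nat_lit 2726) (.e (nat_lit 3296) (nat_lit 202) (.e (nat_lit 573476) (nat_lit 12) (.e (nat_lit 57574) (nat_lit 55) (.e (nat_lit 778466) (nat_lit 11) (.e (nat_lit 24604) (nat_lit 2) .nil))))) (.g (nat_lit 0) (.e (nat_lit 80287) (nat_lit 0) .nil) .nil)))) (.nd (nat_lit 9) 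
(.lf (nat_lit 468291) (.g (nat_lit 139) (.e (nat_lit 3224) (nat_lit 196) (.e (nat_lit 524340) (nat_lit 28) (.e (nat_lit 360192) (nat_lit 19) .nil))) (.g (nat_lit 0) (.e (nat_lit 79236) (nat_lit 0) .nil) .nil))) 
(.lf (nat_lit 468803) (.g (nat_lit 1013) (.e (nat_lit 3298) (nat_lit 202) (.e (nat_lit 573481) (nat_lit 13) (.e (nat_lit 65619) (nat_lit 10) (.e (nat_lit 344129) (nat_lit 26) .nil)))) (.g (nat_lit 0) (.e (nat_lit 81080) (nat_lit 0) .nil) .nil))))) (.nd (nat_lit 8) (.nd (nat_lit 9) 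
(.lf (nat_lit 468163) (.g (nat_lit 2296) (.e (nat_lit 3262) (nat_lit 198) (.e (nat_lit 540706) (nat_lit 12) (.e (nat_lit 360475) (nat_lit 8) (.e (nat_lit 557090) (nat_lit 12) (.e (nat_lit 164020) (nat_lit 45) (.e (nat_lit 696328) (nat_lit 5) (.e (nat_lit 2884) (nat_lit 184) (.e (nat_lit 426020) (nat_lit 0) .nil)))))))) (.g (nat_lit 1) (.e (nat_lit 79062) (nat_lit 0) .nil) .nil))) 
(.lf (nat_lit 468675) (.g (nat_lit 3073) (.e (nat_lit 3297) (nat_lit 202) (.e (nat_lit 573484) (nat_lit 13) (.e (nat_lit 65617) (nat_lit 10) (.e (nat_lit 344133) (nat_lit 26) (.e (nat_lit 557086) (nat_lit 11) (.e (nat_lit 24630) (nat_lit 9) (.e (nat_lit 336306) (nat_lit 15) .nil))))))) (.g (nat_lit 1) (.e (nat_lit 80555) (nat_lit 0) .nil) .nil)))) (.nd (nat_lit 9) 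
(.lf (nat_lit 468419) (.g (nat_lit 2490) (.e (nat_lit 3272) (nat_lit 199) (.e (nat_lit 548913) (nat_lit 18) (.e (nat_lit 172120) (nat_lit 12) (.e (nat_lit 475184) (nat_lit 29) (.e (nat_lit 557107) (nat_lit 15) (.e (nat_lit 188439) (nat_lit 20) .nil)))))) (.g (nat_lit 1) (.e (nat_lit 80021) (nat_lit 0) .nil) .nil))) 
(.lf (nat_lit 468931) (.g (nat_lit 4139) (.e (nat_lit 3298) (nat_lit 202) (.e (nat_lit 573493) (nat_lit 15) (.e (nat_lit 81956) (nat_lit 23) (.e (nat_lit 98320) (nat_lit 17) (.e (nat_lit 7587) (nat_lit 406) (.e (nat_lit 73472) (nat_lit 15) .nil)))))) (.g (nat_lit 1) (.e (nat_lit 81538) (nat_lit 0) .nil) .nil))))))) (.nd (nat_lit 6) (.nd (nat_lit 7) (.nd (nat_lit 8) (.nd (nat_lit 9) 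
(.lf (nat_lit 468003) (.g (nat_lit 2766) (.e (nat_lit 3246) (nat_lit 197) (.e (nat_lit 532503) (nat_lit 1) (.e (nat_lit 57931) (nat_lit 282) (.e (nat_lit 163869) (nat_lit 2) (.e (nat_lit 196668) (nat_lit 14) (.e (nat_lit 73747) (nat_lit 3) (.e (nat_lit 516131) (nat_lit 3) (.e (nat_lit 221197) (nat_lit 20) .nil)))))))) (.g (nat_lit 1) (.e (nat_lit 78786) (nat_lit 0) .nil) .nil))) 
(.lf (nat_lit 468515) (.g (nat_lit 3078) (.e (nat_lit 3295) (nat_lit 202) (.e (nat_lit 573485) (nat_lit 13) (.e (nat_lit 65619) (nat_lit 10) (.e (nat_lit 344129) (nat_lit 26) (.e (nat_lit 557087) (nat_lit 11) (.e (nat_lit 24638) (nat_lit 9) (.e (nat_lit 336293) (nat_lit 15) .nil))))))) (.g (nat_lit 1) (.e (nat_lit 80186) (nat_lit 0) .nil) .nil)))) (.nd (nat_lit 9) 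
(.lf (nat_lit 468259) (.g (nat_lit 961) (.e (nat_lit 7936) (nat_lit 195) (.e (nat_lit 516160) (nat_lit 10) (.e (nat_lit 434244) (nat_lit 28) (.e (nat_lit 573488) (nat_lit 14) .nil)))) (.g (nat_lit 0) (.e (nat_lit 79202) (nat_lit 0) .nil) .nil))) 
(.lf (nat_lit 468771) (.g (nat_lit 4044) (.e (nat_lit 3298) (nat_lit 202) (.e (nat_lit 573471) (nat_lit 11) (.e (nat_lit 16470) (nat_lit 14) (.e (nat_lit 491535) (nat_lit 2) .nil)))) (.g (nat_lit 0) (.e (nat_lit 80993) (nat_lit 0) .nil) .nil))))) (.nd (nat_lit 8) (.nd (nat_lit 9) 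
(.lf (nat_lit 468131) (.g (nat_lit 5426) (.e (nat_lit 3262) (nat_lit 198) (.e (nat_lit 540706) (nat_lit 12) (.e (nat_lit 360475) (nat_lit 8) (.e (nat_lit 557087) (nat_lit 11) (.e (nat_lit 24662) (nat_lit 14) (.e (nat_lit 401410) (nat_lit 0) .nil)))))) (.g (nat_lit 1) (.e (nat_lit 79022) (nat_lit 0) .nil) .nil))) 
(.lf (nat_lit 468643) (.g (nat_lit 4390) (.e (nat_lit 3297) (nat_lit 202) (.e (nat_lit 573481) (nat_lit 13) (.e (nat_lit 65619) (nat_lit 10) (.e (nat_lit 344129) (nat_lit 26) (.e (nat_lit 557087) (nat_lit 11) (.e (nat_lit 24628) (nat_lit 9) (.e (nat_lit 336306) (nat_lit 15) .nil))))))) (.g (nat_lit 1) (.e (nat_lit 80521) (nat_lit 0) .nil) .nil)))) (.nd (nat_lit 9) 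
(.lf (nat_lit 468387) (.g (nat_lit 3199) (.e (nat_lit 3271) (nat_lit 199) (.e (nat_lit 548913) (nat_lit 18) (.e (nat_lit 172126) (nat_lit 14) (.e (nat_lit 491538) (nat_lit 3) (.e (nat_lit 98370) (nat_lit 28) .nil))))) (.g (nat_lit 0) (.e (nat_lit 79622) (nat_lit 0) .nil) .nil))) 
(.lf (nat_lit 468899) (.g (nat_lit 2289) (.e (nat_lit 3298) (nat_lit 202) (.e (nat_lit 573492) (nat_lit 15) (.e (nat_lit 81956) (nat_lit 23) (.e (nat_lit 98389) (nat_lit 33) (.e (nat_lit 491546) (nat_lit 9) .nil))))) (.g (nat_lit 0) (.e (nat_lit 81486) (nat_lit 0) .nil) .nil)))))) (.nd (nat_lit 7) (.nd (nat_lit 8) (.nd (nat_lit 9) 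
(.lf (nat_lit 468067) (.g (nat_lit 2411) (.e (nat_lit 3260) (nat_lit 198) (.e (nat_lit 540706) (nat_lit 12) (.e (nat_lit 360475) (nat_lit 8) (.e (nat_lit 557086) (nat_lit 11) (.e (nat_lit 24664) (nat_lit 14) .nil))))) (.g (nat_lit 0) (.e (nat_lit 78885) (nat_lit 0) .nil) .nil))) 
(.lf (nat_lit 468579) (.g (nat_lit 3034) (.e (nat_lit 3297) (nat_lit 202) (.e (nat_lit 573471) (nat_lit 11) (.e (nat_lit 16455) (nat_lit 12) (.e (nat_lit 475185) (nat_lit 29) (.e (nat_lit 557107) (nat_lit 15) (.e (nat_lit 188440) (nat_lit 20) .nil)))))) (.g (nat_lit 1) (.e (nat_lit 80390) (nat_lit 0) .nil) .nil)))) (.nd (nat_lit 9) 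
(.lf (nat_lit 468323) (.g (nat_lit 464) (.e (nat_lit 3270) (nat_lit 199) (.e (nat_lit 548913) (nat_lit 18) (.e (nat_lit 172125) (nat_lit 14) .nil))) (.g (nat_lit 0) (.e (nat_lit 79391) (nat_lit 0) .nil) .nil))) 
(.lf (nat_lit 468835) (.g (nat_lit 1488) (.e (nat_lit 3298) (nat_lit 202) (.e (nat_lit 573482) (nat_lit 13) (.e (nat_lit 65619) (nat_lit 10) (.e (nat_lit 344126) (nat_lit 25) .nil)))) (.g (nat_lit 0) (.e (nat_lit 81115) (nat_lit 0) .nil) .nil))))) (.nd (nat_lit 8) (.nd (nat_lit 9) 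
(.lf (nat_lit 468195) (.g (nat_lit 3126) (.e (nat_lit 3262) (nat_lit 198) (.e (nat_lit 540706) (nat_lit 12) (.e (nat_lit 360475) (nat_lit 8) (.e (nat_lit 557091) (nat_lit 12) (.e (nat_lit 164016) (nat_lit 44) (.e (nat_lit 688139) (nat_lit 5) (.e (nat_lit 2887) (nat_lit 184) (.e (nat_lit 426032) (nat_lit 0) .nil)))))))) (.g (nat_lit 1) (.e (nat_lit 79099) (nat_lit 0) .nil) .nil))) 
(.lf (nat_lit 468707) (.g (nat_lit 2297) (.e (nat_lit 3297) (nat_lit 202) (.e (nat_lit 573491) (nat_lit 15) (.e (nat_lit 81956) (nat_lit 23) (.e (nat_lit 98389) (nat_lit 33) .nil)))) (.g (nat_lit 0) (.e (nat_lit 80788) (nat_lit 0) .nil) .nil)))) (.nd (nat_lit 9) 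
(.lf (nat_lit 468451) (.g (nat_lit 3549) (.e (nat_lit 3272) (nat_lit 199) (.e (nat_lit 548913) (nat_lit 18) (.e (nat_lit 172125) (nat_lit 14) (.e (nat_lit 491537) (nat_lit 2) (.e (nat_lit 90177) (nat_lit 15) (.e (nat_lit 188434) (nat_lit 20) .nil)))))) (.g (nat_lit 1) (.e (nat_lit 80054) (nat_lit 0) .nil) .nil))) 
(.lf (nat_lit 468963) (.g (nat_lit 2359) (.e (nat_lit 3302) (nat_lit 202) (.e (nat_lit 573480) (nat_lit 13) (.e (nat_lit 65630) (nat_lit 14) (.e (nat_lit 401428) (nat_lit 3) (.e (nat_lit 204865) (nat_lit 28) (.e (nat_lit 352261) (nat_lit 0) .nil)))))) (.g (nat_lit 1) (.e (nat_lit 81660) (nat_lit 0) .nil) .nil)))))))) 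
(.nd (nat_lit 5) (.nd (nat_lit 6) (.nd (nat_lit 7) (.nd (nat_lit 8) (.nd (nat_lit 9) 
(.lf (nat_lit 467987) (.g (nat_lit 3256) (.e (nat_lit 3244) (nat_lit 197) (.e (nat_lit 532503) (nat_lit 1) (.e (nat_lit 57931) (nat_lit 282) (.e (nat_lit 163874) (nat_lit 3) (.e (nat_lit 204854) (nat_lit 26) (.e (nat_lit 336019) (nat_lit 3) (.e (nat_lit 98342) (nat_lit 20) (.e (nat_lit 221198) (nat_lit 20) .nil)))))))) (.g (nat_lit 1) (.e (nat_lit 78767) (nat_lit 0) .nil) .nil))) 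
(.lf (nat_lit 468499) (.g (nat_lit 2289) (.e (nat_lit 3295) (nat_lit 202) (.e (nat_lit 573484) (nat_lit 13) (.e (nat_lit 65610) (nat_lit 10) (.e (nat_lit 344129) (nat_lit 26) .nil)))) (.g (nat_lit 0) (.e (nat_lit 80152) (nat_lit 0) .nil) .nil)))) (.nd (nat_lit 9) 
(.lf (nat_lit 468243) (.g (nat_lit 3286) (.e (nat_lit 3214) (nat_lit 195) (.e (nat_lit 516129) (nat_lit 3) (.e (nat_lit 221210) (nat_lit 22) (.e (nat_lit 196666) (nat_lit 13) (.e (nat_lit 65568) (nat_lit 2) (.e (nat_lit 98048) (nat_lit 2) (.e (nat_lit 16388) (nat_lit 0) .nil))))))) (.g (nat_lit 1) (.e (nat_lit 79175) (nat_lit 0) .nil) .nil))) 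
(.lf (nat_lit 468755) (.g (nat_lit 3877) (.e (nat_lit 3297) (nat_lit 202) (.e (nat_lit 573492) (nat_lit 15) (.e (nat_lit 81956) (nat_lit 23) (.e (nat_lit 98389) (nat_lit 33) (.e (nat_lit 491548) (nat_lit 9) (.e (nat_lit 336306) (nat_lit 15) .nil)))))) (.g (nat_lit 1) (.e (nat_lit 80969) (nat_lit 0) .nil) .nil))))) (.nd (nat_lit 8) (.nd (nat_lit 9) 
(.lf (nat_lit 468115) (.g (nat_lit 3551) (.e (nat_lit 3262) (nat_lit 198) (.e (nat_lit 540706) (nat_lit 12) (.e (nat_lit 360475) (nat_lit 8) (.e (nat_lit 557067) (nat_lit 9) (.e (nat_lit 214) (nat_lit 19) (.e (nat_lit 319491) (nat_lit 0) (.e (nat_lit 5664) (nat_lit 312) (.e (nat_lit 2440) (nat_lit 157) .nil)))))))) (.g (nat_lit 1) (.e (nat_lit 78971) (nat_lit 0) .nil) .nil))) 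
(.lf (nat_lit 468627) (.g (nat_lit 4209) (.e (nat_lit 3297) (nat_lit 202) (.e (nat_lit 573481) (nat_lit 13) (.e (nat_lit 65619) (nat_lit 10) (.e (nat_lit 344117) (nat_lit 21) (.e (nat_lit 516184) (nat_lit 16) (.e (nat_lit 491549) (nat_lit 9) (.e (nat_lit 336306) (nat_lit 15) .nil))))))) (.g (nat_lit 1) (.e (nat_lit 80496) (nat_lit 0) .nil) .nil)))) (.nd (nat_lit 9) 
(.lf (nat_lit 468371) (.g (nat_lit 3801) (.e (nat_lit 3271) (nat_lit 199) (.e (nat_lit 548913) (nat_lit 18) (.e (nat_lit 172125) (nat_lit 14) (.e (nat_lit 491537) (nat_lit 2) (.e (nat_lit 90176) (nat_lit 15) (.e (nat_lit 188439) (nat_lit 20) .nil)))))) (.g (nat_lit 1) (.e (nat_lit 79606) (nat_lit 0) .nil) .nil))) 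
(.lf (nat_lit 468883) (.g (nat_lit 3391) (.e (nat_lit 3298) (nat_lit 202) (.e (nat_lit 573492) (nat_lit 15) (.e (nat_lit 81956) (nat_lit 23) (.e (nat_lit 98325) (nat_lit 17) (.e (nat_lit 6986) (nat_lit 377) (.e (nat_lit 2782) (nat_lit 178) (.e (nat_lit 286765) (nat_lit 15) .nil))))))) (.g (nat_lit 1) (.e (nat_lit 81422) (nat_lit 0) .nil) .nil)))))) 
(.nd (nat_lit 7) (.nd (nat_lit 8) (.nd (nat_lit 9) 
(.lf (nat_lit 468051) (.g (nat_lit 2286) (.e (nat_lit 3258) (nat_lit 198) (.e (nat_lit 540706) (nat_lit 12) (.e (nat_lit 360475) (nat_lit 8) (.e (nat_lit 557090) (nat_lit 12) (.e (nat_lit 164020) (nat_lit 45) (.e (nat_lit 696343) (nat_lit 8) (.e (nat_lit 172051) (nat_lit 0) .nil))))))) (.g (nat_lit 1) (.e (nat_lit 78850) (nat_lit 0) .nil) .nil))) 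
(.lf (nat_lit 468563) (.g (nat_lit 3142) (.e (nat_lit 3296) (nat_lit 202) (.e (nat_lit 573492) (nat_lit 15) (.e (nat_lit 81956) (nat_lit 23) (.e (nat_lit 98389) (nat_lit 33) (.e (nat_lit 491552) (nat_lit 9) (.e (nat_lit 343808) (nat_lit 15) .nil)))))) (.g (nat_lit 1) (.e (nat_lit 80337) (nat_lit 0) .nil) .nil)))) (.nd (nat_lit 9) 
(.lf (nat_lit 468307) (.g (nat_lit 3803) (.e (nat_lit 3270) (nat_lit 199) (.e (nat_lit 548913) (nat_lit 18) (.e (nat_lit 172120) (nat_lit 12) (.e (nat_lit 475183) (nat_lit 29) (.e (nat_lit 557109) (nat_lit 15) (.e (nat_lit 188435) (nat_lit 20) .nil)))))) (.g (nat_lit 1) (.e (nat_lit 79375) (nat_lit 0) .nil) .nil))) 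
(.lf (nat_lit 468819) (.g (nat_lit 3678) (.e (nat_lit 3298) (nat_lit 202) (.e (nat_lit 573481) (nat_lit 13) (.e (nat_lit 65630) (nat_lit 14) (.e (nat_lit 401425) (nat_lit 2) (.e (nat_lit 196681) (nat_lit 17) (.e (nat_lit 131109) (nat_lit 9) (.e (nat_lit 336306) (nat_lit 15) .nil))))))) (.g (nat_lit 1) (.e (nat_lit 81097) (nat_lit 0) .nil) .nil))))) (.nd (nat_lit 8) (.nd (nat_lit 9) 
(.lf (nat_lit 468179) (.g (nat_lit 3039) (.e (nat_lit 3262) (nat_lit 198) (.e (nat_lit 540706) (nat_lit 12) (.e (nat_lit 360475) (nat_lit 8) (.e (nat_lit 557091) (nat_lit 12) (.e (nat_lit 163843) (nat_lit 0) (.e (nat_lit 6416) (nat_lit 341) (.e (nat_lit 163902) (nat_lit 12) (.e (nat_lit 425986) (nat_lit 0) .nil)))))))) (.g (nat_lit 1) (.e (nat_lit 79081) (nat_lit 0) .nil) .nil))) 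
(.lf (nat_lit 468691) (.g (nat_lit 2534) (.e (nat_lit 3297) (nat_lit 202) (.e (nat_lit 573491) (nat_lit 15) (.e (nat_lit 81954) (nat_lit 23) (.e (nat_lit 98387) (nat_lit 33) (.e (nat_lit 491549) (nat_lit 9) (.e (nat_lit 336306) (nat_lit 15) .nil)))))) (.g (nat_lit 1) (.e (nat_lit 80771) (nat_lit 0) .nil) .nil)))) (.nd (nat_lit 9) 
(.lf (nat_lit 468435) (.g (nat_lit 4562) (.e (nat_lit 3272) (nat_lit 199) (.e (nat_lit 548913) (nat_lit 18) (.e (nat_lit 172124) (nat_lit 14) (.e (nat_lit 491537) (nat_lit 2) (.e (nat_lit 90177) (nat_lit 15) (.e (nat_lit 188434) (nat_lit 20) .nil)))))) (.g (nat_lit 1) (.e (nat_lit 80038) (nat_lit 0) .nil) .nil))) 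
(.lf (nat_lit 468947) (.g (nat_lit 4070) (.e (nat_lit 3298) (nat_lit 202) (.e (nat_lit 573493) (nat_lit 15) (.e (nat_lit 81956) (nat_lit 23) (.e (nat_lit 98388) (nat_lit 33) (.e (nat_lit 491548) (nat_lit 9) (.e (nat_lit 336306) (nat_lit 15) .nil)))))) (.g (nat_lit 1) (.e (nat_lit 81572) (nat_lit 0) .nil) .nil))))))) (.nd (nat_lit 6) (.nd (nat_lit 7) (.nd (nat_lit 8) (.nd (nat_lit 9) 
(.lf (nat_lit 468019) (.g (nat_lit 514) (.e (nat_lit 7936) (nat_lit 197) (.e (nat_lit 532522) (nat_lit 7) (.e (nat_lit 319530) (nat_lit 16) .nil))) (.g (nat_lit 0) (.e (nat_lit 78802) (nat_lit 0) .nil) .nil))) 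
(.lf (nat_lit 468531) (.g (nat_lit 4716) (.e (nat_lit 3295) (nat_lit 202) (.e (nat_lit 573492) (nat_lit 15) (.e (nat_lit 81956) (nat_lit 23) (.e (nat_lit 98389) (nat_lit 33) (.e (nat_lit 491556) (nat_lit 9) (.e (nat_lit 336272) (nat_lit 15) .nil)))))) (.g (nat_lit 1) (.e (nat_lit 80239) (nat_lit 0) .nil) .nil)))) (.nd (nat_lit 9) 
(.lf (nat_lit 468275) (.g (nat_lit 2024) (.e (nat_lit 7936) (nat_lit 195) (.e (nat_lit 516160) (nat_lit 10) (.e (nat_lit 434248) (nat_lit 28) (.e (nat_lit 573480) (nat_lit 13) (.e (nat_lit 65571) (nat_lit 3) .nil))))) (.g (nat_lit 0) (.e (nat_lit 79218) (nat_lit 0) .nil) .nil))) 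
(.lf (nat_lit 468787) (.g (nat_lit 1886) (.e (nat_lit 3298) (nat_lit 202) (.e (nat_lit 573481) (nat_lit 13) (.e (nat_lit 65619) (nat_lit 10) (.e (nat_lit 344117) (nat_lit 21) (.e (nat_lit 516097) (nat_lit 0) .nil))))) (.g (nat_lit 0) (.e (nat_lit 81037) (nat_lit 0) .nil) .nil))))) (.nd (nat_lit 8) (.nd (nat_lit 9) 
(.lf (nat_lit 468147) (.g (nat_lit 2886) (.e (nat_lit 3262) (nat_lit 198) (.e (nat_lit 540706) (nat_lit 12) (.e (nat_lit 360475) (nat_lit 8) (.e (nat_lit 557089) (nat_lit 12) (.e (nat_lit 164017) (nat_lit 44) .nil))))) (.g (nat_lit 0) (.e (nat_lit 79042) (nat_lit 0) .nil) .nil))) 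
(.lf (nat_lit 468659) (.g (nat_lit 3889) (.e (nat_lit 3297) (nat_lit 202) (.e (nat_lit 573481) (nat_lit 13) (.e (nat_lit 65630) (nat_lit 14) (.e (nat_lit 401425) (nat_lit 2) (.e (nat_lit 196681) (nat_lit 17) (.e (nat_lit 131109) (nat_lit 9) (.e (nat_lit 336306) (nat_lit 15) .nil))))))) (.g (nat_lit 1) (.e (nat_lit 80537) (nat_lit 0) .nil) .nil)))) (.nd (nat_lit 9) 
(.lf (nat_lit 468403) (.g (nat_lit 2470) (.e (nat_lit 3272) (nat_lit 199) (.e (nat_lit 548911) (nat_lit 18) (.e (nat_lit 172126) (nat_lit 14) (.e (nat_lit 491537) (nat_lit 2) (.e (nat_lit 90176) (nat_lit 15) (.e (nat_lit 188439) (nat_lit 20) .nil)))))) (.g (nat_lit 1) (.e (nat_lit 79821) (nat_lit 0) .nil) .nil))) 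
(.lf (nat_lit 468915) (.g (nat_lit 2629) (.e (nat_lit 3298) (nat_lit 202) (.e (nat_lit 573493) (nat_lit 15) (.e (nat_lit 81953) (nat_lit 22) (.e (nat_lit 90133) (nat_lit 9) .nil)))) (.g (nat_lit 0) (.e (nat_lit 81515) (nat_lit 0) .nil) .nil)))))) (.nd (nat_lit 7) (.nd (nat_lit 8) (.nd (nat_lit 9) 
(.lf (nat_lit 468083) (.g (nat_lit 848) (.e (nat_lit 3262) (nat_lit 198) (.e (nat_lit 540706) (nat_lit 12) (.e (nat_lit 360474) (nat_lit 8) (.e (nat_lit 557093) (nat_lit 12) .nil)))) (.g (nat_lit 0) (.e (nat_lit 78922) (nat_lit 0) .nil) .nil))) 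
(.lf (nat_lit 468595) (.g (nat_lit 2237) (.e (nat_lit 3297) (nat_lit 202) (.e (nat_lit 573480) (nat_lit 13) (.e (nat_lit 65630) (nat_lit 14) (.e (nat_lit 401428) (nat_lit 3) (.e (nat_lit 204866) (nat_lit 28) (.e (nat_lit 360192) (nat_lit 0) .nil)))))) (.g (nat_lit 1) (.e (nat_lit 80413) (nat_lit 0) .nil) .nil)))) (.nd (nat_lit 9) 
(.lf (nat_lit 468339) (.g (nat_lit 766) (.e (nat_lit 3271) (nat_lit 199) (.e (nat_lit 548913) (nat_lit 18) (.e (nat_lit 172082) (nat_lit 7) (.e (nat_lit 409612) (nat_lit 10) .nil)))) (.g (nat_lit 0) (.e (nat_lit 79493) (nat_lit 0) .nil) .nil))) 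
(.lf (nat_lit 468851) (.g (nat_lit 2398) (.e (nat_lit 3298) (nat_lit 202) (.e (nat_lit 573491) (nat_lit 15) (.e (nat_lit 81954) (nat_lit 23) (.e (nat_lit 98389) (nat_lit 33) (.e (nat_lit 491546) (nat_lit 9) (.e (nat_lit 336306) (nat_lit 15) .nil)))))) (.g (nat_lit 1) (.e (nat_lit 81309) (nat_lit 0) .nil) .nil))))) (.nd (nat_lit 8) (.nd (nat_lit 9) 
(.lf (nat_lit 468211) (.g (nat_lit 4018) (.e (nat_lit 3262) (nat_lit 198) (.e (nat_lit 540706) (nat_lit 12) (.e (nat_lit 360475) (nat_lit 8) (.e (nat_lit 557091) (nat_lit 12) (.e (nat_lit 164022) (nat_lit 46) (.e (nat_lit 704738) (nat_lit 11) (.e (nat_lit 24320) (nat_lit 0) .nil))))))) (.g (nat_lit 1) (.e (nat_lit 79115) (nat_lit 0) .nil) .nil))) 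
(.lf (nat_lit 468723) (.g (nat_lit 2298) (.e (nat_lit 3297) (nat_lit 202) (.e (nat_lit 573492) (nat_lit 15) (.e (nat_lit 81956) (nat_lit 23) (.e (nat_lit 98323) (nat_lit 17) (.e (nat_lit 7936) (nat_lit 406) (.e (nat_lit 73472) (nat_lit 15) .nil)))))) (.g (nat_lit 1) (.e (nat_lit 80891) (nat_lit 0) .nil) .nil)))) (.nd (nat_lit 9) 
(.lf (nat_lit 468467) (.g (nat_lit 3202) (.e (nat_lit 3272) (nat_lit 199) (.e (nat_lit 548913) (nat_lit 18) (.e (nat_lit 172126) (nat_lit 14) (.e (nat_lit 491537) (nat_lit 2) (.e (nat_lit 90176) (nat_lit 15) (.e (nat_lit 188434) (nat_lit 20) .nil)))))) (.g (nat_lit 1) (.e (nat_lit 80075) (nat_lit 0) .nil) .nil))) 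
(.lf (nat_lit 468979) (.g (nat_lit 3102) (.e (nat_lit 3302) (nat_lit 202) (.e (nat_lit 573481) (nat_lit 13) (.e (nat_lit 65624) (nat_lit 12) (.e (nat_lit 385074) (nat_lit 31) (.e (nat_lit 573491) (nat_lit 15) (.e (nat_lit 89856) (nat_lit 0) .nil)))))) (.g (nat_lit 1) (.e (nat_lit 81684) (nat_lit 0) .nil) .nil))))))))) 
(.nd (nat_lit 4) (.nd (nat_lit 5) (.nd (nat_lit 6) (.nd (nat_lit 7) (.nd (nat_lit 8) 
(.nd (nat_lit 9) 
(.lf (nat_lit 467979) (.g (nat_lit 5662) (.e (nat_lit 3256) (nat_lit 197) (.e (nat_lit 532550) (nat_lit 12) (.e (nat_lit 360475) (nat_lit 8) (.e (nat_lit 557091) (nat_lit 12) (.e (nat_lit 164022) (nat_lit 46) (.e (nat_lit 704738) (nat_lit 11) (.e (nat_lit 16390) (nat_lit 0) .nil))))))) (.g (nat_lit 1) (.e (nat_lit 78759) (nat_lit 0) .nil) .nil))) 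
(.lf (nat_lit 468491) (.g (nat_lit 1249) (.e (nat_lit 3295) (nat_lit 202) (.e (nat_lit 573482) (nat_lit 13) (.e (nat_lit 65619) (nat_lit 10) (.e (nat_lit 344115) (nat_lit 20) .nil)))) (.g (nat_lit 0) (.e (nat_lit 80142) (nat_lit 0) .nil) .nil)))) (.nd (nat_lit 9) 
(.lf (nat_lit 468235) (.g (nat_lit 1338) (.e (nat_lit 3213) (nat_lit 195) (.e (nat_lit 516129) (nat_lit 3) (.e (nat_lit 221210) (nat_lit 22) (.e (nat_lit 196668) (nat_lit 14) .nil)))) (.g (nat_lit 0) (.e (nat_lit 79156) (nat_lit 0) .nil) .nil))) 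
(.lf (nat_lit 468747) (.g (nat_lit 3329) (.e (nat_lit 3297) (nat_lit 202) (.e (nat_lit 573492) (nat_lit 15) (.e (nat_lit 81956) (nat_lit 23) (.e (nat_lit 98387) (nat_lit 33) (.e (nat_lit 491549) (nat_lit 9) (.e (nat_lit 336306) (nat_lit 15) .nil)))))) (.g (nat_lit 1) (.e (nat_lit 80961) (nat_lit 0) .nil) .nil))))) (.nd (nat_lit 8) (.nd (nat_lit 9) 
(.lf (nat_lit 468107) (.g (nat_lit 2987) (.e (nat_lit 3262) (nat_lit 198) (.e (nat_lit 540706) (nat_lit 12) (.e (nat_lit 360474) (nat_lit 8) (.e (nat_lit 557094) (nat_lit 12) (.e (nat_lit 164022) (nat_lit 46) (.e (nat_lit 704736) (nat_lit 11) (.e (nat_lit 16391) (nat_lit 0) .nil))))))) (.g (nat_lit 1) (.e (nat_lit 78946) (nat_lit 0) .nil) .nil))) 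
(.lf (nat_lit 468619) (.g (nat_lit 3725) (.e (nat_lit 3297) (nat_lit 202) (.e (nat_lit 573481) (nat_lit 13) (.e (nat_lit 65619) (nat_lit 10) (.e (nat_lit 344117) (nat_lit 21) (.e (nat_lit 516180) (nat_lit 15) (.e (nat_lit 475208) (nat_lit 41) (.e (nat_lit 712719) (nat_lit 15) .nil))))))) (.g (nat_lit 1) (.e (nat_lit 80488) (nat_lit 0) .nil) .nil)))) (.nd (nat_lit 9) 
(.lf (nat_lit 468363) (.g (nat_lit 3157) (.e (nat_lit 3271) (nat_lit 199) (.e (nat_lit 548913) (nat_lit 18) (.e (nat_lit 172124) (nat_lit 14) (.e (nat_lit 491540) (nat_lit 3) (.e (nat_lit 98370) (nat_lit 28) (.e (nat_lit 442412) (nat_lit 20) .nil)))))) (.g (nat_lit 1) (.e (nat_lit 79598) (nat_lit 0) .nil) .nil))) 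
(.lf (nat_lit 468875) (.g (nat_lit 3314) (.e (nat_lit 3298) (nat_lit 202) (.e (nat_lit 573492) (nat_lit 15) (.e (nat_lit 81956) (nat_lit 23) (.e (nat_lit 98320) (nat_lit 17) (.e (nat_lit 7589) (nat_lit 406) (.e (nat_lit 73472) (nat_lit 15) .nil)))))) (.g (nat_lit 1) (.e (nat_lit 81410) (nat_lit 0) .nil) .nil)))))) (.nd (nat_lit 7) (.nd (nat_lit 8) (.nd (nat_lit 9) 
(.lf (nat_lit 468043) (.g (nat_lit 3384) (.e (nat_lit 3258) (nat_lit 198) (.e (nat_lit 540706) (nat_lit 12) (.e (nat_lit 360475) (nat_lit 8) (.e (nat_lit 557086) (nat_lit 11) (.e (nat_lit 24665) (nat_lit 14) (.e (nat_lit 401415) (nat_lit 0) .nil)))))) (.g (nat_lit 1) (.e (nat_lit 78838) (nat_lit 0) .nil) .nil))) 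
(.lf (nat_lit 468555) (.g (nat_lit 1842) (.e (nat_lit 3296) (nat_lit 202) (.e (nat_lit 573482) (nat_lit 13) (.e (nat_lit 65604) (nat_lit 9) (.e (nat_lit 336028) (nat_lit 3) (.e (nat_lit 98325) (nat_lit 17) .nil))))) (.g (nat_lit 0) (.e (nat_lit 80297) (nat_lit 0) .nil) .nil)))) (.nd (nat_lit 9) 
(.lf (nat_lit 468299) (.g (nat_lit 728) (.e (nat_lit 3269) (nat_lit 199) (.e (nat_lit 548913) (nat_lit 18) (.e (nat_lit 172120) (nat_lit 12) .nil))) (.g (nat_lit 0) (.e (nat_lit 79260) (nat_lit 0) .nil) .nil))) 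
(.lf (nat_lit 468811) (.g (nat_lit 1747) (.e (nat_lit 3298) (nat_lit 202) (.e (nat_lit 573481) (nat_lit 13) (.e (nat_lit 65619) (nat_lit 10) (.e (nat_lit 344129) (nat_lit 26) (.e (nat_lit 557087) (nat_lit 11) (.e (nat_lit 24632) (nat_lit 9) (.e (nat_lit 343808) (nat_lit 15) .nil))))))) (.g (nat_lit 1) (.e (nat_lit 81089) (nat_lit 0) .nil) .nil))))) (.nd (nat_lit 8) (.nd (nat_lit 9) 
(.lf (nat_lit 468171) (.g (nat_lit 2803) (.e (nat_lit 3262) (nat_lit 198) (.e (nat_lit 540706) (nat_lit 12) (.e (nat_lit 360475) (nat_lit 8) (.e (nat_lit 557090) (nat_lit 12) (.e (nat_lit 164020) (nat_lit 45) (.e (nat_lit 696342) (nat_lit 8) (.e (nat_lit 172040) (nat_lit 0) .nil))))))) (.g (nat_lit 1) (.e (nat_lit 79071) (nat_lit 0) .nil) .nil))) 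
(.lf (nat_lit 468683) (.g (nat_lit 3999) (.e (nat_lit 3297) (nat_lit 202) (.e (nat_lit 573491) (nat_lit 15) (.e (nat_lit 81954) (nat_lit 23) (.e (nat_lit 98384) (nat_lit 32) (.e (nat_lit 475209) (nat_lit 41) (.e (nat_lit 712719) (nat_lit 15) .nil)))))) (.g (nat_lit 1) (.e (nat_lit 80763) (nat_lit 0) .nil) .nil)))) (.nd (nat_lit 9) 
(.lf (nat_lit 468427) (.g (nat_lit 1693) (.e (nat_lit 3272) (nat_lit 199) (.e (nat_lit 548913) (nat_lit 18) (.e (nat_lit 172124) (nat_lit 14) (.e (nat_lit 491524) (nat_lit 0) .nil)))) (.g (nat_lit 0) (.e (nat_lit 80030) (nat_lit 0) .nil) .nil))) 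
(.lf (nat_lit 468939) (.g (nat_lit 3146) (.e (nat_lit 3298) (nat_lit 202) (.e (nat_lit 573493) (nat_lit 15) (.e (nat_lit 81956) (nat_lit 23) (.e (nat_lit 106240) (nat_lit 17) .nil)))) (.g (nat_lit 0) (.e (nat_lit 81552) (nat_lit 0) .nil) .nil))))))) (.nd (nat_lit 6) (.nd (nat_lit 7) (.nd (nat_lit 8) (.nd (nat_lit 9) 
(.lf (nat_lit 468011) (.g (nat_lit 1092) (.e (nat_lit 3246) (nat_lit 197) (.e (nat_lit 532510) (nat_lit 2) (.e (nat_lit 106536) (nat_lit 11) (.e (nat_lit 16413) (nat_lit 2) (.e (nat_lit 196674) (nat_lit 15) (.e (nat_lit 89856) (nat_lit 0) .nil)))))) (.g (nat_lit 1) (.e (nat_lit 78794) (nat_lit 0) .nil) .nil))) 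
(.lf (nat_lit 468523) (.g (nat_lit 4528) (.e (nat_lit 3295) (nat_lit 202) (.e (nat_lit 573492) (nat_lit 15) (.e (nat_lit 81956) (nat_lit 23) (.e (nat_lit 98320) (nat_lit 17) (.e (nat_lit 7587) (nat_lit 406) (.e (nat_lit 65637) (nat_lit 15) .nil)))))) (.g (nat_lit 1) (.e (nat_lit 80222) (nat_lit 0) .nil) .nil)))) (.nd (nat_lit 9) 
(.lf (nat_lit 468267) (.g (nat_lit 2040) (.e (nat_lit 7936) (nat_lit 195) (.e (nat_lit 516160) (nat_lit 10) (.e (nat_lit 434245) (nat_lit 28) (.e (nat_lit 573488) (nat_lit 14) (.e (nat_lit 73740) (nat_lit 1) .nil))))) (.g (nat_lit 0) (.e (nat_lit 79210) (nat_lit 0) .nil) .nil))) 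
(.lf (nat_lit 468779) (.g (nat_lit 1638) (.e (nat_lit 3298) (nat_lit 202) (.e (nat_lit 573481) (nat_lit 13) (.e (nat_lit 65604) (nat_lit 9) (.e (nat_lit 336013) (nat_lit 2) (.e (nat_lit 90165) (nat_lit 12) .nil))))) (.g (nat_lit 0) (.e (nat_lit 81012) (nat_lit 0) .nil) .nil))))) (.nd (nat_lit 8) (.nd (nat_lit 9) 
(.lf (nat_lit 468139) (.g (nat_lit 4372) (.e (nat_lit 3262) (nat_lit 198) (.e (nat_lit 540706) (nat_lit 12) (.e (nat_lit 360475) (nat_lit 8) (.e (nat_lit 557089) (nat_lit 12) (.e (nat_lit 163844) (nat_lit 0) (.e (nat_lit 6420) (nat_lit 341) (.e (nat_lit 163908) (nat_lit 12) (.e (nat_lit 426003) (nat_lit 0) .nil)))))))) (.g (nat_lit 1) (.e (nat_lit 79030) (nat_lit 0) .nil) .nil))) 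
(.lf (nat_lit 468651) (.g (nat_lit 2399) (.e (nat_lit 3297) (nat_lit 202) (.e (nat_lit 573481) (nat_lit 13) (.e (nat_lit 65628) (nat_lit 14) (.e (nat_lit 401425) (nat_lit 2) (.e (nat_lit 196681) (nat_lit 17) (.e (nat_lit 131109) (nat_lit 9) (.e (nat_lit 336306) (nat_lit 15) .nil))))))) (.g (nat_lit 1) (.e (nat_lit 80529) (nat_lit 0) .nil) .nil)))) (.nd (nat_lit 9) 
(.lf (nat_lit 468395) (.g (nat_lit 1895) (.e (nat_lit 3271) (nat_lit 199) (.e (nat_lit 548915) (nat_lit 20) (.e (nat_lit 188419) (nat_lit 0) (.e (nat_lit 1856) (nat_lit 124) (.e (nat_lit 557107) (nat_lit 15) (.e (nat_lit 188440) (nat_lit 20) .nil)))))) (.g (nat_lit 1) (.e (nat_lit 79632) (nat_lit 0) .nil) .nil))) 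
(.lf (nat_lit 468907) (.g (nat_lit 1196) (.e (nat_lit 3298) (nat_lit 202) (.e (nat_lit 573492) (nat_lit 15) (.e (nat_lit 81959) (nat_lit 24) (.e (nat_lit 130816) (nat_lit 140) .nil)))) (.g (nat_lit 0) (.e (nat_lit 81494) (nat_lit 0) .nil) .nil)))))) (.nd (nat_lit 7) (.nd (nat_lit 8) (.nd (nat_lit 9) 
(.lf (nat_lit 468075) (.g (nat_lit 2840) (.e (nat_lit 3262) (nat_lit 198) (.e (nat_lit 540704) (nat_lit 12) (.e (nat_lit 360471) (nat_lit 7) (.e (nat_lit 548889) (nat_lit 9) (.e (nat_lit 65629) (nat_lit 14) (.e (nat_lit 401412) (nat_lit 0) .nil)))))) (.g (nat_lit 1) (.e (nat_lit 78898) (nat_lit 0) .nil) .nil))) 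
(.lf (nat_lit 468587) (.g (nat_lit 4181) (.e (nat_lit 3297) (nat_lit 202) (.e (nat_lit 573471) (nat_lit 11) (.e (nat_lit 16473) (nat_lit 14) (.e (nat_lit 491535) (nat_lit 2) (.e (nat_lit 90176) (nat_lit 15) (.e (nat_lit 188439) (nat_lit 20) .nil)))))) (.g (nat_lit 1) (.e (nat_lit 80399) (nat_lit 0) .nil) .nil)))) (.nd (nat_lit 9) 
(.lf (nat_lit 468331) (.g (nat_lit 3086) (.e (nat_lit 3270) (nat_lit 199) (.e (nat_lit 548913) (nat_lit 18) (.e (nat_lit 172126) (nat_lit 14) (.e (nat_lit 491536) (nat_lit 2) (.e (nat_lit 90176) (nat_lit 15) .nil))))) (.g (nat_lit 0) (.e (nat_lit 79399) (nat_lit 0) .nil) .nil))) 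
(.lf (nat_lit 468843) (.g (nat_lit 1200) (.e (nat_lit 3298) (nat_lit 202) (.e (nat_lit 573491) (nat_lit 15) (.e (nat_lit 81951) (nat_lit 22) (.e (nat_lit 90165) (nat_lit 12) .nil)))) (.g (nat_lit 0) (.e (nat_lit 81280) (nat_lit 0) .nil) .nil))))) (.nd (nat_lit 8) (.nd (nat_lit 9) 
(.lf (nat_lit 468203) (.g (nat_lit 3203) (.e (nat_lit 3262) (nat_lit 198) (.e (nat_lit 540706) (nat_lit 12) (.e (nat_lit 360475) (nat_lit 8) (.e (nat_lit 557091) (nat_lit 12) (.e (nat_lit 164022) (nat_lit 46) (.e (nat_lit 704736) (nat_lit 11) (.e (nat_lit 16390) (nat_lit 0) .nil))))))) (.g (nat_lit 1) (.e (nat_lit 79107) (nat_lit 0) .nil) .nil))) 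
(.lf (nat_lit 468715) (.g (nat_lit 217) (.e (nat_lit 3297) (nat_lit 202) (.e (nat_lit 573492) (nat_lit 15) (.e (nat_lit 81956) (nat_lit 23) .nil))) (.g (nat_lit 0) (.e (nat_lit 80879) (nat_lit 0) .nil) .nil)))) (.nd (nat_lit 9) 
(.lf (nat_lit 468459) (.g (nat_lit 3128) (.e (nat_lit 3272) (nat_lit 199) (.e (nat_lit 548913) (nat_lit 18) (.e (nat_lit 172126) (nat_lit 14) (.e (nat_lit 491524) (nat_lit 0) (.e (nat_lit 1811) (nat_lit 120) (.e (nat_lit 524319) (nat_lit 11) (.e (nat_lit 442411) (nat_lit 20) .nil))))))) (.g (nat_lit 1) (.e (nat_lit 80067) (nat_lit 0) .nil) .nil))) 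
(.lf (nat_lit 468971) (.g (nat_lit 446) (.e (nat_lit 3302) (nat_lit 202) (.e (nat_lit 573481) (nat_lit 13) (.e (nat_lit 65619) (nat_lit 10) .nil))) (.g (nat_lit 0) (.e (nat_lit 81668) (nat_lit 0) .nil) .nil)))))))) (.nd (nat_lit 5) (.nd (nat_lit 6) (.nd (nat_lit 7) (.nd (nat_lit 8) (.nd (nat_lit 9) 
(.lf (nat_lit 467995) (.g (nat_lit 3234) (.e (nat_lit 3245) (nat_lit 197) (.e (nat_lit 532503) (nat_lit 1) (.e (nat_lit 57931) (nat_lit 282) (.e (nat_lit 163867) (nat_lit 2) (.e (nat_lit 196668) (nat_lit 14) (.e (nat_lit 73747) (nat_lit 3) (.e (nat_lit 516129) (nat_lit 3) (.e (nat_lit 221202) (nat_lit 20) .nil)))))))) (.g (nat_lit 1) (.e (nat_lit 78775) (nat_lit 0) .nil) .nil))) 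
(.lf (nat_lit 468507) (.g (nat_lit 1869) (.e (nat_lit 3295) (nat_lit 202) (.e (nat_lit 573485) (nat_lit 13) (.e (nat_lit 65619) (nat_lit 10) (.e (nat_lit 344117) (nat_lit 21) (.e (nat_lit 516106) (nat_lit 0) .nil))))) (.g (nat_lit 0) (.e (nat_lit 80177) (nat_lit 0) .nil) .nil)))) (.nd (nat_lit 9) 
(.lf (nat_lit 468251) (.g (nat_lit 1147) (.e (nat_lit 3214) (nat_lit 195) (.e (nat_lit 516131) (nat_lit 3) (.e (nat_lit 221212) (nat_lit 22) (.e (nat_lit 196664) (nat_lit 13) (.e (nat_lit 65568) (nat_lit 2) (.e (nat_lit 98048) (nat_lit 2) (.e (nat_lit 16386) (nat_lit 0) .nil))))))) (.g (nat_lit 1) (.e (nat_lit 79183) (nat_lit 0) .nil) .nil))) 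
(.lf (nat_lit 468763) (.g (nat_lit 4042) (.e (nat_lit 3297) (nat_lit 202) (.e (nat_lit 573493) (nat_lit 15) (.e (nat_lit 81953) (nat_lit 22) (.e (nat_lit 90133) (nat_lit 9) .nil)))) (.g (nat_lit 0) (.e (nat_lit 80980) (nat_lit 0) .nil) .nil))))) (.nd (nat_lit 8) (.nd (nat_lit 9) 
(.lf (nat_lit 468123) (.g (nat_lit 3174) (.e (nat_lit 3262) (nat_lit 198) (.e (nat_lit 540706) (nat_lit 12) (.e (nat_lit 360475) (nat_lit 8) (.e (nat_lit 557086) (nat_lit 11) (.e (nat_lit 24663) (nat_lit 14) (.e (nat_lit 401410) (nat_lit 0) .nil)))))) (.g (nat_lit 1) (.e (nat_lit 79014) (nat_lit 0) .nil) .nil))) 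
(.lf (nat_lit 468635) (.g (nat_lit 2719) (.e (nat_lit 3297) (nat_lit 202) (.e (nat_lit 573481) (nat_lit 13) (.e (nat_lit 65619) (nat_lit 10) (.e (nat_lit 344117) (nat_lit 21) (.e (nat_lit 516185) (nat_lit 16) (.e (nat_lit 491556) (nat_lit 9) (.e (nat_lit 343808) (nat_lit 15) .nil))))))) (.g (nat_lit 1) (.e (nat_lit 80504) (nat_lit 0) .nil) .nil)))) (.nd (nat_lit 9) 
(.lf (nat_lit 468379) (.g (nat_lit 3272) (.e (nat_lit 3271) (nat_lit 199) (.e (nat_lit 548913) (nat_lit 18) (.e (nat_lit 172126) (nat_lit 14) (.e (nat_lit 491524) (nat_lit 0) (.e (nat_lit 1811) (nat_lit 120) .nil))))) (.g (nat_lit 0) (.e (nat_lit 79614) (nat_lit 0) .nil) .nil))) 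
(.lf (nat_lit 468891) (.g (nat_lit 5833) (.e (nat_lit 3298) (nat_lit 202) (.e (nat_lit 573492) (nat_lit 15) (.e (nat_lit 81956) (nat_lit 23) (.e (nat_lit 98350) (nat_lit 24) (.e (nat_lit 409642) (nat_lit 17) (.e (nat_lit 294966) (nat_lit 15) .nil)))))) (.g (nat_lit 1) (.e (nat_lit 81464) (nat_lit 0) .nil) .nil)))))) (.nd (nat_lit 7) (.nd (nat_lit 8) (.nd (nat_lit 9) 
(.lf (nat_lit 468059) (.g (nat_lit 2728) (.e (nat_lit 3258) (nat_lit 198) (.e (nat_lit 540706) (nat_lit 12) (.e (nat_lit 360475) (nat_lit 8) (.e (nat_lit 557091) (nat_lit 12) (.e (nat_lit 164022) (nat_lit 46) (.e (nat_lit 704738) (nat_lit 11) (.e (nat_lit 16403) (nat_lit 0) .nil))))))) (.g (nat_lit 1) (.e (nat_lit 78859) (nat_lit 0) .nil) .nil))) 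
(.lf (nat_lit 468571) (.g (nat_lit 2821) (.e (nat_lit 3297) (nat_lit 202) (.e (nat_lit 573471) (nat_lit 11) (.e (nat_lit 16425) (nat_lit 7) (.e (nat_lit 409616) (nat_lit 10) (.e (nat_lit 7936) (nat_lit 43) (.e (nat_lit 516164) (nat_lit 11) (.e (nat_lit 442403) (nat_lit 20) .nil))))))) (.g (nat_lit 1) (.e (nat_lit 80372) (nat_lit 0) .nil) .nil)))) (.nd (nat_lit 9) 
(.lf (nat_lit 468315) (.g (nat_lit 3359) (.e (nat_lit 3270) (nat_lit 199) (.e (nat_lit 548913) (nat_lit 18) (.e (nat_lit 172120) (nat_lit 12) (.e (nat_lit 475185) (nat_lit 29) (.e (nat_lit 557109) (nat_lit 15) (.e (nat_lit 188435) (nat_lit 20) .nil)))))) (.g (nat_lit 1) (.e (nat_lit 79383) (nat_lit 0) .nil) .nil))) 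
(.lf (nat_lit 468827) (.g (nat_lit 626) (.e (nat_lit 3298) (nat_lit 202) (.e (nat_lit 573482) (nat_lit 13) (.e (nat_lit 65619) (nat_lit 10) .nil))) (.g (nat_lit 0) (.e (nat_lit 81107) (nat_lit 0) .nil) .nil))))) (.nd (nat_lit 8) (.nd (nat_lit 9) 
(.lf (nat_lit 468187) (.g (nat_lit 3845) (.e (nat_lit 3262) (nat_lit 198) (.e (nat_lit 540706) (nat_lit 12) (.e (nat_lit 360475) (nat_lit 8) (.e (nat_lit 557091) (nat_lit 12) (.e (nat_lit 163844) (nat_lit 0) (.e (nat_lit 6418) (nat_lit 341) (.e (nat_lit 163908) (nat_lit 12) (.e (nat_lit 426003) (nat_lit 0) .nil)))))))) (.g (nat_lit 1) (.e (nat_lit 79089) (nat_lit 0) .nil) .nil))) 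
(.lf (nat_lit 468699) (.g (nat_lit 2961) (.e (nat_lit 3297) (nat_lit 202) (.e (nat_lit 573491) (nat_lit 15) (.e (nat_lit 81954) (nat_lit 23) (.e (nat_lit 98389) (nat_lit 33) (.e (nat_lit 491549) (nat_lit 9) (.e (nat_lit 336306) (nat_lit 15) .nil)))))) (.g (nat_lit 1) (.e (nat_lit 80779) (nat_lit 0) .nil) .nil)))) (.nd (nat_lit 9) 
(.lf (nat_lit 468443) (.g (nat_lit 856) (.e (nat_lit 3272) (nat_lit 199) (.e (nat_lit 548913) (nat_lit 18) (.e (nat_lit 172125) (nat_lit 14) (.e (nat_lit 491524) (nat_lit 0) .nil)))) (.g (nat_lit 0) (.e (nat_lit 80046) (nat_lit 0) .nil) .nil))) 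
(.lf (nat_lit 468955) (.g (nat_lit 3146) (.e (nat_lit 3298) (nat_lit 202) (.e (nat_lit 573493) (nat_lit 15) (.e (nat_lit 81956) (nat_lit 23) (.e (nat_lit 106240) (nat_lit 33) .nil)))) (.g (nat_lit 0) (.e (nat_lit 81580) (nat_lit 0) .nil) .nil))))))) (.nd (nat_lit 6) (.nd (nat_lit 7) (.nd (nat_lit 8) (.nd (nat_lit 9) 
(.lf (nat_lit 468027) (.g (nat_lit 3250) (.e (nat_lit 3257) (nat_lit 198) (.e (nat_lit 540704) (nat_lit 12) (.e (nat_lit 360475) (nat_lit 8) (.e (nat_lit 557090) (nat_lit 12) .nil)))) (.g (nat_lit 0) (.e (nat_lit 78813) (nat_lit 0) .nil) .nil))) 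
(.lf (nat_lit 468539) (.g (nat_lit 2644) (.e (nat_lit 3295) (nat_lit 202) (.e (nat_lit 573493) (nat_lit 15) (.e (nat_lit 81956) (nat_lit 23) (.e (nat_lit 98325) (nat_lit 17) .nil)))) (.g (nat_lit 0) (.e (nat_lit 80261) (nat_lit 0) .nil) .nil)))) (.nd (nat_lit 9) 
(.lf (nat_lit 468283) (.g (nat_lit 1475) (.e (nat_lit 7936) (nat_lit 195) (.e (nat_lit 516179) (nat_lit 15) (.e (nat_lit 475169) (nat_lit 22) (.e (nat_lit 499926) (nat_lit 10) (.e (nat_lit 180251) (nat_lit 10) .nil))))) (.g (nat_lit 0) (.e (nat_lit 79226) (nat_lit 0) .nil) .nil))) 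
(.lf (nat_lit 468795) (.g (nat_lit 4178) (.e (nat_lit 3298) (nat_lit 202) (.e (nat_lit 573481) (nat_lit 13) (.e (nat_lit 65619) (nat_lit 10) (.e (nat_lit 344117) (nat_lit 21) (.e (nat_lit 516106) (nat_lit 0) (.e (nat_lit 6986) (nat_lit 377) (.e (nat_lit 2781) (nat_lit 178) (.e (nat_lit 294656) (nat_lit 15) .nil)))))))) (.g (nat_lit 1) (.e (nat_lit 81048) (nat_lit 0) .nil) .nil))))) 
(.nd (nat_lit 8) (.nd (nat_lit 9) 
(.lf (nat_lit 468155) (.g (nat_lit 2520) (.e (nat_lit 3262) (nat_lit 198) (.e (nat_lit 540706) (nat_lit 12) (.e (nat_lit 360475) (nat_lit 8) (.e (nat_lit 557090) (nat_lit 12) (.e (nat_lit 163844) (nat_lit 0) .nil))))) (.g (nat_lit 0) (.e (nat_lit 79054) (nat_lit 0) .nil) .nil))) 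
(.lf (nat_lit 468667) (.g (nat_lit 2659) (.e (nat_lit 3297) (nat_lit 202) (.e (nat_lit 573482) (nat_lit 13) (.e (nat_lit 65619) (nat_lit 10) (.e (nat_lit 344129) (nat_lit 26) (.e (nat_lit 557074) (nat_lit 9) .nil))))) (.g (nat_lit 0) (.e (nat_lit 80546) (nat_lit 0) .nil) .nil)))) (.nd (nat_lit 9) 
(.lf (nat_lit 468411) (.g (nat_lit 4876) (.e (nat_lit 3272) (nat_lit 199) (.e (nat_lit 548913) (nat_lit 18) (.e (nat_lit 172119) (nat_lit 12) (.e (nat_lit 475185) (nat_lit 29) (.e (nat_lit 557109) (nat_lit 15) (.e (nat_lit 188434) (nat_lit 20) .nil)))))) (.g (nat_lit 1) (.e (nat_lit 80013) (nat_lit 0) .nil) .nil))) 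
(.lf (nat_lit 468923) (.g (nat_lit 1957) (.e (nat_lit 3298) (nat_lit 202) (.e (nat_lit 573493) (nat_lit 15) (.e (nat_lit 81953) (nat_lit 22) (.e (nat_lit 90165) (nat_lit 12) .nil)))) (.g (nat_lit 0) (.e (nat_lit 81524) (nat_lit 0) .nil) .nil)))))) (.nd (nat_lit 7) (.nd (nat_lit 8) (.nd (nat_lit 9) 
(.lf (nat_lit 468091) (.g (nat_lit 2571) (.e (nat_lit 3262) (nat_lit 198) (.e (nat_lit 540706) (nat_lit 12) (.e (nat_lit 360474) (nat_lit 8) (.e (nat_lit 557093) (nat_lit 12) (.e (nat_lit 164022) (nat_lit 46) (.e (nat_lit 704736) (nat_lit 11) (.e (nat_lit 16390) (nat_lit 0) .nil))))))) (.g (nat_lit 1) (.e (nat_lit 78930) (nat_lit 0) .nil) .nil))) 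
(.lf (nat_lit 468603) (.g (nat_lit 3309) (.e (nat_lit 3297) (nat_lit 202) (.e (nat_lit 573481) (nat_lit 13) (.e (nat_lit 65604) (nat_lit 9) (.e (nat_lit 336028) (nat_lit 3) (.e (nat_lit 98387) (nat_lit 33) (.e (nat_lit 491550) (nat_lit 9) (.e (nat_lit 336306) (nat_lit 15) .nil))))))) (.g (nat_lit 1) (.e (nat_lit 80455) (nat_lit 0) .nil) .nil)))) (.nd (nat_lit 9) 
(.lf (nat_lit 468347) (.g (nat_lit 3467) (.e (nat_lit 3271) (nat_lit 199) (.e (nat_lit 548913) (nat_lit 18) (.e (nat_lit 172120) (nat_lit 12) (.e (nat_lit 475183) (nat_lit 29) (.e (nat_lit 557109) (nat_lit 15) (.e (nat_lit 188435) (nat_lit 20) .nil)))))) (.g (nat_lit 1) (.e (nat_lit 79582) (nat_lit 0) .nil) .nil))) 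
(.lf (nat_lit 468859) (.g (nat_lit 2295) (.e (nat_lit 3298) (nat_lit 202) (.e (nat_lit 573491) (nat_lit 15) (.e (nat_lit 81956) (nat_lit 23) (.e (nat_lit 98389) (nat_lit 33) .nil)))) (.g (nat_lit 0) (.e (nat_lit 81318) (nat_lit 0) .nil) .nil))))) (.nd (nat_lit 8) (.nd (nat_lit 9) 
(.lf (nat_lit 468219) (.g (nat_lit 1931) (.e (nat_lit 3208) (nat_lit 195) (.e (nat_lit 516129) (nat_lit 3) (.e (nat_lit 221210) (nat_lit 22) (.e (nat_lit 196668) (nat_lit 14) (.e (nat_lit 81664) (nat_lit 5) .nil))))) (.g (nat_lit 0) (.e (nat_lit 79128) (nat_lit 0) .nil) .nil))) 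
(.lf (nat_lit 468731) (.g (nat_lit 6010) (.e (nat_lit 3297) (nat_lit 202) (.e (nat_lit 573492) (nat_lit 15) (.e (nat_lit 81956) (nat_lit 23) (.e (nat_lit 98350) (nat_lit 24) (.e (nat_lit 409641) (nat_lit 17) (.e (nat_lit 294966) (nat_lit 15) .nil)))))) (.g (nat_lit 1) (.e (nat_lit 80925) (nat_lit 0) .nil) .nil)))) (.nd (nat_lit 9) 
(.lf (nat_lit 468475) (.g (nat_lit 1258) (.e (nat_lit 3272) (nat_lit 199) (.e (nat_lit 548913) (nat_lit 18) (.e (nat_lit 172126) (nat_lit 14) (.e (nat_lit 491540) (nat_lit 3) .nil)))) (.g (nat_lit 0) (.e (nat_lit 80084) (nat_lit 0) .nil) .nil))) 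
(.lf (nat_lit 468987) (.g (nat_lit 2110) (.e (nat_lit 3302) (nat_lit 202) (.e (nat_lit 573481) (nat_lit 13) (.e (nat_lit 65628) (nat_lit 14) (.e (nat_lit 401428) (nat_lit 3) (.e (nat_lit 204877) (nat_lit 31) (.e (nat_lit 384768) (nat_lit 0) .nil)))))) (.g (nat_lit 1) (.e (nat_lit 81692) (nat_lit 0) .nil) .nil)))))))))) 
(.nd (nat_lit 3) (.nd (nat_lit 4) (.nd (nat_lit 5) (.nd (nat_lit 6) (.nd (nat_lit 7) 
(.nd (nat_lit 8) (.nd (nat_lit 9) 
(.lf (nat_lit 467975) (.g (nat_lit 5012) (.e (nat_lit 3256) (nat_lit 197) (.e (nat_lit 532550) (nat_lit 12) (.e (nat_lit 360475) (nat_lit 8) (.e (nat_lit 557091) (nat_lit 12) (.e (nat_lit 164022) (nat_lit 46) (.e (nat_lit 704737) (nat_lit 11) (.e (nat_lit 16390) (nat_lit 0) .nil))))))) (.g (nat_lit 1) (.e (nat_lit 78755) (nat_lit 0) .nil) .nil))) 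
(.lf (nat_lit 468487) (.g (nat_lit 2297) (.e (nat_lit 3295) (nat_lit 202) (.e (nat_lit 573477) (nat_lit 12) (.e (nat_lit 57574) (nat_lit 55) (.e (nat_lit 778466) (nat_lit 11) (.e (nat_lit 24604) (nat_lit 2) (.e (nat_lit 90176) (nat_lit 15) (.e (nat_lit 188439) (nat_lit 20) .nil))))))) (.g (nat_lit 1) (.e (nat_lit 80132) (nat_lit 0) .nil) .nil)))) (.nd (nat_lit 9) 
(.lf (nat_lit 468231) (.g (nat_lit 1066) (.e (nat_lit 3211) (nat_lit 195) (.e (nat_lit 516130) (nat_lit 3) (.e (nat_lit 221215) (nat_lit 23) (.e (nat_lit 204861) (nat_lit 26) .nil)))) (.g (nat_lit 0) (.e (nat_lit 79147) (nat_lit 0) .nil) .nil))) 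
(.lf (nat_lit 468743) (.g (nat_lit 3383) (.e (nat_lit 3297) (nat_lit 202) (.e (nat_lit 573492) (nat_lit 15) (.e (nat_lit 81956) (nat_lit 23) (.e (nat_lit 98386) (nat_lit 32) (.e (nat_lit 475207) (nat_lit 41) .nil))))) (.g (nat_lit 0) (.e (nat_lit 80957) (nat_lit 0) .nil) .nil))))) (.nd (nat_lit 8) (.nd (nat_lit 9) 
(.lf (nat_lit 468103) (.g (nat_lit 1524) (.e (nat_lit 3262) (nat_lit 198) (.e (nat_lit 540706) (nat_lit 12) (.e (nat_lit 360474) (nat_lit 8) (.e (nat_lit 557094) (nat_lit 12) (.e (nat_lit 163849) (nat_lit 0) .nil))))) (.g (nat_lit 0) (.e (nat_lit 78942) (nat_lit 0) .nil) .nil))) 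
(.lf (nat_lit 468615) (.g (nat_lit 3635) (.e (nat_lit 3297) (nat_lit 202) (.e (nat_lit 573481) (nat_lit 13) (.e (nat_lit 65619) (nat_lit 10) (.e (nat_lit 344117) (nat_lit 21) (.e (nat_lit 516144) (nat_lit 9) (.e (nat_lit 426364) (nat_lit 15) (.e (nat_lit 2160) (nat_lit 143) (.e (nat_lit 712719) (nat_lit 15) .nil)))))))) (.g (nat_lit 1) (.e (nat_lit 80484) (nat_lit 0) .nil) .nil)))) 
(.nd (nat_lit 9) 
(.lf (nat_lit 468359) (.g (nat_lit 2498) (.e (nat_lit 3271) (nat_lit 199) (.e (nat_lit 548913) (nat_lit 18) (.e (nat_lit 172124) (nat_lit 14) (.e (nat_lit 491536) (nat_lit 2) (.e (nat_lit 90178) (nat_lit 15) (.e (nat_lit 188440) (nat_lit 20) .nil)))))) (.g (nat_lit 1) (.e (nat_lit 79594) (nat_lit 0) .nil) .nil))) 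
(.lf (nat_lit 468871) (.g (nat_lit 2599) (.e (nat_lit 3298) (nat_lit 202) (.e (nat_lit 573492) (nat_lit 15) (.e (nat_lit 81956) (nat_lit 23) (.e (nat_lit 98319) (nat_lit 17) (.e (nat_lit 7587) (nat_lit 406) (.e (nat_lit 73472) (nat_lit 15) .nil)))))) (.g (nat_lit 1) (.e (nat_lit 81406) (nat_lit 0) .nil) .nil)))))) (.nd (nat_lit 7) (.nd (nat_lit 8) (.nd (nat_lit 9) 
(.lf (nat_lit 468039) (.g (nat_lit 3202) (.e (nat_lit 3258) (nat_lit 198) (.e (nat_lit 540706) (nat_lit 12) (.e (nat_lit 360474) (nat_lit 8) (.e (nat_lit 557094) (nat_lit 12) (.e (nat_lit 164022) (nat_lit 46) (.e (nat_lit 704738) (nat_lit 11) (.e (nat_lit 16397) (nat_lit 0) .nil))))))) (.g (nat_lit 1) (.e (nat_lit 78831) (nat_lit 0) .nil) .nil))) 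
(.lf (nat_lit 468551) (.g (nat_lit 3453) (.e (nat_lit 3296) (nat_lit 202) (.e (nat_lit 573477) (nat_lit 12) (.e (nat_lit 57575) (nat_lit 55) (.e (nat_lit 778465) (nat_lit 11) (.e (nat_lit 24604) (nat_lit 2) (.e (nat_lit 90176) (nat_lit 15) (.e (nat_lit 188439) (nat_lit 20) .nil))))))) (.g (nat_lit 1) (.e (nat_lit 80291) (nat_lit 0) .nil) .nil)))) (.nd (nat_lit 9) 
(.lf (nat_lit 468295) (.g (nat_lit 1819) (.e (nat_lit 3266) (nat_lit 199) (.e (nat_lit 548913) (nat_lit 18) (.e (nat_lit 172126) (nat_lit 14) (.e (nat_lit 491538) (nat_lit 3) .nil)))) (.g (nat_lit 0) (.e (nat_lit 79250) (nat_lit 0) .nil) .nil))) 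
(.lf (nat_lit 468807) (.g (nat_lit 4098) (.e (nat_lit 3298) (nat_lit 202) (.e (nat_lit 573481) (nat_lit 13) (.e (nat_lit 65619) (nat_lit 10) (.e (nat_lit 344129) (nat_lit 26) (.e (nat_lit 557087) (nat_lit 11) (.e (nat_lit 24627) (nat_lit 9) (.e (nat_lit 336306) (nat_lit 15) .nil))))))) (.g (nat_lit 1) (.e (nat_lit 81085) (nat_lit 0) .nil) .nil))))) (.nd (nat_lit 8) (.nd (nat_lit 9) 
(.lf (nat_lit 468167) (.g (nat_lit 2166) (.e (nat_lit 3262) (nat_lit 198) (.e (nat_lit 540706) (nat_lit 12) (.e (nat_lit 360475) (nat_lit 8) (.e (nat_lit 557090) (nat_lit 12) (.e (nat_lit 164020) (nat_lit 45) (.e (nat_lit 696329) (nat_lit 5) (.e (nat_lit 2894) (nat_lit 184) (.e (nat_lit 426032) (nat_lit 0) .nil)))))))) (.g (nat_lit 1) (.e (nat_lit 79067) (nat_lit 0) .nil) .nil))) 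
(.lf (nat_lit 468679) (.g (nat_lit 2431) (.e (nat_lit 3297) (nat_lit 202) (.e (nat_lit 573490) (nat_lit 15) (.e (nat_lit 81956) (nat_lit 23) (.e (nat_lit 98389) (nat_lit 33) .nil)))) (.g (nat_lit 0) (.e (nat_lit 80653) (nat_lit 0) .nil) .nil)))) (.nd (nat_lit 9) 
(.lf (nat_lit 468423) (.g (nat_lit 3520) (.e (nat_lit 3272) (nat_lit 199) (.e (nat_lit 548913) (nat_lit 18) (.e (nat_lit 172120) (nat_lit 12) (.e (nat_lit 475185) (nat_lit 29) (.e (nat_lit 557107) (nat_lit 15) (.e (nat_lit 188441) (nat_lit 20) .nil)))))) (.g (nat_lit 1) (.e (nat_lit 80025) (nat_lit 0) .nil) .nil))) 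
(.lf (nat_lit 468935) (.g (nat_lit 2139) (.e (nat_lit 3298) (nat_lit 202) (.e (nat_lit 573493) (nat_lit 15) (.e (nat_lit 81956) (nat_lit 23) (.e (nat_lit 98325) (nat_lit 17) .nil)))) (.g (nat_lit 0) (.e (nat_lit 81543) (nat_lit 0) .nil) .nil))))))) (.nd (nat_lit 6) (.nd (nat_lit 7) (.nd (nat_lit 8) (.nd (nat_lit 9) 
(.lf (nat_lit 468007) (.g (nat_lit 2258) (.e (nat_lit 3246) (nat_lit 197) (.e (nat_lit 532504) (nat_lit 1) (.e (nat_lit 57851) (nat_lit 252) (.e (nat_lit 57408) (nat_lit 12) .nil)))) (.g (nat_lit 0) (.e (nat_lit 78790) (nat_lit 0) .nil) .nil))) 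
(.lf (nat_lit 468519) (.g (nat_lit 2681) (.e (nat_lit 3295) (nat_lit 202) (.e (nat_lit 573489) (nat_lit 14) (.e (nat_lit 73755) (nat_lit 8) (.e (nat_lit 557097) (nat_lit 13) .nil)))) (.g (nat_lit 0) (.e (nat_lit 80199) (nat_lit 0) .nil) .nil)))) (.nd (nat_lit 9) 
(.lf (nat_lit 468263) (.g (nat_lit 1768) (.e (nat_lit 7936) (nat_lit 195) (.e (nat_lit 516160) (nat_lit 10) (.e (nat_lit 434245) (nat_lit 28) (.e (nat_lit 573481) (nat_lit 13) (.e (nat_lit 65566) (nat_lit 2) .nil))))) (.g (nat_lit 0) (.e (nat_lit 79206) (nat_lit 0) .nil) .nil))) 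
(.lf (nat_lit 468775) (.g (nat_lit 2029) (.e (nat_lit 3298) (nat_lit 202) (.e (nat_lit 573480) (nat_lit 13) (.e (nat_lit 65630) (nat_lit 14) (.e (nat_lit 401428) (nat_lit 3) (.e (nat_lit 204866) (nat_lit 28) (.e (nat_lit 360192) (nat_lit 0) .nil)))))) (.g (nat_lit 1) (.e (nat_lit 81008) (nat_lit 0) .nil) .nil))))) (.nd (nat_lit 8) (.nd (nat_lit 9) 
(.lf (nat_lit 468135) (.g (nat_lit 3981) (.e (nat_lit 3262) (nat_lit 198) (.e (nat_lit 540706) (nat_lit 12) (.e (nat_lit 360475) (nat_lit 8) (.e (nat_lit 557089) (nat_lit 12) (.e (nat_lit 163843) (nat_lit 0) (.e (nat_lit 6416) (nat_lit 341) (.e (nat_lit 163908) (nat_lit 12) (.e (nat_lit 426003) (nat_lit 0) .nil)))))))) (.g (nat_lit 1) (.e (nat_lit 79026) (nat_lit 0) .nil) .nil))) 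
(.lf (nat_lit 468647) (.g (nat_lit 2257) (.e (nat_lit 3297) (nat_lit 202) (.e (nat_lit 573481) (nat_lit 13) (.e (nat_lit 65619) (nat_lit 10) (.e (nat_lit 344129) (nat_lit 26) (.e (nat_lit 557087) (nat_lit 11) (.e (nat_lit 24636) (nat_lit 9) (.e (nat_lit 336305) (nat_lit 15) .nil))))))) (.g (nat_lit 1) (.e (nat_lit 80525) (nat_lit 0) .nil) .nil)))) (.nd (nat_lit 9) 
(.lf (nat_lit 468391) (.g (nat_lit 3274) (.e (nat_lit 3271) (nat_lit 199) (.e (nat_lit 548913) (nat_lit 18) (.e (nat_lit 172126) (nat_lit 14) (.e (nat_lit 491540) (nat_lit 3) (.e (nat_lit 98370) (nat_lit 28) (.e (nat_lit 442412) (nat_lit 20) .nil)))))) (.g (nat_lit 1) (.e (nat_lit 79626) (nat_lit 0) .nil) .nil))) 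
(.lf (nat_lit 468903) (.g (nat_lit 4153) (.e (nat_lit 3298) (nat_lit 202) (.e (nat_lit 573492) (nat_lit 15) (.e (nat_lit 81956) (nat_lit 23) (.e (nat_lit 98389) (nat_lit 33) (.e (nat_lit 491549) (nat_lit 9) (.e (nat_lit 336306) (nat_lit 15) .nil)))))) (.g (nat_lit 1) (.e (nat_lit 81490) (nat_lit 0) .nil) .nil)))))) (.nd (nat_lit 7) (.nd (nat_lit 8) (.nd (nat_lit 9) 
(.lf (nat_lit 468071) (.g (nat_lit 3430) (.e (nat_lit 3260) (nat_lit 198) (.e (nat_lit 540706) (nat_lit 12) (.e (nat_lit 360475) (nat_lit 8) (.e (nat_lit 557091) (nat_lit 12) (.e (nat_lit 164022) (nat_lit 46) (.e (nat_lit 704736) (nat_lit 11) (.e (nat_lit 16385) (nat_lit 0) .nil))))))) (.g (nat_lit 1) (.e (nat_lit 78891) (nat_lit 0) .nil) .nil))) 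
(.lf (nat_lit 468583) (.g (nat_lit 4695) (.e (nat_lit 3297) (nat_lit 202) (.e (nat_lit 573471) (nat_lit 11) (.e (nat_lit 16470) (nat_lit 14) (.e (nat_lit 491537) (nat_lit 2) .nil)))) (.g (nat_lit 0) (.e (nat_lit 80394) (nat_lit 0) .nil) .nil)))) (.nd (nat_lit 9) 
(.lf (nat_lit 468327) (.g (nat_lit 4098) (.e (nat_lit 3270) (nat_lit 199) (.e (nat_lit 548913) (nat_lit 18) (.e (nat_lit 172125) (nat_lit 14) (.e (nat_lit 491537) (nat_lit 2) (.e (nat_lit 90176) (nat_lit 15) (.e (nat_lit 188439) (nat_lit 20) .nil)))))) (.g (nat_lit 1) (.e (nat_lit 79395) (nat_lit 0) .nil) .nil))) 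
(.lf (nat_lit 468839) (.g (nat_lit 1522) (.e (nat_lit 3298) (nat_lit 202) (.e (nat_lit 573482) (nat_lit 13) (.e (nat_lit 65628) (nat_lit 14) (.e (nat_lit 401428) (nat_lit 3) .nil)))) (.g (nat_lit 0) (.e (nat_lit 81119) (nat_lit 0) .nil) .nil))))) (.nd (nat_lit 8) (.nd (nat_lit 9) 
(.lf (nat_lit 468199) (.g (nat_lit 3112) (.e (nat_lit 3262) (nat_lit 198) (.e (nat_lit 540706) (nat_lit 12) (.e (nat_lit 360475) (nat_lit 8) (.e (nat_lit 557091) (nat_lit 12) (.e (nat_lit 164022) (nat_lit 46) (.e (nat_lit 704626) (nat_lit 9) (.e (nat_lit 375) (nat_lit 32) (.e (nat_lit 426032) (nat_lit 0) .nil)))))))) (.g (nat_lit 1) (.e (nat_lit 79103) (nat_lit 0) .nil) .nil))) 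
(.lf (nat_lit 468711) (.g (nat_lit 1140) (.e (nat_lit 3297) (nat_lit 202) (.e (nat_lit 573492) (nat_lit 15) (.e (nat_lit 81951) (nat_lit 22) (.e (nat_lit 90165) (nat_lit 12) .nil)))) (.g (nat_lit 0) (.e (nat_lit 80829) (nat_lit 0) .nil) .nil)))) (.nd (nat_lit 9) 
(.lf (nat_lit 468455) (.g (nat_lit 2739) (.e (nat_lit 3272) (nat_lit 199) (.e (nat_lit 548913) (nat_lit 18) (.e (nat_lit 172126) (nat_lit 14) (.e (nat_lit 491521) (nat_lit 0) .nil)))) (.g (nat_lit 0) (.e (nat_lit 80058) (nat_lit 0) .nil) .nil))) 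
(.lf (nat_lit 468967) (.g (nat_lit 2097) (.e (nat_lit 3302) (nat_lit 202) (.e (nat_lit 573480) (nat_lit 13) (.e (nat_lit 65630) (nat_lit 14) (.e (nat_lit 401428) (nat_lit 3) (.e (nat_lit 204876) (nat_lit 31) (.e (nat_lit 376833) (nat_lit 0) .nil)))))) (.g (nat_lit 1) (.e (nat_lit 81664) (nat_lit 0) .nil) .nil)))))))) 
(.nd (nat_lit 5) (.nd (nat_lit 6) (.nd (nat_lit 7) (.nd (nat_lit 8) (.nd (nat_lit 9) 
(.lf (nat_lit 467991) (.g (nat_lit 883) (.e (nat_lit 3244) (nat_lit 197) (.e (nat_lit 532511) (nat_lit 2) (.e (nat_lit 106534) (nat_lit 11) (.e (nat_lit 16413) (nat_lit 2) (.e (nat_lit 196672) (nat_lit 15) .nil))))) (.g (nat_lit 0) (.e (nat_lit 78771) (nat_lit 0) .nil) .nil))) 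
(.lf (nat_lit 468503) (.g (nat_lit 1796) (.e (nat_lit 3295) (nat_lit 202) (.e (nat_lit 573485) (nat_lit 13) (.e (nat_lit 65604) (nat_lit 9) (.e (nat_lit 336013) (nat_lit 2) (.e (nat_lit 90165) (nat_lit 12) (.e (nat_lit 171776) (nat_lit 194) (.e (nat_lit 131131) (nat_lit 15) .nil))))))) (.g (nat_lit 1) (.e (nat_lit 80165) (nat_lit 0) .nil) .nil)))) (.nd (nat_lit 9) 
(.lf (nat_lit 468247) (.g (nat_lit 1974) (.e (nat_lit 3214) (nat_lit 195) (.e (nat_lit 516129) (nat_lit 3) (.e (nat_lit 221210) (nat_lit 22) (.e (nat_lit 196668) (nat_lit 14) (.e (nat_lit 81664) (nat_lit 5) (.e (nat_lit 532579) (nat_lit 26) (.e (nat_lit 426012) (nat_lit 0) .nil))))))) (.g (nat_lit 1) (.e (nat_lit 79179) (nat_lit 0) .nil) .nil))) 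
(.lf (nat_lit 468759) (.g (nat_lit 2834) (.e (nat_lit 3297) (nat_lit 202) (.e (nat_lit 573492) (nat_lit 15) (.e (nat_lit 81956) (nat_lit 23) (.e (nat_lit 98389) (nat_lit 33) (.e (nat_lit 491556) (nat_lit 9) (.e (nat_lit 343808) (nat_lit 15) .nil)))))) (.g (nat_lit 1) (.e (nat_lit 80973) (nat_lit 0) .nil) .nil))))) (.nd (nat_lit 8) (.nd (nat_lit 9) 
(.lf (nat_lit 468119) (.g (nat_lit 7006) (.e (nat_lit 3262) (nat_lit 198) (.e (nat_lit 540706) (nat_lit 12) (.e (nat_lit 360475) (nat_lit 8) (.e (nat_lit 557085) (nat_lit 11) (.e (nat_lit 24662) (nat_lit 14) (.e (nat_lit 401410) (nat_lit 0) .nil)))))) (.g (nat_lit 1) (.e (nat_lit 79000) (nat_lit 0) .nil) .nil))) 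
(.lf (nat_lit 468631) (.g (nat_lit 4083) (.e (nat_lit 3297) (nat_lit 202) (.e (nat_lit 573481) (nat_lit 13) (.e (nat_lit 65619) (nat_lit 10) (.e (nat_lit 344117) (nat_lit 21) (.e (nat_lit 516185) (nat_lit 16) (.e (nat_lit 491548) (nat_lit 9) (.e (nat_lit 336306) (nat_lit 15) .nil))))))) (.g (nat_lit 1) (.e (nat_lit 80500) (nat_lit 0) .nil) .nil)))) (.nd (nat_lit 9) 
(.lf (nat_lit 468375) (.g (nat_lit 1900) (.e (nat_lit 3271) (nat_lit 199) (.e (nat_lit 548913) (nat_lit 18) (.e (nat_lit 172126) (nat_lit 14) (.e (nat_lit 491522) (nat_lit 0) .nil)))) (.g (nat_lit 0) (.e (nat_lit 79610) (nat_lit 0) .nil) .nil))) 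
(.lf (nat_lit 468887) (.g (nat_lit 2926) (.e (nat_lit 3298) (nat_lit 202) (.e (nat_lit 573492) (nat_lit 15) (.e (nat_lit 81956) (nat_lit 23) (.e (nat_lit 98350) (nat_lit 24) (.e (nat_lit 409640) (nat_lit 17) (.e (nat_lit 294966) (nat_lit 15) .nil)))))) (.g (nat_lit 1) (.e (nat_lit 81460) (nat_lit 0) .nil) .nil)))))) (.nd (nat_lit 7) (.nd (nat_lit 8) (.nd (nat_lit 9) 
(.lf (nat_lit 468055) (.g (nat_lit 3762) (.e (nat_lit 3258) (nat_lit 198) (.e (nat_lit 540706) (nat_lit 12) (.e (nat_lit 360475) (nat_lit 8) (.e (nat_lit 557090) (nat_lit 12) (.e (nat_lit 164020) (nat_lit 45) (.e (nat_lit 696344) (nat_lit 8) (.e (nat_lit 172052) (nat_lit 0) .nil))))))) (.g (nat_lit 1) (.e (nat_lit 78854) (nat_lit 0) .nil) .nil))) 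
(.lf (nat_lit 468567) (.g (nat_lit 2615) (.e (nat_lit 3297) (nat_lit 202) (.e (nat_lit 573450) (nat_lit 9) (.e (nat_lit 375) (nat_lit 32) (.e (nat_lit 426173) (nat_lit 7) (.e (nat_lit 409616) (nat_lit 10) (.e (nat_lit 7936) (nat_lit 43) (.e (nat_lit 516151) (nat_lit 9) (.e (nat_lit 426211) (nat_lit 9) (.e (nat_lit 426041) (nat_lit 0) .nil))))))))) (.g (nat_lit 1) (.e (nat_lit 80360) (nat_lit 0) .nil) .nil)))) 
(.nd (nat_lit 9) 
(.lf (nat_lit 468311) (.g (nat_lit 3316) (.e (nat_lit 3270) (nat_lit 199) (.e (nat_lit 548913) (nat_lit 18) (.e (nat_lit 172120) (nat_lit 12) (.e (nat_lit 475185) (nat_lit 29) (.e (nat_lit 557107) (nat_lit 15) (.e (nat_lit 188438) (nat_lit 20) .nil)))))) (.g (nat_lit 1) (.e (nat_lit 79379) (nat_lit 0) .nil) .nil))) 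
(.lf (nat_lit 468823) (.g (nat_lit 3060) (.e (nat_lit 3298) (nat_lit 202) (.e (nat_lit 573482) (nat_lit 13) (.e (nat_lit 65604) (nat_lit 9) (.e (nat_lit 336013) (nat_lit 2) (.e (nat_lit 90134) (nat_lit 9) (.e (nat_lit 3098) (nat_lit 192) (.e (nat_lit 491549) (nat_lit 9) (.e (nat_lit 336306) (nat_lit 15) .nil)))))))) (.g (nat_lit 1) (.e (nat_lit 81103) (nat_lit 0) .nil) .nil))))) 
(.nd (nat_lit 8) (.nd (nat_lit 9) 
(.lf (nat_lit 468183) (.g (nat_lit 4418) (.e (nat_lit 3262) (nat_lit 198) (.e (nat_lit 540706) (nat_lit 12) (.e (nat_lit 360475) (nat_lit 8) (.e (nat_lit 557091) (nat_lit 12) (.e (nat_lit 163843) (nat_lit 0) (.e (nat_lit 6420) (nat_lit 341) (.e (nat_lit 163908) (nat_lit 12) (.e (nat_lit 426003) (nat_lit 0) .nil)))))))) (.g (nat_lit 1) (.e (nat_lit 79085) (nat_lit 0) .nil) .nil))) 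
(.lf (nat_lit 468695) (.g (nat_lit 2453) (.e (nat_lit 3297) (nat_lit 202) (.e (nat_lit 573491) (nat_lit 15) (.e (nat_lit 81954) (nat_lit 23) (.e (nat_lit 98388) (nat_lit 33) (.e (nat_lit 491550) (nat_lit 9) (.e (nat_lit 336306) (nat_lit 15) .nil)))))) (.g (nat_lit 1) (.e (nat_lit 80775) (nat_lit 0) .nil) .nil)))) (.nd (nat_lit 9) 
(.lf (nat_lit 468439) (.g (nat_lit 2298) (.e (nat_lit 3272) (nat_lit 199) (.e (nat_lit 548913) (nat_lit 18) (.e (nat_lit 172124) (nat_lit 14) (.e (nat_lit 491540) (nat_lit 3) (.e (nat_lit 98370) (nat_lit 28) (.e (nat_lit 442402) (nat_lit 20) .nil)))))) (.g (nat_lit 1) (.e (nat_lit 80042) (nat_lit 0) .nil) .nil))) 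
(.lf (nat_lit 468951) (.g (nat_lit 4303) (.e (nat_lit 3298) (nat_lit 202) (.e (nat_lit 573493) (nat_lit 15) (.e (nat_lit 81956) (nat_lit 23) (.e (nat_lit 98389) (nat_lit 33) (.e (nat_lit 491547) (nat_lit 9) (.e (nat_lit 336306) (nat_lit 15) .nil)))))) (.g (nat_lit 1) (.e (nat_lit 81576) (nat_lit 0) .nil) .nil))))))) (.nd (nat_lit 6) (.nd (nat_lit 7) (.nd (nat_lit 8) (.nd (nat_lit 9) 
(.lf (nat_lit 468023) (.g (nat_lit 4102) (.e (nat_lit 7936) (nat_lit 197) (.e (nat_lit 532569) (nat_lit 16) (.e (nat_lit 401451) (nat_lit 12) (.e (nat_lit 475185) (nat_lit 29) (.e (nat_lit 557109) (nat_lit 15) .nil))))) (.g (nat_lit 0) (.e (nat_lit 78809) (nat_lit 0) .nil) .nil))) 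
(.lf (nat_lit 468535) (.g (nat_lit 5838) (.e (nat_lit 3295) (nat_lit 202) (.e (nat_lit 573493) (nat_lit 15) (.e (nat_lit 81956) (nat_lit 23) (.e (nat_lit 98320) (nat_lit 17) (.e (nat_lit 7587) (nat_lit 406) (.e (nat_lit 65637) (nat_lit 15) .nil)))))) (.g (nat_lit 1) (.e (nat_lit 80257) (nat_lit 0) .nil) .nil)))) (.nd (nat_lit 9) 
(.lf (nat_lit 468279) (.g (nat_lit 2763) (.e (nat_lit 7936) (nat_lit 195) (.e (nat_lit 516160) (nat_lit 10) (.e (nat_lit 434248) (nat_lit 28) (.e (nat_lit 573489) (nat_lit 14) (.e (nat_lit 73741) (nat_lit 1) .nil))))) (.g (nat_lit 0) (.e (nat_lit 79222) (nat_lit 0) .nil) .nil))) 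
(.lf (nat_lit 468791) (.g (nat_lit 2782) (.e (nat_lit 3298) (nat_lit 202) (.e (nat_lit 573481) (nat_lit 13) (.e (nat_lit 65619) (nat_lit 10) (.e (nat_lit 344117) (nat_lit 21) (.e (nat_lit 516098) (nat_lit 0) (.e (nat_lit 7587) (nat_lit 406) (.e (nat_lit 73472) (nat_lit 15) .nil))))))) (.g (nat_lit 1) (.e (nat_lit 81041) (nat_lit 0) .nil) .nil))))) (.nd (nat_lit 8) (.nd (nat_lit 9) 
(.lf (nat_lit 468151) (.g (nat_lit 2276) (.e (nat_lit 3262) (nat_lit 198) (.e (nat_lit 540706) (nat_lit 12) (.e (nat_lit 360475) (nat_lit 8) (.e (nat_lit 557090) (nat_lit 12) (.e (nat_lit 163843) (nat_lit 0) .nil))))) (.g (nat_lit 0) (.e (nat_lit 79050) (nat_lit 0) .nil) .nil))) 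
(.lf (nat_lit 468663) (.g (nat_lit 1944) (.e (nat_lit 3297) (nat_lit 202) (.e (nat_lit 573481) (nat_lit 13) (.e (nat_lit 65630) (nat_lit 14) (.e (nat_lit 401428) (nat_lit 3) (.e (nat_lit 204876) (nat_lit 31) .nil))))) (.g (nat_lit 0) (.e (nat_lit 80542) (nat_lit 0) .nil) .nil)))) (.nd (nat_lit 9) 
(.lf (nat_lit 468407) (.g (nat_lit 3303) (.e (nat_lit 3272) (nat_lit 199) (.e (nat_lit 548913) (nat_lit 18) (.e (nat_lit 172118) (nat_lit 12) (.e (nat_lit 475185) (nat_lit 29) (.e (nat_lit 557107) (nat_lit 15) (.e (nat_lit 188441) (nat_lit 20) .nil)))))) (.g (nat_lit 1) (.e (nat_lit 80009) (nat_lit 0) .nil) .nil))) 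
(.lf (nat_lit 468919) (.g (nat_lit 5107) (.e (nat_lit 3298) (nat_lit 202) (.e (nat_lit 573493) (nat_lit 15) (.e (nat_lit 81953) (nat_lit 22) (.e (nat_lit 90134) (nat_lit 9) (.e (nat_lit 3098) (nat_lit 192) (.e (nat_lit 491549) (nat_lit 9) (.e (nat_lit 336306) (nat_lit 15) .nil))))))) (.g (nat_lit 1) (.e (nat_lit 81520) (nat_lit 0) .nil) .nil)))))) 
(.nd (nat_lit 7) (.nd (nat_lit 8) (.nd (nat_lit 9) 
(.lf (nat_lit 468087) (.g (nat_lit 1879) (.e (nat_lit 3262) (nat_lit 198) (.e (nat_lit 540706) (nat_lit 12) (.e (nat_lit 360474) (nat_lit 8) (.e (nat_lit 557093) (nat_lit 12) (.e (nat_lit 163849) (nat_lit 0) (.e (nat_lit 6420) (nat_lit 341) (.e (nat_lit 163902) (nat_lit 12) (.e (nat_lit 425986) (nat_lit 0) .nil)))))))) (.g (nat_lit 1) (.e (nat_lit 78926) (nat_lit 0) .nil) .nil))) 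
(.lf (nat_lit 468599) (.g (nat_lit 1758) (.e (nat_lit 3297) (nat_lit 202) (.e (nat_lit 573481) (nat_lit 13) (.e (nat_lit 65604) (nat_lit 9) (.e (nat_lit 336013) (nat_lit 2) (.e (nat_lit 90165) (nat_lit 12) .nil))))) (.g (nat_lit 0) (.e (nat_lit 80418) (nat_lit 0) .nil) .nil)))) (.nd (nat_lit 9) 
(.lf (nat_lit 468343) (.g (nat_lit 3991) (.e (nat_lit 3271) (nat_lit 199) (.e (nat_lit 548913) (nat_lit 18) (.e (nat_lit 172119) (nat_lit 12) (.e (nat_lit 475185) (nat_lit 29) (.e (nat_lit 557107) (nat_lit 15) (.e (nat_lit 188440) (nat_lit 20) .nil)))))) (.g (nat_lit 1) (.e (nat_lit 79578) (nat_lit 0) .nil) .nil))) 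
(.lf (nat_lit 468855) (.g (nat_lit 518) (.e (nat_lit 3298) (nat_lit 202) (.e (nat_lit 573491) (nat_lit 15) (.e (nat_lit 81956) (nat_lit 23) .nil))) (.g (nat_lit 0) (.e (nat_lit 81313) (nat_lit 0) .nil) .nil))))) (.nd (nat_lit 8) (.nd (nat_lit 9) 
(.lf (nat_lit 468215) (.g (nat_lit 1694) (.e (nat_lit 3207) (nat_lit 195) (.e (nat_lit 516130) (nat_lit 3) (.e (nat_lit 221212) (nat_lit 22) (.e (nat_lit 196668) (nat_lit 14) (.e (nat_lit 73757) (nat_lit 11) (.e (nat_lit 581651) (nat_lit 4) (.e (nat_lit 172036) (nat_lit 0) .nil))))))) (.g (nat_lit 1) (.e (nat_lit 79124) (nat_lit 0) .nil) .nil))) 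
(.lf (nat_lit 468727) (.g (nat_lit 3927) (.e (nat_lit 3297) (nat_lit 202) (.e (nat_lit 573492) (nat_lit 15) (.e (nat_lit 81956) (nat_lit 23) (.e (nat_lit 98349) (nat_lit 24) (.e (nat_lit 409642) (nat_lit 17) (.e (nat_lit 294966) (nat_lit 15) .nil)))))) (.g (nat_lit 1) (.e (nat_lit 80917) (nat_lit 0) .nil) .nil)))) (.nd (nat_lit 9) 
(.lf (nat_lit 468471) (.g (nat_lit 2993) (.e (nat_lit 3272) (nat_lit 199) (.e (nat_lit 548913) (nat_lit 18) (.e (nat_lit 172126) (nat_lit 14) (.e (nat_lit 491538) (nat_lit 3) (.e (nat_lit 98370) (nat_lit 28) (.e (nat_lit 442412) (nat_lit 20) .nil)))))) (.g (nat_lit 1) (.e (nat_lit 80080) (nat_lit 0) .nil) .nil))) 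
(.lf (nat_lit 468983) (.g (nat_lit 2616) (.e (nat_lit 3302) (nat_lit 202) (.e (nat_lit 573481) (nat_lit 13) (.e (nat_lit 65628) (nat_lit 14) (.e (nat_lit 401428) (nat_lit 3) (.e (nat_lit 204866) (nat_lit 28) (.e (nat_lit 352261) (nat_lit 0) .nil)))))) (.g (nat_lit 1) (.e (nat_lit 81688) (nat_lit 0) .nil) .nil))))))))) 
(.nd (nat_lit 4) (.nd (nat_lit 5) (.nd (nat_lit 6) (.nd (nat_lit 7) (.nd (nat_lit 8) 
(.nd (nat_lit 9) 
(.lf (nat_lit 467983) (.g (nat_lit 3185) (.e (nat_lit 3244) (nat_lit 197) (.e (nat_lit 532503) (nat_lit 1) (.e (nat_lit 57931) (nat_lit 282) (.e (nat_lit 163867) (nat_lit 2) (.e (nat_lit 196668) (nat_lit 14) (.e (nat_lit 73747) (nat_lit 3) (.e (nat_lit 516131) (nat_lit 3) (.e (nat_lit 221198) (nat_lit 20) .nil)))))))) (.g (nat_lit 1) (.e (nat_lit 78763) (nat_lit 0) .nil) .nil))) 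
(.lf (nat_lit 468495) (.g (nat_lit 929) (.e (nat_lit 3295) (nat_lit 202) (.e (nat_lit 573482) (nat_lit 13) (.e (nat_lit 65630) (nat_lit 14) .nil))) (.g (nat_lit 0) (.e (nat_lit 80146) (nat_lit 0) .nil) .nil)))) (.nd (nat_lit 9) 
(.lf (nat_lit 468239) (.g (nat_lit 1405) (.e (nat_lit 3213) (nat_lit 195) (.e (nat_lit 516130) (nat_lit 3) (.e (nat_lit 221212) (nat_lit 22) (.e (nat_lit 196681) (nat_lit 17) (.e (nat_lit 131094) (nat_lit 2) .nil))))) (.g (nat_lit 0) (.e (nat_lit 79160) (nat_lit 0) .nil) .nil))) 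
(.lf (nat_lit 468751) (.g (nat_lit 3942) (.e (nat_lit 3297) (nat_lit 202) (.e (nat_lit 573492) (nat_lit 15) (.e (nat_lit 81956) (nat_lit 23) (.e (nat_lit 98388) (nat_lit 33) (.e (nat_lit 491549) (nat_lit 9) (.e (nat_lit 336306) (nat_lit 15) .nil)))))) (.g (nat_lit 1) (.e (nat_lit 80965) (nat_lit 0) .nil) .nil))))) (.nd (nat_lit 8) (.nd (nat_lit 9) 
(.lf (nat_lit 468111) (.g (nat_lit 3308) (.e (nat_lit 3262) (nat_lit 198) (.e (nat_lit 540706) (nat_lit 12) (.e (nat_lit 360474) (nat_lit 8) (.e (nat_lit 557094) (nat_lit 12) (.e (nat_lit 164022) (nat_lit 46) (.e (nat_lit 704738) (nat_lit 11) (.e (nat_lit 16393) (nat_lit 0) .nil))))))) (.g (nat_lit 1) (.e (nat_lit 78950) (nat_lit 0) .nil) .nil))) 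
(.lf (nat_lit 468623) (.g (nat_lit 3430) (.e (nat_lit 3297) (nat_lit 202) (.e (nat_lit 573481) (nat_lit 13) (.e (nat_lit 65619) (nat_lit 10) (.e (nat_lit 344117) (nat_lit 21) (.e (nat_lit 516183) (nat_lit 16) (.e (nat_lit 491548) (nat_lit 9) (.e (nat_lit 336306) (nat_lit 15) .nil))))))) (.g (nat_lit 1) (.e (nat_lit 80492) (nat_lit 0) .nil) .nil)))) (.nd (nat_lit 9) 
(.lf (nat_lit 468367) (.g (nat_lit 1312) (.e (nat_lit 3271) (nat_lit 199) (.e (nat_lit 548913) (nat_lit 18) (.e (nat_lit 172125) (nat_lit 14) (.e (nat_lit 491530) (nat_lit 0) (.e (nat_lit 1712) (nat_lit 117) .nil))))) (.g (nat_lit 0) (.e (nat_lit 79602) (nat_lit 0) .nil) .nil))) 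
(.lf (nat_lit 468879) (.g (nat_lit 1801) (.e (nat_lit 3298) (nat_lit 202) (.e (nat_lit 573492) (nat_lit 15) (.e (nat_lit 81956) (nat_lit 23) (.e (nat_lit 98323) (nat_lit 17) (.e (nat_lit 7936) (nat_lit 406) (.e (nat_lit 73472) (nat_lit 15) .nil)))))) (.g (nat_lit 1) (.e (nat_lit 81418) (nat_lit 0) .nil) .nil)))))) (.nd (nat_lit 7) (.nd (nat_lit 8) (.nd (nat_lit 9) 
(.lf (nat_lit 468047) (.g (nat_lit 2074) (.e (nat_lit 3258) (nat_lit 198) (.e (nat_lit 540706) (nat_lit 12) (.e (nat_lit 360475) (nat_lit 8) (.e (nat_lit 557090) (nat_lit 12) (.e (nat_lit 164020) (nat_lit 45) .nil))))) (.g (nat_lit 0) (.e (nat_lit 78846) (nat_lit 0) .nil) .nil))) 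
(.lf (nat_lit 468559) (.g (nat_lit 1207) (.e (nat_lit 3296) (nat_lit 202) (.e (nat_lit 573482) (nat_lit 13) (.e (nat_lit 65628) (nat_lit 14) (.e (nat_lit 401428) (nat_lit 3) .nil)))) (.g (nat_lit 0) (.e (nat_lit 80310) (nat_lit 0) .nil) .nil)))) (.nd (nat_lit 9) 
(.lf (nat_lit 468303) (.g (nat_lit 1881) (.e (nat_lit 3270) (nat_lit 199) (.e (nat_lit 548913) (nat_lit 18) (.e (nat_lit 172120) (nat_lit 12) (.e (nat_lit 475183) (nat_lit 29) .nil)))) (.g (nat_lit 0) (.e (nat_lit 79371) (nat_lit 0) .nil) .nil))) 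
(.lf (nat_lit 468815) (.g (nat_lit 2250) (.e (nat_lit 3298) (nat_lit 202) (.e (nat_lit 573481) (nat_lit 13) (.e (nat_lit 65628) (nat_lit 14) (.e (nat_lit 401428) (nat_lit 3) (.e (nat_lit 204866) (nat_lit 28) (.e (nat_lit 360192) (nat_lit 0) .nil)))))) (.g (nat_lit 1) (.e (nat_lit 81093) (nat_lit 0) .nil) .nil))))) (.nd (nat_lit 8) (.nd (nat_lit 9) 
(.lf (nat_lit 468175) (.g (nat_lit 3476) (.e (nat_lit 3262) (nat_lit 198) (.e (nat_lit 540706) (nat_lit 12) (.e (nat_lit 360475) (nat_lit 8) (.e (nat_lit 557090) (nat_lit 12) (.e (nat_lit 164020) (nat_lit 45) (.e (nat_lit 696344) (nat_lit 8) (.e (nat_lit 172040) (nat_lit 0) .nil))))))) (.g (nat_lit 1) (.e (nat_lit 79075) (nat_lit 0) .nil) .nil))) 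
(.lf (nat_lit 468687) (.g (nat_lit 2400) (.e (nat_lit 3297) (nat_lit 202) (.e (nat_lit 573491) (nat_lit 15) (.e (nat_lit 81954) (nat_lit 23) (.e (nat_lit 98386) (nat_lit 32) (.e (nat_lit 475207) (nat_lit 41) (.e (nat_lit 712719) (nat_lit 15) .nil)))))) (.g (nat_lit 1) (.e (nat_lit 80767) (nat_lit 0) .nil) .nil)))) (.nd (nat_lit 9) 
(.lf (nat_lit 468431) (.g (nat_lit 3622) (.e (nat_lit 3272) (nat_lit 199) (.e (nat_lit 548913) (nat_lit 18) (.e (nat_lit 172124) (nat_lit 14) (.e (nat_lit 491536) (nat_lit 2) (.e (nat_lit 90178) (nat_lit 15) (.e (nat_lit 188441) (nat_lit 20) .nil)))))) (.g (nat_lit 1) (.e (nat_lit 80034) (nat_lit 0) .nil) .nil))) 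
(.lf (nat_lit 468943) (.g (nat_lit 2292) (.e (nat_lit 3298) (nat_lit 202) (.e (nat_lit 573493) (nat_lit 15) (.e (nat_lit 81956) (nat_lit 23) (.e (nat_lit 98387) (nat_lit 33) .nil)))) (.g (nat_lit 0) (.e (nat_lit 81568) (nat_lit 0) .nil) .nil))))))) (.nd (nat_lit 6) (.nd (nat_lit 7) (.nd (nat_lit 8) (.nd (nat_lit 9) 
(.lf (nat_lit 468015) (.g (nat_lit 1913) (.e (nat_lit 3247) (nat_lit 197) (.e (nat_lit 532504) (nat_lit 1) (.e (nat_lit 57851) (nat_lit 252) (.e (nat_lit 57406) (nat_lit 12) .nil)))) (.g (nat_lit 0) (.e (nat_lit 78798) (nat_lit 0) .nil) .nil))) 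
(.lf (nat_lit 468527) (.g (nat_lit 2366) (.e (nat_lit 3295) (nat_lit 202) (.e (nat_lit 573492) (nat_lit 15) (.e (nat_lit 81956) (nat_lit 23) (.e (nat_lit 98325) (nat_lit 17) .nil)))) (.g (nat_lit 0) (.e (nat_lit 80227) (nat_lit 0) .nil) .nil)))) (.nd (nat_lit 9) 
(.lf (nat_lit 468271) (.g (nat_lit 2368) (.e (nat_lit 7936) (nat_lit 195) (.e (nat_lit 516160) (nat_lit 10) (.e (nat_lit 434246) (nat_lit 28) (.e (nat_lit 573484) (nat_lit 13) (.e (nat_lit 65566) (nat_lit 2) .nil))))) (.g (nat_lit 0) (.e (nat_lit 79214) (nat_lit 0) .nil) .nil))) 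
(.lf (nat_lit 468783) (.g (nat_lit 2266) (.e (nat_lit 3298) (nat_lit 202) (.e (nat_lit 573481) (nat_lit 13) (.e (nat_lit 65604) (nat_lit 9) (.e (nat_lit 336028) (nat_lit 3) (.e (nat_lit 98325) (nat_lit 17) (.e (nat_lit 6986) (nat_lit 377) (.e (nat_lit 2779) (nat_lit 178) (.e (nat_lit 294656) (nat_lit 15) .nil)))))))) (.g (nat_lit 1) (.e (nat_lit 81018) (nat_lit 0) .nil) .nil))))) 
(.nd (nat_lit 8) (.nd (nat_lit 9) 
(.lf (nat_lit 468143) (.g (nat_lit 3037) (.e (nat_lit 3262) (nat_lit 198) (.e (nat_lit 540706) (nat_lit 12) (.e (nat_lit 360475) (nat_lit 8) (.e (nat_lit 557089) (nat_lit 12) (.e (nat_lit 163849) (nat_lit 0) .nil))))) (.g (nat_lit 0) (.e (nat_lit 79034) (nat_lit 0) .nil) .nil))) 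
(.lf (nat_lit 468655) (.g (nat_lit 2029) (.e (nat_lit 3297) (nat_lit 202) (.e (nat_lit 573481) (nat_lit 13) (.e (nat_lit 65628) (nat_lit 14) (.e (nat_lit 401428) (nat_lit 3) (.e (nat_lit 204876) (nat_lit 31) (.e (nat_lit 384768) (nat_lit 0) .nil)))))) (.g (nat_lit 1) (.e (nat_lit 80533) (nat_lit 0) .nil) .nil)))) (.nd (nat_lit 9) 
(.lf (nat_lit 468399) (.g (nat_lit 3469) (.e (nat_lit 3272) (nat_lit 199) (.e (nat_lit 548898) (nat_lit 14) (.e (nat_lit 2988) (nat_lit 186) (.e (nat_lit 442374) (nat_lit 0) (.e (nat_lit 1856) (nat_lit 124) (.e (nat_lit 557107) (nat_lit 15) (.e (nat_lit 188440) (nat_lit 20) .nil))))))) (.g (nat_lit 1) (.e (nat_lit 79721) (nat_lit 0) .nil) .nil))) 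
(.lf (nat_lit 468911) (.g (nat_lit 396) (.e (nat_lit 3298) (nat_lit 202) (.e (nat_lit 573493) (nat_lit 15) (.e (nat_lit 81953) (nat_lit 22) .nil))) (.g (nat_lit 0) (.e (nat_lit 81511) (nat_lit 0) .nil) .nil)))))) (.nd (nat_lit 7) (.nd (nat_lit 8) (.nd (nat_lit 9) 
(.lf (nat_lit 468079) (.g (nat_lit 3498) (.e (nat_lit 3262) (nat_lit 198) (.e (nat_lit 540706) (nat_lit 12) (.e (nat_lit 360474) (nat_lit 8) (.e (nat_lit 557087) (nat_lit 11) (.e (nat_lit 24662) (nat_lit 14) .nil))))) (.g (nat_lit 0) (.e (nat_lit 78918) (nat_lit 0) .nil) .nil))) 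
(.lf (nat_lit 468591) (.g (nat_lit 3658) (.e (nat_lit 3297) (nat_lit 202) (.e (nat_lit 573471) (nat_lit 11) (.e (nat_lit 16473) (nat_lit 14) (.e (nat_lit 491536) (nat_lit 2) (.e (nat_lit 90178) (nat_lit 15) (.e (nat_lit 188441) (nat_lit 20) .nil)))))) (.g (nat_lit 1) (.e (nat_lit 80403) (nat_lit 0) .nil) .nil)))) (.nd (nat_lit 9) 
(.lf (nat_lit 468335) (.g (nat_lit 2605) (.e (nat_lit 3270) (nat_lit 199) (.e (nat_lit 548913) (nat_lit 18) (.e (nat_lit 172126) (nat_lit 14) (.e (nat_lit 491540) (nat_lit 3) (.e (nat_lit 98369) (nat_lit 28) .nil))))) (.g (nat_lit 0) (.e (nat_lit 79403) (nat_lit 0) .nil) .nil))) 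
(.lf (nat_lit 468847) (.g (nat_lit 1530) (.e (nat_lit 3298) (nat_lit 202) (.e (nat_lit 573491) (nat_lit 15) (.e (nat_lit 81954) (nat_lit 23) (.e (nat_lit 98325) (nat_lit 17) (.e (nat_lit 6986) (nat_lit 377) (.e (nat_lit 2779) (nat_lit 178) (.e (nat_lit 294656) (nat_lit 15) .nil))))))) (.g (nat_lit 1) (.e (nat_lit 81295) (nat_lit 0) .nil) .nil))))) (.nd (nat_lit 8) (.nd (nat_lit 9) 
(.lf (nat_lit 468207) (.g (nat_lit 3059) (.e (nat_lit 3262) (nat_lit 198) (.e (nat_lit 540706) (nat_lit 12) (.e (nat_lit 360475) (nat_lit 8) (.e (nat_lit 557091) (nat_lit 12) (.e (nat_lit 164022) (nat_lit 46) (.e (nat_lit 704737) (nat_lit 11) (.e (nat_lit 16390) (nat_lit 0) .nil))))))) (.g (nat_lit 1) (.e (nat_lit 79111) (nat_lit 0) .nil) .nil))) 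
(.lf (nat_lit 468719) (.g (nat_lit 3482) (.e (nat_lit 3297) (nat_lit 202) (.e (nat_lit 573492) (nat_lit 15) (.e (nat_lit 81956) (nat_lit 23) (.e (nat_lit 98320) (nat_lit 17) (.e (nat_lit 7587) (nat_lit 406) (.e (nat_lit 73472) (nat_lit 15) .nil)))))) (.g (nat_lit 1) (.e (nat_lit 80884) (nat_lit 0) .nil) .nil)))) (.nd (nat_lit 9) 
(.lf (nat_lit 468463) (.g (nat_lit 2947) (.e (nat_lit 3272) (nat_lit 199) (.e (nat_lit 548913) (nat_lit 18) (.e (nat_lit 172126) (nat_lit 14) (.e (nat_lit 491536) (nat_lit 2) (.e (nat_lit 90177) (nat_lit 15) .nil))))) (.g (nat_lit 0) (.e (nat_lit 80071) (nat_lit 0) .nil) .nil))) 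
(.lf (nat_lit 468975) (.g (nat_lit 1595) (.e (nat_lit 3302) (nat_lit 202) (.e (nat_lit 573481) (nat_lit 13) (.e (nat_lit 65619) (nat_lit 10) (.e (nat_lit 344126) (nat_lit 25) (.e (nat_lit 548874) (nat_lit 5) .nil))))) (.g (nat_lit 0) (.e (nat_lit 81676) (nat_lit 0) .nil) .nil)))))))) (.nd (nat_lit 5) (.nd (nat_lit 6) (.nd (nat_lit 7) (.nd (nat_lit 8) (.nd (nat_lit 9) 
(.lf (nat_lit 467999) (.g (nat_lit 2026) (.e (nat_lit 3245) (nat_lit 197) (.e (nat_lit 532504) (nat_lit 1) (.e (nat_lit 57851) (nat_lit 252) (.e (nat_lit 57446) (nat_lit 19) .nil)))) (.g (nat_lit 0) (.e (nat_lit 78780) (nat_lit 0) .nil) .nil))) 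
(.lf (nat_lit 468511) (.g (nat_lit 1886) (.e (nat_lit 3295) (nat_lit 202) (.e (nat_lit 573485) (nat_lit 13) (.e (nat_lit 65619) (nat_lit 10) (.e (nat_lit 344129) (nat_lit 26) (.e (nat_lit 557074) (nat_lit 9) .nil))))) (.g (nat_lit 0) (.e (nat_lit 80181) (nat_lit 0) .nil) .nil)))) (.nd (nat_lit 9) 
(.lf (nat_lit 468255) (.g (nat_lit 1114) (.e (nat_lit 7936) (nat_lit 195) (.e (nat_lit 516145) (nat_lit 9) (.e (nat_lit 426438) (nat_lit 18) (.e (nat_lit 98368) (nat_lit 27) .nil)))) (.g (nat_lit 0) (.e (nat_lit 79198) (nat_lit 0) .nil) .nil))) 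
(.lf (nat_lit 468767) (.g (nat_lit 3603) (.e (nat_lit 3297) (nat_lit 202) (.e (nat_lit 573493) (nat_lit 15) (.e (nat_lit 81956) (nat_lit 23) (.e (nat_lit 98350) (nat_lit 24) .nil)))) (.g (nat_lit 0) (.e (nat_lit 80984) (nat_lit 0) .nil) .nil))))) (.nd (nat_lit 8) (.nd (nat_lit 9) 
(.lf (nat_lit 468127) (.g (nat_lit 2999) (.e (nat_lit 3262) (nat_lit 198) (.e (nat_lit 540706) (nat_lit 12) (.e (nat_lit 360475) (nat_lit 8) (.e (nat_lit 557086) (nat_lit 11) (.e (nat_lit 24665) (nat_lit 14) (.e (nat_lit 401409) (nat_lit 0) .nil)))))) (.g (nat_lit 1) (.e (nat_lit 79018) (nat_lit 0) .nil) .nil))) 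
(.lf (nat_lit 468639) (.g (nat_lit 4444) (.e (nat_lit 3297) (nat_lit 202) (.e (nat_lit 573481) (nat_lit 13) (.e (nat_lit 65619) (nat_lit 10) (.e (nat_lit 344129) (nat_lit 26) (.e (nat_lit 557085) (nat_lit 11) (.e (nat_lit 24630) (nat_lit 9) (.e (nat_lit 336306) (nat_lit 15) .nil))))))) (.g (nat_lit 1) (.e (nat_lit 80517) (nat_lit 0) .nil) .nil)))) (.nd (nat_lit 9) 
(.lf (nat_lit 468383) (.g (nat_lit 2903) (.e (nat_lit 3271) (nat_lit 199) (.e (nat_lit 548913) (nat_lit 18) (.e (nat_lit 172126) (nat_lit 14) (.e (nat_lit 491536) (nat_lit 2) (.e (nat_lit 90176) (nat_lit 15) .nil))))) (.g (nat_lit 0) (.e (nat_lit 79618) (nat_lit 0) .nil) .nil))) 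
(.lf (nat_lit 468895) (.g (nat_lit 1862) (.e (nat_lit 3298) (nat_lit 202) (.e (nat_lit 573492) (nat_lit 15) (.e (nat_lit 81956) (nat_lit 23) (.e (nat_lit 98388) (nat_lit 33) .nil)))) (.g (nat_lit 0) (.e (nat_lit 81482) (nat_lit 0) .nil) .nil)))))) (.nd (nat_lit 7) (.nd (nat_lit 8) (.nd (nat_lit 9) 
(.lf (nat_lit 468063) (.g (nat_lit 3451) (.e (nat_lit 3259) (nat_lit 198) (.e (nat_lit 540706) (nat_lit 12) (.e (nat_lit 360475) (nat_lit 8) (.e (nat_lit 557090) (nat_lit 12) (.e (nat_lit 164020) (nat_lit 45) (.e (nat_lit 696344) (nat_lit 8) (.e (nat_lit 172032) (nat_lit 0) .nil))))))) (.g (nat_lit 1) (.e (nat_lit 78872) (nat_lit 0) .nil) .nil))) 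
(.lf (nat_lit 468575) (.g (nat_lit 2674) (.e (nat_lit 3297) (nat_lit 202) (.e (nat_lit 573471) (nat_lit 11) (.e (nat_lit 16425) (nat_lit 7) (.e (nat_lit 409617) (nat_lit 10) (.e (nat_lit 7936) (nat_lit 43) (.e (nat_lit 516164) (nat_lit 11) (.e (nat_lit 442403) (nat_lit 20) .nil))))))) (.g (nat_lit 1) (.e (nat_lit 80378) (nat_lit 0) .nil) .nil)))) (.nd (nat_lit 9) 
(.lf (nat_lit 468319) (.g (nat_lit 3392) (.e (nat_lit 3270) (nat_lit 199) (.e (nat_lit 548913) (nat_lit 18) (.e (nat_lit 172124) (nat_lit 14) (.e (nat_lit 491537) (nat_lit 2) (.e (nat_lit 90176) (nat_lit 15) (.e (nat_lit 188439) (nat_lit 20) .nil)))))) (.g (nat_lit 1) (.e (nat_lit 79387) (nat_lit 0) .nil) .nil))) 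
(.lf (nat_lit 468831) (.g (nat_lit 2523) (.e (nat_lit 3298) (nat_lit 202) (.e (nat_lit 573482) (nat_lit 13) (.e (nat_lit 65619) (nat_lit 10) (.e (nat_lit 344117) (nat_lit 21) (.e (nat_lit 516138) (nat_lit 7) .nil))))) (.g (nat_lit 0) (.e (nat_lit 81111) (nat_lit 0) .nil) .nil))))) (.nd (nat_lit 8) (.nd (nat_lit 9) 
(.lf (nat_lit 468191) (.g (nat_lit 3434) (.e (nat_lit 3262) (nat_lit 198) (.e (nat_lit 540706) (nat_lit 12) (.e (nat_lit 360475) (nat_lit 8) (.e (nat_lit 557091) (nat_lit 12) (.e (nat_lit 163849) (nat_lit 0) (.e (nat_lit 6416) (nat_lit 341) (.e (nat_lit 163908) (nat_lit 12) (.e (nat_lit 426003) (nat_lit 0) .nil)))))))) (.g (nat_lit 1) (.e (nat_lit 79093) (nat_lit 0) .nil) .nil))) 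
(.lf (nat_lit 468703) (.g (nat_lit 512) (.e (nat_lit 3297) (nat_lit 202) (.e (nat_lit 573491) (nat_lit 15) (.e (nat_lit 81956) (nat_lit 23) .nil))) (.g (nat_lit 0) (.e (nat_lit 80783) (nat_lit 0) .nil) .nil)))) (.nd (nat_lit 9) 
(.lf (nat_lit 468447) (.g (nat_lit 3323) (.e (nat_lit 3272) (nat_lit 199) (.e (nat_lit 548913) (nat_lit 18) (.e (nat_lit 172125) (nat_lit 14) (.e (nat_lit 491536) (nat_lit 2) (.e (nat_lit 90178) (nat_lit 15) (.e (nat_lit 188440) (nat_lit 20) .nil)))))) (.g (nat_lit 1) (.e (nat_lit 80050) (nat_lit 0) .nil) .nil))) 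
(.lf (nat_lit 468959) (.g (nat_lit 608) (.e (nat_lit 3302) (nat_lit 202) (.e (nat_lit 573471) (nat_lit 11) (.e (nat_lit 16425) (nat_lit 7) .nil))) (.g (nat_lit 0) (.e (nat_lit 81639) (nat_lit 0) .nil) .nil))))))) (.nd (nat_lit 6) (.nd (nat_lit 7) (.nd (nat_lit 8) (.nd (nat_lit 9) 
(.lf (nat_lit 468031) (.g (nat_lit 2723) (.e (nat_lit 3257) (nat_lit 198) (.e (nat_lit 540706) (nat_lit 12) (.e (nat_lit 360475) (nat_lit 8) (.e (nat_lit 557091) (nat_lit 12) (.e (nat_lit 164022) (nat_lit 46) .nil))))) (.g (nat_lit 0) (.e (nat_lit 78819) (nat_lit 0) .nil) .nil))) 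
(.lf (nat_lit 468543) (.g (nat_lit 4919) (.e (nat_lit 3295) (nat_lit 202) (.e (nat_lit 573493) (nat_lit 15) (.e (nat_lit 81956) (nat_lit 23) (.e (nat_lit 98389) (nat_lit 33) (.e (nat_lit 491556) (nat_lit 9) (.e (nat_lit 336272) (nat_lit 15) .nil)))))) (.g (nat_lit 1) (.e (nat_lit 80274) (nat_lit 0) .nil) .nil)))) (.nd (nat_lit 9) 
(.lf (nat_lit 468287) (.g (nat_lit 1978) (.e (nat_lit 7936) (nat_lit 195) (.e (nat_lit 516179) (nat_lit 15) (.e (nat_lit 475179) (nat_lit 24) (.e (nat_lit 516169) (nat_lit 13) .nil)))) (.g (nat_lit 0) (.e (nat_lit 79230) (nat_lit 0) .nil) .nil))) 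
(.lf (nat_lit 468799) (.g (nat_lit 3730) (.e (nat_lit 3298) (nat_lit 202) (.e (nat_lit 573481) (nat_lit 13) (.e (nat_lit 65619) (nat_lit 10) (.e (nat_lit 344117) (nat_lit 21) (.e (nat_lit 516185) (nat_lit 16) (.e (nat_lit 491548) (nat_lit 9) (.e (nat_lit 336306) (nat_lit 15) .nil))))))) (.g (nat_lit 1) (.e (nat_lit 81059) (nat_lit 0) .nil) .nil))))) (.nd (nat_lit 8) (.nd (nat_lit 9) 
(.lf (nat_lit 468159) (.g (nat_lit 1802) (.e (nat_lit 3262) (nat_lit 198) (.e (nat_lit 540706) (nat_lit 12) (.e (nat_lit 360475) (nat_lit 8) (.e (nat_lit 557090) (nat_lit 12) (.e (nat_lit 164020) (nat_lit 45) (.e (nat_lit 696328) (nat_lit 5) (.e (nat_lit 2872) (nat_lit 184) (.e (nat_lit 426032) (nat_lit 0) .nil)))))))) (.g (nat_lit 1) (.e (nat_lit 79058) (nat_lit 0) .nil) .nil))) 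
(.lf (nat_lit 468671) (.g (nat_lit 2954) (.e (nat_lit 3297) (nat_lit 202) (.e (nat_lit 573484) (nat_lit 13) (.e (nat_lit 65617) (nat_lit 10) (.e (nat_lit 344130) (nat_lit 26) (.e (nat_lit 557086) (nat_lit 11) (.e (nat_lit 24630) (nat_lit 9) (.e (nat_lit 336306) (nat_lit 15) .nil))))))) (.g (nat_lit 1) (.e (nat_lit 80551) (nat_lit 0) .nil) .nil)))) (.nd (nat_lit 9) 
(.lf (nat_lit 468415) (.g (nat_lit 4081) (.e (nat_lit 3272) (nat_lit 199) (.e (nat_lit 548913) (nat_lit 18) (.e (nat_lit 172120) (nat_lit 12) (.e (nat_lit 475183) (nat_lit 29) (.e (nat_lit 557108) (nat_lit 15) (.e (nat_lit 188434) (nat_lit 20) .nil)))))) (.g (nat_lit 1) (.e (nat_lit 80017) (nat_lit 0) .nil) .nil))) 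
(.lf (nat_lit 468927) (.g (nat_lit 3037) (.e (nat_lit 3298) (nat_lit 202) (.e (nat_lit 573493) (nat_lit 15) (.e (nat_lit 81956) (nat_lit 23) (.e (nat_lit 98318) (nat_lit 17) .nil)))) (.g (nat_lit 0) (.e (nat_lit 81533) (nat_lit 0) .nil) .nil)))))) (.nd (nat_lit 7) (.nd (nat_lit 8) (.nd (nat_lit 9) 
(.lf (nat_lit 468095) (.g (nat_lit 3470) (.e (nat_lit 3262) (nat_lit 198) (.e (nat_lit 540706) (nat_lit 12) (.e (nat_lit 360474) (nat_lit 8) (.e (nat_lit 557093) (nat_lit 12) (.e (nat_lit 164022) (nat_lit 46) (.e (nat_lit 704737) (nat_lit 11) (.e (nat_lit 16393) (nat_lit 0) .nil))))))) (.g (nat_lit 1) (.e (nat_lit 78934) (nat_lit 0) .nil) .nil))) 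
(.lf (nat_lit 468607) (.g (nat_lit 3392) (.e (nat_lit 3297) (nat_lit 202) (.e (nat_lit 573481) (nat_lit 13) (.e (nat_lit 65619) (nat_lit 10) (.e (nat_lit 344117) (nat_lit 21) (.e (nat_lit 516097) (nat_lit 0) (.e (nat_lit 7587) (nat_lit 406) (.e (nat_lit 73472) (nat_lit 15) .nil))))))) (.g (nat_lit 1) (.e (nat_lit 80470) (nat_lit 0) .nil) .nil)))) (.nd (nat_lit 9) 
(.lf (nat_lit 468351) (.g (nat_lit 2816) (.e (nat_lit 3271) (nat_lit 199) (.e (nat_lit 548913) (nat_lit 18) (.e (nat_lit 172120) (nat_lit 12) (.e (nat_lit 475185) (nat_lit 29) (.e (nat_lit 557107) (nat_lit 15) (.e (nat_lit 188441) (nat_lit 20) .nil)))))) (.g (nat_lit 1) (.e (nat_lit 79586) (nat_lit 0) .nil) .nil))) 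
(.lf (nat_lit 468863) (.g (nat_lit 1190) (.e (nat_lit 3298) (nat_lit 202) (.e (nat_lit 573492) (nat_lit 15) (.e (nat_lit 81951) (nat_lit 22) (.e (nat_lit 90165) (nat_lit 12) .nil)))) (.g (nat_lit 0) (.e (nat_lit 81357) (nat_lit 0) .nil) .nil))))) (.nd (nat_lit 8) (.nd (nat_lit 9) 
(.lf (nat_lit 468223) (.g (nat_lit 3016) (.e (nat_lit 3209) (nat_lit 195) (.e (nat_lit 516145) (nat_lit 9) (.e (nat_lit 426428) (nat_lit 17) (.e (nat_lit 90174) (nat_lit 14) (.e (nat_lit 180250) (nat_lit 10) (.e (nat_lit 573485) (nat_lit 13) (.e (nat_lit 73472) (nat_lit 15) .nil))))))) (.g (nat_lit 1) (.e (nat_lit 79133) (nat_lit 0) .nil) .nil))) 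
(.lf (nat_lit 468735) (.g (nat_lit 3552) (.e (nat_lit 3297) (nat_lit 202) (.e (nat_lit 573492) (nat_lit 15) (.e (nat_lit 81956) (nat_lit 23) (.e (nat_lit 98384) (nat_lit 32) (.e (nat_lit 475207) (nat_lit 41) (.e (nat_lit 712719) (nat_lit 15) .nil)))))) (.g (nat_lit 1) (.e (nat_lit 80949) (nat_lit 0) .nil) .nil)))) (.nd (nat_lit 9) 
(.lf (nat_lit 468479) (.g (nat_lit 2173) (.e (nat_lit 3272) (nat_lit 199) (.e (nat_lit 548915) (nat_lit 20) (.e (nat_lit 188419) (nat_lit 0) (.e (nat_lit 1856) (nat_lit 124) (.e (nat_lit 557107) (nat_lit 15) (.e (nat_lit 188439) (nat_lit 20) .nil)))))) (.g (nat_lit 1) (.e (nat_lit 80089) (nat_lit 0) .nil) .nil))) 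
(.lf (nat_lit 468991) (.g (nat_lit 2273) (.e (nat_lit 3302) (nat_lit 202) (.e (nat_lit 573481) (nat_lit 13) (.e (nat_lit 65630) (nat_lit 14) (.e (nat_lit 401428) (nat_lit 3) (.e (nat_lit 204865) (nat_lit 28) (.e (nat_lit 360192) (nat_lit 0) .nil)))))) (.g (nat_lit 1) (.e (nat_lit 81698) (nat_lit 0) .nil) .nil)))))))))))))

noncomputable def tv5518 : DT := (.nd (nat_lit 0) (.nd (nat_lit 1) (.nd (nat_lit 2) (.nd (nat_lit 3) (.nd (nat_lit 4) (.nd (nat_lit 5) (.nd (nat_lit 6) (.nd (nat_lit 7) (.nd (nat_lit 8) (.nd (nat_lit 9) 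
(.lf (nat_lit 468992) (.g (nat_lit 2926) (.e (nat_lit 3302) (nat_lit 202) (.e (nat_lit 573481) (nat_lit 13) (.e (nat_lit 65630) (nat_lit 14) (.e (nat_lit 401428) (nat_lit 3) (.e (nat_lit 204866) (nat_lit 28) (.e (nat_lit 352261) (nat_lit 0) .nil)))))) (.g (nat_lit 1) (.e (nat_lit 81699) (nat_lit 0) .nil) .nil))) 
(.lf (nat_lit 469504) (.g (nat_lit 2774) (.e (nat_lit 3305) (nat_lit 202) (.e (nat_lit 573485) (nat_lit 13) (.e (nat_lit 65619) (nat_lit 10) (.e (nat_lit 344117) (nat_lit 21) (.e (nat_lit 516106) (nat_lit 0) (.e (nat_lit 6986) (nat_lit 377) (.e (nat_lit 2777) (nat_lit 178) (.e (nat_lit 286764) (nat_lit 15) .nil)))))))) (.g (nat_lit 1) (.e (nat_lit 83024) (nat_lit 0) .nil) .nil)))) 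
(.nd (nat_lit 9) 
(.lf (nat_lit 469248) (.g (nat_lit 2764) (.e (nat_lit 3304) (nat_lit 202) (.e (nat_lit 573484) (nat_lit 13) (.e (nat_lit 65617) (nat_lit 10) (.e (nat_lit 344130) (nat_lit 26) (.e (nat_lit 557087) (nat_lit 11) (.e (nat_lit 24637) (nat_lit 9) (.e (nat_lit 336293) (nat_lit 15) .nil))))))) (.g (nat_lit 1) (.e (nat_lit 82330) (nat_lit 0) .nil) .nil))) 
(.lf (nat_lit 469760) (.g (nat_lit 2431) (.e (nat_lit 3307) (nat_lit 202) (.e (nat_lit 573484) (nat_lit 13) (.e (nat_lit 65624) (nat_lit 12) (.e (nat_lit 385074) (nat_lit 31) (.e (nat_lit 573493) (nat_lit 15) (.e (nat_lit 89856) (nat_lit 0) .nil)))))) (.g (nat_lit 1) (.e (nat_lit 83635) (nat_lit 0) .nil) .nil))))) (.nd (nat_lit 8) (.nd (nat_lit 9) 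
(.lf (nat_lit 469120) (.g (nat_lit 3226) (.e (nat_lit 3302) (nat_lit 202) (.e (nat_lit 573493) (nat_lit 15) (.e (nat_lit 81956) (nat_lit 23) (.e (nat_lit 98385) (nat_lit 32) .nil)))) (.g (nat_lit 0) (.e (nat_lit 82074) (nat_lit 0) .nil) .nil))) 
(.lf (nat_lit 469632) (.g (nat_lit 2996) (.e (nat_lit 3307) (nat_lit 202) (.e (nat_lit 573477) (nat_lit 12) (.e (nat_lit 57574) (nat_lit 55) (.e (nat_lit 778465) (nat_lit 11) (.e (nat_lit 24603) (nat_lit 2) (.e (nat_lit 90176) (nat_lit 15) (.e (nat_lit 188424) (nat_lit 20) .nil))))))) (.g (nat_lit 1) (.e (nat_lit 83289) (nat_lit 0) .nil) .nil)))) (.nd (nat_lit 9) 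
(.lf (nat_lit 469376) (.g (nat_lit 637) (.e (nat_lit 3305) (nat_lit 202) (.e (nat_lit 573471) (nat_lit 11) (.e (nat_lit 16470) (nat_lit 14) .nil))) (.g (nat_lit 0) (.e (nat_lit 82739) (nat_lit 0) .nil) .nil))) 
(.lf (nat_lit 469888) (.g (nat_lit 1996) (.e (nat_lit 3307) (nat_lit 202) (.e (nat_lit 573485) (nat_lit 13) (.e (nat_lit 65619) (nat_lit 10) (.e (nat_lit 344129) (nat_lit 26) (.e (nat_lit 557087) (nat_lit 11) (.e (nat_lit 24632) (nat_lit 9) (.e (nat_lit 343808) (nat_lit 15) .nil))))))) (.g (nat_lit 1) (.e (nat_lit 83822) (nat_lit 0) .nil) .nil)))))) 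
(.nd (nat_lit 7) (.nd (nat_lit 8) (.nd (nat_lit 9) 
(.lf (nat_lit 469056) (.g (nat_lit 2888) (.e (nat_lit 3302) (nat_lit 202) (.e (nat_lit 573492) (nat_lit 15) (.e (nat_lit 81956) (nat_lit 23) (.e (nat_lit 98319) (nat_lit 17) (.e (nat_lit 7587) (nat_lit 406) (.e (nat_lit 73472) (nat_lit 15) .nil)))))) (.g (nat_lit 1) (.e (nat_lit 81946) (nat_lit 0) .nil) .nil))) 
(.lf (nat_lit 469568) (.g (nat_lit 604) (.e (nat_lit 3305) (nat_lit 202) (.e (nat_lit 573493) (nat_lit 15) (.e (nat_lit 81954) (nat_lit 23) .nil))) (.g (nat_lit 0) (.e (nat_lit 83146) (nat_lit 0) .nil) .nil)))) (.nd (nat_lit 9) 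
(.lf (nat_lit 469312) (.g (nat_lit 3242) (.e (nat_lit 3304) (nat_lit 202) (.e (nat_lit 573489) (nat_lit 14) (.e (nat_lit 73755) (nat_lit 8) (.e (nat_lit 557098) (nat_lit 13) (.e (nat_lit 179968) (nat_lit 18) (.e (nat_lit 98333) (nat_lit 18) (.e (nat_lit 164329) (nat_lit 230) (.e (nat_lit 163850) (nat_lit 0) .nil)))))))) (.g (nat_lit 1) (.e (nat_lit 82474) (nat_lit 0) .nil) .nil))) 
(.lf (nat_lit 469824) (.g (nat_lit 2773) (.e (nat_lit 3307) (nat_lit 202) (.e (nat_lit 573485) (nat_lit 13) (.e (nat_lit 65619) (nat_lit 10) (.e (nat_lit 344117) (nat_lit 21) (.e (nat_lit 516102) (nat_lit 0) (.e (nat_lit 7107) (nat_lit 380) (.e (nat_lit 164337) (nat_lit 232) (.e (nat_lit 75) (nat_lit 0) .nil)))))))) (.g (nat_lit 1) (.e (nat_lit 83748) (nat_lit 0) .nil) .nil))))) 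
(.nd (nat_lit 8) (.nd (nat_lit 9) 
(.lf (nat_lit 469184) (.g (nat_lit 2285) (.e (nat_lit 3304) (nat_lit 202) (.e (nat_lit 573482) (nat_lit 13) (.e (nat_lit 65619) (nat_lit 10) (.e (nat_lit 344117) (nat_lit 21) (.e (nat_lit 516106) (nat_lit 0) (.e (nat_lit 6986) (nat_lit 377) (.e (nat_lit 2782) (nat_lit 178) (.e (nat_lit 286764) (nat_lit 15) .nil)))))))) (.g (nat_lit 1) (.e (nat_lit 82188) (nat_lit 0) .nil) .nil))) 
(.lf (nat_lit 469696) (.g (nat_lit 3486) (.e (nat_lit 3307) (nat_lit 202) (.e (nat_lit 573484) (nat_lit 13) (.e (nat_lit 65610) (nat_lit 10) (.e (nat_lit 344117) (nat_lit 21) (.e (nat_lit 516106) (nat_lit 0) (.e (nat_lit 7936) (nat_lit 406) (.e (nat_lit 73472) (nat_lit 15) .nil))))))) (.g (nat_lit 1) (.e (nat_lit 83391) (nat_lit 0) .nil) .nil)))) (.nd (nat_lit 9) 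
(.lf (nat_lit 469440) (.g (nat_lit 293) (.e (nat_lit 3305) (nat_lit 202) (.e (nat_lit 573484) (nat_lit 13) (.e (nat_lit 65617) (nat_lit 10) .nil))) (.g (nat_lit 0) (.e (nat_lit 82865) (nat_lit 0) .nil) .nil))) 
(.lf (nat_lit 469952) (.g (nat_lit 4756) (.e (nat_lit 3307) (nat_lit 202) (.e (nat_lit 573489) (nat_lit 14) (.e (nat_lit 73755) (nat_lit 8) (.e (nat_lit 557105) (nat_lit 14) (.e (nat_lit 180252) (nat_lit 10) (.e (nat_lit 573475) (nat_lit 12) (.e (nat_lit 57504) (nat_lit 38) (.e (nat_lit 638986) (nat_lit 5) (.e (nat_lit 2466) (nat_lit 157) .nil))))))))) (.g (nat_lit 1) (.e (nat_lit 84157) (nat_lit 0) .nil) .nil))))))) 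
(.nd (nat_lit 6) (.nd (nat_lit 7) (.nd (nat_lit 8) (.nd (nat_lit 9) 
(.lf (nat_lit 469024) (.g (nat_lit 4434) (.e (nat_lit 3302) (nat_lit 202) (.e (nat_lit 573484) (nat_lit 13) (.e (nat_lit 65617) (nat_lit 10) (.e (nat_lit 344130) (nat_lit 26) (.e (nat_lit 557087) (nat_lit 11) (.e (nat_lit 24625) (nat_lit 9) (.e (nat_lit 336281) (nat_lit 15) .nil))))))) (.g (nat_lit 1) (.e (nat_lit 81749) (nat_lit 0) .nil) .nil))) 
(.lf (nat_lit 469536) (.g (nat_lit 2513) (.e (nat_lit 3305) (nat_lit 202) (.e (nat_lit 573488) (nat_lit 14) (.e (nat_lit 73782) (nat_lit 32) (.e (nat_lit 2664) (nat_lit 167) (.e (nat_lit 196672) (nat_lit 15) (.e (nat_lit 81924) (nat_lit 0) .nil)))))) (.g (nat_lit 1) (.e (nat_lit 83063) (nat_lit 0) .nil) .nil)))) (.nd (nat_lit 9) 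
(.lf (nat_lit 469280) (.g (nat_lit 2409) (.e (nat_lit 3304) (nat_lit 202) (.e (nat_lit 573485) (nat_lit 13) (.e (nat_lit 65619) (nat_lit 10) (.e (nat_lit 344117) (nat_lit 21) (.e (nat_lit 516106) (nat_lit 0) (.e (nat_lit 7936) (nat_lit 409) (.e (nat_lit 131135) (nat_lit 15) .nil))))))) (.g (nat_lit 1) (.e (nat_lit 82418) (nat_lit 0) .nil) .nil))) 
(.lf (nat_lit 469792) (.g (nat_lit 3139) (.e (nat_lit 3307) (nat_lit 202) (.e (nat_lit 573485) (nat_lit 13) (.e (nat_lit 65604) (nat_lit 9) (.e (nat_lit 336013) (nat_lit 2) (.e (nat_lit 90170) (nat_lit 13) (.e (nat_lit 172068) (nat_lit 4) (.e (nat_lit 229678) (nat_lit 244) (.e (nat_lit 163851) (nat_lit 0) .nil)))))))) (.g (nat_lit 1) (.e (nat_lit 83690) (nat_lit 0) .nil) .nil))))) 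
(.nd (nat_lit 8) (.nd (nat_lit 9) 
(.lf (nat_lit 469152) (.g (nat_lit 4264) (.e (nat_lit 3304) (nat_lit 202) (.e (nat_lit 573477) (nat_lit 12) (.e (nat_lit 57575) (nat_lit 55) (.e (nat_lit 778465) (nat_lit 11) (.e (nat_lit 24604) (nat_lit 2) (.e (nat_lit 90178) (nat_lit 15) (.e (nat_lit 188442) (nat_lit 20) .nil))))))) (.g (nat_lit 1) (.e (nat_lit 82150) (nat_lit 0) .nil) .nil))) 
(.lf (nat_lit 469664) (.g (nat_lit 3066) (.e (nat_lit 3307) (nat_lit 202) (.e (nat_lit 573477) (nat_lit 12) (.e (nat_lit 57575) (nat_lit 55) (.e (nat_lit 778466) (nat_lit 11) (.e (nat_lit 24603) (nat_lit 2) (.e (nat_lit 90176) (nat_lit 15) (.e (nat_lit 188438) (nat_lit 20) .nil))))))) (.g (nat_lit 1) (.e (nat_lit 83321) (nat_lit 0) .nil) .nil)))) (.nd (nat_lit 9) 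
(.lf (nat_lit 469408) (.g (nat_lit 2714) (.e (nat_lit 3305) (nat_lit 202) (.e (nat_lit 573482) (nat_lit 13) (.e (nat_lit 65628) (nat_lit 14) (.e (nat_lit 401425) (nat_lit 2) (.e (nat_lit 196674) (nat_lit 15) .nil))))) (.g (nat_lit 0) (.e (nat_lit 82777) (nat_lit 0) .nil) .nil))) 
(.lf (nat_lit 469920) (.g (nat_lit 1254) (.e (nat_lit 3307) (nat_lit 202) (.e (nat_lit 573489) (nat_lit 14) (.e (nat_lit 73755) (nat_lit 8) (.e (nat_lit 557105) (nat_lit 14) .nil)))) (.g (nat_lit 0) (.e (nat_lit 84024) (nat_lit 0) .nil) .nil)))))) (.nd (nat_lit 7) (.nd (nat_lit 8) (.nd (nat_lit 9) 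
(.lf (nat_lit 469088) (.g (nat_lit 3185) (.e (nat_lit 3302) (nat_lit 202) (.e (nat_lit 573492) (nat_lit 15) (.e (nat_lit 81956) (nat_lit 23) (.e (nat_lit 98386) (nat_lit 32) (.e (nat_lit 475207) (nat_lit 41) (.e (nat_lit 712722) (nat_lit 15) .nil)))))) (.g (nat_lit 1) (.e (nat_lit 82003) (nat_lit 0) .nil) .nil))) 
(.lf (nat_lit 469600) (.g (nat_lit 3041) (.e (nat_lit 3307) (nat_lit 202) (.e (nat_lit 573469) (nat_lit 11) (.e (nat_lit 16472) (nat_lit 14) (.e (nat_lit 491536) (nat_lit 2) (.e (nat_lit 90178) (nat_lit 15) (.e (nat_lit 188440) (nat_lit 20) .nil)))))) (.g (nat_lit 1) (.e (nat_lit 83253) (nat_lit 0) .nil) .nil)))) (.nd (nat_lit 9) 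
(.lf (nat_lit 469344) (.g (nat_lit 2989) (.e (nat_lit 3304) (nat_lit 202) (.e (nat_lit 573493) (nat_lit 15) (.e (nat_lit 81953) (nat_lit 22) (.e (nat_lit 90170) (nat_lit 13) (.e (nat_lit 172068) (nat_lit 4) (.e (nat_lit 229680) (nat_lit 244) (.e (nat_lit 163850) (nat_lit 0) .nil))))))) (.g (nat_lit 1) (.e (nat_lit 82638) (nat_lit 0) .nil) .nil))) 
(.lf (nat_lit 469856) (.g (nat_lit 2250) (.e (nat_lit 3307) (nat_lit 202) (.e (nat_lit 573485) (nat_lit 13) (.e (nat_lit 65619) (nat_lit 10) (.e (nat_lit 344117) (nat_lit 21) (.e (nat_lit 516180) (nat_lit 15) (.e (nat_lit 475209) (nat_lit 41) (.e (nat_lit 712716) (nat_lit 15) .nil))))))) (.g (nat_lit 1) (.e (nat_lit 83784) (nat_lit 0) .nil) .nil))))) (.nd (nat_lit 8) (.nd (nat_lit 9) 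
(.lf (nat_lit 469216) (.g (nat_lit 2793) (.e (nat_lit 3304) (nat_lit 202) (.e (nat_lit 573482) (nat_lit 13) (.e (nat_lit 65630) (nat_lit 14) (.e (nat_lit 401428) (nat_lit 3) (.e (nat_lit 204866) (nat_lit 28) (.e (nat_lit 352265) (nat_lit 0) .nil)))))) (.g (nat_lit 1) (.e (nat_lit 82226) (nat_lit 0) .nil) .nil))) 
(.lf (nat_lit 469728) (.g (nat_lit 4135) (.e (nat_lit 3307) (nat_lit 202) (.e (nat_lit 573484) (nat_lit 13) (.e (nat_lit 65610) (nat_lit 10) (.e (nat_lit 344129) (nat_lit 26) (.e (nat_lit 557087) (nat_lit 11) (.e (nat_lit 24625) (nat_lit 9) (.e (nat_lit 336257) (nat_lit 15) .nil))))))) (.g (nat_lit 1) (.e (nat_lit 83592) (nat_lit 0) .nil) .nil)))) (.nd (nat_lit 9) 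
(.lf (nat_lit 469472) (.g (nat_lit 3240) (.e (nat_lit 3305) (nat_lit 202) (.e (nat_lit 573484) (nat_lit 13) (.e (nat_lit 65617) (nat_lit 10) (.e (nat_lit 344130) (nat_lit 26) (.e (nat_lit 557087) (nat_lit 11) (.e (nat_lit 24636) (nat_lit 9) (.e (nat_lit 336300) (nat_lit 15) .nil))))))) (.g (nat_lit 1) (.e (nat_lit 82933) (nat_lit 0) .nil) .nil))) 
(.lf (nat_lit 469984) (.g (nat_lit 3927) (.e (nat_lit 3307) (nat_lit 202) (.e (nat_lit 573493) (nat_lit 15) (.e (nat_lit 81956) (nat_lit 23) (.e (nat_lit 106240) (nat_lit 17) .nil)))) (.g (nat_lit 0) (.e (nat_lit 84239) (nat_lit 0) .nil) .nil)))))))) (.nd (nat_lit 5) (.nd (nat_lit 6) (.nd (nat_lit 7) (.nd (nat_lit 8) (.nd (nat_lit 9) 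
(.lf (nat_lit 469008) (.g (nat_lit 1103) (.e (nat_lit 3302) (nat_lit 202) (.e (nat_lit 573482) (nat_lit 13) (.e (nat_lit 65628) (nat_lit 14) .nil))) (.g (nat_lit 0) (.e (nat_lit 81715) (nat_lit 0) .nil) .nil))) 
(.lf (nat_lit 469520) (.g (nat_lit 3925) (.e (nat_lit 3305) (nat_lit 202) (.e (nat_lit 573485) (nat_lit 13) (.e (nat_lit 65619) (nat_lit 10) (.e (nat_lit 344129) (nat_lit 26) (.e (nat_lit 557087) (nat_lit 11) (.e (nat_lit 24638) (nat_lit 9) (.e (nat_lit 336293) (nat_lit 15) .nil))))))) (.g (nat_lit 1) (.e (nat_lit 83040) (nat_lit 0) .nil) .nil)))) (.nd (nat_lit 9) 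
(.lf (nat_lit 469264) (.g (nat_lit 5200) (.e (nat_lit 3304) (nat_lit 202) (.e (nat_lit 573485) (nat_lit 13) (.e (nat_lit 65604) (nat_lit 9) (.e (nat_lit 336013) (nat_lit 2) (.e (nat_lit 90170) (nat_lit 13) (.e (nat_lit 172068) (nat_lit 4) (.e (nat_lit 229678) (nat_lit 244) (.e (nat_lit 163850) (nat_lit 0) .nil)))))))) (.g (nat_lit 1) (.e (nat_lit 82392) (nat_lit 0) .nil) .nil))) 
(.lf (nat_lit 469776) (.g (nat_lit 3511) (.e (nat_lit 3307) (nat_lit 202) (.e (nat_lit 573485) (nat_lit 13) (.e (nat_lit 65604) (nat_lit 9) (.e (nat_lit 336013) (nat_lit 2) (.e (nat_lit 90165) (nat_lit 12) (.e (nat_lit 164218) (nat_lit 179) (.e (nat_lit 164337) (nat_lit 232) (.e (nat_lit 77) (nat_lit 0) .nil)))))))) (.g (nat_lit 1) (.e (nat_lit 83674) (nat_lit 0) .nil) .nil))))) 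
(.nd (nat_lit 8) (.nd (nat_lit 9) 
(.lf (nat_lit 469136) (.g (nat_lit 1980) (.e (nat_lit 3304) (nat_lit 202) (.e (nat_lit 573475) (nat_lit 12) (.e (nat_lit 57572) (nat_lit 54) (.e (nat_lit 770072) (nat_lit 8) .nil)))) (.g (nat_lit 0) (.e (nat_lit 82133) (nat_lit 0) .nil) .nil))) 
(.lf (nat_lit 469648) (.g (nat_lit 2607) (.e (nat_lit 3307) (nat_lit 202) (.e (nat_lit 573477) (nat_lit 12) (.e (nat_lit 57574) (nat_lit 55) (.e (nat_lit 778466) (nat_lit 11) (.e (nat_lit 24604) (nat_lit 2) (.e (nat_lit 90178) (nat_lit 15) (.e (nat_lit 188442) (nat_lit 20) .nil))))))) (.g (nat_lit 1) (.e (nat_lit 83305) (nat_lit 0) .nil) .nil)))) (.nd (nat_lit 9) 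
(.lf (nat_lit 469392) (.g (nat_lit 590) (.e (nat_lit 3305) (nat_lit 202) (.e (nat_lit 573481) (nat_lit 13) (.e (nat_lit 65628) (nat_lit 14) .nil))) (.g (nat_lit 0) (.e (nat_lit 82756) (nat_lit 0) .nil) .nil))) 
(.lf (nat_lit 469904) (.g (nat_lit 3098) (.e (nat_lit 3307) (nat_lit 202) (.e (nat_lit 573489) (nat_lit 14) (.e (nat_lit 73754) (nat_lit 8) (.e (nat_lit 557105) (nat_lit 14) (.e (nat_lit 180252) (nat_lit 10) (.e (nat_lit 573475) (nat_lit 12) (.e (nat_lit 57503) (nat_lit 38) (.e (nat_lit 638983) (nat_lit 5) (.e (nat_lit 2461) (nat_lit 157) .nil))))))))) (.g (nat_lit 1) (.e (nat_lit 83872) (nat_lit 0) .nil) .nil)))))) 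
(.nd (nat_lit 7) (.nd (nat_lit 8) (.nd (nat_lit 9) 
(.lf (nat_lit 469072) (.g (nat_lit 3364) (.e (nat_lit 3302) (nat_lit 202) (.e (nat_lit 573492) (nat_lit 15) (.e (nat_lit 81956) (nat_lit 23) (.e (nat_lit 98350) (nat_lit 24) (.e (nat_lit 409617) (nat_lit 10) (.e (nat_lit 5353) (nat_lit 298) (.e (nat_lit 39) (nat_lit 0) .nil))))))) (.g (nat_lit 1) (.e (nat_lit 81972) (nat_lit 0) .nil) .nil))) 
(.lf (nat_lit 469584) (.g (nat_lit 2008) (.e (nat_lit 3306) (nat_lit 202) (.e (nat_lit 573477) (nat_lit 12) (.e (nat_lit 57574) (nat_lit 55) (.e (nat_lit 778465) (nat_lit 11) (.e (nat_lit 24603) (nat_lit 2) .nil))))) (.g (nat_lit 0) (.e (nat_lit 83169) (nat_lit 0) .nil) .nil)))) (.nd (nat_lit 9) 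
(.lf (nat_lit 469328) (.g (nat_lit 2589) (.e (nat_lit 3304) (nat_lit 202) (.e (nat_lit 573492) (nat_lit 15) (.e (nat_lit 81956) (nat_lit 23) (.e (nat_lit 98389) (nat_lit 33) .nil)))) (.g (nat_lit 0) (.e (nat_lit 82574) (nat_lit 0) .nil) .nil))) 
(.lf (nat_lit 469840) (.g (nat_lit 4026) (.e (nat_lit 3307) (nat_lit 202) (.e (nat_lit 573485) (nat_lit 13) (.e (nat_lit 65619) (nat_lit 10) (.e (nat_lit 344117) (nat_lit 21) (.e (nat_lit 516106) (nat_lit 0) (.e (nat_lit 7095) (nat_lit 380) (.e (nat_lit 164337) (nat_lit 232) (.e (nat_lit 77) (nat_lit 0) .nil)))))))) (.g (nat_lit 1) (.e (nat_lit 83765) (nat_lit 0) .nil) .nil))))) 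
(.nd (nat_lit 8) (.nd (nat_lit 9) 
(.lf (nat_lit 469200) (.g (nat_lit 2277) (.e (nat_lit 3304) (nat_lit 202) (.e (nat_lit 573482) (nat_lit 13) (.e (nat_lit 65619) (nat_lit 10) (.e (nat_lit 344129) (nat_lit 26) (.e (nat_lit 557087) (nat_lit 11) (.e (nat_lit 24632) (nat_lit 9) (.e (nat_lit 336292) (nat_lit 15) .nil))))))) (.g (nat_lit 1) (.e (nat_lit 82207) (nat_lit 0) .nil) .nil))) 
(.lf (nat_lit 469712) (.g (nat_lit 4305) (.e (nat_lit 3307) (nat_lit 202) (.e (nat_lit 573484) (nat_lit 13) (.e (nat_lit 65610) (nat_lit 10) (.e (nat_lit 344117) (nat_lit 21) (.e (nat_lit 516185) (nat_lit 16) (.e (nat_lit 491547) (nat_lit 9) (.e (nat_lit 336260) (nat_lit 15) .nil))))))) (.g (nat_lit 1) (.e (nat_lit 83535) (nat_lit 0) .nil) .nil)))) (.nd (nat_lit 9) 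
(.lf (nat_lit 469456) (.g (nat_lit 2490) (.e (nat_lit 3305) (nat_lit 202) (.e (nat_lit 573484) (nat_lit 13) (.e (nat_lit 65617) (nat_lit 10) (.e (nat_lit 344130) (nat_lit 26) (.e (nat_lit 557087) (nat_lit 11) (.e (nat_lit 24624) (nat_lit 9) (.e (nat_lit 336270) (nat_lit 15) .nil))))))) (.g (nat_lit 1) (.e (nat_lit 82917) (nat_lit 0) .nil) .nil))) 
(.lf (nat_lit 469968) (.g (nat_lit 2814) (.e (nat_lit 3307) (nat_lit 202) (.e (nat_lit 573493) (nat_lit 15) (.e (nat_lit 81951) (nat_lit 22) (.e (nat_lit 90165) (nat_lit 12) .nil)))) (.g (nat_lit 0) (.e (nat_lit 84200) (nat_lit 0) .nil) .nil))))))) (.nd (nat_lit 6) (.nd (nat_lit 7) (.nd (nat_lit 8) (.nd (nat_lit 9) 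
(.lf (nat_lit 469040) (.g (nat_lit 2235) (.e (nat_lit 3302) (nat_lit 202) (.e (nat_lit 573489) (nat_lit 14) (.e (nat_lit 73755) (nat_lit 8) (.e (nat_lit 557105) (nat_lit 14) .nil)))) (.g (nat_lit 0) (.e (nat_lit 81814) (nat_lit 0) .nil) .nil))) 
(.lf (nat_lit 469552) (.g (nat_lit 4672) (.e (nat_lit 3305) (nat_lit 202) (.e (nat_lit 573492) (nat_lit 15) (.e (nat_lit 81956) (nat_lit 23) (.e (nat_lit 98320) (nat_lit 17) (.e (nat_lit 7587) (nat_lit 406) (.e (nat_lit 65637) (nat_lit 15) .nil)))))) (.g (nat_lit 1) (.e (nat_lit 83109) (nat_lit 0) .nil) .nil)))) (.nd (nat_lit 9) 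
(.lf (nat_lit 469296) (.g (nat_lit 3984) (.e (nat_lit 3304) (nat_lit 202) (.e (nat_lit 573485) (nat_lit 13) (.e (nat_lit 65619) (nat_lit 10) (.e (nat_lit 344129) (nat_lit 26) (.e (nat_lit 557087) (nat_lit 11) (.e (nat_lit 24632) (nat_lit 9) (.e (nat_lit 336267) (nat_lit 15) .nil))))))) (.g (nat_lit 1) (.e (nat_lit 82443) (nat_lit 0) .nil) .nil))) 
(.lf (nat_lit 469808) (.g (nat_lit 3561) (.e (nat_lit 3307) (nat_lit 202) (.e (nat_lit 573485) (nat_lit 13) (.e (nat_lit 65604) (nat_lit 9) (.e (nat_lit 336028) (nat_lit 3) (.e (nat_lit 98325) (nat_lit 17) (.e (nat_lit 7008) (nat_lit 377) (.e (nat_lit 2787) (nat_lit 179) (.e (nat_lit 294966) (nat_lit 15) .nil)))))))) (.g (nat_lit 1) (.e (nat_lit 83706) (nat_lit 0) .nil) .nil))))) 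
(.nd (nat_lit 8) (.nd (nat_lit 9) 
(.lf (nat_lit 469168) (.g (nat_lit 3023) (.e (nat_lit 3304) (nat_lit 202) (.e (nat_lit 573482) (nat_lit 13) (.e (nat_lit 65604) (nat_lit 9) (.e (nat_lit 336013) (nat_lit 2) (.e (nat_lit 90170) (nat_lit 13) (.e (nat_lit 172068) (nat_lit 4) (.e (nat_lit 229680) (nat_lit 244) (.e (nat_lit 163850) (nat_lit 0) .nil)))))))) (.g (nat_lit 1) (.e (nat_lit 82168) (nat_lit 0) .nil) .nil))) 
(.lf (nat_lit 469680) (.g (nat_lit 2698) (.e (nat_lit 3307) (nat_lit 202) (.e (nat_lit 573482) (nat_lit 13) (.e (nat_lit 65619) (nat_lit 10) (.e (nat_lit 344117) (nat_lit 21) (.e (nat_lit 516106) (nat_lit 0) .nil))))) (.g (nat_lit 0) (.e (nat_lit 83342) (nat_lit 0) .nil) .nil)))) (.nd (nat_lit 9) 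
(.lf (nat_lit 469424) (.g (nat_lit 2520) (.e (nat_lit 3305) (nat_lit 202) (.e (nat_lit 573484) (nat_lit 13) (.e (nat_lit 65610) (nat_lit 10) (.e (nat_lit 344117) (nat_lit 21) (.e (nat_lit 516106) (nat_lit 0) (.e (nat_lit 7936) (nat_lit 409) (.e (nat_lit 131132) (nat_lit 15) .nil))))))) (.g (nat_lit 1) (.e (nat_lit 82824) (nat_lit 0) .nil) .nil))) 
(.lf (nat_lit 469936) (.g (nat_lit 4171) (.e (nat_lit 3307) (nat_lit 202) (.e (nat_lit 573489) (nat_lit 14) (.e (nat_lit 73755) (nat_lit 8) (.e (nat_lit 557105) (nat_lit 14) (.e (nat_lit 180252) (nat_lit 10) (.e (nat_lit 573474) (nat_lit 12) (.e (nat_lit 57503) (nat_lit 38) (.e (nat_lit 638985) (nat_lit 5) (.e (nat_lit 2473) (nat_lit 157) .nil))))))))) (.g (nat_lit 1) (.e (nat_lit 84132) (nat_lit 0) .nil) .nil)))))) 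
(.nd (nat_lit 7) (.nd (nat_lit 8) (.nd (nat_lit 9) 
(.lf (nat_lit 469104) (.g (nat_lit 903) (.e (nat_lit 3302) (nat_lit 202) (.e (nat_lit 573493) (nat_lit 15) (.e (nat_lit 81953) (nat_lit 22) .nil))) (.g (nat_lit 0) (.e (nat_lit 82052) (nat_lit 0) .nil) .nil))) 
(.lf (nat_lit 469616) (.g (nat_lit 4159) (.e (nat_lit 3307) (nat_lit 202) (.e (nat_lit 573474) (nat_lit 12) (.e (nat_lit 57572) (nat_lit 54) (.e (nat_lit 770071) (nat_lit 8) (.e (nat_lit 65568) (nat_lit 2) (.e (nat_lit 90178) (nat_lit 15) (.e (nat_lit 188440) (nat_lit 20) .nil))))))) (.g (nat_lit 1) (.e (nat_lit 83270) (nat_lit 0) .nil) .nil)))) (.nd (nat_lit 9) 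
(.lf (nat_lit 469360) (.g (nat_lit 3263) (.e (nat_lit 3304) (nat_lit 202) (.e (nat_lit 573493) (nat_lit 15) (.e (nat_lit 81956) (nat_lit 23) (.e (nat_lit 98384) (nat_lit 32) .nil)))) (.g (nat_lit 0) (.e (nat_lit 82709) (nat_lit 0) .nil) .nil))) 
(.lf (nat_lit 469872) (.g (nat_lit 3137) (.e (nat_lit 3307) (nat_lit 202) (.e (nat_lit 573485) (nat_lit 13) (.e (nat_lit 65619) (nat_lit 10) (.e (nat_lit 344129) (nat_lit 26) (.e (nat_lit 557085) (nat_lit 11) (.e (nat_lit 24627) (nat_lit 9) (.e (nat_lit 336306) (nat_lit 15) .nil))))))) (.g (nat_lit 1) (.e (nat_lit 83806) (nat_lit 0) .nil) .nil))))) (.nd (nat_lit 8) (.nd (nat_lit 9) 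
(.lf (nat_lit 469232) (.g (nat_lit 3301) (.e (nat_lit 3304) (nat_lit 202) (.e (nat_lit 573484) (nat_lit 13) (.e (nat_lit 65617) (nat_lit 10) (.e (nat_lit 344130) (nat_lit 26) (.e (nat_lit 557087) (nat_lit 11) (.e (nat_lit 24623) (nat_lit 9) (.e (nat_lit 336303) (nat_lit 15) .nil))))))) (.g (nat_lit 1) (.e (nat_lit 82314) (nat_lit 0) .nil) .nil))) 
(.lf (nat_lit 469744) (.g (nat_lit 4103) (.e (nat_lit 3307) (nat_lit 202) (.e (nat_lit 573484) (nat_lit 13) (.e (nat_lit 65617) (nat_lit 10) (.e (nat_lit 344130) (nat_lit 26) (.e (nat_lit 557086) (nat_lit 11) (.e (nat_lit 24630) (nat_lit 9) (.e (nat_lit 336306) (nat_lit 15) .nil))))))) (.g (nat_lit 1) (.e (nat_lit 83612) (nat_lit 0) .nil) .nil)))) (.nd (nat_lit 9) 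
(.lf (nat_lit 469488) (.g (nat_lit 2302) (.e (nat_lit 3305) (nat_lit 202) (.e (nat_lit 573484) (nat_lit 13) (.e (nat_lit 65630) (nat_lit 14) (.e (nat_lit 401412) (nat_lit 0) (.e (nat_lit 3114) (nat_lit 193) .nil))))) (.g (nat_lit 0) (.e (nat_lit 82994) (nat_lit 0) .nil) .nil))) 
(.lf (nat_lit 470000) (.g (nat_lit 4481) (.e (nat_lit 3307) (nat_lit 202) (.e (nat_lit 573493) (nat_lit 15) (.e (nat_lit 81956) (nat_lit 23) (.e (nat_lit 98389) (nat_lit 33) (.e (nat_lit 491546) (nat_lit 9) (.e (nat_lit 336260) (nat_lit 15) .nil)))))) (.g (nat_lit 1) (.e (nat_lit 84271) (nat_lit 0) .nil) .nil))))))))) 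
(.nd (nat_lit 4) (.nd (nat_lit 5) (.nd (nat_lit 6) (.nd (nat_lit 7) (.nd (nat_lit 8) 
(.nd (nat_lit 9) 
(.lf (nat_lit 469000) (.g (nat_lit 2758) (.e (nat_lit 3302) (nat_lit 202) (.e (nat_lit 573482) (nat_lit 13) (.e (nat_lit 65619) (nat_lit 10) (.e (nat_lit 344115) (nat_lit 20) (.e (nat_lit 507906) (nat_lit 0) (.e (nat_lit 5405) (nat_lit 302) (.e (nat_lit 65636) (nat_lit 15) .nil))))))) (.g (nat_lit 1) (.e (nat_lit 81707) (nat_lit 0) .nil) .nil))) 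
(.lf (nat_lit 469512) (.g (nat_lit 1573) (.e (nat_lit 3305) (nat_lit 202) (.e (nat_lit 573485) (nat_lit 13) (.e (nat_lit 65619) (nat_lit 10) (.e (nat_lit 344129) (nat_lit 26) (.e (nat_lit 557087) (nat_lit 11) .nil))))) (.g (nat_lit 0) (.e (nat_lit 83032) (nat_lit 0) .nil) .nil)))) (.nd (nat_lit 9) 
(.lf (nat_lit 469256) (.g (nat_lit 4476) (.e (nat_lit 3304) (nat_lit 202) (.e (nat_lit 573484) (nat_lit 13) (.e (nat_lit 65617) (nat_lit 10) (.e (nat_lit 344133) (nat_lit 26) (.e (nat_lit 557085) (nat_lit 11) (.e (nat_lit 24630) (nat_lit 9) (.e (nat_lit 336260) (nat_lit 15) .nil))))))) (.g (nat_lit 1) (.e (nat_lit 82362) (nat_lit 0) .nil) .nil))) 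
(.lf (nat_lit 469768) (.g (nat_lit 4043) (.e (nat_lit 3307) (nat_lit 202) (.e (nat_lit 573485) (nat_lit 13) (.e (nat_lit 65604) (nat_lit 9) (.e (nat_lit 336013) (nat_lit 2) (.e (nat_lit 90165) (nat_lit 12) (.e (nat_lit 164208) (nat_lit 176) (.e (nat_lit 2781) (nat_lit 178) (.e (nat_lit 286765) (nat_lit 15) .nil)))))))) (.g (nat_lit 1) (.e (nat_lit 83666) (nat_lit 0) .nil) .nil))))) 
(.nd (nat_lit 8) (.nd (nat_lit 9) 
(.lf (nat_lit 469128) (.g (nat_lit 2619) (.e (nat_lit 3303) (nat_lit 202) (.e (nat_lit 573489) (nat_lit 14) (.e (nat_lit 73755) (nat_lit 8) (.e (nat_lit 557096) (nat_lit 13) .nil)))) (.g (nat_lit 0) (.e (nat_lit 82093) (nat_lit 0) .nil) .nil))) 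
(.lf (nat_lit 469640) (.g (nat_lit 1846) (.e (nat_lit 3307) (nat_lit 202) (.e (nat_lit 573477) (nat_lit 12) (.e (nat_lit 57574) (nat_lit 55) (.e (nat_lit 778466) (nat_lit 11) (.e (nat_lit 24603) (nat_lit 2) (.e (nat_lit 90175) (nat_lit 15) (.e (nat_lit 188436) (nat_lit 20) .nil))))))) (.g (nat_lit 1) (.e (nat_lit 83297) (nat_lit 0) .nil) .nil)))) (.nd (nat_lit 9) 
(.lf (nat_lit 469384) (.g (nat_lit 1893) (.e (nat_lit 3305) (nat_lit 202) (.e (nat_lit 573479) (nat_lit 13) (.e (nat_lit 65630) (nat_lit 14) (.e (nat_lit 401428) (nat_lit 3) (.e (nat_lit 204877) (nat_lit 31) (.e (nat_lit 376835) (nat_lit 0) .nil)))))) (.g (nat_lit 1) (.e (nat_lit 82748) (nat_lit 0) .nil) .nil))) 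
(.lf (nat_lit 469896) (.g (nat_lit 2095) (.e (nat_lit 3307) (nat_lit 202) (.e (nat_lit 573485) (nat_lit 13) (.e (nat_lit 65628) (nat_lit 14) (.e (nat_lit 401428) (nat_lit 3) (.e (nat_lit 204877) (nat_lit 31) (.e (nat_lit 384768) (nat_lit 0) .nil)))))) (.g (nat_lit 1) (.e (nat_lit 83830) (nat_lit 0) .nil) .nil)))))) (.nd (nat_lit 7) (.nd (nat_lit 8) (.nd (nat_lit 9) 
(.lf (nat_lit 469064) (.g (nat_lit 2533) (.e (nat_lit 3302) (nat_lit 202) (.e (nat_lit 573492) (nat_lit 15) (.e (nat_lit 81956) (nat_lit 23) (.e (nat_lit 98323) (nat_lit 17) (.e (nat_lit 7936) (nat_lit 406) (.e (nat_lit 65636) (nat_lit 15) .nil)))))) (.g (nat_lit 1) (.e (nat_lit 81957) (nat_lit 0) .nil) .nil))) 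
(.lf (nat_lit 469576) (.g (nat_lit 3328) (.e (nat_lit 3305) (nat_lit 202) (.e (nat_lit 573493) (nat_lit 15) (.e (nat_lit 81956) (nat_lit 23) (.e (nat_lit 98322) (nat_lit 17) .nil)))) (.g (nat_lit 0) (.e (nat_lit 83154) (nat_lit 0) .nil) .nil)))) (.nd (nat_lit 9) 
(.lf (nat_lit 469320) (.g (nat_lit 2906) (.e (nat_lit 3304) (nat_lit 202) (.e (nat_lit 573491) (nat_lit 15) (.e (nat_lit 81954) (nat_lit 23) (.e (nat_lit 98384) (nat_lit 32) (.e (nat_lit 475207) (nat_lit 41) .nil))))) (.g (nat_lit 0) (.e (nat_lit 82545) (nat_lit 0) .nil) .nil))) 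
(.lf (nat_lit 469832) (.g (nat_lit 5369) (.e (nat_lit 3307) (nat_lit 202) (.e (nat_lit 573485) (nat_lit 13) (.e (nat_lit 65619) (nat_lit 10) (.e (nat_lit 344117) (nat_lit 21) (.e (nat_lit 516106) (nat_lit 0) (.e (nat_lit 6986) (nat_lit 377) (.e (nat_lit 2781) (nat_lit 178) (.e (nat_lit 286765) (nat_lit 15) .nil)))))))) (.g (nat_lit 1) (.e (nat_lit 83757) (nat_lit 0) .nil) .nil))))) 
(.nd (nat_lit 8) (.nd (nat_lit 9) 
(.lf (nat_lit 469192) (.g (nat_lit 2611) (.e (nat_lit 3304) (nat_lit 202) (.e (nat_lit 573482) (nat_lit 13) (.e (nat_lit 65619) (nat_lit 10) (.e (nat_lit 344117) (nat_lit 21) (.e (nat_lit 516180) (nat_lit 15) (.e (nat_lit 475208) (nat_lit 41) (.e (nat_lit 712719) (nat_lit 15) .nil))))))) (.g (nat_lit 1) (.e (nat_lit 82196) (nat_lit 0) .nil) .nil))) 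
(.lf (nat_lit 469704) (.g (nat_lit 3006) (.e (nat_lit 3307) (nat_lit 202) (.e (nat_lit 573484) (nat_lit 13) (.e (nat_lit 65610) (nat_lit 10) (.e (nat_lit 344117) (nat_lit 21) (.e (nat_lit 516183) (nat_lit 16) (.e (nat_lit 491550) (nat_lit 9) (.e (nat_lit 336260) (nat_lit 15) .nil))))))) (.g (nat_lit 1) (.e (nat_lit 83527) (nat_lit 0) .nil) .nil)))) (.nd (nat_lit 9) 
(.lf (nat_lit 469448) (.g (nat_lit 813) (.e (nat_lit 3305) (nat_lit 202) (.e (nat_lit 573484) (nat_lit 13) (.e (nat_lit 65617) (nat_lit 10) (.e (nat_lit 344130) (nat_lit 26) .nil)))) (.g (nat_lit 0) (.e (nat_lit 82896) (nat_lit 0) .nil) .nil))) 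
(.lf (nat_lit 469960) (.g (nat_lit 3361) (.e (nat_lit 3307) (nat_lit 202) (.e (nat_lit 573490) (nat_lit 15) (.e (nat_lit 81956) (nat_lit 23) (.e (nat_lit 98389) (nat_lit 33) (.e (nat_lit 491556) (nat_lit 9) (.e (nat_lit 336305) (nat_lit 15) .nil)))))) (.g (nat_lit 1) (.e (nat_lit 84171) (nat_lit 0) .nil) .nil))))))) (.nd (nat_lit 6) (.nd (nat_lit 7) (.nd (nat_lit 8) (.nd (nat_lit 9) 
(.lf (nat_lit 469032) (.g (nat_lit 1499) (.e (nat_lit 3302) (nat_lit 202) (.e (nat_lit 573485) (nat_lit 13) (.e (nat_lit 65628) (nat_lit 14) (.e (nat_lit 401428) (nat_lit 3) (.e (nat_lit 204865) (nat_lit 28) (.e (nat_lit 360192) (nat_lit 0) .nil)))))) (.g (nat_lit 1) (.e (nat_lit 81766) (nat_lit 0) .nil) .nil))) 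
(.lf (nat_lit 469544) (.g (nat_lit 1431) (.e (nat_lit 3305) (nat_lit 202) (.e (nat_lit 573491) (nat_lit 15) (.e (nat_lit 81956) (nat_lit 23) (.e (nat_lit 98325) (nat_lit 17) .nil)))) (.g (nat_lit 0) (.e (nat_lit 83100) (nat_lit 0) .nil) .nil)))) (.nd (nat_lit 9) 
(.lf (nat_lit 469288) (.g (nat_lit 2662) (.e (nat_lit 3304) (nat_lit 202) (.e (nat_lit 573485) (nat_lit 13) (.e (nat_lit 65619) (nat_lit 10) (.e (nat_lit 344117) (nat_lit 21) (.e (nat_lit 516180) (nat_lit 15) (.e (nat_lit 475208) (nat_lit 41) (.e (nat_lit 712719) (nat_lit 15) .nil))))))) (.g (nat_lit 1) (.e (nat_lit 82426) (nat_lit 0) .nil) .nil))) 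
(.lf (nat_lit 469800) (.g (nat_lit 1807) (.e (nat_lit 3307) (nat_lit 202) (.e (nat_lit 573485) (nat_lit 13) (.e (nat_lit 65604) (nat_lit 9) (.e (nat_lit 336028) (nat_lit 3) (.e (nat_lit 98325) (nat_lit 17) .nil))))) (.g (nat_lit 0) (.e (nat_lit 83698) (nat_lit 0) .nil) .nil))))) (.nd (nat_lit 8) (.nd (nat_lit 9) 
(.lf (nat_lit 469160) (.g (nat_lit 2002) (.e (nat_lit 3304) (nat_lit 202) (.e (nat_lit 573479) (nat_lit 13) (.e (nat_lit 65630) (nat_lit 14) (.e (nat_lit 401428) (nat_lit 3) (.e (nat_lit 204877) (nat_lit 31) (.e (nat_lit 376835) (nat_lit 0) .nil)))))) (.g (nat_lit 1) (.e (nat_lit 82159) (nat_lit 0) .nil) .nil))) 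
(.lf (nat_lit 469672) (.g (nat_lit 2054) (.e (nat_lit 3307) (nat_lit 202) (.e (nat_lit 573478) (nat_lit 12) (.e (nat_lit 57574) (nat_lit 55) (.e (nat_lit 778465) (nat_lit 11) (.e (nat_lit 24604) (nat_lit 2) (.e (nat_lit 90176) (nat_lit 15) (.e (nat_lit 188438) (nat_lit 20) .nil))))))) (.g (nat_lit 1) (.e (nat_lit 83334) (nat_lit 0) .nil) .nil)))) (.nd (nat_lit 9) 
(.lf (nat_lit 469416) (.g (nat_lit 4015) (.e (nat_lit 3305) (nat_lit 202) (.e (nat_lit 573484) (nat_lit 13) (.e (nat_lit 65610) (nat_lit 10) (.e (nat_lit 344117) (nat_lit 21) (.e (nat_lit 516097) (nat_lit 0) (.e (nat_lit 7587) (nat_lit 406) (.e (nat_lit 65637) (nat_lit 15) .nil))))))) (.g (nat_lit 1) (.e (nat_lit 82816) (nat_lit 0) .nil) .nil))) 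
(.lf (nat_lit 469928) (.g (nat_lit 2912) (.e (nat_lit 3307) (nat_lit 202) (.e (nat_lit 573489) (nat_lit 14) (.e (nat_lit 73755) (nat_lit 8) (.e (nat_lit 557105) (nat_lit 14) (.e (nat_lit 180252) (nat_lit 10) (.e (nat_lit 573473) (nat_lit 12) (.e (nat_lit 57503) (nat_lit 38) (.e (nat_lit 638985) (nat_lit 5) (.e (nat_lit 2461) (nat_lit 157) .nil))))))))) (.g (nat_lit 1) (.e (nat_lit 84081) (nat_lit 0) .nil) .nil)))))) 
(.nd (nat_lit 7) (.nd (nat_lit 8) (.nd (nat_lit 9) 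
(.lf (nat_lit 469096) (.g (nat_lit 3061) (.e (nat_lit 3302) (nat_lit 202) (.e (nat_lit 573492) (nat_lit 15) (.e (nat_lit 81956) (nat_lit 23) (.e (nat_lit 98389) (nat_lit 33) (.e (nat_lit 491546) (nat_lit 9) (.e (nat_lit 336280) (nat_lit 15) .nil)))))) (.g (nat_lit 1) (.e (nat_lit 82011) (nat_lit 0) .nil) .nil))) 
(.lf (nat_lit 469608) (.g (nat_lit 1270) (.e (nat_lit 3307) (nat_lit 202) (.e (nat_lit 573471) (nat_lit 11) (.e (nat_lit 16425) (nat_lit 7) .nil))) (.g (nat_lit 0) (.e (nat_lit 83261) (nat_lit 0) .nil) .nil)))) (.nd (nat_lit 9) 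
(.lf (nat_lit 469352) (.g (nat_lit 360) (.e (nat_lit 3304) (nat_lit 202) (.e (nat_lit 573493) (nat_lit 15) (.e (nat_lit 81956) (nat_lit 23) .nil))) (.g (nat_lit 0) (.e (nat_lit 82660) (nat_lit 0) .nil) .nil))) 
(.lf (nat_lit 469864) (.g (nat_lit 3932) (.e (nat_lit 3307) (nat_lit 202) (.e (nat_lit 573485) (nat_lit 13) (.e (nat_lit 65619) (nat_lit 10) (.e (nat_lit 344117) (nat_lit 21) (.e (nat_lit 516184) (nat_lit 16) (.e (nat_lit 491550) (nat_lit 9) (.e (nat_lit 336306) (nat_lit 15) .nil))))))) (.g (nat_lit 1) (.e (nat_lit 83792) (nat_lit 0) .nil) .nil))))) (.nd (nat_lit 8) (.nd (nat_lit 9) 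
(.lf (nat_lit 469224) (.g (nat_lit 409) (.e (nat_lit 3304) (nat_lit 202) (.e (nat_lit 573484) (nat_lit 13) (.e (nat_lit 65617) (nat_lit 10) .nil))) (.g (nat_lit 0) (.e (nat_lit 82276) (nat_lit 0) .nil) .nil))) 
(.lf (nat_lit 469736) (.g (nat_lit 2149) (.e (nat_lit 3307) (nat_lit 202) (.e (nat_lit 573484) (nat_lit 13) (.e (nat_lit 65610) (nat_lit 10) (.e (nat_lit 344129) (nat_lit 26) (.e (nat_lit 557087) (nat_lit 11) (.e (nat_lit 24636) (nat_lit 9) (.e (nat_lit 343808) (nat_lit 15) .nil))))))) (.g (nat_lit 1) (.e (nat_lit 83601) (nat_lit 0) .nil) .nil)))) (.nd (nat_lit 9) 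
(.lf (nat_lit 469480) (.g (nat_lit 3193) (.e (nat_lit 3305) (nat_lit 202) (.e (nat_lit 573484) (nat_lit 13) (.e (nat_lit 65617) (nat_lit 10) (.e (nat_lit 344132) (nat_lit 26) (.e (nat_lit 557085) (nat_lit 11) (.e (nat_lit 24627) (nat_lit 9) (.e (nat_lit 336270) (nat_lit 15) .nil))))))) (.g (nat_lit 1) (.e (nat_lit 82958) (nat_lit 0) .nil) .nil))) 
(.lf (nat_lit 469992) (.g (nat_lit 2647) (.e (nat_lit 3307) (nat_lit 202) (.e (nat_lit 573493) (nat_lit 15) (.e (nat_lit 81956) (nat_lit 23) (.e (nat_lit 98367) (nat_lit 27) .nil)))) (.g (nat_lit 0) (.e (nat_lit 84259) (nat_lit 0) .nil) .nil)))))))) (.nd (nat_lit 5) (.nd (nat_lit 6) (.nd (nat_lit 7) (.nd (nat_lit 8) (.nd (nat_lit 9) 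
(.lf (nat_lit 469016) (.g (nat_lit 2732) (.e (nat_lit 3302) (nat_lit 202) (.e (nat_lit 573484) (nat_lit 13) (.e (nat_lit 65610) (nat_lit 10) (.e (nat_lit 344117) (nat_lit 21) (.e (nat_lit 516145) (nat_lit 9) (.e (nat_lit 426416) (nat_lit 15) (.e (nat_lit 2174) (nat_lit 143) (.e (nat_lit 712722) (nat_lit 15) .nil)))))))) (.g (nat_lit 1) (.e (nat_lit 81729) (nat_lit 0) .nil) .nil))) 
(.lf (nat_lit 469528) (.g (nat_lit 2977) (.e (nat_lit 3305) (nat_lit 202) (.e (nat_lit 573485) (nat_lit 13) (.e (nat_lit 65630) (nat_lit 14) (.e (nat_lit 401425) (nat_lit 2) (.e (nat_lit 196672) (nat_lit 15) (.e (nat_lit 81924) (nat_lit 0) .nil)))))) (.g (nat_lit 1) (.e (nat_lit 83050) (nat_lit 0) .nil) .nil)))) (.nd (nat_lit 9) 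
(.lf (nat_lit 469272) (.g (nat_lit 1716) (.e (nat_lit 3304) (nat_lit 202) (.e (nat_lit 573485) (nat_lit 13) (.e (nat_lit 65604) (nat_lit 9) (.e (nat_lit 336028) (nat_lit 3) (.e (nat_lit 98325) (nat_lit 17) .nil))))) (.g (nat_lit 0) (.e (nat_lit 82401) (nat_lit 0) .nil) .nil))) 
(.lf (nat_lit 469784) (.g (nat_lit 2218) (.e (nat_lit 3307) (nat_lit 202) (.e (nat_lit 573485) (nat_lit 13) (.e (nat_lit 65604) (nat_lit 9) (.e (nat_lit 336013) (nat_lit 2) (.e (nat_lit 90165) (nat_lit 12) (.e (nat_lit 164219) (nat_lit 180) (.e (nat_lit 229647) (nat_lit 232) (.e (nat_lit 7936) (nat_lit 0) .nil)))))))) (.g (nat_lit 1) (.e (nat_lit 83682) (nat_lit 0) .nil) .nil))))) 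
(.nd (nat_lit 8) (.nd (nat_lit 9) 
(.lf (nat_lit 469144) (.g (nat_lit 5216) (.e (nat_lit 3304) (nat_lit 202) (.e (nat_lit 573477) (nat_lit 12) (.e (nat_lit 57574) (nat_lit 55) (.e (nat_lit 778466) (nat_lit 11) (.e (nat_lit 24608) (nat_lit 3) (.e (nat_lit 98381) (nat_lit 31) (.e (nat_lit 466967) (nat_lit 20) .nil))))))) (.g (nat_lit 1) (.e (nat_lit 82142) (nat_lit 0) .nil) .nil))) 
(.lf (nat_lit 469656) (.g (nat_lit 2870) (.e (nat_lit 3307) (nat_lit 202) (.e (nat_lit 573477) (nat_lit 12) (.e (nat_lit 57575) (nat_lit 55) (.e (nat_lit 778465) (nat_lit 11) (.e (nat_lit 24604) (nat_lit 2) (.e (nat_lit 90176) (nat_lit 15) (.e (nat_lit 188436) (nat_lit 20) .nil))))))) (.g (nat_lit 1) (.e (nat_lit 83313) (nat_lit 0) .nil) .nil)))) (.nd (nat_lit 9) 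
(.lf (nat_lit 469400) (.g (nat_lit 4151) (.e (nat_lit 3305) (nat_lit 202) (.e (nat_lit 573482) (nat_lit 13) (.e (nat_lit 65619) (nat_lit 10) (.e (nat_lit 344117) (nat_lit 21) (.e (nat_lit 516185) (nat_lit 16) (.e (nat_lit 491552) (nat_lit 9) (.e (nat_lit 336282) (nat_lit 15) .nil))))))) (.g (nat_lit 1) (.e (nat_lit 82765) (nat_lit 0) .nil) .nil))) 
(.lf (nat_lit 469912) (.g (nat_lit 1568) (.e (nat_lit 3307) (nat_lit 202) (.e (nat_lit 573489) (nat_lit 14) (.e (nat_lit 73755) (nat_lit 8) (.e (nat_lit 557097) (nat_lit 13) .nil)))) (.g (nat_lit 0) (.e (nat_lit 83903) (nat_lit 0) .nil) .nil)))))) (.nd (nat_lit 7) (.nd (nat_lit 8) (.nd (nat_lit 9) 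
(.lf (nat_lit 469080) (.g (nat_lit 2974) (.e (nat_lit 3302) (nat_lit 202) (.e (nat_lit 573492) (nat_lit 15) (.e (nat_lit 81956) (nat_lit 23) (.e (nat_lit 98356) (nat_lit 26) (.e (nat_lit 426440) (nat_lit 19) (.e (nat_lit 106498) (nat_lit 0) (.e (nat_lit 2505) (nat_lit 157) .nil))))))) (.g (nat_lit 1) (.e (nat_lit 81989) (nat_lit 0) .nil) .nil))) 
(.lf (nat_lit 469592) (.g (nat_lit 2671) (.e (nat_lit 3306) (nat_lit 202) (.e (nat_lit 573489) (nat_lit 14) (.e (nat_lit 73755) (nat_lit 8) (.e (nat_lit 557098) (nat_lit 13) .nil)))) (.g (nat_lit 0) (.e (nat_lit 83196) (nat_lit 0) .nil) .nil)))) (.nd (nat_lit 9) 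
(.lf (nat_lit 469336) (.g (nat_lit 4510) (.e (nat_lit 3304) (nat_lit 202) (.e (nat_lit 573492) (nat_lit 15) (.e (nat_lit 81956) (nat_lit 23) (.e (nat_lit 98389) (nat_lit 33) (.e (nat_lit 491556) (nat_lit 9) (.e (nat_lit 336300) (nat_lit 15) .nil)))))) (.g (nat_lit 1) (.e (nat_lit 82582) (nat_lit 0) .nil) .nil))) 
(.lf (nat_lit 469848) (.g (nat_lit 2920) (.e (nat_lit 3307) (nat_lit 202) (.e (nat_lit 573485) (nat_lit 13) (.e (nat_lit 65619) (nat_lit 10) (.e (nat_lit 344117) (nat_lit 21) (.e (nat_lit 516106) (nat_lit 0) (.e (nat_lit 7936) (nat_lit 409) (.e (nat_lit 139008) (nat_lit 15) .nil))))))) (.g (nat_lit 1) (.e (nat_lit 83775) (nat_lit 0) .nil) .nil))))) (.nd (nat_lit 8) (.nd (nat_lit 9) 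
(.lf (nat_lit 469208) (.g (nat_lit 1320) (.e (nat_lit 3304) (nat_lit 202) (.e (nat_lit 573482) (nat_lit 13) (.e (nat_lit 65628) (nat_lit 14) (.e (nat_lit 401428) (nat_lit 3) .nil)))) (.g (nat_lit 0) (.e (nat_lit 82216) (nat_lit 0) .nil) .nil))) 
(.lf (nat_lit 469720) (.g (nat_lit 3646) (.e (nat_lit 3307) (nat_lit 202) (.e (nat_lit 573484) (nat_lit 13) (.e (nat_lit 65610) (nat_lit 10) (.e (nat_lit 344129) (nat_lit 26) (.e (nat_lit 557085) (nat_lit 11) (.e (nat_lit 24627) (nat_lit 9) (.e (nat_lit 336306) (nat_lit 15) .nil))))))) (.g (nat_lit 1) (.e (nat_lit 83583) (nat_lit 0) .nil) .nil)))) (.nd (nat_lit 9) 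
(.lf (nat_lit 469464) (.g (nat_lit 3228) (.e (nat_lit 3305) (nat_lit 202) (.e (nat_lit 573484) (nat_lit 13) (.e (nat_lit 65617) (nat_lit 10) (.e (nat_lit 344130) (nat_lit 26) (.e (nat_lit 557087) (nat_lit 11) (.e (nat_lit 24632) (nat_lit 9) (.e (nat_lit 336291) (nat_lit 15) .nil))))))) (.g (nat_lit 1) (.e (nat_lit 82925) (nat_lit 0) .nil) .nil))) 
(.lf (nat_lit 469976) (.g (nat_lit 3722) (.e (nat_lit 3307) (nat_lit 202) (.e (nat_lit 573493) (nat_lit 15) (.e (nat_lit 81956) (nat_lit 23) (.e (nat_lit 98319) (nat_lit 17) .nil)))) (.g (nat_lit 0) (.e (nat_lit 84231) (nat_lit 0) .nil) .nil))))))) (.nd (nat_lit 6) (.nd (nat_lit 7) (.nd (nat_lit 8) (.nd (nat_lit 9) 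
(.lf (nat_lit 469048) (.g (nat_lit 2586) (.e (nat_lit 3302) (nat_lit 202) (.e (nat_lit 573491) (nat_lit 15) (.e (nat_lit 81954) (nat_lit 23) (.e (nat_lit 98386) (nat_lit 32) (.e (nat_lit 475210) (nat_lit 41) (.e (nat_lit 712722) (nat_lit 15) .nil)))))) (.g (nat_lit 1) (.e (nat_lit 81851) (nat_lit 0) .nil) .nil))) 
(.lf (nat_lit 469560) (.g (nat_lit 2312) (.e (nat_lit 3305) (nat_lit 202) (.e (nat_lit 573493) (nat_lit 15) (.e (nat_lit 81951) (nat_lit 22) (.e (nat_lit 90133) (nat_lit 9) .nil)))) (.g (nat_lit 0) (.e (nat_lit 83136) (nat_lit 0) .nil) .nil)))) (.nd (nat_lit 9) 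
(.lf (nat_lit 469304) (.g (nat_lit 1862) (.e (nat_lit 3304) (nat_lit 202) (.e (nat_lit 573485) (nat_lit 13) (.e (nat_lit 65628) (nat_lit 14) (.e (nat_lit 401428) (nat_lit 3) (.e (nat_lit 204866) (nat_lit 28) (.e (nat_lit 352266) (nat_lit 0) .nil)))))) (.g (nat_lit 1) (.e (nat_lit 82451) (nat_lit 0) .nil) .nil))) 
(.lf (nat_lit 469816) (.g (nat_lit 3245) (.e (nat_lit 3307) (nat_lit 202) (.e (nat_lit 573485) (nat_lit 13) (.e (nat_lit 65604) (nat_lit 9) (.e (nat_lit 336028) (nat_lit 3) (.e (nat_lit 98387) (nat_lit 33) (.e (nat_lit 491548) (nat_lit 9) (.e (nat_lit 336306) (nat_lit 15) .nil))))))) (.g (nat_lit 1) (.e (nat_lit 83729) (nat_lit 0) .nil) .nil))))) (.nd (nat_lit 8) (.nd (nat_lit 9) 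
(.lf (nat_lit 469176) (.g (nat_lit 2144) (.e (nat_lit 3304) (nat_lit 202) (.e (nat_lit 573482) (nat_lit 13) (.e (nat_lit 65604) (nat_lit 9) (.e (nat_lit 336028) (nat_lit 3) (.e (nat_lit 98325) (nat_lit 17) .nil))))) (.g (nat_lit 0) (.e (nat_lit 82176) (nat_lit 0) .nil) .nil))) 
(.lf (nat_lit 469688) (.g (nat_lit 2713) (.e (nat_lit 3307) (nat_lit 202) (.e (nat_lit 573484) (nat_lit 13) (.e (nat_lit 65610) (nat_lit 10) (.e (nat_lit 344117) (nat_lit 21) (.e (nat_lit 516099) (nat_lit 0) (.e (nat_lit 7936) (nat_lit 406) (.e (nat_lit 73472) (nat_lit 15) .nil))))))) (.g (nat_lit 1) (.e (nat_lit 83364) (nat_lit 0) .nil) .nil)))) (.nd (nat_lit 9) 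
(.lf (nat_lit 469432) (.g (nat_lit 1239) (.e (nat_lit 3305) (nat_lit 202) (.e (nat_lit 573484) (nat_lit 13) (.e (nat_lit 65610) (nat_lit 10) (.e (nat_lit 344129) (nat_lit 26) .nil)))) (.g (nat_lit 0) (.e (nat_lit 82844) (nat_lit 0) .nil) .nil))) 
(.lf (nat_lit 469944) (.g (nat_lit 4568) (.e (nat_lit 3307) (nat_lit 202) (.e (nat_lit 573489) (nat_lit 14) (.e (nat_lit 73755) (nat_lit 8) (.e (nat_lit 557105) (nat_lit 14) (.e (nat_lit 180252) (nat_lit 10) (.e (nat_lit 573474) (nat_lit 12) (.e (nat_lit 57504) (nat_lit 38) (.e (nat_lit 638986) (nat_lit 5) (.e (nat_lit 2461) (nat_lit 157) .nil))))))))) (.g (nat_lit 1) (.e (nat_lit 84140) (nat_lit 0) .nil) .nil)))))) 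
(.nd (nat_lit 7) (.nd (nat_lit 8) (.nd (nat_lit 9) 
(.lf (nat_lit 469112) (.g (nat_lit 4545) (.e (nat_lit 3302) (nat_lit 202) (.e (nat_lit 573493) (nat_lit 15) (.e (nat_lit 81956) (nat_lit 23) (.e (nat_lit 98320) (nat_lit 17) (.e (nat_lit 7589) (nat_lit 406) .nil))))) (.g (nat_lit 0) (.e (nat_lit 82064) (nat_lit 0) .nil) .nil))) 
(.lf (nat_lit 469624) (.g (nat_lit 2741) (.e (nat_lit 3307) (nat_lit 202) (.e (nat_lit 573475) (nat_lit 12) (.e (nat_lit 57574) (nat_lit 55) (.e (nat_lit 778463) (nat_lit 11) (.e (nat_lit 24604) (nat_lit 2) (.e (nat_lit 90178) (nat_lit 15) (.e (nat_lit 188440) (nat_lit 20) .nil))))))) (.g (nat_lit 1) (.e (nat_lit 83279) (nat_lit 0) .nil) .nil)))) (.nd (nat_lit 9) 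
(.lf (nat_lit 469368) (.g (nat_lit 4174) (.e (nat_lit 3304) (nat_lit 202) (.e (nat_lit 573493) (nat_lit 15) (.e (nat_lit 81956) (nat_lit 23) (.e (nat_lit 98389) (nat_lit 33) (.e (nat_lit 491546) (nat_lit 9) (.e (nat_lit 336294) (nat_lit 15) .nil)))))) (.g (nat_lit 1) (.e (nat_lit 82717) (nat_lit 0) .nil) .nil))) 
(.lf (nat_lit 469880) (.g (nat_lit 2799) (.e (nat_lit 3307) (nat_lit 202) (.e (nat_lit 573485) (nat_lit 13) (.e (nat_lit 65619) (nat_lit 10) (.e (nat_lit 344129) (nat_lit 26) (.e (nat_lit 557087) (nat_lit 11) (.e (nat_lit 24623) (nat_lit 9) (.e (nat_lit 336261) (nat_lit 15) .nil))))))) (.g (nat_lit 1) (.e (nat_lit 83814) (nat_lit 0) .nil) .nil))))) (.nd (nat_lit 8) (.nd (nat_lit 9) 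
(.lf (nat_lit 469240) (.g (nat_lit 2777) (.e (nat_lit 3304) (nat_lit 202) (.e (nat_lit 573484) (nat_lit 13) (.e (nat_lit 65617) (nat_lit 10) (.e (nat_lit 344130) (nat_lit 26) (.e (nat_lit 557087) (nat_lit 11) (.e (nat_lit 24631) (nat_lit 9) (.e (nat_lit 336267) (nat_lit 15) .nil))))))) (.g (nat_lit 1) (.e (nat_lit 82322) (nat_lit 0) .nil) .nil))) 
(.lf (nat_lit 469752) (.g (nat_lit 4786) (.e (nat_lit 3307) (nat_lit 202) (.e (nat_lit 573484) (nat_lit 13) (.e (nat_lit 65617) (nat_lit 10) (.e (nat_lit 344133) (nat_lit 26) (.e (nat_lit 557085) (nat_lit 11) (.e (nat_lit 24630) (nat_lit 9) (.e (nat_lit 336260) (nat_lit 15) .nil))))))) (.g (nat_lit 1) (.e (nat_lit 83626) (nat_lit 0) .nil) .nil)))) (.nd (nat_lit 9) 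
(.lf (nat_lit 469496) (.g (nat_lit 1716) (.e (nat_lit 3305) (nat_lit 202) (.e (nat_lit 573485) (nat_lit 13) (.e (nat_lit 65604) (nat_lit 9) (.e (nat_lit 336028) (nat_lit 3) (.e (nat_lit 98325) (nat_lit 17) .nil))))) (.g (nat_lit 0) (.e (nat_lit 83014) (nat_lit 0) .nil) .nil))) 
(.lf (nat_lit 470008) (.g (nat_lit 3018) (.e (nat_lit 3307) (nat_lit 202) (.e (nat_lit 573493) (nat_lit 15) (.e (nat_lit 81956) (nat_lit 23) (.e (nat_lit 98389) (nat_lit 33) (.e (nat_lit 491552) (nat_lit 9) (.e (nat_lit 343808) (nat_lit 15) .nil)))))) (.g (nat_lit 1) (.e (nat_lit 84279) (nat_lit 0) .nil) .nil)))))))))) 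
(.nd (nat_lit 3) (.nd (nat_lit 4) (.nd (nat_lit 5) (.nd (nat_lit 6) (.nd (nat_lit 7) 
(.nd (nat_lit 8) (.nd (nat_lit 9) 
(.lf (nat_lit 468996) (.g (nat_lit 2736) (.e (nat_lit 3302) (nat_lit 202) (.e (nat_lit 573481) (nat_lit 13) (.e (nat_lit 65630) (nat_lit 14) (.e (nat_lit 401428) (nat_lit 3) (.e (nat_lit 204877) (nat_lit 31) (.e (nat_lit 376833) (nat_lit 0) .nil)))))) (.g (nat_lit 1) (.e (nat_lit 81703) (nat_lit 0) .nil) .nil))) 
(.lf (nat_lit 469508) (.g (nat_lit 2739) (.e (nat_lit 3305) (nat_lit 202) (.e (nat_lit 573485) (nat_lit 13) (.e (nat_lit 65619) (nat_lit 10) (.e (nat_lit 344117) (nat_lit 21) (.e (nat_lit 516106) (nat_lit 0) (.e (nat_lit 7936) (nat_lit 406) (.e (nat_lit 65642) (nat_lit 15) .nil))))))) (.g (nat_lit 1) (.e (nat_lit 83028) (nat_lit 0) .nil) .nil)))) (.nd (nat_lit 9) 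
(.lf (nat_lit 469252) (.g (nat_lit 5115) (.e (nat_lit 3304) (nat_lit 202) (.e (nat_lit 573484) (nat_lit 13) (.e (nat_lit 65617) (nat_lit 10) (.e (nat_lit 344132) (nat_lit 26) (.e (nat_lit 557085) (nat_lit 11) (.e (nat_lit 24630) (nat_lit 9) (.e (nat_lit 336260) (nat_lit 15) .nil))))))) (.g (nat_lit 1) (.e (nat_lit 82345) (nat_lit 0) .nil) .nil))) 
(.lf (nat_lit 469764) (.g (nat_lit 4785) (.e (nat_lit 3307) (nat_lit 202) (.e (nat_lit 573485) (nat_lit 13) (.e (nat_lit 65604) (nat_lit 9) (.e (nat_lit 336013) (nat_lit 2) (.e (nat_lit 90134) (nat_lit 9) (.e (nat_lit 3098) (nat_lit 192) (.e (nat_lit 491550) (nat_lit 9) (.e (nat_lit 336306) (nat_lit 15) .nil)))))))) (.g (nat_lit 1) (.e (nat_lit 83662) (nat_lit 0) .nil) .nil))))) 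
(.nd (nat_lit 8) (.nd (nat_lit 9) 
(.lf (nat_lit 469124) (.g (nat_lit 3914) (.e (nat_lit 3302) (nat_lit 202) (.e (nat_lit 573493) (nat_lit 15) (.e (nat_lit 81956) (nat_lit 23) (.e (nat_lit 98389) (nat_lit 33) (.e (nat_lit 491556) (nat_lit 9) .nil))))) (.g (nat_lit 0) (.e (nat_lit 82078) (nat_lit 0) .nil) .nil))) 
(.lf (nat_lit 469636) (.g (nat_lit 3653) (.e (nat_lit 3307) (nat_lit 202) (.e (nat_lit 573477) (nat_lit 12) (.e (nat_lit 57574) (nat_lit 55) (.e (nat_lit 778465) (nat_lit 11) (.e (nat_lit 24604) (nat_lit 2) (.e (nat_lit 90176) (nat_lit 15) (.e (nat_lit 188424) (nat_lit 20) .nil))))))) (.g (nat_lit 1) (.e (nat_lit 83293) (nat_lit 0) .nil) .nil)))) (.nd (nat_lit 9) 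
(.lf (nat_lit 469380) (.g (nat_lit 4696) (.e (nat_lit 3305) (nat_lit 202) (.e (nat_lit 573477) (nat_lit 12) (.e (nat_lit 57574) (nat_lit 55) (.e (nat_lit 778466) (nat_lit 11) (.e (nat_lit 24608) (nat_lit 3) (.e (nat_lit 98380) (nat_lit 31) (.e (nat_lit 466967) (nat_lit 20) .nil))))))) (.g (nat_lit 1) (.e (nat_lit 82743) (nat_lit 0) .nil) .nil))) 
(.lf (nat_lit 469892) (.g (nat_lit 1914) (.e (nat_lit 3307) (nat_lit 202) (.e (nat_lit 573485) (nat_lit 13) (.e (nat_lit 65628) (nat_lit 14) (.e (nat_lit 401428) (nat_lit 3) (.e (nat_lit 204861) (nat_lit 26) (.e (nat_lit 336086) (nat_lit 9) (.e (nat_lit 336306) (nat_lit 15) .nil))))))) (.g (nat_lit 1) (.e (nat_lit 83826) (nat_lit 0) .nil) .nil)))))) 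
(.nd (nat_lit 7) (.nd (nat_lit 8) (.nd (nat_lit 9) 
(.lf (nat_lit 469060) (.g (nat_lit 4278) (.e (nat_lit 3302) (nat_lit 202) (.e (nat_lit 573492) (nat_lit 15) (.e (nat_lit 81956) (nat_lit 23) (.e (nat_lit 98320) (nat_lit 17) (.e (nat_lit 7587) (nat_lit 406) (.e (nat_lit 65636) (nat_lit 15) .nil)))))) (.g (nat_lit 1) (.e (nat_lit 81950) (nat_lit 0) .nil) .nil))) 
(.lf (nat_lit 469572) (.g (nat_lit 2940) (.e (nat_lit 3305) (nat_lit 202) (.e (nat_lit 573493) (nat_lit 15) (.e (nat_lit 81954) (nat_lit 23) (.e (nat_lit 98389) (nat_lit 33) (.e (nat_lit 491552) (nat_lit 9) .nil))))) (.g (nat_lit 0) (.e (nat_lit 83150) (nat_lit 0) .nil) .nil)))) (.nd (nat_lit 9) 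
(.lf (nat_lit 469316) (.g (nat_lit 3391) (.e (nat_lit 3304) (nat_lit 202) (.e (nat_lit 573489) (nat_lit 14) (.e (nat_lit 73755) (nat_lit 8) (.e (nat_lit 557098) (nat_lit 13) (.e (nat_lit 179968) (nat_lit 18) (.e (nat_lit 98335) (nat_lit 18) (.e (nat_lit 164330) (nat_lit 230) (.e (nat_lit 163857) (nat_lit 0) .nil)))))))) (.g (nat_lit 1) (.e (nat_lit 82478) (nat_lit 0) .nil) .nil))) 
(.lf (nat_lit 469828) (.g (nat_lit 2938) (.e (nat_lit 3307) (nat_lit 202) (.e (nat_lit 573485) (nat_lit 13) (.e (nat_lit 65619) (nat_lit 10) (.e (nat_lit 344117) (nat_lit 21) (.e (nat_lit 516102) (nat_lit 0) (.e (nat_lit 7107) (nat_lit 380) (.e (nat_lit 164339) (nat_lit 232) (.e (nat_lit 75) (nat_lit 0) .nil)))))))) (.g (nat_lit 1) (.e (nat_lit 83752) (nat_lit 0) .nil) .nil))))) 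
(.nd (nat_lit 8) (.nd (nat_lit 9) 
(.lf (nat_lit 469188) (.g (nat_lit 2597) (.e (nat_lit 3304) (nat_lit 202) (.e (nat_lit 573482) (nat_lit 13) (.e (nat_lit 65619) (nat_lit 10) (.e (nat_lit 344117) (nat_lit 21) (.e (nat_lit 516144) (nat_lit 9) (.e (nat_lit 426364) (nat_lit 15) (.e (nat_lit 2160) (nat_lit 143) (.e (nat_lit 712719) (nat_lit 15) .nil)))))))) (.g (nat_lit 1) (.e (nat_lit 82192) (nat_lit 0) .nil) .nil))) 
(.lf (nat_lit 469700) (.g (nat_lit 3363) (.e (nat_lit 3307) (nat_lit 202) (.e (nat_lit 573484) (nat_lit 13) (.e (nat_lit 65610) (nat_lit 10) (.e (nat_lit 344117) (nat_lit 21) (.e (nat_lit 516151) (nat_lit 9) (.e (nat_lit 426047) (nat_lit 0) (.e (nat_lit 3409) (nat_lit 212) (.e (nat_lit 655364) (nat_lit 0) (.e (nat_lit 2472) (nat_lit 157) .nil))))))))) (.g (nat_lit 1) (.e (nat_lit 83452) (nat_lit 0) .nil) .nil)))) 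
(.nd (nat_lit 9) 
(.lf (nat_lit 469444) (.g (nat_lit 1636) (.e (nat_lit 3305) (nat_lit 202) (.e (nat_lit 573484) (nat_lit 13) (.e (nat_lit 65617) (nat_lit 10) (.e (nat_lit 344115) (nat_lit 20) (.e (nat_lit 515840) (nat_lit 6) (.e (nat_lit 286748) (nat_lit 9) (.e (nat_lit 336295) (nat_lit 15) .nil))))))) (.g (nat_lit 1) (.e (nat_lit 82882) (nat_lit 0) .nil) .nil))) 
(.lf (nat_lit 469956) (.g (nat_lit 1536) (.e (nat_lit 3307) (nat_lit 202) (.e (nat_lit 573490) (nat_lit 15) (.e (nat_lit 81956) (nat_lit 23) (.e (nat_lit 98350) (nat_lit 24) .nil)))) (.g (nat_lit 0) (.e (nat_lit 84167) (nat_lit 0) .nil) .nil))))))) (.nd (nat_lit 6) (.nd (nat_lit 7) (.nd (nat_lit 8) (.nd (nat_lit 9) 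
(.lf (nat_lit 469028) (.g (nat_lit 2848) (.e (nat_lit 3302) (nat_lit 202) (.e (nat_lit 573485) (nat_lit 13) (.e (nat_lit 65619) (nat_lit 10) (.e (nat_lit 344115) (nat_lit 20) (.e (nat_lit 507906) (nat_lit 0) (.e (nat_lit 5405) (nat_lit 302) (.e (nat_lit 65636) (nat_lit 15) .nil))))))) (.g (nat_lit 1) (.e (nat_lit 81762) (nat_lit 0) .nil) .nil))) 
(.lf (nat_lit 469540) (.g (nat_lit 1248) (.e (nat_lit 3305) (nat_lit 202) (.e (nat_lit 573491) (nat_lit 15) (.e (nat_lit 81954) (nat_lit 23) (.e (nat_lit 98325) (nat_lit 17) (.e (nat_lit 7936) (nat_lit 406) .nil))))) (.g (nat_lit 0) (.e (nat_lit 83096) (nat_lit 0) .nil) .nil)))) (.nd (nat_lit 9) 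
(.lf (nat_lit 469284) (.g (nat_lit 2872) (.e (nat_lit 3304) (nat_lit 202) (.e (nat_lit 573485) (nat_lit 13) (.e (nat_lit 65619) (nat_lit 10) (.e (nat_lit 344117) (nat_lit 21) (.e (nat_lit 516151) (nat_lit 9) (.e (nat_lit 426142) (nat_lit 4) (.e (nat_lit 229681) (nat_lit 244) (.e (nat_lit 163850) (nat_lit 0) .nil)))))))) (.g (nat_lit 1) (.e (nat_lit 82422) (nat_lit 0) .nil) .nil))) 
(.lf (nat_lit 469796) (.g (nat_lit 2293) (.e (nat_lit 3307) (nat_lit 202) (.e (nat_lit 573485) (nat_lit 13) (.e (nat_lit 65604) (nat_lit 9) (.e (nat_lit 336013) (nat_lit 2) (.e (nat_lit 90170) (nat_lit 13) (.e (nat_lit 172070) (nat_lit 4) (.e (nat_lit 229681) (nat_lit 244) (.e (nat_lit 163840) (nat_lit 0) .nil)))))))) (.g (nat_lit 1) (.e (nat_lit 83694) (nat_lit 0) .nil) .nil))))) 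
(.nd (nat_lit 8) (.nd (nat_lit 9) 
(.lf (nat_lit 469156) (.g (nat_lit 3535) (.e (nat_lit 3304) (nat_lit 202) (.e (nat_lit 573477) (nat_lit 12) (.e (nat_lit 57575) (nat_lit 55) (.e (nat_lit 778466) (nat_lit 11) (.e (nat_lit 24604) (nat_lit 2) (.e (nat_lit 90177) (nat_lit 15) (.e (nat_lit 188434) (nat_lit 20) .nil))))))) (.g (nat_lit 1) (.e (nat_lit 82154) (nat_lit 0) .nil) .nil))) 
(.lf (nat_lit 469668) (.g (nat_lit 3420) (.e (nat_lit 3307) (nat_lit 202) (.e (nat_lit 573477) (nat_lit 12) (.e (nat_lit 57575) (nat_lit 55) (.e (nat_lit 778466) (nat_lit 11) (.e (nat_lit 24604) (nat_lit 2) (.e (nat_lit 90176) (nat_lit 15) (.e (nat_lit 188438) (nat_lit 20) .nil))))))) (.g (nat_lit 1) (.e (nat_lit 83325) (nat_lit 0) .nil) .nil)))) (.nd (nat_lit 9) 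
(.lf (nat_lit 469412) (.g (nat_lit 2314) (.e (nat_lit 3305) (nat_lit 202) (.e (nat_lit 573482) (nat_lit 13) (.e (nat_lit 65630) (nat_lit 14) (.e (nat_lit 401428) (nat_lit 3) (.e (nat_lit 204866) (nat_lit 28) .nil))))) (.g (nat_lit 0) (.e (nat_lit 82782) (nat_lit 0) .nil) .nil))) 
(.lf (nat_lit 469924) (.g (nat_lit 2980) (.e (nat_lit 3307) (nat_lit 202) (.e (nat_lit 573489) (nat_lit 14) (.e (nat_lit 73755) (nat_lit 8) (.e (nat_lit 557105) (nat_lit 14) (.e (nat_lit 180251) (nat_lit 10) (.e (nat_lit 573475) (nat_lit 12) (.e (nat_lit 57503) (nat_lit 38) (.e (nat_lit 638985) (nat_lit 5) (.e (nat_lit 2461) (nat_lit 157) .nil))))))))) (.g (nat_lit 1) (.e (nat_lit 84074) (nat_lit 0) .nil) .nil)))))) 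
(.nd (nat_lit 7) (.nd (nat_lit 8) (.nd (nat_lit 9) 
(.lf (nat_lit 469092) (.g (nat_lit 2018) (.e (nat_lit 3302) (nat_lit 202) (.e (nat_lit 573492) (nat_lit 15) (.e (nat_lit 81956) (nat_lit 23) (.e (nat_lit 98388) (nat_lit 33) (.e (nat_lit 491552) (nat_lit 9) .nil))))) (.g (nat_lit 0) (.e (nat_lit 82007) (nat_lit 0) .nil) .nil))) 
(.lf (nat_lit 469604) (.g (nat_lit 2691) (.e (nat_lit 3307) (nat_lit 202) (.e (nat_lit 573470) (nat_lit 11) (.e (nat_lit 16472) (nat_lit 14) (.e (nat_lit 491535) (nat_lit 2) (.e (nat_lit 90178) (nat_lit 15) (.e (nat_lit 188440) (nat_lit 20) .nil)))))) (.g (nat_lit 1) (.e (nat_lit 83257) (nat_lit 0) .nil) .nil)))) (.nd (nat_lit 9) 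
(.lf (nat_lit 469348) (.g (nat_lit 965) (.e (nat_lit 3304) (nat_lit 202) (.e (nat_lit 573493) (nat_lit 15) (.e (nat_lit 81954) (nat_lit 23) .nil))) (.g (nat_lit 0) (.e (nat_lit 82647) (nat_lit 0) .nil) .nil))) 
(.lf (nat_lit 469860) (.g (nat_lit 3753) (.e (nat_lit 3307) (nat_lit 202) (.e (nat_lit 573485) (nat_lit 13) (.e (nat_lit 65619) (nat_lit 10) (.e (nat_lit 344117) (nat_lit 21) (.e (nat_lit 516183) (nat_lit 16) (.e (nat_lit 491550) (nat_lit 9) (.e (nat_lit 336306) (nat_lit 15) .nil))))))) (.g (nat_lit 1) (.e (nat_lit 83788) (nat_lit 0) .nil) .nil))))) (.nd (nat_lit 8) (.nd (nat_lit 9) 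
(.lf (nat_lit 469220) (.g (nat_lit 2562) (.e (nat_lit 3304) (nat_lit 202) (.e (nat_lit 573484) (nat_lit 13) (.e (nat_lit 65610) (nat_lit 10) (.e (nat_lit 344117) (nat_lit 21) (.e (nat_lit 516151) (nat_lit 9) (.e (nat_lit 426142) (nat_lit 4) (.e (nat_lit 229681) (nat_lit 244) (.e (nat_lit 163857) (nat_lit 0) .nil)))))))) (.g (nat_lit 1) (.e (nat_lit 82244) (nat_lit 0) .nil) .nil))) 
(.lf (nat_lit 469732) (.g (nat_lit 3160) (.e (nat_lit 3307) (nat_lit 202) (.e (nat_lit 573484) (nat_lit 13) (.e (nat_lit 65610) (nat_lit 10) (.e (nat_lit 344129) (nat_lit 26) (.e (nat_lit 557087) (nat_lit 11) (.e (nat_lit 24628) (nat_lit 9) (.e (nat_lit 336260) (nat_lit 15) .nil))))))) (.g (nat_lit 1) (.e (nat_lit 83596) (nat_lit 0) .nil) .nil)))) (.nd (nat_lit 9) 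
(.lf (nat_lit 469476) (.g (nat_lit 2489) (.e (nat_lit 3305) (nat_lit 202) (.e (nat_lit 573484) (nat_lit 13) (.e (nat_lit 65617) (nat_lit 10) (.e (nat_lit 344130) (nat_lit 26) (.e (nat_lit 557087) (nat_lit 11) (.e (nat_lit 24638) (nat_lit 9) (.e (nat_lit 336275) (nat_lit 15) .nil))))))) (.g (nat_lit 1) (.e (nat_lit 82937) (nat_lit 0) .nil) .nil))) 
(.lf (nat_lit 469988) (.g (nat_lit 4527) (.e (nat_lit 3307) (nat_lit 202) (.e (nat_lit 573493) (nat_lit 15) (.e (nat_lit 81956) (nat_lit 23) (.e (nat_lit 98350) (nat_lit 24) (.e (nat_lit 409618) (nat_lit 10) .nil))))) (.g (nat_lit 0) (.e (nat_lit 84243) (nat_lit 0) .nil) .nil)))))))) (.nd (nat_lit 5) (.nd (nat_lit 6) (.nd (nat_lit 7) (.nd (nat_lit 8) (.nd (nat_lit 9) 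
(.lf (nat_lit 469012) (.g (nat_lit 961) (.e (nat_lit 3302) (nat_lit 202) (.e (nat_lit 573482) (nat_lit 13) (.e (nat_lit 65630) (nat_lit 14) .nil))) (.g (nat_lit 0) (.e (nat_lit 81719) (nat_lit 0) .nil) .nil))) 
(.lf (nat_lit 469524) (.g (nat_lit 2837) (.e (nat_lit 3305) (nat_lit 202) (.e (nat_lit 573485) (nat_lit 13) (.e (nat_lit 65628) (nat_lit 14) (.e (nat_lit 401425) (nat_lit 2) (.e (nat_lit 196672) (nat_lit 15) (.e (nat_lit 81924) (nat_lit 0) .nil)))))) (.g (nat_lit 1) (.e (nat_lit 83046) (nat_lit 0) .nil) .nil)))) (.nd (nat_lit 9) 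
(.lf (nat_lit 469268) (.g (nat_lit 2104) (.e (nat_lit 3304) (nat_lit 202) (.e (nat_lit 573485) (nat_lit 13) (.e (nat_lit 65604) (nat_lit 9) (.e (nat_lit 336013) (nat_lit 2) (.e (nat_lit 90170) (nat_lit 13) (.e (nat_lit 172068) (nat_lit 4) (.e (nat_lit 229681) (nat_lit 244) (.e (nat_lit 163857) (nat_lit 0) .nil)))))))) (.g (nat_lit 1) (.e (nat_lit 82396) (nat_lit 0) .nil) .nil))) 
(.lf (nat_lit 469780) (.g (nat_lit 2691) (.e (nat_lit 3307) (nat_lit 202) (.e (nat_lit 573485) (nat_lit 13) (.e (nat_lit 65604) (nat_lit 9) (.e (nat_lit 336013) (nat_lit 2) (.e (nat_lit 90165) (nat_lit 12) (.e (nat_lit 164219) (nat_lit 180) (.e (nat_lit 229644) (nat_lit 232) (.e (nat_lit 25) (nat_lit 0) .nil)))))))) (.g (nat_lit 1) (.e (nat_lit 83678) (nat_lit 0) .nil) .nil))))) 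
(.nd (nat_lit 8) (.nd (nat_lit 9) 
(.lf (nat_lit 469140) (.g (nat_lit 2946) (.e (nat_lit 3304) (nat_lit 202) (.e (nat_lit 573477) (nat_lit 12) (.e (nat_lit 57574) (nat_lit 55) (.e (nat_lit 778465) (nat_lit 11) (.e (nat_lit 24604) (nat_lit 2) (.e (nat_lit 90178) (nat_lit 15) (.e (nat_lit 188442) (nat_lit 20) .nil))))))) (.g (nat_lit 1) (.e (nat_lit 82138) (nat_lit 0) .nil) .nil))) 
(.lf (nat_lit 469652) (.g (nat_lit 2037) (.e (nat_lit 3307) (nat_lit 202) (.e (nat_lit 573477) (nat_lit 12) (.e (nat_lit 57575) (nat_lit 55) (.e (nat_lit 778465) (nat_lit 11) (.e (nat_lit 24603) (nat_lit 2) .nil))))) (.g (nat_lit 0) (.e (nat_lit 83309) (nat_lit 0) .nil) .nil)))) (.nd (nat_lit 9) 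
(.lf (nat_lit 469396) (.g (nat_lit 2737) (.e (nat_lit 3305) (nat_lit 202) (.e (nat_lit 573482) (nat_lit 13) (.e (nat_lit 65619) (nat_lit 10) (.e (nat_lit 344115) (nat_lit 20) (.e (nat_lit 507908) (nat_lit 0) (.e (nat_lit 5405) (nat_lit 302) (.e (nat_lit 65637) (nat_lit 15) .nil))))))) (.g (nat_lit 1) (.e (nat_lit 82761) (nat_lit 0) .nil) .nil))) 
(.lf (nat_lit 469908) (.g (nat_lit 2251) (.e (nat_lit 3307) (nat_lit 202) (.e (nat_lit 573489) (nat_lit 14) (.e (nat_lit 73755) (nat_lit 8) (.e (nat_lit 557089) (nat_lit 12) (.e (nat_lit 164006) (nat_lit 41) .nil))))) (.g (nat_lit 0) (.e (nat_lit 83883) (nat_lit 0) .nil) .nil)))))) (.nd (nat_lit 7) (.nd (nat_lit 8) (.nd (nat_lit 9) 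
(.lf (nat_lit 469076) (.g (nat_lit 1837) (.e (nat_lit 3302) (nat_lit 202) (.e (nat_lit 573492) (nat_lit 15) (.e (nat_lit 81956) (nat_lit 23) (.e (nat_lit 98356) (nat_lit 26) .nil)))) (.g (nat_lit 0) (.e (nat_lit 81978) (nat_lit 0) .nil) .nil))) 
(.lf (nat_lit 469588) (.g (nat_lit 1957) (.e (nat_lit 3306) (nat_lit 202) (.e (nat_lit 573482) (nat_lit 13) (.e (nat_lit 65619) (nat_lit 10) (.e (nat_lit 344117) (nat_lit 21) .nil)))) (.g (nat_lit 0) (.e (nat_lit 83174) (nat_lit 0) .nil) .nil)))) (.nd (nat_lit 9) 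
(.lf (nat_lit 469332) (.g (nat_lit 4588) (.e (nat_lit 3304) (nat_lit 202) (.e (nat_lit 573492) (nat_lit 15) (.e (nat_lit 81956) (nat_lit 23) (.e (nat_lit 98389) (nat_lit 33) (.e (nat_lit 491552) (nat_lit 9) (.e (nat_lit 336282) (nat_lit 15) .nil)))))) (.g (nat_lit 1) (.e (nat_lit 82578) (nat_lit 0) .nil) .nil))) 
(.lf (nat_lit 469844) (.g (nat_lit 3287) (.e (nat_lit 3307) (nat_lit 202) (.e (nat_lit 573485) (nat_lit 13) (.e (nat_lit 65619) (nat_lit 10) (.e (nat_lit 344117) (nat_lit 21) (.e (nat_lit 516106) (nat_lit 0) (.e (nat_lit 7112) (nat_lit 381) (.e (nat_lit 229645) (nat_lit 232) (.e (nat_lit 25) (nat_lit 0) .nil)))))))) (.g (nat_lit 1) (.e (nat_lit 83770) (nat_lit 0) .nil) .nil))))) 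
(.nd (nat_lit 8) (.nd (nat_lit 9) 
(.lf (nat_lit 469204) (.g (nat_lit 2770) (.e (nat_lit 3304) (nat_lit 202) (.e (nat_lit 573482) (nat_lit 13) (.e (nat_lit 65624) (nat_lit 12) (.e (nat_lit 385074) (nat_lit 31) (.e (nat_lit 573491) (nat_lit 15) (.e (nat_lit 81924) (nat_lit 0) .nil)))))) (.g (nat_lit 1) (.e (nat_lit 82212) (nat_lit 0) .nil) .nil))) 
(.lf (nat_lit 469716) (.g (nat_lit 3848) (.e (nat_lit 3307) (nat_lit 202) (.e (nat_lit 573484) (nat_lit 13) (.e (nat_lit 65610) (nat_lit 10) (.e (nat_lit 344117) (nat_lit 21) (.e (nat_lit 516185) (nat_lit 16) (.e (nat_lit 491549) (nat_lit 9) (.e (nat_lit 336306) (nat_lit 15) .nil))))))) (.g (nat_lit 1) (.e (nat_lit 83539) (nat_lit 0) .nil) .nil)))) (.nd (nat_lit 9) 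
(.lf (nat_lit 469460) (.g (nat_lit 2640) (.e (nat_lit 3305) (nat_lit 202) (.e (nat_lit 573484) (nat_lit 13) (.e (nat_lit 65617) (nat_lit 10) (.e (nat_lit 344130) (nat_lit 26) (.e (nat_lit 557087) (nat_lit 11) (.e (nat_lit 24626) (nat_lit 9) (.e (nat_lit 336286) (nat_lit 15) .nil))))))) (.g (nat_lit 1) (.e (nat_lit 82921) (nat_lit 0) .nil) .nil))) 
(.lf (nat_lit 469972) (.g (nat_lit 3774) (.e (nat_lit 3307) (nat_lit 202) (.e (nat_lit 573493) (nat_lit 15) (.e (nat_lit 81954) (nat_lit 23) (.e (nat_lit 98350) (nat_lit 24) (.e (nat_lit 409642) (nat_lit 17) .nil))))) (.g (nat_lit 0) (.e (nat_lit 84223) (nat_lit 0) .nil) .nil))))))) (.nd (nat_lit 6) (.nd (nat_lit 7) (.nd (nat_lit 8) (.nd (nat_lit 9) 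
(.lf (nat_lit 469044) (.g (nat_lit 4778) (.e (nat_lit 3302) (nat_lit 202) (.e (nat_lit 573489) (nat_lit 14) (.e (nat_lit 73755) (nat_lit 8) (.e (nat_lit 557105) (nat_lit 14) (.e (nat_lit 180252) (nat_lit 10) (.e (nat_lit 573474) (nat_lit 12) (.e (nat_lit 57507) (nat_lit 39) (.e (nat_lit 647195) (nat_lit 9) (.e (nat_lit 42) (nat_lit 0) .nil))))))))) (.g (nat_lit 1) (.e (nat_lit 81820) (nat_lit 0) .nil) .nil))) 
(.lf (nat_lit 469556) (.g (nat_lit 3584) (.e (nat_lit 3305) (nat_lit 202) (.e (nat_lit 573492) (nat_lit 15) (.e (nat_lit 81956) (nat_lit 23) (.e (nat_lit 98388) (nat_lit 33) .nil)))) (.g (nat_lit 0) (.e (nat_lit 83113) (nat_lit 0) .nil) .nil)))) (.nd (nat_lit 9) 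
(.lf (nat_lit 469300) (.g (nat_lit 4142) (.e (nat_lit 3304) (nat_lit 202) (.e (nat_lit 573485) (nat_lit 13) (.e (nat_lit 65619) (nat_lit 10) (.e (nat_lit 344129) (nat_lit 26) (.e (nat_lit 557087) (nat_lit 11) (.e (nat_lit 24638) (nat_lit 9) (.e (nat_lit 336293) (nat_lit 15) .nil))))))) (.g (nat_lit 1) (.e (nat_lit 82447) (nat_lit 0) .nil) .nil))) 
(.lf (nat_lit 469812) (.g (nat_lit 1779) (.e (nat_lit 3307) (nat_lit 202) (.e (nat_lit 573485) (nat_lit 13) (.e (nat_lit 65604) (nat_lit 9) (.e (nat_lit 336028) (nat_lit 3) (.e (nat_lit 106240) (nat_lit 17) (.e (nat_lit 7588) (nat_lit 406) (.e (nat_lit 73472) (nat_lit 15) .nil))))))) (.g (nat_lit 1) (.e (nat_lit 83721) (nat_lit 0) .nil) .nil))))) (.nd (nat_lit 8) (.nd (nat_lit 9) 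
(.lf (nat_lit 469172) (.g (nat_lit 5257) (.e (nat_lit 3304) (nat_lit 202) (.e (nat_lit 573482) (nat_lit 13) (.e (nat_lit 65604) (nat_lit 9) (.e (nat_lit 336013) (nat_lit 2) (.e (nat_lit 90170) (nat_lit 13) (.e (nat_lit 172070) (nat_lit 4) (.e (nat_lit 229678) (nat_lit 244) (.e (nat_lit 163850) (nat_lit 0) .nil)))))))) (.g (nat_lit 1) (.e (nat_lit 82172) (nat_lit 0) .nil) .nil))) 
(.lf (nat_lit 469684) (.g (nat_lit 2258) (.e (nat_lit 3307) (nat_lit 202) (.e (nat_lit 573484) (nat_lit 13) (.e (nat_lit 65610) (nat_lit 10) (.e (nat_lit 344117) (nat_lit 21) (.e (nat_lit 516098) (nat_lit 0) .nil))))) (.g (nat_lit 0) (.e (nat_lit 83359) (nat_lit 0) .nil) .nil)))) (.nd (nat_lit 9) 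
(.lf (nat_lit 469428) (.g (nat_lit 2128) (.e (nat_lit 3305) (nat_lit 202) (.e (nat_lit 573484) (nat_lit 13) (.e (nat_lit 65610) (nat_lit 10) (.e (nat_lit 344117) (nat_lit 21) (.e (nat_lit 516185) (nat_lit 16) (.e (nat_lit 491552) (nat_lit 9) (.e (nat_lit 343808) (nat_lit 15) .nil))))))) (.g (nat_lit 1) (.e (nat_lit 82835) (nat_lit 0) .nil) .nil))) 
(.lf (nat_lit 469940) (.g (nat_lit 3620) (.e (nat_lit 3307) (nat_lit 202) (.e (nat_lit 573489) (nat_lit 14) (.e (nat_lit 73755) (nat_lit 8) (.e (nat_lit 557105) (nat_lit 14) (.e (nat_lit 180252) (nat_lit 10) (.e (nat_lit 573474) (nat_lit 12) (.e (nat_lit 57504) (nat_lit 38) (.e (nat_lit 638985) (nat_lit 5) (.e (nat_lit 2466) (nat_lit 157) .nil))))))))) (.g (nat_lit 1) (.e (nat_lit 84136) (nat_lit 0) .nil) .nil)))))) 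
(.nd (nat_lit 7) (.nd (nat_lit 8) (.nd (nat_lit 9) 
(.lf (nat_lit 469108) (.g (nat_lit 3139) (.e (nat_lit 3302) (nat_lit 202) (.e (nat_lit 573493) (nat_lit 15) (.e (nat_lit 81956) (nat_lit 23) (.e (nat_lit 98319) (nat_lit 17) .nil)))) (.g (nat_lit 0) (.e (nat_lit 82060) (nat_lit 0) .nil) .nil))) 
(.lf (nat_lit 469620) (.g (nat_lit 2904) (.e (nat_lit 3307) (nat_lit 202) (.e (nat_lit 573474) (nat_lit 12) (.e (nat_lit 57574) (nat_lit 55) (.e (nat_lit 778466) (nat_lit 11) (.e (nat_lit 24604) (nat_lit 2) .nil))))) (.g (nat_lit 0) (.e (nat_lit 83274) (nat_lit 0) .nil) .nil)))) (.nd (nat_lit 9) 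
(.lf (nat_lit 469364) (.g (nat_lit 5267) (.e (nat_lit 3304) (nat_lit 202) (.e (nat_lit 573493) (nat_lit 15) (.e (nat_lit 81956) (nat_lit 23) (.e (nat_lit 98388) (nat_lit 33) (.e (nat_lit 491549) (nat_lit 9) (.e (nat_lit 336306) (nat_lit 15) .nil)))))) (.g (nat_lit 1) (.e (nat_lit 82713) (nat_lit 0) .nil) .nil))) 
(.lf (nat_lit 469876) (.g (nat_lit 2144) (.e (nat_lit 3307) (nat_lit 202) (.e (nat_lit 573485) (nat_lit 13) (.e (nat_lit 65619) (nat_lit 10) (.e (nat_lit 344129) (nat_lit 26) (.e (nat_lit 557086) (nat_lit 11) (.e (nat_lit 24630) (nat_lit 9) (.e (nat_lit 336260) (nat_lit 15) .nil))))))) (.g (nat_lit 1) (.e (nat_lit 83810) (nat_lit 0) .nil) .nil))))) (.nd (nat_lit 8) (.nd (nat_lit 9) 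
(.lf (nat_lit 469236) (.g (nat_lit 2401) (.e (nat_lit 3304) (nat_lit 202) (.e (nat_lit 573484) (nat_lit 13) (.e (nat_lit 65617) (nat_lit 10) (.e (nat_lit 344130) (nat_lit 26) (.e (nat_lit 557087) (nat_lit 11) (.e (nat_lit 24626) (nat_lit 9) (.e (nat_lit 336302) (nat_lit 15) .nil))))))) (.g (nat_lit 1) (.e (nat_lit 82318) (nat_lit 0) .nil) .nil))) 
(.lf (nat_lit 469748) (.g (nat_lit 3822) (.e (nat_lit 3307) (nat_lit 202) (.e (nat_lit 573484) (nat_lit 13) (.e (nat_lit 65617) (nat_lit 10) (.e (nat_lit 344130) (nat_lit 26) (.e (nat_lit 557087) (nat_lit 11) (.e (nat_lit 24630) (nat_lit 9) (.e (nat_lit 336306) (nat_lit 15) .nil))))))) (.g (nat_lit 1) (.e (nat_lit 83616) (nat_lit 0) .nil) .nil)))) (.nd (nat_lit 9) 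
(.lf (nat_lit 469492) (.g (nat_lit 1651) (.e (nat_lit 3305) (nat_lit 202) (.e (nat_lit 573485) (nat_lit 13) (.e (nat_lit 65604) (nat_lit 9) (.e (nat_lit 336013) (nat_lit 2) (.e (nat_lit 90165) (nat_lit 12) .nil))))) (.g (nat_lit 0) (.e (nat_lit 83010) (nat_lit 0) .nil) .nil))) 
(.lf (nat_lit 470004) (.g (nat_lit 3652) (.e (nat_lit 3307) (nat_lit 202) (.e (nat_lit 573493) (nat_lit 15) (.e (nat_lit 81956) (nat_lit 23) (.e (nat_lit 98389) (nat_lit 33) (.e (nat_lit 491547) (nat_lit 9) (.e (nat_lit 336306) (nat_lit 15) .nil)))))) (.g (nat_lit 1) (.e (nat_lit 84275) (nat_lit 0) .nil) .nil))))))))) 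
(.nd (nat_lit 4) (.nd (nat_lit 5) (.nd (nat_lit 6) (.nd (nat_lit 7) (.nd (nat_lit 8) 
(.nd (nat_lit 9) 
(.lf (nat_lit 469004) (.g (nat_lit 1871) (.e (nat_lit 3302) (nat_lit 202) (.e (nat_lit 573482) (nat_lit 13) (.e (nat_lit 65619) (nat_lit 10) (.e (nat_lit 344126) (nat_lit 25) .nil)))) (.g (nat_lit 0) (.e (nat_lit 81711) (nat_lit 0) .nil) .nil))) 
(.lf (nat_lit 469516) (.g (nat_lit 3503) (.e (nat_lit 3305) (nat_lit 202) (.e (nat_lit 573485) (nat_lit 13) (.e (nat_lit 65619) (nat_lit 10) (.e (nat_lit 344129) (nat_lit 26) (.e (nat_lit 557087) (nat_lit 11) (.e (nat_lit 24632) (nat_lit 9) (.e (nat_lit 336292) (nat_lit 15) .nil))))))) (.g (nat_lit 1) (.e (nat_lit 83036) (nat_lit 0) .nil) .nil)))) (.nd (nat_lit 9) 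
(.lf (nat_lit 469260) (.g (nat_lit 4447) (.e (nat_lit 3304) (nat_lit 202) (.e (nat_lit 573484) (nat_lit 13) (.e (nat_lit 65617) (nat_lit 10) (.e (nat_lit 344133) (nat_lit 26) (.e (nat_lit 557086) (nat_lit 11) (.e (nat_lit 24630) (nat_lit 9) (.e (nat_lit 336306) (nat_lit 15) .nil))))))) (.g (nat_lit 1) (.e (nat_lit 82366) (nat_lit 0) .nil) .nil))) 
(.lf (nat_lit 469772) (.g (nat_lit 3723) (.e (nat_lit 3307) (nat_lit 202) (.e (nat_lit 573485) (nat_lit 13) (.e (nat_lit 65604) (nat_lit 9) (.e (nat_lit 336013) (nat_lit 2) (.e (nat_lit 90165) (nat_lit 12) (.e (nat_lit 164210) (nat_lit 176) (.e (nat_lit 2788) (nat_lit 179) (.e (nat_lit 294966) (nat_lit 15) .nil)))))))) (.g (nat_lit 1) (.e (nat_lit 83670) (nat_lit 0) .nil) .nil))))) 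
(.nd (nat_lit 8) (.nd (nat_lit 9) 
(.lf (nat_lit 469132) (.g (nat_lit 2855) (.e (nat_lit 3304) (nat_lit 202) (.e (nat_lit 573471) (nat_lit 11) (.e (nat_lit 16425) (nat_lit 7) (.e (nat_lit 409617) (nat_lit 10) .nil)))) (.g (nat_lit 0) (.e (nat_lit 82129) (nat_lit 0) .nil) .nil))) 
(.lf (nat_lit 469644) (.g (nat_lit 3972) (.e (nat_lit 3307) (nat_lit 202) (.e (nat_lit 573477) (nat_lit 12) (.e (nat_lit 57574) (nat_lit 55) (.e (nat_lit 778466) (nat_lit 11) (.e (nat_lit 24604) (nat_lit 2) (.e (nat_lit 90176) (nat_lit 15) (.e (nat_lit 188436) (nat_lit 20) .nil))))))) (.g (nat_lit 1) (.e (nat_lit 83301) (nat_lit 0) .nil) .nil)))) (.nd (nat_lit 9) 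
(.lf (nat_lit 469388) (.g (nat_lit 1992) (.e (nat_lit 3305) (nat_lit 202) (.e (nat_lit 573480) (nat_lit 13) (.e (nat_lit 65630) (nat_lit 14) (.e (nat_lit 401428) (nat_lit 3) (.e (nat_lit 204866) (nat_lit 28) (.e (nat_lit 352266) (nat_lit 0) .nil)))))) (.g (nat_lit 1) (.e (nat_lit 82752) (nat_lit 0) .nil) .nil))) 
(.lf (nat_lit 469900) (.g (nat_lit 808) (.e (nat_lit 3307) (nat_lit 202) (.e (nat_lit 573489) (nat_lit 14) (.e (nat_lit 73736) (nat_lit 0) .nil))) (.g (nat_lit 0) (.e (nat_lit 83858) (nat_lit 0) .nil) .nil)))))) (.nd (nat_lit 7) (.nd (nat_lit 8) (.nd (nat_lit 9) 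
(.lf (nat_lit 469068) (.g (nat_lit 2902) (.e (nat_lit 3302) (nat_lit 202) (.e (nat_lit 573492) (nat_lit 15) (.e (nat_lit 81956) (nat_lit 23) (.e (nat_lit 98349) (nat_lit 24) (.e (nat_lit 409642) (nat_lit 17) (.e (nat_lit 294962) (nat_lit 15) .nil)))))) (.g (nat_lit 1) (.e (nat_lit 81968) (nat_lit 0) .nil) .nil))) 
(.lf (nat_lit 469580) (.g (nat_lit 1877) (.e (nat_lit 3305) (nat_lit 202) (.e (nat_lit 573493) (nat_lit 15) (.e (nat_lit 81956) (nat_lit 23) (.e (nat_lit 98389) (nat_lit 33) .nil)))) (.g (nat_lit 0) (.e (nat_lit 83164) (nat_lit 0) .nil) .nil)))) (.nd (nat_lit 9) 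
(.lf (nat_lit 469324) (.g (nat_lit 2286) (.e (nat_lit 3304) (nat_lit 202) (.e (nat_lit 573492) (nat_lit 15) (.e (nat_lit 81956) (nat_lit 23) (.e (nat_lit 98384) (nat_lit 32) .nil)))) (.g (nat_lit 0) (.e (nat_lit 82570) (nat_lit 0) .nil) .nil))) 
(.lf (nat_lit 469836) (.g (nat_lit 4108) (.e (nat_lit 3307) (nat_lit 202) (.e (nat_lit 573485) (nat_lit 13) (.e (nat_lit 65619) (nat_lit 10) (.e (nat_lit 344117) (nat_lit 21) (.e (nat_lit 516106) (nat_lit 0) (.e (nat_lit 7008) (nat_lit 377) (.e (nat_lit 2788) (nat_lit 179) (.e (nat_lit 294966) (nat_lit 15) .nil)))))))) (.g (nat_lit 1) (.e (nat_lit 83761) (nat_lit 0) .nil) .nil))))) 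
(.nd (nat_lit 8) (.nd (nat_lit 9) 
(.lf (nat_lit 469196) (.g (nat_lit 1302) (.e (nat_lit 3304) (nat_lit 202) (.e (nat_lit 573482) (nat_lit 13) (.e (nat_lit 65619) (nat_lit 10) (.e (nat_lit 344126) (nat_lit 25) .nil)))) (.g (nat_lit 0) (.e (nat_lit 82200) (nat_lit 0) .nil) .nil))) 
(.lf (nat_lit 469708) (.g (nat_lit 4800) (.e (nat_lit 3307) (nat_lit 202) (.e (nat_lit 573484) (nat_lit 13) (.e (nat_lit 65610) (nat_lit 10) (.e (nat_lit 344117) (nat_lit 21) (.e (nat_lit 516184) (nat_lit 16) (.e (nat_lit 491549) (nat_lit 9) (.e (nat_lit 336306) (nat_lit 15) .nil))))))) (.g (nat_lit 1) (.e (nat_lit 83531) (nat_lit 0) .nil) .nil)))) (.nd (nat_lit 9) 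
(.lf (nat_lit 469452) (.g (nat_lit 2726) (.e (nat_lit 3305) (nat_lit 202) (.e (nat_lit 573484) (nat_lit 13) (.e (nat_lit 65617) (nat_lit 10) (.e (nat_lit 344130) (nat_lit 26) (.e (nat_lit 557087) (nat_lit 11) (.e (nat_lit 24623) (nat_lit 9) (.e (nat_lit 336282) (nat_lit 15) .nil))))))) (.g (nat_lit 1) (.e (nat_lit 82913) (nat_lit 0) .nil) .nil))) 
(.lf (nat_lit 469964) (.g (nat_lit 3448) (.e (nat_lit 3307) (nat_lit 202) (.e (nat_lit 573491) (nat_lit 15) (.e (nat_lit 81956) (nat_lit 23) (.e (nat_lit 98388) (nat_lit 33) (.e (nat_lit 491549) (nat_lit 9) .nil))))) (.g (nat_lit 0) (.e (nat_lit 84181) (nat_lit 0) .nil) .nil))))))) (.nd (nat_lit 6) (.nd (nat_lit 7) (.nd (nat_lit 8) (.nd (nat_lit 9) 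
(.lf (nat_lit 469036) (.g (nat_lit 918) (.e (nat_lit 3302) (nat_lit 202) (.e (nat_lit 573485) (nat_lit 13) (.e (nat_lit 65630) (nat_lit 14) (.e (nat_lit 401428) (nat_lit 3) .nil)))) (.g (nat_lit 0) (.e (nat_lit 81770) (nat_lit 0) .nil) .nil))) 
(.lf (nat_lit 469548) (.g (nat_lit 3531) (.e (nat_lit 3305) (nat_lit 202) (.e (nat_lit 573491) (nat_lit 15) (.e (nat_lit 81956) (nat_lit 23) (.e (nat_lit 98389) (nat_lit 33) (.e (nat_lit 491556) (nat_lit 9) (.e (nat_lit 336300) (nat_lit 15) .nil)))))) (.g (nat_lit 1) (.e (nat_lit 83104) (nat_lit 0) .nil) .nil)))) (.nd (nat_lit 9) 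
(.lf (nat_lit 469292) (.g (nat_lit 2487) (.e (nat_lit 3304) (nat_lit 202) (.e (nat_lit 573485) (nat_lit 13) (.e (nat_lit 65619) (nat_lit 10) (.e (nat_lit 344117) (nat_lit 21) (.e (nat_lit 516185) (nat_lit 16) (.e (nat_lit 491552) (nat_lit 9) (.e (nat_lit 336291) (nat_lit 15) .nil))))))) (.g (nat_lit 1) (.e (nat_lit 82430) (nat_lit 0) .nil) .nil))) 
(.lf (nat_lit 469804) (.g (nat_lit 2726) (.e (nat_lit 3307) (nat_lit 202) (.e (nat_lit 573485) (nat_lit 13) (.e (nat_lit 65604) (nat_lit 9) (.e (nat_lit 336028) (nat_lit 3) (.e (nat_lit 98325) (nat_lit 17) (.e (nat_lit 6986) (nat_lit 377) (.e (nat_lit 2779) (nat_lit 178) (.e (nat_lit 294656) (nat_lit 15) .nil)))))))) (.g (nat_lit 1) (.e (nat_lit 83702) (nat_lit 0) .nil) .nil))))) 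
(.nd (nat_lit 8) (.nd (nat_lit 9) 
(.lf (nat_lit 469164) (.g (nat_lit 2084) (.e (nat_lit 3304) (nat_lit 202) (.e (nat_lit 573482) (nat_lit 13) (.e (nat_lit 65604) (nat_lit 9) (.e (nat_lit 336013) (nat_lit 2) (.e (nat_lit 90165) (nat_lit 12) .nil))))) (.g (nat_lit 0) (.e (nat_lit 82164) (nat_lit 0) .nil) .nil))) 
(.lf (nat_lit 469676) (.g (nat_lit 1970) (.e (nat_lit 3307) (nat_lit 202) (.e (nat_lit 573482) (nat_lit 13) (.e (nat_lit 65604) (nat_lit 9) (.e (nat_lit 336013) (nat_lit 2) .nil)))) (.g (nat_lit 0) (.e (nat_lit 83338) (nat_lit 0) .nil) .nil)))) (.nd (nat_lit 9) 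
(.lf (nat_lit 469420) (.g (nat_lit 2767) (.e (nat_lit 3305) (nat_lit 202) (.e (nat_lit 573484) (nat_lit 13) (.e (nat_lit 65610) (nat_lit 10) (.e (nat_lit 344117) (nat_lit 21) (.e (nat_lit 516099) (nat_lit 0) (.e (nat_lit 7936) (nat_lit 409) (.e (nat_lit 131133) (nat_lit 15) .nil))))))) (.g (nat_lit 1) (.e (nat_lit 82820) (nat_lit 0) .nil) .nil))) 
(.lf (nat_lit 469932) (.g (nat_lit 4814) (.e (nat_lit 3307) (nat_lit 202) (.e (nat_lit 573489) (nat_lit 14) (.e (nat_lit 73755) (nat_lit 8) (.e (nat_lit 557105) (nat_lit 14) (.e (nat_lit 180252) (nat_lit 10) (.e (nat_lit 573473) (nat_lit 12) (.e (nat_lit 57504) (nat_lit 38) (.e (nat_lit 638986) (nat_lit 5) (.e (nat_lit 2466) (nat_lit 157) .nil))))))))) (.g (nat_lit 1) (.e (nat_lit 84085) (nat_lit 0) .nil) .nil)))))) 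
(.nd (nat_lit 7) (.nd (nat_lit 8) (.nd (nat_lit 9) 
(.lf (nat_lit 469100) (.g (nat_lit 3595) (.e (nat_lit 3302) (nat_lit 202) (.e (nat_lit 573492) (nat_lit 15) (.e (nat_lit 81956) (nat_lit 23) (.e (nat_lit 98389) (nat_lit 33) (.e (nat_lit 491555) (nat_lit 9) (.e (nat_lit 336273) (nat_lit 15) .nil)))))) (.g (nat_lit 1) (.e (nat_lit 82015) (nat_lit 0) .nil) .nil))) 
(.lf (nat_lit 469612) (.g (nat_lit 3974) (.e (nat_lit 3307) (nat_lit 202) (.e (nat_lit 573471) (nat_lit 11) (.e (nat_lit 16470) (nat_lit 14) (.e (nat_lit 491536) (nat_lit 2) .nil)))) (.g (nat_lit 0) (.e (nat_lit 83266) (nat_lit 0) .nil) .nil)))) (.nd (nat_lit 9) 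
(.lf (nat_lit 469356) (.g (nat_lit 3185) (.e (nat_lit 3304) (nat_lit 202) (.e (nat_lit 573493) (nat_lit 15) (.e (nat_lit 81956) (nat_lit 23) (.e (nat_lit 98358) (nat_lit 26) .nil)))) (.g (nat_lit 0) (.e (nat_lit 82692) (nat_lit 0) .nil) .nil))) 
(.lf (nat_lit 469868) (.g (nat_lit 4618) (.e (nat_lit 3307) (nat_lit 202) (.e (nat_lit 573485) (nat_lit 13) (.e (nat_lit 65619) (nat_lit 10) (.e (nat_lit 344117) (nat_lit 21) (.e (nat_lit 516185) (nat_lit 16) (.e (nat_lit 491549) (nat_lit 9) (.e (nat_lit 336306) (nat_lit 15) .nil))))))) (.g (nat_lit 1) (.e (nat_lit 83796) (nat_lit 0) .nil) .nil))))) (.nd (nat_lit 8) (.nd (nat_lit 9) 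
(.lf (nat_lit 469228) (.g (nat_lit 4379) (.e (nat_lit 3304) (nat_lit 202) (.e (nat_lit 573484) (nat_lit 13) (.e (nat_lit 65617) (nat_lit 10) (.e (nat_lit 344130) (nat_lit 26) (.e (nat_lit 557085) (nat_lit 11) (.e (nat_lit 24630) (nat_lit 9) (.e (nat_lit 336306) (nat_lit 15) .nil))))))) (.g (nat_lit 1) (.e (nat_lit 82310) (nat_lit 0) .nil) .nil))) 
(.lf (nat_lit 469740) (.g (nat_lit 4537) (.e (nat_lit 3307) (nat_lit 202) (.e (nat_lit 573484) (nat_lit 13) (.e (nat_lit 65617) (nat_lit 10) (.e (nat_lit 344130) (nat_lit 26) (.e (nat_lit 557085) (nat_lit 11) (.e (nat_lit 24630) (nat_lit 9) (.e (nat_lit 336260) (nat_lit 15) .nil))))))) (.g (nat_lit 1) (.e (nat_lit 83608) (nat_lit 0) .nil) .nil)))) (.nd (nat_lit 9) 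
(.lf (nat_lit 469484) (.g (nat_lit 1352) (.e (nat_lit 3305) (nat_lit 202) (.e (nat_lit 573484) (nat_lit 13) (.e (nat_lit 65619) (nat_lit 10) (.e (nat_lit 344117) (nat_lit 21) .nil)))) (.g (nat_lit 0) (.e (nat_lit 82980) (nat_lit 0) .nil) .nil))) 
(.lf (nat_lit 469996) (.g (nat_lit 4921) (.e (nat_lit 3307) (nat_lit 202) (.e (nat_lit 573493) (nat_lit 15) (.e (nat_lit 81956) (nat_lit 23) (.e (nat_lit 98388) (nat_lit 33) (.e (nat_lit 491549) (nat_lit 9) (.e (nat_lit 336260) (nat_lit 15) .nil)))))) (.g (nat_lit 1) (.e (nat_lit 84267) (nat_lit 0) .nil) .nil)))))))) 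
(.nd (nat_lit 5) (.nd (nat_lit 6) (.nd (nat_lit 7) (.nd (nat_lit 8) (.nd (nat_lit 9) 
(.lf (nat_lit 469020) (.g (nat_lit 3602) (.e (nat_lit 3302) (nat_lit 202) (.e (nat_lit 573484) (nat_lit 13) (.e (nat_lit 65610) (nat_lit 10) (.e (nat_lit 344117) (nat_lit 21) (.e (nat_lit 516182) (nat_lit 15) .nil))))) (.g (nat_lit 0) (.e (nat_lit 81733) (nat_lit 0) .nil) .nil))) 
(.lf (nat_lit 469532) (.g (nat_lit 265) (.e (nat_lit 3305) (nat_lit 202) (.e (nat_lit 573487) (nat_lit 14) (.e (nat_lit 81664) (nat_lit 32) .nil))) (.g (nat_lit 0) (.e (nat_lit 83056) (nat_lit 0) .nil) .nil)))) (.nd (nat_lit 9) 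
(.lf (nat_lit 469276) (.g (nat_lit 1907) (.e (nat_lit 3304) (nat_lit 202) (.e (nat_lit 573485) (nat_lit 13) (.e (nat_lit 65619) (nat_lit 10) (.e (nat_lit 344117) (nat_lit 21) (.e (nat_lit 516098) (nat_lit 0) (.e (nat_lit 7589) (nat_lit 406) (.e (nat_lit 65637) (nat_lit 15) .nil))))))) (.g (nat_lit 1) (.e (nat_lit 82413) (nat_lit 0) .nil) .nil))) 
(.lf (nat_lit 469788) (.g (nat_lit 2455) (.e (nat_lit 3307) (nat_lit 202) (.e (nat_lit 573485) (nat_lit 13) (.e (nat_lit 65604) (nat_lit 9) (.e (nat_lit 336013) (nat_lit 2) (.e (nat_lit 90170) (nat_lit 13) (.e (nat_lit 172049) (nat_lit 0) (.e (nat_lit 3407) (nat_lit 212) (.e (nat_lit 655364) (nat_lit 0) (.e (nat_lit 2472) (nat_lit 157) .nil))))))))) (.g (nat_lit 1) (.e (nat_lit 83686) (nat_lit 0) .nil) .nil))))) 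
(.nd (nat_lit 8) (.nd (nat_lit 9) 
(.lf (nat_lit 469148) (.g (nat_lit 2301) (.e (nat_lit 3304) (nat_lit 202) (.e (nat_lit 573477) (nat_lit 12) (.e (nat_lit 57575) (nat_lit 55) (.e (nat_lit 778465) (nat_lit 11) (.e (nat_lit 24604) (nat_lit 2) (.e (nat_lit 90176) (nat_lit 15) (.e (nat_lit 188438) (nat_lit 20) .nil))))))) (.g (nat_lit 1) (.e (nat_lit 82146) (nat_lit 0) .nil) .nil))) 
(.lf (nat_lit 469660) (.g (nat_lit 6916) (.e (nat_lit 3307) (nat_lit 202) (.e (nat_lit 573477) (nat_lit 12) (.e (nat_lit 57575) (nat_lit 55) (.e (nat_lit 778465) (nat_lit 11) (.e (nat_lit 24604) (nat_lit 2) (.e (nat_lit 90178) (nat_lit 15) (.e (nat_lit 188440) (nat_lit 20) .nil))))))) (.g (nat_lit 1) (.e (nat_lit 83317) (nat_lit 0) .nil) .nil)))) (.nd (nat_lit 9) 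
(.lf (nat_lit 469404) (.g (nat_lit 2824) (.e (nat_lit 3305) (nat_lit 202) (.e (nat_lit 573482) (nat_lit 13) (.e (nat_lit 65622) (nat_lit 12) (.e (nat_lit 385074) (nat_lit 31) (.e (nat_lit 573493) (nat_lit 15) .nil))))) (.g (nat_lit 0) (.e (nat_lit 82769) (nat_lit 0) .nil) .nil))) 
(.lf (nat_lit 469916) (.g (nat_lit 3039) (.e (nat_lit 3307) (nat_lit 202) (.e (nat_lit 573489) (nat_lit 14) (.e (nat_lit 73755) (nat_lit 8) (.e (nat_lit 557098) (nat_lit 13) (.e (nat_lit 179968) (nat_lit 18) (.e (nat_lit 98335) (nat_lit 18) (.e (nat_lit 164332) (nat_lit 230) (.e (nat_lit 163851) (nat_lit 0) .nil)))))))) (.g (nat_lit 1) (.e (nat_lit 83940) (nat_lit 0) .nil) .nil)))))) 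
(.nd (nat_lit 7) (.nd (nat_lit 8) (.nd (nat_lit 9) 
(.lf (nat_lit 469084) (.g (nat_lit 4477) (.e (nat_lit 3302) (nat_lit 202) (.e (nat_lit 573492) (nat_lit 15) (.e (nat_lit 81956) (nat_lit 23) (.e (nat_lit 98384) (nat_lit 32) (.e (nat_lit 475211) (nat_lit 41) (.e (nat_lit 712722) (nat_lit 15) .nil)))))) (.g (nat_lit 1) (.e (nat_lit 81999) (nat_lit 0) .nil) .nil))) 
(.lf (nat_lit 469596) (.g (nat_lit 2552) (.e (nat_lit 3307) (nat_lit 202) (.e (nat_lit 573469) (nat_lit 11) (.e (nat_lit 16458) (nat_lit 12) (.e (nat_lit 475185) (nat_lit 29) (.e (nat_lit 557107) (nat_lit 15) .nil))))) (.g (nat_lit 0) (.e (nat_lit 83249) (nat_lit 0) .nil) .nil)))) (.nd (nat_lit 9) 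
(.lf (nat_lit 469340) (.g (nat_lit 4640) (.e (nat_lit 3304) (nat_lit 202) (.e (nat_lit 573493) (nat_lit 15) (.e (nat_lit 81953) (nat_lit 22) (.e (nat_lit 90167) (nat_lit 13) .nil)))) (.g (nat_lit 0) (.e (nat_lit 82634) (nat_lit 0) .nil) .nil))) 
(.lf (nat_lit 469852) (.g (nat_lit 2663) (.e (nat_lit 3307) (nat_lit 202) (.e (nat_lit 573485) (nat_lit 13) (.e (nat_lit 65619) (nat_lit 10) (.e (nat_lit 344117) (nat_lit 21) (.e (nat_lit 516151) (nat_lit 9) (.e (nat_lit 426043) (nat_lit 0) (.e (nat_lit 3407) (nat_lit 212) (.e (nat_lit 655364) (nat_lit 0) (.e (nat_lit 2472) (nat_lit 157) .nil))))))))) (.g (nat_lit 1) (.e (nat_lit 83780) (nat_lit 0) .nil) .nil))))) 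
(.nd (nat_lit 8) (.nd (nat_lit 9) 
(.lf (nat_lit 469212) (.g (nat_lit 2806) (.e (nat_lit 3304) (nat_lit 202) (.e (nat_lit 573482) (nat_lit 13) (.e (nat_lit 65630) (nat_lit 14) (.e (nat_lit 401425) (nat_lit 2) (.e (nat_lit 196672) (nat_lit 15) (.e (nat_lit 81924) (nat_lit 0) .nil)))))) (.g (nat_lit 1) (.e (nat_lit 82220) (nat_lit 0) .nil) .nil))) 
(.lf (nat_lit 469724) (.g (nat_lit 3951) (.e (nat_lit 3307) (nat_lit 202) (.e (nat_lit 573484) (nat_lit 13) (.e (nat_lit 65610) (nat_lit 10) (.e (nat_lit 344129) (nat_lit 26) (.e (nat_lit 557086) (nat_lit 11) (.e (nat_lit 24630) (nat_lit 9) (.e (nat_lit 336260) (nat_lit 15) .nil))))))) (.g (nat_lit 1) (.e (nat_lit 83587) (nat_lit 0) .nil) .nil)))) (.nd (nat_lit 9) 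
(.lf (nat_lit 469468) (.g (nat_lit 2670) (.e (nat_lit 3305) (nat_lit 202) (.e (nat_lit 573484) (nat_lit 13) (.e (nat_lit 65617) (nat_lit 10) (.e (nat_lit 344130) (nat_lit 26) (.e (nat_lit 557087) (nat_lit 11) (.e (nat_lit 24633) (nat_lit 9) (.e (nat_lit 336292) (nat_lit 15) .nil))))))) (.g (nat_lit 1) (.e (nat_lit 82929) (nat_lit 0) .nil) .nil))) 
(.lf (nat_lit 469980) (.g (nat_lit 3770) (.e (nat_lit 3307) (nat_lit 202) (.e (nat_lit 573493) (nat_lit 15) (.e (nat_lit 81956) (nat_lit 23) (.e (nat_lit 98320) (nat_lit 17) (.e (nat_lit 7589) (nat_lit 406) (.e (nat_lit 73472) (nat_lit 15) .nil)))))) (.g (nat_lit 1) (.e (nat_lit 84235) (nat_lit 0) .nil) .nil))))))) (.nd (nat_lit 6) (.nd (nat_lit 7) (.nd (nat_lit 8) (.nd (nat_lit 9) 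
(.lf (nat_lit 469052) (.g (nat_lit 2277) (.e (nat_lit 3302) (nat_lit 202) (.e (nat_lit 573492) (nat_lit 15) (.e (nat_lit 81953) (nat_lit 22) (.e (nat_lit 90169) (nat_lit 13) .nil)))) (.g (nat_lit 0) (.e (nat_lit 81935) (nat_lit 0) .nil) .nil))) 
(.lf (nat_lit 469564) (.g (nat_lit 4649) (.e (nat_lit 3305) (nat_lit 202) (.e (nat_lit 573493) (nat_lit 15) (.e (nat_lit 81953) (nat_lit 22) (.e (nat_lit 90191) (nat_lit 18) .nil)))) (.g (nat_lit 0) (.e (nat_lit 83141) (nat_lit 0) .nil) .nil)))) (.nd (nat_lit 9) 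
(.lf (nat_lit 469308) (.g (nat_lit 1837) (.e (nat_lit 3304) (nat_lit 202) (.e (nat_lit 573489) (nat_lit 14) (.e (nat_lit 73755) (nat_lit 8) (.e (nat_lit 557097) (nat_lit 13) .nil)))) (.g (nat_lit 0) (.e (nat_lit 82466) (nat_lit 0) .nil) .nil))) 
(.lf (nat_lit 469820) (.g (nat_lit 3275) (.e (nat_lit 3307) (nat_lit 202) (.e (nat_lit 573485) (nat_lit 13) (.e (nat_lit 65619) (nat_lit 10) (.e (nat_lit 344117) (nat_lit 21) (.e (nat_lit 516097) (nat_lit 0) (.e (nat_lit 7587) (nat_lit 406) (.e (nat_lit 73472) (nat_lit 15) .nil))))))) (.g (nat_lit 1) (.e (nat_lit 83744) (nat_lit 0) .nil) .nil))))) (.nd (nat_lit 8) (.nd (nat_lit 9) 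
(.lf (nat_lit 469180) (.g (nat_lit 2188) (.e (nat_lit 3304) (nat_lit 202) (.e (nat_lit 573482) (nat_lit 13) (.e (nat_lit 65619) (nat_lit 10) (.e (nat_lit 344117) (nat_lit 21) (.e (nat_lit 516097) (nat_lit 0) (.e (nat_lit 7589) (nat_lit 406) (.e (nat_lit 65637) (nat_lit 15) .nil))))))) (.g (nat_lit 1) (.e (nat_lit 82184) (nat_lit 0) .nil) .nil))) 
(.lf (nat_lit 469692) (.g (nat_lit 2742) (.e (nat_lit 3307) (nat_lit 202) (.e (nat_lit 573484) (nat_lit 13) (.e (nat_lit 65610) (nat_lit 10) (.e (nat_lit 344117) (nat_lit 21) (.e (nat_lit 516106) (nat_lit 0) (.e (nat_lit 6966) (nat_lit 377) (.e (nat_lit 2779) (nat_lit 178) (.e (nat_lit 286765) (nat_lit 15) .nil)))))))) (.g (nat_lit 1) (.e (nat_lit 83371) (nat_lit 0) .nil) .nil)))) 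
(.nd (nat_lit 9) 
(.lf (nat_lit 469436) (.g (nat_lit 2843) (.e (nat_lit 3305) (nat_lit 202) (.e (nat_lit 573484) (nat_lit 13) (.e (nat_lit 65610) (nat_lit 10) (.e (nat_lit 344129) (nat_lit 26) (.e (nat_lit 557087) (nat_lit 11) (.e (nat_lit 24632) (nat_lit 9) (.e (nat_lit 336291) (nat_lit 15) .nil))))))) (.g (nat_lit 1) (.e (nat_lit 82859) (nat_lit 0) .nil) .nil))) 
(.lf (nat_lit 469948) (.g (nat_lit 3979) (.e (nat_lit 3307) (nat_lit 202) (.e (nat_lit 573489) (nat_lit 14) (.e (nat_lit 73755) (nat_lit 8) (.e (nat_lit 557105) (nat_lit 14) (.e (nat_lit 180252) (nat_lit 10) (.e (nat_lit 573475) (nat_lit 12) (.e (nat_lit 57503) (nat_lit 38) (.e (nat_lit 638985) (nat_lit 5) (.e (nat_lit 2467) (nat_lit 157) .nil))))))))) (.g (nat_lit 1) (.e (nat_lit 84153) (nat_lit 0) .nil) .nil)))))) 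
(.nd (nat_lit 7) (.nd (nat_lit 8) (.nd (nat_lit 9) 
(.lf (nat_lit 469116) (.g (nat_lit 3397) (.e (nat_lit 3302) (nat_lit 202) (.e (nat_lit 573493) (nat_lit 15) (.e (nat_lit 81956) (nat_lit 23) (.e (nat_lit 98350) (nat_lit 24) .nil)))) (.g (nat_lit 0) (.e (nat_lit 82068) (nat_lit 0) .nil) .nil))) 
(.lf (nat_lit 469628) (.g (nat_lit 3491) (.e (nat_lit 3307) (nat_lit 202) (.e (nat_lit 573475) (nat_lit 12) (.e (nat_lit 57574) (nat_lit 55) (.e (nat_lit 778466) (nat_lit 11) (.e (nat_lit 24604) (nat_lit 2) (.e (nat_lit 90176) (nat_lit 15) (.e (nat_lit 188438) (nat_lit 20) .nil))))))) (.g (nat_lit 1) (.e (nat_lit 83283) (nat_lit 0) .nil) .nil)))) (.nd (nat_lit 9) 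
(.lf (nat_lit 469372) (.g (nat_lit 3643) (.e (nat_lit 3304) (nat_lit 202) (.e (nat_lit 573493) (nat_lit 15) (.e (nat_lit 81956) (nat_lit 23) (.e (nat_lit 98389) (nat_lit 33) (.e (nat_lit 491556) (nat_lit 9) .nil))))) (.g (nat_lit 0) (.e (nat_lit 82721) (nat_lit 0) .nil) .nil))) 
(.lf (nat_lit 469884) (.g (nat_lit 4532) (.e (nat_lit 3307) (nat_lit 202) (.e (nat_lit 573485) (nat_lit 13) (.e (nat_lit 65619) (nat_lit 10) (.e (nat_lit 344129) (nat_lit 26) (.e (nat_lit 557087) (nat_lit 11) (.e (nat_lit 24628) (nat_lit 9) (.e (nat_lit 336306) (nat_lit 15) .nil))))))) (.g (nat_lit 1) (.e (nat_lit 83818) (nat_lit 0) .nil) .nil))))) (.nd (nat_lit 8) (.nd (nat_lit 9) 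
(.lf (nat_lit 469244) (.g (nat_lit 4141) (.e (nat_lit 3304) (nat_lit 202) (.e (nat_lit 573484) (nat_lit 13) (.e (nat_lit 65617) (nat_lit 10) (.e (nat_lit 344130) (nat_lit 26) (.e (nat_lit 557087) (nat_lit 11) (.e (nat_lit 24632) (nat_lit 9) (.e (nat_lit 336267) (nat_lit 15) .nil))))))) (.g (nat_lit 1) (.e (nat_lit 82326) (nat_lit 0) .nil) .nil))) 
(.lf (nat_lit 469756) (.g (nat_lit 4387) (.e (nat_lit 3307) (nat_lit 202) (.e (nat_lit 573484) (nat_lit 13) (.e (nat_lit 65617) (nat_lit 10) (.e (nat_lit 344133) (nat_lit 26) (.e (nat_lit 557086) (nat_lit 11) (.e (nat_lit 24630) (nat_lit 9) (.e (nat_lit 336306) (nat_lit 15) .nil))))))) (.g (nat_lit 1) (.e (nat_lit 83630) (nat_lit 0) .nil) .nil)))) (.nd (nat_lit 9) 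
(.lf (nat_lit 469500) (.g (nat_lit 1949) (.e (nat_lit 3305) (nat_lit 202) (.e (nat_lit 573485) (nat_lit 13) (.e (nat_lit 65619) (nat_lit 10) (.e (nat_lit 344115) (nat_lit 20) (.e (nat_lit 507908) (nat_lit 0) (.e (nat_lit 5403) (nat_lit 302) (.e (nat_lit 65637) (nat_lit 15) .nil))))))) (.g (nat_lit 1) (.e (nat_lit 83020) (nat_lit 0) .nil) .nil))) 
(.lf (nat_lit 470012) (.g (nat_lit 2565) (.e (nat_lit 3308) (nat_lit 202) (.e (nat_lit 573450) (nat_lit 9) (.e (nat_lit 375) (nat_lit 32) (.e (nat_lit 426173) (nat_lit 7) (.e (nat_lit 409617) (nat_lit 10) (.e (nat_lit 7936) (nat_lit 43) (.e (nat_lit 516163) (nat_lit 11) (.e (nat_lit 442414) (nat_lit 20) .nil)))))))) (.g (nat_lit 1) (.e (nat_lit 84286) (nat_lit 0) .nil) .nil))))))))))) 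
(.nd (nat_lit 2) (.nd (nat_lit 3) (.nd (nat_lit 4) (.nd (nat_lit 5) (.nd (nat_lit 6) 
(.nd (nat_lit 7) (.nd (nat_lit 8) (.nd (nat_lit 9) 
(.lf (nat_lit 468994) (.g (nat_lit 1944) (.e (nat_lit 3302) (nat_lit 202) (.e (nat_lit 573481) (nat_lit 13) (.e (nat_lit 65630) (nat_lit 14) (.e (nat_lit 401428) (nat_lit 3) (.e (nat_lit 204876) (nat_lit 31) .nil))))) (.g (nat_lit 0) (.e (nat_lit 81701) (nat_lit 0) .nil) .nil))) 
(.lf (nat_lit 469506) (.g (nat_lit 3432) (.e (nat_lit 3305) (nat_lit 202) (.e (nat_lit 573485) (nat_lit 13) (.e (nat_lit 65619) (nat_lit 10) (.e (nat_lit 344117) (nat_lit 21) (.e (nat_lit 516106) (nat_lit 0) (.e (nat_lit 6986) (nat_lit 377) (.e (nat_lit 2782) (nat_lit 178) (.e (nat_lit 286764) (nat_lit 15) .nil)))))))) (.g (nat_lit 1) (.e (nat_lit 83026) (nat_lit 0) .nil) .nil)))) 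
(.nd (nat_lit 9) 
(.lf (nat_lit 469250) (.g (nat_lit 1036) (.e (nat_lit 3304) (nat_lit 202) (.e (nat_lit 573484) (nat_lit 13) (.e (nat_lit 65617) (nat_lit 10) (.e (nat_lit 344132) (nat_lit 26) .nil)))) (.g (nat_lit 0) (.e (nat_lit 82335) (nat_lit 0) .nil) .nil))) 
(.lf (nat_lit 469762) (.g (nat_lit 3409) (.e (nat_lit 3307) (nat_lit 202) (.e (nat_lit 573485) (nat_lit 13) (.e (nat_lit 65604) (nat_lit 9) (.e (nat_lit 336013) (nat_lit 2) (.e (nat_lit 90134) (nat_lit 9) (.e (nat_lit 3096) (nat_lit 192) (.e (nat_lit 491549) (nat_lit 9) (.e (nat_lit 336306) (nat_lit 15) .nil)))))))) (.g (nat_lit 1) (.e (nat_lit 83660) (nat_lit 0) .nil) .nil))))) 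
(.nd (nat_lit 8) (.nd (nat_lit 9) 
(.lf (nat_lit 469122) (.g (nat_lit 4298) (.e (nat_lit 3302) (nat_lit 202) (.e (nat_lit 573493) (nat_lit 15) (.e (nat_lit 81956) (nat_lit 23) (.e (nat_lit 98386) (nat_lit 32) (.e (nat_lit 475210) (nat_lit 41) .nil))))) (.g (nat_lit 0) (.e (nat_lit 82076) (nat_lit 0) .nil) .nil))) 
(.lf (nat_lit 469634) (.g (nat_lit 3563) (.e (nat_lit 3307) (nat_lit 202) (.e (nat_lit 573477) (nat_lit 12) (.e (nat_lit 57574) (nat_lit 55) (.e (nat_lit 778465) (nat_lit 11) (.e (nat_lit 24603) (nat_lit 2) (.e (nat_lit 90176) (nat_lit 15) (.e (nat_lit 188438) (nat_lit 20) .nil))))))) (.g (nat_lit 1) (.e (nat_lit 83291) (nat_lit 0) .nil) .nil)))) (.nd (nat_lit 9) 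
(.lf (nat_lit 469378) (.g (nat_lit 2465) (.e (nat_lit 3305) (nat_lit 202) (.e (nat_lit 573477) (nat_lit 12) (.e (nat_lit 57570) (nat_lit 54) (.e (nat_lit 770072) (nat_lit 8) (.e (nat_lit 65571) (nat_lit 3) (.e (nat_lit 98381) (nat_lit 31) (.e (nat_lit 466967) (nat_lit 20) .nil))))))) (.g (nat_lit 1) (.e (nat_lit 82741) (nat_lit 0) .nil) .nil))) 
(.lf (nat_lit 469890) (.g (nat_lit 2170) (.e (nat_lit 3307) (nat_lit 202) (.e (nat_lit 573485) (nat_lit 13) (.e (nat_lit 65628) (nat_lit 14) (.e (nat_lit 401425) (nat_lit 2) (.e (nat_lit 196681) (nat_lit 17) .nil))))) (.g (nat_lit 0) (.e (nat_lit 83824) (nat_lit 0) .nil) .nil)))))) (.nd (nat_lit 7) (.nd (nat_lit 8) (.nd (nat_lit 9) 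
(.lf (nat_lit 469058) (.g (nat_lit 2866) (.e (nat_lit 3302) (nat_lit 202) (.e (nat_lit 573492) (nat_lit 15) (.e (nat_lit 81956) (nat_lit 23) (.e (nat_lit 98319) (nat_lit 17) (.e (nat_lit 7589) (nat_lit 406) (.e (nat_lit 73472) (nat_lit 15) .nil)))))) (.g (nat_lit 1) (.e (nat_lit 81948) (nat_lit 0) .nil) .nil))) 
(.lf (nat_lit 469570) (.g (nat_lit 2703) (.e (nat_lit 3305) (nat_lit 202) (.e (nat_lit 573493) (nat_lit 15) (.e (nat_lit 81954) (nat_lit 23) (.e (nat_lit 98325) (nat_lit 17) (.e (nat_lit 7550) (nat_lit 402) .nil))))) (.g (nat_lit 0) (.e (nat_lit 83148) (nat_lit 0) .nil) .nil)))) (.nd (nat_lit 9) 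
(.lf (nat_lit 469314) (.g (nat_lit 3019) (.e (nat_lit 3304) (nat_lit 202) (.e (nat_lit 573489) (nat_lit 14) (.e (nat_lit 73755) (nat_lit 8) (.e (nat_lit 557098) (nat_lit 13) (.e (nat_lit 179968) (nat_lit 18) (.e (nat_lit 98334) (nat_lit 18) (.e (nat_lit 164330) (nat_lit 230) (.e (nat_lit 163857) (nat_lit 0) .nil)))))))) (.g (nat_lit 1) (.e (nat_lit 82476) (nat_lit 0) .nil) .nil))) 
(.lf (nat_lit 469826) (.g (nat_lit 2669) (.e (nat_lit 3307) (nat_lit 202) (.e (nat_lit 573485) (nat_lit 13) (.e (nat_lit 65619) (nat_lit 10) (.e (nat_lit 344117) (nat_lit 21) (.e (nat_lit 516102) (nat_lit 0) (.e (nat_lit 7107) (nat_lit 380) (.e (nat_lit 164338) (nat_lit 232) (.e (nat_lit 75) (nat_lit 0) .nil)))))))) (.g (nat_lit 1) (.e (nat_lit 83750) (nat_lit 0) .nil) .nil))))) 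
(.nd (nat_lit 8) (.nd (nat_lit 9) 
(.lf (nat_lit 469186) (.g (nat_lit 2284) (.e (nat_lit 3304) (nat_lit 202) (.e (nat_lit 573482) (nat_lit 13) (.e (nat_lit 65619) (nat_lit 10) (.e (nat_lit 344117) (nat_lit 21) (.e (nat_lit 516106) (nat_lit 0) (.e (nat_lit 7936) (nat_lit 406) (.e (nat_lit 65642) (nat_lit 15) .nil))))))) (.g (nat_lit 1) (.e (nat_lit 82190) (nat_lit 0) .nil) .nil))) 
(.lf (nat_lit 469698) (.g (nat_lit 4740) (.e (nat_lit 3307) (nat_lit 202) (.e (nat_lit 573484) (nat_lit 13) (.e (nat_lit 65610) (nat_lit 10) (.e (nat_lit 344117) (nat_lit 21) (.e (nat_lit 516139) (nat_lit 7) (.e (nat_lit 409641) (nat_lit 17) (.e (nat_lit 294966) (nat_lit 15) .nil))))))) (.g (nat_lit 1) (.e (nat_lit 83399) (nat_lit 0) .nil) .nil)))) (.nd (nat_lit 9) 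
(.lf (nat_lit 469442) (.g (nat_lit 934) (.e (nat_lit 3305) (nat_lit 202) (.e (nat_lit 573484) (nat_lit 13) (.e (nat_lit 65617) (nat_lit 10) (.e (nat_lit 344096) (nat_lit 18) .nil)))) (.g (nat_lit 0) (.e (nat_lit 82867) (nat_lit 0) .nil) .nil))) 
(.lf (nat_lit 469954) (.g (nat_lit 2978) (.e (nat_lit 3307) (nat_lit 202) (.e (nat_lit 573489) (nat_lit 14) (.e (nat_lit 73755) (nat_lit 8) (.e (nat_lit 557105) (nat_lit 14) (.e (nat_lit 180252) (nat_lit 10) (.e (nat_lit 573475) (nat_lit 12) (.e (nat_lit 57504) (nat_lit 38) (.e (nat_lit 638986) (nat_lit 5) (.e (nat_lit 2473) (nat_lit 157) .nil))))))))) (.g (nat_lit 1) (.e (nat_lit 84159) (nat_lit 0) .nil) .nil))))))) 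
(.nd (nat_lit 6) (.nd (nat_lit 7) (.nd (nat_lit 8) (.nd (nat_lit 9) 
(.lf (nat_lit 469026) (.g (nat_lit 2464) (.e (nat_lit 3302) (nat_lit 202) (.e (nat_lit 573484) (nat_lit 13) (.e (nat_lit 65624) (nat_lit 12) (.e (nat_lit 385074) (nat_lit 31) (.e (nat_lit 573493) (nat_lit 15) .nil))))) (.g (nat_lit 0) (.e (nat_lit 81751) (nat_lit 0) .nil) .nil))) 
(.lf (nat_lit 469538) (.g (nat_lit 1112) (.e (nat_lit 3305) (nat_lit 202) (.e (nat_lit 573491) (nat_lit 15) (.e (nat_lit 81954) (nat_lit 23) (.e (nat_lit 98321) (nat_lit 17) .nil)))) (.g (nat_lit 0) (.e (nat_lit 83094) (nat_lit 0) .nil) .nil)))) (.nd (nat_lit 9) 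
(.lf (nat_lit 469282) (.g (nat_lit 2354) (.e (nat_lit 3304) (nat_lit 202) (.e (nat_lit 573485) (nat_lit 13) (.e (nat_lit 65619) (nat_lit 10) (.e (nat_lit 344117) (nat_lit 21) (.e (nat_lit 516151) (nat_lit 9) (.e (nat_lit 426142) (nat_lit 4) (.e (nat_lit 229679) (nat_lit 244) (.e (nat_lit 163850) (nat_lit 0) .nil)))))))) (.g (nat_lit 1) (.e (nat_lit 82420) (nat_lit 0) .nil) .nil))) 
(.lf (nat_lit 469794) (.g (nat_lit 2912) (.e (nat_lit 3307) (nat_lit 202) (.e (nat_lit 573485) (nat_lit 13) (.e (nat_lit 65604) (nat_lit 9) (.e (nat_lit 336013) (nat_lit 2) (.e (nat_lit 90170) (nat_lit 13) (.e (nat_lit 172070) (nat_lit 4) (.e (nat_lit 229678) (nat_lit 244) (.e (nat_lit 163851) (nat_lit 0) .nil)))))))) (.g (nat_lit 1) (.e (nat_lit 83692) (nat_lit 0) .nil) .nil))))) 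
(.nd (nat_lit 8) (.nd (nat_lit 9) 
(.lf (nat_lit 469154) (.g (nat_lit 2442) (.e (nat_lit 3304) (nat_lit 202) (.e (nat_lit 573477) (nat_lit 12) (.e (nat_lit 57575) (nat_lit 55) (.e (nat_lit 778466) (nat_lit 11) (.e (nat_lit 24604) (nat_lit 2) (.e (nat_lit 90176) (nat_lit 15) (.e (nat_lit 188424) (nat_lit 20) .nil))))))) (.g (nat_lit 1) (.e (nat_lit 82152) (nat_lit 0) .nil) .nil))) 
(.lf (nat_lit 469666) (.g (nat_lit 3540) (.e (nat_lit 3307) (nat_lit 202) (.e (nat_lit 573477) (nat_lit 12) (.e (nat_lit 57575) (nat_lit 55) (.e (nat_lit 778466) (nat_lit 11) (.e (nat_lit 24604) (nat_lit 2) (.e (nat_lit 90176) (nat_lit 15) (.e (nat_lit 188424) (nat_lit 20) .nil))))))) (.g (nat_lit 1) (.e (nat_lit 83323) (nat_lit 0) .nil) .nil)))) (.nd (nat_lit 9) 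
(.lf (nat_lit 469410) (.g (nat_lit 3211) (.e (nat_lit 3305) (nat_lit 202) (.e (nat_lit 573482) (nat_lit 13) (.e (nat_lit 65630) (nat_lit 14) (.e (nat_lit 401425) (nat_lit 2) (.e (nat_lit 196672) (nat_lit 15) (.e (nat_lit 81924) (nat_lit 0) .nil)))))) (.g (nat_lit 1) (.e (nat_lit 82779) (nat_lit 0) .nil) .nil))) 
(.lf (nat_lit 469922) (.g (nat_lit 4062) (.e (nat_lit 3307) (nat_lit 202) (.e (nat_lit 573489) (nat_lit 14) (.e (nat_lit 73755) (nat_lit 8) (.e (nat_lit 557105) (nat_lit 14) (.e (nat_lit 180251) (nat_lit 10) (.e (nat_lit 573475) (nat_lit 12) (.e (nat_lit 57503) (nat_lit 38) (.e (nat_lit 638983) (nat_lit 5) (.e (nat_lit 2461) (nat_lit 157) .nil))))))))) (.g (nat_lit 1) (.e (nat_lit 84072) (nat_lit 0) .nil) .nil)))))) 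
(.nd (nat_lit 7) (.nd (nat_lit 8) (.nd (nat_lit 9) 
(.lf (nat_lit 469090) (.g (nat_lit 3280) (.e (nat_lit 3302) (nat_lit 202) (.e (nat_lit 573492) (nat_lit 15) (.e (nat_lit 81956) (nat_lit 23) (.e (nat_lit 98388) (nat_lit 33) (.e (nat_lit 491549) (nat_lit 9) (.e (nat_lit 336284) (nat_lit 15) .nil)))))) (.g (nat_lit 1) (.e (nat_lit 82005) (nat_lit 0) .nil) .nil))) 
(.lf (nat_lit 469602) (.g (nat_lit 3916) (.e (nat_lit 3307) (nat_lit 202) (.e (nat_lit 573469) (nat_lit 11) (.e (nat_lit 16473) (nat_lit 14) (.e (nat_lit 491536) (nat_lit 2) (.e (nat_lit 90178) (nat_lit 15) (.e (nat_lit 188440) (nat_lit 20) .nil)))))) (.g (nat_lit 1) (.e (nat_lit 83255) (nat_lit 0) .nil) .nil)))) (.nd (nat_lit 9) 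
(.lf (nat_lit 469346) (.g (nat_lit 3433) (.e (nat_lit 3304) (nat_lit 202) (.e (nat_lit 573493) (nat_lit 15) (.e (nat_lit 81953) (nat_lit 22) (.e (nat_lit 90170) (nat_lit 13) (.e (nat_lit 172069) (nat_lit 4) (.e (nat_lit 229678) (nat_lit 244) (.e (nat_lit 163850) (nat_lit 0) .nil))))))) (.g (nat_lit 1) (.e (nat_lit 82640) (nat_lit 0) .nil) .nil))) 
(.lf (nat_lit 469858) (.g (nat_lit 2393) (.e (nat_lit 3307) (nat_lit 202) (.e (nat_lit 573485) (nat_lit 13) (.e (nat_lit 65619) (nat_lit 10) (.e (nat_lit 344117) (nat_lit 21) (.e (nat_lit 516183) (nat_lit 16) (.e (nat_lit 491549) (nat_lit 9) (.e (nat_lit 336260) (nat_lit 15) .nil))))))) (.g (nat_lit 1) (.e (nat_lit 83786) (nat_lit 0) .nil) .nil))))) (.nd (nat_lit 8) (.nd (nat_lit 9) 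
(.lf (nat_lit 469218) (.g (nat_lit 1122) (.e (nat_lit 3304) (nat_lit 202) (.e (nat_lit 573484) (nat_lit 13) (.e (nat_lit 65610) (nat_lit 10) (.e (nat_lit 344117) (nat_lit 21) .nil)))) (.g (nat_lit 0) (.e (nat_lit 82230) (nat_lit 0) .nil) .nil))) 
(.lf (nat_lit 469730) (.g (nat_lit 2902) (.e (nat_lit 3307) (nat_lit 202) (.e (nat_lit 573484) (nat_lit 13) (.e (nat_lit 65610) (nat_lit 10) (.e (nat_lit 344129) (nat_lit 26) (.e (nat_lit 557087) (nat_lit 11) (.e (nat_lit 24626) (nat_lit 9) (.e (nat_lit 336260) (nat_lit 15) .nil))))))) (.g (nat_lit 1) (.e (nat_lit 83594) (nat_lit 0) .nil) .nil)))) (.nd (nat_lit 9) 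
(.lf (nat_lit 469474) (.g (nat_lit 2326) (.e (nat_lit 3305) (nat_lit 202) (.e (nat_lit 573484) (nat_lit 13) (.e (nat_lit 65617) (nat_lit 10) (.e (nat_lit 344130) (nat_lit 26) (.e (nat_lit 557087) (nat_lit 11) (.e (nat_lit 24637) (nat_lit 9) (.e (nat_lit 336291) (nat_lit 15) .nil))))))) (.g (nat_lit 1) (.e (nat_lit 82935) (nat_lit 0) .nil) .nil))) 
(.lf (nat_lit 469986) (.g (nat_lit 4780) (.e (nat_lit 3307) (nat_lit 202) (.e (nat_lit 573493) (nat_lit 15) (.e (nat_lit 81956) (nat_lit 23) (.e (nat_lit 98349) (nat_lit 24) (.e (nat_lit 409642) (nat_lit 17) (.e (nat_lit 294966) (nat_lit 15) .nil)))))) (.g (nat_lit 1) (.e (nat_lit 84241) (nat_lit 0) .nil) .nil)))))))) 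
(.nd (nat_lit 5) (.nd (nat_lit 6) (.nd (nat_lit 7) (.nd (nat_lit 8) (.nd (nat_lit 9) 
(.lf (nat_lit 469010) (.g (nat_lit 2988) (.e (nat_lit 3302) (nat_lit 202) (.e (nat_lit 573482) (nat_lit 13) (.e (nat_lit 65628) (nat_lit 14) (.e (nat_lit 401428) (nat_lit 3) (.e (nat_lit 204866) (nat_lit 28) (.e (nat_lit 352261) (nat_lit 0) .nil)))))) (.g (nat_lit 1) (.e (nat_lit 81717) (nat_lit 0) .nil) .nil))) 
(.lf (nat_lit 469522) (.g (nat_lit 2699) (.e (nat_lit 3305) (nat_lit 202) (.e (nat_lit 573485) (nat_lit 13) (.e (nat_lit 65624) (nat_lit 12) (.e (nat_lit 385074) (nat_lit 31) (.e (nat_lit 573491) (nat_lit 15) (.e (nat_lit 81922) (nat_lit 0) .nil)))))) (.g (nat_lit 1) (.e (nat_lit 83044) (nat_lit 0) .nil) .nil)))) (.nd (nat_lit 9) 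
(.lf (nat_lit 469266) (.g (nat_lit 2732) (.e (nat_lit 3304) (nat_lit 202) (.e (nat_lit 573485) (nat_lit 13) (.e (nat_lit 65604) (nat_lit 9) (.e (nat_lit 336013) (nat_lit 2) (.e (nat_lit 90170) (nat_lit 13) (.e (nat_lit 172068) (nat_lit 4) (.e (nat_lit 229680) (nat_lit 244) (.e (nat_lit 163850) (nat_lit 0) .nil)))))))) (.g (nat_lit 1) (.e (nat_lit 82394) (nat_lit 0) .nil) .nil))) 
(.lf (nat_lit 469778) (.g (nat_lit 3528) (.e (nat_lit 3307) (nat_lit 202) (.e (nat_lit 573485) (nat_lit 13) (.e (nat_lit 65604) (nat_lit 9) (.e (nat_lit 336013) (nat_lit 2) (.e (nat_lit 90165) (nat_lit 12) (.e (nat_lit 164218) (nat_lit 179) (.e (nat_lit 164339) (nat_lit 232) (.e (nat_lit 77) (nat_lit 0) .nil)))))))) (.g (nat_lit 1) (.e (nat_lit 83676) (nat_lit 0) .nil) .nil))))) 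
(.nd (nat_lit 8) (.nd (nat_lit 9) 
(.lf (nat_lit 469138) (.g (nat_lit 2578) (.e (nat_lit 3304) (nat_lit 202) (.e (nat_lit 573477) (nat_lit 12) (.e (nat_lit 57574) (nat_lit 55) (.e (nat_lit 778465) (nat_lit 11) (.e (nat_lit 24603) (nat_lit 2) (.e (nat_lit 90176) (nat_lit 15) (.e (nat_lit 188439) (nat_lit 20) .nil))))))) (.g (nat_lit 1) (.e (nat_lit 82136) (nat_lit 0) .nil) .nil))) 
(.lf (nat_lit 469650) (.g (nat_lit 5013) (.e (nat_lit 3307) (nat_lit 202) (.e (nat_lit 573477) (nat_lit 12) (.e (nat_lit 57574) (nat_lit 55) (.e (nat_lit 778466) (nat_lit 11) (.e (nat_lit 24608) (nat_lit 3) (.e (nat_lit 98370) (nat_lit 28) (.e (nat_lit 442411) (nat_lit 20) .nil))))))) (.g (nat_lit 1) (.e (nat_lit 83307) (nat_lit 0) .nil) .nil)))) (.nd (nat_lit 9) 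
(.lf (nat_lit 469394) (.g (nat_lit 2681) (.e (nat_lit 3305) (nat_lit 202) (.e (nat_lit 573482) (nat_lit 13) (.e (nat_lit 65619) (nat_lit 10) (.e (nat_lit 344115) (nat_lit 20) (.e (nat_lit 507906) (nat_lit 0) (.e (nat_lit 5405) (nat_lit 302) (.e (nat_lit 65637) (nat_lit 15) .nil))))))) (.g (nat_lit 1) (.e (nat_lit 82759) (nat_lit 0) .nil) .nil))) 
(.lf (nat_lit 469906) (.g (nat_lit 460) (.e (nat_lit 3307) (nat_lit 202) (.e (nat_lit 573489) (nat_lit 14) (.e (nat_lit 73755) (nat_lit 8) .nil))) (.g (nat_lit 0) (.e (nat_lit 83874) (nat_lit 0) .nil) .nil)))))) (.nd (nat_lit 7) (.nd (nat_lit 8) (.nd (nat_lit 9) 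
(.lf (nat_lit 469074) (.g (nat_lit 2660) (.e (nat_lit 3302) (nat_lit 202) (.e (nat_lit 573492) (nat_lit 15) (.e (nat_lit 81956) (nat_lit 23) (.e (nat_lit 98350) (nat_lit 24) (.e (nat_lit 409641) (nat_lit 17) .nil))))) (.g (nat_lit 0) (.e (nat_lit 81974) (nat_lit 0) .nil) .nil))) 
(.lf (nat_lit 469586) (.g (nat_lit 2006) (.e (nat_lit 3306) (nat_lit 202) (.e (nat_lit 573477) (nat_lit 12) (.e (nat_lit 57575) (nat_lit 55) (.e (nat_lit 778465) (nat_lit 11) (.e (nat_lit 24603) (nat_lit 2) .nil))))) (.g (nat_lit 0) (.e (nat_lit 83171) (nat_lit 0) .nil) .nil)))) (.nd (nat_lit 9) 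
(.lf (nat_lit 469330) (.g (nat_lit 3833) (.e (nat_lit 3304) (nat_lit 202) (.e (nat_lit 573492) (nat_lit 15) (.e (nat_lit 81956) (nat_lit 23) (.e (nat_lit 98389) (nat_lit 33) (.e (nat_lit 491546) (nat_lit 9) (.e (nat_lit 336294) (nat_lit 15) .nil)))))) (.g (nat_lit 1) (.e (nat_lit 82576) (nat_lit 0) .nil) .nil))) 
(.lf (nat_lit 469842) (.g (nat_lit 4052) (.e (nat_lit 3307) (nat_lit 202) (.e (nat_lit 573485) (nat_lit 13) (.e (nat_lit 65619) (nat_lit 10) (.e (nat_lit 344117) (nat_lit 21) (.e (nat_lit 516106) (nat_lit 0) (.e (nat_lit 7095) (nat_lit 380) (.e (nat_lit 164339) (nat_lit 232) (.e (nat_lit 77) (nat_lit 0) .nil)))))))) (.g (nat_lit 1) (.e (nat_lit 83767) (nat_lit 0) .nil) .nil))))) 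
(.nd (nat_lit 8) (.nd (nat_lit 9) 
(.lf (nat_lit 469202) (.g (nat_lit 4253) (.e (nat_lit 3304) (nat_lit 202) (.e (nat_lit 573482) (nat_lit 13) (.e (nat_lit 65619) (nat_lit 10) (.e (nat_lit 344129) (nat_lit 26) (.e (nat_lit 557087) (nat_lit 11) (.e (nat_lit 24638) (nat_lit 9) (.e (nat_lit 336293) (nat_lit 15) .nil))))))) (.g (nat_lit 1) (.e (nat_lit 82209) (nat_lit 0) .nil) .nil))) 
(.lf (nat_lit 469714) (.g (nat_lit 3403) (.e (nat_lit 3307) (nat_lit 202) (.e (nat_lit 573484) (nat_lit 13) (.e (nat_lit 65610) (nat_lit 10) (.e (nat_lit 344117) (nat_lit 21) (.e (nat_lit 516185) (nat_lit 16) (.e (nat_lit 491548) (nat_lit 9) (.e (nat_lit 336306) (nat_lit 15) .nil))))))) (.g (nat_lit 1) (.e (nat_lit 83537) (nat_lit 0) .nil) .nil)))) (.nd (nat_lit 9) 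
(.lf (nat_lit 469458) (.g (nat_lit 2956) (.e (nat_lit 3305) (nat_lit 202) (.e (nat_lit 573484) (nat_lit 13) (.e (nat_lit 65617) (nat_lit 10) (.e (nat_lit 344130) (nat_lit 26) (.e (nat_lit 557087) (nat_lit 11) (.e (nat_lit 24626) (nat_lit 9) (.e (nat_lit 336266) (nat_lit 15) .nil))))))) (.g (nat_lit 1) (.e (nat_lit 82919) (nat_lit 0) .nil) .nil))) 
(.lf (nat_lit 469970) (.g (nat_lit 1099) (.e (nat_lit 3307) (nat_lit 202) (.e (nat_lit 573493) (nat_lit 15) (.e (nat_lit 81954) (nat_lit 23) .nil))) (.g (nat_lit 0) (.e (nat_lit 84218) (nat_lit 0) .nil) .nil))))))) (.nd (nat_lit 6) (.nd (nat_lit 7) (.nd (nat_lit 8) (.nd (nat_lit 9) 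
(.lf (nat_lit 469042) (.g (nat_lit 3282) (.e (nat_lit 3302) (nat_lit 202) (.e (nat_lit 573489) (nat_lit 14) (.e (nat_lit 73755) (nat_lit 8) (.e (nat_lit 557105) (nat_lit 14) (.e (nat_lit 180252) (nat_lit 10) (.e (nat_lit 573474) (nat_lit 12) (.e (nat_lit 57506) (nat_lit 39) (.e (nat_lit 647190) (nat_lit 9) (.e (nat_lit 50) (nat_lit 0) .nil))))))))) (.g (nat_lit 1) (.e (nat_lit 81818) (nat_lit 0) .nil) .nil))) 
(.lf (nat_lit 469554) (.g (nat_lit 2420) (.e (nat_lit 3305) (nat_lit 202) (.e (nat_lit 573492) (nat_lit 15) (.e (nat_lit 81956) (nat_lit 23) (.e (nat_lit 98321) (nat_lit 17) .nil)))) (.g (nat_lit 0) (.e (nat_lit 83111) (nat_lit 0) .nil) .nil)))) (.nd (nat_lit 9) 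
(.lf (nat_lit 469298) (.g (nat_lit 2436) (.e (nat_lit 3304) (nat_lit 202) (.e (nat_lit 573485) (nat_lit 13) (.e (nat_lit 65619) (nat_lit 10) (.e (nat_lit 344129) (nat_lit 26) (.e (nat_lit 557087) (nat_lit 11) (.e (nat_lit 24632) (nat_lit 9) (.e (nat_lit 336292) (nat_lit 15) .nil))))))) (.g (nat_lit 1) (.e (nat_lit 82445) (nat_lit 0) .nil) .nil))) 
(.lf (nat_lit 469810) (.g (nat_lit 3846) (.e (nat_lit 3307) (nat_lit 202) (.e (nat_lit 573485) (nat_lit 13) (.e (nat_lit 65604) (nat_lit 9) (.e (nat_lit 336028) (nat_lit 3) (.e (nat_lit 98325) (nat_lit 17) (.e (nat_lit 7008) (nat_lit 377) (.e (nat_lit 2789) (nat_lit 179) (.e (nat_lit 294966) (nat_lit 15) .nil)))))))) (.g (nat_lit 1) (.e (nat_lit 83708) (nat_lit 0) .nil) .nil))))) 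
(.nd (nat_lit 8) (.nd (nat_lit 9) 
(.lf (nat_lit 469170) (.g (nat_lit 2395) (.e (nat_lit 3304) (nat_lit 202) (.e (nat_lit 573482) (nat_lit 13) (.e (nat_lit 65604) (nat_lit 9) (.e (nat_lit 336013) (nat_lit 2) (.e (nat_lit 90170) (nat_lit 13) (.e (nat_lit 172068) (nat_lit 4) (.e (nat_lit 229681) (nat_lit 244) (.e (nat_lit 163857) (nat_lit 0) .nil)))))))) (.g (nat_lit 1) (.e (nat_lit 82170) (nat_lit 0) .nil) .nil))) 
(.lf (nat_lit 469682) (.g (nat_lit 1453) (.e (nat_lit 3307) (nat_lit 202) (.e (nat_lit 573484) (nat_lit 13) (.e (nat_lit 65569) (nat_lit 3) (.e (nat_lit 106240) (nat_lit 10) .nil)))) (.g (nat_lit 0) (.e (nat_lit 83344) (nat_lit 0) .nil) .nil)))) (.nd (nat_lit 9) 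
(.lf (nat_lit 469426) (.g (nat_lit 2719) (.e (nat_lit 3305) (nat_lit 202) (.e (nat_lit 573484) (nat_lit 13) (.e (nat_lit 65610) (nat_lit 10) (.e (nat_lit 344117) (nat_lit 21) (.e (nat_lit 516185) (nat_lit 16) (.e (nat_lit 491546) (nat_lit 9) (.e (nat_lit 336282) (nat_lit 15) .nil))))))) (.g (nat_lit 1) (.e (nat_lit 82833) (nat_lit 0) .nil) .nil))) 
(.lf (nat_lit 469938) (.g (nat_lit 3442) (.e (nat_lit 3307) (nat_lit 202) (.e (nat_lit 573489) (nat_lit 14) (.e (nat_lit 73755) (nat_lit 8) (.e (nat_lit 557105) (nat_lit 14) (.e (nat_lit 180252) (nat_lit 10) (.e (nat_lit 573474) (nat_lit 12) (.e (nat_lit 57504) (nat_lit 38) (.e (nat_lit 638984) (nat_lit 5) (.e (nat_lit 2472) (nat_lit 157) .nil))))))))) (.g (nat_lit 1) (.e (nat_lit 84134) (nat_lit 0) .nil) .nil)))))) 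
(.nd (nat_lit 7) (.nd (nat_lit 8) (.nd (nat_lit 9) 
(.lf (nat_lit 469106) (.g (nat_lit 4498) (.e (nat_lit 3302) (nat_lit 202) (.e (nat_lit 573493) (nat_lit 15) (.e (nat_lit 81954) (nat_lit 23) (.e (nat_lit 98384) (nat_lit 32) (.e (nat_lit 475210) (nat_lit 41) .nil))))) (.g (nat_lit 0) (.e (nat_lit 82058) (nat_lit 0) .nil) .nil))) 
(.lf (nat_lit 469618) (.g (nat_lit 6060) (.e (nat_lit 3307) (nat_lit 202) (.e (nat_lit 573474) (nat_lit 12) (.e (nat_lit 57572) (nat_lit 54) (.e (nat_lit 770072) (nat_lit 8) (.e (nat_lit 65568) (nat_lit 2) (.e (nat_lit 90178) (nat_lit 15) (.e (nat_lit 188440) (nat_lit 20) .nil))))))) (.g (nat_lit 1) (.e (nat_lit 83272) (nat_lit 0) .nil) .nil)))) (.nd (nat_lit 9) 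
(.lf (nat_lit 469362) (.g (nat_lit 4299) (.e (nat_lit 3304) (nat_lit 202) (.e (nat_lit 573493) (nat_lit 15) (.e (nat_lit 81956) (nat_lit 23) (.e (nat_lit 98385) (nat_lit 32) (.e (nat_lit 475209) (nat_lit 41) (.e (nat_lit 712719) (nat_lit 15) .nil)))))) (.g (nat_lit 1) (.e (nat_lit 82711) (nat_lit 0) .nil) .nil))) 
(.lf (nat_lit 469874) (.g (nat_lit 4473) (.e (nat_lit 3307) (nat_lit 202) (.e (nat_lit 573485) (nat_lit 13) (.e (nat_lit 65619) (nat_lit 10) (.e (nat_lit 344129) (nat_lit 26) (.e (nat_lit 557085) (nat_lit 11) (.e (nat_lit 24630) (nat_lit 9) (.e (nat_lit 336306) (nat_lit 15) .nil))))))) (.g (nat_lit 1) (.e (nat_lit 83808) (nat_lit 0) .nil) .nil))))) (.nd (nat_lit 8) (.nd (nat_lit 9) 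
(.lf (nat_lit 469234) (.g (nat_lit 4210) (.e (nat_lit 3304) (nat_lit 202) (.e (nat_lit 573484) (nat_lit 13) (.e (nat_lit 65617) (nat_lit 10) (.e (nat_lit 344130) (nat_lit 26) (.e (nat_lit 557087) (nat_lit 11) (.e (nat_lit 24625) (nat_lit 9) (.e (nat_lit 336261) (nat_lit 15) .nil))))))) (.g (nat_lit 1) (.e (nat_lit 82316) (nat_lit 0) .nil) .nil))) 
(.lf (nat_lit 469746) (.g (nat_lit 4010) (.e (nat_lit 3307) (nat_lit 202) (.e (nat_lit 573484) (nat_lit 13) (.e (nat_lit 65617) (nat_lit 10) (.e (nat_lit 344130) (nat_lit 26) (.e (nat_lit 557087) (nat_lit 11) (.e (nat_lit 24625) (nat_lit 9) (.e (nat_lit 336261) (nat_lit 15) .nil))))))) (.g (nat_lit 1) (.e (nat_lit 83614) (nat_lit 0) .nil) .nil)))) (.nd (nat_lit 9) 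
(.lf (nat_lit 469490) (.g (nat_lit 3410) (.e (nat_lit 3305) (nat_lit 202) (.e (nat_lit 573484) (nat_lit 13) (.e (nat_lit 65630) (nat_lit 14) (.e (nat_lit 401425) (nat_lit 2) (.e (nat_lit 196672) (nat_lit 15) (.e (nat_lit 81922) (nat_lit 0) .nil)))))) (.g (nat_lit 1) (.e (nat_lit 82997) (nat_lit 0) .nil) .nil))) 
(.lf (nat_lit 470002) (.g (nat_lit 3663) (.e (nat_lit 3307) (nat_lit 202) (.e (nat_lit 573493) (nat_lit 15) (.e (nat_lit 81956) (nat_lit 23) (.e (nat_lit 98389) (nat_lit 33) (.e (nat_lit 491546) (nat_lit 9) (.e (nat_lit 336306) (nat_lit 15) .nil)))))) (.g (nat_lit 1) (.e (nat_lit 84273) (nat_lit 0) .nil) .nil))))))))) 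
(.nd (nat_lit 4) (.nd (nat_lit 5) (.nd (nat_lit 6) (.nd (nat_lit 7) (.nd (nat_lit 8) 
(.nd (nat_lit 9) 
(.lf (nat_lit 469002) (.g (nat_lit 2716) (.e (nat_lit 3302) (nat_lit 202) (.e (nat_lit 573482) (nat_lit 13) (.e (nat_lit 65619) (nat_lit 10) (.e (nat_lit 344115) (nat_lit 20) (.e (nat_lit 507908) (nat_lit 0) (.e (nat_lit 5406) (nat_lit 302) (.e (nat_lit 65636) (nat_lit 15) .nil))))))) (.g (nat_lit 1) (.e (nat_lit 81709) (nat_lit 0) .nil) .nil))) 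
(.lf (nat_lit 469514) (.g (nat_lit 2313) (.e (nat_lit 3305) (nat_lit 202) (.e (nat_lit 573485) (nat_lit 13) (.e (nat_lit 65619) (nat_lit 10) (.e (nat_lit 344129) (nat_lit 26) (.e (nat_lit 557087) (nat_lit 11) (.e (nat_lit 24632) (nat_lit 9) (.e (nat_lit 336267) (nat_lit 15) .nil))))))) (.g (nat_lit 1) (.e (nat_lit 83034) (nat_lit 0) .nil) .nil)))) (.nd (nat_lit 9) 
(.lf (nat_lit 469258) (.g (nat_lit 3484) (.e (nat_lit 3304) (nat_lit 202) (.e (nat_lit 573484) (nat_lit 13) (.e (nat_lit 65617) (nat_lit 10) (.e (nat_lit 344133) (nat_lit 26) (.e (nat_lit 557086) (nat_lit 11) (.e (nat_lit 24627) (nat_lit 9) (.e (nat_lit 336306) (nat_lit 15) .nil))))))) (.g (nat_lit 1) (.e (nat_lit 82364) (nat_lit 0) .nil) .nil))) 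
(.lf (nat_lit 469770) (.g (nat_lit 2463) (.e (nat_lit 3307) (nat_lit 202) (.e (nat_lit 573485) (nat_lit 13) (.e (nat_lit 65604) (nat_lit 9) (.e (nat_lit 336013) (nat_lit 2) (.e (nat_lit 90165) (nat_lit 12) (.e (nat_lit 164209) (nat_lit 176) (.e (nat_lit 2789) (nat_lit 179) (.e (nat_lit 294966) (nat_lit 15) .nil)))))))) (.g (nat_lit 1) (.e (nat_lit 83668) (nat_lit 0) .nil) .nil))))) 
(.nd (nat_lit 8) (.nd (nat_lit 9) 
(.lf (nat_lit 469130) (.g (nat_lit 3378) (.e (nat_lit 3304) (nat_lit 202) (.e (nat_lit 573471) (nat_lit 11) (.e (nat_lit 16425) (nat_lit 7) (.e (nat_lit 409614) (nat_lit 10) .nil)))) (.g (nat_lit 0) (.e (nat_lit 82127) (nat_lit 0) .nil) .nil))) 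
(.lf (nat_lit 469642) (.g (nat_lit 3130) (.e (nat_lit 3307) (nat_lit 202) (.e (nat_lit 573477) (nat_lit 12) (.e (nat_lit 57574) (nat_lit 55) (.e (nat_lit 778466) (nat_lit 11) (.e (nat_lit 24603) (nat_lit 2) (.e (nat_lit 90176) (nat_lit 15) (.e (nat_lit 188424) (nat_lit 20) .nil))))))) (.g (nat_lit 1) (.e (nat_lit 83299) (nat_lit 0) .nil) .nil)))) (.nd (nat_lit 9) 
(.lf (nat_lit 469386) (.g (nat_lit 2715) (.e (nat_lit 3305) (nat_lit 202) (.e (nat_lit 573480) (nat_lit 13) (.e (nat_lit 65630) (nat_lit 14) (.e (nat_lit 401425) (nat_lit 2) (.e (nat_lit 196674) (nat_lit 15) (.e (nat_lit 81922) (nat_lit 0) .nil)))))) (.g (nat_lit 1) (.e (nat_lit 82750) (nat_lit 0) .nil) .nil))) 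
(.lf (nat_lit 469898) (.g (nat_lit 2228) (.e (nat_lit 3307) (nat_lit 202) (.e (nat_lit 573485) (nat_lit 13) (.e (nat_lit 65630) (nat_lit 14) (.e (nat_lit 401425) (nat_lit 2) (.e (nat_lit 196681) (nat_lit 17) (.e (nat_lit 131109) (nat_lit 9) (.e (nat_lit 336306) (nat_lit 15) .nil))))))) (.g (nat_lit 1) (.e (nat_lit 83832) (nat_lit 0) .nil) .nil)))))) 
(.nd (nat_lit 7) (.nd (nat_lit 8) (.nd (nat_lit 9) 
(.lf (nat_lit 469066) (.g (nat_lit 2530) (.e (nat_lit 3302) (nat_lit 202) (.e (nat_lit 573492) (nat_lit 15) (.e (nat_lit 81956) (nat_lit 23) (.e (nat_lit 106240) (nat_lit 17) .nil)))) (.g (nat_lit 0) (.e (nat_lit 81965) (nat_lit 0) .nil) .nil))) 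
(.lf (nat_lit 469578) (.g (nat_lit 2843) (.e (nat_lit 3305) (nat_lit 202) (.e (nat_lit 573493) (nat_lit 15) (.e (nat_lit 81956) (nat_lit 23) (.e (nat_lit 106240) (nat_lit 17) .nil)))) (.g (nat_lit 0) (.e (nat_lit 83157) (nat_lit 0) .nil) .nil)))) (.nd (nat_lit 9) 
(.lf (nat_lit 469322) (.g (nat_lit 432) (.e (nat_lit 3304) (nat_lit 202) (.e (nat_lit 573491) (nat_lit 15) (.e (nat_lit 89856) (nat_lit 23) .nil))) (.g (nat_lit 0) (.e (nat_lit 82550) (nat_lit 0) .nil) .nil))) 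
(.lf (nat_lit 469834) (.g (nat_lit 2508) (.e (nat_lit 3307) (nat_lit 202) (.e (nat_lit 573485) (nat_lit 13) (.e (nat_lit 65619) (nat_lit 10) (.e (nat_lit 344117) (nat_lit 21) (.e (nat_lit 516106) (nat_lit 0) (.e (nat_lit 6986) (nat_lit 377) (.e (nat_lit 2793) (nat_lit 179) (.e (nat_lit 294966) (nat_lit 15) .nil)))))))) (.g (nat_lit 1) (.e (nat_lit 83759) (nat_lit 0) .nil) .nil))))) 
(.nd (nat_lit 8) (.nd (nat_lit 9) 
(.lf (nat_lit 469194) (.g (nat_lit 2610) (.e (nat_lit 3304) (nat_lit 202) (.e (nat_lit 573482) (nat_lit 13) (.e (nat_lit 65619) (nat_lit 10) (.e (nat_lit 344117) (nat_lit 21) (.e (nat_lit 516185) (nat_lit 16) (.e (nat_lit 491552) (nat_lit 9) (.e (nat_lit 336282) (nat_lit 15) .nil))))))) (.g (nat_lit 1) (.e (nat_lit 82198) (nat_lit 0) .nil) .nil))) 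
(.lf (nat_lit 469706) (.g (nat_lit 4023) (.e (nat_lit 3307) (nat_lit 202) (.e (nat_lit 573484) (nat_lit 13) (.e (nat_lit 65610) (nat_lit 10) (.e (nat_lit 344117) (nat_lit 21) (.e (nat_lit 516184) (nat_lit 16) (.e (nat_lit 491548) (nat_lit 9) (.e (nat_lit 336306) (nat_lit 15) .nil))))))) (.g (nat_lit 1) (.e (nat_lit 83529) (nat_lit 0) .nil) .nil)))) (.nd (nat_lit 9) 
(.lf (nat_lit 469450) (.g (nat_lit 3307) (.e (nat_lit 3305) (nat_lit 202) (.e (nat_lit 573484) (nat_lit 13) (.e (nat_lit 65617) (nat_lit 10) (.e (nat_lit 344130) (nat_lit 26) (.e (nat_lit 557086) (nat_lit 11) (.e (nat_lit 24627) (nat_lit 9) (.e (nat_lit 336270) (nat_lit 15) .nil))))))) (.g (nat_lit 1) (.e (nat_lit 82911) (nat_lit 0) .nil) .nil))) 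
(.lf (nat_lit 469962) (.g (nat_lit 529) (.e (nat_lit 3307) (nat_lit 202) (.e (nat_lit 573491) (nat_lit 15) (.e (nat_lit 81954) (nat_lit 23) .nil))) (.g (nat_lit 0) (.e (nat_lit 84176) (nat_lit 0) .nil) .nil))))))) (.nd (nat_lit 6) (.nd (nat_lit 7) (.nd (nat_lit 8) (.nd (nat_lit 9) 
(.lf (nat_lit 469034) (.g (nat_lit 2241) (.e (nat_lit 3302) (nat_lit 202) (.e (nat_lit 573485) (nat_lit 13) (.e (nat_lit 65628) (nat_lit 14) (.e (nat_lit 401428) (nat_lit 3) (.e (nat_lit 204866) (nat_lit 28) (.e (nat_lit 360192) (nat_lit 0) .nil)))))) (.g (nat_lit 1) (.e (nat_lit 81768) (nat_lit 0) .nil) .nil))) 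
(.lf (nat_lit 469546) (.g (nat_lit 3324) (.e (nat_lit 3305) (nat_lit 202) (.e (nat_lit 573491) (nat_lit 15) (.e (nat_lit 81956) (nat_lit 23) (.e (nat_lit 98389) (nat_lit 33) (.e (nat_lit 491546) (nat_lit 9) (.e (nat_lit 336295) (nat_lit 15) .nil)))))) (.g (nat_lit 1) (.e (nat_lit 83102) (nat_lit 0) .nil) .nil)))) (.nd (nat_lit 9) 
(.lf (nat_lit 469290) (.g (nat_lit 2058) (.e (nat_lit 3304) (nat_lit 202) (.e (nat_lit 573485) (nat_lit 13) (.e (nat_lit 65619) (nat_lit 10) (.e (nat_lit 344117) (nat_lit 21) (.e (nat_lit 516180) (nat_lit 15) (.e (nat_lit 475210) (nat_lit 41) (.e (nat_lit 712719) (nat_lit 15) .nil))))))) (.g (nat_lit 1) (.e (nat_lit 82428) (nat_lit 0) .nil) .nil))) 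
(.lf (nat_lit 469802) (.g (nat_lit 4619) (.e (nat_lit 3307) (nat_lit 202) (.e (nat_lit 573485) (nat_lit 13) (.e (nat_lit 65604) (nat_lit 9) (.e (nat_lit 336028) (nat_lit 3) (.e (nat_lit 98325) (nat_lit 17) (.e (nat_lit 6986) (nat_lit 377) (.e (nat_lit 2777) (nat_lit 178) (.e (nat_lit 286765) (nat_lit 15) .nil)))))))) (.g (nat_lit 1) (.e (nat_lit 83700) (nat_lit 0) .nil) .nil))))) 
(.nd (nat_lit 8) (.nd (nat_lit 9) 
(.lf (nat_lit 469162) (.g (nat_lit 2210) (.e (nat_lit 3304) (nat_lit 202) (.e (nat_lit 573481) (nat_lit 13) (.e (nat_lit 65630) (nat_lit 14) (.e (nat_lit 401428) (nat_lit 3) (.e (nat_lit 204877) (nat_lit 31) .nil))))) (.g (nat_lit 0) (.e (nat_lit 82161) (nat_lit 0) .nil) .nil))) 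
(.lf (nat_lit 469674) (.g (nat_lit 2619) (.e (nat_lit 3307) (nat_lit 202) (.e (nat_lit 573478) (nat_lit 12) (.e (nat_lit 57574) (nat_lit 55) (.e (nat_lit 778466) (nat_lit 11) (.e (nat_lit 24604) (nat_lit 2) (.e (nat_lit 90176) (nat_lit 15) (.e (nat_lit 188438) (nat_lit 20) .nil))))))) (.g (nat_lit 1) (.e (nat_lit 83336) (nat_lit 0) .nil) .nil)))) (.nd (nat_lit 9) 
(.lf (nat_lit 469418) (.g (nat_lit 2946) (.e (nat_lit 3305) (nat_lit 202) (.e (nat_lit 573484) (nat_lit 13) (.e (nat_lit 65610) (nat_lit 10) (.e (nat_lit 344117) (nat_lit 21) (.e (nat_lit 516099) (nat_lit 0) (.e (nat_lit 7936) (nat_lit 406) (.e (nat_lit 65640) (nat_lit 15) .nil))))))) (.g (nat_lit 1) (.e (nat_lit 82818) (nat_lit 0) .nil) .nil))) 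
(.lf (nat_lit 469930) (.g (nat_lit 4778) (.e (nat_lit 3307) (nat_lit 202) (.e (nat_lit 573489) (nat_lit 14) (.e (nat_lit 73755) (nat_lit 8) (.e (nat_lit 557105) (nat_lit 14) (.e (nat_lit 180252) (nat_lit 10) (.e (nat_lit 573473) (nat_lit 12) (.e (nat_lit 57504) (nat_lit 38) (.e (nat_lit 638983) (nat_lit 5) (.e (nat_lit 2461) (nat_lit 157) .nil))))))))) (.g (nat_lit 1) (.e (nat_lit 84083) (nat_lit 0) .nil) .nil)))))) 
(.nd (nat_lit 7) (.nd (nat_lit 8) (.nd (nat_lit 9) 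
(.lf (nat_lit 469098) (.g (nat_lit 3932) (.e (nat_lit 3302) (nat_lit 202) (.e (nat_lit 573492) (nat_lit 15) (.e (nat_lit 81956) (nat_lit 23) (.e (nat_lit 98389) (nat_lit 33) (.e (nat_lit 491552) (nat_lit 9) (.e (nat_lit 336280) (nat_lit 15) .nil)))))) (.g (nat_lit 1) (.e (nat_lit 82013) (nat_lit 0) .nil) .nil))) 
(.lf (nat_lit 469610) (.g (nat_lit 3739) (.e (nat_lit 3307) (nat_lit 202) (.e (nat_lit 573471) (nat_lit 11) (.e (nat_lit 16425) (nat_lit 7) (.e (nat_lit 409617) (nat_lit 10) .nil)))) (.g (nat_lit 0) (.e (nat_lit 83263) (nat_lit 0) .nil) .nil)))) (.nd (nat_lit 9) 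
(.lf (nat_lit 469354) (.g (nat_lit 3279) (.e (nat_lit 3304) (nat_lit 202) (.e (nat_lit 573493) (nat_lit 15) (.e (nat_lit 81956) (nat_lit 23) (.e (nat_lit 98356) (nat_lit 26) .nil)))) (.g (nat_lit 0) (.e (nat_lit 82689) (nat_lit 0) .nil) .nil))) 
(.lf (nat_lit 469866) (.g (nat_lit 4710) (.e (nat_lit 3307) (nat_lit 202) (.e (nat_lit 573485) (nat_lit 13) (.e (nat_lit 65619) (nat_lit 10) (.e (nat_lit 344117) (nat_lit 21) (.e (nat_lit 516185) (nat_lit 16) (.e (nat_lit 491547) (nat_lit 9) (.e (nat_lit 336306) (nat_lit 15) .nil))))))) (.g (nat_lit 1) (.e (nat_lit 83794) (nat_lit 0) .nil) .nil))))) (.nd (nat_lit 8) (.nd (nat_lit 9) 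
(.lf (nat_lit 469226) (.g (nat_lit 3024) (.e (nat_lit 3304) (nat_lit 202) (.e (nat_lit 573484) (nat_lit 13) (.e (nat_lit 65617) (nat_lit 10) (.e (nat_lit 344130) (nat_lit 26) (.e (nat_lit 557085) (nat_lit 11) (.e (nat_lit 24627) (nat_lit 9) (.e (nat_lit 336306) (nat_lit 15) .nil))))))) (.g (nat_lit 1) (.e (nat_lit 82308) (nat_lit 0) .nil) .nil))) 
(.lf (nat_lit 469738) (.g (nat_lit 1181) (.e (nat_lit 3307) (nat_lit 202) (.e (nat_lit 573484) (nat_lit 13) (.e (nat_lit 65617) (nat_lit 10) (.e (nat_lit 344130) (nat_lit 26) .nil)))) (.g (nat_lit 0) (.e (nat_lit 83603) (nat_lit 0) .nil) .nil)))) (.nd (nat_lit 9) 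
(.lf (nat_lit 469482) (.g (nat_lit 3456) (.e (nat_lit 3305) (nat_lit 202) (.e (nat_lit 573484) (nat_lit 13) (.e (nat_lit 65617) (nat_lit 10) (.e (nat_lit 344133) (nat_lit 26) (.e (nat_lit 557086) (nat_lit 11) (.e (nat_lit 24627) (nat_lit 9) (.e (nat_lit 336270) (nat_lit 15) .nil))))))) (.g (nat_lit 1) (.e (nat_lit 82969) (nat_lit 0) .nil) .nil))) 
(.lf (nat_lit 469994) (.g (nat_lit 2697) (.e (nat_lit 3307) (nat_lit 202) (.e (nat_lit 573493) (nat_lit 15) (.e (nat_lit 81956) (nat_lit 23) (.e (nat_lit 98388) (nat_lit 33) (.e (nat_lit 491547) (nat_lit 9) .nil))))) (.g (nat_lit 0) (.e (nat_lit 84265) (nat_lit 0) .nil) .nil)))))))) (.nd (nat_lit 5) (.nd (nat_lit 6) (.nd (nat_lit 7) (.nd (nat_lit 8) (.nd (nat_lit 9) 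
(.lf (nat_lit 469018) (.g (nat_lit 5441) (.e (nat_lit 3302) (nat_lit 202) (.e (nat_lit 573484) (nat_lit 13) (.e (nat_lit 65610) (nat_lit 10) (.e (nat_lit 344117) (nat_lit 21) (.e (nat_lit 516179) (nat_lit 15) (.e (nat_lit 475210) (nat_lit 41) (.e (nat_lit 712722) (nat_lit 15) .nil))))))) (.g (nat_lit 1) (.e (nat_lit 81731) (nat_lit 0) .nil) .nil))) 
(.lf (nat_lit 469530) (.g (nat_lit 2724) (.e (nat_lit 3305) (nat_lit 202) (.e (nat_lit 573485) (nat_lit 13) (.e (nat_lit 65630) (nat_lit 14) (.e (nat_lit 401428) (nat_lit 3) (.e (nat_lit 204865) (nat_lit 28) (.e (nat_lit 352262) (nat_lit 0) .nil)))))) (.g (nat_lit 1) (.e (nat_lit 83054) (nat_lit 0) .nil) .nil)))) (.nd (nat_lit 9) 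
(.lf (nat_lit 469274) (.g (nat_lit 2211) (.e (nat_lit 3304) (nat_lit 202) (.e (nat_lit 573485) (nat_lit 13) (.e (nat_lit 65619) (nat_lit 10) (.e (nat_lit 344117) (nat_lit 21) (.e (nat_lit 516097) (nat_lit 0) (.e (nat_lit 7589) (nat_lit 406) (.e (nat_lit 65637) (nat_lit 15) .nil))))))) (.g (nat_lit 1) (.e (nat_lit 82411) (nat_lit 0) .nil) .nil))) 
(.lf (nat_lit 469786) (.g (nat_lit 2872) (.e (nat_lit 3307) (nat_lit 202) (.e (nat_lit 573485) (nat_lit 13) (.e (nat_lit 65604) (nat_lit 9) (.e (nat_lit 336013) (nat_lit 2) (.e (nat_lit 90165) (nat_lit 12) (.e (nat_lit 171776) (nat_lit 194) (.e (nat_lit 139008) (nat_lit 15) .nil))))))) (.g (nat_lit 1) (.e (nat_lit 83684) (nat_lit 0) .nil) .nil))))) (.nd (nat_lit 8) (.nd (nat_lit 9) 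
(.lf (nat_lit 469146) (.g (nat_lit 1815) (.e (nat_lit 3304) (nat_lit 202) (.e (nat_lit 573477) (nat_lit 12) (.e (nat_lit 57575) (nat_lit 55) (.e (nat_lit 778463) (nat_lit 11) (.e (nat_lit 24604) (nat_lit 2) (.e (nat_lit 90178) (nat_lit 15) (.e (nat_lit 188442) (nat_lit 20) .nil))))))) (.g (nat_lit 1) (.e (nat_lit 82144) (nat_lit 0) .nil) .nil))) 
(.lf (nat_lit 469658) (.g (nat_lit 4188) (.e (nat_lit 3307) (nat_lit 202) (.e (nat_lit 573477) (nat_lit 12) (.e (nat_lit 57575) (nat_lit 55) (.e (nat_lit 778465) (nat_lit 11) (.e (nat_lit 24604) (nat_lit 2) (.e (nat_lit 90176) (nat_lit 15) (.e (nat_lit 188439) (nat_lit 20) .nil))))))) (.g (nat_lit 1) (.e (nat_lit 83315) (nat_lit 0) .nil) .nil)))) (.nd (nat_lit 9) 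
(.lf (nat_lit 469402) (.g (nat_lit 2438) (.e (nat_lit 3305) (nat_lit 202) (.e (nat_lit 573482) (nat_lit 13) (.e (nat_lit 65619) (nat_lit 10) (.e (nat_lit 344129) (nat_lit 26) (.e (nat_lit 557087) (nat_lit 11) (.e (nat_lit 24638) (nat_lit 9) (.e (nat_lit 336293) (nat_lit 15) .nil))))))) (.g (nat_lit 1) (.e (nat_lit 82767) (nat_lit 0) .nil) .nil))) 
(.lf (nat_lit 469914) (.g (nat_lit 4331) (.e (nat_lit 3307) (nat_lit 202) (.e (nat_lit 573489) (nat_lit 14) (.e (nat_lit 73755) (nat_lit 8) (.e (nat_lit 557098) (nat_lit 13) (.e (nat_lit 179968) (nat_lit 18) (.e (nat_lit 98334) (nat_lit 18) (.e (nat_lit 164330) (nat_lit 230) (.e (nat_lit 163853) (nat_lit 0) .nil)))))))) (.g (nat_lit 1) (.e (nat_lit 83938) (nat_lit 0) .nil) .nil)))))) 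
(.nd (nat_lit 7) (.nd (nat_lit 8) (.nd (nat_lit 9) 
(.lf (nat_lit 469082) (.g (nat_lit 3210) (.e (nat_lit 3302) (nat_lit 202) (.e (nat_lit 573492) (nat_lit 15) (.e (nat_lit 81956) (nat_lit 23) (.e (nat_lit 98384) (nat_lit 32) (.e (nat_lit 475207) (nat_lit 41) (.e (nat_lit 712722) (nat_lit 15) .nil)))))) (.g (nat_lit 1) (.e (nat_lit 81997) (nat_lit 0) .nil) .nil))) 
(.lf (nat_lit 469594) (.g (nat_lit 701) (.e (nat_lit 3307) (nat_lit 202) (.e (nat_lit 573450) (nat_lit 9) (.e (nat_lit 433) (nat_lit 32) .nil))) (.g (nat_lit 0) (.e (nat_lit 83247) (nat_lit 0) .nil) .nil)))) (.nd (nat_lit 9) 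
(.lf (nat_lit 469338) (.g (nat_lit 4390) (.e (nat_lit 3304) (nat_lit 202) (.e (nat_lit 573493) (nat_lit 15) (.e (nat_lit 81951) (nat_lit 22) (.e (nat_lit 90170) (nat_lit 13) (.e (nat_lit 172070) (nat_lit 4) (.e (nat_lit 229679) (nat_lit 244) (.e (nat_lit 163850) (nat_lit 0) .nil))))))) (.g (nat_lit 1) (.e (nat_lit 82624) (nat_lit 0) .nil) .nil))) 
(.lf (nat_lit 469850) (.g (nat_lit 4211) (.e (nat_lit 3307) (nat_lit 202) (.e (nat_lit 573485) (nat_lit 13) (.e (nat_lit 65619) (nat_lit 10) (.e (nat_lit 344117) (nat_lit 21) (.e (nat_lit 516139) (nat_lit 7) (.e (nat_lit 409641) (nat_lit 17) (.e (nat_lit 294966) (nat_lit 15) .nil))))))) (.g (nat_lit 1) (.e (nat_lit 83777) (nat_lit 0) .nil) .nil))))) (.nd (nat_lit 8) (.nd (nat_lit 9) 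
(.lf (nat_lit 469210) (.g (nat_lit 2958) (.e (nat_lit 3304) (nat_lit 202) (.e (nat_lit 573482) (nat_lit 13) (.e (nat_lit 65628) (nat_lit 14) (.e (nat_lit 401428) (nat_lit 3) (.e (nat_lit 204866) (nat_lit 28) (.e (nat_lit 352265) (nat_lit 0) .nil)))))) (.g (nat_lit 1) (.e (nat_lit 82218) (nat_lit 0) .nil) .nil))) 
(.lf (nat_lit 469722) (.g (nat_lit 4836) (.e (nat_lit 3307) (nat_lit 202) (.e (nat_lit 573484) (nat_lit 13) (.e (nat_lit 65610) (nat_lit 10) (.e (nat_lit 344129) (nat_lit 26) (.e (nat_lit 557085) (nat_lit 11) (.e (nat_lit 24630) (nat_lit 9) (.e (nat_lit 336306) (nat_lit 15) .nil))))))) (.g (nat_lit 1) (.e (nat_lit 83585) (nat_lit 0) .nil) .nil)))) (.nd (nat_lit 9) 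
(.lf (nat_lit 469466) (.g (nat_lit 3292) (.e (nat_lit 3305) (nat_lit 202) (.e (nat_lit 573484) (nat_lit 13) (.e (nat_lit 65617) (nat_lit 10) (.e (nat_lit 344130) (nat_lit 26) (.e (nat_lit 557087) (nat_lit 11) (.e (nat_lit 24632) (nat_lit 9) (.e (nat_lit 336294) (nat_lit 15) .nil))))))) (.g (nat_lit 1) (.e (nat_lit 82927) (nat_lit 0) .nil) .nil))) 
(.lf (nat_lit 469978) (.g (nat_lit 2668) (.e (nat_lit 3307) (nat_lit 202) (.e (nat_lit 573493) (nat_lit 15) (.e (nat_lit 81956) (nat_lit 23) (.e (nat_lit 98320) (nat_lit 17) (.e (nat_lit 6961) (nat_lit 377) .nil))))) (.g (nat_lit 0) (.e (nat_lit 84233) (nat_lit 0) .nil) .nil))))))) (.nd (nat_lit 6) (.nd (nat_lit 7) (.nd (nat_lit 8) (.nd (nat_lit 9) 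
(.lf (nat_lit 469050) (.g (nat_lit 3715) (.e (nat_lit 3302) (nat_lit 202) (.e (nat_lit 573492) (nat_lit 15) (.e (nat_lit 81953) (nat_lit 22) (.e (nat_lit 90166) (nat_lit 13) .nil)))) (.g (nat_lit 0) (.e (nat_lit 81933) (nat_lit 0) .nil) .nil))) 
(.lf (nat_lit 469562) (.g (nat_lit 5103) (.e (nat_lit 3305) (nat_lit 202) (.e (nat_lit 573493) (nat_lit 15) (.e (nat_lit 81953) (nat_lit 22) (.e (nat_lit 90187) (nat_lit 18) .nil)))) (.g (nat_lit 0) (.e (nat_lit 83139) (nat_lit 0) .nil) .nil)))) (.nd (nat_lit 9) 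
(.lf (nat_lit 469306) (.g (nat_lit 1724) (.e (nat_lit 3304) (nat_lit 202) (.e (nat_lit 573489) (nat_lit 14) (.e (nat_lit 73755) (nat_lit 8) (.e (nat_lit 557096) (nat_lit 13) .nil)))) (.g (nat_lit 0) (.e (nat_lit 82464) (nat_lit 0) .nil) .nil))) 
(.lf (nat_lit 469818) (.g (nat_lit 3553) (.e (nat_lit 3307) (nat_lit 202) (.e (nat_lit 573485) (nat_lit 13) (.e (nat_lit 65604) (nat_lit 9) (.e (nat_lit 336028) (nat_lit 3) (.e (nat_lit 98387) (nat_lit 33) (.e (nat_lit 491550) (nat_lit 9) (.e (nat_lit 336306) (nat_lit 15) .nil))))))) (.g (nat_lit 1) (.e (nat_lit 83731) (nat_lit 0) .nil) .nil))))) (.nd (nat_lit 8) (.nd (nat_lit 9) 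
(.lf (nat_lit 469178) (.g (nat_lit 2697) (.e (nat_lit 3304) (nat_lit 202) (.e (nat_lit 573482) (nat_lit 13) (.e (nat_lit 65604) (nat_lit 9) (.e (nat_lit 336028) (nat_lit 3) (.e (nat_lit 98359) (nat_lit 26) (.e (nat_lit 426142) (nat_lit 4) (.e (nat_lit 229681) (nat_lit 244) (.e (nat_lit 163850) (nat_lit 0) .nil)))))))) (.g (nat_lit 1) (.e (nat_lit 82180) (nat_lit 0) .nil) .nil))) 
(.lf (nat_lit 469690) (.g (nat_lit 2678) (.e (nat_lit 3307) (nat_lit 202) (.e (nat_lit 573484) (nat_lit 13) (.e (nat_lit 65610) (nat_lit 10) (.e (nat_lit 344117) (nat_lit 21) (.e (nat_lit 516102) (nat_lit 0) (.e (nat_lit 6989) (nat_lit 377) (.e (nat_lit 2779) (nat_lit 178) (.e (nat_lit 294656) (nat_lit 15) .nil)))))))) (.g (nat_lit 1) (.e (nat_lit 83366) (nat_lit 0) .nil) .nil)))) 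
(.nd (nat_lit 9) 
(.lf (nat_lit 469434) (.g (nat_lit 2045) (.e (nat_lit 3305) (nat_lit 202) (.e (nat_lit 573484) (nat_lit 13) (.e (nat_lit 65610) (nat_lit 10) (.e (nat_lit 344129) (nat_lit 26) (.e (nat_lit 557066) (nat_lit 9) .nil))))) (.g (nat_lit 0) (.e (nat_lit 82849) (nat_lit 0) .nil) .nil))) 
(.lf (nat_lit 469946) (.g (nat_lit 3716) (.e (nat_lit 3307) (nat_lit 202) (.e (nat_lit 573489) (nat_lit 14) (.e (nat_lit 73755) (nat_lit 8) (.e (nat_lit 557105) (nat_lit 14) (.e (nat_lit 180252) (nat_lit 10) (.e (nat_lit 573475) (nat_lit 12) (.e (nat_lit 57503) (nat_lit 38) (.e (nat_lit 638985) (nat_lit 5) (.e (nat_lit 2461) (nat_lit 157) .nil))))))))) (.g (nat_lit 1) (.e (nat_lit 84151) (nat_lit 0) .nil) .nil)))))) 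
(.nd (nat_lit 7) (.nd (nat_lit 8) (.nd (nat_lit 9) 
(.lf (nat_lit 469114) (.g (nat_lit 3088) (.e (nat_lit 3302) (nat_lit 202) (.e (nat_lit 573493) (nat_lit 15) (.e (nat_lit 81956) (nat_lit 23) (.e (nat_lit 98321) (nat_lit 17) .nil)))) (.g (nat_lit 0) (.e (nat_lit 82066) (nat_lit 0) .nil) .nil))) 
(.lf (nat_lit 469626) (.g (nat_lit 4692) (.e (nat_lit 3307) (nat_lit 202) (.e (nat_lit 573475) (nat_lit 12) (.e (nat_lit 57574) (nat_lit 55) (.e (nat_lit 778465) (nat_lit 11) (.e (nat_lit 24603) (nat_lit 2) (.e (nat_lit 90178) (nat_lit 15) (.e (nat_lit 188440) (nat_lit 20) .nil))))))) (.g (nat_lit 1) (.e (nat_lit 83281) (nat_lit 0) .nil) .nil)))) (.nd (nat_lit 9) 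
(.lf (nat_lit 469370) (.g (nat_lit 4259) (.e (nat_lit 3304) (nat_lit 202) (.e (nat_lit 573493) (nat_lit 15) (.e (nat_lit 81956) (nat_lit 23) (.e (nat_lit 98389) (nat_lit 33) (.e (nat_lit 491552) (nat_lit 9) (.e (nat_lit 343808) (nat_lit 15) .nil)))))) (.g (nat_lit 1) (.e (nat_lit 82719) (nat_lit 0) .nil) .nil))) 
(.lf (nat_lit 469882) (.g (nat_lit 3829) (.e (nat_lit 3307) (nat_lit 202) (.e (nat_lit 573485) (nat_lit 13) (.e (nat_lit 65619) (nat_lit 10) (.e (nat_lit 344129) (nat_lit 26) (.e (nat_lit 557087) (nat_lit 11) (.e (nat_lit 24625) (nat_lit 9) (.e (nat_lit 336257) (nat_lit 15) .nil))))))) (.g (nat_lit 1) (.e (nat_lit 83816) (nat_lit 0) .nil) .nil))))) (.nd (nat_lit 8) (.nd (nat_lit 9) 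
(.lf (nat_lit 469242) (.g (nat_lit 2731) (.e (nat_lit 3304) (nat_lit 202) (.e (nat_lit 573484) (nat_lit 13) (.e (nat_lit 65617) (nat_lit 10) (.e (nat_lit 344130) (nat_lit 26) (.e (nat_lit 557087) (nat_lit 11) (.e (nat_lit 24631) (nat_lit 9) (.e (nat_lit 336295) (nat_lit 15) .nil))))))) (.g (nat_lit 1) (.e (nat_lit 82324) (nat_lit 0) .nil) .nil))) 
(.lf (nat_lit 469754) (.g (nat_lit 3219) (.e (nat_lit 3307) (nat_lit 202) (.e (nat_lit 573484) (nat_lit 13) (.e (nat_lit 65617) (nat_lit 10) (.e (nat_lit 344133) (nat_lit 26) (.e (nat_lit 557086) (nat_lit 11) (.e (nat_lit 24627) (nat_lit 9) (.e (nat_lit 336306) (nat_lit 15) .nil))))))) (.g (nat_lit 1) (.e (nat_lit 83628) (nat_lit 0) .nil) .nil)))) (.nd (nat_lit 9) 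
(.lf (nat_lit 469498) (.g (nat_lit 1932) (.e (nat_lit 3305) (nat_lit 202) (.e (nat_lit 573485) (nat_lit 13) (.e (nat_lit 65619) (nat_lit 10) (.e (nat_lit 344114) (nat_lit 20) (.e (nat_lit 507921) (nat_lit 6) (.e (nat_lit 286748) (nat_lit 9) (.e (nat_lit 336295) (nat_lit 15) .nil))))))) (.g (nat_lit 1) (.e (nat_lit 83018) (nat_lit 0) .nil) .nil))) 
(.lf (nat_lit 470010) (.g (nat_lit 3927) (.e (nat_lit 3307) (nat_lit 202) (.e (nat_lit 573493) (nat_lit 15) (.e (nat_lit 81956) (nat_lit 23) (.e (nat_lit 106240) (nat_lit 33) .nil)))) (.g (nat_lit 0) (.e (nat_lit 84281) (nat_lit 0) .nil) .nil)))))))))) (.nd (nat_lit 3) (.nd (nat_lit 4) (.nd (nat_lit 5) (.nd (nat_lit 6) (.nd (nat_lit 7) (.nd (nat_lit 8) (.nd (nat_lit 9) 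
(.lf (nat_lit 468998) (.g (nat_lit 2066) (.e (nat_lit 3302) (nat_lit 202) (.e (nat_lit 573482) (nat_lit 13) (.e (nat_lit 65604) (nat_lit 9) (.e (nat_lit 336013) (nat_lit 2) .nil)))) (.g (nat_lit 0) (.e (nat_lit 81705) (nat_lit 0) .nil) .nil))) 
(.lf (nat_lit 469510) (.g (nat_lit 3726) (.e (nat_lit 3305) (nat_lit 202) (.e (nat_lit 573485) (nat_lit 13) (.e (nat_lit 65619) (nat_lit 10) (.e (nat_lit 344117) (nat_lit 21) (.e (nat_lit 516185) (nat_lit 16) (.e (nat_lit 491554) (nat_lit 9) (.e (nat_lit 336295) (nat_lit 15) .nil))))))) (.g (nat_lit 1) (.e (nat_lit 83030) (nat_lit 0) .nil) .nil)))) (.nd (nat_lit 9) 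
(.lf (nat_lit 469254) (.g (nat_lit 984) (.e (nat_lit 3304) (nat_lit 202) (.e (nat_lit 573484) (nat_lit 13) (.e (nat_lit 65617) (nat_lit 10) (.e (nat_lit 344133) (nat_lit 26) .nil)))) (.g (nat_lit 0) (.e (nat_lit 82347) (nat_lit 0) .nil) .nil))) 
(.lf (nat_lit 469766) (.g (nat_lit 4363) (.e (nat_lit 3307) (nat_lit 202) (.e (nat_lit 573485) (nat_lit 13) (.e (nat_lit 65604) (nat_lit 9) (.e (nat_lit 336013) (nat_lit 2) (.e (nat_lit 90165) (nat_lit 12) (.e (nat_lit 164208) (nat_lit 176) (.e (nat_lit 2777) (nat_lit 178) (.e (nat_lit 286765) (nat_lit 15) .nil)))))))) (.g (nat_lit 1) (.e (nat_lit 83664) (nat_lit 0) .nil) .nil))))) 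
(.nd (nat_lit 8) (.nd (nat_lit 9) 
(.lf (nat_lit 469126) (.g (nat_lit 2486) (.e (nat_lit 3302) (nat_lit 202) (.e (nat_lit 573493) (nat_lit 15) (.e (nat_lit 81959) (nat_lit 24) (.e (nat_lit 130816) (nat_lit 142) .nil)))) (.g (nat_lit 0) (.e (nat_lit 82081) (nat_lit 0) .nil) .nil))) 
(.lf (nat_lit 469638) (.g (nat_lit 3888) (.e (nat_lit 3307) (nat_lit 202) (.e (nat_lit 573477) (nat_lit 12) (.e (nat_lit 57574) (nat_lit 55) (.e (nat_lit 778465) (nat_lit 11) (.e (nat_lit 24604) (nat_lit 2) (.e (nat_lit 90176) (nat_lit 15) (.e (nat_lit 188439) (nat_lit 20) .nil))))))) (.g (nat_lit 1) (.e (nat_lit 83295) (nat_lit 0) .nil) .nil)))) (.nd (nat_lit 9) 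
(.lf (nat_lit 469382) (.g (nat_lit 4650) (.e (nat_lit 3305) (nat_lit 202) (.e (nat_lit 573477) (nat_lit 12) (.e (nat_lit 57575) (nat_lit 55) (.e (nat_lit 778465) (nat_lit 11) (.e (nat_lit 24608) (nat_lit 3) (.e (nat_lit 98381) (nat_lit 31) (.e (nat_lit 466967) (nat_lit 20) .nil))))))) (.g (nat_lit 1) (.e (nat_lit 82745) (nat_lit 0) .nil) .nil))) 
(.lf (nat_lit 469894) (.g (nat_lit 2409) (.e (nat_lit 3307) (nat_lit 202) (.e (nat_lit 573485) (nat_lit 13) (.e (nat_lit 65628) (nat_lit 14) (.e (nat_lit 401428) (nat_lit 3) (.e (nat_lit 204866) (nat_lit 28) (.e (nat_lit 360192) (nat_lit 0) .nil)))))) (.g (nat_lit 1) (.e (nat_lit 83828) (nat_lit 0) .nil) .nil)))))) (.nd (nat_lit 7) (.nd (nat_lit 8) (.nd (nat_lit 9) 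
(.lf (nat_lit 469062) (.g (nat_lit 3803) (.e (nat_lit 3302) (nat_lit 202) (.e (nat_lit 573492) (nat_lit 15) (.e (nat_lit 81956) (nat_lit 23) (.e (nat_lit 98320) (nat_lit 17) (.e (nat_lit 7589) (nat_lit 406) (.e (nat_lit 73472) (nat_lit 15) .nil)))))) (.g (nat_lit 1) (.e (nat_lit 81952) (nat_lit 0) .nil) .nil))) 
(.lf (nat_lit 469574) (.g (nat_lit 4165) (.e (nat_lit 3305) (nat_lit 202) (.e (nat_lit 573493) (nat_lit 15) (.e (nat_lit 81956) (nat_lit 23) (.e (nat_lit 98320) (nat_lit 17) (.e (nat_lit 7589) (nat_lit 406) (.e (nat_lit 65637) (nat_lit 15) .nil)))))) (.g (nat_lit 1) (.e (nat_lit 83152) (nat_lit 0) .nil) .nil)))) (.nd (nat_lit 9) 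
(.lf (nat_lit 469318) (.g (nat_lit 2666) (.e (nat_lit 3304) (nat_lit 202) (.e (nat_lit 573491) (nat_lit 15) (.e (nat_lit 81951) (nat_lit 22) (.e (nat_lit 90170) (nat_lit 13) (.e (nat_lit 172070) (nat_lit 4) (.e (nat_lit 229681) (nat_lit 244) (.e (nat_lit 163850) (nat_lit 0) .nil))))))) (.g (nat_lit 1) (.e (nat_lit 82538) (nat_lit 0) .nil) .nil))) 
(.lf (nat_lit 469830) (.g (nat_lit 3153) (.e (nat_lit 3307) (nat_lit 202) (.e (nat_lit 573485) (nat_lit 13) (.e (nat_lit 65619) (nat_lit 10) (.e (nat_lit 344117) (nat_lit 21) (.e (nat_lit 516106) (nat_lit 0) (.e (nat_lit 6966) (nat_lit 377) (.e (nat_lit 2777) (nat_lit 178) (.e (nat_lit 286765) (nat_lit 15) .nil)))))))) (.g (nat_lit 1) (.e (nat_lit 83754) (nat_lit 0) .nil) .nil))))) 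
(.nd (nat_lit 8) (.nd (nat_lit 9) 
(.lf (nat_lit 469190) (.g (nat_lit 2204) (.e (nat_lit 3304) (nat_lit 202) (.e (nat_lit 573482) (nat_lit 13) (.e (nat_lit 65619) (nat_lit 10) (.e (nat_lit 344117) (nat_lit 21) (.e (nat_lit 516151) (nat_lit 9) (.e (nat_lit 426142) (nat_lit 4) (.e (nat_lit 229680) (nat_lit 244) (.e (nat_lit 163850) (nat_lit 0) .nil)))))))) (.g (nat_lit 1) (.e (nat_lit 82194) (nat_lit 0) .nil) .nil))) 
(.lf (nat_lit 469702) (.g (nat_lit 2440) (.e (nat_lit 3307) (nat_lit 202) (.e (nat_lit 573484) (nat_lit 13) (.e (nat_lit 65610) (nat_lit 10) (.e (nat_lit 344117) (nat_lit 21) (.e (nat_lit 516183) (nat_lit 16) (.e (nat_lit 491547) (nat_lit 9) (.e (nat_lit 336306) (nat_lit 15) .nil))))))) (.g (nat_lit 1) (.e (nat_lit 83525) (nat_lit 0) .nil) .nil)))) (.nd (nat_lit 9) 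
(.lf (nat_lit 469446) (.g (nat_lit 2047) (.e (nat_lit 3305) (nat_lit 202) (.e (nat_lit 573484) (nat_lit 13) (.e (nat_lit 65617) (nat_lit 10) (.e (nat_lit 344117) (nat_lit 21) (.e (nat_lit 516185) (nat_lit 16) .nil))))) (.g (nat_lit 0) (.e (nat_lit 82884) (nat_lit 0) .nil) .nil))) 
(.lf (nat_lit 469958) (.g (nat_lit 3338) (.e (nat_lit 3307) (nat_lit 202) (.e (nat_lit 573490) (nat_lit 15) (.e (nat_lit 81956) (nat_lit 23) (.e (nat_lit 98388) (nat_lit 33) (.e (nat_lit 491549) (nat_lit 9) .nil))))) (.g (nat_lit 0) (.e (nat_lit 84169) (nat_lit 0) .nil) .nil))))))) (.nd (nat_lit 6) (.nd (nat_lit 7) (.nd (nat_lit 8) (.nd (nat_lit 9) 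
(.lf (nat_lit 469030) (.g (nat_lit 1272) (.e (nat_lit 3302) (nat_lit 202) (.e (nat_lit 573485) (nat_lit 13) (.e (nat_lit 65619) (nat_lit 10) (.e (nat_lit 344126) (nat_lit 25) .nil)))) (.g (nat_lit 0) (.e (nat_lit 81764) (nat_lit 0) .nil) .nil))) 
(.lf (nat_lit 469542) (.g (nat_lit 3734) (.e (nat_lit 3305) (nat_lit 202) (.e (nat_lit 573491) (nat_lit 15) (.e (nat_lit 81956) (nat_lit 23) (.e (nat_lit 98320) (nat_lit 17) (.e (nat_lit 7587) (nat_lit 406) (.e (nat_lit 65637) (nat_lit 15) .nil)))))) (.g (nat_lit 1) (.e (nat_lit 83098) (nat_lit 0) .nil) .nil)))) (.nd (nat_lit 9) 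
(.lf (nat_lit 469286) (.g (nat_lit 1879) (.e (nat_lit 3304) (nat_lit 202) (.e (nat_lit 573485) (nat_lit 13) (.e (nat_lit 65619) (nat_lit 10) (.e (nat_lit 344117) (nat_lit 21) (.e (nat_lit 516159) (nat_lit 10) .nil))))) (.g (nat_lit 0) (.e (nat_lit 82424) (nat_lit 0) .nil) .nil))) 
(.lf (nat_lit 469798) (.g (nat_lit 2159) (.e (nat_lit 3307) (nat_lit 202) (.e (nat_lit 573485) (nat_lit 13) (.e (nat_lit 65604) (nat_lit 9) (.e (nat_lit 336013) (nat_lit 2) (.e (nat_lit 90170) (nat_lit 13) (.e (nat_lit 172070) (nat_lit 4) (.e (nat_lit 229681) (nat_lit 244) (.e (nat_lit 163853) (nat_lit 0) .nil)))))))) (.g (nat_lit 1) (.e (nat_lit 83696) (nat_lit 0) .nil) .nil))))) 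
(.nd (nat_lit 8) (.nd (nat_lit 9) 
(.lf (nat_lit 469158) (.g (nat_lit 1987) (.e (nat_lit 3304) (nat_lit 202) (.e (nat_lit 573477) (nat_lit 12) (.e (nat_lit 57750) (nat_lit 201) (.e (nat_lit 3090) (nat_lit 191) (.e (nat_lit 491264) (nat_lit 7) .nil))))) (.g (nat_lit 0) (.e (nat_lit 82157) (nat_lit 0) .nil) .nil))) 
(.lf (nat_lit 469670) (.g (nat_lit 2987) (.e (nat_lit 3307) (nat_lit 202) (.e (nat_lit 573477) (nat_lit 12) (.e (nat_lit 57750) (nat_lit 201) (.e (nat_lit 2856) (nat_lit 184) (.e (nat_lit 426537) (nat_lit 28) (.e (nat_lit 344174) (nat_lit 42) (.e (nat_lit 761906) (nat_lit 16) (.e (nat_lit 172051) (nat_lit 0) .nil)))))))) (.g (nat_lit 1) (.e (nat_lit 83328) (nat_lit 0) .nil) .nil)))) 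
(.nd (nat_lit 9) 
(.lf (nat_lit 469414) (.g (nat_lit 2129) (.e (nat_lit 3305) (nat_lit 202) (.e (nat_lit 573484) (nat_lit 13) (.e (nat_lit 65610) (nat_lit 10) (.e (nat_lit 344107) (nat_lit 19) (.e (nat_lit 499727) (nat_lit 0) .nil))))) (.g (nat_lit 0) (.e (nat_lit 82796) (nat_lit 0) .nil) .nil))) 
(.lf (nat_lit 469926) (.g (nat_lit 3243) (.e (nat_lit 3307) (nat_lit 202) (.e (nat_lit 573489) (nat_lit 14) (.e (nat_lit 73755) (nat_lit 8) (.e (nat_lit 557105) (nat_lit 14) (.e (nat_lit 180251) (nat_lit 10) (.e (nat_lit 573475) (nat_lit 12) (.e (nat_lit 57503) (nat_lit 38) (.e (nat_lit 638985) (nat_lit 5) (.e (nat_lit 2467) (nat_lit 157) .nil))))))))) (.g (nat_lit 1) (.e (nat_lit 84076) (nat_lit 0) .nil) .nil)))))) 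
(.nd (nat_lit 7) (.nd (nat_lit 8) (.nd (nat_lit 9) 
(.lf (nat_lit 469094) (.g (nat_lit 3263) (.e (nat_lit 3302) (nat_lit 202) (.e (nat_lit 573492) (nat_lit 15) (.e (nat_lit 81956) (nat_lit 23) (.e (nat_lit 98389) (nat_lit 33) (.e (nat_lit 491546) (nat_lit 9) (.e (nat_lit 336247) (nat_lit 15) .nil)))))) (.g (nat_lit 1) (.e (nat_lit 82009) (nat_lit 0) .nil) .nil))) 
(.lf (nat_lit 469606) (.g (nat_lit 2960) (.e (nat_lit 3307) (nat_lit 202) (.e (nat_lit 573470) (nat_lit 11) (.e (nat_lit 16473) (nat_lit 14) (.e (nat_lit 491535) (nat_lit 2) (.e (nat_lit 90178) (nat_lit 15) (.e (nat_lit 188440) (nat_lit 20) .nil)))))) (.g (nat_lit 1) (.e (nat_lit 83259) (nat_lit 0) .nil) .nil)))) (.nd (nat_lit 9) 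
(.lf (nat_lit 469350) (.g (nat_lit 2478) (.e (nat_lit 3304) (nat_lit 202) (.e (nat_lit 573493) (nat_lit 15) (.e (nat_lit 81954) (nat_lit 23) (.e (nat_lit 98367) (nat_lit 27) .nil)))) (.g (nat_lit 0) (.e (nat_lit 82658) (nat_lit 0) .nil) .nil))) 
(.lf (nat_lit 469862) (.g (nat_lit 2570) (.e (nat_lit 3307) (nat_lit 202) (.e (nat_lit 573485) (nat_lit 13) (.e (nat_lit 65619) (nat_lit 10) (.e (nat_lit 344117) (nat_lit 21) (.e (nat_lit 516184) (nat_lit 16) (.e (nat_lit 491549) (nat_lit 9) (.e (nat_lit 336260) (nat_lit 15) .nil))))))) (.g (nat_lit 1) (.e (nat_lit 83790) (nat_lit 0) .nil) .nil))))) (.nd (nat_lit 8) (.nd (nat_lit 9) 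
(.lf (nat_lit 469222) (.g (nat_lit 2803) (.e (nat_lit 3304) (nat_lit 202) (.e (nat_lit 573484) (nat_lit 13) (.e (nat_lit 65610) (nat_lit 10) (.e (nat_lit 344129) (nat_lit 26) (.e (nat_lit 557087) (nat_lit 11) (.e (nat_lit 24632) (nat_lit 9) (.e (nat_lit 336267) (nat_lit 15) .nil))))))) (.g (nat_lit 1) (.e (nat_lit 82274) (nat_lit 0) .nil) .nil))) 
(.lf (nat_lit 469734) (.g (nat_lit 3536) (.e (nat_lit 3307) (nat_lit 202) (.e (nat_lit 573484) (nat_lit 13) (.e (nat_lit 65610) (nat_lit 10) (.e (nat_lit 344129) (nat_lit 26) (.e (nat_lit 557087) (nat_lit 11) (.e (nat_lit 24630) (nat_lit 9) (.e (nat_lit 336306) (nat_lit 15) .nil))))))) (.g (nat_lit 1) (.e (nat_lit 83598) (nat_lit 0) .nil) .nil)))) (.nd (nat_lit 9) 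
(.lf (nat_lit 469478) (.g (nat_lit 2406) (.e (nat_lit 3305) (nat_lit 202) (.e (nat_lit 573484) (nat_lit 13) (.e (nat_lit 65617) (nat_lit 10) (.e (nat_lit 344130) (nat_lit 26) (.e (nat_lit 557087) (nat_lit 11) (.e (nat_lit 32512) (nat_lit 9) (.e (nat_lit 336277) (nat_lit 15) .nil))))))) (.g (nat_lit 1) (.e (nat_lit 82940) (nat_lit 0) .nil) .nil))) 
(.lf (nat_lit 469990) (.g (nat_lit 5911) (.e (nat_lit 3307) (nat_lit 202) (.e (nat_lit 573493) (nat_lit 15) (.e (nat_lit 81956) (nat_lit 23) (.e (nat_lit 98350) (nat_lit 24) (.e (nat_lit 409641) (nat_lit 17) (.e (nat_lit 294966) (nat_lit 15) .nil)))))) (.g (nat_lit 1) (.e (nat_lit 84245) (nat_lit 0) .nil) .nil)))))))) 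
(.nd (nat_lit 5) (.nd (nat_lit 6) (.nd (nat_lit 7) (.nd (nat_lit 8) (.nd (nat_lit 9) 
(.lf (nat_lit 469014) (.g (nat_lit 1839) (.e (nat_lit 3302) (nat_lit 202) (.e (nat_lit 573484) (nat_lit 13) (.e (nat_lit 65610) (nat_lit 10) (.e (nat_lit 344116) (nat_lit 21) .nil)))) (.g (nat_lit 0) (.e (nat_lit 81727) (nat_lit 0) .nil) .nil))) 
(.lf (nat_lit 469526) (.g (nat_lit 2707) (.e (nat_lit 3305) (nat_lit 202) (.e (nat_lit 573485) (nat_lit 13) (.e (nat_lit 65628) (nat_lit 14) (.e (nat_lit 401428) (nat_lit 3) (.e (nat_lit 204866) (nat_lit 28) (.e (nat_lit 352265) (nat_lit 0) .nil)))))) (.g (nat_lit 1) (.e (nat_lit 83048) (nat_lit 0) .nil) .nil)))) (.nd (nat_lit 9) 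
(.lf (nat_lit 469270) (.g (nat_lit 3329) (.e (nat_lit 3304) (nat_lit 202) (.e (nat_lit 573485) (nat_lit 13) (.e (nat_lit 65604) (nat_lit 9) (.e (nat_lit 336013) (nat_lit 2) (.e (nat_lit 90170) (nat_lit 13) (.e (nat_lit 172070) (nat_lit 4) (.e (nat_lit 229681) (nat_lit 244) (.e (nat_lit 163850) (nat_lit 0) .nil)))))))) (.g (nat_lit 1) (.e (nat_lit 82398) (nat_lit 0) .nil) .nil))) 
(.lf (nat_lit 469782) (.g (nat_lit 2672) (.e (nat_lit 3307) (nat_lit 202) (.e (nat_lit 573485) (nat_lit 13) (.e (nat_lit 65604) (nat_lit 9) (.e (nat_lit 336013) (nat_lit 2) (.e (nat_lit 90165) (nat_lit 12) (.e (nat_lit 164219) (nat_lit 180) (.e (nat_lit 229647) (nat_lit 232) (.e (nat_lit 20) (nat_lit 0) .nil)))))))) (.g (nat_lit 1) (.e (nat_lit 83680) (nat_lit 0) .nil) .nil))))) 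
(.nd (nat_lit 8) (.nd (nat_lit 9) 
(.lf (nat_lit 469142) (.g (nat_lit 4218) (.e (nat_lit 3304) (nat_lit 202) (.e (nat_lit 573477) (nat_lit 12) (.e (nat_lit 57574) (nat_lit 55) (.e (nat_lit 778466) (nat_lit 11) (.e (nat_lit 24604) (nat_lit 2) (.e (nat_lit 90176) (nat_lit 15) (.e (nat_lit 188439) (nat_lit 20) .nil))))))) (.g (nat_lit 1) (.e (nat_lit 82140) (nat_lit 0) .nil) .nil))) 
(.lf (nat_lit 469654) (.g (nat_lit 3144) (.e (nat_lit 3307) (nat_lit 202) (.e (nat_lit 573477) (nat_lit 12) (.e (nat_lit 57575) (nat_lit 55) (.e (nat_lit 778465) (nat_lit 11) (.e (nat_lit 24603) (nat_lit 2) (.e (nat_lit 90176) (nat_lit 15) (.e (nat_lit 188439) (nat_lit 20) .nil))))))) (.g (nat_lit 1) (.e (nat_lit 83311) (nat_lit 0) .nil) .nil)))) (.nd (nat_lit 9) 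
(.lf (nat_lit 469398) (.g (nat_lit 3476) (.e (nat_lit 3305) (nat_lit 202) (.e (nat_lit 573482) (nat_lit 13) (.e (nat_lit 65619) (nat_lit 10) (.e (nat_lit 344117) (nat_lit 21) (.e (nat_lit 516098) (nat_lit 0) (.e (nat_lit 7589) (nat_lit 406) (.e (nat_lit 65637) (nat_lit 15) .nil))))))) (.g (nat_lit 1) (.e (nat_lit 82763) (nat_lit 0) .nil) .nil))) 
(.lf (nat_lit 469910) (.g (nat_lit 3096) (.e (nat_lit 3307) (nat_lit 202) (.e (nat_lit 573489) (nat_lit 14) (.e (nat_lit 73755) (nat_lit 8) (.e (nat_lit 557096) (nat_lit 13) (.e (nat_lit 179968) (nat_lit 18) (.e (nat_lit 98333) (nat_lit 18) (.e (nat_lit 164327) (nat_lit 230) (.e (nat_lit 163851) (nat_lit 0) .nil)))))))) (.g (nat_lit 1) (.e (nat_lit 83901) (nat_lit 0) .nil) .nil)))))) 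
(.nd (nat_lit 7) (.nd (nat_lit 8) (.nd (nat_lit 9) 
(.lf (nat_lit 469078) (.g (nat_lit 3231) (.e (nat_lit 3302) (nat_lit 202) (.e (nat_lit 573492) (nat_lit 15) (.e (nat_lit 81956) (nat_lit 23) (.e (nat_lit 98356) (nat_lit 26) (.e (nat_lit 426439) (nat_lit 19) (.e (nat_lit 106502) (nat_lit 0) (.e (nat_lit 2505) (nat_lit 157) .nil))))))) (.g (nat_lit 1) (.e (nat_lit 81987) (nat_lit 0) .nil) .nil))) 
(.lf (nat_lit 469590) (.g (nat_lit 4181) (.e (nat_lit 3306) (nat_lit 202) (.e (nat_lit 573485) (nat_lit 13) (.e (nat_lit 65604) (nat_lit 9) (.e (nat_lit 336013) (nat_lit 2) (.e (nat_lit 90170) (nat_lit 13) (.e (nat_lit 172070) (nat_lit 4) (.e (nat_lit 229678) (nat_lit 244) (.e (nat_lit 163850) (nat_lit 0) .nil)))))))) (.g (nat_lit 1) (.e (nat_lit 83190) (nat_lit 0) .nil) .nil)))) (.nd (nat_lit 9) 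
(.lf (nat_lit 469334) (.g (nat_lit 3615) (.e (nat_lit 3304) (nat_lit 202) (.e (nat_lit 573492) (nat_lit 15) (.e (nat_lit 81956) (nat_lit 23) (.e (nat_lit 98389) (nat_lit 33) (.e (nat_lit 491552) (nat_lit 9) (.e (nat_lit 343808) (nat_lit 15) .nil)))))) (.g (nat_lit 1) (.e (nat_lit 82580) (nat_lit 0) .nil) .nil))) 
(.lf (nat_lit 469846) (.g (nat_lit 2434) (.e (nat_lit 3307) (nat_lit 202) (.e (nat_lit 573485) (nat_lit 13) (.e (nat_lit 65619) (nat_lit 10) (.e (nat_lit 344117) (nat_lit 21) (.e (nat_lit 516106) (nat_lit 0) (.e (nat_lit 7112) (nat_lit 381) (.e (nat_lit 229647) (nat_lit 232) (.e (nat_lit 7936) (nat_lit 0) .nil)))))))) (.g (nat_lit 1) (.e (nat_lit 83773) (nat_lit 0) .nil) .nil))))) 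
(.nd (nat_lit 8) (.nd (nat_lit 9) 
(.lf (nat_lit 469206) (.g (nat_lit 3262) (.e (nat_lit 3304) (nat_lit 202) (.e (nat_lit 573482) (nat_lit 13) (.e (nat_lit 65624) (nat_lit 12) (.e (nat_lit 385074) (nat_lit 31) (.e (nat_lit 573493) (nat_lit 15) (.e (nat_lit 81923) (nat_lit 0) .nil)))))) (.g (nat_lit 1) (.e (nat_lit 82214) (nat_lit 0) .nil) .nil))) 
(.lf (nat_lit 469718) (.g (nat_lit 4907) (.e (nat_lit 3307) (nat_lit 202) (.e (nat_lit 573484) (nat_lit 13) (.e (nat_lit 65610) (nat_lit 10) (.e (nat_lit 344117) (nat_lit 21) (.e (nat_lit 516185) (nat_lit 16) (.e (nat_lit 491556) (nat_lit 9) (.e (nat_lit 336305) (nat_lit 15) .nil))))))) (.g (nat_lit 1) (.e (nat_lit 83541) (nat_lit 0) .nil) .nil)))) (.nd (nat_lit 9) 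
(.lf (nat_lit 469462) (.g (nat_lit 2587) (.e (nat_lit 3305) (nat_lit 202) (.e (nat_lit 573484) (nat_lit 13) (.e (nat_lit 65617) (nat_lit 10) (.e (nat_lit 344130) (nat_lit 26) (.e (nat_lit 557087) (nat_lit 11) (.e (nat_lit 24631) (nat_lit 9) (.e (nat_lit 336291) (nat_lit 15) .nil))))))) (.g (nat_lit 1) (.e (nat_lit 82923) (nat_lit 0) .nil) .nil))) 
(.lf (nat_lit 469974) (.g (nat_lit 395) (.e (nat_lit 3307) (nat_lit 202) (.e (nat_lit 573493) (nat_lit 15) (.e (nat_lit 81956) (nat_lit 23) .nil))) (.g (nat_lit 0) (.e (nat_lit 84229) (nat_lit 0) .nil) .nil))))))) (.nd (nat_lit 6) (.nd (nat_lit 7) (.nd (nat_lit 8) (.nd (nat_lit 9) 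
(.lf (nat_lit 469046) (.g (nat_lit 3824) (.e (nat_lit 3302) (nat_lit 202) (.e (nat_lit 573489) (nat_lit 14) (.e (nat_lit 73755) (nat_lit 8) (.e (nat_lit 557105) (nat_lit 14) (.e (nat_lit 180252) (nat_lit 10) (.e (nat_lit 573474) (nat_lit 12) (.e (nat_lit 57508) (nat_lit 39) (.e (nat_lit 647195) (nat_lit 9) (.e (nat_lit 39) (nat_lit 0) .nil))))))))) (.g (nat_lit 1) (.e (nat_lit 81822) (nat_lit 0) .nil) .nil))) 
(.lf (nat_lit 469558) (.g (nat_lit 4812) (.e (nat_lit 3305) (nat_lit 202) (.e (nat_lit 573492) (nat_lit 15) (.e (nat_lit 81956) (nat_lit 23) (.e (nat_lit 98389) (nat_lit 33) (.e (nat_lit 491552) (nat_lit 9) (.e (nat_lit 336282) (nat_lit 15) .nil)))))) (.g (nat_lit 1) (.e (nat_lit 83115) (nat_lit 0) .nil) .nil)))) (.nd (nat_lit 9) 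
(.lf (nat_lit 469302) (.g (nat_lit 2303) (.e (nat_lit 3304) (nat_lit 202) (.e (nat_lit 573485) (nat_lit 13) (.e (nat_lit 65628) (nat_lit 14) (.e (nat_lit 401428) (nat_lit 3) (.e (nat_lit 204866) (nat_lit 28) (.e (nat_lit 352260) (nat_lit 0) .nil)))))) (.g (nat_lit 1) (.e (nat_lit 82449) (nat_lit 0) .nil) .nil))) 
(.lf (nat_lit 469814) (.g (nat_lit 1892) (.e (nat_lit 3307) (nat_lit 202) (.e (nat_lit 573485) (nat_lit 13) (.e (nat_lit 65604) (nat_lit 9) (.e (nat_lit 336028) (nat_lit 3) (.e (nat_lit 98367) (nat_lit 27) .nil))))) (.g (nat_lit 0) (.e (nat_lit 83727) (nat_lit 0) .nil) .nil))))) (.nd (nat_lit 8) (.nd (nat_lit 9) 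
(.lf (nat_lit 469174) (.g (nat_lit 2695) (.e (nat_lit 3304) (nat_lit 202) (.e (nat_lit 573482) (nat_lit 13) (.e (nat_lit 65604) (nat_lit 9) (.e (nat_lit 336013) (nat_lit 2) (.e (nat_lit 90170) (nat_lit 13) (.e (nat_lit 172070) (nat_lit 4) (.e (nat_lit 229681) (nat_lit 244) (.e (nat_lit 163857) (nat_lit 0) .nil)))))))) (.g (nat_lit 1) (.e (nat_lit 82174) (nat_lit 0) .nil) .nil))) 
(.lf (nat_lit 469686) (.g (nat_lit 3406) (.e (nat_lit 3307) (nat_lit 202) (.e (nat_lit 573484) (nat_lit 13) (.e (nat_lit 65610) (nat_lit 10) (.e (nat_lit 344117) (nat_lit 21) (.e (nat_lit 516098) (nat_lit 0) (.e (nat_lit 7589) (nat_lit 406) (.e (nat_lit 73472) (nat_lit 15) .nil))))))) (.g (nat_lit 1) (.e (nat_lit 83362) (nat_lit 0) .nil) .nil)))) (.nd (nat_lit 9) 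
(.lf (nat_lit 469430) (.g (nat_lit 5139) (.e (nat_lit 3305) (nat_lit 202) (.e (nat_lit 573484) (nat_lit 13) (.e (nat_lit 65610) (nat_lit 10) (.e (nat_lit 344117) (nat_lit 21) (.e (nat_lit 516185) (nat_lit 16) (.e (nat_lit 491556) (nat_lit 9) (.e (nat_lit 336300) (nat_lit 15) .nil))))))) (.g (nat_lit 1) (.e (nat_lit 82837) (nat_lit 0) .nil) .nil))) 
(.lf (nat_lit 469942) (.g (nat_lit 3441) (.e (nat_lit 3307) (nat_lit 202) (.e (nat_lit 573489) (nat_lit 14) (.e (nat_lit 73755) (nat_lit 8) (.e (nat_lit 557105) (nat_lit 14) (.e (nat_lit 180252) (nat_lit 10) (.e (nat_lit 573474) (nat_lit 12) (.e (nat_lit 57504) (nat_lit 38) (.e (nat_lit 638985) (nat_lit 5) (.e (nat_lit 2473) (nat_lit 157) .nil))))))))) (.g (nat_lit 1) (.e (nat_lit 84138) (nat_lit 0) .nil) .nil)))))) 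
(.nd (nat_lit 7) (.nd (nat_lit 8) (.nd (nat_lit 9) 
(.lf (nat_lit 469110) (.g (nat_lit 4585) (.e (nat_lit 3302) (nat_lit 202) (.e (nat_lit 573493) (nat_lit 15) (.e (nat_lit 81956) (nat_lit 23) (.e (nat_lit 98320) (nat_lit 17) (.e (nat_lit 7587) (nat_lit 406) .nil))))) (.g (nat_lit 0) (.e (nat_lit 82062) (nat_lit 0) .nil) .nil))) 
(.lf (nat_lit 469622) (.g (nat_lit 4095) (.e (nat_lit 3307) (nat_lit 202) (.e (nat_lit 573475) (nat_lit 12) (.e (nat_lit 57572) (nat_lit 54) (.e (nat_lit 770072) (nat_lit 8) (.e (nat_lit 65568) (nat_lit 2) (.e (nat_lit 90178) (nat_lit 15) (.e (nat_lit 188440) (nat_lit 20) .nil))))))) (.g (nat_lit 1) (.e (nat_lit 83277) (nat_lit 0) .nil) .nil)))) (.nd (nat_lit 9) 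
(.lf (nat_lit 469366) (.g (nat_lit 4984) (.e (nat_lit 3304) (nat_lit 202) (.e (nat_lit 573493) (nat_lit 15) (.e (nat_lit 81956) (nat_lit 23) (.e (nat_lit 98389) (nat_lit 33) (.e (nat_lit 491546) (nat_lit 9) (.e (nat_lit 336303) (nat_lit 15) .nil)))))) (.g (nat_lit 1) (.e (nat_lit 82715) (nat_lit 0) .nil) .nil))) 
(.lf (nat_lit 469878) (.g (nat_lit 3782) (.e (nat_lit 3307) (nat_lit 202) (.e (nat_lit 573485) (nat_lit 13) (.e (nat_lit 65619) (nat_lit 10) (.e (nat_lit 344129) (nat_lit 26) (.e (nat_lit 557087) (nat_lit 11) (.e (nat_lit 24584) (nat_lit 0) (.e (nat_lit 6475) (nat_lit 343) (.e (nat_lit 75) (nat_lit 0) .nil)))))))) (.g (nat_lit 1) (.e (nat_lit 83812) (nat_lit 0) .nil) .nil))))) 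
(.nd (nat_lit 8) (.nd (nat_lit 9) 
(.lf (nat_lit 469238) (.g (nat_lit 3916) (.e (nat_lit 3304) (nat_lit 202) (.e (nat_lit 573484) (nat_lit 13) (.e (nat_lit 65617) (nat_lit 10) (.e (nat_lit 344130) (nat_lit 26) (.e (nat_lit 557087) (nat_lit 11) (.e (nat_lit 24630) (nat_lit 9) (.e (nat_lit 336260) (nat_lit 15) .nil))))))) (.g (nat_lit 1) (.e (nat_lit 82320) (nat_lit 0) .nil) .nil))) 
(.lf (nat_lit 469750) (.g (nat_lit 5422) (.e (nat_lit 3307) (nat_lit 202) (.e (nat_lit 573484) (nat_lit 13) (.e (nat_lit 65617) (nat_lit 10) (.e (nat_lit 344132) (nat_lit 26) (.e (nat_lit 557085) (nat_lit 11) (.e (nat_lit 24630) (nat_lit 9) (.e (nat_lit 336260) (nat_lit 15) .nil))))))) (.g (nat_lit 1) (.e (nat_lit 83622) (nat_lit 0) .nil) .nil)))) (.nd (nat_lit 9) 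
(.lf (nat_lit 469494) (.g (nat_lit 2552) (.e (nat_lit 3305) (nat_lit 202) (.e (nat_lit 573485) (nat_lit 13) (.e (nat_lit 65604) (nat_lit 9) (.e (nat_lit 336013) (nat_lit 2) (.e (nat_lit 90165) (nat_lit 12) (.e (nat_lit 171776) (nat_lit 191) (.e (nat_lit 65640) (nat_lit 15) .nil))))))) (.g (nat_lit 1) (.e (nat_lit 83012) (nat_lit 0) .nil) .nil))) 
(.lf (nat_lit 470006) (.g (nat_lit 4685) (.e (nat_lit 3307) (nat_lit 202) (.e (nat_lit 573493) (nat_lit 15) (.e (nat_lit 81956) (nat_lit 23) (.e (nat_lit 98389) (nat_lit 33) (.e (nat_lit 491549) (nat_lit 9) (.e (nat_lit 336260) (nat_lit 15) .nil)))))) (.g (nat_lit 1) (.e (nat_lit 84277) (nat_lit 0) .nil) .nil))))))))) 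
(.nd (nat_lit 4) (.nd (nat_lit 5) (.nd (nat_lit 6) (.nd (nat_lit 7) (.nd (nat_lit 8) 
(.nd (nat_lit 9) 
(.lf (nat_lit 469006) (.g (nat_lit 1571) (.e (nat_lit 3302) (nat_lit 202) (.e (nat_lit 573482) (nat_lit 13) (.e (nat_lit 65619) (nat_lit 10) (.e (nat_lit 344129) (nat_lit 26) .nil)))) (.g (nat_lit 0) (.e (nat_lit 81713) (nat_lit 0) .nil) .nil))) 
(.lf (nat_lit 469518) (.g (nat_lit 2768) (.e (nat_lit 3305) (nat_lit 202) (.e (nat_lit 573485) (nat_lit 13) (.e (nat_lit 65619) (nat_lit 10) (.e (nat_lit 344129) (nat_lit 26) (.e (nat_lit 557087) (nat_lit 11) (.e (nat_lit 24636) (nat_lit 9) (.e (nat_lit 336277) (nat_lit 15) .nil))))))) (.g (nat_lit 1) (.e (nat_lit 83038) (nat_lit 0) .nil) .nil)))) (.nd (nat_lit 9) 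
(.lf (nat_lit 469262) (.g (nat_lit 2277) (.e (nat_lit 3304) (nat_lit 202) (.e (nat_lit 573484) (nat_lit 13) (.e (nat_lit 65624) (nat_lit 12) (.e (nat_lit 385074) (nat_lit 31) (.e (nat_lit 573493) (nat_lit 15) (.e (nat_lit 89856) (nat_lit 0) .nil)))))) (.g (nat_lit 1) (.e (nat_lit 82371) (nat_lit 0) .nil) .nil))) 
(.lf (nat_lit 469774) (.g (nat_lit 2960) (.e (nat_lit 3307) (nat_lit 202) (.e (nat_lit 573485) (nat_lit 13) (.e (nat_lit 65604) (nat_lit 9) (.e (nat_lit 336013) (nat_lit 2) (.e (nat_lit 90165) (nat_lit 12) (.e (nat_lit 164214) (nat_lit 176) (.e (nat_lit 2788) (nat_lit 179) (.e (nat_lit 294966) (nat_lit 15) .nil)))))))) (.g (nat_lit 1) (.e (nat_lit 83672) (nat_lit 0) .nil) .nil))))) 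
(.nd (nat_lit 8) (.nd (nat_lit 9) 
(.lf (nat_lit 469134) (.g (nat_lit 2218) (.e (nat_lit 3304) (nat_lit 202) (.e (nat_lit 573471) (nat_lit 11) (.e (nat_lit 16473) (nat_lit 14) (.e (nat_lit 491538) (nat_lit 3) .nil)))) (.g (nat_lit 0) (.e (nat_lit 82131) (nat_lit 0) .nil) .nil))) 
(.lf (nat_lit 469646) (.g (nat_lit 2451) (.e (nat_lit 3307) (nat_lit 202) (.e (nat_lit 573477) (nat_lit 12) (.e (nat_lit 57574) (nat_lit 55) (.e (nat_lit 778466) (nat_lit 11) (.e (nat_lit 24604) (nat_lit 2) (.e (nat_lit 90176) (nat_lit 15) (.e (nat_lit 188443) (nat_lit 20) .nil))))))) (.g (nat_lit 1) (.e (nat_lit 83303) (nat_lit 0) .nil) .nil)))) (.nd (nat_lit 9) 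
(.lf (nat_lit 469390) (.g (nat_lit 2888) (.e (nat_lit 3305) (nat_lit 202) (.e (nat_lit 573480) (nat_lit 13) (.e (nat_lit 65630) (nat_lit 14) (.e (nat_lit 401428) (nat_lit 3) (.e (nat_lit 204877) (nat_lit 31) (.e (nat_lit 376835) (nat_lit 0) .nil)))))) (.g (nat_lit 1) (.e (nat_lit 82754) (nat_lit 0) .nil) .nil))) 
(.lf (nat_lit 469902) (.g (nat_lit 1712) (.e (nat_lit 3307) (nat_lit 202) (.e (nat_lit 573489) (nat_lit 14) (.e (nat_lit 73754) (nat_lit 8) (.e (nat_lit 557103) (nat_lit 14) .nil)))) (.g (nat_lit 0) (.e (nat_lit 83867) (nat_lit 0) .nil) .nil)))))) (.nd (nat_lit 7) (.nd (nat_lit 8) (.nd (nat_lit 9) 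
(.lf (nat_lit 469070) (.g (nat_lit 4121) (.e (nat_lit 3302) (nat_lit 202) (.e (nat_lit 573492) (nat_lit 15) (.e (nat_lit 81956) (nat_lit 23) (.e (nat_lit 98350) (nat_lit 24) (.e (nat_lit 409616) (nat_lit 10) (.e (nat_lit 5355) (nat_lit 298) (.e (nat_lit 39) (nat_lit 0) .nil))))))) (.g (nat_lit 1) (.e (nat_lit 81970) (nat_lit 0) .nil) .nil))) 
(.lf (nat_lit 469582) (.g (nat_lit 4149) (.e (nat_lit 3305) (nat_lit 202) (.e (nat_lit 573493) (nat_lit 15) (.e (nat_lit 81956) (nat_lit 23) (.e (nat_lit 98389) (nat_lit 33) (.e (nat_lit 491556) (nat_lit 9) (.e (nat_lit 336300) (nat_lit 15) .nil)))))) (.g (nat_lit 1) (.e (nat_lit 83166) (nat_lit 0) .nil) .nil)))) (.nd (nat_lit 9) 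
(.lf (nat_lit 469326) (.g (nat_lit 2309) (.e (nat_lit 3304) (nat_lit 202) (.e (nat_lit 573492) (nat_lit 15) (.e (nat_lit 81956) (nat_lit 23) (.e (nat_lit 98386) (nat_lit 32) .nil)))) (.g (nat_lit 0) (.e (nat_lit 82572) (nat_lit 0) .nil) .nil))) 
(.lf (nat_lit 469838) (.g (nat_lit 3529) (.e (nat_lit 3307) (nat_lit 202) (.e (nat_lit 573485) (nat_lit 13) (.e (nat_lit 65619) (nat_lit 10) (.e (nat_lit 344117) (nat_lit 21) (.e (nat_lit 516106) (nat_lit 0) (.e (nat_lit 7016) (nat_lit 377) (.e (nat_lit 2788) (nat_lit 179) (.e (nat_lit 294966) (nat_lit 15) .nil)))))))) (.g (nat_lit 1) (.e (nat_lit 83763) (nat_lit 0) .nil) .nil))))) 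
(.nd (nat_lit 8) (.nd (nat_lit 9) 
(.lf (nat_lit 469198) (.g (nat_lit 1877) (.e (nat_lit 3304) (nat_lit 202) (.e (nat_lit 573482) (nat_lit 13) (.e (nat_lit 65619) (nat_lit 10) (.e (nat_lit 344129) (nat_lit 26) (.e (nat_lit 557087) (nat_lit 11) (.e (nat_lit 24631) (nat_lit 9) (.e (nat_lit 336267) (nat_lit 15) .nil))))))) (.g (nat_lit 1) (.e (nat_lit 82205) (nat_lit 0) .nil) .nil))) 
(.lf (nat_lit 469710) (.g (nat_lit 2186) (.e (nat_lit 3307) (nat_lit 202) (.e (nat_lit 573484) (nat_lit 13) (.e (nat_lit 65610) (nat_lit 10) (.e (nat_lit 344117) (nat_lit 21) (.e (nat_lit 516185) (nat_lit 16) .nil))))) (.g (nat_lit 0) (.e (nat_lit 83533) (nat_lit 0) .nil) .nil)))) (.nd (nat_lit 9) 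
(.lf (nat_lit 469454) (.g (nat_lit 3049) (.e (nat_lit 3305) (nat_lit 202) (.e (nat_lit 573484) (nat_lit 13) (.e (nat_lit 65617) (nat_lit 10) (.e (nat_lit 344130) (nat_lit 26) (.e (nat_lit 557087) (nat_lit 11) (.e (nat_lit 24623) (nat_lit 9) (.e (nat_lit 336292) (nat_lit 15) .nil))))))) (.g (nat_lit 1) (.e (nat_lit 82915) (nat_lit 0) .nil) .nil))) 
(.lf (nat_lit 469966) (.g (nat_lit 1192) (.e (nat_lit 3307) (nat_lit 202) (.e (nat_lit 573492) (nat_lit 15) (.e (nat_lit 81956) (nat_lit 23) .nil))) (.g (nat_lit 0) (.e (nat_lit 84183) (nat_lit 0) .nil) .nil))))))) (.nd (nat_lit 6) (.nd (nat_lit 7) (.nd (nat_lit 8) (.nd (nat_lit 9) 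
(.lf (nat_lit 469038) (.g (nat_lit 2702) (.e (nat_lit 3302) (nat_lit 202) (.e (nat_lit 573489) (nat_lit 14) (.e (nat_lit 73755) (nat_lit 8) (.e (nat_lit 557103) (nat_lit 14) .nil)))) (.g (nat_lit 0) (.e (nat_lit 81812) (nat_lit 0) .nil) .nil))) 
(.lf (nat_lit 469550) (.g (nat_lit 2559) (.e (nat_lit 3305) (nat_lit 202) (.e (nat_lit 573492) (nat_lit 15) (.e (nat_lit 81956) (nat_lit 23) (.e (nat_lit 98319) (nat_lit 17) .nil)))) (.g (nat_lit 0) (.e (nat_lit 83107) (nat_lit 0) .nil) .nil)))) (.nd (nat_lit 9) 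
(.lf (nat_lit 469294) (.g (nat_lit 2041) (.e (nat_lit 3304) (nat_lit 202) (.e (nat_lit 573485) (nat_lit 13) (.e (nat_lit 65619) (nat_lit 10) (.e (nat_lit 344126) (nat_lit 25) (.e (nat_lit 548891) (nat_lit 11) (.e (nat_lit 81924) (nat_lit 0) .nil)))))) (.g (nat_lit 1) (.e (nat_lit 82439) (nat_lit 0) .nil) .nil))) 
(.lf (nat_lit 469806) (.g (nat_lit 3399) (.e (nat_lit 3307) (nat_lit 202) (.e (nat_lit 573485) (nat_lit 13) (.e (nat_lit 65604) (nat_lit 9) (.e (nat_lit 336028) (nat_lit 3) (.e (nat_lit 98325) (nat_lit 17) (.e (nat_lit 6986) (nat_lit 377) (.e (nat_lit 2781) (nat_lit 178) (.e (nat_lit 294656) (nat_lit 15) .nil)))))))) (.g (nat_lit 1) (.e (nat_lit 83704) (nat_lit 0) .nil) .nil))))) 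
(.nd (nat_lit 8) (.nd (nat_lit 9) 
(.lf (nat_lit 469166) (.g (nat_lit 2539) (.e (nat_lit 3304) (nat_lit 202) (.e (nat_lit 573482) (nat_lit 13) (.e (nat_lit 65604) (nat_lit 9) (.e (nat_lit 336013) (nat_lit 2) (.e (nat_lit 90165) (nat_lit 12) (.e (nat_lit 171776) (nat_lit 194) (.e (nat_lit 131135) (nat_lit 15) .nil))))))) (.g (nat_lit 1) (.e (nat_lit 82166) (nat_lit 0) .nil) .nil))) 
(.lf (nat_lit 469678) (.g (nat_lit 1056) (.e (nat_lit 3307) (nat_lit 202) (.e (nat_lit 573482) (nat_lit 13) (.e (nat_lit 65619) (nat_lit 10) .nil))) (.g (nat_lit 0) (.e (nat_lit 83340) (nat_lit 0) .nil) .nil)))) (.nd (nat_lit 9) 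
(.lf (nat_lit 469422) (.g (nat_lit 3882) (.e (nat_lit 3305) (nat_lit 202) (.e (nat_lit 573484) (nat_lit 13) (.e (nat_lit 65610) (nat_lit 10) (.e (nat_lit 344117) (nat_lit 21) (.e (nat_lit 516106) (nat_lit 0) (.e (nat_lit 7936) (nat_lit 406) (.e (nat_lit 65640) (nat_lit 15) .nil))))))) (.g (nat_lit 1) (.e (nat_lit 82822) (nat_lit 0) .nil) .nil))) 
(.lf (nat_lit 469934) (.g (nat_lit 4127) (.e (nat_lit 3307) (nat_lit 202) (.e (nat_lit 573489) (nat_lit 14) (.e (nat_lit 73755) (nat_lit 8) (.e (nat_lit 557105) (nat_lit 14) (.e (nat_lit 180252) (nat_lit 10) (.e (nat_lit 573474) (nat_lit 12) (.e (nat_lit 57503) (nat_lit 38) (.e (nat_lit 638985) (nat_lit 5) (.e (nat_lit 2416) (nat_lit 157) .nil))))))))) (.g (nat_lit 1) (.e (nat_lit 84130) (nat_lit 0) .nil) .nil)))))) 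
(.nd (nat_lit 7) (.nd (nat_lit 8) (.nd (nat_lit 9) 
(.lf (nat_lit 469102) (.g (nat_lit 4442) (.e (nat_lit 3302) (nat_lit 202) (.e (nat_lit 573492) (nat_lit 15) (.e (nat_lit 81956) (nat_lit 23) (.e (nat_lit 98389) (nat_lit 33) (.e (nat_lit 491556) (nat_lit 9) (.e (nat_lit 336271) (nat_lit 15) .nil)))))) (.g (nat_lit 1) (.e (nat_lit 82017) (nat_lit 0) .nil) .nil))) 
(.lf (nat_lit 469614) (.g (nat_lit 3190) (.e (nat_lit 3307) (nat_lit 202) (.e (nat_lit 573471) (nat_lit 11) (.e (nat_lit 16473) (nat_lit 14) (.e (nat_lit 491535) (nat_lit 2) (.e (nat_lit 90178) (nat_lit 15) (.e (nat_lit 188440) (nat_lit 20) .nil)))))) (.g (nat_lit 1) (.e (nat_lit 83268) (nat_lit 0) .nil) .nil)))) (.nd (nat_lit 9) 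
(.lf (nat_lit 469358) (.g (nat_lit 1818) (.e (nat_lit 3304) (nat_lit 202) (.e (nat_lit 573493) (nat_lit 15) (.e (nat_lit 81956) (nat_lit 23) (.e (nat_lit 98367) (nat_lit 27) .nil)))) (.g (nat_lit 0) (.e (nat_lit 82702) (nat_lit 0) .nil) .nil))) 
(.lf (nat_lit 469870) (.g (nat_lit 2911) (.e (nat_lit 3307) (nat_lit 202) (.e (nat_lit 573485) (nat_lit 13) (.e (nat_lit 65619) (nat_lit 10) (.e (nat_lit 344117) (nat_lit 21) (.e (nat_lit 516185) (nat_lit 16) (.e (nat_lit 491556) (nat_lit 9) (.e (nat_lit 343808) (nat_lit 15) .nil))))))) (.g (nat_lit 1) (.e (nat_lit 83798) (nat_lit 0) .nil) .nil))))) (.nd (nat_lit 8) (.nd (nat_lit 9) 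
(.lf (nat_lit 469230) (.g (nat_lit 3957) (.e (nat_lit 3304) (nat_lit 202) (.e (nat_lit 573484) (nat_lit 13) (.e (nat_lit 65617) (nat_lit 10) (.e (nat_lit 344130) (nat_lit 26) (.e (nat_lit 557086) (nat_lit 11) (.e (nat_lit 24630) (nat_lit 9) (.e (nat_lit 336260) (nat_lit 15) .nil))))))) (.g (nat_lit 1) (.e (nat_lit 82312) (nat_lit 0) .nil) .nil))) 
(.lf (nat_lit 469742) (.g (nat_lit 3013) (.e (nat_lit 3307) (nat_lit 202) (.e (nat_lit 573484) (nat_lit 13) (.e (nat_lit 65617) (nat_lit 10) (.e (nat_lit 344130) (nat_lit 26) (.e (nat_lit 557086) (nat_lit 11) (.e (nat_lit 24627) (nat_lit 9) (.e (nat_lit 336306) (nat_lit 15) .nil))))))) (.g (nat_lit 1) (.e (nat_lit 83610) (nat_lit 0) .nil) .nil)))) (.nd (nat_lit 9) 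
(.lf (nat_lit 469486) (.g (nat_lit 3780) (.e (nat_lit 3305) (nat_lit 202) (.e (nat_lit 573484) (nat_lit 13) (.e (nat_lit 65624) (nat_lit 12) (.e (nat_lit 385074) (nat_lit 31) (.e (nat_lit 573493) (nat_lit 15) (.e (nat_lit 81923) (nat_lit 0) .nil)))))) (.g (nat_lit 1) (.e (nat_lit 82990) (nat_lit 0) .nil) .nil))) 
(.lf (nat_lit 469998) (.g (nat_lit 2949) (.e (nat_lit 3307) (nat_lit 202) (.e (nat_lit 573493) (nat_lit 15) (.e (nat_lit 81956) (nat_lit 23) (.e (nat_lit 98389) (nat_lit 33) (.e (nat_lit 491546) (nat_lit 9) (.e (nat_lit 336257) (nat_lit 15) .nil)))))) (.g (nat_lit 1) (.e (nat_lit 84269) (nat_lit 0) .nil) .nil)))))))) 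
(.nd (nat_lit 5) (.nd (nat_lit 6) (.nd (nat_lit 7) (.nd (nat_lit 8) (.nd (nat_lit 9) 
(.lf (nat_lit 469022) (.g (nat_lit 425) (.e (nat_lit 3302) (nat_lit 202) (.e (nat_lit 573484) (nat_lit 13) (.e (nat_lit 65617) (nat_lit 10) .nil))) (.g (nat_lit 0) (.e (nat_lit 81744) (nat_lit 0) .nil) .nil))) 
(.lf (nat_lit 469534) (.g (nat_lit 1336) (.e (nat_lit 3305) (nat_lit 202) (.e (nat_lit 573487) (nat_lit 14) (.e (nat_lit 73786) (nat_lit 45) (.e (nat_lit 1140) (nat_lit 84) (.e (nat_lit 32789) (nat_lit 11) .nil))))) (.g (nat_lit 0) (.e (nat_lit 83060) (nat_lit 0) .nil) .nil)))) (.nd (nat_lit 9) 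
(.lf (nat_lit 469278) (.g (nat_lit 2367) (.e (nat_lit 3304) (nat_lit 202) (.e (nat_lit 573485) (nat_lit 13) (.e (nat_lit 65619) (nat_lit 10) (.e (nat_lit 344117) (nat_lit 21) (.e (nat_lit 516106) (nat_lit 0) (.e (nat_lit 6986) (nat_lit 377) (.e (nat_lit 2782) (nat_lit 178) (.e (nat_lit 286764) (nat_lit 15) .nil)))))))) (.g (nat_lit 1) (.e (nat_lit 82416) (nat_lit 0) .nil) .nil))) 
(.lf (nat_lit 469790) (.g (nat_lit 3397) (.e (nat_lit 3307) (nat_lit 202) (.e (nat_lit 573485) (nat_lit 13) (.e (nat_lit 65604) (nat_lit 9) (.e (nat_lit 336013) (nat_lit 2) (.e (nat_lit 90170) (nat_lit 13) (.e (nat_lit 172049) (nat_lit 0) (.e (nat_lit 3409) (nat_lit 212) (.e (nat_lit 655364) (nat_lit 0) (.e (nat_lit 2472) (nat_lit 157) .nil))))))))) (.g (nat_lit 1) (.e (nat_lit 83688) (nat_lit 0) .nil) .nil))))) 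
(.nd (nat_lit 8) (.nd (nat_lit 9) 
(.lf (nat_lit 469150) (.g (nat_lit 2302) (.e (nat_lit 3304) (nat_lit 202) (.e (nat_lit 573477) (nat_lit 12) (.e (nat_lit 57575) (nat_lit 55) (.e (nat_lit 778465) (nat_lit 11) (.e (nat_lit 24604) (nat_lit 2) (.e (nat_lit 90176) (nat_lit 15) (.e (nat_lit 188443) (nat_lit 20) .nil))))))) (.g (nat_lit 1) (.e (nat_lit 82148) (nat_lit 0) .nil) .nil))) 
(.lf (nat_lit 469662) (.g (nat_lit 3151) (.e (nat_lit 3307) (nat_lit 202) (.e (nat_lit 573477) (nat_lit 12) (.e (nat_lit 57575) (nat_lit 55) (.e (nat_lit 778466) (nat_lit 11) (.e (nat_lit 24602) (nat_lit 2) (.e (nat_lit 90178) (nat_lit 15) (.e (nat_lit 188440) (nat_lit 20) .nil))))))) (.g (nat_lit 1) (.e (nat_lit 83319) (nat_lit 0) .nil) .nil)))) (.nd (nat_lit 9) 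
(.lf (nat_lit 469406) (.g (nat_lit 3314) (.e (nat_lit 3305) (nat_lit 202) (.e (nat_lit 573482) (nat_lit 13) (.e (nat_lit 65624) (nat_lit 12) (.e (nat_lit 385074) (nat_lit 31) (.e (nat_lit 573491) (nat_lit 15) (.e (nat_lit 81924) (nat_lit 0) .nil)))))) (.g (nat_lit 1) (.e (nat_lit 82775) (nat_lit 0) .nil) .nil))) 
(.lf (nat_lit 469918) (.g (nat_lit 1811) (.e (nat_lit 3307) (nat_lit 202) (.e (nat_lit 573489) (nat_lit 14) (.e (nat_lit 73755) (nat_lit 8) (.e (nat_lit 557104) (nat_lit 14) .nil)))) (.g (nat_lit 0) (.e (nat_lit 83979) (nat_lit 0) .nil) .nil)))))) (.nd (nat_lit 7) (.nd (nat_lit 8) (.nd (nat_lit 9) 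
(.lf (nat_lit 469086) (.g (nat_lit 2526) (.e (nat_lit 3302) (nat_lit 202) (.e (nat_lit 573492) (nat_lit 15) (.e (nat_lit 81956) (nat_lit 23) (.e (nat_lit 98385) (nat_lit 32) (.e (nat_lit 475209) (nat_lit 41) .nil))))) (.g (nat_lit 0) (.e (nat_lit 82001) (nat_lit 0) .nil) .nil))) 
(.lf (nat_lit 469598) (.g (nat_lit 3970) (.e (nat_lit 3307) (nat_lit 202) (.e (nat_lit 573469) (nat_lit 11) (.e (nat_lit 16461) (nat_lit 12) (.e (nat_lit 475184) (nat_lit 29) (.e (nat_lit 557107) (nat_lit 15) (.e (nat_lit 188440) (nat_lit 20) .nil)))))) (.g (nat_lit 1) (.e (nat_lit 83251) (nat_lit 0) .nil) .nil)))) (.nd (nat_lit 9) 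
(.lf (nat_lit 469342) (.g (nat_lit 2087) (.e (nat_lit 3304) (nat_lit 202) (.e (nat_lit 573493) (nat_lit 15) (.e (nat_lit 81953) (nat_lit 22) (.e (nat_lit 90170) (nat_lit 13) .nil)))) (.g (nat_lit 0) (.e (nat_lit 82636) (nat_lit 0) .nil) .nil))) 
(.lf (nat_lit 469854) (.g (nat_lit 4079) (.e (nat_lit 3307) (nat_lit 202) (.e (nat_lit 573485) (nat_lit 13) (.e (nat_lit 65619) (nat_lit 10) (.e (nat_lit 344117) (nat_lit 21) (.e (nat_lit 516159) (nat_lit 10) (.e (nat_lit 434272) (nat_lit 38) (.e (nat_lit 655364) (nat_lit 0) (.e (nat_lit 2472) (nat_lit 157) .nil)))))))) (.g (nat_lit 1) (.e (nat_lit 83782) (nat_lit 0) .nil) .nil))))) 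
(.nd (nat_lit 8) (.nd (nat_lit 9) 
(.lf (nat_lit 469214) (.g (nat_lit 1263) (.e (nat_lit 3304) (nat_lit 202) (.e (nat_lit 573482) (nat_lit 13) (.e (nat_lit 65630) (nat_lit 14) (.e (nat_lit 401428) (nat_lit 3) .nil)))) (.g (nat_lit 0) (.e (nat_lit 82224) (nat_lit 0) .nil) .nil))) 
(.lf (nat_lit 469726) (.g (nat_lit 2054) (.e (nat_lit 3307) (nat_lit 202) (.e (nat_lit 573484) (nat_lit 13) (.e (nat_lit 65610) (nat_lit 10) (.e (nat_lit 344129) (nat_lit 26) (.e (nat_lit 557087) (nat_lit 11) .nil))))) (.g (nat_lit 0) (.e (nat_lit 83589) (nat_lit 0) .nil) .nil)))) (.nd (nat_lit 9) 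
(.lf (nat_lit 469470) (.g (nat_lit 2880) (.e (nat_lit 3305) (nat_lit 202) (.e (nat_lit 573484) (nat_lit 13) (.e (nat_lit 65617) (nat_lit 10) (.e (nat_lit 344130) (nat_lit 26) (.e (nat_lit 557087) (nat_lit 11) (.e (nat_lit 24636) (nat_lit 9) (.e (nat_lit 336276) (nat_lit 15) .nil))))))) (.g (nat_lit 1) (.e (nat_lit 82931) (nat_lit 0) .nil) .nil))) 
(.lf (nat_lit 469982) (.g (nat_lit 2829) (.e (nat_lit 3307) (nat_lit 202) (.e (nat_lit 573493) (nat_lit 15) (.e (nat_lit 81956) (nat_lit 23) (.e (nat_lit 98323) (nat_lit 17) .nil)))) (.g (nat_lit 0) (.e (nat_lit 84237) (nat_lit 0) .nil) .nil))))))) (.nd (nat_lit 6) (.nd (nat_lit 7) (.nd (nat_lit 8) (.nd (nat_lit 9) 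
(.lf (nat_lit 469054) (.g (nat_lit 301) (.e (nat_lit 3302) (nat_lit 202) (.e (nat_lit 573492) (nat_lit 15) (.e (nat_lit 81956) (nat_lit 23) .nil))) (.g (nat_lit 0) (.e (nat_lit 81944) (nat_lit 0) .nil) .nil))) 
(.lf (nat_lit 469566) (.g (nat_lit 5494) (.e (nat_lit 3305) (nat_lit 202) (.e (nat_lit 573493) (nat_lit 15) (.e (nat_lit 81953) (nat_lit 22) (.e (nat_lit 90196) (nat_lit 18) .nil)))) (.g (nat_lit 0) (.e (nat_lit 83143) (nat_lit 0) .nil) .nil)))) (.nd (nat_lit 9) 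
(.lf (nat_lit 469310) (.g (nat_lit 2504) (.e (nat_lit 3304) (nat_lit 202) (.e (nat_lit 573489) (nat_lit 14) (.e (nat_lit 73755) (nat_lit 8) (.e (nat_lit 557097) (nat_lit 13) (.e (nat_lit 179968) (nat_lit 18) (.e (nat_lit 98335) (nat_lit 18) (.e (nat_lit 164329) (nat_lit 230) (.e (nat_lit 163850) (nat_lit 0) .nil)))))))) (.g (nat_lit 1) (.e (nat_lit 82471) (nat_lit 0) .nil) .nil))) 
(.lf (nat_lit 469822) (.g (nat_lit 2981) (.e (nat_lit 3307) (nat_lit 202) (.e (nat_lit 573485) (nat_lit 13) (.e (nat_lit 65619) (nat_lit 10) (.e (nat_lit 344117) (nat_lit 21) (.e (nat_lit 516098) (nat_lit 0) (.e (nat_lit 7587) (nat_lit 406) (.e (nat_lit 73472) (nat_lit 15) .nil))))))) (.g (nat_lit 1) (.e (nat_lit 83746) (nat_lit 0) .nil) .nil))))) (.nd (nat_lit 8) (.nd (nat_lit 9) 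
(.lf (nat_lit 469182) (.g (nat_lit 1984) (.e (nat_lit 3304) (nat_lit 202) (.e (nat_lit 573482) (nat_lit 13) (.e (nat_lit 65619) (nat_lit 10) (.e (nat_lit 344117) (nat_lit 21) (.e (nat_lit 516106) (nat_lit 0) .nil))))) (.g (nat_lit 0) (.e (nat_lit 82186) (nat_lit 0) .nil) .nil))) 
(.lf (nat_lit 469694) (.g (nat_lit 3702) (.e (nat_lit 3307) (nat_lit 202) (.e (nat_lit 573484) (nat_lit 13) (.e (nat_lit 65610) (nat_lit 10) (.e (nat_lit 344117) (nat_lit 21) (.e (nat_lit 516106) (nat_lit 0) (.e (nat_lit 6986) (nat_lit 377) (.e (nat_lit 2781) (nat_lit 178) (.e (nat_lit 294656) (nat_lit 15) .nil)))))))) (.g (nat_lit 1) (.e (nat_lit 83373) (nat_lit 0) .nil) .nil)))) 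
(.nd (nat_lit 9) 
(.lf (nat_lit 469438) (.g (nat_lit 2413) (.e (nat_lit 3305) (nat_lit 202) (.e (nat_lit 573484) (nat_lit 13) (.e (nat_lit 65610) (nat_lit 10) (.e (nat_lit 344129) (nat_lit 26) (.e (nat_lit 557087) (nat_lit 11) (.e (nat_lit 24636) (nat_lit 9) (.e (nat_lit 336300) (nat_lit 15) .nil))))))) (.g (nat_lit 1) (.e (nat_lit 82861) (nat_lit 0) .nil) .nil))) 
(.lf (nat_lit 469950) (.g (nat_lit 4720) (.e (nat_lit 3307) (nat_lit 202) (.e (nat_lit 573489) (nat_lit 14) (.e (nat_lit 73755) (nat_lit 8) (.e (nat_lit 557105) (nat_lit 14) (.e (nat_lit 180252) (nat_lit 10) (.e (nat_lit 573475) (nat_lit 12) (.e (nat_lit 57504) (nat_lit 38) (.e (nat_lit 638983) (nat_lit 5) (.e (nat_lit 2461) (nat_lit 157) .nil))))))))) (.g (nat_lit 1) (.e (nat_lit 84155) (nat_lit 0) .nil) .nil)))))) 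
(.nd (nat_lit 7) (.nd (nat_lit 8) (.nd (nat_lit 9) 
(.lf (nat_lit 469118) (.g (nat_lit 5061) (.e (nat_lit 3302) (nat_lit 202) (.e (nat_lit 573493) (nat_lit 15) (.e (nat_lit 81956) (nat_lit 23) (.e (nat_lit 98384) (nat_lit 32) (.e (nat_lit 475210) (nat_lit 41) (.e (nat_lit 712722) (nat_lit 15) .nil)))))) (.g (nat_lit 1) (.e (nat_lit 82072) (nat_lit 0) .nil) .nil))) 
(.lf (nat_lit 469630) (.g (nat_lit 6054) (.e (nat_lit 3307) (nat_lit 202) (.e (nat_lit 573475) (nat_lit 12) (.e (nat_lit 57574) (nat_lit 55) (.e (nat_lit 778466) (nat_lit 11) (.e (nat_lit 24604) (nat_lit 2) (.e (nat_lit 90178) (nat_lit 15) (.e (nat_lit 188440) (nat_lit 20) .nil))))))) (.g (nat_lit 1) (.e (nat_lit 83285) (nat_lit 0) .nil) .nil)))) (.nd (nat_lit 9) 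
(.lf (nat_lit 469374) (.g (nat_lit 2351) (.e (nat_lit 3305) (nat_lit 202) (.e (nat_lit 573454) (nat_lit 9) (.e (nat_lit 1315) (nat_lit 98) (.e (nat_lit 147495) (nat_lit 11) (.e (nat_lit 24607) (nat_lit 3) .nil))))) (.g (nat_lit 0) (.e (nat_lit 82737) (nat_lit 0) .nil) .nil))) 
(.lf (nat_lit 469886) (.g (nat_lit 4265) (.e (nat_lit 3307) (nat_lit 202) (.e (nat_lit 573485) (nat_lit 13) (.e (nat_lit 65619) (nat_lit 10) (.e (nat_lit 344129) (nat_lit 26) (.e (nat_lit 557087) (nat_lit 11) (.e (nat_lit 24630) (nat_lit 9) (.e (nat_lit 336306) (nat_lit 15) .nil))))))) (.g (nat_lit 1) (.e (nat_lit 83820) (nat_lit 0) .nil) .nil))))) (.nd (nat_lit 8) (.nd (nat_lit 9) 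
(.lf (nat_lit 469246) (.g (nat_lit 2371) (.e (nat_lit 3304) (nat_lit 202) (.e (nat_lit 573484) (nat_lit 13) (.e (nat_lit 65617) (nat_lit 10) (.e (nat_lit 344130) (nat_lit 26) (.e (nat_lit 557087) (nat_lit 11) (.e (nat_lit 24632) (nat_lit 9) (.e (nat_lit 336292) (nat_lit 15) .nil))))))) (.g (nat_lit 1) (.e (nat_lit 82328) (nat_lit 0) .nil) .nil))) 
(.lf (nat_lit 469758) (.g (nat_lit 3690) (.e (nat_lit 3307) (nat_lit 202) (.e (nat_lit 573484) (nat_lit 13) (.e (nat_lit 65617) (nat_lit 10) (.e (nat_lit 344133) (nat_lit 26) (.e (nat_lit 557087) (nat_lit 11) (.e (nat_lit 24625) (nat_lit 9) (.e (nat_lit 336261) (nat_lit 15) .nil))))))) (.g (nat_lit 1) (.e (nat_lit 83632) (nat_lit 0) .nil) .nil)))) (.nd (nat_lit 9) 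
(.lf (nat_lit 469502) (.g (nat_lit 3002) (.e (nat_lit 3305) (nat_lit 202) (.e (nat_lit 573485) (nat_lit 13) (.e (nat_lit 65619) (nat_lit 10) (.e (nat_lit 344117) (nat_lit 21) (.e (nat_lit 516097) (nat_lit 0) (.e (nat_lit 7585) (nat_lit 406) (.e (nat_lit 65642) (nat_lit 15) .nil))))))) (.g (nat_lit 1) (.e (nat_lit 83022) (nat_lit 0) .nil) .nil))) 
(.lf (nat_lit 470014) (.g (nat_lit 2837) (.e (nat_lit 3308) (nat_lit 202) (.e (nat_lit 573471) (nat_lit 11) (.e (nat_lit 16455) (nat_lit 12) (.e (nat_lit 475185) (nat_lit 29) (.e (nat_lit 557107) (nat_lit 15) (.e (nat_lit 188440) (nat_lit 20) .nil)))))) (.g (nat_lit 1) (.e (nat_lit 84289) (nat_lit 0) .nil) .nil)))))))))))) 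
(.nd (nat_lit 1) (.nd (nat_lit 2) (.nd (nat_lit 3) (.nd (nat_lit 4) (.nd (nat_lit 5) 
(.nd (nat_lit 6) (.nd (nat_lit 7) (.nd (nat_lit 8) (.nd (nat_lit 9) 
(.lf (nat_lit 468993) (.g (nat_lit 3034) (.e (nat_lit 3302) (nat_lit 202) (.e (nat_lit 573481) (nat_lit 13) (.e (nat_lit 65630) (nat_lit 14) (.e (nat_lit 401428) (nat_lit 3) (.e (nat_lit 204866) (nat_lit 28) (.e (nat_lit 360192) (nat_lit 0) .nil)))))) (.g (nat_lit 1) (.e (nat_lit 81700) (nat_lit 0) .nil) .nil))) 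
(.lf (nat_lit 469505) (.g (nat_lit 3412) (.e (nat_lit 3305) (nat_lit 202) (.e (nat_lit 573485) (nat_lit 13) (.e (nat_lit 65619) (nat_lit 10) (.e (nat_lit 344117) (nat_lit 21) (.e (nat_lit 516106) (nat_lit 0) (.e (nat_lit 6986) (nat_lit 377) (.e (nat_lit 2781) (nat_lit 178) (.e (nat_lit 286764) (nat_lit 15) .nil)))))))) (.g (nat_lit 1) (.e (nat_lit 83025) (nat_lit 0) .nil) .nil)))) 
(.nd (nat_lit 9) 
(.lf (nat_lit 469249) (.g (nat_lit 4366) (.e (nat_lit 3304) (nat_lit 202) (.e (nat_lit 573484) (nat_lit 13) (.e (nat_lit 65617) (nat_lit 10) (.e (nat_lit 344130) (nat_lit 26) (.e (nat_lit 557087) (nat_lit 11) (.e (nat_lit 24638) (nat_lit 9) (.e (nat_lit 336293) (nat_lit 15) .nil))))))) (.g (nat_lit 1) (.e (nat_lit 82331) (nat_lit 0) .nil) .nil))) 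
(.lf (nat_lit 469761) (.g (nat_lit 717) (.e (nat_lit 3307) (nat_lit 202) (.e (nat_lit 573484) (nat_lit 13) (.e (nat_lit 65642) (nat_lit 15) .nil))) (.g (nat_lit 0) (.e (nat_lit 83649) (nat_lit 0) .nil) .nil))))) (.nd (nat_lit 8) (.nd (nat_lit 9) 
(.lf (nat_lit 469121) (.g (nat_lit 3948) (.e (nat_lit 3302) (nat_lit 202) (.e (nat_lit 573493) (nat_lit 15) (.e (nat_lit 81956) (nat_lit 23) (.e (nat_lit 98385) (nat_lit 32) (.e (nat_lit 475210) (nat_lit 41) .nil))))) (.g (nat_lit 0) (.e (nat_lit 82075) (nat_lit 0) .nil) .nil))) 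
(.lf (nat_lit 469633) (.g (nat_lit 1945) (.e (nat_lit 3307) (nat_lit 202) (.e (nat_lit 573477) (nat_lit 12) (.e (nat_lit 57574) (nat_lit 55) (.e (nat_lit 778465) (nat_lit 11) (.e (nat_lit 24603) (nat_lit 2) (.e (nat_lit 90176) (nat_lit 15) (.e (nat_lit 188436) (nat_lit 20) .nil))))))) (.g (nat_lit 1) (.e (nat_lit 83290) (nat_lit 0) .nil) .nil)))) (.nd (nat_lit 9) 
(.lf (nat_lit 469377) (.g (nat_lit 719) (.e (nat_lit 3305) (nat_lit 202) (.e (nat_lit 573475) (nat_lit 12) (.e (nat_lit 65280) (nat_lit 206) .nil))) (.g (nat_lit 0) (.e (nat_lit 82740) (nat_lit 0) .nil) .nil))) 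
(.lf (nat_lit 469889) (.g (nat_lit 2734) (.e (nat_lit 3307) (nat_lit 202) (.e (nat_lit 573485) (nat_lit 13) (.e (nat_lit 65619) (nat_lit 10) (.e (nat_lit 344129) (nat_lit 26) (.e (nat_lit 557087) (nat_lit 11) (.e (nat_lit 24636) (nat_lit 9) (.e (nat_lit 336305) (nat_lit 15) .nil))))))) (.g (nat_lit 1) (.e (nat_lit 83823) (nat_lit 0) .nil) .nil)))))) 
(.nd (nat_lit 7) (.nd (nat_lit 8) (.nd (nat_lit 9) 
(.lf (nat_lit 469057) (.g (nat_lit 3326) (.e (nat_lit 3302) (nat_lit 202) (.e (nat_lit 573492) (nat_lit 15) (.e (nat_lit 81956) (nat_lit 23) (.e (nat_lit 98319) (nat_lit 17) (.e (nat_lit 7589) (nat_lit 406) (.e (nat_lit 65636) (nat_lit 15) .nil)))))) (.g (nat_lit 1) (.e (nat_lit 81947) (nat_lit 0) .nil) .nil))) 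
(.lf (nat_lit 469569) (.g (nat_lit 2209) (.e (nat_lit 3305) (nat_lit 202) (.e (nat_lit 573493) (nat_lit 15) (.e (nat_lit 81954) (nat_lit 23) (.e (nat_lit 98325) (nat_lit 17) .nil)))) (.g (nat_lit 0) (.e (nat_lit 83147) (nat_lit 0) .nil) .nil)))) (.nd (nat_lit 9) 
(.lf (nat_lit 469313) (.g (nat_lit 3261) (.e (nat_lit 3304) (nat_lit 202) (.e (nat_lit 573489) (nat_lit 14) (.e (nat_lit 73755) (nat_lit 8) (.e (nat_lit 557098) (nat_lit 13) (.e (nat_lit 179968) (nat_lit 18) (.e (nat_lit 98334) (nat_lit 18) (.e (nat_lit 164329) (nat_lit 230) (.e (nat_lit 163850) (nat_lit 0) .nil)))))))) (.g (nat_lit 1) (.e (nat_lit 82475) (nat_lit 0) .nil) .nil))) 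
(.lf (nat_lit 469825) (.g (nat_lit 2785) (.e (nat_lit 3307) (nat_lit 202) (.e (nat_lit 573485) (nat_lit 13) (.e (nat_lit 65619) (nat_lit 10) (.e (nat_lit 344117) (nat_lit 21) (.e (nat_lit 516102) (nat_lit 0) (.e (nat_lit 7107) (nat_lit 380) (.e (nat_lit 164337) (nat_lit 232) (.e (nat_lit 77) (nat_lit 0) .nil)))))))) (.g (nat_lit 1) (.e (nat_lit 83749) (nat_lit 0) .nil) .nil))))) 
(.nd (nat_lit 8) (.nd (nat_lit 9) 
(.lf (nat_lit 469185) (.g (nat_lit 3052) (.e (nat_lit 3304) (nat_lit 202) (.e (nat_lit 573482) (nat_lit 13) (.e (nat_lit 65619) (nat_lit 10) (.e (nat_lit 344117) (nat_lit 21) (.e (nat_lit 516106) (nat_lit 0) (.e (nat_lit 7936) (nat_lit 406) (.e (nat_lit 65640) (nat_lit 15) .nil))))))) (.g (nat_lit 1) (.e (nat_lit 82189) (nat_lit 0) .nil) .nil))) 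
(.lf (nat_lit 469697) (.g (nat_lit 4446) (.e (nat_lit 3307) (nat_lit 202) (.e (nat_lit 573484) (nat_lit 13) (.e (nat_lit 65610) (nat_lit 10) (.e (nat_lit 344117) (nat_lit 21) (.e (nat_lit 516138) (nat_lit 7) (.e (nat_lit 409642) (nat_lit 17) (.e (nat_lit 294966) (nat_lit 15) .nil))))))) (.g (nat_lit 1) (.e (nat_lit 83393) (nat_lit 0) .nil) .nil)))) (.nd (nat_lit 9) 
(.lf (nat_lit 469441) (.g (nat_lit 1688) (.e (nat_lit 3305) (nat_lit 202) (.e (nat_lit 573484) (nat_lit 13) (.e (nat_lit 65617) (nat_lit 10) (.e (nat_lit 344091) (nat_lit 18) (.e (nat_lit 3950) (nat_lit 239) .nil))))) (.g (nat_lit 0) (.e (nat_lit 82866) (nat_lit 0) .nil) .nil))) 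
(.lf (nat_lit 469953) (.g (nat_lit 3886) (.e (nat_lit 3307) (nat_lit 202) (.e (nat_lit 573489) (nat_lit 14) (.e (nat_lit 73755) (nat_lit 8) (.e (nat_lit 557105) (nat_lit 14) (.e (nat_lit 180252) (nat_lit 10) (.e (nat_lit 573475) (nat_lit 12) (.e (nat_lit 57504) (nat_lit 38) (.e (nat_lit 638986) (nat_lit 5) (.e (nat_lit 2467) (nat_lit 157) .nil))))))))) (.g (nat_lit 1) (.e (nat_lit 84158) (nat_lit 0) .nil) .nil))))))) 
(.nd (nat_lit 6) (.nd (nat_lit 7) (.nd (nat_lit 8) (.nd (nat_lit 9) 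
(.lf (nat_lit 469025) (.g (nat_lit 2577) (.e (nat_lit 3302) (nat_lit 202) (.e (nat_lit 573484) (nat_lit 13) (.e (nat_lit 65624) (nat_lit 12) (.e (nat_lit 385074) (nat_lit 31) (.e (nat_lit 573491) (nat_lit 15) .nil))))) (.g (nat_lit 0) (.e (nat_lit 81750) (nat_lit 0) .nil) .nil))) 
(.lf (nat_lit 469537) (.g (nat_lit 329) (.e (nat_lit 3305) (nat_lit 202) (.e (nat_lit 573489) (nat_lit 14) (.e (nat_lit 81664) (nat_lit 32) .nil))) (.g (nat_lit 0) (.e (nat_lit 83085) (nat_lit 0) .nil) .nil)))) (.nd (nat_lit 9) 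
(.lf (nat_lit 469281) (.g (nat_lit 2572) (.e (nat_lit 3304) (nat_lit 202) (.e (nat_lit 573485) (nat_lit 13) (.e (nat_lit 65619) (nat_lit 10) (.e (nat_lit 344117) (nat_lit 21) (.e (nat_lit 516144) (nat_lit 9) (.e (nat_lit 426364) (nat_lit 15) (.e (nat_lit 2160) (nat_lit 143) (.e (nat_lit 712719) (nat_lit 15) .nil)))))))) (.g (nat_lit 1) (.e (nat_lit 82419) (nat_lit 0) .nil) .nil))) 
(.lf (nat_lit 469793) (.g (nat_lit 2391) (.e (nat_lit 3307) (nat_lit 202) (.e (nat_lit 573485) (nat_lit 13) (.e (nat_lit 65604) (nat_lit 9) (.e (nat_lit 336013) (nat_lit 2) (.e (nat_lit 90170) (nat_lit 13) (.e (nat_lit 172068) (nat_lit 4) (.e (nat_lit 229680) (nat_lit 244) (.e (nat_lit 163851) (nat_lit 0) .nil)))))))) (.g (nat_lit 1) (.e (nat_lit 83691) (nat_lit 0) .nil) .nil))))) 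
(.nd (nat_lit 8) (.nd (nat_lit 9) 
(.lf (nat_lit 469153) (.g (nat_lit 4298) (.e (nat_lit 3304) (nat_lit 202) (.e (nat_lit 573477) (nat_lit 12) (.e (nat_lit 57575) (nat_lit 55) (.e (nat_lit 778465) (nat_lit 11) (.e (nat_lit 24608) (nat_lit 3) (.e (nat_lit 98381) (nat_lit 31) (.e (nat_lit 466967) (nat_lit 20) .nil))))))) (.g (nat_lit 1) (.e (nat_lit 82151) (nat_lit 0) .nil) .nil))) 
(.lf (nat_lit 469665) (.g (nat_lit 2531) (.e (nat_lit 3307) (nat_lit 202) (.e (nat_lit 573477) (nat_lit 12) (.e (nat_lit 57575) (nat_lit 55) (.e (nat_lit 778466) (nat_lit 11) (.e (nat_lit 24603) (nat_lit 2) (.e (nat_lit 90176) (nat_lit 15) (.e (nat_lit 188439) (nat_lit 20) .nil))))))) (.g (nat_lit 1) (.e (nat_lit 83322) (nat_lit 0) .nil) .nil)))) (.nd (nat_lit 9) 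
(.lf (nat_lit 469409) (.g (nat_lit 3768) (.e (nat_lit 3305) (nat_lit 202) (.e (nat_lit 573482) (nat_lit 13) (.e (nat_lit 65628) (nat_lit 14) (.e (nat_lit 401428) (nat_lit 3) (.e (nat_lit 204866) (nat_lit 28) (.e (nat_lit 352262) (nat_lit 0) .nil)))))) (.g (nat_lit 1) (.e (nat_lit 82778) (nat_lit 0) .nil) .nil))) 
(.lf (nat_lit 469921) (.g (nat_lit 2950) (.e (nat_lit 3307) (nat_lit 202) (.e (nat_lit 573489) (nat_lit 14) (.e (nat_lit 73755) (nat_lit 8) (.e (nat_lit 557105) (nat_lit 14) (.e (nat_lit 180250) (nat_lit 10) (.e (nat_lit 573475) (nat_lit 12) (.e (nat_lit 57503) (nat_lit 38) (.e (nat_lit 638985) (nat_lit 5) (.e (nat_lit 2472) (nat_lit 157) .nil))))))))) (.g (nat_lit 1) (.e (nat_lit 84071) (nat_lit 0) .nil) .nil)))))) 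
(.nd (nat_lit 7) (.nd (nat_lit 8) (.nd (nat_lit 9) 
(.lf (nat_lit 469089) (.g (nat_lit 2530) (.e (nat_lit 3302) (nat_lit 202) (.e (nat_lit 573492) (nat_lit 15) (.e (nat_lit 81956) (nat_lit 23) (.e (nat_lit 106240) (nat_lit 32) .nil)))) (.g (nat_lit 0) (.e (nat_lit 82004) (nat_lit 0) .nil) .nil))) 
(.lf (nat_lit 469601) (.g (nat_lit 3353) (.e (nat_lit 3307) (nat_lit 202) (.e (nat_lit 573469) (nat_lit 11) (.e (nat_lit 16473) (nat_lit 14) (.e (nat_lit 491535) (nat_lit 2) (.e (nat_lit 90178) (nat_lit 15) (.e (nat_lit 188440) (nat_lit 20) .nil)))))) (.g (nat_lit 1) (.e (nat_lit 83254) (nat_lit 0) .nil) .nil)))) (.nd (nat_lit 9) 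
(.lf (nat_lit 469345) (.g (nat_lit 3286) (.e (nat_lit 3304) (nat_lit 202) (.e (nat_lit 573493) (nat_lit 15) (.e (nat_lit 81953) (nat_lit 22) (.e (nat_lit 90170) (nat_lit 13) (.e (nat_lit 172068) (nat_lit 4) (.e (nat_lit 229681) (nat_lit 244) (.e (nat_lit 163850) (nat_lit 0) .nil))))))) (.g (nat_lit 1) (.e (nat_lit 82639) (nat_lit 0) .nil) .nil))) 
(.lf (nat_lit 469857) (.g (nat_lit 3432) (.e (nat_lit 3307) (nat_lit 202) (.e (nat_lit 573485) (nat_lit 13) (.e (nat_lit 65619) (nat_lit 10) (.e (nat_lit 344117) (nat_lit 21) (.e (nat_lit 516183) (nat_lit 16) (.e (nat_lit 491548) (nat_lit 9) (.e (nat_lit 336306) (nat_lit 15) .nil))))))) (.g (nat_lit 1) (.e (nat_lit 83785) (nat_lit 0) .nil) .nil))))) (.nd (nat_lit 8) (.nd (nat_lit 9) 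
(.lf (nat_lit 469217) (.g (nat_lit 2251) (.e (nat_lit 3304) (nat_lit 202) (.e (nat_lit 573482) (nat_lit 13) (.e (nat_lit 65630) (nat_lit 14) (.e (nat_lit 401428) (nat_lit 3) (.e (nat_lit 204866) (nat_lit 28) (.e (nat_lit 352266) (nat_lit 0) .nil)))))) (.g (nat_lit 1) (.e (nat_lit 82227) (nat_lit 0) .nil) .nil))) 
(.lf (nat_lit 469729) (.g (nat_lit 4547) (.e (nat_lit 3307) (nat_lit 202) (.e (nat_lit 573484) (nat_lit 13) (.e (nat_lit 65610) (nat_lit 10) (.e (nat_lit 344129) (nat_lit 26) (.e (nat_lit 557087) (nat_lit 11) (.e (nat_lit 24625) (nat_lit 9) (.e (nat_lit 336260) (nat_lit 15) .nil))))))) (.g (nat_lit 1) (.e (nat_lit 83593) (nat_lit 0) .nil) .nil)))) (.nd (nat_lit 9) 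
(.lf (nat_lit 469473) (.g (nat_lit 2544) (.e (nat_lit 3305) (nat_lit 202) (.e (nat_lit 573484) (nat_lit 13) (.e (nat_lit 65617) (nat_lit 10) (.e (nat_lit 344130) (nat_lit 26) (.e (nat_lit 557087) (nat_lit 11) (.e (nat_lit 24637) (nat_lit 9) (.e (nat_lit 336275) (nat_lit 15) .nil))))))) (.g (nat_lit 1) (.e (nat_lit 82934) (nat_lit 0) .nil) .nil))) 
(.lf (nat_lit 469985) (.g (nat_lit 2872) (.e (nat_lit 3307) (nat_lit 202) (.e (nat_lit 573493) (nat_lit 15) (.e (nat_lit 81956) (nat_lit 23) (.e (nat_lit 98349) (nat_lit 24) .nil)))) (.g (nat_lit 0) (.e (nat_lit 84240) (nat_lit 0) .nil) .nil)))))))) (.nd (nat_lit 5) (.nd (nat_lit 6) (.nd (nat_lit 7) (.nd (nat_lit 8) (.nd (nat_lit 9) 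
(.lf (nat_lit 469009) (.g (nat_lit 2133) (.e (nat_lit 3302) (nat_lit 202) (.e (nat_lit 573482) (nat_lit 13) (.e (nat_lit 65628) (nat_lit 14) (.e (nat_lit 401428) (nat_lit 3) .nil)))) (.g (nat_lit 0) (.e (nat_lit 81716) (nat_lit 0) .nil) .nil))) 
(.lf (nat_lit 469521) (.g (nat_lit 2067) (.e (nat_lit 3305) (nat_lit 202) (.e (nat_lit 573485) (nat_lit 13) (.e (nat_lit 65619) (nat_lit 10) (.e (nat_lit 344129) (nat_lit 26) (.e (nat_lit 557087) (nat_lit 11) (.e (nat_lit 32512) (nat_lit 9) (.e (nat_lit 336278) (nat_lit 15) .nil))))))) (.g (nat_lit 1) (.e (nat_lit 83041) (nat_lit 0) .nil) .nil)))) (.nd (nat_lit 9) 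
(.lf (nat_lit 469265) (.g (nat_lit 2680) (.e (nat_lit 3304) (nat_lit 202) (.e (nat_lit 573485) (nat_lit 13) (.e (nat_lit 65604) (nat_lit 9) (.e (nat_lit 336013) (nat_lit 2) (.e (nat_lit 90170) (nat_lit 13) (.e (nat_lit 172068) (nat_lit 4) (.e (nat_lit 229679) (nat_lit 244) (.e (nat_lit 163850) (nat_lit 0) .nil)))))))) (.g (nat_lit 1) (.e (nat_lit 82393) (nat_lit 0) .nil) .nil))) 
(.lf (nat_lit 469777) (.g (nat_lit 3486) (.e (nat_lit 3307) (nat_lit 202) (.e (nat_lit 573485) (nat_lit 13) (.e (nat_lit 65604) (nat_lit 9) (.e (nat_lit 336013) (nat_lit 2) (.e (nat_lit 90165) (nat_lit 12) (.e (nat_lit 164218) (nat_lit 179) (.e (nat_lit 164338) (nat_lit 232) (.e (nat_lit 77) (nat_lit 0) .nil)))))))) (.g (nat_lit 1) (.e (nat_lit 83675) (nat_lit 0) .nil) .nil))))) 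
(.nd (nat_lit 8) (.nd (nat_lit 9) 
(.lf (nat_lit 469137) (.g (nat_lit 2609) (.e (nat_lit 3304) (nat_lit 202) (.e (nat_lit 573475) (nat_lit 12) (.e (nat_lit 57574) (nat_lit 55) (.e (nat_lit 778466) (nat_lit 11) (.e (nat_lit 24604) (nat_lit 2) (.e (nat_lit 90176) (nat_lit 15) (.e (nat_lit 188439) (nat_lit 20) .nil))))))) (.g (nat_lit 1) (.e (nat_lit 82134) (nat_lit 0) .nil) .nil))) 
(.lf (nat_lit 469649) (.g (nat_lit 4707) (.e (nat_lit 3307) (nat_lit 202) (.e (nat_lit 573477) (nat_lit 12) (.e (nat_lit 57574) (nat_lit 55) (.e (nat_lit 778466) (nat_lit 11) (.e (nat_lit 24604) (nat_lit 2) (.e (nat_lit 90178) (nat_lit 15) (.e (nat_lit 188441) (nat_lit 20) .nil))))))) (.g (nat_lit 1) (.e (nat_lit 83306) (nat_lit 0) .nil) .nil)))) (.nd (nat_lit 9) 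
(.lf (nat_lit 469393) (.g (nat_lit 1911) (.e (nat_lit 3305) (nat_lit 202) (.e (nat_lit 573482) (nat_lit 13) (.e (nat_lit 65616) (nat_lit 10) (.e (nat_lit 344126) (nat_lit 25) (.e (nat_lit 548874) (nat_lit 5) .nil))))) (.g (nat_lit 0) (.e (nat_lit 82758) (nat_lit 0) .nil) .nil))) 
(.lf (nat_lit 469905) (.g (nat_lit 2704) (.e (nat_lit 3307) (nat_lit 202) (.e (nat_lit 573489) (nat_lit 14) (.e (nat_lit 73754) (nat_lit 8) (.e (nat_lit 557105) (nat_lit 14) (.e (nat_lit 180252) (nat_lit 10) (.e (nat_lit 573475) (nat_lit 12) (.e (nat_lit 57504) (nat_lit 38) (.e (nat_lit 638986) (nat_lit 5) (.e (nat_lit 2466) (nat_lit 157) .nil))))))))) (.g (nat_lit 1) (.e (nat_lit 83873) (nat_lit 0) .nil) .nil)))))) 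
(.nd (nat_lit 7) (.nd (nat_lit 8) (.nd (nat_lit 9) 
(.lf (nat_lit 469073) (.g (nat_lit 4911) (.e (nat_lit 3302) (nat_lit 202) (.e (nat_lit 573492) (nat_lit 15) (.e (nat_lit 81956) (nat_lit 23) (.e (nat_lit 98350) (nat_lit 24) (.e (nat_lit 409617) (nat_lit 10) (.e (nat_lit 5355) (nat_lit 298) (.e (nat_lit 39) (nat_lit 0) .nil))))))) (.g (nat_lit 1) (.e (nat_lit 81973) (nat_lit 0) .nil) .nil))) 
(.lf (nat_lit 469585) (.g (nat_lit 2145) (.e (nat_lit 3306) (nat_lit 202) (.e (nat_lit 573477) (nat_lit 12) (.e (nat_lit 57574) (nat_lit 55) (.e (nat_lit 778466) (nat_lit 11) (.e (nat_lit 24603) (nat_lit 2) .nil))))) (.g (nat_lit 0) (.e (nat_lit 83170) (nat_lit 0) .nil) .nil)))) (.nd (nat_lit 9) 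
(.lf (nat_lit 469329) (.g (nat_lit 3773) (.e (nat_lit 3304) (nat_lit 202) (.e (nat_lit 573492) (nat_lit 15) (.e (nat_lit 81956) (nat_lit 23) (.e (nat_lit 98389) (nat_lit 33) (.e (nat_lit 491546) (nat_lit 9) (.e (nat_lit 336291) (nat_lit 15) .nil)))))) (.g (nat_lit 1) (.e (nat_lit 82575) (nat_lit 0) .nil) .nil))) 
(.lf (nat_lit 469841) (.g (nat_lit 4039) (.e (nat_lit 3307) (nat_lit 202) (.e (nat_lit 573485) (nat_lit 13) (.e (nat_lit 65619) (nat_lit 10) (.e (nat_lit 344117) (nat_lit 21) (.e (nat_lit 516106) (nat_lit 0) (.e (nat_lit 7095) (nat_lit 380) (.e (nat_lit 164338) (nat_lit 232) (.e (nat_lit 77) (nat_lit 0) .nil)))))))) (.g (nat_lit 1) (.e (nat_lit 83766) (nat_lit 0) .nil) .nil))))) 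
(.nd (nat_lit 8) (.nd (nat_lit 9) 
(.lf (nat_lit 469201) (.g (nat_lit 3292) (.e (nat_lit 3304) (nat_lit 202) (.e (nat_lit 573482) (nat_lit 13) (.e (nat_lit 65619) (nat_lit 10) (.e (nat_lit 344129) (nat_lit 26) (.e (nat_lit 557087) (nat_lit 11) (.e (nat_lit 24632) (nat_lit 9) (.e (nat_lit 336294) (nat_lit 15) .nil))))))) (.g (nat_lit 1) (.e (nat_lit 82208) (nat_lit 0) .nil) .nil))) 
(.lf (nat_lit 469713) (.g (nat_lit 3096) (.e (nat_lit 3307) (nat_lit 202) (.e (nat_lit 573484) (nat_lit 13) (.e (nat_lit 65610) (nat_lit 10) (.e (nat_lit 344117) (nat_lit 21) (.e (nat_lit 516185) (nat_lit 16) (.e (nat_lit 491547) (nat_lit 9) (.e (nat_lit 336303) (nat_lit 15) .nil))))))) (.g (nat_lit 1) (.e (nat_lit 83536) (nat_lit 0) .nil) .nil)))) (.nd (nat_lit 9) 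
(.lf (nat_lit 469457) (.g (nat_lit 3115) (.e (nat_lit 3305) (nat_lit 202) (.e (nat_lit 573484) (nat_lit 13) (.e (nat_lit 65617) (nat_lit 10) (.e (nat_lit 344130) (nat_lit 26) (.e (nat_lit 557087) (nat_lit 11) (.e (nat_lit 24626) (nat_lit 9) (.e (nat_lit 336263) (nat_lit 15) .nil))))))) (.g (nat_lit 1) (.e (nat_lit 82918) (nat_lit 0) .nil) .nil))) 
(.lf (nat_lit 469969) (.g (nat_lit 2406) (.e (nat_lit 3307) (nat_lit 202) (.e (nat_lit 573493) (nat_lit 15) (.e (nat_lit 81953) (nat_lit 22) (.e (nat_lit 90165) (nat_lit 12) .nil)))) (.g (nat_lit 0) (.e (nat_lit 84209) (nat_lit 0) .nil) .nil))))))) (.nd (nat_lit 6) (.nd (nat_lit 7) (.nd (nat_lit 8) (.nd (nat_lit 9) 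
(.lf (nat_lit 469041) (.g (nat_lit 3991) (.e (nat_lit 3302) (nat_lit 202) (.e (nat_lit 573489) (nat_lit 14) (.e (nat_lit 73755) (nat_lit 8) (.e (nat_lit 557105) (nat_lit 14) (.e (nat_lit 180252) (nat_lit 10) (.e (nat_lit 573473) (nat_lit 12) (.e (nat_lit 57508) (nat_lit 39) (.e (nat_lit 647195) (nat_lit 9) (.e (nat_lit 42) (nat_lit 0) .nil))))))))) (.g (nat_lit 1) (.e (nat_lit 81815) (nat_lit 0) .nil) .nil))) 
(.lf (nat_lit 469553) (.g (nat_lit 4650) (.e (nat_lit 3305) (nat_lit 202) (.e (nat_lit 573492) (nat_lit 15) (.e (nat_lit 81956) (nat_lit 23) (.e (nat_lit 98320) (nat_lit 17) (.e (nat_lit 7589) (nat_lit 406) (.e (nat_lit 65637) (nat_lit 15) .nil)))))) (.g (nat_lit 1) (.e (nat_lit 83110) (nat_lit 0) .nil) .nil)))) (.nd (nat_lit 9) 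
(.lf (nat_lit 469297) (.g (nat_lit 2868) (.e (nat_lit 3304) (nat_lit 202) (.e (nat_lit 573485) (nat_lit 13) (.e (nat_lit 65619) (nat_lit 10) (.e (nat_lit 344129) (nat_lit 26) (.e (nat_lit 557087) (nat_lit 11) (.e (nat_lit 24632) (nat_lit 9) (.e (nat_lit 336291) (nat_lit 15) .nil))))))) (.g (nat_lit 1) (.e (nat_lit 82444) (nat_lit 0) .nil) .nil))) 
(.lf (nat_lit 469809) (.g (nat_lit 3682) (.e (nat_lit 3307) (nat_lit 202) (.e (nat_lit 573485) (nat_lit 13) (.e (nat_lit 65604) (nat_lit 9) (.e (nat_lit 336028) (nat_lit 3) (.e (nat_lit 98325) (nat_lit 17) (.e (nat_lit 7008) (nat_lit 377) (.e (nat_lit 2788) (nat_lit 179) (.e (nat_lit 294966) (nat_lit 15) .nil)))))))) (.g (nat_lit 1) (.e (nat_lit 83707) (nat_lit 0) .nil) .nil))))) 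
(.nd (nat_lit 8) (.nd (nat_lit 9) 
(.lf (nat_lit 469169) (.g (nat_lit 3320) (.e (nat_lit 3304) (nat_lit 202) (.e (nat_lit 573482) (nat_lit 13) (.e (nat_lit 65604) (nat_lit 9) (.e (nat_lit 336013) (nat_lit 2) (.e (nat_lit 90170) (nat_lit 13) (.e (nat_lit 172068) (nat_lit 4) (.e (nat_lit 229681) (nat_lit 244) (.e (nat_lit 163850) (nat_lit 0) .nil)))))))) (.g (nat_lit 1) (.e (nat_lit 82169) (nat_lit 0) .nil) .nil))) 
(.lf (nat_lit 469681) (.g (nat_lit 654) (.e (nat_lit 3307) (nat_lit 202) (.e (nat_lit 573484) (nat_lit 13) (.e (nat_lit 65566) (nat_lit 2) .nil))) (.g (nat_lit 0) (.e (nat_lit 83343) (nat_lit 0) .nil) .nil)))) (.nd (nat_lit 9) 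
(.lf (nat_lit 469425) (.g (nat_lit 2370) (.e (nat_lit 3305) (nat_lit 202) (.e (nat_lit 573484) (nat_lit 13) (.e (nat_lit 65610) (nat_lit 10) (.e (nat_lit 344117) (nat_lit 21) (.e (nat_lit 516106) (nat_lit 0) (.e (nat_lit 7936) (nat_lit 409) (.e (nat_lit 131135) (nat_lit 15) .nil))))))) (.g (nat_lit 1) (.e (nat_lit 82825) (nat_lit 0) .nil) .nil))) 
(.lf (nat_lit 469937) (.g (nat_lit 3565) (.e (nat_lit 3307) (nat_lit 202) (.e (nat_lit 573489) (nat_lit 14) (.e (nat_lit 73755) (nat_lit 8) (.e (nat_lit 557105) (nat_lit 14) (.e (nat_lit 180252) (nat_lit 10) (.e (nat_lit 573474) (nat_lit 12) (.e (nat_lit 57504) (nat_lit 38) (.e (nat_lit 638984) (nat_lit 5) (.e (nat_lit 2466) (nat_lit 157) .nil))))))))) (.g (nat_lit 1) (.e (nat_lit 84133) (nat_lit 0) .nil) .nil)))))) 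
(.nd (nat_lit 7) (.nd (nat_lit 8) (.nd (nat_lit 9) 
(.lf (nat_lit 469105) (.g (nat_lit 2543) (.e (nat_lit 3302) (nat_lit 202) (.e (nat_lit 573493) (nat_lit 15) (.e (nat_lit 81953) (nat_lit 22) (.e (nat_lit 90165) (nat_lit 12) .nil)))) (.g (nat_lit 0) (.e (nat_lit 82056) (nat_lit 0) .nil) .nil))) 
(.lf (nat_lit 469617) (.g (nat_lit 3488) (.e (nat_lit 3307) (nat_lit 202) (.e (nat_lit 573474) (nat_lit 12) (.e (nat_lit 57572) (nat_lit 54) (.e (nat_lit 770071) (nat_lit 8) (.e (nat_lit 65577) (nat_lit 5) (.e (nat_lit 139296) (nat_lit 15) (.e (nat_lit 188440) (nat_lit 20) .nil))))))) (.g (nat_lit 1) (.e (nat_lit 83271) (nat_lit 0) .nil) .nil)))) (.nd (nat_lit 9) 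
(.lf (nat_lit 469361) (.g (nat_lit 4273) (.e (nat_lit 3304) (nat_lit 202) (.e (nat_lit 573493) (nat_lit 15) (.e (nat_lit 81956) (nat_lit 23) (.e (nat_lit 98385) (nat_lit 32) (.e (nat_lit 475208) (nat_lit 41) .nil))))) (.g (nat_lit 0) (.e (nat_lit 82710) (nat_lit 0) .nil) .nil))) 
(.lf (nat_lit 469873) (.g (nat_lit 2427) (.e (nat_lit 3307) (nat_lit 202) (.e (nat_lit 573485) (nat_lit 13) (.e (nat_lit 65619) (nat_lit 10) (.e (nat_lit 344129) (nat_lit 26) (.e (nat_lit 557085) (nat_lit 11) (.e (nat_lit 24630) (nat_lit 9) (.e (nat_lit 336260) (nat_lit 15) .nil))))))) (.g (nat_lit 1) (.e (nat_lit 83807) (nat_lit 0) .nil) .nil))))) (.nd (nat_lit 8) (.nd (nat_lit 9) 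
(.lf (nat_lit 469233) (.g (nat_lit 2977) (.e (nat_lit 3304) (nat_lit 202) (.e (nat_lit 573484) (nat_lit 13) (.e (nat_lit 65617) (nat_lit 10) (.e (nat_lit 344130) (nat_lit 26) (.e (nat_lit 557087) (nat_lit 11) (.e (nat_lit 24624) (nat_lit 9) (.e (nat_lit 336303) (nat_lit 15) .nil))))))) (.g (nat_lit 1) (.e (nat_lit 82315) (nat_lit 0) .nil) .nil))) 
(.lf (nat_lit 469745) (.g (nat_lit 5017) (.e (nat_lit 3307) (nat_lit 202) (.e (nat_lit 573484) (nat_lit 13) (.e (nat_lit 65617) (nat_lit 10) (.e (nat_lit 344130) (nat_lit 26) (.e (nat_lit 557087) (nat_lit 11) (.e (nat_lit 24625) (nat_lit 9) (.e (nat_lit 336257) (nat_lit 15) .nil))))))) (.g (nat_lit 1) (.e (nat_lit 83613) (nat_lit 0) .nil) .nil)))) (.nd (nat_lit 9) 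
(.lf (nat_lit 469489) (.g (nat_lit 2528) (.e (nat_lit 3305) (nat_lit 202) (.e (nat_lit 573484) (nat_lit 13) (.e (nat_lit 65630) (nat_lit 14) (.e (nat_lit 401423) (nat_lit 2) (.e (nat_lit 196672) (nat_lit 15) .nil))))) (.g (nat_lit 0) (.e (nat_lit 82995) (nat_lit 0) .nil) .nil))) 
(.lf (nat_lit 470001) (.g (nat_lit 3582) (.e (nat_lit 3307) (nat_lit 202) (.e (nat_lit 573493) (nat_lit 15) (.e (nat_lit 81956) (nat_lit 23) (.e (nat_lit 98389) (nat_lit 33) (.e (nat_lit 491546) (nat_lit 9) (.e (nat_lit 336303) (nat_lit 15) .nil)))))) (.g (nat_lit 1) (.e (nat_lit 84272) (nat_lit 0) .nil) .nil))))))))) 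
(.nd (nat_lit 4) (.nd (nat_lit 5) (.nd (nat_lit 6) (.nd (nat_lit 7) (.nd (nat_lit 8) 
(.nd (nat_lit 9) 
(.lf (nat_lit 469001) (.g (nat_lit 2641) (.e (nat_lit 3302) (nat_lit 202) (.e (nat_lit 573482) (nat_lit 13) (.e (nat_lit 65619) (nat_lit 10) (.e (nat_lit 344115) (nat_lit 20) (.e (nat_lit 507907) (nat_lit 0) (.e (nat_lit 5406) (nat_lit 302) (.e (nat_lit 65636) (nat_lit 15) .nil))))))) (.g (nat_lit 1) (.e (nat_lit 81708) (nat_lit 0) .nil) .nil))) 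
(.lf (nat_lit 469513) (.g (nat_lit 2277) (.e (nat_lit 3305) (nat_lit 202) (.e (nat_lit 573485) (nat_lit 13) (.e (nat_lit 65619) (nat_lit 10) (.e (nat_lit 344129) (nat_lit 26) (.e (nat_lit 557087) (nat_lit 11) (.e (nat_lit 24631) (nat_lit 9) (.e (nat_lit 336291) (nat_lit 15) .nil))))))) (.g (nat_lit 1) (.e (nat_lit 83033) (nat_lit 0) .nil) .nil)))) (.nd (nat_lit 9) 
(.lf (nat_lit 469257) (.g (nat_lit 4585) (.e (nat_lit 3304) (nat_lit 202) (.e (nat_lit 573484) (nat_lit 13) (.e (nat_lit 65617) (nat_lit 10) (.e (nat_lit 344133) (nat_lit 26) (.e (nat_lit 557085) (nat_lit 11) (.e (nat_lit 24630) (nat_lit 9) (.e (nat_lit 336306) (nat_lit 15) .nil))))))) (.g (nat_lit 1) (.e (nat_lit 82363) (nat_lit 0) .nil) .nil))) 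
(.lf (nat_lit 469769) (.g (nat_lit 3123) (.e (nat_lit 3307) (nat_lit 202) (.e (nat_lit 573485) (nat_lit 13) (.e (nat_lit 65604) (nat_lit 9) (.e (nat_lit 336013) (nat_lit 2) (.e (nat_lit 90165) (nat_lit 12) (.e (nat_lit 164208) (nat_lit 176) (.e (nat_lit 2781) (nat_lit 178) (.e (nat_lit 294656) (nat_lit 15) .nil)))))))) (.g (nat_lit 1) (.e (nat_lit 83667) (nat_lit 0) .nil) .nil))))) 
(.nd (nat_lit 8) (.nd (nat_lit 9) 
(.lf (nat_lit 469129) (.g (nat_lit 2646) (.e (nat_lit 3303) (nat_lit 202) (.e (nat_lit 573489) (nat_lit 14) (.e (nat_lit 73755) (nat_lit 8) (.e (nat_lit 557098) (nat_lit 13) .nil)))) (.g (nat_lit 0) (.e (nat_lit 82096) (nat_lit 0) .nil) .nil))) 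
(.lf (nat_lit 469641) (.g (nat_lit 1957) (.e (nat_lit 3307) (nat_lit 202) (.e (nat_lit 573477) (nat_lit 12) (.e (nat_lit 57574) (nat_lit 55) (.e (nat_lit 778466) (nat_lit 11) (.e (nat_lit 24603) (nat_lit 2) (.e (nat_lit 90175) (nat_lit 15) (.e (nat_lit 188438) (nat_lit 20) .nil))))))) (.g (nat_lit 1) (.e (nat_lit 83298) (nat_lit 0) .nil) .nil)))) (.nd (nat_lit 9) 
(.lf (nat_lit 469385) (.g (nat_lit 678) (.e (nat_lit 3305) (nat_lit 202) (.e (nat_lit 573480) (nat_lit 13) (.e (nat_lit 65624) (nat_lit 12) (.e (nat_lit 385074) (nat_lit 31) .nil)))) (.g (nat_lit 0) (.e (nat_lit 82749) (nat_lit 0) .nil) .nil))) 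
(.lf (nat_lit 469897) (.g (nat_lit 2158) (.e (nat_lit 3307) (nat_lit 202) (.e (nat_lit 573485) (nat_lit 13) (.e (nat_lit 65630) (nat_lit 14) (.e (nat_lit 401425) (nat_lit 2) (.e (nat_lit 196681) (nat_lit 17) .nil))))) (.g (nat_lit 0) (.e (nat_lit 83831) (nat_lit 0) .nil) .nil)))))) (.nd (nat_lit 7) (.nd (nat_lit 8) (.nd (nat_lit 9) 
(.lf (nat_lit 469065) (.g (nat_lit 2794) (.e (nat_lit 3302) (nat_lit 202) (.e (nat_lit 573492) (nat_lit 15) (.e (nat_lit 81956) (nat_lit 23) (.e (nat_lit 98325) (nat_lit 17) (.e (nat_lit 7936) (nat_lit 406) (.e (nat_lit 65636) (nat_lit 15) .nil)))))) (.g (nat_lit 1) (.e (nat_lit 81962) (nat_lit 0) .nil) .nil))) 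
(.lf (nat_lit 469577) (.g (nat_lit 1638) (.e (nat_lit 3305) (nat_lit 202) (.e (nat_lit 573493) (nat_lit 15) (.e (nat_lit 81956) (nat_lit 23) (.e (nat_lit 98325) (nat_lit 17) .nil)))) (.g (nat_lit 0) (.e (nat_lit 83156) (nat_lit 0) .nil) .nil)))) (.nd (nat_lit 9) 
(.lf (nat_lit 469321) (.g (nat_lit 2429) (.e (nat_lit 3304) (nat_lit 202) (.e (nat_lit 573491) (nat_lit 15) (.e (nat_lit 81954) (nat_lit 23) (.e (nat_lit 98386) (nat_lit 32) (.e (nat_lit 475209) (nat_lit 41) .nil))))) (.g (nat_lit 0) (.e (nat_lit 82546) (nat_lit 0) .nil) .nil))) 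
(.lf (nat_lit 469833) (.g (nat_lit 4388) (.e (nat_lit 3307) (nat_lit 202) (.e (nat_lit 573485) (nat_lit 13) (.e (nat_lit 65619) (nat_lit 10) (.e (nat_lit 344117) (nat_lit 21) (.e (nat_lit 516106) (nat_lit 0) (.e (nat_lit 6986) (nat_lit 377) (.e (nat_lit 2781) (nat_lit 178) (.e (nat_lit 294656) (nat_lit 15) .nil)))))))) (.g (nat_lit 1) (.e (nat_lit 83758) (nat_lit 0) .nil) .nil))))) 
(.nd (nat_lit 8) (.nd (nat_lit 9) 
(.lf (nat_lit 469193) (.g (nat_lit 2988) (.e (nat_lit 3304) (nat_lit 202) (.e (nat_lit 573482) (nat_lit 13) (.e (nat_lit 65619) (nat_lit 10) (.e (nat_lit 344117) (nat_lit 21) (.e (nat_lit 516180) (nat_lit 15) (.e (nat_lit 475209) (nat_lit 41) (.e (nat_lit 712719) (nat_lit 15) .nil))))))) (.g (nat_lit 1) (.e (nat_lit 82197) (nat_lit 0) .nil) .nil))) 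
(.lf (nat_lit 469705) (.g (nat_lit 2307) (.e (nat_lit 3307) (nat_lit 202) (.e (nat_lit 573484) (nat_lit 13) (.e (nat_lit 65610) (nat_lit 10) (.e (nat_lit 344117) (nat_lit 21) (.e (nat_lit 516184) (nat_lit 16) (.e (nat_lit 491547) (nat_lit 9) (.e (nat_lit 336306) (nat_lit 15) .nil))))))) (.g (nat_lit 1) (.e (nat_lit 83528) (nat_lit 0) .nil) .nil)))) (.nd (nat_lit 9) 
(.lf (nat_lit 469449) (.g (nat_lit 3001) (.e (nat_lit 3305) (nat_lit 202) (.e (nat_lit 573484) (nat_lit 13) (.e (nat_lit 65617) (nat_lit 10) (.e (nat_lit 344130) (nat_lit 26) (.e (nat_lit 557085) (nat_lit 11) (.e (nat_lit 24627) (nat_lit 9) (.e (nat_lit 336270) (nat_lit 15) .nil))))))) (.g (nat_lit 1) (.e (nat_lit 82910) (nat_lit 0) .nil) .nil))) 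
(.lf (nat_lit 469961) (.g (nat_lit 1370) (.e (nat_lit 3307) (nat_lit 202) (.e (nat_lit 573491) (nat_lit 15) (.e (nat_lit 81951) (nat_lit 22) (.e (nat_lit 90165) (nat_lit 12) .nil)))) (.g (nat_lit 0) (.e (nat_lit 84174) (nat_lit 0) .nil) .nil))))))) (.nd (nat_lit 6) (.nd (nat_lit 7) (.nd (nat_lit 8) (.nd (nat_lit 9) 
(.lf (nat_lit 469033) (.g (nat_lit 2055) (.e (nat_lit 3302) (nat_lit 202) (.e (nat_lit 573485) (nat_lit 13) (.e (nat_lit 65628) (nat_lit 14) (.e (nat_lit 401428) (nat_lit 3) (.e (nat_lit 204866) (nat_lit 28) (.e (nat_lit 352261) (nat_lit 0) .nil)))))) (.g (nat_lit 1) (.e (nat_lit 81767) (nat_lit 0) .nil) .nil))) 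
(.lf (nat_lit 469545) (.g (nat_lit 2396) (.e (nat_lit 3305) (nat_lit 202) (.e (nat_lit 573491) (nat_lit 15) (.e (nat_lit 81956) (nat_lit 23) (.e (nat_lit 98388) (nat_lit 33) .nil)))) (.g (nat_lit 0) (.e (nat_lit 83101) (nat_lit 0) .nil) .nil)))) (.nd (nat_lit 9) 
(.lf (nat_lit 469289) (.g (nat_lit 3039) (.e (nat_lit 3304) (nat_lit 202) (.e (nat_lit 573485) (nat_lit 13) (.e (nat_lit 65619) (nat_lit 10) (.e (nat_lit 344117) (nat_lit 21) (.e (nat_lit 516180) (nat_lit 15) (.e (nat_lit 475209) (nat_lit 41) (.e (nat_lit 712719) (nat_lit 15) .nil))))))) (.g (nat_lit 1) (.e (nat_lit 82427) (nat_lit 0) .nil) .nil))) 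
(.lf (nat_lit 469801) (.g (nat_lit 2263) (.e (nat_lit 3307) (nat_lit 202) (.e (nat_lit 573485) (nat_lit 13) (.e (nat_lit 65604) (nat_lit 9) (.e (nat_lit 336028) (nat_lit 3) (.e (nat_lit 98325) (nat_lit 17) (.e (nat_lit 6966) (nat_lit 377) (.e (nat_lit 2789) (nat_lit 179) (.e (nat_lit 294966) (nat_lit 15) .nil)))))))) (.g (nat_lit 1) (.e (nat_lit 83699) (nat_lit 0) .nil) .nil))))) 
(.nd (nat_lit 8) (.nd (nat_lit 9) 
(.lf (nat_lit 469161) (.g (nat_lit 1924) (.e (nat_lit 3304) (nat_lit 202) (.e (nat_lit 573480) (nat_lit 13) (.e (nat_lit 65630) (nat_lit 14) (.e (nat_lit 401428) (nat_lit 3) (.e (nat_lit 204866) (nat_lit 28) (.e (nat_lit 352265) (nat_lit 0) .nil)))))) (.g (nat_lit 1) (.e (nat_lit 82160) (nat_lit 0) .nil) .nil))) 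
(.lf (nat_lit 469673) (.g (nat_lit 1674) (.e (nat_lit 3307) (nat_lit 202) (.e (nat_lit 573478) (nat_lit 12) (.e (nat_lit 57574) (nat_lit 55) (.e (nat_lit 778466) (nat_lit 11) (.e (nat_lit 24603) (nat_lit 2) (.e (nat_lit 90176) (nat_lit 15) (.e (nat_lit 188438) (nat_lit 20) .nil))))))) (.g (nat_lit 1) (.e (nat_lit 83335) (nat_lit 0) .nil) .nil)))) (.nd (nat_lit 9) 
(.lf (nat_lit 469417) (.g (nat_lit 4227) (.e (nat_lit 3305) (nat_lit 202) (.e (nat_lit 573484) (nat_lit 13) (.e (nat_lit 65610) (nat_lit 10) (.e (nat_lit 344117) (nat_lit 21) (.e (nat_lit 516097) (nat_lit 0) (.e (nat_lit 7589) (nat_lit 406) (.e (nat_lit 65637) (nat_lit 15) .nil))))))) (.g (nat_lit 1) (.e (nat_lit 82817) (nat_lit 0) .nil) .nil))) 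
(.lf (nat_lit 469929) (.g (nat_lit 4033) (.e (nat_lit 3307) (nat_lit 202) (.e (nat_lit 573489) (nat_lit 14) (.e (nat_lit 73755) (nat_lit 8) (.e (nat_lit 557105) (nat_lit 14) (.e (nat_lit 180252) (nat_lit 10) (.e (nat_lit 573473) (nat_lit 12) (.e (nat_lit 57503) (nat_lit 38) (.e (nat_lit 638985) (nat_lit 5) (.e (nat_lit 2472) (nat_lit 157) .nil))))))))) (.g (nat_lit 1) (.e (nat_lit 84082) (nat_lit 0) .nil) .nil)))))) 
(.nd (nat_lit 7) (.nd (nat_lit 8) (.nd (nat_lit 9) 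
(.lf (nat_lit 469097) (.g (nat_lit 3641) (.e (nat_lit 3302) (nat_lit 202) (.e (nat_lit 573492) (nat_lit 15) (.e (nat_lit 81956) (nat_lit 23) (.e (nat_lit 98389) (nat_lit 33) (.e (nat_lit 491547) (nat_lit 9) (.e (nat_lit 336284) (nat_lit 15) .nil)))))) (.g (nat_lit 1) (.e (nat_lit 82012) (nat_lit 0) .nil) .nil))) 
(.lf (nat_lit 469609) (.g (nat_lit 3793) (.e (nat_lit 3307) (nat_lit 202) (.e (nat_lit 573471) (nat_lit 11) (.e (nat_lit 16425) (nat_lit 7) (.e (nat_lit 409616) (nat_lit 10) .nil)))) (.g (nat_lit 0) (.e (nat_lit 83262) (nat_lit 0) .nil) .nil)))) (.nd (nat_lit 9) 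
(.lf (nat_lit 469353) (.g (nat_lit 3745) (.e (nat_lit 3304) (nat_lit 202) (.e (nat_lit 573493) (nat_lit 15) (.e (nat_lit 81956) (nat_lit 23) (.e (nat_lit 98355) (nat_lit 26) .nil)))) (.g (nat_lit 0) (.e (nat_lit 82688) (nat_lit 0) .nil) .nil))) 
(.lf (nat_lit 469865) (.g (nat_lit 2226) (.e (nat_lit 3307) (nat_lit 202) (.e (nat_lit 573485) (nat_lit 13) (.e (nat_lit 65619) (nat_lit 10) (.e (nat_lit 344117) (nat_lit 21) (.e (nat_lit 516185) (nat_lit 16) (.e (nat_lit 491546) (nat_lit 9) (.e (nat_lit 336306) (nat_lit 15) .nil))))))) (.g (nat_lit 1) (.e (nat_lit 83793) (nat_lit 0) .nil) .nil))))) (.nd (nat_lit 8) (.nd (nat_lit 9) 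
(.lf (nat_lit 469225) (.g (nat_lit 1013) (.e (nat_lit 3304) (nat_lit 202) (.e (nat_lit 573484) (nat_lit 13) (.e (nat_lit 65617) (nat_lit 10) (.e (nat_lit 344130) (nat_lit 26) .nil)))) (.g (nat_lit 0) (.e (nat_lit 82283) (nat_lit 0) .nil) .nil))) 
(.lf (nat_lit 469737) (.g (nat_lit 396) (.e (nat_lit 3307) (nat_lit 202) (.e (nat_lit 573484) (nat_lit 13) (.e (nat_lit 65617) (nat_lit 10) .nil))) (.g (nat_lit 0) (.e (nat_lit 83602) (nat_lit 0) .nil) .nil)))) (.nd (nat_lit 9) 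
(.lf (nat_lit 469481) (.g (nat_lit 1766) (.e (nat_lit 3305) (nat_lit 202) (.e (nat_lit 573484) (nat_lit 13) (.e (nat_lit 65617) (nat_lit 10) (.e (nat_lit 344133) (nat_lit 26) (.e (nat_lit 564992) (nat_lit 9) .nil))))) (.g (nat_lit 0) (.e (nat_lit 82967) (nat_lit 0) .nil) .nil))) 
(.lf (nat_lit 469993) (.g (nat_lit 2958) (.e (nat_lit 3307) (nat_lit 202) (.e (nat_lit 573493) (nat_lit 15) (.e (nat_lit 81956) (nat_lit 23) (.e (nat_lit 98387) (nat_lit 33) .nil)))) (.g (nat_lit 0) (.e (nat_lit 84264) (nat_lit 0) .nil) .nil)))))))) (.nd (nat_lit 5) (.nd (nat_lit 6) (.nd (nat_lit 7) (.nd (nat_lit 8) (.nd (nat_lit 9) 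
(.lf (nat_lit 469017) (.g (nat_lit 3443) (.e (nat_lit 3302) (nat_lit 202) (.e (nat_lit 573484) (nat_lit 13) (.e (nat_lit 65610) (nat_lit 10) (.e (nat_lit 344117) (nat_lit 21) (.e (nat_lit 516178) (nat_lit 15) (.e (nat_lit 475211) (nat_lit 41) (.e (nat_lit 712722) (nat_lit 15) .nil))))))) (.g (nat_lit 1) (.e (nat_lit 81730) (nat_lit 0) .nil) .nil))) 
(.lf (nat_lit 469529) (.g (nat_lit 3402) (.e (nat_lit 3305) (nat_lit 202) (.e (nat_lit 573485) (nat_lit 13) (.e (nat_lit 65630) (nat_lit 14) (.e (nat_lit 401425) (nat_lit 2) (.e (nat_lit 196674) (nat_lit 15) (.e (nat_lit 81922) (nat_lit 0) .nil)))))) (.g (nat_lit 1) (.e (nat_lit 83051) (nat_lit 0) .nil) .nil)))) (.nd (nat_lit 9) 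
(.lf (nat_lit 469273) (.g (nat_lit 1999) (.e (nat_lit 3304) (nat_lit 202) (.e (nat_lit 573485) (nat_lit 13) (.e (nat_lit 65619) (nat_lit 10) (.e (nat_lit 344117) (nat_lit 21) (.e (nat_lit 516097) (nat_lit 0) (.e (nat_lit 7587) (nat_lit 406) (.e (nat_lit 65637) (nat_lit 15) .nil))))))) (.g (nat_lit 1) (.e (nat_lit 82410) (nat_lit 0) .nil) .nil))) 
(.lf (nat_lit 469785) (.g (nat_lit 2872) (.e (nat_lit 3307) (nat_lit 202) (.e (nat_lit 573485) (nat_lit 13) (.e (nat_lit 65604) (nat_lit 9) (.e (nat_lit 336013) (nat_lit 2) (.e (nat_lit 90165) (nat_lit 12) (.e (nat_lit 171776) (nat_lit 191) (.e (nat_lit 73472) (nat_lit 15) .nil))))))) (.g (nat_lit 1) (.e (nat_lit 83683) (nat_lit 0) .nil) .nil))))) (.nd (nat_lit 8) (.nd (nat_lit 9) 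
(.lf (nat_lit 469145) (.g (nat_lit 1061) (.e (nat_lit 3304) (nat_lit 202) (.e (nat_lit 573477) (nat_lit 12) (.e (nat_lit 57575) (nat_lit 55) (.e (nat_lit 778463) (nat_lit 11) .nil)))) (.g (nat_lit 0) (.e (nat_lit 82143) (nat_lit 0) .nil) .nil))) 
(.lf (nat_lit 469657) (.g (nat_lit 4659) (.e (nat_lit 3307) (nat_lit 202) (.e (nat_lit 573477) (nat_lit 12) (.e (nat_lit 57575) (nat_lit 55) (.e (nat_lit 778465) (nat_lit 11) (.e (nat_lit 24604) (nat_lit 2) (.e (nat_lit 90176) (nat_lit 15) (.e (nat_lit 188438) (nat_lit 20) .nil))))))) (.g (nat_lit 1) (.e (nat_lit 83314) (nat_lit 0) .nil) .nil)))) (.nd (nat_lit 9) 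
(.lf (nat_lit 469401) (.g (nat_lit 3403) (.e (nat_lit 3305) (nat_lit 202) (.e (nat_lit 573482) (nat_lit 13) (.e (nat_lit 65619) (nat_lit 10) (.e (nat_lit 344117) (nat_lit 21) (.e (nat_lit 516185) (nat_lit 16) (.e (nat_lit 491556) (nat_lit 9) (.e (nat_lit 336300) (nat_lit 15) .nil))))))) (.g (nat_lit 1) (.e (nat_lit 82766) (nat_lit 0) .nil) .nil))) 
(.lf (nat_lit 469913) (.g (nat_lit 2888) (.e (nat_lit 3307) (nat_lit 202) (.e (nat_lit 573489) (nat_lit 14) (.e (nat_lit 73755) (nat_lit 8) (.e (nat_lit 557097) (nat_lit 13) (.e (nat_lit 179968) (nat_lit 18) (.e (nat_lit 98335) (nat_lit 18) (.e (nat_lit 164332) (nat_lit 230) (.e (nat_lit 163851) (nat_lit 0) .nil)))))))) (.g (nat_lit 1) (.e (nat_lit 83921) (nat_lit 0) .nil) .nil)))))) 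
(.nd (nat_lit 7) (.nd (nat_lit 8) (.nd (nat_lit 9) 
(.lf (nat_lit 469081) (.g (nat_lit 3022) (.e (nat_lit 3302) (nat_lit 202) (.e (nat_lit 573492) (nat_lit 15) (.e (nat_lit 81956) (nat_lit 23) (.e (nat_lit 98357) (nat_lit 26) .nil)))) (.g (nat_lit 0) (.e (nat_lit 81992) (nat_lit 0) .nil) .nil))) 
(.lf (nat_lit 469593) (.g (nat_lit 1503) (.e (nat_lit 3307) (nat_lit 202) (.e (nat_lit 573450) (nat_lit 9) (.e (nat_lit 411) (nat_lit 32) (.e (nat_lit 426340) (nat_lit 14) .nil)))) (.g (nat_lit 0) (.e (nat_lit 83246) (nat_lit 0) .nil) .nil)))) (.nd (nat_lit 9) 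
(.lf (nat_lit 469337) (.g (nat_lit 969) (.e (nat_lit 3304) (nat_lit 202) (.e (nat_lit 573493) (nat_lit 15) (.e (nat_lit 81951) (nat_lit 22) .nil))) (.g (nat_lit 0) (.e (nat_lit 82622) (nat_lit 0) .nil) .nil))) 
(.lf (nat_lit 469849) (.g (nat_lit 3558) (.e (nat_lit 3307) (nat_lit 202) (.e (nat_lit 573485) (nat_lit 13) (.e (nat_lit 65619) (nat_lit 10) (.e (nat_lit 344117) (nat_lit 21) (.e (nat_lit 516138) (nat_lit 7) (.e (nat_lit 409642) (nat_lit 17) (.e (nat_lit 294966) (nat_lit 15) .nil))))))) (.g (nat_lit 1) (.e (nat_lit 83776) (nat_lit 0) .nil) .nil))))) (.nd (nat_lit 8) (.nd (nat_lit 9) 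
(.lf (nat_lit 469209) (.g (nat_lit 2793) (.e (nat_lit 3304) (nat_lit 202) (.e (nat_lit 573482) (nat_lit 13) (.e (nat_lit 65628) (nat_lit 14) (.e (nat_lit 401428) (nat_lit 3) (.e (nat_lit 204866) (nat_lit 28) (.e (nat_lit 352260) (nat_lit 0) .nil)))))) (.g (nat_lit 1) (.e (nat_lit 82217) (nat_lit 0) .nil) .nil))) 
(.lf (nat_lit 469721) (.g (nat_lit 4504) (.e (nat_lit 3307) (nat_lit 202) (.e (nat_lit 573484) (nat_lit 13) (.e (nat_lit 65610) (nat_lit 10) (.e (nat_lit 344129) (nat_lit 26) (.e (nat_lit 557085) (nat_lit 11) (.e (nat_lit 24630) (nat_lit 9) (.e (nat_lit 336260) (nat_lit 15) .nil))))))) (.g (nat_lit 1) (.e (nat_lit 83584) (nat_lit 0) .nil) .nil)))) (.nd (nat_lit 9) 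
(.lf (nat_lit 469465) (.g (nat_lit 4181) (.e (nat_lit 3305) (nat_lit 202) (.e (nat_lit 573484) (nat_lit 13) (.e (nat_lit 65617) (nat_lit 10) (.e (nat_lit 344130) (nat_lit 26) (.e (nat_lit 557087) (nat_lit 11) (.e (nat_lit 24632) (nat_lit 9) (.e (nat_lit 336292) (nat_lit 15) .nil))))))) (.g (nat_lit 1) (.e (nat_lit 82926) (nat_lit 0) .nil) .nil))) 
(.lf (nat_lit 469977) (.g (nat_lit 1953) (.e (nat_lit 3307) (nat_lit 202) (.e (nat_lit 573493) (nat_lit 15) (.e (nat_lit 81956) (nat_lit 23) (.e (nat_lit 98320) (nat_lit 17) .nil)))) (.g (nat_lit 0) (.e (nat_lit 84232) (nat_lit 0) .nil) .nil))))))) (.nd (nat_lit 6) (.nd (nat_lit 7) (.nd (nat_lit 8) (.nd (nat_lit 9) 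
(.lf (nat_lit 469049) (.g (nat_lit 684) (.e (nat_lit 3302) (nat_lit 202) (.e (nat_lit 573492) (nat_lit 15) (.e (nat_lit 81951) (nat_lit 22) .nil))) (.g (nat_lit 0) (.e (nat_lit 81887) (nat_lit 0) .nil) .nil))) 
(.lf (nat_lit 469561) (.g (nat_lit 1331) (.e (nat_lit 3305) (nat_lit 202) (.e (nat_lit 573493) (nat_lit 15) (.e (nat_lit 81953) (nat_lit 22) (.e (nat_lit 90165) (nat_lit 12) .nil)))) (.g (nat_lit 0) (.e (nat_lit 83137) (nat_lit 0) .nil) .nil)))) (.nd (nat_lit 9) 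
(.lf (nat_lit 469305) (.g (nat_lit 2803) (.e (nat_lit 3304) (nat_lit 202) (.e (nat_lit 573485) (nat_lit 13) (.e (nat_lit 65630) (nat_lit 14) (.e (nat_lit 401428) (nat_lit 3) (.e (nat_lit 204876) (nat_lit 31) (.e (nat_lit 376835) (nat_lit 0) .nil)))))) (.g (nat_lit 1) (.e (nat_lit 82453) (nat_lit 0) .nil) .nil))) 
(.lf (nat_lit 469817) (.g (nat_lit 3708) (.e (nat_lit 3307) (nat_lit 202) (.e (nat_lit 573485) (nat_lit 13) (.e (nat_lit 65604) (nat_lit 9) (.e (nat_lit 336028) (nat_lit 3) (.e (nat_lit 98387) (nat_lit 33) (.e (nat_lit 491549) (nat_lit 9) (.e (nat_lit 336306) (nat_lit 15) .nil))))))) (.g (nat_lit 1) (.e (nat_lit 83730) (nat_lit 0) .nil) .nil))))) (.nd (nat_lit 8) (.nd (nat_lit 9) 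
(.lf (nat_lit 469177) (.g (nat_lit 2217) (.e (nat_lit 3304) (nat_lit 202) (.e (nat_lit 573482) (nat_lit 13) (.e (nat_lit 65604) (nat_lit 9) (.e (nat_lit 336028) (nat_lit 3) (.e (nat_lit 98359) (nat_lit 26) .nil))))) (.g (nat_lit 0) (.e (nat_lit 82179) (nat_lit 0) .nil) .nil))) 
(.lf (nat_lit 469689) (.g (nat_lit 2180) (.e (nat_lit 3307) (nat_lit 202) (.e (nat_lit 573484) (nat_lit 13) (.e (nat_lit 65610) (nat_lit 10) (.e (nat_lit 344117) (nat_lit 21) (.e (nat_lit 516102) (nat_lit 0) .nil))))) (.g (nat_lit 0) (.e (nat_lit 83365) (nat_lit 0) .nil) .nil)))) (.nd (nat_lit 9) 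
(.lf (nat_lit 469433) (.g (nat_lit 2426) (.e (nat_lit 3305) (nat_lit 202) (.e (nat_lit 573484) (nat_lit 13) (.e (nat_lit 65610) (nat_lit 10) (.e (nat_lit 344129) (nat_lit 26) (.e (nat_lit 557065) (nat_lit 9) .nil))))) (.g (nat_lit 0) (.e (nat_lit 82846) (nat_lit 0) .nil) .nil))) 
(.lf (nat_lit 469945) (.g (nat_lit 3502) (.e (nat_lit 3307) (nat_lit 202) (.e (nat_lit 573489) (nat_lit 14) (.e (nat_lit 73755) (nat_lit 8) (.e (nat_lit 557105) (nat_lit 14) (.e (nat_lit 180252) (nat_lit 10) (.e (nat_lit 573475) (nat_lit 12) (.e (nat_lit 57503) (nat_lit 38) (.e (nat_lit 638985) (nat_lit 5) (.e (nat_lit 2416) (nat_lit 157) .nil))))))))) (.g (nat_lit 1) (.e (nat_lit 84150) (nat_lit 0) .nil) .nil)))))) 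
(.nd (nat_lit 7) (.nd (nat_lit 8) (.nd (nat_lit 9) 
(.lf (nat_lit 469113) (.g (nat_lit 5108) (.e (nat_lit 3302) (nat_lit 202) (.e (nat_lit 573493) (nat_lit 15) (.e (nat_lit 81956) (nat_lit 23) (.e (nat_lit 98320) (nat_lit 17) (.e (nat_lit 7589) (nat_lit 406) (.e (nat_lit 65636) (nat_lit 15) .nil)))))) (.g (nat_lit 1) (.e (nat_lit 82065) (nat_lit 0) .nil) .nil))) 
(.lf (nat_lit 469625) (.g (nat_lit 1949) (.e (nat_lit 3307) (nat_lit 202) (.e (nat_lit 573475) (nat_lit 12) (.e (nat_lit 57574) (nat_lit 55) (.e (nat_lit 778465) (nat_lit 11) (.e (nat_lit 24601) (nat_lit 2) .nil))))) (.g (nat_lit 0) (.e (nat_lit 83280) (nat_lit 0) .nil) .nil)))) (.nd (nat_lit 9) 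
(.lf (nat_lit 469369) (.g (nat_lit 4260) (.e (nat_lit 3304) (nat_lit 202) (.e (nat_lit 573493) (nat_lit 15) (.e (nat_lit 81956) (nat_lit 23) (.e (nat_lit 98389) (nat_lit 33) (.e (nat_lit 491547) (nat_lit 9) (.e (nat_lit 336303) (nat_lit 15) .nil)))))) (.g (nat_lit 1) (.e (nat_lit 82718) (nat_lit 0) .nil) .nil))) 
(.lf (nat_lit 469881) (.g (nat_lit 3134) (.e (nat_lit 3307) (nat_lit 202) (.e (nat_lit 573485) (nat_lit 13) (.e (nat_lit 65619) (nat_lit 10) (.e (nat_lit 344129) (nat_lit 26) (.e (nat_lit 557087) (nat_lit 11) (.e (nat_lit 24623) (nat_lit 9) (.e (nat_lit 336303) (nat_lit 15) .nil))))))) (.g (nat_lit 1) (.e (nat_lit 83815) (nat_lit 0) .nil) .nil))))) (.nd (nat_lit 8) (.nd (nat_lit 9) 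
(.lf (nat_lit 469241) (.g (nat_lit 2267) (.e (nat_lit 3304) (nat_lit 202) (.e (nat_lit 573484) (nat_lit 13) (.e (nat_lit 65617) (nat_lit 10) (.e (nat_lit 344130) (nat_lit 26) (.e (nat_lit 557087) (nat_lit 11) (.e (nat_lit 24631) (nat_lit 9) (.e (nat_lit 336291) (nat_lit 15) .nil))))))) (.g (nat_lit 1) (.e (nat_lit 82323) (nat_lit 0) .nil) .nil))) 
(.lf (nat_lit 469753) (.g (nat_lit 4467) (.e (nat_lit 3307) (nat_lit 202) (.e (nat_lit 573484) (nat_lit 13) (.e (nat_lit 65617) (nat_lit 10) (.e (nat_lit 344133) (nat_lit 26) (.e (nat_lit 557085) (nat_lit 11) (.e (nat_lit 24630) (nat_lit 9) (.e (nat_lit 336306) (nat_lit 15) .nil))))))) (.g (nat_lit 1) (.e (nat_lit 83627) (nat_lit 0) .nil) .nil)))) (.nd (nat_lit 9) 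
(.lf (nat_lit 469497) (.g (nat_lit 2028) (.e (nat_lit 3305) (nat_lit 202) (.e (nat_lit 573485) (nat_lit 13) (.e (nat_lit 65604) (nat_lit 9) (.e (nat_lit 336028) (nat_lit 3) (.e (nat_lit 98325) (nat_lit 17) (.e (nat_lit 7936) (nat_lit 406) (.e (nat_lit 65641) (nat_lit 15) .nil))))))) (.g (nat_lit 1) (.e (nat_lit 83017) (nat_lit 0) .nil) .nil))) 
(.lf (nat_lit 470009) (.g (nat_lit 3021) (.e (nat_lit 3307) (nat_lit 202) (.e (nat_lit 573493) (nat_lit 15) (.e (nat_lit 81956) (nat_lit 23) (.e (nat_lit 98389) (nat_lit 33) (.e (nat_lit 491556) (nat_lit 9) (.e (nat_lit 343808) (nat_lit 15) .nil)))))) (.g (nat_lit 1) (.e (nat_lit 84280) (nat_lit 0) .nil) .nil)))))))))) 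
(.nd (nat_lit 3) (.nd (nat_lit 4) (.nd (nat_lit 5) (.nd (nat_lit 6) (.nd (nat_lit 7) 
(.nd (nat_lit 8) (.nd (nat_lit 9) 
(.lf (nat_lit 468997) (.g (nat_lit 2476) (.e (nat_lit 3302) (nat_lit 202) (.e (nat_lit 573481) (nat_lit 13) (.e (nat_lit 65630) (nat_lit 14) (.e (nat_lit 401428) (nat_lit 3) (.e (nat_lit 204877) (nat_lit 31) (.e (nat_lit 384768) (nat_lit 0) .nil)))))) (.g (nat_lit 1) (.e (nat_lit 81704) (nat_lit 0) .nil) .nil))) 
(.lf (nat_lit 469509) (.g (nat_lit 3028) (.e (nat_lit 3305) (nat_lit 202) (.e (nat_lit 573485) (nat_lit 13) (.e (nat_lit 65619) (nat_lit 10) (.e (nat_lit 344117) (nat_lit 21) (.e (nat_lit 516185) (nat_lit 16) (.e (nat_lit 491552) (nat_lit 9) (.e (nat_lit 336291) (nat_lit 15) .nil))))))) (.g (nat_lit 1) (.e (nat_lit 83029) (nat_lit 0) .nil) .nil)))) (.nd (nat_lit 9) 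
(.lf (nat_lit 469253) (.g (nat_lit 5222) (.e (nat_lit 3304) (nat_lit 202) (.e (nat_lit 573484) (nat_lit 13) (.e (nat_lit 65617) (nat_lit 10) (.e (nat_lit 344132) (nat_lit 26) (.e (nat_lit 557085) (nat_lit 11) (.e (nat_lit 24630) (nat_lit 9) (.e (nat_lit 336306) (nat_lit 15) .nil))))))) (.g (nat_lit 1) (.e (nat_lit 82346) (nat_lit 0) .nil) .nil))) 
(.lf (nat_lit 469765) (.g (nat_lit 1747) (.e (nat_lit 3307) (nat_lit 202) (.e (nat_lit 573485) (nat_lit 13) (.e (nat_lit 65604) (nat_lit 9) (.e (nat_lit 336013) (nat_lit 2) (.e (nat_lit 90165) (nat_lit 12) .nil))))) (.g (nat_lit 0) (.e (nat_lit 83663) (nat_lit 0) .nil) .nil))))) (.nd (nat_lit 8) (.nd (nat_lit 9) 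
(.lf (nat_lit 469125) (.g (nat_lit 4032) (.e (nat_lit 3302) (nat_lit 202) (.e (nat_lit 573493) (nat_lit 15) (.e (nat_lit 81956) (nat_lit 23) (.e (nat_lit 98389) (nat_lit 33) (.e (nat_lit 491556) (nat_lit 9) (.e (nat_lit 343808) (nat_lit 15) .nil)))))) (.g (nat_lit 1) (.e (nat_lit 82079) (nat_lit 0) .nil) .nil))) 
(.lf (nat_lit 469637) (.g (nat_lit 4120) (.e (nat_lit 3307) (nat_lit 202) (.e (nat_lit 573477) (nat_lit 12) (.e (nat_lit 57574) (nat_lit 55) (.e (nat_lit 778465) (nat_lit 11) (.e (nat_lit 24604) (nat_lit 2) (.e (nat_lit 90176) (nat_lit 15) (.e (nat_lit 188438) (nat_lit 20) .nil))))))) (.g (nat_lit 1) (.e (nat_lit 83294) (nat_lit 0) .nil) .nil)))) (.nd (nat_lit 9) 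
(.lf (nat_lit 469381) (.g (nat_lit 891) (.e (nat_lit 3305) (nat_lit 202) (.e (nat_lit 573477) (nat_lit 12) (.e (nat_lit 57575) (nat_lit 55) (.e (nat_lit 778463) (nat_lit 11) .nil)))) (.g (nat_lit 0) (.e (nat_lit 82744) (nat_lit 0) .nil) .nil))) 
(.lf (nat_lit 469893) (.g (nat_lit 2044) (.e (nat_lit 3307) (nat_lit 202) (.e (nat_lit 573485) (nat_lit 13) (.e (nat_lit 65628) (nat_lit 14) (.e (nat_lit 401428) (nat_lit 3) (.e (nat_lit 204865) (nat_lit 28) (.e (nat_lit 360192) (nat_lit 0) .nil)))))) (.g (nat_lit 1) (.e (nat_lit 83827) (nat_lit 0) .nil) .nil)))))) (.nd (nat_lit 7) (.nd (nat_lit 8) (.nd (nat_lit 9) 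
(.lf (nat_lit 469061) (.g (nat_lit 3827) (.e (nat_lit 3302) (nat_lit 202) (.e (nat_lit 573492) (nat_lit 15) (.e (nat_lit 81956) (nat_lit 23) (.e (nat_lit 98320) (nat_lit 17) (.e (nat_lit 7587) (nat_lit 406) (.e (nat_lit 73472) (nat_lit 15) .nil)))))) (.g (nat_lit 1) (.e (nat_lit 81951) (nat_lit 0) .nil) .nil))) 
(.lf (nat_lit 469573) (.g (nat_lit 176) (.e (nat_lit 3305) (nat_lit 202) (.e (nat_lit 573493) (nat_lit 15) (.e (nat_lit 81956) (nat_lit 23) .nil))) (.g (nat_lit 0) (.e (nat_lit 83151) (nat_lit 0) .nil) .nil)))) (.nd (nat_lit 9) 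
(.lf (nat_lit 469317) (.g (nat_lit 254) (.e (nat_lit 3304) (nat_lit 202) (.e (nat_lit 573490) (nat_lit 15) (.e (nat_lit 81956) (nat_lit 23) .nil))) (.g (nat_lit 0) (.e (nat_lit 82516) (nat_lit 0) .nil) .nil))) 
(.lf (nat_lit 469829) (.g (nat_lit 1908) (.e (nat_lit 3307) (nat_lit 202) (.e (nat_lit 573485) (nat_lit 13) (.e (nat_lit 65619) (nat_lit 10) (.e (nat_lit 344117) (nat_lit 21) (.e (nat_lit 516106) (nat_lit 0) .nil))))) (.g (nat_lit 0) (.e (nat_lit 83753) (nat_lit 0) .nil) .nil))))) (.nd (nat_lit 8) (.nd (nat_lit 9) 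
(.lf (nat_lit 469189) (.g (nat_lit 2283) (.e (nat_lit 3304) (nat_lit 202) (.e (nat_lit 573482) (nat_lit 13) (.e (nat_lit 65619) (nat_lit 10) (.e (nat_lit 344117) (nat_lit 21) (.e (nat_lit 516151) (nat_lit 9) (.e (nat_lit 426142) (nat_lit 4) (.e (nat_lit 229679) (nat_lit 244) (.e (nat_lit 163850) (nat_lit 0) .nil)))))))) (.g (nat_lit 1) (.e (nat_lit 82193) (nat_lit 0) .nil) .nil))) 
(.lf (nat_lit 469701) (.g (nat_lit 1863) (.e (nat_lit 3307) (nat_lit 202) (.e (nat_lit 573484) (nat_lit 13) (.e (nat_lit 65610) (nat_lit 10) (.e (nat_lit 344117) (nat_lit 21) (.e (nat_lit 516183) (nat_lit 16) .nil))))) (.g (nat_lit 0) (.e (nat_lit 83524) (nat_lit 0) .nil) .nil)))) (.nd (nat_lit 9) 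
(.lf (nat_lit 469445) (.g (nat_lit 1170) (.e (nat_lit 3305) (nat_lit 202) (.e (nat_lit 573484) (nat_lit 13) (.e (nat_lit 65617) (nat_lit 10) (.e (nat_lit 344117) (nat_lit 21) .nil)))) (.g (nat_lit 0) (.e (nat_lit 82883) (nat_lit 0) .nil) .nil))) 
(.lf (nat_lit 469957) (.g (nat_lit 2678) (.e (nat_lit 3307) (nat_lit 202) (.e (nat_lit 573490) (nat_lit 15) (.e (nat_lit 81956) (nat_lit 23) (.e (nat_lit 98388) (nat_lit 33) .nil)))) (.g (nat_lit 0) (.e (nat_lit 84168) (nat_lit 0) .nil) .nil))))))) (.nd (nat_lit 6) (.nd (nat_lit 7) (.nd (nat_lit 8) (.nd (nat_lit 9) 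
(.lf (nat_lit 469029) (.g (nat_lit 1992) (.e (nat_lit 3302) (nat_lit 202) (.e (nat_lit 573485) (nat_lit 13) (.e (nat_lit 65619) (nat_lit 10) (.e (nat_lit 344117) (nat_lit 21) (.e (nat_lit 516106) (nat_lit 0) (.e (nat_lit 7936) (nat_lit 406) (.e (nat_lit 65636) (nat_lit 15) .nil))))))) (.g (nat_lit 1) (.e (nat_lit 81763) (nat_lit 0) .nil) .nil))) 
(.lf (nat_lit 469541) (.g (nat_lit 2876) (.e (nat_lit 3305) (nat_lit 202) (.e (nat_lit 573491) (nat_lit 15) (.e (nat_lit 81954) (nat_lit 23) (.e (nat_lit 98389) (nat_lit 33) (.e (nat_lit 491556) (nat_lit 9) (.e (nat_lit 336300) (nat_lit 15) .nil)))))) (.g (nat_lit 1) (.e (nat_lit 83097) (nat_lit 0) .nil) .nil)))) (.nd (nat_lit 9) 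
(.lf (nat_lit 469285) (.g (nat_lit 1947) (.e (nat_lit 3304) (nat_lit 202) (.e (nat_lit 573485) (nat_lit 13) (.e (nat_lit 65619) (nat_lit 10) (.e (nat_lit 344117) (nat_lit 21) (.e (nat_lit 516151) (nat_lit 9) (.e (nat_lit 426142) (nat_lit 4) (.e (nat_lit 229681) (nat_lit 244) (.e (nat_lit 163857) (nat_lit 0) .nil)))))))) (.g (nat_lit 1) (.e (nat_lit 82423) (nat_lit 0) .nil) .nil))) 
(.lf (nat_lit 469797) (.g (nat_lit 2161) (.e (nat_lit 3307) (nat_lit 202) (.e (nat_lit 573485) (nat_lit 13) (.e (nat_lit 65604) (nat_lit 9) (.e (nat_lit 336013) (nat_lit 2) (.e (nat_lit 90170) (nat_lit 13) (.e (nat_lit 172070) (nat_lit 4) (.e (nat_lit 229681) (nat_lit 244) (.e (nat_lit 163851) (nat_lit 0) .nil)))))))) (.g (nat_lit 1) (.e (nat_lit 83695) (nat_lit 0) .nil) .nil))))) 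
(.nd (nat_lit 8) (.nd (nat_lit 9) 
(.lf (nat_lit 469157) (.g (nat_lit 5719) (.e (nat_lit 3304) (nat_lit 202) (.e (nat_lit 573477) (nat_lit 12) (.e (nat_lit 57575) (nat_lit 55) (.e (nat_lit 778466) (nat_lit 11) (.e (nat_lit 24608) (nat_lit 3) (.e (nat_lit 98381) (nat_lit 31) (.e (nat_lit 466967) (nat_lit 20) .nil))))))) (.g (nat_lit 1) (.e (nat_lit 82155) (nat_lit 0) .nil) .nil))) 
(.lf (nat_lit 469669) (.g (nat_lit 3736) (.e (nat_lit 3307) (nat_lit 202) (.e (nat_lit 573477) (nat_lit 12) (.e (nat_lit 57575) (nat_lit 55) (.e (nat_lit 778466) (nat_lit 11) (.e (nat_lit 24604) (nat_lit 2) (.e (nat_lit 90176) (nat_lit 15) (.e (nat_lit 188439) (nat_lit 20) .nil))))))) (.g (nat_lit 1) (.e (nat_lit 83326) (nat_lit 0) .nil) .nil)))) (.nd (nat_lit 9) 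
(.lf (nat_lit 469413) (.g (nat_lit 3766) (.e (nat_lit 3305) (nat_lit 202) (.e (nat_lit 573482) (nat_lit 13) (.e (nat_lit 65630) (nat_lit 14) (.e (nat_lit 401428) (nat_lit 3) (.e (nat_lit 204866) (nat_lit 28) (.e (nat_lit 352262) (nat_lit 0) .nil)))))) (.g (nat_lit 1) (.e (nat_lit 82783) (nat_lit 0) .nil) .nil))) 
(.lf (nat_lit 469925) (.g (nat_lit 2989) (.e (nat_lit 3307) (nat_lit 202) (.e (nat_lit 573489) (nat_lit 14) (.e (nat_lit 73755) (nat_lit 8) (.e (nat_lit 557105) (nat_lit 14) (.e (nat_lit 180251) (nat_lit 10) (.e (nat_lit 573475) (nat_lit 12) (.e (nat_lit 57503) (nat_lit 38) (.e (nat_lit 638985) (nat_lit 5) (.e (nat_lit 2466) (nat_lit 157) .nil))))))))) (.g (nat_lit 1) (.e (nat_lit 84075) (nat_lit 0) .nil) .nil)))))) 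
(.nd (nat_lit 7) (.nd (nat_lit 8) (.nd (nat_lit 9) 
(.lf (nat_lit 469093) (.g (nat_lit 3550) (.e (nat_lit 3302) (nat_lit 202) (.e (nat_lit 573492) (nat_lit 15) (.e (nat_lit 81956) (nat_lit 23) (.e (nat_lit 98389) (nat_lit 33) (.e (nat_lit 491546) (nat_lit 9) (.e (nat_lit 336243) (nat_lit 15) .nil)))))) (.g (nat_lit 1) (.e (nat_lit 82008) (nat_lit 0) .nil) .nil))) 
(.lf (nat_lit 469605) (.g (nat_lit 1916) (.e (nat_lit 3307) (nat_lit 202) (.e (nat_lit 573470) (nat_lit 11) (.e (nat_lit 16472) (nat_lit 14) (.e (nat_lit 491537) (nat_lit 2) (.e (nat_lit 90178) (nat_lit 15) (.e (nat_lit 188440) (nat_lit 20) .nil)))))) (.g (nat_lit 1) (.e (nat_lit 83258) (nat_lit 0) .nil) .nil)))) (.nd (nat_lit 9) 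
(.lf (nat_lit 469349) (.g (nat_lit 2581) (.e (nat_lit 3304) (nat_lit 202) (.e (nat_lit 573493) (nat_lit 15) (.e (nat_lit 81954) (nat_lit 23) (.e (nat_lit 98356) (nat_lit 26) .nil)))) (.g (nat_lit 0) (.e (nat_lit 82652) (nat_lit 0) .nil) .nil))) 
(.lf (nat_lit 469861) (.g (nat_lit 3574) (.e (nat_lit 3307) (nat_lit 202) (.e (nat_lit 573485) (nat_lit 13) (.e (nat_lit 65619) (nat_lit 10) (.e (nat_lit 344117) (nat_lit 21) (.e (nat_lit 516184) (nat_lit 16) (.e (nat_lit 491548) (nat_lit 9) (.e (nat_lit 336306) (nat_lit 15) .nil))))))) (.g (nat_lit 1) (.e (nat_lit 83789) (nat_lit 0) .nil) .nil))))) (.nd (nat_lit 8) (.nd (nat_lit 9) 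
(.lf (nat_lit 469221) (.g (nat_lit 2023) (.e (nat_lit 3304) (nat_lit 202) (.e (nat_lit 573484) (nat_lit 13) (.e (nat_lit 65610) (nat_lit 10) (.e (nat_lit 344117) (nat_lit 21) (.e (nat_lit 516185) (nat_lit 16) (.e (nat_lit 491547) (nat_lit 9) (.e (nat_lit 336303) (nat_lit 15) .nil))))))) (.g (nat_lit 1) (.e (nat_lit 82262) (nat_lit 0) .nil) .nil))) 
(.lf (nat_lit 469733) (.g (nat_lit 3574) (.e (nat_lit 3307) (nat_lit 202) (.e (nat_lit 573484) (nat_lit 13) (.e (nat_lit 65610) (nat_lit 10) (.e (nat_lit 344129) (nat_lit 26) (.e (nat_lit 557087) (nat_lit 11) (.e (nat_lit 24630) (nat_lit 9) (.e (nat_lit 336260) (nat_lit 15) .nil))))))) (.g (nat_lit 1) (.e (nat_lit 83597) (nat_lit 0) .nil) .nil)))) (.nd (nat_lit 9) 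
(.lf (nat_lit 469477) (.g (nat_lit 4419) (.e (nat_lit 3305) (nat_lit 202) (.e (nat_lit 573484) (nat_lit 13) (.e (nat_lit 65617) (nat_lit 10) (.e (nat_lit 344130) (nat_lit 26) (.e (nat_lit 557087) (nat_lit 11) (.e (nat_lit 24638) (nat_lit 9) (.e (nat_lit 336293) (nat_lit 15) .nil))))))) (.g (nat_lit 1) (.e (nat_lit 82938) (nat_lit 0) .nil) .nil))) 
(.lf (nat_lit 469989) (.g (nat_lit 4545) (.e (nat_lit 3307) (nat_lit 202) (.e (nat_lit 573493) (nat_lit 15) (.e (nat_lit 81956) (nat_lit 23) (.e (nat_lit 98350) (nat_lit 24) (.e (nat_lit 409618) (nat_lit 10) (.e (nat_lit 5363) (nat_lit 298) (.e (nat_lit 77) (nat_lit 0) .nil))))))) (.g (nat_lit 1) (.e (nat_lit 84244) (nat_lit 0) .nil) .nil)))))))) 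
(.nd (nat_lit 5) (.nd (nat_lit 6) (.nd (nat_lit 7) (.nd (nat_lit 8) (.nd (nat_lit 9) 
(.lf (nat_lit 469013) (.g (nat_lit 2094) (.e (nat_lit 3302) (nat_lit 202) (.e (nat_lit 573482) (nat_lit 13) (.e (nat_lit 65630) (nat_lit 14) (.e (nat_lit 401428) (nat_lit 3) .nil)))) (.g (nat_lit 0) (.e (nat_lit 81720) (nat_lit 0) .nil) .nil))) 
(.lf (nat_lit 469525) (.g (nat_lit 3246) (.e (nat_lit 3305) (nat_lit 202) (.e (nat_lit 573485) (nat_lit 13) (.e (nat_lit 65628) (nat_lit 14) (.e (nat_lit 401425) (nat_lit 2) (.e (nat_lit 196674) (nat_lit 15) (.e (nat_lit 81922) (nat_lit 0) .nil)))))) (.g (nat_lit 1) (.e (nat_lit 83047) (nat_lit 0) .nil) .nil)))) (.nd (nat_lit 9) 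
(.lf (nat_lit 469269) (.g (nat_lit 3535) (.e (nat_lit 3304) (nat_lit 202) (.e (nat_lit 573485) (nat_lit 13) (.e (nat_lit 65604) (nat_lit 9) (.e (nat_lit 336013) (nat_lit 2) (.e (nat_lit 90170) (nat_lit 13) (.e (nat_lit 172069) (nat_lit 4) (.e (nat_lit 229678) (nat_lit 244) (.e (nat_lit 163850) (nat_lit 0) .nil)))))))) (.g (nat_lit 1) (.e (nat_lit 82397) (nat_lit 0) .nil) .nil))) 
(.lf (nat_lit 469781) (.g (nat_lit 2554) (.e (nat_lit 3307) (nat_lit 202) (.e (nat_lit 573485) (nat_lit 13) (.e (nat_lit 65604) (nat_lit 9) (.e (nat_lit 336013) (nat_lit 2) (.e (nat_lit 90165) (nat_lit 12) (.e (nat_lit 164219) (nat_lit 180) (.e (nat_lit 229646) (nat_lit 232) (.e (nat_lit 75) (nat_lit 0) .nil)))))))) (.g (nat_lit 1) (.e (nat_lit 83679) (nat_lit 0) .nil) .nil))))) 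
(.nd (nat_lit 8) (.nd (nat_lit 9) 
(.lf (nat_lit 469141) (.g (nat_lit 2480) (.e (nat_lit 3304) (nat_lit 202) (.e (nat_lit 573477) (nat_lit 12) (.e (nat_lit 57574) (nat_lit 55) (.e (nat_lit 778466) (nat_lit 11) (.e (nat_lit 24603) (nat_lit 2) (.e (nat_lit 90176) (nat_lit 15) (.e (nat_lit 188439) (nat_lit 20) .nil))))))) (.g (nat_lit 1) (.e (nat_lit 82139) (nat_lit 0) .nil) .nil))) 
(.lf (nat_lit 469653) (.g (nat_lit 2827) (.e (nat_lit 3307) (nat_lit 202) (.e (nat_lit 573477) (nat_lit 12) (.e (nat_lit 57575) (nat_lit 55) (.e (nat_lit 778465) (nat_lit 11) (.e (nat_lit 24603) (nat_lit 2) (.e (nat_lit 90176) (nat_lit 15) (.e (nat_lit 188424) (nat_lit 20) .nil))))))) (.g (nat_lit 1) (.e (nat_lit 83310) (nat_lit 0) .nil) .nil)))) (.nd (nat_lit 9) 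
(.lf (nat_lit 469397) (.g (nat_lit 3744) (.e (nat_lit 3305) (nat_lit 202) (.e (nat_lit 573482) (nat_lit 13) (.e (nat_lit 65619) (nat_lit 10) (.e (nat_lit 344117) (nat_lit 21) (.e (nat_lit 516097) (nat_lit 0) (.e (nat_lit 7589) (nat_lit 406) (.e (nat_lit 65637) (nat_lit 15) .nil))))))) (.g (nat_lit 1) (.e (nat_lit 82762) (nat_lit 0) .nil) .nil))) 
(.lf (nat_lit 469909) (.g (nat_lit 1657) (.e (nat_lit 3307) (nat_lit 202) (.e (nat_lit 573489) (nat_lit 14) (.e (nat_lit 73755) (nat_lit 8) (.e (nat_lit 557096) (nat_lit 13) .nil)))) (.g (nat_lit 0) (.e (nat_lit 83900) (nat_lit 0) .nil) .nil)))))) (.nd (nat_lit 7) (.nd (nat_lit 8) (.nd (nat_lit 9) 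
(.lf (nat_lit 469077) (.g (nat_lit 3401) (.e (nat_lit 3302) (nat_lit 202) (.e (nat_lit 573492) (nat_lit 15) (.e (nat_lit 81956) (nat_lit 23) (.e (nat_lit 98356) (nat_lit 26) (.e (nat_lit 426439) (nat_lit 19) (.e (nat_lit 106501) (nat_lit 0) (.e (nat_lit 2505) (nat_lit 157) .nil))))))) (.g (nat_lit 1) (.e (nat_lit 81986) (nat_lit 0) .nil) .nil))) 
(.lf (nat_lit 469589) (.g (nat_lit 4416) (.e (nat_lit 3306) (nat_lit 202) (.e (nat_lit 573485) (nat_lit 13) (.e (nat_lit 65604) (nat_lit 9) (.e (nat_lit 336013) (nat_lit 2) (.e (nat_lit 90170) (nat_lit 13) (.e (nat_lit 172068) (nat_lit 4) (.e (nat_lit 229678) (nat_lit 244) (.e (nat_lit 163850) (nat_lit 0) .nil)))))))) (.g (nat_lit 1) (.e (nat_lit 83189) (nat_lit 0) .nil) .nil)))) (.nd (nat_lit 9) 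
(.lf (nat_lit 469333) (.g (nat_lit 4240) (.e (nat_lit 3304) (nat_lit 202) (.e (nat_lit 573492) (nat_lit 15) (.e (nat_lit 81956) (nat_lit 23) (.e (nat_lit 98389) (nat_lit 33) (.e (nat_lit 491552) (nat_lit 9) (.e (nat_lit 336291) (nat_lit 15) .nil)))))) (.g (nat_lit 1) (.e (nat_lit 82579) (nat_lit 0) .nil) .nil))) 
(.lf (nat_lit 469845) (.g (nat_lit 2580) (.e (nat_lit 3307) (nat_lit 202) (.e (nat_lit 573485) (nat_lit 13) (.e (nat_lit 65619) (nat_lit 10) (.e (nat_lit 344117) (nat_lit 21) (.e (nat_lit 516106) (nat_lit 0) (.e (nat_lit 7112) (nat_lit 381) (.e (nat_lit 229647) (nat_lit 232) (.e (nat_lit 27) (nat_lit 0) .nil)))))))) (.g (nat_lit 1) (.e (nat_lit 83772) (nat_lit 0) .nil) .nil))))) 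
(.nd (nat_lit 8) (.nd (nat_lit 9) 
(.lf (nat_lit 469205) (.g (nat_lit 2396) (.e (nat_lit 3304) (nat_lit 202) (.e (nat_lit 573482) (nat_lit 13) (.e (nat_lit 65624) (nat_lit 12) (.e (nat_lit 385074) (nat_lit 31) (.e (nat_lit 573491) (nat_lit 15) (.e (nat_lit 89856) (nat_lit 0) .nil)))))) (.g (nat_lit 1) (.e (nat_lit 82213) (nat_lit 0) .nil) .nil))) 
(.lf (nat_lit 469717) (.g (nat_lit 3736) (.e (nat_lit 3307) (nat_lit 202) (.e (nat_lit 573484) (nat_lit 13) (.e (nat_lit 65610) (nat_lit 10) (.e (nat_lit 344117) (nat_lit 21) (.e (nat_lit 516185) (nat_lit 16) (.e (nat_lit 491552) (nat_lit 9) (.e (nat_lit 343808) (nat_lit 15) .nil))))))) (.g (nat_lit 1) (.e (nat_lit 83540) (nat_lit 0) .nil) .nil)))) (.nd (nat_lit 9) 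
(.lf (nat_lit 469461) (.g (nat_lit 3461) (.e (nat_lit 3305) (nat_lit 202) (.e (nat_lit 573484) (nat_lit 13) (.e (nat_lit 65617) (nat_lit 10) (.e (nat_lit 344130) (nat_lit 26) (.e (nat_lit 557087) (nat_lit 11) (.e (nat_lit 24631) (nat_lit 9) (.e (nat_lit 336282) (nat_lit 15) .nil))))))) (.g (nat_lit 1) (.e (nat_lit 82922) (nat_lit 0) .nil) .nil))) 
(.lf (nat_lit 469973) (.g (nat_lit 2926) (.e (nat_lit 3307) (nat_lit 202) (.e (nat_lit 573493) (nat_lit 15) (.e (nat_lit 81954) (nat_lit 23) (.e (nat_lit 98366) (nat_lit 27) .nil)))) (.g (nat_lit 0) (.e (nat_lit 84226) (nat_lit 0) .nil) .nil))))))) (.nd (nat_lit 6) (.nd (nat_lit 7) (.nd (nat_lit 8) (.nd (nat_lit 9) 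
(.lf (nat_lit 469045) (.g (nat_lit 4670) (.e (nat_lit 3302) (nat_lit 202) (.e (nat_lit 573489) (nat_lit 14) (.e (nat_lit 73755) (nat_lit 8) (.e (nat_lit 557105) (nat_lit 14) (.e (nat_lit 180252) (nat_lit 10) (.e (nat_lit 573474) (nat_lit 12) (.e (nat_lit 57508) (nat_lit 39) (.e (nat_lit 647190) (nat_lit 9) (.e (nat_lit 50) (nat_lit 0) .nil))))))))) (.g (nat_lit 1) (.e (nat_lit 81821) (nat_lit 0) .nil) .nil))) 
(.lf (nat_lit 469557) (.g (nat_lit 2568) (.e (nat_lit 3305) (nat_lit 202) (.e (nat_lit 573492) (nat_lit 15) (.e (nat_lit 81956) (nat_lit 23) (.e (nat_lit 98389) (nat_lit 33) .nil)))) (.g (nat_lit 0) (.e (nat_lit 83114) (nat_lit 0) .nil) .nil)))) (.nd (nat_lit 9) 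
(.lf (nat_lit 469301) (.g (nat_lit 769) (.e (nat_lit 3304) (nat_lit 202) (.e (nat_lit 573485) (nat_lit 13) (.e (nat_lit 65628) (nat_lit 14) (.e (nat_lit 401428) (nat_lit 3) .nil)))) (.g (nat_lit 0) (.e (nat_lit 82448) (nat_lit 0) .nil) .nil))) 
(.lf (nat_lit 469813) (.g (nat_lit 3958) (.e (nat_lit 3307) (nat_lit 202) (.e (nat_lit 573485) (nat_lit 13) (.e (nat_lit 65604) (nat_lit 9) (.e (nat_lit 336028) (nat_lit 3) (.e (nat_lit 98366) (nat_lit 27) (.e (nat_lit 434272) (nat_lit 38) (.e (nat_lit 655364) (nat_lit 0) (.e (nat_lit 2472) (nat_lit 157) .nil)))))))) (.g (nat_lit 1) (.e (nat_lit 83726) (nat_lit 0) .nil) .nil))))) 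
(.nd (nat_lit 8) (.nd (nat_lit 9) 
(.lf (nat_lit 469173) (.g (nat_lit 3620) (.e (nat_lit 3304) (nat_lit 202) (.e (nat_lit 573482) (nat_lit 13) (.e (nat_lit 65604) (nat_lit 9) (.e (nat_lit 336013) (nat_lit 2) (.e (nat_lit 90170) (nat_lit 13) (.e (nat_lit 172070) (nat_lit 4) (.e (nat_lit 229681) (nat_lit 244) (.e (nat_lit 163850) (nat_lit 0) .nil)))))))) (.g (nat_lit 1) (.e (nat_lit 82173) (nat_lit 0) .nil) .nil))) 
(.lf (nat_lit 469685) (.g (nat_lit 3381) (.e (nat_lit 3307) (nat_lit 202) (.e (nat_lit 573484) (nat_lit 13) (.e (nat_lit 65610) (nat_lit 10) (.e (nat_lit 344117) (nat_lit 21) (.e (nat_lit 516098) (nat_lit 0) (.e (nat_lit 7587) (nat_lit 406) (.e (nat_lit 73472) (nat_lit 15) .nil))))))) (.g (nat_lit 1) (.e (nat_lit 83361) (nat_lit 0) .nil) .nil)))) (.nd (nat_lit 9) 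
(.lf (nat_lit 469429) (.g (nat_lit 2870) (.e (nat_lit 3305) (nat_lit 202) (.e (nat_lit 573484) (nat_lit 13) (.e (nat_lit 65610) (nat_lit 10) (.e (nat_lit 344117) (nat_lit 21) (.e (nat_lit 516185) (nat_lit 16) (.e (nat_lit 491555) (nat_lit 9) (.e (nat_lit 336278) (nat_lit 15) .nil))))))) (.g (nat_lit 1) (.e (nat_lit 82836) (nat_lit 0) .nil) .nil))) 
(.lf (nat_lit 469941) (.g (nat_lit 3874) (.e (nat_lit 3307) (nat_lit 202) (.e (nat_lit 573489) (nat_lit 14) (.e (nat_lit 73755) (nat_lit 8) (.e (nat_lit 557105) (nat_lit 14) (.e (nat_lit 180252) (nat_lit 10) (.e (nat_lit 573474) (nat_lit 12) (.e (nat_lit 57504) (nat_lit 38) (.e (nat_lit 638985) (nat_lit 5) (.e (nat_lit 2467) (nat_lit 157) .nil))))))))) (.g (nat_lit 1) (.e (nat_lit 84137) (nat_lit 0) .nil) .nil)))))) 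
(.nd (nat_lit 7) (.nd (nat_lit 8) (.nd (nat_lit 9) 
(.lf (nat_lit 469109) (.g (nat_lit 3911) (.e (nat_lit 3302) (nat_lit 202) (.e (nat_lit 573493) (nat_lit 15) (.e (nat_lit 81956) (nat_lit 23) (.e (nat_lit 98320) (nat_lit 17) .nil)))) (.g (nat_lit 0) (.e (nat_lit 82061) (nat_lit 0) .nil) .nil))) 
(.lf (nat_lit 469621) (.g (nat_lit 1491) (.e (nat_lit 3307) (nat_lit 202) (.e (nat_lit 573475) (nat_lit 12) (.e (nat_lit 57572) (nat_lit 54) (.e (nat_lit 770071) (nat_lit 8) (.e (nat_lit 65577) (nat_lit 5) .nil))))) (.g (nat_lit 0) (.e (nat_lit 83276) (nat_lit 0) .nil) .nil)))) (.nd (nat_lit 9) 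
(.lf (nat_lit 469365) (.g (nat_lit 3649) (.e (nat_lit 3304) (nat_lit 202) (.e (nat_lit 573493) (nat_lit 15) (.e (nat_lit 81956) (nat_lit 23) (.e (nat_lit 98389) (nat_lit 33) (.e (nat_lit 491546) (nat_lit 9) .nil))))) (.g (nat_lit 0) (.e (nat_lit 82714) (nat_lit 0) .nil) .nil))) 
(.lf (nat_lit 469877) (.g (nat_lit 4397) (.e (nat_lit 3307) (nat_lit 202) (.e (nat_lit 573485) (nat_lit 13) (.e (nat_lit 65619) (nat_lit 10) (.e (nat_lit 344129) (nat_lit 26) (.e (nat_lit 557086) (nat_lit 11) (.e (nat_lit 24630) (nat_lit 9) (.e (nat_lit 336306) (nat_lit 15) .nil))))))) (.g (nat_lit 1) (.e (nat_lit 83811) (nat_lit 0) .nil) .nil))))) (.nd (nat_lit 8) (.nd (nat_lit 9) 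
(.lf (nat_lit 469237) (.g (nat_lit 2630) (.e (nat_lit 3304) (nat_lit 202) (.e (nat_lit 573484) (nat_lit 13) (.e (nat_lit 65617) (nat_lit 10) (.e (nat_lit 344130) (nat_lit 26) (.e (nat_lit 557087) (nat_lit 11) (.e (nat_lit 24627) (nat_lit 9) (.e (nat_lit 336306) (nat_lit 15) .nil))))))) (.g (nat_lit 1) (.e (nat_lit 82319) (nat_lit 0) .nil) .nil))) 
(.lf (nat_lit 469749) (.g (nat_lit 3078) (.e (nat_lit 3307) (nat_lit 202) (.e (nat_lit 573484) (nat_lit 13) (.e (nat_lit 65617) (nat_lit 10) (.e (nat_lit 344132) (nat_lit 26) (.e (nat_lit 557085) (nat_lit 11) (.e (nat_lit 24627) (nat_lit 9) (.e (nat_lit 336306) (nat_lit 15) .nil))))))) (.g (nat_lit 1) (.e (nat_lit 83621) (nat_lit 0) .nil) .nil)))) (.nd (nat_lit 9) 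
(.lf (nat_lit 469493) (.g (nat_lit 2252) (.e (nat_lit 3305) (nat_lit 202) (.e (nat_lit 573485) (nat_lit 13) (.e (nat_lit 65604) (nat_lit 9) (.e (nat_lit 336013) (nat_lit 2) (.e (nat_lit 90165) (nat_lit 12) (.e (nat_lit 164208) (nat_lit 176) (.e (nat_lit 2782) (nat_lit 178) (.e (nat_lit 286764) (nat_lit 15) .nil)))))))) (.g (nat_lit 1) (.e (nat_lit 83011) (nat_lit 0) .nil) .nil))) 
(.lf (nat_lit 470005) (.g (nat_lit 3664) (.e (nat_lit 3307) (nat_lit 202) (.e (nat_lit 573493) (nat_lit 15) (.e (nat_lit 81956) (nat_lit 23) (.e (nat_lit 98389) (nat_lit 33) (.e (nat_lit 491548) (nat_lit 9) (.e (nat_lit 336306) (nat_lit 15) .nil)))))) (.g (nat_lit 1) (.e (nat_lit 84276) (nat_lit 0) .nil) .nil))))))))) 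
(.nd (nat_lit 4) (.nd (nat_lit 5) (.nd (nat_lit 6) (.nd (nat_lit 7) (.nd (nat_lit 8) 
(.nd (nat_lit 9) 
(.lf (nat_lit 469005) (.g (nat_lit 2314) (.e (nat_lit 3302) (nat_lit 202) (.e (nat_lit 573482) (nat_lit 13) (.e (nat_lit 65619) (nat_lit 10) (.e (nat_lit 344126) (nat_lit 25) (.e (nat_lit 548874) (nat_lit 5) .nil))))) (.g (nat_lit 0) (.e (nat_lit 81712) (nat_lit 0) .nil) .nil))) 
(.lf (nat_lit 469517) (.g (nat_lit 3037) (.e (nat_lit 3305) (nat_lit 202) (.e (nat_lit 573485) (nat_lit 13) (.e (nat_lit 65619) (nat_lit 10) (.e (nat_lit 344129) (nat_lit 26) (.e (nat_lit 557087) (nat_lit 11) (.e (nat_lit 24632) (nat_lit 9) (.e (nat_lit 336294) (nat_lit 15) .nil))))))) (.g (nat_lit 1) (.e (nat_lit 83037) (nat_lit 0) .nil) .nil)))) (.nd (nat_lit 9) 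
(.lf (nat_lit 469261) (.g (nat_lit 2467) (.e (nat_lit 3304) (nat_lit 202) (.e (nat_lit 573484) (nat_lit 13) (.e (nat_lit 65624) (nat_lit 12) (.e (nat_lit 385074) (nat_lit 31) (.e (nat_lit 573491) (nat_lit 15) (.e (nat_lit 81924) (nat_lit 0) .nil)))))) (.g (nat_lit 1) (.e (nat_lit 82370) (nat_lit 0) .nil) .nil))) 
(.lf (nat_lit 469773) (.g (nat_lit 3878) (.e (nat_lit 3307) (nat_lit 202) (.e (nat_lit 573485) (nat_lit 13) (.e (nat_lit 65604) (nat_lit 9) (.e (nat_lit 336013) (nat_lit 2) (.e (nat_lit 90165) (nat_lit 12) (.e (nat_lit 164210) (nat_lit 176) (.e (nat_lit 2789) (nat_lit 179) (.e (nat_lit 294966) (nat_lit 15) .nil)))))))) (.g (nat_lit 1) (.e (nat_lit 83671) (nat_lit 0) .nil) .nil))))) 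
(.nd (nat_lit 8) (.nd (nat_lit 9) 
(.lf (nat_lit 469133) (.g (nat_lit 3899) (.e (nat_lit 3304) (nat_lit 202) (.e (nat_lit 573471) (nat_lit 11) (.e (nat_lit 16470) (nat_lit 14) (.e (nat_lit 491538) (nat_lit 3) .nil)))) (.g (nat_lit 0) (.e (nat_lit 82130) (nat_lit 0) .nil) .nil))) 
(.lf (nat_lit 469645) (.g (nat_lit 5108) (.e (nat_lit 3307) (nat_lit 202) (.e (nat_lit 573477) (nat_lit 12) (.e (nat_lit 57574) (nat_lit 55) (.e (nat_lit 778466) (nat_lit 11) (.e (nat_lit 24604) (nat_lit 2) (.e (nat_lit 90176) (nat_lit 15) (.e (nat_lit 188439) (nat_lit 20) .nil))))))) (.g (nat_lit 1) (.e (nat_lit 83302) (nat_lit 0) .nil) .nil)))) (.nd (nat_lit 9) 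
(.lf (nat_lit 469389) (.g (nat_lit 2781) (.e (nat_lit 3305) (nat_lit 202) (.e (nat_lit 573480) (nat_lit 13) (.e (nat_lit 65630) (nat_lit 14) (.e (nat_lit 401428) (nat_lit 3) (.e (nat_lit 204876) (nat_lit 31) (.e (nat_lit 376835) (nat_lit 0) .nil)))))) (.g (nat_lit 1) (.e (nat_lit 82753) (nat_lit 0) .nil) .nil))) 
(.lf (nat_lit 469901) (.g (nat_lit 808) (.e (nat_lit 3307) (nat_lit 202) (.e (nat_lit 573489) (nat_lit 14) (.e (nat_lit 73737) (nat_lit 0) .nil))) (.g (nat_lit 0) (.e (nat_lit 83859) (nat_lit 0) .nil) .nil)))))) (.nd (nat_lit 7) (.nd (nat_lit 8) (.nd (nat_lit 9) 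
(.lf (nat_lit 469069) (.g (nat_lit 2147) (.e (nat_lit 3302) (nat_lit 202) (.e (nat_lit 573492) (nat_lit 15) (.e (nat_lit 81956) (nat_lit 23) (.e (nat_lit 98350) (nat_lit 24) .nil)))) (.g (nat_lit 0) (.e (nat_lit 81969) (nat_lit 0) .nil) .nil))) 
(.lf (nat_lit 469581) (.g (nat_lit 2824) (.e (nat_lit 3305) (nat_lit 202) (.e (nat_lit 573493) (nat_lit 15) (.e (nat_lit 81956) (nat_lit 23) (.e (nat_lit 98389) (nat_lit 33) (.e (nat_lit 491546) (nat_lit 9) (.e (nat_lit 336282) (nat_lit 15) .nil)))))) (.g (nat_lit 1) (.e (nat_lit 83165) (nat_lit 0) .nil) .nil)))) (.nd (nat_lit 9) 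
(.lf (nat_lit 469325) (.g (nat_lit 2155) (.e (nat_lit 3304) (nat_lit 202) (.e (nat_lit 573492) (nat_lit 15) (.e (nat_lit 81956) (nat_lit 23) (.e (nat_lit 98385) (nat_lit 32) .nil)))) (.g (nat_lit 0) (.e (nat_lit 82571) (nat_lit 0) .nil) .nil))) 
(.lf (nat_lit 469837) (.g (nat_lit 4272) (.e (nat_lit 3307) (nat_lit 202) (.e (nat_lit 573485) (nat_lit 13) (.e (nat_lit 65619) (nat_lit 10) (.e (nat_lit 344117) (nat_lit 21) (.e (nat_lit 516106) (nat_lit 0) (.e (nat_lit 7008) (nat_lit 377) (.e (nat_lit 2789) (nat_lit 179) (.e (nat_lit 294966) (nat_lit 15) .nil)))))))) (.g (nat_lit 1) (.e (nat_lit 83762) (nat_lit 0) .nil) .nil))))) 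
(.nd (nat_lit 8) (.nd (nat_lit 9) 
(.lf (nat_lit 469197) (.g (nat_lit 1099) (.e (nat_lit 3304) (nat_lit 202) (.e (nat_lit 573482) (nat_lit 13) (.e (nat_lit 65619) (nat_lit 10) (.e (nat_lit 344129) (nat_lit 26) .nil)))) (.g (nat_lit 0) (.e (nat_lit 82203) (nat_lit 0) .nil) .nil))) 
(.lf (nat_lit 469709) (.g (nat_lit 3363) (.e (nat_lit 3307) (nat_lit 202) (.e (nat_lit 573484) (nat_lit 13) (.e (nat_lit 65610) (nat_lit 10) (.e (nat_lit 344117) (nat_lit 21) (.e (nat_lit 516184) (nat_lit 16) (.e (nat_lit 491550) (nat_lit 9) (.e (nat_lit 336260) (nat_lit 15) .nil))))))) (.g (nat_lit 1) (.e (nat_lit 83532) (nat_lit 0) .nil) .nil)))) (.nd (nat_lit 9) 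
(.lf (nat_lit 469453) (.g (nat_lit 2302) (.e (nat_lit 3305) (nat_lit 202) (.e (nat_lit 573484) (nat_lit 13) (.e (nat_lit 65617) (nat_lit 10) (.e (nat_lit 344130) (nat_lit 26) (.e (nat_lit 557087) (nat_lit 11) (.e (nat_lit 24623) (nat_lit 9) (.e (nat_lit 336291) (nat_lit 15) .nil))))))) (.g (nat_lit 1) (.e (nat_lit 82914) (nat_lit 0) .nil) .nil))) 
(.lf (nat_lit 469965) (.g (nat_lit 3450) (.e (nat_lit 3307) (nat_lit 202) (.e (nat_lit 573491) (nat_lit 15) (.e (nat_lit 81956) (nat_lit 23) (.e (nat_lit 98389) (nat_lit 33) (.e (nat_lit 491549) (nat_lit 9) .nil))))) (.g (nat_lit 0) (.e (nat_lit 84182) (nat_lit 0) .nil) .nil))))))) (.nd (nat_lit 6) (.nd (nat_lit 7) (.nd (nat_lit 8) (.nd (nat_lit 9) 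
(.lf (nat_lit 469037) (.g (nat_lit 1515) (.e (nat_lit 3302) (nat_lit 202) (.e (nat_lit 573485) (nat_lit 13) (.e (nat_lit 65630) (nat_lit 14) (.e (nat_lit 401428) (nat_lit 3) (.e (nat_lit 204866) (nat_lit 28) (.e (nat_lit 360192) (nat_lit 0) .nil)))))) (.g (nat_lit 1) (.e (nat_lit 81771) (nat_lit 0) .nil) .nil))) 
(.lf (nat_lit 469549) (.g (nat_lit 4699) (.e (nat_lit 3305) (nat_lit 202) (.e (nat_lit 573492) (nat_lit 15) (.e (nat_lit 81953) (nat_lit 22) (.e (nat_lit 98048) (nat_lit 18) .nil)))) (.g (nat_lit 0) (.e (nat_lit 83106) (nat_lit 0) .nil) .nil)))) (.nd (nat_lit 9) 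
(.lf (nat_lit 469293) (.g (nat_lit 1057) (.e (nat_lit 3304) (nat_lit 202) (.e (nat_lit 573485) (nat_lit 13) (.e (nat_lit 65619) (nat_lit 10) (.e (nat_lit 344126) (nat_lit 25) .nil)))) (.g (nat_lit 0) (.e (nat_lit 82431) (nat_lit 0) .nil) .nil))) 
(.lf (nat_lit 469805) (.g (nat_lit 4332) (.e (nat_lit 3307) (nat_lit 202) (.e (nat_lit 573485) (nat_lit 13) (.e (nat_lit 65604) (nat_lit 9) (.e (nat_lit 336028) (nat_lit 3) (.e (nat_lit 98325) (nat_lit 17) (.e (nat_lit 6986) (nat_lit 377) (.e (nat_lit 2781) (nat_lit 178) (.e (nat_lit 286765) (nat_lit 15) .nil)))))))) (.g (nat_lit 1) (.e (nat_lit 83703) (nat_lit 0) .nil) .nil))))) 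
(.nd (nat_lit 8) (.nd (nat_lit 9) 
(.lf (nat_lit 469165) (.g (nat_lit 2306) (.e (nat_lit 3304) (nat_lit 202) (.e (nat_lit 573482) (nat_lit 13) (.e (nat_lit 65604) (nat_lit 9) (.e (nat_lit 336013) (nat_lit 2) (.e (nat_lit 90165) (nat_lit 12) (.e (nat_lit 171776) (nat_lit 191) (.e (nat_lit 65640) (nat_lit 15) .nil))))))) (.g (nat_lit 1) (.e (nat_lit 82165) (nat_lit 0) .nil) .nil))) 
(.lf (nat_lit 469677) (.g (nat_lit 1978) (.e (nat_lit 3307) (nat_lit 202) (.e (nat_lit 573482) (nat_lit 13) (.e (nat_lit 65604) (nat_lit 9) (.e (nat_lit 336028) (nat_lit 3) .nil)))) (.g (nat_lit 0) (.e (nat_lit 83339) (nat_lit 0) .nil) .nil)))) (.nd (nat_lit 9) 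
(.lf (nat_lit 469421) (.g (nat_lit 1947) (.e (nat_lit 3305) (nat_lit 202) (.e (nat_lit 573484) (nat_lit 13) (.e (nat_lit 65610) (nat_lit 10) (.e (nat_lit 344117) (nat_lit 21) (.e (nat_lit 516106) (nat_lit 0) .nil))))) (.g (nat_lit 0) (.e (nat_lit 82821) (nat_lit 0) .nil) .nil))) 
(.lf (nat_lit 469933) (.g (nat_lit 5373) (.e (nat_lit 3307) (nat_lit 202) (.e (nat_lit 573489) (nat_lit 14) (.e (nat_lit 73755) (nat_lit 8) (.e (nat_lit 557105) (nat_lit 14) (.e (nat_lit 180252) (nat_lit 10) (.e (nat_lit 573474) (nat_lit 12) (.e (nat_lit 57503) (nat_lit 38) (.e (nat_lit 638983) (nat_lit 5) (.e (nat_lit 2461) (nat_lit 157) .nil))))))))) (.g (nat_lit 1) (.e (nat_lit 84129) (nat_lit 0) .nil) .nil)))))) 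
(.nd (nat_lit 7) (.nd (nat_lit 8) (.nd (nat_lit 9) 
(.lf (nat_lit 469101) (.g (nat_lit 3986) (.e (nat_lit 3302) (nat_lit 202) (.e (nat_lit 573492) (nat_lit 15) (.e (nat_lit 81956) (nat_lit 23) (.e (nat_lit 98389) (nat_lit 33) (.e (nat_lit 491556) (nat_lit 9) (.e (nat_lit 336246) (nat_lit 15) .nil)))))) (.g (nat_lit 1) (.e (nat_lit 82016) (nat_lit 0) .nil) .nil))) 
(.lf (nat_lit 469613) (.g (nat_lit 7069) (.e (nat_lit 3307) (nat_lit 202) (.e (nat_lit 573471) (nat_lit 11) (.e (nat_lit 16470) (nat_lit 14) (.e (nat_lit 491537) (nat_lit 2) (.e (nat_lit 90178) (nat_lit 15) .nil))))) (.g (nat_lit 0) (.e (nat_lit 83267) (nat_lit 0) .nil) .nil)))) (.nd (nat_lit 9) 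
(.lf (nat_lit 469357) (.g (nat_lit 1840) (.e (nat_lit 3304) (nat_lit 202) (.e (nat_lit 573493) (nat_lit 15) (.e (nat_lit 81956) (nat_lit 23) (.e (nat_lit 98366) (nat_lit 27) .nil)))) (.g (nat_lit 0) (.e (nat_lit 82701) (nat_lit 0) .nil) .nil))) 
(.lf (nat_lit 469869) (.g (nat_lit 3259) (.e (nat_lit 3307) (nat_lit 202) (.e (nat_lit 573485) (nat_lit 13) (.e (nat_lit 65619) (nat_lit 10) (.e (nat_lit 344117) (nat_lit 21) (.e (nat_lit 516185) (nat_lit 16) (.e (nat_lit 491552) (nat_lit 9) (.e (nat_lit 343808) (nat_lit 15) .nil))))))) (.g (nat_lit 1) (.e (nat_lit 83797) (nat_lit 0) .nil) .nil))))) (.nd (nat_lit 8) (.nd (nat_lit 9) 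
(.lf (nat_lit 469229) (.g (nat_lit 3321) (.e (nat_lit 3304) (nat_lit 202) (.e (nat_lit 573484) (nat_lit 13) (.e (nat_lit 65617) (nat_lit 10) (.e (nat_lit 344130) (nat_lit 26) (.e (nat_lit 557086) (nat_lit 11) (.e (nat_lit 24627) (nat_lit 9) (.e (nat_lit 336306) (nat_lit 15) .nil))))))) (.g (nat_lit 1) (.e (nat_lit 82311) (nat_lit 0) .nil) .nil))) 
(.lf (nat_lit 469741) (.g (nat_lit 4218) (.e (nat_lit 3307) (nat_lit 202) (.e (nat_lit 573484) (nat_lit 13) (.e (nat_lit 65617) (nat_lit 10) (.e (nat_lit 344130) (nat_lit 26) (.e (nat_lit 557085) (nat_lit 11) (.e (nat_lit 24630) (nat_lit 9) (.e (nat_lit 336306) (nat_lit 15) .nil))))))) (.g (nat_lit 1) (.e (nat_lit 83609) (nat_lit 0) .nil) .nil)))) (.nd (nat_lit 9) 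
(.lf (nat_lit 469485) (.g (nat_lit 3873) (.e (nat_lit 3305) (nat_lit 202) (.e (nat_lit 573484) (nat_lit 13) (.e (nat_lit 65624) (nat_lit 12) (.e (nat_lit 385074) (nat_lit 31) (.e (nat_lit 573493) (nat_lit 15) (.e (nat_lit 81922) (nat_lit 0) .nil)))))) (.g (nat_lit 1) (.e (nat_lit 82989) (nat_lit 0) .nil) .nil))) 
(.lf (nat_lit 469997) (.g (nat_lit 4716) (.e (nat_lit 3307) (nat_lit 202) (.e (nat_lit 573493) (nat_lit 15) (.e (nat_lit 81956) (nat_lit 23) (.e (nat_lit 98388) (nat_lit 33) (.e (nat_lit 491549) (nat_lit 9) (.e (nat_lit 336306) (nat_lit 15) .nil)))))) (.g (nat_lit 1) (.e (nat_lit 84268) (nat_lit 0) .nil) .nil)))))))) 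
(.nd (nat_lit 5) (.nd (nat_lit 6) (.nd (nat_lit 7) (.nd (nat_lit 8) (.nd (nat_lit 9) 
(.lf (nat_lit 469021) (.g (nat_lit 3217) (.e (nat_lit 3302) (nat_lit 202) (.e (nat_lit 573484) (nat_lit 13) (.e (nat_lit 65610) (nat_lit 10) (.e (nat_lit 344129) (nat_lit 26) (.e (nat_lit 557087) (nat_lit 11) (.e (nat_lit 24625) (nat_lit 9) (.e (nat_lit 336284) (nat_lit 15) .nil))))))) (.g (nat_lit 1) (.e (nat_lit 81743) (nat_lit 0) .nil) .nil))) 
(.lf (nat_lit 469533) (.g (nat_lit 877) (.e (nat_lit 3305) (nat_lit 202) (.e (nat_lit 573487) (nat_lit 14) (.e (nat_lit 73786) (nat_lit 45) .nil))) (.g (nat_lit 0) (.e (nat_lit 83059) (nat_lit 0) .nil) .nil)))) (.nd (nat_lit 9) 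
(.lf (nat_lit 469277) (.g (nat_lit 2347) (.e (nat_lit 3304) (nat_lit 202) (.e (nat_lit 573485) (nat_lit 13) (.e (nat_lit 65619) (nat_lit 10) (.e (nat_lit 344117) (nat_lit 21) (.e (nat_lit 516106) (nat_lit 0) (.e (nat_lit 6986) (nat_lit 377) (.e (nat_lit 2781) (nat_lit 178) (.e (nat_lit 286764) (nat_lit 15) .nil)))))))) (.g (nat_lit 1) (.e (nat_lit 82415) (nat_lit 0) .nil) .nil))) 
(.lf (nat_lit 469789) (.g (nat_lit 2919) (.e (nat_lit 3307) (nat_lit 202) (.e (nat_lit 573485) (nat_lit 13) (.e (nat_lit 65604) (nat_lit 9) (.e (nat_lit 336013) (nat_lit 2) (.e (nat_lit 90170) (nat_lit 13) (.e (nat_lit 172049) (nat_lit 0) (.e (nat_lit 3408) (nat_lit 212) (.e (nat_lit 655364) (nat_lit 0) (.e (nat_lit 2472) (nat_lit 157) .nil))))))))) (.g (nat_lit 1) (.e (nat_lit 83687) (nat_lit 0) .nil) .nil))))) 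
(.nd (nat_lit 8) (.nd (nat_lit 9) 
(.lf (nat_lit 469149) (.g (nat_lit 4453) (.e (nat_lit 3304) (nat_lit 202) (.e (nat_lit 573477) (nat_lit 12) (.e (nat_lit 57575) (nat_lit 55) (.e (nat_lit 778465) (nat_lit 11) (.e (nat_lit 24604) (nat_lit 2) (.e (nat_lit 90176) (nat_lit 15) (.e (nat_lit 188439) (nat_lit 20) .nil))))))) (.g (nat_lit 1) (.e (nat_lit 82147) (nat_lit 0) .nil) .nil))) 
(.lf (nat_lit 469661) (.g (nat_lit 3835) (.e (nat_lit 3307) (nat_lit 202) (.e (nat_lit 573477) (nat_lit 12) (.e (nat_lit 57575) (nat_lit 55) (.e (nat_lit 778465) (nat_lit 11) (.e (nat_lit 24604) (nat_lit 2) (.e (nat_lit 90178) (nat_lit 15) (.e (nat_lit 188441) (nat_lit 20) .nil))))))) (.g (nat_lit 1) (.e (nat_lit 83318) (nat_lit 0) .nil) .nil)))) (.nd (nat_lit 9) 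
(.lf (nat_lit 469405) (.g (nat_lit 3410) (.e (nat_lit 3305) (nat_lit 202) (.e (nat_lit 573482) (nat_lit 13) (.e (nat_lit 65624) (nat_lit 12) (.e (nat_lit 385074) (nat_lit 31) (.e (nat_lit 573491) (nat_lit 15) (.e (nat_lit 81922) (nat_lit 0) .nil)))))) (.g (nat_lit 1) (.e (nat_lit 82774) (nat_lit 0) .nil) .nil))) 
(.lf (nat_lit 469917) (.g (nat_lit 1594) (.e (nat_lit 3307) (nat_lit 202) (.e (nat_lit 573489) (nat_lit 14) (.e (nat_lit 73755) (nat_lit 8) (.e (nat_lit 557103) (nat_lit 14) .nil)))) (.g (nat_lit 0) (.e (nat_lit 83941) (nat_lit 0) .nil) .nil)))))) (.nd (nat_lit 7) (.nd (nat_lit 8) (.nd (nat_lit 9) 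
(.lf (nat_lit 469085) (.g (nat_lit 2530) (.e (nat_lit 3302) (nat_lit 202) (.e (nat_lit 573492) (nat_lit 15) (.e (nat_lit 81956) (nat_lit 23) (.e (nat_lit 98385) (nat_lit 32) (.e (nat_lit 475208) (nat_lit 41) .nil))))) (.g (nat_lit 0) (.e (nat_lit 82000) (nat_lit 0) .nil) .nil))) 
(.lf (nat_lit 469597) (.g (nat_lit 2951) (.e (nat_lit 3307) (nat_lit 202) (.e (nat_lit 573469) (nat_lit 11) (.e (nat_lit 16460) (nat_lit 12) (.e (nat_lit 475185) (nat_lit 29) (.e (nat_lit 557107) (nat_lit 15) (.e (nat_lit 188440) (nat_lit 20) .nil)))))) (.g (nat_lit 1) (.e (nat_lit 83250) (nat_lit 0) .nil) .nil)))) (.nd (nat_lit 9) 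
(.lf (nat_lit 469341) (.g (nat_lit 4856) (.e (nat_lit 3304) (nat_lit 202) (.e (nat_lit 573493) (nat_lit 15) (.e (nat_lit 81953) (nat_lit 22) (.e (nat_lit 90168) (nat_lit 13) .nil)))) (.g (nat_lit 0) (.e (nat_lit 82635) (nat_lit 0) .nil) .nil))) 
(.lf (nat_lit 469853) (.g (nat_lit 3633) (.e (nat_lit 3307) (nat_lit 202) (.e (nat_lit 573485) (nat_lit 13) (.e (nat_lit 65619) (nat_lit 10) (.e (nat_lit 344117) (nat_lit 21) (.e (nat_lit 516151) (nat_lit 9) (.e (nat_lit 426043) (nat_lit 0) (.e (nat_lit 3409) (nat_lit 212) (.e (nat_lit 655364) (nat_lit 0) (.e (nat_lit 2472) (nat_lit 157) .nil))))))))) (.g (nat_lit 1) (.e (nat_lit 83781) (nat_lit 0) .nil) .nil))))) 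
(.nd (nat_lit 8) (.nd (nat_lit 9) 
(.lf (nat_lit 469213) (.g (nat_lit 2253) (.e (nat_lit 3304) (nat_lit 202) (.e (nat_lit 573482) (nat_lit 13) (.e (nat_lit 65630) (nat_lit 14) (.e (nat_lit 401425) (nat_lit 2) (.e (nat_lit 196674) (nat_lit 15) (.e (nat_lit 81922) (nat_lit 0) .nil)))))) (.g (nat_lit 1) (.e (nat_lit 82221) (nat_lit 0) .nil) .nil))) 
(.lf (nat_lit 469725) (.g (nat_lit 4490) (.e (nat_lit 3307) (nat_lit 202) (.e (nat_lit 573484) (nat_lit 13) (.e (nat_lit 65610) (nat_lit 10) (.e (nat_lit 344129) (nat_lit 26) (.e (nat_lit 557086) (nat_lit 11) (.e (nat_lit 24630) (nat_lit 9) (.e (nat_lit 336306) (nat_lit 15) .nil))))))) (.g (nat_lit 1) (.e (nat_lit 83588) (nat_lit 0) .nil) .nil)))) (.nd (nat_lit 9) 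
(.lf (nat_lit 469469) (.g (nat_lit 2862) (.e (nat_lit 3305) (nat_lit 202) (.e (nat_lit 573484) (nat_lit 13) (.e (nat_lit 65617) (nat_lit 10) (.e (nat_lit 344130) (nat_lit 26) (.e (nat_lit 557087) (nat_lit 11) (.e (nat_lit 24636) (nat_lit 9) (.e (nat_lit 336275) (nat_lit 15) .nil))))))) (.g (nat_lit 1) (.e (nat_lit 82930) (nat_lit 0) .nil) .nil))) 
(.lf (nat_lit 469981) (.g (nat_lit 3892) (.e (nat_lit 3307) (nat_lit 202) (.e (nat_lit 573493) (nat_lit 15) (.e (nat_lit 81956) (nat_lit 23) (.e (nat_lit 98321) (nat_lit 17) .nil)))) (.g (nat_lit 0) (.e (nat_lit 84236) (nat_lit 0) .nil) .nil))))))) (.nd (nat_lit 6) (.nd (nat_lit 7) (.nd (nat_lit 8) (.nd (nat_lit 9) 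
(.lf (nat_lit 469053) (.g (nat_lit 3596) (.e (nat_lit 3302) (nat_lit 202) (.e (nat_lit 573492) (nat_lit 15) (.e (nat_lit 81954) (nat_lit 23) (.e (nat_lit 98384) (nat_lit 32) (.e (nat_lit 475210) (nat_lit 41) (.e (nat_lit 712722) (nat_lit 15) .nil)))))) (.g (nat_lit 1) (.e (nat_lit 81943) (nat_lit 0) .nil) .nil))) 
(.lf (nat_lit 469565) (.g (nat_lit 5440) (.e (nat_lit 3305) (nat_lit 202) (.e (nat_lit 573493) (nat_lit 15) (.e (nat_lit 81953) (nat_lit 22) (.e (nat_lit 90192) (nat_lit 18) .nil)))) (.g (nat_lit 0) (.e (nat_lit 83142) (nat_lit 0) .nil) .nil)))) (.nd (nat_lit 9) 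
(.lf (nat_lit 469309) (.g (nat_lit 2648) (.e (nat_lit 3304) (nat_lit 202) (.e (nat_lit 573489) (nat_lit 14) (.e (nat_lit 73755) (nat_lit 8) (.e (nat_lit 557097) (nat_lit 13) (.e (nat_lit 179968) (nat_lit 18) (.e (nat_lit 98334) (nat_lit 18) (.e (nat_lit 164330) (nat_lit 230) (.e (nat_lit 163853) (nat_lit 0) .nil)))))))) (.g (nat_lit 1) (.e (nat_lit 82470) (nat_lit 0) .nil) .nil))) 
(.lf (nat_lit 469821) (.g (nat_lit 3340) (.e (nat_lit 3307) (nat_lit 202) (.e (nat_lit 573485) (nat_lit 13) (.e (nat_lit 65619) (nat_lit 10) (.e (nat_lit 344117) (nat_lit 21) (.e (nat_lit 516097) (nat_lit 0) (.e (nat_lit 7589) (nat_lit 406) (.e (nat_lit 73472) (nat_lit 15) .nil))))))) (.g (nat_lit 1) (.e (nat_lit 83745) (nat_lit 0) .nil) .nil))))) (.nd (nat_lit 8) (.nd (nat_lit 9) 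
(.lf (nat_lit 469181) (.g (nat_lit 2263) (.e (nat_lit 3304) (nat_lit 202) (.e (nat_lit 573482) (nat_lit 13) (.e (nat_lit 65619) (nat_lit 10) (.e (nat_lit 344117) (nat_lit 21) (.e (nat_lit 516102) (nat_lit 0) .nil))))) (.g (nat_lit 0) (.e (nat_lit 82185) (nat_lit 0) .nil) .nil))) 
(.lf (nat_lit 469693) (.g (nat_lit 3066) (.e (nat_lit 3307) (nat_lit 202) (.e (nat_lit 573484) (nat_lit 13) (.e (nat_lit 65610) (nat_lit 10) (.e (nat_lit 344117) (nat_lit 21) (.e (nat_lit 516106) (nat_lit 0) (.e (nat_lit 6986) (nat_lit 377) (.e (nat_lit 2779) (nat_lit 178) (.e (nat_lit 294656) (nat_lit 15) .nil)))))))) (.g (nat_lit 1) (.e (nat_lit 83372) (nat_lit 0) .nil) .nil)))) 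
(.nd (nat_lit 9) 
(.lf (nat_lit 469437) (.g (nat_lit 2588) (.e (nat_lit 3305) (nat_lit 202) (.e (nat_lit 573484) (nat_lit 13) (.e (nat_lit 65610) (nat_lit 10) (.e (nat_lit 344129) (nat_lit 26) (.e (nat_lit 557087) (nat_lit 11) (.e (nat_lit 24636) (nat_lit 9) (.e (nat_lit 336277) (nat_lit 15) .nil))))))) (.g (nat_lit 1) (.e (nat_lit 82860) (nat_lit 0) .nil) .nil))) 
(.lf (nat_lit 469949) (.g (nat_lit 3546) (.e (nat_lit 3307) (nat_lit 202) (.e (nat_lit 573489) (nat_lit 14) (.e (nat_lit 73755) (nat_lit 8) (.e (nat_lit 557105) (nat_lit 14) (.e (nat_lit 180252) (nat_lit 10) (.e (nat_lit 573475) (nat_lit 12) (.e (nat_lit 57503) (nat_lit 38) (.e (nat_lit 638985) (nat_lit 5) (.e (nat_lit 2473) (nat_lit 157) .nil))))))))) (.g (nat_lit 1) (.e (nat_lit 84154) (nat_lit 0) .nil) .nil)))))) 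
(.nd (nat_lit 7) (.nd (nat_lit 8) (.nd (nat_lit 9) 
(.lf (nat_lit 469117) (.g (nat_lit 3219) (.e (nat_lit 3302) (nat_lit 202) (.e (nat_lit 573493) (nat_lit 15) (.e (nat_lit 81956) (nat_lit 23) (.e (nat_lit 98356) (nat_lit 26) .nil)))) (.g (nat_lit 0) (.e (nat_lit 82071) (nat_lit 0) .nil) .nil))) 
(.lf (nat_lit 469629) (.g (nat_lit 5661) (.e (nat_lit 3307) (nat_lit 202) (.e (nat_lit 573475) (nat_lit 12) (.e (nat_lit 57574) (nat_lit 55) (.e (nat_lit 778466) (nat_lit 11) (.e (nat_lit 24604) (nat_lit 2) (.e (nat_lit 90176) (nat_lit 15) (.e (nat_lit 188440) (nat_lit 20) .nil))))))) (.g (nat_lit 1) (.e (nat_lit 83284) (nat_lit 0) .nil) .nil)))) (.nd (nat_lit 9) 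
(.lf (nat_lit 469373) (.g (nat_lit 4916) (.e (nat_lit 3304) (nat_lit 202) (.e (nat_lit 573493) (nat_lit 15) (.e (nat_lit 81956) (nat_lit 23) (.e (nat_lit 98389) (nat_lit 33) (.e (nat_lit 491556) (nat_lit 9) (.e (nat_lit 336300) (nat_lit 15) .nil)))))) (.g (nat_lit 1) (.e (nat_lit 82722) (nat_lit 0) .nil) .nil))) 
(.lf (nat_lit 469885) (.g (nat_lit 3475) (.e (nat_lit 3307) (nat_lit 202) (.e (nat_lit 573485) (nat_lit 13) (.e (nat_lit 65619) (nat_lit 10) (.e (nat_lit 344129) (nat_lit 26) (.e (nat_lit 557087) (nat_lit 11) (.e (nat_lit 24629) (nat_lit 9) (.e (nat_lit 336306) (nat_lit 15) .nil))))))) (.g (nat_lit 1) (.e (nat_lit 83819) (nat_lit 0) .nil) .nil))))) (.nd (nat_lit 8) (.nd (nat_lit 9) 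
(.lf (nat_lit 469245) (.g (nat_lit 2908) (.e (nat_lit 3304) (nat_lit 202) (.e (nat_lit 573484) (nat_lit 13) (.e (nat_lit 65617) (nat_lit 10) (.e (nat_lit 344130) (nat_lit 26) (.e (nat_lit 557087) (nat_lit 11) (.e (nat_lit 24632) (nat_lit 9) (.e (nat_lit 336291) (nat_lit 15) .nil))))))) (.g (nat_lit 1) (.e (nat_lit 82327) (nat_lit 0) .nil) .nil))) 
(.lf (nat_lit 469757) (.g (nat_lit 4498) (.e (nat_lit 3307) (nat_lit 202) (.e (nat_lit 573484) (nat_lit 13) (.e (nat_lit 65617) (nat_lit 10) (.e (nat_lit 344133) (nat_lit 26) (.e (nat_lit 557087) (nat_lit 11) (.e (nat_lit 24625) (nat_lit 9) (.e (nat_lit 336257) (nat_lit 15) .nil))))))) (.g (nat_lit 1) (.e (nat_lit 83631) (nat_lit 0) .nil) .nil)))) (.nd (nat_lit 9) 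
(.lf (nat_lit 469501) (.g (nat_lit 1805) (.e (nat_lit 3305) (nat_lit 202) (.e (nat_lit 573485) (nat_lit 13) (.e (nat_lit 65619) (nat_lit 10) (.e (nat_lit 344115) (nat_lit 20) (.e (nat_lit 507908) (nat_lit 0) (.e (nat_lit 5403) (nat_lit 302) (.e (nat_lit 65642) (nat_lit 15) .nil))))))) (.g (nat_lit 1) (.e (nat_lit 83021) (nat_lit 0) .nil) .nil))) 
(.lf (nat_lit 470013) (.g (nat_lit 3189) (.e (nat_lit 3308) (nat_lit 202) (.e (nat_lit 573471) (nat_lit 11) (.e (nat_lit 16433) (nat_lit 9) (.e (nat_lit 426361) (nat_lit 15) .nil)))) (.g (nat_lit 0) (.e (nat_lit 84288) (nat_lit 0) .nil) .nil))))))))))) (.nd (nat_lit 2) (.nd (nat_lit 3) (.nd (nat_lit 4) (.nd (nat_lit 5) (.nd (nat_lit 6) (.nd (nat_lit 7) (.nd (nat_lit 8) (.nd (nat_lit 9) 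
(.lf (nat_lit 468995) (.g (nat_lit 2641) (.e (nat_lit 3302) (nat_lit 202) (.e (nat_lit 573481) (nat_lit 13) (.e (nat_lit 65630) (nat_lit 14) (.e (nat_lit 401428) (nat_lit 3) (.e (nat_lit 204876) (nat_lit 31) (.e (nat_lit 376833) (nat_lit 0) .nil)))))) (.g (nat_lit 1) (.e (nat_lit 81702) (nat_lit 0) .nil) .nil))) 
(.lf (nat_lit 469507) (.g (nat_lit 2384) (.e (nat_lit 3305) (nat_lit 202) (.e (nat_lit 573485) (nat_lit 13) (.e (nat_lit 65619) (nat_lit 10) (.e (nat_lit 344117) (nat_lit 21) (.e (nat_lit 516106) (nat_lit 0) (.e (nat_lit 7936) (nat_lit 406) (.e (nat_lit 65641) (nat_lit 15) .nil))))))) (.g (nat_lit 1) (.e (nat_lit 83027) (nat_lit 0) .nil) .nil)))) (.nd (nat_lit 9) 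
(.lf (nat_lit 469251) (.g (nat_lit 3203) (.e (nat_lit 3304) (nat_lit 202) (.e (nat_lit 573484) (nat_lit 13) (.e (nat_lit 65617) (nat_lit 10) (.e (nat_lit 344132) (nat_lit 26) (.e (nat_lit 557085) (nat_lit 11) (.e (nat_lit 24627) (nat_lit 9) (.e (nat_lit 336306) (nat_lit 15) .nil))))))) (.g (nat_lit 1) (.e (nat_lit 82344) (nat_lit 0) .nil) .nil))) 
(.lf (nat_lit 469763) (.g (nat_lit 2833) (.e (nat_lit 3307) (nat_lit 202) (.e (nat_lit 573485) (nat_lit 13) (.e (nat_lit 65604) (nat_lit 9) (.e (nat_lit 336013) (nat_lit 2) (.e (nat_lit 90134) (nat_lit 9) (.e (nat_lit 3096) (nat_lit 192) (.e (nat_lit 491550) (nat_lit 9) (.e (nat_lit 336306) (nat_lit 15) .nil)))))))) (.g (nat_lit 1) (.e (nat_lit 83661) (nat_lit 0) .nil) .nil))))) 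
(.nd (nat_lit 8) (.nd (nat_lit 9) 
(.lf (nat_lit 469123) (.g (nat_lit 4005) (.e (nat_lit 3302) (nat_lit 202) (.e (nat_lit 573493) (nat_lit 15) (.e (nat_lit 81956) (nat_lit 23) (.e (nat_lit 98389) (nat_lit 33) (.e (nat_lit 491552) (nat_lit 9) .nil))))) (.g (nat_lit 0) (.e (nat_lit 82077) (nat_lit 0) .nil) .nil))) 
(.lf (nat_lit 469635) (.g (nat_lit 3242) (.e (nat_lit 3307) (nat_lit 202) (.e (nat_lit 573477) (nat_lit 12) (.e (nat_lit 57574) (nat_lit 55) (.e (nat_lit 778465) (nat_lit 11) (.e (nat_lit 24603) (nat_lit 2) (.e (nat_lit 90176) (nat_lit 15) (.e (nat_lit 188439) (nat_lit 20) .nil))))))) (.g (nat_lit 1) (.e (nat_lit 83292) (nat_lit 0) .nil) .nil)))) (.nd (nat_lit 9) 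
(.lf (nat_lit 469379) (.g (nat_lit 1377) (.e (nat_lit 3305) (nat_lit 202) (.e (nat_lit 573477) (nat_lit 12) (.e (nat_lit 57574) (nat_lit 55) (.e (nat_lit 778465) (nat_lit 11) .nil)))) (.g (nat_lit 0) (.e (nat_lit 82742) (nat_lit 0) .nil) .nil))) 
(.lf (nat_lit 469891) (.g (nat_lit 758) (.e (nat_lit 3307) (nat_lit 202) (.e (nat_lit 573485) (nat_lit 13) (.e (nat_lit 65628) (nat_lit 14) (.e (nat_lit 401428) (nat_lit 3) .nil)))) (.g (nat_lit 0) (.e (nat_lit 83825) (nat_lit 0) .nil) .nil)))))) (.nd (nat_lit 7) (.nd (nat_lit 8) (.nd (nat_lit 9) 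
(.lf (nat_lit 469059) (.g (nat_lit 1958) (.e (nat_lit 3302) (nat_lit 202) (.e (nat_lit 573492) (nat_lit 15) (.e (nat_lit 81956) (nat_lit 23) (.e (nat_lit 98320) (nat_lit 17) .nil)))) (.g (nat_lit 0) (.e (nat_lit 81949) (nat_lit 0) .nil) .nil))) 
(.lf (nat_lit 469571) (.g (nat_lit 2329) (.e (nat_lit 3305) (nat_lit 202) (.e (nat_lit 573493) (nat_lit 15) (.e (nat_lit 81954) (nat_lit 23) (.e (nat_lit 98389) (nat_lit 33) .nil)))) (.g (nat_lit 0) (.e (nat_lit 83149) (nat_lit 0) .nil) .nil)))) (.nd (nat_lit 9) 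
(.lf (nat_lit 469315) (.g (nat_lit 3243) (.e (nat_lit 3304) (nat_lit 202) (.e (nat_lit 573489) (nat_lit 14) (.e (nat_lit 73755) (nat_lit 8) (.e (nat_lit 557098) (nat_lit 13) (.e (nat_lit 179968) (nat_lit 18) (.e (nat_lit 98335) (nat_lit 18) (.e (nat_lit 164330) (nat_lit 230) (.e (nat_lit 163853) (nat_lit 0) .nil)))))))) (.g (nat_lit 1) (.e (nat_lit 82477) (nat_lit 0) .nil) .nil))) 
(.lf (nat_lit 469827) (.g (nat_lit 2795) (.e (nat_lit 3307) (nat_lit 202) (.e (nat_lit 573485) (nat_lit 13) (.e (nat_lit 65619) (nat_lit 10) (.e (nat_lit 344117) (nat_lit 21) (.e (nat_lit 516102) (nat_lit 0) (.e (nat_lit 7107) (nat_lit 380) (.e (nat_lit 164338) (nat_lit 232) (.e (nat_lit 77) (nat_lit 0) .nil)))))))) (.g (nat_lit 1) (.e (nat_lit 83751) (nat_lit 0) .nil) .nil))))) 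
(.nd (nat_lit 8) (.nd (nat_lit 9) 
(.lf (nat_lit 469187) (.g (nat_lit 2327) (.e (nat_lit 3304) (nat_lit 202) (.e (nat_lit 573482) (nat_lit 13) (.e (nat_lit 65619) (nat_lit 10) (.e (nat_lit 344117) (nat_lit 21) (.e (nat_lit 516106) (nat_lit 0) (.e (nat_lit 7936) (nat_lit 409) (.e (nat_lit 131135) (nat_lit 15) .nil))))))) (.g (nat_lit 1) (.e (nat_lit 82191) (nat_lit 0) .nil) .nil))) 
(.lf (nat_lit 469699) (.g (nat_lit 5356) (.e (nat_lit 3307) (nat_lit 202) (.e (nat_lit 573484) (nat_lit 13) (.e (nat_lit 65610) (nat_lit 10) (.e (nat_lit 344117) (nat_lit 21) (.e (nat_lit 516139) (nat_lit 7) (.e (nat_lit 409642) (nat_lit 17) (.e (nat_lit 294966) (nat_lit 15) .nil))))))) (.g (nat_lit 1) (.e (nat_lit 83400) (nat_lit 0) .nil) .nil)))) (.nd (nat_lit 9) 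
(.lf (nat_lit 469443) (.g (nat_lit 2931) (.e (nat_lit 3305) (nat_lit 202) (.e (nat_lit 573484) (nat_lit 13) (.e (nat_lit 65617) (nat_lit 10) (.e (nat_lit 344115) (nat_lit 20) (.e (nat_lit 507921) (nat_lit 6) (.e (nat_lit 286748) (nat_lit 9) (.e (nat_lit 336295) (nat_lit 15) .nil))))))) (.g (nat_lit 1) (.e (nat_lit 82880) (nat_lit 0) .nil) .nil))) 
(.lf (nat_lit 469955) (.g (nat_lit 2691) (.e (nat_lit 3307) (nat_lit 202) (.e (nat_lit 573490) (nat_lit 15) (.e (nat_lit 81956) (nat_lit 23) (.e (nat_lit 98320) (nat_lit 17) .nil)))) (.g (nat_lit 0) (.e (nat_lit 84166) (nat_lit 0) .nil) .nil))))))) (.nd (nat_lit 6) (.nd (nat_lit 7) (.nd (nat_lit 8) (.nd (nat_lit 9) 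
(.lf (nat_lit 469027) (.g (nat_lit 1298) (.e (nat_lit 3302) (nat_lit 202) (.e (nat_lit 573485) (nat_lit 13) (.e (nat_lit 65604) (nat_lit 9) (.e (nat_lit 336028) (nat_lit 3) .nil)))) (.g (nat_lit 0) (.e (nat_lit 81761) (nat_lit 0) .nil) .nil))) 
(.lf (nat_lit 469539) (.g (nat_lit 1448) (.e (nat_lit 3305) (nat_lit 202) (.e (nat_lit 573491) (nat_lit 15) (.e (nat_lit 81954) (nat_lit 23) (.e (nat_lit 98325) (nat_lit 17) (.e (nat_lit 7549) (nat_lit 402) .nil))))) (.g (nat_lit 0) (.e (nat_lit 83095) (nat_lit 0) .nil) .nil)))) (.nd (nat_lit 9) 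
(.lf (nat_lit 469283) (.g (nat_lit 2275) (.e (nat_lit 3304) (nat_lit 202) (.e (nat_lit 573485) (nat_lit 13) (.e (nat_lit 65619) (nat_lit 10) (.e (nat_lit 344117) (nat_lit 21) (.e (nat_lit 516151) (nat_lit 9) (.e (nat_lit 426142) (nat_lit 4) (.e (nat_lit 229680) (nat_lit 244) (.e (nat_lit 163850) (nat_lit 0) .nil)))))))) (.g (nat_lit 1) (.e (nat_lit 82421) (nat_lit 0) .nil) .nil))) 
(.lf (nat_lit 469795) (.g (nat_lit 2471) (.e (nat_lit 3307) (nat_lit 202) (.e (nat_lit 573485) (nat_lit 13) (.e (nat_lit 65604) (nat_lit 9) (.e (nat_lit 336013) (nat_lit 2) (.e (nat_lit 90170) (nat_lit 13) (.e (nat_lit 172070) (nat_lit 4) (.e (nat_lit 229679) (nat_lit 244) (.e (nat_lit 163851) (nat_lit 0) .nil)))))))) (.g (nat_lit 1) (.e (nat_lit 83693) (nat_lit 0) .nil) .nil))))) 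
(.nd (nat_lit 8) (.nd (nat_lit 9) 
(.lf (nat_lit 469155) (.g (nat_lit 3939) (.e (nat_lit 3304) (nat_lit 202) (.e (nat_lit 573477) (nat_lit 12) (.e (nat_lit 57575) (nat_lit 55) (.e (nat_lit 778466) (nat_lit 11) (.e (nat_lit 24604) (nat_lit 2) (.e (nat_lit 90176) (nat_lit 15) (.e (nat_lit 188439) (nat_lit 20) .nil))))))) (.g (nat_lit 1) (.e (nat_lit 82153) (nat_lit 0) .nil) .nil))) 
(.lf (nat_lit 469667) (.g (nat_lit 2529) (.e (nat_lit 3307) (nat_lit 202) (.e (nat_lit 573477) (nat_lit 12) (.e (nat_lit 57575) (nat_lit 55) (.e (nat_lit 778466) (nat_lit 11) (.e (nat_lit 24604) (nat_lit 2) (.e (nat_lit 90176) (nat_lit 15) (.e (nat_lit 188436) (nat_lit 20) .nil))))))) (.g (nat_lit 1) (.e (nat_lit 83324) (nat_lit 0) .nil) .nil)))) (.nd (nat_lit 9) 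
(.lf (nat_lit 469411) (.g (nat_lit 3739) (.e (nat_lit 3305) (nat_lit 202) (.e (nat_lit 573482) (nat_lit 13) (.e (nat_lit 65630) (nat_lit 14) (.e (nat_lit 401425) (nat_lit 2) (.e (nat_lit 196674) (nat_lit 15) (.e (nat_lit 81922) (nat_lit 0) .nil)))))) (.g (nat_lit 1) (.e (nat_lit 82780) (nat_lit 0) .nil) .nil))) 
(.lf (nat_lit 469923) (.g (nat_lit 2893) (.e (nat_lit 3307) (nat_lit 202) (.e (nat_lit 573489) (nat_lit 14) (.e (nat_lit 73755) (nat_lit 8) (.e (nat_lit 557105) (nat_lit 14) (.e (nat_lit 180251) (nat_lit 10) (.e (nat_lit 573475) (nat_lit 12) (.e (nat_lit 57503) (nat_lit 38) (.e (nat_lit 638983) (nat_lit 5) (.e (nat_lit 2472) (nat_lit 157) .nil))))))))) (.g (nat_lit 1) (.e (nat_lit 84073) (nat_lit 0) .nil) .nil)))))) 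
(.nd (nat_lit 7) (.nd (nat_lit 8) (.nd (nat_lit 9) 
(.lf (nat_lit 469091) (.g (nat_lit 3264) (.e (nat_lit 3302) (nat_lit 202) (.e (nat_lit 573492) (nat_lit 15) (.e (nat_lit 81956) (nat_lit 23) (.e (nat_lit 98388) (nat_lit 33) (.e (nat_lit 491550) (nat_lit 9) (.e (nat_lit 336284) (nat_lit 15) .nil)))))) (.g (nat_lit 1) (.e (nat_lit 82006) (nat_lit 0) .nil) .nil))) 
(.lf (nat_lit 469603) (.g (nat_lit 2010) (.e (nat_lit 3307) (nat_lit 202) (.e (nat_lit 573470) (nat_lit 11) (.e (nat_lit 16470) (nat_lit 14) (.e (nat_lit 491536) (nat_lit 2) .nil)))) (.g (nat_lit 0) (.e (nat_lit 83256) (nat_lit 0) .nil) .nil)))) (.nd (nat_lit 9) 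
(.lf (nat_lit 469347) (.g (nat_lit 3698) (.e (nat_lit 3304) (nat_lit 202) (.e (nat_lit 573493) (nat_lit 15) (.e (nat_lit 81953) (nat_lit 22) (.e (nat_lit 90170) (nat_lit 13) (.e (nat_lit 172070) (nat_lit 4) (.e (nat_lit 229681) (nat_lit 244) (.e (nat_lit 163850) (nat_lit 0) .nil))))))) (.g (nat_lit 1) (.e (nat_lit 82641) (nat_lit 0) .nil) .nil))) 
(.lf (nat_lit 469859) (.g (nat_lit 3996) (.e (nat_lit 3307) (nat_lit 202) (.e (nat_lit 573485) (nat_lit 13) (.e (nat_lit 65619) (nat_lit 10) (.e (nat_lit 344117) (nat_lit 21) (.e (nat_lit 516183) (nat_lit 16) (.e (nat_lit 491549) (nat_lit 9) (.e (nat_lit 336306) (nat_lit 15) .nil))))))) (.g (nat_lit 1) (.e (nat_lit 83787) (nat_lit 0) .nil) .nil))))) (.nd (nat_lit 8) (.nd (nat_lit 9) 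
(.lf (nat_lit 469219) (.g (nat_lit 2341) (.e (nat_lit 3304) (nat_lit 202) (.e (nat_lit 573484) (nat_lit 13) (.e (nat_lit 65610) (nat_lit 10) (.e (nat_lit 344117) (nat_lit 21) (.e (nat_lit 516145) (nat_lit 9) (.e (nat_lit 426148) (nat_lit 4) (.e (nat_lit 229678) (nat_lit 244) (.e (nat_lit 163850) (nat_lit 0) .nil)))))))) (.g (nat_lit 1) (.e (nat_lit 82234) (nat_lit 0) .nil) .nil))) 
(.lf (nat_lit 469731) (.g (nat_lit 3620) (.e (nat_lit 3307) (nat_lit 202) (.e (nat_lit 573484) (nat_lit 13) (.e (nat_lit 65610) (nat_lit 10) (.e (nat_lit 344129) (nat_lit 26) (.e (nat_lit 557087) (nat_lit 11) (.e (nat_lit 24627) (nat_lit 9) (.e (nat_lit 336306) (nat_lit 15) .nil))))))) (.g (nat_lit 1) (.e (nat_lit 83595) (nat_lit 0) .nil) .nil)))) (.nd (nat_lit 9) 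
(.lf (nat_lit 469475) (.g (nat_lit 2796) (.e (nat_lit 3305) (nat_lit 202) (.e (nat_lit 573484) (nat_lit 13) (.e (nat_lit 65617) (nat_lit 10) (.e (nat_lit 344130) (nat_lit 26) (.e (nat_lit 557087) (nat_lit 11) (.e (nat_lit 24637) (nat_lit 9) (.e (nat_lit 336293) (nat_lit 15) .nil))))))) (.g (nat_lit 1) (.e (nat_lit 82936) (nat_lit 0) .nil) .nil))) 
(.lf (nat_lit 469987) (.g (nat_lit 3138) (.e (nat_lit 3307) (nat_lit 202) (.e (nat_lit 573493) (nat_lit 15) (.e (nat_lit 81956) (nat_lit 23) (.e (nat_lit 98350) (nat_lit 24) .nil)))) (.g (nat_lit 0) (.e (nat_lit 84242) (nat_lit 0) .nil) .nil)))))))) (.nd (nat_lit 5) (.nd (nat_lit 6) (.nd (nat_lit 7) (.nd (nat_lit 8) (.nd (nat_lit 9) 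
(.lf (nat_lit 469011) (.g (nat_lit 2685) (.e (nat_lit 3302) (nat_lit 202) (.e (nat_lit 573482) (nat_lit 13) (.e (nat_lit 65628) (nat_lit 14) (.e (nat_lit 401428) (nat_lit 3) (.e (nat_lit 204866) (nat_lit 28) (.e (nat_lit 360192) (nat_lit 0) .nil)))))) (.g (nat_lit 1) (.e (nat_lit 81718) (nat_lit 0) .nil) .nil))) 
(.lf (nat_lit 469523) (.g (nat_lit 2681) (.e (nat_lit 3305) (nat_lit 202) (.e (nat_lit 573485) (nat_lit 13) (.e (nat_lit 65624) (nat_lit 12) (.e (nat_lit 385074) (nat_lit 31) (.e (nat_lit 573491) (nat_lit 15) (.e (nat_lit 81924) (nat_lit 0) .nil)))))) (.g (nat_lit 1) (.e (nat_lit 83045) (nat_lit 0) .nil) .nil)))) (.nd (nat_lit 9) 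
(.lf (nat_lit 469267) (.g (nat_lit 3029) (.e (nat_lit 3304) (nat_lit 202) (.e (nat_lit 573485) (nat_lit 13) (.e (nat_lit 65604) (nat_lit 9) (.e (nat_lit 336013) (nat_lit 2) (.e (nat_lit 90170) (nat_lit 13) (.e (nat_lit 172068) (nat_lit 4) (.e (nat_lit 229681) (nat_lit 244) (.e (nat_lit 163850) (nat_lit 0) .nil)))))))) (.g (nat_lit 1) (.e (nat_lit 82395) (nat_lit 0) .nil) .nil))) 
(.lf (nat_lit 469779) (.g (nat_lit 2769) (.e (nat_lit 3307) (nat_lit 202) (.e (nat_lit 573485) (nat_lit 13) (.e (nat_lit 65604) (nat_lit 9) (.e (nat_lit 336013) (nat_lit 2) (.e (nat_lit 90165) (nat_lit 12) (.e (nat_lit 164219) (nat_lit 180) (.e (nat_lit 229643) (nat_lit 232) (.e (nat_lit 26) (nat_lit 0) .nil)))))))) (.g (nat_lit 1) (.e (nat_lit 83677) (nat_lit 0) .nil) .nil))))) 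
(.nd (nat_lit 8) (.nd (nat_lit 9) 
(.lf (nat_lit 469139) (.g (nat_lit 3230) (.e (nat_lit 3304) (nat_lit 202) (.e (nat_lit 573477) (nat_lit 12) (.e (nat_lit 57574) (nat_lit 55) (.e (nat_lit 778465) (nat_lit 11) (.e (nat_lit 24604) (nat_lit 2) (.e (nat_lit 90176) (nat_lit 15) (.e (nat_lit 188439) (nat_lit 20) .nil))))))) (.g (nat_lit 1) (.e (nat_lit 82137) (nat_lit 0) .nil) .nil))) 
(.lf (nat_lit 469651) (.g (nat_lit 1164) (.e (nat_lit 3307) (nat_lit 202) (.e (nat_lit 573477) (nat_lit 12) (.e (nat_lit 57575) (nat_lit 55) (.e (nat_lit 778464) (nat_lit 11) .nil)))) (.g (nat_lit 0) (.e (nat_lit 83308) (nat_lit 0) .nil) .nil)))) (.nd (nat_lit 9) 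
(.lf (nat_lit 469395) (.g (nat_lit 2682) (.e (nat_lit 3305) (nat_lit 202) (.e (nat_lit 573482) (nat_lit 13) (.e (nat_lit 65619) (nat_lit 10) (.e (nat_lit 344115) (nat_lit 20) (.e (nat_lit 507907) (nat_lit 0) (.e (nat_lit 5405) (nat_lit 302) (.e (nat_lit 65637) (nat_lit 15) .nil))))))) (.g (nat_lit 1) (.e (nat_lit 82760) (nat_lit 0) .nil) .nil))) 
(.lf (nat_lit 469907) (.g (nat_lit 1850) (.e (nat_lit 3307) (nat_lit 202) (.e (nat_lit 573489) (nat_lit 14) (.e (nat_lit 73755) (nat_lit 8) (.e (nat_lit 557067) (nat_lit 9) .nil)))) (.g (nat_lit 0) (.e (nat_lit 83878) (nat_lit 0) .nil) .nil)))))) (.nd (nat_lit 7) (.nd (nat_lit 8) (.nd (nat_lit 9) 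
(.lf (nat_lit 469075) (.g (nat_lit 2811) (.e (nat_lit 3302) (nat_lit 202) (.e (nat_lit 573492) (nat_lit 15) (.e (nat_lit 81956) (nat_lit 23) (.e (nat_lit 98355) (nat_lit 26) .nil)))) (.g (nat_lit 0) (.e (nat_lit 81977) (nat_lit 0) .nil) .nil))) 
(.lf (nat_lit 469587) (.g (nat_lit 2856) (.e (nat_lit 3306) (nat_lit 202) (.e (nat_lit 573477) (nat_lit 12) (.e (nat_lit 57575) (nat_lit 55) (.e (nat_lit 778465) (nat_lit 11) (.e (nat_lit 24604) (nat_lit 2) (.e (nat_lit 90176) (nat_lit 15) (.e (nat_lit 188439) (nat_lit 20) .nil))))))) (.g (nat_lit 1) (.e (nat_lit 83172) (nat_lit 0) .nil) .nil)))) (.nd (nat_lit 9) 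
(.lf (nat_lit 469331) (.g (nat_lit 3565) (.e (nat_lit 3304) (nat_lit 202) (.e (nat_lit 573492) (nat_lit 15) (.e (nat_lit 81956) (nat_lit 23) (.e (nat_lit 98389) (nat_lit 33) (.e (nat_lit 491549) (nat_lit 9) (.e (nat_lit 336260) (nat_lit 15) .nil)))))) (.g (nat_lit 1) (.e (nat_lit 82577) (nat_lit 0) .nil) .nil))) 
(.lf (nat_lit 469843) (.g (nat_lit 2959) (.e (nat_lit 3307) (nat_lit 202) (.e (nat_lit 573485) (nat_lit 13) (.e (nat_lit 65619) (nat_lit 10) (.e (nat_lit 344117) (nat_lit 21) (.e (nat_lit 516106) (nat_lit 0) (.e (nat_lit 7112) (nat_lit 381) (.e (nat_lit 229643) (nat_lit 232) (.e (nat_lit 26) (nat_lit 0) .nil)))))))) (.g (nat_lit 1) (.e (nat_lit 83768) (nat_lit 0) .nil) .nil))))) 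
(.nd (nat_lit 8) (.nd (nat_lit 9) 
(.lf (nat_lit 469203) (.g (nat_lit 747) (.e (nat_lit 3304) (nat_lit 202) (.e (nat_lit 573482) (nat_lit 13) (.e (nat_lit 65622) (nat_lit 12) .nil))) (.g (nat_lit 0) (.e (nat_lit 82210) (nat_lit 0) .nil) .nil))) 
(.lf (nat_lit 469715) (.g (nat_lit 4848) (.e (nat_lit 3307) (nat_lit 202) (.e (nat_lit 573484) (nat_lit 13) (.e (nat_lit 65610) (nat_lit 10) (.e (nat_lit 344117) (nat_lit 21) (.e (nat_lit 516185) (nat_lit 16) (.e (nat_lit 491549) (nat_lit 9) (.e (nat_lit 336260) (nat_lit 15) .nil))))))) (.g (nat_lit 1) (.e (nat_lit 83538) (nat_lit 0) .nil) .nil)))) (.nd (nat_lit 9) 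
(.lf (nat_lit 469459) (.g (nat_lit 3686) (.e (nat_lit 3305) (nat_lit 202) (.e (nat_lit 573484) (nat_lit 13) (.e (nat_lit 65617) (nat_lit 10) (.e (nat_lit 344130) (nat_lit 26) (.e (nat_lit 557087) (nat_lit 11) (.e (nat_lit 24626) (nat_lit 9) (.e (nat_lit 336270) (nat_lit 15) .nil))))))) (.g (nat_lit 1) (.e (nat_lit 82920) (nat_lit 0) .nil) .nil))) 
(.lf (nat_lit 469971) (.g (nat_lit 3074) (.e (nat_lit 3307) (nat_lit 202) (.e (nat_lit 573493) (nat_lit 15) (.e (nat_lit 81954) (nat_lit 23) (.e (nat_lit 98350) (nat_lit 24) .nil)))) (.g (nat_lit 0) (.e (nat_lit 84222) (nat_lit 0) .nil) .nil))))))) (.nd (nat_lit 6) (.nd (nat_lit 7) (.nd (nat_lit 8) (.nd (nat_lit 9) 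
(.lf (nat_lit 469043) (.g (nat_lit 5315) (.e (nat_lit 3302) (nat_lit 202) (.e (nat_lit 573489) (nat_lit 14) (.e (nat_lit 73755) (nat_lit 8) (.e (nat_lit 557105) (nat_lit 14) (.e (nat_lit 180252) (nat_lit 10) (.e (nat_lit 573474) (nat_lit 12) (.e (nat_lit 57507) (nat_lit 39) (.e (nat_lit 647190) (nat_lit 9) (.e (nat_lit 50) (nat_lit 0) .nil))))))))) (.g (nat_lit 1) (.e (nat_lit 81819) (nat_lit 0) .nil) .nil))) 
(.lf (nat_lit 469555) (.g (nat_lit 3416) (.e (nat_lit 3305) (nat_lit 202) (.e (nat_lit 573492) (nat_lit 15) (.e (nat_lit 81956) (nat_lit 23) (.e (nat_lit 98350) (nat_lit 24) .nil)))) (.g (nat_lit 0) (.e (nat_lit 83112) (nat_lit 0) .nil) .nil)))) (.nd (nat_lit 9) 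
(.lf (nat_lit 469299) (.g (nat_lit 3225) (.e (nat_lit 3304) (nat_lit 202) (.e (nat_lit 573485) (nat_lit 13) (.e (nat_lit 65619) (nat_lit 10) (.e (nat_lit 344129) (nat_lit 26) (.e (nat_lit 557087) (nat_lit 11) (.e (nat_lit 24632) (nat_lit 9) (.e (nat_lit 336294) (nat_lit 15) .nil))))))) (.g (nat_lit 1) (.e (nat_lit 82446) (nat_lit 0) .nil) .nil))) 
(.lf (nat_lit 469811) (.g (nat_lit 2669) (.e (nat_lit 3307) (nat_lit 202) (.e (nat_lit 573485) (nat_lit 13) (.e (nat_lit 65604) (nat_lit 9) (.e (nat_lit 336028) (nat_lit 3) (.e (nat_lit 98325) (nat_lit 17) (.e (nat_lit 7936) (nat_lit 406) (.e (nat_lit 73472) (nat_lit 15) .nil))))))) (.g (nat_lit 1) (.e (nat_lit 83719) (nat_lit 0) .nil) .nil))))) (.nd (nat_lit 8) (.nd (nat_lit 9) 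
(.lf (nat_lit 469171) (.g (nat_lit 3826) (.e (nat_lit 3304) (nat_lit 202) (.e (nat_lit 573482) (nat_lit 13) (.e (nat_lit 65604) (nat_lit 9) (.e (nat_lit 336013) (nat_lit 2) (.e (nat_lit 90170) (nat_lit 13) (.e (nat_lit 172069) (nat_lit 4) (.e (nat_lit 229678) (nat_lit 244) (.e (nat_lit 163850) (nat_lit 0) .nil)))))))) (.g (nat_lit 1) (.e (nat_lit 82171) (nat_lit 0) .nil) .nil))) 
(.lf (nat_lit 469683) (.g (nat_lit 763) (.e (nat_lit 3307) (nat_lit 202) (.e (nat_lit 573484) (nat_lit 13) (.e (nat_lit 65610) (nat_lit 10) (.e (nat_lit 344117) (nat_lit 21) .nil)))) (.g (nat_lit 0) (.e (nat_lit 83357) (nat_lit 0) .nil) .nil)))) (.nd (nat_lit 9) 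
(.lf (nat_lit 469427) (.g (nat_lit 3272) (.e (nat_lit 3305) (nat_lit 202) (.e (nat_lit 573484) (nat_lit 13) (.e (nat_lit 65610) (nat_lit 10) (.e (nat_lit 344117) (nat_lit 21) (.e (nat_lit 516185) (nat_lit 16) (.e (nat_lit 491552) (nat_lit 9) (.e (nat_lit 336291) (nat_lit 15) .nil))))))) (.g (nat_lit 1) (.e (nat_lit 82834) (nat_lit 0) .nil) .nil))) 
(.lf (nat_lit 469939) (.g (nat_lit 3397) (.e (nat_lit 3307) (nat_lit 202) (.e (nat_lit 573489) (nat_lit 14) (.e (nat_lit 73755) (nat_lit 8) (.e (nat_lit 557105) (nat_lit 14) (.e (nat_lit 180252) (nat_lit 10) (.e (nat_lit 573474) (nat_lit 12) (.e (nat_lit 57504) (nat_lit 38) (.e (nat_lit 638985) (nat_lit 5) (.e (nat_lit 2416) (nat_lit 157) .nil))))))))) (.g (nat_lit 1) (.e (nat_lit 84135) (nat_lit 0) .nil) .nil)))))) 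
(.nd (nat_lit 7) (.nd (nat_lit 8) (.nd (nat_lit 9) 
(.lf (nat_lit 469107) (.g (nat_lit 566) (.e (nat_lit 3302) (nat_lit 202) (.e (nat_lit 573493) (nat_lit 15) (.e (nat_lit 81956) (nat_lit 23) .nil))) (.g (nat_lit 0) (.e (nat_lit 82059) (nat_lit 0) .nil) .nil))) 
(.lf (nat_lit 469619) (.g (nat_lit 2940) (.e (nat_lit 3307) (nat_lit 202) (.e (nat_lit 573474) (nat_lit 12) (.e (nat_lit 57574) (nat_lit 55) (.e (nat_lit 778465) (nat_lit 11) (.e (nat_lit 24604) (nat_lit 2) .nil))))) (.g (nat_lit 0) (.e (nat_lit 83273) (nat_lit 0) .nil) .nil)))) (.nd (nat_lit 9) 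
(.lf (nat_lit 469363) (.g (nat_lit 3751) (.e (nat_lit 3304) (nat_lit 202) (.e (nat_lit 573493) (nat_lit 15) (.e (nat_lit 81956) (nat_lit 23) (.e (nat_lit 98386) (nat_lit 32) (.e (nat_lit 475209) (nat_lit 41) (.e (nat_lit 712719) (nat_lit 15) .nil)))))) (.g (nat_lit 1) (.e (nat_lit 82712) (nat_lit 0) .nil) .nil))) 
(.lf (nat_lit 469875) (.g (nat_lit 2975) (.e (nat_lit 3307) (nat_lit 202) (.e (nat_lit 573485) (nat_lit 13) (.e (nat_lit 65619) (nat_lit 10) (.e (nat_lit 344129) (nat_lit 26) (.e (nat_lit 557086) (nat_lit 11) (.e (nat_lit 24627) (nat_lit 9) (.e (nat_lit 336306) (nat_lit 15) .nil))))))) (.g (nat_lit 1) (.e (nat_lit 83809) (nat_lit 0) .nil) .nil))))) (.nd (nat_lit 8) (.nd (nat_lit 9) 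
(.lf (nat_lit 469235) (.g (nat_lit 4706) (.e (nat_lit 3304) (nat_lit 202) (.e (nat_lit 573484) (nat_lit 13) (.e (nat_lit 65617) (nat_lit 10) (.e (nat_lit 344130) (nat_lit 26) (.e (nat_lit 557087) (nat_lit 11) (.e (nat_lit 24625) (nat_lit 9) (.e (nat_lit 336260) (nat_lit 15) .nil))))))) (.g (nat_lit 1) (.e (nat_lit 82317) (nat_lit 0) .nil) .nil))) 
(.lf (nat_lit 469747) (.g (nat_lit 4183) (.e (nat_lit 3307) (nat_lit 202) (.e (nat_lit 573484) (nat_lit 13) (.e (nat_lit 65617) (nat_lit 10) (.e (nat_lit 344130) (nat_lit 26) (.e (nat_lit 557087) (nat_lit 11) (.e (nat_lit 24630) (nat_lit 9) (.e (nat_lit 336260) (nat_lit 15) .nil))))))) (.g (nat_lit 1) (.e (nat_lit 83615) (nat_lit 0) .nil) .nil)))) (.nd (nat_lit 9) 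
(.lf (nat_lit 469491) (.g (nat_lit 4361) (.e (nat_lit 3305) (nat_lit 202) (.e (nat_lit 573484) (nat_lit 13) (.e (nat_lit 65630) (nat_lit 14) (.e (nat_lit 401425) (nat_lit 2) (.e (nat_lit 196674) (nat_lit 15) (.e (nat_lit 81922) (nat_lit 0) .nil)))))) (.g (nat_lit 1) (.e (nat_lit 82998) (nat_lit 0) .nil) .nil))) 
(.lf (nat_lit 470003) (.g (nat_lit 3920) (.e (nat_lit 3307) (nat_lit 202) (.e (nat_lit 573493) (nat_lit 15) (.e (nat_lit 81956) (nat_lit 23) (.e (nat_lit 98389) (nat_lit 33) (.e (nat_lit 491547) (nat_lit 9) (.e (nat_lit 336260) (nat_lit 15) .nil)))))) (.g (nat_lit 1) (.e (nat_lit 84274) (nat_lit 0) .nil) .nil))))))))) 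
(.nd (nat_lit 4) (.nd (nat_lit 5) (.nd (nat_lit 6) (.nd (nat_lit 7) (.nd (nat_lit 8) 
(.nd (nat_lit 9) 
(.lf (nat_lit 469003) (.g (nat_lit 2680) (.e (nat_lit 3302) (nat_lit 202) (.e (nat_lit 573482) (nat_lit 13) (.e (nat_lit 65619) (nat_lit 10) (.e (nat_lit 344117) (nat_lit 21) (.e (nat_lit 516178) (nat_lit 15) .nil))))) (.g (nat_lit 0) (.e (nat_lit 81710) (nat_lit 0) .nil) .nil))) 
(.lf (nat_lit 469515) (.g (nat_lit 3652) (.e (nat_lit 3305) (nat_lit 202) (.e (nat_lit 573485) (nat_lit 13) (.e (nat_lit 65619) (nat_lit 10) (.e (nat_lit 344129) (nat_lit 26) (.e (nat_lit 557087) (nat_lit 11) (.e (nat_lit 24632) (nat_lit 9) (.e (nat_lit 336291) (nat_lit 15) .nil))))))) (.g (nat_lit 1) (.e (nat_lit 83035) (nat_lit 0) .nil) .nil)))) (.nd (nat_lit 9) 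
(.lf (nat_lit 469259) (.g (nat_lit 4198) (.e (nat_lit 3304) (nat_lit 202) (.e (nat_lit 573484) (nat_lit 13) (.e (nat_lit 65617) (nat_lit 10) (.e (nat_lit 344133) (nat_lit 26) (.e (nat_lit 557086) (nat_lit 11) (.e (nat_lit 24630) (nat_lit 9) (.e (nat_lit 336260) (nat_lit 15) .nil))))))) (.g (nat_lit 1) (.e (nat_lit 82365) (nat_lit 0) .nil) .nil))) 
(.lf (nat_lit 469771) (.g (nat_lit 3548) (.e (nat_lit 3307) (nat_lit 202) (.e (nat_lit 573485) (nat_lit 13) (.e (nat_lit 65604) (nat_lit 9) (.e (nat_lit 336013) (nat_lit 2) (.e (nat_lit 90165) (nat_lit 12) (.e (nat_lit 164210) (nat_lit 176) (.e (nat_lit 2786) (nat_lit 179) (.e (nat_lit 294966) (nat_lit 15) .nil)))))))) (.g (nat_lit 1) (.e (nat_lit 83669) (nat_lit 0) .nil) .nil))))) 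
(.nd (nat_lit 8) (.nd (nat_lit 9) 
(.lf (nat_lit 469131) (.g (nat_lit 2997) (.e (nat_lit 3304) (nat_lit 202) (.e (nat_lit 573471) (nat_lit 11) (.e (nat_lit 16425) (nat_lit 7) (.e (nat_lit 409616) (nat_lit 10) .nil)))) (.g (nat_lit 0) (.e (nat_lit 82128) (nat_lit 0) .nil) .nil))) 
(.lf (nat_lit 469643) (.g (nat_lit 2079) (.e (nat_lit 3307) (nat_lit 202) (.e (nat_lit 573477) (nat_lit 12) (.e (nat_lit 57574) (nat_lit 55) (.e (nat_lit 778466) (nat_lit 11) (.e (nat_lit 24603) (nat_lit 2) (.e (nat_lit 90176) (nat_lit 15) (.e (nat_lit 188436) (nat_lit 20) .nil))))))) (.g (nat_lit 1) (.e (nat_lit 83300) (nat_lit 0) .nil) .nil)))) (.nd (nat_lit 9) 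
(.lf (nat_lit 469387) (.g (nat_lit 1975) (.e (nat_lit 3305) (nat_lit 202) (.e (nat_lit 573480) (nat_lit 13) (.e (nat_lit 65630) (nat_lit 14) (.e (nat_lit 401428) (nat_lit 3) (.e (nat_lit 204866) (nat_lit 28) (.e (nat_lit 352265) (nat_lit 0) .nil)))))) (.g (nat_lit 1) (.e (nat_lit 82751) (nat_lit 0) .nil) .nil))) 
(.lf (nat_lit 469899) (.g (nat_lit 1630) (.e (nat_lit 3307) (nat_lit 202) (.e (nat_lit 573485) (nat_lit 13) (.e (nat_lit 65630) (nat_lit 14) (.e (nat_lit 401428) (nat_lit 3) (.e (nat_lit 204866) (nat_lit 28) (.e (nat_lit 360192) (nat_lit 0) .nil)))))) (.g (nat_lit 1) (.e (nat_lit 83834) (nat_lit 0) .nil) .nil)))))) (.nd (nat_lit 7) (.nd (nat_lit 8) (.nd (nat_lit 9) 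
(.lf (nat_lit 469067) (.g (nat_lit 2675) (.e (nat_lit 3302) (nat_lit 202) (.e (nat_lit 573492) (nat_lit 15) (.e (nat_lit 81956) (nat_lit 23) (.e (nat_lit 98349) (nat_lit 24) (.e (nat_lit 409641) (nat_lit 17) (.e (nat_lit 294962) (nat_lit 15) .nil)))))) (.g (nat_lit 1) (.e (nat_lit 81967) (nat_lit 0) .nil) .nil))) 
(.lf (nat_lit 469579) (.g (nat_lit 2465) (.e (nat_lit 3305) (nat_lit 202) (.e (nat_lit 573493) (nat_lit 15) (.e (nat_lit 81956) (nat_lit 23) (.e (nat_lit 98388) (nat_lit 33) .nil)))) (.g (nat_lit 0) (.e (nat_lit 83163) (nat_lit 0) .nil) .nil)))) (.nd (nat_lit 9) 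
(.lf (nat_lit 469323) (.g (nat_lit 2370) (.e (nat_lit 3304) (nat_lit 202) (.e (nat_lit 573492) (nat_lit 15) (.e (nat_lit 81956) (nat_lit 23) (.e (nat_lit 98356) (nat_lit 26) .nil)))) (.g (nat_lit 0) (.e (nat_lit 82568) (nat_lit 0) .nil) .nil))) 
(.lf (nat_lit 469835) (.g (nat_lit 3927) (.e (nat_lit 3307) (nat_lit 202) (.e (nat_lit 573485) (nat_lit 13) (.e (nat_lit 65619) (nat_lit 10) (.e (nat_lit 344117) (nat_lit 21) (.e (nat_lit 516106) (nat_lit 0) (.e (nat_lit 7008) (nat_lit 377) (.e (nat_lit 2786) (nat_lit 179) (.e (nat_lit 294966) (nat_lit 15) .nil)))))))) (.g (nat_lit 1) (.e (nat_lit 83760) (nat_lit 0) .nil) .nil))))) 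
(.nd (nat_lit 8) (.nd (nat_lit 9) 
(.lf (nat_lit 469195) (.g (nat_lit 2574) (.e (nat_lit 3304) (nat_lit 202) (.e (nat_lit 573482) (nat_lit 13) (.e (nat_lit 65619) (nat_lit 10) (.e (nat_lit 344117) (nat_lit 21) (.e (nat_lit 516185) (nat_lit 16) (.e (nat_lit 491552) (nat_lit 9) (.e (nat_lit 336291) (nat_lit 15) .nil))))))) (.g (nat_lit 1) (.e (nat_lit 82199) (nat_lit 0) .nil) .nil))) 
(.lf (nat_lit 469707) (.g (nat_lit 4796) (.e (nat_lit 3307) (nat_lit 202) (.e (nat_lit 573484) (nat_lit 13) (.e (nat_lit 65610) (nat_lit 10) (.e (nat_lit 344117) (nat_lit 21) (.e (nat_lit 516184) (nat_lit 16) (.e (nat_lit 491549) (nat_lit 9) (.e (nat_lit 336260) (nat_lit 15) .nil))))))) (.g (nat_lit 1) (.e (nat_lit 83530) (nat_lit 0) .nil) .nil)))) (.nd (nat_lit 9) 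
(.lf (nat_lit 469451) (.g (nat_lit 2448) (.e (nat_lit 3305) (nat_lit 202) (.e (nat_lit 573484) (nat_lit 13) (.e (nat_lit 65617) (nat_lit 10) (.e (nat_lit 344130) (nat_lit 26) (.e (nat_lit 557087) (nat_lit 11) (.e (nat_lit 24623) (nat_lit 9) (.e (nat_lit 336270) (nat_lit 15) .nil))))))) (.g (nat_lit 1) (.e (nat_lit 82912) (nat_lit 0) .nil) .nil))) 
(.lf (nat_lit 469963) (.g (nat_lit 1577) (.e (nat_lit 3307) (nat_lit 202) (.e (nat_lit 573491) (nat_lit 15) (.e (nat_lit 81956) (nat_lit 23) (.e (nat_lit 98325) (nat_lit 17) .nil)))) (.g (nat_lit 0) (.e (nat_lit 84180) (nat_lit 0) .nil) .nil))))))) (.nd (nat_lit 6) (.nd (nat_lit 7) (.nd (nat_lit 8) (.nd (nat_lit 9) 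
(.lf (nat_lit 469035) (.g (nat_lit 1597) (.e (nat_lit 3302) (nat_lit 202) (.e (nat_lit 573485) (nat_lit 13) (.e (nat_lit 65628) (nat_lit 14) (.e (nat_lit 401428) (nat_lit 3) (.e (nat_lit 204877) (nat_lit 31) (.e (nat_lit 384768) (nat_lit 0) .nil)))))) (.g (nat_lit 1) (.e (nat_lit 81769) (nat_lit 0) .nil) .nil))) 
(.lf (nat_lit 469547) (.g (nat_lit 3611) (.e (nat_lit 3305) (nat_lit 202) (.e (nat_lit 573491) (nat_lit 15) (.e (nat_lit 81956) (nat_lit 23) (.e (nat_lit 98389) (nat_lit 33) (.e (nat_lit 491552) (nat_lit 9) (.e (nat_lit 336282) (nat_lit 15) .nil)))))) (.g (nat_lit 1) (.e (nat_lit 83103) (nat_lit 0) .nil) .nil)))) (.nd (nat_lit 9) 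
(.lf (nat_lit 469291) (.g (nat_lit 2660) (.e (nat_lit 3304) (nat_lit 202) (.e (nat_lit 573485) (nat_lit 13) (.e (nat_lit 65619) (nat_lit 10) (.e (nat_lit 344117) (nat_lit 21) (.e (nat_lit 516185) (nat_lit 16) (.e (nat_lit 491552) (nat_lit 9) (.e (nat_lit 336282) (nat_lit 15) .nil))))))) (.g (nat_lit 1) (.e (nat_lit 82429) (nat_lit 0) .nil) .nil))) 
(.lf (nat_lit 469803) (.g (nat_lit 4348) (.e (nat_lit 3307) (nat_lit 202) (.e (nat_lit 573485) (nat_lit 13) (.e (nat_lit 65604) (nat_lit 9) (.e (nat_lit 336028) (nat_lit 3) (.e (nat_lit 98325) (nat_lit 17) (.e (nat_lit 6986) (nat_lit 377) (.e (nat_lit 2779) (nat_lit 178) (.e (nat_lit 286765) (nat_lit 15) .nil)))))))) (.g (nat_lit 1) (.e (nat_lit 83701) (nat_lit 0) .nil) .nil))))) 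
(.nd (nat_lit 8) (.nd (nat_lit 9) 
(.lf (nat_lit 469163) (.g (nat_lit 1436) (.e (nat_lit 3304) (nat_lit 202) (.e (nat_lit 573482) (nat_lit 13) (.e (nat_lit 65604) (nat_lit 9) (.e (nat_lit 336013) (nat_lit 2) .nil)))) (.g (nat_lit 0) (.e (nat_lit 82163) (nat_lit 0) .nil) .nil))) 
(.lf (nat_lit 469675) (.g (nat_lit 1841) (.e (nat_lit 3307) (nat_lit 202) (.e (nat_lit 573478) (nat_lit 12) (.e (nat_lit 57574) (nat_lit 55) (.e (nat_lit 778466) (nat_lit 11) (.e (nat_lit 24604) (nat_lit 2) (.e (nat_lit 90176) (nat_lit 15) (.e (nat_lit 188439) (nat_lit 20) .nil))))))) (.g (nat_lit 1) (.e (nat_lit 83337) (nat_lit 0) .nil) .nil)))) (.nd (nat_lit 9) 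
(.lf (nat_lit 469419) (.g (nat_lit 2246) (.e (nat_lit 3305) (nat_lit 202) (.e (nat_lit 573484) (nat_lit 13) (.e (nat_lit 65610) (nat_lit 10) (.e (nat_lit 344117) (nat_lit 21) (.e (nat_lit 516099) (nat_lit 0) (.e (nat_lit 7936) (nat_lit 406) (.e (nat_lit 65641) (nat_lit 15) .nil))))))) (.g (nat_lit 1) (.e (nat_lit 82819) (nat_lit 0) .nil) .nil))) 
(.lf (nat_lit 469931) (.g (nat_lit 3262) (.e (nat_lit 3307) (nat_lit 202) (.e (nat_lit 573489) (nat_lit 14) (.e (nat_lit 73755) (nat_lit 8) (.e (nat_lit 557105) (nat_lit 14) (.e (nat_lit 180252) (nat_lit 10) (.e (nat_lit 573473) (nat_lit 12) (.e (nat_lit 57504) (nat_lit 38) (.e (nat_lit 638986) (nat_lit 5) (.e (nat_lit 2416) (nat_lit 157) .nil))))))))) (.g (nat_lit 1) (.e (nat_lit 84084) (nat_lit 0) .nil) .nil)))))) 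
(.nd (nat_lit 7) (.nd (nat_lit 8) (.nd (nat_lit 9) 
(.lf (nat_lit 469099) (.g (nat_lit 3609) (.e (nat_lit 3302) (nat_lit 202) (.e (nat_lit 573492) (nat_lit 15) (.e (nat_lit 81956) (nat_lit 23) (.e (nat_lit 98389) (nat_lit 33) (.e (nat_lit 491552) (nat_lit 9) (.e (nat_lit 343808) (nat_lit 15) .nil)))))) (.g (nat_lit 1) (.e (nat_lit 82014) (nat_lit 0) .nil) .nil))) 
(.lf (nat_lit 469611) (.g (nat_lit 3979) (.e (nat_lit 3307) (nat_lit 202) (.e (nat_lit 573471) (nat_lit 11) (.e (nat_lit 16470) (nat_lit 14) (.e (nat_lit 491535) (nat_lit 2) .nil)))) (.g (nat_lit 0) (.e (nat_lit 83265) (nat_lit 0) .nil) .nil)))) (.nd (nat_lit 9) 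
(.lf (nat_lit 469355) (.g (nat_lit 3606) (.e (nat_lit 3304) (nat_lit 202) (.e (nat_lit 573493) (nat_lit 15) (.e (nat_lit 81956) (nat_lit 23) (.e (nat_lit 98357) (nat_lit 26) .nil)))) (.g (nat_lit 0) (.e (nat_lit 82691) (nat_lit 0) .nil) .nil))) 
(.lf (nat_lit 469867) (.g (nat_lit 4074) (.e (nat_lit 3307) (nat_lit 202) (.e (nat_lit 573485) (nat_lit 13) (.e (nat_lit 65619) (nat_lit 10) (.e (nat_lit 344117) (nat_lit 21) (.e (nat_lit 516185) (nat_lit 16) (.e (nat_lit 491548) (nat_lit 9) (.e (nat_lit 336306) (nat_lit 15) .nil))))))) (.g (nat_lit 1) (.e (nat_lit 83795) (nat_lit 0) .nil) .nil))))) (.nd (nat_lit 8) (.nd (nat_lit 9) 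
(.lf (nat_lit 469227) (.g (nat_lit 4270) (.e (nat_lit 3304) (nat_lit 202) (.e (nat_lit 573484) (nat_lit 13) (.e (nat_lit 65617) (nat_lit 10) (.e (nat_lit 344130) (nat_lit 26) (.e (nat_lit 557085) (nat_lit 11) (.e (nat_lit 24630) (nat_lit 9) (.e (nat_lit 336260) (nat_lit 15) .nil))))))) (.g (nat_lit 1) (.e (nat_lit 82309) (nat_lit 0) .nil) .nil))) 
(.lf (nat_lit 469739) (.g (nat_lit 2859) (.e (nat_lit 3307) (nat_lit 202) (.e (nat_lit 573484) (nat_lit 13) (.e (nat_lit 65617) (nat_lit 10) (.e (nat_lit 344130) (nat_lit 26) (.e (nat_lit 557085) (nat_lit 11) (.e (nat_lit 24627) (nat_lit 9) (.e (nat_lit 336306) (nat_lit 15) .nil))))))) (.g (nat_lit 1) (.e (nat_lit 83607) (nat_lit 0) .nil) .nil)))) (.nd (nat_lit 9) 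
(.lf (nat_lit 469483) (.g (nat_lit 1535) (.e (nat_lit 3305) (nat_lit 202) (.e (nat_lit 573484) (nat_lit 13) (.e (nat_lit 65617) (nat_lit 10) (.e (nat_lit 344133) (nat_lit 26) (.e (nat_lit 557087) (nat_lit 11) .nil))))) (.g (nat_lit 0) (.e (nat_lit 82970) (nat_lit 0) .nil) .nil))) 
(.lf (nat_lit 469995) (.g (nat_lit 3781) (.e (nat_lit 3307) (nat_lit 202) (.e (nat_lit 573493) (nat_lit 15) (.e (nat_lit 81956) (nat_lit 23) (.e (nat_lit 98388) (nat_lit 33) (.e (nat_lit 491548) (nat_lit 9) (.e (nat_lit 336306) (nat_lit 15) .nil)))))) (.g (nat_lit 1) (.e (nat_lit 84266) (nat_lit 0) .nil) .nil)))))))) 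
(.nd (nat_lit 5) (.nd (nat_lit 6) (.nd (nat_lit 7) (.nd (nat_lit 8) (.nd (nat_lit 9) 
(.lf (nat_lit 469019) (.g (nat_lit 5616) (.e (nat_lit 3302) (nat_lit 202) (.e (nat_lit 573484) (nat_lit 13) (.e (nat_lit 65610) (nat_lit 10) (.e (nat_lit 344117) (nat_lit 21) (.e (nat_lit 516179) (nat_lit 15) (.e (nat_lit 475211) (nat_lit 41) (.e (nat_lit 712722) (nat_lit 15) .nil))))))) (.g (nat_lit 1) (.e (nat_lit 81732) (nat_lit 0) .nil) .nil))) 
(.lf (nat_lit 469531) (.g (nat_lit 2635) (.e (nat_lit 3305) (nat_lit 202) (.e (nat_lit 573485) (nat_lit 13) (.e (nat_lit 65630) (nat_lit 14) (.e (nat_lit 401428) (nat_lit 3) (.e (nat_lit 204866) (nat_lit 28) (.e (nat_lit 352266) (nat_lit 0) .nil)))))) (.g (nat_lit 1) (.e (nat_lit 83055) (nat_lit 0) .nil) .nil)))) (.nd (nat_lit 9) 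
(.lf (nat_lit 469275) (.g (nat_lit 1713) (.e (nat_lit 3304) (nat_lit 202) (.e (nat_lit 573485) (nat_lit 13) (.e (nat_lit 65619) (nat_lit 10) (.e (nat_lit 344117) (nat_lit 21) (.e (nat_lit 516097) (nat_lit 0) (.e (nat_lit 7589) (nat_lit 406) (.e (nat_lit 73472) (nat_lit 15) .nil))))))) (.g (nat_lit 1) (.e (nat_lit 82412) (nat_lit 0) .nil) .nil))) 
(.lf (nat_lit 469787) (.g (nat_lit 2930) (.e (nat_lit 3307) (nat_lit 202) (.e (nat_lit 573485) (nat_lit 13) (.e (nat_lit 65604) (nat_lit 9) (.e (nat_lit 336013) (nat_lit 2) (.e (nat_lit 90170) (nat_lit 13) (.e (nat_lit 172042) (nat_lit 0) (.e (nat_lit 3408) (nat_lit 212) (.e (nat_lit 655364) (nat_lit 0) (.e (nat_lit 2472) (nat_lit 157) .nil))))))))) (.g (nat_lit 1) (.e (nat_lit 83685) (nat_lit 0) .nil) .nil))))) 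
(.nd (nat_lit 8) (.nd (nat_lit 9) 
(.lf (nat_lit 469147) (.g (nat_lit 1915) (.e (nat_lit 3304) (nat_lit 202) (.e (nat_lit 573477) (nat_lit 12) (.e (nat_lit 57575) (nat_lit 55) (.e (nat_lit 778465) (nat_lit 11) (.e (nat_lit 24603) (nat_lit 2) .nil))))) (.g (nat_lit 0) (.e (nat_lit 82145) (nat_lit 0) .nil) .nil))) 
(.lf (nat_lit 469659) (.g (nat_lit 3591) (.e (nat_lit 3307) (nat_lit 202) (.e (nat_lit 573477) (nat_lit 12) (.e (nat_lit 57575) (nat_lit 55) (.e (nat_lit 778465) (nat_lit 11) (.e (nat_lit 24604) (nat_lit 2) (.e (nat_lit 90178) (nat_lit 15) (.e (nat_lit 188436) (nat_lit 20) .nil))))))) (.g (nat_lit 1) (.e (nat_lit 83316) (nat_lit 0) .nil) .nil)))) (.nd (nat_lit 9) 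
(.lf (nat_lit 469403) (.g (nat_lit 2876) (.e (nat_lit 3305) (nat_lit 202) (.e (nat_lit 573482) (nat_lit 13) (.e (nat_lit 65622) (nat_lit 12) (.e (nat_lit 385074) (nat_lit 31) (.e (nat_lit 573491) (nat_lit 15) .nil))))) (.g (nat_lit 0) (.e (nat_lit 82768) (nat_lit 0) .nil) .nil))) 
(.lf (nat_lit 469915) (.g (nat_lit 3585) (.e (nat_lit 3307) (nat_lit 202) (.e (nat_lit 573489) (nat_lit 14) (.e (nat_lit 73755) (nat_lit 8) (.e (nat_lit 557098) (nat_lit 13) (.e (nat_lit 179968) (nat_lit 18) (.e (nat_lit 98335) (nat_lit 18) (.e (nat_lit 164327) (nat_lit 230) (.e (nat_lit 163851) (nat_lit 0) .nil)))))))) (.g (nat_lit 1) (.e (nat_lit 83939) (nat_lit 0) .nil) .nil)))))) 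
(.nd (nat_lit 7) (.nd (nat_lit 8) (.nd (nat_lit 9) 
(.lf (nat_lit 469083) (.g (nat_lit 3398) (.e (nat_lit 3302) (nat_lit 202) (.e (nat_lit 573492) (nat_lit 15) (.e (nat_lit 81956) (nat_lit 23) (.e (nat_lit 98384) (nat_lit 32) (.e (nat_lit 475208) (nat_lit 41) .nil))))) (.g (nat_lit 0) (.e (nat_lit 81998) (nat_lit 0) .nil) .nil))) 
(.lf (nat_lit 469595) (.g (nat_lit 3495) (.e (nat_lit 3307) (nat_lit 202) (.e (nat_lit 573469) (nat_lit 11) (.e (nat_lit 16456) (nat_lit 12) (.e (nat_lit 475185) (nat_lit 29) (.e (nat_lit 557107) (nat_lit 15) (.e (nat_lit 188440) (nat_lit 20) .nil)))))) (.g (nat_lit 1) (.e (nat_lit 83248) (nat_lit 0) .nil) .nil)))) (.nd (nat_lit 9) 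
(.lf (nat_lit 469339) (.g (nat_lit 4063) (.e (nat_lit 3304) (nat_lit 202) (.e (nat_lit 573493) (nat_lit 15) (.e (nat_lit 81953) (nat_lit 22) (.e (nat_lit 90166) (nat_lit 13) .nil)))) (.g (nat_lit 0) (.e (nat_lit 82633) (nat_lit 0) .nil) .nil))) 
(.lf (nat_lit 469851) (.g (nat_lit 4369) (.e (nat_lit 3307) (nat_lit 202) (.e (nat_lit 573485) (nat_lit 13) (.e (nat_lit 65619) (nat_lit 10) (.e (nat_lit 344117) (nat_lit 21) (.e (nat_lit 516151) (nat_lit 9) (.e (nat_lit 426042) (nat_lit 0) (.e (nat_lit 3409) (nat_lit 212) (.e (nat_lit 655364) (nat_lit 0) (.e (nat_lit 2472) (nat_lit 157) .nil))))))))) (.g (nat_lit 1) (.e (nat_lit 83779) (nat_lit 0) .nil) .nil))))) 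
(.nd (nat_lit 8) (.nd (nat_lit 9) 
(.lf (nat_lit 469211) (.g (nat_lit 2352) (.e (nat_lit 3304) (nat_lit 202) (.e (nat_lit 573482) (nat_lit 13) (.e (nat_lit 65628) (nat_lit 14) (.e (nat_lit 401428) (nat_lit 3) (.e (nat_lit 204866) (nat_lit 28) (.e (nat_lit 352266) (nat_lit 0) .nil)))))) (.g (nat_lit 1) (.e (nat_lit 82219) (nat_lit 0) .nil) .nil))) 
(.lf (nat_lit 469723) (.g (nat_lit 3670) (.e (nat_lit 3307) (nat_lit 202) (.e (nat_lit 573484) (nat_lit 13) (.e (nat_lit 65610) (nat_lit 10) (.e (nat_lit 344129) (nat_lit 26) (.e (nat_lit 557086) (nat_lit 11) (.e (nat_lit 24627) (nat_lit 9) (.e (nat_lit 336306) (nat_lit 15) .nil))))))) (.g (nat_lit 1) (.e (nat_lit 83586) (nat_lit 0) .nil) .nil)))) (.nd (nat_lit 9) 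
(.lf (nat_lit 469467) (.g (nat_lit 2044) (.e (nat_lit 3305) (nat_lit 202) (.e (nat_lit 573484) (nat_lit 13) (.e (nat_lit 65617) (nat_lit 10) (.e (nat_lit 344130) (nat_lit 26) (.e (nat_lit 557087) (nat_lit 11) (.e (nat_lit 24633) (nat_lit 9) (.e (nat_lit 336291) (nat_lit 15) .nil))))))) (.g (nat_lit 1) (.e (nat_lit 82928) (nat_lit 0) .nil) .nil))) 
(.lf (nat_lit 469979) (.g (nat_lit 3756) (.e (nat_lit 3307) (nat_lit 202) (.e (nat_lit 573493) (nat_lit 15) (.e (nat_lit 81956) (nat_lit 23) (.e (nat_lit 98320) (nat_lit 17) (.e (nat_lit 7587) (nat_lit 406) (.e (nat_lit 73472) (nat_lit 15) .nil)))))) (.g (nat_lit 1) (.e (nat_lit 84234) (nat_lit 0) .nil) .nil))))))) (.nd (nat_lit 6) (.nd (nat_lit 7) (.nd (nat_lit 8) (.nd (nat_lit 9) 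
(.lf (nat_lit 469051) (.g (nat_lit 3722) (.e (nat_lit 3302) (nat_lit 202) (.e (nat_lit 573492) (nat_lit 15) (.e (nat_lit 81953) (nat_lit 22) (.e (nat_lit 90167) (nat_lit 13) .nil)))) (.g (nat_lit 0) (.e (nat_lit 81934) (nat_lit 0) .nil) .nil))) 
(.lf (nat_lit 469563) (.g (nat_lit 5278) (.e (nat_lit 3305) (nat_lit 202) (.e (nat_lit 573493) (nat_lit 15) (.e (nat_lit 81953) (nat_lit 22) (.e (nat_lit 90189) (nat_lit 18) .nil)))) (.g (nat_lit 0) (.e (nat_lit 83140) (nat_lit 0) .nil) .nil)))) (.nd (nat_lit 9) 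
(.lf (nat_lit 469307) (.g (nat_lit 2326) (.e (nat_lit 3304) (nat_lit 202) (.e (nat_lit 573489) (nat_lit 14) (.e (nat_lit 73755) (nat_lit 8) (.e (nat_lit 557096) (nat_lit 13) (.e (nat_lit 179968) (nat_lit 18) (.e (nat_lit 98334) (nat_lit 18) (.e (nat_lit 164329) (nat_lit 230) (.e (nat_lit 163850) (nat_lit 0) .nil)))))))) (.g (nat_lit 1) (.e (nat_lit 82465) (nat_lit 0) .nil) .nil))) 
(.lf (nat_lit 469819) (.g (nat_lit 1149) (.e (nat_lit 3307) (nat_lit 202) (.e (nat_lit 573485) (nat_lit 13) (.e (nat_lit 65619) (nat_lit 10) (.e (nat_lit 344117) (nat_lit 21) .nil)))) (.g (nat_lit 0) (.e (nat_lit 83743) (nat_lit 0) .nil) .nil))))) (.nd (nat_lit 8) (.nd (nat_lit 9) 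
(.lf (nat_lit 469179) (.g (nat_lit 1243) (.e (nat_lit 3304) (nat_lit 202) (.e (nat_lit 573482) (nat_lit 13) (.e (nat_lit 65619) (nat_lit 10) (.e (nat_lit 344117) (nat_lit 21) .nil)))) (.g (nat_lit 0) (.e (nat_lit 82183) (nat_lit 0) .nil) .nil))) 
(.lf (nat_lit 469691) (.g (nat_lit 2068) (.e (nat_lit 3307) (nat_lit 202) (.e (nat_lit 573484) (nat_lit 13) (.e (nat_lit 65610) (nat_lit 10) (.e (nat_lit 344117) (nat_lit 21) (.e (nat_lit 516106) (nat_lit 0) .nil))))) (.g (nat_lit 0) (.e (nat_lit 83370) (nat_lit 0) .nil) .nil)))) (.nd (nat_lit 9) 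
(.lf (nat_lit 469435) (.g (nat_lit 2314) (.e (nat_lit 3305) (nat_lit 202) (.e (nat_lit 573484) (nat_lit 13) (.e (nat_lit 65610) (nat_lit 10) (.e (nat_lit 344129) (nat_lit 26) (.e (nat_lit 557087) (nat_lit 11) (.e (nat_lit 24631) (nat_lit 9) (.e (nat_lit 336291) (nat_lit 15) .nil))))))) (.g (nat_lit 1) (.e (nat_lit 82858) (nat_lit 0) .nil) .nil))) 
(.lf (nat_lit 469947) (.g (nat_lit 3725) (.e (nat_lit 3307) (nat_lit 202) (.e (nat_lit 573489) (nat_lit 14) (.e (nat_lit 73755) (nat_lit 8) (.e (nat_lit 557105) (nat_lit 14) (.e (nat_lit 180252) (nat_lit 10) (.e (nat_lit 573475) (nat_lit 12) (.e (nat_lit 57503) (nat_lit 38) (.e (nat_lit 638985) (nat_lit 5) (.e (nat_lit 2466) (nat_lit 157) .nil))))))))) (.g (nat_lit 1) (.e (nat_lit 84152) (nat_lit 0) .nil) .nil)))))) 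
(.nd (nat_lit 7) (.nd (nat_lit 8) (.nd (nat_lit 9) 
(.lf (nat_lit 469115) (.g (nat_lit 2000) (.e (nat_lit 3302) (nat_lit 202) (.e (nat_lit 573493) (nat_lit 15) (.e (nat_lit 81956) (nat_lit 23) (.e (nat_lit 98325) (nat_lit 17) .nil)))) (.g (nat_lit 0) (.e (nat_lit 82067) (nat_lit 0) .nil) .nil))) 
(.lf (nat_lit 469627) (.g (nat_lit 5067) (.e (nat_lit 3307) (nat_lit 202) (.e (nat_lit 573475) (nat_lit 12) (.e (nat_lit 57574) (nat_lit 55) (.e (nat_lit 778465) (nat_lit 11) (.e (nat_lit 24604) (nat_lit 2) (.e (nat_lit 90176) (nat_lit 15) (.e (nat_lit 188440) (nat_lit 20) .nil))))))) (.g (nat_lit 1) (.e (nat_lit 83282) (nat_lit 0) .nil) .nil)))) (.nd (nat_lit 9) 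
(.lf (nat_lit 469371) (.g (nat_lit 3732) (.e (nat_lit 3304) (nat_lit 202) (.e (nat_lit 573493) (nat_lit 15) (.e (nat_lit 81956) (nat_lit 23) (.e (nat_lit 98389) (nat_lit 33) (.e (nat_lit 491554) (nat_lit 9) .nil))))) (.g (nat_lit 0) (.e (nat_lit 82720) (nat_lit 0) .nil) .nil))) 
(.lf (nat_lit 469883) (.g (nat_lit 4411) (.e (nat_lit 3307) (nat_lit 202) (.e (nat_lit 573485) (nat_lit 13) (.e (nat_lit 65619) (nat_lit 10) (.e (nat_lit 344129) (nat_lit 26) (.e (nat_lit 557087) (nat_lit 11) (.e (nat_lit 24627) (nat_lit 9) (.e (nat_lit 336306) (nat_lit 15) .nil))))))) (.g (nat_lit 1) (.e (nat_lit 83817) (nat_lit 0) .nil) .nil))))) (.nd (nat_lit 8) (.nd (nat_lit 9) 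
(.lf (nat_lit 469243) (.g (nat_lit 2210) (.e (nat_lit 3304) (nat_lit 202) (.e (nat_lit 573484) (nat_lit 13) (.e (nat_lit 65617) (nat_lit 10) (.e (nat_lit 344130) (nat_lit 26) (.e (nat_lit 557087) (nat_lit 11) (.e (nat_lit 24631) (nat_lit 9) (.e (nat_lit 343808) (nat_lit 15) .nil))))))) (.g (nat_lit 1) (.e (nat_lit 82325) (nat_lit 0) .nil) .nil))) 
(.lf (nat_lit 469755) (.g (nat_lit 4508) (.e (nat_lit 3307) (nat_lit 202) (.e (nat_lit 573484) (nat_lit 13) (.e (nat_lit 65617) (nat_lit 10) (.e (nat_lit 344133) (nat_lit 26) (.e (nat_lit 557086) (nat_lit 11) (.e (nat_lit 24630) (nat_lit 9) (.e (nat_lit 336260) (nat_lit 15) .nil))))))) (.g (nat_lit 1) (.e (nat_lit 83629) (nat_lit 0) .nil) .nil)))) (.nd (nat_lit 9) 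
(.lf (nat_lit 469499) (.g (nat_lit 1944) (.e (nat_lit 3305) (nat_lit 202) (.e (nat_lit 573485) (nat_lit 13) (.e (nat_lit 65619) (nat_lit 10) (.e (nat_lit 344115) (nat_lit 20) (.e (nat_lit 507907) (nat_lit 0) (.e (nat_lit 5399) (nat_lit 302) (.e (nat_lit 65637) (nat_lit 15) .nil))))))) (.g (nat_lit 1) (.e (nat_lit 83019) (nat_lit 0) .nil) .nil))) 
(.lf (nat_lit 470011) (.g (nat_lit 1807) (.e (nat_lit 3308) (nat_lit 202) (.e (nat_lit 573450) (nat_lit 9) (.e (nat_lit 375) (nat_lit 32) (.e (nat_lit 426173) (nat_lit 7) .nil)))) (.g (nat_lit 0) (.e (nat_lit 84285) (nat_lit 0) .nil) .nil)))))))))) (.nd (nat_lit 3) (.nd (nat_lit 4) (.nd (nat_lit 5) (.nd (nat_lit 6) (.nd (nat_lit 7) (.nd (nat_lit 8) (.nd (nat_lit 9) 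
(.lf (nat_lit 468999) (.g (nat_lit 1821) (.e (nat_lit 3302) (nat_lit 202) (.e (nat_lit 573482) (nat_lit 13) (.e (nat_lit 65619) (nat_lit 10) (.e (nat_lit 344115) (nat_lit 20) .nil)))) (.g (nat_lit 0) (.e (nat_lit 81706) (nat_lit 0) .nil) .nil))) 
(.lf (nat_lit 469511) (.g (nat_lit 3683) (.e (nat_lit 3305) (nat_lit 202) (.e (nat_lit 573485) (nat_lit 13) (.e (nat_lit 65619) (nat_lit 10) (.e (nat_lit 344126) (nat_lit 25) (.e (nat_lit 548889) (nat_lit 9) (.e (nat_lit 65601) (nat_lit 9) (.e (nat_lit 336295) (nat_lit 15) .nil))))))) (.g (nat_lit 1) (.e (nat_lit 83031) (nat_lit 0) .nil) .nil)))) (.nd (nat_lit 9) 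
(.lf (nat_lit 469255) (.g (nat_lit 2869) (.e (nat_lit 3304) (nat_lit 202) (.e (nat_lit 573484) (nat_lit 13) (.e (nat_lit 65617) (nat_lit 10) (.e (nat_lit 344133) (nat_lit 26) (.e (nat_lit 557085) (nat_lit 11) (.e (nat_lit 24627) (nat_lit 9) (.e (nat_lit 336306) (nat_lit 15) .nil))))))) (.g (nat_lit 1) (.e (nat_lit 82361) (nat_lit 0) .nil) .nil))) 
(.lf (nat_lit 469767) (.g (nat_lit 2436) (.e (nat_lit 3307) (nat_lit 202) (.e (nat_lit 573485) (nat_lit 13) (.e (nat_lit 65604) (nat_lit 9) (.e (nat_lit 336013) (nat_lit 2) (.e (nat_lit 90165) (nat_lit 12) (.e (nat_lit 164208) (nat_lit 176) (.e (nat_lit 2779) (nat_lit 178) (.e (nat_lit 294656) (nat_lit 15) .nil)))))))) (.g (nat_lit 1) (.e (nat_lit 83665) (nat_lit 0) .nil) .nil))))) 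
(.nd (nat_lit 8) (.nd (nat_lit 9) 
(.lf (nat_lit 469127) (.g (nat_lit 604) (.e (nat_lit 3303) (nat_lit 202) (.e (nat_lit 573489) (nat_lit 14) (.e (nat_lit 73755) (nat_lit 8) .nil))) (.g (nat_lit 0) (.e (nat_lit 82092) (nat_lit 0) .nil) .nil))) 
(.lf (nat_lit 469639) (.g (nat_lit 2552) (.e (nat_lit 3307) (nat_lit 202) (.e (nat_lit 573477) (nat_lit 12) (.e (nat_lit 57574) (nat_lit 55) (.e (nat_lit 778466) (nat_lit 11) (.e (nat_lit 24601) (nat_lit 2) (.e (nat_lit 90178) (nat_lit 15) (.e (nat_lit 188440) (nat_lit 20) .nil))))))) (.g (nat_lit 1) (.e (nat_lit 83296) (nat_lit 0) .nil) .nil)))) (.nd (nat_lit 9) 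
(.lf (nat_lit 469383) (.g (nat_lit 1969) (.e (nat_lit 3305) (nat_lit 202) (.e (nat_lit 573479) (nat_lit 13) (.e (nat_lit 65630) (nat_lit 14) (.e (nat_lit 401428) (nat_lit 3) (.e (nat_lit 204866) (nat_lit 28) (.e (nat_lit 352262) (nat_lit 0) .nil)))))) (.g (nat_lit 1) (.e (nat_lit 82747) (nat_lit 0) .nil) .nil))) 
(.lf (nat_lit 469895) (.g (nat_lit 2010) (.e (nat_lit 3307) (nat_lit 202) (.e (nat_lit 573485) (nat_lit 13) (.e (nat_lit 65628) (nat_lit 14) (.e (nat_lit 401428) (nat_lit 3) (.e (nat_lit 204876) (nat_lit 31) (.e (nat_lit 384768) (nat_lit 0) .nil)))))) (.g (nat_lit 1) (.e (nat_lit 83829) (nat_lit 0) .nil) .nil)))))) (.nd (nat_lit 7) (.nd (nat_lit 8) (.nd (nat_lit 9) 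
(.lf (nat_lit 469063) (.g (nat_lit 3426) (.e (nat_lit 3302) (nat_lit 202) (.e (nat_lit 573492) (nat_lit 15) (.e (nat_lit 81956) (nat_lit 23) (.e (nat_lit 98322) (nat_lit 17) .nil)))) (.g (nat_lit 0) (.e (nat_lit 81954) (nat_lit 0) .nil) .nil))) 
(.lf (nat_lit 469575) (.g (nat_lit 2706) (.e (nat_lit 3305) (nat_lit 202) (.e (nat_lit 573493) (nat_lit 15) (.e (nat_lit 81956) (nat_lit 23) (.e (nat_lit 98321) (nat_lit 17) (.e (nat_lit 7936) (nat_lit 406) .nil))))) (.g (nat_lit 0) (.e (nat_lit 83153) (nat_lit 0) .nil) .nil)))) (.nd (nat_lit 9) 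
(.lf (nat_lit 469319) (.g (nat_lit 499) (.e (nat_lit 3304) (nat_lit 202) (.e (nat_lit 573491) (nat_lit 15) (.e (nat_lit 81954) (nat_lit 23) .nil))) (.g (nat_lit 0) (.e (nat_lit 82540) (nat_lit 0) .nil) .nil))) 
(.lf (nat_lit 469831) (.g (nat_lit 5694) (.e (nat_lit 3307) (nat_lit 202) (.e (nat_lit 573485) (nat_lit 13) (.e (nat_lit 65619) (nat_lit 10) (.e (nat_lit 344117) (nat_lit 21) (.e (nat_lit 516106) (nat_lit 0) (.e (nat_lit 6986) (nat_lit 377) (.e (nat_lit 2777) (nat_lit 178) (.e (nat_lit 286765) (nat_lit 15) .nil)))))))) (.g (nat_lit 1) (.e (nat_lit 83756) (nat_lit 0) .nil) .nil))))) 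
(.nd (nat_lit 8) (.nd (nat_lit 9) 
(.lf (nat_lit 469191) (.g (nat_lit 2801) (.e (nat_lit 3304) (nat_lit 202) (.e (nat_lit 573482) (nat_lit 13) (.e (nat_lit 65619) (nat_lit 10) (.e (nat_lit 344117) (nat_lit 21) (.e (nat_lit 516151) (nat_lit 9) (.e (nat_lit 426142) (nat_lit 4) (.e (nat_lit 229681) (nat_lit 244) (.e (nat_lit 163850) (nat_lit 0) .nil)))))))) (.g (nat_lit 1) (.e (nat_lit 82195) (nat_lit 0) .nil) .nil))) 
(.lf (nat_lit 469703) (.g (nat_lit 4669) (.e (nat_lit 3307) (nat_lit 202) (.e (nat_lit 573484) (nat_lit 13) (.e (nat_lit 65610) (nat_lit 10) (.e (nat_lit 344117) (nat_lit 21) (.e (nat_lit 516183) (nat_lit 16) (.e (nat_lit 491549) (nat_lit 9) (.e (nat_lit 336260) (nat_lit 15) .nil))))))) (.g (nat_lit 1) (.e (nat_lit 83526) (nat_lit 0) .nil) .nil)))) (.nd (nat_lit 9) 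
(.lf (nat_lit 469447) (.g (nat_lit 1084) (.e (nat_lit 3305) (nat_lit 202) (.e (nat_lit 573484) (nat_lit 13) (.e (nat_lit 65617) (nat_lit 10) (.e (nat_lit 344126) (nat_lit 25) .nil)))) (.g (nat_lit 0) (.e (nat_lit 82885) (nat_lit 0) .nil) .nil))) 
(.lf (nat_lit 469959) (.g (nat_lit 2418) (.e (nat_lit 3307) (nat_lit 202) (.e (nat_lit 573490) (nat_lit 15) (.e (nat_lit 81956) (nat_lit 23) (.e (nat_lit 98389) (nat_lit 33) .nil)))) (.g (nat_lit 0) (.e (nat_lit 84170) (nat_lit 0) .nil) .nil))))))) (.nd (nat_lit 6) (.nd (nat_lit 7) (.nd (nat_lit 8) (.nd (nat_lit 9) 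
(.lf (nat_lit 469031) (.g (nat_lit 1897) (.e (nat_lit 3302) (nat_lit 202) (.e (nat_lit 573485) (nat_lit 13) (.e (nat_lit 65628) (nat_lit 14) (.e (nat_lit 401428) (nat_lit 3) (.e (nat_lit 204865) (nat_lit 28) (.e (nat_lit 352261) (nat_lit 0) .nil)))))) (.g (nat_lit 1) (.e (nat_lit 81765) (nat_lit 0) .nil) .nil))) 
(.lf (nat_lit 469543) (.g (nat_lit 3688) (.e (nat_lit 3305) (nat_lit 202) (.e (nat_lit 573491) (nat_lit 15) (.e (nat_lit 81956) (nat_lit 23) (.e (nat_lit 98320) (nat_lit 17) (.e (nat_lit 7589) (nat_lit 406) (.e (nat_lit 65637) (nat_lit 15) .nil)))))) (.g (nat_lit 1) (.e (nat_lit 83099) (nat_lit 0) .nil) .nil)))) (.nd (nat_lit 9) 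
(.lf (nat_lit 469287) (.g (nat_lit 1943) (.e (nat_lit 3304) (nat_lit 202) (.e (nat_lit 573485) (nat_lit 13) (.e (nat_lit 65619) (nat_lit 10) (.e (nat_lit 344117) (nat_lit 21) (.e (nat_lit 516180) (nat_lit 15) (.e (nat_lit 475207) (nat_lit 41) (.e (nat_lit 712719) (nat_lit 15) .nil))))))) (.g (nat_lit 1) (.e (nat_lit 82425) (nat_lit 0) .nil) .nil))) 
(.lf (nat_lit 469799) (.g (nat_lit 1109) (.e (nat_lit 3307) (nat_lit 202) (.e (nat_lit 573485) (nat_lit 13) (.e (nat_lit 65604) (nat_lit 9) (.e (nat_lit 336028) (nat_lit 3) .nil)))) (.g (nat_lit 0) (.e (nat_lit 83697) (nat_lit 0) .nil) .nil))))) (.nd (nat_lit 8) (.nd (nat_lit 9) 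
(.lf (nat_lit 469159) (.g (nat_lit 1931) (.e (nat_lit 3304) (nat_lit 202) (.e (nat_lit 573479) (nat_lit 13) (.e (nat_lit 65630) (nat_lit 14) (.e (nat_lit 401428) (nat_lit 3) (.e (nat_lit 204876) (nat_lit 31) (.e (nat_lit 376835) (nat_lit 0) .nil)))))) (.g (nat_lit 1) (.e (nat_lit 82158) (nat_lit 0) .nil) .nil))) 
(.lf (nat_lit 469671) (.g (nat_lit 1965) (.e (nat_lit 3307) (nat_lit 202) (.e (nat_lit 573478) (nat_lit 12) (.e (nat_lit 57574) (nat_lit 55) (.e (nat_lit 778465) (nat_lit 11) (.e (nat_lit 24603) (nat_lit 2) (.e (nat_lit 90175) (nat_lit 15) (.e (nat_lit 188440) (nat_lit 20) .nil))))))) (.g (nat_lit 1) (.e (nat_lit 83333) (nat_lit 0) .nil) .nil)))) (.nd (nat_lit 9) 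
(.lf (nat_lit 469415) (.g (nat_lit 2050) (.e (nat_lit 3305) (nat_lit 202) (.e (nat_lit 573484) (nat_lit 13) (.e (nat_lit 65610) (nat_lit 10) (.e (nat_lit 344107) (nat_lit 19) (.e (nat_lit 499732) (nat_lit 0) .nil))))) (.g (nat_lit 0) (.e (nat_lit 82797) (nat_lit 0) .nil) .nil))) 
(.lf (nat_lit 469927) (.g (nat_lit 1555) (.e (nat_lit 3307) (nat_lit 202) (.e (nat_lit 573489) (nat_lit 14) (.e (nat_lit 73755) (nat_lit 8) (.e (nat_lit 557105) (nat_lit 14) (.e (nat_lit 180252) (nat_lit 10) .nil))))) (.g (nat_lit 0) (.e (nat_lit 84077) (nat_lit 0) .nil) .nil)))))) (.nd (nat_lit 7) (.nd (nat_lit 8) (.nd (nat_lit 9) 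
(.lf (nat_lit 469095) (.g (nat_lit 4197) (.e (nat_lit 3302) (nat_lit 202) (.e (nat_lit 573492) (nat_lit 15) (.e (nat_lit 81956) (nat_lit 23) (.e (nat_lit 98389) (nat_lit 33) (.e (nat_lit 491546) (nat_lit 9) (.e (nat_lit 336284) (nat_lit 15) .nil)))))) (.g (nat_lit 1) (.e (nat_lit 82010) (nat_lit 0) .nil) .nil))) 
(.lf (nat_lit 469607) (.g (nat_lit 3608) (.e (nat_lit 3307) (nat_lit 202) (.e (nat_lit 573470) (nat_lit 11) (.e (nat_lit 16473) (nat_lit 14) (.e (nat_lit 491536) (nat_lit 2) (.e (nat_lit 90178) (nat_lit 15) (.e (nat_lit 188440) (nat_lit 20) .nil)))))) (.g (nat_lit 1) (.e (nat_lit 83260) (nat_lit 0) .nil) .nil)))) (.nd (nat_lit 9) 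
(.lf (nat_lit 469351) (.g (nat_lit 3479) (.e (nat_lit 3304) (nat_lit 202) (.e (nat_lit 573493) (nat_lit 15) (.e (nat_lit 81954) (nat_lit 23) (.e (nat_lit 98386) (nat_lit 32) (.e (nat_lit 475209) (nat_lit 41) (.e (nat_lit 712719) (nat_lit 15) .nil)))))) (.g (nat_lit 1) (.e (nat_lit 82659) (nat_lit 0) .nil) .nil))) 
(.lf (nat_lit 469863) (.g (nat_lit 4239) (.e (nat_lit 3307) (nat_lit 202) (.e (nat_lit 573485) (nat_lit 13) (.e (nat_lit 65619) (nat_lit 10) (.e (nat_lit 344117) (nat_lit 21) (.e (nat_lit 516184) (nat_lit 16) (.e (nat_lit 491549) (nat_lit 9) (.e (nat_lit 336306) (nat_lit 15) .nil))))))) (.g (nat_lit 1) (.e (nat_lit 83791) (nat_lit 0) .nil) .nil))))) (.nd (nat_lit 8) (.nd (nat_lit 9) 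
(.lf (nat_lit 469223) (.g (nat_lit 2948) (.e (nat_lit 3304) (nat_lit 202) (.e (nat_lit 573484) (nat_lit 13) (.e (nat_lit 65610) (nat_lit 10) (.e (nat_lit 344129) (nat_lit 26) (.e (nat_lit 557087) (nat_lit 11) (.e (nat_lit 24638) (nat_lit 9) (.e (nat_lit 336293) (nat_lit 15) .nil))))))) (.g (nat_lit 1) (.e (nat_lit 82275) (nat_lit 0) .nil) .nil))) 
(.lf (nat_lit 469735) (.g (nat_lit 3424) (.e (nat_lit 3307) (nat_lit 202) (.e (nat_lit 573484) (nat_lit 13) (.e (nat_lit 65610) (nat_lit 10) (.e (nat_lit 344129) (nat_lit 26) (.e (nat_lit 557087) (nat_lit 11) (.e (nat_lit 24631) (nat_lit 9) (.e (nat_lit 343808) (nat_lit 15) .nil))))))) (.g (nat_lit 1) (.e (nat_lit 83599) (nat_lit 0) .nil) .nil)))) (.nd (nat_lit 9) 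
(.lf (nat_lit 469479) (.g (nat_lit 2192) (.e (nat_lit 3305) (nat_lit 202) (.e (nat_lit 573484) (nat_lit 13) (.e (nat_lit 65617) (nat_lit 10) (.e (nat_lit 344132) (nat_lit 26) (.e (nat_lit 557079) (nat_lit 9) .nil))))) (.g (nat_lit 0) (.e (nat_lit 82957) (nat_lit 0) .nil) .nil))) 
(.lf (nat_lit 469991) (.g (nat_lit 3274) (.e (nat_lit 3307) (nat_lit 202) (.e (nat_lit 573493) (nat_lit 15) (.e (nat_lit 81956) (nat_lit 23) (.e (nat_lit 98366) (nat_lit 27) (.e (nat_lit 434272) (nat_lit 38) .nil))))) (.g (nat_lit 0) (.e (nat_lit 84258) (nat_lit 0) .nil) .nil)))))))) (.nd (nat_lit 5) (.nd (nat_lit 6) (.nd (nat_lit 7) (.nd (nat_lit 8) (.nd (nat_lit 9) 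
(.lf (nat_lit 469015) (.g (nat_lit 2190) (.e (nat_lit 3302) (nat_lit 202) (.e (nat_lit 573484) (nat_lit 13) (.e (nat_lit 65610) (nat_lit 10) (.e (nat_lit 344117) (nat_lit 21) (.e (nat_lit 516106) (nat_lit 0) (.e (nat_lit 7936) (nat_lit 406) (.e (nat_lit 65636) (nat_lit 15) .nil))))))) (.g (nat_lit 1) (.e (nat_lit 81728) (nat_lit 0) .nil) .nil))) 
(.lf (nat_lit 469527) (.g (nat_lit 3052) (.e (nat_lit 3305) (nat_lit 202) (.e (nat_lit 573485) (nat_lit 13) (.e (nat_lit 65628) (nat_lit 14) (.e (nat_lit 401428) (nat_lit 3) (.e (nat_lit 204866) (nat_lit 28) (.e (nat_lit 352266) (nat_lit 0) .nil)))))) (.g (nat_lit 1) (.e (nat_lit 83049) (nat_lit 0) .nil) .nil)))) (.nd (nat_lit 9) 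
(.lf (nat_lit 469271) (.g (nat_lit 2404) (.e (nat_lit 3304) (nat_lit 202) (.e (nat_lit 573485) (nat_lit 13) (.e (nat_lit 65604) (nat_lit 9) (.e (nat_lit 336013) (nat_lit 2) (.e (nat_lit 90170) (nat_lit 13) (.e (nat_lit 172070) (nat_lit 4) (.e (nat_lit 229681) (nat_lit 244) (.e (nat_lit 163857) (nat_lit 0) .nil)))))))) (.g (nat_lit 1) (.e (nat_lit 82399) (nat_lit 0) .nil) .nil))) 
(.lf (nat_lit 469783) (.g (nat_lit 3239) (.e (nat_lit 3307) (nat_lit 202) (.e (nat_lit 573485) (nat_lit 13) (.e (nat_lit 65604) (nat_lit 9) (.e (nat_lit 336013) (nat_lit 2) (.e (nat_lit 90165) (nat_lit 12) (.e (nat_lit 164219) (nat_lit 180) (.e (nat_lit 229647) (nat_lit 232) (.e (nat_lit 25) (nat_lit 0) .nil)))))))) (.g (nat_lit 1) (.e (nat_lit 83681) (nat_lit 0) .nil) .nil))))) 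
(.nd (nat_lit 8) (.nd (nat_lit 9) 
(.lf (nat_lit 469143) (.g (nat_lit 2178) (.e (nat_lit 3304) (nat_lit 202) (.e (nat_lit 573477) (nat_lit 12) (.e (nat_lit 57574) (nat_lit 55) (.e (nat_lit 778466) (nat_lit 11) (.e (nat_lit 24604) (nat_lit 2) (.e (nat_lit 90176) (nat_lit 15) (.e (nat_lit 188443) (nat_lit 20) .nil))))))) (.g (nat_lit 1) (.e (nat_lit 82141) (nat_lit 0) .nil) .nil))) 
(.lf (nat_lit 469655) (.g (nat_lit 3882) (.e (nat_lit 3307) (nat_lit 202) (.e (nat_lit 573477) (nat_lit 12) (.e (nat_lit 57575) (nat_lit 55) (.e (nat_lit 778465) (nat_lit 11) (.e (nat_lit 24604) (nat_lit 2) (.e (nat_lit 90176) (nat_lit 15) (.e (nat_lit 188424) (nat_lit 20) .nil))))))) (.g (nat_lit 1) (.e (nat_lit 83312) (nat_lit 0) .nil) .nil)))) (.nd (nat_lit 9) 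
(.lf (nat_lit 469399) (.g (nat_lit 1762) (.e (nat_lit 3305) (nat_lit 202) (.e (nat_lit 573482) (nat_lit 13) (.e (nat_lit 65619) (nat_lit 10) (.e (nat_lit 344117) (nat_lit 21) (.e (nat_lit 516185) (nat_lit 16) .nil))))) (.g (nat_lit 0) (.e (nat_lit 82764) (nat_lit 0) .nil) .nil))) 
(.lf (nat_lit 469911) (.g (nat_lit 2969) (.e (nat_lit 3307) (nat_lit 202) (.e (nat_lit 573489) (nat_lit 14) (.e (nat_lit 73755) (nat_lit 8) (.e (nat_lit 557096) (nat_lit 13) (.e (nat_lit 179968) (nat_lit 18) (.e (nat_lit 98335) (nat_lit 18) (.e (nat_lit 164327) (nat_lit 230) (.e (nat_lit 163851) (nat_lit 0) .nil)))))))) (.g (nat_lit 1) (.e (nat_lit 83902) (nat_lit 0) .nil) .nil)))))) 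
(.nd (nat_lit 7) (.nd (nat_lit 8) (.nd (nat_lit 9) 
(.lf (nat_lit 469079) (.g (nat_lit 2890) (.e (nat_lit 3302) (nat_lit 202) (.e (nat_lit 573492) (nat_lit 15) (.e (nat_lit 81956) (nat_lit 23) (.e (nat_lit 98356) (nat_lit 26) (.e (nat_lit 426440) (nat_lit 19) .nil))))) (.g (nat_lit 0) (.e (nat_lit 81988) (nat_lit 0) .nil) .nil))) 
(.lf (nat_lit 469591) (.g (nat_lit 2669) (.e (nat_lit 3306) (nat_lit 202) (.e (nat_lit 573489) (nat_lit 14) (.e (nat_lit 73755) (nat_lit 8) (.e (nat_lit 557097) (nat_lit 13) .nil)))) (.g (nat_lit 0) (.e (nat_lit 83194) (nat_lit 0) .nil) .nil)))) (.nd (nat_lit 9) 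
(.lf (nat_lit 469335) (.g (nat_lit 3333) (.e (nat_lit 3304) (nat_lit 202) (.e (nat_lit 573492) (nat_lit 15) (.e (nat_lit 81956) (nat_lit 23) (.e (nat_lit 98389) (nat_lit 33) (.e (nat_lit 491554) (nat_lit 9) .nil))))) (.g (nat_lit 0) (.e (nat_lit 82581) (nat_lit 0) .nil) .nil))) 
(.lf (nat_lit 469847) (.g (nat_lit 2920) (.e (nat_lit 3307) (nat_lit 202) (.e (nat_lit 573485) (nat_lit 13) (.e (nat_lit 65619) (nat_lit 10) (.e (nat_lit 344117) (nat_lit 21) (.e (nat_lit 516106) (nat_lit 0) (.e (nat_lit 7936) (nat_lit 406) (.e (nat_lit 73472) (nat_lit 15) .nil))))))) (.g (nat_lit 1) (.e (nat_lit 83774) (nat_lit 0) .nil) .nil))))) (.nd (nat_lit 8) (.nd (nat_lit 9) 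
(.lf (nat_lit 469207) (.g (nat_lit 3183) (.e (nat_lit 3304) (nat_lit 202) (.e (nat_lit 573482) (nat_lit 13) (.e (nat_lit 65624) (nat_lit 12) (.e (nat_lit 385074) (nat_lit 31) (.e (nat_lit 573493) (nat_lit 15) (.e (nat_lit 89856) (nat_lit 0) .nil)))))) (.g (nat_lit 1) (.e (nat_lit 82215) (nat_lit 0) .nil) .nil))) 
(.lf (nat_lit 469719) (.g (nat_lit 1415) (.e (nat_lit 3307) (nat_lit 202) (.e (nat_lit 573484) (nat_lit 13) (.e (nat_lit 65610) (nat_lit 10) (.e (nat_lit 344129) (nat_lit 26) .nil)))) (.g (nat_lit 0) (.e (nat_lit 83561) (nat_lit 0) .nil) .nil)))) (.nd (nat_lit 9) 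
(.lf (nat_lit 469463) (.g (nat_lit 2991) (.e (nat_lit 3305) (nat_lit 202) (.e (nat_lit 573484) (nat_lit 13) (.e (nat_lit 65617) (nat_lit 10) (.e (nat_lit 344130) (nat_lit 26) (.e (nat_lit 557087) (nat_lit 11) (.e (nat_lit 24632) (nat_lit 9) (.e (nat_lit 336267) (nat_lit 15) .nil))))))) (.g (nat_lit 1) (.e (nat_lit 82924) (nat_lit 0) .nil) .nil))) 
(.lf (nat_lit 469975) (.g (nat_lit 3310) (.e (nat_lit 3307) (nat_lit 202) (.e (nat_lit 573493) (nat_lit 15) (.e (nat_lit 81956) (nat_lit 23) (.e (nat_lit 98318) (nat_lit 17) .nil)))) (.g (nat_lit 0) (.e (nat_lit 84230) (nat_lit 0) .nil) .nil))))))) (.nd (nat_lit 6) (.nd (nat_lit 7) (.nd (nat_lit 8) (.nd (nat_lit 9) 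
(.lf (nat_lit 469047) (.g (nat_lit 3116) (.e (nat_lit 3302) (nat_lit 202) (.e (nat_lit 573489) (nat_lit 14) (.e (nat_lit 73755) (nat_lit 8) (.e (nat_lit 557105) (nat_lit 14) (.e (nat_lit 180252) (nat_lit 10) (.e (nat_lit 573475) (nat_lit 12) (.e (nat_lit 57508) (nat_lit 39) (.e (nat_lit 647195) (nat_lit 9) (.e (nat_lit 42) (nat_lit 0) .nil))))))))) (.g (nat_lit 1) (.e (nat_lit 81823) (nat_lit 0) .nil) .nil))) 
(.lf (nat_lit 469559) (.g (nat_lit 4569) (.e (nat_lit 3305) (nat_lit 202) (.e (nat_lit 573492) (nat_lit 15) (.e (nat_lit 81956) (nat_lit 23) (.e (nat_lit 98389) (nat_lit 33) (.e (nat_lit 491556) (nat_lit 9) (.e (nat_lit 336300) (nat_lit 15) .nil)))))) (.g (nat_lit 1) (.e (nat_lit 83116) (nat_lit 0) .nil) .nil)))) (.nd (nat_lit 9) 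
(.lf (nat_lit 469303) (.g (nat_lit 2468) (.e (nat_lit 3304) (nat_lit 202) (.e (nat_lit 573485) (nat_lit 13) (.e (nat_lit 65628) (nat_lit 14) (.e (nat_lit 401428) (nat_lit 3) (.e (nat_lit 204866) (nat_lit 28) (.e (nat_lit 352265) (nat_lit 0) .nil)))))) (.g (nat_lit 1) (.e (nat_lit 82450) (nat_lit 0) .nil) .nil))) 
(.lf (nat_lit 469815) (.g (nat_lit 5559) (.e (nat_lit 3307) (nat_lit 202) (.e (nat_lit 573485) (nat_lit 13) (.e (nat_lit 65604) (nat_lit 9) (.e (nat_lit 336028) (nat_lit 3) (.e (nat_lit 98367) (nat_lit 27) (.e (nat_lit 434272) (nat_lit 38) (.e (nat_lit 655364) (nat_lit 0) (.e (nat_lit 2472) (nat_lit 157) .nil)))))))) (.g (nat_lit 1) (.e (nat_lit 83728) (nat_lit 0) .nil) .nil))))) 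
(.nd (nat_lit 8) (.nd (nat_lit 9) 
(.lf (nat_lit 469175) (.g (nat_lit 1440) (.e (nat_lit 3304) (nat_lit 202) (.e (nat_lit 573482) (nat_lit 13) (.e (nat_lit 65604) (nat_lit 9) (.e (nat_lit 336028) (nat_lit 3) .nil)))) (.g (nat_lit 0) (.e (nat_lit 82175) (nat_lit 0) .nil) .nil))) 
(.lf (nat_lit 469687) (.g (nat_lit 2033) (.e (nat_lit 3307) (nat_lit 202) (.e (nat_lit 573484) (nat_lit 13) (.e (nat_lit 65610) (nat_lit 10) (.e (nat_lit 344117) (nat_lit 21) (.e (nat_lit 516099) (nat_lit 0) .nil))))) (.g (nat_lit 0) (.e (nat_lit 83363) (nat_lit 0) .nil) .nil)))) (.nd (nat_lit 9) 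
(.lf (nat_lit 469431) (.g (nat_lit 1377) (.e (nat_lit 3305) (nat_lit 202) (.e (nat_lit 573484) (nat_lit 13) (.e (nat_lit 65610) (nat_lit 10) (.e (nat_lit 344126) (nat_lit 25) .nil)))) (.g (nat_lit 0) (.e (nat_lit 82838) (nat_lit 0) .nil) .nil))) 
(.lf (nat_lit 469943) (.g (nat_lit 3931) (.e (nat_lit 3307) (nat_lit 202) (.e (nat_lit 573489) (nat_lit 14) (.e (nat_lit 73755) (nat_lit 8) (.e (nat_lit 557105) (nat_lit 14) (.e (nat_lit 180252) (nat_lit 10) (.e (nat_lit 573474) (nat_lit 12) (.e (nat_lit 57504) (nat_lit 38) (.e (nat_lit 638986) (nat_lit 5) (.e (nat_lit 2416) (nat_lit 157) .nil))))))))) (.g (nat_lit 1) (.e (nat_lit 84139) (nat_lit 0) .nil) .nil)))))) 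
(.nd (nat_lit 7) (.nd (nat_lit 8) (.nd (nat_lit 9) 
(.lf (nat_lit 469111) (.g (nat_lit 5134) (.e (nat_lit 3302) (nat_lit 202) (.e (nat_lit 573493) (nat_lit 15) (.e (nat_lit 81956) (nat_lit 23) (.e (nat_lit 98320) (nat_lit 17) (.e (nat_lit 7587) (nat_lit 406) (.e (nat_lit 65636) (nat_lit 15) .nil)))))) (.g (nat_lit 1) (.e (nat_lit 82063) (nat_lit 0) .nil) .nil))) 
(.lf (nat_lit 469623) (.g (nat_lit 1841) (.e (nat_lit 3307) (nat_lit 202) (.e (nat_lit 573475) (nat_lit 12) (.e (nat_lit 57572) (nat_lit 54) (.e (nat_lit 770072) (nat_lit 8) (.e (nat_lit 65577) (nat_lit 5) (.e (nat_lit 139296) (nat_lit 15) (.e (nat_lit 188440) (nat_lit 20) .nil))))))) (.g (nat_lit 1) (.e (nat_lit 83278) (nat_lit 0) .nil) .nil)))) (.nd (nat_lit 9) 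
(.lf (nat_lit 469367) (.g (nat_lit 4114) (.e (nat_lit 3304) (nat_lit 202) (.e (nat_lit 573493) (nat_lit 15) (.e (nat_lit 81956) (nat_lit 23) (.e (nat_lit 98389) (nat_lit 33) (.e (nat_lit 491546) (nat_lit 9) (.e (nat_lit 336291) (nat_lit 15) .nil)))))) (.g (nat_lit 1) (.e (nat_lit 82716) (nat_lit 0) .nil) .nil))) 
(.lf (nat_lit 469879) (.g (nat_lit 3980) (.e (nat_lit 3307) (nat_lit 202) (.e (nat_lit 573485) (nat_lit 13) (.e (nat_lit 65619) (nat_lit 10) (.e (nat_lit 344129) (nat_lit 26) (.e (nat_lit 557087) (nat_lit 11) (.e (nat_lit 24584) (nat_lit 0) (.e (nat_lit 6490) (nat_lit 343) (.e (nat_lit 75) (nat_lit 0) .nil)))))))) (.g (nat_lit 1) (.e (nat_lit 83813) (nat_lit 0) .nil) .nil))))) 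
(.nd (nat_lit 8) (.nd (nat_lit 9) 
(.lf (nat_lit 469239) (.g (nat_lit 3927) (.e (nat_lit 3304) (nat_lit 202) (.e (nat_lit 573484) (nat_lit 13) (.e (nat_lit 65617) (nat_lit 10) (.e (nat_lit 344130) (nat_lit 26) (.e (nat_lit 557087) (nat_lit 11) (.e (nat_lit 24630) (nat_lit 9) (.e (nat_lit 336306) (nat_lit 15) .nil))))))) (.g (nat_lit 1) (.e (nat_lit 82321) (nat_lit 0) .nil) .nil))) 
(.lf (nat_lit 469751) (.g (nat_lit 5101) (.e (nat_lit 3307) (nat_lit 202) (.e (nat_lit 573484) (nat_lit 13) (.e (nat_lit 65617) (nat_lit 10) (.e (nat_lit 344132) (nat_lit 26) (.e (nat_lit 557085) (nat_lit 11) (.e (nat_lit 24630) (nat_lit 9) (.e (nat_lit 336306) (nat_lit 15) .nil))))))) (.g (nat_lit 1) (.e (nat_lit 83623) (nat_lit 0) .nil) .nil)))) (.nd (nat_lit 9) 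
(.lf (nat_lit 469495) (.g (nat_lit 2464) (.e (nat_lit 3305) (nat_lit 202) (.e (nat_lit 573485) (nat_lit 13) (.e (nat_lit 65604) (nat_lit 9) (.e (nat_lit 336013) (nat_lit 2) (.e (nat_lit 90165) (nat_lit 12) (.e (nat_lit 171776) (nat_lit 191) (.e (nat_lit 65642) (nat_lit 15) .nil))))))) (.g (nat_lit 1) (.e (nat_lit 83013) (nat_lit 0) .nil) .nil))) 
(.lf (nat_lit 470007) (.g (nat_lit 4323) (.e (nat_lit 3307) (nat_lit 202) (.e (nat_lit 573493) (nat_lit 15) (.e (nat_lit 81956) (nat_lit 23) (.e (nat_lit 98389) (nat_lit 33) (.e (nat_lit 491549) (nat_lit 9) (.e (nat_lit 336306) (nat_lit 15) .nil)))))) (.g (nat_lit 1) (.e (nat_lit 84278) (nat_lit 0) .nil) .nil))))))))) 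
(.nd (nat_lit 4) (.nd (nat_lit 5) (.nd (nat_lit 6) (.nd (nat_lit 7) (.nd (nat_lit 8) 
(.nd (nat_lit 9) 
(.lf (nat_lit 469007) (.g (nat_lit 3051) (.e (nat_lit 3302) (nat_lit 202) (.e (nat_lit 573482) (nat_lit 13) (.e (nat_lit 65624) (nat_lit 12) (.e (nat_lit 385074) (nat_lit 31) (.e (nat_lit 573493) (nat_lit 15) .nil))))) (.g (nat_lit 0) (.e (nat_lit 81714) (nat_lit 0) .nil) .nil))) 
(.lf (nat_lit 469519) (.g (nat_lit 2710) (.e (nat_lit 3305) (nat_lit 202) (.e (nat_lit 573485) (nat_lit 13) (.e (nat_lit 65619) (nat_lit 10) (.e (nat_lit 344129) (nat_lit 26) (.e (nat_lit 557087) (nat_lit 11) (.e (nat_lit 24638) (nat_lit 9) (.e (nat_lit 336291) (nat_lit 15) .nil))))))) (.g (nat_lit 1) (.e (nat_lit 83039) (nat_lit 0) .nil) .nil)))) (.nd (nat_lit 9) 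
(.lf (nat_lit 469263) (.g (nat_lit 2243) (.e (nat_lit 3304) (nat_lit 202) (.e (nat_lit 573485) (nat_lit 13) (.e (nat_lit 65604) (nat_lit 9) (.e (nat_lit 336013) (nat_lit 2) (.e (nat_lit 90165) (nat_lit 12) (.e (nat_lit 171776) (nat_lit 194) (.e (nat_lit 131135) (nat_lit 15) .nil))))))) (.g (nat_lit 1) (.e (nat_lit 82391) (nat_lit 0) .nil) .nil))) 
(.lf (nat_lit 469775) (.g (nat_lit 3256) (.e (nat_lit 3307) (nat_lit 202) (.e (nat_lit 573485) (nat_lit 13) (.e (nat_lit 65604) (nat_lit 9) (.e (nat_lit 336013) (nat_lit 2) (.e (nat_lit 90165) (nat_lit 12) (.e (nat_lit 164214) (nat_lit 176) (.e (nat_lit 2789) (nat_lit 179) (.e (nat_lit 294966) (nat_lit 15) .nil)))))))) (.g (nat_lit 1) (.e (nat_lit 83673) (nat_lit 0) .nil) .nil))))) 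
(.nd (nat_lit 8) (.nd (nat_lit 9) 
(.lf (nat_lit 469135) (.g (nat_lit 3972) (.e (nat_lit 3304) (nat_lit 202) (.e (nat_lit 573474) (nat_lit 12) (.e (nat_lit 57572) (nat_lit 54) (.e (nat_lit 770072) (nat_lit 8) (.e (nat_lit 65571) (nat_lit 3) (.e (nat_lit 98381) (nat_lit 31) (.e (nat_lit 466967) (nat_lit 20) .nil))))))) (.g (nat_lit 1) (.e (nat_lit 82132) (nat_lit 0) .nil) .nil))) 
(.lf (nat_lit 469647) (.g (nat_lit 4487) (.e (nat_lit 3307) (nat_lit 202) (.e (nat_lit 573477) (nat_lit 12) (.e (nat_lit 57574) (nat_lit 55) (.e (nat_lit 778466) (nat_lit 11) (.e (nat_lit 24604) (nat_lit 2) (.e (nat_lit 90178) (nat_lit 15) (.e (nat_lit 188436) (nat_lit 20) .nil))))))) (.g (nat_lit 1) (.e (nat_lit 83304) (nat_lit 0) .nil) .nil)))) (.nd (nat_lit 9) 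
(.lf (nat_lit 469391) (.g (nat_lit 1593) (.e (nat_lit 3305) (nat_lit 202) (.e (nat_lit 573481) (nat_lit 13) (.e (nat_lit 65619) (nat_lit 10) (.e (nat_lit 344126) (nat_lit 25) .nil)))) (.g (nat_lit 0) (.e (nat_lit 82755) (nat_lit 0) .nil) .nil))) 
(.lf (nat_lit 469903) (.g (nat_lit 2026) (.e (nat_lit 3307) (nat_lit 202) (.e (nat_lit 573489) (nat_lit 14) (.e (nat_lit 73754) (nat_lit 8) (.e (nat_lit 557105) (nat_lit 14) (.e (nat_lit 180252) (nat_lit 10) .nil))))) (.g (nat_lit 0) (.e (nat_lit 83871) (nat_lit 0) .nil) .nil)))))) (.nd (nat_lit 7) (.nd (nat_lit 8) (.nd (nat_lit 9) 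
(.lf (nat_lit 469071) (.g (nat_lit 3307) (.e (nat_lit 3302) (nat_lit 202) (.e (nat_lit 573492) (nat_lit 15) (.e (nat_lit 81956) (nat_lit 23) (.e (nat_lit 98350) (nat_lit 24) (.e (nat_lit 409616) (nat_lit 10) (.e (nat_lit 5345) (nat_lit 298) (.e (nat_lit 42) (nat_lit 0) .nil))))))) (.g (nat_lit 1) (.e (nat_lit 81971) (nat_lit 0) .nil) .nil))) 
(.lf (nat_lit 469583) (.g (nat_lit 1939) (.e (nat_lit 3306) (nat_lit 202) (.e (nat_lit 573475) (nat_lit 12) (.e (nat_lit 57574) (nat_lit 55) (.e (nat_lit 778466) (nat_lit 11) (.e (nat_lit 24604) (nat_lit 2) (.e (nat_lit 90176) (nat_lit 15) (.e (nat_lit 188439) (nat_lit 20) .nil))))))) (.g (nat_lit 1) (.e (nat_lit 83168) (nat_lit 0) .nil) .nil)))) (.nd (nat_lit 9) 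
(.lf (nat_lit 469327) (.g (nat_lit 2790) (.e (nat_lit 3304) (nat_lit 202) (.e (nat_lit 573492) (nat_lit 15) (.e (nat_lit 81956) (nat_lit 23) (.e (nat_lit 98388) (nat_lit 33) .nil)))) (.g (nat_lit 0) (.e (nat_lit 82573) (nat_lit 0) .nil) .nil))) 
(.lf (nat_lit 469839) (.g (nat_lit 3695) (.e (nat_lit 3307) (nat_lit 202) (.e (nat_lit 573485) (nat_lit 13) (.e (nat_lit 65619) (nat_lit 10) (.e (nat_lit 344117) (nat_lit 21) (.e (nat_lit 516106) (nat_lit 0) (.e (nat_lit 7016) (nat_lit 377) (.e (nat_lit 2789) (nat_lit 179) (.e (nat_lit 294966) (nat_lit 15) .nil)))))))) (.g (nat_lit 1) (.e (nat_lit 83764) (nat_lit 0) .nil) .nil))))) 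
(.nd (nat_lit 8) (.nd (nat_lit 9) 
(.lf (nat_lit 469199) (.g (nat_lit 2846) (.e (nat_lit 3304) (nat_lit 202) (.e (nat_lit 573482) (nat_lit 13) (.e (nat_lit 65619) (nat_lit 10) (.e (nat_lit 344129) (nat_lit 26) (.e (nat_lit 557087) (nat_lit 11) (.e (nat_lit 24632) (nat_lit 9) (.e (nat_lit 336291) (nat_lit 15) .nil))))))) (.g (nat_lit 1) (.e (nat_lit 82206) (nat_lit 0) .nil) .nil))) 
(.lf (nat_lit 469711) (.g (nat_lit 2231) (.e (nat_lit 3307) (nat_lit 202) (.e (nat_lit 573484) (nat_lit 13) (.e (nat_lit 65610) (nat_lit 10) (.e (nat_lit 344117) (nat_lit 21) (.e (nat_lit 516185) (nat_lit 16) (.e (nat_lit 491546) (nat_lit 9) (.e (nat_lit 336260) (nat_lit 15) .nil))))))) (.g (nat_lit 1) (.e (nat_lit 83534) (nat_lit 0) .nil) .nil)))) (.nd (nat_lit 9) 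
(.lf (nat_lit 469455) (.g (nat_lit 2215) (.e (nat_lit 3305) (nat_lit 202) (.e (nat_lit 573484) (nat_lit 13) (.e (nat_lit 65617) (nat_lit 10) (.e (nat_lit 344130) (nat_lit 26) (.e (nat_lit 557087) (nat_lit 11) (.e (nat_lit 24624) (nat_lit 9) (.e (nat_lit 336262) (nat_lit 15) .nil))))))) (.g (nat_lit 1) (.e (nat_lit 82916) (nat_lit 0) .nil) .nil))) 
(.lf (nat_lit 469967) (.g (nat_lit 5054) (.e (nat_lit 3307) (nat_lit 202) (.e (nat_lit 573492) (nat_lit 15) (.e (nat_lit 81956) (nat_lit 23) (.e (nat_lit 98320) (nat_lit 17) .nil)))) (.g (nat_lit 0) (.e (nat_lit 84184) (nat_lit 0) .nil) .nil))))))) (.nd (nat_lit 6) (.nd (nat_lit 7) (.nd (nat_lit 8) (.nd (nat_lit 9) 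
(.lf (nat_lit 469039) (.g (nat_lit 2719) (.e (nat_lit 3302) (nat_lit 202) (.e (nat_lit 573489) (nat_lit 14) (.e (nat_lit 73755) (nat_lit 8) (.e (nat_lit 557104) (nat_lit 14) .nil)))) (.g (nat_lit 0) (.e (nat_lit 81813) (nat_lit 0) .nil) .nil))) 
(.lf (nat_lit 469551) (.g (nat_lit 2733) (.e (nat_lit 3305) (nat_lit 202) (.e (nat_lit 573492) (nat_lit 15) (.e (nat_lit 81956) (nat_lit 23) (.e (nat_lit 98320) (nat_lit 17) .nil)))) (.g (nat_lit 0) (.e (nat_lit 83108) (nat_lit 0) .nil) .nil)))) (.nd (nat_lit 9) 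
(.lf (nat_lit 469295) (.g (nat_lit 1771) (.e (nat_lit 3304) (nat_lit 202) (.e (nat_lit 573485) (nat_lit 13) (.e (nat_lit 65619) (nat_lit 10) (.e (nat_lit 344129) (nat_lit 26) (.e (nat_lit 557087) (nat_lit 11) (.e (nat_lit 24631) (nat_lit 9) (.e (nat_lit 336267) (nat_lit 15) .nil))))))) (.g (nat_lit 1) (.e (nat_lit 82442) (nat_lit 0) .nil) .nil))) 
(.lf (nat_lit 469807) (.g (nat_lit 3507) (.e (nat_lit 3307) (nat_lit 202) (.e (nat_lit 573485) (nat_lit 13) (.e (nat_lit 65604) (nat_lit 9) (.e (nat_lit 336028) (nat_lit 3) (.e (nat_lit 98325) (nat_lit 17) (.e (nat_lit 7008) (nat_lit 377) (.e (nat_lit 2786) (nat_lit 179) (.e (nat_lit 294966) (nat_lit 15) .nil)))))))) (.g (nat_lit 1) (.e (nat_lit 83705) (nat_lit 0) .nil) .nil))))) 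
(.nd (nat_lit 8) (.nd (nat_lit 9) 
(.lf (nat_lit 469167) (.g (nat_lit 5491) (.e (nat_lit 3304) (nat_lit 202) (.e (nat_lit 573482) (nat_lit 13) (.e (nat_lit 65604) (nat_lit 9) (.e (nat_lit 336013) (nat_lit 2) (.e (nat_lit 90170) (nat_lit 13) (.e (nat_lit 172068) (nat_lit 4) (.e (nat_lit 229678) (nat_lit 244) (.e (nat_lit 163850) (nat_lit 0) .nil)))))))) (.g (nat_lit 1) (.e (nat_lit 82167) (nat_lit 0) .nil) .nil))) 
(.lf (nat_lit 469679) (.g (nat_lit 1957) (.e (nat_lit 3307) (nat_lit 202) (.e (nat_lit 573482) (nat_lit 13) (.e (nat_lit 65619) (nat_lit 10) (.e (nat_lit 344117) (nat_lit 21) .nil)))) (.g (nat_lit 0) (.e (nat_lit 83341) (nat_lit 0) .nil) .nil)))) (.nd (nat_lit 9) 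
(.lf (nat_lit 469423) (.g (nat_lit 3182) (.e (nat_lit 3305) (nat_lit 202) (.e (nat_lit 573484) (nat_lit 13) (.e (nat_lit 65610) (nat_lit 10) (.e (nat_lit 344117) (nat_lit 21) (.e (nat_lit 516106) (nat_lit 0) (.e (nat_lit 7936) (nat_lit 406) (.e (nat_lit 65641) (nat_lit 15) .nil))))))) (.g (nat_lit 1) (.e (nat_lit 82823) (nat_lit 0) .nil) .nil))) 
(.lf (nat_lit 469935) (.g (nat_lit 4341) (.e (nat_lit 3307) (nat_lit 202) (.e (nat_lit 573489) (nat_lit 14) (.e (nat_lit 73755) (nat_lit 8) (.e (nat_lit 557105) (nat_lit 14) (.e (nat_lit 180252) (nat_lit 10) (.e (nat_lit 573474) (nat_lit 12) (.e (nat_lit 57503) (nat_lit 38) (.e (nat_lit 638985) (nat_lit 5) (.e (nat_lit 2461) (nat_lit 157) .nil))))))))) (.g (nat_lit 1) (.e (nat_lit 84131) (nat_lit 0) .nil) .nil)))))) 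
(.nd (nat_lit 7) (.nd (nat_lit 8) (.nd (nat_lit 9) 
(.lf (nat_lit 469103) (.g (nat_lit 4091) (.e (nat_lit 3302) (nat_lit 202) (.e (nat_lit 573492) (nat_lit 15) (.e (nat_lit 81956) (nat_lit 23) (.e (nat_lit 98389) (nat_lit 33) (.e (nat_lit 491556) (nat_lit 9) (.e (nat_lit 343808) (nat_lit 15) .nil)))))) (.g (nat_lit 1) (.e (nat_lit 82018) (nat_lit 0) .nil) .nil))) 
(.lf (nat_lit 469615) (.g (nat_lit 3875) (.e (nat_lit 3307) (nat_lit 202) (.e (nat_lit 573471) (nat_lit 11) (.e (nat_lit 16473) (nat_lit 14) (.e (nat_lit 491536) (nat_lit 2) (.e (nat_lit 90178) (nat_lit 15) (.e (nat_lit 188440) (nat_lit 20) .nil)))))) (.g (nat_lit 1) (.e (nat_lit 83269) (nat_lit 0) .nil) .nil)))) (.nd (nat_lit 9) 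
(.lf (nat_lit 469359) (.g (nat_lit 2550) (.e (nat_lit 3304) (nat_lit 202) (.e (nat_lit 573493) (nat_lit 15) (.e (nat_lit 81956) (nat_lit 23) (.e (nat_lit 98367) (nat_lit 27) (.e (nat_lit 434271) (nat_lit 38) .nil))))) (.g (nat_lit 0) (.e (nat_lit 82704) (nat_lit 0) .nil) .nil))) 
(.lf (nat_lit 469871) (.g (nat_lit 2182) (.e (nat_lit 3307) (nat_lit 202) (.e (nat_lit 573485) (nat_lit 13) (.e (nat_lit 65619) (nat_lit 10) (.e (nat_lit 344117) (nat_lit 21) (.e (nat_lit 516185) (nat_lit 16) (.e (nat_lit 499456) (nat_lit 9) (.e (nat_lit 336306) (nat_lit 15) .nil))))))) (.g (nat_lit 1) (.e (nat_lit 83799) (nat_lit 0) .nil) .nil))))) (.nd (nat_lit 8) (.nd (nat_lit 9) 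
(.lf (nat_lit 469231) (.g (nat_lit 4206) (.e (nat_lit 3304) (nat_lit 202) (.e (nat_lit 573484) (nat_lit 13) (.e (nat_lit 65617) (nat_lit 10) (.e (nat_lit 344130) (nat_lit 26) (.e (nat_lit 557086) (nat_lit 11) (.e (nat_lit 24630) (nat_lit 9) (.e (nat_lit 336306) (nat_lit 15) .nil))))))) (.g (nat_lit 1) (.e (nat_lit 82313) (nat_lit 0) .nil) .nil))) 
(.lf (nat_lit 469743) (.g (nat_lit 4224) (.e (nat_lit 3307) (nat_lit 202) (.e (nat_lit 573484) (nat_lit 13) (.e (nat_lit 65617) (nat_lit 10) (.e (nat_lit 344130) (nat_lit 26) (.e (nat_lit 557086) (nat_lit 11) (.e (nat_lit 24630) (nat_lit 9) (.e (nat_lit 336260) (nat_lit 15) .nil))))))) (.g (nat_lit 1) (.e (nat_lit 83611) (nat_lit 0) .nil) .nil)))) (.nd (nat_lit 9) 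
(.lf (nat_lit 469487) (.g (nat_lit 1835) (.e (nat_lit 3305) (nat_lit 202) (.e (nat_lit 573484) (nat_lit 13) (.e (nat_lit 65628) (nat_lit 14) (.e (nat_lit 401424) (nat_lit 2) (.e (nat_lit 196672) (nat_lit 15) (.e (nat_lit 81924) (nat_lit 0) .nil)))))) (.g (nat_lit 1) (.e (nat_lit 82991) (nat_lit 0) .nil) .nil))) 
(.lf (nat_lit 469999) (.g (nat_lit 3675) (.e (nat_lit 3307) (nat_lit 202) (.e (nat_lit 573493) (nat_lit 15) (.e (nat_lit 81956) (nat_lit 23) (.e (nat_lit 98389) (nat_lit 33) (.e (nat_lit 491546) (nat_lit 9) (.e (nat_lit 336261) (nat_lit 15) .nil)))))) (.g (nat_lit 1) (.e (nat_lit 84270) (nat_lit 0) .nil) .nil)))))))) 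
(.nd (nat_lit 5) (.nd (nat_lit 6) (.nd (nat_lit 7) (.nd (nat_lit 8) (.nd (nat_lit 9) 
(.lf (nat_lit 469023) (.g (nat_lit 1210) (.e (nat_lit 3302) (nat_lit 202) (.e (nat_lit 573484) (nat_lit 13) (.e (nat_lit 65617) (nat_lit 10) (.e (nat_lit 344130) (nat_lit 26) .nil)))) (.g (nat_lit 0) (.e (nat_lit 81747) (nat_lit 0) .nil) .nil))) 
(.lf (nat_lit 469535) (.g (nat_lit 2835) (.e (nat_lit 3305) (nat_lit 202) (.e (nat_lit 573488) (nat_lit 14) (.e (nat_lit 73782) (nat_lit 32) (.e (nat_lit 2663) (nat_lit 167) (.e (nat_lit 196672) (nat_lit 15) (.e (nat_lit 81924) (nat_lit 0) .nil)))))) (.g (nat_lit 1) (.e (nat_lit 83062) (nat_lit 0) .nil) .nil)))) (.nd (nat_lit 9) 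
(.lf (nat_lit 469279) (.g (nat_lit 2366) (.e (nat_lit 3304) (nat_lit 202) (.e (nat_lit 573485) (nat_lit 13) (.e (nat_lit 65619) (nat_lit 10) (.e (nat_lit 344117) (nat_lit 21) (.e (nat_lit 516106) (nat_lit 0) (.e (nat_lit 7936) (nat_lit 406) (.e (nat_lit 65642) (nat_lit 15) .nil))))))) (.g (nat_lit 1) (.e (nat_lit 82417) (nat_lit 0) .nil) .nil))) 
(.lf (nat_lit 469791) (.g (nat_lit 2346) (.e (nat_lit 3307) (nat_lit 202) (.e (nat_lit 573485) (nat_lit 13) (.e (nat_lit 65604) (nat_lit 9) (.e (nat_lit 336013) (nat_lit 2) (.e (nat_lit 90170) (nat_lit 13) (.e (nat_lit 172068) (nat_lit 4) (.e (nat_lit 229678) (nat_lit 244) (.e (nat_lit 163840) (nat_lit 0) .nil)))))))) (.g (nat_lit 1) (.e (nat_lit 83689) (nat_lit 0) .nil) .nil))))) 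
(.nd (nat_lit 8) (.nd (nat_lit 9) 
(.lf (nat_lit 469151) (.g (nat_lit 2376) (.e (nat_lit 3304) (nat_lit 202) (.e (nat_lit 573477) (nat_lit 12) (.e (nat_lit 57575) (nat_lit 55) (.e (nat_lit 778465) (nat_lit 11) (.e (nat_lit 24604) (nat_lit 2) (.e (nat_lit 90176) (nat_lit 15) (.e (nat_lit 188440) (nat_lit 20) .nil))))))) (.g (nat_lit 1) (.e (nat_lit 82149) (nat_lit 0) .nil) .nil))) 
(.lf (nat_lit 469663) (.g (nat_lit 2214) (.e (nat_lit 3307) (nat_lit 202) (.e (nat_lit 573477) (nat_lit 12) (.e (nat_lit 57575) (nat_lit 55) (.e (nat_lit 778466) (nat_lit 11) (.e (nat_lit 24603) (nat_lit 2) (.e (nat_lit 90176) (nat_lit 15) (.e (nat_lit 188424) (nat_lit 20) .nil))))))) (.g (nat_lit 1) (.e (nat_lit 83320) (nat_lit 0) .nil) .nil)))) (.nd (nat_lit 9) 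
(.lf (nat_lit 469407) (.g (nat_lit 2656) (.e (nat_lit 3305) (nat_lit 202) (.e (nat_lit 573482) (nat_lit 13) (.e (nat_lit 65628) (nat_lit 14) (.e (nat_lit 401425) (nat_lit 2) (.e (nat_lit 196672) (nat_lit 15) .nil))))) (.g (nat_lit 0) (.e (nat_lit 82776) (nat_lit 0) .nil) .nil))) 
(.lf (nat_lit 469919) (.g (nat_lit 2659) (.e (nat_lit 3307) (nat_lit 202) (.e (nat_lit 573489) (nat_lit 14) (.e (nat_lit 73755) (nat_lit 8) (.e (nat_lit 557104) (nat_lit 14) (.e (nat_lit 180252) (nat_lit 10) .nil))))) (.g (nat_lit 0) (.e (nat_lit 84023) (nat_lit 0) .nil) .nil)))))) (.nd (nat_lit 7) (.nd (nat_lit 8) (.nd (nat_lit 9) 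
(.lf (nat_lit 469087) (.g (nat_lit 2259) (.e (nat_lit 3302) (nat_lit 202) (.e (nat_lit 573492) (nat_lit 15) (.e (nat_lit 81956) (nat_lit 23) (.e (nat_lit 98386) (nat_lit 32) .nil)))) (.g (nat_lit 0) (.e (nat_lit 82002) (nat_lit 0) .nil) .nil))) 
(.lf (nat_lit 469599) (.g (nat_lit 2656) (.e (nat_lit 3307) (nat_lit 202) (.e (nat_lit 573469) (nat_lit 11) (.e (nat_lit 16472) (nat_lit 14) (.e (nat_lit 491535) (nat_lit 2) (.e (nat_lit 90178) (nat_lit 15) (.e (nat_lit 188440) (nat_lit 20) .nil)))))) (.g (nat_lit 1) (.e (nat_lit 83252) (nat_lit 0) .nil) .nil)))) (.nd (nat_lit 9) 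
(.lf (nat_lit 469343) (.g (nat_lit 5421) (.e (nat_lit 3304) (nat_lit 202) (.e (nat_lit 573493) (nat_lit 15) (.e (nat_lit 81953) (nat_lit 22) (.e (nat_lit 90170) (nat_lit 13) (.e (nat_lit 172068) (nat_lit 4) (.e (nat_lit 229678) (nat_lit 244) (.e (nat_lit 163850) (nat_lit 0) .nil))))))) (.g (nat_lit 1) (.e (nat_lit 82637) (nat_lit 0) .nil) .nil))) 
(.lf (nat_lit 469855) (.g (nat_lit 4530) (.e (nat_lit 3307) (nat_lit 202) (.e (nat_lit 573485) (nat_lit 13) (.e (nat_lit 65619) (nat_lit 10) (.e (nat_lit 344117) (nat_lit 21) (.e (nat_lit 516160) (nat_lit 10) (.e (nat_lit 434272) (nat_lit 38) (.e (nat_lit 655364) (nat_lit 0) (.e (nat_lit 2472) (nat_lit 157) .nil)))))))) (.g (nat_lit 1) (.e (nat_lit 83783) (nat_lit 0) .nil) .nil))))) 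
(.nd (nat_lit 8) (.nd (nat_lit 9) 
(.lf (nat_lit 469215) (.g (nat_lit 2692) (.e (nat_lit 3304) (nat_lit 202) (.e (nat_lit 573482) (nat_lit 13) (.e (nat_lit 65630) (nat_lit 14) (.e (nat_lit 401428) (nat_lit 3) (.e (nat_lit 204866) (nat_lit 28) (.e (nat_lit 352260) (nat_lit 0) .nil)))))) (.g (nat_lit 1) (.e (nat_lit 82225) (nat_lit 0) .nil) .nil))) 
(.lf (nat_lit 469727) (.g (nat_lit 2748) (.e (nat_lit 3307) (nat_lit 202) (.e (nat_lit 573484) (nat_lit 13) (.e (nat_lit 65610) (nat_lit 10) (.e (nat_lit 344129) (nat_lit 26) (.e (nat_lit 557087) (nat_lit 11) (.e (nat_lit 24623) (nat_lit 9) (.e (nat_lit 336260) (nat_lit 15) .nil))))))) (.g (nat_lit 1) (.e (nat_lit 83591) (nat_lit 0) .nil) .nil)))) (.nd (nat_lit 9) 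
(.lf (nat_lit 469471) (.g (nat_lit 3929) (.e (nat_lit 3305) (nat_lit 202) (.e (nat_lit 573484) (nat_lit 13) (.e (nat_lit 65617) (nat_lit 10) (.e (nat_lit 344130) (nat_lit 26) (.e (nat_lit 557087) (nat_lit 11) (.e (nat_lit 24636) (nat_lit 9) (.e (nat_lit 336277) (nat_lit 15) .nil))))))) (.g (nat_lit 1) (.e (nat_lit 82932) (nat_lit 0) .nil) .nil))) 
(.lf (nat_lit 469983) (.g (nat_lit 2773) (.e (nat_lit 3307) (nat_lit 202) (.e (nat_lit 573493) (nat_lit 15) (.e (nat_lit 81956) (nat_lit 23) (.e (nat_lit 98325) (nat_lit 17) .nil)))) (.g (nat_lit 0) (.e (nat_lit 84238) (nat_lit 0) .nil) .nil))))))) (.nd (nat_lit 6) (.nd (nat_lit 7) (.nd (nat_lit 8) (.nd (nat_lit 9) 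
(.lf (nat_lit 469055) (.g (nat_lit 3343) (.e (nat_lit 3302) (nat_lit 202) (.e (nat_lit 573492) (nat_lit 15) (.e (nat_lit 81956) (nat_lit 23) (.e (nat_lit 98319) (nat_lit 17) (.e (nat_lit 7587) (nat_lit 406) (.e (nat_lit 65636) (nat_lit 15) .nil)))))) (.g (nat_lit 1) (.e (nat_lit 81945) (nat_lit 0) .nil) .nil))) 
(.lf (nat_lit 469567) (.g (nat_lit 5431) (.e (nat_lit 3305) (nat_lit 202) (.e (nat_lit 573493) (nat_lit 15) (.e (nat_lit 81953) (nat_lit 22) (.e (nat_lit 90198) (nat_lit 18) .nil)))) (.g (nat_lit 0) (.e (nat_lit 83144) (nat_lit 0) .nil) .nil)))) (.nd (nat_lit 9) 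
(.lf (nat_lit 469311) (.g (nat_lit 2995) (.e (nat_lit 3304) (nat_lit 202) (.e (nat_lit 573489) (nat_lit 14) (.e (nat_lit 73755) (nat_lit 8) (.e (nat_lit 557098) (nat_lit 13) (.e (nat_lit 179968) (nat_lit 15) .nil))))) (.g (nat_lit 0) (.e (nat_lit 82473) (nat_lit 0) .nil) .nil))) 
(.lf (nat_lit 469823) (.g (nat_lit 3033) (.e (nat_lit 3307) (nat_lit 202) (.e (nat_lit 573485) (nat_lit 13) (.e (nat_lit 65619) (nat_lit 10) (.e (nat_lit 344117) (nat_lit 21) (.e (nat_lit 516098) (nat_lit 0) (.e (nat_lit 7589) (nat_lit 406) (.e (nat_lit 73472) (nat_lit 15) .nil))))))) (.g (nat_lit 1) (.e (nat_lit 83747) (nat_lit 0) .nil) .nil))))) (.nd (nat_lit 8) (.nd (nat_lit 9) 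
(.lf (nat_lit 469183) (.g (nat_lit 3743) (.e (nat_lit 3304) (nat_lit 202) (.e (nat_lit 573482) (nat_lit 13) (.e (nat_lit 65619) (nat_lit 10) (.e (nat_lit 344117) (nat_lit 21) (.e (nat_lit 516106) (nat_lit 0) (.e (nat_lit 6986) (nat_lit 377) (.e (nat_lit 2779) (nat_lit 178) (.e (nat_lit 286765) (nat_lit 15) .nil)))))))) (.g (nat_lit 1) (.e (nat_lit 82187) (nat_lit 0) .nil) .nil))) 
(.lf (nat_lit 469695) (.g (nat_lit 5483) (.e (nat_lit 3307) (nat_lit 202) (.e (nat_lit 573484) (nat_lit 13) (.e (nat_lit 65610) (nat_lit 10) (.e (nat_lit 344117) (nat_lit 21) (.e (nat_lit 516106) (nat_lit 0) (.e (nat_lit 6986) (nat_lit 377) (.e (nat_lit 2782) (nat_lit 178) (.e (nat_lit 286765) (nat_lit 15) .nil)))))))) (.g (nat_lit 1) (.e (nat_lit 83374) (nat_lit 0) .nil) .nil)))) 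
(.nd (nat_lit 9) 
(.lf (nat_lit 469439) (.g (nat_lit 3399) (.e (nat_lit 3305) (nat_lit 202) (.e (nat_lit 573484) (nat_lit 13) (.e (nat_lit 65610) (nat_lit 10) (.e (nat_lit 344129) (nat_lit 26) (.e (nat_lit 557087) (nat_lit 11) (.e (nat_lit 24638) (nat_lit 9) (.e (nat_lit 336293) (nat_lit 15) .nil))))))) (.g (nat_lit 1) (.e (nat_lit 82862) (nat_lit 0) .nil) .nil))) 
(.lf (nat_lit 469951) (.g (nat_lit 3841) (.e (nat_lit 3307) (nat_lit 202) (.e (nat_lit 573489) (nat_lit 14) (.e (nat_lit 73755) (nat_lit 8) (.e (nat_lit 557105) (nat_lit 14) (.e (nat_lit 180252) (nat_lit 10) (.e (nat_lit 573475) (nat_lit 12) (.e (nat_lit 57504) (nat_lit 38) (.e (nat_lit 638986) (nat_lit 5) (.e (nat_lit 2461) (nat_lit 157) .nil))))))))) (.g (nat_lit 1) (.e (nat_lit 84156) (nat_lit 0) .nil) .nil)))))) 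
(.nd (nat_lit 7) (.nd (nat_lit 8) (.nd (nat_lit 9) 
(.lf (nat_lit 469119) (.g (nat_lit 4849) (.e (nat_lit 3302) (nat_lit 202) (.e (nat_lit 573493) (nat_lit 15) (.e (nat_lit 81956) (nat_lit 23) (.e (nat_lit 98384) (nat_lit 32) (.e (nat_lit 475211) (nat_lit 41) (.e (nat_lit 712722) (nat_lit 15) .nil)))))) (.g (nat_lit 1) (.e (nat_lit 82073) (nat_lit 0) .nil) .nil))) 
(.lf (nat_lit 469631) (.g (nat_lit 2243) (.e (nat_lit 3307) (nat_lit 202) (.e (nat_lit 573477) (nat_lit 12) (.e (nat_lit 57574) (nat_lit 55) (.e (nat_lit 778464) (nat_lit 11) (.e (nat_lit 24603) (nat_lit 2) (.e (nat_lit 90176) (nat_lit 15) (.e (nat_lit 188438) (nat_lit 20) .nil))))))) (.g (nat_lit 1) (.e (nat_lit 83288) (nat_lit 0) .nil) .nil)))) (.nd (nat_lit 9) 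
(.lf (nat_lit 469375) (.g (nat_lit 666) (.e (nat_lit 3305) (nat_lit 202) (.e (nat_lit 573454) (nat_lit 9) (.e (nat_lit 1521) (nat_lit 108) (.e (nat_lit 336204) (nat_lit 12) .nil)))) (.g (nat_lit 0) (.e (nat_lit 82738) (nat_lit 0) .nil) .nil))) 
(.lf (nat_lit 469887) (.g (nat_lit 2978) (.e (nat_lit 3307) (nat_lit 202) (.e (nat_lit 573485) (nat_lit 13) (.e (nat_lit 65619) (nat_lit 10) (.e (nat_lit 344129) (nat_lit 26) (.e (nat_lit 557087) (nat_lit 11) (.e (nat_lit 24631) (nat_lit 9) (.e (nat_lit 343808) (nat_lit 15) .nil))))))) (.g (nat_lit 1) (.e (nat_lit 83821) (nat_lit 0) .nil) .nil))))) (.nd (nat_lit 8) (.nd (nat_lit 9) 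
(.lf (nat_lit 469247) (.g (nat_lit 3325) (.e (nat_lit 3304) (nat_lit 202) (.e (nat_lit 573484) (nat_lit 13) (.e (nat_lit 65617) (nat_lit 10) (.e (nat_lit 344130) (nat_lit 26) (.e (nat_lit 557087) (nat_lit 11) (.e (nat_lit 24632) (nat_lit 9) (.e (nat_lit 336294) (nat_lit 15) .nil))))))) (.g (nat_lit 1) (.e (nat_lit 82329) (nat_lit 0) .nil) .nil))) 
(.lf (nat_lit 469759) (.g (nat_lit 2394) (.e (nat_lit 3307) (nat_lit 202) (.e (nat_lit 573484) (nat_lit 13) (.e (nat_lit 65624) (nat_lit 12) (.e (nat_lit 385074) (nat_lit 31) (.e (nat_lit 573491) (nat_lit 15) (.e (nat_lit 89856) (nat_lit 0) .nil)))))) (.g (nat_lit 1) (.e (nat_lit 83634) (nat_lit 0) .nil) .nil)))) (.nd (nat_lit 9) 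
(.lf (nat_lit 469503) (.g (nat_lit 1787) (.e (nat_lit 3305) (nat_lit 202) (.e (nat_lit 573485) (nat_lit 13) (.e (nat_lit 65619) (nat_lit 10) (.e (nat_lit 344117) (nat_lit 21) (.e (nat_lit 516106) (nat_lit 0) .nil))))) (.g (nat_lit 0) (.e (nat_lit 83023) (nat_lit 0) .nil) .nil))) 
(.lf (nat_lit 470015) (.g (nat_lit 2629) (.e (nat_lit 3308) (nat_lit 202) (.e (nat_lit 573471) (nat_lit 11) (.e (nat_lit 16473) (nat_lit 14) (.e (nat_lit 491536) (nat_lit 2) (.e (nat_lit 90178) (nat_lit 15) .nil))))) (.g (nat_lit 0) (.e (nat_lit 84290) (nat_lit 0) .nil) .nil)))))))))))))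

noncomputable def tv5519 : DT := (.nd (nat_lit 0) (.nd (nat_lit 1) (.nd (nat_lit 2) (.nd (nat_lit 3) (.nd (nat_lit 4) (.nd (nat_lit 5) (.nd (nat_lit 6) (.nd (nat_lit 7) (.nd (nat_lit 8) (.nd (nat_lit 9) 
(.lf (nat_lit 470016) (.g (nat_lit 2789) (.e (nat_lit 3308) (nat_lit 202) (.e (nat_lit 573471) (nat_lit 11) (.e (nat_lit 16473) (nat_lit 14) (.e (nat_lit 491536) (nat_lit 2) (.e (nat_lit 90178) (nat_lit 15) (.e (nat_lit 188441) (nat_lit 20) .nil)))))) (.g (nat_lit 1) (.e (nat_lit 84291) (nat_lit 0) .nil) .nil))) 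
(.lf (nat_lit 470528) (.g (nat_lit 2998) (.e (nat_lit 3277) (nat_lit 200) (.e (nat_lit 557105) (nat_lit 14) (.e (nat_lit 180252) (nat_lit 10) (.e (nat_lit 573482) (nat_lit 13) (.e (nat_lit 65644) (nat_lit 22) .nil))))) (.g (nat_lit 0) (.e (nat_lit 85793) (nat_lit 0) .nil) .nil)))) (.nd (nat_lit 9) 
(.lf (nat_lit 470272) (.g (nat_lit 2715) (.e (nat_lit 3308) (nat_lit 202) (.e (nat_lit 573493) (nat_lit 15) (.e (nat_lit 81954) (nat_lit 23) (.e (nat_lit 98325) (nat_lit 17) (.e (nat_lit 6986) (nat_lit 377) .nil))))) (.g (nat_lit 0) (.e (nat_lit 84902) (nat_lit 0) .nil) .nil))) 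
(.lf (nat_lit 470784) (.g (nat_lit 2414) (.e (nat_lit 3397) (nat_lit 211) (.e (nat_lit 647181) (nat_lit 3) (.e (nat_lit 163978) (nat_lit 30) (.e (nat_lit 573485) (nat_lit 13) (.e (nat_lit 65604) (nat_lit 9) (.e (nat_lit 336028) (nat_lit 3) (.e (nat_lit 98360) (nat_lit 26) (.e (nat_lit 426025) (nat_lit 0) .nil)))))))) (.g (nat_lit 1) (.e (nat_lit 86394) (nat_lit 0) .nil) .nil))))) 
(.nd (nat_lit 8) (.nd (nat_lit 9) 
(.lf (nat_lit 470144) (.g (nat_lit 3179) (.e (nat_lit 3308) (nat_lit 202) (.e (nat_lit 573482) (nat_lit 13) (.e (nat_lit 65619) (nat_lit 10) (.e (nat_lit 344129) (nat_lit 26) (.e (nat_lit 557087) (nat_lit 11) (.e (nat_lit 24631) (nat_lit 9) (.e (nat_lit 343808) (nat_lit 15) .nil))))))) (.g (nat_lit 1) (.e (nat_lit 84445) (nat_lit 0) .nil) .nil))) 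
(.lf (nat_lit 470656) (.g (nat_lit 2618) (.e (nat_lit 3387) (nat_lit 210) (.e (nat_lit 639020) (nat_lit 16) (.e (nat_lit 65571) (nat_lit 3) (.e (nat_lit 98374) (nat_lit 29) (.e (nat_lit 458496) (nat_lit 3) .nil))))) (.g (nat_lit 0) (.e (nat_lit 85983) (nat_lit 0) .nil) .nil)))) (.nd (nat_lit 9) 
(.lf (nat_lit 470400) (.g (nat_lit 1710) (.e (nat_lit 3309) (nat_lit 202) (.e (nat_lit 573485) (nat_lit 13) (.e (nat_lit 65604) (nat_lit 9) (.e (nat_lit 336013) (nat_lit 2) (.e (nat_lit 90165) (nat_lit 12) .nil))))) (.g (nat_lit 0) (.e (nat_lit 85409) (nat_lit 0) .nil) .nil))) 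
(.lf (nat_lit 470912) (.g (nat_lit 2107) (.e (nat_lit 3397) (nat_lit 211) (.e (nat_lit 647183) (nat_lit 4) (.e (nat_lit 172124) (nat_lit 14) (.e (nat_lit 491570) (nat_lit 13) (.e (nat_lit 393274) (nat_lit 23) (.e (nat_lit 426025) (nat_lit 0) .nil)))))) (.g (nat_lit 1) (.e (nat_lit 86544) (nat_lit 0) .nil) .nil)))))) (.nd (nat_lit 7) (.nd (nat_lit 8) (.nd (nat_lit 9) 
(.lf (nat_lit 470080) (.g (nat_lit 606) (.e (nat_lit 3308) (nat_lit 202) (.e (nat_lit 573482) (nat_lit 13) (.e (nat_lit 65616) (nat_lit 10) .nil))) (.g (nat_lit 0) (.e (nat_lit 84378) (nat_lit 0) .nil) .nil))) 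
(.lf (nat_lit 470592) (.g (nat_lit 1493) (.e (nat_lit 3288) (nat_lit 201) (.e (nat_lit 565269) (nat_lit 6) (.e (nat_lit 81947) (nat_lit 20) (.e (nat_lit 2391) (nat_lit 156) (.e (nat_lit 819221) (nat_lit 6) .nil))))) (.g (nat_lit 0) (.e (nat_lit 85885) (nat_lit 0) .nil) .nil)))) (.nd (nat_lit 9) 
(.lf (nat_lit 470336) (.g (nat_lit 1975) (.e (nat_lit 3308) (nat_lit 202) (.e (nat_lit 573493) (nat_lit 15) (.e (nat_lit 81956) (nat_lit 23) (.e (nat_lit 98388) (nat_lit 33) .nil)))) (.g (nat_lit 0) (.e (nat_lit 85074) (nat_lit 0) .nil) .nil))) 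
(.lf (nat_lit 470848) (.g (nat_lit 3004) (.e (nat_lit 3397) (nat_lit 211) (.e (nat_lit 647183) (nat_lit 4) (.e (nat_lit 172106) (nat_lit 10) (.e (nat_lit 434209) (nat_lit 18) (.e (nat_lit 5546) (nat_lit 306) (.e (nat_lit 2619) (nat_lit 164) (.e (nat_lit 172097) (nat_lit 9) (.e (nat_lit 426025) (nat_lit 0) .nil)))))))) (.g (nat_lit 1) (.e (nat_lit 86476) (nat_lit 0) .nil) .nil))))) 
(.nd (nat_lit 8) (.nd (nat_lit 9) 
(.lf (nat_lit 470208) (.g (nat_lit 3139) (.e (nat_lit 3308) (nat_lit 202) (.e (nat_lit 573491) (nat_lit 15) (.e (nat_lit 81956) (nat_lit 23) (.e (nat_lit 98389) (nat_lit 33) (.e (nat_lit 491548) (nat_lit 9) .nil))))) (.g (nat_lit 0) (.e (nat_lit 84715) (nat_lit 0) .nil) .nil))) 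
(.lf (nat_lit 470720) (.g (nat_lit 2569) (.e (nat_lit 3397) (nat_lit 211) (.e (nat_lit 647181) (nat_lit 3) (.e (nat_lit 163977) (nat_lit 30) (.e (nat_lit 573481) (nat_lit 13) (.e (nat_lit 65619) (nat_lit 10) (.e (nat_lit 344117) (nat_lit 21) (.e (nat_lit 516151) (nat_lit 9) (.e (nat_lit 426003) (nat_lit 0) .nil)))))))) (.g (nat_lit 1) (.e (nat_lit 86330) (nat_lit 0) .nil) .nil)))) 
(.nd (nat_lit 9) 
(.lf (nat_lit 470464) (.g (nat_lit 3477) (.e (nat_lit 3309) (nat_lit 202) (.e (nat_lit 573489) (nat_lit 14) (.e (nat_lit 73755) (nat_lit 8) (.e (nat_lit 557098) (nat_lit 13) (.e (nat_lit 179968) (nat_lit 18) (.e (nat_lit 98335) (nat_lit 18) (.e (nat_lit 164330) (nat_lit 230) (.e (nat_lit 163841) (nat_lit 0) .nil)))))))) (.g (nat_lit 1) (.e (nat_lit 85537) (nat_lit 0) .nil) .nil))) 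
(.lf (nat_lit 470976) (.g (nat_lit 3277) (.e (nat_lit 3399) (nat_lit 211) (.e (nat_lit 647180) (nat_lit 3) (.e (nat_lit 163976) (nat_lit 30) (.e (nat_lit 573481) (nat_lit 13) (.e (nat_lit 65619) (nat_lit 10) (.e (nat_lit 344117) (nat_lit 21) (.e (nat_lit 516151) (nat_lit 9) (.e (nat_lit 426023) (nat_lit 0) .nil)))))))) (.g (nat_lit 1) (.e (nat_lit 86656) (nat_lit 0) .nil) .nil))))))) 
(.nd (nat_lit 6) (.nd (nat_lit 7) (.nd (nat_lit 8) (.nd (nat_lit 9) 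
(.lf (nat_lit 470048) (.g (nat_lit 2348) (.e (nat_lit 3308) (nat_lit 202) (.e (nat_lit 573482) (nat_lit 13) (.e (nat_lit 65604) (nat_lit 9) (.e (nat_lit 336013) (nat_lit 2) (.e (nat_lit 90165) (nat_lit 12) (.e (nat_lit 164207) (nat_lit 176) (.e (nat_lit 2779) (nat_lit 178) (.e (nat_lit 286765) (nat_lit 15) .nil)))))))) (.g (nat_lit 1) (.e (nat_lit 84343) (nat_lit 0) .nil) .nil))) 
(.lf (nat_lit 470560) (.g (nat_lit 2392) (.e (nat_lit 3281) (nat_lit 200) (.e (nat_lit 557103) (nat_lit 14) (.e (nat_lit 180250) (nat_lit 10) (.e (nat_lit 573482) (nat_lit 13) (.e (nat_lit 65644) (nat_lit 22) .nil))))) (.g (nat_lit 0) (.e (nat_lit 85831) (nat_lit 0) .nil) .nil)))) (.nd (nat_lit 9) 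
(.lf (nat_lit 470304) (.g (nat_lit 4299) (.e (nat_lit 3308) (nat_lit 202) (.e (nat_lit 573493) (nat_lit 15) (.e (nat_lit 81956) (nat_lit 23) (.e (nat_lit 98326) (nat_lit 17) .nil)))) (.g (nat_lit 0) (.e (nat_lit 84969) (nat_lit 0) .nil) .nil))) 
(.lf (nat_lit 470816) (.g (nat_lit 4612) (.e (nat_lit 3397) (nat_lit 211) (.e (nat_lit 647181) (nat_lit 3) (.e (nat_lit 163979) (nat_lit 30) (.e (nat_lit 573493) (nat_lit 15) (.e (nat_lit 81956) (nat_lit 23) (.e (nat_lit 98359) (nat_lit 26) (.e (nat_lit 426025) (nat_lit 0) .nil))))))) (.g (nat_lit 1) (.e (nat_lit 86428) (nat_lit 0) .nil) .nil))))) (.nd (nat_lit 8) (.nd (nat_lit 9) 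
(.lf (nat_lit 470176) (.g (nat_lit 1884) (.e (nat_lit 3308) (nat_lit 202) (.e (nat_lit 573489) (nat_lit 14) (.e (nat_lit 73755) (nat_lit 8) (.e (nat_lit 557097) (nat_lit 13) .nil)))) (.g (nat_lit 0) (.e (nat_lit 84544) (nat_lit 0) .nil) .nil))) 
(.lf (nat_lit 470688) (.g (nat_lit 2497) (.e (nat_lit 3391) (nat_lit 210) (.e (nat_lit 639020) (nat_lit 16) (.e (nat_lit 65571) (nat_lit 3) (.e (nat_lit 98373) (nat_lit 29) (.e (nat_lit 458496) (nat_lit 3) .nil))))) (.g (nat_lit 0) (.e (nat_lit 86167) (nat_lit 0) .nil) .nil)))) (.nd (nat_lit 9) 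
(.lf (nat_lit 470432) (.g (nat_lit 3645) (.e (nat_lit 3309) (nat_lit 202) (.e (nat_lit 573485) (nat_lit 13) (.e (nat_lit 65619) (nat_lit 10) (.e (nat_lit 344129) (nat_lit 26) (.e (nat_lit 557087) (nat_lit 11) (.e (nat_lit 24636) (nat_lit 9) (.e (nat_lit 336237) (nat_lit 15) .nil))))))) (.g (nat_lit 1) (.e (nat_lit 85474) (nat_lit 0) .nil) .nil))) 
(.lf (nat_lit 470944) (.g (nat_lit 3206) (.e (nat_lit 3397) (nat_lit 211) (.e (nat_lit 647183) (nat_lit 4) (.e (nat_lit 172126) (nat_lit 14) (.e (nat_lit 491571) (nat_lit 13) (.e (nat_lit 393274) (nat_lit 23) (.e (nat_lit 426025) (nat_lit 0) .nil)))))) (.g (nat_lit 1) (.e (nat_lit 86576) (nat_lit 0) .nil) .nil)))))) (.nd (nat_lit 7) (.nd (nat_lit 8) (.nd (nat_lit 9) 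
(.lf (nat_lit 470112) (.g (nat_lit 2940) (.e (nat_lit 3308) (nat_lit 202) (.e (nat_lit 573482) (nat_lit 13) (.e (nat_lit 65619) (nat_lit 10) (.e (nat_lit 344117) (nat_lit 21) (.e (nat_lit 516106) (nat_lit 0) (.e (nat_lit 7936) (nat_lit 409) (.e (nat_lit 139008) (nat_lit 15) .nil))))))) (.g (nat_lit 1) (.e (nat_lit 84412) (nat_lit 0) .nil) .nil))) 
(.lf (nat_lit 470624) (.g (nat_lit 2224) (.e (nat_lit 3289) (nat_lit 201) (.e (nat_lit 565269) (nat_lit 6) (.e (nat_lit 81946) (nat_lit 20) (.e (nat_lit 2391) (nat_lit 156) (.e (nat_lit 819221) (nat_lit 6) (.e (nat_lit 188434) (nat_lit 20) .nil)))))) (.g (nat_lit 1) (.e (nat_lit 85925) (nat_lit 0) .nil) .nil)))) (.nd (nat_lit 9) 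
(.lf (nat_lit 470368) (.g (nat_lit 3105) (.e (nat_lit 3309) (nat_lit 202) (.e (nat_lit 573484) (nat_lit 13) (.e (nat_lit 65610) (nat_lit 10) (.e (nat_lit 344117) (nat_lit 21) (.e (nat_lit 516185) (nat_lit 16) (.e (nat_lit 491552) (nat_lit 9) (.e (nat_lit 343808) (nat_lit 15) .nil))))))) (.g (nat_lit 1) (.e (nat_lit 85194) (nat_lit 0) .nil) .nil))) 
(.lf (nat_lit 470880) (.g (nat_lit 1525) (.e (nat_lit 3397) (nat_lit 211) (.e (nat_lit 647183) (nat_lit 4) (.e (nat_lit 172118) (nat_lit 12) (.e (nat_lit 475197) (nat_lit 40) (.e (nat_lit 704598) (nat_lit 6) (.e (nat_lit 188431) (nat_lit 20) .nil)))))) (.g (nat_lit 1) (.e (nat_lit 86512) (nat_lit 0) .nil) .nil))))) (.nd (nat_lit 8) (.nd (nat_lit 9) 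
(.lf (nat_lit 470240) (.g (nat_lit 4925) (.e (nat_lit 3308) (nat_lit 202) (.e (nat_lit 573493) (nat_lit 15) (.e (nat_lit 81953) (nat_lit 22) (.e (nat_lit 90127) (nat_lit 9) .nil)))) (.g (nat_lit 0) (.e (nat_lit 84837) (nat_lit 0) .nil) .nil))) 
(.lf (nat_lit 470752) (.g (nat_lit 2924) (.e (nat_lit 3397) (nat_lit 211) (.e (nat_lit 647181) (nat_lit 3) (.e (nat_lit 163977) (nat_lit 30) (.e (nat_lit 573491) (nat_lit 15) (.e (nat_lit 81954) (nat_lit 23) (.e (nat_lit 98354) (nat_lit 26) (.e (nat_lit 426025) (nat_lit 0) .nil))))))) (.g (nat_lit 1) (.e (nat_lit 86362) (nat_lit 0) .nil) .nil)))) (.nd (nat_lit 9) 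
(.lf (nat_lit 470496) (.g (nat_lit 3384) (.e (nat_lit 3275) (nat_lit 200) (.e (nat_lit 557104) (nat_lit 14) (.e (nat_lit 180252) (nat_lit 10) (.e (nat_lit 573482) (nat_lit 13) (.e (nat_lit 65566) (nat_lit 2) .nil))))) (.g (nat_lit 0) (.e (nat_lit 85760) (nat_lit 0) .nil) .nil))) 
(.lf (nat_lit 471008) (.g (nat_lit 4159) (.e (nat_lit 3399) (nat_lit 211) (.e (nat_lit 647181) (nat_lit 3) (.e (nat_lit 163977) (nat_lit 30) (.e (nat_lit 573485) (nat_lit 13) (.e (nat_lit 65604) (nat_lit 9) (.e (nat_lit 336013) (nat_lit 2) (.e (nat_lit 90170) (nat_lit 13) (.e (nat_lit 172039) (nat_lit 0) .nil)))))))) (.g (nat_lit 1) (.e (nat_lit 86692) (nat_lit 0) .nil) .nil)))))))) 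
(.nd (nat_lit 5) (.nd (nat_lit 6) (.nd (nat_lit 7) (.nd (nat_lit 8) (.nd (nat_lit 9) 
(.lf (nat_lit 470032) (.g (nat_lit 3244) (.e (nat_lit 3308) (nat_lit 202) (.e (nat_lit 573475) (nat_lit 12) (.e (nat_lit 57574) (nat_lit 55) (.e (nat_lit 778466) (nat_lit 11) (.e (nat_lit 24604) (nat_lit 2) (.e (nat_lit 90176) (nat_lit 15) (.e (nat_lit 188442) (nat_lit 20) .nil))))))) (.g (nat_lit 1) (.e (nat_lit 84320) (nat_lit 0) .nil) .nil))) 
(.lf (nat_lit 470544) (.g (nat_lit 2062) (.e (nat_lit 3280) (nat_lit 200) (.e (nat_lit 557067) (nat_lit 9) (.e (nat_lit 3022) (nat_lit 187) (.e (nat_lit 450580) (nat_lit 5) (.e (nat_lit 532555) (nat_lit 13) .nil))))) (.g (nat_lit 0) (.e (nat_lit 85813) (nat_lit 0) .nil) .nil)))) (.nd (nat_lit 9) 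
(.lf (nat_lit 470288) (.g (nat_lit 3149) (.e (nat_lit 3308) (nat_lit 202) (.e (nat_lit 573493) (nat_lit 15) (.e (nat_lit 81956) (nat_lit 23) (.e (nat_lit 98319) (nat_lit 17) (.e (nat_lit 7587) (nat_lit 406) (.e (nat_lit 73472) (nat_lit 15) .nil)))))) (.g (nat_lit 1) (.e (nat_lit 84934) (nat_lit 0) .nil) .nil))) 
(.lf (nat_lit 470800) (.g (nat_lit 4534) (.e (nat_lit 3397) (nat_lit 211) (.e (nat_lit 647181) (nat_lit 3) (.e (nat_lit 163979) (nat_lit 30) (.e (nat_lit 573482) (nat_lit 13) (.e (nat_lit 65619) (nat_lit 10) (.e (nat_lit 344117) (nat_lit 21) (.e (nat_lit 516151) (nat_lit 9) (.e (nat_lit 426023) (nat_lit 0) .nil)))))))) (.g (nat_lit 1) (.e (nat_lit 86411) (nat_lit 0) .nil) .nil))))) 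
(.nd (nat_lit 8) (.nd (nat_lit 9) 
(.lf (nat_lit 470160) (.g (nat_lit 2510) (.e (nat_lit 3308) (nat_lit 202) (.e (nat_lit 573482) (nat_lit 13) (.e (nat_lit 65630) (nat_lit 14) (.e (nat_lit 401425) (nat_lit 2) (.e (nat_lit 196681) (nat_lit 17) .nil))))) (.g (nat_lit 0) (.e (nat_lit 84461) (nat_lit 0) .nil) .nil))) 
(.lf (nat_lit 470672) (.g (nat_lit 3201) (.e (nat_lit 3390) (nat_lit 210) (.e (nat_lit 639020) (nat_lit 16) (.e (nat_lit 65571) (nat_lit 3) (.e (nat_lit 98373) (nat_lit 29) (.e (nat_lit 450577) (nat_lit 4) .nil))))) (.g (nat_lit 0) (.e (nat_lit 86036) (nat_lit 0) .nil) .nil)))) (.nd (nat_lit 9) 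
(.lf (nat_lit 470416) (.g (nat_lit 2805) (.e (nat_lit 3309) (nat_lit 202) (.e (nat_lit 573485) (nat_lit 13) (.e (nat_lit 65619) (nat_lit 10) (.e (nat_lit 344117) (nat_lit 21) (.e (nat_lit 516184) (nat_lit 16) (.e (nat_lit 491549) (nat_lit 9) (.e (nat_lit 336240) (nat_lit 15) .nil))))))) (.g (nat_lit 1) (.e (nat_lit 85450) (nat_lit 0) .nil) .nil))) 
(.lf (nat_lit 470928) (.g (nat_lit 2158) (.e (nat_lit 3397) (nat_lit 211) (.e (nat_lit 647183) (nat_lit 4) (.e (nat_lit 172126) (nat_lit 14) (.e (nat_lit 491549) (nat_lit 9) (.e (nat_lit 336369) (nat_lit 27) .nil))))) (.g (nat_lit 0) (.e (nat_lit 86560) (nat_lit 0) .nil) .nil)))))) (.nd (nat_lit 7) (.nd (nat_lit 8) (.nd (nat_lit 9) 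
(.lf (nat_lit 470096) (.g (nat_lit 1854) (.e (nat_lit 3308) (nat_lit 202) (.e (nat_lit 573482) (nat_lit 13) (.e (nat_lit 65619) (nat_lit 10) (.e (nat_lit 344117) (nat_lit 21) (.e (nat_lit 516098) (nat_lit 0) .nil))))) (.g (nat_lit 0) (.e (nat_lit 84396) (nat_lit 0) .nil) .nil))) 
(.lf (nat_lit 470608) (.g (nat_lit 2408) (.e (nat_lit 3289) (nat_lit 201) (.e (nat_lit 565269) (nat_lit 6) (.e (nat_lit 81938) (nat_lit 20) (.e (nat_lit 2391) (nat_lit 156) (.e (nat_lit 819221) (nat_lit 6) (.e (nat_lit 188434) (nat_lit 20) .nil)))))) (.g (nat_lit 1) (.e (nat_lit 85909) (nat_lit 0) .nil) .nil)))) (.nd (nat_lit 9) 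
(.lf (nat_lit 470352) (.g (nat_lit 1993) (.e (nat_lit 3309) (nat_lit 202) (.e (nat_lit 573477) (nat_lit 12) (.e (nat_lit 57575) (nat_lit 55) (.e (nat_lit 778465) (nat_lit 11) (.e (nat_lit 24603) (nat_lit 2) (.e (nat_lit 90185) (nat_lit 17) (.e (nat_lit 237605) (nat_lit 9) (.e (nat_lit 425986) (nat_lit 0) .nil)))))))) (.g (nat_lit 1) (.e (nat_lit 85109) (nat_lit 0) .nil) .nil))) 
(.lf (nat_lit 470864) (.g (nat_lit 1628) (.e (nat_lit 3397) (nat_lit 211) (.e (nat_lit 647183) (nat_lit 4) (.e (nat_lit 172112) (nat_lit 10) (.e (nat_lit 434271) (nat_lit 38) (.e (nat_lit 655380) (nat_lit 6) (.e (nat_lit 188430) (nat_lit 20) .nil)))))) (.g (nat_lit 1) (.e (nat_lit 86493) (nat_lit 0) .nil) .nil))))) (.nd (nat_lit 8) (.nd (nat_lit 9) 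
(.lf (nat_lit 470224) (.g (nat_lit 3627) (.e (nat_lit 3308) (nat_lit 202) (.e (nat_lit 573492) (nat_lit 15) (.e (nat_lit 81956) (nat_lit 23) (.e (nat_lit 98389) (nat_lit 33) (.e (nat_lit 491548) (nat_lit 9) (.e (nat_lit 336306) (nat_lit 15) .nil)))))) (.g (nat_lit 1) (.e (nat_lit 84735) (nat_lit 0) .nil) .nil))) 
(.lf (nat_lit 470736) (.g (nat_lit 5224) (.e (nat_lit 3397) (nat_lit 211) (.e (nat_lit 647181) (nat_lit 3) (.e (nat_lit 163977) (nat_lit 30) (.e (nat_lit 573484) (nat_lit 13) (.e (nat_lit 65610) (nat_lit 10) (.e (nat_lit 344117) (nat_lit 21) (.e (nat_lit 516151) (nat_lit 9) (.e (nat_lit 426025) (nat_lit 0) .nil)))))))) (.g (nat_lit 1) (.e (nat_lit 86346) (nat_lit 0) .nil) .nil)))) 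
(.nd (nat_lit 9) 
(.lf (nat_lit 470480) (.g (nat_lit 4935) (.e (nat_lit 3311) (nat_lit 202) (.e (nat_lit 573492) (nat_lit 15) (.e (nat_lit 81956) (nat_lit 23) (.e (nat_lit 98388) (nat_lit 33) .nil)))) (.g (nat_lit 0) (.e (nat_lit 85653) (nat_lit 0) .nil) .nil))) 
(.lf (nat_lit 470992) (.g (nat_lit 3302) (.e (nat_lit 3399) (nat_lit 211) (.e (nat_lit 647180) (nat_lit 3) (.e (nat_lit 163979) (nat_lit 30) (.e (nat_lit 573493) (nat_lit 15) (.e (nat_lit 81956) (nat_lit 23) (.e (nat_lit 98359) (nat_lit 26) (.e (nat_lit 426003) (nat_lit 0) .nil))))))) (.g (nat_lit 1) (.e (nat_lit 86676) (nat_lit 0) .nil) .nil))))))) 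
(.nd (nat_lit 6) (.nd (nat_lit 7) (.nd (nat_lit 8) (.nd (nat_lit 9) 
(.lf (nat_lit 470064) (.g (nat_lit 1210) (.e (nat_lit 3308) (nat_lit 202) (.e (nat_lit 573482) (nat_lit 13) (.e (nat_lit 65604) (nat_lit 9) (.e (nat_lit 336028) (nat_lit 3) .nil)))) (.g (nat_lit 0) (.e (nat_lit 84359) (nat_lit 0) .nil) .nil))) 
(.lf (nat_lit 470576) (.g (nat_lit 1048) (.e (nat_lit 3288) (nat_lit 201) (.e (nat_lit 565267) (nat_lit 4) (.e (nat_lit 65610) (nat_lit 10) (.e (nat_lit 344183) (nat_lit 49) (.e (nat_lit 819221) (nat_lit 6) (.e (nat_lit 188435) (nat_lit 20) .nil)))))) (.g (nat_lit 1) (.e (nat_lit 85867) (nat_lit 0) .nil) .nil)))) (.nd (nat_lit 9) 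
(.lf (nat_lit 470320) (.g (nat_lit 3162) (.e (nat_lit 3308) (nat_lit 202) (.e (nat_lit 573493) (nat_lit 15) (.e (nat_lit 81956) (nat_lit 23) (.e (nat_lit 98350) (nat_lit 24) (.e (nat_lit 417536) (nat_lit 17) .nil))))) (.g (nat_lit 0) (.e (nat_lit 85023) (nat_lit 0) .nil) .nil))) 
(.lf (nat_lit 470832) (.g (nat_lit 1868) (.e (nat_lit 3397) (nat_lit 211) (.e (nat_lit 647183) (nat_lit 4) (.e (nat_lit 172081) (nat_lit 7) (.e (nat_lit 409642) (nat_lit 17) (.e (nat_lit 294974) (nat_lit 29) (.e (nat_lit 442395) (nat_lit 20) .nil)))))) (.g (nat_lit 1) (.e (nat_lit 86460) (nat_lit 0) .nil) .nil))))) (.nd (nat_lit 8) (.nd (nat_lit 9) 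
(.lf (nat_lit 470192) (.g (nat_lit 2299) (.e (nat_lit 3308) (nat_lit 202) (.e (nat_lit 573491) (nat_lit 15) (.e (nat_lit 81954) (nat_lit 23) (.e (nat_lit 98387) (nat_lit 33) (.e (nat_lit 491550) (nat_lit 9) (.e (nat_lit 336306) (nat_lit 15) .nil)))))) (.g (nat_lit 1) (.e (nat_lit 84693) (nat_lit 0) .nil) .nil))) 
(.lf (nat_lit 470704) (.g (nat_lit 2107) (.e (nat_lit 3421) (nat_lit 213) (.e (nat_lit 663583) (nat_lit 11) (.e (nat_lit 24608) (nat_lit 3) (.e (nat_lit 98372) (nat_lit 29) (.e (nat_lit 458496) (nat_lit 3) (.e (nat_lit 516097) (nat_lit 0) .nil)))))) (.g (nat_lit 1) (.e (nat_lit 86286) (nat_lit 0) .nil) .nil)))) (.nd (nat_lit 9) 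
(.lf (nat_lit 470448) (.g (nat_lit 2387) (.e (nat_lit 3309) (nat_lit 202) (.e (nat_lit 573485) (nat_lit 13) (.e (nat_lit 65630) (nat_lit 14) (.e (nat_lit 401425) (nat_lit 2) (.e (nat_lit 196674) (nat_lit 15) (.e (nat_lit 89856) (nat_lit 0) .nil)))))) (.g (nat_lit 1) (.e (nat_lit 85491) (nat_lit 0) .nil) .nil))) 
(.lf (nat_lit 470960) (.g (nat_lit 1773) (.e (nat_lit 3397) (nat_lit 211) (.e (nat_lit 647185) (nat_lit 6) (.e (nat_lit 188440) (nat_lit 20) (.e (nat_lit 3408) (nat_lit 212) (.e (nat_lit 655380) (nat_lit 6) (.e (nat_lit 188427) (nat_lit 20) .nil)))))) (.g (nat_lit 1) (.e (nat_lit 86601) (nat_lit 0) .nil) .nil)))))) (.nd (nat_lit 7) (.nd (nat_lit 8) (.nd (nat_lit 9) 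
(.lf (nat_lit 470128) (.g (nat_lit 4637) (.e (nat_lit 3308) (nat_lit 202) (.e (nat_lit 573482) (nat_lit 13) (.e (nat_lit 65619) (nat_lit 10) (.e (nat_lit 344117) (nat_lit 21) (.e (nat_lit 516185) (nat_lit 16) (.e (nat_lit 491549) (nat_lit 9) (.e (nat_lit 336306) (nat_lit 15) .nil))))))) (.g (nat_lit 1) (.e (nat_lit 84428) (nat_lit 0) .nil) .nil))) 
(.lf (nat_lit 470640) (.g (nat_lit 3810) (.e (nat_lit 3358) (nat_lit 207) (.e (nat_lit 614435) (nat_lit 11) (.e (nat_lit 16416) (nat_lit 3) (.e (nat_lit 204861) (nat_lit 26) (.e (nat_lit 336186) (nat_lit 11) (.e (nat_lit 368676) (nat_lit 21) (.e (nat_lit 516097) (nat_lit 0) .nil))))))) (.g (nat_lit 1) (.e (nat_lit 85961) (nat_lit 0) .nil) .nil)))) (.nd (nat_lit 9) 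
(.lf (nat_lit 470384) (.g (nat_lit 3561) (.e (nat_lit 3309) (nat_lit 202) (.e (nat_lit 573484) (nat_lit 13) (.e (nat_lit 65610) (nat_lit 10) (.e (nat_lit 344129) (nat_lit 26) (.e (nat_lit 557087) (nat_lit 11) (.e (nat_lit 24628) (nat_lit 9) (.e (nat_lit 336258) (nat_lit 15) .nil))))))) (.g (nat_lit 1) (.e (nat_lit 85268) (nat_lit 0) .nil) .nil))) 
(.lf (nat_lit 470896) (.g (nat_lit 1760) (.e (nat_lit 3397) (nat_lit 211) (.e (nat_lit 647183) (nat_lit 4) (.e (nat_lit 172120) (nat_lit 12) (.e (nat_lit 475198) (nat_lit 40) (.e (nat_lit 712448) (nat_lit 6) .nil))))) (.g (nat_lit 0) (.e (nat_lit 86528) (nat_lit 0) .nil) .nil))))) (.nd (nat_lit 8) (.nd (nat_lit 9) 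
(.lf (nat_lit 470256) (.g (nat_lit 3736) (.e (nat_lit 3308) (nat_lit 202) (.e (nat_lit 573493) (nat_lit 15) (.e (nat_lit 81953) (nat_lit 22) (.e (nat_lit 90150) (nat_lit 9) .nil)))) (.g (nat_lit 0) (.e (nat_lit 84856) (nat_lit 0) .nil) .nil))) 
(.lf (nat_lit 470768) (.g (nat_lit 3218) (.e (nat_lit 3397) (nat_lit 211) (.e (nat_lit 647181) (nat_lit 3) (.e (nat_lit 163978) (nat_lit 30) (.e (nat_lit 573479) (nat_lit 13) (.e (nat_lit 65604) (nat_lit 9) (.e (nat_lit 336013) (nat_lit 2) (.e (nat_lit 90170) (nat_lit 13) (.e (nat_lit 172035) (nat_lit 0) .nil)))))))) (.g (nat_lit 1) (.e (nat_lit 86378) (nat_lit 0) .nil) .nil)))) (.nd (nat_lit 9) 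
(.lf (nat_lit 470512) (.g (nat_lit 2119) (.e (nat_lit 3276) (nat_lit 200) (.e (nat_lit 557105) (nat_lit 14) (.e (nat_lit 180252) (nat_lit 10) (.e (nat_lit 573481) (nat_lit 13) (.e (nat_lit 65568) (nat_lit 2) (.e (nat_lit 98048) (nat_lit 2) (.e (nat_lit 16384) (nat_lit 0) .nil))))))) (.g (nat_lit 1) (.e (nat_lit 85777) (nat_lit 0) .nil) .nil))) 
(.lf (nat_lit 471024) (.g (nat_lit 4341) (.e (nat_lit 3399) (nat_lit 211) (.e (nat_lit 647181) (nat_lit 3) (.e (nat_lit 163977) (nat_lit 30) (.e (nat_lit 573493) (nat_lit 15) (.e (nat_lit 81953) (nat_lit 22) (.e (nat_lit 90170) (nat_lit 13) (.e (nat_lit 172032) (nat_lit 0) .nil))))))) (.g (nat_lit 1) (.e (nat_lit 86709) (nat_lit 0) .nil) .nil))))))))) 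
(.nd (nat_lit 4) (.nd (nat_lit 5) (.nd (nat_lit 6) (.nd (nat_lit 7) (.nd (nat_lit 8) 
(.nd (nat_lit 9) 
(.lf (nat_lit 470024) (.g (nat_lit 2493) (.e (nat_lit 3308) (nat_lit 202) (.e (nat_lit 573475) (nat_lit 12) (.e (nat_lit 57574) (nat_lit 55) (.e (nat_lit 778465) (nat_lit 11) (.e (nat_lit 24604) (nat_lit 2) (.e (nat_lit 90178) (nat_lit 15) (.e (nat_lit 188436) (nat_lit 20) .nil))))))) (.g (nat_lit 1) (.e (nat_lit 84312) (nat_lit 0) .nil) .nil))) 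
(.lf (nat_lit 470536) (.g (nat_lit 3000) (.e (nat_lit 3278) (nat_lit 200) (.e (nat_lit 557105) (nat_lit 14) (.e (nat_lit 180252) (nat_lit 10) (.e (nat_lit 573480) (nat_lit 13) (.e (nat_lit 65568) (nat_lit 2) .nil))))) (.g (nat_lit 0) (.e (nat_lit 85802) (nat_lit 0) .nil) .nil)))) (.nd (nat_lit 9) 
(.lf (nat_lit 470280) (.g (nat_lit 3488) (.e (nat_lit 3308) (nat_lit 202) (.e (nat_lit 573493) (nat_lit 15) (.e (nat_lit 81954) (nat_lit 23) (.e (nat_lit 98387) (nat_lit 33) (.e (nat_lit 491549) (nat_lit 9) (.e (nat_lit 336306) (nat_lit 15) .nil)))))) (.g (nat_lit 1) (.e (nat_lit 84925) (nat_lit 0) .nil) .nil))) 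
(.lf (nat_lit 470792) (.g (nat_lit 4464) (.e (nat_lit 3397) (nat_lit 211) (.e (nat_lit 647181) (nat_lit 3) (.e (nat_lit 163979) (nat_lit 30) (.e (nat_lit 573482) (nat_lit 13) (.e (nat_lit 65604) (nat_lit 9) (.e (nat_lit 336013) (nat_lit 2) (.e (nat_lit 90170) (nat_lit 13) (.e (nat_lit 172039) (nat_lit 0) .nil)))))))) (.g (nat_lit 1) (.e (nat_lit 86403) (nat_lit 0) .nil) .nil))))) 
(.nd (nat_lit 8) (.nd (nat_lit 9) 
(.lf (nat_lit 470152) (.g (nat_lit 1248) (.e (nat_lit 3308) (nat_lit 202) (.e (nat_lit 573482) (nat_lit 13) (.e (nat_lit 65628) (nat_lit 14) (.e (nat_lit 401428) (nat_lit 3) .nil)))) (.g (nat_lit 0) (.e (nat_lit 84453) (nat_lit 0) .nil) .nil))) 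
(.lf (nat_lit 470664) (.g (nat_lit 1811) (.e (nat_lit 3388) (nat_lit 210) (.e (nat_lit 639020) (nat_lit 16) (.e (nat_lit 65627) (nat_lit 13) (.e (nat_lit 393284) (nat_lit 24) (.e (nat_lit 434278) (nat_lit 39) .nil))))) (.g (nat_lit 0) (.e (nat_lit 86021) (nat_lit 0) .nil) .nil)))) (.nd (nat_lit 9) 
(.lf (nat_lit 470408) (.g (nat_lit 2603) (.e (nat_lit 3309) (nat_lit 202) (.e (nat_lit 573485) (nat_lit 13) (.e (nat_lit 65619) (nat_lit 10) (.e (nat_lit 344117) (nat_lit 21) (.e (nat_lit 516097) (nat_lit 0) (.e (nat_lit 7587) (nat_lit 406) (.e (nat_lit 73472) (nat_lit 15) .nil))))))) (.g (nat_lit 1) (.e (nat_lit 85438) (nat_lit 0) .nil) .nil))) 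
(.lf (nat_lit 470920) (.g (nat_lit 3408) (.e (nat_lit 3397) (nat_lit 211) (.e (nat_lit 647183) (nat_lit 4) (.e (nat_lit 172124) (nat_lit 14) (.e (nat_lit 491571) (nat_lit 13) (.e (nat_lit 393277) (nat_lit 23) (.e (nat_lit 426025) (nat_lit 0) .nil)))))) (.g (nat_lit 1) (.e (nat_lit 86552) (nat_lit 0) .nil) .nil)))))) (.nd (nat_lit 7) (.nd (nat_lit 8) (.nd (nat_lit 9) 
(.lf (nat_lit 470088) (.g (nat_lit 2410) (.e (nat_lit 3308) (nat_lit 202) (.e (nat_lit 573482) (nat_lit 13) (.e (nat_lit 65619) (nat_lit 10) (.e (nat_lit 344115) (nat_lit 20) (.e (nat_lit 507908) (nat_lit 0) (.e (nat_lit 5401) (nat_lit 302) (.e (nat_lit 73472) (nat_lit 15) .nil))))))) (.g (nat_lit 1) (.e (nat_lit 84386) (nat_lit 0) .nil) .nil))) 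
(.lf (nat_lit 470600) (.g (nat_lit 1685) (.e (nat_lit 3289) (nat_lit 201) (.e (nat_lit 565267) (nat_lit 4) (.e (nat_lit 65617) (nat_lit 10) (.e (nat_lit 344183) (nat_lit 49) (.e (nat_lit 819221) (nat_lit 6) (.e (nat_lit 188434) (nat_lit 20) .nil)))))) (.g (nat_lit 1) (.e (nat_lit 85900) (nat_lit 0) .nil) .nil)))) (.nd (nat_lit 9) 
(.lf (nat_lit 470344) (.g (nat_lit 4290) (.e (nat_lit 3308) (nat_lit 202) (.e (nat_lit 573493) (nat_lit 15) (.e (nat_lit 81956) (nat_lit 23) (.e (nat_lit 98389) (nat_lit 33) (.e (nat_lit 491549) (nat_lit 9) (.e (nat_lit 336306) (nat_lit 15) .nil)))))) (.g (nat_lit 1) (.e (nat_lit 85082) (nat_lit 0) .nil) .nil))) 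
(.lf (nat_lit 470856) (.g (nat_lit 3252) (.e (nat_lit 3397) (nat_lit 211) (.e (nat_lit 647183) (nat_lit 4) (.e (nat_lit 172106) (nat_lit 10) (.e (nat_lit 434272) (nat_lit 38) (.e (nat_lit 655378) (nat_lit 4) (.e (nat_lit 172094) (nat_lit 9) (.e (nat_lit 426025) (nat_lit 0) .nil))))))) (.g (nat_lit 1) (.e (nat_lit 86485) (nat_lit 0) .nil) .nil))))) (.nd (nat_lit 8) (.nd (nat_lit 9) 
(.lf (nat_lit 470216) (.g (nat_lit 3589) (.e (nat_lit 3308) (nat_lit 202) (.e (nat_lit 573492) (nat_lit 15) (.e (nat_lit 81956) (nat_lit 23) (.e (nat_lit 98323) (nat_lit 17) .nil)))) (.g (nat_lit 0) (.e (nat_lit 84725) (nat_lit 0) .nil) .nil))) 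
(.lf (nat_lit 470728) (.g (nat_lit 3702) (.e (nat_lit 3397) (nat_lit 211) (.e (nat_lit 647181) (nat_lit 3) (.e (nat_lit 163977) (nat_lit 30) (.e (nat_lit 573482) (nat_lit 13) (.e (nat_lit 65604) (nat_lit 9) (.e (nat_lit 336028) (nat_lit 3) (.e (nat_lit 98361) (nat_lit 26) (.e (nat_lit 426025) (nat_lit 0) .nil)))))))) (.g (nat_lit 1) (.e (nat_lit 86338) (nat_lit 0) .nil) .nil)))) (.nd (nat_lit 9) 
(.lf (nat_lit 470472) (.g (nat_lit 5248) (.e (nat_lit 3309) (nat_lit 202) (.e (nat_lit 573493) (nat_lit 15) (.e (nat_lit 81956) (nat_lit 23) (.e (nat_lit 98389) (nat_lit 33) (.e (nat_lit 491546) (nat_lit 9) (.e (nat_lit 336240) (nat_lit 15) .nil)))))) (.g (nat_lit 1) (.e (nat_lit 85605) (nat_lit 0) .nil) .nil))) 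
(.lf (nat_lit 470984) (.g (nat_lit 3853) (.e (nat_lit 3399) (nat_lit 211) (.e (nat_lit 647180) (nat_lit 3) (.e (nat_lit 163978) (nat_lit 30) (.e (nat_lit 573485) (nat_lit 13) (.e (nat_lit 65604) (nat_lit 9) (.e (nat_lit 336013) (nat_lit 2) (.e (nat_lit 90170) (nat_lit 13) (.e (nat_lit 172039) (nat_lit 0) .nil)))))))) (.g (nat_lit 1) (.e (nat_lit 86666) (nat_lit 0) .nil) .nil))))))) 
(.nd (nat_lit 6) (.nd (nat_lit 7) (.nd (nat_lit 8) (.nd (nat_lit 9) 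
(.lf (nat_lit 470056) (.g (nat_lit 2884) (.e (nat_lit 3308) (nat_lit 202) (.e (nat_lit 573482) (nat_lit 13) (.e (nat_lit 65604) (nat_lit 9) (.e (nat_lit 336013) (nat_lit 2) (.e (nat_lit 90165) (nat_lit 12) (.e (nat_lit 164218) (nat_lit 179) (.e (nat_lit 164338) (nat_lit 232) (.e (nat_lit 75) (nat_lit 0) .nil)))))))) (.g (nat_lit 1) (.e (nat_lit 84351) (nat_lit 0) .nil) .nil))) 
(.lf (nat_lit 470568) (.g (nat_lit 2353) (.e (nat_lit 7936) (nat_lit 200) (.e (nat_lit 557105) (nat_lit 14) (.e (nat_lit 180251) (nat_lit 10) (.e (nat_lit 573484) (nat_lit 13) (.e (nat_lit 65568) (nat_lit 2) .nil))))) (.g (nat_lit 0) (.e (nat_lit 85858) (nat_lit 0) .nil) .nil)))) (.nd (nat_lit 9) 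
(.lf (nat_lit 470312) (.g (nat_lit 4598) (.e (nat_lit 3308) (nat_lit 202) (.e (nat_lit 573493) (nat_lit 15) (.e (nat_lit 81956) (nat_lit 23) (.e (nat_lit 98349) (nat_lit 24) (.e (nat_lit 409642) (nat_lit 17) (.e (nat_lit 294966) (nat_lit 15) .nil)))))) (.g (nat_lit 1) (.e (nat_lit 84980) (nat_lit 0) .nil) .nil))) 
(.lf (nat_lit 470824) (.g (nat_lit 2093) (.e (nat_lit 3397) (nat_lit 211) (.e (nat_lit 647183) (nat_lit 4) (.e (nat_lit 172079) (nat_lit 7) (.e (nat_lit 409642) (nat_lit 17) (.e (nat_lit 294974) (nat_lit 29) (.e (nat_lit 442395) (nat_lit 20) .nil)))))) (.g (nat_lit 1) (.e (nat_lit 86452) (nat_lit 0) .nil) .nil))))) (.nd (nat_lit 8) (.nd (nat_lit 9) 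
(.lf (nat_lit 470184) (.g (nat_lit 401) (.e (nat_lit 3308) (nat_lit 202) (.e (nat_lit 573491) (nat_lit 15) (.e (nat_lit 81954) (nat_lit 23) .nil))) (.g (nat_lit 0) (.e (nat_lit 84665) (nat_lit 0) .nil) .nil))) 
(.lf (nat_lit 470696) (.g (nat_lit 2659) (.e (nat_lit 3392) (nat_lit 210) (.e (nat_lit 639020) (nat_lit 16) (.e (nat_lit 65571) (nat_lit 3) (.e (nat_lit 98374) (nat_lit 29) (.e (nat_lit 458496) (nat_lit 3) .nil))))) (.g (nat_lit 0) (.e (nat_lit 86269) (nat_lit 0) .nil) .nil)))) (.nd (nat_lit 9) 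
(.lf (nat_lit 470440) (.g (nat_lit 2096) (.e (nat_lit 3309) (nat_lit 202) (.e (nat_lit 573485) (nat_lit 13) (.e (nat_lit 65628) (nat_lit 14) (.e (nat_lit 401428) (nat_lit 3) (.e (nat_lit 204865) (nat_lit 28) (.e (nat_lit 360192) (nat_lit 0) .nil)))))) (.g (nat_lit 1) (.e (nat_lit 85483) (nat_lit 0) .nil) .nil))) 
(.lf (nat_lit 470952) (.g (nat_lit 569) (.e (nat_lit 3397) (nat_lit 211) (.e (nat_lit 647185) (nat_lit 6) (.e (nat_lit 188427) (nat_lit 20) .nil))) (.g (nat_lit 0) (.e (nat_lit 86593) (nat_lit 0) .nil) .nil)))))) (.nd (nat_lit 7) (.nd (nat_lit 8) (.nd (nat_lit 9) 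
(.lf (nat_lit 470120) (.g (nat_lit 2071) (.e (nat_lit 3308) (nat_lit 202) (.e (nat_lit 573482) (nat_lit 13) (.e (nat_lit 65619) (nat_lit 10) (.e (nat_lit 344117) (nat_lit 21) (.e (nat_lit 516183) (nat_lit 16) .nil))))) (.g (nat_lit 0) (.e (nat_lit 84420) (nat_lit 0) .nil) .nil))) 
(.lf (nat_lit 470632) (.g (nat_lit 3583) (.e (nat_lit 3338) (nat_lit 205) (.e (nat_lit 598065) (nat_lit 20) (.e (nat_lit 237589) (nat_lit 2) (.e (nat_lit 196666) (nat_lit 13) (.e (nat_lit 65610) (nat_lit 10) (.e (nat_lit 344117) (nat_lit 21) (.e (nat_lit 516106) (nat_lit 0) .nil))))))) (.g (nat_lit 1) (.e (nat_lit 85939) (nat_lit 0) .nil) .nil)))) (.nd (nat_lit 9) 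
(.lf (nat_lit 470376) (.g (nat_lit 3223) (.e (nat_lit 3309) (nat_lit 202) (.e (nat_lit 573484) (nat_lit 13) (.e (nat_lit 65610) (nat_lit 10) (.e (nat_lit 344129) (nat_lit 26) (.e (nat_lit 557086) (nat_lit 11) (.e (nat_lit 24630) (nat_lit 9) (.e (nat_lit 336240) (nat_lit 15) .nil))))))) (.g (nat_lit 1) (.e (nat_lit 85260) (nat_lit 0) .nil) .nil))) 
(.lf (nat_lit 470888) (.g (nat_lit 1814) (.e (nat_lit 3397) (nat_lit 211) (.e (nat_lit 647183) (nat_lit 4) (.e (nat_lit 172119) (nat_lit 12) (.e (nat_lit 475198) (nat_lit 40) (.e (nat_lit 704598) (nat_lit 6) (.e (nat_lit 188431) (nat_lit 20) .nil)))))) (.g (nat_lit 1) (.e (nat_lit 86520) (nat_lit 0) .nil) .nil))))) (.nd (nat_lit 8) (.nd (nat_lit 9) 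
(.lf (nat_lit 470248) (.g (nat_lit 4589) (.e (nat_lit 3308) (nat_lit 202) (.e (nat_lit 573493) (nat_lit 15) (.e (nat_lit 81953) (nat_lit 22) (.e (nat_lit 90134) (nat_lit 9) (.e (nat_lit 3098) (nat_lit 192) (.e (nat_lit 491549) (nat_lit 9) (.e (nat_lit 336306) (nat_lit 15) .nil))))))) (.g (nat_lit 1) (.e (nat_lit 84847) (nat_lit 0) .nil) .nil))) 
(.lf (nat_lit 470760) (.g (nat_lit 4250) (.e (nat_lit 3397) (nat_lit 211) (.e (nat_lit 647181) (nat_lit 3) (.e (nat_lit 163977) (nat_lit 30) (.e (nat_lit 573493) (nat_lit 15) (.e (nat_lit 81956) (nat_lit 23) (.e (nat_lit 98359) (nat_lit 26) (.e (nat_lit 426003) (nat_lit 0) .nil))))))) (.g (nat_lit 1) (.e (nat_lit 86370) (nat_lit 0) .nil) .nil)))) (.nd (nat_lit 9) 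
(.lf (nat_lit 470504) (.g (nat_lit 1731) (.e (nat_lit 3276) (nat_lit 200) (.e (nat_lit 557105) (nat_lit 14) (.e (nat_lit 180251) (nat_lit 10) (.e (nat_lit 573485) (nat_lit 13) (.e (nat_lit 65568) (nat_lit 2) .nil))))) (.g (nat_lit 0) (.e (nat_lit 85769) (nat_lit 0) .nil) .nil))) 
(.lf (nat_lit 471016) (.g (nat_lit 4059) (.e (nat_lit 3399) (nat_lit 211) (.e (nat_lit 647181) (nat_lit 3) (.e (nat_lit 163977) (nat_lit 30) (.e (nat_lit 573491) (nat_lit 15) (.e (nat_lit 81951) (nat_lit 22) (.e (nat_lit 90170) (nat_lit 13) (.e (nat_lit 172032) (nat_lit 0) .nil))))))) (.g (nat_lit 1) (.e (nat_lit 86701) (nat_lit 0) .nil) .nil)))))))) 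
(.nd (nat_lit 5) (.nd (nat_lit 6) (.nd (nat_lit 7) (.nd (nat_lit 8) (.nd (nat_lit 9) 
(.lf (nat_lit 470040) (.g (nat_lit 1791) (.e (nat_lit 3308) (nat_lit 202) (.e (nat_lit 573480) (nat_lit 13) (.e (nat_lit 65630) (nat_lit 14) (.e (nat_lit 401428) (nat_lit 3) (.e (nat_lit 204865) (nat_lit 28) (.e (nat_lit 360192) (nat_lit 0) .nil)))))) (.g (nat_lit 1) (.e (nat_lit 84334) (nat_lit 0) .nil) .nil))) 
(.lf (nat_lit 470552) (.g (nat_lit 2269) (.e (nat_lit 3280) (nat_lit 200) (.e (nat_lit 557104) (nat_lit 14) (.e (nat_lit 180252) (nat_lit 10) (.e (nat_lit 573480) (nat_lit 13) (.e (nat_lit 65568) (nat_lit 2) .nil))))) (.g (nat_lit 0) (.e (nat_lit 85821) (nat_lit 0) .nil) .nil)))) (.nd (nat_lit 9) 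
(.lf (nat_lit 470296) (.g (nat_lit 3457) (.e (nat_lit 3308) (nat_lit 202) (.e (nat_lit 573493) (nat_lit 15) (.e (nat_lit 81956) (nat_lit 23) (.e (nat_lit 98323) (nat_lit 17) (.e (nat_lit 6989) (nat_lit 377) (.e (nat_lit 2779) (nat_lit 178) (.e (nat_lit 294656) (nat_lit 15) .nil))))))) (.g (nat_lit 1) (.e (nat_lit 84943) (nat_lit 0) .nil) .nil))) 
(.lf (nat_lit 470808) (.g (nat_lit 3312) (.e (nat_lit 3397) (nat_lit 211) (.e (nat_lit 647181) (nat_lit 3) (.e (nat_lit 163979) (nat_lit 30) (.e (nat_lit 573492) (nat_lit 15) (.e (nat_lit 81956) (nat_lit 23) (.e (nat_lit 98355) (nat_lit 26) (.e (nat_lit 425998) (nat_lit 0) .nil))))))) (.g (nat_lit 1) (.e (nat_lit 86420) (nat_lit 0) .nil) .nil))))) (.nd (nat_lit 8) (.nd (nat_lit 9) 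
(.lf (nat_lit 470168) (.g (nat_lit 2064) (.e (nat_lit 3308) (nat_lit 202) (.e (nat_lit 573482) (nat_lit 13) (.e (nat_lit 65630) (nat_lit 14) (.e (nat_lit 401428) (nat_lit 3) (.e (nat_lit 204876) (nat_lit 31) (.e (nat_lit 384768) (nat_lit 0) .nil)))))) (.g (nat_lit 1) (.e (nat_lit 84470) (nat_lit 0) .nil) .nil))) 
(.lf (nat_lit 470680) (.g (nat_lit 2132) (.e (nat_lit 3390) (nat_lit 210) (.e (nat_lit 639021) (nat_lit 16) (.e (nat_lit 65617) (nat_lit 10) (.e (nat_lit 344161) (nat_lit 37) (.e (nat_lit 647190) (nat_lit 9) (.e (nat_lit 7936) (nat_lit 34) (.e (nat_lit 442408) (nat_lit 20) .nil))))))) (.g (nat_lit 1) (.e (nat_lit 86131) (nat_lit 0) .nil) .nil)))) (.nd (nat_lit 9) 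
(.lf (nat_lit 470424) (.g (nat_lit 3933) (.e (nat_lit 3309) (nat_lit 202) (.e (nat_lit 573485) (nat_lit 13) (.e (nat_lit 65619) (nat_lit 10) (.e (nat_lit 344129) (nat_lit 26) (.e (nat_lit 557085) (nat_lit 11) (.e (nat_lit 24628) (nat_lit 9) (.e (nat_lit 336240) (nat_lit 15) .nil))))))) (.g (nat_lit 1) (.e (nat_lit 85466) (nat_lit 0) .nil) .nil))) 
(.lf (nat_lit 470936) (.g (nat_lit 2547) (.e (nat_lit 3397) (nat_lit 211) (.e (nat_lit 647183) (nat_lit 4) (.e (nat_lit 172126) (nat_lit 14) (.e (nat_lit 491569) (nat_lit 13) (.e (nat_lit 393277) (nat_lit 23) (.e (nat_lit 426025) (nat_lit 0) .nil)))))) (.g (nat_lit 1) (.e (nat_lit 86568) (nat_lit 0) .nil) .nil)))))) (.nd (nat_lit 7) (.nd (nat_lit 8) (.nd (nat_lit 9) 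
(.lf (nat_lit 470104) (.g (nat_lit 2027) (.e (nat_lit 3308) (nat_lit 202) (.e (nat_lit 573482) (nat_lit 13) (.e (nat_lit 65619) (nat_lit 10) (.e (nat_lit 344117) (nat_lit 21) (.e (nat_lit 516106) (nat_lit 0) .nil))))) (.g (nat_lit 0) (.e (nat_lit 84404) (nat_lit 0) .nil) .nil))) 
(.lf (nat_lit 470616) (.g (nat_lit 1386) (.e (nat_lit 3289) (nat_lit 201) (.e (nat_lit 565269) (nat_lit 6) (.e (nat_lit 81942) (nat_lit 20) (.e (nat_lit 2390) (nat_lit 156) (.e (nat_lit 819221) (nat_lit 6) (.e (nat_lit 188441) (nat_lit 20) .nil)))))) (.g (nat_lit 1) (.e (nat_lit 85917) (nat_lit 0) .nil) .nil)))) (.nd (nat_lit 9) 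
(.lf (nat_lit 470360) (.g (nat_lit 2316) (.e (nat_lit 3309) (nat_lit 202) (.e (nat_lit 573484) (nat_lit 13) (.e (nat_lit 65610) (nat_lit 10) (.e (nat_lit 344117) (nat_lit 21) (.e (nat_lit 516183) (nat_lit 16) (.e (nat_lit 491547) (nat_lit 9) (.e (nat_lit 336240) (nat_lit 15) .nil))))))) (.g (nat_lit 1) (.e (nat_lit 85186) (nat_lit 0) .nil) .nil))) 
(.lf (nat_lit 470872) (.g (nat_lit 1944) (.e (nat_lit 3397) (nat_lit 211) (.e (nat_lit 647183) (nat_lit 4) (.e (nat_lit 172115) (nat_lit 10) (.e (nat_lit 434209) (nat_lit 18) (.e (nat_lit 5548) (nat_lit 306) (.e (nat_lit 2648) (nat_lit 166) (.e (nat_lit 188427) (nat_lit 20) .nil))))))) (.g (nat_lit 1) (.e (nat_lit 86504) (nat_lit 0) .nil) .nil))))) (.nd (nat_lit 8) (.nd (nat_lit 9) 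
(.lf (nat_lit 470232) (.g (nat_lit 2313) (.e (nat_lit 3308) (nat_lit 202) (.e (nat_lit 573493) (nat_lit 15) (.e (nat_lit 81951) (nat_lit 22) (.e (nat_lit 90133) (nat_lit 9) .nil)))) (.g (nat_lit 0) (.e (nat_lit 84825) (nat_lit 0) .nil) .nil))) 
(.lf (nat_lit 470744) (.g (nat_lit 3624) (.e (nat_lit 3397) (nat_lit 211) (.e (nat_lit 647181) (nat_lit 3) (.e (nat_lit 163977) (nat_lit 30) (.e (nat_lit 573485) (nat_lit 13) (.e (nat_lit 65604) (nat_lit 9) (.e (nat_lit 336028) (nat_lit 3) (.e (nat_lit 98361) (nat_lit 26) (.e (nat_lit 426025) (nat_lit 0) .nil)))))))) (.g (nat_lit 1) (.e (nat_lit 86354) (nat_lit 0) .nil) .nil)))) (.nd (nat_lit 9) 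
(.lf (nat_lit 470488) (.g (nat_lit 1756) (.e (nat_lit 7936) (nat_lit 202) (.e (nat_lit 573482) (nat_lit 13) (.e (nat_lit 65630) (nat_lit 14) (.e (nat_lit 401428) (nat_lit 3) .nil)))) (.g (nat_lit 0) (.e (nat_lit 85702) (nat_lit 0) .nil) .nil))) 
(.lf (nat_lit 471000) (.g (nat_lit 3850) (.e (nat_lit 3399) (nat_lit 211) (.e (nat_lit 647181) (nat_lit 3) (.e (nat_lit 163977) (nat_lit 30) (.e (nat_lit 573482) (nat_lit 13) (.e (nat_lit 65604) (nat_lit 9) (.e (nat_lit 336028) (nat_lit 3) (.e (nat_lit 98359) (nat_lit 26) (.e (nat_lit 426023) (nat_lit 0) .nil)))))))) (.g (nat_lit 1) (.e (nat_lit 86684) (nat_lit 0) .nil) .nil))))))) 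
(.nd (nat_lit 6) (.nd (nat_lit 7) (.nd (nat_lit 8) (.nd (nat_lit 9) 
(.lf (nat_lit 470072) (.g (nat_lit 3427) (.e (nat_lit 3308) (nat_lit 202) (.e (nat_lit 573482) (nat_lit 13) (.e (nat_lit 65604) (nat_lit 9) (.e (nat_lit 336028) (nat_lit 3) (.e (nat_lit 98325) (nat_lit 17) (.e (nat_lit 7112) (nat_lit 381) (.e (nat_lit 229644) (nat_lit 232) (.e (nat_lit 78) (nat_lit 0) .nil)))))))) (.g (nat_lit 1) (.e (nat_lit 84367) (nat_lit 0) .nil) .nil))) 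
(.lf (nat_lit 470584) (.g (nat_lit 1132) (.e (nat_lit 3288) (nat_lit 201) (.e (nat_lit 565269) (nat_lit 6) (.e (nat_lit 81939) (nat_lit 20) (.e (nat_lit 2391) (nat_lit 156) (.e (nat_lit 819221) (nat_lit 6) .nil))))) (.g (nat_lit 0) (.e (nat_lit 85876) (nat_lit 0) .nil) .nil)))) (.nd (nat_lit 9) 
(.lf (nat_lit 470328) (.g (nat_lit 4822) (.e (nat_lit 3308) (nat_lit 202) (.e (nat_lit 573493) (nat_lit 15) (.e (nat_lit 81956) (nat_lit 23) (.e (nat_lit 98384) (nat_lit 32) (.e (nat_lit 475210) (nat_lit 41) (.e (nat_lit 712716) (nat_lit 15) .nil)))))) (.g (nat_lit 1) (.e (nat_lit 85066) (nat_lit 0) .nil) .nil))) 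
(.lf (nat_lit 470840) (.g (nat_lit 1824) (.e (nat_lit 3397) (nat_lit 211) (.e (nat_lit 647183) (nat_lit 4) (.e (nat_lit 172094) (nat_lit 9) (.e (nat_lit 426025) (nat_lit 0) (.e (nat_lit 3399) (nat_lit 211) (.e (nat_lit 647183) (nat_lit 4) (.e (nat_lit 172089) (nat_lit 9) (.e (nat_lit 426025) (nat_lit 0) .nil)))))))) (.g (nat_lit 1) (.e (nat_lit 86468) (nat_lit 0) .nil) .nil))))) 
(.nd (nat_lit 8) (.nd (nat_lit 9) 
(.lf (nat_lit 470200) (.g (nat_lit 2891) (.e (nat_lit 3308) (nat_lit 202) (.e (nat_lit 573491) (nat_lit 15) (.e (nat_lit 81954) (nat_lit 23) (.e (nat_lit 98389) (nat_lit 33) (.e (nat_lit 491549) (nat_lit 9) (.e (nat_lit 336306) (nat_lit 15) .nil)))))) (.g (nat_lit 1) (.e (nat_lit 84701) (nat_lit 0) .nil) .nil))) 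
(.lf (nat_lit 470712) (.g (nat_lit 2341) (.e (nat_lit 3397) (nat_lit 211) (.e (nat_lit 647180) (nat_lit 3) (.e (nat_lit 163978) (nat_lit 30) (.e (nat_lit 573479) (nat_lit 13) (.e (nat_lit 65619) (nat_lit 10) .nil))))) (.g (nat_lit 0) (.e (nat_lit 86320) (nat_lit 0) .nil) .nil)))) (.nd (nat_lit 9) 
(.lf (nat_lit 470456) (.g (nat_lit 1655) (.e (nat_lit 3309) (nat_lit 202) (.e (nat_lit 573485) (nat_lit 13) (.e (nat_lit 65630) (nat_lit 14) (.e (nat_lit 401428) (nat_lit 3) (.e (nat_lit 204877) (nat_lit 31) (.e (nat_lit 384768) (nat_lit 0) .nil)))))) (.g (nat_lit 1) (.e (nat_lit 85500) (nat_lit 0) .nil) .nil))) 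
(.lf (nat_lit 470968) (.g (nat_lit 569) (.e (nat_lit 3397) (nat_lit 211) (.e (nat_lit 647185) (nat_lit 6) (.e (nat_lit 188445) (nat_lit 21) .nil))) (.g (nat_lit 0) (.e (nat_lit 86610) (nat_lit 0) .nil) .nil)))))) (.nd (nat_lit 7) (.nd (nat_lit 8) (.nd (nat_lit 9) 
(.lf (nat_lit 470136) (.g (nat_lit 3066) (.e (nat_lit 3308) (nat_lit 202) (.e (nat_lit 573482) (nat_lit 13) (.e (nat_lit 65619) (nat_lit 10) (.e (nat_lit 344129) (nat_lit 26) (.e (nat_lit 557086) (nat_lit 11) (.e (nat_lit 24627) (nat_lit 9) (.e (nat_lit 336306) (nat_lit 15) .nil))))))) (.g (nat_lit 1) (.e (nat_lit 84437) (nat_lit 0) .nil) .nil))) 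
(.lf (nat_lit 470648) (.g (nat_lit 5371) (.e (nat_lit 3371) (nat_lit 208) (.e (nat_lit 622625) (nat_lit 13) (.e (nat_lit 2663) (nat_lit 167) (.e (nat_lit 196666) (nat_lit 13) (.e (nat_lit 65610) (nat_lit 10) (.e (nat_lit 344117) (nat_lit 21) (.e (nat_lit 516151) (nat_lit 9) (.e (nat_lit 426042) (nat_lit 0) .nil)))))))) (.g (nat_lit 1) (.e (nat_lit 85972) (nat_lit 0) .nil) .nil)))) 
(.nd (nat_lit 9) 
(.lf (nat_lit 470392) (.g (nat_lit 2545) (.e (nat_lit 3309) (nat_lit 202) (.e (nat_lit 573484) (nat_lit 13) (.e (nat_lit 65610) (nat_lit 10) (.e (nat_lit 344129) (nat_lit 26) (.e (nat_lit 557087) (nat_lit 11) (.e (nat_lit 24638) (nat_lit 9) (.e (nat_lit 343808) (nat_lit 15) .nil))))))) (.g (nat_lit 1) (.e (nat_lit 85276) (nat_lit 0) .nil) .nil))) 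
(.lf (nat_lit 470904) (.g (nat_lit 2403) (.e (nat_lit 3397) (nat_lit 211) (.e (nat_lit 647183) (nat_lit 4) (.e (nat_lit 172124) (nat_lit 14) (.e (nat_lit 491549) (nat_lit 9) (.e (nat_lit 336395) (nat_lit 27) (.e (nat_lit 426203) (nat_lit 9) (.e (nat_lit 426025) (nat_lit 0) .nil))))))) (.g (nat_lit 1) (.e (nat_lit 86536) (nat_lit 0) .nil) .nil))))) (.nd (nat_lit 8) (.nd (nat_lit 9) 
(.lf (nat_lit 470264) (.g (nat_lit 2653) (.e (nat_lit 3308) (nat_lit 202) (.e (nat_lit 573493) (nat_lit 15) (.e (nat_lit 81953) (nat_lit 22) (.e (nat_lit 90165) (nat_lit 12) (.e (nat_lit 164208) (nat_lit 176) (.e (nat_lit 2781) (nat_lit 178) (.e (nat_lit 294656) (nat_lit 15) .nil))))))) (.g (nat_lit 1) (.e (nat_lit 84864) (nat_lit 0) .nil) .nil))) 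
(.lf (nat_lit 470776) (.g (nat_lit 5395) (.e (nat_lit 3397) (nat_lit 211) (.e (nat_lit 647181) (nat_lit 3) (.e (nat_lit 163978) (nat_lit 30) (.e (nat_lit 573484) (nat_lit 13) (.e (nat_lit 65610) (nat_lit 10) (.e (nat_lit 344117) (nat_lit 21) (.e (nat_lit 516151) (nat_lit 9) (.e (nat_lit 426022) (nat_lit 0) .nil)))))))) (.g (nat_lit 1) (.e (nat_lit 86386) (nat_lit 0) .nil) .nil)))) 
(.nd (nat_lit 9) 
(.lf (nat_lit 470520) (.g (nat_lit 2468) (.e (nat_lit 3277) (nat_lit 200) (.e (nat_lit 557104) (nat_lit 14) (.e (nat_lit 180252) (nat_lit 10) (.e (nat_lit 573481) (nat_lit 13) (.e (nat_lit 65568) (nat_lit 2) (.e (nat_lit 98048) (nat_lit 2) (.e (nat_lit 16392) (nat_lit 0) .nil))))))) (.g (nat_lit 1) (.e (nat_lit 85785) (nat_lit 0) .nil) .nil))) 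
(.lf (nat_lit 471032) (.g (nat_lit 5461) (.e (nat_lit 3399) (nat_lit 211) (.e (nat_lit 647181) (nat_lit 3) (.e (nat_lit 163977) (nat_lit 30) (.e (nat_lit 573493) (nat_lit 15) (.e (nat_lit 81956) (nat_lit 23) (.e (nat_lit 98361) (nat_lit 26) (.e (nat_lit 426025) (nat_lit 0) .nil))))))) (.g (nat_lit 1) (.e (nat_lit 86717) (nat_lit 0) .nil) .nil)))))))))) 
(.nd (nat_lit 3) (.nd (nat_lit 4) (.nd (nat_lit 5) (.nd (nat_lit 6) (.nd (nat_lit 7) 
(.nd (nat_lit 8) (.nd (nat_lit 9) 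
(.lf (nat_lit 470020) (.g (nat_lit 2656) (.e (nat_lit 3308) (nat_lit 202) (.e (nat_lit 573475) (nat_lit 12) (.e (nat_lit 57574) (nat_lit 55) (.e (nat_lit 778465) (nat_lit 11) (.e (nat_lit 24603) (nat_lit 2) (.e (nat_lit 90176) (nat_lit 15) (.e (nat_lit 188439) (nat_lit 20) .nil))))))) (.g (nat_lit 1) (.e (nat_lit 84308) (nat_lit 0) .nil) .nil))) 
(.lf (nat_lit 470532) (.g (nat_lit 1842) (.e (nat_lit 3278) (nat_lit 200) (.e (nat_lit 557104) (nat_lit 14) (.e (nat_lit 180252) (nat_lit 10) (.e (nat_lit 573480) (nat_lit 13) .nil)))) (.g (nat_lit 0) (.e (nat_lit 85798) (nat_lit 0) .nil) .nil)))) (.nd (nat_lit 9) 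
(.lf (nat_lit 470276) (.g (nat_lit 2373) (.e (nat_lit 3308) (nat_lit 202) (.e (nat_lit 573493) (nat_lit 15) (.e (nat_lit 81954) (nat_lit 23) (.e (nat_lit 98384) (nat_lit 32) .nil)))) (.g (nat_lit 0) (.e (nat_lit 84921) (nat_lit 0) .nil) .nil))) 
(.lf (nat_lit 470788) (.g (nat_lit 4848) (.e (nat_lit 3397) (nat_lit 211) (.e (nat_lit 647181) (nat_lit 3) (.e (nat_lit 163978) (nat_lit 30) (.e (nat_lit 573485) (nat_lit 13) (.e (nat_lit 65619) (nat_lit 10) (.e (nat_lit 344117) (nat_lit 21) (.e (nat_lit 516151) (nat_lit 9) (.e (nat_lit 426025) (nat_lit 0) .nil)))))))) (.g (nat_lit 1) (.e (nat_lit 86398) (nat_lit 0) .nil) .nil))))) 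
(.nd (nat_lit 8) (.nd (nat_lit 9) 
(.lf (nat_lit 470148) (.g (nat_lit 2908) (.e (nat_lit 3308) (nat_lit 202) (.e (nat_lit 573482) (nat_lit 13) (.e (nat_lit 65624) (nat_lit 12) (.e (nat_lit 385074) (nat_lit 31) (.e (nat_lit 573493) (nat_lit 15) (.e (nat_lit 89856) (nat_lit 0) .nil)))))) (.g (nat_lit 1) (.e (nat_lit 84449) (nat_lit 0) .nil) .nil))) 
(.lf (nat_lit 470660) (.g (nat_lit 2970) (.e (nat_lit 3388) (nat_lit 210) (.e (nat_lit 639020) (nat_lit 16) (.e (nat_lit 65571) (nat_lit 3) (.e (nat_lit 98372) (nat_lit 29) (.e (nat_lit 450577) (nat_lit 4) .nil))))) (.g (nat_lit 0) (.e (nat_lit 85987) (nat_lit 0) .nil) .nil)))) (.nd (nat_lit 9) 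
(.lf (nat_lit 470404) (.g (nat_lit 2406) (.e (nat_lit 3309) (nat_lit 202) (.e (nat_lit 573485) (nat_lit 13) (.e (nat_lit 65604) (nat_lit 9) (.e (nat_lit 336013) (nat_lit 2) (.e (nat_lit 90170) (nat_lit 13) (.e (nat_lit 172070) (nat_lit 4) (.e (nat_lit 229678) (nat_lit 244) (.e (nat_lit 163841) (nat_lit 0) .nil)))))))) (.g (nat_lit 1) (.e (nat_lit 85418) (nat_lit 0) .nil) .nil))) 
(.lf (nat_lit 470916) (.g (nat_lit 2744) (.e (nat_lit 3397) (nat_lit 211) (.e (nat_lit 647183) (nat_lit 4) (.e (nat_lit 172124) (nat_lit 14) (.e (nat_lit 491571) (nat_lit 13) (.e (nat_lit 393274) (nat_lit 23) (.e (nat_lit 426022) (nat_lit 0) .nil)))))) (.g (nat_lit 1) (.e (nat_lit 86548) (nat_lit 0) .nil) .nil)))))) (.nd (nat_lit 7) (.nd (nat_lit 8) (.nd (nat_lit 9) 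
(.lf (nat_lit 470084) (.g (nat_lit 2396) (.e (nat_lit 3308) (nat_lit 202) (.e (nat_lit 573482) (nat_lit 13) (.e (nat_lit 65619) (nat_lit 10) (.e (nat_lit 344115) (nat_lit 20) (.e (nat_lit 507907) (nat_lit 0) (.e (nat_lit 5401) (nat_lit 302) (.e (nat_lit 73472) (nat_lit 15) .nil))))))) (.g (nat_lit 1) (.e (nat_lit 84382) (nat_lit 0) .nil) .nil))) 
(.lf (nat_lit 470596) (.g (nat_lit 1415) (.e (nat_lit 3289) (nat_lit 201) (.e (nat_lit 565267) (nat_lit 4) (.e (nat_lit 65610) (nat_lit 10) (.e (nat_lit 344183) (nat_lit 49) (.e (nat_lit 819221) (nat_lit 6) (.e (nat_lit 188438) (nat_lit 20) .nil)))))) (.g (nat_lit 1) (.e (nat_lit 85896) (nat_lit 0) .nil) .nil)))) (.nd (nat_lit 9) 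
(.lf (nat_lit 470340) (.g (nat_lit 1854) (.e (nat_lit 3308) (nat_lit 202) (.e (nat_lit 573493) (nat_lit 15) (.e (nat_lit 81956) (nat_lit 23) (.e (nat_lit 98389) (nat_lit 33) .nil)))) (.g (nat_lit 0) (.e (nat_lit 85078) (nat_lit 0) .nil) .nil))) 
(.lf (nat_lit 470852) (.g (nat_lit 2905) (.e (nat_lit 3397) (nat_lit 211) (.e (nat_lit 647183) (nat_lit 4) (.e (nat_lit 172106) (nat_lit 10) (.e (nat_lit 434271) (nat_lit 38) (.e (nat_lit 655378) (nat_lit 4) (.e (nat_lit 172094) (nat_lit 9) (.e (nat_lit 426025) (nat_lit 0) .nil))))))) (.g (nat_lit 1) (.e (nat_lit 86481) (nat_lit 0) .nil) .nil))))) (.nd (nat_lit 8) (.nd (nat_lit 9) 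
(.lf (nat_lit 470212) (.g (nat_lit 2199) (.e (nat_lit 3308) (nat_lit 202) (.e (nat_lit 573492) (nat_lit 15) (.e (nat_lit 81956) (nat_lit 23) (.e (nat_lit 98319) (nat_lit 17) .nil)))) (.g (nat_lit 0) (.e (nat_lit 84720) (nat_lit 0) .nil) .nil))) 
(.lf (nat_lit 470724) (.g (nat_lit 3492) (.e (nat_lit 3397) (nat_lit 211) (.e (nat_lit 647181) (nat_lit 3) (.e (nat_lit 163977) (nat_lit 30) (.e (nat_lit 573482) (nat_lit 13) (.e (nat_lit 65604) (nat_lit 9) (.e (nat_lit 336028) (nat_lit 3) (.e (nat_lit 98354) (nat_lit 26) (.e (nat_lit 426025) (nat_lit 0) .nil)))))))) (.g (nat_lit 1) (.e (nat_lit 86334) (nat_lit 0) .nil) .nil)))) (.nd (nat_lit 9) 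
(.lf (nat_lit 470468) (.g (nat_lit 657) (.e (nat_lit 3309) (nat_lit 202) (.e (nat_lit 573491) (nat_lit 15) (.e (nat_lit 81946) (nat_lit 20) .nil))) (.g (nat_lit 0) (.e (nat_lit 85574) (nat_lit 0) .nil) .nil))) 
(.lf (nat_lit 470980) (.g (nat_lit 2623) (.e (nat_lit 3399) (nat_lit 211) (.e (nat_lit 647180) (nat_lit 3) (.e (nat_lit 163976) (nat_lit 30) (.e (nat_lit 573492) (nat_lit 15) (.e (nat_lit 81956) (nat_lit 23) (.e (nat_lit 98359) (nat_lit 26) (.e (nat_lit 426023) (nat_lit 0) .nil))))))) (.g (nat_lit 1) (.e (nat_lit 86662) (nat_lit 0) .nil) .nil))))))) 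
(.nd (nat_lit 6) (.nd (nat_lit 7) (.nd (nat_lit 8) (.nd (nat_lit 9) 
(.lf (nat_lit 470052) (.g (nat_lit 3679) (.e (nat_lit 3308) (nat_lit 202) (.e (nat_lit 573482) (nat_lit 13) (.e (nat_lit 65604) (nat_lit 9) (.e (nat_lit 336013) (nat_lit 2) (.e (nat_lit 90165) (nat_lit 12) (.e (nat_lit 164210) (nat_lit 176) (.e (nat_lit 2788) (nat_lit 179) (.e (nat_lit 294966) (nat_lit 15) .nil)))))))) (.g (nat_lit 1) (.e (nat_lit 84347) (nat_lit 0) .nil) .nil))) 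
(.lf (nat_lit 470564) (.g (nat_lit 779) (.e (nat_lit 7936) (nat_lit 200) (.e (nat_lit 557065) (nat_lit 9) (.e (nat_lit 3044) (nat_lit 189) (.e (nat_lit 466979) (nat_lit 23) .nil)))) (.g (nat_lit 0) (.e (nat_lit 85848) (nat_lit 0) .nil) .nil)))) (.nd (nat_lit 9) 
(.lf (nat_lit 470308) (.g (nat_lit 4507) (.e (nat_lit 3308) (nat_lit 202) (.e (nat_lit 573493) (nat_lit 15) (.e (nat_lit 81956) (nat_lit 23) (.e (nat_lit 98330) (nat_lit 17) .nil)))) (.g (nat_lit 0) (.e (nat_lit 84973) (nat_lit 0) .nil) .nil))) 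
(.lf (nat_lit 470820) (.g (nat_lit 5903) (.e (nat_lit 3397) (nat_lit 211) (.e (nat_lit 647181) (nat_lit 3) (.e (nat_lit 163979) (nat_lit 30) (.e (nat_lit 573493) (nat_lit 15) (.e (nat_lit 81956) (nat_lit 23) (.e (nat_lit 98362) (nat_lit 26) (.e (nat_lit 426025) (nat_lit 0) .nil))))))) (.g (nat_lit 1) (.e (nat_lit 86432) (nat_lit 0) .nil) .nil))))) (.nd (nat_lit 8) (.nd (nat_lit 9) 
(.lf (nat_lit 470180) (.g (nat_lit 1647) (.e (nat_lit 3308) (nat_lit 202) (.e (nat_lit 573491) (nat_lit 15) (.e (nat_lit 81946) (nat_lit 20) (.e (nat_lit 1842) (nat_lit 123) (.e (nat_lit 548873) (nat_lit 5) .nil))))) (.g (nat_lit 0) (.e (nat_lit 84643) (nat_lit 0) .nil) .nil))) 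
(.lf (nat_lit 470692) (.g (nat_lit 1035) (.e (nat_lit 3391) (nat_lit 210) (.e (nat_lit 639023) (nat_lit 18) (.e (nat_lit 81938) (nat_lit 20) (.e (nat_lit 1963) (nat_lit 134) (.e (nat_lit 639001) (nat_lit 10) (.e (nat_lit 188435) (nat_lit 20) .nil)))))) (.g (nat_lit 1) (.e (nat_lit 86249) (nat_lit 0) .nil) .nil)))) (.nd (nat_lit 9) 
(.lf (nat_lit 470436) (.g (nat_lit 2204) (.e (nat_lit 3309) (nat_lit 202) (.e (nat_lit 573485) (nat_lit 13) (.e (nat_lit 65628) (nat_lit 14) (.e (nat_lit 401425) (nat_lit 2) (.e (nat_lit 196674) (nat_lit 15) (.e (nat_lit 89856) (nat_lit 0) .nil)))))) (.g (nat_lit 1) (.e (nat_lit 85479) (nat_lit 0) .nil) .nil))) 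
(.lf (nat_lit 470948) (.g (nat_lit 2838) (.e (nat_lit 3397) (nat_lit 211) (.e (nat_lit 647183) (nat_lit 4) (.e (nat_lit 172126) (nat_lit 14) (.e (nat_lit 491571) (nat_lit 13) (.e (nat_lit 401152) (nat_lit 23) (.e (nat_lit 426025) (nat_lit 0) .nil)))))) (.g (nat_lit 1) (.e (nat_lit 86580) (nat_lit 0) .nil) .nil)))))) (.nd (nat_lit 7) (.nd (nat_lit 8) (.nd (nat_lit 9) 
(.lf (nat_lit 470116) (.g (nat_lit 2722) (.e (nat_lit 3308) (nat_lit 202) (.e (nat_lit 573482) (nat_lit 13) (.e (nat_lit 65619) (nat_lit 10) (.e (nat_lit 344117) (nat_lit 21) (.e (nat_lit 516144) (nat_lit 9) (.e (nat_lit 426364) (nat_lit 15) (.e (nat_lit 2160) (nat_lit 143) (.e (nat_lit 712716) (nat_lit 15) .nil)))))))) (.g (nat_lit 1) (.e (nat_lit 84416) (nat_lit 0) .nil) .nil))) 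
(.lf (nat_lit 470628) (.g (nat_lit 1742) (.e (nat_lit 3289) (nat_lit 201) (.e (nat_lit 565269) (nat_lit 6) (.e (nat_lit 81947) (nat_lit 20) (.e (nat_lit 2391) (nat_lit 156) (.e (nat_lit 819221) (nat_lit 6) (.e (nat_lit 188438) (nat_lit 20) .nil)))))) (.g (nat_lit 1) (.e (nat_lit 85929) (nat_lit 0) .nil) .nil)))) (.nd (nat_lit 9) 
(.lf (nat_lit 470372) (.g (nat_lit 4369) (.e (nat_lit 3309) (nat_lit 202) (.e (nat_lit 573484) (nat_lit 13) (.e (nat_lit 65610) (nat_lit 10) (.e (nat_lit 344129) (nat_lit 26) (.e (nat_lit 557085) (nat_lit 11) (.e (nat_lit 24625) (nat_lit 9) (.e (nat_lit 336240) (nat_lit 15) .nil))))))) (.g (nat_lit 1) (.e (nat_lit 85256) (nat_lit 0) .nil) .nil))) 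
(.lf (nat_lit 470884) (.g (nat_lit 1793) (.e (nat_lit 3397) (nat_lit 211) (.e (nat_lit 647183) (nat_lit 4) (.e (nat_lit 172118) (nat_lit 12) (.e (nat_lit 475198) (nat_lit 40) (.e (nat_lit 712448) (nat_lit 6) .nil))))) (.g (nat_lit 0) (.e (nat_lit 86516) (nat_lit 0) .nil) .nil))))) (.nd (nat_lit 8) (.nd (nat_lit 9) 
(.lf (nat_lit 470244) (.g (nat_lit 3756) (.e (nat_lit 3308) (nat_lit 202) (.e (nat_lit 573493) (nat_lit 15) (.e (nat_lit 81953) (nat_lit 22) (.e (nat_lit 90133) (nat_lit 9) (.e (nat_lit 3105) (nat_lit 192) (.e (nat_lit 491550) (nat_lit 9) (.e (nat_lit 336306) (nat_lit 15) .nil))))))) (.g (nat_lit 1) (.e (nat_lit 84843) (nat_lit 0) .nil) .nil))) 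
(.lf (nat_lit 470756) (.g (nat_lit 3408) (.e (nat_lit 3397) (nat_lit 211) (.e (nat_lit 647181) (nat_lit 3) (.e (nat_lit 163977) (nat_lit 30) (.e (nat_lit 573491) (nat_lit 15) (.e (nat_lit 81954) (nat_lit 23) (.e (nat_lit 98361) (nat_lit 26) (.e (nat_lit 426025) (nat_lit 0) .nil))))))) (.g (nat_lit 1) (.e (nat_lit 86366) (nat_lit 0) .nil) .nil)))) (.nd (nat_lit 9) 
(.lf (nat_lit 470500) (.g (nat_lit 3971) (.e (nat_lit 3275) (nat_lit 200) (.e (nat_lit 557105) (nat_lit 14) (.e (nat_lit 180252) (nat_lit 10) (.e (nat_lit 573482) (nat_lit 13) (.e (nat_lit 65566) (nat_lit 2) .nil))))) (.g (nat_lit 0) (.e (nat_lit 85764) (nat_lit 0) .nil) .nil))) 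
(.lf (nat_lit 471012) (.g (nat_lit 3807) (.e (nat_lit 3399) (nat_lit 211) (.e (nat_lit 647181) (nat_lit 3) (.e (nat_lit 163977) (nat_lit 30) (.e (nat_lit 573485) (nat_lit 13) (.e (nat_lit 65604) (nat_lit 9) (.e (nat_lit 336028) (nat_lit 3) (.e (nat_lit 98359) (nat_lit 26) (.e (nat_lit 426023) (nat_lit 0) .nil)))))))) (.g (nat_lit 1) (.e (nat_lit 86696) (nat_lit 0) .nil) .nil)))))))) 
(.nd (nat_lit 5) (.nd (nat_lit 6) (.nd (nat_lit 7) (.nd (nat_lit 8) (.nd (nat_lit 9) 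
(.lf (nat_lit 470036) (.g (nat_lit 5093) (.e (nat_lit 3308) (nat_lit 202) (.e (nat_lit 573475) (nat_lit 12) (.e (nat_lit 57574) (nat_lit 55) (.e (nat_lit 778466) (nat_lit 11) (.e (nat_lit 24604) (nat_lit 2) (.e (nat_lit 90178) (nat_lit 15) (.e (nat_lit 188441) (nat_lit 20) .nil))))))) (.g (nat_lit 1) (.e (nat_lit 84324) (nat_lit 0) .nil) .nil))) 
(.lf (nat_lit 470548) (.g (nat_lit 2201) (.e (nat_lit 3280) (nat_lit 200) (.e (nat_lit 557103) (nat_lit 14) (.e (nat_lit 180250) (nat_lit 10) (.e (nat_lit 573482) (nat_lit 13) (.e (nat_lit 65566) (nat_lit 2) .nil))))) (.g (nat_lit 0) (.e (nat_lit 85817) (nat_lit 0) .nil) .nil)))) (.nd (nat_lit 9) 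
(.lf (nat_lit 470292) (.g (nat_lit 3675) (.e (nat_lit 3308) (nat_lit 202) (.e (nat_lit 573493) (nat_lit 15) (.e (nat_lit 81956) (nat_lit 23) (.e (nat_lit 98320) (nat_lit 17) (.e (nat_lit 7589) (nat_lit 406) (.e (nat_lit 73472) (nat_lit 15) .nil)))))) (.g (nat_lit 1) (.e (nat_lit 84938) (nat_lit 0) .nil) .nil))) 
(.lf (nat_lit 470804) (.g (nat_lit 2632) (.e (nat_lit 3397) (nat_lit 211) (.e (nat_lit 647181) (nat_lit 3) (.e (nat_lit 163979) (nat_lit 30) (.e (nat_lit 573491) (nat_lit 15) (.e (nat_lit 81954) (nat_lit 23) (.e (nat_lit 98354) (nat_lit 26) (.e (nat_lit 426025) (nat_lit 0) .nil))))))) (.g (nat_lit 1) (.e (nat_lit 86415) (nat_lit 0) .nil) .nil))))) (.nd (nat_lit 8) (.nd (nat_lit 9) 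
(.lf (nat_lit 470164) (.g (nat_lit 2038) (.e (nat_lit 3308) (nat_lit 202) (.e (nat_lit 573482) (nat_lit 13) (.e (nat_lit 65630) (nat_lit 14) (.e (nat_lit 401428) (nat_lit 3) (.e (nat_lit 204854) (nat_lit 26) (.e (nat_lit 336115) (nat_lit 9) (.e (nat_lit 343808) (nat_lit 15) .nil))))))) (.g (nat_lit 1) (.e (nat_lit 84466) (nat_lit 0) .nil) .nil))) 
(.lf (nat_lit 470676) (.g (nat_lit 1411) (.e (nat_lit 3390) (nat_lit 210) (.e (nat_lit 639020) (nat_lit 16) (.e (nat_lit 65627) (nat_lit 13) (.e (nat_lit 393282) (nat_lit 24) (.e (nat_lit 434275) (nat_lit 39) .nil))))) (.g (nat_lit 0) (.e (nat_lit 86080) (nat_lit 0) .nil) .nil)))) (.nd (nat_lit 9) 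
(.lf (nat_lit 470420) (.g (nat_lit 4162) (.e (nat_lit 3309) (nat_lit 202) (.e (nat_lit 573485) (nat_lit 13) (.e (nat_lit 65619) (nat_lit 10) (.e (nat_lit 344117) (nat_lit 21) (.e (nat_lit 516185) (nat_lit 16) (.e (nat_lit 491556) (nat_lit 9) (.e (nat_lit 336239) (nat_lit 15) .nil))))))) (.g (nat_lit 1) (.e (nat_lit 85454) (nat_lit 0) .nil) .nil))) 
(.lf (nat_lit 470932) (.g (nat_lit 1781) (.e (nat_lit 3397) (nat_lit 211) (.e (nat_lit 647183) (nat_lit 4) (.e (nat_lit 172126) (nat_lit 14) (.e (nat_lit 491549) (nat_lit 9) (.e (nat_lit 336395) (nat_lit 27) (.e (nat_lit 426219) (nat_lit 9) (.e (nat_lit 426025) (nat_lit 0) .nil))))))) (.g (nat_lit 1) (.e (nat_lit 86564) (nat_lit 0) .nil) .nil)))))) 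
(.nd (nat_lit 7) (.nd (nat_lit 8) (.nd (nat_lit 9) 
(.lf (nat_lit 470100) (.g (nat_lit 2693) (.e (nat_lit 3308) (nat_lit 202) (.e (nat_lit 573482) (nat_lit 13) (.e (nat_lit 65619) (nat_lit 10) (.e (nat_lit 344117) (nat_lit 21) (.e (nat_lit 516102) (nat_lit 0) (.e (nat_lit 7107) (nat_lit 380) (.e (nat_lit 164337) (nat_lit 232) (.e (nat_lit 77) (nat_lit 0) .nil)))))))) (.g (nat_lit 1) (.e (nat_lit 84400) (nat_lit 0) .nil) .nil))) 
(.lf (nat_lit 470612) (.g (nat_lit 1710) (.e (nat_lit 3289) (nat_lit 201) (.e (nat_lit 565269) (nat_lit 6) (.e (nat_lit 81939) (nat_lit 20) (.e (nat_lit 2391) (nat_lit 156) (.e (nat_lit 819221) (nat_lit 6) (.e (nat_lit 188434) (nat_lit 20) .nil)))))) (.g (nat_lit 1) (.e (nat_lit 85913) (nat_lit 0) .nil) .nil)))) (.nd (nat_lit 9) 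
(.lf (nat_lit 470356) (.g (nat_lit 940) (.e (nat_lit 3309) (nat_lit 202) (.e (nat_lit 573482) (nat_lit 13) (.e (nat_lit 65624) (nat_lit 12) .nil))) (.g (nat_lit 0) (.e (nat_lit 85114) (nat_lit 0) .nil) .nil))) 
(.lf (nat_lit 470868) (.g (nat_lit 2109) (.e (nat_lit 3397) (nat_lit 211) (.e (nat_lit 647183) (nat_lit 4) (.e (nat_lit 172113) (nat_lit 10) (.e (nat_lit 434271) (nat_lit 38) (.e (nat_lit 655380) (nat_lit 6) (.e (nat_lit 188430) (nat_lit 20) .nil)))))) (.g (nat_lit 1) (.e (nat_lit 86498) (nat_lit 0) .nil) .nil))))) (.nd (nat_lit 8) (.nd (nat_lit 9) 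
(.lf (nat_lit 470228) (.g (nat_lit 2613) (.e (nat_lit 3308) (nat_lit 202) (.e (nat_lit 573492) (nat_lit 15) (.e (nat_lit 81956) (nat_lit 23) (.e (nat_lit 98389) (nat_lit 33) (.e (nat_lit 499456) (nat_lit 9) .nil))))) (.g (nat_lit 0) (.e (nat_lit 84739) (nat_lit 0) .nil) .nil))) 
(.lf (nat_lit 470740) (.g (nat_lit 3453) (.e (nat_lit 3397) (nat_lit 211) (.e (nat_lit 647181) (nat_lit 3) (.e (nat_lit 163977) (nat_lit 30) (.e (nat_lit 573485) (nat_lit 13) (.e (nat_lit 65604) (nat_lit 9) (.e (nat_lit 336028) (nat_lit 3) (.e (nat_lit 98354) (nat_lit 26) (.e (nat_lit 426025) (nat_lit 0) .nil)))))))) (.g (nat_lit 1) (.e (nat_lit 86350) (nat_lit 0) .nil) .nil)))) (.nd (nat_lit 9) 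
(.lf (nat_lit 470484) (.g (nat_lit 1360) (.e (nat_lit 3312) (nat_lit 202) (.e (nat_lit 573481) (nat_lit 13) (.e (nat_lit 65630) (nat_lit 14) (.e (nat_lit 401428) (nat_lit 3) .nil)))) (.g (nat_lit 0) (.e (nat_lit 85665) (nat_lit 0) .nil) .nil))) 
(.lf (nat_lit 470996) (.g (nat_lit 4209) (.e (nat_lit 3399) (nat_lit 211) (.e (nat_lit 647181) (nat_lit 3) (.e (nat_lit 163977) (nat_lit 30) (.e (nat_lit 573482) (nat_lit 13) (.e (nat_lit 65604) (nat_lit 9) (.e (nat_lit 336013) (nat_lit 2) (.e (nat_lit 90170) (nat_lit 13) (.e (nat_lit 172039) (nat_lit 0) .nil)))))))) (.g (nat_lit 1) (.e (nat_lit 86680) (nat_lit 0) .nil) .nil))))))) 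
(.nd (nat_lit 6) (.nd (nat_lit 7) (.nd (nat_lit 8) (.nd (nat_lit 9) 
(.lf (nat_lit 470068) (.g (nat_lit 3374) (.e (nat_lit 3308) (nat_lit 202) (.e (nat_lit 573482) (nat_lit 13) (.e (nat_lit 65604) (nat_lit 9) (.e (nat_lit 336028) (nat_lit 3) (.e (nat_lit 98325) (nat_lit 17) (.e (nat_lit 6986) (nat_lit 377) (.e (nat_lit 2781) (nat_lit 178) (.e (nat_lit 294656) (nat_lit 15) .nil)))))))) (.g (nat_lit 1) (.e (nat_lit 84363) (nat_lit 0) .nil) .nil))) 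
(.lf (nat_lit 470580) (.g (nat_lit 482) (.e (nat_lit 3288) (nat_lit 201) (.e (nat_lit 565267) (nat_lit 4) (.e (nat_lit 65620) (nat_lit 10) (.e (nat_lit 344183) (nat_lit 49) .nil)))) (.g (nat_lit 0) (.e (nat_lit 85871) (nat_lit 0) .nil) .nil)))) (.nd (nat_lit 9) 
(.lf (nat_lit 470324) (.g (nat_lit 3079) (.e (nat_lit 3308) (nat_lit 202) (.e (nat_lit 573493) (nat_lit 15) (.e (nat_lit 81956) (nat_lit 23) (.e (nat_lit 98384) (nat_lit 32) .nil)))) (.g (nat_lit 0) (.e (nat_lit 85061) (nat_lit 0) .nil) .nil))) 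
(.lf (nat_lit 470836) (.g (nat_lit 1607) (.e (nat_lit 3397) (nat_lit 211) (.e (nat_lit 647183) (nat_lit 4) (.e (nat_lit 172089) (nat_lit 9) (.e (nat_lit 426025) (nat_lit 0) (.e (nat_lit 3397) (nat_lit 211) (.e (nat_lit 647185) (nat_lit 6) (.e (nat_lit 188431) (nat_lit 20) .nil))))))) (.g (nat_lit 1) (.e (nat_lit 86464) (nat_lit 0) .nil) .nil))))) (.nd (nat_lit 8) (.nd (nat_lit 9) 
(.lf (nat_lit 470196) (.g (nat_lit 1001) (.e (nat_lit 3308) (nat_lit 202) (.e (nat_lit 573491) (nat_lit 15) (.e (nat_lit 81954) (nat_lit 23) (.e (nat_lit 98389) (nat_lit 33) .nil)))) (.g (nat_lit 0) (.e (nat_lit 84697) (nat_lit 0) .nil) .nil))) 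
(.lf (nat_lit 470708) (.g (nat_lit 2100) (.e (nat_lit 7936) (nat_lit 213) (.e (nat_lit 663583) (nat_lit 11) (.e (nat_lit 24608) (nat_lit 3) (.e (nat_lit 98372) (nat_lit 29) (.e (nat_lit 458496) (nat_lit 3) .nil))))) (.g (nat_lit 0) (.e (nat_lit 86300) (nat_lit 0) .nil) .nil)))) (.nd (nat_lit 9) 
(.lf (nat_lit 470452) (.g (nat_lit 1803) (.e (nat_lit 3309) (nat_lit 202) (.e (nat_lit 573485) (nat_lit 13) (.e (nat_lit 65630) (nat_lit 14) (.e (nat_lit 401428) (nat_lit 3) (.e (nat_lit 204866) (nat_lit 28) (.e (nat_lit 360192) (nat_lit 0) .nil)))))) (.g (nat_lit 1) (.e (nat_lit 85496) (nat_lit 0) .nil) .nil))) 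
(.lf (nat_lit 470964) (.g (nat_lit 2281) (.e (nat_lit 3397) (nat_lit 211) (.e (nat_lit 647185) (nat_lit 6) (.e (nat_lit 188441) (nat_lit 20) (.e (nat_lit 3408) (nat_lit 212) (.e (nat_lit 655378) (nat_lit 4) (.e (nat_lit 172094) (nat_lit 9) (.e (nat_lit 426025) (nat_lit 0) .nil))))))) (.g (nat_lit 1) (.e (nat_lit 86605) (nat_lit 0) .nil) .nil)))))) 
(.nd (nat_lit 7) (.nd (nat_lit 8) (.nd (nat_lit 9) 
(.lf (nat_lit 470132) (.g (nat_lit 1308) (.e (nat_lit 3308) (nat_lit 202) (.e (nat_lit 573482) (nat_lit 13) (.e (nat_lit 65619) (nat_lit 10) (.e (nat_lit 344126) (nat_lit 25) .nil)))) (.g (nat_lit 0) (.e (nat_lit 84432) (nat_lit 0) .nil) .nil))) 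
(.lf (nat_lit 470644) (.g (nat_lit 5342) (.e (nat_lit 3366) (nat_lit 208) (.e (nat_lit 622627) (nat_lit 13) (.e (nat_lit 2666) (nat_lit 167) (.e (nat_lit 196666) (nat_lit 13) (.e (nat_lit 65610) (nat_lit 10) (.e (nat_lit 344117) (nat_lit 21) (.e (nat_lit 516151) (nat_lit 9) (.e (nat_lit 426038) (nat_lit 0) .nil)))))))) (.g (nat_lit 1) (.e (nat_lit 85965) (nat_lit 0) .nil) .nil)))) 
(.nd (nat_lit 9) 
(.lf (nat_lit 470388) (.g (nat_lit 2160) (.e (nat_lit 3309) (nat_lit 202) (.e (nat_lit 573484) (nat_lit 13) (.e (nat_lit 65610) (nat_lit 10) (.e (nat_lit 344129) (nat_lit 26) (.e (nat_lit 557087) (nat_lit 11) (.e (nat_lit 24634) (nat_lit 9) (.e (nat_lit 343808) (nat_lit 15) .nil))))))) (.g (nat_lit 1) (.e (nat_lit 85272) (nat_lit 0) .nil) .nil))) 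
(.lf (nat_lit 470900) (.g (nat_lit 1023) (.e (nat_lit 3397) (nat_lit 211) (.e (nat_lit 647183) (nat_lit 4) (.e (nat_lit 172124) (nat_lit 14) (.e (nat_lit 491548) (nat_lit 9) .nil)))) (.g (nat_lit 0) (.e (nat_lit 86532) (nat_lit 0) .nil) .nil))))) (.nd (nat_lit 8) (.nd (nat_lit 9) 
(.lf (nat_lit 470260) (.g (nat_lit 4857) (.e (nat_lit 3308) (nat_lit 202) (.e (nat_lit 573493) (nat_lit 15) (.e (nat_lit 81953) (nat_lit 22) (.e (nat_lit 90164) (nat_lit 12) .nil)))) (.g (nat_lit 0) (.e (nat_lit 84860) (nat_lit 0) .nil) .nil))) 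
(.lf (nat_lit 470772) (.g (nat_lit 3999) (.e (nat_lit 3397) (nat_lit 211) (.e (nat_lit 647181) (nat_lit 3) (.e (nat_lit 163978) (nat_lit 30) (.e (nat_lit 573479) (nat_lit 13) (.e (nat_lit 65619) (nat_lit 10) (.e (nat_lit 344117) (nat_lit 21) (.e (nat_lit 516143) (nat_lit 9) (.e (nat_lit 426025) (nat_lit 0) .nil)))))))) (.g (nat_lit 1) (.e (nat_lit 86382) (nat_lit 0) .nil) .nil)))) 
(.nd (nat_lit 9) 
(.lf (nat_lit 470516) (.g (nat_lit 3787) (.e (nat_lit 3276) (nat_lit 200) (.e (nat_lit 557105) (nat_lit 14) (.e (nat_lit 180252) (nat_lit 10) (.e (nat_lit 573482) (nat_lit 13) (.e (nat_lit 65568) (nat_lit 2) (.e (nat_lit 98048) (nat_lit 2) (.e (nat_lit 16387) (nat_lit 0) .nil))))))) (.g (nat_lit 1) (.e (nat_lit 85781) (nat_lit 0) .nil) .nil))) 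
(.lf (nat_lit 471028) (.g (nat_lit 4284) (.e (nat_lit 3399) (nat_lit 211) (.e (nat_lit 647181) (nat_lit 3) (.e (nat_lit 163977) (nat_lit 30) (.e (nat_lit 573493) (nat_lit 15) (.e (nat_lit 81956) (nat_lit 23) (.e (nat_lit 98359) (nat_lit 26) (.e (nat_lit 426022) (nat_lit 0) .nil))))))) (.g (nat_lit 1) (.e (nat_lit 86713) (nat_lit 0) .nil) .nil))))))))) 
(.nd (nat_lit 4) (.nd (nat_lit 5) (.nd (nat_lit 6) (.nd (nat_lit 7) (.nd (nat_lit 8) 
(.nd (nat_lit 9) 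
(.lf (nat_lit 470028) (.g (nat_lit 1889) (.e (nat_lit 3308) (nat_lit 202) (.e (nat_lit 573475) (nat_lit 12) (.e (nat_lit 57574) (nat_lit 55) (.e (nat_lit 778466) (nat_lit 11) (.e (nat_lit 24604) (nat_lit 2) .nil))))) (.g (nat_lit 0) (.e (nat_lit 84316) (nat_lit 0) .nil) .nil))) 
(.lf (nat_lit 470540) (.g (nat_lit 2566) (.e (nat_lit 3278) (nat_lit 200) (.e (nat_lit 557106) (nat_lit 15) (.e (nat_lit 188452) (nat_lit 23) (.e (nat_lit 204846) (nat_lit 24) (.e (nat_lit 319533) (nat_lit 16) .nil))))) (.g (nat_lit 0) (.e (nat_lit 85806) (nat_lit 0) .nil) .nil)))) (.nd (nat_lit 9) 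
(.lf (nat_lit 470284) (.g (nat_lit 3218) (.e (nat_lit 3308) (nat_lit 202) (.e (nat_lit 573493) (nat_lit 15) (.e (nat_lit 81954) (nat_lit 23) (.e (nat_lit 98388) (nat_lit 33) (.e (nat_lit 491550) (nat_lit 9) (.e (nat_lit 336306) (nat_lit 15) .nil)))))) (.g (nat_lit 1) (.e (nat_lit 84929) (nat_lit 0) .nil) .nil))) 
(.lf (nat_lit 470796) (.g (nat_lit 4143) (.e (nat_lit 3397) (nat_lit 211) (.e (nat_lit 647181) (nat_lit 3) (.e (nat_lit 163979) (nat_lit 30) (.e (nat_lit 573482) (nat_lit 13) (.e (nat_lit 65619) (nat_lit 10) (.e (nat_lit 344117) (nat_lit 21) (.e (nat_lit 516143) (nat_lit 9) (.e (nat_lit 426025) (nat_lit 0) .nil)))))))) (.g (nat_lit 1) (.e (nat_lit 86407) (nat_lit 0) .nil) .nil))))) 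
(.nd (nat_lit 8) (.nd (nat_lit 9) 
(.lf (nat_lit 470156) (.g (nat_lit 2832) (.e (nat_lit 3308) (nat_lit 202) (.e (nat_lit 573482) (nat_lit 13) (.e (nat_lit 65628) (nat_lit 14) (.e (nat_lit 401428) (nat_lit 3) (.e (nat_lit 204866) (nat_lit 28) (.e (nat_lit 360192) (nat_lit 0) .nil)))))) (.g (nat_lit 1) (.e (nat_lit 84457) (nat_lit 0) .nil) .nil))) 
(.lf (nat_lit 470668) (.g (nat_lit 2808) (.e (nat_lit 3390) (nat_lit 210) (.e (nat_lit 639020) (nat_lit 16) (.e (nat_lit 65571) (nat_lit 3) (.e (nat_lit 98370) (nat_lit 28) (.e (nat_lit 442394) (nat_lit 20) .nil))))) (.g (nat_lit 0) (.e (nat_lit 86032) (nat_lit 0) .nil) .nil)))) (.nd (nat_lit 9) 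
(.lf (nat_lit 470412) (.g (nat_lit 3269) (.e (nat_lit 3309) (nat_lit 202) (.e (nat_lit 573485) (nat_lit 13) (.e (nat_lit 65619) (nat_lit 10) (.e (nat_lit 344117) (nat_lit 21) (.e (nat_lit 516106) (nat_lit 0) (.e (nat_lit 6986) (nat_lit 377) (.e (nat_lit 2779) (nat_lit 178) (.e (nat_lit 294656) (nat_lit 15) .nil)))))))) (.g (nat_lit 1) (.e (nat_lit 85442) (nat_lit 0) .nil) .nil))) 
(.lf (nat_lit 470924) (.g (nat_lit 2572) (.e (nat_lit 3397) (nat_lit 211) (.e (nat_lit 647183) (nat_lit 4) (.e (nat_lit 172126) (nat_lit 14) (.e (nat_lit 491548) (nat_lit 9) (.e (nat_lit 336430) (nat_lit 29) (.e (nat_lit 442395) (nat_lit 20) .nil)))))) (.g (nat_lit 1) (.e (nat_lit 86556) (nat_lit 0) .nil) .nil)))))) (.nd (nat_lit 7) (.nd (nat_lit 8) (.nd (nat_lit 9) 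
(.lf (nat_lit 470092) (.g (nat_lit 1281) (.e (nat_lit 3308) (nat_lit 202) (.e (nat_lit 573482) (nat_lit 13) (.e (nat_lit 65619) (nat_lit 10) (.e (nat_lit 344117) (nat_lit 21) .nil)))) (.g (nat_lit 0) (.e (nat_lit 84391) (nat_lit 0) .nil) .nil))) 
(.lf (nat_lit 470604) (.g (nat_lit 2144) (.e (nat_lit 3289) (nat_lit 201) (.e (nat_lit 565269) (nat_lit 6) (.e (nat_lit 81938) (nat_lit 20) (.e (nat_lit 2390) (nat_lit 156) (.e (nat_lit 819221) (nat_lit 6) (.e (nat_lit 188434) (nat_lit 20) .nil)))))) (.g (nat_lit 1) (.e (nat_lit 85905) (nat_lit 0) .nil) .nil)))) (.nd (nat_lit 9) 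
(.lf (nat_lit 470348) (.g (nat_lit 2793) (.e (nat_lit 3308) (nat_lit 202) (.e (nat_lit 573493) (nat_lit 15) (.e (nat_lit 81956) (nat_lit 23) (.e (nat_lit 106240) (nat_lit 33) .nil)))) (.g (nat_lit 0) (.e (nat_lit 85086) (nat_lit 0) .nil) .nil))) 
(.lf (nat_lit 470860) (.g (nat_lit 1826) (.e (nat_lit 3397) (nat_lit 211) (.e (nat_lit 647183) (nat_lit 4) (.e (nat_lit 172107) (nat_lit 10) (.e (nat_lit 434271) (nat_lit 38) (.e (nat_lit 655380) (nat_lit 6) (.e (nat_lit 188430) (nat_lit 20) .nil)))))) (.g (nat_lit 1) (.e (nat_lit 86489) (nat_lit 0) .nil) .nil))))) (.nd (nat_lit 8) (.nd (nat_lit 9) 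
(.lf (nat_lit 470220) (.g (nat_lit 3415) (.e (nat_lit 3308) (nat_lit 202) (.e (nat_lit 573492) (nat_lit 15) (.e (nat_lit 81956) (nat_lit 23) (.e (nat_lit 98388) (nat_lit 33) (.e (nat_lit 491549) (nat_lit 9) (.e (nat_lit 336306) (nat_lit 15) .nil)))))) (.g (nat_lit 1) (.e (nat_lit 84731) (nat_lit 0) .nil) .nil))) 
(.lf (nat_lit 470732) (.g (nat_lit 4936) (.e (nat_lit 3397) (nat_lit 211) (.e (nat_lit 647181) (nat_lit 3) (.e (nat_lit 163977) (nat_lit 30) (.e (nat_lit 573482) (nat_lit 13) (.e (nat_lit 65619) (nat_lit 10) (.e (nat_lit 344117) (nat_lit 21) (.e (nat_lit 516151) (nat_lit 9) (.e (nat_lit 426025) (nat_lit 0) .nil)))))))) (.g (nat_lit 1) (.e (nat_lit 86342) (nat_lit 0) .nil) .nil)))) 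
(.nd (nat_lit 9) 
(.lf (nat_lit 470476) (.g (nat_lit 4113) (.e (nat_lit 3309) (nat_lit 202) (.e (nat_lit 573493) (nat_lit 15) (.e (nat_lit 81956) (nat_lit 23) (.e (nat_lit 98389) (nat_lit 33) (.e (nat_lit 491556) (nat_lit 9) (.e (nat_lit 343808) (nat_lit 15) .nil)))))) (.g (nat_lit 1) (.e (nat_lit 85609) (nat_lit 0) .nil) .nil))) 
(.lf (nat_lit 470988) (.g (nat_lit 3826) (.e (nat_lit 3399) (nat_lit 211) (.e (nat_lit 647180) (nat_lit 3) (.e (nat_lit 163979) (nat_lit 30) (.e (nat_lit 573482) (nat_lit 13) (.e (nat_lit 65604) (nat_lit 9) (.e (nat_lit 336013) (nat_lit 2) (.e (nat_lit 90170) (nat_lit 13) (.e (nat_lit 172039) (nat_lit 0) .nil)))))))) (.g (nat_lit 1) (.e (nat_lit 86670) (nat_lit 0) .nil) .nil))))))) 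
(.nd (nat_lit 6) (.nd (nat_lit 7) (.nd (nat_lit 8) (.nd (nat_lit 9) 
(.lf (nat_lit 470060) (.g (nat_lit 2780) (.e (nat_lit 3308) (nat_lit 202) (.e (nat_lit 573482) (nat_lit 13) (.e (nat_lit 65604) (nat_lit 9) (.e (nat_lit 336013) (nat_lit 2) (.e (nat_lit 90165) (nat_lit 12) (.e (nat_lit 164219) (nat_lit 180) (.e (nat_lit 229647) (nat_lit 232) (.e (nat_lit 75) (nat_lit 0) .nil)))))))) (.g (nat_lit 1) (.e (nat_lit 84355) (nat_lit 0) .nil) .nil))) 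
(.lf (nat_lit 470572) (.g (nat_lit 526) (.e (nat_lit 3288) (nat_lit 201) (.e (nat_lit 565252) (nat_lit 0) (.e (nat_lit 1589) (nat_lit 111) (.e (nat_lit 360493) (nat_lit 27) .nil)))) (.g (nat_lit 0) (.e (nat_lit 85862) (nat_lit 0) .nil) .nil)))) (.nd (nat_lit 9) 
(.lf (nat_lit 470316) (.g (nat_lit 6172) (.e (nat_lit 3308) (nat_lit 202) (.e (nat_lit 573493) (nat_lit 15) (.e (nat_lit 81956) (nat_lit 23) (.e (nat_lit 98350) (nat_lit 24) (.e (nat_lit 409641) (nat_lit 17) .nil))))) (.g (nat_lit 0) (.e (nat_lit 85019) (nat_lit 0) .nil) .nil))) 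
(.lf (nat_lit 470828) (.g (nat_lit 1601) (.e (nat_lit 3397) (nat_lit 211) (.e (nat_lit 647183) (nat_lit 4) (.e (nat_lit 172080) (nat_lit 7) (.e (nat_lit 409618) (nat_lit 10) (.e (nat_lit 5363) (nat_lit 298) (.e (nat_lit 463) (nat_lit 34) (.e (nat_lit 442399) (nat_lit 20) .nil))))))) (.g (nat_lit 1) (.e (nat_lit 86456) (nat_lit 0) .nil) .nil))))) (.nd (nat_lit 8) (.nd (nat_lit 9) 
(.lf (nat_lit 470188) (.g (nat_lit 1781) (.e (nat_lit 3308) (nat_lit 202) (.e (nat_lit 573491) (nat_lit 15) (.e (nat_lit 81954) (nat_lit 23) (.e (nat_lit 98325) (nat_lit 17) (.e (nat_lit 6966) (nat_lit 377) (.e (nat_lit 2777) (nat_lit 178) (.e (nat_lit 286765) (nat_lit 15) .nil))))))) (.g (nat_lit 1) (.e (nat_lit 84676) (nat_lit 0) .nil) .nil))) 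
(.lf (nat_lit 470700) (.g (nat_lit 2037) (.e (nat_lit 7936) (nat_lit 210) (.e (nat_lit 639020) (nat_lit 16) (.e (nat_lit 65571) (nat_lit 3) (.e (nat_lit 98374) (nat_lit 29) .nil)))) (.g (nat_lit 0) (.e (nat_lit 86276) (nat_lit 0) .nil) .nil)))) (.nd (nat_lit 9) 
(.lf (nat_lit 470444) (.g (nat_lit 2155) (.e (nat_lit 3309) (nat_lit 202) (.e (nat_lit 573485) (nat_lit 13) (.e (nat_lit 65628) (nat_lit 14) (.e (nat_lit 401428) (nat_lit 3) (.e (nat_lit 204876) (nat_lit 31) (.e (nat_lit 384768) (nat_lit 0) .nil)))))) (.g (nat_lit 1) (.e (nat_lit 85487) (nat_lit 0) .nil) .nil))) 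
(.lf (nat_lit 470956) (.g (nat_lit 1548) (.e (nat_lit 3397) (nat_lit 211) (.e (nat_lit 647185) (nat_lit 6) (.e (nat_lit 188439) (nat_lit 20) (.e (nat_lit 3407) (nat_lit 212) (.e (nat_lit 655380) (nat_lit 6) (.e (nat_lit 188427) (nat_lit 20) .nil)))))) (.g (nat_lit 1) (.e (nat_lit 86597) (nat_lit 0) .nil) .nil)))))) (.nd (nat_lit 7) (.nd (nat_lit 8) (.nd (nat_lit 9) 
(.lf (nat_lit 470124) (.g (nat_lit 4220) (.e (nat_lit 3308) (nat_lit 202) (.e (nat_lit 573482) (nat_lit 13) (.e (nat_lit 65619) (nat_lit 10) (.e (nat_lit 344117) (nat_lit 21) (.e (nat_lit 516184) (nat_lit 16) (.e (nat_lit 491549) (nat_lit 9) (.e (nat_lit 336306) (nat_lit 15) .nil))))))) (.g (nat_lit 1) (.e (nat_lit 84424) (nat_lit 0) .nil) .nil))) 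
(.lf (nat_lit 470636) (.g (nat_lit 4903) (.e (nat_lit 3342) (nat_lit 205) (.e (nat_lit 598065) (nat_lit 20) (.e (nat_lit 237589) (nat_lit 2) (.e (nat_lit 196666) (nat_lit 13) (.e (nat_lit 65610) (nat_lit 10) (.e (nat_lit 344117) (nat_lit 21) (.e (nat_lit 516097) (nat_lit 0) .nil))))))) (.g (nat_lit 1) (.e (nat_lit 85950) (nat_lit 0) .nil) .nil)))) (.nd (nat_lit 9) 
(.lf (nat_lit 470380) (.g (nat_lit 2318) (.e (nat_lit 3309) (nat_lit 202) (.e (nat_lit 573484) (nat_lit 13) (.e (nat_lit 65610) (nat_lit 10) (.e (nat_lit 344129) (nat_lit 26) (.e (nat_lit 557087) (nat_lit 11) (.e (nat_lit 24625) (nat_lit 9) (.e (nat_lit 336257) (nat_lit 15) .nil))))))) (.g (nat_lit 1) (.e (nat_lit 85264) (nat_lit 0) .nil) .nil))) 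
(.lf (nat_lit 470892) (.g (nat_lit 2171) (.e (nat_lit 3397) (nat_lit 211) (.e (nat_lit 647183) (nat_lit 4) (.e (nat_lit 172120) (nat_lit 12) (.e (nat_lit 475197) (nat_lit 40) (.e (nat_lit 704598) (nat_lit 6) (.e (nat_lit 188431) (nat_lit 20) .nil)))))) (.g (nat_lit 1) (.e (nat_lit 86524) (nat_lit 0) .nil) .nil))))) (.nd (nat_lit 8) (.nd (nat_lit 9) 
(.lf (nat_lit 470252) (.g (nat_lit 5035) (.e (nat_lit 3308) (nat_lit 202) (.e (nat_lit 573493) (nat_lit 15) (.e (nat_lit 81953) (nat_lit 22) (.e (nat_lit 90146) (nat_lit 9) .nil)))) (.g (nat_lit 0) (.e (nat_lit 84851) (nat_lit 0) .nil) .nil))) 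
(.lf (nat_lit 470764) (.g (nat_lit 6382) (.e (nat_lit 3397) (nat_lit 211) (.e (nat_lit 647181) (nat_lit 3) (.e (nat_lit 163977) (nat_lit 30) (.e (nat_lit 573493) (nat_lit 15) (.e (nat_lit 81956) (nat_lit 23) (.e (nat_lit 98362) (nat_lit 26) (.e (nat_lit 426025) (nat_lit 0) .nil))))))) (.g (nat_lit 1) (.e (nat_lit 86374) (nat_lit 0) .nil) .nil)))) (.nd (nat_lit 9) 
(.lf (nat_lit 470508) (.g (nat_lit 2027) (.e (nat_lit 3276) (nat_lit 200) (.e (nat_lit 557105) (nat_lit 14) (.e (nat_lit 180252) (nat_lit 10) (.e (nat_lit 573480) (nat_lit 13) (.e (nat_lit 65568) (nat_lit 2) .nil))))) (.g (nat_lit 0) (.e (nat_lit 85773) (nat_lit 0) .nil) .nil))) 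
(.lf (nat_lit 471020) (.g (nat_lit 3807) (.e (nat_lit 3399) (nat_lit 211) (.e (nat_lit 647181) (nat_lit 3) (.e (nat_lit 163977) (nat_lit 30) (.e (nat_lit 573491) (nat_lit 15) (.e (nat_lit 81954) (nat_lit 23) (.e (nat_lit 98359) (nat_lit 26) (.e (nat_lit 426025) (nat_lit 0) .nil))))))) (.g (nat_lit 1) (.e (nat_lit 86705) (nat_lit 0) .nil) .nil)))))))) 
(.nd (nat_lit 5) (.nd (nat_lit 6) (.nd (nat_lit 7) (.nd (nat_lit 8) (.nd (nat_lit 9) 
(.lf (nat_lit 470044) (.g (nat_lit 2941) (.e (nat_lit 3308) (nat_lit 202) (.e (nat_lit 573482) (nat_lit 13) (.e (nat_lit 65604) (nat_lit 9) (.e (nat_lit 336013) (nat_lit 2) (.e (nat_lit 90134) (nat_lit 9) (.e (nat_lit 3096) (nat_lit 192) (.e (nat_lit 491549) (nat_lit 9) (.e (nat_lit 336306) (nat_lit 15) .nil)))))))) (.g (nat_lit 1) (.e (nat_lit 84339) (nat_lit 0) .nil) .nil))) 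
(.lf (nat_lit 470556) (.g (nat_lit 2489) (.e (nat_lit 3280) (nat_lit 200) (.e (nat_lit 557106) (nat_lit 15) (.e (nat_lit 188452) (nat_lit 23) (.e (nat_lit 204846) (nat_lit 24) (.e (nat_lit 319533) (nat_lit 16) .nil))))) (.g (nat_lit 0) (.e (nat_lit 85825) (nat_lit 0) .nil) .nil)))) (.nd (nat_lit 9) 
(.lf (nat_lit 470300) (.g (nat_lit 2165) (.e (nat_lit 3308) (nat_lit 202) (.e (nat_lit 573493) (nat_lit 15) (.e (nat_lit 81956) (nat_lit 23) (.e (nat_lit 98325) (nat_lit 17) (.e (nat_lit 6986) (nat_lit 377) .nil))))) (.g (nat_lit 0) (.e (nat_lit 84948) (nat_lit 0) .nil) .nil))) 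
(.lf (nat_lit 470812) (.g (nat_lit 4038) (.e (nat_lit 3397) (nat_lit 211) (.e (nat_lit 647181) (nat_lit 3) (.e (nat_lit 163979) (nat_lit 30) (.e (nat_lit 573493) (nat_lit 15) (.e (nat_lit 81953) (nat_lit 22) (.e (nat_lit 90170) (nat_lit 13) (.e (nat_lit 172035) (nat_lit 0) .nil))))))) (.g (nat_lit 1) (.e (nat_lit 86424) (nat_lit 0) .nil) .nil))))) (.nd (nat_lit 8) (.nd (nat_lit 9) 
(.lf (nat_lit 470172) (.g (nat_lit 3399) (.e (nat_lit 3308) (nat_lit 202) (.e (nat_lit 573484) (nat_lit 13) (.e (nat_lit 65617) (nat_lit 10) (.e (nat_lit 344132) (nat_lit 26) (.e (nat_lit 557085) (nat_lit 11) (.e (nat_lit 24630) (nat_lit 9) (.e (nat_lit 336306) (nat_lit 15) .nil))))))) (.g (nat_lit 1) (.e (nat_lit 84479) (nat_lit 0) .nil) .nil))) 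
(.lf (nat_lit 470684) (.g (nat_lit 606) (.e (nat_lit 3390) (nat_lit 210) (.e (nat_lit 639023) (nat_lit 18) (.e (nat_lit 81947) (nat_lit 20) (.e (nat_lit 1963) (nat_lit 134) .nil)))) (.g (nat_lit 0) (.e (nat_lit 86152) (nat_lit 0) .nil) .nil)))) (.nd (nat_lit 9) 
(.lf (nat_lit 470428) (.g (nat_lit 4590) (.e (nat_lit 3309) (nat_lit 202) (.e (nat_lit 573485) (nat_lit 13) (.e (nat_lit 65619) (nat_lit 10) (.e (nat_lit 344129) (nat_lit 26) (.e (nat_lit 557087) (nat_lit 11) (.e (nat_lit 24626) (nat_lit 9) (.e (nat_lit 336240) (nat_lit 15) .nil))))))) (.g (nat_lit 1) (.e (nat_lit 85470) (nat_lit 0) .nil) .nil))) 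
(.lf (nat_lit 470940) (.g (nat_lit 2715) (.e (nat_lit 3397) (nat_lit 211) (.e (nat_lit 647183) (nat_lit 4) (.e (nat_lit 172126) (nat_lit 14) (.e (nat_lit 491570) (nat_lit 13) (.e (nat_lit 393275) (nat_lit 23) (.e (nat_lit 426025) (nat_lit 0) .nil)))))) (.g (nat_lit 1) (.e (nat_lit 86572) (nat_lit 0) .nil) .nil)))))) (.nd (nat_lit 7) (.nd (nat_lit 8) (.nd (nat_lit 9) 
(.lf (nat_lit 470108) (.g (nat_lit 2268) (.e (nat_lit 3308) (nat_lit 202) (.e (nat_lit 573482) (nat_lit 13) (.e (nat_lit 65619) (nat_lit 10) (.e (nat_lit 344117) (nat_lit 21) (.e (nat_lit 516106) (nat_lit 0) (.e (nat_lit 7112) (nat_lit 381) (.e (nat_lit 229646) (nat_lit 232) (.e (nat_lit 75) (nat_lit 0) .nil)))))))) (.g (nat_lit 1) (.e (nat_lit 84408) (nat_lit 0) .nil) .nil))) 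
(.lf (nat_lit 470620) (.g (nat_lit 1057) (.e (nat_lit 3289) (nat_lit 201) (.e (nat_lit 565269) (nat_lit 6) (.e (nat_lit 81943) (nat_lit 20) (.e (nat_lit 2389) (nat_lit 156) .nil)))) (.g (nat_lit 0) (.e (nat_lit 85921) (nat_lit 0) .nil) .nil)))) (.nd (nat_lit 9) 
(.lf (nat_lit 470364) (.g (nat_lit 4226) (.e (nat_lit 3309) (nat_lit 202) (.e (nat_lit 573484) (nat_lit 13) (.e (nat_lit 65610) (nat_lit 10) (.e (nat_lit 344117) (nat_lit 21) (.e (nat_lit 516184) (nat_lit 16) (.e (nat_lit 491549) (nat_lit 9) (.e (nat_lit 336240) (nat_lit 15) .nil))))))) (.g (nat_lit 1) (.e (nat_lit 85190) (nat_lit 0) .nil) .nil))) 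
(.lf (nat_lit 470876) (.g (nat_lit 2043) (.e (nat_lit 3397) (nat_lit 211) (.e (nat_lit 647183) (nat_lit 4) (.e (nat_lit 172116) (nat_lit 10) (.e (nat_lit 434271) (nat_lit 38) (.e (nat_lit 655380) (nat_lit 6) (.e (nat_lit 188427) (nat_lit 20) .nil)))))) (.g (nat_lit 1) (.e (nat_lit 86508) (nat_lit 0) .nil) .nil))))) (.nd (nat_lit 8) (.nd (nat_lit 9) 
(.lf (nat_lit 470236) (.g (nat_lit 1884) (.e (nat_lit 3308) (nat_lit 202) (.e (nat_lit 573493) (nat_lit 15) (.e (nat_lit 81951) (nat_lit 22) (.e (nat_lit 90165) (nat_lit 12) .nil)))) (.g (nat_lit 0) (.e (nat_lit 84829) (nat_lit 0) .nil) .nil))) 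
(.lf (nat_lit 470748) (.g (nat_lit 4846) (.e (nat_lit 3397) (nat_lit 211) (.e (nat_lit 647181) (nat_lit 3) (.e (nat_lit 163977) (nat_lit 30) (.e (nat_lit 573485) (nat_lit 13) (.e (nat_lit 65619) (nat_lit 10) (.e (nat_lit 344117) (nat_lit 21) (.e (nat_lit 516151) (nat_lit 9) (.e (nat_lit 426025) (nat_lit 0) .nil)))))))) (.g (nat_lit 1) (.e (nat_lit 86358) (nat_lit 0) .nil) .nil)))) 
(.nd (nat_lit 9) 
(.lf (nat_lit 470492) (.g (nat_lit 2365) (.e (nat_lit 7936) (nat_lit 202) (.e (nat_lit 573492) (nat_lit 15) (.e (nat_lit 81956) (nat_lit 23) (.e (nat_lit 98389) (nat_lit 33) .nil)))) (.g (nat_lit 0) (.e (nat_lit 85725) (nat_lit 0) .nil) .nil))) 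
(.lf (nat_lit 471004) (.g (nat_lit 5354) (.e (nat_lit 3399) (nat_lit 211) (.e (nat_lit 647181) (nat_lit 3) (.e (nat_lit 163977) (nat_lit 30) (.e (nat_lit 573484) (nat_lit 13) (.e (nat_lit 65610) (nat_lit 10) (.e (nat_lit 344117) (nat_lit 21) (.e (nat_lit 516151) (nat_lit 9) (.e (nat_lit 426022) (nat_lit 0) .nil)))))))) (.g (nat_lit 1) (.e (nat_lit 86688) (nat_lit 0) .nil) .nil))))))) 
(.nd (nat_lit 6) (.nd (nat_lit 7) (.nd (nat_lit 8) (.nd (nat_lit 9) 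
(.lf (nat_lit 470076) (.g (nat_lit 2644) (.e (nat_lit 3308) (nat_lit 202) (.e (nat_lit 573482) (nat_lit 13) (.e (nat_lit 65604) (nat_lit 9) (.e (nat_lit 336028) (nat_lit 3) (.e (nat_lit 98325) (nat_lit 17) (.e (nat_lit 7936) (nat_lit 406) (.e (nat_lit 73472) (nat_lit 15) .nil))))))) (.g (nat_lit 1) (.e (nat_lit 84371) (nat_lit 0) .nil) .nil))) 
(.lf (nat_lit 470588) (.g (nat_lit 1212) (.e (nat_lit 3288) (nat_lit 201) (.e (nat_lit 565269) (nat_lit 6) (.e (nat_lit 81946) (nat_lit 20) (.e (nat_lit 2390) (nat_lit 156) (.e (nat_lit 819221) (nat_lit 6) .nil))))) (.g (nat_lit 0) (.e (nat_lit 85881) (nat_lit 0) .nil) .nil)))) (.nd (nat_lit 9) 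
(.lf (nat_lit 470332) (.g (nat_lit 4632) (.e (nat_lit 3308) (nat_lit 202) (.e (nat_lit 573493) (nat_lit 15) (.e (nat_lit 81956) (nat_lit 23) (.e (nat_lit 98386) (nat_lit 32) (.e (nat_lit 475209) (nat_lit 41) (.e (nat_lit 712716) (nat_lit 15) .nil)))))) (.g (nat_lit 1) (.e (nat_lit 85070) (nat_lit 0) .nil) .nil))) 
(.lf (nat_lit 470844) (.g (nat_lit 2010) (.e (nat_lit 3397) (nat_lit 211) (.e (nat_lit 647183) (nat_lit 4) (.e (nat_lit 172097) (nat_lit 9) (.e (nat_lit 426025) (nat_lit 0) (.e (nat_lit 3397) (nat_lit 211) (.e (nat_lit 647185) (nat_lit 6) (.e (nat_lit 188431) (nat_lit 20) .nil))))))) (.g (nat_lit 1) (.e (nat_lit 86472) (nat_lit 0) .nil) .nil))))) (.nd (nat_lit 8) (.nd (nat_lit 9) 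
(.lf (nat_lit 470204) (.g (nat_lit 3156) (.e (nat_lit 3308) (nat_lit 202) (.e (nat_lit 573491) (nat_lit 15) (.e (nat_lit 81956) (nat_lit 23) (.e (nat_lit 98388) (nat_lit 33) (.e (nat_lit 491548) (nat_lit 9) .nil))))) (.g (nat_lit 0) (.e (nat_lit 84711) (nat_lit 0) .nil) .nil))) 
(.lf (nat_lit 470716) (.g (nat_lit 4029) (.e (nat_lit 3397) (nat_lit 211) (.e (nat_lit 647180) (nat_lit 3) (.e (nat_lit 163979) (nat_lit 30) (.e (nat_lit 573482) (nat_lit 13) (.e (nat_lit 65619) (nat_lit 10) (.e (nat_lit 344117) (nat_lit 21) (.e (nat_lit 516151) (nat_lit 9) (.e (nat_lit 426003) (nat_lit 0) .nil)))))))) (.g (nat_lit 1) (.e (nat_lit 86324) (nat_lit 0) .nil) .nil)))) 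
(.nd (nat_lit 9) 
(.lf (nat_lit 470460) (.g (nat_lit 2458) (.e (nat_lit 3309) (nat_lit 202) (.e (nat_lit 573489) (nat_lit 14) (.e (nat_lit 73755) (nat_lit 8) (.e (nat_lit 557096) (nat_lit 13) (.e (nat_lit 179968) (nat_lit 18) (.e (nat_lit 98335) (nat_lit 18) (.e (nat_lit 164330) (nat_lit 230) (.e (nat_lit 163841) (nat_lit 0) .nil)))))))) (.g (nat_lit 1) (.e (nat_lit 85528) (nat_lit 0) .nil) .nil))) 
(.lf (nat_lit 470972) (.g (nat_lit 2412) (.e (nat_lit 3397) (nat_lit 211) (.e (nat_lit 647185) (nat_lit 6) (.e (nat_lit 188446) (nat_lit 21) (.e (nat_lit 164348) (nat_lit 240) (.e (nat_lit 2650) (nat_lit 166) (.e (nat_lit 188427) (nat_lit 20) .nil)))))) (.g (nat_lit 1) (.e (nat_lit 86616) (nat_lit 0) .nil) .nil)))))) (.nd (nat_lit 7) (.nd (nat_lit 8) (.nd (nat_lit 9) 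
(.lf (nat_lit 470140) (.g (nat_lit 4443) (.e (nat_lit 3308) (nat_lit 202) (.e (nat_lit 573482) (nat_lit 13) (.e (nat_lit 65619) (nat_lit 10) (.e (nat_lit 344129) (nat_lit 26) (.e (nat_lit 557087) (nat_lit 11) (.e (nat_lit 24627) (nat_lit 9) (.e (nat_lit 336306) (nat_lit 15) .nil))))))) (.g (nat_lit 1) (.e (nat_lit 84441) (nat_lit 0) .nil) .nil))) 
(.lf (nat_lit 470652) (.g (nat_lit 2860) (.e (nat_lit 3394) (nat_lit 210) (.e (nat_lit 638998) (nat_lit 8) (.e (nat_lit 172123) (nat_lit 13) (.e (nat_lit 483405) (nat_lit 26) (.e (nat_lit 385109) (nat_lit 51) (.e (nat_lit 794640) (nat_lit 20) .nil)))))) (.g (nat_lit 1) (.e (nat_lit 85976) (nat_lit 0) .nil) .nil)))) (.nd (nat_lit 9) 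
(.lf (nat_lit 470396) (.g (nat_lit 3532) (.e (nat_lit 3309) (nat_lit 202) (.e (nat_lit 573484) (nat_lit 13) (.e (nat_lit 65617) (nat_lit 10) (.e (nat_lit 344130) (nat_lit 26) (.e (nat_lit 557087) (nat_lit 11) (.e (nat_lit 24636) (nat_lit 9) (.e (nat_lit 336239) (nat_lit 15) .nil))))))) (.g (nat_lit 1) (.e (nat_lit 85333) (nat_lit 0) .nil) .nil))) 
(.lf (nat_lit 470908) (.g (nat_lit 2577) (.e (nat_lit 3397) (nat_lit 211) (.e (nat_lit 647183) (nat_lit 4) (.e (nat_lit 172124) (nat_lit 14) (.e (nat_lit 491569) (nat_lit 13) (.e (nat_lit 393266) (nat_lit 23) (.e (nat_lit 426025) (nat_lit 0) .nil)))))) (.g (nat_lit 1) (.e (nat_lit 86540) (nat_lit 0) .nil) .nil))))) (.nd (nat_lit 8) (.nd (nat_lit 9) 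
(.lf (nat_lit 470268) (.g (nat_lit 2371) (.e (nat_lit 3308) (nat_lit 202) (.e (nat_lit 573493) (nat_lit 15) (.e (nat_lit 81954) (nat_lit 23) (.e (nat_lit 98321) (nat_lit 17) .nil)))) (.g (nat_lit 0) (.e (nat_lit 84896) (nat_lit 0) .nil) .nil))) 
(.lf (nat_lit 470780) (.g (nat_lit 4553) (.e (nat_lit 3397) (nat_lit 211) (.e (nat_lit 647181) (nat_lit 3) (.e (nat_lit 163978) (nat_lit 30) (.e (nat_lit 573485) (nat_lit 13) (.e (nat_lit 65604) (nat_lit 9) (.e (nat_lit 336013) (nat_lit 2) (.e (nat_lit 90170) (nat_lit 13) (.e (nat_lit 172039) (nat_lit 0) .nil)))))))) (.g (nat_lit 1) (.e (nat_lit 86390) (nat_lit 0) .nil) .nil)))) (.nd (nat_lit 9) 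
(.lf (nat_lit 470524) (.g (nat_lit 1987) (.e (nat_lit 3277) (nat_lit 200) (.e (nat_lit 557105) (nat_lit 14) (.e (nat_lit 180251) (nat_lit 10) (.e (nat_lit 573485) (nat_lit 13) (.e (nat_lit 65568) (nat_lit 2) .nil))))) (.g (nat_lit 0) (.e (nat_lit 85789) (nat_lit 0) .nil) .nil))) 
(.lf (nat_lit 471036) (.g (nat_lit 2632) (.e (nat_lit 3399) (nat_lit 211) (.e (nat_lit 647181) (nat_lit 3) (.e (nat_lit 163978) (nat_lit 30) (.e (nat_lit 573479) (nat_lit 13) (.e (nat_lit 65619) (nat_lit 10) .nil))))) (.g (nat_lit 0) (.e (nat_lit 86721) (nat_lit 0) .nil) .nil))))))))))) 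
(.nd (nat_lit 2) (.nd (nat_lit 3) (.nd (nat_lit 4) (.nd (nat_lit 5) (.nd (nat_lit 6) 
(.nd (nat_lit 7) (.nd (nat_lit 8) (.nd (nat_lit 9) 
(.lf (nat_lit 470018) (.g (nat_lit 2952) (.e (nat_lit 3308) (nat_lit 202) (.e (nat_lit 573474) (nat_lit 12) (.e (nat_lit 57572) (nat_lit 54) (.e (nat_lit 770072) (nat_lit 8) (.e (nat_lit 65571) (nat_lit 3) (.e (nat_lit 98370) (nat_lit 28) (.e (nat_lit 442414) (nat_lit 20) .nil))))))) (.g (nat_lit 1) (.e (nat_lit 84295) (nat_lit 0) .nil) .nil))) 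
(.lf (nat_lit 470530) (.g (nat_lit 2471) (.e (nat_lit 3278) (nat_lit 200) (.e (nat_lit 557103) (nat_lit 14) (.e (nat_lit 180250) (nat_lit 10) (.e (nat_lit 573482) (nat_lit 13) (.e (nat_lit 65568) (nat_lit 2) .nil))))) (.g (nat_lit 0) (.e (nat_lit 85796) (nat_lit 0) .nil) .nil)))) (.nd (nat_lit 9) 
(.lf (nat_lit 470274) (.g (nat_lit 2702) (.e (nat_lit 3308) (nat_lit 202) (.e (nat_lit 573493) (nat_lit 15) (.e (nat_lit 81954) (nat_lit 23) (.e (nat_lit 98349) (nat_lit 24) (.e (nat_lit 409642) (nat_lit 17) .nil))))) (.g (nat_lit 0) (.e (nat_lit 84912) (nat_lit 0) .nil) .nil))) 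
(.lf (nat_lit 470786) (.g (nat_lit 4612) (.e (nat_lit 3397) (nat_lit 211) (.e (nat_lit 647181) (nat_lit 3) (.e (nat_lit 163978) (nat_lit 30) (.e (nat_lit 573485) (nat_lit 13) (.e (nat_lit 65619) (nat_lit 10) (.e (nat_lit 344117) (nat_lit 21) (.e (nat_lit 516151) (nat_lit 9) (.e (nat_lit 426003) (nat_lit 0) .nil)))))))) (.g (nat_lit 1) (.e (nat_lit 86396) (nat_lit 0) .nil) .nil))))) 
(.nd (nat_lit 8) (.nd (nat_lit 9) 
(.lf (nat_lit 470146) (.g (nat_lit 588) (.e (nat_lit 3308) (nat_lit 202) (.e (nat_lit 573482) (nat_lit 13) (.e (nat_lit 65622) (nat_lit 12) .nil))) (.g (nat_lit 0) (.e (nat_lit 84447) (nat_lit 0) .nil) .nil))) 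
(.lf (nat_lit 470658) (.g (nat_lit 2878) (.e (nat_lit 3388) (nat_lit 210) (.e (nat_lit 639020) (nat_lit 16) (.e (nat_lit 65571) (nat_lit 3) (.e (nat_lit 98370) (nat_lit 28) (.e (nat_lit 442394) (nat_lit 20) .nil))))) (.g (nat_lit 0) (.e (nat_lit 85985) (nat_lit 0) .nil) .nil)))) (.nd (nat_lit 9) 
(.lf (nat_lit 470402) (.g (nat_lit 2934) (.e (nat_lit 3309) (nat_lit 202) (.e (nat_lit 573485) (nat_lit 13) (.e (nat_lit 65604) (nat_lit 9) (.e (nat_lit 336013) (nat_lit 2) (.e (nat_lit 90165) (nat_lit 12) (.e (nat_lit 171776) (nat_lit 194) (.e (nat_lit 139008) (nat_lit 15) .nil))))))) (.g (nat_lit 1) (.e (nat_lit 85416) (nat_lit 0) .nil) .nil))) 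
(.lf (nat_lit 470914) (.g (nat_lit 2383) (.e (nat_lit 3397) (nat_lit 211) (.e (nat_lit 647183) (nat_lit 4) (.e (nat_lit 172124) (nat_lit 14) (.e (nat_lit 491570) (nat_lit 13) (.e (nat_lit 393276) (nat_lit 23) (.e (nat_lit 426025) (nat_lit 0) .nil)))))) (.g (nat_lit 1) (.e (nat_lit 86546) (nat_lit 0) .nil) .nil)))))) (.nd (nat_lit 7) (.nd (nat_lit 8) (.nd (nat_lit 9) 
(.lf (nat_lit 470082) (.g (nat_lit 1286) (.e (nat_lit 3308) (nat_lit 202) (.e (nat_lit 573482) (nat_lit 13) (.e (nat_lit 65619) (nat_lit 10) (.e (nat_lit 344115) (nat_lit 20) .nil)))) (.g (nat_lit 0) (.e (nat_lit 84380) (nat_lit 0) .nil) .nil))) 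
(.lf (nat_lit 470594) (.g (nat_lit 1736) (.e (nat_lit 3289) (nat_lit 201) (.e (nat_lit 565251) (nat_lit 0) (.e (nat_lit 1589) (nat_lit 111) (.e (nat_lit 360451) (nat_lit 0) (.e (nat_lit 7607) (nat_lit 410) (.e (nat_lit 2651) (nat_lit 166) (.e (nat_lit 188439) (nat_lit 20) .nil))))))) (.g (nat_lit 1) (.e (nat_lit 85888) (nat_lit 0) .nil) .nil)))) (.nd (nat_lit 9) 
(.lf (nat_lit 470338) (.g (nat_lit 4213) (.e (nat_lit 3308) (nat_lit 202) (.e (nat_lit 573493) (nat_lit 15) (.e (nat_lit 81956) (nat_lit 23) (.e (nat_lit 98388) (nat_lit 33) (.e (nat_lit 491549) (nat_lit 9) (.e (nat_lit 336306) (nat_lit 15) .nil)))))) (.g (nat_lit 1) (.e (nat_lit 85076) (nat_lit 0) .nil) .nil))) 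
(.lf (nat_lit 470850) (.g (nat_lit 1914) (.e (nat_lit 3397) (nat_lit 211) (.e (nat_lit 647183) (nat_lit 4) (.e (nat_lit 172106) (nat_lit 10) (.e (nat_lit 434209) (nat_lit 18) (.e (nat_lit 5548) (nat_lit 306) (.e (nat_lit 2648) (nat_lit 166) (.e (nat_lit 188427) (nat_lit 20) .nil))))))) (.g (nat_lit 1) (.e (nat_lit 86479) (nat_lit 0) .nil) .nil))))) (.nd (nat_lit 8) (.nd (nat_lit 9) 
(.lf (nat_lit 470210) (.g (nat_lit 2795) (.e (nat_lit 3308) (nat_lit 202) (.e (nat_lit 573491) (nat_lit 15) (.e (nat_lit 81956) (nat_lit 23) (.e (nat_lit 98389) (nat_lit 33) (.e (nat_lit 491556) (nat_lit 9) .nil))))) (.g (nat_lit 0) (.e (nat_lit 84717) (nat_lit 0) .nil) .nil))) 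
(.lf (nat_lit 470722) (.g (nat_lit 4482) (.e (nat_lit 3397) (nat_lit 211) (.e (nat_lit 647181) (nat_lit 3) (.e (nat_lit 163977) (nat_lit 30) (.e (nat_lit 573482) (nat_lit 13) (.e (nat_lit 65604) (nat_lit 9) (.e (nat_lit 336013) (nat_lit 2) (.e (nat_lit 90170) (nat_lit 13) (.e (nat_lit 172035) (nat_lit 0) .nil)))))))) (.g (nat_lit 1) (.e (nat_lit 86332) (nat_lit 0) .nil) .nil)))) (.nd (nat_lit 9) 
(.lf (nat_lit 470466) (.g (nat_lit 1332) (.e (nat_lit 3309) (nat_lit 202) (.e (nat_lit 573489) (nat_lit 14) (.e (nat_lit 81664) (nat_lit 35) (.e (nat_lit 163950) (nat_lit 21) (.e (nat_lit 507648) (nat_lit 20) (.e (nat_lit 89856) (nat_lit 0) .nil)))))) (.g (nat_lit 1) (.e (nat_lit 85565) (nat_lit 0) .nil) .nil))) 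
(.lf (nat_lit 470978) (.g (nat_lit 2526) (.e (nat_lit 3399) (nat_lit 211) (.e (nat_lit 647180) (nat_lit 3) (.e (nat_lit 163976) (nat_lit 30) (.e (nat_lit 573492) (nat_lit 15) (.e (nat_lit 81956) (nat_lit 23) (.e (nat_lit 98359) (nat_lit 26) (.e (nat_lit 426003) (nat_lit 0) .nil))))))) (.g (nat_lit 1) (.e (nat_lit 86660) (nat_lit 0) .nil) .nil))))))) 
(.nd (nat_lit 6) (.nd (nat_lit 7) (.nd (nat_lit 8) (.nd (nat_lit 9) 
(.lf (nat_lit 470050) (.g (nat_lit 3106) (.e (nat_lit 3308) (nat_lit 202) (.e (nat_lit 573482) (nat_lit 13) (.e (nat_lit 65604) (nat_lit 9) (.e (nat_lit 336013) (nat_lit 2) (.e (nat_lit 90165) (nat_lit 12) (.e (nat_lit 164208) (nat_lit 176) (.e (nat_lit 2781) (nat_lit 178) (.e (nat_lit 294656) (nat_lit 15) .nil)))))))) (.g (nat_lit 1) (.e (nat_lit 84345) (nat_lit 0) .nil) .nil))) 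
(.lf (nat_lit 470562) (.g (nat_lit 2394) (.e (nat_lit 3281) (nat_lit 200) (.e (nat_lit 557103) (nat_lit 14) (.e (nat_lit 180250) (nat_lit 10) (.e (nat_lit 573485) (nat_lit 13) (.e (nat_lit 65568) (nat_lit 2) .nil))))) (.g (nat_lit 0) (.e (nat_lit 85833) (nat_lit 0) .nil) .nil)))) (.nd (nat_lit 9) 
(.lf (nat_lit 470306) (.g (nat_lit 4154) (.e (nat_lit 3308) (nat_lit 202) (.e (nat_lit 573493) (nat_lit 15) (.e (nat_lit 81956) (nat_lit 23) (.e (nat_lit 98328) (nat_lit 17) .nil)))) (.g (nat_lit 0) (.e (nat_lit 84971) (nat_lit 0) .nil) .nil))) 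
(.lf (nat_lit 470818) (.g (nat_lit 5143) (.e (nat_lit 3397) (nat_lit 211) (.e (nat_lit 647181) (nat_lit 3) (.e (nat_lit 163979) (nat_lit 30) (.e (nat_lit 573493) (nat_lit 15) (.e (nat_lit 81956) (nat_lit 23) (.e (nat_lit 98360) (nat_lit 26) (.e (nat_lit 426025) (nat_lit 0) .nil))))))) (.g (nat_lit 1) (.e (nat_lit 86430) (nat_lit 0) .nil) .nil))))) (.nd (nat_lit 8) (.nd (nat_lit 9) 
(.lf (nat_lit 470178) (.g (nat_lit 1759) (.e (nat_lit 3308) (nat_lit 202) (.e (nat_lit 573489) (nat_lit 14) (.e (nat_lit 73755) (nat_lit 8) (.e (nat_lit 557105) (nat_lit 14) .nil)))) (.g (nat_lit 0) (.e (nat_lit 84559) (nat_lit 0) .nil) .nil))) 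
(.lf (nat_lit 470690) (.g (nat_lit 2555) (.e (nat_lit 3391) (nat_lit 210) (.e (nat_lit 639021) (nat_lit 16) (.e (nat_lit 65598) (nat_lit 9) (.e (nat_lit 335997) (nat_lit 1) (.e (nat_lit 57857) (nat_lit 254) (.e (nat_lit 163920) (nat_lit 14) (.e (nat_lit 442412) (nat_lit 20) .nil))))))) (.g (nat_lit 1) (.e (nat_lit 86177) (nat_lit 0) .nil) .nil)))) (.nd (nat_lit 9) 
(.lf (nat_lit 470434) (.g (nat_lit 1988) (.e (nat_lit 3309) (nat_lit 202) (.e (nat_lit 573485) (nat_lit 13) (.e (nat_lit 65619) (nat_lit 10) (.e (nat_lit 344131) (nat_lit 26) (.e (nat_lit 557087) (nat_lit 11) .nil))))) (.g (nat_lit 0) (.e (nat_lit 85476) (nat_lit 0) .nil) .nil))) 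
(.lf (nat_lit 470946) (.g (nat_lit 3657) (.e (nat_lit 3397) (nat_lit 211) (.e (nat_lit 647183) (nat_lit 4) (.e (nat_lit 172126) (nat_lit 14) (.e (nat_lit 491571) (nat_lit 13) (.e (nat_lit 393275) (nat_lit 23) (.e (nat_lit 426025) (nat_lit 0) .nil)))))) (.g (nat_lit 1) (.e (nat_lit 86578) (nat_lit 0) .nil) .nil)))))) (.nd (nat_lit 7) (.nd (nat_lit 8) (.nd (nat_lit 9) 
(.lf (nat_lit 470114) (.g (nat_lit 4499) (.e (nat_lit 3308) (nat_lit 202) (.e (nat_lit 573482) (nat_lit 13) (.e (nat_lit 65619) (nat_lit 10) (.e (nat_lit 344117) (nat_lit 21) (.e (nat_lit 516139) (nat_lit 7) (.e (nat_lit 409641) (nat_lit 17) (.e (nat_lit 294966) (nat_lit 15) .nil))))))) (.g (nat_lit 1) (.e (nat_lit 84414) (nat_lit 0) .nil) .nil))) 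
(.lf (nat_lit 470626) (.g (nat_lit 1386) (.e (nat_lit 3289) (nat_lit 201) (.e (nat_lit 565269) (nat_lit 6) (.e (nat_lit 81947) (nat_lit 20) (.e (nat_lit 2390) (nat_lit 156) (.e (nat_lit 819221) (nat_lit 6) (.e (nat_lit 188438) (nat_lit 20) .nil)))))) (.g (nat_lit 1) (.e (nat_lit 85927) (nat_lit 0) .nil) .nil)))) (.nd (nat_lit 9) 
(.lf (nat_lit 470370) (.g (nat_lit 3601) (.e (nat_lit 3309) (nat_lit 202) (.e (nat_lit 573484) (nat_lit 13) (.e (nat_lit 65610) (nat_lit 10) (.e (nat_lit 344117) (nat_lit 21) (.e (nat_lit 516185) (nat_lit 16) (.e (nat_lit 491556) (nat_lit 9) (.e (nat_lit 343808) (nat_lit 15) .nil))))))) (.g (nat_lit 1) (.e (nat_lit 85196) (nat_lit 0) .nil) .nil))) 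
(.lf (nat_lit 470882) (.g (nat_lit 2382) (.e (nat_lit 3397) (nat_lit 211) (.e (nat_lit 647183) (nat_lit 4) (.e (nat_lit 172118) (nat_lit 12) (.e (nat_lit 475198) (nat_lit 40) (.e (nat_lit 704598) (nat_lit 6) (.e (nat_lit 188427) (nat_lit 20) .nil)))))) (.g (nat_lit 1) (.e (nat_lit 86514) (nat_lit 0) .nil) .nil))))) (.nd (nat_lit 8) (.nd (nat_lit 9) 
(.lf (nat_lit 470242) (.g (nat_lit 4743) (.e (nat_lit 3308) (nat_lit 202) (.e (nat_lit 573493) (nat_lit 15) (.e (nat_lit 81953) (nat_lit 22) (.e (nat_lit 90130) (nat_lit 9) .nil)))) (.g (nat_lit 0) (.e (nat_lit 84839) (nat_lit 0) .nil) .nil))) 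
(.lf (nat_lit 470754) (.g (nat_lit 3633) (.e (nat_lit 3397) (nat_lit 211) (.e (nat_lit 647181) (nat_lit 3) (.e (nat_lit 163977) (nat_lit 30) (.e (nat_lit 573491) (nat_lit 15) (.e (nat_lit 81954) (nat_lit 23) (.e (nat_lit 98359) (nat_lit 26) (.e (nat_lit 426022) (nat_lit 0) .nil))))))) (.g (nat_lit 1) (.e (nat_lit 86364) (nat_lit 0) .nil) .nil)))) (.nd (nat_lit 9) 
(.lf (nat_lit 470498) (.g (nat_lit 3119) (.e (nat_lit 3275) (nat_lit 200) (.e (nat_lit 557105) (nat_lit 14) (.e (nat_lit 180252) (nat_lit 10) (.e (nat_lit 573480) (nat_lit 13) (.e (nat_lit 65568) (nat_lit 2) (.e (nat_lit 98048) (nat_lit 2) (.e (nat_lit 16388) (nat_lit 0) .nil))))))) (.g (nat_lit 1) (.e (nat_lit 85762) (nat_lit 0) .nil) .nil))) 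
(.lf (nat_lit 471010) (.g (nat_lit 3925) (.e (nat_lit 3399) (nat_lit 211) (.e (nat_lit 647181) (nat_lit 3) (.e (nat_lit 163977) (nat_lit 30) (.e (nat_lit 573485) (nat_lit 13) (.e (nat_lit 65604) (nat_lit 9) (.e (nat_lit 336028) (nat_lit 3) (.e (nat_lit 98359) (nat_lit 26) (.e (nat_lit 426022) (nat_lit 0) .nil)))))))) (.g (nat_lit 1) (.e (nat_lit 86694) (nat_lit 0) .nil) .nil)))))))) 
(.nd (nat_lit 5) (.nd (nat_lit 6) (.nd (nat_lit 7) (.nd (nat_lit 8) (.nd (nat_lit 9) 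
(.lf (nat_lit 470034) (.g (nat_lit 3384) (.e (nat_lit 3308) (nat_lit 202) (.e (nat_lit 573475) (nat_lit 12) (.e (nat_lit 57574) (nat_lit 55) (.e (nat_lit 778466) (nat_lit 11) (.e (nat_lit 24604) (nat_lit 2) (.e (nat_lit 90176) (nat_lit 15) (.e (nat_lit 188441) (nat_lit 20) .nil))))))) (.g (nat_lit 1) (.e (nat_lit 84322) (nat_lit 0) .nil) .nil))) 
(.lf (nat_lit 470546) (.g (nat_lit 2886) (.e (nat_lit 3280) (nat_lit 200) (.e (nat_lit 557102) (nat_lit 14) (.e (nat_lit 180252) (nat_lit 10) (.e (nat_lit 573482) (nat_lit 13) (.e (nat_lit 65568) (nat_lit 2) (.e (nat_lit 98048) (nat_lit 2) (.e (nat_lit 16388) (nat_lit 0) .nil))))))) (.g (nat_lit 1) (.e (nat_lit 85815) (nat_lit 0) .nil) .nil)))) (.nd (nat_lit 9) 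
(.lf (nat_lit 470290) (.g (nat_lit 2135) (.e (nat_lit 3308) (nat_lit 202) (.e (nat_lit 573493) (nat_lit 15) (.e (nat_lit 81956) (nat_lit 23) (.e (nat_lit 98320) (nat_lit 17) .nil)))) (.g (nat_lit 0) (.e (nat_lit 84936) (nat_lit 0) .nil) .nil))) 
(.lf (nat_lit 470802) (.g (nat_lit 3693) (.e (nat_lit 3397) (nat_lit 211) (.e (nat_lit 647181) (nat_lit 3) (.e (nat_lit 163979) (nat_lit 30) (.e (nat_lit 573491) (nat_lit 15) (.e (nat_lit 81951) (nat_lit 22) (.e (nat_lit 90170) (nat_lit 13) (.e (nat_lit 172035) (nat_lit 0) .nil))))))) (.g (nat_lit 1) (.e (nat_lit 86413) (nat_lit 0) .nil) .nil))))) (.nd (nat_lit 8) (.nd (nat_lit 9) 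
(.lf (nat_lit 470162) (.g (nat_lit 3146) (.e (nat_lit 3308) (nat_lit 202) (.e (nat_lit 573482) (nat_lit 13) (.e (nat_lit 65630) (nat_lit 14) (.e (nat_lit 401425) (nat_lit 2) (.e (nat_lit 196681) (nat_lit 17) (.e (nat_lit 131109) (nat_lit 9) (.e (nat_lit 336306) (nat_lit 15) .nil))))))) (.g (nat_lit 1) (.e (nat_lit 84463) (nat_lit 0) .nil) .nil))) 
(.lf (nat_lit 470674) (.g (nat_lit 1414) (.e (nat_lit 3390) (nat_lit 210) (.e (nat_lit 639020) (nat_lit 16) (.e (nat_lit 65583) (nat_lit 7) (.e (nat_lit 319530) (nat_lit 16) (.e (nat_lit 286727) (nat_lit 0) .nil))))) (.g (nat_lit 0) (.e (nat_lit 86039) (nat_lit 0) .nil) .nil)))) (.nd (nat_lit 9) 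
(.lf (nat_lit 470418) (.g (nat_lit 4219) (.e (nat_lit 3309) (nat_lit 202) (.e (nat_lit 573485) (nat_lit 13) (.e (nat_lit 65619) (nat_lit 10) (.e (nat_lit 344117) (nat_lit 21) (.e (nat_lit 516185) (nat_lit 16) (.e (nat_lit 491547) (nat_lit 9) (.e (nat_lit 336240) (nat_lit 15) .nil))))))) (.g (nat_lit 1) (.e (nat_lit 85452) (nat_lit 0) .nil) .nil))) 
(.lf (nat_lit 470930) (.g (nat_lit 2726) (.e (nat_lit 3397) (nat_lit 211) (.e (nat_lit 647183) (nat_lit 4) (.e (nat_lit 172126) (nat_lit 14) (.e (nat_lit 491549) (nat_lit 9) (.e (nat_lit 336391) (nat_lit 27) .nil))))) (.g (nat_lit 0) (.e (nat_lit 86562) (nat_lit 0) .nil) .nil)))))) (.nd (nat_lit 7) (.nd (nat_lit 8) (.nd (nat_lit 9) 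
(.lf (nat_lit 470098) (.g (nat_lit 3152) (.e (nat_lit 3308) (nat_lit 202) (.e (nat_lit 573482) (nat_lit 13) (.e (nat_lit 65619) (nat_lit 10) (.e (nat_lit 344117) (nat_lit 21) (.e (nat_lit 516098) (nat_lit 0) (.e (nat_lit 7589) (nat_lit 406) (.e (nat_lit 73472) (nat_lit 15) .nil))))))) (.g (nat_lit 1) (.e (nat_lit 84398) (nat_lit 0) .nil) .nil))) 
(.lf (nat_lit 470610) (.g (nat_lit 2139) (.e (nat_lit 3289) (nat_lit 201) (.e (nat_lit 565269) (nat_lit 6) (.e (nat_lit 81938) (nat_lit 20) (.e (nat_lit 2391) (nat_lit 156) (.e (nat_lit 819221) (nat_lit 6) (.e (nat_lit 188439) (nat_lit 20) .nil)))))) (.g (nat_lit 1) (.e (nat_lit 85911) (nat_lit 0) .nil) .nil)))) (.nd (nat_lit 9) 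
(.lf (nat_lit 470354) (.g (nat_lit 3784) (.e (nat_lit 3309) (nat_lit 202) (.e (nat_lit 573477) (nat_lit 12) (.e (nat_lit 57575) (nat_lit 55) (.e (nat_lit 778465) (nat_lit 11) (.e (nat_lit 24604) (nat_lit 2) (.e (nat_lit 90185) (nat_lit 17) (.e (nat_lit 237605) (nat_lit 9) (.e (nat_lit 425986) (nat_lit 0) .nil)))))))) (.g (nat_lit 1) (.e (nat_lit 85111) (nat_lit 0) .nil) .nil))) 
(.lf (nat_lit 470866) (.g (nat_lit 1926) (.e (nat_lit 3397) (nat_lit 211) (.e (nat_lit 647183) (nat_lit 4) (.e (nat_lit 172113) (nat_lit 10) (.e (nat_lit 434271) (nat_lit 38) (.e (nat_lit 655378) (nat_lit 4) (.e (nat_lit 172089) (nat_lit 9) (.e (nat_lit 426025) (nat_lit 0) .nil))))))) (.g (nat_lit 1) (.e (nat_lit 86496) (nat_lit 0) .nil) .nil))))) (.nd (nat_lit 8) (.nd (nat_lit 9) 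
(.lf (nat_lit 470226) (.g (nat_lit 2984) (.e (nat_lit 3308) (nat_lit 202) (.e (nat_lit 573492) (nat_lit 15) (.e (nat_lit 81956) (nat_lit 23) (.e (nat_lit 98389) (nat_lit 33) (.e (nat_lit 491552) (nat_lit 9) (.e (nat_lit 343808) (nat_lit 15) .nil)))))) (.g (nat_lit 1) (.e (nat_lit 84737) (nat_lit 0) .nil) .nil))) 
(.lf (nat_lit 470738) (.g (nat_lit 4686) (.e (nat_lit 3397) (nat_lit 211) (.e (nat_lit 647181) (nat_lit 3) (.e (nat_lit 163977) (nat_lit 30) (.e (nat_lit 573485) (nat_lit 13) (.e (nat_lit 65604) (nat_lit 9) (.e (nat_lit 336013) (nat_lit 2) (.e (nat_lit 90170) (nat_lit 13) (.e (nat_lit 172032) (nat_lit 0) .nil)))))))) (.g (nat_lit 1) (.e (nat_lit 86348) (nat_lit 0) .nil) .nil)))) (.nd (nat_lit 9) 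
(.lf (nat_lit 470482) (.g (nat_lit 5515) (.e (nat_lit 3311) (nat_lit 202) (.e (nat_lit 573493) (nat_lit 15) (.e (nat_lit 81956) (nat_lit 23) (.e (nat_lit 98389) (nat_lit 33) .nil)))) (.g (nat_lit 0) (.e (nat_lit 85663) (nat_lit 0) .nil) .nil))) 
(.lf (nat_lit 470994) (.g (nat_lit 4551) (.e (nat_lit 3399) (nat_lit 211) (.e (nat_lit 647181) (nat_lit 3) (.e (nat_lit 163977) (nat_lit 30) (.e (nat_lit 573482) (nat_lit 13) (.e (nat_lit 65604) (nat_lit 9) (.e (nat_lit 336013) (nat_lit 2) (.e (nat_lit 90170) (nat_lit 13) (.e (nat_lit 172032) (nat_lit 0) .nil)))))))) (.g (nat_lit 1) (.e (nat_lit 86678) (nat_lit 0) .nil) .nil))))))) 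
(.nd (nat_lit 6) (.nd (nat_lit 7) (.nd (nat_lit 8) (.nd (nat_lit 9) 
(.lf (nat_lit 470066) (.g (nat_lit 2210) (.e (nat_lit 3308) (nat_lit 202) (.e (nat_lit 573482) (nat_lit 13) (.e (nat_lit 65604) (nat_lit 9) (.e (nat_lit 336028) (nat_lit 3) (.e (nat_lit 98325) (nat_lit 17) (.e (nat_lit 6966) (nat_lit 377) (.e (nat_lit 2789) (nat_lit 179) (.e (nat_lit 294966) (nat_lit 15) .nil)))))))) (.g (nat_lit 1) (.e (nat_lit 84361) (nat_lit 0) .nil) .nil))) 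
(.lf (nat_lit 470578) (.g (nat_lit 1012) (.e (nat_lit 3288) (nat_lit 201) (.e (nat_lit 565267) (nat_lit 4) (.e (nat_lit 65617) (nat_lit 10) (.e (nat_lit 344183) (nat_lit 49) (.e (nat_lit 819221) (nat_lit 6) (.e (nat_lit 188441) (nat_lit 20) .nil)))))) (.g (nat_lit 1) (.e (nat_lit 85869) (nat_lit 0) .nil) .nil)))) (.nd (nat_lit 9) 
(.lf (nat_lit 470322) (.g (nat_lit 2789) (.e (nat_lit 3308) (nat_lit 202) (.e (nat_lit 573493) (nat_lit 15) (.e (nat_lit 81956) (nat_lit 23) (.e (nat_lit 98367) (nat_lit 27) .nil)))) (.g (nat_lit 0) (.e (nat_lit 85056) (nat_lit 0) .nil) .nil))) 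
(.lf (nat_lit 470834) (.g (nat_lit 1838) (.e (nat_lit 3397) (nat_lit 211) (.e (nat_lit 647183) (nat_lit 4) (.e (nat_lit 172081) (nat_lit 7) (.e (nat_lit 409642) (nat_lit 17) (.e (nat_lit 294974) (nat_lit 29) (.e (nat_lit 442399) (nat_lit 20) .nil)))))) (.g (nat_lit 1) (.e (nat_lit 86462) (nat_lit 0) .nil) .nil))))) (.nd (nat_lit 8) (.nd (nat_lit 9) 
(.lf (nat_lit 470194) (.g (nat_lit 2743) (.e (nat_lit 3308) (nat_lit 202) (.e (nat_lit 573491) (nat_lit 15) (.e (nat_lit 81954) (nat_lit 23) (.e (nat_lit 98388) (nat_lit 33) (.e (nat_lit 491549) (nat_lit 9) (.e (nat_lit 336306) (nat_lit 15) .nil)))))) (.g (nat_lit 1) (.e (nat_lit 84695) (nat_lit 0) .nil) .nil))) 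
(.lf (nat_lit 470706) (.g (nat_lit 3128) (.e (nat_lit 3432) (nat_lit 213) (.e (nat_lit 663569) (nat_lit 6) (.e (nat_lit 81953) (nat_lit 22) (.e (nat_lit 90160) (nat_lit 11) .nil)))) (.g (nat_lit 0) (.e (nat_lit 86298) (nat_lit 0) .nil) .nil)))) (.nd (nat_lit 9) 
(.lf (nat_lit 470450) (.g (nat_lit 1476) (.e (nat_lit 3309) (nat_lit 202) (.e (nat_lit 573485) (nat_lit 13) (.e (nat_lit 65630) (nat_lit 14) (.e (nat_lit 401428) (nat_lit 3) (.e (nat_lit 204859) (nat_lit 26) (.e (nat_lit 336118) (nat_lit 9) (.e (nat_lit 336239) (nat_lit 15) .nil))))))) (.g (nat_lit 1) (.e (nat_lit 85494) (nat_lit 0) .nil) .nil))) 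
(.lf (nat_lit 470962) (.g (nat_lit 1973) (.e (nat_lit 3397) (nat_lit 211) (.e (nat_lit 647185) (nat_lit 6) (.e (nat_lit 188440) (nat_lit 20) (.e (nat_lit 3408) (nat_lit 212) (.e (nat_lit 655380) (nat_lit 6) (.e (nat_lit 188431) (nat_lit 20) .nil)))))) (.g (nat_lit 1) (.e (nat_lit 86603) (nat_lit 0) .nil) .nil)))))) (.nd (nat_lit 7) (.nd (nat_lit 8) (.nd (nat_lit 9) 
(.lf (nat_lit 470130) (.g (nat_lit 2881) (.e (nat_lit 3308) (nat_lit 202) (.e (nat_lit 573482) (nat_lit 13) (.e (nat_lit 65619) (nat_lit 10) (.e (nat_lit 344117) (nat_lit 21) (.e (nat_lit 516185) (nat_lit 16) (.e (nat_lit 491556) (nat_lit 9) (.e (nat_lit 343808) (nat_lit 15) .nil))))))) (.g (nat_lit 1) (.e (nat_lit 84430) (nat_lit 0) .nil) .nil))) 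
(.lf (nat_lit 470642) (.g (nat_lit 3887) (.e (nat_lit 3366) (nat_lit 208) (.e (nat_lit 622627) (nat_lit 13) (.e (nat_lit 2663) (nat_lit 167) (.e (nat_lit 196666) (nat_lit 13) (.e (nat_lit 65610) (nat_lit 10) (.e (nat_lit 344117) (nat_lit 21) (.e (nat_lit 516151) (nat_lit 9) (.e (nat_lit 426043) (nat_lit 0) .nil)))))))) (.g (nat_lit 1) (.e (nat_lit 85963) (nat_lit 0) .nil) .nil)))) 
(.nd (nat_lit 9) 
(.lf (nat_lit 470386) (.g (nat_lit 3027) (.e (nat_lit 3309) (nat_lit 202) (.e (nat_lit 573484) (nat_lit 13) (.e (nat_lit 65610) (nat_lit 10) (.e (nat_lit 344129) (nat_lit 26) (.e (nat_lit 557087) (nat_lit 11) (.e (nat_lit 24631) (nat_lit 9) (.e (nat_lit 343808) (nat_lit 15) .nil))))))) (.g (nat_lit 1) (.e (nat_lit 85270) (nat_lit 0) .nil) .nil))) 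
(.lf (nat_lit 470898) (.g (nat_lit 2452) (.e (nat_lit 3397) (nat_lit 211) (.e (nat_lit 647183) (nat_lit 4) (.e (nat_lit 172120) (nat_lit 12) (.e (nat_lit 475199) (nat_lit 40) (.e (nat_lit 704598) (nat_lit 6) (.e (nat_lit 188427) (nat_lit 20) .nil)))))) (.g (nat_lit 1) (.e (nat_lit 86530) (nat_lit 0) .nil) .nil))))) (.nd (nat_lit 8) (.nd (nat_lit 9) 
(.lf (nat_lit 470258) (.g (nat_lit 5134) (.e (nat_lit 3308) (nat_lit 202) (.e (nat_lit 573493) (nat_lit 15) (.e (nat_lit 81953) (nat_lit 22) (.e (nat_lit 90162) (nat_lit 12) .nil)))) (.g (nat_lit 0) (.e (nat_lit 84858) (nat_lit 0) .nil) .nil))) 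
(.lf (nat_lit 470770) (.g (nat_lit 3243) (.e (nat_lit 3397) (nat_lit 211) (.e (nat_lit 647181) (nat_lit 3) (.e (nat_lit 163978) (nat_lit 30) (.e (nat_lit 573479) (nat_lit 13) (.e (nat_lit 65604) (nat_lit 9) (.e (nat_lit 336028) (nat_lit 3) (.e (nat_lit 98359) (nat_lit 26) (.e (nat_lit 426025) (nat_lit 0) .nil)))))))) (.g (nat_lit 1) (.e (nat_lit 86380) (nat_lit 0) .nil) .nil)))) (.nd (nat_lit 9) 
(.lf (nat_lit 470514) (.g (nat_lit 2817) (.e (nat_lit 3276) (nat_lit 200) (.e (nat_lit 557105) (nat_lit 14) (.e (nat_lit 180252) (nat_lit 10) (.e (nat_lit 573482) (nat_lit 13) (.e (nat_lit 65566) (nat_lit 2) .nil))))) (.g (nat_lit 0) (.e (nat_lit 85779) (nat_lit 0) .nil) .nil))) 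
(.lf (nat_lit 471026) (.g (nat_lit 3963) (.e (nat_lit 3399) (nat_lit 211) (.e (nat_lit 647181) (nat_lit 3) (.e (nat_lit 163977) (nat_lit 30) (.e (nat_lit 573493) (nat_lit 15) (.e (nat_lit 81953) (nat_lit 22) (.e (nat_lit 90170) (nat_lit 13) (.e (nat_lit 172039) (nat_lit 0) .nil))))))) (.g (nat_lit 1) (.e (nat_lit 86711) (nat_lit 0) .nil) .nil))))))))) 
(.nd (nat_lit 4) (.nd (nat_lit 5) (.nd (nat_lit 6) (.nd (nat_lit 7) (.nd (nat_lit 8) 
(.nd (nat_lit 9) 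
(.lf (nat_lit 470026) (.g (nat_lit 2026) (.e (nat_lit 3308) (nat_lit 202) (.e (nat_lit 573475) (nat_lit 12) (.e (nat_lit 57574) (nat_lit 55) (.e (nat_lit 778466) (nat_lit 11) (.e (nat_lit 24603) (nat_lit 2) .nil))))) (.g (nat_lit 0) (.e (nat_lit 84314) (nat_lit 0) .nil) .nil))) 
(.lf (nat_lit 470538) (.g (nat_lit 2616) (.e (nat_lit 3278) (nat_lit 200) (.e (nat_lit 557105) (nat_lit 14) (.e (nat_lit 180252) (nat_lit 10) (.e (nat_lit 573487) (nat_lit 14) .nil)))) (.g (nat_lit 0) (.e (nat_lit 85804) (nat_lit 0) .nil) .nil)))) (.nd (nat_lit 9) 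
(.lf (nat_lit 470282) (.g (nat_lit 3130) (.e (nat_lit 3308) (nat_lit 202) (.e (nat_lit 573493) (nat_lit 15) (.e (nat_lit 81954) (nat_lit 23) (.e (nat_lit 98388) (nat_lit 33) (.e (nat_lit 491548) (nat_lit 9) .nil))))) (.g (nat_lit 0) (.e (nat_lit 84927) (nat_lit 0) .nil) .nil))) 
(.lf (nat_lit 470794) (.g (nat_lit 4645) (.e (nat_lit 3397) (nat_lit 211) (.e (nat_lit 647181) (nat_lit 3) (.e (nat_lit 163979) (nat_lit 30) (.e (nat_lit 573482) (nat_lit 13) (.e (nat_lit 65604) (nat_lit 9) (.e (nat_lit 336028) (nat_lit 3) (.e (nat_lit 98359) (nat_lit 26) (.e (nat_lit 426025) (nat_lit 0) .nil)))))))) (.g (nat_lit 1) (.e (nat_lit 86405) (nat_lit 0) .nil) .nil))))) 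
(.nd (nat_lit 8) (.nd (nat_lit 9) 
(.lf (nat_lit 470154) (.g (nat_lit 2463) (.e (nat_lit 3308) (nat_lit 202) (.e (nat_lit 573482) (nat_lit 13) (.e (nat_lit 65628) (nat_lit 14) (.e (nat_lit 401428) (nat_lit 3) (.e (nat_lit 204861) (nat_lit 26) (.e (nat_lit 336086) (nat_lit 9) (.e (nat_lit 336306) (nat_lit 15) .nil))))))) (.g (nat_lit 1) (.e (nat_lit 84455) (nat_lit 0) .nil) .nil))) 
(.lf (nat_lit 470666) (.g (nat_lit 1504) (.e (nat_lit 3390) (nat_lit 210) (.e (nat_lit 639007) (nat_lit 13) (.e (nat_lit 1586) (nat_lit 111) (.e (nat_lit 360451) (nat_lit 0) (.e (nat_lit 5107) (nat_lit 292) .nil))))) (.g (nat_lit 0) (.e (nat_lit 86026) (nat_lit 0) .nil) .nil)))) (.nd (nat_lit 9) 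
(.lf (nat_lit 470410) (.g (nat_lit 2309) (.e (nat_lit 3309) (nat_lit 202) (.e (nat_lit 573485) (nat_lit 13) (.e (nat_lit 65619) (nat_lit 10) (.e (nat_lit 344117) (nat_lit 21) (.e (nat_lit 516098) (nat_lit 0) (.e (nat_lit 7587) (nat_lit 406) (.e (nat_lit 73472) (nat_lit 15) .nil))))))) (.g (nat_lit 1) (.e (nat_lit 85440) (nat_lit 0) .nil) .nil))) 
(.lf (nat_lit 470922) (.g (nat_lit 981) (.e (nat_lit 3397) (nat_lit 211) (.e (nat_lit 647183) (nat_lit 4) (.e (nat_lit 172125) (nat_lit 14) (.e (nat_lit 491571) (nat_lit 13) .nil)))) (.g (nat_lit 0) (.e (nat_lit 86554) (nat_lit 0) .nil) .nil)))))) (.nd (nat_lit 7) (.nd (nat_lit 8) (.nd (nat_lit 9) 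
(.lf (nat_lit 470090) (.g (nat_lit 2267) (.e (nat_lit 3308) (nat_lit 202) (.e (nat_lit 573482) (nat_lit 13) (.e (nat_lit 65619) (nat_lit 10) (.e (nat_lit 344115) (nat_lit 20) (.e (nat_lit 507908) (nat_lit 0) (.e (nat_lit 5405) (nat_lit 302) (.e (nat_lit 73472) (nat_lit 15) .nil))))))) (.g (nat_lit 1) (.e (nat_lit 84388) (nat_lit 0) .nil) .nil))) 
(.lf (nat_lit 470602) (.g (nat_lit 1416) (.e (nat_lit 3289) (nat_lit 201) (.e (nat_lit 565267) (nat_lit 4) (.e (nat_lit 65620) (nat_lit 10) (.e (nat_lit 344183) (nat_lit 49) (.e (nat_lit 819221) (nat_lit 6) (.e (nat_lit 188434) (nat_lit 20) .nil)))))) (.g (nat_lit 1) (.e (nat_lit 85903) (nat_lit 0) .nil) .nil)))) (.nd (nat_lit 9) 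
(.lf (nat_lit 470346) (.g (nat_lit 3192) (.e (nat_lit 3308) (nat_lit 202) (.e (nat_lit 573493) (nat_lit 15) (.e (nat_lit 81956) (nat_lit 23) (.e (nat_lit 98389) (nat_lit 33) (.e (nat_lit 491556) (nat_lit 9) (.e (nat_lit 343808) (nat_lit 15) .nil)))))) (.g (nat_lit 1) (.e (nat_lit 85084) (nat_lit 0) .nil) .nil))) 
(.lf (nat_lit 470858) (.g (nat_lit 2734) (.e (nat_lit 3397) (nat_lit 211) (.e (nat_lit 647183) (nat_lit 4) (.e (nat_lit 172107) (nat_lit 10) (.e (nat_lit 434271) (nat_lit 38) (.e (nat_lit 655378) (nat_lit 4) (.e (nat_lit 172094) (nat_lit 9) (.e (nat_lit 426025) (nat_lit 0) .nil))))))) (.g (nat_lit 1) (.e (nat_lit 86487) (nat_lit 0) .nil) .nil))))) (.nd (nat_lit 8) (.nd (nat_lit 9) 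
(.lf (nat_lit 470218) (.g (nat_lit 3501) (.e (nat_lit 3308) (nat_lit 202) (.e (nat_lit 573492) (nat_lit 15) (.e (nat_lit 81956) (nat_lit 23) (.e (nat_lit 98350) (nat_lit 24) .nil)))) (.g (nat_lit 0) (.e (nat_lit 84727) (nat_lit 0) .nil) .nil))) 
(.lf (nat_lit 470730) (.g (nat_lit 4720) (.e (nat_lit 3397) (nat_lit 211) (.e (nat_lit 647181) (nat_lit 3) (.e (nat_lit 163977) (nat_lit 30) (.e (nat_lit 573482) (nat_lit 13) (.e (nat_lit 65619) (nat_lit 10) (.e (nat_lit 344117) (nat_lit 21) (.e (nat_lit 516151) (nat_lit 9) (.e (nat_lit 426003) (nat_lit 0) .nil)))))))) (.g (nat_lit 1) (.e (nat_lit 86340) (nat_lit 0) .nil) .nil)))) 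
(.nd (nat_lit 9) 
(.lf (nat_lit 470474) (.g (nat_lit 4033) (.e (nat_lit 3309) (nat_lit 202) (.e (nat_lit 573493) (nat_lit 15) (.e (nat_lit 81956) (nat_lit 23) (.e (nat_lit 98389) (nat_lit 33) (.e (nat_lit 491547) (nat_lit 9) (.e (nat_lit 336240) (nat_lit 15) .nil)))))) (.g (nat_lit 1) (.e (nat_lit 85607) (nat_lit 0) .nil) .nil))) 
(.lf (nat_lit 470986) (.g (nat_lit 4002) (.e (nat_lit 3399) (nat_lit 211) (.e (nat_lit 647180) (nat_lit 3) (.e (nat_lit 163978) (nat_lit 30) (.e (nat_lit 573485) (nat_lit 13) (.e (nat_lit 65619) (nat_lit 10) (.e (nat_lit 344117) (nat_lit 21) (.e (nat_lit 516151) (nat_lit 9) (.e (nat_lit 426003) (nat_lit 0) .nil)))))))) (.g (nat_lit 1) (.e (nat_lit 86668) (nat_lit 0) .nil) .nil))))))) 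
(.nd (nat_lit 6) (.nd (nat_lit 7) (.nd (nat_lit 8) (.nd (nat_lit 9) 
(.lf (nat_lit 470058) (.g (nat_lit 2033) (.e (nat_lit 3308) (nat_lit 202) (.e (nat_lit 573482) (nat_lit 13) (.e (nat_lit 65604) (nat_lit 9) (.e (nat_lit 336013) (nat_lit 2) (.e (nat_lit 90165) (nat_lit 12) (.e (nat_lit 164219) (nat_lit 180) (.e (nat_lit 229646) (nat_lit 232) (.e (nat_lit 75) (nat_lit 0) .nil)))))))) (.g (nat_lit 1) (.e (nat_lit 84353) (nat_lit 0) .nil) .nil))) 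
(.lf (nat_lit 470570) (.g (nat_lit 1859) (.e (nat_lit 7936) (nat_lit 200) (.e (nat_lit 557105) (nat_lit 14) (.e (nat_lit 180252) (nat_lit 10) (.e (nat_lit 573480) (nat_lit 13) (.e (nat_lit 65568) (nat_lit 2) .nil))))) (.g (nat_lit 0) (.e (nat_lit 85860) (nat_lit 0) .nil) .nil)))) (.nd (nat_lit 9) 
(.lf (nat_lit 470314) (.g (nat_lit 3401) (.e (nat_lit 3308) (nat_lit 202) (.e (nat_lit 573493) (nat_lit 15) (.e (nat_lit 81956) (nat_lit 23) (.e (nat_lit 98350) (nat_lit 24) (.e (nat_lit 417536) (nat_lit 16) (.e (nat_lit 294656) (nat_lit 15) .nil)))))) (.g (nat_lit 1) (.e (nat_lit 85017) (nat_lit 0) .nil) .nil))) 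
(.lf (nat_lit 470826) (.g (nat_lit 2068) (.e (nat_lit 3397) (nat_lit 211) (.e (nat_lit 647183) (nat_lit 4) (.e (nat_lit 172079) (nat_lit 7) (.e (nat_lit 409642) (nat_lit 17) (.e (nat_lit 294974) (nat_lit 29) (.e (nat_lit 442399) (nat_lit 20) .nil)))))) (.g (nat_lit 1) (.e (nat_lit 86454) (nat_lit 0) .nil) .nil))))) (.nd (nat_lit 8) (.nd (nat_lit 9) 
(.lf (nat_lit 470186) (.g (nat_lit 995) (.e (nat_lit 3308) (nat_lit 202) (.e (nat_lit 573491) (nat_lit 15) (.e (nat_lit 81954) (nat_lit 23) (.e (nat_lit 98325) (nat_lit 17) .nil)))) (.g (nat_lit 0) (.e (nat_lit 84674) (nat_lit 0) .nil) .nil))) 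
(.lf (nat_lit 470698) (.g (nat_lit 2985) (.e (nat_lit 7936) (nat_lit 210) (.e (nat_lit 639020) (nat_lit 16) (.e (nat_lit 65571) (nat_lit 3) (.e (nat_lit 98372) (nat_lit 29) (.e (nat_lit 458496) (nat_lit 3) .nil))))) (.g (nat_lit 0) (.e (nat_lit 86274) (nat_lit 0) .nil) .nil)))) (.nd (nat_lit 9) 
(.lf (nat_lit 470442) (.g (nat_lit 2527) (.e (nat_lit 3309) (nat_lit 202) (.e (nat_lit 573485) (nat_lit 13) (.e (nat_lit 65628) (nat_lit 14) (.e (nat_lit 401428) (nat_lit 3) (.e (nat_lit 204867) (nat_lit 28) (.e (nat_lit 360192) (nat_lit 0) .nil)))))) (.g (nat_lit 1) (.e (nat_lit 85485) (nat_lit 0) .nil) .nil))) 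
(.lf (nat_lit 470954) (.g (nat_lit 1604) (.e (nat_lit 3397) (nat_lit 211) (.e (nat_lit 647185) (nat_lit 6) (.e (nat_lit 188439) (nat_lit 20) (.e (nat_lit 3406) (nat_lit 212) (.e (nat_lit 655380) (nat_lit 6) (.e (nat_lit 188427) (nat_lit 20) .nil)))))) (.g (nat_lit 1) (.e (nat_lit 86595) (nat_lit 0) .nil) .nil)))))) (.nd (nat_lit 7) (.nd (nat_lit 8) (.nd (nat_lit 9) 
(.lf (nat_lit 470122) (.g (nat_lit 3527) (.e (nat_lit 3308) (nat_lit 202) (.e (nat_lit 573482) (nat_lit 13) (.e (nat_lit 65619) (nat_lit 10) (.e (nat_lit 344117) (nat_lit 21) (.e (nat_lit 516184) (nat_lit 16) (.e (nat_lit 491548) (nat_lit 9) (.e (nat_lit 336306) (nat_lit 15) .nil))))))) (.g (nat_lit 1) (.e (nat_lit 84422) (nat_lit 0) .nil) .nil))) 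
(.lf (nat_lit 470634) (.g (nat_lit 1976) (.e (nat_lit 3339) (nat_lit 205) (.e (nat_lit 598065) (nat_lit 20) (.e (nat_lit 237590) (nat_lit 2) (.e (nat_lit 196672) (nat_lit 15) (.e (nat_lit 81954) (nat_lit 23) (.e (nat_lit 98325) (nat_lit 17) .nil)))))) (.g (nat_lit 1) (.e (nat_lit 85946) (nat_lit 0) .nil) .nil)))) (.nd (nat_lit 9) 
(.lf (nat_lit 470378) (.g (nat_lit 3890) (.e (nat_lit 3309) (nat_lit 202) (.e (nat_lit 573484) (nat_lit 13) (.e (nat_lit 65610) (nat_lit 10) (.e (nat_lit 344129) (nat_lit 26) (.e (nat_lit 557087) (nat_lit 11) (.e (nat_lit 24624) (nat_lit 9) (.e (nat_lit 336240) (nat_lit 15) .nil))))))) (.g (nat_lit 1) (.e (nat_lit 85262) (nat_lit 0) .nil) .nil))) 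
(.lf (nat_lit 470890) (.g (nat_lit 2385) (.e (nat_lit 3397) (nat_lit 211) (.e (nat_lit 647183) (nat_lit 4) (.e (nat_lit 172119) (nat_lit 12) (.e (nat_lit 475199) (nat_lit 40) (.e (nat_lit 704598) (nat_lit 6) (.e (nat_lit 188431) (nat_lit 20) .nil)))))) (.g (nat_lit 1) (.e (nat_lit 86522) (nat_lit 0) .nil) .nil))))) (.nd (nat_lit 8) (.nd (nat_lit 9) 
(.lf (nat_lit 470250) (.g (nat_lit 3595) (.e (nat_lit 3308) (nat_lit 202) (.e (nat_lit 573493) (nat_lit 15) (.e (nat_lit 81953) (nat_lit 22) (.e (nat_lit 90141) (nat_lit 9) .nil)))) (.g (nat_lit 0) (.e (nat_lit 84849) (nat_lit 0) .nil) .nil))) 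
(.lf (nat_lit 470762) (.g (nat_lit 5503) (.e (nat_lit 3397) (nat_lit 211) (.e (nat_lit 647181) (nat_lit 3) (.e (nat_lit 163977) (nat_lit 30) (.e (nat_lit 573493) (nat_lit 15) (.e (nat_lit 81956) (nat_lit 23) (.e (nat_lit 98360) (nat_lit 26) (.e (nat_lit 426025) (nat_lit 0) .nil))))))) (.g (nat_lit 1) (.e (nat_lit 86372) (nat_lit 0) .nil) .nil)))) (.nd (nat_lit 9) 
(.lf (nat_lit 470506) (.g (nat_lit 2042) (.e (nat_lit 3276) (nat_lit 200) (.e (nat_lit 557105) (nat_lit 14) (.e (nat_lit 180251) (nat_lit 10) (.e (nat_lit 573485) (nat_lit 13) (.e (nat_lit 65568) (nat_lit 2) (.e (nat_lit 98048) (nat_lit 2) (.e (nat_lit 16386) (nat_lit 0) .nil))))))) (.g (nat_lit 1) (.e (nat_lit 85771) (nat_lit 0) .nil) .nil))) 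
(.lf (nat_lit 471018) (.g (nat_lit 3626) (.e (nat_lit 3399) (nat_lit 211) (.e (nat_lit 647181) (nat_lit 3) (.e (nat_lit 163977) (nat_lit 30) (.e (nat_lit 573491) (nat_lit 15) (.e (nat_lit 81951) (nat_lit 22) (.e (nat_lit 90170) (nat_lit 13) (.e (nat_lit 172039) (nat_lit 0) .nil))))))) (.g (nat_lit 1) (.e (nat_lit 86703) (nat_lit 0) .nil) .nil)))))))) 
(.nd (nat_lit 5) (.nd (nat_lit 6) (.nd (nat_lit 7) (.nd (nat_lit 8) (.nd (nat_lit 9) 
(.lf (nat_lit 470042) (.g (nat_lit 1429) (.e (nat_lit 3308) (nat_lit 202) (.e (nat_lit 573480) (nat_lit 13) (.e (nat_lit 65630) (nat_lit 14) (.e (nat_lit 401428) (nat_lit 3) (.e (nat_lit 204876) (nat_lit 31) (.e (nat_lit 384768) (nat_lit 0) .nil)))))) (.g (nat_lit 1) (.e (nat_lit 84336) (nat_lit 0) .nil) .nil))) 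
(.lf (nat_lit 470554) (.g (nat_lit 3087) (.e (nat_lit 3280) (nat_lit 200) (.e (nat_lit 557104) (nat_lit 14) (.e (nat_lit 180252) (nat_lit 10) (.e (nat_lit 573482) (nat_lit 13) (.e (nat_lit 65568) (nat_lit 2) .nil))))) (.g (nat_lit 0) (.e (nat_lit 85823) (nat_lit 0) .nil) .nil)))) (.nd (nat_lit 9) 
(.lf (nat_lit 470298) (.g (nat_lit 4496) (.e (nat_lit 3308) (nat_lit 202) (.e (nat_lit 573493) (nat_lit 15) (.e (nat_lit 81956) (nat_lit 23) (.e (nat_lit 98324) (nat_lit 17) .nil)))) (.g (nat_lit 0) (.e (nat_lit 84946) (nat_lit 0) .nil) .nil))) 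
(.lf (nat_lit 470810) (.g (nat_lit 5868) (.e (nat_lit 3397) (nat_lit 211) (.e (nat_lit 647181) (nat_lit 3) (.e (nat_lit 163979) (nat_lit 30) (.e (nat_lit 573492) (nat_lit 15) (.e (nat_lit 81956) (nat_lit 23) (.e (nat_lit 98362) (nat_lit 26) (.e (nat_lit 426025) (nat_lit 0) .nil))))))) (.g (nat_lit 1) (.e (nat_lit 86422) (nat_lit 0) .nil) .nil))))) (.nd (nat_lit 8) (.nd (nat_lit 9) 
(.lf (nat_lit 470170) (.g (nat_lit 2398) (.e (nat_lit 3308) (nat_lit 202) (.e (nat_lit 573484) (nat_lit 13) (.e (nat_lit 65610) (nat_lit 10) (.e (nat_lit 344117) (nat_lit 21) .nil)))) (.g (nat_lit 0) (.e (nat_lit 84477) (nat_lit 0) .nil) .nil))) 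
(.lf (nat_lit 470682) (.g (nat_lit 1801) (.e (nat_lit 3390) (nat_lit 210) (.e (nat_lit 639021) (nat_lit 16) (.e (nat_lit 65619) (nat_lit 10) (.e (nat_lit 344160) (nat_lit 37) (.e (nat_lit 647195) (nat_lit 9) (.e (nat_lit 7936) (nat_lit 34) (.e (nat_lit 442403) (nat_lit 20) .nil))))))) (.g (nat_lit 1) (.e (nat_lit 86143) (nat_lit 0) .nil) .nil)))) (.nd (nat_lit 9) 
(.lf (nat_lit 470426) (.g (nat_lit 3008) (.e (nat_lit 3309) (nat_lit 202) (.e (nat_lit 573485) (nat_lit 13) (.e (nat_lit 65619) (nat_lit 10) (.e (nat_lit 344129) (nat_lit 26) (.e (nat_lit 557087) (nat_lit 11) (.e (nat_lit 24624) (nat_lit 9) (.e (nat_lit 336258) (nat_lit 15) .nil))))))) (.g (nat_lit 1) (.e (nat_lit 85468) (nat_lit 0) .nil) .nil))) 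
(.lf (nat_lit 470938) (.g (nat_lit 2231) (.e (nat_lit 3397) (nat_lit 211) (.e (nat_lit 647183) (nat_lit 4) (.e (nat_lit 172126) (nat_lit 14) (.e (nat_lit 491570) (nat_lit 13) (.e (nat_lit 393266) (nat_lit 23) (.e (nat_lit 426025) (nat_lit 0) .nil)))))) (.g (nat_lit 1) (.e (nat_lit 86570) (nat_lit 0) .nil) .nil)))))) (.nd (nat_lit 7) (.nd (nat_lit 8) (.nd (nat_lit 9) 
(.lf (nat_lit 470106) (.g (nat_lit 4408) (.e (nat_lit 3308) (nat_lit 202) (.e (nat_lit 573482) (nat_lit 13) (.e (nat_lit 65619) (nat_lit 10) (.e (nat_lit 344117) (nat_lit 21) (.e (nat_lit 516106) (nat_lit 0) (.e (nat_lit 6986) (nat_lit 377) (.e (nat_lit 2781) (nat_lit 178) (.e (nat_lit 294656) (nat_lit 15) .nil)))))))) (.g (nat_lit 1) (.e (nat_lit 84406) (nat_lit 0) .nil) .nil))) 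
(.lf (nat_lit 470618) (.g (nat_lit 1490) (.e (nat_lit 3289) (nat_lit 201) (.e (nat_lit 565269) (nat_lit 6) (.e (nat_lit 81942) (nat_lit 20) (.e (nat_lit 2391) (nat_lit 156) (.e (nat_lit 819221) (nat_lit 6) (.e (nat_lit 188439) (nat_lit 20) .nil)))))) (.g (nat_lit 1) (.e (nat_lit 85919) (nat_lit 0) .nil) .nil)))) (.nd (nat_lit 9) 
(.lf (nat_lit 470362) (.g (nat_lit 2270) (.e (nat_lit 3309) (nat_lit 202) (.e (nat_lit 573484) (nat_lit 13) (.e (nat_lit 65610) (nat_lit 10) (.e (nat_lit 344117) (nat_lit 21) (.e (nat_lit 516184) (nat_lit 16) (.e (nat_lit 491547) (nat_lit 9) (.e (nat_lit 336240) (nat_lit 15) .nil))))))) (.g (nat_lit 1) (.e (nat_lit 85188) (nat_lit 0) .nil) .nil))) 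
(.lf (nat_lit 470874) (.g (nat_lit 3002) (.e (nat_lit 3397) (nat_lit 211) (.e (nat_lit 647183) (nat_lit 4) (.e (nat_lit 172115) (nat_lit 10) (.e (nat_lit 434271) (nat_lit 38) (.e (nat_lit 655378) (nat_lit 4) (.e (nat_lit 172094) (nat_lit 9) (.e (nat_lit 426025) (nat_lit 0) .nil))))))) (.g (nat_lit 1) (.e (nat_lit 86506) (nat_lit 0) .nil) .nil))))) (.nd (nat_lit 8) (.nd (nat_lit 9) 
(.lf (nat_lit 470234) (.g (nat_lit 2925) (.e (nat_lit 3308) (nat_lit 202) (.e (nat_lit 573493) (nat_lit 15) (.e (nat_lit 81951) (nat_lit 22) (.e (nat_lit 90134) (nat_lit 9) (.e (nat_lit 3096) (nat_lit 192) .nil))))) (.g (nat_lit 0) (.e (nat_lit 84827) (nat_lit 0) .nil) .nil))) 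
(.lf (nat_lit 470746) (.g (nat_lit 4630) (.e (nat_lit 3397) (nat_lit 211) (.e (nat_lit 647181) (nat_lit 3) (.e (nat_lit 163977) (nat_lit 30) (.e (nat_lit 573485) (nat_lit 13) (.e (nat_lit 65619) (nat_lit 10) (.e (nat_lit 344117) (nat_lit 21) (.e (nat_lit 516151) (nat_lit 9) (.e (nat_lit 426003) (nat_lit 0) .nil)))))))) (.g (nat_lit 1) (.e (nat_lit 86356) (nat_lit 0) .nil) .nil)))) 
(.nd (nat_lit 9) 
(.lf (nat_lit 470490) (.g (nat_lit 1436) (.e (nat_lit 7936) (nat_lit 202) (.e (nat_lit 573485) (nat_lit 13) (.e (nat_lit 65628) (nat_lit 14) (.e (nat_lit 401428) (nat_lit 3) (.e (nat_lit 204877) (nat_lit 31) .nil))))) (.g (nat_lit 0) (.e (nat_lit 85707) (nat_lit 0) .nil) .nil))) 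
(.lf (nat_lit 471002) (.g (nat_lit 5123) (.e (nat_lit 3399) (nat_lit 211) (.e (nat_lit 647181) (nat_lit 3) (.e (nat_lit 163977) (nat_lit 30) (.e (nat_lit 573482) (nat_lit 13) (.e (nat_lit 65619) (nat_lit 10) (.e (nat_lit 344117) (nat_lit 21) (.e (nat_lit 516151) (nat_lit 9) (.e (nat_lit 426022) (nat_lit 0) .nil)))))))) (.g (nat_lit 1) (.e (nat_lit 86686) (nat_lit 0) .nil) .nil))))))) 
(.nd (nat_lit 6) (.nd (nat_lit 7) (.nd (nat_lit 8) (.nd (nat_lit 9) 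
(.lf (nat_lit 470074) (.g (nat_lit 3478) (.e (nat_lit 3308) (nat_lit 202) (.e (nat_lit 573482) (nat_lit 13) (.e (nat_lit 65604) (nat_lit 9) (.e (nat_lit 336028) (nat_lit 3) (.e (nat_lit 98325) (nat_lit 17) (.e (nat_lit 7112) (nat_lit 381) (.e (nat_lit 229646) (nat_lit 232) (.e (nat_lit 78) (nat_lit 0) .nil)))))))) (.g (nat_lit 1) (.e (nat_lit 84369) (nat_lit 0) .nil) .nil))) 
(.lf (nat_lit 470586) (.g (nat_lit 1096) (.e (nat_lit 3288) (nat_lit 201) (.e (nat_lit 565269) (nat_lit 6) (.e (nat_lit 81942) (nat_lit 20) (.e (nat_lit 2391) (nat_lit 156) (.e (nat_lit 819221) (nat_lit 6) .nil))))) (.g (nat_lit 0) (.e (nat_lit 85878) (nat_lit 0) .nil) .nil)))) (.nd (nat_lit 9) 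
(.lf (nat_lit 470330) (.g (nat_lit 5019) (.e (nat_lit 3308) (nat_lit 202) (.e (nat_lit 573493) (nat_lit 15) (.e (nat_lit 81956) (nat_lit 23) (.e (nat_lit 98385) (nat_lit 32) (.e (nat_lit 475209) (nat_lit 41) (.e (nat_lit 712716) (nat_lit 15) .nil)))))) (.g (nat_lit 1) (.e (nat_lit 85068) (nat_lit 0) .nil) .nil))) 
(.lf (nat_lit 470842) (.g (nat_lit 3216) (.e (nat_lit 3397) (nat_lit 211) (.e (nat_lit 647183) (nat_lit 4) (.e (nat_lit 172094) (nat_lit 9) (.e (nat_lit 426109) (nat_lit 1) (.e (nat_lit 164347) (nat_lit 240) (.e (nat_lit 2650) (nat_lit 166) (.e (nat_lit 188427) (nat_lit 20) .nil))))))) (.g (nat_lit 1) (.e (nat_lit 86470) (nat_lit 0) .nil) .nil))))) (.nd (nat_lit 8) (.nd (nat_lit 9) 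
(.lf (nat_lit 470202) (.g (nat_lit 1297) (.e (nat_lit 3308) (nat_lit 202) (.e (nat_lit 573491) (nat_lit 15) (.e (nat_lit 81956) (nat_lit 23) (.e (nat_lit 98387) (nat_lit 33) .nil)))) (.g (nat_lit 0) (.e (nat_lit 84709) (nat_lit 0) .nil) .nil))) 
(.lf (nat_lit 470714) (.g (nat_lit 3930) (.e (nat_lit 3397) (nat_lit 211) (.e (nat_lit 647180) (nat_lit 3) (.e (nat_lit 163978) (nat_lit 30) (.e (nat_lit 573485) (nat_lit 13) (.e (nat_lit 65604) (nat_lit 9) (.e (nat_lit 336013) (nat_lit 2) (.e (nat_lit 90170) (nat_lit 13) (.e (nat_lit 172035) (nat_lit 0) .nil)))))))) (.g (nat_lit 1) (.e (nat_lit 86322) (nat_lit 0) .nil) .nil)))) (.nd (nat_lit 9) 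
(.lf (nat_lit 470458) (.g (nat_lit 1740) (.e (nat_lit 3309) (nat_lit 202) (.e (nat_lit 573489) (nat_lit 14) (.e (nat_lit 73755) (nat_lit 8) (.e (nat_lit 557096) (nat_lit 13) .nil)))) (.g (nat_lit 0) (.e (nat_lit 85526) (nat_lit 0) .nil) .nil))) 
(.lf (nat_lit 470970) (.g (nat_lit 1966) (.e (nat_lit 3397) (nat_lit 211) (.e (nat_lit 647185) (nat_lit 6) (.e (nat_lit 188446) (nat_lit 21) (.e (nat_lit 164348) (nat_lit 240) (.e (nat_lit 2619) (nat_lit 164) (.e (nat_lit 172097) (nat_lit 9) (.e (nat_lit 426025) (nat_lit 0) .nil))))))) (.g (nat_lit 1) (.e (nat_lit 86613) (nat_lit 0) .nil) .nil)))))) 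
(.nd (nat_lit 7) (.nd (nat_lit 8) (.nd (nat_lit 9) 
(.lf (nat_lit 470138) (.g (nat_lit 3496) (.e (nat_lit 3308) (nat_lit 202) (.e (nat_lit 573482) (nat_lit 13) (.e (nat_lit 65619) (nat_lit 10) (.e (nat_lit 344129) (nat_lit 26) (.e (nat_lit 557087) (nat_lit 11) (.e (nat_lit 24584) (nat_lit 0) (.e (nat_lit 6490) (nat_lit 343) (.e (nat_lit 75) (nat_lit 0) .nil)))))))) (.g (nat_lit 1) (.e (nat_lit 84439) (nat_lit 0) .nil) .nil))) 
(.lf (nat_lit 470650) (.g (nat_lit 1531) (.e (nat_lit 3381) (nat_lit 209) (.e (nat_lit 630804) (nat_lit 10) (.e (nat_lit 188421) (nat_lit 11) (.e (nat_lit 336203) (nat_lit 12) (.e (nat_lit 385110) (nat_lit 52) (.e (nat_lit 802832) (nat_lit 20) .nil)))))) (.g (nat_lit 1) (.e (nat_lit 85974) (nat_lit 0) .nil) .nil)))) (.nd (nat_lit 9) 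
(.lf (nat_lit 470394) (.g (nat_lit 1088) (.e (nat_lit 3309) (nat_lit 202) (.e (nat_lit 573484) (nat_lit 13) (.e (nat_lit 65617) (nat_lit 10) (.e (nat_lit 344130) (nat_lit 26) .nil)))) (.g (nat_lit 0) (.e (nat_lit 85300) (nat_lit 0) .nil) .nil))) 
(.lf (nat_lit 470906) (.g (nat_lit 1866) (.e (nat_lit 3397) (nat_lit 211) (.e (nat_lit 647183) (nat_lit 4) (.e (nat_lit 172124) (nat_lit 14) (.e (nat_lit 491550) (nat_lit 9) (.e (nat_lit 336395) (nat_lit 27) .nil))))) (.g (nat_lit 0) (.e (nat_lit 86538) (nat_lit 0) .nil) .nil))))) (.nd (nat_lit 8) (.nd (nat_lit 9) 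
(.lf (nat_lit 470266) (.g (nat_lit 2366) (.e (nat_lit 3308) (nat_lit 202) (.e (nat_lit 573493) (nat_lit 15) (.e (nat_lit 81954) (nat_lit 23) (.e (nat_lit 98318) (nat_lit 17) .nil)))) (.g (nat_lit 0) (.e (nat_lit 84894) (nat_lit 0) .nil) .nil))) 
(.lf (nat_lit 470778) (.g (nat_lit 4642) (.e (nat_lit 3397) (nat_lit 211) (.e (nat_lit 647181) (nat_lit 3) (.e (nat_lit 163978) (nat_lit 30) (.e (nat_lit 573484) (nat_lit 13) (.e (nat_lit 65610) (nat_lit 10) (.e (nat_lit 344117) (nat_lit 21) (.e (nat_lit 516151) (nat_lit 9) (.e (nat_lit 426023) (nat_lit 0) .nil)))))))) (.g (nat_lit 1) (.e (nat_lit 86388) (nat_lit 0) .nil) .nil)))) 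
(.nd (nat_lit 9) 
(.lf (nat_lit 470522) (.g (nat_lit 2938) (.e (nat_lit 3277) (nat_lit 200) (.e (nat_lit 557104) (nat_lit 14) (.e (nat_lit 180252) (nat_lit 10) (.e (nat_lit 573482) (nat_lit 13) (.e (nat_lit 65644) (nat_lit 22) .nil))))) (.g (nat_lit 0) (.e (nat_lit 85787) (nat_lit 0) .nil) .nil))) 
(.lf (nat_lit 471034) (.g (nat_lit 2793) (.e (nat_lit 3399) (nat_lit 211) (.e (nat_lit 647181) (nat_lit 3) (.e (nat_lit 163978) (nat_lit 30) (.e (nat_lit 573479) (nat_lit 13) (.e (nat_lit 65604) (nat_lit 9) .nil))))) (.g (nat_lit 0) (.e (nat_lit 86719) (nat_lit 0) .nil) .nil)))))))))) 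
(.nd (nat_lit 3) (.nd (nat_lit 4) (.nd (nat_lit 5) (.nd (nat_lit 6) (.nd (nat_lit 7) 
(.nd (nat_lit 8) (.nd (nat_lit 9) 
(.lf (nat_lit 470022) (.g (nat_lit 2432) (.e (nat_lit 3308) (nat_lit 202) (.e (nat_lit 573475) (nat_lit 12) (.e (nat_lit 57574) (nat_lit 55) (.e (nat_lit 778465) (nat_lit 11) (.e (nat_lit 24604) (nat_lit 2) (.e (nat_lit 90176) (nat_lit 15) (.e (nat_lit 188424) (nat_lit 20) .nil))))))) (.g (nat_lit 1) (.e (nat_lit 84310) (nat_lit 0) .nil) .nil))) 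
(.lf (nat_lit 470534) (.g (nat_lit 3110) (.e (nat_lit 3278) (nat_lit 200) (.e (nat_lit 557104) (nat_lit 14) (.e (nat_lit 180252) (nat_lit 10) (.e (nat_lit 573482) (nat_lit 13) (.e (nat_lit 65568) (nat_lit 2) .nil))))) (.g (nat_lit 0) (.e (nat_lit 85800) (nat_lit 0) .nil) .nil)))) (.nd (nat_lit 9) 
(.lf (nat_lit 470278) (.g (nat_lit 4026) (.e (nat_lit 3308) (nat_lit 202) (.e (nat_lit 573493) (nat_lit 15) (.e (nat_lit 81954) (nat_lit 23) (.e (nat_lit 98384) (nat_lit 32) (.e (nat_lit 475210) (nat_lit 41) .nil))))) (.g (nat_lit 0) (.e (nat_lit 84923) (nat_lit 0) .nil) .nil))) 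
(.lf (nat_lit 470790) (.g (nat_lit 4589) (.e (nat_lit 3397) (nat_lit 211) (.e (nat_lit 647181) (nat_lit 3) (.e (nat_lit 163979) (nat_lit 30) (.e (nat_lit 573482) (nat_lit 13) (.e (nat_lit 65604) (nat_lit 9) (.e (nat_lit 336013) (nat_lit 2) (.e (nat_lit 90170) (nat_lit 13) (.e (nat_lit 172032) (nat_lit 0) .nil)))))))) (.g (nat_lit 1) (.e (nat_lit 86401) (nat_lit 0) .nil) .nil))))) 
(.nd (nat_lit 8) (.nd (nat_lit 9) 
(.lf (nat_lit 470150) (.g (nat_lit 3139) (.e (nat_lit 3308) (nat_lit 202) (.e (nat_lit 573482) (nat_lit 13) (.e (nat_lit 65628) (nat_lit 14) (.e (nat_lit 401425) (nat_lit 2) (.e (nat_lit 196681) (nat_lit 17) (.e (nat_lit 131107) (nat_lit 9) (.e (nat_lit 336306) (nat_lit 15) .nil))))))) (.g (nat_lit 1) (.e (nat_lit 84451) (nat_lit 0) .nil) .nil))) 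
(.lf (nat_lit 470662) (.g (nat_lit 2659) (.e (nat_lit 3388) (nat_lit 210) (.e (nat_lit 639020) (nat_lit 16) (.e (nat_lit 65571) (nat_lit 3) (.e (nat_lit 98374) (nat_lit 29) (.e (nat_lit 450575) (nat_lit 1) .nil))))) (.g (nat_lit 0) (.e (nat_lit 85989) (nat_lit 0) .nil) .nil)))) (.nd (nat_lit 9) 
(.lf (nat_lit 470406) (.g (nat_lit 1821) (.e (nat_lit 3309) (nat_lit 202) (.e (nat_lit 573485) (nat_lit 13) (.e (nat_lit 65604) (nat_lit 9) (.e (nat_lit 336013) (nat_lit 2) (.e (nat_lit 90170) (nat_lit 13) (.e (nat_lit 172070) (nat_lit 4) (.e (nat_lit 229680) (nat_lit 244) (.e (nat_lit 163845) (nat_lit 0) .nil)))))))) (.g (nat_lit 1) (.e (nat_lit 85420) (nat_lit 0) .nil) .nil))) 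
(.lf (nat_lit 470918) (.g (nat_lit 2734) (.e (nat_lit 3397) (nat_lit 211) (.e (nat_lit 647183) (nat_lit 4) (.e (nat_lit 172124) (nat_lit 14) (.e (nat_lit 491571) (nat_lit 13) (.e (nat_lit 393274) (nat_lit 23) (.e (nat_lit 426023) (nat_lit 0) .nil)))))) (.g (nat_lit 1) (.e (nat_lit 86550) (nat_lit 0) .nil) .nil)))))) (.nd (nat_lit 7) (.nd (nat_lit 8) (.nd (nat_lit 9) 
(.lf (nat_lit 470086) (.g (nat_lit 2232) (.e (nat_lit 3308) (nat_lit 202) (.e (nat_lit 573482) (nat_lit 13) (.e (nat_lit 65619) (nat_lit 10) (.e (nat_lit 344115) (nat_lit 20) (.e (nat_lit 507907) (nat_lit 0) (.e (nat_lit 5405) (nat_lit 302) (.e (nat_lit 73472) (nat_lit 15) .nil))))))) (.g (nat_lit 1) (.e (nat_lit 84384) (nat_lit 0) .nil) .nil))) 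
(.lf (nat_lit 470598) (.g (nat_lit 1387) (.e (nat_lit 3289) (nat_lit 201) (.e (nat_lit 565267) (nat_lit 4) (.e (nat_lit 65616) (nat_lit 10) (.e (nat_lit 344183) (nat_lit 49) (.e (nat_lit 819221) (nat_lit 6) (.e (nat_lit 188434) (nat_lit 20) .nil)))))) (.g (nat_lit 1) (.e (nat_lit 85898) (nat_lit 0) .nil) .nil)))) (.nd (nat_lit 9) 
(.lf (nat_lit 470342) (.g (nat_lit 3774) (.e (nat_lit 3308) (nat_lit 202) (.e (nat_lit 573493) (nat_lit 15) (.e (nat_lit 81956) (nat_lit 23) (.e (nat_lit 98389) (nat_lit 33) (.e (nat_lit 491546) (nat_lit 9) (.e (nat_lit 336306) (nat_lit 15) .nil)))))) (.g (nat_lit 1) (.e (nat_lit 85080) (nat_lit 0) .nil) .nil))) 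
(.lf (nat_lit 470854) (.g (nat_lit 1991) (.e (nat_lit 3397) (nat_lit 211) (.e (nat_lit 647183) (nat_lit 4) (.e (nat_lit 172106) (nat_lit 10) (.e (nat_lit 434271) (nat_lit 38) (.e (nat_lit 655380) (nat_lit 6) (.e (nat_lit 188430) (nat_lit 20) .nil)))))) (.g (nat_lit 1) (.e (nat_lit 86483) (nat_lit 0) .nil) .nil))))) (.nd (nat_lit 8) (.nd (nat_lit 9) 
(.lf (nat_lit 470214) (.g (nat_lit 2747) (.e (nat_lit 3308) (nat_lit 202) (.e (nat_lit 573492) (nat_lit 15) (.e (nat_lit 81956) (nat_lit 23) (.e (nat_lit 98320) (nat_lit 17) (.e (nat_lit 7587) (nat_lit 406) (.e (nat_lit 73472) (nat_lit 15) .nil)))))) (.g (nat_lit 1) (.e (nat_lit 84722) (nat_lit 0) .nil) .nil))) 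
(.lf (nat_lit 470726) (.g (nat_lit 4777) (.e (nat_lit 3397) (nat_lit 211) (.e (nat_lit 647181) (nat_lit 3) (.e (nat_lit 163977) (nat_lit 30) (.e (nat_lit 573482) (nat_lit 13) (.e (nat_lit 65604) (nat_lit 9) (.e (nat_lit 336028) (nat_lit 3) (.e (nat_lit 98359) (nat_lit 26) (.e (nat_lit 426025) (nat_lit 0) .nil)))))))) (.g (nat_lit 1) (.e (nat_lit 86336) (nat_lit 0) .nil) .nil)))) (.nd (nat_lit 9) 
(.lf (nat_lit 470470) (.g (nat_lit 3180) (.e (nat_lit 3309) (nat_lit 202) (.e (nat_lit 573493) (nat_lit 15) (.e (nat_lit 81956) (nat_lit 23) (.e (nat_lit 98350) (nat_lit 24) .nil)))) (.g (nat_lit 0) (.e (nat_lit 85602) (nat_lit 0) .nil) .nil))) 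
(.lf (nat_lit 470982) (.g (nat_lit 2397) (.e (nat_lit 3399) (nat_lit 211) (.e (nat_lit 647180) (nat_lit 3) (.e (nat_lit 163978) (nat_lit 30) (.e (nat_lit 573479) (nat_lit 13) (.e (nat_lit 65619) (nat_lit 10) (.e (nat_lit 344117) (nat_lit 21) (.e (nat_lit 516151) (nat_lit 9) (.e (nat_lit 426023) (nat_lit 0) .nil)))))))) (.g (nat_lit 1) (.e (nat_lit 86664) (nat_lit 0) .nil) .nil))))))) 
(.nd (nat_lit 6) (.nd (nat_lit 7) (.nd (nat_lit 8) (.nd (nat_lit 9) 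
(.lf (nat_lit 470054) (.g (nat_lit 2911) (.e (nat_lit 3308) (nat_lit 202) (.e (nat_lit 573482) (nat_lit 13) (.e (nat_lit 65604) (nat_lit 9) (.e (nat_lit 336013) (nat_lit 2) (.e (nat_lit 90165) (nat_lit 12) (.e (nat_lit 164214) (nat_lit 176) (.e (nat_lit 2788) (nat_lit 179) (.e (nat_lit 294966) (nat_lit 15) .nil)))))))) (.g (nat_lit 1) (.e (nat_lit 84349) (nat_lit 0) .nil) .nil))) 
(.lf (nat_lit 470566) (.g (nat_lit 568) (.e (nat_lit 7936) (nat_lit 200) (.e (nat_lit 557103) (nat_lit 14) (.e (nat_lit 188160) (nat_lit 32) .nil))) (.g (nat_lit 0) (.e (nat_lit 85856) (nat_lit 0) .nil) .nil)))) (.nd (nat_lit 9) 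
(.lf (nat_lit 470310) (.g (nat_lit 2793) (.e (nat_lit 3308) (nat_lit 202) (.e (nat_lit 573493) (nat_lit 15) (.e (nat_lit 81956) (nat_lit 23) (.e (nat_lit 106240) (nat_lit 17) .nil)))) (.g (nat_lit 0) (.e (nat_lit 84975) (nat_lit 0) .nil) .nil))) 
(.lf (nat_lit 470822) (.g (nat_lit 1091) (.e (nat_lit 3397) (nat_lit 211) (.e (nat_lit 647183) (nat_lit 4) (.e (nat_lit 172038) (nat_lit 0) (.e (nat_lit 7107) (nat_lit 380) (.e (nat_lit 164339) (nat_lit 232) .nil))))) (.g (nat_lit 0) (.e (nat_lit 86450) (nat_lit 0) .nil) .nil))))) (.nd (nat_lit 8) (.nd (nat_lit 9) 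
(.lf (nat_lit 470182) (.g (nat_lit 1197) (.e (nat_lit 3308) (nat_lit 202) (.e (nat_lit 573491) (nat_lit 15) (.e (nat_lit 81951) (nat_lit 22) (.e (nat_lit 90165) (nat_lit 12) .nil)))) (.g (nat_lit 0) (.e (nat_lit 84661) (nat_lit 0) .nil) .nil))) 
(.lf (nat_lit 470694) (.g (nat_lit 629) (.e (nat_lit 3391) (nat_lit 210) (.e (nat_lit 639023) (nat_lit 18) (.e (nat_lit 81939) (nat_lit 20) (.e (nat_lit 1963) (nat_lit 134) (.e (nat_lit 639001) (nat_lit 10) (.e (nat_lit 188438) (nat_lit 20) .nil)))))) (.g (nat_lit 1) (.e (nat_lit 86252) (nat_lit 0) .nil) .nil)))) (.nd (nat_lit 9) 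
(.lf (nat_lit 470438) (.g (nat_lit 2598) (.e (nat_lit 3309) (nat_lit 202) (.e (nat_lit 573485) (nat_lit 13) (.e (nat_lit 65628) (nat_lit 14) (.e (nat_lit 401428) (nat_lit 3) (.e (nat_lit 204854) (nat_lit 26) (.e (nat_lit 336115) (nat_lit 9) (.e (nat_lit 343808) (nat_lit 15) .nil))))))) (.g (nat_lit 1) (.e (nat_lit 85481) (nat_lit 0) .nil) .nil))) 
(.lf (nat_lit 470950) (.g (nat_lit 1153) (.e (nat_lit 3397) (nat_lit 211) (.e (nat_lit 647185) (nat_lit 6) (.e (nat_lit 188420) (nat_lit 0) (.e (nat_lit 2057) (nat_lit 142) (.e (nat_lit 704598) (nat_lit 6) (.e (nat_lit 188427) (nat_lit 20) .nil)))))) (.g (nat_lit 1) (.e (nat_lit 86590) (nat_lit 0) .nil) .nil)))))) (.nd (nat_lit 7) (.nd (nat_lit 8) (.nd (nat_lit 9) 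
(.lf (nat_lit 470118) (.g (nat_lit 2976) (.e (nat_lit 3308) (nat_lit 202) (.e (nat_lit 573482) (nat_lit 13) (.e (nat_lit 65619) (nat_lit 10) (.e (nat_lit 344117) (nat_lit 21) (.e (nat_lit 516180) (nat_lit 15) (.e (nat_lit 475209) (nat_lit 41) (.e (nat_lit 712716) (nat_lit 15) .nil))))))) (.g (nat_lit 1) (.e (nat_lit 84418) (nat_lit 0) .nil) .nil))) 
(.lf (nat_lit 470630) (.g (nat_lit 1986) (.e (nat_lit 3335) (nat_lit 205) (.e (nat_lit 598065) (nat_lit 20) (.e (nat_lit 237590) (nat_lit 2) (.e (nat_lit 196672) (nat_lit 15) (.e (nat_lit 81954) (nat_lit 23) (.e (nat_lit 98321) (nat_lit 17) .nil)))))) (.g (nat_lit 1) (.e (nat_lit 85934) (nat_lit 0) .nil) .nil)))) (.nd (nat_lit 9) 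
(.lf (nat_lit 470374) (.g (nat_lit 3492) (.e (nat_lit 3309) (nat_lit 202) (.e (nat_lit 573484) (nat_lit 13) (.e (nat_lit 65610) (nat_lit 10) (.e (nat_lit 344129) (nat_lit 26) (.e (nat_lit 557085) (nat_lit 11) (.e (nat_lit 24630) (nat_lit 9) (.e (nat_lit 336240) (nat_lit 15) .nil))))))) (.g (nat_lit 1) (.e (nat_lit 85258) (nat_lit 0) .nil) .nil))) 
(.lf (nat_lit 470886) (.g (nat_lit 2813) (.e (nat_lit 3397) (nat_lit 211) (.e (nat_lit 647183) (nat_lit 4) (.e (nat_lit 172118) (nat_lit 12) (.e (nat_lit 475210) (nat_lit 41) (.e (nat_lit 712750) (nat_lit 29) (.e (nat_lit 442399) (nat_lit 20) .nil)))))) (.g (nat_lit 1) (.e (nat_lit 86518) (nat_lit 0) .nil) .nil))))) (.nd (nat_lit 8) (.nd (nat_lit 9) 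
(.lf (nat_lit 470246) (.g (nat_lit 2588) (.e (nat_lit 3308) (nat_lit 202) (.e (nat_lit 573493) (nat_lit 15) (.e (nat_lit 81953) (nat_lit 22) (.e (nat_lit 90134) (nat_lit 9) (.e (nat_lit 3096) (nat_lit 192) (.e (nat_lit 491549) (nat_lit 9) (.e (nat_lit 336306) (nat_lit 15) .nil))))))) (.g (nat_lit 1) (.e (nat_lit 84845) (nat_lit 0) .nil) .nil))) 
(.lf (nat_lit 470758) (.g (nat_lit 4526) (.e (nat_lit 3397) (nat_lit 211) (.e (nat_lit 647181) (nat_lit 3) (.e (nat_lit 163977) (nat_lit 30) (.e (nat_lit 573493) (nat_lit 15) (.e (nat_lit 81953) (nat_lit 22) (.e (nat_lit 90170) (nat_lit 13) (.e (nat_lit 172032) (nat_lit 0) .nil))))))) (.g (nat_lit 1) (.e (nat_lit 86368) (nat_lit 0) .nil) .nil)))) (.nd (nat_lit 9) 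
(.lf (nat_lit 470502) (.g (nat_lit 2290) (.e (nat_lit 3276) (nat_lit 200) (.e (nat_lit 557105) (nat_lit 14) (.e (nat_lit 180251) (nat_lit 10) (.e (nat_lit 573484) (nat_lit 13) (.e (nat_lit 65568) (nat_lit 2) .nil))))) (.g (nat_lit 0) (.e (nat_lit 85767) (nat_lit 0) .nil) .nil))) 
(.lf (nat_lit 471014) (.g (nat_lit 5035) (.e (nat_lit 3399) (nat_lit 211) (.e (nat_lit 647181) (nat_lit 3) (.e (nat_lit 163977) (nat_lit 30) (.e (nat_lit 573485) (nat_lit 13) (.e (nat_lit 65619) (nat_lit 10) (.e (nat_lit 344117) (nat_lit 21) (.e (nat_lit 516151) (nat_lit 9) (.e (nat_lit 426022) (nat_lit 0) .nil)))))))) (.g (nat_lit 1) (.e (nat_lit 86698) (nat_lit 0) .nil) .nil)))))))) 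
(.nd (nat_lit 5) (.nd (nat_lit 6) (.nd (nat_lit 7) (.nd (nat_lit 8) (.nd (nat_lit 9) 
(.lf (nat_lit 470038) (.g (nat_lit 2007) (.e (nat_lit 3308) (nat_lit 202) (.e (nat_lit 573478) (nat_lit 12) (.e (nat_lit 57574) (nat_lit 55) (.e (nat_lit 778466) (nat_lit 11) (.e (nat_lit 24604) (nat_lit 2) (.e (nat_lit 90176) (nat_lit 15) (.e (nat_lit 188439) (nat_lit 20) .nil))))))) (.g (nat_lit 1) (.e (nat_lit 84330) (nat_lit 0) .nil) .nil))) 
(.lf (nat_lit 470550) (.g (nat_lit 3344) (.e (nat_lit 3280) (nat_lit 200) (.e (nat_lit 557103) (nat_lit 14) (.e (nat_lit 180250) (nat_lit 10) (.e (nat_lit 573484) (nat_lit 13) (.e (nat_lit 65568) (nat_lit 2) (.e (nat_lit 98048) (nat_lit 2) (.e (nat_lit 16388) (nat_lit 0) .nil))))))) (.g (nat_lit 1) (.e (nat_lit 85819) (nat_lit 0) .nil) .nil)))) (.nd (nat_lit 9) 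
(.lf (nat_lit 470294) (.g (nat_lit 4202) (.e (nat_lit 3308) (nat_lit 202) (.e (nat_lit 573493) (nat_lit 15) (.e (nat_lit 81956) (nat_lit 23) (.e (nat_lit 98322) (nat_lit 17) .nil)))) (.g (nat_lit 0) (.e (nat_lit 84941) (nat_lit 0) .nil) .nil))) 
(.lf (nat_lit 470806) (.g (nat_lit 3299) (.e (nat_lit 3397) (nat_lit 211) (.e (nat_lit 647181) (nat_lit 3) (.e (nat_lit 163979) (nat_lit 30) (.e (nat_lit 573491) (nat_lit 15) (.e (nat_lit 81954) (nat_lit 23) (.e (nat_lit 98359) (nat_lit 26) (.e (nat_lit 426023) (nat_lit 0) .nil))))))) (.g (nat_lit 1) (.e (nat_lit 86417) (nat_lit 0) .nil) .nil))))) (.nd (nat_lit 8) (.nd (nat_lit 9) 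
(.lf (nat_lit 470166) (.g (nat_lit 2292) (.e (nat_lit 3308) (nat_lit 202) (.e (nat_lit 573482) (nat_lit 13) (.e (nat_lit 65630) (nat_lit 14) (.e (nat_lit 401428) (nat_lit 3) (.e (nat_lit 204865) (nat_lit 28) (.e (nat_lit 360192) (nat_lit 0) .nil)))))) (.g (nat_lit 1) (.e (nat_lit 84468) (nat_lit 0) .nil) .nil))) 
(.lf (nat_lit 470678) (.g (nat_lit 2550) (.e (nat_lit 3390) (nat_lit 210) (.e (nat_lit 639021) (nat_lit 16) (.e (nat_lit 65598) (nat_lit 9) (.e (nat_lit 335997) (nat_lit 1) (.e (nat_lit 57857) (nat_lit 254) (.e (nat_lit 163920) (nat_lit 14) (.e (nat_lit 442412) (nat_lit 20) .nil))))))) (.g (nat_lit 1) (.e (nat_lit 86083) (nat_lit 0) .nil) .nil)))) (.nd (nat_lit 9) 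
(.lf (nat_lit 470422) (.g (nat_lit 2393) (.e (nat_lit 3309) (nat_lit 202) (.e (nat_lit 573485) (nat_lit 13) (.e (nat_lit 65619) (nat_lit 10) (.e (nat_lit 344126) (nat_lit 25) (.e (nat_lit 548891) (nat_lit 11) (.e (nat_lit 89856) (nat_lit 0) .nil)))))) (.g (nat_lit 1) (.e (nat_lit 85462) (nat_lit 0) .nil) .nil))) 
(.lf (nat_lit 470934) (.g (nat_lit 2700) (.e (nat_lit 3397) (nat_lit 211) (.e (nat_lit 647183) (nat_lit 4) (.e (nat_lit 172126) (nat_lit 14) (.e (nat_lit 491549) (nat_lit 9) (.e (nat_lit 336400) (nat_lit 27) .nil))))) (.g (nat_lit 0) (.e (nat_lit 86566) (nat_lit 0) .nil) .nil)))))) (.nd (nat_lit 7) (.nd (nat_lit 8) (.nd (nat_lit 9) 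
(.lf (nat_lit 470102) (.g (nat_lit 2572) (.e (nat_lit 3308) (nat_lit 202) (.e (nat_lit 573482) (nat_lit 13) (.e (nat_lit 65619) (nat_lit 10) (.e (nat_lit 344117) (nat_lit 21) (.e (nat_lit 516102) (nat_lit 0) (.e (nat_lit 7107) (nat_lit 380) (.e (nat_lit 164339) (nat_lit 232) (.e (nat_lit 75) (nat_lit 0) .nil)))))))) (.g (nat_lit 1) (.e (nat_lit 84402) (nat_lit 0) .nil) .nil))) 
(.lf (nat_lit 470614) (.g (nat_lit 411) (.e (nat_lit 3289) (nat_lit 201) (.e (nat_lit 565269) (nat_lit 6) (.e (nat_lit 81942) (nat_lit 20) .nil))) (.g (nat_lit 0) (.e (nat_lit 85915) (nat_lit 0) .nil) .nil)))) (.nd (nat_lit 9) 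
(.lf (nat_lit 470358) (.g (nat_lit 2645) (.e (nat_lit 3309) (nat_lit 202) (.e (nat_lit 573484) (nat_lit 13) (.e (nat_lit 65609) (nat_lit 10) (.e (nat_lit 344133) (nat_lit 26) (.e (nat_lit 557087) (nat_lit 11) (.e (nat_lit 24625) (nat_lit 9) (.e (nat_lit 336258) (nat_lit 15) .nil))))))) (.g (nat_lit 1) (.e (nat_lit 85118) (nat_lit 0) .nil) .nil))) 
(.lf (nat_lit 470870) (.g (nat_lit 2614) (.e (nat_lit 3397) (nat_lit 211) (.e (nat_lit 647183) (nat_lit 4) (.e (nat_lit 172113) (nat_lit 10) (.e (nat_lit 434272) (nat_lit 38) (.e (nat_lit 655378) (nat_lit 4) (.e (nat_lit 172089) (nat_lit 9) (.e (nat_lit 426025) (nat_lit 0) .nil))))))) (.g (nat_lit 1) (.e (nat_lit 86500) (nat_lit 0) .nil) .nil))))) (.nd (nat_lit 8) (.nd (nat_lit 9) 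
(.lf (nat_lit 470230) (.g (nat_lit 556) (.e (nat_lit 3308) (nat_lit 202) (.e (nat_lit 573493) (nat_lit 15) (.e (nat_lit 81923) (nat_lit 0) .nil))) (.g (nat_lit 0) (.e (nat_lit 84741) (nat_lit 0) .nil) .nil))) 
(.lf (nat_lit 470742) (.g (nat_lit 4732) (.e (nat_lit 3397) (nat_lit 211) (.e (nat_lit 647181) (nat_lit 3) (.e (nat_lit 163977) (nat_lit 30) (.e (nat_lit 573485) (nat_lit 13) (.e (nat_lit 65604) (nat_lit 9) (.e (nat_lit 336028) (nat_lit 3) (.e (nat_lit 98359) (nat_lit 26) (.e (nat_lit 426025) (nat_lit 0) .nil)))))))) (.g (nat_lit 1) (.e (nat_lit 86352) (nat_lit 0) .nil) .nil)))) (.nd (nat_lit 9) 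
(.lf (nat_lit 470486) (.g (nat_lit 2094) (.e (nat_lit 7936) (nat_lit 202) (.e (nat_lit 573482) (nat_lit 13) (.e (nat_lit 65628) (nat_lit 14) (.e (nat_lit 401428) (nat_lit 3) (.e (nat_lit 204876) (nat_lit 31) .nil))))) (.g (nat_lit 0) (.e (nat_lit 85700) (nat_lit 0) .nil) .nil))) 
(.lf (nat_lit 470998) (.g (nat_lit 3968) (.e (nat_lit 3399) (nat_lit 211) (.e (nat_lit 647181) (nat_lit 3) (.e (nat_lit 163977) (nat_lit 30) (.e (nat_lit 573482) (nat_lit 13) (.e (nat_lit 65604) (nat_lit 9) (.e (nat_lit 336028) (nat_lit 3) (.e (nat_lit 98359) (nat_lit 26) (.e (nat_lit 426022) (nat_lit 0) .nil)))))))) (.g (nat_lit 1) (.e (nat_lit 86682) (nat_lit 0) .nil) .nil))))))) 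
(.nd (nat_lit 6) (.nd (nat_lit 7) (.nd (nat_lit 8) (.nd (nat_lit 9) 
(.lf (nat_lit 470070) (.g (nat_lit 3633) (.e (nat_lit 3308) (nat_lit 202) (.e (nat_lit 573482) (nat_lit 13) (.e (nat_lit 65604) (nat_lit 9) (.e (nat_lit 336028) (nat_lit 3) (.e (nat_lit 98325) (nat_lit 17) (.e (nat_lit 7008) (nat_lit 377) (.e (nat_lit 2788) (nat_lit 179) (.e (nat_lit 294966) (nat_lit 15) .nil)))))))) (.g (nat_lit 1) (.e (nat_lit 84365) (nat_lit 0) .nil) .nil))) 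
(.lf (nat_lit 470582) (.g (nat_lit 1830) (.e (nat_lit 3288) (nat_lit 201) (.e (nat_lit 565269) (nat_lit 6) (.e (nat_lit 81938) (nat_lit 20) (.e (nat_lit 2391) (nat_lit 156) (.e (nat_lit 819221) (nat_lit 6) .nil))))) (.g (nat_lit 0) (.e (nat_lit 85874) (nat_lit 0) .nil) .nil)))) (.nd (nat_lit 9) 
(.lf (nat_lit 470326) (.g (nat_lit 4872) (.e (nat_lit 3308) (nat_lit 202) (.e (nat_lit 573493) (nat_lit 15) (.e (nat_lit 81956) (nat_lit 23) (.e (nat_lit 98384) (nat_lit 32) (.e (nat_lit 475208) (nat_lit 41) .nil))))) (.g (nat_lit 0) (.e (nat_lit 85064) (nat_lit 0) .nil) .nil))) 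
(.lf (nat_lit 470838) (.g (nat_lit 2860) (.e (nat_lit 3397) (nat_lit 211) (.e (nat_lit 647183) (nat_lit 4) (.e (nat_lit 172094) (nat_lit 9) (.e (nat_lit 426025) (nat_lit 0) (.e (nat_lit 3397) (nat_lit 211) (.e (nat_lit 647183) (nat_lit 4) (.e (nat_lit 172094) (nat_lit 9) (.e (nat_lit 426025) (nat_lit 0) .nil)))))))) (.g (nat_lit 1) (.e (nat_lit 86466) (nat_lit 0) .nil) .nil))))) 
(.nd (nat_lit 8) (.nd (nat_lit 9) 
(.lf (nat_lit 470198) (.g (nat_lit 2524) (.e (nat_lit 3308) (nat_lit 202) (.e (nat_lit 573491) (nat_lit 15) (.e (nat_lit 81954) (nat_lit 23) (.e (nat_lit 98389) (nat_lit 33) (.e (nat_lit 491546) (nat_lit 9) (.e (nat_lit 336306) (nat_lit 15) .nil)))))) (.g (nat_lit 1) (.e (nat_lit 84699) (nat_lit 0) .nil) .nil))) 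
(.lf (nat_lit 470710) (.g (nat_lit 3125) (.e (nat_lit 3397) (nat_lit 211) (.e (nat_lit 647180) (nat_lit 3) (.e (nat_lit 163976) (nat_lit 30) (.e (nat_lit 573481) (nat_lit 13) (.e (nat_lit 65604) (nat_lit 9) (.e (nat_lit 336013) (nat_lit 2) (.e (nat_lit 90170) (nat_lit 13) (.e (nat_lit 172035) (nat_lit 0) .nil)))))))) (.g (nat_lit 1) (.e (nat_lit 86316) (nat_lit 0) .nil) .nil)))) (.nd (nat_lit 9) 
(.lf (nat_lit 470454) (.g (nat_lit 2013) (.e (nat_lit 3309) (nat_lit 202) (.e (nat_lit 573485) (nat_lit 13) (.e (nat_lit 65630) (nat_lit 14) (.e (nat_lit 401428) (nat_lit 3) (.e (nat_lit 204875) (nat_lit 31) (.e (nat_lit 384768) (nat_lit 0) .nil)))))) (.g (nat_lit 1) (.e (nat_lit 85498) (nat_lit 0) .nil) .nil))) 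
(.lf (nat_lit 470966) (.g (nat_lit 1598) (.e (nat_lit 3397) (nat_lit 211) (.e (nat_lit 647185) (nat_lit 6) (.e (nat_lit 188441) (nat_lit 20) (.e (nat_lit 3408) (nat_lit 212) (.e (nat_lit 655380) (nat_lit 6) (.e (nat_lit 188430) (nat_lit 20) .nil)))))) (.g (nat_lit 1) (.e (nat_lit 86607) (nat_lit 0) .nil) .nil)))))) (.nd (nat_lit 7) (.nd (nat_lit 8) (.nd (nat_lit 9) 
(.lf (nat_lit 470134) (.g (nat_lit 3128) (.e (nat_lit 3308) (nat_lit 202) (.e (nat_lit 573482) (nat_lit 13) (.e (nat_lit 65619) (nat_lit 10) (.e (nat_lit 344129) (nat_lit 26) (.e (nat_lit 557085) (nat_lit 11) (.e (nat_lit 24627) (nat_lit 9) (.e (nat_lit 336306) (nat_lit 15) .nil))))))) (.g (nat_lit 1) (.e (nat_lit 84435) (nat_lit 0) .nil) .nil))) 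
(.lf (nat_lit 470646) (.g (nat_lit 4198) (.e (nat_lit 3370) (nat_lit 208) (.e (nat_lit 622621) (nat_lit 13) (.e (nat_lit 2668) (nat_lit 167) (.e (nat_lit 196666) (nat_lit 13) (.e (nat_lit 65610) (nat_lit 10) (.e (nat_lit 344117) (nat_lit 21) (.e (nat_lit 516151) (nat_lit 9) (.e (nat_lit 426042) (nat_lit 0) .nil)))))))) (.g (nat_lit 1) (.e (nat_lit 85970) (nat_lit 0) .nil) .nil)))) 
(.nd (nat_lit 9) 
(.lf (nat_lit 470390) (.g (nat_lit 3621) (.e (nat_lit 3309) (nat_lit 202) (.e (nat_lit 573484) (nat_lit 13) (.e (nat_lit 65610) (nat_lit 10) (.e (nat_lit 344129) (nat_lit 26) (.e (nat_lit 557087) (nat_lit 11) (.e (nat_lit 24636) (nat_lit 9) (.e (nat_lit 336239) (nat_lit 15) .nil))))))) (.g (nat_lit 1) (.e (nat_lit 85274) (nat_lit 0) .nil) .nil))) 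
(.lf (nat_lit 470902) (.g (nat_lit 2488) (.e (nat_lit 3397) (nat_lit 211) (.e (nat_lit 647183) (nat_lit 4) (.e (nat_lit 172124) (nat_lit 14) (.e (nat_lit 491549) (nat_lit 9) (.e (nat_lit 336368) (nat_lit 27) .nil))))) (.g (nat_lit 0) (.e (nat_lit 86534) (nat_lit 0) .nil) .nil))))) (.nd (nat_lit 8) (.nd (nat_lit 9) 
(.lf (nat_lit 470262) (.g (nat_lit 1917) (.e (nat_lit 3308) (nat_lit 202) (.e (nat_lit 573493) (nat_lit 15) (.e (nat_lit 81953) (nat_lit 22) (.e (nat_lit 90165) (nat_lit 12) (.e (nat_lit 164207) (nat_lit 176) .nil))))) (.g (nat_lit 0) (.e (nat_lit 84862) (nat_lit 0) .nil) .nil))) 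
(.lf (nat_lit 470774) (.g (nat_lit 2859) (.e (nat_lit 3397) (nat_lit 211) (.e (nat_lit 647181) (nat_lit 3) (.e (nat_lit 163978) (nat_lit 30) (.e (nat_lit 573479) (nat_lit 13) (.e (nat_lit 65619) (nat_lit 10) (.e (nat_lit 344117) (nat_lit 21) (.e (nat_lit 516153) (nat_lit 9) (.e (nat_lit 426025) (nat_lit 0) .nil)))))))) (.g (nat_lit 1) (.e (nat_lit 86384) (nat_lit 0) .nil) .nil)))) 
(.nd (nat_lit 9) 
(.lf (nat_lit 470518) (.g (nat_lit 1613) (.e (nat_lit 3277) (nat_lit 200) (.e (nat_lit 557104) (nat_lit 14) (.e (nat_lit 180252) (nat_lit 10) (.e (nat_lit 573480) (nat_lit 13) .nil)))) (.g (nat_lit 0) (.e (nat_lit 85783) (nat_lit 0) .nil) .nil))) 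
(.lf (nat_lit 471030) (.g (nat_lit 4055) (.e (nat_lit 3399) (nat_lit 211) (.e (nat_lit 647181) (nat_lit 3) (.e (nat_lit 163977) (nat_lit 30) (.e (nat_lit 573493) (nat_lit 15) (.e (nat_lit 81956) (nat_lit 23) (.e (nat_lit 98359) (nat_lit 26) (.e (nat_lit 426023) (nat_lit 0) .nil))))))) (.g (nat_lit 1) (.e (nat_lit 86715) (nat_lit 0) .nil) .nil))))))))) 
(.nd (nat_lit 4) (.nd (nat_lit 5) (.nd (nat_lit 6) (.nd (nat_lit 7) (.nd (nat_lit 8) 
(.nd (nat_lit 9) 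
(.lf (nat_lit 470030) (.g (nat_lit 3299) (.e (nat_lit 3308) (nat_lit 202) (.e (nat_lit 573475) (nat_lit 12) (.e (nat_lit 57574) (nat_lit 55) (.e (nat_lit 778466) (nat_lit 11) (.e (nat_lit 24604) (nat_lit 2) (.e (nat_lit 90176) (nat_lit 15) (.e (nat_lit 188436) (nat_lit 20) .nil))))))) (.g (nat_lit 1) (.e (nat_lit 84318) (nat_lit 0) .nil) .nil))) 
(.lf (nat_lit 470542) (.g (nat_lit 2153) (.e (nat_lit 3279) (nat_lit 200) (.e (nat_lit 557104) (nat_lit 14) (.e (nat_lit 180252) (nat_lit 10) (.e (nat_lit 573480) (nat_lit 13) (.e (nat_lit 65568) (nat_lit 2) (.e (nat_lit 98048) (nat_lit 2) (.e (nat_lit 16392) (nat_lit 0) .nil))))))) (.g (nat_lit 1) (.e (nat_lit 85808) (nat_lit 0) .nil) .nil)))) (.nd (nat_lit 9) 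
(.lf (nat_lit 470286) (.g (nat_lit 352) (.e (nat_lit 3308) (nat_lit 202) (.e (nat_lit 573493) (nat_lit 15) (.e (nat_lit 81956) (nat_lit 23) .nil))) (.g (nat_lit 0) (.e (nat_lit 84931) (nat_lit 0) .nil) .nil))) 
(.lf (nat_lit 470798) (.g (nat_lit 5262) (.e (nat_lit 3397) (nat_lit 211) (.e (nat_lit 647181) (nat_lit 3) (.e (nat_lit 163979) (nat_lit 30) (.e (nat_lit 573482) (nat_lit 13) (.e (nat_lit 65619) (nat_lit 10) (.e (nat_lit 344117) (nat_lit 21) (.e (nat_lit 516151) (nat_lit 9) (.e (nat_lit 426022) (nat_lit 0) .nil)))))))) (.g (nat_lit 1) (.e (nat_lit 86409) (nat_lit 0) .nil) .nil))))) 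
(.nd (nat_lit 8) (.nd (nat_lit 9) 
(.lf (nat_lit 470158) (.g (nat_lit 2531) (.e (nat_lit 3308) (nat_lit 202) (.e (nat_lit 573482) (nat_lit 13) (.e (nat_lit 65628) (nat_lit 14) (.e (nat_lit 401428) (nat_lit 3) (.e (nat_lit 204877) (nat_lit 31) (.e (nat_lit 384768) (nat_lit 0) .nil)))))) (.g (nat_lit 1) (.e (nat_lit 84459) (nat_lit 0) .nil) .nil))) 
(.lf (nat_lit 470670) (.g (nat_lit 2888) (.e (nat_lit 3390) (nat_lit 210) (.e (nat_lit 639020) (nat_lit 16) (.e (nat_lit 65571) (nat_lit 3) (.e (nat_lit 98372) (nat_lit 29) (.e (nat_lit 458496) (nat_lit 3) .nil))))) (.g (nat_lit 0) (.e (nat_lit 86034) (nat_lit 0) .nil) .nil)))) (.nd (nat_lit 9) 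
(.lf (nat_lit 470414) (.g (nat_lit 2527) (.e (nat_lit 3309) (nat_lit 202) (.e (nat_lit 573485) (nat_lit 13) (.e (nat_lit 65619) (nat_lit 10) (.e (nat_lit 344117) (nat_lit 21) (.e (nat_lit 516106) (nat_lit 0) (.e (nat_lit 7936) (nat_lit 406) (.e (nat_lit 73472) (nat_lit 15) .nil))))))) (.g (nat_lit 1) (.e (nat_lit 85448) (nat_lit 0) .nil) .nil))) 
(.lf (nat_lit 470926) (.g (nat_lit 2671) (.e (nat_lit 3397) (nat_lit 211) (.e (nat_lit 647183) (nat_lit 4) (.e (nat_lit 172126) (nat_lit 14) (.e (nat_lit 491548) (nat_lit 9) (.e (nat_lit 336430) (nat_lit 29) (.e (nat_lit 442399) (nat_lit 20) .nil)))))) (.g (nat_lit 1) (.e (nat_lit 86558) (nat_lit 0) .nil) .nil)))))) (.nd (nat_lit 7) (.nd (nat_lit 8) (.nd (nat_lit 9) 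
(.lf (nat_lit 470094) (.g (nat_lit 3354) (.e (nat_lit 3308) (nat_lit 202) (.e (nat_lit 573482) (nat_lit 13) (.e (nat_lit 65619) (nat_lit 10) (.e (nat_lit 344117) (nat_lit 21) (.e (nat_lit 516097) (nat_lit 0) (.e (nat_lit 7587) (nat_lit 406) (.e (nat_lit 73472) (nat_lit 15) .nil))))))) (.g (nat_lit 1) (.e (nat_lit 84394) (nat_lit 0) .nil) .nil))) 
(.lf (nat_lit 470606) (.g (nat_lit 2081) (.e (nat_lit 3289) (nat_lit 201) (.e (nat_lit 565269) (nat_lit 6) (.e (nat_lit 81938) (nat_lit 20) (.e (nat_lit 2390) (nat_lit 156) (.e (nat_lit 819221) (nat_lit 6) (.e (nat_lit 188440) (nat_lit 20) .nil)))))) (.g (nat_lit 1) (.e (nat_lit 85907) (nat_lit 0) .nil) .nil)))) (.nd (nat_lit 9) 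
(.lf (nat_lit 470350) (.g (nat_lit 1385) (.e (nat_lit 3308) (nat_lit 202) (.e (nat_lit 573493) (nat_lit 15) (.e (nat_lit 81959) (nat_lit 24) (.e (nat_lit 130816) (nat_lit 140) .nil)))) (.g (nat_lit 0) (.e (nat_lit 85089) (nat_lit 0) .nil) .nil))) 
(.lf (nat_lit 470862) (.g (nat_lit 3012) (.e (nat_lit 3397) (nat_lit 211) (.e (nat_lit 647183) (nat_lit 4) (.e (nat_lit 172107) (nat_lit 10) (.e (nat_lit 434272) (nat_lit 38) (.e (nat_lit 655378) (nat_lit 4) (.e (nat_lit 172094) (nat_lit 9) (.e (nat_lit 426025) (nat_lit 0) .nil))))))) (.g (nat_lit 1) (.e (nat_lit 86491) (nat_lit 0) .nil) .nil))))) (.nd (nat_lit 8) (.nd (nat_lit 9) 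
(.lf (nat_lit 470222) (.g (nat_lit 3582) (.e (nat_lit 3308) (nat_lit 202) (.e (nat_lit 573492) (nat_lit 15) (.e (nat_lit 81956) (nat_lit 23) (.e (nat_lit 98389) (nat_lit 33) (.e (nat_lit 491546) (nat_lit 9) (.e (nat_lit 336306) (nat_lit 15) .nil)))))) (.g (nat_lit 1) (.e (nat_lit 84733) (nat_lit 0) .nil) .nil))) 
(.lf (nat_lit 470734) (.g (nat_lit 4179) (.e (nat_lit 3397) (nat_lit 211) (.e (nat_lit 647181) (nat_lit 3) (.e (nat_lit 163977) (nat_lit 30) (.e (nat_lit 573484) (nat_lit 13) (.e (nat_lit 65610) (nat_lit 10) (.e (nat_lit 344117) (nat_lit 21) (.e (nat_lit 516143) (nat_lit 9) (.e (nat_lit 426025) (nat_lit 0) .nil)))))))) (.g (nat_lit 1) (.e (nat_lit 86344) (nat_lit 0) .nil) .nil)))) 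
(.nd (nat_lit 9) 
(.lf (nat_lit 470478) (.g (nat_lit 2081) (.e (nat_lit 3311) (nat_lit 202) (.e (nat_lit 573485) (nat_lit 13) (.e (nat_lit 65619) (nat_lit 10) (.e (nat_lit 344129) (nat_lit 26) (.e (nat_lit 557074) (nat_lit 9) .nil))))) (.g (nat_lit 0) (.e (nat_lit 85647) (nat_lit 0) .nil) .nil))) 
(.lf (nat_lit 470990) (.g (nat_lit 3886) (.e (nat_lit 3399) (nat_lit 211) (.e (nat_lit 647180) (nat_lit 3) (.e (nat_lit 163979) (nat_lit 30) (.e (nat_lit 573482) (nat_lit 13) (.e (nat_lit 65619) (nat_lit 10) (.e (nat_lit 344117) (nat_lit 21) (.e (nat_lit 516151) (nat_lit 9) (.e (nat_lit 426023) (nat_lit 0) .nil)))))))) (.g (nat_lit 1) (.e (nat_lit 86672) (nat_lit 0) .nil) .nil))))))) 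
(.nd (nat_lit 6) (.nd (nat_lit 7) (.nd (nat_lit 8) (.nd (nat_lit 9) 
(.lf (nat_lit 470062) (.g (nat_lit 2855) (.e (nat_lit 3308) (nat_lit 202) (.e (nat_lit 573482) (nat_lit 13) (.e (nat_lit 65604) (nat_lit 9) (.e (nat_lit 336013) (nat_lit 2) (.e (nat_lit 90165) (nat_lit 12) (.e (nat_lit 171776) (nat_lit 191) (.e (nat_lit 73472) (nat_lit 15) .nil))))))) (.g (nat_lit 1) (.e (nat_lit 84357) (nat_lit 0) .nil) .nil))) 
(.lf (nat_lit 470574) (.g (nat_lit 831) (.e (nat_lit 3288) (nat_lit 201) (.e (nat_lit 565267) (nat_lit 4) (.e (nat_lit 65610) (nat_lit 10) (.e (nat_lit 344183) (nat_lit 49) .nil)))) (.g (nat_lit 0) (.e (nat_lit 85865) (nat_lit 0) .nil) .nil)))) (.nd (nat_lit 9) 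
(.lf (nat_lit 470318) (.g (nat_lit 6035) (.e (nat_lit 3308) (nat_lit 202) (.e (nat_lit 573493) (nat_lit 15) (.e (nat_lit 81956) (nat_lit 23) (.e (nat_lit 98350) (nat_lit 24) (.e (nat_lit 409642) (nat_lit 17) .nil))))) (.g (nat_lit 0) (.e (nat_lit 85021) (nat_lit 0) .nil) .nil))) 
(.lf (nat_lit 470830) (.g (nat_lit 1803) (.e (nat_lit 3397) (nat_lit 211) (.e (nat_lit 647183) (nat_lit 4) (.e (nat_lit 172080) (nat_lit 7) (.e (nat_lit 409642) (nat_lit 17) (.e (nat_lit 294974) (nat_lit 29) (.e (nat_lit 442398) (nat_lit 20) .nil)))))) (.g (nat_lit 1) (.e (nat_lit 86458) (nat_lit 0) .nil) .nil))))) (.nd (nat_lit 8) (.nd (nat_lit 9) 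
(.lf (nat_lit 470190) (.g (nat_lit 2329) (.e (nat_lit 3308) (nat_lit 202) (.e (nat_lit 573491) (nat_lit 15) (.e (nat_lit 81954) (nat_lit 23) (.e (nat_lit 98325) (nat_lit 17) (.e (nat_lit 6986) (nat_lit 377) (.e (nat_lit 2781) (nat_lit 178) (.e (nat_lit 294656) (nat_lit 15) .nil))))))) (.g (nat_lit 1) (.e (nat_lit 84678) (nat_lit 0) .nil) .nil))) 
(.lf (nat_lit 470702) (.g (nat_lit 2095) (.e (nat_lit 3420) (nat_lit 213) (.e (nat_lit 663583) (nat_lit 11) (.e (nat_lit 24608) (nat_lit 3) (.e (nat_lit 98372) (nat_lit 29) (.e (nat_lit 458496) (nat_lit 3) .nil))))) (.g (nat_lit 0) (.e (nat_lit 86284) (nat_lit 0) .nil) .nil)))) (.nd (nat_lit 9) 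
(.lf (nat_lit 470446) (.g (nat_lit 1776) (.e (nat_lit 3309) (nat_lit 202) (.e (nat_lit 573485) (nat_lit 13) (.e (nat_lit 65628) (nat_lit 14) (.e (nat_lit 401428) (nat_lit 3) (.e (nat_lit 204878) (nat_lit 31) (.e (nat_lit 384768) (nat_lit 0) .nil)))))) (.g (nat_lit 1) (.e (nat_lit 85489) (nat_lit 0) .nil) .nil))) 
(.lf (nat_lit 470958) (.g (nat_lit 1592) (.e (nat_lit 3397) (nat_lit 211) (.e (nat_lit 647185) (nat_lit 6) (.e (nat_lit 188439) (nat_lit 20) (.e (nat_lit 3408) (nat_lit 212) (.e (nat_lit 655380) (nat_lit 6) (.e (nat_lit 188427) (nat_lit 20) .nil)))))) (.g (nat_lit 1) (.e (nat_lit 86599) (nat_lit 0) .nil) .nil)))))) (.nd (nat_lit 7) (.nd (nat_lit 8) (.nd (nat_lit 9) 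
(.lf (nat_lit 470126) (.g (nat_lit 2260) (.e (nat_lit 3308) (nat_lit 202) (.e (nat_lit 573482) (nat_lit 13) (.e (nat_lit 65619) (nat_lit 10) (.e (nat_lit 344117) (nat_lit 21) (.e (nat_lit 516185) (nat_lit 16) (.e (nat_lit 491546) (nat_lit 9) (.e (nat_lit 336306) (nat_lit 15) .nil))))))) (.g (nat_lit 1) (.e (nat_lit 84426) (nat_lit 0) .nil) .nil))) 
(.lf (nat_lit 470638) (.g (nat_lit 3213) (.e (nat_lit 3342) (nat_lit 205) (.e (nat_lit 598065) (nat_lit 20) (.e (nat_lit 237589) (nat_lit 2) (.e (nat_lit 196666) (nat_lit 13) (.e (nat_lit 65610) (nat_lit 10) (.e (nat_lit 344117) (nat_lit 21) (.e (nat_lit 516101) (nat_lit 0) .nil))))))) (.g (nat_lit 1) (.e (nat_lit 85952) (nat_lit 0) .nil) .nil)))) (.nd (nat_lit 9) 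
(.lf (nat_lit 470382) (.g (nat_lit 2104) (.e (nat_lit 3309) (nat_lit 202) (.e (nat_lit 573484) (nat_lit 13) (.e (nat_lit 65610) (nat_lit 10) (.e (nat_lit 344129) (nat_lit 26) (.e (nat_lit 557087) (nat_lit 11) (.e (nat_lit 24626) (nat_lit 9) (.e (nat_lit 343808) (nat_lit 15) .nil))))))) (.g (nat_lit 1) (.e (nat_lit 85266) (nat_lit 0) .nil) .nil))) 
(.lf (nat_lit 470894) (.g (nat_lit 1879) (.e (nat_lit 3397) (nat_lit 211) (.e (nat_lit 647183) (nat_lit 4) (.e (nat_lit 172120) (nat_lit 12) (.e (nat_lit 475197) (nat_lit 40) (.e (nat_lit 712448) (nat_lit 6) (.e (nat_lit 188431) (nat_lit 20) .nil)))))) (.g (nat_lit 1) (.e (nat_lit 86526) (nat_lit 0) .nil) .nil))))) (.nd (nat_lit 8) (.nd (nat_lit 9) 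
(.lf (nat_lit 470254) (.g (nat_lit 4261) (.e (nat_lit 3308) (nat_lit 202) (.e (nat_lit 573493) (nat_lit 15) (.e (nat_lit 81953) (nat_lit 22) (.e (nat_lit 90144) (nat_lit 9) .nil)))) (.g (nat_lit 0) (.e (nat_lit 84853) (nat_lit 0) .nil) .nil))) 
(.lf (nat_lit 470766) (.g (nat_lit 2768) (.e (nat_lit 3397) (nat_lit 211) (.e (nat_lit 647181) (nat_lit 3) (.e (nat_lit 163978) (nat_lit 30) (.e (nat_lit 573479) (nat_lit 13) (.e (nat_lit 65604) (nat_lit 9) .nil))))) (.g (nat_lit 0) (.e (nat_lit 86376) (nat_lit 0) .nil) .nil)))) (.nd (nat_lit 9) 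
(.lf (nat_lit 470510) (.g (nat_lit 2307) (.e (nat_lit 3276) (nat_lit 200) (.e (nat_lit 557105) (nat_lit 14) (.e (nat_lit 180252) (nat_lit 10) (.e (nat_lit 573480) (nat_lit 13) (.e (nat_lit 65568) (nat_lit 2) (.e (nat_lit 98048) (nat_lit 2) (.e (nat_lit 16386) (nat_lit 0) .nil))))))) (.g (nat_lit 1) (.e (nat_lit 85775) (nat_lit 0) .nil) .nil))) 
(.lf (nat_lit 471022) (.g (nat_lit 2589) (.e (nat_lit 3399) (nat_lit 211) (.e (nat_lit 647181) (nat_lit 3) (.e (nat_lit 163977) (nat_lit 30) (.e (nat_lit 573491) (nat_lit 15) (.e (nat_lit 81954) (nat_lit 23) (.e (nat_lit 98360) (nat_lit 26) (.e (nat_lit 426025) (nat_lit 0) .nil))))))) (.g (nat_lit 1) (.e (nat_lit 86707) (nat_lit 0) .nil) .nil)))))))) 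
(.nd (nat_lit 5) (.nd (nat_lit 6) (.nd (nat_lit 7) (.nd (nat_lit 8) (.nd (nat_lit 9) 
(.lf (nat_lit 470046) (.g (nat_lit 5004) (.e (nat_lit 3308) (nat_lit 202) (.e (nat_lit 573482) (nat_lit 13) (.e (nat_lit 65604) (nat_lit 9) (.e (nat_lit 336013) (nat_lit 2) (.e (nat_lit 90134) (nat_lit 9) (.e (nat_lit 3098) (nat_lit 192) (.e (nat_lit 491549) (nat_lit 9) (.e (nat_lit 336306) (nat_lit 15) .nil)))))))) (.g (nat_lit 1) (.e (nat_lit 84341) (nat_lit 0) .nil) .nil))) 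
(.lf (nat_lit 470558) (.g (nat_lit 2215) (.e (nat_lit 3281) (nat_lit 200) (.e (nat_lit 557103) (nat_lit 14) (.e (nat_lit 180250) (nat_lit 10) (.e (nat_lit 573480) (nat_lit 13) (.e (nat_lit 65568) (nat_lit 2) .nil))))) (.g (nat_lit 0) (.e (nat_lit 85829) (nat_lit 0) .nil) .nil)))) (.nd (nat_lit 9) 
(.lf (nat_lit 470302) (.g (nat_lit 3456) (.e (nat_lit 3308) (nat_lit 202) (.e (nat_lit 573493) (nat_lit 15) (.e (nat_lit 81956) (nat_lit 23) (.e (nat_lit 98325) (nat_lit 17) (.e (nat_lit 6986) (nat_lit 377) (.e (nat_lit 2781) (nat_lit 178) (.e (nat_lit 294656) (nat_lit 15) .nil))))))) (.g (nat_lit 1) (.e (nat_lit 84950) (nat_lit 0) .nil) .nil))) 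
(.lf (nat_lit 470814) (.g (nat_lit 3351) (.e (nat_lit 3397) (nat_lit 211) (.e (nat_lit 647181) (nat_lit 3) (.e (nat_lit 163979) (nat_lit 30) (.e (nat_lit 573493) (nat_lit 15) (.e (nat_lit 81956) (nat_lit 23) (.e (nat_lit 98354) (nat_lit 26) (.e (nat_lit 426025) (nat_lit 0) .nil))))))) (.g (nat_lit 1) (.e (nat_lit 86426) (nat_lit 0) .nil) .nil))))) (.nd (nat_lit 8) (.nd (nat_lit 9) 
(.lf (nat_lit 470174) (.g (nat_lit 2626) (.e (nat_lit 3308) (nat_lit 202) (.e (nat_lit 573484) (nat_lit 13) (.e (nat_lit 65617) (nat_lit 10) (.e (nat_lit 344133) (nat_lit 26) (.e (nat_lit 557086) (nat_lit 11) (.e (nat_lit 24630) (nat_lit 9) (.e (nat_lit 336306) (nat_lit 15) .nil))))))) (.g (nat_lit 1) (.e (nat_lit 84482) (nat_lit 0) .nil) .nil))) 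
(.lf (nat_lit 470686) (.g (nat_lit 630) (.e (nat_lit 3391) (nat_lit 210) (.e (nat_lit 639008) (nat_lit 13) (.e (nat_lit 1586) (nat_lit 111) (.e (nat_lit 360448) (nat_lit 0) .nil)))) (.g (nat_lit 0) (.e (nat_lit 86155) (nat_lit 0) .nil) .nil)))) (.nd (nat_lit 9) 
(.lf (nat_lit 470430) (.g (nat_lit 2545) (.e (nat_lit 3309) (nat_lit 202) (.e (nat_lit 573485) (nat_lit 13) (.e (nat_lit 65619) (nat_lit 10) (.e (nat_lit 344129) (nat_lit 26) (.e (nat_lit 557087) (nat_lit 11) (.e (nat_lit 24631) (nat_lit 9) (.e (nat_lit 343808) (nat_lit 15) .nil))))))) (.g (nat_lit 1) (.e (nat_lit 85472) (nat_lit 0) .nil) .nil))) 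
(.lf (nat_lit 470942) (.g (nat_lit 3814) (.e (nat_lit 3397) (nat_lit 211) (.e (nat_lit 647183) (nat_lit 4) (.e (nat_lit 172126) (nat_lit 14) (.e (nat_lit 491571) (nat_lit 13) (.e (nat_lit 393232) (nat_lit 17) (.e (nat_lit 7303) (nat_lit 388) (.e (nat_lit 2439) (nat_lit 157) .nil))))))) (.g (nat_lit 1) (.e (nat_lit 86574) (nat_lit 0) .nil) .nil)))))) 
(.nd (nat_lit 7) (.nd (nat_lit 8) (.nd (nat_lit 9) 
(.lf (nat_lit 470110) (.g (nat_lit 2454) (.e (nat_lit 3308) (nat_lit 202) (.e (nat_lit 573482) (nat_lit 13) (.e (nat_lit 65619) (nat_lit 10) (.e (nat_lit 344117) (nat_lit 21) (.e (nat_lit 516106) (nat_lit 0) (.e (nat_lit 7112) (nat_lit 381) (.e (nat_lit 229647) (nat_lit 232) (.e (nat_lit 7936) (nat_lit 0) .nil)))))))) (.g (nat_lit 1) (.e (nat_lit 84410) (nat_lit 0) .nil) .nil))) 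
(.lf (nat_lit 470622) (.g (nat_lit 1023) (.e (nat_lit 3289) (nat_lit 201) (.e (nat_lit 565269) (nat_lit 6) (.e (nat_lit 81946) (nat_lit 20) (.e (nat_lit 2389) (nat_lit 156) .nil)))) (.g (nat_lit 0) (.e (nat_lit 85923) (nat_lit 0) .nil) .nil)))) (.nd (nat_lit 9) 
(.lf (nat_lit 470366) (.g (nat_lit 2146) (.e (nat_lit 3309) (nat_lit 202) (.e (nat_lit 573484) (nat_lit 13) (.e (nat_lit 65610) (nat_lit 10) (.e (nat_lit 344117) (nat_lit 21) (.e (nat_lit 516185) (nat_lit 16) (.e (nat_lit 491546) (nat_lit 9) (.e (nat_lit 336258) (nat_lit 15) .nil))))))) (.g (nat_lit 1) (.e (nat_lit 85192) (nat_lit 0) .nil) .nil))) 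
(.lf (nat_lit 470878) (.g (nat_lit 399) (.e (nat_lit 3397) (nat_lit 211) (.e (nat_lit 647183) (nat_lit 4) (.e (nat_lit 172118) (nat_lit 12) .nil))) (.g (nat_lit 0) (.e (nat_lit 86510) (nat_lit 0) .nil) .nil))))) (.nd (nat_lit 8) (.nd (nat_lit 9) 
(.lf (nat_lit 470238) (.g (nat_lit 4845) (.e (nat_lit 3308) (nat_lit 202) (.e (nat_lit 573493) (nat_lit 15) (.e (nat_lit 81953) (nat_lit 22) (.e (nat_lit 90124) (nat_lit 9) .nil)))) (.g (nat_lit 0) (.e (nat_lit 84835) (nat_lit 0) .nil) .nil))) 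
(.lf (nat_lit 470750) (.g (nat_lit 4247) (.e (nat_lit 3397) (nat_lit 211) (.e (nat_lit 647181) (nat_lit 3) (.e (nat_lit 163977) (nat_lit 30) (.e (nat_lit 573491) (nat_lit 15) (.e (nat_lit 81951) (nat_lit 22) (.e (nat_lit 90170) (nat_lit 13) (.e (nat_lit 172032) (nat_lit 0) .nil))))))) (.g (nat_lit 1) (.e (nat_lit 86360) (nat_lit 0) .nil) .nil)))) (.nd (nat_lit 9) 
(.lf (nat_lit 470494) (.g (nat_lit 2566) (.e (nat_lit 3275) (nat_lit 200) (.e (nat_lit 557103) (nat_lit 14) (.e (nat_lit 180250) (nat_lit 10) (.e (nat_lit 573484) (nat_lit 13) (.e (nat_lit 65568) (nat_lit 2) .nil))))) (.g (nat_lit 0) (.e (nat_lit 85758) (nat_lit 0) .nil) .nil))) 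
(.lf (nat_lit 471006) (.g (nat_lit 4501) (.e (nat_lit 3399) (nat_lit 211) (.e (nat_lit 647181) (nat_lit 3) (.e (nat_lit 163977) (nat_lit 30) (.e (nat_lit 573485) (nat_lit 13) (.e (nat_lit 65604) (nat_lit 9) (.e (nat_lit 336013) (nat_lit 2) (.e (nat_lit 90170) (nat_lit 13) (.e (nat_lit 172032) (nat_lit 0) .nil)))))))) (.g (nat_lit 1) (.e (nat_lit 86690) (nat_lit 0) .nil) .nil))))))) 
(.nd (nat_lit 6) (.nd (nat_lit 7) (.nd (nat_lit 8) (.nd (nat_lit 9) 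
(.lf (nat_lit 470078) (.g (nat_lit 2695) (.e (nat_lit 3308) (nat_lit 202) (.e (nat_lit 573482) (nat_lit 13) (.e (nat_lit 65609) (nat_lit 10) (.e (nat_lit 344132) (nat_lit 26) (.e (nat_lit 557085) (nat_lit 11) (.e (nat_lit 24630) (nat_lit 9) (.e (nat_lit 336306) (nat_lit 15) .nil))))))) (.g (nat_lit 1) (.e (nat_lit 84376) (nat_lit 0) .nil) .nil))) 
(.lf (nat_lit 470590) (.g (nat_lit 1583) (.e (nat_lit 3288) (nat_lit 201) (.e (nat_lit 565269) (nat_lit 6) (.e (nat_lit 81946) (nat_lit 20) (.e (nat_lit 2391) (nat_lit 156) (.e (nat_lit 819221) (nat_lit 6) (.e (nat_lit 188434) (nat_lit 20) .nil)))))) (.g (nat_lit 1) (.e (nat_lit 85883) (nat_lit 0) .nil) .nil)))) (.nd (nat_lit 9) 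
(.lf (nat_lit 470334) (.g (nat_lit 3598) (.e (nat_lit 3308) (nat_lit 202) (.e (nat_lit 573493) (nat_lit 15) (.e (nat_lit 81956) (nat_lit 23) (.e (nat_lit 98387) (nat_lit 33) (.e (nat_lit 491549) (nat_lit 9) (.e (nat_lit 336306) (nat_lit 15) .nil)))))) (.g (nat_lit 1) (.e (nat_lit 85072) (nat_lit 0) .nil) .nil))) 
(.lf (nat_lit 470846) (.g (nat_lit 1896) (.e (nat_lit 3397) (nat_lit 211) (.e (nat_lit 647183) (nat_lit 4) (.e (nat_lit 172097) (nat_lit 9) (.e (nat_lit 426025) (nat_lit 0) (.e (nat_lit 3399) (nat_lit 211) (.e (nat_lit 647185) (nat_lit 6) (.e (nat_lit 188431) (nat_lit 20) .nil))))))) (.g (nat_lit 1) (.e (nat_lit 86474) (nat_lit 0) .nil) .nil))))) (.nd (nat_lit 8) (.nd (nat_lit 9) 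
(.lf (nat_lit 470206) (.g (nat_lit 2688) (.e (nat_lit 3308) (nat_lit 202) (.e (nat_lit 573491) (nat_lit 15) (.e (nat_lit 81956) (nat_lit 23) (.e (nat_lit 98389) (nat_lit 33) (.e (nat_lit 491546) (nat_lit 9) (.e (nat_lit 336306) (nat_lit 15) .nil)))))) (.g (nat_lit 1) (.e (nat_lit 84713) (nat_lit 0) .nil) .nil))) 
(.lf (nat_lit 470718) (.g (nat_lit 2261) (.e (nat_lit 3397) (nat_lit 211) (.e (nat_lit 647181) (nat_lit 3) (.e (nat_lit 163977) (nat_lit 30) (.e (nat_lit 573481) (nat_lit 13) (.e (nat_lit 65604) (nat_lit 9) .nil))))) (.g (nat_lit 0) (.e (nat_lit 86328) (nat_lit 0) .nil) .nil)))) (.nd (nat_lit 9) 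
(.lf (nat_lit 470462) (.g (nat_lit 3831) (.e (nat_lit 3309) (nat_lit 202) (.e (nat_lit 573489) (nat_lit 14) (.e (nat_lit 73755) (nat_lit 8) (.e (nat_lit 557098) (nat_lit 13) (.e (nat_lit 179968) (nat_lit 18) (.e (nat_lit 98333) (nat_lit 18) (.e (nat_lit 164325) (nat_lit 230) (.e (nat_lit 163841) (nat_lit 0) .nil)))))))) (.g (nat_lit 1) (.e (nat_lit 85535) (nat_lit 0) .nil) .nil))) 
(.lf (nat_lit 470974) (.g (nat_lit 1649) (.e (nat_lit 3399) (nat_lit 211) (.e (nat_lit 647170) (nat_lit 0) (.e (nat_lit 2668) (nat_lit 167) (.e (nat_lit 196686) (nat_lit 18) .nil)))) (.g (nat_lit 0) (.e (nat_lit 86626) (nat_lit 0) .nil) .nil)))))) (.nd (nat_lit 7) (.nd (nat_lit 8) (.nd (nat_lit 9) 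
(.lf (nat_lit 470142) (.g (nat_lit 3480) (.e (nat_lit 3308) (nat_lit 202) (.e (nat_lit 573482) (nat_lit 13) (.e (nat_lit 65619) (nat_lit 10) (.e (nat_lit 344129) (nat_lit 26) (.e (nat_lit 557087) (nat_lit 11) (.e (nat_lit 24629) (nat_lit 9) (.e (nat_lit 336306) (nat_lit 15) .nil))))))) (.g (nat_lit 1) (.e (nat_lit 84443) (nat_lit 0) .nil) .nil))) 
(.lf (nat_lit 470654) (.g (nat_lit 2523) (.e (nat_lit 3386) (nat_lit 210) (.e (nat_lit 639020) (nat_lit 16) (.e (nat_lit 65571) (nat_lit 3) (.e (nat_lit 98373) (nat_lit 29) (.e (nat_lit 458496) (nat_lit 3) (.e (nat_lit 516097) (nat_lit 0) .nil)))))) (.g (nat_lit 1) (.e (nat_lit 85978) (nat_lit 0) .nil) .nil)))) (.nd (nat_lit 9) 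
(.lf (nat_lit 470398) (.g (nat_lit 2975) (.e (nat_lit 3309) (nat_lit 202) (.e (nat_lit 573484) (nat_lit 13) (.e (nat_lit 65624) (nat_lit 12) (.e (nat_lit 385074) (nat_lit 31) (.e (nat_lit 573491) (nat_lit 15) (.e (nat_lit 89856) (nat_lit 0) .nil)))))) (.g (nat_lit 1) (.e (nat_lit 85364) (nat_lit 0) .nil) .nil))) 
(.lf (nat_lit 470910) (.g (nat_lit 1812) (.e (nat_lit 3397) (nat_lit 211) (.e (nat_lit 647183) (nat_lit 4) (.e (nat_lit 172124) (nat_lit 14) (.e (nat_lit 491569) (nat_lit 13) (.e (nat_lit 401152) (nat_lit 23) .nil))))) (.g (nat_lit 0) (.e (nat_lit 86542) (nat_lit 0) .nil) .nil))))) (.nd (nat_lit 8) (.nd (nat_lit 9) 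
(.lf (nat_lit 470270) (.g (nat_lit 2193) (.e (nat_lit 3308) (nat_lit 202) (.e (nat_lit 573493) (nat_lit 15) (.e (nat_lit 81954) (nat_lit 23) (.e (nat_lit 98325) (nat_lit 17) .nil)))) (.g (nat_lit 0) (.e (nat_lit 84900) (nat_lit 0) .nil) .nil))) 
(.lf (nat_lit 470782) (.g (nat_lit 4749) (.e (nat_lit 3397) (nat_lit 211) (.e (nat_lit 647181) (nat_lit 3) (.e (nat_lit 163978) (nat_lit 30) (.e (nat_lit 573485) (nat_lit 13) (.e (nat_lit 65604) (nat_lit 9) (.e (nat_lit 336028) (nat_lit 3) (.e (nat_lit 98359) (nat_lit 26) (.e (nat_lit 426025) (nat_lit 0) .nil)))))))) (.g (nat_lit 1) (.e (nat_lit 86392) (nat_lit 0) .nil) .nil)))) (.nd (nat_lit 9) 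
(.lf (nat_lit 470526) (.g (nat_lit 2253) (.e (nat_lit 3277) (nat_lit 200) (.e (nat_lit 557105) (nat_lit 14) (.e (nat_lit 180252) (nat_lit 10) (.e (nat_lit 573480) (nat_lit 13) (.e (nat_lit 65644) (nat_lit 22) .nil))))) (.g (nat_lit 0) (.e (nat_lit 85791) (nat_lit 0) .nil) .nil))) 
(.lf (nat_lit 471038) (.g (nat_lit 4261) (.e (nat_lit 3399) (nat_lit 211) (.e (nat_lit 647181) (nat_lit 3) (.e (nat_lit 163978) (nat_lit 30) (.e (nat_lit 573485) (nat_lit 13) (.e (nat_lit 65604) (nat_lit 9) (.e (nat_lit 336028) (nat_lit 3) (.e (nat_lit 98359) (nat_lit 26) (.e (nat_lit 426025) (nat_lit 0) .nil)))))))) (.g (nat_lit 1) (.e (nat_lit 86723) (nat_lit 0) .nil) .nil)))))))))))) 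
(.nd (nat_lit 1) (.nd (nat_lit 2) (.nd (nat_lit 3) (.nd (nat_lit 4) (.nd (nat_lit 5) 
(.nd (nat_lit 6) (.nd (nat_lit 7) (.nd (nat_lit 8) (.nd (nat_lit 9) 
(.lf (nat_lit 470017) (.g (nat_lit 1947) (.e (nat_lit 3308) (nat_lit 202) (.e (nat_lit 573471) (nat_lit 11) (.e (nat_lit 16473) (nat_lit 14) (.e (nat_lit 491538) (nat_lit 3) .nil)))) (.g (nat_lit 0) (.e (nat_lit 84292) (nat_lit 0) .nil) .nil))) 
(.lf (nat_lit 470529) (.g (nat_lit 2215) (.e (nat_lit 3278) (nat_lit 200) (.e (nat_lit 557103) (nat_lit 14) (.e (nat_lit 180250) (nat_lit 10) (.e (nat_lit 573480) (nat_lit 13) (.e (nat_lit 65568) (nat_lit 2) .nil))))) (.g (nat_lit 0) (.e (nat_lit 85795) (nat_lit 0) .nil) .nil)))) (.nd (nat_lit 9) 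
(.lf (nat_lit 470273) (.g (nat_lit 3162) (.e (nat_lit 3308) (nat_lit 202) (.e (nat_lit 573493) (nat_lit 15) (.e (nat_lit 81954) (nat_lit 23) (.e (nat_lit 98325) (nat_lit 17) (.e (nat_lit 6986) (nat_lit 377) (.e (nat_lit 2781) (nat_lit 178) (.e (nat_lit 294656) (nat_lit 15) .nil))))))) (.g (nat_lit 1) (.e (nat_lit 84903) (nat_lit 0) .nil) .nil))) 
(.lf (nat_lit 470785) (.g (nat_lit 4180) (.e (nat_lit 3397) (nat_lit 211) (.e (nat_lit 647181) (nat_lit 3) (.e (nat_lit 163978) (nat_lit 30) (.e (nat_lit 573485) (nat_lit 13) (.e (nat_lit 65619) (nat_lit 10) (.e (nat_lit 344117) (nat_lit 21) (.e (nat_lit 516143) (nat_lit 9) (.e (nat_lit 426025) (nat_lit 0) .nil)))))))) (.g (nat_lit 1) (.e (nat_lit 86395) (nat_lit 0) .nil) .nil))))) 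
(.nd (nat_lit 8) (.nd (nat_lit 9) 
(.lf (nat_lit 470145) (.g (nat_lit 2009) (.e (nat_lit 3308) (nat_lit 202) (.e (nat_lit 573482) (nat_lit 13) (.e (nat_lit 65619) (nat_lit 10) (.e (nat_lit 344129) (nat_lit 26) (.e (nat_lit 557087) (nat_lit 11) (.e (nat_lit 24632) (nat_lit 9) (.e (nat_lit 343808) (nat_lit 15) .nil))))))) (.g (nat_lit 1) (.e (nat_lit 84446) (nat_lit 0) .nil) .nil))) 
(.lf (nat_lit 470657) (.g (nat_lit 2952) (.e (nat_lit 3388) (nat_lit 210) (.e (nat_lit 639020) (nat_lit 16) (.e (nat_lit 65571) (nat_lit 3) (.e (nat_lit 98359) (nat_lit 26) (.e (nat_lit 426285) (nat_lit 10) .nil))))) (.g (nat_lit 0) (.e (nat_lit 85984) (nat_lit 0) .nil) .nil)))) (.nd (nat_lit 9) 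
(.lf (nat_lit 470401) (.g (nat_lit 2424) (.e (nat_lit 3309) (nat_lit 202) (.e (nat_lit 573485) (nat_lit 13) (.e (nat_lit 65604) (nat_lit 9) (.e (nat_lit 336013) (nat_lit 2) (.e (nat_lit 90165) (nat_lit 12) (.e (nat_lit 171776) (nat_lit 191) (.e (nat_lit 73472) (nat_lit 15) .nil))))))) (.g (nat_lit 1) (.e (nat_lit 85415) (nat_lit 0) .nil) .nil))) 
(.lf (nat_lit 470913) (.g (nat_lit 2701) (.e (nat_lit 3397) (nat_lit 211) (.e (nat_lit 647183) (nat_lit 4) (.e (nat_lit 172124) (nat_lit 14) (.e (nat_lit 491570) (nat_lit 13) (.e (nat_lit 393275) (nat_lit 23) (.e (nat_lit 426025) (nat_lit 0) .nil)))))) (.g (nat_lit 1) (.e (nat_lit 86545) (nat_lit 0) .nil) .nil)))))) (.nd (nat_lit 7) (.nd (nat_lit 8) (.nd (nat_lit 9) 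
(.lf (nat_lit 470081) (.g (nat_lit 2341) (.e (nat_lit 3308) (nat_lit 202) (.e (nat_lit 573482) (nat_lit 13) (.e (nat_lit 65616) (nat_lit 10) (.e (nat_lit 344133) (nat_lit 26) (.e (nat_lit 557086) (nat_lit 11) (.e (nat_lit 24630) (nat_lit 9) (.e (nat_lit 336306) (nat_lit 15) .nil))))))) (.g (nat_lit 1) (.e (nat_lit 84379) (nat_lit 0) .nil) .nil))) 
(.lf (nat_lit 470593) (.g (nat_lit 1769) (.e (nat_lit 3289) (nat_lit 201) (.e (nat_lit 565251) (nat_lit 0) (.e (nat_lit 1586) (nat_lit 111) (.e (nat_lit 360450) (nat_lit 0) (.e (nat_lit 7686) (nat_lit 410) (.e (nat_lit 7936) (nat_lit 166) (.e (nat_lit 188435) (nat_lit 20) .nil))))))) (.g (nat_lit 1) (.e (nat_lit 85887) (nat_lit 0) .nil) .nil)))) (.nd (nat_lit 9) 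
(.lf (nat_lit 470337) (.g (nat_lit 3355) (.e (nat_lit 3308) (nat_lit 202) (.e (nat_lit 573493) (nat_lit 15) (.e (nat_lit 81956) (nat_lit 23) (.e (nat_lit 98388) (nat_lit 33) (.e (nat_lit 491548) (nat_lit 9) (.e (nat_lit 336306) (nat_lit 15) .nil)))))) (.g (nat_lit 1) (.e (nat_lit 85075) (nat_lit 0) .nil) .nil))) 
(.lf (nat_lit 470849) (.g (nat_lit 1773) (.e (nat_lit 3397) (nat_lit 211) (.e (nat_lit 647183) (nat_lit 4) (.e (nat_lit 172106) (nat_lit 10) (.e (nat_lit 434209) (nat_lit 18) (.e (nat_lit 5548) (nat_lit 306) .nil))))) (.g (nat_lit 0) (.e (nat_lit 86478) (nat_lit 0) .nil) .nil))))) (.nd (nat_lit 8) (.nd (nat_lit 9) 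
(.lf (nat_lit 470209) (.g (nat_lit 2670) (.e (nat_lit 3308) (nat_lit 202) (.e (nat_lit 573491) (nat_lit 15) (.e (nat_lit 81956) (nat_lit 23) (.e (nat_lit 98389) (nat_lit 33) (.e (nat_lit 491552) (nat_lit 9) .nil))))) (.g (nat_lit 0) (.e (nat_lit 84716) (nat_lit 0) .nil) .nil))) 
(.lf (nat_lit 470721) (.g (nat_lit 4738) (.e (nat_lit 3397) (nat_lit 211) (.e (nat_lit 647181) (nat_lit 3) (.e (nat_lit 163977) (nat_lit 30) (.e (nat_lit 573482) (nat_lit 13) (.e (nat_lit 65604) (nat_lit 9) (.e (nat_lit 336013) (nat_lit 2) (.e (nat_lit 90170) (nat_lit 13) (.e (nat_lit 172032) (nat_lit 0) .nil)))))))) (.g (nat_lit 1) (.e (nat_lit 86331) (nat_lit 0) .nil) .nil)))) (.nd (nat_lit 9) 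
(.lf (nat_lit 470465) (.g (nat_lit 3068) (.e (nat_lit 3309) (nat_lit 202) (.e (nat_lit 573489) (nat_lit 14) (.e (nat_lit 73755) (nat_lit 8) (.e (nat_lit 557098) (nat_lit 13) (.e (nat_lit 179968) (nat_lit 18) (.e (nat_lit 98335) (nat_lit 18) (.e (nat_lit 164330) (nat_lit 230) (.e (nat_lit 163845) (nat_lit 0) .nil)))))))) (.g (nat_lit 1) (.e (nat_lit 85538) (nat_lit 0) .nil) .nil))) 
(.lf (nat_lit 470977) (.g (nat_lit 2065) (.e (nat_lit 3399) (nat_lit 211) (.e (nat_lit 647180) (nat_lit 3) (.e (nat_lit 163976) (nat_lit 30) (.e (nat_lit 573491) (nat_lit 15) (.e (nat_lit 81954) (nat_lit 23) (.e (nat_lit 98359) (nat_lit 26) (.e (nat_lit 426023) (nat_lit 0) .nil))))))) (.g (nat_lit 1) (.e (nat_lit 86658) (nat_lit 0) .nil) .nil))))))) 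
(.nd (nat_lit 6) (.nd (nat_lit 7) (.nd (nat_lit 8) (.nd (nat_lit 9) 
(.lf (nat_lit 470049) (.g (nat_lit 4257) (.e (nat_lit 3308) (nat_lit 202) (.e (nat_lit 573482) (nat_lit 13) (.e (nat_lit 65604) (nat_lit 9) (.e (nat_lit 336013) (nat_lit 2) (.e (nat_lit 90165) (nat_lit 12) (.e (nat_lit 164208) (nat_lit 176) (.e (nat_lit 2777) (nat_lit 178) (.e (nat_lit 286765) (nat_lit 15) .nil)))))))) (.g (nat_lit 1) (.e (nat_lit 84344) (nat_lit 0) .nil) .nil))) 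
(.lf (nat_lit 470561) (.g (nat_lit 3168) (.e (nat_lit 3281) (nat_lit 200) (.e (nat_lit 557103) (nat_lit 14) (.e (nat_lit 180250) (nat_lit 10) (.e (nat_lit 573482) (nat_lit 13) (.e (nat_lit 65644) (nat_lit 22) (.e (nat_lit 245776) (nat_lit 4) (.e (nat_lit 172036) (nat_lit 0) .nil))))))) (.g (nat_lit 1) (.e (nat_lit 85832) (nat_lit 0) .nil) .nil)))) (.nd (nat_lit 9) 
(.lf (nat_lit 470305) (.g (nat_lit 4300) (.e (nat_lit 3308) (nat_lit 202) (.e (nat_lit 573493) (nat_lit 15) (.e (nat_lit 81956) (nat_lit 23) (.e (nat_lit 98327) (nat_lit 17) .nil)))) (.g (nat_lit 0) (.e (nat_lit 84970) (nat_lit 0) .nil) .nil))) 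
(.lf (nat_lit 470817) (.g (nat_lit 4053) (.e (nat_lit 3397) (nat_lit 211) (.e (nat_lit 647181) (nat_lit 3) (.e (nat_lit 163979) (nat_lit 30) (.e (nat_lit 573493) (nat_lit 15) (.e (nat_lit 81956) (nat_lit 23) (.e (nat_lit 98359) (nat_lit 26) (.e (nat_lit 426023) (nat_lit 0) .nil))))))) (.g (nat_lit 1) (.e (nat_lit 86429) (nat_lit 0) .nil) .nil))))) (.nd (nat_lit 8) (.nd (nat_lit 9) 
(.lf (nat_lit 470177) (.g (nat_lit 2161) (.e (nat_lit 3308) (nat_lit 202) (.e (nat_lit 573489) (nat_lit 14) (.e (nat_lit 73755) (nat_lit 8) (.e (nat_lit 557098) (nat_lit 13) .nil)))) (.g (nat_lit 0) (.e (nat_lit 84548) (nat_lit 0) .nil) .nil))) 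
(.lf (nat_lit 470689) (.g (nat_lit 2069) (.e (nat_lit 3391) (nat_lit 210) (.e (nat_lit 639020) (nat_lit 16) (.e (nat_lit 65571) (nat_lit 3) (.e (nat_lit 98374) (nat_lit 29) .nil)))) (.g (nat_lit 0) (.e (nat_lit 86168) (nat_lit 0) .nil) .nil)))) (.nd (nat_lit 9) 
(.lf (nat_lit 470433) (.g (nat_lit 3700) (.e (nat_lit 3309) (nat_lit 202) (.e (nat_lit 573485) (nat_lit 13) (.e (nat_lit 65619) (nat_lit 10) (.e (nat_lit 344129) (nat_lit 26) (.e (nat_lit 557087) (nat_lit 11) (.e (nat_lit 24636) (nat_lit 9) (.e (nat_lit 343808) (nat_lit 15) .nil))))))) (.g (nat_lit 1) (.e (nat_lit 85475) (nat_lit 0) .nil) .nil))) 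
(.lf (nat_lit 470945) (.g (nat_lit 2784) (.e (nat_lit 3397) (nat_lit 211) (.e (nat_lit 647183) (nat_lit 4) (.e (nat_lit 172126) (nat_lit 14) (.e (nat_lit 491571) (nat_lit 13) (.e (nat_lit 393274) (nat_lit 23) (.e (nat_lit 426023) (nat_lit 0) .nil)))))) (.g (nat_lit 1) (.e (nat_lit 86577) (nat_lit 0) .nil) .nil)))))) (.nd (nat_lit 7) (.nd (nat_lit 8) (.nd (nat_lit 9) 
(.lf (nat_lit 470113) (.g (nat_lit 3404) (.e (nat_lit 3308) (nat_lit 202) (.e (nat_lit 573482) (nat_lit 13) (.e (nat_lit 65619) (nat_lit 10) (.e (nat_lit 344117) (nat_lit 21) (.e (nat_lit 516138) (nat_lit 7) (.e (nat_lit 409642) (nat_lit 17) (.e (nat_lit 294966) (nat_lit 15) .nil))))))) (.g (nat_lit 1) (.e (nat_lit 84413) (nat_lit 0) .nil) .nil))) 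
(.lf (nat_lit 470625) (.g (nat_lit 1851) (.e (nat_lit 3289) (nat_lit 201) (.e (nat_lit 565269) (nat_lit 6) (.e (nat_lit 81946) (nat_lit 20) (.e (nat_lit 2391) (nat_lit 156) (.e (nat_lit 819221) (nat_lit 6) (.e (nat_lit 188438) (nat_lit 20) .nil)))))) (.g (nat_lit 1) (.e (nat_lit 85926) (nat_lit 0) .nil) .nil)))) (.nd (nat_lit 9) 
(.lf (nat_lit 470369) (.g (nat_lit 5013) (.e (nat_lit 3309) (nat_lit 202) (.e (nat_lit 573484) (nat_lit 13) (.e (nat_lit 65610) (nat_lit 10) (.e (nat_lit 344117) (nat_lit 21) (.e (nat_lit 516185) (nat_lit 16) (.e (nat_lit 491556) (nat_lit 9) (.e (nat_lit 336239) (nat_lit 15) .nil))))))) (.g (nat_lit 1) (.e (nat_lit 85195) (nat_lit 0) .nil) .nil))) 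
(.lf (nat_lit 470881) (.g (nat_lit 2127) (.e (nat_lit 3397) (nat_lit 211) (.e (nat_lit 647183) (nat_lit 4) (.e (nat_lit 172118) (nat_lit 12) (.e (nat_lit 475198) (nat_lit 40) (.e (nat_lit 704593) (nat_lit 4) (.e (nat_lit 172094) (nat_lit 9) (.e (nat_lit 426025) (nat_lit 0) .nil))))))) (.g (nat_lit 1) (.e (nat_lit 86513) (nat_lit 0) .nil) .nil))))) (.nd (nat_lit 8) (.nd (nat_lit 9) 
(.lf (nat_lit 470241) (.g (nat_lit 4601) (.e (nat_lit 3308) (nat_lit 202) (.e (nat_lit 573493) (nat_lit 15) (.e (nat_lit 81953) (nat_lit 22) (.e (nat_lit 90128) (nat_lit 9) .nil)))) (.g (nat_lit 0) (.e (nat_lit 84838) (nat_lit 0) .nil) .nil))) 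
(.lf (nat_lit 470753) (.g (nat_lit 3144) (.e (nat_lit 3397) (nat_lit 211) (.e (nat_lit 647181) (nat_lit 3) (.e (nat_lit 163977) (nat_lit 30) (.e (nat_lit 573491) (nat_lit 15) (.e (nat_lit 81954) (nat_lit 23) (.e (nat_lit 98359) (nat_lit 26) (.e (nat_lit 426003) (nat_lit 0) .nil))))))) (.g (nat_lit 1) (.e (nat_lit 86363) (nat_lit 0) .nil) .nil)))) (.nd (nat_lit 9) 
(.lf (nat_lit 470497) (.g (nat_lit 2695) (.e (nat_lit 3275) (nat_lit 200) (.e (nat_lit 557105) (nat_lit 14) (.e (nat_lit 180251) (nat_lit 10) (.e (nat_lit 573484) (nat_lit 13) (.e (nat_lit 65568) (nat_lit 2) (.e (nat_lit 98048) (nat_lit 2) (.e (nat_lit 16388) (nat_lit 0) .nil))))))) (.g (nat_lit 1) (.e (nat_lit 85761) (nat_lit 0) .nil) .nil))) 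
(.lf (nat_lit 471009) (.g (nat_lit 3056) (.e (nat_lit 3399) (nat_lit 211) (.e (nat_lit 647181) (nat_lit 3) (.e (nat_lit 163977) (nat_lit 30) (.e (nat_lit 573485) (nat_lit 13) (.e (nat_lit 65604) (nat_lit 9) (.e (nat_lit 336028) (nat_lit 3) (.e (nat_lit 98354) (nat_lit 26) (.e (nat_lit 426025) (nat_lit 0) .nil)))))))) (.g (nat_lit 1) (.e (nat_lit 86693) (nat_lit 0) .nil) .nil)))))))) 
(.nd (nat_lit 5) (.nd (nat_lit 6) (.nd (nat_lit 7) (.nd (nat_lit 8) (.nd (nat_lit 9) 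
(.lf (nat_lit 470033) (.g (nat_lit 2478) (.e (nat_lit 3308) (nat_lit 202) (.e (nat_lit 573475) (nat_lit 12) (.e (nat_lit 57574) (nat_lit 55) (.e (nat_lit 778466) (nat_lit 11) (.e (nat_lit 24604) (nat_lit 2) (.e (nat_lit 90176) (nat_lit 15) (.e (nat_lit 188440) (nat_lit 20) .nil))))))) (.g (nat_lit 1) (.e (nat_lit 84321) (nat_lit 0) .nil) .nil))) 
(.lf (nat_lit 470545) (.g (nat_lit 2053) (.e (nat_lit 3280) (nat_lit 200) (.e (nat_lit 557067) (nat_lit 9) (.e (nat_lit 3022) (nat_lit 187) (.e (nat_lit 450580) (nat_lit 5) (.e (nat_lit 532556) (nat_lit 13) .nil))))) (.g (nat_lit 0) (.e (nat_lit 85814) (nat_lit 0) .nil) .nil)))) (.nd (nat_lit 9) 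
(.lf (nat_lit 470289) (.g (nat_lit 3184) (.e (nat_lit 3308) (nat_lit 202) (.e (nat_lit 573493) (nat_lit 15) (.e (nat_lit 81956) (nat_lit 23) (.e (nat_lit 98319) (nat_lit 17) (.e (nat_lit 7589) (nat_lit 406) (.e (nat_lit 73472) (nat_lit 15) .nil)))))) (.g (nat_lit 1) (.e (nat_lit 84935) (nat_lit 0) .nil) .nil))) 
(.lf (nat_lit 470801) (.g (nat_lit 3905) (.e (nat_lit 3397) (nat_lit 211) (.e (nat_lit 647181) (nat_lit 3) (.e (nat_lit 163979) (nat_lit 30) (.e (nat_lit 573491) (nat_lit 15) (.e (nat_lit 81951) (nat_lit 22) (.e (nat_lit 90170) (nat_lit 13) (.e (nat_lit 172032) (nat_lit 0) .nil))))))) (.g (nat_lit 1) (.e (nat_lit 86412) (nat_lit 0) .nil) .nil))))) (.nd (nat_lit 8) (.nd (nat_lit 9) 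
(.lf (nat_lit 470161) (.g (nat_lit 2919) (.e (nat_lit 3308) (nat_lit 202) (.e (nat_lit 573482) (nat_lit 13) (.e (nat_lit 65630) (nat_lit 14) (.e (nat_lit 401425) (nat_lit 2) (.e (nat_lit 196681) (nat_lit 17) (.e (nat_lit 131105) (nat_lit 9) (.e (nat_lit 336306) (nat_lit 15) .nil))))))) (.g (nat_lit 1) (.e (nat_lit 84462) (nat_lit 0) .nil) .nil))) 
(.lf (nat_lit 470673) (.g (nat_lit 2000) (.e (nat_lit 3390) (nat_lit 210) (.e (nat_lit 639020) (nat_lit 16) (.e (nat_lit 65571) (nat_lit 3) (.e (nat_lit 98374) (nat_lit 29) .nil)))) (.g (nat_lit 0) (.e (nat_lit 86037) (nat_lit 0) .nil) .nil)))) (.nd (nat_lit 9) 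
(.lf (nat_lit 470417) (.g (nat_lit 3781) (.e (nat_lit 3309) (nat_lit 202) (.e (nat_lit 573485) (nat_lit 13) (.e (nat_lit 65619) (nat_lit 10) (.e (nat_lit 344117) (nat_lit 21) (.e (nat_lit 516185) (nat_lit 16) (.e (nat_lit 491546) (nat_lit 9) (.e (nat_lit 336240) (nat_lit 15) .nil))))))) (.g (nat_lit 1) (.e (nat_lit 85451) (nat_lit 0) .nil) .nil))) 
(.lf (nat_lit 470929) (.g (nat_lit 2699) (.e (nat_lit 3397) (nat_lit 211) (.e (nat_lit 647183) (nat_lit 4) (.e (nat_lit 172126) (nat_lit 14) (.e (nat_lit 491549) (nat_lit 9) (.e (nat_lit 336384) (nat_lit 27) .nil))))) (.g (nat_lit 0) (.e (nat_lit 86561) (nat_lit 0) .nil) .nil)))))) (.nd (nat_lit 7) (.nd (nat_lit 8) (.nd (nat_lit 9) 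
(.lf (nat_lit 470097) (.g (nat_lit 3100) (.e (nat_lit 3308) (nat_lit 202) (.e (nat_lit 573482) (nat_lit 13) (.e (nat_lit 65619) (nat_lit 10) (.e (nat_lit 344117) (nat_lit 21) (.e (nat_lit 516098) (nat_lit 0) (.e (nat_lit 7587) (nat_lit 406) (.e (nat_lit 73472) (nat_lit 15) .nil))))))) (.g (nat_lit 1) (.e (nat_lit 84397) (nat_lit 0) .nil) .nil))) 
(.lf (nat_lit 470609) (.g (nat_lit 2034) (.e (nat_lit 3289) (nat_lit 201) (.e (nat_lit 565269) (nat_lit 6) (.e (nat_lit 81938) (nat_lit 20) (.e (nat_lit 2391) (nat_lit 156) (.e (nat_lit 819221) (nat_lit 6) (.e (nat_lit 188438) (nat_lit 20) .nil)))))) (.g (nat_lit 1) (.e (nat_lit 85910) (nat_lit 0) .nil) .nil)))) (.nd (nat_lit 9) 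
(.lf (nat_lit 470353) (.g (nat_lit 2259) (.e (nat_lit 3309) (nat_lit 202) (.e (nat_lit 573477) (nat_lit 12) (.e (nat_lit 57575) (nat_lit 55) (.e (nat_lit 778465) (nat_lit 11) (.e (nat_lit 24604) (nat_lit 2) (.e (nat_lit 90178) (nat_lit 15) (.e (nat_lit 188432) (nat_lit 20) .nil))))))) (.g (nat_lit 1) (.e (nat_lit 85110) (nat_lit 0) .nil) .nil))) 
(.lf (nat_lit 470865) (.g (nat_lit 2147) (.e (nat_lit 3397) (nat_lit 211) (.e (nat_lit 647183) (nat_lit 4) (.e (nat_lit 172112) (nat_lit 10) (.e (nat_lit 434271) (nat_lit 38) (.e (nat_lit 655380) (nat_lit 6) (.e (nat_lit 188431) (nat_lit 20) .nil)))))) (.g (nat_lit 1) (.e (nat_lit 86494) (nat_lit 0) .nil) .nil))))) (.nd (nat_lit 8) (.nd (nat_lit 9) 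
(.lf (nat_lit 470225) (.g (nat_lit 4057) (.e (nat_lit 3308) (nat_lit 202) (.e (nat_lit 573492) (nat_lit 15) (.e (nat_lit 81956) (nat_lit 23) (.e (nat_lit 98389) (nat_lit 33) (.e (nat_lit 491549) (nat_lit 9) (.e (nat_lit 336306) (nat_lit 15) .nil)))))) (.g (nat_lit 1) (.e (nat_lit 84736) (nat_lit 0) .nil) .nil))) 
(.lf (nat_lit 470737) (.g (nat_lit 4777) (.e (nat_lit 3397) (nat_lit 211) (.e (nat_lit 647181) (nat_lit 3) (.e (nat_lit 163977) (nat_lit 30) (.e (nat_lit 573484) (nat_lit 13) (.e (nat_lit 65610) (nat_lit 10) (.e (nat_lit 344117) (nat_lit 21) (.e (nat_lit 516151) (nat_lit 9) (.e (nat_lit 426023) (nat_lit 0) .nil)))))))) (.g (nat_lit 1) (.e (nat_lit 86347) (nat_lit 0) .nil) .nil)))) 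
(.nd (nat_lit 9) 
(.lf (nat_lit 470481) (.g (nat_lit 5899) (.e (nat_lit 3311) (nat_lit 202) (.e (nat_lit 573493) (nat_lit 15) (.e (nat_lit 81956) (nat_lit 23) (.e (nat_lit 98388) (nat_lit 33) .nil)))) (.g (nat_lit 0) (.e (nat_lit 85662) (nat_lit 0) .nil) .nil))) 
(.lf (nat_lit 470993) (.g (nat_lit 3361) (.e (nat_lit 3399) (nat_lit 211) (.e (nat_lit 647180) (nat_lit 3) (.e (nat_lit 163979) (nat_lit 30) (.e (nat_lit 573493) (nat_lit 15) (.e (nat_lit 81956) (nat_lit 23) (.e (nat_lit 98359) (nat_lit 26) (.e (nat_lit 426023) (nat_lit 0) .nil))))))) (.g (nat_lit 1) (.e (nat_lit 86677) (nat_lit 0) .nil) .nil))))))) 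
(.nd (nat_lit 6) (.nd (nat_lit 7) (.nd (nat_lit 8) (.nd (nat_lit 9) 
(.lf (nat_lit 470065) (.g (nat_lit 1913) (.e (nat_lit 3308) (nat_lit 202) (.e (nat_lit 573482) (nat_lit 13) (.e (nat_lit 65604) (nat_lit 9) (.e (nat_lit 336028) (nat_lit 3) (.e (nat_lit 98325) (nat_lit 17) .nil))))) (.g (nat_lit 0) (.e (nat_lit 84360) (nat_lit 0) .nil) .nil))) 
(.lf (nat_lit 470577) (.g (nat_lit 991) (.e (nat_lit 3288) (nat_lit 201) (.e (nat_lit 565267) (nat_lit 4) (.e (nat_lit 65617) (nat_lit 10) (.e (nat_lit 344183) (nat_lit 49) (.e (nat_lit 819221) (nat_lit 6) .nil))))) (.g (nat_lit 0) (.e (nat_lit 85868) (nat_lit 0) .nil) .nil)))) (.nd (nat_lit 9) 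
(.lf (nat_lit 470321) (.g (nat_lit 2817) (.e (nat_lit 3308) (nat_lit 202) (.e (nat_lit 573493) (nat_lit 15) (.e (nat_lit 81956) (nat_lit 23) (.e (nat_lit 98366) (nat_lit 27) .nil)))) (.g (nat_lit 0) (.e (nat_lit 85055) (nat_lit 0) .nil) .nil))) 
(.lf (nat_lit 470833) (.g (nat_lit 1636) (.e (nat_lit 3397) (nat_lit 211) (.e (nat_lit 647183) (nat_lit 4) (.e (nat_lit 172081) (nat_lit 7) (.e (nat_lit 409642) (nat_lit 17) (.e (nat_lit 294974) (nat_lit 29) (.e (nat_lit 442398) (nat_lit 20) .nil)))))) (.g (nat_lit 1) (.e (nat_lit 86461) (nat_lit 0) .nil) .nil))))) (.nd (nat_lit 8) (.nd (nat_lit 9) 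
(.lf (nat_lit 470193) (.g (nat_lit 2046) (.e (nat_lit 3308) (nat_lit 202) (.e (nat_lit 573491) (nat_lit 15) (.e (nat_lit 81954) (nat_lit 23) (.e (nat_lit 98388) (nat_lit 33) (.e (nat_lit 491548) (nat_lit 9) (.e (nat_lit 336306) (nat_lit 15) .nil)))))) (.g (nat_lit 1) (.e (nat_lit 84694) (nat_lit 0) .nil) .nil))) 
(.lf (nat_lit 470705) (.g (nat_lit 2315) (.e (nat_lit 3421) (nat_lit 213) (.e (nat_lit 663583) (nat_lit 11) (.e (nat_lit 24608) (nat_lit 3) (.e (nat_lit 98373) (nat_lit 29) (.e (nat_lit 458496) (nat_lit 3) .nil))))) (.g (nat_lit 0) (.e (nat_lit 86287) (nat_lit 0) .nil) .nil)))) (.nd (nat_lit 9) 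
(.lf (nat_lit 470449) (.g (nat_lit 2143) (.e (nat_lit 3309) (nat_lit 202) (.e (nat_lit 573485) (nat_lit 13) (.e (nat_lit 65630) (nat_lit 14) (.e (nat_lit 401428) (nat_lit 3) (.e (nat_lit 204854) (nat_lit 26) (.e (nat_lit 336115) (nat_lit 9) (.e (nat_lit 343808) (nat_lit 15) .nil))))))) (.g (nat_lit 1) (.e (nat_lit 85493) (nat_lit 0) .nil) .nil))) 
(.lf (nat_lit 470961) (.g (nat_lit 1411) (.e (nat_lit 3397) (nat_lit 211) (.e (nat_lit 647185) (nat_lit 6) (.e (nat_lit 188440) (nat_lit 20) (.e (nat_lit 3408) (nat_lit 212) (.e (nat_lit 655380) (nat_lit 6) (.e (nat_lit 188430) (nat_lit 20) .nil)))))) (.g (nat_lit 1) (.e (nat_lit 86602) (nat_lit 0) .nil) .nil)))))) (.nd (nat_lit 7) (.nd (nat_lit 8) (.nd (nat_lit 9) 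
(.lf (nat_lit 470129) (.g (nat_lit 3311) (.e (nat_lit 3308) (nat_lit 202) (.e (nat_lit 573482) (nat_lit 13) (.e (nat_lit 65619) (nat_lit 10) (.e (nat_lit 344117) (nat_lit 21) (.e (nat_lit 516185) (nat_lit 16) (.e (nat_lit 491552) (nat_lit 9) (.e (nat_lit 343808) (nat_lit 15) .nil))))))) (.g (nat_lit 1) (.e (nat_lit 84429) (nat_lit 0) .nil) .nil))) 
(.lf (nat_lit 470641) (.g (nat_lit 6350) (.e (nat_lit 3366) (nat_lit 208) (.e (nat_lit 622627) (nat_lit 13) (.e (nat_lit 2663) (nat_lit 167) (.e (nat_lit 196666) (nat_lit 13) (.e (nat_lit 65610) (nat_lit 10) (.e (nat_lit 344117) (nat_lit 21) (.e (nat_lit 516151) (nat_lit 9) (.e (nat_lit 426038) (nat_lit 0) .nil)))))))) (.g (nat_lit 1) (.e (nat_lit 85962) (nat_lit 0) .nil) .nil)))) 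
(.nd (nat_lit 9) 
(.lf (nat_lit 470385) (.g (nat_lit 2243) (.e (nat_lit 3309) (nat_lit 202) (.e (nat_lit 573484) (nat_lit 13) (.e (nat_lit 65610) (nat_lit 10) (.e (nat_lit 344129) (nat_lit 26) (.e (nat_lit 557087) (nat_lit 11) (.e (nat_lit 24628) (nat_lit 9) (.e (nat_lit 343808) (nat_lit 15) .nil))))))) (.g (nat_lit 1) (.e (nat_lit 85269) (nat_lit 0) .nil) .nil))) 
(.lf (nat_lit 470897) (.g (nat_lit 2169) (.e (nat_lit 3397) (nat_lit 211) (.e (nat_lit 647183) (nat_lit 4) (.e (nat_lit 172120) (nat_lit 12) (.e (nat_lit 475198) (nat_lit 40) (.e (nat_lit 712448) (nat_lit 6) (.e (nat_lit 188431) (nat_lit 20) .nil)))))) (.g (nat_lit 1) (.e (nat_lit 86529) (nat_lit 0) .nil) .nil))))) (.nd (nat_lit 8) (.nd (nat_lit 9) 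
(.lf (nat_lit 470257) (.g (nat_lit 3927) (.e (nat_lit 3308) (nat_lit 202) (.e (nat_lit 573493) (nat_lit 15) (.e (nat_lit 81953) (nat_lit 22) (.e (nat_lit 90161) (nat_lit 12) .nil)))) (.g (nat_lit 0) (.e (nat_lit 84857) (nat_lit 0) .nil) .nil))) 
(.lf (nat_lit 470769) (.g (nat_lit 3318) (.e (nat_lit 3397) (nat_lit 211) (.e (nat_lit 647181) (nat_lit 3) (.e (nat_lit 163978) (nat_lit 30) (.e (nat_lit 573479) (nat_lit 13) (.e (nat_lit 65604) (nat_lit 9) (.e (nat_lit 336013) (nat_lit 2) (.e (nat_lit 90170) (nat_lit 13) (.e (nat_lit 172039) (nat_lit 0) .nil)))))))) (.g (nat_lit 1) (.e (nat_lit 86379) (nat_lit 0) .nil) .nil)))) (.nd (nat_lit 9) 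
(.lf (nat_lit 470513) (.g (nat_lit 2586) (.e (nat_lit 3276) (nat_lit 200) (.e (nat_lit 557105) (nat_lit 14) (.e (nat_lit 180252) (nat_lit 10) (.e (nat_lit 573481) (nat_lit 13) (.e (nat_lit 65568) (nat_lit 2) (.e (nat_lit 98048) (nat_lit 2) (.e (nat_lit 16386) (nat_lit 0) .nil))))))) (.g (nat_lit 1) (.e (nat_lit 85778) (nat_lit 0) .nil) .nil))) 
(.lf (nat_lit 471025) (.g (nat_lit 3816) (.e (nat_lit 3399) (nat_lit 211) (.e (nat_lit 647181) (nat_lit 3) (.e (nat_lit 163977) (nat_lit 30) (.e (nat_lit 573493) (nat_lit 15) (.e (nat_lit 81953) (nat_lit 22) (.e (nat_lit 90170) (nat_lit 13) (.e (nat_lit 172035) (nat_lit 0) .nil))))))) (.g (nat_lit 1) (.e (nat_lit 86710) (nat_lit 0) .nil) .nil))))))))) 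
(.nd (nat_lit 4) (.nd (nat_lit 5) (.nd (nat_lit 6) (.nd (nat_lit 7) (.nd (nat_lit 8) 
(.nd (nat_lit 9) 
(.lf (nat_lit 470025) (.g (nat_lit 3093) (.e (nat_lit 3308) (nat_lit 202) (.e (nat_lit 573475) (nat_lit 12) (.e (nat_lit 57574) (nat_lit 55) (.e (nat_lit 778465) (nat_lit 11) (.e (nat_lit 24604) (nat_lit 2) (.e (nat_lit 90178) (nat_lit 15) (.e (nat_lit 188442) (nat_lit 20) .nil))))))) (.g (nat_lit 1) (.e (nat_lit 84313) (nat_lit 0) .nil) .nil))) 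
(.lf (nat_lit 470537) (.g (nat_lit 2633) (.e (nat_lit 3278) (nat_lit 200) (.e (nat_lit 557105) (nat_lit 14) (.e (nat_lit 180252) (nat_lit 10) (.e (nat_lit 573482) (nat_lit 13) .nil)))) (.g (nat_lit 0) (.e (nat_lit 85803) (nat_lit 0) .nil) .nil)))) (.nd (nat_lit 9) 
(.lf (nat_lit 470281) (.g (nat_lit 3336) (.e (nat_lit 3308) (nat_lit 202) (.e (nat_lit 573493) (nat_lit 15) (.e (nat_lit 81954) (nat_lit 23) (.e (nat_lit 98387) (nat_lit 33) (.e (nat_lit 491550) (nat_lit 9) (.e (nat_lit 336306) (nat_lit 15) .nil)))))) (.g (nat_lit 1) (.e (nat_lit 84926) (nat_lit 0) .nil) .nil))) 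
(.lf (nat_lit 470793) (.g (nat_lit 4080) (.e (nat_lit 3397) (nat_lit 211) (.e (nat_lit 647181) (nat_lit 3) (.e (nat_lit 163979) (nat_lit 30) (.e (nat_lit 573482) (nat_lit 13) (.e (nat_lit 65604) (nat_lit 9) (.e (nat_lit 336028) (nat_lit 3) (.e (nat_lit 98359) (nat_lit 26) (.e (nat_lit 426022) (nat_lit 0) .nil)))))))) (.g (nat_lit 1) (.e (nat_lit 86404) (nat_lit 0) .nil) .nil))))) 
(.nd (nat_lit 8) (.nd (nat_lit 9) 
(.lf (nat_lit 470153) (.g (nat_lit 2234) (.e (nat_lit 3308) (nat_lit 202) (.e (nat_lit 573482) (nat_lit 13) (.e (nat_lit 65628) (nat_lit 14) (.e (nat_lit 401428) (nat_lit 3) (.e (nat_lit 204854) (nat_lit 26) (.e (nat_lit 336115) (nat_lit 9) (.e (nat_lit 343808) (nat_lit 15) .nil))))))) (.g (nat_lit 1) (.e (nat_lit 84454) (nat_lit 0) .nil) .nil))) 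
(.lf (nat_lit 470665) (.g (nat_lit 618) (.e (nat_lit 3390) (nat_lit 210) (.e (nat_lit 639007) (nat_lit 13) (.e (nat_lit 1586) (nat_lit 111) (.e (nat_lit 360448) (nat_lit 0) .nil)))) (.g (nat_lit 0) (.e (nat_lit 86024) (nat_lit 0) .nil) .nil)))) (.nd (nat_lit 9) 
(.lf (nat_lit 470409) (.g (nat_lit 2301) (.e (nat_lit 3309) (nat_lit 202) (.e (nat_lit 573485) (nat_lit 13) (.e (nat_lit 65619) (nat_lit 10) (.e (nat_lit 344117) (nat_lit 21) (.e (nat_lit 516097) (nat_lit 0) (.e (nat_lit 7604) (nat_lit 409) (.e (nat_lit 139008) (nat_lit 15) .nil))))))) (.g (nat_lit 1) (.e (nat_lit 85439) (nat_lit 0) .nil) .nil))) 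
(.lf (nat_lit 470921) (.g (nat_lit 2262) (.e (nat_lit 3397) (nat_lit 211) (.e (nat_lit 647183) (nat_lit 4) (.e (nat_lit 172124) (nat_lit 14) (.e (nat_lit 491571) (nat_lit 13) (.e (nat_lit 401152) (nat_lit 23) .nil))))) (.g (nat_lit 0) (.e (nat_lit 86553) (nat_lit 0) .nil) .nil)))))) (.nd (nat_lit 7) (.nd (nat_lit 8) (.nd (nat_lit 9) 
(.lf (nat_lit 470089) (.g (nat_lit 2515) (.e (nat_lit 3308) (nat_lit 202) (.e (nat_lit 573482) (nat_lit 13) (.e (nat_lit 65619) (nat_lit 10) (.e (nat_lit 344115) (nat_lit 20) (.e (nat_lit 507908) (nat_lit 0) (.e (nat_lit 5403) (nat_lit 302) (.e (nat_lit 73472) (nat_lit 15) .nil))))))) (.g (nat_lit 1) (.e (nat_lit 84387) (nat_lit 0) .nil) .nil))) 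
(.lf (nat_lit 470601) (.g (nat_lit 1648) (.e (nat_lit 3289) (nat_lit 201) (.e (nat_lit 565267) (nat_lit 4) (.e (nat_lit 65619) (nat_lit 10) (.e (nat_lit 344183) (nat_lit 49) (.e (nat_lit 819221) (nat_lit 6) (.e (nat_lit 188434) (nat_lit 20) .nil)))))) (.g (nat_lit 1) (.e (nat_lit 85902) (nat_lit 0) .nil) .nil)))) (.nd (nat_lit 9) 
(.lf (nat_lit 470345) (.g (nat_lit 3271) (.e (nat_lit 3308) (nat_lit 202) (.e (nat_lit 573493) (nat_lit 15) (.e (nat_lit 81956) (nat_lit 23) (.e (nat_lit 98389) (nat_lit 33) (.e (nat_lit 491552) (nat_lit 9) (.e (nat_lit 343808) (nat_lit 15) .nil)))))) (.g (nat_lit 1) (.e (nat_lit 85083) (nat_lit 0) .nil) .nil))) 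
(.lf (nat_lit 470857) (.g (nat_lit 2526) (.e (nat_lit 3397) (nat_lit 211) (.e (nat_lit 647183) (nat_lit 4) (.e (nat_lit 172106) (nat_lit 10) (.e (nat_lit 434272) (nat_lit 38) (.e (nat_lit 655378) (nat_lit 4) (.e (nat_lit 172097) (nat_lit 9) (.e (nat_lit 426025) (nat_lit 0) .nil))))))) (.g (nat_lit 1) (.e (nat_lit 86486) (nat_lit 0) .nil) .nil))))) (.nd (nat_lit 8) (.nd (nat_lit 9) 
(.lf (nat_lit 470217) (.g (nat_lit 4066) (.e (nat_lit 3308) (nat_lit 202) (.e (nat_lit 573492) (nat_lit 15) (.e (nat_lit 81956) (nat_lit 23) (.e (nat_lit 98325) (nat_lit 17) .nil)))) (.g (nat_lit 0) (.e (nat_lit 84726) (nat_lit 0) .nil) .nil))) 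
(.lf (nat_lit 470729) (.g (nat_lit 4236) (.e (nat_lit 3397) (nat_lit 211) (.e (nat_lit 647181) (nat_lit 3) (.e (nat_lit 163977) (nat_lit 30) (.e (nat_lit 573482) (nat_lit 13) (.e (nat_lit 65619) (nat_lit 10) (.e (nat_lit 344117) (nat_lit 21) (.e (nat_lit 516143) (nat_lit 9) (.e (nat_lit 426025) (nat_lit 0) .nil)))))))) (.g (nat_lit 1) (.e (nat_lit 86339) (nat_lit 0) .nil) .nil)))) 
(.nd (nat_lit 9) 
(.lf (nat_lit 470473) (.g (nat_lit 4266) (.e (nat_lit 3309) (nat_lit 202) (.e (nat_lit 573493) (nat_lit 15) (.e (nat_lit 81956) (nat_lit 23) (.e (nat_lit 98389) (nat_lit 33) (.e (nat_lit 491546) (nat_lit 9) (.e (nat_lit 336258) (nat_lit 15) .nil)))))) (.g (nat_lit 1) (.e (nat_lit 85606) (nat_lit 0) .nil) .nil))) 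
(.lf (nat_lit 470985) (.g (nat_lit 3507) (.e (nat_lit 3399) (nat_lit 211) (.e (nat_lit 647180) (nat_lit 3) (.e (nat_lit 163978) (nat_lit 30) (.e (nat_lit 573485) (nat_lit 13) (.e (nat_lit 65604) (nat_lit 9) (.e (nat_lit 336028) (nat_lit 3) (.e (nat_lit 98359) (nat_lit 26) (.e (nat_lit 426023) (nat_lit 0) .nil)))))))) (.g (nat_lit 1) (.e (nat_lit 86667) (nat_lit 0) .nil) .nil))))))) 
(.nd (nat_lit 6) (.nd (nat_lit 7) (.nd (nat_lit 8) (.nd (nat_lit 9) 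
(.lf (nat_lit 470057) (.g (nat_lit 3538) (.e (nat_lit 3308) (nat_lit 202) (.e (nat_lit 573482) (nat_lit 13) (.e (nat_lit 65604) (nat_lit 9) (.e (nat_lit 336013) (nat_lit 2) (.e (nat_lit 90165) (nat_lit 12) (.e (nat_lit 164219) (nat_lit 180) (.e (nat_lit 229644) (nat_lit 232) (.e (nat_lit 78) (nat_lit 0) .nil)))))))) (.g (nat_lit 1) (.e (nat_lit 84352) (nat_lit 0) .nil) .nil))) 
(.lf (nat_lit 470569) (.g (nat_lit 1782) (.e (nat_lit 7936) (nat_lit 200) (.e (nat_lit 557105) (nat_lit 14) (.e (nat_lit 180251) (nat_lit 10) (.e (nat_lit 573485) (nat_lit 13) (.e (nat_lit 65568) (nat_lit 2) .nil))))) (.g (nat_lit 0) (.e (nat_lit 85859) (nat_lit 0) .nil) .nil)))) (.nd (nat_lit 9) 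
(.lf (nat_lit 470313) (.g (nat_lit 992) (.e (nat_lit 3308) (nat_lit 202) (.e (nat_lit 573493) (nat_lit 15) (.e (nat_lit 81956) (nat_lit 23) (.e (nat_lit 98350) (nat_lit 24) .nil)))) (.g (nat_lit 0) (.e (nat_lit 84981) (nat_lit 0) .nil) .nil))) 
(.lf (nat_lit 470825) (.g (nat_lit 1880) (.e (nat_lit 3397) (nat_lit 211) (.e (nat_lit 647183) (nat_lit 4) (.e (nat_lit 172079) (nat_lit 7) (.e (nat_lit 409642) (nat_lit 17) (.e (nat_lit 294974) (nat_lit 29) (.e (nat_lit 442398) (nat_lit 20) .nil)))))) (.g (nat_lit 1) (.e (nat_lit 86453) (nat_lit 0) .nil) .nil))))) (.nd (nat_lit 8) (.nd (nat_lit 9) 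
(.lf (nat_lit 470185) (.g (nat_lit 1785) (.e (nat_lit 3308) (nat_lit 202) (.e (nat_lit 573491) (nat_lit 15) (.e (nat_lit 81954) (nat_lit 23) (.e (nat_lit 98323) (nat_lit 17) (.e (nat_lit 6989) (nat_lit 377) (.e (nat_lit 2779) (nat_lit 178) (.e (nat_lit 294656) (nat_lit 15) .nil))))))) (.g (nat_lit 1) (.e (nat_lit 84673) (nat_lit 0) .nil) .nil))) 
(.lf (nat_lit 470697) (.g (nat_lit 2680) (.e (nat_lit 3393) (nat_lit 210) (.e (nat_lit 639020) (nat_lit 16) (.e (nat_lit 65571) (nat_lit 3) (.e (nat_lit 98374) (nat_lit 29) (.e (nat_lit 458496) (nat_lit 3) .nil))))) (.g (nat_lit 0) (.e (nat_lit 86270) (nat_lit 0) .nil) .nil)))) (.nd (nat_lit 9) 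
(.lf (nat_lit 470441) (.g (nat_lit 2352) (.e (nat_lit 3309) (nat_lit 202) (.e (nat_lit 573485) (nat_lit 13) (.e (nat_lit 65628) (nat_lit 14) (.e (nat_lit 401428) (nat_lit 3) (.e (nat_lit 204866) (nat_lit 28) (.e (nat_lit 360192) (nat_lit 0) .nil)))))) (.g (nat_lit 1) (.e (nat_lit 85484) (nat_lit 0) .nil) .nil))) 
(.lf (nat_lit 470953) (.g (nat_lit 1076) (.e (nat_lit 3397) (nat_lit 211) (.e (nat_lit 647185) (nat_lit 6) (.e (nat_lit 188435) (nat_lit 20) (.e (nat_lit 3408) (nat_lit 212) (.e (nat_lit 655380) (nat_lit 6) (.e (nat_lit 188430) (nat_lit 20) .nil)))))) (.g (nat_lit 1) (.e (nat_lit 86594) (nat_lit 0) .nil) .nil)))))) (.nd (nat_lit 7) (.nd (nat_lit 8) (.nd (nat_lit 9) 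
(.lf (nat_lit 470121) (.g (nat_lit 3757) (.e (nat_lit 3308) (nat_lit 202) (.e (nat_lit 573482) (nat_lit 13) (.e (nat_lit 65619) (nat_lit 10) (.e (nat_lit 344117) (nat_lit 21) (.e (nat_lit 516183) (nat_lit 16) (.e (nat_lit 491550) (nat_lit 9) (.e (nat_lit 336306) (nat_lit 15) .nil))))))) (.g (nat_lit 1) (.e (nat_lit 84421) (nat_lit 0) .nil) .nil))) 
(.lf (nat_lit 470633) (.g (nat_lit 2125) (.e (nat_lit 3338) (nat_lit 205) (.e (nat_lit 598065) (nat_lit 20) (.e (nat_lit 237590) (nat_lit 2) (.e (nat_lit 196672) (nat_lit 15) (.e (nat_lit 81954) (nat_lit 23) (.e (nat_lit 98325) (nat_lit 17) .nil)))))) (.g (nat_lit 1) (.e (nat_lit 85940) (nat_lit 0) .nil) .nil)))) (.nd (nat_lit 9) 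
(.lf (nat_lit 470377) (.g (nat_lit 3627) (.e (nat_lit 3309) (nat_lit 202) (.e (nat_lit 573484) (nat_lit 13) (.e (nat_lit 65610) (nat_lit 10) (.e (nat_lit 344129) (nat_lit 26) (.e (nat_lit 557087) (nat_lit 11) (.e (nat_lit 24623) (nat_lit 9) (.e (nat_lit 336240) (nat_lit 15) .nil))))))) (.g (nat_lit 1) (.e (nat_lit 85261) (nat_lit 0) .nil) .nil))) 
(.lf (nat_lit 470889) (.g (nat_lit 1517) (.e (nat_lit 3397) (nat_lit 211) (.e (nat_lit 647183) (nat_lit 4) (.e (nat_lit 172119) (nat_lit 12) (.e (nat_lit 475198) (nat_lit 40) (.e (nat_lit 712448) (nat_lit 6) .nil))))) (.g (nat_lit 0) (.e (nat_lit 86521) (nat_lit 0) .nil) .nil))))) (.nd (nat_lit 8) (.nd (nat_lit 9) 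
(.lf (nat_lit 470249) (.g (nat_lit 4824) (.e (nat_lit 3308) (nat_lit 202) (.e (nat_lit 573493) (nat_lit 15) (.e (nat_lit 81953) (nat_lit 22) (.e (nat_lit 90137) (nat_lit 9) .nil)))) (.g (nat_lit 0) (.e (nat_lit 84848) (nat_lit 0) .nil) .nil))) 
(.lf (nat_lit 470761) (.g (nat_lit 4531) (.e (nat_lit 3397) (nat_lit 211) (.e (nat_lit 647181) (nat_lit 3) (.e (nat_lit 163977) (nat_lit 30) (.e (nat_lit 573493) (nat_lit 15) (.e (nat_lit 81956) (nat_lit 23) (.e (nat_lit 98359) (nat_lit 26) (.e (nat_lit 426022) (nat_lit 0) .nil))))))) (.g (nat_lit 1) (.e (nat_lit 86371) (nat_lit 0) .nil) .nil)))) (.nd (nat_lit 9) 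
(.lf (nat_lit 470505) (.g (nat_lit 1799) (.e (nat_lit 3276) (nat_lit 200) (.e (nat_lit 557105) (nat_lit 14) (.e (nat_lit 180251) (nat_lit 10) (.e (nat_lit 573485) (nat_lit 13) (.e (nat_lit 65568) (nat_lit 2) (.e (nat_lit 98048) (nat_lit 2) (.e (nat_lit 16385) (nat_lit 0) .nil))))))) (.g (nat_lit 1) (.e (nat_lit 85770) (nat_lit 0) .nil) .nil))) 
(.lf (nat_lit 471017) (.g (nat_lit 3458) (.e (nat_lit 3399) (nat_lit 211) (.e (nat_lit 647181) (nat_lit 3) (.e (nat_lit 163977) (nat_lit 30) (.e (nat_lit 573491) (nat_lit 15) (.e (nat_lit 81951) (nat_lit 22) (.e (nat_lit 90170) (nat_lit 13) (.e (nat_lit 172035) (nat_lit 0) .nil))))))) (.g (nat_lit 1) (.e (nat_lit 86702) (nat_lit 0) .nil) .nil)))))))) 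
(.nd (nat_lit 5) (.nd (nat_lit 6) (.nd (nat_lit 7) (.nd (nat_lit 8) (.nd (nat_lit 9) 
(.lf (nat_lit 470041) (.g (nat_lit 2174) (.e (nat_lit 3308) (nat_lit 202) (.e (nat_lit 573480) (nat_lit 13) (.e (nat_lit 65630) (nat_lit 14) (.e (nat_lit 401428) (nat_lit 3) (.e (nat_lit 204866) (nat_lit 28) (.e (nat_lit 360192) (nat_lit 0) .nil)))))) (.g (nat_lit 1) (.e (nat_lit 84335) (nat_lit 0) .nil) .nil))) 
(.lf (nat_lit 470553) (.g (nat_lit 1706) (.e (nat_lit 3280) (nat_lit 200) (.e (nat_lit 557104) (nat_lit 14) (.e (nat_lit 180252) (nat_lit 10) (.e (nat_lit 573481) (nat_lit 13) .nil)))) (.g (nat_lit 0) (.e (nat_lit 85822) (nat_lit 0) .nil) .nil)))) (.nd (nat_lit 9) 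
(.lf (nat_lit 470297) (.g (nat_lit 2780) (.e (nat_lit 3308) (nat_lit 202) (.e (nat_lit 573493) (nat_lit 15) (.e (nat_lit 81956) (nat_lit 23) (.e (nat_lit 98323) (nat_lit 17) (.e (nat_lit 7936) (nat_lit 406) (.e (nat_lit 73472) (nat_lit 15) .nil)))))) (.g (nat_lit 1) (.e (nat_lit 84945) (nat_lit 0) .nil) .nil))) 
(.lf (nat_lit 470809) (.g (nat_lit 4056) (.e (nat_lit 3397) (nat_lit 211) (.e (nat_lit 647181) (nat_lit 3) (.e (nat_lit 163979) (nat_lit 30) (.e (nat_lit 573492) (nat_lit 15) (.e (nat_lit 81956) (nat_lit 23) (.e (nat_lit 98356) (nat_lit 26) (.e (nat_lit 433920) (nat_lit 0) .nil))))))) (.g (nat_lit 1) (.e (nat_lit 86421) (nat_lit 0) .nil) .nil))))) (.nd (nat_lit 8) (.nd (nat_lit 9) 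
(.lf (nat_lit 470169) (.g (nat_lit 2239) (.e (nat_lit 3308) (nat_lit 202) (.e (nat_lit 573482) (nat_lit 13) (.e (nat_lit 65630) (nat_lit 14) (.e (nat_lit 401428) (nat_lit 3) (.e (nat_lit 204877) (nat_lit 31) (.e (nat_lit 384768) (nat_lit 0) .nil)))))) (.g (nat_lit 1) (.e (nat_lit 84471) (nat_lit 0) .nil) .nil))) 
(.lf (nat_lit 470681) (.g (nat_lit 1872) (.e (nat_lit 3390) (nat_lit 210) (.e (nat_lit 639021) (nat_lit 16) (.e (nat_lit 65619) (nat_lit 10) (.e (nat_lit 344160) (nat_lit 37) (.e (nat_lit 647190) (nat_lit 9) (.e (nat_lit 7936) (nat_lit 34) (.e (nat_lit 442403) (nat_lit 20) .nil))))))) (.g (nat_lit 1) (.e (nat_lit 86142) (nat_lit 0) .nil) .nil)))) (.nd (nat_lit 9) 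
(.lf (nat_lit 470425) (.g (nat_lit 2097) (.e (nat_lit 3309) (nat_lit 202) (.e (nat_lit 573485) (nat_lit 13) (.e (nat_lit 65619) (nat_lit 10) (.e (nat_lit 344129) (nat_lit 26) (.e (nat_lit 557086) (nat_lit 11) (.e (nat_lit 24627) (nat_lit 9) (.e (nat_lit 336240) (nat_lit 15) .nil))))))) (.g (nat_lit 1) (.e (nat_lit 85467) (nat_lit 0) .nil) .nil))) 
(.lf (nat_lit 470937) (.g (nat_lit 2086) (.e (nat_lit 3397) (nat_lit 211) (.e (nat_lit 647183) (nat_lit 4) (.e (nat_lit 172126) (nat_lit 14) (.e (nat_lit 491569) (nat_lit 13) (.e (nat_lit 401152) (nat_lit 23) .nil))))) (.g (nat_lit 0) (.e (nat_lit 86569) (nat_lit 0) .nil) .nil)))))) (.nd (nat_lit 7) (.nd (nat_lit 8) (.nd (nat_lit 9) 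
(.lf (nat_lit 470105) (.g (nat_lit 2456) (.e (nat_lit 3308) (nat_lit 202) (.e (nat_lit 573482) (nat_lit 13) (.e (nat_lit 65619) (nat_lit 10) (.e (nat_lit 344117) (nat_lit 21) (.e (nat_lit 516106) (nat_lit 0) (.e (nat_lit 6966) (nat_lit 377) (.e (nat_lit 2779) (nat_lit 178) (.e (nat_lit 286765) (nat_lit 15) .nil)))))))) (.g (nat_lit 1) (.e (nat_lit 84405) (nat_lit 0) .nil) .nil))) 
(.lf (nat_lit 470617) (.g (nat_lit 1756) (.e (nat_lit 3289) (nat_lit 201) (.e (nat_lit 565269) (nat_lit 6) (.e (nat_lit 81942) (nat_lit 20) (.e (nat_lit 2391) (nat_lit 156) (.e (nat_lit 819221) (nat_lit 6) (.e (nat_lit 188434) (nat_lit 20) .nil)))))) (.g (nat_lit 1) (.e (nat_lit 85918) (nat_lit 0) .nil) .nil)))) (.nd (nat_lit 9) 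
(.lf (nat_lit 470361) (.g (nat_lit 2160) (.e (nat_lit 3309) (nat_lit 202) (.e (nat_lit 573484) (nat_lit 13) (.e (nat_lit 65610) (nat_lit 10) (.e (nat_lit 344117) (nat_lit 21) (.e (nat_lit 516183) (nat_lit 16) (.e (nat_lit 491548) (nat_lit 9) (.e (nat_lit 336240) (nat_lit 15) .nil))))))) (.g (nat_lit 1) (.e (nat_lit 85187) (nat_lit 0) .nil) .nil))) 
(.lf (nat_lit 470873) (.g (nat_lit 1980) (.e (nat_lit 3397) (nat_lit 211) (.e (nat_lit 647183) (nat_lit 4) (.e (nat_lit 172115) (nat_lit 10) (.e (nat_lit 434209) (nat_lit 18) (.e (nat_lit 5548) (nat_lit 306) (.e (nat_lit 2648) (nat_lit 166) (.e (nat_lit 188430) (nat_lit 20) .nil))))))) (.g (nat_lit 1) (.e (nat_lit 86505) (nat_lit 0) .nil) .nil))))) (.nd (nat_lit 8) (.nd (nat_lit 9) 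
(.lf (nat_lit 470233) (.g (nat_lit 3491) (.e (nat_lit 3308) (nat_lit 202) (.e (nat_lit 573493) (nat_lit 15) (.e (nat_lit 81951) (nat_lit 22) (.e (nat_lit 90133) (nat_lit 9) (.e (nat_lit 3105) (nat_lit 192) (.e (nat_lit 491550) (nat_lit 9) (.e (nat_lit 336306) (nat_lit 15) .nil))))))) (.g (nat_lit 1) (.e (nat_lit 84826) (nat_lit 0) .nil) .nil))) 
(.lf (nat_lit 470745) (.g (nat_lit 4178) (.e (nat_lit 3397) (nat_lit 211) (.e (nat_lit 647181) (nat_lit 3) (.e (nat_lit 163977) (nat_lit 30) (.e (nat_lit 573485) (nat_lit 13) (.e (nat_lit 65619) (nat_lit 10) (.e (nat_lit 344117) (nat_lit 21) (.e (nat_lit 516143) (nat_lit 9) (.e (nat_lit 426025) (nat_lit 0) .nil)))))))) (.g (nat_lit 1) (.e (nat_lit 86355) (nat_lit 0) .nil) .nil)))) 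
(.nd (nat_lit 9) 
(.lf (nat_lit 470489) (.g (nat_lit 1454) (.e (nat_lit 7936) (nat_lit 202) (.e (nat_lit 573485) (nat_lit 13) (.e (nat_lit 65628) (nat_lit 14) (.e (nat_lit 401428) (nat_lit 3) (.e (nat_lit 204876) (nat_lit 31) .nil))))) (.g (nat_lit 0) (.e (nat_lit 85706) (nat_lit 0) .nil) .nil))) 
(.lf (nat_lit 471001) (.g (nat_lit 4463) (.e (nat_lit 3399) (nat_lit 211) (.e (nat_lit 647181) (nat_lit 3) (.e (nat_lit 163977) (nat_lit 30) (.e (nat_lit 573482) (nat_lit 13) (.e (nat_lit 65619) (nat_lit 10) (.e (nat_lit 344117) (nat_lit 21) (.e (nat_lit 516151) (nat_lit 9) (.e (nat_lit 426003) (nat_lit 0) .nil)))))))) (.g (nat_lit 1) (.e (nat_lit 86685) (nat_lit 0) .nil) .nil))))))) 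
(.nd (nat_lit 6) (.nd (nat_lit 7) (.nd (nat_lit 8) (.nd (nat_lit 9) 
(.lf (nat_lit 470073) (.g (nat_lit 2151) (.e (nat_lit 3308) (nat_lit 202) (.e (nat_lit 573482) (nat_lit 13) (.e (nat_lit 65604) (nat_lit 9) (.e (nat_lit 336028) (nat_lit 3) (.e (nat_lit 98325) (nat_lit 17) (.e (nat_lit 7112) (nat_lit 381) (.e (nat_lit 229646) (nat_lit 232) (.e (nat_lit 27) (nat_lit 0) .nil)))))))) (.g (nat_lit 1) (.e (nat_lit 84368) (nat_lit 0) .nil) .nil))) 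
(.lf (nat_lit 470585) (.g (nat_lit 509) (.e (nat_lit 3288) (nat_lit 201) (.e (nat_lit 565269) (nat_lit 6) (.e (nat_lit 81942) (nat_lit 20) .nil))) (.g (nat_lit 0) (.e (nat_lit 85877) (nat_lit 0) .nil) .nil)))) (.nd (nat_lit 9) 
(.lf (nat_lit 470329) (.g (nat_lit 3810) (.e (nat_lit 3308) (nat_lit 202) (.e (nat_lit 573493) (nat_lit 15) (.e (nat_lit 81956) (nat_lit 23) (.e (nat_lit 98385) (nat_lit 32) .nil)))) (.g (nat_lit 0) (.e (nat_lit 85067) (nat_lit 0) .nil) .nil))) 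
(.lf (nat_lit 470841) (.g (nat_lit 2238) (.e (nat_lit 3397) (nat_lit 211) (.e (nat_lit 647183) (nat_lit 4) (.e (nat_lit 172094) (nat_lit 9) (.e (nat_lit 426025) (nat_lit 0) (.e (nat_lit 3399) (nat_lit 211) (.e (nat_lit 647183) (nat_lit 4) (.e (nat_lit 172097) (nat_lit 9) (.e (nat_lit 426025) (nat_lit 0) .nil)))))))) (.g (nat_lit 1) (.e (nat_lit 86469) (nat_lit 0) .nil) .nil))))) 
(.nd (nat_lit 8) (.nd (nat_lit 9) 
(.lf (nat_lit 470201) (.g (nat_lit 1838) (.e (nat_lit 3308) (nat_lit 202) (.e (nat_lit 573491) (nat_lit 15) (.e (nat_lit 81954) (nat_lit 23) (.e (nat_lit 98389) (nat_lit 33) (.e (nat_lit 491552) (nat_lit 9) (.e (nat_lit 343808) (nat_lit 15) .nil)))))) (.g (nat_lit 1) (.e (nat_lit 84702) (nat_lit 0) .nil) .nil))) 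
(.lf (nat_lit 470713) (.g (nat_lit 2535) (.e (nat_lit 3397) (nat_lit 211) (.e (nat_lit 647180) (nat_lit 3) (.e (nat_lit 163978) (nat_lit 30) (.e (nat_lit 573479) (nat_lit 13) (.e (nat_lit 65619) (nat_lit 10) (.e (nat_lit 344117) (nat_lit 21) (.e (nat_lit 516151) (nat_lit 9) (.e (nat_lit 426003) (nat_lit 0) .nil)))))))) (.g (nat_lit 1) (.e (nat_lit 86321) (nat_lit 0) .nil) .nil)))) 
(.nd (nat_lit 9) 
(.lf (nat_lit 470457) (.g (nat_lit 1443) (.e (nat_lit 3309) (nat_lit 202) (.e (nat_lit 573487) (nat_lit 14) (.e (nat_lit 81664) (nat_lit 35) (.e (nat_lit 163950) (nat_lit 21) (.e (nat_lit 507648) (nat_lit 20) (.e (nat_lit 89856) (nat_lit 0) .nil)))))) (.g (nat_lit 1) (.e (nat_lit 85511) (nat_lit 0) .nil) .nil))) 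
(.lf (nat_lit 470969) (.g (nat_lit 2593) (.e (nat_lit 3397) (nat_lit 211) (.e (nat_lit 647185) (nat_lit 6) (.e (nat_lit 188446) (nat_lit 21) (.e (nat_lit 164347) (nat_lit 240) (.e (nat_lit 2650) (nat_lit 166) (.e (nat_lit 188427) (nat_lit 20) .nil)))))) (.g (nat_lit 1) (.e (nat_lit 86612) (nat_lit 0) .nil) .nil)))))) (.nd (nat_lit 7) (.nd (nat_lit 8) (.nd (nat_lit 9) 
(.lf (nat_lit 470137) (.g (nat_lit 4375) (.e (nat_lit 3308) (nat_lit 202) (.e (nat_lit 573482) (nat_lit 13) (.e (nat_lit 65619) (nat_lit 10) (.e (nat_lit 344129) (nat_lit 26) (.e (nat_lit 557086) (nat_lit 11) (.e (nat_lit 24630) (nat_lit 9) (.e (nat_lit 336306) (nat_lit 15) .nil))))))) (.g (nat_lit 1) (.e (nat_lit 84438) (nat_lit 0) .nil) .nil))) 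
(.lf (nat_lit 470649) (.g (nat_lit 1949) (.e (nat_lit 3376) (nat_lit 209) (.e (nat_lit 630823) (nat_lit 18) (.e (nat_lit 81950) (nat_lit 21) (.e (nat_lit 57857) (nat_lit 254) (.e (nat_lit 163920) (nat_lit 14) (.e (nat_lit 442400) (nat_lit 20) .nil)))))) (.g (nat_lit 1) (.e (nat_lit 85973) (nat_lit 0) .nil) .nil)))) (.nd (nat_lit 9) 
(.lf (nat_lit 470393) (.g (nat_lit 491) (.e (nat_lit 3309) (nat_lit 202) (.e (nat_lit 573484) (nat_lit 13) (.e (nat_lit 65617) (nat_lit 10) .nil))) (.g (nat_lit 0) (.e (nat_lit 85277) (nat_lit 0) .nil) .nil))) 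
(.lf (nat_lit 470905) (.g (nat_lit 2200) (.e (nat_lit 3397) (nat_lit 211) (.e (nat_lit 647183) (nat_lit 4) (.e (nat_lit 172124) (nat_lit 14) (.e (nat_lit 491549) (nat_lit 9) (.e (nat_lit 336395) (nat_lit 27) (.e (nat_lit 426216) (nat_lit 9) (.e (nat_lit 426025) (nat_lit 0) .nil))))))) (.g (nat_lit 1) (.e (nat_lit 86537) (nat_lit 0) .nil) .nil))))) (.nd (nat_lit 8) (.nd (nat_lit 9) 
(.lf (nat_lit 470265) (.g (nat_lit 663) (.e (nat_lit 3308) (nat_lit 202) (.e (nat_lit 573493) (nat_lit 15) (.e (nat_lit 81954) (nat_lit 23) .nil))) (.g (nat_lit 0) (.e (nat_lit 84893) (nat_lit 0) .nil) .nil))) 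
(.lf (nat_lit 470777) (.g (nat_lit 5040) (.e (nat_lit 3397) (nat_lit 211) (.e (nat_lit 647181) (nat_lit 3) (.e (nat_lit 163978) (nat_lit 30) (.e (nat_lit 573484) (nat_lit 13) (.e (nat_lit 65610) (nat_lit 10) (.e (nat_lit 344117) (nat_lit 21) (.e (nat_lit 516151) (nat_lit 9) (.e (nat_lit 426025) (nat_lit 0) .nil)))))))) (.g (nat_lit 1) (.e (nat_lit 86387) (nat_lit 0) .nil) .nil)))) 
(.nd (nat_lit 9) 
(.lf (nat_lit 470521) (.g (nat_lit 2982) (.e (nat_lit 3277) (nat_lit 200) (.e (nat_lit 557104) (nat_lit 14) (.e (nat_lit 180252) (nat_lit 10) (.e (nat_lit 573482) (nat_lit 13) (.e (nat_lit 65568) (nat_lit 2) (.e (nat_lit 98048) (nat_lit 0) (.e (nat_lit 375) (nat_lit 32) (.e (nat_lit 426025) (nat_lit 0) .nil)))))))) (.g (nat_lit 1) (.e (nat_lit 85786) (nat_lit 0) .nil) .nil))) 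
(.lf (nat_lit 471033) (.g (nat_lit 5971) (.e (nat_lit 3399) (nat_lit 211) (.e (nat_lit 647181) (nat_lit 3) (.e (nat_lit 163977) (nat_lit 30) (.e (nat_lit 573493) (nat_lit 15) (.e (nat_lit 81956) (nat_lit 23) (.e (nat_lit 98362) (nat_lit 26) (.e (nat_lit 426025) (nat_lit 0) .nil))))))) (.g (nat_lit 1) (.e (nat_lit 86718) (nat_lit 0) .nil) .nil)))))))))) 
(.nd (nat_lit 3) (.nd (nat_lit 4) (.nd (nat_lit 5) (.nd (nat_lit 6) (.nd (nat_lit 7) 
(.nd (nat_lit 8) (.nd (nat_lit 9) 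
(.lf (nat_lit 470021) (.g (nat_lit 1989) (.e (nat_lit 3308) (nat_lit 202) (.e (nat_lit 573475) (nat_lit 12) (.e (nat_lit 57574) (nat_lit 55) (.e (nat_lit 778465) (nat_lit 11) (.e (nat_lit 24604) (nat_lit 2) .nil))))) (.g (nat_lit 0) (.e (nat_lit 84309) (nat_lit 0) .nil) .nil))) 
(.lf (nat_lit 470533) (.g (nat_lit 2219) (.e (nat_lit 3278) (nat_lit 200) (.e (nat_lit 557104) (nat_lit 14) (.e (nat_lit 180252) (nat_lit 10) (.e (nat_lit 573481) (nat_lit 13) (.e (nat_lit 65568) (nat_lit 2) .nil))))) (.g (nat_lit 0) (.e (nat_lit 85799) (nat_lit 0) .nil) .nil)))) (.nd (nat_lit 9) 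
(.lf (nat_lit 470277) (.g (nat_lit 4447) (.e (nat_lit 3308) (nat_lit 202) (.e (nat_lit 573493) (nat_lit 15) (.e (nat_lit 81954) (nat_lit 23) (.e (nat_lit 98384) (nat_lit 32) (.e (nat_lit 475207) (nat_lit 41) .nil))))) (.g (nat_lit 0) (.e (nat_lit 84922) (nat_lit 0) .nil) .nil))) 
(.lf (nat_lit 470789) (.g (nat_lit 4539) (.e (nat_lit 3397) (nat_lit 211) (.e (nat_lit 647181) (nat_lit 3) (.e (nat_lit 163978) (nat_lit 30) (.e (nat_lit 573485) (nat_lit 13) (.e (nat_lit 65619) (nat_lit 10) (.e (nat_lit 344117) (nat_lit 21) (.e (nat_lit 516151) (nat_lit 9) (.e (nat_lit 426023) (nat_lit 0) .nil)))))))) (.g (nat_lit 1) (.e (nat_lit 86399) (nat_lit 0) .nil) .nil))))) 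
(.nd (nat_lit 8) (.nd (nat_lit 9) 
(.lf (nat_lit 470149) (.g (nat_lit 2690) (.e (nat_lit 3308) (nat_lit 202) (.e (nat_lit 573482) (nat_lit 13) (.e (nat_lit 65628) (nat_lit 14) (.e (nat_lit 401425) (nat_lit 2) (.e (nat_lit 196681) (nat_lit 17) (.e (nat_lit 131105) (nat_lit 9) (.e (nat_lit 336306) (nat_lit 15) .nil))))))) (.g (nat_lit 1) (.e (nat_lit 84450) (nat_lit 0) .nil) .nil))) 
(.lf (nat_lit 470661) (.g (nat_lit 3001) (.e (nat_lit 3388) (nat_lit 210) (.e (nat_lit 639020) (nat_lit 16) (.e (nat_lit 65571) (nat_lit 3) (.e (nat_lit 98373) (nat_lit 29) (.e (nat_lit 450574) (nat_lit 1) .nil))))) (.g (nat_lit 0) (.e (nat_lit 85988) (nat_lit 0) .nil) .nil)))) (.nd (nat_lit 9) 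
(.lf (nat_lit 470405) (.g (nat_lit 2238) (.e (nat_lit 3309) (nat_lit 202) (.e (nat_lit 573485) (nat_lit 13) (.e (nat_lit 65604) (nat_lit 9) (.e (nat_lit 336013) (nat_lit 2) (.e (nat_lit 90170) (nat_lit 13) (.e (nat_lit 172070) (nat_lit 4) (.e (nat_lit 229680) (nat_lit 244) (.e (nat_lit 163841) (nat_lit 0) .nil)))))))) (.g (nat_lit 1) (.e (nat_lit 85419) (nat_lit 0) .nil) .nil))) 
(.lf (nat_lit 470917) (.g (nat_lit 3203) (.e (nat_lit 3397) (nat_lit 211) (.e (nat_lit 647183) (nat_lit 4) (.e (nat_lit 172124) (nat_lit 14) (.e (nat_lit 491571) (nat_lit 13) (.e (nat_lit 393274) (nat_lit 23) (.e (nat_lit 426025) (nat_lit 0) .nil)))))) (.g (nat_lit 1) (.e (nat_lit 86549) (nat_lit 0) .nil) .nil)))))) (.nd (nat_lit 7) (.nd (nat_lit 8) (.nd (nat_lit 9) 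
(.lf (nat_lit 470085) (.g (nat_lit 2342) (.e (nat_lit 3308) (nat_lit 202) (.e (nat_lit 573482) (nat_lit 13) (.e (nat_lit 65619) (nat_lit 10) (.e (nat_lit 344115) (nat_lit 20) (.e (nat_lit 507907) (nat_lit 0) (.e (nat_lit 5403) (nat_lit 302) (.e (nat_lit 73472) (nat_lit 15) .nil))))))) (.g (nat_lit 1) (.e (nat_lit 84383) (nat_lit 0) .nil) .nil))) 
(.lf (nat_lit 470597) (.g (nat_lit 1423) (.e (nat_lit 3289) (nat_lit 201) (.e (nat_lit 565267) (nat_lit 4) (.e (nat_lit 65611) (nat_lit 10) (.e (nat_lit 344183) (nat_lit 49) (.e (nat_lit 819221) (nat_lit 6) (.e (nat_lit 188434) (nat_lit 20) .nil)))))) (.g (nat_lit 1) (.e (nat_lit 85897) (nat_lit 0) .nil) .nil)))) (.nd (nat_lit 9) 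
(.lf (nat_lit 470341) (.g (nat_lit 3120) (.e (nat_lit 3308) (nat_lit 202) (.e (nat_lit 573493) (nat_lit 15) (.e (nat_lit 81956) (nat_lit 23) (.e (nat_lit 98389) (nat_lit 33) (.e (nat_lit 491546) (nat_lit 9) (.e (nat_lit 336261) (nat_lit 15) .nil)))))) (.g (nat_lit 1) (.e (nat_lit 85079) (nat_lit 0) .nil) .nil))) 
(.lf (nat_lit 470853) (.g (nat_lit 2348) (.e (nat_lit 3397) (nat_lit 211) (.e (nat_lit 647183) (nat_lit 4) (.e (nat_lit 172106) (nat_lit 10) (.e (nat_lit 434271) (nat_lit 38) (.e (nat_lit 655380) (nat_lit 6) (.e (nat_lit 188427) (nat_lit 20) .nil)))))) (.g (nat_lit 1) (.e (nat_lit 86482) (nat_lit 0) .nil) .nil))))) (.nd (nat_lit 8) (.nd (nat_lit 9) 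
(.lf (nat_lit 470213) (.g (nat_lit 1861) (.e (nat_lit 3308) (nat_lit 202) (.e (nat_lit 573492) (nat_lit 15) (.e (nat_lit 81956) (nat_lit 23) (.e (nat_lit 98320) (nat_lit 17) .nil)))) (.g (nat_lit 0) (.e (nat_lit 84721) (nat_lit 0) .nil) .nil))) 
(.lf (nat_lit 470725) (.g (nat_lit 4217) (.e (nat_lit 3397) (nat_lit 211) (.e (nat_lit 647181) (nat_lit 3) (.e (nat_lit 163977) (nat_lit 30) (.e (nat_lit 573482) (nat_lit 13) (.e (nat_lit 65604) (nat_lit 9) (.e (nat_lit 336028) (nat_lit 3) (.e (nat_lit 98359) (nat_lit 26) (.e (nat_lit 426022) (nat_lit 0) .nil)))))))) (.g (nat_lit 1) (.e (nat_lit 86335) (nat_lit 0) .nil) .nil)))) (.nd (nat_lit 9) 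
(.lf (nat_lit 470469) (.g (nat_lit 4861) (.e (nat_lit 3309) (nat_lit 202) (.e (nat_lit 573492) (nat_lit 15) (.e (nat_lit 81956) (nat_lit 23) (.e (nat_lit 98389) (nat_lit 33) (.e (nat_lit 491556) (nat_lit 9) (.e (nat_lit 336239) (nat_lit 15) .nil)))))) (.g (nat_lit 1) (.e (nat_lit 85582) (nat_lit 0) .nil) .nil))) 
(.lf (nat_lit 470981) (.g (nat_lit 2341) (.e (nat_lit 3399) (nat_lit 211) (.e (nat_lit 647180) (nat_lit 3) (.e (nat_lit 163978) (nat_lit 30) (.e (nat_lit 573479) (nat_lit 13) (.e (nat_lit 65619) (nat_lit 10) .nil))))) (.g (nat_lit 0) (.e (nat_lit 86663) (nat_lit 0) .nil) .nil))))))) (.nd (nat_lit 6) (.nd (nat_lit 7) (.nd (nat_lit 8) (.nd (nat_lit 9) 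
(.lf (nat_lit 470053) (.g (nat_lit 3840) (.e (nat_lit 3308) (nat_lit 202) (.e (nat_lit 573482) (nat_lit 13) (.e (nat_lit 65604) (nat_lit 9) (.e (nat_lit 336013) (nat_lit 2) (.e (nat_lit 90165) (nat_lit 12) (.e (nat_lit 164210) (nat_lit 176) (.e (nat_lit 2789) (nat_lit 179) (.e (nat_lit 294966) (nat_lit 15) .nil)))))))) (.g (nat_lit 1) (.e (nat_lit 84348) (nat_lit 0) .nil) .nil))) 
(.lf (nat_lit 470565) (.g (nat_lit 451) (.e (nat_lit 7936) (nat_lit 200) (.e (nat_lit 557065) (nat_lit 9) (.e (nat_lit 3052) (nat_lit 189) .nil))) (.g (nat_lit 0) (.e (nat_lit 85849) (nat_lit 0) .nil) .nil)))) (.nd (nat_lit 9) 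
(.lf (nat_lit 470309) (.g (nat_lit 4507) (.e (nat_lit 3308) (nat_lit 202) (.e (nat_lit 573493) (nat_lit 15) (.e (nat_lit 81956) (nat_lit 23) (.e (nat_lit 98331) (nat_lit 17) .nil)))) (.g (nat_lit 0) (.e (nat_lit 84974) (nat_lit 0) .nil) .nil))) 
(.lf (nat_lit 470821) (.g (nat_lit 1231) (.e (nat_lit 3397) (nat_lit 211) (.e (nat_lit 647183) (nat_lit 4) (.e (nat_lit 172038) (nat_lit 0) (.e (nat_lit 6989) (nat_lit 377) (.e (nat_lit 2779) (nat_lit 178) (.e (nat_lit 286771) (nat_lit 29) (.e (nat_lit 442399) (nat_lit 20) .nil))))))) (.g (nat_lit 1) (.e (nat_lit 86449) (nat_lit 0) .nil) .nil))))) (.nd (nat_lit 8) (.nd (nat_lit 9) 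
(.lf (nat_lit 470181) (.g (nat_lit 1121) (.e (nat_lit 3308) (nat_lit 202) (.e (nat_lit 573491) (nat_lit 15) (.e (nat_lit 81947) (nat_lit 20) (.e (nat_lit 1841) (nat_lit 123) (.e (nat_lit 548874) (nat_lit 5) .nil))))) (.g (nat_lit 0) (.e (nat_lit 84648) (nat_lit 0) .nil) .nil))) 
(.lf (nat_lit 470693) (.g (nat_lit 1048) (.e (nat_lit 3391) (nat_lit 210) (.e (nat_lit 639023) (nat_lit 18) (.e (nat_lit 81938) (nat_lit 20) (.e (nat_lit 1963) (nat_lit 134) (.e (nat_lit 639001) (nat_lit 10) (.e (nat_lit 188438) (nat_lit 20) .nil)))))) (.g (nat_lit 1) (.e (nat_lit 86250) (nat_lit 0) .nil) .nil)))) (.nd (nat_lit 9) 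
(.lf (nat_lit 470437) (.g (nat_lit 3086) (.e (nat_lit 3309) (nat_lit 202) (.e (nat_lit 573485) (nat_lit 13) (.e (nat_lit 65628) (nat_lit 14) (.e (nat_lit 401425) (nat_lit 2) (.e (nat_lit 196681) (nat_lit 17) (.e (nat_lit 131105) (nat_lit 9) (.e (nat_lit 336240) (nat_lit 15) .nil))))))) (.g (nat_lit 1) (.e (nat_lit 85480) (nat_lit 0) .nil) .nil))) 
(.lf (nat_lit 470949) (.g (nat_lit 1389) (.e (nat_lit 3397) (nat_lit 211) (.e (nat_lit 647185) (nat_lit 6) (.e (nat_lit 188418) (nat_lit 0) (.e (nat_lit 2057) (nat_lit 142) (.e (nat_lit 704598) (nat_lit 6) (.e (nat_lit 188431) (nat_lit 20) .nil)))))) (.g (nat_lit 1) (.e (nat_lit 86587) (nat_lit 0) .nil) .nil)))))) (.nd (nat_lit 7) (.nd (nat_lit 8) (.nd (nat_lit 9) 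
(.lf (nat_lit 470117) (.g (nat_lit 2511) (.e (nat_lit 3308) (nat_lit 202) (.e (nat_lit 573482) (nat_lit 13) (.e (nat_lit 65619) (nat_lit 10) (.e (nat_lit 344117) (nat_lit 21) (.e (nat_lit 516144) (nat_lit 9) (.e (nat_lit 426364) (nat_lit 15) (.e (nat_lit 2160) (nat_lit 143) (.e (nat_lit 712720) (nat_lit 15) .nil)))))))) (.g (nat_lit 1) (.e (nat_lit 84417) (nat_lit 0) .nil) .nil))) 
(.lf (nat_lit 470629) (.g (nat_lit 1153) (.e (nat_lit 3289) (nat_lit 201) (.e (nat_lit 565269) (nat_lit 6) (.e (nat_lit 81959) (nat_lit 24) (.e (nat_lit 130816) (nat_lit 164) .nil)))) (.g (nat_lit 0) (.e (nat_lit 85933) (nat_lit 0) .nil) .nil)))) (.nd (nat_lit 9) 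
(.lf (nat_lit 470373) (.g (nat_lit 3454) (.e (nat_lit 3309) (nat_lit 202) (.e (nat_lit 573484) (nat_lit 13) (.e (nat_lit 65610) (nat_lit 10) (.e (nat_lit 344129) (nat_lit 26) (.e (nat_lit 557085) (nat_lit 11) (.e (nat_lit 24627) (nat_lit 9) (.e (nat_lit 336240) (nat_lit 15) .nil))))))) (.g (nat_lit 1) (.e (nat_lit 85257) (nat_lit 0) .nil) .nil))) 
(.lf (nat_lit 470885) (.g (nat_lit 2272) (.e (nat_lit 3397) (nat_lit 211) (.e (nat_lit 647183) (nat_lit 4) (.e (nat_lit 172118) (nat_lit 12) (.e (nat_lit 475199) (nat_lit 40) (.e (nat_lit 704598) (nat_lit 6) (.e (nat_lit 188427) (nat_lit 20) .nil)))))) (.g (nat_lit 1) (.e (nat_lit 86517) (nat_lit 0) .nil) .nil))))) (.nd (nat_lit 8) (.nd (nat_lit 9) 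
(.lf (nat_lit 470245) (.g (nat_lit 2494) (.e (nat_lit 3308) (nat_lit 202) (.e (nat_lit 573493) (nat_lit 15) (.e (nat_lit 81953) (nat_lit 22) (.e (nat_lit 90134) (nat_lit 9) (.e (nat_lit 3096) (nat_lit 192) .nil))))) (.g (nat_lit 0) (.e (nat_lit 84844) (nat_lit 0) .nil) .nil))) 
(.lf (nat_lit 470757) (.g (nat_lit 4454) (.e (nat_lit 3397) (nat_lit 211) (.e (nat_lit 647181) (nat_lit 3) (.e (nat_lit 163977) (nat_lit 30) (.e (nat_lit 573492) (nat_lit 15) (.e (nat_lit 81956) (nat_lit 23) (.e (nat_lit 98360) (nat_lit 26) (.e (nat_lit 426025) (nat_lit 0) .nil))))))) (.g (nat_lit 1) (.e (nat_lit 86367) (nat_lit 0) .nil) .nil)))) (.nd (nat_lit 9) 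
(.lf (nat_lit 470501) (.g (nat_lit 487) (.e (nat_lit 3276) (nat_lit 200) (.e (nat_lit 557105) (nat_lit 14) (.e (nat_lit 180251) (nat_lit 10) .nil))) (.g (nat_lit 0) (.e (nat_lit 85766) (nat_lit 0) .nil) .nil))) 
(.lf (nat_lit 471013) (.g (nat_lit 4375) (.e (nat_lit 3399) (nat_lit 211) (.e (nat_lit 647181) (nat_lit 3) (.e (nat_lit 163977) (nat_lit 30) (.e (nat_lit 573485) (nat_lit 13) (.e (nat_lit 65619) (nat_lit 10) (.e (nat_lit 344117) (nat_lit 21) (.e (nat_lit 516151) (nat_lit 9) (.e (nat_lit 426003) (nat_lit 0) .nil)))))))) (.g (nat_lit 1) (.e (nat_lit 86697) (nat_lit 0) .nil) .nil)))))))) 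
(.nd (nat_lit 5) (.nd (nat_lit 6) (.nd (nat_lit 7) (.nd (nat_lit 8) (.nd (nat_lit 9) 
(.lf (nat_lit 470037) (.g (nat_lit 2467) (.e (nat_lit 3308) (nat_lit 202) (.e (nat_lit 573477) (nat_lit 12) (.e (nat_lit 57574) (nat_lit 55) (.e (nat_lit 778466) (nat_lit 11) (.e (nat_lit 24604) (nat_lit 2) (.e (nat_lit 90178) (nat_lit 15) (.e (nat_lit 188442) (nat_lit 20) .nil))))))) (.g (nat_lit 1) (.e (nat_lit 84329) (nat_lit 0) .nil) .nil))) 
(.lf (nat_lit 470549) (.g (nat_lit 2583) (.e (nat_lit 3280) (nat_lit 200) (.e (nat_lit 557103) (nat_lit 14) (.e (nat_lit 180250) (nat_lit 10) (.e (nat_lit 573482) (nat_lit 13) (.e (nat_lit 65568) (nat_lit 2) (.e (nat_lit 98048) (nat_lit 2) (.e (nat_lit 16385) (nat_lit 0) .nil))))))) (.g (nat_lit 1) (.e (nat_lit 85818) (nat_lit 0) .nil) .nil)))) (.nd (nat_lit 9) 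
(.lf (nat_lit 470293) (.g (nat_lit 3373) (.e (nat_lit 3308) (nat_lit 202) (.e (nat_lit 573493) (nat_lit 15) (.e (nat_lit 81956) (nat_lit 23) (.e (nat_lit 98321) (nat_lit 17) (.e (nat_lit 7936) (nat_lit 406) (.e (nat_lit 73472) (nat_lit 15) .nil)))))) (.g (nat_lit 1) (.e (nat_lit 84940) (nat_lit 0) .nil) .nil))) 
(.lf (nat_lit 470805) (.g (nat_lit 3878) (.e (nat_lit 3397) (nat_lit 211) (.e (nat_lit 647181) (nat_lit 3) (.e (nat_lit 163979) (nat_lit 30) (.e (nat_lit 573491) (nat_lit 15) (.e (nat_lit 81954) (nat_lit 23) (.e (nat_lit 98359) (nat_lit 26) (.e (nat_lit 426025) (nat_lit 0) .nil))))))) (.g (nat_lit 1) (.e (nat_lit 86416) (nat_lit 0) .nil) .nil))))) (.nd (nat_lit 8) (.nd (nat_lit 9) 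
(.lf (nat_lit 470165) (.g (nat_lit 2142) (.e (nat_lit 3308) (nat_lit 202) (.e (nat_lit 573482) (nat_lit 13) (.e (nat_lit 65630) (nat_lit 14) (.e (nat_lit 401428) (nat_lit 3) (.e (nat_lit 204861) (nat_lit 26) (.e (nat_lit 336086) (nat_lit 9) (.e (nat_lit 336306) (nat_lit 15) .nil))))))) (.g (nat_lit 1) (.e (nat_lit 84467) (nat_lit 0) .nil) .nil))) 
(.lf (nat_lit 470677) (.g (nat_lit 996) (.e (nat_lit 3390) (nat_lit 210) (.e (nat_lit 639020) (nat_lit 16) (.e (nat_lit 65627) (nat_lit 13) (.e (nat_lit 393283) (nat_lit 24) .nil)))) (.g (nat_lit 0) (.e (nat_lit 86081) (nat_lit 0) .nil) .nil)))) (.nd (nat_lit 9) 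
(.lf (nat_lit 470421) (.g (nat_lit 2585) (.e (nat_lit 3309) (nat_lit 202) (.e (nat_lit 573485) (nat_lit 13) (.e (nat_lit 65619) (nat_lit 10) (.e (nat_lit 344117) (nat_lit 21) (.e (nat_lit 516185) (nat_lit 16) (.e (nat_lit 491556) (nat_lit 9) (.e (nat_lit 343808) (nat_lit 15) .nil))))))) (.g (nat_lit 1) (.e (nat_lit 85455) (nat_lit 0) .nil) .nil))) 
(.lf (nat_lit 470933) (.g (nat_lit 2411) (.e (nat_lit 3397) (nat_lit 211) (.e (nat_lit 647183) (nat_lit 4) (.e (nat_lit 172126) (nat_lit 14) (.e (nat_lit 491549) (nat_lit 9) (.e (nat_lit 336395) (nat_lit 27) (.e (nat_lit 426216) (nat_lit 9) (.e (nat_lit 426025) (nat_lit 0) .nil))))))) (.g (nat_lit 1) (.e (nat_lit 86565) (nat_lit 0) .nil) .nil)))))) 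
(.nd (nat_lit 7) (.nd (nat_lit 8) (.nd (nat_lit 9) 
(.lf (nat_lit 470101) (.g (nat_lit 2698) (.e (nat_lit 3308) (nat_lit 202) (.e (nat_lit 573482) (nat_lit 13) (.e (nat_lit 65619) (nat_lit 10) (.e (nat_lit 344117) (nat_lit 21) (.e (nat_lit 516102) (nat_lit 0) (.e (nat_lit 7107) (nat_lit 380) (.e (nat_lit 164338) (nat_lit 232) (.e (nat_lit 77) (nat_lit 0) .nil)))))))) (.g (nat_lit 1) (.e (nat_lit 84401) (nat_lit 0) .nil) .nil))) 
(.lf (nat_lit 470613) (.g (nat_lit 1337) (.e (nat_lit 3289) (nat_lit 201) (.e (nat_lit 565269) (nat_lit 6) (.e (nat_lit 81939) (nat_lit 20) (.e (nat_lit 2391) (nat_lit 156) (.e (nat_lit 819221) (nat_lit 6) (.e (nat_lit 188438) (nat_lit 20) .nil)))))) (.g (nat_lit 1) (.e (nat_lit 85914) (nat_lit 0) .nil) .nil)))) (.nd (nat_lit 9) 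
(.lf (nat_lit 470357) (.g (nat_lit 1062) (.e (nat_lit 3309) (nat_lit 202) (.e (nat_lit 573482) (nat_lit 13) (.e (nat_lit 65628) (nat_lit 14) .nil))) (.g (nat_lit 0) (.e (nat_lit 85115) (nat_lit 0) .nil) .nil))) 
(.lf (nat_lit 470869) (.g (nat_lit 2638) (.e (nat_lit 3397) (nat_lit 211) (.e (nat_lit 647183) (nat_lit 4) (.e (nat_lit 172113) (nat_lit 10) (.e (nat_lit 434271) (nat_lit 38) (.e (nat_lit 655380) (nat_lit 6) (.e (nat_lit 188431) (nat_lit 20) .nil)))))) (.g (nat_lit 1) (.e (nat_lit 86499) (nat_lit 0) .nil) .nil))))) (.nd (nat_lit 8) (.nd (nat_lit 9) 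
(.lf (nat_lit 470229) (.g (nat_lit 828) (.e (nat_lit 3308) (nat_lit 202) (.e (nat_lit 573493) (nat_lit 15) (.e (nat_lit 81922) (nat_lit 0) .nil))) (.g (nat_lit 0) (.e (nat_lit 84740) (nat_lit 0) .nil) .nil))) 
(.lf (nat_lit 470741) (.g (nat_lit 4172) (.e (nat_lit 3397) (nat_lit 211) (.e (nat_lit 647181) (nat_lit 3) (.e (nat_lit 163977) (nat_lit 30) (.e (nat_lit 573485) (nat_lit 13) (.e (nat_lit 65604) (nat_lit 9) (.e (nat_lit 336028) (nat_lit 3) (.e (nat_lit 98359) (nat_lit 26) (.e (nat_lit 426022) (nat_lit 0) .nil)))))))) (.g (nat_lit 1) (.e (nat_lit 86351) (nat_lit 0) .nil) .nil)))) (.nd (nat_lit 9) 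
(.lf (nat_lit 470485) (.g (nat_lit 589) (.e (nat_lit 7936) (nat_lit 202) (.e (nat_lit 573481) (nat_lit 13) (.e (nat_lit 65628) (nat_lit 14) .nil))) (.g (nat_lit 0) (.e (nat_lit 85699) (nat_lit 0) .nil) .nil))) 
(.lf (nat_lit 470997) (.g (nat_lit 3093) (.e (nat_lit 3399) (nat_lit 211) (.e (nat_lit 647181) (nat_lit 3) (.e (nat_lit 163977) (nat_lit 30) (.e (nat_lit 573482) (nat_lit 13) (.e (nat_lit 65604) (nat_lit 9) (.e (nat_lit 336028) (nat_lit 3) (.e (nat_lit 98354) (nat_lit 26) (.e (nat_lit 426025) (nat_lit 0) .nil)))))))) (.g (nat_lit 1) (.e (nat_lit 86681) (nat_lit 0) .nil) .nil))))))) 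
(.nd (nat_lit 6) (.nd (nat_lit 7) (.nd (nat_lit 8) (.nd (nat_lit 9) 
(.lf (nat_lit 470069) (.g (nat_lit 3512) (.e (nat_lit 3308) (nat_lit 202) (.e (nat_lit 573482) (nat_lit 13) (.e (nat_lit 65604) (nat_lit 9) (.e (nat_lit 336028) (nat_lit 3) (.e (nat_lit 98325) (nat_lit 17) (.e (nat_lit 7008) (nat_lit 377) (.e (nat_lit 2787) (nat_lit 179) (.e (nat_lit 294966) (nat_lit 15) .nil)))))))) (.g (nat_lit 1) (.e (nat_lit 84364) (nat_lit 0) .nil) .nil))) 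
(.lf (nat_lit 470581) (.g (nat_lit 1564) (.e (nat_lit 3288) (nat_lit 201) (.e (nat_lit 565269) (nat_lit 6) (.e (nat_lit 81938) (nat_lit 20) (.e (nat_lit 2390) (nat_lit 156) (.e (nat_lit 819221) (nat_lit 6) .nil))))) (.g (nat_lit 0) (.e (nat_lit 85873) (nat_lit 0) .nil) .nil)))) (.nd (nat_lit 9) 
(.lf (nat_lit 470325) (.g (nat_lit 4553) (.e (nat_lit 3308) (nat_lit 202) (.e (nat_lit 573493) (nat_lit 15) (.e (nat_lit 81956) (nat_lit 23) (.e (nat_lit 98384) (nat_lit 32) (.e (nat_lit 475207) (nat_lit 41) .nil))))) (.g (nat_lit 0) (.e (nat_lit 85063) (nat_lit 0) .nil) .nil))) 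
(.lf (nat_lit 470837) (.g (nat_lit 1500) (.e (nat_lit 3397) (nat_lit 211) (.e (nat_lit 647183) (nat_lit 4) (.e (nat_lit 172089) (nat_lit 9) (.e (nat_lit 426025) (nat_lit 0) (.e (nat_lit 3399) (nat_lit 211) (.e (nat_lit 647185) (nat_lit 6) (.e (nat_lit 188431) (nat_lit 20) .nil))))))) (.g (nat_lit 1) (.e (nat_lit 86465) (nat_lit 0) .nil) .nil))))) (.nd (nat_lit 8) (.nd (nat_lit 9) 
(.lf (nat_lit 470197) (.g (nat_lit 2139) (.e (nat_lit 3308) (nat_lit 202) (.e (nat_lit 573491) (nat_lit 15) (.e (nat_lit 81954) (nat_lit 23) (.e (nat_lit 98389) (nat_lit 33) (.e (nat_lit 491546) (nat_lit 9) (.e (nat_lit 336261) (nat_lit 15) .nil)))))) (.g (nat_lit 1) (.e (nat_lit 84698) (nat_lit 0) .nil) .nil))) 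
(.lf (nat_lit 470709) (.g (nat_lit 2320) (.e (nat_lit 7936) (nat_lit 213) (.e (nat_lit 663583) (nat_lit 11) (.e (nat_lit 24608) (nat_lit 3) (.e (nat_lit 98373) (nat_lit 29) (.e (nat_lit 458496) (nat_lit 3) .nil))))) (.g (nat_lit 0) (.e (nat_lit 86301) (nat_lit 0) .nil) .nil)))) (.nd (nat_lit 9) 
(.lf (nat_lit 470453) (.g (nat_lit 2255) (.e (nat_lit 3309) (nat_lit 202) (.e (nat_lit 573485) (nat_lit 13) (.e (nat_lit 65630) (nat_lit 14) (.e (nat_lit 401428) (nat_lit 3) (.e (nat_lit 204867) (nat_lit 28) (.e (nat_lit 360192) (nat_lit 0) .nil)))))) (.g (nat_lit 1) (.e (nat_lit 85497) (nat_lit 0) .nil) .nil))) 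
(.lf (nat_lit 470965) (.g (nat_lit 1977) (.e (nat_lit 3397) (nat_lit 211) (.e (nat_lit 647185) (nat_lit 6) (.e (nat_lit 188441) (nat_lit 20) (.e (nat_lit 3408) (nat_lit 212) (.e (nat_lit 655380) (nat_lit 6) (.e (nat_lit 188427) (nat_lit 20) .nil)))))) (.g (nat_lit 1) (.e (nat_lit 86606) (nat_lit 0) .nil) .nil)))))) (.nd (nat_lit 7) (.nd (nat_lit 8) (.nd (nat_lit 9) 
(.lf (nat_lit 470133) (.g (nat_lit 1061) (.e (nat_lit 3308) (nat_lit 202) (.e (nat_lit 573482) (nat_lit 13) (.e (nat_lit 65619) (nat_lit 10) (.e (nat_lit 344129) (nat_lit 26) .nil)))) (.g (nat_lit 0) (.e (nat_lit 84434) (nat_lit 0) .nil) .nil))) 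
(.lf (nat_lit 470645) (.g (nat_lit 4103) (.e (nat_lit 3366) (nat_lit 208) (.e (nat_lit 622627) (nat_lit 13) (.e (nat_lit 2666) (nat_lit 167) (.e (nat_lit 196666) (nat_lit 13) (.e (nat_lit 65610) (nat_lit 10) (.e (nat_lit 344117) (nat_lit 21) (.e (nat_lit 516151) (nat_lit 9) (.e (nat_lit 426042) (nat_lit 0) .nil)))))))) (.g (nat_lit 1) (.e (nat_lit 85966) (nat_lit 0) .nil) .nil)))) 
(.nd (nat_lit 9) 
(.lf (nat_lit 470389) (.g (nat_lit 2852) (.e (nat_lit 3309) (nat_lit 202) (.e (nat_lit 573484) (nat_lit 13) (.e (nat_lit 65610) (nat_lit 10) (.e (nat_lit 344129) (nat_lit 26) (.e (nat_lit 557087) (nat_lit 11) (.e (nat_lit 24636) (nat_lit 9) (.e (nat_lit 336237) (nat_lit 15) .nil))))))) (.g (nat_lit 1) (.e (nat_lit 85273) (nat_lit 0) .nil) .nil))) 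
(.lf (nat_lit 470901) (.g (nat_lit 2370) (.e (nat_lit 3397) (nat_lit 211) (.e (nat_lit 647183) (nat_lit 4) (.e (nat_lit 172124) (nat_lit 14) (.e (nat_lit 491548) (nat_lit 9) (.e (nat_lit 336430) (nat_lit 29) (.e (nat_lit 442399) (nat_lit 20) .nil)))))) (.g (nat_lit 1) (.e (nat_lit 86533) (nat_lit 0) .nil) .nil))))) (.nd (nat_lit 8) (.nd (nat_lit 9) 
(.lf (nat_lit 470261) (.g (nat_lit 1588) (.e (nat_lit 3308) (nat_lit 202) (.e (nat_lit 573493) (nat_lit 15) (.e (nat_lit 81953) (nat_lit 22) (.e (nat_lit 90165) (nat_lit 12) .nil)))) (.g (nat_lit 0) (.e (nat_lit 84861) (nat_lit 0) .nil) .nil))) 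
(.lf (nat_lit 470773) (.g (nat_lit 4985) (.e (nat_lit 3397) (nat_lit 211) (.e (nat_lit 647181) (nat_lit 3) (.e (nat_lit 163978) (nat_lit 30) (.e (nat_lit 573479) (nat_lit 13) (.e (nat_lit 65619) (nat_lit 10) (.e (nat_lit 344117) (nat_lit 21) (.e (nat_lit 516151) (nat_lit 9) (.e (nat_lit 426022) (nat_lit 0) .nil)))))))) (.g (nat_lit 1) (.e (nat_lit 86383) (nat_lit 0) .nil) .nil)))) 
(.nd (nat_lit 9) 
(.lf (nat_lit 470517) (.g (nat_lit 3182) (.e (nat_lit 3276) (nat_lit 200) (.e (nat_lit 557105) (nat_lit 14) (.e (nat_lit 180252) (nat_lit 10) (.e (nat_lit 573482) (nat_lit 13) (.e (nat_lit 65644) (nat_lit 22) (.e (nat_lit 245776) (nat_lit 4) (.e (nat_lit 172034) (nat_lit 0) .nil))))))) (.g (nat_lit 1) (.e (nat_lit 85782) (nat_lit 0) .nil) .nil))) 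
(.lf (nat_lit 471029) (.g (nat_lit 4614) (.e (nat_lit 3399) (nat_lit 211) (.e (nat_lit 647181) (nat_lit 3) (.e (nat_lit 163977) (nat_lit 30) (.e (nat_lit 573493) (nat_lit 15) (.e (nat_lit 81956) (nat_lit 23) (.e (nat_lit 98359) (nat_lit 26) (.e (nat_lit 426025) (nat_lit 0) .nil))))))) (.g (nat_lit 1) (.e (nat_lit 86714) (nat_lit 0) .nil) .nil))))))))) 
(.nd (nat_lit 4) (.nd (nat_lit 5) (.nd (nat_lit 6) (.nd (nat_lit 7) (.nd (nat_lit 8) 
(.nd (nat_lit 9) 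
(.lf (nat_lit 470029) (.g (nat_lit 3860) (.e (nat_lit 3308) (nat_lit 202) (.e (nat_lit 573475) (nat_lit 12) (.e (nat_lit 57574) (nat_lit 55) (.e (nat_lit 778466) (nat_lit 11) (.e (nat_lit 24604) (nat_lit 2) (.e (nat_lit 90176) (nat_lit 15) (.e (nat_lit 188424) (nat_lit 20) .nil))))))) (.g (nat_lit 1) (.e (nat_lit 84317) (nat_lit 0) .nil) .nil))) 
(.lf (nat_lit 470541) (.g (nat_lit 1923) (.e (nat_lit 3279) (nat_lit 200) (.e (nat_lit 557103) (nat_lit 14) (.e (nat_lit 180250) (nat_lit 10) (.e (nat_lit 573481) (nat_lit 13) (.e (nat_lit 65568) (nat_lit 2) .nil))))) (.g (nat_lit 0) (.e (nat_lit 85807) (nat_lit 0) .nil) .nil)))) (.nd (nat_lit 9) 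
(.lf (nat_lit 470285) (.g (nat_lit 3489) (.e (nat_lit 3308) (nat_lit 202) (.e (nat_lit 573493) (nat_lit 15) (.e (nat_lit 81954) (nat_lit 23) (.e (nat_lit 98389) (nat_lit 33) (.e (nat_lit 491549) (nat_lit 9) (.e (nat_lit 336306) (nat_lit 15) .nil)))))) (.g (nat_lit 1) (.e (nat_lit 84930) (nat_lit 0) .nil) .nil))) 
(.lf (nat_lit 470797) (.g (nat_lit 4607) (.e (nat_lit 3397) (nat_lit 211) (.e (nat_lit 647181) (nat_lit 3) (.e (nat_lit 163979) (nat_lit 30) (.e (nat_lit 573482) (nat_lit 13) (.e (nat_lit 65619) (nat_lit 10) (.e (nat_lit 344117) (nat_lit 21) (.e (nat_lit 516151) (nat_lit 9) (.e (nat_lit 426003) (nat_lit 0) .nil)))))))) (.g (nat_lit 1) (.e (nat_lit 86408) (nat_lit 0) .nil) .nil))))) 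
(.nd (nat_lit 8) (.nd (nat_lit 9) 
(.lf (nat_lit 470157) (.g (nat_lit 2436) (.e (nat_lit 3308) (nat_lit 202) (.e (nat_lit 573482) (nat_lit 13) (.e (nat_lit 65628) (nat_lit 14) (.e (nat_lit 401428) (nat_lit 3) (.e (nat_lit 204876) (nat_lit 31) (.e (nat_lit 384768) (nat_lit 0) .nil)))))) (.g (nat_lit 1) (.e (nat_lit 84458) (nat_lit 0) .nil) .nil))) 
(.lf (nat_lit 470669) (.g (nat_lit 2600) (.e (nat_lit 3390) (nat_lit 210) (.e (nat_lit 639020) (nat_lit 16) (.e (nat_lit 65571) (nat_lit 3) (.e (nat_lit 98370) (nat_lit 28) (.e (nat_lit 442396) (nat_lit 20) .nil))))) (.g (nat_lit 0) (.e (nat_lit 86033) (nat_lit 0) .nil) .nil)))) (.nd (nat_lit 9) 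
(.lf (nat_lit 470413) (.g (nat_lit 3554) (.e (nat_lit 3309) (nat_lit 202) (.e (nat_lit 573485) (nat_lit 13) (.e (nat_lit 65619) (nat_lit 10) (.e (nat_lit 344117) (nat_lit 21) (.e (nat_lit 516106) (nat_lit 0) (.e (nat_lit 6986) (nat_lit 377) (.e (nat_lit 2781) (nat_lit 178) (.e (nat_lit 294656) (nat_lit 15) .nil)))))))) (.g (nat_lit 1) (.e (nat_lit 85443) (nat_lit 0) .nil) .nil))) 
(.lf (nat_lit 470925) (.g (nat_lit 1575) (.e (nat_lit 3397) (nat_lit 211) (.e (nat_lit 647183) (nat_lit 4) (.e (nat_lit 172126) (nat_lit 14) (.e (nat_lit 491548) (nat_lit 9) (.e (nat_lit 336430) (nat_lit 29) (.e (nat_lit 442398) (nat_lit 20) .nil)))))) (.g (nat_lit 1) (.e (nat_lit 86557) (nat_lit 0) .nil) .nil)))))) (.nd (nat_lit 7) (.nd (nat_lit 8) (.nd (nat_lit 9) 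
(.lf (nat_lit 470093) (.g (nat_lit 1917) (.e (nat_lit 3308) (nat_lit 202) (.e (nat_lit 573482) (nat_lit 13) (.e (nat_lit 65619) (nat_lit 10) (.e (nat_lit 344117) (nat_lit 21) (.e (nat_lit 516097) (nat_lit 0) .nil))))) (.g (nat_lit 0) (.e (nat_lit 84392) (nat_lit 0) .nil) .nil))) 
(.lf (nat_lit 470605) (.g (nat_lit 1778) (.e (nat_lit 3289) (nat_lit 201) (.e (nat_lit 565269) (nat_lit 6) (.e (nat_lit 81938) (nat_lit 20) (.e (nat_lit 2390) (nat_lit 156) (.e (nat_lit 819221) (nat_lit 6) (.e (nat_lit 188438) (nat_lit 20) .nil)))))) (.g (nat_lit 1) (.e (nat_lit 85906) (nat_lit 0) .nil) .nil)))) (.nd (nat_lit 9) 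
(.lf (nat_lit 470349) (.g (nat_lit 1783) (.e (nat_lit 3308) (nat_lit 202) (.e (nat_lit 573493) (nat_lit 15) (.e (nat_lit 81959) (nat_lit 24) (.e (nat_lit 123042) (nat_lit 140) .nil)))) (.g (nat_lit 0) (.e (nat_lit 85088) (nat_lit 0) .nil) .nil))) 
(.lf (nat_lit 470861) (.g (nat_lit 2337) (.e (nat_lit 3397) (nat_lit 211) (.e (nat_lit 647183) (nat_lit 4) (.e (nat_lit 172107) (nat_lit 10) (.e (nat_lit 434271) (nat_lit 38) (.e (nat_lit 655380) (nat_lit 6) (.e (nat_lit 188431) (nat_lit 20) .nil)))))) (.g (nat_lit 1) (.e (nat_lit 86490) (nat_lit 0) .nil) .nil))))) (.nd (nat_lit 8) (.nd (nat_lit 9) 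
(.lf (nat_lit 470221) (.g (nat_lit 2165) (.e (nat_lit 3308) (nat_lit 202) (.e (nat_lit 573492) (nat_lit 15) (.e (nat_lit 81956) (nat_lit 23) (.e (nat_lit 98389) (nat_lit 33) .nil)))) (.g (nat_lit 0) (.e (nat_lit 84732) (nat_lit 0) .nil) .nil))) 
(.lf (nat_lit 470733) (.g (nat_lit 3706) (.e (nat_lit 3397) (nat_lit 211) (.e (nat_lit 647181) (nat_lit 3) (.e (nat_lit 163977) (nat_lit 30) (.e (nat_lit 573482) (nat_lit 13) (.e (nat_lit 65619) (nat_lit 10) (.e (nat_lit 344117) (nat_lit 21) (.e (nat_lit 516152) (nat_lit 9) (.e (nat_lit 426025) (nat_lit 0) .nil)))))))) (.g (nat_lit 1) (.e (nat_lit 86343) (nat_lit 0) .nil) .nil)))) 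
(.nd (nat_lit 9) 
(.lf (nat_lit 470477) (.g (nat_lit 964) (.e (nat_lit 3311) (nat_lit 202) (.e (nat_lit 573482) (nat_lit 13) (.e (nat_lit 65628) (nat_lit 14) .nil))) (.g (nat_lit 0) (.e (nat_lit 85641) (nat_lit 0) .nil) .nil))) 
(.lf (nat_lit 470989) (.g (nat_lit 3471) (.e (nat_lit 3399) (nat_lit 211) (.e (nat_lit 647180) (nat_lit 3) (.e (nat_lit 163979) (nat_lit 30) (.e (nat_lit 573482) (nat_lit 13) (.e (nat_lit 65604) (nat_lit 9) (.e (nat_lit 336028) (nat_lit 3) (.e (nat_lit 98359) (nat_lit 26) (.e (nat_lit 426023) (nat_lit 0) .nil)))))))) (.g (nat_lit 1) (.e (nat_lit 86671) (nat_lit 0) .nil) .nil))))))) 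
(.nd (nat_lit 6) (.nd (nat_lit 7) (.nd (nat_lit 8) (.nd (nat_lit 9) 
(.lf (nat_lit 470061) (.g (nat_lit 2201) (.e (nat_lit 3308) (nat_lit 202) (.e (nat_lit 573482) (nat_lit 13) (.e (nat_lit 65604) (nat_lit 9) (.e (nat_lit 336013) (nat_lit 2) (.e (nat_lit 90165) (nat_lit 12) (.e (nat_lit 164219) (nat_lit 180) (.e (nat_lit 229647) (nat_lit 232) (.e (nat_lit 7936) (nat_lit 0) .nil)))))))) (.g (nat_lit 1) (.e (nat_lit 84356) (nat_lit 0) .nil) .nil))) 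
(.lf (nat_lit 470573) (.g (nat_lit 304) (.e (nat_lit 3288) (nat_lit 201) (.e (nat_lit 565252) (nat_lit 0) (.e (nat_lit 1598) (nat_lit 111) (.e (nat_lit 360493) (nat_lit 27) .nil)))) (.g (nat_lit 0) (.e (nat_lit 85863) (nat_lit 0) .nil) .nil)))) (.nd (nat_lit 9) 
(.lf (nat_lit 470317) (.g (nat_lit 7744) (.e (nat_lit 3308) (nat_lit 202) (.e (nat_lit 573493) (nat_lit 15) (.e (nat_lit 81956) (nat_lit 23) (.e (nat_lit 98350) (nat_lit 24) (.e (nat_lit 409641) (nat_lit 17) (.e (nat_lit 294966) (nat_lit 15) .nil)))))) (.g (nat_lit 1) (.e (nat_lit 85020) (nat_lit 0) .nil) .nil))) 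
(.lf (nat_lit 470829) (.g (nat_lit 1407) (.e (nat_lit 3397) (nat_lit 211) (.e (nat_lit 647183) (nat_lit 4) (.e (nat_lit 172080) (nat_lit 7) (.e (nat_lit 409618) (nat_lit 10) (.e (nat_lit 5364) (nat_lit 298) .nil))))) (.g (nat_lit 0) (.e (nat_lit 86457) (nat_lit 0) .nil) .nil))))) (.nd (nat_lit 8) (.nd (nat_lit 9) 
(.lf (nat_lit 470189) (.g (nat_lit 1656) (.e (nat_lit 3308) (nat_lit 202) (.e (nat_lit 573491) (nat_lit 15) (.e (nat_lit 81954) (nat_lit 23) (.e (nat_lit 98325) (nat_lit 17) (.e (nat_lit 6986) (nat_lit 377) (.e (nat_lit 2779) (nat_lit 178) (.e (nat_lit 294656) (nat_lit 15) .nil))))))) (.g (nat_lit 1) (.e (nat_lit 84677) (nat_lit 0) .nil) .nil))) 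
(.lf (nat_lit 470701) (.g (nat_lit 2095) (.e (nat_lit 3417) (nat_lit 213) (.e (nat_lit 663583) (nat_lit 11) (.e (nat_lit 24608) (nat_lit 3) (.e (nat_lit 98372) (nat_lit 29) (.e (nat_lit 458496) (nat_lit 3) .nil))))) (.g (nat_lit 0) (.e (nat_lit 86278) (nat_lit 0) .nil) .nil)))) (.nd (nat_lit 9) 
(.lf (nat_lit 470445) (.g (nat_lit 2245) (.e (nat_lit 3309) (nat_lit 202) (.e (nat_lit 573485) (nat_lit 13) (.e (nat_lit 65628) (nat_lit 14) (.e (nat_lit 401428) (nat_lit 3) (.e (nat_lit 204877) (nat_lit 31) (.e (nat_lit 384768) (nat_lit 0) .nil)))))) (.g (nat_lit 1) (.e (nat_lit 85488) (nat_lit 0) .nil) .nil))) 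
(.lf (nat_lit 470957) (.g (nat_lit 1154) (.e (nat_lit 3397) (nat_lit 211) (.e (nat_lit 647185) (nat_lit 6) (.e (nat_lit 188439) (nat_lit 20) (.e (nat_lit 3407) (nat_lit 212) (.e (nat_lit 655380) (nat_lit 6) (.e (nat_lit 188430) (nat_lit 20) .nil)))))) (.g (nat_lit 1) (.e (nat_lit 86598) (nat_lit 0) .nil) .nil)))))) (.nd (nat_lit 7) (.nd (nat_lit 8) (.nd (nat_lit 9) 
(.lf (nat_lit 470125) (.g (nat_lit 3917) (.e (nat_lit 3308) (nat_lit 202) (.e (nat_lit 573482) (nat_lit 13) (.e (nat_lit 65619) (nat_lit 10) (.e (nat_lit 344117) (nat_lit 21) (.e (nat_lit 516184) (nat_lit 16) (.e (nat_lit 491550) (nat_lit 9) (.e (nat_lit 336306) (nat_lit 15) .nil))))))) (.g (nat_lit 1) (.e (nat_lit 84425) (nat_lit 0) .nil) .nil))) 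
(.lf (nat_lit 470637) (.g (nat_lit 4004) (.e (nat_lit 3342) (nat_lit 205) (.e (nat_lit 598065) (nat_lit 20) (.e (nat_lit 237589) (nat_lit 2) (.e (nat_lit 196666) (nat_lit 13) (.e (nat_lit 65610) (nat_lit 10) (.e (nat_lit 344117) (nat_lit 21) (.e (nat_lit 516099) (nat_lit 0) .nil))))))) (.g (nat_lit 1) (.e (nat_lit 85951) (nat_lit 0) .nil) .nil)))) (.nd (nat_lit 9) 
(.lf (nat_lit 470381) (.g (nat_lit 2311) (.e (nat_lit 3309) (nat_lit 202) (.e (nat_lit 573484) (nat_lit 13) (.e (nat_lit 65610) (nat_lit 10) (.e (nat_lit 344129) (nat_lit 26) (.e (nat_lit 557087) (nat_lit 11) (.e (nat_lit 24626) (nat_lit 9) (.e (nat_lit 336238) (nat_lit 15) .nil))))))) (.g (nat_lit 1) (.e (nat_lit 85265) (nat_lit 0) .nil) .nil))) 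
(.lf (nat_lit 470893) (.g (nat_lit 1463) (.e (nat_lit 3397) (nat_lit 211) (.e (nat_lit 647183) (nat_lit 4) (.e (nat_lit 172120) (nat_lit 12) (.e (nat_lit 475197) (nat_lit 40) (.e (nat_lit 712448) (nat_lit 6) .nil))))) (.g (nat_lit 0) (.e (nat_lit 86525) (nat_lit 0) .nil) .nil))))) (.nd (nat_lit 8) (.nd (nat_lit 9) 
(.lf (nat_lit 470253) (.g (nat_lit 4893) (.e (nat_lit 3308) (nat_lit 202) (.e (nat_lit 573493) (nat_lit 15) (.e (nat_lit 81953) (nat_lit 22) (.e (nat_lit 90147) (nat_lit 9) .nil)))) (.g (nat_lit 0) (.e (nat_lit 84852) (nat_lit 0) .nil) .nil))) 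
(.lf (nat_lit 470765) (.g (nat_lit 4473) (.e (nat_lit 3397) (nat_lit 211) (.e (nat_lit 647181) (nat_lit 3) (.e (nat_lit 163977) (nat_lit 30) (.e (nat_lit 573493) (nat_lit 15) (.e (nat_lit 81956) (nat_lit 23) (.e (nat_lit 106240) (nat_lit 26) (.e (nat_lit 426025) (nat_lit 0) .nil))))))) (.g (nat_lit 1) (.e (nat_lit 86375) (nat_lit 0) .nil) .nil)))) (.nd (nat_lit 9) 
(.lf (nat_lit 470509) (.g (nat_lit 2064) (.e (nat_lit 3276) (nat_lit 200) (.e (nat_lit 557105) (nat_lit 14) (.e (nat_lit 180252) (nat_lit 10) (.e (nat_lit 573480) (nat_lit 13) (.e (nat_lit 65568) (nat_lit 2) (.e (nat_lit 98048) (nat_lit 2) (.e (nat_lit 16385) (nat_lit 0) .nil))))))) (.g (nat_lit 1) (.e (nat_lit 85774) (nat_lit 0) .nil) .nil))) 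
(.lf (nat_lit 471021) (.g (nat_lit 3214) (.e (nat_lit 3399) (nat_lit 211) (.e (nat_lit 647181) (nat_lit 3) (.e (nat_lit 163977) (nat_lit 30) (.e (nat_lit 573491) (nat_lit 15) (.e (nat_lit 81954) (nat_lit 23) (.e (nat_lit 98359) (nat_lit 26) (.e (nat_lit 426023) (nat_lit 0) .nil))))))) (.g (nat_lit 1) (.e (nat_lit 86706) (nat_lit 0) .nil) .nil)))))))) 
(.nd (nat_lit 5) (.nd (nat_lit 6) (.nd (nat_lit 7) (.nd (nat_lit 8) (.nd (nat_lit 9) 
(.lf (nat_lit 470045) (.g (nat_lit 3846) (.e (nat_lit 3308) (nat_lit 202) (.e (nat_lit 573482) (nat_lit 13) (.e (nat_lit 65604) (nat_lit 9) (.e (nat_lit 336013) (nat_lit 2) (.e (nat_lit 90134) (nat_lit 9) (.e (nat_lit 3098) (nat_lit 192) (.e (nat_lit 491548) (nat_lit 9) (.e (nat_lit 336306) (nat_lit 15) .nil)))))))) (.g (nat_lit 1) (.e (nat_lit 84340) (nat_lit 0) .nil) .nil))) 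
(.lf (nat_lit 470557) (.g (nat_lit 3369) (.e (nat_lit 3280) (nat_lit 200) (.e (nat_lit 557108) (nat_lit 15) (.e (nat_lit 188452) (nat_lit 23) (.e (nat_lit 204846) (nat_lit 24) (.e (nat_lit 319533) (nat_lit 16) (.e (nat_lit 294656) (nat_lit 15) .nil)))))) (.g (nat_lit 1) (.e (nat_lit 85826) (nat_lit 0) .nil) .nil)))) (.nd (nat_lit 9) 
(.lf (nat_lit 470301) (.g (nat_lit 2787) (.e (nat_lit 3308) (nat_lit 202) (.e (nat_lit 573493) (nat_lit 15) (.e (nat_lit 81956) (nat_lit 23) (.e (nat_lit 98325) (nat_lit 17) (.e (nat_lit 6986) (nat_lit 377) (.e (nat_lit 2779) (nat_lit 178) (.e (nat_lit 294656) (nat_lit 15) .nil))))))) (.g (nat_lit 1) (.e (nat_lit 84949) (nat_lit 0) .nil) .nil))) 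
(.lf (nat_lit 470813) (.g (nat_lit 4027) (.e (nat_lit 3397) (nat_lit 211) (.e (nat_lit 647181) (nat_lit 3) (.e (nat_lit 163979) (nat_lit 30) (.e (nat_lit 573493) (nat_lit 15) (.e (nat_lit 81953) (nat_lit 22) (.e (nat_lit 90170) (nat_lit 13) (.e (nat_lit 172039) (nat_lit 0) .nil))))))) (.g (nat_lit 1) (.e (nat_lit 86425) (nat_lit 0) .nil) .nil))))) (.nd (nat_lit 8) (.nd (nat_lit 9) 
(.lf (nat_lit 470173) (.g (nat_lit 2772) (.e (nat_lit 3308) (nat_lit 202) (.e (nat_lit 573484) (nat_lit 13) (.e (nat_lit 65617) (nat_lit 10) (.e (nat_lit 344133) (nat_lit 26) (.e (nat_lit 557085) (nat_lit 11) (.e (nat_lit 24630) (nat_lit 9) (.e (nat_lit 336306) (nat_lit 15) .nil))))))) (.g (nat_lit 1) (.e (nat_lit 84481) (nat_lit 0) .nil) .nil))) 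
(.lf (nat_lit 470685) (.g (nat_lit 1828) (.e (nat_lit 3390) (nat_lit 210) (.e (nat_lit 639025) (nat_lit 20) (.e (nat_lit 131116) (nat_lit 9) (.e (nat_lit 335988) (nat_lit 1) (.e (nat_lit 57830) (nat_lit 250) (.e (nat_lit 7936) (nat_lit 166) (.e (nat_lit 188441) (nat_lit 20) .nil))))))) (.g (nat_lit 1) (.e (nat_lit 86153) (nat_lit 0) .nil) .nil)))) (.nd (nat_lit 9) 
(.lf (nat_lit 470429) (.g (nat_lit 3997) (.e (nat_lit 3309) (nat_lit 202) (.e (nat_lit 573485) (nat_lit 13) (.e (nat_lit 65619) (nat_lit 10) (.e (nat_lit 344129) (nat_lit 26) (.e (nat_lit 557087) (nat_lit 11) (.e (nat_lit 24627) (nat_lit 9) (.e (nat_lit 336240) (nat_lit 15) .nil))))))) (.g (nat_lit 1) (.e (nat_lit 85471) (nat_lit 0) .nil) .nil))) 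
(.lf (nat_lit 470941) (.g (nat_lit 2346) (.e (nat_lit 3397) (nat_lit 211) (.e (nat_lit 647183) (nat_lit 4) (.e (nat_lit 172126) (nat_lit 14) (.e (nat_lit 491570) (nat_lit 13) (.e (nat_lit 393276) (nat_lit 23) (.e (nat_lit 426025) (nat_lit 0) .nil)))))) (.g (nat_lit 1) (.e (nat_lit 86573) (nat_lit 0) .nil) .nil)))))) (.nd (nat_lit 7) (.nd (nat_lit 8) (.nd (nat_lit 9) 
(.lf (nat_lit 470109) (.g (nat_lit 3073) (.e (nat_lit 3308) (nat_lit 202) (.e (nat_lit 573482) (nat_lit 13) (.e (nat_lit 65619) (nat_lit 10) (.e (nat_lit 344117) (nat_lit 21) (.e (nat_lit 516106) (nat_lit 0) (.e (nat_lit 7112) (nat_lit 381) (.e (nat_lit 229647) (nat_lit 232) (.e (nat_lit 75) (nat_lit 0) .nil)))))))) (.g (nat_lit 1) (.e (nat_lit 84409) (nat_lit 0) .nil) .nil))) 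
(.lf (nat_lit 470621) (.g (nat_lit 1409) (.e (nat_lit 3289) (nat_lit 201) (.e (nat_lit 565269) (nat_lit 6) (.e (nat_lit 81943) (nat_lit 20) (.e (nat_lit 2390) (nat_lit 156) (.e (nat_lit 819221) (nat_lit 6) (.e (nat_lit 188438) (nat_lit 20) .nil)))))) (.g (nat_lit 1) (.e (nat_lit 85922) (nat_lit 0) .nil) .nil)))) (.nd (nat_lit 9) 
(.lf (nat_lit 470365) (.g (nat_lit 3732) (.e (nat_lit 3309) (nat_lit 202) (.e (nat_lit 573484) (nat_lit 13) (.e (nat_lit 65610) (nat_lit 10) (.e (nat_lit 344117) (nat_lit 21) (.e (nat_lit 516185) (nat_lit 16) (.e (nat_lit 491546) (nat_lit 9) (.e (nat_lit 336240) (nat_lit 15) .nil))))))) (.g (nat_lit 1) (.e (nat_lit 85191) (nat_lit 0) .nil) .nil))) 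
(.lf (nat_lit 470877) (.g (nat_lit 2212) (.e (nat_lit 3397) (nat_lit 211) (.e (nat_lit 647183) (nat_lit 4) (.e (nat_lit 172116) (nat_lit 10) (.e (nat_lit 434271) (nat_lit 38) (.e (nat_lit 655380) (nat_lit 6) (.e (nat_lit 188431) (nat_lit 20) .nil)))))) (.g (nat_lit 1) (.e (nat_lit 86509) (nat_lit 0) .nil) .nil))))) (.nd (nat_lit 8) (.nd (nat_lit 9) 
(.lf (nat_lit 470237) (.g (nat_lit 4982) (.e (nat_lit 3308) (nat_lit 202) (.e (nat_lit 573493) (nat_lit 15) (.e (nat_lit 81953) (nat_lit 22) (.e (nat_lit 90123) (nat_lit 9) .nil)))) (.g (nat_lit 0) (.e (nat_lit 84834) (nat_lit 0) .nil) .nil))) 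
(.lf (nat_lit 470749) (.g (nat_lit 3591) (.e (nat_lit 3397) (nat_lit 211) (.e (nat_lit 647181) (nat_lit 3) (.e (nat_lit 163977) (nat_lit 30) (.e (nat_lit 573485) (nat_lit 13) (.e (nat_lit 65619) (nat_lit 10) (.e (nat_lit 344117) (nat_lit 21) (.e (nat_lit 516152) (nat_lit 9) (.e (nat_lit 426025) (nat_lit 0) .nil)))))))) (.g (nat_lit 1) (.e (nat_lit 86359) (nat_lit 0) .nil) .nil)))) 
(.nd (nat_lit 9) 
(.lf (nat_lit 470493) (.g (nat_lit 1417) (.e (nat_lit 3275) (nat_lit 200) (.e (nat_lit 557103) (nat_lit 14) (.e (nat_lit 180250) (nat_lit 10) (.e (nat_lit 573481) (nat_lit 13) .nil)))) (.g (nat_lit 0) (.e (nat_lit 85757) (nat_lit 0) .nil) .nil))) 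
(.lf (nat_lit 471005) (.g (nat_lit 4445) (.e (nat_lit 3399) (nat_lit 211) (.e (nat_lit 647181) (nat_lit 3) (.e (nat_lit 163977) (nat_lit 30) (.e (nat_lit 573484) (nat_lit 13) (.e (nat_lit 65610) (nat_lit 10) (.e (nat_lit 344117) (nat_lit 21) (.e (nat_lit 516151) (nat_lit 9) (.e (nat_lit 426023) (nat_lit 0) .nil)))))))) (.g (nat_lit 1) (.e (nat_lit 86689) (nat_lit 0) .nil) .nil))))))) 
(.nd (nat_lit 6) (.nd (nat_lit 7) (.nd (nat_lit 8) (.nd (nat_lit 9) 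
(.lf (nat_lit 470077) (.g (nat_lit 3473) (.e (nat_lit 3308) (nat_lit 202) (.e (nat_lit 573482) (nat_lit 13) (.e (nat_lit 65604) (nat_lit 9) (.e (nat_lit 336028) (nat_lit 3) (.e (nat_lit 98387) (nat_lit 33) (.e (nat_lit 491550) (nat_lit 9) (.e (nat_lit 336306) (nat_lit 15) .nil))))))) (.g (nat_lit 1) (.e (nat_lit 84375) (nat_lit 0) .nil) .nil))) 
(.lf (nat_lit 470589) (.g (nat_lit 1531) (.e (nat_lit 3288) (nat_lit 201) (.e (nat_lit 565269) (nat_lit 6) (.e (nat_lit 81946) (nat_lit 20) (.e (nat_lit 2391) (nat_lit 156) (.e (nat_lit 819221) (nat_lit 6) .nil))))) (.g (nat_lit 0) (.e (nat_lit 85882) (nat_lit 0) .nil) .nil)))) (.nd (nat_lit 9) 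
(.lf (nat_lit 470333) (.g (nat_lit 1570) (.e (nat_lit 3308) (nat_lit 202) (.e (nat_lit 573493) (nat_lit 15) (.e (nat_lit 81956) (nat_lit 23) (.e (nat_lit 98387) (nat_lit 33) .nil)))) (.g (nat_lit 0) (.e (nat_lit 85071) (nat_lit 0) .nil) .nil))) 
(.lf (nat_lit 470845) (.g (nat_lit 1644) (.e (nat_lit 3397) (nat_lit 211) (.e (nat_lit 647183) (nat_lit 4) (.e (nat_lit 172097) (nat_lit 9) (.e (nat_lit 426025) (nat_lit 0) (.e (nat_lit 3399) (nat_lit 211) (.e (nat_lit 647183) (nat_lit 4) (.e (nat_lit 172097) (nat_lit 9) (.e (nat_lit 426025) (nat_lit 0) .nil)))))))) (.g (nat_lit 1) (.e (nat_lit 86473) (nat_lit 0) .nil) .nil))))) 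
(.nd (nat_lit 8) (.nd (nat_lit 9) 
(.lf (nat_lit 470205) (.g (nat_lit 3553) (.e (nat_lit 3308) (nat_lit 202) (.e (nat_lit 573491) (nat_lit 15) (.e (nat_lit 81956) (nat_lit 23) (.e (nat_lit 98388) (nat_lit 33) (.e (nat_lit 491550) (nat_lit 9) (.e (nat_lit 336306) (nat_lit 15) .nil)))))) (.g (nat_lit 1) (.e (nat_lit 84712) (nat_lit 0) .nil) .nil))) 
(.lf (nat_lit 470717) (.g (nat_lit 4064) (.e (nat_lit 3397) (nat_lit 211) (.e (nat_lit 647180) (nat_lit 3) (.e (nat_lit 163979) (nat_lit 30) (.e (nat_lit 573492) (nat_lit 15) (.e (nat_lit 81956) (nat_lit 23) (.e (nat_lit 106240) (nat_lit 26) (.e (nat_lit 426025) (nat_lit 0) .nil))))))) (.g (nat_lit 1) (.e (nat_lit 86326) (nat_lit 0) .nil) .nil)))) (.nd (nat_lit 9) 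
(.lf (nat_lit 470461) (.g (nat_lit 1858) (.e (nat_lit 3309) (nat_lit 202) (.e (nat_lit 573489) (nat_lit 14) (.e (nat_lit 73755) (nat_lit 8) (.e (nat_lit 557097) (nat_lit 13) .nil)))) (.g (nat_lit 0) (.e (nat_lit 85529) (nat_lit 0) .nil) .nil))) 
(.lf (nat_lit 470973) (.g (nat_lit 569) (.e (nat_lit 3397) (nat_lit 211) (.e (nat_lit 647185) (nat_lit 6) (.e (nat_lit 188454) (nat_lit 24) .nil))) (.g (nat_lit 0) (.e (nat_lit 86618) (nat_lit 0) .nil) .nil)))))) (.nd (nat_lit 7) (.nd (nat_lit 8) (.nd (nat_lit 9) 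
(.lf (nat_lit 470141) (.g (nat_lit 4533) (.e (nat_lit 3308) (nat_lit 202) (.e (nat_lit 573482) (nat_lit 13) (.e (nat_lit 65619) (nat_lit 10) (.e (nat_lit 344129) (nat_lit 26) (.e (nat_lit 557087) (nat_lit 11) (.e (nat_lit 24628) (nat_lit 9) (.e (nat_lit 336306) (nat_lit 15) .nil))))))) (.g (nat_lit 1) (.e (nat_lit 84442) (nat_lit 0) .nil) .nil))) 
(.lf (nat_lit 470653) (.g (nat_lit 3115) (.e (nat_lit 3386) (nat_lit 210) (.e (nat_lit 639020) (nat_lit 16) (.e (nat_lit 65571) (nat_lit 3) (.e (nat_lit 98372) (nat_lit 29) (.e (nat_lit 458496) (nat_lit 3) (.e (nat_lit 516097) (nat_lit 0) .nil)))))) (.g (nat_lit 1) (.e (nat_lit 85977) (nat_lit 0) .nil) .nil)))) (.nd (nat_lit 9) 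
(.lf (nat_lit 470397) (.g (nat_lit 1053) (.e (nat_lit 3309) (nat_lit 202) (.e (nat_lit 573484) (nat_lit 13) (.e (nat_lit 65617) (nat_lit 10) (.e (nat_lit 344133) (nat_lit 26) .nil)))) (.g (nat_lit 0) (.e (nat_lit 85345) (nat_lit 0) .nil) .nil))) 
(.lf (nat_lit 470909) (.g (nat_lit 2876) (.e (nat_lit 3397) (nat_lit 211) (.e (nat_lit 647183) (nat_lit 4) (.e (nat_lit 172124) (nat_lit 14) (.e (nat_lit 491569) (nat_lit 13) (.e (nat_lit 393277) (nat_lit 23) (.e (nat_lit 426025) (nat_lit 0) .nil)))))) (.g (nat_lit 1) (.e (nat_lit 86541) (nat_lit 0) .nil) .nil))))) (.nd (nat_lit 8) (.nd (nat_lit 9) 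
(.lf (nat_lit 470269) (.g (nat_lit 2061) (.e (nat_lit 3308) (nat_lit 202) (.e (nat_lit 573493) (nat_lit 15) (.e (nat_lit 81954) (nat_lit 23) (.e (nat_lit 98323) (nat_lit 17) .nil)))) (.g (nat_lit 0) (.e (nat_lit 84898) (nat_lit 0) .nil) .nil))) 
(.lf (nat_lit 470781) (.g (nat_lit 4184) (.e (nat_lit 3397) (nat_lit 211) (.e (nat_lit 647181) (nat_lit 3) (.e (nat_lit 163978) (nat_lit 30) (.e (nat_lit 573485) (nat_lit 13) (.e (nat_lit 65604) (nat_lit 9) (.e (nat_lit 336028) (nat_lit 3) (.e (nat_lit 98359) (nat_lit 26) (.e (nat_lit 426022) (nat_lit 0) .nil)))))))) (.g (nat_lit 1) (.e (nat_lit 86391) (nat_lit 0) .nil) .nil)))) (.nd (nat_lit 9) 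
(.lf (nat_lit 470525) (.g (nat_lit 2311) (.e (nat_lit 3277) (nat_lit 200) (.e (nat_lit 557105) (nat_lit 14) (.e (nat_lit 180252) (nat_lit 10) (.e (nat_lit 573480) (nat_lit 13) (.e (nat_lit 65568) (nat_lit 2) .nil))))) (.g (nat_lit 0) (.e (nat_lit 85790) (nat_lit 0) .nil) .nil))) 
(.lf (nat_lit 471037) (.g (nat_lit 3820) (.e (nat_lit 3399) (nat_lit 211) (.e (nat_lit 647181) (nat_lit 3) (.e (nat_lit 163978) (nat_lit 30) (.e (nat_lit 573485) (nat_lit 13) (.e (nat_lit 65604) (nat_lit 9) (.e (nat_lit 336028) (nat_lit 3) (.e (nat_lit 98359) (nat_lit 26) (.e (nat_lit 426022) (nat_lit 0) .nil)))))))) (.g (nat_lit 1) (.e (nat_lit 86722) (nat_lit 0) .nil) .nil))))))))))) 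
(.nd (nat_lit 2) (.nd (nat_lit 3) (.nd (nat_lit 4) (.nd (nat_lit 5) (.nd (nat_lit 6) 
(.nd (nat_lit 7) (.nd (nat_lit 8) (.nd (nat_lit 9) 
(.lf (nat_lit 470019) (.g (nat_lit 1037) (.e (nat_lit 3308) (nat_lit 202) (.e (nat_lit 573475) (nat_lit 12) (.e (nat_lit 57507) (nat_lit 39) (.e (nat_lit 655104) (nat_lit 0) .nil)))) (.g (nat_lit 0) (.e (nat_lit 84307) (nat_lit 0) .nil) .nil))) 
(.lf (nat_lit 470531) (.g (nat_lit 2394) (.e (nat_lit 3278) (nat_lit 200) (.e (nat_lit 557103) (nat_lit 14) (.e (nat_lit 180250) (nat_lit 10) (.e (nat_lit 573485) (nat_lit 13) (.e (nat_lit 65568) (nat_lit 2) .nil))))) (.g (nat_lit 0) (.e (nat_lit 85797) (nat_lit 0) .nil) .nil)))) (.nd (nat_lit 9) 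
(.lf (nat_lit 470275) (.g (nat_lit 3372) (.e (nat_lit 3308) (nat_lit 202) (.e (nat_lit 573493) (nat_lit 15) (.e (nat_lit 81954) (nat_lit 23) (.e (nat_lit 98350) (nat_lit 24) (.e (nat_lit 409642) (nat_lit 17) (.e (nat_lit 294966) (nat_lit 15) .nil)))))) (.g (nat_lit 1) (.e (nat_lit 84914) (nat_lit 0) .nil) .nil))) 
(.lf (nat_lit 470787) (.g (nat_lit 5267) (.e (nat_lit 3397) (nat_lit 211) (.e (nat_lit 647181) (nat_lit 3) (.e (nat_lit 163978) (nat_lit 30) (.e (nat_lit 573485) (nat_lit 13) (.e (nat_lit 65619) (nat_lit 10) (.e (nat_lit 344117) (nat_lit 21) (.e (nat_lit 516151) (nat_lit 9) (.e (nat_lit 426022) (nat_lit 0) .nil)))))))) (.g (nat_lit 1) (.e (nat_lit 86397) (nat_lit 0) .nil) .nil))))) 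
(.nd (nat_lit 8) (.nd (nat_lit 9) 
(.lf (nat_lit 470147) (.g (nat_lit 2235) (.e (nat_lit 3308) (nat_lit 202) (.e (nat_lit 573482) (nat_lit 13) (.e (nat_lit 65624) (nat_lit 12) (.e (nat_lit 385074) (nat_lit 31) (.e (nat_lit 573491) (nat_lit 15) (.e (nat_lit 89856) (nat_lit 0) .nil)))))) (.g (nat_lit 1) (.e (nat_lit 84448) (nat_lit 0) .nil) .nil))) 
(.lf (nat_lit 470659) (.g (nat_lit 3080) (.e (nat_lit 3388) (nat_lit 210) (.e (nat_lit 639020) (nat_lit 16) (.e (nat_lit 65571) (nat_lit 3) (.e (nat_lit 98370) (nat_lit 28) (.e (nat_lit 442396) (nat_lit 20) (.e (nat_lit 3207) (nat_lit 195) (.e (nat_lit 516107) (nat_lit 0) .nil))))))) (.g (nat_lit 1) (.e (nat_lit 85986) (nat_lit 0) .nil) .nil)))) (.nd (nat_lit 9) 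
(.lf (nat_lit 470403) (.g (nat_lit 2132) (.e (nat_lit 3309) (nat_lit 202) (.e (nat_lit 573485) (nat_lit 13) (.e (nat_lit 65604) (nat_lit 9) (.e (nat_lit 336013) (nat_lit 2) (.e (nat_lit 90170) (nat_lit 13) (.e (nat_lit 172068) (nat_lit 4) (.e (nat_lit 229680) (nat_lit 244) (.e (nat_lit 163845) (nat_lit 0) .nil)))))))) (.g (nat_lit 1) (.e (nat_lit 85417) (nat_lit 0) .nil) .nil))) 
(.lf (nat_lit 470915) (.g (nat_lit 2701) (.e (nat_lit 3397) (nat_lit 211) (.e (nat_lit 647183) (nat_lit 4) (.e (nat_lit 172124) (nat_lit 14) (.e (nat_lit 491571) (nat_lit 13) (.e (nat_lit 393266) (nat_lit 23) (.e (nat_lit 426025) (nat_lit 0) .nil)))))) (.g (nat_lit 1) (.e (nat_lit 86547) (nat_lit 0) .nil) .nil)))))) (.nd (nat_lit 7) (.nd (nat_lit 8) (.nd (nat_lit 9) 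
(.lf (nat_lit 470083) (.g (nat_lit 2206) (.e (nat_lit 3308) (nat_lit 202) (.e (nat_lit 573482) (nat_lit 13) (.e (nat_lit 65619) (nat_lit 10) (.e (nat_lit 344115) (nat_lit 20) (.e (nat_lit 507906) (nat_lit 0) (.e (nat_lit 5405) (nat_lit 302) (.e (nat_lit 73472) (nat_lit 15) .nil))))))) (.g (nat_lit 1) (.e (nat_lit 84381) (nat_lit 0) .nil) .nil))) 
(.lf (nat_lit 470595) (.g (nat_lit 1790) (.e (nat_lit 3289) (nat_lit 201) (.e (nat_lit 565267) (nat_lit 4) (.e (nat_lit 65610) (nat_lit 10) (.e (nat_lit 344183) (nat_lit 49) (.e (nat_lit 819221) (nat_lit 6) (.e (nat_lit 188434) (nat_lit 20) .nil)))))) (.g (nat_lit 1) (.e (nat_lit 85895) (nat_lit 0) .nil) .nil)))) (.nd (nat_lit 9) 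
(.lf (nat_lit 470339) (.g (nat_lit 3774) (.e (nat_lit 3308) (nat_lit 202) (.e (nat_lit 573493) (nat_lit 15) (.e (nat_lit 81956) (nat_lit 23) (.e (nat_lit 98388) (nat_lit 33) (.e (nat_lit 491550) (nat_lit 9) (.e (nat_lit 336306) (nat_lit 15) .nil)))))) (.g (nat_lit 1) (.e (nat_lit 85077) (nat_lit 0) .nil) .nil))) 
(.lf (nat_lit 470851) (.g (nat_lit 1939) (.e (nat_lit 3397) (nat_lit 211) (.e (nat_lit 647183) (nat_lit 4) (.e (nat_lit 172106) (nat_lit 10) (.e (nat_lit 434209) (nat_lit 18) (.e (nat_lit 5548) (nat_lit 306) (.e (nat_lit 2648) (nat_lit 166) (.e (nat_lit 188430) (nat_lit 20) .nil))))))) (.g (nat_lit 1) (.e (nat_lit 86480) (nat_lit 0) .nil) .nil))))) (.nd (nat_lit 8) (.nd (nat_lit 9) 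
(.lf (nat_lit 470211) (.g (nat_lit 176) (.e (nat_lit 3308) (nat_lit 202) (.e (nat_lit 573492) (nat_lit 15) (.e (nat_lit 81956) (nat_lit 23) .nil))) (.g (nat_lit 0) (.e (nat_lit 84719) (nat_lit 0) .nil) .nil))) 
(.lf (nat_lit 470723) (.g (nat_lit 4526) (.e (nat_lit 3397) (nat_lit 211) (.e (nat_lit 647181) (nat_lit 3) (.e (nat_lit 163977) (nat_lit 30) (.e (nat_lit 573482) (nat_lit 13) (.e (nat_lit 65604) (nat_lit 9) (.e (nat_lit 336013) (nat_lit 2) (.e (nat_lit 90170) (nat_lit 13) (.e (nat_lit 172039) (nat_lit 0) .nil)))))))) (.g (nat_lit 1) (.e (nat_lit 86333) (nat_lit 0) .nil) .nil)))) (.nd (nat_lit 9) 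
(.lf (nat_lit 470467) (.g (nat_lit 2410) (.e (nat_lit 3309) (nat_lit 202) (.e (nat_lit 573490) (nat_lit 15) (.e (nat_lit 81956) (nat_lit 23) (.e (nat_lit 98389) (nat_lit 33) .nil)))) (.g (nat_lit 0) (.e (nat_lit 85571) (nat_lit 0) .nil) .nil))) 
(.lf (nat_lit 470979) (.g (nat_lit 3165) (.e (nat_lit 3399) (nat_lit 211) (.e (nat_lit 647180) (nat_lit 3) (.e (nat_lit 163976) (nat_lit 30) (.e (nat_lit 573492) (nat_lit 15) (.e (nat_lit 81956) (nat_lit 23) (.e (nat_lit 98359) (nat_lit 26) (.e (nat_lit 426025) (nat_lit 0) .nil))))))) (.g (nat_lit 1) (.e (nat_lit 86661) (nat_lit 0) .nil) .nil))))))) 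
(.nd (nat_lit 6) (.nd (nat_lit 7) (.nd (nat_lit 8) (.nd (nat_lit 9) 
(.lf (nat_lit 470051) (.g (nat_lit 3502) (.e (nat_lit 3308) (nat_lit 202) (.e (nat_lit 573482) (nat_lit 13) (.e (nat_lit 65604) (nat_lit 9) (.e (nat_lit 336013) (nat_lit 2) (.e (nat_lit 90165) (nat_lit 12) (.e (nat_lit 164210) (nat_lit 176) (.e (nat_lit 2786) (nat_lit 179) (.e (nat_lit 294966) (nat_lit 15) .nil)))))))) (.g (nat_lit 1) (.e (nat_lit 84346) (nat_lit 0) .nil) .nil))) 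
(.lf (nat_lit 470563) (.g (nat_lit 1838) (.e (nat_lit 3281) (nat_lit 200) (.e (nat_lit 557104) (nat_lit 14) (.e (nat_lit 180252) (nat_lit 10) (.e (nat_lit 573480) (nat_lit 13) .nil)))) (.g (nat_lit 0) (.e (nat_lit 85834) (nat_lit 0) .nil) .nil)))) (.nd (nat_lit 9) 
(.lf (nat_lit 470307) (.g (nat_lit 4299) (.e (nat_lit 3308) (nat_lit 202) (.e (nat_lit 573493) (nat_lit 15) (.e (nat_lit 81956) (nat_lit 23) (.e (nat_lit 98329) (nat_lit 17) .nil)))) (.g (nat_lit 0) (.e (nat_lit 84972) (nat_lit 0) .nil) .nil))) 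
(.lf (nat_lit 470819) (.g (nat_lit 5247) (.e (nat_lit 3397) (nat_lit 211) (.e (nat_lit 647181) (nat_lit 3) (.e (nat_lit 163979) (nat_lit 30) (.e (nat_lit 573493) (nat_lit 15) (.e (nat_lit 81956) (nat_lit 23) (.e (nat_lit 98361) (nat_lit 26) (.e (nat_lit 426025) (nat_lit 0) .nil))))))) (.g (nat_lit 1) (.e (nat_lit 86431) (nat_lit 0) .nil) .nil))))) (.nd (nat_lit 8) (.nd (nat_lit 9) 
(.lf (nat_lit 470179) (.g (nat_lit 370) (.e (nat_lit 3308) (nat_lit 202) (.e (nat_lit 573491) (nat_lit 15) (.e (nat_lit 81943) (nat_lit 20) .nil))) (.g (nat_lit 0) (.e (nat_lit 84616) (nat_lit 0) .nil) .nil))) 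
(.lf (nat_lit 470691) (.g (nat_lit 2157) (.e (nat_lit 3391) (nat_lit 210) (.e (nat_lit 639021) (nat_lit 16) (.e (nat_lit 65610) (nat_lit 10) (.e (nat_lit 344160) (nat_lit 37) (.e (nat_lit 647195) (nat_lit 9) (.e (nat_lit 7936) (nat_lit 34) (.e (nat_lit 442411) (nat_lit 20) .nil))))))) (.g (nat_lit 1) (.e (nat_lit 86198) (nat_lit 0) .nil) .nil)))) (.nd (nat_lit 9) 
(.lf (nat_lit 470435) (.g (nat_lit 1700) (.e (nat_lit 3309) (nat_lit 202) (.e (nat_lit 573485) (nat_lit 13) (.e (nat_lit 65628) (nat_lit 14) (.e (nat_lit 401425) (nat_lit 2) (.e (nat_lit 196672) (nat_lit 15) (.e (nat_lit 89856) (nat_lit 0) .nil)))))) (.g (nat_lit 1) (.e (nat_lit 85478) (nat_lit 0) .nil) .nil))) 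
(.lf (nat_lit 470947) (.g (nat_lit 2854) (.e (nat_lit 3397) (nat_lit 211) (.e (nat_lit 647183) (nat_lit 4) (.e (nat_lit 172126) (nat_lit 14) (.e (nat_lit 491571) (nat_lit 13) (.e (nat_lit 401152) (nat_lit 23) (.e (nat_lit 426024) (nat_lit 0) .nil)))))) (.g (nat_lit 1) (.e (nat_lit 86579) (nat_lit 0) .nil) .nil)))))) (.nd (nat_lit 7) (.nd (nat_lit 8) (.nd (nat_lit 9) 
(.lf (nat_lit 470115) (.g (nat_lit 4083) (.e (nat_lit 3308) (nat_lit 202) (.e (nat_lit 573482) (nat_lit 13) (.e (nat_lit 65619) (nat_lit 10) (.e (nat_lit 344117) (nat_lit 21) (.e (nat_lit 516139) (nat_lit 7) (.e (nat_lit 409642) (nat_lit 17) (.e (nat_lit 294966) (nat_lit 15) .nil))))))) (.g (nat_lit 1) (.e (nat_lit 84415) (nat_lit 0) .nil) .nil))) 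
(.lf (nat_lit 470627) (.g (nat_lit 2115) (.e (nat_lit 3289) (nat_lit 201) (.e (nat_lit 565269) (nat_lit 6) (.e (nat_lit 81947) (nat_lit 20) (.e (nat_lit 2391) (nat_lit 156) (.e (nat_lit 819221) (nat_lit 6) (.e (nat_lit 188434) (nat_lit 20) .nil)))))) (.g (nat_lit 1) (.e (nat_lit 85928) (nat_lit 0) .nil) .nil)))) (.nd (nat_lit 9) 
(.lf (nat_lit 470371) (.g (nat_lit 1169) (.e (nat_lit 3309) (nat_lit 202) (.e (nat_lit 573484) (nat_lit 13) (.e (nat_lit 65610) (nat_lit 10) (.e (nat_lit 344129) (nat_lit 26) .nil)))) (.g (nat_lit 0) (.e (nat_lit 85218) (nat_lit 0) .nil) .nil))) 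
(.lf (nat_lit 470883) (.g (nat_lit 2510) (.e (nat_lit 3397) (nat_lit 211) (.e (nat_lit 647183) (nat_lit 4) (.e (nat_lit 172118) (nat_lit 12) (.e (nat_lit 475198) (nat_lit 40) (.e (nat_lit 704598) (nat_lit 6) (.e (nat_lit 188431) (nat_lit 20) .nil)))))) (.g (nat_lit 1) (.e (nat_lit 86515) (nat_lit 0) .nil) .nil))))) (.nd (nat_lit 8) (.nd (nat_lit 9) 
(.lf (nat_lit 470243) (.g (nat_lit 4975) (.e (nat_lit 3308) (nat_lit 202) (.e (nat_lit 573493) (nat_lit 15) (.e (nat_lit 81953) (nat_lit 22) (.e (nat_lit 90131) (nat_lit 9) .nil)))) (.g (nat_lit 0) (.e (nat_lit 84840) (nat_lit 0) .nil) .nil))) 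
(.lf (nat_lit 470755) (.g (nat_lit 3000) (.e (nat_lit 3397) (nat_lit 211) (.e (nat_lit 647181) (nat_lit 3) (.e (nat_lit 163977) (nat_lit 30) (.e (nat_lit 573491) (nat_lit 15) (.e (nat_lit 81954) (nat_lit 23) (.e (nat_lit 98360) (nat_lit 26) (.e (nat_lit 426025) (nat_lit 0) .nil))))))) (.g (nat_lit 1) (.e (nat_lit 86365) (nat_lit 0) .nil) .nil)))) (.nd (nat_lit 9) 
(.lf (nat_lit 470499) (.g (nat_lit 2628) (.e (nat_lit 3275) (nat_lit 200) (.e (nat_lit 557105) (nat_lit 14) (.e (nat_lit 180252) (nat_lit 10) (.e (nat_lit 573482) (nat_lit 13) .nil)))) (.g (nat_lit 0) (.e (nat_lit 85763) (nat_lit 0) .nil) .nil))) 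
(.lf (nat_lit 471011) (.g (nat_lit 4353) (.e (nat_lit 3399) (nat_lit 211) (.e (nat_lit 647181) (nat_lit 3) (.e (nat_lit 163977) (nat_lit 30) (.e (nat_lit 573485) (nat_lit 13) (.e (nat_lit 65604) (nat_lit 9) (.e (nat_lit 336028) (nat_lit 3) (.e (nat_lit 98359) (nat_lit 26) (.e (nat_lit 426025) (nat_lit 0) .nil)))))))) (.g (nat_lit 1) (.e (nat_lit 86695) (nat_lit 0) .nil) .nil)))))))) 
(.nd (nat_lit 5) (.nd (nat_lit 6) (.nd (nat_lit 7) (.nd (nat_lit 8) (.nd (nat_lit 9) 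
(.lf (nat_lit 470035) (.g (nat_lit 4418) (.e (nat_lit 3308) (nat_lit 202) (.e (nat_lit 573475) (nat_lit 12) (.e (nat_lit 57574) (nat_lit 55) (.e (nat_lit 778466) (nat_lit 11) (.e (nat_lit 24604) (nat_lit 2) (.e (nat_lit 90178) (nat_lit 15) (.e (nat_lit 188442) (nat_lit 20) .nil))))))) (.g (nat_lit 1) (.e (nat_lit 84323) (nat_lit 0) .nil) .nil))) 
(.lf (nat_lit 470547) (.g (nat_lit 2260) (.e (nat_lit 3280) (nat_lit 200) (.e (nat_lit 557103) (nat_lit 14) (.e (nat_lit 180250) (nat_lit 10) (.e (nat_lit 573480) (nat_lit 13) (.e (nat_lit 65568) (nat_lit 2) .nil))))) (.g (nat_lit 0) (.e (nat_lit 85816) (nat_lit 0) .nil) .nil)))) (.nd (nat_lit 9) 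
(.lf (nat_lit 470291) (.g (nat_lit 3661) (.e (nat_lit 3308) (nat_lit 202) (.e (nat_lit 573493) (nat_lit 15) (.e (nat_lit 81956) (nat_lit 23) (.e (nat_lit 98320) (nat_lit 17) (.e (nat_lit 7587) (nat_lit 406) (.e (nat_lit 73472) (nat_lit 15) .nil)))))) (.g (nat_lit 1) (.e (nat_lit 84937) (nat_lit 0) .nil) .nil))) 
(.lf (nat_lit 470803) (.g (nat_lit 3692) (.e (nat_lit 3397) (nat_lit 211) (.e (nat_lit 647181) (nat_lit 3) (.e (nat_lit 163979) (nat_lit 30) (.e (nat_lit 573491) (nat_lit 15) (.e (nat_lit 81951) (nat_lit 22) (.e (nat_lit 90170) (nat_lit 13) (.e (nat_lit 172039) (nat_lit 0) .nil))))))) (.g (nat_lit 1) (.e (nat_lit 86414) (nat_lit 0) .nil) .nil))))) (.nd (nat_lit 8) (.nd (nat_lit 9) 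
(.lf (nat_lit 470163) (.g (nat_lit 1309) (.e (nat_lit 3308) (nat_lit 202) (.e (nat_lit 573482) (nat_lit 13) (.e (nat_lit 65630) (nat_lit 14) (.e (nat_lit 401428) (nat_lit 3) .nil)))) (.g (nat_lit 0) (.e (nat_lit 84465) (nat_lit 0) .nil) .nil))) 
(.lf (nat_lit 470675) (.g (nat_lit 2468) (.e (nat_lit 3390) (nat_lit 210) (.e (nat_lit 639020) (nat_lit 16) (.e (nat_lit 65586) (nat_lit 7) (.e (nat_lit 319531) (nat_lit 16) (.e (nat_lit 286721) (nat_lit 0) .nil))))) (.g (nat_lit 0) (.e (nat_lit 86040) (nat_lit 0) .nil) .nil)))) (.nd (nat_lit 9) 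
(.lf (nat_lit 470419) (.g (nat_lit 2492) (.e (nat_lit 3309) (nat_lit 202) (.e (nat_lit 573485) (nat_lit 13) (.e (nat_lit 65619) (nat_lit 10) (.e (nat_lit 344117) (nat_lit 21) (.e (nat_lit 516185) (nat_lit 16) (.e (nat_lit 491552) (nat_lit 9) (.e (nat_lit 343808) (nat_lit 15) .nil))))))) (.g (nat_lit 1) (.e (nat_lit 85453) (nat_lit 0) .nil) .nil))) 
(.lf (nat_lit 470931) (.g (nat_lit 2614) (.e (nat_lit 3397) (nat_lit 211) (.e (nat_lit 647183) (nat_lit 4) (.e (nat_lit 172126) (nat_lit 14) (.e (nat_lit 491549) (nat_lit 9) (.e (nat_lit 336395) (nat_lit 27) (.e (nat_lit 426203) (nat_lit 9) (.e (nat_lit 426025) (nat_lit 0) .nil))))))) (.g (nat_lit 1) (.e (nat_lit 86563) (nat_lit 0) .nil) .nil)))))) 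
(.nd (nat_lit 7) (.nd (nat_lit 8) (.nd (nat_lit 9) 
(.lf (nat_lit 470099) (.g (nat_lit 2327) (.e (nat_lit 3308) (nat_lit 202) (.e (nat_lit 573482) (nat_lit 13) (.e (nat_lit 65619) (nat_lit 10) (.e (nat_lit 344117) (nat_lit 21) (.e (nat_lit 516102) (nat_lit 0) (.e (nat_lit 7107) (nat_lit 380) (.e (nat_lit 164337) (nat_lit 232) (.e (nat_lit 75) (nat_lit 0) .nil)))))))) (.g (nat_lit 1) (.e (nat_lit 84399) (nat_lit 0) .nil) .nil))) 
(.lf (nat_lit 470611) (.g (nat_lit 2343) (.e (nat_lit 3289) (nat_lit 201) (.e (nat_lit 565269) (nat_lit 6) (.e (nat_lit 81938) (nat_lit 20) (.e (nat_lit 2391) (nat_lit 156) (.e (nat_lit 819221) (nat_lit 6) (.e (nat_lit 188440) (nat_lit 20) .nil)))))) (.g (nat_lit 1) (.e (nat_lit 85912) (nat_lit 0) .nil) .nil)))) (.nd (nat_lit 9) 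
(.lf (nat_lit 470355) (.g (nat_lit 3650) (.e (nat_lit 3309) (nat_lit 202) (.e (nat_lit 573478) (nat_lit 12) (.e (nat_lit 57574) (nat_lit 55) (.e (nat_lit 778466) (nat_lit 11) (.e (nat_lit 24604) (nat_lit 2) (.e (nat_lit 90185) (nat_lit 17) (.e (nat_lit 237605) (nat_lit 9) (.e (nat_lit 425986) (nat_lit 0) .nil)))))))) (.g (nat_lit 1) (.e (nat_lit 85113) (nat_lit 0) .nil) .nil))) 
(.lf (nat_lit 470867) (.g (nat_lit 2470) (.e (nat_lit 3397) (nat_lit 211) (.e (nat_lit 647183) (nat_lit 4) (.e (nat_lit 172113) (nat_lit 10) (.e (nat_lit 434271) (nat_lit 38) (.e (nat_lit 655380) (nat_lit 6) (.e (nat_lit 188427) (nat_lit 20) .nil)))))) (.g (nat_lit 1) (.e (nat_lit 86497) (nat_lit 0) .nil) .nil))))) (.nd (nat_lit 8) (.nd (nat_lit 9) 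
(.lf (nat_lit 470227) (.g (nat_lit 3516) (.e (nat_lit 3308) (nat_lit 202) (.e (nat_lit 573492) (nat_lit 15) (.e (nat_lit 81956) (nat_lit 23) (.e (nat_lit 98389) (nat_lit 33) (.e (nat_lit 491556) (nat_lit 9) (.e (nat_lit 336305) (nat_lit 15) .nil)))))) (.g (nat_lit 1) (.e (nat_lit 84738) (nat_lit 0) .nil) .nil))) 
(.lf (nat_lit 470739) (.g (nat_lit 4430) (.e (nat_lit 3397) (nat_lit 211) (.e (nat_lit 647181) (nat_lit 3) (.e (nat_lit 163977) (nat_lit 30) (.e (nat_lit 573485) (nat_lit 13) (.e (nat_lit 65604) (nat_lit 9) (.e (nat_lit 336013) (nat_lit 2) (.e (nat_lit 90170) (nat_lit 13) (.e (nat_lit 172035) (nat_lit 0) .nil)))))))) (.g (nat_lit 1) (.e (nat_lit 86349) (nat_lit 0) .nil) .nil)))) (.nd (nat_lit 9) 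
(.lf (nat_lit 470483) (.g (nat_lit 2399) (.e (nat_lit 3312) (nat_lit 202) (.e (nat_lit 573481) (nat_lit 13) (.e (nat_lit 65619) (nat_lit 10) (.e (nat_lit 344129) (nat_lit 26) (.e (nat_lit 557074) (nat_lit 9) .nil))))) (.g (nat_lit 0) (.e (nat_lit 85664) (nat_lit 0) .nil) .nil))) 
(.lf (nat_lit 470995) (.g (nat_lit 3939) (.e (nat_lit 3399) (nat_lit 211) (.e (nat_lit 647181) (nat_lit 3) (.e (nat_lit 163977) (nat_lit 30) (.e (nat_lit 573482) (nat_lit 13) (.e (nat_lit 65604) (nat_lit 9) (.e (nat_lit 336013) (nat_lit 2) (.e (nat_lit 90170) (nat_lit 13) (.e (nat_lit 172035) (nat_lit 0) .nil)))))))) (.g (nat_lit 1) (.e (nat_lit 86679) (nat_lit 0) .nil) .nil))))))) 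
(.nd (nat_lit 6) (.nd (nat_lit 7) (.nd (nat_lit 8) (.nd (nat_lit 9) 
(.lf (nat_lit 470067) (.g (nat_lit 2701) (.e (nat_lit 3308) (nat_lit 202) (.e (nat_lit 573482) (nat_lit 13) (.e (nat_lit 65604) (nat_lit 9) (.e (nat_lit 336028) (nat_lit 3) (.e (nat_lit 98325) (nat_lit 17) (.e (nat_lit 6986) (nat_lit 377) (.e (nat_lit 2779) (nat_lit 178) (.e (nat_lit 294656) (nat_lit 15) .nil)))))))) (.g (nat_lit 1) (.e (nat_lit 84362) (nat_lit 0) .nil) .nil))) 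
(.lf (nat_lit 470579) (.g (nat_lit 1039) (.e (nat_lit 3288) (nat_lit 201) (.e (nat_lit 565267) (nat_lit 4) (.e (nat_lit 65619) (nat_lit 10) (.e (nat_lit 344183) (nat_lit 49) (.e (nat_lit 819221) (nat_lit 6) .nil))))) (.g (nat_lit 0) (.e (nat_lit 85870) (nat_lit 0) .nil) .nil)))) (.nd (nat_lit 9) 
(.lf (nat_lit 470323) (.g (nat_lit 3379) (.e (nat_lit 3308) (nat_lit 202) (.e (nat_lit 573493) (nat_lit 15) (.e (nat_lit 81956) (nat_lit 23) (.e (nat_lit 98367) (nat_lit 27) (.e (nat_lit 434272) (nat_lit 38) .nil))))) (.g (nat_lit 0) (.e (nat_lit 85057) (nat_lit 0) .nil) .nil))) 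
(.lf (nat_lit 470835) (.g (nat_lit 2053) (.e (nat_lit 3397) (nat_lit 211) (.e (nat_lit 647183) (nat_lit 4) (.e (nat_lit 172082) (nat_lit 7) (.e (nat_lit 409642) (nat_lit 17) (.e (nat_lit 294974) (nat_lit 29) (.e (nat_lit 442398) (nat_lit 20) .nil)))))) (.g (nat_lit 1) (.e (nat_lit 86463) (nat_lit 0) .nil) .nil))))) (.nd (nat_lit 8) (.nd (nat_lit 9) 
(.lf (nat_lit 470195) (.g (nat_lit 2319) (.e (nat_lit 3308) (nat_lit 202) (.e (nat_lit 573491) (nat_lit 15) (.e (nat_lit 81954) (nat_lit 23) (.e (nat_lit 98388) (nat_lit 33) (.e (nat_lit 491550) (nat_lit 9) (.e (nat_lit 336306) (nat_lit 15) .nil)))))) (.g (nat_lit 1) (.e (nat_lit 84696) (nat_lit 0) .nil) .nil))) 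
(.lf (nat_lit 470707) (.g (nat_lit 2109) (.e (nat_lit 3432) (nat_lit 213) (.e (nat_lit 663569) (nat_lit 6) (.e (nat_lit 81956) (nat_lit 23) (.e (nat_lit 98313) (nat_lit 9) .nil)))) (.g (nat_lit 0) (.e (nat_lit 86299) (nat_lit 0) .nil) .nil)))) (.nd (nat_lit 9) 
(.lf (nat_lit 470451) (.g (nat_lit 1518) (.e (nat_lit 3309) (nat_lit 202) (.e (nat_lit 573485) (nat_lit 13) (.e (nat_lit 65630) (nat_lit 14) (.e (nat_lit 401428) (nat_lit 3) (.e (nat_lit 204865) (nat_lit 28) (.e (nat_lit 360192) (nat_lit 0) .nil)))))) (.g (nat_lit 1) (.e (nat_lit 85495) (nat_lit 0) .nil) .nil))) 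
(.lf (nat_lit 470963) (.g (nat_lit 1810) (.e (nat_lit 3397) (nat_lit 211) (.e (nat_lit 647185) (nat_lit 6) (.e (nat_lit 188441) (nat_lit 20) (.e (nat_lit 3406) (nat_lit 212) (.e (nat_lit 655380) (nat_lit 6) (.e (nat_lit 188431) (nat_lit 20) .nil)))))) (.g (nat_lit 1) (.e (nat_lit 86604) (nat_lit 0) .nil) .nil)))))) (.nd (nat_lit 7) (.nd (nat_lit 8) (.nd (nat_lit 9) 
(.lf (nat_lit 470131) (.g (nat_lit 2229) (.e (nat_lit 3308) (nat_lit 202) (.e (nat_lit 573482) (nat_lit 13) (.e (nat_lit 65619) (nat_lit 10) (.e (nat_lit 344117) (nat_lit 21) (.e (nat_lit 516185) (nat_lit 16) (.e (nat_lit 499456) (nat_lit 9) (.e (nat_lit 336306) (nat_lit 15) .nil))))))) (.g (nat_lit 1) (.e (nat_lit 84431) (nat_lit 0) .nil) .nil))) 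
(.lf (nat_lit 470643) (.g (nat_lit 6453) (.e (nat_lit 3366) (nat_lit 208) (.e (nat_lit 622627) (nat_lit 13) (.e (nat_lit 2663) (nat_lit 167) (.e (nat_lit 196666) (nat_lit 13) (.e (nat_lit 65610) (nat_lit 10) (.e (nat_lit 344117) (nat_lit 21) (.e (nat_lit 516151) (nat_lit 9) (.e (nat_lit 426047) (nat_lit 0) .nil)))))))) (.g (nat_lit 1) (.e (nat_lit 85964) (nat_lit 0) .nil) .nil)))) 
(.nd (nat_lit 9) 
(.lf (nat_lit 470387) (.g (nat_lit 2357) (.e (nat_lit 3309) (nat_lit 202) (.e (nat_lit 573484) (nat_lit 13) (.e (nat_lit 65610) (nat_lit 10) (.e (nat_lit 344129) (nat_lit 26) (.e (nat_lit 557087) (nat_lit 11) (.e (nat_lit 24632) (nat_lit 9) (.e (nat_lit 343808) (nat_lit 15) .nil))))))) (.g (nat_lit 1) (.e (nat_lit 85271) (nat_lit 0) .nil) .nil))) 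
(.lf (nat_lit 470899) (.g (nat_lit 2408) (.e (nat_lit 3397) (nat_lit 211) (.e (nat_lit 647183) (nat_lit 4) (.e (nat_lit 172120) (nat_lit 12) (.e (nat_lit 475210) (nat_lit 41) (.e (nat_lit 712750) (nat_lit 29) (.e (nat_lit 442399) (nat_lit 20) .nil)))))) (.g (nat_lit 1) (.e (nat_lit 86531) (nat_lit 0) .nil) .nil))))) (.nd (nat_lit 8) (.nd (nat_lit 9) 
(.lf (nat_lit 470259) (.g (nat_lit 5134) (.e (nat_lit 3308) (nat_lit 202) (.e (nat_lit 573493) (nat_lit 15) (.e (nat_lit 81953) (nat_lit 22) (.e (nat_lit 90163) (nat_lit 12) .nil)))) (.g (nat_lit 0) (.e (nat_lit 84859) (nat_lit 0) .nil) .nil))) 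
(.lf (nat_lit 470771) (.g (nat_lit 2606) (.e (nat_lit 3397) (nat_lit 211) (.e (nat_lit 647181) (nat_lit 3) (.e (nat_lit 163978) (nat_lit 30) (.e (nat_lit 573479) (nat_lit 13) (.e (nat_lit 65619) (nat_lit 10) .nil))))) (.g (nat_lit 0) (.e (nat_lit 86381) (nat_lit 0) .nil) .nil)))) (.nd (nat_lit 9) 
(.lf (nat_lit 470515) (.g (nat_lit 3586) (.e (nat_lit 3276) (nat_lit 200) (.e (nat_lit 557105) (nat_lit 14) (.e (nat_lit 180252) (nat_lit 10) (.e (nat_lit 573482) (nat_lit 13) (.e (nat_lit 65568) (nat_lit 2) (.e (nat_lit 98048) (nat_lit 2) (.e (nat_lit 16386) (nat_lit 0) .nil))))))) (.g (nat_lit 1) (.e (nat_lit 85780) (nat_lit 0) .nil) .nil))) 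
(.lf (nat_lit 471027) (.g (nat_lit 4042) (.e (nat_lit 3399) (nat_lit 211) (.e (nat_lit 647181) (nat_lit 3) (.e (nat_lit 163977) (nat_lit 30) (.e (nat_lit 573493) (nat_lit 15) (.e (nat_lit 81956) (nat_lit 23) (.e (nat_lit 98359) (nat_lit 26) (.e (nat_lit 426003) (nat_lit 0) .nil))))))) (.g (nat_lit 1) (.e (nat_lit 86712) (nat_lit 0) .nil) .nil))))))))) 
(.nd (nat_lit 4) (.nd (nat_lit 5) (.nd (nat_lit 6) (.nd (nat_lit 7) (.nd (nat_lit 8) 
(.nd (nat_lit 9) 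
(.lf (nat_lit 470027) (.g (nat_lit 3008) (.e (nat_lit 3308) (nat_lit 202) (.e (nat_lit 573475) (nat_lit 12) (.e (nat_lit 57574) (nat_lit 55) (.e (nat_lit 778466) (nat_lit 11) (.e (nat_lit 24603) (nat_lit 2) (.e (nat_lit 90176) (nat_lit 15) (.e (nat_lit 188439) (nat_lit 20) .nil))))))) (.g (nat_lit 1) (.e (nat_lit 84315) (nat_lit 0) .nil) .nil))) 
(.lf (nat_lit 470539) (.g (nat_lit 2146) (.e (nat_lit 3278) (nat_lit 200) (.e (nat_lit 557105) (nat_lit 14) (.e (nat_lit 180252) (nat_lit 10) (.e (nat_lit 573489) (nat_lit 14) .nil)))) (.g (nat_lit 0) (.e (nat_lit 85805) (nat_lit 0) .nil) .nil)))) (.nd (nat_lit 9) 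
(.lf (nat_lit 470283) (.g (nat_lit 3609) (.e (nat_lit 3308) (nat_lit 202) (.e (nat_lit 573493) (nat_lit 15) (.e (nat_lit 81954) (nat_lit 23) (.e (nat_lit 98388) (nat_lit 33) (.e (nat_lit 491549) (nat_lit 9) (.e (nat_lit 336306) (nat_lit 15) .nil)))))) (.g (nat_lit 1) (.e (nat_lit 84928) (nat_lit 0) .nil) .nil))) 
(.lf (nat_lit 470795) (.g (nat_lit 4102) (.e (nat_lit 3397) (nat_lit 211) (.e (nat_lit 647181) (nat_lit 3) (.e (nat_lit 163979) (nat_lit 30) (.e (nat_lit 573482) (nat_lit 13) (.e (nat_lit 65604) (nat_lit 9) (.e (nat_lit 336028) (nat_lit 3) (.e (nat_lit 98359) (nat_lit 26) (.e (nat_lit 426023) (nat_lit 0) .nil)))))))) (.g (nat_lit 1) (.e (nat_lit 86406) (nat_lit 0) .nil) .nil))))) 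
(.nd (nat_lit 8) (.nd (nat_lit 9) 
(.lf (nat_lit 470155) (.g (nat_lit 2463) (.e (nat_lit 3308) (nat_lit 202) (.e (nat_lit 573482) (nat_lit 13) (.e (nat_lit 65628) (nat_lit 14) (.e (nat_lit 401428) (nat_lit 3) (.e (nat_lit 204865) (nat_lit 28) (.e (nat_lit 360192) (nat_lit 0) .nil)))))) (.g (nat_lit 1) (.e (nat_lit 84456) (nat_lit 0) .nil) .nil))) 
(.lf (nat_lit 470667) (.g (nat_lit 4035) (.e (nat_lit 3390) (nat_lit 210) (.e (nat_lit 639020) (nat_lit 16) (.e (nat_lit 65571) (nat_lit 3) (.e (nat_lit 98359) (nat_lit 26) (.e (nat_lit 426285) (nat_lit 10) (.e (nat_lit 434229) (nat_lit 22) (.e (nat_lit 524291) (nat_lit 0) .nil))))))) (.g (nat_lit 1) (.e (nat_lit 86031) (nat_lit 0) .nil) .nil)))) (.nd (nat_lit 9) 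
(.lf (nat_lit 470411) (.g (nat_lit 1873) (.e (nat_lit 3309) (nat_lit 202) (.e (nat_lit 573485) (nat_lit 13) (.e (nat_lit 65619) (nat_lit 10) (.e (nat_lit 344117) (nat_lit 21) (.e (nat_lit 516106) (nat_lit 0) .nil))))) (.g (nat_lit 0) (.e (nat_lit 85441) (nat_lit 0) .nil) .nil))) 
(.lf (nat_lit 470923) (.g (nat_lit 2098) (.e (nat_lit 3397) (nat_lit 211) (.e (nat_lit 647183) (nat_lit 4) (.e (nat_lit 172126) (nat_lit 14) (.e (nat_lit 491548) (nat_lit 9) (.e (nat_lit 336398) (nat_lit 27) (.e (nat_lit 426216) (nat_lit 9) (.e (nat_lit 426025) (nat_lit 0) .nil))))))) (.g (nat_lit 1) (.e (nat_lit 86555) (nat_lit 0) .nil) .nil)))))) 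
(.nd (nat_lit 7) (.nd (nat_lit 8) (.nd (nat_lit 9) 
(.lf (nat_lit 470091) (.g (nat_lit 2173) (.e (nat_lit 3308) (nat_lit 202) (.e (nat_lit 573482) (nat_lit 13) (.e (nat_lit 65619) (nat_lit 10) (.e (nat_lit 344115) (nat_lit 20) (.e (nat_lit 507908) (nat_lit 0) (.e (nat_lit 5406) (nat_lit 302) (.e (nat_lit 73472) (nat_lit 15) .nil))))))) (.g (nat_lit 1) (.e (nat_lit 84389) (nat_lit 0) .nil) .nil))) 
(.lf (nat_lit 470603) (.g (nat_lit 1337) (.e (nat_lit 3289) (nat_lit 201) (.e (nat_lit 565267) (nat_lit 4) (.e (nat_lit 65620) (nat_lit 10) (.e (nat_lit 344183) (nat_lit 49) (.e (nat_lit 819221) (nat_lit 6) (.e (nat_lit 188440) (nat_lit 20) .nil)))))) (.g (nat_lit 1) (.e (nat_lit 85904) (nat_lit 0) .nil) .nil)))) (.nd (nat_lit 9) 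
(.lf (nat_lit 470347) (.g (nat_lit 2595) (.e (nat_lit 3308) (nat_lit 202) (.e (nat_lit 573493) (nat_lit 15) (.e (nat_lit 81956) (nat_lit 23) (.e (nat_lit 98389) (nat_lit 33) (.e (nat_lit 499456) (nat_lit 9) .nil))))) (.g (nat_lit 0) (.e (nat_lit 85085) (nat_lit 0) .nil) .nil))) 
(.lf (nat_lit 470859) (.g (nat_lit 2169) (.e (nat_lit 3397) (nat_lit 211) (.e (nat_lit 647183) (nat_lit 4) (.e (nat_lit 172107) (nat_lit 10) (.e (nat_lit 434271) (nat_lit 38) (.e (nat_lit 655380) (nat_lit 6) (.e (nat_lit 188427) (nat_lit 20) .nil)))))) (.g (nat_lit 1) (.e (nat_lit 86488) (nat_lit 0) .nil) .nil))))) (.nd (nat_lit 8) (.nd (nat_lit 9) 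
(.lf (nat_lit 470219) (.g (nat_lit 2576) (.e (nat_lit 3308) (nat_lit 202) (.e (nat_lit 573492) (nat_lit 15) (.e (nat_lit 81956) (nat_lit 23) (.e (nat_lit 98388) (nat_lit 33) (.e (nat_lit 491548) (nat_lit 9) (.e (nat_lit 336306) (nat_lit 15) .nil)))))) (.g (nat_lit 1) (.e (nat_lit 84730) (nat_lit 0) .nil) .nil))) 
(.lf (nat_lit 470731) (.g (nat_lit 5360) (.e (nat_lit 3397) (nat_lit 211) (.e (nat_lit 647181) (nat_lit 3) (.e (nat_lit 163977) (nat_lit 30) (.e (nat_lit 573482) (nat_lit 13) (.e (nat_lit 65619) (nat_lit 10) (.e (nat_lit 344117) (nat_lit 21) (.e (nat_lit 516151) (nat_lit 9) (.e (nat_lit 426022) (nat_lit 0) .nil)))))))) (.g (nat_lit 1) (.e (nat_lit 86341) (nat_lit 0) .nil) .nil)))) 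
(.nd (nat_lit 9) 
(.lf (nat_lit 470475) (.g (nat_lit 5129) (.e (nat_lit 3309) (nat_lit 202) (.e (nat_lit 573493) (nat_lit 15) (.e (nat_lit 81956) (nat_lit 23) (.e (nat_lit 98389) (nat_lit 33) (.e (nat_lit 491556) (nat_lit 9) (.e (nat_lit 336239) (nat_lit 15) .nil)))))) (.g (nat_lit 1) (.e (nat_lit 85608) (nat_lit 0) .nil) .nil))) 
(.lf (nat_lit 470987) (.g (nat_lit 3833) (.e (nat_lit 3399) (nat_lit 211) (.e (nat_lit 647180) (nat_lit 3) (.e (nat_lit 163978) (nat_lit 30) (.e (nat_lit 573485) (nat_lit 13) (.e (nat_lit 65619) (nat_lit 10) (.e (nat_lit 344117) (nat_lit 21) (.e (nat_lit 516151) (nat_lit 9) (.e (nat_lit 426023) (nat_lit 0) .nil)))))))) (.g (nat_lit 1) (.e (nat_lit 86669) (nat_lit 0) .nil) .nil))))))) 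
(.nd (nat_lit 6) (.nd (nat_lit 7) (.nd (nat_lit 8) (.nd (nat_lit 9) 
(.lf (nat_lit 470059) (.g (nat_lit 3595) (.e (nat_lit 3308) (nat_lit 202) (.e (nat_lit 573482) (nat_lit 13) (.e (nat_lit 65604) (nat_lit 9) (.e (nat_lit 336013) (nat_lit 2) (.e (nat_lit 90165) (nat_lit 12) (.e (nat_lit 164219) (nat_lit 180) (.e (nat_lit 229646) (nat_lit 232) (.e (nat_lit 78) (nat_lit 0) .nil)))))))) (.g (nat_lit 1) (.e (nat_lit 84354) (nat_lit 0) .nil) .nil))) 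
(.lf (nat_lit 470571) (.g (nat_lit 2029) (.e (nat_lit 7936) (nat_lit 200) (.e (nat_lit 557105) (nat_lit 14) (.e (nat_lit 180252) (nat_lit 10) (.e (nat_lit 573481) (nat_lit 13) (.e (nat_lit 65568) (nat_lit 2) .nil))))) (.g (nat_lit 0) (.e (nat_lit 85861) (nat_lit 0) .nil) .nil)))) (.nd (nat_lit 9) 
(.lf (nat_lit 470315) (.g (nat_lit 4306) (.e (nat_lit 3308) (nat_lit 202) (.e (nat_lit 573493) (nat_lit 15) (.e (nat_lit 81956) (nat_lit 23) (.e (nat_lit 98350) (nat_lit 24) (.e (nat_lit 409640) (nat_lit 17) (.e (nat_lit 294966) (nat_lit 15) .nil)))))) (.g (nat_lit 1) (.e (nat_lit 85018) (nat_lit 0) .nil) .nil))) 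
(.lf (nat_lit 470827) (.g (nat_lit 1612) (.e (nat_lit 3397) (nat_lit 211) (.e (nat_lit 647183) (nat_lit 4) (.e (nat_lit 172080) (nat_lit 7) (.e (nat_lit 409618) (nat_lit 10) (.e (nat_lit 5362) (nat_lit 298) (.e (nat_lit 463) (nat_lit 34) (.e (nat_lit 442399) (nat_lit 20) .nil))))))) (.g (nat_lit 1) (.e (nat_lit 86455) (nat_lit 0) .nil) .nil))))) (.nd (nat_lit 8) (.nd (nat_lit 9) 
(.lf (nat_lit 470187) (.g (nat_lit 1571) (.e (nat_lit 3308) (nat_lit 202) (.e (nat_lit 573491) (nat_lit 15) (.e (nat_lit 81954) (nat_lit 23) (.e (nat_lit 98325) (nat_lit 17) (.e (nat_lit 6966) (nat_lit 377) .nil))))) (.g (nat_lit 0) (.e (nat_lit 84675) (nat_lit 0) .nil) .nil))) 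
(.lf (nat_lit 470699) (.g (nat_lit 2464) (.e (nat_lit 7936) (nat_lit 210) (.e (nat_lit 639020) (nat_lit 16) (.e (nat_lit 65571) (nat_lit 3) (.e (nat_lit 98373) (nat_lit 29) (.e (nat_lit 458496) (nat_lit 3) .nil))))) (.g (nat_lit 0) (.e (nat_lit 86275) (nat_lit 0) .nil) .nil)))) (.nd (nat_lit 9) 
(.lf (nat_lit 470443) (.g (nat_lit 2419) (.e (nat_lit 3309) (nat_lit 202) (.e (nat_lit 573485) (nat_lit 13) (.e (nat_lit 65628) (nat_lit 14) (.e (nat_lit 401428) (nat_lit 3) (.e (nat_lit 204875) (nat_lit 31) (.e (nat_lit 384768) (nat_lit 0) .nil)))))) (.g (nat_lit 1) (.e (nat_lit 85486) (nat_lit 0) .nil) .nil))) 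
(.lf (nat_lit 470955) (.g (nat_lit 1221) (.e (nat_lit 3397) (nat_lit 211) (.e (nat_lit 647185) (nat_lit 6) (.e (nat_lit 188439) (nat_lit 20) (.e (nat_lit 3406) (nat_lit 212) (.e (nat_lit 655380) (nat_lit 6) (.e (nat_lit 188430) (nat_lit 20) .nil)))))) (.g (nat_lit 1) (.e (nat_lit 86596) (nat_lit 0) .nil) .nil)))))) (.nd (nat_lit 7) (.nd (nat_lit 8) (.nd (nat_lit 9) 
(.lf (nat_lit 470123) (.g (nat_lit 2208) (.e (nat_lit 3308) (nat_lit 202) (.e (nat_lit 573482) (nat_lit 13) (.e (nat_lit 65619) (nat_lit 10) (.e (nat_lit 344117) (nat_lit 21) (.e (nat_lit 516184) (nat_lit 16) (.e (nat_lit 491549) (nat_lit 9) (.e (nat_lit 336260) (nat_lit 15) .nil))))))) (.g (nat_lit 1) (.e (nat_lit 84423) (nat_lit 0) .nil) .nil))) 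
(.lf (nat_lit 470635) (.g (nat_lit 2169) (.e (nat_lit 3342) (nat_lit 205) (.e (nat_lit 598065) (nat_lit 20) (.e (nat_lit 237587) (nat_lit 2) (.e (nat_lit 196672) (nat_lit 15) (.e (nat_lit 81954) (nat_lit 23) (.e (nat_lit 98321) (nat_lit 17) .nil)))))) (.g (nat_lit 1) (.e (nat_lit 85949) (nat_lit 0) .nil) .nil)))) (.nd (nat_lit 9) 
(.lf (nat_lit 470379) (.g (nat_lit 4602) (.e (nat_lit 3309) (nat_lit 202) (.e (nat_lit 573484) (nat_lit 13) (.e (nat_lit 65610) (nat_lit 10) (.e (nat_lit 344129) (nat_lit 26) (.e (nat_lit 557087) (nat_lit 11) (.e (nat_lit 24625) (nat_lit 9) (.e (nat_lit 336240) (nat_lit 15) .nil))))))) (.g (nat_lit 1) (.e (nat_lit 85263) (nat_lit 0) .nil) .nil))) 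
(.lf (nat_lit 470891) (.g (nat_lit 2085) (.e (nat_lit 3397) (nat_lit 211) (.e (nat_lit 647183) (nat_lit 4) (.e (nat_lit 172120) (nat_lit 12) (.e (nat_lit 475197) (nat_lit 40) (.e (nat_lit 704598) (nat_lit 6) (.e (nat_lit 188427) (nat_lit 20) .nil)))))) (.g (nat_lit 1) (.e (nat_lit 86523) (nat_lit 0) .nil) .nil))))) (.nd (nat_lit 8) (.nd (nat_lit 9) 
(.lf (nat_lit 470251) (.g (nat_lit 4874) (.e (nat_lit 3308) (nat_lit 202) (.e (nat_lit 573493) (nat_lit 15) (.e (nat_lit 81953) (nat_lit 22) (.e (nat_lit 90143) (nat_lit 9) .nil)))) (.g (nat_lit 0) (.e (nat_lit 84850) (nat_lit 0) .nil) .nil))) 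
(.lf (nat_lit 470763) (.g (nat_lit 5879) (.e (nat_lit 3397) (nat_lit 211) (.e (nat_lit 647181) (nat_lit 3) (.e (nat_lit 163977) (nat_lit 30) (.e (nat_lit 573493) (nat_lit 15) (.e (nat_lit 81956) (nat_lit 23) (.e (nat_lit 98361) (nat_lit 26) (.e (nat_lit 426025) (nat_lit 0) .nil))))))) (.g (nat_lit 1) (.e (nat_lit 86373) (nat_lit 0) .nil) .nil)))) (.nd (nat_lit 9) 
(.lf (nat_lit 470507) (.g (nat_lit 1563) (.e (nat_lit 3276) (nat_lit 200) (.e (nat_lit 557105) (nat_lit 14) (.e (nat_lit 180252) (nat_lit 10) (.e (nat_lit 573480) (nat_lit 13) .nil)))) (.g (nat_lit 0) (.e (nat_lit 85772) (nat_lit 0) .nil) .nil))) 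
(.lf (nat_lit 471019) (.g (nat_lit 3386) (.e (nat_lit 3399) (nat_lit 211) (.e (nat_lit 647181) (nat_lit 3) (.e (nat_lit 163977) (nat_lit 30) (.e (nat_lit 573491) (nat_lit 15) (.e (nat_lit 81954) (nat_lit 23) (.e (nat_lit 98359) (nat_lit 26) (.e (nat_lit 426022) (nat_lit 0) .nil))))))) (.g (nat_lit 1) (.e (nat_lit 86704) (nat_lit 0) .nil) .nil)))))))) 
(.nd (nat_lit 5) (.nd (nat_lit 6) (.nd (nat_lit 7) (.nd (nat_lit 8) (.nd (nat_lit 9) 
(.lf (nat_lit 470043) (.g (nat_lit 1580) (.e (nat_lit 3308) (nat_lit 202) (.e (nat_lit 573480) (nat_lit 13) (.e (nat_lit 65630) (nat_lit 14) (.e (nat_lit 401428) (nat_lit 3) (.e (nat_lit 204877) (nat_lit 31) (.e (nat_lit 384768) (nat_lit 0) .nil)))))) (.g (nat_lit 1) (.e (nat_lit 84337) (nat_lit 0) .nil) .nil))) 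
(.lf (nat_lit 470555) (.g (nat_lit 4179) (.e (nat_lit 3280) (nat_lit 200) (.e (nat_lit 557104) (nat_lit 14) (.e (nat_lit 180252) (nat_lit 10) (.e (nat_lit 573482) (nat_lit 13) (.e (nat_lit 65568) (nat_lit 2) (.e (nat_lit 98048) (nat_lit 2) (.e (nat_lit 16388) (nat_lit 0) .nil))))))) (.g (nat_lit 1) (.e (nat_lit 85824) (nat_lit 0) .nil) .nil)))) (.nd (nat_lit 9) 
(.lf (nat_lit 470299) (.g (nat_lit 1616) (.e (nat_lit 3308) (nat_lit 202) (.e (nat_lit 573493) (nat_lit 15) (.e (nat_lit 81956) (nat_lit 23) (.e (nat_lit 98325) (nat_lit 17) .nil)))) (.g (nat_lit 0) (.e (nat_lit 84947) (nat_lit 0) .nil) .nil))) 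
(.lf (nat_lit 470811) (.g (nat_lit 4178) (.e (nat_lit 3397) (nat_lit 211) (.e (nat_lit 647181) (nat_lit 3) (.e (nat_lit 163979) (nat_lit 30) (.e (nat_lit 573493) (nat_lit 15) (.e (nat_lit 81953) (nat_lit 22) (.e (nat_lit 90170) (nat_lit 13) (.e (nat_lit 172032) (nat_lit 0) .nil))))))) (.g (nat_lit 1) (.e (nat_lit 86423) (nat_lit 0) .nil) .nil))))) (.nd (nat_lit 8) (.nd (nat_lit 9) 
(.lf (nat_lit 470171) (.g (nat_lit 2686) (.e (nat_lit 3308) (nat_lit 202) (.e (nat_lit 573484) (nat_lit 13) (.e (nat_lit 65617) (nat_lit 10) (.e (nat_lit 344130) (nat_lit 26) (.e (nat_lit 557085) (nat_lit 11) (.e (nat_lit 24630) (nat_lit 9) (.e (nat_lit 336306) (nat_lit 15) .nil))))))) (.g (nat_lit 1) (.e (nat_lit 84478) (nat_lit 0) .nil) .nil))) 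
(.lf (nat_lit 470683) (.g (nat_lit 564) (.e (nat_lit 3390) (nat_lit 210) (.e (nat_lit 639023) (nat_lit 18) (.e (nat_lit 81946) (nat_lit 20) (.e (nat_lit 1963) (nat_lit 134) .nil)))) (.g (nat_lit 0) (.e (nat_lit 86151) (nat_lit 0) .nil) .nil)))) (.nd (nat_lit 9) 
(.lf (nat_lit 470427) (.g (nat_lit 5036) (.e (nat_lit 3309) (nat_lit 202) (.e (nat_lit 573485) (nat_lit 13) (.e (nat_lit 65619) (nat_lit 10) (.e (nat_lit 344129) (nat_lit 26) (.e (nat_lit 557087) (nat_lit 11) (.e (nat_lit 24625) (nat_lit 9) (.e (nat_lit 336240) (nat_lit 15) .nil))))))) (.g (nat_lit 1) (.e (nat_lit 85469) (nat_lit 0) .nil) .nil))) 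
(.lf (nat_lit 470939) (.g (nat_lit 2016) (.e (nat_lit 3397) (nat_lit 211) (.e (nat_lit 647183) (nat_lit 4) (.e (nat_lit 172126) (nat_lit 14) (.e (nat_lit 491570) (nat_lit 13) (.e (nat_lit 393274) (nat_lit 23) (.e (nat_lit 426025) (nat_lit 0) .nil)))))) (.g (nat_lit 1) (.e (nat_lit 86571) (nat_lit 0) .nil) .nil)))))) (.nd (nat_lit 7) (.nd (nat_lit 8) (.nd (nat_lit 9) 
(.lf (nat_lit 470107) (.g (nat_lit 3675) (.e (nat_lit 3308) (nat_lit 202) (.e (nat_lit 573482) (nat_lit 13) (.e (nat_lit 65619) (nat_lit 10) (.e (nat_lit 344117) (nat_lit 21) (.e (nat_lit 516106) (nat_lit 0) (.e (nat_lit 7016) (nat_lit 377) (.e (nat_lit 2789) (nat_lit 179) (.e (nat_lit 294966) (nat_lit 15) .nil)))))))) (.g (nat_lit 1) (.e (nat_lit 84407) (nat_lit 0) .nil) .nil))) 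
(.lf (nat_lit 470619) (.g (nat_lit 1693) (.e (nat_lit 3289) (nat_lit 201) (.e (nat_lit 565269) (nat_lit 6) (.e (nat_lit 81942) (nat_lit 20) (.e (nat_lit 2391) (nat_lit 156) (.e (nat_lit 819221) (nat_lit 6) (.e (nat_lit 188440) (nat_lit 20) .nil)))))) (.g (nat_lit 1) (.e (nat_lit 85920) (nat_lit 0) .nil) .nil)))) (.nd (nat_lit 9) 
(.lf (nat_lit 470363) (.g (nat_lit 2328) (.e (nat_lit 3309) (nat_lit 202) (.e (nat_lit 573484) (nat_lit 13) (.e (nat_lit 65610) (nat_lit 10) (.e (nat_lit 344117) (nat_lit 21) (.e (nat_lit 516184) (nat_lit 16) (.e (nat_lit 491548) (nat_lit 9) (.e (nat_lit 336240) (nat_lit 15) .nil))))))) (.g (nat_lit 1) (.e (nat_lit 85189) (nat_lit 0) .nil) .nil))) 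
(.lf (nat_lit 470875) (.g (nat_lit 2100) (.e (nat_lit 3397) (nat_lit 211) (.e (nat_lit 647183) (nat_lit 4) (.e (nat_lit 172115) (nat_lit 10) (.e (nat_lit 434271) (nat_lit 38) (.e (nat_lit 655380) (nat_lit 6) (.e (nat_lit 188430) (nat_lit 20) .nil)))))) (.g (nat_lit 1) (.e (nat_lit 86507) (nat_lit 0) .nil) .nil))))) (.nd (nat_lit 8) (.nd (nat_lit 9) 
(.lf (nat_lit 470235) (.g (nat_lit 3289) (.e (nat_lit 3308) (nat_lit 202) (.e (nat_lit 573493) (nat_lit 15) (.e (nat_lit 81951) (nat_lit 22) (.e (nat_lit 90134) (nat_lit 9) (.e (nat_lit 3098) (nat_lit 192) (.e (nat_lit 491548) (nat_lit 9) (.e (nat_lit 336306) (nat_lit 15) .nil))))))) (.g (nat_lit 1) (.e (nat_lit 84828) (nat_lit 0) .nil) .nil))) 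
(.lf (nat_lit 470747) (.g (nat_lit 5270) (.e (nat_lit 3397) (nat_lit 211) (.e (nat_lit 647181) (nat_lit 3) (.e (nat_lit 163977) (nat_lit 30) (.e (nat_lit 573485) (nat_lit 13) (.e (nat_lit 65619) (nat_lit 10) (.e (nat_lit 344117) (nat_lit 21) (.e (nat_lit 516151) (nat_lit 9) (.e (nat_lit 426022) (nat_lit 0) .nil)))))))) (.g (nat_lit 1) (.e (nat_lit 86357) (nat_lit 0) .nil) .nil)))) 
(.nd (nat_lit 9) 
(.lf (nat_lit 470491) (.g (nat_lit 1100) (.e (nat_lit 7936) (nat_lit 202) (.e (nat_lit 573485) (nat_lit 13) (.e (nat_lit 65630) (nat_lit 14) (.e (nat_lit 401428) (nat_lit 3) .nil)))) (.g (nat_lit 0) (.e (nat_lit 85708) (nat_lit 0) .nil) .nil))) 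
(.lf (nat_lit 471003) (.g (nat_lit 4239) (.e (nat_lit 3399) (nat_lit 211) (.e (nat_lit 647181) (nat_lit 3) (.e (nat_lit 163977) (nat_lit 30) (.e (nat_lit 573482) (nat_lit 13) (.e (nat_lit 65619) (nat_lit 10) (.e (nat_lit 344117) (nat_lit 21) (.e (nat_lit 516151) (nat_lit 9) (.e (nat_lit 426023) (nat_lit 0) .nil)))))))) (.g (nat_lit 1) (.e (nat_lit 86687) (nat_lit 0) .nil) .nil))))))) 
(.nd (nat_lit 6) (.nd (nat_lit 7) (.nd (nat_lit 8) (.nd (nat_lit 9) 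
(.lf (nat_lit 470075) (.g (nat_lit 2098) (.e (nat_lit 3308) (nat_lit 202) (.e (nat_lit 573482) (nat_lit 13) (.e (nat_lit 65604) (nat_lit 9) (.e (nat_lit 336028) (nat_lit 3) (.e (nat_lit 98325) (nat_lit 17) (.e (nat_lit 7112) (nat_lit 381) (.e (nat_lit 229647) (nat_lit 232) (.e (nat_lit 7936) (nat_lit 0) .nil)))))))) (.g (nat_lit 1) (.e (nat_lit 84370) (nat_lit 0) .nil) .nil))) 
(.lf (nat_lit 470587) (.g (nat_lit 1588) (.e (nat_lit 3288) (nat_lit 201) (.e (nat_lit 565269) (nat_lit 6) (.e (nat_lit 81943) (nat_lit 20) (.e (nat_lit 2391) (nat_lit 156) (.e (nat_lit 819221) (nat_lit 6) .nil))))) (.g (nat_lit 0) (.e (nat_lit 85880) (nat_lit 0) .nil) .nil)))) (.nd (nat_lit 9) 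
(.lf (nat_lit 470331) (.g (nat_lit 3643) (.e (nat_lit 3308) (nat_lit 202) (.e (nat_lit 573493) (nat_lit 15) (.e (nat_lit 81956) (nat_lit 23) (.e (nat_lit 98386) (nat_lit 32) .nil)))) (.g (nat_lit 0) (.e (nat_lit 85069) (nat_lit 0) .nil) .nil))) 
(.lf (nat_lit 470843) (.g (nat_lit 1856) (.e (nat_lit 3397) (nat_lit 211) (.e (nat_lit 647183) (nat_lit 4) (.e (nat_lit 172097) (nat_lit 9) (.e (nat_lit 426025) (nat_lit 0) (.e (nat_lit 3397) (nat_lit 211) (.e (nat_lit 647183) (nat_lit 4) (.e (nat_lit 172097) (nat_lit 9) (.e (nat_lit 426025) (nat_lit 0) .nil)))))))) (.g (nat_lit 1) (.e (nat_lit 86471) (nat_lit 0) .nil) .nil))))) 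
(.nd (nat_lit 8) (.nd (nat_lit 9) 
(.lf (nat_lit 470203) (.g (nat_lit 1738) (.e (nat_lit 3308) (nat_lit 202) (.e (nat_lit 573491) (nat_lit 15) (.e (nat_lit 81956) (nat_lit 23) (.e (nat_lit 98387) (nat_lit 33) (.e (nat_lit 491549) (nat_lit 9) .nil))))) (.g (nat_lit 0) (.e (nat_lit 84710) (nat_lit 0) .nil) .nil))) 
(.lf (nat_lit 470715) (.g (nat_lit 3974) (.e (nat_lit 3397) (nat_lit 211) (.e (nat_lit 647180) (nat_lit 3) (.e (nat_lit 163978) (nat_lit 30) (.e (nat_lit 573485) (nat_lit 13) (.e (nat_lit 65619) (nat_lit 10) (.e (nat_lit 344117) (nat_lit 21) (.e (nat_lit 516151) (nat_lit 9) (.e (nat_lit 426003) (nat_lit 0) .nil)))))))) (.g (nat_lit 1) (.e (nat_lit 86323) (nat_lit 0) .nil) .nil)))) 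
(.nd (nat_lit 9) 
(.lf (nat_lit 470459) (.g (nat_lit 2452) (.e (nat_lit 3309) (nat_lit 202) (.e (nat_lit 573489) (nat_lit 14) (.e (nat_lit 73755) (nat_lit 8) (.e (nat_lit 557096) (nat_lit 13) (.e (nat_lit 179968) (nat_lit 18) (.e (nat_lit 98333) (nat_lit 18) (.e (nat_lit 164325) (nat_lit 230) (.e (nat_lit 163841) (nat_lit 0) .nil)))))))) (.g (nat_lit 1) (.e (nat_lit 85527) (nat_lit 0) .nil) .nil))) 
(.lf (nat_lit 470971) (.g (nat_lit 2482) (.e (nat_lit 3397) (nat_lit 211) (.e (nat_lit 647185) (nat_lit 6) (.e (nat_lit 188446) (nat_lit 21) (.e (nat_lit 164348) (nat_lit 240) (.e (nat_lit 2648) (nat_lit 166) (.e (nat_lit 188431) (nat_lit 20) .nil)))))) (.g (nat_lit 1) (.e (nat_lit 86615) (nat_lit 0) .nil) .nil)))))) (.nd (nat_lit 7) (.nd (nat_lit 8) (.nd (nat_lit 9) 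
(.lf (nat_lit 470139) (.g (nat_lit 3797) (.e (nat_lit 3308) (nat_lit 202) (.e (nat_lit 573482) (nat_lit 13) (.e (nat_lit 65619) (nat_lit 10) (.e (nat_lit 344129) (nat_lit 26) (.e (nat_lit 557087) (nat_lit 11) (.e (nat_lit 24623) (nat_lit 9) (.e (nat_lit 336261) (nat_lit 15) .nil))))))) (.g (nat_lit 1) (.e (nat_lit 84440) (nat_lit 0) .nil) .nil))) 
(.lf (nat_lit 470651) (.g (nat_lit 2974) (.e (nat_lit 3394) (nat_lit 210) (.e (nat_lit 638998) (nat_lit 8) (.e (nat_lit 172123) (nat_lit 13) (.e (nat_lit 483404) (nat_lit 26) (.e (nat_lit 385109) (nat_lit 51) (.e (nat_lit 794640) (nat_lit 20) .nil)))))) (.g (nat_lit 1) (.e (nat_lit 85975) (nat_lit 0) .nil) .nil)))) (.nd (nat_lit 9) 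
(.lf (nat_lit 470395) (.g (nat_lit 3479) (.e (nat_lit 3309) (nat_lit 202) (.e (nat_lit 573484) (nat_lit 13) (.e (nat_lit 65617) (nat_lit 10) (.e (nat_lit 344130) (nat_lit 26) (.e (nat_lit 557087) (nat_lit 11) (.e (nat_lit 24636) (nat_lit 9) (.e (nat_lit 336237) (nat_lit 15) .nil))))))) (.g (nat_lit 1) (.e (nat_lit 85332) (nat_lit 0) .nil) .nil))) 
(.lf (nat_lit 470907) (.g (nat_lit 1948) (.e (nat_lit 3397) (nat_lit 211) (.e (nat_lit 647183) (nat_lit 4) (.e (nat_lit 172124) (nat_lit 14) (.e (nat_lit 491556) (nat_lit 9) (.e (nat_lit 336429) (nat_lit 29) (.e (nat_lit 442399) (nat_lit 20) .nil)))))) (.g (nat_lit 1) (.e (nat_lit 86539) (nat_lit 0) .nil) .nil))))) (.nd (nat_lit 8) (.nd (nat_lit 9) 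
(.lf (nat_lit 470267) (.g (nat_lit 2384) (.e (nat_lit 3308) (nat_lit 202) (.e (nat_lit 573493) (nat_lit 15) (.e (nat_lit 81954) (nat_lit 23) (.e (nat_lit 98319) (nat_lit 17) .nil)))) (.g (nat_lit 0) (.e (nat_lit 84895) (nat_lit 0) .nil) .nil))) 
(.lf (nat_lit 470779) (.g (nat_lit 4453) (.e (nat_lit 3397) (nat_lit 211) (.e (nat_lit 647181) (nat_lit 3) (.e (nat_lit 163978) (nat_lit 30) (.e (nat_lit 573485) (nat_lit 13) (.e (nat_lit 65604) (nat_lit 9) (.e (nat_lit 336013) (nat_lit 2) (.e (nat_lit 90170) (nat_lit 13) (.e (nat_lit 172035) (nat_lit 0) .nil)))))))) (.g (nat_lit 1) (.e (nat_lit 86389) (nat_lit 0) .nil) .nil)))) (.nd (nat_lit 9) 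
(.lf (nat_lit 470523) (.g (nat_lit 2546) (.e (nat_lit 3277) (nat_lit 200) (.e (nat_lit 557105) (nat_lit 14) (.e (nat_lit 180251) (nat_lit 10) (.e (nat_lit 573484) (nat_lit 13) (.e (nat_lit 65568) (nat_lit 2) .nil))))) (.g (nat_lit 0) (.e (nat_lit 85788) (nat_lit 0) .nil) .nil))) 
(.lf (nat_lit 471035) (.g (nat_lit 2835) (.e (nat_lit 3399) (nat_lit 211) (.e (nat_lit 647181) (nat_lit 3) (.e (nat_lit 163978) (nat_lit 30) (.e (nat_lit 573479) (nat_lit 13) (.e (nat_lit 65604) (nat_lit 9) (.e (nat_lit 336013) (nat_lit 2) (.e (nat_lit 90170) (nat_lit 13) (.e (nat_lit 172039) (nat_lit 0) .nil)))))))) (.g (nat_lit 1) (.e (nat_lit 86720) (nat_lit 0) .nil) .nil)))))))))) 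
(.nd (nat_lit 3) (.nd (nat_lit 4) (.nd (nat_lit 5) (.nd (nat_lit 6) (.nd (nat_lit 7) 
(.nd (nat_lit 8) (.nd (nat_lit 9) 
(.lf (nat_lit 470023) (.g (nat_lit 3455) (.e (nat_lit 3308) (nat_lit 202) (.e (nat_lit 573475) (nat_lit 12) (.e (nat_lit 57574) (nat_lit 55) (.e (nat_lit 778465) (nat_lit 11) (.e (nat_lit 24604) (nat_lit 2) (.e (nat_lit 90176) (nat_lit 15) (.e (nat_lit 188439) (nat_lit 20) .nil))))))) (.g (nat_lit 1) (.e (nat_lit 84311) (nat_lit 0) .nil) .nil))) 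
(.lf (nat_lit 470535) (.g (nat_lit 2623) (.e (nat_lit 3278) (nat_lit 200) (.e (nat_lit 557105) (nat_lit 14) (.e (nat_lit 180251) (nat_lit 10) (.e (nat_lit 573484) (nat_lit 13) (.e (nat_lit 65568) (nat_lit 2) .nil))))) (.g (nat_lit 0) (.e (nat_lit 85801) (nat_lit 0) .nil) .nil)))) (.nd (nat_lit 9) 
(.lf (nat_lit 470279) (.g (nat_lit 3366) (.e (nat_lit 3308) (nat_lit 202) (.e (nat_lit 573493) (nat_lit 15) (.e (nat_lit 81954) (nat_lit 23) (.e (nat_lit 98386) (nat_lit 32) (.e (nat_lit 475209) (nat_lit 41) (.e (nat_lit 712716) (nat_lit 15) .nil)))))) (.g (nat_lit 1) (.e (nat_lit 84924) (nat_lit 0) .nil) .nil))) 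
(.lf (nat_lit 470791) (.g (nat_lit 4364) (.e (nat_lit 3397) (nat_lit 211) (.e (nat_lit 647181) (nat_lit 3) (.e (nat_lit 163979) (nat_lit 30) (.e (nat_lit 573482) (nat_lit 13) (.e (nat_lit 65604) (nat_lit 9) (.e (nat_lit 336013) (nat_lit 2) (.e (nat_lit 90170) (nat_lit 13) (.e (nat_lit 172035) (nat_lit 0) .nil)))))))) (.g (nat_lit 1) (.e (nat_lit 86402) (nat_lit 0) .nil) .nil))))) 
(.nd (nat_lit 8) (.nd (nat_lit 9) 
(.lf (nat_lit 470151) (.g (nat_lit 2932) (.e (nat_lit 3308) (nat_lit 202) (.e (nat_lit 573482) (nat_lit 13) (.e (nat_lit 65628) (nat_lit 14) (.e (nat_lit 401425) (nat_lit 2) (.e (nat_lit 196681) (nat_lit 17) (.e (nat_lit 131109) (nat_lit 9) (.e (nat_lit 336306) (nat_lit 15) .nil))))))) (.g (nat_lit 1) (.e (nat_lit 84452) (nat_lit 0) .nil) .nil))) 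
(.lf (nat_lit 470663) (.g (nat_lit 2038) (.e (nat_lit 3388) (nat_lit 210) (.e (nat_lit 639020) (nat_lit 16) (.e (nat_lit 65586) (nat_lit 7) (.e (nat_lit 319531) (nat_lit 16) (.e (nat_lit 286748) (nat_lit 9) (.e (nat_lit 336295) (nat_lit 15) (.e (nat_lit 3748) (nat_lit 228) (.e (nat_lit 786436) (nat_lit 0) .nil)))))))) (.g (nat_lit 1) (.e (nat_lit 85990) (nat_lit 0) .nil) .nil)))) (.nd (nat_lit 9) 
(.lf (nat_lit 470407) (.g (nat_lit 1138) (.e (nat_lit 3309) (nat_lit 202) (.e (nat_lit 573485) (nat_lit 13) (.e (nat_lit 65619) (nat_lit 10) (.e (nat_lit 344117) (nat_lit 21) .nil)))) (.g (nat_lit 0) (.e (nat_lit 85437) (nat_lit 0) .nil) .nil))) 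
(.lf (nat_lit 470919) (.g (nat_lit 3468) (.e (nat_lit 3397) (nat_lit 211) (.e (nat_lit 647183) (nat_lit 4) (.e (nat_lit 172124) (nat_lit 14) (.e (nat_lit 491571) (nat_lit 13) (.e (nat_lit 393275) (nat_lit 23) (.e (nat_lit 426025) (nat_lit 0) .nil)))))) (.g (nat_lit 1) (.e (nat_lit 86551) (nat_lit 0) .nil) .nil)))))) (.nd (nat_lit 7) (.nd (nat_lit 8) (.nd (nat_lit 9) 
(.lf (nat_lit 470087) (.g (nat_lit 2096) (.e (nat_lit 3308) (nat_lit 202) (.e (nat_lit 573482) (nat_lit 13) (.e (nat_lit 65619) (nat_lit 10) (.e (nat_lit 344115) (nat_lit 20) (.e (nat_lit 507907) (nat_lit 0) (.e (nat_lit 5406) (nat_lit 302) (.e (nat_lit 73472) (nat_lit 15) .nil))))))) (.g (nat_lit 1) (.e (nat_lit 84385) (nat_lit 0) .nil) .nil))) 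
(.lf (nat_lit 470599) (.g (nat_lit 1014) (.e (nat_lit 3289) (nat_lit 201) (.e (nat_lit 565267) (nat_lit 4) (.e (nat_lit 65616) (nat_lit 10) (.e (nat_lit 344183) (nat_lit 49) (.e (nat_lit 819221) (nat_lit 6) (.e (nat_lit 188438) (nat_lit 20) .nil)))))) (.g (nat_lit 1) (.e (nat_lit 85899) (nat_lit 0) .nil) .nil)))) (.nd (nat_lit 9) 
(.lf (nat_lit 470343) (.g (nat_lit 3808) (.e (nat_lit 3308) (nat_lit 202) (.e (nat_lit 573493) (nat_lit 15) (.e (nat_lit 81956) (nat_lit 23) (.e (nat_lit 98389) (nat_lit 33) (.e (nat_lit 491548) (nat_lit 9) (.e (nat_lit 336306) (nat_lit 15) .nil)))))) (.g (nat_lit 1) (.e (nat_lit 85081) (nat_lit 0) .nil) .nil))) 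
(.lf (nat_lit 470855) (.g (nat_lit 2504) (.e (nat_lit 3397) (nat_lit 211) (.e (nat_lit 647183) (nat_lit 4) (.e (nat_lit 172106) (nat_lit 10) (.e (nat_lit 434271) (nat_lit 38) (.e (nat_lit 655380) (nat_lit 6) (.e (nat_lit 188431) (nat_lit 20) .nil)))))) (.g (nat_lit 1) (.e (nat_lit 86484) (nat_lit 0) .nil) .nil))))) (.nd (nat_lit 8) (.nd (nat_lit 9) 
(.lf (nat_lit 470215) (.g (nat_lit 2776) (.e (nat_lit 3308) (nat_lit 202) (.e (nat_lit 573492) (nat_lit 15) (.e (nat_lit 81956) (nat_lit 23) (.e (nat_lit 98320) (nat_lit 17) (.e (nat_lit 7589) (nat_lit 406) (.e (nat_lit 73472) (nat_lit 15) .nil)))))) (.g (nat_lit 1) (.e (nat_lit 84723) (nat_lit 0) .nil) .nil))) 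
(.lf (nat_lit 470727) (.g (nat_lit 4185) (.e (nat_lit 3397) (nat_lit 211) (.e (nat_lit 647181) (nat_lit 3) (.e (nat_lit 163977) (nat_lit 30) (.e (nat_lit 573482) (nat_lit 13) (.e (nat_lit 65604) (nat_lit 9) (.e (nat_lit 336028) (nat_lit 3) (.e (nat_lit 98359) (nat_lit 26) (.e (nat_lit 426023) (nat_lit 0) .nil)))))))) (.g (nat_lit 1) (.e (nat_lit 86337) (nat_lit 0) .nil) .nil)))) (.nd (nat_lit 9) 
(.lf (nat_lit 470471) (.g (nat_lit 4417) (.e (nat_lit 3309) (nat_lit 202) (.e (nat_lit 573493) (nat_lit 15) (.e (nat_lit 81956) (nat_lit 23) (.e (nat_lit 98388) (nat_lit 33) (.e (nat_lit 491549) (nat_lit 9) .nil))))) (.g (nat_lit 0) (.e (nat_lit 85604) (nat_lit 0) .nil) .nil))) 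
(.lf (nat_lit 470983) (.g (nat_lit 4899) (.e (nat_lit 3399) (nat_lit 211) (.e (nat_lit 647180) (nat_lit 3) (.e (nat_lit 163978) (nat_lit 30) (.e (nat_lit 573484) (nat_lit 13) (.e (nat_lit 65610) (nat_lit 10) (.e (nat_lit 344117) (nat_lit 21) (.e (nat_lit 516151) (nat_lit 9) (.e (nat_lit 426022) (nat_lit 0) .nil)))))))) (.g (nat_lit 1) (.e (nat_lit 86665) (nat_lit 0) .nil) .nil))))))) 
(.nd (nat_lit 6) (.nd (nat_lit 7) (.nd (nat_lit 8) (.nd (nat_lit 9) 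
(.lf (nat_lit 470055) (.g (nat_lit 3211) (.e (nat_lit 3308) (nat_lit 202) (.e (nat_lit 573482) (nat_lit 13) (.e (nat_lit 65604) (nat_lit 9) (.e (nat_lit 336013) (nat_lit 2) (.e (nat_lit 90165) (nat_lit 12) (.e (nat_lit 164214) (nat_lit 176) (.e (nat_lit 2789) (nat_lit 179) (.e (nat_lit 294966) (nat_lit 15) .nil)))))))) (.g (nat_lit 1) (.e (nat_lit 84350) (nat_lit 0) .nil) .nil))) 
(.lf (nat_lit 470567) (.g (nat_lit 1417) (.e (nat_lit 7936) (nat_lit 200) (.e (nat_lit 557104) (nat_lit 14) (.e (nat_lit 180252) (nat_lit 10) (.e (nat_lit 573480) (nat_lit 13) .nil)))) (.g (nat_lit 0) (.e (nat_lit 85857) (nat_lit 0) .nil) .nil)))) (.nd (nat_lit 9) 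
(.lf (nat_lit 470311) (.g (nat_lit 2143) (.e (nat_lit 3308) (nat_lit 202) (.e (nat_lit 573493) (nat_lit 15) (.e (nat_lit 81956) (nat_lit 23) (.e (nat_lit 98349) (nat_lit 24) .nil)))) (.g (nat_lit 0) (.e (nat_lit 84979) (nat_lit 0) .nil) .nil))) 
(.lf (nat_lit 470823) (.g (nat_lit 435) (.e (nat_lit 3397) (nat_lit 211) (.e (nat_lit 647183) (nat_lit 4) (.e (nat_lit 172077) (nat_lit 7) .nil))) (.g (nat_lit 0) (.e (nat_lit 86451) (nat_lit 0) .nil) .nil))))) (.nd (nat_lit 8) (.nd (nat_lit 9) 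
(.lf (nat_lit 470183) (.g (nat_lit 1915) (.e (nat_lit 3308) (nat_lit 202) (.e (nat_lit 573491) (nat_lit 15) (.e (nat_lit 81951) (nat_lit 22) (.e (nat_lit 90165) (nat_lit 12) (.e (nat_lit 164208) (nat_lit 176) (.e (nat_lit 2781) (nat_lit 178) (.e (nat_lit 294656) (nat_lit 15) .nil))))))) (.g (nat_lit 1) (.e (nat_lit 84662) (nat_lit 0) .nil) .nil))) 
(.lf (nat_lit 470695) (.g (nat_lit 1869) (.e (nat_lit 3391) (nat_lit 210) (.e (nat_lit 639025) (nat_lit 20) (.e (nat_lit 131116) (nat_lit 9) (.e (nat_lit 335988) (nat_lit 1) (.e (nat_lit 57830) (nat_lit 250) (.e (nat_lit 7936) (nat_lit 166) (.e (nat_lit 188441) (nat_lit 20) .nil))))))) (.g (nat_lit 1) (.e (nat_lit 86266) (nat_lit 0) .nil) .nil)))) (.nd (nat_lit 9) 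
(.lf (nat_lit 470439) (.g (nat_lit 1959) (.e (nat_lit 3309) (nat_lit 202) (.e (nat_lit 573485) (nat_lit 13) (.e (nat_lit 65628) (nat_lit 14) (.e (nat_lit 401428) (nat_lit 3) (.e (nat_lit 204859) (nat_lit 26) (.e (nat_lit 336118) (nat_lit 9) (.e (nat_lit 336239) (nat_lit 15) .nil))))))) (.g (nat_lit 1) (.e (nat_lit 85482) (nat_lit 0) .nil) .nil))) 
(.lf (nat_lit 470951) (.g (nat_lit 569) (.e (nat_lit 3397) (nat_lit 211) (.e (nat_lit 647185) (nat_lit 6) (.e (nat_lit 188424) (nat_lit 20) .nil))) (.g (nat_lit 0) (.e (nat_lit 86592) (nat_lit 0) .nil) .nil)))))) (.nd (nat_lit 7) (.nd (nat_lit 8) (.nd (nat_lit 9) 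
(.lf (nat_lit 470119) (.g (nat_lit 2395) (.e (nat_lit 3308) (nat_lit 202) (.e (nat_lit 573482) (nat_lit 13) (.e (nat_lit 65619) (nat_lit 10) (.e (nat_lit 344117) (nat_lit 21) (.e (nat_lit 516180) (nat_lit 15) (.e (nat_lit 475210) (nat_lit 41) (.e (nat_lit 712716) (nat_lit 15) .nil))))))) (.g (nat_lit 1) (.e (nat_lit 84419) (nat_lit 0) .nil) .nil))) 
(.lf (nat_lit 470631) (.g (nat_lit 3212) (.e (nat_lit 3338) (nat_lit 205) (.e (nat_lit 598061) (nat_lit 16) (.e (nat_lit 172064) (nat_lit 2) (.e (nat_lit 196666) (nat_lit 13) (.e (nat_lit 65610) (nat_lit 10) (.e (nat_lit 344117) (nat_lit 21) (.e (nat_lit 516106) (nat_lit 0) .nil))))))) (.g (nat_lit 1) (.e (nat_lit 85935) (nat_lit 0) .nil) .nil)))) (.nd (nat_lit 9) 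
(.lf (nat_lit 470375) (.g (nat_lit 2858) (.e (nat_lit 3309) (nat_lit 202) (.e (nat_lit 573484) (nat_lit 13) (.e (nat_lit 65610) (nat_lit 10) (.e (nat_lit 344129) (nat_lit 26) (.e (nat_lit 557086) (nat_lit 11) (.e (nat_lit 24625) (nat_lit 9) (.e (nat_lit 336240) (nat_lit 15) .nil))))))) (.g (nat_lit 1) (.e (nat_lit 85259) (nat_lit 0) .nil) .nil))) 
(.lf (nat_lit 470887) (.g (nat_lit 1672) (.e (nat_lit 3397) (nat_lit 211) (.e (nat_lit 647183) (nat_lit 4) (.e (nat_lit 172119) (nat_lit 12) (.e (nat_lit 475198) (nat_lit 40) (.e (nat_lit 704598) (nat_lit 6) (.e (nat_lit 188427) (nat_lit 20) .nil)))))) (.g (nat_lit 1) (.e (nat_lit 86519) (nat_lit 0) .nil) .nil))))) (.nd (nat_lit 8) (.nd (nat_lit 9) 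
(.lf (nat_lit 470247) (.g (nat_lit 3438) (.e (nat_lit 3308) (nat_lit 202) (.e (nat_lit 573493) (nat_lit 15) (.e (nat_lit 81953) (nat_lit 22) (.e (nat_lit 90134) (nat_lit 9) (.e (nat_lit 3098) (nat_lit 192) (.e (nat_lit 491548) (nat_lit 9) (.e (nat_lit 336306) (nat_lit 15) .nil))))))) (.g (nat_lit 1) (.e (nat_lit 84846) (nat_lit 0) .nil) .nil))) 
(.lf (nat_lit 470759) (.g (nat_lit 3727) (.e (nat_lit 3397) (nat_lit 211) (.e (nat_lit 647181) (nat_lit 3) (.e (nat_lit 163977) (nat_lit 30) (.e (nat_lit 573493) (nat_lit 15) (.e (nat_lit 81956) (nat_lit 23) (.e (nat_lit 98354) (nat_lit 26) (.e (nat_lit 426025) (nat_lit 0) .nil))))))) (.g (nat_lit 1) (.e (nat_lit 86369) (nat_lit 0) .nil) .nil)))) (.nd (nat_lit 9) 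
(.lf (nat_lit 470503) (.g (nat_lit 2299) (.e (nat_lit 3276) (nat_lit 200) (.e (nat_lit 557105) (nat_lit 14) (.e (nat_lit 180251) (nat_lit 10) (.e (nat_lit 573484) (nat_lit 13) (.e (nat_lit 65568) (nat_lit 2) (.e (nat_lit 98048) (nat_lit 2) (.e (nat_lit 16387) (nat_lit 0) .nil))))))) (.g (nat_lit 1) (.e (nat_lit 85768) (nat_lit 0) .nil) .nil))) 
(.lf (nat_lit 471015) (.g (nat_lit 4151) (.e (nat_lit 3399) (nat_lit 211) (.e (nat_lit 647181) (nat_lit 3) (.e (nat_lit 163977) (nat_lit 30) (.e (nat_lit 573485) (nat_lit 13) (.e (nat_lit 65619) (nat_lit 10) (.e (nat_lit 344117) (nat_lit 21) (.e (nat_lit 516151) (nat_lit 9) (.e (nat_lit 426023) (nat_lit 0) .nil)))))))) (.g (nat_lit 1) (.e (nat_lit 86699) (nat_lit 0) .nil) .nil)))))))) 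
(.nd (nat_lit 5) (.nd (nat_lit 6) (.nd (nat_lit 7) (.nd (nat_lit 8) (.nd (nat_lit 9) 
(.lf (nat_lit 470039) (.g (nat_lit 2229) (.e (nat_lit 3308) (nat_lit 202) (.e (nat_lit 573480) (nat_lit 13) (.e (nat_lit 65630) (nat_lit 14) (.e (nat_lit 401425) (nat_lit 2) (.e (nat_lit 196666) (nat_lit 13) (.e (nat_lit 65599) (nat_lit 9) (.e (nat_lit 343808) (nat_lit 15) .nil))))))) (.g (nat_lit 1) (.e (nat_lit 84333) (nat_lit 0) .nil) .nil))) 
(.lf (nat_lit 470551) (.g (nat_lit 2438) (.e (nat_lit 3280) (nat_lit 200) (.e (nat_lit 557103) (nat_lit 14) (.e (nat_lit 180250) (nat_lit 10) (.e (nat_lit 573485) (nat_lit 13) (.e (nat_lit 65568) (nat_lit 2) .nil))))) (.g (nat_lit 0) (.e (nat_lit 85820) (nat_lit 0) .nil) .nil)))) (.nd (nat_lit 9) 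
(.lf (nat_lit 470295) (.g (nat_lit 1900) (.e (nat_lit 3308) (nat_lit 202) (.e (nat_lit 573493) (nat_lit 15) (.e (nat_lit 81956) (nat_lit 23) (.e (nat_lit 98323) (nat_lit 17) .nil)))) (.g (nat_lit 0) (.e (nat_lit 84942) (nat_lit 0) .nil) .nil))) 
(.lf (nat_lit 470807) (.g (nat_lit 3308) (.e (nat_lit 3397) (nat_lit 211) (.e (nat_lit 647181) (nat_lit 3) (.e (nat_lit 163979) (nat_lit 30) (.e (nat_lit 573491) (nat_lit 15) (.e (nat_lit 81954) (nat_lit 23) (.e (nat_lit 98362) (nat_lit 26) (.e (nat_lit 426025) (nat_lit 0) .nil))))))) (.g (nat_lit 1) (.e (nat_lit 86418) (nat_lit 0) .nil) .nil))))) (.nd (nat_lit 8) (.nd (nat_lit 9) 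
(.lf (nat_lit 470167) (.g (nat_lit 2696) (.e (nat_lit 3308) (nat_lit 202) (.e (nat_lit 573482) (nat_lit 13) (.e (nat_lit 65630) (nat_lit 14) (.e (nat_lit 401428) (nat_lit 3) (.e (nat_lit 204866) (nat_lit 28) (.e (nat_lit 360192) (nat_lit 0) .nil)))))) (.g (nat_lit 1) (.e (nat_lit 84469) (nat_lit 0) .nil) .nil))) 
(.lf (nat_lit 470679) (.g (nat_lit 2105) (.e (nat_lit 3390) (nat_lit 210) (.e (nat_lit 639021) (nat_lit 16) (.e (nat_lit 65610) (nat_lit 10) (.e (nat_lit 344160) (nat_lit 37) (.e (nat_lit 647190) (nat_lit 9) (.e (nat_lit 7936) (nat_lit 34) (.e (nat_lit 442403) (nat_lit 20) .nil))))))) (.g (nat_lit 1) (.e (nat_lit 86101) (nat_lit 0) .nil) .nil)))) (.nd (nat_lit 9) 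
(.lf (nat_lit 470423) (.g (nat_lit 4242) (.e (nat_lit 3309) (nat_lit 202) (.e (nat_lit 573485) (nat_lit 13) (.e (nat_lit 65619) (nat_lit 10) (.e (nat_lit 344129) (nat_lit 26) (.e (nat_lit 557085) (nat_lit 11) (.e (nat_lit 24625) (nat_lit 9) (.e (nat_lit 336240) (nat_lit 15) .nil))))))) (.g (nat_lit 1) (.e (nat_lit 85465) (nat_lit 0) .nil) .nil))) 
(.lf (nat_lit 470935) (.g (nat_lit 2415) (.e (nat_lit 3397) (nat_lit 211) (.e (nat_lit 647183) (nat_lit 4) (.e (nat_lit 172126) (nat_lit 14) (.e (nat_lit 491569) (nat_lit 13) (.e (nat_lit 393266) (nat_lit 23) (.e (nat_lit 426025) (nat_lit 0) .nil)))))) (.g (nat_lit 1) (.e (nat_lit 86567) (nat_lit 0) .nil) .nil)))))) (.nd (nat_lit 7) (.nd (nat_lit 8) (.nd (nat_lit 9) 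
(.lf (nat_lit 470103) (.g (nat_lit 2837) (.e (nat_lit 3308) (nat_lit 202) (.e (nat_lit 573482) (nat_lit 13) (.e (nat_lit 65619) (nat_lit 10) (.e (nat_lit 344117) (nat_lit 21) (.e (nat_lit 516102) (nat_lit 0) (.e (nat_lit 7107) (nat_lit 380) (.e (nat_lit 164339) (nat_lit 232) (.e (nat_lit 77) (nat_lit 0) .nil)))))))) (.g (nat_lit 1) (.e (nat_lit 84403) (nat_lit 0) .nil) .nil))) 
(.lf (nat_lit 470615) (.g (nat_lit 1172) (.e (nat_lit 3289) (nat_lit 201) (.e (nat_lit 565269) (nat_lit 6) (.e (nat_lit 81942) (nat_lit 20) (.e (nat_lit 2390) (nat_lit 156) (.e (nat_lit 819221) (nat_lit 6) (.e (nat_lit 188439) (nat_lit 20) .nil)))))) (.g (nat_lit 1) (.e (nat_lit 85916) (nat_lit 0) .nil) .nil)))) (.nd (nat_lit 9) 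
(.lf (nat_lit 470359) (.g (nat_lit 635) (.e (nat_lit 3309) (nat_lit 202) (.e (nat_lit 573484) (nat_lit 13) (.e (nat_lit 65610) (nat_lit 10) (.e (nat_lit 344117) (nat_lit 21) .nil)))) (.g (nat_lit 0) (.e (nat_lit 85125) (nat_lit 0) .nil) .nil))) 
(.lf (nat_lit 470871) (.g (nat_lit 2891) (.e (nat_lit 3397) (nat_lit 211) (.e (nat_lit 647183) (nat_lit 4) (.e (nat_lit 172115) (nat_lit 10) (.e (nat_lit 434209) (nat_lit 18) (.e (nat_lit 5547) (nat_lit 306) (.e (nat_lit 2650) (nat_lit 166) (.e (nat_lit 188427) (nat_lit 20) .nil))))))) (.g (nat_lit 1) (.e (nat_lit 86502) (nat_lit 0) .nil) .nil))))) (.nd (nat_lit 8) (.nd (nat_lit 9) 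
(.lf (nat_lit 470231) (.g (nat_lit 595) (.e (nat_lit 3308) (nat_lit 202) (.e (nat_lit 573493) (nat_lit 15) (.e (nat_lit 81951) (nat_lit 22) .nil))) (.g (nat_lit 0) (.e (nat_lit 84824) (nat_lit 0) .nil) .nil))) 
(.lf (nat_lit 470743) (.g (nat_lit 4140) (.e (nat_lit 3397) (nat_lit 211) (.e (nat_lit 647181) (nat_lit 3) (.e (nat_lit 163977) (nat_lit 30) (.e (nat_lit 573485) (nat_lit 13) (.e (nat_lit 65604) (nat_lit 9) (.e (nat_lit 336028) (nat_lit 3) (.e (nat_lit 98359) (nat_lit 26) (.e (nat_lit 426023) (nat_lit 0) .nil)))))))) (.g (nat_lit 1) (.e (nat_lit 86353) (nat_lit 0) .nil) .nil)))) (.nd (nat_lit 9) 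
(.lf (nat_lit 470487) (.g (nat_lit 2087) (.e (nat_lit 7936) (nat_lit 202) (.e (nat_lit 573482) (nat_lit 13) (.e (nat_lit 65628) (nat_lit 14) (.e (nat_lit 401428) (nat_lit 3) (.e (nat_lit 204877) (nat_lit 31) .nil))))) (.g (nat_lit 0) (.e (nat_lit 85701) (nat_lit 0) .nil) .nil))) 
(.lf (nat_lit 470999) (.g (nat_lit 4396) (.e (nat_lit 3399) (nat_lit 211) (.e (nat_lit 647181) (nat_lit 3) (.e (nat_lit 163977) (nat_lit 30) (.e (nat_lit 573482) (nat_lit 13) (.e (nat_lit 65604) (nat_lit 9) (.e (nat_lit 336028) (nat_lit 3) (.e (nat_lit 98359) (nat_lit 26) (.e (nat_lit 426025) (nat_lit 0) .nil)))))))) (.g (nat_lit 1) (.e (nat_lit 86683) (nat_lit 0) .nil) .nil))))))) 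
(.nd (nat_lit 6) (.nd (nat_lit 7) (.nd (nat_lit 8) (.nd (nat_lit 9) 
(.lf (nat_lit 470071) (.g (nat_lit 3801) (.e (nat_lit 3308) (nat_lit 202) (.e (nat_lit 573482) (nat_lit 13) (.e (nat_lit 65604) (nat_lit 9) (.e (nat_lit 336028) (nat_lit 3) (.e (nat_lit 98325) (nat_lit 17) (.e (nat_lit 7008) (nat_lit 377) (.e (nat_lit 2789) (nat_lit 179) (.e (nat_lit 294966) (nat_lit 15) .nil)))))))) (.g (nat_lit 1) (.e (nat_lit 84366) (nat_lit 0) .nil) .nil))) 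
(.lf (nat_lit 470583) (.g (nat_lit 566) (.e (nat_lit 3288) (nat_lit 201) (.e (nat_lit 565269) (nat_lit 6) (.e (nat_lit 81939) (nat_lit 20) .nil))) (.g (nat_lit 0) (.e (nat_lit 85875) (nat_lit 0) .nil) .nil)))) (.nd (nat_lit 9) 
(.lf (nat_lit 470327) (.g (nat_lit 4327) (.e (nat_lit 3308) (nat_lit 202) (.e (nat_lit 573493) (nat_lit 15) (.e (nat_lit 81956) (nat_lit 23) (.e (nat_lit 98384) (nat_lit 32) (.e (nat_lit 475210) (nat_lit 41) .nil))))) (.g (nat_lit 0) (.e (nat_lit 85065) (nat_lit 0) .nil) .nil))) 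
(.lf (nat_lit 470839) (.g (nat_lit 2358) (.e (nat_lit 3397) (nat_lit 211) (.e (nat_lit 647183) (nat_lit 4) (.e (nat_lit 172094) (nat_lit 9) (.e (nat_lit 426025) (nat_lit 0) (.e (nat_lit 3397) (nat_lit 211) (.e (nat_lit 647183) (nat_lit 4) (.e (nat_lit 172097) (nat_lit 9) (.e (nat_lit 426025) (nat_lit 0) .nil)))))))) (.g (nat_lit 1) (.e (nat_lit 86467) (nat_lit 0) .nil) .nil))))) 
(.nd (nat_lit 8) (.nd (nat_lit 9) 
(.lf (nat_lit 470199) (.g (nat_lit 2435) (.e (nat_lit 3308) (nat_lit 202) (.e (nat_lit 573491) (nat_lit 15) (.e (nat_lit 81954) (nat_lit 23) (.e (nat_lit 98389) (nat_lit 33) (.e (nat_lit 491548) (nat_lit 9) (.e (nat_lit 336306) (nat_lit 15) .nil)))))) (.g (nat_lit 1) (.e (nat_lit 84700) (nat_lit 0) .nil) .nil))) 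
(.lf (nat_lit 470711) (.g (nat_lit 3424) (.e (nat_lit 3397) (nat_lit 211) (.e (nat_lit 647180) (nat_lit 3) (.e (nat_lit 163976) (nat_lit 30) (.e (nat_lit 573481) (nat_lit 13) (.e (nat_lit 65619) (nat_lit 10) (.e (nat_lit 344117) (nat_lit 21) (.e (nat_lit 516151) (nat_lit 9) (.e (nat_lit 426003) (nat_lit 0) .nil)))))))) (.g (nat_lit 1) (.e (nat_lit 86317) (nat_lit 0) .nil) .nil)))) 
(.nd (nat_lit 9) 
(.lf (nat_lit 470455) (.g (nat_lit 1496) (.e (nat_lit 3309) (nat_lit 202) (.e (nat_lit 573485) (nat_lit 13) (.e (nat_lit 65630) (nat_lit 14) (.e (nat_lit 401428) (nat_lit 3) (.e (nat_lit 204876) (nat_lit 31) (.e (nat_lit 384768) (nat_lit 0) .nil)))))) (.g (nat_lit 1) (.e (nat_lit 85499) (nat_lit 0) .nil) .nil))) 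
(.lf (nat_lit 470967) (.g (nat_lit 2158) (.e (nat_lit 3397) (nat_lit 211) (.e (nat_lit 647185) (nat_lit 6) (.e (nat_lit 188441) (nat_lit 20) (.e (nat_lit 3408) (nat_lit 212) (.e (nat_lit 655380) (nat_lit 6) (.e (nat_lit 188431) (nat_lit 20) .nil)))))) (.g (nat_lit 1) (.e (nat_lit 86608) (nat_lit 0) .nil) .nil)))))) (.nd (nat_lit 7) (.nd (nat_lit 8) (.nd (nat_lit 9) 
(.lf (nat_lit 470135) (.g (nat_lit 4490) (.e (nat_lit 3308) (nat_lit 202) (.e (nat_lit 573482) (nat_lit 13) (.e (nat_lit 65619) (nat_lit 10) (.e (nat_lit 344129) (nat_lit 26) (.e (nat_lit 557085) (nat_lit 11) (.e (nat_lit 24630) (nat_lit 9) (.e (nat_lit 336306) (nat_lit 15) .nil))))))) (.g (nat_lit 1) (.e (nat_lit 84436) (nat_lit 0) .nil) .nil))) 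
(.lf (nat_lit 470647) (.g (nat_lit 5189) (.e (nat_lit 3371) (nat_lit 208) (.e (nat_lit 622620) (nat_lit 13) (.e (nat_lit 2663) (nat_lit 167) (.e (nat_lit 196666) (nat_lit 13) (.e (nat_lit 65610) (nat_lit 10) (.e (nat_lit 344117) (nat_lit 21) (.e (nat_lit 516151) (nat_lit 9) (.e (nat_lit 426042) (nat_lit 0) .nil)))))))) (.g (nat_lit 1) (.e (nat_lit 85971) (nat_lit 0) .nil) .nil)))) 
(.nd (nat_lit 9) 
(.lf (nat_lit 470391) (.g (nat_lit 3495) (.e (nat_lit 3309) (nat_lit 202) (.e (nat_lit 573484) (nat_lit 13) (.e (nat_lit 65610) (nat_lit 10) (.e (nat_lit 344129) (nat_lit 26) (.e (nat_lit 557087) (nat_lit 11) (.e (nat_lit 24636) (nat_lit 9) (.e (nat_lit 343808) (nat_lit 15) .nil))))))) (.g (nat_lit 1) (.e (nat_lit 85275) (nat_lit 0) .nil) .nil))) 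
(.lf (nat_lit 470903) (.g (nat_lit 2030) (.e (nat_lit 3397) (nat_lit 211) (.e (nat_lit 647183) (nat_lit 4) (.e (nat_lit 172124) (nat_lit 14) (.e (nat_lit 491549) (nat_lit 9) (.e (nat_lit 336369) (nat_lit 27) .nil))))) (.g (nat_lit 0) (.e (nat_lit 86535) (nat_lit 0) .nil) .nil))))) (.nd (nat_lit 8) (.nd (nat_lit 9) 
(.lf (nat_lit 470263) (.g (nat_lit 3306) (.e (nat_lit 3308) (nat_lit 202) (.e (nat_lit 573493) (nat_lit 15) (.e (nat_lit 81953) (nat_lit 22) (.e (nat_lit 90165) (nat_lit 12) (.e (nat_lit 164208) (nat_lit 176) (.e (nat_lit 2781) (nat_lit 178) (.e (nat_lit 286765) (nat_lit 15) .nil))))))) (.g (nat_lit 1) (.e (nat_lit 84863) (nat_lit 0) .nil) .nil))) 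
(.lf (nat_lit 470775) (.g (nat_lit 3995) (.e (nat_lit 3397) (nat_lit 211) (.e (nat_lit 647181) (nat_lit 3) (.e (nat_lit 163978) (nat_lit 30) (.e (nat_lit 573484) (nat_lit 13) (.e (nat_lit 65610) (nat_lit 10) (.e (nat_lit 344117) (nat_lit 21) (.e (nat_lit 516143) (nat_lit 9) (.e (nat_lit 426025) (nat_lit 0) .nil)))))))) (.g (nat_lit 1) (.e (nat_lit 86385) (nat_lit 0) .nil) .nil)))) 
(.nd (nat_lit 9) 
(.lf (nat_lit 470519) (.g (nat_lit 2061) (.e (nat_lit 3277) (nat_lit 200) (.e (nat_lit 557104) (nat_lit 14) (.e (nat_lit 180252) (nat_lit 10) (.e (nat_lit 573480) (nat_lit 13) (.e (nat_lit 65568) (nat_lit 2) .nil))))) (.g (nat_lit 0) (.e (nat_lit 85784) (nat_lit 0) .nil) .nil))) 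
(.lf (nat_lit 471031) (.g (nat_lit 5094) (.e (nat_lit 3399) (nat_lit 211) (.e (nat_lit 647181) (nat_lit 3) (.e (nat_lit 163977) (nat_lit 30) (.e (nat_lit 573493) (nat_lit 15) (.e (nat_lit 81956) (nat_lit 23) (.e (nat_lit 98360) (nat_lit 26) (.e (nat_lit 426025) (nat_lit 0) .nil))))))) (.g (nat_lit 1) (.e (nat_lit 86716) (nat_lit 0) .nil) .nil))))))))) 
(.nd (nat_lit 4) (.nd (nat_lit 5) (.nd (nat_lit 6) (.nd (nat_lit 7) (.nd (nat_lit 8) 
(.nd (nat_lit 9) 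
(.lf (nat_lit 470031) (.g (nat_lit 4773) (.e (nat_lit 3308) (nat_lit 202) (.e (nat_lit 573475) (nat_lit 12) (.e (nat_lit 57574) (nat_lit 55) (.e (nat_lit 778466) (nat_lit 11) (.e (nat_lit 24604) (nat_lit 2) (.e (nat_lit 90176) (nat_lit 15) (.e (nat_lit 188439) (nat_lit 20) .nil))))))) (.g (nat_lit 1) (.e (nat_lit 84319) (nat_lit 0) .nil) .nil))) 
(.lf (nat_lit 470543) (.g (nat_lit 2896) (.e (nat_lit 3279) (nat_lit 200) (.e (nat_lit 557104) (nat_lit 14) (.e (nat_lit 180252) (nat_lit 10) (.e (nat_lit 573482) (nat_lit 13) (.e (nat_lit 65644) (nat_lit 22) .nil))))) (.g (nat_lit 0) (.e (nat_lit 85809) (nat_lit 0) .nil) .nil)))) (.nd (nat_lit 9) 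
(.lf (nat_lit 470287) (.g (nat_lit 2877) (.e (nat_lit 3308) (nat_lit 202) (.e (nat_lit 573493) (nat_lit 15) (.e (nat_lit 81956) (nat_lit 23) (.e (nat_lit 98318) (nat_lit 17) .nil)))) (.g (nat_lit 0) (.e (nat_lit 84932) (nat_lit 0) .nil) .nil))) 
(.lf (nat_lit 470799) (.g (nat_lit 4843) (.e (nat_lit 3397) (nat_lit 211) (.e (nat_lit 647181) (nat_lit 3) (.e (nat_lit 163979) (nat_lit 30) (.e (nat_lit 573482) (nat_lit 13) (.e (nat_lit 65619) (nat_lit 10) (.e (nat_lit 344117) (nat_lit 21) (.e (nat_lit 516151) (nat_lit 9) (.e (nat_lit 426025) (nat_lit 0) .nil)))))))) (.g (nat_lit 1) (.e (nat_lit 86410) (nat_lit 0) .nil) .nil))))) 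
(.nd (nat_lit 8) (.nd (nat_lit 9) 
(.lf (nat_lit 470159) (.g (nat_lit 3012) (.e (nat_lit 3308) (nat_lit 202) (.e (nat_lit 573482) (nat_lit 13) (.e (nat_lit 65630) (nat_lit 14) (.e (nat_lit 401425) (nat_lit 2) (.e (nat_lit 196630) (nat_lit 9) .nil))))) (.g (nat_lit 0) (.e (nat_lit 84460) (nat_lit 0) .nil) .nil))) 
(.lf (nat_lit 470671) (.g (nat_lit 2936) (.e (nat_lit 3390) (nat_lit 210) (.e (nat_lit 639020) (nat_lit 16) (.e (nat_lit 65571) (nat_lit 3) (.e (nat_lit 98373) (nat_lit 29) (.e (nat_lit 450574) (nat_lit 1) .nil))))) (.g (nat_lit 0) (.e (nat_lit 86035) (nat_lit 0) .nil) .nil)))) (.nd (nat_lit 9) 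
(.lf (nat_lit 470415) (.g (nat_lit 3037) (.e (nat_lit 3309) (nat_lit 202) (.e (nat_lit 573485) (nat_lit 13) (.e (nat_lit 65619) (nat_lit 10) (.e (nat_lit 344117) (nat_lit 21) (.e (nat_lit 516106) (nat_lit 0) (.e (nat_lit 7936) (nat_lit 409) (.e (nat_lit 139008) (nat_lit 15) .nil))))))) (.g (nat_lit 1) (.e (nat_lit 85449) (nat_lit 0) .nil) .nil))) 
(.lf (nat_lit 470927) (.g (nat_lit 2639) (.e (nat_lit 3397) (nat_lit 211) (.e (nat_lit 647183) (nat_lit 4) (.e (nat_lit 172126) (nat_lit 14) (.e (nat_lit 491549) (nat_lit 9) (.e (nat_lit 336368) (nat_lit 27) (.e (nat_lit 426211) (nat_lit 9) (.e (nat_lit 426025) (nat_lit 0) .nil))))))) (.g (nat_lit 1) (.e (nat_lit 86559) (nat_lit 0) .nil) .nil)))))) 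
(.nd (nat_lit 7) (.nd (nat_lit 8) (.nd (nat_lit 9) 
(.lf (nat_lit 470095) (.g (nat_lit 3419) (.e (nat_lit 3308) (nat_lit 202) (.e (nat_lit 573482) (nat_lit 13) (.e (nat_lit 65619) (nat_lit 10) (.e (nat_lit 344117) (nat_lit 21) (.e (nat_lit 516097) (nat_lit 0) (.e (nat_lit 7589) (nat_lit 406) (.e (nat_lit 73472) (nat_lit 15) .nil))))))) (.g (nat_lit 1) (.e (nat_lit 84395) (nat_lit 0) .nil) .nil))) 
(.lf (nat_lit 470607) (.g (nat_lit 2095) (.e (nat_lit 3289) (nat_lit 201) (.e (nat_lit 565269) (nat_lit 6) (.e (nat_lit 81938) (nat_lit 20) (.e (nat_lit 2390) (nat_lit 156) (.e (nat_lit 819221) (nat_lit 6) (.e (nat_lit 188441) (nat_lit 20) .nil)))))) (.g (nat_lit 1) (.e (nat_lit 85908) (nat_lit 0) .nil) .nil)))) (.nd (nat_lit 9) 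
(.lf (nat_lit 470351) (.g (nat_lit 2976) (.e (nat_lit 3309) (nat_lit 202) (.e (nat_lit 573476) (nat_lit 12) (.e (nat_lit 57574) (nat_lit 55) (.e (nat_lit 778466) (nat_lit 11) (.e (nat_lit 24604) (nat_lit 2) (.e (nat_lit 90185) (nat_lit 17) (.e (nat_lit 237605) (nat_lit 9) (.e (nat_lit 425986) (nat_lit 0) .nil)))))))) (.g (nat_lit 1) (.e (nat_lit 85108) (nat_lit 0) .nil) .nil))) 
(.lf (nat_lit 470863) (.g (nat_lit 1980) (.e (nat_lit 3397) (nat_lit 211) (.e (nat_lit 647183) (nat_lit 4) (.e (nat_lit 172112) (nat_lit 10) (.e (nat_lit 434271) (nat_lit 38) (.e (nat_lit 655380) (nat_lit 6) (.e (nat_lit 188427) (nat_lit 20) .nil)))))) (.g (nat_lit 1) (.e (nat_lit 86492) (nat_lit 0) .nil) .nil))))) (.nd (nat_lit 8) (.nd (nat_lit 9) 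
(.lf (nat_lit 470223) (.g (nat_lit 3509) (.e (nat_lit 3308) (nat_lit 202) (.e (nat_lit 573492) (nat_lit 15) (.e (nat_lit 81956) (nat_lit 23) (.e (nat_lit 98389) (nat_lit 33) (.e (nat_lit 491547) (nat_lit 9) (.e (nat_lit 336306) (nat_lit 15) .nil)))))) (.g (nat_lit 1) (.e (nat_lit 84734) (nat_lit 0) .nil) .nil))) 
(.lf (nat_lit 470735) (.g (nat_lit 5584) (.e (nat_lit 3397) (nat_lit 211) (.e (nat_lit 647181) (nat_lit 3) (.e (nat_lit 163977) (nat_lit 30) (.e (nat_lit 573484) (nat_lit 13) (.e (nat_lit 65610) (nat_lit 10) (.e (nat_lit 344117) (nat_lit 21) (.e (nat_lit 516151) (nat_lit 9) (.e (nat_lit 426022) (nat_lit 0) .nil)))))))) (.g (nat_lit 1) (.e (nat_lit 86345) (nat_lit 0) .nil) .nil)))) 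
(.nd (nat_lit 9) 
(.lf (nat_lit 470479) (.g (nat_lit 2998) (.e (nat_lit 3311) (nat_lit 202) (.e (nat_lit 573490) (nat_lit 15) (.e (nat_lit 81956) (nat_lit 23) (.e (nat_lit 98389) (nat_lit 33) (.e (nat_lit 491552) (nat_lit 9) .nil))))) (.g (nat_lit 0) (.e (nat_lit 85648) (nat_lit 0) .nil) .nil))) 
(.lf (nat_lit 470991) (.g (nat_lit 2625) (.e (nat_lit 3399) (nat_lit 211) (.e (nat_lit 647180) (nat_lit 3) (.e (nat_lit 163979) (nat_lit 30) (.e (nat_lit 573491) (nat_lit 15) (.e (nat_lit 81954) (nat_lit 23) (.e (nat_lit 98359) (nat_lit 26) (.e (nat_lit 426023) (nat_lit 0) .nil))))))) (.g (nat_lit 1) (.e (nat_lit 86674) (nat_lit 0) .nil) .nil))))))) 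
(.nd (nat_lit 6) (.nd (nat_lit 7) (.nd (nat_lit 8) (.nd (nat_lit 9) 
(.lf (nat_lit 470063) (.g (nat_lit 2855) (.e (nat_lit 3308) (nat_lit 202) (.e (nat_lit 573482) (nat_lit 13) (.e (nat_lit 65604) (nat_lit 9) (.e (nat_lit 336013) (nat_lit 2) (.e (nat_lit 90165) (nat_lit 12) (.e (nat_lit 171776) (nat_lit 194) (.e (nat_lit 139008) (nat_lit 15) .nil))))))) (.g (nat_lit 1) (.e (nat_lit 84358) (nat_lit 0) .nil) .nil))) 
(.lf (nat_lit 470575) (.g (nat_lit 1804) (.e (nat_lit 3288) (nat_lit 201) (.e (nat_lit 565267) (nat_lit 4) (.e (nat_lit 65610) (nat_lit 10) (.e (nat_lit 344183) (nat_lit 49) (.e (nat_lit 819221) (nat_lit 6) (.e (nat_lit 188434) (nat_lit 20) .nil)))))) (.g (nat_lit 1) (.e (nat_lit 85866) (nat_lit 0) .nil) .nil)))) (.nd (nat_lit 9) 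
(.lf (nat_lit 470319) (.g (nat_lit 7799) (.e (nat_lit 3308) (nat_lit 202) (.e (nat_lit 573493) (nat_lit 15) (.e (nat_lit 81956) (nat_lit 23) (.e (nat_lit 98350) (nat_lit 24) (.e (nat_lit 409642) (nat_lit 17) (.e (nat_lit 294966) (nat_lit 15) .nil)))))) (.g (nat_lit 1) (.e (nat_lit 85022) (nat_lit 0) .nil) .nil))) 
(.lf (nat_lit 470831) (.g (nat_lit 2008) (.e (nat_lit 3397) (nat_lit 211) (.e (nat_lit 647183) (nat_lit 4) (.e (nat_lit 172080) (nat_lit 7) (.e (nat_lit 409642) (nat_lit 17) (.e (nat_lit 294974) (nat_lit 29) (.e (nat_lit 442399) (nat_lit 20) .nil)))))) (.g (nat_lit 1) (.e (nat_lit 86459) (nat_lit 0) .nil) .nil))))) (.nd (nat_lit 8) (.nd (nat_lit 9) 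
(.lf (nat_lit 470191) (.g (nat_lit 2932) (.e (nat_lit 3308) (nat_lit 202) (.e (nat_lit 573491) (nat_lit 15) (.e (nat_lit 81954) (nat_lit 23) (.e (nat_lit 98384) (nat_lit 32) (.e (nat_lit 475209) (nat_lit 41) (.e (nat_lit 712716) (nat_lit 15) .nil)))))) (.g (nat_lit 1) (.e (nat_lit 84692) (nat_lit 0) .nil) .nil))) 
(.lf (nat_lit 470703) (.g (nat_lit 2315) (.e (nat_lit 3420) (nat_lit 213) (.e (nat_lit 663583) (nat_lit 11) (.e (nat_lit 24608) (nat_lit 3) (.e (nat_lit 98373) (nat_lit 29) (.e (nat_lit 458496) (nat_lit 3) .nil))))) (.g (nat_lit 0) (.e (nat_lit 86285) (nat_lit 0) .nil) .nil)))) (.nd (nat_lit 9) 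
(.lf (nat_lit 470447) (.g (nat_lit 1865) (.e (nat_lit 3309) (nat_lit 202) (.e (nat_lit 573485) (nat_lit 13) (.e (nat_lit 65630) (nat_lit 14) (.e (nat_lit 401425) (nat_lit 2) (.e (nat_lit 196672) (nat_lit 15) (.e (nat_lit 89856) (nat_lit 0) .nil)))))) (.g (nat_lit 1) (.e (nat_lit 85490) (nat_lit 0) .nil) .nil))) 
(.lf (nat_lit 470959) (.g (nat_lit 1233) (.e (nat_lit 3397) (nat_lit 211) (.e (nat_lit 647185) (nat_lit 6) (.e (nat_lit 188439) (nat_lit 20) (.e (nat_lit 3408) (nat_lit 212) (.e (nat_lit 655380) (nat_lit 6) (.e (nat_lit 188430) (nat_lit 20) .nil)))))) (.g (nat_lit 1) (.e (nat_lit 86600) (nat_lit 0) .nil) .nil)))))) (.nd (nat_lit 7) (.nd (nat_lit 8) (.nd (nat_lit 9) 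
(.lf (nat_lit 470127) (.g (nat_lit 4083) (.e (nat_lit 3308) (nat_lit 202) (.e (nat_lit 573482) (nat_lit 13) (.e (nat_lit 65619) (nat_lit 10) (.e (nat_lit 344117) (nat_lit 21) (.e (nat_lit 516185) (nat_lit 16) (.e (nat_lit 491548) (nat_lit 9) (.e (nat_lit 336306) (nat_lit 15) .nil))))))) (.g (nat_lit 1) (.e (nat_lit 84427) (nat_lit 0) .nil) .nil))) 
(.lf (nat_lit 470639) (.g (nat_lit 2019) (.e (nat_lit 3356) (nat_lit 207) (.e (nat_lit 614435) (nat_lit 11) (.e (nat_lit 16416) (nat_lit 3) (.e (nat_lit 204861) (nat_lit 26) (.e (nat_lit 336186) (nat_lit 11) (.e (nat_lit 368676) (nat_lit 21) (.e (nat_lit 516097) (nat_lit 0) .nil))))))) (.g (nat_lit 1) (.e (nat_lit 85956) (nat_lit 0) .nil) .nil)))) (.nd (nat_lit 9) 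
(.lf (nat_lit 470383) (.g (nat_lit 3879) (.e (nat_lit 3309) (nat_lit 202) (.e (nat_lit 573484) (nat_lit 13) (.e (nat_lit 65610) (nat_lit 10) (.e (nat_lit 344129) (nat_lit 26) (.e (nat_lit 557087) (nat_lit 11) (.e (nat_lit 24627) (nat_lit 9) (.e (nat_lit 336240) (nat_lit 15) .nil))))))) (.g (nat_lit 1) (.e (nat_lit 85267) (nat_lit 0) .nil) .nil))) 
(.lf (nat_lit 470895) (.g (nat_lit 2859) (.e (nat_lit 3397) (nat_lit 211) (.e (nat_lit 647183) (nat_lit 4) (.e (nat_lit 172120) (nat_lit 12) (.e (nat_lit 475198) (nat_lit 40) (.e (nat_lit 704593) (nat_lit 4) (.e (nat_lit 172094) (nat_lit 9) (.e (nat_lit 426025) (nat_lit 0) .nil))))))) (.g (nat_lit 1) (.e (nat_lit 86527) (nat_lit 0) .nil) .nil))))) (.nd (nat_lit 8) (.nd (nat_lit 9) 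
(.lf (nat_lit 470255) (.g (nat_lit 4950) (.e (nat_lit 3308) (nat_lit 202) (.e (nat_lit 573493) (nat_lit 15) (.e (nat_lit 81953) (nat_lit 22) (.e (nat_lit 90145) (nat_lit 9) .nil)))) (.g (nat_lit 0) (.e (nat_lit 84854) (nat_lit 0) .nil) .nil))) 
(.lf (nat_lit 470767) (.g (nat_lit 3443) (.e (nat_lit 3397) (nat_lit 211) (.e (nat_lit 647181) (nat_lit 3) (.e (nat_lit 163978) (nat_lit 30) (.e (nat_lit 573479) (nat_lit 13) (.e (nat_lit 65604) (nat_lit 9) (.e (nat_lit 336013) (nat_lit 2) (.e (nat_lit 90170) (nat_lit 13) (.e (nat_lit 172032) (nat_lit 0) .nil)))))))) (.g (nat_lit 1) (.e (nat_lit 86377) (nat_lit 0) .nil) .nil)))) (.nd (nat_lit 9) 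
(.lf (nat_lit 470511) (.g (nat_lit 2255) (.e (nat_lit 3276) (nat_lit 200) (.e (nat_lit 557105) (nat_lit 14) (.e (nat_lit 180252) (nat_lit 10) (.e (nat_lit 573480) (nat_lit 13) (.e (nat_lit 65644) (nat_lit 22) (.e (nat_lit 245776) (nat_lit 4) (.e (nat_lit 172034) (nat_lit 0) .nil))))))) (.g (nat_lit 1) (.e (nat_lit 85776) (nat_lit 0) .nil) .nil))) 
(.lf (nat_lit 471023) (.g (nat_lit 2992) (.e (nat_lit 3399) (nat_lit 211) (.e (nat_lit 647181) (nat_lit 3) (.e (nat_lit 163977) (nat_lit 30) (.e (nat_lit 573491) (nat_lit 15) (.e (nat_lit 81954) (nat_lit 23) (.e (nat_lit 98361) (nat_lit 26) (.e (nat_lit 426025) (nat_lit 0) .nil))))))) (.g (nat_lit 1) (.e (nat_lit 86708) (nat_lit 0) .nil) .nil)))))))) 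
(.nd (nat_lit 5) (.nd (nat_lit 6) (.nd (nat_lit 7) (.nd (nat_lit 8) (.nd (nat_lit 9) 
(.lf (nat_lit 470047) (.g (nat_lit 1861) (.e (nat_lit 3308) (nat_lit 202) (.e (nat_lit 573482) (nat_lit 13) (.e (nat_lit 65604) (nat_lit 9) (.e (nat_lit 336013) (nat_lit 2) (.e (nat_lit 90165) (nat_lit 12) .nil))))) (.g (nat_lit 0) (.e (nat_lit 84342) (nat_lit 0) .nil) .nil))) 
(.lf (nat_lit 470559) (.g (nat_lit 2219) (.e (nat_lit 3281) (nat_lit 200) (.e (nat_lit 557103) (nat_lit 14) (.e (nat_lit 180250) (nat_lit 10) (.e (nat_lit 573480) (nat_lit 13) (.e (nat_lit 65644) (nat_lit 22) (.e (nat_lit 245776) (nat_lit 4) (.e (nat_lit 172036) (nat_lit 0) .nil))))))) (.g (nat_lit 1) (.e (nat_lit 85830) (nat_lit 0) .nil) .nil)))) (.nd (nat_lit 9) 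
(.lf (nat_lit 470303) (.g (nat_lit 2769) (.e (nat_lit 3308) (nat_lit 202) (.e (nat_lit 573493) (nat_lit 15) (.e (nat_lit 81956) (nat_lit 23) (.e (nat_lit 98325) (nat_lit 17) (.e (nat_lit 7936) (nat_lit 406) (.e (nat_lit 73472) (nat_lit 15) .nil)))))) (.g (nat_lit 1) (.e (nat_lit 84967) (nat_lit 0) .nil) .nil))) 
(.lf (nat_lit 470815) (.g (nat_lit 4151) (.e (nat_lit 3397) (nat_lit 211) (.e (nat_lit 647181) (nat_lit 3) (.e (nat_lit 163979) (nat_lit 30) (.e (nat_lit 573493) (nat_lit 15) (.e (nat_lit 81956) (nat_lit 23) (.e (nat_lit 98359) (nat_lit 26) (.e (nat_lit 426022) (nat_lit 0) .nil))))))) (.g (nat_lit 1) (.e (nat_lit 86427) (nat_lit 0) .nil) .nil))))) (.nd (nat_lit 8) (.nd (nat_lit 9) 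
(.lf (nat_lit 470175) (.g (nat_lit 461) (.e (nat_lit 3308) (nat_lit 202) (.e (nat_lit 573489) (nat_lit 14) (.e (nat_lit 73755) (nat_lit 8) .nil))) (.g (nat_lit 0) (.e (nat_lit 84541) (nat_lit 0) .nil) .nil))) 
(.lf (nat_lit 470687) (.g (nat_lit 3017) (.e (nat_lit 3391) (nat_lit 210) (.e (nat_lit 639020) (nat_lit 16) (.e (nat_lit 65571) (nat_lit 3) (.e (nat_lit 98372) (nat_lit 29) (.e (nat_lit 458496) (nat_lit 3) .nil))))) (.g (nat_lit 0) (.e (nat_lit 86166) (nat_lit 0) .nil) .nil)))) (.nd (nat_lit 9) 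
(.lf (nat_lit 470431) (.g (nat_lit 2721) (.e (nat_lit 3309) (nat_lit 202) (.e (nat_lit 573485) (nat_lit 13) (.e (nat_lit 65619) (nat_lit 10) (.e (nat_lit 344129) (nat_lit 26) (.e (nat_lit 557087) (nat_lit 11) (.e (nat_lit 24632) (nat_lit 9) (.e (nat_lit 343808) (nat_lit 15) .nil))))))) (.g (nat_lit 1) (.e (nat_lit 85473) (nat_lit 0) .nil) .nil))) 
(.lf (nat_lit 470943) (.g (nat_lit 2715) (.e (nat_lit 3397) (nat_lit 211) (.e (nat_lit 647183) (nat_lit 4) (.e (nat_lit 172126) (nat_lit 14) (.e (nat_lit 491571) (nat_lit 13) (.e (nat_lit 393274) (nat_lit 23) (.e (nat_lit 426022) (nat_lit 0) .nil)))))) (.g (nat_lit 1) (.e (nat_lit 86575) (nat_lit 0) .nil) .nil)))))) (.nd (nat_lit 7) (.nd (nat_lit 8) (.nd (nat_lit 9) 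
(.lf (nat_lit 470111) (.g (nat_lit 2940) (.e (nat_lit 3308) (nat_lit 202) (.e (nat_lit 573482) (nat_lit 13) (.e (nat_lit 65619) (nat_lit 10) (.e (nat_lit 344117) (nat_lit 21) (.e (nat_lit 516106) (nat_lit 0) (.e (nat_lit 7936) (nat_lit 406) (.e (nat_lit 73472) (nat_lit 15) .nil))))))) (.g (nat_lit 1) (.e (nat_lit 84411) (nat_lit 0) .nil) .nil))) 
(.lf (nat_lit 470623) (.g (nat_lit 1484) (.e (nat_lit 3289) (nat_lit 201) (.e (nat_lit 565269) (nat_lit 6) (.e (nat_lit 81946) (nat_lit 20) (.e (nat_lit 2390) (nat_lit 156) (.e (nat_lit 819221) (nat_lit 6) (.e (nat_lit 188438) (nat_lit 20) .nil)))))) (.g (nat_lit 1) (.e (nat_lit 85924) (nat_lit 0) .nil) .nil)))) (.nd (nat_lit 9) 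
(.lf (nat_lit 470367) (.g (nat_lit 2327) (.e (nat_lit 3309) (nat_lit 202) (.e (nat_lit 573484) (nat_lit 13) (.e (nat_lit 65610) (nat_lit 10) (.e (nat_lit 344117) (nat_lit 21) (.e (nat_lit 516185) (nat_lit 16) (.e (nat_lit 491548) (nat_lit 9) (.e (nat_lit 336240) (nat_lit 15) .nil))))))) (.g (nat_lit 1) (.e (nat_lit 85193) (nat_lit 0) .nil) .nil))) 
(.lf (nat_lit 470879) (.g (nat_lit 1423) (.e (nat_lit 3397) (nat_lit 211) (.e (nat_lit 647183) (nat_lit 4) (.e (nat_lit 172118) (nat_lit 12) (.e (nat_lit 475197) (nat_lit 40) (.e (nat_lit 704598) (nat_lit 6) (.e (nat_lit 188427) (nat_lit 20) .nil)))))) (.g (nat_lit 1) (.e (nat_lit 86511) (nat_lit 0) .nil) .nil))))) (.nd (nat_lit 8) (.nd (nat_lit 9) 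
(.lf (nat_lit 470239) (.g (nat_lit 4803) (.e (nat_lit 3308) (nat_lit 202) (.e (nat_lit 573493) (nat_lit 15) (.e (nat_lit 81953) (nat_lit 22) (.e (nat_lit 90125) (nat_lit 9) .nil)))) (.g (nat_lit 0) (.e (nat_lit 84836) (nat_lit 0) .nil) .nil))) 
(.lf (nat_lit 470751) (.g (nat_lit 1728) (.e (nat_lit 3397) (nat_lit 211) (.e (nat_lit 647181) (nat_lit 3) (.e (nat_lit 163977) (nat_lit 30) (.e (nat_lit 573491) (nat_lit 15) (.e (nat_lit 81954) (nat_lit 23) .nil))))) (.g (nat_lit 0) (.e (nat_lit 86361) (nat_lit 0) .nil) .nil)))) (.nd (nat_lit 9) 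
(.lf (nat_lit 470495) (.g (nat_lit 2319) (.e (nat_lit 3275) (nat_lit 200) (.e (nat_lit 557104) (nat_lit 14) (.e (nat_lit 180252) (nat_lit 10) (.e (nat_lit 573480) (nat_lit 13) (.e (nat_lit 65568) (nat_lit 2) (.e (nat_lit 98048) (nat_lit 2) (.e (nat_lit 16388) (nat_lit 0) .nil))))))) (.g (nat_lit 1) (.e (nat_lit 85759) (nat_lit 0) .nil) .nil))) 
(.lf (nat_lit 471007) (.g (nat_lit 3889) (.e (nat_lit 3399) (nat_lit 211) (.e (nat_lit 647181) (nat_lit 3) (.e (nat_lit 163977) (nat_lit 30) (.e (nat_lit 573485) (nat_lit 13) (.e (nat_lit 65604) (nat_lit 9) (.e (nat_lit 336013) (nat_lit 2) (.e (nat_lit 90170) (nat_lit 13) (.e (nat_lit 172035) (nat_lit 0) .nil)))))))) (.g (nat_lit 1) (.e (nat_lit 86691) (nat_lit 0) .nil) .nil))))))) 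
(.nd (nat_lit 6) (.nd (nat_lit 7) (.nd (nat_lit 8) (.nd (nat_lit 9) 
(.lf (nat_lit 470079) (.g (nat_lit 2472) (.e (nat_lit 3308) (nat_lit 202) (.e (nat_lit 573482) (nat_lit 13) (.e (nat_lit 65609) (nat_lit 10) (.e (nat_lit 344133) (nat_lit 26) (.e (nat_lit 557086) (nat_lit 11) (.e (nat_lit 24630) (nat_lit 9) (.e (nat_lit 336306) (nat_lit 15) .nil))))))) (.g (nat_lit 1) (.e (nat_lit 84377) (nat_lit 0) .nil) .nil))) 
(.lf (nat_lit 470591) (.g (nat_lit 968) (.e (nat_lit 3288) (nat_lit 201) (.e (nat_lit 565269) (nat_lit 6) (.e (nat_lit 81947) (nat_lit 20) (.e (nat_lit 2390) (nat_lit 156) .nil)))) (.g (nat_lit 0) (.e (nat_lit 85884) (nat_lit 0) .nil) .nil)))) (.nd (nat_lit 9) 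
(.lf (nat_lit 470335) (.g (nat_lit 3452) (.e (nat_lit 3308) (nat_lit 202) (.e (nat_lit 573493) (nat_lit 15) (.e (nat_lit 81956) (nat_lit 23) (.e (nat_lit 98387) (nat_lit 33) (.e (nat_lit 491550) (nat_lit 9) (.e (nat_lit 336306) (nat_lit 15) .nil)))))) (.g (nat_lit 1) (.e (nat_lit 85073) (nat_lit 0) .nil) .nil))) 
(.lf (nat_lit 470847) (.g (nat_lit 3217) (.e (nat_lit 3397) (nat_lit 211) (.e (nat_lit 647183) (nat_lit 4) (.e (nat_lit 172097) (nat_lit 9) (.e (nat_lit 426109) (nat_lit 1) (.e (nat_lit 164347) (nat_lit 240) (.e (nat_lit 2650) (nat_lit 166) (.e (nat_lit 188427) (nat_lit 20) .nil))))))) (.g (nat_lit 1) (.e (nat_lit 86475) (nat_lit 0) .nil) .nil))))) (.nd (nat_lit 8) (.nd (nat_lit 9) 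
(.lf (nat_lit 470207) (.g (nat_lit 2793) (.e (nat_lit 3308) (nat_lit 202) (.e (nat_lit 573491) (nat_lit 15) (.e (nat_lit 81956) (nat_lit 23) (.e (nat_lit 98389) (nat_lit 33) (.e (nat_lit 491547) (nat_lit 9) (.e (nat_lit 336306) (nat_lit 15) .nil)))))) (.g (nat_lit 1) (.e (nat_lit 84714) (nat_lit 0) .nil) .nil))) 
(.lf (nat_lit 470719) (.g (nat_lit 2282) (.e (nat_lit 3397) (nat_lit 211) (.e (nat_lit 647181) (nat_lit 3) (.e (nat_lit 163977) (nat_lit 30) (.e (nat_lit 573481) (nat_lit 13) (.e (nat_lit 65604) (nat_lit 9) (.e (nat_lit 336028) (nat_lit 3) (.e (nat_lit 98359) (nat_lit 26) (.e (nat_lit 426025) (nat_lit 0) .nil)))))))) (.g (nat_lit 1) (.e (nat_lit 86329) (nat_lit 0) .nil) .nil)))) (.nd (nat_lit 9) 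
(.lf (nat_lit 470463) (.g (nat_lit 3019) (.e (nat_lit 3309) (nat_lit 202) (.e (nat_lit 573489) (nat_lit 14) (.e (nat_lit 73755) (nat_lit 8) (.e (nat_lit 557098) (nat_lit 13) (.e (nat_lit 179968) (nat_lit 18) (.e (nat_lit 98334) (nat_lit 18) (.e (nat_lit 164330) (nat_lit 230) (.e (nat_lit 163841) (nat_lit 0) .nil)))))))) (.g (nat_lit 1) (.e (nat_lit 85536) (nat_lit 0) .nil) .nil))) 
(.lf (nat_lit 470975) (.g (nat_lit 3038) (.e (nat_lit 3399) (nat_lit 211) (.e (nat_lit 647180) (nat_lit 3) (.e (nat_lit 163976) (nat_lit 30) (.e (nat_lit 573481) (nat_lit 13) (.e (nat_lit 65604) (nat_lit 9) (.e (nat_lit 336013) (nat_lit 2) (.e (nat_lit 90170) (nat_lit 13) (.e (nat_lit 172039) (nat_lit 0) .nil)))))))) (.g (nat_lit 1) (.e (nat_lit 86654) (nat_lit 0) .nil) .nil)))))) 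
(.nd (nat_lit 7) (.nd (nat_lit 8) (.nd (nat_lit 9) 
(.lf (nat_lit 470143) (.g (nat_lit 4227) (.e (nat_lit 3308) (nat_lit 202) (.e (nat_lit 573482) (nat_lit 13) (.e (nat_lit 65619) (nat_lit 10) (.e (nat_lit 344129) (nat_lit 26) (.e (nat_lit 557087) (nat_lit 11) (.e (nat_lit 24630) (nat_lit 9) (.e (nat_lit 336306) (nat_lit 15) .nil))))))) (.g (nat_lit 1) (.e (nat_lit 84444) (nat_lit 0) .nil) .nil))) 
(.lf (nat_lit 470655) (.g (nat_lit 2068) (.e (nat_lit 3386) (nat_lit 210) (.e (nat_lit 639020) (nat_lit 16) (.e (nat_lit 65571) (nat_lit 3) (.e (nat_lit 98374) (nat_lit 29) .nil)))) (.g (nat_lit 0) (.e (nat_lit 85979) (nat_lit 0) .nil) .nil)))) (.nd (nat_lit 9) 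
(.lf (nat_lit 470399) (.g (nat_lit 3371) (.e (nat_lit 3309) (nat_lit 202) (.e (nat_lit 573484) (nat_lit 13) (.e (nat_lit 65624) (nat_lit 12) (.e (nat_lit 385074) (nat_lit 31) (.e (nat_lit 573493) (nat_lit 15) (.e (nat_lit 89856) (nat_lit 0) .nil)))))) (.g (nat_lit 1) (.e (nat_lit 85365) (nat_lit 0) .nil) .nil))) 
(.lf (nat_lit 470911) (.g (nat_lit 2255) (.e (nat_lit 3397) (nat_lit 211) (.e (nat_lit 647183) (nat_lit 4) (.e (nat_lit 172124) (nat_lit 14) (.e (nat_lit 491570) (nat_lit 13) (.e (nat_lit 393266) (nat_lit 23) (.e (nat_lit 426025) (nat_lit 0) .nil)))))) (.g (nat_lit 1) (.e (nat_lit 86543) (nat_lit 0) .nil) .nil))))) (.nd (nat_lit 8) (.nd (nat_lit 9) 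
(.lf (nat_lit 470271) (.g (nat_lit 2790) (.e (nat_lit 3308) (nat_lit 202) (.e (nat_lit 573493) (nat_lit 15) (.e (nat_lit 81954) (nat_lit 23) (.e (nat_lit 98325) (nat_lit 17) (.e (nat_lit 6966) (nat_lit 377) .nil))))) (.g (nat_lit 0) (.e (nat_lit 84901) (nat_lit 0) .nil) .nil))) 
(.lf (nat_lit 470783) (.g (nat_lit 4206) (.e (nat_lit 3397) (nat_lit 211) (.e (nat_lit 647181) (nat_lit 3) (.e (nat_lit 163978) (nat_lit 30) (.e (nat_lit 573485) (nat_lit 13) (.e (nat_lit 65604) (nat_lit 9) (.e (nat_lit 336028) (nat_lit 3) (.e (nat_lit 98359) (nat_lit 26) (.e (nat_lit 426023) (nat_lit 0) .nil)))))))) (.g (nat_lit 1) (.e (nat_lit 86393) (nat_lit 0) .nil) .nil)))) (.nd (nat_lit 9) 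
(.lf (nat_lit 470527) (.g (nat_lit 1855) (.e (nat_lit 3277) (nat_lit 200) (.e (nat_lit 557105) (nat_lit 14) (.e (nat_lit 180252) (nat_lit 10) (.e (nat_lit 573482) (nat_lit 13) .nil)))) (.g (nat_lit 0) (.e (nat_lit 85792) (nat_lit 0) .nil) .nil))) 
(.lf (nat_lit 471039) (.g (nat_lit 3728) (.e (nat_lit 3399) (nat_lit 211) (.e (nat_lit 647181) (nat_lit 3) (.e (nat_lit 163978) (nat_lit 30) (.e (nat_lit 573485) (nat_lit 13) (.e (nat_lit 65604) (nat_lit 9) (.e (nat_lit 336028) (nat_lit 3) (.e (nat_lit 98359) (nat_lit 26) (.e (nat_lit 426023) (nat_lit 0) .nil)))))))) (.g (nat_lit 1) (.e (nat_lit 86724) (nat_lit 0) .nil) .nil)))))))))))))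


end

end Pool.Agent.Lib.MP_5854e1_co.Cz
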